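import Pool.Agent.Work.MP_b30479_gt.TBS.LT.Cube

/-!
# The state sum of a two-bridge link as an instance of `Dat`
-/

namespace Pool.Agent.Work.MP_b30479_gtS.G2

open Finset VOL AX MeasureTheory
open Pool.Agent.Work.MP_b30479_gtS.LT

/-! ### types of twist regions -/

/-- How a twist region is written: `one`, `two`: closed kernel; `threeL`, `threeR`, `fourL`, `fourR`: one
inner discrete variable, the factor `a1` or `a2` is at the left or right hinge; `ring`: one inner
continuous variable. -/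
inductive Typ
  | one | two | threeL | threeR | fourL | fourR | ring
  deriving DecidableEq

/-- types with an inner discrete variable -/
def Typ.isMid : Typ → Bool
  | .one => false
  | .two => false
  | .ring => false
  | _ => true

/-- types with an inner continuous variable -/
def Typ.isRing : Typ → Bool
  | .ring => true
  | _ => false

/-- the twist region with `b` crossings can be written in this way -/
def Typ.IsOk : Typ → ℤ → Prop
  | .one, b => b.natAbs = 1
  | .two, b => b.natAbs = 2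
  | .threeL, b => b.natAbs = 3
  | .threeR, b => b.natAbs = 3
  | .fourL, b => b.natAbs = 4
  | .fourR, b => b.natAbs = 4
  | .ring, b => b ≠ 0

/-- a factor of a twist region: coefficients of the left hinge, the inner variable, the right
hinge; constant; shift -/
structure Fac where
  α : Fin 3 → ℤ
  a : ℝ
  c : ℝ

/-- the two factors of the left hinge -/
noncomputable def hL (l : Bool) : List Fac := if l then [⟨![-1, 0, 0], 1, -(1 / 2)⟩, ⟨![-1, 0, 0], 1, -(1 / 2)⟩] else []

/-- the two factors of the right hinge -/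
noncomputable def hR (r : Bool) : List Fac := if r then [⟨![0, 0, -1], 1, -(1 / 2)⟩, ⟨![0, 0, -1], 1, -(1 / 2)⟩] else []

/-- the factors of a twist region; `l`, `r`: there is a left (right) hinge -/
noncomputable def facs : Typ → Bool → Bool → List Fac
  | .one, l, r => (if l || r then [⟨![1, 0, 1], 0, 1 / 2⟩] else []) ++
      (if l then [⟨![-1, 0, 0], 1, -(1 / 2)⟩] else []) ++
      (if r then [⟨![0, 0, -1], 1, -(1 / 2)⟩] else [])
  | .two, l, r => (if l || r then [⟨![1, 0, 1], 0, 1 / 2⟩] else []) ++ hL l ++ hR r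
  | .threeL, l, r => [⟨![0, 1, 1], 0, 1 / 2⟩, ⟨![1, -1, 0], 1, -(1 / 2)⟩, ⟨![0, -1, 0], 1, -(1 / 2)⟩] ++
      (if l then [⟨![-1, 0, 0], 1, -(1 / 2)⟩] else []) ++ hR r
  | .threeR, l, r => [⟨![1, 1, 0], 0, 1 / 2⟩, ⟨![0, -1, 1], 1, -(1 / 2)⟩, ⟨![0, -1, 0], 1, -(1 / 2)⟩] ++
      hL l ++ (if r then [⟨![0, 0, -1], 1, -(1 / 2)⟩] else [])
  | .fourL, l, r => [⟨![0, 1, 1], 0, 1 / 2⟩, ⟨![1, -1, 0], 1, -(1 / 2)⟩] ++ hL l ++ hR r
  | .fourR, l, r => [⟨![1, 1, 0], 0, 1 / 2⟩, ⟨![0, -1, 1], 1, -(1 / 2)⟩] ++ hL l ++ hR r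
  | .ring, l, r => (if l then [⟨![1, 1, 0], 1 / 2, 0⟩, ⟨![1, -1, 0], 1 / 2, 0⟩] else []) ++ hL l ++
      (if r then [⟨![0, 1, 1], 1 / 2, 0⟩, ⟨![0, -1, 1], 1 / 2, 0⟩] else []) ++ hR r

/-- the quadratic part, in units of `π i / 2` times the sign of `b` -/
def qq2 : Typ → Fin 3 → Fin 3 → ℤ
  | .one => ![![0, 0, -1], ![0, 0, 0], ![-1, 0, 0]]
  | .two => ![![1, 0, -1], ![0, 0, 0], ![-1, 0, 1]]
  | .threeL => ![![0, 1, 0], ![1, 1, -1], ![0, -1, 1]]
  | .threeR => ![![1, -1, 0], ![-1, 1, 1], ![0, 1, 0]]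
  | .fourL => ![![1, 1, 0], ![1, 2, -1], ![0, -1, 1]]
  | .fourR => ![![1, -1, 0], ![-1, 2, 1], ![0, 1, 1]]
  | .ring => ![![0, 0, 0], ![0, 0, 0], ![0, 0, 0]]

/-- the linear part, in units of `π i / 2` times the sign of `b` -/
def rr1 : Typ → Fin 3 → ℤ
  | .one => ![2, 0, 2]
  | .two => ![1, 0, 1]
  | .threeL => ![0, -1, 1]
  | .threeR => ![1, -1, 0]
  | .fourL => ![-1, -2, 1]
  | .fourR => ![1, -2, -1]
  | .ring => ![0, 0, 0]

/-- `± π i / 2` -/
noncomputable def un (b : ℤ) : ℂ := (if 0 < b then 1 else -1) * (Real.pi * Complex.I / 2)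

/-! ### words -/

section
variable {M : ℕ} (t : Fin (M + 1) → Typ)

/-- discrete variables: hinges and inner discrete variables -/
abbrev DD := Fin M ⊕ {i : Fin (M + 1) // (t i).isMid = true}

/-- continuous variables -/
abbrev ZZ := {i : Fin (M + 1) // (t i).isRing = true}

/-- factors -/
abbrev KF := (i : Fin (M + 1)) × Fin (facs (t i) (decide (i ≠ 0)) (decide (i ≠ Fin.last M))).length

/-- a factor -/
noncomputable def fac (k : KF t) : Fac := (facs (t k.1) (decide (k.1 ≠ 0)) (decide (k.1 ≠ Fin.last M))).get k.2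

/-- the coefficient of the variable `j` in the local variable `p` of the twist region `i` -/
def cf (i : Fin (M + 1)) (p : Fin 3) : DD t ⊕ ZZ t → ℤ
  | .inl (.inl h) => if (p = 0 ∧ h.succ = i) ∨ (p = 2 ∧ h.castSucc = i) then 1 else 0
  | .inl (.inr m) => if p = 1 ∧ m.1 = i then 1 else 0
  | .inr v => if p = 1 ∧ v.1 = i then 1 else 0

/-- the local variables of the twist region `i` -/
noncomputable def xx (i : Fin (M + 1)) (z : DD t ⊕ ZZ t → ℂ) (p : Fin 3) : ℂ := ∑ j, cf t i p j * z j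

/-- the data -/
noncomputable def wdat (b : Fin (M + 1) → ℤ) : Dat (DD t) (ZZ t) (KF t) where
  A k j := ∑ p, (fac t k).α p * cf t k.1 p j
  a k := (fac t k).a
  c k := (fac t k).c
  b v := b v.1
  q j j' := ∑ i, ∑ p, ∑ p', un (b i) * (qq2 (t i) p p' * cf t i p j * cf t i p' j' : ℤ)
  r j := ∑ i, ∑ p, un (b i) * (rr1 (t i) p * cf t i p j : ℤ)
  e j := -∑ i, ∑ p, un (b i) * (rr1 (t i) p * cf t i p j : ℤ)

end

/-! ### the local functions of a twist region -/

/-- an affine form of the local variables -/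
noncomputable def Fac.form (f : Fac) (x : Fin 3 → ℂ) : ℂ := f.a + ∑ p, f.α p * x p

/-- the quadratic polynomial of the local variables -/
noncomputable def lquad (t : Typ) (b : ℤ) (x : Fin 3 → ℂ) : ℂ :=
  un b * (∑ p, ∑ p', qq2 t p p' * x p * x p' + ∑ p, rr1 t p * x p)

/-- the linear exponent of the amplitude -/
noncomputable def llin (t : Typ) (b : ℤ) (x : Fin 3 → ℂ) : ℂ := -(un b * ∑ p, rr1 t p * x p)

/-- the factor of a twist region -/
noncomputable def lG (t : Typ) (b : ℤ) (l r : Bool) (n : ℕ) (x : Fin 3 → ℂ) : ℂ :=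
  Complex.exp (n * lquad t b x + llin t b x) *
    ((facs t l r).map fun f => SE n (f.form x + (f.c / n : ℝ))).prod

/-- the potential of a twist region (without the weight of the continuous variable) -/
noncomputable def lT (t : Typ) (b : ℤ) (l r : Bool) (x : Fin 3 → ℂ) : ℂ :=
  lquad t b x + ((facs t l r).map fun f => Fh (f.form x)).sum

/-- the growth rate of a twist region (without the weight of the continuous variable) -/
noncomputable def lV (t : Typ) (b : ℤ) (l r : Bool) (x : Fin 3 → ℂ) : ℝ :=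
  (lquad t b x).re + ((facs t l r).map fun f => UU (f.form x)).sum

section
variable {M : ℕ} (t : Fin (M + 1) → Typ) (b : Fin (M + 1) → ℤ) (z : DD t ⊕ ZZ t → ℂ)

lemma wdat_form (k : KF t) : (wdat t b).form k z = (fac t k).form (xx t k.1 z) := by
  unfold Dat.form Fac.form wdat xx
  simp only
  congr 1
  push_cast
  simp_rw [Finset.sum_mul, Finset.mul_sum]
  rw [Finset.sum_comm]
  refine Finset.sum_congr rfl fun p _ => Finset.sum_congr rfl fun j _ => ?_
  ring

lemma sum_list {α : Type} (L : List α) (f : α → ℂ) : ∑ i : Fin L.length, f (L.get i) = (L.map f).sum := by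
  rw [← Fin.sum_univ_fun_getElem]
  rfl

lemma sum_listR {α : Type} (L : List α) (f : α → ℝ) : ∑ i : Fin L.length, f (L.get i) = (L.map f).sum := by
  rw [← Fin.sum_univ_fun_getElem]
  rfl

lemma prod_list {α : Type} (L : List α) (f : α → ℂ) : ∏ i : Fin L.length, f (L.get i) = (L.map f).prod := by
  rw [← Fin.prod_univ_fun_getElem]
  rfl

lemma wdat_quad : (wdat t b).quad z = ∑ i, lquad (t i) (b i) (xx t i z) := by
  have h1 : ∑ j, ∑ j', (wdat t b).q j j' * z j * z j' =
      ∑ i, un (b i) * ∑ p, ∑ p', qq2 (t i) p p' * xx t i z p * xx t i z p' := by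
    have e1 : ∀ i p p', (qq2 (t i) p p' : ℂ) * xx t i z p * xx t i z p' =
        ∑ j, ∑ j', (qq2 (t i) p p' : ℂ) * (cf t i p j * z j) * (cf t i p' j' * z j') := by
      intro i p p'
      unfold xx
      rw [mul_assoc, Finset.sum_mul_sum, Finset.mul_sum]
      refine Finset.sum_congr rfl fun j _ => ?_
      rw [Finset.mul_sum]
      refine Finset.sum_congr rfl fun j' _ => ?_
      ring
    simp_rw [e1]
    unfold wdat
    simp only
    simp_rw [Finset.sum_mul, Finset.mul_sum]
    have e2 : ∀ (F : DD t ⊕ ZZ t → DD t ⊕ ZZ t → Fin (M + 1) → Fin 3 → Fin 3 → ℂ),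
        ∑ j, ∑ j', ∑ i, ∑ p, ∑ p', F j j' i p p' = ∑ i, ∑ p, ∑ p', ∑ j, ∑ j', F j j' i p p' := by
      intro F
      calc _ = ∑ j, ∑ i, ∑ j', ∑ p, ∑ p', F j j' i p p' :=
            Finset.sum_congr rfl fun j _ => Finset.sum_comm
        _ = ∑ i, ∑ j, ∑ j', ∑ p, ∑ p', F j j' i p p' := Finset.sum_comm
        _ = ∑ i, ∑ j, ∑ p, ∑ j', ∑ p', F j j' i p p' :=
            Finset.sum_congr rfl fun i _ => Finset.sum_congr rfl fun j _ => Finset.sum_comm
        _ = ∑ i, ∑ p, ∑ j, ∑ j', ∑ p', F j j' i p p' :=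
            Finset.sum_congr rfl fun i _ => Finset.sum_comm
        _ = ∑ i, ∑ p, ∑ j, ∑ p', ∑ j', F j j' i p p' :=
            Finset.sum_congr rfl fun i _ => Finset.sum_congr rfl fun p _ =>
              Finset.sum_congr rfl fun j _ => Finset.sum_comm
        _ = _ := Finset.sum_congr rfl fun i _ => Finset.sum_congr rfl fun p _ => Finset.sum_comm
    rw [e2]
    refine Finset.sum_congr rfl fun i _ => Finset.sum_congr rfl fun p _ =>
      Finset.sum_congr rfl fun p' _ => Finset.sum_congr rfl fun j _ =>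
      Finset.sum_congr rfl fun j' _ => ?_
    push_cast
    ring
  have h2 : ∑ j, (wdat t b).r j * z j = ∑ i, un (b i) * ∑ p, rr1 (t i) p * xx t i z p := by
    unfold wdat xx
    simp only
    simp_rw [Finset.sum_mul, Finset.mul_sum]
    rw [Finset.sum_comm]
    refine Finset.sum_congr rfl fun i _ => ?_
    rw [Finset.sum_comm]
    refine Finset.sum_congr rfl fun p _ => Finset.sum_congr rfl fun j _ => ?_
    push_cast
    ring
  unfold Dat.quad
  rw [h1, h2, ← Finset.sum_add_distrib]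
  refine Finset.sum_congr rfl fun i _ => ?_
  unfold lquad
  ring

lemma wdat_lin : ∑ j, (wdat t b).e j * z j = ∑ i, llin (t i) (b i) (xx t i z) := by
  unfold wdat xx llin
  simp only
  simp_rw [neg_mul, Finset.sum_mul, Finset.mul_sum, Finset.sum_neg_distrib]
  congr 1
  rw [Finset.sum_comm]
  refine Finset.sum_congr rfl fun i _ => ?_
  rw [Finset.sum_comm]
  refine Finset.sum_congr rfl fun p _ => Finset.sum_congr rfl fun j _ => ?_
  push_cast
  ring

lemma wdat_G (n : ℕ) : (wdat t b).G n z =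
    ∏ i, lG (t i) (b i) (decide (i ≠ 0)) (decide (i ≠ Fin.last M)) n (xx t i z) := by
  unfold Dat.G lG
  rw [wdat_quad, wdat_lin, Finset.prod_mul_distrib, ← Complex.exp_sum, Finset.mul_sum,
    ← Finset.sum_add_distrib]
  congr 1
  rw [Fintype.prod_sigma]
  refine Finset.prod_congr rfl fun i _ => ?_
  rw [← prod_list]
  refine Finset.prod_congr rfl fun k _ => ?_
  rw [wdat_form]
  rfl

lemma wdat_T : (wdat t b).T z =
    ∑ i, lT (t i) (b i) (decide (i ≠ 0)) (decide (i ≠ Fin.last M)) (xx t i z) +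
    ∑ v : ZZ t, (Real.pi * Complex.I * b v.1 * z (.inr v) ^ 2 +
      2 * Real.pi * Complex.I * z (.inr v)) := by
  have h1 : ∑ k, Fh ((wdat t b).form k z) = ∑ i, ((facs (t i) (decide (i ≠ 0))
      (decide (i ≠ Fin.last M))).map fun f => Fh (f.form (xx t i z))).sum := by
    rw [Fintype.sum_sigma]
    refine Finset.sum_congr rfl fun i _ => ?_
    rw [← sum_list]
    refine Finset.sum_congr rfl fun k _ => ?_
    rw [wdat_form]
    rfl
  unfold Dat.T lT
  rw [wdat_quad, h1]
  simp only [Finset.sum_add_distrib]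
  rw [add_right_comm]
  rfl

lemma wdat_V : (wdat t b).V z =
    ∑ i, lV (t i) (b i) (decide (i ≠ 0)) (decide (i ≠ Fin.last M)) (xx t i z) +
    ∑ v : ZZ t, (Real.pi * Complex.I * b v.1 * z (.inr v) ^ 2 +
      2 * Real.pi * Complex.I * z (.inr v)).re := by
  have h1 : ∑ k, UU ((wdat t b).form k z) = ∑ i, ((facs (t i) (decide (i ≠ 0))
      (decide (i ≠ Fin.last M))).map fun f => UU (f.form (xx t i z))).sum := by
    rw [Fintype.sum_sigma]
    refine Finset.sum_congr rfl fun i _ => ?_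
    rw [← sum_listR]
    refine Finset.sum_congr rfl fun k _ => ?_
    rw [wdat_form]
    rfl
  unfold Dat.V lV
  rw [wdat_quad, h1]
  simp only [Finset.sum_add_distrib, Complex.add_re, Complex.re_sum]
  rw [add_right_comm]
  rfl

end

/-! ### the local variables -/

section
variable {M : ℕ} (t : Fin (M + 1) → Typ)

lemma xx_eq (i : Fin (M + 1)) (z : DD t ⊕ ZZ t → ℂ) (p : Fin 3) : xx t i z p =
    (∑ h : Fin M, (cf t i p (.inl (.inl h)) : ℂ) * z (.inl (.inl h)) +
      ∑ m : {i : Fin (M + 1) // (t i).isMid = true},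
        (cf t i p (.inl (.inr m)) : ℂ) * z (.inl (.inr m))) +
    ∑ v : ZZ t, (cf t i p (.inr v) : ℂ) * z (.inr v) := by
  unfold xx
  rw [Fintype.sum_sum_type, Fintype.sum_sum_type]

lemma xx_left_zero (z : DD t ⊕ ZZ t → ℂ) : xx t 0 z 0 = 0 := by
  rw [xx_eq]
  simp [cf, Fin.succ_ne_zero]

lemma xx_left (h : Fin M) (z : DD t ⊕ ZZ t → ℂ) : xx t h.succ z 0 = z (.inl (.inl h)) := by
  rw [xx_eq]
  simp [cf]

lemma xx_right_last (z : DD t ⊕ ZZ t → ℂ) : xx t (Fin.last M) z 2 = 0 := by
  rw [xx_eq]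
  simp [cf, Fin.castSucc_ne_last]

lemma xx_right (h : Fin M) (z : DD t ⊕ ZZ t → ℂ) : xx t h.castSucc z 2 = z (.inl (.inl h)) := by
  rw [xx_eq]
  simp [cf]

lemma xx_mid {i : Fin (M + 1)} (hi : (t i).isMid = true) (z : DD t ⊕ ZZ t → ℂ) :
    xx t i z 1 = z (.inl (.inr ⟨i, hi⟩)) := by
  have h2 : ∀ v : ZZ t, v.1 ≠ i := by
    rintro ⟨v, hv⟩ rfl
    simp only at hi
    cases h : t v <;> simp [h, Typ.isMid, Typ.isRing] at hi hv
  rw [xx_eq, Finset.sum_eq_single (⟨i, hi⟩ : {i : Fin (M + 1) // (t i).isMid = true})]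
  · simp [cf, h2]
  · intro m _ hm
    have : m.1 ≠ i := fun h => hm (Subtype.ext h)
    simp [cf, this]
  · intro h
    exact absurd (Finset.mem_univ _) h

lemma xx_ring {i : Fin (M + 1)} (hi : (t i).isRing = true) (z : DD t ⊕ ZZ t → ℂ) :
    xx t i z 1 = z (.inr ⟨i, hi⟩) := by
  have h2 : ∀ v : {i : Fin (M + 1) // (t i).isMid = true}, v.1 ≠ i := by
    rintro ⟨v, hv⟩ rfl
    simp only at hi
    cases h : t v <;> simp [h, Typ.isMid, Typ.isRing] at hi hv
  rw [xx_eq, Finset.sum_eq_single (a := (⟨i, hi⟩ : ZZ t)) (s := Finset.univ)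
    (f := fun v : ZZ t => (cf t i 1 (.inr v) : ℂ) * z (.inr v))]
  · simp [cf, h2]
  · intro m _ hm
    have : m.1 ≠ i := fun h => hm (Subtype.ext h)
    simp [cf, this]
  · intro h
    exact absurd (Finset.mem_univ _) h

end

/-! ### derivatives -/

/-- the derivative of the potential of a twist region with respect to the local variable `p` -/
noncomputable def ldT (t : Typ) (b : ℤ) (l r : Bool) (x : Fin 3 → ℂ) (p : Fin 3) : ℂ :=
  un b * (∑ p', (qq2 t p p' + qq2 t p' p : ℤ) * x p' + rr1 t p) +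
    ((facs t l r).map fun f => f.α p * ph (f.form x)).sum

/-- half the second derivative of the potential of a twist region -/
noncomputable def lQ2 (t : Typ) (b : ℤ) (l r : Bool) (x : Fin 3 → ℂ) (Y : Fin 3 → ℂ) : ℂ :=
  un b * ∑ p, ∑ p', qq2 t p p' * Y p * Y p' +
    ((facs t l r).map fun f => ph' (f.form x) / 2 * (∑ p, f.α p * Y p) ^ 2).sum

section
variable {M : ℕ} (t : Fin (M + 1) → Typ) (b : Fin (M + 1) → ℤ) (z : DD t ⊕ ZZ t → ℂ)

theorem wdat_dT (j : DD t ⊕ ZZ t) : (wdat t b).dT z j =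
    ∑ i, ∑ p, cf t i p j *
      ldT (t i) (b i) (decide (i ≠ 0)) (decide (i ≠ Fin.last M)) (xx t i z) p +
    Sum.elim (fun _ => 0) (fun v : ZZ t => 2 * Real.pi * Complex.I * (b v.1 * z (.inr v) + 1)) j := by
  have h1 : ∑ j', ((wdat t b).q j j' + (wdat t b).q j' j) * z j' =
      ∑ i, ∑ p, cf t i p j * (un (b i) * ∑ p', (qq2 (t i) p p' + qq2 (t i) p' p : ℤ) *
        xx t i z p') := by
    have e1 : ∀ j', ((wdat t b).q j j' + (wdat t b).q j' j) * z j' =
        ∑ i, ∑ p, ∑ p', cf t i p j * (un (b i) * ((qq2 (t i) p p' + qq2 (t i) p' p : ℤ) *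
          (cf t i p' j' * z j'))) := by
      intro j'
      have e2 : (wdat t b).q j' j = ∑ i, ∑ p, ∑ p',
          un (b i) * (qq2 (t i) p' p * cf t i p' j' * cf t i p j : ℤ) := by
        show ∑ i, ∑ p, ∑ p', un (b i) * (qq2 (t i) p p' * cf t i p j' * cf t i p' j : ℤ) = _
        refine Finset.sum_congr rfl fun i _ => ?_
        rw [Finset.sum_comm]
      have e3 : (wdat t b).q j j' = ∑ i, ∑ p, ∑ p',
          un (b i) * (qq2 (t i) p p' * cf t i p j * cf t i p' j' : ℤ) := rfl
      rw [e2, e3]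
      simp_rw [← Finset.sum_add_distrib, Finset.sum_mul]
      refine Finset.sum_congr rfl fun i _ => Finset.sum_congr rfl fun p _ =>
        Finset.sum_congr rfl fun p' _ => ?_
      push_cast
      ring
    simp_rw [e1]
    rw [Finset.sum_comm]
    refine Finset.sum_congr rfl fun i _ => ?_
    rw [Finset.sum_comm]
    refine Finset.sum_congr rfl fun p _ => ?_
    rw [Finset.sum_comm, Finset.mul_sum, Finset.mul_sum]
    refine Finset.sum_congr rfl fun p' _ => ?_
    unfold xx
    rw [Finset.mul_sum, Finset.mul_sum, Finset.mul_sum]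
  have h2 : (wdat t b).r j = ∑ i, ∑ p, cf t i p j * (un (b i) * rr1 (t i) p) := by
    show ∑ i, ∑ p, un (b i) * (rr1 (t i) p * cf t i p j : ℤ) = _
    refine Finset.sum_congr rfl fun i _ => Finset.sum_congr rfl fun p _ => ?_
    push_cast
    ring
  have h3 : ∑ k, (wdat t b).A k j * ph ((wdat t b).form k z) =
      ∑ i, ∑ p, cf t i p j * ((facs (t i) (decide (i ≠ 0)) (decide (i ≠ Fin.last M))).map fun f =>
        f.α p * ph (f.form (xx t i z))).sum := by
    rw [Fintype.sum_sigma]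
    refine Finset.sum_congr rfl fun i _ => ?_
    simp_rw [← sum_list, Finset.mul_sum]
    rw [Finset.sum_comm]
    refine Finset.sum_congr rfl fun k _ => ?_
    rw [wdat_form]
    unfold wdat fac
    simp only
    push_cast
    rw [Finset.sum_mul]
    refine Finset.sum_congr rfl fun p _ => ?_
    ring
  unfold Dat.dT ldT
  rw [h1, h2, h3]
  simp only [mul_add, Finset.sum_add_distrib]
  have h4 : ∀ A B C D : ℂ, A + B + C + D = A + B + D + C := fun A B C D => by ring
  rw [h4]
  rfl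

theorem wdat_Q2 (X : DD t ⊕ ZZ t → ℝ) : (wdat t b).Q2 z X =
    ∑ i, lQ2 (t i) (b i) (decide (i ≠ 0)) (decide (i ≠ Fin.last M)) (xx t i z)
      (xx t i fun j => (X j : ℂ)) +
    ∑ v : ZZ t, Real.pi * Complex.I * b v.1 * (X (.inr v) : ℂ) ^ 2 := by
  have h1 := wdat_quad t b (fun j => (X j : ℂ))
  have h1' : ∑ j, ∑ j', (wdat t b).q j j' * X j * X j' =
      ∑ i, un (b i) * ∑ p, ∑ p', qq2 (t i) p p' * xx t i (fun j => (X j : ℂ)) p *
        xx t i (fun j => (X j : ℂ)) p' := by
    have h2 : ∑ j, (wdat t b).r j * (X j : ℂ) = ∑ i, un (b i) * ∑ p, rr1 (t i) p *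
        xx t i (fun j => (X j : ℂ)) p := by
      unfold wdat xx
      simp only
      simp_rw [Finset.sum_mul, Finset.mul_sum]
      rw [Finset.sum_comm]
      refine Finset.sum_congr rfl fun i _ => ?_
      rw [Finset.sum_comm]
      refine Finset.sum_congr rfl fun p _ => Finset.sum_congr rfl fun j _ => ?_
      push_cast
      ring
    unfold Dat.quad lquad at h1
    rw [h2] at h1
    simp only [mul_add, Finset.sum_add_distrib] at h1
    exact add_right_cancel h1
  have h3 : ∑ k, ph' ((wdat t b).form k z) / 2 * (∑ j, (wdat t b).A k j * (X j : ℂ)) ^ 2 =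
      ∑ i, ((facs (t i) (decide (i ≠ 0)) (decide (i ≠ Fin.last M))).map fun f =>
        ph' (f.form (xx t i z)) / 2 * (∑ p, f.α p * xx t i (fun j => (X j : ℂ)) p) ^ 2).sum := by
    rw [Fintype.sum_sigma]
    refine Finset.sum_congr rfl fun i _ => ?_
    rw [← sum_list]
    refine Finset.sum_congr rfl fun k _ => ?_
    rw [wdat_form]
    congr 2
    unfold wdat fac xx
    simp only
    push_cast
    simp_rw [Finset.sum_mul, Finset.mul_sum]
    rw [Finset.sum_comm]
    refine Finset.sum_congr rfl fun p _ => Finset.sum_congr rfl fun j _ => ?_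
    ring
  unfold Dat.Q2 lQ2
  rw [h1', h3]
  simp only [Finset.sum_add_distrib]
  rw [add_right_comm]
  rfl

end

end Pool.Agent.Work.MP_b30479_gtS.G2
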