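import Pool.Agent.Work.MP_b30479_gt.TBS.VOL.MProd
import Pool.Agent.Work.MP_b30479_gt.TBS.LT.Cube
import Pool.Agent.Work.MP_b30479_gt.TBS.VC.GaussND
import Pool.Agent.Work.MP_b30479_gt.TBS.G2.SEfD
import Pool.Agent.Work.MP_b30479_gt.TBS.VC.FStrip
import Mathlib.MeasureTheory.Integral.Prod

section

/-!
# Local limit of `Pn`, conjugation
-/

namespace Pool.Agent.Work.MP_b30479_gtS.G2

open Finset VOL AX Complex MeasureTheory

/-- the error of the expansion -/
noncomputable def En (n : ℕ) (w : ℂ) : ℂ := M n (w + 1 / (2 * n)) - n * Fh w - ph w / 2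

theorem Pn_eq_exp {n : ℕ} (hn : 4 ≤ n) {w : ℂ} (h0 : -(1 / (2 * (n : ℝ))) < w.re)
    (h1 : w.re < 1 - 1 / (2 * (n : ℝ))) :
    Pn n w = ((√(n : ℝ) : ℝ) : ℂ) * cexp (n * Fh w + ph w / 2 + En n w) := by
  rw [Pn_eq_Qn hn h0 h1, Qn, En]
  congr 2
  ring

theorem Rn_eq_exp {n : ℕ} (hn : 4 ≤ n) {w : ℂ} (h0 : -(1 / (2 * (n : ℝ))) < w.re)
    (h1 : w.re < 1 - 1 / (2 * (n : ℝ))) :
    Rn n w = (((√(n : ℝ))⁻¹ : ℝ) : ℂ) * cexp (-(n * Fh w + ph w / 2 + En n w)) := by
  obtain ⟨a1, a2, a3⟩ := half_n hn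
  rw [Rn_eq hn (by linarith only [h0, a1, a2]) (by linarith only [h1, a1, a2]), Pn_eq_exp hn h0 h1, mul_inv, Complex.exp_neg]
  push_cast
  rfl

/-- **The local limit**: the error is `O(1/n)`. -/
theorem norm_En_le {δ : ℝ} (hδ : 0 < δ) (hδ2 : δ ≤ 1 / 2) : ∃ C : ℝ, 0 ≤ C ∧ ∀ (n : ℕ) (w : ℂ),
    0 < n → 1 / (n : ℝ) ≤ δ → w ∈ LT.Sd δ → ‖En n w‖ ≤ C / n := by
  have hpi := Real.pi_pos
  have hδ' : 0 < δ / 2 := by linarith only [hδ]
  have hδ2' : δ / 2 ≤ 1 / 2 := by linarith only [hδ, hδ2]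
  set sδ : ℝ := Real.sin (Real.pi * (δ / 2)) with hsδ
  have hs : 0 < sδ := VOL.sin_pi_pos hδ' (by linarith only [hδ, hδ2])
  refine ⟨1 / (2 * Real.pi * sδ) + Real.pi / sδ, by positivity, fun n w hn hnδ hw => ?_⟩
  have hn0 : (0 : ℝ) < n := by exact_mod_cast hn
  have hn1 : (1 : ℝ) ≤ n := by exact_mod_cast hn
  have hnc : (n : ℂ) ≠ 0 := by exact_mod_cast hn0.ne'
  have e : (1 : ℂ) / (2 * n) = ((1 / (2 * (n : ℝ)) : ℝ) : ℂ) := by push_cast; rfl
  have a2 : 1 / (2 * (n : ℝ)) = 1 / n / 2 := by field_simp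
  have hw' : w ∈ LT.Sd (δ / 2) := ⟨by linarith only [hδ, hw, hw.1], by linarith only [hδ, hw, hw.2]⟩
  have hv : w + 1 / (2 * n) ∈ LT.Sd (δ / 2) := by
    refine ⟨?_, ?_⟩
    · rw [e, add_re, ofReal_re, a2]
      have : 0 < 1 / (n : ℝ) := by positivity
      linarith only [hδ, this, hw, hw.1]
    · rw [e, add_re, ofReal_re, a2]
      linarith only [hnδ, hw, hw.2]
  have hT := LT.Fh_taylor hδ' hδ2' hv hw'
  have hJ := LT.norm_J_Sd hδ' hδ2' hn0 hv
  rw [← hsδ] at hT hJ
  rw [add_sub_cancel_left] at hT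
  have hid : En n w = n * (Fh (w + 1 / (2 * n)) - Fh w - 1 / (2 * n) * ph w) +
      J n (w + 1 / (2 * n)) := by
    have hM : M n (w + 1 / (2 * n)) = n * Fh (w + 1 / (2 * n)) + J n (w + 1 / (2 * n)) := by
      unfold M
      push_cast
      rfl
    rw [En, hM]
    field_simp
    ring
  rw [hid]
  refine (norm_add_le _ _).trans ?_
  have h1 : ‖(n : ℂ) * (Fh (w + 1 / (2 * n)) - Fh w - 1 / (2 * n) * ph w)‖ ≤ Real.pi / sδ / n := by
    rw [norm_mul, Complex.norm_natCast]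
    have h2 : ‖(1 : ℂ) / (2 * n)‖ = 1 / (2 * n) := by
      rw [e, Complex.norm_real, Real.norm_of_nonneg (by positivity)]
    rw [h2] at hT
    calc n * _ ≤ n * (Real.pi / sδ * (1 / (2 * (n : ℝ))) ^ 2) := mul_le_mul_of_nonneg_left hT hn0.le
      _ = Real.pi / sδ / n * (1 / 4) := by
        field_simp
        norm_num
      _ ≤ Real.pi / sδ / n := by
        have : 0 ≤ Real.pi / sδ / n := by positivity
        linarith only [this]
  calc _ ≤ Real.pi / sδ / n + 1 / (2 * Real.pi * sδ) / n := add_le_add h1 hJ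
    _ = _ := by ring

/-! ### conjugation -/

theorem conj_natCast_div (n : ℕ) (w : ℂ) : starRingEnd ℂ w + 1 / n = starRingEnd ℂ (w + 1 / n) := by
  rw [map_add, map_div₀, map_one, map_natCast]

theorem conj_sin (z : ℂ) : 2 * Complex.sin (Real.pi * starRingEnd ℂ z) =
    starRingEnd ℂ (2 * Complex.sin (Real.pi * z)) := by
  rw [map_mul, ← Complex.sin_conj, map_mul, conj_ofReal, Complex.conj_ofNat]

theorem Qn_conj {n : ℕ} {w : ℂ} (h0 : -(1 / (2 * (n : ℝ))) < w.re)
    (h1 : w.re < 1 - 1 / (2 * (n : ℝ))) : Qn n (starRingEnd ℂ w) = starRingEnd ℂ (Qn n w) := by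
  have e : (1 : ℂ) / (2 * n) = ((1 / (2 * (n : ℝ)) : ℝ) : ℂ) := by push_cast; rfl
  have hs : w + 1 / (2 * n) ∈ strip := by
    refine ⟨?_, ?_⟩
    · rw [add_re, re_one_div_two]; linarith only [h0]
    · rw [add_re, re_one_div_two]; linarith only [h1]
  rw [Qn, Qn, map_mul, conj_ofReal, ← Complex.exp_conj, ← M_conj hs, map_add, e, conj_ofReal]

theorem P1_conj {n : ℕ} (hn : 4 ≤ n) {w : ℂ} (h0 : -(1 / (n : ℝ)) < w.re) (h1 : w.re ≤ 1) :
    P1 n (starRingEnd ℂ w) = starRingEnd ℂ (P1 n w) := by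
  obtain ⟨a1, a2, a3⟩ := half_n hn
  have e0 : (starRingEnd ℂ w).re = w.re := conj_re w
  unfold P1
  rw [e0]
  split_ifs with h
  · have e2 : (w + 1 / n).re = w.re + 1 / n := by rw [add_re, re_one_div]
    rw [conj_natCast_div, Qn_conj (by rw [e2]; linarith only [h0, a1, a2]) (by rw [e2]; linarith only [a1, a2, a3, h]), conj_sin, map_div₀]
  · push Not at h
    have e1 : (w - 1 / n).re = w.re - 1 / n := by rw [sub_re, re_one_div]
    have e3 : starRingEnd ℂ w - 1 / n = starRingEnd ℂ (w - 1 / n) := by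
      rw [map_sub, map_div₀, map_one, map_natCast]
    rw [e3, Qn_conj (by rw [e1]; linarith only [a1, a2, a3, h]) (by rw [e1]; linarith only [h1, a1, a2]), conj_sin, ← map_mul]

theorem Pn_conj {n : ℕ} (hn : 4 ≤ n) {w : ℂ} (h0 : -(1 / (n : ℝ)) < w.re) (h1 : w.re ≤ 2) :
    Pn n (starRingEnd ℂ w) = starRingEnd ℂ (Pn n w) := by
  obtain ⟨a1, a2, a3⟩ := half_n hn
  have e0 : (starRingEnd ℂ w).re = w.re := conj_re w
  unfold Pn
  rw [e0]
  split_ifs with h
  · exact P1_conj hn h0 h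
  · push Not at h
    have e1 : (w - 1).re = w.re - 1 := by simp
    have e3 : starRingEnd ℂ w - 1 = starRingEnd ℂ (w - 1) := by rw [map_sub, map_one]
    have e4 : (n : ℂ) * starRingEnd ℂ (w - 1) = starRingEnd ℂ (n * (w - 1)) := by
      rw [map_mul, map_natCast]
    rw [e3, e4, conj_sin, P1_conj hn (by rw [e1]; linarith only [a1, h]) (by rw [e1]; linarith only [h1]), ← map_neg, ← map_mul]

theorem Rn_conj {n : ℕ} (hn : 4 ≤ n) {w : ℂ} (h0 : -1 - 1 / (n : ℝ) ≤ w.re) (h1 : w.re < 1) :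
    Rn n (starRingEnd ℂ w) = starRingEnd ℂ (Rn n w) := by
  have e3 : (1 - 1 / n - w).re = 1 - 1 / n - w.re := by rw [sub_re, sub_re, re_one_div, one_re]
  have e4 : 1 - 1 / (n : ℂ) - starRingEnd ℂ w = starRingEnd ℂ (1 - 1 / n - w) := by
    rw [map_sub, map_sub, map_div₀, map_one, map_natCast]
  rw [Rn, Rn, e4, Pn_conj hn (by rw [e3]; linarith only [h1]) (by rw [e3]; linarith only [h0]), map_div₀, map_natCast]

theorem Pn_zero {n : ℕ} (hn : 4 ≤ n) : Pn n 0 = 1 := by
  have h := Pn_nat hn (k := 0) (by omega)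
  simpa [fS] using h

end Pool.Agent.Work.MP_b30479_gtS.G2

end

section

/-!
# The interpolating function `SE`
-/

namespace Pool.Agent.Work.MP_b30479_gtS.G2

open Finset VOL AX Pool.Agent.Work.MP_b30479_gtS.LT MeasureTheory Filter Topology Complex

/-! ### functional equation on the whole domain -/

theorem Pn_step' {n : ℕ} (hn : 4 ≤ n) {w : ℂ} (h0 : -(1 / (n : ℝ)) < w.re)
    (h1 : w.re < 2 - 1 / (2 * (n : ℝ))) :
    Pn n (w + 1 / n) = 2 * Complex.sin (Real.pi * (w + 1 / n)) * Pn n w := by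
  rcases lt_or_ge w.re 1 with h | h
  · exact Pn_step hn h0 h
  obtain ⟨a1, a2, a3⟩ := half_n hn
  have hn0 : (n : ℂ) ≠ 0 := by
    have : n ≠ 0 := by omega
    exact_mod_cast this
  have e2 : (w + 1 / n).re = w.re + 1 / n := by rw [add_re, re_one_div]
  have e4 : (w - 1).re = w.re - 1 := by rw [sub_re, one_re]
  have e3 : (w - 1 + 1 / n).re = w.re - 1 + 1 / n := by rw [add_re, re_one_div, e4]
  have hs := Pn_step hn (w := w - 1) (by rw [e4]; linarith only [h, a1]) (by rw [e4]; linarith only [h1, a1, a2])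
  rw [Pn_eq_P1 hn (w := w - 1 + 1 / n) (by rw [e3]; linarith only [h1, a2]),
    Pn_eq_P1 hn (w := w - 1) (by rw [e4]; linarith only [h1, a1, a2])] at hs
  have e5 : w + 1 / n - 1 = w - 1 + 1 / n := by ring
  have hw : 2 * Complex.sin (Real.pi * (n * (w - 1 + 1 / n))) =
      -(2 * Complex.sin (Real.pi * (n * (w - 1)))) := by
    have : (Real.pi : ℂ) * (n * (w - 1 + 1 / n)) = Real.pi * (n * (w - 1)) + Real.pi := by
      field_simp
    rw [this, Complex.sin_add_pi]
    ring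
  have e6 : Complex.sin (Real.pi * (w - 1 + 1 / n)) = -Complex.sin (Real.pi * (w + 1 / n)) := by
    have : (Real.pi : ℂ) * (w - 1 + 1 / n) = Real.pi * (w + 1 / n) - Real.pi := by ring
    rw [this, Complex.sin_sub_pi]
  rw [Pn_eq_two hn (w := w + 1 / n) (by rw [e2]; linarith only [h, a1]), Pn_eq_two hn (w := w) (by linarith only [h, a1]), e5,
    hw, hs, e6]
  ring

theorem re_nat_div (m n : ℕ) : ((m : ℂ) / n).re = m / n := by
  have : (m : ℂ) / n = ((m / n : ℝ) : ℂ) := by push_cast; rfl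
  rw [this, ofReal_re]

theorem Pn_iter {n : ℕ} (hn : 4 ≤ n) {v : ℂ} (h0 : -(1 / (n : ℝ)) < v.re) (m : ℕ)
    (h1 : v.re + m / n < 2 + 1 / (2 * (n : ℝ))) : Pn n (v + m / n) = Pn n v *
      ∏ j ∈ range m, 2 * Complex.sin (Real.pi * (v + (j + 1 : ℕ) / n)) := by
  obtain ⟨a1, a2, a3⟩ := half_n hn
  have hn0 : (0 : ℝ) < n := by
    have : 0 < n := by omega
    exact_mod_cast this
  induction m with
  | zero => simp
  | succ m ih =>
    have e : ((m + 1 : ℕ) : ℝ) / n = m / n + 1 / n := by push_cast; ring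
    have e1 : v + ((m + 1 : ℕ) : ℂ) / n = (v + m / n) + 1 / n := by push_cast; ring
    have e2 : (v + m / n).re = v.re + m / n := by rw [add_re, re_nat_div]
    have hm : (0 : ℝ) ≤ m / n := by positivity
    rw [e] at h1
    rw [e1, Pn_step' hn (by rw [e2]; linarith only [h0, hm]) (by rw [e2]; linarith only [a2, h1]), ih (by linarith only [a1, h1]),
      Finset.prod_range_succ, ← e1]
    ring

/-! ### `SE` and `Pn` -/

theorem sqrt_ne {n : ℕ} (hn : 4 ≤ n) : ((√(n : ℝ) : ℝ) : ℂ) ≠ 0 := by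
  have hn0 : (0 : ℝ) < n := by
    have : 0 < n := by omega
    exact_mod_cast this
  exact_mod_cast (Real.sqrt_pos.2 hn0).ne'

theorem SE_eq (n : ℕ) (u : ℂ) : SE n u = Pn n (u - 1 / (2 * n)) / ((√(n : ℝ) : ℝ) : ℂ) := rfl

theorem SE_eq_Pn {n : ℕ} (hn : 4 ≤ n) (u : ℂ) :
    ((√(n : ℝ) : ℝ) : ℂ) * SE n u = Pn n (u - 1 / (2 * n)) := by
  rw [SE_eq, mul_div_cancel₀ _ (sqrt_ne hn)]

/-- in the first strip -/
theorem SE_eq_exp {n : ℕ} (hn : 4 ≤ n) {u : ℂ} (h0 : 0 < u.re) (h1 : u.re < 1) :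
    SE n u = cexp (M n u) := by
  obtain ⟨a1, a2, a3⟩ := half_n hn
  have e1 : (u - 1 / (2 * n)).re = u.re - 1 / (2 * n) := by rw [sub_re, re_one_div_two]
  rw [SE_eq, Pn_eq_Qn hn (by rw [e1]; linarith only [h0]) (by rw [e1]; linarith only [h1]), Qn,
    sub_add_cancel, mul_div_cancel_left₀ _ (sqrt_ne hn)]

/-- in the second strip -/
theorem SE_add_one {n : ℕ} (hn : 4 ≤ n) {u : ℂ} (h0 : 1 < u.re) (h1 : u.re < 2) :
    SE n u = 2 * Complex.cos (Real.pi * n * (u - 1)) * cexp (M n (u - 1)) := by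
  obtain ⟨a1, a2, a3⟩ := half_n hn
  have hn0 : (0 : ℝ) < n := by
    have : 0 < n := by omega
    exact_mod_cast this
  have hnc : (n : ℂ) ≠ 0 := by exact_mod_cast hn0.ne'
  have e1 : (u - 1 / (2 * n)).re = u.re - 1 / (2 * n) := by rw [sub_re, re_one_div_two]
  have e4 : (u - 1 / (2 * n) - 1).re = u.re - 1 / (2 * n) - 1 := by rw [sub_re, one_re, e1]
  have e5 : u - 1 / (2 * (n : ℂ)) - 1 = u - 1 - 1 / (2 * n) := by ring
  have e6 : (Real.pi : ℂ) * (n * (u - 1 - 1 / (2 * n))) = Real.pi * n * (u - 1) - Real.pi / 2 := by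
    field_simp
  rw [SE_eq, Pn_eq_two hn (by rw [e1]; linarith only [h0, a1, a2]),
    P1_eq hn (w := u - 1 / (2 * n) - 1) (by rw [e4]; linarith only [h0]) (by rw [e4]; linarith only [h1]), e5, e6,
    Complex.sin_sub_pi_div_two, Qn, sub_add_cancel]
  have := sqrt_ne hn
  field_simp

/-- `SE` is holomorphic on `0 < Re u < 2` -/
theorem differentiableAt_SE {n : ℕ} (hn : 4 ≤ n) {u : ℂ} (h0 : 0 < u.re) (h1 : u.re < 2) :
    DifferentiableAt ℂ (SE n) u := by
  obtain ⟨a1, a2, a3⟩ := half_n hn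
  have e1 : (u - 1 / (2 * n)).re = u.re - 1 / (2 * n) := by rw [sub_re, re_one_div_two]
  have h3 : DifferentiableAt ℂ (fun u : ℂ => u - 1 / (2 * (n : ℂ))) u := by fun_prop
  exact ((differentiableAt_Pn hn (by rw [e1]; linarith only [h0, a1, a2]) (by rw [e1]; linarith only [h1, a1, a2])).comp u h3).div_const _

/-- the functional equation -/
theorem SE_step {n : ℕ} (hn : 4 ≤ n) {u : ℂ} (h0 : 0 < u.re) (h1 : u.re + 1 / n < 2) :
    SE n (u + 1 / n) = 2 * Complex.sin (Real.pi * (u + 1 / (2 * n))) * SE n u := by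
  obtain ⟨a1, a2, a3⟩ := half_n hn
  have hn0 : (0 : ℝ) < n := by
    have : 0 < n := by omega
    exact_mod_cast this
  have hnc : (n : ℂ) ≠ 0 := by exact_mod_cast hn0.ne'
  have e1 : (u - 1 / (2 * n)).re = u.re - 1 / (2 * n) := by rw [sub_re, re_one_div_two]
  have e2 : (u + 1 / n).re = u.re + 1 / n := by rw [add_re, re_one_div]
  rw [SE_eq, SE_eq]
  have e3 : u + 1 / (n : ℂ) - 1 / (2 * n) = (u - 1 / (2 * n)) + 1 / n := by ring
  rw [e3, Pn_step' hn (by rw [e1]; linarith only [h0, a1, a2]) (by rw [e1]; linarith only [h1, a1]), mul_div_assoc]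
  congr 3
  have e4 : u - 1 / (2 * (n : ℂ)) + 1 / n = u + 1 / (2 * n) := by
    field_simp
    ring
  rw [e4]

/-- the reflection formula -/
theorem SE_refl {n : ℕ} (hn : 4 ≤ n) {u : ℂ} (h0 : 0 < u.re) (h1 : u.re < 1) :
    SE n u * SE n (1 - u) = 1 := by
  have e : (1 - u).re = 1 - u.re := by rw [sub_re, one_re]
  rw [SE_eq_exp hn h0 h1, SE_eq_exp hn (by rw [e]; linarith only [h1]) (by rw [e]; linarith only [h0]), M_one_sub,
    ← Complex.exp_add, add_neg_cancel, Complex.exp_zero]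

theorem SE_ne_zero {n : ℕ} (hn : 4 ≤ n) {u : ℂ} (h0 : 0 < u.re) (h1 : u.re < 1) : SE n u ≠ 0 := by
  rw [SE_eq_exp hn h0 h1]
  exact Complex.exp_ne_zero _

theorem SE_conj {n : ℕ} (hn : 4 ≤ n) {u : ℂ} (h0 : 0 < u.re) (h1 : u.re < 2) :
    SE n (starRingEnd ℂ u) = starRingEnd ℂ (SE n u) := by
  obtain ⟨a1, a2, a3⟩ := half_n hn
  have e1 : (u - 1 / (2 * n)).re = u.re - 1 / (2 * n) := by rw [sub_re, re_one_div_two]
  have e2 : starRingEnd ℂ u - 1 / (2 * (n : ℂ)) = starRingEnd ℂ (u - 1 / (2 * n)) := by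
    rw [map_sub, map_div₀, map_mul, map_one, Complex.conj_natCast]
    congr 3
    exact (Complex.conj_ofNat 2).symm
  rw [SE_eq, SE_eq, e2, Pn_conj hn (by rw [e1]; linarith only [h0, a1, a2]) (by rw [e1]; linarith only [h1, a1, a2]), map_div₀,
    Complex.conj_ofReal]

/-! ### values -/

/-- `fS n k = √n SE((k + 1/2)/n)` for `k < n` -/
theorem SE_fS {n : ℕ} (hn : 4 ≤ n) {k : ℕ} (hk : k < n) :
    ((√(n : ℝ) : ℝ) : ℂ) * SE n (((k : ℂ) + 1 / 2) / n) = ((fS n k : ℝ) : ℂ) := by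
  have hn0 : (0 : ℝ) < n := by
    have : 0 < n := by omega
    exact_mod_cast this
  have hnc : (n : ℂ) ≠ 0 := by exact_mod_cast hn0.ne'
  have hre : (((k : ℂ) + 1 / 2) / n).re = (k + 1 / 2) / n := by
    have : ((k : ℂ) + 1 / 2) / n = ((((k : ℝ) + 1 / 2) / n : ℝ) : ℂ) := by push_cast; rfl
    rw [this, ofReal_re]
  have h2 : ((k : ℝ) + 1 / 2) / n < 2 := by
    rw [div_lt_iff₀ hn0]
    have : (k : ℝ) + 1 ≤ n := by exact_mod_cast hk
    linarith only [hn0, this]
  rw [SE_eq_Pn hn]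
  have e : ((k : ℂ) + 1 / 2) / n - 1 / (2 * n) = k / n := by
    field_simp
    ring
  rw [e, Pn_nat hn hk]

/-- zeros at half integers beyond `1` -/
theorem SE_zero {n : ℕ} (hn : 4 ≤ n) {k : ℕ} (hk : n ≤ k) (hk2 : k < 2 * n) :
    SE n (((k : ℂ) + 1 / 2) / n) = 0 := by
  have hn0 : (0 : ℝ) < n := by
    have : 0 < n := by omega
    exact_mod_cast this
  have hnc : (n : ℂ) ≠ 0 := by exact_mod_cast hn0.ne'
  have hre : (((k : ℂ) + 1 / 2) / n).re = (k + 1 / 2) / n := by
    have : ((k : ℂ) + 1 / 2) / n = ((((k : ℝ) + 1 / 2) / n : ℝ) : ℂ) := by push_cast; rfl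
    rw [this, ofReal_re]
  have h2 : ((k : ℝ) + 1 / 2) / n < 2 := by
    rw [div_lt_iff₀ hn0]
    have : (k : ℝ) + 1 ≤ 2 * n := by exact_mod_cast hk2
    linarith only [this]
  have e : ((k : ℂ) + 1 / 2) / n - 1 / (2 * n) = k / n := by
    field_simp
    ring
  rw [SE_eq, e, Pn_nat_zero hn hk, zero_div]

theorem fS_eq_zero {n k : ℕ} (hn : 0 < n) (hk : n ≤ k) : fS n k = 0 := by
  unfold fS
  apply Finset.prod_eq_zero (i := n - 1) (Finset.mem_range.2 (by omega))
  have hn0 : (n : ℝ) ≠ 0 := by exact_mod_cast hn.ne'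
  have : Real.pi * (((n - 1 : ℕ) : ℝ) + 1) / n = Real.pi := by
    rw [Nat.cast_sub (by omega)]
    push_cast
    field_simp
    ring
  rw [this, Real.sin_pi, mul_zero]

/-- `fS n k = √n SE((k + 1/2)/n)` for `k < 2n` -/
theorem SE_fS' {n : ℕ} (hn : 4 ≤ n) {k : ℕ} (hk : k < 2 * n) :
    ((√(n : ℝ) : ℝ) : ℂ) * SE n (((k : ℂ) + 1 / 2) / n) = ((fS n k : ℝ) : ℂ) := by
  rcases lt_or_ge k n with h | h
  · exact SE_fS hn h
  · rw [SE_zero hn h hk, fS_eq_zero (by omega) h, mul_zero, ofReal_zero]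

/-- `1 / fS n k = SE((n - k - 1/2)/n) / √n` for `k < n` -/
theorem SE_inv_fS {n : ℕ} (hn : 4 ≤ n) {k : ℕ} (hk : k < n) :
    SE n (((n : ℂ) - k - 1 / 2) / n) / ((√(n : ℝ) : ℝ) : ℂ) = ((1 / fS n k : ℝ) : ℂ) := by
  have hn0 : (0 : ℝ) < n := by
    have : 0 < n := by omega
    exact_mod_cast this
  have hnc : (n : ℂ) ≠ 0 := by exact_mod_cast hn0.ne'
  have hk' : (k : ℝ) + 1 ≤ n := by exact_mod_cast hk
  have hre : (((k : ℂ) + 1 / 2) / n).re = (k + 1 / 2) / n := by
    have : ((k : ℂ) + 1 / 2) / n = ((((k : ℝ) + 1 / 2) / n : ℝ) : ℂ) := by push_cast; rfl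
    rw [this, ofReal_re]
  have h2 : ((k : ℝ) + 1 / 2) / n < 1 := by
    rw [div_lt_iff₀ hn0]
    linarith only [hk']
  have hr := SE_refl hn (u := ((k : ℂ) + 1 / 2) / n) (by rw [hre]; positivity) (by rw [hre]; exact h2)
  have e : (1 : ℂ) - ((k : ℂ) + 1 / 2) / n = ((n : ℂ) - k - 1 / 2) / n := by
    field_simp
    ring
  rw [e] at hr
  have hf := SE_fS hn hk
  have hfp := fS_pos hk
  have hfc : ((fS n k : ℝ) : ℂ) ≠ 0 := by exact_mod_cast hfp.ne'
  have hs := sqrt_ne hn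
  push_cast
  rw [div_eq_div_iff hs hfc, ← hf]
  linear_combination (((√(n : ℝ) : ℝ) : ℂ)) * hr

/-- `SE((n + k + 1/2)/n) = 0`, in the form of the wall `l < w` -/
theorem SE_wall {n : ℕ} (hn : 4 ≤ n) {k : ℕ} (hk : 1 ≤ k) (hk2 : k ≤ n) :
    SE n (((n : ℂ) + k - 1 / 2) / n) = 0 := by
  have h := SE_zero hn (k := n + k - 1) (by omega) (by omega)
  have e : (((n + k - 1 : ℕ) : ℂ) + 1 / 2) = (n : ℂ) + k - 1 / 2 := by
    rw [Nat.cast_sub (by omega)]
    push_cast
    ring
  rwa [e] at h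

/-- products of `2 sin` through `SE` -/
theorem SE_iter {n : ℕ} (hn : 4 ≤ n) {u : ℂ} (h0 : 0 < u.re) (m : ℕ) (h1 : u.re + m / n < 2) :
    SE n (u + m / n) = SE n u *
      ∏ j ∈ range m, 2 * Complex.sin (Real.pi * (u + (j + 1 / 2) / n)) := by
  obtain ⟨a1, a2, a3⟩ := half_n hn
  have hn0 : (0 : ℝ) < n := by
    have : 0 < n := by omega
    exact_mod_cast this
  have hnc : (n : ℂ) ≠ 0 := by exact_mod_cast hn0.ne'
  induction m with
  | zero => simp
  | succ m ih =>
    have e : ((m + 1 : ℕ) : ℝ) / n = m / n + 1 / n := by push_cast; ring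
    have e1 : u + ((m + 1 : ℕ) : ℂ) / n = (u + m / n) + 1 / n := by push_cast; ring
    have e2 : (u + m / n).re = u.re + m / n := by rw [add_re, re_nat_div]
    have hm : (0 : ℝ) ≤ m / n := by positivity
    rw [e] at h1
    have e3 : u + (m : ℂ) / n + 1 / (2 * n) = u + ((m : ℂ) + 1 / 2) / n := by
      field_simp
      ring
    rw [e1, SE_step hn (by rw [e2]; linarith only [h0, hm]) (by rw [e2]; linarith only [h1]), ih (by linarith only [a1, h1]),
      Finset.prod_range_succ, e3]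
    ring

/-- `PP n y ζ = SE(y/n + 1/2 + ζ) SE(y/n + 1/2 - ζ)` -/
theorem SE_PP {n : ℕ} (hn : 4 ≤ n) {y : ℕ} (hy : y ≤ n) {ζ : ℂ} (h : |ζ.re| < 1 / 2) :
    PP n y ζ = SE n ((y : ℂ) / n + 1 / 2 + ζ) * SE n ((y : ℂ) / n + 1 / 2 - ζ) := by
  have hn0 : (0 : ℝ) < n := by
    have : 0 < n := by omega
    exact_mod_cast this
  have hnc : (n : ℂ) ≠ 0 := by exact_mod_cast hn0.ne'
  obtain ⟨b1, b2⟩ := abs_lt.1 h
  have hyn : (y : ℝ) / n ≤ 1 := by
    rw [div_le_one hn0]
    exact_mod_cast hy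
  have r1 : (1 / 2 + ζ).re = 1 / 2 + ζ.re := by rw [add_re]; norm_num
  have r2 : (1 / 2 - ζ).re = 1 / 2 - ζ.re := by rw [sub_re]; norm_num
  have i1 := SE_iter hn (u := 1 / 2 + ζ) (by rw [r1]; linarith only [b1]) y (by rw [r1]; linarith only [b2, hyn])
  have i2 := SE_iter hn (u := 1 / 2 - ζ) (by rw [r2]; linarith only [b2]) y (by rw [r2]; linarith only [b1, hyn])
  have hr := SE_refl hn (u := 1 / 2 + ζ) (by rw [r1]; linarith only [b1]) (by rw [r1]; linarith only [b2])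
  have e0 : (1 : ℂ) - (1 / 2 + ζ) = 1 / 2 - ζ := by ring
  rw [e0] at hr
  have e1 : (y : ℂ) / n + 1 / 2 + ζ = 1 / 2 + ζ + y / n := by ring
  have e2 : (y : ℂ) / n + 1 / 2 - ζ = 1 / 2 - ζ + y / n := by ring
  rw [e1, e2, i1, i2]
  have hpp : PP n y ζ = (∏ j ∈ range y, 2 * Complex.sin (Real.pi * (1 / 2 + ζ + (j + 1 / 2) / n))) *
      ∏ j ∈ range y, 2 * Complex.sin (Real.pi * (1 / 2 - ζ + (j + 1 / 2) / n)) := by
    unfold PP
    rw [← Finset.prod_mul_distrib]
    refine Finset.prod_congr rfl fun l _ => ?_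
    rw [PP_factor (by omega) l ζ]
    congr 4
    · push_cast
      field_simp
      ring
    · push_cast
      field_simp
      ring
  rw [hpp]
  linear_combination (-((∏ j ∈ range y, 2 * Complex.sin (Real.pi * (1 / 2 + ζ + (j + 1 / 2) / n))) *
      ∏ j ∈ range y, 2 * Complex.sin (Real.pi * (1 / 2 - ζ + (j + 1 / 2) / n)))) * hr

/-! ### growth -/

/-- growth with explicit power of `n`, in terms of the quasi-periodic potential `UU` -/
theorem norm_SE_le {Y : ℝ} (hY : 0 ≤ Y) : ∃ C : ℝ, 0 < C ∧ ∀ (n : ℕ) (u : ℂ), 4 ≤ n →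
    0 < u.re → u.re < 2 → |u.im| ≤ Y → ‖SE n u‖ ≤ C * (n : ℝ) ^ 18 * Real.exp (n * UU u) := by
  obtain ⟨C, hC, hP⟩ := norm_Pn_le hY
  obtain ⟨C', hC', hsh⟩ := exp_UU_shift hY
  refine ⟨C * C', by positivity, fun n u hn h0 h1 hu => ?_⟩
  obtain ⟨a1, a2, a3⟩ := half_n hn
  have hn4 : (4 : ℝ) ≤ n := by exact_mod_cast hn
  have hn0 : (0 : ℝ) < n := by linarith only [a1, a3, hn4]
  have e0 : u - 1 / (2 * n) = u + ((-(1 / (2 * n)) : ℝ) : ℂ) := by push_cast; ring
  have e1 : (u - 1 / (2 * n)).re = u.re - 1 / (2 * n) := by rw [sub_re, re_one_div_two]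
  have e2 : (u - 1 / (2 * n)).im = u.im := by rw [e0]; simp
  have h2 := hP n (u - 1 / (2 * n)) hn (by rw [e1]; linarith only [h0]) (by rw [e1]; linarith only [h1, a1, a2])
    (by rw [e2]; exact hu)
  have h3 := (hsh n u (-(1 / (2 * n))) hn (by
    rw [abs_neg, abs_of_nonneg (by positivity), a2]
    have : 2 / (n : ℝ) = 2 * (1 / n) := by ring
    linarith only [a1, this]) hu).1
  rw [← e0] at h3
  have hsq : 1 ≤ √(n : ℝ) := Real.one_le_sqrt.2 (by linarith only [a1, a3, hn4])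
  rw [SE_eq, norm_div, Complex.norm_real, Real.norm_of_nonneg (Real.sqrt_nonneg _)]
  refine (div_le_self (norm_nonneg _) hsq).trans ?_
  calc ‖Pn n (u - 1 / (2 * n))‖ ≤ C * (n : ℝ) ^ 10 * Real.exp (n * UU (u - 1 / (2 * n))) := h2
    _ ≤ C * (n : ℝ) ^ 10 * (C' * (n : ℝ) ^ 8 * Real.exp (n * UU u)) :=
      mul_le_mul_of_nonneg_left h3 (by positivity)
    _ = _ := by ring

theorem UU_conj (w : ℂ) : UU (starRingEnd ℂ w) = UU w := by
  unfold UU
  rw [conj_re, conj_im, abs_neg]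

/-- polynomial factors are absorbed -/
theorem pow_le_exp_eventually {ε : ℝ} (hε : 0 < ε) (C : ℝ) (k : ℕ) :
    ∀ᶠ n : ℕ in atTop, C * (n : ℝ) ^ k ≤ Real.exp (n * ε) := by
  have h1 : (fun x : ℝ => x ^ k) =o[atTop] fun x => Real.exp (ε * x) :=
    isLittleO_pow_exp_pos_mul_atTop k hε
  have h2 : (fun x : ℝ => C * x ^ k) =o[atTop] fun x => Real.exp (ε * x) := h1.const_mul_left C
  have h3 := (h2.bound (c := 1) one_pos)
  have h4 := tendsto_natCast_atTop_atTop (R := ℝ) |>.eventually h3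
  filter_upwards [h4] with n hn
  rw [one_mul, Real.norm_of_nonneg (Real.exp_pos _).le, mul_comm ε] at hn
  exact (le_abs_self _).trans hn

/-- **Growth of `SE`**, uniformly on `0 < Re u < 2`, `|Im u| ≤ Y`. -/
theorem norm_SE_le_exp {ε Y : ℝ} (hε : 0 < ε) (hY : 0 ≤ Y) : ∀ᶠ n : ℕ in atTop, ∀ u : ℂ,
    0 < u.re → u.re < 2 → |u.im| ≤ Y → ‖SE n u‖ ≤ Real.exp (n * (UU u + ε)) := by
  obtain ⟨C, hC, h⟩ := norm_SE_le hY
  filter_upwards [pow_le_exp_eventually hε C 18, eventually_ge_atTop 4] with n h1 hn u h0 h2 hu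
  refine (h n u hn h0 h2 hu).trans ?_
  rw [mul_add, add_comm, Real.exp_add]
  exact mul_le_mul_of_nonneg_right h1 (Real.exp_pos _).le

/-- **Growth of `SE` with shifts**, uniformly on `0 < Re u + c / n < 2`, `|Im u| ≤ Y`, `|c| ≤ c₀`. -/
theorem norm_SE_le_exp_shift {ε Y : ℝ} (hε : 0 < ε) (hY : 0 ≤ Y) (c₀ : ℝ) : ∀ᶠ n : ℕ in atTop,
    ∀ (u : ℂ) (c : ℝ), |c| ≤ c₀ → 0 < u.re + c / n → u.re + c / n < 2 → |u.im| ≤ Y →
      ‖SE n (u + ((c / n : ℝ) : ℂ))‖ ≤ Real.exp (n * (UU u + ε)) := by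
  have hK : IsCompact {u : ℂ | u.re ∈ Set.Icc (-1 : ℝ) 3 ∧ |u.im| ≤ Y} := by
    have hcl : IsClosed {u : ℂ | u.re ∈ Set.Icc (-1 : ℝ) 3 ∧ |u.im| ≤ Y} := by
      have h1 : IsClosed {u : ℂ | -1 ≤ u.re} := isClosed_le continuous_const continuous_re
      have h2 : IsClosed {u : ℂ | u.re ≤ 3} := isClosed_le continuous_re continuous_const
      have h3 : IsClosed {u : ℂ | |u.im| ≤ Y} := isClosed_le continuous_im.abs continuous_const
      exact (h1.inter h2).inter h3
    refine Metric.isCompact_of_isClosed_isBounded hcl ?_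
    refine (Metric.isBounded_closedBall (x := (0 : ℂ)) (r := 3 + Y)).subset ?_
    intro u hu
    rw [mem_closedBall_zero_iff]
    have h1 := Complex.norm_le_abs_re_add_abs_im u
    have h2 : |u.re| ≤ 3 := by
      rw [abs_le]
      constructor <;> linarith only [hu, hu.1.1, hu.1.2]
    have h3 := hu.2
    linarith only [h1, h2, h3]
  have hUC := hK.uniformContinuousOn_of_continuous (continuous_UU.continuousOn)
  rw [Metric.uniformContinuousOn_iff] at hUC
  obtain ⟨δ, hδ, hUC⟩ := hUC (ε / 2) (by positivity)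
  have hev : ∀ᶠ n : ℕ in atTop, c₀ / (n : ℝ) < min δ 1 :=
    (tendsto_natCast_atTop_atTop.const_div_atTop c₀).eventually_lt_const (lt_min hδ one_pos)
  filter_upwards [norm_SE_le_exp (half_pos hε) hY, hev, eventually_ge_atTop 4] with n h1 h2 hn u c hc
    h3 h4 hu
  have hn0 : (0 : ℝ) < n := by
    have : 0 < n := by omega
    exact_mod_cast this
  have hcn : |c / n| < min δ 1 := by
    rw [abs_div, abs_of_pos hn0]
    exact (div_le_div_of_nonneg_right hc hn0.le).trans_lt h2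
  have hcn1 : |c / n| < 1 := hcn.trans_le (min_le_right _ _)
  obtain ⟨c1, c2⟩ := abs_lt.1 hcn1
  have er : (u + ((c / n : ℝ) : ℂ)).re = u.re + c / n := by rw [add_re, ofReal_re]
  have ei : (u + ((c / n : ℝ) : ℂ)).im = u.im := by rw [add_im, ofReal_im, add_zero]
  have h5 := h1 (u + ((c / n : ℝ) : ℂ)) (by rw [er]; exact h3) (by rw [er]; exact h4)
    (by rw [ei]; exact hu)
  refine h5.trans (Real.exp_le_exp.2 (mul_le_mul_of_nonneg_left ?_ hn0.le))
  have h6 := hUC (u + ((c / n : ℝ) : ℂ))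
    ⟨⟨by rw [er]; linarith only [h3], by rw [er]; linarith only [h4]⟩, by rw [ei]; exact hu⟩ u
    ⟨⟨by linarith only [h3, c2], by linarith only [h4, c1]⟩, hu⟩ (by
      rw [dist_eq_norm, add_sub_cancel_left, Complex.norm_real, Real.norm_eq_abs]
      exact hcn.trans_le (min_le_left _ _))
  rw [Real.dist_eq] at h6
  have := (abs_lt.1 h6).2
  linarith only [this]

/-- near bound: on compacts of the first strip -/
theorem norm_SE_le_near {δ Y c₀ : ℝ} (hδ : 0 < δ) (hδ2 : δ ≤ 1 / 2) :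
    ∃ C : ℝ, 0 < C ∧ ∀ᶠ n : ℕ in atTop, ∀ (u : ℂ) (c : ℝ), u ∈ Sd δ → |u.im| ≤ Y → |c| ≤ c₀ →
      ‖SE n (u + ((c / n : ℝ) : ℂ))‖ ≤ C * Real.exp (n * (Fh u).re) := by
  have hpi := Real.pi_pos
  have hδ' : 0 < δ / 2 := by linarith only [hδ]
  have hδ2' : δ / 2 ≤ 1 / 2 := by linarith only [hδ, hδ2]
  set sδ : ℝ := Real.sin (Real.pi * (δ / 2)) with hsδ
  have hs : 0 < sδ := VOL.sin_pi_pos hδ' (by linarith only [hδ, hδ2])
  -- bound of `ph` on the compact set
  obtain ⟨B, hB⟩ : ∃ B : ℝ, ∀ u : ℂ, u ∈ Sd δ → |u.im| ≤ Y → ‖ph u‖ ≤ B := by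
    have hK : IsCompact {u : ℂ | u ∈ Sd δ ∧ |u.im| ≤ Y} := by
      have hcl : IsClosed {u : ℂ | u ∈ Sd δ ∧ |u.im| ≤ Y} := by
        have h1 : IsClosed {u : ℂ | δ ≤ u.re} := isClosed_le continuous_const continuous_re
        have h2 : IsClosed {u : ℂ | u.re ≤ 1 - δ} := isClosed_le continuous_re continuous_const
        have h3 : IsClosed {u : ℂ | |u.im| ≤ Y} := isClosed_le continuous_im.abs continuous_const
        exact (h1.inter h2).inter h3
      refine Metric.isCompact_of_isClosed_isBounded hcl ?_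
      refine (Metric.isBounded_closedBall (x := (0 : ℂ)) (r := 1 + |Y|)).subset ?_
      intro u hu
      rw [mem_closedBall_zero_iff]
      have h1 := Complex.norm_le_abs_re_add_abs_im u
      have h2 : |u.re| ≤ 1 := by
        rw [abs_le]
        constructor <;> linarith only [hδ, hδ2, hu, hu.1.1, hu.1.2]
      have h3 := hu.2.trans (le_abs_self Y)
      linarith only [h1, h2, h3]
    have hcont : ContinuousOn ph {u : ℂ | u ∈ Sd δ ∧ |u.im| ≤ Y} := fun u hu =>
      (continuousAt_ph (Sd_sub hδ hu.1)).continuousWithinAt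
    obtain ⟨B, hB⟩ := hK.exists_bound_of_continuousOn hcont
    exact ⟨B, fun u h1 h2 => hB u ⟨h1, h2⟩⟩
  have hB0 : 0 ≤ |B| := abs_nonneg B
  refine ⟨Real.exp (c₀ * |B| + Real.pi / sδ * c₀ ^ 2 + 1 / (2 * Real.pi * sδ)), Real.exp_pos _, ?_⟩
  have hev : ∀ᶠ n : ℕ in atTop, c₀ / (n : ℝ) ≤ δ / 2 :=
    (tendsto_natCast_atTop_atTop.const_div_atTop c₀).eventually_le_const hδ'
  filter_upwards [hev, eventually_ge_atTop 4] with n hn1 hn u c hu hui hc
  have hn4 : (4 : ℝ) ≤ n := by exact_mod_cast hn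
  have hn0 : (0 : ℝ) < n := by linarith only [hδ, hδ2, hn4]
  have hcn : |c / n| ≤ δ / 2 := by
    rw [abs_div, abs_of_pos hn0]
    exact (div_le_div_of_nonneg_right hc hn0.le).trans hn1
  obtain ⟨c1, c2⟩ := abs_le.1 hcn
  set v : ℂ := u + ((c / n : ℝ) : ℂ) with hv
  have hvre : v.re = u.re + c / n := by rw [hv, add_re, ofReal_re]
  have hvS : v ∈ Sd (δ / 2) := ⟨by rw [hvre]; linarith only [hu.1, c1, hu], by rw [hvre]; linarith only [hu.2, c2, hu]⟩
  have huS : u ∈ Sd (δ / 2) := ⟨by linarith only [hu.1, hδ, hu], by linarith only [hu.2, hδ, hu]⟩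
  have hvs := Sd_sub hδ' hvS
  have hT := Fh_taylor hδ' hδ2' hvS huS
  have hJ := norm_J_Sd hδ' hδ2' hn0 hvS
  rw [← hsδ] at hT hJ
  have hvu : v - u = ((c / n : ℝ) : ℂ) := by rw [hv]; ring
  rw [hvu, Complex.norm_real, Real.norm_eq_abs] at hT
  rw [SE_eq_exp hn hvs.1 hvs.2, Complex.norm_exp]
  rw [← Real.exp_add]
  apply Real.exp_le_exp.2
  have hM : (M n v).re = n * (Fh v).re + (J n v).re := by
    unfold M
    rw [add_re]
    congr 1
    have : ((n : ℝ) : ℂ) = (n : ℂ) := by simp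
    rw [this, mul_re]
    simp
  have k1 : (Fh v).re ≤ (Fh u).re + |c / n| * |B| + Real.pi / sδ * |c / n| ^ 2 := by
    have e : Fh v = Fh u + ((c / n : ℝ) : ℂ) * ph u + (Fh v - Fh u - ((c / n : ℝ) : ℂ) * ph u) := by
      ring
    have h1 := Complex.re_le_norm (((c / n : ℝ) : ℂ) * ph u)
    have h2 := Complex.re_le_norm (Fh v - Fh u - ((c / n : ℝ) : ℂ) * ph u)
    rw [norm_mul, Complex.norm_real, Real.norm_eq_abs] at h1
    have h3 : |c / n| * ‖ph u‖ ≤ |c / n| * |B| :=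
      mul_le_mul_of_nonneg_left ((hB u hu hui).trans (le_abs_self B)) (abs_nonneg _)
    rw [e, add_re, add_re]
    linarith only [hT, h1, h2, h3]
  have k2 : (J n v).re ≤ 1 / (2 * Real.pi * sδ) := by
    have h1 := (Complex.re_le_norm (J n v)).trans hJ
    refine h1.trans (div_le_self (by positivity) (by linarith only [hδ, hδ2, hn4]))
  have k3 : n * (|c / n| * |B|) ≤ c₀ * |B| := by
    rw [abs_div, abs_of_pos hn0]
    calc n * (|c| / n * |B|) = |c| * |B| := by field_simp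
      _ ≤ c₀ * |B| := mul_le_mul_of_nonneg_right hc hB0
  have k4 : n * (Real.pi / sδ * |c / n| ^ 2) ≤ Real.pi / sδ * c₀ ^ 2 := by
    rw [abs_div, abs_of_pos hn0]
    have e : n * (Real.pi / sδ * (|c| / n) ^ 2) = Real.pi / sδ * |c| ^ 2 * (1 / n) := by
      field_simp
    rw [e]
    have h1 : |c| ^ 2 ≤ c₀ ^ 2 := pow_le_pow_left₀ (abs_nonneg c) hc 2
    have h2 : 1 / (n : ℝ) ≤ 1 := by rw [div_le_one hn0]; linarith only [hδ, hδ2, hn4]
    have h3 : 0 ≤ Real.pi / sδ := by positivity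
    calc Real.pi / sδ * |c| ^ 2 * (1 / n) ≤ Real.pi / sδ * |c| ^ 2 * 1 :=
          mul_le_mul_of_nonneg_left h2 (by positivity)
      _ = Real.pi / sδ * |c| ^ 2 := mul_one _
      _ ≤ _ := mul_le_mul_of_nonneg_left h1 h3
  rw [hM]
  have k5 := mul_le_mul_of_nonneg_left k1 hn0.le
  have e6 : n * ((Fh u).re + |c / n| * |B| + Real.pi / sδ * |c / n| ^ 2) =
      n * (Fh u).re + n * (|c / n| * |B|) + n * (Real.pi / sδ * |c / n| ^ 2) := by ring
  rw [e6] at k5
  linarith only [k2, k3, k4, k5]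

/-! ### the local limit -/

/-- **Local limit of `SE`** along arbitrary complex directions. -/
theorem SE_lim {u : ℂ} (hu : u ∈ strip) (c : ℝ) (Z : ℂ) :
    Tendsto (fun n : ℕ => cexp (-((n : ℂ) * Fh u) - (√(n : ℝ) : ℝ) * (ph u * Z)) *
      SE n (u + Z / (√(n : ℝ) : ℝ) + ((c / n : ℝ) : ℂ))) atTop
      (𝓝 (cexp (c * ph u) * cexp (ph' u / 2 * Z ^ 2))) := by
  -- the increments
  set v : ℕ → ℂ := fun n => Z / (√(n : ℝ) : ℝ) + ((c / n : ℝ) : ℂ) with hv
  have hinv : Tendsto (fun n : ℕ => (((√(n : ℝ))⁻¹ : ℝ) : ℂ)) atTop (𝓝 0) := by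
    have := div_sqrt_tendsto_c 1
    simpa using this
  have hinv2 : Tendsto (fun n : ℕ => ((c / n : ℝ) : ℂ)) atTop (𝓝 0) := by
    have h1 : Tendsto (fun n : ℕ => c / (n : ℝ)) atTop (𝓝 0) :=
      tendsto_natCast_atTop_atTop.const_div_atTop c
    have h2 := (Complex.continuous_ofReal.tendsto 0).comp h1
    rw [ofReal_zero] at h2
    exact h2
  have hv0 : Tendsto v atTop (𝓝 0) := by
    have h1 := (hinv.const_mul Z).add hinv2
    rw [mul_zero, add_zero] at h1
    refine h1.congr fun n => ?_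
    simp only [hv]
    push_cast
    ring
  -- `√n v → Z`
  have hsv : Tendsto (fun n : ℕ => ((√(n : ℝ) : ℝ) : ℂ) * v n) atTop (𝓝 Z) := by
    have h1 : Tendsto (fun n : ℕ => Z + c * (((√(n : ℝ))⁻¹ : ℝ) : ℂ)) atTop (𝓝 Z) := by
      have := (hinv.const_mul (c : ℂ)).const_add Z
      rwa [mul_zero, add_zero] at this
    refine h1.congr' ?_
    filter_upwards [eventually_gt_atTop 0] with n hn
    have hn0 : (0 : ℝ) < n := by exact_mod_cast hn
    have hs : ((√(n : ℝ) : ℝ) : ℂ) ≠ 0 := by exact_mod_cast (Real.sqrt_pos.2 hn0).ne'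
    have hss : ((√(n : ℝ) : ℝ) : ℂ) * ((√(n : ℝ) : ℝ) : ℂ) = (n : ℂ) := sqrt_cast_sq hn
    have hnc : (n : ℂ) ≠ 0 := by exact_mod_cast hn0.ne'
    simp only [hv]
    push_cast
    rw [← hss]
    field_simp
  have hkey : Tendsto (fun n : ℕ => (n : ℂ) * (Fh (u + v n) - Fh u - ph u * v n)) atTop
      (𝓝 (ph' u / 2 * Z ^ 2)) := by
    have h2 : Tendsto (fun n : ℕ => ph' u / 2 * (((√(n : ℝ) : ℝ) : ℂ) * v n) ^ 2) atTop
        (𝓝 (ph' u / 2 * Z ^ 2)) := (hsv.pow 2).const_mul _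
    have h3 : Tendsto (fun n : ℕ => (n : ℂ) * (Fh (u + v n) - Fh u - ph u * v n) -
        ph' u / 2 * (((√(n : ℝ) : ℝ) : ℂ) * v n) ^ 2) atTop (𝓝 0) := by
      rw [Metric.tendsto_atTop']
      intro ε hε
      obtain ⟨δ, hδ, hd⟩ := Fh_taylor_loc hu (ε := ε / (2 * (‖Z‖ + 1) ^ 2)) (by positivity)
      have e1 : ∀ᶠ n in atTop, ‖v n‖ < δ := by
        have := hv0.norm
        rw [norm_zero] at this
        exact this.eventually_lt_const hδ
      have e2 : ∀ᶠ n : ℕ in atTop, ‖((√(n : ℝ) : ℝ) : ℂ) * v n‖ ≤ ‖Z‖ + 1 :=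
        (hsv.norm).eventually_le_const (by linarith only [])
      obtain ⟨N, hN⟩ := eventually_atTop.1 ((e1.and e2).and (eventually_gt_atTop 0))
      refine ⟨N, fun n hn => ?_⟩
      obtain ⟨⟨g1, g2⟩, g3⟩ := hN n (by omega)
      have hn0 : (0 : ℝ) < n := by exact_mod_cast g3
      have hss : ((√(n : ℝ) : ℝ) : ℂ) * ((√(n : ℝ) : ℝ) : ℂ) = (n : ℂ) := sqrt_cast_sq g3
      have e3 : (n : ℂ) * (Fh (u + v n) - Fh u - ph u * v n) -
          ph' u / 2 * (((√(n : ℝ) : ℝ) : ℂ) * v n) ^ 2 =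
          (n : ℂ) * (Fh (u + v n) - Fh u - ph u * v n - ph' u * v n ^ 2 / 2) := by
        rw [← hss]
        ring
      have hd' := hd (v n) g1
      rw [dist_zero_right, e3, norm_mul, Complex.norm_natCast]
      have e4 : (n : ℝ) * ‖v n‖ ^ 2 = ‖((√(n : ℝ) : ℝ) : ℂ) * v n‖ ^ 2 := by
        rw [norm_mul, Complex.norm_real, Real.norm_of_nonneg (Real.sqrt_nonneg _), mul_pow,
          Real.sq_sqrt hn0.le]
      calc n * _ ≤ n * (ε / (2 * (‖Z‖ + 1) ^ 2) * ‖v n‖ ^ 2) := mul_le_mul_of_nonneg_left hd' hn0.le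
        _ = ε / (2 * (‖Z‖ + 1) ^ 2) * ‖((√(n : ℝ) : ℝ) : ℂ) * v n‖ ^ 2 := by rw [← e4]; ring
        _ ≤ ε / (2 * (‖Z‖ + 1) ^ 2) * (‖Z‖ + 1) ^ 2 :=
          mul_le_mul_of_nonneg_left (pow_le_pow_left₀ (norm_nonneg _) g2 2) (by positivity)
        _ = ε / 2 := by field_simp
        _ < ε := by linarith only [hε]
    have := h3.add h2
    rw [zero_add] at this
    refine this.congr fun n => ?_
    ring
  -- the margin
  obtain ⟨δ, hδ, hδ2, hSd⟩ : ∃ δ : ℝ, 0 < δ ∧ δ ≤ 1 / 2 ∧ ∀ᶠ n : ℕ in atTop, u + v n ∈ Sd δ := by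
    refine ⟨min (u.re / 2) ((1 - u.re) / 2), lt_min (by linarith only [hu.1, hu]) (by linarith only [hu.2, hu]), ?_, ?_⟩
    · rcases le_total u.re (1 / 2) with h | h
      · exact (min_le_left _ _).trans (by linarith only [h])
      · exact (min_le_right _ _).trans (by linarith only [h])
    · have h1 : Tendsto (fun n => u + v n) atTop (𝓝 u) := by
        have := hv0.const_add u
        rwa [add_zero] at this
      have hop : IsOpen {z : ℂ | min (u.re / 2) ((1 - u.re) / 2) < z.re ∧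
          z.re < 1 - min (u.re / 2) ((1 - u.re) / 2)} :=
        (isOpen_lt continuous_const continuous_re).inter (isOpen_lt continuous_re continuous_const)
      have hmem : u ∈ {z : ℂ | min (u.re / 2) ((1 - u.re) / 2) < z.re ∧
          z.re < 1 - min (u.re / 2) ((1 - u.re) / 2)} := by
        refine ⟨(min_le_left _ _).trans_lt (by linarith only [hu.1, hu]), ?_⟩
        have := min_le_right (u.re / 2) ((1 - u.re) / 2)
        have := hu.2
        linarith
      filter_upwards [h1.eventually (hop.mem_nhds hmem)] with n hn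
      exact ⟨hn.1.le, hn.2.le⟩
  have hJ : Tendsto (fun n : ℕ => J n (u + v n)) atTop (𝓝 0) := by
    rw [tendsto_zero_iff_norm_tendsto_zero]
    have h1 : Tendsto (fun n : ℕ => 1 / (2 * Real.pi * Real.sin (Real.pi * δ)) / (n : ℝ)) atTop
        (𝓝 0) := tendsto_natCast_atTop_atTop.const_div_atTop _
    refine squeeze_zero' (Eventually.of_forall fun n => norm_nonneg _) ?_ h1
    filter_upwards [hSd, eventually_gt_atTop 0] with n hn hn0
    exact norm_J_Sd hδ hδ2 (by exact_mod_cast hn0) hn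
  have hfin := ((hkey.add hJ).add_const ((c : ℂ) * ph u)).cexp
  rw [add_zero, add_comm (ph' u / 2 * Z ^ 2), Complex.exp_add] at hfin
  refine hfin.congr' ?_
  filter_upwards [hSd, eventually_ge_atTop 4] with n hn hn4
  have hn0 : (0 : ℝ) < n := by
    have : 0 < n := by omega
    exact_mod_cast this
  have hss : ((√(n : ℝ) : ℝ) : ℂ) * ((√(n : ℝ) : ℝ) : ℂ) = (n : ℂ) := sqrt_cast_sq (by omega)
  have hsc : ((√(n : ℝ) : ℝ) : ℂ) ≠ 0 := by exact_mod_cast (Real.sqrt_pos.2 hn0).ne'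
  have hnc : (n : ℂ) ≠ 0 := by exact_mod_cast hn0.ne'
  have hst := Sd_sub hδ hn
  have e1 : u + Z / (√(n : ℝ) : ℝ) + ((c / n : ℝ) : ℂ) = u + v n := by
    simp only [hv]; ring
  rw [e1, SE_eq_exp hn4 hst.1 hst.2, ← Complex.exp_add]
  congr 1
  have hM : M n (u + v n) = n * Fh (u + v n) + J n (u + v n) := by
    unfold M
    push_cast
    rfl
  have hnv : (n : ℂ) * v n = ((√(n : ℝ) : ℝ) : ℂ) * Z + c := by
    simp only [hv]
    push_cast
    rw [mul_add]
    congr 1
    · rw [← hss]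
      field_simp
    · field_simp
  rw [hM]
  linear_combination (-(ph u)) * hnv

/-- the version along odd numbers used with `LocLim.of_one` -/
theorem SE_lim_odd {u : ℂ} (hu : u ∈ strip) (c : ℝ) (Z : ℂ) :
    Tendsto (fun s : ℕ => cexp (-(((2 * s + 1 : ℕ) : ℂ) * Fh u) -
      (√((2 * s + 1 : ℕ) : ℝ) : ℝ) * (ph u * Z)) *
      SE (2 * s + 1) (u + Z / (√((2 * s + 1 : ℕ) : ℝ) : ℝ) + ((c / (2 * s + 1 : ℕ) : ℝ) : ℂ))) atTop
      (𝓝 (cexp (c * ph u) * cexp (ph' u / 2 * Z ^ 2))) := by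
  have hodd : Tendsto (fun s : ℕ => 2 * s + 1) atTop atTop :=
    tendsto_atTop_mono (fun s => by simp only [id]; omega) tendsto_id
  exact (SE_lim hu c Z).comp hodd

end Pool.Agent.Work.MP_b30479_gtS.G2

end

section

/-!
# Measurability of the interpolating functions
-/

namespace Pool.Agent.Work.MP_b30479_gtS.G2

open Finset VOL MeasureTheory Complex

theorem meas_ph : Measurable ph := by
  unfold ph
  exact Complex.measurable_log.comp (by fun_prop)

theorem meas_Fh : Measurable Fh := by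
  have h1 : StronglyMeasurable fun p : ℂ × ℝ => ph (1 / 2 + (p.2 : ℂ) * (p.1 - 1 / 2)) :=
    (meas_ph.comp (by fun_prop)).stronglyMeasurable
  have h2 : StronglyMeasurable fun w : ℂ => ∫ t in Set.Ioc (0 : ℝ) 1,
      ph (1 / 2 + (t : ℂ) * (w - 1 / 2)) := h1.integral_prod_right'
  have h3 : Fh = fun w => (w - 1 / 2) * ∫ t in Set.Ioc (0 : ℝ) 1,
      ph (1 / 2 + (t : ℂ) * (w - 1 / 2)) := by
    funext w
    unfold Fh
    rw [intervalIntegral.integral_of_le zero_le_one]
  rw [h3]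
  exact (by fun_prop : Measurable fun w : ℂ => w - 1 / 2).mul h2.measurable

theorem meas_J (n : ℝ) : Measurable (J n) := by
  have hk : Measurable (kap n) := by
    unfold kap
    fun_prop
  have h1 : StronglyMeasurable fun p : ℂ × ℝ =>
      (ph (p.1 + (p.2 : ℂ) * I) - ph (p.1 - (p.2 : ℂ) * I)) * (kap n p.2 : ℂ) := by
    refine Measurable.stronglyMeasurable ?_
    refine Measurable.mul ?_ ?_
    · exact (meas_ph.comp (by fun_prop)).sub (meas_ph.comp (by fun_prop))
    · exact Complex.measurable_ofReal.comp (hk.comp measurable_snd)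
  have h2 : StronglyMeasurable fun w : ℂ => ∫ y in Set.Ioi (0 : ℝ),
      (ph (w + (y : ℂ) * I) - ph (w - (y : ℂ) * I)) * (kap n y : ℂ) := h1.integral_prod_right'
  unfold J
  exact h2.measurable.const_mul _

theorem meas_M (n : ℝ) : Measurable (M n) := by
  unfold M
  exact (meas_Fh.const_mul _).add (meas_J n)

theorem meas_Qn (n : ℕ) : Measurable (Qn n) := by
  unfold Qn
  exact ((meas_M n).comp (by fun_prop)).cexp.const_mul _

theorem meas_P1 (n : ℕ) : Measurable (P1 n) := by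
  unfold P1
  refine Measurable.ite (measurableSet_le Complex.measurable_re measurable_const) ?_ ?_
  · exact ((meas_Qn n).comp (by fun_prop)).div (by fun_prop)
  · exact ((meas_Qn n).comp (by fun_prop)).mul (by fun_prop)

theorem measurable_Pn (n : ℕ) : Measurable (Pn n) := by
  unfold Pn
  refine Measurable.ite (measurableSet_le Complex.measurable_re measurable_const) (meas_P1 n) ?_
  exact Measurable.mul (by fun_prop) ((meas_P1 n).comp (by fun_prop))

theorem measurable_Rn (n : ℕ) : Measurable (Rn n) := by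
  unfold Rn
  exact ((measurable_Pn n).comp (by fun_prop)).div_const _

theorem measurable_SE (n : ℕ) : Measurable (SE n) := by
  have h : Measurable fun u : ℂ => u - 1 / (2 * (n : ℂ)) := by fun_prop
  have h2 := ((measurable_Pn n).comp h).div_const ((√(n : ℝ) : ℝ) : ℂ)
  exact h2

end Pool.Agent.Work.MP_b30479_gtS.G2

end

section

/-!
# Asymptotics of the integral over the cube: general graphs, general paths, total domination as
hypothesis
-/

namespace Pool.Agent.Work.MP_b30479_gtS.LT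

open Finset VOL AX MeasureTheory Filter Topology

/-! ### the weight at a complex point -/

/-- the weight at a complex point -/
noncomputable def Ec (n : ℕ) (b : ℤ) (z : ℂ) : ℂ :=
  Complex.exp (Real.pi * Complex.I * b * n * z ^ 2) * Complex.sin (2 * Real.pi * z) /
    Complex.sin (Real.pi * n * z) ^ 2

theorem EE_eq (n : ℕ) (b : ℤ) (ρ σ : ℝ) : EE n b ρ σ = Ec n b (zt ρ σ) * dzt ρ σ := rfl

theorem measurable_Ec (n : ℕ) (b : ℤ) : Measurable (Ec n b) := by
  have h2 : Continuous fun z : ℂ => Complex.exp (Real.pi * Complex.I * b * n * z ^ 2) *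
      Complex.sin (2 * Real.pi * z) := by fun_prop
  have h3 : Continuous fun z : ℂ => Complex.sin (Real.pi * n * z) ^ 2 := by fun_prop
  exact h2.measurable.div h3.measurable

theorem div_sqrt_tendsto_cc (Z : ℂ) :
    Tendsto (fun n : ℕ => Z / ((√(n : ℝ) : ℝ) : ℂ)) atTop (𝓝 0) := by
  have h := (div_sqrt_tendsto_c 1).const_mul Z
  rw [mul_zero] at h
  refine h.congr fun n => ?_
  push_cast
  ring

theorem Ec_lim {b : ℤ} {ζ : ℂ} (h0 : 0 < ζ.im) (Z : ℂ) :
    Tendsto (fun n : ℕ => Complex.exp (-(n * (Real.pi * Complex.I * b * ζ ^ 2 +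
        2 * Real.pi * Complex.I * ζ) + (√(n : ℝ) : ℝ) * (2 * Real.pi * Complex.I * (b * ζ + 1)) * Z)) *
      Ec n b (ζ + Z / ((√(n : ℝ) : ℝ) : ℂ))) atTop
      (𝓝 (-4 * Complex.sin (2 * Real.pi * ζ) * Complex.exp (Real.pi * Complex.I * b * Z ^ 2))) := by
  have hz : Tendsto (fun n : ℕ => ζ + Z / ((√(n : ℝ) : ℝ) : ℂ)) atTop (𝓝 ζ) := by
    simpa using (div_sqrt_tendsto_cc Z).const_add ζ
  have hs : Tendsto (fun n : ℕ => Complex.sin (2 * Real.pi * (ζ + Z / ((√(n : ℝ) : ℝ) : ℂ)))) atTop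
      (𝓝 (Complex.sin (2 * Real.pi * ζ))) := by
    have : Continuous fun z : ℂ => Complex.sin (2 * Real.pi * z) := by fun_prop
    exact (this.tendsto ζ).comp hz
  have hev : ∀ᶠ n : ℕ in atTop, ζ.im / 2 < (ζ + Z / ((√(n : ℝ) : ℝ) : ℂ)).im := by
    have h1 := (Complex.continuous_im.tendsto ζ).comp hz
    exact h1.eventually_const_lt (by linarith)
  have hq : Tendsto (fun n : ℕ => Complex.exp (2 * Real.pi * Complex.I * n *
      (ζ + Z / ((√(n : ℝ) : ℝ) : ℂ)))) atTop (𝓝 0) := by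
    rw [tendsto_zero_iff_norm_tendsto_zero]
    have hg : Tendsto (fun n : ℕ => Real.exp (-(Real.pi * ζ.im * n))) atTop (𝓝 0) := by
      refine Real.tendsto_exp_atBot.comp ?_
      refine tendsto_neg_atTop_atBot.comp ?_
      exact tendsto_natCast_atTop_atTop.const_mul_atTop (by positivity)
    refine squeeze_zero' (Eventually.of_forall fun n => norm_nonneg _) ?_ hg
    filter_upwards [hev] with n hn
    rw [Complex.norm_exp]
    apply Real.exp_le_exp.mpr
    have e : (2 * Real.pi * Complex.I * n * (ζ + Z / ((√(n : ℝ) : ℝ) : ℂ))).re =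
        -(2 * Real.pi * n * (ζ + Z / ((√(n : ℝ) : ℝ) : ℂ)).im) := by
      have : (2 * Real.pi * Complex.I * n * (ζ + Z / ((√(n : ℝ) : ℝ) : ℂ))) =
          ((2 * Real.pi * n : ℝ) : ℂ) * (Complex.I * (ζ + Z / ((√(n : ℝ) : ℝ) : ℂ))) := by
        push_cast
        ring
      rw [this, Complex.re_ofReal_mul, Complex.I_mul_re]
      ring
    rw [e]
    have h3 : (0 : ℝ) ≤ 2 * Real.pi * n := by positivity
    nlinarith [mul_le_mul_of_nonneg_left hn.le h3]
  have hlim : Tendsto (fun n : ℕ => -4 * Complex.sin (2 * Real.pi *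
        (ζ + Z / ((√(n : ℝ) : ℝ) : ℂ))) *
      Complex.exp (Real.pi * Complex.I * b * Z ^ 2) / (1 - Complex.exp (2 * Real.pi * Complex.I * n *
      (ζ + Z / ((√(n : ℝ) : ℝ) : ℂ)))) ^ 2) atTop
      (𝓝 (-4 * Complex.sin (2 * Real.pi * ζ) * Complex.exp (Real.pi * Complex.I * b * Z ^ 2) /
        (1 - 0) ^ 2)) := by
    refine Tendsto.div ((hs.const_mul (-4)).mul_const _) ?_ (by simp)
    exact (hq.const_sub 1).pow 2
  rw [sub_zero, one_pow, div_one] at hlim
  refine hlim.congr' ?_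
  filter_upwards [hev, eventually_gt_atTop 0] with n hn hn0
  unfold Ec
  set z : ℂ := ζ + Z / ((√(n : ℝ) : ℝ) : ℂ) with hzdef
  have him : 0 < z.im := by linarith
  rw [div_eq_mul_one_div (Complex.exp (Real.pi * Complex.I * b * n * z ^ 2) *
    Complex.sin (2 * Real.pi * z)), inv_sin_sq him hn0]
  have hs0 : ((√(n : ℝ) : ℝ) : ℂ) ≠ 0 := by
    rw [Complex.ofReal_ne_zero]
    positivity
  have e1 : Complex.exp (Real.pi * Complex.I * b * Z ^ 2) =
      Complex.exp (-(n * (Real.pi * Complex.I * b * ζ ^ 2 +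
        2 * Real.pi * Complex.I * ζ) + (√(n : ℝ) : ℝ) * (2 * Real.pi * Complex.I * (b * ζ + 1)) * Z)) *
      Complex.exp (Real.pi * Complex.I * b * n * z ^ 2) *
      Complex.exp (2 * Real.pi * Complex.I * n * z) := by
    rw [← Complex.exp_add, ← Complex.exp_add]
    congr 1
    have k2 : (n : ℂ) * z = n * ζ + (√(n : ℝ) : ℝ) * Z := by
      rw [hzdef, mul_add]
      congr 1
      rw [← sqrt_cast_sq hn0]
      field_simp
    have k1 : (n : ℂ) * z ^ 2 = n * ζ ^ 2 + 2 * (√(n : ℝ) : ℝ) * Z * ζ + Z ^ 2 := by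
      rw [hzdef, ← sqrt_cast_sq hn0]
      field_simp
      ring
    linear_combination (-(Real.pi * Complex.I * b)) * k1 - 2 * Real.pi * Complex.I * k2
  rw [e1]
  ring

/-! ### paths -/

/-- a path `z` with derivative `d`, affine with direction `δ` near the parameter `s`, where it
passes through `ζ` -/
structure PathAt (z d : ℝ → ℂ) (s : ℝ) (ζ δ : ℂ) : Prop where
  mz : Measurable z
  md : Measurable d
  ne : δ ≠ 0
  near : ∃ r : ℝ, 0 < r ∧ ∀ σ : ℝ, |σ - s| < r → z σ = ζ + δ * ((σ - s : ℝ) : ℂ) ∧ d σ = δ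

theorem pathAt_zt {ζ : ℂ} (h : |ζ.re| < 1 / 4) : PathAt (zt ζ.im) (dzt ζ.im) ζ.re ζ 1 := by
  refine ⟨(continuous_zt _).measurable, measurable_dzt _, one_ne_zero, 1 / 4 - |ζ.re|,
    by linarith, fun σ hσ => ?_⟩
  have h1 : |σ| < 1 / 4 := by
    have := abs_add_le (σ - ζ.re) ζ.re
    rw [sub_add_cancel] at this
    linarith
  constructor
  · have := zt_eq (ζ := ζ) (u := σ - ζ.re) (by rw [add_sub_cancel]; exact h1.le)
    rw [add_sub_cancel] at this
    rw [this, one_mul]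
  · unfold dzt
    rw [if_pos h1]
    simp

/-! ### the hypotheses -/

/-- the exponent of the limit of a hinge -/
noncomputable def Qh (w ζ ζ' Z Z' : ℂ) : ℂ :=
  tzz w ζ * Z ^ 2 / 2 + tzz w ζ' * Z' ^ 2 / 2 - (twz w ζ * Z + twz w ζ' * Z') ^ 2 /
    (2 * tww w ζ ζ')

/-- the limit of the kernel at a hinge along the directions `δ`, `δ'` -/
def HLim (w ζ ζ' δ δ' : ℂ) : Prop :=
  ∃ A : ℂ, A ≠ 0 ∧ ∀ X X' : ℝ,
    Tendsto (fun n : ℕ => (((n : ℝ) ^ (3 / 2 : ℝ) : ℝ) : ℂ) *
      Complex.exp (-(n * tp w ζ ζ' + (√(n : ℝ) : ℝ) * (tz w ζ * (δ * X) + tz w ζ' * (δ' * X')))) *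
      SS n (ζ + δ * X / ((√(n : ℝ) : ℝ) : ℂ)) (ζ' + δ' * X' / ((√(n : ℝ) : ℝ) : ℂ))) atTop
      (𝓝 (A * Complex.exp (Qh w ζ ζ' (δ * X) (δ' * X'))))

/-- The limit of the kernel, in the form of `SS_lim`, gives `HLim`. -/
theorem hLim_of_zt {w ζ ζ' : ℂ} (h : |ζ.re| < 1 / 4) (h' : |ζ'.re| < 1 / 4) {A : ℂ} (hA : A ≠ 0)
    (hlim : ∀ X X' : ℝ, Tendsto (fun n : ℕ => (((n : ℝ) ^ (3 / 2 : ℝ) : ℝ) : ℂ) *
      Complex.exp (-(n * tp w ζ ζ' + √(n : ℝ) * (tz w ζ * X + tz w ζ' * X'))) *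
      SS n (zt ζ.im (ζ.re + X / √(n : ℝ))) (zt ζ'.im (ζ'.re + X' / √(n : ℝ)))) atTop
      (𝓝 (A * Complex.exp (tzz w ζ * X ^ 2 / 2 + tzz w ζ' * X' ^ 2 / 2 -
        (twz w ζ * X + twz w ζ' * X') ^ 2 / (2 * tww w ζ ζ'))))) : HLim w ζ ζ' 1 1 := by
  refine ⟨A, hA, fun X X' => ?_⟩
  have h1 := hlim X X'
  simp only [Qh, one_mul]
  refine h1.congr' ?_
  filter_upwards [eventually_abs_le h X, eventually_abs_le h' X'] with n hn hn'
  rw [zt_eq hn.le, zt_eq hn'.le]
  push_cast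
  rfl

/-! ### graphs -/

section graph

variable {V E : Type*} [Fintype V] [Fintype E]

/-- the potential of a graph with edges `src e` --- `tgt e` -/
noncomputable def TG (src tgt : E → V) (b : V → ℤ) (y : E → ℂ) (ζ : V → ℂ) : ℂ :=
  ∑ v, (Real.pi * Complex.I * b v * ζ v ^ 2 + 2 * Real.pi * Complex.I * ζ v) +
    ∑ e, tp (y e) (ζ (src e)) (ζ (tgt e))

/-- the derivative of the second sum of `TG` with respect to `ζ v` -/
noncomputable def dG [DecidableEq V] (src tgt : E → V) (y : E → ℂ) (ζ : V → ℂ) (v : V) : ℂ :=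
  ∑ e, ((if src e = v then tz (y e) (ζ v) else 0) + (if tgt e = v then tz (y e) (ζ v) else 0))

/-- critical points of `TG` -/
structure CritG [DecidableEq V] (src tgt : E → V) (b : V → ℤ) (y : E → ℂ) (ζ : V → ℂ) : Prop where
  crit_y : ∀ e, tw (y e) (ζ (src e)) (ζ (tgt e)) = 0
  crit_z : ∀ v, 2 * Real.pi * Complex.I * (b v * ζ v + 1) + dG src tgt y ζ v = 0

/-- the integrand on the cube -/
noncomputable def igG (n : ℕ) (src tgt : E → V) (b : V → ℤ) (z d : V → ℝ → ℂ) (σ : V → ℝ) : ℂ :=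
  (∏ v, Ec n (b v) (z v (σ v)) * d v (σ v)) *
    ∏ e, SS n (z (src e) (σ (src e))) (z (tgt e) (σ (tgt e)))

/-- the integral over the cube -/
noncomputable def IG (n : ℕ) (src tgt : E → V) (b : V → ℤ) (z d : V → ℝ → ℂ) : ℂ :=
  ∫ σ in cube V, igG n src tgt b z d σ

theorem measurable_igG (n : ℕ) (src tgt : E → V) (b : V → ℤ) {z d : V → ℝ → ℂ}
    (hz : ∀ i, Measurable (z i)) (hd : ∀ i, Measurable (d i)) :
    Measurable (igG n src tgt b z d) := by
  unfold igG
  refine Measurable.mul ?_ ?_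
  · refine Finset.measurable_prod _ fun i _ => ?_
    have h1 : Measurable fun σ : V → ℝ => z i (σ i) := (hz i).comp (measurable_pi_apply i)
    have h2 : Measurable fun σ : V → ℝ => d i (σ i) := (hd i).comp (measurable_pi_apply i)
    exact ((measurable_Ec n (b i)).comp h1).mul h2
  · refine Finset.measurable_prod _ fun e _ => ?_
    have h1 : Measurable fun σ : V → ℝ => (z (src e) (σ (src e)), z (tgt e) (σ (tgt e))) :=
      Measurable.prodMk ((hz _).comp (measurable_pi_apply _)) ((hz _).comp (measurable_pi_apply _))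
    have h3 := (measurable_SS n).comp h1
    exact h3

/-- the exponent of the limit -/
noncomputable def QG (src tgt : E → V) (b : V → ℤ) (y : E → ℂ) (ζ Z : V → ℂ) : ℂ :=
  ∑ v, Real.pi * Complex.I * b v * Z v ^ 2 +
    ∑ e, Qh (y e) (ζ (src e)) (ζ (tgt e)) (Z (src e)) (Z (tgt e))

theorem isQ_QG (src tgt : E → V) (b : V → ℤ) (y : E → ℂ) (ζ δ : V → ℂ) :
    VC.IsQ fun X => QG src tgt b y ζ fun i => δ i * X i := by
  classical
  unfold QG Qh
  refine VC.IsQ.add ?_ ?_
  · refine VC.IsQ.sum _ fun i _ => ?_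
    have := (VC.IsQ.apply_sq (ι := V) i).const_mul (Real.pi * Complex.I * b i * δ i ^ 2)
    refine cast (congrArg VC.IsQ (funext fun X => ?_)) this
    ring
  · refine VC.IsQ.sum _ fun e _ => VC.IsQ.sub (VC.IsQ.add ?_ ?_) ?_
    · have := (VC.IsQ.apply_sq (ι := V) (src e)).const_mul
        (tzz (y e) (ζ (src e)) * δ (src e) ^ 2 / 2)
      refine cast (congrArg VC.IsQ (funext fun X => ?_)) this
      ring
    · have := (VC.IsQ.apply_sq (ι := V) (tgt e)).const_mul
        (tzz (y e) (ζ (tgt e)) * δ (tgt e) ^ 2 / 2)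
      refine cast (congrArg VC.IsQ (funext fun X => ?_)) this
      ring
    · have := (VC.IsQ.lin_sq (ι := V) (src e) (tgt e)
        (twz (y e) (ζ (src e)) * δ (src e))
        (twz (y e) (ζ (tgt e)) * δ (tgt e))).const_mul (2 * tww (y e) (ζ (src e)) (ζ (tgt e)))⁻¹
      refine cast (congrArg VC.IsQ (funext fun X => ?_)) this
      rw [div_eq_inv_mul]
      ring

theorem sum_dG [DecidableEq V] (src tgt : E → V) (y : E → ℂ) (ζ f : V → ℂ) :
    ∑ v, dG src tgt y ζ v * f v = ∑ e, (tz (y e) (ζ (src e)) * f (src e) +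
      tz (y e) (ζ (tgt e)) * f (tgt e)) := by
  unfold dG
  simp_rw [Finset.sum_mul]
  rw [Finset.sum_comm]
  refine Finset.sum_congr rfl fun e _ => ?_
  simp_rw [add_mul]
  rw [Finset.sum_add_distrib]
  congr 1
  · rw [Finset.sum_eq_single (src e)]
    · simp
    · intro i _ hi
      rw [if_neg (Ne.symm hi), zero_mul]
    · intro h
      exact absurd (Finset.mem_univ _) h
  · rw [Finset.sum_eq_single (tgt e)]
    · simp
    · intro i _ hi
      rw [if_neg (Ne.symm hi), zero_mul]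
    · intro h
      exact absurd (Finset.mem_univ _) h

/-- the linear terms cancel at a critical point -/
theorem linG_zero [DecidableEq V] {src tgt : E → V} {b : V → ℤ} {y : E → ℂ} {ζ : V → ℂ}
    (h : CritG src tgt b y ζ) (f : V → ℂ) :
    ∑ v, 2 * Real.pi * Complex.I * (b v * ζ v + 1) * f v +
      ∑ e, (tz (y e) (ζ (src e)) * f (src e) + tz (y e) (ζ (tgt e)) * f (tgt e)) = 0 := by
  rw [← sum_dG, ← Finset.sum_add_distrib]
  refine Finset.sum_eq_zero fun i _ => ?_
  rw [← add_mul, h.crit_z i, zero_mul]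

/-- the tangent planes (real parts, along real displacements of the `ζ v`) add up to the critical
value -/
theorem reG_sum [DecidableEq V] {src tgt : E → V} {b : V → ℤ} {y : E → ℂ} {ζ : V → ℂ}
    (h : CritG src tgt b y ζ) (σ : V → ℝ) :
    ∑ v, -(2 * Real.pi * (ζ v).im * (1 + b v * σ v)) +
      ∑ e, ((tp (y e) (ζ (src e)) (ζ (tgt e))).re +
        (tz (y e) (ζ (src e))).re * (σ (src e) - (ζ (src e)).re) +
        (tz (y e) (ζ (tgt e))).re * (σ (tgt e) - (ζ (tgt e)).re)) =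
      (TG src tgt b y ζ).re := by
  have h1 := congrArg Complex.re (linG_zero h fun i => ((σ i - (ζ i).re : ℝ) : ℂ))
  rw [Complex.add_re, Complex.re_sum, Complex.re_sum, Complex.zero_re] at h1
  rw [TG, Complex.add_re, Complex.re_sum, Complex.re_sum]
  have h2 : ∀ i, -(2 * Real.pi * (ζ i).im * (1 + b i * σ i)) =
      (Real.pi * Complex.I * b i * ζ i ^ 2 + 2 * Real.pi * Complex.I * ζ i).re +
        (2 * Real.pi * Complex.I * (b i * ζ i + 1) * ((σ i - (ζ i).re : ℝ) : ℂ)).re := by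
    intro i
    rw [re_wt, re_lin]
    ring
  have h3 : ∀ e, (tp (y e) (ζ (src e)) (ζ (tgt e))).re +
        (tz (y e) (ζ (src e))).re * (σ (src e) - (ζ (src e)).re) +
        (tz (y e) (ζ (tgt e))).re * (σ (tgt e) - (ζ (tgt e)).re) =
      (tp (y e) (ζ (src e)) (ζ (tgt e))).re +
      (tz (y e) (ζ (src e)) * ((σ (src e) - (ζ (src e)).re : ℝ) : ℂ) +
        tz (y e) (ζ (tgt e)) * ((σ (tgt e) - (ζ (tgt e)).re : ℝ) : ℂ)).re := by
    intro e
    rw [Complex.add_re, Complex.re_mul_ofReal, Complex.re_mul_ofReal]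
    ring
  simp_rw [h2, h3]
  rw [Finset.sum_add_distrib, Finset.sum_add_distrib]
  linarith

/-- pointwise limit of the integrand -/
theorem igG_lim [DecidableEq V] {src tgt : E → V} {b : V → ℤ} {y : E → ℂ} {ζ : V → ℂ}
    (hcr : CritG src tgt b y ζ) (him : ∀ i, 0 < (ζ i).im) {z d : V → ℝ → ℂ}
    {s : V → ℝ} {δ : V → ℂ} (hp : ∀ i, PathAt (z i) (d i) (s i) (ζ i) (δ i))
    (hH : ∀ e, HLim (y e) (ζ (src e)) (ζ (tgt e)) (δ (src e)) (δ (tgt e))) :
    ∃ K : ℂ, K ≠ 0 ∧ ∀ X : V → ℝ,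
    Tendsto (fun n : ℕ => (((n : ℝ) ^ (3 / 2 : ℝ) : ℝ) : ℂ) ^ Fintype.card E *
      Complex.exp (-(n * TG src tgt b y ζ)) *
      igG n src tgt b z d (fun i => s i + X i / √(n : ℝ))) atTop
      (𝓝 (K * Complex.exp (QG src tgt b y ζ fun i => δ i * X i))) := by
  choose A hA hAX using hH
  refine ⟨(∏ i, (-4 * Complex.sin (2 * Real.pi * ζ i) * δ i)) * ∏ j, A j, ?_, fun X => ?_⟩
  · refine mul_ne_zero (Finset.prod_ne_zero_iff.mpr fun i _ => ?_)
      (Finset.prod_ne_zero_iff.mpr fun j _ => hA j)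
    refine mul_ne_zero (mul_ne_zero (by norm_num) fun h0 => ?_) (hp i).ne
    obtain ⟨k, hk⟩ := Complex.sin_eq_zero_iff.mp h0
    have h1 := congrArg Complex.im hk
    have h2 : (2 * (Real.pi : ℂ) * ζ i).im = 2 * Real.pi * (ζ i).im := by
      rw [show (2 * (Real.pi : ℂ) * ζ i) = ((2 * Real.pi : ℝ) : ℂ) * ζ i by push_cast; ring,
        Complex.im_ofReal_mul]
    have h3 : ((k : ℂ) * (Real.pi : ℂ)).im = 0 := by
      rw [show ((k : ℂ) * (Real.pi : ℂ)) = ((k * Real.pi : ℝ) : ℂ) by push_cast; ring,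
        Complex.ofReal_im]
    rw [h2, h3] at h1
    have := him i
    have : 0 < 2 * Real.pi * (ζ i).im := by positivity
    linarith
  · have t1 := tendsto_finset_prod (Finset.univ : Finset V)
      fun i _ => (Ec_lim (b := b i) (him i) (δ i * X i)).mul_const (δ i)
    have t2 := tendsto_finset_prod (Finset.univ : Finset E)
      fun e _ => hAX e (X (src e)) (X (tgt e))
    have t3 := t1.mul t2
    have e1 : (∏ i, (-4 * Complex.sin (2 * Real.pi * ζ i) *
          Complex.exp (Real.pi * Complex.I * b i * (δ i * X i) ^ 2) * δ i)) *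
        ∏ e, (A e * Complex.exp (Qh (y e) (ζ (src e)) (ζ (tgt e))
          (δ (src e) * X (src e)) (δ (tgt e) * X (tgt e)))) =
        (∏ i, (-4 * Complex.sin (2 * Real.pi * ζ i) * δ i)) * (∏ j, A j) *
          Complex.exp (QG src tgt b y ζ fun i => δ i * X i) := by
      rw [prod_mul_exp, QG, Complex.exp_add]
      have : ∀ i, -4 * Complex.sin (2 * Real.pi * ζ i) *
          Complex.exp (Real.pi * Complex.I * b i * (δ i * X i) ^ 2) * δ i =
          (-4 * Complex.sin (2 * Real.pi * ζ i) * δ i) *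
          Complex.exp (Real.pi * Complex.I * b i * (δ i * X i) ^ 2) := fun i => by ring
      simp_rw [this]
      rw [prod_mul_exp]
      ring
    rw [e1] at t3
    have hev : ∀ᶠ n : ℕ in atTop, ∀ i, z i (s i + X i / √(n : ℝ)) =
        ζ i + δ i * X i / ((√(n : ℝ) : ℝ) : ℂ) ∧ d i (s i + X i / √(n : ℝ)) = δ i := by
      rw [eventually_all]
      intro i
      obtain ⟨r, hr, hnear⟩ := (hp i).near
      have h1 := (div_sqrt_tendsto (X i)).abs
      rw [abs_zero] at h1
      filter_upwards [h1.eventually_lt_const hr] with n hn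
      have h2 := hnear (s i + X i / √(n : ℝ)) (by rw [add_sub_cancel_left]; exact hn)
      refine ⟨?_, h2.2⟩
      rw [h2.1, add_sub_cancel_left]
      push_cast
      ring
    refine t3.congr' ?_
    filter_upwards [hev] with n hn
    have h0 : igG n src tgt b z d (fun i => s i + X i / √(n : ℝ)) =
        (∏ i, Ec n (b i) (ζ i + δ i * X i / ((√(n : ℝ) : ℝ) : ℂ)) * δ i) *
        ∏ e, SS n (ζ (src e) + δ (src e) * X (src e) / ((√(n : ℝ) : ℝ) : ℂ))
          (ζ (tgt e) + δ (tgt e) * X (tgt e) / ((√(n : ℝ) : ℝ) : ℂ)) := by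
      unfold igG
      congr 1
      · exact Finset.prod_congr rfl fun i _ => by rw [(hn i).1, (hn i).2]
      · exact Finset.prod_congr rfl fun e _ => by rw [(hn (src e)).1, (hn (tgt e)).1]
    rw [h0]
    have e2 : Complex.exp (-(n * TG src tgt b y ζ)) =
        Complex.exp (∑ i, -(n * (Real.pi * Complex.I * b i * ζ i ^ 2 +
          2 * Real.pi * Complex.I * ζ i) +
          ((√(n : ℝ) : ℝ) : ℂ) * (2 * Real.pi * Complex.I * (b i * ζ i + 1)) * (δ i * X i))) *
        Complex.exp (∑ e, -(n * tp (y e) (ζ (src e)) (ζ (tgt e)) +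
          ((√(n : ℝ) : ℝ) : ℂ) * (tz (y e) (ζ (src e)) * (δ (src e) * X (src e)) +
            tz (y e) (ζ (tgt e)) * (δ (tgt e) * X (tgt e))))) := by
      rw [← Complex.exp_add]
      congr 1
      have h1 := linG_zero hcr fun i => δ i * X i
      have h2 : ∑ i, -(n * (Real.pi * Complex.I * b i * ζ i ^ 2 +
          2 * Real.pi * Complex.I * ζ i) +
          ((√(n : ℝ) : ℝ) : ℂ) * (2 * Real.pi * Complex.I * (b i * ζ i + 1)) * (δ i * X i)) =
          -(n * ∑ i, (Real.pi * Complex.I * b i * ζ i ^ 2 + 2 * Real.pi * Complex.I * ζ i)) -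
          ((√(n : ℝ) : ℝ) : ℂ) * ∑ i, 2 * Real.pi * Complex.I * (b i * ζ i + 1) *
            (δ i * X i) := by
        rw [Finset.mul_sum, Finset.mul_sum, ← Finset.sum_neg_distrib, ← Finset.sum_sub_distrib]
        exact Finset.sum_congr rfl fun i _ => by ring
      have h3 : ∑ e, -(n * tp (y e) (ζ (src e)) (ζ (tgt e)) +
          ((√(n : ℝ) : ℝ) : ℂ) * (tz (y e) (ζ (src e)) * (δ (src e) * X (src e)) +
            tz (y e) (ζ (tgt e)) * (δ (tgt e) * X (tgt e)))) =
          -(n * ∑ e, tp (y e) (ζ (src e)) (ζ (tgt e))) -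
          ((√(n : ℝ) : ℝ) : ℂ) * ∑ e, (tz (y e) (ζ (src e)) *
            (δ (src e) * X (src e)) + tz (y e) (ζ (tgt e)) * (δ (tgt e) * X (tgt e))) := by
        rw [Finset.mul_sum, Finset.mul_sum, ← Finset.sum_neg_distrib, ← Finset.sum_sub_distrib]
        exact Finset.sum_congr rfl fun i _ => by ring
      rw [h2, h3, TG]
      linear_combination ((√(n : ℝ) : ℝ) : ℂ) * h1
    rw [e2, Complex.exp_sum, Complex.exp_sum]
    simp only [Finset.prod_mul_distrib, Finset.prod_const, Finset.card_univ]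
    ring

/-- The total domination hypothesis; `s v` is the parameter of the saddle on the path `z v`. -/
def DomG (src tgt : E → V) (b : V → ℤ) (y : E → ℂ) (ζ : V → ℂ) (z d : V → ℝ → ℂ) (s : V → ℝ) :
    Prop :=
  ∃ (C c : ℝ) (N : ℕ), 0 < c ∧ ∀ n : ℕ, N ≤ n → Odd n → ∀ σ ∈ cube V,
    ‖igG n src tgt b z d σ‖ ≤ C * ((n : ℝ) ^ (-(3 / 2) : ℝ)) ^ Fintype.card E *
      Real.exp (n * ((TG src tgt b y ζ).re - c * ∑ i, (σ i - s i) ^ 2))

/-- Asymptotics of the integral: any graph, general paths. -/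
theorem core_graph [DecidableEq V] {src tgt : E → V} {b : V → ℤ} {y : E → ℂ} {ζ : V → ℂ}
    (hcr : CritG src tgt b y ζ) (him : ∀ i, 0 < (ζ i).im) {z d : V → ℝ → ℂ}
    {s : V → ℝ} {δ : V → ℂ}
    (hp : ∀ i, PathAt (z i) (d i) (s i) (ζ i) (δ i)) (hs : ∀ i, |s i| < 1 / 2)
    (hH : ∀ e, HLim (y e) (ζ (src e)) (ζ (tgt e)) (δ (src e)) (δ (tgt e)))
    (hD : DomG src tgt b y ζ z d s) :
    ∃ L : ℂ, L ≠ 0 ∧ Tendsto (fun k : ℕ => ((((2 * k + 1 : ℕ) : ℝ) ^
        (((Fintype.card V : ℝ) + 3 * (Fintype.card E : ℝ)) / 2) : ℝ) : ℂ) *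
      Complex.exp (-(((2 * k + 1 : ℕ) : ℂ) * TG src tgt b y ζ)) *
      IG (2 * k + 1) src tgt b z d) atTop (𝓝 L) := by
  obtain ⟨C, c, N, hc, hB'⟩ := hD
  obtain ⟨K, hK, hL'⟩ := igG_lim hcr him hp hH
  have hx : cube V ∈ 𝓝 s := cube_mem_nhds hs
  have hodd : Tendsto (fun s : ℕ => 2 * s + 1) atTop atTop :=
    tendsto_atTop_mono (fun s => by simp only [id]; omega) tendsto_id
  have hν : Tendsto (fun s : ℕ => ((2 * s + 1 : ℕ) : ℝ)) atTop atTop :=
    tendsto_natCast_atTop_atTop.comp hodd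
  set F : ℕ → (V → ℝ) → ℂ := fun k x =>
    ((((2 * k + 1 : ℕ) : ℝ) ^ (3 / 2 : ℝ) : ℝ) : ℂ) ^ Fintype.card E *
      Complex.exp (-(((2 * k + 1 : ℕ) : ℂ) * TG src tgt b y ζ)) *
      igG (2 * k + 1) src tgt b z d x with hF
  have hb : ∀ᶠ k in atTop, ∀ x ∈ cube V, ‖F k x‖ ≤
      C * Real.exp (-(((2 * k + 1 : ℕ) : ℝ) * (c * ∑ i, (x i - s i) ^ 2))) := by
    filter_upwards [hodd.eventually_ge_atTop N] with k hk x hx'
    have h1 := hB' (2 * k + 1) hk ⟨k, rfl⟩ x hx'
    have hn0 : (0 : ℝ) < ((2 * k + 1 : ℕ) : ℝ) := by positivity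
    rw [hF]
    simp only
    rw [norm_mul, norm_mul, norm_pow, Complex.norm_real, Complex.norm_exp, Real.norm_eq_abs,
      abs_of_nonneg (Real.rpow_nonneg hn0.le _)]
    refine (mul_le_mul_of_nonneg_left h1 (by positivity)).trans (le_of_eq ?_)
    have h2 : ((2 * k + 1 : ℕ) : ℝ) ^ (3 / 2 : ℝ) * ((2 * k + 1 : ℕ) : ℝ) ^ (-(3 / 2) : ℝ) = 1 := by
      rw [← Real.rpow_add hn0]
      norm_num
    have h3 : (-(((2 * k + 1 : ℕ) : ℂ) * TG src tgt b y ζ)).re =
        -(((2 * k + 1 : ℕ) : ℝ) * (TG src tgt b y ζ).re) := by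
      rw [Complex.neg_re, ← Complex.ofReal_natCast, Complex.re_ofReal_mul]
    rw [h3]
    have h4 : ∀ (P Q R u v : ℝ) (M : ℕ), P ^ M * Real.exp u * (R * Q ^ M * Real.exp v) =
        R * (P * Q) ^ M * Real.exp (u + v) := fun P Q R u v M => by
      rw [Real.exp_add, mul_pow]; ring
    rw [h4, h2, one_pow, mul_one]
    congr 2
    ring
  have hG : ∀ X : V → ℝ, Tendsto (fun k => F k (fun i => s i + X i /
      √(((2 * k + 1 : ℕ) : ℝ)))) atTop
      (𝓝 (K * Complex.exp (QG src tgt b y ζ fun i => δ i * X i))) :=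
    fun X => (hL' X).comp hodd
  have hlap := VC.laplace_nd measurableSet_cube hx hν (F := F)
    (fun k => (measurable_igG _ _ _ _ (fun i => (hp i).mz) (fun i => (hp i).md)).const_mul _)
    hc hb hG
  have hbd := VC.laplace_nd_bound hx hν (F := F) hb hG
  refine ⟨∫ X : V → ℝ, K * Complex.exp (QG src tgt b y ζ fun i => δ i * X i), ?_, ?_⟩
  · rw [integral_const_mul]
    refine mul_ne_zero hK ((isQ_QG src tgt b y ζ δ).integral_ne_zero (C := C / ‖K‖) hc
      fun X => ?_)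
    have h1 := hbd X
    rw [norm_mul, Complex.norm_exp] at h1
    have hK0 : 0 < ‖K‖ := norm_pos_iff.mpr hK
    rw [div_mul_eq_mul_div, le_div_iff₀ hK0, mul_comm]
    exact h1
  · refine hlap.congr fun k => ?_
    have hn0 : (0 : ℝ) < ((2 * k + 1 : ℕ) : ℝ) := by positivity
    rw [hF]
    simp only
    rw [integral_const_mul, ← mul_assoc, ← mul_assoc, IG]
    congr 2
    rw [← Complex.ofReal_pow, ← Complex.ofReal_mul]
    congr 1
    rw [← Real.rpow_natCast, ← Real.rpow_mul hn0.le, ← Real.rpow_add hn0]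
    congr 1
    ring

end graph

/-! ### chains -/

theorem critG_of_crit {M : ℕ} {b : Fin (M + 1) → ℤ} {y : Fin M → ℂ} {ζ : Fin (M + 1) → ℂ}
    (h : Crit b y ζ) : CritG Fin.castSucc Fin.succ b y ζ := ⟨h.crit_y, h.crit_z⟩

theorem TG_chain {M : ℕ} (b : Fin (M + 1) → ℤ) (y : Fin M → ℂ) (ζ : Fin (M + 1) → ℂ) :
    TG Fin.castSucc Fin.succ b y ζ = TT b y ζ := rfl

theorem IG_chain (n : ℕ) {M : ℕ} (b : Fin (M + 1) → ℤ) (ρ : Fin (M + 1) → ℝ) :
    IG n Fin.castSucc Fin.succ b (fun i => zt (ρ i)) (fun i => dzt (ρ i)) = II n b ρ := rfl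

/-- Asymptotics of the integral for chains and trapezoids, total domination as hypothesis. -/
theorem core_of_dom {M : ℕ} {b : Fin (M + 1) → ℤ} {y : Fin M → ℂ} {ζ : Fin (M + 1) → ℂ}
    (hcr : Crit b y ζ) (him : ∀ i, 0 < (ζ i).im) (hre : ∀ i, |(ζ i).re| < 1 / 4)
    (hH : ∀ j : Fin M, HLim (y j) (ζ j.castSucc) (ζ j.succ) 1 1)
    (hD : ∃ (C c : ℝ) (N : ℕ), 0 ≤ C ∧ 0 < c ∧ ∀ n : ℕ, N ≤ n → Odd n →
      ∀ σ : Fin (M + 1) → ℝ, σ ∈ box M → (∏ i, ‖EE n (b i) (ζ i).im (σ i)‖) *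
      (∏ j : Fin M, ‖SS n (zt (ζ j.castSucc).im (σ j.castSucc)) (zt (ζ j.succ).im (σ j.succ))‖) ≤
      C * (n : ℝ) ^ (-(3 / 2 * (M : ℝ))) *
        Real.exp (n * ((TT b y ζ).re - c * ∑ i, (σ i - (ζ i).re) ^ 2))) :
    ∃ L : ℂ, L ≠ 0 ∧ Tendsto (fun s : ℕ => ((((2 * s + 1 : ℕ) : ℝ) ^ (2 * (M : ℝ) + 1 / 2) : ℝ) : ℂ) *
      Complex.exp (-(((2 * s + 1 : ℕ) : ℂ) * TT b y ζ)) *
      II (2 * s + 1) b (fun i => (ζ i).im)) atTop (𝓝 L) := by
  have hD' : DomG Fin.castSucc Fin.succ b y ζ (fun i => zt (ζ i).im) (fun i => dzt (ζ i).im)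
      fun i => (ζ i).re := by
    obtain ⟨C, c, N, -, hc, h⟩ := hD
    refine ⟨C, c, N, hc, fun n hn hodd σ hσ => ?_⟩
    have h1 := h n hn hodd σ hσ
    have e : ((n : ℝ) ^ (-(3 / 2) : ℝ)) ^ M = (n : ℝ) ^ (-(3 / 2 * (M : ℝ))) := by
      rw [← Real.rpow_natCast, ← Real.rpow_mul (Nat.cast_nonneg n)]
      congr 1
      ring
    rw [Fintype.card_fin, e, TG_chain, igG, norm_mul, norm_prod, norm_prod]
    exact h1
  obtain ⟨L, hL, h⟩ := core_graph (critG_of_crit hcr) him (δ := fun _ => 1)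
    (fun i => pathAt_zt (hre i)) (fun i => (hre i).trans (by norm_num)) hH hD'
  refine ⟨L, hL, ?_⟩
  refine h.congr fun k => ?_
  rw [IG_chain, TG_chain, Fintype.card_fin, Fintype.card_fin]
  congr 4
  push_cast
  ring

end Pool.Agent.Work.MP_b30479_gtS.LT

end

section

/-!
# Holomorphy, measurability and zeros of the integrand
-/

namespace Pool.Agent.Work.MP_b30479_gtS.G2

open Finset VOL MeasureTheory Filter Topology

variable {D Z K : Type} [Fintype D] [Fintype Z] [Fintype K] [DecidableEq D]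

omit [Fintype K] [DecidableEq D] in
theorem Dat.form_re (S : Dat D Z K) (k : K) (z : D ⊕ Z → ℂ) :
    (S.form k z).re = S.a k + ∑ i, (S.A k i : ℝ) * (z i).re := by
  unfold Dat.form
  rw [Complex.add_re, Complex.ofReal_re, Complex.re_sum]
  congr 1
  refine Finset.sum_congr rfl fun i _ => ?_
  rw [← Complex.ofReal_intCast, Complex.re_ofReal_mul]

omit [Fintype K] [DecidableEq D] in
theorem Dat.form_im (S : Dat D Z K) (k : K) (z : D ⊕ Z → ℂ) :
    (S.form k z).im = ∑ i, (S.A k i : ℝ) * (z i).im := by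
  unfold Dat.form
  rw [Complex.add_im, Complex.ofReal_im, Complex.im_sum, zero_add]
  refine Finset.sum_congr rfl fun i _ => ?_
  rw [← Complex.ofReal_intCast, Complex.im_ofReal_mul]

omit [Fintype K] [DecidableEq D] in
theorem Dat.differentiable_form (S : Dat D Z K) (k : K) : Differentiable ℂ (S.form k) := by
  unfold Dat.form
  fun_prop

omit [Fintype K] [DecidableEq D] in
theorem Dat.differentiable_quad (S : Dat D Z K) : Differentiable ℂ S.quad := by
  unfold Dat.quad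
  fun_prop

omit [Fintype K] [DecidableEq D] in
theorem Dat.measurable_form (S : Dat D Z K) (k : K) : Measurable (S.form k) :=
  (S.differentiable_form k).continuous.measurable

omit [Fintype D] [Fintype Z] [DecidableEq D] [Fintype K] in
theorem differentiableAt_prod {E : Type*} [NormedAddCommGroup E] [NormedSpace ℂ E] (t : Finset K)
    {f : K → E → ℂ} {z : E} (h : ∀ k, DifferentiableAt ℂ (f k) z) :
    DifferentiableAt ℂ (fun z => ∏ k ∈ t, f k z) z := by
  classical
  induction t using Finset.induction_on with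
  | empty => simp
  | insert a t ha ih =>
    simp only [Finset.prod_insert ha]
    exact (h a).mul ih

theorem Dat.differentiableAt_G (S : Dat D Z K) {n : ℕ} (hn : 4 ≤ n) {z : D ⊕ Z → ℂ}
    (hz : ∀ k, 0 < (S.form k z).re + S.c k / n ∧ (S.form k z).re + S.c k / n < 2) :
    DifferentiableAt ℂ (S.G n) z := by
  unfold Dat.G
  have hq := S.differentiable_quad
  refine DifferentiableAt.mul ?_ ?_
  · have h1 : DifferentiableAt ℂ (fun z : D ⊕ Z → ℂ => (n : ℂ) * S.quad z + ∑ i, S.e i * z i) z := by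
      have := hq z
      fun_prop
    exact h1.cexp
  · refine differentiableAt_prod _ fun k => ?_
    have h2 : DifferentiableAt ℂ (fun z : D ⊕ Z → ℂ => S.form k z + ((S.c k / n : ℝ) : ℂ)) z :=
      (S.differentiable_form k z).add_const _
    have h3 := differentiableAt_SE hn (u := S.form k z + ((S.c k / n : ℝ) : ℂ))
      (by rw [Complex.add_re, Complex.ofReal_re]; exact (hz k).1)
      (by rw [Complex.add_re, Complex.ofReal_re]; exact (hz k).2)
    exact h3.comp z h2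

/-- a point with frozen discrete coordinates -/
noncomputable def mk (p : D → Prop) [DecidablePred p] (y : D → ℂ) (ζ : Z → ℂ)
    (w : {i // p i} → ℂ) : D ⊕ Z → ℂ :=
  Sum.elim (fun i => if h : p i then w ⟨i, h⟩ else y i) ζ

omit [Fintype D] [Fintype Z] [DecidableEq D] in
theorem mk_inl_pos {p : D → Prop} [DecidablePred p] {y : D → ℂ} {ζ : Z → ℂ}
    {w : {i // p i} → ℂ} {i : D} (h : p i) : mk p y ζ w (.inl i) = w ⟨i, h⟩ := by
  simp [mk, h]

omit [Fintype D] [Fintype Z] [DecidableEq D] in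
theorem mk_inl_neg {p : D → Prop} [DecidablePred p] {y : D → ℂ} {ζ : Z → ℂ}
    {w : {i // p i} → ℂ} {i : D} (h : ¬ p i) : mk p y ζ w (.inl i) = y i := by
  simp [mk, h]

omit [Fintype D] [Fintype Z] [DecidableEq D] in
theorem mk_inr {p : D → Prop} [DecidablePred p] {y : D → ℂ} {ζ : Z → ℂ}
    {w : {i // p i} → ℂ} {v : Z} : mk p y ζ w (.inr v) = ζ v := rfl

omit [DecidableEq D] in
theorem differentiable_mk (p : D → Prop) [DecidablePred p] (y : D → ℂ) (ζ : Z → ℂ) :
    Differentiable ℂ (mk p y ζ) := by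
  classical
  refine differentiable_pi.mpr fun i => ?_
  rcases i with i | v
  · by_cases h : p i
    · have : (fun w : {i // p i} → ℂ => mk p y ζ w (.inl i)) = fun w => w ⟨i, h⟩ := by
        funext w
        exact mk_inl_pos h
      rw [this]
      fun_prop
    · have : (fun w : {i // p i} → ℂ => mk p y ζ w (.inl i)) = fun _ => y i := by
        funext w
        exact mk_inl_neg h
      rw [this]
      fun_prop
  · exact differentiable_const _

/-- The integrand is holomorphic on a product of open strips. -/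
theorem G_holo {S : Dat D Z K} (hS : S.Ok) {n : ℕ} (hn : 4 ≤ n) (p : D → Prop) [DecidablePred p]
    {y : D → ℂ} {ζ : Z → ℂ} (hy : ∀ i, ¬ p i → 0 ≤ (y i).re ∧ (y i).re ≤ 1 - 1 / n)
    (hζ : ∀ v, |(ζ v).re| < 1 / 2) : ∃ ε : ℝ, 0 < ε ∧
      DifferentiableOn ℂ (fun w => S.G n (mk p y ζ w))
        (Set.univ.pi fun _ => {u : ℂ | -ε < u.re ∧ u.re < 1 - 1 / n + ε}) := by
  classical
  obtain ⟨a1, a2, a3⟩ := half_n hn
  have hn1 : 0 ≤ 1 - 1 / (n : ℝ) := by linarith only [a1, a3]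
  -- real parts
  set f : K → ({i // p i} → ℝ) → ℝ := fun k x =>
    (S.form k (mk p y ζ fun i => (x i : ℂ))).re + S.c k / n with hf
  have hfc : ∀ k, Continuous (f k) := by
    intro k
    have h1 : Continuous fun x : {i // p i} → ℝ => mk p y ζ fun i => (x i : ℂ) :=
      (differentiable_mk p y ζ).continuous.comp (by fun_prop)
    have h2 := (S.differentiable_form k).continuous.comp h1
    exact (Complex.continuous_re.comp h2).add continuous_const
  set C : Set ({i // p i} → ℝ) := Set.univ.pi fun _ => Set.Icc 0 (1 - 1 / (n : ℝ)) with hC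
  have hCc : IsCompact C := isCompact_univ_pi fun _ => isCompact_Icc
  have hCn : C.Nonempty := ⟨fun _ => 0, fun _ _ => ⟨le_rfl, hn1⟩⟩
  have hbox : ∀ x ∈ C, ∀ k, 0 < f k x ∧ f k x < 2 := by
    intro x hx k
    refine hS.range n (by omega) _ (fun i => ?_) (fun v => ?_) k
    · by_cases h : p i
      · rw [mk_inl_pos h, Complex.ofReal_re]
        exact hx _ (Set.mem_univ _)
      · rw [mk_inl_neg h]
        exact hy i h
    · rw [mk_inr]
      exact hζ v
  have hm : ∀ k, ∃ m : ℝ, 0 < m ∧ ∀ x ∈ C, m ≤ f k x ∧ m ≤ 2 - f k x := by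
    intro k
    obtain ⟨x0, hx0, h0⟩ := hCc.exists_isMinOn hCn
      (f := fun x => min (f k x) (2 - f k x)) (by
        have := hfc k
        fun_prop)
    refine ⟨min (f k x0) (2 - f k x0), ?_, fun x hx => ?_⟩
    · have := hbox x0 hx0 k
      exact lt_min this.1 (by linarith only [this, this.2])
    · have h1 := h0 hx
      rw [Set.mem_setOf_eq] at h1
      exact ⟨h1.trans (min_le_left _ _), h1.trans (min_le_right _ _)⟩
  choose m hm0 hm1 using hm
  set B : ℝ := ∑ k, ∑ i, |(S.A k i : ℝ)| + 1 with hB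
  have hB0 : 0 < B := by positivity
  obtain ⟨μ, hμ0, hμ⟩ : ∃ μ : ℝ, 0 < μ ∧ ∀ k, μ ≤ m k := by
    by_cases hK : Nonempty K
    · obtain ⟨k1, hk1⟩ := Finite.exists_min m
      exact ⟨m k1, hm0 k1, hk1⟩
    · rw [not_nonempty_iff] at hK
      exact ⟨1, one_pos, fun k => (IsEmpty.false k).elim⟩
  refine ⟨μ / (2 * B), by positivity, fun w hw => ?_⟩
  have hkey : ∀ k, 0 < (S.form k (mk p y ζ w)).re + S.c k / n ∧
      (S.form k (mk p y ζ w)).re + S.c k / n < 2 := by
    intro k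
    -- clip
    set x : {i // p i} → ℝ := fun i => max 0 (min (w i).re (1 - 1 / n)) with hx
    have hxC : x ∈ C := by
      intro i _
      exact ⟨le_max_left _ _, max_le hn1 (min_le_right _ _)⟩
    have hdist : ∀ i, |(w i).re - x i| ≤ μ / (2 * B) := by
      intro i
      have h1 := hw i (Set.mem_univ i)
      rw [Set.mem_setOf_eq] at h1
      have h2 : 0 < μ / (2 * B) := by positivity
      rw [abs_le]
      simp only [hx]
      rcases le_total (w i).re (1 - 1 / n) with h3 | h3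
      · rw [min_eq_left h3]
        rcases le_total 0 (w i).re with h4 | h4
        · rw [max_eq_right h4]
          constructor <;> linarith only [h2]
        · rw [max_eq_left h4]
          constructor <;> linarith only [h1, h2, h4, h1.1]
      · rw [min_eq_right h3, max_eq_right hn1]
        constructor <;> linarith only [h2, h3, h1, h1.2]
    have h5 : |(S.form k (mk p y ζ w)).re - (S.form k (mk p y ζ fun i => (x i : ℂ))).re| ≤
        μ / 2 := by
      rw [S.form_re, S.form_re]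
      have e : S.a k + ∑ i, (S.A k i : ℝ) * (mk p y ζ w i).re -
          (S.a k + ∑ i, (S.A k i : ℝ) * (mk p y ζ (fun i => (x i : ℂ)) i).re) =
          ∑ i, (S.A k i : ℝ) * ((mk p y ζ w i).re - (mk p y ζ (fun i => (x i : ℂ)) i).re) := by
        simp_rw [mul_sub]
        rw [Finset.sum_sub_distrib]
        ring
      rw [e]
      refine (Finset.abs_sum_le_sum_abs _ _).trans ?_
      have h6 : ∀ i, |(mk p y ζ w i).re - (mk p y ζ (fun i => (x i : ℂ)) i).re| ≤
          μ / (2 * B) := by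
        intro i
        have h2 : 0 < μ / (2 * B) := by positivity
        rcases i with i | v
        · by_cases h : p i
          · rw [mk_inl_pos h, mk_inl_pos h, Complex.ofReal_re]
            exact hdist _
          · rw [mk_inl_neg h, mk_inl_neg h, sub_self, abs_zero]
            exact h2.le
        · rw [mk_inr, mk_inr, sub_self, abs_zero]
          exact h2.le
      calc ∑ i, |(S.A k i : ℝ) * ((mk p y ζ w i).re - (mk p y ζ (fun i => (x i : ℂ)) i).re)| ≤
            ∑ i, |(S.A k i : ℝ)| * (μ / (2 * B)) := by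
            refine Finset.sum_le_sum fun i _ => ?_
            rw [abs_mul]
            exact mul_le_mul_of_nonneg_left (h6 i) (abs_nonneg _)
        _ = (∑ i, |(S.A k i : ℝ)|) * (μ / (2 * B)) := by rw [Finset.sum_mul]
        _ ≤ B * (μ / (2 * B)) := by
            refine mul_le_mul_of_nonneg_right ?_ (by positivity)
            have := Finset.single_le_sum (f := fun k => ∑ i, |(S.A k i : ℝ)|)
              (fun k _ => Finset.sum_nonneg fun i _ => abs_nonneg _) (Finset.mem_univ k)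
            linarith only [a1, a3, this]
        _ = μ / 2 := by field_simp
    have h7 := hm1 k x hxC
    simp only [hf] at h7
    have h8 := hμ k
    rw [abs_le] at h5
    constructor
    · linarith only [hμ0, h5, h7, h8, h7.1, h5.1]
    · linarith only [hμ0, h5, h7, h8, h7.2, h5.2]
  exact ((S.differentiableAt_G hn hkey).comp w (differentiable_mk p y ζ w)).differentiableWithinAt

/-- Zeros beyond the walls. -/
theorem G_wall {S : Dat D Z K} (hS : S.Ok) {n : ℕ} (hn : 4 ≤ n) {z : D ⊕ Z → ℂ}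
    (hz : InBox n z) {k : K} (hk : ∀ v, S.A k (.inr v) = 0)
    (hy : ∀ i, S.A k (.inl i) ≠ 0 → ∃ y : ℕ, z (.inl i) = (y : ℂ) / n)
    (h1 : 1 < (S.form k z).re) : S.G n z = 0 := by
  have hn0 : (0 : ℝ) < n := by
    have : 0 < n := by omega
    exact_mod_cast this
  have hnc : (n : ℂ) ≠ 0 := by exact_mod_cast hn0.ne'
  obtain ⟨⟨a, ha⟩, hc⟩ := hS.half k hk
  -- the form is an integer over `n`
  have hN : ∃ N : ℤ, S.form k z = (N : ℂ) / n := by
    choose! y hy' using hy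
    refine ⟨a * n + ∑ i, S.A k (.inl i) * (y i : ℤ), ?_⟩
    unfold Dat.form
    rw [Fintype.sum_sum_type, ha]
    simp only [hk, Int.cast_zero, zero_mul, Finset.sum_const_zero, add_zero]
    push_cast
    rw [add_div, mul_div_assoc, div_self hnc, mul_one, Finset.sum_div]
    congr 1
    refine Finset.sum_congr rfl fun i _ => ?_
    by_cases h : S.A k (.inl i) = 0
    · rw [h]
      simp
    · rw [hy' i h]
      ring
  obtain ⟨N, hN⟩ := hN
  have hre : (S.form k z).re = N / n := by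
    have : (N : ℂ) / n = ((N / n : ℝ) : ℂ) := by push_cast; rfl
    rw [hN, this, Complex.ofReal_re]
  have hNn : (n : ℤ) < N := by
    rw [hre, lt_div_iff₀ hn0, one_mul] at h1
    exact_mod_cast h1
  have hr := hS.range n (by omega) z (fun i => ⟨hz.d0 i, hz.d1 i⟩) hz.c k
  rw [hre, ← add_div] at hr
  have hr2 : (N : ℝ) + S.c k < 2 * n := by
    rw [← div_lt_iff₀ hn0]
    exact hr.2
  have hzero : SE n (S.form k z + ((S.c k / n : ℝ) : ℂ)) = 0 := by
    rcases hc with hc | hc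
    · obtain ⟨m, rfl⟩ : ∃ m : ℕ, N = m := ⟨N.toNat, by omega⟩
      have hm2 : m < 2 * n := by
        rw [hc] at hr2
        have : (m : ℝ) < 2 * n := by
          have : (((m : ℕ) : ℤ) : ℝ) = (m : ℝ) := by norm_cast
          linarith only [hr2, this]
        exact_mod_cast this
      have h2 := SE_zero hn (k := m) (by omega) hm2
      rw [hN, hc]
      have e : ((m : ℤ) : ℂ) / n + ((1 / 2 / n : ℝ) : ℂ) = ((m : ℂ) + 1 / 2) / n := by
        push_cast
        ring
      rw [e, h2]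
    · obtain ⟨m, hm⟩ : ∃ m : ℕ, N = m + 1 := ⟨(N - 1).toNat, by omega⟩
      have hm2 : m < 2 * n := by
        rw [hc, hm] at hr2
        have : (m : ℝ) < 2 * n := by
          push_cast at hr2
          linarith only [hr2]
        exact_mod_cast this
      have h2 := SE_zero hn (k := m) (by omega) hm2
      rw [hN, hc, hm]
      have e : (((m : ℤ) + 1 : ℤ) : ℂ) / n + ((-(1 / 2) / n : ℝ) : ℂ) = ((m : ℂ) + 1 / 2) / n := by
        push_cast
        ring
      rw [e, h2]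
  unfold Dat.G
  rw [Finset.prod_eq_zero (Finset.mem_univ k) hzero, mul_zero]

/-! ### measurability -/

theorem Dat.measurable_G (S : Dat D Z K) (n : ℕ) : Measurable (S.G n) := by
  unfold Dat.G
  refine Measurable.mul ?_ ?_
  · have h1 : Continuous fun z : D ⊕ Z → ℂ => Complex.exp ((n : ℂ) * S.quad z + ∑ i, S.e i * z i) := by
      have := S.differentiable_quad.continuous
      fun_prop
    exact h1.measurable
  · refine Finset.measurable_prod _ fun k _ => ?_
    exact (measurable_SE n).comp ((S.measurable_form k).add_const _)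

theorem contTrH (a b c c' : ℝ) : Continuous (tr a b c c') := by
  unfold tr
  fun_prop

theorem contPtH (a b c c' h : ℝ) : Continuous (pt a b c c' h) := by
  have := contTrH a b c c'
  unfold pt
  fun_prop

theorem measurable_om (P : Par D) (n : ℕ) (t : ℝ) (i : D) : Measurable (P.om n t i) := by
  have h := measurable_deriv (tr (ea n) (P.eb n i) (P.cl i) (P.cr i))
  unfold Par.om
  fun_prop

theorem measurable_EE (n : ℕ) (b : ℤ) (ρ : ℝ) : Measurable (LT.EE n b ρ) := by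
  have h1 : LT.EE n b ρ = fun σ => LT.Ec n b (LT.zt ρ σ) * LT.dzt ρ σ := by
    funext σ
    exact LT.EE_eq n b ρ σ
  rw [h1]
  exact ((LT.measurable_Ec n b).comp (LT.continuous_zt ρ).measurable).mul (LT.measurable_dzt ρ)

theorem measurable_pz (P : Par D) (zs : D ⊕ Z → ℂ) (n : ℕ) :
    Measurable fun q : (D → ℝ) × (Z → ℝ) => P.pz zs n q.1 q.2 := by
  refine measurable_pi_lambda _ fun i => ?_
  rcases i with i | v
  · have h1 : Measurable fun q : (D → ℝ) × (Z → ℝ) => q.1 i :=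
      (measurable_pi_apply i).comp measurable_fst
    exact (contPtH _ _ _ _ _).measurable.comp h1
  · have h1 : Measurable fun q : (D → ℝ) × (Z → ℝ) => q.2 v :=
      (measurable_pi_apply v).comp measurable_snd
    exact (LT.continuous_zt _).measurable.comp h1

theorem Dat.measurable_F (S : Dat D Z K) (P : Par D) (zs : D ⊕ Z → ℂ) (n : ℕ) :
    Measurable fun q : (D → ℝ) × (Z → ℝ) => S.F P zs n q.1 q.2 := by
  unfold Dat.F
  refine Measurable.mul (Measurable.mul ?_ ?_) ?_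
  · refine Finset.measurable_prod _ fun i _ => ?_
    exact (measurable_om P n _ i).comp ((measurable_pi_apply i).comp measurable_fst)
  · refine Finset.measurable_prod _ fun v _ => ?_
    exact (measurable_EE n (S.b v) _).comp ((measurable_pi_apply v).comp measurable_snd)
  · exact (S.measurable_G n).comp (measurable_pz P zs n)

omit [Fintype D] [DecidableEq D] in
/-- almost all points of the cube are interior -/
theorem ae_cube_lt : ∀ᵐ σ ∂(volume.restrict (LT.cube Z)), ∀ v, |σ v| < 1 / 2 := by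
  have h1 : (Set.univ.pi fun _ : Z => Set.Ioo (-(1 / 2) : ℝ) (1 / 2)) =ᵐ[volume] LT.cube Z := by
    unfold LT.cube
    have h2 := Measure.univ_pi_Ioo_ae_eq_Icc (μ := fun _ : Z => (volume : Measure ℝ))
      (f := fun _ => -(1 / 2)) (g := fun _ => 1 / 2)
    rw [← Set.pi_univ_Icc] at h2
    exact h2
  rw [← Measure.restrict_congr_set h1]
  refine (ae_restrict_iff' (MeasurableSet.univ_pi fun _ => measurableSet_Ioo)).mpr ?_
  refine Eventually.of_forall fun σ hσ v => ?_
  exact abs_lt.mpr (hσ v (Set.mem_univ v))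

end Pool.Agent.Work.MP_b30479_gtS.G2

end

section

/-!
# The gluing equations are the equations of the critical point
-/

namespace Pool.Agent.Work.MP_b30479_gtS.LT

open Finset VOL

/-- branches: both sides have the same exponential and imaginary parts that differ by less than
`2π` -/
theorem log_one_sub_ee {w : ℂ} (hw : w ∈ strip) :
    Complex.log (1 - ee w) = ph w + Real.pi * (w - 1 / 2) * Complex.I := by
  have hpi := Real.pi_pos
  obtain ⟨h0, h1⟩ := hw
  have hlt : |(ph w).im| < Real.pi / 2 := by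
    unfold ph
    rw [Complex.log_im, Complex.abs_arg_lt_pi_div_two_iff]
    left
    have := VOL.sin_pi_re_pos (z := w) ⟨h0, h1⟩
    simp only [Complex.mul_re, Complex.re_ofNat, Complex.im_ofNat, zero_mul, sub_zero]
    linarith only [this]
  rw [abs_lt] at hlt
  have him : (ph w + Real.pi * (w - 1 / 2) * Complex.I).im = (ph w).im + Real.pi * (w.re - 1 / 2) := by
    simp [Complex.mul_re, Complex.mul_im]
  rw [one_sub_ee' ⟨h0, h1⟩, Complex.log_exp]
  · rw [him]
    nlinarith only [hlt, hpi, h0, hlt.1]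
  · rw [him]
    nlinarith only [hlt, hpi, h1, hlt.2]

theorem ph_ee {w : ℂ} (h0 : 0 < w.re) (h1 : w.re < 1 / 2) :
    ph w = Complex.log (1 - ee w) - Real.pi * Complex.I * w + Real.pi * Complex.I / 2 := by
  rw [log_one_sub_ee ⟨h0, by linarith only [h0, h1]⟩]
  ring

theorem ph_ee_half {w : ℂ} (h0 : 0 < w.re) (h1 : w.re < 1 / 2) :
    ph (w + 1 / 2) = Complex.log (1 + ee w) - Real.pi * Complex.I * w := by
  have hs : w + 1 / 2 ∈ strip := by
    constructor
    · simp only [Complex.add_re]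
      norm_num
      linarith only [h0, h1]
    · simp only [Complex.add_re]
      norm_num
      linarith only [h1]
  have h2 := log_one_sub_ee hs
  have h3 : 1 - ee (w + 1 / 2) = 1 + ee w := by
    rw [ee_add, ee_half]
    ring
  rw [h3] at h2
  rw [h2]
  ring

theorem pos_add {w ζ : ℂ} (h : Pos w ζ) : 0 < (w + ζ).re ∧ (w + ζ).re < 1 / 2 ∧
    0 < (w - ζ).re ∧ (w - ζ).re < 1 / 2 ∧ 0 < w.re ∧ w.re < 1 / 2 := by
  obtain ⟨h1, h2⟩ := h
  have h3 := le_abs_self ζ.re
  have h4 := neg_abs_le ζ.re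
  have h5 := abs_nonneg ζ.re
  simp only [Complex.add_re, Complex.sub_re]
  refine ⟨?_, ?_, ?_, ?_, ?_, ?_⟩ <;> linarith only [h1, h4, h2, h3]

theorem lgs_eq {w ζ : ℂ} (h : Pos w ζ) : lgs w ζ = ph (w + 1 / 2 + ζ) + ph (w + 1 / 2 - ζ) -
    2 * ph w + Real.pi * Complex.I := by
  obtain ⟨a1, a2, a3, a4, a5, a6⟩ := pos_add h
  rw [show w + 1 / 2 + ζ = (w + ζ) + 1 / 2 by ring, show w + 1 / 2 - ζ = (w - ζ) + 1 / 2 by ring,
    ph_ee_half a1 a2, ph_ee_half a3 a4, ph_ee a5 a6]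
  unfold lgs
  ring

theorem lgd_eq {w ζ : ℂ} (h : Pos w ζ) : lgd w ζ = tz w ζ := by
  obtain ⟨a1, a2, a3, a4, a5, a6⟩ := pos_add h
  unfold tz
  rw [show w + 1 / 2 + ζ = (w + ζ) + 1 / 2 by ring, show w + 1 / 2 - ζ = (w - ζ) + 1 / 2 by ring,
    ph_ee_half a1 a2, ph_ee_half a3 a4]
  unfold lgd
  ring

theorem geom_iff {M : ℕ} {b : Fin (M + 1) → ℤ} {y : Fin M → ℂ} {ζ : Fin (M + 1) → ℂ}
    (hM : 1 ≤ M) (h1 : ∀ j : Fin M, Pos (y j) (ζ j.castSucc)) (h2 : ∀ j : Fin M, Pos (y j) (ζ j.succ)) :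
    Geom b y ζ ↔ Crit b y ζ := by
  have he : ∀ j : Fin M, lgs (y j) (ζ j.castSucc) + lgs (y j) (ζ j.succ) =
      tw (y j) (ζ j.castSucc) (ζ j.succ) + 2 * Real.pi * Complex.I := by
    intro j
    rw [lgs_eq (h1 j), lgs_eq (h2 j)]
    unfold tw
    ring
  have hf : ∀ i, ∑ j : Fin M, ((if j.castSucc = i then lgd (y j) (ζ i) else 0) +
      (if j.succ = i then lgd (y j) (ζ i) else 0)) = dz y ζ i := by
    intro i
    unfold dz
    refine sum_congr rfl fun j _ => ?_
    congr 1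
    · split_ifs with hj
      · subst hj
        exact lgd_eq (h1 j)
      · rfl
    · split_ifs with hj
      · subst hj
        exact lgd_eq (h2 j)
      · rfl
  constructor
  · intro h
    refine ⟨fun j => ?_, fun i => ?_⟩
    · have := h.edge j
      rw [he j] at this
      linear_combination this
    · have := h.filling i
      rw [hf i] at this
      exact this
  · intro h
    refine ⟨h1, h2, fun j => ?_, fun i => ?_⟩
    · rw [he j, h.crit_y j]
      ring
    · rw [hf i]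
      exact h.crit_z i

end Pool.Agent.Work.MP_b30479_gtS.LT

end

section

/-!
# Gluing equations and volume for general graphs
-/

namespace Pool.Agent.Work.MP_b30479_gtS.LT

open Finset VOL

variable {V E : Type*} [Fintype V] [Fintype E]

/-- The volume, `x_e = e^{2πiy_e}`, `q_v = e^{2πiζ_v}`. -/
noncomputable def volG (src tgt : E → V) (y : E → ℂ) (ζ : V → ℂ) : ℝ :=
  ∑ e, (rvol (ee (y e)) (ee (ζ (src e))) + rvol (ee (y e)) (ee (ζ (tgt e))))

/-- The (logarithmic) gluing equations, with positively oriented tetrahedra.  With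
`x_e = e^{2πiy_e}` and `q_v = e^{2πiζ_v}`, `edge` implies
`(1 + x_e q_v) (1 + x_e / q_v) (1 + x_e q_w) (1 + x_e / q_w) = (1 - x_e)⁴` for the edge `e` from
`v` to `w`, and `filling` implies `q_v^{b_v} ∏ (1 + x_e q_v) / (x_e + q_v) = 1`, the product over
the edges `e` at `v`; the logarithms fix the angles. -/
structure GeomG [DecidableEq V] (src tgt : E → V) (b : V → ℤ) (y : E → ℂ) (ζ : V → ℂ) : Prop where
  pos_src : ∀ e, Pos (y e) (ζ (src e))
  pos_tgt : ∀ e, Pos (y e) (ζ (tgt e))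
  edge : ∀ e, lgs (y e) (ζ (src e)) + lgs (y e) (ζ (tgt e)) = 2 * Real.pi * Complex.I
  filling : ∀ v, 2 * Real.pi * Complex.I * (b v * ζ v + 1) +
    ∑ e, ((if src e = v then lgd (y e) (ζ v) else 0) +
      (if tgt e = v then lgd (y e) (ζ v) else 0)) = 0

omit [Fintype V] in
theorem geomG_iff [DecidableEq V] {src tgt : E → V} {b : V → ℤ} {y : E → ℂ} {ζ : V → ℂ}
    (h1 : ∀ e, Pos (y e) (ζ (src e))) (h2 : ∀ e, Pos (y e) (ζ (tgt e))) :
    GeomG src tgt b y ζ ↔ CritG src tgt b y ζ := by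
  have he : ∀ e, lgs (y e) (ζ (src e)) + lgs (y e) (ζ (tgt e)) =
      tw (y e) (ζ (src e)) (ζ (tgt e)) + 2 * Real.pi * Complex.I := by
    intro e
    rw [lgs_eq (h1 e), lgs_eq (h2 e)]
    unfold tw
    ring
  have hf : ∀ v, ∑ e, ((if src e = v then lgd (y e) (ζ v) else 0) +
      (if tgt e = v then lgd (y e) (ζ v) else 0)) = dG src tgt y ζ v := by
    intro v
    unfold dG
    refine sum_congr rfl fun e _ => ?_
    congr 1
    · split_ifs with hj
      · subst hj
        exact lgd_eq (h1 e)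
      · rfl
    · split_ifs with hj
      · subst hj
        exact lgd_eq (h2 e)
      · rfl
  constructor
  · intro h
    refine ⟨fun e => ?_, fun v => ?_⟩
    · have := h.edge e
      rw [he e] at this
      linear_combination this
    · have := h.filling v
      rw [hf v] at this
      exact this
  · intro h
    refine ⟨h1, h2, fun e => ?_, fun v => ?_⟩
    · rw [he e, h.crit_y e]
      ring
    · rw [hf v]
      exact h.crit_z v

/-- at a critical point the real part of the potential is the volume, up to the factor `2π` -/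
theorem vol_TG [DecidableEq V] {src tgt : E → V} {b : V → ℤ} {y : E → ℂ} {ζ : V → ℂ}
    (h : CritG src tgt b y ζ) (h0 : ∀ e, 0 < (y e).re) (h1 : ∀ e, (y e).re + |(ζ (src e)).re| < 1 / 2)
    (h2 : ∀ e, (y e).re + |(ζ (tgt e)).re| < 1 / 2) :
    2 * Real.pi * (TG src tgt b y ζ).re = volG src tgt y ζ := by
  have h3 : ∀ e, (y e).re < 1 / 2 := fun e => by
    have := abs_nonneg (ζ (src e)).re
    linarith [h1 e]
  unfold volG
  have e1 : ∀ e, rvol (ee (y e)) (ee (ζ (src e))) + rvol (ee (y e)) (ee (ζ (tgt e))) =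
      2 * Real.pi * ((tp (y e) (ζ (src e)) (ζ (tgt e))).re +
        ((ζ (src e)).im * (tz (y e) (ζ (src e))).im + (ζ (tgt e)).im * (tz (y e) (ζ (tgt e))).im)) := by
    intro e
    rw [rvol_eq (h0 e) (h3 e) (h1 e), rvol_eq (h0 e) (h3 e) (h2 e)]
    have hc := congrArg Complex.im (h.crit_y e)
    unfold tw at hc
    unfold tp
    simp only [Complex.add_re, Complex.sub_re, Complex.add_im, Complex.sub_im, Complex.mul_re,
      Complex.mul_im, Complex.re_ofNat, Complex.im_ofNat, zero_mul, sub_zero, add_zero,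
      Complex.zero_im] at hc ⊢
    linear_combination (2 * Real.pi * (y e).im) * hc
  rw [sum_congr rfl fun e _ => e1 e, ← mul_sum, sum_add_distrib]
  congr 1
  -- the derivative with respect to `ζ v`
  have e2 : ∑ e, ((ζ (src e)).im * (tz (y e) (ζ (src e))).im +
      (ζ (tgt e)).im * (tz (y e) (ζ (tgt e))).im) = ∑ v, (ζ v).im * (dG src tgt y ζ v).im := by
    have e3 : ∀ v, (ζ v).im * (dG src tgt y ζ v).im = ∑ e,
        ((if src e = v then (ζ v).im * (tz (y e) (ζ v)).im else 0) +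
          (if tgt e = v then (ζ v).im * (tz (y e) (ζ v)).im else 0)) := by
      intro v
      unfold dG
      rw [Complex.im_sum, mul_sum]
      refine sum_congr rfl fun e _ => ?_
      rw [Complex.add_im]
      split_ifs <;> simp [mul_add]
    rw [sum_congr rfl fun v _ => e3 v, sum_comm]
    refine sum_congr rfl fun e _ => ?_
    rw [sum_add_distrib]
    simp
  rw [e2]
  unfold TG
  rw [Complex.add_re, Complex.re_sum, Complex.re_sum]
  have e4 : ∀ v, (ζ v).im * (dG src tgt y ζ v).im =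
      (Real.pi * Complex.I * b v * ζ v ^ 2 + 2 * Real.pi * Complex.I * ζ v).re := by
    intro v
    have hc := congrArg Complex.im (h.crit_z v)
    have e5 : (2 * Real.pi * Complex.I * (b v * ζ v + 1) : ℂ).im = 2 * Real.pi * (b v * (ζ v).re + 1) := by
      simp [Complex.mul_re, Complex.mul_im]
    rw [Complex.add_im, e5, Complex.zero_im] at hc
    have e6 : (Real.pi * Complex.I * b v * ζ v ^ 2 + 2 * Real.pi * Complex.I * ζ v : ℂ).re =
        -(2 * Real.pi * b v * (ζ v).re * (ζ v).im) - 2 * Real.pi * (ζ v).im := by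
      rw [sq]
      simp [Complex.mul_re, Complex.mul_im]
      ring
    rw [e6]
    have e7 : (dG src tgt y ζ v).im = -(2 * Real.pi * (b v * (ζ v).re + 1)) := by linarith
    rw [e7]
    ring
  rw [sum_congr rfl fun v _ => (e4 v).symm]
  ring

end Pool.Agent.Work.MP_b30479_gtS.LT

end
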