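import Pool.Agent.Work.MP_b30479_gt.TBS.G2.ADat
import Pool.Agent.Work.MP_b30479_gt.TBS.G2.PnLim
import Pool.Agent.Work.MP_b30479_gt.TBS.TB.HW
import Pool.Agent.Work.MP_b30479_gt.TBS.VC.GaussND

section

/-!
# The state sum of a two-bridge link: values at lattice points
-/

namespace Pool.Agent.Work.MP_b30479_gtS.G2

open Finset VOL AX MeasureTheory
open Pool.Agent.Work.MP_b30479_gtS.LT
open DT (ee_ne ee_zero ee_neg ee_pow ee_int ee_half nn_ne)

/-! ### normalised factors -/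

/-- values of `SE` at half integers -/
lemma SE_val {n k : ℕ} (hn : 4 ≤ n) (hk : k < 2 * n) :
    SE n ((((k : ℝ) + 1 / 2) / n : ℝ) : ℂ) = ((fS n k : ℝ) : ℂ) / ((√(n : ℝ) : ℝ) : ℂ) := by
  have h0 : (0 : ℝ) < n := by
    have : 0 < n := by omega
    exact_mod_cast this
  have h1 : ((√(n : ℝ) : ℝ) : ℂ) ≠ 0 := by exact_mod_cast (Real.sqrt_pos.2 h0).ne'
  rw [eq_div_iff h1, mul_comm, ← SE_fS' hn hk]
  congr 2
  push_cast
  ring

/-- normalised factors -/
noncomputable def nF (n : ℕ) (f : Fac) (x : Fin 3 → ℂ) : ℂ :=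
  (((n : ℝ) ^ f.c : ℝ) : ℂ) * SE n (f.form x + (f.c / n : ℝ))

lemma npow_half {n : ℕ} : ((((n : ℝ) ^ (1 / 2 : ℝ) : ℝ)) : ℂ) = ((√(n : ℝ) : ℝ) : ℂ) := by
  rw [Real.sqrt_eq_rpow]

lemma npow_nhalf {n : ℕ} : ((((n : ℝ) ^ (-(1 / 2) : ℝ) : ℝ)) : ℂ) = 1 / ((√(n : ℝ) : ℝ) : ℂ) := by
  rw [Real.rpow_neg (Nat.cast_nonneg n), Real.sqrt_eq_rpow, Complex.ofReal_inv]
  exact (one_div _).symm

/-- factors `f(u)` -/
lemma nF_plus {n k : ℕ} (hn : 4 ≤ n) (hk : k < 2 * n) {f : Fac} (hc : f.c = 1 / 2)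
    {x : Fin 3 → ℂ} (h : f.form x = (k : ℂ) / n) : nF n f x = ((fS n k : ℝ) : ℂ) := by
  have h0 := sqrt_ne hn
  unfold nF
  rw [h, hc, npow_half]
  have e1 : (k : ℂ) / n + ((1 / 2 / n : ℝ) : ℂ) = ((((k : ℝ) + 1 / 2) / n : ℝ) : ℂ) := by
    push_cast
    ring
  rw [e1, SE_val hn hk]
  field_simp

/-- factors `1/f(u)` -/
lemma nF_inv {n k : ℕ} (hn : 4 ≤ n) (hk : k < n) {f : Fac} (hc : f.c = -(1 / 2))
    {x : Fin 3 → ℂ} (h : f.form x = 1 - (k : ℂ) / n) : nF n f x = ((1 / fS n k : ℝ) : ℂ) := by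
  have h0 := sqrt_ne hn
  have hn0 : (n : ℂ) ≠ 0 := by
    have : n ≠ 0 := by omega
    exact_mod_cast this
  have hn1 : (n : ℝ) ≠ 0 := by
    have : n ≠ 0 := by omega
    exact_mod_cast this
  unfold nF
  rw [h, hc, npow_nhalf]
  have e1 : 1 - (k : ℂ) / n + ((-(1 / 2) / n : ℝ) : ℂ) =
      (((((n - 1 - k : ℕ) : ℝ) + 1 / 2) / n : ℝ) : ℂ) := by
    rw [Nat.cast_sub (by omega), Nat.cast_sub (by omega)]
    push_cast
    field_simp
    ring
  rw [e1, SE_val hn (by omega)]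
  have h1 := fS_refl (n := n) (m := k) hk
  have h2 := (fS_pos (n := n) (m := k) hk).ne'
  have h3 : fS n (n - 1 - k) = n / fS n k := by
    rw [eq_div_iff h2, mul_comm]
    exact h1
  rw [h3]
  have h4 : ((√(n : ℝ) : ℝ) : ℂ) * ((√(n : ℝ) : ℝ) : ℂ) = n := by
    rw [← Complex.ofReal_mul, Real.mul_self_sqrt (Nat.cast_nonneg n)]
    simp
  have h5 : ((fS n k : ℝ) : ℂ) ≠ 0 := by exact_mod_cast h2
  push_cast
  rw [← h4]
  field_simp

/-- factors `1/f(m-u)` -/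
lemma nF_wall {n m u : ℕ} (hn : 4 ≤ n) (hm : m < n) (hu : u < n) {f : Fac} (hc : f.c = -(1 / 2))
    {x : Fin 3 → ℂ} (h : f.form x = 1 - (m : ℂ) / n + (u : ℂ) / n) :
    nF n f x = if u ≤ m then ((1 / fS n (m - u) : ℝ) : ℂ) else 0 := by
  split_ifs with hum
  · apply nF_inv hn (by omega) hc
    rw [h, Nat.cast_sub hum]
    ring
  · have hn0 : (n : ℂ) ≠ 0 := by
      have : n ≠ 0 := by omega
      exact_mod_cast this
    unfold nF
    rw [h, hc]
    have e1 : 1 - (m : ℂ) / n + (u : ℂ) / n + ((-(1 / 2) / n : ℝ) : ℂ) =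
        (((((n - 1 + (u - m) : ℕ) : ℝ) + 1 / 2) / n : ℝ) : ℂ) := by
      rw [Nat.cast_add, Nat.cast_sub (by omega), Nat.cast_sub (by omega)]
      push_cast
      field_simp
      ring
    rw [e1, SE_val hn (by omega), fS_zero_of_le (by omega) (by omega)]
    simp

/-- the product of the two ring factors -/
lemma nF_ring {n y : ℕ} (hn : 4 ≤ n) (hy : y < n) {ζ : ℂ} (hζ : |ζ.re| < 1 / 2) {f g : Fac}
    (hf : f.c = 0) (hg : g.c = 0) {x : Fin 3 → ℂ} (h : f.form x = (y : ℂ) / n + 1 / 2 + ζ)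
    (h' : g.form x = (y : ℂ) / n + 1 / 2 - ζ) : nF n f x * nF n g x = PP n y ζ := by
  rw [SE_PP hn hy.le hζ]
  unfold nF
  rw [h, h', hf, hg]
  simp

/-! ### the phases -/

/-- the sign -/
noncomputable def sg (b : ℤ) : ℂ := if 0 < b then 1 else -1

/-- the exponential of the quadratic polynomial at a lattice point -/
lemma phase (t : Typ) (b : ℤ) (s : ℕ) (y : Fin 3 → ℂ) {x : Fin 3 → ℂ}
    (hx : ∀ p, x p = y p / ((2 * s + 1 : ℕ) : ℂ)) :
    Complex.exp (((2 * s + 1 : ℕ) : ℂ) * lquad t b x + llin t b x) =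
      DT.ee s (sg b * ((∑ p, ∑ p', qq2 t p p' * y p * y p') / 4 + s * (∑ p, rr1 t p * y p) / 2)) := by
  have hn0 := nn_ne s
  have e1 : ∑ p, ∑ p', (qq2 t p p' : ℂ) * x p * x p' =
      (∑ p, ∑ p', qq2 t p p' * y p * y p') / ((2 * s + 1 : ℕ) : ℂ) ^ 2 := by
    rw [Finset.sum_div]
    refine Finset.sum_congr rfl fun p _ => ?_
    rw [Finset.sum_div]
    refine Finset.sum_congr rfl fun p' _ => ?_
    rw [hx, hx]
    field_simp
  have e2 : ∑ p, (rr1 t p : ℂ) * x p = (∑ p, rr1 t p * y p) / ((2 * s + 1 : ℕ) : ℂ) := by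
    rw [Finset.sum_div]
    refine Finset.sum_congr rfl fun p _ => ?_
    rw [hx]
    field_simp
  unfold lquad llin DT.ee
  rw [e1, e2]
  congr 1
  set A := ∑ p, ∑ p', (qq2 t p p' : ℂ) * y p * y p'
  set B := ∑ p, (rr1 t p : ℂ) * y p
  have e3 : un b = sg b * (Real.pi * Complex.I / 2) := rfl
  rw [e3]
  have e4 : ((2 * s + 1 : ℕ) : ℂ) = 2 * s + 1 := by push_cast; ring
  rw [e4] at hn0 ⊢
  field_simp
  ring

/-- the phase of the constant -/
noncomputable def cph : Typ → ℕ → ℂ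
  | .one, s => ((s : ℂ) ^ 2 + 2 * s) / 2
  | .two, s => -(s : ℂ) ^ 2
  | .threeL, s => -(s : ℂ) ^ 2 / 2
  | .threeR, s => -(s : ℂ) ^ 2 / 2
  | _, _ => 0

/-- the power of `n` in the constant -/
noncomputable def cba : Typ → ℕ → ℂ
  | .one, _ => 1
  | .ring, s => Complex.I * ((2 * s + 1 : ℕ) : ℂ) ^ 2 / 2
  | _, s => ((2 * s + 1 : ℕ) : ℂ)

/-- the constant of a twist region -/
noncomputable def Cn (t : Typ) (b : ℤ) (l r : Bool) (s : ℕ) : ℂ :=
  DT.ee s (sg b * cph t s) * cba t s *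
    ((facs t l r).map fun f => ((((2 * s + 1 : ℕ) : ℝ) ^ f.c : ℝ) : ℂ)).prod

lemma Cn_ne (t : Typ) (b : ℤ) (l r : Bool) (s : ℕ) : Cn t b l r s ≠ 0 := by
  have hn0 := nn_ne s
  unfold Cn
  refine mul_ne_zero (mul_ne_zero (ee_ne _ _) ?_) ?_
  · cases t <;> simp only [cba]
    all_goals first
      | exact one_ne_zero
      | exact hn0
      | exact div_ne_zero (mul_ne_zero Complex.I_ne_zero (pow_ne_zero _ hn0)) two_ne_zero
  · apply List.prod_ne_zero
    intro h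
    rw [List.mem_map] at h
    obtain ⟨f, _, hf⟩ := h
    have : (0 : ℝ) < ((2 * s + 1 : ℕ) : ℝ) ^ f.c := by positivity
    exact this.ne' (by exact_mod_cast hf)

lemma Cn_lG (t : Typ) (b : ℤ) (l r : Bool) (s : ℕ) (x : Fin 3 → ℂ) :
    Cn t b l r s * lG t b l r (2 * s + 1) x = DT.ee s (sg b * cph t s) * cba t s *
      Complex.exp (((2 * s + 1 : ℕ) : ℂ) * lquad t b x + llin t b x) *
      ((facs t l r).map fun f => nF (2 * s + 1) f x).prod := by
  unfold Cn lG nF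
  rw [List.prod_map_mul]
  ring

/-! ### the products of the factors -/

section
variable {s u v : ℕ} (hs : 2 ≤ s) (hu : u ≤ 2 * s) (hv : v ≤ 2 * s) {x : Fin 3 → ℂ}
  (h0 : x 0 = (u : ℂ) / ((2 * s + 1 : ℕ) : ℂ)) (h2 : x 2 = (v : ℂ) / ((2 * s + 1 : ℕ) : ℂ))

include hs hu hv h0 h2 in
lemma nf_uv : nF (2 * s + 1) ⟨![1, 0, 1], 0, 1 / 2⟩ x = ((fS (2 * s + 1) (u + v) : ℝ) : ℂ) := by
  refine nF_plus (by omega) (by omega) rfl ?_
  simp [Fac.form, Fin.sum_univ_three, h0, h2]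
  ring

include hs hu h0 in
lemma nf_u : nF (2 * s + 1) ⟨![-1, 0, 0], 1, -(1 / 2)⟩ x = ((1 / fS (2 * s + 1) u : ℝ) : ℂ) := by
  refine nF_inv (by omega) (by omega) rfl ?_
  simp [Fac.form, Fin.sum_univ_three, h0]
  ring

include hs hv h2 in
lemma nf_v : nF (2 * s + 1) ⟨![0, 0, -1], 1, -(1 / 2)⟩ x = ((1 / fS (2 * s + 1) v : ℝ) : ℂ) := by
  refine nF_inv (by omega) (by omega) rfl ?_
  simp [Fac.form, Fin.sum_univ_three, h2]
  ring

variable {m : ℕ} (hm : m ≤ 2 * s) (h1 : x 1 = (m : ℂ) / ((2 * s + 1 : ℕ) : ℂ))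

include hs hm hv h1 h2 in
lemma nf_mv : nF (2 * s + 1) ⟨![0, 1, 1], 0, 1 / 2⟩ x = ((fS (2 * s + 1) (m + v) : ℝ) : ℂ) := by
  refine nF_plus (by omega) (by omega) rfl ?_
  simp [Fac.form, Fin.sum_univ_three, h1, h2]
  ring

include hs hm hu h1 h0 in
lemma nf_um : nF (2 * s + 1) ⟨![1, 1, 0], 0, 1 / 2⟩ x = ((fS (2 * s + 1) (u + m) : ℝ) : ℂ) := by
  refine nF_plus (by omega) (by omega) rfl ?_
  simp [Fac.form, Fin.sum_univ_three, h1, h0]
  ring

include hs hm h1 in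
lemma nf_m : nF (2 * s + 1) ⟨![0, -1, 0], 1, -(1 / 2)⟩ x = ((1 / fS (2 * s + 1) m : ℝ) : ℂ) := by
  refine nF_inv (by omega) (by omega) rfl ?_
  simp [Fac.form, Fin.sum_univ_three, h1]
  ring

include hs hm hu h1 h0 in
lemma nf_wu : nF (2 * s + 1) ⟨![1, -1, 0], 1, -(1 / 2)⟩ x =
    if u ≤ m then ((1 / fS (2 * s + 1) (m - u) : ℝ) : ℂ) else 0 := by
  refine nF_wall (by omega) (by omega) (by omega) rfl ?_
  simp [Fac.form, Fin.sum_univ_three, h1, h0]
  ring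

include hs hm hv h1 h2 in
lemma nf_wv : nF (2 * s + 1) ⟨![0, -1, 1], 1, -(1 / 2)⟩ x =
    if v ≤ m then ((1 / fS (2 * s + 1) (m - v) : ℝ) : ℂ) else 0 := by
  refine nF_wall (by omega) (by omega) (by omega) rfl ?_
  simp [Fac.form, Fin.sum_univ_three, h1, h2]
  ring

end

/-! ### signs -/

lemma KR_sign_sum {b : ℤ} {k : ℕ} (hk : 0 < k) (hb : b.natAbs = k) {s u v : ℕ} {ι : Type}
    {S : Finset ι} {R : ι → ℝ} {θ : ι → ℝ}
    (h : KR s (k : ℤ) u v = ∑ m ∈ S, (R m : ℂ) * DT.ee s (θ m)) :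
    KR s b u v = ∑ m ∈ S, (R m : ℂ) * DT.ee s (sg b * θ m) := by
  rcases Int.natAbs_eq b with h1 | h1
  · have hb' : b = (k : ℤ) := by omega
    have : sg b = 1 := by
      unfold sg
      rw [if_pos (by omega)]
    rw [this, hb', h]
    simp only [one_mul]
  · have hb' : b = -(k : ℤ) := by omega
    have : sg b = -1 := by
      unfold sg
      rw [if_neg (by omega)]
    rw [this, hb', KR_neg (by omega), h, map_sum]
    refine Finset.sum_congr rfl fun m _ => ?_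
    rw [map_mul, Complex.conj_ofReal, ee_conj, Complex.conj_ofReal, neg_one_mul]

lemma KR_sign {b : ℤ} {k : ℕ} (hk : 0 < k) (hb : b.natAbs = k) {s u v : ℕ} {R : ℝ} {θ : ℝ}
    (h : KR s (k : ℤ) u v = (R : ℂ) * DT.ee s θ) : KR s b u v = (R : ℂ) * DT.ee s (sg b * θ) := by
  have := KR_sign_sum hk hb (S := {0}) (R := fun _ : ℕ => R) (θ := fun _ => θ) (by simpa using h)
  simpa using this

/-! ### the twist regions -/

section
variable {s u v : ℕ} (hs : 2 ≤ s) (hu : u ≤ 2 * s) (hv : v ≤ 2 * s) {l r : Bool}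
  (hl : l = false → u = 0) (hr : r = false → v = 0)

lemma fSr_ne {s m : ℕ} (hm : m ≤ 2 * s) : fS (2 * s + 1) m ≠ 0 :=
  (fS_pos (n := 2 * s + 1) (m := m) (by omega)).ne'

include hs hu hv hl hr in
theorem run_one {b : ℤ} (hb : b.natAbs = 1) (c : ℂ) : KR s b u v = Cn .one b l r s *
    lG .one b l r (2 * s + 1) ![(u : ℂ) / ((2 * s + 1 : ℕ) : ℂ), c,
      (v : ℂ) / ((2 * s + 1 : ℕ) : ℂ)] := by
  have hn0 := nn_ne s
  set x : Fin 3 → ℂ := ![(u : ℂ) / ((2 * s + 1 : ℕ) : ℂ), c, (v : ℂ) / ((2 * s + 1 : ℕ) : ℂ)] with hx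
  have h1 : KR s ((1 : ℕ) : ℤ) u v =
      ((fS (2 * s + 1) (u + v) / (fS (2 * s + 1) u * fS (2 * s + 1) v) : ℝ) : ℂ) *
      DT.ee s ((((s : ℝ) ^ 2 + 2 * s) / 2 + s * (u + v) - u * v / 2 : ℝ) : ℂ) := by
    rw [Nat.cast_one, KR_one hu hv, k1]
    congr 2
    push_cast
    ring
  rw [KR_sign one_pos hb h1, Cn_lG, phase .one b s ![(u : ℂ), c * ((2 * s + 1 : ℕ) : ℂ), v]
    (fun p => by
      fin_cases p
      · rfl
      · exact (mul_div_cancel_right₀ _ hn0).symm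
      · rfl)]
  have hp : ((facs .one l r).map fun f => nF (2 * s + 1) f x).prod =
      ((fS (2 * s + 1) (u + v) / (fS (2 * s + 1) u * fS (2 * s + 1) v) : ℝ) : ℂ) := by
    have p1 := nf_uv hs hu hv (x := x) rfl rfl
    have p2 := nf_u hs hu (x := x) rfl
    have p3 := nf_v hs hv (x := x) rfl
    have q1 := fSc_ne hu
    have q2 := fSc_ne hv
    have q3 : fS (2 * s + 1) 0 = 1 := by simp [fS]
    cases l <;> cases r
    · have e1 := hl rfl
      have e2 := hr rfl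
      subst e1 e2
      simp [facs, q3]
    · have e1 := hl rfl
      subst e1
      simp only [facs, Bool.or_true, if_true, Bool.false_eq_true, if_false, List.append_nil,
        List.cons_append, List.nil_append, List.map_cons, List.map_nil, List.prod_cons,
        List.prod_nil, p1, p3, q3]
      push_cast
      field_simp
    · have e2 := hr rfl
      subst e2
      simp only [facs, Bool.or_false, if_true, Bool.false_eq_true, if_false, List.append_nil,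
        List.cons_append, List.nil_append, List.map_cons, List.map_nil, List.prod_cons,
        List.prod_nil, p1, p2, q3]
      push_cast
      field_simp
    · simp only [facs, Bool.or_true, if_true,
        List.cons_append, List.nil_append, List.map_cons, List.map_nil, List.prod_cons,
        List.prod_nil, p1, p2, p3]
      push_cast
      field_simp
  rw [hp]
  have e1 : DT.ee s (sg b * cph .one s) * DT.ee s (sg b * ((∑ p, ∑ p', (qq2 .one p p' : ℂ) *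
      (![(u : ℂ), c * ((2 * s + 1 : ℕ) : ℂ), v] : Fin 3 → ℂ) p *
      (![(u : ℂ), c * ((2 * s + 1 : ℕ) : ℂ), v] : Fin 3 → ℂ) p') / 4 + s * (∑ p, (rr1 .one p : ℂ) *
      (![(u : ℂ), c * ((2 * s + 1 : ℕ) : ℂ), v] : Fin 3 → ℂ) p) / 2)) =
      DT.ee s (sg b * ((((s : ℝ) ^ 2 + 2 * s) / 2 + s * (u + v) - u * v / 2 : ℝ) : ℂ)) := by
    rw [← DT.ee_add, ← mul_add]
    congr 2
    simp [Fin.sum_univ_three, qq2, rr1, cph]
    ring
  rw [← e1]
  simp only [cba]
  ring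


include hs hu hl in
lemma hL_prod {x : Fin 3 → ℂ} (h0 : x 0 = (u : ℂ) / ((2 * s + 1 : ℕ) : ℂ)) :
    ((hL l).map fun f => nF (2 * s + 1) f x).prod = ((1 / fS (2 * s + 1) u ^ 2 : ℝ) : ℂ) := by
  have p2 := nf_u hs hu h0
  have q3 : fS (2 * s + 1) 0 = 1 := by simp [fS]
  cases l
  · have e1 := hl rfl
    subst e1
    simp [hL, q3]
  · simp only [hL, if_true, List.map_cons, List.map_nil, List.prod_cons, List.prod_nil, p2, mul_one]
    push_cast
    ring

include hs hv hr in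
lemma hR_prod {x : Fin 3 → ℂ} (h2 : x 2 = (v : ℂ) / ((2 * s + 1 : ℕ) : ℂ)) :
    ((hR r).map fun f => nF (2 * s + 1) f x).prod = ((1 / fS (2 * s + 1) v ^ 2 : ℝ) : ℂ) := by
  have p2 := nf_v hs hv h2
  have q3 : fS (2 * s + 1) 0 = 1 := by simp [fS]
  cases r
  · have e1 := hr rfl
    subst e1
    simp [hR, q3]
  · simp only [hR, if_true, List.map_cons, List.map_nil, List.prod_cons, List.prod_nil, p2, mul_one]
    push_cast
    ring

include hs hu hl in
lemma hL_prod1 {x : Fin 3 → ℂ} (h0 : x 0 = (u : ℂ) / ((2 * s + 1 : ℕ) : ℂ)) :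
    ((if l then [(⟨![-1, 0, 0], 1, -(1 / 2)⟩ : Fac)] else []).map fun f =>
      nF (2 * s + 1) f x).prod = ((1 / fS (2 * s + 1) u : ℝ) : ℂ) := by
  have p2 := nf_u hs hu h0
  have q3 : fS (2 * s + 1) 0 = 1 := by simp [fS]
  cases l
  · have e1 := hl rfl
    subst e1
    simp [q3]
  · simp only [if_true, List.map_cons, List.map_nil, List.prod_cons, List.prod_nil, p2, mul_one]

include hs hv hr in
lemma hR_prod1 {x : Fin 3 → ℂ} (h2 : x 2 = (v : ℂ) / ((2 * s + 1 : ℕ) : ℂ)) :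
    ((if r then [(⟨![0, 0, -1], 1, -(1 / 2)⟩ : Fac)] else []).map fun f =>
      nF (2 * s + 1) f x).prod = ((1 / fS (2 * s + 1) v : ℝ) : ℂ) := by
  have p2 := nf_v hs hv h2
  have q3 : fS (2 * s + 1) 0 = 1 := by simp [fS]
  cases r
  · have e1 := hr rfl
    subst e1
    simp [q3]
  · simp only [if_true, List.map_cons, List.map_nil, List.prod_cons, List.prod_nil, p2, mul_one]

include hs hu hv hl hr in
lemma uv_prod {x : Fin 3 → ℂ} (h0 : x 0 = (u : ℂ) / ((2 * s + 1 : ℕ) : ℂ))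
    (h2 : x 2 = (v : ℂ) / ((2 * s + 1 : ℕ) : ℂ)) :
    ((if l || r then [(⟨![1, 0, 1], 0, 1 / 2⟩ : Fac)] else []).map fun f =>
      nF (2 * s + 1) f x).prod = ((fS (2 * s + 1) (u + v) : ℝ) : ℂ) := by
  have p1 := nf_uv hs hu hv h0 h2
  have q3 : fS (2 * s + 1) 0 = 1 := by simp [fS]
  cases l <;> cases r
  · have e1 := hl rfl
    have e2 := hr rfl
    subst e1 e2
    simp [q3]
  all_goals
    simp only [Bool.or_true, Bool.true_or, Bool.or_self, if_true, List.map_cons, List.map_nil,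
      List.prod_cons, List.prod_nil, p1, mul_one]

include hs hu hv hl hr in
theorem run_two {b : ℤ} (hb : b.natAbs = 2) (c : ℂ) : KR s b u v = Cn .two b l r s *
    lG .two b l r (2 * s + 1) ![(u : ℂ) / ((2 * s + 1 : ℕ) : ℂ), c,
      (v : ℂ) / ((2 * s + 1 : ℕ) : ℂ)] := by
  have hn0 := nn_ne s
  set x : Fin 3 → ℂ := ![(u : ℂ) / ((2 * s + 1 : ℕ) : ℂ), c, (v : ℂ) / ((2 * s + 1 : ℕ) : ℂ)] with hx
  have h1 : KR s ((2 : ℕ) : ℤ) u v =
      ((((2 * s + 1 : ℕ) : ℝ) * fS (2 * s + 1) (u + v) /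
        (fS (2 * s + 1) u ^ 2 * fS (2 * s + 1) v ^ 2) : ℝ) : ℂ) *
      DT.ee s ((-(s : ℝ) ^ 2 + s * (u + v) / 2 + ((u : ℝ) - v) ^ 2 / 4 : ℝ) : ℂ) := by
    rw [Nat.cast_ofNat, KR_two hu hv, k2]
    congr 2
    push_cast
    ring
  rw [KR_sign two_pos hb h1, Cn_lG, phase .two b s ![(u : ℂ), c * ((2 * s + 1 : ℕ) : ℂ), v]
    (fun p => by
      fin_cases p
      · rfl
      · exact (mul_div_cancel_right₀ _ hn0).symm
      · rfl)]
  have hp : ((facs .two l r).map fun f => nF (2 * s + 1) f x).prod =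
      ((fS (2 * s + 1) (u + v) / (fS (2 * s + 1) u ^ 2 * fS (2 * s + 1) v ^ 2) : ℝ) : ℂ) := by
    rw [facs, List.map_append, List.map_append, List.prod_append, List.prod_append,
      uv_prod hs hu hv hl hr rfl rfl, hL_prod hs hu hl rfl, hR_prod hs hv hr rfl]
    push_cast
    ring
  rw [hp]
  have e1 : DT.ee s (sg b * cph .two s) * DT.ee s (sg b * ((∑ p, ∑ p', (qq2 .two p p' : ℂ) *
      (![(u : ℂ), c * ((2 * s + 1 : ℕ) : ℂ), v] : Fin 3 → ℂ) p *
      (![(u : ℂ), c * ((2 * s + 1 : ℕ) : ℂ), v] : Fin 3 → ℂ) p') / 4 + s * (∑ p, (rr1 .two p : ℂ) *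
      (![(u : ℂ), c * ((2 * s + 1 : ℕ) : ℂ), v] : Fin 3 → ℂ) p) / 2)) =
      DT.ee s (sg b * ((-(s : ℝ) ^ 2 + s * (u + v) / 2 + ((u : ℝ) - v) ^ 2 / 4 : ℝ) : ℂ)) := by
    rw [← DT.ee_add, ← mul_add]
    congr 2
    simp [Fin.sum_univ_three, qq2, rr1, cph]
    ring
  rw [← e1]
  simp only [cba]
  push_cast
  ring

/-- the common part of the proofs for three and four crossings -/
lemma mid_aux {t : Typ} {b : ℤ} {k : ℕ} (hk : 0 < k) (hb : b.natAbs = k)
    {R Q : Fin (2 * s + 1) → ℝ} {θ : Fin (2 * s + 1) → ℝ}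
    (h : KR s (k : ℤ) u v = ∑ m : Fin (2 * s + 1), (R m : ℂ) * DT.ee s (θ m))
    (hQ : ∀ m : Fin (2 * s + 1), ((facs t l r).map fun f => nF (2 * s + 1) f
      ![(u : ℂ) / ((2 * s + 1 : ℕ) : ℂ), ((m : ℕ) : ℂ) / ((2 * s + 1 : ℕ) : ℂ),
      (v : ℂ) / ((2 * s + 1 : ℕ) : ℂ)]).prod = (Q m : ℂ))
    (hRQ : ∀ m, R m = ((2 * s + 1 : ℕ) : ℝ) * Q m) (hc : cba t s = ((2 * s + 1 : ℕ) : ℂ))
    (hθ : ∀ m : Fin (2 * s + 1), ∃ N : ℤ, (θ m : ℂ) = cph t s + ((∑ p, ∑ p', (qq2 t p p' : ℂ) *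
      (![(u : ℂ), (m : ℕ), v] : Fin 3 → ℂ) p * (![(u : ℂ), (m : ℕ), v] : Fin 3 → ℂ) p') / 4 +
      s * (∑ p, (rr1 t p : ℂ) * (![(u : ℂ), (m : ℕ), v] : Fin 3 → ℂ) p) / 2) +
      N * ((2 * s + 1 : ℕ) : ℂ)) :
    KR s b u v = ∑ m : Fin (2 * s + 1), Cn t b l r s *
      lG t b l r (2 * s + 1) ![(u : ℂ) / ((2 * s + 1 : ℕ) : ℂ), ((m : ℕ) : ℂ) /
        ((2 * s + 1 : ℕ) : ℂ), (v : ℂ) / ((2 * s + 1 : ℕ) : ℂ)] := by
  rw [KR_sign_sum hk hb h]
  refine Finset.sum_congr rfl fun m _ => ?_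
  rw [Cn_lG, phase t b s ![(u : ℂ), (m : ℕ), v] (fun p => by fin_cases p <;> rfl), hQ, hRQ, hc]
  obtain ⟨N, hN⟩ := hθ m
  have hsg : ∃ e : ℤ, sg b = e := by
    unfold sg
    split_ifs
    · exact ⟨1, by simp⟩
    · exact ⟨-1, by simp⟩
  obtain ⟨e, he⟩ := hsg
  have e1 : DT.ee s (sg b * (θ m : ℂ)) = DT.ee s (sg b * cph t s) * DT.ee s (sg b *
      ((∑ p, ∑ p', (qq2 t p p' : ℂ) * (![(u : ℂ), (m : ℕ), v] : Fin 3 → ℂ) p *
      (![(u : ℂ), (m : ℕ), v] : Fin 3 → ℂ) p') / 4 +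
      s * (∑ p, (rr1 t p : ℂ) * (![(u : ℂ), (m : ℕ), v] : Fin 3 → ℂ) p) / 2)) := by
    rw [hN, mul_add, mul_add, DT.ee_add, DT.ee_add]
    have : DT.ee s (sg b * (N * ((2 * s + 1 : ℕ) : ℂ))) = 1 := by
      rw [he, ← mul_assoc, ← Int.cast_mul, ee_int]
    rw [this, mul_one]
  rw [e1]
  push_cast
  ring


include hs hu hv hl hr in
theorem run_threeL {b : ℤ} (hb : b.natAbs = 3) : KR s b u v = ∑ m : Fin (2 * s + 1),
    Cn .threeL b l r s * lG .threeL b l r (2 * s + 1) ![(u : ℂ) / ((2 * s + 1 : ℕ) : ℂ),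
      ((m : ℕ) : ℂ) / ((2 * s + 1 : ℕ) : ℂ), (v : ℂ) / ((2 * s + 1 : ℕ) : ℂ)] := by
  have hn0 := nn_ne s
  set x : Fin (2 * s + 1) → Fin 3 → ℂ := fun m => ![(u : ℂ) / ((2 * s + 1 : ℕ) : ℂ),
      ((m : ℕ) : ℂ) / ((2 * s + 1 : ℕ) : ℂ), (v : ℂ) / ((2 * s + 1 : ℕ) : ℂ)] with hx
  have hw := fSr_ne hu
  have hw' := fSr_ne hv
  refine mid_aux (k := 3) (by norm_num) hb (Q := fun m => if u ≤ (m : ℕ) then fS (2 * s + 1) (m + v) /
      (fS (2 * s + 1) m * fS (2 * s + 1) (m - u) * fS (2 * s + 1) u * fS (2 * s + 1) v ^ 2) else 0)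
    (R := fun m => ((2 * s + 1 : ℕ) : ℝ) * (if u ≤ (m : ℕ) then fS (2 * s + 1) (m + v) /
      (fS (2 * s + 1) m * fS (2 * s + 1) (m - u) * fS (2 * s + 1) u * fS (2 * s + 1) v ^ 2) else 0))
    (θ := fun m => ((s : ℝ) ^ 2 / 2 - ((2 * s + 1 : ℕ) : ℝ) * m / 2 + m * (1 + u) / 2) +
      (-(s : ℝ) ^ 2 + s * (m + v) / 2 + ((m : ℝ) - v) ^ 2 / 4)) ?_ ?_ (fun m => rfl) rfl ?_
  · rw [Nat.cast_ofNat, KR_three' hu hv]
    refine Finset.sum_congr rfl fun m _ => ?_
    have hmm : (m : ℕ) ≤ 2 * s := by omega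
    have hm0 := fSr_ne hmm
    rw [a1, k2]
    split_ifs with h
    · have hm1 := fSr_ne (s := s) (m := m - u) (by omega)
      have e7 : ∀ (A C E : ℝ) (B D F : ℂ), A * C = E → B * D = F →
          ((A : ℂ) * B) * ((C : ℂ) * D) = (E : ℂ) * F := by
        intro A C E B D F h1 h2
        rw [← h1, ← h2]
        push_cast
        ring
      refine e7 _ _ _ _ _ _ ?_ ?_
      · field_simp
      · rw [← DT.ee_add]
        congr 1
        push_cast
        ring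
    · simp
  · intro m
    have hmm : (m : ℕ) ≤ 2 * s := by omega
    have p1 := nf_mv hs hv (x := x m) rfl hmm rfl
    have p2 := nf_wu hs hu (x := x m) rfl hmm rfl
    have p3 := nf_m hs hmm (x := x m) rfl
    show ((facs .threeL l r).map fun f => nF (2 * s + 1) f (x m)).prod = _
    rw [facs, List.map_append, List.map_append, List.prod_append, List.prod_append,
      hL_prod1 hs hu hl (x := x m) rfl, hR_prod hs hv hr (x := x m) rfl]
    simp only [List.map_cons, List.map_nil, List.prod_cons, List.prod_nil, p1, p2, p3, mul_one]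
    split_ifs with h
    · push_cast
      ring
    · simp
  · intro m
    refine ⟨0, ?_⟩
    simp [Fin.sum_univ_three, qq2, rr1, cph]
    ring

include hs hu hv hl hr in
theorem run_threeR {b : ℤ} (hb : b.natAbs = 3) : KR s b u v = ∑ m : Fin (2 * s + 1),
    Cn .threeR b l r s * lG .threeR b l r (2 * s + 1) ![(u : ℂ) / ((2 * s + 1 : ℕ) : ℂ),
      ((m : ℕ) : ℂ) / ((2 * s + 1 : ℕ) : ℂ), (v : ℂ) / ((2 * s + 1 : ℕ) : ℂ)] := by
  have hn0 := nn_ne s
  set x : Fin (2 * s + 1) → Fin 3 → ℂ := fun m => ![(u : ℂ) / ((2 * s + 1 : ℕ) : ℂ),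
      ((m : ℕ) : ℂ) / ((2 * s + 1 : ℕ) : ℂ), (v : ℂ) / ((2 * s + 1 : ℕ) : ℂ)] with hx
  have hw := fSr_ne hu
  have hw' := fSr_ne hv
  refine mid_aux (k := 3) (by norm_num) hb (Q := fun m => if v ≤ (m : ℕ) then fS (2 * s + 1) (u + m) /
      (fS (2 * s + 1) m * fS (2 * s + 1) (m - v) * fS (2 * s + 1) v * fS (2 * s + 1) u ^ 2) else 0)
    (R := fun m => ((2 * s + 1 : ℕ) : ℝ) * (if v ≤ (m : ℕ) then fS (2 * s + 1) (u + m) /
      (fS (2 * s + 1) m * fS (2 * s + 1) (m - v) * fS (2 * s + 1) v * fS (2 * s + 1) u ^ 2) else 0))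
    (θ := fun m => (-(s : ℝ) ^ 2 + s * (u + m) / 2 + ((u : ℝ) - m) ^ 2 / 4) +
      ((s : ℝ) ^ 2 / 2 - ((2 * s + 1 : ℕ) : ℝ) * m / 2 + m * (1 + v) / 2)) ?_ ?_ (fun m => rfl) rfl ?_
  · rw [Nat.cast_ofNat, KR_three hu hv]
    refine Finset.sum_congr rfl fun m _ => ?_
    have hmm : (m : ℕ) ≤ 2 * s := by omega
    have hm0 := fSr_ne hmm
    rw [k2, a1]
    split_ifs with h
    · have hm1 := fSr_ne (s := s) (m := m - v) (by omega)
      have e7 : ∀ (A C E : ℝ) (B D F : ℂ), A * C = E → B * D = F →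
          ((A : ℂ) * B) * ((C : ℂ) * D) = (E : ℂ) * F := by
        intro A C E B D F h1 h2
        rw [← h1, ← h2]
        push_cast
        ring
      refine e7 _ _ _ _ _ _ ?_ ?_
      · field_simp
      · rw [← DT.ee_add]
        congr 1
        push_cast
        ring
    · simp
  · intro m
    have hmm : (m : ℕ) ≤ 2 * s := by omega
    have p1 := nf_um hs hu (x := x m) rfl hmm rfl
    have p2 := nf_wv hs hv (x := x m) rfl hmm rfl
    have p3 := nf_m hs hmm (x := x m) rfl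
    show ((facs .threeR l r).map fun f => nF (2 * s + 1) f (x m)).prod = _
    rw [facs, List.map_append, List.map_append, List.prod_append, List.prod_append,
      hL_prod hs hu hl (x := x m) rfl, hR_prod1 hs hv hr (x := x m) rfl]
    simp only [List.map_cons, List.map_nil, List.prod_cons, List.prod_nil, p1, p2, p3, mul_one]
    split_ifs with h
    · push_cast
      ring
    · simp
  · intro m
    refine ⟨0, ?_⟩
    simp [Fin.sum_univ_three, qq2, rr1, cph]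
    ring

include hs hu hv hl hr in
theorem run_fourL {b : ℤ} (hb : b.natAbs = 4) : KR s b u v = ∑ m : Fin (2 * s + 1),
    Cn .fourL b l r s * lG .fourL b l r (2 * s + 1) ![(u : ℂ) / ((2 * s + 1 : ℕ) : ℂ),
      ((m : ℕ) : ℂ) / ((2 * s + 1 : ℕ) : ℂ), (v : ℂ) / ((2 * s + 1 : ℕ) : ℂ)] := by
  have hn0 := nn_ne s
  set x : Fin (2 * s + 1) → Fin 3 → ℂ := fun m => ![(u : ℂ) / ((2 * s + 1 : ℕ) : ℂ),
      ((m : ℕ) : ℂ) / ((2 * s + 1 : ℕ) : ℂ), (v : ℂ) / ((2 * s + 1 : ℕ) : ℂ)] with hx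
  have hw := fSr_ne hu
  have hw' := fSr_ne hv
  refine mid_aux (k := 4) (by norm_num) hb (Q := fun m => if u ≤ (m : ℕ) then fS (2 * s + 1) (m + v) /
      (fS (2 * s + 1) (m - u) * fS (2 * s + 1) u ^ 2 * fS (2 * s + 1) v ^ 2) else 0)
    (R := fun m => ((2 * s + 1 : ℕ) : ℝ) * (if u ≤ (m : ℕ) then fS (2 * s + 1) (m + v) /
      (fS (2 * s + 1) (m - u) * fS (2 * s + 1) u ^ 2 * fS (2 * s + 1) v ^ 2) else 0))
    (θ := fun m => (3 * (s : ℝ) ^ 2 + s - s * u / 2 - 3 * s * m / 2 + ((u : ℝ) + m) ^ 2 / 4) +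
      (-(s : ℝ) ^ 2 + s * (m + v) / 2 + ((m : ℝ) - v) ^ 2 / 4)) ?_ ?_ (fun m => rfl) rfl ?_
  · rw [Nat.cast_ofNat, KR_four' hu hv]
    refine Finset.sum_congr rfl fun m _ => ?_
    have hmm : (m : ℕ) ≤ 2 * s := by omega
    have hm0 := fSr_ne hmm
    rw [a2, k2]
    split_ifs with h
    · have hm1 := fSr_ne (s := s) (m := m - u) (by omega)
      have e7 : ∀ (A C E : ℝ) (B D F : ℂ), A * C = E → B * D = F →
          ((A : ℂ) * B) * ((C : ℂ) * D) = (E : ℂ) * F := by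
        intro A C E B D F h1 h2
        rw [← h1, ← h2]
        push_cast
        ring
      refine e7 _ _ _ _ _ _ ?_ ?_
      · field_simp
      · rw [← DT.ee_add]
        congr 1
        push_cast
        ring
    · simp
  · intro m
    have hmm : (m : ℕ) ≤ 2 * s := by omega
    have p1 := nf_mv hs hv (x := x m) rfl hmm rfl
    have p2 := nf_wu hs hu (x := x m) rfl hmm rfl
    have p3 := nf_m hs hmm (x := x m) rfl
    show ((facs .fourL l r).map fun f => nF (2 * s + 1) f (x m)).prod = _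
    rw [facs, List.map_append, List.map_append, List.prod_append, List.prod_append,
      hL_prod hs hu hl (x := x m) rfl, hR_prod hs hv hr (x := x m) rfl]
    simp only [List.map_cons, List.map_nil, List.prod_cons, List.prod_nil, p1, p2, mul_one]
    split_ifs with h
    · push_cast
      ring
    · simp
  · intro m
    refine ⟨(s : ℤ), ?_⟩
    simp [Fin.sum_univ_three, qq2, rr1, cph]
    ring

include hs hu hv hl hr in
theorem run_fourR {b : ℤ} (hb : b.natAbs = 4) : KR s b u v = ∑ m : Fin (2 * s + 1),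
    Cn .fourR b l r s * lG .fourR b l r (2 * s + 1) ![(u : ℂ) / ((2 * s + 1 : ℕ) : ℂ),
      ((m : ℕ) : ℂ) / ((2 * s + 1 : ℕ) : ℂ), (v : ℂ) / ((2 * s + 1 : ℕ) : ℂ)] := by
  have hn0 := nn_ne s
  set x : Fin (2 * s + 1) → Fin 3 → ℂ := fun m => ![(u : ℂ) / ((2 * s + 1 : ℕ) : ℂ),
      ((m : ℕ) : ℂ) / ((2 * s + 1 : ℕ) : ℂ), (v : ℂ) / ((2 * s + 1 : ℕ) : ℂ)] with hx
  have hw := fSr_ne hu
  have hw' := fSr_ne hv
  refine mid_aux (k := 4) (by norm_num) hb (Q := fun m => if v ≤ (m : ℕ) then fS (2 * s + 1) (u + m) /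
      (fS (2 * s + 1) (m - v) * fS (2 * s + 1) v ^ 2 * fS (2 * s + 1) u ^ 2) else 0)
    (R := fun m => ((2 * s + 1 : ℕ) : ℝ) * (if v ≤ (m : ℕ) then fS (2 * s + 1) (u + m) /
      (fS (2 * s + 1) (m - v) * fS (2 * s + 1) v ^ 2 * fS (2 * s + 1) u ^ 2) else 0))
    (θ := fun m => (-(s : ℝ) ^ 2 + s * (u + m) / 2 + ((u : ℝ) - m) ^ 2 / 4) +
      (3 * (s : ℝ) ^ 2 + s - s * v / 2 - 3 * s * m / 2 + ((v : ℝ) + m) ^ 2 / 4)) ?_ ?_ (fun m => rfl) rfl ?_
  · rw [Nat.cast_ofNat, KR_four hu hv]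
    refine Finset.sum_congr rfl fun m _ => ?_
    have hmm : (m : ℕ) ≤ 2 * s := by omega
    have hm0 := fSr_ne hmm
    rw [k2, a2]
    split_ifs with h
    · have hm1 := fSr_ne (s := s) (m := m - v) (by omega)
      have e7 : ∀ (A C E : ℝ) (B D F : ℂ), A * C = E → B * D = F →
          ((A : ℂ) * B) * ((C : ℂ) * D) = (E : ℂ) * F := by
        intro A C E B D F h1 h2
        rw [← h1, ← h2]
        push_cast
        ring
      refine e7 _ _ _ _ _ _ ?_ ?_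
      · field_simp
      · rw [← DT.ee_add]
        congr 1
        push_cast
        ring
    · simp
  · intro m
    have hmm : (m : ℕ) ≤ 2 * s := by omega
    have p1 := nf_um hs hu (x := x m) rfl hmm rfl
    have p2 := nf_wv hs hv (x := x m) rfl hmm rfl
    have p3 := nf_m hs hmm (x := x m) rfl
    show ((facs .fourR l r).map fun f => nF (2 * s + 1) f (x m)).prod = _
    rw [facs, List.map_append, List.map_append, List.prod_append, List.prod_append,
      hL_prod hs hu hl (x := x m) rfl, hR_prod hs hv hr (x := x m) rfl]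
    simp only [List.map_cons, List.map_nil, List.prod_cons, List.prod_nil, p1, p2, mul_one]
    split_ifs with h
    · push_cast
      ring
    · simp
  · intro m
    refine ⟨(s : ℤ), ?_⟩
    simp [Fin.sum_univ_three, qq2, rr1, cph]
    ring

include hs hu hl in
lemma ringL_prod {x : Fin 3 → ℂ} (h0 : x 0 = (u : ℂ) / ((2 * s + 1 : ℕ) : ℂ))
    (h1 : |(x 1).re| < 1 / 2) :
    ((if l then [(⟨![1, 1, 0], 1 / 2, 0⟩ : Fac), ⟨![1, -1, 0], 1 / 2, 0⟩] else []).map fun f =>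
      nF (2 * s + 1) f x).prod = PP (2 * s + 1) u (x 1) := by
  cases l
  · have e1 := hl rfl
    subst e1
    simp [PP]
  · simp only [if_true, List.map_cons, List.map_nil, List.prod_cons, List.prod_nil, mul_one]
    refine nF_ring (by omega) (by omega) h1 rfl rfl ?_ ?_
    · simp [Fac.form, Fin.sum_univ_three, h0]
      ring
    · simp [Fac.form, Fin.sum_univ_three, h0]
      ring

include hs hv hr in
lemma ringR_prod {x : Fin 3 → ℂ} (h2 : x 2 = (v : ℂ) / ((2 * s + 1 : ℕ) : ℂ))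
    (h1 : |(x 1).re| < 1 / 2) :
    ((if r then [(⟨![0, 1, 1], 1 / 2, 0⟩ : Fac), ⟨![0, -1, 1], 1 / 2, 0⟩] else []).map fun f =>
      nF (2 * s + 1) f x).prod = PP (2 * s + 1) v (x 1) := by
  cases r
  · have e1 := hr rfl
    subst e1
    simp [PP]
  · simp only [if_true, List.map_cons, List.map_nil, List.prod_cons, List.prod_nil, mul_one]
    refine nF_ring (by omega) (by omega) h1 rfl rfl ?_ ?_
    · simp [Fac.form, Fin.sum_univ_three, h2]
      ring
    · simp [Fac.form, Fin.sum_univ_three, h2]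
      ring

include hs hu hv hl hr in
lemma ring_lG (b : ℤ) {ζ : ℂ} (hζ : |ζ.re| < 1 / 2) : Cn .ring b l r s *
    lG .ring b l r (2 * s + 1) ![(u : ℂ) / ((2 * s + 1 : ℕ) : ℂ), ζ,
      (v : ℂ) / ((2 * s + 1 : ℕ) : ℂ)] = (Complex.I * ((2 * s + 1 : ℕ) : ℂ) ^ 2 / 2) *
      ((1 / (fS (2 * s + 1) u ^ 2 * fS (2 * s + 1) v ^ 2) : ℝ) : ℂ) *
      (PP (2 * s + 1) u ζ * PP (2 * s + 1) v ζ) := by
  set x : Fin 3 → ℂ := ![(u : ℂ) / ((2 * s + 1 : ℕ) : ℂ), ζ, (v : ℂ) / ((2 * s + 1 : ℕ) : ℂ)] with hx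
  have e0 : lquad .ring b x = 0 := by
    simp [lquad, Fin.sum_univ_three, qq2, rr1]
  have e1 : llin .ring b x = 0 := by
    simp [llin, Fin.sum_univ_three, rr1]
  rw [Cn_lG, e0, e1, facs, List.map_append, List.map_append, List.map_append, List.prod_append,
    List.prod_append, List.prod_append, hL_prod hs hu hl (x := x) rfl,
    hR_prod hs hv hr (x := x) rfl, ringL_prod hs hu hl (x := x) rfl hζ,
    ringR_prod hs hv hr (x := x) rfl hζ]
  have e2 : DT.ee s (sg b * cph .ring s) = 1 := by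
    simp [cph, ee_zero]
  rw [e2]
  simp only [cba, mul_zero, zero_add, Complex.exp_zero, mul_one, one_mul]
  show _ * (PP (2 * s + 1) u ζ * _ * PP (2 * s + 1) v ζ * _) = _
  push_cast
  ring

include hs hu hv hl hr in
theorem run_ring (b : ℤ) {ρ : ℝ} (hρ : 0 < ρ) : KR s b u v = Cn .ring b l r s *
    ∫ σ in Set.Icc (-(1 / 2) : ℝ) (1 / 2), EE (2 * s + 1) b ρ σ *
      lG .ring b l r (2 * s + 1) ![(u : ℂ) / ((2 * s + 1 : ℕ) : ℂ), zt ρ σ,
        (v : ℂ) / ((2 * s + 1 : ℕ) : ℂ)] := by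
  rw [KR_path b hu hρ, intervalIntegral.integral_of_le (by norm_num),
    ← integral_Icc_eq_integral_Ioc, ← integral_const_mul, ← integral_const_mul]
  refine integral_congr_ae ?_
  have h1 : ∀ᵐ σ : ℝ ∂(volume.restrict (Set.Icc (-(1 / 2) : ℝ) (1 / 2))),
      σ ≠ -(1 / 2) ∧ σ ≠ 1 / 2 := by
    have a1 : ∀ᵐ σ : ℝ, σ ≠ -(1 / 2) := by simp [ae_iff]
    have a2 : ∀ᵐ σ : ℝ, σ ≠ 1 / 2 := by simp [ae_iff]
    exact ae_restrict_of_ae (a1.and a2)
  filter_upwards [h1, ae_restrict_mem measurableSet_Icc] with σ h2 h3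
  have h4 : |(zt ρ σ).re| < 1 / 2 := by
    rw [zt_re, abs_lt]
    exact ⟨lt_of_le_of_ne h3.1 h2.1.symm, lt_of_le_of_ne h3.2 h2.2⟩
  have h5 := ring_lG hs hu hv hl hr b h4
  linear_combination (-(EE (2 * s + 1) b ρ σ)) * h5

end

end Pool.Agent.Work.MP_b30479_gtS.G2

end

section

/-!
# The exact formula: the invariant is a state sum
-/

namespace Pool.Agent.Work.MP_b30479_gtS.G2

open Finset VOL AX MeasureTheory
open Pool.Agent.Work.MP_b30479_gtS.LT
open DT (ee_ne ee_zero ee_neg ee_pow ee_int ee_half nn_ne)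

section
variable {M : ℕ} (t : Fin (M + 1) → Typ) (b : Fin (M + 1) → ℤ) {s : ℕ}

/-- the point -/
noncomputable def zpt (y : DD t → Fin (2 * s + 1)) (ζ : ZZ t → ℂ) : DD t ⊕ ZZ t → ℂ :=
  Sum.elim (fun i => (((y i : ℕ) : ℝ) / ((2 * s + 1 : ℕ) : ℝ) : ℝ)) ζ

/-- the hinge variables -/
def yh (y : DD t → Fin (2 * s + 1)) : Fin M → Fin (2 * s + 1) := fun h => y (.inl h)

variable (y : DD t → Fin (2 * s + 1)) (ζ : ZZ t → ℂ)

lemma xx_zpt0 (i : Fin (M + 1)) : xx t i (zpt t y ζ) 0 =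
    ((Li (yh t y) i : ℕ) : ℂ) / ((2 * s + 1 : ℕ) : ℂ) := by
  refine Fin.cases ?_ (fun h => ?_) i
  · rw [xx_left_zero]
    simp [Li]
  · rw [xx_left]
    simp [Li, zpt, yh]

lemma xx_zpt2 (i : Fin (M + 1)) : xx t i (zpt t y ζ) 2 =
    ((Ri (yh t y) i : ℕ) : ℂ) / ((2 * s + 1 : ℕ) : ℂ) := by
  refine Fin.lastCases ?_ (fun h => ?_) i
  · rw [xx_right_last]
    simp [Ri]
  · rw [xx_right]
    simp [Ri, zpt, yh]

lemma xx_zpt (i : Fin (M + 1)) : xx t i (zpt t y ζ) =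
    ![((Li (yh t y) i : ℕ) : ℂ) / ((2 * s + 1 : ℕ) : ℂ), xx t i (zpt t y ζ) 1,
      ((Ri (yh t y) i : ℕ) : ℂ) / ((2 * s + 1 : ℕ) : ℂ)] := by
  funext p
  fin_cases p
  · exact xx_zpt0 t y ζ i
  · rfl
  · exact xx_zpt2 t y ζ i

lemma Li_le (y : Fin M → Fin (2 * s + 1)) (i : Fin (M + 1)) : Li y i ≤ 2 * s := by
  refine Fin.cases ?_ (fun j => ?_) i
  · simp [Li]
  · simp only [Li, Fin.cons_succ]
    omega

lemma Ri_le (y : Fin M → Fin (2 * s + 1)) (i : Fin (M + 1)) : Ri y i ≤ 2 * s := by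
  refine Fin.lastCases ?_ (fun j => ?_) i
  · simp [Ri]
  · simp only [Ri, Fin.snoc_castSucc]
    omega

lemma Li_zero (y : Fin M → Fin (2 * s + 1)) (i : Fin (M + 1)) (h : decide (i ≠ 0) = false) :
    Li y i = 0 := by
  have : i = 0 := by simpa using h
  subst this
  simp [Li]

lemma Ri_zero (y : Fin M → Fin (2 * s + 1)) (i : Fin (M + 1))
    (h : decide (i ≠ Fin.last M) = false) : Ri y i = 0 := by
  have : i = Fin.last M := by simpa using h
  subst this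
  simp [Ri]

/-- the factor of a twist region -/
noncomputable def Kv (i : Fin (M + 1)) : ℂ :=
  if h : (t i).isMid = true then
    Cn (t i) (b i) (decide (i ≠ 0)) (decide (i ≠ Fin.last M)) s *
    lG (t i) (b i) (decide (i ≠ 0)) (decide (i ≠ Fin.last M)) (2 * s + 1)
      ![((Li (yh t y) i : ℕ) : ℂ) / ((2 * s + 1 : ℕ) : ℂ),
        ((y (.inr ⟨i, h⟩) : ℕ) : ℂ) / ((2 * s + 1 : ℕ) : ℂ),
        ((Ri (yh t y) i : ℕ) : ℂ) / ((2 * s + 1 : ℕ) : ℂ)]
  else KR s (b i) (Li (yh t y) i) (Ri (yh t y) i)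

variable {b} (hb : ∀ i, (t i).IsOk (b i)) (hs : 2 ≤ s)

include hb hs in
lemma lG_nonring (i : Fin (M + 1)) (hi : ¬(t i).isRing = true) :
    Cn (t i) (b i) (decide (i ≠ 0)) (decide (i ≠ Fin.last M)) s *
    lG (t i) (b i) (decide (i ≠ 0)) (decide (i ≠ Fin.last M)) (2 * s + 1)
      (xx t i (zpt t y ζ)) = Kv t b y i := by
  unfold Kv
  have hbi := hb i
  by_cases h : (t i).isMid = true
  · rw [dif_pos h, xx_zpt, xx_mid t h]
    simp [zpt]
  · rw [dif_neg h, xx_zpt]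
    have ht : t i = .one ∨ t i = .two := by
      cases hti : t i <;> simp [hti, Typ.isMid, Typ.isRing] at hi h ⊢
    rcases ht with ht | ht
    · rw [ht] at hbi ⊢
      exact (run_one hs (Li_le _ i) (Ri_le _ i) (Li_zero _ i) (Ri_zero _ i) hbi _).symm
    · rw [ht] at hbi ⊢
      exact (run_two hs (Li_le _ i) (Ri_le _ i) (Li_zero _ i) (Ri_zero _ i) hbi _).symm

lemma cube_integral {V : Type*} [Fintype V] (φ : V → ℝ → ℂ) :
    ∫ σ in cube V, ∏ i, φ i (σ i) = ∏ i, ∫ x in Set.Icc (-(1 / 2) : ℝ) (1 / 2), φ i x := by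
  unfold cube
  rw [volume_pi, Measure.restrict_pi_pi]
  exact integral_fintype_prod_eq_prod (fun i => φ i)

include hb hs in
/-- the integral at a lattice point -/
theorem I_eq {ρ : ZZ t → ℝ} (hρ : ∀ v, 0 < ρ v) :
    (∏ i, Cn (t i) (b i) (decide (i ≠ 0)) (decide (i ≠ Fin.last M)) s) *
      (wdat t b).I (2 * s + 1) ρ y = ∏ i, Kv t b y i := by
  set C : Fin (M + 1) → ℂ := fun i => Cn (t i) (b i) (decide (i ≠ 0)) (decide (i ≠ Fin.last M)) s
    with hC
  have h1 : ∀ σ : ZZ t → ℝ, (∏ i, C i) * ((∏ v, EE (2 * s + 1) ((wdat t b).b v) (ρ v) (σ v)) *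
      (wdat t b).G (2 * s + 1) (Sum.elim (fun i => (((y i : ℕ) : ℝ) / ((2 * s + 1 : ℕ) : ℝ) : ℝ))
        fun v => zt (ρ v) (σ v))) =
      (∏ i : {i : Fin (M + 1) // ¬(t i).isRing = true}, Kv t b y i) *
      ∏ v : ZZ t, C v.1 * (EE (2 * s + 1) (b v.1) (ρ v) (σ v) *
        lG .ring (b v.1) (decide (v.1 ≠ 0)) (decide (v.1 ≠ Fin.last M)) (2 * s + 1)
          ![((Li (yh t y) v.1 : ℕ) : ℂ) / ((2 * s + 1 : ℕ) : ℂ), zt (ρ v) (σ v),
            ((Ri (yh t y) v.1 : ℕ) : ℂ) / ((2 * s + 1 : ℕ) : ℂ)]) := by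
    intro σ
    have e0 : (Sum.elim (fun i => ((((y i : ℕ) : ℝ) / ((2 * s + 1 : ℕ) : ℝ) : ℝ) : ℂ))
        (fun v => zt (ρ v) (σ v)) : DD t ⊕ ZZ t → ℂ) = zpt t y (fun v => zt (ρ v) (σ v)) := rfl
    rw [e0, wdat_G]
    have e1 : ∀ f : Fin (M + 1) → ℂ, ∏ i, f i = (∏ i : {i : Fin (M + 1) // (t i).isRing = true}, f i) *
        ∏ i : {i : Fin (M + 1) // ¬(t i).isRing = true}, f i := fun f =>
      (Fintype.prod_subtype_mul_prod_subtype (fun i => (t i).isRing = true) f).symm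
    rw [e1 C, e1 fun i => lG (t i) (b i) (decide (i ≠ 0)) (decide (i ≠ Fin.last M)) (2 * s + 1)
      (xx t i (zpt t y fun v => zt (ρ v) (σ v)))]
    have e2 : (∏ i : {i : Fin (M + 1) // ¬(t i).isRing = true}, Kv t b y i) =
        (∏ i : {i : Fin (M + 1) // ¬(t i).isRing = true}, C i) *
        ∏ i : {i : Fin (M + 1) // ¬(t i).isRing = true},
          lG (t i) (b i) (decide (i.1 ≠ 0)) (decide (i.1 ≠ Fin.last M)) (2 * s + 1)
            (xx t i (zpt t y fun v => zt (ρ v) (σ v))) := by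
      rw [← Finset.prod_mul_distrib]
      refine Finset.prod_congr rfl fun i _ => ?_
      exact (lG_nonring t y _ hb hs i i.2).symm
    have e3 : (∏ v : ZZ t, C v.1 * (EE (2 * s + 1) (b v.1) (ρ v) (σ v) *
        lG .ring (b v.1) (decide (v.1 ≠ 0)) (decide (v.1 ≠ Fin.last M)) (2 * s + 1)
          ![((Li (yh t y) v.1 : ℕ) : ℂ) / ((2 * s + 1 : ℕ) : ℂ), zt (ρ v) (σ v),
            ((Ri (yh t y) v.1 : ℕ) : ℂ) / ((2 * s + 1 : ℕ) : ℂ)])) =
        (∏ v : ZZ t, C v.1) * ((∏ v : ZZ t, EE (2 * s + 1) (b v.1) (ρ v) (σ v)) *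
        ∏ v : ZZ t, lG (t v.1) (b v.1) (decide (v.1 ≠ 0)) (decide (v.1 ≠ Fin.last M)) (2 * s + 1)
          (xx t v.1 (zpt t y fun v => zt (ρ v) (σ v)))) := by
      rw [← Finset.prod_mul_distrib, ← Finset.prod_mul_distrib]
      refine Finset.prod_congr rfl fun v _ => ?_
      have hv : t v.1 = .ring := by
        have := v.2
        cases h : t v.1 <;> simp [h, Typ.isRing] at this ⊢
      rw [xx_zpt, xx_ring t v.2, hv]
      rfl
    rw [e2, e3]
    have e4 : (∏ v, EE (2 * s + 1) ((wdat t b).b v) (ρ v) (σ v)) =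
        ∏ v : ZZ t, EE (2 * s + 1) (b v.1) (ρ v) (σ v) := rfl
    rw [e4]
    ring
  unfold Dat.I
  rw [← integral_const_mul]
  simp_rw [h1]
  rw [integral_const_mul, cube_integral (fun v x => C v.1 * (EE (2 * s + 1) (b v.1) (ρ v) x *
        lG .ring (b v.1) (decide (v.1 ≠ 0)) (decide (v.1 ≠ Fin.last M)) (2 * s + 1)
          ![((Li (yh t y) v.1 : ℕ) : ℂ) / ((2 * s + 1 : ℕ) : ℂ), zt (ρ v) x,
            ((Ri (yh t y) v.1 : ℕ) : ℂ) / ((2 * s + 1 : ℕ) : ℂ)]))]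
  rw [← Fintype.prod_subtype_mul_prod_subtype (fun i => (t i).isRing = true) (Kv t b y), mul_comm]
  congr 1
  refine Finset.prod_congr rfl fun v _ => ?_
  have hv : t v.1 = .ring := by
    have := v.2
    cases h : t v.1 <;> simp [h, Typ.isRing] at this ⊢
  have hm : ¬(t v.1).isMid = true := by
    rw [hv]
    simp [Typ.isMid]
  rw [integral_const_mul, Kv, dif_neg hm, hC]
  simp only
  rw [hv]
  exact (run_ring hs (Li_le _ v.1) (Ri_le _ v.1) (Li_zero _ v.1) (Ri_zero _ v.1) (b v.1) (hρ v)).symm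

include hb hs in
lemma mid_KR (yy : Fin M → Fin (2 * s + 1)) (i : Fin (M + 1)) (hi : (t i).isMid = true) :
    ∑ k : Fin (2 * s + 1), Cn (t i) (b i) (decide (i ≠ 0)) (decide (i ≠ Fin.last M)) s *
    lG (t i) (b i) (decide (i ≠ 0)) (decide (i ≠ Fin.last M)) (2 * s + 1)
      ![((Li yy i : ℕ) : ℂ) / ((2 * s + 1 : ℕ) : ℂ), ((k : ℕ) : ℂ) / ((2 * s + 1 : ℕ) : ℂ),
        ((Ri yy i : ℕ) : ℂ) / ((2 * s + 1 : ℕ) : ℂ)] = KR s (b i) (Li yy i) (Ri yy i) := by
  have hbi := hb i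
  have ht : t i = .threeL ∨ t i = .threeR ∨ t i = .fourL ∨ t i = .fourR := by
    cases hti : t i <;> simp [hti, Typ.isMid] at hi ⊢
  rcases ht with ht | ht | ht | ht
  · rw [ht] at hbi ⊢
    exact (run_threeL hs (Li_le _ i) (Ri_le _ i) (Li_zero _ i) (Ri_zero _ i) hbi).symm
  · rw [ht] at hbi ⊢
    exact (run_threeR hs (Li_le _ i) (Ri_le _ i) (Li_zero _ i) (Ri_zero _ i) hbi).symm
  · rw [ht] at hbi ⊢
    exact (run_fourL hs (Li_le _ i) (Ri_le _ i) (Li_zero _ i) (Ri_zero _ i) hbi).symm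
  · rw [ht] at hbi ⊢
    exact (run_fourR hs (Li_le _ i) (Ri_le _ i) (Li_zero _ i) (Ri_zero _ i) hbi).symm

include hb hs in
/-- the state sum is the sum over chains -/
theorem sum_eq {ρ : ZZ t → ℝ} (hρ : ∀ v, 0 < ρ v) :
    (∏ i, Cn (t i) (b i) (decide (i ≠ 0)) (decide (i ≠ Fin.last M)) s) *
      (wdat t b).sum (2 * s + 1) ρ =
    ∑ yy : Fin M → Fin (2 * s + 1), ∏ i : Fin (M + 1), KR s (b i) (Li yy i) (Ri yy i) := by
  unfold Dat.sum
  rw [Finset.mul_sum]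
  simp_rw [I_eq t _ hb hs hρ]
  rw [← (Equiv.sumArrowEquivProdArrow (Fin M) {i : Fin (M + 1) // (t i).isMid = true}
    (Fin (2 * s + 1))).symm.sum_comp, Fintype.sum_prod_type]
  refine Finset.sum_congr rfl fun yy _ => ?_
  have h1 : ∀ ym : {i : Fin (M + 1) // (t i).isMid = true} → Fin (2 * s + 1),
      ∏ i, Kv t b ((Equiv.sumArrowEquivProdArrow (Fin M) {i : Fin (M + 1) // (t i).isMid = true}
        (Fin (2 * s + 1))).symm (yy, ym)) i =
      (∏ m : {i : Fin (M + 1) // (t i).isMid = true},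
        Cn (t m.1) (b m.1) (decide (m.1 ≠ 0)) (decide (m.1 ≠ Fin.last M)) s *
        lG (t m.1) (b m.1) (decide (m.1 ≠ 0)) (decide (m.1 ≠ Fin.last M)) (2 * s + 1)
          ![((Li yy m.1 : ℕ) : ℂ) / ((2 * s + 1 : ℕ) : ℂ),
            ((ym m : ℕ) : ℂ) / ((2 * s + 1 : ℕ) : ℂ),
            ((Ri yy m.1 : ℕ) : ℂ) / ((2 * s + 1 : ℕ) : ℂ)]) *
      ∏ i : {i : Fin (M + 1) // ¬(t i).isMid = true}, KR s (b i) (Li yy i) (Ri yy i) := by
    intro ym
    rw [← Fintype.prod_subtype_mul_prod_subtype (fun i => (t i).isMid = true)]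
    congr 1
    · refine Finset.prod_congr rfl fun m _ => ?_
      rw [Kv, dif_pos m.2]
      rfl
    · refine Finset.prod_congr rfl fun m _ => ?_
      rw [Kv, dif_neg m.2]
      rfl
  simp_rw [h1]
  rw [← Finset.sum_mul]
  have h2 : ∑ ym : {i : Fin (M + 1) // (t i).isMid = true} → Fin (2 * s + 1),
      (∏ m : {i : Fin (M + 1) // (t i).isMid = true},
        Cn (t m.1) (b m.1) (decide (m.1 ≠ 0)) (decide (m.1 ≠ Fin.last M)) s *
        lG (t m.1) (b m.1) (decide (m.1 ≠ 0)) (decide (m.1 ≠ Fin.last M)) (2 * s + 1)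
          ![((Li yy m.1 : ℕ) : ℂ) / ((2 * s + 1 : ℕ) : ℂ),
            ((ym m : ℕ) : ℂ) / ((2 * s + 1 : ℕ) : ℂ),
            ((Ri yy m.1 : ℕ) : ℂ) / ((2 * s + 1 : ℕ) : ℂ)]) =
      ∏ m : {i : Fin (M + 1) // (t i).isMid = true}, KR s (b m.1) (Li yy m.1) (Ri yy m.1) := by
    have h3 := Finset.prod_univ_sum (fun _ : {i : Fin (M + 1) // (t i).isMid = true} =>
      (Finset.univ : Finset (Fin (2 * s + 1)))) (fun m k =>
        Cn (t m.1) (b m.1) (decide (m.1 ≠ 0)) (decide (m.1 ≠ Fin.last M)) s *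
        lG (t m.1) (b m.1) (decide (m.1 ≠ 0)) (decide (m.1 ≠ Fin.last M)) (2 * s + 1)
          ![((Li yy m.1 : ℕ) : ℂ) / ((2 * s + 1 : ℕ) : ℂ),
            ((k : ℕ) : ℂ) / ((2 * s + 1 : ℕ) : ℂ),
            ((Ri yy m.1 : ℕ) : ℂ) / ((2 * s + 1 : ℕ) : ℂ)])
    rw [Fintype.piFinset_univ] at h3
    rw [← h3]
    exact Finset.prod_congr rfl fun m _ => mid_KR t hb hs yy m.1 m.2
  rw [h2]
  exact Fintype.prod_subtype_mul_prod_subtype (fun i => (t i).isMid = true)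
    (fun i => KR s (b i) (Li yy i) (Ri yy i))

include hb hs in
/-- the exact formula -/
theorem exactDat (δ : ℤ) {ρ : ZZ t → ℝ} (hρ : ∀ v, 0 < ρ v) :
    twoBridgeKashaev (ltWord (List.ofFn b)) δ (2 * s + 1) =
      phs (orientedWrithe (ltWord (List.ofFn b)) ![1, δ, -δ]) (∑ i, b i) s *
      ((∏ i, Cn (t i) (b i) (decide (i ≠ 0)) (decide (i ≠ Fin.last M)) s) *
        (wdat t b).sum (2 * s + 1) ρ) := by
  rw [chainR b δ (by omega), sum_eq t hb hs hρ]

end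

end Pool.Agent.Work.MP_b30479_gtS.G2

end

section

/-!
# The state sum of a two-bridge link satisfies the hypotheses of the core
-/

namespace Pool.Agent.Work.MP_b30479_gtS.G2

open Finset VOL AX MeasureTheory
open Pool.Agent.Work.MP_b30479_gtS.LT

/-! ### the hypotheses of the core -/

section
variable {M : ℕ} (t : Fin (M + 1) → Typ) {b : Fin (M + 1) → ℤ}

/-- bounds for the local variables -/
lemma xx_re_bd {n : ℕ} {z : DD t ⊕ ZZ t → ℂ} (hn : 1 ≤ n)
    (h : ∀ i, 0 ≤ (z (.inl i)).re ∧ (z (.inl i)).re ≤ 1 - 1 / n) (i : Fin (M + 1)) :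
    (0 ≤ (xx t i z 0).re ∧ (xx t i z 0).re ≤ 1 - 1 / n) ∧
    (0 ≤ (xx t i z 2).re ∧ (xx t i z 2).re ≤ 1 - 1 / n) := by
  have h1 : (0 : ℝ) ≤ 1 - 1 / n := by
    have : (1 : ℝ) ≤ n := by exact_mod_cast hn
    rw [sub_nonneg, div_le_one (by linarith only [this])]
    exact this
  constructor
  · refine Fin.cases ?_ (fun j => ?_) i
    · rw [xx_left_zero]
      exact ⟨le_rfl, h1⟩
    · rw [xx_left]
      exact h _
  · refine Fin.lastCases ?_ (fun j => ?_) i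
    · rw [xx_right_last]
      exact ⟨le_rfl, h1⟩
    · rw [xx_right]
      exact h _

lemma form_re (f : Fac) (x : Fin 3 → ℂ) : (f.form x).re =
    f.a + (f.α 0 * (x 0).re + f.α 1 * (x 1).re + f.α 2 * (x 2).re) := by
  unfold Fac.form
  rw [Fin.sum_univ_three]
  simp

/-- the arguments of the factors -/
lemma fac_range {T : Typ} {l r : Bool} {f : Fac} (hf : f ∈ facs T l r) {n : ℕ} (hn : 1 ≤ n)
    {x : Fin 3 → ℂ} (h0 : 0 ≤ (x 0).re ∧ (x 0).re ≤ 1 - 1 / n)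
    (h2 : 0 ≤ (x 2).re ∧ (x 2).re ≤ 1 - 1 / n)
    (hm : T.isMid = true → 0 ≤ (x 1).re ∧ (x 1).re ≤ 1 - 1 / n)
    (hr : T.isRing = true → |(x 1).re| < 1 / 2) :
    0 < (f.form x).re + f.c / n ∧ (f.form x).re + f.c / n < 2 := by
  have hn1 : (1 : ℝ) ≤ n := by exact_mod_cast hn
  have hn2 : 0 < 1 / (n : ℝ) := by positivity
  have hn3 : 1 / (n : ℝ) ≤ 1 := by
    rw [div_le_one (by linarith only [hn1])]
    exact hn1
  have e1 : (1 / 2 : ℝ) / n = 1 / n / 2 := by ring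
  have e2 : (-(1 / 2) : ℝ) / n = -(1 / n / 2) := by ring
  obtain ⟨a0, a1⟩ := h0
  obtain ⟨b0, b1⟩ := h2
  have key : ∀ f ∈ facs T l r, 0 < f.a + (f.α 0 * (x 0).re + f.α 1 * (x 1).re +
      f.α 2 * (x 2).re) + f.c / n ∧ f.a + (f.α 0 * (x 0).re + f.α 1 * (x 1).re +
      f.α 2 * (x 2).re) + f.c / n < 2 := by
    cases T
    case ring =>
      obtain ⟨c0, c1⟩ := abs_lt.1 (hr rfl)
      cases l <;> cases r <;> simp only [facs, hL, hR, if_true, Bool.false_eq_true, if_false,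
        List.append_nil, List.nil_append, List.cons_append, List.forall_mem_cons,
        List.forall_mem_nil, and_true, Matrix.cons_val, e1, e2, zero_div]
      all_goals
        (repeat' apply And.intro) <;> first
          | exact trivial
          | (push_cast; linarith only [b0, c0, hn2, b1, c1, a0, a1])
          | simp
    case one =>
      cases l <;> cases r <;> simp only [facs, hL, hR, if_true, Bool.false_eq_true, if_false,
        List.append_nil, List.nil_append, List.cons_append, List.forall_mem_cons,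
        List.forall_mem_nil, and_true, Matrix.cons_val, e1, e2, zero_div, Bool.or_self, Bool.or_true,
        Bool.or_false]
      all_goals
        (repeat' apply And.intro) <;> first
          | exact trivial
          | (push_cast; linarith only [hn2, a0, b0, a1, b1])
          | simp
    case two =>
      cases l <;> cases r <;> simp only [facs, hL, hR, if_true, Bool.false_eq_true, if_false,
        List.append_nil, List.nil_append, List.cons_append, List.forall_mem_cons,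
        List.forall_mem_nil, and_true, Matrix.cons_val, e1, e2, zero_div, Bool.or_self, Bool.or_true,
        Bool.or_false]
      all_goals
        (repeat' apply And.intro) <;> first
          | exact trivial
          | (push_cast; linarith only [hn2, a0, b0, a1, b1])
          | simp
    all_goals
      obtain ⟨c0, c1⟩ := hm rfl
      cases l <;> cases r <;> simp only [facs, hL, hR, if_true, Bool.false_eq_true, if_false,
        List.append_nil, List.nil_append, List.cons_append, List.forall_mem_cons,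
        List.forall_mem_nil, and_true, Matrix.cons_val, e1, e2, zero_div]
      all_goals
        (repeat' apply And.intro) <;> first
          | exact trivial
          | (push_cast; linarith only [hn2, b0, c0, b1, c1, a0, a1])
          | simp
  rw [form_re]
  exact key f hf

/-- the shifts and constants of the factors -/
lemma fac_ac {T : Typ} {l r : Bool} {f : Fac} (hf : f ∈ facs T l r) :
    ((∃ m : ℤ, f.a = m) ∧ (f.c = 1 / 2 ∨ f.c = -(1 / 2))) ∨
      (T.isRing = true ∧ f.c = 0 ∧ f.α 1 ≠ 0) := by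
  have z0 : ∃ m : ℤ, (0 : ℝ) = m := ⟨0, by simp⟩
  have z1 : ∃ m : ℤ, (1 : ℝ) = m := ⟨1, by simp⟩
  have key : ∀ f ∈ facs T l r, ((∃ m : ℤ, f.a = m) ∧ (f.c = 1 / 2 ∨ f.c = -(1 / 2))) ∨
      (T.isRing = true ∧ f.c = 0 ∧ f.α 1 ≠ 0) := by
    cases T
    case ring =>
      cases l <;> cases r <;> simp [facs, hL, hR, Typ.isRing] <;> exact z1
    all_goals
      cases l <;> cases r <;> simp [facs, hL, hR, Typ.isRing] <;>
        (try constructor) <;> first | exact z0 | exact z1 | (constructor <;> first | exact z0 | exact z1)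
  exact key f hf

lemma fac_mem (k : KF t) : fac t k ∈ facs (t k.1) (decide (k.1 ≠ 0)) (decide (k.1 ≠ Fin.last M)) :=
  List.get_mem _ _

/-- the hypotheses of the core -/
theorem wdat_ok (hb : ∀ i, (t i).IsOk (b i)) : (wdat t b).Ok where
  range := by
    intro n hn z hD hZ k
    rw [wdat_form]
    obtain ⟨h0, h2⟩ := xx_re_bd t hn hD k.1
    refine fac_range (fac_mem t k) hn h0 h2 ?_ ?_
    · intro h
      rw [xx_mid t h]
      exact hD _
    · intro h
      rw [xx_ring t h]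
      exact hZ _
  shift := by
    intro k
    have h : (wdat t b).c k = (fac t k).c := rfl
    rw [h]
    rcases fac_ac (fac_mem t k) with ⟨_, h1 | h1⟩ | ⟨_, h1, _⟩
    · rw [h1, abs_le]
      norm_num
    · rw [h1, abs_le]
      norm_num
    · rw [h1]
      norm_num
  half := by
    intro k hk
    rcases fac_ac (fac_mem t k) with h1 | ⟨h1, _, h3⟩
    · exact h1
    · exfalso
      have h4 := hk ⟨k.1, h1⟩
      apply h3
      have h5 : (wdat t b).A k (.inr ⟨k.1, h1⟩) = (fac t k).α 1 := by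
        show ∑ p, (fac t k).α p * cf t k.1 p (.inr ⟨k.1, h1⟩) = _
        rw [Fin.sum_univ_three]
        simp [cf]
      rw [← h5]
      exact h4
  rho := by
    intro n hn hodd y ρ ρ' hρ hρ'
    obtain ⟨s, rfl⟩ := hodd
    have hs : 2 ≤ s := by omega
    have h1 := I_eq t y hb hs hρ
    have h2 := I_eq t y hb hs hρ'
    have h3 : (∏ i, Cn (t i) (b i) (decide (i ≠ 0)) (decide (i ≠ Fin.last M)) s) ≠ 0 :=
      Finset.prod_ne_zero_iff.2 fun i _ => Cn_ne _ _ _ _ _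
    exact mul_left_cancel₀ h3 (h1.trans h2.symm)

end

end Pool.Agent.Work.MP_b30479_gtS.G2

end
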