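import Pool.Agent.Work.MP_b30479_gt.TBS.G2.MRBase
import Pool.Agent.Work.MP_b30479_gt.TBS.NumU.Node
import Pool.Agent.Work.MP_b30479_gt.TBS.NumU.Tree

section

/-!
# The right ramp of the hinge `1 | 2`: real forms and expressions

`T` is the height in the frame of the digit `1`, the path is `.80 | .16 | .29`.
-/

set_option deprecated.oldSectionVars true

namespace Pool.Agent.Work.MP_b30479_gtS.G2

open VOL NumUs

namespace C12

/-! ### real forms -/

/-- height on the ramp -/
noncomputable def tt (T x : ℝ) : ℝ := T * (100 / 29 * (8 / 10 - x))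

/-- slope -/
noncomputable def mm (T : ℝ) : ℝ := -100 / 29 * T

noncomputable def fP (x T : ℝ) : ℝ :=
  (30 / 100 - 90 / 100 * (x - 535 / 1000)) + (9 / 1 - 3 / 1 * (x - 535 / 1000)) * T

noncomputable def fZ (x T : ℝ) : ℝ :=
  (438 / 1000 - 60 / 100 * (x - 56 / 100)) + (845 / 100 + 2 / 1 * (x - 56 / 100)) * T

noncomputable def F1 (x T : ℝ) : ℝ :=
  55 / 100 * (x - 535 / 1000) + (1 / 10 + 81 / 10 * (x - 535 / 1000)) * T

noncomputable def G1 (x T : ℝ) : ℝ :=
  95 / 1000 + (95 / 100 * (x - 535 / 1000) - 24 / 10 * (x - 535 / 1000) ^ 2) +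
    (10 / 1 * (x - 535 / 1000) - 1 / 10) * T

noncomputable def F3 (x T : ℝ) : ℝ :=
  1255 / 10000 + 36 / 100 * (x - 75 / 100) + (205 / 100 + 10 / 1 * (x - 75 / 100)) * T

/-- change of `V1` if the own hinge `x + i t` moves to `c + i T`; `cn`, `un`: the values of `UU` at
the sums -/
noncomputable def g1 (c T x t x' t' cn un : ℝ) : ℝ :=
  Real.pi * ((c - x) * t' + (T - t) * (x' - 1)) + ((cn - un) + (uu x t - uu c T))

/-- the same for `V2`, the own hinge `x - i t` moves to `c - i T` -/
noncomputable def g2 (c T x t x' t' cn un : ℝ) : ℝ :=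
  Real.pi * ((c - x') * (T + t') - (x - x') * (t + t') + 1 / 2 * (T - t)) +
    ((cn - un) + 2 * (uu x t - uu c T))

/-- gain of the digit `1` -/
noncomputable def gn1 (c x T x' t' : ℝ) : ℝ :=
  g1 c T x (tt T x) x' t' (uu (c + x') (T + t')) (uu (x + x') (tt T x + t'))

/-- gain of the digit `2` -/
noncomputable def gn2 (c x T x' t' : ℝ) : ℝ :=
  g2 c T x (tt T x) x' t' (uu (c + x') (t' - T)) (uu (x + x') (t' - tt T x))

/-! ### expressions -/

section
open NumUs.E

def et (x T : E) : E := mul T (mul (q 100 29) (sub (q 8 10) x))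
def em (T : E) : E := mul (q (-100) 29) T

def eF1 (x T : E) : E :=
  add (mul (q 55 100) (sub x (q 535 1000)))
    (mul (add (q 1 10) (mul (q 81 10) (sub x (q 535 1000)))) T)

def eG1 (x T : E) : E :=
  add (add (q 95 1000) (sub (mul (q 95 100) (sub x (q 535 1000)))
    (mul (q 24 10) (sq (sub x (q 535 1000))))))
    (mul (sub (mul (q 10 1) (sub x (q 535 1000))) (q 1 10)) T)

def eF3 (x T : E) : E :=
  add (add (q 1255 10000) (mul (q 36 100) (sub x (q 75 100))))
    (mul (add (q 205 100) (mul (q 10 1) (sub x (q 75 100)))) T)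

def eg1 (c T x t x' t' cn un : E) : E :=
  add (mul pi (add (mul (sub c x) t') (mul (sub T t) (sub x' (q 1 1)))))
    (add (sub cn un) (sub (E.uu x t) (E.uu c T)))

def eg2 (c T x t x' t' cn un : E) : E :=
  add (mul pi (add (sub (mul (sub c x') (add T t')) (mul (sub x x') (add t t')))
    (mul (q 1 2) (sub T t))))
    (add (sub cn un) (mul (q 2 1) (sub (E.uu x t) (E.uu c T))))

theorem et_val (x T : E) (xs : List ℝ) : (et x T).val xs = tt (T.val xs) (x.val xs) := by
  simp only [et, val, tt]
  push_cast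
  rfl

theorem em_val (T : E) (xs : List ℝ) : (em T).val xs = mm (T.val xs) := by
  simp only [em, val, mm]
  push_cast
  rfl

theorem eF1_val (x T : E) (xs : List ℝ) : (eF1 x T).val xs = F1 (x.val xs) (T.val xs) := by
  simp only [eF1, val, F1]
  push_cast
  ring

theorem eG1_val (x T : E) (xs : List ℝ) : (eG1 x T).val xs = G1 (x.val xs) (T.val xs) := by
  simp only [eG1, val, G1]
  push_cast
  ring

theorem eF3_val (x T : E) (xs : List ℝ) : (eF3 x T).val xs = F3 (x.val xs) (T.val xs) := by
  simp only [eF3, val, F3]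
  push_cast
  ring

theorem eg1_val (c T x t x' t' cn un : E) (xs : List ℝ) : (eg1 c T x t x' t' cn un).val xs =
    g1 (c.val xs) (T.val xs) (x.val xs) (t.val xs) (x'.val xs) (t'.val xs) (cn.val xs)
      (un.val xs) := by
  simp only [eg1, val, g1]
  push_cast
  ring

theorem eg2_val (c T x t x' t' cn un : E) (xs : List ℝ) : (eg2 c T x t x' t' cn un).val xs =
    g2 (c.val xs) (T.val xs) (x.val xs) (t.val xs) (x'.val xs) (t'.val xs) (cn.val xs)
      (un.val xs) := by
  simp only [eg2, val, g2]
  push_cast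
  ring

end

/-! ### expressions of `NumIs` -/

section
open NumIs (lnA lnB)
open NumIs.E

def nt (x T : NumIs.E) : NumIs.E := mul T (mul (q 100 29) (sub (q 8 10) x))
def nm (T : NumIs.E) : NumIs.E := mul (q (-100) 29) T

def nfP (x T : NumIs.E) : NumIs.E :=
  add (sub (q 30 100) (mul (q 90 100) (sub x (q 535 1000))))
    (mul (sub (q 9 1) (mul (q 3 1) (sub x (q 535 1000)))) T)

def nfZ (x T : NumIs.E) : NumIs.E :=
  add (sub (q 438 1000) (mul (q 60 100) (sub x (q 56 100))))
    (mul (add (q 845 100) (mul (q 2 1) (sub x (q 56 100)))) T)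

theorem nt_val (x T : NumIs.E) (xs : List ℝ) : (nt x T).val xs = tt (T.val xs) (x.val xs) := by
  simp only [nt, val, tt]
  push_cast
  rfl

theorem nm_val (T : NumIs.E) (xs : List ℝ) : (nm T).val xs = mm (T.val xs) := by
  simp only [nm, val, mm]
  push_cast
  rfl

theorem nfP_val (x T : NumIs.E) (xs : List ℝ) : (nfP x T).val xs = fP (x.val xs) (T.val xs) := by
  simp only [nfP, val, fP]
  push_cast
  ring

theorem nfZ_val (x T : NumIs.E) (xs : List ℝ) : (nfZ x T).val xs = fZ (x.val xs) (T.val xs) := by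
  simp only [nfZ, val, fZ]
  push_cast
  ring

/-- the side of the digit `1` in the variables `x`, `T`, `u = x + x'`, `y = t + t'` -/
noncomputable def p1 (T x u y : ℝ) : ℝ :=
  Real.pi * (y - tt T x) + lnA u y - lnA x (tt T x) +
    mm T * (Real.pi * (u - x - 1) - lnB u y + lnB x (tt T x))

/-- the side of the digit `2` in the variables `x`, `T`, `u = x + x'`, `y = t' - t` -/
noncomputable def p2 (T x u y : ℝ) : ℝ :=
  Real.pi * (y + 2 * tt T x) + lnA u y - 2 * lnA x (tt T x) +
    -mm T * (Real.pi * (u - 2 * x - 1 / 2) - lnB u y - 2 * lnB x (tt T x))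

def np1 : NumIs.E :=
  add (sub (add (mul pi (sub (var 3) (nt (var 0) (var 1)))) (NumIs.E.lnA (var 2) (var 3)))
      (NumIs.E.lnA (var 0) (nt (var 0) (var 1))))
    (mul (nm (var 1)) (add (sub (mul pi (sub (sub (var 2) (var 0)) (q 1 1)))
      (NumIs.E.lnB (var 2) (var 3))) (NumIs.E.lnB (var 0) (nt (var 0) (var 1)))))

def np2 : NumIs.E :=
  add (sub (add (mul pi (add (var 3) (mul (q 2 1) (nt (var 0) (var 1))))) (NumIs.E.lnA (var 2) (var 3)))
      (mul (q 2 1) (NumIs.E.lnA (var 0) (nt (var 0) (var 1)))))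
    (mul (neg (nm (var 1))) (sub (sub (mul pi (sub (sub (var 2) (mul (q 2 1) (var 0))) (q 1 2)))
      (NumIs.E.lnB (var 2) (var 3))) (mul (q 2 1) (NumIs.E.lnB (var 0) (nt (var 0) (var 1))))))

theorem np1_val (x T u y : ℝ) : np1.val [x, T, u, y] = p1 T x u y := by
  simp only [np1, val, nt_val, nm_val, NumIs.lkR, p1]
  push_cast
  ring

theorem np2_val (x T u y : ℝ) : np2.val [x, T, u, y] = p2 T x u y := by
  simp only [np2, val, nt_val, nm_val, NumIs.lkR, p2]
  push_cast
  ring

end

/-! ### `uu` near `1` -/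

section
open NumIs NumIs.E

theorem kr_6_187 : MR.Kr (6 / 100) (187 / 1000) (27 / 100) := by
  have h : chk [sub (exp (q 54 100)) (sub (mul (q 2 1) (cosh (mul pi (q 374 1000))))
      (mul (q 2 1) (cosPi (q 12 100))))] 1 [V.of 1 0 0] = true := by decide +kernel
  have hp := pos_of_chk (chk1 h (by norm_num) (x := 0) (by norm_num) (by norm_num))
  unfold MR.Kr
  simp only [val] at hp
  norm_num at hp ⊢
  linarith only [hp]

theorem kr_6_2 : MR.Kr (6 / 100) (2 / 10) (34 / 100) := by
  have h : chk [sub (exp (q 68 100)) (sub (mul (q 2 1) (cosh (mul pi (q 4 10))))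
      (mul (q 2 1) (cosPi (q 12 100))))] 1 [V.of 1 0 0] = true := by decide +kernel
  have hp := pos_of_chk (chk1 h (by norm_num) (x := 0) (by norm_num) (by norm_num))
  unfold MR.Kr
  simp only [val] at hp
  norm_num at hp ⊢
  linarith only [hp]

end

theorem anti1c0 {s0 y0 c : ℝ} (K : MR.Kr s0 y0 c) (hc : 0 ≤ c) (h1 : s0 ≤ 1 / 2) {a b y : ℝ}
    (hab : a ≤ b) (h : ∀ s ∈ Set.Ioo a b, s ≠ 1 ∧ |s - 1| ≤ s0) (hy : |y| ≤ y0) :
    uu b y ≤ uu a y + c * (b - a) := by
  have hp := Real.pi_pos
  have hpt : ∀ s : ℝ, (y : ℂ) * Complex.I + ((1 * s : ℝ) : ℂ) = ⟨s, y⟩ := by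
    intro s
    apply Complex.ext <;> simp
  have hd : ∀ s ∈ Set.Ioo a b, HasDerivAt
      (fun s : ℝ => UU ((y : ℂ) * Complex.I + ((1 * s : ℝ) : ℂ))) (1 * LL ⟨s, y⟩) s := by
    intro s hs
    have h2 := hasDerivAt_UU_level ((y : ℂ) * Complex.I) 1 s (by
      rw [hpt]
      intro hc
      rw [Complex.sin_eq_zero_iff] at hc
      obtain ⟨k, hk⟩ := hc
      have hk1 : (⟨s, y⟩ : ℂ) = k := by
        have : (Real.pi : ℂ) ≠ 0 := by exact_mod_cast hp.ne'
        apply mul_left_cancel₀ this
        rw [hk]
        ring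
      have hk2 := congrArg Complex.re hk1
      simp only [Complex.intCast_re] at hk2
      obtain ⟨a1, a2⟩ := h s hs
      rw [hk2, abs_le] at a2
      have a3 : (0 : ℤ) < k := by
        have : (0 : ℝ) < k := by linarith only [h1, a2]
        exact_mod_cast this
      have a4 : k < (2 : ℤ) := by
        have : (k : ℝ) < 2 := by linarith only [h1, a2]
        exact_mod_cast this
      apply a1
      rw [hk2]
      have : k = 1 := by omega
      simp [this])
    rw [hpt] at h2
    exact h2
  have hd2 : ∀ s ∈ Set.Ioo a b, HasDerivAt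
      (fun s : ℝ => UU ((y : ℂ) * Complex.I + ((1 * s : ℝ) : ℂ)) - c * s)
      (1 * LL ⟨s, y⟩ - c * 1) s :=
    fun s hs => (hd s hs).sub ((hasDerivAt_id s).const_mul c)
  have hanti : AntitoneOn (fun s : ℝ => UU ((y : ℂ) * Complex.I + ((1 * s : ℝ) : ℂ)) - c * s)
      (Set.Icc a b) := by
    apply antitoneOn_of_deriv_nonpos (convex_Icc _ _)
    · apply Continuous.continuousOn
      exact (continuous_UU.comp (by fun_prop)).sub (by fun_prop)
    · rw [interior_Icc]
      exact fun s hs => (hd2 s hs).differentiableAt.differentiableWithinAt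
    · rw [interior_Icc]
      intro s hs
      rw [(hd2 s hs).deriv, one_mul, mul_one]
      have := MR.LL_rect K hc h1 (u := ⟨s, y⟩) (h s hs).2 hy
      linarith only [this]
  have h2 := hanti (Set.left_mem_Icc.2 hab) (Set.right_mem_Icc.2 hab) hab
  simp only [hpt] at h2
  have h3 : uu b y - c * b ≤ uu a y - c * a := h2
  linarith only [h3]

/-- `uu` near `1` -/
theorem anti1c {s0 y0 c : ℝ} (K : MR.Kr s0 y0 c) (hc : 0 ≤ c) (h1 : s0 ≤ 1 / 2) {a b y : ℝ}
    (ha : 1 - s0 ≤ a) (hab : a ≤ b) (hb : b ≤ 1 + s0) (hy : |y| ≤ y0) :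
    uu b y ≤ uu a y + c * (b - a) := by
  rcases le_or_gt 1 a with h | h
  · exact anti1c0 K hc h1 hab (fun s hs => ⟨(lt_of_le_of_lt h hs.1).ne', by
      rw [abs_le]; constructor <;> linarith only [ha, hs, hb, hs.1, hs.2]⟩) hy
  · rcases le_or_gt b 1 with h' | h'
    · exact anti1c0 K hc h1 hab (fun s hs => ⟨(lt_of_lt_of_le hs.2 h').ne, by
        rw [abs_le]; constructor <;> linarith only [ha, hs, hb, hs.1, hs.2]⟩) hy
    · have e1 := anti1c0 K hc h1 h'.le (fun s hs => ⟨hs.1.ne', by
        rw [abs_le]; constructor <;> linarith only [ha, h, hs, hb, hs.1, hs.2]⟩) hy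
      have e2 := anti1c0 K hc h1 h.le (fun s hs => ⟨hs.2.ne, by
        rw [abs_le]; constructor <;> linarith only [ha, hs, h, hs.1, hs.2]⟩) hy
      linarith only [e1, e2]

end C12

end Pool.Agent.Work.MP_b30479_gtS.G2

end

section

/-!
# The right ramp of the hinge `1 | 2`: rows

Found with `NumUs.cert`.
-/

set_option linter.unusedSimpArgs false
set_option linter.unusedTactic false
set_option linter.unusedVariables false

set_option deprecated.oldSectionVars true

namespace Pool.Agent.Work.MP_b30479_gtS.G2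

namespace C12

open NumUs NumUs.E
open NumIs (V)

/-- 106 boxes -/
theorem D1Za {x T s k : ℝ} (a0 : 5600 / 10000 ≤ x) (b0 : x ≤ 7500 / 10000) (a1 : -180 / 10000 ≤ T) (b1 : T ≤ 985 / 10000)
    (a2 : 700 / 10000 ≤ s) (b2 : s ≤ 1600 / 10000) (a3 : -993 / 10000 ≤ k) (b3 : k ≤ 1450 / 10000)
    (c0 : (T + (((100 / 16) * k) * s)) - (187 / 1000) ≤ 0) :
    0 < ((fZ x T) - (MR.s1 (mm T) x (tt T x) s (((100 / 16) * k) * s))) := by
  have h : chkT [(emb (NumIs.E.sub (nfZ (.var 0) (.var 1)) (MR.e1 (nm (.var 1)) (.var 0) (nt (.var 0) (.var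
      1)) (.var 2) (.mul (.mul (.q 100 16) (.var 3)) (.var 2))))), (sub (add (var 1) (mul (mul (q
      100 16) (var 3)) (var 2))) (q 187 1000))] 18
      62362115909425403855011041524956643007182357744204224931204722651567476879256906009795094565853410789055195942648718234759337900995322211995265078663682185468334099068509766775468671259406210924888603634142748563248202846731399851134886789368803773383456
      [V.of 10000 5600 7500 16, V.of 10000 (-180) 985 16, V.of 10000 700 1600 16, V.of 10000
        (-993) 1450 16] = true := by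
    decide +kernel
  obtain ⟨f, hf, hp⟩ := chkT4 h (by norm_num) (x := x) (y := T) (z := s) (w := k)
    (le_trans (by norm_num) a0) (le_trans b0 (by norm_num))
    (le_trans (by norm_num) a1) (le_trans b1 (by norm_num))
    (le_trans (by norm_num) a2) (le_trans b2 (by norm_num))
    (le_trans (by norm_num) a3) (le_trans b3 (by norm_num))
  simp only [List.mem_cons, List.not_mem_nil, or_false] at hf
  rcases hf with rfl | rfl
  · simp only [eg1_val, eg2_val, eF1_val, eG1_val, eF3_val, et_val, nt_val, nm_val, nfZ_val, nfP_val, np1_val,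
      np2_val, MR.e1_val, MR.e2_val, NumUs.E.val, NumIs.E.val, NumIs.lkR] at hp
    push_cast at hp
    try simp only [div_one] at hp
    linarith only [hp]
  · simp only [eg1_val, eg2_val, eF1_val, eG1_val, eF3_val, et_val, nt_val, nm_val, nfZ_val, nfP_val, np1_val,
      np2_val, MR.e1_val, MR.e2_val, NumUs.E.val, NumIs.E.val, NumIs.lkR] at hp
    push_cast at hp
    try simp only [div_one] at hp
    exfalso
    linarith only [c0, hp]

/-- 127 boxes -/
theorem D1Zb {x T s k : ℝ} (a0 : 5600 / 10000 ≤ x) (b0 : x ≤ 7500 / 10000) (a1 : -180 / 10000 ≤ T) (b1 : T ≤ 985 / 10000)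
    (a2 : 1600 / 10000 ≤ s) (b2 : s ≤ 3200 / 10000) (a3 : -930 / 10000 ≤ k) (b3 : k ≤ 1450 /
    10000) (c0 : (T + k) - (187 / 1000) ≤ 0) (c1 : (x + s) - (88 / 100) ≤ 0) :
    0 < ((fZ x T) - (MR.s1 (mm T) x (tt T x) s k)) := by
  have h : chkT [(emb (NumIs.E.sub (nfZ (.var 0) (.var 1)) (MR.e1 (nm (.var 1)) (.var 0) (nt (.var 0) (.var
      1)) (.var 2) (.var 3)))), (sub (add (var 1) (var 3)) (q 187 1000)), (sub (add (var 0) (var
      2)) (q 88 100))] 18
      29257898472531518548574797746711216961768269284524967146985542052890039632706326389539049522079429052625442118067188614550979454727982924141135443919305127522583580381059149453359972152937203361432998294987755895079569590025401082696362450537987087824267732868123528440620438689016521147750021984258490883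
      [V.of 10000 5600 7500 16, V.of 10000 (-180) 985 16, V.of 10000 1600 3200 16, V.of 10000
        (-930) 1450 16] = true := by
    decide +kernel
  obtain ⟨f, hf, hp⟩ := chkT4 h (by norm_num) (x := x) (y := T) (z := s) (w := k)
    (le_trans (by norm_num) a0) (le_trans b0 (by norm_num))
    (le_trans (by norm_num) a1) (le_trans b1 (by norm_num))
    (le_trans (by norm_num) a2) (le_trans b2 (by norm_num))
    (le_trans (by norm_num) a3) (le_trans b3 (by norm_num))
  simp only [List.mem_cons, List.not_mem_nil, or_false] at hf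
  rcases hf with rfl | rfl | rfl
  · simp only [eg1_val, eg2_val, eF1_val, eG1_val, eF3_val, et_val, nt_val, nm_val, nfZ_val, nfP_val, np1_val,
      np2_val, MR.e1_val, MR.e2_val, NumUs.E.val, NumIs.E.val, NumIs.lkR] at hp
    push_cast at hp
    try simp only [div_one] at hp
    linarith only [hp]
  · simp only [eg1_val, eg2_val, eF1_val, eG1_val, eF3_val, et_val, nt_val, nm_val, nfZ_val, nfP_val, np1_val,
      np2_val, MR.e1_val, MR.e2_val, NumUs.E.val, NumIs.E.val, NumIs.lkR] at hp
    push_cast at hp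
    try simp only [div_one] at hp
    exfalso
    linarith only [c0, hp]
  · simp only [eg1_val, eg2_val, eF1_val, eG1_val, eF3_val, et_val, nt_val, nm_val, nfZ_val, nfP_val, np1_val,
      np2_val, MR.e1_val, MR.e2_val, NumUs.E.val, NumIs.E.val, NumIs.lkR] at hp
    push_cast at hp
    try simp only [div_one] at hp
    exfalso
    linarith only [c1, hp]

/-- 97 boxes -/
theorem P1Z {x T s k : ℝ} (a0 : 5600 / 10000 ≤ x) (b0 : x ≤ 7500 / 10000) (a1 : -180 / 10000 ≤ T) (b1 : T ≤ 985 / 10000)
    (a2 : 8800 / 10000 ≤ s) (b2 : s ≤ 9700 / 10000) (a3 : -1110 / 10000 ≤ k) (b3 : k ≤ 1870 /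
    10000) (c0 : ((k - (tt T x)) + T) - (187 / 1000) ≤ 0) (c1 : (-(k - (tt T x))) - (93 / 1000) ≤
    0) (c2 : (k - (tt T x)) - (145 / 1000) ≤ 0) (c3 : (k - (tt T x)) - ((907 / 1000) * (s - x)) ≤
    0) :
    0 < ((fZ x T) - (p1 T x s k)) := by
  have h : chkT [(emb (NumIs.E.sub (nfZ (.var 0) (.var 1)) np1)), (sub (add (sub (var 3) (et (var 0) (var
      1))) (var 1)) (q 187 1000)), (sub (neg (sub (var 3) (et (var 0) (var 1)))) (q 93 1000)),
      (sub (sub (var 3) (et (var 0) (var 1))) (q 145 1000)), (sub (sub (var 3) (et (var 0) (var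
      1))) (mul (q 907 1000) (sub (var 2) (var 0))))] 18
      14770161918062775091823673253891137539104211922172577586490175470023089994434400269819108006431866432395960423851202318085684082672276667658363996655515998728709334465222149977940708175248714696750926213267931042447371907272716354339
      [V.of 10000 5600 7500 16, V.of 10000 (-180) 985 16, V.of 10000 8800 9700 16, V.of 10000
        (-1110) 1870 16] = true := by
    decide +kernel
  obtain ⟨f, hf, hp⟩ := chkT4 h (by norm_num) (x := x) (y := T) (z := s) (w := k)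
    (le_trans (by norm_num) a0) (le_trans b0 (by norm_num))
    (le_trans (by norm_num) a1) (le_trans b1 (by norm_num))
    (le_trans (by norm_num) a2) (le_trans b2 (by norm_num))
    (le_trans (by norm_num) a3) (le_trans b3 (by norm_num))
  simp only [List.mem_cons, List.not_mem_nil, or_false] at hf
  rcases hf with rfl | rfl | rfl | rfl | rfl
  · simp only [eg1_val, eg2_val, eF1_val, eG1_val, eF3_val, et_val, nt_val, nm_val, nfZ_val, nfP_val, np1_val,
      np2_val, MR.e1_val, MR.e2_val, NumUs.E.val, NumIs.E.val, NumIs.lkR] at hp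
    push_cast at hp
    try simp only [div_one] at hp
    linarith only [hp]
  · simp only [eg1_val, eg2_val, eF1_val, eG1_val, eF3_val, et_val, nt_val, nm_val, nfZ_val, nfP_val, np1_val,
      np2_val, MR.e1_val, MR.e2_val, NumUs.E.val, NumIs.E.val, NumIs.lkR] at hp
    push_cast at hp
    try simp only [div_one] at hp
    exfalso
    linarith only [c0, hp]
  · simp only [eg1_val, eg2_val, eF1_val, eG1_val, eF3_val, et_val, nt_val, nm_val, nfZ_val, nfP_val, np1_val,
      np2_val, MR.e1_val, MR.e2_val, NumUs.E.val, NumIs.E.val, NumIs.lkR] at hp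
    push_cast at hp
    try simp only [div_one] at hp
    exfalso
    linarith only [c1, hp]
  · simp only [eg1_val, eg2_val, eF1_val, eG1_val, eF3_val, et_val, nt_val, nm_val, nfZ_val, nfP_val, np1_val,
      np2_val, MR.e1_val, MR.e2_val, NumUs.E.val, NumIs.E.val, NumIs.lkR] at hp
    push_cast at hp
    try simp only [div_one] at hp
    exfalso
    linarith only [c2, hp]
  · simp only [eg1_val, eg2_val, eF1_val, eG1_val, eF3_val, et_val, nt_val, nm_val, nfZ_val, nfP_val, np1_val,
      np2_val, MR.e1_val, MR.e2_val, NumUs.E.val, NumIs.E.val, NumIs.lkR] at hp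
    push_cast at hp
    try simp only [div_one] at hp
    exfalso
    linarith only [c3, hp]

/-- 15 boxes -/
theorem D1Pa {x T s k : ℝ} (a0 : 5350 / 10000 ≤ x) (b0 : x ≤ 5600 / 10000) (a1 : -180 / 10000 ≤ T) (b1 : T ≤ 985 / 10000)
    (a2 : 700 / 10000 ≤ s) (b2 : s ≤ 1300 / 10000) (a3 : -806 / 10000 ≤ k) (b3 : k ≤ 940 / 10000)
    (c0 : (T + (((100 / 13) * k) * s)) - (148 / 1000) ≤ 0) :
    0 < ((fP x T) - (MR.s1 (mm T) x (tt T x) s (((100 / 13) * k) * s))) := by
  have h : chkT [(emb (NumIs.E.sub (nfP (.var 0) (.var 1)) (MR.e1 (nm (.var 1)) (.var 0) (nt (.var 0) (.var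
      1)) (.var 2) (.mul (.mul (.q 100 13) (.var 3)) (.var 2))))), (sub (add (var 1) (mul (mul (q
      100 13) (var 3)) (var 2))) (q 148 1000))] 18
      44185509155884683869026132309411859
      [V.of 10000 5350 5600 16, V.of 10000 (-180) 985 16, V.of 10000 700 1300 16, V.of 10000
        (-806) 940 16] = true := by
    decide +kernel
  obtain ⟨f, hf, hp⟩ := chkT4 h (by norm_num) (x := x) (y := T) (z := s) (w := k)
    (le_trans (by norm_num) a0) (le_trans b0 (by norm_num))
    (le_trans (by norm_num) a1) (le_trans b1 (by norm_num))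
    (le_trans (by norm_num) a2) (le_trans b2 (by norm_num))
    (le_trans (by norm_num) a3) (le_trans b3 (by norm_num))
  simp only [List.mem_cons, List.not_mem_nil, or_false] at hf
  rcases hf with rfl | rfl
  · simp only [eg1_val, eg2_val, eF1_val, eG1_val, eF3_val, et_val, nt_val, nm_val, nfZ_val, nfP_val, np1_val,
      np2_val, MR.e1_val, MR.e2_val, NumUs.E.val, NumIs.E.val, NumIs.lkR] at hp
    push_cast at hp
    try simp only [div_one] at hp
    linarith only [hp]
  · simp only [eg1_val, eg2_val, eF1_val, eG1_val, eF3_val, et_val, nt_val, nm_val, nfZ_val, nfP_val, np1_val,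
      np2_val, MR.e1_val, MR.e2_val, NumUs.E.val, NumIs.E.val, NumIs.lkR] at hp
    push_cast at hp
    try simp only [div_one] at hp
    exfalso
    linarith only [c0, hp]

/-- 26 boxes -/
theorem D1Pb {x T s k : ℝ} (a0 : 5350 / 10000 ≤ x) (b0 : x ≤ 5600 / 10000) (a1 : -180 / 10000 ≤ T) (b1 : T ≤ 985 / 10000)
    (a2 : 1300 / 10000 ≤ s) (b2 : s ≤ 3450 / 10000) (a3 : -930 / 10000 ≤ k) (b3 : k ≤ 940 / 10000)
    (c0 : (T + k) - (148 / 1000) ≤ 0) (c1 : (-k) - ((620 / 1000) * s) ≤ 0) (c2 : (x + s) - (88 /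
    100) ≤ 0) :
    0 < ((fP x T) - (MR.s1 (mm T) x (tt T x) s k)) := by
  have h : chkT [(emb (NumIs.E.sub (nfP (.var 0) (.var 1)) (MR.e1 (nm (.var 1)) (.var 0) (nt (.var 0) (.var
      1)) (.var 2) (.var 3)))), (sub (add (var 1) (var 3)) (q 148 1000)), (sub (neg (var 3)) (mul
      (q 620 1000) (var 2))), (sub (add (var 0) (var 2)) (q 88 100))] 18
      13681144135884282679767111356818965882659627271997868193906994
      [V.of 10000 5350 5600 16, V.of 10000 (-180) 985 16, V.of 10000 1300 3450 16, V.of 10000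
        (-930) 940 16] = true := by
    decide +kernel
  obtain ⟨f, hf, hp⟩ := chkT4 h (by norm_num) (x := x) (y := T) (z := s) (w := k)
    (le_trans (by norm_num) a0) (le_trans b0 (by norm_num))
    (le_trans (by norm_num) a1) (le_trans b1 (by norm_num))
    (le_trans (by norm_num) a2) (le_trans b2 (by norm_num))
    (le_trans (by norm_num) a3) (le_trans b3 (by norm_num))
  simp only [List.mem_cons, List.not_mem_nil, or_false] at hf
  rcases hf with rfl | rfl | rfl | rfl
  · simp only [eg1_val, eg2_val, eF1_val, eG1_val, eF3_val, et_val, nt_val, nm_val, nfZ_val, nfP_val, np1_val,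
      np2_val, MR.e1_val, MR.e2_val, NumUs.E.val, NumIs.E.val, NumIs.lkR] at hp
    push_cast at hp
    try simp only [div_one] at hp
    linarith only [hp]
  · simp only [eg1_val, eg2_val, eF1_val, eG1_val, eF3_val, et_val, nt_val, nm_val, nfZ_val, nfP_val, np1_val,
      np2_val, MR.e1_val, MR.e2_val, NumUs.E.val, NumIs.E.val, NumIs.lkR] at hp
    push_cast at hp
    try simp only [div_one] at hp
    exfalso
    linarith only [c0, hp]
  · simp only [eg1_val, eg2_val, eF1_val, eG1_val, eF3_val, et_val, nt_val, nm_val, nfZ_val, nfP_val, np1_val,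
      np2_val, MR.e1_val, MR.e2_val, NumUs.E.val, NumIs.E.val, NumIs.lkR] at hp
    push_cast at hp
    try simp only [div_one] at hp
    exfalso
    linarith only [c1, hp]
  · simp only [eg1_val, eg2_val, eF1_val, eG1_val, eF3_val, et_val, nt_val, nm_val, nfZ_val, nfP_val, np1_val,
      np2_val, MR.e1_val, MR.e2_val, NumUs.E.val, NumIs.E.val, NumIs.lkR] at hp
    push_cast at hp
    try simp only [div_one] at hp
    exfalso
    linarith only [c2, hp]

/-- 12 boxes -/
theorem P1P {x T s k : ℝ} (a0 : 5350 / 10000 ≤ x) (b0 : x ≤ 5600 / 10000) (a1 : -180 / 10000 ≤ T) (b1 : T ≤ 985 / 10000)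
    (a2 : 8800 / 10000 ≤ s) (b2 : s ≤ 9700 / 10000) (a3 : -1110 / 10000 ≤ k) (b3 : k ≤ 1480 /
    10000) (c0 : ((k - (tt T x)) + T) - (148 / 1000) ≤ 0) (c1 : (-(k - (tt T x))) - (93 / 1000) ≤
    0) (c2 : (k - (tt T x)) - (94 / 1000) ≤ 0) :
    0 < ((fP x T) - (p1 T x s k)) := by
  have h : chkT [(emb (NumIs.E.sub (nfP (.var 0) (.var 1)) np1)), (sub (add (sub (var 3) (et (var 0) (var
      1))) (var 1)) (q 148 1000)), (sub (neg (sub (var 3) (et (var 0) (var 1)))) (q 93 1000)),
      (sub (sub (var 3) (et (var 0) (var 1))) (q 94 1000))] 18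
      2632474701742317793533507634
      [V.of 10000 5350 5600 16, V.of 10000 (-180) 985 16, V.of 10000 8800 9700 16, V.of 10000
        (-1110) 1480 16] = true := by
    decide +kernel
  obtain ⟨f, hf, hp⟩ := chkT4 h (by norm_num) (x := x) (y := T) (z := s) (w := k)
    (le_trans (by norm_num) a0) (le_trans b0 (by norm_num))
    (le_trans (by norm_num) a1) (le_trans b1 (by norm_num))
    (le_trans (by norm_num) a2) (le_trans b2 (by norm_num))
    (le_trans (by norm_num) a3) (le_trans b3 (by norm_num))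
  simp only [List.mem_cons, List.not_mem_nil, or_false] at hf
  rcases hf with rfl | rfl | rfl | rfl
  · simp only [eg1_val, eg2_val, eF1_val, eG1_val, eF3_val, et_val, nt_val, nm_val, nfZ_val, nfP_val, np1_val,
      np2_val, MR.e1_val, MR.e2_val, NumUs.E.val, NumIs.E.val, NumIs.lkR] at hp
    push_cast at hp
    try simp only [div_one] at hp
    linarith only [hp]
  · simp only [eg1_val, eg2_val, eF1_val, eG1_val, eF3_val, et_val, nt_val, nm_val, nfZ_val, nfP_val, np1_val,
      np2_val, MR.e1_val, MR.e2_val, NumUs.E.val, NumIs.E.val, NumIs.lkR] at hp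
    push_cast at hp
    try simp only [div_one] at hp
    exfalso
    linarith only [c0, hp]
  · simp only [eg1_val, eg2_val, eF1_val, eG1_val, eF3_val, et_val, nt_val, nm_val, nfZ_val, nfP_val, np1_val,
      np2_val, MR.e1_val, MR.e2_val, NumUs.E.val, NumIs.E.val, NumIs.lkR] at hp
    push_cast at hp
    try simp only [div_one] at hp
    exfalso
    linarith only [c1, hp]
  · simp only [eg1_val, eg2_val, eF1_val, eG1_val, eF3_val, et_val, nt_val, nm_val, nfZ_val, nfP_val, np1_val,
      np2_val, MR.e1_val, MR.e2_val, NumUs.E.val, NumIs.E.val, NumIs.lkR] at hp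
    push_cast at hp
    try simp only [div_one] at hp
    exfalso
    linarith only [c2, hp]

/-- 84 boxes -/
theorem D2Za {x T s k : ℝ} (a0 : 5600 / 10000 ≤ x) (b0 : x ≤ 7500 / 10000) (a1 : -180 / 10000 ≤ T) (b1 : T ≤ 985 / 10000)
    (a2 : 700 / 10000 ≤ s) (b2 : s ≤ 1250 / 10000) (a3 : -1075 / 10000 ≤ k) (b3 : k ≤ 960 / 10000)
    :
    0 < (-((fZ x T) + (MR.s2 (-(mm T)) x (-(tt T x)) s ((8 * k) * s)))) := by
  have h : chkT [(emb (NumIs.E.neg (NumIs.E.add (nfZ (.var 0) (.var 1)) (MR.e2 (NumIs.E.neg (nm (.var 1)))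
      (.var 0) (NumIs.E.neg (nt (.var 0) (.var 1))) (.var 2) (.mul (.mul (.q 8 1) (.var 3)) (.var
      2))))))] 18
      651082066781625611602767207620952141227456885591462601056624847937061964336464073881743255445896175330545986012488074690521215544198122968205930912319418019660291965404995965163847745200130984903192624
      [V.of 10000 5600 7500 16, V.of 10000 (-180) 985 16, V.of 10000 700 1250 16, V.of 10000
        (-1075) 960 16] = true := by
    decide +kernel
  obtain ⟨f, hf, hp⟩ := chkT4 h (by norm_num) (x := x) (y := T) (z := s) (w := k)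
    (le_trans (by norm_num) a0) (le_trans b0 (by norm_num))
    (le_trans (by norm_num) a1) (le_trans b1 (by norm_num))
    (le_trans (by norm_num) a2) (le_trans b2 (by norm_num))
    (le_trans (by norm_num) a3) (le_trans b3 (by norm_num))
  simp only [List.mem_cons, List.not_mem_nil, or_false] at hf
  subst hf
  simp only [eg1_val, eg2_val, eF1_val, eG1_val, eF3_val, et_val, nt_val, nm_val, nfZ_val, nfP_val, np1_val,
    np2_val, MR.e1_val, MR.e2_val, NumUs.E.val, NumIs.E.val, NumIs.lkR] at hp
  push_cast at hp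
  try simp only [div_one] at hp
  linarith only [hp]

/-- 193 boxes -/
theorem D2Zb {x T s k : ℝ} (a0 : 5600 / 10000 ≤ x) (b0 : x ≤ 7500 / 10000) (a1 : -180 / 10000 ≤ T) (b1 : T ≤ 985 / 10000)
    (a2 : 1250 / 10000 ≤ s) (b2 : s ≤ 3200 / 10000) (a3 : -985 / 10000 ≤ k) (b3 : k ≤ 960 / 10000)
    (c0 : (x + s) - (88 / 100) ≤ 0) :
    0 < (-((fZ x T) + (MR.s2 (-(mm T)) x (-(tt T x)) s k))) := by
  have h : chkT [(emb (NumIs.E.neg (NumIs.E.add (nfZ (.var 0) (.var 1)) (MR.e2 (NumIs.E.neg (nm (.var 1)))
      (.var 0) (NumIs.E.neg (nt (.var 0) (.var 1))) (.var 2) (.var 3))))), (sub (add (var 0) (var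
      2)) (q 88 100))] 18
      23138959059400605402769329600112613809003693776773340298858587284230405942556254727784360316722312572811341581583878725759028802718183849857246644827567773141958915372554594264828513578831136079464877348244464264173277015320745963810660083557464698996674510107417654352214760799677577430893887593972876429308652719492927415851213610653321820444132581038868119683580373551123234045318741879163760522620238130311764671059772918091071280491495181600563302430776897538
      [V.of 10000 5600 7500 16, V.of 10000 (-180) 985 16, V.of 10000 1250 3200 16, V.of 10000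
        (-985) 960 16] = true := by
    decide +kernel
  obtain ⟨f, hf, hp⟩ := chkT4 h (by norm_num) (x := x) (y := T) (z := s) (w := k)
    (le_trans (by norm_num) a0) (le_trans b0 (by norm_num))
    (le_trans (by norm_num) a1) (le_trans b1 (by norm_num))
    (le_trans (by norm_num) a2) (le_trans b2 (by norm_num))
    (le_trans (by norm_num) a3) (le_trans b3 (by norm_num))
  simp only [List.mem_cons, List.not_mem_nil, or_false] at hf
  rcases hf with rfl | rfl
  · simp only [eg1_val, eg2_val, eF1_val, eG1_val, eF3_val, et_val, nt_val, nm_val, nfZ_val, nfP_val, np1_val,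
      np2_val, MR.e1_val, MR.e2_val, NumUs.E.val, NumIs.E.val, NumIs.lkR] at hp
    push_cast at hp
    try simp only [div_one] at hp
    linarith only [hp]
  · simp only [eg1_val, eg2_val, eF1_val, eG1_val, eF3_val, et_val, nt_val, nm_val, nfZ_val, nfP_val, np1_val,
      np2_val, MR.e1_val, MR.e2_val, NumUs.E.val, NumIs.E.val, NumIs.lkR] at hp
    push_cast at hp
    try simp only [div_one] at hp
    exfalso
    linarith only [c0, hp]

/-- 76 boxes -/
theorem P2Z {x T s k : ℝ} (a0 : 5600 / 10000 ≤ x) (b0 : x ≤ 7500 / 10000) (a1 : -180 / 10000 ≤ T) (b1 : T ≤ 985 / 10000)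
    (a2 : 8800 / 10000 ≤ s) (b2 : s ≤ 9700 / 10000) (a3 : -1900 / 10000 ≤ k) (b3 : k ≤ 1150 /
    10000) (c0 : (-(k + (tt T x))) - (99 / 1000) ≤ 0) (c1 : (k + (tt T x)) - (96 / 1000) ≤ 0) :
    0 < (-((fZ x T) + (p2 T x s k))) := by
  have h : chkT [(emb (NumIs.E.neg (NumIs.E.add (nfZ (.var 0) (.var 1)) np2))), (sub (neg (add (var 3) (et
      (var 0) (var 1)))) (q 99 1000)), (sub (add (var 3) (et (var 0) (var 1))) (q 96 1000))] 18
      44097220035193010051115060647385554402851278412766394273811801732489858213779256734904747199689105118561456598465965734247946468849364529344914136402545225100882865155350229145911347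
      [V.of 10000 5600 7500 16, V.of 10000 (-180) 985 16, V.of 10000 8800 9700 16, V.of 10000
        (-1900) 1150 16] = true := by
    decide +kernel
  obtain ⟨f, hf, hp⟩ := chkT4 h (by norm_num) (x := x) (y := T) (z := s) (w := k)
    (le_trans (by norm_num) a0) (le_trans b0 (by norm_num))
    (le_trans (by norm_num) a1) (le_trans b1 (by norm_num))
    (le_trans (by norm_num) a2) (le_trans b2 (by norm_num))
    (le_trans (by norm_num) a3) (le_trans b3 (by norm_num))
  simp only [List.mem_cons, List.not_mem_nil, or_false] at hf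
  rcases hf with rfl | rfl | rfl
  · simp only [eg1_val, eg2_val, eF1_val, eG1_val, eF3_val, et_val, nt_val, nm_val, nfZ_val, nfP_val, np1_val,
      np2_val, MR.e1_val, MR.e2_val, NumUs.E.val, NumIs.E.val, NumIs.lkR] at hp
    push_cast at hp
    try simp only [div_one] at hp
    linarith only [hp]
  · simp only [eg1_val, eg2_val, eF1_val, eG1_val, eF3_val, et_val, nt_val, nm_val, nfZ_val, nfP_val, np1_val,
      np2_val, MR.e1_val, MR.e2_val, NumUs.E.val, NumIs.E.val, NumIs.lkR] at hp
    push_cast at hp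
    try simp only [div_one] at hp
    exfalso
    linarith only [c0, hp]
  · simp only [eg1_val, eg2_val, eF1_val, eG1_val, eF3_val, et_val, nt_val, nm_val, nfZ_val, nfP_val, np1_val,
      np2_val, MR.e1_val, MR.e2_val, NumUs.E.val, NumIs.E.val, NumIs.lkR] at hp
    push_cast at hp
    try simp only [div_one] at hp
    exfalso
    linarith only [c1, hp]

/-- 9 boxes -/
theorem D2Pa {x T s k : ℝ} (a0 : 5350 / 10000 ≤ x) (b0 : x ≤ 5600 / 10000) (a1 : -180 / 10000 ≤ T) (b1 : T ≤ 985 / 10000)
    (a2 : 700 / 10000 ≤ s) (b2 : s ≤ 1250 / 10000) (a3 : -1075 / 10000 ≤ k) (b3 : k ≤ 960 / 10000)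
    :
    0 < (-((fP x T) + (MR.s2 (-(mm T)) x (-(tt T x)) s ((8 * k) * s)))) := by
  have h : chkT [(emb (NumIs.E.neg (NumIs.E.add (nfP (.var 0) (.var 1)) (MR.e2 (NumIs.E.neg (nm (.var 1)))
      (.var 0) (NumIs.E.neg (nt (.var 0) (.var 1))) (.var 2) (.mul (.mul (.q 8 1) (.var 3)) (.var
      2))))))] 18
      156978462782875863059
      [V.of 10000 5350 5600 16, V.of 10000 (-180) 985 16, V.of 10000 700 1250 16, V.of 10000
        (-1075) 960 16] = true := by
    decide +kernel
  obtain ⟨f, hf, hp⟩ := chkT4 h (by norm_num) (x := x) (y := T) (z := s) (w := k)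
    (le_trans (by norm_num) a0) (le_trans b0 (by norm_num))
    (le_trans (by norm_num) a1) (le_trans b1 (by norm_num))
    (le_trans (by norm_num) a2) (le_trans b2 (by norm_num))
    (le_trans (by norm_num) a3) (le_trans b3 (by norm_num))
  simp only [List.mem_cons, List.not_mem_nil, or_false] at hf
  subst hf
  simp only [eg1_val, eg2_val, eF1_val, eG1_val, eF3_val, et_val, nt_val, nm_val, nfZ_val, nfP_val, np1_val,
    np2_val, MR.e1_val, MR.e2_val, NumUs.E.val, NumIs.E.val, NumIs.lkR] at hp
  push_cast at hp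
  try simp only [div_one] at hp
  linarith only [hp]

/-- 31 boxes -/
theorem D2Pb {x T s k : ℝ} (a0 : 5350 / 10000 ≤ x) (b0 : x ≤ 5600 / 10000) (a1 : -180 / 10000 ≤ T) (b1 : T ≤ 985 / 10000)
    (a2 : 1250 / 10000 ≤ s) (b2 : s ≤ 3450 / 10000) (a3 : -985 / 10000 ≤ k) (b3 : k ≤ 960 / 10000)
    (c0 : (x + s) - (88 / 100) ≤ 0) :
    0 < (-((fP x T) + (MR.s2 (-(mm T)) x (-(tt T x)) s k))) := by
  have h : chkT [(emb (NumIs.E.neg (NumIs.E.add (nfP (.var 0) (.var 1)) (MR.e2 (NumIs.E.neg (nm (.var 1)))
      (.var 0) (NumIs.E.neg (nt (.var 0) (.var 1))) (.var 2) (.var 3))))), (sub (add (var 0) (var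
      2)) (q 88 100))] 18
      15035549628747533955542139233375683080239861656885451208124870726206456370
      [V.of 10000 5350 5600 16, V.of 10000 (-180) 985 16, V.of 10000 1250 3450 16, V.of 10000
        (-985) 960 16] = true := by
    decide +kernel
  obtain ⟨f, hf, hp⟩ := chkT4 h (by norm_num) (x := x) (y := T) (z := s) (w := k)
    (le_trans (by norm_num) a0) (le_trans b0 (by norm_num))
    (le_trans (by norm_num) a1) (le_trans b1 (by norm_num))
    (le_trans (by norm_num) a2) (le_trans b2 (by norm_num))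
    (le_trans (by norm_num) a3) (le_trans b3 (by norm_num))
  simp only [List.mem_cons, List.not_mem_nil, or_false] at hf
  rcases hf with rfl | rfl
  · simp only [eg1_val, eg2_val, eF1_val, eG1_val, eF3_val, et_val, nt_val, nm_val, nfZ_val, nfP_val, np1_val,
      np2_val, MR.e1_val, MR.e2_val, NumUs.E.val, NumIs.E.val, NumIs.lkR] at hp
    push_cast at hp
    try simp only [div_one] at hp
    linarith only [hp]
  · simp only [eg1_val, eg2_val, eF1_val, eG1_val, eF3_val, et_val, nt_val, nm_val, nfZ_val, nfP_val, np1_val,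
      np2_val, MR.e1_val, MR.e2_val, NumUs.E.val, NumIs.E.val, NumIs.lkR] at hp
    push_cast at hp
    try simp only [div_one] at hp
    exfalso
    linarith only [c0, hp]

/-- 18 boxes -/
theorem P2P {x T s k : ℝ} (a0 : 5350 / 10000 ≤ x) (b0 : x ≤ 5600 / 10000) (a1 : -180 / 10000 ≤ T) (b1 : T ≤ 985 / 10000)
    (a2 : 8800 / 10000 ≤ s) (b2 : s ≤ 9700 / 10000) (a3 : -1970 / 10000 ≤ k) (b3 : k ≤ 1150 /
    10000) (c0 : (-(k + (tt T x))) - (99 / 1000) ≤ 0) (c1 : (k + (tt T x)) - (96 / 1000) ≤ 0) :
    0 < (-((fP x T) + (p2 T x s k))) := by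
  have h : chkT [(emb (NumIs.E.neg (NumIs.E.add (nfP (.var 0) (.var 1)) np2))), (sub (neg (add (var 3) (et
      (var 0) (var 1)))) (q 99 1000)), (sub (add (var 3) (et (var 0) (var 1))) (q 96 1000))] 18
      915200185318150175802530769956165969782835
      [V.of 10000 5350 5600 16, V.of 10000 (-180) 985 16, V.of 10000 8800 9700 16, V.of 10000
        (-1970) 1150 16] = true := by
    decide +kernel
  obtain ⟨f, hf, hp⟩ := chkT4 h (by norm_num) (x := x) (y := T) (z := s) (w := k)
    (le_trans (by norm_num) a0) (le_trans b0 (by norm_num))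
    (le_trans (by norm_num) a1) (le_trans b1 (by norm_num))
    (le_trans (by norm_num) a2) (le_trans b2 (by norm_num))
    (le_trans (by norm_num) a3) (le_trans b3 (by norm_num))
  simp only [List.mem_cons, List.not_mem_nil, or_false] at hf
  rcases hf with rfl | rfl | rfl
  · simp only [eg1_val, eg2_val, eF1_val, eG1_val, eF3_val, et_val, nt_val, nm_val, nfZ_val, nfP_val, np1_val,
      np2_val, MR.e1_val, MR.e2_val, NumUs.E.val, NumIs.E.val, NumIs.lkR] at hp
    push_cast at hp
    try simp only [div_one] at hp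
    linarith only [hp]
  · simp only [eg1_val, eg2_val, eF1_val, eG1_val, eF3_val, et_val, nt_val, nm_val, nfZ_val, nfP_val, np1_val,
      np2_val, MR.e1_val, MR.e2_val, NumUs.E.val, NumIs.E.val, NumIs.lkR] at hp
    push_cast at hp
    try simp only [div_one] at hp
    exfalso
    linarith only [c0, hp]
  · simp only [eg1_val, eg2_val, eF1_val, eG1_val, eF3_val, et_val, nt_val, nm_val, nfZ_val, nfP_val, np1_val,
      np2_val, MR.e1_val, MR.e2_val, NumUs.E.val, NumIs.E.val, NumIs.lkR] at hp
    push_cast at hp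
    try simp only [div_one] at hp
    exfalso
    linarith only [c1, hp]

end C12

end Pool.Agent.Work.MP_b30479_gtS.G2

end

section

/-!
# The right ramp of the hinge `1 | 2`: rows

Found with `NumUs.cert`.
-/

set_option linter.unusedSimpArgs false
set_option linter.unusedTactic false
set_option linter.unusedVariables false

set_option deprecated.oldSectionVars true

namespace Pool.Agent.Work.MP_b30479_gtS.G2

namespace C12

open NumUs NumUs.E
open NumIs (V)

/-- 11 boxes -/
theorem Z1PAn {x T s k : ℝ} (a0 : 5350 / 10000 ≤ x) (b0 : x ≤ 5600 / 10000) (a1 : -180 / 10000 ≤ T) (b1 : T ≤ 985 / 10000)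
    (a2 : 5000 / 10000 ≤ s) (b2 : s ≤ 5700 / 10000) (a3 : -930 / 10000 ≤ k) (b3 : k ≤ 1450 /
    10000) (c0 : (tt T x) + k ≤ 0) (c1 : (T + k) - (148 / 1000) ≤ 0) (c2 : (106 / 100) - (x + s) ≤
    0) :
    0 < ((g1 (40 / 100) T x (tt T x) s k (uu ((40 / 100) + s) (T + k)) ((uu ((x + s) - 1) ((tt T
      x) + k)) + ((Real.pi * (-1)) * ((tt T x) + k)))) + (F1 x T)) := by
  have h : chkT [(add (eg1 (q 40 100) (var 1) (var 0) (et (var 0) (var 1)) (var 2) (var 3) (E.uu (add (q 40
      100) (var 2)) (add (var 1) (var 3))) (add (E.uu (sub (add (var 0) (var 2)) (q 1 1)) (add (et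
      (var 0) (var 1)) (var 3))) (mul (mul pi (q (-1) 1)) (add (et (var 0) (var 1)) (var 3)))))
      (eF1 (var 0) (var 1))), (add (et (var 0) (var 1)) (var 3)), (sub (add (var 1) (var 3)) (q
      148 1000)), (sub (q 106 100) (add (var 0) (var 2)))] 18
      11523026753746895359906595
      [V.of 10000 5350 5600 16, V.of 10000 (-180) 985 16, V.of 10000 5000 5700 16, V.of 10000
        (-930) 1450 16] = true := by
    decide +kernel
  obtain ⟨f, hf, hp⟩ := chkT4 h (by norm_num) (x := x) (y := T) (z := s) (w := k)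
    (le_trans (by norm_num) a0) (le_trans b0 (by norm_num))
    (le_trans (by norm_num) a1) (le_trans b1 (by norm_num))
    (le_trans (by norm_num) a2) (le_trans b2 (by norm_num))
    (le_trans (by norm_num) a3) (le_trans b3 (by norm_num))
  simp only [List.mem_cons, List.not_mem_nil, or_false] at hf
  rcases hf with rfl | rfl | rfl | rfl
  · simp only [eg1_val, eg2_val, eF1_val, eG1_val, eF3_val, et_val, nt_val, nm_val, nfZ_val, nfP_val, np1_val,
      np2_val, MR.e1_val, MR.e2_val, NumUs.E.val, NumIs.E.val, NumIs.lkR] at hp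
    push_cast at hp
    try simp only [div_one] at hp
    linarith only [hp]
  · simp only [eg1_val, eg2_val, eF1_val, eG1_val, eF3_val, et_val, nt_val, nm_val, nfZ_val, nfP_val, np1_val,
      np2_val, MR.e1_val, MR.e2_val, NumUs.E.val, NumIs.E.val, NumIs.lkR] at hp
    push_cast at hp
    try simp only [div_one] at hp
    exfalso
    linarith only [c0, hp]
  · simp only [eg1_val, eg2_val, eF1_val, eG1_val, eF3_val, et_val, nt_val, nm_val, nfZ_val, nfP_val, np1_val,
      np2_val, MR.e1_val, MR.e2_val, NumUs.E.val, NumIs.E.val, NumIs.lkR] at hp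
    push_cast at hp
    try simp only [div_one] at hp
    exfalso
    linarith only [c1, hp]
  · simp only [eg1_val, eg2_val, eF1_val, eG1_val, eF3_val, et_val, nt_val, nm_val, nfZ_val, nfP_val, np1_val,
      np2_val, MR.e1_val, MR.e2_val, NumUs.E.val, NumIs.E.val, NumIs.lkR] at hp
    push_cast at hp
    try simp only [div_one] at hp
    exfalso
    linarith only [c2, hp]

/-- 7 boxes -/
theorem Z1PBn {x T s k : ℝ} (a0 : 5350 / 10000 ≤ x) (b0 : x ≤ 5600 / 10000) (a1 : -180 / 10000 ≤ T) (b1 : T ≤ 985 / 10000)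
    (a2 : 5700 / 10000 ≤ s) (b2 : s ≤ 6300 / 10000) (a3 : -930 / 10000 ≤ k) (b3 : k ≤ 1450 /
    10000) (c0 : (tt T x) + k ≤ 0) (c1 : (T + k) - (148 / 1000) ≤ 0) (c2 : (106 / 100) - (x + s) ≤
    0) :
    0 < ((g1 (40 / 100) T x (tt T x) s k (((uu (3 / 100) (T + k)) + ((Real.pi * 1) * (T + k))) -
      ((27 / 100) * ((103 / 100) - ((40 / 100) + s)))) ((uu ((x + s) - 1) ((tt T x) + k)) +
      ((Real.pi * (-1)) * ((tt T x) + k)))) + (F1 x T)) ∨ 0 < ((g1 (40 / 100) T x (tt T x) s k
      (((uu (3 / 100) (T + k)) + ((Real.pi * (-1)) * (T + k))) - ((27 / 100) * ((103 / 100) - ((40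
      / 100) + s)))) ((uu ((x + s) - 1) ((tt T x) + k)) + ((Real.pi * (-1)) * ((tt T x) + k)))) +
      (F1 x T)) := by
  have h : chkT [(add (eg1 (q 40 100) (var 1) (var 0) (et (var 0) (var 1)) (var 2) (var 3) (sub (add (E.uu
      (q 3 100) (add (var 1) (var 3))) (mul (mul pi (q 1 1)) (add (var 1) (var 3)))) (mul (q 27
      100) (sub (q 103 100) (add (q 40 100) (var 2))))) (add (E.uu (sub (add (var 0) (var 2)) (q 1
      1)) (add (et (var 0) (var 1)) (var 3))) (mul (mul pi (q (-1) 1)) (add (et (var 0) (var 1))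
      (var 3))))) (eF1 (var 0) (var 1))), (add (eg1 (q 40 100) (var 1) (var 0) (et (var 0) (var
      1)) (var 2) (var 3) (sub (add (E.uu (q 3 100) (add (var 1) (var 3))) (mul (mul pi (q (-1)
      1)) (add (var 1) (var 3)))) (mul (q 27 100) (sub (q 103 100) (add (q 40 100) (var 2)))))
      (add (E.uu (sub (add (var 0) (var 2)) (q 1 1)) (add (et (var 0) (var 1)) (var 3))) (mul (mul
      pi (q (-1) 1)) (add (et (var 0) (var 1)) (var 3))))) (eF1 (var 0) (var 1))), (add (et (var
      0) (var 1)) (var 3)), (sub (add (var 1) (var 3)) (q 148 1000)), (sub (q 106 100) (add (var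
      0) (var 2)))] 18
      2966015186277139
      [V.of 10000 5350 5600 16, V.of 10000 (-180) 985 16, V.of 10000 5700 6300 16, V.of 10000
        (-930) 1450 16] = true := by
    decide +kernel
  obtain ⟨f, hf, hp⟩ := chkT4 h (by norm_num) (x := x) (y := T) (z := s) (w := k)
    (le_trans (by norm_num) a0) (le_trans b0 (by norm_num))
    (le_trans (by norm_num) a1) (le_trans b1 (by norm_num))
    (le_trans (by norm_num) a2) (le_trans b2 (by norm_num))
    (le_trans (by norm_num) a3) (le_trans b3 (by norm_num))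
  simp only [List.mem_cons, List.not_mem_nil, or_false] at hf
  rcases hf with rfl | rfl | rfl | rfl | rfl
  · simp only [eg1_val, eg2_val, eF1_val, eG1_val, eF3_val, et_val, nt_val, nm_val, nfZ_val, nfP_val, np1_val,
      np2_val, MR.e1_val, MR.e2_val, NumUs.E.val, NumIs.E.val, NumIs.lkR] at hp
    push_cast at hp
    try simp only [div_one] at hp
    left
    linarith only [hp]
  · simp only [eg1_val, eg2_val, eF1_val, eG1_val, eF3_val, et_val, nt_val, nm_val, nfZ_val, nfP_val, np1_val,
      np2_val, MR.e1_val, MR.e2_val, NumUs.E.val, NumIs.E.val, NumIs.lkR] at hp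
    push_cast at hp
    try simp only [div_one] at hp
    right
    linarith only [hp]
  · simp only [eg1_val, eg2_val, eF1_val, eG1_val, eF3_val, et_val, nt_val, nm_val, nfZ_val, nfP_val, np1_val,
      np2_val, MR.e1_val, MR.e2_val, NumUs.E.val, NumIs.E.val, NumIs.lkR] at hp
    push_cast at hp
    try simp only [div_one] at hp
    exfalso
    linarith only [c0, hp]
  · simp only [eg1_val, eg2_val, eF1_val, eG1_val, eF3_val, et_val, nt_val, nm_val, nfZ_val, nfP_val, np1_val,
      np2_val, MR.e1_val, MR.e2_val, NumUs.E.val, NumIs.E.val, NumIs.lkR] at hp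
    push_cast at hp
    try simp only [div_one] at hp
    exfalso
    linarith only [c1, hp]
  · simp only [eg1_val, eg2_val, eF1_val, eG1_val, eF3_val, et_val, nt_val, nm_val, nfZ_val, nfP_val, np1_val,
      np2_val, MR.e1_val, MR.e2_val, NumUs.E.val, NumIs.E.val, NumIs.lkR] at hp
    push_cast at hp
    try simp only [div_one] at hp
    exfalso
    linarith only [a0, a2, hp]

/-- 22 boxes -/
theorem Z1PCp {x T s k : ℝ} (a0 : 5350 / 10000 ≤ x) (b0 : x ≤ 5600 / 10000) (a1 : -180 / 10000 ≤ T) (b1 : T ≤ 985 / 10000)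
    (a2 : 6300 / 10000 ≤ s) (b2 : s ≤ 7000 / 10000) (a3 : -930 / 10000 ≤ k) (b3 : k ≤ 940 / 10000)
    (c0 : -((tt T x) + k) ≤ 0) (c1 : (T + k) - (148 / 1000) ≤ 0) (c2 : (106 / 100) - (x + s) ≤ 0)
    :
    0 < ((g1 (40 / 100) T x (tt T x) s k ((uu (((40 / 100) + s) - 1) (T + k)) + ((Real.pi * 1) *
      (T + k))) ((uu ((x + s) - 1) ((tt T x) + k)) + ((Real.pi * 1) * ((tt T x) + k)))) + (F1 x
      T)) ∨ 0 < ((g1 (40 / 100) T x (tt T x) s k ((uu (((40 / 100) + s) - 1) (T + k)) + ((Real.pi
      * (-1)) * (T + k))) ((uu ((x + s) - 1) ((tt T x) + k)) + ((Real.pi * 1) * ((tt T x) + k))))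
      + (F1 x T)) := by
  have h : chkT [(add (eg1 (q 40 100) (var 1) (var 0) (et (var 0) (var 1)) (var 2) (var 3) (add (E.uu (sub
      (add (q 40 100) (var 2)) (q 1 1)) (add (var 1) (var 3))) (mul (mul pi (q 1 1)) (add (var 1)
      (var 3)))) (add (E.uu (sub (add (var 0) (var 2)) (q 1 1)) (add (et (var 0) (var 1)) (var
      3))) (mul (mul pi (q 1 1)) (add (et (var 0) (var 1)) (var 3))))) (eF1 (var 0) (var 1))),
      (add (eg1 (q 40 100) (var 1) (var 0) (et (var 0) (var 1)) (var 2) (var 3) (add (E.uu (sub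
      (add (q 40 100) (var 2)) (q 1 1)) (add (var 1) (var 3))) (mul (mul pi (q (-1) 1)) (add (var
      1) (var 3)))) (add (E.uu (sub (add (var 0) (var 2)) (q 1 1)) (add (et (var 0) (var 1)) (var
      3))) (mul (mul pi (q 1 1)) (add (et (var 0) (var 1)) (var 3))))) (eF1 (var 0) (var 1))),
      (neg (add (et (var 0) (var 1)) (var 3))), (sub (add (var 1) (var 3)) (q 148 1000)), (sub (q
      106 100) (add (var 0) (var 2)))] 18
      3185389594683404246558270410984153768399635504181539
      [V.of 10000 5350 5600 16, V.of 10000 (-180) 985 16, V.of 10000 6300 7000 16, V.of 10000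
        (-930) 940 16] = true := by
    decide +kernel
  obtain ⟨f, hf, hp⟩ := chkT4 h (by norm_num) (x := x) (y := T) (z := s) (w := k)
    (le_trans (by norm_num) a0) (le_trans b0 (by norm_num))
    (le_trans (by norm_num) a1) (le_trans b1 (by norm_num))
    (le_trans (by norm_num) a2) (le_trans b2 (by norm_num))
    (le_trans (by norm_num) a3) (le_trans b3 (by norm_num))
  simp only [List.mem_cons, List.not_mem_nil, or_false] at hf
  rcases hf with rfl | rfl | rfl | rfl | rfl
  · simp only [eg1_val, eg2_val, eF1_val, eG1_val, eF3_val, et_val, nt_val, nm_val, nfZ_val, nfP_val, np1_val,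
      np2_val, MR.e1_val, MR.e2_val, NumUs.E.val, NumIs.E.val, NumIs.lkR] at hp
    push_cast at hp
    try simp only [div_one] at hp
    left
    linarith only [hp]
  · simp only [eg1_val, eg2_val, eF1_val, eG1_val, eF3_val, et_val, nt_val, nm_val, nfZ_val, nfP_val, np1_val,
      np2_val, MR.e1_val, MR.e2_val, NumUs.E.val, NumIs.E.val, NumIs.lkR] at hp
    push_cast at hp
    try simp only [div_one] at hp
    right
    linarith only [hp]
  · simp only [eg1_val, eg2_val, eF1_val, eG1_val, eF3_val, et_val, nt_val, nm_val, nfZ_val, nfP_val, np1_val,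
      np2_val, MR.e1_val, MR.e2_val, NumUs.E.val, NumIs.E.val, NumIs.lkR] at hp
    push_cast at hp
    try simp only [div_one] at hp
    exfalso
    linarith only [c0, hp]
  · simp only [eg1_val, eg2_val, eF1_val, eG1_val, eF3_val, et_val, nt_val, nm_val, nfZ_val, nfP_val, np1_val,
      np2_val, MR.e1_val, MR.e2_val, NumUs.E.val, NumIs.E.val, NumIs.lkR] at hp
    push_cast at hp
    try simp only [div_one] at hp
    exfalso
    linarith only [c1, hp]
  · simp only [eg1_val, eg2_val, eF1_val, eG1_val, eF3_val, et_val, nt_val, nm_val, nfZ_val, nfP_val, np1_val,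
      np2_val, MR.e1_val, MR.e2_val, NumUs.E.val, NumIs.E.val, NumIs.lkR] at hp
    push_cast at hp
    try simp only [div_one] at hp
    exfalso
    linarith only [a0, a2, hp]

/-- 13 boxes -/
theorem Z1PCn {x T s k : ℝ} (a0 : 5350 / 10000 ≤ x) (b0 : x ≤ 5600 / 10000) (a1 : -180 / 10000 ≤ T) (b1 : T ≤ 985 / 10000)
    (a2 : 6300 / 10000 ≤ s) (b2 : s ≤ 7000 / 10000) (a3 : -930 / 10000 ≤ k) (b3 : k ≤ 940 / 10000)
    (c0 : (tt T x) + k ≤ 0) (c1 : (T + k) - (148 / 1000) ≤ 0) (c2 : (106 / 100) - (x + s) ≤ 0) :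
    0 < ((g1 (40 / 100) T x (tt T x) s k ((uu (((40 / 100) + s) - 1) (T + k)) + ((Real.pi * 1) *
      (T + k))) ((uu ((x + s) - 1) ((tt T x) + k)) + ((Real.pi * (-1)) * ((tt T x) + k)))) + (F1 x
      T)) ∨ 0 < ((g1 (40 / 100) T x (tt T x) s k ((uu (((40 / 100) + s) - 1) (T + k)) + ((Real.pi
      * (-1)) * (T + k))) ((uu ((x + s) - 1) ((tt T x) + k)) + ((Real.pi * (-1)) * ((tt T x) +
      k)))) + (F1 x T)) := by
  have h : chkT [(add (eg1 (q 40 100) (var 1) (var 0) (et (var 0) (var 1)) (var 2) (var 3) (add (E.uu (sub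
      (add (q 40 100) (var 2)) (q 1 1)) (add (var 1) (var 3))) (mul (mul pi (q 1 1)) (add (var 1)
      (var 3)))) (add (E.uu (sub (add (var 0) (var 2)) (q 1 1)) (add (et (var 0) (var 1)) (var
      3))) (mul (mul pi (q (-1) 1)) (add (et (var 0) (var 1)) (var 3))))) (eF1 (var 0) (var 1))),
      (add (eg1 (q 40 100) (var 1) (var 0) (et (var 0) (var 1)) (var 2) (var 3) (add (E.uu (sub
      (add (q 40 100) (var 2)) (q 1 1)) (add (var 1) (var 3))) (mul (mul pi (q (-1) 1)) (add (var
      1) (var 3)))) (add (E.uu (sub (add (var 0) (var 2)) (q 1 1)) (add (et (var 0) (var 1)) (var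
      3))) (mul (mul pi (q (-1) 1)) (add (et (var 0) (var 1)) (var 3))))) (eF1 (var 0) (var 1))),
      (add (et (var 0) (var 1)) (var 3)), (sub (add (var 1) (var 3)) (q 148 1000)), (sub (q 106
      100) (add (var 0) (var 2)))] 18
      676091202993480744750806544675
      [V.of 10000 5350 5600 16, V.of 10000 (-180) 985 16, V.of 10000 6300 7000 16, V.of 10000
        (-930) 940 16] = true := by
    decide +kernel
  obtain ⟨f, hf, hp⟩ := chkT4 h (by norm_num) (x := x) (y := T) (z := s) (w := k)
    (le_trans (by norm_num) a0) (le_trans b0 (by norm_num))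
    (le_trans (by norm_num) a1) (le_trans b1 (by norm_num))
    (le_trans (by norm_num) a2) (le_trans b2 (by norm_num))
    (le_trans (by norm_num) a3) (le_trans b3 (by norm_num))
  simp only [List.mem_cons, List.not_mem_nil, or_false] at hf
  rcases hf with rfl | rfl | rfl | rfl | rfl
  · simp only [eg1_val, eg2_val, eF1_val, eG1_val, eF3_val, et_val, nt_val, nm_val, nfZ_val, nfP_val, np1_val,
      np2_val, MR.e1_val, MR.e2_val, NumUs.E.val, NumIs.E.val, NumIs.lkR] at hp
    push_cast at hp
    try simp only [div_one] at hp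
    left
    linarith only [hp]
  · simp only [eg1_val, eg2_val, eF1_val, eG1_val, eF3_val, et_val, nt_val, nm_val, nfZ_val, nfP_val, np1_val,
      np2_val, MR.e1_val, MR.e2_val, NumUs.E.val, NumIs.E.val, NumIs.lkR] at hp
    push_cast at hp
    try simp only [div_one] at hp
    right
    linarith only [hp]
  · simp only [eg1_val, eg2_val, eF1_val, eG1_val, eF3_val, et_val, nt_val, nm_val, nfZ_val, nfP_val, np1_val,
      np2_val, MR.e1_val, MR.e2_val, NumUs.E.val, NumIs.E.val, NumIs.lkR] at hp
    push_cast at hp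
    try simp only [div_one] at hp
    exfalso
    linarith only [c0, hp]
  · simp only [eg1_val, eg2_val, eF1_val, eG1_val, eF3_val, et_val, nt_val, nm_val, nfZ_val, nfP_val, np1_val,
      np2_val, MR.e1_val, MR.e2_val, NumUs.E.val, NumIs.E.val, NumIs.lkR] at hp
    push_cast at hp
    try simp only [div_one] at hp
    exfalso
    linarith only [c1, hp]
  · simp only [eg1_val, eg2_val, eF1_val, eG1_val, eF3_val, et_val, nt_val, nm_val, nfZ_val, nfP_val, np1_val,
      np2_val, MR.e1_val, MR.e2_val, NumUs.E.val, NumIs.E.val, NumIs.lkR] at hp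
    push_cast at hp
    try simp only [div_one] at hp
    exfalso
    linarith only [a0, a2, hp]

end C12

end Pool.Agent.Work.MP_b30479_gtS.G2

end

section

/-!
# Part of `C12R3`
-/
set_option linter.unusedSimpArgs false
set_option linter.unusedTactic false
set_option linter.unusedVariables false

set_option deprecated.oldSectionVars true

namespace Pool.Agent.Work.MP_b30479_gtS.G2

namespace C12

open NumUs NumUs.E
open NumIs (V)

theorem B2hi_h1_q1 : Pool.Agent.Work.NumUs.runT [(sub (eg2 (q 40 100) (var 1) (var 0) (et (var 0) (var 1)) (sub (var 2) (var 0)) (add (var 3) (et (var 0) (var 1))) (E.uu (add (q 40 100) (sub (var 2) (var 0))) (sub (add (var 3) (et (var 0) (var 1))) (var 1))) (add (E.uu (q 97 100) (var 3)) (mul (q 34 100) (sub (var 2) (q 97 100))))) (eG1 (var 0) (var 1))), (sub (neg (add (var 3) (et (var 0) (var 1)))) (q 99 1000)), (sub (add (var 3) (et (var 0) (var 1))) (q 96 1000))] 17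
    139875530824571467093301361608855450369176881264849966215458810198883041890958882383076942319121681413911031354081443879223526183616494845167547407215295121589300700978699117810529989240610771320910488001551739217888588360343389683246908098328679709306200807230067868845127034676611389920242704210339149150789776710578593206826159642790924880006849590594340135360852496338586616996674931706608456626273929459569484775616492915842752325430229490843385889444079816713328273347200567057756172660552669205251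
    (Pool.Agent.Work.NumIs.setL 0 ([V.of 10000 5350 7500 16, V.of 10000 (-180) 985 16, V.of 10000 9700 10600 16, V.of 10000 (-1980) 1150 16])) =
    58790324620349337395234583130650439597493218323443837371460379989353821070058858816175229415690454702064967655195370796190734782451510271830635239520801346984355427320339830333297948051864390485210706803811319068234500 := by
  decide +kernel

theorem B2hi_h1_q2 : Pool.Agent.Work.NumUs.runT [(sub (eg2 (q 40 100) (var 1) (var 0) (et (var 0) (var 1)) (sub (var 2) (var 0)) (add (var 3) (et (var 0) (var 1))) (E.uu (add (q 40 100) (sub (var 2) (var 0))) (sub (add (var 3) (et (var 0) (var 1))) (var 1))) (add (E.uu (q 97 100) (var 3)) (mul (q 34 100) (sub (var 2) (q 97 100))))) (eG1 (var 0) (var 1))), (sub (neg (add (var 3) (et (var 0) (var 1)))) (q 99 1000)), (sub (add (var 3) (et (var 0) (var 1))) (q 96 1000))] 17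
    58790324620349337395234583130650439597493218323443837371460379989353821070058858816175229415690454702064967655195370796190734782451510271830635239520801346984355427320339830333297948051864390485210706803811319068234499
    (Pool.Agent.Work.NumIs.setR 0 ([V.of 10000 5350 7500 16, V.of 10000 (-180) 985 16, V.of 10000 9700 10600 16, V.of 10000 (-1980) 1150 16])) =
    1 := by
  decide +kernel

end C12

end Pool.Agent.Work.MP_b30479_gtS.G2

end

section

/-!
# Part of `C12R3`
-/
set_option linter.unusedSimpArgs false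
set_option linter.unusedTactic false
set_option linter.unusedVariables false

set_option deprecated.oldSectionVars true

namespace Pool.Agent.Work.MP_b30479_gtS.G2

namespace C12

open NumUs NumUs.E
open NumIs (V)

/-- 156 boxes -/
theorem B1hi {x T s k : ℝ} (a0 : 5600 / 10000 ≤ x) (b0 : x ≤ 7500 / 10000) (a1 : -180 / 10000 ≤ T) (b1 : T ≤ 985 / 10000)
    (a2 : 9700 / 10000 ≤ s) (b2 : s ≤ 10600 / 10000) (a3 : -1110 / 10000 ≤ k) (b3 : k ≤ 1870 /
    10000) (c0 : ((k - (tt T x)) + T) - (187 / 1000) ≤ 0) (c1 : (-(k - (tt T x))) - (93 / 1000) ≤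
    0) (c2 : (k - (tt T x)) - (145 / 1000) ≤ 0) (c3 : (k - (tt T x)) - ((907 / 1000) * (s - x)) ≤
    0) :
    0 < ((g1 (40 / 100) T x (tt T x) (s - x) (k - (tt T x)) (uu ((40 / 100) + (s - x)) (T + (k -
      (tt T x)))) ((uu (97 / 100) k) + ((27 / 100) * (s - (97 / 100))))) + (F1 x T)) := by
  have h : chkT [(add (eg1 (q 40 100) (var 1) (var 0) (et (var 0) (var 1)) (sub (var 2) (var 0)) (sub (var
      3) (et (var 0) (var 1))) (E.uu (add (q 40 100) (sub (var 2) (var 0))) (add (var 1) (sub (var
      3) (et (var 0) (var 1))))) (add (E.uu (q 97 100) (var 3)) (mul (q 27 100) (sub (var 2) (q 97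
      100))))) (eF1 (var 0) (var 1))), (sub (add (sub (var 3) (et (var 0) (var 1))) (var 1)) (q
      187 1000)), (sub (neg (sub (var 3) (et (var 0) (var 1)))) (q 93 1000)), (sub (sub (var 3)
      (et (var 0) (var 1))) (q 145 1000)), (sub (sub (var 3) (et (var 0) (var 1))) (mul (q 907
      1000) (sub (var 2) (var 0))))] 28
      181672065148779239718982108883254459800858018578183377841998631730427410349922128211633749557835558693531299241456858721205888929726762550201563138208858659539582411306717383463117928529482673676270989578346899860084062286482486157963034443921488582434714560555600192024484999136990911663557771898601069381619676391332000870148118000408443816394848036269912915417987839176752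
      [V.of 10000 5600 7500 16, V.of 10000 (-180) 985 16, V.of 10000 9700 10600 16, V.of 10000
        (-1110) 1870 16] = true := by
    decide +kernel
  obtain ⟨f, hf, hp⟩ := chkT4 h (by norm_num) (x := x) (y := T) (z := s) (w := k)
    (le_trans (by norm_num) a0) (le_trans b0 (by norm_num))
    (le_trans (by norm_num) a1) (le_trans b1 (by norm_num))
    (le_trans (by norm_num) a2) (le_trans b2 (by norm_num))
    (le_trans (by norm_num) a3) (le_trans b3 (by norm_num))
  simp only [List.mem_cons, List.not_mem_nil, or_false] at hf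
  rcases hf with rfl | rfl | rfl | rfl | rfl
  · simp only [eg1_val, eg2_val, eF1_val, eG1_val, eF3_val, et_val, nt_val, nm_val, nfZ_val, nfP_val, np1_val,
      np2_val, MR.e1_val, MR.e2_val, NumUs.E.val, NumIs.E.val, NumIs.lkR] at hp
    push_cast at hp
    try simp only [div_one] at hp
    linarith only [hp]
  · simp only [eg1_val, eg2_val, eF1_val, eG1_val, eF3_val, et_val, nt_val, nm_val, nfZ_val, nfP_val, np1_val,
      np2_val, MR.e1_val, MR.e2_val, NumUs.E.val, NumIs.E.val, NumIs.lkR] at hp
    push_cast at hp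
    try simp only [div_one] at hp
    exfalso
    linarith only [c0, hp]
  · simp only [eg1_val, eg2_val, eF1_val, eG1_val, eF3_val, et_val, nt_val, nm_val, nfZ_val, nfP_val, np1_val,
      np2_val, MR.e1_val, MR.e2_val, NumUs.E.val, NumIs.E.val, NumIs.lkR] at hp
    push_cast at hp
    try simp only [div_one] at hp
    exfalso
    linarith only [c1, hp]
  · simp only [eg1_val, eg2_val, eF1_val, eG1_val, eF3_val, et_val, nt_val, nm_val, nfZ_val, nfP_val, np1_val,
      np2_val, MR.e1_val, MR.e2_val, NumUs.E.val, NumIs.E.val, NumIs.lkR] at hp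
    push_cast at hp
    try simp only [div_one] at hp
    exfalso
    linarith only [c2, hp]
  · simp only [eg1_val, eg2_val, eF1_val, eG1_val, eF3_val, et_val, nt_val, nm_val, nfZ_val, nfP_val, np1_val,
      np2_val, MR.e1_val, MR.e2_val, NumUs.E.val, NumIs.E.val, NumIs.lkR] at hp
    push_cast at hp
    try simp only [div_one] at hp
    exfalso
    linarith only [b0, a2, c2, hp]

end C12

end Pool.Agent.Work.MP_b30479_gtS.G2

end

section

/-!
# Part of `C12R3`
-/
set_option linter.unusedSimpArgs false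
set_option linter.unusedTactic false
set_option linter.unusedVariables false

set_option deprecated.oldSectionVars true

namespace Pool.Agent.Work.MP_b30479_gtS.G2

namespace C12

open NumUs NumUs.E
open NumIs (V)

/-- 176 boxes -/
theorem Z1Ap {x T s k : ℝ} (a0 : 5600 / 10000 ≤ x) (b0 : x ≤ 7500 / 10000) (a1 : -180 / 10000 ≤ T) (b1 : T ≤ 985 / 10000)
    (a2 : 3100 / 10000 ≤ s) (b2 : s ≤ 5700 / 10000) (a3 : -930 / 10000 ≤ k) (b3 : k ≤ 1450 /
    10000) (c0 : -((tt T x) + k) ≤ 0) (c1 : (T + k) - (187 / 1000) ≤ 0) (c2 : k - ((0 / 1000) +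
    ((290 / 1000) * ((86 / 100) - s))) ≤ 0) (c3 : (-k) - ((0 / 1000) + ((465 / 1000) * ((86 / 100)
    - s))) ≤ 0) (c4 : (106 / 100) - (x + s) ≤ 0) :
    0 < ((g1 (40 / 100) T x (tt T x) s k (uu ((40 / 100) + s) (T + k)) ((uu ((x + s) - 1) ((tt T
      x) + k)) + ((Real.pi * 1) * ((tt T x) + k)))) + (F1 x T)) := by
  have h : chkT [(add (eg1 (q 40 100) (var 1) (var 0) (et (var 0) (var 1)) (var 2) (var 3) (E.uu (add (q 40
      100) (var 2)) (add (var 1) (var 3))) (add (E.uu (sub (add (var 0) (var 2)) (q 1 1)) (add (et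
      (var 0) (var 1)) (var 3))) (mul (mul pi (q 1 1)) (add (et (var 0) (var 1)) (var 3))))) (eF1
      (var 0) (var 1))), (neg (add (et (var 0) (var 1)) (var 3))), (sub (add (var 1) (var 3)) (q
      187 1000)), (sub (var 3) (add (q 0 1000) (mul (q 290 1000) (sub (q 86 100) (var 2))))), (sub
      (neg (var 3)) (add (q 0 1000) (mul (q 465 1000) (sub (q 86 100) (var 2))))), (sub (q 106
      100) (add (var 0) (var 2)))] 18
      319066824763115976271180341409318078469540617373574463249359553768797697243561095533159589441919182564774582397825473211236461336255432211011771382017167476762838781424216413785942705011270450381642955151166910501052691830992310678049988735693843167896444449205615854441471427127370501990414110741624287078257120162550782920878511005697842866955891297498558746002832642706245154008058402079784118735497659023983943002955826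
      [V.of 10000 5600 7500 16, V.of 10000 (-180) 985 16, V.of 10000 3100 5700 16, V.of 10000
        (-930) 1450 16] = true := by
    decide +kernel
  obtain ⟨f, hf, hp⟩ := chkT4 h (by norm_num) (x := x) (y := T) (z := s) (w := k)
    (le_trans (by norm_num) a0) (le_trans b0 (by norm_num))
    (le_trans (by norm_num) a1) (le_trans b1 (by norm_num))
    (le_trans (by norm_num) a2) (le_trans b2 (by norm_num))
    (le_trans (by norm_num) a3) (le_trans b3 (by norm_num))
  simp only [List.mem_cons, List.not_mem_nil, or_false] at hf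
  rcases hf with rfl | rfl | rfl | rfl | rfl | rfl
  · simp only [eg1_val, eg2_val, eF1_val, eG1_val, eF3_val, et_val, nt_val, nm_val, nfZ_val, nfP_val, np1_val,
      np2_val, MR.e1_val, MR.e2_val, NumUs.E.val, NumIs.E.val, NumIs.lkR] at hp
    push_cast at hp
    try simp only [div_one] at hp
    linarith only [hp]
  · simp only [eg1_val, eg2_val, eF1_val, eG1_val, eF3_val, et_val, nt_val, nm_val, nfZ_val, nfP_val, np1_val,
      np2_val, MR.e1_val, MR.e2_val, NumUs.E.val, NumIs.E.val, NumIs.lkR] at hp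
    push_cast at hp
    try simp only [div_one] at hp
    exfalso
    linarith only [c0, hp]
  · simp only [eg1_val, eg2_val, eF1_val, eG1_val, eF3_val, et_val, nt_val, nm_val, nfZ_val, nfP_val, np1_val,
      np2_val, MR.e1_val, MR.e2_val, NumUs.E.val, NumIs.E.val, NumIs.lkR] at hp
    push_cast at hp
    try simp only [div_one] at hp
    exfalso
    linarith only [c1, hp]
  · simp only [eg1_val, eg2_val, eF1_val, eG1_val, eF3_val, et_val, nt_val, nm_val, nfZ_val, nfP_val, np1_val,
      np2_val, MR.e1_val, MR.e2_val, NumUs.E.val, NumIs.E.val, NumIs.lkR] at hp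
    push_cast at hp
    try simp only [div_one] at hp
    exfalso
    linarith only [c2, hp]
  · simp only [eg1_val, eg2_val, eF1_val, eG1_val, eF3_val, et_val, nt_val, nm_val, nfZ_val, nfP_val, np1_val,
      np2_val, MR.e1_val, MR.e2_val, NumUs.E.val, NumIs.E.val, NumIs.lkR] at hp
    push_cast at hp
    try simp only [div_one] at hp
    exfalso
    linarith only [b2, a3, hp]
  · simp only [eg1_val, eg2_val, eF1_val, eG1_val, eF3_val, et_val, nt_val, nm_val, nfZ_val, nfP_val, np1_val,
      np2_val, MR.e1_val, MR.e2_val, NumUs.E.val, NumIs.E.val, NumIs.lkR] at hp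
    push_cast at hp
    try simp only [div_one] at hp
    exfalso
    linarith only [c4, hp]

/-- 14 boxes -/
theorem Z1Bp {x T s k : ℝ} (a0 : 5600 / 10000 ≤ x) (b0 : x ≤ 7500 / 10000) (a1 : -180 / 10000 ≤ T) (b1 : T ≤ 985 / 10000)
    (a2 : 5700 / 10000 ≤ s) (b2 : s ≤ 6300 / 10000) (a3 : -930 / 10000 ≤ k) (b3 : k ≤ 1450 /
    10000) (c0 : -((tt T x) + k) ≤ 0) (c1 : (T + k) - (187 / 1000) ≤ 0) (c2 : k - ((0 / 1000) +
    ((290 / 1000) * ((86 / 100) - s))) ≤ 0) (c3 : (-k) - ((0 / 1000) + ((465 / 1000) * ((86 / 100)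
    - s))) ≤ 0) (c4 : (106 / 100) - (x + s) ≤ 0) :
    0 < ((g1 (40 / 100) T x (tt T x) s k (((uu (3 / 100) (T + k)) + ((Real.pi * 1) * (T + k))) -
      ((27 / 100) * ((103 / 100) - ((40 / 100) + s)))) ((uu ((x + s) - 1) ((tt T x) + k)) +
      ((Real.pi * 1) * ((tt T x) + k)))) + (F1 x T)) ∨ 0 < ((g1 (40 / 100) T x (tt T x) s k (((uu
      (3 / 100) (T + k)) + ((Real.pi * (-1)) * (T + k))) - ((27 / 100) * ((103 / 100) - ((40 /
      100) + s)))) ((uu ((x + s) - 1) ((tt T x) + k)) + ((Real.pi * 1) * ((tt T x) + k)))) + (F1 x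
      T)) := by
  have h : chkT [(add (eg1 (q 40 100) (var 1) (var 0) (et (var 0) (var 1)) (var 2) (var 3) (sub (add (E.uu
      (q 3 100) (add (var 1) (var 3))) (mul (mul pi (q 1 1)) (add (var 1) (var 3)))) (mul (q 27
      100) (sub (q 103 100) (add (q 40 100) (var 2))))) (add (E.uu (sub (add (var 0) (var 2)) (q 1
      1)) (add (et (var 0) (var 1)) (var 3))) (mul (mul pi (q 1 1)) (add (et (var 0) (var 1)) (var
      3))))) (eF1 (var 0) (var 1))), (add (eg1 (q 40 100) (var 1) (var 0) (et (var 0) (var 1))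
      (var 2) (var 3) (sub (add (E.uu (q 3 100) (add (var 1) (var 3))) (mul (mul pi (q (-1) 1))
      (add (var 1) (var 3)))) (mul (q 27 100) (sub (q 103 100) (add (q 40 100) (var 2))))) (add
      (E.uu (sub (add (var 0) (var 2)) (q 1 1)) (add (et (var 0) (var 1)) (var 3))) (mul (mul pi
      (q 1 1)) (add (et (var 0) (var 1)) (var 3))))) (eF1 (var 0) (var 1))), (neg (add (et (var 0)
      (var 1)) (var 3))), (sub (add (var 1) (var 3)) (q 187 1000)), (sub (var 3) (add (q 0 1000)
      (mul (q 290 1000) (sub (q 86 100) (var 2))))), (sub (neg (var 3)) (add (q 0 1000) (mul (q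
      465 1000) (sub (q 86 100) (var 2))))), (sub (q 106 100) (add (var 0) (var 2)))] 18
      254171528371646604681607878058771
      [V.of 10000 5600 7500 16, V.of 10000 (-180) 985 16, V.of 10000 5700 6300 16, V.of 10000
        (-930) 1450 16] = true := by
    decide +kernel
  obtain ⟨f, hf, hp⟩ := chkT4 h (by norm_num) (x := x) (y := T) (z := s) (w := k)
    (le_trans (by norm_num) a0) (le_trans b0 (by norm_num))
    (le_trans (by norm_num) a1) (le_trans b1 (by norm_num))
    (le_trans (by norm_num) a2) (le_trans b2 (by norm_num))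
    (le_trans (by norm_num) a3) (le_trans b3 (by norm_num))
  simp only [List.mem_cons, List.not_mem_nil, or_false] at hf
  rcases hf with rfl | rfl | rfl | rfl | rfl | rfl | rfl
  · simp only [eg1_val, eg2_val, eF1_val, eG1_val, eF3_val, et_val, nt_val, nm_val, nfZ_val, nfP_val, np1_val,
      np2_val, MR.e1_val, MR.e2_val, NumUs.E.val, NumIs.E.val, NumIs.lkR] at hp
    push_cast at hp
    try simp only [div_one] at hp
    left
    linarith only [hp]
  · simp only [eg1_val, eg2_val, eF1_val, eG1_val, eF3_val, et_val, nt_val, nm_val, nfZ_val, nfP_val, np1_val,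
      np2_val, MR.e1_val, MR.e2_val, NumUs.E.val, NumIs.E.val, NumIs.lkR] at hp
    push_cast at hp
    try simp only [div_one] at hp
    right
    linarith only [hp]
  · simp only [eg1_val, eg2_val, eF1_val, eG1_val, eF3_val, et_val, nt_val, nm_val, nfZ_val, nfP_val, np1_val,
      np2_val, MR.e1_val, MR.e2_val, NumUs.E.val, NumIs.E.val, NumIs.lkR] at hp
    push_cast at hp
    try simp only [div_one] at hp
    exfalso
    linarith only [c0, hp]
  · simp only [eg1_val, eg2_val, eF1_val, eG1_val, eF3_val, et_val, nt_val, nm_val, nfZ_val, nfP_val, np1_val,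
      np2_val, MR.e1_val, MR.e2_val, NumUs.E.val, NumIs.E.val, NumIs.lkR] at hp
    push_cast at hp
    try simp only [div_one] at hp
    exfalso
    linarith only [c1, hp]
  · simp only [eg1_val, eg2_val, eF1_val, eG1_val, eF3_val, et_val, nt_val, nm_val, nfZ_val, nfP_val, np1_val,
      np2_val, MR.e1_val, MR.e2_val, NumUs.E.val, NumIs.E.val, NumIs.lkR] at hp
    push_cast at hp
    try simp only [div_one] at hp
    exfalso
    linarith only [c2, hp]
  · simp only [eg1_val, eg2_val, eF1_val, eG1_val, eF3_val, et_val, nt_val, nm_val, nfZ_val, nfP_val, np1_val,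
      np2_val, MR.e1_val, MR.e2_val, NumUs.E.val, NumIs.E.val, NumIs.lkR] at hp
    push_cast at hp
    try simp only [div_one] at hp
    exfalso
    linarith only [b2, a3, hp]
  · simp only [eg1_val, eg2_val, eF1_val, eG1_val, eF3_val, et_val, nt_val, nm_val, nfZ_val, nfP_val, np1_val,
      np2_val, MR.e1_val, MR.e2_val, NumUs.E.val, NumIs.E.val, NumIs.lkR] at hp
    push_cast at hp
    try simp only [div_one] at hp
    exfalso
    linarith only [a0, a2, hp]

end C12

end Pool.Agent.Work.MP_b30479_gtS.G2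

end

section

/-!
# Part of `C12R3`
-/
set_option linter.unusedSimpArgs false
set_option linter.unusedTactic false
set_option linter.unusedVariables false

set_option deprecated.oldSectionVars true

namespace Pool.Agent.Work.MP_b30479_gtS.G2

namespace C12

open NumUs NumUs.E
open NumIs (V)

/-- 88 boxes -/
theorem Z1An {x T s k : ℝ} (a0 : 5600 / 10000 ≤ x) (b0 : x ≤ 7500 / 10000) (a1 : -180 / 10000 ≤ T) (b1 : T ≤ 985 / 10000)
    (a2 : 3100 / 10000 ≤ s) (b2 : s ≤ 5700 / 10000) (a3 : -930 / 10000 ≤ k) (b3 : k ≤ 1450 /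
    10000) (c0 : (tt T x) + k ≤ 0) (c1 : (T + k) - (187 / 1000) ≤ 0) (c2 : k - ((0 / 1000) + ((290
    / 1000) * ((86 / 100) - s))) ≤ 0) (c3 : (-k) - ((0 / 1000) + ((465 / 1000) * ((86 / 100) -
    s))) ≤ 0) (c4 : (106 / 100) - (x + s) ≤ 0) :
    0 < ((g1 (40 / 100) T x (tt T x) s k (uu ((40 / 100) + s) (T + k)) ((uu ((x + s) - 1) ((tt T
      x) + k)) + ((Real.pi * (-1)) * ((tt T x) + k)))) + (F1 x T)) := by
  have h : chkT [(add (eg1 (q 40 100) (var 1) (var 0) (et (var 0) (var 1)) (var 2) (var 3) (E.uu (add (q 40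
      100) (var 2)) (add (var 1) (var 3))) (add (E.uu (sub (add (var 0) (var 2)) (q 1 1)) (add (et
      (var 0) (var 1)) (var 3))) (mul (mul pi (q (-1) 1)) (add (et (var 0) (var 1)) (var 3)))))
      (eF1 (var 0) (var 1))), (add (et (var 0) (var 1)) (var 3)), (sub (add (var 1) (var 3)) (q
      187 1000)), (sub (var 3) (add (q 0 1000) (mul (q 290 1000) (sub (q 86 100) (var 2))))), (sub
      (neg (var 3)) (add (q 0 1000) (mul (q 465 1000) (sub (q 86 100) (var 2))))), (sub (q 106
      100) (add (var 0) (var 2)))] 18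
      2816961221093888017263640743731949124135543246767517986971184869154207689198601380451258498489243031794251106786105966370595260785745519040065401720774360104558060333776270438638464109284112313224825018323378226
      [V.of 10000 5600 7500 16, V.of 10000 (-180) 985 16, V.of 10000 3100 5700 16, V.of 10000
        (-930) 1450 16] = true := by
    decide +kernel
  obtain ⟨f, hf, hp⟩ := chkT4 h (by norm_num) (x := x) (y := T) (z := s) (w := k)
    (le_trans (by norm_num) a0) (le_trans b0 (by norm_num))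
    (le_trans (by norm_num) a1) (le_trans b1 (by norm_num))
    (le_trans (by norm_num) a2) (le_trans b2 (by norm_num))
    (le_trans (by norm_num) a3) (le_trans b3 (by norm_num))
  simp only [List.mem_cons, List.not_mem_nil, or_false] at hf
  rcases hf with rfl | rfl | rfl | rfl | rfl | rfl
  · simp only [eg1_val, eg2_val, eF1_val, eG1_val, eF3_val, et_val, nt_val, nm_val, nfZ_val, nfP_val, np1_val,
      np2_val, MR.e1_val, MR.e2_val, NumUs.E.val, NumIs.E.val, NumIs.lkR] at hp
    push_cast at hp
    try simp only [div_one] at hp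
    linarith only [hp]
  · simp only [eg1_val, eg2_val, eF1_val, eG1_val, eF3_val, et_val, nt_val, nm_val, nfZ_val, nfP_val, np1_val,
      np2_val, MR.e1_val, MR.e2_val, NumUs.E.val, NumIs.E.val, NumIs.lkR] at hp
    push_cast at hp
    try simp only [div_one] at hp
    exfalso
    linarith only [c0, hp]
  · simp only [eg1_val, eg2_val, eF1_val, eG1_val, eF3_val, et_val, nt_val, nm_val, nfZ_val, nfP_val, np1_val,
      np2_val, MR.e1_val, MR.e2_val, NumUs.E.val, NumIs.E.val, NumIs.lkR] at hp
    push_cast at hp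
    try simp only [div_one] at hp
    exfalso
    linarith only [c1, hp]
  · simp only [eg1_val, eg2_val, eF1_val, eG1_val, eF3_val, et_val, nt_val, nm_val, nfZ_val, nfP_val, np1_val,
      np2_val, MR.e1_val, MR.e2_val, NumUs.E.val, NumIs.E.val, NumIs.lkR] at hp
    push_cast at hp
    try simp only [div_one] at hp
    exfalso
    linarith only [c2, hp]
  · simp only [eg1_val, eg2_val, eF1_val, eG1_val, eF3_val, et_val, nt_val, nm_val, nfZ_val, nfP_val, np1_val,
      np2_val, MR.e1_val, MR.e2_val, NumUs.E.val, NumIs.E.val, NumIs.lkR] at hp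
    push_cast at hp
    try simp only [div_one] at hp
    exfalso
    linarith only [b2, a3, hp]
  · simp only [eg1_val, eg2_val, eF1_val, eG1_val, eF3_val, et_val, nt_val, nm_val, nfZ_val, nfP_val, np1_val,
      np2_val, MR.e1_val, MR.e2_val, NumUs.E.val, NumIs.E.val, NumIs.lkR] at hp
    push_cast at hp
    try simp only [div_one] at hp
    exfalso
    linarith only [c4, hp]

/-- 12 boxes -/
theorem Z1Bn {x T s k : ℝ} (a0 : 5600 / 10000 ≤ x) (b0 : x ≤ 7500 / 10000) (a1 : -180 / 10000 ≤ T) (b1 : T ≤ 985 / 10000)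
    (a2 : 5700 / 10000 ≤ s) (b2 : s ≤ 6300 / 10000) (a3 : -930 / 10000 ≤ k) (b3 : k ≤ 1450 /
    10000) (c0 : (tt T x) + k ≤ 0) (c1 : (T + k) - (187 / 1000) ≤ 0) (c2 : k - ((0 / 1000) + ((290
    / 1000) * ((86 / 100) - s))) ≤ 0) (c3 : (-k) - ((0 / 1000) + ((465 / 1000) * ((86 / 100) -
    s))) ≤ 0) (c4 : (106 / 100) - (x + s) ≤ 0) :
    0 < ((g1 (40 / 100) T x (tt T x) s k (((uu (3 / 100) (T + k)) + ((Real.pi * 1) * (T + k))) -
      ((27 / 100) * ((103 / 100) - ((40 / 100) + s)))) ((uu ((x + s) - 1) ((tt T x) + k)) +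
      ((Real.pi * (-1)) * ((tt T x) + k)))) + (F1 x T)) ∨ 0 < ((g1 (40 / 100) T x (tt T x) s k
      (((uu (3 / 100) (T + k)) + ((Real.pi * (-1)) * (T + k))) - ((27 / 100) * ((103 / 100) - ((40
      / 100) + s)))) ((uu ((x + s) - 1) ((tt T x) + k)) + ((Real.pi * (-1)) * ((tt T x) + k)))) +
      (F1 x T)) := by
  have h : chkT [(add (eg1 (q 40 100) (var 1) (var 0) (et (var 0) (var 1)) (var 2) (var 3) (sub (add (E.uu
      (q 3 100) (add (var 1) (var 3))) (mul (mul pi (q 1 1)) (add (var 1) (var 3)))) (mul (q 27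
      100) (sub (q 103 100) (add (q 40 100) (var 2))))) (add (E.uu (sub (add (var 0) (var 2)) (q 1
      1)) (add (et (var 0) (var 1)) (var 3))) (mul (mul pi (q (-1) 1)) (add (et (var 0) (var 1))
      (var 3))))) (eF1 (var 0) (var 1))), (add (eg1 (q 40 100) (var 1) (var 0) (et (var 0) (var
      1)) (var 2) (var 3) (sub (add (E.uu (q 3 100) (add (var 1) (var 3))) (mul (mul pi (q (-1)
      1)) (add (var 1) (var 3)))) (mul (q 27 100) (sub (q 103 100) (add (q 40 100) (var 2)))))
      (add (E.uu (sub (add (var 0) (var 2)) (q 1 1)) (add (et (var 0) (var 1)) (var 3))) (mul (mul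
      pi (q (-1) 1)) (add (et (var 0) (var 1)) (var 3))))) (eF1 (var 0) (var 1))), (add (et (var
      0) (var 1)) (var 3)), (sub (add (var 1) (var 3)) (q 187 1000)), (sub (var 3) (add (q 0 1000)
      (mul (q 290 1000) (sub (q 86 100) (var 2))))), (sub (neg (var 3)) (add (q 0 1000) (mul (q
      465 1000) (sub (q 86 100) (var 2))))), (sub (q 106 100) (add (var 0) (var 2)))] 18
      2671159554415957975954436115
      [V.of 10000 5600 7500 16, V.of 10000 (-180) 985 16, V.of 10000 5700 6300 16, V.of 10000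
        (-930) 1450 16] = true := by
    decide +kernel
  obtain ⟨f, hf, hp⟩ := chkT4 h (by norm_num) (x := x) (y := T) (z := s) (w := k)
    (le_trans (by norm_num) a0) (le_trans b0 (by norm_num))
    (le_trans (by norm_num) a1) (le_trans b1 (by norm_num))
    (le_trans (by norm_num) a2) (le_trans b2 (by norm_num))
    (le_trans (by norm_num) a3) (le_trans b3 (by norm_num))
  simp only [List.mem_cons, List.not_mem_nil, or_false] at hf
  rcases hf with rfl | rfl | rfl | rfl | rfl | rfl | rfl
  · simp only [eg1_val, eg2_val, eF1_val, eG1_val, eF3_val, et_val, nt_val, nm_val, nfZ_val, nfP_val, np1_val,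
      np2_val, MR.e1_val, MR.e2_val, NumUs.E.val, NumIs.E.val, NumIs.lkR] at hp
    push_cast at hp
    try simp only [div_one] at hp
    left
    linarith only [hp]
  · simp only [eg1_val, eg2_val, eF1_val, eG1_val, eF3_val, et_val, nt_val, nm_val, nfZ_val, nfP_val, np1_val,
      np2_val, MR.e1_val, MR.e2_val, NumUs.E.val, NumIs.E.val, NumIs.lkR] at hp
    push_cast at hp
    try simp only [div_one] at hp
    right
    linarith only [hp]
  · simp only [eg1_val, eg2_val, eF1_val, eG1_val, eF3_val, et_val, nt_val, nm_val, nfZ_val, nfP_val, np1_val,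
      np2_val, MR.e1_val, MR.e2_val, NumUs.E.val, NumIs.E.val, NumIs.lkR] at hp
    push_cast at hp
    try simp only [div_one] at hp
    exfalso
    linarith only [c0, hp]
  · simp only [eg1_val, eg2_val, eF1_val, eG1_val, eF3_val, et_val, nt_val, nm_val, nfZ_val, nfP_val, np1_val,
      np2_val, MR.e1_val, MR.e2_val, NumUs.E.val, NumIs.E.val, NumIs.lkR] at hp
    push_cast at hp
    try simp only [div_one] at hp
    exfalso
    linarith only [c1, hp]
  · simp only [eg1_val, eg2_val, eF1_val, eG1_val, eF3_val, et_val, nt_val, nm_val, nfZ_val, nfP_val, np1_val,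
      np2_val, MR.e1_val, MR.e2_val, NumUs.E.val, NumIs.E.val, NumIs.lkR] at hp
    push_cast at hp
    try simp only [div_one] at hp
    exfalso
    linarith only [c2, hp]
  · simp only [eg1_val, eg2_val, eF1_val, eG1_val, eF3_val, et_val, nt_val, nm_val, nfZ_val, nfP_val, np1_val,
      np2_val, MR.e1_val, MR.e2_val, NumUs.E.val, NumIs.E.val, NumIs.lkR] at hp
    push_cast at hp
    try simp only [div_one] at hp
    exfalso
    linarith only [b2, a3, hp]
  · simp only [eg1_val, eg2_val, eF1_val, eG1_val, eF3_val, et_val, nt_val, nm_val, nfZ_val, nfP_val, np1_val,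
      np2_val, MR.e1_val, MR.e2_val, NumUs.E.val, NumIs.E.val, NumIs.lkR] at hp
    push_cast at hp
    try simp only [div_one] at hp
    exfalso
    linarith only [a0, a2, hp]

/-- 35 boxes -/
theorem Z1Cp {x T s k : ℝ} (a0 : 5600 / 10000 ≤ x) (b0 : x ≤ 7500 / 10000) (a1 : -180 / 10000 ≤ T) (b1 : T ≤ 985 / 10000)
    (a2 : 6300 / 10000 ≤ s) (b2 : s ≤ 7000 / 10000) (a3 : -930 / 10000 ≤ k) (b3 : k ≤ 1450 /
    10000) (c0 : -((tt T x) + k) ≤ 0) (c1 : (T + k) - (187 / 1000) ≤ 0) (c2 : k - ((0 / 1000) +
    ((290 / 1000) * ((86 / 100) - s))) ≤ 0) (c3 : (-k) - ((0 / 1000) + ((465 / 1000) * ((86 / 100)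
    - s))) ≤ 0) (c4 : (106 / 100) - (x + s) ≤ 0) :
    0 < ((g1 (40 / 100) T x (tt T x) s k ((uu (((40 / 100) + s) - 1) (T + k)) + ((Real.pi * 1) *
      (T + k))) ((uu ((x + s) - 1) ((tt T x) + k)) + ((Real.pi * 1) * ((tt T x) + k)))) + (F1 x
      T)) ∨ 0 < ((g1 (40 / 100) T x (tt T x) s k ((uu (((40 / 100) + s) - 1) (T + k)) + ((Real.pi
      * (-1)) * (T + k))) ((uu ((x + s) - 1) ((tt T x) + k)) + ((Real.pi * 1) * ((tt T x) + k))))
      + (F1 x T)) := by
  have h : chkT [(add (eg1 (q 40 100) (var 1) (var 0) (et (var 0) (var 1)) (var 2) (var 3) (add (E.uu (sub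
      (add (q 40 100) (var 2)) (q 1 1)) (add (var 1) (var 3))) (mul (mul pi (q 1 1)) (add (var 1)
      (var 3)))) (add (E.uu (sub (add (var 0) (var 2)) (q 1 1)) (add (et (var 0) (var 1)) (var
      3))) (mul (mul pi (q 1 1)) (add (et (var 0) (var 1)) (var 3))))) (eF1 (var 0) (var 1))),
      (add (eg1 (q 40 100) (var 1) (var 0) (et (var 0) (var 1)) (var 2) (var 3) (add (E.uu (sub
      (add (q 40 100) (var 2)) (q 1 1)) (add (var 1) (var 3))) (mul (mul pi (q (-1) 1)) (add (var
      1) (var 3)))) (add (E.uu (sub (add (var 0) (var 2)) (q 1 1)) (add (et (var 0) (var 1)) (var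
      3))) (mul (mul pi (q 1 1)) (add (et (var 0) (var 1)) (var 3))))) (eF1 (var 0) (var 1))),
      (neg (add (et (var 0) (var 1)) (var 3))), (sub (add (var 1) (var 3)) (q 187 1000)), (sub
      (var 3) (add (q 0 1000) (mul (q 290 1000) (sub (q 86 100) (var 2))))), (sub (neg (var 3))
      (add (q 0 1000) (mul (q 465 1000) (sub (q 86 100) (var 2))))), (sub (q 106 100) (add (var 0)
      (var 2)))] 18
      95109791152193913165886798214167939893550795713663352630221387179245748777271308579
      [V.of 10000 5600 7500 16, V.of 10000 (-180) 985 16, V.of 10000 6300 7000 16, V.of 10000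
        (-930) 1450 16] = true := by
    decide +kernel
  obtain ⟨f, hf, hp⟩ := chkT4 h (by norm_num) (x := x) (y := T) (z := s) (w := k)
    (le_trans (by norm_num) a0) (le_trans b0 (by norm_num))
    (le_trans (by norm_num) a1) (le_trans b1 (by norm_num))
    (le_trans (by norm_num) a2) (le_trans b2 (by norm_num))
    (le_trans (by norm_num) a3) (le_trans b3 (by norm_num))
  simp only [List.mem_cons, List.not_mem_nil, or_false] at hf
  rcases hf with rfl | rfl | rfl | rfl | rfl | rfl | rfl
  · simp only [eg1_val, eg2_val, eF1_val, eG1_val, eF3_val, et_val, nt_val, nm_val, nfZ_val, nfP_val, np1_val,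
      np2_val, MR.e1_val, MR.e2_val, NumUs.E.val, NumIs.E.val, NumIs.lkR] at hp
    push_cast at hp
    try simp only [div_one] at hp
    left
    linarith only [hp]
  · simp only [eg1_val, eg2_val, eF1_val, eG1_val, eF3_val, et_val, nt_val, nm_val, nfZ_val, nfP_val, np1_val,
      np2_val, MR.e1_val, MR.e2_val, NumUs.E.val, NumIs.E.val, NumIs.lkR] at hp
    push_cast at hp
    try simp only [div_one] at hp
    right
    linarith only [hp]
  · simp only [eg1_val, eg2_val, eF1_val, eG1_val, eF3_val, et_val, nt_val, nm_val, nfZ_val, nfP_val, np1_val,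
      np2_val, MR.e1_val, MR.e2_val, NumUs.E.val, NumIs.E.val, NumIs.lkR] at hp
    push_cast at hp
    try simp only [div_one] at hp
    exfalso
    linarith only [c0, hp]
  · simp only [eg1_val, eg2_val, eF1_val, eG1_val, eF3_val, et_val, nt_val, nm_val, nfZ_val, nfP_val, np1_val,
      np2_val, MR.e1_val, MR.e2_val, NumUs.E.val, NumIs.E.val, NumIs.lkR] at hp
    push_cast at hp
    try simp only [div_one] at hp
    exfalso
    linarith only [c1, hp]
  · simp only [eg1_val, eg2_val, eF1_val, eG1_val, eF3_val, et_val, nt_val, nm_val, nfZ_val, nfP_val, np1_val,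
      np2_val, MR.e1_val, MR.e2_val, NumUs.E.val, NumIs.E.val, NumIs.lkR] at hp
    push_cast at hp
    try simp only [div_one] at hp
    exfalso
    linarith only [c2, hp]
  · simp only [eg1_val, eg2_val, eF1_val, eG1_val, eF3_val, et_val, nt_val, nm_val, nfZ_val, nfP_val, np1_val,
      np2_val, MR.e1_val, MR.e2_val, NumUs.E.val, NumIs.E.val, NumIs.lkR] at hp
    push_cast at hp
    try simp only [div_one] at hp
    exfalso
    linarith only [c3, hp]
  · simp only [eg1_val, eg2_val, eF1_val, eG1_val, eF3_val, et_val, nt_val, nm_val, nfZ_val, nfP_val, np1_val,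
      np2_val, MR.e1_val, MR.e2_val, NumUs.E.val, NumIs.E.val, NumIs.lkR] at hp
    push_cast at hp
    try simp only [div_one] at hp
    exfalso
    linarith only [a0, a2, hp]

/-- 23 boxes -/
theorem Z1Cn {x T s k : ℝ} (a0 : 5600 / 10000 ≤ x) (b0 : x ≤ 7500 / 10000) (a1 : -180 / 10000 ≤ T) (b1 : T ≤ 985 / 10000)
    (a2 : 6300 / 10000 ≤ s) (b2 : s ≤ 7000 / 10000) (a3 : -930 / 10000 ≤ k) (b3 : k ≤ 1450 /
    10000) (c0 : (tt T x) + k ≤ 0) (c1 : (T + k) - (187 / 1000) ≤ 0) (c2 : k - ((0 / 1000) + ((290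
    / 1000) * ((86 / 100) - s))) ≤ 0) (c3 : (-k) - ((0 / 1000) + ((465 / 1000) * ((86 / 100) -
    s))) ≤ 0) (c4 : (106 / 100) - (x + s) ≤ 0) :
    0 < ((g1 (40 / 100) T x (tt T x) s k ((uu (((40 / 100) + s) - 1) (T + k)) + ((Real.pi * 1) *
      (T + k))) ((uu ((x + s) - 1) ((tt T x) + k)) + ((Real.pi * (-1)) * ((tt T x) + k)))) + (F1 x
      T)) ∨ 0 < ((g1 (40 / 100) T x (tt T x) s k ((uu (((40 / 100) + s) - 1) (T + k)) + ((Real.pi
      * (-1)) * (T + k))) ((uu ((x + s) - 1) ((tt T x) + k)) + ((Real.pi * (-1)) * ((tt T x) +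
      k)))) + (F1 x T)) := by
  have h : chkT [(add (eg1 (q 40 100) (var 1) (var 0) (et (var 0) (var 1)) (var 2) (var 3) (add (E.uu (sub
      (add (q 40 100) (var 2)) (q 1 1)) (add (var 1) (var 3))) (mul (mul pi (q 1 1)) (add (var 1)
      (var 3)))) (add (E.uu (sub (add (var 0) (var 2)) (q 1 1)) (add (et (var 0) (var 1)) (var
      3))) (mul (mul pi (q (-1) 1)) (add (et (var 0) (var 1)) (var 3))))) (eF1 (var 0) (var 1))),
      (add (eg1 (q 40 100) (var 1) (var 0) (et (var 0) (var 1)) (var 2) (var 3) (add (E.uu (sub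
      (add (q 40 100) (var 2)) (q 1 1)) (add (var 1) (var 3))) (mul (mul pi (q (-1) 1)) (add (var
      1) (var 3)))) (add (E.uu (sub (add (var 0) (var 2)) (q 1 1)) (add (et (var 0) (var 1)) (var
      3))) (mul (mul pi (q (-1) 1)) (add (et (var 0) (var 1)) (var 3))))) (eF1 (var 0) (var 1))),
      (add (et (var 0) (var 1)) (var 3)), (sub (add (var 1) (var 3)) (q 187 1000)), (sub (var 3)
      (add (q 0 1000) (mul (q 290 1000) (sub (q 86 100) (var 2))))), (sub (neg (var 3)) (add (q 0
      1000) (mul (q 465 1000) (sub (q 86 100) (var 2))))), (sub (q 106 100) (add (var 0) (var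
      2)))] 18
      826686121122092818828734938571328577164647278582968611
      [V.of 10000 5600 7500 16, V.of 10000 (-180) 985 16, V.of 10000 6300 7000 16, V.of 10000
        (-930) 1450 16] = true := by
    decide +kernel
  obtain ⟨f, hf, hp⟩ := chkT4 h (by norm_num) (x := x) (y := T) (z := s) (w := k)
    (le_trans (by norm_num) a0) (le_trans b0 (by norm_num))
    (le_trans (by norm_num) a1) (le_trans b1 (by norm_num))
    (le_trans (by norm_num) a2) (le_trans b2 (by norm_num))
    (le_trans (by norm_num) a3) (le_trans b3 (by norm_num))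
  simp only [List.mem_cons, List.not_mem_nil, or_false] at hf
  rcases hf with rfl | rfl | rfl | rfl | rfl | rfl | rfl
  · simp only [eg1_val, eg2_val, eF1_val, eG1_val, eF3_val, et_val, nt_val, nm_val, nfZ_val, nfP_val, np1_val,
      np2_val, MR.e1_val, MR.e2_val, NumUs.E.val, NumIs.E.val, NumIs.lkR] at hp
    push_cast at hp
    try simp only [div_one] at hp
    left
    linarith only [hp]
  · simp only [eg1_val, eg2_val, eF1_val, eG1_val, eF3_val, et_val, nt_val, nm_val, nfZ_val, nfP_val, np1_val,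
      np2_val, MR.e1_val, MR.e2_val, NumUs.E.val, NumIs.E.val, NumIs.lkR] at hp
    push_cast at hp
    try simp only [div_one] at hp
    right
    linarith only [hp]
  · simp only [eg1_val, eg2_val, eF1_val, eG1_val, eF3_val, et_val, nt_val, nm_val, nfZ_val, nfP_val, np1_val,
      np2_val, MR.e1_val, MR.e2_val, NumUs.E.val, NumIs.E.val, NumIs.lkR] at hp
    push_cast at hp
    try simp only [div_one] at hp
    exfalso
    linarith only [c0, hp]
  · simp only [eg1_val, eg2_val, eF1_val, eG1_val, eF3_val, et_val, nt_val, nm_val, nfZ_val, nfP_val, np1_val,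
      np2_val, MR.e1_val, MR.e2_val, NumUs.E.val, NumIs.E.val, NumIs.lkR] at hp
    push_cast at hp
    try simp only [div_one] at hp
    exfalso
    linarith only [c1, hp]
  · simp only [eg1_val, eg2_val, eF1_val, eG1_val, eF3_val, et_val, nt_val, nm_val, nfZ_val, nfP_val, np1_val,
      np2_val, MR.e1_val, MR.e2_val, NumUs.E.val, NumIs.E.val, NumIs.lkR] at hp
    push_cast at hp
    try simp only [div_one] at hp
    exfalso
    linarith only [c2, hp]
  · simp only [eg1_val, eg2_val, eF1_val, eG1_val, eF3_val, et_val, nt_val, nm_val, nfZ_val, nfP_val, np1_val,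
      np2_val, MR.e1_val, MR.e2_val, NumUs.E.val, NumIs.E.val, NumIs.lkR] at hp
    push_cast at hp
    try simp only [div_one] at hp
    exfalso
    linarith only [c3, hp]
  · simp only [eg1_val, eg2_val, eF1_val, eG1_val, eF3_val, et_val, nt_val, nm_val, nfZ_val, nfP_val, np1_val,
      np2_val, MR.e1_val, MR.e2_val, NumUs.E.val, NumIs.E.val, NumIs.lkR] at hp
    push_cast at hp
    try simp only [div_one] at hp
    exfalso
    linarith only [a0, a2, hp]

/-- 9 boxes -/
theorem Z1Dp {x T s k : ℝ} (a0 : 5350 / 10000 ≤ x) (b0 : x ≤ 7500 / 10000) (a1 : 50 / 10000 ≤ T) (b1 : T ≤ 790 / 10000)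
    (a2 : 7000 / 10000 ≤ s) (b2 : s ≤ 8000 / 10000) (a3 : 0 / 10000 ≤ k) (b3 : k ≤ 280 / 10000)
    (c0 : -((tt T x) + k) ≤ 0) (c1 : (T + k) - (130 / 1000) ≤ 0) (c2 : k - ((0 / 1000) + ((273 /
    1000) * ((80 / 100) - s))) ≤ 0) (c3 : (106 / 100) - (x + s) ≤ 0) :
    0 < ((g1 (40 / 100) T x (tt T x) s k ((uu (((40 / 100) + s) - 1) (T + k)) + ((Real.pi * 1) *
      (T + k))) ((uu ((x + s) - 1) ((tt T x) + k)) + ((Real.pi * 1) * ((tt T x) + k)))) + (F1 x
      T)) ∨ 0 < ((g1 (40 / 100) T x (tt T x) s k ((uu (((40 / 100) + s) - 1) (T + k)) + ((Real.pi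
      * (-1)) * (T + k))) ((uu ((x + s) - 1) ((tt T x) + k)) + ((Real.pi * 1) * ((tt T x) + k))))
      + (F1 x T)) := by
  have h : chkT [(add (eg1 (q 40 100) (var 1) (var 0) (et (var 0) (var 1)) (var 2) (var 3) (add (E.uu (sub
      (add (q 40 100) (var 2)) (q 1 1)) (add (var 1) (var 3))) (mul (mul pi (q 1 1)) (add (var 1)
      (var 3)))) (add (E.uu (sub (add (var 0) (var 2)) (q 1 1)) (add (et (var 0) (var 1)) (var
      3))) (mul (mul pi (q 1 1)) (add (et (var 0) (var 1)) (var 3))))) (eF1 (var 0) (var 1))),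
      (add (eg1 (q 40 100) (var 1) (var 0) (et (var 0) (var 1)) (var 2) (var 3) (add (E.uu (sub
      (add (q 40 100) (var 2)) (q 1 1)) (add (var 1) (var 3))) (mul (mul pi (q (-1) 1)) (add (var
      1) (var 3)))) (add (E.uu (sub (add (var 0) (var 2)) (q 1 1)) (add (et (var 0) (var 1)) (var
      3))) (mul (mul pi (q 1 1)) (add (et (var 0) (var 1)) (var 3))))) (eF1 (var 0) (var 1))),
      (neg (add (et (var 0) (var 1)) (var 3))), (sub (add (var 1) (var 3)) (q 130 1000)), (sub
      (var 3) (add (q 0 1000) (mul (q 273 1000) (sub (q 80 100) (var 2))))), (sub (q 106 100) (add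
      (var 0) (var 2)))] 18
      156835649787970195968
      [V.of 10000 5350 7500 16, V.of 10000 50 790 16, V.of 10000 7000 8000 16, V.of 10000 0 280
        16] = true := by
    decide +kernel
  obtain ⟨f, hf, hp⟩ := chkT4 h (by norm_num) (x := x) (y := T) (z := s) (w := k)
    (le_trans (by norm_num) a0) (le_trans b0 (by norm_num))
    (le_trans (by norm_num) a1) (le_trans b1 (by norm_num))
    (le_trans (by norm_num) a2) (le_trans b2 (by norm_num))
    (le_trans (by norm_num) a3) (le_trans b3 (by norm_num))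
  simp only [List.mem_cons, List.not_mem_nil, or_false] at hf
  rcases hf with rfl | rfl | rfl | rfl | rfl | rfl
  · simp only [eg1_val, eg2_val, eF1_val, eG1_val, eF3_val, et_val, nt_val, nm_val, nfZ_val, nfP_val, np1_val,
      np2_val, MR.e1_val, MR.e2_val, NumUs.E.val, NumIs.E.val, NumIs.lkR] at hp
    push_cast at hp
    try simp only [div_one] at hp
    left
    linarith only [hp]
  · simp only [eg1_val, eg2_val, eF1_val, eG1_val, eF3_val, et_val, nt_val, nm_val, nfZ_val, nfP_val, np1_val,
      np2_val, MR.e1_val, MR.e2_val, NumUs.E.val, NumIs.E.val, NumIs.lkR] at hp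
    push_cast at hp
    try simp only [div_one] at hp
    right
    linarith only [hp]
  · simp only [eg1_val, eg2_val, eF1_val, eG1_val, eF3_val, et_val, nt_val, nm_val, nfZ_val, nfP_val, np1_val,
      np2_val, MR.e1_val, MR.e2_val, NumUs.E.val, NumIs.E.val, NumIs.lkR] at hp
    push_cast at hp
    try simp only [div_one] at hp
    exfalso
    linarith only [c0, hp]
  · simp only [eg1_val, eg2_val, eF1_val, eG1_val, eF3_val, et_val, nt_val, nm_val, nfZ_val, nfP_val, np1_val,
      np2_val, MR.e1_val, MR.e2_val, NumUs.E.val, NumIs.E.val, NumIs.lkR] at hp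
    push_cast at hp
    try simp only [div_one] at hp
    exfalso
    linarith only [b1, b3, hp]
  · simp only [eg1_val, eg2_val, eF1_val, eG1_val, eF3_val, et_val, nt_val, nm_val, nfZ_val, nfP_val, np1_val,
      np2_val, MR.e1_val, MR.e2_val, NumUs.E.val, NumIs.E.val, NumIs.lkR] at hp
    push_cast at hp
    try simp only [div_one] at hp
    exfalso
    linarith only [c2, hp]
  · simp only [eg1_val, eg2_val, eF1_val, eG1_val, eF3_val, et_val, nt_val, nm_val, nfZ_val, nfP_val, np1_val,
      np2_val, MR.e1_val, MR.e2_val, NumUs.E.val, NumIs.E.val, NumIs.lkR] at hp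
    push_cast at hp
    try simp only [div_one] at hp
    exfalso
    linarith only [a0, a2, hp]

/-- 3 boxes -/
theorem Z1Dn {x T s k : ℝ} (a0 : 5350 / 10000 ≤ x) (b0 : x ≤ 7500 / 10000) (a1 : 50 / 10000 ≤ T) (b1 : T ≤ 790 / 10000)
    (a2 : 7000 / 10000 ≤ s) (b2 : s ≤ 8000 / 10000) (a3 : 0 / 10000 ≤ k) (b3 : k ≤ 280 / 10000)
    (c0 : (tt T x) + k ≤ 0) (c1 : (T + k) - (130 / 1000) ≤ 0) (c2 : k - ((0 / 1000) + ((273 /
    1000) * ((80 / 100) - s))) ≤ 0) (c3 : (106 / 100) - (x + s) ≤ 0) :
    0 < ((g1 (40 / 100) T x (tt T x) s k ((uu (((40 / 100) + s) - 1) (T + k)) + ((Real.pi * 1) *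
      (T + k))) ((uu ((x + s) - 1) ((tt T x) + k)) + ((Real.pi * (-1)) * ((tt T x) + k)))) + (F1 x
      T)) ∨ 0 < ((g1 (40 / 100) T x (tt T x) s k ((uu (((40 / 100) + s) - 1) (T + k)) + ((Real.pi
      * (-1)) * (T + k))) ((uu ((x + s) - 1) ((tt T x) + k)) + ((Real.pi * (-1)) * ((tt T x) +
      k)))) + (F1 x T)) := by
  have h : chkT [(add (eg1 (q 40 100) (var 1) (var 0) (et (var 0) (var 1)) (var 2) (var 3) (add (E.uu (sub
      (add (q 40 100) (var 2)) (q 1 1)) (add (var 1) (var 3))) (mul (mul pi (q 1 1)) (add (var 1)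
      (var 3)))) (add (E.uu (sub (add (var 0) (var 2)) (q 1 1)) (add (et (var 0) (var 1)) (var
      3))) (mul (mul pi (q (-1) 1)) (add (et (var 0) (var 1)) (var 3))))) (eF1 (var 0) (var 1))),
      (add (eg1 (q 40 100) (var 1) (var 0) (et (var 0) (var 1)) (var 2) (var 3) (add (E.uu (sub
      (add (q 40 100) (var 2)) (q 1 1)) (add (var 1) (var 3))) (mul (mul pi (q (-1) 1)) (add (var
      1) (var 3)))) (add (E.uu (sub (add (var 0) (var 2)) (q 1 1)) (add (et (var 0) (var 1)) (var
      3))) (mul (mul pi (q (-1) 1)) (add (et (var 0) (var 1)) (var 3))))) (eF1 (var 0) (var 1))),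
      (add (et (var 0) (var 1)) (var 3)), (sub (add (var 1) (var 3)) (q 130 1000)), (sub (var 3)
      (add (q 0 1000) (mul (q 273 1000) (sub (q 80 100) (var 2))))), (sub (q 106 100) (add (var 0)
      (var 2)))] 18
      559104
      [V.of 10000 5350 7500 16, V.of 10000 50 790 16, V.of 10000 7000 8000 16, V.of 10000 0 280
        16] = true := by
    decide +kernel
  obtain ⟨f, hf, hp⟩ := chkT4 h (by norm_num) (x := x) (y := T) (z := s) (w := k)
    (le_trans (by norm_num) a0) (le_trans b0 (by norm_num))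
    (le_trans (by norm_num) a1) (le_trans b1 (by norm_num))
    (le_trans (by norm_num) a2) (le_trans b2 (by norm_num))
    (le_trans (by norm_num) a3) (le_trans b3 (by norm_num))
  simp only [List.mem_cons, List.not_mem_nil, or_false] at hf
  rcases hf with rfl | rfl | rfl | rfl | rfl | rfl
  · simp only [eg1_val, eg2_val, eF1_val, eG1_val, eF3_val, et_val, nt_val, nm_val, nfZ_val, nfP_val, np1_val,
      np2_val, MR.e1_val, MR.e2_val, NumUs.E.val, NumIs.E.val, NumIs.lkR] at hp
    push_cast at hp
    try simp only [div_one] at hp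
    left
    linarith only [hp]
  · simp only [eg1_val, eg2_val, eF1_val, eG1_val, eF3_val, et_val, nt_val, nm_val, nfZ_val, nfP_val, np1_val,
      np2_val, MR.e1_val, MR.e2_val, NumUs.E.val, NumIs.E.val, NumIs.lkR] at hp
    push_cast at hp
    try simp only [div_one] at hp
    right
    linarith only [hp]
  · simp only [eg1_val, eg2_val, eF1_val, eG1_val, eF3_val, et_val, nt_val, nm_val, nfZ_val, nfP_val, np1_val,
      np2_val, MR.e1_val, MR.e2_val, NumUs.E.val, NumIs.E.val, NumIs.lkR] at hp
    push_cast at hp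
    try simp only [div_one] at hp
    exfalso
    linarith only [c0, hp]
  · simp only [eg1_val, eg2_val, eF1_val, eG1_val, eF3_val, et_val, nt_val, nm_val, nfZ_val, nfP_val, np1_val,
      np2_val, MR.e1_val, MR.e2_val, NumUs.E.val, NumIs.E.val, NumIs.lkR] at hp
    push_cast at hp
    try simp only [div_one] at hp
    exfalso
    linarith only [b1, b3, hp]
  · simp only [eg1_val, eg2_val, eF1_val, eG1_val, eF3_val, et_val, nt_val, nm_val, nfZ_val, nfP_val, np1_val,
      np2_val, MR.e1_val, MR.e2_val, NumUs.E.val, NumIs.E.val, NumIs.lkR] at hp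
    push_cast at hp
    try simp only [div_one] at hp
    exfalso
    linarith only [c2, hp]
  · simp only [eg1_val, eg2_val, eF1_val, eG1_val, eF3_val, et_val, nt_val, nm_val, nfZ_val, nfP_val, np1_val,
      np2_val, MR.e1_val, MR.e2_val, NumUs.E.val, NumIs.E.val, NumIs.lkR] at hp
    push_cast at hp
    try simp only [div_one] at hp
    exfalso
    linarith only [a0, a2, hp]

/-- 33 boxes -/
theorem Z1PAp {x T s k : ℝ} (a0 : 5350 / 10000 ≤ x) (b0 : x ≤ 5600 / 10000) (a1 : -180 / 10000 ≤ T) (b1 : T ≤ 985 / 10000)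
    (a2 : 5000 / 10000 ≤ s) (b2 : s ≤ 5700 / 10000) (a3 : -930 / 10000 ≤ k) (b3 : k ≤ 1450 /
    10000) (c0 : -((tt T x) + k) ≤ 0) (c1 : (T + k) - (148 / 1000) ≤ 0) (c2 : (106 / 100) - (x +
    s) ≤ 0) :
    0 < ((g1 (40 / 100) T x (tt T x) s k (uu ((40 / 100) + s) (T + k)) ((uu ((x + s) - 1) ((tt T
      x) + k)) + ((Real.pi * 1) * ((tt T x) + k)))) + (F1 x T)) := by
  have h : chkT [(add (eg1 (q 40 100) (var 1) (var 0) (et (var 0) (var 1)) (var 2) (var 3) (E.uu (add (q 40
      100) (var 2)) (add (var 1) (var 3))) (add (E.uu (sub (add (var 0) (var 2)) (q 1 1)) (add (et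
      (var 0) (var 1)) (var 3))) (mul (mul pi (q 1 1)) (add (et (var 0) (var 1)) (var 3))))) (eF1
      (var 0) (var 1))), (neg (add (et (var 0) (var 1)) (var 3))), (sub (add (var 1) (var 3)) (q
      148 1000)), (sub (q 106 100) (add (var 0) (var 2)))] 18
      1234139276729724206748203334601052200405265848806816852937104459006090622276387
      [V.of 10000 5350 5600 16, V.of 10000 (-180) 985 16, V.of 10000 5000 5700 16, V.of 10000
        (-930) 1450 16] = true := by
    decide +kernel
  obtain ⟨f, hf, hp⟩ := chkT4 h (by norm_num) (x := x) (y := T) (z := s) (w := k)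
    (le_trans (by norm_num) a0) (le_trans b0 (by norm_num))
    (le_trans (by norm_num) a1) (le_trans b1 (by norm_num))
    (le_trans (by norm_num) a2) (le_trans b2 (by norm_num))
    (le_trans (by norm_num) a3) (le_trans b3 (by norm_num))
  simp only [List.mem_cons, List.not_mem_nil, or_false] at hf
  rcases hf with rfl | rfl | rfl | rfl
  · simp only [eg1_val, eg2_val, eF1_val, eG1_val, eF3_val, et_val, nt_val, nm_val, nfZ_val, nfP_val, np1_val,
      np2_val, MR.e1_val, MR.e2_val, NumUs.E.val, NumIs.E.val, NumIs.lkR] at hp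
    push_cast at hp
    try simp only [div_one] at hp
    linarith only [hp]
  · simp only [eg1_val, eg2_val, eF1_val, eG1_val, eF3_val, et_val, nt_val, nm_val, nfZ_val, nfP_val, np1_val,
      np2_val, MR.e1_val, MR.e2_val, NumUs.E.val, NumIs.E.val, NumIs.lkR] at hp
    push_cast at hp
    try simp only [div_one] at hp
    exfalso
    linarith only [c0, hp]
  · simp only [eg1_val, eg2_val, eF1_val, eG1_val, eF3_val, et_val, nt_val, nm_val, nfZ_val, nfP_val, np1_val,
      np2_val, MR.e1_val, MR.e2_val, NumUs.E.val, NumIs.E.val, NumIs.lkR] at hp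
    push_cast at hp
    try simp only [div_one] at hp
    exfalso
    linarith only [c1, hp]
  · simp only [eg1_val, eg2_val, eF1_val, eG1_val, eF3_val, et_val, nt_val, nm_val, nfZ_val, nfP_val, np1_val,
      np2_val, MR.e1_val, MR.e2_val, NumUs.E.val, NumIs.E.val, NumIs.lkR] at hp
    push_cast at hp
    try simp only [div_one] at hp
    exfalso
    linarith only [c2, hp]

/-- 23 boxes -/
theorem Z1PBp {x T s k : ℝ} (a0 : 5350 / 10000 ≤ x) (b0 : x ≤ 5600 / 10000) (a1 : -180 / 10000 ≤ T) (b1 : T ≤ 985 / 10000)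
    (a2 : 5700 / 10000 ≤ s) (b2 : s ≤ 6300 / 10000) (a3 : -930 / 10000 ≤ k) (b3 : k ≤ 1450 /
    10000) (c0 : -((tt T x) + k) ≤ 0) (c1 : (T + k) - (148 / 1000) ≤ 0) (c2 : (106 / 100) - (x +
    s) ≤ 0) :
    0 < ((g1 (40 / 100) T x (tt T x) s k (((uu (3 / 100) (T + k)) + ((Real.pi * 1) * (T + k))) -
      ((27 / 100) * ((103 / 100) - ((40 / 100) + s)))) ((uu ((x + s) - 1) ((tt T x) + k)) +
      ((Real.pi * 1) * ((tt T x) + k)))) + (F1 x T)) ∨ 0 < ((g1 (40 / 100) T x (tt T x) s k (((uu
      (3 / 100) (T + k)) + ((Real.pi * (-1)) * (T + k))) - ((27 / 100) * ((103 / 100) - ((40 /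
      100) + s)))) ((uu ((x + s) - 1) ((tt T x) + k)) + ((Real.pi * 1) * ((tt T x) + k)))) + (F1 x
      T)) := by
  have h : chkT [(add (eg1 (q 40 100) (var 1) (var 0) (et (var 0) (var 1)) (var 2) (var 3) (sub (add (E.uu
      (q 3 100) (add (var 1) (var 3))) (mul (mul pi (q 1 1)) (add (var 1) (var 3)))) (mul (q 27
      100) (sub (q 103 100) (add (q 40 100) (var 2))))) (add (E.uu (sub (add (var 0) (var 2)) (q 1
      1)) (add (et (var 0) (var 1)) (var 3))) (mul (mul pi (q 1 1)) (add (et (var 0) (var 1)) (var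
      3))))) (eF1 (var 0) (var 1))), (add (eg1 (q 40 100) (var 1) (var 0) (et (var 0) (var 1))
      (var 2) (var 3) (sub (add (E.uu (q 3 100) (add (var 1) (var 3))) (mul (mul pi (q (-1) 1))
      (add (var 1) (var 3)))) (mul (q 27 100) (sub (q 103 100) (add (q 40 100) (var 2))))) (add
      (E.uu (sub (add (var 0) (var 2)) (q 1 1)) (add (et (var 0) (var 1)) (var 3))) (mul (mul pi
      (q 1 1)) (add (et (var 0) (var 1)) (var 3))))) (eF1 (var 0) (var 1))), (neg (add (et (var 0)
      (var 1)) (var 3))), (sub (add (var 1) (var 3)) (q 148 1000)), (sub (q 106 100) (add (var 0)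
      (var 2)))] 18
      1122461803394778958857503142344760226126014297765610259
      [V.of 10000 5350 5600 16, V.of 10000 (-180) 985 16, V.of 10000 5700 6300 16, V.of 10000
        (-930) 1450 16] = true := by
    decide +kernel
  obtain ⟨f, hf, hp⟩ := chkT4 h (by norm_num) (x := x) (y := T) (z := s) (w := k)
    (le_trans (by norm_num) a0) (le_trans b0 (by norm_num))
    (le_trans (by norm_num) a1) (le_trans b1 (by norm_num))
    (le_trans (by norm_num) a2) (le_trans b2 (by norm_num))
    (le_trans (by norm_num) a3) (le_trans b3 (by norm_num))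
  simp only [List.mem_cons, List.not_mem_nil, or_false] at hf
  rcases hf with rfl | rfl | rfl | rfl | rfl
  · simp only [eg1_val, eg2_val, eF1_val, eG1_val, eF3_val, et_val, nt_val, nm_val, nfZ_val, nfP_val, np1_val,
      np2_val, MR.e1_val, MR.e2_val, NumUs.E.val, NumIs.E.val, NumIs.lkR] at hp
    push_cast at hp
    try simp only [div_one] at hp
    left
    linarith only [hp]
  · simp only [eg1_val, eg2_val, eF1_val, eG1_val, eF3_val, et_val, nt_val, nm_val, nfZ_val, nfP_val, np1_val,
      np2_val, MR.e1_val, MR.e2_val, NumUs.E.val, NumIs.E.val, NumIs.lkR] at hp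
    push_cast at hp
    try simp only [div_one] at hp
    right
    linarith only [hp]
  · simp only [eg1_val, eg2_val, eF1_val, eG1_val, eF3_val, et_val, nt_val, nm_val, nfZ_val, nfP_val, np1_val,
      np2_val, MR.e1_val, MR.e2_val, NumUs.E.val, NumIs.E.val, NumIs.lkR] at hp
    push_cast at hp
    try simp only [div_one] at hp
    exfalso
    linarith only [c0, hp]
  · simp only [eg1_val, eg2_val, eF1_val, eG1_val, eF3_val, et_val, nt_val, nm_val, nfZ_val, nfP_val, np1_val,
      np2_val, MR.e1_val, MR.e2_val, NumUs.E.val, NumIs.E.val, NumIs.lkR] at hp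
    push_cast at hp
    try simp only [div_one] at hp
    exfalso
    linarith only [c1, hp]
  · simp only [eg1_val, eg2_val, eF1_val, eG1_val, eF3_val, et_val, nt_val, nm_val, nfZ_val, nfP_val, np1_val,
      np2_val, MR.e1_val, MR.e2_val, NumUs.E.val, NumIs.E.val, NumIs.lkR] at hp
    push_cast at hp
    try simp only [div_one] at hp
    exfalso
    linarith only [a0, a2, hp]

end C12

end Pool.Agent.Work.MP_b30479_gtS.G2

end
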