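import Pool.Agent.Work.MP_b30479_gt.TBS.G2.C12E
import Pool.Agent.Work.MP_b30479_gt.TBS.NumU.Tree

section

/-!
# Part of `C12R5`
-/
set_option linter.unusedSimpArgs false
set_option linter.unusedTactic false
set_option linter.unusedVariables false

set_option deprecated.oldSectionVars true

namespace Pool.Agent.Work.MP_b30479_gtS.G2

namespace C12

open NumUs NumUs.E
open NumIs (V)

/-- 11 boxes -/
theorem Y1An {x T s k : ℝ} (a0 : 7500 / 10000 ≤ x) (b0 : x ≤ 8000 / 10000) (a1 : -180 / 10000 ≤ T) (b1 : T ≤ 985 / 10000)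
    (a2 : 2600 / 10000 ≤ s) (b2 : s ≤ 5300 / 10000) (a3 : -930 / 10000 ≤ k) (b3 : k ≤ 1450 /
    10000) (c0 : (tt T x) + k ≤ 0) (c1 : (T + k) - (187 / 1000) ≤ 0) (c2 : k - ((0 / 1000) + ((290
    / 1000) * ((86 / 100) - s))) ≤ 0) (c3 : (-k) - ((0 / 1000) + ((465 / 1000) * ((86 / 100) -
    s))) ≤ 0) (c4 : (106 / 100) - (x + s) ≤ 0) :
    0 < ((g1 (44 / 100) T x (tt T x) s k (uu ((44 / 100) + s) (T + k)) ((uu ((x + s) - 1) ((tt T
      x) + k)) + ((Real.pi * (-1)) * ((tt T x) + k)))) + (F3 x T)) := by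
  have h : chkT [(add (eg1 (q 44 100) (var 1) (var 0) (et (var 0) (var 1)) (var 2) (var 3) (E.uu (add (q 44
      100) (var 2)) (add (var 1) (var 3))) (add (E.uu (sub (add (var 0) (var 2)) (q 1 1)) (add (et
      (var 0) (var 1)) (var 3))) (mul (mul pi (q (-1) 1)) (add (et (var 0) (var 1)) (var 3)))))
      (eF3 (var 0) (var 1))), (add (et (var 0) (var 1)) (var 3)), (sub (add (var 1) (var 3)) (q
      187 1000)), (sub (var 3) (add (q 0 1000) (mul (q 290 1000) (sub (q 86 100) (var 2))))), (sub
      (neg (var 3)) (add (q 0 1000) (mul (q 465 1000) (sub (q 86 100) (var 2))))), (sub (q 106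
      100) (add (var 0) (var 2)))] 18
      11523026251296499887514147
      [V.of 10000 7500 8000 16, V.of 10000 (-180) 985 16, V.of 10000 2600 5300 16, V.of 10000
        (-930) 1450 16] = true := by
    decide +kernel
  obtain ⟨f, hf, hp⟩ := chkT4 h (by norm_num) (x := x) (y := T) (z := s) (w := k)
    (le_trans (by norm_num) a0) (le_trans b0 (by norm_num))
    (le_trans (by norm_num) a1) (le_trans b1 (by norm_num))
    (le_trans (by norm_num) a2) (le_trans b2 (by norm_num))
    (le_trans (by norm_num) a3) (le_trans b3 (by norm_num))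
  simp only [List.mem_cons, List.not_mem_nil, or_false] at hf
  rcases hf with rfl | rfl | rfl | rfl | rfl | rfl
  · simp only [eg1_val, eg2_val, eF1_val, eG1_val, eF3_val, et_val, nt_val, nm_val, nfZ_val, nfP_val, np1_val,
      np2_val, MR.e1_val, MR.e2_val, NumUs.E.val, NumIs.E.val, NumIs.lkR] at hp
    push_cast at hp
    try simp only [div_one] at hp
    linarith only [hp]
  · simp only [eg1_val, eg2_val, eF1_val, eG1_val, eF3_val, et_val, nt_val, nm_val, nfZ_val, nfP_val, np1_val,
      np2_val, MR.e1_val, MR.e2_val, NumUs.E.val, NumIs.E.val, NumIs.lkR] at hp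
    push_cast at hp
    try simp only [div_one] at hp
    exfalso
    linarith only [c0, hp]
  · simp only [eg1_val, eg2_val, eF1_val, eG1_val, eF3_val, et_val, nt_val, nm_val, nfZ_val, nfP_val, np1_val,
      np2_val, MR.e1_val, MR.e2_val, NumUs.E.val, NumIs.E.val, NumIs.lkR] at hp
    push_cast at hp
    try simp only [div_one] at hp
    exfalso
    linarith only [c1, hp]
  · simp only [eg1_val, eg2_val, eF1_val, eG1_val, eF3_val, et_val, nt_val, nm_val, nfZ_val, nfP_val, np1_val,
      np2_val, MR.e1_val, MR.e2_val, NumUs.E.val, NumIs.E.val, NumIs.lkR] at hp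
    push_cast at hp
    try simp only [div_one] at hp
    exfalso
    linarith only [c2, hp]
  · simp only [eg1_val, eg2_val, eF1_val, eG1_val, eF3_val, et_val, nt_val, nm_val, nfZ_val, nfP_val, np1_val,
      np2_val, MR.e1_val, MR.e2_val, NumUs.E.val, NumIs.E.val, NumIs.lkR] at hp
    push_cast at hp
    try simp only [div_one] at hp
    exfalso
    linarith only [b2, a3, hp]
  · simp only [eg1_val, eg2_val, eF1_val, eG1_val, eF3_val, et_val, nt_val, nm_val, nfZ_val, nfP_val, np1_val,
      np2_val, MR.e1_val, MR.e2_val, NumUs.E.val, NumIs.E.val, NumIs.lkR] at hp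
    push_cast at hp
    try simp only [div_one] at hp
    exfalso
    linarith only [c4, hp]

/-- 5 boxes -/
theorem Y1Bn {x T s k : ℝ} (a0 : 7500 / 10000 ≤ x) (b0 : x ≤ 8000 / 10000) (a1 : -180 / 10000 ≤ T) (b1 : T ≤ 985 / 10000)
    (a2 : 5300 / 10000 ≤ s) (b2 : s ≤ 5900 / 10000) (a3 : -930 / 10000 ≤ k) (b3 : k ≤ 1450 /
    10000) (c0 : (tt T x) + k ≤ 0) (c1 : (T + k) - (187 / 1000) ≤ 0) (c2 : k - ((0 / 1000) + ((290
    / 1000) * ((86 / 100) - s))) ≤ 0) (c3 : (-k) - ((0 / 1000) + ((465 / 1000) * ((86 / 100) -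
    s))) ≤ 0) (c4 : (106 / 100) - (x + s) ≤ 0) :
    0 < ((g1 (44 / 100) T x (tt T x) s k (((uu (3 / 100) (T + k)) + ((Real.pi * 1) * (T + k))) -
      ((27 / 100) * ((103 / 100) - ((44 / 100) + s)))) ((uu ((x + s) - 1) ((tt T x) + k)) +
      ((Real.pi * (-1)) * ((tt T x) + k)))) + (F3 x T)) ∨ 0 < ((g1 (44 / 100) T x (tt T x) s k
      (((uu (3 / 100) (T + k)) + ((Real.pi * (-1)) * (T + k))) - ((27 / 100) * ((103 / 100) - ((44
      / 100) + s)))) ((uu ((x + s) - 1) ((tt T x) + k)) + ((Real.pi * (-1)) * ((tt T x) + k)))) +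
      (F3 x T)) := by
  have h : chkT [(add (eg1 (q 44 100) (var 1) (var 0) (et (var 0) (var 1)) (var 2) (var 3) (sub (add (E.uu
      (q 3 100) (add (var 1) (var 3))) (mul (mul pi (q 1 1)) (add (var 1) (var 3)))) (mul (q 27
      100) (sub (q 103 100) (add (q 44 100) (var 2))))) (add (E.uu (sub (add (var 0) (var 2)) (q 1
      1)) (add (et (var 0) (var 1)) (var 3))) (mul (mul pi (q (-1) 1)) (add (et (var 0) (var 1))
      (var 3))))) (eF3 (var 0) (var 1))), (add (eg1 (q 44 100) (var 1) (var 0) (et (var 0) (var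
      1)) (var 2) (var 3) (sub (add (E.uu (q 3 100) (add (var 1) (var 3))) (mul (mul pi (q (-1)
      1)) (add (var 1) (var 3)))) (mul (q 27 100) (sub (q 103 100) (add (q 44 100) (var 2)))))
      (add (E.uu (sub (add (var 0) (var 2)) (q 1 1)) (add (et (var 0) (var 1)) (var 3))) (mul (mul
      pi (q (-1) 1)) (add (et (var 0) (var 1)) (var 3))))) (eF3 (var 0) (var 1))), (add (et (var
      0) (var 1)) (var 3)), (sub (add (var 1) (var 3)) (q 187 1000)), (sub (var 3) (add (q 0 1000)
      (mul (q 290 1000) (sub (q 86 100) (var 2))))), (sub (neg (var 3)) (add (q 0 1000) (mul (q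
      465 1000) (sub (q 86 100) (var 2))))), (sub (q 106 100) (add (var 0) (var 2)))] 18
      36659892531
      [V.of 10000 7500 8000 16, V.of 10000 (-180) 985 16, V.of 10000 5300 5900 16, V.of 10000
        (-930) 1450 16] = true := by
    decide +kernel
  obtain ⟨f, hf, hp⟩ := chkT4 h (by norm_num) (x := x) (y := T) (z := s) (w := k)
    (le_trans (by norm_num) a0) (le_trans b0 (by norm_num))
    (le_trans (by norm_num) a1) (le_trans b1 (by norm_num))
    (le_trans (by norm_num) a2) (le_trans b2 (by norm_num))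
    (le_trans (by norm_num) a3) (le_trans b3 (by norm_num))
  simp only [List.mem_cons, List.not_mem_nil, or_false] at hf
  rcases hf with rfl | rfl | rfl | rfl | rfl | rfl | rfl
  · simp only [eg1_val, eg2_val, eF1_val, eG1_val, eF3_val, et_val, nt_val, nm_val, nfZ_val, nfP_val, np1_val,
      np2_val, MR.e1_val, MR.e2_val, NumUs.E.val, NumIs.E.val, NumIs.lkR] at hp
    push_cast at hp
    try simp only [div_one] at hp
    left
    linarith only [hp]
  · simp only [eg1_val, eg2_val, eF1_val, eG1_val, eF3_val, et_val, nt_val, nm_val, nfZ_val, nfP_val, np1_val,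
      np2_val, MR.e1_val, MR.e2_val, NumUs.E.val, NumIs.E.val, NumIs.lkR] at hp
    push_cast at hp
    try simp only [div_one] at hp
    right
    linarith only [hp]
  · simp only [eg1_val, eg2_val, eF1_val, eG1_val, eF3_val, et_val, nt_val, nm_val, nfZ_val, nfP_val, np1_val,
      np2_val, MR.e1_val, MR.e2_val, NumUs.E.val, NumIs.E.val, NumIs.lkR] at hp
    push_cast at hp
    try simp only [div_one] at hp
    exfalso
    linarith only [c0, hp]
  · simp only [eg1_val, eg2_val, eF1_val, eG1_val, eF3_val, et_val, nt_val, nm_val, nfZ_val, nfP_val, np1_val,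
      np2_val, MR.e1_val, MR.e2_val, NumUs.E.val, NumIs.E.val, NumIs.lkR] at hp
    push_cast at hp
    try simp only [div_one] at hp
    exfalso
    linarith only [c1, hp]
  · simp only [eg1_val, eg2_val, eF1_val, eG1_val, eF3_val, et_val, nt_val, nm_val, nfZ_val, nfP_val, np1_val,
      np2_val, MR.e1_val, MR.e2_val, NumUs.E.val, NumIs.E.val, NumIs.lkR] at hp
    push_cast at hp
    try simp only [div_one] at hp
    exfalso
    linarith only [c2, hp]
  · simp only [eg1_val, eg2_val, eF1_val, eG1_val, eF3_val, et_val, nt_val, nm_val, nfZ_val, nfP_val, np1_val,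
      np2_val, MR.e1_val, MR.e2_val, NumUs.E.val, NumIs.E.val, NumIs.lkR] at hp
    push_cast at hp
    try simp only [div_one] at hp
    exfalso
    linarith only [b2, a3, hp]
  · simp only [eg1_val, eg2_val, eF1_val, eG1_val, eF3_val, et_val, nt_val, nm_val, nfZ_val, nfP_val, np1_val,
      np2_val, MR.e1_val, MR.e2_val, NumUs.E.val, NumIs.E.val, NumIs.lkR] at hp
    push_cast at hp
    try simp only [div_one] at hp
    exfalso
    linarith only [a0, a2, hp]

/-- 19 boxes -/
theorem Y1Cp {x T s k : ℝ} (a0 : 7500 / 10000 ≤ x) (b0 : x ≤ 8000 / 10000) (a1 : -180 / 10000 ≤ T) (b1 : T ≤ 985 / 10000)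
    (a2 : 5900 / 10000 ≤ s) (b2 : s ≤ 7000 / 10000) (a3 : -930 / 10000 ≤ k) (b3 : k ≤ 1450 /
    10000) (c0 : -((tt T x) + k) ≤ 0) (c1 : (T + k) - (187 / 1000) ≤ 0) (c2 : k - ((0 / 1000) +
    ((290 / 1000) * ((86 / 100) - s))) ≤ 0) (c3 : (-k) - ((0 / 1000) + ((465 / 1000) * ((86 / 100)
    - s))) ≤ 0) (c4 : (106 / 100) - (x + s) ≤ 0) :
    0 < ((g1 (44 / 100) T x (tt T x) s k ((uu (((44 / 100) + s) - 1) (T + k)) + ((Real.pi * 1) *
      (T + k))) ((uu ((x + s) - 1) ((tt T x) + k)) + ((Real.pi * 1) * ((tt T x) + k)))) + (F3 x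
      T)) ∨ 0 < ((g1 (44 / 100) T x (tt T x) s k ((uu (((44 / 100) + s) - 1) (T + k)) + ((Real.pi
      * (-1)) * (T + k))) ((uu ((x + s) - 1) ((tt T x) + k)) + ((Real.pi * 1) * ((tt T x) + k))))
      + (F3 x T)) := by
  have h : chkT [(add (eg1 (q 44 100) (var 1) (var 0) (et (var 0) (var 1)) (var 2) (var 3) (add (E.uu (sub
      (add (q 44 100) (var 2)) (q 1 1)) (add (var 1) (var 3))) (mul (mul pi (q 1 1)) (add (var 1)
      (var 3)))) (add (E.uu (sub (add (var 0) (var 2)) (q 1 1)) (add (et (var 0) (var 1)) (var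
      3))) (mul (mul pi (q 1 1)) (add (et (var 0) (var 1)) (var 3))))) (eF3 (var 0) (var 1))),
      (add (eg1 (q 44 100) (var 1) (var 0) (et (var 0) (var 1)) (var 2) (var 3) (add (E.uu (sub
      (add (q 44 100) (var 2)) (q 1 1)) (add (var 1) (var 3))) (mul (mul pi (q (-1) 1)) (add (var
      1) (var 3)))) (add (E.uu (sub (add (var 0) (var 2)) (q 1 1)) (add (et (var 0) (var 1)) (var
      3))) (mul (mul pi (q 1 1)) (add (et (var 0) (var 1)) (var 3))))) (eF3 (var 0) (var 1))),
      (neg (add (et (var 0) (var 1)) (var 3))), (sub (add (var 1) (var 3)) (q 187 1000)), (sub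
      (var 3) (add (q 0 1000) (mul (q 290 1000) (sub (q 86 100) (var 2))))), (sub (neg (var 3))
      (add (q 0 1000) (mul (q 465 1000) (sub (q 86 100) (var 2))))), (sub (q 106 100) (add (var 0)
      (var 2)))] 18
      279850965421406153835559298431132013759144754
      [V.of 10000 7500 8000 16, V.of 10000 (-180) 985 16, V.of 10000 5900 7000 16, V.of 10000
        (-930) 1450 16] = true := by
    decide +kernel
  obtain ⟨f, hf, hp⟩ := chkT4 h (by norm_num) (x := x) (y := T) (z := s) (w := k)
    (le_trans (by norm_num) a0) (le_trans b0 (by norm_num))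
    (le_trans (by norm_num) a1) (le_trans b1 (by norm_num))
    (le_trans (by norm_num) a2) (le_trans b2 (by norm_num))
    (le_trans (by norm_num) a3) (le_trans b3 (by norm_num))
  simp only [List.mem_cons, List.not_mem_nil, or_false] at hf
  rcases hf with rfl | rfl | rfl | rfl | rfl | rfl | rfl
  · simp only [eg1_val, eg2_val, eF1_val, eG1_val, eF3_val, et_val, nt_val, nm_val, nfZ_val, nfP_val, np1_val,
      np2_val, MR.e1_val, MR.e2_val, NumUs.E.val, NumIs.E.val, NumIs.lkR] at hp
    push_cast at hp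
    try simp only [div_one] at hp
    left
    linarith only [hp]
  · simp only [eg1_val, eg2_val, eF1_val, eG1_val, eF3_val, et_val, nt_val, nm_val, nfZ_val, nfP_val, np1_val,
      np2_val, MR.e1_val, MR.e2_val, NumUs.E.val, NumIs.E.val, NumIs.lkR] at hp
    push_cast at hp
    try simp only [div_one] at hp
    right
    linarith only [hp]
  · simp only [eg1_val, eg2_val, eF1_val, eG1_val, eF3_val, et_val, nt_val, nm_val, nfZ_val, nfP_val, np1_val,
      np2_val, MR.e1_val, MR.e2_val, NumUs.E.val, NumIs.E.val, NumIs.lkR] at hp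
    push_cast at hp
    try simp only [div_one] at hp
    exfalso
    linarith only [c0, hp]
  · simp only [eg1_val, eg2_val, eF1_val, eG1_val, eF3_val, et_val, nt_val, nm_val, nfZ_val, nfP_val, np1_val,
      np2_val, MR.e1_val, MR.e2_val, NumUs.E.val, NumIs.E.val, NumIs.lkR] at hp
    push_cast at hp
    try simp only [div_one] at hp
    exfalso
    linarith only [c1, hp]
  · simp only [eg1_val, eg2_val, eF1_val, eG1_val, eF3_val, et_val, nt_val, nm_val, nfZ_val, nfP_val, np1_val,
      np2_val, MR.e1_val, MR.e2_val, NumUs.E.val, NumIs.E.val, NumIs.lkR] at hp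
    push_cast at hp
    try simp only [div_one] at hp
    exfalso
    linarith only [c2, hp]
  · simp only [eg1_val, eg2_val, eF1_val, eG1_val, eF3_val, et_val, nt_val, nm_val, nfZ_val, nfP_val, np1_val,
      np2_val, MR.e1_val, MR.e2_val, NumUs.E.val, NumIs.E.val, NumIs.lkR] at hp
    push_cast at hp
    try simp only [div_one] at hp
    exfalso
    linarith only [c3, hp]
  · simp only [eg1_val, eg2_val, eF1_val, eG1_val, eF3_val, et_val, nt_val, nm_val, nfZ_val, nfP_val, np1_val,
      np2_val, MR.e1_val, MR.e2_val, NumUs.E.val, NumIs.E.val, NumIs.lkR] at hp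
    push_cast at hp
    try simp only [div_one] at hp
    exfalso
    linarith only [a0, a2, hp]

/-- 10 boxes -/
theorem Y1Cn {x T s k : ℝ} (a0 : 7500 / 10000 ≤ x) (b0 : x ≤ 8000 / 10000) (a1 : -180 / 10000 ≤ T) (b1 : T ≤ 985 / 10000)
    (a2 : 5900 / 10000 ≤ s) (b2 : s ≤ 7000 / 10000) (a3 : -930 / 10000 ≤ k) (b3 : k ≤ 1450 /
    10000) (c0 : (tt T x) + k ≤ 0) (c1 : (T + k) - (187 / 1000) ≤ 0) (c2 : k - ((0 / 1000) + ((290
    / 1000) * ((86 / 100) - s))) ≤ 0) (c3 : (-k) - ((0 / 1000) + ((465 / 1000) * ((86 / 100) -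
    s))) ≤ 0) (c4 : (106 / 100) - (x + s) ≤ 0) :
    0 < ((g1 (44 / 100) T x (tt T x) s k ((uu (((44 / 100) + s) - 1) (T + k)) + ((Real.pi * 1) *
      (T + k))) ((uu ((x + s) - 1) ((tt T x) + k)) + ((Real.pi * (-1)) * ((tt T x) + k)))) + (F3 x
      T)) ∨ 0 < ((g1 (44 / 100) T x (tt T x) s k ((uu (((44 / 100) + s) - 1) (T + k)) + ((Real.pi
      * (-1)) * (T + k))) ((uu ((x + s) - 1) ((tt T x) + k)) + ((Real.pi * (-1)) * ((tt T x) +
      k)))) + (F3 x T)) := by
  have h : chkT [(add (eg1 (q 44 100) (var 1) (var 0) (et (var 0) (var 1)) (var 2) (var 3) (add (E.uu (sub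
      (add (q 44 100) (var 2)) (q 1 1)) (add (var 1) (var 3))) (mul (mul pi (q 1 1)) (add (var 1)
      (var 3)))) (add (E.uu (sub (add (var 0) (var 2)) (q 1 1)) (add (et (var 0) (var 1)) (var
      3))) (mul (mul pi (q (-1) 1)) (add (et (var 0) (var 1)) (var 3))))) (eF3 (var 0) (var 1))),
      (add (eg1 (q 44 100) (var 1) (var 0) (et (var 0) (var 1)) (var 2) (var 3) (add (E.uu (sub
      (add (q 44 100) (var 2)) (q 1 1)) (add (var 1) (var 3))) (mul (mul pi (q (-1) 1)) (add (var
      1) (var 3)))) (add (E.uu (sub (add (var 0) (var 2)) (q 1 1)) (add (et (var 0) (var 1)) (var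
      3))) (mul (mul pi (q (-1) 1)) (add (et (var 0) (var 1)) (var 3))))) (eF3 (var 0) (var 1))),
      (add (et (var 0) (var 1)) (var 3)), (sub (add (var 1) (var 3)) (q 187 1000)), (sub (var 3)
      (add (q 0 1000) (mul (q 290 1000) (sub (q 86 100) (var 2))))), (sub (neg (var 3)) (add (q 0
      1000) (mul (q 465 1000) (sub (q 86 100) (var 2))))), (sub (q 106 100) (add (var 0) (var
      2)))] 18
      49754982973432168788259
      [V.of 10000 7500 8000 16, V.of 10000 (-180) 985 16, V.of 10000 5900 7000 16, V.of 10000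
        (-930) 1450 16] = true := by
    decide +kernel
  obtain ⟨f, hf, hp⟩ := chkT4 h (by norm_num) (x := x) (y := T) (z := s) (w := k)
    (le_trans (by norm_num) a0) (le_trans b0 (by norm_num))
    (le_trans (by norm_num) a1) (le_trans b1 (by norm_num))
    (le_trans (by norm_num) a2) (le_trans b2 (by norm_num))
    (le_trans (by norm_num) a3) (le_trans b3 (by norm_num))
  simp only [List.mem_cons, List.not_mem_nil, or_false] at hf
  rcases hf with rfl | rfl | rfl | rfl | rfl | rfl | rfl
  · simp only [eg1_val, eg2_val, eF1_val, eG1_val, eF3_val, et_val, nt_val, nm_val, nfZ_val, nfP_val, np1_val,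
      np2_val, MR.e1_val, MR.e2_val, NumUs.E.val, NumIs.E.val, NumIs.lkR] at hp
    push_cast at hp
    try simp only [div_one] at hp
    left
    linarith only [hp]
  · simp only [eg1_val, eg2_val, eF1_val, eG1_val, eF3_val, et_val, nt_val, nm_val, nfZ_val, nfP_val, np1_val,
      np2_val, MR.e1_val, MR.e2_val, NumUs.E.val, NumIs.E.val, NumIs.lkR] at hp
    push_cast at hp
    try simp only [div_one] at hp
    right
    linarith only [hp]
  · simp only [eg1_val, eg2_val, eF1_val, eG1_val, eF3_val, et_val, nt_val, nm_val, nfZ_val, nfP_val, np1_val,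
      np2_val, MR.e1_val, MR.e2_val, NumUs.E.val, NumIs.E.val, NumIs.lkR] at hp
    push_cast at hp
    try simp only [div_one] at hp
    exfalso
    linarith only [c0, hp]
  · simp only [eg1_val, eg2_val, eF1_val, eG1_val, eF3_val, et_val, nt_val, nm_val, nfZ_val, nfP_val, np1_val,
      np2_val, MR.e1_val, MR.e2_val, NumUs.E.val, NumIs.E.val, NumIs.lkR] at hp
    push_cast at hp
    try simp only [div_one] at hp
    exfalso
    linarith only [c1, hp]
  · simp only [eg1_val, eg2_val, eF1_val, eG1_val, eF3_val, et_val, nt_val, nm_val, nfZ_val, nfP_val, np1_val,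
      np2_val, MR.e1_val, MR.e2_val, NumUs.E.val, NumIs.E.val, NumIs.lkR] at hp
    push_cast at hp
    try simp only [div_one] at hp
    exfalso
    linarith only [c2, hp]
  · simp only [eg1_val, eg2_val, eF1_val, eG1_val, eF3_val, et_val, nt_val, nm_val, nfZ_val, nfP_val, np1_val,
      np2_val, MR.e1_val, MR.e2_val, NumUs.E.val, NumIs.E.val, NumIs.lkR] at hp
    push_cast at hp
    try simp only [div_one] at hp
    exfalso
    linarith only [c3, hp]
  · simp only [eg1_val, eg2_val, eF1_val, eG1_val, eF3_val, et_val, nt_val, nm_val, nfZ_val, nfP_val, np1_val,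
      np2_val, MR.e1_val, MR.e2_val, NumUs.E.val, NumIs.E.val, NumIs.lkR] at hp
    push_cast at hp
    try simp only [div_one] at hp
    exfalso
    linarith only [a0, a2, hp]

/-- 1 boxes -/
theorem Y1Dp {x T s k : ℝ} (a0 : 7500 / 10000 ≤ x) (b0 : x ≤ 8000 / 10000) (a1 : 50 / 10000 ≤ T) (b1 : T ≤ 790 / 10000)
    (a2 : 7000 / 10000 ≤ s) (b2 : s ≤ 8000 / 10000) (a3 : 0 / 10000 ≤ k) (b3 : k ≤ 280 / 10000)
    (c0 : -((tt T x) + k) ≤ 0) (c1 : (T + k) - (130 / 1000) ≤ 0) (c2 : k - ((0 / 1000) + ((273 /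
    1000) * ((80 / 100) - s))) ≤ 0) :
    0 < ((g1 (44 / 100) T x (tt T x) s k ((uu (((44 / 100) + s) - 1) (T + k)) + ((Real.pi * 1) *
      (T + k))) ((uu ((x + s) - 1) ((tt T x) + k)) + ((Real.pi * 1) * ((tt T x) + k)))) + (F3 x
      T)) ∨ 0 < ((g1 (44 / 100) T x (tt T x) s k ((uu (((44 / 100) + s) - 1) (T + k)) + ((Real.pi
      * (-1)) * (T + k))) ((uu ((x + s) - 1) ((tt T x) + k)) + ((Real.pi * 1) * ((tt T x) + k))))
      + (F3 x T)) := by
  have h : chkT [(add (eg1 (q 44 100) (var 1) (var 0) (et (var 0) (var 1)) (var 2) (var 3) (add (E.uu (sub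
      (add (q 44 100) (var 2)) (q 1 1)) (add (var 1) (var 3))) (mul (mul pi (q 1 1)) (add (var 1)
      (var 3)))) (add (E.uu (sub (add (var 0) (var 2)) (q 1 1)) (add (et (var 0) (var 1)) (var
      3))) (mul (mul pi (q 1 1)) (add (et (var 0) (var 1)) (var 3))))) (eF3 (var 0) (var 1))),
      (add (eg1 (q 44 100) (var 1) (var 0) (et (var 0) (var 1)) (var 2) (var 3) (add (E.uu (sub
      (add (q 44 100) (var 2)) (q 1 1)) (add (var 1) (var 3))) (mul (mul pi (q (-1) 1)) (add (var
      1) (var 3)))) (add (E.uu (sub (add (var 0) (var 2)) (q 1 1)) (add (et (var 0) (var 1)) (var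
      3))) (mul (mul pi (q 1 1)) (add (et (var 0) (var 1)) (var 3))))) (eF3 (var 0) (var 1))),
      (neg (add (et (var 0) (var 1)) (var 3))), (sub (add (var 1) (var 3)) (q 130 1000)), (sub
      (var 3) (add (q 0 1000) (mul (q 273 1000) (sub (q 80 100) (var 2)))))] 18
      8
      [V.of 10000 7500 8000 16, V.of 10000 50 790 16, V.of 10000 7000 8000 16, V.of 10000 0 280
        16] = true := by
    decide +kernel
  obtain ⟨f, hf, hp⟩ := chkT4 h (by norm_num) (x := x) (y := T) (z := s) (w := k)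
    (le_trans (by norm_num) a0) (le_trans b0 (by norm_num))
    (le_trans (by norm_num) a1) (le_trans b1 (by norm_num))
    (le_trans (by norm_num) a2) (le_trans b2 (by norm_num))
    (le_trans (by norm_num) a3) (le_trans b3 (by norm_num))
  simp only [List.mem_cons, List.not_mem_nil, or_false] at hf
  rcases hf with rfl | rfl | rfl | rfl | rfl
  · simp only [eg1_val, eg2_val, eF1_val, eG1_val, eF3_val, et_val, nt_val, nm_val, nfZ_val, nfP_val, np1_val,
      np2_val, MR.e1_val, MR.e2_val, NumUs.E.val, NumIs.E.val, NumIs.lkR] at hp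
    push_cast at hp
    try simp only [div_one] at hp
    left
    linarith only [hp]
  · simp only [eg1_val, eg2_val, eF1_val, eG1_val, eF3_val, et_val, nt_val, nm_val, nfZ_val, nfP_val, np1_val,
      np2_val, MR.e1_val, MR.e2_val, NumUs.E.val, NumIs.E.val, NumIs.lkR] at hp
    push_cast at hp
    try simp only [div_one] at hp
    right
    linarith only [hp]
  · simp only [eg1_val, eg2_val, eF1_val, eG1_val, eF3_val, et_val, nt_val, nm_val, nfZ_val, nfP_val, np1_val,
      np2_val, MR.e1_val, MR.e2_val, NumUs.E.val, NumIs.E.val, NumIs.lkR] at hp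
    push_cast at hp
    try simp only [div_one] at hp
    exfalso
    linarith only [c0, hp]
  · simp only [eg1_val, eg2_val, eF1_val, eG1_val, eF3_val, et_val, nt_val, nm_val, nfZ_val, nfP_val, np1_val,
      np2_val, MR.e1_val, MR.e2_val, NumUs.E.val, NumIs.E.val, NumIs.lkR] at hp
    push_cast at hp
    try simp only [div_one] at hp
    exfalso
    linarith only [b1, b3, hp]
  · simp only [eg1_val, eg2_val, eF1_val, eG1_val, eF3_val, et_val, nt_val, nm_val, nfZ_val, nfP_val, np1_val,
      np2_val, MR.e1_val, MR.e2_val, NumUs.E.val, NumIs.E.val, NumIs.lkR] at hp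
    push_cast at hp
    try simp only [div_one] at hp
    exfalso
    linarith only [c2, hp]

/-- 1 boxes -/
theorem Y1Dn {x T s k : ℝ} (a0 : 7500 / 10000 ≤ x) (b0 : x ≤ 8000 / 10000) (a1 : 50 / 10000 ≤ T) (b1 : T ≤ 790 / 10000)
    (a2 : 7000 / 10000 ≤ s) (b2 : s ≤ 8000 / 10000) (a3 : 0 / 10000 ≤ k) (b3 : k ≤ 280 / 10000)
    (c0 : (tt T x) + k ≤ 0) (c1 : (T + k) - (130 / 1000) ≤ 0) (c2 : k - ((0 / 1000) + ((273 /
    1000) * ((80 / 100) - s))) ≤ 0) :
    0 < ((g1 (44 / 100) T x (tt T x) s k ((uu (((44 / 100) + s) - 1) (T + k)) + ((Real.pi * 1) *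
      (T + k))) ((uu ((x + s) - 1) ((tt T x) + k)) + ((Real.pi * (-1)) * ((tt T x) + k)))) + (F3 x
      T)) ∨ 0 < ((g1 (44 / 100) T x (tt T x) s k ((uu (((44 / 100) + s) - 1) (T + k)) + ((Real.pi
      * (-1)) * (T + k))) ((uu ((x + s) - 1) ((tt T x) + k)) + ((Real.pi * (-1)) * ((tt T x) +
      k)))) + (F3 x T)) := by
  have h : chkT [(add (eg1 (q 44 100) (var 1) (var 0) (et (var 0) (var 1)) (var 2) (var 3) (add (E.uu (sub
      (add (q 44 100) (var 2)) (q 1 1)) (add (var 1) (var 3))) (mul (mul pi (q 1 1)) (add (var 1)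
      (var 3)))) (add (E.uu (sub (add (var 0) (var 2)) (q 1 1)) (add (et (var 0) (var 1)) (var
      3))) (mul (mul pi (q (-1) 1)) (add (et (var 0) (var 1)) (var 3))))) (eF3 (var 0) (var 1))),
      (add (eg1 (q 44 100) (var 1) (var 0) (et (var 0) (var 1)) (var 2) (var 3) (add (E.uu (sub
      (add (q 44 100) (var 2)) (q 1 1)) (add (var 1) (var 3))) (mul (mul pi (q (-1) 1)) (add (var
      1) (var 3)))) (add (E.uu (sub (add (var 0) (var 2)) (q 1 1)) (add (et (var 0) (var 1)) (var
      3))) (mul (mul pi (q (-1) 1)) (add (et (var 0) (var 1)) (var 3))))) (eF3 (var 0) (var 1))),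
      (add (et (var 0) (var 1)) (var 3)), (sub (add (var 1) (var 3)) (q 130 1000)), (sub (var 3)
      (add (q 0 1000) (mul (q 273 1000) (sub (q 80 100) (var 2)))))] 18
      8
      [V.of 10000 7500 8000 16, V.of 10000 50 790 16, V.of 10000 7000 8000 16, V.of 10000 0 280
        16] = true := by
    decide +kernel
  obtain ⟨f, hf, hp⟩ := chkT4 h (by norm_num) (x := x) (y := T) (z := s) (w := k)
    (le_trans (by norm_num) a0) (le_trans b0 (by norm_num))
    (le_trans (by norm_num) a1) (le_trans b1 (by norm_num))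
    (le_trans (by norm_num) a2) (le_trans b2 (by norm_num))
    (le_trans (by norm_num) a3) (le_trans b3 (by norm_num))
  simp only [List.mem_cons, List.not_mem_nil, or_false] at hf
  rcases hf with rfl | rfl | rfl | rfl | rfl
  · simp only [eg1_val, eg2_val, eF1_val, eG1_val, eF3_val, et_val, nt_val, nm_val, nfZ_val, nfP_val, np1_val,
      np2_val, MR.e1_val, MR.e2_val, NumUs.E.val, NumIs.E.val, NumIs.lkR] at hp
    push_cast at hp
    try simp only [div_one] at hp
    left
    linarith only [hp]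
  · simp only [eg1_val, eg2_val, eF1_val, eG1_val, eF3_val, et_val, nt_val, nm_val, nfZ_val, nfP_val, np1_val,
      np2_val, MR.e1_val, MR.e2_val, NumUs.E.val, NumIs.E.val, NumIs.lkR] at hp
    push_cast at hp
    try simp only [div_one] at hp
    right
    linarith only [hp]
  · simp only [eg1_val, eg2_val, eF1_val, eG1_val, eF3_val, et_val, nt_val, nm_val, nfZ_val, nfP_val, np1_val,
      np2_val, MR.e1_val, MR.e2_val, NumUs.E.val, NumIs.E.val, NumIs.lkR] at hp
    push_cast at hp
    try simp only [div_one] at hp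
    exfalso
    linarith only [c0, hp]
  · simp only [eg1_val, eg2_val, eF1_val, eG1_val, eF3_val, et_val, nt_val, nm_val, nfZ_val, nfP_val, np1_val,
      np2_val, MR.e1_val, MR.e2_val, NumUs.E.val, NumIs.E.val, NumIs.lkR] at hp
    push_cast at hp
    try simp only [div_one] at hp
    exfalso
    linarith only [b1, b3, hp]
  · simp only [eg1_val, eg2_val, eF1_val, eG1_val, eF3_val, et_val, nt_val, nm_val, nfZ_val, nfP_val, np1_val,
      np2_val, MR.e1_val, MR.e2_val, NumUs.E.val, NumIs.E.val, NumIs.lkR] at hp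
    push_cast at hp
    try simp only [div_one] at hp
    exfalso
    linarith only [c2, hp]

/-- 30 boxes -/
theorem Y2Ap {x T s k : ℝ} (a0 : 7500 / 10000 ≤ x) (b0 : x ≤ 8000 / 10000) (a1 : -180 / 10000 ≤ T) (b1 : T ≤ 985 / 10000)
    (a2 : 2600 / 10000 ≤ s) (b2 : s ≤ 5300 / 10000) (a3 : -985 / 10000 ≤ k) (b3 : k ≤ 960 / 10000)
    (c0 : -(k - (tt T x)) ≤ 0) (c1 : k - ((11 / 1000) + ((320 / 1000) * ((63 / 100) - s))) ≤ 0)
    (c2 : (-k) - ((0 / 1000) + ((340 / 1000) * ((80 / 100) - s))) ≤ 0) (c3 : (106 / 100) - (x + s)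
    ≤ 0) :
    0 < ((g2 (44 / 100) T x (tt T x) s k (uu ((44 / 100) + s) (k - T)) ((uu ((x + s) - 1) (k -
      (tt T x))) + ((Real.pi * 1) * (k - (tt T x))))) - (F3 x T)) := by
  have h : chkT [(sub (eg2 (q 44 100) (var 1) (var 0) (et (var 0) (var 1)) (var 2) (var 3) (E.uu (add (q 44
      100) (var 2)) (sub (var 3) (var 1))) (add (E.uu (sub (add (var 0) (var 2)) (q 1 1)) (sub
      (var 3) (et (var 0) (var 1)))) (mul (mul pi (q 1 1)) (sub (var 3) (et (var 0) (var 1))))))
      (eF3 (var 0) (var 1))), (neg (sub (var 3) (et (var 0) (var 1)))), (sub (var 3) (add (q 11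
      1000) (mul (q 320 1000) (sub (q 63 100) (var 2))))), (sub (neg (var 3)) (add (q 0 1000) (mul
      (q 340 1000) (sub (q 80 100) (var 2))))), (sub (q 106 100) (add (var 0) (var 2)))] 18
      72686551744451781219718637875157826326320303979588852145955348701905442
      [V.of 10000 7500 8000 16, V.of 10000 (-180) 985 16, V.of 10000 2600 5300 16, V.of 10000
        (-985) 960 16] = true := by
    decide +kernel
  obtain ⟨f, hf, hp⟩ := chkT4 h (by norm_num) (x := x) (y := T) (z := s) (w := k)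
    (le_trans (by norm_num) a0) (le_trans b0 (by norm_num))
    (le_trans (by norm_num) a1) (le_trans b1 (by norm_num))
    (le_trans (by norm_num) a2) (le_trans b2 (by norm_num))
    (le_trans (by norm_num) a3) (le_trans b3 (by norm_num))
  simp only [List.mem_cons, List.not_mem_nil, or_false] at hf
  rcases hf with rfl | rfl | rfl | rfl | rfl
  · simp only [eg1_val, eg2_val, eF1_val, eG1_val, eF3_val, et_val, nt_val, nm_val, nfZ_val, nfP_val, np1_val,
      np2_val, MR.e1_val, MR.e2_val, NumUs.E.val, NumIs.E.val, NumIs.lkR] at hp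
    push_cast at hp
    try simp only [div_one] at hp
    linarith only [hp]
  · simp only [eg1_val, eg2_val, eF1_val, eG1_val, eF3_val, et_val, nt_val, nm_val, nfZ_val, nfP_val, np1_val,
      np2_val, MR.e1_val, MR.e2_val, NumUs.E.val, NumIs.E.val, NumIs.lkR] at hp
    push_cast at hp
    try simp only [div_one] at hp
    exfalso
    linarith only [c0, hp]
  · simp only [eg1_val, eg2_val, eF1_val, eG1_val, eF3_val, et_val, nt_val, nm_val, nfZ_val, nfP_val, np1_val,
      np2_val, MR.e1_val, MR.e2_val, NumUs.E.val, NumIs.E.val, NumIs.lkR] at hp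
    push_cast at hp
    try simp only [div_one] at hp
    exfalso
    linarith only [c1, hp]
  · simp only [eg1_val, eg2_val, eF1_val, eG1_val, eF3_val, et_val, nt_val, nm_val, nfZ_val, nfP_val, np1_val,
      np2_val, MR.e1_val, MR.e2_val, NumUs.E.val, NumIs.E.val, NumIs.lkR] at hp
    push_cast at hp
    try simp only [div_one] at hp
    exfalso
    linarith only [c2, hp]
  · simp only [eg1_val, eg2_val, eF1_val, eG1_val, eF3_val, et_val, nt_val, nm_val, nfZ_val, nfP_val, np1_val,
      np2_val, MR.e1_val, MR.e2_val, NumUs.E.val, NumIs.E.val, NumIs.lkR] at hp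
    push_cast at hp
    try simp only [div_one] at hp
    exfalso
    linarith only [c3, hp]

end C12

end Pool.Agent.Work.MP_b30479_gtS.G2

end

section

/-!
# The hinge `1 | 2`: rows of the ramp `[.51, .56]` and of the flat part `[.495, .51]`

Found with `NumUs.cert`.
-/

set_option linter.unusedSimpArgs false
set_option linter.unusedVariables false
set_option linter.unusedTactic false

set_option deprecated.oldSectionVars true

namespace Pool.Agent.Work.MP_b30479_gtS.G2

namespace C12

open NumUs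
open NumUs.E (emb)
open NumIs (V)

/-- 153 boxes -/
theorem rP1 {x T s k : ℝ} (a0 : 5100 / 10000 ≤ x) (b0 : x ≤ 5600 / 10000) (a1 : -180 / 10000 ≤ T) (b1 : T ≤ 985 / 10000)
    (a2 : 1300 / 10000 ≤ s) (b2 : s ≤ 4400 / 10000) (a3 : -930 / 10000 ≤ k) (b3 : k ≤ 940 / 10000)
    (c0 : (T + k) - (148 / 1000) ≤ 0) (c1 : (x + s) - (95 / 100) ≤ 0) :
    0 < (((3965 / 10000) + ((76 / 10) * T)) - (MR.s1 (mm T) x (tt T x) s k)) := by
  have h : chkT [(emb (.sub (.add (.q 3965 10000) (.mul (.q 76 10) (.var 1))) (MR.e1 (nm (.var 1)) (.var 0)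
      (nt (.var 0) (.var 1)) (.var 2) (.var 3)))), (emb (.sub (.add (.var 1) (.var 3)) (.q 148
      1000))), (emb (.sub (.add (.var 0) (.var 2)) (.q 95 100)))] 26
      11886126301073975968712273196712696456849994625430802425599772240647771624060913816247687464783351387923862263331825336720211940051457373259768101897889169500143197825193162030615207569075489640351530022447829870147245168864283214569776527705136777388408809814017349263635175501767923936522881510226337389296444735981975545766848422261461572020915269177351226962481954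
      [V.of 10000 5100 5600 0, V.of 10000 (-180) 985 0, V.of 10000 1300 4400 0, V.of 10000
        (-930) 940 0] = true := by
    decide +kernel
  obtain ⟨f, hf, hp⟩ := chkT4 h (by norm_num) (x := x) (y := T) (z := s) (w := k)
    (le_trans (by norm_num) a0) (le_trans b0 (by norm_num))
    (le_trans (by norm_num) a1) (le_trans b1 (by norm_num))
    (le_trans (by norm_num) a2) (le_trans b2 (by norm_num))
    (le_trans (by norm_num) a3) (le_trans b3 (by norm_num))
  simp only [List.mem_cons, List.not_mem_nil, or_false] at hf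
  rcases hf with rfl | rfl | rfl
  · simp only [nt_val, nm_val, MR.e1_val, MR.e2_val, MR.en2_val, NumUs.E.val, NumIs.E.val, NumIs.lkR] at hp
    push_cast at hp
    try simp only [div_one] at hp
    linarith only [hp]
  · simp only [nt_val, nm_val, MR.e1_val, MR.e2_val, MR.en2_val, NumUs.E.val, NumIs.E.val, NumIs.lkR] at hp
    push_cast at hp
    try simp only [div_one] at hp
    exfalso
    linarith only [c0, hp]
  · simp only [nt_val, nm_val, MR.e1_val, MR.e2_val, MR.en2_val, NumUs.E.val, NumIs.E.val, NumIs.lkR] at hp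
    push_cast at hp
    try simp only [div_one] at hp
    exfalso
    linarith only [c1, hp]

/-- 140 boxes -/
theorem rZ1 {x T s k : ℝ} (a0 : 5100 / 10000 ≤ x) (b0 : x ≤ 5600 / 10000) (a1 : -80 / 10000 ≤ T) (b1 : T ≤ 800 / 10000)
    (a2 : 1450 / 10000 ≤ s) (b2 : s ≤ 4400 / 10000) (a3 : 0 / 10000 ≤ k) (b3 : k ≤ 1450 / 10000)
    (c0 : (T + k) - (187 / 1000) ≤ 0) (c1 : (x + s) - (95 / 100) ≤ 0) (c2 : k - ((907 / 1000) * s)
    ≤ 0) (c3 : ((16 / 100) * k) - (((187 / 1000) - T) * s) ≤ 0) :
    0 < (((536 / 1000) + ((77 / 10) * T)) - (MR.s1 (mm T) x (tt T x) s k)) := by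
  have h : chkT [(emb (.sub (.add (.q 536 1000) (.mul (.q 77 10) (.var 1))) (MR.e1 (nm (.var 1)) (.var 0)
      (nt (.var 0) (.var 1)) (.var 2) (.var 3)))), (emb (.sub (.add (.var 1) (.var 3)) (.q 187
      1000))), (emb (.sub (.add (.var 0) (.var 2)) (.q 95 100))), (emb (.sub (.var 3) (.mul (.q
      907 1000) (.var 2)))), (emb (.sub (.mul (.q 16 100) (.var 3)) (.mul (.sub (.q 187 1000)
      (.var 1)) (.var 2))))] 26
      592980106507981122771277719487170296929783631966592667115601469937087345656106595951317171958340188085619965771952578126086649068281802771973129399195124586721176091776499465852183268693259932300958015699465398102125128217506434391373968081090718225842842481749127838420588291438108836491515062776662675564109754066063394976774467621666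
      [V.of 10000 5100 5600 0, V.of 10000 (-80) 800 0, V.of 10000 1450 4400 0, V.of 10000 0 1450
        0] = true := by
    decide +kernel
  obtain ⟨f, hf, hp⟩ := chkT4 h (by norm_num) (x := x) (y := T) (z := s) (w := k)
    (le_trans (by norm_num) a0) (le_trans b0 (by norm_num))
    (le_trans (by norm_num) a1) (le_trans b1 (by norm_num))
    (le_trans (by norm_num) a2) (le_trans b2 (by norm_num))
    (le_trans (by norm_num) a3) (le_trans b3 (by norm_num))
  simp only [List.mem_cons, List.not_mem_nil, or_false] at hf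
  rcases hf with rfl | rfl | rfl | rfl | rfl
  · simp only [nt_val, nm_val, MR.e1_val, MR.e2_val, MR.en2_val, NumUs.E.val, NumIs.E.val, NumIs.lkR] at hp
    push_cast at hp
    try simp only [div_one] at hp
    linarith only [hp]
  · simp only [nt_val, nm_val, MR.e1_val, MR.e2_val, MR.en2_val, NumUs.E.val, NumIs.E.val, NumIs.lkR] at hp
    push_cast at hp
    try simp only [div_one] at hp
    exfalso
    linarith only [c0, hp]
  · simp only [nt_val, nm_val, MR.e1_val, MR.e2_val, MR.en2_val, NumUs.E.val, NumIs.E.val, NumIs.lkR] at hp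
    push_cast at hp
    try simp only [div_one] at hp
    exfalso
    linarith only [c1, hp]
  · simp only [nt_val, nm_val, MR.e1_val, MR.e2_val, MR.en2_val, NumUs.E.val, NumIs.E.val, NumIs.lkR] at hp
    push_cast at hp
    try simp only [div_one] at hp
    exfalso
    linarith only [c2, hp]
  · simp only [nt_val, nm_val, MR.e1_val, MR.e2_val, MR.en2_val, NumUs.E.val, NumIs.E.val, NumIs.lkR] at hp
    push_cast at hp
    try simp only [div_one] at hp
    exfalso
    linarith only [c3, hp]

/-- 4 boxes -/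
theorem rP2a {x T s k : ℝ} (a0 : 5100 / 10000 ≤ x) (b0 : x ≤ 5600 / 10000) (a1 : -180 / 10000 ≤ T) (b1 : T ≤ 985 / 10000)
    (a2 : 1000 / 10000 ≤ s) (b2 : s ≤ 1250 / 10000) (a3 : -850 / 10000 ≤ k) (b3 : k ≤ 570 / 10000)
    :
    0 < (-(((3965 / 10000) + ((76 / 10) * T)) + (MR.s2 (-(mm T)) x (-(tt T x)) s k))) := by
  have h : chkT [(emb (.neg (.add (.add (.q 3965 10000) (.mul (.q 76 10) (.var 1))) (MR.e2 (.neg (nm (.var
      1))) (.var 0) (.neg (nt (.var 0) (.var 1))) (.var 2) (.var 3)))))] 26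
      142837809
      [V.of 10000 5100 5600 0, V.of 10000 (-180) 985 0, V.of 10000 1000 1250 0, V.of 10000
        (-850) 570 0] = true := by
    decide +kernel
  obtain ⟨f, hf, hp⟩ := chkT4 h (by norm_num) (x := x) (y := T) (z := s) (w := k)
    (le_trans (by norm_num) a0) (le_trans b0 (by norm_num))
    (le_trans (by norm_num) a1) (le_trans b1 (by norm_num))
    (le_trans (by norm_num) a2) (le_trans b2 (by norm_num))
    (le_trans (by norm_num) a3) (le_trans b3 (by norm_num))
  simp only [List.mem_cons, List.not_mem_nil, or_false] at hf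
  subst hf
  simp only [nt_val, nm_val, MR.e1_val, MR.e2_val, MR.en2_val, NumUs.E.val, NumIs.E.val, NumIs.lkR] at hp
  push_cast at hp
  try simp only [div_one] at hp
  linarith only [hp]

/-- 73 boxes -/
theorem rP2b {x T s k : ℝ} (a0 : 5100 / 10000 ≤ x) (b0 : x ≤ 5600 / 10000) (a1 : -180 / 10000 ≤ T) (b1 : T ≤ 985 / 10000)
    (a2 : 1250 / 10000 ≤ s) (b2 : s ≤ 3600 / 10000) (a3 : -850 / 10000 ≤ k) (b3 : k ≤ 960 / 10000)
    :
    0 < (-(((3965 / 10000) + ((76 / 10) * T)) + (MR.s2 (-(mm T)) x (-(tt T x)) s k))) := by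
  have h : chkT [(emb (.neg (.add (.add (.q 3965 10000) (.mul (.q 76 10) (.var 1))) (MR.e2 (.neg (nm (.var
      1))) (.var 0) (.neg (nt (.var 0) (.var 1))) (.var 2) (.var 3)))))] 26
      2105720819496212916431687103222538711109884117987582269730584356603767307333619380606940651033945482143351106490285242166289801723212838509799536200907974774536782868281561650
      [V.of 10000 5100 5600 0, V.of 10000 (-180) 985 0, V.of 10000 1250 3600 0, V.of 10000
        (-850) 960 0] = true := by
    decide +kernel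
  obtain ⟨f, hf, hp⟩ := chkT4 h (by norm_num) (x := x) (y := T) (z := s) (w := k)
    (le_trans (by norm_num) a0) (le_trans b0 (by norm_num))
    (le_trans (by norm_num) a1) (le_trans b1 (by norm_num))
    (le_trans (by norm_num) a2) (le_trans b2 (by norm_num))
    (le_trans (by norm_num) a3) (le_trans b3 (by norm_num))
  simp only [List.mem_cons, List.not_mem_nil, or_false] at hf
  subst hf
  simp only [nt_val, nm_val, MR.e1_val, MR.e2_val, MR.en2_val, NumUs.E.val, NumIs.E.val, NumIs.lkR] at hp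
  push_cast at hp
  try simp only [div_one] at hp
  linarith only [hp]

/-- 5 boxes -/
theorem rZ2a {x T s k : ℝ} (a0 : 5100 / 10000 ≤ x) (b0 : x ≤ 5600 / 10000) (a1 : -80 / 10000 ≤ T) (b1 : T ≤ 800 / 10000)
    (a2 : 1000 / 10000 ≤ s) (b2 : s ≤ 1200 / 10000) (a3 : -850 / 10000 ≤ k) (b3 : k ≤ 410 / 10000)
    :
    0 < (-(((536 / 1000) + ((77 / 10) * T)) + (MR.s2 (-(mm T)) x (-(tt T x)) s k))) := by
  have h : chkT [(emb (.neg (.add (.add (.q 536 1000) (.mul (.q 77 10) (.var 1))) (MR.e2 (.neg (nm (.var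
      1))) (.var 0) (.neg (nt (.var 0) (.var 1))) (.var 2) (.var 3)))))] 26
      36516147587
      [V.of 10000 5100 5600 0, V.of 10000 (-80) 800 0, V.of 10000 1000 1200 0, V.of 10000 (-850)
        410 0] = true := by
    decide +kernel
  obtain ⟨f, hf, hp⟩ := chkT4 h (by norm_num) (x := x) (y := T) (z := s) (w := k)
    (le_trans (by norm_num) a0) (le_trans b0 (by norm_num))
    (le_trans (by norm_num) a1) (le_trans b1 (by norm_num))
    (le_trans (by norm_num) a2) (le_trans b2 (by norm_num))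
    (le_trans (by norm_num) a3) (le_trans b3 (by norm_num))
  simp only [List.mem_cons, List.not_mem_nil, or_false] at hf
  subst hf
  simp only [nt_val, nm_val, MR.e1_val, MR.e2_val, MR.en2_val, NumUs.E.val, NumIs.E.val, NumIs.lkR] at hp
  push_cast at hp
  try simp only [div_one] at hp
  linarith only [hp]

/-- 60 boxes -/
theorem rZ2b {x T s k : ℝ} (a0 : 5100 / 10000 ≤ x) (b0 : x ≤ 5600 / 10000) (a1 : -80 / 10000 ≤ T) (b1 : T ≤ 800 / 10000)
    (a2 : 1200 / 10000 ≤ s) (b2 : s ≤ 3600 / 10000) (a3 : -850 / 10000 ≤ k) (b3 : k ≤ 600 / 10000)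
    :
    0 < (-(((536 / 1000) + ((77 / 10) * T)) + (MR.s2 (-(mm T)) x (-(tt T x)) s k))) := by
  have h : chkT [(emb (.neg (.add (.add (.q 536 1000) (.mul (.q 77 10) (.var 1))) (MR.e2 (.neg (nm (.var
      1))) (.var 0) (.neg (nt (.var 0) (.var 1))) (.var 2) (.var 3)))))] 26
      103724760524223226093141566464048414877601008557067612049328775038278542469320700274910499476929607933606091569084201392601750231742779258049314
      [V.of 10000 5100 5600 0, V.of 10000 (-80) 800 0, V.of 10000 1200 3600 0, V.of 10000 (-850)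
        600 0] = true := by
    decide +kernel
  obtain ⟨f, hf, hp⟩ := chkT4 h (by norm_num) (x := x) (y := T) (z := s) (w := k)
    (le_trans (by norm_num) a0) (le_trans b0 (by norm_num))
    (le_trans (by norm_num) a1) (le_trans b1 (by norm_num))
    (le_trans (by norm_num) a2) (le_trans b2 (by norm_num))
    (le_trans (by norm_num) a3) (le_trans b3 (by norm_num))
  simp only [List.mem_cons, List.not_mem_nil, or_false] at hf
  subst hf
  simp only [nt_val, nm_val, MR.e1_val, MR.e2_val, MR.en2_val, NumUs.E.val, NumIs.E.val, NumIs.lkR] at hp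
  push_cast at hp
  try simp only [div_one] at hp
  linarith only [hp]

/-- 67 boxes -/
theorem r12a {x T s k : ℝ} (a0 : 5100 / 10000 ≤ x) (b0 : x ≤ 5600 / 10000) (a1 : -180 / 10000 ≤ T) (b1 : T ≤ 985 / 10000)
    (a2 : 1600 / 10000 ≤ s) (b2 : s ≤ 4300 / 10000) (a3 : -985 / 10000 ≤ k) (b3 : k ≤ 180 / 10000)
    (c0 : (x + s) - (94 / 100) ≤ 0) :
    0 < (-(((536 / 1000) + ((77 / 10) * T)) + (MR.s2 (-(mm T)) x (-(tt T x)) s k))) := by
  have h : chkT [(emb (.neg (.add (.add (.q 536 1000) (.mul (.q 77 10) (.var 1))) (MR.e2 (.neg (nm (.var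
      1))) (.var 0) (.neg (nt (.var 0) (.var 1))) (.var 2) (.var 3))))), (emb (.sub (.add (.var 0)
      (.var 2)) (.q 94 100)))] 26
      8431708022759042332877303855617999650586419618808780585607203812349099813886264036008604385662117030980533260796354646255287321543755975889846627329875521315106
      [V.of 10000 5100 5600 0, V.of 10000 (-180) 985 0, V.of 10000 1600 4300 0, V.of 10000
        (-985) 180 0] = true := by
    decide +kernel
  obtain ⟨f, hf, hp⟩ := chkT4 h (by norm_num) (x := x) (y := T) (z := s) (w := k)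
    (le_trans (by norm_num) a0) (le_trans b0 (by norm_num))
    (le_trans (by norm_num) a1) (le_trans b1 (by norm_num))
    (le_trans (by norm_num) a2) (le_trans b2 (by norm_num))
    (le_trans (by norm_num) a3) (le_trans b3 (by norm_num))
  simp only [List.mem_cons, List.not_mem_nil, or_false] at hf
  rcases hf with rfl | rfl
  · simp only [nt_val, nm_val, MR.e1_val, MR.e2_val, MR.en2_val, NumUs.E.val, NumIs.E.val, NumIs.lkR] at hp
    push_cast at hp
    try simp only [div_one] at hp
    linarith only [hp]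
  · simp only [nt_val, nm_val, MR.e1_val, MR.e2_val, MR.en2_val, NumUs.E.val, NumIs.E.val, NumIs.lkR] at hp
    push_cast at hp
    try simp only [div_one] at hp
    exfalso
    linarith only [c0, hp]

/-- 1 boxes -/
theorem r12b {x T s k : ℝ} (a0 : 5100 / 10000 ≤ x) (b0 : x ≤ 5600 / 10000) (a1 : -180 / 10000 ≤ T) (b1 : T ≤ 0 / 10000)
    (a2 : 3800 / 10000 ≤ s) (b2 : s ≤ 5600 / 10000) (a3 : -985 / 10000 ≤ k) (b3 : k ≤ 180 / 10000)
    (c0 : (94 / 100) - (x + s) ≤ 0) :
    0 < (-(((536 / 1000) + ((77 / 10) * T)) + (MR.n2 (16 / 100) (-1) (-(mm T)) x (-(tt T x)) s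
      k))) := by
  have h : chkT [(emb (.neg (.add (.add (.q 536 1000) (.mul (.q 77 10) (.var 1))) (MR.en2 (.q 16 100) (.q
      (-1) 1) (.neg (nm (.var 1))) (.var 0) (.neg (nt (.var 0) (.var 1))) (.var 2) (.var 3))))),
      (emb (.sub (.q 94 100) (.add (.var 0) (.var 2))))] 26
      8
      [V.of 10000 5100 5600 0, V.of 10000 (-180) 0 0, V.of 10000 3800 5600 0, V.of 10000 (-985)
        180 0] = true := by
    decide +kernel
  obtain ⟨f, hf, hp⟩ := chkT4 h (by norm_num) (x := x) (y := T) (z := s) (w := k)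
    (le_trans (by norm_num) a0) (le_trans b0 (by norm_num))
    (le_trans (by norm_num) a1) (le_trans b1 (by norm_num))
    (le_trans (by norm_num) a2) (le_trans b2 (by norm_num))
    (le_trans (by norm_num) a3) (le_trans b3 (by norm_num))
  simp only [List.mem_cons, List.not_mem_nil, or_false] at hf
  rcases hf with rfl | rfl
  · simp only [nt_val, nm_val, MR.e1_val, MR.e2_val, MR.en2_val, NumUs.E.val, NumIs.E.val, NumIs.lkR] at hp
    push_cast at hp
    try simp only [div_one] at hp
    linarith only [hp]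
  · simp only [nt_val, nm_val, MR.e1_val, MR.e2_val, MR.en2_val, NumUs.E.val, NumIs.E.val, NumIs.lkR] at hp
    push_cast at hp
    try simp only [div_one] at hp
    exfalso
    linarith only [c0, hp]

/-- 1 boxes -/
theorem r12c {x T s k : ℝ} (a0 : 5100 / 10000 ≤ x) (b0 : x ≤ 5600 / 10000) (a1 : 0 / 10000 ≤ T) (b1 : T ≤ 985 / 10000)
    (a2 : 3800 / 10000 ≤ s) (b2 : s ≤ 5600 / 10000) (a3 : -985 / 10000 ≤ k) (b3 : k ≤ 180 / 10000)
    (c0 : (94 / 100) - (x + s) ≤ 0) (c1 : k - (tt T x) ≤ 0) (c2 : ((tt T x) - k) - (14 / 100) ≤ 0)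
    :
    0 < (-(((536 / 1000) + ((77 / 10) * T)) + (MR.n2 (16 / 100) 0 (-(mm T)) x (-(tt T x)) s k))) := by
  have h : chkT [(emb (.neg (.add (.add (.q 536 1000) (.mul (.q 77 10) (.var 1))) (MR.en2 (.q 16 100) (.q 0
      1) (.neg (nm (.var 1))) (.var 0) (.neg (nt (.var 0) (.var 1))) (.var 2) (.var 3))))), (emb
      (.sub (.q 94 100) (.add (.var 0) (.var 2)))), (emb (.sub (.var 3) (nt (.var 0) (.var 1)))),
      (emb (.sub (.sub (nt (.var 0) (.var 1)) (.var 3)) (.q 14 100)))] 26
      8
      [V.of 10000 5100 5600 0, V.of 10000 0 985 0, V.of 10000 3800 5600 0, V.of 10000 (-985) 180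
        0] = true := by
    decide +kernel
  obtain ⟨f, hf, hp⟩ := chkT4 h (by norm_num) (x := x) (y := T) (z := s) (w := k)
    (le_trans (by norm_num) a0) (le_trans b0 (by norm_num))
    (le_trans (by norm_num) a1) (le_trans b1 (by norm_num))
    (le_trans (by norm_num) a2) (le_trans b2 (by norm_num))
    (le_trans (by norm_num) a3) (le_trans b3 (by norm_num))
  simp only [List.mem_cons, List.not_mem_nil, or_false] at hf
  rcases hf with rfl | rfl | rfl | rfl
  · simp only [nt_val, nm_val, MR.e1_val, MR.e2_val, MR.en2_val, NumUs.E.val, NumIs.E.val, NumIs.lkR] at hp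
    push_cast at hp
    try simp only [div_one] at hp
    linarith only [hp]
  · simp only [nt_val, nm_val, MR.e1_val, MR.e2_val, MR.en2_val, NumUs.E.val, NumIs.E.val, NumIs.lkR] at hp
    push_cast at hp
    try simp only [div_one] at hp
    exfalso
    linarith only [c0, hp]
  · simp only [nt_val, nm_val, MR.e1_val, MR.e2_val, MR.en2_val, NumUs.E.val, NumIs.E.val, NumIs.lkR] at hp
    push_cast at hp
    try simp only [div_one] at hp
    exfalso
    linarith only [c1, hp]
  · simp only [nt_val, nm_val, MR.e1_val, MR.e2_val, MR.en2_val, NumUs.E.val, NumIs.E.val, NumIs.lkR] at hp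
    push_cast at hp
    try simp only [div_one] at hp
    exfalso
    linarith only [c2, hp]

/-- 4 boxes -/
theorem r12e {x T s k : ℝ} (a0 : 5100 / 10000 ≤ x) (b0 : x ≤ 5600 / 10000) (a1 : 0 / 10000 ≤ T) (b1 : T ≤ 985 / 10000)
    (a2 : 3800 / 10000 ≤ s) (b2 : s ≤ 5600 / 10000) (a3 : -985 / 10000 ≤ k) (b3 : k ≤ 180 / 10000)
    (c0 : (94 / 100) - (x + s) ≤ 0) (c1 : (14 / 100) - ((tt T x) - k) ≤ 0) :
    0 < (-(((536 / 1000) + ((77 / 10) * T)) + (MR.n2 (45 / 100) 0 (-(mm T)) x (-(tt T x)) s k))) := by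
  have h : chkT [(emb (.neg (.add (.add (.q 536 1000) (.mul (.q 77 10) (.var 1))) (MR.en2 (.q 45 100) (.q 0
      1) (.neg (nm (.var 1))) (.var 0) (.neg (nt (.var 0) (.var 1))) (.var 2) (.var 3))))), (emb
      (.sub (.q 94 100) (.add (.var 0) (.var 2)))), (emb (.sub (.q 14 100) (.sub (nt (.var 0)
      (.var 1)) (.var 3))))] 26
      176687123
      [V.of 10000 5100 5600 0, V.of 10000 0 985 0, V.of 10000 3800 5600 0, V.of 10000 (-985) 180
        0] = true := by
    decide +kernel
  obtain ⟨f, hf, hp⟩ := chkT4 h (by norm_num) (x := x) (y := T) (z := s) (w := k)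
    (le_trans (by norm_num) a0) (le_trans b0 (by norm_num))
    (le_trans (by norm_num) a1) (le_trans b1 (by norm_num))
    (le_trans (by norm_num) a2) (le_trans b2 (by norm_num))
    (le_trans (by norm_num) a3) (le_trans b3 (by norm_num))
  simp only [List.mem_cons, List.not_mem_nil, or_false] at hf
  rcases hf with rfl | rfl | rfl
  · simp only [nt_val, nm_val, MR.e1_val, MR.e2_val, MR.en2_val, NumUs.E.val, NumIs.E.val, NumIs.lkR] at hp
    push_cast at hp
    try simp only [div_one] at hp
    linarith only [hp]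
  · simp only [nt_val, nm_val, MR.e1_val, MR.e2_val, MR.en2_val, NumUs.E.val, NumIs.E.val, NumIs.lkR] at hp
    push_cast at hp
    try simp only [div_one] at hp
    exfalso
    linarith only [c0, hp]
  · simp only [nt_val, nm_val, MR.e1_val, MR.e2_val, MR.en2_val, NumUs.E.val, NumIs.E.val, NumIs.lkR] at hp
    push_cast at hp
    try simp only [div_one] at hp
    exfalso
    linarith only [c1, hp]

/-- 3 boxes -/
theorem r12d {x T s k : ℝ} (a0 : 5100 / 10000 ≤ x) (b0 : x ≤ 5600 / 10000) (a1 : 0 / 10000 ≤ T) (b1 : T ≤ 985 / 10000)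
    (a2 : 3800 / 10000 ≤ s) (b2 : s ≤ 5600 / 10000) (a3 : -985 / 10000 ≤ k) (b3 : k ≤ 180 / 10000)
    (c0 : (94 / 100) - (x + s) ≤ 0) (c1 : (tt T x) - k ≤ 0) :
    0 < (-(((536 / 1000) + ((77 / 10) * T)) + (MR.n2 (16 / 100) 1 (-(mm T)) x (-(tt T x)) s k))) := by
  have h : chkT [(emb (.neg (.add (.add (.q 536 1000) (.mul (.q 77 10) (.var 1))) (MR.en2 (.q 16 100) (.q 1
      1) (.neg (nm (.var 1))) (.var 0) (.neg (nt (.var 0) (.var 1))) (.var 2) (.var 3))))), (emb
      (.sub (.q 94 100) (.add (.var 0) (.var 2)))), (emb (.sub (nt (.var 0) (.var 1)) (.var 3)))] 26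
      698385
      [V.of 10000 5100 5600 0, V.of 10000 0 985 0, V.of 10000 3800 5600 0, V.of 10000 (-985) 180
        0] = true := by
    decide +kernel
  obtain ⟨f, hf, hp⟩ := chkT4 h (by norm_num) (x := x) (y := T) (z := s) (w := k)
    (le_trans (by norm_num) a0) (le_trans b0 (by norm_num))
    (le_trans (by norm_num) a1) (le_trans b1 (by norm_num))
    (le_trans (by norm_num) a2) (le_trans b2 (by norm_num))
    (le_trans (by norm_num) a3) (le_trans b3 (by norm_num))
  simp only [List.mem_cons, List.not_mem_nil, or_false] at hf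
  rcases hf with rfl | rfl | rfl
  · simp only [nt_val, nm_val, MR.e1_val, MR.e2_val, MR.en2_val, NumUs.E.val, NumIs.E.val, NumIs.lkR] at hp
    push_cast at hp
    try simp only [div_one] at hp
    linarith only [hp]
  · simp only [nt_val, nm_val, MR.e1_val, MR.e2_val, MR.en2_val, NumUs.E.val, NumIs.E.val, NumIs.lkR] at hp
    push_cast at hp
    try simp only [div_one] at hp
    exfalso
    linarith only [c0, hp]
  · simp only [nt_val, nm_val, MR.e1_val, MR.e2_val, MR.en2_val, NumUs.E.val, NumIs.E.val, NumIs.lkR] at hp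
    push_cast at hp
    try simp only [div_one] at hp
    exfalso
    linarith only [c1, hp]

/-- 74 boxes -/
theorem fP1 {x T s k : ℝ} (a0 : 4950 / 10000 ≤ x) (b0 : x ≤ 5100 / 10000) (a1 : -180 / 10000 ≤ T) (b1 : T ≤ 985 / 10000)
    (a2 : 1300 / 10000 ≤ s) (b2 : s ≤ 4550 / 10000) (a3 : -930 / 10000 ≤ k) (b3 : k ≤ 940 / 10000)
    (c0 : (T + k) - (148 / 1000) ≤ 0) (c1 : (x + s) - (95 / 100) ≤ 0) :
    0 < (((419 / 1000) - ((3 / 2) * T)) - (MR.s1 0 x T s k)) := by
  have h : chkT [(emb (.sub (.sub (.q 419 1000) (.mul (.q 3 2) (.var 1))) (MR.e1 (.q 0 1) (.var 0) (.var 1)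
      (.var 2) (.var 3)))), (emb (.sub (.add (.var 1) (.var 3)) (.q 148 1000))), (emb (.sub (.add
      (.var 0) (.var 2)) (.q 95 100)))] 26
      540188468562002943383450638740265695978891019472718141702613281832421771235700696163399740830733838977969945548085520716486985965575874492650354344731826383982364637079919624994
      [V.of 10000 4950 5100 0, V.of 10000 (-180) 985 0, V.of 10000 1300 4550 0, V.of 10000
        (-930) 940 0] = true := by
    decide +kernel
  obtain ⟨f, hf, hp⟩ := chkT4 h (by norm_num) (x := x) (y := T) (z := s) (w := k)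
    (le_trans (by norm_num) a0) (le_trans b0 (by norm_num))
    (le_trans (by norm_num) a1) (le_trans b1 (by norm_num))
    (le_trans (by norm_num) a2) (le_trans b2 (by norm_num))
    (le_trans (by norm_num) a3) (le_trans b3 (by norm_num))
  simp only [List.mem_cons, List.not_mem_nil, or_false] at hf
  rcases hf with rfl | rfl | rfl
  · simp only [nt_val, nm_val, MR.e1_val, MR.e2_val, MR.en2_val, NumUs.E.val, NumIs.E.val, NumIs.lkR] at hp
    push_cast at hp
    try simp only [div_one] at hp
    linarith only [hp]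
  · simp only [nt_val, nm_val, MR.e1_val, MR.e2_val, MR.en2_val, NumUs.E.val, NumIs.E.val, NumIs.lkR] at hp
    push_cast at hp
    try simp only [div_one] at hp
    exfalso
    linarith only [c0, hp]
  · simp only [nt_val, nm_val, MR.e1_val, MR.e2_val, MR.en2_val, NumUs.E.val, NumIs.E.val, NumIs.lkR] at hp
    push_cast at hp
    try simp only [div_one] at hp
    exfalso
    linarith only [c1, hp]

/-- 118 boxes -/
theorem fZ1 {x T s k : ℝ} (a0 : 4950 / 10000 ≤ x) (b0 : x ≤ 5100 / 10000) (a1 : -80 / 10000 ≤ T) (b1 : T ≤ 800 / 10000)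
    (a2 : 2000 / 10000 ≤ s) (b2 : s ≤ 4550 / 10000) (a3 : 0 / 10000 ≤ k) (b3 : k ≤ 1450 / 10000)
    (c0 : (T + k) - (187 / 1000) ≤ 0) (c1 : (x + s) - (95 / 100) ≤ 0) (c2 : (((182 / 1000) + ((3 /
    10) * T)) + ((2 / 10) * k)) - s ≤ 0) :
    0 < (((535 / 1000) - (2 * T)) - (MR.s1 0 x T s k)) := by
  have h : chkT [(emb (.sub (.sub (.q 535 1000) (.mul (.q 2 1) (.var 1))) (MR.e1 (.q 0 1) (.var 0) (.var 1)
      (.var 2) (.var 3)))), (emb (.sub (.add (.var 1) (.var 3)) (.q 187 1000))), (emb (.sub (.add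
      (.var 0) (.var 2)) (.q 95 100))), (emb (.sub (.add (.add (.q 182 1000) (.mul (.q 3 10) (.var
      1))) (.mul (.q 2 10) (.var 3))) (.var 2)))] 26
      4945374977406578036284386969621778060571055689615605259432031441954265569060029988170683511557899711286752262182415285306973992193125787966402686780468501361653123022497676633839667639860386214258927202854176761541518942174223774532599706640247418959732337885682061801645136736191026
      [V.of 10000 4950 5100 0, V.of 10000 (-80) 800 0, V.of 10000 2000 4550 0, V.of 10000 0 1450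
        0] = true := by
    decide +kernel
  obtain ⟨f, hf, hp⟩ := chkT4 h (by norm_num) (x := x) (y := T) (z := s) (w := k)
    (le_trans (by norm_num) a0) (le_trans b0 (by norm_num))
    (le_trans (by norm_num) a1) (le_trans b1 (by norm_num))
    (le_trans (by norm_num) a2) (le_trans b2 (by norm_num))
    (le_trans (by norm_num) a3) (le_trans b3 (by norm_num))
  simp only [List.mem_cons, List.not_mem_nil, or_false] at hf
  rcases hf with rfl | rfl | rfl | rfl
  · simp only [nt_val, nm_val, MR.e1_val, MR.e2_val, MR.en2_val, NumUs.E.val, NumIs.E.val, NumIs.lkR] at hp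
    push_cast at hp
    try simp only [div_one] at hp
    linarith only [hp]
  · simp only [nt_val, nm_val, MR.e1_val, MR.e2_val, MR.en2_val, NumUs.E.val, NumIs.E.val, NumIs.lkR] at hp
    push_cast at hp
    try simp only [div_one] at hp
    exfalso
    linarith only [c0, hp]
  · simp only [nt_val, nm_val, MR.e1_val, MR.e2_val, MR.en2_val, NumUs.E.val, NumIs.E.val, NumIs.lkR] at hp
    push_cast at hp
    try simp only [div_one] at hp
    exfalso
    linarith only [c1, hp]
  · simp only [nt_val, nm_val, MR.e1_val, MR.e2_val, MR.en2_val, NumUs.E.val, NumIs.E.val, NumIs.lkR] at hp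
    push_cast at hp
    try simp only [div_one] at hp
    exfalso
    linarith only [c2, hp]

/-- 4 boxes -/
theorem fP2a {x T s k : ℝ} (a0 : 4950 / 10000 ≤ x) (b0 : x ≤ 5100 / 10000) (a1 : -180 / 10000 ≤ T) (b1 : T ≤ 985 / 10000)
    (a2 : 1000 / 10000 ≤ s) (b2 : s ≤ 1550 / 10000) (a3 : -850 / 10000 ≤ k) (b3 : k ≤ 570 / 10000)
    :
    0 < (-(((419 / 1000) - ((3 / 2) * T)) + (MR.s2 0 x (-T) s k))) := by
  have h : chkT [(emb (.neg (.add (.sub (.q 419 1000) (.mul (.q 3 2) (.var 1))) (MR.e2 (.q 0 1) (.var 0)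
      (.neg (.var 1)) (.var 2) (.var 3)))))] 26
      142706737
      [V.of 10000 4950 5100 0, V.of 10000 (-180) 985 0, V.of 10000 1000 1550 0, V.of 10000
        (-850) 570 0] = true := by
    decide +kernel
  obtain ⟨f, hf, hp⟩ := chkT4 h (by norm_num) (x := x) (y := T) (z := s) (w := k)
    (le_trans (by norm_num) a0) (le_trans b0 (by norm_num))
    (le_trans (by norm_num) a1) (le_trans b1 (by norm_num))
    (le_trans (by norm_num) a2) (le_trans b2 (by norm_num))
    (le_trans (by norm_num) a3) (le_trans b3 (by norm_num))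
  simp only [List.mem_cons, List.not_mem_nil, or_false] at hf
  subst hf
  simp only [nt_val, nm_val, MR.e1_val, MR.e2_val, MR.en2_val, NumUs.E.val, NumIs.E.val, NumIs.lkR] at hp
  push_cast at hp
  try simp only [div_one] at hp
  linarith only [hp]

/-- 21 boxes -/
theorem fP2b {x T s k : ℝ} (a0 : 4950 / 10000 ≤ x) (b0 : x ≤ 5100 / 10000) (a1 : -180 / 10000 ≤ T) (b1 : T ≤ 985 / 10000)
    (a2 : 1550 / 10000 ≤ s) (b2 : s ≤ 3600 / 10000) (a3 : -850 / 10000 ≤ k) (b3 : k ≤ 960 / 10000)
    :
    0 < (-(((419 / 1000) - ((3 / 2) * T)) + (MR.s2 0 x (-T) s k))) := by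
  have h : chkT [(emb (.neg (.add (.sub (.q 419 1000) (.mul (.q 3 2) (.var 1))) (MR.e2 (.q 0 1) (.var 0)
      (.neg (.var 1)) (.var 2) (.var 3)))))] 26
      12431406161209339892484461254098572491455182962994
      [V.of 10000 4950 5100 0, V.of 10000 (-180) 985 0, V.of 10000 1550 3600 0, V.of 10000
        (-850) 960 0] = true := by
    decide +kernel
  obtain ⟨f, hf, hp⟩ := chkT4 h (by norm_num) (x := x) (y := T) (z := s) (w := k)
    (le_trans (by norm_num) a0) (le_trans b0 (by norm_num))
    (le_trans (by norm_num) a1) (le_trans b1 (by norm_num))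
    (le_trans (by norm_num) a2) (le_trans b2 (by norm_num))
    (le_trans (by norm_num) a3) (le_trans b3 (by norm_num))
  simp only [List.mem_cons, List.not_mem_nil, or_false] at hf
  subst hf
  simp only [nt_val, nm_val, MR.e1_val, MR.e2_val, MR.en2_val, NumUs.E.val, NumIs.E.val, NumIs.lkR] at hp
  push_cast at hp
  try simp only [div_one] at hp
  linarith only [hp]

/-- 4 boxes -/
theorem fZ2a {x T s k : ℝ} (a0 : 4950 / 10000 ≤ x) (b0 : x ≤ 5100 / 10000) (a1 : -80 / 10000 ≤ T) (b1 : T ≤ 800 / 10000)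
    (a2 : 1000 / 10000 ≤ s) (b2 : s ≤ 1200 / 10000) (a3 : -850 / 10000 ≤ k) (b3 : k ≤ 410 / 10000)
    :
    0 < (-(((535 / 1000) - (2 * T)) + (MR.s2 0 x (-T) s k))) := by
  have h : chkT [(emb (.neg (.add (.sub (.q 535 1000) (.mul (.q 2 1) (.var 1))) (MR.e2 (.q 0 1) (.var 0)
      (.neg (.var 1)) (.var 2) (.var 3)))))] 26
      142837809
      [V.of 10000 4950 5100 0, V.of 10000 (-80) 800 0, V.of 10000 1000 1200 0, V.of 10000 (-850)
        410 0] = true := by
    decide +kernel
  obtain ⟨f, hf, hp⟩ := chkT4 h (by norm_num) (x := x) (y := T) (z := s) (w := k)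
    (le_trans (by norm_num) a0) (le_trans b0 (by norm_num))
    (le_trans (by norm_num) a1) (le_trans b1 (by norm_num))
    (le_trans (by norm_num) a2) (le_trans b2 (by norm_num))
    (le_trans (by norm_num) a3) (le_trans b3 (by norm_num))
  simp only [List.mem_cons, List.not_mem_nil, or_false] at hf
  subst hf
  simp only [nt_val, nm_val, MR.e1_val, MR.e2_val, MR.en2_val, NumUs.E.val, NumIs.E.val, NumIs.lkR] at hp
  push_cast at hp
  try simp only [div_one] at hp
  linarith only [hp]

/-- 10 boxes -/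
theorem fZ2b {x T s k : ℝ} (a0 : 4950 / 10000 ≤ x) (b0 : x ≤ 5100 / 10000) (a1 : -80 / 10000 ≤ T) (b1 : T ≤ 800 / 10000)
    (a2 : 1200 / 10000 ≤ s) (b2 : s ≤ 1650 / 10000) (a3 : -850 / 10000 ≤ k) (b3 : k ≤ 570 / 10000)
    :
    0 < (-(((535 / 1000) - (2 * T)) + (MR.s2 0 x (-T) s k))) := by
  have h : chkT [(emb (.neg (.add (.sub (.q 535 1000) (.mul (.q 2 1) (.var 1))) (MR.e2 (.q 0 1) (.var 0)
      (.neg (.var 1)) (.var 2) (.var 3)))))] 26
      40297133818057772336003
      [V.of 10000 4950 5100 0, V.of 10000 (-80) 800 0, V.of 10000 1200 1650 0, V.of 10000 (-850)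
        570 0] = true := by
    decide +kernel
  obtain ⟨f, hf, hp⟩ := chkT4 h (by norm_num) (x := x) (y := T) (z := s) (w := k)
    (le_trans (by norm_num) a0) (le_trans b0 (by norm_num))
    (le_trans (by norm_num) a1) (le_trans b1 (by norm_num))
    (le_trans (by norm_num) a2) (le_trans b2 (by norm_num))
    (le_trans (by norm_num) a3) (le_trans b3 (by norm_num))
  simp only [List.mem_cons, List.not_mem_nil, or_false] at hf
  subst hf
  simp only [nt_val, nm_val, MR.e1_val, MR.e2_val, MR.en2_val, NumUs.E.val, NumIs.E.val, NumIs.lkR] at hp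
  push_cast at hp
  try simp only [div_one] at hp
  linarith only [hp]

/-- 8 boxes -/
theorem fZ2c {x T s k : ℝ} (a0 : 4950 / 10000 ≤ x) (b0 : x ≤ 5100 / 10000) (a1 : -80 / 10000 ≤ T) (b1 : T ≤ 800 / 10000)
    (a2 : 1650 / 10000 ≤ s) (b2 : s ≤ 3600 / 10000) (a3 : -850 / 10000 ≤ k) (b3 : k ≤ 600 / 10000)
    :
    0 < (-(((535 / 1000) - (2 * T)) + (MR.s2 0 x (-T) s k))) := by
  have h : chkT [(emb (.neg (.add (.sub (.q 535 1000) (.mul (.q 2 1) (.var 1))) (MR.e2 (.q 0 1) (.var 0)
      (.neg (.var 1)) (.var 2) (.var 3)))))] 26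
      613483724872427570
      [V.of 10000 4950 5100 0, V.of 10000 (-80) 800 0, V.of 10000 1650 3600 0, V.of 10000 (-850)
        600 0] = true := by
    decide +kernel
  obtain ⟨f, hf, hp⟩ := chkT4 h (by norm_num) (x := x) (y := T) (z := s) (w := k)
    (le_trans (by norm_num) a0) (le_trans b0 (by norm_num))
    (le_trans (by norm_num) a1) (le_trans b1 (by norm_num))
    (le_trans (by norm_num) a2) (le_trans b2 (by norm_num))
    (le_trans (by norm_num) a3) (le_trans b3 (by norm_num))
  simp only [List.mem_cons, List.not_mem_nil, or_false] at hf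
  subst hf
  simp only [nt_val, nm_val, MR.e1_val, MR.e2_val, MR.en2_val, NumUs.E.val, NumIs.E.val, NumIs.lkR] at hp
  push_cast at hp
  try simp only [div_one] at hp
  linarith only [hp]

/-- 17 boxes -/
theorem f12a {x T s k : ℝ} (a0 : 4950 / 10000 ≤ x) (b0 : x ≤ 5100 / 10000) (a1 : -180 / 10000 ≤ T) (b1 : T ≤ 985 / 10000)
    (a2 : 1600 / 10000 ≤ s) (b2 : s ≤ 4450 / 10000) (a3 : -985 / 10000 ≤ k) (b3 : k ≤ 180 / 10000)
    (c0 : (x + s) - (94 / 100) ≤ 0) :
    0 < (-(((535 / 1000) - (2 * T)) + (MR.s2 0 x (-T) s k))) := by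
  have h : chkT [(emb (.neg (.add (.sub (.q 535 1000) (.mul (.q 2 1) (.var 1))) (MR.e2 (.q 0 1) (.var 0)
      (.neg (.var 1)) (.var 2) (.var 3))))), (emb (.sub (.add (.var 0) (.var 2)) (.q 94 100)))] 26
      2894412300596696562065215375350374629666
      [V.of 10000 4950 5100 0, V.of 10000 (-180) 985 0, V.of 10000 1600 4450 0, V.of 10000
        (-985) 180 0] = true := by
    decide +kernel
  obtain ⟨f, hf, hp⟩ := chkT4 h (by norm_num) (x := x) (y := T) (z := s) (w := k)
    (le_trans (by norm_num) a0) (le_trans b0 (by norm_num))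
    (le_trans (by norm_num) a1) (le_trans b1 (by norm_num))
    (le_trans (by norm_num) a2) (le_trans b2 (by norm_num))
    (le_trans (by norm_num) a3) (le_trans b3 (by norm_num))
  simp only [List.mem_cons, List.not_mem_nil, or_false] at hf
  rcases hf with rfl | rfl
  · simp only [nt_val, nm_val, MR.e1_val, MR.e2_val, MR.en2_val, NumUs.E.val, NumIs.E.val, NumIs.lkR] at hp
    push_cast at hp
    try simp only [div_one] at hp
    linarith only [hp]
  · simp only [nt_val, nm_val, MR.e1_val, MR.e2_val, MR.en2_val, NumUs.E.val, NumIs.E.val, NumIs.lkR] at hp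
    push_cast at hp
    try simp only [div_one] at hp
    exfalso
    linarith only [c0, hp]

/-- 1 boxes -/
theorem f12b {x T s k : ℝ} (a0 : 4950 / 10000 ≤ x) (b0 : x ≤ 5100 / 10000) (a1 : -180 / 10000 ≤ T) (b1 : T ≤ 985 / 10000)
    (a2 : 4300 / 10000 ≤ s) (b2 : s ≤ 5600 / 10000) (a3 : -985 / 10000 ≤ k) (b3 : k ≤ 180 / 10000)
    (c0 : (94 / 100) - (x + s) ≤ 0) :
    0 < (-(((535 / 1000) - (2 * T)) + (MR.n2 (45 / 100) 0 0 x (-T) s k))) := by
  have h : chkT [(emb (.neg (.add (.sub (.q 535 1000) (.mul (.q 2 1) (.var 1))) (MR.en2 (.q 45 100) (.q 0 1)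
      (.q 0 1) (.var 0) (.neg (.var 1)) (.var 2) (.var 3))))), (emb (.sub (.q 94 100) (.add (.var
      0) (.var 2))))] 26
      8
      [V.of 10000 4950 5100 0, V.of 10000 (-180) 985 0, V.of 10000 4300 5600 0, V.of 10000
        (-985) 180 0] = true := by
    decide +kernel
  obtain ⟨f, hf, hp⟩ := chkT4 h (by norm_num) (x := x) (y := T) (z := s) (w := k)
    (le_trans (by norm_num) a0) (le_trans b0 (by norm_num))
    (le_trans (by norm_num) a1) (le_trans b1 (by norm_num))
    (le_trans (by norm_num) a2) (le_trans b2 (by norm_num))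
    (le_trans (by norm_num) a3) (le_trans b3 (by norm_num))
  simp only [List.mem_cons, List.not_mem_nil, or_false] at hf
  rcases hf with rfl | rfl
  · simp only [nt_val, nm_val, MR.e1_val, MR.e2_val, MR.en2_val, NumUs.E.val, NumIs.E.val, NumIs.lkR] at hp
    push_cast at hp
    try simp only [div_one] at hp
    linarith only [hp]
  · simp only [nt_val, nm_val, MR.e1_val, MR.e2_val, MR.en2_val, NumUs.E.val, NumIs.E.val, NumIs.lkR] at hp
    push_cast at hp
    try simp only [div_one] at hp
    exfalso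
    linarith only [c0, hp]

end C12

end Pool.Agent.Work.MP_b30479_gtS.G2

end
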