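import Pool.Agent.Work.MP_b30479_gt.TBS.G2.C12E
import Pool.Agent.Work.MP_b30479_gt.TBS.G2.C12R2
import Pool.Agent.Work.MP_b30479_gt.TBS.G2.C12R4
import Pool.Agent.Work.MP_b30479_gt.TBS.G2.C12R5
import Pool.Agent.Work.MP_b30479_gt.TBS.G2.C12R5_2

section

/-!
# Part of `C12R3`
-/
set_option linter.unusedSimpArgs false
set_option linter.unusedTactic false
set_option linter.unusedVariables false

namespace Pool.Agent.Work.MP_b30479_gtS.G2

namespace C12

open NumUs NumUs.E
open NumIs (V)

/-- 210 boxes -/
theorem B2hi {x T s k : ℝ} (a0 : 5350 / 10000 ≤ x) (b0 : x ≤ 7500 / 10000) (a1 : -180 / 10000 ≤ T) (b1 : T ≤ 985 / 10000)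
    (a2 : 9700 / 10000 ≤ s) (b2 : s ≤ 10600 / 10000) (a3 : -1980 / 10000 ≤ k) (b3 : k ≤ 1150 /
    10000) (c0 : (-(k + (tt T x))) - (99 / 1000) ≤ 0) (c1 : (k + (tt T x)) - (96 / 1000) ≤ 0) :
    0 < ((g2 (40 / 100) T x (tt T x) (s - x) (k + (tt T x)) (uu ((40 / 100) + (s - x)) ((k + (tt
      T x)) - T)) ((uu (97 / 100) k) + ((34 / 100) * (s - (97 / 100))))) - (G1 x T)) := by
  have h : chkT [(sub (eg2 (q 40 100) (var 1) (var 0) (et (var 0) (var 1)) (sub (var 2) (var 0)) (add (var
      3) (et (var 0) (var 1))) (E.uu (add (q 40 100) (sub (var 2) (var 0))) (sub (add (var 3) (et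
      (var 0) (var 1))) (var 1))) (add (E.uu (q 97 100) (var 3)) (mul (q 34 100) (sub (var 2) (q
      97 100))))) (eG1 (var 0) (var 1))), (sub (neg (add (var 3) (et (var 0) (var 1)))) (q 99
      1000)), (sub (add (var 3) (et (var 0) (var 1))) (q 96 1000))] 18
      2238008493193143473492821785741687205906830100237599459447340963182128670255342118129231077105946902622576501665303102067576418937863917522680758515444721945428811215659185884968479827849772341134567808024827827486217413765494234931950529573258875348899212915681085901522032554825782238723883267365426386412636427369257491309218554284654798080109593449509442165773639941417385871946798907305735306020382871353111756409863886653484037206883671853494174231105277067413252373555209072924098762568842707284016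
      [V.of 10000 5350 7500 16, V.of 10000 (-180) 985 16, V.of 10000 9700 10600 16, V.of 10000
        (-1980) 1150 16] = true :=
      Pool.Agent.Work.NumUs.chkT_of (Pool.Agent.Work.NumUs.runT_split rfl rfl rfl
        B2hi_h1_q1
        B2hi_h1_q2)
  obtain ⟨f, hf, hp⟩ := chkT4 h (by norm_num) (x := x) (y := T) (z := s) (w := k)
    (le_trans (by norm_num) a0) (le_trans b0 (by norm_num))
    (le_trans (by norm_num) a1) (le_trans b1 (by norm_num))
    (le_trans (by norm_num) a2) (le_trans b2 (by norm_num))
    (le_trans (by norm_num) a3) (le_trans b3 (by norm_num))
  simp only [List.mem_cons, List.not_mem_nil, or_false] at hf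
  rcases hf with rfl | rfl | rfl
  · simp only [eg1_val, eg2_val, eF1_val, eG1_val, eF3_val, et_val, nt_val, nm_val, nfZ_val, nfP_val, np1_val,
      np2_val, MR.e1_val, MR.e2_val, NumUs.E.val, NumIs.E.val, NumIs.lkR] at hp
    push_cast at hp
    try simp only [div_one] at hp
    linarith only [hp]
  · simp only [eg1_val, eg2_val, eF1_val, eG1_val, eF3_val, et_val, nt_val, nm_val, nfZ_val, nfP_val, np1_val,
      np2_val, MR.e1_val, MR.e2_val, NumUs.E.val, NumIs.E.val, NumIs.lkR] at hp
    push_cast at hp
    try simp only [div_one] at hp
    exfalso
    linarith only [c0, hp]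
  · simp only [eg1_val, eg2_val, eF1_val, eG1_val, eF3_val, et_val, nt_val, nm_val, nfZ_val, nfP_val, np1_val,
      np2_val, MR.e1_val, MR.e2_val, NumUs.E.val, NumIs.E.val, NumIs.lkR] at hp
    push_cast at hp
    try simp only [div_one] at hp
    exfalso
    linarith only [c1, hp]

end C12

end Pool.Agent.Work.MP_b30479_gtS.G2

end

section

/-!
# The right ramp of the hinge `1 | 2`: sides and gains

`T` is the height in the frame of the digit `1`; `x'`, `t'` is the partner hinge of the digit `1`
(in its frame) or of the digit `2` (in its frame).
-/

set_option linter.unusedTactic false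
set_option linter.unreachableTactic false
set_option linter.unusedVariables false

namespace Pool.Agent.Work.MP_b30479_gtS.G2

open VOL NumUs

namespace C12

/-- the partner hinge of the digit `1` -/
structure R1 (T x' t' : ℝ) : Prop where
  T0 : -(18 / 1000) ≤ T
  T1 : T ≤ 985 / 10000
  x0 : 7 / 100 ≤ x'
  x1 : x' ≤ 80 / 100
  t0 : -(93 / 1000) ≤ t'
  t1 : t' ≤ 145 / 1000
  s1 : T + t' ≤ 187 / 1000
  up : t' ≤ 90625 / 100000 * x'
  dn : -t' ≤ 62 / 100 * x'
  r1 : t' ≤ 290 / 1000 * (86 / 100 - x')
  r2 : -t' ≤ 465 / 1000 * (86 / 100 - x')
  hi : 70 / 100 < x' → 0 ≤ t' ∧ t' ≤ 273 / 1000 * (80 / 100 - x') ∧ 5 / 1000 ≤ T ∧ T ≤ 79 / 1000 ∧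
    T + t' ≤ 130 / 1000

/-- the same if the partner is not a ring -/
structure R1P (T x' t' : ℝ) : Prop extends R1 T x' t' where
  s2 : T + t' ≤ 148 / 1000
  t2 : t' ≤ 94 / 1000
  up2 : t' ≤ 94 / 130 * x'

/-- the partner hinge of the digit `2` -/
structure R2 (T x' t' : ℝ) : Prop where
  T0 : -(18 / 1000) ≤ T
  T1 : T ≤ 985 / 10000
  x0 : 7 / 100 ≤ x'
  x1 : x' ≤ 80 / 100
  t0 : -(985 / 10000) ≤ t'
  t1 : t' ≤ 96 / 1000
  up : t' ≤ 768 / 1000 * x'
  dn : -t' ≤ 86 / 100 * x'
  r1 : x' ≤ 63 / 100 → t' ≤ 11 / 1000 + 320 / 1000 * (63 / 100 - x')
  r1' : 59 / 100 ≤ x' → t' ≤ 1 / 1000 + 63 / 1000 * (80 / 100 - x')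
  r2 : -t' ≤ 340 / 1000 * (80 / 100 - x')

variable {T x x' t' : ℝ}

theorem ex_k {a lo hi : ℝ} (hx : 0 < x') (h1 : lo * x' ≤ a * t') (h2 : a * t' ≤ hi * x') :
    ∃ k, lo ≤ k ∧ k ≤ hi ∧ k * x' = a * t' := by
  refine ⟨a * t' / x', ?_, ?_, ?_⟩
  · rw [le_div_iff₀ hx]; exact h1
  · rw [div_le_iff₀ hx]; exact h2
  · field_simp

/-- bounds of the height -/
theorem tt_mem (h0 : 535 / 1000 ≤ x) (h1 : x ≤ 80 / 100) (T0 : -(18 / 1000) ≤ T)
    (T1 : T ≤ 985 / 10000) : -(165 / 10000) ≤ tt T x ∧ tt T x ≤ 9005 / 100000 ∧
      (tt T x ≤ T ∨ tt T x ≤ 0) := by
  unfold tt
  have e1 : 0 ≤ 100 / 29 * (8 / 10 - x) := by linarith only [h1]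
  have e2 : 100 / 29 * (8 / 10 - x) ≤ 914 / 1000 := by linarith only [h0]
  set f := 100 / 29 * (8 / 10 - x)
  refine ⟨by nlinarith only [e2, T0, e1], by nlinarith only [T1, T0, e2, e1], ?_⟩
  rcases le_total 0 T with h | h
  · left; nlinarith only [h, e2]
  · right; nlinarith only [e1, h]

theorem tt_mem2 (h0 : 56 / 100 ≤ x) (h1 : x ≤ 80 / 100) (T0 : -(18 / 1000) ≤ T)
    (T1 : T ≤ 985 / 10000) : -(150 / 10000) ≤ tt T x ∧ tt T x ≤ 816 / 10000 := by
  unfold tt
  have e1 : 0 ≤ 100 / 29 * (8 / 10 - x) := by linarith only [h1]
  have e2 : 100 / 29 * (8 / 10 - x) ≤ 828 / 1000 := by linarith only [h0]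
  set f := 100 / 29 * (8 / 10 - x)
  exact ⟨by nlinarith only [e2, T0, e1], by nlinarith only [T1, T0, e2, e1]⟩

theorem tt_mem3 (h0 : 75 / 100 ≤ x) (h1 : x ≤ 80 / 100) (T0 : -(18 / 1000) ≤ T)
    (T1 : T ≤ 985 / 10000) : -(32 / 10000) ≤ tt T x ∧ tt T x ≤ 170 / 10000 := by
  unfold tt
  have e1 : 0 ≤ 100 / 29 * (8 / 10 - x) := by linarith only [h1]
  have e2 : 100 / 29 * (8 / 10 - x) ≤ 1725 / 10000 := by linarith only [h0]
  set f := 100 / 29 * (8 / 10 - x)
  exact ⟨by nlinarith only [e2, T0, e1], by nlinarith only [T1, T0, e2, e1]⟩

theorem lnA_neg (x t : ℝ) : NumIs.lnA x (-t) = NumIs.lnA x t := by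
  unfold NumIs.lnA
  simp

theorem lnB_neg (x t : ℝ) : NumIs.lnB x (-t) = -NumIs.lnB x t := by
  unfold NumIs.lnB
  rw [← Real.arctan_neg]
  congr 1
  rw [mul_neg, Real.sinh_neg, Real.cosh_neg, mul_neg, neg_div]

theorem p1_eq (T x x' t' : ℝ) : p1 T x (x + x') (tt T x + t') = MR.s1 (mm T) x (tt T x) x' t' := by
  unfold p1 MR.s1
  ring

theorem p2_eq (T x x' t' : ℝ) :
    p2 T x (x + x') (t' - tt T x) = MR.s2 (-mm T) x (-tt T x) x' t' := by
  unfold p2 MR.s2
  rw [lnA_neg, lnB_neg, show -tt T x + t' = t' - tt T x by ring]
  ring

/-! ### first order -/

theorem s1_lt_fZ (h0 : 56 / 100 ≤ x) (h1 : x ≤ 75 / 100) (h : R1 T x' t')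
    (hs : x + x' ≤ 97 / 100) : MR.s1 (mm T) x (tt T x) x' t' < fZ x T := by
  obtain ⟨T0, T1, x0, x1, t0, t1, s1, up, dn, r1, r2, hi⟩ := h
  obtain ⟨q1, q2⟩ := tt_mem2 h0 (by linarith only [h1]) T0 T1
  obtain ⟨-, -, q3⟩ := tt_mem (x := x) (by linarith only [h0]) (by linarith only [h1]) T0 T1
  rcases le_total x' (16 / 100) with h | h
  · obtain ⟨k, k1, k2, k3⟩ := ex_k (a := 16 / 100) (lo := -(993 / 10000)) (hi := 1450 / 10000)
      (t' := t') (by linarith only [x0] : 0 < x') (by linarith only [x0, dn]) (by linarith only [up])
    have e : 100 / 16 * k * x' = t' := by linear_combination (100 / 16) * k3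
    have := D1Za (x := x) (T := T) (s := x') (k := k) (by linarith only [h0]) (by linarith only [h1]) (by linarith only [T0])
      (by linarith only [T1]) (by linarith only [x0]) (by linarith only [h]) (by linarith only [k1]) (by linarith only [k2]) (by rw [e]; linarith only [s1])
    rw [e] at this
    linarith only [this]
  · rcases le_total (x + x') (88 / 100) with h' | h'
    · have := D1Zb (x := x) (T := T) (s := x') (k := t') (by linarith only [h0]) (by linarith only [h1]) (by linarith only [T0])
        (by linarith only [T1]) (by linarith only [h]) (by linarith only [h0, h']) (by linarith only [t0]) (by linarith only [t1]) (by linarith only [s1])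
        (by linarith only [h'])
      linarith only [this]
    · have := P1Z (x := x) (T := T) (s := x + x') (k := tt T x + t') (by linarith only [h0]) (by linarith only [h1])
        (by linarith only [T0]) (by linarith only [T1]) (by linarith only [h']) (by linarith only [hs]) (by linarith only [t0, q1])
        (by rcases q3 with q3 | q3 <;> linarith only [s1, q3, t1]) (by linarith only [s1]) (by linarith only [t0])
        (by linarith only [t1]) (by linarith only [x0, up])
      rw [p1_eq] at this
      linarith only [this]

theorem s1_lt_fP (h0 : 535 / 1000 ≤ x) (h1 : x ≤ 56 / 100) (h : R1P T x' t')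
    (hs : x + x' ≤ 97 / 100) : MR.s1 (mm T) x (tt T x) x' t' < fP x T := by
  obtain ⟨⟨T0, T1, x0, x1, t0, t1, s1, up, dn, r1, r2, hi⟩, s2, t2, up2⟩ := h
  obtain ⟨q1, q2, q3⟩ := tt_mem (x := x) (by linarith only [h0]) (by linarith only [h1]) T0 T1
  rcases le_total x' (13 / 100) with h | h
  · obtain ⟨k, k1, k2, k3⟩ := ex_k (a := 13 / 100) (lo := -(806 / 10000)) (hi := 940 / 10000)
      (t' := t') (by linarith only [x0] : 0 < x') (by linarith only [dn]) (by linarith only [up2])
    have e : 100 / 13 * k * x' = t' := by linear_combination (100 / 13) * k3
    have := D1Pa (x := x) (T := T) (s := x') (k := k) (by linarith only [h0]) (by linarith only [h1]) (by linarith only [T0])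
      (by linarith only [T1]) (by linarith only [x0]) (by linarith only [h]) (by linarith only [k1]) (by linarith only [k2]) (by rw [e]; linarith only [s2])
    rw [e] at this
    linarith only [this]
  · rcases le_total (x + x') (88 / 100) with h' | h'
    · have := D1Pb (x := x) (T := T) (s := x') (k := t') (by linarith only [h0]) (by linarith only [h1]) (by linarith only [T0])
        (by linarith only [T1]) (by linarith only [h]) (by linarith only [h0, h']) (by linarith only [t0]) (by linarith only [t2]) (by linarith only [s2])
        (by linarith only [dn]) (by linarith only [h'])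
      linarith only [this]
    · have := P1P (x := x) (T := T) (s := x + x') (k := tt T x + t') (by linarith only [h0]) (by linarith only [h1])
        (by linarith only [T0]) (by linarith only [T1]) (by linarith only [h']) (by linarith only [hs]) (by linarith only [t0, q1])
        (by rcases q3 with q3 | q3 <;> linarith only [s2, q3, t2]) (by linarith only [s2]) (by linarith only [t0])
        (by linarith only [t2])
      rw [p1_eq] at this
      linarith only [this]

theorem s2_lt_fZ (h0 : 56 / 100 ≤ x) (h1 : x ≤ 75 / 100) (h : R2 T x' t')
    (hs : x + x' ≤ 97 / 100) : MR.s2 (-mm T) x (-tt T x) x' t' < -fZ x T := by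
  obtain ⟨T0, T1, x0, x1, t0, t1, up, dn, r1, r1', r2⟩ := h
  obtain ⟨q1, q2⟩ := tt_mem2 h0 (by linarith only [h1]) T0 T1
  rcases le_total x' (125 / 1000) with h | h
  · obtain ⟨k, k1, k2, k3⟩ := ex_k (a := 1 / 8) (lo := -(1075 / 10000)) (hi := 960 / 10000)
      (t' := t') (by linarith only [x0] : 0 < x') (by linarith only [dn]) (by linarith only [up])
    have e : 8 * k * x' = t' := by linear_combination 8 * k3
    have := D2Za (x := x) (T := T) (s := x') (k := k) (by linarith only [h0]) (by linarith only [h1]) (by linarith only [T0])
      (by linarith only [T1]) (by linarith only [x0]) (by linarith only [h]) (by linarith only [k1]) (by linarith only [k2])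
    rw [e] at this
    linarith only [this]
  · rcases le_total (x + x') (88 / 100) with h' | h'
    · have := D2Zb (x := x) (T := T) (s := x') (k := t') (by linarith only [h0]) (by linarith only [h1]) (by linarith only [T0])
        (by linarith only [T1]) (by linarith only [h]) (by linarith only [h0, h']) (by linarith only [t0]) (by linarith only [t1]) (by linarith only [h'])
      linarith only [this]
    · have := P2Z (x := x) (T := T) (s := x + x') (k := t' - tt T x) (by linarith only [h0]) (by linarith only [h1])
        (by linarith only [T0]) (by linarith only [T1]) (by linarith only [h']) (by linarith only [hs]) (by linarith only [t0, q2])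
        (by linarith only [t1, q1]) (by linarith only [t0]) (by linarith only [t1])
      rw [p2_eq] at this
      linarith only [this]

theorem s2_lt_fP (h0 : 535 / 1000 ≤ x) (h1 : x ≤ 56 / 100) (h : R2 T x' t')
    (hs : x + x' ≤ 97 / 100) : MR.s2 (-mm T) x (-tt T x) x' t' < -fP x T := by
  obtain ⟨T0, T1, x0, x1, t0, t1, up, dn, r1, r1', r2⟩ := h
  obtain ⟨q1, q2, q3⟩ := tt_mem (x := x) (by linarith only [h0]) (by linarith only [h1]) T0 T1
  rcases le_total x' (125 / 1000) with h | h
  · obtain ⟨k, k1, k2, k3⟩ := ex_k (a := 1 / 8) (lo := -(1075 / 10000)) (hi := 960 / 10000)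
      (t' := t') (by linarith only [x0] : 0 < x') (by linarith only [dn]) (by linarith only [up])
    have e : 8 * k * x' = t' := by linear_combination 8 * k3
    have := D2Pa (x := x) (T := T) (s := x') (k := k) (by linarith only [h0]) (by linarith only [h1]) (by linarith only [T0])
      (by linarith only [T1]) (by linarith only [x0]) (by linarith only [h]) (by linarith only [k1]) (by linarith only [k2])
    rw [e] at this
    linarith only [this]
  · rcases le_total (x + x') (88 / 100) with h' | h'
    · have := D2Pb (x := x) (T := T) (s := x') (k := t') (by linarith only [h0]) (by linarith only [h1]) (by linarith only [T0])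
        (by linarith only [T1]) (by linarith only [h]) (by linarith only [h0, h']) (by linarith only [t0]) (by linarith only [t1]) (by linarith only [h'])
      linarith only [this]
    · have := P2P (x := x) (T := T) (s := x + x') (k := t' - tt T x) (by linarith only [h0]) (by linarith only [h1])
        (by linarith only [T0]) (by linarith only [T1]) (by linarith only [h']) (by linarith only [hs]) (by linarith only [t0, q2])
        (by linarith only [t1, q1]) (by linarith only [t0]) (by linarith only [t1])
      rw [p2_eq] at this
      linarith only [this]

/-! ### gains -/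

theorem fin1 {c F cn un : ℝ} (h : 0 < g1 c T x (tt T x) x' t' cn un + F)
    (h1 : cn ≤ uu (c + x') (T + t')) (h2 : uu (x + x') (tt T x + t') ≤ un) :
    -F < gn1 c x T x' t' := by
  unfold gn1 g1
  unfold g1 at h
  linarith only [h, h1, h2]

theorem fin2 {c F cn un : ℝ} (h : 0 < g2 c T x (tt T x) x' t' cn un - F)
    (h1 : cn ≤ uu (c + x') (t' - T)) (h2 : uu (x + x') (t' - tt T x) ≤ un) :
    F < gn2 c x T x' t' := by
  unfold gn2 g2
  unfold g2 at h
  linarith only [h, h1, h2]

theorem cn_bey (a Y : ℝ) : uu (a - 1) Y + Real.pi * 1 * Y ≤ uu a Y ∧
    uu (a - 1) Y + Real.pi * -1 * Y ≤ uu a Y := by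
  have hp := Real.pi_pos
  have e := uu_add_one (a - 1) Y
  rw [sub_add_cancel] at e
  have h1 := mul_le_mul_of_nonneg_left (le_abs_self Y) hp.le
  have h2 := mul_le_mul_of_nonneg_left (neg_abs_le Y) hp.le
  rw [e]
  constructor <;> linarith only [h1, h2]

theorem cn_mid {s0 y0 c : ℝ} (K : MR.Kr s0 y0 c) (hc : 0 ≤ c) (h1 : s0 ≤ 1 / 2)
    (h3 : 3 / 100 ≤ s0) {a Y : ℝ} (ha : 97 / 100 ≤ a) (hb : a ≤ 103 / 100) (hy : |Y| ≤ y0) :
    uu (3 / 100) Y + Real.pi * 1 * Y - c * (103 / 100 - a) ≤ uu a Y ∧
    uu (3 / 100) Y + Real.pi * -1 * Y - c * (103 / 100 - a) ≤ uu a Y := by
  have h4 := anti1c K hc h1 (a := a) (b := 103 / 100) (y := Y) (by linarith only [h3, ha]) hb (by linarith only [h3]) hy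
  obtain ⟨h5, h6⟩ := cn_bey (103 / 100) Y
  norm_num at h5 h6 ⊢
  constructor <;> linarith only [h4, h5, h6]

theorem un_p {a y : ℝ} (h : 0 ≤ y) : uu a y ≤ uu (a - 1) y + Real.pi * 1 * y := by
  have e := uu_add_one (a - 1) y
  rw [sub_add_cancel, abs_of_nonneg h] at e
  linarith only [e]

theorem un_n {a y : ℝ} (h : y ≤ 0) : uu a y ≤ uu (a - 1) y + Real.pi * -1 * y := by
  have e := uu_add_one (a - 1) y
  rw [sub_add_cancel, abs_of_nonpos h] at e
  linarith only [e]

theorem V1lo (h0 : 56 / 100 ≤ x) (h1 : x ≤ 75 / 100) (h : R1 T x' t')
    (hs : x + x' ≤ 97 / 100) :
    -G1 x T < gn1 (40 / 100) x T x' t' := by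
  obtain ⟨T0, T1, x0, x1, t0, t1, s1, up, dn, r1, r2, hi⟩ := h
  obtain ⟨-, -, q3⟩ := tt_mem (x := x) (by linarith only [h0]) (by linarith only [h1]) T0 T1
  obtain ⟨q1, q2⟩ := tt_mem2 (x := x) (by linarith only [h0]) (by linarith only [h1]) T0 T1
  rcases le_total x' (16 / 100) with h2 | h2
  · obtain ⟨k, k1, k2, k3⟩ := ex_k (a := 16 / 100) (lo := -(993 / 10000)) (hi := 1450 / 10000)
      (t' := t') (by linarith only [x0] : 0 < x') (by linarith only [x0, dn]) (by linarith only [up])
    have e : 100 / 16 * k * x' = t' := by linear_combination (100 / 16) * k3
    have h := V1a (x := x) (T := T) (s := x') (k := k) (by linarith only [h0]) (by linarith only [h1]) (by linarith only [T0])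
      (by linarith only [T1]) (by linarith only [x0]) (by linarith only [h2]) (by linarith only [k1]) (by linarith only [k2])
      (by rw [e]; linarith only [s1])
    rw [e] at h
    exact fin1 h le_rfl le_rfl
  · rcases le_total (x + x') (94 / 100) with h3 | h3
    · have h := V1b (x := x) (T := T) (s := x') (k := t') (by linarith only [h0]) (by linarith only [h1]) (by linarith only [T0])
          (by linarith only [T1]) (by linarith only [h2]) (by linarith only [h0, h3]) (by linarith only [t0]) (by linarith only [t1]) (by linarith only [s1])
          (by linarith only [h3])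
      exact fin1 h le_rfl le_rfl
    · have h := B1lo (x := x) (T := T) (s := x + x') (k := tt T x + t') (by linarith only [h0])
        (by linarith only [h1]) (by linarith only [T0]) (by linarith only [T1]) (by linarith only [h3]) (by linarith only [hs]) (by linarith only [t0, q1])
        (by rcases q3 with q3 | q3 <;> linarith only [s1, q3, t1]) (by linarith only [s1]) (by linarith only [t0]) (by linarith only [t1])
        (by linarith only [x0, up])
      rw [show x + x' - x = x' by ring, show tt T x + t' - tt T x = t' by ring] at h
      exact fin1 h le_rfl (anti1c kr_6_187 (by norm_num) (by norm_num) (by linarith only [])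
        (by linarith only [h3]) (by linarith only [hs])
        (by rw [abs_le]; constructor <;> first | linarith only [t0, q1] | (rcases q3 with q3 | q3 <;> linarith only [s1, q3, t1])))

theorem V1loP (h0 : 535 / 1000 ≤ x) (h1 : x ≤ 56 / 100) (h : R1P T x' t')
    (hs : x + x' ≤ 97 / 100) :
    -G1 x T < gn1 (40 / 100) x T x' t' := by
  obtain ⟨⟨T0, T1, x0, x1, t0, t1, s1, up, dn, r1, r2, hi⟩, s2, t2, up2⟩ := h
  obtain ⟨q1, q2, q3⟩ := tt_mem (x := x) (by linarith only [h0]) (by linarith only [h1]) T0 T1
  rcases le_total x' (13 / 100) with h2 | h2
  · obtain ⟨k, k1, k2, k3⟩ := ex_k (a := 13 / 100) (lo := -(806 / 10000)) (hi := 940 / 10000)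
      (t' := t') (by linarith only [x0] : 0 < x') (by linarith only [dn]) (by linarith only [up2])
    have e : 100 / 13 * k * x' = t' := by linear_combination (100 / 13) * k3
    have h := V1Pa (x := x) (T := T) (s := x') (k := k) (by linarith only [h0]) (by linarith only [h1])
      (by linarith only [T0]) (by linarith only [T1]) (by linarith only [x0]) (by linarith only [h2]) (by linarith only [k1]) (by linarith only [k2])
      (by rw [e]; linarith only [s2])
    rw [e] at h
    exact fin1 h le_rfl le_rfl
  · rcases le_total (x + x') (94 / 100) with h3 | h3
    · have h := V1Pb (x := x) (T := T) (s := x') (k := t') (by linarith only [h0]) (by linarith only [h1]) (by linarith only [T0])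
          (by linarith only [T1]) (by linarith only [h2]) (by linarith only [h0, h3]) (by linarith only [t0]) (by linarith only [t2]) (by linarith only [s2])
          (by linarith only [dn]) (by linarith only [h3])
      exact fin1 h le_rfl le_rfl
    · have h := B1lo (x := x) (T := T) (s := x + x') (k := tt T x + t') (by linarith only [h0])
        (by linarith only [h1]) (by linarith only [T0]) (by linarith only [T1]) (by linarith only [h3]) (by linarith only [hs]) (by linarith only [t0, q1])
        (by rcases q3 with q3 | q3 <;> linarith only [t2, q2]) (by linarith only [s2]) (by linarith only [t0]) (by linarith only [t2])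
        (by linarith only [up2, x0])
      rw [show x + x' - x = x' by ring, show tt T x + t' - tt T x = t' by ring] at h
      exact fin1 h le_rfl (anti1c kr_6_187 (by norm_num) (by norm_num) (by linarith only [])
        (by linarith only [h3]) (by linarith only [hs])
        (by rw [abs_le]; constructor <;> first | linarith only [t0, q1, t2, q2] | (rcases q3 with q3 | q3 <;> linarith)))

theorem V2lo (h0 : 535 / 1000 ≤ x) (h1 : x ≤ 75 / 100) (h : R2 T x' t')
    (hs : x + x' ≤ 97 / 100) :
    F1 x T < gn2 (40 / 100) x T x' t' := by
  obtain ⟨T0, T1, x0, x1, t0, t1, up, dn, r1, r1', r2⟩ := h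
  obtain ⟨q1, q2, q3⟩ := tt_mem (x := x) (by linarith only [h0]) (by linarith only [h1]) T0 T1
  rcases le_total x' (125 / 1000) with h2 | h2
  · obtain ⟨k, k1, k2, k3⟩ := ex_k (a := 1 / 8) (lo := -(1075 / 10000)) (hi := 960 / 10000)
      (t' := t') (by linarith only [x0] : 0 < x') (by linarith only [dn]) (by linarith only [up])
    have e : 8 * k * x' = t' := by linear_combination (8) * k3
    have h := V2a (x := x) (T := T) (s := x') (k := k) (by linarith only [h0]) (by linarith only [h1]) (by linarith only [T0])
      (by linarith only [T1]) (by linarith only [x0]) (by linarith only [h2]) (by linarith only [k1]) (by linarith only [k2])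
    rw [e] at h
    exact fin2 h le_rfl le_rfl
  · rcases le_total (x + x') (94 / 100) with h3 | h3
    · have h := V2b (x := x) (T := T) (s := x') (k := t') (by linarith only [h0]) (by linarith only [h1]) (by linarith only [T0])
          (by linarith only [T1]) (by linarith only [h2]) (by linarith only [h0, h3]) (by linarith only [t0]) (by linarith only [t1]) (by linarith only [h3])
      exact fin2 h le_rfl le_rfl
    · have h := B2lo (x := x) (T := T) (s := x + x') (k := t' - tt T x) (by linarith only [h0])
        (by linarith only [h1]) (by linarith only [T0]) (by linarith only [T1]) (by linarith only [h3]) (by linarith only [hs]) (by linarith only [t0, q2])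
        (by linarith only [t1, q1]) (by linarith only [t0]) (by linarith only [t1])
      rw [show x + x' - x = x' by ring, show t' - tt T x + tt T x = t' by ring] at h
      exact fin2 h le_rfl (anti1c kr_6_2 (by norm_num) (by norm_num) (by linarith only [])
        (by linarith only [h3]) (by linarith only [hs])
        (by rw [abs_le]; constructor <;> first | linarith only [t0, q2, t1, q1] | (rcases q3 with q3 | q3 <;> linarith)))

theorem V1D (h0 : 535 / 1000 ≤ x) (h1 : x ≤ 75 / 100) (h : R1 T x' t')
    (hx : 70 / 100 < x') (hs : 106 / 100 ≤ x + x') :
    -F1 x T < gn1 (40 / 100) x T x' t' := by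
  obtain ⟨T0, T1, x0, x1, t0, t1, s1, up, dn, r1, r2, hi⟩ := h
  obtain ⟨i1, i2, i3, i4, i5⟩ := hi hx
  rcases le_total 0 (tt T x + t') with hy | hy
  · have h := Z1Dp (x := x) (T := T) (s := x') (k := t') (by linarith only [h0]) (by linarith only [h1]) (by linarith only [i3])
        (by linarith only [i4]) (by linarith only [hx]) (by linarith only [x1]) (by linarith only [i1]) (by linarith only [hx, r1, i2]) (by linarith only [hy])
        (by linarith only [hx, T1, r1, i2]) (by linarith only [i2]) (by linarith only [h0, hx])
    obtain ⟨m1, m2⟩ := cn_bey (40 / 100 + x') (T + t')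
    rcases h with h | h
    · exact fin1 h m1 (un_p hy)
    · exact fin1 h m2 (un_p hy)
  · have h := Z1Dn (x := x) (T := T) (s := x') (k := t') (by linarith only [h0]) (by linarith only [h1]) (by linarith only [i3])
        (by linarith only [i4]) (by linarith only [hx]) (by linarith only [x1]) (by linarith only [i1]) (by linarith only [hx, r1, i2]) (by linarith only [hy])
        (by linarith only [hx, T1, r1, i2]) (by linarith only [i2]) (by linarith only [h0, hx])
    obtain ⟨m1, m2⟩ := cn_bey (40 / 100 + x') (T + t')
    rcases h with h | h
    · exact fin1 h m1 (un_n hy)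
    · exact fin1 h m2 (un_n hy)

theorem V1hi (h0 : 56 / 100 ≤ x) (h1 : x ≤ 75 / 100) (hR : R1 T x' t')
    (hs : 97 / 100 ≤ x + x') :
    -F1 x T < gn1 (40 / 100) x T x' t' := by
  have HR := hR
  obtain ⟨T0, T1, x0, x1, t0, t1, s1, up, dn, r1, r2, hi⟩ := hR
  obtain ⟨-, -, q3⟩ := tt_mem (x := x) (by linarith only [h0]) (by linarith only [h1]) T0 T1
  obtain ⟨q1, q2⟩ := tt_mem2 (x := x) (by linarith only [h0]) (by linarith only [h1]) T0 T1
  rcases le_total (x + x') (106 / 100) with h2 | h2
  · have h := B1hi (x := x) (T := T) (s := x + x') (k := tt T x + t') (by linarith only [h0])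
      (by linarith only [h1]) (by linarith only [T0]) (by linarith only [T1]) (by linarith only [hs]) (by linarith only [h2]) (by linarith only [t0, q1])
      (by rcases q3 with q3 | q3 <;> linarith only [s1, q3, t1]) (by linarith only [s1]) (by linarith only [t0]) (by linarith only [t1])
      (by linarith only [h1, hs, t1])
    rw [show x + x' - x = x' by ring, show tt T x + t' - tt T x = t' by ring] at h
    exact fin1 h le_rfl (anti1c kr_6_187 (by norm_num) (by norm_num) (by linarith only [])
      (by linarith only [hs]) (by linarith only [h2])
      (by rw [abs_le]; constructor <;> first | linarith only [t0, q1] | (rcases q3 with q3 | q3 <;> linarith only [s1, q3, t1])))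
  · rcases le_total x' (57 / 100) with h3 | h3
    · rcases le_total 0 (tt T x + t') with hy | hy
      · have h := Z1Ap (x := x) (T := T) (s := x') (k := t') (by linarith only [h0]) (by linarith only [h1]) (by linarith only [T0])
            (by linarith only [T1]) (by linarith only [h1, h2]) (by linarith only [h3]) (by linarith only [t0]) (by linarith only [t1]) (by linarith only [hy])
            (by linarith only [s1]) (by linarith only [r1]) (by linarith only [r2]) (by linarith only [h2])
        exact fin1 h le_rfl (un_p hy)
      · have h := Z1An (x := x) (T := T) (s := x') (k := t') (by linarith only [h0]) (by linarith only [h1]) (by linarith only [T0])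
            (by linarith only [T1]) (by linarith only [h1, h2]) (by linarith only [h3]) (by linarith only [t0]) (by linarith only [t1]) (by linarith only [hy])
            (by linarith only [s1]) (by linarith only [r1]) (by linarith only [r2]) (by linarith only [h2])
        exact fin1 h le_rfl (un_n hy)
    · rcases le_total x' (63 / 100) with h4 | h4
      · rcases le_total 0 (tt T x + t') with hy | hy
        · have h := Z1Bp (x := x) (T := T) (s := x') (k := t') (by linarith only [h0]) (by linarith only [h1]) (by linarith only [T0])
              (by linarith only [T1]) (by linarith only [h3]) (by linarith only [h4]) (by linarith only [t0]) (by linarith only [t1])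
              (by linarith only [hy]) (by linarith only [s1]) (by linarith only [r1]) (by linarith only [r2]) (by linarith only [h0, h3])
          obtain ⟨m1, m2⟩ := cn_mid kr_6_187 (by norm_num) (by norm_num) (by norm_num)
            (a := 40 / 100 + x') (Y := T + t') (by linarith only [h3]) (by linarith only [h4])
            (by rw [abs_le]; constructor <;> linarith only [T0, t0, s1])
          rcases h with h | h
          · exact fin1 h m1 (un_p hy)
          · exact fin1 h m2 (un_p hy)
        · have h := Z1Bn (x := x) (T := T) (s := x') (k := t') (by linarith only [h0]) (by linarith only [h1]) (by linarith only [T0])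
              (by linarith only [T1]) (by linarith only [h3]) (by linarith only [h4]) (by linarith only [t0]) (by linarith only [t1])
              (by linarith only [hy]) (by linarith only [s1]) (by linarith only [r1]) (by linarith only [r2]) (by linarith only [h0, h3])
          obtain ⟨m1, m2⟩ := cn_mid kr_6_187 (by norm_num) (by norm_num) (by norm_num)
            (a := 40 / 100 + x') (Y := T + t') (by linarith only [h3]) (by linarith only [h4])
            (by rw [abs_le]; constructor <;> linarith only [T0, t0, s1])
          rcases h with h | h
          · exact fin1 h m1 (un_n hy)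
          · exact fin1 h m2 (un_n hy)
      · rcases le_or_gt x' (70 / 100) with h5 | h5
        · rcases le_total 0 (tt T x + t') with hy | hy
          · have h := Z1Cp (x := x) (T := T) (s := x') (k := t') (by linarith only [h0]) (by linarith only [h1])
                (by linarith only [T0]) (by linarith only [T1]) (by linarith only [h4]) (by linarith only [h5]) (by linarith only [t0])
                (by linarith only [t1]) (by linarith only [hy]) (by linarith only [s1]) (by linarith only [r1]) (by linarith only [r2])
                (by linarith only [h0, h4])
            obtain ⟨m1, m2⟩ := cn_bey (40 / 100 + x') (T + t')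
            rcases h with h | h
            · exact fin1 h m1 (un_p hy)
            · exact fin1 h m2 (un_p hy)
          · have h := Z1Cn (x := x) (T := T) (s := x') (k := t') (by linarith only [h0]) (by linarith only [h1])
                (by linarith only [T0]) (by linarith only [T1]) (by linarith only [h4]) (by linarith only [h5]) (by linarith only [t0])
                (by linarith only [t1]) (by linarith only [hy]) (by linarith only [s1]) (by linarith only [r1]) (by linarith only [r2])
                (by linarith only [h0, h4])
            obtain ⟨m1, m2⟩ := cn_bey (40 / 100 + x') (T + t')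
            rcases h with h | h
            · exact fin1 h m1 (un_n hy)
            · exact fin1 h m2 (un_n hy)
        · exact V1D (by linarith only [h0]) (by linarith only [h1]) HR h5 h2

theorem V1hiP (h0 : 535 / 1000 ≤ x) (h1 : x ≤ 56 / 100) (hR : R1P T x' t')
    (hs : 97 / 100 ≤ x + x') :
    -F1 x T < gn1 (40 / 100) x T x' t' := by
  have HR := hR.toR1
  obtain ⟨⟨T0, T1, x0, x1, t0, t1, s1, up, dn, r1, r2, hi⟩, s2, t2, up2⟩ := hR
  obtain ⟨q1, q2, q3⟩ := tt_mem (x := x) (by linarith only [h0]) (by linarith only [h1]) T0 T1
  rcases le_total (x + x') (106 / 100) with h2 | h2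
  · have h := B1Phi (x := x) (T := T) (s := x + x') (k := tt T x + t') (by linarith only [h0])
      (by linarith only [h1]) (by linarith only [T0]) (by linarith only [T1]) (by linarith only [hs]) (by linarith only [h2]) (by linarith only [t0, q1])
      (by rcases q3 with q3 | q3 <;> linarith only [s2, q3, t2]) (by linarith only [s2]) (by linarith only [t0]) (by linarith only [t2])
    rw [show x + x' - x = x' by ring, show tt T x + t' - tt T x = t' by ring] at h
    exact fin1 h le_rfl (anti1c kr_6_187 (by norm_num) (by norm_num) (by linarith only [])
      (by linarith only [hs]) (by linarith only [h2])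
      (by rw [abs_le]; constructor <;> first | linarith only [t0, q1, t2, q2] | (rcases q3 with q3 | q3 <;> linarith)))
  · rcases le_total x' (57 / 100) with h3 | h3
    · rcases le_total 0 (tt T x + t') with hy | hy
      · have h := Z1PAp (x := x) (T := T) (s := x') (k := t') (by linarith only [h0]) (by linarith only [h1]) (by linarith only [T0])
            (by linarith only [T1]) (by linarith only [h1, h2]) (by linarith only [h3]) (by linarith only [t0]) (by linarith only [t2]) (by linarith only [hy])
            (by linarith only [s2]) (by linarith only [h2])
        exact fin1 h le_rfl (un_p hy)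
      · have h := Z1PAn (x := x) (T := T) (s := x') (k := t') (by linarith only [h0]) (by linarith only [h1]) (by linarith only [T0])
            (by linarith only [T1]) (by linarith only [h1, h2]) (by linarith only [h3]) (by linarith only [t0]) (by linarith only [q1, hy]) (by linarith only [hy])
            (by linarith only [T1, q1, hy]) (by linarith only [h2])
        exact fin1 h le_rfl (un_n hy)
    · rcases le_total x' (63 / 100) with h4 | h4
      · rcases le_total 0 (tt T x + t') with hy | hy
        · have h := Z1PBp (x := x) (T := T) (s := x') (k := t') (by linarith only [h0]) (by linarith only [h1])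
              (by linarith only [T0]) (by linarith only [T1]) (by linarith only [h3]) (by linarith only [h4]) (by linarith only [t0])
              (by linarith only [r1, h3]) (by linarith only [hy]) (by linarith only [s2]) (by linarith only [h0, h3])
          obtain ⟨m1, m2⟩ := cn_mid kr_6_187 (by norm_num) (by norm_num) (by norm_num)
            (a := 40 / 100 + x') (Y := T + t') (by linarith only [h3]) (by linarith only [h4])
            (by rw [abs_le]; constructor <;> linarith only [T0, t0, s2])
          rcases h with h | h
          · exact fin1 h m1 (un_p hy)
          · exact fin1 h m2 (un_p hy)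
        · have h := Z1PBn (x := x) (T := T) (s := x') (k := t') (by linarith only [h0]) (by linarith only [h1])
              (by linarith only [T0]) (by linarith only [T1]) (by linarith only [h3]) (by linarith only [h4]) (by linarith only [t0])
              (by linarith only [q1, hy]) (by linarith only [hy]) (by linarith only [T1, q1, hy]) (by linarith only [h0, h3])
          obtain ⟨m1, m2⟩ := cn_mid kr_6_187 (by norm_num) (by norm_num) (by norm_num)
            (a := 40 / 100 + x') (Y := T + t') (by linarith only [h3]) (by linarith only [h4])
            (by rw [abs_le]; constructor <;> linarith only [T0, t0, T1, q1, hy])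
          rcases h with h | h
          · exact fin1 h m1 (un_n hy)
          · exact fin1 h m2 (un_n hy)
      · rcases le_or_gt x' (70 / 100) with h5 | h5
        · rcases le_total 0 (tt T x + t') with hy | hy
          · have h := Z1PCp (x := x) (T := T) (s := x') (k := t') (by linarith only [h0]) (by linarith only [h1])
                (by linarith only [T0]) (by linarith only [T1]) (by linarith only [h4]) (by linarith only [h5]) (by linarith only [t0])
                (by linarith only [r1, h4]) (by linarith only [hy]) (by linarith only [s2]) (by linarith only [h0, h4])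
            obtain ⟨m1, m2⟩ := cn_bey (40 / 100 + x') (T + t')
            rcases h with h | h
            · exact fin1 h m1 (un_p hy)
            · exact fin1 h m2 (un_p hy)
          · have h := Z1PCn (x := x) (T := T) (s := x') (k := t') (by linarith only [h0]) (by linarith only [h1])
                (by linarith only [T0]) (by linarith only [T1]) (by linarith only [h4]) (by linarith only [h5]) (by linarith only [t0])
                (by linarith only [q1, hy]) (by linarith only [hy]) (by linarith only [T1, q1, hy]) (by linarith only [h0, h4])
            obtain ⟨m1, m2⟩ := cn_bey (40 / 100 + x') (T + t')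
            rcases h with h | h
            · exact fin1 h m1 (un_n hy)
            · exact fin1 h m2 (un_n hy)
        · exact V1D (by linarith only [h0]) (by linarith only [h1]) HR h5 h2

theorem V2hi (h0 : 535 / 1000 ≤ x) (h1 : x ≤ 75 / 100) (h : R2 T x' t')
    (hs : 97 / 100 ≤ x + x') :
    G1 x T < gn2 (40 / 100) x T x' t' := by
  obtain ⟨T0, T1, x0, x1, t0, t1, up, dn, r1, r1', r2⟩ := h
  obtain ⟨q1, q2, q3⟩ := tt_mem (x := x) (by linarith only [h0]) (by linarith only [h1]) T0 T1
  rcases le_total (x + x') (106 / 100) with h2 | h2
  · have h := B2hi (x := x) (T := T) (s := x + x') (k := t' - tt T x) (by linarith only [h0])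
      (by linarith only [h1]) (by linarith only [T0]) (by linarith only [T1]) (by linarith only [hs]) (by linarith only [h2]) (by linarith only [t0, q2])
      (by linarith only [t1, q1]) (by linarith only [t0]) (by linarith only [t1])
    rw [show x + x' - x = x' by ring, show t' - tt T x + tt T x = t' by ring] at h
    exact fin2 h le_rfl (anti1c kr_6_2 (by norm_num) (by norm_num) (by linarith only [])
      (by linarith only [hs]) (by linarith only [h2])
      (by rw [abs_le]; constructor <;> first | linarith only [t0, q2, t1, q1] | (rcases q3 with q3 | q3 <;> linarith)))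
  · rcases le_total x' (57 / 100) with h3 | h3
    · have r1 := r1 (by linarith only [h3])
      rcases le_total 0 (t' - tt T x) with hy | hy
      · have h := Z2Ap (x := x) (T := T) (s := x') (k := t') (by linarith only [h0]) (by linarith only [h1]) (by linarith only [T0])
            (by linarith only [T1]) (by linarith only [h1, h2]) (by linarith only [h3]) (by linarith only [q1, hy]) (by linarith only [t1]) (by linarith only [hy])
            (by linarith only [r1]) (by linarith only [r2]) (by linarith only [h2])
        exact fin2 h le_rfl (un_p hy)
      · have h := Z2An (x := x) (T := T) (s := x') (k := t') (by linarith only [h0]) (by linarith only [h1]) (by linarith only [T0])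
            (by linarith only [T1]) (by linarith only [h1, h2]) (by linarith only [h3]) (by linarith only [t0]) (by linarith only [t1]) (by linarith only [hy])
            (by linarith only [r1]) (by linarith only [r2]) (by linarith only [h2])
        exact fin2 h le_rfl (un_n hy)
    · rcases le_total x' (63 / 100) with h4 | h4
      · have r1 := r1 (by linarith only [h4])
        rcases le_total 0 (t' - tt T x) with hy | hy
        · have h := Z2Bp (x := x) (T := T) (s := x') (k := t') (by linarith only [h0]) (by linarith only [h1]) (by linarith only [T0])
              (by linarith only [T1]) (by linarith only [h3]) (by linarith only [h4]) (by linarith only [q1, hy]) (by linarith only [t1])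
              (by linarith only [hy]) (by linarith only [r1]) (by linarith only [r2]) (by linarith only [h0, h3])
          obtain ⟨m1, m2⟩ := cn_mid kr_6_2 (by norm_num) (by norm_num) (by norm_num)
            (a := 40 / 100 + x') (Y := t' - T) (by linarith only [h3]) (by linarith only [h4])
            (by rw [abs_le]; constructor <;> linarith only [T1, q1, hy, T0, t1])
          rcases h with h | h
          · exact fin2 h m1 (un_p hy)
          · exact fin2 h m2 (un_p hy)
        · have h := Z2Bn (x := x) (T := T) (s := x') (k := t') (by linarith only [h0]) (by linarith only [h1]) (by linarith only [T0])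
              (by linarith only [T1]) (by linarith only [h3]) (by linarith only [h4]) (by linarith only [r2, h3]) (by linarith only [t1])
              (by linarith only [hy]) (by linarith only [r1]) (by linarith only [r2]) (by linarith only [h0, h3])
          obtain ⟨m1, m2⟩ := cn_mid kr_6_2 (by norm_num) (by norm_num) (by norm_num)
            (a := 40 / 100 + x') (Y := t' - T) (by linarith only [h3]) (by linarith only [h4])
            (by rw [abs_le]; constructor <;> linarith only [T1, r2, h3, T0, t1])
          rcases h with h | h
          · exact fin2 h m1 (un_n hy)
          · exact fin2 h m2 (un_n hy)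
      · have r1' := r1' (by linarith only [h4])
        rcases le_total 0 (t' - tt T x) with hy | hy
        · have h := Z2Cp (x := x) (T := T) (s := x') (k := t') (by linarith only [h0]) (by linarith only [h1]) (by linarith only [T0])
              (by linarith only [T1]) (by linarith only [h4]) (by linarith only [x1]) (by linarith only [q1, hy]) (by linarith only [t1])
              (by linarith only [hy]) (by linarith only [r1']) (by linarith only [r2]) (by linarith only [h0, h4])
          obtain ⟨m1, m2⟩ := cn_bey (40 / 100 + x') (t' - T)
          rcases h with h | h
          · exact fin2 h m1 (un_p hy)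
          · exact fin2 h m2 (un_p hy)
        · have h := Z2Cn (x := x) (T := T) (s := x') (k := t') (by linarith only [h0]) (by linarith only [h1]) (by linarith only [T0])
              (by linarith only [T1]) (by linarith only [h4]) (by linarith only [x1]) (by linarith only [r2, h4]) (by linarith only [t1])
              (by linarith only [hy]) (by linarith only [r1']) (by linarith only [r2]) (by linarith only [h0, h4])
          obtain ⟨m1, m2⟩ := cn_bey (40 / 100 + x') (t' - T)
          rcases h with h | h
          · exact fin2 h m1 (un_n hy)
          · exact fin2 h m2 (un_n hy)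

theorem W1 (h0 : 75 / 100 ≤ x) (h1 : x ≤ 80 / 100) (h : R1 T x' t') :
    -F3 x T < gn1 (44 / 100) x T x' t' := by
  obtain ⟨T0, T1, x0, x1, t0, t1, s1, up, dn, r1, r2, hi⟩ := h
  obtain ⟨-, -, q3⟩ := tt_mem (x := x) (by linarith only [h0]) (by linarith only [h1]) T0 T1
  obtain ⟨q1, q2⟩ := tt_mem3 (x := x) (by linarith only [h0]) (by linarith only [h1]) T0 T1
  rcases le_total x' (16 / 100) with h2 | h2
  · obtain ⟨k, k1, k2, k3⟩ := ex_k (a := 16 / 100) (lo := -(993 / 10000)) (hi := 1450 / 10000)
      (t' := t') (by linarith only [x0] : 0 < x') (by linarith only [x0, dn]) (by linarith only [up])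
    have e : 100 / 16 * k * x' = t' := by linear_combination (100 / 16) * k3
    have h := W1a (x := x) (T := T) (s := x') (k := k) (by linarith only [h0]) (by linarith only [h1]) (by linarith only [T0])
      (by linarith only [T1]) (by linarith only [x0]) (by linarith only [h2]) (by linarith only [k1]) (by linarith only [k2])
      (by rw [e]; linarith only [s1])
    rw [e] at h
    exact fin1 h le_rfl le_rfl
  · rcases le_total (x + x') (94 / 100) with h3 | h3
    · have h := W1b (x := x) (T := T) (s := x') (k := t') (by linarith only [h0]) (by linarith only [h1]) (by linarith only [T0])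
          (by linarith only [T1]) (by linarith only [h2]) (by linarith only [h0, h3]) (by linarith only [t0]) (by linarith only [t1]) (by linarith only [s1])
          (by linarith only [h3])
      exact fin1 h le_rfl le_rfl
    · rcases le_total (x + x') (106 / 100) with h4 | h4
      · have h := W1c (x := x) (T := T) (s := x + x') (k := tt T x + t') (by linarith only [h0])
          (by linarith only [h1]) (by linarith only [T0]) (by linarith only [T1]) (by linarith only [h3]) (by linarith only [h4]) (by linarith only [t0, q1])
          (by rcases q3 with q3 | q3 <;> linarith only [s1, q3, t1, q2]) (by linarith only [s1]) (by linarith only [t0]) (by linarith only [t1])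
          (by linarith only [t1, h2])
        rw [show x + x' - x = x' by ring, show tt T x + t' - tt T x = t' by ring] at h
        exact fin1 h le_rfl (anti1c kr_6_187 (by norm_num) (by norm_num) (by linarith only [])
          (by linarith only [h3]) (by linarith only [h4])
          (by rw [abs_le]; constructor <;> first | linarith only [t0, q1, t1, q2] | (rcases q3 with q3 | q3 <;> linarith)))
      · rcases le_total x' (53 / 100) with h5 | h5
        · rcases le_total 0 (tt T x + t') with hy | hy
          · have h := Y1Ap (x := x) (T := T) (s := x') (k := t') (by linarith only [h0]) (by linarith only [h1])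
                (by linarith only [T0]) (by linarith only [T1]) (by linarith only [h1, h4]) (by linarith only [h5]) (by linarith only [t0])
                (by linarith only [t1]) (by linarith only [hy]) (by linarith only [s1]) (by linarith only [r1]) (by linarith only [r2])
                (by linarith only [h4])
            exact fin1 h le_rfl (un_p hy)
          · have h := Y1An (x := x) (T := T) (s := x') (k := t') (by linarith only [h0]) (by linarith only [h1])
                (by linarith only [T0]) (by linarith only [T1]) (by linarith only [h1, h4]) (by linarith only [h5]) (by linarith only [t0])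
                (by linarith only [t1]) (by linarith only [hy]) (by linarith only [s1]) (by linarith only [r1]) (by linarith only [r2])
                (by linarith only [h4])
            exact fin1 h le_rfl (un_n hy)
        · rcases le_total x' (59 / 100) with h6 | h6
          · rcases le_total 0 (tt T x + t') with hy | hy
            · have h := Y1Bp (x := x) (T := T) (s := x') (k := t') (by linarith only [h0]) (by linarith only [h1])
                  (by linarith only [T0]) (by linarith only [T1]) (by linarith only [h5]) (by linarith only [h6]) (by linarith only [t0])
                  (by linarith only [t1]) (by linarith only [hy]) (by linarith only [s1]) (by linarith only [r1]) (by linarith only [r2])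
                  (by linarith only [h0, h5])
              obtain ⟨m1, m2⟩ := cn_mid kr_6_187 (by norm_num) (by norm_num) (by norm_num)
                (a := 44 / 100 + x') (Y := T + t') (by linarith only [h5]) (by linarith only [h6])
                (by rw [abs_le]; constructor <;> linarith only [T0, t0, s1])
              rcases h with h | h
              · exact fin1 h m1 (un_p hy)
              · exact fin1 h m2 (un_p hy)
            · have h := Y1Bn (x := x) (T := T) (s := x') (k := t') (by linarith only [h0]) (by linarith only [h1])
                  (by linarith only [T0]) (by linarith only [T1]) (by linarith only [h5]) (by linarith only [h6]) (by linarith only [t0])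
                  (by linarith only [t1]) (by linarith only [hy]) (by linarith only [s1]) (by linarith only [r1]) (by linarith only [r2])
                  (by linarith only [h0, h5])
              obtain ⟨m1, m2⟩ := cn_mid kr_6_187 (by norm_num) (by norm_num) (by norm_num)
                (a := 44 / 100 + x') (Y := T + t') (by linarith only [h5]) (by linarith only [h6])
                (by rw [abs_le]; constructor <;> linarith only [T0, t0, s1])
              rcases h with h | h
              · exact fin1 h m1 (un_n hy)
              · exact fin1 h m2 (un_n hy)
          · rcases le_or_gt x' (70 / 100) with h7 | h7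
            · rcases le_total 0 (tt T x + t') with hy | hy
              · have h := Y1Cp (x := x) (T := T) (s := x') (k := t') (by linarith only [h0]) (by linarith only [h1])
                    (by linarith only [T0]) (by linarith only [T1]) (by linarith only [h6]) (by linarith only [h7]) (by linarith only [t0])
                    (by linarith only [t1]) (by linarith only [hy]) (by linarith only [s1]) (by linarith only [r1]) (by linarith only [r2])
                    (by linarith only [h0, h6])
                obtain ⟨m1, m2⟩ := cn_bey (44 / 100 + x') (T + t')
                rcases h with h | h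
                · exact fin1 h m1 (un_p hy)
                · exact fin1 h m2 (un_p hy)
              · have h := Y1Cn (x := x) (T := T) (s := x') (k := t') (by linarith only [h0]) (by linarith only [h1])
                    (by linarith only [T0]) (by linarith only [T1]) (by linarith only [h6]) (by linarith only [h7]) (by linarith only [t0])
                    (by linarith only [t1]) (by linarith only [hy]) (by linarith only [s1]) (by linarith only [r1]) (by linarith only [r2])
                    (by linarith only [h0, h6])
                obtain ⟨m1, m2⟩ := cn_bey (44 / 100 + x') (T + t')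
                rcases h with h | h
                · exact fin1 h m1 (un_n hy)
                · exact fin1 h m2 (un_n hy)
            · obtain ⟨i1, i2, i3, i4, i5⟩ := hi h7
              rcases le_total 0 (tt T x + t') with hy | hy
              · have h := Y1Dp (x := x) (T := T) (s := x') (k := t') (by linarith only [h0]) (by linarith only [h1])
                    (by linarith only [i3]) (by linarith only [i4]) (by linarith only [h7]) (by linarith only [x1]) (by linarith only [i1])
                    (by linarith only [r1, h7, i2]) (by linarith only [hy]) (by linarith only [T1, r1, h7, i2]) (by linarith only [i2])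
                obtain ⟨m1, m2⟩ := cn_bey (44 / 100 + x') (T + t')
                rcases h with h | h
                · exact fin1 h m1 (un_p hy)
                · exact fin1 h m2 (un_p hy)
              · have h := Y1Dn (x := x) (T := T) (s := x') (k := t') (by linarith only [h0]) (by linarith only [h1])
                    (by linarith only [i3]) (by linarith only [i4]) (by linarith only [h7]) (by linarith only [x1]) (by linarith only [i1])
                    (by linarith only [r1, h7, i2]) (by linarith only [hy]) (by linarith only [T1, r1, h7, i2]) (by linarith only [i2])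
                obtain ⟨m1, m2⟩ := cn_bey (44 / 100 + x') (T + t')
                rcases h with h | h
                · exact fin1 h m1 (un_n hy)
                · exact fin1 h m2 (un_n hy)

theorem W2 (h0 : 75 / 100 ≤ x) (h1 : x ≤ 80 / 100) (h : R2 T x' t') :
    F3 x T < gn2 (44 / 100) x T x' t' := by
  obtain ⟨T0, T1, x0, x1, t0, t1, up, dn, r1, r1', r2⟩ := h
  obtain ⟨-, -, q3⟩ := tt_mem (x := x) (by linarith only [h0]) (by linarith only [h1]) T0 T1
  obtain ⟨q1, q2⟩ := tt_mem3 (x := x) (by linarith only [h0]) (by linarith only [h1]) T0 T1
  rcases le_total x' (125 / 1000) with h2 | h2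
  · obtain ⟨k, k1, k2, k3⟩ := ex_k (a := 1 / 8) (lo := -(1075 / 10000)) (hi := 960 / 10000)
      (t' := t') (by linarith only [x0] : 0 < x') (by linarith only [dn]) (by linarith only [up])
    have e : 8 * k * x' = t' := by linear_combination (8) * k3
    have h := W2a (x := x) (T := T) (s := x') (k := k) (by linarith only [h0]) (by linarith only [h1]) (by linarith only [T0])
      (by linarith only [T1]) (by linarith only [x0]) (by linarith only [h2]) (by linarith only [k1]) (by linarith only [k2])
    rw [e] at h
    exact fin2 h le_rfl le_rfl
  · rcases le_total (x + x') (94 / 100) with h3 | h3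
    · have h := W2b (x := x) (T := T) (s := x') (k := t') (by linarith only [h0]) (by linarith only [h1]) (by linarith only [T0])
          (by linarith only [T1]) (by linarith only [h2]) (by linarith only [h0, h3]) (by linarith only [t0]) (by linarith only [t1]) (by linarith only [h3])
      exact fin2 h le_rfl le_rfl
    · rcases le_total (x + x') (106 / 100) with h4 | h4
      · have h := W2c (x := x) (T := T) (s := x + x') (k := t' - tt T x) (by linarith only [h0])
          (by linarith only [h1]) (by linarith only [T0]) (by linarith only [T1]) (by linarith only [h3]) (by linarith only [h4]) (by linarith only [t0, q2])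
          (by linarith only [t1, q1]) (by linarith only [t0]) (by linarith only [t1])
        rw [show x + x' - x = x' by ring, show t' - tt T x + tt T x = t' by ring] at h
        exact fin2 h le_rfl (anti1c kr_6_2 (by norm_num) (by norm_num) (by linarith only [])
          (by linarith only [h3]) (by linarith only [h4])
          (by rw [abs_le]; constructor <;> first | linarith only [t0, q2, t1, q1] | (rcases q3 with q3 | q3 <;> linarith)))
      · rcases le_total x' (53 / 100) with h5 | h5
        · have r1 := r1 (by linarith only [h5])
          rcases le_total 0 (t' - tt T x) with hy | hy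
          · have h := Y2Ap (x := x) (T := T) (s := x') (k := t') (by linarith only [h0]) (by linarith only [h1])
                (by linarith only [T0]) (by linarith only [T1]) (by linarith only [h1, h4]) (by linarith only [h5]) (by linarith only [q1, hy])
                (by linarith only [t1]) (by linarith only [hy]) (by linarith only [r1]) (by linarith only [r2]) (by linarith only [h4])
            exact fin2 h le_rfl (un_p hy)
          · have h := Y2An (x := x) (T := T) (s := x') (k := t') (by linarith only [h0]) (by linarith only [h1])
                (by linarith only [T0]) (by linarith only [T1]) (by linarith only [h1, h4]) (by linarith only [h5]) (by linarith only [t0])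
                (by linarith only [t1]) (by linarith only [hy]) (by linarith only [r1]) (by linarith only [r2]) (by linarith only [h4])
            exact fin2 h le_rfl (un_n hy)
        · rcases le_total x' (59 / 100) with h6 | h6
          · have r1 := r1 (by linarith only [h6])
            rcases le_total 0 (t' - tt T x) with hy | hy
            · have h := Y2Bp (x := x) (T := T) (s := x') (k := t') (by linarith only [h0]) (by linarith only [h1])
                  (by linarith only [T0]) (by linarith only [T1]) (by linarith only [h5]) (by linarith only [h6]) (by linarith only [q1, hy])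
                  (by linarith only [t1]) (by linarith only [hy]) (by linarith only [r1]) (by linarith only [r2]) (by linarith only [h0, h5])
              obtain ⟨m1, m2⟩ := cn_mid kr_6_2 (by norm_num) (by norm_num) (by norm_num)
                (a := 44 / 100 + x') (Y := t' - T) (by linarith only [h5]) (by linarith only [h6])
                (by rw [abs_le]; constructor <;> linarith only [T1, q1, hy, T0, t1])
              rcases h with h | h
              · exact fin2 h m1 (un_p hy)
              · exact fin2 h m2 (un_p hy)
            · have h := Y2Bn (x := x) (T := T) (s := x') (k := t') (by linarith only [h0]) (by linarith only [h1])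
                  (by linarith only [T0]) (by linarith only [T1]) (by linarith only [h5]) (by linarith only [h6]) (by linarith only [r2, h5])
                  (by linarith only [t1]) (by linarith only [hy]) (by linarith only [r1]) (by linarith only [r2]) (by linarith only [h0, h5])
              obtain ⟨m1, m2⟩ := cn_mid kr_6_2 (by norm_num) (by norm_num) (by norm_num)
                (a := 44 / 100 + x') (Y := t' - T) (by linarith only [h5]) (by linarith only [h6])
                (by rw [abs_le]; constructor <;> linarith only [T1, r2, h5, T0, t1])
              rcases h with h | h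
              · exact fin2 h m1 (un_n hy)
              · exact fin2 h m2 (un_n hy)
          · have r1' := r1' (by linarith only [h6])
            rcases le_total 0 (t' - tt T x) with hy | hy
            · have h := Y2Cp (x := x) (T := T) (s := x') (k := t') (by linarith only [h0]) (by linarith only [h1])
                  (by linarith only [T0]) (by linarith only [T1]) (by linarith only [h6]) (by linarith only [x1]) (by linarith only [q1, hy])
                  (by linarith only [t1]) (by linarith only [hy]) (by linarith only [r1']) (by linarith only [r2]) (by linarith only [h0, h6])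
              obtain ⟨m1, m2⟩ := cn_bey (44 / 100 + x') (t' - T)
              rcases h with h | h
              · exact fin2 h m1 (un_p hy)
              · exact fin2 h m2 (un_p hy)
            · have h := Y2Cn (x := x) (T := T) (s := x') (k := t') (by linarith only [h0]) (by linarith only [h1])
                  (by linarith only [T0]) (by linarith only [T1]) (by linarith only [h6]) (by linarith only [x1]) (by linarith only [r2, h6])
                  (by linarith only [t1]) (by linarith only [hy]) (by linarith only [r1']) (by linarith only [r2]) (by linarith only [h0, h6])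
              obtain ⟨m1, m2⟩ := cn_bey (44 / 100 + x') (t' - T)
              rcases h with h | h
              · exact fin2 h m1 (un_n hy)
              · exact fin2 h m2 (un_n hy)

end C12

end Pool.Agent.Work.MP_b30479_gtS.G2

end
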