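import Pool.Agent.Work.MP_b30479_gt.TBS.VC.FStrip
import Pool.Agent.Work.MP_b30479_gt.TBS.LT.Cube

section

/-!
# Derivatives of `UU` along paths
-/

namespace Pool.Agent.Work.MP_b30479_gtS.G2

open Finset VOL Filter Topology

theorem continuousAt_Tr {ρ x : ℝ} (hρ : 0 < ρ) :
    ContinuousAt (fun p : ℝ × ℝ => DT.Tr p.1 p.2) (ρ, x) := by
  have h1 : (fun p : ℝ × ℝ => DT.Tr p.1 p.2) =
      fun p => Real.pi * p.2 - (Complex.log (1 - DT.LrDer.qq p.1 p.2)).im := by
    funext p
    rw [DT.LrDer.Tr_eq]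
  rw [h1]
  have h2 : Continuous fun p : ℝ × ℝ => 1 - DT.LrDer.qq p.1 p.2 := by
    unfold DT.LrDer.qq
    fun_prop
  have h3 := (h2.continuousAt (x := (ρ, x))).clog (DT.LrDer.one_sub_qq_mem hρ)
  exact (by fun_prop : Continuous fun p : ℝ × ℝ => Real.pi * p.2).continuousAt.sub
    (Complex.continuous_im.continuousAt.comp h3)

theorem continuousAt_el {ρ x : ℝ} (hρ : ρ ≠ 0) :
    ContinuousAt (fun p : ℝ × ℝ => DT.el p.1 p.2) (ρ, x) := by
  unfold DT.el
  have h2 : Continuous fun p : ℝ × ℝ =>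
      2 * Real.cosh (2 * Real.pi * p.1) - 2 * Real.cos (2 * Real.pi * p.2) := by
    fun_prop
  exact ((h2.continuousAt (x := (ρ, x))).log (DT.el_arg_pos hρ).ne').div_const _

/-- joint derivative of `Lr` -/
theorem hasDerivAt_Lr_comp {r X : ℝ → ℝ} {r' X' t : ℝ} (hr : HasDerivAt r r' t)
    (hX : HasDerivAt X X' t) (h0 : 0 < r t) :
    HasDerivAt (fun t => DT.Lr (r t) (X t)) (r' * DT.Tr (r t) (X t) + X' * DT.el (r t) (X t)) t := by
  have hev : ∀ᶠ v : ℝ × ℝ in 𝓝 (r t, X t), 0 < v.1 :=
    continuous_fst.continuousAt.eventually (lt_mem_nhds h0)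
  have key := hasStrictFDerivAt_uncurry_coprod (𝕜 := ℝ) (u := (r t, X t)) (f := DT.Lr)
    (f₁ := fun ρ x => ContinuousLinearMap.toSpanSingleton ℝ (DT.Tr ρ x))
    (f₂ := fun ρ x => ContinuousLinearMap.toSpanSingleton ℝ (DT.el ρ x))
    (by
      filter_upwards [hev] with v hv
      exact (DT.hasDerivAt_Lr_left hv).hasFDerivAt)
    (by
      filter_upwards [hev] with v hv
      exact (DT.hasDerivAt_Lr hv).hasFDerivAt)
    (by
      have := (ContinuousLinearMap.toSpanSingletonCLE (𝕜 := ℝ) (E := ℝ)).continuous.continuousAt.comp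
        (continuousAt_Tr (x := X t) h0)
      exact this)
    (by
      have := (ContinuousLinearMap.toSpanSingletonCLE (𝕜 := ℝ) (E := ℝ)).continuous.continuousAt.comp
        (continuousAt_el (x := X t) h0.ne')
      exact this)
  have h1 := key.hasFDerivAt.comp_hasDerivAt t (hr.prodMk hX)
  refine h1.congr_deriv ?_
  simp [ContinuousLinearMap.coprod_apply, Function.HasUncurry.uncurry]

/-- the derivative of `UU` in the horizontal direction -/
noncomputable def LL (u : ℂ) : ℝ := DT.el |u.im| u.re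

/-- the derivative of `UU` in the vertical direction -/
noncomputable def YY (u : ℂ) : ℝ :=
  if 0 < u.im then DT.Tr u.im u.re - Real.pi / 2
  else if u.im < 0 then -(DT.Tr (-u.im) u.re - Real.pi / 2) else 0

theorem LL_eq (u : ℂ) : LL u = Real.log ‖2 * Complex.sin (Real.pi * u)‖ := by
  have h1 : DT.el |u.im| u.re = DT.el u.im u.re := by
    unfold DT.el
    rcases abs_choice u.im with h | h <;> rw [h]
    rw [mul_neg, Real.cosh_neg]
  rw [LL, h1, DT.el_eq, Complex.re_add_im]

theorem LL_eq' (u : ℂ) : LL u =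
    Real.log (2 * Real.cosh (2 * Real.pi * u.im) - 2 * Real.cos (2 * Real.pi * u.re)) / 2 := by
  have h1 : DT.el |u.im| u.re = DT.el u.im u.re := by
    unfold DT.el
    rcases abs_choice u.im with h | h <;> rw [h]
    rw [mul_neg, Real.cosh_neg]
  rw [LL, h1]
  rfl

/-- derivative of `UU` along a curve, away from the real axis -/
theorem hasDerivAt_UU_im {g : ℝ → ℂ} {d : ℂ} {t : ℝ} (hg : HasDerivAt g d t) (h0 : (g t).im ≠ 0) :
    HasDerivAt (fun t => UU (g t)) (d.re * LL (g t) + d.im * YY (g t)) t := by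
  have hre : HasDerivAt (fun t => (g t).re) d.re t :=
    Complex.reCLM.hasFDerivAt.comp_hasDerivAt t hg
  have him : HasDerivAt (fun t => (g t).im) d.im t :=
    Complex.imCLM.hasFDerivAt.comp_hasDerivAt t hg
  rcases lt_or_gt_of_ne h0 with h | h
  · have h1 := hasDerivAt_Lr_comp him.fun_neg hre (by linarith : 0 < -(g t).im)
    have h2 := h1.sub ((him.fun_neg.const_mul Real.pi).div_const 2)
    have hev : (fun t => UU (g t)) =ᶠ[𝓝 t] fun t => DT.Lr (-(g t).im) (g t).re -
        Real.pi * -(g t).im / 2 := by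
      filter_upwards [him.continuousAt.eventually (gt_mem_nhds h)] with s hs
      unfold UU
      rw [abs_of_neg hs]
    refine (h2.congr_of_eventuallyEq hev).congr_deriv ?_
    unfold YY LL
    rw [if_neg (not_lt.mpr h.le), if_pos h, abs_of_neg h]
    ring
  · have h1 := hasDerivAt_Lr_comp him hre h
    have h2 := h1.sub ((him.const_mul Real.pi).div_const 2)
    have hev : (fun t => UU (g t)) =ᶠ[𝓝 t] fun t => DT.Lr (g t).im (g t).re -
        Real.pi * (g t).im / 2 := by
      filter_upwards [him.continuousAt.eventually (lt_mem_nhds h)] with s hs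
      unfold UU
      rw [abs_of_pos hs]
    refine (h2.congr_of_eventuallyEq hev).congr_deriv ?_
    unfold YY LL
    rw [if_pos h, abs_of_pos h]
    ring

theorem hasDerivAt_UU_Fh {g : ℝ → ℂ} {d : ℂ} {t : ℝ} (hg : HasDerivAt g d t) (h0 : g t ∈ strip) :
    HasDerivAt (fun t => UU (g t)) (ph (g t) * d).re t := by
  have h1 := (hasDerivAt_Fh h0).comp t hg
  have h2 : HasDerivAt (fun t => (Fh (g t)).re) (ph (g t) * d).re t :=
    Complex.reCLM.hasFDerivAt.comp_hasDerivAt t h1
  refine h2.congr_of_eventuallyEq ?_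
  filter_upwards [hg.continuousAt.eventually (strip_open.mem_nhds h0)] with s hs
  exact UU_eq_Fh hs

theorem ph_re {u : ℂ} : (ph u).re = LL u := by
  rw [LL_eq, ph, Complex.log_re]

theorem ph_im {u : ℂ} (h0 : u ∈ strip) : (ph u).im = -YY u := by
  by_cases h : u.im = 0
  · have h1 : YY u = 0 := by
      unfold YY
      rw [h]
      simp
    rw [h1, neg_zero, ph, Complex.log_im, Complex.arg_eq_zero_iff]
    have h2 : u = (u.re : ℂ) := by
      apply Complex.ext
      · simp
      · simpa using h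
    have h3 : 2 * Complex.sin (Real.pi * u) = ((2 * Real.sin (Real.pi * u.re) : ℝ) : ℂ) := by
      rw [h2]
      push_cast
      simp
    rw [h3, Complex.ofReal_re, Complex.ofReal_im]
    refine ⟨?_, rfl⟩
    have h4 : 0 < Real.sin (Real.pi * u.re) := by
      apply Real.sin_pos_of_pos_of_lt_pi
      · exact mul_pos Real.pi_pos h0.1
      · have := mul_lt_mul_of_pos_left h0.2 Real.pi_pos
        linarith
    linarith
  · have h1 : HasDerivAt (fun t : ℝ => u + t * Complex.I) Complex.I 0 := by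
      have := ((Complex.ofRealCLM.hasDerivAt (x := (0 : ℝ))).mul_const Complex.I).const_add u
      simpa using this
    have e0 : u + ((0 : ℝ) : ℂ) * Complex.I = u := by simp
    have h2 := hasDerivAt_UU_im h1 (by rw [e0]; exact h)
    have h3 := hasDerivAt_UU_Fh h1 (by rw [e0]; exact h0)
    have h4 := h2.unique h3
    rw [e0] at h4
    simp only [Complex.I_re, Complex.I_im, Complex.mul_re, zero_mul, one_mul, zero_add, mul_zero,
      mul_one, zero_sub] at h4
    linarith

/-- **Derivative of `UU` along a curve**, off the real points outside `(0, 1)`. -/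
theorem hasDerivAt_UU {g : ℝ → ℂ} {d : ℂ} {t : ℝ} (hg : HasDerivAt g d t)
    (h0 : (g t).im ≠ 0 ∨ g t ∈ strip) :
    HasDerivAt (fun t => UU (g t)) (d.re * LL (g t) + d.im * YY (g t)) t := by
  rcases h0 with h0 | h0
  · exact hasDerivAt_UU_im hg h0
  · refine (hasDerivAt_UU_Fh hg h0).congr_deriv ?_
    rw [Complex.mul_re, ph_re, ph_im h0]
    ring

/-- **Derivative of `UU` in horizontal direction**, off the integers. -/
theorem hasDerivAt_UU_level (u : ℂ) (a x : ℝ) (h0 : Complex.sin (Real.pi * (u + (a * x : ℝ))) ≠ 0) :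
    HasDerivAt (fun x : ℝ => UU (u + (a * x : ℝ))) (a * LL (u + (a * x : ℝ))) x := by
  by_cases h : u.im = 0
  · have e1 : (fun x : ℝ => UU (u + (a * x : ℝ))) = fun x => DT.Lr 0 (u.re + a * x) := by
      funext x
      unfold UU
      rw [Complex.add_im, Complex.ofReal_im, h, Complex.add_re, Complex.ofReal_re]
      simp
    have h1 : Real.sin (Real.pi * (u.re + a * x)) ≠ 0 := by
      intro hc
      apply h0
      have h2 : u = (u.re : ℂ) := by
        apply Complex.ext
        · simp
        · simpa using h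
      rw [h2, ← Complex.ofReal_add, ← Complex.ofReal_mul, ← Complex.ofReal_sin, hc]
      simp
    have h2 := (DT.hasDerivAt_Lr_zero h1).comp x
      (((hasDerivAt_id x).const_mul a).const_add u.re)
    rw [e1]
    refine h2.congr_deriv ?_
    unfold LL
    rw [Complex.add_im, Complex.ofReal_im, h, Complex.add_re, Complex.ofReal_re]
    simp [mul_comm]
  · have h1 : HasDerivAt (fun x : ℝ => u + (a * x : ℝ)) (a : ℂ) x := by
      have := ((hasDerivAt_id x).const_mul a).ofReal_comp.const_add u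
      simpa using this
    have h2 := hasDerivAt_UU_im h1 (by
      rw [Complex.add_im, Complex.ofReal_im, add_zero]
      exact h)
    refine h2.congr_deriv ?_
    simp

/-- the second derivative of `UU` in the horizontal direction, the real part of `π cot (π u)` -/
noncomputable def CC (u : ℂ) : ℝ :=
  Real.pi * (Real.sin (2 * Real.pi * u.re) /
    (Real.cosh (2 * Real.pi * u.im) - Real.cos (2 * Real.pi * u.re)))

theorem hasDerivAt_LL_level (u : ℂ) (a x : ℝ) (h0 : Complex.sin (Real.pi * (u + (a * x : ℝ))) ≠ 0) :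
    HasDerivAt (fun x : ℝ => LL (u + (a * x : ℝ))) (a * CC (u + (a * x : ℝ))) x := by
  have e1 : (fun x : ℝ => LL (u + (a * x : ℝ))) = fun x => DT.el |u.im| (u.re + a * x) := by
    funext x
    unfold LL
    rw [Complex.add_im, Complex.ofReal_im, add_zero, Complex.add_re, Complex.ofReal_re]
  have e2 : CC (u + (a * x : ℝ)) = Real.pi * (Real.sin (2 * Real.pi * (u.re + a * x)) /
      (Real.cosh (2 * Real.pi * |u.im|) - Real.cos (2 * Real.pi * (u.re + a * x)))) := by
    unfold CC
    rw [Complex.add_im, Complex.ofReal_im, add_zero, Complex.add_re, Complex.ofReal_re]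
    rcases abs_choice u.im with h | h <;> rw [h]
    rw [mul_neg, Real.cosh_neg]
  rw [e1, e2]
  have hx := ((hasDerivAt_id x).const_mul a).const_add u.re
  by_cases h : u.im = 0
  · have h1 : Real.sin (Real.pi * (u.re + a * x)) ≠ 0 := by
      intro hc
      apply h0
      have h2 : u = (u.re : ℂ) := by
        apply Complex.ext
        · simp
        · simpa using h
      rw [h2, ← Complex.ofReal_add, ← Complex.ofReal_mul, ← Complex.ofReal_sin, hc]
      simp
    rw [h, abs_zero]
    have h2 := (DT.hasDerivAt_el_zero h1).comp x hx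
    refine h2.congr_deriv ?_
    have h3 : Real.sin (2 * Real.pi * (u.re + a * x)) = 2 * Real.sin (Real.pi * (u.re + a * x)) *
        Real.cos (Real.pi * (u.re + a * x)) := by
      rw [mul_assoc 2 Real.pi, Real.sin_two_mul]
    have h4 : Real.cos (2 * Real.pi * (u.re + a * x)) =
        1 - 2 * Real.sin (Real.pi * (u.re + a * x)) ^ 2 := by
      rw [mul_assoc 2 Real.pi, Real.cos_two_mul, Real.cos_sq']
      ring
    rw [h3, h4, mul_zero, Real.cosh_zero]
    field_simp
    ring
  · have h2 := (DT.hasDerivAt_el (v := u.re + a * x) (abs_pos.mpr h)).comp x hx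
    refine h2.congr_deriv ?_
    simp only [DT.rr]
    ring

end Pool.Agent.Work.MP_b30479_gtS.G2

end

section

/-!
# Derivatives of the growth rate `S.V` along real and complex directions; concavity
-/

namespace Pool.Agent.Work.MP_b30479_gtS.G2

open Finset VOL Filter Topology

variable {D Z K : Type} [Fintype D] [Fintype Z] [Fintype K] [DecidableEq D]

/-- the linear part of the form `k` -/
noncomputable def Dat.aff (S : Dat D Z K) (k : K) (X : D ⊕ Z → ℂ) : ℂ := ∑ i, S.A k i * X i

/-- the derivative of the polynomial part of `S.T` at `z` in direction `X` -/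
noncomputable def Dat.dqv (S : Dat D Z K) (z X : D ⊕ Z → ℂ) : ℂ :=
  ∑ i, ∑ j, S.q i j * (X i * z j + z i * X j) + ∑ i, S.r i * X i +
    ∑ v, 2 * Real.pi * Complex.I * (S.b v * z (.inr v) + 1) * X (.inr v)

/-- the point `z + x X` -/
noncomputable def zx (z X : D ⊕ Z → ℂ) (x : ℝ) : D ⊕ Z → ℂ := fun i => z i + x * X i

/-- the derivative of `S.V` in direction `X` -/
noncomputable def Dat.DV (S : Dat D Z K) (z X : D ⊕ Z → ℂ) : ℝ :=
  (S.dqv z X).re + ∑ k, ((S.aff k X).re * LL (S.form k z) + (S.aff k X).im * YY (S.form k z))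

omit [Fintype K] [DecidableEq D] in
theorem form_zx (S : Dat D Z K) (k : K) (z X : D ⊕ Z → ℂ) (x : ℝ) :
    S.form k (zx z X x) = S.form k z + x * S.aff k X := by
  unfold Dat.form Dat.aff zx
  simp only [mul_add, sum_add_distrib, mul_sum]
  have : ∀ i, (S.A k i : ℂ) * (x * X i) = x * (S.A k i * X i) := fun i => by ring
  simp only [this]
  ring

omit [Fintype K] [DecidableEq D] in
theorem hasDerivAt_form (S : Dat D Z K) (k : K) (z X : D ⊕ Z → ℂ) (x : ℝ) :
    HasDerivAt (fun x : ℝ => S.form k (zx z X x)) (S.aff k X) x := by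
  simp only [form_zx]
  have := ((Complex.ofRealCLM.hasDerivAt (x := x)).mul_const (S.aff k X)).const_add (S.form k z)
  simpa using this

/-- the polynomial part of the potential -/
noncomputable def Dat.pol (S : Dat D Z K) (z : D ⊕ Z → ℂ) : ℂ :=
  S.quad z + ∑ v, (Real.pi * Complex.I * S.b v * z (.inr v) ^ 2 + 2 * Real.pi * Complex.I * z (.inr v))

omit [Fintype K] [DecidableEq D] in
theorem hasDerivAt_pol (S : Dat D Z K) (z X : D ⊕ Z → ℂ) (x : ℝ) :
    HasDerivAt (fun x : ℝ => S.pol (zx z X x)) (S.dqv (zx z X x) X) x := by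
  have hz : ∀ i, HasDerivAt (fun x : ℝ => zx z X x i) (X i) x := by
    intro i
    unfold zx
    have := ((Complex.ofRealCLM.hasDerivAt (x := x)).mul_const (X i)).const_add (z i)
    simpa using this
  unfold Dat.pol Dat.quad Dat.dqv
  refine HasDerivAt.add (HasDerivAt.add ?_ ?_) ?_
  · apply HasDerivAt.fun_sum
    intro i _
    apply HasDerivAt.fun_sum
    intro j _
    have h1 := ((hz i).const_mul (S.q i j)).mul (hz j)
    refine h1.congr_deriv ?_
    ring
  · apply HasDerivAt.fun_sum
    intro i _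
    exact (hz i).const_mul (S.r i)
  · apply HasDerivAt.fun_sum
    intro v _
    have h1 := (((hz (.inr v)).fun_pow 2).const_mul (Real.pi * Complex.I * S.b v)).add
      ((hz (.inr v)).const_mul (2 * Real.pi * Complex.I))
    refine h1.congr_deriv ?_
    simp only [Nat.cast_ofNat, Nat.add_one_sub_one, pow_one]
    ring

/-- **Derivative of `S.V` in a complex direction.** -/
theorem hasDerivAt_V (S : Dat D Z K) (z X : D ⊕ Z → ℂ) (x : ℝ)
    (h : ∀ k, S.aff k X ≠ 0 → (S.form k (zx z X x)).im ≠ 0 ∨ S.form k (zx z X x) ∈ strip) :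
    HasDerivAt (fun x : ℝ => S.V (zx z X x)) (S.DV (zx z X x) X) x := by
  have e1 : (fun x : ℝ => S.V (zx z X x)) = fun x => (S.pol (zx z X x)).re +
      ∑ k, UU (S.form k (zx z X x)) := rfl
  rw [e1]
  unfold Dat.DV
  refine HasDerivAt.add ?_ ?_
  · exact Complex.reCLM.hasFDerivAt.comp_hasDerivAt x (hasDerivAt_pol S z X x)
  · apply HasDerivAt.fun_sum
    intro k _
    by_cases hk : S.aff k X = 0
    · have e2 : (fun x : ℝ => UU (S.form k (zx z X x))) = fun _ => UU (S.form k z) := by
        funext y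
        rw [form_zx, hk, mul_zero, add_zero]
      rw [e2, hk]
      simpa using hasDerivAt_const x (UU (S.form k z))
    · exact hasDerivAt_UU (hasDerivAt_form S k z X x) (h k hk)

/-! ### real directions -/

/-- the linear part, real directions -/
noncomputable def Dat.affR (S : Dat D Z K) (k : K) (X : D ⊕ Z → ℝ) : ℝ := ∑ i, S.A k i * X i

omit [Fintype K] [DecidableEq D] in
theorem aff_real (S : Dat D Z K) (k : K) (X : D ⊕ Z → ℝ) :
    S.aff k (fun i => (X i : ℂ)) = (S.affR k X : ℂ) := by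
  unfold Dat.aff Dat.affR
  push_cast
  rfl

/-- the derivative of `S.V` in a real direction -/
noncomputable def Dat.DR (S : Dat D Z K) (z : D ⊕ Z → ℂ) (X : D ⊕ Z → ℝ) : ℝ :=
  (S.dqv z fun i => (X i : ℂ)).re + ∑ k, S.affR k X * LL (S.form k z)

/-- the second derivative of `S.V` in a real direction -/
noncomputable def Dat.DDR (S : Dat D Z K) (z : D ⊕ Z → ℂ) (X : D ⊕ Z → ℝ) : ℝ :=
  (2 * ∑ i, ∑ j, S.q i j * X i * X j + ∑ v, 2 * Real.pi * Complex.I * S.b v *
    (X (.inr v) : ℂ) ^ 2).re + ∑ k, S.affR k X ^ 2 * CC (S.form k z)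

/-- the point `z + x X`, `X` real -/
noncomputable def zr (z : D ⊕ Z → ℂ) (X : D ⊕ Z → ℝ) (x : ℝ) : D ⊕ Z → ℂ :=
  fun i => z i + ((x * X i : ℝ) : ℂ)

omit [Fintype D] [Fintype Z] [DecidableEq D] in
theorem zr_eq (z : D ⊕ Z → ℂ) (X : D ⊕ Z → ℝ) (x : ℝ) : zr z X x = zx z (fun i => (X i : ℂ)) x := by
  funext i
  unfold zr zx
  push_cast
  rfl

omit [Fintype K] [DecidableEq D] in
theorem form_zr (S : Dat D Z K) (k : K) (z : D ⊕ Z → ℂ) (X : D ⊕ Z → ℝ) (x : ℝ) :
    S.form k (zr z X x) = S.form k z + (S.affR k X * x : ℝ) := by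
  rw [zr_eq, form_zx, aff_real]
  push_cast
  ring

/-- **Derivative of `S.V` in a real direction.** -/
theorem hasDerivAt_VR (S : Dat D Z K) (z : D ⊕ Z → ℂ) (X : D ⊕ Z → ℝ) (x : ℝ)
    (h : ∀ k, S.affR k X ≠ 0 → Complex.sin (Real.pi * S.form k (zr z X x)) ≠ 0) :
    HasDerivAt (fun x : ℝ => S.V (zr z X x)) (S.DR (zr z X x) X) x := by
  have e1 : (fun x : ℝ => S.V (zr z X x)) = fun x => (S.pol (zr z X x)).re +
      ∑ k, UU (S.form k (zr z X x)) := rfl
  rw [e1]
  unfold Dat.DR
  refine HasDerivAt.add ?_ ?_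
  · have h1 := Complex.reCLM.hasFDerivAt.comp_hasDerivAt x
      (hasDerivAt_pol S z (fun i => (X i : ℂ)) x)
    rw [← zr_eq] at h1
    refine h1.congr_of_eventuallyEq (Eventually.of_forall fun y => ?_)
    simp only [Function.comp_def, ← zr_eq]
    rfl
  · apply HasDerivAt.fun_sum
    intro k _
    by_cases hk : S.affR k X = 0
    · have e2 : (fun x : ℝ => UU (S.form k (zr z X x))) = fun _ => UU (S.form k z) := by
        funext y
        rw [form_zr, hk, zero_mul, Complex.ofReal_zero, add_zero]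
      rw [e2, hk]
      simpa using hasDerivAt_const x (UU (S.form k z))
    · have h1 := h k hk
      rw [form_zr] at h1
      have h2 := hasDerivAt_UU_level (S.form k z) (S.affR k X) x h1
      simp only [form_zr]
      exact h2

omit [Fintype K] [DecidableEq D] in
theorem hasDerivAt_dq (S : Dat D Z K) (z : D ⊕ Z → ℂ) (X : D ⊕ Z → ℝ) (x : ℝ) :
    HasDerivAt (fun x : ℝ => S.dqv (zr z X x) fun i => (X i : ℂ))
      (2 * ∑ i, ∑ j, S.q i j * X i * X j + ∑ v, 2 * Real.pi * Complex.I * S.b v *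
        (X (.inr v) : ℂ) ^ 2) x := by
  have hz : ∀ i, HasDerivAt (fun x : ℝ => zr z X x i) (X i : ℂ) x := by
    intro i
    unfold zr
    have := ((hasDerivAt_id x).mul_const (X i)).ofReal_comp.const_add (z i)
    simpa using this
  unfold Dat.dqv
  refine HasDerivAt.add ?_ ?_
  · have h1 : HasDerivAt (fun x : ℝ => ∑ i, ∑ j, S.q i j * ((X i : ℂ) * zr z X x j +
        zr z X x i * (X j : ℂ))) (∑ i, ∑ j, 2 * (S.q i j * X i * X j)) x := by
      apply HasDerivAt.fun_sum
      intro i _
      apply HasDerivAt.fun_sum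
      intro j _
      have h2 := (((hz j).const_mul (X i : ℂ)).add ((hz i).mul_const (X j : ℂ))).const_mul (S.q i j)
      refine h2.congr_deriv ?_
      ring
    have h3 := h1.add_const (∑ i, S.r i * (X i : ℂ))
    refine h3.congr_deriv ?_
    simp only [mul_sum]
  · apply HasDerivAt.fun_sum
    intro v _
    have h2 := ((((hz (.inr v)).const_mul (S.b v : ℂ)).add_const 1).const_mul
      (2 * Real.pi * Complex.I)).mul_const (X (.inr v) : ℂ)
    refine h2.congr_deriv ?_
    ring

/-- **Second derivative of `S.V` in a real direction.** -/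
theorem hasDerivAt_DR (S : Dat D Z K) (z : D ⊕ Z → ℂ) (X : D ⊕ Z → ℝ) (x : ℝ)
    (h : ∀ k, S.affR k X ≠ 0 → Complex.sin (Real.pi * S.form k (zr z X x)) ≠ 0) :
    HasDerivAt (fun x : ℝ => S.DR (zr z X x) X) (S.DDR (zr z X x) X) x := by
  unfold Dat.DR Dat.DDR
  refine HasDerivAt.add ?_ ?_
  · exact Complex.reCLM.hasFDerivAt.comp_hasDerivAt x (hasDerivAt_dq S z X x)
  · apply HasDerivAt.fun_sum
    intro k _
    by_cases hk : S.affR k X = 0
    · rw [hk]
      simpa using hasDerivAt_const x (0 : ℝ)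
    · have h1 := h k hk
      rw [form_zr] at h1
      have h2 := (hasDerivAt_LL_level (S.form k z) (S.affR k X) x h1).const_mul (S.affR k X)
      simp only [form_zr]
      refine h2.congr_deriv ?_
      ring

omit [DecidableEq D] in
/-- the real derivative is the real part of the derivative of the potential -/
theorem DR_eq (S : Dat D Z K) (z : D ⊕ Z → ℂ) (X : D ⊕ Z → ℝ) :
    S.DR z X = (∑ i, (X i : ℂ) * S.dT z i).re := by
  have h1 : ∑ i, (X i : ℂ) * S.dT z i = (S.dqv z fun i => (X i : ℂ)) +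
      ∑ k, (S.affR k X : ℂ) * ph (S.form k z) := by
    unfold Dat.dT Dat.dqv Dat.affR
    simp only [mul_add, sum_add_distrib]
    have a1 : ∑ i, (X i : ℂ) * ∑ k, (S.A k i : ℂ) * ph (S.form k z) =
        ∑ k, ((∑ i, (S.A k i : ℝ) * X i : ℝ) : ℂ) * ph (S.form k z) := by
      simp only [mul_sum]
      rw [sum_comm]
      apply sum_congr rfl
      intro k _
      push_cast
      rw [sum_mul]
      apply sum_congr rfl
      intro i _
      ring
    have a2 : ∑ i, (X i : ℂ) * Sum.elim (fun _ => 0) (fun v => 2 * Real.pi * Complex.I *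
        (S.b v * z (.inr v) + 1)) i = ∑ v, 2 * Real.pi * Complex.I * (S.b v * z (.inr v) + 1) *
        (X (.inr v) : ℂ) := by
      rw [Fintype.sum_sum_type]
      simp only [Sum.elim_inl, mul_zero, sum_const_zero, zero_add, Sum.elim_inr]
      apply sum_congr rfl
      intro v _
      ring
    have a3 : ∑ i, (X i : ℂ) * ∑ j, (S.q i j + S.q j i) * z j =
        ∑ i, ∑ j, S.q i j * ((X i : ℂ) * z j) + ∑ i, ∑ j, S.q i j * (z i * (X j : ℂ)) := by
      simp only [mul_sum]
      have b1 : ∀ i j, (X i : ℂ) * ((S.q i j + S.q j i) * z j) =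
          S.q i j * ((X i : ℂ) * z j) + S.q j i * (z j * (X i : ℂ)) := fun i j => by ring
      simp only [b1, sum_add_distrib]
      congr 1
      exact sum_comm
    rw [a1, a3]
    simp only [mul_add] at a2 ⊢
    rw [a2]
    have a4 : ∑ i, (X i : ℂ) * S.r i = ∑ i, S.r i * (X i : ℂ) := sum_congr rfl fun i _ => mul_comm _ _
    rw [a4]
  rw [h1, Complex.add_re, Complex.re_sum]
  unfold Dat.DR
  congr 1
  apply sum_congr rfl
  intro k _
  rw [Complex.re_ofReal_mul, ph_re]

/-- **Concavity on a segment.** -/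
theorem V_lt_of_concave (S : Dat D Z K) {z : D ⊕ Z → ℂ} {X : D ⊕ Z → ℝ}
    (h0 : ∀ x ∈ Set.Icc (0 : ℝ) 1, ∀ k, S.affR k X ≠ 0 →
      Complex.sin (Real.pi * S.form k (zr z X x)) ≠ 0)
    (h2 : ∀ x ∈ Set.Ioo (0 : ℝ) 1, S.DDR (zr z X x) X < 0) (h1 : S.DR z X ≤ 0) :
    S.V (zr z X 1) < S.V z := by
  have z0 : zr z X 0 = z := by
    funext i
    simp [zr]
  have hg : ∀ x ∈ Set.Icc (0 : ℝ) 1, HasDerivAt (fun x => S.V (zr z X x)) (S.DR (zr z X x) X) x :=
    fun x hx => hasDerivAt_VR S z X x (h0 x hx)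
  have hg' : ∀ x ∈ Set.Icc (0 : ℝ) 1, HasDerivAt (fun x => S.DR (zr z X x) X)
      (S.DDR (zr z X x) X) x := fun x hx => hasDerivAt_DR S z X x (h0 x hx)
  have hanti : StrictAntiOn (fun x => S.DR (zr z X x) X) (Set.Icc 0 1) := by
    apply strictAntiOn_of_deriv_neg (convex_Icc 0 1)
    · exact fun x hx => (hg' x hx).continuousAt.continuousWithinAt
    · intro x hx
      rw [interior_Icc] at hx
      rw [(hg' x (Set.Ioo_subset_Icc_self hx)).deriv]
      exact h2 x hx
  have hneg : ∀ x ∈ Set.Ioc (0 : ℝ) 1, S.DR (zr z X x) X < 0 := by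
    intro x hx
    have h3 := hanti (Set.left_mem_Icc.mpr zero_le_one) ⟨hx.1.le, hx.2⟩ hx.1
    simp only [z0] at h3
    linarith
  have hV : StrictAntiOn (fun x => S.V (zr z X x)) (Set.Icc 0 1) := by
    apply strictAntiOn_of_deriv_neg (convex_Icc 0 1)
    · exact fun x hx => (hg x hx).continuousAt.continuousWithinAt
    · intro x hx
      rw [interior_Icc] at hx
      rw [(hg x (Set.Ioo_subset_Icc_self hx)).deriv]
      exact hneg x ⟨hx.1, hx.2.le⟩
  have h4 := hV (Set.left_mem_Icc.mpr zero_le_one) (Set.right_mem_Icc.mpr zero_le_one) zero_lt_one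
  simp only [z0] at h4
  exact h4

end Pool.Agent.Work.MP_b30479_gtS.G2

end

section

/-!
# Second derivatives along curves
-/

namespace Pool.Agent.Work.MP_b30479_gtS.G2

open Finset VOL Filter Topology

/-- minus the imaginary part of `π cot (π u)` -/
noncomputable def SS (u : ℂ) : ℝ :=
  Real.pi * (Real.sinh (2 * Real.pi * u.im) /
    (Real.cosh (2 * Real.pi * u.im) - Real.cos (2 * Real.pi * u.re)))

theorem norm_two_sin_sq (u : ℂ) : ‖2 * Complex.sin (Real.pi * u)‖ ^ 2 =
    2 * Real.cosh (2 * Real.pi * u.im) - 2 * Real.cos (2 * Real.pi * u.re) := by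
  have := DT.norm_two_sin u.im u.re
  rwa [Complex.re_add_im] at this

theorem cosh_sub_cos_pos {u : ℂ} (h : Complex.sin (Real.pi * u) ≠ 0) :
    0 < Real.cosh (2 * Real.pi * u.im) - Real.cos (2 * Real.pi * u.re) := by
  have h1 := norm_two_sin_sq u
  have h2 : 0 < ‖2 * Complex.sin (Real.pi * u)‖ ^ 2 := by
    have : ‖2 * Complex.sin (Real.pi * u)‖ ≠ 0 := norm_ne_zero_iff.mpr (mul_ne_zero two_ne_zero h)
    positivity
  linarith only [h1, h2]

theorem sin_ne_of_im {u : ℂ} (h : u.im ≠ 0) : Complex.sin (Real.pi * u) ≠ 0 := by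
  intro hc
  have h1 := norm_two_sin_sq u
  rw [hc] at h1
  have h2 := DT.el_arg_pos (v := u.re) h
  simp only [mul_zero, norm_zero] at h1
  linarith only [h2, h1]

theorem sin_ne_of_strip {u : ℂ} (h : u ∈ strip) : Complex.sin (Real.pi * u) ≠ 0 := by
  by_cases h0 : u.im = 0
  · have h2 : u = (u.re : ℂ) := by
      apply Complex.ext
      · simp
      · simpa using h0
    have h3 : 0 < Real.sin (Real.pi * u.re) := by
      apply Real.sin_pos_of_pos_of_lt_pi
      · exact mul_pos Real.pi_pos h.1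
      · have := mul_lt_mul_of_pos_left h.2 Real.pi_pos
        linarith only [this]
    rw [h2, ← Complex.ofReal_mul, ← Complex.ofReal_sin]
    exact_mod_cast h3.ne'
  · exact sin_ne_of_im h0

/-- derivative of `LL` along a curve -/
theorem hasDerivAt_LL {g : ℝ → ℂ} {d : ℂ} {t : ℝ} (hg : HasDerivAt g d t)
    (h0 : Complex.sin (Real.pi * g t) ≠ 0) :
    HasDerivAt (fun t => LL (g t)) (d.re * CC (g t) + d.im * SS (g t)) t := by
  have hre : HasDerivAt (fun t => (g t).re) d.re t :=
    Complex.reCLM.hasFDerivAt.comp_hasDerivAt t hg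
  have him : HasDerivAt (fun t => (g t).im) d.im t :=
    Complex.imCLM.hasFDerivAt.comp_hasDerivAt t hg
  have hp := cosh_sub_cos_pos h0
  have e1 : (fun t => LL (g t)) = fun t =>
      Real.log (2 * Real.cosh (2 * Real.pi * (g t).im) - 2 * Real.cos (2 * Real.pi * (g t).re)) / 2 := by
    funext t
    rw [LL_eq']
  rw [e1]
  have h1 := (((him.const_mul (2 * Real.pi)).cosh.const_mul 2).fun_sub
    ((hre.const_mul (2 * Real.pi)).cos.const_mul 2)).log (by linarith only [hp]) |>.div_const 2
  refine h1.congr_deriv ?_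
  unfold CC SS
  have hne : Real.cosh (2 * Real.pi * (g t).im) - Real.cos (2 * Real.pi * (g t).re) ≠ 0 := hp.ne'
  have hne2 : 2 * Real.cosh (2 * Real.pi * (g t).im) - 2 * Real.cos (2 * Real.pi * (g t).re) ≠ 0 := by
    linarith only [hp]
  rw [show 2 * Real.cosh (2 * Real.pi * (g t).im) - 2 * Real.cos (2 * Real.pi * (g t).re) =
    2 * (Real.cosh (2 * Real.pi * (g t).im) - Real.cos (2 * Real.pi * (g t).re)) by ring]
  field_simp
  ring

/-- derivative of the height derivative of `Lr` along a curve -/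
theorem hasDerivAt_Tr_comp {r X : ℝ → ℝ} {r' X' t : ℝ} (hr : HasDerivAt r r' t)
    (hX : HasDerivAt X X' t) (h0 : 0 < r t) :
    HasDerivAt (fun t => DT.Tr (r t) (X t)) (r' * (-(Real.pi * DT.rr (r t) (X t))) +
      X' * (Real.pi * Real.sinh (2 * Real.pi * r t) /
      (Real.cosh (2 * Real.pi * r t) - Real.cos (2 * Real.pi * X t)))) t := by
  have hev : ∀ᶠ v : ℝ × ℝ in 𝓝 (r t, X t), 0 < v.1 :=
    continuous_fst.continuousAt.eventually (lt_mem_nhds h0)
  have hd : ∀ v : ℝ × ℝ, 0 < v.1 → Real.cosh (2 * Real.pi * v.1) - Real.cos (2 * Real.pi * v.2) ≠ 0 := by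
    intro v hv
    have := DT.el_arg_pos (v := v.2) hv.ne'
    intro hc
    linarith only [this, hc]
  have c1 : ContinuousAt (fun v : ℝ × ℝ => -(Real.pi * DT.rr v.1 v.2)) (r t, X t) := by
    unfold DT.rr
    apply ContinuousAt.neg
    apply ContinuousAt.mul continuousAt_const
    apply ContinuousAt.div
    · fun_prop
    · fun_prop
    · exact hd _ h0
  have c2 : ContinuousAt (fun v : ℝ × ℝ => Real.pi * Real.sinh (2 * Real.pi * v.1) /
      (Real.cosh (2 * Real.pi * v.1) - Real.cos (2 * Real.pi * v.2))) (r t, X t) := by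
    apply ContinuousAt.div
    · fun_prop
    · fun_prop
    · exact hd _ h0
  have key := hasStrictFDerivAt_uncurry_coprod (𝕜 := ℝ) (u := (r t, X t)) (f := DT.Tr)
    (f₁ := fun ρ x => ContinuousLinearMap.toSpanSingleton ℝ (-(Real.pi * DT.rr ρ x)))
    (f₂ := fun ρ x => ContinuousLinearMap.toSpanSingleton ℝ (Real.pi * Real.sinh (2 * Real.pi * ρ) /
      (Real.cosh (2 * Real.pi * ρ) - Real.cos (2 * Real.pi * x))))
    (by
      filter_upwards [hev] with v hv
      exact (DT.hasDerivAt_Tr_left hv).hasFDerivAt)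
    (by
      filter_upwards [hev] with v hv
      exact (DT.hasDerivAt_Tr_right hv).hasFDerivAt)
    (by
      have := (ContinuousLinearMap.toSpanSingletonCLE (𝕜 := ℝ) (E := ℝ)).continuous.continuousAt.comp c1
      exact this)
    (by
      have := (ContinuousLinearMap.toSpanSingletonCLE (𝕜 := ℝ) (E := ℝ)).continuous.continuousAt.comp c2
      exact this)
  have h1 := key.hasFDerivAt.comp_hasDerivAt t (hr.prodMk hX)
  refine h1.congr_deriv ?_
  simp [ContinuousLinearMap.coprod_apply, Function.HasUncurry.uncurry]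

/-- derivative of `YY` along a curve, away from the real axis -/
theorem hasDerivAt_YY_im {g : ℝ → ℂ} {d : ℂ} {t : ℝ} (hg : HasDerivAt g d t) (h0 : (g t).im ≠ 0) :
    HasDerivAt (fun t => YY (g t)) (d.re * SS (g t) - d.im * CC (g t)) t := by
  have hre : HasDerivAt (fun t => (g t).re) d.re t :=
    Complex.reCLM.hasFDerivAt.comp_hasDerivAt t hg
  have him : HasDerivAt (fun t => (g t).im) d.im t :=
    Complex.imCLM.hasFDerivAt.comp_hasDerivAt t hg
  rcases lt_or_gt_of_ne h0 with h | h
  · have h1 := hasDerivAt_Tr_comp him.fun_neg hre (by linarith only [h] : 0 < -(g t).im)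
    have h2 := (h1.sub_const (Real.pi / 2)).fun_neg
    have hev : (fun t => YY (g t)) =ᶠ[𝓝 t] fun t => -(DT.Tr (-(g t).im) (g t).re - Real.pi / 2) := by
      filter_upwards [him.continuousAt.eventually (gt_mem_nhds h)] with s hs
      unfold YY
      rw [if_neg (not_lt.mpr (le_of_lt hs)), if_pos hs]
    refine (h2.congr_of_eventuallyEq hev).congr_deriv ?_
    unfold SS CC DT.rr
    have e : 2 * Real.pi * -(g t).im = -(2 * Real.pi * (g t).im) := by ring
    rw [e, Real.sinh_neg, Real.cosh_neg]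
    ring
  · have h1 := hasDerivAt_Tr_comp him hre h
    have h2 := h1.sub_const (Real.pi / 2)
    have hev : (fun t => YY (g t)) =ᶠ[𝓝 t] fun t => DT.Tr (g t).im (g t).re - Real.pi / 2 := by
      filter_upwards [him.continuousAt.eventually (lt_mem_nhds h)] with s hs
      unfold YY
      rw [if_pos hs]
    refine (h2.congr_of_eventuallyEq hev).congr_deriv ?_
    unfold SS CC DT.rr
    ring

/-- `π cot (π u) = CC u - i SS u` -/
theorem ph'_eq {u : ℂ} (h : Complex.sin (Real.pi * u) ≠ 0) : ph' u = CC u - SS u * Complex.I := by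
  have hp := cosh_sub_cos_pos h
  set a := Real.pi * u.re with ha
  set b := Real.pi * u.im with hb
  have eu : (Real.pi : ℂ) * u = (a : ℂ) + (b : ℂ) * Complex.I := by
    rw [ha, hb]
    push_cast
    conv_lhs => rw [← Complex.re_add_im u]
    ring
  have es : Complex.sin (Real.pi * u) = ((Real.sin a * Real.cosh b : ℝ) : ℂ) +
      ((Real.cos a * Real.sinh b : ℝ) : ℂ) * Complex.I := by
    rw [eu, Complex.sin_add_mul_I]
    push_cast
    ring
  have ec : Complex.cos (Real.pi * u) = ((Real.cos a * Real.cosh b : ℝ) : ℂ) -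
      ((Real.sin a * Real.sinh b : ℝ) : ℂ) * Complex.I := by
    rw [eu, Complex.cos_add_mul_I]
    push_cast
    ring
  have e2a : Real.sin (2 * Real.pi * u.re) = 2 * Real.sin a * Real.cos a := by
    rw [mul_assoc 2 Real.pi, Real.sin_two_mul]
  have e2b : Real.sinh (2 * Real.pi * u.im) = 2 * Real.sinh b * Real.cosh b := by
    rw [mul_assoc 2 Real.pi, Real.sinh_two_mul]
  have e2c : Real.cosh (2 * Real.pi * u.im) = Real.cosh b ^ 2 + Real.sinh b ^ 2 := by
    rw [mul_assoc 2 Real.pi, Real.cosh_two_mul]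
  have e2d : Real.cos (2 * Real.pi * u.re) = 2 * Real.cos a ^ 2 - 1 := by
    rw [mul_assoc 2 Real.pi, Real.cos_two_mul]
  have h1 := Real.sin_sq_add_cos_sq a
  have h2 := Real.cosh_sq b
  have hq : ((Real.cosh (2 * Real.pi * u.im) - Real.cos (2 * Real.pi * u.re) : ℝ) : ℂ) ≠ 0 := by
    exact_mod_cast hp.ne'
  unfold ph' CC SS
  rw [div_eq_iff h, es, ec]
  have h3 : ((Real.pi * (Real.sin (2 * Real.pi * u.re) /
      (Real.cosh (2 * Real.pi * u.im) - Real.cos (2 * Real.pi * u.re))) : ℝ) : ℂ) -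
      ((Real.pi * (Real.sinh (2 * Real.pi * u.im) /
      (Real.cosh (2 * Real.pi * u.im) - Real.cos (2 * Real.pi * u.re))) : ℝ) : ℂ) * Complex.I =
      (Real.pi * ((Real.sin (2 * Real.pi * u.re) : ℝ) - (Real.sinh (2 * Real.pi * u.im) : ℝ) *
        Complex.I)) / ((Real.cosh (2 * Real.pi * u.im) - Real.cos (2 * Real.pi * u.re) : ℝ) : ℂ) := by
    push_cast
    ring
  rw [h3, div_mul_eq_mul_div, eq_div_iff hq]
  rw [e2a, e2b, e2c, e2d]
  push_cast
  have h1' : (Real.sin a : ℂ) ^ 2 + (Real.cos a : ℂ) ^ 2 = 1 := by exact_mod_cast h1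
  have h2' : (Real.cosh b : ℂ) ^ 2 = (Real.sinh b : ℂ) ^ 2 + 1 := by exact_mod_cast h2
  push_cast at h1' h2'
  have hI := Complex.I_sq
  generalize Complex.sin (a : ℂ) = S at *
  generalize Complex.cos (a : ℂ) = C at *
  generalize Complex.sinh (b : ℂ) = s at *
  generalize Complex.cosh (b : ℂ) = c at *
  linear_combination (Real.pi : ℂ) * ((C * c + S * s * Complex.I) * h2' - 2 * C * c * h1' +
    2 * s ^ 2 * c * C * hI)

/-- derivative of `YY` along a curve -/
theorem hasDerivAt_YY {g : ℝ → ℂ} {d : ℂ} {t : ℝ} (hg : HasDerivAt g d t)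
    (h0 : (g t).im ≠ 0 ∨ g t ∈ strip) :
    HasDerivAt (fun t => YY (g t)) (d.re * SS (g t) - d.im * CC (g t)) t := by
  rcases h0 with h0 | h0
  · exact hasDerivAt_YY_im hg h0
  · have h1 := (hasDerivAt_ph h0).comp t hg
    have h2 : HasDerivAt (fun t => (ph (g t)).im) (ph' (g t) * d).im t :=
      Complex.imCLM.hasFDerivAt.comp_hasDerivAt t h1
    have h3 : HasDerivAt (fun t => -(ph (g t)).im) (-(ph' (g t) * d).im) t := h2.fun_neg
    have hev : (fun t => YY (g t)) =ᶠ[𝓝 t] fun t => -(ph (g t)).im := by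
      filter_upwards [hg.continuousAt.eventually (strip_open.mem_nhds h0)] with s hs
      rw [ph_im hs, neg_neg]
    refine (h3.congr_of_eventuallyEq hev).congr_deriv ?_
    rw [ph'_eq (sin_ne_of_strip h0)]
    simp only [Complex.mul_im, Complex.sub_re, Complex.sub_im, Complex.ofReal_re, Complex.ofReal_im,
      Complex.mul_re, Complex.I_re, Complex.I_im]
    ring

theorem hasDerivAt_LL' {g : ℝ → ℂ} {d : ℂ} {t : ℝ} (hg : HasDerivAt g d t)
    (h0 : (g t).im ≠ 0 ∨ g t ∈ strip) :
    HasDerivAt (fun t => LL (g t)) (d.re * CC (g t) + d.im * SS (g t)) t :=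
  hasDerivAt_LL hg (h0.elim sin_ne_of_im sin_ne_of_strip)

variable {D Z K : Type} [Fintype D] [Fintype Z] [Fintype K]

/-- the bilinear form of second derivatives: `Re (∂_X ∂_Y T)` -/
noncomputable def Dat.HH (S : Dat D Z K) (z X Y : D ⊕ Z → ℂ) : ℝ :=
  (∑ i, ∑ j, S.q i j * (X i * Y j + Y i * X j) + ∑ v, 2 * Real.pi * Complex.I * S.b v *
    Y (.inr v) * X (.inr v)).re +
    ∑ k, ((S.aff k X * S.aff k Y).re * CC (S.form k z) + (S.aff k X * S.aff k Y).im * SS (S.form k z))

omit [Fintype K] in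
/-- derivative of the form along a curve -/
theorem hasDerivAt_form_curve (S : Dat D Z K) (k : K) {z : ℝ → D ⊕ Z → ℂ} {Y : D ⊕ Z → ℂ} {t : ℝ}
    (hz : ∀ i, HasDerivAt (fun t => z t i) (Y i) t) :
    HasDerivAt (fun t => S.form k (z t)) (S.aff k Y) t := by
  unfold Dat.form Dat.aff
  apply HasDerivAt.const_add
  apply HasDerivAt.fun_sum
  intro i _
  exact (hz i).const_mul _

/-- **The derivative of `S.DV z X` along a curve.** -/
theorem hasDerivAt_DV (S : Dat D Z K) {z : ℝ → D ⊕ Z → ℂ} {X Y : D ⊕ Z → ℂ} {t : ℝ}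
    (hz : ∀ i, HasDerivAt (fun t => z t i) (Y i) t)
    (h1 : ∀ k, (S.aff k X).re ≠ 0 → Complex.sin (Real.pi * S.form k (z t)) ≠ 0)
    (h2 : ∀ k, (S.aff k X).im ≠ 0 → (S.form k (z t)).im ≠ 0 ∨ S.form k (z t) ∈ strip) :
    HasDerivAt (fun t => S.DV (z t) X) (S.HH (z t) X Y) t := by
  unfold Dat.DV Dat.HH
  refine HasDerivAt.add ?_ ?_
  · have hA : HasDerivAt (fun t => S.dqv (z t) X) (∑ i, ∑ j, S.q i j *
        (X i * Y j + Y i * X j) + ∑ v, 2 * Real.pi * Complex.I * S.b v * Y (.inr v) * X (.inr v))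
        t := by
      unfold Dat.dqv
      refine HasDerivAt.add ?_ ?_
      · have h3 : HasDerivAt (fun t => ∑ i, ∑ j, S.q i j * (X i * z t j + z t i * X j))
            (∑ i, ∑ j, S.q i j * (X i * Y j + Y i * X j)) t := by
          apply HasDerivAt.fun_sum
          intro i _
          apply HasDerivAt.fun_sum
          intro j _
          exact (((hz j).const_mul (X i)).add ((hz i).mul_const (X j))).const_mul (S.q i j)
        exact h3.add_const _
      · apply HasDerivAt.fun_sum
        intro v _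
        have h4 := ((((hz (.inr v)).const_mul (S.b v : ℂ)).add_const 1).const_mul
          (2 * Real.pi * Complex.I)).mul_const (X (.inr v))
        refine h4.congr_deriv ?_
        ring
    exact Complex.reCLM.hasFDerivAt.comp_hasDerivAt t hA
  · apply HasDerivAt.fun_sum
    intro k _
    have hf := hasDerivAt_form_curve S k hz
    have a1 : HasDerivAt (fun t => (S.aff k X).re * LL (S.form k (z t)))
        ((S.aff k X).re * ((S.aff k Y).re * CC (S.form k (z t)) +
          (S.aff k Y).im * SS (S.form k (z t)))) t := by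
      by_cases hk : (S.aff k X).re = 0
      · rw [hk]
        simpa using hasDerivAt_const t (0 : ℝ)
      · exact (hasDerivAt_LL hf (h1 k hk)).const_mul _
    have a2 : HasDerivAt (fun t => (S.aff k X).im * YY (S.form k (z t)))
        ((S.aff k X).im * ((S.aff k Y).re * SS (S.form k (z t)) -
          (S.aff k Y).im * CC (S.form k (z t)))) t := by
      by_cases hk : (S.aff k X).im = 0
      · rw [hk]
        simpa using hasDerivAt_const t (0 : ℝ)
      · exact (hasDerivAt_YY hf (h2 k hk)).const_mul _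
    refine (a1.add a2).congr_deriv ?_
    rw [Complex.mul_re, Complex.mul_im]
    ring

end Pool.Agent.Work.MP_b30479_gtS.G2

end
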