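import Pool.Agent.Work.MP_b30479_gt.TBS.G2.Rng
import Pool.Agent.Work.MP_b30479_gt.TBS.G2.Num.Fn
import Pool.Agent.Work.MP_b30479_gt.TBS.NumI.LnAff
import Pool.Agent.Work.MP_b30479_gt.TBS.G2.Num.RF

section

/-!
# Sides of hinges as expressions of the numerics engine
-/

set_option deprecated.oldSectionVars true

namespace Pool.Agent.Work.MP_b30479_gtS.G2

open VOL NumIs

namespace MR

/-! ### real forms -/

/-- `S1` as a real expression -/
noncomputable def s1 (m x t x' t' : ℝ) : ℝ :=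
  Real.pi * t' + lnA (x + x') (t + t') - lnA x t +
    m * (Real.pi * (x' - 1) - lnB (x + x') (t + t') + lnB x t)

/-- `S2` as a real expression -/
noncomputable def s2 (m x t x' t' : ℝ) : ℝ :=
  Real.pi * (t' - t) + lnA (x + x') (t + t') - 2 * lnA x t +
    m * (Real.pi * (x' - x - 1 / 2) - lnB (x + x') (t + t') + 2 * lnB x t)

/-- `S2` with the partner `0` -/
noncomputable def s2e (m x t : ℝ) : ℝ :=
  -(Real.pi * t) - lnA x t + m * (-(Real.pi * (x + 1 / 2)) + lnB x t)

theorem S1_eq {w v : ℂ} (m : ℝ) (hw : w ∈ strip) (hu : w + v ∈ strip) :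
    S1 1 m w v = s1 m w.re w.im v.re v.im := by
  unfold S1 s1
  rw [Num.LL_lnA hw, Num.LL_lnA hu, Num.YY_lnB hw, Num.YY_lnB hu, Complex.add_re, Complex.add_im]
  ring

theorem S2_eq {w v : ℂ} (m : ℝ) (hw : w ∈ strip) (hu : w + v ∈ strip) :
    S2 1 m w v = s2 m w.re w.im v.re v.im := by
  unfold S2 s2
  rw [Num.LL_lnA hw, Num.LL_lnA hu, Num.YY_lnB hw, Num.YY_lnB hu, Complex.add_re, Complex.add_im]
  ring

theorem S2_zero_eq {w : ℂ} (m : ℝ) (hw : w ∈ strip) : S2 1 m w 0 = s2e m w.re w.im := by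
  unfold S2 s2e
  rw [add_zero, Num.LL_lnA hw, Num.YY_lnB hw]
  simp only [Complex.zero_re, Complex.zero_im]
  ring

/-! ### bounds near the right end of the strip -/

theorem lnB_abs (x t : ℝ) : |lnB x t| ≤ Real.pi / 2 := by
  unfold lnB
  rw [abs_le]
  exact ⟨(Real.neg_pi_div_two_lt_arctan _).le, (Real.arctan_lt_pi_div_two _).le⟩

theorem YY_it {t : ℝ} (ht : 0 < t) : YY ((t : ℂ) * Complex.I) = -(Real.pi / 2) := by
  have h1 : 0 < ((t : ℂ) * Complex.I).im := by simpa using ht
  rw [YY_pos h1]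
  have e1 : ((t : ℂ) * Complex.I).im = t := by simp
  have e2 : ((t : ℂ) * Complex.I).re = 0 := by simp
  rw [e1, e2]
  unfold DT.Tr
  have e3 : 2 * Real.pi * Complex.I * (((0 : ℝ) : ℂ) + t * Complex.I) = ((-(2 * Real.pi * t) : ℝ) : ℂ) := by
    push_cast
    linear_combination (2 * Real.pi * t : ℂ) * Complex.I_mul_I
  rw [e3, ← Complex.ofReal_exp]
  have e4 : (1 : ℂ) - ((Real.exp (-(2 * Real.pi * t)) : ℝ) : ℂ) =
      ((1 - Real.exp (-(2 * Real.pi * t)) : ℝ) : ℂ) := by push_cast; ring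
  rw [e4, Complex.arg_ofReal_of_nonneg]
  · ring
  · have : Real.exp (-(2 * Real.pi * t)) ≤ 1 := by
      rw [Real.exp_le_one_iff]
      have := Real.pi_pos
      nlinarith only [ht, this]
    linarith only [this]

theorem YY_le_of_pos {u : ℂ} (h0 : 0 ≤ u.re) (h1 : u.re ≤ 1) (ht : 0 < u.im) :
    |YY u| ≤ Real.pi / 2 := by
  have hp := Real.pi_pos
  rcases h0.eq_or_lt with h0 | h0
  · have e : u = ((u.im : ℝ) : ℂ) * Complex.I := by
      apply Complex.ext <;> simp [← h0]
    rw [e, YY_it ht, abs_neg, abs_of_pos (by positivity)]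
  · rcases h1.eq_or_lt with h1 | h1
    · have e : u = ((u.im : ℝ) : ℂ) * Complex.I + 1 := by
        apply Complex.ext <;> simp [h1]
      have h2 : 0 < (((u.im : ℝ) : ℂ) * Complex.I).im := by simpa using ht
      rw [e, YY_add_one, if_pos h2, YY_it ht, abs_of_pos (by linarith only [hp])]
      linarith only []
    · rw [Num.YY_lnB ⟨h0, h1⟩, abs_neg]
      exact lnB_abs _ _

/-- `|YY u| ≤ π / 2` in the closed strip -/
theorem YY_abs_le {u : ℂ} (h0 : 0 ≤ u.re) (h1 : u.re ≤ 1) : |YY u| ≤ Real.pi / 2 := by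
  have hp := Real.pi_pos
  rcases lt_trichotomy u.im 0 with h | h | h
  · have h2 := YY_le_of_pos (u := starRingEnd ℂ u) (by simpa using h0) (by simpa using h1)
      (by simpa using h)
    rwa [YY_conj, abs_neg] at h2
  · rw [YY_zero h, abs_zero]
    positivity
  · exact YY_le_of_pos h0 h1 h

theorem LL_le_log {u : ℂ} {K : ℝ} (h1 : 1 ≤ K)
    (hK : 2 * Real.cosh (2 * Real.pi * u.im) - 2 * Real.cos (2 * Real.pi * u.re) ≤ K) :
    LL u ≤ Real.log K / 2 := by
  rw [LL_eq']
  set a := 2 * Real.cosh (2 * Real.pi * u.im) - 2 * Real.cos (2 * Real.pi * u.re) with ha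
  have h0 : 0 ≤ a := by
    have := Real.one_le_cosh (2 * Real.pi * u.im)
    have := Real.cos_le_one (2 * Real.pi * u.re)
    linarith
  rcases h0.eq_or_lt with h0 | h0
  · rw [← h0, Real.log_zero]
    have := Real.log_nonneg h1
    linarith only [this]
  · have := Real.log_le_log h0 hK
    linarith only [this]

theorem cos_ge {x a : ℝ} (h0 : 1 - a ≤ x) (h1 : x ≤ 1) (ha : a ≤ 1 / 2) :
    Real.cos (Real.pi * (2 * a)) ≤ Real.cos (2 * Real.pi * x) := by
  have hp := Real.pi_pos
  have e : Real.cos (2 * Real.pi * x) = Real.cos (2 * Real.pi * (1 - x)) := by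
    rw [← Real.cos_two_pi_sub]
    congr 1
    ring
  rw [e]
  apply Real.cos_le_cos_of_nonneg_of_le_pi
  · have : 0 ≤ 1 - x := by linarith only [h1]
    positivity
  · nlinarith only [ha, hp]
  · nlinarith only [h0, hp]

theorem cosh_le_of {t r : ℝ} (h : |t| ≤ r) : Real.cosh (2 * Real.pi * t) ≤
    Real.cosh (Real.pi * (2 * r)) := by
  have hp := Real.pi_pos
  rw [Real.cosh_le_cosh, abs_mul, abs_mul, abs_mul, abs_of_pos hp, abs_mul]
  have h0 := abs_nonneg t
  have e1 : |(2 : ℝ)| = 2 := abs_of_pos two_pos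
  have e2 : |r| = r := abs_of_nonneg (h0.trans h)
  rw [e1, e2]
  nlinarith only [h, hp]

section
open E

theorem cornerK : 2 * Real.cosh (Real.pi * (2 * (137 / 1000))) - 2 * Real.cos (Real.pi * (2 * (15 / 100)))
    < Real.exp (48 / 100) := by
  have h : chk [sub (exp (q 48 100)) (sub (mul (q 2 1) (cosh (mul pi (q 274 1000))))
      (mul (q 2 1) (cosPi (q 3 10))))] 1 [V.of 1 0 0] = true := by decide +kernel
  have hp := pos_of_chk (chk1 h (by norm_num) (x := 0) (by norm_num) (by norm_num))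
  simp only [val] at hp
  norm_num at hp ⊢
  linarith only [hp]

end

theorem LL_corner {u : ℂ} (h0 : 85 / 100 ≤ u.re) (h1 : u.re ≤ 1) (ht : |u.im| ≤ 137 / 1000) :
    LL u ≤ 24 / 100 := by
  have h2 := cos_ge (x := u.re) (a := 15 / 100) (by linarith only [h0]) h1 (by norm_num)
  have h3 := cosh_le_of ht
  have h4 := LL_le_log (u := u) (K := Real.exp (48 / 100)) (Real.one_le_exp (by norm_num))
    (by linarith only [h2, h3, cornerK])
  rw [Real.log_exp] at h4
  linarith only [h4]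

/-- the right ramp -/
theorem RH_right {w : ℂ} {T XM cl cr : ℝ} (h : RH w T XM cl cr) (hc : 0 < cl) (hc' : 0 < cr)
    (hb : cl + cr < XM) (hx : XM - cr ≤ w.re) : w.im = T * ((XM - w.re) / cr) := by
  rw [h.im, tr_c hc hc' hb hx h.reM]

theorem RH_left {w : ℂ} {T XM cl cr : ℝ} (h : RH w T XM cl cr) (hc : 0 < cl) (hc' : 0 < cr)
    (hb : cl + cr < XM) (hx : w.re ≤ cl) : w.im = T * (w.re / cl) := by
  rw [h.im, tr_a hc hc' hb h.re0 hx]

theorem RH_flat {w : ℂ} {T XM cl cr : ℝ} (h : RH w T XM cl cr) (hc : 0 < cl) (hc' : 0 < cr)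
    (h1 : cl ≤ w.re) (hx : w.re ≤ XM - cr) : w.im = T := by
  rw [h.im, tr_b hc hc' h1 hx, mul_one]

/-- the heights of the partner of a hinge of a region with two crossings are in `[a, b]` -/
theorem RH_im_mem {w : ℂ} {T XM cl cr a b : ℝ} (h : RH w T XM cl cr) (ha : a ≤ 0) (hb : 0 ≤ b)
    (h1 : a ≤ T) (h2 : T ≤ b) : a ≤ w.im ∧ w.im ≤ b := by
  have h3 : 0 ≤ tr 0 XM cl cr w.re := le_max_left _ _
  have h4 : tr 0 XM cl cr w.re ≤ 1 := max_le zero_le_one (min_le_left _ _)
  rw [h.im]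
  constructor <;> nlinarith only [ha, h4, h1, h3, hb, h2]

/-! ### expressions -/

section
open E

/-- expression for `s1` -/
def e1 (m x t x' t' : E) : E :=
  add (sub (add (mul pi t') (lnA (add x x') (add t t'))) (lnA x t))
    (mul m (add (sub (mul pi (sub x' (q 1 1))) (lnB (add x x') (add t t'))) (lnB x t)))

/-- expression for `s2` -/
def e2 (m x t x' t' : E) : E :=
  add (sub (add (mul pi (sub t' t)) (lnA (add x x') (add t t'))) (mul (q 2 1) (lnA x t)))
    (mul m (add (sub (mul pi (sub (sub x' x) (q 1 2))) (lnB (add x x') (add t t'))) (mul (q 2 1) (lnB x t))))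

/-- expression for `s2e` -/
def e2e (m x t : E) : E :=
  add (sub (neg (mul pi t)) (lnA x t)) (mul m (sub (lnB x t) (mul pi (add x (q 1 2)))))

theorem e1_val (m x t x' t' : E) (xs : List ℝ) : (e1 m x t x' t').val xs =
    s1 (m.val xs) (x.val xs) (t.val xs) (x'.val xs) (t'.val xs) := by
  simp only [e1, val, s1]
  push_cast
  ring

theorem e2_val (m x t x' t' : E) (xs : List ℝ) : (e2 m x t x' t').val xs =
    s2 (m.val xs) (x.val xs) (t.val xs) (x'.val xs) (t'.val xs) := by
  simp only [e2, val, s2]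
  push_cast
  ring

theorem e2e_val (m x t : E) (xs : List ℝ) : (e2e m x t).val xs =
    s2e (m.val xs) (x.val xs) (t.val xs) := by
  simp only [e2e, val, s2e]
  push_cast
  ring

end

end MR

end Pool.Agent.Work.MP_b30479_gtS.G2

end

section

/-!
# Sides of hinges near and beyond `Re u = 1`
-/

set_option deprecated.oldSectionVars true

namespace Pool.Agent.Work.MP_b30479_gtS.G2

open VOL NumIs

namespace MR

/-! ### a rectangle around `1` on which `LL ≤ c` -/

/-- the condition for the rectangle `|Re u - 1| ≤ s0`, `|Im u| ≤ y0` -/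
def Kr (s0 y0 c : ℝ) : Prop :=
  2 * Real.cosh (Real.pi * (2 * y0)) - 2 * Real.cos (Real.pi * (2 * s0)) ≤ Real.exp (2 * c)

section
open E

theorem kr_12_14 : Kr (12 / 100) (14 / 100) (16 / 100) := by
  have h : chk [sub (exp (q 32 100)) (sub (mul (q 2 1) (cosh (mul pi (q 28 100))))
      (mul (q 2 1) (cosPi (q 24 100))))] 1 [V.of 1 0 0] = true := by decide +kernel
  have hp := pos_of_chk (chk1 h (by norm_num) (x := 0) (by norm_num) (by norm_num))
  unfold Kr
  simp only [val] at hp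
  norm_num at hp ⊢
  linarith only [hp]

theorem kr_9_14 : Kr (9 / 100) (14 / 100) (7 / 100) := by
  have h : chk [sub (exp (q 14 100)) (sub (mul (q 2 1) (cosh (mul pi (q 28 100))))
      (mul (q 2 1) (cosPi (q 18 100))))] 1 [V.of 1 0 0] = true := by decide +kernel
  have hp := pos_of_chk (chk1 h (by norm_num) (x := 0) (by norm_num) (by norm_num))
  unfold Kr
  simp only [val] at hp
  norm_num at hp ⊢
  linarith only [hp]

theorem kr_9_175 : Kr (9 / 100) (175 / 1000) (25 / 100) := by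
  have h : chk [sub (exp (q 50 100)) (sub (mul (q 2 1) (cosh (mul pi (q 350 1000))))
      (mul (q 2 1) (cosPi (q 18 100))))] 1 [V.of 1 0 0] = true := by decide +kernel
  have hp := pos_of_chk (chk1 h (by norm_num) (x := 0) (by norm_num) (by norm_num))
  unfold Kr
  simp only [val] at hp
  norm_num at hp ⊢
  linarith only [hp]

theorem kr_6_14 : Kr (6 / 100) (14 / 100) 0 := by
  have h : chk [sub (q 1 1) (sub (mul (q 2 1) (cosh (mul pi (q 28 100))))
      (mul (q 2 1) (cosPi (q 12 100))))] 1 [V.of 1 0 0] = true := by decide +kernel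
  have hp := pos_of_chk (chk1 h (by norm_num) (x := 0) (by norm_num) (by norm_num))
  unfold Kr
  simp only [val] at hp
  rw [mul_zero, Real.exp_zero]
  norm_num at hp ⊢
  linarith only [hp]

end

theorem LL_rect {s0 y0 c : ℝ} (K : Kr s0 y0 c) (hc : 0 ≤ c) (h1 : s0 ≤ 1 / 2) {u : ℂ}
    (h : |u.re - 1| ≤ s0) (hy : |u.im| ≤ y0) : LL u ≤ c := by
  have hp := Real.pi_pos
  have h3 := cosh_le_of hy
  have h5 : Real.cos (Real.pi * (2 * s0)) ≤ Real.cos (2 * Real.pi * u.re) := by
    have e : Real.cos (2 * Real.pi * u.re) = Real.cos (2 * Real.pi * |u.re - 1|) := by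
      rw [← Real.cos_sub_two_pi, ← Real.cos_abs, ← abs_of_pos (by positivity : 0 < 2 * Real.pi),
        ← abs_mul, abs_of_pos (by positivity : 0 < 2 * Real.pi)]
      congr 2
      ring
    rw [e]
    apply Real.cos_le_cos_of_nonneg_of_le_pi
    · positivity
    · nlinarith only [h1, hp]
    · nlinarith only [h, hp]
  have h4 := LL_le_log (u := u) (K := Real.exp (2 * c)) (Real.one_le_exp (by linarith only [hc])) (by
    unfold Kr at K
    linarith only [K, h3, h5])
  rw [Real.log_exp] at h4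
  linarith only [h4]

theorem YY_abs_pi {u : ℂ} (h0 : 0 ≤ u.re) (h1 : u.re ≤ 3 / 2) : |YY u| ≤ Real.pi := by
  have hp := Real.pi_pos
  rcases le_total u.re 1 with h2 | h2
  · exact (YY_abs_le h0 h2).trans (by linarith only [hp])
  · have e := YY_add_one (u - 1)
    rw [sub_add_cancel] at e
    have r1 : (u - 1).re = u.re - 1 := by simp
    have r2 : (u - 1).im = u.im := by simp
    rcases lt_trichotomy u.im 0 with h | h | h
    · rw [YY_neg (u := u - 1) (by rw [r2]; exact h), if_neg (by rw [r2]; exact not_lt.2 h.le),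
        if_pos (by rw [r2]; exact h)] at e
      have k1 := Tr_le_half (s := -(u - 1).im) (x := (u - 1).re) (by rw [r2]; linarith only [h])
        (by rw [r1]; linarith only [h1])
      have k2 := pi_mul_le_Tr (s := -(u - 1).im) (x := (u - 1).re) (by rw [r1]; linarith only [h2])
        (by rw [r1]; linarith only [h1]) (by rw [r2]; linarith only [h])
      have k3 : 0 ≤ Real.pi * (u - 1).re := mul_nonneg hp.le (by rw [r1]; linarith only [h2])
      rw [e, abs_le]
      constructor <;> linarith only [k1, hp, k2, k3]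
    · rw [YY_zero h, abs_zero]
      exact hp.le
    · rw [YY_pos (u := u - 1) (by rw [r2]; exact h), if_pos (by rw [r2]; exact h)] at e
      have k1 := Tr_le_half (s := (u - 1).im) (x := (u - 1).re) (by rw [r2]; linarith only [h])
        (by rw [r1]; linarith only [h1])
      have k2 := pi_mul_le_Tr (s := (u - 1).im) (x := (u - 1).re) (by rw [r1]; linarith only [h2])
        (by rw [r1]; linarith only [h1]) (by rw [r2]; linarith only [h])
      have k3 : 0 ≤ Real.pi * (u - 1).re := mul_nonneg hp.le (by rw [r1]; linarith only [h2])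
      rw [e, abs_le]
      constructor <;> linarith only [hp, k2, k3, k1]

theorem mul_YY_le {m s h : ℝ} {u : ℂ} (hs : m * s = |m|) (hY : |YY u| ≤ h * Real.pi) :
    m * YY u ≤ m * (s * h * Real.pi) := by
  rw [mul_assoc, ← mul_assoc, hs]
  refine (le_abs_self _).trans ?_
  rw [abs_mul]
  exact mul_le_mul_of_nonneg_left hY (abs_nonneg m)

/-- beyond `1` -/
theorem mul_YY_beyond {m s : ℝ} {u : ℂ} (hs : m * s = |m|) (h1 : 1 < u.re) (h2 : u.re < 2) :
    m * YY u ≤ m * (s * Real.pi - lnB (u.re - 1) u.im) := by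
  have hp := Real.pi_pos
  have e := YY_add_one (u - 1)
  rw [sub_add_cancel] at e
  have r1 : (u - 1).re = u.re - 1 := by simp
  have r2 : (u - 1).im = u.im := by simp
  have h3 : YY (u - 1) = -lnB (u.re - 1) u.im := by
    rw [Num.YY_lnB ⟨by rw [r1]; linarith only [h1], by rw [r1]; linarith only [h2]⟩, r1, r2]
  rw [e, h3, mul_add, mul_sub]
  have h4 : m * (if 0 < (u - 1).im then Real.pi else if (u - 1).im < 0 then -Real.pi else 0) ≤
      m * (s * Real.pi) := by
    rw [← mul_assoc, hs]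
    refine (le_abs_self _).trans ?_
    rw [abs_mul]
    apply mul_le_mul_of_nonneg_left _ (abs_nonneg m)
    split_ifs
    · exact (abs_of_pos hp).le
    · rw [abs_neg]; exact (abs_of_pos hp).le
    · rw [abs_zero]; exact hp.le
  linarith only [h4]

theorem LL_beyond {u : ℂ} (h1 : 1 < u.re) (h2 : u.re < 2) : LL u = lnA (u.re - 1) u.im := by
  have e := LL_add_one (u - 1)
  rw [sub_add_cancel] at e
  have r1 : (u - 1).re = u.re - 1 := by simp
  have r2 : (u - 1).im = u.im := by simp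
  rw [e, Num.LL_lnA ⟨by rw [r1]; linarith only [h1], by rw [r1]; linarith only [h2]⟩, r1, r2]

/-! ### upper bounds of the sides -/

/-- `S1` with `LL u ≤ c`, `YY u` replaced by `r π` -/
noncomputable def n1 (c r m x t x' t' : ℝ) : ℝ :=
  Real.pi * t' + c - lnA x t + m * (Real.pi * (x' - 1) + r * Real.pi + lnB x t)

/-- `S2` with `LL u ≤ c`, `YY u` replaced by `r π` -/
noncomputable def n2 (c r m x t x' t' : ℝ) : ℝ :=
  Real.pi * (t' - t) + c - 2 * lnA x t +
    m * (Real.pi * (x' - x - 1 / 2) + r * Real.pi + 2 * lnB x t)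

/-- `S1` beyond `1` -/
noncomputable def b1 (s m x t x' t' : ℝ) : ℝ :=
  Real.pi * t' + lnA (x + x' - 1) (t + t') - lnA x t +
    m * (Real.pi * (x' - 1) + (s * Real.pi - lnB (x + x' - 1) (t + t')) + lnB x t)

/-- `S2` beyond `1` -/
noncomputable def b2 (s m x t x' t' : ℝ) : ℝ :=
  Real.pi * (t' - t) + lnA (x + x' - 1) (t + t') - 2 * lnA x t +
    m * (Real.pi * (x' - x - 1 / 2) + (s * Real.pi - lnB (x + x' - 1) (t + t')) + 2 * lnB x t)

theorem S1_near {w v : ℂ} {m s c h : ℝ} (hs : m * s = |m|) (hw0 : 0 < w.re) (hw : w.re < 1)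
    (hL : LL (w + v) ≤ c) (hY : |YY (w + v)| ≤ h * Real.pi) :
    S1 1 m w v ≤ n1 c (s * h) m w.re w.im v.re v.im := by
  have h4 := mul_YY_le hs hY
  unfold S1 n1
  rw [Num.LL_lnA ⟨hw0, hw⟩, Num.YY_lnB ⟨hw0, hw⟩]
  linarith only [hL, h4]

theorem S2_near {w v : ℂ} {m s c h : ℝ} (hs : m * s = |m|) (hw0 : 0 < w.re) (hw : w.re < 1)
    (hL : LL (w + v) ≤ c) (hY : |YY (w + v)| ≤ h * Real.pi) :
    S2 1 m w v ≤ n2 c (s * h) m w.re w.im v.re v.im := by
  have h4 := mul_YY_le hs hY
  unfold S2 n2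
  rw [Num.LL_lnA ⟨hw0, hw⟩, Num.YY_lnB ⟨hw0, hw⟩]
  linarith only [hL, h4]

theorem S1_beyond {w v : ℂ} {m s : ℝ} (hs : m * s = |m|) (hw0 : 0 < w.re) (hw : w.re < 1)
    (h1 : 1 < w.re + v.re) (h2 : w.re + v.re < 2) :
    S1 1 m w v ≤ b1 s m w.re w.im v.re v.im := by
  have h4 := mul_YY_beyond (u := w + v) hs (by simpa using h1) (by simpa using h2)
  have h5 := LL_beyond (u := w + v) (by simpa using h1) (by simpa using h2)
  unfold S1 b1
  rw [Num.LL_lnA ⟨hw0, hw⟩, Num.YY_lnB ⟨hw0, hw⟩, h5]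
  simp only [Complex.add_re, Complex.add_im] at h4 ⊢
  linarith only [h4]

theorem S2_beyond {w v : ℂ} {m s : ℝ} (hs : m * s = |m|) (hw0 : 0 < w.re) (hw : w.re < 1)
    (h1 : 1 < w.re + v.re) (h2 : w.re + v.re < 2) :
    S2 1 m w v ≤ b2 s m w.re w.im v.re v.im := by
  have h4 := mul_YY_beyond (u := w + v) hs (by simpa using h1) (by simpa using h2)
  have h5 := LL_beyond (u := w + v) (by simpa using h1) (by simpa using h2)
  unfold S2 b2
  rw [Num.LL_lnA ⟨hw0, hw⟩, Num.YY_lnB ⟨hw0, hw⟩, h5]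
  simp only [Complex.add_re, Complex.add_im] at h4 ⊢
  linarith only [h4]

/-! ### expressions -/

section
open E

def en1 (c r m x t x' t' : E) : E :=
  add (sub (add (mul pi t') c) (lnA x t))
    (mul m (add (add (mul pi (sub x' (q 1 1))) (mul r pi)) (lnB x t)))

def en2 (c r m x t x' t' : E) : E :=
  add (sub (add (mul pi (sub t' t)) c) (mul (q 2 1) (lnA x t)))
    (mul m (add (add (mul pi (sub (sub x' x) (q 1 2))) (mul r pi)) (mul (q 2 1) (lnB x t))))

def eb1 (s m x t x' t' : E) : E :=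
  add (sub (add (mul pi t') (lnA (sub (add x x') (q 1 1)) (add t t'))) (lnA x t))
    (mul m (add (add (mul pi (sub x' (q 1 1)))
      (sub (mul s pi) (lnB (sub (add x x') (q 1 1)) (add t t')))) (lnB x t)))

def eb2 (s m x t x' t' : E) : E :=
  add (sub (add (mul pi (sub t' t)) (lnA (sub (add x x') (q 1 1)) (add t t')))
      (mul (q 2 1) (lnA x t)))
    (mul m (add (add (mul pi (sub (sub x' x) (q 1 2)))
      (sub (mul s pi) (lnB (sub (add x x') (q 1 1)) (add t t')))) (mul (q 2 1) (lnB x t))))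

theorem en1_val (c r m x t x' t' : E) (xs : List ℝ) : (en1 c r m x t x' t').val xs =
    n1 (c.val xs) (r.val xs) (m.val xs) (x.val xs) (t.val xs) (x'.val xs) (t'.val xs) := by
  simp only [en1, val, n1]
  push_cast
  ring_nf

theorem en2_val (c r m x t x' t' : E) (xs : List ℝ) : (en2 c r m x t x' t').val xs =
    n2 (c.val xs) (r.val xs) (m.val xs) (x.val xs) (t.val xs) (x'.val xs) (t'.val xs) := by
  simp only [en2, val, n2]
  push_cast
  ring_nf

theorem eb1_val (s m x t x' t' : E) (xs : List ℝ) : (eb1 s m x t x' t').val xs =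
    b1 (s.val xs) (m.val xs) (x.val xs) (t.val xs) (x'.val xs) (t'.val xs) := by
  simp only [eb1, val, b1]
  push_cast
  ring

theorem eb2_val (s m x t x' t' : E) (xs : List ℝ) : (eb2 s m x t x' t').val xs =
    b2 (s.val xs) (m.val xs) (x.val xs) (t.val xs) (x'.val xs) (t'.val xs) := by
  simp only [eb2, val, b2]
  push_cast
  ring

end

end MR

end Pool.Agent.Work.MP_b30479_gtS.G2

end

section

/-!
# `UU` decreases in the real part near `0` and `1`
-/

set_option deprecated.oldSectionVars true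

namespace Pool.Agent.Work.MP_b30479_gtS.G2

open VOL NumUs

namespace UA

section
open NumIs NumIs.E

/-- the condition for the rectangle `|Re| ≤ s0`, `|Im| ≤ y0` -/
def Kc (s0 y0 : ℝ) : Prop :=
  2 * Real.cosh (Real.pi * (2 * y0)) - 2 * Real.cos (Real.pi * (2 * s0)) ≤ 1

theorem kc_7_13 : Kc (7 / 100) (13 / 100) := by
  have h : chk [sub (q 1 1) (sub (mul (q 2 1) (cosh (mul pi (q 26 100))))
      (mul (q 2 1) (cosPi (q 14 100))))] 1 [V.of 1 0 0] = true := by decide +kernel
  have hp := pos_of_chk (chk1 h (by norm_num) (x := 0) (by norm_num) (by norm_num))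
  unfold Kc
  simp only [val] at hp
  norm_num at hp ⊢
  linarith only [hp]

theorem kc_6_14 : Kc (6 / 100) (14 / 100) := by
  have h : chk [sub (q 1 1) (sub (mul (q 2 1) (cosh (mul pi (q 28 100))))
      (mul (q 2 1) (cosPi (q 12 100))))] 1 [V.of 1 0 0] = true := by decide +kernel
  have hp := pos_of_chk (chk1 h (by norm_num) (x := 0) (by norm_num) (by norm_num))
  unfold Kc
  simp only [val] at hp
  norm_num at hp ⊢
  linarith only [hp]

theorem kc_2_15 : Kc (2 / 100) (15 / 100) := by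
  have h : chk [sub (q 1 1) (sub (mul (q 2 1) (cosh (mul pi (q 30 100))))
      (mul (q 2 1) (cosPi (q 4 100))))] 1 [V.of 1 0 0] = true := by decide +kernel
  have hp := pos_of_chk (chk1 h (by norm_num) (x := 0) (by norm_num) (by norm_num))
  unfold Kc
  simp only [val] at hp
  norm_num at hp ⊢
  linarith only [hp]

end

/-- `LL ≤ 0` on the rectangle -/
theorem LL_nonpos {s0 y0 : ℝ} (K : Kc s0 y0) (h1 : s0 ≤ 1 / 2) {s y : ℝ} (hs : |s| ≤ s0)
    (hy : |y| ≤ y0) : LL ⟨s, y⟩ ≤ 0 := by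
  have hp := Real.pi_pos
  have h3 : LL ⟨s, y⟩ ≤ Real.log 1 / 2 := by
    apply MR.LL_le_log le_rfl
    have h4 : Real.cosh (2 * Real.pi * y) ≤ Real.cosh (Real.pi * (2 * y0)) := by
      apply Real.cosh_le_cosh.2
      rw [abs_mul, abs_of_pos (by positivity : 0 < 2 * Real.pi), abs_mul, abs_of_pos hp, abs_mul,
        abs_of_pos (by norm_num : (0 : ℝ) < 2), abs_of_nonneg ((abs_nonneg y).trans hy)]
      nlinarith only [hy, hp]
    have h5 : Real.cos (Real.pi * (2 * s0)) ≤ Real.cos (2 * Real.pi * s) := by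
      rw [← Real.cos_abs (2 * Real.pi * s), abs_mul, abs_of_pos (by positivity : 0 < 2 * Real.pi)]
      apply Real.cos_le_cos_of_nonneg_of_le_pi
      · positivity
      · nlinarith only [h1, hp]
      · nlinarith only [hs, hp]
    unfold Kc at K
    simp only
    linarith only [K, h4, h5]
  rw [Real.log_one] at h3
  linarith only [h3]

theorem anti0 {s0 y0 : ℝ} (K : Kc s0 y0) (h1 : s0 ≤ 1 / 2) {a b y : ℝ} (hab : a ≤ b)
    (h : ∀ s ∈ Set.Ioo a b, s ≠ 0 ∧ |s| ≤ s0) (hy : |y| ≤ y0) : uu b y ≤ uu a y := by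
  have hp := Real.pi_pos
  have hpt : ∀ s : ℝ, (y : ℂ) * Complex.I + ((1 * s : ℝ) : ℂ) = ⟨s, y⟩ := by
    intro s
    apply Complex.ext <;> simp
  have hd : ∀ s ∈ Set.Ioo a b, HasDerivAt
      (fun s : ℝ => UU ((y : ℂ) * Complex.I + ((1 * s : ℝ) : ℂ))) (1 * LL ⟨s, y⟩) s := by
    intro s hs
    have h2 := hasDerivAt_UU_level ((y : ℂ) * Complex.I) 1 s (by
      rw [hpt]
      intro hc
      rw [Complex.sin_eq_zero_iff] at hc
      obtain ⟨k, hk⟩ := hc
      have hk1 : (⟨s, y⟩ : ℂ) = k := by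
        have : (Real.pi : ℂ) ≠ 0 := by exact_mod_cast hp.ne'
        apply mul_left_cancel₀ this
        rw [hk]
        ring
      have hk2 := congrArg Complex.re hk1
      simp only [Complex.intCast_re] at hk2
      obtain ⟨a1, a2⟩ := h s hs
      rw [hk2, abs_le] at a2
      have a3 : (-1 : ℤ) < k := by
        have : (-1 : ℝ) < k := by linarith only [h1, a2]
        exact_mod_cast this
      have a4 : k < (1 : ℤ) := by
        have : (k : ℝ) < 1 := by linarith only [h1, a2]
        exact_mod_cast this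
      apply a1
      rw [hk2]
      have : k = 0 := by omega
      simp [this])
    rw [hpt] at h2
    exact h2
  have hanti : AntitoneOn (fun s : ℝ => UU ((y : ℂ) * Complex.I + ((1 * s : ℝ) : ℂ)))
      (Set.Icc a b) := by
    apply antitoneOn_of_deriv_nonpos (convex_Icc _ _)
    · apply Continuous.continuousOn
      exact continuous_UU.comp (by fun_prop)
    · rw [interior_Icc]
      exact fun s hs => (hd s hs).differentiableAt.differentiableWithinAt
    · rw [interior_Icc]
      intro s hs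
      rw [(hd s hs).deriv, one_mul]
      exact LL_nonpos K h1 (h s hs).2 hy
  have h2 := hanti (Set.left_mem_Icc.2 hab) (Set.right_mem_Icc.2 hab) hab
  simp only [hpt] at h2
  exact h2

/-- `uu` decreases near `0` -/
theorem anti {s0 y0 : ℝ} (K : Kc s0 y0) (h1 : s0 ≤ 1 / 2) {a b y : ℝ} (ha : -s0 ≤ a) (hab : a ≤ b)
    (hb : b ≤ s0) (hy : |y| ≤ y0) : uu b y ≤ uu a y := by
  rcases le_or_gt 0 a with h | h
  · exact anti0 K h1 hab (fun s hs => ⟨(lt_of_le_of_lt h hs.1).ne', by
      rw [abs_le]; constructor <;> linarith only [ha, hs, hb, hs.1, hs.2]⟩) hy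
  · rcases le_or_gt b 0 with h' | h'
    · exact anti0 K h1 hab (fun s hs => ⟨(lt_of_lt_of_le hs.2 h').ne, by
        rw [abs_le]; constructor <;> linarith only [ha, hs, hb, hs.1, hs.2]⟩) hy
    · exact (anti0 K h1 h'.le (fun s hs => ⟨hs.1.ne', by
        rw [abs_le]; constructor <;> linarith only [ha, h, hs, hb, hs.1, hs.2]⟩) hy).trans
        (anti0 K h1 h.le (fun s hs => ⟨hs.2.ne, by
        rw [abs_le]; constructor <;> linarith only [ha, hs, h, hs.1, hs.2]⟩) hy)

/-- `uu` decreases near `1` -/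
theorem anti1 {s0 y0 : ℝ} (K : Kc s0 y0) (h1 : s0 ≤ 1 / 2) {a b y : ℝ} (ha : 1 - s0 ≤ a)
    (hab : a ≤ b) (hb : b ≤ 1 + s0) (hy : |y| ≤ y0) : uu b y ≤ uu a y := by
  have e1 := uu_add_one (a - 1) y
  have e2 := uu_add_one (b - 1) y
  rw [sub_add_cancel] at e1 e2
  rw [e1, e2]
  have := anti K h1 (a := a - 1) (b := b - 1) (y := y) (by linarith only [ha]) (by linarith only [hab]) (by linarith only [hb]) hy
  linarith only [this]

theorem uu_zero (y : ℝ) : uu 0 y = -(Real.pi / 2 * |y|) := by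
  unfold uu UU
  simp only [DT.Lr_zero_right]
  ring

theorem uu_one (y : ℝ) : uu 1 y = Real.pi / 2 * |y| := by
  have h := uu_one_sub 0 y
  rw [sub_zero, uu_zero, neg_neg] at h
  exact h

/-- near `1`, on the right -/
theorem le_right {s0 y0 : ℝ} (K : Kc s0 y0) (h1 : s0 ≤ 1 / 2) {b y : ℝ}
    (ha : 1 ≤ b) (hb : b ≤ 1 + s0) (hy : |y| ≤ y0) : uu b y ≤ Real.pi / 2 * |y| := by
  rw [← uu_one]
  exact anti1 K h1 (by have := (abs_nonneg y).trans hy; linarith only [ha, hb]) ha hb hy

/-- near `1`, on the left -/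
theorem ge_left {s0 y0 : ℝ} (K : Kc s0 y0) (h1 : s0 ≤ 1 / 2) {b y : ℝ}
    (ha : 1 - s0 ≤ b) (hb : b ≤ 1) (hy : |y| ≤ y0) : Real.pi / 2 * |y| ≤ uu b y := by
  rw [← uu_one]
  exact anti1 K h1 ha hb (by linarith only [ha, hb]) hy

/-- near `0`, on the right -/
theorem le_zero {s0 y0 : ℝ} (K : Kc s0 y0) (h1 : s0 ≤ 1 / 2) {b y : ℝ}
    (ha : 0 ≤ b) (hb : b ≤ s0) (hy : |y| ≤ y0) : uu b y ≤ -(Real.pi / 2 * |y|) := by
  rw [← uu_zero]
  exact anti K h1 (by linarith only [ha, hb]) ha hb hy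

end UA

end Pool.Agent.Work.MP_b30479_gtS.G2

end
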