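import Pool.Agent.Work.MP_b30479_gt.TBS.NumU.Tree
import Pool.Agent.Work.MP_b30479_gt.TBS.G2.MRBase

section

/-!
# Part of `C23R`
-/
set_option linter.unusedSimpArgs false
set_option linter.unusedVariables false
set_option linter.unusedTactic false

set_option deprecated.oldSectionVars true

namespace Pool.Agent.Work.MP_b30479_gtS.G2

namespace C23

open NumUs
open NumUs.E (emb)
open NumIs (V)

/-- 18 boxes -/
theorem s25jdp {x T s k : ℝ} (a0 : 3700 / 10000 ≤ x) (b0 : x ≤ 5000 / 10000) (a1 : -50 / 10000 ≤ T) (b1 : T ≤ 570 / 10000)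
    (a2 : 5600 / 10000 ≤ s) (b2 : s ≤ 6000 / 10000) (a3 : -985 / 10000 ≤ k) (b3 : k ≤ 960 / 10000)
    (c0 : (106 / 100) - (x + s) ≤ 0) (c1 : k - ((11 / 1000) + ((320 / 1000) * ((63 / 100) - s))) ≤
    0) (c2 : (-k) - ((340 / 1000) * ((80 / 100) - s)) ≤ 0) (c3 : T ≤ 0) :
    0 < ((-14 / 100) - ((MR.b2 1 ((-100 / 25) * T) x (T * ((100 / 25) * ((6 / 10) - x))) s k) +
      (((-100 / 25) * T) * ((1 / 2) * Real.pi)))) := by
  have h : chkT [(emb (.sub (.q (-14) 100) (.add (MR.eb2 (.q 1 1) (.mul (.q (-100) 25) (.var 1)) (.var 0)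
      (.mul (.var 1) (.mul (.q 100 25) (.sub (.q 6 10) (.var 0)))) (.var 2) (.var 3)) (.mul (.mul
      (.q (-100) 25) (.var 1)) (.mul (.q 1 2) .pi))))), (emb (.sub (.q 106 100) (.add (.var 0)
      (.var 2)))), (emb (.sub (.var 3) (.add (.q 11 1000) (.mul (.q 320 1000) (.sub (.q 63 100)
      (.var 2)))))), (emb (.sub (.neg (.var 3)) (.mul (.q 340 1000) (.sub (.q 80 100) (.var
      2))))), (emb (.var 1))] 22
      1114946516211393323911969124423740969521552
      [V.of 10000 3700 5000 0, V.of 10000 (-50) 570 0, V.of 10000 5600 6000 0, V.of 10000 (-985)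
        960 0] = true := by
    decide +kernel
  obtain ⟨f, hf, hp⟩ := chkT4 h (by norm_num) (x := x) (y := T) (z := s) (w := k)
    (le_trans (by norm_num) a0) (le_trans b0 (by norm_num))
    (le_trans (by norm_num) a1) (le_trans b1 (by norm_num))
    (le_trans (by norm_num) a2) (le_trans b2 (by norm_num))
    (le_trans (by norm_num) a3) (le_trans b3 (by norm_num))
  simp only [List.mem_cons, List.not_mem_nil, or_false] at hf
  rcases hf with rfl | rfl | rfl | rfl | rfl
  · simp only [MR.e2_val, MR.en2_val, MR.eb2_val, NumUs.E.val, NumIs.E.val, NumIs.lkR] at hp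
    push_cast at hp
    try simp only [div_one] at hp
    linarith only [hp]
  · simp only [MR.e2_val, MR.en2_val, MR.eb2_val, NumUs.E.val, NumIs.E.val, NumIs.lkR] at hp
    push_cast at hp
    try simp only [div_one] at hp
    exfalso
    linarith only [c0, hp]
  · simp only [MR.e2_val, MR.en2_val, MR.eb2_val, NumUs.E.val, NumIs.E.val, NumIs.lkR] at hp
    push_cast at hp
    try simp only [div_one] at hp
    exfalso
    linarith only [c1, hp]
  · simp only [MR.e2_val, MR.en2_val, MR.eb2_val, NumUs.E.val, NumIs.E.val, NumIs.lkR] at hp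
    push_cast at hp
    try simp only [div_one] at hp
    exfalso
    linarith only [c2, hp]
  · simp only [MR.e2_val, MR.en2_val, MR.eb2_val, NumUs.E.val, NumIs.E.val, NumIs.lkR] at hp
    push_cast at hp
    try simp only [div_one] at hp
    exfalso
    linarith only [c3, hp]

/-- 26 boxes -/
theorem s25jdn {x T s k : ℝ} (a0 : 3700 / 10000 ≤ x) (b0 : x ≤ 5000 / 10000) (a1 : -50 / 10000 ≤ T) (b1 : T ≤ 570 / 10000)
    (a2 : 5600 / 10000 ≤ s) (b2 : s ≤ 6000 / 10000) (a3 : -985 / 10000 ≤ k) (b3 : k ≤ 960 / 10000)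
    (c0 : (106 / 100) - (x + s) ≤ 0) (c1 : k - ((11 / 1000) + ((320 / 1000) * ((63 / 100) - s))) ≤
    0) (c2 : (-k) - ((340 / 1000) * ((80 / 100) - s)) ≤ 0) (c3 : -T ≤ 0) :
    0 < ((-14 / 100) - ((MR.b2 (-1) ((-100 / 25) * T) x (T * ((100 / 25) * ((6 / 10) - x))) s k)
      + (((-100 / 25) * T) * ((1 / 2) * Real.pi)))) := by
  have h : chkT [(emb (.sub (.q (-14) 100) (.add (MR.eb2 (.q (-1) 1) (.mul (.q (-100) 25) (.var 1)) (.var 0)
      (.mul (.var 1) (.mul (.q 100 25) (.sub (.q 6 10) (.var 0)))) (.var 2) (.var 3)) (.mul (.mul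
      (.q (-100) 25) (.var 1)) (.mul (.q 1 2) .pi))))), (emb (.sub (.q 106 100) (.add (.var 0)
      (.var 2)))), (emb (.sub (.var 3) (.add (.q 11 1000) (.mul (.q 320 1000) (.sub (.q 63 100)
      (.var 2)))))), (emb (.sub (.neg (.var 3)) (.mul (.q 340 1000) (.sub (.q 80 100) (.var
      2))))), (emb (.neg (.var 1)))] 22
      16923660169088114606615043419328234278338237404157652461232272
      [V.of 10000 3700 5000 0, V.of 10000 (-50) 570 0, V.of 10000 5600 6000 0, V.of 10000 (-985)
        960 0] = true := by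
    decide +kernel
  obtain ⟨f, hf, hp⟩ := chkT4 h (by norm_num) (x := x) (y := T) (z := s) (w := k)
    (le_trans (by norm_num) a0) (le_trans b0 (by norm_num))
    (le_trans (by norm_num) a1) (le_trans b1 (by norm_num))
    (le_trans (by norm_num) a2) (le_trans b2 (by norm_num))
    (le_trans (by norm_num) a3) (le_trans b3 (by norm_num))
  simp only [List.mem_cons, List.not_mem_nil, or_false] at hf
  rcases hf with rfl | rfl | rfl | rfl | rfl
  · simp only [MR.e2_val, MR.en2_val, MR.eb2_val, NumUs.E.val, NumIs.E.val, NumIs.lkR] at hp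
    push_cast at hp
    try simp only [div_one] at hp
    linarith only [hp]
  · simp only [MR.e2_val, MR.en2_val, MR.eb2_val, NumUs.E.val, NumIs.E.val, NumIs.lkR] at hp
    push_cast at hp
    try simp only [div_one] at hp
    exfalso
    linarith only [c0, hp]
  · simp only [MR.e2_val, MR.en2_val, MR.eb2_val, NumUs.E.val, NumIs.E.val, NumIs.lkR] at hp
    push_cast at hp
    try simp only [div_one] at hp
    exfalso
    linarith only [c1, hp]
  · simp only [MR.e2_val, MR.en2_val, MR.eb2_val, NumUs.E.val, NumIs.E.val, NumIs.lkR] at hp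
    push_cast at hp
    try simp only [div_one] at hp
    exfalso
    linarith only [c2, hp]
  · simp only [MR.e2_val, MR.en2_val, MR.eb2_val, NumUs.E.val, NumIs.E.val, NumIs.lkR] at hp
    push_cast at hp
    try simp only [div_one] at hp
    exfalso
    linarith only [c3, hp]

/-- 7 boxes -/
theorem z30ia {x T s k : ℝ} (a0 : 3000 / 10000 ≤ x) (b0 : x ≤ 3300 / 10000) (a1 : -50 / 10000 ≤ T) (b1 : T ≤ 570 / 10000)
    (a2 : 700 / 10000 ≤ s) (b2 : s ≤ 1250 / 10000) (a3 : -1075 / 10000 ≤ k) (b3 : k ≤ 960 / 10000)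
    :
    0 < (((120 / 1000) - ((400 / 100) * (x - (300 / 1000)))) - ((MR.s2 ((-100 / 30) * T) x (T *
      ((100 / 30) * ((6 / 10) - x))) s ((8 * k) * s)) + (((-100 / 30) * T) * ((1 / 2) *
      Real.pi)))) := by
  have h : chkT [(emb (.sub (.sub (.q 120 1000) (.mul (.q 400 100) (.sub (.var 0) (.q 300 1000)))) (.add
      (MR.e2 (.mul (.q (-100) 30) (.var 1)) (.var 0) (.mul (.var 1) (.mul (.q 100 30) (.sub (.q 6
      10) (.var 0)))) (.var 2) (.mul (.mul (.q 8 1) (.var 3)) (.var 2))) (.mul (.mul (.q (-100)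
      30) (.var 1)) (.mul (.q 1 2) .pi)))))] 22
      2394197444796803
      [V.of 10000 3000 3300 0, V.of 10000 (-50) 570 0, V.of 10000 700 1250 0, V.of 10000 (-1075)
        960 0] = true := by
    decide +kernel
  obtain ⟨f, hf, hp⟩ := chkT4 h (by norm_num) (x := x) (y := T) (z := s) (w := k)
    (le_trans (by norm_num) a0) (le_trans b0 (by norm_num))
    (le_trans (by norm_num) a1) (le_trans b1 (by norm_num))
    (le_trans (by norm_num) a2) (le_trans b2 (by norm_num))
    (le_trans (by norm_num) a3) (le_trans b3 (by norm_num))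
  simp only [List.mem_cons, List.not_mem_nil, or_false] at hf
  subst hf
  simp only [MR.e2_val, MR.en2_val, MR.eb2_val, NumUs.E.val, NumIs.E.val, NumIs.lkR] at hp
  push_cast at hp
  try simp only [div_one] at hp
  linarith only [hp]

/-- 37 boxes -/
theorem z30ib {x T s k : ℝ} (a0 : 3000 / 10000 ≤ x) (b0 : x ≤ 3300 / 10000) (a1 : -50 / 10000 ≤ T) (b1 : T ≤ 570 / 10000)
    (a2 : 1250 / 10000 ≤ s) (b2 : s ≤ 6000 / 10000) (a3 : -985 / 10000 ≤ k) (b3 : k ≤ 960 / 10000)
    (c0 : (x + s) - (94 / 100) ≤ 0) :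
    0 < (((120 / 1000) - ((400 / 100) * (x - (300 / 1000)))) - ((MR.s2 ((-100 / 30) * T) x (T *
      ((100 / 30) * ((6 / 10) - x))) s k) + (((-100 / 30) * T) * ((1 / 2) * Real.pi)))) := by
  have h : chkT [(emb (.sub (.sub (.q 120 1000) (.mul (.q 400 100) (.sub (.var 0) (.q 300 1000)))) (.add
      (MR.e2 (.mul (.q (-100) 30) (.var 1)) (.var 0) (.mul (.var 1) (.mul (.q 100 30) (.sub (.q 6
      10) (.var 0)))) (.var 2) (.var 3)) (.mul (.mul (.q (-100) 30) (.var 1)) (.mul (.q 1 2)
      .pi))))), (emb (.sub (.add (.var 0) (.var 2)) (.q 94 100)))] 22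
      4230222800210414403833372151035670620580304171723503607882189353021265391867684498670370
      [V.of 10000 3000 3300 0, V.of 10000 (-50) 570 0, V.of 10000 1250 6000 0, V.of 10000 (-985)
        960 0] = true := by
    decide +kernel
  obtain ⟨f, hf, hp⟩ := chkT4 h (by norm_num) (x := x) (y := T) (z := s) (w := k)
    (le_trans (by norm_num) a0) (le_trans b0 (by norm_num))
    (le_trans (by norm_num) a1) (le_trans b1 (by norm_num))
    (le_trans (by norm_num) a2) (le_trans b2 (by norm_num))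
    (le_trans (by norm_num) a3) (le_trans b3 (by norm_num))
  simp only [List.mem_cons, List.not_mem_nil, or_false] at hf
  rcases hf with rfl | rfl
  · simp only [MR.e2_val, MR.en2_val, MR.eb2_val, NumUs.E.val, NumIs.E.val, NumIs.lkR] at hp
    push_cast at hp
    try simp only [div_one] at hp
    linarith only [hp]
  · simp only [MR.e2_val, MR.en2_val, MR.eb2_val, NumUs.E.val, NumIs.E.val, NumIs.lkR] at hp
    push_cast at hp
    try simp only [div_one] at hp
    exfalso
    linarith only [b0, b2, hp]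

/-- 10 boxes -/
theorem z30ja {x T s k : ℝ} (a0 : 3300 / 10000 ≤ x) (b0 : x ≤ 3600 / 10000) (a1 : -50 / 10000 ≤ T) (b1 : T ≤ 570 / 10000)
    (a2 : 700 / 10000 ≤ s) (b2 : s ≤ 1250 / 10000) (a3 : -1075 / 10000 ≤ k) (b3 : k ≤ 960 / 10000)
    :
    0 < (((-20 / 1000) - ((300 / 100) * (x - (330 / 1000)))) - ((MR.s2 ((-100 / 30) * T) x (T *
      ((100 / 30) * ((6 / 10) - x))) s ((8 * k) * s)) + (((-100 / 30) * T) * ((1 / 2) *
      Real.pi)))) := by
  have h : chkT [(emb (.sub (.sub (.q (-20) 1000) (.mul (.q 300 100) (.sub (.var 0) (.q 330 1000)))) (.add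
      (MR.e2 (.mul (.q (-100) 30) (.var 1)) (.var 0) (.mul (.var 1) (.mul (.q 100 30) (.sub (.q 6
      10) (.var 0)))) (.var 2) (.mul (.mul (.q 8 1) (.var 3)) (.var 2))) (.mul (.mul (.q (-100)
      30) (.var 1)) (.mul (.q 1 2) .pi)))))] 22
      40205269106296674681475
      [V.of 10000 3300 3600 0, V.of 10000 (-50) 570 0, V.of 10000 700 1250 0, V.of 10000 (-1075)
        960 0] = true := by
    decide +kernel
  obtain ⟨f, hf, hp⟩ := chkT4 h (by norm_num) (x := x) (y := T) (z := s) (w := k)
    (le_trans (by norm_num) a0) (le_trans b0 (by norm_num))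
    (le_trans (by norm_num) a1) (le_trans b1 (by norm_num))
    (le_trans (by norm_num) a2) (le_trans b2 (by norm_num))
    (le_trans (by norm_num) a3) (le_trans b3 (by norm_num))
  simp only [List.mem_cons, List.not_mem_nil, or_false] at hf
  subst hf
  simp only [MR.e2_val, MR.en2_val, MR.eb2_val, NumUs.E.val, NumIs.E.val, NumIs.lkR] at hp
  push_cast at hp
  try simp only [div_one] at hp
  linarith only [hp]

/-- 49 boxes -/
theorem z30jb {x T s k : ℝ} (a0 : 3300 / 10000 ≤ x) (b0 : x ≤ 3600 / 10000) (a1 : -50 / 10000 ≤ T) (b1 : T ≤ 570 / 10000)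
    (a2 : 1250 / 10000 ≤ s) (b2 : s ≤ 6000 / 10000) (a3 : -985 / 10000 ≤ k) (b3 : k ≤ 960 / 10000)
    (c0 : (x + s) - (94 / 100) ≤ 0) :
    0 < (((-20 / 1000) - ((300 / 100) * (x - (330 / 1000)))) - ((MR.s2 ((-100 / 30) * T) x (T *
      ((100 / 30) * ((6 / 10) - x))) s k) + (((-100 / 30) * T) * ((1 / 2) * Real.pi)))) := by
  have h : chkT [(emb (.sub (.sub (.q (-20) 1000) (.mul (.q 300 100) (.sub (.var 0) (.q 330 1000)))) (.add
      (MR.e2 (.mul (.q (-100) 30) (.var 1)) (.var 0) (.mul (.var 1) (.mul (.q 100 30) (.sub (.q 6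
      10) (.var 0)))) (.var 2) (.var 3)) (.mul (.mul (.q (-100) 30) (.var 1)) (.mul (.q 1 2)
      .pi))))), (emb (.sub (.add (.var 0) (.var 2)) (.q 94 100)))] 22
      335152866335497436761322448503191737803343176345584673368645061335523784266070909301832579515700099495902752238961442
      [V.of 10000 3300 3600 0, V.of 10000 (-50) 570 0, V.of 10000 1250 6000 0, V.of 10000 (-985)
        960 0] = true := by
    decide +kernel
  obtain ⟨f, hf, hp⟩ := chkT4 h (by norm_num) (x := x) (y := T) (z := s) (w := k)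
    (le_trans (by norm_num) a0) (le_trans b0 (by norm_num))
    (le_trans (by norm_num) a1) (le_trans b1 (by norm_num))
    (le_trans (by norm_num) a2) (le_trans b2 (by norm_num))
    (le_trans (by norm_num) a3) (le_trans b3 (by norm_num))
  simp only [List.mem_cons, List.not_mem_nil, or_false] at hf
  rcases hf with rfl | rfl
  · simp only [MR.e2_val, MR.en2_val, MR.eb2_val, NumUs.E.val, NumIs.E.val, NumIs.lkR] at hp
    push_cast at hp
    try simp only [div_one] at hp
    linarith only [hp]
  · simp only [MR.e2_val, MR.en2_val, MR.eb2_val, NumUs.E.val, NumIs.E.val, NumIs.lkR] at hp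
    push_cast at hp
    try simp only [div_one] at hp
    exfalso
    linarith only [c0, hp]

/-- 1 boxes -/
theorem z30jcp {x T s k : ℝ} (a0 : 3300 / 10000 ≤ x) (b0 : x ≤ 3600 / 10000) (a1 : -50 / 10000 ≤ T) (b1 : T ≤ 570 / 10000)
    (a2 : 5800 / 10000 ≤ s) (b2 : s ≤ 6000 / 10000) (a3 : -985 / 10000 ≤ k) (b3 : k ≤ 960 / 10000)
    (c0 : (x + s) - (106 / 100) ≤ 0) (c1 : (94 / 100) - (x + s) ≤ 0) (c2 : k - ((11 / 1000) +
    ((320 / 1000) * ((63 / 100) - s))) ≤ 0) (c3 : (-k) - ((340 / 1000) * ((80 / 100) - s)) ≤ 0)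
    (c4 : T ≤ 0) :
    0 < (((-20 / 1000) - ((300 / 100) * (x - (330 / 1000)))) - ((MR.n2 0 1 ((-100 / 30) * T) x
      (T * ((100 / 30) * ((6 / 10) - x))) s k) + (((-100 / 30) * T) * ((1 / 2) * Real.pi)))) := by
  have h : chkT [(emb (.sub (.sub (.q (-20) 1000) (.mul (.q 300 100) (.sub (.var 0) (.q 330 1000)))) (.add
      (MR.en2 (.q 0 1) (.q 1 1) (.mul (.q (-100) 30) (.var 1)) (.var 0) (.mul (.var 1) (.mul (.q
      100 30) (.sub (.q 6 10) (.var 0)))) (.var 2) (.var 3)) (.mul (.mul (.q (-100) 30) (.var 1))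
      (.mul (.q 1 2) .pi))))), (emb (.sub (.add (.var 0) (.var 2)) (.q 106 100))), (emb (.sub (.q
      94 100) (.add (.var 0) (.var 2)))), (emb (.sub (.var 3) (.add (.q 11 1000) (.mul (.q 320
      1000) (.sub (.q 63 100) (.var 2)))))), (emb (.sub (.neg (.var 3)) (.mul (.q 340 1000) (.sub
      (.q 80 100) (.var 2))))), (emb (.var 1))] 22
      8
      [V.of 10000 3300 3600 0, V.of 10000 (-50) 570 0, V.of 10000 5800 6000 0, V.of 10000 (-985)
        960 0] = true := by
    decide +kernel
  obtain ⟨f, hf, hp⟩ := chkT4 h (by norm_num) (x := x) (y := T) (z := s) (w := k)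
    (le_trans (by norm_num) a0) (le_trans b0 (by norm_num))
    (le_trans (by norm_num) a1) (le_trans b1 (by norm_num))
    (le_trans (by norm_num) a2) (le_trans b2 (by norm_num))
    (le_trans (by norm_num) a3) (le_trans b3 (by norm_num))
  simp only [List.mem_cons, List.not_mem_nil, or_false] at hf
  rcases hf with rfl | rfl | rfl | rfl | rfl | rfl
  · simp only [MR.e2_val, MR.en2_val, MR.eb2_val, NumUs.E.val, NumIs.E.val, NumIs.lkR] at hp
    push_cast at hp
    try simp only [div_one] at hp
    linarith only [hp]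
  · simp only [MR.e2_val, MR.en2_val, MR.eb2_val, NumUs.E.val, NumIs.E.val, NumIs.lkR] at hp
    push_cast at hp
    try simp only [div_one] at hp
    exfalso
    linarith only [b0, b2, hp]
  · simp only [MR.e2_val, MR.en2_val, MR.eb2_val, NumUs.E.val, NumIs.E.val, NumIs.lkR] at hp
    push_cast at hp
    try simp only [div_one] at hp
    exfalso
    linarith only [c1, hp]
  · simp only [MR.e2_val, MR.en2_val, MR.eb2_val, NumUs.E.val, NumIs.E.val, NumIs.lkR] at hp
    push_cast at hp
    try simp only [div_one] at hp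
    exfalso
    linarith only [c2, hp]
  · simp only [MR.e2_val, MR.en2_val, MR.eb2_val, NumUs.E.val, NumIs.E.val, NumIs.lkR] at hp
    push_cast at hp
    try simp only [div_one] at hp
    exfalso
    linarith only [c3, hp]
  · simp only [MR.e2_val, MR.en2_val, MR.eb2_val, NumUs.E.val, NumIs.E.val, NumIs.lkR] at hp
    push_cast at hp
    try simp only [div_one] at hp
    exfalso
    linarith only [c4, hp]

/-- 1 boxes -/
theorem z30jcn {x T s k : ℝ} (a0 : 3300 / 10000 ≤ x) (b0 : x ≤ 3600 / 10000) (a1 : -50 / 10000 ≤ T) (b1 : T ≤ 570 / 10000)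
    (a2 : 5800 / 10000 ≤ s) (b2 : s ≤ 6000 / 10000) (a3 : -985 / 10000 ≤ k) (b3 : k ≤ 960 / 10000)
    (c0 : (x + s) - (106 / 100) ≤ 0) (c1 : (94 / 100) - (x + s) ≤ 0) (c2 : k - ((11 / 1000) +
    ((320 / 1000) * ((63 / 100) - s))) ≤ 0) (c3 : (-k) - ((340 / 1000) * ((80 / 100) - s)) ≤ 0)
    (c4 : -T ≤ 0) :
    0 < (((-20 / 1000) - ((300 / 100) * (x - (330 / 1000)))) - ((MR.n2 0 (-1) ((-100 / 30) * T)
      x (T * ((100 / 30) * ((6 / 10) - x))) s k) + (((-100 / 30) * T) * ((1 / 2) * Real.pi)))) := by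
  have h : chkT [(emb (.sub (.sub (.q (-20) 1000) (.mul (.q 300 100) (.sub (.var 0) (.q 330 1000)))) (.add
      (MR.en2 (.q 0 1) (.q (-1) 1) (.mul (.q (-100) 30) (.var 1)) (.var 0) (.mul (.var 1) (.mul
      (.q 100 30) (.sub (.q 6 10) (.var 0)))) (.var 2) (.var 3)) (.mul (.mul (.q (-100) 30) (.var
      1)) (.mul (.q 1 2) .pi))))), (emb (.sub (.add (.var 0) (.var 2)) (.q 106 100))), (emb (.sub
      (.q 94 100) (.add (.var 0) (.var 2)))), (emb (.sub (.var 3) (.add (.q 11 1000) (.mul (.q 320
      1000) (.sub (.q 63 100) (.var 2)))))), (emb (.sub (.neg (.var 3)) (.mul (.q 340 1000) (.sub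
      (.q 80 100) (.var 2))))), (emb (.neg (.var 1)))] 22
      8
      [V.of 10000 3300 3600 0, V.of 10000 (-50) 570 0, V.of 10000 5800 6000 0, V.of 10000 (-985)
        960 0] = true := by
    decide +kernel
  obtain ⟨f, hf, hp⟩ := chkT4 h (by norm_num) (x := x) (y := T) (z := s) (w := k)
    (le_trans (by norm_num) a0) (le_trans b0 (by norm_num))
    (le_trans (by norm_num) a1) (le_trans b1 (by norm_num))
    (le_trans (by norm_num) a2) (le_trans b2 (by norm_num))
    (le_trans (by norm_num) a3) (le_trans b3 (by norm_num))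
  simp only [List.mem_cons, List.not_mem_nil, or_false] at hf
  rcases hf with rfl | rfl | rfl | rfl | rfl | rfl
  · simp only [MR.e2_val, MR.en2_val, MR.eb2_val, NumUs.E.val, NumIs.E.val, NumIs.lkR] at hp
    push_cast at hp
    try simp only [div_one] at hp
    linarith only [hp]
  · simp only [MR.e2_val, MR.en2_val, MR.eb2_val, NumUs.E.val, NumIs.E.val, NumIs.lkR] at hp
    push_cast at hp
    try simp only [div_one] at hp
    exfalso
    linarith only [b0, b2, hp]
  · simp only [MR.e2_val, MR.en2_val, MR.eb2_val, NumUs.E.val, NumIs.E.val, NumIs.lkR] at hp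
    push_cast at hp
    try simp only [div_one] at hp
    exfalso
    linarith only [c1, hp]
  · simp only [MR.e2_val, MR.en2_val, MR.eb2_val, NumUs.E.val, NumIs.E.val, NumIs.lkR] at hp
    push_cast at hp
    try simp only [div_one] at hp
    exfalso
    linarith only [c2, hp]
  · simp only [MR.e2_val, MR.en2_val, MR.eb2_val, NumUs.E.val, NumIs.E.val, NumIs.lkR] at hp
    push_cast at hp
    try simp only [div_one] at hp
    exfalso
    linarith only [c3, hp]
  · simp only [MR.e2_val, MR.en2_val, MR.eb2_val, NumUs.E.val, NumIs.E.val, NumIs.lkR] at hp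
    push_cast at hp
    try simp only [div_one] at hp
    exfalso
    linarith only [c4, hp]

/-- 13 boxes -/
theorem z30ha {x T s k : ℝ} (a0 : 3600 / 10000 ≤ x) (b0 : x ≤ 3700 / 10000) (a1 : -50 / 10000 ≤ T) (b1 : T ≤ 570 / 10000)
    (a2 : 700 / 10000 ≤ s) (b2 : s ≤ 1250 / 10000) (a3 : -1075 / 10000 ≤ k) (b3 : k ≤ 960 / 10000)
    :
    0 < ((-13 / 100) - ((MR.s2 ((-100 / 30) * T) x (T * ((100 / 30) * ((6 / 10) - x))) s ((8 *
      k) * s)) + (((-100 / 30) * T) * ((1 / 2) * Real.pi)))) := by
  have h : chkT [(emb (.sub (.q (-13) 100) (.add (MR.e2 (.mul (.q (-100) 30) (.var 1)) (.var 0) (.mul (.var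
      1) (.mul (.q 100 30) (.sub (.q 6 10) (.var 0)))) (.var 2) (.mul (.mul (.q 8 1) (.var 3))
      (.var 2))) (.mul (.mul (.q (-100) 30) (.var 1)) (.mul (.q 1 2) .pi)))))] 22
      675975142092254328268794331779
      [V.of 10000 3600 3700 0, V.of 10000 (-50) 570 0, V.of 10000 700 1250 0, V.of 10000 (-1075)
        960 0] = true := by
    decide +kernel
  obtain ⟨f, hf, hp⟩ := chkT4 h (by norm_num) (x := x) (y := T) (z := s) (w := k)
    (le_trans (by norm_num) a0) (le_trans b0 (by norm_num))
    (le_trans (by norm_num) a1) (le_trans b1 (by norm_num))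
    (le_trans (by norm_num) a2) (le_trans b2 (by norm_num))
    (le_trans (by norm_num) a3) (le_trans b3 (by norm_num))
  simp only [List.mem_cons, List.not_mem_nil, or_false] at hf
  subst hf
  simp only [MR.e2_val, MR.en2_val, MR.eb2_val, NumUs.E.val, NumIs.E.val, NumIs.lkR] at hp
  push_cast at hp
  try simp only [div_one] at hp
  linarith only [hp]

/-- 39 boxes -/
theorem z30hb {x T s k : ℝ} (a0 : 3600 / 10000 ≤ x) (b0 : x ≤ 3700 / 10000) (a1 : -50 / 10000 ≤ T) (b1 : T ≤ 570 / 10000)
    (a2 : 1250 / 10000 ≤ s) (b2 : s ≤ 5800 / 10000) (a3 : -985 / 10000 ≤ k) (b3 : k ≤ 960 / 10000)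
    (c0 : (x + s) - (94 / 100) ≤ 0) :
    0 < ((-13 / 100) - ((MR.s2 ((-100 / 30) * T) x (T * ((100 / 30) * ((6 / 10) - x))) s k) +
      (((-100 / 30) * T) * ((1 / 2) * Real.pi)))) := by
  have h : chkT [(emb (.sub (.q (-13) 100) (.add (MR.e2 (.mul (.q (-100) 30) (.var 1)) (.var 0) (.mul (.var
      1) (.mul (.q 100 30) (.sub (.q 6 10) (.var 0)))) (.var 2) (.var 3)) (.mul (.mul (.q (-100)
      30) (.var 1)) (.mul (.q 1 2) .pi))))), (emb (.sub (.add (.var 0) (.var 2)) (.q 94 100)))] 22
      277231881433640932464424463042789031546277956447952506424268291937468430765156748871688487714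
      [V.of 10000 3600 3700 0, V.of 10000 (-50) 570 0, V.of 10000 1250 5800 0, V.of 10000 (-985)
        960 0] = true := by
    decide +kernel
  obtain ⟨f, hf, hp⟩ := chkT4 h (by norm_num) (x := x) (y := T) (z := s) (w := k)
    (le_trans (by norm_num) a0) (le_trans b0 (by norm_num))
    (le_trans (by norm_num) a1) (le_trans b1 (by norm_num))
    (le_trans (by norm_num) a2) (le_trans b2 (by norm_num))
    (le_trans (by norm_num) a3) (le_trans b3 (by norm_num))
  simp only [List.mem_cons, List.not_mem_nil, or_false] at hf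
  rcases hf with rfl | rfl
  · simp only [MR.e2_val, MR.en2_val, MR.eb2_val, NumUs.E.val, NumIs.E.val, NumIs.lkR] at hp
    push_cast at hp
    try simp only [div_one] at hp
    linarith only [hp]
  · simp only [MR.e2_val, MR.en2_val, MR.eb2_val, NumUs.E.val, NumIs.E.val, NumIs.lkR] at hp
    push_cast at hp
    try simp only [div_one] at hp
    exfalso
    linarith only [c0, hp]

/-- 1 boxes -/
theorem z30hcp {x T s k : ℝ} (a0 : 3600 / 10000 ≤ x) (b0 : x ≤ 3700 / 10000) (a1 : -50 / 10000 ≤ T) (b1 : T ≤ 570 / 10000)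
    (a2 : 5700 / 10000 ≤ s) (b2 : s ≤ 6000 / 10000) (a3 : -985 / 10000 ≤ k) (b3 : k ≤ 960 / 10000)
    (c0 : (x + s) - (106 / 100) ≤ 0) (c1 : (94 / 100) - (x + s) ≤ 0) (c2 : k - ((11 / 1000) +
    ((320 / 1000) * ((63 / 100) - s))) ≤ 0) (c3 : (-k) - ((340 / 1000) * ((80 / 100) - s)) ≤ 0)
    (c4 : T ≤ 0) :
    0 < ((-13 / 100) - ((MR.n2 0 1 ((-100 / 30) * T) x (T * ((100 / 30) * ((6 / 10) - x))) s k)
      + (((-100 / 30) * T) * ((1 / 2) * Real.pi)))) := by
  have h : chkT [(emb (.sub (.q (-13) 100) (.add (MR.en2 (.q 0 1) (.q 1 1) (.mul (.q (-100) 30) (.var 1))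
      (.var 0) (.mul (.var 1) (.mul (.q 100 30) (.sub (.q 6 10) (.var 0)))) (.var 2) (.var 3))
      (.mul (.mul (.q (-100) 30) (.var 1)) (.mul (.q 1 2) .pi))))), (emb (.sub (.add (.var 0)
      (.var 2)) (.q 106 100))), (emb (.sub (.q 94 100) (.add (.var 0) (.var 2)))), (emb (.sub
      (.var 3) (.add (.q 11 1000) (.mul (.q 320 1000) (.sub (.q 63 100) (.var 2)))))), (emb (.sub
      (.neg (.var 3)) (.mul (.q 340 1000) (.sub (.q 80 100) (.var 2))))), (emb (.var 1))] 22
      8
      [V.of 10000 3600 3700 0, V.of 10000 (-50) 570 0, V.of 10000 5700 6000 0, V.of 10000 (-985)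
        960 0] = true := by
    decide +kernel
  obtain ⟨f, hf, hp⟩ := chkT4 h (by norm_num) (x := x) (y := T) (z := s) (w := k)
    (le_trans (by norm_num) a0) (le_trans b0 (by norm_num))
    (le_trans (by norm_num) a1) (le_trans b1 (by norm_num))
    (le_trans (by norm_num) a2) (le_trans b2 (by norm_num))
    (le_trans (by norm_num) a3) (le_trans b3 (by norm_num))
  simp only [List.mem_cons, List.not_mem_nil, or_false] at hf
  rcases hf with rfl | rfl | rfl | rfl | rfl | rfl
  · simp only [MR.e2_val, MR.en2_val, MR.eb2_val, NumUs.E.val, NumIs.E.val, NumIs.lkR] at hp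
    push_cast at hp
    try simp only [div_one] at hp
    linarith only [hp]
  · simp only [MR.e2_val, MR.en2_val, MR.eb2_val, NumUs.E.val, NumIs.E.val, NumIs.lkR] at hp
    push_cast at hp
    try simp only [div_one] at hp
    exfalso
    linarith only [b0, b2, hp]
  · simp only [MR.e2_val, MR.en2_val, MR.eb2_val, NumUs.E.val, NumIs.E.val, NumIs.lkR] at hp
    push_cast at hp
    try simp only [div_one] at hp
    exfalso
    linarith only [c1, hp]
  · simp only [MR.e2_val, MR.en2_val, MR.eb2_val, NumUs.E.val, NumIs.E.val, NumIs.lkR] at hp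
    push_cast at hp
    try simp only [div_one] at hp
    exfalso
    linarith only [c2, hp]
  · simp only [MR.e2_val, MR.en2_val, MR.eb2_val, NumUs.E.val, NumIs.E.val, NumIs.lkR] at hp
    push_cast at hp
    try simp only [div_one] at hp
    exfalso
    linarith only [c3, hp]
  · simp only [MR.e2_val, MR.en2_val, MR.eb2_val, NumUs.E.val, NumIs.E.val, NumIs.lkR] at hp
    push_cast at hp
    try simp only [div_one] at hp
    exfalso
    linarith only [c4, hp]

/-- 1 boxes -/
theorem z30hcn {x T s k : ℝ} (a0 : 3600 / 10000 ≤ x) (b0 : x ≤ 3700 / 10000) (a1 : -50 / 10000 ≤ T) (b1 : T ≤ 570 / 10000)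
    (a2 : 5700 / 10000 ≤ s) (b2 : s ≤ 6000 / 10000) (a3 : -985 / 10000 ≤ k) (b3 : k ≤ 960 / 10000)
    (c0 : (x + s) - (106 / 100) ≤ 0) (c1 : (94 / 100) - (x + s) ≤ 0) (c2 : k - ((11 / 1000) +
    ((320 / 1000) * ((63 / 100) - s))) ≤ 0) (c3 : (-k) - ((340 / 1000) * ((80 / 100) - s)) ≤ 0)
    (c4 : -T ≤ 0) :
    0 < ((-13 / 100) - ((MR.n2 0 (-1) ((-100 / 30) * T) x (T * ((100 / 30) * ((6 / 10) - x))) s
      k) + (((-100 / 30) * T) * ((1 / 2) * Real.pi)))) := by
  have h : chkT [(emb (.sub (.q (-13) 100) (.add (MR.en2 (.q 0 1) (.q (-1) 1) (.mul (.q (-100) 30) (.var 1))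
      (.var 0) (.mul (.var 1) (.mul (.q 100 30) (.sub (.q 6 10) (.var 0)))) (.var 2) (.var 3))
      (.mul (.mul (.q (-100) 30) (.var 1)) (.mul (.q 1 2) .pi))))), (emb (.sub (.add (.var 0)
      (.var 2)) (.q 106 100))), (emb (.sub (.q 94 100) (.add (.var 0) (.var 2)))), (emb (.sub
      (.var 3) (.add (.q 11 1000) (.mul (.q 320 1000) (.sub (.q 63 100) (.var 2)))))), (emb (.sub
      (.neg (.var 3)) (.mul (.q 340 1000) (.sub (.q 80 100) (.var 2))))), (emb (.neg (.var 1)))] 22
      8
      [V.of 10000 3600 3700 0, V.of 10000 (-50) 570 0, V.of 10000 5700 6000 0, V.of 10000 (-985)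
        960 0] = true := by
    decide +kernel
  obtain ⟨f, hf, hp⟩ := chkT4 h (by norm_num) (x := x) (y := T) (z := s) (w := k)
    (le_trans (by norm_num) a0) (le_trans b0 (by norm_num))
    (le_trans (by norm_num) a1) (le_trans b1 (by norm_num))
    (le_trans (by norm_num) a2) (le_trans b2 (by norm_num))
    (le_trans (by norm_num) a3) (le_trans b3 (by norm_num))
  simp only [List.mem_cons, List.not_mem_nil, or_false] at hf
  rcases hf with rfl | rfl | rfl | rfl | rfl | rfl
  · simp only [MR.e2_val, MR.en2_val, MR.eb2_val, NumUs.E.val, NumIs.E.val, NumIs.lkR] at hp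
    push_cast at hp
    try simp only [div_one] at hp
    linarith only [hp]
  · simp only [MR.e2_val, MR.en2_val, MR.eb2_val, NumUs.E.val, NumIs.E.val, NumIs.lkR] at hp
    push_cast at hp
    try simp only [div_one] at hp
    exfalso
    linarith only [b0, b2, hp]
  · simp only [MR.e2_val, MR.en2_val, MR.eb2_val, NumUs.E.val, NumIs.E.val, NumIs.lkR] at hp
    push_cast at hp
    try simp only [div_one] at hp
    exfalso
    linarith only [c1, hp]
  · simp only [MR.e2_val, MR.en2_val, MR.eb2_val, NumUs.E.val, NumIs.E.val, NumIs.lkR] at hp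
    push_cast at hp
    try simp only [div_one] at hp
    exfalso
    linarith only [c2, hp]
  · simp only [MR.e2_val, MR.en2_val, MR.eb2_val, NumUs.E.val, NumIs.E.val, NumIs.lkR] at hp
    push_cast at hp
    try simp only [div_one] at hp
    exfalso
    linarith only [c3, hp]
  · simp only [MR.e2_val, MR.en2_val, MR.eb2_val, NumUs.E.val, NumIs.E.val, NumIs.lkR] at hp
    push_cast at hp
    try simp only [div_one] at hp
    exfalso
    linarith only [c4, hp]

/-- 20 boxes -/
theorem z30ka {x T s k : ℝ} (a0 : 3700 / 10000 ≤ x) (b0 : x ≤ 5400 / 10000) (a1 : -50 / 10000 ≤ T) (b1 : T ≤ 570 / 10000)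
    (a2 : 700 / 10000 ≤ s) (b2 : s ≤ 1250 / 10000) (a3 : -1075 / 10000 ≤ k) (b3 : k ≤ 960 / 10000)
    :
    0 < ((-14 / 100) - ((MR.s2 ((-100 / 30) * T) x (T * ((100 / 30) * ((6 / 10) - x))) s ((8 *
      k) * s)) + (((-100 / 30) * T) * ((1 / 2) * Real.pi)))) := by
  have h : chkT [(emb (.sub (.q (-14) 100) (.add (MR.e2 (.mul (.q (-100) 30) (.var 1)) (.var 0) (.mul (.var
      1) (.mul (.q 100 30) (.sub (.q 6 10) (.var 0)))) (.var 2) (.mul (.mul (.q 8 1) (.var 3))
      (.var 2))) (.mul (.mul (.q (-100) 30) (.var 1)) (.mul (.q 1 2) .pi)))))] 22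
      48605176677838651014568223815996371269709858864
      [V.of 10000 3700 5400 0, V.of 10000 (-50) 570 0, V.of 10000 700 1250 0, V.of 10000 (-1075)
        960 0] = true := by
    decide +kernel
  obtain ⟨f, hf, hp⟩ := chkT4 h (by norm_num) (x := x) (y := T) (z := s) (w := k)
    (le_trans (by norm_num) a0) (le_trans b0 (by norm_num))
    (le_trans (by norm_num) a1) (le_trans b1 (by norm_num))
    (le_trans (by norm_num) a2) (le_trans b2 (by norm_num))
    (le_trans (by norm_num) a3) (le_trans b3 (by norm_num))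
  simp only [List.mem_cons, List.not_mem_nil, or_false] at hf
  subst hf
  simp only [MR.e2_val, MR.en2_val, MR.eb2_val, NumUs.E.val, NumIs.E.val, NumIs.lkR] at hp
  push_cast at hp
  try simp only [div_one] at hp
  linarith only [hp]

/-- 165 boxes -/
theorem z30kb {x T s k : ℝ} (a0 : 3700 / 10000 ≤ x) (b0 : x ≤ 5400 / 10000) (a1 : -50 / 10000 ≤ T) (b1 : T ≤ 570 / 10000)
    (a2 : 1250 / 10000 ≤ s) (b2 : s ≤ 5700 / 10000) (a3 : -985 / 10000 ≤ k) (b3 : k ≤ 960 / 10000)
    (c0 : (x + s) - (94 / 100) ≤ 0) :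
    0 < ((-14 / 100) - ((MR.s2 ((-100 / 30) * T) x (T * ((100 / 30) * ((6 / 10) - x))) s k) +
      (((-100 / 30) * T) * ((1 / 2) * Real.pi)))) := by
  have h : chkT [(emb (.sub (.q (-14) 100) (.add (MR.e2 (.mul (.q (-100) 30) (.var 1)) (.var 0) (.mul (.var
      1) (.mul (.q 100 30) (.sub (.q 6 10) (.var 0)))) (.var 2) (.var 3)) (.mul (.mul (.q (-100)
      30) (.var 1)) (.mul (.q 1 2) .pi))))), (emb (.sub (.add (.var 0) (.var 2)) (.q 94 100)))] 22
      858271727607676626409138475030189977651411209559316644967320754287181255227935770724892899144524465100069855995955025520961317058912854744034830226642146912846561658154096454900439720226578807686633137716492882666124269551072122606719882881935687561362879960202905790756398294969751478745817917822646653877076874688834770088992858808515847563979452481659499186278851845650712680661838826228035618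
      [V.of 10000 3700 5400 0, V.of 10000 (-50) 570 0, V.of 10000 1250 5700 0, V.of 10000 (-985)
        960 0] = true := by
    decide +kernel
  obtain ⟨f, hf, hp⟩ := chkT4 h (by norm_num) (x := x) (y := T) (z := s) (w := k)
    (le_trans (by norm_num) a0) (le_trans b0 (by norm_num))
    (le_trans (by norm_num) a1) (le_trans b1 (by norm_num))
    (le_trans (by norm_num) a2) (le_trans b2 (by norm_num))
    (le_trans (by norm_num) a3) (le_trans b3 (by norm_num))
  simp only [List.mem_cons, List.not_mem_nil, or_false] at hf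
  rcases hf with rfl | rfl
  · simp only [MR.e2_val, MR.en2_val, MR.eb2_val, NumUs.E.val, NumIs.E.val, NumIs.lkR] at hp
    push_cast at hp
    try simp only [div_one] at hp
    linarith only [hp]
  · simp only [MR.e2_val, MR.en2_val, MR.eb2_val, NumUs.E.val, NumIs.E.val, NumIs.lkR] at hp
    push_cast at hp
    try simp only [div_one] at hp
    exfalso
    linarith only [c0, hp]

end C23

end Pool.Agent.Work.MP_b30479_gtS.G2

end

section

/-!
# Table driven rows for a digit `1` next to a digit `1`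

Variables of the expressions: `x` (own hinge), `T` (its height), `B` (partner hinge) or `x + B`,
`k` (height of the partner); both heights before the ramps.  Everything in the own frame of the
digit.  Side rows (`okD`) and value rows (`okV`, the own hinge is moved to `c`).
-/

set_option deprecated.oldSectionVars true

namespace Pool.Agent.Work.MP_b30479_gtS.G2

open VOL

namespace OR

/-- part of the path of the own hinge: flat or right ramp (`XM`, `cr` over `1000`) -/
inductive Own
  | F | R (XM cr : ℕ)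

/-- part of the path of the partner: left ramp, flat, right ramp (over `1000`) -/
inductive Seg
  | L (cl : ℕ) | F | R (XM cr : ℕ)

section
open NumIs NumIs.E

theorem kc_3_15 : UA.Kc (3 / 100) (15 / 100) := by
  have h : chk [sub (q 1 1) (sub (mul (q 2 1) (cosh (mul pi (q 30 100))))
      (mul (q 2 1) (cosPi (q 6 100))))] 1 [V.of 1 0 0] = true := by decide +kernel
  have hp := pos_of_chk (chk1 h (by norm_num) (x := 0) (by norm_num) (by norm_num))
  unfold UA.Kc
  simp only [val] at hp
  norm_num at hp ⊢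
  linarith only [hp]

namespace Own

/-- slope -/
noncomputable def m : Own → ℝ → ℝ
  | F, _ => 0
  | R _ cr, T => -(1000 / (cr : ℝ) * T)

/-- height -/
noncomputable def t : Own → ℝ → ℝ → ℝ
  | F, _, T => T
  | R XM cr, x, T => T * (1000 / (cr : ℝ) * (XM / 1000 - x))

def eM : Own → E
  | F => E.q 0 1
  | R _ cr => E.neg (E.mul (E.q 1000 cr) (E.var 1))

def eT : Own → E
  | F => E.var 1
  | R XM cr => E.mul (E.var 1) (E.mul (E.q 1000 cr) (E.sub (E.q XM 1000) (E.var 0)))

theorem eM_val (o : Own) (x T Z k : ℝ) : o.eM.val [x, T, Z, k] = o.m T := by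
  cases o <;> simp [eM, m, E.val, lkR]

theorem eT_val (o : Own) (x T Z k : ℝ) : o.eT.val [x, T, Z, k] = o.t x T := by
  cases o <;> simp [eT, t, E.val, lkR]

end Own

namespace Seg

/-- height -/
noncomputable def h : Seg → ℝ → ℝ → ℝ
  | L cl, B, k => k * (1000 / (cl : ℝ) * B)
  | F, _, k => k
  | R XM cr, B, k => k * (1000 / (cr : ℝ) * (XM / 1000 - B))

def eH : Seg → E → E
  | L cl, B => E.mul (E.var 3) (E.mul (E.q 1000 cl) B)
  | F, _ => E.var 3
  | R XM cr, B => E.mul (E.var 3) (E.mul (E.q 1000 cr) (E.sub (E.q XM 1000) B))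

theorem eH_val (s : Seg) (e : E) (x T Z k : ℝ) :
    (s.eH e).val [x, T, Z, k] = s.h (e.val [x, T, Z, k]) k := by
  cases s <;> simp [eH, h, E.val, lkR]

end Seg

/-- coordinate `B` -/
def cB : E := E.var 2

/-- coordinate `x + B` -/
def cX : E := E.sub (E.var 2) (E.var 0)

theorem cB_val (x T B k : ℝ) : cB.val [x, T, B, k] = B := by simp [cB, E.val, lkR]

theorem cX_val (x T B k : ℝ) : cX.val [x, T, x + B, k] = B := by simp [cX, E.val, lkR]

end

/-- a row: ranges over `10000` of `x`, `T`, `B`, `k`; windows of `T + k` and `x + B`; the bound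
`g + lam k + ct T` (`g` over `10000`, `lam`, `ct` over `1000`) -/
structure Row where
  x0 : ℤ
  x1 : ℤ
  t0 : ℤ
  t1 : ℤ
  b0 : ℤ
  b1 : ℤ
  k0 : ℤ
  k1 : ℤ
  s0 : ℤ
  s1 : ℤ
  sl : ℤ
  sc : ℤ
  lam : ℤ
  ct : ℤ
  g : ℤ

namespace Row

/-- the point is in the range of the row -/
structure In (r : Row) (x T B k : ℝ) : Prop where
  x0 : (r.x0 : ℝ) / 10000 ≤ x
  x1 : x ≤ (r.x1 : ℝ) / 10000
  t0 : (r.t0 : ℝ) / 10000 ≤ T
  t1 : T ≤ (r.t1 : ℝ) / 10000
  b0 : (r.b0 : ℝ) / 10000 ≤ B
  b1 : B ≤ (r.b1 : ℝ) / 10000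
  k0 : (r.k0 : ℝ) / 10000 ≤ k
  k1 : k ≤ (r.k1 : ℝ) / 10000
  s0 : (r.s0 : ℝ) / 10000 ≤ T + k
  s1 : T + k ≤ (r.s1 : ℝ) / 10000
  sl : (r.sl : ℝ) / 10000 ≤ x + B
  sc : x + B ≤ (r.sc : ℝ) / 10000

/-- the bound -/
noncomputable def bd (r : Row) (T k : ℝ) : ℝ :=
  r.g / 10000 + r.lam / 1000 * k + r.ct / 1000 * T

section
open NumIs NumIs.E

/-- the box -/
def box (r : Row) : List V :=
  [V.of 10000 r.x0 r.x1, V.of 10000 r.t0 r.t1, V.of 10000 r.b0 r.b1, V.of 10000 r.k0 r.k1]

/-- the box in the coordinate `X = x + B`, for `X` between `lo` and `hi` -/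
def boxX (r : Row) (lo hi : ℤ) : List V :=
  [V.of 10000 r.x0 r.x1, V.of 10000 r.t0 r.t1,
    V.of 10000 (max (max (r.x0 + r.b0) r.sl) lo) (min (min (r.x1 + r.b1) r.sc) hi),
    V.of 10000 r.k0 r.k1]

def eB (r : Row) : E :=
  E.add (E.add (E.q r.g 10000) (E.mul (E.q r.lam 1000) (E.var 3))) (E.mul (E.q r.ct 1000) (E.var 1))

theorem eB_val (r : Row) (x T Z k : ℝ) : r.eB.val [x, T, Z, k] = r.bd T k := by
  simp [eB, bd, E.val, lkR]

/-- the escapes -/
def esc (r : Row) : List E :=
  [E.sub (E.add (E.var 0) (E.var 2)) (E.q r.sc 10000),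
    E.sub (E.q r.sl 10000) (E.add (E.var 0) (E.var 2)),
    E.sub (E.add (E.var 1) (E.var 3)) (E.q r.s1 10000),
    E.sub (E.q r.s0 10000) (E.add (E.var 1) (E.var 3))]

/-- the escapes in the coordinate `x + B` -/
def escX (r : Row) : List E :=
  [E.sub (E.add (E.var 1) (E.var 3)) (E.q r.s1 10000),
    E.sub (E.q r.s0 10000) (E.add (E.var 1) (E.var 3)),
    E.sub cX (E.q r.b1 10000), E.sub (E.q r.b0 10000) cX]

theorem esc_false {r : Row} {x T B k : ℝ} (h : r.In x T B k) :
    ¬ ∃ e ∈ r.esc, 0 < e.val [x, T, B, k] := by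
  rintro ⟨e, he, hp⟩
  simp only [esc, List.mem_cons, List.not_mem_nil, or_false] at he
  rcases he with rfl | rfl | rfl | rfl
  · have := h.sc
    simp [E.val, lkR] at hp
    linarith only [this, hp]
  · have := h.sl
    simp [E.val, lkR] at hp
    linarith only [this, hp]
  · have := h.s1
    simp [E.val, lkR] at hp
    linarith only [this, hp]
  · have := h.s0
    simp [E.val, lkR] at hp
    linarith only [this, hp]

theorem escX_false {r : Row} {x T B k : ℝ} (h : r.In x T B k) :
    ¬ ∃ e ∈ r.escX, 0 < e.val [x, T, x + B, k] := by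
  rintro ⟨e, he, hp⟩
  simp only [escX, List.mem_cons, List.not_mem_nil, or_false] at he
  rcases he with rfl | rfl | rfl | rfl
  · have := h.s1
    simp [E.val, lkR] at hp
    linarith only [this, hp]
  · have := h.s0
    simp [E.val, lkR] at hp
    linarith only [this, hp]
  · have := h.b1
    simp [E.val, lkR, cX] at hp
    linarith only [this, hp]
  · have := h.b0
    simp [E.val, lkR, cX] at hp
    linarith only [this, hp]

theorem mem_box {r : Row} {x T B k : ℝ} (h : r.In x T B k) :
    List.Forall₂ V.Mem r.box [x, T, B, k] :=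
  List.Forall₂.cons (V.of_mem (by norm_num) (by exact_mod_cast h.x0) (by exact_mod_cast h.x1))
    (List.Forall₂.cons (V.of_mem (by norm_num) (by exact_mod_cast h.t0) (by exact_mod_cast h.t1))
      (List.Forall₂.cons (V.of_mem (by norm_num) (by exact_mod_cast h.b0) (by exact_mod_cast h.b1))
        (List.Forall₂.cons (V.of_mem (by norm_num) (by exact_mod_cast h.k0)
          (by exact_mod_cast h.k1)) List.Forall₂.nil)))

theorem mem_boxX {r : Row} {x T B k : ℝ} (h : r.In x T B k) {lo hi : ℤ}
    (h0 : (lo : ℝ) / 10000 ≤ x + B) (h1 : x + B ≤ (hi : ℝ) / 10000) :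
    List.Forall₂ V.Mem (r.boxX lo hi) [x, T, x + B, k] := by
  have a0 := h.x0
  have a1 := h.x1
  have a2 := h.b0
  have a3 := h.b1
  have a4 := h.sl
  have a5 := h.sc
  refine List.Forall₂.cons (V.of_mem (by norm_num) (by exact_mod_cast h.x0)
    (by exact_mod_cast h.x1)) (List.Forall₂.cons (V.of_mem (by norm_num)
    (by exact_mod_cast h.t0) (by exact_mod_cast h.t1)) (List.Forall₂.cons
    (V.of_mem (by norm_num) ?_ ?_) (List.Forall₂.cons (V.of_mem (by norm_num)
    (by exact_mod_cast h.k0) (by exact_mod_cast h.k1)) List.Forall₂.nil)))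
  · push_cast
    rw [div_le_iff₀ (by norm_num)] at a0 a2 a4 h0 ⊢
    exact max_le (max_le (by linarith only [a0, a2]) a4) h0
  · push_cast
    rw [le_div_iff₀ (by norm_num)] at a1 a3 a5 h1 ⊢
    exact le_min (le_min (by linarith only [a1, a3]) a5) h1

/-- the side at slope `0` with `u` for `LL (w + v)` -/
def eF (s : Seg) (u : E) : E :=
  E.sub (E.add (E.mul E.pi (s.eH cX)) u) (E.lnA (E.var 0) (E.var 1))

def eF1 (s : Seg) : E := E.lnA (E.var 2) (E.add (E.var 1) (s.eH cX))
def eF2 (s : Seg) : E := E.lnA (E.sub (E.var 2) (E.q 1 1)) (E.add (E.var 1) (s.eH cX))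

end

end Row

/-! ### checks with certificates -/

open NumUs

/-- a check: `true` if it is void, the expressions, the box -/
abbrev Ck := Bool × List E × List NumIs.V

/-- the check is fine -/
def Ck.Ok (x : Ck) : Prop := x.1 = true ∨ ∃ c, chkT x.2.1 40 c x.2.2 = true

/-- checks with their certificates -/
def ckAll : List Ck → List ℕ → Bool
  | [], _ => true
  | _ :: _, [] => false
  | x :: xs, c :: cs => cond x.1 true (chkT x.2.1 40 c x.2.2) && ckAll xs cs

theorem ckAll_spec : ∀ {l : List Ck} {cs : List ℕ}, ckAll l cs = true → ∀ x ∈ l, x.Ok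
  | [], _, _, x, hx => absurd hx List.not_mem_nil
  | _ :: _, [], h, _, _ => absurd h (by simp [ckAll])
  | y :: ys, c :: cs, h, x, hx => by
    unfold ckAll at h
    rw [Bool.and_eq_true] at h
    rcases List.mem_cons.1 hx with rfl | hx
    · rcases hb : x.1 with _ | _
      · rw [hb, cond_false] at h
        exact Or.inr ⟨c, h.1⟩
      · exact Or.inl hb
    · exact ckAll_spec h.2 x hx

/-- the certificates (for `#eval` only) -/
def ckFind (l : List Ck) (fuel : ℕ) : Option (List ℕ × ℕ) :=
  l.foldr (fun x r => match r with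
    | none => none
    | some (cs, n) => if x.1 then some (0 :: cs, n) else
      match cert x.2.1 fuel x.2.2 with
      | none => none
      | some (k, c) => some (c :: cs, n + k)) (some ([], 0))

namespace Row

def esc' (r : Row) : List E := r.esc.map E.emb
def escX' (r : Row) : List E := r.escX.map E.emb

theorem esc'_false {r : Row} {x T B k : ℝ} (h : r.In x T B k) :
    ¬ ∃ e ∈ r.esc', 0 < e.val [x, T, B, k] := by
  rintro ⟨e, he, hp⟩
  obtain ⟨e', h1, rfl⟩ := List.mem_map.1 he
  exact esc_false h ⟨e', h1, hp⟩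

theorem escX'_false {r : Row} {x T B k : ℝ} (h : r.In x T B k) :
    ¬ ∃ e ∈ r.escX', 0 < e.val [x, T, x + B, k] := by
  rintro ⟨e, he, hp⟩
  obtain ⟨e', h1, rfl⟩ := List.mem_map.1 he
  exact escX_false h ⟨e', h1, hp⟩

/-- nothing between `lo` and `hi` -/
def void (r : Row) (lo hi : ℤ) : Bool :=
  decide (min (min (r.x1 + r.b1) r.sc) hi < max (max (r.x0 + r.b0) r.sl) lo)

theorem void_false {r : Row} {lo hi : ℤ} {x T B k : ℝ} (hr : r.In x T B k)
    (h0 : (lo : ℝ) / 10000 ≤ x + B) (h1 : x + B ≤ (hi : ℝ) / 10000) : r.void lo hi = false := by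
  unfold void
  rw [decide_eq_false_iff_not]
  intro h2
  have h3 : ((min (min (r.x1 + r.b1) r.sc) hi : ℤ) : ℝ) <
      ((max (max (r.x0 + r.b0) r.sl) lo : ℤ) : ℝ) := by
    exact_mod_cast h2
  push_cast at h3
  have a0 := hr.x0
  have a1 := hr.x1
  have a2 := hr.b0
  have a3 := hr.b1
  have a4 := hr.sl
  have a5 := hr.sc
  rw [div_le_iff₀ (by norm_num)] at a0 a2 a4 h0
  rw [le_div_iff₀ (by norm_num)] at a1 a3 a5 h1
  have h4 : (x + B) * 10000 ≤ min (min ((r.x1 : ℝ) + r.b1) r.sc) hi :=
    le_min (le_min (by linarith only [a1, a3]) a5) h1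
  have h5 : max (max ((r.x0 : ℝ) + r.b0) r.sl) lo ≤ (x + B) * 10000 :=
    max_le (max_le (by linarith only [a0, a2]) a4) h0
  linarith only [h3, h4, h5]

/-- a check in the coordinate `B` -/
def ckB (r : Row) (e : E) : Ck := (false, e :: r.esc', r.box)

/-- a check in the coordinate `x + B` -/
def ckX (r : Row) (e : E) (es : List E) (lo hi : ℤ) : Ck :=
  (r.void lo hi, e :: (r.escX' ++ es), r.boxX lo hi)

theorem ckB_pos {r : Row} {e : E} (h : (r.ckB e).Ok) {x T B k : ℝ} (hr : r.In x T B k) :
    0 < e.val [x, T, B, k] := by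
  rcases h with h | ⟨c, h⟩
  · exact absurd h (by simp [ckB])
  · obtain ⟨e', he, hp⟩ := chkT_sound h (mem_box hr)
    rcases List.mem_cons.1 he with rfl | he
    · exact hp
    · exact absurd ⟨e', he, hp⟩ (esc'_false hr)

theorem ckX_pos {r : Row} {e : E} {es : List E} {lo hi : ℤ} (h : (r.ckX e es lo hi).Ok)
    {x T B k : ℝ} (hr : r.In x T B k) (h0 : (lo : ℝ) / 10000 ≤ x + B)
    (h1 : x + B ≤ (hi : ℝ) / 10000) (hes : ∀ e ∈ es, e.val [x, T, x + B, k] ≤ 0) :
    0 < e.val [x, T, x + B, k] := by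
  rcases h with h | ⟨c, h⟩
  · have := void_false hr h0 h1
    unfold ckX at h
    simp only at h
    rw [this] at h
    exact absurd h (by decide)
  · obtain ⟨e', he, hp⟩ := chkT_sound h (mem_boxX hr h0 h1)
    rcases List.mem_cons.1 he with rfl | he
    · exact hp
    · rcases List.mem_append.1 he with he | he
      · exact absurd ⟨e', he, hp⟩ (escX'_false hr)
      · exact absurd hp (not_lt.2 (hes e' he))

/-- the checks of an upper bound of the side -/
def cksD (r : Row) (o : Own) (s : Seg) : List Ck :=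
  cond (decide (min (r.x1 + r.b1) r.sc ≤ 9900))
    [r.ckB (E.emb (NumIs.E.sub r.eB
      (MR.e1 o.eM (NumIs.E.var 0) o.eT (NumIs.E.var 2) (s.eH cB))))]
    (match o with
      | .R _ _ => [(false, [], [])]
      | .F => [r.ckX (E.emb (NumIs.E.sub r.eB (eF s (eF1 s)))) [] 0 9700,
          r.ckX (E.emb (NumIs.E.sub r.eB (eF s (NumIs.E.q 0 1)))) [] 9700 10300,
          r.ckX (E.emb (NumIs.E.sub r.eB (eF s (eF2 s)))) [] 10300 20000])

theorem chkT_nil (n c : ℕ) (vs : List NumIs.V) : chkT [] n c vs = false := by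
  by_contra h
  rw [Bool.not_eq_false] at h
  have key : ∀ (n c : ℕ) (vs : List NumIs.V), runT [] n c vs = 0 := by
    intro n
    induction n with
    | zero => intro c vs; rfl
    | succ n ih =>
      intro c vs
      unfold runT
      rcases hb : Nat.ble 8 (Nat.mod c 16) with _ | _
      · rw [cond_false, ih]
      · rw [cond_true]
        have : NumIs.posO ((nth [] (Nat.sub (Nat.mod c 16) 8)).ev (NumIs.mkEnv 0 vs)) = false := by
          rw [Bool.eq_false_iff]
          intro hp
          rcases h2 : (nth [] (Nat.sub (Nat.mod c 16) 8)).ev (NumIs.mkEnv 0 vs) with _ | u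
          · rw [h2] at hp; exact absurd hp (by simp [NumIs.posO])
          · simp only [nth, E.ev] at h2
            rw [Option.some.injEq] at h2
            rw [show (nth [] (Nat.sub (Nat.mod c 16) 8)).ev (NumIs.mkEnv 0 vs) = some u by
              simp only [nth, E.ev, h2], ← h2] at hp
            revert hp
            decide
        rw [this, cond_false]
  unfold chkT at h
  rw [key] at h
  exact absurd h (by decide)

/-- a side row with regimes -/
theorem soundD {r : Row} {o : Own} {s : Seg} (h : ∀ x ∈ r.cksD o s, x.Ok) {w v : ℂ} {T k : ℝ}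
    (hr : r.In w.re T v.re k) (hw : w ∈ strip) (hv : 0 ≤ v.re) (hX : w.re + v.re ≤ 19 / 10)
    (hwi : w.im = o.t w.re T)
    (hvi : v.im = s.h v.re k) (hτ : |w.im + v.im| ≤ 15 / 100) :
    S1 1 (o.m T) w v < r.bd T k := by
  unfold cksD at h
  rcases hd : decide (min (r.x1 + r.b1) r.sc ≤ 9900) with _ | _
  · rw [hd, cond_false] at h
    cases o with
    | R a b =>
      exfalso
      rcases h (false, [], []) (by simp) with h1 | ⟨c, h1⟩
      · exact absurd h1 (by simp)
      · rw [chkT_nil] at h1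
        exact absurd h1 (by simp)
    | F =>
      simp only at h
      have h1 := h _ List.mem_cons_self
      have h2 := h _ (List.mem_cons_of_mem _ List.mem_cons_self)
      have h3 := h _ (List.mem_cons_of_mem _ (List.mem_cons_of_mem _ List.mem_cons_self))
      have e : S1 1 (Own.F.m T) w v = Real.pi * s.h v.re k + LL (w + v) - NumIs.lnA w.re T := by
        have e1 : w.im = T := hwi
        unfold S1
        rw [Num.LL_lnA hw, e1, hvi]
        simp only [Own.m]
        ring
      rw [e]
      have e2 : w.im = T := hwi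
      rcases le_total (w.re + v.re) (97 / 100) with a1 | a1
      · have h4 := ckX_pos h1 hr (by norm_num; linarith only [hv, hw, hw.1]) (by norm_num; linarith only [a1]) (by simp)
        simp only [E.val, eF, eF1, NumIs.E.val, eB_val, Seg.eH_val, cX_val] at h4
        simp only [NumIs.lkR] at h4
        have hu : w + v ∈ strip := ⟨by simp; linarith only [hv, hw, hw.1], by simp; linarith only [a1]⟩
        rw [Num.LL_lnA hu, Complex.add_re, Complex.add_im, e2, hvi]
        linarith only [h4]
      rcases le_total (w.re + v.re) (103 / 100) with a2 | a2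
      · have h4 := ckX_pos h2 hr (by norm_num; linarith only [a1]) (by norm_num; linarith only [a2]) (by simp)
        simp only [E.val, eF, NumIs.E.val, eB_val, Seg.eH_val, cX_val] at h4
        simp only [NumIs.lkR] at h4
        norm_num at h4
        have h5 : LL (w + v) = LL ⟨w.re + v.re - 1, w.im + v.im⟩ := by
          have h6 : w + v = ⟨w.re + v.re - 1, w.im + v.im⟩ + 1 := by
            apply Complex.ext <;> simp
          rw [h6, LL_add_one]
        rw [h5]
        have h7 := UA.LL_nonpos kc_3_15 (by norm_num) (s := w.re + v.re - 1)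
          (abs_le.2 ⟨by linarith only [a1], by linarith only [a2]⟩) hτ
        linarith only [h4, h7]
      · have h4 := ckX_pos h3 hr (by norm_num; linarith only [a2]) (by norm_num; linarith only [hX]) (by simp)
        simp only [E.val, eF, eF2, NumIs.E.val, eB_val, Seg.eH_val, cX_val] at h4
        simp only [NumIs.lkR] at h4
        norm_num at h4
        have h5 : LL (w + v) = LL ⟨w.re + v.re - 1, w.im + v.im⟩ := by
          have h6 : w + v = ⟨w.re + v.re - 1, w.im + v.im⟩ + 1 := by
            apply Complex.ext <;> simp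
          rw [h6, LL_add_one]
        have hu : (⟨w.re + v.re - 1, w.im + v.im⟩ : ℂ) ∈ strip :=
          ⟨by simp; linarith only [a2], by simp; linarith only [hX]⟩
        rw [h5, Num.LL_lnA hu, e2, hvi]
        linarith only [h4]
  · rw [hd, cond_true] at h
    have h1 := of_decide_eq_true hd
    have h2 : w.re + v.re ≤ 99 / 100 := by
      have a1 := hr.x1
      have a3 := hr.b1
      have a5 := hr.sc
      have h3 : ((min (r.x1 + r.b1) r.sc : ℤ) : ℝ) ≤ 9900 := by exact_mod_cast h1
      push_cast at h3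
      rw [le_div_iff₀ (by norm_num)] at a1 a3 a5
      rcases min_le_iff.1 h3 with h4 | h4
      · linarith only [a1, a3, h4]
      · linarith only [a5, h4]
    have hu : w + v ∈ strip := ⟨by simp; linarith only [hv, hw, hw.1], by simp; linarith only [h2]⟩
    rw [MR.S1_eq _ hw hu, hwi, hvi]
    have h4 := ckB_pos (h _ List.mem_cons_self) hr
    simp only [E.val, NumIs.E.val, MR.e1_val, eB_val, Own.eM_val, Own.eT_val, Seg.eH_val,
      cB_val] at h4
    simp only [NumIs.lkR] at h4
    linarith only [h4]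

end Row

/-! ### value rows -/

/-- `V1 (x + i h) (B + i k) - V1 (c + i hc) (B + i k)` -/
noncomputable def dv (c hc x h B k : ℝ) : ℝ :=
  Real.pi * ((x - c) * k + (h - hc) * (B - 1)) + (uu (x + B) (h + k) - uu (c + B) (hc + k) +
    (uu c hc - uu x h))

/-- the expression of `dv` with `u` for `uu (x + B) (h + k)` -/
def eV (o : Own) (s : Seg) (c cf : ℕ) (B : NumIs.E) (u : E) : E :=
  E.add (E.mul E.pi (E.add
      (E.mul (E.sub (E.var 0) (E.q c 1000)) (E.emb (s.eH B)))
      (E.mul (E.sub (E.emb o.eT) (E.mul (E.q cf 1000) (E.var 1))) (E.sub (E.emb B) (E.q 1 1)))))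
    (E.add (E.sub u (E.uu (E.add (E.q c 1000) (E.emb B))
        (E.add (E.mul (E.q cf 1000) (E.var 1)) (E.emb (s.eH B)))))
      (E.sub (E.uu (E.q c 1000) (E.mul (E.q cf 1000) (E.var 1))) (E.uu (E.var 0) (E.emb o.eT))))

/-- the height of `x + B` -/
def eTau (o : Own) (s : Seg) (B : NumIs.E) : E := E.add (E.emb o.eT) (E.emb (s.eH B))

def uB (o : Own) (s : Seg) : E := E.uu (E.add (E.var 0) (E.var 2)) (eTau o s cB)
def uA (o : Own) (s : Seg) : E := E.uu (E.var 2) (eTau o s cX)
def uN (o : Own) (s : Seg) : E := E.uu (E.q 995 1000) (eTau o s cX)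
def uO (o : Own) (s : Seg) (σ : ℤ) : E := E.mul (E.mul E.pi (E.q σ 2)) (eTau o s cX)
def uR (o : Own) (s : Seg) (σ : ℤ) : E :=
  E.add (E.uu (E.sub (E.var 2) (E.q 1 1)) (eTau o s cX))
    (E.mul (E.mul E.pi (E.q σ 1)) (eTau o s cX))

namespace Row

/-- the checks of an upper bound of the change of the value -/
def cksV (r : Row) (o : Own) (s : Seg) (c cf : ℕ) : List Ck :=
  cond (decide (r.x1 + r.b1 ≤ 9900))
    [r.ckB (E.sub (E.emb r.eB) (eV o s c cf cB (uB o s)))]
    [r.ckX (E.sub (E.emb r.eB) (eV o s c cf cX (uA o s))) [] 0 9950,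
      r.ckX (E.sub (E.emb r.eB) (eV o s c cf cX (uN o s))) [] 9950 10000,
      r.ckX (E.sub (E.emb r.eB) (eV o s c cf cX (uO o s 1))) [E.neg (eTau o s cX)] 10000 10050,
      r.ckX (E.sub (E.emb r.eB) (eV o s c cf cX (uO o s (-1)))) [eTau o s cX] 10000 10050,
      r.ckX (E.sub (E.emb r.eB) (eV o s c cf cX (uR o s 1))) [E.neg (eTau o s cX)] 10050 20000,
      r.ckX (E.sub (E.emb r.eB) (eV o s c cf cX (uR o s (-1)))) [eTau o s cX] 10050 20000]

theorem eV_val {o : Own} {s : Seg} {c cf : ℕ} {B : NumIs.E} {u : E} {x T Z k Bv : ℝ}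
    (hB : B.val [x, T, Z, k] = Bv) : (eV o s c cf B u).val [x, T, Z, k] =
      Real.pi * ((x - c / 1000) * (s.h Bv k) + (o.t x T - cf / 1000 * T) * (Bv - 1)) +
        (u.val [x, T, Z, k] - uu (c / 1000 + Bv) (cf / 1000 * T + s.h Bv k) +
          (uu (c / 1000) (cf / 1000 * T) - uu x (o.t x T))) := by
  simp only [eV, E.val, Own.eT_val, Seg.eH_val, hB]
  simp only [NumIs.lkR]
  push_cast
  ring_nf

theorem eTau_val {o : Own} {s : Seg} {B : NumIs.E} {x T Z k Bv : ℝ}
    (hB : B.val [x, T, Z, k] = Bv) : (eTau o s B).val [x, T, Z, k] = o.t x T + s.h Bv k := by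
  simp only [eTau, E.val, Own.eT_val, Seg.eH_val, hB]

theorem ckV_pos {r : Row} {o : Own} {s : Seg} {c cf : ℕ} {u : E} {es : List E} {lo hi : ℤ}
    (h : (r.ckX (E.sub (E.emb r.eB) (eV o s c cf cX u)) es lo hi).Ok)
    {x T B k : ℝ} (hr : r.In x T B k)
    (h0 : (lo : ℝ) / 10000 ≤ x + B) (h1 : x + B ≤ (hi : ℝ) / 10000)
    (hes : ∀ e ∈ es, e.val [x, T, x + B, k] ≤ 0)
    (hu : uu (x + B) (o.t x T + s.h B k) ≤ u.val [x, T, x + B, k]) :
    dv (c / 1000) (cf / 1000 * T) x (o.t x T) B (s.h B k) < r.bd T k := by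
  have hp := ckX_pos h hr h0 h1 hes
  rw [E.val, eV_val (cX_val x T B k), E.val, eB_val] at hp
  unfold dv
  linarith only [hu, hp]

theorem soundV {r : Row} {o : Own} {s : Seg} {c cf : ℕ} (h : ∀ x ∈ r.cksV o s c cf, x.Ok)
    {x T B k : ℝ} (hr : r.In x T B k) (hX : x + B ≤ 2) (hX0 : 0 ≤ x + B)
    (hτ : |o.t x T + s.h B k| ≤ 15 / 100) :
    dv (c / 1000) (cf / 1000 * T) x (o.t x T) B (s.h B k) < r.bd T k := by
  unfold cksV at h
  rcases hd : decide (r.x1 + r.b1 ≤ 9900) with _ | _
  · rw [hd, cond_false] at h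
    have h1 := h _ List.mem_cons_self
    have h2 := h _ (List.mem_cons_of_mem _ List.mem_cons_self)
    have h3 := h _ (List.mem_cons_of_mem _ (List.mem_cons_of_mem _ List.mem_cons_self))
    have h4 := h _ (List.mem_cons_of_mem _ (List.mem_cons_of_mem _ (List.mem_cons_of_mem _
      List.mem_cons_self)))
    have h5 := h _ (List.mem_cons_of_mem _ (List.mem_cons_of_mem _ (List.mem_cons_of_mem _
      (List.mem_cons_of_mem _ List.mem_cons_self))))
    have h6 := h _ (List.mem_cons_of_mem _ (List.mem_cons_of_mem _ (List.mem_cons_of_mem _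
      (List.mem_cons_of_mem _ (List.mem_cons_of_mem _ List.mem_cons_self)))))
    rcases le_total (x + B) (995 / 1000) with a1 | a1
    · refine ckV_pos h1 hr (by norm_num; linarith only [hX0]) (by norm_num; linarith only [a1]) (by simp) ?_
      simp only [uA, E.val, eTau_val (cX_val x T B k)]
      simp only [NumIs.lkR]
      exact le_rfl
    rcases le_total (x + B) 1 with a2 | a2
    · refine ckV_pos h2 hr (by norm_num; linarith only [a1]) (by norm_num; linarith only [a2]) (by simp) ?_
      simp only [uN, E.val, eTau_val (cX_val x T B k)]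
      push_cast
      exact UA.anti1 UA.kc_2_15 (by norm_num) (by norm_num) a1 (by linarith only [a2]) hτ
    rcases le_total (x + B) (1005 / 1000) with a3 | a3
    · have h7 : uu (x + B) (o.t x T + s.h B k) ≤ Real.pi / 2 * |o.t x T + s.h B k| :=
        UA.le_right UA.kc_2_15 (by norm_num) a2 (by linarith only [a3]) hτ
      rcases le_total 0 (o.t x T + s.h B k) with h8 | h8
      · refine ckV_pos h3 hr (by norm_num; linarith only [a2]) (by norm_num; linarith only [a3]) ?_ ?_
        · intro e he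
          rw [List.mem_singleton] at he
          subst he
          rw [E.val, eTau_val (cX_val x T B k)]
          linarith only [h8]
        · simp only [uO, E.val, eTau_val (cX_val x T B k)]
          rw [abs_of_nonneg h8] at h7
          push_cast
          linarith only [h7]
      · refine ckV_pos h4 hr (by norm_num; linarith only [a2]) (by norm_num; linarith only [a3]) ?_ ?_
        · intro e he
          rw [List.mem_singleton] at he
          subst he
          rw [eTau_val (cX_val x T B k)]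
          exact h8
        · simp only [uO, E.val, eTau_val (cX_val x T B k)]
          rw [abs_of_nonpos h8] at h7
          push_cast
          linarith only [h7]
    · have h7 : uu (x + B) (o.t x T + s.h B k) = uu (x + B - 1) (o.t x T + s.h B k) +
          Real.pi * |o.t x T + s.h B k| := by
        rw [← uu_add_one, sub_add_cancel]
      rcases le_total 0 (o.t x T + s.h B k) with h8 | h8
      · refine ckV_pos h5 hr (by norm_num; linarith only [a3]) (by norm_num; linarith only [hX]) ?_ ?_
        · intro e he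
          rw [List.mem_singleton] at he
          subst he
          rw [E.val, eTau_val (cX_val x T B k)]
          linarith only [h8]
        · simp only [uR, E.val, eTau_val (cX_val x T B k)]
          simp only [NumIs.lkR]
          rw [abs_of_nonneg h8] at h7
          push_cast
          norm_num
          linarith only [h7]
      · refine ckV_pos h6 hr (by norm_num; linarith only [a3]) (by norm_num; linarith only [hX]) ?_ ?_
        · intro e he
          rw [List.mem_singleton] at he
          subst he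
          rw [eTau_val (cX_val x T B k)]
          exact h8
        · simp only [uR, E.val, eTau_val (cX_val x T B k)]
          simp only [NumIs.lkR]
          rw [abs_of_nonpos h8] at h7
          push_cast
          norm_num
          linarith only [h7]
  · rw [hd, cond_true] at h
    have hp := ckB_pos (h _ List.mem_cons_self) hr
    rw [E.val, eV_val (cB_val x T B k), E.val, eB_val] at hp
    simp only [uB, E.val, eTau_val (cB_val x T B k)] at hp
    simp only [NumIs.lkR] at hp
    unfold dv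
    linarith only [hp]

end Row

end OR

end Pool.Agent.Work.MP_b30479_gtS.G2

end
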