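import Pool.Agent.Work.MP_b30479_gt.TBS.NumU.Tree
import Pool.Agent.Work.MP_b30479_gt.TBS.G2.MRBase
import Pool.Agent.Work.MP_b30479_gt.TBS.NumU.Node

section

/-!
# Part of `C23R`
-/
set_option linter.unusedSimpArgs false
set_option linter.unusedVariables false
set_option linter.unusedTactic false

set_option deprecated.oldSectionVars true

namespace Pool.Agent.Work.MP_b30479_gtS.G2

namespace C23

open NumUs
open NumUs.E (emb)
open NumIs (V)

/-- 9 boxes -/
theorem s27ia {x T s k : ℝ} (a0 : 3300 / 10000 ≤ x) (b0 : x ≤ 3600 / 10000) (a1 : -50 / 10000 ≤ T) (b1 : T ≤ 570 / 10000)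
    (a2 : 700 / 10000 ≤ s) (b2 : s ≤ 1250 / 10000) (a3 : -1075 / 10000 ≤ k) (b3 : k ≤ 960 / 10000)
    :
    0 < (((-20 / 1000) - ((300 / 100) * (x - (330 / 1000)))) - ((MR.s2 ((-100 / 27) * T) x (T *
      ((100 / 27) * ((6 / 10) - x))) s ((8 * k) * s)) + (((-100 / 27) * T) * ((1 / 2) *
      Real.pi)))) := by
  have h : chkT [(emb (.sub (.sub (.q (-20) 1000) (.mul (.q 300 100) (.sub (.var 0) (.q 330 1000)))) (.add
      (MR.e2 (.mul (.q (-100) 27) (.var 1)) (.var 0) (.mul (.var 1) (.mul (.q 100 27) (.sub (.q 6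
      10) (.var 0)))) (.var 2) (.mul (.mul (.q 8 1) (.var 3)) (.var 2))) (.mul (.mul (.q (-100)
      27) (.var 1)) (.mul (.q 1 2) .pi)))))] 22
      156835606907284784003
      [V.of 10000 3300 3600 0, V.of 10000 (-50) 570 0, V.of 10000 700 1250 0, V.of 10000 (-1075)
        960 0] = true := by
    decide +kernel
  obtain ⟨f, hf, hp⟩ := chkT4 h (by norm_num) (x := x) (y := T) (z := s) (w := k)
    (le_trans (by norm_num) a0) (le_trans b0 (by norm_num))
    (le_trans (by norm_num) a1) (le_trans b1 (by norm_num))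
    (le_trans (by norm_num) a2) (le_trans b2 (by norm_num))
    (le_trans (by norm_num) a3) (le_trans b3 (by norm_num))
  simp only [List.mem_cons, List.not_mem_nil, or_false] at hf
  subst hf
  simp only [MR.e2_val, MR.en2_val, MR.eb2_val, NumUs.E.val, NumIs.E.val, NumIs.lkR] at hp
  push_cast at hp
  try simp only [div_one] at hp
  linarith only [hp]

/-- 54 boxes -/
theorem s27ib {x T s k : ℝ} (a0 : 3300 / 10000 ≤ x) (b0 : x ≤ 3600 / 10000) (a1 : -50 / 10000 ≤ T) (b1 : T ≤ 570 / 10000)
    (a2 : 1250 / 10000 ≤ s) (b2 : s ≤ 6000 / 10000) (a3 : -985 / 10000 ≤ k) (b3 : k ≤ 960 / 10000)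
    (c0 : (x + s) - (94 / 100) ≤ 0) :
    0 < (((-20 / 1000) - ((300 / 100) * (x - (330 / 1000)))) - ((MR.s2 ((-100 / 27) * T) x (T *
      ((100 / 27) * ((6 / 10) - x))) s k) + (((-100 / 27) * T) * ((1 / 2) * Real.pi)))) := by
  have h : chkT [(emb (.sub (.sub (.q (-20) 1000) (.mul (.q 300 100) (.sub (.var 0) (.q 330 1000)))) (.add
      (MR.e2 (.mul (.q (-100) 27) (.var 1)) (.var 0) (.mul (.var 1) (.mul (.q 100 27) (.sub (.q 6
      10) (.var 0)))) (.var 2) (.var 3)) (.mul (.mul (.q (-100) 27) (.var 1)) (.mul (.q 1 2)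
      .pi))))), (emb (.sub (.add (.var 0) (.var 2)) (.q 94 100)))] 22
      368504473618334958067827323346110852308797447612393502025209332853156306601135233557412236723014979606236403732058498511474492194
      [V.of 10000 3300 3600 0, V.of 10000 (-50) 570 0, V.of 10000 1250 6000 0, V.of 10000 (-985)
        960 0] = true := by
    decide +kernel
  obtain ⟨f, hf, hp⟩ := chkT4 h (by norm_num) (x := x) (y := T) (z := s) (w := k)
    (le_trans (by norm_num) a0) (le_trans b0 (by norm_num))
    (le_trans (by norm_num) a1) (le_trans b1 (by norm_num))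
    (le_trans (by norm_num) a2) (le_trans b2 (by norm_num))
    (le_trans (by norm_num) a3) (le_trans b3 (by norm_num))
  simp only [List.mem_cons, List.not_mem_nil, or_false] at hf
  rcases hf with rfl | rfl
  · simp only [MR.e2_val, MR.en2_val, MR.eb2_val, NumUs.E.val, NumIs.E.val, NumIs.lkR] at hp
    push_cast at hp
    try simp only [div_one] at hp
    linarith only [hp]
  · simp only [MR.e2_val, MR.en2_val, MR.eb2_val, NumUs.E.val, NumIs.E.val, NumIs.lkR] at hp
    push_cast at hp
    try simp only [div_one] at hp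
    exfalso
    linarith only [c0, hp]

/-- 1 boxes -/
theorem s27icp {x T s k : ℝ} (a0 : 3300 / 10000 ≤ x) (b0 : x ≤ 3600 / 10000) (a1 : -50 / 10000 ≤ T) (b1 : T ≤ 570 / 10000)
    (a2 : 5800 / 10000 ≤ s) (b2 : s ≤ 6000 / 10000) (a3 : -985 / 10000 ≤ k) (b3 : k ≤ 960 / 10000)
    (c0 : (x + s) - (106 / 100) ≤ 0) (c1 : (94 / 100) - (x + s) ≤ 0) (c2 : k - ((11 / 1000) +
    ((320 / 1000) * ((63 / 100) - s))) ≤ 0) (c3 : (-k) - ((340 / 1000) * ((80 / 100) - s)) ≤ 0)
    (c4 : T ≤ 0) :
    0 < (((-20 / 1000) - ((300 / 100) * (x - (330 / 1000)))) - ((MR.n2 0 1 ((-100 / 27) * T) x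
      (T * ((100 / 27) * ((6 / 10) - x))) s k) + (((-100 / 27) * T) * ((1 / 2) * Real.pi)))) := by
  have h : chkT [(emb (.sub (.sub (.q (-20) 1000) (.mul (.q 300 100) (.sub (.var 0) (.q 330 1000)))) (.add
      (MR.en2 (.q 0 1) (.q 1 1) (.mul (.q (-100) 27) (.var 1)) (.var 0) (.mul (.var 1) (.mul (.q
      100 27) (.sub (.q 6 10) (.var 0)))) (.var 2) (.var 3)) (.mul (.mul (.q (-100) 27) (.var 1))
      (.mul (.q 1 2) .pi))))), (emb (.sub (.add (.var 0) (.var 2)) (.q 106 100))), (emb (.sub (.q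
      94 100) (.add (.var 0) (.var 2)))), (emb (.sub (.var 3) (.add (.q 11 1000) (.mul (.q 320
      1000) (.sub (.q 63 100) (.var 2)))))), (emb (.sub (.neg (.var 3)) (.mul (.q 340 1000) (.sub
      (.q 80 100) (.var 2))))), (emb (.var 1))] 22
      8
      [V.of 10000 3300 3600 0, V.of 10000 (-50) 570 0, V.of 10000 5800 6000 0, V.of 10000 (-985)
        960 0] = true := by
    decide +kernel
  obtain ⟨f, hf, hp⟩ := chkT4 h (by norm_num) (x := x) (y := T) (z := s) (w := k)
    (le_trans (by norm_num) a0) (le_trans b0 (by norm_num))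
    (le_trans (by norm_num) a1) (le_trans b1 (by norm_num))
    (le_trans (by norm_num) a2) (le_trans b2 (by norm_num))
    (le_trans (by norm_num) a3) (le_trans b3 (by norm_num))
  simp only [List.mem_cons, List.not_mem_nil, or_false] at hf
  rcases hf with rfl | rfl | rfl | rfl | rfl | rfl
  · simp only [MR.e2_val, MR.en2_val, MR.eb2_val, NumUs.E.val, NumIs.E.val, NumIs.lkR] at hp
    push_cast at hp
    try simp only [div_one] at hp
    linarith only [hp]
  · simp only [MR.e2_val, MR.en2_val, MR.eb2_val, NumUs.E.val, NumIs.E.val, NumIs.lkR] at hp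
    push_cast at hp
    try simp only [div_one] at hp
    exfalso
    linarith only [b0, b2, hp]
  · simp only [MR.e2_val, MR.en2_val, MR.eb2_val, NumUs.E.val, NumIs.E.val, NumIs.lkR] at hp
    push_cast at hp
    try simp only [div_one] at hp
    exfalso
    linarith only [c1, hp]
  · simp only [MR.e2_val, MR.en2_val, MR.eb2_val, NumUs.E.val, NumIs.E.val, NumIs.lkR] at hp
    push_cast at hp
    try simp only [div_one] at hp
    exfalso
    linarith only [c2, hp]
  · simp only [MR.e2_val, MR.en2_val, MR.eb2_val, NumUs.E.val, NumIs.E.val, NumIs.lkR] at hp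
    push_cast at hp
    try simp only [div_one] at hp
    exfalso
    linarith only [c3, hp]
  · simp only [MR.e2_val, MR.en2_val, MR.eb2_val, NumUs.E.val, NumIs.E.val, NumIs.lkR] at hp
    push_cast at hp
    try simp only [div_one] at hp
    exfalso
    linarith only [c4, hp]

/-- 1 boxes -/
theorem s27icn {x T s k : ℝ} (a0 : 3300 / 10000 ≤ x) (b0 : x ≤ 3600 / 10000) (a1 : -50 / 10000 ≤ T) (b1 : T ≤ 570 / 10000)
    (a2 : 5800 / 10000 ≤ s) (b2 : s ≤ 6000 / 10000) (a3 : -985 / 10000 ≤ k) (b3 : k ≤ 960 / 10000)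
    (c0 : (x + s) - (106 / 100) ≤ 0) (c1 : (94 / 100) - (x + s) ≤ 0) (c2 : k - ((11 / 1000) +
    ((320 / 1000) * ((63 / 100) - s))) ≤ 0) (c3 : (-k) - ((340 / 1000) * ((80 / 100) - s)) ≤ 0)
    (c4 : -T ≤ 0) :
    0 < (((-20 / 1000) - ((300 / 100) * (x - (330 / 1000)))) - ((MR.n2 0 (-1) ((-100 / 27) * T)
      x (T * ((100 / 27) * ((6 / 10) - x))) s k) + (((-100 / 27) * T) * ((1 / 2) * Real.pi)))) := by
  have h : chkT [(emb (.sub (.sub (.q (-20) 1000) (.mul (.q 300 100) (.sub (.var 0) (.q 330 1000)))) (.add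
      (MR.en2 (.q 0 1) (.q (-1) 1) (.mul (.q (-100) 27) (.var 1)) (.var 0) (.mul (.var 1) (.mul
      (.q 100 27) (.sub (.q 6 10) (.var 0)))) (.var 2) (.var 3)) (.mul (.mul (.q (-100) 27) (.var
      1)) (.mul (.q 1 2) .pi))))), (emb (.sub (.add (.var 0) (.var 2)) (.q 106 100))), (emb (.sub
      (.q 94 100) (.add (.var 0) (.var 2)))), (emb (.sub (.var 3) (.add (.q 11 1000) (.mul (.q 320
      1000) (.sub (.q 63 100) (.var 2)))))), (emb (.sub (.neg (.var 3)) (.mul (.q 340 1000) (.sub
      (.q 80 100) (.var 2))))), (emb (.neg (.var 1)))] 22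
      8
      [V.of 10000 3300 3600 0, V.of 10000 (-50) 570 0, V.of 10000 5800 6000 0, V.of 10000 (-985)
        960 0] = true := by
    decide +kernel
  obtain ⟨f, hf, hp⟩ := chkT4 h (by norm_num) (x := x) (y := T) (z := s) (w := k)
    (le_trans (by norm_num) a0) (le_trans b0 (by norm_num))
    (le_trans (by norm_num) a1) (le_trans b1 (by norm_num))
    (le_trans (by norm_num) a2) (le_trans b2 (by norm_num))
    (le_trans (by norm_num) a3) (le_trans b3 (by norm_num))
  simp only [List.mem_cons, List.not_mem_nil, or_false] at hf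
  rcases hf with rfl | rfl | rfl | rfl | rfl | rfl
  · simp only [MR.e2_val, MR.en2_val, MR.eb2_val, NumUs.E.val, NumIs.E.val, NumIs.lkR] at hp
    push_cast at hp
    try simp only [div_one] at hp
    linarith only [hp]
  · simp only [MR.e2_val, MR.en2_val, MR.eb2_val, NumUs.E.val, NumIs.E.val, NumIs.lkR] at hp
    push_cast at hp
    try simp only [div_one] at hp
    exfalso
    linarith only [b0, b2, hp]
  · simp only [MR.e2_val, MR.en2_val, MR.eb2_val, NumUs.E.val, NumIs.E.val, NumIs.lkR] at hp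
    push_cast at hp
    try simp only [div_one] at hp
    exfalso
    linarith only [c1, hp]
  · simp only [MR.e2_val, MR.en2_val, MR.eb2_val, NumUs.E.val, NumIs.E.val, NumIs.lkR] at hp
    push_cast at hp
    try simp only [div_one] at hp
    exfalso
    linarith only [c2, hp]
  · simp only [MR.e2_val, MR.en2_val, MR.eb2_val, NumUs.E.val, NumIs.E.val, NumIs.lkR] at hp
    push_cast at hp
    try simp only [div_one] at hp
    exfalso
    linarith only [c3, hp]
  · simp only [MR.e2_val, MR.en2_val, MR.eb2_val, NumUs.E.val, NumIs.E.val, NumIs.lkR] at hp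
    push_cast at hp
    try simp only [div_one] at hp
    exfalso
    linarith only [c4, hp]

/-- 13 boxes -/
theorem s27ha {x T s k : ℝ} (a0 : 3600 / 10000 ≤ x) (b0 : x ≤ 3700 / 10000) (a1 : -50 / 10000 ≤ T) (b1 : T ≤ 570 / 10000)
    (a2 : 700 / 10000 ≤ s) (b2 : s ≤ 1250 / 10000) (a3 : -1075 / 10000 ≤ k) (b3 : k ≤ 960 / 10000)
    :
    0 < ((-13 / 100) - ((MR.s2 ((-100 / 27) * T) x (T * ((100 / 27) * ((6 / 10) - x))) s ((8 *
      k) * s)) + (((-100 / 27) * T) * ((1 / 2) * Real.pi)))) := by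
  have h : chkT [(emb (.sub (.q (-13) 100) (.add (MR.e2 (.mul (.q (-100) 27) (.var 1)) (.var 0) (.mul (.var
      1) (.mul (.q 100 27) (.sub (.q 6 10) (.var 0)))) (.var 2) (.mul (.mul (.q 8 1) (.var 3))
      (.var 2))) (.mul (.mul (.q (-100) 27) (.var 1)) (.mul (.q 1 2) .pi)))))] 22
      674223030373429377114879263363
      [V.of 10000 3600 3700 0, V.of 10000 (-50) 570 0, V.of 10000 700 1250 0, V.of 10000 (-1075)
        960 0] = true := by
    decide +kernel
  obtain ⟨f, hf, hp⟩ := chkT4 h (by norm_num) (x := x) (y := T) (z := s) (w := k)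
    (le_trans (by norm_num) a0) (le_trans b0 (by norm_num))
    (le_trans (by norm_num) a1) (le_trans b1 (by norm_num))
    (le_trans (by norm_num) a2) (le_trans b2 (by norm_num))
    (le_trans (by norm_num) a3) (le_trans b3 (by norm_num))
  simp only [List.mem_cons, List.not_mem_nil, or_false] at hf
  subst hf
  simp only [MR.e2_val, MR.en2_val, MR.eb2_val, NumUs.E.val, NumIs.E.val, NumIs.lkR] at hp
  push_cast at hp
  try simp only [div_one] at hp
  linarith only [hp]

/-- 41 boxes -/
theorem s27hb {x T s k : ℝ} (a0 : 3600 / 10000 ≤ x) (b0 : x ≤ 3700 / 10000) (a1 : -50 / 10000 ≤ T) (b1 : T ≤ 570 / 10000)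
    (a2 : 1250 / 10000 ≤ s) (b2 : s ≤ 5800 / 10000) (a3 : -985 / 10000 ≤ k) (b3 : k ≤ 960 / 10000)
    (c0 : (x + s) - (94 / 100) ≤ 0) :
    0 < ((-13 / 100) - ((MR.s2 ((-100 / 27) * T) x (T * ((100 / 27) * ((6 / 10) - x))) s k) +
      (((-100 / 27) * T) * ((1 / 2) * Real.pi)))) := by
  have h : chkT [(emb (.sub (.q (-13) 100) (.add (MR.e2 (.mul (.q (-100) 27) (.var 1)) (.var 0) (.mul (.var
      1) (.mul (.q 100 27) (.sub (.q 6 10) (.var 0)))) (.var 2) (.var 3)) (.mul (.mul (.q (-100)
      27) (.var 1)) (.mul (.q 1 2) .pi))))), (emb (.sub (.add (.var 0) (.var 2)) (.q 94 100)))] 22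
      18168668581635092149988521609972221919994854737485326599076569433627694193110681613644161349813026
      [V.of 10000 3600 3700 0, V.of 10000 (-50) 570 0, V.of 10000 1250 5800 0, V.of 10000 (-985)
        960 0] = true := by
    decide +kernel
  obtain ⟨f, hf, hp⟩ := chkT4 h (by norm_num) (x := x) (y := T) (z := s) (w := k)
    (le_trans (by norm_num) a0) (le_trans b0 (by norm_num))
    (le_trans (by norm_num) a1) (le_trans b1 (by norm_num))
    (le_trans (by norm_num) a2) (le_trans b2 (by norm_num))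
    (le_trans (by norm_num) a3) (le_trans b3 (by norm_num))
  simp only [List.mem_cons, List.not_mem_nil, or_false] at hf
  rcases hf with rfl | rfl
  · simp only [MR.e2_val, MR.en2_val, MR.eb2_val, NumUs.E.val, NumIs.E.val, NumIs.lkR] at hp
    push_cast at hp
    try simp only [div_one] at hp
    linarith only [hp]
  · simp only [MR.e2_val, MR.en2_val, MR.eb2_val, NumUs.E.val, NumIs.E.val, NumIs.lkR] at hp
    push_cast at hp
    try simp only [div_one] at hp
    exfalso
    linarith only [c0, hp]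

/-- 1 boxes -/
theorem s27hcp {x T s k : ℝ} (a0 : 3600 / 10000 ≤ x) (b0 : x ≤ 3700 / 10000) (a1 : -50 / 10000 ≤ T) (b1 : T ≤ 570 / 10000)
    (a2 : 5700 / 10000 ≤ s) (b2 : s ≤ 6000 / 10000) (a3 : -985 / 10000 ≤ k) (b3 : k ≤ 960 / 10000)
    (c0 : (x + s) - (106 / 100) ≤ 0) (c1 : (94 / 100) - (x + s) ≤ 0) (c2 : k - ((11 / 1000) +
    ((320 / 1000) * ((63 / 100) - s))) ≤ 0) (c3 : (-k) - ((340 / 1000) * ((80 / 100) - s)) ≤ 0)
    (c4 : T ≤ 0) :
    0 < ((-13 / 100) - ((MR.n2 0 1 ((-100 / 27) * T) x (T * ((100 / 27) * ((6 / 10) - x))) s k)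
      + (((-100 / 27) * T) * ((1 / 2) * Real.pi)))) := by
  have h : chkT [(emb (.sub (.q (-13) 100) (.add (MR.en2 (.q 0 1) (.q 1 1) (.mul (.q (-100) 27) (.var 1))
      (.var 0) (.mul (.var 1) (.mul (.q 100 27) (.sub (.q 6 10) (.var 0)))) (.var 2) (.var 3))
      (.mul (.mul (.q (-100) 27) (.var 1)) (.mul (.q 1 2) .pi))))), (emb (.sub (.add (.var 0)
      (.var 2)) (.q 106 100))), (emb (.sub (.q 94 100) (.add (.var 0) (.var 2)))), (emb (.sub
      (.var 3) (.add (.q 11 1000) (.mul (.q 320 1000) (.sub (.q 63 100) (.var 2)))))), (emb (.sub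
      (.neg (.var 3)) (.mul (.q 340 1000) (.sub (.q 80 100) (.var 2))))), (emb (.var 1))] 22
      8
      [V.of 10000 3600 3700 0, V.of 10000 (-50) 570 0, V.of 10000 5700 6000 0, V.of 10000 (-985)
        960 0] = true := by
    decide +kernel
  obtain ⟨f, hf, hp⟩ := chkT4 h (by norm_num) (x := x) (y := T) (z := s) (w := k)
    (le_trans (by norm_num) a0) (le_trans b0 (by norm_num))
    (le_trans (by norm_num) a1) (le_trans b1 (by norm_num))
    (le_trans (by norm_num) a2) (le_trans b2 (by norm_num))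
    (le_trans (by norm_num) a3) (le_trans b3 (by norm_num))
  simp only [List.mem_cons, List.not_mem_nil, or_false] at hf
  rcases hf with rfl | rfl | rfl | rfl | rfl | rfl
  · simp only [MR.e2_val, MR.en2_val, MR.eb2_val, NumUs.E.val, NumIs.E.val, NumIs.lkR] at hp
    push_cast at hp
    try simp only [div_one] at hp
    linarith only [hp]
  · simp only [MR.e2_val, MR.en2_val, MR.eb2_val, NumUs.E.val, NumIs.E.val, NumIs.lkR] at hp
    push_cast at hp
    try simp only [div_one] at hp
    exfalso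
    linarith only [b0, b2, hp]
  · simp only [MR.e2_val, MR.en2_val, MR.eb2_val, NumUs.E.val, NumIs.E.val, NumIs.lkR] at hp
    push_cast at hp
    try simp only [div_one] at hp
    exfalso
    linarith only [c1, hp]
  · simp only [MR.e2_val, MR.en2_val, MR.eb2_val, NumUs.E.val, NumIs.E.val, NumIs.lkR] at hp
    push_cast at hp
    try simp only [div_one] at hp
    exfalso
    linarith only [c2, hp]
  · simp only [MR.e2_val, MR.en2_val, MR.eb2_val, NumUs.E.val, NumIs.E.val, NumIs.lkR] at hp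
    push_cast at hp
    try simp only [div_one] at hp
    exfalso
    linarith only [c3, hp]
  · simp only [MR.e2_val, MR.en2_val, MR.eb2_val, NumUs.E.val, NumIs.E.val, NumIs.lkR] at hp
    push_cast at hp
    try simp only [div_one] at hp
    exfalso
    linarith only [c4, hp]

/-- 1 boxes -/
theorem s27hcn {x T s k : ℝ} (a0 : 3600 / 10000 ≤ x) (b0 : x ≤ 3700 / 10000) (a1 : -50 / 10000 ≤ T) (b1 : T ≤ 570 / 10000)
    (a2 : 5700 / 10000 ≤ s) (b2 : s ≤ 6000 / 10000) (a3 : -985 / 10000 ≤ k) (b3 : k ≤ 960 / 10000)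
    (c0 : (x + s) - (106 / 100) ≤ 0) (c1 : (94 / 100) - (x + s) ≤ 0) (c2 : k - ((11 / 1000) +
    ((320 / 1000) * ((63 / 100) - s))) ≤ 0) (c3 : (-k) - ((340 / 1000) * ((80 / 100) - s)) ≤ 0)
    (c4 : -T ≤ 0) :
    0 < ((-13 / 100) - ((MR.n2 0 (-1) ((-100 / 27) * T) x (T * ((100 / 27) * ((6 / 10) - x))) s
      k) + (((-100 / 27) * T) * ((1 / 2) * Real.pi)))) := by
  have h : chkT [(emb (.sub (.q (-13) 100) (.add (MR.en2 (.q 0 1) (.q (-1) 1) (.mul (.q (-100) 27) (.var 1))
      (.var 0) (.mul (.var 1) (.mul (.q 100 27) (.sub (.q 6 10) (.var 0)))) (.var 2) (.var 3))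
      (.mul (.mul (.q (-100) 27) (.var 1)) (.mul (.q 1 2) .pi))))), (emb (.sub (.add (.var 0)
      (.var 2)) (.q 106 100))), (emb (.sub (.q 94 100) (.add (.var 0) (.var 2)))), (emb (.sub
      (.var 3) (.add (.q 11 1000) (.mul (.q 320 1000) (.sub (.q 63 100) (.var 2)))))), (emb (.sub
      (.neg (.var 3)) (.mul (.q 340 1000) (.sub (.q 80 100) (.var 2))))), (emb (.neg (.var 1)))] 22
      8
      [V.of 10000 3600 3700 0, V.of 10000 (-50) 570 0, V.of 10000 5700 6000 0, V.of 10000 (-985)
        960 0] = true := by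
    decide +kernel
  obtain ⟨f, hf, hp⟩ := chkT4 h (by norm_num) (x := x) (y := T) (z := s) (w := k)
    (le_trans (by norm_num) a0) (le_trans b0 (by norm_num))
    (le_trans (by norm_num) a1) (le_trans b1 (by norm_num))
    (le_trans (by norm_num) a2) (le_trans b2 (by norm_num))
    (le_trans (by norm_num) a3) (le_trans b3 (by norm_num))
  simp only [List.mem_cons, List.not_mem_nil, or_false] at hf
  rcases hf with rfl | rfl | rfl | rfl | rfl | rfl
  · simp only [MR.e2_val, MR.en2_val, MR.eb2_val, NumUs.E.val, NumIs.E.val, NumIs.lkR] at hp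
    push_cast at hp
    try simp only [div_one] at hp
    linarith only [hp]
  · simp only [MR.e2_val, MR.en2_val, MR.eb2_val, NumUs.E.val, NumIs.E.val, NumIs.lkR] at hp
    push_cast at hp
    try simp only [div_one] at hp
    exfalso
    linarith only [b0, b2, hp]
  · simp only [MR.e2_val, MR.en2_val, MR.eb2_val, NumUs.E.val, NumIs.E.val, NumIs.lkR] at hp
    push_cast at hp
    try simp only [div_one] at hp
    exfalso
    linarith only [c1, hp]
  · simp only [MR.e2_val, MR.en2_val, MR.eb2_val, NumUs.E.val, NumIs.E.val, NumIs.lkR] at hp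
    push_cast at hp
    try simp only [div_one] at hp
    exfalso
    linarith only [c2, hp]
  · simp only [MR.e2_val, MR.en2_val, MR.eb2_val, NumUs.E.val, NumIs.E.val, NumIs.lkR] at hp
    push_cast at hp
    try simp only [div_one] at hp
    exfalso
    linarith only [c3, hp]
  · simp only [MR.e2_val, MR.en2_val, MR.eb2_val, NumUs.E.val, NumIs.E.val, NumIs.lkR] at hp
    push_cast at hp
    try simp only [div_one] at hp
    exfalso
    linarith only [c4, hp]

/-- 16 boxes -/
theorem s27ja {x T s k : ℝ} (a0 : 3700 / 10000 ≤ x) (b0 : x ≤ 5000 / 10000) (a1 : -50 / 10000 ≤ T) (b1 : T ≤ 570 / 10000)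
    (a2 : 700 / 10000 ≤ s) (b2 : s ≤ 1250 / 10000) (a3 : -1075 / 10000 ≤ k) (b3 : k ≤ 960 / 10000)
    :
    0 < ((-14 / 100) - ((MR.s2 ((-100 / 27) * T) x (T * ((100 / 27) * ((6 / 10) - x))) s ((8 *
      k) * s)) + (((-100 / 27) * T) * ((1 / 2) * Real.pi)))) := by
  have h : chkT [(emb (.sub (.q (-14) 100) (.add (MR.e2 (.mul (.q (-100) 27) (.var 1)) (.var 0) (.mul (.var
      1) (.mul (.q 100 27) (.sub (.q 6 10) (.var 0)))) (.var 2) (.mul (.mul (.q 8 1) (.var 3))
      (.var 2))) (.mul (.mul (.q (-100) 27) (.var 1)) (.mul (.q 1 2) .pi)))))] 22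
      11301064816038379569026782344327477296
      [V.of 10000 3700 5000 0, V.of 10000 (-50) 570 0, V.of 10000 700 1250 0, V.of 10000 (-1075)
        960 0] = true := by
    decide +kernel
  obtain ⟨f, hf, hp⟩ := chkT4 h (by norm_num) (x := x) (y := T) (z := s) (w := k)
    (le_trans (by norm_num) a0) (le_trans b0 (by norm_num))
    (le_trans (by norm_num) a1) (le_trans b1 (by norm_num))
    (le_trans (by norm_num) a2) (le_trans b2 (by norm_num))
    (le_trans (by norm_num) a3) (le_trans b3 (by norm_num))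
  simp only [List.mem_cons, List.not_mem_nil, or_false] at hf
  subst hf
  simp only [MR.e2_val, MR.en2_val, MR.eb2_val, NumUs.E.val, NumIs.E.val, NumIs.lkR] at hp
  push_cast at hp
  try simp only [div_one] at hp
  linarith only [hp]

/-- 148 boxes -/
theorem s27jb {x T s k : ℝ} (a0 : 3700 / 10000 ≤ x) (b0 : x ≤ 5000 / 10000) (a1 : -50 / 10000 ≤ T) (b1 : T ≤ 570 / 10000)
    (a2 : 1250 / 10000 ≤ s) (b2 : s ≤ 5700 / 10000) (a3 : -985 / 10000 ≤ k) (b3 : k ≤ 960 / 10000)
    (c0 : (x + s) - (94 / 100) ≤ 0) :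
    0 < ((-14 / 100) - ((MR.s2 ((-100 / 27) * T) x (T * ((100 / 27) * ((6 / 10) - x))) s k) +
      (((-100 / 27) * T) * ((1 / 2) * Real.pi)))) := by
  have h : chkT [(emb (.sub (.q (-14) 100) (.add (MR.e2 (.mul (.q (-100) 27) (.var 1)) (.var 0) (.mul (.var
      1) (.mul (.q 100 27) (.sub (.q 6 10) (.var 0)))) (.var 2) (.var 3)) (.mul (.mul (.q (-100)
      27) (.var 1)) (.mul (.q 1 2) .pi))))), (emb (.sub (.add (.var 0) (.var 2)) (.q 94 100)))] 22
      9852475940148154475406171615321525274516278915966131781135016126223415072761391093619941559862080465246582296238862569516977442349333860502231052276973778239947269731050970306222979180261423381397311067828619084346669918134120062974810102049793896898339243002189948131744794268030784423459373524809623497837768574492549989138867578762864958618967342592034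
      [V.of 10000 3700 5000 0, V.of 10000 (-50) 570 0, V.of 10000 1250 5700 0, V.of 10000 (-985)
        960 0] = true := by
    decide +kernel
  obtain ⟨f, hf, hp⟩ := chkT4 h (by norm_num) (x := x) (y := T) (z := s) (w := k)
    (le_trans (by norm_num) a0) (le_trans b0 (by norm_num))
    (le_trans (by norm_num) a1) (le_trans b1 (by norm_num))
    (le_trans (by norm_num) a2) (le_trans b2 (by norm_num))
    (le_trans (by norm_num) a3) (le_trans b3 (by norm_num))
  simp only [List.mem_cons, List.not_mem_nil, or_false] at hf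
  rcases hf with rfl | rfl
  · simp only [MR.e2_val, MR.en2_val, MR.eb2_val, NumUs.E.val, NumIs.E.val, NumIs.lkR] at hp
    push_cast at hp
    try simp only [div_one] at hp
    linarith only [hp]
  · simp only [MR.e2_val, MR.en2_val, MR.eb2_val, NumUs.E.val, NumIs.E.val, NumIs.lkR] at hp
    push_cast at hp
    try simp only [div_one] at hp
    exfalso
    linarith only [c0, hp]

/-- 1 boxes -/
theorem s27jcp {x T s k : ℝ} (a0 : 3700 / 10000 ≤ x) (b0 : x ≤ 5000 / 10000) (a1 : -50 / 10000 ≤ T) (b1 : T ≤ 570 / 10000)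
    (a2 : 4400 / 10000 ≤ s) (b2 : s ≤ 6000 / 10000) (a3 : -985 / 10000 ≤ k) (b3 : k ≤ 960 / 10000)
    (c0 : (x + s) - (106 / 100) ≤ 0) (c1 : (94 / 100) - (x + s) ≤ 0) (c2 : k - ((11 / 1000) +
    ((320 / 1000) * ((63 / 100) - s))) ≤ 0) (c3 : (-k) - ((340 / 1000) * ((80 / 100) - s)) ≤ 0)
    (c4 : T ≤ 0) :
    0 < ((-14 / 100) - ((MR.n2 0 1 ((-100 / 27) * T) x (T * ((100 / 27) * ((6 / 10) - x))) s k)
      + (((-100 / 27) * T) * ((1 / 2) * Real.pi)))) := by
  have h : chkT [(emb (.sub (.q (-14) 100) (.add (MR.en2 (.q 0 1) (.q 1 1) (.mul (.q (-100) 27) (.var 1))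
      (.var 0) (.mul (.var 1) (.mul (.q 100 27) (.sub (.q 6 10) (.var 0)))) (.var 2) (.var 3))
      (.mul (.mul (.q (-100) 27) (.var 1)) (.mul (.q 1 2) .pi))))), (emb (.sub (.add (.var 0)
      (.var 2)) (.q 106 100))), (emb (.sub (.q 94 100) (.add (.var 0) (.var 2)))), (emb (.sub
      (.var 3) (.add (.q 11 1000) (.mul (.q 320 1000) (.sub (.q 63 100) (.var 2)))))), (emb (.sub
      (.neg (.var 3)) (.mul (.q 340 1000) (.sub (.q 80 100) (.var 2))))), (emb (.var 1))] 22
      8
      [V.of 10000 3700 5000 0, V.of 10000 (-50) 570 0, V.of 10000 4400 6000 0, V.of 10000 (-985)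
        960 0] = true := by
    decide +kernel
  obtain ⟨f, hf, hp⟩ := chkT4 h (by norm_num) (x := x) (y := T) (z := s) (w := k)
    (le_trans (by norm_num) a0) (le_trans b0 (by norm_num))
    (le_trans (by norm_num) a1) (le_trans b1 (by norm_num))
    (le_trans (by norm_num) a2) (le_trans b2 (by norm_num))
    (le_trans (by norm_num) a3) (le_trans b3 (by norm_num))
  simp only [List.mem_cons, List.not_mem_nil, or_false] at hf
  rcases hf with rfl | rfl | rfl | rfl | rfl | rfl
  · simp only [MR.e2_val, MR.en2_val, MR.eb2_val, NumUs.E.val, NumIs.E.val, NumIs.lkR] at hp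
    push_cast at hp
    try simp only [div_one] at hp
    linarith only [hp]
  · simp only [MR.e2_val, MR.en2_val, MR.eb2_val, NumUs.E.val, NumIs.E.val, NumIs.lkR] at hp
    push_cast at hp
    try simp only [div_one] at hp
    exfalso
    linarith only [c0, hp]
  · simp only [MR.e2_val, MR.en2_val, MR.eb2_val, NumUs.E.val, NumIs.E.val, NumIs.lkR] at hp
    push_cast at hp
    try simp only [div_one] at hp
    exfalso
    linarith only [c1, hp]
  · simp only [MR.e2_val, MR.en2_val, MR.eb2_val, NumUs.E.val, NumIs.E.val, NumIs.lkR] at hp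
    push_cast at hp
    try simp only [div_one] at hp
    exfalso
    linarith only [c2, hp]
  · simp only [MR.e2_val, MR.en2_val, MR.eb2_val, NumUs.E.val, NumIs.E.val, NumIs.lkR] at hp
    push_cast at hp
    try simp only [div_one] at hp
    exfalso
    linarith only [c3, hp]
  · simp only [MR.e2_val, MR.en2_val, MR.eb2_val, NumUs.E.val, NumIs.E.val, NumIs.lkR] at hp
    push_cast at hp
    try simp only [div_one] at hp
    exfalso
    linarith only [c4, hp]

/-- 1 boxes -/
theorem s27jcn {x T s k : ℝ} (a0 : 3700 / 10000 ≤ x) (b0 : x ≤ 5000 / 10000) (a1 : -50 / 10000 ≤ T) (b1 : T ≤ 570 / 10000)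
    (a2 : 4400 / 10000 ≤ s) (b2 : s ≤ 6000 / 10000) (a3 : -985 / 10000 ≤ k) (b3 : k ≤ 960 / 10000)
    (c0 : (x + s) - (106 / 100) ≤ 0) (c1 : (94 / 100) - (x + s) ≤ 0) (c2 : k - ((11 / 1000) +
    ((320 / 1000) * ((63 / 100) - s))) ≤ 0) (c3 : (-k) - ((340 / 1000) * ((80 / 100) - s)) ≤ 0)
    (c4 : -T ≤ 0) :
    0 < ((-14 / 100) - ((MR.n2 0 (-1) ((-100 / 27) * T) x (T * ((100 / 27) * ((6 / 10) - x))) s
      k) + (((-100 / 27) * T) * ((1 / 2) * Real.pi)))) := by
  have h : chkT [(emb (.sub (.q (-14) 100) (.add (MR.en2 (.q 0 1) (.q (-1) 1) (.mul (.q (-100) 27) (.var 1))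
      (.var 0) (.mul (.var 1) (.mul (.q 100 27) (.sub (.q 6 10) (.var 0)))) (.var 2) (.var 3))
      (.mul (.mul (.q (-100) 27) (.var 1)) (.mul (.q 1 2) .pi))))), (emb (.sub (.add (.var 0)
      (.var 2)) (.q 106 100))), (emb (.sub (.q 94 100) (.add (.var 0) (.var 2)))), (emb (.sub
      (.var 3) (.add (.q 11 1000) (.mul (.q 320 1000) (.sub (.q 63 100) (.var 2)))))), (emb (.sub
      (.neg (.var 3)) (.mul (.q 340 1000) (.sub (.q 80 100) (.var 2))))), (emb (.neg (.var 1)))] 22
      8
      [V.of 10000 3700 5000 0, V.of 10000 (-50) 570 0, V.of 10000 4400 6000 0, V.of 10000 (-985)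
        960 0] = true := by
    decide +kernel
  obtain ⟨f, hf, hp⟩ := chkT4 h (by norm_num) (x := x) (y := T) (z := s) (w := k)
    (le_trans (by norm_num) a0) (le_trans b0 (by norm_num))
    (le_trans (by norm_num) a1) (le_trans b1 (by norm_num))
    (le_trans (by norm_num) a2) (le_trans b2 (by norm_num))
    (le_trans (by norm_num) a3) (le_trans b3 (by norm_num))
  simp only [List.mem_cons, List.not_mem_nil, or_false] at hf
  rcases hf with rfl | rfl | rfl | rfl | rfl | rfl
  · simp only [MR.e2_val, MR.en2_val, MR.eb2_val, NumUs.E.val, NumIs.E.val, NumIs.lkR] at hp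
    push_cast at hp
    try simp only [div_one] at hp
    linarith only [hp]
  · simp only [MR.e2_val, MR.en2_val, MR.eb2_val, NumUs.E.val, NumIs.E.val, NumIs.lkR] at hp
    push_cast at hp
    try simp only [div_one] at hp
    exfalso
    linarith only [c0, hp]
  · simp only [MR.e2_val, MR.en2_val, MR.eb2_val, NumUs.E.val, NumIs.E.val, NumIs.lkR] at hp
    push_cast at hp
    try simp only [div_one] at hp
    exfalso
    linarith only [c1, hp]
  · simp only [MR.e2_val, MR.en2_val, MR.eb2_val, NumUs.E.val, NumIs.E.val, NumIs.lkR] at hp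
    push_cast at hp
    try simp only [div_one] at hp
    exfalso
    linarith only [c2, hp]
  · simp only [MR.e2_val, MR.en2_val, MR.eb2_val, NumUs.E.val, NumIs.E.val, NumIs.lkR] at hp
    push_cast at hp
    try simp only [div_one] at hp
    exfalso
    linarith only [c3, hp]
  · simp only [MR.e2_val, MR.en2_val, MR.eb2_val, NumUs.E.val, NumIs.E.val, NumIs.lkR] at hp
    push_cast at hp
    try simp only [div_one] at hp
    exfalso
    linarith only [c4, hp]

/-- 18 boxes -/
theorem s27jdp {x T s k : ℝ} (a0 : 3700 / 10000 ≤ x) (b0 : x ≤ 5000 / 10000) (a1 : -50 / 10000 ≤ T) (b1 : T ≤ 570 / 10000)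
    (a2 : 5600 / 10000 ≤ s) (b2 : s ≤ 6000 / 10000) (a3 : -985 / 10000 ≤ k) (b3 : k ≤ 960 / 10000)
    (c0 : (106 / 100) - (x + s) ≤ 0) (c1 : k - ((11 / 1000) + ((320 / 1000) * ((63 / 100) - s))) ≤
    0) (c2 : (-k) - ((340 / 1000) * ((80 / 100) - s)) ≤ 0) (c3 : T ≤ 0) :
    0 < ((-14 / 100) - ((MR.b2 1 ((-100 / 27) * T) x (T * ((100 / 27) * ((6 / 10) - x))) s k) +
      (((-100 / 27) * T) * ((1 / 2) * Real.pi)))) := by
  have h : chkT [(emb (.sub (.q (-14) 100) (.add (MR.eb2 (.q 1 1) (.mul (.q (-100) 27) (.var 1)) (.var 0)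
      (.mul (.var 1) (.mul (.q 100 27) (.sub (.q 6 10) (.var 0)))) (.var 2) (.var 3)) (.mul (.mul
      (.q (-100) 27) (.var 1)) (.mul (.q 1 2) .pi))))), (emb (.sub (.q 106 100) (.add (.var 0)
      (.var 2)))), (emb (.sub (.var 3) (.add (.q 11 1000) (.mul (.q 320 1000) (.sub (.q 63 100)
      (.var 2)))))), (emb (.sub (.neg (.var 3)) (.mul (.q 340 1000) (.sub (.q 80 100) (.var
      2))))), (emb (.var 1))] 22
      1114946516211393323911969124423740969521552
      [V.of 10000 3700 5000 0, V.of 10000 (-50) 570 0, V.of 10000 5600 6000 0, V.of 10000 (-985)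
        960 0] = true := by
    decide +kernel
  obtain ⟨f, hf, hp⟩ := chkT4 h (by norm_num) (x := x) (y := T) (z := s) (w := k)
    (le_trans (by norm_num) a0) (le_trans b0 (by norm_num))
    (le_trans (by norm_num) a1) (le_trans b1 (by norm_num))
    (le_trans (by norm_num) a2) (le_trans b2 (by norm_num))
    (le_trans (by norm_num) a3) (le_trans b3 (by norm_num))
  simp only [List.mem_cons, List.not_mem_nil, or_false] at hf
  rcases hf with rfl | rfl | rfl | rfl | rfl
  · simp only [MR.e2_val, MR.en2_val, MR.eb2_val, NumUs.E.val, NumIs.E.val, NumIs.lkR] at hp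
    push_cast at hp
    try simp only [div_one] at hp
    linarith only [hp]
  · simp only [MR.e2_val, MR.en2_val, MR.eb2_val, NumUs.E.val, NumIs.E.val, NumIs.lkR] at hp
    push_cast at hp
    try simp only [div_one] at hp
    exfalso
    linarith only [c0, hp]
  · simp only [MR.e2_val, MR.en2_val, MR.eb2_val, NumUs.E.val, NumIs.E.val, NumIs.lkR] at hp
    push_cast at hp
    try simp only [div_one] at hp
    exfalso
    linarith only [c1, hp]
  · simp only [MR.e2_val, MR.en2_val, MR.eb2_val, NumUs.E.val, NumIs.E.val, NumIs.lkR] at hp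
    push_cast at hp
    try simp only [div_one] at hp
    exfalso
    linarith only [c2, hp]
  · simp only [MR.e2_val, MR.en2_val, MR.eb2_val, NumUs.E.val, NumIs.E.val, NumIs.lkR] at hp
    push_cast at hp
    try simp only [div_one] at hp
    exfalso
    linarith only [c3, hp]

end C23

end Pool.Agent.Work.MP_b30479_gtS.G2

end

section

/-!
# Part of `C23R`
-/
set_option linter.unusedSimpArgs false
set_option linter.unusedVariables false
set_option linter.unusedTactic false

set_option deprecated.oldSectionVars true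

namespace Pool.Agent.Work.MP_b30479_gtS.G2

namespace C23

open NumUs
open NumUs.E (emb)
open NumIs (V)

/-- 25 boxes -/
theorem s27jdn {x T s k : ℝ} (a0 : 3700 / 10000 ≤ x) (b0 : x ≤ 5000 / 10000) (a1 : -50 / 10000 ≤ T) (b1 : T ≤ 570 / 10000)
    (a2 : 5600 / 10000 ≤ s) (b2 : s ≤ 6000 / 10000) (a3 : -985 / 10000 ≤ k) (b3 : k ≤ 960 / 10000)
    (c0 : (106 / 100) - (x + s) ≤ 0) (c1 : k - ((11 / 1000) + ((320 / 1000) * ((63 / 100) - s))) ≤
    0) (c2 : (-k) - ((340 / 1000) * ((80 / 100) - s)) ≤ 0) (c3 : -T ≤ 0) :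
    0 < ((-14 / 100) - ((MR.b2 (-1) ((-100 / 27) * T) x (T * ((100 / 27) * ((6 / 10) - x))) s k)
      + (((-100 / 27) * T) * ((1 / 2) * Real.pi)))) := by
  have h : chkT [(emb (.sub (.q (-14) 100) (.add (MR.eb2 (.q (-1) 1) (.mul (.q (-100) 27) (.var 1)) (.var 0)
      (.mul (.var 1) (.mul (.q 100 27) (.sub (.q 6 10) (.var 0)))) (.var 2) (.var 3)) (.mul (.mul
      (.q (-100) 27) (.var 1)) (.mul (.q 1 2) .pi))))), (emb (.sub (.q 106 100) (.add (.var 0)
      (.var 2)))), (emb (.sub (.var 3) (.add (.q 11 1000) (.mul (.q 320 1000) (.sub (.q 63 100)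
      (.var 2)))))), (emb (.sub (.neg (.var 3)) (.mul (.q 340 1000) (.sub (.q 80 100) (.var
      2))))), (emb (.neg (.var 1)))] 22
      66111139848721747786291181597317333867954559086868466049168
      [V.of 10000 3700 5000 0, V.of 10000 (-50) 570 0, V.of 10000 5600 6000 0, V.of 10000 (-985)
        960 0] = true := by
    decide +kernel
  obtain ⟨f, hf, hp⟩ := chkT4 h (by norm_num) (x := x) (y := T) (z := s) (w := k)
    (le_trans (by norm_num) a0) (le_trans b0 (by norm_num))
    (le_trans (by norm_num) a1) (le_trans b1 (by norm_num))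
    (le_trans (by norm_num) a2) (le_trans b2 (by norm_num))
    (le_trans (by norm_num) a3) (le_trans b3 (by norm_num))
  simp only [List.mem_cons, List.not_mem_nil, or_false] at hf
  rcases hf with rfl | rfl | rfl | rfl | rfl
  · simp only [MR.e2_val, MR.en2_val, MR.eb2_val, NumUs.E.val, NumIs.E.val, NumIs.lkR] at hp
    push_cast at hp
    try simp only [div_one] at hp
    linarith only [hp]
  · simp only [MR.e2_val, MR.en2_val, MR.eb2_val, NumUs.E.val, NumIs.E.val, NumIs.lkR] at hp
    push_cast at hp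
    try simp only [div_one] at hp
    exfalso
    linarith only [c0, hp]
  · simp only [MR.e2_val, MR.en2_val, MR.eb2_val, NumUs.E.val, NumIs.E.val, NumIs.lkR] at hp
    push_cast at hp
    try simp only [div_one] at hp
    exfalso
    linarith only [c1, hp]
  · simp only [MR.e2_val, MR.en2_val, MR.eb2_val, NumUs.E.val, NumIs.E.val, NumIs.lkR] at hp
    push_cast at hp
    try simp only [div_one] at hp
    exfalso
    linarith only [c2, hp]
  · simp only [MR.e2_val, MR.en2_val, MR.eb2_val, NumUs.E.val, NumIs.E.val, NumIs.lkR] at hp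
    push_cast at hp
    try simp only [div_one] at hp
    exfalso
    linarith only [c3, hp]

/-- 10 boxes -/
theorem s25ia {x T s k : ℝ} (a0 : 3300 / 10000 ≤ x) (b0 : x ≤ 3600 / 10000) (a1 : -50 / 10000 ≤ T) (b1 : T ≤ 570 / 10000)
    (a2 : 700 / 10000 ≤ s) (b2 : s ≤ 1250 / 10000) (a3 : -1075 / 10000 ≤ k) (b3 : k ≤ 960 / 10000)
    :
    0 < (((-20 / 1000) - ((300 / 100) * (x - (330 / 1000)))) - ((MR.s2 ((-100 / 25) * T) x (T *
      ((100 / 25) * ((6 / 10) - x))) s ((8 * k) * s)) + (((-100 / 25) * T) * ((1 / 2) *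
      Real.pi)))) := by
  have h : chkT [(emb (.sub (.sub (.q (-20) 1000) (.mul (.q 300 100) (.sub (.var 0) (.q 330 1000)))) (.add
      (MR.e2 (.mul (.q (-100) 25) (.var 1)) (.var 0) (.mul (.var 1) (.mul (.q 100 25) (.sub (.q 6
      10) (.var 0)))) (.var 2) (.mul (.mul (.q 8 1) (.var 3)) (.var 2))) (.mul (.mul (.q (-100)
      25) (.var 1)) (.mul (.q 1 2) .pi)))))] 22
      40149915368430512538499
      [V.of 10000 3300 3600 0, V.of 10000 (-50) 570 0, V.of 10000 700 1250 0, V.of 10000 (-1075)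
        960 0] = true := by
    decide +kernel
  obtain ⟨f, hf, hp⟩ := chkT4 h (by norm_num) (x := x) (y := T) (z := s) (w := k)
    (le_trans (by norm_num) a0) (le_trans b0 (by norm_num))
    (le_trans (by norm_num) a1) (le_trans b1 (by norm_num))
    (le_trans (by norm_num) a2) (le_trans b2 (by norm_num))
    (le_trans (by norm_num) a3) (le_trans b3 (by norm_num))
  simp only [List.mem_cons, List.not_mem_nil, or_false] at hf
  subst hf
  simp only [MR.e2_val, MR.en2_val, MR.eb2_val, NumUs.E.val, NumIs.E.val, NumIs.lkR] at hp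
  push_cast at hp
  try simp only [div_one] at hp
  linarith only [hp]

/-- 59 boxes -/
theorem s25ib {x T s k : ℝ} (a0 : 3300 / 10000 ≤ x) (b0 : x ≤ 3600 / 10000) (a1 : -50 / 10000 ≤ T) (b1 : T ≤ 570 / 10000)
    (a2 : 1250 / 10000 ≤ s) (b2 : s ≤ 6000 / 10000) (a3 : -985 / 10000 ≤ k) (b3 : k ≤ 960 / 10000)
    (c0 : (x + s) - (94 / 100) ≤ 0) :
    0 < (((-20 / 1000) - ((300 / 100) * (x - (330 / 1000)))) - ((MR.s2 ((-100 / 25) * T) x (T *
      ((100 / 25) * ((6 / 10) - x))) s k) + (((-100 / 25) * T) * ((1 / 2) * Real.pi)))) := by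
  have h : chkT [(emb (.sub (.sub (.q (-20) 1000) (.mul (.q 300 100) (.sub (.var 0) (.q 330 1000)))) (.add
      (MR.e2 (.mul (.q (-100) 25) (.var 1)) (.var 0) (.mul (.var 1) (.mul (.q 100 25) (.sub (.q 6
      10) (.var 0)))) (.var 2) (.var 3)) (.mul (.mul (.q (-100) 25) (.var 1)) (.mul (.q 1 2)
      .pi))))), (emb (.sub (.add (.var 0) (.var 2)) (.q 94 100)))] 22
      405174953630833518303961525183968687357681516584776779417007639921358170053895007015988589907805518433198157166875431181062328701827477111586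
      [V.of 10000 3300 3600 0, V.of 10000 (-50) 570 0, V.of 10000 1250 6000 0, V.of 10000 (-985)
        960 0] = true := by
    decide +kernel
  obtain ⟨f, hf, hp⟩ := chkT4 h (by norm_num) (x := x) (y := T) (z := s) (w := k)
    (le_trans (by norm_num) a0) (le_trans b0 (by norm_num))
    (le_trans (by norm_num) a1) (le_trans b1 (by norm_num))
    (le_trans (by norm_num) a2) (le_trans b2 (by norm_num))
    (le_trans (by norm_num) a3) (le_trans b3 (by norm_num))
  simp only [List.mem_cons, List.not_mem_nil, or_false] at hf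
  rcases hf with rfl | rfl
  · simp only [MR.e2_val, MR.en2_val, MR.eb2_val, NumUs.E.val, NumIs.E.val, NumIs.lkR] at hp
    push_cast at hp
    try simp only [div_one] at hp
    linarith only [hp]
  · simp only [MR.e2_val, MR.en2_val, MR.eb2_val, NumUs.E.val, NumIs.E.val, NumIs.lkR] at hp
    push_cast at hp
    try simp only [div_one] at hp
    exfalso
    linarith only [c0, hp]

/-- 1 boxes -/
theorem s25icp {x T s k : ℝ} (a0 : 3300 / 10000 ≤ x) (b0 : x ≤ 3600 / 10000) (a1 : -50 / 10000 ≤ T) (b1 : T ≤ 570 / 10000)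
    (a2 : 5800 / 10000 ≤ s) (b2 : s ≤ 6000 / 10000) (a3 : -985 / 10000 ≤ k) (b3 : k ≤ 960 / 10000)
    (c0 : (x + s) - (106 / 100) ≤ 0) (c1 : (94 / 100) - (x + s) ≤ 0) (c2 : k - ((11 / 1000) +
    ((320 / 1000) * ((63 / 100) - s))) ≤ 0) (c3 : (-k) - ((340 / 1000) * ((80 / 100) - s)) ≤ 0)
    (c4 : T ≤ 0) :
    0 < (((-20 / 1000) - ((300 / 100) * (x - (330 / 1000)))) - ((MR.n2 0 1 ((-100 / 25) * T) x
      (T * ((100 / 25) * ((6 / 10) - x))) s k) + (((-100 / 25) * T) * ((1 / 2) * Real.pi)))) := by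
  have h : chkT [(emb (.sub (.sub (.q (-20) 1000) (.mul (.q 300 100) (.sub (.var 0) (.q 330 1000)))) (.add
      (MR.en2 (.q 0 1) (.q 1 1) (.mul (.q (-100) 25) (.var 1)) (.var 0) (.mul (.var 1) (.mul (.q
      100 25) (.sub (.q 6 10) (.var 0)))) (.var 2) (.var 3)) (.mul (.mul (.q (-100) 25) (.var 1))
      (.mul (.q 1 2) .pi))))), (emb (.sub (.add (.var 0) (.var 2)) (.q 106 100))), (emb (.sub (.q
      94 100) (.add (.var 0) (.var 2)))), (emb (.sub (.var 3) (.add (.q 11 1000) (.mul (.q 320
      1000) (.sub (.q 63 100) (.var 2)))))), (emb (.sub (.neg (.var 3)) (.mul (.q 340 1000) (.sub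
      (.q 80 100) (.var 2))))), (emb (.var 1))] 22
      8
      [V.of 10000 3300 3600 0, V.of 10000 (-50) 570 0, V.of 10000 5800 6000 0, V.of 10000 (-985)
        960 0] = true := by
    decide +kernel
  obtain ⟨f, hf, hp⟩ := chkT4 h (by norm_num) (x := x) (y := T) (z := s) (w := k)
    (le_trans (by norm_num) a0) (le_trans b0 (by norm_num))
    (le_trans (by norm_num) a1) (le_trans b1 (by norm_num))
    (le_trans (by norm_num) a2) (le_trans b2 (by norm_num))
    (le_trans (by norm_num) a3) (le_trans b3 (by norm_num))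
  simp only [List.mem_cons, List.not_mem_nil, or_false] at hf
  rcases hf with rfl | rfl | rfl | rfl | rfl | rfl
  · simp only [MR.e2_val, MR.en2_val, MR.eb2_val, NumUs.E.val, NumIs.E.val, NumIs.lkR] at hp
    push_cast at hp
    try simp only [div_one] at hp
    linarith only [hp]
  · simp only [MR.e2_val, MR.en2_val, MR.eb2_val, NumUs.E.val, NumIs.E.val, NumIs.lkR] at hp
    push_cast at hp
    try simp only [div_one] at hp
    exfalso
    linarith only [b0, b2, hp]
  · simp only [MR.e2_val, MR.en2_val, MR.eb2_val, NumUs.E.val, NumIs.E.val, NumIs.lkR] at hp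
    push_cast at hp
    try simp only [div_one] at hp
    exfalso
    linarith only [c1, hp]
  · simp only [MR.e2_val, MR.en2_val, MR.eb2_val, NumUs.E.val, NumIs.E.val, NumIs.lkR] at hp
    push_cast at hp
    try simp only [div_one] at hp
    exfalso
    linarith only [c2, hp]
  · simp only [MR.e2_val, MR.en2_val, MR.eb2_val, NumUs.E.val, NumIs.E.val, NumIs.lkR] at hp
    push_cast at hp
    try simp only [div_one] at hp
    exfalso
    linarith only [c3, hp]
  · simp only [MR.e2_val, MR.en2_val, MR.eb2_val, NumUs.E.val, NumIs.E.val, NumIs.lkR] at hp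
    push_cast at hp
    try simp only [div_one] at hp
    exfalso
    linarith only [c4, hp]

/-- 1 boxes -/
theorem s25icn {x T s k : ℝ} (a0 : 3300 / 10000 ≤ x) (b0 : x ≤ 3600 / 10000) (a1 : -50 / 10000 ≤ T) (b1 : T ≤ 570 / 10000)
    (a2 : 5800 / 10000 ≤ s) (b2 : s ≤ 6000 / 10000) (a3 : -985 / 10000 ≤ k) (b3 : k ≤ 960 / 10000)
    (c0 : (x + s) - (106 / 100) ≤ 0) (c1 : (94 / 100) - (x + s) ≤ 0) (c2 : k - ((11 / 1000) +
    ((320 / 1000) * ((63 / 100) - s))) ≤ 0) (c3 : (-k) - ((340 / 1000) * ((80 / 100) - s)) ≤ 0)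
    (c4 : -T ≤ 0) :
    0 < (((-20 / 1000) - ((300 / 100) * (x - (330 / 1000)))) - ((MR.n2 0 (-1) ((-100 / 25) * T)
      x (T * ((100 / 25) * ((6 / 10) - x))) s k) + (((-100 / 25) * T) * ((1 / 2) * Real.pi)))) := by
  have h : chkT [(emb (.sub (.sub (.q (-20) 1000) (.mul (.q 300 100) (.sub (.var 0) (.q 330 1000)))) (.add
      (MR.en2 (.q 0 1) (.q (-1) 1) (.mul (.q (-100) 25) (.var 1)) (.var 0) (.mul (.var 1) (.mul
      (.q 100 25) (.sub (.q 6 10) (.var 0)))) (.var 2) (.var 3)) (.mul (.mul (.q (-100) 25) (.var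
      1)) (.mul (.q 1 2) .pi))))), (emb (.sub (.add (.var 0) (.var 2)) (.q 106 100))), (emb (.sub
      (.q 94 100) (.add (.var 0) (.var 2)))), (emb (.sub (.var 3) (.add (.q 11 1000) (.mul (.q 320
      1000) (.sub (.q 63 100) (.var 2)))))), (emb (.sub (.neg (.var 3)) (.mul (.q 340 1000) (.sub
      (.q 80 100) (.var 2))))), (emb (.neg (.var 1)))] 22
      8
      [V.of 10000 3300 3600 0, V.of 10000 (-50) 570 0, V.of 10000 5800 6000 0, V.of 10000 (-985)
        960 0] = true := by
    decide +kernel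
  obtain ⟨f, hf, hp⟩ := chkT4 h (by norm_num) (x := x) (y := T) (z := s) (w := k)
    (le_trans (by norm_num) a0) (le_trans b0 (by norm_num))
    (le_trans (by norm_num) a1) (le_trans b1 (by norm_num))
    (le_trans (by norm_num) a2) (le_trans b2 (by norm_num))
    (le_trans (by norm_num) a3) (le_trans b3 (by norm_num))
  simp only [List.mem_cons, List.not_mem_nil, or_false] at hf
  rcases hf with rfl | rfl | rfl | rfl | rfl | rfl
  · simp only [MR.e2_val, MR.en2_val, MR.eb2_val, NumUs.E.val, NumIs.E.val, NumIs.lkR] at hp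
    push_cast at hp
    try simp only [div_one] at hp
    linarith only [hp]
  · simp only [MR.e2_val, MR.en2_val, MR.eb2_val, NumUs.E.val, NumIs.E.val, NumIs.lkR] at hp
    push_cast at hp
    try simp only [div_one] at hp
    exfalso
    linarith only [b0, b2, hp]
  · simp only [MR.e2_val, MR.en2_val, MR.eb2_val, NumUs.E.val, NumIs.E.val, NumIs.lkR] at hp
    push_cast at hp
    try simp only [div_one] at hp
    exfalso
    linarith only [c1, hp]
  · simp only [MR.e2_val, MR.en2_val, MR.eb2_val, NumUs.E.val, NumIs.E.val, NumIs.lkR] at hp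
    push_cast at hp
    try simp only [div_one] at hp
    exfalso
    linarith only [c2, hp]
  · simp only [MR.e2_val, MR.en2_val, MR.eb2_val, NumUs.E.val, NumIs.E.val, NumIs.lkR] at hp
    push_cast at hp
    try simp only [div_one] at hp
    exfalso
    linarith only [c3, hp]
  · simp only [MR.e2_val, MR.en2_val, MR.eb2_val, NumUs.E.val, NumIs.E.val, NumIs.lkR] at hp
    push_cast at hp
    try simp only [div_one] at hp
    exfalso
    linarith only [c4, hp]

/-- 14 boxes -/
theorem s25ha {x T s k : ℝ} (a0 : 3600 / 10000 ≤ x) (b0 : x ≤ 3700 / 10000) (a1 : -50 / 10000 ≤ T) (b1 : T ≤ 570 / 10000)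
    (a2 : 700 / 10000 ≤ s) (b2 : s ≤ 1250 / 10000) (a3 : -1075 / 10000 ≤ k) (b3 : k ≤ 960 / 10000)
    :
    0 < ((-13 / 100) - ((MR.s2 ((-100 / 25) * T) x (T * ((100 / 25) * ((6 / 10) - x))) s ((8 *
      k) * s)) + (((-100 / 25) * T) * ((1 / 2) * Real.pi)))) := by
  have h : chkT [(emb (.sub (.q (-13) 100) (.add (MR.e2 (.mul (.q (-100) 25) (.var 1)) (.var 0) (.mul (.var
      1) (.mul (.q 100 25) (.sub (.q 6 10) (.var 0)))) (.var 2) (.mul (.mul (.q 8 1) (.var 3))
      (.var 2))) (.mul (.mul (.q (-100) 25) (.var 1)) (.mul (.q 1 2) .pi)))))] 22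
      172680324398717003502816910869123
      [V.of 10000 3600 3700 0, V.of 10000 (-50) 570 0, V.of 10000 700 1250 0, V.of 10000 (-1075)
        960 0] = true := by
    decide +kernel
  obtain ⟨f, hf, hp⟩ := chkT4 h (by norm_num) (x := x) (y := T) (z := s) (w := k)
    (le_trans (by norm_num) a0) (le_trans b0 (by norm_num))
    (le_trans (by norm_num) a1) (le_trans b1 (by norm_num))
    (le_trans (by norm_num) a2) (le_trans b2 (by norm_num))
    (le_trans (by norm_num) a3) (le_trans b3 (by norm_num))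
  simp only [List.mem_cons, List.not_mem_nil, or_false] at hf
  subst hf
  simp only [MR.e2_val, MR.en2_val, MR.eb2_val, NumUs.E.val, NumIs.E.val, NumIs.lkR] at hp
  push_cast at hp
  try simp only [div_one] at hp
  linarith only [hp]

/-- 41 boxes -/
theorem s25hb {x T s k : ℝ} (a0 : 3600 / 10000 ≤ x) (b0 : x ≤ 3700 / 10000) (a1 : -50 / 10000 ≤ T) (b1 : T ≤ 570 / 10000)
    (a2 : 1250 / 10000 ≤ s) (b2 : s ≤ 5800 / 10000) (a3 : -985 / 10000 ≤ k) (b3 : k ≤ 960 / 10000)
    (c0 : (x + s) - (94 / 100) ≤ 0) :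
    0 < ((-13 / 100) - ((MR.s2 ((-100 / 25) * T) x (T * ((100 / 25) * ((6 / 10) - x))) s k) +
      (((-100 / 25) * T) * ((1 / 2) * Real.pi)))) := by
  have h : chkT [(emb (.sub (.q (-13) 100) (.add (MR.e2 (.mul (.q (-100) 25) (.var 1)) (.var 0) (.mul (.var
      1) (.mul (.q 100 25) (.sub (.q 6 10) (.var 0)))) (.var 2) (.var 3)) (.mul (.mul (.q (-100)
      25) (.var 1)) (.mul (.q 1 2) .pi))))), (emb (.sub (.add (.var 0) (.var 2)) (.q 94 100)))] 22
      18168668581696546741175813507610872852882143532594874907277474141169755928301331336390380408242978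
      [V.of 10000 3600 3700 0, V.of 10000 (-50) 570 0, V.of 10000 1250 5800 0, V.of 10000 (-985)
        960 0] = true := by
    decide +kernel
  obtain ⟨f, hf, hp⟩ := chkT4 h (by norm_num) (x := x) (y := T) (z := s) (w := k)
    (le_trans (by norm_num) a0) (le_trans b0 (by norm_num))
    (le_trans (by norm_num) a1) (le_trans b1 (by norm_num))
    (le_trans (by norm_num) a2) (le_trans b2 (by norm_num))
    (le_trans (by norm_num) a3) (le_trans b3 (by norm_num))
  simp only [List.mem_cons, List.not_mem_nil, or_false] at hf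
  rcases hf with rfl | rfl
  · simp only [MR.e2_val, MR.en2_val, MR.eb2_val, NumUs.E.val, NumIs.E.val, NumIs.lkR] at hp
    push_cast at hp
    try simp only [div_one] at hp
    linarith only [hp]
  · simp only [MR.e2_val, MR.en2_val, MR.eb2_val, NumUs.E.val, NumIs.E.val, NumIs.lkR] at hp
    push_cast at hp
    try simp only [div_one] at hp
    exfalso
    linarith only [c0, hp]

/-- 1 boxes -/
theorem s25hcp {x T s k : ℝ} (a0 : 3600 / 10000 ≤ x) (b0 : x ≤ 3700 / 10000) (a1 : -50 / 10000 ≤ T) (b1 : T ≤ 570 / 10000)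
    (a2 : 5700 / 10000 ≤ s) (b2 : s ≤ 6000 / 10000) (a3 : -985 / 10000 ≤ k) (b3 : k ≤ 960 / 10000)
    (c0 : (x + s) - (106 / 100) ≤ 0) (c1 : (94 / 100) - (x + s) ≤ 0) (c2 : k - ((11 / 1000) +
    ((320 / 1000) * ((63 / 100) - s))) ≤ 0) (c3 : (-k) - ((340 / 1000) * ((80 / 100) - s)) ≤ 0)
    (c4 : T ≤ 0) :
    0 < ((-13 / 100) - ((MR.n2 0 1 ((-100 / 25) * T) x (T * ((100 / 25) * ((6 / 10) - x))) s k)
      + (((-100 / 25) * T) * ((1 / 2) * Real.pi)))) := by
  have h : chkT [(emb (.sub (.q (-13) 100) (.add (MR.en2 (.q 0 1) (.q 1 1) (.mul (.q (-100) 25) (.var 1))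
      (.var 0) (.mul (.var 1) (.mul (.q 100 25) (.sub (.q 6 10) (.var 0)))) (.var 2) (.var 3))
      (.mul (.mul (.q (-100) 25) (.var 1)) (.mul (.q 1 2) .pi))))), (emb (.sub (.add (.var 0)
      (.var 2)) (.q 106 100))), (emb (.sub (.q 94 100) (.add (.var 0) (.var 2)))), (emb (.sub
      (.var 3) (.add (.q 11 1000) (.mul (.q 320 1000) (.sub (.q 63 100) (.var 2)))))), (emb (.sub
      (.neg (.var 3)) (.mul (.q 340 1000) (.sub (.q 80 100) (.var 2))))), (emb (.var 1))] 22
      8
      [V.of 10000 3600 3700 0, V.of 10000 (-50) 570 0, V.of 10000 5700 6000 0, V.of 10000 (-985)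
        960 0] = true := by
    decide +kernel
  obtain ⟨f, hf, hp⟩ := chkT4 h (by norm_num) (x := x) (y := T) (z := s) (w := k)
    (le_trans (by norm_num) a0) (le_trans b0 (by norm_num))
    (le_trans (by norm_num) a1) (le_trans b1 (by norm_num))
    (le_trans (by norm_num) a2) (le_trans b2 (by norm_num))
    (le_trans (by norm_num) a3) (le_trans b3 (by norm_num))
  simp only [List.mem_cons, List.not_mem_nil, or_false] at hf
  rcases hf with rfl | rfl | rfl | rfl | rfl | rfl
  · simp only [MR.e2_val, MR.en2_val, MR.eb2_val, NumUs.E.val, NumIs.E.val, NumIs.lkR] at hp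
    push_cast at hp
    try simp only [div_one] at hp
    linarith only [hp]
  · simp only [MR.e2_val, MR.en2_val, MR.eb2_val, NumUs.E.val, NumIs.E.val, NumIs.lkR] at hp
    push_cast at hp
    try simp only [div_one] at hp
    exfalso
    linarith only [b0, b2, hp]
  · simp only [MR.e2_val, MR.en2_val, MR.eb2_val, NumUs.E.val, NumIs.E.val, NumIs.lkR] at hp
    push_cast at hp
    try simp only [div_one] at hp
    exfalso
    linarith only [c1, hp]
  · simp only [MR.e2_val, MR.en2_val, MR.eb2_val, NumUs.E.val, NumIs.E.val, NumIs.lkR] at hp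
    push_cast at hp
    try simp only [div_one] at hp
    exfalso
    linarith only [c2, hp]
  · simp only [MR.e2_val, MR.en2_val, MR.eb2_val, NumUs.E.val, NumIs.E.val, NumIs.lkR] at hp
    push_cast at hp
    try simp only [div_one] at hp
    exfalso
    linarith only [c3, hp]
  · simp only [MR.e2_val, MR.en2_val, MR.eb2_val, NumUs.E.val, NumIs.E.val, NumIs.lkR] at hp
    push_cast at hp
    try simp only [div_one] at hp
    exfalso
    linarith only [c4, hp]

/-- 1 boxes -/
theorem s25hcn {x T s k : ℝ} (a0 : 3600 / 10000 ≤ x) (b0 : x ≤ 3700 / 10000) (a1 : -50 / 10000 ≤ T) (b1 : T ≤ 570 / 10000)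
    (a2 : 5700 / 10000 ≤ s) (b2 : s ≤ 6000 / 10000) (a3 : -985 / 10000 ≤ k) (b3 : k ≤ 960 / 10000)
    (c0 : (x + s) - (106 / 100) ≤ 0) (c1 : (94 / 100) - (x + s) ≤ 0) (c2 : k - ((11 / 1000) +
    ((320 / 1000) * ((63 / 100) - s))) ≤ 0) (c3 : (-k) - ((340 / 1000) * ((80 / 100) - s)) ≤ 0)
    (c4 : -T ≤ 0) :
    0 < ((-13 / 100) - ((MR.n2 0 (-1) ((-100 / 25) * T) x (T * ((100 / 25) * ((6 / 10) - x))) s
      k) + (((-100 / 25) * T) * ((1 / 2) * Real.pi)))) := by
  have h : chkT [(emb (.sub (.q (-13) 100) (.add (MR.en2 (.q 0 1) (.q (-1) 1) (.mul (.q (-100) 25) (.var 1))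
      (.var 0) (.mul (.var 1) (.mul (.q 100 25) (.sub (.q 6 10) (.var 0)))) (.var 2) (.var 3))
      (.mul (.mul (.q (-100) 25) (.var 1)) (.mul (.q 1 2) .pi))))), (emb (.sub (.add (.var 0)
      (.var 2)) (.q 106 100))), (emb (.sub (.q 94 100) (.add (.var 0) (.var 2)))), (emb (.sub
      (.var 3) (.add (.q 11 1000) (.mul (.q 320 1000) (.sub (.q 63 100) (.var 2)))))), (emb (.sub
      (.neg (.var 3)) (.mul (.q 340 1000) (.sub (.q 80 100) (.var 2))))), (emb (.neg (.var 1)))] 22
      8
      [V.of 10000 3600 3700 0, V.of 10000 (-50) 570 0, V.of 10000 5700 6000 0, V.of 10000 (-985)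
        960 0] = true := by
    decide +kernel
  obtain ⟨f, hf, hp⟩ := chkT4 h (by norm_num) (x := x) (y := T) (z := s) (w := k)
    (le_trans (by norm_num) a0) (le_trans b0 (by norm_num))
    (le_trans (by norm_num) a1) (le_trans b1 (by norm_num))
    (le_trans (by norm_num) a2) (le_trans b2 (by norm_num))
    (le_trans (by norm_num) a3) (le_trans b3 (by norm_num))
  simp only [List.mem_cons, List.not_mem_nil, or_false] at hf
  rcases hf with rfl | rfl | rfl | rfl | rfl | rfl
  · simp only [MR.e2_val, MR.en2_val, MR.eb2_val, NumUs.E.val, NumIs.E.val, NumIs.lkR] at hp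
    push_cast at hp
    try simp only [div_one] at hp
    linarith only [hp]
  · simp only [MR.e2_val, MR.en2_val, MR.eb2_val, NumUs.E.val, NumIs.E.val, NumIs.lkR] at hp
    push_cast at hp
    try simp only [div_one] at hp
    exfalso
    linarith only [b0, b2, hp]
  · simp only [MR.e2_val, MR.en2_val, MR.eb2_val, NumUs.E.val, NumIs.E.val, NumIs.lkR] at hp
    push_cast at hp
    try simp only [div_one] at hp
    exfalso
    linarith only [c1, hp]
  · simp only [MR.e2_val, MR.en2_val, MR.eb2_val, NumUs.E.val, NumIs.E.val, NumIs.lkR] at hp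
    push_cast at hp
    try simp only [div_one] at hp
    exfalso
    linarith only [c2, hp]
  · simp only [MR.e2_val, MR.en2_val, MR.eb2_val, NumUs.E.val, NumIs.E.val, NumIs.lkR] at hp
    push_cast at hp
    try simp only [div_one] at hp
    exfalso
    linarith only [c3, hp]
  · simp only [MR.e2_val, MR.en2_val, MR.eb2_val, NumUs.E.val, NumIs.E.val, NumIs.lkR] at hp
    push_cast at hp
    try simp only [div_one] at hp
    exfalso
    linarith only [c4, hp]

/-- 19 boxes -/
theorem s25ja {x T s k : ℝ} (a0 : 3700 / 10000 ≤ x) (b0 : x ≤ 5000 / 10000) (a1 : -50 / 10000 ≤ T) (b1 : T ≤ 570 / 10000)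
    (a2 : 700 / 10000 ≤ s) (b2 : s ≤ 1250 / 10000) (a3 : -1075 / 10000 ≤ k) (b3 : k ≤ 960 / 10000)
    :
    0 < ((-14 / 100) - ((MR.s2 ((-100 / 25) * T) x (T * ((100 / 25) * ((6 / 10) - x))) s ((8 *
      k) * s)) + (((-100 / 25) * T) * ((1 / 2) * Real.pi)))) := by
  have h : chkT [(emb (.sub (.q (-14) 100) (.add (MR.e2 (.mul (.q (-100) 25) (.var 1)) (.var 0) (.mul (.var
      1) (.mul (.q 100 25) (.sub (.q 6 10) (.var 0)))) (.var 2) (.mul (.mul (.q 8 1) (.var 3))
      (.var 2))) (.mul (.mul (.q (-100) 25) (.var 1)) (.mul (.q 1 2) .pi)))))] 22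
      189864013922624700598216627517485288459352112
      [V.of 10000 3700 5000 0, V.of 10000 (-50) 570 0, V.of 10000 700 1250 0, V.of 10000 (-1075)
        960 0] = true := by
    decide +kernel
  obtain ⟨f, hf, hp⟩ := chkT4 h (by norm_num) (x := x) (y := T) (z := s) (w := k)
    (le_trans (by norm_num) a0) (le_trans b0 (by norm_num))
    (le_trans (by norm_num) a1) (le_trans b1 (by norm_num))
    (le_trans (by norm_num) a2) (le_trans b2 (by norm_num))
    (le_trans (by norm_num) a3) (le_trans b3 (by norm_num))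
  simp only [List.mem_cons, List.not_mem_nil, or_false] at hf
  subst hf
  simp only [MR.e2_val, MR.en2_val, MR.eb2_val, NumUs.E.val, NumIs.E.val, NumIs.lkR] at hp
  push_cast at hp
  try simp only [div_one] at hp
  linarith only [hp]

/-- 159 boxes -/
theorem s25jb {x T s k : ℝ} (a0 : 3700 / 10000 ≤ x) (b0 : x ≤ 5000 / 10000) (a1 : -50 / 10000 ≤ T) (b1 : T ≤ 570 / 10000)
    (a2 : 1250 / 10000 ≤ s) (b2 : s ≤ 5700 / 10000) (a3 : -985 / 10000 ≤ k) (b3 : k ≤ 960 / 10000)
    (c0 : (x + s) - (94 / 100) ≤ 0) :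
    0 < ((-14 / 100) - ((MR.s2 ((-100 / 25) * T) x (T * ((100 / 25) * ((6 / 10) - x))) s k) +
      (((-100 / 25) * T) * ((1 / 2) * Real.pi)))) := by
  have h : chkT [(emb (.sub (.q (-14) 100) (.add (MR.e2 (.mul (.q (-100) 25) (.var 1)) (.var 0) (.mul (.var
      1) (.mul (.q 100 25) (.sub (.q 6 10) (.var 0)))) (.var 2) (.var 3)) (.mul (.mul (.q (-100)
      25) (.var 1)) (.mul (.q 1 2) .pi))))), (emb (.sub (.add (.var 0) (.var 2)) (.q 94 100)))] 22
      3049193613101317578851198612341288033590181401112615955053541647983443681870106603887008299593909226333148651263078798731733095693132960858759664965651052802319148939658144960101620592776069147062978155026631309234626033763156628611116506946821434467489609193844474452819958026802692494805423690126011200722563367374546201351017095248433791823117251951914764281189632492869956153378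
      [V.of 10000 3700 5000 0, V.of 10000 (-50) 570 0, V.of 10000 1250 5700 0, V.of 10000 (-985)
        960 0] = true := by
    decide +kernel
  obtain ⟨f, hf, hp⟩ := chkT4 h (by norm_num) (x := x) (y := T) (z := s) (w := k)
    (le_trans (by norm_num) a0) (le_trans b0 (by norm_num))
    (le_trans (by norm_num) a1) (le_trans b1 (by norm_num))
    (le_trans (by norm_num) a2) (le_trans b2 (by norm_num))
    (le_trans (by norm_num) a3) (le_trans b3 (by norm_num))
  simp only [List.mem_cons, List.not_mem_nil, or_false] at hf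
  rcases hf with rfl | rfl
  · simp only [MR.e2_val, MR.en2_val, MR.eb2_val, NumUs.E.val, NumIs.E.val, NumIs.lkR] at hp
    push_cast at hp
    try simp only [div_one] at hp
    linarith only [hp]
  · simp only [MR.e2_val, MR.en2_val, MR.eb2_val, NumUs.E.val, NumIs.E.val, NumIs.lkR] at hp
    push_cast at hp
    try simp only [div_one] at hp
    exfalso
    linarith only [c0, hp]

/-- 1 boxes -/
theorem s25jcp {x T s k : ℝ} (a0 : 3700 / 10000 ≤ x) (b0 : x ≤ 5000 / 10000) (a1 : -50 / 10000 ≤ T) (b1 : T ≤ 570 / 10000)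
    (a2 : 4400 / 10000 ≤ s) (b2 : s ≤ 6000 / 10000) (a3 : -985 / 10000 ≤ k) (b3 : k ≤ 960 / 10000)
    (c0 : (x + s) - (106 / 100) ≤ 0) (c1 : (94 / 100) - (x + s) ≤ 0) (c2 : k - ((11 / 1000) +
    ((320 / 1000) * ((63 / 100) - s))) ≤ 0) (c3 : (-k) - ((340 / 1000) * ((80 / 100) - s)) ≤ 0)
    (c4 : T ≤ 0) :
    0 < ((-14 / 100) - ((MR.n2 0 1 ((-100 / 25) * T) x (T * ((100 / 25) * ((6 / 10) - x))) s k)
      + (((-100 / 25) * T) * ((1 / 2) * Real.pi)))) := by
  have h : chkT [(emb (.sub (.q (-14) 100) (.add (MR.en2 (.q 0 1) (.q 1 1) (.mul (.q (-100) 25) (.var 1))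
      (.var 0) (.mul (.var 1) (.mul (.q 100 25) (.sub (.q 6 10) (.var 0)))) (.var 2) (.var 3))
      (.mul (.mul (.q (-100) 25) (.var 1)) (.mul (.q 1 2) .pi))))), (emb (.sub (.add (.var 0)
      (.var 2)) (.q 106 100))), (emb (.sub (.q 94 100) (.add (.var 0) (.var 2)))), (emb (.sub
      (.var 3) (.add (.q 11 1000) (.mul (.q 320 1000) (.sub (.q 63 100) (.var 2)))))), (emb (.sub
      (.neg (.var 3)) (.mul (.q 340 1000) (.sub (.q 80 100) (.var 2))))), (emb (.var 1))] 22
      8
      [V.of 10000 3700 5000 0, V.of 10000 (-50) 570 0, V.of 10000 4400 6000 0, V.of 10000 (-985)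
        960 0] = true := by
    decide +kernel
  obtain ⟨f, hf, hp⟩ := chkT4 h (by norm_num) (x := x) (y := T) (z := s) (w := k)
    (le_trans (by norm_num) a0) (le_trans b0 (by norm_num))
    (le_trans (by norm_num) a1) (le_trans b1 (by norm_num))
    (le_trans (by norm_num) a2) (le_trans b2 (by norm_num))
    (le_trans (by norm_num) a3) (le_trans b3 (by norm_num))
  simp only [List.mem_cons, List.not_mem_nil, or_false] at hf
  rcases hf with rfl | rfl | rfl | rfl | rfl | rfl
  · simp only [MR.e2_val, MR.en2_val, MR.eb2_val, NumUs.E.val, NumIs.E.val, NumIs.lkR] at hp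
    push_cast at hp
    try simp only [div_one] at hp
    linarith only [hp]
  · simp only [MR.e2_val, MR.en2_val, MR.eb2_val, NumUs.E.val, NumIs.E.val, NumIs.lkR] at hp
    push_cast at hp
    try simp only [div_one] at hp
    exfalso
    linarith only [c0, hp]
  · simp only [MR.e2_val, MR.en2_val, MR.eb2_val, NumUs.E.val, NumIs.E.val, NumIs.lkR] at hp
    push_cast at hp
    try simp only [div_one] at hp
    exfalso
    linarith only [c1, hp]
  · simp only [MR.e2_val, MR.en2_val, MR.eb2_val, NumUs.E.val, NumIs.E.val, NumIs.lkR] at hp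
    push_cast at hp
    try simp only [div_one] at hp
    exfalso
    linarith only [c2, hp]
  · simp only [MR.e2_val, MR.en2_val, MR.eb2_val, NumUs.E.val, NumIs.E.val, NumIs.lkR] at hp
    push_cast at hp
    try simp only [div_one] at hp
    exfalso
    linarith only [c3, hp]
  · simp only [MR.e2_val, MR.en2_val, MR.eb2_val, NumUs.E.val, NumIs.E.val, NumIs.lkR] at hp
    push_cast at hp
    try simp only [div_one] at hp
    exfalso
    linarith only [c4, hp]

/-- 1 boxes -/
theorem s25jcn {x T s k : ℝ} (a0 : 3700 / 10000 ≤ x) (b0 : x ≤ 5000 / 10000) (a1 : -50 / 10000 ≤ T) (b1 : T ≤ 570 / 10000)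
    (a2 : 4400 / 10000 ≤ s) (b2 : s ≤ 6000 / 10000) (a3 : -985 / 10000 ≤ k) (b3 : k ≤ 960 / 10000)
    (c0 : (x + s) - (106 / 100) ≤ 0) (c1 : (94 / 100) - (x + s) ≤ 0) (c2 : k - ((11 / 1000) +
    ((320 / 1000) * ((63 / 100) - s))) ≤ 0) (c3 : (-k) - ((340 / 1000) * ((80 / 100) - s)) ≤ 0)
    (c4 : -T ≤ 0) :
    0 < ((-14 / 100) - ((MR.n2 0 (-1) ((-100 / 25) * T) x (T * ((100 / 25) * ((6 / 10) - x))) s
      k) + (((-100 / 25) * T) * ((1 / 2) * Real.pi)))) := by
  have h : chkT [(emb (.sub (.q (-14) 100) (.add (MR.en2 (.q 0 1) (.q (-1) 1) (.mul (.q (-100) 25) (.var 1))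
      (.var 0) (.mul (.var 1) (.mul (.q 100 25) (.sub (.q 6 10) (.var 0)))) (.var 2) (.var 3))
      (.mul (.mul (.q (-100) 25) (.var 1)) (.mul (.q 1 2) .pi))))), (emb (.sub (.add (.var 0)
      (.var 2)) (.q 106 100))), (emb (.sub (.q 94 100) (.add (.var 0) (.var 2)))), (emb (.sub
      (.var 3) (.add (.q 11 1000) (.mul (.q 320 1000) (.sub (.q 63 100) (.var 2)))))), (emb (.sub
      (.neg (.var 3)) (.mul (.q 340 1000) (.sub (.q 80 100) (.var 2))))), (emb (.neg (.var 1)))] 22
      8
      [V.of 10000 3700 5000 0, V.of 10000 (-50) 570 0, V.of 10000 4400 6000 0, V.of 10000 (-985)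
        960 0] = true := by
    decide +kernel
  obtain ⟨f, hf, hp⟩ := chkT4 h (by norm_num) (x := x) (y := T) (z := s) (w := k)
    (le_trans (by norm_num) a0) (le_trans b0 (by norm_num))
    (le_trans (by norm_num) a1) (le_trans b1 (by norm_num))
    (le_trans (by norm_num) a2) (le_trans b2 (by norm_num))
    (le_trans (by norm_num) a3) (le_trans b3 (by norm_num))
  simp only [List.mem_cons, List.not_mem_nil, or_false] at hf
  rcases hf with rfl | rfl | rfl | rfl | rfl | rfl
  · simp only [MR.e2_val, MR.en2_val, MR.eb2_val, NumUs.E.val, NumIs.E.val, NumIs.lkR] at hp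
    push_cast at hp
    try simp only [div_one] at hp
    linarith only [hp]
  · simp only [MR.e2_val, MR.en2_val, MR.eb2_val, NumUs.E.val, NumIs.E.val, NumIs.lkR] at hp
    push_cast at hp
    try simp only [div_one] at hp
    exfalso
    linarith only [c0, hp]
  · simp only [MR.e2_val, MR.en2_val, MR.eb2_val, NumUs.E.val, NumIs.E.val, NumIs.lkR] at hp
    push_cast at hp
    try simp only [div_one] at hp
    exfalso
    linarith only [c1, hp]
  · simp only [MR.e2_val, MR.en2_val, MR.eb2_val, NumUs.E.val, NumIs.E.val, NumIs.lkR] at hp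
    push_cast at hp
    try simp only [div_one] at hp
    exfalso
    linarith only [c2, hp]
  · simp only [MR.e2_val, MR.en2_val, MR.eb2_val, NumUs.E.val, NumIs.E.val, NumIs.lkR] at hp
    push_cast at hp
    try simp only [div_one] at hp
    exfalso
    linarith only [c3, hp]
  · simp only [MR.e2_val, MR.en2_val, MR.eb2_val, NumUs.E.val, NumIs.E.val, NumIs.lkR] at hp
    push_cast at hp
    try simp only [div_one] at hp
    exfalso
    linarith only [c4, hp]

end C23

end Pool.Agent.Work.MP_b30479_gtS.G2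

end

section

/-!
# Part of `ZRe1A`
-/
set_option linter.unusedSimpArgs false
set_option linter.unusedVariables false

set_option deprecated.oldSectionVars true

namespace Pool.Agent.Work.MP_b30479_gtS.G2

open VOL NumUs

namespace ZD

open NumUs.E ZE

theorem e1_pD4X1pA {x y s r : ℝ} (ua1 : 1500 / 10000 ≤ x) (ua2 : x ≤ 1850 / 10000) (ua3 : 0 / 10000 ≤ y) (ua4 : y ≤ 10 / 10000) (ua5 : 0 / 10000 ≤ s) (ua6 : s ≤ 200 / 10000) (ua7 : 0 / 10000 ≤ r) (ua8 : r ≤ 1045 / 10000) (ua9 : 0 ≤ (y - 4 * (r * s))) :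
    NumUs.uu (x + s) (y + 4 * (r * s)) + (NumUs.uu (x - s) (y - 4 * (r * s)) + Real.pi * (y - 4 * (r * s))) + (-NumUs.uu (x + 225 / 1000) (y + 9 / 10 * r) + -NumUs.uu (x + 775 / 1000) (y - 9 / 10 * r)) < (958 / 10000 - 85 / 100 * r) := by
  have h : chkT [sub (sub (q 958 10000) (mul (q 85 100) ZE.r)) (add (add (E.uu (add ZE.x ZE.s) (add ZE.y ZE.h)) (add (E.uu (sub ZE.x ZE.s) (sub ZE.y ZE.h)) (mul pi (sub ZE.y ZE.h)))) (add (neg (E.uu (add ZE.x (q 225 1000)) (add ZE.y (mul (q 9 10) ZE.r)))) (neg (E.uu (add ZE.x (q 775 1000)) (sub ZE.y (mul (q 9 10) ZE.r)))))), neg (sub ZE.y ZE.h)] 60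
    8
    [NumIs.V.of 10000 1500 1850, NumIs.V.of 10000 0 10, NumIs.V.of 10000 0 200, NumIs.V.of 10000 0 1045] = true := by
    decide +kernel
  obtain ⟨f, hf, hp⟩ := chkT4 h (by norm_num) (x := x) (y := y) (z := s) (w := r)
    (by norm_num; linarith only [ua1]) (by norm_num; linarith only [ua2]) (by norm_num; linarith only [ua3]) (by norm_num; linarith only [ua4]) (by norm_num; linarith only [ua5]) (by norm_num; linarith only [ua6]) (by norm_num; linarith only [ua7]) (by norm_num; linarith only [ua8])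
  by_contra hc
  push Not at hc
  simp only [List.mem_cons, List.not_mem_nil, or_false] at hf
  rcases hf with rfl | rfl
  · simp only [ZE.x, ZE.y, ZE.s, ZE.r, ZE.h, E.val, NumIs.lkR] at hp
    push_cast at hp
    linarith only [hc, hp]
  · simp only [ZE.x, ZE.y, ZE.s, ZE.r, ZE.h, E.val, NumIs.lkR] at hp
    push_cast at hp
    linarith only [ua9, hp]

theorem e1_pD4X1nA {x y s r : ℝ} (ua1 : 1500 / 10000 ≤ x) (ua2 : x ≤ 1850 / 10000) (ua3 : -(1580 / 10000) ≤ y) (ua4 : y ≤ 10 / 10000) (ua5 : 0 / 10000 ≤ s) (ua6 : s ≤ 200 / 10000) (ua7 : 0 / 10000 ≤ r) (ua8 : r ≤ 1045 / 10000) (ua9 : (y - 4 * (r * s)) ≤ 0) :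
    NumUs.uu (x + s) (y + 4 * (r * s)) + (NumUs.uu (x - s) (y - 4 * (r * s)) + Real.pi * -(y - 4 * (r * s))) + (-NumUs.uu (x + 225 / 1000) (y + 9 / 10 * r) + -NumUs.uu (x + 775 / 1000) (y - 9 / 10 * r)) < (958 / 10000 - 85 / 100 * r) := by
  have h : chkT [sub (sub (q 958 10000) (mul (q 85 100) ZE.r)) (add (add (E.uu (add ZE.x ZE.s) (add ZE.y ZE.h)) (add (E.uu (sub ZE.x ZE.s) (sub ZE.y ZE.h)) (mul pi (neg (sub ZE.y ZE.h))))) (add (neg (E.uu (add ZE.x (q 225 1000)) (add ZE.y (mul (q 9 10) ZE.r)))) (neg (E.uu (add ZE.x (q 775 1000)) (sub ZE.y (mul (q 9 10) ZE.r)))))), add (q 0 1) (sub ZE.y ZE.h)] 60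
    2177
    [NumIs.V.of 10000 1500 1850, NumIs.V.of 10000 (-1580) 10, NumIs.V.of 10000 0 200, NumIs.V.of 10000 0 1045] = true := by
    decide +kernel
  obtain ⟨f, hf, hp⟩ := chkT4 h (by norm_num) (x := x) (y := y) (z := s) (w := r)
    (by norm_num; linarith only [ua1]) (by norm_num; linarith only [ua2]) (by norm_num; linarith only [ua3]) (by norm_num; linarith only [ua4]) (by norm_num; linarith only [ua5]) (by norm_num; linarith only [ua6]) (by norm_num; linarith only [ua7]) (by norm_num; linarith only [ua8])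
  by_contra hc
  push Not at hc
  simp only [List.mem_cons, List.not_mem_nil, or_false] at hf
  rcases hf with rfl | rfl
  · simp only [ZE.x, ZE.y, ZE.s, ZE.r, ZE.h, E.val, NumIs.lkR] at hp
    push_cast at hp
    linarith only [hc, hp]
  · simp only [ZE.x, ZE.y, ZE.s, ZE.r, ZE.h, E.val, NumIs.lkR] at hp
    push_cast at hp
    linarith only [ua9, hp]

theorem e1_pD2X1B {x y s r : ℝ} (ua1 : 0 / 10000 ≤ x) (ua2 : x ≤ 500 / 10000) (ua3 : -(791 / 10000) ≤ y) (ua4 : y ≤ 10 / 10000) (ua5 : 200 / 10000 ≤ s) (ua6 : s ≤ 500 / 10000) (ua7 : 0 / 10000 ≤ r) (ua8 : r ≤ 1045 / 10000) (ua9 : -(200 / 10000) ≤ x - s) (ua10 : x - s ≤ 0) (ua11 : -y ≤ 158 / 100 * x) :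
    NumUs.uu (x + s) (y + 4 * (r * s)) + (((200 / 10000) + (x - s)) * NumIs.lnA (200 / 10000) (y - 4 * (r * s)) - NumUs.uu (200 / 10000) (y - 4 * (r * s))) + (-NumUs.uu (x + 225 / 1000) (y + 9 / 10 * r) + -NumUs.uu (x + 775 / 1000) (y - 9 / 10 * r)) < (958 / 10000 - 85 / 100 * r) := by
  have h : chkT [sub (sub (q 958 10000) (mul (q 85 100) ZE.r)) (add (add (E.uu (add ZE.x ZE.s) (add ZE.y ZE.h)) (sub (mul (add (q 200 10000) (sub ZE.x ZE.s)) (E.lnA (q 200 10000) (sub ZE.y ZE.h))) (E.uu (q 200 10000) (sub ZE.y ZE.h)))) (add (neg (E.uu (add ZE.x (q 225 1000)) (add ZE.y (mul (q 9 10) ZE.r)))) (neg (E.uu (add ZE.x (q 775 1000)) (sub ZE.y (mul (q 9 10) ZE.r)))))), sub (q (-200) 10000) (sub ZE.x ZE.s), sub ZE.x ZE.s, sub (neg ZE.y) (mul (q 158 100) ZE.x)] 60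
    58733106688847467349459379586580354723019670987907761754701124133302273
    [NumIs.V.of 10000 0 500, NumIs.V.of 10000 (-791) 10, NumIs.V.of 10000 200 500, NumIs.V.of 10000 0 1045] = true := by
    decide +kernel
  obtain ⟨f, hf, hp⟩ := chkT4 h (by norm_num) (x := x) (y := y) (z := s) (w := r)
    (by norm_num; linarith only [ua1]) (by norm_num; linarith only [ua2]) (by norm_num; linarith only [ua2, ua11]) (by norm_num; linarith only [ua4]) (by norm_num; linarith only [ua5]) (by norm_num; linarith only [ua6]) (by norm_num; linarith only [ua7]) (by norm_num; linarith only [ua8])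
  by_contra hc
  push Not at hc
  simp only [List.mem_cons, List.not_mem_nil, or_false] at hf
  rcases hf with rfl | rfl | rfl | rfl
  · simp only [ZE.x, ZE.y, ZE.s, ZE.r, ZE.h, E.val, NumIs.lkR] at hp
    push_cast at hp
    linarith only [hc, hp]
  · simp only [ZE.x, ZE.y, ZE.s, ZE.r, ZE.h, E.val, NumIs.lkR] at hp
    push_cast at hp
    linarith only [ua9, hp]
  · simp only [ZE.x, ZE.y, ZE.s, ZE.r, ZE.h, E.val, NumIs.lkR] at hp
    push_cast at hp
    linarith only [ua10, hp]
  · simp only [ZE.x, ZE.y, ZE.s, ZE.r, ZE.h, E.val, NumIs.lkR] at hp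
    push_cast at hp
    linarith only [ua11, hp]

theorem e1_pD3X1pB {x y s r : ℝ} (ua1 : 200 / 10000 ≤ x) (ua2 : x ≤ 700 / 10000) (ua3 : 0 / 10000 ≤ y) (ua4 : y ≤ 10 / 10000) (ua5 : 200 / 10000 ≤ s) (ua6 : s ≤ 500 / 10000) (ua7 : 0 / 10000 ≤ r) (ua8 : r ≤ 1045 / 10000) (ua9 : 0 ≤ x - s) (ua10 : x - s ≤ 200 / 10000) (ua11 : 0 ≤ (y - 4 * (r * s))) (ua12 : -y ≤ 158 / 100 * x) :
    NumUs.uu (x + s) (y + 4 * (r * s)) + (Real.pi * (1 / 2) * (y - 4 * (r * s)) * (1 + (50 / 1) * (x - s)) + (50 / 1) * (x - s) * NumUs.uu (200 / 10000) (y - 4 * (r * s))) + (-NumUs.uu (x + 225 / 1000) (y + 9 / 10 * r) + -NumUs.uu (x + 775 / 1000) (y - 9 / 10 * r)) < (958 / 10000 - 85 / 100 * r) := by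
  have h : chkT [sub (sub (q 958 10000) (mul (q 85 100) ZE.r)) (add (add (E.uu (add ZE.x ZE.s) (add ZE.y ZE.h)) (add (mul (mul (mul pi (q 1 2)) (sub ZE.y ZE.h)) (add (q 1 1) (mul (q 50 1) (sub ZE.x ZE.s)))) (mul (mul (q 50 1) (sub ZE.x ZE.s)) (E.uu (q 200 10000) (sub ZE.y ZE.h))))) (add (neg (E.uu (add ZE.x (q 225 1000)) (add ZE.y (mul (q 9 10) ZE.r)))) (neg (E.uu (add ZE.x (q 775 1000)) (sub ZE.y (mul (q 9 10) ZE.r)))))), sub ZE.s ZE.x, sub (sub ZE.x ZE.s) (q 200 10000), neg (sub ZE.y ZE.h), sub (neg ZE.y) (mul (q 158 100) ZE.x)] 60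
    2947
    [NumIs.V.of 10000 200 700, NumIs.V.of 10000 0 10, NumIs.V.of 10000 200 500, NumIs.V.of 10000 0 1045] = true := by
    decide +kernel
  obtain ⟨f, hf, hp⟩ := chkT4 h (by norm_num) (x := x) (y := y) (z := s) (w := r)
    (by norm_num; linarith only [ua1]) (by norm_num; linarith only [ua2]) (by norm_num; linarith only [ua3]) (by norm_num; linarith only [ua4]) (by norm_num; linarith only [ua5]) (by norm_num; linarith only [ua6]) (by norm_num; linarith only [ua7]) (by norm_num; linarith only [ua8])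
  by_contra hc
  push Not at hc
  simp only [List.mem_cons, List.not_mem_nil, or_false] at hf
  rcases hf with rfl | rfl | rfl | rfl | rfl
  · simp only [ZE.x, ZE.y, ZE.s, ZE.r, ZE.h, E.val, NumIs.lkR] at hp
    push_cast at hp
    linarith only [hc, hp]
  · simp only [ZE.x, ZE.y, ZE.s, ZE.r, ZE.h, E.val, NumIs.lkR] at hp
    push_cast at hp
    linarith only [ua9, hp]
  · simp only [ZE.x, ZE.y, ZE.s, ZE.r, ZE.h, E.val, NumIs.lkR] at hp
    push_cast at hp
    linarith only [ua10, hp]
  · simp only [ZE.x, ZE.y, ZE.s, ZE.r, ZE.h, E.val, NumIs.lkR] at hp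
    push_cast at hp
    linarith only [ua11, hp]
  · simp only [ZE.x, ZE.y, ZE.s, ZE.r, ZE.h, E.val, NumIs.lkR] at hp
    push_cast at hp
    linarith only [ua1, ua3, hp]

theorem e1_pD4X1pB {x y s r : ℝ} (ua1 : 400 / 10000 ≤ x) (ua2 : x ≤ 1850 / 10000) (ua3 : 0 / 10000 ≤ y) (ua4 : y ≤ 10 / 10000) (ua5 : 200 / 10000 ≤ s) (ua6 : s ≤ 500 / 10000) (ua7 : 0 / 10000 ≤ r) (ua8 : r ≤ 1045 / 10000) (ua9 : 200 / 10000 ≤ x - s) (ua10 : 0 ≤ (y - 4 * (r * s))) (ua11 : -y ≤ 158 / 100 * x) :
    NumUs.uu (x + s) (y + 4 * (r * s)) + (NumUs.uu (x - s) (y - 4 * (r * s)) + Real.pi * (y - 4 * (r * s))) + (-NumUs.uu (x + 225 / 1000) (y + 9 / 10 * r) + -NumUs.uu (x + 775 / 1000) (y - 9 / 10 * r)) < (958 / 10000 - 85 / 100 * r) := by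
  have h : chkT [sub (sub (q 958 10000) (mul (q 85 100) ZE.r)) (add (add (E.uu (add ZE.x ZE.s) (add ZE.y ZE.h)) (add (E.uu (sub ZE.x ZE.s) (sub ZE.y ZE.h)) (mul pi (sub ZE.y ZE.h)))) (add (neg (E.uu (add ZE.x (q 225 1000)) (add ZE.y (mul (q 9 10) ZE.r)))) (neg (E.uu (add ZE.x (q 775 1000)) (sub ZE.y (mul (q 9 10) ZE.r)))))), sub (q 200 10000) (sub ZE.x ZE.s), neg (sub ZE.y ZE.h), sub (neg ZE.y) (mul (q 158 100) ZE.x)] 60
    2679622645085423309080887344
    [NumIs.V.of 10000 400 1850, NumIs.V.of 10000 0 10, NumIs.V.of 10000 200 500, NumIs.V.of 10000 0 1045] = true := by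
    decide +kernel
  obtain ⟨f, hf, hp⟩ := chkT4 h (by norm_num) (x := x) (y := y) (z := s) (w := r)
    (by norm_num; linarith only [ua1]) (by norm_num; linarith only [ua2]) (by norm_num; linarith only [ua3]) (by norm_num; linarith only [ua4]) (by norm_num; linarith only [ua5]) (by norm_num; linarith only [ua6]) (by norm_num; linarith only [ua7]) (by norm_num; linarith only [ua8])
  by_contra hc
  push Not at hc
  simp only [List.mem_cons, List.not_mem_nil, or_false] at hf
  rcases hf with rfl | rfl | rfl | rfl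
  · simp only [ZE.x, ZE.y, ZE.s, ZE.r, ZE.h, E.val, NumIs.lkR] at hp
    push_cast at hp
    linarith only [hc, hp]
  · simp only [ZE.x, ZE.y, ZE.s, ZE.r, ZE.h, E.val, NumIs.lkR] at hp
    push_cast at hp
    linarith only [ua9, hp]
  · simp only [ZE.x, ZE.y, ZE.s, ZE.r, ZE.h, E.val, NumIs.lkR] at hp
    push_cast at hp
    linarith only [ua10, hp]
  · simp only [ZE.x, ZE.y, ZE.s, ZE.r, ZE.h, E.val, NumIs.lkR] at hp
    push_cast at hp
    linarith only [ua1, ua3, hp]

theorem e1_pD3X1nB {x y s r : ℝ} (ua1 : 200 / 10000 ≤ x) (ua2 : x ≤ 700 / 10000) (ua3 : -(1107 / 10000) ≤ y) (ua4 : y ≤ 10 / 10000) (ua5 : 200 / 10000 ≤ s) (ua6 : s ≤ 500 / 10000) (ua7 : 0 / 10000 ≤ r) (ua8 : r ≤ 1045 / 10000) (ua9 : 0 ≤ x - s) (ua10 : x - s ≤ 200 / 10000) (ua11 : (y - 4 * (r * s)) ≤ 0) (ua12 : -y ≤ 158 / 100 * x) :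
    NumUs.uu (x + s) (y + 4 * (r * s)) + (Real.pi * (1 / 2) * -(y - 4 * (r * s)) * (1 + (50 / 1) * (x - s)) + (50 / 1) * (x - s) * NumUs.uu (200 / 10000) (y - 4 * (r * s))) + (-NumUs.uu (x + 225 / 1000) (y + 9 / 10 * r) + -NumUs.uu (x + 775 / 1000) (y - 9 / 10 * r)) < (958 / 10000 - 85 / 100 * r) := by
  have h : chkT [sub (sub (q 958 10000) (mul (q 85 100) ZE.r)) (add (add (E.uu (add ZE.x ZE.s) (add ZE.y ZE.h)) (add (mul (mul (mul pi (q 1 2)) (neg (sub ZE.y ZE.h))) (add (q 1 1) (mul (q 50 1) (sub ZE.x ZE.s)))) (mul (mul (q 50 1) (sub ZE.x ZE.s)) (E.uu (q 200 10000) (sub ZE.y ZE.h))))) (add (neg (E.uu (add ZE.x (q 225 1000)) (add ZE.y (mul (q 9 10) ZE.r)))) (neg (E.uu (add ZE.x (q 775 1000)) (sub ZE.y (mul (q 9 10) ZE.r)))))), sub ZE.s ZE.x, sub (sub ZE.x ZE.s) (q 200 10000), add (q 0 1) (sub ZE.y ZE.h), sub (neg ZE.y) (mul (q 158 100) ZE.x)] 60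
    229529181141290460627994834270420601720564513801367429486220746604561
    [NumIs.V.of 10000 200 700, NumIs.V.of 10000 (-1107) 10, NumIs.V.of 10000 200 500, NumIs.V.of 10000 0 1045] = true := by
    decide +kernel
  obtain ⟨f, hf, hp⟩ := chkT4 h (by norm_num) (x := x) (y := y) (z := s) (w := r)
    (by norm_num; linarith only [ua1]) (by norm_num; linarith only [ua2]) (by norm_num; linarith only [ua2, ua12]) (by norm_num; linarith only [ua4]) (by norm_num; linarith only [ua5]) (by norm_num; linarith only [ua6]) (by norm_num; linarith only [ua7]) (by norm_num; linarith only [ua8])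
  by_contra hc
  push Not at hc
  simp only [List.mem_cons, List.not_mem_nil, or_false] at hf
  rcases hf with rfl | rfl | rfl | rfl | rfl
  · simp only [ZE.x, ZE.y, ZE.s, ZE.r, ZE.h, E.val, NumIs.lkR] at hp
    push_cast at hp
    linarith only [hc, hp]
  · simp only [ZE.x, ZE.y, ZE.s, ZE.r, ZE.h, E.val, NumIs.lkR] at hp
    push_cast at hp
    linarith only [ua9, hp]
  · simp only [ZE.x, ZE.y, ZE.s, ZE.r, ZE.h, E.val, NumIs.lkR] at hp
    push_cast at hp
    linarith only [ua10, hp]
  · simp only [ZE.x, ZE.y, ZE.s, ZE.r, ZE.h, E.val, NumIs.lkR] at hp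
    push_cast at hp
    linarith only [ua11, hp]
  · simp only [ZE.x, ZE.y, ZE.s, ZE.r, ZE.h, E.val, NumIs.lkR] at hp
    push_cast at hp
    linarith only [ua12, hp]

theorem e1_pD4X1nB {x y s r : ℝ} (ua1 : 400 / 10000 ≤ x) (ua2 : x ≤ 1850 / 10000) (ua3 : -(1580 / 10000) ≤ y) (ua4 : y ≤ 10 / 10000) (ua5 : 200 / 10000 ≤ s) (ua6 : s ≤ 500 / 10000) (ua7 : 0 / 10000 ≤ r) (ua8 : r ≤ 1045 / 10000) (ua9 : 200 / 10000 ≤ x - s) (ua10 : (y - 4 * (r * s)) ≤ 0) (ua11 : -y ≤ 158 / 100 * x) :
    NumUs.uu (x + s) (y + 4 * (r * s)) + (NumUs.uu (x - s) (y - 4 * (r * s)) + Real.pi * -(y - 4 * (r * s))) + (-NumUs.uu (x + 225 / 1000) (y + 9 / 10 * r) + -NumUs.uu (x + 775 / 1000) (y - 9 / 10 * r)) < (958 / 10000 - 85 / 100 * r) := by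
  have h : chkT [sub (sub (q 958 10000) (mul (q 85 100) ZE.r)) (add (add (E.uu (add ZE.x ZE.s) (add ZE.y ZE.h)) (add (E.uu (sub ZE.x ZE.s) (sub ZE.y ZE.h)) (mul pi (neg (sub ZE.y ZE.h))))) (add (neg (E.uu (add ZE.x (q 225 1000)) (add ZE.y (mul (q 9 10) ZE.r)))) (neg (E.uu (add ZE.x (q 775 1000)) (sub ZE.y (mul (q 9 10) ZE.r)))))), sub (q 200 10000) (sub ZE.x ZE.s), add (q 0 1) (sub ZE.y ZE.h), sub (neg ZE.y) (mul (q 158 100) ZE.x)] 60
    15042577058691538190915663866206182579847228457820248489973985353755795456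
    [NumIs.V.of 10000 400 1850, NumIs.V.of 10000 (-1580) 10, NumIs.V.of 10000 200 500, NumIs.V.of 10000 0 1045] = true := by
    decide +kernel
  obtain ⟨f, hf, hp⟩ := chkT4 h (by norm_num) (x := x) (y := y) (z := s) (w := r)
    (by norm_num; linarith only [ua1]) (by norm_num; linarith only [ua2]) (by norm_num; linarith only [ua3]) (by norm_num; linarith only [ua4]) (by norm_num; linarith only [ua5]) (by norm_num; linarith only [ua6]) (by norm_num; linarith only [ua7]) (by norm_num; linarith only [ua8])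
  by_contra hc
  push Not at hc
  simp only [List.mem_cons, List.not_mem_nil, or_false] at hf
  rcases hf with rfl | rfl | rfl | rfl
  · simp only [ZE.x, ZE.y, ZE.s, ZE.r, ZE.h, E.val, NumIs.lkR] at hp
    push_cast at hp
    linarith only [hc, hp]
  · simp only [ZE.x, ZE.y, ZE.s, ZE.r, ZE.h, E.val, NumIs.lkR] at hp
    push_cast at hp
    linarith only [ua9, hp]
  · simp only [ZE.x, ZE.y, ZE.s, ZE.r, ZE.h, E.val, NumIs.lkR] at hp
    push_cast at hp
    linarith only [ua10, hp]
  · simp only [ZE.x, ZE.y, ZE.s, ZE.r, ZE.h, E.val, NumIs.lkR] at hp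
    push_cast at hp
    linarith only [ua11, hp]

theorem e1_pD1X1C_h1_q1 : Pool.Agent.Work.NumUs.runT [sub (sub (q 958 10000) (mul (q 85 100) ZE.r)) (add (add (E.uu (add ZE.x ZE.s) (add ZE.y ZE.h)) (E.uu (sub (add (q 1 1) ZE.x) ZE.s) (sub ZE.y ZE.h))) (add (neg (E.uu (add ZE.x (q 225 1000)) (add ZE.y (mul (q 9 10) ZE.r)))) (neg (E.uu (add ZE.x (q 775 1000)) (sub ZE.y (mul (q 9 10) ZE.r)))))), sub (sub ZE.x ZE.s) (q (-400) 10000), sub (neg ZE.y) (mul (q 158 100) ZE.x)] 58
    99319124132329019194925458287051204329969593003220183206109351812183777200441770938608456868933020448274422881871398779593525234000382009646155377176404973444566156219608673424831652777809652205155724117101959639268382600130155678421302670286810898945398514801787301783400217938312292380405792354478663462055479022663562467917467133412033499043901021046574839679185552761467440378018080809510853934614109464326447084814670037360166199421818756660373604813727187730184439599475044977015874992968060831865900209732971105614119337822988349415933177898553865701976342199796939254084278795338382740240163110333310945173094035995973659080027660922002072218674602079245856932280355464143799158272713002946784576190187473670132129838124336923591635170410217839775701782948441390853342699129686777435722112056509093147980123340440101183985868159489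
    (Pool.Agent.Work.NumIs.setL 2 (Pool.Agent.Work.NumIs.setL 0 ([NumIs.V.of 10000 0 1600, NumIs.V.of 10000 (-1580) 10, NumIs.V.of 10000 500 2000, NumIs.V.of 10000 0 1045]))) =
    2735753239433307145978988474192565858975369426474637774932047435684591038173871654947665555984417013444242261845540661529345956310696626433246965285166622444690633805729075095038903792332989576256955389226773743421279921781464110733630622201182365430225633410791675249873545987352249093421414183712112436384573125926217094516843782512175364654911462098057837222698490922183682599875070160117012541185709721089798223298403900637267605902787930194204592396951422605793604052770277806712004013728581649380933337654076627555623399542350283224884945549836529410067 := by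
  decide +kernel

theorem e1_pD1X1C_h1_q2 : Pool.Agent.Work.NumUs.runT [sub (sub (q 958 10000) (mul (q 85 100) ZE.r)) (add (add (E.uu (add ZE.x ZE.s) (add ZE.y ZE.h)) (E.uu (sub (add (q 1 1) ZE.x) ZE.s) (sub ZE.y ZE.h))) (add (neg (E.uu (add ZE.x (q 225 1000)) (add ZE.y (mul (q 9 10) ZE.r)))) (neg (E.uu (add ZE.x (q 775 1000)) (sub ZE.y (mul (q 9 10) ZE.r)))))), sub (sub ZE.x ZE.s) (q (-400) 10000), sub (neg ZE.y) (mul (q 158 100) ZE.x)] 58
    2735753239433307145978988474192565858975369426474637774932047435684591038173871654947665555984417013444242261845540661529345956310696626433246965285166622444690633805729075095038903792332989576256955389226773743421279921781464110733630622201182365430225633410791675249873545987352249093421414183712112436384573125926217094516843782512175364654911462098057837222698490922183682599875070160117012541185709721089798223298403900637267605902787930194204592396951422605793604052770277806712004013728581649380933337654076627555623399542350283224884945549836529410066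
    (Pool.Agent.Work.NumIs.setR 2 (Pool.Agent.Work.NumIs.setL 0 ([NumIs.V.of 10000 0 1600, NumIs.V.of 10000 (-1580) 10, NumIs.V.of 10000 500 2000, NumIs.V.of 10000 0 1045]))) =
    7935970170518986935486005190760161437034027335744906867979848681705057577394560193583965800637828320965656323056046523804351804168691183380874248559134213359393877334468913376857584495288220479115878357518254414125143551089928733044690569233918076743701816527492906507937739330779842704897716264203989398375193616564157189306050781087393194018 := by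
  decide +kernel

theorem e1_pD1X1C_h1_q3 : Pool.Agent.Work.NumUs.runT [sub (sub (q 958 10000) (mul (q 85 100) ZE.r)) (add (add (E.uu (add ZE.x ZE.s) (add ZE.y ZE.h)) (E.uu (sub (add (q 1 1) ZE.x) ZE.s) (sub ZE.y ZE.h))) (add (neg (E.uu (add ZE.x (q 225 1000)) (add ZE.y (mul (q 9 10) ZE.r)))) (neg (E.uu (add ZE.x (q 775 1000)) (sub ZE.y (mul (q 9 10) ZE.r)))))), sub (sub ZE.x ZE.s) (q (-400) 10000), sub (neg ZE.y) (mul (q 158 100) ZE.x)] 59
    7935970170518986935486005190760161437034027335744906867979848681705057577394560193583965800637828320965656323056046523804351804168691183380874248559134213359393877334468913376857584495288220479115878357518254414125143551089928733044690569233918076743701816527492906507937739330779842704897716264203989398375193616564157189306050781087393194017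
    (Pool.Agent.Work.NumIs.setR 0 ([NumIs.V.of 10000 0 1600, NumIs.V.of 10000 (-1580) 10, NumIs.V.of 10000 500 2000, NumIs.V.of 10000 0 1045])) =
    1 := by
  decide +kernel

theorem e1_pD3X1pC {x y s r : ℝ} (ua1 : 500 / 10000 ≤ x) (ua2 : x ≤ 1850 / 10000) (ua3 : 0 / 10000 ≤ y) (ua4 : y ≤ 10 / 10000) (ua5 : 500 / 10000 ≤ s) (ua6 : s ≤ 1850 / 10000) (ua7 : 0 / 10000 ≤ r) (ua8 : r ≤ 1045 / 10000) (ua9 : 0 ≤ x - s) (ua10 : x - s ≤ 400 / 10000) (ua11 : 0 ≤ (y - 4 * (r * s))) (ua12 : -y ≤ 158 / 100 * x) :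
    NumUs.uu (x + s) (y + 4 * (r * s)) + (Real.pi * (1 / 2) * (y - 4 * (r * s)) * (1 + (25 / 1) * (x - s)) + (25 / 1) * (x - s) * NumUs.uu (400 / 10000) (y - 4 * (r * s))) + (-NumUs.uu (x + 225 / 1000) (y + 9 / 10 * r) + -NumUs.uu (x + 775 / 1000) (y - 9 / 10 * r)) < (958 / 10000 - 85 / 100 * r) := by
  have h : chkT [sub (sub (q 958 10000) (mul (q 85 100) ZE.r)) (add (add (E.uu (add ZE.x ZE.s) (add ZE.y ZE.h)) (add (mul (mul (mul pi (q 1 2)) (sub ZE.y ZE.h)) (add (q 1 1) (mul (q 25 1) (sub ZE.x ZE.s)))) (mul (mul (q 25 1) (sub ZE.x ZE.s)) (E.uu (q 400 10000) (sub ZE.y ZE.h))))) (add (neg (E.uu (add ZE.x (q 225 1000)) (add ZE.y (mul (q 9 10) ZE.r)))) (neg (E.uu (add ZE.x (q 775 1000)) (sub ZE.y (mul (q 9 10) ZE.r)))))), sub ZE.s ZE.x, sub (sub ZE.x ZE.s) (q 400 10000), neg (sub ZE.y ZE.h), sub (neg ZE.y) (mul (q 158 100) ZE.x)] 60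
    3627020811946811115793023776
    [NumIs.V.of 10000 500 1850, NumIs.V.of 10000 0 10, NumIs.V.of 10000 500 1850, NumIs.V.of 10000 0 1045] = true := by
    decide +kernel
  obtain ⟨f, hf, hp⟩ := chkT4 h (by norm_num) (x := x) (y := y) (z := s) (w := r)
    (by norm_num; linarith only [ua1]) (by norm_num; linarith only [ua2]) (by norm_num; linarith only [ua3]) (by norm_num; linarith only [ua4]) (by norm_num; linarith only [ua5]) (by norm_num; linarith only [ua6]) (by norm_num; linarith only [ua7]) (by norm_num; linarith only [ua8])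
  by_contra hc
  push Not at hc
  simp only [List.mem_cons, List.not_mem_nil, or_false] at hf
  rcases hf with rfl | rfl | rfl | rfl | rfl
  · simp only [ZE.x, ZE.y, ZE.s, ZE.r, ZE.h, E.val, NumIs.lkR] at hp
    push_cast at hp
    linarith only [hc, hp]
  · simp only [ZE.x, ZE.y, ZE.s, ZE.r, ZE.h, E.val, NumIs.lkR] at hp
    push_cast at hp
    linarith only [ua9, hp]
  · simp only [ZE.x, ZE.y, ZE.s, ZE.r, ZE.h, E.val, NumIs.lkR] at hp
    push_cast at hp
    linarith only [ua10, hp]
  · simp only [ZE.x, ZE.y, ZE.s, ZE.r, ZE.h, E.val, NumIs.lkR] at hp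
    push_cast at hp
    linarith only [ua11, hp]
  · simp only [ZE.x, ZE.y, ZE.s, ZE.r, ZE.h, E.val, NumIs.lkR] at hp
    push_cast at hp
    linarith only [ua1, ua3, hp]

theorem e1_pD4X1pC {x y s r : ℝ} (ua1 : 900 / 10000 ≤ x) (ua2 : x ≤ 1850 / 10000) (ua3 : 0 / 10000 ≤ y) (ua4 : y ≤ 10 / 10000) (ua5 : 500 / 10000 ≤ s) (ua6 : s ≤ 1450 / 10000) (ua7 : 0 / 10000 ≤ r) (ua8 : r ≤ 1045 / 10000) (ua9 : 400 / 10000 ≤ x - s) (ua10 : 0 ≤ (y - 4 * (r * s))) (ua11 : -y ≤ 158 / 100 * x) :
    NumUs.uu (x + s) (y + 4 * (r * s)) + (NumUs.uu (x - s) (y - 4 * (r * s)) + Real.pi * (y - 4 * (r * s))) + (-NumUs.uu (x + 225 / 1000) (y + 9 / 10 * r) + -NumUs.uu (x + 775 / 1000) (y - 9 / 10 * r)) < (958 / 10000 - 85 / 100 * r) := by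
  have h : chkT [sub (sub (q 958 10000) (mul (q 85 100) ZE.r)) (add (add (E.uu (add ZE.x ZE.s) (add ZE.y ZE.h)) (add (E.uu (sub ZE.x ZE.s) (sub ZE.y ZE.h)) (mul pi (sub ZE.y ZE.h)))) (add (neg (E.uu (add ZE.x (q 225 1000)) (add ZE.y (mul (q 9 10) ZE.r)))) (neg (E.uu (add ZE.x (q 775 1000)) (sub ZE.y (mul (q 9 10) ZE.r)))))), sub (q 400 10000) (sub ZE.x ZE.s), neg (sub ZE.y ZE.h), sub (neg ZE.y) (mul (q 158 100) ZE.x)] 60
    260778907891389375190906516198968039153569132425884217859
    [NumIs.V.of 10000 900 1850, NumIs.V.of 10000 0 10, NumIs.V.of 10000 500 1450, NumIs.V.of 10000 0 1045] = true := by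
    decide +kernel
  obtain ⟨f, hf, hp⟩ := chkT4 h (by norm_num) (x := x) (y := y) (z := s) (w := r)
    (by norm_num; linarith only [ua1]) (by norm_num; linarith only [ua2]) (by norm_num; linarith only [ua3]) (by norm_num; linarith only [ua4]) (by norm_num; linarith only [ua5]) (by norm_num; linarith only [ua6]) (by norm_num; linarith only [ua7]) (by norm_num; linarith only [ua8])
  by_contra hc
  push Not at hc
  simp only [List.mem_cons, List.not_mem_nil, or_false] at hf
  rcases hf with rfl | rfl | rfl | rfl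
  · simp only [ZE.x, ZE.y, ZE.s, ZE.r, ZE.h, E.val, NumIs.lkR] at hp
    push_cast at hp
    linarith only [hc, hp]
  · simp only [ZE.x, ZE.y, ZE.s, ZE.r, ZE.h, E.val, NumIs.lkR] at hp
    push_cast at hp
    linarith only [ua9, hp]
  · simp only [ZE.x, ZE.y, ZE.s, ZE.r, ZE.h, E.val, NumIs.lkR] at hp
    push_cast at hp
    linarith only [ua10, hp]
  · simp only [ZE.x, ZE.y, ZE.s, ZE.r, ZE.h, E.val, NumIs.lkR] at hp
    push_cast at hp
    linarith only [ua1, ua3, hp]

theorem e1_pD3X1nC_h1_q1 : Pool.Agent.Work.NumUs.runT [sub (sub (q 958 10000) (mul (q 85 100) ZE.r)) (add (add (E.uu (add ZE.x ZE.s) (add ZE.y ZE.h)) (add (mul (mul (mul pi (q 1 2)) (neg (sub ZE.y ZE.h))) (add (q 1 1) (mul (q 25 1) (sub ZE.x ZE.s)))) (mul (mul (q 25 1) (sub ZE.x ZE.s)) (E.uu (q 400 10000) (sub ZE.y ZE.h))))) (add (neg (E.uu (add ZE.x (q 225 1000)) (add ZE.y (mul (q 9 10) ZE.r)))) (neg (E.uu (add ZE.x (q 775 1000)) (sub ZE.y (mul (q 9 10) ZE.r)))))), sub ZE.s ZE.x, sub (sub ZE.x ZE.s) (q 400 10000),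 add (q 0 1) (sub ZE.y ZE.h), sub (neg ZE.y) (mul (q 158 100) ZE.x)] 58
    734703348072121917410784661191098422528109995900565267586124439276650172234889403136912491039488470243522985584693805086814136883564014844321001708208895726965455065610316207566422797414482794878731771021329593939510823845089216072869697960772414679689413508811247673299426777518355131750891718134338711045638071697674134965303714659966204537624313426574005792280547679779918046698179329606961850247778879536291733291932030407328726553269400829341102693003494511282559603270189015756357040156934128039560742147967471861384813242083308569059748054751397585772651479568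
    (Pool.Agent.Work.NumIs.setL 2 (Pool.Agent.Work.NumIs.setL 1 ([NumIs.V.of 10000 500 1850, NumIs.V.of 10000 (-1580) 10, NumIs.V.of 10000 500 1850, NumIs.V.of 10000 0 1045]))) =
    271340012126619701843778558606488474403060839561885243237060818759674373460123093137135416890096285457597960314536862999210712902082314005593390939063222949937432086685145554002198588488248783601418935067407549743975943821365558006915528157875270838474280117133368929566252946133204967534104818473212294509101678350349015409114938289268225397259293813688054517026201595670540791841531825409703150567267842041989513436424213871290224872689697 := by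
  decide +kernel

theorem e1_pD3X1nC_h1_q2 : Pool.Agent.Work.NumUs.runT [sub (sub (q 958 10000) (mul (q 85 100) ZE.r)) (add (add (E.uu (add ZE.x ZE.s) (add ZE.y ZE.h)) (add (mul (mul (mul pi (q 1 2)) (neg (sub ZE.y ZE.h))) (add (q 1 1) (mul (q 25 1) (sub ZE.x ZE.s)))) (mul (mul (q 25 1) (sub ZE.x ZE.s)) (E.uu (q 400 10000) (sub ZE.y ZE.h))))) (add (neg (E.uu (add ZE.x (q 225 1000)) (add ZE.y (mul (q 9 10) ZE.r)))) (neg (E.uu (add ZE.x (q 775 1000)) (sub ZE.y (mul (q 9 10) ZE.r)))))), sub ZE.s ZE.x, sub (sub ZE.x ZE.s) (q 400 10000), add (q 0 1) (sub ZE.y ZE.h), sub (neg ZE.y) (mul (q 158 100) ZE.x)] 58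
    271340012126619701843778558606488474403060839561885243237060818759674373460123093137135416890096285457597960314536862999210712902082314005593390939063222949937432086685145554002198588488248783601418935067407549743975943821365558006915528157875270838474280117133368929566252946133204967534104818473212294509101678350349015409114938289268225397259293813688054517026201595670540791841531825409703150567267842041989513436424213871290224872689696
    (Pool.Agent.Work.NumIs.setR 2 (Pool.Agent.Work.NumIs.setL 1 ([NumIs.V.of 10000 500 1850, NumIs.V.of 10000 (-1580) 10, NumIs.V.of 10000 500 1850, NumIs.V.of 10000 0 1045]))) =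
    267840587948522820619923766750220231147767509737605234187630622072319067924762633695587814238003187726234866592558587725965395744686163337782214436188038183820316011444167518255427870436590995689584003167689320921432786183534977930675863858559057575198131802349857 := by
  decide +kernel

theorem e1_pD3X1nC_h1_q3 : Pool.Agent.Work.NumUs.runT [sub (sub (q 958 10000) (mul (q 85 100) ZE.r)) (add (add (E.uu (add ZE.x ZE.s) (add ZE.y ZE.h)) (add (mul (mul (mul pi (q 1 2)) (neg (sub ZE.y ZE.h))) (add (q 1 1) (mul (q 25 1) (sub ZE.x ZE.s)))) (mul (mul (q 25 1) (sub ZE.x ZE.s)) (E.uu (q 400 10000) (sub ZE.y ZE.h))))) (add (neg (E.uu (add ZE.x (q 225 1000)) (add ZE.y (mul (q 9 10) ZE.r)))) (neg (E.uu (add ZE.x (q 775 1000)) (sub ZE.y (mul (q 9 10) ZE.r)))))), sub ZE.s ZE.x, sub (sub ZE.x ZE.s) (q 400 10000), add (q 0 1) (sub ZE.y ZE.h), sub (neg ZE.y) (mul (q 158 100) ZE.x)] 59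
    267840587948522820619923766750220231147767509737605234187630622072319067924762633695587814238003187726234866592558587725965395744686163337782214436188038183820316011444167518255427870436590995689584003167689320921432786183534977930675863858559057575198131802349856
    (Pool.Agent.Work.NumIs.setR 1 ([NumIs.V.of 10000 500 1850, NumIs.V.of 10000 (-1580) 10, NumIs.V.of 10000 500 1850, NumIs.V.of 10000 0 1045])) =
    1 := by
  decide +kernel

theorem e1_pD3X2nC_h1_q1 : Pool.Agent.Work.NumUs.runT [sub (sub (q 958 10000) (mul (q 85 100) ZE.r)) (add (add (E.uu (add ZE.x ZE.s) (add ZE.y ZE.h)) (add (mul (mul (mul pi (q 1 2)) (neg (sub ZE.y ZE.h))) (add (q 1 1) (mul (q 25 1) (sub ZE.x ZE.s)))) (mul (mul (q 25 1) (sub ZE.x ZE.s)) (E.uu (q 400 10000) (sub ZE.y ZE.h))))) (add (neg (E.uu (add ZE.x (q 225 1000)) (add ZE.y (mul (q 9 10) ZE.r)))) (sub (mul (mul (q 25 1) (sub (q 225 1000) ZE.x)) (E.uu (q 400 10000) (sub ZE.y (mul (q 9 10) ZE.r)))) (mul (mul (mul pi (q 1 2)) (sub ZE.y (mul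 (q 9 10) ZE.r))) (sub (q 1 1) (mul (q 25 1) (sub (q 225 1000) ZE.x))))))), sub (sub (q 958 10000) (mul (q 85 100) ZE.r)) (add (add (E.uu (add ZE.x ZE.s) (add ZE.y ZE.h)) (add (mul (mul (mul pi (q 1 2)) (neg (sub ZE.y ZE.h))) (add (q 1 1) (mul (q 25 1) (sub ZE.x ZE.s)))) (mul (mul (q 25 1) (sub ZE.x ZE.s)) (E.uu (q 400 10000) (sub ZE.y ZE.h))))) (add (neg (E.uu (add ZE.x (q 225 1000)) (add ZE.y (mul (q 9 10) ZE.r)))) (sub (mul (mul (q 25 1) (sub (q 225 1000) ZE.x)) (E.uu (q 400 10000) (sub ZE.y (mul (q 9 10) ZE.r)))) (mul (mul (mul pi (q 1 2)) (neg (sub ZE.y (mul (q 9 10) ZE.r)))) (sub (q 1 1) (mul (q 25 1) (sub (q 225 1000) ZE.x))))))), sub ZE.s ZE.x, sub (sub ZE.x ZE.s) (q 400 10000), add (q 0 1) (sub ZE.y ZE.h)] 59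
    190543426986064665931615251624765451566527335032310782583736367046402930056558355908181217015744308149106767813634212426640117693675283656774885843181470862811178890623282895923594692136274502051108976757290854973994549386540322225816836234230078406095744688180227513698651445010721628051447054386728164474418801958961450960651140112471842503631012878967501609188971216246093779731
    (Pool.Agent.Work.NumIs.setL 1 ([NumIs.V.of 10000 1850 2250, NumIs.V.of 10000 (-1580) 10, NumIs.V.of 10000 1450 2000, NumIs.V.of 10000 0 1045])) =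
    128693678667056978857759908136954408692509602614678781286913545180659807917764716921128003737006678338930027726590142449890579650606133024055482636118922004 := by
  decide +kernel

theorem e1_pD3X2nC_h1_q2 : Pool.Agent.Work.NumUs.runT [sub (sub (q 958 10000) (mul (q 85 100) ZE.r)) (add (add (E.uu (add ZE.x ZE.s) (add ZE.y ZE.h)) (add (mul (mul (mul pi (q 1 2)) (neg (sub ZE.y ZE.h))) (add (q 1 1) (mul (q 25 1) (sub ZE.x ZE.s)))) (mul (mul (q 25 1) (sub ZE.x ZE.s)) (E.uu (q 400 10000) (sub ZE.y ZE.h))))) (add (neg (E.uu (add ZE.x (q 225 1000)) (add ZE.y (mul (q 9 10) ZE.r)))) (sub (mul (mul (q 25 1) (sub (q 225 1000) ZE.x)) (E.uu (q 400 10000) (sub ZE.y (mul (q 9 10) ZE.r)))) (mul (mul (mul pi (q 1 2)) (sub ZE.y (mul (q 9 10) ZE.r))) (sub (q 1 1) (mul (q 25 1) (sub (q 225 1000) ZE.x))))))), sub (sub (q 958 10000) (mul (q 85 100) ZE.r)) (add (add (E.uu (add ZE.x ZE.s) (add ZE.y ZE.h)) (add (mul (mul (mul pi (q 1 2)) (neg (sub ZE.y ZE.h))) (add (q 1 1) (mul (q 25 1) (sub ZE.x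 ZE.s)))) (mul (mul (q 25 1) (sub ZE.x ZE.s)) (E.uu (q 400 10000) (sub ZE.y ZE.h))))) (add (neg (E.uu (add ZE.x (q 225 1000)) (add ZE.y (mul (q 9 10) ZE.r)))) (sub (mul (mul (q 25 1) (sub (q 225 1000) ZE.x)) (E.uu (q 400 10000) (sub ZE.y (mul (q 9 10) ZE.r)))) (mul (mul (mul pi (q 1 2)) (neg (sub ZE.y (mul (q 9 10) ZE.r)))) (sub (q 1 1) (mul (q 25 1) (sub (q 225 1000) ZE.x))))))), sub ZE.s ZE.x, sub (sub ZE.x ZE.s) (q 400 10000), add (q 0 1) (sub ZE.y ZE.h)] 59
    128693678667056978857759908136954408692509602614678781286913545180659807917764716921128003737006678338930027726590142449890579650606133024055482636118922003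
    (Pool.Agent.Work.NumIs.setR 1 ([NumIs.V.of 10000 1850 2250, NumIs.V.of 10000 (-1580) 10, NumIs.V.of 10000 1450 2000, NumIs.V.of 10000 0 1045])) =
    1 := by
  decide +kernel

end ZD

end Pool.Agent.Work.MP_b30479_gtS.G2

end

section

/-!
# Part of `ZRe1A`
-/
set_option linter.unusedSimpArgs false
set_option linter.unusedVariables false

set_option deprecated.oldSectionVars true

namespace Pool.Agent.Work.MP_b30479_gtS.G2

open VOL NumUs

namespace ZD

open NumUs.E ZE

theorem e1_pD4X4nY {x y s r : ℝ} (ua1 : 6000 / 10000 ≤ x) (ua2 : x ≤ 6500 / 10000) (ua3 : -(273 / 10000) ≤ y) (ua4 : y ≤ 0 / 10000) (ua5 : 200 / 10000 ≤ s) (ua6 : s ≤ 500 / 10000) (ua7 : 0 / 10000 ≤ r) (ua8 : r ≤ 1045 / 10000) (ua9 : (y - 4 * (r * s)) ≤ 0) (ua10 : -y ≤ 545 / 1000 * (65 / 100 - x)) :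
    NumUs.uu (x + s) (y + 4 * (r * s)) + (NumUs.uu (x - s) (y - 4 * (r * s)) + Real.pi * -(y - 4 * (r * s))) + (-NumUs.uu (x + 225 / 1000) (y + 9 / 10 * r) + -(NumUs.uu (x - 225 / 1000) (y - 9 / 10 * r) + Real.pi * (y - 9 / 10 * r))) < (958 / 10000 - 85 / 100 * r) ∨ NumUs.uu (x + s) (y + 4 * (r * s)) + (NumUs.uu (x - s) (y - 4 * (r * s)) + Real.pi * -(y - 4 * (r * s))) + (-NumUs.uu (x + 225 / 1000) (y + 9 / 10 * r) + -(NumUs.uu (x - 225 / 1000) (y - 9 / 10 * r) + Real.pi * -(y - 9 / 10 * r))) < (958 / 10000 - 85 / 100 * r) := by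
  have h : chkT [sub (sub (q 958 10000) (mul (q 85 100) ZE.r)) (add (add (E.uu (add ZE.x ZE.s) (add ZE.y ZE.h)) (add (E.uu (sub ZE.x ZE.s) (sub ZE.y ZE.h)) (mul pi (neg (sub ZE.y ZE.h))))) (add (neg (E.uu (add ZE.x (q 225 1000)) (add ZE.y (mul (q 9 10) ZE.r)))) (neg (add (E.uu (sub ZE.x (q 225 1000)) (sub ZE.y (mul (q 9 10) ZE.r))) (mul pi (sub ZE.y (mul (q 9 10) ZE.r))))))), sub (sub (q 958 10000) (mul (q 85 100) ZE.r)) (add (add (E.uu (add ZE.x ZE.s) (add ZE.y ZE.h)) (add (E.uu (sub ZE.x ZE.s) (sub ZE.y ZE.h)) (mul pi (neg (sub ZE.y ZE.h))))) (add (neg (E.uu (add ZE.x (q 225 1000)) (add ZE.y (mul (q 9 10) ZE.r)))) (neg (add (E.uu (sub ZE.x (q 225 1000)) (sub ZE.y (mul (q 9 10) ZE.r))) (mul pi (neg (sub ZE.y (mul (q 9 10) ZE.r)))))))), add (q 0 1) (sub ZE.y ZE.h), sub (neg ZE.y) (mul (q 545 1000) (sub (q 65 100) ZE.x))] 60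
    41231647539
    [NumIs.V.of 10000 6000 6500, NumIs.V.of 10000 (-273) 0, NumIs.V.of 10000 200 500, NumIs.V.of 10000 0 1045] = true := by
    decide +kernel
  obtain ⟨f, hf, hp⟩ := chkT4 h (by norm_num) (x := x) (y := y) (z := s) (w := r)
    (by norm_num; linarith only [ua1]) (by norm_num; linarith only [ua2]) (by norm_num; linarith only [ua1, ua10]) (by norm_num; linarith only [ua4]) (by norm_num; linarith only [ua5]) (by norm_num; linarith only [ua6]) (by norm_num; linarith only [ua7]) (by norm_num; linarith only [ua8])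
  by_contra hc
  push Not at hc
  obtain ⟨hc0, hc1⟩ := hc
  simp only [List.mem_cons, List.not_mem_nil, or_false] at hf
  rcases hf with rfl | rfl | rfl | rfl
  · simp only [ZE.x, ZE.y, ZE.s, ZE.r, ZE.h, E.val, NumIs.lkR] at hp
    push_cast at hp
    linarith only [hc0, hp]
  · simp only [ZE.x, ZE.y, ZE.s, ZE.r, ZE.h, E.val, NumIs.lkR] at hp
    push_cast at hp
    linarith only [hc1, hp]
  · simp only [ZE.x, ZE.y, ZE.s, ZE.r, ZE.h, E.val, NumIs.lkR] at hp
    push_cast at hp
    linarith only [ua9, hp]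
  · simp only [ZE.x, ZE.y, ZE.s, ZE.r, ZE.h, E.val, NumIs.lkR] at hp
    push_cast at hp
    linarith only [ua10, hp]

theorem e1_pD1X1C {x y s r : ℝ} (ua1 : 0 / 10000 ≤ x) (ua2 : x ≤ 1600 / 10000) (ua3 : -(1580 / 10000) ≤ y) (ua4 : y ≤ 10 / 10000) (ua5 : 500 / 10000 ≤ s) (ua6 : s ≤ 2000 / 10000) (ua7 : 0 / 10000 ≤ r) (ua8 : r ≤ 1045 / 10000) (ua9 : x - s ≤ -(400 / 10000)) (ua10 : -y ≤ 158 / 100 * x) :
    NumUs.uu (x + s) (y + 4 * (r * s)) + NumUs.uu (1 + x - s) (y - 4 * (r * s)) + (-NumUs.uu (x + 225 / 1000) (y + 9 / 10 * r) + -NumUs.uu (x + 775 / 1000) (y - 9 / 10 * r)) < (958 / 10000 - 85 / 100 * r) := by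
  have h : chkT [sub (sub (q 958 10000) (mul (q 85 100) ZE.r)) (add (add (E.uu (add ZE.x ZE.s) (add ZE.y ZE.h)) (E.uu (sub (add (q 1 1) ZE.x) ZE.s) (sub ZE.y ZE.h))) (add (neg (E.uu (add ZE.x (q 225 1000)) (add ZE.y (mul (q 9 10) ZE.r)))) (neg (E.uu (add ZE.x (q 775 1000)) (sub ZE.y (mul (q 9 10) ZE.r)))))), sub (sub ZE.x ZE.s) (q (-400) 10000), sub (neg ZE.y) (mul (q 158 100) ZE.x)] 60
    25425695777876228913900917321485108308472215808824366900763994063919046963313093360283764958446853234758252257759078087575942459904097794469415776557159673201808935992219820396756903111119270964519865373978101667652705945633319853675853483593423590130022019789257549256550455792207946849383882842746537846286202629801871991786871586153480575755238661387923158957871501506935664736772628687234778607261212022867570453712555529564202547051985601705055642832314160058927216537465611514116063998199823572957670453691640603037214550482685017450478893542029789619705943603148016449045575371606625981501481756245327601964312073214969256724487081196032530487980698132286939374663770998820812584517814528754376851504687993259553825238559830252439458603625015766982579656434800996058455730977199815023544860686466327845882911575152665903100382248829216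
    [NumIs.V.of 10000 0 1600, NumIs.V.of 10000 (-1580) 10, NumIs.V.of 10000 500 2000, NumIs.V.of 10000 0 1045] = true :=
      Pool.Agent.Work.NumUs.chkT_of (Pool.Agent.Work.NumUs.runT_split rfl rfl rfl
        (Pool.Agent.Work.NumUs.runT_split rfl rfl rfl
          e1_pD1X1C_h1_q1
          e1_pD1X1C_h1_q2)
        e1_pD1X1C_h1_q3)
  obtain ⟨f, hf, hp⟩ := chkT4 h (by norm_num) (x := x) (y := y) (z := s) (w := r)
    (by norm_num; linarith only [ua1]) (by norm_num; linarith only [ua2]) (by norm_num; linarith only [ua3]) (by norm_num; linarith only [ua4]) (by norm_num; linarith only [ua5]) (by norm_num; linarith only [ua6]) (by norm_num; linarith only [ua7]) (by norm_num; linarith only [ua8])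
  by_contra hc
  push Not at hc
  simp only [List.mem_cons, List.not_mem_nil, or_false] at hf
  rcases hf with rfl | rfl | rfl
  · simp only [ZE.x, ZE.y, ZE.s, ZE.r, ZE.h, E.val, NumIs.lkR] at hp
    push_cast at hp
    linarith only [hc, hp]
  · simp only [ZE.x, ZE.y, ZE.s, ZE.r, ZE.h, E.val, NumIs.lkR] at hp
    push_cast at hp
    linarith only [ua9, hp]
  · simp only [ZE.x, ZE.y, ZE.s, ZE.r, ZE.h, E.val, NumIs.lkR] at hp
    push_cast at hp
    linarith only [ua10, hp]

end ZD

end Pool.Agent.Work.MP_b30479_gtS.G2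

end

section

/-!
# Part of `ZRe1A`
-/
set_option linter.unusedSimpArgs false
set_option linter.unusedVariables false

set_option deprecated.oldSectionVars true

namespace Pool.Agent.Work.MP_b30479_gtS.G2

open VOL NumUs

namespace ZD

open NumUs.E ZE

theorem e1_pD3X2nC {x y s r : ℝ} (ua1 : 1850 / 10000 ≤ x) (ua2 : x ≤ 2250 / 10000) (ua3 : -(1580 / 10000) ≤ y) (ua4 : y ≤ 10 / 10000) (ua5 : 1450 / 10000 ≤ s) (ua6 : s ≤ 2000 / 10000) (ua7 : 0 / 10000 ≤ r) (ua8 : r ≤ 1045 / 10000) (ua9 : 0 ≤ x - s) (ua10 : x - s ≤ 400 / 10000) (ua11 : (y - 4 * (r * s)) ≤ 0) :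
    NumUs.uu (x + s) (y + 4 * (r * s)) + (Real.pi * (1 / 2) * -(y - 4 * (r * s)) * (1 + (25 / 1) * (x - s)) + (25 / 1) * (x - s) * NumUs.uu (400 / 10000) (y - 4 * (r * s))) + (-NumUs.uu (x + 225 / 1000) (y + 9 / 10 * r) + ((25 / 1) * (225 / 1000 - x) * NumUs.uu (400 / 10000) (y - 9 / 10 * r) - Real.pi * (1 / 2) * (y - 9 / 10 * r) * (1 - (25 / 1) * (225 / 1000 - x)))) < (958 / 10000 - 85 / 100 * r) ∨ NumUs.uu (x + s) (y + 4 * (r * s)) + (Real.pi * (1 / 2) * -(y - 4 * (r * s)) * (1 + (25 / 1) * (x - s)) + (25 / 1) * (x - s) * NumUs.uu (400 / 10000) (y - 4 * (r * s))) + (-NumUs.uu (x + 225 / 1000) (y + 9 / 10 * r) + ((25 / 1) * (225 / 1000 - x) * NumUs.uu (400 / 10000) (y - 9 / 10 * r) - Real.pi * (1 / 2) * -(y - 9 / 10 * r) * (1 - (25 / 1) * (225 / 1000 - x)))) < (958 / 10000 - 85 / 100 * r) := by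
  have h : chkT [sub (sub (q 958 10000) (mul (q 85 100) ZE.r)) (add (add (E.uu (add ZE.x ZE.s) (add ZE.y ZE.h)) (add (mul (mul (mul pi (q 1 2)) (neg (sub ZE.y ZE.h))) (add (q 1 1) (mul (q 25 1) (sub ZE.x ZE.s)))) (mul (mul (q 25 1) (sub ZE.x ZE.s)) (E.uu (q 400 10000) (sub ZE.y ZE.h))))) (add (neg (E.uu (add ZE.x (q 225 1000)) (add ZE.y (mul (q 9 10) ZE.r)))) (sub (mul (mul (q 25 1) (sub (q 225 1000) ZE.x)) (E.uu (q 400 10000) (sub ZE.y (mul (q 9 10) ZE.r)))) (mul (mul (mul pi (q 1 2)) (sub ZE.y (mul (q 9 10) ZE.r))) (sub (q 1 1) (mul (q 25 1) (sub (q 225 1000) ZE.x))))))), sub (sub (q 958 10000) (mul (q 85 100) ZE.r)) (add (add (E.uu (add ZE.x ZE.s) (add ZE.y ZE.h)) (add (mul (mul (mul pi (q 1 2)) (neg (sub ZE.y ZE.h))) (add (q 1 1) (mul (q 25 1) (sub ZE.x ZE.s)))) (mul (mul (q 25 1) (sub ZE.x ZE.s)) (E.uu (q 400 10000) (sub ZE.y ZE.h))))) (add (neg (E.uu (add ZE.x (q 225 1000)) (add ZE.y (mul (q 9 10) ZE.r)))) (sub (mul (mul (q 25 1) (sub (q 225 1000) ZE.x)) (E.uu (q 400 10000)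 (sub ZE.y (mul (q 9 10) ZE.r)))) (mul (mul (mul pi (q 1 2)) (neg (sub ZE.y (mul (q 9 10) ZE.r)))) (sub (q 1 1) (mul (q 25 1) (sub (q 225 1000) ZE.x))))))), sub ZE.s ZE.x, sub (sub ZE.x ZE.s) (q 400 10000), add (q 0 1) (sub ZE.y ZE.h)] 60
    3048694831777034654905844025996247225064437360516972521339781872742446880904933694530899472251908930385708285018147398826241883098804538508398173490903533804978862249972526334777515074180392032817743628116653679583912790184645155613069379747681254497531915010883640219178423120171546048823152870187650631590700831343383215370418241799549480058096206063480025747023539459937500475697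
    [NumIs.V.of 10000 1850 2250, NumIs.V.of 10000 (-1580) 10, NumIs.V.of 10000 1450 2000, NumIs.V.of 10000 0 1045] = true :=
      Pool.Agent.Work.NumUs.chkT_of (Pool.Agent.Work.NumUs.runT_split rfl rfl rfl
        e1_pD3X2nC_h1_q1
        e1_pD3X2nC_h1_q2)
  obtain ⟨f, hf, hp⟩ := chkT4 h (by norm_num) (x := x) (y := y) (z := s) (w := r)
    (by norm_num; linarith only [ua1]) (by norm_num; linarith only [ua2]) (by norm_num; linarith only [ua3]) (by norm_num; linarith only [ua4]) (by norm_num; linarith only [ua5]) (by norm_num; linarith only [ua6]) (by norm_num; linarith only [ua7]) (by norm_num; linarith only [ua8])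
  by_contra hc
  push Not at hc
  obtain ⟨hc0, hc1⟩ := hc
  simp only [List.mem_cons, List.not_mem_nil, or_false] at hf
  rcases hf with rfl | rfl | rfl | rfl | rfl
  · simp only [ZE.x, ZE.y, ZE.s, ZE.r, ZE.h, E.val, NumIs.lkR] at hp
    push_cast at hp
    linarith only [hc0, hp]
  · simp only [ZE.x, ZE.y, ZE.s, ZE.r, ZE.h, E.val, NumIs.lkR] at hp
    push_cast at hp
    linarith only [hc1, hp]
  · simp only [ZE.x, ZE.y, ZE.s, ZE.r, ZE.h, E.val, NumIs.lkR] at hp
    push_cast at hp
    linarith only [ua9, hp]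
  · simp only [ZE.x, ZE.y, ZE.s, ZE.r, ZE.h, E.val, NumIs.lkR] at hp
    push_cast at hp
    linarith only [ua10, hp]
  · simp only [ZE.x, ZE.y, ZE.s, ZE.r, ZE.h, E.val, NumIs.lkR] at hp
    push_cast at hp
    linarith only [ua11, hp]

theorem e1_pD3X3nC {x y s r : ℝ} (ua1 : 2250 / 10000 ≤ x) (ua2 : x ≤ 2400 / 10000) (ua3 : -(1580 / 10000) ≤ y) (ua4 : y ≤ 10 / 10000) (ua5 : 1850 / 10000 ≤ s) (ua6 : s ≤ 2000 / 10000) (ua7 : 0 / 10000 ≤ r) (ua8 : r ≤ 1045 / 10000) (ua9 : 0 ≤ x - s) (ua10 : x - s ≤ 400 / 10000) (ua11 : (y - 4 * (r * s)) ≤ 0) :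
    NumUs.uu (x + s) (y + 4 * (r * s)) + (Real.pi * (1 / 2) * -(y - 4 * (r * s)) * (1 + (25 / 1) * (x - s)) + (25 / 1) * (x - s) * NumUs.uu (400 / 10000) (y - 4 * (r * s))) + (-NumUs.uu (x + 225 / 1000) (y + 9 / 10 * r) + (((400 / 10000) - (x - 225 / 1000)) * NumIs.lnA (400 / 10000) (y - 9 / 10 * r) - NumUs.uu (400 / 10000) (y - 9 / 10 * r) - Real.pi * (y - 9 / 10 * r))) < (958 / 10000 - 85 / 100 * r) ∨ NumUs.uu (x + s) (y + 4 * (r * s)) + (Real.pi * (1 / 2) * -(y - 4 * (r * s)) * (1 + (25 / 1) * (x - s)) + (25 / 1) * (x - s) * NumUs.uu (400 / 10000) (y - 4 * (r * s))) + (-NumUs.uu (x + 225 / 1000) (y + 9 / 10 * r) + (((400 / 10000) - (x - 225 / 1000)) * NumIs.lnA (400 / 10000) (y - 9 / 10 * r) - NumUs.uu (400 / 10000) (y - 9 / 10 * r) - Real.pi * -(y - 9 / 10 * r))) < (958 / 10000 - 85 / 100 * r) := by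
  have h : chkT [sub (sub (q 958 10000) (mul (q 85 100) ZE.r)) (add (add (E.uu (add ZE.x ZE.s) (add ZE.y ZE.h)) (add (mul (mul (mul pi (q 1 2)) (neg (sub ZE.y ZE.h))) (add (q 1 1) (mul (q 25 1) (sub ZE.x ZE.s)))) (mul (mul (q 25 1) (sub ZE.x ZE.s)) (E.uu (q 400 10000) (sub ZE.y ZE.h))))) (add (neg (E.uu (add ZE.x (q 225 1000)) (add ZE.y (mul (q 9 10) ZE.r)))) (sub (sub (mul (sub (q 400 10000) (sub ZE.x (q 225 1000))) (E.lnA (q 400 10000) (sub ZE.y (mul (q 9 10) ZE.r)))) (E.uu (q 400 10000) (sub ZE.y (mul (q 9 10) ZE.r)))) (mul pi (sub ZE.y (mul (q 9 10) ZE.r)))))), sub (sub (q 958 10000) (mul (q 85 100) ZE.r)) (add (add (E.uu (add ZE.x ZE.s) (add ZE.y ZE.h)) (add (mul (mul (mul pi (q 1 2)) (neg (sub ZE.y ZE.h))) (add (q 1 1) (mul (q 25 1) (sub ZE.x ZE.s)))) (mul (mul (q 25 1) (sub ZE.x ZE.s)) (E.uu (q 400 10000) (sub ZE.y ZE.h))))) (add (neg (E.uu (add ZE.x (q 225 1000)) (add ZE.y (mul (q 9 10) ZE.r)))) (sub (sub (mul (sub (q 400 10000) (sub ZE.x (q 225 1000))) (E.lnA (q 400 10000)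 (sub ZE.y (mul (q 9 10) ZE.r)))) (E.uu (q 400 10000) (sub ZE.y (mul (q 9 10) ZE.r)))) (mul pi (neg (sub ZE.y (mul (q 9 10) ZE.r))))))), sub ZE.s ZE.x, sub (sub ZE.x ZE.s) (q 400 10000), add (q 0 1) (sub ZE.y ZE.h)] 60
    213388213257514976345104109671852387786658097
    [NumIs.V.of 10000 2250 2400, NumIs.V.of 10000 (-1580) 10, NumIs.V.of 10000 1850 2000, NumIs.V.of 10000 0 1045] = true := by
    decide +kernel
  obtain ⟨f, hf, hp⟩ := chkT4 h (by norm_num) (x := x) (y := y) (z := s) (w := r)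
    (by norm_num; linarith only [ua1]) (by norm_num; linarith only [ua2]) (by norm_num; linarith only [ua3]) (by norm_num; linarith only [ua4]) (by norm_num; linarith only [ua5]) (by norm_num; linarith only [ua6]) (by norm_num; linarith only [ua7]) (by norm_num; linarith only [ua8])
  by_contra hc
  push Not at hc
  obtain ⟨hc0, hc1⟩ := hc
  simp only [List.mem_cons, List.not_mem_nil, or_false] at hf
  rcases hf with rfl | rfl | rfl | rfl | rfl
  · simp only [ZE.x, ZE.y, ZE.s, ZE.r, ZE.h, E.val, NumIs.lkR] at hp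
    push_cast at hp
    linarith only [hc0, hp]
  · simp only [ZE.x, ZE.y, ZE.s, ZE.r, ZE.h, E.val, NumIs.lkR] at hp
    push_cast at hp
    linarith only [hc1, hp]
  · simp only [ZE.x, ZE.y, ZE.s, ZE.r, ZE.h, E.val, NumIs.lkR] at hp
    push_cast at hp
    linarith only [ua1, ua6, hp]
  · simp only [ZE.x, ZE.y, ZE.s, ZE.r, ZE.h, E.val, NumIs.lkR] at hp
    push_cast at hp
    linarith only [ua10, hp]
  · simp only [ZE.x, ZE.y, ZE.s, ZE.r, ZE.h, E.val, NumIs.lkR] at hp
    push_cast at hp
    linarith only [ua11, hp]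

end ZD

end Pool.Agent.Work.MP_b30479_gtS.G2

end

section

/-!
# Part of `ZRe4B`
-/
set_option linter.unusedSimpArgs false
set_option linter.unusedVariables false

set_option deprecated.oldSectionVars true

namespace Pool.Agent.Work.MP_b30479_gtS.G2

open VOL NumUs

namespace ZD

open NumUs.E ZE

theorem e4a_mD1X1_h1_q1 : Pool.Agent.Work.NumUs.runT [sub (add (add (q 107 1000) (mul (q 64 100) ZE.r)) (mul (mul (mul (q 2 1) pi) ZE.r) (add (q 9 100) (mul (mul (q 4 1) ZE.s) (sub (q 5 2) (mul (q 3 1) ZE.s)))))) (add (add (E.uu (add ZE.x ZE.s) (sub ZE.y ZE.h)) (E.uu (sub (add (q 1 1) ZE.x) ZE.s) (add ZE.y ZE.h))) (add (neg (E.uu (add ZE.x (q 225 1000)) (add ZE.y (mul (q 9 10) ZE.r)))) (neg (E.uu (add ZE.x (q 775 1000)) (sub ZE.y (mul (q 9 10) ZE.r)))))), sub (sub ZE.x ZE.s) (q (-300) 10000), sub ZE.y (mul (q 56 100) ZE.x), sub (neg ZE.y) (mul (q 56 100) ZE.x)] 57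
    1993415161661654601696524112106178906842930691648795197787248098087674562973110938850424793310585505844255142396922591800290544950390330498318637588248675369513623879309328925338811274438500373848149485315056495083353292157992985011517048088253884816678456967821404491949972229294146761052030229784043858707570272764373672077117118997831287334117573067432432746376404339854765541941822897779069272661789883167424812593662354187129323181228265617100098662660286820826950002048860285772573734305511295553466644733234780899696236669635325172500799659268657454271854190537959542164880894443987836729599325949331015303230639001413620231001617310923804575085780428238149715672094035751691595522671197690225732005338198388574242792134515142117319587303066861460688546341457427891324081309876083832399922594739719433262293696244327724196820096424432604145100329832324810302506612271920136960473938365056154626438114590408836766303863287150702152454409720588487582246671191175014752464588078783753523036581761365885540350209430082764732972177725554666667236969306136323556940698903786109598286226199848250072808917517152243702656529580774118753734660574540481594798271279641652405640005752650543530750332629957955047140281725187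
    (Pool.Agent.Work.NumIs.setL 1 (Pool.Agent.Work.NumIs.setL 2 (Pool.Agent.Work.NumIs.setL 0 ([NumIs.V.of 10000 0 1700, NumIs.V.of 10000 (-560) 560, NumIs.V.of 10000 300 2000, NumIs.V.of 10000 0 1045])))) =
    921216470680396525917521682332053502520815903045764817273927695306576900853128599153362228153371228174879099360012862499286722761101958387775143321261837015225824774243707725536093578917437184290216199104789056136415292252232605015124969984266614270067355561255935000734592042128108203069975077167509682495250414850140579354289740882946836754857693588667166598288258106055842435412925603517805440448817978073004200849827051075379135407362393290502287187325037289485022444951700573424596450677625709243283258408461609912243315425503918148816551553294787944974936523359609811518543093679101550558977647349424320627777387468769009406315916496156168088237999220934806953358328133002605190385885306273511476329452851352127759628894432868357445564634935732963121050414340507686341272348621473848050294441330564901841029663011384290695284704835171347634139620148449276045767119402954348611520559723249056992437777574984542671816440159621783255643267332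 := by
  decide +kernel

theorem e4a_mD1X1_h1_q2 : Pool.Agent.Work.NumUs.runT [sub (add (add (q 107 1000) (mul (q 64 100) ZE.r)) (mul (mul (mul (q 2 1) pi) ZE.r) (add (q 9 100) (mul (mul (q 4 1) ZE.s) (sub (q 5 2) (mul (q 3 1) ZE.s)))))) (add (add (E.uu (add ZE.x ZE.s) (sub ZE.y ZE.h)) (E.uu (sub (add (q 1 1) ZE.x) ZE.s) (add ZE.y ZE.h))) (add (neg (E.uu (add ZE.x (q 225 1000)) (add ZE.y (mul (q 9 10) ZE.r)))) (neg (E.uu (add ZE.x (q 775 1000)) (sub ZE.y (mul (q 9 10) ZE.r)))))), sub (sub ZE.x ZE.s) (q (-300) 10000), sub ZE.y (mul (q 56 100) ZE.x), sub (neg ZE.y) (mul (q 56 100) ZE.x)] 57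
    921216470680396525917521682332053502520815903045764817273927695306576900853128599153362228153371228174879099360012862499286722761101958387775143321261837015225824774243707725536093578917437184290216199104789056136415292252232605015124969984266614270067355561255935000734592042128108203069975077167509682495250414850140579354289740882946836754857693588667166598288258106055842435412925603517805440448817978073004200849827051075379135407362393290502287187325037289485022444951700573424596450677625709243283258408461609912243315425503918148816551553294787944974936523359609811518543093679101550558977647349424320627777387468769009406315916496156168088237999220934806953358328133002605190385885306273511476329452851352127759628894432868357445564634935732963121050414340507686341272348621473848050294441330564901841029663011384290695284704835171347634139620148449276045767119402954348611520559723249056992437777574984542671816440159621783255643267331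
    (Pool.Agent.Work.NumIs.setR 1 (Pool.Agent.Work.NumIs.setL 2 (Pool.Agent.Work.NumIs.setL 0 ([NumIs.V.of 10000 0 1700, NumIs.V.of 10000 (-560) 560, NumIs.V.of 10000 300 2000, NumIs.V.of 10000 0 1045])))) =
    131754437063938960907364202552867764268303301422810417514914812821169470660183036050909363961228000981092281525212498745139729656382915916147628564990032241071438437060991063532749909026568490243559950623591698529579519478923497265597566699253049683600568393994190343029479018842405672963205850098874847500727579881899513575281768717067299935763988847484366334735498895032082273452542734459855927332996390147092490946619064231073787128462907632575544790167046519649048195531186284176901284063273300302706360682729385217076157035332759011465600807952034890803988098062010649958604109337673794914253610387878757429021797517775417007406661678043653982472062232183063684176557376503787411501808024097539 := by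
  decide +kernel

theorem e4a_mD1X1_h1_q3 : Pool.Agent.Work.NumUs.runT [sub (add (add (q 107 1000) (mul (q 64 100) ZE.r)) (mul (mul (mul (q 2 1) pi) ZE.r) (add (q 9 100) (mul (mul (q 4 1) ZE.s) (sub (q 5 2) (mul (q 3 1) ZE.s)))))) (add (add (E.uu (add ZE.x ZE.s) (sub ZE.y ZE.h)) (E.uu (sub (add (q 1 1) ZE.x) ZE.s) (add ZE.y ZE.h))) (add (neg (E.uu (add ZE.x (q 225 1000)) (add ZE.y (mul (q 9 10) ZE.r)))) (neg (E.uu (add ZE.x (q 775 1000)) (sub ZE.y (mul (q 9 10) ZE.r)))))), sub (sub ZE.x ZE.s) (q (-300) 10000), sub ZE.y (mul (q 56 100) ZE.x), sub (neg ZE.y) (mul (q 56 100) ZE.x)] 58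
    131754437063938960907364202552867764268303301422810417514914812821169470660183036050909363961228000981092281525212498745139729656382915916147628564990032241071438437060991063532749909026568490243559950623591698529579519478923497265597566699253049683600568393994190343029479018842405672963205850098874847500727579881899513575281768717067299935763988847484366334735498895032082273452542734459855927332996390147092490946619064231073787128462907632575544790167046519649048195531186284176901284063273300302706360682729385217076157035332759011465600807952034890803988098062010649958604109337673794914253610387878757429021797517775417007406661678043653982472062232183063684176557376503787411501808024097538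
    (Pool.Agent.Work.NumIs.setR 2 (Pool.Agent.Work.NumIs.setL 0 ([NumIs.V.of 10000 0 1700, NumIs.V.of 10000 (-560) 560, NumIs.V.of 10000 300 2000, NumIs.V.of 10000 0 1045]))) =
    6195063858577234600344303935313005279697331443928613214266338514704034223792054268865544063820878397650351694730587732780966338779480666149018656310990076755014390544394391696043730150626226773499958134952512372456439490385602620537723933879453491776984589699903096478420723785520851670150113515573017081889756244798987967232454153365452153800837213898739749369715679155493337044811911053824612007252924949317718992947691791324546669780056558809252832847605018228800923906210386571588786505265928629565579778512811920576134809124560004961996306093252709860456928710533627471373475428803724493191049444702772035623940875926314157505422031949437928688009153253891 := by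
  decide +kernel

theorem e4a_mD1X1_h1_q4 : Pool.Agent.Work.NumUs.runT [sub (add (add (q 107 1000) (mul (q 64 100) ZE.r)) (mul (mul (mul (q 2 1) pi) ZE.r) (add (q 9 100) (mul (mul (q 4 1) ZE.s) (sub (q 5 2) (mul (q 3 1) ZE.s)))))) (add (add (E.uu (add ZE.x ZE.s) (sub ZE.y ZE.h)) (E.uu (sub (add (q 1 1) ZE.x) ZE.s) (add ZE.y ZE.h))) (add (neg (E.uu (add ZE.x (q 225 1000)) (add ZE.y (mul (q 9 10) ZE.r)))) (neg (E.uu (add ZE.x (q 775 1000)) (sub ZE.y (mul (q 9 10) ZE.r)))))), sub (sub ZE.x ZE.s) (q (-300) 10000), sub ZE.y (mul (q 56 100) ZE.x), sub (neg ZE.y) (mul (q 56 100) ZE.x)] 58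
    387191491161077162521518995957062829981083215245538325891646157169002138987003391804096503988804899853146980920661733298810396173717541634313666019436879797188399409024649481002733134414139173343747383434532023278527468149100163783607745867465843236061536856243943529901295236595053229384382094723313567618109765299936747952028384585340759612552325868671234335607229947218333565300744440864038250453307809332357437059230736957784166861253534925578302052975313639300057744138149160724299156579120539347848736157050745036008425570285000310124769130828294366278558044408351716960842214300232780824440590293923252226496304745394634844088876996839870543000572078368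
    (Pool.Agent.Work.NumIs.setL 2 (Pool.Agent.Work.NumIs.setR 0 ([NumIs.V.of 10000 0 1700, NumIs.V.of 10000 (-560) 560, NumIs.V.of 10000 300 2000, NumIs.V.of 10000 0 1045]))) =
    20017330927121250497536102478904825988070836815373978447517857743625041916090947511802225411075043170168552533788667277045363812934976557263934267211757980805603778035494239075439582863433379991688286912309565170689485115191830885748512917776977321962474115772561069382694066829376564844538239279302956553716298111072493490502883017267169871829503952012160070932698399530054929438187185505254766105637251362932905941979557676112809683478531170973686787412397872181389540397177844849342825141387634542226210895632094387693142246729574437591942201295325677558049366613039354222133635282539582375346336057054179472355050788124107169931314 := by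
  decide +kernel

theorem e4a_mD1X1_h1_q5 : Pool.Agent.Work.NumUs.runT [sub (add (add (q 107 1000) (mul (q 64 100) ZE.r)) (mul (mul (mul (q 2 1) pi) ZE.r) (add (q 9 100) (mul (mul (q 4 1) ZE.s) (sub (q 5 2) (mul (q 3 1) ZE.s)))))) (add (add (E.uu (add ZE.x ZE.s) (sub ZE.y ZE.h)) (E.uu (sub (add (q 1 1) ZE.x) ZE.s) (add ZE.y ZE.h))) (add (neg (E.uu (add ZE.x (q 225 1000)) (add ZE.y (mul (q 9 10) ZE.r)))) (neg (E.uu (add ZE.x (q 775 1000)) (sub ZE.y (mul (q 9 10) ZE.r)))))), sub (sub ZE.x ZE.s) (q (-300) 10000), sub ZE.y (mul (q 56 100) ZE.x), sub (neg ZE.y) (mul (q 56 100) ZE.x)] 57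
    1251083182945078156096006404931551624254427300960873652969866108976565119755684219487639088192190198135534533361791704815335238308436034828995891700734873800350236127218389942214973928964586249480517932019347823168092819699489430359282057361061082622654632235785066836418379176836035302783639954956434784607268631942030843156430188579198116989343997000760004433293649970628433089886699094078422881602328210183306621373722354757050605217408198185855424213274867011336846274823615303083926571336727158889138180977005899230821390420598402349496387580957854847378085413314959638883352205158723898459146003565886217022190674257756698120707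
    (Pool.Agent.Work.NumIs.setL 1 (Pool.Agent.Work.NumIs.setR 2 (Pool.Agent.Work.NumIs.setR 0 ([NumIs.V.of 10000 0 1700, NumIs.V.of 10000 (-560) 560, NumIs.V.of 10000 300 2000, NumIs.V.of 10000 0 1045])))) =
    1278236453291899369117728380826144866845695036486834621966279988419460587564931808479730175641196027411932460649396684142245321624496594752890224541038688552033476361881128153553581199398135365180580159931714707335516108344692701332341612633521673353886938161321634977566640011821126148 := by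
  decide +kernel

theorem e4a_mD1X1_h1_q6 : Pool.Agent.Work.NumUs.runT [sub (add (add (q 107 1000) (mul (q 64 100) ZE.r)) (mul (mul (mul (q 2 1) pi) ZE.r) (add (q 9 100) (mul (mul (q 4 1) ZE.s) (sub (q 5 2) (mul (q 3 1) ZE.s)))))) (add (add (E.uu (add ZE.x ZE.s) (sub ZE.y ZE.h)) (E.uu (sub (add (q 1 1) ZE.x) ZE.s) (add ZE.y ZE.h))) (add (neg (E.uu (add ZE.x (q 225 1000)) (add ZE.y (mul (q 9 10) ZE.r)))) (neg (E.uu (add ZE.x (q 775 1000)) (sub ZE.y (mul (q 9 10) ZE.r)))))), sub (sub ZE.x ZE.s) (q (-300) 10000), sub ZE.y (mul (q 56 100) ZE.x), sub (neg ZE.y) (mul (q 56 100) ZE.x)] 57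
    1278236453291899369117728380826144866845695036486834621966279988419460587564931808479730175641196027411932460649396684142245321624496594752890224541038688552033476361881128153553581199398135365180580159931714707335516108344692701332341612633521673353886938161321634977566640011821126147
    (Pool.Agent.Work.NumIs.setR 1 (Pool.Agent.Work.NumIs.setR 2 (Pool.Agent.Work.NumIs.setR 0 ([NumIs.V.of 10000 0 1700, NumIs.V.of 10000 (-560) 560, NumIs.V.of 10000 300 2000, NumIs.V.of 10000 0 1045])))) =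
    1 := by
  decide +kernel

theorem e4a_mD4X1p_h1_q1 : Pool.Agent.Work.NumUs.runT [sub (add (add (q 107 1000) (mul (q 64 100) ZE.r)) (mul (mul (mul (q 2 1) pi) ZE.r) (add (q 9 100) (mul (mul (q 4 1) ZE.s) (sub (q 5 2) (mul (q 3 1) ZE.s)))))) (add (add (E.uu (add ZE.x ZE.s) (sub ZE.y ZE.h)) (add (E.uu (sub ZE.x ZE.s) (add ZE.y ZE.h)) (mul pi (add ZE.y ZE.h)))) (add (neg (E.uu (add ZE.x (q 225 1000)) (add ZE.y (mul (q 9 10) ZE.r)))) (neg (E.uu (add ZE.x (q 775 1000)) (sub ZE.y (mul (q 9 10) ZE.r)))))), sub (q 300 10000) (sub ZE.x ZE.s), neg (add ZE.y ZE.h), sub ZE.y (mul (q 56 100) ZE.x), sub (neg ZE.y) (mul (q 56 100) ZE.x)] 59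
    9824863145261294995751082571163575862130596902141852051759947367582471265689600778298247729963850356327703100856983669591748060620814985146210701310970625825623267955957938652871674829026527955457819240509041683548060739783008989638325889762547914187386660068615885567245753455135030128970426077858279578765933258386411955211201887274427892934929173119863156371803934613920496576944811125915490915963097343991764002009463881080082420725233237827079579960127010622581577614974913282518641636733329824859221707105760194661006331405670642919019282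
    (Pool.Agent.Work.NumIs.setL 0 ([NumIs.V.of 10000 300 1950, NumIs.V.of 10000 (-560) 560, NumIs.V.of 10000 0 1650, NumIs.V.of 10000 0 1045])) =
    297557141063443182011186447738145650784366828364042863122418653791818863170591542239495729673899877786336410921288106107322408161445483742637544711241731065591497934409035911070099206751253595629285627604003222874196060866218901231681393437789781708642223156550056006084203011 := by
  decide +kernel

theorem e4a_mD4X1p_h1_q2 : Pool.Agent.Work.NumUs.runT [sub (add (add (q 107 1000) (mul (q 64 100) ZE.r)) (mul (mul (mul (q 2 1) pi) ZE.r) (add (q 9 100) (mul (mul (q 4 1) ZE.s) (sub (q 5 2) (mul (q 3 1) ZE.s)))))) (add (add (E.uu (add ZE.x ZE.s) (sub ZE.y ZE.h)) (add (E.uu (sub ZE.x ZE.s) (add ZE.y ZE.h)) (mul pi (add ZE.y ZE.h)))) (add (neg (E.uu (add ZE.x (q 225 1000)) (add ZE.y (mul (q 9 10) ZE.r)))) (neg (E.uu (add ZE.x (q 775 1000)) (sub ZE.y (mul (q 9 10) ZE.r)))))), sub (q 300 10000) (sub ZE.x ZE.s), neg (add ZE.y ZE.h), sub ZE.y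 (mul (q 56 100) ZE.x), sub (neg ZE.y) (mul (q 56 100) ZE.x)] 59
    297557141063443182011186447738145650784366828364042863122418653791818863170591542239495729673899877786336410921288106107322408161445483742637544711241731065591497934409035911070099206751253595629285627604003222874196060866218901231681393437789781708642223156550056006084203010
    (Pool.Agent.Work.NumIs.setR 0 ([NumIs.V.of 10000 300 1950, NumIs.V.of 10000 (-560) 560, NumIs.V.of 10000 0 1650, NumIs.V.of 10000 0 1045])) =
    1 := by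
  decide +kernel

theorem e4a_mD4X3p {x y s r : ℝ} (ua1 : 2250 / 10000 ≤ x) (ua2 : x ≤ 2550 / 10000) (ua3 : -(560 / 10000) ≤ y) (ua4 : y ≤ 560 / 10000) (ua5 : 0 / 10000 ≤ s) (ua6 : s ≤ 2000 / 10000) (ua7 : 0 / 10000 ≤ r) (ua8 : r ≤ 1045 / 10000) (ua9 : 300 / 10000 ≤ x - s) (ua10 : 0 ≤ (y + 4 * (r * s))) :
    NumUs.uu (x + s) (y - 4 * (r * s)) + (NumUs.uu (x - s) (y + 4 * (r * s)) + Real.pi * (y + 4 * (r * s))) + (-NumUs.uu (x + 225 / 1000) (y + 9 / 10 * r) + (((300 / 10000) - (x - 225 / 1000)) * NumIs.lnA (300 / 10000) (y - 9 / 10 * r) - NumUs.uu (300 / 10000) (y - 9 / 10 * r) - Real.pi * (y - 9 / 10 * r))) < (107 / 1000 + 64 / 100 * r + 2 * Real.pi * r * (9 / 100 + 4 * s * (5 / 2 - 3 * s))) ∨ NumUs.uu (x + s) (y - 4 * (r * s)) + (NumUs.uu (x - s) (y + 4 * (r * s)) + Real.pi * (y + 4 * (r * s))) + (-NumUs.uu (x + 225 / 1000) (y + 9 / 10 * r) + (((300 / 10000) - (x - 225 / 1000)) * NumIs.lnA (300 / 10000) (y - 9 / 10 * r) - NumUs.uu (300 / 10000) (y - 9 / 10 * r) - Real.pi * -(y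 - 9 / 10 * r))) < (107 / 1000 + 64 / 100 * r + 2 * Real.pi * r * (9 / 100 + 4 * s * (5 / 2 - 3 * s))) := by
  have h : chkT [sub (add (add (q 107 1000) (mul (q 64 100) ZE.r)) (mul (mul (mul (q 2 1) pi) ZE.r) (add (q 9 100) (mul (mul (q 4 1) ZE.s) (sub (q 5 2) (mul (q 3 1) ZE.s)))))) (add (add (E.uu (add ZE.x ZE.s) (sub ZE.y ZE.h)) (add (E.uu (sub ZE.x ZE.s) (add ZE.y ZE.h)) (mul pi (add ZE.y ZE.h)))) (add (neg (E.uu (add ZE.x (q 225 1000)) (add ZE.y (mul (q 9 10) ZE.r)))) (sub (sub (mul (sub (q 300 10000) (sub ZE.x (q 225 1000))) (E.lnA (q 300 10000) (sub ZE.y (mul (q 9 10) ZE.r)))) (E.uu (q 300 10000) (sub ZE.y (mul (q 9 10) ZE.r)))) (mul pi (sub ZE.y (mul (q 9 10) ZE.r)))))), sub (add (add (q 107 1000) (mul (q 64 100) ZE.r)) (mul (mul (mul (q 2 1) pi) ZE.r) (add (q 9 100) (mul (mul (q 4 1) ZE.s) (sub (q 5 2) (mul (q 3 1) ZE.s)))))) (add (add (E.uu (add ZE.x ZE.s) (sub ZE.y ZE.h)) (add (E.uu (sub ZE.x ZE.s) (add ZE.y ZE.h)) (mul pi (add ZE.y ZE.h)))) (add (neg (E.uu (add ZE.x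 (q 225 1000)) (add ZE.y (mul (q 9 10) ZE.r)))) (sub (sub (mul (sub (q 300 10000) (sub ZE.x (q 225 1000))) (E.lnA (q 300 10000) (sub ZE.y (mul (q 9 10) ZE.r)))) (E.uu (q 300 10000) (sub ZE.y (mul (q 9 10) ZE.r)))) (mul pi (neg (sub ZE.y (mul (q 9 10) ZE.r))))))), sub (q 300 10000) (sub ZE.x ZE.s), neg (add ZE.y ZE.h)] 60
    830463229491713557379328251431052680270130
    [NumIs.V.of 10000 2250 2550, NumIs.V.of 10000 (-560) 560, NumIs.V.of 10000 0 2000, NumIs.V.of 10000 0 1045] = true := by
    decide +kernel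
  obtain ⟨f, hf, hp⟩ := chkT4 h (by norm_num) (x := x) (y := y) (z := s) (w := r)
    (by norm_num; linarith only [ua1]) (by norm_num; linarith only [ua2]) (by norm_num; linarith only [ua3]) (by norm_num; linarith only [ua4]) (by norm_num; linarith only [ua5]) (by norm_num; linarith only [ua6]) (by norm_num; linarith only [ua7]) (by norm_num; linarith only [ua8])
  by_contra hc
  push Not at hc
  obtain ⟨hc0, hc1⟩ := hc
  simp only [List.mem_cons, List.not_mem_nil, or_false] at hf
  rcases hf with rfl | rfl | rfl | rfl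
  · simp only [ZE.x, ZE.y, ZE.s, ZE.r, ZE.h, E.val, NumIs.lkR] at hp
    push_cast at hp
    linarith only [hc0, hp]
  · simp only [ZE.x, ZE.y, ZE.s, ZE.r, ZE.h, E.val, NumIs.lkR] at hp
    push_cast at hp
    linarith only [hc1, hp]
  · simp only [ZE.x, ZE.y, ZE.s, ZE.r, ZE.h, E.val, NumIs.lkR] at hp
    push_cast at hp
    linarith only [ua9, hp]
  · simp only [ZE.x, ZE.y, ZE.s, ZE.r, ZE.h, E.val, NumIs.lkR] at hp
    push_cast at hp
    linarith only [ua10, hp]

theorem e4a_mD4X3n {x y s r : ℝ} (ua1 : 2250 / 10000 ≤ x) (ua2 : x ≤ 2550 / 10000) (ua3 : -(560 / 10000) ≤ y) (ua4 : y ≤ 560 / 10000) (ua5 : 0 / 10000 ≤ s) (ua6 : s ≤ 2000 / 10000) (ua7 : 0 / 10000 ≤ r) (ua8 : r ≤ 1045 / 10000) (ua9 : 300 / 10000 ≤ x - s) (ua10 : (y + 4 * (r * s)) ≤ 0) :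
    NumUs.uu (x + s) (y - 4 * (r * s)) + (NumUs.uu (x - s) (y + 4 * (r * s)) + Real.pi * -(y + 4 * (r * s))) + (-NumUs.uu (x + 225 / 1000) (y + 9 / 10 * r) + (((300 / 10000) - (x - 225 / 1000)) * NumIs.lnA (300 / 10000) (y - 9 / 10 * r) - NumUs.uu (300 / 10000) (y - 9 / 10 * r) - Real.pi * (y - 9 / 10 * r))) < (107 / 1000 + 64 / 100 * r + 2 * Real.pi * r * (9 / 100 + 4 * s * (5 / 2 - 3 * s))) ∨ NumUs.uu (x + s) (y - 4 * (r * s)) + (NumUs.uu (x - s) (y + 4 * (r * s)) + Real.pi * -(y + 4 * (r * s))) + (-NumUs.uu (x + 225 / 1000) (y + 9 / 10 * r) + (((300 / 10000) - (x - 225 / 1000)) * NumIs.lnA (300 / 10000) (y - 9 / 10 * r) - NumUs.uu (300 / 10000) (y - 9 / 10 * r) - Real.pi * -(y - 9 / 10 * r))) < (107 / 1000 + 64 / 100 * r + 2 * Real.pi * r * (9 / 100 + 4 * s * (5 / 2 - 3 * s))) := by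
  have h : chkT [sub (add (add (q 107 1000) (mul (q 64 100) ZE.r)) (mul (mul (mul (q 2 1) pi) ZE.r) (add (q 9 100) (mul (mul (q 4 1) ZE.s) (sub (q 5 2) (mul (q 3 1) ZE.s)))))) (add (add (E.uu (add ZE.x ZE.s) (sub ZE.y ZE.h)) (add (E.uu (sub ZE.x ZE.s) (add ZE.y ZE.h)) (mul pi (neg (add ZE.y ZE.h))))) (add (neg (E.uu (add ZE.x (q 225 1000)) (add ZE.y (mul (q 9 10) ZE.r)))) (sub (sub (mul (sub (q 300 10000) (sub ZE.x (q 225 1000))) (E.lnA (q 300 10000) (sub ZE.y (mul (q 9 10) ZE.r)))) (E.uu (q 300 10000) (sub ZE.y (mul (q 9 10) ZE.r)))) (mul pi (sub ZE.y (mul (q 9 10) ZE.r)))))), sub (add (add (q 107 1000) (mul (q 64 100) ZE.r)) (mul (mul (mul (q 2 1) pi) ZE.r) (add (q 9 100) (mul (mul (q 4 1) ZE.s) (sub (q 5 2) (mul (q 3 1) ZE.s)))))) (add (add (E.uu (add ZE.x ZE.s) (sub ZE.y ZE.h)) (add (E.uu (sub ZE.x ZE.s) (add ZE.y ZE.h)) (mul pi (neg (add ZE.y ZE.h))))) (add (neg (E.uu (add ZE.x (q 225 1000)) (add ZE.y (mul (q 9 10) ZE.r)))) (sub (sub (mul (sub (q 300 10000) (sub ZE.x (q 225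 1000))) (E.lnA (q 300 10000) (sub ZE.y (mul (q 9 10) ZE.r)))) (E.uu (q 300 10000) (sub ZE.y (mul (q 9 10) ZE.r)))) (mul pi (neg (sub ZE.y (mul (q 9 10) ZE.r))))))), sub (q 300 10000) (sub ZE.x ZE.s), add (q 0 1) (add ZE.y ZE.h)] 60
    2915705814432313560375084463061864092466
    [NumIs.V.of 10000 2250 2550, NumIs.V.of 10000 (-560) 560, NumIs.V.of 10000 0 2000, NumIs.V.of 10000 0 1045] = true := by
    decide +kernel
  obtain ⟨f, hf, hp⟩ := chkT4 h (by norm_num) (x := x) (y := y) (z := s) (w := r)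
    (by norm_num; linarith only [ua1]) (by norm_num; linarith only [ua2]) (by norm_num; linarith only [ua3]) (by norm_num; linarith only [ua4]) (by norm_num; linarith only [ua5]) (by norm_num; linarith only [ua6]) (by norm_num; linarith only [ua7]) (by norm_num; linarith only [ua8])
  by_contra hc
  push Not at hc
  obtain ⟨hc0, hc1⟩ := hc
  simp only [List.mem_cons, List.not_mem_nil, or_false] at hf
  rcases hf with rfl | rfl | rfl | rfl
  · simp only [ZE.x, ZE.y, ZE.s, ZE.r, ZE.h, E.val, NumIs.lkR] at hp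
    push_cast at hp
    linarith only [hc0, hp]
  · simp only [ZE.x, ZE.y, ZE.s, ZE.r, ZE.h, E.val, NumIs.lkR] at hp
    push_cast at hp
    linarith only [hc1, hp]
  · simp only [ZE.x, ZE.y, ZE.s, ZE.r, ZE.h, E.val, NumIs.lkR] at hp
    push_cast at hp
    linarith only [ua9, hp]
  · simp only [ZE.x, ZE.y, ZE.s, ZE.r, ZE.h, E.val, NumIs.lkR] at hp
    push_cast at hp
    linarith only [ua10, hp]

theorem e4a_mD4X4n {x y s r : ℝ} (ua1 : 2550 / 10000 ≤ x) (ua2 : x ≤ 5000 / 10000) (ua3 : -(560 / 10000) ≤ y) (ua4 : y ≤ 560 / 10000) (ua5 : 0 / 10000 ≤ s) (ua6 : s ≤ 2000 / 10000) (ua7 : 0 / 10000 ≤ r) (ua8 : r ≤ 1045 / 10000) (ua9 : (y + 4 * (r * s)) ≤ 0) (ua10 : y ≤ 28 / 10 * (1 / 2 - x)) (ua11 : -y ≤ 28 / 10 * (1 / 2 - x)) :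
    NumUs.uu (x + s) (y - 4 * (r * s)) + (NumUs.uu (x - s) (y + 4 * (r * s)) + Real.pi * -(y + 4 * (r * s))) + (-NumUs.uu (x + 225 / 1000) (y + 9 / 10 * r) + -(NumUs.uu (x - 225 / 1000) (y - 9 / 10 * r) + Real.pi * (y - 9 / 10 * r))) < (107 / 1000 + 64 / 100 * r + 2 * Real.pi * r * (9 / 100 + 4 * s * (5 / 2 - 3 * s))) ∨ NumUs.uu (x + s) (y - 4 * (r * s)) + (NumUs.uu (x - s) (y + 4 * (r * s)) + Real.pi * -(y + 4 * (r * s))) + (-NumUs.uu (x + 225 / 1000) (y + 9 / 10 * r) + -(NumUs.uu (x - 225 / 1000) (y - 9 / 10 * r) + Real.pi * -(y - 9 / 10 * r))) < (107 / 1000 + 64 / 100 * r + 2 * Real.pi * r * (9 / 100 + 4 * s * (5 / 2 - 3 * s))) := by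
  have h : chkT [sub (add (add (q 107 1000) (mul (q 64 100) ZE.r)) (mul (mul (mul (q 2 1) pi) ZE.r) (add (q 9 100) (mul (mul (q 4 1) ZE.s) (sub (q 5 2) (mul (q 3 1) ZE.s)))))) (add (add (E.uu (add ZE.x ZE.s) (sub ZE.y ZE.h)) (add (E.uu (sub ZE.x ZE.s) (add ZE.y ZE.h)) (mul pi (neg (add ZE.y ZE.h))))) (add (neg (E.uu (add ZE.x (q 225 1000)) (add ZE.y (mul (q 9 10) ZE.r)))) (neg (add (E.uu (sub ZE.x (q 225 1000)) (sub ZE.y (mul (q 9 10) ZE.r))) (mul pi (sub ZE.y (mul (q 9 10) ZE.r))))))), sub (add (add (q 107 1000) (mul (q 64 100) ZE.r)) (mul (mul (mul (q 2 1) pi) ZE.r) (add (q 9 100) (mul (mul (q 4 1) ZE.s) (sub (q 5 2) (mul (q 3 1) ZE.s)))))) (add (add (E.uu (add ZE.x ZE.s) (sub ZE.y ZE.h)) (add (E.uu (sub ZE.x ZE.s) (add ZE.y ZE.h)) (mul pi (neg (add ZE.y ZE.h))))) (add (neg (E.uu (add ZE.x (q 225 1000)) (add ZE.y (mul (q 9 10) ZE.r)))) (neg (add (E.uu (sub ZE.x (q 225 1000)) (sub ZE.y (mul (q 9 10) ZE.r))) (mul pi (neg (sub ZE.y (mul (q 9 10) ZE.r)))))))), add (q 0 1) (add ZE.y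 ZE.h), sub ZE.y (mul (q 28 10) (sub (q 1 2) ZE.x)), sub (neg ZE.y) (mul (q 28 10) (sub (q 1 2) ZE.x))] 60
    4342141031220755049838949809490809127556783576850930679782497630800300945440
    [NumIs.V.of 10000 2550 5000, NumIs.V.of 10000 (-560) 560, NumIs.V.of 10000 0 2000, NumIs.V.of 10000 0 1045] = true := by
    decide +kernel
  obtain ⟨f, hf, hp⟩ := chkT4 h (by norm_num) (x := x) (y := y) (z := s) (w := r)
    (by norm_num; linarith only [ua1]) (by norm_num; linarith only [ua2]) (by norm_num; linarith only [ua3]) (by norm_num; linarith only [ua4]) (by norm_num; linarith only [ua5]) (by norm_num; linarith only [ua6]) (by norm_num; linarith only [ua7]) (by norm_num; linarith only [ua8])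
  by_contra hc
  push Not at hc
  obtain ⟨hc0, hc1⟩ := hc
  simp only [List.mem_cons, List.not_mem_nil, or_false] at hf
  rcases hf with rfl | rfl | rfl | rfl | rfl
  · simp only [ZE.x, ZE.y, ZE.s, ZE.r, ZE.h, E.val, NumIs.lkR] at hp
    push_cast at hp
    linarith only [hc0, hp]
  · simp only [ZE.x, ZE.y, ZE.s, ZE.r, ZE.h, E.val, NumIs.lkR] at hp
    push_cast at hp
    linarith only [hc1, hp]
  · simp only [ZE.x, ZE.y, ZE.s, ZE.r, ZE.h, E.val, NumIs.lkR] at hp
    push_cast at hp
    linarith only [ua9, hp]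
  · simp only [ZE.x, ZE.y, ZE.s, ZE.r, ZE.h, E.val, NumIs.lkR] at hp
    push_cast at hp
    linarith only [ua10, hp]
  · simp only [ZE.x, ZE.y, ZE.s, ZE.r, ZE.h, E.val, NumIs.lkR] at hp
    push_cast at hp
    linarith only [ua11, hp]

end ZD

end Pool.Agent.Work.MP_b30479_gtS.G2

end

section

/-!
# Part of `ZRe4B`
-/
set_option linter.unusedSimpArgs false
set_option linter.unusedVariables false

set_option deprecated.oldSectionVars true

namespace Pool.Agent.Work.MP_b30479_gtS.G2

open VOL NumUs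

namespace ZD

open NumUs.E ZE

theorem e4a_mD4X1p {x y s r : ℝ} (ua1 : 300 / 10000 ≤ x) (ua2 : x ≤ 1950 / 10000) (ua3 : -(560 / 10000) ≤ y) (ua4 : y ≤ 560 / 10000) (ua5 : 0 / 10000 ≤ s) (ua6 : s ≤ 1650 / 10000) (ua7 : 0 / 10000 ≤ r) (ua8 : r ≤ 1045 / 10000) (ua9 : 300 / 10000 ≤ x - s) (ua10 : 0 ≤ (y + 4 * (r * s))) (ua11 : y ≤ 56 / 100 * x) (ua12 : -y ≤ 56 / 100 * x) :
    NumUs.uu (x + s) (y - 4 * (r * s)) + (NumUs.uu (x - s) (y + 4 * (r * s)) + Real.pi * (y + 4 * (r * s))) + (-NumUs.uu (x + 225 / 1000) (y + 9 / 10 * r) + -NumUs.uu (x + 775 / 1000) (y - 9 / 10 * r)) < (107 / 1000 + 64 / 100 * r + 2 * Real.pi * r * (9 / 100 + 4 * s * (5 / 2 - 3 * s))) := by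
  have h : chkT [sub (add (add (q 107 1000) (mul (q 64 100) ZE.r)) (mul (mul (mul (q 2 1) pi) ZE.r) (add (q 9 100) (mul (mul (q 4 1) ZE.s) (sub (q 5 2) (mul (q 3 1) ZE.s)))))) (add (add (E.uu (add ZE.x ZE.s) (sub ZE.y ZE.h)) (add (E.uu (sub ZE.x ZE.s) (add ZE.y ZE.h)) (mul pi (add ZE.y ZE.h)))) (add (neg (E.uu (add ZE.x (q 225 1000)) (add ZE.y (mul (q 9 10) ZE.r)))) (neg (E.uu (add ZE.x (q 775 1000)) (sub ZE.y (mul (q 9 10) ZE.r)))))), sub (q 300 10000) (sub ZE.x ZE.s), neg (add ZE.y ZE.h), sub ZE.y (mul (q 56 100) ZE.x), sub (neg ZE.y) (mul (q 56 100) ZE.x)] 60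
    157197810324180719932017321138617213794089550434269632828159157881319540251033612452771963679421605701243249613711738713467968969933039762339371220975530013209972287295327018445946797264424447287325107848144666936768971836528143834213214236200766626998186561097854169075932055282160482063526817245732473260254932134182591283379230196390846286958866769917810501948862953822727945231116978014647854655409557503868224032151422097281318731603731805233273279362032169961305241839598612520298266187733277197747547313692163114576101302490730286704308512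
    [NumIs.V.of 10000 300 1950, NumIs.V.of 10000 (-560) 560, NumIs.V.of 10000 0 1650, NumIs.V.of 10000 0 1045] = true :=
      Pool.Agent.Work.NumUs.chkT_of (Pool.Agent.Work.NumUs.runT_split rfl rfl rfl
        e4a_mD4X1p_h1_q1
        e4a_mD4X1p_h1_q2)
  obtain ⟨f, hf, hp⟩ := chkT4 h (by norm_num) (x := x) (y := y) (z := s) (w := r)
    (by norm_num; linarith only [ua1]) (by norm_num; linarith only [ua2]) (by norm_num; linarith only [ua3]) (by norm_num; linarith only [ua4]) (by norm_num; linarith only [ua5]) (by norm_num; linarith only [ua6]) (by norm_num; linarith only [ua7]) (by norm_num; linarith only [ua8])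
  by_contra hc
  push Not at hc
  simp only [List.mem_cons, List.not_mem_nil, or_false] at hf
  rcases hf with rfl | rfl | rfl | rfl | rfl
  · simp only [ZE.x, ZE.y, ZE.s, ZE.r, ZE.h, E.val, NumIs.lkR] at hp
    push_cast at hp
    linarith only [hc, hp]
  · simp only [ZE.x, ZE.y, ZE.s, ZE.r, ZE.h, E.val, NumIs.lkR] at hp
    push_cast at hp
    linarith only [ua9, hp]
  · simp only [ZE.x, ZE.y, ZE.s, ZE.r, ZE.h, E.val, NumIs.lkR] at hp
    push_cast at hp
    linarith only [ua10, hp]
  · simp only [ZE.x, ZE.y, ZE.s, ZE.r, ZE.h, E.val, NumIs.lkR] at hp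
    push_cast at hp
    linarith only [ua11, hp]
  · simp only [ZE.x, ZE.y, ZE.s, ZE.r, ZE.h, E.val, NumIs.lkR] at hp
    push_cast at hp
    linarith only [ua12, hp]

theorem e4a_mD4X2p {x y s r : ℝ} (ua1 : 1950 / 10000 ≤ x) (ua2 : x ≤ 2250 / 10000) (ua3 : -(560 / 10000) ≤ y) (ua4 : y ≤ 560 / 10000) (ua5 : 0 / 10000 ≤ s) (ua6 : s ≤ 1950 / 10000) (ua7 : 0 / 10000 ≤ r) (ua8 : r ≤ 1045 / 10000) (ua9 : 300 / 10000 ≤ x - s) (ua10 : 0 ≤ (y + 4 * (r * s))) :
    NumUs.uu (x + s) (y - 4 * (r * s)) + (NumUs.uu (x - s) (y + 4 * (r * s)) + Real.pi * (y + 4 * (r * s))) + (-NumUs.uu (x + 225 / 1000) (y + 9 / 10 * r) + ((100 / 3) * (225 / 1000 - x) * NumUs.uu (300 / 10000) (y - 9 / 10 * r) - Real.pi * (1 / 2) * (y - 9 / 10 * r) * (1 - (100 / 3) * (225 / 1000 - x)))) < (107 / 1000 + 64 / 100 * r + 2 * Real.pi * r * (9 / 100 + 4 * s * (5 / 2 - 3 * s))) ∨ NumUs.uu (x + s) (y - 4 * (r * s)) + (NumUs.uu (x - s) (y + 4 * (r * s)) + Real.pi * (y + 4 * (r * s))) + (-NumUs.uu (x + 225 / 1000) (y +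 9 / 10 * r) + ((100 / 3) * (225 / 1000 - x) * NumUs.uu (300 / 10000) (y - 9 / 10 * r) - Real.pi * (1 / 2) * -(y - 9 / 10 * r) * (1 - (100 / 3) * (225 / 1000 - x)))) < (107 / 1000 + 64 / 100 * r + 2 * Real.pi * r * (9 / 100 + 4 * s * (5 / 2 - 3 * s))) := by
  have h : chkT [sub (add (add (q 107 1000) (mul (q 64 100) ZE.r)) (mul (mul (mul (q 2 1) pi) ZE.r) (add (q 9 100) (mul (mul (q 4 1) ZE.s) (sub (q 5 2) (mul (q 3 1) ZE.s)))))) (add (add (E.uu (add ZE.x ZE.s) (sub ZE.y ZE.h)) (add (E.uu (sub ZE.x ZE.s) (add ZE.y ZE.h)) (mul pi (add ZE.y ZE.h)))) (add (neg (E.uu (add ZE.x (q 225 1000)) (add ZE.y (mul (q 9 10) ZE.r)))) (sub (mul (mul (q 100 3) (sub (q 225 1000) ZE.x)) (E.uu (q 300 10000) (sub ZE.y (mul (q 9 10) ZE.r)))) (mul (mul (mul pi (q 1 2)) (sub ZE.y (mul (q 9 10) ZE.r))) (sub (q 1 1) (mul (q 100 3) (sub (q 225 1000) ZE.x))))))), sub (add (add (q 107 1000) (mul (q 64 100) ZE.r)) (mul (mul (mul (q 2 1) pi) ZE.r) (add (q 9 100) (mul (mul (q 4 1) ZE.s) (sub (q 5 2) (mul (q 3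 1) ZE.s)))))) (add (add (E.uu (add ZE.x ZE.s) (sub ZE.y ZE.h)) (add (E.uu (sub ZE.x ZE.s) (add ZE.y ZE.h)) (mul pi (add ZE.y ZE.h)))) (add (neg (E.uu (add ZE.x (q 225 1000)) (add ZE.y (mul (q 9 10) ZE.r)))) (sub (mul (mul (q 100 3) (sub (q 225 1000) ZE.x)) (E.uu (q 300 10000) (sub ZE.y (mul (q 9 10) ZE.r)))) (mul (mul (mul pi (q 1 2)) (neg (sub ZE.y (mul (q 9 10) ZE.r)))) (sub (q 1 1) (mul (q 100 3) (sub (q 225 1000) ZE.x))))))), sub (q 300 10000) (sub ZE.x ZE.s), neg (add ZE.y ZE.h)] 60
    3859698644862977163422396393221431085362676403316803477494693140866690875698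
    [NumIs.V.of 10000 1950 2250, NumIs.V.of 10000 (-560) 560, NumIs.V.of 10000 0 1950, NumIs.V.of 10000 0 1045] = true := by
    decide +kernel
  obtain ⟨f, hf, hp⟩ := chkT4 h (by norm_num) (x := x) (y := y) (z := s) (w := r)
    (by norm_num; linarith only [ua1]) (by norm_num; linarith only [ua2]) (by norm_num; linarith only [ua3]) (by norm_num; linarith only [ua4]) (by norm_num; linarith only [ua5]) (by norm_num; linarith only [ua6]) (by norm_num; linarith only [ua7]) (by norm_num; linarith only [ua8])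
  by_contra hc
  push Not at hc
  obtain ⟨hc0, hc1⟩ := hc
  simp only [List.mem_cons, List.not_mem_nil, or_false] at hf
  rcases hf with rfl | rfl | rfl | rfl
  · simp only [ZE.x, ZE.y, ZE.s, ZE.r, ZE.h, E.val, NumIs.lkR] at hp
    push_cast at hp
    linarith only [hc0, hp]
  · simp only [ZE.x, ZE.y, ZE.s, ZE.r, ZE.h, E.val, NumIs.lkR] at hp
    push_cast at hp
    linarith only [hc1, hp]
  · simp only [ZE.x, ZE.y, ZE.s, ZE.r, ZE.h, E.val, NumIs.lkR] at hp
    push_cast at hp
    linarith only [ua9, hp]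
  · simp only [ZE.x, ZE.y, ZE.s, ZE.r, ZE.h, E.val, NumIs.lkR] at hp
    push_cast at hp
    linarith only [ua10, hp]

theorem e4a_mD4X4p {x y s r : ℝ} (ua1 : 2550 / 10000 ≤ x) (ua2 : x ≤ 5000 / 10000) (ua3 : -(560 / 10000) ≤ y) (ua4 : y ≤ 560 / 10000) (ua5 : 0 / 10000 ≤ s) (ua6 : s ≤ 2000 / 10000) (ua7 : 0 / 10000 ≤ r) (ua8 : r ≤ 1045 / 10000) (ua9 : 0 ≤ (y + 4 * (r * s))) (ua10 : y ≤ 28 / 10 * (1 / 2 - x)) (ua11 : -y ≤ 28 / 10 * (1 / 2 - x)) :
    NumUs.uu (x + s) (y - 4 * (r * s)) + (NumUs.uu (x - s) (y + 4 * (r * s)) + Real.pi * (y + 4 * (r * s))) + (-NumUs.uu (x + 225 / 1000) (y + 9 / 10 * r) + -(NumUs.uu (x - 225 / 1000) (y - 9 / 10 * r) + Real.pi * (y - 9 / 10 * r))) < (107 / 1000 + 64 / 100 * r + 2 * Real.pi * r * (9 / 100 + 4 * s * (5 / 2 - 3 * s))) ∨ NumUs.uu (x + s) (y - 4 * (r * s)) + (NumUs.uu (x - s) (y + 4 * (r * s)) + Real.pi * (y + 4 * (r * s))) + (-NumUs.uu (x + 225 / 1000) (y + 9 / 10 * r) + -(NumUs.uu (x - 225 / 1000) (y - 9 / 10 * r) + Real.pi * -(y - 9 /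 10 * r))) < (107 / 1000 + 64 / 100 * r + 2 * Real.pi * r * (9 / 100 + 4 * s * (5 / 2 - 3 * s))) := by
  have h : chkT [sub (add (add (q 107 1000) (mul (q 64 100) ZE.r)) (mul (mul (mul (q 2 1) pi) ZE.r) (add (q 9 100) (mul (mul (q 4 1) ZE.s) (sub (q 5 2) (mul (q 3 1) ZE.s)))))) (add (add (E.uu (add ZE.x ZE.s) (sub ZE.y ZE.h)) (add (E.uu (sub ZE.x ZE.s) (add ZE.y ZE.h)) (mul pi (add ZE.y ZE.h)))) (add (neg (E.uu (add ZE.x (q 225 1000)) (add ZE.y (mul (q 9 10) ZE.r)))) (neg (add (E.uu (sub ZE.x (q 225 1000)) (sub ZE.y (mul (q 9 10) ZE.r))) (mul pi (sub ZE.y (mul (q 9 10) ZE.r))))))), sub (add (add (q 107 1000) (mul (q 64 100) ZE.r)) (mul (mul (mul (q 2 1) pi) ZE.r) (add (q 9 100) (mul (mul (q 4 1) ZE.s) (sub (q 5 2) (mul (q 3 1) ZE.s)))))) (add (add (E.uu (add ZE.x ZE.s) (sub ZE.y ZE.h)) (add (E.uu (sub ZE.x ZE.s) (add ZE.y ZE.h)) (mul pi (add ZE.y ZE.h)))) (add (neg (E.uu (add ZE.x (q 225 1000)) (add ZE.y (mul (q 9 10) ZE.r)))) (neg (add (E.uu (sub ZE.x (q 225 1000)) (sub ZE.y (mul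 (q 9 10) ZE.r))) (mul pi (neg (sub ZE.y (mul (q 9 10) ZE.r)))))))), neg (add ZE.y ZE.h), sub ZE.y (mul (q 28 10) (sub (q 1 2) ZE.x)), sub (neg ZE.y) (mul (q 28 10) (sub (q 1 2) ZE.x))] 60
    1438809059817697659514644322905537344290468091558048602464180538735669702006799079591541868905346848301487879532732071217803296
    [NumIs.V.of 10000 2550 5000, NumIs.V.of 10000 (-560) 560, NumIs.V.of 10000 0 2000, NumIs.V.of 10000 0 1045] = true := by
    decide +kernel
  obtain ⟨f, hf, hp⟩ := chkT4 h (by norm_num) (x := x) (y := y) (z := s) (w := r)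
    (by norm_num; linarith only [ua1]) (by norm_num; linarith only [ua2]) (by norm_num; linarith only [ua3]) (by norm_num; linarith only [ua4]) (by norm_num; linarith only [ua5]) (by norm_num; linarith only [ua6]) (by norm_num; linarith only [ua7]) (by norm_num; linarith only [ua8])
  by_contra hc
  push Not at hc
  obtain ⟨hc0, hc1⟩ := hc
  simp only [List.mem_cons, List.not_mem_nil, or_false] at hf
  rcases hf with rfl | rfl | rfl | rfl | rfl
  · simp only [ZE.x, ZE.y, ZE.s, ZE.r, ZE.h, E.val, NumIs.lkR] at hp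
    push_cast at hp
    linarith only [hc0, hp]
  · simp only [ZE.x, ZE.y, ZE.s, ZE.r, ZE.h, E.val, NumIs.lkR] at hp
    push_cast at hp
    linarith only [hc1, hp]
  · simp only [ZE.x, ZE.y, ZE.s, ZE.r, ZE.h, E.val, NumIs.lkR] at hp
    push_cast at hp
    linarith only [ua9, hp]
  · simp only [ZE.x, ZE.y, ZE.s, ZE.r, ZE.h, E.val, NumIs.lkR] at hp
    push_cast at hp
    linarith only [ua10, hp]
  · simp only [ZE.x, ZE.y, ZE.s, ZE.r, ZE.h, E.val, NumIs.lkR] at hp
    push_cast at hp
    linarith only [ua11, hp]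

end ZD

end Pool.Agent.Work.MP_b30479_gtS.G2

end
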