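import Pool.Agent.Work.MP_b30479_gt.TBS.NumU.Tree
import Pool.Agent.Work.MP_b30479_gt.TBS.G2.MRBase
import Pool.Agent.Work.MP_b30479_gt.TBS.G2.C12R3_2
import Pool.Agent.Work.MP_b30479_gt.TBS.G2.ZRe1A_0
import Pool.Agent.Work.MP_b30479_gt.TBS.G2.C23R_3

section

/-!
# Right ramps of the hinges `2 | 3`, `3 | 2`, `2 | 3e`: rows for the side of the digit `2`

`T` is the height in the frame of the digit `2`; `s`, `k`: the other hinge.  Found with `NumUs.cert`.
-/

set_option linter.unusedSimpArgs false
set_option linter.unusedVariables false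
set_option linter.unusedTactic false

set_option deprecated.oldSectionVars true

namespace Pool.Agent.Work.MP_b30479_gtS.G2

namespace C23

open NumUs
open NumUs.E (emb)
open NumIs (V)

/-- 1 boxes -/
theorem z30kcp {x T s k : ℝ} (a0 : 3700 / 10000 ≤ x) (b0 : x ≤ 5400 / 10000) (a1 : -50 / 10000 ≤ T) (b1 : T ≤ 570 / 10000)
    (a2 : 4000 / 10000 ≤ s) (b2 : s ≤ 6000 / 10000) (a3 : -985 / 10000 ≤ k) (b3 : k ≤ 960 / 10000)
    (c0 : (x + s) - (106 / 100) ≤ 0) (c1 : (94 / 100) - (x + s) ≤ 0) (c2 : k - ((11 / 1000) +
    ((320 / 1000) * ((63 / 100) - s))) ≤ 0) (c3 : (-k) - ((340 / 1000) * ((80 / 100) - s)) ≤ 0)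
    (c4 : T ≤ 0) :
    0 < ((-14 / 100) - ((MR.n2 0 1 ((-100 / 30) * T) x (T * ((100 / 30) * ((6 / 10) - x))) s k)
      + (((-100 / 30) * T) * ((1 / 2) * Real.pi)))) := by
  have h : chkT [(emb (.sub (.q (-14) 100) (.add (MR.en2 (.q 0 1) (.q 1 1) (.mul (.q (-100) 30) (.var 1))
      (.var 0) (.mul (.var 1) (.mul (.q 100 30) (.sub (.q 6 10) (.var 0)))) (.var 2) (.var 3))
      (.mul (.mul (.q (-100) 30) (.var 1)) (.mul (.q 1 2) .pi))))), (emb (.sub (.add (.var 0)
      (.var 2)) (.q 106 100))), (emb (.sub (.q 94 100) (.add (.var 0) (.var 2)))), (emb (.sub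
      (.var 3) (.add (.q 11 1000) (.mul (.q 320 1000) (.sub (.q 63 100) (.var 2)))))), (emb (.sub
      (.neg (.var 3)) (.mul (.q 340 1000) (.sub (.q 80 100) (.var 2))))), (emb (.var 1))] 22
      8
      [V.of 10000 3700 5400 0, V.of 10000 (-50) 570 0, V.of 10000 4000 6000 0, V.of 10000 (-985)
        960 0] = true := by
    decide +kernel
  obtain ⟨f, hf, hp⟩ := chkT4 h (by norm_num) (x := x) (y := T) (z := s) (w := k)
    (le_trans (by norm_num) a0) (le_trans b0 (by norm_num))
    (le_trans (by norm_num) a1) (le_trans b1 (by norm_num))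
    (le_trans (by norm_num) a2) (le_trans b2 (by norm_num))
    (le_trans (by norm_num) a3) (le_trans b3 (by norm_num))
  simp only [List.mem_cons, List.not_mem_nil, or_false] at hf
  rcases hf with rfl | rfl | rfl | rfl | rfl | rfl
  · simp only [MR.e2_val, MR.en2_val, MR.eb2_val, NumUs.E.val, NumIs.E.val, NumIs.lkR] at hp
    push_cast at hp
    try simp only [div_one] at hp
    linarith only [hp]
  · simp only [MR.e2_val, MR.en2_val, MR.eb2_val, NumUs.E.val, NumIs.E.val, NumIs.lkR] at hp
    push_cast at hp
    try simp only [div_one] at hp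
    exfalso
    linarith only [c0, hp]
  · simp only [MR.e2_val, MR.en2_val, MR.eb2_val, NumUs.E.val, NumIs.E.val, NumIs.lkR] at hp
    push_cast at hp
    try simp only [div_one] at hp
    exfalso
    linarith only [c1, hp]
  · simp only [MR.e2_val, MR.en2_val, MR.eb2_val, NumUs.E.val, NumIs.E.val, NumIs.lkR] at hp
    push_cast at hp
    try simp only [div_one] at hp
    exfalso
    linarith only [c2, hp]
  · simp only [MR.e2_val, MR.en2_val, MR.eb2_val, NumUs.E.val, NumIs.E.val, NumIs.lkR] at hp
    push_cast at hp
    try simp only [div_one] at hp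
    exfalso
    linarith only [c3, hp]
  · simp only [MR.e2_val, MR.en2_val, MR.eb2_val, NumUs.E.val, NumIs.E.val, NumIs.lkR] at hp
    push_cast at hp
    try simp only [div_one] at hp
    exfalso
    linarith only [c4, hp]

/-- 1 boxes -/
theorem z30kcn {x T s k : ℝ} (a0 : 3700 / 10000 ≤ x) (b0 : x ≤ 5400 / 10000) (a1 : -50 / 10000 ≤ T) (b1 : T ≤ 570 / 10000)
    (a2 : 4000 / 10000 ≤ s) (b2 : s ≤ 6000 / 10000) (a3 : -985 / 10000 ≤ k) (b3 : k ≤ 960 / 10000)
    (c0 : (x + s) - (106 / 100) ≤ 0) (c1 : (94 / 100) - (x + s) ≤ 0) (c2 : k - ((11 / 1000) +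
    ((320 / 1000) * ((63 / 100) - s))) ≤ 0) (c3 : (-k) - ((340 / 1000) * ((80 / 100) - s)) ≤ 0)
    (c4 : -T ≤ 0) :
    0 < ((-14 / 100) - ((MR.n2 0 (-1) ((-100 / 30) * T) x (T * ((100 / 30) * ((6 / 10) - x))) s
      k) + (((-100 / 30) * T) * ((1 / 2) * Real.pi)))) := by
  have h : chkT [(emb (.sub (.q (-14) 100) (.add (MR.en2 (.q 0 1) (.q (-1) 1) (.mul (.q (-100) 30) (.var 1))
      (.var 0) (.mul (.var 1) (.mul (.q 100 30) (.sub (.q 6 10) (.var 0)))) (.var 2) (.var 3))
      (.mul (.mul (.q (-100) 30) (.var 1)) (.mul (.q 1 2) .pi))))), (emb (.sub (.add (.var 0)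
      (.var 2)) (.q 106 100))), (emb (.sub (.q 94 100) (.add (.var 0) (.var 2)))), (emb (.sub
      (.var 3) (.add (.q 11 1000) (.mul (.q 320 1000) (.sub (.q 63 100) (.var 2)))))), (emb (.sub
      (.neg (.var 3)) (.mul (.q 340 1000) (.sub (.q 80 100) (.var 2))))), (emb (.neg (.var 1)))] 22
      8
      [V.of 10000 3700 5400 0, V.of 10000 (-50) 570 0, V.of 10000 4000 6000 0, V.of 10000 (-985)
        960 0] = true := by
    decide +kernel
  obtain ⟨f, hf, hp⟩ := chkT4 h (by norm_num) (x := x) (y := T) (z := s) (w := k)
    (le_trans (by norm_num) a0) (le_trans b0 (by norm_num))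
    (le_trans (by norm_num) a1) (le_trans b1 (by norm_num))
    (le_trans (by norm_num) a2) (le_trans b2 (by norm_num))
    (le_trans (by norm_num) a3) (le_trans b3 (by norm_num))
  simp only [List.mem_cons, List.not_mem_nil, or_false] at hf
  rcases hf with rfl | rfl | rfl | rfl | rfl | rfl
  · simp only [MR.e2_val, MR.en2_val, MR.eb2_val, NumUs.E.val, NumIs.E.val, NumIs.lkR] at hp
    push_cast at hp
    try simp only [div_one] at hp
    linarith only [hp]
  · simp only [MR.e2_val, MR.en2_val, MR.eb2_val, NumUs.E.val, NumIs.E.val, NumIs.lkR] at hp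
    push_cast at hp
    try simp only [div_one] at hp
    exfalso
    linarith only [c0, hp]
  · simp only [MR.e2_val, MR.en2_val, MR.eb2_val, NumUs.E.val, NumIs.E.val, NumIs.lkR] at hp
    push_cast at hp
    try simp only [div_one] at hp
    exfalso
    linarith only [c1, hp]
  · simp only [MR.e2_val, MR.en2_val, MR.eb2_val, NumUs.E.val, NumIs.E.val, NumIs.lkR] at hp
    push_cast at hp
    try simp only [div_one] at hp
    exfalso
    linarith only [c2, hp]
  · simp only [MR.e2_val, MR.en2_val, MR.eb2_val, NumUs.E.val, NumIs.E.val, NumIs.lkR] at hp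
    push_cast at hp
    try simp only [div_one] at hp
    exfalso
    linarith only [c3, hp]
  · simp only [MR.e2_val, MR.en2_val, MR.eb2_val, NumUs.E.val, NumIs.E.val, NumIs.lkR] at hp
    push_cast at hp
    try simp only [div_one] at hp
    exfalso
    linarith only [c4, hp]

/-- 25 boxes -/
theorem z30kdp {x T s k : ℝ} (a0 : 3700 / 10000 ≤ x) (b0 : x ≤ 5400 / 10000) (a1 : -50 / 10000 ≤ T) (b1 : T ≤ 570 / 10000)
    (a2 : 5200 / 10000 ≤ s) (b2 : s ≤ 6000 / 10000) (a3 : -985 / 10000 ≤ k) (b3 : k ≤ 960 / 10000)
    (c0 : (106 / 100) - (x + s) ≤ 0) (c1 : k - ((11 / 1000) + ((320 / 1000) * ((63 / 100) - s))) ≤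
    0) (c2 : (-k) - ((340 / 1000) * ((80 / 100) - s)) ≤ 0) (c3 : T ≤ 0) :
    0 < ((-14 / 100) - ((MR.b2 1 ((-100 / 30) * T) x (T * ((100 / 30) * ((6 / 10) - x))) s k) +
      (((-100 / 30) * T) * ((1 / 2) * Real.pi)))) := by
  have h : chkT [(emb (.sub (.q (-14) 100) (.add (MR.eb2 (.q 1 1) (.mul (.q (-100) 30) (.var 1)) (.var 0)
      (.mul (.var 1) (.mul (.q 100 30) (.sub (.q 6 10) (.var 0)))) (.var 2) (.var 3)) (.mul (.mul
      (.q (-100) 30) (.var 1)) (.mul (.q 1 2) .pi))))), (emb (.sub (.q 106 100) (.add (.var 0)
      (.var 2)))), (emb (.sub (.var 3) (.add (.q 11 1000) (.mul (.q 320 1000) (.sub (.q 63 100)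
      (.var 2)))))), (emb (.sub (.neg (.var 3)) (.mul (.q 340 1000) (.sub (.q 80 100) (.var
      2))))), (emb (.var 1))] 22
      80343428570240230200139470673669974720930006897540073591184
      [V.of 10000 3700 5400 0, V.of 10000 (-50) 570 0, V.of 10000 5200 6000 0, V.of 10000 (-985)
        960 0] = true := by
    decide +kernel
  obtain ⟨f, hf, hp⟩ := chkT4 h (by norm_num) (x := x) (y := T) (z := s) (w := k)
    (le_trans (by norm_num) a0) (le_trans b0 (by norm_num))
    (le_trans (by norm_num) a1) (le_trans b1 (by norm_num))
    (le_trans (by norm_num) a2) (le_trans b2 (by norm_num))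
    (le_trans (by norm_num) a3) (le_trans b3 (by norm_num))
  simp only [List.mem_cons, List.not_mem_nil, or_false] at hf
  rcases hf with rfl | rfl | rfl | rfl | rfl
  · simp only [MR.e2_val, MR.en2_val, MR.eb2_val, NumUs.E.val, NumIs.E.val, NumIs.lkR] at hp
    push_cast at hp
    try simp only [div_one] at hp
    linarith only [hp]
  · simp only [MR.e2_val, MR.en2_val, MR.eb2_val, NumUs.E.val, NumIs.E.val, NumIs.lkR] at hp
    push_cast at hp
    try simp only [div_one] at hp
    exfalso
    linarith only [c0, hp]
  · simp only [MR.e2_val, MR.en2_val, MR.eb2_val, NumUs.E.val, NumIs.E.val, NumIs.lkR] at hp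
    push_cast at hp
    try simp only [div_one] at hp
    exfalso
    linarith only [c1, hp]
  · simp only [MR.e2_val, MR.en2_val, MR.eb2_val, NumUs.E.val, NumIs.E.val, NumIs.lkR] at hp
    push_cast at hp
    try simp only [div_one] at hp
    exfalso
    linarith only [c2, hp]
  · simp only [MR.e2_val, MR.en2_val, MR.eb2_val, NumUs.E.val, NumIs.E.val, NumIs.lkR] at hp
    push_cast at hp
    try simp only [div_one] at hp
    exfalso
    linarith only [c3, hp]

/-- 38 boxes -/
theorem z30kdn {x T s k : ℝ} (a0 : 3700 / 10000 ≤ x) (b0 : x ≤ 5400 / 10000) (a1 : -50 / 10000 ≤ T) (b1 : T ≤ 570 / 10000)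
    (a2 : 5200 / 10000 ≤ s) (b2 : s ≤ 6000 / 10000) (a3 : -985 / 10000 ≤ k) (b3 : k ≤ 960 / 10000)
    (c0 : (106 / 100) - (x + s) ≤ 0) (c1 : k - ((11 / 1000) + ((320 / 1000) * ((63 / 100) - s))) ≤
    0) (c2 : (-k) - ((340 / 1000) * ((80 / 100) - s)) ≤ 0) (c3 : -T ≤ 0) :
    0 < ((-14 / 100) - ((MR.b2 (-1) ((-100 / 30) * T) x (T * ((100 / 30) * ((6 / 10) - x))) s k)
      + (((-100 / 30) * T) * ((1 / 2) * Real.pi)))) := by
  have h : chkT [(emb (.sub (.q (-14) 100) (.add (MR.eb2 (.q (-1) 1) (.mul (.q (-100) 30) (.var 1)) (.var 0)
      (.mul (.var 1) (.mul (.q 100 30) (.sub (.q 6 10) (.var 0)))) (.var 2) (.var 3)) (.mul (.mul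
      (.q (-100) 30) (.var 1)) (.mul (.q 1 2) .pi))))), (emb (.sub (.q 106 100) (.add (.var 0)
      (.var 2)))), (emb (.sub (.var 3) (.add (.q 11 1000) (.mul (.q 320 1000) (.sub (.q 63 100)
      (.var 2)))))), (emb (.sub (.neg (.var 3)) (.mul (.q 340 1000) (.sub (.q 80 100) (.var
      2))))), (emb (.neg (.var 1)))] 22
      1341034114389848040327403610027751181734495759681085397121998122497100274708858275186619280
      [V.of 10000 3700 5400 0, V.of 10000 (-50) 570 0, V.of 10000 5200 6000 0, V.of 10000 (-985)
        960 0] = true := by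
    decide +kernel
  obtain ⟨f, hf, hp⟩ := chkT4 h (by norm_num) (x := x) (y := T) (z := s) (w := k)
    (le_trans (by norm_num) a0) (le_trans b0 (by norm_num))
    (le_trans (by norm_num) a1) (le_trans b1 (by norm_num))
    (le_trans (by norm_num) a2) (le_trans b2 (by norm_num))
    (le_trans (by norm_num) a3) (le_trans b3 (by norm_num))
  simp only [List.mem_cons, List.not_mem_nil, or_false] at hf
  rcases hf with rfl | rfl | rfl | rfl | rfl
  · simp only [MR.e2_val, MR.en2_val, MR.eb2_val, NumUs.E.val, NumIs.E.val, NumIs.lkR] at hp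
    push_cast at hp
    try simp only [div_one] at hp
    linarith only [hp]
  · simp only [MR.e2_val, MR.en2_val, MR.eb2_val, NumUs.E.val, NumIs.E.val, NumIs.lkR] at hp
    push_cast at hp
    try simp only [div_one] at hp
    exfalso
    linarith only [c0, hp]
  · simp only [MR.e2_val, MR.en2_val, MR.eb2_val, NumUs.E.val, NumIs.E.val, NumIs.lkR] at hp
    push_cast at hp
    try simp only [div_one] at hp
    exfalso
    linarith only [c1, hp]
  · simp only [MR.e2_val, MR.en2_val, MR.eb2_val, NumUs.E.val, NumIs.E.val, NumIs.lkR] at hp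
    push_cast at hp
    try simp only [div_one] at hp
    exfalso
    linarith only [c2, hp]
  · simp only [MR.e2_val, MR.en2_val, MR.eb2_val, NumUs.E.val, NumIs.E.val, NumIs.lkR] at hp
    push_cast at hp
    try simp only [div_one] at hp
    exfalso
    linarith only [c3, hp]

/-- 4 boxes -/
theorem e30ia {x T s k : ℝ} (a0 : 3000 / 10000 ≤ x) (b0 : x ≤ 4000 / 10000) (a1 : -130 / 10000 ≤ T) (b1 : T ≤ 260 / 10000)
    (a2 : 700 / 10000 ≤ s) (b2 : s ≤ 1250 / 10000) (a3 : -1075 / 10000 ≤ k) (b3 : k ≤ 960 / 10000)
    :
    0 < ((25 / 100) - (MR.s2 ((-100 / 30) * T) x (T * ((100 / 30) * ((6 / 10) - x))) s ((8 * k)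
      * s))) := by
  have h : chkT [(emb (.sub (.q 25 100) (MR.e2 (.mul (.q (-100) 30) (.var 1)) (.var 0) (.mul (.var 1) (.mul
      (.q 100 30) (.sub (.q 6 10) (.var 0)))) (.var 2) (.mul (.mul (.q 8 1) (.var 3)) (.var
      2)))))] 22
      143132704
      [V.of 10000 3000 4000 0, V.of 10000 (-130) 260 0, V.of 10000 700 1250 0, V.of 10000
        (-1075) 960 0] = true := by
    decide +kernel
  obtain ⟨f, hf, hp⟩ := chkT4 h (by norm_num) (x := x) (y := T) (z := s) (w := k)
    (le_trans (by norm_num) a0) (le_trans b0 (by norm_num))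
    (le_trans (by norm_num) a1) (le_trans b1 (by norm_num))
    (le_trans (by norm_num) a2) (le_trans b2 (by norm_num))
    (le_trans (by norm_num) a3) (le_trans b3 (by norm_num))
  simp only [List.mem_cons, List.not_mem_nil, or_false] at hf
  subst hf
  simp only [MR.e2_val, MR.en2_val, MR.eb2_val, NumUs.E.val, NumIs.E.val, NumIs.lkR] at hp
  push_cast at hp
  try simp only [div_one] at hp
  linarith only [hp]

/-- 60 boxes -/
theorem e30ib {x T s k : ℝ} (a0 : 3000 / 10000 ≤ x) (b0 : x ≤ 4000 / 10000) (a1 : -130 / 10000 ≤ T) (b1 : T ≤ 260 / 10000)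
    (a2 : 1250 / 10000 ≤ s) (b2 : s ≤ 6000 / 10000) (a3 : -985 / 10000 ≤ k) (b3 : k ≤ 960 / 10000)
    (c0 : (x + s) - (94 / 100) ≤ 0) :
    0 < ((25 / 100) - (MR.s2 ((-100 / 30) * T) x (T * ((100 / 30) * ((6 / 10) - x))) s k)) := by
  have h : chkT [(emb (.sub (.q 25 100) (MR.e2 (.mul (.q (-100) 30) (.var 1)) (.var 0) (.mul (.var 1) (.mul
      (.q 100 30) (.sub (.q 6 10) (.var 0)))) (.var 2) (.var 3)))), (emb (.sub (.add (.var 0)
      (.var 2)) (.q 94 100)))] 22
      116237909866212215781392197194126048516473046327776605193694760423754476490088732454566598207934308680912704613426001213061870049149419245809698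
      [V.of 10000 3000 4000 0, V.of 10000 (-130) 260 0, V.of 10000 1250 6000 0, V.of 10000
        (-985) 960 0] = true := by
    decide +kernel
  obtain ⟨f, hf, hp⟩ := chkT4 h (by norm_num) (x := x) (y := T) (z := s) (w := k)
    (le_trans (by norm_num) a0) (le_trans b0 (by norm_num))
    (le_trans (by norm_num) a1) (le_trans b1 (by norm_num))
    (le_trans (by norm_num) a2) (le_trans b2 (by norm_num))
    (le_trans (by norm_num) a3) (le_trans b3 (by norm_num))
  simp only [List.mem_cons, List.not_mem_nil, or_false] at hf
  rcases hf with rfl | rfl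
  · simp only [MR.e2_val, MR.en2_val, MR.eb2_val, NumUs.E.val, NumIs.E.val, NumIs.lkR] at hp
    push_cast at hp
    try simp only [div_one] at hp
    linarith only [hp]
  · simp only [MR.e2_val, MR.en2_val, MR.eb2_val, NumUs.E.val, NumIs.E.val, NumIs.lkR] at hp
    push_cast at hp
    try simp only [div_one] at hp
    exfalso
    linarith only [c0, hp]

/-- 1 boxes -/
theorem e30icp {x T s k : ℝ} (a0 : 3000 / 10000 ≤ x) (b0 : x ≤ 4000 / 10000) (a1 : -130 / 10000 ≤ T) (b1 : T ≤ 260 / 10000)
    (a2 : 5400 / 10000 ≤ s) (b2 : s ≤ 6000 / 10000) (a3 : -985 / 10000 ≤ k) (b3 : k ≤ 960 / 10000)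
    (c0 : (x + s) - (106 / 100) ≤ 0) (c1 : (94 / 100) - (x + s) ≤ 0) (c2 : k - ((11 / 1000) +
    ((320 / 1000) * ((63 / 100) - s))) ≤ 0) (c3 : (-k) - ((340 / 1000) * ((80 / 100) - s)) ≤ 0)
    (c4 : T ≤ 0) :
    0 < ((25 / 100) - (MR.n2 0 1 ((-100 / 30) * T) x (T * ((100 / 30) * ((6 / 10) - x))) s k)) := by
  have h : chkT [(emb (.sub (.q 25 100) (MR.en2 (.q 0 1) (.q 1 1) (.mul (.q (-100) 30) (.var 1)) (.var 0)
      (.mul (.var 1) (.mul (.q 100 30) (.sub (.q 6 10) (.var 0)))) (.var 2) (.var 3)))), (emb
      (.sub (.add (.var 0) (.var 2)) (.q 106 100))), (emb (.sub (.q 94 100) (.add (.var 0) (.var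
      2)))), (emb (.sub (.var 3) (.add (.q 11 1000) (.mul (.q 320 1000) (.sub (.q 63 100) (.var
      2)))))), (emb (.sub (.neg (.var 3)) (.mul (.q 340 1000) (.sub (.q 80 100) (.var 2))))), (emb
      (.var 1))] 22
      8
      [V.of 10000 3000 4000 0, V.of 10000 (-130) 260 0, V.of 10000 5400 6000 0, V.of 10000
        (-985) 960 0] = true := by
    decide +kernel
  obtain ⟨f, hf, hp⟩ := chkT4 h (by norm_num) (x := x) (y := T) (z := s) (w := k)
    (le_trans (by norm_num) a0) (le_trans b0 (by norm_num))
    (le_trans (by norm_num) a1) (le_trans b1 (by norm_num))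
    (le_trans (by norm_num) a2) (le_trans b2 (by norm_num))
    (le_trans (by norm_num) a3) (le_trans b3 (by norm_num))
  simp only [List.mem_cons, List.not_mem_nil, or_false] at hf
  rcases hf with rfl | rfl | rfl | rfl | rfl | rfl
  · simp only [MR.e2_val, MR.en2_val, MR.eb2_val, NumUs.E.val, NumIs.E.val, NumIs.lkR] at hp
    push_cast at hp
    try simp only [div_one] at hp
    linarith only [hp]
  · simp only [MR.e2_val, MR.en2_val, MR.eb2_val, NumUs.E.val, NumIs.E.val, NumIs.lkR] at hp
    push_cast at hp
    try simp only [div_one] at hp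
    exfalso
    linarith only [b0, b2, hp]
  · simp only [MR.e2_val, MR.en2_val, MR.eb2_val, NumUs.E.val, NumIs.E.val, NumIs.lkR] at hp
    push_cast at hp
    try simp only [div_one] at hp
    exfalso
    linarith only [c1, hp]
  · simp only [MR.e2_val, MR.en2_val, MR.eb2_val, NumUs.E.val, NumIs.E.val, NumIs.lkR] at hp
    push_cast at hp
    try simp only [div_one] at hp
    exfalso
    linarith only [c2, hp]
  · simp only [MR.e2_val, MR.en2_val, MR.eb2_val, NumUs.E.val, NumIs.E.val, NumIs.lkR] at hp
    push_cast at hp
    try simp only [div_one] at hp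
    exfalso
    linarith only [c3, hp]
  · simp only [MR.e2_val, MR.en2_val, MR.eb2_val, NumUs.E.val, NumIs.E.val, NumIs.lkR] at hp
    push_cast at hp
    try simp only [div_one] at hp
    exfalso
    linarith only [c4, hp]

/-- 1 boxes -/
theorem e30icn {x T s k : ℝ} (a0 : 3000 / 10000 ≤ x) (b0 : x ≤ 4000 / 10000) (a1 : -130 / 10000 ≤ T) (b1 : T ≤ 260 / 10000)
    (a2 : 5400 / 10000 ≤ s) (b2 : s ≤ 6000 / 10000) (a3 : -985 / 10000 ≤ k) (b3 : k ≤ 960 / 10000)
    (c0 : (x + s) - (106 / 100) ≤ 0) (c1 : (94 / 100) - (x + s) ≤ 0) (c2 : k - ((11 / 1000) +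
    ((320 / 1000) * ((63 / 100) - s))) ≤ 0) (c3 : (-k) - ((340 / 1000) * ((80 / 100) - s)) ≤ 0)
    (c4 : -T ≤ 0) :
    0 < ((25 / 100) - (MR.n2 0 (-1) ((-100 / 30) * T) x (T * ((100 / 30) * ((6 / 10) - x))) s
      k)) := by
  have h : chkT [(emb (.sub (.q 25 100) (MR.en2 (.q 0 1) (.q (-1) 1) (.mul (.q (-100) 30) (.var 1)) (.var 0)
      (.mul (.var 1) (.mul (.q 100 30) (.sub (.q 6 10) (.var 0)))) (.var 2) (.var 3)))), (emb
      (.sub (.add (.var 0) (.var 2)) (.q 106 100))), (emb (.sub (.q 94 100) (.add (.var 0) (.var
      2)))), (emb (.sub (.var 3) (.add (.q 11 1000) (.mul (.q 320 1000) (.sub (.q 63 100) (.var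
      2)))))), (emb (.sub (.neg (.var 3)) (.mul (.q 340 1000) (.sub (.q 80 100) (.var 2))))), (emb
      (.neg (.var 1)))] 22
      8
      [V.of 10000 3000 4000 0, V.of 10000 (-130) 260 0, V.of 10000 5400 6000 0, V.of 10000
        (-985) 960 0] = true := by
    decide +kernel
  obtain ⟨f, hf, hp⟩ := chkT4 h (by norm_num) (x := x) (y := T) (z := s) (w := k)
    (le_trans (by norm_num) a0) (le_trans b0 (by norm_num))
    (le_trans (by norm_num) a1) (le_trans b1 (by norm_num))
    (le_trans (by norm_num) a2) (le_trans b2 (by norm_num))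
    (le_trans (by norm_num) a3) (le_trans b3 (by norm_num))
  simp only [List.mem_cons, List.not_mem_nil, or_false] at hf
  rcases hf with rfl | rfl | rfl | rfl | rfl | rfl
  · simp only [MR.e2_val, MR.en2_val, MR.eb2_val, NumUs.E.val, NumIs.E.val, NumIs.lkR] at hp
    push_cast at hp
    try simp only [div_one] at hp
    linarith only [hp]
  · simp only [MR.e2_val, MR.en2_val, MR.eb2_val, NumUs.E.val, NumIs.E.val, NumIs.lkR] at hp
    push_cast at hp
    try simp only [div_one] at hp
    exfalso
    linarith only [b0, b2, hp]
  · simp only [MR.e2_val, MR.en2_val, MR.eb2_val, NumUs.E.val, NumIs.E.val, NumIs.lkR] at hp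
    push_cast at hp
    try simp only [div_one] at hp
    exfalso
    linarith only [c1, hp]
  · simp only [MR.e2_val, MR.en2_val, MR.eb2_val, NumUs.E.val, NumIs.E.val, NumIs.lkR] at hp
    push_cast at hp
    try simp only [div_one] at hp
    exfalso
    linarith only [c2, hp]
  · simp only [MR.e2_val, MR.en2_val, MR.eb2_val, NumUs.E.val, NumIs.E.val, NumIs.lkR] at hp
    push_cast at hp
    try simp only [div_one] at hp
    exfalso
    linarith only [c3, hp]
  · simp only [MR.e2_val, MR.en2_val, MR.eb2_val, NumUs.E.val, NumIs.E.val, NumIs.lkR] at hp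
    push_cast at hp
    try simp only [div_one] at hp
    exfalso
    linarith only [c4, hp]

/-- 8 boxes -/
theorem e30ja {x T s k : ℝ} (a0 : 4000 / 10000 ≤ x) (b0 : x ≤ 6000 / 10000) (a1 : -130 / 10000 ≤ T) (b1 : T ≤ 260 / 10000)
    (a2 : 700 / 10000 ≤ s) (b2 : s ≤ 1250 / 10000) (a3 : -1075 / 10000 ≤ k) (b3 : k ≤ 960 / 10000)
    :
    0 < ((-4 / 100) - (MR.s2 ((-100 / 30) * T) x (T * ((100 / 30) * ((6 / 10) - x))) s ((8 * k)
      * s))) := by
  have h : chkT [(emb (.sub (.q (-4) 100) (MR.e2 (.mul (.q (-100) 30) (.var 1)) (.var 0) (.mul (.var 1)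
      (.mul (.q 100 30) (.sub (.q 6 10) (.var 0)))) (.var 2) (.mul (.mul (.q 8 1) (.var 3)) (.var
      2)))))] 22
      612634171744978992
      [V.of 10000 4000 6000 0, V.of 10000 (-130) 260 0, V.of 10000 700 1250 0, V.of 10000
        (-1075) 960 0] = true := by
    decide +kernel
  obtain ⟨f, hf, hp⟩ := chkT4 h (by norm_num) (x := x) (y := T) (z := s) (w := k)
    (le_trans (by norm_num) a0) (le_trans b0 (by norm_num))
    (le_trans (by norm_num) a1) (le_trans b1 (by norm_num))
    (le_trans (by norm_num) a2) (le_trans b2 (by norm_num))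
    (le_trans (by norm_num) a3) (le_trans b3 (by norm_num))
  simp only [List.mem_cons, List.not_mem_nil, or_false] at hf
  subst hf
  simp only [MR.e2_val, MR.en2_val, MR.eb2_val, NumUs.E.val, NumIs.E.val, NumIs.lkR] at hp
  push_cast at hp
  try simp only [div_one] at hp
  linarith only [hp]

/-- 154 boxes -/
theorem e30jb {x T s k : ℝ} (a0 : 4000 / 10000 ≤ x) (b0 : x ≤ 6000 / 10000) (a1 : -130 / 10000 ≤ T) (b1 : T ≤ 260 / 10000)
    (a2 : 1250 / 10000 ≤ s) (b2 : s ≤ 5400 / 10000) (a3 : -985 / 10000 ≤ k) (b3 : k ≤ 960 / 10000)
    (c0 : (x + s) - (94 / 100) ≤ 0) :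
    0 < ((-4 / 100) - (MR.s2 ((-100 / 30) * T) x (T * ((100 / 30) * ((6 / 10) - x))) s k)) := by
  have h : chkT [(emb (.sub (.q (-4) 100) (MR.e2 (.mul (.q (-100) 30) (.var 1)) (.var 0) (.mul (.var 1)
      (.mul (.q 100 30) (.sub (.q 6 10) (.var 0)))) (.var 2) (.var 3)))), (emb (.sub (.add (.var
      0) (.var 2)) (.q 94 100)))] 22
      2773230211996796404330771950744208405519457691461211847908899007941315124623802220338702706193280301496566559545614358834438823186641216950699854073814845587236285902197351247742215434330878615056206377956905742454378910245958138843526052035189653614735600498645462684901217768413374837174941553640697689119619302237641686208157240587570993061004711881256760028051288098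
      [V.of 10000 4000 6000 0, V.of 10000 (-130) 260 0, V.of 10000 1250 5400 0, V.of 10000
        (-985) 960 0] = true := by
    decide +kernel
  obtain ⟨f, hf, hp⟩ := chkT4 h (by norm_num) (x := x) (y := T) (z := s) (w := k)
    (le_trans (by norm_num) a0) (le_trans b0 (by norm_num))
    (le_trans (by norm_num) a1) (le_trans b1 (by norm_num))
    (le_trans (by norm_num) a2) (le_trans b2 (by norm_num))
    (le_trans (by norm_num) a3) (le_trans b3 (by norm_num))
  simp only [List.mem_cons, List.not_mem_nil, or_false] at hf
  rcases hf with rfl | rfl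
  · simp only [MR.e2_val, MR.en2_val, MR.eb2_val, NumUs.E.val, NumIs.E.val, NumIs.lkR] at hp
    push_cast at hp
    try simp only [div_one] at hp
    linarith only [hp]
  · simp only [MR.e2_val, MR.en2_val, MR.eb2_val, NumUs.E.val, NumIs.E.val, NumIs.lkR] at hp
    push_cast at hp
    try simp only [div_one] at hp
    exfalso
    linarith only [c0, hp]

/-- 1 boxes -/
theorem e30jcp {x T s k : ℝ} (a0 : 4000 / 10000 ≤ x) (b0 : x ≤ 6000 / 10000) (a1 : -130 / 10000 ≤ T) (b1 : T ≤ 260 / 10000)
    (a2 : 3400 / 10000 ≤ s) (b2 : s ≤ 6000 / 10000) (a3 : -985 / 10000 ≤ k) (b3 : k ≤ 960 / 10000)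
    (c0 : (x + s) - (106 / 100) ≤ 0) (c1 : (94 / 100) - (x + s) ≤ 0) (c2 : k - ((11 / 1000) +
    ((320 / 1000) * ((63 / 100) - s))) ≤ 0) (c3 : (-k) - ((340 / 1000) * ((80 / 100) - s)) ≤ 0)
    (c4 : T ≤ 0) :
    0 < ((-4 / 100) - (MR.n2 0 1 ((-100 / 30) * T) x (T * ((100 / 30) * ((6 / 10) - x))) s k)) := by
  have h : chkT [(emb (.sub (.q (-4) 100) (MR.en2 (.q 0 1) (.q 1 1) (.mul (.q (-100) 30) (.var 1)) (.var 0)
      (.mul (.var 1) (.mul (.q 100 30) (.sub (.q 6 10) (.var 0)))) (.var 2) (.var 3)))), (emb
      (.sub (.add (.var 0) (.var 2)) (.q 106 100))), (emb (.sub (.q 94 100) (.add (.var 0) (.var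
      2)))), (emb (.sub (.var 3) (.add (.q 11 1000) (.mul (.q 320 1000) (.sub (.q 63 100) (.var
      2)))))), (emb (.sub (.neg (.var 3)) (.mul (.q 340 1000) (.sub (.q 80 100) (.var 2))))), (emb
      (.var 1))] 22
      8
      [V.of 10000 4000 6000 0, V.of 10000 (-130) 260 0, V.of 10000 3400 6000 0, V.of 10000
        (-985) 960 0] = true := by
    decide +kernel
  obtain ⟨f, hf, hp⟩ := chkT4 h (by norm_num) (x := x) (y := T) (z := s) (w := k)
    (le_trans (by norm_num) a0) (le_trans b0 (by norm_num))
    (le_trans (by norm_num) a1) (le_trans b1 (by norm_num))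
    (le_trans (by norm_num) a2) (le_trans b2 (by norm_num))
    (le_trans (by norm_num) a3) (le_trans b3 (by norm_num))
  simp only [List.mem_cons, List.not_mem_nil, or_false] at hf
  rcases hf with rfl | rfl | rfl | rfl | rfl | rfl
  · simp only [MR.e2_val, MR.en2_val, MR.eb2_val, NumUs.E.val, NumIs.E.val, NumIs.lkR] at hp
    push_cast at hp
    try simp only [div_one] at hp
    linarith only [hp]
  · simp only [MR.e2_val, MR.en2_val, MR.eb2_val, NumUs.E.val, NumIs.E.val, NumIs.lkR] at hp
    push_cast at hp
    try simp only [div_one] at hp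
    exfalso
    linarith only [c0, hp]
  · simp only [MR.e2_val, MR.en2_val, MR.eb2_val, NumUs.E.val, NumIs.E.val, NumIs.lkR] at hp
    push_cast at hp
    try simp only [div_one] at hp
    exfalso
    linarith only [c1, hp]
  · simp only [MR.e2_val, MR.en2_val, MR.eb2_val, NumUs.E.val, NumIs.E.val, NumIs.lkR] at hp
    push_cast at hp
    try simp only [div_one] at hp
    exfalso
    linarith only [c2, hp]
  · simp only [MR.e2_val, MR.en2_val, MR.eb2_val, NumUs.E.val, NumIs.E.val, NumIs.lkR] at hp
    push_cast at hp
    try simp only [div_one] at hp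
    exfalso
    linarith only [c3, hp]
  · simp only [MR.e2_val, MR.en2_val, MR.eb2_val, NumUs.E.val, NumIs.E.val, NumIs.lkR] at hp
    push_cast at hp
    try simp only [div_one] at hp
    exfalso
    linarith only [c4, hp]

/-- 1 boxes -/
theorem e30jcn {x T s k : ℝ} (a0 : 4000 / 10000 ≤ x) (b0 : x ≤ 6000 / 10000) (a1 : -130 / 10000 ≤ T) (b1 : T ≤ 260 / 10000)
    (a2 : 3400 / 10000 ≤ s) (b2 : s ≤ 6000 / 10000) (a3 : -985 / 10000 ≤ k) (b3 : k ≤ 960 / 10000)
    (c0 : (x + s) - (106 / 100) ≤ 0) (c1 : (94 / 100) - (x + s) ≤ 0) (c2 : k - ((11 / 1000) +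
    ((320 / 1000) * ((63 / 100) - s))) ≤ 0) (c3 : (-k) - ((340 / 1000) * ((80 / 100) - s)) ≤ 0)
    (c4 : -T ≤ 0) :
    0 < ((-4 / 100) - (MR.n2 0 (-1) ((-100 / 30) * T) x (T * ((100 / 30) * ((6 / 10) - x))) s
      k)) := by
  have h : chkT [(emb (.sub (.q (-4) 100) (MR.en2 (.q 0 1) (.q (-1) 1) (.mul (.q (-100) 30) (.var 1)) (.var
      0) (.mul (.var 1) (.mul (.q 100 30) (.sub (.q 6 10) (.var 0)))) (.var 2) (.var 3)))), (emb
      (.sub (.add (.var 0) (.var 2)) (.q 106 100))), (emb (.sub (.q 94 100) (.add (.var 0) (.var
      2)))), (emb (.sub (.var 3) (.add (.q 11 1000) (.mul (.q 320 1000) (.sub (.q 63 100) (.var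
      2)))))), (emb (.sub (.neg (.var 3)) (.mul (.q 340 1000) (.sub (.q 80 100) (.var 2))))), (emb
      (.neg (.var 1)))] 22
      8
      [V.of 10000 4000 6000 0, V.of 10000 (-130) 260 0, V.of 10000 3400 6000 0, V.of 10000
        (-985) 960 0] = true := by
    decide +kernel
  obtain ⟨f, hf, hp⟩ := chkT4 h (by norm_num) (x := x) (y := T) (z := s) (w := k)
    (le_trans (by norm_num) a0) (le_trans b0 (by norm_num))
    (le_trans (by norm_num) a1) (le_trans b1 (by norm_num))
    (le_trans (by norm_num) a2) (le_trans b2 (by norm_num))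
    (le_trans (by norm_num) a3) (le_trans b3 (by norm_num))
  simp only [List.mem_cons, List.not_mem_nil, or_false] at hf
  rcases hf with rfl | rfl | rfl | rfl | rfl | rfl
  · simp only [MR.e2_val, MR.en2_val, MR.eb2_val, NumUs.E.val, NumIs.E.val, NumIs.lkR] at hp
    push_cast at hp
    try simp only [div_one] at hp
    linarith only [hp]
  · simp only [MR.e2_val, MR.en2_val, MR.eb2_val, NumUs.E.val, NumIs.E.val, NumIs.lkR] at hp
    push_cast at hp
    try simp only [div_one] at hp
    exfalso
    linarith only [c0, hp]
  · simp only [MR.e2_val, MR.en2_val, MR.eb2_val, NumUs.E.val, NumIs.E.val, NumIs.lkR] at hp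
    push_cast at hp
    try simp only [div_one] at hp
    exfalso
    linarith only [c1, hp]
  · simp only [MR.e2_val, MR.en2_val, MR.eb2_val, NumUs.E.val, NumIs.E.val, NumIs.lkR] at hp
    push_cast at hp
    try simp only [div_one] at hp
    exfalso
    linarith only [c2, hp]
  · simp only [MR.e2_val, MR.en2_val, MR.eb2_val, NumUs.E.val, NumIs.E.val, NumIs.lkR] at hp
    push_cast at hp
    try simp only [div_one] at hp
    exfalso
    linarith only [c3, hp]
  · simp only [MR.e2_val, MR.en2_val, MR.eb2_val, NumUs.E.val, NumIs.E.val, NumIs.lkR] at hp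
    push_cast at hp
    try simp only [div_one] at hp
    exfalso
    linarith only [c4, hp]

/-- 60 boxes -/
theorem e30jdp {x T s k : ℝ} (a0 : 4000 / 10000 ≤ x) (b0 : x ≤ 6000 / 10000) (a1 : -130 / 10000 ≤ T) (b1 : T ≤ 260 / 10000)
    (a2 : 4600 / 10000 ≤ s) (b2 : s ≤ 6000 / 10000) (a3 : -985 / 10000 ≤ k) (b3 : k ≤ 960 / 10000)
    (c0 : (106 / 100) - (x + s) ≤ 0) (c1 : k - ((11 / 1000) + ((320 / 1000) * ((63 / 100) - s))) ≤
    0) (c2 : (-k) - ((340 / 1000) * ((80 / 100) - s)) ≤ 0) (c3 : T ≤ 0) :
    0 < ((-4 / 100) - (MR.b2 1 ((-100 / 30) * T) x (T * ((100 / 30) * ((6 / 10) - x))) s k)) := by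
  have h : chkT [(emb (.sub (.q (-4) 100) (MR.eb2 (.q 1 1) (.mul (.q (-100) 30) (.var 1)) (.var 0) (.mul
      (.var 1) (.mul (.q 100 30) (.sub (.q 6 10) (.var 0)))) (.var 2) (.var 3)))), (emb (.sub (.q
      106 100) (.add (.var 0) (.var 2)))), (emb (.sub (.var 3) (.add (.q 11 1000) (.mul (.q 320
      1000) (.sub (.q 63 100) (.var 2)))))), (emb (.sub (.neg (.var 3)) (.mul (.q 340 1000) (.sub
      (.q 80 100) (.var 2))))), (emb (.var 1))] 22
      152820662290797399550627613336981122236109197390881390820081096862431092875447028368388419173633361743258741690027898832997946283125080025240065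
      [V.of 10000 4000 6000 0, V.of 10000 (-130) 260 0, V.of 10000 4600 6000 0, V.of 10000
        (-985) 960 0] = true := by
    decide +kernel
  obtain ⟨f, hf, hp⟩ := chkT4 h (by norm_num) (x := x) (y := T) (z := s) (w := k)
    (le_trans (by norm_num) a0) (le_trans b0 (by norm_num))
    (le_trans (by norm_num) a1) (le_trans b1 (by norm_num))
    (le_trans (by norm_num) a2) (le_trans b2 (by norm_num))
    (le_trans (by norm_num) a3) (le_trans b3 (by norm_num))
  simp only [List.mem_cons, List.not_mem_nil, or_false] at hf
  rcases hf with rfl | rfl | rfl | rfl | rfl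
  · simp only [MR.e2_val, MR.en2_val, MR.eb2_val, NumUs.E.val, NumIs.E.val, NumIs.lkR] at hp
    push_cast at hp
    try simp only [div_one] at hp
    linarith only [hp]
  · simp only [MR.e2_val, MR.en2_val, MR.eb2_val, NumUs.E.val, NumIs.E.val, NumIs.lkR] at hp
    push_cast at hp
    try simp only [div_one] at hp
    exfalso
    linarith only [c0, hp]
  · simp only [MR.e2_val, MR.en2_val, MR.eb2_val, NumUs.E.val, NumIs.E.val, NumIs.lkR] at hp
    push_cast at hp
    try simp only [div_one] at hp
    exfalso
    linarith only [c1, hp]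
  · simp only [MR.e2_val, MR.en2_val, MR.eb2_val, NumUs.E.val, NumIs.E.val, NumIs.lkR] at hp
    push_cast at hp
    try simp only [div_one] at hp
    exfalso
    linarith only [c2, hp]
  · simp only [MR.e2_val, MR.en2_val, MR.eb2_val, NumUs.E.val, NumIs.E.val, NumIs.lkR] at hp
    push_cast at hp
    try simp only [div_one] at hp
    exfalso
    linarith only [c3, hp]

/-- 70 boxes -/
theorem e30jdn {x T s k : ℝ} (a0 : 4000 / 10000 ≤ x) (b0 : x ≤ 6000 / 10000) (a1 : -130 / 10000 ≤ T) (b1 : T ≤ 260 / 10000)
    (a2 : 4600 / 10000 ≤ s) (b2 : s ≤ 6000 / 10000) (a3 : -985 / 10000 ≤ k) (b3 : k ≤ 960 / 10000)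
    (c0 : (106 / 100) - (x + s) ≤ 0) (c1 : k - ((11 / 1000) + ((320 / 1000) * ((63 / 100) - s))) ≤
    0) (c2 : (-k) - ((340 / 1000) * ((80 / 100) - s)) ≤ 0) (c3 : -T ≤ 0) :
    0 < ((-4 / 100) - (MR.b2 (-1) ((-100 / 30) * T) x (T * ((100 / 30) * ((6 / 10) - x))) s k)) := by
  have h : chkT [(emb (.sub (.q (-4) 100) (MR.eb2 (.q (-1) 1) (.mul (.q (-100) 30) (.var 1)) (.var 0) (.mul
      (.var 1) (.mul (.q 100 30) (.sub (.q 6 10) (.var 0)))) (.var 2) (.var 3)))), (emb (.sub (.q
      106 100) (.add (.var 0) (.var 2)))), (emb (.sub (.var 3) (.add (.q 11 1000) (.mul (.q 320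
      1000) (.sub (.q 63 100) (.var 2)))))), (emb (.sub (.neg (.var 3)) (.mul (.q 340 1000) (.sub
      (.q 80 100) (.var 2))))), (emb (.neg (.var 1)))] 22
      155260109077059788786925940584432571631805493281280783993987877493499336478098007133080410394322551540130041319165101199704486690937803049436048131100458004964547561760
      [V.of 10000 4000 6000 0, V.of 10000 (-130) 260 0, V.of 10000 4600 6000 0, V.of 10000
        (-985) 960 0] = true := by
    decide +kernel
  obtain ⟨f, hf, hp⟩ := chkT4 h (by norm_num) (x := x) (y := T) (z := s) (w := k)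
    (le_trans (by norm_num) a0) (le_trans b0 (by norm_num))
    (le_trans (by norm_num) a1) (le_trans b1 (by norm_num))
    (le_trans (by norm_num) a2) (le_trans b2 (by norm_num))
    (le_trans (by norm_num) a3) (le_trans b3 (by norm_num))
  simp only [List.mem_cons, List.not_mem_nil, or_false] at hf
  rcases hf with rfl | rfl | rfl | rfl | rfl
  · simp only [MR.e2_val, MR.en2_val, MR.eb2_val, NumUs.E.val, NumIs.E.val, NumIs.lkR] at hp
    push_cast at hp
    try simp only [div_one] at hp
    linarith only [hp]
  · simp only [MR.e2_val, MR.en2_val, MR.eb2_val, NumUs.E.val, NumIs.E.val, NumIs.lkR] at hp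
    push_cast at hp
    try simp only [div_one] at hp
    exfalso
    linarith only [c0, hp]
  · simp only [MR.e2_val, MR.en2_val, MR.eb2_val, NumUs.E.val, NumIs.E.val, NumIs.lkR] at hp
    push_cast at hp
    try simp only [div_one] at hp
    exfalso
    linarith only [c1, hp]
  · simp only [MR.e2_val, MR.en2_val, MR.eb2_val, NumUs.E.val, NumIs.E.val, NumIs.lkR] at hp
    push_cast at hp
    try simp only [div_one] at hp
    exfalso
    linarith only [c2, hp]
  · simp only [MR.e2_val, MR.en2_val, MR.eb2_val, NumUs.E.val, NumIs.E.val, NumIs.lkR] at hp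
    push_cast at hp
    try simp only [div_one] at hp
    exfalso
    linarith only [c3, hp]

end C23

end Pool.Agent.Work.MP_b30479_gtS.G2

end

section

/-!
# Right ramps of the hinges `2 | 3`, `3 | 2`, `2 | 3e`, `2e | 3`, `3 | 2e`: the sides of `2`, `2e`
-/

set_option linter.unusedVariables false

set_option deprecated.oldSectionVars true

namespace Pool.Agent.Work.MP_b30479_gtS.G2

open Finset VOL Filter Topology NumUs

namespace C23

/-- the other hinge of a digit `2` -/
structure P2 (x' t' : ℝ) : Prop where
  x0 : 7 / 100 ≤ x'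
  x1 : x' ≤ 60 / 100
  t0 : -(985 / 10000) ≤ t'
  t1 : t' ≤ 96 / 1000
  up : t' ≤ 768 / 1000 * x'
  dn : -t' ≤ 86 / 100 * x'
  r1 : t' ≤ 11 / 1000 + 320 / 1000 * (63 / 100 - x')
  r2 : -t' ≤ 340 / 1000 * (80 / 100 - x')

theorem glue {m T c bd : ℝ} {w v : ℂ} (P : P2 v.re v.im) (h0 : 30 / 100 ≤ w.re)
    (h1 : w.re ≤ 60 / 100) (hm : T ≤ 0 → 0 ≤ m) (hm' : 0 ≤ T → m ≤ 0)
    (hy : -(41 / 1000) ≤ w.im) (hy' : 94 / 100 ≤ w.re + v.re → w.im + v.im ≤ 14 / 100)
    (ha : v.re ≤ 125 / 1000 → ∀ k, -1075 / 10000 ≤ k → k ≤ 960 / 10000 →
      MR.s2 m w.re w.im v.re (8 * k * v.re) + c < bd)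
    (hb : 125 / 1000 ≤ v.re → w.re + v.re ≤ 94 / 100 → MR.s2 m w.re w.im v.re v.im + c < bd)
    (hcp : T ≤ 0 → 94 / 100 ≤ w.re + v.re → w.re + v.re ≤ 106 / 100 →
      MR.n2 0 1 m w.re w.im v.re v.im + c < bd)
    (hcn : 0 ≤ T → 94 / 100 ≤ w.re + v.re → w.re + v.re ≤ 106 / 100 →
      MR.n2 0 (-1) m w.re w.im v.re v.im + c < bd)
    (hdp : T ≤ 0 → 106 / 100 ≤ w.re + v.re → MR.b2 1 m w.re w.im v.re v.im + c < bd)
    (hdn : 0 ≤ T → 106 / 100 ≤ w.re + v.re → MR.b2 (-1) m w.re w.im v.re v.im + c < bd) :
    S2 1 m w v + c < bd := by
  obtain ⟨x0, x1, t0, t1, up, dn, r1, r2⟩ := P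
  rcases le_total (w.re + v.re) (94 / 100) with hu | hu
  · rw [MR.S2_eq]
    · rcases le_total v.re (125 / 1000) with h | h
      · obtain ⟨k, k1, k2, k3⟩ := C12.ex_k (a := 1 / 8) (lo := -(1075 / 10000))
          (hi := 960 / 10000) (t' := v.im) (by linarith only [x0] : 0 < v.re) (by linarith only [dn]) (by linarith only [up])
        have e : 8 * k * v.re = v.im := by linear_combination 8 * k3
        have := ha h k (by linarith only [k1]) k2
        rw [e] at this
        exact this
      · exact hb h hu
    · constructor <;> linarith only [h0, h1]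
    · constructor <;> rw [Complex.add_re] <;> linarith only [h0, x0, hu]
  · have hw0 : 0 < w.re := by linarith only [h0]
    have hw1 : w.re < 1 := by linarith only [h1, hw0]
    rcases le_total (w.re + v.re) (106 / 100) with hu' | hu'
    · have hL : LL (w + v) ≤ 0 := MR.LL_rect MR.kr_6_14 le_rfl (by norm_num)
        (by rw [Complex.add_re, abs_le]; constructor <;> linarith only [hu, hu'])
        (by rw [Complex.add_im, abs_le]; exact ⟨by linarith only [hy, t0, hw0, hw1], hy' hu⟩)
      have hY : |YY (w + v)| ≤ 1 * Real.pi := by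
        rw [one_mul]
        exact MR.YY_abs_pi (by rw [Complex.add_re]; linarith only [hu, hw0, hw1]) (by rw [Complex.add_re]; linarith only [h1, x1, hw1])
      rcases le_total T 0 with hT | hT
      · have := MR.S2_near (s := 1) (by rw [mul_one, abs_of_nonneg (hm hT)]) hw0 hw1 hL hY
        rw [mul_one] at this
        linarith only [this, hcp, hT, hu, hu', hcp hT hu hu']
      · have := MR.S2_near (s := -1) (by rw [abs_of_nonpos (hm' hT)]; ring) hw0 hw1 hL hY
        rw [mul_one] at this
        linarith only [this, hcn, hT, hu, hu', hcn hT hu hu']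
    · rcases le_total T 0 with hT | hT
      · have := MR.S2_beyond (v := v) (s := 1) (by rw [mul_one, abs_of_nonneg (hm hT)]) hw0 hw1
          (by linarith only [hw0, hw1, hu']) (by linarith only [x1, hw0, hw1])
        linarith only [this, hdp, hT, hu', hdp hT hu']
      · have := MR.S2_beyond (v := v) (s := -1) (by rw [abs_of_nonpos (hm' hT)]; ring) hw0 hw1
          (by linarith only [hw0, hw1, hu']) (by linarith only [x1, hw0, hw1])
        linarith only [this, hdn, hT, hu', hdn hT hu']

/-- `2 | 3` (slot `0` of the `3`) -/
theorem side27h {T : ℝ} {w v : ℂ} (T0 : -(5 / 1000) ≤ T) (T1 : T ≤ 57 / 1000) (h0 : 36 / 100 ≤ w.re)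
    (h1 : w.re ≤ 37 / 100) (him : w.im = T * ((60 / 100 - w.re) / (27 / 100)))
    (P : P2 v.re v.im) :
    S2 1 (-T / (27 / 100)) w v + Real.pi / 2 * (-T / (27 / 100)) < -13 / 100 := by
  have e1 : -T / (27 / 100) = -100 / 27 * T := by ring
  have e2 : w.im = T * (100 / 27 * (6 / 10 - w.re)) := by rw [him]; ring
  have b1 : 0 ≤ 100 / 27 * (6 / 10 - w.re) := by linarith only [h1]
  have b2 : 100 / 27 * (6 / 10 - w.re) ≤ 1 := by linarith only [h0]
  have b3 : -(41 / 1000) ≤ w.im := by rw [e2]; nlinarith only [T0, h0, h1]
  have b4 : w.im ≤ 57 / 1000 := by rw [e2]; nlinarith only [T1, h1, T0, h0]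
  rw [e1]
  obtain ⟨x0, x1, t0, t1, up, dn, r1, r2⟩ := P
  have key := glue (m := -100 / 27 * T) (T := T) (c := -100 / 27 * T * (1 / 2 * Real.pi)) (bd := -13 / 100) (w := w) (v := v)
    ⟨x0, x1, t0, t1, up, dn, r1, r2⟩ (by linarith only [h0]) (by linarith only [h1]) (fun h => by linarith only [h])
    (fun h => by linarith only [h]) b3 (fun h => by linarith only [h1, b4, t1, r1, h])
    (fun h k k1 k2 => by
      rw [e2]
      have := s27ha (x := w.re) (T := T) (s := v.re) (k := k) (by linarith only [h0]) (by linarith only [h1])
        (by linarith only [T0]) (by linarith only [T1]) (by linarith only [x0]) (by linarith only [h]) (by linarith only [k1]) (by linarith only [k2])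
      try simp only [zero_div] at this
      linarith only [this])
    (fun h h' => by
      rw [e2]
      have := s27hb (x := w.re) (T := T) (s := v.re) (k := v.im) (by linarith only [h0]) (by linarith only [h1])
        (by linarith only [T0]) (by linarith only [T1]) (by linarith only [h]) (by linarith only [h0, h']) (by linarith only [t0]) (by linarith only [t1])
        (by linarith only [h'])
      try simp only [zero_div] at this
      linarith only [this])
    (fun h h' h'' => by
      rw [e2]
      have := s27hcp (x := w.re) (T := T) (s := v.re) (k := v.im) (by linarith only [h0]) (by linarith only [h1])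
        (by linarith only [T0]) (by linarith only [T1]) (by linarith only [h1, h']) (by linarith only [x1]) (by linarith only [h1, r2, h']) (by linarith only [t1])
        (by linarith only [h1, x1]) (by linarith only [h']) (by linarith only [r1]) (by linarith only [r2]) (by linarith only [h])
      try simp only [zero_div] at this
      linarith only [this])
    (fun h h' h'' => by
      rw [e2]
      have := s27hcn (x := w.re) (T := T) (s := v.re) (k := v.im) (by linarith only [h0]) (by linarith only [h1])
        (by linarith only [h]) (by linarith only [T1]) (by linarith only [h1, h']) (by linarith only [x1]) (by linarith only [h1, r2, h']) (by linarith only [t1])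
        (by linarith only [h1, x1]) (by linarith only [h']) (by linarith only [r1]) (by linarith only [r2]) (by linarith only [h])
      try simp only [zero_div] at this
      linarith only [this])
    (fun h h' => by
      exfalso
      linarith only [h1, x1, h'])
    (fun h h' => by
      exfalso
      linarith only [h1, x1, h'])
  linarith only [key]

/-- `2 | 3` (slot `0` of the `3`) -/
theorem side25h {T : ℝ} {w v : ℂ} (T0 : -(5 / 1000) ≤ T) (T1 : T ≤ 57 / 1000) (h0 : 36 / 100 ≤ w.re)
    (h1 : w.re ≤ 37 / 100) (him : w.im = T * ((60 / 100 - w.re) / (25 / 100)))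
    (P : P2 v.re v.im) :
    S2 1 (-T / (25 / 100)) w v + Real.pi / 2 * (-T / (25 / 100)) < -13 / 100 := by
  have e1 : -T / (25 / 100) = -100 / 25 * T := by ring
  have e2 : w.im = T * (100 / 25 * (6 / 10 - w.re)) := by rw [him]; ring
  have b1 : 0 ≤ 100 / 25 * (6 / 10 - w.re) := by linarith only [h1]
  have b2 : 100 / 25 * (6 / 10 - w.re) ≤ 109 / 100 := by linarith only [h0]
  have b3 : -(41 / 1000) ≤ w.im := by rw [e2]; nlinarith only [T0, h0, h1]
  have b4 : w.im ≤ 62 / 1000 := by rw [e2]; nlinarith only [T1, h1, T0, h0]
  rw [e1]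
  obtain ⟨x0, x1, t0, t1, up, dn, r1, r2⟩ := P
  have key := glue (m := -100 / 25 * T) (T := T) (c := -100 / 25 * T * (1 / 2 * Real.pi)) (bd := -13 / 100) (w := w) (v := v)
    ⟨x0, x1, t0, t1, up, dn, r1, r2⟩ (by linarith only [h0]) (by linarith only [h1]) (fun h => by linarith only [h])
    (fun h => by linarith only [h]) b3 (fun h => by linarith only [h1, b4, t1, r1, h])
    (fun h k k1 k2 => by
      rw [e2]
      have := s25ha (x := w.re) (T := T) (s := v.re) (k := k) (by linarith only [h0]) (by linarith only [h1])
        (by linarith only [T0]) (by linarith only [T1]) (by linarith only [x0]) (by linarith only [h]) (by linarith only [k1]) (by linarith only [k2])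
      try simp only [zero_div] at this
      linarith only [this])
    (fun h h' => by
      rw [e2]
      have := s25hb (x := w.re) (T := T) (s := v.re) (k := v.im) (by linarith only [h0]) (by linarith only [h1])
        (by linarith only [T0]) (by linarith only [T1]) (by linarith only [h]) (by linarith only [h0, h']) (by linarith only [t0]) (by linarith only [t1])
        (by linarith only [h'])
      try simp only [zero_div] at this
      linarith only [this])
    (fun h h' h'' => by
      rw [e2]
      have := s25hcp (x := w.re) (T := T) (s := v.re) (k := v.im) (by linarith only [h0]) (by linarith only [h1])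
        (by linarith only [T0]) (by linarith only [T1]) (by linarith only [h1, h']) (by linarith only [x1]) (by linarith only [h1, r2, h']) (by linarith only [t1])
        (by linarith only [h1, x1]) (by linarith only [h']) (by linarith only [r1]) (by linarith only [r2]) (by linarith only [h])
      try simp only [zero_div] at this
      linarith only [this])
    (fun h h' h'' => by
      rw [e2]
      have := s25hcn (x := w.re) (T := T) (s := v.re) (k := v.im) (by linarith only [h0]) (by linarith only [h1])
        (by linarith only [h]) (by linarith only [T1]) (by linarith only [h1, h']) (by linarith only [x1]) (by linarith only [h1, r2, h']) (by linarith only [t1])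
        (by linarith only [h1, x1]) (by linarith only [h']) (by linarith only [r1]) (by linarith only [r2]) (by linarith only [h])
      try simp only [zero_div] at this
      linarith only [this])
    (fun h h' => by
      exfalso
      linarith only [h1, x1, h'])
    (fun h h' => by
      exfalso
      linarith only [h1, x1, h'])
  linarith only [key]

/-- `3 | 2` (slot `2` of the `3`) -/
theorem side30h {T : ℝ} {w v : ℂ} (T0 : -(5 / 1000) ≤ T) (T1 : T ≤ 57 / 1000) (h0 : 36 / 100 ≤ w.re)
    (h1 : w.re ≤ 37 / 100) (him : w.im = T * ((60 / 100 - w.re) / (30 / 100)))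
    (P : P2 v.re v.im) :
    S2 1 (-T / (30 / 100)) w v + Real.pi / 2 * (-T / (30 / 100)) < -13 / 100 := by
  have e1 : -T / (30 / 100) = -100 / 30 * T := by ring
  have e2 : w.im = T * (100 / 30 * (6 / 10 - w.re)) := by rw [him]; ring
  have b1 : 0 ≤ 100 / 30 * (6 / 10 - w.re) := by linarith only [h1]
  have b2 : 100 / 30 * (6 / 10 - w.re) ≤ 1 := by linarith only [h0]
  have b3 : -(41 / 1000) ≤ w.im := by rw [e2]; nlinarith only [T0, h0, h1]
  have b4 : w.im ≤ 57 / 1000 := by rw [e2]; nlinarith only [T1, h1, T0, h0]
  rw [e1]
  obtain ⟨x0, x1, t0, t1, up, dn, r1, r2⟩ := P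
  have key := glue (m := -100 / 30 * T) (T := T) (c := -100 / 30 * T * (1 / 2 * Real.pi)) (bd := -13 / 100) (w := w) (v := v)
    ⟨x0, x1, t0, t1, up, dn, r1, r2⟩ (by linarith only [h0]) (by linarith only [h1]) (fun h => by linarith only [h])
    (fun h => by linarith only [h]) b3 (fun h => by linarith only [h1, b4, t1, r1, h])
    (fun h k k1 k2 => by
      rw [e2]
      have := z30ha (x := w.re) (T := T) (s := v.re) (k := k) (by linarith only [h0]) (by linarith only [h1])
        (by linarith only [T0]) (by linarith only [T1]) (by linarith only [x0]) (by linarith only [h]) (by linarith only [k1]) (by linarith only [k2])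
      try simp only [zero_div] at this
      linarith only [this])
    (fun h h' => by
      rw [e2]
      have := z30hb (x := w.re) (T := T) (s := v.re) (k := v.im) (by linarith only [h0]) (by linarith only [h1])
        (by linarith only [T0]) (by linarith only [T1]) (by linarith only [h]) (by linarith only [h0, h']) (by linarith only [t0]) (by linarith only [t1])
        (by linarith only [h'])
      try simp only [zero_div] at this
      linarith only [this])
    (fun h h' h'' => by
      rw [e2]
      have := z30hcp (x := w.re) (T := T) (s := v.re) (k := v.im) (by linarith only [h0]) (by linarith only [h1])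
        (by linarith only [T0]) (by linarith only [T1]) (by linarith only [h1, h']) (by linarith only [x1]) (by linarith only [h1, r2, h']) (by linarith only [t1])
        (by linarith only [h1, x1]) (by linarith only [h']) (by linarith only [r1]) (by linarith only [r2]) (by linarith only [h])
      try simp only [zero_div] at this
      linarith only [this])
    (fun h h' h'' => by
      rw [e2]
      have := z30hcn (x := w.re) (T := T) (s := v.re) (k := v.im) (by linarith only [h0]) (by linarith only [h1])
        (by linarith only [h]) (by linarith only [T1]) (by linarith only [h1, h']) (by linarith only [x1]) (by linarith only [h1, r2, h']) (by linarith only [t1])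
        (by linarith only [h1, x1]) (by linarith only [h']) (by linarith only [r1]) (by linarith only [r2]) (by linarith only [h])
      try simp only [zero_div] at this
      linarith only [this])
    (fun h h' => by
      exfalso
      linarith only [h1, x1, h'])
    (fun h h' => by
      exfalso
      linarith only [h1, x1, h'])
  linarith only [key]

/-- `2 | 3` (slot `0` of the `3`), lower part -/
theorem side27i {T : ℝ} {w v : ℂ} (T0 : -(5 / 1000) ≤ T) (T1 : T ≤ 57 / 1000) (h0 : 33 / 100 ≤ w.re)
    (h1 : w.re ≤ 36 / 100) (him : w.im = T * ((60 / 100 - w.re) / (27 / 100)))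
    (P : P2 v.re v.im) :
    S2 1 (-T / (27 / 100)) w v + Real.pi / 2 * (-T / (27 / 100)) < -20 / 1000 - 3 * (w.re - 330 / 1000) := by
  have e1 : -T / (27 / 100) = -100 / 27 * T := by ring
  have e2 : w.im = T * (100 / 27 * (6 / 10 - w.re)) := by rw [him]; ring
  have b1 : 0 ≤ 100 / 27 * (6 / 10 - w.re) := by linarith only [h1]
  have b2 : 100 / 27 * (6 / 10 - w.re) ≤ 1 := by linarith only [h0]
  have b3 : -(41 / 1000) ≤ w.im := by rw [e2]; nlinarith only [T0, h0, h1]
  have b4 : w.im ≤ 57 / 1000 := by rw [e2]; nlinarith only [T1, T0, h0, h1]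
  rw [e1]
  obtain ⟨x0, x1, t0, t1, up, dn, r1, r2⟩ := P
  have key := glue (m := -100 / 27 * T) (T := T) (c := -100 / 27 * T * (1 / 2 * Real.pi)) (bd := -20 / 1000 - 3 * (w.re - 330 / 1000)) (w := w) (v := v)
    ⟨x0, x1, t0, t1, up, dn, r1, r2⟩ (by linarith only [h0]) (by linarith only [h1]) (fun h => by linarith only [h])
    (fun h => by linarith only [h]) b3 (fun h => by linarith only [h1, b4, t1, r1, h])
    (fun h k k1 k2 => by
      rw [e2]
      have := s27ia (x := w.re) (T := T) (s := v.re) (k := k) (by linarith only [h0]) (by linarith only [h1])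
        (by linarith only [T0]) (by linarith only [T1]) (by linarith only [x0]) (by linarith only [h]) (by linarith only [k1]) (by linarith only [k2])
      try simp only [zero_div] at this
      linarith only [this])
    (fun h h' => by
      rw [e2]
      have := s27ib (x := w.re) (T := T) (s := v.re) (k := v.im) (by linarith only [h0]) (by linarith only [h1])
        (by linarith only [T0]) (by linarith only [T1]) (by linarith only [h]) (by linarith only [x1]) (by linarith only [t0]) (by linarith only [t1])
        (by linarith only [h'])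
      try simp only [zero_div] at this
      linarith only [this])
    (fun h h' h'' => by
      rw [e2]
      have := s27icp (x := w.re) (T := T) (s := v.re) (k := v.im) (by linarith only [h0]) (by linarith only [h1])
        (by linarith only [T0]) (by linarith only [T1]) (by linarith only [h1, h']) (by linarith only [x1]) (by linarith only [h1, r2, h']) (by linarith only [t1])
        (by linarith only [h1, x1]) (by linarith only [h']) (by linarith only [r1]) (by linarith only [r2]) (by linarith only [h])
      try simp only [zero_div] at this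
      linarith only [this])
    (fun h h' h'' => by
      rw [e2]
      have := s27icn (x := w.re) (T := T) (s := v.re) (k := v.im) (by linarith only [h0]) (by linarith only [h1])
        (by linarith only [h]) (by linarith only [T1]) (by linarith only [h1, h']) (by linarith only [x1]) (by linarith only [h1, r2, h']) (by linarith only [t1])
        (by linarith only [h1, x1]) (by linarith only [h']) (by linarith only [r1]) (by linarith only [r2]) (by linarith only [h])
      try simp only [zero_div] at this
      linarith only [this])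
    (fun h h' => by
      exfalso
      linarith only [h1, x1, h'])
    (fun h h' => by
      exfalso
      linarith only [h1, x1, h'])
  linarith only [key]

/-- `2 | 3` (slot `0` of the `3`), upper part -/
theorem side27j {T : ℝ} {w v : ℂ} (T0 : -(5 / 1000) ≤ T) (T1 : T ≤ 57 / 1000) (h0 : 37 / 100 ≤ w.re)
    (h1 : w.re ≤ 50 / 100) (him : w.im = T * ((60 / 100 - w.re) / (27 / 100)))
    (P : P2 v.re v.im) :
    S2 1 (-T / (27 / 100)) w v + Real.pi / 2 * (-T / (27 / 100)) < -14 / 100 := by
  have e1 : -T / (27 / 100) = -100 / 27 * T := by ring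
  have e2 : w.im = T * (100 / 27 * (6 / 10 - w.re)) := by rw [him]; ring
  have b1 : 0 ≤ 100 / 27 * (6 / 10 - w.re) := by linarith only [h1]
  have b2 : 100 / 27 * (6 / 10 - w.re) ≤ 1 := by linarith only [h0]
  have b3 : -(41 / 1000) ≤ w.im := by rw [e2]; nlinarith only [T0, h0, h1]
  have b4 : w.im ≤ 57 / 1000 := by rw [e2]; nlinarith only [T1, h1, T0, h0]
  rw [e1]
  obtain ⟨x0, x1, t0, t1, up, dn, r1, r2⟩ := P
  have key := glue (m := -100 / 27 * T) (T := T) (c := -100 / 27 * T * (1 / 2 * Real.pi)) (bd := -14 / 100) (w := w) (v := v)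
    ⟨x0, x1, t0, t1, up, dn, r1, r2⟩ (by linarith only [h0]) (by linarith only [h1]) (fun h => by linarith only [h])
    (fun h => by linarith only [h]) b3 (fun h => by linarith only [h1, b4, t1, r1, h])
    (fun h k k1 k2 => by
      rw [e2]
      have := s27ja (x := w.re) (T := T) (s := v.re) (k := k) (by linarith only [h0]) (by linarith only [h1])
        (by linarith only [T0]) (by linarith only [T1]) (by linarith only [x0]) (by linarith only [h]) (by linarith only [k1]) (by linarith only [k2])
      try simp only [zero_div] at this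
      linarith only [this])
    (fun h h' => by
      rw [e2]
      have := s27jb (x := w.re) (T := T) (s := v.re) (k := v.im) (by linarith only [h0]) (by linarith only [h1])
        (by linarith only [T0]) (by linarith only [T1]) (by linarith only [h]) (by linarith only [h0, h']) (by linarith only [t0]) (by linarith only [t1])
        (by linarith only [h'])
      try simp only [zero_div] at this
      linarith only [this])
    (fun h h' h'' => by
      rw [e2]
      have := s27jcp (x := w.re) (T := T) (s := v.re) (k := v.im) (by linarith only [h0]) (by linarith only [h1])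
        (by linarith only [T0]) (by linarith only [T1]) (by linarith only [h1, h']) (by linarith only [x1]) (by linarith only [t0]) (by linarith only [t1])
        (by linarith only [h'']) (by linarith only [h']) (by linarith only [r1]) (by linarith only [r2]) (by linarith only [h])
      try simp only [zero_div] at this
      linarith only [this])
    (fun h h' h'' => by
      rw [e2]
      have := s27jcn (x := w.re) (T := T) (s := v.re) (k := v.im) (by linarith only [h0]) (by linarith only [h1])
        (by linarith only [h]) (by linarith only [T1]) (by linarith only [h1, h']) (by linarith only [x1]) (by linarith only [t0]) (by linarith only [t1])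
        (by linarith only [h'']) (by linarith only [h']) (by linarith only [r1]) (by linarith only [r2]) (by linarith only [h])
      try simp only [zero_div] at this
      linarith only [this])
    (fun h h' => by
      rw [e2]
      have := s27jdp (x := w.re) (T := T) (s := v.re) (k := v.im) (by linarith only [h0]) (by linarith only [h1])
        (by linarith only [T0]) (by linarith only [T1]) (by linarith only [h1, h']) (by linarith only [x1]) (by linarith only [h1, r2, h']) (by linarith only [t1])
        (by linarith only [h']) (by linarith only [r1]) (by linarith only [r2]) (by linarith only [h])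
      try simp only [zero_div] at this
      linarith only [this])
    (fun h h' => by
      rw [e2]
      have := s27jdn (x := w.re) (T := T) (s := v.re) (k := v.im) (by linarith only [h0]) (by linarith only [h1])
        (by linarith only [h]) (by linarith only [T1]) (by linarith only [h1, h']) (by linarith only [x1]) (by linarith only [h1, r2, h']) (by linarith only [t1])
        (by linarith only [h']) (by linarith only [r1]) (by linarith only [r2]) (by linarith only [h])
      try simp only [zero_div] at this
      linarith only [this])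
  linarith only [key]

/-- `2 | 3` (slot `0` of the `3`), `cr = 25/100` -/
theorem side25i {T : ℝ} {w v : ℂ} (T0 : -(5 / 1000) ≤ T) (T1 : T ≤ 57 / 1000) (h0 : 33 / 100 ≤ w.re)
    (h1 : w.re ≤ 36 / 100) (him : w.im = T * ((60 / 100 - w.re) / (25 / 100)))
    (P : P2 v.re v.im) :
    S2 1 (-T / (25 / 100)) w v + Real.pi / 2 * (-T / (25 / 100)) < -20 / 1000 - 3 * (w.re - 330 / 1000) := by
  have e1 : -T / (25 / 100) = -100 / 25 * T := by ring
  have e2 : w.im = T * (100 / 25 * (6 / 10 - w.re)) := by rw [him]; ring
  have b1 : 0 ≤ 100 / 25 * (6 / 10 - w.re) := by linarith only [h1]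
  have b2 : 100 / 25 * (6 / 10 - w.re) ≤ 109 / 100 := by linarith only [h0]
  have b3 : -(41 / 1000) ≤ w.im := by rw [e2]; nlinarith only [T0, h0, h1]
  have b4 : w.im ≤ 62 / 1000 := by rw [e2]; nlinarith only [T1, h1, T0, h0]
  rw [e1]
  obtain ⟨x0, x1, t0, t1, up, dn, r1, r2⟩ := P
  have key := glue (m := -100 / 25 * T) (T := T) (c := -100 / 25 * T * (1 / 2 * Real.pi)) (bd := -20 / 1000 - 3 * (w.re - 330 / 1000)) (w := w) (v := v)
    ⟨x0, x1, t0, t1, up, dn, r1, r2⟩ (by linarith only [h0]) (by linarith only [h1]) (fun h => by linarith only [h])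
    (fun h => by linarith only [h]) b3 (fun h => by linarith only [h1, b4, t1, r1, h])
    (fun h k k1 k2 => by
      rw [e2]
      have := s25ia (x := w.re) (T := T) (s := v.re) (k := k) (by linarith only [h0]) (by linarith only [h1])
        (by linarith only [T0]) (by linarith only [T1]) (by linarith only [x0]) (by linarith only [h]) (by linarith only [k1]) (by linarith only [k2])
      try simp only [zero_div] at this
      linarith only [this])
    (fun h h' => by
      rw [e2]
      have := s25ib (x := w.re) (T := T) (s := v.re) (k := v.im) (by linarith only [h0]) (by linarith only [h1])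
        (by linarith only [T0]) (by linarith only [T1]) (by linarith only [h]) (by linarith only [x1]) (by linarith only [t0]) (by linarith only [t1])
        (by linarith only [h'])
      try simp only [zero_div] at this
      linarith only [this])
    (fun h h' h'' => by
      rw [e2]
      have := s25icp (x := w.re) (T := T) (s := v.re) (k := v.im) (by linarith only [h0]) (by linarith only [h1])
        (by linarith only [T0]) (by linarith only [T1]) (by linarith only [h1, h']) (by linarith only [x1]) (by linarith only [h1, r2, h']) (by linarith only [t1])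
        (by linarith only [h1, x1]) (by linarith only [h']) (by linarith only [r1]) (by linarith only [r2]) (by linarith only [h])
      try simp only [zero_div] at this
      linarith only [this])
    (fun h h' h'' => by
      rw [e2]
      have := s25icn (x := w.re) (T := T) (s := v.re) (k := v.im) (by linarith only [h0]) (by linarith only [h1])
        (by linarith only [h]) (by linarith only [T1]) (by linarith only [h1, h']) (by linarith only [x1]) (by linarith only [h1, r2, h']) (by linarith only [t1])
        (by linarith only [h1, x1]) (by linarith only [h']) (by linarith only [r1]) (by linarith only [r2]) (by linarith only [h])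
      try simp only [zero_div] at this
      linarith only [this])
    (fun h h' => by
      exfalso
      linarith only [h1, x1, h'])
    (fun h h' => by
      exfalso
      linarith only [h1, x1, h'])
  linarith only [key]

/-- `2 | 3` (slot `0` of the `3`), `cr = 25/100` -/
theorem side25j {T : ℝ} {w v : ℂ} (T0 : -(5 / 1000) ≤ T) (T1 : T ≤ 57 / 1000) (h0 : 37 / 100 ≤ w.re)
    (h1 : w.re ≤ 50 / 100) (him : w.im = T * ((60 / 100 - w.re) / (25 / 100)))
    (P : P2 v.re v.im) :
    S2 1 (-T / (25 / 100)) w v + Real.pi / 2 * (-T / (25 / 100)) < -14 / 100 := by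
  have e1 : -T / (25 / 100) = -100 / 25 * T := by ring
  have e2 : w.im = T * (100 / 25 * (6 / 10 - w.re)) := by rw [him]; ring
  have b1 : 0 ≤ 100 / 25 * (6 / 10 - w.re) := by linarith only [h1]
  have b2 : 100 / 25 * (6 / 10 - w.re) ≤ 109 / 100 := by linarith only [h0]
  have b3 : -(41 / 1000) ≤ w.im := by rw [e2]; nlinarith only [T0, h0, h1]
  have b4 : w.im ≤ 62 / 1000 := by rw [e2]; nlinarith only [T1, h1, T0, h0]
  rw [e1]
  obtain ⟨x0, x1, t0, t1, up, dn, r1, r2⟩ := P
  have key := glue (m := -100 / 25 * T) (T := T) (c := -100 / 25 * T * (1 / 2 * Real.pi)) (bd := -14 / 100) (w := w) (v := v)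
    ⟨x0, x1, t0, t1, up, dn, r1, r2⟩ (by linarith only [h0]) (by linarith only [h1]) (fun h => by linarith only [h])
    (fun h => by linarith only [h]) b3 (fun h => by linarith only [h1, b4, t1, r1, h])
    (fun h k k1 k2 => by
      rw [e2]
      have := s25ja (x := w.re) (T := T) (s := v.re) (k := k) (by linarith only [h0]) (by linarith only [h1])
        (by linarith only [T0]) (by linarith only [T1]) (by linarith only [x0]) (by linarith only [h]) (by linarith only [k1]) (by linarith only [k2])
      try simp only [zero_div] at this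
      linarith only [this])
    (fun h h' => by
      rw [e2]
      have := s25jb (x := w.re) (T := T) (s := v.re) (k := v.im) (by linarith only [h0]) (by linarith only [h1])
        (by linarith only [T0]) (by linarith only [T1]) (by linarith only [h]) (by linarith only [h0, h']) (by linarith only [t0]) (by linarith only [t1])
        (by linarith only [h'])
      try simp only [zero_div] at this
      linarith only [this])
    (fun h h' h'' => by
      rw [e2]
      have := s25jcp (x := w.re) (T := T) (s := v.re) (k := v.im) (by linarith only [h0]) (by linarith only [h1])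
        (by linarith only [T0]) (by linarith only [T1]) (by linarith only [h1, h']) (by linarith only [x1]) (by linarith only [t0]) (by linarith only [t1])
        (by linarith only [h'']) (by linarith only [h']) (by linarith only [r1]) (by linarith only [r2]) (by linarith only [h])
      try simp only [zero_div] at this
      linarith only [this])
    (fun h h' h'' => by
      rw [e2]
      have := s25jcn (x := w.re) (T := T) (s := v.re) (k := v.im) (by linarith only [h0]) (by linarith only [h1])
        (by linarith only [h]) (by linarith only [T1]) (by linarith only [h1, h']) (by linarith only [x1]) (by linarith only [t0]) (by linarith only [t1])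
        (by linarith only [h'']) (by linarith only [h']) (by linarith only [r1]) (by linarith only [r2]) (by linarith only [h])
      try simp only [zero_div] at this
      linarith only [this])
    (fun h h' => by
      rw [e2]
      have := s25jdp (x := w.re) (T := T) (s := v.re) (k := v.im) (by linarith only [h0]) (by linarith only [h1])
        (by linarith only [T0]) (by linarith only [T1]) (by linarith only [h1, h']) (by linarith only [x1]) (by linarith only [h1, r2, h']) (by linarith only [t1])
        (by linarith only [h']) (by linarith only [r1]) (by linarith only [r2]) (by linarith only [h])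
      try simp only [zero_div] at this
      linarith only [this])
    (fun h h' => by
      rw [e2]
      have := s25jdn (x := w.re) (T := T) (s := v.re) (k := v.im) (by linarith only [h0]) (by linarith only [h1])
        (by linarith only [h]) (by linarith only [T1]) (by linarith only [h1, h']) (by linarith only [x1]) (by linarith only [h1, r2, h']) (by linarith only [t1])
        (by linarith only [h']) (by linarith only [r1]) (by linarith only [r2]) (by linarith only [h])
      try simp only [zero_div] at this
      linarith only [this])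
  linarith only [key]

/-- `3 | 2` (slot `2` of the `3`) -/
theorem side30i {T : ℝ} {w v : ℂ} (T0 : -(5 / 1000) ≤ T) (T1 : T ≤ 57 / 1000) (h0 : 30 / 100 ≤ w.re)
    (h1 : w.re ≤ 33 / 100) (him : w.im = T * ((60 / 100 - w.re) / (30 / 100)))
    (P : P2 v.re v.im) :
    S2 1 (-T / (30 / 100)) w v + Real.pi / 2 * (-T / (30 / 100)) < 120 / 1000 - 4 * (w.re - 300 / 1000) := by
  have e1 : -T / (30 / 100) = -100 / 30 * T := by ring
  have e2 : w.im = T * (100 / 30 * (6 / 10 - w.re)) := by rw [him]; ring
  have b1 : 0 ≤ 100 / 30 * (6 / 10 - w.re) := by linarith only [h1]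
  have b2 : 100 / 30 * (6 / 10 - w.re) ≤ 1 := by linarith only [h0]
  have b3 : -(41 / 1000) ≤ w.im := by rw [e2]; nlinarith only [T0, h0, h1]
  have b4 : w.im ≤ 57 / 1000 := by rw [e2]; nlinarith only [T1, T0, h0, h1]
  rw [e1]
  obtain ⟨x0, x1, t0, t1, up, dn, r1, r2⟩ := P
  have key := glue (m := -100 / 30 * T) (T := T) (c := -100 / 30 * T * (1 / 2 * Real.pi)) (bd := 120 / 1000 - 4 * (w.re - 300 / 1000)) (w := w) (v := v)
    ⟨x0, x1, t0, t1, up, dn, r1, r2⟩ (by linarith only [h0]) (by linarith only [h1]) (fun h => by linarith only [h])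
    (fun h => by linarith only [h]) b3 (fun h => by linarith only [h1, x1, h])
    (fun h k k1 k2 => by
      rw [e2]
      have := z30ia (x := w.re) (T := T) (s := v.re) (k := k) (by linarith only [h0]) (by linarith only [h1])
        (by linarith only [T0]) (by linarith only [T1]) (by linarith only [x0]) (by linarith only [h]) (by linarith only [k1]) (by linarith only [k2])
      try simp only [zero_div] at this
      linarith only [this])
    (fun h h' => by
      rw [e2]
      have := z30ib (x := w.re) (T := T) (s := v.re) (k := v.im) (by linarith only [h0]) (by linarith only [h1])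
        (by linarith only [T0]) (by linarith only [T1]) (by linarith only [h]) (by linarith only [x1]) (by linarith only [t0]) (by linarith only [t1])
        (by linarith only [h1, x1])
      try simp only [zero_div] at this
      linarith only [this])
    (fun h h' h'' => by
      exfalso
      linarith only [h1, x1, h'])
    (fun h h' h'' => by
      exfalso
      linarith only [h1, x1, h'])
    (fun h h' => by
      exfalso
      linarith only [h1, x1, h'])
    (fun h h' => by
      exfalso
      linarith only [h1, x1, h'])
  linarith only [key]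

/-- `3 | 2` (slot `2` of the `3`) -/
theorem side30j {T : ℝ} {w v : ℂ} (T0 : -(5 / 1000) ≤ T) (T1 : T ≤ 57 / 1000) (h0 : 33 / 100 ≤ w.re)
    (h1 : w.re ≤ 36 / 100) (him : w.im = T * ((60 / 100 - w.re) / (30 / 100)))
    (P : P2 v.re v.im) :
    S2 1 (-T / (30 / 100)) w v + Real.pi / 2 * (-T / (30 / 100)) < -20 / 1000 - 3 * (w.re - 330 / 1000) := by
  have e1 : -T / (30 / 100) = -100 / 30 * T := by ring
  have e2 : w.im = T * (100 / 30 * (6 / 10 - w.re)) := by rw [him]; ring
  have b1 : 0 ≤ 100 / 30 * (6 / 10 - w.re) := by linarith only [h1]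
  have b2 : 100 / 30 * (6 / 10 - w.re) ≤ 1 := by linarith only [h0]
  have b3 : -(41 / 1000) ≤ w.im := by rw [e2]; nlinarith only [T0, h0, h1]
  have b4 : w.im ≤ 57 / 1000 := by rw [e2]; nlinarith only [T1, h1, T0, h0]
  rw [e1]
  obtain ⟨x0, x1, t0, t1, up, dn, r1, r2⟩ := P
  have key := glue (m := -100 / 30 * T) (T := T) (c := -100 / 30 * T * (1 / 2 * Real.pi)) (bd := -20 / 1000 - 3 * (w.re - 330 / 1000)) (w := w) (v := v)
    ⟨x0, x1, t0, t1, up, dn, r1, r2⟩ (by linarith only [h0]) (by linarith only [h1]) (fun h => by linarith only [h])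
    (fun h => by linarith only [h]) b3 (fun h => by linarith only [h1, b4, t1, r1, h])
    (fun h k k1 k2 => by
      rw [e2]
      have := z30ja (x := w.re) (T := T) (s := v.re) (k := k) (by linarith only [h0]) (by linarith only [h1])
        (by linarith only [T0]) (by linarith only [T1]) (by linarith only [x0]) (by linarith only [h]) (by linarith only [k1]) (by linarith only [k2])
      try simp only [zero_div] at this
      linarith only [this])
    (fun h h' => by
      rw [e2]
      have := z30jb (x := w.re) (T := T) (s := v.re) (k := v.im) (by linarith only [h0]) (by linarith only [h1])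
        (by linarith only [T0]) (by linarith only [T1]) (by linarith only [h]) (by linarith only [x1]) (by linarith only [t0]) (by linarith only [t1])
        (by linarith only [h'])
      try simp only [zero_div] at this
      linarith only [this])
    (fun h h' h'' => by
      rw [e2]
      have := z30jcp (x := w.re) (T := T) (s := v.re) (k := v.im) (by linarith only [h0]) (by linarith only [h1])
        (by linarith only [T0]) (by linarith only [T1]) (by linarith only [h1, h']) (by linarith only [x1]) (by linarith only [h1, r2, h']) (by linarith only [t1])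
        (by linarith only [h1, x1]) (by linarith only [h']) (by linarith only [r1]) (by linarith only [r2]) (by linarith only [h])
      try simp only [zero_div] at this
      linarith only [this])
    (fun h h' h'' => by
      rw [e2]
      have := z30jcn (x := w.re) (T := T) (s := v.re) (k := v.im) (by linarith only [h0]) (by linarith only [h1])
        (by linarith only [h]) (by linarith only [T1]) (by linarith only [h1, h']) (by linarith only [x1]) (by linarith only [h1, r2, h']) (by linarith only [t1])
        (by linarith only [h1, x1]) (by linarith only [h']) (by linarith only [r1]) (by linarith only [r2]) (by linarith only [h])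
      try simp only [zero_div] at this
      linarith only [this])
    (fun h h' => by
      exfalso
      linarith only [h1, x1, h'])
    (fun h h' => by
      exfalso
      linarith only [h1, x1, h'])
  linarith only [key]

/-- `3 | 2` (slot `2` of the `3`) -/
theorem side30k {T : ℝ} {w v : ℂ} (T0 : -(5 / 1000) ≤ T) (T1 : T ≤ 57 / 1000) (h0 : 37 / 100 ≤ w.re)
    (h1 : w.re ≤ 54 / 100) (him : w.im = T * ((60 / 100 - w.re) / (30 / 100)))
    (P : P2 v.re v.im) :
    S2 1 (-T / (30 / 100)) w v + Real.pi / 2 * (-T / (30 / 100)) < -14 / 100 := by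
  have e1 : -T / (30 / 100) = -100 / 30 * T := by ring
  have e2 : w.im = T * (100 / 30 * (6 / 10 - w.re)) := by rw [him]; ring
  have b1 : 0 ≤ 100 / 30 * (6 / 10 - w.re) := by linarith only [h1]
  have b2 : 100 / 30 * (6 / 10 - w.re) ≤ 77 / 100 := by linarith only [h0]
  have b3 : -(41 / 1000) ≤ w.im := by rw [e2]; nlinarith only [T0, h0, h1]
  have b4 : w.im ≤ 44 / 1000 := by rw [e2]; nlinarith only [T1, T0, h0, h1]
  rw [e1]
  obtain ⟨x0, x1, t0, t1, up, dn, r1, r2⟩ := P
  have key := glue (m := -100 / 30 * T) (T := T) (c := -100 / 30 * T * (1 / 2 * Real.pi)) (bd := -14 / 100) (w := w) (v := v)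
    ⟨x0, x1, t0, t1, up, dn, r1, r2⟩ (by linarith only [h0]) (by linarith only [h1]) (fun h => by linarith only [h])
    (fun h => by linarith only [h]) b3 (fun h => by linarith only [b4, t1])
    (fun h k k1 k2 => by
      rw [e2]
      have := z30ka (x := w.re) (T := T) (s := v.re) (k := k) (by linarith only [h0]) (by linarith only [h1])
        (by linarith only [T0]) (by linarith only [T1]) (by linarith only [x0]) (by linarith only [h]) (by linarith only [k1]) (by linarith only [k2])
      try simp only [zero_div] at this
      linarith only [this])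
    (fun h h' => by
      rw [e2]
      have := z30kb (x := w.re) (T := T) (s := v.re) (k := v.im) (by linarith only [h0]) (by linarith only [h1])
        (by linarith only [T0]) (by linarith only [T1]) (by linarith only [h]) (by linarith only [h0, h']) (by linarith only [t0]) (by linarith only [t1])
        (by linarith only [h'])
      try simp only [zero_div] at this
      linarith only [this])
    (fun h h' h'' => by
      rw [e2]
      have := z30kcp (x := w.re) (T := T) (s := v.re) (k := v.im) (by linarith only [h0]) (by linarith only [h1])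
        (by linarith only [T0]) (by linarith only [T1]) (by linarith only [h1, h']) (by linarith only [x1]) (by linarith only [t0]) (by linarith only [t1])
        (by linarith only [h'']) (by linarith only [h']) (by linarith only [r1]) (by linarith only [r2]) (by linarith only [h])
      try simp only [zero_div] at this
      linarith only [this])
    (fun h h' h'' => by
      rw [e2]
      have := z30kcn (x := w.re) (T := T) (s := v.re) (k := v.im) (by linarith only [h0]) (by linarith only [h1])
        (by linarith only [h]) (by linarith only [T1]) (by linarith only [h1, h']) (by linarith only [x1]) (by linarith only [t0]) (by linarith only [t1])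
        (by linarith only [h'']) (by linarith only [h']) (by linarith only [r1]) (by linarith only [r2]) (by linarith only [h])
      try simp only [zero_div] at this
      linarith only [this])
    (fun h h' => by
      rw [e2]
      have := z30kdp (x := w.re) (T := T) (s := v.re) (k := v.im) (by linarith only [h0]) (by linarith only [h1])
        (by linarith only [T0]) (by linarith only [T1]) (by linarith only [h1, h']) (by linarith only [x1]) (by linarith only [h1, r2, h']) (by linarith only [t1])
        (by linarith only [h']) (by linarith only [r1]) (by linarith only [r2]) (by linarith only [h])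
      try simp only [zero_div] at this
      linarith only [this])
    (fun h h' => by
      rw [e2]
      have := z30kdn (x := w.re) (T := T) (s := v.re) (k := v.im) (by linarith only [h0]) (by linarith only [h1])
        (by linarith only [h]) (by linarith only [T1]) (by linarith only [h1, h']) (by linarith only [x1]) (by linarith only [h1, r2, h']) (by linarith only [t1])
        (by linarith only [h']) (by linarith only [r1]) (by linarith only [r2]) (by linarith only [h])
      try simp only [zero_div] at this
      linarith only [this])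
  linarith only [key]

/-- `2 | 3e`, lower part -/
theorem sideEi {T : ℝ} {w v : ℂ} (T0 : -(13 / 1000) ≤ T) (T1 : T ≤ 26 / 1000) (h0 : 30 / 100 ≤ w.re)
    (h1 : w.re ≤ 40 / 100) (him : w.im = T * ((60 / 100 - w.re) / (30 / 100)))
    (P : P2 v.re v.im) :
    S2 1 (-T / (30 / 100)) w v < 25 / 100 := by
  have e1 : -T / (30 / 100) = -100 / 30 * T := by ring
  have e2 : w.im = T * (100 / 30 * (6 / 10 - w.re)) := by rw [him]; ring
  have b1 : 0 ≤ 100 / 30 * (6 / 10 - w.re) := by linarith only [h1]
  have b2 : 100 / 30 * (6 / 10 - w.re) ≤ 1 := by linarith only [h0]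
  have b3 : -(41 / 1000) ≤ w.im := by rw [e2]; nlinarith only [T0, h0, h1]
  have b4 : w.im ≤ 26 / 1000 := by rw [e2]; nlinarith only [T1, T0, h0, h1]
  rw [e1]
  obtain ⟨x0, x1, t0, t1, up, dn, r1, r2⟩ := P
  have key := glue (m := -100 / 30 * T) (T := T) (c := 0) (bd := 25 / 100) (w := w) (v := v)
    ⟨x0, x1, t0, t1, up, dn, r1, r2⟩ (by linarith only [h0]) (by linarith only [h1]) (fun h => by linarith only [h])
    (fun h => by linarith only [h]) b3 (fun h => by linarith only [b4, t1])
    (fun h k k1 k2 => by
      rw [e2]
      have := e30ia (x := w.re) (T := T) (s := v.re) (k := k) (by linarith only [h0]) (by linarith only [h1])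
        (by linarith only [T0]) (by linarith only [T1]) (by linarith only [x0]) (by linarith only [h]) (by linarith only [k1]) (by linarith only [k2])
      try simp only [zero_div] at this
      linarith only [this])
    (fun h h' => by
      rw [e2]
      have := e30ib (x := w.re) (T := T) (s := v.re) (k := v.im) (by linarith only [h0]) (by linarith only [h1])
        (by linarith only [T0]) (by linarith only [T1]) (by linarith only [h]) (by linarith only [x1]) (by linarith only [t0]) (by linarith only [t1])
        (by linarith only [h'])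
      try simp only [zero_div] at this
      linarith only [this])
    (fun h h' h'' => by
      rw [e2]
      have := e30icp (x := w.re) (T := T) (s := v.re) (k := v.im) (by linarith only [h0]) (by linarith only [h1])
        (by linarith only [T0]) (by linarith only [T1]) (by linarith only [h1, h']) (by linarith only [x1]) (by linarith only [h1, r2, h']) (by linarith only [t1])
        (by linarith only [h1, x1]) (by linarith only [h']) (by linarith only [r1]) (by linarith only [r2]) (by linarith only [h])
      try simp only [zero_div] at this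
      linarith only [this])
    (fun h h' h'' => by
      rw [e2]
      have := e30icn (x := w.re) (T := T) (s := v.re) (k := v.im) (by linarith only [h0]) (by linarith only [h1])
        (by linarith only [h]) (by linarith only [T1]) (by linarith only [h1, h']) (by linarith only [x1]) (by linarith only [h1, r2, h']) (by linarith only [t1])
        (by linarith only [h1, x1]) (by linarith only [h']) (by linarith only [r1]) (by linarith only [r2]) (by linarith only [h])
      try simp only [zero_div] at this
      linarith only [this])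
    (fun h h' => by
      exfalso
      linarith only [h1, x1, h'])
    (fun h h' => by
      exfalso
      linarith only [h1, x1, h'])
  linarith only [key]

/-- `2 | 3e`, upper part -/
theorem sideEj {T : ℝ} {w v : ℂ} (T0 : -(13 / 1000) ≤ T) (T1 : T ≤ 26 / 1000) (h0 : 40 / 100 ≤ w.re)
    (h1 : w.re ≤ 60 / 100) (him : w.im = T * ((60 / 100 - w.re) / (30 / 100)))
    (P : P2 v.re v.im) :
    S2 1 (-T / (30 / 100)) w v < -4 / 100 := by
  have e1 : -T / (30 / 100) = -100 / 30 * T := by ring
  have e2 : w.im = T * (100 / 30 * (6 / 10 - w.re)) := by rw [him]; ring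
  have b1 : 0 ≤ 100 / 30 * (6 / 10 - w.re) := by linarith only [h1]
  have b2 : 100 / 30 * (6 / 10 - w.re) ≤ 1 := by linarith only [h0]
  have b3 : -(41 / 1000) ≤ w.im := by rw [e2]; nlinarith only [h0, T0, h1]
  have b4 : w.im ≤ 26 / 1000 := by rw [e2]; nlinarith only [T1, h1, T0, h0]
  rw [e1]
  obtain ⟨x0, x1, t0, t1, up, dn, r1, r2⟩ := P
  have key := glue (m := -100 / 30 * T) (T := T) (c := 0) (bd := -4 / 100) (w := w) (v := v)
    ⟨x0, x1, t0, t1, up, dn, r1, r2⟩ (by linarith only [h0]) (by linarith only [h1]) (fun h => by linarith only [h])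
    (fun h => by linarith only [h]) b3 (fun h => by linarith only [b4, t1])
    (fun h k k1 k2 => by
      rw [e2]
      have := e30ja (x := w.re) (T := T) (s := v.re) (k := k) (by linarith only [h0]) (by linarith only [h1])
        (by linarith only [T0]) (by linarith only [T1]) (by linarith only [x0]) (by linarith only [h]) (by linarith only [k1]) (by linarith only [k2])
      try simp only [zero_div] at this
      linarith only [this])
    (fun h h' => by
      rw [e2]
      have := e30jb (x := w.re) (T := T) (s := v.re) (k := v.im) (by linarith only [h0]) (by linarith only [h1])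
        (by linarith only [T0]) (by linarith only [T1]) (by linarith only [h]) (by linarith only [h0, h']) (by linarith only [t0]) (by linarith only [t1])
        (by linarith only [h'])
      try simp only [zero_div] at this
      linarith only [this])
    (fun h h' h'' => by
      rw [e2]
      have := e30jcp (x := w.re) (T := T) (s := v.re) (k := v.im) (by linarith only [h0]) (by linarith only [h1])
        (by linarith only [T0]) (by linarith only [T1]) (by linarith only [h1, h']) (by linarith only [x1]) (by linarith only [t0]) (by linarith only [t1])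
        (by linarith only [h'']) (by linarith only [h']) (by linarith only [r1]) (by linarith only [r2]) (by linarith only [h])
      try simp only [zero_div] at this
      linarith only [this])
    (fun h h' h'' => by
      rw [e2]
      have := e30jcn (x := w.re) (T := T) (s := v.re) (k := v.im) (by linarith only [h0]) (by linarith only [h1])
        (by linarith only [h]) (by linarith only [T1]) (by linarith only [h1, h']) (by linarith only [x1]) (by linarith only [t0]) (by linarith only [t1])
        (by linarith only [h'']) (by linarith only [h']) (by linarith only [r1]) (by linarith only [r2]) (by linarith only [h])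
      try simp only [zero_div] at this
      linarith only [this])
    (fun h h' => by
      rw [e2]
      have := e30jdp (x := w.re) (T := T) (s := v.re) (k := v.im) (by linarith only [h0]) (by linarith only [h1])
        (by linarith only [T0]) (by linarith only [T1]) (by linarith only [h1, h']) (by linarith only [x1]) (by linarith only [t0]) (by linarith only [t1])
        (by linarith only [h']) (by linarith only [r1]) (by linarith only [r2]) (by linarith only [h])
      try simp only [zero_div] at this
      linarith only [this])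
    (fun h h' => by
      rw [e2]
      have := e30jdn (x := w.re) (T := T) (s := v.re) (k := v.im) (by linarith only [h0]) (by linarith only [h1])
        (by linarith only [h]) (by linarith only [T1]) (by linarith only [h1, h']) (by linarith only [x1]) (by linarith only [t0]) (by linarith only [t1])
        (by linarith only [h']) (by linarith only [r1]) (by linarith only [r2]) (by linarith only [h])
      try simp only [zero_div] at this
      linarith only [this])
  linarith only [key]

/-! ### the end `2e` -/

def m30 : NumIs.E := .mul (.q (-100) 30) (.var 1)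
def t30 : NumIs.E := .mul (.var 1) (.mul (.q 100 30) (.sub (.q 6 10) (.var 0)))
def ee (n : ℤ) : NumIs.E := .sub (.q n 100) (.add (MR.e2e m30 (.var 0) t30) (.mul m30 (.q 5 2)))

theorem rowe {x T : ℝ} (h1 : 30 / 100 ≤ x) (h1' : x ≤ 50 / 100) (h2 : 76 / 1000 ≤ T)
    (h2' : T ≤ 98 / 1000) : MR.s2e (-T / (30 / 100)) x (T * ((60 / 100 - x) / (30 / 100))) +
      5 / 2 * (-T / (30 / 100)) < -58 / 100 := by
  have h : NumIs.chk [ee (-58)] 20 [NumIs.V.of 1000 300 500, NumIs.V.of 1000 76 98] = true := by decide +kernel
  have hp := NumIs.pos_of_chk (NumIs.chk2 h (by norm_num) (x := x) (y := T) (by norm_num; linarith only [h1])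
    (by norm_num; linarith only [h1']) (by norm_num; linarith only [h2]) (by norm_num; linarith only [h2']))
  simp only [ee, NumIs.E.val, MR.e2e_val] at hp
  simp only [m30, t30, NumIs.E.val, NumIs.lkR] at hp
  push_cast at hp
  rw [show -T / (30 / 100) = -100 / 30 * T by ring,
    show T * ((60 / 100 - x) / (30 / 100)) = T * (100 / 30 * (6 / 10 - x)) by ring]
  linarith only [hp]

theorem rowe' {x T : ℝ} (h1 : 50 / 100 ≤ x) (h1' : x ≤ 54 / 100) (h2 : 76 / 1000 ≤ T)
    (h2' : T ≤ 98 / 1000) : MR.s2e (-T / (30 / 100)) x (T * ((60 / 100 - x) / (30 / 100))) +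
      5 / 2 * (-T / (30 / 100)) < -48 / 100 := by
  have h : NumIs.chk [ee (-48)] 20 [NumIs.V.of 1000 500 540, NumIs.V.of 1000 76 98] = true := by decide +kernel
  have hp := NumIs.pos_of_chk (NumIs.chk2 h (by norm_num) (x := x) (y := T) (by norm_num; linarith only [h1])
    (by norm_num; linarith only [h1']) (by norm_num; linarith only [h2]) (by norm_num; linarith only [h2']))
  simp only [ee, NumIs.E.val, MR.e2e_val] at hp
  simp only [m30, t30, NumIs.E.val, NumIs.lkR] at hp
  push_cast at hp
  rw [show -T / (30 / 100) = -100 / 30 * T by ring,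
    show T * ((60 / 100 - x) / (30 / 100)) = T * (100 / 30 * (6 / 10 - x)) by ring]
  linarith only [hp]

end C23

end Pool.Agent.Work.MP_b30479_gtS.G2

end
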