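import Pool.Agent.Work.MP_b30479_gt.TBS.G2.VDer

section

/-!
# The level inequality for twist regions with one crossing
-/

namespace Pool.Agent.Work.MP_b30479_gtS.G2

open Real

/-- `CC` in terms of `sin`, `cos`, `sinh` -/
theorem CC_eq (u : ℂ) : CC u = π * (sin (π * u.re) * cos (π * u.re) /
    (sinh (π * u.im) ^ 2 + sin (π * u.re) ^ 2)) := by
  unfold CC
  have h1 : sin (2 * π * u.re) = 2 * (sin (π * u.re) * cos (π * u.re)) := by
    rw [mul_assoc 2 π, sin_two_mul, mul_assoc]
  have h2 : cosh (2 * π * u.im) - cos (2 * π * u.re) =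
      2 * (sinh (π * u.im) ^ 2 + sin (π * u.re) ^ 2) := by
    have e1 : cosh (2 * π * u.im) = 1 + 2 * sinh (π * u.im) ^ 2 := by
      rw [mul_assoc 2 π, cosh_two_mul, cosh_sq]
      ring
    have e2 : cos (2 * π * u.re) = 1 - 2 * sin (π * u.re) ^ 2 := by
      rw [mul_assoc 2 π, cos_two_mul, cos_sq']
      ring
    rw [e1, e2]
    ring
  rw [h1, h2, mul_div_mul_left _ _ (two_ne_zero)]

/-- the algebraic core; `p = sin a`, `q = cos a`, `p' = sin a'`, `σ = sin (a + a')`,
`κ = cos (a + a')` -/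
theorem k1_core {p q p' σ κ S T : ℝ} (hp : 0 < p) (hσ : 0 < σ) (hS : 0 ≤ S) (hT : 0 ≤ T)
    (h0 : q * σ - p * κ = p')
    (h1 : 0 ≤ κ → (p + p') * κ * σ * S < σ * p ^ 2 * p' * (1 - κ) + p ^ 2 * q * T)
    (h2 : κ < 0 → 0 < q → (p' - p) * (-κ) * σ * S < σ * p ^ 2 * p' * (1 + κ) + p ^ 2 * q * T)
    (h3 : κ < 0 → q ≤ 0 → -q * T < σ * p' * (1 + κ)) :
    p' * |σ * κ / (T + σ ^ 2)| < p * (p * q / (S + p ^ 2) - σ * κ / (T + σ ^ 2)) := by
  have hA : 0 < S + p ^ 2 := by positivity
  have hB : 0 < T + σ ^ 2 := by positivity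
  rcases le_or_gt 0 κ with hk | hk
  · have a1 : 0 ≤ σ * κ / (T + σ ^ 2) := by positivity
    rw [abs_of_nonneg a1]
    have a2 : (p + p') * (σ * κ / (T + σ ^ 2)) < p * (p * q / (S + p ^ 2)) := by
      rw [← mul_div_assoc, ← mul_div_assoc, div_lt_div_iff₀ hB hA]
      have := h1 hk
      have e : p * (p * q) * (T + σ ^ 2) - (p + p') * (σ * κ) * (S + p ^ 2) =
          σ * p ^ 2 * (q * σ - p * κ - p' * κ) + p ^ 2 * q * T - (p + p') * κ * σ * S := by ring
      rw [h0] at e
      nlinarith only [this, e]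
    linarith only [a2]
  · have a1 : σ * κ / (T + σ ^ 2) ≤ 0 := by
      apply div_nonpos_of_nonpos_of_nonneg
      · nlinarith only [hσ, hk]
      · positivity
    rw [abs_of_nonpos a1]
    rcases lt_or_ge 0 q with hq | hq
    · have a2 : (p' - p) * (-(σ * κ / (T + σ ^ 2))) < p * (p * q / (S + p ^ 2)) := by
        rw [← neg_div, ← mul_div_assoc, ← mul_div_assoc, div_lt_div_iff₀ hB hA]
        have := h2 hk hq
        have e : p * (p * q) * (T + σ ^ 2) - (p' - p) * (-(σ * κ)) * (S + p ^ 2) =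
            σ * p ^ 2 * (q * σ - p * κ + p' * κ) + p ^ 2 * q * T - (p' - p) * (-κ) * σ * S := by
          ring
        rw [h0] at e
        nlinarith only [this, e]
      linarith only [a2]
    · have a2 : p * (p * (-q) / (S + p ^ 2)) < (p - p') * (-(σ * κ / (T + σ ^ 2))) := by
        have b1 : p * (p * (-q) / (S + p ^ 2)) ≤ -q := by
          rw [← mul_div_assoc, div_le_iff₀ hA]
          nlinarith only [hS, hq]
        refine b1.trans_lt ?_
        rw [← neg_div, ← mul_div_assoc, lt_div_iff₀ hB]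
        have := h3 hk hq
        have e : (p - p') * (-(σ * κ)) - -q * (T + σ ^ 2) =
            σ * (q * σ - p * κ + p' * κ) + q * T := by ring
        rw [h0] at e
        nlinarith only [this, e]
      have e2 : p * (p * (-q) / (S + p ^ 2)) = -(p * (p * q / (S + p ^ 2))) := by ring
      rw [e2] at a2
      linarith only [a2]

/-- **The level inequality of a twist region with one crossing.** -/
theorem k1_level {u v : ℂ} (hu : 0 < u.re) (hv : 0 < v.re) (hs : u.re + v.re < 1)
    (h1 : u.re + v.re ≤ 1 / 2 →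
      (sin (π * u.re) + sin (π * v.re)) * cos (π * (u.re + v.re)) * sin (π * (u.re + v.re)) *
        sinh (π * u.im) ^ 2 <
      sin (π * (u.re + v.re)) * sin (π * u.re) ^ 2 * sin (π * v.re) *
        (1 - cos (π * (u.re + v.re))) +
        sin (π * u.re) ^ 2 * cos (π * u.re) * sinh (π * (u.im + v.im)) ^ 2)
    (h2 : 1 / 2 < u.re + v.re → u.re < 1 / 2 →
      (sin (π * v.re) - sin (π * u.re)) * (-cos (π * (u.re + v.re))) * sin (π * (u.re + v.re)) *
        sinh (π * u.im) ^ 2 <
      sin (π * (u.re + v.re)) * sin (π * u.re) ^ 2 * sin (π * v.re) *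
        (1 + cos (π * (u.re + v.re))) +
        sin (π * u.re) ^ 2 * cos (π * u.re) * sinh (π * (u.im + v.im)) ^ 2)
    (h3 : 1 / 2 ≤ u.re → -cos (π * u.re) * sinh (π * (u.im + v.im)) ^ 2 <
      sin (π * (u.re + v.re)) * sin (π * v.re) * (1 + cos (π * (u.re + v.re)))) :
    sin (π * v.re) * |CC (u + v)| < sin (π * u.re) * (CC u - CC (u + v)) := by
  have hpi := pi_pos
  have e0 : cos (π * u.re) * sin (π * (u.re + v.re)) - sin (π * u.re) * cos (π * (u.re + v.re)) =
      sin (π * v.re) := by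
    have : π * v.re = π * (u.re + v.re) - π * u.re := by ring
    rw [this, sin_sub]
    ring
  have key := k1_core (p := sin (π * u.re)) (q := cos (π * u.re)) (p' := sin (π * v.re))
    (σ := sin (π * (u.re + v.re))) (κ := cos (π * (u.re + v.re))) (S := sinh (π * u.im) ^ 2)
    (T := sinh (π * (u.im + v.im)) ^ 2)
    (sin_pos_of_pos_of_lt_pi (by positivity) (by nlinarith only [hv, hpi, hs]))
    (sin_pos_of_pos_of_lt_pi (by positivity) (by nlinarith only [hs, hpi])) (sq_nonneg _) (sq_nonneg _) e0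
    (fun hk => h1 ?_) (fun hk hq => h2 ?_ ?_) (fun hk hq => h3 ?_)
  · rw [CC_eq u, CC_eq (u + v)]
    simp only [Complex.add_re, Complex.add_im]
    rw [abs_mul, abs_of_pos hpi]
    nlinarith only [key, hpi, mul_lt_mul_of_pos_left key hpi]
  · by_contra hc
    push Not at hc
    have := cos_neg_of_pi_div_two_lt_of_lt (x := π * (u.re + v.re)) (by nlinarith only [hpi, hc]) (by nlinarith only [hu, hpi, hv, hs])
    linarith only [hk, this]
  · by_contra hc
    push Not at hc
    have := cos_nonneg_of_mem_Icc (x := π * (u.re + v.re)) ⟨by nlinarith only [hpi, hu, hv], by nlinarith only [hu, hv, hs, hpi, hc]⟩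
    linarith only [hk, this]
  · by_contra hc
    push Not at hc
    have := cos_nonpos_of_pi_div_two_le_of_le (x := π * u.re) (by nlinarith only [hu, hv, hs, hpi, hc]) (by nlinarith only [hpi, hv, hs])
    linarith only [hq, this]
  · by_contra hc
    push Not at hc
    have := cos_pos_of_mem_Ioo (x := π * u.re) ⟨by nlinarith only [hpi, hu], by nlinarith only [hpi, hc]⟩
    linarith only [hq, this]

theorem CC_nonneg {u : ℂ} (h0 : 0 ≤ u.re) (h1 : u.re ≤ 1 / 2) : 0 ≤ CC u := by
  have hpi := pi_pos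
  rw [CC_eq]
  have a1 : 0 ≤ sin (π * u.re) := sin_nonneg_of_nonneg_of_le_pi (by positivity) (by nlinarith only [hpi, h1])
  have a2 : 0 ≤ cos (π * u.re) := cos_nonneg_of_mem_Icc ⟨by nlinarith only [hpi, h0], by nlinarith only [h1, hpi]⟩
  positivity

theorem CC_pos {u : ℂ} (h0 : 0 < u.re) (h1 : u.re < 1 / 2) : 0 < CC u := by
  have hpi := pi_pos
  rw [CC_eq]
  have a1 : 0 < sin (π * u.re) := sin_pos_of_pos_of_lt_pi (by positivity) (by nlinarith only [hpi, h1])
  have a2 : 0 < cos (π * u.re) := cos_pos_of_mem_Ioo ⟨by nlinarith only [hpi, h0], by nlinarith only [h1, hpi]⟩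
  positivity

theorem k2_core {p q p' σ κ S T : ℝ} (hp : 0 < p) (hq : 0 ≤ q) (hp' : 0 < p') (hσ : 0 < σ)
    (hS : 0 ≤ S) (hT : 0 ≤ T) (h0 : q * σ - p * κ = p') (hκ : κ < 1) (hκ' : -1 < κ)
    (hSp : S ≤ p ^ 2) :
    p' * |σ * κ / (T + σ ^ 2)| < p * (2 * (p * q / (S + p ^ 2)) - σ * κ / (T + σ ^ 2)) := by
  have hA : 0 < S + p ^ 2 := by positivity
  have hB : 0 < T + σ ^ 2 := by positivity
  have hqT : 0 ≤ p ^ 2 * q * T := by positivity
  rcases le_or_gt 0 κ with hk | hk
  · have a1 : 0 ≤ σ * κ / (T + σ ^ 2) := by positivity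
    rw [abs_of_nonneg a1]
    have a2 : (p + p') * (σ * κ / (T + σ ^ 2)) < p * (2 * (p * q / (S + p ^ 2))) := by
      have e0 : p * (2 * (p * q / (S + p ^ 2))) = 2 * p * (p * q) / (S + p ^ 2) := by ring
      rw [e0, ← mul_div_assoc, div_lt_div_iff₀ hB hA]
      have e : 2 * p * (p * q) * (T + σ ^ 2) - (p + p') * (σ * κ) * (S + p ^ 2) =
          σ * p ^ 2 * (2 * (q * σ - p * κ) + p * κ - p' * κ) + 2 * (p ^ 2 * q * T) -
            (p + p') * κ * σ * S := by ring
      rw [h0] at e
      have f1 : (p + p') * κ * σ * S ≤ (p + p') * κ * σ * p ^ 2 := by gcongr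
      have f2 : 0 < σ * p ^ 2 * (2 * p' * (1 - κ)) := by
        have : 0 < 1 - κ := by linarith only [hκ]
        positivity
      nlinarith only [hqT, e, f1, f2]
    linarith only [a2]
  · have a1 : σ * κ / (T + σ ^ 2) ≤ 0 := by
      apply div_nonpos_of_nonpos_of_nonneg
      · nlinarith only [hσ, hk]
      · positivity
    rw [abs_of_nonpos a1]
    rcases lt_or_ge p p' with hpp | hpp
    · have a2 : (p' - p) * (-(σ * κ / (T + σ ^ 2))) < p * (2 * (p * q / (S + p ^ 2))) := by
        have e0 : p * (2 * (p * q / (S + p ^ 2))) = 2 * p * (p * q) / (S + p ^ 2) := by ring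
        rw [e0, ← neg_div, ← mul_div_assoc, div_lt_div_iff₀ hB hA]
        have e : 2 * p * (p * q) * (T + σ ^ 2) - (p' - p) * (-(σ * κ)) * (S + p ^ 2) =
            σ * p ^ 2 * (2 * (q * σ - p * κ) + p * κ + p' * κ) + 2 * (p ^ 2 * q * T) -
              (p' - p) * (-κ) * σ * S := by ring
        rw [h0] at e
        have f1 : (p' - p) * (-κ) * σ * S ≤ (p' - p) * (-κ) * σ * p ^ 2 := by
          have g1 : 0 ≤ p' - p := by linarith only [hpp]
          have g2 : 0 ≤ -κ := by linarith only [hk]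
          gcongr
        have f2 : 0 < σ * p ^ 2 * (2 * p' * (1 + κ)) := by
          have : 0 < 1 + κ := by linarith only [hκ']
          positivity
        nlinarith only [hqT, e, f1, f2]
      linarith only [a2]
    · have b1 : 0 ≤ p * (2 * (p * q / (S + p ^ 2))) := by positivity
      have b2 : p' * -(σ * κ / (T + σ ^ 2)) ≤ p * -(σ * κ / (T + σ ^ 2)) := by
        have : 0 ≤ -(σ * κ / (T + σ ^ 2)) := by linarith only [a1]
        gcongr
      rcases lt_or_eq_of_le hq with hq0 | hq0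
      · have b3 : 0 < p * (2 * (p * q / (S + p ^ 2))) := by positivity
        linarith only [b2, b3]
      · have c1 : -κ * p = p' := by rw [← hq0] at h0; linarith only [h0]
        have c2 : σ * κ / (T + σ ^ 2) < 0 := by
          apply div_neg_of_neg_of_pos
          · nlinarith
          · positivity
        have c3 : p' < p := by nlinarith only [c1, hp, hκ']
        have c4 : p' * -(σ * κ / (T + σ ^ 2)) < p * -(σ * κ / (T + σ ^ 2)) := by
          have : 0 < -(σ * κ / (T + σ ^ 2)) := by linarith only [c2]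
          gcongr
        linarith only [b1, c4]

/-- **The level inequality of a twist region with two crossings.** -/
theorem k2_level {u v : ℂ} (hu : 0 < u.re) (hu' : u.re ≤ 1 / 2) (hv : 0 < v.re)
    (hs : u.re + v.re < 1) (ht : |sinh (π * u.im)| ≤ sin (π * u.re)) :
    sin (π * v.re) * |CC (u + v)| < sin (π * u.re) * (2 * CC u - CC (u + v)) := by
  have hpi := pi_pos
  have e0 : cos (π * u.re) * sin (π * (u.re + v.re)) - sin (π * u.re) * cos (π * (u.re + v.re)) =
      sin (π * v.re) := by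
    have : π * v.re = π * (u.re + v.re) - π * u.re := by ring
    rw [this, sin_sub]
    ring
  have hc : -1 < cos (π * (u.re + v.re)) ∧ cos (π * (u.re + v.re)) < 1 := by
    constructor
    · rw [← cos_pi]
      exact cos_lt_cos_of_nonneg_of_le_pi (by positivity) le_rfl (by nlinarith only [hs, hpi])
    · rw [← cos_zero]
      exact cos_lt_cos_of_nonneg_of_le_pi le_rfl (by nlinarith only [hu, hu', hs, hpi]) (by positivity)
  have key := k2_core (p := sin (π * u.re)) (q := cos (π * u.re)) (p' := sin (π * v.re))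
    (σ := sin (π * (u.re + v.re))) (κ := cos (π * (u.re + v.re))) (S := sinh (π * u.im) ^ 2)
    (T := sinh (π * (u.im + v.im)) ^ 2)
    (sin_pos_of_pos_of_lt_pi (by positivity) (by nlinarith only [hpi, hu']))
    (cos_nonneg_of_mem_Icc ⟨by nlinarith only [hpi, hu], by nlinarith only [hu', hpi]⟩)
    (sin_pos_of_pos_of_lt_pi (by positivity) (by nlinarith only [hu, hpi, hs]))
    (sin_pos_of_pos_of_lt_pi (by positivity) (by nlinarith only [hs, hpi])) (sq_nonneg _) (sq_nonneg _) e0
    hc.2 hc.1 (by rw [← sq_abs]; gcongr)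
  rw [CC_eq u, CC_eq (u + v)]
  simp only [Complex.add_re, Complex.add_im]
  rw [abs_mul, abs_of_pos hpi]
  nlinarith only [key, hpi, mul_lt_mul_of_pos_left key hpi]

end Pool.Agent.Work.MP_b30479_gtS.G2

end

section

/-!
# Push-back along curves, at the level of the data
-/

namespace Pool.Agent.Work.MP_b30479_gtS.G2

open Finset VOL Filter Topology

/-! ### continuity of the first derivatives -/

theorem continuousAt_LL {u : ℂ} (h : Complex.sin (Real.pi * u) ≠ 0) : ContinuousAt LL u := by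
  have e : LL = fun u => Real.log ‖2 * Complex.sin (Real.pi * u)‖ := funext LL_eq
  rw [e]
  apply ContinuousAt.log
  · exact (by fun_prop : Continuous fun u : ℂ => ‖2 * Complex.sin (Real.pi * u)‖).continuousAt
  · exact norm_ne_zero_iff.mpr (mul_ne_zero two_ne_zero h)

theorem continuousAt_YY {u : ℂ} (h : u.im ≠ 0 ∨ u ∈ strip) : ContinuousAt YY u := by
  rcases h with h | h
  · rcases lt_or_gt_of_ne h with h0 | h0
    · have h1 : ContinuousAt (fun u : ℂ => -(DT.Tr (-u.im) u.re - Real.pi / 2)) u := by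
        have h2 := continuousAt_Tr (ρ := -u.im) (x := u.re) (by linarith)
        have h3 : ContinuousAt (fun u : ℂ => ((-u.im, u.re) : ℝ × ℝ)) u := by fun_prop
        exact ((ContinuousAt.comp (f := fun u : ℂ => ((-u.im, u.re) : ℝ × ℝ)) h2 h3).sub_const _).neg
      refine h1.congr ?_
      filter_upwards [Complex.continuous_im.continuousAt.eventually (gt_mem_nhds h0)] with v hv
      unfold YY
      rw [if_neg (not_lt.2 hv.le), if_pos hv]
    · have h1 : ContinuousAt (fun u : ℂ => DT.Tr u.im u.re - Real.pi / 2) u := by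
        have h2 := continuousAt_Tr (ρ := u.im) (x := u.re) (by linarith)
        have h3 : ContinuousAt (fun u : ℂ => ((u.im, u.re) : ℝ × ℝ)) u := by fun_prop
        exact (ContinuousAt.comp (f := fun u : ℂ => ((u.im, u.re) : ℝ × ℝ)) h2 h3).sub_const _
      refine h1.congr ?_
      filter_upwards [Complex.continuous_im.continuousAt.eventually (lt_mem_nhds h0)] with v hv
      unfold YY
      rw [if_pos hv]
  · have h1 : ContinuousAt (fun u : ℂ => -(ph u).im) u :=
      (Complex.continuous_im.continuousAt.comp (hasDerivAt_ph h).continuousAt).neg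
    refine h1.congr ?_
    filter_upwards [strip_open.mem_nhds h] with v hv
    rw [ph_im hv, neg_neg]

/-! ### right derivatives along curves -/

/-- a curve with a right derivative at `t` extends to a differentiable curve -/
theorem exists_ext_within {E : Type*} [NormedAddCommGroup E] [NormedSpace ℝ E] {z : ℝ → E} {d : E}
    {t : ℝ} (hz : HasDerivWithinAt z d (Set.Ici t) t) :
    ∃ w : ℝ → E, (∀ s, t ≤ s → w s = z s) ∧ HasDerivAt w d t := by
  refine ⟨fun s => if t ≤ s then z s else z t + (s - t) • d, fun s hs => if_pos hs, ?_⟩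
  have h1 : HasDerivWithinAt (fun s => if t ≤ s then z s else z t + (s - t) • d) d
      (Set.Ici t) t := by
    refine hz.congr (fun s hs => if_pos hs) (if_pos le_rfl)
  have h2 : HasDerivWithinAt (fun s => if t ≤ s then z s else z t + (s - t) • d) d
      (Set.Iic t) t := by
    have h3 : HasDerivAt (fun s : ℝ => z t + (s - t) • d) d t := by
      have h4 : HasDerivAt (fun s : ℝ => z t + (s - t) • d) ((1 : ℝ) • d) t :=
        (((hasDerivAt_id' t).sub_const t).smul_const d).const_add (z t)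
      simpa using h4
    refine h3.hasDerivWithinAt.congr (fun s hs => ?_) ?_
    · rcases lt_or_eq_of_le (show s ≤ t from hs) with h | h
      · exact if_neg (not_le.2 h)
      · subst h
        simp
    · simp
  have h3 := h2.union h1
  rwa [Set.Iic_union_Ici, hasDerivWithinAt_univ] at h3

theorem cwa_sum {ι E : Type*} [Fintype ι] [NormedAddCommGroup E] {f : ι → ℝ → E} {s : Set ℝ} {t : ℝ}
    (h : ∀ i, ContinuousWithinAt (f i) s t) : ContinuousWithinAt (fun t => ∑ i, f i t) s t :=
  tendsto_finsetSum _ fun i _ => h i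

variable {D Z K : Type} [Fintype D] [Fintype Z] [Fintype K]

/-- right derivative of `S.DV z X` along a curve -/
theorem hasDerivWithinAt_DV (S : Dat D Z K) {z : ℝ → D ⊕ Z → ℂ} {X Y : D ⊕ Z → ℂ} {t : ℝ}
    (hz : ∀ i, HasDerivWithinAt (fun t => z t i) (Y i) (Set.Ici t) t)
    (h1 : ∀ k, (S.aff k X).re ≠ 0 → Complex.sin (Real.pi * S.form k (z t)) ≠ 0)
    (h2 : ∀ k, (S.aff k X).im ≠ 0 → (S.form k (z t)).im ≠ 0 ∨ S.form k (z t) ∈ strip) :
    HasDerivWithinAt (fun t => S.DV (z t) X) (S.HH (z t) X Y) (Set.Ici t) t := by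
  choose w hw1 hw2 using fun i => exists_ext_within (hz i)
  have e : ∀ s, t ≤ s → (fun i => w i s) = z s := fun s hs => funext fun i => hw1 i s hs
  have h3 := hasDerivAt_DV S (z := fun s i => w i s) (X := X) (Y := Y) (t := t) hw2
    (by rw [e t le_rfl]; exact h1) (by rw [e t le_rfl]; exact h2)
  rw [e t le_rfl] at h3
  exact h3.hasDerivWithinAt.congr (fun s hs => by rw [e s hs]) (by rw [e t le_rfl])

/-- continuity of `S.DV z X` along curves -/
theorem continuousWithinAt_DV (S : Dat D Z K) {z : ℝ → D ⊕ Z → ℂ} {X : D ⊕ Z → ℂ} {t : ℝ}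
    {s : Set ℝ} (hz : ∀ i, ContinuousWithinAt (fun t => z t i) s t)
    (h1 : ∀ k, (S.aff k X).re ≠ 0 → Complex.sin (Real.pi * S.form k (z t)) ≠ 0)
    (h2 : ∀ k, (S.aff k X).im ≠ 0 → (S.form k (z t)).im ≠ 0 ∨ S.form k (z t) ∈ strip) :
    ContinuousWithinAt (fun t => S.DV (z t) X) s t := by
  have hf : ∀ k, ContinuousWithinAt (fun t => S.form k (z t)) s t := by
    intro k
    unfold Dat.form
    exact continuousWithinAt_const.add (cwa_sum fun i => continuousWithinAt_const.mul (hz i))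
  unfold Dat.DV
  refine ContinuousWithinAt.add ?_ ?_
  · unfold Dat.dqv
    apply Complex.continuous_re.continuousAt.comp_continuousWithinAt
    refine ((cwa_sum fun i => cwa_sum fun j => ?_).add continuousWithinAt_const).add
      (cwa_sum fun v => ?_)
    · exact continuousWithinAt_const.mul ((continuousWithinAt_const.mul (hz j)).add
        ((hz i).mul continuousWithinAt_const))
    · exact (continuousWithinAt_const.mul ((continuousWithinAt_const.mul (hz (.inr v))).add
        continuousWithinAt_const)).mul continuousWithinAt_const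
  · refine cwa_sum fun k => ?_
    refine ContinuousWithinAt.add ?_ ?_
    · by_cases hk : (S.aff k X).re = 0
      · rw [hk]
        simpa using continuousWithinAt_const
      · exact continuousWithinAt_const.mul (ContinuousAt.comp_continuousWithinAt
          (f := fun t => S.form k (z t)) (continuousAt_LL (h1 k hk)) (hf k))
    · by_cases hk : (S.aff k X).im = 0
      · rw [hk]
        simpa using continuousWithinAt_const
      · exact continuousWithinAt_const.mul (ContinuousAt.comp_continuousWithinAt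
          (f := fun t => S.form k (z t)) (continuousAt_YY (h2 k hk)) (hf k))

/-- a function with negative right derivatives decreases -/
theorem lt_of_right_deriv_neg {F F' : ℝ → ℝ} (hc : ContinuousOn F (Set.Icc 0 1))
    (hd : ∀ x ∈ Set.Ico (0 : ℝ) 1, HasDerivWithinAt F (F' x) (Set.Ici x) x)
    (hneg : ∀ x ∈ Set.Ico (0 : ℝ) 1, F' x < 0) : F 1 < F 0 := by
  have key : ∀ a ∈ Set.Ico (0 : ℝ) 1, F 1 ≤ F a := by
    intro a ha
    have h := image_le_of_deriv_right_le_deriv_boundary (f := F) (f' := F') (a := a) (b := 1)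
      (B := fun _ => F a) (B' := fun _ => 0)
      (hc.mono (Set.Icc_subset_Icc_left ha.1))
      (fun x hx => hd x ⟨ha.1.trans hx.1, hx.2⟩) le_rfl continuousOn_const
      (fun x _ => (hasDerivAt_const x (F a)).hasDerivWithinAt)
      (fun x hx => (hneg x ⟨ha.1.trans hx.1, hx.2⟩).le)
    exact h (Set.right_mem_Icc.2 ha.2.le)
  have h0 : (0 : ℝ) ∈ Set.Ico (0 : ℝ) 1 := ⟨le_rfl, one_pos⟩
  have h1 := (hasDerivWithinAt_iff_tendsto_slope' (s := Set.Ioi (0 : ℝ)) (by simp)).1
    (hd 0 h0).Ioi_of_Ici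
  have h2 : ∀ᶠ x in 𝓝[>] (0 : ℝ), slope F 0 x < 0 := h1.eventually (gt_mem_nhds (hneg 0 h0))
  have h3 : ∀ᶠ x in 𝓝[>] (0 : ℝ), x ∈ Set.Ioo (0 : ℝ) 1 := Ioo_mem_nhdsGT one_pos
  obtain ⟨x, hx1, hx2⟩ := (h2.and h3).exists
  rw [slope_def_field] at hx1
  have h4 : F x < F 0 := by
    by_contra hcon
    push Not at hcon
    have : 0 ≤ (F x - F 0) / (x - 0) := div_nonneg (by linarith) (by linarith [hx2.1])
    linarith
  exact (key x ⟨hx2.1.le, hx2.2⟩).trans_lt h4

/-- **Push-back along a curve.** -/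
theorem DV_lt_of_curve (S : Dat D Z K) {z Y : ℝ → D ⊕ Z → ℂ} {X : D ⊕ Z → ℂ}
    (hc : ∀ i, ContinuousOn (fun t => z t i) (Set.Icc 0 1))
    (hz : ∀ t ∈ Set.Ico (0 : ℝ) 1, ∀ i, HasDerivWithinAt (fun t => z t i) (Y t i) (Set.Ici t) t)
    (h1 : ∀ t ∈ Set.Icc (0 : ℝ) 1, ∀ k, (S.aff k X).re ≠ 0 →
      Complex.sin (Real.pi * S.form k (z t)) ≠ 0)
    (h2 : ∀ t ∈ Set.Icc (0 : ℝ) 1, ∀ k, (S.aff k X).im ≠ 0 →
      (S.form k (z t)).im ≠ 0 ∨ S.form k (z t) ∈ strip)
    (hneg : ∀ t ∈ Set.Ico (0 : ℝ) 1, S.HH (z t) X (Y t) < 0) :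
    S.DV (z 1) X < S.DV (z 0) X :=
  lt_of_right_deriv_neg (F := fun t => S.DV (z t) X) (F' := fun t => S.HH (z t) X (Y t))
    (fun t ht => continuousWithinAt_DV S (fun i => hc i t ht) (h1 t ht) (h2 t ht))
    (fun t ht => hasDerivWithinAt_DV S (hz t ht) (h1 t ⟨ht.1, ht.2.le⟩) (h2 t ⟨ht.1, ht.2.le⟩))
    hneg

/-! ### linearity -/

omit [Fintype K] in
theorem aff_neg (S : Dat D Z K) (k : K) (X : D ⊕ Z → ℂ) : S.aff k (-X) = -S.aff k X := by
  unfold Dat.aff
  simp

theorem DV_neg (S : Dat D Z K) (z X : D ⊕ Z → ℂ) : S.DV z (-X) = -S.DV z X := by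
  unfold Dat.DV Dat.dqv
  simp only [aff_neg, Pi.neg_apply, Complex.neg_re, Complex.neg_im, neg_mul, mul_neg,
    Finset.sum_neg_distrib, ← neg_add]

theorem HH_neg (S : Dat D Z K) (z X Y : D ⊕ Z → ℂ) : S.HH z (-X) Y = -S.HH z X Y := by
  unfold Dat.HH
  simp only [aff_neg, Pi.neg_apply, Complex.neg_re, Complex.neg_im, neg_mul, mul_neg,
    Finset.sum_neg_distrib, ← neg_add]

/-- push-back in the other direction -/
theorem lt_DV_of_curve (S : Dat D Z K) {z Y : ℝ → D ⊕ Z → ℂ} {X : D ⊕ Z → ℂ}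
    (hc : ∀ i, ContinuousOn (fun t => z t i) (Set.Icc 0 1))
    (hz : ∀ t ∈ Set.Ico (0 : ℝ) 1, ∀ i, HasDerivWithinAt (fun t => z t i) (Y t i) (Set.Ici t) t)
    (h1 : ∀ t ∈ Set.Icc (0 : ℝ) 1, ∀ k, (S.aff k X).re ≠ 0 →
      Complex.sin (Real.pi * S.form k (z t)) ≠ 0)
    (h2 : ∀ t ∈ Set.Icc (0 : ℝ) 1, ∀ k, (S.aff k X).im ≠ 0 →
      (S.form k (z t)).im ≠ 0 ∨ S.form k (z t) ∈ strip)
    (hpos : ∀ t ∈ Set.Ico (0 : ℝ) 1, 0 < S.HH (z t) X (Y t)) :
    S.DV (z 0) X < S.DV (z 1) X := by
  have h := DV_lt_of_curve S (X := -X) hc hz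
    (fun t ht k hk => h1 t ht k (by rw [aff_neg, Complex.neg_re, neg_ne_zero] at hk; exact hk))
    (fun t ht k hk => h2 t ht k (by rw [aff_neg, Complex.neg_im, neg_ne_zero] at hk; exact hk))
    (fun t ht => by rw [HH_neg, neg_neg_iff_pos]; exact hpos t ht)
  rw [DV_neg, DV_neg, neg_lt_neg_iff] at h
  exact h

end Pool.Agent.Work.MP_b30479_gtS.G2

end
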