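import Mathlib
import Pool.Agent.Work.MP_b30479_gt.TBS.G2.SEfD
import Pool.Agent.Work.MP_b30479_gt.TBS.G2.VDer

section

/-!
# A maximum principle with gauges
-/

namespace Pool.Agent.Work.MP_b30479_gtS.G2

open Filter Topology Set Function

/-! ### maximisers -/

/-- if a continuous function on a compact set has no maximiser except `xs`, then `xs` is the
strict maximum -/
theorem lt_of_max_eq {X : Type*} [TopologicalSpace X] {K : Set X} (hK : IsCompact K) {f : X → ℝ}
    (hf : ContinuousOn f K) {xs : X} (h : ∀ x ∈ K, IsMaxOn f K x → x = xs) :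
    ∀ x ∈ K, x ≠ xs → f x < f xs := by
  intro x hx hne
  obtain ⟨y, hy, hmax⟩ := hK.exists_isMaxOn ⟨x, hx⟩ hf
  have e := h y hy hmax
  subst e
  have h0 : f x ≤ f y := hmax hx
  rcases lt_or_eq_of_le h0 with h1 | h1
  · exact h1
  · exfalso
    apply hne
    apply h x hx
    intro z hz
    exact (hmax hz).trans h1.ge

/-- one-sided derivatives at one-sided maximisers -/
theorem deriv_right_nonpos {f : ℝ → ℝ} {x d r : ℝ} (hr : x < r) (hm : ∀ s ∈ Ioo x r, f s ≤ f x)
    (hd : HasDerivWithinAt f d (Ici x) x) : d ≤ 0 := by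
  by_contra hcon
  push Not at hcon
  have h1 := (hasDerivWithinAt_iff_tendsto_slope' (lt_irrefl x)).1 hd.Ioi_of_Ici
  have h2 : ∀ᶠ z in 𝓝[>] x, 0 < slope f x z := h1.eventually (lt_mem_nhds hcon)
  have h3 : ∀ᶠ z in 𝓝[>] x, z ∈ Ioo x r := Ioo_mem_nhdsGT hr
  obtain ⟨z, hz1, hz2⟩ := (h2.and h3).exists
  rw [slope_def_field] at hz1
  have := hm z hz2
  have h4 : 0 < z - x := sub_pos.2 hz2.1
  have h5 : (f z - f x) / (z - x) ≤ 0 := div_nonpos_of_nonpos_of_nonneg (by linarith only [this]) h4.le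
  linarith only [hz1, h5]

theorem deriv_left_nonneg {f : ℝ → ℝ} {x d r : ℝ} (hr : r < x) (hm : ∀ s ∈ Ioo r x, f s ≤ f x)
    (hd : HasDerivWithinAt f d (Iic x) x) : 0 ≤ d := by
  by_contra hcon
  push Not at hcon
  have h1 := (hasDerivWithinAt_iff_tendsto_slope' (s := Iio x) (lt_irrefl x)).1 hd.Iio_of_Iic
  have h2 : ∀ᶠ z in 𝓝[<] x, slope f x z < 0 := h1.eventually (gt_mem_nhds hcon)
  have h3 : ∀ᶠ z in 𝓝[<] x, z ∈ Ioo r x := Ioo_mem_nhdsLT hr
  obtain ⟨z, hz1, hz2⟩ := (h2.and h3).exists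
  rw [slope_def_field] at hz1
  have := hm z hz2
  have h4 : z - x < 0 := sub_neg.2 hz2.2
  have h5 : 0 ≤ (f z - f x) / (z - x) := div_nonneg_of_nonpos (by linarith only [this]) h4.le
  linarith only [hz1, h5]

section box
variable {ι : Type*} [DecidableEq ι] {f : (ι → ℝ) → ℝ} {lo hi : ι → ℝ}

theorem update_mem_box {x : ι → ℝ} (hx : x ∈ Icc lo hi) {i : ι} {s : ℝ} (h1 : lo i ≤ s)
    (h2 : s ≤ hi i) : update x i s ∈ Icc lo hi := by
  constructor
  · intro j
    by_cases hj : j = i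
    · subst hj; simpa using h1
    · rw [update_of_ne hj]; exact hx.1 j
  · intro j
    by_cases hj : j = i
    · subst hj; simpa using h2
    · rw [update_of_ne hj]; exact hx.2 j

/-- at a maximiser, right derivatives are `≤ 0` -/
theorem max_right {x : ι → ℝ} (hx : x ∈ Icc lo hi) (hm : IsMaxOn f (Icc lo hi) x) {i : ι}
    (h : x i < hi i) {d : ℝ}
    (hd : HasDerivWithinAt (fun s => f (update x i s)) d (Ici (x i)) (x i)) : d ≤ 0 := by
  refine deriv_right_nonpos h (fun s hs => ?_) hd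
  simp only [update_eq_self]
  exact hm (update_mem_box hx ((hx.1 i).trans hs.1.le) hs.2.le)

/-- at a maximiser, left derivatives are `≥ 0` -/
theorem max_left {x : ι → ℝ} (hx : x ∈ Icc lo hi) (hm : IsMaxOn f (Icc lo hi) x) {i : ι}
    (h : lo i < x i) {d : ℝ}
    (hd : HasDerivWithinAt (fun s => f (update x i s)) d (Iic (x i)) (x i)) : 0 ≤ d := by
  refine deriv_left_nonneg h (fun s hs => ?_) hd
  simp only [update_eq_self]
  exact hm (update_mem_box hx hs.1.le (hs.2.le.trans (hx.2 i)))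

/-- at a maximiser in the interior, derivatives are `0` -/
theorem max_deriv {x : ι → ℝ} (hx : x ∈ Icc lo hi) (hm : IsMaxOn f (Icc lo hi) x) {i : ι}
    (h1 : lo i < x i) (h2 : x i < hi i) {d : ℝ}
    (hd : HasDerivAt (fun s => f (update x i s)) d (x i)) : d = 0 :=
  le_antisymm (max_right hx hm h2 hd.hasDerivWithinAt) (max_left hx hm h1 hd.hasDerivWithinAt)

/-- maximisers can be moved away from the lower boundary (in the coordinates of `B`) -/
theorem exists_max_pos [Finite ι] (B : Set ι) {xs : ι → ℝ} (hxs : ∀ i, lo i < xs i)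
    (hlh : ∀ i, xs i ≤ hi i)
    (hbd : ∀ y ∈ Icc lo hi, IsMaxOn f (Icc lo hi) y → ∀ i ∈ B, y i = lo i →
      ∀ᶠ s in 𝓝[>] (lo i), f y ≤ f (update y i s))
    (x : ι → ℝ) (hx : x ∈ Icc lo hi) (hm : IsMaxOn f (Icc lo hi) x) (hne : x ≠ xs) :
    ∃ y ∈ Icc lo hi, IsMaxOn f (Icc lo hi) y ∧ y ≠ xs ∧ ∀ i ∈ B, lo i < y i := by
  have hfin : ∀ y : ι → ℝ, {i | y i = lo i}.Finite := fun y => Set.toFinite _
  obtain ⟨N, hN⟩ : ∃ N, N = {i | x i = lo i}.ncard := ⟨_, rfl⟩
  induction N using Nat.strong_induction_on generalizing x with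
  | _ N ih =>
    by_cases h : ∀ i ∈ B, lo i < x i
    · exact ⟨x, hx, hm, hne, h⟩
    · push Not at h
      obtain ⟨i, hiB, hi'⟩ := h
      have hi : x i = lo i := le_antisymm hi' (hx.1 i)
      have h1 := hbd x hx hm i hiB hi
      have h2 : ∀ᶠ s in 𝓝[>] (lo i), s ∈ Ioo (lo i) (xs i) := Ioo_mem_nhdsGT (hxs i)
      obtain ⟨s, hs1, hs2⟩ := (h1.and h2).exists
      have hmem := update_mem_box hx (i := i) hs2.1.le (hs2.2.le.trans (hlh i))
      refine ih {j | update x i s j = lo j}.ncard ?_ (update x i s) hmem ?_ ?_ rfl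
      · rw [hN]
        apply Set.ncard_lt_ncard _ (hfin x)
        refine ⟨fun j hj => ?_, fun hsub => ?_⟩
        · by_cases hji : j = i
          · subst hji; exact hi
          · simp only [mem_ofPred_eq] at hj ⊢
            rwa [update_of_ne hji] at hj
        · have := hsub (a := i) hi
          simp only [mem_ofPred_eq, update_self] at this
          exact hs2.1.ne' this
      · intro z hz
        exact (hm hz).trans hs1
      · intro he
        have := congrFun he i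
        rw [update_self] at this
        exact hs2.2.ne this

omit [DecidableEq ι] in
/-- an index with maximal displacement -/
theorem exists_max_gauge [Finite ι] (J : Set ι) {xs : ι → ℝ} {g : ι → ℝ → ℝ} {x : ι → ℝ}
    {C : ι → Set ℝ} (hg : ∀ i ∈ J, StrictMonoOn (g i) (C i)) (hx : ∀ i ∈ J, x i ∈ C i)
    (hxs : ∀ i ∈ J, xs i ∈ C i) (hne : ∃ i ∈ J, x i ≠ xs i) :
    ∃ i ∈ J, x i ≠ xs i ∧ ∀ j ∈ J, |g j (x j) - g j (xs j)| ≤ |g i (x i) - g i (xs i)| := by
  obtain ⟨k, hk, hkne⟩ := hne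
  obtain ⟨i, hiJ, hi⟩ := Set.exists_max_image J (fun j => |g j (x j) - g j (xs j)|)
    (Set.toFinite J) ⟨k, hk⟩
  refine ⟨i, hiJ, fun he => hkne ?_, hi⟩
  have h1 := hi k hk
  rw [he, sub_self, abs_zero] at h1
  have h2 : g k (x k) = g k (xs k) := sub_eq_zero.1 (abs_eq_zero.1 (le_antisymm h1 (abs_nonneg _)))
  exact (hg k hk).injOn (hx k hk) (hxs k hk) h2

/-- **Maximum principle.**  `J` is the set of the indices which are compared, `C i` contains the
values of the variable `i` at all maximisers, `B` is the set of the indices for which maximisers are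
moved away from the lower boundary. -/
theorem max_principle [Finite ι] (J B : Set ι) {xs : ι → ℝ} (hf : ContinuousOn f (Icc lo hi))
    (hxs : ∀ i, xs i ∈ Ioc (lo i) (hi i)) {g : ι → ℝ → ℝ} {C : ι → Set ℝ}
    (hg : ∀ i ∈ J, StrictMonoOn (g i) (C i))
    (hC : ∀ y ∈ Icc lo hi, IsMaxOn f (Icc lo hi) y → (∀ i ∈ B, lo i < y i) → ∀ i ∈ J, y i ∈ C i)
    (hCs : ∀ i ∈ J, xs i ∈ C i)
    (hbd : ∀ y ∈ Icc lo hi, IsMaxOn f (Icc lo hi) y → ∀ i ∈ B, y i = lo i →
      ∀ᶠ s in 𝓝[>] (lo i), f y ≤ f (update y i s))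
    (hJ : ∀ y ∈ Icc lo hi, IsMaxOn f (Icc lo hi) y → (∀ i ∈ B, lo i < y i) → (∀ i ∈ J, y i = xs i) →
      y = xs)
    (hL : ∀ y ∈ Icc lo hi, IsMaxOn f (Icc lo hi) y → (∀ i ∈ B, lo i < y i) → ∀ i ∈ J, xs i < y i →
      (∀ j ∈ J, |g j (y j) - g j (xs j)| ≤ g i (y i) - g i (xs i)) →
      ∃ d < 0, HasDerivWithinAt (fun s => f (update y i s)) d (Iic (y i)) (y i))
    (hR : ∀ y ∈ Icc lo hi, IsMaxOn f (Icc lo hi) y → (∀ i ∈ B, lo i < y i) → ∀ i ∈ J, y i < xs i →
      (∀ j ∈ J, |g j (y j) - g j (xs j)| ≤ g i (xs i) - g i (y i)) →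
      ∃ d > 0, HasDerivWithinAt (fun s => f (update y i s)) d (Ici (y i)) (y i)) :
    ∀ x ∈ Icc lo hi, x ≠ xs → f x < f xs := by
  refine lt_of_max_eq isCompact_Icc hf fun x hx hm => ?_
  by_contra hne
  obtain ⟨y, hy, hym, hyne, hpos⟩ := exists_max_pos B (fun i => (hxs i).1) (fun i => (hxs i).2) hbd
    x hx hm hne
  have hy' : ∀ i ∈ J, y i ∈ C i := hC y hy hym hpos
  have hex : ∃ i ∈ J, y i ≠ xs i := by
    by_contra hcon
    push Not at hcon
    exact hyne (hJ y hy hym hpos hcon)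
  obtain ⟨i, hiJ, hi1, hi2⟩ := exists_max_gauge J hg hy' hCs hex
  rcases lt_or_gt_of_ne hi1 with h | h
  · have h1 := hg i hiJ (hy' i hiJ) (hCs i hiJ) h
    rw [abs_sub_comm (g i (y i)), abs_of_pos (sub_pos.2 h1)] at hi2
    obtain ⟨d, hd, hder⟩ := hR y hy hym hpos i hiJ h hi2
    exact absurd (max_right hy hym (h.trans_le (hxs i).2) hder) (not_le.2 hd)
  · have h1 := hg i hiJ (hCs i hiJ) (hy' i hiJ) h
    rw [abs_of_pos (sub_pos.2 h1)] at hi2
    obtain ⟨d, hd, hder⟩ := hL y hy hym hpos i hiJ h hi2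
    exact absurd (max_left hy hym ((hxs i).1.trans h) hder) (not_le.2 hd)

/-- at an interior maximiser the second derivative is `≤ 0` -/
theorem max_second {x : ι → ℝ} (hx : x ∈ Icc lo hi) (hm : IsMaxOn f (Icc lo hi) x) {i : ι}
    (h1 : lo i < x i) (h2 : x i < hi i) {F' : ℝ → ℝ} {d : ℝ}
    (hd : ∀ᶠ s in 𝓝 (x i), HasDerivAt (fun s => f (update x i s)) (F' s) s)
    (hd2 : HasDerivAt F' d (x i)) : d ≤ 0 := by
  have hF0 : F' (x i) = 0 := max_deriv hx hm h1 h2 hd.self_of_nhds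
  by_contra hcon
  push Not at hcon
  have h3 := (hasDerivWithinAt_iff_tendsto_slope' (s := Ioi (x i)) (by simp)).1
    hd2.hasDerivWithinAt
  have h4 : ∀ᶠ s in 𝓝[>] (x i), 0 < slope F' (x i) s := h3.eventually (lt_mem_nhds hcon)
  have h5 : ∀ᶠ s in 𝓝[>] (x i), HasDerivAt (fun s => f (update x i s)) (F' s) s :=
    hd.filter_mono nhdsWithin_le_nhds
  obtain ⟨r, hr, hr2⟩ := mem_nhdsGT_iff_exists_Ioo_subset.1 (h4.and h5)
  have hr' : x i < min r (hi i) := lt_min hr h2
  obtain ⟨s, hs1, hs2⟩ := exists_between hr'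
  have hmono : StrictMonoOn (fun s => f (update x i s)) (Icc (x i) s) := by
    refine strictMonoOn_of_deriv_pos (convex_Icc _ _) ?_ ?_
    · intro y hy
      rcases eq_or_lt_of_le hy.1 with h | h
      · rw [← h]
        exact hd.self_of_nhds.continuousAt.continuousWithinAt
      · exact (hr2 ⟨h, hy.2.trans_lt (hs2.trans_le (min_le_left _ _))⟩).2.continuousAt.continuousWithinAt
    · rw [interior_Icc]
      intro y hy
      have h6 := hr2 ⟨hy.1, hy.2.trans (hs2.trans_le (min_le_left _ _))⟩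
      rw [h6.2.deriv]
      have h7 : 0 < slope F' (x i) y := h6.1
      rw [slope_def_field, hF0, sub_zero] at h7
      have h8 : 0 < y - x i := sub_pos.2 hy.1
      exact (div_pos_iff_of_pos_right h8).1 h7
  have h9 := hmono (left_mem_Icc.2 hs1.le) (right_mem_Icc.2 hs1.le) hs1
  simp only [update_eq_self] at h9
  have h10 : f (update x i s) ≤ f x :=
    hm (update_mem_box hx ((hx.1 i).trans hs1.le) (hs2.le.trans (min_le_right _ _)))
  linarith only [h9, h10]

end box

/-! ### the gauge -/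

/-- the gauge `log tan (π x / 2)` -/
noncomputable def gh (x : ℝ) : ℝ := Real.log (Real.tan (Real.pi * x / 2))

/-- its inverse -/
noncomputable def ghi (y : ℝ) : ℝ := 2 / Real.pi * Real.arctan (Real.exp y)

theorem ghi_mem (y : ℝ) : ghi y ∈ Ioo (0 : ℝ) 1 := by
  have h1 := Real.pi_pos
  have h2 := Real.arctan_lt_pi_div_two (Real.exp y)
  have h3 : 0 < Real.arctan (Real.exp y) := Real.arctan_pos.2 (Real.exp_pos y)
  unfold ghi
  constructor
  · positivity
  · calc 2 / Real.pi * Real.arctan (Real.exp y) < 2 / Real.pi * (Real.pi / 2) := by gcongr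
      _ = 1 := by field_simp

theorem ghi_gh {x : ℝ} (hx : x ∈ Ioo (0 : ℝ) 1) : ghi (gh x) = x := by
  have h1 := Real.pi_pos
  have h2 : 0 < Real.pi * x / 2 := by have := hx.1; positivity
  have h3 : Real.pi * x / 2 < Real.pi / 2 := by nlinarith only [h1, hx, hx.2]
  unfold ghi gh
  rw [Real.exp_log (Real.tan_pos_of_pos_of_lt_pi_div_two h2 h3), Real.arctan_tan (by linarith only [h2, h3]) h3]
  field_simp

theorem gh_ghi (y : ℝ) : gh (ghi y) = y := by
  unfold gh ghi
  have h1 := Real.pi_pos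
  have : Real.pi * (2 / Real.pi * Real.arctan (Real.exp y)) / 2 = Real.arctan (Real.exp y) := by
    field_simp
  rw [this, Real.tan_arctan, Real.log_exp]

theorem strictMono_ghi : StrictMono ghi := by
  intro a b hab
  unfold ghi
  have h1 := Real.pi_pos
  have := Real.arctan_strictMono (Real.exp_strictMono hab)
  gcongr

theorem gh_lt {x y : ℝ} (hx : x ∈ Ioo (0 : ℝ) 1) (hy : y ∈ Ioo (0 : ℝ) 1) :
    gh x < gh y ↔ x < y := by
  rw [← strictMono_ghi.lt_iff_lt, ghi_gh hx, ghi_gh hy]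

theorem strictMonoOn_gh : StrictMonoOn gh (Ioo 0 1) := fun _ hx _ hy h => (gh_lt hx hy).2 h

theorem hasDerivAt_ghi (y : ℝ) : HasDerivAt ghi (Real.sin (Real.pi * ghi y) / Real.pi) y := by
  have h1 := Real.pi_pos
  have h := ((Real.hasDerivAt_arctan (Real.exp y)).comp y (Real.hasDerivAt_exp y)).const_mul
    (2 / Real.pi)
  refine h.congr_deriv ?_
  have e1 : Real.pi * ghi y = 2 * Real.arctan (Real.exp y) := by unfold ghi; field_simp
  rw [e1, Real.sin_two_mul, Real.sin_arctan, Real.cos_arctan]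
  have h2 : 0 < 1 + Real.exp y ^ 2 := by positivity
  have h3 : √(1 + Real.exp y ^ 2) * √(1 + Real.exp y ^ 2) = 1 + Real.exp y ^ 2 :=
    Real.mul_self_sqrt h2.le
  have h4 : √(1 + Real.exp y ^ 2) ≠ 0 := (Real.sqrt_pos.2 h2).ne'
  field_simp
  rw [sq (√(1 + Real.exp y ^ 2)), h3]

/-- the curve from `a` to `x` -/
noncomputable def gc (a x θ : ℝ) : ℝ := ghi ((1 - θ) * gh a + θ * gh x)

theorem gc_zero {a x : ℝ} (ha : a ∈ Ioo (0 : ℝ) 1) : gc a x 0 = a := by
  unfold gc
  rw [sub_zero, one_mul, zero_mul, add_zero, ghi_gh ha]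

theorem gc_one {a x : ℝ} (hx : x ∈ Ioo (0 : ℝ) 1) : gc a x 1 = x := by
  unfold gc
  rw [sub_self, one_mul, zero_mul, zero_add, ghi_gh hx]

theorem gc_mem (a x θ : ℝ) : gc a x θ ∈ Ioo (0 : ℝ) 1 := ghi_mem _

theorem hasDerivAt_gc (a x θ : ℝ) :
    HasDerivAt (gc a x) ((gh x - gh a) * (Real.sin (Real.pi * gc a x θ) / Real.pi)) θ := by
  have h1 : HasDerivAt (fun θ : ℝ => (1 - θ) * gh a + θ * gh x) (-1 * gh a + 1 * gh x) θ :=
    (((hasDerivAt_id' θ).const_sub 1).mul_const _).add ((hasDerivAt_id' θ).mul_const _)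
  have h2 := (hasDerivAt_ghi ((1 - θ) * gh a + θ * gh x)).comp θ h1
  refine h2.congr_deriv ?_
  unfold gc
  ring

theorem continuous_gc (a x : ℝ) : Continuous (gc a x) :=
  continuous_iff_continuousAt.2 fun θ => (hasDerivAt_gc a x θ).continuousAt

theorem gc_self {a : ℝ} (ha : a ∈ Ioo (0 : ℝ) 1) (θ : ℝ) : gc a a θ = a := by
  unfold gc
  rw [show (1 - θ) * gh a + θ * gh a = gh a by ring, ghi_gh ha]

/-- between the end points, increasing case -/
theorem gc_mem_Icc {a x θ : ℝ} (ha : a ∈ Ioo (0 : ℝ) 1) (hx : x ∈ Ioo (0 : ℝ) 1) (h : a ≤ x)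
    (h0 : 0 ≤ θ) (h1 : θ ≤ 1) : gc a x θ ∈ Icc a x := by
  have h2 : gh a ≤ gh x := strictMonoOn_gh.monotoneOn ha hx h
  constructor
  · calc a = ghi (gh a) := (ghi_gh ha).symm
      _ ≤ _ := strictMono_ghi.monotone (by nlinarith only [h0, h2])
  · calc _ ≤ ghi (gh x) := strictMono_ghi.monotone (by nlinarith only [h1, h2])
      _ = x := ghi_gh hx

/-- between the end points, decreasing case -/
theorem gc_mem_Icc' {a x θ : ℝ} (ha : a ∈ Ioo (0 : ℝ) 1) (hx : x ∈ Ioo (0 : ℝ) 1) (h : x ≤ a)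
    (h0 : 0 ≤ θ) (h1 : θ ≤ 1) : gc a x θ ∈ Icc x a := by
  have h2 : gh x ≤ gh a := strictMonoOn_gh.monotoneOn hx ha h
  constructor
  · calc x = ghi (gh x) := (ghi_gh hx).symm
      _ ≤ _ := strictMono_ghi.monotone (by nlinarith only [h1, h2])
  · calc _ ≤ ghi (gh a) := strictMono_ghi.monotone (by nlinarith only [h0, h2])
      _ = a := ghi_gh ha

theorem gc_mem_uIcc {a x θ : ℝ} (ha : a ∈ Ioo (0 : ℝ) 1) (hx : x ∈ Ioo (0 : ℝ) 1)
    (h0 : 0 ≤ θ) (h1 : θ ≤ 1) : gc a x θ ∈ uIcc a x := by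
  rcases le_total a x with h | h
  · rw [uIcc_of_le h]; exact gc_mem_Icc ha hx h h0 h1
  · rw [uIcc_of_ge h]; exact gc_mem_Icc' ha hx h h0 h1

/-- the gauge displacement along the curve -/
theorem gh_gc (a x θ : ℝ) : gh (gc a x θ) = (1 - θ) * gh a + θ * gh x := gh_ghi _

end Pool.Agent.Work.MP_b30479_gtS.G2

end

section

/-!
# The path map: one-sided derivatives of the growth rate, the saddle
-/

namespace Pool.Agent.Work.MP_b30479_gtS.G2

open Finset VOL Filter Topology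

variable {D Z K : Type} [Fintype D] [Fintype Z] [Fintype K]

/-! ### linearity of `DV` -/

omit [Fintype K] in
theorem aff_add (S : Dat D Z K) (k : K) (X Y : D ⊕ Z → ℂ) :
    S.aff k (X + Y) = S.aff k X + S.aff k Y := by
  unfold Dat.aff
  simp [mul_add, Finset.sum_add_distrib]

omit [Fintype K] in
theorem aff_smul (S : Dat D Z K) (k : K) (a : ℝ) (X : D ⊕ Z → ℂ) :
    S.aff k (a • X) = a * S.aff k X := by
  unfold Dat.aff
  rw [Finset.mul_sum]
  refine Finset.sum_congr rfl fun i _ => ?_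
  simp only [Pi.smul_apply, Complex.real_smul]
  ring

omit [Fintype K] in
theorem dq_add (S : Dat D Z K) (z X Y : D ⊕ Z → ℂ) : S.dqv z (X + Y) = S.dqv z X + S.dqv z Y := by
  unfold Dat.dqv
  have e1 : ∀ i j, S.q i j * ((X + Y) i * z j + z i * (X + Y) j) =
      S.q i j * (X i * z j + z i * X j) + S.q i j * (Y i * z j + z i * Y j) := fun i j => by
    simp only [Pi.add_apply]
    ring
  have e2 : ∀ i, S.r i * (X + Y) i = S.r i * X i + S.r i * Y i := fun i => by
    simp only [Pi.add_apply]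
    ring
  have e3 : ∀ v, 2 * Real.pi * Complex.I * (S.b v * z (.inr v) + 1) * (X + Y) (.inr v) =
      2 * Real.pi * Complex.I * (S.b v * z (.inr v) + 1) * X (.inr v) +
      2 * Real.pi * Complex.I * (S.b v * z (.inr v) + 1) * Y (.inr v) := fun v => by
    simp only [Pi.add_apply]
    ring
  simp_rw [e1, e2, e3, Finset.sum_add_distrib]
  ring

omit [Fintype K] in
theorem dq_smul (S : Dat D Z K) (z : D ⊕ Z → ℂ) (a : ℝ) (X : D ⊕ Z → ℂ) :
    S.dqv z (a • X) = a * S.dqv z X := by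
  unfold Dat.dqv
  have e1 : ∀ i j, S.q i j * ((a • X) i * z j + z i * (a • X) j) =
      a * (S.q i j * (X i * z j + z i * X j)) := fun i j => by
    simp only [Pi.smul_apply, Complex.real_smul]
    ring
  have e2 : ∀ i, S.r i * (a • X) i = a * (S.r i * X i) := fun i => by
    simp only [Pi.smul_apply, Complex.real_smul]
    ring
  have e3 : ∀ v, 2 * Real.pi * Complex.I * (S.b v * z (.inr v) + 1) * (a • X) (.inr v) =
      a * (2 * Real.pi * Complex.I * (S.b v * z (.inr v) + 1) * X (.inr v)) := fun v => by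
    simp only [Pi.smul_apply, Complex.real_smul]
    ring
  simp_rw [e1, e2, e3, ← Finset.mul_sum]
  ring

theorem DV_add (S : Dat D Z K) (z X Y : D ⊕ Z → ℂ) : S.DV z (X + Y) = S.DV z X + S.DV z Y := by
  unfold Dat.DV
  rw [dq_add, Complex.add_re]
  simp_rw [aff_add, Complex.add_re, Complex.add_im]
  have : ∀ k, ((S.aff k X).re + (S.aff k Y).re) * LL (S.form k z) +
      ((S.aff k X).im + (S.aff k Y).im) * YY (S.form k z) =
      ((S.aff k X).re * LL (S.form k z) + (S.aff k X).im * YY (S.form k z)) +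
      ((S.aff k Y).re * LL (S.form k z) + (S.aff k Y).im * YY (S.form k z)) := fun k => by ring
  simp_rw [this, Finset.sum_add_distrib]
  ring

theorem DV_smul (S : Dat D Z K) (z : D ⊕ Z → ℂ) (a : ℝ) (X : D ⊕ Z → ℂ) :
    S.DV z (a • X) = a * S.DV z X := by
  unfold Dat.DV
  rw [dq_smul, Complex.re_ofReal_mul]
  simp_rw [aff_smul, Complex.re_ofReal_mul, Complex.im_ofReal_mul]
  rw [mul_add, Finset.mul_sum]
  congr 1
  refine Finset.sum_congr rfl fun k _ => ?_
  ring

variable [DecidableEq D] [DecidableEq Z]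

/-- the derivative of `S.V` in the variable `j`, horizontal direction -/
noncomputable def Dat.d1 (S : Dat D Z K) (z : D ⊕ Z → ℂ) (j : D ⊕ Z) : ℝ := S.DV z (Pi.single j 1)

/-- the derivative of `S.V` in the variable `j`, vertical direction -/
noncomputable def Dat.d2 (S : Dat D Z K) (z : D ⊕ Z → ℂ) (j : D ⊕ Z) : ℝ :=
  S.DV z (Pi.single j Complex.I)

theorem DV_single (S : Dat D Z K) (z : D ⊕ Z → ℂ) (j : D ⊕ Z) (m : ℝ) :
    S.DV z (Pi.single j (1 + m * Complex.I)) = S.d1 z j + m * S.d2 z j := by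
  have e : (Pi.single j (1 + m * Complex.I) : D ⊕ Z → ℂ) =
      Pi.single j (1 : ℂ) + m • (Pi.single j Complex.I : D ⊕ Z → ℂ) := by
    funext i
    by_cases h : i = j
    · subst h; simp
    · simp [Pi.single_eq_of_ne h]
  rw [e, DV_add, DV_smul]
  rfl

omit [Fintype K] in
theorem aff_single (S : Dat D Z K) (k : K) (j : D ⊕ Z) (c : ℂ) :
    S.aff k (Pi.single j c) = S.A k j * c := by
  unfold Dat.aff
  rw [Finset.sum_eq_single j]
  · simp
  · intro i _ hi
    rw [Pi.single_eq_of_ne hi, mul_zero]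
  · intro h
    exact absurd (Finset.mem_univ _) h

omit [Fintype D] [Fintype Z] [DecidableEq D] [DecidableEq Z] in
theorem zx_zero (z X : D ⊕ Z → ℂ) : zx z X 0 = z := by
  funext i
  simp [zx]

/-- derivative of `S.V` in a coordinate direction -/
theorem hasDerivAt_V_single (S : Dat D Z K) (z : D ⊕ Z → ℂ) (j : D ⊕ Z) (m : ℝ)
    (h1 : ∀ k, S.A k j ≠ 0 → Complex.sin (Real.pi * S.form k z) ≠ 0)
    (h2 : m ≠ 0 → ∀ k, S.A k j ≠ 0 → (S.form k z).im ≠ 0 ∨ S.form k z ∈ strip) :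
    HasDerivAt (fun s : ℝ => S.V (zx z (Pi.single j (1 + m * Complex.I)) s))
      (S.DV z (Pi.single j (1 + m * Complex.I))) 0 := by
  by_cases hm : m = 0
  · subst hm
    have e1 : (Pi.single j (1 + (0 : ℝ) * Complex.I) : D ⊕ Z → ℂ) =
        fun i => ((Pi.single j 1 : D ⊕ Z → ℝ) i : ℂ) := by
      funext i
      by_cases h : i = j
      · subst h; simp
      · simp [Pi.single_eq_of_ne h]
    have h3 := hasDerivAt_VR S z (Pi.single j 1) 0 (by
      intro k hk
      rw [zr_eq, ← e1, zx_zero]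
      apply h1 k
      intro h
      apply hk
      have := aff_real S k (Pi.single j 1)
      rw [← e1, aff_single, h] at this
      simpa using this.symm)
    have e2 : ∀ s : ℝ, zr z (Pi.single j 1) s = zx z (Pi.single j (1 + (0 : ℝ) * Complex.I)) s := by
      intro s
      rw [zr_eq, ← e1]
    simp_rw [e2, zx_zero] at h3
    refine h3.congr_deriv ?_
    unfold Dat.DR Dat.DV
    rw [e1]
    simp only [aff_real, Complex.ofReal_re, Complex.ofReal_im, zero_mul, add_zero]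
  · have h3 := hasDerivAt_V S z (Pi.single j (1 + m * Complex.I)) 0 (by
      intro k hk
      rw [zx_zero]
      apply h2 hm k
      intro h
      apply hk
      rw [aff_single, h]
      simp)
    rw [zx_zero] at h3
    exact h3

/-! ### paths -/

omit [Fintype D] [Fintype Z] [DecidableEq D] [DecidableEq Z] in
/-- the height functions of the paths -/
noncomputable def Par.hgt (P : Par D) (zs : D ⊕ Z → ℂ) : D ⊕ Z → ℝ → ℝ
  | .inl i, x => (zs (.inl i)).im * tr 0 (P.XM i) (P.cl i) (P.cr i) x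
  | .inr v, σ => (zs (.inr v)).im * LT.th σ

omit [Fintype D] [Fintype Z] [DecidableEq D] [DecidableEq Z] in
/-- the point on the product of the paths -/
noncomputable def Par.pth (P : Par D) (zs : D ⊕ Z → ℂ) (x : D ⊕ Z → ℝ) : D ⊕ Z → ℂ :=
  fun j => (x j : ℂ) + (P.hgt zs j (x j) : ℂ) * Complex.I

/-- the slope to the right -/
noncomputable def Par.sR (P : Par D) (zs : D ⊕ Z → ℂ) : D ⊕ Z → ℝ → ℝ
  | .inl i, x => (zs (.inl i)).im * if x < P.cl i then 1 / P.cl i else
      if x < P.XM i - P.cr i then 0 else -(1 / P.cr i)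
  | .inr v, σ => (zs (.inr v)).im * if σ < -(1 / 4) then 4 else if σ < 1 / 4 then 0 else -4

/-- the slope to the left -/
noncomputable def Par.sL (P : Par D) (zs : D ⊕ Z → ℂ) : D ⊕ Z → ℝ → ℝ
  | .inl i, x => (zs (.inl i)).im * if x ≤ P.cl i then 1 / P.cl i else
      if x ≤ P.XM i - P.cr i then 0 else -(1 / P.cr i)
  | .inr v, σ => (zs (.inr v)).im * if σ ≤ -(1 / 4) then 4 else if σ ≤ 1 / 4 then 0 else -4

/-- lower ends -/
noncomputable def plo (D Z : Type) : D ⊕ Z → ℝ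
  | .inl _ => 0
  | .inr _ => -(1 / 2)

/-- upper ends -/
noncomputable def Par.hi (P : Par D) : D ⊕ Z → ℝ
  | .inl i => P.XM i
  | .inr _ => 1 / 2

theorem tr_a {b c c' x : ℝ} (hc : 0 < c) (hc' : 0 < c') (hb : c + c' < b) (h0 : 0 ≤ x)
    (h1 : x ≤ c) : tr 0 b c c' x = x / c := by
  unfold tr
  rw [sub_zero]
  have h2 : x / c ≤ 1 := (div_le_one hc).2 h1
  have h3 : 1 ≤ (b - x) / c' := (one_le_div hc').2 (by linarith only [hb, h1])
  rw [min_eq_left (h2.trans h3), min_eq_right h2, max_eq_right (div_nonneg h0 hc.le)]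

theorem tr_b {b c c' x : ℝ} (hc : 0 < c) (hc' : 0 < c') (h0 : c ≤ x)
    (h1 : x ≤ b - c') : tr 0 b c c' x = 1 := by
  unfold tr
  rw [sub_zero]
  have h2 : 1 ≤ x / c := (one_le_div hc).2 h0
  have h3 : 1 ≤ (b - x) / c' := (one_le_div hc').2 (by linarith only [h1])
  rw [min_eq_left (le_min h2 h3), max_eq_right zero_le_one]

theorem tr_c {b c c' x : ℝ} (hc : 0 < c) (hc' : 0 < c') (hb : c + c' < b) (h0 : b - c' ≤ x)
    (h1 : x ≤ b) : tr 0 b c c' x = (b - x) / c' := by
  unfold tr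
  rw [sub_zero]
  have h2 : (b - x) / c' ≤ 1 := (div_le_one hc').2 (by linarith only [h0])
  have h3 : 1 ≤ x / c := (one_le_div hc).2 (by linarith only [hb, h0])
  rw [min_eq_right (h2.trans h3), min_eq_right h2, max_eq_right (div_nonneg (by linarith only [h1]) hc'.le)]

/-- conditions on the parameters of the paths -/
def Par.Good (P : Par D) : Prop := ∀ i, 0 < P.cl i ∧ 0 < P.cr i ∧ P.cl i + P.cr i < P.XM i

omit [Fintype D] [Fintype Z] [DecidableEq D] [DecidableEq Z] in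
/-- the height is linear to the right of every point -/
theorem hgt_right {P : Par D} (hP : P.Good) (zs : D ⊕ Z → ℂ) (j : D ⊕ Z) {x : ℝ}
    (h0 : plo D Z j ≤ x) (h1 : x < P.hi j) :
    ∃ r > x, ∀ s ∈ Set.Icc x r, P.hgt zs j s = P.hgt zs j x + (s - x) * P.sR zs j x := by
  rcases j with i | v
  · obtain ⟨hc, hc', hb⟩ := hP i
    simp only [plo, Par.hi, Par.hgt, Par.sR] at *
    by_cases hx1 : x < P.cl i
    · refine ⟨P.cl i, hx1, fun s hs => ?_⟩
      rw [tr_a hc hc' hb (h0.trans hs.1) hs.2, tr_a hc hc' hb h0 hx1.le, if_pos hx1]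
      ring
    · push Not at hx1
      by_cases hx2 : x < P.XM i - P.cr i
      · refine ⟨P.XM i - P.cr i, hx2, fun s hs => ?_⟩
        rw [tr_b hc hc' (hx1.trans hs.1) hs.2, tr_b hc hc' hx1 hx2.le, if_neg (not_lt.2 hx1),
          if_pos hx2]
        ring
      · push Not at hx2
        refine ⟨P.XM i, h1, fun s hs => ?_⟩
        rw [tr_c hc hc' hb (hx2.trans hs.1) hs.2, tr_c hc hc' hb hx2 h1.le, if_neg (not_lt.2 hx1),
          if_neg (not_lt.2 hx2)]
        field_simp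
        ring
  · simp only [plo, Par.hi, Par.hgt, Par.sR] at *
    unfold LT.th
    by_cases hx1 : x < -(1 / 4)
    · refine ⟨-(1 / 4), hx1, fun s hs => ?_⟩
      rw [abs_of_nonpos (by linarith only [hs, hs.2]), abs_of_nonpos (by linarith only [h1, hx1]), if_pos hx1,
        min_eq_right (by linarith only [hs, hs.2]), min_eq_right (by linarith only [hx1])]
      ring
    · push Not at hx1
      by_cases hx2 : x < 1 / 4
      · refine ⟨1 / 4, hx2, fun s hs => ?_⟩
        have e1 : |s| ≤ 1 / 4 := abs_le.2 ⟨by linarith only [hx1, hs, hs.1], hs.2⟩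
        have e2 : |x| ≤ 1 / 4 := abs_le.2 ⟨by linarith only [hx1], hx2.le⟩
        rw [min_eq_left (by linarith only [e1]), min_eq_left (by linarith only [e2]), if_neg (not_lt.2 hx1), if_pos hx2]
        ring
      · push Not at hx2
        refine ⟨1 / 2, h1, fun s hs => ?_⟩
        rw [abs_of_nonneg (by linarith only [h1, hx2, hs, hs.1]), abs_of_nonneg (by linarith only [h1, hx2]), if_neg (not_lt.2 hx1),
          if_neg (not_lt.2 hx2), min_eq_right (by linarith only [hx2, hs, hs.1]), min_eq_right (by linarith only [hx2])]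
        ring

omit [Fintype D] [Fintype Z] [DecidableEq D] [DecidableEq Z] in
/-- the height is linear to the left of every point -/
theorem hgt_left {P : Par D} (hP : P.Good) (zs : D ⊕ Z → ℂ) (j : D ⊕ Z) {x : ℝ}
    (h0 : plo D Z j < x) (h1 : x ≤ P.hi j) :
    ∃ r < x, ∀ s ∈ Set.Icc r x, P.hgt zs j s = P.hgt zs j x + (s - x) * P.sL zs j x := by
  rcases j with i | v
  · obtain ⟨hc, hc', hb⟩ := hP i
    simp only [plo, Par.hi, Par.hgt, Par.sL] at *
    by_cases hx1 : x ≤ P.cl i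
    · refine ⟨0, h0, fun s hs => ?_⟩
      rw [tr_a hc hc' hb hs.1 (hs.2.trans hx1), tr_a hc hc' hb h0.le hx1, if_pos hx1]
      ring
    · push Not at hx1
      by_cases hx2 : x ≤ P.XM i - P.cr i
      · refine ⟨P.cl i, hx1, fun s hs => ?_⟩
        rw [tr_b hc hc' hs.1 (hs.2.trans hx2), tr_b hc hc' hx1.le hx2, if_neg (not_le.2 hx1),
          if_pos hx2]
        ring
      · push Not at hx2
        refine ⟨P.XM i - P.cr i, hx2, fun s hs => ?_⟩
        rw [tr_c hc hc' hb hs.1 (hs.2.trans h1), tr_c hc hc' hb hx2.le h1, if_neg (not_le.2 hx1),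
          if_neg (not_le.2 hx2)]
        field_simp
        ring
  · simp only [plo, Par.hi, Par.hgt, Par.sL] at *
    unfold LT.th
    by_cases hx1 : x ≤ -(1 / 4)
    · refine ⟨-(1 / 2), h0, fun s hs => ?_⟩
      rw [abs_of_nonpos (by linarith only [h0, hx1, hs, hs.2]), abs_of_nonpos (by linarith only [h0, hx1]), if_pos hx1,
        min_eq_right (by linarith only [hx1, hs, hs.2]), min_eq_right (by linarith only [hx1])]
      ring
    · push Not at hx1
      by_cases hx2 : x ≤ 1 / 4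
      · refine ⟨-(1 / 4), hx1, fun s hs => ?_⟩
        have e1 : |s| ≤ 1 / 4 := abs_le.2 ⟨by linarith only [hs, hs.1], by linarith only [hx2, hs, hs.2]⟩
        have e2 : |x| ≤ 1 / 4 := abs_le.2 ⟨by linarith only [hx1], hx2⟩
        rw [min_eq_left (by linarith only [e1]), min_eq_left (by linarith only [e2]), if_neg (not_le.2 hx1), if_pos hx2]
        ring
      · push Not at hx2
        refine ⟨1 / 4, hx2, fun s hs => ?_⟩
        rw [abs_of_nonneg (by linarith only [hs, hs.1]), abs_of_nonneg (by linarith only [hx2]), if_neg (not_le.2 hx1),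
          if_neg (not_le.2 hx2), min_eq_right (by linarith only [hs, hs.1]), min_eq_right (by linarith only [hx2])]
        ring

omit [Fintype D] [Fintype Z] in
theorem pth_update (P : Par D) (zs : D ⊕ Z → ℂ) (x : D ⊕ Z → ℝ) (j : D ⊕ Z) {s m : ℝ}
    (h : P.hgt zs j s = P.hgt zs j (x j) + (s - x j) * m) :
    P.pth zs (Function.update x j s) = zx (P.pth zs x) (Pi.single j (1 + m * Complex.I)) (s - x j) := by
  funext i
  unfold Par.pth zx
  by_cases hi : i = j
  · subst hi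
    rw [Function.update_self, h, Pi.single_eq_same]
    push_cast
    ring
  · rw [Function.update_of_ne hi, Pi.single_eq_of_ne hi]
    simp

/-- **Right derivative of the growth rate on the product of the paths.** -/
theorem hasDerivWithinAt_V_right (S : Dat D Z K) {P : Par D} (hP : P.Good) (zs : D ⊕ Z → ℂ)
    {x : D ⊕ Z → ℝ} {j : D ⊕ Z} (h0 : plo D Z j ≤ x j) (hx : x j < P.hi j)
    (h1 : ∀ k, S.A k j ≠ 0 → Complex.sin (Real.pi * S.form k (P.pth zs x)) ≠ 0)
    (h2 : P.sR zs j (x j) ≠ 0 → ∀ k, S.A k j ≠ 0 → (S.form k (P.pth zs x)).im ≠ 0 ∨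
      S.form k (P.pth zs x) ∈ strip) :
    HasDerivWithinAt (fun s => S.V (P.pth zs (Function.update x j s)))
      (S.d1 (P.pth zs x) j + P.sR zs j (x j) * S.d2 (P.pth zs x) j) (Set.Ici (x j)) (x j) := by
  obtain ⟨r, hr, hlin⟩ := hgt_right hP zs j h0 hx
  have h3 := hasDerivAt_V_single S (P.pth zs x) j (P.sR zs j (x j)) h1 h2
  rw [DV_single] at h3
  rw [← sub_self (x j)] at h3
  have h5 := h3.comp_sub_const (x j) (x j)
  refine (h5.hasDerivWithinAt (s := Set.Ici (x j))).congr_of_eventuallyEq ?_ ?_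
  · have : Set.Icc (x j) r ∈ 𝓝[≥] (x j) := Icc_mem_nhdsGE hr
    filter_upwards [this] with s hs
    rw [pth_update P zs x j (hlin s hs)]
  · rw [pth_update P zs x j (hlin _ ⟨le_rfl, hr.le⟩)]

/-- **Left derivative of the growth rate on the product of the paths.** -/
theorem hasDerivWithinAt_V_left (S : Dat D Z K) {P : Par D} (hP : P.Good) (zs : D ⊕ Z → ℂ)
    {x : D ⊕ Z → ℝ} {j : D ⊕ Z} (h0 : plo D Z j < x j) (hx : x j ≤ P.hi j)
    (h1 : ∀ k, S.A k j ≠ 0 → Complex.sin (Real.pi * S.form k (P.pth zs x)) ≠ 0)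
    (h2 : P.sL zs j (x j) ≠ 0 → ∀ k, S.A k j ≠ 0 → (S.form k (P.pth zs x)).im ≠ 0 ∨
      S.form k (P.pth zs x) ∈ strip) :
    HasDerivWithinAt (fun s => S.V (P.pth zs (Function.update x j s)))
      (S.d1 (P.pth zs x) j + P.sL zs j (x j) * S.d2 (P.pth zs x) j) (Set.Iic (x j)) (x j) := by
  obtain ⟨r, hr, hlin⟩ := hgt_left hP zs j h0 hx
  have h3 := hasDerivAt_V_single S (P.pth zs x) j (P.sL zs j (x j)) h1 h2
  rw [DV_single] at h3
  rw [← sub_self (x j)] at h3
  have h5 := h3.comp_sub_const (x j) (x j)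
  refine (h5.hasDerivWithinAt (s := Set.Iic (x j))).congr_of_eventuallyEq ?_ ?_
  · have : Set.Icc r (x j) ∈ 𝓝[≤] (x j) := Icc_mem_nhdsLE hr
    filter_upwards [this] with s hs
    rw [pth_update P zs x j (hlin s hs)]
  · rw [pth_update P zs x j (hlin _ ⟨hr.le, le_rfl⟩)]

/-! ### the saddle -/

omit [DecidableEq D] [DecidableEq Z] in
/-- the derivative of `S.V` is the real part of the derivative of the potential -/
theorem DV_eq_dT (S : Dat D Z K) {z : D ⊕ Z → ℂ} (hin : ∀ k, S.form k z ∈ strip) (X : D ⊕ Z → ℂ) :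
    S.DV z X = (∑ i, X i * S.dT z i).re := by
  have h1 : ∑ i, X i * S.dT z i = S.dqv z X + ∑ k, S.aff k X * ph (S.form k z) := by
    unfold Dat.dT Dat.dqv Dat.aff
    simp only [mul_add, sum_add_distrib]
    have a1 : ∑ i, X i * ∑ k, (S.A k i : ℂ) * ph (S.form k z) =
        ∑ k, (∑ i, (S.A k i : ℂ) * X i) * ph (S.form k z) := by
      simp only [mul_sum]
      rw [sum_comm]
      apply sum_congr rfl
      intro k _
      rw [sum_mul]
      apply sum_congr rfl
      intro i _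
      ring
    have a2 : ∑ i, X i * Sum.elim (fun _ => 0) (fun v => 2 * Real.pi * Complex.I *
        (S.b v * z (.inr v) + 1)) i = ∑ v, 2 * Real.pi * Complex.I * (S.b v * z (.inr v) + 1) *
        X (.inr v) := by
      rw [Fintype.sum_sum_type]
      simp only [Sum.elim_inl, mul_zero, sum_const_zero, zero_add, Sum.elim_inr]
      apply sum_congr rfl
      intro v _
      ring
    have a3 : ∑ i, X i * ∑ j, (S.q i j + S.q j i) * z j =
        ∑ i, ∑ j, S.q i j * (X i * z j) + ∑ i, ∑ j, S.q i j * (z i * X j) := by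
      simp only [mul_sum]
      have b1 : ∀ i j, X i * ((S.q i j + S.q j i) * z j) =
          S.q i j * (X i * z j) + S.q j i * (z j * X i) := fun i j => by ring
      simp only [b1, sum_add_distrib]
      congr 1
      exact sum_comm
    rw [a1, a3]
    simp only [mul_add] at a2 ⊢
    rw [a2]
    have a4 : ∑ i, X i * S.r i = ∑ i, S.r i * X i := sum_congr rfl fun i _ => mul_comm _ _
    rw [a4]
  rw [h1, Complex.add_re, Complex.re_sum]
  unfold Dat.DV
  congr 1
  apply sum_congr rfl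
  intro k _
  rw [Complex.mul_re, ph_re, ph_im (hin k)]
  ring

omit [DecidableEq D] [DecidableEq Z] in
theorem DV_crit (S : Dat D Z K) {z : D ⊕ Z → ℂ} (hin : ∀ k, S.form k z ∈ strip)
    (hc : ∀ i, S.dT z i = 0) (X : D ⊕ Z → ℂ) : S.DV z X = 0 := by
  rw [DV_eq_dT S hin]
  simp [hc]

omit [Fintype D] [Fintype Z] [DecidableEq D] [DecidableEq Z] in
/-- the saddle is on the product of the paths -/
theorem pth_re {P : Par D} {zs : D ⊕ Z → ℂ} (hP : P.Good)
    (hD : ∀ i, P.cl i ≤ (zs (.inl i)).re ∧ (zs (.inl i)).re ≤ P.XM i - P.cr i)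
    (hZ : ∀ v, |(zs (.inr v)).re| ≤ 1 / 4) : P.pth zs (fun j => (zs j).re) = zs := by
  funext j
  unfold Par.pth
  have h1 : P.hgt zs j (zs j).re = (zs j).im := by
    rcases j with i | v
    · obtain ⟨hc, hc', hb⟩ := hP i
      simp only [Par.hgt]
      rw [tr_b hc hc' (hD i).1 (hD i).2, mul_one]
    · simp only [Par.hgt]
      unfold LT.th
      rw [min_eq_left (by linarith only [hZ, hZ v]), mul_one]
  rw [h1]
  exact Complex.re_add_im _

omit [Fintype D] [Fintype Z] [DecidableEq D] [DecidableEq Z] in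
theorem continuous_pth (P : Par D) (zs : D ⊕ Z → ℂ) : Continuous (P.pth zs) := by
  refine continuous_pi fun j => ?_
  unfold Par.pth
  rcases j with i | v
  · unfold Par.hgt tr
    fun_prop
  · unfold Par.hgt LT.th
    fun_prop

/-- the box of the parameters -/
def Par.box (P : Par D) (Z : Type) : Set (D ⊕ Z → ℝ) := Set.Icc (plo D Z) P.hi

/-- `x` is a maximiser on the product of the paths -/
def IsMx (S : Dat D Z K) (P : Par D) (zs : D ⊕ Z → ℂ) (x : D ⊕ Z → ℝ) : Prop :=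
  x ∈ P.box Z ∧ IsMaxOn (fun x => S.V (P.pth zs x)) (P.box Z) x

/-- first order condition at a maximiser, to the right -/
theorem IsMx.right {S : Dat D Z K} {P : Par D} {zs : D ⊕ Z → ℂ} {x : D ⊕ Z → ℝ}
    (h : IsMx S P zs x) (hP : P.Good) {j : D ⊕ Z} (hx : x j < P.hi j)
    (h1 : ∀ k, S.A k j ≠ 0 → Complex.sin (Real.pi * S.form k (P.pth zs x)) ≠ 0)
    (h2 : P.sR zs j (x j) ≠ 0 → ∀ k, S.A k j ≠ 0 → (S.form k (P.pth zs x)).im ≠ 0 ∨
      S.form k (P.pth zs x) ∈ strip) :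
    S.d1 (P.pth zs x) j + P.sR zs j (x j) * S.d2 (P.pth zs x) j ≤ 0 :=
  max_right h.1 h.2 hx (hasDerivWithinAt_V_right S hP zs (h.1.1 j) hx h1 h2)

/-- first order condition at a maximiser, to the left -/
theorem IsMx.left {S : Dat D Z K} {P : Par D} {zs : D ⊕ Z → ℂ} {x : D ⊕ Z → ℝ}
    (h : IsMx S P zs x) (hP : P.Good) {j : D ⊕ Z} (hx : plo D Z j < x j)
    (h1 : ∀ k, S.A k j ≠ 0 → Complex.sin (Real.pi * S.form k (P.pth zs x)) ≠ 0)
    (h2 : P.sL zs j (x j) ≠ 0 → ∀ k, S.A k j ≠ 0 → (S.form k (P.pth zs x)).im ≠ 0 ∨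
      S.form k (P.pth zs x) ∈ strip) :
    0 ≤ S.d1 (P.pth zs x) j + P.sL zs j (x j) * S.d2 (P.pth zs x) j :=
  max_left h.1 h.2 hx (hasDerivWithinAt_V_left S hP zs hx (h.1.2 j) h1 h2)

/-- **Maximum principle on the product of the paths.** -/
theorem path_dom (S : Dat D Z K) {P : Par D} (hP : P.Good) {zs : D ⊕ Z → ℂ}
    (hD : ∀ i, P.cl i < (zs (.inl i)).re ∧ (zs (.inl i)).re < P.XM i - P.cr i)
    (hZ : ∀ v, |(zs (.inr v)).re| < 1 / 4) (J B : Set (D ⊕ Z)) {g : D ⊕ Z → ℝ → ℝ}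
    {C : D ⊕ Z → Set ℝ} (hg : ∀ j ∈ J, StrictMonoOn (g j) (C j))
    (hC : ∀ y, IsMx S P zs y → (∀ i ∈ B, plo D Z i < y i) → ∀ j ∈ J, y j ∈ C j)
    (hCs : ∀ j ∈ J, (zs j).re ∈ C j)
    (hbd : ∀ y, IsMx S P zs y → ∀ i ∈ B, y i = plo D Z i → ∀ᶠ s in 𝓝[>] (plo D Z i),
      S.V (P.pth zs y) ≤ S.V (P.pth zs (Function.update y i s)))
    (hJ : ∀ y, IsMx S P zs y → (∀ i ∈ B, plo D Z i < y i) → (∀ j ∈ J, y j = (zs j).re) →
      ∀ j, y j = (zs j).re)
    (hL : ∀ y, IsMx S P zs y → (∀ i ∈ B, plo D Z i < y i) → ∀ i ∈ J, (zs i).re < y i →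
      (∀ j ∈ J, |g j (y j) - g j (zs j).re| ≤ g i (y i) - g i (zs i).re) →
      (∀ k, S.A k i ≠ 0 → Complex.sin (Real.pi * S.form k (P.pth zs y)) ≠ 0) ∧
      (P.sL zs i (y i) ≠ 0 → ∀ k, S.A k i ≠ 0 → (S.form k (P.pth zs y)).im ≠ 0 ∨
        S.form k (P.pth zs y) ∈ strip) ∧
      S.d1 (P.pth zs y) i + P.sL zs i (y i) * S.d2 (P.pth zs y) i < 0)
    (hR : ∀ y, IsMx S P zs y → (∀ i ∈ B, plo D Z i < y i) → ∀ i ∈ J, y i < (zs i).re →
      (∀ j ∈ J, |g j (y j) - g j (zs j).re| ≤ g i (zs i).re - g i (y i)) →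
      (∀ k, S.A k i ≠ 0 → Complex.sin (Real.pi * S.form k (P.pth zs y)) ≠ 0) ∧
      (P.sR zs i (y i) ≠ 0 → ∀ k, S.A k i ≠ 0 → (S.form k (P.pth zs y)).im ≠ 0 ∨
        S.form k (P.pth zs y) ∈ strip) ∧
      0 < S.d1 (P.pth zs y) i + P.sR zs i (y i) * S.d2 (P.pth zs y) i)
    {x : D ⊕ Z → ℝ} (hx : x ∈ P.box Z) (hne : P.pth zs x ≠ zs) : S.V (P.pth zs x) < S.V zs := by
  have hxs : P.pth zs (fun j => (zs j).re) = zs :=
    pth_re hP (fun i => ⟨(hD i).1.le, (hD i).2.le⟩) (fun v => (hZ v).le)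
  have hmem : ∀ i, (zs i).re ∈ Set.Ioo (plo D Z i) (P.hi i) := by
    intro i
    rcases i with i | v
    · obtain ⟨hc, hc', hb⟩ := hP i
      simp only [plo, Par.hi]
      exact ⟨hc.trans (hD i).1, by linarith only [hc', hD, (hD i).2]⟩
    · simp only [plo, Par.hi]
      have := abs_lt.1 (hZ v)
      exact ⟨by linarith only [this], by linarith only [this]⟩
  have key := max_principle (f := fun x => S.V (P.pth zs x)) (lo := plo D Z) (hi := P.hi) J B
    (xs := fun j => (zs j).re)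
    (S.continuous_V.comp (continuous_pth P zs)).continuousOn
    (fun i => ⟨(hmem i).1, (hmem i).2.le⟩) hg
    (fun y hy hm hpos => hC y ⟨hy, hm⟩ hpos) hCs
    (fun y hy hm i hiB hi => hbd y ⟨hy, hm⟩ i hiB hi)
    (fun y hy hm hpos hj => funext (hJ y ⟨hy, hm⟩ hpos hj))
    (fun y hy hm hpos i hi hlt hgj => by
      obtain ⟨h1, h2, h3⟩ := hL y ⟨hy, hm⟩ hpos i hi hlt hgj
      exact ⟨_, h3, hasDerivWithinAt_V_left S hP zs ((hmem i).1.trans hlt) (hy.2 i) h1 h2⟩)
    (fun y hy hm hpos i hi hlt hgj => by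
      obtain ⟨h1, h2, h3⟩ := hR y ⟨hy, hm⟩ hpos i hi hlt hgj
      exact ⟨_, h3, hasDerivWithinAt_V_right S hP zs (hy.1 i) (hlt.trans (hmem i).2) h1 h2⟩)
    x hx (fun h => hne (by rw [h]; exact hxs))
  simpa only [hxs] using key

omit [Fintype K] [DecidableEq D] [DecidableEq Z] in
/-- admissible points without penalties and without real variables are on the main paths -/
theorem Adm.exists_pth {S : Dat D Z K} {P : Par D} {zs : D ⊕ Z → ℂ} {R : Finset D}
    {z : D ⊕ Z → ℂ} (hP : ∀ i, 0 < P.hu i ∧ 0 < P.hd i)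
    (h : Adm S P zs R ∅ z 0) : ∃ x ∈ P.box Z, z = P.pth zs x := by
  have h1 : ∀ i, ∃ x : ℝ, 0 ≤ x ∧ x ≤ P.XM i ∧
      z (.inl i) = pt 0 (P.XM i) (P.cl i) (P.cr i) (zs (.inl i)).im x := by
    intro i
    obtain ⟨x, hx0, hx1, hx⟩ := h.onD i (Finset.notMem_empty _)
    refine ⟨x, hx0, hx1, ?_⟩
    rcases hx with hx | hx | hx
    · exact hx.1
    · have h2 : tr 0 (P.XM i) (P.cl i) (P.cr i) x = 0 := by
        have h3 := hx.2
        simp only [Pi.zero_apply] at h3
        rcases mul_eq_zero.1 h3.symm with h4 | h4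
        · exact absurd h4 (hP i).1.ne'
        · exact h4
      rw [hx.1]
      unfold pt
      rw [h2, mul_zero, mul_zero]
    · have h2 : tr 0 (P.XM i) (P.cl i) (P.cr i) x = 0 := by
        have h3 := hx.2
        simp only [Pi.zero_apply] at h3
        rcases mul_eq_zero.1 h3.symm with h4 | h4
        · exact absurd h4 (hP i).2.ne'
        · exact h4
      rw [hx.1]
      unfold pt
      rw [h2, mul_zero, mul_zero]
  have h2 : ∀ v, ∃ σ : ℝ, |σ| ≤ 1 / 2 ∧ z (.inr v) = LT.zt (zs (.inr v)).im σ :=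
    fun v => h.onZ v (Finset.notMem_empty _)
  choose x hx0 hx1 hx2 using h1
  choose σ hσ1 hσ2 using h2
  refine ⟨Sum.elim x σ, ⟨?_, ?_⟩, ?_⟩
  · rintro (i | v)
    · exact hx0 i
    · simp only [plo, Sum.elim_inr]
      exact (abs_le.1 (hσ1 v)).1
  · rintro (i | v)
    · exact hx1 i
    · simp only [Par.hi, Sum.elim_inr]
      exact (abs_le.1 (hσ1 v)).2
  · funext j
    rcases j with i | v
    · rw [hx2]
      rfl
    · rw [hσ2]
      rfl

end Pool.Agent.Work.MP_b30479_gtS.G2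

end
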