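import Mathlib
import Pool.Agent.Work.MP_b30479_gt.TBS.G2.MaxP
import Pool.Agent.Work.MP_b30479_gt.TBS.G2.VDer
import Pool.Agent.Work.MP_b30479_gt.TBS.NumI.LnSin
import Pool.Agent.Work.MP_b30479_gt.TBS.G2.MPLoc

section

/-!
# A curve of zeros

`F (θ, m)` is positive at `m = ma θ`, negative at `m = mb θ`, and its derivative in `m` is negative
at every zero in between.  Then the zeros form the graph of a differentiable function.
-/

namespace Pool.Agent.Work.MP_b30479_gtS.G2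

open Filter Topology Set

/-- at most one zero -/
theorem zero_unique {f f' : ℝ → ℝ} {a b : ℝ} (hf : ∀ m ∈ Icc a b, HasDerivAt f (f' m) m)
    (hz : ∀ m ∈ Icc a b, f m = 0 → f' m < 0) {x y : ℝ} (hx : x ∈ Icc a b) (hy : y ∈ Icc a b)
    (fx : f x = 0) (fy : f y = 0) : x = y := by
  have key : ∀ x y, x ∈ Icc a b → y ∈ Icc a b → f x = 0 → f y = 0 → ¬ x < y := by
    intro x y hx hy fx fy hxy
    have hsub : Icc x y ⊆ Icc a b := Icc_subset_Icc hx.1 hy.2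
    have h1 : ∀ m ∈ Icc x y, f m ≤ 0 := by
      intro m hm
      refine image_le_of_deriv_right_lt_deriv_boundary (f := f) (f' := f') (B := fun _ => 0)
        (B' := fun _ => 0) (a := x) (b := y) ?_ ?_ fx.le (fun _ => hasDerivAt_const _ _) ?_ hm
      · exact fun m hm => (hf m (hsub hm)).continuousAt.continuousWithinAt
      · exact fun m hm => (hf m (hsub ⟨hm.1, hm.2.le⟩)).hasDerivWithinAt
      · intro m hm h0
        exact hz m (hsub ⟨hm.1, hm.2.le⟩) h0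
    have h2 := hz y hy fy
    have h3 := (hf y hy).hasDerivWithinAt (s := Iio y)
    have h4 := (hasDerivWithinAt_iff_tendsto_slope' (by simp)).1 h3
    have h5 : ∀ᶠ m in 𝓝[<] y, slope f y m < 0 := h4.eventually (gt_mem_nhds h2)
    have h6 : ∀ᶠ m in 𝓝[<] y, m ∈ Ioo x y := Ioo_mem_nhdsLT hxy
    obtain ⟨m, h7, h8⟩ := (h5.and h6).exists
    have h9 := h1 m ⟨h8.1.le, h8.2.le⟩
    rw [slope_def_field, fy, sub_zero] at h7
    rcases div_neg_iff.1 h7 with h | h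
    · linarith
    · linarith [h8.2]
  rcases lt_trichotomy x y with h | h | h
  · exact absurd h (key x y hx hy fx fy)
  · exact h
  · exact absurd h (key y x hy hx fy fx)

/-- local curve of zeros -/
theorem local_curve {F : ℝ × ℝ → ℝ} {θ m : ℝ} (hF : ContDiffAt ℝ 1 F (θ, m))
    {B : ℝ} (hB : HasDerivAt (fun s => F (θ, s)) B m) (hB0 : B ≠ 0) :
    ∃ φ : ℝ → ℝ, φ θ = m ∧ DifferentiableAt ℝ φ θ ∧ ∀ᶠ s in 𝓝 θ, F (s, φ s) = F (θ, m) := by
  have h1 : HasDerivAt (fun s => F (θ, s)) ((fderiv ℝ F (θ, m)) (0, 1)) m := by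
    have h2 : HasFDerivAt F (fderiv ℝ F (θ, m)) (θ, m) :=
      (hF.differentiableAt (by simp)).hasFDerivAt
    have h3 : HasDerivAt (fun s : ℝ => ((θ, s) : ℝ × ℝ)) (0, 1) m :=
      (hasDerivAt_const _ _).prodMk (hasDerivAt_id _)
    exact h2.comp_hasDerivAt m h3
  have h4 : (fderiv ℝ F (θ, m)) (0, 1) = B := h1.unique hB
  have hinv : (fderiv ℝ F (θ, m) ∘L .inr ℝ ℝ ℝ).IsInvertible := by
    refine ⟨ContinuousLinearEquiv.unitsEquivAut ℝ (Units.mk0 B hB0), ?_⟩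
    ext
    simp [h4]
  refine ⟨hF.implicitFunction one_ne_zero hinv, hF.implicitFunction_apply_self one_ne_zero hinv,
    (hF.hasStrictFDerivAt_implicitFunction one_ne_zero hinv).hasFDerivAt.differentiableAt,
    hF.eventually_apply_implicitFunction one_ne_zero hinv⟩

/-- **The curve of zeros.** -/
theorem exists_curve {F : ℝ × ℝ → ℝ} {B : ℝ → ℝ → ℝ} {ma mb : ℝ → ℝ}
    (hma : ContinuousOn ma (Icc 0 1)) (hmb : ContinuousOn mb (Icc 0 1))
    (hab : ∀ θ ∈ Icc (0 : ℝ) 1, ma θ < mb θ)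
    (hF : ∀ θ ∈ Icc (0 : ℝ) 1, ∀ m ∈ Icc (ma θ) (mb θ), ContDiffAt ℝ 1 F (θ, m))
    (hB : ∀ θ ∈ Icc (0 : ℝ) 1, ∀ m ∈ Icc (ma θ) (mb θ), HasDerivAt (fun s => F (θ, s)) (B θ m) m)
    (ha : ∀ θ ∈ Icc (0 : ℝ) 1, 0 < F (θ, ma θ)) (hb : ∀ θ ∈ Icc (0 : ℝ) 1, F (θ, mb θ) < 0)
    (hz : ∀ θ ∈ Icc (0 : ℝ) 1, ∀ m ∈ Icc (ma θ) (mb θ), F (θ, m) = 0 → B θ m < 0) :
    ∃ g : ℝ → ℝ, (∀ θ ∈ Icc (0 : ℝ) 1, g θ ∈ Ioo (ma θ) (mb θ) ∧ F (θ, g θ) = 0 ∧
        ∀ m ∈ Icc (ma θ) (mb θ), F (θ, m) = 0 → m = g θ) ∧ ContinuousOn g (Icc 0 1) ∧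
      ∀ θ ∈ Ioo (0 : ℝ) 1, DifferentiableAt ℝ g θ := by
  have hex : ∀ θ ∈ Icc (0 : ℝ) 1, ∃ m ∈ Ioo (ma θ) (mb θ), F (θ, m) = 0 := by
    intro θ hθ
    have hc : ContinuousOn (fun s => F (θ, s)) (Icc (ma θ) (mb θ)) :=
      fun m hm => (hB θ hθ m hm).continuousAt.continuousWithinAt
    obtain ⟨m, hm, h0⟩ := intermediate_value_Icc' (hab θ hθ).le hc
      (show (0 : ℝ) ∈ Icc (F (θ, mb θ)) (F (θ, ma θ)) from ⟨(hb θ hθ).le, (ha θ hθ).le⟩)
    have h0' : F (θ, m) = 0 := h0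
    refine ⟨m, ⟨lt_of_le_of_ne hm.1 ?_, lt_of_le_of_ne hm.2 ?_⟩, h0'⟩
    · rintro rfl
      exact absurd h0' (ha θ hθ).ne'
    · rintro rfl
      exact absurd h0' (hb θ hθ).ne
  choose! g hg using hex
  have huni : ∀ θ ∈ Icc (0 : ℝ) 1, ∀ m ∈ Icc (ma θ) (mb θ), F (θ, m) = 0 → m = g θ := by
    intro θ hθ m hm h0
    exact zero_unique (f := fun s => F (θ, s)) (hB θ hθ) (hz θ hθ) hm
      (Ioo_subset_Icc_self (hg θ hθ).1) h0 (hg θ hθ).2
  -- local form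
  have hloc : ∀ θ ∈ Icc (0 : ℝ) 1, ∃ φ : ℝ → ℝ, φ θ = g θ ∧ DifferentiableAt ℝ φ θ ∧
      ∀ᶠ s in 𝓝[Icc 0 1] θ, φ s = g s := by
    intro θ hθ
    obtain ⟨hgm, hg0⟩ := hg θ hθ
    have hgI := Ioo_subset_Icc_self hgm
    obtain ⟨φ, h1, h2, h3⟩ := local_curve (hF θ hθ _ hgI) (hB θ hθ _ hgI)
      (hz θ hθ _ hgI hg0).ne
    refine ⟨φ, h1, h2, ?_⟩
    have c1 : ContinuousWithinAt φ (Icc 0 1) θ := h2.continuousAt.continuousWithinAt
    have e1 : ∀ᶠ s in 𝓝[Icc 0 1] θ, ma s < φ s := by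
      apply (hma θ hθ).eventually_lt c1
      rw [h1]
      exact hgm.1
    have e2 : ∀ᶠ s in 𝓝[Icc 0 1] θ, φ s < mb s := by
      apply c1.eventually_lt (hmb θ hθ)
      rw [h1]
      exact hgm.2
    filter_upwards [e1, e2, h3.filter_mono nhdsWithin_le_nhds, self_mem_nhdsWithin] with s s1 s2 s3 s4
    exact huni s s4 _ ⟨s1.le, s2.le⟩ (s3.trans hg0)
  refine ⟨g, fun θ hθ => ⟨(hg θ hθ).1, (hg θ hθ).2, huni θ hθ⟩, ?_, ?_⟩
  · intro θ hθ
    obtain ⟨φ, h1, h2, h3⟩ := hloc θ hθ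
    exact h2.continuousAt.continuousWithinAt.congr_of_eventuallyEq
      (h3.mono fun s hs => hs.symm) h1.symm
  · intro θ hθ
    obtain ⟨φ, h1, h2, h3⟩ := hloc θ (Ioo_subset_Icc_self hθ)
    have h4 : 𝓝[Icc 0 1] θ = 𝓝 θ := nhdsWithin_eq_nhds.2 (Icc_mem_nhds hθ.1 hθ.2)
    rw [h4] at h3
    exact h2.congr_of_eventuallyEq (h3.mono fun s hs => hs.symm)

end Pool.Agent.Work.MP_b30479_gtS.G2

end

section

/-!
# Interior 3-runs, level part: the two sides push back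

`u` is the hinge on the `k2` side, `v` the hinge on the `a1` side, `m` the inner variable, which
follows the curve of zeros of the inner derivative.  Nothing is assumed about the zeros except
three inequalities (`Lvl`).
-/

namespace Pool.Agent.Work.MP_b30479_gtS.G2

open Filter Topology Set

namespace M3

/-- the point with real part `x` and height `t` -/
noncomputable def cx (x t : ℝ) : ℂ := (x : ℂ) + (t : ℂ) * Complex.I

@[simp] theorem cx_re (x t : ℝ) : (cx x t).re = x := by simp [cx]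
@[simp] theorem cx_im (x t : ℝ) : (cx x t).im = t := by simp [cx]

theorem cx_eq (z : ℂ) : z = cx z.re z.im := (Complex.re_add_im z).symm

theorem cx_add (x t y s : ℝ) : cx x t + cx y s = cx (x + y) (t + s) := by
  apply Complex.ext <;> simp

theorem cx_sub (x t y s : ℝ) : cx x t - cx y s = cx (x - y) (t - s) := by
  apply Complex.ext <;> simp

theorem sin_cx_ne {x t : ℝ} (h0 : 0 < x) (h1 : x < 1) :
    Complex.sin (Real.pi * cx x t) ≠ 0 := by
  apply sin_ne_of_strip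
  constructor
  · simpa using h0
  · simpa using h1

/-- derivative of `LL` along a level -/
theorem hasDerivAt_LLcx {p : ℝ → ℝ} {p' θ t : ℝ} (hp : HasDerivAt p p' θ) (h0 : 0 < p θ)
    (h1 : p θ < 1) : HasDerivAt (fun θ => LL (cx (p θ) t)) (p' * CC (cx (p θ) t)) θ := by
  have h2 : HasDerivAt (fun θ => cx (p θ) t) (p' : ℂ) θ := by
    unfold cx
    exact hp.ofReal_comp.add_const _
  have h3 := hasDerivAt_LL h2 (sin_cx_ne h0 h1)
  refine h3.congr_deriv ?_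
  simp

/-- derivative of the run in the inner variable (frame with sign `+`), level part -/
noncomputable def Phi (tu tv tm u v m : ℝ) : ℝ :=
  LL (cx (u + m) (tu + tm)) - LL (cx (m - v) (tm - tv)) - LL (cx m tm) -
    Real.pi * (tm + tv - tu)

/-- the `a1` side, level part -/
noncomputable def DV (tv tm v m : ℝ) : ℝ := LL (cx (m - v) (tm - tv)) - LL (cx v tv)

/-- the `k2` side, level part -/
noncomputable def DU (tu tm u m : ℝ) : ℝ := LL (cx (u + m) (tu + tm)) - 2 * LL (cx u tu)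

/-- a function with negative derivative -/
theorem lt_of_neg {F F' : ℝ → ℝ} (h : ∀ θ ∈ Icc (0 : ℝ) 1, HasDerivAt F (F' θ) θ)
    (hneg : ∀ θ ∈ Icc (0 : ℝ) 1, F' θ < 0) : F 1 < F 0 := by
  obtain ⟨c, hc, h1⟩ := exists_hasDerivAt_eq_slope F F' one_pos
    (fun θ hθ => (h θ hθ).continuousAt.continuousWithinAt)
    (fun θ hθ => h θ ⟨hθ.1.le, hθ.2.le⟩)
  have h2 := hneg c ⟨hc.1.le, hc.2.le⟩
  rw [h1, sub_zero, div_one] at h2
  linarith only [h2]

theorem contDiffAt_LLcx {f : ℝ × ℝ → ℝ} {p : ℝ × ℝ} (hf : ContDiffAt ℝ 1 f p) {t : ℝ}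
    (h0 : 0 < f p) (h1 : f p < 1) : ContDiffAt ℝ 1 (fun q => LL (cx (f q) t)) p := by
  have hs := sin_cx_ne (t := t) h0 h1
  have h2 : ContDiffAt ℝ 1 (fun q : ℝ × ℝ => (2 : ℂ) * Complex.sin (Real.pi * cx (f q) t)) p := by
    unfold cx
    have : ContDiffAt ℝ 1 (fun q : ℝ × ℝ => ((f q : ℝ) : ℂ)) p :=
      Complex.ofRealCLM.contDiff.contDiffAt.comp p hf
    exact contDiffAt_const.mul ((Complex.contDiff_sin.restrict_scalars ℝ).contDiffAt.comp p
      (contDiffAt_const.mul (this.add contDiffAt_const)))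
  have h3 : (2 : ℂ) * Complex.sin (Real.pi * cx (f p) t) ≠ 0 := mul_ne_zero two_ne_zero hs
  have h4 := (h2.norm ℝ h3).log (norm_ne_zero_iff.2 h3)
  refine h4.congr_of_eventuallyEq (Eventually.of_forall fun q => ?_)
  exact LL_eq _

theorem contDiffAt_Phi {f g : ℝ × ℝ → ℝ} {p : ℝ × ℝ} (hf : ContDiffAt ℝ 1 f p)
    (hg : ContDiffAt ℝ 1 g p) {tu tv tm : ℝ} (a1 : 0 < p.2) (a2 : p.2 < 1) (a3 : 0 < p.2 - g p)
    (a4 : p.2 - g p < 1) (a5 : 0 < f p + p.2) (a6 : f p + p.2 < 1) :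
    ContDiffAt ℝ 1 (fun q : ℝ × ℝ => Phi tu tv tm (f q) (g q) q.2) p := by
  have k3 : ContDiffAt ℝ 1 (fun q : ℝ × ℝ => q.2) p := contDiffAt_snd
  unfold Phi
  exact (((contDiffAt_LLcx (hf.add k3) a5 a6).sub (contDiffAt_LLcx (k3.sub hg) a3 a4)).sub
      (contDiffAt_LLcx k3 a1 a2)).sub contDiffAt_const

theorem contDiff_ghi : ContDiff ℝ 1 ghi := by
  unfold ghi
  exact contDiff_const.mul (Real.contDiff_arctan.comp Real.contDiff_exp)

theorem contDiff_gc (a x : ℝ) : ContDiff ℝ 1 (gc a x) := by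
  unfold gc
  exact contDiff_ghi.comp (by fun_prop)

/-- the level data of a region: in the rectangle `[ul, uh] × [vl, vh]` the inner derivative is
positive at `mL`, negative at `mU`, and in between at every zero the three determinants are
positive -/
structure Lvl (tu tv tm ul uh vl vh : ℝ) (mL mU : ℝ → ℝ → ℝ) : Prop where
  ul0 : 0 < ul
  uh1 : uh < 1
  vl0 : 0 < vl
  vh1 : vh < 1
  cL : Continuous fun p : ℝ × ℝ => mL p.1 p.2
  cU : Continuous fun p : ℝ × ℝ => mU p.1 p.2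
  lu : ∀ u ∈ Icc ul uh, ∀ v ∈ Icc vl vh, v < mL u v ∧ mL u v < mU u v ∧ u + mU u v < 1
  sL : ∀ u ∈ Icc ul uh, ∀ v ∈ Icc vl vh, 0 < Phi tu tv tm u v (mL u v)
  sU : ∀ u ∈ Icc ul uh, ∀ v ∈ Icc vl vh, Phi tu tv tm u v (mU u v) < 0
  hD : ∀ u ∈ Icc ul uh, ∀ v ∈ Icc vl vh, ∀ m ∈ Icc (mL u v) (mU u v), Phi tu tv tm u v m = 0 →
    0 < CC (cx (m - v) (tm - tv)) + CC (cx m tm) - CC (cx (u + m) (tu + tm))
  hF : ∀ u ∈ Icc ul uh, ∀ v ∈ Icc vl vh, ∀ m ∈ Icc (mL u v) (mU u v), Phi tu tv tm u v m = 0 →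
    0 < Real.sin (Real.pi * v) * ((CC (cx (m - v) (tm - tv)) + CC (cx v tv)) *
        (CC (cx (m - v) (tm - tv)) + CC (cx m tm) - CC (cx (u + m) (tu + tm))) -
        CC (cx (m - v) (tm - tv)) ^ 2) -
      Real.sin (Real.pi * u) * |CC (cx (u + m) (tu + tm)) * CC (cx (m - v) (tm - tv))|
  hG : ∀ u ∈ Icc ul uh, ∀ v ∈ Icc vl vh, ∀ m ∈ Icc (mL u v) (mU u v), Phi tu tv tm u v m = 0 →
    0 < Real.sin (Real.pi * u) * (2 * CC (cx u tu) *
        (CC (cx (m - v) (tm - tv)) + CC (cx m tm) - CC (cx (u + m) (tu + tm))) -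
        CC (cx (u + m) (tu + tm)) * (CC (cx (m - v) (tm - tv)) + CC (cx m tm))) -
      Real.sin (Real.pi * v) * |CC (cx (u + m) (tu + tm)) * CC (cx (m - v) (tm - tv))|

variable {tu tv tm ul uh vl vh : ℝ} {mL mU : ℝ → ℝ → ℝ} (h : Lvl tu tv tm ul uh vl vh mL mU)

include h

theorem Lvl.hu {u : ℝ} (hu : u ∈ Icc ul uh) : u ∈ Ioo (0 : ℝ) 1 :=
  ⟨h.ul0.trans_le hu.1, hu.2.trans_lt h.uh1⟩

theorem Lvl.hv {v : ℝ} (hv : v ∈ Icc vl vh) : v ∈ Ioo (0 : ℝ) 1 :=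
  ⟨h.vl0.trans_le hv.1, hv.2.trans_lt h.vh1⟩

theorem Lvl.gcu {u0 u1 θ : ℝ} (h0 : u0 ∈ Icc ul uh) (h1 : u1 ∈ Icc ul uh)
    (hθ : θ ∈ Icc (0 : ℝ) 1) : gc u0 u1 θ ∈ Icc ul uh := by
  have := gc_mem_uIcc (h.hu h0) (h.hu h1) hθ.1 hθ.2
  rcases le_total u0 u1 with hc | hc
  · rw [uIcc_of_le hc] at this
    exact ⟨h0.1.trans this.1, this.2.trans h1.2⟩
  · rw [uIcc_of_ge hc] at this
    exact ⟨h1.1.trans this.1, this.2.trans h0.2⟩

theorem Lvl.gcv {u0 u1 θ : ℝ} (h0 : u0 ∈ Icc vl vh) (h1 : u1 ∈ Icc vl vh)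
    (hθ : θ ∈ Icc (0 : ℝ) 1) : gc u0 u1 θ ∈ Icc vl vh := by
  have := gc_mem_uIcc (h.hv h0) (h.hv h1) hθ.1 hθ.2
  rcases le_total u0 u1 with hc | hc
  · rw [uIcc_of_le hc] at this
    exact ⟨h0.1.trans this.1, this.2.trans h1.2⟩
  · rw [uIcc_of_ge hc] at this
    exact ⟨h1.1.trans this.1, this.2.trans h0.2⟩

/-- range of the arguments -/
theorem Lvl.dom {u v m : ℝ} (hu : u ∈ Icc ul uh) (hv : v ∈ Icc vl vh)
    (hm : m ∈ Icc (mL u v) (mU u v)) : 0 < m ∧ m < 1 ∧ 0 < m - v ∧ m - v < 1 ∧ 0 < u + m ∧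
      u + m < 1 := by
  obtain ⟨a1, a2, a3⟩ := h.lu u hu v hv
  obtain ⟨b1, b2⟩ := h.hu hu
  obtain ⟨c1, c2⟩ := h.hv hv
  obtain ⟨d1, d2⟩ := hm
  refine ⟨?_, ?_, ?_, ?_, ?_, ?_⟩ <;> linarith only [a1, c1, d1, a3, b1, d2]

theorem Lvl.deriv_m {u v m : ℝ} (hu : u ∈ Icc ul uh) (hv : v ∈ Icc vl vh)
    (hm : m ∈ Icc (mL u v) (mU u v)) : HasDerivAt (fun s => Phi tu tv tm u v s)
      (-(CC (cx (m - v) (tm - tv)) + CC (cx m tm) - CC (cx (u + m) (tu + tm)))) m := by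
  obtain ⟨a1, a2, a3, a4, a5, a6⟩ := h.dom hu hv hm
  have q1 := hasDerivAt_LLcx (t := tu + tm) ((hasDerivAt_id m).const_add u) a5 a6
  have q2 := hasDerivAt_LLcx (t := tm - tv) ((hasDerivAt_id m).sub_const v) a3 a4
  have q3 := hasDerivAt_LLcx (t := tm) (hasDerivAt_id m) a1 a2
  have q4 := ((q1.sub q2).sub q3).sub_const (Real.pi * (tm + tv - tu))
  refine q4.congr_deriv ?_
  simp only [id]
  ring

theorem Lvl.unique {u v m m' : ℝ} (hu : u ∈ Icc ul uh) (hv : v ∈ Icc vl vh)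
    (hm : m ∈ Icc (mL u v) (mU u v)) (hm' : m' ∈ Icc (mL u v) (mU u v))
    (h0 : Phi tu tv tm u v m = 0) (h1 : Phi tu tv tm u v m' = 0) : m = m' :=
  zero_unique (fun _ hs => h.deriv_m hu hv hs)
    (fun _ hs hz => neg_neg_of_pos (h.hD u hu v hv _ hs hz)) hm hm' h0 h1

attribute [local irreducible] Phi CC

variable {u0 v0 m0 u1 v1 m1 : ℝ} (hu0 : u0 ∈ Icc ul uh) (hv0 : v0 ∈ Icc vl vh)
  (hu1 : u1 ∈ Icc ul uh) (hv1 : v1 ∈ Icc vl vh)

include hu0 hv0 hu1 hv1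

/-- the curve -/
theorem Lvl.curve : ∃ g : ℝ → ℝ, (∀ θ ∈ Icc (0 : ℝ) 1,
      g θ ∈ Icc (mL (gc u0 u1 θ) (gc v0 v1 θ)) (mU (gc u0 u1 θ) (gc v0 v1 θ)) ∧
      Phi tu tv tm (gc u0 u1 θ) (gc v0 v1 θ) (g θ) = 0) ∧ ContinuousOn g (Icc 0 1) ∧
      ∀ θ ∈ Ioo (0 : ℝ) 1, DifferentiableAt ℝ g θ := by
  have cu := continuous_gc u0 u1
  have cv := continuous_gc v0 v1
  have cL : Continuous fun θ => mL (gc u0 u1 θ) (gc v0 v1 θ) := h.cL.comp (cu.prodMk cv)
  have cU : Continuous fun θ => mU (gc u0 u1 θ) (gc v0 v1 θ) := h.cU.comp (cu.prodMk cv)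
  have k4 : ∀ θ ∈ Icc (0 : ℝ) 1, ∀ m ∈ Icc (mL (gc u0 u1 θ) (gc v0 v1 θ))
      (mU (gc u0 u1 θ) (gc v0 v1 θ)), ContDiffAt ℝ 1
        (fun p : ℝ × ℝ => Phi tu tv tm (gc u0 u1 p.1) (gc v0 v1 p.1) p.2) (θ, m) := by
    intro θ hθ m hm
    obtain ⟨a1, a2, a3, a4, a5, a6⟩ := h.dom (h.gcu hu0 hu1 hθ) (h.gcv hv0 hv1 hθ) hm
    have e1 : ContDiffAt ℝ 1 (fun p : ℝ × ℝ => gc u0 u1 p.1) (θ, m) :=
      (contDiff_gc u0 u1).contDiffAt.comp (θ, m) contDiffAt_fst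
    have e2 : ContDiffAt ℝ 1 (fun p : ℝ × ℝ => gc v0 v1 p.1) (θ, m) :=
      (contDiff_gc v0 v1).contDiffAt.comp (θ, m) contDiffAt_fst
    exact contDiffAt_Phi e1 e2 a1 a2 a3 a4 a5 a6
  have k3 : ∀ θ ∈ Icc (0 : ℝ) 1, mL (gc u0 u1 θ) (gc v0 v1 θ) < mU (gc u0 u1 θ) (gc v0 v1 θ) :=
    fun θ hθ => (h.lu _ (h.gcu hu0 hu1 hθ) _ (h.gcv hv0 hv1 hθ)).2.1
  have k5 : ∀ θ ∈ Icc (0 : ℝ) 1, ∀ m ∈ Icc (mL (gc u0 u1 θ) (gc v0 v1 θ))
      (mU (gc u0 u1 θ) (gc v0 v1 θ)),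
      HasDerivAt (fun s => Phi tu tv tm (gc u0 u1 θ) (gc v0 v1 θ) s)
        (-(CC (cx (m - gc v0 v1 θ) (tm - tv)) + CC (cx m tm) - CC (cx (gc u0 u1 θ + m)
          (tu + tm)))) m := by
    intro θ hθ m hm
    exact h.deriv_m (h.gcu hu0 hu1 hθ) (h.gcv hv0 hv1 hθ) hm
  have k6 : ∀ θ ∈ Icc (0 : ℝ) 1,
      0 < Phi tu tv tm (gc u0 u1 θ) (gc v0 v1 θ) (mL (gc u0 u1 θ) (gc v0 v1 θ)) := by
    intro θ hθ
    exact h.sL _ (h.gcu hu0 hu1 hθ) _ (h.gcv hv0 hv1 hθ)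
  have k7 : ∀ θ ∈ Icc (0 : ℝ) 1,
      Phi tu tv tm (gc u0 u1 θ) (gc v0 v1 θ) (mU (gc u0 u1 θ) (gc v0 v1 θ)) < 0 := by
    intro θ hθ
    exact h.sU _ (h.gcu hu0 hu1 hθ) _ (h.gcv hv0 hv1 hθ)
  have k8 : ∀ θ ∈ Icc (0 : ℝ) 1, ∀ m ∈ Icc (mL (gc u0 u1 θ) (gc v0 v1 θ))
      (mU (gc u0 u1 θ) (gc v0 v1 θ)), Phi tu tv tm (gc u0 u1 θ) (gc v0 v1 θ) m = 0 →
      -(CC (cx (m - gc v0 v1 θ) (tm - tv)) + CC (cx m tm) - CC (cx (gc u0 u1 θ + m)
          (tu + tm))) < 0 := by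
    intro θ hθ m hm hz
    exact neg_neg_of_pos (h.hD _ (h.gcu hu0 hu1 hθ) _ (h.gcv hv0 hv1 hθ) m hm hz)
  obtain ⟨g, h1, h2, h3⟩ := exists_curve
    (F := fun p : ℝ × ℝ => Phi tu tv tm (gc u0 u1 p.1) (gc v0 v1 p.1) p.2)
    (B := fun θ m => -(CC (cx (m - gc v0 v1 θ) (tm - tv)) +
      CC (cx m tm) - CC (cx (gc u0 u1 θ + m) (tu + tm))))
    (ma := fun θ => mL (gc u0 u1 θ) (gc v0 v1 θ)) (mb := fun θ => mU (gc u0 u1 θ) (gc v0 v1 θ))
    cL.continuousOn cU.continuousOn k3 k4 k5 k6 k7 k8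
  exact ⟨g, fun θ hθ => ⟨Ioo_subset_Icc_self (h1 θ hθ).1, (h1 θ hθ).2.1⟩, h2, h3⟩

/-- derivatives along the curve -/
theorem Lvl.curve_deriv {g : ℝ → ℝ} (hg : ∀ θ ∈ Icc (0 : ℝ) 1,
      g θ ∈ Icc (mL (gc u0 u1 θ) (gc v0 v1 θ)) (mU (gc u0 u1 θ) (gc v0 v1 θ)) ∧
      Phi tu tv tm (gc u0 u1 θ) (gc v0 v1 θ) (g θ) = 0) {θ : ℝ} (hθ : θ ∈ Ioo (0 : ℝ) 1)
    (hd : DifferentiableAt ℝ g θ) :
    let u := gc u0 u1 θ
    let v := gc v0 v1 θ
    let m := g θ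
    let P := CC (cx (u + m) (tu + tm))
    let Q := CC (cx (m - v) (tm - tv))
    let R := CC (cx m tm)
    let a := (gh u1 - gh u0) * (Real.sin (Real.pi * u) / Real.pi)
    let b := (gh v1 - gh v0) * (Real.sin (Real.pi * v) / Real.pi)
    deriv g θ * (Q + R - P) = a * P + b * Q ∧
    HasDerivAt (fun θ => DV tv tm (gc v0 v1 θ) (g θ))
      ((deriv g θ - b) * Q - b * CC (cx v tv)) θ ∧
    HasDerivAt (fun θ => DU tu tm (gc u0 u1 θ) (g θ))
      ((a + deriv g θ) * P - 2 * (a * CC (cx u tu))) θ := by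
  intro u v m P Q R a b
  have hθ' := Ioo_subset_Icc_self hθ
  obtain ⟨g1, g2⟩ := hg θ hθ'
  have hu := h.gcu hu0 hu1 hθ'
  have hv := h.gcv hv0 hv1 hθ'
  obtain ⟨a1, a2, a3, a4, a5, a6⟩ := h.dom hu hv g1
  have d1 : HasDerivAt (gc u0 u1) a θ := hasDerivAt_gc _ _ _
  have d2 : HasDerivAt (gc v0 v1) b θ := hasDerivAt_gc _ _ _
  have d3 : HasDerivAt g (deriv g θ) θ := hd.hasDerivAt
  have q1 := hasDerivAt_LLcx (t := tu + tm) (d1.add d3) a5 a6
  have q2 := hasDerivAt_LLcx (t := tm - tv) (d3.sub d2) a3 a4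
  have q3 := hasDerivAt_LLcx (t := tm) d3 a1 a2
  have q5 := hasDerivAt_LLcx (t := tv) d2 (h.hv hv).1 (h.hv hv).2
  have q6 := (hasDerivAt_LLcx (t := tu) d1 (h.hu hu).1 (h.hu hu).2).const_mul 2
  refine ⟨?_, q2.sub q5, q1.sub q6⟩
  have q4 := ((q1.sub q2).sub q3).sub_const (Real.pi * (tm + tv - tu))
  have z1 : HasDerivAt (fun θ => Phi tu tv tm (gc u0 u1 θ) (gc v0 v1 θ) (g θ)) 0 θ := by
    refine (hasDerivAt_const θ (0 : ℝ)).congr_of_eventuallyEq ?_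
    filter_upwards [Icc_mem_nhds hθ.1 hθ.2] with s hs
    exact (hg s hs).2
  have z2 : HasDerivAt (fun θ => Phi tu tv tm (gc u0 u1 θ) (gc v0 v1 θ) (g θ))
      ((a + deriv g θ) * P - (deriv g θ - b) * Q - deriv g θ * R) θ := by
    unfold Phi
    exact q4
  have z3 := z1.unique z2
  linarith only [z3]

variable (hm0 : m0 ∈ Icc (mL u0 v0) (mU u0 v0)) (z0 : Phi tu tv tm u0 v0 m0 = 0)
  (hm1 : m1 ∈ Icc (mL u1 v1) (mU u1 v1)) (z1 : Phi tu tv tm u1 v1 m1 = 0)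

include hm0 z0 hm1 z1

/-- the ends of the curve -/
theorem Lvl.curve_ends {g : ℝ → ℝ} (hg : ∀ θ ∈ Icc (0 : ℝ) 1,
      g θ ∈ Icc (mL (gc u0 u1 θ) (gc v0 v1 θ)) (mU (gc u0 u1 θ) (gc v0 v1 θ)) ∧
      Phi tu tv tm (gc u0 u1 θ) (gc v0 v1 θ) (g θ) = 0) : g 0 = m0 ∧ g 1 = m1 := by
  obtain ⟨a1, a2⟩ := hg 0 ⟨le_rfl, zero_le_one⟩
  obtain ⟨b1, b2⟩ := hg 1 ⟨zero_le_one, le_rfl⟩
  rw [gc_zero (h.hu hu0), gc_zero (h.hv hv0)] at a1 a2
  rw [gc_one (h.hu hu1), gc_one (h.hv hv1)] at b1 b2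
  exact ⟨h.unique hu0 hv0 a1 hm0 a2 z0, h.unique hu1 hv1 b1 hm1 b2 z1⟩

/-- **The `a1` side is pushed back.** -/
theorem Lvl.DV_lt (hv : gh v0 < gh v1) (hu : |gh u1 - gh u0| ≤ gh v1 - gh v0) :
    DV tv tm v1 m1 < DV tv tm v0 m0 := by
  have hpi := Real.pi_pos
  obtain ⟨g, g1, g2, g3⟩ := h.curve hu0 hv0 hu1 hv1
  obtain ⟨e0, e1⟩ := h.curve_ends hu0 hv0 hu1 hv1 hm0 z0 hm1 z1 g1
  have hcont : ContinuousOn (fun θ => DV tv tm (gc v0 v1 θ) (g θ)) (Icc 0 1) := by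
    intro θ hθ
    have hvv := h.gcv hv0 hv1 hθ
    obtain ⟨a1, a2, a3, a4, a5, a6⟩ := h.dom (h.gcu hu0 hu1 hθ) hvv (g1 θ hθ).1
    have c1 : ContinuousWithinAt (gc v0 v1) (Icc 0 1) θ :=
      (continuous_gc v0 v1).continuousWithinAt
    have c2 := g2 θ hθ
    have l1 := ((hasDerivAt_LLcx (t := tm - tv) (hasDerivAt_id (g θ - gc v0 v1 θ)) a3
      a4).continuousAt.comp_continuousWithinAt (f := fun θ => g θ - gc v0 v1 θ) (s := Icc 0 1)
      (x := θ) (c2.sub c1))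
    have l2 := ((hasDerivAt_LLcx (t := tv) (hasDerivAt_id (gc v0 v1 θ)) (h.hv hvv).1
      (h.hv hvv).2).continuousAt.comp_continuousWithinAt (f := gc v0 v1) (s := Icc 0 1)
      (x := θ) c1)
    exact l1.sub l2
  obtain ⟨c, hc, h4⟩ := exists_hasDerivAt_eq_slope _ _ one_pos hcont
    (fun θ hθ => (h.curve_deriv hu0 hv0 hu1 hv1 g1 hθ (g3 θ hθ)).2.1)
  have hc' := Ioo_subset_Icc_self hc
  have k1 := (h.curve_deriv hu0 hv0 hu1 hv1 g1 hc (g3 c hc)).1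
  have huu := h.gcu hu0 hu1 hc'
  have hvv := h.gcv hv0 hv1 hc'
  have kD := h.hD _ huu _ hvv _ (g1 c hc').1 (g1 c hc').2
  have kF := h.hF _ huu _ hvv _ (g1 c hc').1 (g1 c hc').2
  have su : 0 < Real.sin (Real.pi * gc u0 u1 c) :=
    Real.sin_pos_of_pos_of_lt_pi (mul_pos hpi (h.hu huu).1) (by nlinarith only [hpi, h, huu, (h.hu huu).2])
  rw [sub_zero, div_one, e0, e1, gc_zero (h.hv hv0), gc_one (h.hv hv1)] at h4
  set u := gc u0 u1 c
  set v := gc v0 v1 c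
  set m := g c
  set P := CC (cx (u + m) (tu + tm))
  set Q := CC (cx (m - v) (tm - tv))
  set R := CC (cx m tm)
  set S := CC (cx v tv)
  set w := deriv g c
  set b := gh v1 - gh v0
  set a := gh u1 - gh u0
  have hb : 0 < b := sub_pos.2 hv
  have k2 : ((w - b * (Real.sin (Real.pi * v) / Real.pi)) * Q -
      b * (Real.sin (Real.pi * v) / Real.pi) * S) * (Q + R - P) < 0 := by
    have e : ((w - b * (Real.sin (Real.pi * v) / Real.pi)) * Q -
      b * (Real.sin (Real.pi * v) / Real.pi) * S) * (Q + R - P) =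
      (a * (Real.sin (Real.pi * u)) * (P * Q) - b * (Real.sin (Real.pi * v) *
        ((Q + S) * (Q + R - P) - Q ^ 2))) / Real.pi := by
      have : ((w - b * (Real.sin (Real.pi * v) / Real.pi)) * Q -
        b * (Real.sin (Real.pi * v) / Real.pi) * S) * (Q + R - P) = (w * (Q + R - P)) * Q -
          b * (Real.sin (Real.pi * v) / Real.pi) * (Q + S) * (Q + R - P) := by ring
      rw [this, k1]
      field_simp
      ring
    rw [e]
    apply div_neg_of_neg_of_pos _ hpi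
    have a1 : a * Real.sin (Real.pi * u) * (P * Q) ≤ b * (Real.sin (Real.pi * u) * |P * Q|) := by
      calc a * Real.sin (Real.pi * u) * (P * Q) ≤ |a * Real.sin (Real.pi * u) * (P * Q)| :=
            le_abs_self _
        _ = |a| * (Real.sin (Real.pi * u) * |P * Q|) := by
            rw [abs_mul, abs_mul, abs_of_pos su]; ring
        _ ≤ b * (Real.sin (Real.pi * u) * |P * Q|) := by gcongr
    have a3 := mul_pos hb kF
    nlinarith only [a1, a3]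
  have k3 := neg_of_mul_neg_left k2 kD.le
  rw [h4] at k3
  linarith only [k3]

/-- **The `k2` side is pushed back.** -/
theorem Lvl.DU_lt (hu : gh u0 < gh u1) (hv : |gh v1 - gh v0| ≤ gh u1 - gh u0) :
    DU tu tm u1 m1 < DU tu tm u0 m0 := by
  have hpi := Real.pi_pos
  obtain ⟨g, g1, g2, g3⟩ := h.curve hu0 hv0 hu1 hv1
  obtain ⟨e0, e1⟩ := h.curve_ends hu0 hv0 hu1 hv1 hm0 z0 hm1 z1 g1
  have hcont : ContinuousOn (fun θ => DU tu tm (gc u0 u1 θ) (g θ)) (Icc 0 1) := by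
    intro θ hθ
    have huu := h.gcu hu0 hu1 hθ
    obtain ⟨a1, a2, a3, a4, a5, a6⟩ := h.dom huu (h.gcv hv0 hv1 hθ) (g1 θ hθ).1
    have c1 : ContinuousWithinAt (gc u0 u1) (Icc 0 1) θ :=
      (continuous_gc u0 u1).continuousWithinAt
    have c2 := g2 θ hθ
    have l1 := ((hasDerivAt_LLcx (t := tu + tm) (hasDerivAt_id (gc u0 u1 θ + g θ)) a5
      a6).continuousAt.comp_continuousWithinAt (f := fun θ => gc u0 u1 θ + g θ) (s := Icc 0 1)
      (x := θ) (c1.add c2))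
    have l2 := ((hasDerivAt_LLcx (t := tu) (hasDerivAt_id (gc u0 u1 θ)) (h.hu huu).1
      (h.hu huu).2).continuousAt.comp_continuousWithinAt (f := gc u0 u1) (s := Icc 0 1)
      (x := θ) c1)
    exact l1.sub (l2.const_mul 2)
  obtain ⟨c, hc, h4⟩ := exists_hasDerivAt_eq_slope _ _ one_pos hcont
    (fun θ hθ => (h.curve_deriv hu0 hv0 hu1 hv1 g1 hθ (g3 θ hθ)).2.2)
  have hc' := Ioo_subset_Icc_self hc
  have k1 := (h.curve_deriv hu0 hv0 hu1 hv1 g1 hc (g3 c hc)).1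
  have huu := h.gcu hu0 hu1 hc'
  have hvv := h.gcv hv0 hv1 hc'
  have kD := h.hD _ huu _ hvv _ (g1 c hc').1 (g1 c hc').2
  have kG := h.hG _ huu _ hvv _ (g1 c hc').1 (g1 c hc').2
  have sv : 0 < Real.sin (Real.pi * gc v0 v1 c) :=
    Real.sin_pos_of_pos_of_lt_pi (mul_pos hpi (h.hv hvv).1) (by nlinarith only [hpi, h, hvv, (h.hv hvv).2])
  rw [sub_zero, div_one, e0, e1, gc_zero (h.hu hu0), gc_one (h.hu hu1)] at h4
  set u := gc u0 u1 c
  set v := gc v0 v1 c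
  set m := g c
  set P := CC (cx (u + m) (tu + tm))
  set Q := CC (cx (m - v) (tm - tv))
  set R := CC (cx m tm)
  set S := CC (cx u tu)
  set w := deriv g c
  set b := gh v1 - gh v0
  set a := gh u1 - gh u0
  have ha : 0 < a := sub_pos.2 hu
  have k2 : ((a * (Real.sin (Real.pi * u) / Real.pi) + w) * P -
      2 * (a * (Real.sin (Real.pi * u) / Real.pi) * S)) * (Q + R - P) < 0 := by
    have e : ((a * (Real.sin (Real.pi * u) / Real.pi) + w) * P -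
      2 * (a * (Real.sin (Real.pi * u) / Real.pi) * S)) * (Q + R - P) =
      (b * (Real.sin (Real.pi * v)) * (P * Q) - a * (Real.sin (Real.pi * u) *
        (2 * S * (Q + R - P) - P * (Q + R)))) / Real.pi := by
      have : ((a * (Real.sin (Real.pi * u) / Real.pi) + w) * P -
        2 * (a * (Real.sin (Real.pi * u) / Real.pi) * S)) * (Q + R - P) =
          (w * (Q + R - P)) * P + a * (Real.sin (Real.pi * u) / Real.pi) * P * (Q + R - P) -
          2 * (a * (Real.sin (Real.pi * u) / Real.pi) * S) * (Q + R - P) := by ring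
      rw [this, k1]
      field_simp
      ring
    rw [e]
    apply div_neg_of_neg_of_pos _ hpi
    have a1 : b * Real.sin (Real.pi * v) * (P * Q) ≤ a * (Real.sin (Real.pi * v) * |P * Q|) := by
      calc b * Real.sin (Real.pi * v) * (P * Q) ≤ |b * Real.sin (Real.pi * v) * (P * Q)| :=
            le_abs_self _
        _ = |b| * (Real.sin (Real.pi * v) * |P * Q|) := by
            rw [abs_mul, abs_mul, abs_of_pos sv]; ring
        _ ≤ a * (Real.sin (Real.pi * v) * |P * Q|) := by gcongr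
    have a3 := mul_pos ha kG
    nlinarith only [a1, a3]
  have k3 := neg_of_mul_neg_left k2 kD.le
  rw [h4] at k3
  linarith only [k3]

end M3

end Pool.Agent.Work.MP_b30479_gtS.G2

end

section

/-!
# Interior 3-runs: the functions of the heights

`W x t = log |2 sin π(x + it)| + π t` is half the logarithm of a quadratic polynomial in
`e^{2πt}`; this gives the worst heights.
-/

namespace Pool.Agent.Work.MP_b30479_gtS.G2

namespace M3

open NumIs (lnA MM PP QQ)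

theorem LL_cx (x t : ℝ) : LL (cx x t) = lnA x t := by
  rw [LL_eq]
  have h := norm_two_sin_sq (cx x t)
  rw [cx_re, cx_im] at h
  have h1 : 2 * Real.cosh (2 * Real.pi * t) - 2 * Real.cos (2 * Real.pi * x) =
      4 * (Real.sin (Real.pi * x) ^ 2 + Real.sinh (Real.pi * t) ^ 2) := by
    rw [mul_assoc 2 Real.pi t, Real.cosh_two_mul, mul_assoc 2 Real.pi x, Real.cos_two_mul]
    have e1 := Real.sin_sq_add_cos_sq (Real.pi * x)
    have e2 := Real.cosh_sq (Real.pi * t)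
    linarith only [e1, e2]
  unfold lnA
  rw [← h1, ← h, Real.log_pow]
  push_cast
  ring

/-- the quadratic polynomial -/
noncomputable def qd (x y : ℝ) : ℝ := y ^ 2 - 2 * Real.cos (2 * Real.pi * x) * y + 1

theorem qd_eq (x t : ℝ) : qd x (Real.exp (2 * Real.pi * t)) =
    Real.exp (2 * Real.pi * t) * (4 * MM x t) := by
  unfold qd MM
  have e0 : Real.exp (2 * Real.pi * t) = Real.exp (Real.pi * t) ^ 2 := by
    rw [← Real.exp_nat_mul]; congr 1; push_cast; ring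
  have e1 : Real.sinh (Real.pi * t) = (Real.exp (Real.pi * t) - (Real.exp (Real.pi * t))⁻¹) / 2 := by
    rw [Real.sinh_eq, Real.exp_neg]
  have e2 : Real.cos (2 * Real.pi * x) = 1 - 2 * Real.sin (Real.pi * x) ^ 2 := by
    rw [mul_assoc, Real.cos_two_mul]
    have := Real.sin_sq_add_cos_sq (Real.pi * x)
    linarith only [this]
  have hp := Real.exp_pos (Real.pi * t)
  rw [e0, e1, e2]
  field_simp
  ring

theorem MM_nonneg (x t : ℝ) : 0 ≤ MM x t := by unfold MM; positivity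

/-- `log |2 sin π(x + it)| + π t` -/
noncomputable def W (x t : ℝ) : ℝ := lnA x t + Real.pi * t

theorem W_eq {x t : ℝ} (h : 0 < MM x t) :
    W x t = Real.log (qd x (Real.exp (2 * Real.pi * t))) / 2 := by
  rw [qd_eq, Real.log_mul (Real.exp_pos _).ne' (by positivity), Real.log_exp]
  unfold W lnA MM
  ring

theorem qd_pos {x t : ℝ} (h : 0 < MM x t) : 0 < qd x (Real.exp (2 * Real.pi * t)) := by
  rw [qd_eq]
  have := Real.exp_pos (2 * Real.pi * t)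
  positivity

theorem exp_mono {s t : ℝ} (h : s ≤ t) :
    Real.exp (2 * Real.pi * s) ≤ Real.exp (2 * Real.pi * t) := by
  apply Real.exp_le_exp.2
  have := Real.pi_pos
  gcongr

/-- `W` increases with the height above the lowest point -/
theorem W_mono {x s t : ℝ} (hs : 0 < MM x s) (ht : 0 < MM x t) (hst : s ≤ t)
    (hx : Real.cos (2 * Real.pi * x) ≤ Real.exp (2 * Real.pi * s)) : W x s ≤ W x t := by
  rw [W_eq hs, W_eq ht]
  have h1 := exp_mono hst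
  have h2 : qd x (Real.exp (2 * Real.pi * s)) ≤ qd x (Real.exp (2 * Real.pi * t)) := by
    unfold qd
    nlinarith only [h1, hx, mul_nonneg (sub_nonneg.2 h1) (sub_nonneg.2 hx)]
  have := Real.log_le_log (qd_pos hs) h2
  linarith only [this]

/-- `W` is quasi-convex in the height: the maximum is at one of the ends, and there the point is
regular -/
theorem W_le {x s t r : ℝ} (h : 0 < MM x s) (h1 : t ≤ s) (h2 : s ≤ r) :
    (0 < MM x t ∧ W x s ≤ W x t) ∨ (0 < MM x r ∧ W x s ≤ W x r) := by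
  have e1 := exp_mono h1
  have e2 := exp_mono h2
  have hp := qd_pos h
  have key : qd x (Real.exp (2 * Real.pi * s)) ≤ qd x (Real.exp (2 * Real.pi * t)) ∨
      qd x (Real.exp (2 * Real.pi * s)) ≤ qd x (Real.exp (2 * Real.pi * r)) := by
    rcases le_total (Real.cos (2 * Real.pi * x)) (Real.exp (2 * Real.pi * s)) with hc | hc
    · right
      unfold qd
      nlinarith only [e2, hc, mul_nonneg (sub_nonneg.2 e2) (sub_nonneg.2 hc)]
    · left
      unfold qd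
      nlinarith only [e1, hc, mul_nonneg (sub_nonneg.2 e1) (sub_nonneg.2 hc)]
  have pos : ∀ r, 0 < qd x (Real.exp (2 * Real.pi * r)) → 0 < MM x r := by
    intro r hr
    rw [qd_eq] at hr
    rcases (MM_nonneg x r).lt_or_eq with h | h
    · exact h
    · rw [← h] at hr; simp at hr
  rcases key with hk | hk
  · left
    have h3 := pos t (hp.trans_le hk)
    refine ⟨h3, ?_⟩
    rw [W_eq h, W_eq h3]
    have := Real.log_le_log hp hk
    linarith only [this]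
  · right
    have h3 := pos r (hp.trans_le hk)
    refine ⟨h3, ?_⟩
    rw [W_eq h, W_eq h3]
    have := Real.log_le_log hp hk
    linarith only [this]

/-- a lower bound without the height -/
theorem W_ge {x t : ℝ} (h : 0 < Real.sin (Real.pi * (2 * x)) ^ 2) (hM : 0 < MM x t) :
    Real.log (Real.sin (Real.pi * (2 * x)) ^ 2) / 2 ≤ W x t := by
  rw [W_eq hM]
  have h2 : Real.sin (Real.pi * (2 * x)) ^ 2 ≤ qd x (Real.exp (2 * Real.pi * t)) := by
    unfold qd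
    have e : 2 * Real.pi * x = Real.pi * (2 * x) := by ring
    rw [e]
    have := Real.sin_sq_add_cos_sq (Real.pi * (2 * x))
    nlinarith only [this, sq_nonneg (Real.exp (2 * Real.pi * t) - Real.cos (Real.pi * (2 * x)))]
  have := Real.log_le_log h h2
  linarith only [this]

theorem lnA_neg (x t : ℝ) : lnA x (-t) = lnA x t := by
  unfold lnA
  rw [mul_neg, Real.sinh_neg, neg_sq]

theorem MM_neg (x t : ℝ) : MM x (-t) = MM x t := by
  unfold MM
  rw [mul_neg, Real.sinh_neg, neg_sq]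

/-- with a small number inside the logarithm -/
noncomputable def lnE (ε x t : ℝ) : ℝ :=
  Real.log (4 * (Real.sin (Real.pi * x) ^ 2 + Real.sinh (Real.pi * t) ^ 2 + ε)) / 2

theorem lnA_le_lnE {ε x t : ℝ} (hε : 0 ≤ ε) (h : 0 < MM x t) : lnA x t ≤ lnE ε x t := by
  unfold MM at h
  unfold lnA lnE
  have : Real.log (4 * (Real.sin (Real.pi * x) ^ 2 + Real.sinh (Real.pi * t) ^ 2)) ≤
      Real.log (4 * (Real.sin (Real.pi * x) ^ 2 + Real.sinh (Real.pi * t) ^ 2 + ε)) := by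
    apply Real.log_le_log (by positivity)
    linarith only [hε]
  linarith only [this]

/-- the inner derivative in terms of `W` -/
theorem Phi_eq (tu tv tm u v m : ℝ) : Phi tu tv tm u v m =
    W (u + m) (tu + tm) - W (m - v) (-(tm - tv)) - (lnA m tm + 3 * Real.pi * tm) := by
  unfold Phi W
  rw [LL_cx, LL_cx, LL_cx, lnA_neg]
  ring

theorem MM_pos' {x t : ℝ} (h0 : 0 < x) (h1 : x < 1) : 0 < MM x t :=
  NumIs.MM_pos (Real.sin_pos_of_pos_of_lt_pi (mul_pos Real.pi_pos h0)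
    (by nlinarith only [h1, Real.pi_pos]))

/-- the cosine on an interval symmetric about `1/2` -/
theorem cos_le {x y : ℝ} (h0 : 0 ≤ y) (h1 : y ≤ x) (h2 : x ≤ 1 - y) :
    Real.cos (2 * Real.pi * x) ≤ Real.cos (2 * Real.pi * y) := by
  have hpi := Real.pi_pos
  rcases le_total x (1 / 2) with h | h
  · exact Real.cos_le_cos_of_nonneg_of_le_pi (by positivity) (by nlinarith only [hpi, h]) (by nlinarith only [h1, hpi])
  · have e : Real.cos (2 * Real.pi * x) = Real.cos (2 * Real.pi * (1 - x)) := by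
      rw [show 2 * Real.pi * (1 - x) = 2 * Real.pi - 2 * Real.pi * x by ring,
        Real.cos_two_pi_sub]
    rw [e]
    exact Real.cos_le_cos_of_nonneg_of_le_pi (by positivity) (by nlinarith only [hpi, h]) (by nlinarith only [h2, hpi])

end M3

end Pool.Agent.Work.MP_b30479_gtS.G2

end

section

/-!
# Part of `MPWall`
-/
namespace Pool.Agent.Work.MP_b30479_gtS.G2

open Finset VOL Filter Topology

/-- the derivative of a run in direction `1 + i m` of the local variable `p` -/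
noncomputable def side (t : Typ) (b : ℤ) (l r : Bool) (p : Fin 3) (m : ℝ) (x : Fin 3 → ℂ) : ℝ :=
  (ldat t b l r).d1 (lx x) (.inl p) + m * (ldat t b l r).d2 (lx x) (.inl p)

/-- no `fourL`, `fourR` -/
def Typ.Std : Typ → Prop
  | .fourL => False
  | .fourR => False
  | _ => True

/-- the growth rate is differentiable at `u` in direction `1 + i m` -/
def QQm (m : ℝ) (u : ℂ) : Prop :=
  Complex.sin (Real.pi * u) ≠ 0 ∧ (m ≠ 0 → u.im ≠ 0 ∨ u ∈ strip)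

end Pool.Agent.Work.MP_b30479_gtS.G2

end
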