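import Pool.Agent.Work.MP_b30479_gt.TBS.G2.MPSide
import Pool.Agent.Work.MP_b30479_gt.TBS.G2.MPDat
import Pool.Agent.Work.MP_b30479_gt.TBS.G2.MPWallD
import Pool.Agent.Work.MP_b30479_gt.TBS.G2.PnLim

section

/-!
# The wall `w = 0`
-/

namespace Pool.Agent.Work.MP_b30479_gtS.G2

open Finset VOL Filter Topology

/-! ### `LL` and `YY` near `0` -/

/-- points near the origin on a ramp of slope `m` -/
noncomputable def wqs (m s : ℝ) : ℂ := (s : ℂ) * (1 + m * Complex.I)

theorem wq_re (m s : ℝ) : (wqs m s).re = s := by simp [wqs]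

theorem wq_im (m s : ℝ) : (wqs m s).im = s * m := by simp [wqs]

theorem wq_strip {m s : ℝ} (h0 : 0 < s) (h1 : s < 1) : wqs m s ∈ strip := by
  constructor
  · rw [wq_re]; exact h0
  · rw [wq_re]; exact h1

theorem ev_small {r : ℝ} (hr : 0 < r) : ∀ᶠ s : ℝ in 𝓝[>] 0, 0 < s ∧ s < r :=
  Ioo_mem_nhdsGT hr

theorem tendsto_LL_wq (m : ℝ) : Tendsto (fun s => -LL (wqs m s)) (𝓝[>] 0) atTop := by
  have h1 : Tendsto (fun s : ℝ => ‖2 * Complex.sin (Real.pi * wqs m s)‖) (𝓝[>] 0) (𝓝[>] 0) := by
    rw [tendsto_nhdsWithin_iff]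
    constructor
    · have h2 : Continuous fun s : ℝ => ‖2 * Complex.sin (Real.pi * wqs m s)‖ := by
        unfold wqs
        fun_prop
      have h3 := h2.tendsto 0
      have h4 : ‖2 * Complex.sin (Real.pi * wqs m 0)‖ = 0 := by simp [wqs]
      rw [h4] at h3
      exact h3.mono_left nhdsWithin_le_nhds
    · filter_upwards [ev_small one_pos] with s hs
      exact norm_pos_iff.2 (mul_ne_zero two_ne_zero (sin_ne_of_strip (wq_strip hs.1 hs.2)))
  have h2 := Real.tendsto_log_nhdsGT_zero.comp h1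
  have h3 := tendsto_neg_atBot_atTop.comp h2
  refine h3.congr fun s => ?_
  simp only [Function.comp_apply, LL_eq]

theorem abs_YY_le (u : ℂ) : |YY u| ≤ Real.pi * |u.re| + 2 * Real.pi := by
  have hp := Real.pi_pos
  have hTr : ∀ s x : ℝ, |DT.Tr s x - Real.pi / 2| ≤ Real.pi * |x| + 2 * Real.pi := by
    intro s x
    unfold DT.Tr
    have h1 := Complex.abs_arg_le_pi (1 - Complex.exp (2 * Real.pi * Complex.I * (x + s * Complex.I)))
    have h2 : |Real.pi * x| = Real.pi * |x| := by rw [abs_mul, abs_of_pos hp]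
    have h3 := abs_le.1 h1
    have h4 := abs_le.1 (le_of_eq h2)
    rw [abs_le]
    constructor <;> linarith only [hp, h3, h4, h3.1, h3.2, h4.1, h4.2]
  unfold YY
  split_ifs
  · exact hTr _ _
  · rw [abs_neg]
    exact hTr _ _
  · rw [abs_zero]
    positivity

theorem Tr_add_one (s x : ℝ) : DT.Tr s (x + 1) = DT.Tr s x + Real.pi := by
  unfold DT.Tr
  have : Complex.exp (2 * Real.pi * Complex.I * (((x + 1 : ℝ) : ℂ) + s * Complex.I)) =
      Complex.exp (2 * Real.pi * Complex.I * (x + s * Complex.I)) := by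
    have e : 2 * Real.pi * Complex.I * (((x + 1 : ℝ) : ℂ) + s * Complex.I) =
        2 * Real.pi * Complex.I * (x + s * Complex.I) + 2 * Real.pi * Complex.I := by
      push_cast
      ring
    rw [e, Complex.exp_add, Complex.exp_two_pi_mul_I, mul_one]
  rw [this]
  ring

theorem YY_neg_of_pos {u : ℂ} (h : 0 < u.im) : YY (-u) = YY u + Real.pi := by
  have h1 := YY_one_sub u
  rw [← h1]
  unfold YY
  have e1 : (1 - u).im = -u.im := by simp
  have e2 : (-u).im = -u.im := by simp
  have e3 : (1 - u).re = (-u).re + 1 := by simp; ring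
  rw [e1, e2, if_neg (by linarith only [h]), if_pos (by linarith only [h]), if_neg (by linarith only [h]), if_pos (by linarith only [h]),
    e3, Tr_add_one]
  ring

theorem YY_neg_of_neg {u : ℂ} (h : u.im < 0) : YY (-u) = YY u - Real.pi := by
  have h1 := YY_neg_of_pos (u := -u) (by simpa using h)
  rw [neg_neg] at h1
  linarith only [h1]

theorem YY_wq_neg (m : ℝ) {s : ℝ} (hs : 0 < s) :
    m * (YY (-wqs m s) - YY (wqs m s)) = |m| * Real.pi := by
  rcases lt_trichotomy m 0 with h | h | h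
  · rw [YY_neg_of_neg (by rw [wq_im]; exact mul_neg_of_pos_of_neg hs h), abs_of_neg h]
    ring
  · rw [h]
    simp
  · rw [YY_neg_of_pos (by rw [wq_im]; exact mul_pos hs h), abs_of_pos h]
    ring

/-- bounds -/
theorem ev_LL {a : ℂ} (ha : a ∈ strip) (c : ℂ) :
    ∃ C, ∀ᶠ s : ℝ in 𝓝[>] 0, |LL (a + s * c)| ≤ C := by
  refine ⟨|LL a| + 1, ?_⟩
  have h1 : ContinuousAt (fun s : ℝ => |LL (a + s * c)|) 0 := by
    have h2 : ContinuousAt LL (a + (0 : ℝ) * c) := by
      simpa using continuousAt_LL (sin_ne_of_strip ha)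
    have h3 : ContinuousAt (fun s : ℝ => a + s * c) 0 := by fun_prop
    exact (ContinuousAt.comp (f := fun s : ℝ => a + s * c) h2 h3).abs
  have h2 : ∀ᶠ s : ℝ in 𝓝 0, |LL (a + s * c)| < |LL a| + 1 := by
    apply h1.eventually (gt_mem_nhds _)
    simp
  exact (h2.filter_mono nhdsWithin_le_nhds).mono fun s hs => hs.le

theorem ev_YY (a c : ℂ) : ∃ C, ∀ᶠ s : ℝ in 𝓝[>] 0, |YY (a + s * c)| ≤ C := by
  refine ⟨Real.pi * (|a.re| + |c.re|) + 2 * Real.pi, ?_⟩
  filter_upwards [ev_small one_pos] with s hs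
  refine (abs_YY_le _).trans ?_
  have h1 : |(a + s * c).re| ≤ |a.re| + |c.re| := by
    have e : (a + s * c).re = a.re + s * c.re := by simp
    rw [e]
    refine (abs_add_le _ _).trans ?_
    rw [abs_mul, abs_of_pos hs.1]
    have := abs_nonneg c.re
    nlinarith only [hs, this, hs.2]
  have := Real.pi_pos
  nlinarith only [hs, h1, this]

/-! ### the sides -/

/-- side of a run of type `one` -/
noncomputable def S1 (σ m : ℝ) (w v : ℂ) : ℝ :=
  σ * Real.pi * v.im + LL (w + v) - LL w + m * (σ * Real.pi * (v.re - 1) + YY (w + v) - YY w)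

/-- side of a run of type `two`, or the second side of a run of type `three` -/
noncomputable def S2 (σ m : ℝ) (w v : ℂ) : ℝ :=
  σ * Real.pi * (v.im - w.im) + LL (w + v) - 2 * LL w +
    m * (σ * Real.pi * (v.re - w.re - 1 / 2) + YY (w + v) - 2 * YY w)

/-- first side of a run of type `three` -/
noncomputable def S3 (σ m : ℝ) (w u : ℂ) : ℝ :=
  -(σ * Real.pi * u.im) + LL (u - w) - LL w + m * (-(σ * Real.pi * u.re) + YY (u - w) - YY w)

/-- side of a ring -/
noncomputable def S4 (m : ℝ) (w ζ : ℂ) : ℝ :=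
  LL (w + 1 / 2 + ζ) + LL (w + 1 / 2 - ζ) - 2 * LL w +
    m * (YY (w + 1 / 2 + ζ) + YY (w + 1 / 2 - ζ) - 2 * YY w)

/-- large near the wall -/
def Big (m : ℝ) (F : ℂ → ℝ) : Prop := ∃ C, ∀ᶠ s : ℝ in 𝓝[>] 0, -LL (wqs m s) - C ≤ F (wqs m s)

theorem mul_ge_of_abs_le {m x C : ℝ} (h : |x| ≤ C) : -(|m| * C) ≤ m * x := by
  have h1 : |m * x| ≤ |m| * C := by
    rw [abs_mul]
    exact mul_le_mul_of_nonneg_left h (abs_nonneg m)
  exact (abs_le.1 h1).1

theorem wq_eq (m s : ℝ) : wqs m s = 0 + s * (1 + m * Complex.I) := by unfold wqs; ring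

theorem S1_zero (σ m : ℝ) (w : ℂ) : S1 σ m w 0 = -(m * σ * Real.pi) := by
  unfold S1
  simp
  ring

theorem S1_big (σ m : ℝ) {v : ℂ} (hv : v ∈ strip) : Big m fun w => S1 σ m w v := by
  obtain ⟨C1, h1⟩ := ev_LL hv (1 + m * Complex.I)
  obtain ⟨C2, h2⟩ := ev_YY v (1 + m * Complex.I)
  obtain ⟨C3, h3⟩ := ev_YY 0 (1 + m * Complex.I)
  refine ⟨|σ * Real.pi * v.im| + C1 + |m| * (|σ * Real.pi * (v.re - 1)| + C2 + C3), ?_⟩
  filter_upwards [h1, h2, h3] with s h1 h2 h3
  unfold S1
  have e1 : wqs m s + v = v + s * (1 + m * Complex.I) := by unfold wqs; ring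
  rw [e1]
  have h4 := (abs_le.1 h1).1
  have h5 : |σ * Real.pi * (v.re - 1) + YY (v + s * (1 + m * Complex.I)) - YY (wqs m s)| ≤
      |σ * Real.pi * (v.re - 1)| + C2 + C3 := by
    rw [← wq_eq] at h3
    have := abs_le.1 h2
    have h6 := abs_le.1 h3
    have h7 := abs_le.1 (le_refl |σ * Real.pi * (v.re - 1)|)
    rw [abs_le]
    constructor <;> linarith only [this, h6, h7, this.1, this.2, h6.1, h6.2, h7.1, h7.2]
  have h6 := mul_ge_of_abs_le (m := m) h5
  have h7 := neg_abs_le (σ * Real.pi * v.im)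
  linarith only [h4, h6, h7]

theorem ev_LL_nonneg (m : ℝ) : ∀ᶠ s : ℝ in 𝓝[>] 0, 0 ≤ -LL (wqs m s) :=
  (tendsto_LL_wq m).eventually_ge_atTop 0

theorem S2_big (σ m : ℝ) {v : ℂ} (hv : v = 0 ∨ v ∈ strip) : Big m fun w => S2 σ m w v := by
  obtain ⟨C2, h2⟩ := ev_YY v (1 + m * Complex.I)
  obtain ⟨C3, h3⟩ := ev_YY 0 (1 + m * Complex.I)
  have hm : ∀ᶠ s : ℝ in 𝓝[>] 0, |m * (σ * Real.pi * (v.re - (wqs m s).re - 1 / 2) + YY (wqs m s + v) -
      2 * YY (wqs m s))| ≤ |m| * (|σ| * Real.pi * (|v.re| + 2) + C2 + 2 * C3) := by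
    filter_upwards [h2, h3, ev_small one_pos] with s h2 h3 hs
    have e1 : wqs m s + v = v + s * (1 + m * Complex.I) := by unfold wqs; ring
    rw [abs_mul, e1]
    apply mul_le_mul_of_nonneg_left _ (abs_nonneg m)
    rw [← wq_eq] at h3
    have h4 := abs_le.1 h2
    have h5 := abs_le.1 h3
    have h6 : |σ * Real.pi * (v.re - (wqs m s).re - 1 / 2)| ≤ |σ| * Real.pi * (|v.re| + 2) := by
      rw [abs_mul, abs_mul, abs_of_pos Real.pi_pos, wq_re]
      apply mul_le_mul_of_nonneg_left _ (by positivity)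
      have := abs_le.1 (le_refl |v.re|)
      rw [abs_le]
      constructor <;> linarith only [hs, this, this.1, this.2, hs.1, hs.2]
    have h7 := abs_le.1 h6
    rw [abs_le]
    constructor <;> linarith only [h4, h5, h7, h4.1, h4.2, h5.1, h5.2, h7.1, h7.2]
  have hi : ∀ᶠ s : ℝ in 𝓝[>] 0, |σ * Real.pi * (v.im - (wqs m s).im)| ≤
      |σ| * Real.pi * (|v.im| + |m|) := by
    filter_upwards [ev_small one_pos] with s hs
    rw [abs_mul, abs_mul, abs_of_pos Real.pi_pos, wq_im]
    apply mul_le_mul_of_nonneg_left _ (by positivity)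
    refine (abs_sub _ _).trans ?_
    rw [abs_mul, abs_of_pos hs.1]
    have := abs_nonneg m
    nlinarith only [hs, this, hs.2]
  rcases hv with rfl | hv
  · refine ⟨|σ| * Real.pi * (|(0 : ℂ).im| + |m|) +
      |m| * (|σ| * Real.pi * (|(0 : ℂ).re| + 2) + C2 + 2 * C3), ?_⟩
    filter_upwards [hm, hi] with s hm hi
    unfold S2
    have h1 := (abs_le.1 hm).1
    have h2 := (abs_le.1 hi).1
    rw [add_zero] at *
    linarith only [h1, h2]
  · obtain ⟨C1, h1⟩ := ev_LL hv (1 + m * Complex.I)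
    refine ⟨|σ| * Real.pi * (|v.im| + |m|) + C1 +
      |m| * (|σ| * Real.pi * (|v.re| + 2) + C2 + 2 * C3), ?_⟩
    filter_upwards [hm, hi, h1, ev_LL_nonneg m] with s hm hi h1 hL
    unfold S2
    have e1 : wqs m s + v = v + s * (1 + m * Complex.I) := by unfold wqs; ring
    have h2 := (abs_le.1 hm).1
    have h3 := (abs_le.1 hi).1
    have h4 := (abs_le.1 h1).1
    rw [e1] at *
    linarith only [hL, h2, h3, h4]

theorem S3_zero (σ m : ℝ) {s : ℝ} (hs : 0 < s) : S3 σ m (wqs m s) 0 = |m| * Real.pi := by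
  unfold S3
  rw [← YY_wq_neg m hs, zero_sub, LL_neg]
  simp

theorem S3_big (σ m : ℝ) {u : ℂ} (hu : u ∈ strip) : Big m fun w => S3 σ m w u := by
  obtain ⟨C1, h1⟩ := ev_LL hu (-(1 + m * Complex.I))
  obtain ⟨C2, h2⟩ := ev_YY u (-(1 + m * Complex.I))
  obtain ⟨C3, h3⟩ := ev_YY 0 (1 + m * Complex.I)
  refine ⟨|σ * Real.pi * u.im| + C1 + |m| * (|σ * Real.pi * u.re| + C2 + C3), ?_⟩
  filter_upwards [h1, h2, h3] with s h1 h2 h3
  unfold S3
  have e1 : u - wqs m s = u + s * -(1 + m * Complex.I) := by unfold wqs; ring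
  rw [e1]
  have h4 := (abs_le.1 h1).1
  have h5 : |-(σ * Real.pi * u.re) + YY (u + s * -(1 + m * Complex.I)) - YY (wqs m s)| ≤
      |σ * Real.pi * u.re| + C2 + C3 := by
    rw [← wq_eq] at h3
    have := abs_le.1 h2
    have h6 := abs_le.1 h3
    have h7 := abs_le.1 (le_refl |σ * Real.pi * u.re|)
    rw [abs_le]
    constructor <;> linarith only [this, h6, h7, this.1, this.2, h6.1, h6.2, h7.1, h7.2]
  have h6 := mul_ge_of_abs_le (m := m) h5
  have h7 := le_abs_self (σ * Real.pi * u.im)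
  linarith only [h4, h6, h7]

theorem S4_big (m : ℝ) {ζ : ℂ} (hζ : |ζ.re| < 1 / 2) : Big m fun w => S4 m w ζ := by
  have hz := abs_lt.1 hζ
  have ha : (1 / 2 + ζ : ℂ) ∈ strip := by
    constructor <;> simp <;> linarith only [hz, hz.1, hz.2]
  have hb : (1 / 2 - ζ : ℂ) ∈ strip := by
    constructor <;> simp <;> linarith only [hz, hz.1, hz.2]
  obtain ⟨C1, h1⟩ := ev_LL ha (1 + m * Complex.I)
  obtain ⟨C1', h1'⟩ := ev_LL hb (1 + m * Complex.I)
  obtain ⟨C2, h2⟩ := ev_YY (1 / 2 + ζ) (1 + m * Complex.I)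
  obtain ⟨C2', h2'⟩ := ev_YY (1 / 2 - ζ) (1 + m * Complex.I)
  obtain ⟨C3, h3⟩ := ev_YY 0 (1 + m * Complex.I)
  refine ⟨C1 + C1' + |m| * (C2 + C2' + 2 * C3), ?_⟩
  filter_upwards [h1, h1', h2, h2', h3, ev_LL_nonneg m] with s h1 h1' h2 h2' h3 hL
  unfold S4
  have e1 : wqs m s + 1 / 2 + ζ = 1 / 2 + ζ + s * (1 + m * Complex.I) := by unfold wqs; ring
  have e2 : wqs m s + 1 / 2 - ζ = 1 / 2 - ζ + s * (1 + m * Complex.I) := by unfold wqs; ring
  rw [e1, e2]
  have h4 := (abs_le.1 h1).1
  have h4' := (abs_le.1 h1').1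
  have h5 : |YY (1 / 2 + ζ + s * (1 + m * Complex.I)) + YY (1 / 2 - ζ + s * (1 + m * Complex.I)) -
      2 * YY (wqs m s)| ≤ C2 + C2' + 2 * C3 := by
    rw [← wq_eq] at h3
    have a1 := abs_le.1 h2
    have a2 := abs_le.1 h2'
    have a3 := abs_le.1 h3
    rw [abs_le]
    constructor <;> linarith only [a1, a2, a3, a1.1, a1.2, a2.1, a2.2, a3.1, a3.2]
  have h6 := mul_ge_of_abs_le (m := m) h5
  linarith only [hL, h4, h4', h6]

/-- the three kinds of behaviour near the wall -/
def Kind (one : Prop) (σ m : ℝ) (F : ℂ → ℝ) : Prop :=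
  (one ∧ ∀ s > 0, F (wqs m s) = -(m * σ * Real.pi)) ∨ (∀ s > 0, F (wqs m s) = |m| * Real.pi) ∨ Big m F

theorem kind_zero {t : Typ} (ht : t.Std) (b : ℤ) (r : Bool) (m : ℝ) {x : Fin 3 → ℂ}
    (h2 : x 2 = 0 ∨ x 2 ∈ strip) (h1 : t.isMid = true → x 1 = 0 ∨ x 1 ∈ strip)
    (hr : t = .ring → |(x 1).re| < 1 / 2) :
    Kind (t = .one) (sgb b) m fun w => side t b true r 0 m (Function.update x 0 w) := by
  have u0 : ∀ w, Function.update x 0 w 0 = w := fun w => Function.update_self ..
  have u1 : ∀ w, Function.update x 0 w 1 = x 1 := fun w => Function.update_of_ne (by decide) ..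
  have u2 : ∀ w, Function.update x 0 w 2 = x 2 := fun w => Function.update_of_ne (by decide) ..
  cases t with
  | one =>
    have e : ∀ w, side .one b true r 0 m (Function.update x 0 w) = S1 (sgb b) m w (x 2) := by
      intro w
      unfold side S1
      rw [d1_one_zero, d2_one_zero, u0, u2]
    rcases h2 with h2 | h2
    · left
      refine ⟨rfl, fun s _ => ?_⟩
      beta_reduce
      rw [e, h2, S1_zero]
    · right; right
      simp_rw [e]
      exact S1_big _ m h2
  | two =>
    have e : ∀ w, side .two b true r 0 m (Function.update x 0 w) = S2 (sgb b) m w (x 2) := by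
      intro w
      unfold side S2
      rw [d1_two_zero, d2_two_zero, u0, u2]
    right; right
    simp_rw [e]
    exact S2_big _ m h2
  | threeL =>
    have e : ∀ w, side .threeL b true r 0 m (Function.update x 0 w) = S3 (sgb b) m w (x 1) := by
      intro w
      unfold side S3
      rw [d1_threeL_zero, d2_threeL_zero, u0, u1]
    rcases h1 rfl with h1 | h1
    · right; left
      intro s hs
      beta_reduce
      rw [e, h1, S3_zero _ _ hs]
    · right; right
      simp_rw [e]
      exact S3_big _ m h1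
  | threeR =>
    have e : ∀ w, side .threeR b true r 0 m (Function.update x 0 w) = S2 (sgb b) m w (x 1) := by
      intro w
      unfold side S2
      rw [d1_threeR_zero, d2_threeR_zero, u0, u1]
    right; right
    simp_rw [e]
    exact S2_big _ m (h1 rfl)
  | fourL => exact ht.elim
  | fourR => exact ht.elim
  | ring =>
    have e : ∀ w, side .ring b true r 0 m (Function.update x 0 w) = S4 m w (x 1) := by
      intro w
      unfold side S4
      rw [d1_ring_zero, d2_ring_zero, u0, u1]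
    right; right
    simp_rw [e]
    exact S4_big m (hr rfl)

theorem kind_two {t : Typ} (ht : t.Std) (b : ℤ) (l : Bool) (m : ℝ) {x : Fin 3 → ℂ}
    (h2 : x 0 = 0 ∨ x 0 ∈ strip) (h1 : t.isMid = true → x 1 = 0 ∨ x 1 ∈ strip)
    (hr : t = .ring → |(x 1).re| < 1 / 2) :
    Kind (t = .one) (sgb b) m fun w => side t b l true 2 m (Function.update x 2 w) := by
  have u0 : ∀ w, Function.update x 2 w 0 = x 0 := fun w => Function.update_of_ne (by decide) ..
  have u1 : ∀ w, Function.update x 2 w 1 = x 1 := fun w => Function.update_of_ne (by decide) ..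
  have u2 : ∀ w, Function.update x 2 w 2 = w := fun w => Function.update_self ..
  cases t with
  | one =>
    have e : ∀ w, side .one b l true 2 m (Function.update x 2 w) = S1 (sgb b) m w (x 0) := by
      intro w
      unfold side S1
      rw [d1_one_two, d2_one_two, u0, u2, add_comm (x 0)]
    rcases h2 with h2 | h2
    · left
      refine ⟨rfl, fun s _ => ?_⟩
      beta_reduce
      rw [e, h2, S1_zero]
    · right; right
      simp_rw [e]
      exact S1_big _ m h2
  | two =>
    have e : ∀ w, side .two b l true 2 m (Function.update x 2 w) = S2 (sgb b) m w (x 0) := by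
      intro w
      unfold side S2
      rw [d1_two_two, d2_two_two, u0, u2, add_comm (x 0)]
    right; right
    simp_rw [e]
    exact S2_big _ m h2
  | threeL =>
    have e : ∀ w, side .threeL b l true 2 m (Function.update x 2 w) = S2 (sgb b) m w (x 1) := by
      intro w
      unfold side S2
      rw [d1_threeL_two, d2_threeL_two, u1, u2, add_comm (x 1)]
    right; right
    simp_rw [e]
    exact S2_big _ m (h1 rfl)
  | threeR =>
    have e : ∀ w, side .threeR b l true 2 m (Function.update x 2 w) = S3 (sgb b) m w (x 1) := by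
      intro w
      unfold side S3
      rw [d1_threeR_two, d2_threeR_two, u1, u2]
    rcases h1 rfl with h1 | h1
    · right; left
      intro s hs
      beta_reduce
      rw [e, h1, S3_zero _ _ hs]
    · right; right
      simp_rw [e]
      exact S3_big _ m h1
  | fourL => exact ht.elim
  | fourR => exact ht.elim
  | ring =>
    have e : ∀ w, side .ring b l true 2 m (Function.update x 2 w) = S4 m w (x 1) := by
      intro w
      unfold side S4
      rw [d1_ring_two, d2_ring_two, u1, u2]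
    right; right
    simp_rw [e]
    exact S4_big m (hr rfl)

/-- the sum of two sides is nonnegative near the wall -/
theorem kind_add {p q : Prop} {σ σ' m : ℝ} {F G : ℂ → ℝ} (hF : Kind p σ m F) (hG : Kind q σ' m G)
    (hσ : |σ| ≤ 1) (hσ' : |σ'| ≤ 1) (h : p → q → σ + σ' = 0) :
    ∀ᶠ s : ℝ in 𝓝[>] 0, 0 ≤ F (wqs m s) + G (wqs m s) := by
  have hp := Real.pi_pos
  have hb : ∀ {σ : ℝ}, |σ| ≤ 1 → |m * σ * Real.pi| ≤ |m| * Real.pi := by
    intro σ hσ
    rw [abs_mul, abs_mul, abs_of_pos hp]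
    have := abs_nonneg m
    have h1 : |m| * |σ| ≤ |m| * 1 := mul_le_mul_of_nonneg_left hσ this
    nlinarith only [hp, h1]
  have hlow : ∀ {p : Prop} {σ : ℝ} {F : ℂ → ℝ}, |σ| ≤ 1 → Kind p σ m F →
      ∃ C, ∀ᶠ s : ℝ in 𝓝[>] 0, -C ≤ F (wqs m s) := by
    intro p σ F hσ hF
    rcases hF with ⟨_, hF⟩ | hF | ⟨C, hC⟩
    · refine ⟨|m| * Real.pi, ?_⟩
      filter_upwards [ev_small one_pos] with s hs
      rw [hF s hs.1]
      have := (abs_le.1 (hb hσ)).2
      linarith only [this]
    · refine ⟨0, ?_⟩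
      filter_upwards [ev_small one_pos] with s hs
      rw [hF s hs.1]
      have := abs_nonneg m
      nlinarith only [hp, this]
    · refine ⟨C, ?_⟩
      filter_upwards [hC, ev_LL_nonneg m] with s h1 h2
      linarith only [h1, h2]
  have hbig : ∀ {F G : ℂ → ℝ}, Big m F → (∃ C, ∀ᶠ s : ℝ in 𝓝[>] 0, -C ≤ G (wqs m s)) →
      ∀ᶠ s : ℝ in 𝓝[>] 0, 0 ≤ F (wqs m s) + G (wqs m s) := by
    rintro F G ⟨C, hC⟩ ⟨C', hC'⟩
    filter_upwards [hC, hC', (tendsto_LL_wq m).eventually_ge_atTop (C + C')] with s h1 h2 h3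
    linarith only [h1, h2, h3]
  rcases hF with ⟨hp1, hF⟩ | hF | hF
  · rcases hG with ⟨hq1, hG⟩ | hG | hG
    · filter_upwards [ev_small one_pos] with s hs
      rw [hF s hs.1, hG s hs.1]
      have := h hp1 hq1
      have e : σ' = -σ := by linarith only [this]
      rw [e]
      apply le_of_eq
      ring
    · filter_upwards [ev_small one_pos] with s hs
      rw [hF s hs.1, hG s hs.1]
      have := (abs_le.1 (hb hσ)).2
      linarith only [this]
    · filter_upwards [hbig hG (hlow hσ (Or.inl ⟨hp1, hF⟩))] with s hs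
      linarith only [hs]
  · rcases hG with ⟨hq1, hG⟩ | hG | hG
    · filter_upwards [ev_small one_pos] with s hs
      rw [hF s hs.1, hG s hs.1]
      have := (abs_le.1 (hb hσ')).2
      linarith only [this]
    · filter_upwards [ev_small one_pos] with s hs
      rw [hF s hs.1, hG s hs.1]
      have := abs_nonneg m
      nlinarith only [hp, this]
    · filter_upwards [hbig hG (hlow (p := p) hσ (Or.inr (Or.inl hF)))] with s hs
      linarith only [hs]
  · exact hbig hF (hlow hσ' hG)

/-! ### the factors near the wall -/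

theorem QQm_strip {m : ℝ} {u : ℂ} (h : u ∈ strip) : QQm m u := ⟨sin_ne_of_strip h, fun _ => Or.inr h⟩

theorem ev_QQ {m : ℝ} {a : ℂ} (ha : a ∈ strip) (c : ℂ) : ∀ᶠ s : ℝ in 𝓝[>] 0, QQm m (a + s * c) := by
  have h1 : ContinuousAt (fun s : ℝ => a + s * c) 0 := by fun_prop
  have h2 : ∀ᶠ s : ℝ in 𝓝 0, a + s * c ∈ strip := by
    apply h1.eventually
    apply strip_open.mem_nhds
    simpa using ha
  exact (h2.filter_mono nhdsWithin_le_nhds).mono fun s hs => QQm_strip hs

theorem ev_q1 (m : ℝ) : ∀ᶠ s : ℝ in 𝓝[>] 0, QQm m (1 - wqs m s) := by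
  filter_upwards [ev_small one_pos] with s hs
  apply QQm_strip
  constructor <;> simp [wq_re] <;> linarith only [hs, hs.1, hs.2]

theorem ev_q3 (m : ℝ) {v : ℂ} (hv : v = 0 ∨ v ∈ strip) : ∀ᶠ s : ℝ in 𝓝[>] 0, QQm m (wqs m s + v) := by
  rcases hv with rfl | hv
  · filter_upwards [ev_small one_pos] with s hs
    rw [add_zero]
    exact QQm_strip (wq_strip hs.1 hs.2)
  · filter_upwards [ev_QQ (m := m) hv (1 + m * Complex.I)] with s hs
    rw [add_comm]
    exact hs

theorem ev_q4 (m : ℝ) {u : ℂ} (hu : u = 0 ∨ u ∈ strip) :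
    ∀ᶠ s : ℝ in 𝓝[>] 0, QQm m (1 - (u - wqs m s)) := by
  rcases hu with rfl | hu
  · filter_upwards [ev_small one_pos] with s hs
    constructor
    · have h1 := sin_ne_of_strip (wq_strip (m := m) hs.1 hs.2)
      rw [zero_sub, sub_neg_eq_add, mul_add, mul_one, add_comm, Complex.sin_add_pi]
      exact neg_ne_zero.2 h1
    · intro hm
      left
      simp only [zero_sub, sub_neg_eq_add, Complex.add_im, Complex.one_im, wq_im, zero_add]
      exact mul_ne_zero hs.1.ne' hm
  · have h1 : (1 - u : ℂ) ∈ strip := by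
      have a1 := hu.1
      have a2 := hu.2
      constructor <;> simp <;> linarith only [a2, a1]
    filter_upwards [ev_QQ (m := m) h1 (1 + m * Complex.I)] with s hs
    have e : 1 - (u - wqs m s) = 1 - u + s * (1 + m * Complex.I) := by unfold wqs; ring
    rw [e]
    exact hs

theorem ev_q5 (m : ℝ) {ζ : ℂ} (hζ : |ζ.re| < 1 / 2) :
    ∀ᶠ s : ℝ in 𝓝[>] 0, QQm m (wqs m s + 1 / 2 + ζ) ∧ QQm m (wqs m s + 1 / 2 - ζ) := by
  have hz := abs_lt.1 hζ
  have ha : (1 / 2 + ζ : ℂ) ∈ strip := by
    constructor <;> simp <;> linarith only [hz, hz.1, hz.2]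
  have hb : (1 / 2 - ζ : ℂ) ∈ strip := by
    constructor <;> simp <;> linarith only [hz, hz.1, hz.2]
  filter_upwards [ev_QQ (m := m) ha (1 + m * Complex.I), ev_QQ (m := m) hb (1 + m * Complex.I)]
    with s h1 h2
  have e1 : wqs m s + 1 / 2 + ζ = 1 / 2 + ζ + s * (1 + m * Complex.I) := by unfold wqs; ring
  have e2 : wqs m s + 1 / 2 - ζ = 1 / 2 - ζ + s * (1 + m * Complex.I) := by unfold wqs; ring
  rw [e1, e2]
  exact ⟨h1, h2⟩

section
set_option linter.unusedSimpArgs false

theorem fac_zero {t : Typ} (ht : t.Std) (r : Bool) (m : ℝ) {x : Fin 3 → ℂ}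
    (h2 : x 2 = 0 ∨ x 2 ∈ strip) (h1 : t.isMid = true → x 1 = 0 ∨ x 1 ∈ strip)
    (hr : t = .ring → |(x 1).re| < 1 / 2) :
    ∀ᶠ s : ℝ in 𝓝[>] 0, FacAll t true r 0 (Function.update x 0 (wqs m s)) (QQm m) := by
  have u0 : ∀ w, Function.update x 0 w 0 = w := fun w => Function.update_self ..
  have u1 : ∀ w, Function.update x 0 w 1 = x 1 := fun w => Function.update_of_ne (by decide) ..
  have u2 : ∀ w, Function.update x 0 w 2 = x 2 := fun w => Function.update_of_ne (by decide) ..
  have v1 : ∀ w : ℂ, 1 + -w = 1 - w := fun w => by ring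
  have v2 : ∀ w u : ℂ, 1 + (w + -u) = 1 - (u - w) := fun w u => by ring
  have v3 : ∀ w u : ℂ, 1 / 2 + (w + u) = w + 1 / 2 + u := fun w u => by ring
  have v4 : ∀ w u : ℂ, 1 / 2 + (w + -u) = w + 1 / 2 - u := fun w u => by ring
  cases t with
  | one =>
    filter_upwards [ev_q1 m, ev_q3 m h2] with s a1 a3
    intro f hf hf0
    cases r <;>
    · simp [facs, hL, hR] at hf
      rcases hf with rfl | rfl | rfl <;>
        simp_all [Fac.form_mk]
  | two =>
    filter_upwards [ev_q1 m, ev_q3 m h2] with s a1 a3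
    intro f hf hf0
    cases r <;>
    · simp [facs, hL, hR] at hf
      rcases hf with rfl | rfl | rfl <;>
        simp_all [Fac.form_mk]
  | threeL =>
    filter_upwards [ev_q1 m, ev_q4 m (h1 rfl)] with s a1 a4
    intro f hf hf0
    cases r <;>
    · simp [facs, hL, hR] at hf
      rcases hf with rfl | rfl | rfl | rfl | rfl <;>
        simp_all [Fac.form_mk]
  | threeR =>
    filter_upwards [ev_q1 m, ev_q3 m (h1 rfl)] with s a1 a3
    intro f hf hf0
    cases r <;>
    · simp [facs, hL, hR] at hf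
      rcases hf with rfl | rfl | rfl | rfl | rfl <;>
        simp_all [Fac.form_mk]
  | fourL => exact ht.elim
  | fourR => exact ht.elim
  | ring =>
    filter_upwards [ev_q1 m, ev_q5 m (hr rfl)] with s a1 a5
    intro f hf hf0
    cases r <;>
    · simp [facs, hL, hR] at hf
      rcases hf with rfl | rfl | rfl | rfl | rfl | rfl <;>
        simp_all [Fac.form_mk]

theorem fac_two {t : Typ} (ht : t.Std) (l : Bool) (m : ℝ) {x : Fin 3 → ℂ}
    (h2 : x 0 = 0 ∨ x 0 ∈ strip) (h1 : t.isMid = true → x 1 = 0 ∨ x 1 ∈ strip)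
    (hr : t = .ring → |(x 1).re| < 1 / 2) :
    ∀ᶠ s : ℝ in 𝓝[>] 0, FacAll t l true 2 (Function.update x 2 (wqs m s)) (QQm m) := by
  have u0 : ∀ w, Function.update x 2 w 0 = x 0 := fun w => Function.update_of_ne (by decide) ..
  have u1 : ∀ w, Function.update x 2 w 1 = x 1 := fun w => Function.update_of_ne (by decide) ..
  have u2 : ∀ w, Function.update x 2 w 2 = w := fun w => Function.update_self ..
  have v1 : ∀ w : ℂ, 1 + -w = 1 - w := fun w => by ring
  have v2 : ∀ w u : ℂ, 1 + (-u + w) = 1 - (u - w) := fun w u => by ring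
  have v3 : ∀ w u : ℂ, 1 / 2 + (u + w) = w + 1 / 2 + u := fun w u => by ring
  have v4 : ∀ w u : ℂ, 1 / 2 + (-u + w) = w + 1 / 2 - u := fun w u => by ring
  cases t with
  | one =>
    filter_upwards [ev_q1 m, ev_q3 m h2] with s a1 a3
    rw [add_comm] at a3
    intro f hf hf0
    cases l <;>
    · simp [facs, hL, hR] at hf
      rcases hf with rfl | rfl | rfl <;>
        simp_all [Fac.form_mk]
  | two =>
    filter_upwards [ev_q1 m, ev_q3 m h2] with s a1 a3
    rw [add_comm] at a3
    intro f hf hf0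
    cases l <;>
    · simp [facs, hL, hR] at hf
      rcases hf with rfl | rfl | rfl <;>
        simp_all [Fac.form_mk]
  | threeL =>
    filter_upwards [ev_q1 m, ev_q3 m (h1 rfl)] with s a1 a3
    rw [add_comm] at a3
    intro f hf hf0
    cases l <;>
    · simp [facs, hL, hR] at hf
      rcases hf with rfl | rfl | rfl | rfl | rfl <;>
        simp_all [Fac.form_mk]
  | threeR =>
    filter_upwards [ev_q1 m, ev_q4 m (h1 rfl)] with s a1 a4
    intro f hf hf0
    cases l <;>
    · simp [facs, hL, hR] at hf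
      rcases hf with rfl | rfl | rfl | rfl | rfl <;>
        simp_all [Fac.form_mk]
  | fourL => exact ht.elim
  | fourR => exact ht.elim
  | ring =>
    filter_upwards [ev_q1 m, ev_q5 m (hr rfl)] with s a1 a5
    intro f hf hf0
    cases l <;>
    · simp [facs, hL, hR] at hf
      rcases hf with rfl | rfl | rfl | rfl | rfl | rfl <;>
        simp_all [Fac.form_mk]

end

/-! ### words -/

section
variable {D Z K : Type} [Fintype D] [Fintype Z] [Fintype K] [DecidableEq D] [DecidableEq Z]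

/-- derivative of the growth rate along a path inside a linear piece -/
theorem hasDerivAt_V_path (S : Dat D Z K) {P : Par D} (zs : D ⊕ Z → ℂ)
    {x : D ⊕ Z → ℝ} {j : D ⊕ Z} {m : ℝ}
    (hlin : ∀ᶠ s in 𝓝 (x j), P.hgt zs j s = P.hgt zs j (x j) + (s - x j) * m)
    (h : ∀ k, S.A k j ≠ 0 → QQm m (S.form k (P.pth zs x))) :
    HasDerivAt (fun s => S.V (P.pth zs (Function.update x j s)))
      (S.d1 (P.pth zs x) j + m * S.d2 (P.pth zs x) j) (x j) := by
  have h3 := hasDerivAt_V_single S (P.pth zs x) j m (fun k hk => (h k hk).1)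
    (fun hm k hk => (h k hk).2 hm)
  rw [DV_single] at h3
  rw [← sub_self (x j)] at h3
  have h5 := h3.comp_sub_const (x j) (x j)
  refine h5.congr_of_eventuallyEq ?_
  filter_upwards [hlin] with s hs
  rw [pth_update P zs x j hs]

end

section
variable {M : ℕ} (t : Fin (M + 1) → Typ) (b : Fin (M + 1) → ℤ)

theorem xx_update (i : Fin (M + 1)) (z : DD t ⊕ ZZ t → ℂ) (j : DD t ⊕ ZZ t) (c : ℂ) (p : Fin 3)
    (hz : z j = 0) : xx t i (Function.update z j c) p = xx t i z p + cf t i p j * c := by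
  have e : Function.update z j c = z + Pi.single j c := by
    funext k
    by_cases h : k = j
    · subst h; simp [hz]
    · simp [h]
  rw [e, xx_add, xx_single]

theorem xx_update_left (h : Fin M) (z : DD t ⊕ ZZ t → ℂ) (c : ℂ) (hz : z (.inl (.inl h)) = 0) :
    xx t h.castSucc (Function.update z (.inl (.inl h)) c) =
      Function.update (xx t h.castSucc z) 2 c := by
  have hne : h.castSucc ≠ h.succ := (Fin.castSucc_lt_succ).ne
  funext p
  rw [xx_update t _ _ _ _ _ hz]
  fin_cases p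
  · simp [cf, hne.symm]
  · simp [cf]
  · simp [cf, xx_right, hz]

theorem xx_update_right (h : Fin M) (z : DD t ⊕ ZZ t → ℂ) (c : ℂ) (hz : z (.inl (.inl h)) = 0) :
    xx t h.succ (Function.update z (.inl (.inl h)) c) =
      Function.update (xx t h.succ z) 0 c := by
  have hne : h.castSucc ≠ h.succ := (Fin.castSucc_lt_succ).ne
  funext p
  rw [xx_update t _ _ _ _ _ hz]
  fin_cases p
  · simp [cf, xx_left, hz]
  · simp [cf]
  · simp [cf, hne]

/-- the local variables are `0` or in the strip -/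
theorem xx_or {z : DD t ⊕ ZZ t → ℂ} (hz : ∀ j : DD t, z (.inl j) = 0 ∨ z (.inl j) ∈ strip)
    (i : Fin (M + 1)) :
    (xx t i z 0 = 0 ∨ xx t i z 0 ∈ strip) ∧ (xx t i z 2 = 0 ∨ xx t i z 2 ∈ strip) ∧
    ((t i).isMid = true → xx t i z 1 = 0 ∨ xx t i z 1 ∈ strip) := by
  refine ⟨?_, ?_, ?_⟩
  · rcases Fin.eq_zero_or_eq_succ i with h | ⟨h, rfl⟩
    · subst h
      exact Or.inl (xx_left_zero t z)
    · rw [xx_left]
      exact hz _
  · rcases Fin.eq_castSucc_or_eq_last i with ⟨h, rfl⟩ | h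
    · rw [xx_right]
      exact hz _
    · subst h
      exact Or.inl (xx_right_last t z)
  · intro hi
    rw [xx_mid t hi]
    exact hz _

/-- **The growth rate does not decrease when a hinge leaves the wall.** -/
theorem wall_hinge (hstd : ∀ i, (t i).Std)
    (hone : ∀ h : Fin M, t h.castSucc = .one → t h.succ = .one →
      sgb (b h.castSucc) + sgb (b h.succ) = 0)
    {P : Par (DD t)} (hP : P.Good) (zs : DD t ⊕ ZZ t → ℂ) {y : DD t ⊕ ZZ t → ℝ}
    (hy : y ∈ P.box (ZZ t)) (hy1 : ∀ j : DD t, y (.inl j) < 1)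
    (hring : ∀ v : ZZ t, |y (.inr v)| < 1 / 2) (h : Fin M) (h0 : y (.inl (.inl h)) = 0) :
    ∀ᶠ s in 𝓝[>] (0 : ℝ), (wdat t b).V (P.pth zs y) ≤
      (wdat t b).V (P.pth zs (Function.update y (.inl (.inl h)) s)) := by
  set j : DD t ⊕ ZZ t := .inl (.inl h) with hj
  set z := P.pth zs y with hz
  set m : ℝ := P.sR zs j 0 with hm
  have hcl : 0 < P.cl (.inl h) := (hP (.inl h)).1
  have hlin0 : ∀ s, 0 ≤ s → s ≤ P.cl (.inl h) → P.hgt zs j s = s * m := by
    intro s hs0 hs1
    obtain ⟨hc, hc', hb⟩ := hP (.inl h)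
    simp only [hj, hm, Par.hgt, Par.sR]
    rw [tr_a hc hc' hb hs0 hs1, if_pos hc]
    ring
  have hzor : ∀ i : DD t, z (.inl i) = 0 ∨ z (.inl i) ∈ strip := by
    intro i
    have h1 := hy.1 (.inl i)
    simp only [plo] at h1
    rcases eq_or_lt_of_le h1 with h2 | h2
    · left
      obtain ⟨hc, hc', hb⟩ := hP i
      simp only [hz, Par.pth, Par.hgt, ← h2]
      rw [tr_a hc hc' hb le_rfl hc.le]
      simp
    · right
      constructor
      · simp [hz, Par.pth, h2]
      · simp [hz, Par.pth, hy1 i]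
  have hz0 : z j = 0 := by
    simp only [hz, Par.pth]
    rw [h0, hlin0 0 le_rfl hcl.le]
    simp
  have hzr : ∀ i, t i = .ring → |(xx t i z 1).re| < 1 / 2 := by
    intro i hi
    have hi' : (t i).isRing = true := by rw [hi]; rfl
    rw [xx_ring t hi']
    have h1 : (z (.inr ⟨i, hi'⟩)).re = y (.inr ⟨i, hi'⟩) := by simp [hz, Par.pth]
    rw [h1]
    exact hring _
  have hupd : ∀ s, 0 ≤ s → s ≤ P.cl (.inl h) → P.pth zs (Function.update y j s) =
      Function.update z j (wqs m s) := by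
    intro s hs0 hs1
    funext k
    by_cases hk : k = j
    · subst hk
      simp only [Par.pth, Function.update_self]
      rw [hlin0 s hs0 hs1]
      unfold wqs
      push_cast
      ring
    · simp only [Par.pth, hz]
      rw [Function.update_of_ne hk, Function.update_of_ne hk]
      rfl
  obtain ⟨a0, a2, a1⟩ := xx_or t hzor h.castSucc
  obtain ⟨b0, b2, b1⟩ := xx_or t hzor h.succ
  have k1 := kind_two (hstd h.castSucc) (b h.castSucc) (decide (h.castSucc ≠ 0)) m a0 a1
    (hzr h.castSucc)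
  have k2 := kind_zero (hstd h.succ) (b h.succ) (decide (h.succ ≠ Fin.last M)) m b2 b1
    (hzr h.succ)
  have hs1 : ∀ c : ℤ, |sgb c| ≤ 1 := by
    intro c
    unfold sgb
    split_ifs <;> simp
  have k3 := kind_add k1 k2 (hs1 _) (hs1 _) (hone h)
  have f1 := fac_two (hstd h.castSucc) (decide (h.castSucc ≠ 0)) m a0 a1 (hzr h.castSucc)
  have f2 := fac_zero (hstd h.succ) (decide (h.succ ≠ Fin.last M)) m b2 b1 (hzr h.succ)
  have hev : ∀ᶠ s : ℝ in 𝓝[>] 0, HasDerivAt
      (fun s => (wdat t b).V (P.pth zs (Function.update y j s)))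
      (side (t h.castSucc) (b h.castSucc) (decide (h.castSucc ≠ 0)) true 2 m
        (Function.update (xx t h.castSucc z) 2 (wqs m s)) +
      side (t h.succ) (b h.succ) true (decide (h.succ ≠ Fin.last M)) 0 m
        (Function.update (xx t h.succ z) 0 (wqs m s))) s := by
    filter_upwards [f1, f2, ev_small hcl] with s f1 f2 hs
    have e1 := hupd s hs.1.le hs.2.le
    have hd := hasDerivAt_V_path (wdat t b) (P := P) zs (x := Function.update y j s) (j := j) (m := m)
      (by
        rw [Function.update_self]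
        filter_upwards [Ioo_mem_nhds hs.1 hs.2] with s' hs'
        rw [hlin0 s' hs'.1.le hs'.2.le, hlin0 s hs.1.le hs.2.le]
        ring)
      (by
        rw [e1]
        refine forms_hinge t b ?_ ?_
        · rw [xx_update_left t h z _ hz0]
          have : decide (h.castSucc ≠ Fin.last M) = true := by simp [Fin.castSucc_ne_last]
          rw [this]
          exact f1
        · rw [xx_update_right t h z _ hz0]
          have : decide (h.succ ≠ 0) = true := by simp [Fin.succ_ne_zero]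
          rw [this]
          exact f2)
    simp only [Function.update_self, Function.update_idem] at hd
    refine hd.congr_deriv ?_
    rw [e1, wdat_d1_hinge, wdat_d2_hinge]
    unfold rdat rx side
    rw [xx_update_left t h z _ hz0, xx_update_right t h z _ hz0]
    have c1 : decide (h.castSucc ≠ Fin.last M) = true := by simp [Fin.castSucc_ne_last]
    have c2 : decide (h.succ ≠ 0) = true := by simp [Fin.succ_ne_zero]
    rw [c1, c2]
    ring
  obtain ⟨r, hr, hr2⟩ := mem_nhdsGT_iff_exists_Ioo_subset.1 (hev.and k3)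
  have hcont : Continuous fun s : ℝ => (wdat t b).V (P.pth zs (Function.update y j s)) :=
    ((wdat t b).continuous_V.comp (continuous_pth P zs)).comp
      (continuous_const.update j continuous_id)
  filter_upwards [ev_small (show (0 : ℝ) < r from hr)] with s hs
  have hmono : MonotoneOn (fun s : ℝ => (wdat t b).V (P.pth zs (Function.update y j s)))
      (Set.Icc 0 s) := by
    refine monotoneOn_of_deriv_nonneg (convex_Icc _ _) hcont.continuousOn ?_ ?_
    · rw [interior_Icc]
      intro u hu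
      exact (hr2 ⟨hu.1, hu.2.trans hs.2⟩).1.differentiableAt.differentiableWithinAt
    · rw [interior_Icc]
      intro u hu
      have h1 := hr2 ⟨hu.1, hu.2.trans hs.2⟩
      rw [h1.1.deriv]
      exact h1.2
  have h1 := hmono (Set.left_mem_Icc.2 hs.1.le) (Set.right_mem_Icc.2 hs.1.le) hs.1.le
  have e0 : Function.update y j 0 = y := by
    rw [← h0]
    exact Function.update_eq_self j y
  simp only [e0] at h1
  exact h1

end

end Pool.Agent.Work.MP_b30479_gtS.G2

end

section

/-!
# Mirror images of runs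
-/

namespace Pool.Agent.Work.MP_b30479_gtS.G2

open Finset VOL Filter Topology

/-- the mirror image of a type -/
def Typ.mir : Typ → Typ
  | .threeL => .threeR
  | .threeR => .threeL
  | .fourL => .fourR
  | .fourR => .fourL
  | t => t

theorem Typ.mir_mir (t : Typ) : t.mir.mir = t := by cases t <;> rfl

/-- the local variables in the reversed order -/
def mir3 (x : Fin 3 → ℂ) : Fin 3 → ℂ := fun p => x (Fin.rev p)

theorem mir3_zero (x : Fin 3 → ℂ) : mir3 x 0 = x 2 := rfl
theorem mir3_one (x : Fin 3 → ℂ) : mir3 x 1 = x 1 := rfl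
theorem mir3_two (x : Fin 3 → ℂ) : mir3 x 2 = x 0 := rfl

theorem mir3_mir3 (x : Fin 3 → ℂ) : mir3 (mir3 x) = x := by
  funext p
  simp [mir3]

theorem mir3_update (x : Fin 3 → ℂ) (p : Fin 3) (c : ℂ) :
    mir3 (Function.update x p c) = Function.update (mir3 x) (Fin.rev p) c := by
  funext q
  unfold mir3
  by_cases h : q = Fin.rev p
  · subst h
    simp
  · rw [Function.update_of_ne h, Function.update_of_ne]
    intro h2
    apply h
    rw [← h2, Fin.rev_rev]

/-- the mirror image of a factor -/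
def Fac.mir (f : Fac) : Fac := ⟨fun p => f.α (Fin.rev p), f.a, f.c⟩

theorem Fac.mir_form (f : Fac) (x : Fin 3 → ℂ) : f.mir.form (mir3 x) = f.form x := by
  unfold Fac.form Fac.mir mir3
  simp only [Fin.sum_univ_three]
  have e0 : Fin.rev (0 : Fin 3) = 2 := rfl
  have e1 : Fin.rev (1 : Fin 3) = 1 := rfl
  have e2 : Fin.rev (2 : Fin 3) = 0 := rfl
  rw [e0, e1, e2]
  ring

theorem fac_mk_mir (α : Fin 3 → ℤ) (a c : ℝ) :
    (Fac.mk α a c).mir = ⟨![α 2, α 1, α 0], a, c⟩ := by
  unfold Fac.mir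
  congr 1
  funext p
  fin_cases p <;> rfl

theorem sum_mir (t : Typ) (l r : Bool) (F : Fac → ℝ) :
    ((facs t l r).map fun f => F f.mir).sum = ((facs t.mir r l).map F).sum := by
  cases t <;> cases l <;> cases r <;>
    simp [facs, hL, hR, Typ.mir, fac_mk_mir] <;> ring

theorem all_mir (t : Typ) (l r : Bool) (Q : Fac → Prop) :
    (∀ f ∈ facs t l r, Q f.mir) ↔ ∀ f ∈ facs t.mir r l, Q f := by
  cases t <;> cases l <;> cases r <;>
    simp [facs, hL, hR, Typ.mir, fac_mk_mir] <;> tauto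

theorem qq2_mir (t : Typ) (p q : Fin 3) : qq2 t.mir (Fin.rev p) (Fin.rev q) = qq2 t p q := by
  cases t <;> revert p q <;> decide

theorem rr1_mir (t : Typ) (p : Fin 3) : rr1 t.mir (Fin.rev p) = rr1 t p := by
  cases t <;> revert p <;> decide

theorem sum_rev {E : Type*} [AddCommMonoid E] (g : Fin 3 → E) : ∑ q, g (Fin.rev q) = ∑ q, g q :=
  Equiv.sum_comp Fin.revPerm g

theorem lquad_mir (t : Typ) (b : ℤ) (x : Fin 3 → ℂ) : lquad t.mir b (mir3 x) = lquad t b x := by
  unfold lquad
  congr 2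
  · rw [← sum_rev]
    refine Finset.sum_congr rfl fun p _ => ?_
    rw [← sum_rev]
    refine Finset.sum_congr rfl fun q _ => ?_
    rw [qq2_mir]
    simp only [mir3, Fin.rev_rev]
  · rw [← sum_rev]
    refine Finset.sum_congr rfl fun p _ => ?_
    rw [rr1_mir]
    simp only [mir3, Fin.rev_rev]

theorem mir_ring (t : Typ) : t.mir = .ring ↔ t = .ring := by cases t <;> simp [Typ.mir]

/-- the growth rate of the mirror image -/
theorem ldat_V_mir (t : Typ) (b : ℤ) (l r : Bool) (x : Fin 3 → ℂ) :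
    (ldat t.mir b r l).V (lx (mir3 x)) = (ldat t b l r).V (lx x) := by
  rw [ldat_V, ldat_V]
  unfold lV
  rw [lquad_mir, ← sum_mir t l r fun f => UU (f.form (mir3 x))]
  simp only [Fac.mir_form, mir_ring, mir3_one]

theorem rev_eq_one {p : Fin 3} : Fin.rev p = 1 ↔ p = 1 := by revert p; decide

theorem d1_mir (t : Typ) (b : ℤ) (l r : Bool) (x : Fin 3 → ℂ) (p : Fin 3) :
    (ldat t.mir b r l).d1 (lx (mir3 x)) (.inl (Fin.rev p)) = (ldat t b l r).d1 (lx x) (.inl p) := by
  rw [ldat_d1, ldat_d1, ← sum_mir t l r fun f => f.α (Fin.rev p) * LL (f.form (mir3 x))]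
  simp only [Fac.mir_form, mir_ring, mir3_one, rev_eq_one]
  congr 2
  · rw [← sum_rev]
    simp only [qq2_mir, mir3, Fin.rev_rev]
  · congr 1
    funext f
    simp [Fac.mir]

theorem d2_mir (t : Typ) (b : ℤ) (l r : Bool) (x : Fin 3 → ℂ) (p : Fin 3) :
    (ldat t.mir b r l).d2 (lx (mir3 x)) (.inl (Fin.rev p)) = (ldat t b l r).d2 (lx x) (.inl p) := by
  rw [ldat_d2, ldat_d2, ← sum_mir t l r fun f => f.α (Fin.rev p) * YY (f.form (mir3 x))]
  simp only [Fac.mir_form, mir_ring, mir3_one, rev_eq_one, rr1_mir]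
  congr 2
  · rw [← sum_rev]
    simp only [qq2_mir, mir3, Fin.rev_rev]
  · congr 1
    funext f
    simp [Fac.mir]

/-- **Sides of the mirror image.** -/
theorem side_mir (t : Typ) (b : ℤ) (l r : Bool) (p : Fin 3) (m : ℝ) (x : Fin 3 → ℂ) :
    side t.mir b r l (Fin.rev p) m (mir3 x) = side t b l r p m x := by
  unfold side
  rw [d1_mir, d2_mir]

theorem facAll_mir (t : Typ) (l r : Bool) (p : Fin 3) (x : Fin 3 → ℂ) (Q : ℂ → Prop) :
    FacAll t.mir r l (Fin.rev p) (mir3 x) Q ↔ FacAll t l r p x Q := by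
  unfold FacAll
  rw [← all_mir t l r fun f => f.α (Fin.rev p) ≠ 0 → Q (f.form (mir3 x))]
  simp only [Fac.mir_form]
  simp [Fac.mir]

/-! ### complex conjugation -/

theorem LL_conj (u : ℂ) : LL (starRingEnd ℂ u) = LL u := by
  unfold LL
  simp

theorem YY_conj (u : ℂ) : YY (starRingEnd ℂ u) = -YY u := by
  unfold YY
  simp only [Complex.conj_im, Complex.conj_re]
  rcases lt_trichotomy u.im 0 with h | h | h
  · rw [if_pos (by linarith), if_neg (by linarith), if_pos h]
    ring
  · rw [h]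
    simp
  · rw [if_neg (by linarith), if_pos (by linarith), if_pos h]
    ring

/-- conjugate local variables; the variable `ζ` of a ring goes to `-conj ζ` -/
noncomputable def cj (t : Typ) (x : Fin 3 → ℂ) : Fin 3 → ℂ := fun p =>
  if t = .ring ∧ p = 1 then -starRingEnd ℂ (x p) else starRingEnd ℂ (x p)

theorem cj_zero (t : Typ) (x : Fin 3 → ℂ) : cj t x 0 = starRingEnd ℂ (x 0) := by simp [cj]
theorem cj_two (t : Typ) (x : Fin 3 → ℂ) : cj t x 2 = starRingEnd ℂ (x 2) := by simp [cj]
theorem cj_one {t : Typ} (ht : t ≠ .ring) (x : Fin 3 → ℂ) : cj t x 1 = starRingEnd ℂ (x 1) := by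
  simp [cj, ht]
theorem cj_ring (x : Fin 3 → ℂ) : cj .ring x 1 = -starRingEnd ℂ (x 1) := by simp [cj]

theorem sgb_neg {b : ℤ} (hb : b ≠ 0) : sgb (-b) = -sgb b := by
  unfold sgb
  rcases lt_or_gt_of_ne hb with h | h
  · rw [if_pos (by omega), if_neg (by omega)]
    ring
  · rw [if_neg (by omega), if_pos h]

theorem cadd (u v : ℂ) : starRingEnd ℂ u + starRingEnd ℂ v = starRingEnd ℂ (u + v) :=
  (map_add _ _ _).symm

theorem csub (u v : ℂ) : starRingEnd ℂ u - starRingEnd ℂ v = starRingEnd ℂ (u - v) :=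
  (map_sub _ _ _).symm

theorem chalf : (1 / 2 : ℂ) = starRingEnd ℂ (1 / 2) := by
  rw [map_div₀, map_one, map_ofNat]

section
variable {b : ℤ} (hb : b ≠ 0) (l r : Bool) (m : ℝ) (x : Fin 3 → ℂ)
include hb

theorem side_cj_zero (t : Typ) (ht : t.Std) :
    side t (-b) true r 0 (-m) (cj t x) = side t b true r 0 m x := by
  unfold side
  cases t with
  | one =>
    rw [d1_one_zero, d2_one_zero, d1_one_zero, d2_one_zero, cj_zero, cj_two, sgb_neg hb, cadd,
      LL_conj, LL_conj, YY_conj, YY_conj]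
    simp only [Complex.conj_im, Complex.conj_re]
    ring
  | two =>
    rw [d1_two_zero, d2_two_zero, d1_two_zero, d2_two_zero, cj_zero, cj_two, sgb_neg hb, cadd,
      LL_conj, LL_conj, YY_conj, YY_conj]
    simp only [Complex.conj_im, Complex.conj_re]
    ring
  | threeL =>
    rw [d1_threeL_zero, d2_threeL_zero, d1_threeL_zero, d2_threeL_zero, cj_zero,
      cj_one (by decide), sgb_neg hb, csub, LL_conj, LL_conj, YY_conj, YY_conj]
    simp only [Complex.conj_im, Complex.conj_re]
    ring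
  | threeR =>
    rw [d1_threeR_zero, d2_threeR_zero, d1_threeR_zero, d2_threeR_zero, cj_zero,
      cj_one (by decide), sgb_neg hb, cadd, LL_conj, LL_conj, YY_conj, YY_conj]
    simp only [Complex.conj_im, Complex.conj_re]
    ring
  | fourL => exact ht.elim
  | fourR => exact ht.elim
  | ring =>
    have e1 : starRingEnd ℂ (x 0) + 1 / 2 + -starRingEnd ℂ (x 1) =
        starRingEnd ℂ (x 0 + 1 / 2 - x 1) := by
      rw [map_sub, map_add, ← chalf]
      ring
    have e2 : starRingEnd ℂ (x 0) + 1 / 2 - -starRingEnd ℂ (x 1) =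
        starRingEnd ℂ (x 0 + 1 / 2 + x 1) := by
      rw [map_add, map_add, ← chalf]
      ring
    rw [d1_ring_zero, d2_ring_zero, d1_ring_zero, d2_ring_zero, cj_zero, cj_ring, e1, e2,
      LL_conj, LL_conj, LL_conj, YY_conj, YY_conj, YY_conj]
    ring

theorem side_cj_two (t : Typ) (ht : t.Std) :
    side t (-b) l true 2 (-m) (cj t x) = side t b l true 2 m x := by
  have h1 := side_mir t (-b) l true 2 (-m) (cj t x)
  have h2 := side_mir t b l true 2 m x
  have e0 : Fin.rev (2 : Fin 3) = 0 := rfl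
  have e1 : mir3 (cj t x) = cj t.mir (mir3 x) := by
    funext p
    unfold mir3 cj
    have h3 : (t.mir = .ring ∧ p = 1) ↔ (t = .ring ∧ Fin.rev p = 1) := by
      rw [mir_ring, rev_eq_one]
    by_cases h : t = .ring ∧ Fin.rev p = 1
    · rw [if_pos h, if_pos (h3.2 h)]
    · rw [if_neg h, if_neg (fun hc => h (h3.1 hc))]
  have ht' : t.mir.Std := by
    cases t <;> exact ht
  rw [← h1, ← h2, e0, e1]
  exact side_cj_zero hb l m (mir3 x) t.mir ht'

theorem side_cj_mid (t : Typ) (ht : t.isMid = true) (hs : t.Std) :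
    side t (-b) l r 1 (-m) (cj t x) = side t b l r 1 m x := by
  unfold side
  cases t with
  | one => exact absurd ht (by decide)
  | two => exact absurd ht (by decide)
  | threeL =>
    rw [d1_threeL_one, d2_threeL_one, d1_threeL_one, d2_threeL_one, cj_zero,
      cj_one (by decide), cj_two, sgb_neg hb, csub, cadd, LL_conj, LL_conj, LL_conj, YY_conj,
      YY_conj, YY_conj]
    simp only [Complex.conj_im, Complex.conj_re]
    ring
  | threeR =>
    rw [d1_threeR_one, d2_threeR_one, d1_threeR_one, d2_threeR_one, cj_zero,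
      cj_one (by decide), cj_two, sgb_neg hb, csub, cadd, LL_conj, LL_conj, LL_conj, YY_conj,
      YY_conj, YY_conj]
    simp only [Complex.conj_im, Complex.conj_re]
    ring
  | fourL => exact hs.elim
  | fourR => exact hs.elim
  | ring => exact absurd ht (by decide)

omit hb in
theorem side_cj_ring :
    side .ring (-b) l r 1 (-m) (cj .ring x) = -side .ring b l r 1 m x := by
  have f : ∀ y : ℂ, starRingEnd ℂ y + 1 / 2 + -starRingEnd ℂ (x 1) =
      starRingEnd ℂ (y + 1 / 2 - x 1) := by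
    intro y
    rw [map_sub, map_add, ← chalf]
    ring
  have g : ∀ y : ℂ, starRingEnd ℂ y + 1 / 2 - -starRingEnd ℂ (x 1) =
      starRingEnd ℂ (y + 1 / 2 + x 1) := by
    intro y
    rw [map_add, map_add, ← chalf]
    ring
  unfold side
  rw [d1_ring_one, d2_ring_one, d1_ring_one, d2_ring_one, cj_zero, cj_two, cj_ring, f, f, g, g]
  simp only [LL_conj, YY_conj, Complex.neg_im, Complex.neg_re, Complex.conj_im, Complex.conj_re]
  push_cast
  split_ifs <;> ring

omit hb in
theorem fac_form_cj (t : Typ) (f : Fac) (x : Fin 3 → ℂ) (ht : t ≠ .ring) :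
    f.form (cj t x) = starRingEnd ℂ (f.form x) := by
  unfold Fac.form cj
  simp [ht]

end

/-! ### values in closed form -/

section
set_option linter.unusedSimpArgs false
variable (b : ℤ) (l r : Bool) (x : Fin 3 → ℂ)

theorem V_ring : (ldat .ring b l r).V (lx x) =
    (Real.pi * Complex.I * b * x 1 ^ 2 + 2 * Real.pi * Complex.I * x 1).re +
      (if l = true then UU (x 0 + 1 / 2 + x 1) + UU (x 0 + 1 / 2 - x 1) - 2 * UU (x 0) else 0) +
      (if r = true then UU (x 2 + 1 / 2 + x 1) + UU (x 2 + 1 / 2 - x 1) - 2 * UU (x 2) else 0) := by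
  rw [ldat_V]
  unfold lV lquad
  cases l <;> cases r <;> simp [facs, hL, hR, qq2, rr1, Fin.sum_univ_three, Fac.form_mk, f1 x, f2 x,
    f3 x, g1 x, g2 x, g3 x, g4 x, UU_one_sub] <;> ring

theorem V_one : (ldat .one b true true).V (lx x) =
    sgb b * Real.pi * (x 0 * x 2 - x 0 - x 2).im + UU (x 0 + x 2) - UU (x 0) - UU (x 2) := by
  rw [ldat_V]
  unfold lV lquad
  rw [un_re_mul]
  simp [facs, qq2, rr1, Fin.sum_univ_three, Fac.form_mk, f1 x, f3 x, UU_one_sub]
  ring

theorem V_two : (ldat .two b l r).V (lx x) =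
    -(sgb b * Real.pi / 2 * ((x 0 - x 2) ^ 2 + x 0 + x 2).im) +
      (if l = true ∨ r = true then UU (x 0 + x 2) else 0) +
      (if l = true then -(2 * UU (x 0)) else 0) + (if r = true then -(2 * UU (x 2)) else 0) := by
  rw [ldat_V]
  unfold lV lquad
  rw [un_re_mul]
  cases l <;> cases r <;> simp [facs, hL, hR, qq2, rr1, Fin.sum_univ_three, Fac.form_mk, f1 x,
    f3 x, UU_one_sub, pow_two] <;> ring_nf <;> simp

theorem V_threeL : (ldat .threeL b l r).V (lx x) =
    -(sgb b * Real.pi / 2 * (2 * x 0 * x 1 + (x 1 - x 2) ^ 2 - x 1 + x 2).im) +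
      UU (x 1 + x 2) - UU (x 1 - x 0) - UU (x 1) +
      (if l = true then -UU (x 0) else 0) + (if r = true then -(2 * UU (x 2)) else 0) := by
  rw [ldat_V]
  unfold lV lquad
  rw [un_re_mul]
  cases l <;> cases r <;> simp [facs, hL, hR, qq2, rr1, Fin.sum_univ_three, Fac.form_mk, f1 x,
    f2 x, f3 x, f4 x, f5 x, UU_one_sub, pow_two] <;> ring

theorem V_threeR : (ldat .threeR b l r).V (lx x) =
    -(sgb b * Real.pi / 2 * (2 * x 2 * x 1 + (x 1 - x 0) ^ 2 - x 1 + x 0).im) +
      UU (x 0 + x 1) - UU (x 1 - x 2) - UU (x 1) +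
      (if r = true then -UU (x 2) else 0) + (if l = true then -(2 * UU (x 0)) else 0) := by
  rw [ldat_V]
  unfold lV lquad
  rw [un_re_mul]
  cases l <;> cases r <;> simp [facs, hL, hR, qq2, rr1, Fin.sum_univ_three, Fac.form_mk, f1 x,
    f2 x, f3 x, f4 x, f5 x, UU_one_sub, pow_two] <;> ring

end

section
variable {b : ℤ} (hb : b ≠ 0) (l r : Bool) (x : Fin 3 → ℂ)
include hb

/-- the growth rate of the conjugate -/
theorem ldat_V_cj (t : Typ) (ht : t.Std) :
    (ldat t (-b) l r).V (lx (cj t x)) = (ldat t b l r).V (lx x) := by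
  by_cases hr : t = .ring
  · subst hr
    have f : ∀ y : ℂ, starRingEnd ℂ y + 1 / 2 + -starRingEnd ℂ (x 1) =
        starRingEnd ℂ (y + 1 / 2 - x 1) := by
      intro y
      rw [map_sub, map_add, ← chalf]
      ring
    have g : ∀ y : ℂ, starRingEnd ℂ y + 1 / 2 - -starRingEnd ℂ (x 1) =
        starRingEnd ℂ (y + 1 / 2 + x 1) := by
      intro y
      rw [map_add, map_add, ← chalf]
      ring
    rw [V_ring, V_ring, cj_zero, cj_two, cj_ring, f, f, g, g]
    simp only [UU_conj]
    have e : (Real.pi * Complex.I * ((-b : ℤ) : ℂ) * (-starRingEnd ℂ (x 1)) ^ 2 +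
        2 * Real.pi * Complex.I * -starRingEnd ℂ (x 1)) =
        starRingEnd ℂ (Real.pi * Complex.I * b * x 1 ^ 2 + 2 * Real.pi * Complex.I * x 1) := by
      simp [Complex.conj_ofNat]
    rw [e, Complex.conj_re]
    split_ifs <;> ring
  · have hun : un (-b) = starRingEnd ℂ (un b) := by
      unfold un
      rcases lt_or_gt_of_ne hb with h | h
      · rw [if_pos (by omega), if_neg (by omega)]
        simp [Complex.conj_ofNat]
        ring
      · rw [if_neg (by omega), if_pos h]
        simp [Complex.conj_ofNat]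
        ring
    rw [ldat_V, ldat_V, if_neg hr, if_neg hr]
    congr 1
    unfold lV
    congr 1
    · have : lquad t (-b) (cj t x) = starRingEnd ℂ (lquad t b x) := by
        unfold lquad
        rw [hun]
        simp [cj, hr]
      rw [this, Complex.conj_re]
    · congr 1
      apply List.map_congr_left
      intro f _
      rw [fac_form_cj t f x hr, UU_conj]

end

end Pool.Agent.Work.MP_b30479_gtS.G2

end
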