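import Pool.Agent.Work.MP_b30479_gt.TBS.G2.VDer
import Pool.Agent.Work.MP_b30479_gt.TBS.DT.Conc
import Pool.Agent.Work.MP_b30479_gt.TBS.LT.Cube
import Pool.Agent.Work.MP_b30479_gt.TBS.TB.Lob
import Pool.Agent.Work.MP_b30479_gt.TBS.G2.MaxP
import Pool.Agent.Work.MP_b30479_gt.TBS.G2.Num.Fn

section

/-!
# Monotonicity of the derivatives of `UU`; twist regions with a ring variable

`DT.Tr s x` (`s > 0`) is increasing in `x`, increasing in `s` for `x ∈ [1/2, 1]`, decreasing in `s` for
`x ∈ [0, 1/2]` and `x ∈ [1, 3/2]`.  Consequences for the function `fR w ζ` of a twist region with a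
ring variable `ζ` (number of crossings positive) and a hinge `w` with `Im w ≤ 0`:

* `fR_reflect`: `fR w (σ + iη) ≤ fR w (-σ + iη)` for `0 ≤ σ`, `0 ≤ η`;
* `YY_hinge_nonpos`: the vertical derivative in `w` is `≤ 0` for `Re ζ ≤ 0`;
* `YY_ring_nonneg`, `LL_ring_nonneg`: the derivatives in `ζ` are `≥ 0` for `Re ζ ≤ 0`.
-/

namespace Pool.Agent.Work.MP_b30479_gtS.G2

open Finset VOL Filter Topology

/-! ### the function `Tr` -/

theorem Tr_half {s : ℝ} (hs : 0 < s) : DT.Tr s (1 / 2) = Real.pi / 2 := by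
  have h := DT.Tr_one_sub hs (1 / 2)
  norm_num at h ⊢
  linarith only [h]

private theorem Tr_add_one (s x : ℝ) : DT.Tr s (x + 1) = DT.Tr s x + Real.pi := by
  have e : Complex.exp (2 * Real.pi * Complex.I * (((x + 1 : ℝ) : ℂ) + s * Complex.I)) =
      Complex.exp (2 * Real.pi * Complex.I * ((x : ℂ) + s * Complex.I)) := by
    rw [show (2 * Real.pi * Complex.I * (((x + 1 : ℝ) : ℂ) + s * Complex.I)) =
      2 * Real.pi * Complex.I * ((x : ℂ) + s * Complex.I) + 2 * Real.pi * Complex.I by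
        push_cast; ring, Complex.exp_add, Complex.exp_two_pi_mul_I, mul_one]
  unfold DT.Tr
  rw [e]
  ring

theorem Tr_mono {s x y : ℝ} (hs : 0 < s) (h : x ≤ y) : DT.Tr s x ≤ DT.Tr s y :=
  (DT.Tr_strictMono hs).monotone h

theorem Tr_one {s : ℝ} (hs : 0 < s) : DT.Tr s 1 = Real.pi := by
  have := Tr_add_one s 0
  rw [zero_add, DT.Tr_zero hs, zero_add] at this
  exact this

/-- monotonicity in the height for `x ∈ [1/2, 1]` -/
theorem Tr_mono_left {s s' x : ℝ} (hs : 0 < s) (h : s ≤ s') (h0 : 1 / 2 ≤ x) (h1 : x ≤ 1) :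
    DT.Tr s x ≤ DT.Tr s' x := by
  have hm : MonotoneOn (fun r => DT.Tr r x) (Set.Ioi 0) := by
    apply monotoneOn_of_deriv_nonneg (convex_Ioi 0)
    · exact fun r hr => (DT.hasDerivAt_Tr_left (Set.mem_Ioi.mp hr)).continuousAt.continuousWithinAt
    · intro r hr
      rw [interior_Ioi] at hr
      exact (DT.hasDerivAt_Tr_left (Set.mem_Ioi.mp hr)).differentiableAt.differentiableWithinAt
    · intro r hr
      rw [interior_Ioi] at hr
      rw [(DT.hasDerivAt_Tr_left (Set.mem_Ioi.mp hr)).deriv]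
      have hpi := Real.pi_pos
      have h2 : Real.sin (2 * Real.pi * x) ≤ 0 := by
        have h3 : 0 ≤ Real.sin (2 * Real.pi * x - Real.pi) := by
          apply Real.sin_nonneg_of_nonneg_of_le_pi <;> nlinarith only [h0, hpi, h1]
        rw [Real.sin_sub_pi] at h3
        linarith only [h3]
      have h4 := DT.LrDer.cosh_gt_cos (v := x) (Set.mem_Ioi.mp hr)
      have h5 : DT.rr r x ≤ 0 := div_nonpos_of_nonpos_of_nonneg h2 (by linarith only [h4])
      nlinarith only [hpi, h5]
  exact hm (Set.mem_Ioi.mpr hs) (Set.mem_Ioi.mpr (hs.trans_le h)) h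

/-- monotonicity in the height for `x ∈ [0, 1/2]` -/
theorem Tr_anti_left {s s' x : ℝ} (hs : 0 < s) (h : s ≤ s') (h0 : 0 ≤ x) (h1 : x ≤ 1 / 2) :
    DT.Tr s' x ≤ DT.Tr s x := by
  have h2 := Tr_mono_left hs h (x := 1 - x) (by linarith only [h1]) (by linarith only [h0])
  rw [DT.Tr_one_sub hs, DT.Tr_one_sub (hs.trans_le h)] at h2
  linarith only [h2]

/-- monotonicity in the height for `x ∈ [1, 3/2]` -/
theorem Tr_anti_left' {s s' x : ℝ} (hs : 0 < s) (h : s ≤ s') (h0 : 1 ≤ x) (h1 : x ≤ 3 / 2) :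
    DT.Tr s' x ≤ DT.Tr s x := by
  have h2 := Tr_anti_left hs h (x := x - 1) (by linarith only [h0]) (by linarith only [h1])
  have h3 := Tr_add_one s (x - 1)
  have h4 := Tr_add_one s' (x - 1)
  rw [sub_add_cancel] at h3 h4
  linarith only [h2, h3, h4]

/-- lower bound for `x ∈ [0, 1/2]` -/
theorem pi_mul_le_Tr {s x : ℝ} (h0 : 0 ≤ x) (h1 : x ≤ 1 / 2) (hs : 0 < s) :
    Real.pi * x ≤ DT.Tr s x := by
  rw [DT.LrDer.Tr_eq]
  have hpi := Real.pi_pos
  have h2 : (Complex.log (1 - DT.LrDer.qq s x)).im ≤ 0 := by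
    rw [Complex.log_im]
    have h3 : (1 - DT.LrDer.qq s x).im ≤ 0 := by
      rw [Complex.sub_im, Complex.one_im, DT.LrDer.qq_im]
      have h4 : 0 ≤ Real.sin (2 * Real.pi * x) := by
        apply Real.sin_nonneg_of_nonneg_of_le_pi <;> nlinarith only [h0, hpi, h1]
      have := mul_nonneg (Real.exp_pos (-(2 * Real.pi * s))).le h4
      linarith only [this]
    rcases h3.lt_or_eq with h4 | h4
    · exact (Complex.arg_neg_iff.mpr h4).le
    · have h5 := (DT.LrDer.one_sub_qq_mem (x := x) hs)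
      rcases h5 with h5 | h5
      · exact (Complex.arg_eq_zero_iff.mpr ⟨h5.le, h4⟩).le
      · exact absurd h4 h5
  linarith only [h2]

theorem Tr_le_half {s x : ℝ} (hs : 0 < s) (h1 : x ≤ 1 / 2) : DT.Tr s x ≤ Real.pi / 2 := by
  rw [← Tr_half hs]
  exact Tr_mono hs h1

theorem half_le_Tr {s x : ℝ} (hs : 0 < s) (h1 : 1 / 2 ≤ x) : Real.pi / 2 ≤ DT.Tr s x := by
  rw [← Tr_half hs]
  exact Tr_mono hs h1

/-- upper bound for `x ∈ [1/2, 1]` -/
theorem Tr_le_pi_mul {s x : ℝ} (h0 : 1 / 2 ≤ x) (h1 : x ≤ 1) (hs : 0 < s) :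
    DT.Tr s x ≤ Real.pi * x := by
  have h := pi_mul_le_Tr (x := 1 - x) (by linarith only [h1]) (by linarith only [h0]) hs
  rw [DT.Tr_one_sub hs] at h
  linarith only [h]

/-- the key comparison: `A + B' = 1 + ...`; heights `s ≤ s'`, `x` or `1 - x` below `y` -/
theorem Tr_le_Tr {s s' x y : ℝ} (hs : 0 < s) (h : s ≤ s') (hx : x ≤ 1) (hxy : x ≤ y)
    (hy : 1 / 2 ≤ y) : DT.Tr s x ≤ DT.Tr s' y := by
  rcases le_total x (1 / 2) with h1 | h1
  · exact (Tr_le_half hs h1).trans (half_le_Tr (hs.trans_le h) hy)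
  · exact (Tr_mono_left hs h h1 hx).trans (Tr_mono (hs.trans_le h) hxy)

/-! ### the vertical derivative `YY` -/

theorem YY_pos {u : ℂ} (h : 0 < u.im) : YY u = DT.Tr u.im u.re - Real.pi / 2 := by
  unfold YY
  rw [if_pos h]

theorem YY_neg {u : ℂ} (h : u.im < 0) : YY u = Real.pi / 2 - DT.Tr (-u.im) u.re := by
  unfold YY
  rw [if_neg (not_lt.mpr h.le), if_pos h]
  ring

theorem YY_zero {u : ℂ} (h : u.im = 0) : YY u = 0 := by
  unfold YY
  rw [h]
  simp

private theorem YY_conj (u : ℂ) : YY (starRingEnd ℂ u) = -YY u := by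
  rcases lt_trichotomy u.im 0 with h | h | h
  · rw [YY_neg h, YY_pos (by simpa using h)]
    simp
  · rw [YY_zero h, YY_zero (by simpa using h)]
    simp
  · rw [YY_pos h, YY_neg (by simpa using h)]
    simp

private theorem LL_conj (u : ℂ) : LL (starRingEnd ℂ u) = LL u := by
  rw [LL_eq', LL_eq', Complex.conj_im, Complex.conj_re, mul_neg, Real.cosh_neg]

theorem YY_add_one (u : ℂ) : YY (u + 1) = YY u + if 0 < u.im then Real.pi else
    if u.im < 0 then -Real.pi else 0 := by
  rcases lt_trichotomy u.im 0 with h | h | h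
  · rw [YY_neg h, YY_neg (by simpa using h), if_neg (not_lt.mpr h.le), if_pos h, Complex.add_re,
      Complex.add_im, Complex.one_re, Complex.one_im, add_zero, Tr_add_one]
    ring
  · rw [YY_zero h, YY_zero (by simpa using h)]
    simp [h]
  · rw [YY_pos h, YY_pos (by simpa using h), if_pos h, Complex.add_re,
      Complex.add_im, Complex.one_re, Complex.one_im, add_zero, Tr_add_one]
    ring

/-! ### the function of a twist region with a ring variable -/

/-- the part of `V` of a ring next to the hinge `w` (without the quadratic part) -/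
noncomputable def fR (w ζ : ℂ) : ℝ := UU (w + 1 / 2 + ζ) + UU (w + 1 / 2 - ζ) - 2 * UU w

/-- vertical monotonicity of horizontal differences -/
theorem Lr_diff_mono {a b s s' : ℝ} (hab : b ≤ a) (h0 : 0 ≤ s) (h : s ≤ s') :
    DT.Lr s a - DT.Lr s b ≤ DT.Lr s' a - DT.Lr s' b := by
  have hm : MonotoneOn (fun r => DT.Lr r a - DT.Lr r b) (Set.Ici 0) := by
    apply monotoneOn_of_deriv_nonneg (convex_Ici 0)
    · exact ((DT.LrCont.continuous_Lr_left a).sub (DT.LrCont.continuous_Lr_left b)).continuousOn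
    · intro r hr
      rw [interior_Ici] at hr
      exact ((DT.hasDerivAt_Lr_left (Set.mem_Ioi.mp hr)).sub
        (DT.hasDerivAt_Lr_left (Set.mem_Ioi.mp hr))).differentiableAt.differentiableWithinAt
    · intro r hr
      rw [interior_Ici] at hr
      rw [((DT.hasDerivAt_Lr_left (Set.mem_Ioi.mp hr)).fun_sub
        (DT.hasDerivAt_Lr_left (Set.mem_Ioi.mp hr))).deriv]
      linarith only [hr, hab, Tr_mono (Set.mem_Ioi.mp hr) hab]
  exact hm (Set.mem_Ici.mpr h0) (Set.mem_Ici.mpr (h0.trans h)) h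

theorem UU_exchange {u v : ℂ} {y y' : ℝ} (huv : v.re ≤ u.re) (h1 : u.im = y) (h2 : v.im = y')
    (h : |y| ≤ |y'|) {u' v' : ℂ} (hu : u'.re = u.re) (hv : v'.re = v.re) (h3 : u'.im = y')
    (h4 : v'.im = y) : UU u + UU v ≤ UU u' + UU v' := by
  have key := Lr_diff_mono huv (abs_nonneg y) h
  unfold UU
  rw [hu, hv, h1, h2, h3, h4]
  linarith only [key]

/-- **Reflection.**  For a hinge with `Im w ≤ 0` the ring variable may be assumed to have real part
`≤ 0`. -/
theorem fR_reflect {w : ℂ} {σ η : ℝ} (hw : w.im ≤ 0) (hσ : 0 ≤ σ) (hη : 0 ≤ η) :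
    fR w (σ + η * Complex.I) ≤ fR w (-σ + η * Complex.I) := by
  unfold fR
  have h : |w.im + η| ≤ |w.im - η| := by
    rw [← sq_le_sq]
    nlinarith only [hw, hη, mul_nonneg_of_nonpos_of_nonpos hw (neg_nonpos.mpr hη)]
  have := UU_exchange (u := w + 1 / 2 + (σ + η * Complex.I)) (v := w + 1 / 2 - (σ + η * Complex.I))
    (u' := w + 1 / 2 - (-σ + η * Complex.I)) (v' := w + 1 / 2 + (-σ + η * Complex.I))
    (y := w.im + η) (y' := w.im - η) (by simp; linarith only [hσ]) (by simp) (by simp) h (by simp)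
    (by simp; ring) (by simp) (by simp)
  linarith only [this]

/-! ### signs of the derivatives -/

variable {x t σ η : ℝ}

/-- the vertical derivative of `fR` in the direction of the hinge -/
theorem YY_hinge_nonpos (hx0 : 0 ≤ x) (hx : x ≤ 1 / 2) (ht : t ≤ 0) (hσ : σ ≤ 0) (hσ' : -(1 / 2) ≤ σ)
    (hη : 0 ≤ η) {w ζ : ℂ} (hw : w = x + t * Complex.I) (hζ : ζ = σ + η * Complex.I) :
    YY (w + 1 / 2 + ζ) + YY (w + 1 / 2 - ζ) - 2 * YY w ≤ 0 := by
  have wi : w.im = t := by rw [hw]; simp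
  have wr : w.re = x := by rw [hw]; simp
  have ui : (w + 1 / 2 + ζ).im = t + η := by rw [hw, hζ]; simp
  have ur : (w + 1 / 2 + ζ).re = x + 1 / 2 + σ := by rw [hw, hζ]; simp
  have vi : (w + 1 / 2 - ζ).im = t - η := by rw [hw, hζ]; simp
  have vr : (w + 1 / 2 - ζ).re = x + 1 / 2 - σ := by rw [hw, hζ]; simp
  have h1 : 0 ≤ YY w := by
    rcases ht.lt_or_eq with h | h
    · rw [YY_neg (by rw [wi]; exact h), wi, wr]
      linarith only [h, hx, Tr_le_half (s := -t) (x := x) (by linarith only [h]) hx]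
    · rw [YY_zero (by rw [wi]; exact h)]
  have h2 : YY (w + 1 / 2 + ζ) + YY (w + 1 / 2 - ζ) ≤ 0 := by
    rcases eq_or_lt_of_le (show t - η ≤ 0 by linarith only [ht, hη]) with h | h
    · have h3 : t = 0 := by linarith only [hη, h, ht]
      have h4 : η = 0 := by linarith only [hη, ht, h]
      rw [YY_zero (by rw [ui]; linarith only [hη, h, ht]), YY_zero (by rw [vi]; linarith only [h, ht, hη])]
      simp
    · rw [YY_neg (u := w + 1 / 2 - ζ) (by rw [vi]; exact h), vi, vr]
      rcases lt_trichotomy (t + η) 0 with h3 | h3 | h3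
      · rw [YY_neg (by rw [ui]; exact h3), ui, ur]
        have h4 := Tr_le_Tr (s := -(t + η)) (s' := -(t - η)) (x := 1 - (x + 1 / 2 + σ))
          (y := x + 1 / 2 - σ) (by linarith only [h3]) (by linarith only [hη]) (by linarith only [hx0, hσ']) (by linarith only [hx0]) (by linarith only [hx0, hσ])
        rw [DT.Tr_one_sub (by linarith only [h3])] at h4
        linarith only [h4]
      · rw [YY_zero (by rw [ui]; exact h3)]
        linarith only [h, hx0, hσ, half_le_Tr (s := -(t - η)) (x := x + 1 / 2 - σ) (by linarith only [h]) (by linarith only [hx0, hσ])]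
      · rw [YY_pos (by rw [ui]; exact h3), ui, ur]
        have h4 := Tr_le_Tr (s := t + η) (s' := -(t - η)) (x := x + 1 / 2 + σ)
          (y := x + 1 / 2 - σ) (by linarith only [h3]) (by linarith only [ht]) (by linarith only [hx, hσ]) (by linarith only [hσ]) (by linarith only [hx0, hσ])
        linarith only [h4]
  linarith only [h1, h2]

/-- the vertical derivative of `fR` in the direction of the ring variable -/
theorem YY_ring_nonneg (hx0 : 0 ≤ x) (hx : x ≤ 1 / 2) (ht : t ≤ 0) (hσ : σ ≤ 0) (hσ' : -(1 / 2) ≤ σ)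
    (hη : 0 ≤ η) {w ζ : ℂ} (hw : w = x + t * Complex.I) (hζ : ζ = σ + η * Complex.I) :
    0 ≤ YY (w + 1 / 2 + ζ) - YY (w + 1 / 2 - ζ) := by
  have ui : (w + 1 / 2 + ζ).im = t + η := by rw [hw, hζ]; simp
  have ur : (w + 1 / 2 + ζ).re = x + 1 / 2 + σ := by rw [hw, hζ]; simp
  have vi : (w + 1 / 2 - ζ).im = t - η := by rw [hw, hζ]; simp
  have vr : (w + 1 / 2 - ζ).re = x + 1 / 2 - σ := by rw [hw, hζ]; simp
  rcases eq_or_lt_of_le (show t - η ≤ 0 by linarith only [ht, hη]) with h | h
  · have h3 : t = 0 := by linarith only [hη, h, ht]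
    have h4 : η = 0 := by linarith only [hη, ht, h]
    rw [YY_zero (by rw [ui]; linarith only [hη, h, ht]), YY_zero (by rw [vi]; linarith only [h, ht, hη])]
    simp
  · rw [YY_neg (u := w + 1 / 2 - ζ) (by rw [vi]; exact h), vi, vr]
    rcases lt_trichotomy (t + η) 0 with h3 | h3 | h3
    · rw [YY_neg (by rw [ui]; exact h3), ui, ur]
      have h4 := Tr_le_Tr (s := -(t + η)) (s' := -(t - η)) (x := x + 1 / 2 + σ)
        (y := x + 1 / 2 - σ) (by linarith only [h3]) (by linarith only [hη]) (by linarith only [hx, hσ]) (by linarith only [hσ]) (by linarith only [hx0, hσ])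
      linarith only [h4]
    · rw [YY_zero (by rw [ui]; exact h3)]
      linarith only [h, hx0, hσ, half_le_Tr (s := -(t - η)) (x := x + 1 / 2 - σ) (by linarith only [h]) (by linarith only [hx0, hσ])]
    · rw [YY_pos (by rw [ui]; exact h3), ui, ur]
      have h4 := Tr_le_Tr (s := t + η) (s' := -(t - η)) (x := 1 - (x + 1 / 2 + σ))
        (y := x + 1 / 2 - σ) (by linarith only [h3]) (by linarith only [ht]) (by linarith only [hx0, hσ']) (by linarith only [hx0]) (by linarith only [hx0, hσ])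
      rw [DT.Tr_one_sub h3] at h4
      linarith only [h4]

/-- the horizontal derivative of `fR` in the direction of the ring variable -/
theorem LL_ring_nonneg {w ζ : ℂ} (hw : w = x + t * Complex.I) (hζ : ζ = σ + η * Complex.I)
    (h0 : t - η ≠ 0) (h : Real.sinh (2 * Real.pi * t) * Real.sinh (2 * Real.pi * η) ≥
      Real.sin (2 * Real.pi * x) * Real.sin (2 * Real.pi * σ)) :
    0 ≤ LL (w + 1 / 2 + ζ) - LL (w + 1 / 2 - ζ) := by
  have ui : (w + 1 / 2 + ζ).im = t + η := by rw [hw, hζ]; simp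
  have ur : (w + 1 / 2 + ζ).re = x + 1 / 2 + σ := by rw [hw, hζ]; simp
  have vi : (w + 1 / 2 - ζ).im = t - η := by rw [hw, hζ]; simp
  have vr : (w + 1 / 2 - ζ).re = x + 1 / 2 - σ := by rw [hw, hζ]; simp
  rw [LL_eq', LL_eq', ui, ur, vi, vr]
  have e1 : Real.cos (2 * Real.pi * (x + 1 / 2 + σ)) =
      -(Real.cos (2 * Real.pi * x) * Real.cos (2 * Real.pi * σ) -
        Real.sin (2 * Real.pi * x) * Real.sin (2 * Real.pi * σ)) := by
    rw [show 2 * Real.pi * (x + 1 / 2 + σ) = 2 * Real.pi * x + 2 * Real.pi * σ + Real.pi by ring,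
      Real.cos_add_pi, Real.cos_add]
  have e2 : Real.cos (2 * Real.pi * (x + 1 / 2 - σ)) =
      -(Real.cos (2 * Real.pi * x) * Real.cos (2 * Real.pi * σ) +
        Real.sin (2 * Real.pi * x) * Real.sin (2 * Real.pi * σ)) := by
    rw [show 2 * Real.pi * (x + 1 / 2 - σ) = 2 * Real.pi * x - 2 * Real.pi * σ + Real.pi by ring,
      Real.cos_add_pi, Real.cos_sub]
  have e3 : Real.cosh (2 * Real.pi * (t + η)) = Real.cosh (2 * Real.pi * t) *
      Real.cosh (2 * Real.pi * η) + Real.sinh (2 * Real.pi * t) * Real.sinh (2 * Real.pi * η) := by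
    rw [mul_add, Real.cosh_add]
  have e4 : Real.cosh (2 * Real.pi * (t - η)) = Real.cosh (2 * Real.pi * t) *
      Real.cosh (2 * Real.pi * η) - Real.sinh (2 * Real.pi * t) * Real.sinh (2 * Real.pi * η) := by
    rw [mul_sub, Real.cosh_sub]
  have h1 : 1 < Real.cosh (2 * Real.pi * (t - η)) := by
    rw [Real.one_lt_cosh]
    exact mul_ne_zero (by positivity) h0
  have h2 := Real.cos_le_one (2 * Real.pi * (x + 1 / 2 - σ))
  rw [← sub_div]
  apply div_nonneg _ (by norm_num)
  rw [sub_nonneg]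
  apply Real.log_le_log
  · linarith only [h1, h2]
  · rw [e1, e2, e3, e4]
    linarith only [h]

end Pool.Agent.Work.MP_b30479_gtS.G2

end

section

/-!
# Mirrored hinges at rings

`fR (conj w) ζ - fR w ζ`: the own terms cancel.  For `Re ζ ≤ 0` the mirror image in the lower half
plane is better (`flip_nonneg`), and the gain is less than `2π |Im w|` as long as `|Re ζ| < 1/2`
(`flip_lt`).  No condition on `Re w`.
-/

namespace Pool.Agent.Work.MP_b30479_gtS.G2

open Finset VOL Filter Topology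

/-- strict version of `Lr_diff_mono` -/
theorem Lr_diff_strict {a b s s' : ℝ} (hab : b < a) (h0 : 0 ≤ s) (h : s < s') :
    DT.Lr s a - DT.Lr s b < DT.Lr s' a - DT.Lr s' b := by
  have hm : StrictMonoOn (fun r => DT.Lr r a - DT.Lr r b) (Set.Ici 0) := by
    apply strictMonoOn_of_deriv_pos (convex_Ici 0)
    · exact ((DT.LrCont.continuous_Lr_left a).sub (DT.LrCont.continuous_Lr_left b)).continuousOn
    · intro r hr
      rw [interior_Ici] at hr
      rw [((DT.hasDerivAt_Lr_left (Set.mem_Ioi.mp hr)).fun_sub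
        (DT.hasDerivAt_Lr_left (Set.mem_Ioi.mp hr))).deriv]
      linarith only [hr, hab, DT.Tr_strictMono (Set.mem_Ioi.mp hr) hab]
  exact hm (Set.mem_Ici.mpr h0) (Set.mem_Ici.mpr (h0.trans h.le)) h

/-- the difference of the values at the two mirror images -/
theorem fR_flip {x T σ η : ℝ} (hT : 0 ≤ T) (hη : 0 ≤ η) :
    fR ⟨x, -T⟩ ⟨σ, η⟩ - fR ⟨x, T⟩ ⟨σ, η⟩ =
      (DT.Lr (η + T) (x + 1 / 2 - σ) - DT.Lr (η + T) (x + 1 / 2 + σ)) -
        (DT.Lr |η - T| (x + 1 / 2 - σ) - DT.Lr |η - T| (x + 1 / 2 + σ)) := by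
  unfold fR UU
  simp only [Complex.add_re, Complex.add_im, Complex.sub_re, Complex.sub_im]
  have e1 : ((1 / 2 : ℂ)).re = 1 / 2 := by norm_num
  have e2 : ((1 / 2 : ℂ)).im = 0 := by norm_num
  rw [e1, e2]
  have a1 : |-T + 0 + η| = |η - T| := by
    congr 1
    ring
  have a2 : |-T + 0 - η| = η + T := by
    rw [abs_of_nonpos (by linarith only [hT, hη])]
    ring
  have a3 : |T + 0 + η| = η + T := by
    rw [abs_of_nonneg (by linarith only [hT, hη])]
    ring
  have a4 : |T + 0 - η| = |η - T| := by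
    rw [← abs_neg]
    congr 1
    ring
  have a5 : |-T| = |T| := abs_neg T
  rw [a1, a2, a3, a4, a5]
  ring

/-- for `σ ≤ 0` the mirror image with the negative height is better -/
theorem flip_nonneg {x T σ η : ℝ} (hT : 0 ≤ T) (hη : 0 ≤ η) (hσ : σ ≤ 0) :
    fR ⟨x, T⟩ ⟨σ, η⟩ ≤ fR ⟨x, -T⟩ ⟨σ, η⟩ := by
  have h := fR_flip (x := x) (σ := σ) hT hη
  have h1 : |η - T| ≤ η + T := by
    rw [abs_le]
    constructor <;> linarith only [hη, hT]
  have h2 := Lr_diff_mono (a := x + 1 / 2 - σ) (b := x + 1 / 2 + σ) (by linarith only [hσ])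
    (abs_nonneg (η - T)) h1
  linarith only [h, h2]

/-- the gain is at most `2π min(T, η)` -/
theorem flip_le {x T σ η : ℝ} (hT : 0 ≤ T) (hη : 0 ≤ η) (hσ : -(1 / 2) ≤ σ) :
    fR ⟨x, -T⟩ ⟨σ, η⟩ - fR ⟨x, T⟩ ⟨σ, η⟩ ≤ Real.pi * (η + T - |η - T|) := by
  have h := fR_flip (x := x) (σ := σ) hT hη
  have h1 : |η - T| ≤ η + T := by
    rw [abs_le]
    constructor <;> linarith only [hη, hT]
  have h2 := Lr_diff_mono (a := x + 1 / 2 + σ + 1) (b := x + 1 / 2 - σ) (by linarith only [hσ])
    (abs_nonneg (η - T)) h1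
  rw [DT.Lr_add_one (abs_nonneg _), DT.Lr_add_one (by linarith only [hT, hη])] at h2
  linarith only [h, h2]

/-- **The gain is less than `2πT`.** -/
theorem flip_lt {x T σ η : ℝ} (hT : 0 < T) (hη : 0 ≤ η) (hσ : -(1 / 2) < σ) :
    fR ⟨x, -T⟩ ⟨σ, η⟩ - fR ⟨x, T⟩ ⟨σ, η⟩ < 2 * Real.pi * T := by
  have hpi := Real.pi_pos
  have h := fR_flip (x := x) (σ := σ) hT.le hη
  have h1 : |η - T| ≤ η + T := by
    rw [abs_le]
    constructor <;> linarith only [hη, hT]
  rcases h1.lt_or_eq with h3 | h3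
  · have h2 := Lr_diff_strict (a := x + 1 / 2 + σ + 1) (b := x + 1 / 2 - σ) (by linarith only [hσ])
      (abs_nonneg (η - T)) h3
    rw [DT.Lr_add_one (abs_nonneg _), DT.Lr_add_one (by linarith only [hT, hη])] at h2
    have h4 : η - T ≤ |η - T| := le_abs_self _
    nlinarith only [h, h2, hpi, h4]
  · rw [h3] at h
    rw [h]
    have : 0 < 2 * Real.pi * T := by positivity
    linarith only [this]

/-- reflection of the ring variable and the hinge -/
theorem fR_mirror (x T σ η : ℝ) : fR ⟨x, -T⟩ ⟨σ, η⟩ = fR ⟨x, T⟩ ⟨-σ, η⟩ := by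
  unfold fR UU
  simp only [Complex.add_re, Complex.add_im, Complex.sub_re, Complex.sub_im]
  have e1 : ((1 / 2 : ℂ)).re = 1 / 2 := by norm_num
  have e2 : ((1 / 2 : ℂ)).im = 0 := by norm_num
  rw [e1, e2]
  have a1 : |-T + 0 + η| = |T + 0 - η| := by
    rw [← abs_neg]
    congr 1
    ring
  have a2 : |-T + 0 - η| = |T + 0 + η| := by
    rw [← abs_neg]
    congr 1
    ring
  rw [a1, a2, abs_neg, sub_neg_eq_add, ← sub_eq_add_neg]
  ring

/-- **A mirrored hinge between two rings of opposite signs**: `T` is the height of the hinge on the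
main path in the frame of the first ring; the mirrored state is worse even with the bonus `2π |T|`. -/
theorem unflip_rr {x T σ η σ' η' : ℝ} (hT : T ≠ 0) (hη : 0 ≤ η) (hη' : 0 ≤ η') (hσ : σ ≤ 0)
    (hσ1 : -(1 / 2) < σ) (hσ' : σ' ≤ 0) (hσ1' : -(1 / 2) < σ') :
    fR ⟨x, -T⟩ ⟨σ, η⟩ + fR ⟨x, T⟩ ⟨σ', η'⟩ - 2 * Real.pi * |T| <
      fR ⟨x, T⟩ ⟨σ, η⟩ + fR ⟨x, -T⟩ ⟨σ', η'⟩ := by
  rcases lt_or_gt_of_ne hT with h | h
  · have h1 := flip_lt (x := x) (T := -T) (by linarith only [h]) hη' hσ1'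
    have h2 := flip_nonneg (x := x) (T := -T) (by linarith only [h]) hη hσ
    rw [neg_neg] at h1 h2
    rw [abs_of_neg h]
    linarith only [h1, h2]
  · have h1 := flip_lt (x := x) h hη hσ1
    have h2 := flip_nonneg (x := x) h.le hη' hσ'
    rw [abs_of_pos h]
    linarith only [h1, h2]

end Pool.Agent.Work.MP_b30479_gtS.G2

end

section

/-!
# END 3, location of the inner variable: the function and its elementary bounds
-/

namespace Pool.Agent.Work.MP_b30479_gtS.G2

open Finset Filter Topology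

namespace L3

/-! ### the function `lam x = - ∫_0^x log (2 sin π v) dv` -/

/-- minus the Lobachevsky type integral -/
noncomputable def lam (x : ℝ) : ℝ := -DT.Lr 0 x

theorem lam_zero : lam 0 = 0 := by
  unfold lam
  rw [DT.Lr_zero_right, neg_zero]

theorem lam_half : lam (1 / 2) = 0 := by
  unfold lam
  rw [DT.Lr_half le_rfl]
  simp

theorem continuous_lam : Continuous lam := by
  unfold lam DT.Lr
  exact (intervalIntegral.continuous_primitive (fun a b => DT.el_intble 0 a b) 0).neg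

theorem sin_pi_pos {x : ℝ} (h0 : 0 < x) (h1 : x < 1) : 0 < Real.sin (Real.pi * x) :=
  Real.sin_pos_of_pos_of_lt_pi (mul_pos Real.pi_pos h0)
    (by have := mul_lt_mul_of_pos_left h1 Real.pi_pos; linarith only [this])

theorem hasDerivAt_lam {x : ℝ} (h0 : 0 < x) (h1 : x < 1) :
    HasDerivAt lam (-Real.log (2 * Real.sin (Real.pi * x))) x := by
  have h := (DT.hasDerivAt_Lr_zero (sin_pi_pos h0 h1).ne').neg
  refine h.congr_deriv ?_
  rw [DT.el_zero]
  unfold Lob.ff
  rfl

/-- `lam` is concave on `[0, 1/2]` -/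
theorem lam_concave : ConcaveOn ℝ (Set.Icc 0 (1 / 2)) lam := by
  apply AntitoneOn.concaveOn_of_deriv (convex_Icc _ _) continuous_lam.continuousOn
  · intro x hx
    rw [interior_Icc] at hx
    exact (hasDerivAt_lam hx.1 (by linarith only [hx, hx.2])).differentiableAt.differentiableWithinAt
  · intro x hx y hy hxy
    rw [interior_Icc] at hx hy
    rw [(hasDerivAt_lam hx.1 (by linarith only [hx, hx.2])).deriv,
      (hasDerivAt_lam hy.1 (by linarith only [hy, hy.2])).deriv]
    have hpi := Real.pi_pos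
    have h1 := sin_pi_pos hx.1 (by linarith only [hx, hx.2])
    apply neg_le_neg
    apply Real.log_le_log (by linarith only [h1])
    have : Real.sin (Real.pi * x) ≤ Real.sin (Real.pi * y) :=
      Real.sin_le_sin_of_le_of_le_pi_div_two (by nlinarith only [hpi, hx, hx.1]) (by nlinarith only [hpi, hy, hy.2])
        (mul_le_mul_of_nonneg_left hxy hpi.le)
    linarith only [this]

/-- chord bound -/
theorem lam_chord {p q x A B : ℝ} (hp : 0 ≤ p) (hpq : p < q) (hq : q ≤ 1 / 2) (h1 : p ≤ x) (h2 : x ≤ q)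
    (hA : A ≤ lam p) (hB : B ≤ lam q) : A + (B - A) * ((x - p) / (q - p)) ≤ lam x := by
  have hd : 0 < q - p := by linarith only [hpq]
  have a0 : 0 ≤ (q - x) / (q - p) := div_nonneg (by linarith only [h2]) hd.le
  have b0 : 0 ≤ (x - p) / (q - p) := div_nonneg (by linarith only [h1]) hd.le
  have ab : (q - x) / (q - p) + (x - p) / (q - p) = 1 := by
    field_simp
    ring
  have key := lam_concave.2 (x := p) (y := q) ⟨hp, by linarith only [hpq, hq]⟩ ⟨by linarith only [hp, hpq], hq⟩ a0 b0 ab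
  have e : ((q - x) / (q - p)) • p + ((x - p) / (q - p)) • q = x := by
    simp only [smul_eq_mul]
    field_simp
    ring
  rw [e] at key
  simp only [smul_eq_mul] at key
  have e2 : (q - x) / (q - p) = 1 - (x - p) / (q - p) := by linarith only [ab]
  rw [e2] at key a0
  nlinarith only [key, hA, a0, hB, b0, mul_le_mul_of_nonneg_left hA a0, mul_le_mul_of_nonneg_left hB b0]

theorem sin_log_bound {y : ℝ} (h0 : 0 < y) (h1 : y ≤ Real.pi / 2) :
    Real.log (Real.sin y) ≤ Real.log y - y ^ 2 / 6 := by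
  have hpi := Real.pi_pos
  -- `G = sin y (1 - y²/3) - y cos y ≥ 0`
  have tanp : ∀ y ∈ Set.Icc 0 (Real.pi / 2), 0 ≤ Real.sin y - y * Real.cos y := by
    intro y hy
    rcases eq_or_lt_of_le hy.1 with h | h
    · rw [← h]
      simp
    · rcases eq_or_lt_of_le hy.2 with h2 | h2
      · rw [h2]
        simp
      · have h3 := (Real.lt_tan h h2).le
        have hc : 0 < Real.cos y := Real.cos_pos_of_mem_Ioo ⟨by linarith only [h, h2], h2⟩
        rw [Real.tan_eq_sin_div_cos, le_div_iff₀ hc] at h3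
        linarith only [h3]
  have hG : MonotoneOn (fun y => Real.sin y * (1 - y ^ 2 / 3) - y * Real.cos y)
      (Set.Icc 0 (Real.pi / 2)) := by
    apply monotoneOn_of_deriv_nonneg (convex_Icc _ _)
    · fun_prop
    · fun_prop
    · intro x hx
      rw [interior_Icc] at hx
      have hd : HasDerivAt (fun y => Real.sin y * (1 - y ^ 2 / 3) - y * Real.cos y)
          (x / 3 * (Real.sin x - x * Real.cos x)) x := by
        have h1 := (Real.hasDerivAt_sin x).mul
          (((hasDerivAt_pow 2 x).div_const 3).const_sub 1)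
        have h2 := (hasDerivAt_id x).mul (Real.hasDerivAt_cos x)
        refine (h1.sub h2).congr_deriv ?_
        simp
        ring
      rw [hd.deriv]
      exact mul_nonneg (by linarith only [hx, hx.1]) (tanp x ⟨hx.1.le, hx.2.le⟩)
  have hF : AntitoneOn (fun y => Real.log (Real.sin y) - Real.log y + y ^ 2 / 6)
      (Set.Ioc 0 (Real.pi / 2)) := by
    apply antitoneOn_of_deriv_nonpos (convex_Ioc _ _)
    · intro x hx
      have hs : 0 < Real.sin x := Real.sin_pos_of_pos_of_lt_pi hx.1 (by linarith only [h0, h1, hx, hx.2])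
      have hx1 := hx.1
      apply ContinuousAt.continuousWithinAt
      have c1 : ContinuousAt (fun y => Real.log (Real.sin y)) x :=
        (Real.continuous_sin.continuousAt).log hs.ne'
      have c2 : ContinuousAt (fun y : ℝ => Real.log y) x := Real.continuousAt_log hx1.ne'
      exact (c1.sub c2).add (by fun_prop)
    · intro x hx
      rw [interior_Ioc] at hx
      have hs : 0 < Real.sin x := Real.sin_pos_of_pos_of_lt_pi hx.1 (by linarith only [h0, h1, hx, hx.2])
      exact ((((Real.hasDerivAt_sin x).log hs.ne').sub (Real.hasDerivAt_log hx.1.ne')).add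
        ((hasDerivAt_pow 2 x).div_const 6)).differentiableAt.differentiableWithinAt
    · intro x hx
      rw [interior_Ioc] at hx
      have hs : 0 < Real.sin x := Real.sin_pos_of_pos_of_lt_pi hx.1 (by linarith only [h0, h1, hx, hx.2])
      have hd := (((Real.hasDerivAt_sin x).log hs.ne').sub (Real.hasDerivAt_log hx.1.ne')).add
        ((hasDerivAt_pow 2 x).div_const 6)
      have hd' : HasDerivAt (fun y => Real.log (Real.sin y) - Real.log y + y ^ 2 / 6) _ x := hd
      rw [hd'.deriv]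
      have hg := hG (a := 0) (b := x) ⟨le_rfl, by positivity⟩ ⟨hx.1.le, hx.2.le⟩ hx.1.le
      simp only [Real.sin_zero, zero_mul, sub_zero] at hg
      have hx1 := hx.1
      have e : Real.cos x / Real.sin x - x⁻¹ + (2 : ℕ) * x ^ (2 - 1) / 6 =
          -(Real.sin x * (1 - x ^ 2 / 3) - x * Real.cos x) / (x * Real.sin x) := by
        field_simp
        push_cast
        ring
      rw [e]
      exact div_nonpos_of_nonpos_of_nonneg (by linarith only [hg]) (by positivity)
  -- the limit at zero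
  have hlim : ∀ ε : ℝ, 0 < ε → Real.log (Real.sin y) - Real.log y + y ^ 2 / 6 ≤ ε := by
    intro ε hε
    set z : ℝ := min y (min 1 (ε / 2)) with hz
    have hz0 : 0 < z := lt_min h0 (lt_min one_pos (by linarith only [hε]))
    have hzy : z ≤ y := min_le_left _ _
    have hz1 : z ≤ 1 := (min_le_right _ _).trans (min_le_left _ _)
    have hz2 : z ≤ ε / 2 := (min_le_right _ _).trans (min_le_right _ _)
    have h3 := hF (a := z) (b := y) ⟨hz0, hzy.trans h1⟩ ⟨h0, h1⟩ hzy
    simp only at h3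
    have h4 : Real.log (Real.sin z) ≤ Real.log z :=
      Real.log_le_log (Real.sin_pos_of_pos_of_lt_pi hz0 (by linarith only [h0, h1, hzy, Real.pi_gt_three]))
        (Real.sin_lt hz0).le
    nlinarith only [hz0, hz2, h3, h4, hz1]
  have h5 : Real.log (Real.sin y) - Real.log y + y ^ 2 / 6 ≤ 0 :=
    le_of_forall_pos_le_add fun ε hε => by linarith only [hlim, hε, hlim ε hε]
  linarith only [h5]

/-- lower bound for `lam` -/
theorem lam_ge {x : ℝ} (h0 : 0 < x) (h1 : x ≤ 1 / 2) :
    x * (1 - Real.log (2 * Real.pi * x)) + Real.pi ^ 2 * x ^ 3 / 18 ≤ lam x := by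
  have hpi := Real.pi_pos
  have hm : MonotoneOn (fun x => lam x - (x - (2 * Real.pi * x) * Real.log (2 * Real.pi * x) /
      (2 * Real.pi) + Real.pi ^ 2 * x ^ 3 / 18)) (Set.Icc 0 (1 / 2)) := by
    apply monotoneOn_of_deriv_nonneg (convex_Icc _ _)
    · apply Continuous.continuousOn
      have c1 := continuous_lam
      have c2 : Continuous fun x : ℝ => (2 * Real.pi * x) * Real.log (2 * Real.pi * x) :=
        Real.continuous_mul_log.comp (continuous_const.mul continuous_id)
      have c3 : Continuous fun x : ℝ => x - (2 * Real.pi * x) * Real.log (2 * Real.pi * x) /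
        (2 * Real.pi) + Real.pi ^ 2 * x ^ 3 / 18 :=
        (continuous_id.sub (c2.div_const _)).add (by fun_prop)
      exact c1.sub c3
    all_goals
      intro x hx
      rw [interior_Icc] at hx
      have hx1 := hx.1
      have h2 : 0 < 2 * Real.pi * x := by positivity
      have d1 := hasDerivAt_lam hx.1 (by linarith only [h0, h1, hx, hx.2])
      have d0 : HasDerivAt (fun x : ℝ => 2 * Real.pi * x) (2 * Real.pi) x := by
        simpa using (hasDerivAt_id x).const_mul (2 * Real.pi)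
      have d2 := (d0.mul (d0.log h2.ne')).div_const (2 * Real.pi)
      have d3 := ((hasDerivAt_pow 3 x).const_mul (Real.pi ^ 2)).div_const 18
      have d4 := d1.sub (((hasDerivAt_id x).sub d2).add d3)
      have d5 : HasDerivAt (fun x => lam x - (x - (2 * Real.pi * x) * Real.log (2 * Real.pi * x) /
        (2 * Real.pi) + Real.pi ^ 2 * x ^ 3 / 18)) _ x := d4
    · exact d5.differentiableAt.differentiableWithinAt
    · rw [d5.deriv]
      have h3 := sin_log_bound (y := Real.pi * x) (by positivity) (by nlinarith only [hpi, hx, hx.2])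
      have h4 := sin_pi_pos hx.1 (by linarith only [h0, h1, hx, hx.2])
      rw [Real.log_mul two_ne_zero h4.ne']
      have h5 : Real.log (2 * Real.pi * x) = Real.log 2 + Real.log (Real.pi * x) := by
        rw [mul_assoc, Real.log_mul two_ne_zero (by positivity)]
      have e : (2 * Real.pi * Real.log (2 * Real.pi * x) + 2 * Real.pi * x *
          (2 * Real.pi / (2 * Real.pi * x))) / (2 * Real.pi) = Real.log (2 * Real.pi * x) + 1 := by
        field_simp
      rw [e, h5]
      norm_num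
      nlinarith only [h3]
  have h2 := hm (a := 0) (b := x) ⟨le_rfl, by norm_num⟩ ⟨h0.le, h1⟩ h0.le
  simp only [lam_zero, mul_zero, zero_mul, zero_div, sub_zero, add_zero] at h2
  have e : 2 * Real.pi * x * Real.log (2 * Real.pi * x) / (2 * Real.pi) =
      x * Real.log (2 * Real.pi * x) := by
    field_simp
  rw [e] at h2
  norm_num at h2
  linarith only [h2]

end L3

end Pool.Agent.Work.MP_b30479_gtS.G2

end

section

/-!
# END 3, location of the inner variable: paths, derivatives, values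
-/

namespace Pool.Agent.Work.MP_b30479_gtS.G2

open Finset VOL Filter Topology

namespace L3

/-- the path of the inner variable, `h` its height -/
noncomputable def mpt (h c : ℝ) : ℂ :=
  (c : ℂ) + ((h * tr 0 (77 / 100) (1 / 10) (1 / 5) c : ℝ) : ℂ) * Complex.I

/-- the growth rate of an end with three crossings without the terms in the hinge `v` alone -/
noncomputable def Wm (v m : ℂ) : ℝ := -(Real.pi / 2 * (2 * v * m + m ^ 2 - m).im) - UU (m - v)

/-- `μ` maximises `Wm v` on the path -/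
structure MaxM (v : ℂ) (h μ : ℝ) : Prop where
  m0 : 0 ≤ μ
  m1 : μ ≤ 77 / 100
  mx : ∀ c, 0 ≤ c → c ≤ 77 / 100 → Wm v (mpt h c) ≤ Wm v (mpt h μ)

theorem mpt_re (h c : ℝ) : (mpt h c).re = c := by simp [mpt]
theorem mpt_im (h c : ℝ) : (mpt h c).im = h * tr 0 (77 / 100) (1 / 10) (1 / 5) c := by simp [mpt]

theorem mpt_left {h c : ℝ} (h0 : 0 ≤ c) (h1 : c ≤ 1 / 10) : (mpt h c).im = 10 * h * c := by
  rw [mpt_im, tr_a (by norm_num) (by norm_num) (by norm_num) h0 h1]
  ring

theorem mpt_mid {h c : ℝ} (h0 : 1 / 10 ≤ c) (h1 : c ≤ 57 / 100) : (mpt h c).im = h := by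
  rw [mpt_im, tr_b (by norm_num) (by norm_num) h0 (by norm_num; linarith only [h1]), mul_one]

theorem mpt_right {h c : ℝ} (h0 : 57 / 100 ≤ c) (h1 : c ≤ 77 / 100) :
    (mpt h c).im = 5 * h * (77 / 100 - c) := by
  rw [mpt_im, tr_c (by norm_num) (by norm_num) (by norm_num) (by norm_num; linarith only [h0]) h1]
  ring

theorem Wm_val (v m : ℂ) : Wm v m = -(Real.pi * v.im * m.re) -
    Real.pi * m.im * (v.re + m.re - 1 / 2) - UU (m - v) := by
  unfold Wm
  simp [pow_two]
  ring

/-! ### bounds for `UU` -/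

/-- `UU` is below its boundary values for `Re ≤ 1/2` -/
theorem UU_le_lam {u : ℂ} (h : u.re ≤ 1 / 2) : UU u ≤ -lam u.re := by
  have h1 := Lr_diff_mono h le_rfl (abs_nonneg u.im)
  rw [DT.Lr_half le_rfl, DT.Lr_half (abs_nonneg _)] at h1
  unfold UU lam
  linarith only [h1]

theorem UU_ge_left {u : ℂ} (h : -(1 / 2) ≤ u.re) : lam (-u.re) - Real.pi * |u.im| ≤ UU u := by
  have h1 := Lr_diff_mono (a := 1 / 2) (b := -u.re) (by linarith only [h]) le_rfl (abs_nonneg u.im)
  rw [DT.Lr_half le_rfl, DT.Lr_half (abs_nonneg _), DT.Lr_neg, DT.Lr_neg] at h1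
  unfold UU lam
  rw [DT.Lr_neg]
  linarith only [h1]

/-- the value at a flat point to the right of the hinge -/
theorem Wm_ge {v m : ℂ} (h : m.re - v.re ≤ 1 / 2) : -(Real.pi * v.im * m.re) -
    Real.pi * m.im * (v.re + m.re - 1 / 2) + lam (m.re - v.re) ≤ Wm v m := by
  have := UU_le_lam (u := m - v) (by simpa using h)
  rw [Complex.sub_re] at this
  rw [Wm_val]
  linarith only [this]

/-- the value at a point to the left of the hinge -/
theorem Wm_le {v m : ℂ} (h : v.re - m.re ≤ 1 / 2) : Wm v m ≤ -(Real.pi * v.im * m.re) -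
    Real.pi * m.im * (v.re + m.re - 1 / 2) - lam (v.re - m.re) + Real.pi * |m.im - v.im| := by
  have := UU_ge_left (u := m - v) (by simp only [Complex.sub_re]; linarith only [h])
  rw [Complex.sub_re, Complex.sub_im, neg_sub] at this
  rw [Wm_val]
  linarith only [this]

/-! ### derivatives -/

/-- `Wm v` along a line -/
theorem hasDerivAt_Wm (v : ℂ) (r q c : ℝ)
    (h : ((c : ℂ) + ((r + q * c : ℝ) : ℂ) * Complex.I - v).im ≠ 0 ∨
      ((c : ℂ) + ((r + q * c : ℝ) : ℂ) * Complex.I - v) ∈ strip) :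
    HasDerivAt (fun c : ℝ => Wm v ((c : ℂ) + ((r + q * c : ℝ) : ℂ) * Complex.I))
      (-(Real.pi * (v.im + (r + q * c))) - Real.pi * q * (v.re + c - 1 / 2) -
        LL ((c : ℂ) + ((r + q * c : ℝ) : ℂ) * Complex.I - v) -
        q * YY ((c : ℂ) + ((r + q * c : ℝ) : ℂ) * Complex.I - v)) c := by
  have d0 : HasDerivAt (fun c : ℝ => r + q * c) q c := by
    simpa using ((hasDerivAt_id c).const_mul q).const_add r
  have d1 : HasDerivAt (fun c : ℝ => (c : ℂ) + ((r + q * c : ℝ) : ℂ) * Complex.I - v)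
      (1 + (q : ℂ) * Complex.I) c := by
    have a1 : HasDerivAt (fun c : ℝ => (c : ℂ)) 1 c := by
      simpa using (hasDerivAt_id c).ofReal_comp
    exact (a1.add (d0.ofReal_comp.mul_const Complex.I)).sub_const v
  have d2 := hasDerivAt_UU d1 h
  have d3 : HasDerivAt (fun c : ℝ => -(Real.pi * v.im * c) -
      Real.pi * (r + q * c) * (v.re + c - 1 / 2))
      (-(Real.pi * v.im) - (Real.pi * q * (v.re + c - 1 / 2) + Real.pi * (r + q * c))) c := by
    have b1 : HasDerivAt (fun c : ℝ => -(Real.pi * v.im * c)) (-(Real.pi * v.im)) c := by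
      simpa using ((hasDerivAt_id c).const_mul (Real.pi * v.im)).fun_neg
    have b2 : HasDerivAt (fun c : ℝ => v.re + c - 1 / 2) 1 c :=
      ((hasDerivAt_id c).const_add v.re).sub_const (1 / 2)
    have b3 := (d0.const_mul Real.pi).mul b2
    refine (b1.sub b3).congr_deriv ?_
    ring
  have e : (fun c : ℝ => Wm v ((c : ℂ) + ((r + q * c : ℝ) : ℂ) * Complex.I)) =
      fun c : ℝ => (-(Real.pi * v.im * c) - Real.pi * (r + q * c) * (v.re + c - 1 / 2)) -
        UU ((c : ℂ) + ((r + q * c : ℝ) : ℂ) * Complex.I - v) := by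
    funext c
    rw [Wm_val]
    simp
  rw [e]
  refine (d3.sub d2).congr_deriv ?_
  simp
  ring

/-- `Wm v` along a horizontal line -/
theorem hasDerivAt_Wm_level (v : ℂ) (r c : ℝ)
    (h : Complex.sin (Real.pi * ((c : ℂ) + (r : ℂ) * Complex.I - v)) ≠ 0) :
    HasDerivAt (fun c : ℝ => Wm v ((c : ℂ) + (r : ℂ) * Complex.I))
      (-(Real.pi * (v.im + r)) - LL ((c : ℂ) + (r : ℂ) * Complex.I - v)) c := by
  have e0 : ∀ c : ℝ, (c : ℂ) + (r : ℂ) * Complex.I - v = ((r : ℂ) * Complex.I - v) + ((1 * c : ℝ) : ℂ) := by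
    intro c
    push_cast
    ring
  have d2 := hasDerivAt_UU_level ((r : ℂ) * Complex.I - v) 1 c (by rw [← e0]; exact h)
  have d3 : HasDerivAt (fun c : ℝ => -(Real.pi * v.im * c) -
      Real.pi * r * (v.re + c - 1 / 2)) (-(Real.pi * v.im) - Real.pi * r) c := by
    have b1 : HasDerivAt (fun c : ℝ => -(Real.pi * v.im * c)) (-(Real.pi * v.im)) c := by
      simpa using ((hasDerivAt_id c).const_mul (Real.pi * v.im)).fun_neg
    have b2 : HasDerivAt (fun c : ℝ => v.re + c - 1 / 2) 1 c :=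
      ((hasDerivAt_id c).const_add v.re).sub_const (1 / 2)
    have b3 := b2.const_mul (Real.pi * r)
    refine (b1.sub b3).congr_deriv ?_
    ring
  have e : (fun c : ℝ => Wm v ((c : ℂ) + (r : ℂ) * Complex.I)) =
      fun c : ℝ => (-(Real.pi * v.im * c) - Real.pi * r * (v.re + c - 1 / 2)) -
        UU ((r : ℂ) * Complex.I - v + ((1 * c : ℝ) : ℂ)) := by
    funext c
    rw [Wm_val, e0]
    simp
  rw [e]
  refine (d3.sub d2).congr_deriv ?_
  rw [← e0]
  ring

/-- a maximiser has no positive right derivative -/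
theorem MaxM.right {v : ℂ} {h μ : ℝ} (H : MaxM v h μ) {f : ℝ → ℝ} {D b : ℝ} (hb : μ < b)
    (hb1 : b ≤ 77 / 100) (hf : ∀ c, μ ≤ c → c ≤ b → Wm v (mpt h c) = f c) (hD : HasDerivAt f D μ) :
    D ≤ 0 := by
  refine deriv_right_nonpos (f := f) hb (fun s hs => ?_) hD.hasDerivWithinAt
  rw [← hf s hs.1.le hs.2.le, ← hf μ le_rfl hb.le]
  exact H.mx s (H.m0.trans hs.1.le) (hs.2.le.trans hb1)

/-- a maximiser has no negative left derivative -/
theorem MaxM.left {v : ℂ} {h μ : ℝ} (H : MaxM v h μ) {f : ℝ → ℝ} {D b : ℝ} (hb : b < μ)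
    (hb1 : 0 ≤ b) (hf : ∀ c, b ≤ c → c ≤ μ → Wm v (mpt h c) = f c) (hD : HasDerivAt f D μ) :
    0 ≤ D := by
  refine deriv_left_nonneg (f := f) hb (fun s hs => ?_) hD.hasDerivWithinAt
  rw [← hf s hs.1.le hs.2.le, ← hf μ hb.le le_rfl]
  exact H.mx s (hb1.trans hs.1.le) (hs.2.le.trans H.m1)

theorem mpt_eq_of_im {h c y : ℝ} (hy : (mpt h c).im = y) : mpt h c = (c : ℂ) + (y : ℂ) * Complex.I := by
  apply Complex.ext
  · rw [mpt_re]; simp
  · rw [hy]; simp

/-- first-order condition on the left ramp -/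
theorem MaxM.ramp_left {v : ℂ} {h μ : ℝ} (H : MaxM v h μ) (h1 : μ < 1 / 10)
    (hs : (mpt h μ - v).im ≠ 0 ∨ mpt h μ - v ∈ strip) :
    -(Real.pi * (v.im + 10 * h * μ)) - Real.pi * (10 * h) * (v.re + μ - 1 / 2) - LL (mpt h μ - v) -
      10 * h * YY (mpt h μ - v) ≤ 0 := by
  have e : ∀ c : ℝ, 0 ≤ c → c ≤ 1 / 10 → mpt h c = (c : ℂ) + ((0 + 10 * h * c : ℝ) : ℂ) * Complex.I :=
    fun c c0 c1 => mpt_eq_of_im (by rw [mpt_left c0 c1]; ring)
  have hd := hasDerivAt_Wm v 0 (10 * h) μ (by rw [← e μ H.m0 h1.le]; exact hs)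
  have := H.right (b := 1 / 10) h1 (by norm_num)
    (fun c c0 c1 => by rw [e c (H.m0.trans c0) c1]) hd
  rw [← e μ H.m0 h1.le] at this
  linarith only [this]

/-- first-order condition on the right ramp, to the left -/
theorem MaxM.ramp_right {v : ℂ} {h μ : ℝ} (H : MaxM v h μ) (h1 : 57 / 100 < μ)
    (hs : (mpt h μ - v).im ≠ 0 ∨ mpt h μ - v ∈ strip) :
    0 ≤ -(Real.pi * (v.im + 5 * h * (77 / 100 - μ))) + Real.pi * (5 * h) * (v.re + μ - 1 / 2) -
      LL (mpt h μ - v) + 5 * h * YY (mpt h μ - v) := by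
  have e : ∀ c : ℝ, 57 / 100 ≤ c → c ≤ 77 / 100 → mpt h c =
      (c : ℂ) + ((5 * h * (77 / 100) + -(5 * h) * c : ℝ) : ℂ) * Complex.I :=
    fun c c0 c1 => mpt_eq_of_im (by rw [mpt_right c0 c1]; ring)
  have hd := hasDerivAt_Wm v (5 * h * (77 / 100)) (-(5 * h)) μ
    (by rw [← e μ h1.le H.m1]; exact hs)
  have := H.left (b := 57 / 100) h1 (by norm_num)
    (fun c c0 c1 => by rw [e c c0 (c1.trans H.m1)]) hd
  rw [← e μ h1.le H.m1] at this
  linarith only [this]

/-- first-order condition on the level, to the right -/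
theorem MaxM.level_right {v : ℂ} {h μ : ℝ} (H : MaxM v h μ) (h0 : 1 / 10 ≤ μ) (h1 : μ < 57 / 100)
    (hs : Complex.sin (Real.pi * (mpt h μ - v)) ≠ 0) :
    -(Real.pi * (v.im + h)) ≤ LL (mpt h μ - v) := by
  have e : ∀ c : ℝ, 1 / 10 ≤ c → c ≤ 57 / 100 → mpt h c = (c : ℂ) + (h : ℂ) * Complex.I :=
    fun c c0 c1 => mpt_eq_of_im (mpt_mid c0 c1)
  have hd := hasDerivAt_Wm_level v h μ (by rw [← e μ h0 h1.le]; exact hs)
  have := H.right (b := 57 / 100) h1 (by norm_num)
    (fun c c0 c1 => by rw [e c (h0.trans c0) c1]) hd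
  rw [← e μ h0 h1.le] at this
  linarith only [this]

/-- first-order condition on the level, to the left -/
theorem MaxM.level_left {v : ℂ} {h μ : ℝ} (H : MaxM v h μ) (h0 : 1 / 10 < μ) (h1 : μ ≤ 57 / 100)
    (hs : Complex.sin (Real.pi * (mpt h μ - v)) ≠ 0) :
    LL (mpt h μ - v) ≤ -(Real.pi * (v.im + h)) := by
  have e : ∀ c : ℝ, 1 / 10 ≤ c → c ≤ 57 / 100 → mpt h c = (c : ℂ) + (h : ℂ) * Complex.I :=
    fun c c0 c1 => mpt_eq_of_im (mpt_mid c0 c1)
  have hd := hasDerivAt_Wm_level v h μ (by rw [← e μ h0.le h1]; exact hs)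
  have := H.left (b := 1 / 10) h0 (by norm_num)
    (fun c c0 c1 => by rw [e c c0 (c1.trans h1)]) hd
  rw [← e μ h0.le h1] at this
  linarith only [this]

end L3

end Pool.Agent.Work.MP_b30479_gtS.G2

end

section

/-!
# Part of `WMid`
-/
namespace Pool.Agent.Work.MP_b30479_gtS.G2

open Finset VOL Filter Topology

/-- side of the inner variable `v` along the slope `m`; `u`: the hinge with the side `S3`, `w`: the
hinge with the side `S2` (`0` if absent) -/
noncomputable def SM (m : ℝ) (u v w : ℂ) : ℝ :=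
  Real.pi * (w.im - u.im - v.im) + LL (v + w) - LL (v - u) - LL v +
    m * (Real.pi * (w.re - u.re - v.re + 1 / 2) + YY (v + w) - YY (v - u) - YY v)

end Pool.Agent.Work.MP_b30479_gtS.G2

end

section

/-!
# The inner variable of an inner digit `3` on its right ramp: first order rows

The side `SM` along the slope `-20 t` is a sum of a part with `u`, a part with `w` and a part with
`v` only; each part has a constant bound.
-/

namespace Pool.Agent.Work.MP_b30479_gtS.G2

open VOL

namespace VN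

/-! ### the parts -/

/-- the part with the hinge `u` -/
noncomputable def GA (m : ℝ) (u v : ℂ) : ℝ :=
  -(Real.pi * u.im) - LL (v - u) + m * (-(Real.pi * u.re) - YY (v - u))

/-- the part with the hinge `w` -/
noncomputable def GB (m : ℝ) (v w : ℂ) : ℝ :=
  Real.pi * w.im + LL (v + w) + m * (Real.pi * w.re + YY (v + w))

/-- the remaining part -/
noncomputable def GC (m : ℝ) (v : ℂ) : ℝ :=
  -(Real.pi * v.im) - LL v + m * (Real.pi * (1 / 2 - v.re) - YY v)

theorem SM_split (m : ℝ) (u v w : ℂ) : SM m u v w = GA m u v + GB m v w + GC m v := by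
  unfold SM GA GB GC
  ring

theorem GA_eq {m : ℝ} {u v : ℂ} (h0 : 0 < v.re - u.re) (h1 : v.re - u.re < 1) :
    GA m u v = -(Real.pi * u.im) - NumIs.lnA (v.re - u.re) (v.im - u.im) +
      m * (-(Real.pi * u.re) + NumIs.lnB (v.re - u.re) (v.im - u.im)) := by
  have h : v - u ∈ strip := ⟨by rw [Complex.sub_re]; exact h0, by rw [Complex.sub_re]; exact h1⟩
  unfold GA
  rw [Num.LL_lnA h, Num.YY_lnB h, Complex.sub_re, Complex.sub_im]
  ring

theorem GB_eq {m : ℝ} {v w : ℂ} (h0 : 0 < v.re + w.re) (h1 : v.re + w.re < 1) :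
    GB m v w = Real.pi * w.im + NumIs.lnA (v.re + w.re) (v.im + w.im) +
      m * (Real.pi * w.re - NumIs.lnB (v.re + w.re) (v.im + w.im)) := by
  have h : v + w ∈ strip := ⟨by rw [Complex.add_re]; exact h0, by rw [Complex.add_re]; exact h1⟩
  unfold GB
  rw [Num.LL_lnA h, Num.YY_lnB h, Complex.add_re, Complex.add_im]
  ring

theorem LL_add_one (z : ℂ) : LL (z + 1) = LL z := by
  rw [LL_eq', LL_eq']
  simp only [Complex.add_re, Complex.add_im, Complex.one_re, Complex.one_im, add_zero]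
  rw [show 2 * Real.pi * (z.re + 1) = 2 * Real.pi * z.re + 2 * Real.pi by ring,
    Real.cos_add_two_pi]

theorem GB_eq' {m : ℝ} {v w : ℂ} (h0 : 1 < v.re + w.re) (h1 : v.re + w.re < 2)
    (hi : v.im + w.im < 0) :
    GB m v w = Real.pi * w.im + NumIs.lnA (v.re + w.re - 1) (v.im + w.im) +
      m * (Real.pi * w.re - Real.pi - NumIs.lnB (v.re + w.re - 1) (v.im + w.im)) := by
  have h : v + w - 1 ∈ strip := by
    constructor <;> simp only [Complex.sub_re, Complex.add_re, Complex.one_re] <;> linarith only [h0, h1]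
  have e1 := LL_add_one (v + w - 1)
  have e2 := YY_add_one (v + w - 1)
  rw [sub_add_cancel] at e1 e2
  have hi' : (v + w - 1).im < 0 := by
    simp only [Complex.sub_im, Complex.add_im, Complex.one_im]
    linarith only [hi]
  rw [if_neg (not_lt.2 hi'.le), if_pos hi'] at e2
  unfold GB
  rw [e1, e2, Num.LL_lnA h, Num.YY_lnB h]
  simp only [Complex.sub_re, Complex.add_re, Complex.one_re, Complex.sub_im, Complex.add_im,
    Complex.one_im, sub_zero]
  ring

/-- near the right end of the strip -/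
theorem GB_le {m p : ℝ} {v w : ℂ} (hm : 0 ≤ m) (hp : 1 / 2 ≤ p) (hp' : p < 1)
    (h0 : p ≤ v.re + w.re) (h1 : v.re + w.re ≤ 2 - p) (hi : v.im + w.im < 0) :
    GB m v w ≤ Real.pi * w.im + NumIs.lnA p (v.im + w.im) +
      m * (Real.pi * w.re - NumIs.lnB p (v.im + w.im)) := by
  have hpi := Real.pi_pos
  have h : (⟨p, v.im + w.im⟩ : ℂ) ∈ strip := ⟨by simp only; linarith only [hp, hp'], hp'⟩
  have e1 : LL ⟨p, v.im + w.im⟩ = NumIs.lnA p (v.im + w.im) := Num.LL_lnA h
  have e2 : YY ⟨p, v.im + w.im⟩ = -NumIs.lnB p (v.im + w.im) := Num.YY_lnB h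
  have a1 : LL (v + w) ≤ LL ⟨p, v.im + w.im⟩ := by
    have hc : Real.cos (2 * Real.pi * p) ≤ Real.cos (2 * Real.pi * (v.re + w.re)) := by
      have e3 : Real.cos (2 * Real.pi * (v.re + w.re)) =
          Real.cos |2 * Real.pi * (v.re + w.re - 1)| := by
        rw [Real.cos_abs, show 2 * Real.pi * (v.re + w.re - 1) =
          2 * Real.pi * (v.re + w.re) - 2 * Real.pi by ring, Real.cos_sub_two_pi]
      have e4 : Real.cos (2 * Real.pi * p) = Real.cos (2 * Real.pi * (1 - p)) := by
        rw [show 2 * Real.pi * (1 - p) = 2 * Real.pi - 2 * Real.pi * p by ring,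
          Real.cos_two_pi_sub]
      rw [e3, e4]
      apply Real.cos_le_cos_of_nonneg_of_le_pi (abs_nonneg _)
      · nlinarith only [hp, hpi]
      · rw [abs_mul, abs_of_pos (by positivity : 0 < 2 * Real.pi)]
        apply mul_le_mul_of_nonneg_left _ (by positivity)
        rw [abs_le]
        constructor <;> linarith only [h0, h1]
    have h3 : 0 < 2 * Real.cosh (2 * Real.pi * (v.im + w.im)) -
        2 * Real.cos (2 * Real.pi * (v.re + w.re)) := by
      have := Real.one_lt_cosh.2 (by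
        apply mul_ne_zero (by positivity) hi.ne : 2 * Real.pi * (v.im + w.im) ≠ 0)
      have := Real.cos_le_one (2 * Real.pi * (v.re + w.re))
      linarith
    rw [LL_eq', LL_eq']
    simp only [Complex.add_re, Complex.add_im]
    apply div_le_div_of_nonneg_right _ (by norm_num)
    apply Real.log_le_log h3
    linarith only [hc]
  have a2 : YY (v + w) ≤ YY ⟨p, v.im + w.im⟩ := by
    rw [YY_neg (by rw [Complex.add_im]; exact hi), YY_neg (by exact hi)]
    simp only [Complex.add_im, Complex.add_re]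
    have := Tr_mono (s := -(v.im + w.im)) (by linarith only [hi]) h0
    linarith only [this]
  rw [e1] at a1
  rw [e2] at a2
  have a3 := mul_le_mul_of_nonneg_left a2 hm
  unfold GB
  linarith only [a1, a3]

end VN

end Pool.Agent.Work.MP_b30479_gtS.G2

end
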