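import Mathlib
import Pool.Agent.Work.MP_b30479_gt.TBS.NumI.LnAff
import Pool.Agent.Work.MP_b30479_gt.TBS.G2.MRBase
import Pool.Agent.Work.MP_b30479_gt.TBS.G2.MPWallD
import Pool.Agent.Work.MP_b30479_gt.TBS.G2.MPWall
import Pool.Agent.Work.MP_b30479_gt.TBS.G2.Num.Fn
import Pool.Agent.Work.MP_b30479_gt.TBS.G2.RMon

section

/-!
# Verified numerics for the kernel, part 8: fast affine forms

`F` is an affine form with exactly four noise symbols, a plain structure: the operations are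
straight-line code, so the kernel evaluates them much faster than the operations of `A` (lists of
coefficients).  `F.toA` is compatible with all operations (by `rfl`), hence the soundness theorem
of `E.ev` can be used.  `E.evR` is the evaluation by the recursor of `E`.
-/

namespace Pool.Agent.Work.NumIs

/-- an affine form with four noise symbols -/
structure F where
  p : ℕ
  q : ℕ
  r : ℕ
  a0 : ℕ
  b0 : ℕ
  a1 : ℕ
  b1 : ℕ
  a2 : ℕ
  b2 : ℕ
  a3 : ℕ
  b3 : ℕ

namespace F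

def toA (f : F) : A := ⟨f.p, f.q, f.r, G.c f.a0 f.b0 (G.c f.a1 f.b1 (G.c f.a2 f.b2 (G.c f.a3 f.b3 G.nil)))⟩

def tot (f : F) : ℕ :=
  Nat.add (Nat.add (Nat.add f.a0 f.b0) (Nat.add (Nat.add f.a1 f.b1) (Nat.add (Nat.add f.a2 f.b2)
    (Nat.add f.a3 f.b3)))) f.r

lemma tot_eq (f : F) : f.tot = f.toA.tot := rfl

def add (a b : F) : F :=
  let P := Nat.add a.p b.p
  let Q := Nat.add a.q b.q
  let P0 := Nat.add a.a0 b.a0
  let Q0 := Nat.add a.b0 b.b0
  let P1 := Nat.add a.a1 b.a1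
  let Q1 := Nat.add a.b1 b.b1
  let P2 := Nat.add a.a2 b.a2
  let Q2 := Nat.add a.b2 b.b2
  let P3 := Nat.add a.a3 b.a3
  let Q3 := Nat.add a.b3 b.b3
  ⟨Nat.sub P Q, Nat.sub Q P, Nat.add a.r b.r, Nat.sub P0 Q0, Nat.sub Q0 P0, Nat.sub P1 Q1,
    Nat.sub Q1 P1, Nat.sub P2 Q2, Nat.sub Q2 P2, Nat.sub P3 Q3, Nat.sub Q3 P3⟩

lemma toA_add (a b : F) : (a.add b).toA = a.toA.add b.toA := rfl

def neg (a : F) : F := ⟨a.q, a.p, a.r, a.b0, a.a0, a.b1, a.a1, a.b2, a.a2, a.b3, a.a3⟩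

lemma toA_neg (a : F) : a.neg.toA = a.toA.neg := rfl

def sub (a b : F) : F :=
  let P := Nat.add a.p b.q
  let Q := Nat.add a.q b.p
  let P0 := Nat.add a.a0 b.b0
  let Q0 := Nat.add a.b0 b.a0
  let P1 := Nat.add a.a1 b.b1
  let Q1 := Nat.add a.b1 b.a1
  let P2 := Nat.add a.a2 b.b2
  let Q2 := Nat.add a.b2 b.a2
  let P3 := Nat.add a.a3 b.b3
  let Q3 := Nat.add a.b3 b.a3
  ⟨Nat.sub P Q, Nat.sub Q P, Nat.add a.r b.r, Nat.sub P0 Q0, Nat.sub Q0 P0, Nat.sub P1 Q1,
    Nat.sub Q1 P1, Nat.sub P2 Q2, Nat.sub Q2 P2, Nat.sub P3 Q3, Nat.sub Q3 P3⟩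

lemma toA_sub (a b : F) : (a.sub b).toA = a.toA.sub b.toA := rfl

/-- the linear part of a product or of a function of two variables: coefficients
`(s - t) / D * a + (s' - t') / D * b` -/
def lin (s t s' t' : ℕ) (a b : F) (p q r : ℕ) : F :=
  let P0 := Nat.add (Nat.add (Nat.mul a.a0 s) (Nat.mul a.b0 t)) (Nat.add (Nat.mul b.a0 s') (Nat.mul b.b0 t'))
  let Q0 := Nat.add (Nat.add (Nat.mul a.a0 t) (Nat.mul a.b0 s)) (Nat.add (Nat.mul b.a0 t') (Nat.mul b.b0 s'))
  let P1 := Nat.add (Nat.add (Nat.mul a.a1 s) (Nat.mul a.b1 t)) (Nat.add (Nat.mul b.a1 s') (Nat.mul b.b1 t'))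
  let Q1 := Nat.add (Nat.add (Nat.mul a.a1 t) (Nat.mul a.b1 s)) (Nat.add (Nat.mul b.a1 t') (Nat.mul b.b1 s'))
  let P2 := Nat.add (Nat.add (Nat.mul a.a2 s) (Nat.mul a.b2 t)) (Nat.add (Nat.mul b.a2 s') (Nat.mul b.b2 t'))
  let Q2 := Nat.add (Nat.add (Nat.mul a.a2 t) (Nat.mul a.b2 s)) (Nat.add (Nat.mul b.a2 t') (Nat.mul b.b2 s'))
  let P3 := Nat.add (Nat.add (Nat.mul a.a3 s) (Nat.mul a.b3 t)) (Nat.add (Nat.mul b.a3 s') (Nat.mul b.b3 t'))
  let Q3 := Nat.add (Nat.add (Nat.mul a.a3 t) (Nat.mul a.b3 s)) (Nat.add (Nat.mul b.a3 t') (Nat.mul b.b3 s'))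
  ⟨p, q, r, Nat.div (Nat.sub P0 Q0) 68719476736, Nat.div (Nat.sub Q0 P0) 68719476736,
    Nat.div (Nat.sub P1 Q1) 68719476736, Nat.div (Nat.sub Q1 P1) 68719476736,
    Nat.div (Nat.sub P2 Q2) 68719476736, Nat.div (Nat.sub Q2 P2) 68719476736,
    Nat.div (Nat.sub P3 Q3) 68719476736, Nat.div (Nat.sub Q3 P3) 68719476736⟩

/-- the linear part of a function of one variable -/
def scl (s t : ℕ) (a : F) (p q r : ℕ) : F :=
  let P0 := Nat.add (Nat.mul a.a0 s) (Nat.mul a.b0 t)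
  let Q0 := Nat.add (Nat.mul a.a0 t) (Nat.mul a.b0 s)
  let P1 := Nat.add (Nat.mul a.a1 s) (Nat.mul a.b1 t)
  let Q1 := Nat.add (Nat.mul a.a1 t) (Nat.mul a.b1 s)
  let P2 := Nat.add (Nat.mul a.a2 s) (Nat.mul a.b2 t)
  let Q2 := Nat.add (Nat.mul a.a2 t) (Nat.mul a.b2 s)
  let P3 := Nat.add (Nat.mul a.a3 s) (Nat.mul a.b3 t)
  let Q3 := Nat.add (Nat.mul a.a3 t) (Nat.mul a.b3 s)
  ⟨p, q, r, Nat.div (Nat.sub P0 Q0) 68719476736, Nat.div (Nat.sub Q0 P0) 68719476736,
    Nat.div (Nat.sub P1 Q1) 68719476736, Nat.div (Nat.sub Q1 P1) 68719476736,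
    Nat.div (Nat.sub P2 Q2) 68719476736, Nat.div (Nat.sub Q2 P2) 68719476736,
    Nat.div (Nat.sub P3 Q3) 68719476736, Nat.div (Nat.sub Q3 P3) 68719476736⟩

def mul (a b : F) : F :=
  let P := Nat.add (Nat.mul a.p b.p) (Nat.mul a.q b.q)
  let Q := Nat.add (Nat.mul a.p b.q) (Nat.mul a.q b.p)
  lin a.p a.q b.p b.q b a (Nat.div (Nat.sub P Q) 68719476736) (Nat.div (Nat.sub Q P) 68719476736)
    (Nat.add (Nat.div (Nat.add (Nat.add (Nat.mul (Nat.add a.p a.q) b.r) (Nat.mul (Nat.add b.p b.q) a.r)) (Nat.mul a.tot b.tot)) 68719476736) 6)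

lemma toA_mul (a b : F) : (a.mul b).toA = a.toA.mul b.toA := rfl

def nf (a : F) : F := ⟨Nat.sub a.p a.q, Nat.sub a.q a.p, a.r, a.a0, a.b0, a.a1, a.b1, a.a2, a.b2, a.a3, a.b3⟩

lemma toA_nf (a : F) : a.nf.toA = a.toA.nf := rfl

def sq (a : F) : F :=
  let t := a.tot
  let pq := Nat.add a.p a.q
  scl (Nat.mul 2 a.p) (Nat.mul 2 a.q) a
    (Nat.div (Nat.add (Nat.mul 2 (Nat.mul pq pq)) (Nat.mul t t)) 137438953472) 0
    (Nat.add (Nat.div (Nat.add (Nat.mul (Nat.mul 4 pq) a.r) (Nat.mul t t)) 137438953472) 6)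

lemma toA_sq (a : F) : a.sq.toA = a.toA.sq := rfl

def sqn (a : F) : F := a.nf.sq

lemma toA_sqn (a : F) : a.sqn.toA = a.toA.sqn := rfl

def app (a : F) (F1 F2 e0 S1 S2 e1 k2 : ℕ) : F :=
  scl S1 S2 a F1 F2 (Nat.add (Nat.add (Nat.add e0 (Nat.div (Nat.add (Nat.mul (Nat.add S1 S2) a.r) (Nat.mul e1 a.tot)) 68719476736)) k2) 5)

lemma toA_app (a : F) (F1 F2 e0 S1 S2 e1 k2 : ℕ) :
    (a.app F1 F2 e0 S1 S2 e1 k2).toA = a.toA.app F1 F2 e0 S1 S2 e1 k2 := rfl

def cst (n : ℤ) (d : ℕ) : F := ⟨(A.cst n d).p, (A.cst n d).q, 1, 0, 0, 0, 0, 0, 0, 0, 0⟩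

lemma cst_encl (n : ℤ) (d : ℕ) (ε : ℕ → ℝ) : (cst n d).toA.Encl ε ((n : ℝ) / d) := by
  have h := A.Encl_cst n d ε
  have hr : (A.cst n d).r = 1 := by rcases n with k | k <;> rfl
  have hg : (A.cst n d).g = G.nil := by rcases n with k | k <;> rfl
  unfold A.Encl at *
  rw [hr, hg] at h
  change |(n : ℝ) / d * DR - (((A.cst n d).p : ℝ) - (A.cst n d).q + (G.c 0 0 (G.c 0 0 (G.c 0 0
    (G.c 0 0 G.nil)))).ev ε)| ≤ ((1 : ℕ) : ℝ)
  simp only [G.ev, Nat.cast_zero, sub_zero, zero_mul, add_zero] at h ⊢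
  exact h

def pi : F := ⟨215888603272, 0, 2, 0, 0, 0, 0, 0, 0, 0, 0⟩

lemma pi_encl (ε : ℕ → ℝ) : (pi).toA.Encl ε Real.pi := by
  have h := A.Encl_pi ε
  unfold A.Encl at *
  change |Real.pi * DR - (((215888603272 : ℕ) : ℝ) - ((0 : ℕ) : ℝ) + (G.nil).ev ε)| ≤ ((2 : ℕ) : ℝ) at h
  change |Real.pi * DR - (((215888603272 : ℕ) : ℝ) - ((0 : ℕ) : ℝ) + (G.c 0 0 (G.c 0 0 (G.c 0 0
    (G.c 0 0 G.nil)))).ev ε)| ≤ ((2 : ℕ) : ℝ)
  simp only [G.ev, Nat.cast_zero, sub_zero, zero_mul, add_zero] at h ⊢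
  exact h

def exp (a : F) : Option F :=
  let n := a.nf
  let m := Nat.add n.p n.q
  let T := n.tot
  let s := ex4 m
  cond (Nat.ble m 1099511627776) (cond (Nat.ble 1 s.a) (cond (Nat.ble T 68719476736)
    (cond (Nat.beq n.q 0)
      (some (n.app s.a 0 (Nat.sub s.b s.a) s.a 0 (Nat.sub s.b s.a) (k2e s.b T)))
      (some (n.app s.c 0 (Nat.sub s.d s.c) s.c 0 (Nat.sub s.d s.c) (k2e s.d T)))) none) none) none

def hyp (b : Bool) (a : F) : Option F :=
  let n := a.nf
  let m := Nat.add n.p n.q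
  let T := n.tot
  let s := ex4 m
  let h := A.chsh s
  let k := k2e (Nat.add h.a h.b) T
  cond (Nat.ble m 1099511627776) (cond (Nat.ble 1 s.a) (cond (Nat.ble T 68719476736)
    (cond (Nat.beq n.q 0)
      (cond b (some (n.app h.a 0 h.b h.c 0 h.d k)) (some (n.app h.c 0 h.d h.a 0 h.b k)))
      (cond b (some (n.app h.a 0 h.b 0 h.c h.d k)) (some (n.app 0 h.c h.d h.a 0 h.b k))))
      none) none) none

def log (a : F) : Option F :=
  let n := a.nf
  let T := n.tot
  let l := logM n.p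
  cond (Nat.ble (Nat.add T 1) n.p) (cond (Nat.ble n.p 1267650600228229401496703205376)
    (some (n.app l.1 l.2 6 (Nat.div 4722366482869645213696 n.p) 0 1
      (Nat.add (Nat.div (Nat.mul 68719476736 (Nat.mul T T)) (Nat.mul (Nat.mul 2 n.p) (Nat.sub n.p T))) 1))) none) none

def inv0 (n : F) : Option F :=
  let T := n.tot
  cond (Nat.ble (Nat.add T 1) n.p)
    (some (n.app (Nat.div 4722366482869645213696 n.p) 0 1 0 (Nat.div 324518553658426726783156020576256 (Nat.mul n.p n.p)) 1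
      (Nat.add (Nat.div (Nat.mul 4722366482869645213696 (Nat.mul T T)) (Nat.mul (Nat.mul n.p n.p) (Nat.sub n.p T))) 1))) none

def inv (a : F) : Option F :=
  let n := a.nf
  cond (Nat.beq n.q 0) n.inv0 (match n.neg.inv0 with
    | some b => some b.neg
    | none => none)

def cosPi (a : F) : F :=
  let n := a.nf
  let s := scS n.p n.q
  let T := n.tot
  n.app s.cp s.cq 4 (piN s.sq) (piN s.sp) 20 (Nat.add (Nat.div (Nat.mul 5 (Nat.mul T T)) 68719476736) 1)

def sinPi (a : F) : F :=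
  let n := a.nf
  let s := scS n.p n.q
  let T := n.tot
  n.app s.sp s.sq 4 (piN s.cp) (piN s.cq) 20 (Nat.add (Nat.div (Nat.mul 5 (Nat.mul T T)) 68719476736) 1)

lemma toA_cosPi (a : F) : a.cosPi.toA = a.toA.cosPi := rfl
lemma toA_sinPi (a : F) : a.sinPi.toA = a.toA.sinPi := rfl

def atan (a : F) : Option F :=
  let n := a.nf
  let m := Nat.add n.p n.q
  let T := n.tot
  let d := Nat.div 324518553658426726783156020576256 (Nat.add 4722366482869645213696 (Nat.mul m m))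
  let k := Nat.add (Nat.div (Nat.mul T T) 137438953472) 1
  match atN m with
  | none => none
  | some r => cond (Nat.beq n.q 0) (some (n.app r.1 r.2 13 d 0 1 k)) (some (n.app r.2 r.1 13 d 0 1 k))

def lsF (Xp Xq Xt Tp Tq : ℕ) : Option LS :=
  let s4 := scS Xp Xq
  let m := piN (Nat.add Tp Tq)
  let h := A.chsh (ex4 m)
  cnd (Nat.ble (Nat.add Tp Tq) 1152921504606846976)
    (cnd (Nat.ble m 1099511627776)
      (cnd (Nat.ble 1 (expLo m))
        (cnd (Nat.ble (Nat.add 9 (Nat.mul 4 Xt)) s4.sp)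
          (some ⟨s4.sp, s4.cp, s4.cq, h.c, h.d, h.a, h.b, m⟩) none) none) none) none

def lnKF (Xt Tt : ℕ) (l : LS) : ℕ :=
  let T2 := Nat.add Tt 1
  let L1 := Nat.sub l.s (Nat.add 4 (Nat.mul 4 Xt))
  let Lu := Nat.sub l.m (Nat.mul 4 T2)
  Nat.add (Nat.div (Nat.mul 343597383680 (Nat.add (Nat.mul Xt Xt) (Nat.mul T2 T2))) (Nat.add (Nat.mul L1 L1) (Nat.mul Lu Lu))) 1

def app2 (X T : F) (r2 T2 F1 F2 e0 S1p S1q e1 S2p S2q e2 k2 : ℕ) : F :=
  lin S1p S1q S2p S2q X T F1 F2 (Nat.add (Nat.add (Nat.add e0 (Nat.div (Nat.add (Nat.add (Nat.add (Nat.mul (Nat.add S1p S1q) X.r) (Nat.mul e1 X.tot)) (Nat.mul (Nat.add S2p S2q) r2)) (Nat.mul e2 T2)) 68719476736)) k2) 5)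

lemma toA_app2 (X T : F) (r2 T2 F1 F2 e0 S1p S1q e1 S2p S2q e2 k2 : ℕ) :
    (app2 X T r2 T2 F1 F2 e0 S1p S1q e1 S2p S2q e2 k2).toA =
      A.app2 X.toA T.toA r2 T2 F1 F2 e0 S1p S1q e1 S2p S2q e2 k2 := rfl

def lnA (a b : F) : Option F :=
  let X := a.nf
  let T := b.nf
  let Xt := X.tot
  let Tt := T.tot
  match lsF X.p X.q Xt T.p T.q with
  | none => none
  | some l =>
    let v := l.vA
    let u := l.vU
    let w := l.vW
    cond l.ok (cond (Nat.beq T.q 0)
      (some (app2 X T (Nat.add T.r 1) (Nat.add Tt 1) v.p v.q v.e u.p u.q u.e w.p w.q w.e (lnKF Xt Tt l)))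
      (some (app2 X T (Nat.add T.r 1) (Nat.add Tt 1) v.p v.q v.e u.p u.q u.e w.q w.p w.e (lnKF Xt Tt l)))) none

def lnB (a b : F) : Option F :=
  let X := a.nf
  let T := b.nf
  let Xt := X.tot
  let Tt := T.tot
  match lsF X.p X.q Xt T.p T.q with
  | none => none
  | some l =>
    let u := l.vU
    let w := l.vW
    cond l.ok (match l.vB with
      | none => none
      | some v => cond (Nat.beq T.q 0)
        (some (app2 X T (Nat.add T.r 1) (Nat.add Tt 1) v.p v.q v.e w.q w.p w.e u.p u.q u.e (lnKF Xt Tt l)))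
        (some (app2 X T (Nat.add T.r 1) (Nat.add Tt 1) v.q v.p v.e w.p w.q w.e u.p u.q u.e (lnKF Xt Tt l)))) none

/-! ### compatibility -/

lemma map_cond (b : Bool) (x y : Option F) : (cond b x y).map toA = cond b (x.map toA) (y.map toA) := by
  cases b <;> rfl

lemma toA_exp (a : F) : a.exp.map toA = a.toA.exp := by
  unfold exp A.exp
  simp only [map_cond]
  rfl

lemma toA_hyp (b : Bool) (a : F) : (a.hyp b).map toA = a.toA.hyp b := by
  unfold hyp A.hyp
  simp only [map_cond]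
  rfl

lemma toA_log (a : F) : a.log.map toA = a.toA.log := by
  unfold log A.log
  simp only [map_cond]
  rfl

lemma toA_inv0 (a : F) : a.inv0.map toA = a.toA.inv0 := by
  unfold inv0 A.inv0
  simp only [map_cond]
  rfl

lemma toA_inv (a : F) : a.inv.map toA = a.toA.inv := by
  unfold inv A.inv
  simp only [map_cond]
  have h1 := toA_inv0 a.nf
  have h2 := toA_inv0 a.nf.neg
  change cond (Nat.beq a.nf.q 0) _ _ = cond (Nat.beq a.nf.q 0) a.nf.toA.inv0
    (match a.nf.neg.toA.inv0 with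
    | some b => some b.neg
    | none => none)
  rw [← h1, ← h2]
  rcases a.nf.neg.inv0 with _ | b <;> rfl

lemma toA_atan (a : F) : a.atan.map toA = a.toA.atan := by
  unfold atan A.atan
  change Option.map toA (match atN (Nat.add a.nf.p a.nf.q) with
    | none => none
    | some r => _) = (match atN (Nat.add a.nf.p a.nf.q) with
    | none => none
    | some r => _)
  rcases atN (Nat.add a.nf.p a.nf.q) with _ | r
  · rfl
  · simp only [map_cond]
    rfl

lemma toA_lnA (a b : F) : (lnA a b).map toA = A.lnA a.toA b.toA := by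
  unfold lnA A.lnA
  change Option.map toA (match lsF a.nf.p a.nf.q a.nf.tot b.nf.p b.nf.q with
    | none => none
    | some l => _) = (match lsF a.nf.p a.nf.q a.nf.tot b.nf.p b.nf.q with
    | none => none
    | some l => _)
  rcases lsF a.nf.p a.nf.q a.nf.tot b.nf.p b.nf.q with _ | l
  · rfl
  · simp only [map_cond]
    rfl

lemma toA_lnB (a b : F) : (lnB a b).map toA = A.lnB a.toA b.toA := by
  unfold lnB A.lnB
  change Option.map toA (match lsF a.nf.p a.nf.q a.nf.tot b.nf.p b.nf.q with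
    | none => none
    | some l => _) = (match lsF a.nf.p a.nf.q a.nf.tot b.nf.p b.nf.q with
    | none => none
    | some l => _)
  rcases lsF a.nf.p a.nf.q a.nf.tot b.nf.p b.nf.q with _ | l
  · rfl
  · simp only [map_cond]
    rcases h : l.vB with _ | v
    · simp only [h]
      rfl
    · simp only [h, map_cond]
      rfl

end F

/-! ### evaluation -/

def fz : F := ⟨0, 0, 0, 0, 0, 0, 0, 0, 0, 0, 0⟩

/-- look-up by the recursors -/
noncomputable def lkF (xs : List F) : ℕ → F :=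
  List.rec (motive := fun _ => ℕ → F) (fun _ => fz)
    (fun x _ ih i => Nat.rec (motive := fun _ => F) x (fun j _ => ih j) i) xs

lemma lkF_nil (i : ℕ) : lkF [] i = fz := rfl
lemma lkF_zero (x : F) (t : List F) : lkF (x :: t) 0 = x := rfl
lemma lkF_succ (x : F) (t : List F) (i : ℕ) : lkF (x :: t) (i + 1) = lkF t i := rfl

def o2 (f : F → F → F) (x y : Option F) : Option F :=
  Option.rec (motive := fun _ => Option F) none (fun a =>
    Option.rec (motive := fun _ => Option F) none (fun b => some (f a b)) y) x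

def o3 (f : F → F → Option F) (x y : Option F) : Option F :=
  Option.rec (motive := fun _ => Option F) none (fun a =>
    Option.rec (motive := fun _ => Option F) none (fun b => f a b) y) x

def o1 (f : F → F) (x : Option F) : Option F :=
  Option.rec (motive := fun _ => Option F) none (fun a => some (f a)) x

def o0 (f : F → Option F) (x : Option F) : Option F :=
  Option.rec (motive := fun _ => Option F) none (fun a => f a) x

/-- evaluation by the recursor -/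
noncomputable def E.evR (e : E) : List F → Option F :=
  E.rec (motive := fun _ => List F → Option F)
    (fun i xs => some (lkF xs i))
    (fun n d _ => some (F.cst n d))
    (fun _ => some F.pi)
    (fun _ _ a b xs => o2 F.add (a xs) (b xs))
    (fun _ _ a b xs => o2 F.sub (a xs) (b xs))
    (fun _ _ a b xs => o2 F.mul (a xs) (b xs))
    (fun _ a xs => o1 F.neg (a xs))
    (fun _ a xs => o0 F.inv (a xs))
    (fun _ a xs => o1 F.sqn (a xs))
    (fun _ a xs => o1 F.cosPi (a xs))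
    (fun _ a xs => o1 F.sinPi (a xs))
    (fun _ a xs => o0 F.exp (a xs))
    (fun _ a xs => o0 F.log (a xs))
    (fun _ a xs => o0 (F.hyp true) (a xs))
    (fun _ a xs => o0 (F.hyp false) (a xs))
    (fun _ a xs => o0 F.atan (a xs))
    (fun _ _ a b xs => o3 F.lnA (a xs) (b xs))
    (fun _ _ a b xs => o3 F.lnB (a xs) (b xs))
    (fun _ _ a b xs => o0 (fun c => b (xs ++ [c])) (a xs)) e

lemma o2_some {f : F → F → F} {x y : Option F} {c : F} (h : o2 f x y = some c) :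
    ∃ a b, x = some a ∧ y = some b ∧ c = f a b := by
  rcases x with _ | a
  · exact absurd h (by simp [o2])
  · rcases y with _ | b
    · exact absurd h (by simp [o2])
    · exact ⟨a, b, rfl, rfl, (Option.some.inj h).symm⟩

lemma o3_some {f : F → F → Option F} {x y : Option F} {c : F} (h : o3 f x y = some c) :
    ∃ a b, x = some a ∧ y = some b ∧ f a b = some c := by
  rcases x with _ | a
  · exact absurd h (by simp [o3])
  · rcases y with _ | b
    · exact absurd h (by simp [o3])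
    · exact ⟨a, b, rfl, rfl, h⟩

lemma o1_some {f : F → F} {x : Option F} {c : F} (h : o1 f x = some c) :
    ∃ a, x = some a ∧ c = f a := by
  rcases x with _ | a
  · exact absurd h (by simp [o1])
  · exact ⟨a, rfl, (Option.some.inj h).symm⟩

lemma o0_some {f : F → Option F} {x : Option F} {c : F} (h : o0 f x = some c) :
    ∃ a, x = some a ∧ f a = some c := by
  rcases x with _ | a
  · exact absurd h (by simp [o0])
  · exact ⟨a, rfl, h⟩

/-- enclosure -/
def F.Encl (f : F) (ε : ℕ → ℝ) (x : ℝ) : Prop := f.toA.Encl ε x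

lemma F.Encl.add {a b : F} {ε : ℕ → ℝ} {x y : ℝ} (hx : a.Encl ε x) (hy : b.Encl ε y) :
    (a.add b).Encl ε (x + y) := by
  unfold F.Encl at *
  rw [F.toA_add]
  exact A.Encl.add hx hy

lemma F.Encl.sub {a b : F} {ε : ℕ → ℝ} {x y : ℝ} (hx : a.Encl ε x) (hy : b.Encl ε y) :
    (a.sub b).Encl ε (x - y) := by
  unfold F.Encl at *
  rw [F.toA_sub]
  exact A.Encl.sub hx hy

lemma F.Encl.mul {a b : F} {ε : ℕ → ℝ} {x y : ℝ} (hε : ∀ i, |ε i| ≤ 1) (hx : a.Encl ε x)
    (hy : b.Encl ε y) : (a.mul b).Encl ε (x * y) := by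
  unfold F.Encl at *
  rw [F.toA_mul]
  exact A.Encl.mul hε hx hy

lemma F.Encl.neg {a : F} {ε : ℕ → ℝ} {x : ℝ} (hx : a.Encl ε x) : (a.neg).Encl ε (-x) := by
  unfold F.Encl at *
  rw [F.toA_neg]
  exact A.Encl.neg hx

lemma F.Encl.sqn {a : F} {ε : ℕ → ℝ} {x : ℝ} (hε : ∀ i, |ε i| ≤ 1) (hx : a.Encl ε x) :
    (a.sqn).Encl ε (x ^ 2) := by
  unfold F.Encl at *
  rw [F.toA_sqn]
  exact (A.Encl.nf hx).sq hε (A.nf_normal _)

lemma F.Encl.cosPi {a : F} {ε : ℕ → ℝ} {x : ℝ} (hε : ∀ i, |ε i| ≤ 1) (hx : a.Encl ε x) :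
    (a.cosPi).Encl ε (Real.cos (Real.pi * x)) := by
  unfold F.Encl at *
  rw [F.toA_cosPi]
  exact A.Encl.cosPi hε hx

lemma F.Encl.sinPi {a : F} {ε : ℕ → ℝ} {x : ℝ} (hε : ∀ i, |ε i| ≤ 1) (hx : a.Encl ε x) :
    (a.sinPi).Encl ε (Real.sin (Real.pi * x)) := by
  unfold F.Encl at *
  rw [F.toA_sinPi]
  exact A.Encl.sinPi hε hx

lemma map_some_inv {x : Option F} {y : Option A} {c : F} (h : x.map F.toA = y) (hx : x = some c) :
    y = some c.toA := by
  rw [← h, hx]; rfl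

lemma fz_encl (ε : ℕ → ℝ) : fz.Encl ε 0 := by
  unfold F.Encl fz F.toA A.Encl
  simp [G.ev]

lemma lkF_encl {ε : ℕ → ℝ} : ∀ {fs : List F} {xs : List ℝ},
    List.Forall₂ (fun f x => F.Encl f ε x) fs xs → ∀ i, (lkF fs i).Encl ε (lkR xs i)
  | _, _, List.Forall₂.nil, i => by
    rw [lkF_nil]
    exact fz_encl ε
  | _, _, List.Forall₂.cons h t, 0 => h
  | _, _, List.Forall₂.cons h t, i + 1 => lkF_encl t i

theorem E.evR_sound {ε : ℕ → ℝ} (hε : ∀ i, |ε i| ≤ 1) (e : E) : ∀ {fs : List F} {xs : List ℝ}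
    {c : F}, List.Forall₂ (fun f x => F.Encl f ε x) fs xs → e.evR fs = some c →
      c.Encl ε (e.val xs) := by
  induction e with
  | var i =>
    intro fs xs c h he
    have := Option.some.inj he
    rw [← this]; exact lkF_encl h i
  | q n d =>
    intro fs xs c h he
    have := Option.some.inj he
    rw [← this]; exact F.cst_encl n d ε
  | pi =>
    intro fs xs c h he
    have := Option.some.inj he
    rw [← this]; exact F.pi_encl ε
  | add a b iha ihb =>
    intro fs xs c h he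
    obtain ⟨u, v, hu, hv, rfl⟩ := o2_some he
    exact F.Encl.add (iha h hu) (ihb h hv)
  | sub a b iha ihb =>
    intro fs xs c h he
    obtain ⟨u, v, hu, hv, rfl⟩ := o2_some he
    exact F.Encl.sub (iha h hu) (ihb h hv)
  | mul a b iha ihb =>
    intro fs xs c h he
    obtain ⟨u, v, hu, hv, rfl⟩ := o2_some he
    exact F.Encl.mul hε (iha h hu) (ihb h hv)
  | neg a iha =>
    intro fs xs c h he
    obtain ⟨u, hu, rfl⟩ := o1_some he
    exact F.Encl.neg (iha h hu)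
  | inv a iha =>
    intro fs xs c h he
    obtain ⟨u, hu, hc⟩ := o0_some he
    exact A.Encl.inv hε (iha h hu) (map_some_inv (F.toA_inv u) hc)
  | sq a iha =>
    intro fs xs c h he
    obtain ⟨u, hu, rfl⟩ := o1_some he
    exact F.Encl.sqn hε (iha h hu)
  | cosPi a iha =>
    intro fs xs c h he
    obtain ⟨u, hu, rfl⟩ := o1_some he
    exact F.Encl.cosPi hε (iha h hu)
  | sinPi a iha =>
    intro fs xs c h he
    obtain ⟨u, hu, rfl⟩ := o1_some he
    exact F.Encl.sinPi hε (iha h hu)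
  | exp a iha =>
    intro fs xs c h he
    obtain ⟨u, hu, hc⟩ := o0_some he
    exact A.Encl.exp hε (iha h hu) (map_some_inv (F.toA_exp u) hc)
  | log a iha =>
    intro fs xs c h he
    obtain ⟨u, hu, hc⟩ := o0_some he
    exact A.Encl.log hε (iha h hu) (map_some_inv (F.toA_log u) hc)
  | cosh a iha =>
    intro fs xs c h he
    obtain ⟨u, hu, hc⟩ := o0_some he
    exact A.Encl.hyp hε (iha h hu) (map_some_inv (F.toA_hyp true u) hc)
  | sinh a iha =>
    intro fs xs c h he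
    obtain ⟨u, hu, hc⟩ := o0_some he
    exact A.Encl.hyp hε (iha h hu) (map_some_inv (F.toA_hyp false u) hc)
  | atan a iha =>
    intro fs xs c h he
    obtain ⟨u, hu, hc⟩ := o0_some he
    exact A.Encl.atan hε (iha h hu) (map_some_inv (F.toA_atan u) hc)
  | lnA a b iha ihb =>
    intro fs xs c h he
    obtain ⟨u, v, hu, hv, hc⟩ := o3_some he
    exact A.Encl.lnA hε (iha h hu) (ihb h hv) (map_some_inv (F.toA_lnA u v) hc)
  | lnB a b iha ihb =>
    intro fs xs c h he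
    obtain ⟨u, v, hu, hv, hc⟩ := o3_some he
    exact A.Encl.lnB hε (iha h hu) (ihb h hv) (map_some_inv (F.toA_lnB u v) hc)
  | lt a b iha ihb =>
    intro fs xs c h he
    obtain ⟨u, hu, hc⟩ := o0_some he
    have h1 := iha h hu
    exact ihb (List.rel_append h (List.Forall₂.cons h1 List.Forall₂.nil)) hc

end Pool.Agent.Work.NumIs

end

section

/-!
# Verified numerics for the kernel, part 9: certificate trees

`runQ test o0 o1 o2 o3 fuel a0 b0 ... a3 b3 code` checks a box of four variables: the variable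
number `i` times `2^36` plus the offset `oi` is in `[ai, bi]`.  The tree of bisections is the
number `code`, read in digits of base `128` from the right: `0, ..., 3` bisects the variable of
this number (then come the left and the right half), `k + 4` is a leaf with the test `k`.
Every leaf is evaluated once.  `okT` is the Boolean version (all digits used).
-/

namespace Pool.Agent.Work.NumIs

/-- force the evaluation of a natural number -/
def fN {α : Type} (n : ℕ) (k : ℕ → α) : α :=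
  Nat.rec (motive := fun _ => α) (k Nat.zero) (fun m _ => k (Nat.succ m)) n

lemma fN_eq {α : Type} (n : ℕ) (k : ℕ → α) : fN n k = k n := by
  cases n <;> rfl

/-- the range of variable `0` -/
def F.v0 (o a b : ℕ) : F :=
  let m := Nat.div (Nat.add a b) 2
  ⟨Nat.sub m o, Nat.sub o m, 0, Nat.sub b m, 0, 0, 0, 0, 0, 0, 0⟩
def F.v1 (o a b : ℕ) : F :=
  let m := Nat.div (Nat.add a b) 2
  ⟨Nat.sub m o, Nat.sub o m, 0, 0, 0, Nat.sub b m, 0, 0, 0, 0, 0⟩
def F.v2 (o a b : ℕ) : F :=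
  let m := Nat.div (Nat.add a b) 2
  ⟨Nat.sub m o, Nat.sub o m, 0, 0, 0, 0, 0, Nat.sub b m, 0, 0, 0⟩
def F.v3 (o a b : ℕ) : F :=
  let m := Nat.div (Nat.add a b) 2
  ⟨Nat.sub m o, Nat.sub o m, 0, 0, 0, 0, 0, 0, 0, Nat.sub b m, 0⟩

/-- membership -/
def Rg (o a b : ℕ) (x : ℝ) : Prop := (a : ℝ) ≤ x * DR + o ∧ x * DR + o ≤ b

lemma Rg.noise {o a b : ℕ} {x : ℝ} (h : Rg o a b x) : ∃ e : ℝ, |e| ≤ 1 ∧
    x * DR - ((((a + b) / 2 - o : ℕ) : ℝ) - ((o - (a + b) / 2 : ℕ) : ℝ)) =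
      ((b - (a + b) / 2 : ℕ) : ℝ) * e := by
  obtain ⟨h1, h2⟩ := h
  have hab : a ≤ b := by
    have : (a : ℝ) ≤ b := by linarith only [h1, h2]
    exact_mod_cast this
  set m := (a + b) / 2 with hm
  have hmb : m ≤ b := by omega
  have hma : a ≤ m := by omega
  have hmm : 2 * m ≤ a + b := by omega
  have c1 : ((b - m : ℕ) : ℝ) = b - m := Nat.cast_sub hmb
  have c2 : 2 * (m : ℝ) ≤ a + b := by exact_mod_cast hmm
  have c3 : (a : ℝ) ≤ m := by exact_mod_cast hma
  have k := sub_sub_cast m o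
  rw [k]
  rcases Nat.eq_zero_or_pos (b - m) with h0 | h0
  · refine ⟨0, by simp, ?_⟩
    rw [h0] at c1
    push_cast at c1
    rw [mul_zero]
    linarith only [h1, c2, c1, h2]
  · have h0' : (0 : ℝ) < ((b - m : ℕ) : ℝ) := by exact_mod_cast h0
    refine ⟨(x * DR - ((m : ℝ) - o)) / ((b - m : ℕ) : ℝ), ?_, ?_⟩
    · rw [abs_div, abs_of_pos h0', div_le_one h0', c1, abs_le]
      constructor <;> linarith only [h1, c2, h2]
    · rw [mul_div_cancel₀ _ h0'.ne']

/-- continue after the left half -/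
def sq2 (x : Option ℕ) (k : ℕ → Option ℕ) : Option ℕ :=
  Option.rec (motive := fun _ => Option ℕ) none (fun c => k c) x

lemma sq2_some {x : Option ℕ} {k : ℕ → Option ℕ} {c : ℕ} (h : sq2 x k = some c) :
    ∃ a, x = some a ∧ k a = some c := by
  rcases x with _ | a
  · exact absurd h (by simp [sq2])
  · exact ⟨a, rfl, h⟩

noncomputable def runQ (test : ℕ → F → F → F → F → Bool) (o0 o1 o2 o3 : ℕ) (n : ℕ) :
    ℕ → ℕ → ℕ → ℕ → ℕ → ℕ → ℕ → ℕ → ℕ → Option ℕ :=
  Nat.rec (motive := fun _ => ℕ → ℕ → ℕ → ℕ → ℕ → ℕ → ℕ → ℕ → ℕ → Option ℕ)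
    (fun _ _ _ _ _ _ _ _ _ => none)
    (fun _ ih a0 b0 a1 b1 a2 b2 a3 b3 c =>
      fN (Nat.land c 127) fun d => fN (Nat.shiftRight c 7) fun c' =>
      cond (Nat.ble 4 d)
        (cond (test (Nat.sub d 4) (F.v0 o0 a0 b0) (F.v1 o1 a1 b1) (F.v2 o2 a2 b2) (F.v3 o3 a3 b3))
          (some c') none)
        (cond (Nat.beq d 0)
          (fN (Nat.div (Nat.add a0 b0) 2) fun m =>
            sq2 (ih a0 m a1 b1 a2 b2 a3 b3 c') fun c'' => ih m b0 a1 b1 a2 b2 a3 b3 c'')
        (cond (Nat.beq d 1)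
          (fN (Nat.div (Nat.add a1 b1) 2) fun m =>
            sq2 (ih a0 b0 a1 m a2 b2 a3 b3 c') fun c'' => ih a0 b0 m b1 a2 b2 a3 b3 c'')
        (cond (Nat.beq d 2)
          (fN (Nat.div (Nat.add a2 b2) 2) fun m =>
            sq2 (ih a0 b0 a1 b1 a2 m a3 b3 c') fun c'' => ih a0 b0 a1 b1 m b2 a3 b3 c'')
          (fN (Nat.div (Nat.add a3 b3) 2) fun m =>
            sq2 (ih a0 b0 a1 b1 a2 b2 a3 m c') fun c'' => ih a0 b0 a1 b1 a2 b2 m b3 c''))))) n

lemma runQ_succ (test : ℕ → F → F → F → F → Bool) (o0 o1 o2 o3 n a0 b0 a1 b1 a2 b2 a3 b3 c : ℕ) :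
    runQ test o0 o1 o2 o3 (n + 1) a0 b0 a1 b1 a2 b2 a3 b3 c =
      fN (Nat.land c 127) fun d => fN (Nat.shiftRight c 7) fun c' =>
      cond (Nat.ble 4 d)
        (cond (test (Nat.sub d 4) (F.v0 o0 a0 b0) (F.v1 o1 a1 b1) (F.v2 o2 a2 b2) (F.v3 o3 a3 b3))
          (some c') none)
        (cond (Nat.beq d 0)
          (fN (Nat.div (Nat.add a0 b0) 2) fun m =>
            sq2 (runQ test o0 o1 o2 o3 n a0 m a1 b1 a2 b2 a3 b3 c') fun c'' => runQ test o0 o1 o2 o3 n m b0 a1 b1 a2 b2 a3 b3 c'')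
        (cond (Nat.beq d 1)
          (fN (Nat.div (Nat.add a1 b1) 2) fun m =>
            sq2 (runQ test o0 o1 o2 o3 n a0 b0 a1 m a2 b2 a3 b3 c') fun c'' => runQ test o0 o1 o2 o3 n a0 b0 m b1 a2 b2 a3 b3 c'')
        (cond (Nat.beq d 2)
          (fN (Nat.div (Nat.add a2 b2) 2) fun m =>
            sq2 (runQ test o0 o1 o2 o3 n a0 b0 a1 b1 a2 m a3 b3 c') fun c'' => runQ test o0 o1 o2 o3 n a0 b0 a1 b1 m b2 a3 b3 c'')
          (fN (Nat.div (Nat.add a3 b3) 2) fun m =>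
            sq2 (runQ test o0 o1 o2 o3 n a0 b0 a1 b1 a2 b2 a3 m c') fun c'' => runQ test o0 o1 o2 o3 n a0 b0 a1 b1 a2 b2 m b3 c'')))) := rfl

lemma Rg.split {o a b : ℕ} {x : ℝ} (h : Rg o a b x) (m : ℕ) : Rg o a m x ∨ Rg o m b x := by
  rcases le_total (x * DR + o) (m : ℝ) with h1 | h1
  · left; exact ⟨h.1, h1⟩
  · right; exact ⟨h1, h.2⟩

/-- what a test has to satisfy -/
def TestOk (test : ℕ → F → F → F → F → Bool) (P : ℝ → ℝ → ℝ → ℝ → Prop) : Prop :=
  ∀ (k : ℕ) (X Y Z W : F) (ε : ℕ → ℝ) (x y z w : ℝ), (∀ i, |ε i| ≤ 1) → X.Encl ε x → Y.Encl ε y →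
    Z.Encl ε z → W.Encl ε w → test k X Y Z W = true → P x y z w

theorem runQ_sound {test : ℕ → F → F → F → F → Bool} {P : ℝ → ℝ → ℝ → ℝ → Prop}
    (ht : TestOk test P) {o0 o1 o2 o3 : ℕ} {x y z w : ℝ} : ∀ (n : ℕ) {a0 b0 a1 b1 a2 b2 a3 b3 c c' : ℕ},
    runQ test o0 o1 o2 o3 n a0 b0 a1 b1 a2 b2 a3 b3 c = some c' → Rg o0 a0 b0 x → Rg o1 a1 b1 y →
    Rg o2 a2 b2 z → Rg o3 a3 b3 w → P x y z w := by
  intro n
  induction n with
  | zero =>
    intro a0 b0 a1 b1 a2 b2 a3 b3 c c' h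
    exact absurd h (by simp [runQ])
  | succ n ih =>
    intro a0 b0 a1 b1 a2 b2 a3 b3 c c' h hx hy hz hw
    rw [runQ_succ, fN_eq, fN_eq] at h
    set d := Nat.land c 127 with hd
    rcases h4 : Nat.ble 4 d with _ | _
    · rw [h4, cond_false] at h
      rcases h0 : Nat.beq d 0 with _ | _
      · rw [h0, cond_false] at h
        rcases h1 : Nat.beq d 1 with _ | _
        · rw [h1, cond_false] at h
          rcases h2 : Nat.beq d 2 with _ | _
          · rw [h2, cond_false, fN_eq] at h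
            obtain ⟨e, he, he'⟩ := sq2_some h
            rcases hw.split (Nat.div (Nat.add a3 b3) 2) with hs | hs
            · exact ih he hx hy hz hs
            · exact ih he' hx hy hz hs
          · rw [h2, cond_true, fN_eq] at h
            obtain ⟨e, he, he'⟩ := sq2_some h
            rcases hz.split (Nat.div (Nat.add a2 b2) 2) with hs | hs
            · exact ih he hx hy hs hw
            · exact ih he' hx hy hs hw
        · rw [h1, cond_true, fN_eq] at h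
          obtain ⟨e, he, he'⟩ := sq2_some h
          rcases hy.split (Nat.div (Nat.add a1 b1) 2) with hs | hs
          · exact ih he hx hs hz hw
          · exact ih he' hx hs hz hw
      · rw [h0, cond_true, fN_eq] at h
        obtain ⟨e, he, he'⟩ := sq2_some h
        rcases hx.split (Nat.div (Nat.add a0 b0) 2) with hs | hs
        · exact ih he hs hy hz hw
        · exact ih he' hs hy hz hw
    · rw [h4, cond_true] at h
      obtain ⟨e0, he0, h0⟩ := hx.noise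
      obtain ⟨e1, he1, h1⟩ := hy.noise
      obtain ⟨e2, he2, h2⟩ := hz.noise
      obtain ⟨e3, he3, h3⟩ := hw.noise
      let ε : ℕ → ℝ := fun i => if i = 0 then e0 else if i = 1 then e1 else if i = 2 then e2 else
        if i = 3 then e3 else 0
      have hε : ∀ i, |ε i| ≤ 1 := by
        intro i
        simp only [ε]
        split_ifs <;> first | assumption | simp
      have ε0 : ε 0 = e0 := rfl
      have ε1 : ε 1 = e1 := rfl
      have ε2 : ε 2 = e2 := rfl
      have ε3 : ε 3 = e3 := rfl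
      rcases ht' : test (Nat.sub d 4) (F.v0 o0 a0 b0) (F.v1 o1 a1 b1) (F.v2 o2 a2 b2)
          (F.v3 o3 a3 b3) with _ | _
      · rw [ht', cond_false] at h
        exact absurd h (by simp)
      · refine ht _ _ _ _ _ ε x y z w hε ?_ ?_ ?_ ?_ ht'
        · unfold F.Encl F.toA A.Encl F.v0
          simp only [G.ev, Nat.cast_zero, sub_zero, zero_mul, add_zero, zero_add, ε0]
          change |x * DR - ((((a0 + b0) / 2 - o0 : ℕ) : ℝ) - ((o0 - (a0 + b0) / 2 : ℕ) : ℝ) +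
            ((b0 - (a0 + b0) / 2 : ℕ) : ℝ) * e0)| ≤ 0
          rw [abs_nonpos_iff]
          linarith only [h0]
        · unfold F.Encl F.toA A.Encl F.v1
          simp only [G.ev, Nat.cast_zero, sub_zero, zero_mul, add_zero, zero_add, ε1]
          change |y * DR - ((((a1 + b1) / 2 - o1 : ℕ) : ℝ) - ((o1 - (a1 + b1) / 2 : ℕ) : ℝ) +
            ((b1 - (a1 + b1) / 2 : ℕ) : ℝ) * e1)| ≤ 0
          rw [abs_nonpos_iff]
          linarith only [h1]
        · unfold F.Encl F.toA A.Encl F.v2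
          simp only [G.ev, Nat.cast_zero, sub_zero, zero_mul, add_zero, zero_add, ε2]
          change |z * DR - ((((a2 + b2) / 2 - o2 : ℕ) : ℝ) - ((o2 - (a2 + b2) / 2 : ℕ) : ℝ) +
            ((b2 - (a2 + b2) / 2 : ℕ) : ℝ) * e2)| ≤ 0
          rw [abs_nonpos_iff]
          linarith only [h2]
        · unfold F.Encl F.toA A.Encl F.v3
          simp only [G.ev, Nat.cast_zero, sub_zero, zero_mul, add_zero, zero_add, ε3]
          change |w * DR - ((((a3 + b3) / 2 - o3 : ℕ) : ℝ) - ((o3 - (a3 + b3) / 2 : ℕ) : ℝ) +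
            ((b3 - (a3 + b3) / 2 : ℕ) : ℝ) * e3)| ≤ 0
          rw [abs_nonpos_iff]
          linarith only [h3]

/-- Boolean version -/
noncomputable def okT (test : ℕ → F → F → F → F → Bool) (o0 o1 o2 o3 fuel a0 b0 a1 b1 a2 b2 a3 b3 c : ℕ) :
    Bool :=
  Option.rec (motive := fun _ => Bool) false (fun c => Nat.beq c 0)
    (runQ test o0 o1 o2 o3 fuel a0 b0 a1 b1 a2 b2 a3 b3 c)

theorem okT_sound {test : ℕ → F → F → F → F → Bool} {P : ℝ → ℝ → ℝ → ℝ → Prop}
    (ht : TestOk test P) {o0 o1 o2 o3 fuel a0 b0 a1 b1 a2 b2 a3 b3 c : ℕ}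
    (h : okT test o0 o1 o2 o3 fuel a0 b0 a1 b1 a2 b2 a3 b3 c = true) {x y z w : ℝ}
    (hx : Rg o0 a0 b0 x) (hy : Rg o1 a1 b1 y) (hz : Rg o2 a2 b2 z) (hw : Rg o3 a3 b3 w) :
    P x y z w := by
  unfold okT at h
  rcases h1 : runQ test o0 o1 o2 o3 fuel a0 b0 a1 b1 a2 b2 a3 b3 c with _ | c'
  · rw [h1] at h
    exact absurd h (by simp)
  · exact runQ_sound ht fuel h1 hx hy hz hw

/-- a sufficient condition for `Rg`: `a / N ≤ x ≤ b / N` -/
lemma Rg.of {o a b : ℕ} {l u : ℝ} {x : ℝ} (h1 : l ≤ x) (h2 : x ≤ u) (ha : (a : ℝ) ≤ l * DR + o)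
    (hb : u * DR + o ≤ b) : Rg o a b x := by
  have hD := DR_pos
  constructor
  · have := mul_le_mul_of_nonneg_right h1 hD.le
    linarith only [ha, this]
  · have := mul_le_mul_of_nonneg_right h2 hD.le
    linarith only [hb, this]

/-- the check of the box `[(li - oi) / N, (hi - oi) / N]` -/
noncomputable def okB (N : ℕ) (test : ℕ → F → F → F → F → Bool)
    (o0 o1 o2 o3 fuel l0 h0 l1 h1 l2 h2 l3 h3 c : ℕ) : Bool :=
  let O (o : ℕ) := Nat.div (Nat.add (Nat.mul o 68719476736) (Nat.sub N 1)) N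
  let A (l : ℕ) := Nat.div (Nat.mul l 68719476736) N
  let B (h : ℕ) := Nat.add (Nat.div (Nat.mul h 68719476736) N) 2
  fN (O o0) fun o0 => fN (O o1) fun o1 => fN (O o2) fun o2 => fN (O o3) fun o3 =>
  fN (A l0) fun a0 => fN (B h0) fun b0 => fN (A l1) fun a1 => fN (B h1) fun b1 =>
  fN (A l2) fun a2 => fN (B h2) fun b2 => fN (A l3) fun a3 => fN (B h3) fun b3 =>
  okT test o0 o1 o2 o3 fuel a0 b0 a1 b1 a2 b2 a3 b3 c

lemma Rg.dec {N l h o : ℕ} (hN : 0 < N) {x : ℝ} (h1 : ((l : ℝ) - o) / N ≤ x)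
    (h2 : x ≤ ((h : ℝ) - o) / N) :
    Rg (Nat.div (Nat.add (Nat.mul o 68719476736) (Nat.sub N 1)) N) (Nat.div (Nat.mul l 68719476736) N)
      (Nat.add (Nat.div (Nat.mul h 68719476736) N) 2) x := by
  have hD := DR_pos
  have hNr : (0 : ℝ) < N := by exact_mod_cast hN
  have a1 := ndiv_le (l * 68719476736) N
  have a2 := lt_ndiv (h * 68719476736) hN
  have a3 := ndiv_le (o * 68719476736 + (N - 1)) N
  have a4 := lt_ndiv (o * 68719476736 + (N - 1)) hN
  have hsub : ((N - 1 : ℕ) : ℝ) = (N : ℝ) - 1 := by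
    rw [Nat.cast_sub (by omega)]; simp
  rw [Nat.cast_mul, DN_cast] at a1 a2
  rw [Nat.cast_add, Nat.cast_mul, DN_cast, hsub] at a3 a4
  have e1 : ((l : ℝ) - o) / N * DR ≤ x * DR := mul_le_mul_of_nonneg_right h1 hD.le
  have e2 : x * DR ≤ ((h : ℝ) - o) / N * DR := mul_le_mul_of_nonneg_right h2 hD.le
  have e3 : ((l : ℝ) - o) / N * DR = l * DR / N - o * DR / N := by ring
  have e4 : ((h : ℝ) - o) / N * DR = h * DR / N - o * DR / N := by ring
  have e5 : ((o : ℝ) * DR + (N - 1)) / N = o * DR / N + 1 - 1 / N := by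
    field_simp
    ring
  have e6 : 0 < 1 / (N : ℝ) := by positivity
  rw [e5] at a3 a4
  rw [e3] at e1
  rw [e4] at e2
  change ((l * 68719476736 / N : ℕ) : ℝ) ≤ x * DR + ((o * 68719476736 + (N - 1)) / N : ℕ) ∧
    x * DR + ((o * 68719476736 + (N - 1)) / N : ℕ) ≤ ((h * 68719476736 / N + 2 : ℕ) : ℝ)
  have a5 : (o : ℝ) * DR / N ≤ (((o * 68719476736 + (N - 1)) / N : ℕ) : ℝ) := by
    have hdm := Nat.div_add_mod (o * 68719476736 + (N - 1)) N
    have hml := Nat.mod_lt (o * 68719476736 + (N - 1)) hN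
    have k : o * 68719476736 ≤ (o * 68719476736 + (N - 1)) / N * N := by
      rw [Nat.mul_comm N] at hdm
      omega
    have k' : (o : ℝ) * DR ≤ (((o * 68719476736 + (N - 1)) / N : ℕ) : ℝ) * N := by
      have := (Nat.cast_le (α := ℝ)).mpr k
      rw [Nat.cast_mul, DN_cast, Nat.cast_mul] at this
      exact this
    rwa [div_le_iff₀ hNr]
  constructor
  · linarith only [a1, e1, a5]
  · push_cast
    push_cast at a2
    linarith only [a2, a3, e2, e6]

theorem okB_sound {N : ℕ} (hN : 0 < N) {test : ℕ → F → F → F → F → Bool}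
    {P : ℝ → ℝ → ℝ → ℝ → Prop} (ht : TestOk test P) {o0 o1 o2 o3 fuel l0 h0 l1 h1 l2 h2 l3 h3 c : ℕ}
    (h : okB N test o0 o1 o2 o3 fuel l0 h0 l1 h1 l2 h2 l3 h3 c = true) {x y z w : ℝ}
    (hx : ((l0 : ℝ) - o0) / N ≤ x) (hx' : x ≤ ((h0 : ℝ) - o0) / N)
    (hy : ((l1 : ℝ) - o1) / N ≤ y) (hy' : y ≤ ((h1 : ℝ) - o1) / N)
    (hz : ((l2 : ℝ) - o2) / N ≤ z) (hz' : z ≤ ((h2 : ℝ) - o2) / N)
    (hw : ((l3 : ℝ) - o3) / N ≤ w) (hw' : w ≤ ((h3 : ℝ) - o3) / N) : P x y z w := by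
  unfold okB at h
  simp only [fN_eq] at h
  exact okT_sound ht h (Rg.dec hN hx hx') (Rg.dec hN hy hy') (Rg.dec hN hz hz') (Rg.dec hN hw hw')

/-- the case without offsets, `N = 10000` -/
theorem okB_sound0 {test : ℕ → F → F → F → F → Bool}
    {P : ℝ → ℝ → ℝ → ℝ → Prop} (ht : TestOk test P) {fuel l0 h0 l1 h1 l2 h2 l3 h3 c : ℕ}
    (h : okB 10000 test 0 0 0 0 fuel l0 h0 l1 h1 l2 h2 l3 h3 c = true) {x y z w : ℝ}
    (hx : (l0 : ℝ) / 10000 ≤ x) (hx' : x ≤ (h0 : ℝ) / 10000)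
    (hy : (l1 : ℝ) / 10000 ≤ y) (hy' : y ≤ (h1 : ℝ) / 10000)
    (hz : (l2 : ℝ) / 10000 ≤ z) (hz' : z ≤ (h2 : ℝ) / 10000)
    (hw : (l3 : ℝ) / 10000 ≤ w) (hw' : w ≤ (h3 : ℝ) / 10000) : P x y z w := by
  have e : ((10000 : ℕ) : ℝ) = 10000 := by norm_num
  refine okB_sound (by norm_num) ht h ?_ ?_ ?_ ?_ ?_ ?_ ?_ ?_ <;>
    rw [Nat.cast_zero, sub_zero, e] <;> assumption

/-- positivity -/
def posF (a : F) : Bool := Nat.ble (Nat.add (Nat.add a.q a.tot) 1) a.p

lemma posF_spec {a : F} {ε : ℕ → ℝ} {x : ℝ} (hε : ∀ i, |ε i| ≤ 1) (h : a.Encl ε x)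
    (hp : posF a = true) : 0 < x :=
  posA_spec hε h hp

def posO' (x : Option F) : Bool := Option.rec (motive := fun _ => Bool) false (fun a => posF a) x

/-- the value of an expression is positive if the test succeeds -/
theorem posO'_spec {e : E} {X Y Z W : F} {ε : ℕ → ℝ} {x y z w : ℝ} (hε : ∀ i, |ε i| ≤ 1)
    (hX : X.Encl ε x) (hY : Y.Encl ε y) (hZ : Z.Encl ε z) (hW : W.Encl ε w)
    (hp : posO' (e.evR [X, Y, Z, W]) = true) : 0 < e.val [x, y, z, w] := by
  rcases h1 : e.evR [X, Y, Z, W] with _ | c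
  · rw [h1] at hp
    exact absurd hp (by simp [posO'])
  · rw [h1] at hp
    refine posF_spec hε (E.evR_sound hε e ?_ h1) hp
    exact List.Forall₂.cons hX (List.Forall₂.cons hY (List.Forall₂.cons hZ
      (List.Forall₂.cons hW List.Forall₂.nil)))

end Pool.Agent.Work.NumIs

end

section

/-!
# Right ramp of a hinge `1 | ring`, the side of the digit `1`: kernel evaluation on a box

Own frame of the digit `1`: `w = x + i y`, `y = n (65/100 - x)`, `n = T / (29/100)`; the other hinge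
is `v = z + i K`, `K = K(z, K0)`, `μ` the right slope of its path.

* `dD x T z K` is the side of the digit `1`;
* `dL` is a lower bound for the sum of the two sides at the other hinge (`≤ 0` at a maximiser).
-/

namespace Pool.Agent.Work.MP_b30479_gtS.G2

open VOL NumIs

namespace DZ

noncomputable def dn (T : ℝ) : ℝ := 100 / 29 * T
noncomputable def dy (x T : ℝ) : ℝ := dn T * (65 / 100 - x)
noncomputable def dD (x T z K : ℝ) : ℝ := MR.s1 (-(dn T)) x (dy x T) z K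

noncomputable def dL (j : ℕ) (κ μ x T z K H : ℝ) : ℝ :=
  Real.pi * (dy x T + j * K) + (lnA (x + z) (dy x T + K) - (j + 1) * lnA z K) +
    μ * (Real.pi * (x + j * z) + ((j + 1) * lnB z K - lnB (x + z) (dy x T + K)) + κ) + H

/-- a row: `g` guard (`L` may be used if `g > 0`), `K`, `m` height and slope of the other hinge,
`H`, `k` parts of `L`, `R` the bound, `s0 ≤ T + K0 ≤ s1` the window -/
structure Row where
  j : ℕ
  g : E
  K : E
  m : E
  H : E
  k : E
  R : E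
  s0 : ℤ
  s1 : ℤ

section
open E

/-- `n, y, a, K, c, A1, B1` are the variables `4, ..., 10` -/
def lets (r : Row) (body : E) : E :=
  lt (mul (q 100 29) (var 1)) (lt (mul (var 4) (sub (q 65 100) (var 0))) (lt (add (var 0) (var 2))
    (lt r.K (lt (add (var 5) (var 7)) (lt (lnA (var 6) (var 8)) (lt (lnB (var 6) (var 8)) body))))))

def bP (r : Row) : E :=
  sub r.R (add (add (mul pi (var 7)) (sub (var 9) (lnA (var 0) (var 5))))
    (mul (var 4) (add (mul pi (sub (q 1 1) (var 2))) (sub (var 10) (lnB (var 0) (var 5))))))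

def bL (r : Row) : E :=
  add (add (add (mul pi (add (var 5) (mul (q r.j 1) (var 7))))
    (sub (var 9) (mul (q (r.j + 1 : ℕ) 1) (lnA (var 2) (var 7)))))
    (mul r.m (add (add (mul pi (add (var 0) (mul (q r.j 1) (var 2))))
      (sub (mul (q (r.j + 1 : ℕ) 1) (lnB (var 2) (var 7))) (var 10))) r.k))) r.H

def bPL (r : Row) (l : ℕ) : E := add (bP r) (mul (q l 2) (bL r))

def cE (r : Row) (k : ℕ) : E :=
  cond (Nat.beq k 0) (sub (add (var 1) (var 3)) (q r.s1 10000))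
    (cond (Nat.beq k 1) (sub (q r.s0 10000) (add (var 1) (var 3)))
      (sub (add (var 0) (var 2)) (q 951 1000)))

end

/-- the test with the code `k` -/
noncomputable def tst (r : Row) (k : ℕ) (X T Z K : F) : Bool :=
  cond (Nat.ble k 2) (posO' ((cE r k).evR [X, T, Z, K]))
    (cond (Nat.beq k 4) (posO' ((lets r (bP r)).evR [X, T, Z, K]))
      (cond (posO' (r.g.evR [X, T, Z, K]))
        (cond (Nat.beq k 3) (posO' ((lets r (bL r)).evR [X, T, Z, K]))
          (posO' ((lets r (bPL r (Nat.sub k 4))).evR [X, T, Z, K]))) false))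

/-- the real functions of a row -/
structure RowOk (r : Row) (g H k R : ℝ → ℝ) (Kf : ℝ → ℝ → ℝ) (m : ℝ → ℝ) : Prop where
  hg : ∀ x T z K l, r.g.val (x :: T :: z :: K :: l) = g z
  hH : ∀ x T z K l, r.H.val (x :: T :: z :: K :: l) = H z
  hk : ∀ x T z K l, r.k.val (x :: T :: z :: K :: l) = k z
  hR : ∀ x T z K l, r.R.val (x :: T :: z :: K :: l) = R T
  hK : ∀ x T z K l, r.K.val (x :: T :: z :: K :: l) = Kf z K
  hm : ∀ x T z K l, r.m.val (x :: T :: z :: K :: l) = m K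

/-- what the test proves -/
def Pr (r : Row) (g H k R : ℝ → ℝ) (Kf : ℝ → ℝ → ℝ) (m : ℝ → ℝ) (x T z K0 : ℝ) : Prop :=
  (r.s0 : ℝ) / 10000 ≤ T + K0 → T + K0 ≤ (r.s1 : ℝ) / 10000 → x + z ≤ 951 / 1000 →
    (0 < g z → dL r.j (k z) (m K0) x T z (Kf z K0) (H z) ≤ 0) → dD x T z (Kf z K0) < R T

variable {r : Row} {g H k R m : ℝ → ℝ} {Kf : ℝ → ℝ → ℝ}

theorem bP_val (h : RowOk r g H k R Kf m) (x T z K : ℝ) : (lets r (bP r)).val [x, T, z, K] =
    R T - dD x T z (Kf z K) := by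
  simp only [lets, bP, E.val, List.cons_append, List.nil_append, lkR, h.hR, h.hK, dD, MR.s1, dy, dn]
  push_cast
  ring

theorem bL_val (h : RowOk r g H k R Kf m) (x T z K : ℝ) : (lets r (bL r)).val [x, T, z, K] =
    dL r.j (k z) (m K) x T z (Kf z K) (H z) := by
  simp only [lets, bL, E.val, List.cons_append, List.nil_append, lkR, h.hH, h.hk, h.hK, h.hm, dL, dy, dn]
  push_cast
  ring

theorem bPL_val (h : RowOk r g H k R Kf m) (l : ℕ) (x T z K : ℝ) :
    (lets r (bPL r l)).val [x, T, z, K] = R T - dD x T z (Kf z K) +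
      (l : ℝ) / 2 * dL r.j (k z) (m K) x T z (Kf z K) (H z) := by
  rw [← bP_val h, ← bL_val h]
  simp only [lets, bPL, E.val, List.cons_append, List.nil_append]
  push_cast
  ring

theorem tst_ok (h : RowOk r g H k R Kf m) : TestOk (tst r) (Pr r g H k R Kf m) := by
  intro c X Y Z W ε x T z K hε hX hY hZ hW ht h0 h1 h2 hL
  unfold tst at ht
  rcases c0 : Nat.ble c 2 with _ | _
  · rw [c0, cond_false] at ht
    rcases c1 : Nat.beq c 4 with _ | _
    · rw [c1, cond_false] at ht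
      rcases c2 : posO' (r.g.evR [X, Y, Z, W]) with _ | _
      · rw [c2, cond_false] at ht
        exact absurd ht (by simp)
      · rw [c2, cond_true] at ht
        have hg := posO'_spec hε hX hY hZ hW c2
        rw [h.hg] at hg
        have hL := hL hg
        rcases c3 : Nat.beq c 3 with _ | _
        · rw [c3, cond_false] at ht
          have hp := posO'_spec hε hX hY hZ hW ht
          rw [bPL_val h] at hp
          have : ((Nat.sub c 4 : ℕ) : ℝ) / 2 * dL r.j (k z) (m K) x T z (Kf z K) (H z) ≤ 0 :=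
            mul_nonpos_of_nonneg_of_nonpos (by positivity) hL
          linarith only [hp, this]
        · rw [c3, cond_true] at ht
          have hp := posO'_spec hε hX hY hZ hW ht
          rw [bL_val h] at hp
          linarith only [hL, hp]
    · rw [c1, cond_true] at ht
      have hp := posO'_spec hε hX hY hZ hW ht
      rw [bP_val h] at hp
      linarith only [hp]
  · rw [c0, cond_true] at ht
    have hp := posO'_spec hε hX hY hZ hW ht
    exfalso
    unfold cE at hp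
    rcases d0 : Nat.beq c 0 with _ | _
    · rw [d0, cond_false] at hp
      rcases d1 : Nat.beq c 1 with _ | _
      · rw [d1, cond_false] at hp
        simp only [E.val, lkR] at hp
        push_cast at hp
        linarith only [h2, hp]
      · rw [d1, cond_true] at hp
        simp only [E.val, lkR] at hp
        push_cast at hp
        linarith only [h0, hp]
    · rw [d0, cond_true] at hp
      simp only [E.val, lkR] at hp
      push_cast at hp
      linarith only [h1, hp]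

end DZ

end Pool.Agent.Work.MP_b30479_gtS.G2

end

section

/-!
# Right side of the hinge `1 | 3` (slot `0`): real forms of the side of the `3`

`x + h i` is the hinge, `v + τ i` the inner variable, `w` the hinge at slot `2`; all in the own
frame of the `3`.  The first order condition of the inner variable is used with the worst hinge `w`.
-/

namespace Pool.Agent.Work.MP_b30479_gtS.G2

open VOL NumIs

namespace HX

/-- `S3` -/
noncomputable def s3 (m x h v τ : ℝ) : ℝ :=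
  -(Real.pi * τ) + lnA (v - x) (τ - h) - lnA x h +
    m * (-(Real.pi * v) - lnB (v - x) (τ - h) + lnB x h)

/-- `SM 0` with the hinge `w` at height `k` and `Re (v + w) = p` -/
noncomputable def sM (h x v τ p k : ℝ) : ℝ :=
  Real.pi * (k - h - τ) + lnA p (τ + k) - lnA (v - x) (τ - h) - lnA v τ

theorem S3_eq {m : ℝ} {u v : ℂ} (h0 : 0 < u.re) (h1 : u.re < 1) (h2 : 0 < v.re - u.re)
    (h3 : v.re - u.re < 1) : S3 1 m u v = s3 m u.re u.im v.re v.im := by
  have hu : u ∈ strip := ⟨h0, h1⟩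
  have hv : v - u ∈ strip := ⟨by rw [Complex.sub_re]; exact h2, by rw [Complex.sub_re]; exact h3⟩
  unfold S3 s3
  rw [Num.LL_lnA hu, Num.LL_lnA hv, Num.YY_lnB hu, Num.YY_lnB hv, Complex.sub_re, Complex.sub_im]
  ring

/-- `LL` on a horizontal line, to the right of `1/2` -/
theorem LL_le_of_re {z : ℂ} {p : ℝ} (hp : 1 / 2 ≤ p) (hp' : p < 1) (h0 : p ≤ z.re)
    (h1 : z.re ≤ 2 - p) (hz : 0 < 2 * Real.cosh (2 * Real.pi * z.im) -
      2 * Real.cos (2 * Real.pi * z.re)) : LL z ≤ lnA p z.im := by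
  have hpi := Real.pi_pos
  have h : (⟨p, z.im⟩ : ℂ) ∈ strip := ⟨by simp only; linarith only [hp, hp'], hp'⟩
  have e1 : LL ⟨p, z.im⟩ = lnA p z.im := Num.LL_lnA h
  rw [← e1]
  have hc : Real.cos (2 * Real.pi * p) ≤ Real.cos (2 * Real.pi * z.re) := by
    have e3 : Real.cos (2 * Real.pi * z.re) = Real.cos |2 * Real.pi * (z.re - 1)| := by
      rw [Real.cos_abs, show 2 * Real.pi * (z.re - 1) = 2 * Real.pi * z.re - 2 * Real.pi by ring,
        Real.cos_sub_two_pi]
    have e4 : Real.cos (2 * Real.pi * p) = Real.cos (2 * Real.pi * (1 - p)) := by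
      rw [show 2 * Real.pi * (1 - p) = 2 * Real.pi - 2 * Real.pi * p by ring,
        Real.cos_two_pi_sub]
    rw [e3, e4]
    apply Real.cos_le_cos_of_nonneg_of_le_pi (abs_nonneg _)
    · nlinarith only [hp, hpi]
    · rw [abs_mul, abs_of_pos (by positivity : 0 < 2 * Real.pi)]
      apply mul_le_mul_of_nonneg_left _ (by positivity)
      rw [abs_le]
      constructor <;> linarith only [h0, h1]
  rw [LL_eq', LL_eq']
  simp only
  apply div_le_div_of_nonneg_right _ (by norm_num)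
  apply Real.log_le_log hz
  linarith only [hc]

/-- the first order condition with the worst hinge `w` -/
theorem sM_of_SM {u v w : ℂ} {p a b : ℝ} (h : 0 ≤ SM 0 u v w) (h0 : 0 < v.re) (h1 : v.re < 1)
    (h2 : 0 < v.re - u.re) (h3 : v.re - u.re < 1) (hp : 1 / 2 ≤ p) (hp' : p < 1)
    (hw : p ≤ v.re + w.re) (hw' : v.re + w.re ≤ 2 - p) (ha : a ≤ w.im) (hb : w.im ≤ b)
    (hn : 0 < MM (v.re + w.re) (v.im + w.im)) :
    0 ≤ sM u.im u.re v.re v.im p a ∨ 0 ≤ sM u.im u.re v.re v.im p b := by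
  have hv : v ∈ strip := ⟨h0, h1⟩
  have hd : v - u ∈ strip := ⟨by rw [Complex.sub_re]; exact h2, by rw [Complex.sub_re]; exact h3⟩
  have hz : 0 < 2 * Real.cosh (2 * Real.pi * (v + w).im) -
      2 * Real.cos (2 * Real.pi * (v + w).re) := by
    have e := Num.den_eq (v + w)
    rw [Complex.add_re, Complex.add_im] at e ⊢
    linarith only [hn, e]
  have a1 := LL_le_of_re (z := v + w) hp hp' (by rw [Complex.add_re]; exact hw)
    (by rw [Complex.add_re]; exact hw') hz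
  rw [Complex.add_im] at a1
  have hM : 0 < MM p (v.im + w.im) := M3.MM_pos' (by linarith only [h0, h1, hp]) hp'
  have h4 : 0 ≤ Real.pi * (w.im - u.im - v.im) + lnA p (v.im + w.im) -
      lnA (v.re - u.re) (v.im - u.im) - lnA v.re v.im := by
    unfold SM at h
    rw [Num.LL_lnA hv, Num.LL_lnA hd, Complex.sub_re, Complex.sub_im] at h
    linarith only [h, a1]
  rcases M3.W_le hM (t := v.im + a) (r := v.im + b) (by linarith only [ha]) (by linarith only [hb]) with h5 | h5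
  · left
    have := h5.2
    unfold M3.W at this
    unfold sM
    nlinarith only [h4, this]
  · right
    have := h5.2
    unfold M3.W at this
    unfold sM
    nlinarith only [h4, this]

end HX

end Pool.Agent.Work.MP_b30479_gtS.G2

end

section

/-!
# Right side of the hinge `1 | 3` (slot `0`): expressions and rows
-/

set_option linter.unusedSimpArgs false

namespace Pool.Agent.Work.MP_b30479_gtS.G2

open VOL NumIs

namespace HX

section
open E

/-- side of the `3` along the slope `m` -/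
def s3E (m x h v τ : E) : E :=
  add (sub (add (neg (mul pi τ)) (lnA (sub v x) (sub τ h))) (lnA x h))
    (mul m (add (sub (neg (mul pi v)) (lnB (sub v x) (sub τ h))) (lnB x h)))

/-- the same, slope `0` -/
def s0E (x h v τ : E) : E := sub (add (neg (mul pi τ)) (lnA (sub v x) (sub τ h))) (lnA x h)

/-- first order condition of the inner variable -/
def sME (h x v τ p k : E) : E :=
  sub (sub (add (mul pi (sub (sub k h) τ)) (lnA p (add τ k))) (lnA (sub v x) (sub τ h))) (lnA v τ)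

/-- affine function -/
def afE (a b xc c : ℤ) (x T : E) : E :=
  add (q a 10000) (add (mul (q b 10000) (sub x (q xc 10000)))
    (mul (q c 10000) (sub T (q 700 10000))))

/-- height on the ramp `[1/2, 65/100]` in the frame of the `3` -/
def hrE (x T : E) : E := neg (mul T (mul (q 20 3) (sub (q 65 100) x)))

/-- slope on the ramp in the frame of the `3` -/
def mrE (T : E) : E := mul (q 20 3) T

/-- side of the `1`, slope `0` -/
def e10 (x t x' t' : E) : E := sub (add (mul pi t') (lnA (add x x') (add t t'))) (lnA x t)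

/-- the alternatives for `s < -f` if `0 ≤ M` -/
def L3 (f s M : E) (c : List E) : List E :=
  [neg (add f s), neg (add f (add s (mul (q 2 3) M))), neg M, neg (add f (add s M))] ++ c

end

/-- affine function -/
noncomputable def af (a b xc c : ℤ) (x T : ℝ) : ℝ :=
  (a : ℝ) / 10000 + ((b : ℝ) / 10000 * (x - (xc : ℝ) / 10000) +
    (c : ℝ) / 10000 * (T - 7 / 100))

variable {xs : List ℝ} {x T v τ : ℝ}

theorem afE_val (a b xc c : ℤ) {xe Te : E} (hx : xe.val xs = x) (hT : Te.val xs = T) :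
    (afE a b xc c xe Te).val xs = af a b xc c x T := by
  simp only [afE, E.val, hx, hT, af]
  push_cast
  ring

theorem s3E_val (m x h v τ : E) : (s3E m x h v τ).val xs =
    s3 (m.val xs) (x.val xs) (h.val xs) (v.val xs) (τ.val xs) := by
  simp only [s3E, E.val, s3]

theorem s0E_val (x h v τ : E) : (s0E x h v τ).val xs =
    s3 0 (x.val xs) (h.val xs) (v.val xs) (τ.val xs) := by
  simp only [s0E, E.val, s3]
  ring

theorem sME_val (h x v τ p k : E) : (sME h x v τ p k).val xs =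
    sM (h.val xs) (x.val xs) (v.val xs) (τ.val xs) (p.val xs) (k.val xs) := by
  simp only [sME, E.val, sM]

theorem e10_val (x t x' t' : E) : (e10 x t x' t').val xs =
    MR.s1 0 (x.val xs) (t.val xs) (x'.val xs) (t'.val xs) := by
  simp only [e10, E.val, MR.s1]
  ring

theorem L3_use {f s M : E} {c : List E} (h : ∃ e ∈ L3 f s M c, 0 < e.val xs)
    (hc : ∀ e ∈ c, e.val xs ≤ 0) (hM : 0 ≤ M.val xs) : s.val xs < -(f.val xs) := by
  obtain ⟨e, he, hp⟩ := h
  simp only [L3, List.mem_append, List.mem_cons, List.mem_nil_iff, or_false] at he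
  rcases he with (rfl | rfl | rfl | rfl) | he
  · simp only [E.val] at hp
    linarith only [hp]
  · simp only [E.val] at hp
    push_cast at hp
    linarith only [hM, hp]
  · simp only [E.val] at hp
    linarith only [hM, hp]
  · simp only [E.val] at hp
    linarith only [hM, hp]
  · linarith only [hp, hc, he, hc e he]

/-- certificate, flat part -/
def f3C (a b xc c wf wi x0 x1 T0 T1 p0 p1 t0 t1 s0 s1 vM vL : ℤ) : Bool :=
  chk (L3 (afE a b xc c (E.var 0) (E.var 1))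
      (s0E (E.var 0) (E.neg (E.var 1)) (E.add (E.var 0) (E.var 2)) (E.var 3))
      (sME (E.neg (E.var 1)) (E.var 0) (E.add (E.var 0) (E.var 2)) (E.var 3)
        (E.add (E.add (E.var 0) (E.var 2)) (E.q wf 10000)) (E.q wi 10000))
      [E.sub (E.add (E.var 3) (E.var 1)) (E.q s1 10000),
        E.sub (E.q s0 10000) (E.add (E.var 3) (E.var 1)),
        E.sub (E.add (E.var 0) (E.var 2)) (E.q vM 10000),
        E.sub (E.q vL 10000) (E.add (E.var 0) (E.var 2))]) 22
      [V.of 10000 x0 x1, V.of 10000 T0 T1, V.of 10000 p0 p1, V.of 10000 t0 t1]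

/-- row on the flat part -/
theorem flat3 {a b xc c wf wi x0 x1 T0 T1 p0 p1 t0 t1 s0 s1 vM vL : ℤ}
    (h : f3C a b xc c wf wi x0 x1 T0 T1 p0 p1 t0 t1 s0 s1 vM vL = true)
    (hx : (x0 : ℝ) / 10000 ≤ x) (hx' : x ≤ (x1 : ℝ) / 10000) (hT : (T0 : ℝ) / 10000 ≤ T)
    (hT' : T ≤ (T1 : ℝ) / 10000) (hp : (p0 : ℝ) / 10000 ≤ v - x)
    (hp' : v - x ≤ (p1 : ℝ) / 10000) (hτ : (t0 : ℝ) / 10000 ≤ τ) (hτ' : τ ≤ (t1 : ℝ) / 10000)
    (hs : (s0 : ℝ) / 10000 ≤ τ + T) (hs' : τ + T ≤ (s1 : ℝ) / 10000)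
    (hv : v ≤ (vM : ℝ) / 10000) (hv' : (vL : ℝ) / 10000 ≤ v)
    (hM : 0 ≤ sM (-T) x v τ (v + (wf : ℝ) / 10000) ((wi : ℝ) / 10000)) :
    s3 0 x (-T) v τ < -(af a b xc c x T) := by
  have hk := chk4 h (by norm_num) (x := x) (y := T) (z := v - x) (w := τ)
    (by push_cast; exact hx) (by push_cast; exact hx') (by push_cast; exact hT)
    (by push_cast; exact hT') (by push_cast; exact hp) (by push_cast; exact hp')
    (by push_cast; exact hτ) (by push_cast; exact hτ')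
  have e : x + (v - x) = v := by ring
  have hu := L3_use hk (by
    intro e' he
    simp only [List.mem_cons, List.mem_nil_iff, or_false] at he
    rcases he with rfl | rfl | rfl | rfl <;>
      (simp only [E.val, lkR]; push_cast; linarith only [hs', hs, hv, hv'])) (by
    rw [sME_val]
    simp only [E.val, lkR, e]
    push_cast
    exact hM)
  rw [s0E_val, afE_val (x := x) (T := T) a b xc c rfl rfl] at hu
  simpa only [E.val, lkR, e] using hu

/-- certificate, ramp -/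
def r3C (a b xc c wf wi x0 x1 T0 T1 p0 p1 t0 t1 s0 s1 vM : ℤ) : Bool :=
  chk (L3 (afE a b xc c (E.var 0) (E.var 1))
      (s3E (mrE (E.var 1)) (E.var 0) (hrE (E.var 0) (E.var 1)) (E.add (E.var 0) (E.var 2))
        (E.var 3))
      (sME (hrE (E.var 0) (E.var 1)) (E.var 0) (E.add (E.var 0) (E.var 2)) (E.var 3)
        (E.add (E.add (E.var 0) (E.var 2)) (E.q wf 10000)) (E.q wi 10000))
      [E.sub (E.add (E.var 3) (E.var 1)) (E.q s1 10000),
        E.sub (E.q s0 10000) (E.add (E.var 3) (E.var 1)),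
        E.sub (E.add (E.var 0) (E.var 2)) (E.q vM 10000)]) 22
      [V.of 10000 x0 x1, V.of 10000 T0 T1, V.of 10000 p0 p1, V.of 10000 t0 t1]

/-- row on the ramp -/
theorem ramp3 {a b xc c wf wi x0 x1 T0 T1 p0 p1 t0 t1 s0 s1 vM : ℤ} {hh m : ℝ}
    (h : r3C a b xc c wf wi x0 x1 T0 T1 p0 p1 t0 t1 s0 s1 vM = true)
    (hx : (x0 : ℝ) / 10000 ≤ x) (hx' : x ≤ (x1 : ℝ) / 10000) (hT : (T0 : ℝ) / 10000 ≤ T)
    (hT' : T ≤ (T1 : ℝ) / 10000) (hp : (p0 : ℝ) / 10000 ≤ v - x)
    (hp' : v - x ≤ (p1 : ℝ) / 10000) (hτ : (t0 : ℝ) / 10000 ≤ τ) (hτ' : τ ≤ (t1 : ℝ) / 10000)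
    (hs : (s0 : ℝ) / 10000 ≤ τ + T) (hs' : τ + T ≤ (s1 : ℝ) / 10000)
    (hv : v ≤ (vM : ℝ) / 10000) (hh' : hh = -(T * (20 / 3 * (65 / 100 - x))))
    (hm : m = 20 / 3 * T)
    (hM : 0 ≤ sM hh x v τ (v + (wf : ℝ) / 10000) ((wi : ℝ) / 10000)) :
    s3 m x hh v τ < -(af a b xc c x T) := by
  have hk := chk4 h (by norm_num) (x := x) (y := T) (z := v - x) (w := τ)
    (by push_cast; exact hx) (by push_cast; exact hx') (by push_cast; exact hT)
    (by push_cast; exact hT') (by push_cast; exact hp) (by push_cast; exact hp')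
    (by push_cast; exact hτ) (by push_cast; exact hτ')
  have e : x + (v - x) = v := by ring
  have eh : (hrE (E.var 0) (E.var 1)).val [x, T, v - x, τ] = hh := by
    rw [hh']
    simp only [hrE, E.val, lkR]
    push_cast
    ring
  have em : (mrE (E.var 1)).val [x, T, v - x, τ] = m := by
    rw [hm]
    simp only [mrE, E.val, lkR]
    push_cast
    ring
  have hu := L3_use hk (by
    intro e' he
    simp only [List.mem_cons, List.mem_nil_iff, or_false] at he
    rcases he with rfl | rfl | rfl <;>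
      (simp only [E.val, lkR]; push_cast; linarith only [hs', hs, hv])) (by
    rw [sME_val, eh]
    simp only [E.val, lkR, e]
    push_cast
    exact hM)
  rw [s3E_val, afE_val (x := x) (T := T) a b xc c rfl rfl, em, eh] at hu
  simpa only [E.val, lkR, e] using hu

variable {k κ : ℝ}

/-- certificate, side of the `1`, flat part -/
def f1C (a b xc c x0 x1 T0 T1 k0 k1 t0 t1 s0 s1 : ℤ) : Bool :=
  chk [E.sub (afE a b xc c (E.var 0) (E.var 1)) (e10 (E.var 0) (E.var 1) (E.var 2) (E.var 3)),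
      E.sub (E.add (E.var 1) (E.var 3)) (E.q s1 10000),
      E.sub (E.q s0 10000) (E.add (E.var 1) (E.var 3)),
      E.sub (E.add (E.var 0) (E.var 2)) (E.q 9500 10000)] 22
      [V.of 10000 x0 x1, V.of 10000 T0 T1, V.of 10000 k0 k1, V.of 10000 t0 t1]

/-- side of the `1`, flat part -/
theorem flat1 {a b xc c x0 x1 T0 T1 k0 k1 t0 t1 s0 s1 : ℤ}
    (h : f1C a b xc c x0 x1 T0 T1 k0 k1 t0 t1 s0 s1 = true)
    (hx : (x0 : ℝ) / 10000 ≤ x) (hx' : x ≤ (x1 : ℝ) / 10000) (hT : (T0 : ℝ) / 10000 ≤ T)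
    (hT' : T ≤ (T1 : ℝ) / 10000) (hk : (k0 : ℝ) / 10000 ≤ k) (hk' : k ≤ (k1 : ℝ) / 10000)
    (hκ : (t0 : ℝ) / 10000 ≤ κ) (hκ' : κ ≤ (t1 : ℝ) / 10000)
    (hs : (s0 : ℝ) / 10000 ≤ T + κ) (hs' : T + κ ≤ (s1 : ℝ) / 10000)
    (hxk : x + k ≤ 95 / 100) : MR.s1 0 x T k κ < af a b xc c x T := by
  obtain ⟨e, he, hp⟩ := chk4 h (by norm_num) (x := x) (y := T) (z := k) (w := κ)
    (by push_cast; exact hx) (by push_cast; exact hx') (by push_cast; exact hT)
    (by push_cast; exact hT') (by push_cast; exact hk) (by push_cast; exact hk')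
    (by push_cast; exact hκ) (by push_cast; exact hκ')
  simp only [List.mem_cons, List.mem_nil_iff, or_false] at he
  rcases he with rfl | rfl | rfl | rfl
  · rw [E.val, e10_val, afE_val (x := x) (T := T) a b xc c rfl rfl] at hp
    simp only [E.val, lkR] at hp
    linarith only [hp]
  · exfalso
    simp only [E.val, lkR] at hp
    push_cast at hp
    linarith only [hs', hp]
  · exfalso
    simp only [E.val, lkR] at hp
    push_cast at hp
    linarith only [hs, hp]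
  · exfalso
    simp only [E.val, lkR] at hp
    push_cast at hp
    linarith only [hxk, hp]

/-- certificate, side of the `1`, ramp -/
def r1C (a b xc c x0 x1 T0 T1 k0 k1 t0 t1 s0 s1 : ℤ) : Bool :=
  chk [E.sub (afE a b xc c (E.var 0) (E.var 1))
        (MR.e1 (E.neg (mrE (E.var 1))) (E.var 0) (E.neg (hrE (E.var 0) (E.var 1))) (E.var 2)
          (E.var 3)),
      E.sub (E.add (E.var 1) (E.var 3)) (E.q s1 10000),
      E.sub (E.q s0 10000) (E.add (E.var 1) (E.var 3)),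
      E.sub (E.add (E.var 0) (E.var 2)) (E.q 9500 10000)] 22
      [V.of 10000 x0 x1, V.of 10000 T0 T1, V.of 10000 k0 k1, V.of 10000 t0 t1]

/-- side of the `1`, ramp -/
theorem ramp1 {a b xc c x0 x1 T0 T1 k0 k1 t0 t1 s0 s1 : ℤ} {hh m : ℝ}
    (h : r1C a b xc c x0 x1 T0 T1 k0 k1 t0 t1 s0 s1 = true)
    (hx : (x0 : ℝ) / 10000 ≤ x) (hx' : x ≤ (x1 : ℝ) / 10000) (hT : (T0 : ℝ) / 10000 ≤ T)
    (hT' : T ≤ (T1 : ℝ) / 10000) (hk : (k0 : ℝ) / 10000 ≤ k) (hk' : k ≤ (k1 : ℝ) / 10000)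
    (hκ : (t0 : ℝ) / 10000 ≤ κ) (hκ' : κ ≤ (t1 : ℝ) / 10000)
    (hs : (s0 : ℝ) / 10000 ≤ T + κ) (hs' : T + κ ≤ (s1 : ℝ) / 10000)
    (hxk : x + k ≤ 95 / 100) (hh' : hh = T * (20 / 3 * (65 / 100 - x)))
    (hm : m = -(20 / 3 * T)) : MR.s1 m x hh k κ < af a b xc c x T := by
  obtain ⟨e, he, hp⟩ := chk4 h (by norm_num) (x := x) (y := T) (z := k) (w := κ)
    (by push_cast; exact hx) (by push_cast; exact hx') (by push_cast; exact hT)
    (by push_cast; exact hT') (by push_cast; exact hk) (by push_cast; exact hk')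
    (by push_cast; exact hκ) (by push_cast; exact hκ')
  have eh : (E.neg (hrE (E.var 0) (E.var 1))).val [x, T, k, κ] = hh := by
    rw [hh']
    simp only [hrE, E.val, lkR]
    push_cast
    ring
  have em : (E.neg (mrE (E.var 1))).val [x, T, k, κ] = m := by
    rw [hm]
    simp only [mrE, E.val, lkR]
    push_cast
    ring
  simp only [List.mem_cons, List.mem_nil_iff, or_false] at he
  rcases he with rfl | rfl | rfl | rfl
  · rw [E.val, MR.e1_val, eh, em, afE_val (x := x) (T := T) a b xc c rfl rfl] at hp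
    simp only [E.val, lkR] at hp
    linarith only [hp]
  · exfalso
    simp only [E.val, lkR] at hp
    push_cast at hp
    linarith only [hs', hp]
  · exfalso
    simp only [E.val, lkR] at hp
    push_cast at hp
    linarith only [hs, hp]
  · exfalso
    simp only [E.val, lkR] at hp
    push_cast at hp
    linarith only [hxk, hp]

end HX

end Pool.Agent.Work.MP_b30479_gtS.G2

end

section

/-!
# Verified numerics for the kernel, part 10: cheap constants and multiples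
-/

namespace Pool.Agent.Work.NumIs

namespace F

/-- the constant `n / d` -/
def rat (n d : ℕ) : F := ⟨Nat.div (Nat.mul n 68719476736) d, 0, 1, 0, 0, 0, 0, 0, 0, 0, 0⟩

lemma Encl_iff {f : F} {ε : ℕ → ℝ} {x : ℝ} : f.Encl ε x ↔ |x * DR - ((f.p : ℝ) - f.q +
    (((f.a0 : ℝ) - f.b0) * ε 0 + (((f.a1 : ℝ) - f.b1) * ε 1 + (((f.a2 : ℝ) - f.b2) * ε 2 +
      ((f.a3 : ℝ) - f.b3) * ε 3))))| ≤ f.r := by
  unfold Encl A.Encl toA
  simp only [G.ev, add_zero]

lemma Encl.rat (n d : ℕ) (ε : ℕ → ℝ) : (F.rat n d).Encl ε ((n : ℝ) / d) := by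
  rw [Encl_iff]
  have := A.cst_aux n d
  unfold F.rat
  simp only [Nat.cast_zero, sub_zero, zero_mul, add_zero]
  change |(n : ℝ) / d * DR - ((n * 68719476736 / d : ℕ) : ℝ)| ≤ ((1 : ℕ) : ℝ)
  simpa using this

/-- the multiple `n / d` -/
def mulq (n d : ℕ) (a : F) : F :=
  ⟨Nat.div (Nat.mul a.p n) d, Nat.div (Nat.mul a.q n) d, Nat.add (Nat.div (Nat.mul a.r n) d) 6,
    Nat.div (Nat.mul a.a0 n) d, Nat.div (Nat.mul a.b0 n) d, Nat.div (Nat.mul a.a1 n) d,
    Nat.div (Nat.mul a.b1 n) d, Nat.div (Nat.mul a.a2 n) d, Nat.div (Nat.mul a.b2 n) d,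
    Nat.div (Nat.mul a.a3 n) d, Nat.div (Nat.mul a.b3 n) d⟩

lemma dq_aux (a b n : ℕ) {d : ℕ} (hd : 0 < d) :
    |(((a * n / d : ℕ) : ℝ) - ((b * n / d : ℕ) : ℝ)) - ((a : ℝ) - b) * (n / d)| ≤ 1 := by
  have h1 := ndiv_le (a * n) d
  have h2 := lt_ndiv (a * n) hd
  have h3 := ndiv_le (b * n) d
  have h4 := lt_ndiv (b * n) hd
  push_cast at h1 h2 h3 h4
  have e : ((a : ℝ) - b) * (n / d) = a * n / d - b * n / d := by ring
  rw [e, abs_le]
  constructor <;> linarith

lemma Encl.mulq {n d : ℕ} (hd : 0 < d) {a : F} {ε : ℕ → ℝ} {x : ℝ} (hε : ∀ i, |ε i| ≤ 1)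
    (h : a.Encl ε x) : (F.mulq n d a).Encl ε ((n : ℝ) / d * x) := by
  rw [Encl_iff] at h ⊢
  have h0 := dq_aux a.p a.q n hd
  have g0 := dq_aux a.a0 a.b0 n hd
  have g1 := dq_aux a.a1 a.b1 n hd
  have g2 := dq_aux a.a2 a.b2 n hd
  have g3 := dq_aux a.a3 a.b3 n hd
  have hr := lt_ndiv (a.r * n) hd
  push_cast at hr
  unfold F.mulq
  change |(n : ℝ) / d * x * DR - (((a.p * n / d : ℕ) : ℝ) - ((a.q * n / d : ℕ) : ℝ) +
    ((((a.a0 * n / d : ℕ) : ℝ) - ((a.b0 * n / d : ℕ) : ℝ)) * ε 0 +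
    ((((a.a1 * n / d : ℕ) : ℝ) - ((a.b1 * n / d : ℕ) : ℝ)) * ε 1 +
    ((((a.a2 * n / d : ℕ) : ℝ) - ((a.b2 * n / d : ℕ) : ℝ)) * ε 2 +
    (((a.a3 * n / d : ℕ) : ℝ) - ((a.b3 * n / d : ℕ) : ℝ)) * ε 3))))| ≤
    ((a.r * n / d + 6 : ℕ) : ℝ)
  push_cast
  set P := ((a.p * n / d : ℕ) : ℝ) - ((a.q * n / d : ℕ) : ℝ)
  set G0 := ((a.a0 * n / d : ℕ) : ℝ) - ((a.b0 * n / d : ℕ) : ℝ)
  set G1 := ((a.a1 * n / d : ℕ) : ℝ) - ((a.b1 * n / d : ℕ) : ℝ)
  set G2 := ((a.a2 * n / d : ℕ) : ℝ) - ((a.b2 * n / d : ℕ) : ℝ)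
  set G3 := ((a.a3 * n / d : ℕ) : ℝ) - ((a.b3 * n / d : ℕ) : ℝ)
  set R := ((a.r * n / d : ℕ) : ℝ)
  set c : ℝ := (n : ℝ) / d with hc
  have hc0 : 0 ≤ c := by positivity
  have e : c * x * DR - (P + (G0 * ε 0 + (G1 * ε 1 + (G2 * ε 2 + G3 * ε 3)))) =
      c * (x * DR - ((a.p : ℝ) - a.q + (((a.a0 : ℝ) - a.b0) * ε 0 + (((a.a1 : ℝ) - a.b1) * ε 1 +
        (((a.a2 : ℝ) - a.b2) * ε 2 + ((a.a3 : ℝ) - a.b3) * ε 3))))) -
      ((P - ((a.p : ℝ) - a.q) * c) + (G0 - ((a.a0 : ℝ) - a.b0) * c) * ε 0 +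
        (G1 - ((a.a1 : ℝ) - a.b1) * c) * ε 1 + (G2 - ((a.a2 : ℝ) - a.b2) * c) * ε 2 +
        (G3 - ((a.a3 : ℝ) - a.b3) * c) * ε 3) := by ring
  rw [e]
  have m : ∀ (t : ℝ) (i : ℕ), |t| ≤ 1 → |t * ε i| ≤ 1 := fun t i ht => by
    rw [abs_mul]
    exact mul_le_one₀ ht (abs_nonneg _) (hε i)
  have k0 := m _ 0 g0
  have k1 := m _ 1 g1
  have k2 := m _ 2 g2
  have k3 := m _ 3 g3
  have hm : |c * (x * DR - ((a.p : ℝ) - a.q + (((a.a0 : ℝ) - a.b0) * ε 0 + (((a.a1 : ℝ) - a.b1) * ε 1 +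
        (((a.a2 : ℝ) - a.b2) * ε 2 + ((a.a3 : ℝ) - a.b3) * ε 3)))))| ≤ c * a.r := by
    rw [abs_mul, abs_of_nonneg hc0]
    exact mul_le_mul_of_nonneg_left h hc0
  have hcr : c * a.r ≤ R + 1 := by
    have : (a.r : ℝ) * n / d = c * a.r := by rw [hc]; ring
    linarith
  rw [abs_le] at *
  constructor <;> linarith [k0.1, k0.2, k1.1, k1.2, k2.1, k2.2, k3.1, k3.2, hm.1, hm.2, h0.1, h0.2]

lemma Encl.pi (ε : ℕ → ℝ) : (F.pi).Encl ε Real.pi := pi_encl ε

lemma Encl.lnA {a b c : F} {ε : ℕ → ℝ} {x t : ℝ} (hε : ∀ i, |ε i| ≤ 1) (hx : a.Encl ε x)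
    (ht : b.Encl ε t) (h : F.lnA a b = some c) : c.Encl ε (NumIs.lnA x t) :=
  A.Encl.lnA hε hx ht (map_some_inv (F.toA_lnA a b) h)

lemma Encl.lnB {a b c : F} {ε : ℕ → ℝ} {x t : ℝ} (hε : ∀ i, |ε i| ≤ 1) (hx : a.Encl ε x)
    (ht : b.Encl ε t) (h : F.lnB a b = some c) : c.Encl ε (NumIs.lnB x t) :=
  A.Encl.lnB hε hx ht (map_some_inv (F.toA_lnB a b) h)

lemma Encl.log {a c : F} {ε : ℕ → ℝ} {x : ℝ} (hε : ∀ i, |ε i| ≤ 1) (hx : a.Encl ε x)
    (h : F.log a = some c) : c.Encl ε (Real.log x) :=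
  A.Encl.log hε hx (map_some_inv (F.toA_log a) h)

lemma Encl.exp {a c : F} {ε : ℕ → ℝ} {x : ℝ} (hε : ∀ i, |ε i| ≤ 1) (hx : a.Encl ε x)
    (h : F.exp a = some c) : c.Encl ε (Real.exp x) :=
  A.Encl.exp hε hx (map_some_inv (F.toA_exp a) h)

lemma Encl.inv {a c : F} {ε : ℕ → ℝ} {x : ℝ} (hε : ∀ i, |ε i| ≤ 1) (hx : a.Encl ε x)
    (h : F.inv a = some c) : c.Encl ε x⁻¹ :=
  A.Encl.inv hε hx (map_some_inv (F.toA_inv a) h)

lemma Encl.atan {a c : F} {ε : ℕ → ℝ} {x : ℝ} (hε : ∀ i, |ε i| ≤ 1) (hx : a.Encl ε x)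
    (h : F.atan a = some c) : c.Encl ε (Real.arctan x) :=
  A.Encl.atan hε hx (map_some_inv (F.toA_atan a) h)

lemma Encl.cosh {a c : F} {ε : ℕ → ℝ} {x : ℝ} (hε : ∀ i, |ε i| ≤ 1) (hx : a.Encl ε x)
    (h : F.hyp true a = some c) : c.Encl ε (Real.cosh x) :=
  A.Encl.hyp hε hx (map_some_inv (F.toA_hyp true a) h)

lemma Encl.sinh {a c : F} {ε : ℕ → ℝ} {x : ℝ} (hε : ∀ i, |ε i| ≤ 1) (hx : a.Encl ε x)
    (h : F.hyp false a = some c) : c.Encl ε (Real.sinh x) :=
  A.Encl.hyp hε hx (map_some_inv (F.toA_hyp false a) h)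

end F

end Pool.Agent.Work.NumIs

end

section

/-!
# Verified numerics for the kernel, part 10: certificates in pieces

A certificate tree of `NumIs.Tree` can be checked in pieces, each by a theorem of its own: `runE`
is the check of a subtree (`c` is the code at the root of the subtree, `c'` the rest after it),
`runE_split0, ..., runE_split3` put the two halves of a bisection together and `okB_of` gives the
full check.
-/

namespace Pool.Agent.Work.NumIs

/-- the check of a subtree: the run succeeds and leaves the code `c'` -/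
noncomputable def runE (test : ℕ → F → F → F → F → Bool)
    (o0 o1 o2 o3 fuel a0 b0 a1 b1 a2 b2 a3 b3 c c' : ℕ) : Bool :=
  Option.rec (motive := fun _ => Bool) false (fun x => Nat.beq x c')
    (runQ test o0 o1 o2 o3 fuel a0 b0 a1 b1 a2 b2 a3 b3 c)

theorem runE_iff {test : ℕ → F → F → F → F → Bool}
    {o0 o1 o2 o3 fuel a0 b0 a1 b1 a2 b2 a3 b3 c c' : ℕ} :
    runE test o0 o1 o2 o3 fuel a0 b0 a1 b1 a2 b2 a3 b3 c c' = true ↔
      runQ test o0 o1 o2 o3 fuel a0 b0 a1 b1 a2 b2 a3 b3 c = some c' := by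
  unfold runE
  rcases runQ test o0 o1 o2 o3 fuel a0 b0 a1 b1 a2 b2 a3 b3 c with _ | x
  · simp
  · change Nat.beq x c' = true ↔ some x = some c'
    rw [Nat.beq_eq]
    simp

variable {test : ℕ → F → F → F → F → Bool} {o0 o1 o2 o3 n a0 b0 a1 b1 a2 b2 a3 b3 c c1 c2 c3 m : ℕ}

theorem runE_split0 (hd : Nat.land c 127 = 0) (hc : Nat.shiftRight c 7 = c1)
    (hm : Nat.div (Nat.add a0 b0) 2 = m)
    (h1 : runE test o0 o1 o2 o3 n a0 m a1 b1 a2 b2 a3 b3 c1 c2 = true)
    (h2 : runE test o0 o1 o2 o3 n m b0 a1 b1 a2 b2 a3 b3 c2 c3 = true) :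
    runE test o0 o1 o2 o3 (n + 1) a0 b0 a1 b1 a2 b2 a3 b3 c c3 = true := by
  rw [runE_iff] at h1 h2 ⊢
  rw [runQ_succ, fN_eq, fN_eq, hd, hc]
  change fN (Nat.div (Nat.add a0 b0) 2) (fun m =>
            sq2 (runQ test o0 o1 o2 o3 n a0 m a1 b1 a2 b2 a3 b3 c1) fun c'' =>
              runQ test o0 o1 o2 o3 n m b0 a1 b1 a2 b2 a3 b3 c'') = some c3
  rw [fN_eq, hm, h1]
  exact h2

theorem runE_split1 (hd : Nat.land c 127 = 1) (hc : Nat.shiftRight c 7 = c1)
    (hm : Nat.div (Nat.add a1 b1) 2 = m)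
    (h1 : runE test o0 o1 o2 o3 n a0 b0 a1 m a2 b2 a3 b3 c1 c2 = true)
    (h2 : runE test o0 o1 o2 o3 n a0 b0 m b1 a2 b2 a3 b3 c2 c3 = true) :
    runE test o0 o1 o2 o3 (n + 1) a0 b0 a1 b1 a2 b2 a3 b3 c c3 = true := by
  rw [runE_iff] at h1 h2 ⊢
  rw [runQ_succ, fN_eq, fN_eq, hd, hc]
  change fN (Nat.div (Nat.add a1 b1) 2) (fun m =>
            sq2 (runQ test o0 o1 o2 o3 n a0 b0 a1 m a2 b2 a3 b3 c1) fun c'' =>
              runQ test o0 o1 o2 o3 n a0 b0 m b1 a2 b2 a3 b3 c'') = some c3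
  rw [fN_eq, hm, h1]
  exact h2

theorem runE_split2 (hd : Nat.land c 127 = 2) (hc : Nat.shiftRight c 7 = c1)
    (hm : Nat.div (Nat.add a2 b2) 2 = m)
    (h1 : runE test o0 o1 o2 o3 n a0 b0 a1 b1 a2 m a3 b3 c1 c2 = true)
    (h2 : runE test o0 o1 o2 o3 n a0 b0 a1 b1 m b2 a3 b3 c2 c3 = true) :
    runE test o0 o1 o2 o3 (n + 1) a0 b0 a1 b1 a2 b2 a3 b3 c c3 = true := by
  rw [runE_iff] at h1 h2 ⊢
  rw [runQ_succ, fN_eq, fN_eq, hd, hc]
  change fN (Nat.div (Nat.add a2 b2) 2) (fun m =>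
            sq2 (runQ test o0 o1 o2 o3 n a0 b0 a1 b1 a2 m a3 b3 c1) fun c'' =>
              runQ test o0 o1 o2 o3 n a0 b0 a1 b1 m b2 a3 b3 c'') = some c3
  rw [fN_eq, hm, h1]
  exact h2

theorem runE_split3 (hd : Nat.land c 127 = 3) (hc : Nat.shiftRight c 7 = c1)
    (hm : Nat.div (Nat.add a3 b3) 2 = m)
    (h1 : runE test o0 o1 o2 o3 n a0 b0 a1 b1 a2 b2 a3 m c1 c2 = true)
    (h2 : runE test o0 o1 o2 o3 n a0 b0 a1 b1 a2 b2 m b3 c2 c3 = true) :
    runE test o0 o1 o2 o3 (n + 1) a0 b0 a1 b1 a2 b2 a3 b3 c c3 = true := by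
  rw [runE_iff] at h1 h2 ⊢
  rw [runQ_succ, fN_eq, fN_eq, hd, hc]
  change fN (Nat.div (Nat.add a3 b3) 2) (fun m =>
            sq2 (runQ test o0 o1 o2 o3 n a0 b0 a1 b1 a2 b2 a3 m c1) fun c'' =>
              runQ test o0 o1 o2 o3 n a0 b0 a1 b1 a2 b2 m b3 c'') = some c3
  rw [fN_eq, hm, h1]
  exact h2

/-- the full check from the pieces -/
theorem okB_of {N p0 p1 p2 p3 l0 h0 l1 h1 l2 h2 l3 h3 : ℕ}
    (e0 : Nat.div (Nat.add (Nat.mul p0 68719476736) (Nat.sub N 1)) N = o0)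
    (e1 : Nat.div (Nat.add (Nat.mul p1 68719476736) (Nat.sub N 1)) N = o1)
    (e2 : Nat.div (Nat.add (Nat.mul p2 68719476736) (Nat.sub N 1)) N = o2)
    (e3 : Nat.div (Nat.add (Nat.mul p3 68719476736) (Nat.sub N 1)) N = o3)
    (ha0 : Nat.div (Nat.mul l0 68719476736) N = a0)
    (hb0 : Nat.add (Nat.div (Nat.mul h0 68719476736) N) 2 = b0)
    (ha1 : Nat.div (Nat.mul l1 68719476736) N = a1)
    (hb1 : Nat.add (Nat.div (Nat.mul h1 68719476736) N) 2 = b1)
    (ha2 : Nat.div (Nat.mul l2 68719476736) N = a2)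
    (hb2 : Nat.add (Nat.div (Nat.mul h2 68719476736) N) 2 = b2)
    (ha3 : Nat.div (Nat.mul l3 68719476736) N = a3)
    (hb3 : Nat.add (Nat.div (Nat.mul h3 68719476736) N) 2 = b3)
    (h : runE test o0 o1 o2 o3 n a0 b0 a1 b1 a2 b2 a3 b3 c 0 = true) :
    okB N test p0 p1 p2 p3 n l0 h0 l1 h1 l2 h2 l3 h3 c = true := by
  rw [runE_iff] at h
  unfold okB
  simp only [fN_eq]
  rw [e0, e1, e2, e3, ha0, hb0, ha1, hb1, ha2, hb2, ha3, hb3]
  unfold okT
  rw [h]
  rfl

end Pool.Agent.Work.NumIs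

end
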