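import Pool.Agent.Work.MP_b30479_gt.TBS.G2.MLM

section

/-!
# The left ramps: certificates of a digit `1`, first round
-/

set_option deprecated.oldSectionVars true

namespace Pool.Agent.Work.MP_b30479_gtS.G2.ML

open NumIs NumIs.E

theorem o0_1_0_0 : runT (rowN 1 (cE 0 3300 20000) 40 (-80))
    (.y (.z (.z (.z (.z (.z .b .a) .a) .a) .c) (.z .c .d)) (.z (.z (.z (.z (.z .b .a) .a) .a) .a) (.z
    .c .d)))
    (bx 0 20 (-5334) 3734 0 800) = true := by decide +kernel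

theorem o0_1_0_1 : runT (rowN 1 (cE 0 3300 20000) 40 0)
    (.z (.z (.z (.z (.z .b .a) .a) .a) .a) .c)
    (bx 0 20 (-4067) 4334 0 600) = true := by decide +kernel

theorem o0_1_0_2 : runT (rowN 1 (cE 0 3300 20000) 40 (-66))
    (.y (.z (.z (.z (.z (.z .b .a) .a) .a) .a) (.x .c .c)) (.z (.z (.z (.z (.z .b .a) .a) .a) .a) (.x
    .c .c)))
    (bx 0 20 (-2200) 5334 0 700) = true := by decide +kernel

theorem o0_1_1_0 : runT (row 1 (cE 0 3300 20000) 40 (-80) (-85) 150 1 1)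
    (.y (.z (.y (.z (.y (.z (.x (.z (.x .c .c) .b) .c) (.x .a .a)) (.z (.x (.z (.x .c .c) .c) .c) (.x
    .a .a))) (.x .a .a)) (.z (.y (.z (.z (.x (.x .c .c) .c) (.x .c .c)) (.x .b .a)) (.z (.x (.z (.x .c
    .c) .c) (.z .c .c)) (.x .c .a))) (.x .a .a))) (.z (.x (.x .a .a) .a) (.x (.x .d .d) (.z .d (.y (.x
    .d .d) .d))))) (.z (.y (.z (.y (.z (.x (.z (.x .c .c) .c) (.z (.z .e .c) .c)) (.x .c .c)) (.z (.x
    (.z (.x .c .c) .c) (.z (.z .e .c) .c)) (.x .c .c))) (.x .a .a)) (.z (.y (.z (.x (.z (.x .c (.x .c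
    .c)) .c) (.z (.z .e (.x .c .c)) .c)) (.x .c .c)) (.z (.x (.z (.x (.x .c .c) (.x .c (.z .c .c)))
    .c) (.z (.z .e (.x .c (.z .e .c))) .c)) (.x .c .c))) (.x (.z .a .a) .a))) (.x (.z .a (.x .d .d))
    (.z .a (.y .d .d)))))
    (bx 20 70 (-5334) 3734 20 800) = true := by decide +kernel

theorem o0_1_1_1 : runT (row 1 (cE 0 3300 20000) 40 0 (-61) 150 1 1)
    (.y (.z (.y (.z (.z (.x (.z (.x .c .a) .a) .c) (.x .a .a)) (.x .a .a)) (.z (.z (.z (.x (.x .c .c)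
    (.z .e .a)) (.x .a .a)) (.x .a .a)) (.x .a .a))) (.x (.x .a .a) (.z .a .a))) (.z (.y (.z (.z (.x
    (.z (.x .c (.z .c .a)) .c) (.z (.z .e (.x .a .a)) .a)) (.x .c .a)) (.x .a .a)) (.z (.z (.x (.z (.x
    (.x .c .c) (.z (.z .e .c) .c)) (.x .c .c)) (.z (.z .e (.x (.y .a .a) .e)) (.x .a (.z .a .a)))) (.x
    .c .a)) (.x .c .a))) (.x (.x .a .a) (.x .a .a))))
    (bx 20 70 (-4067) 4334 20 600) = true := by decide +kernel

theorem o0_1_1_2 : runT (row 1 (cE 0 3300 20000) 40 (-66) (-56) 150 1 1)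
    (.y (.z (.y (.z (.z (.x (.z (.x .c .c) .c) (.x .c .c)) (.x .c .b)) (.x .a .a)) (.z (.z (.x (.z (.x
    .c .c) .c) (.z (.z .e .c) .c)) (.x .c .c)) (.x .a .a))) (.x (.z .a .a) (.z .a .a))) (.z (.y (.z
    (.x (.z (.x (.x .c .c) (.z (.z (.x .c .c) .c) .c)) .c) (.z (.z (.z .e (.x .c (.x .c .e))) (.x .c
    .c)) .c)) (.x .c .a)) (.z (.x (.z (.x (.z (.x .c .c) .c) (.z (.z (.z .e .c) .c) .c)) (.x .c .c))
    (.z (.z (.z .e (.x (.x .c (.z .c .c)) (.x (.z .e .c) .e))) (.x .c (.z (.x .c (.y .c .c)) .c)))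
    .c)) (.x .c (.z .a .a)))) (.x (.z .a .a) (.z .a .a))))
    (bx 20 70 (-2200) 5334 20 700) = true := by decide +kernel

theorem o0_2_0_0 : runT (rowN 1 (cE 0 2700 0) (-200) (-80))
    (.z (.z (.z (.z (.z .b .a) .a) .a) .a) (.z .c .d))
    (bx 0 20 (-1125) 5000 0 860) = true := by decide +kernel

theorem o0_2_0_1 : runT (rowN 1 (cE 0 2700 0) (-200) 0)
    (.z (.z (.z (.z (.z .b .a) .a) .a) .a) .c)
    (bx 0 20 2000 5688 0 600) = true := by decide +kernel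

theorem o0_2_0_2 : runT (rowN 1 (cE 0 2700 0) (-200) (-49))
    (.z (.z (.z (.z (.z .b .a) .a) .a) .a) (.z .c .c))
    (bx 0 20 3000 6157 0 700) = true := by decide +kernel

theorem o0_2_1_0 : runT (row 1 (cE 0 2700 0) (-200) (-80) (-49) 160 1 1)
    (.z (.y (.z (.z (.z (.x .c .c) .c) .c) .a) (.z (.z (.z (.x (.x .c .c) .c) .c) .c) (.z .c .a))) (.y
    (.z .a (.x .d .d)) (.z .a .d)))
    (bx 20 45 (-1125) 5000 20 860) = true := by decide +kernel

theorem o0_2_1_1 : runT (row 1 (cE 0 2700 0) (-200) 0 32 160 1 1)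
    (.z (.z (.z (.z (.x (.z .c .c) .c) (.x .c .c)) (.x .c .c)) .c) (.x .a .a))
    (bx 20 45 2000 5688 20 600) = true := by decide +kernel

theorem o0_2_1_2 : runT (row 1 (cE 0 2700 0) (-200) (-49) 21 160 1 1)
    (.z (.z (.z (.z (.x (.x .c .c) .c) (.x .c .c)) .c) .c) (.z .a .a))
    (bx 20 45 3000 6157 20 700) = true := by decide +kernel

theorem o0_2_2_0 : runT (row 1 (cE 0 4320 36000) (-200) (-80) (-49) 160 1 1)
    (.z (.z (.z (.y .c (.x .c (.z (.z (.y .c .c) .c) .c))) (.x .c .c)) .a) (.z .a (.y (.z .b (.x .d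
    (.z .d (.y (.x .d .d) .d)))) (.x .d (.z .a .d)))))
    (bx 45 70 (-1125) 5000 45 860) = true := by decide +kernel

theorem o0_2_2_1 : runT (row 1 (cE 0 4320 36000) (-200) 0 32 160 1 1)
    (.z (.z (.z (.x .c (.z (.y .a (.z (.x .a .e) .a)) .a)) .a) .a) (.x .a .a))
    (bx 45 70 2000 5688 45 600) = true := by decide +kernel

theorem o0_2_2_2 : runT (row 1 (cE 0 4320 36000) (-200) (-49) 21 160 1 1)
    (.z (.z (.z (.x .c (.z (.y .c (.x .c (.z (.x .c .e) .c))) .c)) .c) (.x .a .a)) (.z .a .a))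
    (bx 45 70 3000 6157 45 700) = true := by decide +kernel

theorem o0_2e_0_0 : runT (rowN 1 (cE 0 1300 0) (-300) (-33))
    (.z (.z (.z (.z .a .a) .a) .a) (.z .c .d))
    (bx 0 20 (-4715) 72 0 860) = true := by decide +kernel

theorem o0_2e_1_0 : runT (row 1 (cE 0 1300 0) (-300) (-33) (-66) 140 1 1)
    (.z (.y (.z (.x (.z (.x .c .c) .a) .c) (.x .a .a)) (.z (.y (.x (.z (.z .c .c) .a) .c) (.z (.x (.x
    .c .c) .c) (.x .a .a))) (.x .a .a))) (.y (.z (.x .a .a) (.x (.x .d .d) (.z .d (.z .d (.x .d (.y .d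
    .d)))))) (.z (.x .a .a) (.x .d (.z .d (.x .d .d))))))
    (bx 20 70 (-4715) 72 20 860) = true := by decide +kernel

theorem o0_3a_0_0 : runT (rowN 1 (cE 2 0 4500) 240 (-80))
    (.z (.z (.z (.z (.z .b .a) .a) .a) .a) (.z .c .d))
    (bx 0 20 1615 7231 0 860) = true := by decide +kernel

theorem o0_3a_0_1 : runT (rowN 1 (cE 2 0 4500) 240 (-45))
    (.z (.z (.z (.z (.z .b .a) .a) .a) .a) (.z .c .c))
    (bx 0 20 6692 8808 0 700) = true := by decide +kernel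

theorem o0_3a_1_0 : runT (row 1 (cE 2 0 4500) 240 (-80) (-22) 130 1 1)
    (.z (.y (.z (.y (.z (.x (.z (.x (.x .c .c) (.z (.x .c .c) .c)) .c) (.z (.x (.z (.z .e .c) .c) (.z
    .e .c)) .c)) (.x .c .c)) (.z (.x (.x (.z (.x .c .c) .c) (.z (.z (.x .c .c) .c) .c)) (.z (.x (.z
    (.z .e .c) .c) (.z .e .c)) .c)) (.x .c .c))) (.x (.z .a .a) .a)) (.z (.y (.z (.x (.x (.z (.x .c
    .c) .c) (.z (.z (.x .c (.z .c .c)) .c) .c)) (.z (.x (.z (.z .e .c) .c) (.z .e .c)) .c)) (.x .c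
    .c)) (.z (.x (.x (.z (.x .c .c) .c) (.z (.z (.x .c (.x .c .c)) .c) .c)) (.z (.x (.z (.z .e .c) .c)
    (.z .e .c)) .c)) (.x .c .c))) (.x (.z .c .a) (.z .a .a)))) (.y (.z (.x .a .a) (.x (.x .d .d) (.z
    .a (.y (.x .d (.z .b (.x .d .d))) .d)))) (.z (.x .a .a) (.x (.x .d .d) (.x .d .d)))))
    (bx 20 70 1615 7231 20 860) = true := by decide +kernel

theorem o0_3a_1_1 : runT (row 1 (cE 2 0 4500) 240 (-45) 51 130 1 1)
    (.z (.z (.z (.x (.z (.x (.x .c .c) (.z (.z .e .c) .c)) (.x .c .c)) (.z (.z .e (.x .c (.z .e .c)))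
    (.x .c .c))) (.x (.x .c .c) .c)) (.x .c .c)) (.x (.z .a .a) (.z .a .a)))
    (bx 20 70 6692 8808 20 700) = true := by decide +kernel

theorem o0_3b_0_0 : runT (rowN 1 (cE 2 0 4500) 300 (-80))
    (.z (.z (.z (.z (.z .b .a) .a) .a) .a) (.z .c .d))
    (bx 0 20 1400 6267 0 860) = true := by decide +kernel

theorem o0_3b_0_1 : runT (rowN 1 (cE 2 0 4500) 300 (-45))
    (.z (.z (.z (.z (.z .b .a) .a) .a) .a) (.z .c .c))
    (bx 0 20 5800 7634 0 700) = true := by decide +kernel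

theorem o0_3b_1_0 : runT (row 1 (cE 2 0 4500) 300 (-80) (-22) 150 1 1)
    (.z (.y (.z (.y (.z (.x (.x (.z (.x .c .c) .c) (.z (.z (.x .c (.z .e .c)) .c) .c)) (.z (.x (.z (.z
    .e .c) .c) (.z .e .c)) .c)) (.x .c .c)) (.z (.x (.x (.z (.x .c (.z .c .c)) .c) (.z (.z (.x .c (.z
    .e .c)) .c) .c)) (.z (.x (.z (.z .e .c) .c) (.z .e .c)) .c)) (.x .c .c))) (.x (.z .a .a) .a)) (.z
    (.y (.z (.x (.x (.z (.x .c (.z .c .c)) .c) (.z (.z (.z (.x .c .e) .c) .c) .c)) (.z (.x (.z (.z .e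
    .c) .c) (.z .e .c)) .c)) (.x .c .c)) (.z (.x (.x (.z (.x .c (.z .c .c)) .c) (.z (.z (.z (.x .c .e)
    .c) .c) .c)) (.z (.x (.z (.x (.z .e .c) .e) .c) (.z .e .c)) .c)) (.x .c .c))) (.x (.z .c .a) (.z
    .a .a)))) (.y (.z (.x .a .a) (.x (.x .d .d) (.z .a (.x .d (.z .a (.y .d .d)))))) (.z (.x .a .a)
    (.x (.x .d .d) (.z .a .d)))))
    (bx 20 70 1400 6267 20 850) = true := by decide +kernel

theorem o0_3b_1_1 : runT (row 1 (cE 2 0 4500) 300 (-45) 51 150 1 1)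
    (.z (.z (.z (.x (.z (.x (.x .c (.z .c .c)) (.z (.z .e .c) .c)) (.x .c .c)) (.z (.z .e (.x .c (.z
    .e .c))) (.x .c .c))) (.x (.x .c .c) .c)) (.x .c .c)) (.x (.z .a .a) (.z .a .a)))
    (bx 20 70 5800 7634 20 700) = true := by decide +kernel

theorem o0_3e_0_0 : runT (rowN 1 (cE 2 0 4500) 100 (-61))
    (.z (.z (.z (.z (.z .b .a) .a) .a) .a) (.z .c .d))
    (bx 0 20 714 4215 0 860) = true := by decide +kernel

theorem o0_3e_0_1 : runT (rowN 1 (cE 2 0 4500) 100 (-24))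
    (.z (.z (.z (.z (.z .b .a) .a) .a) .a) (.z .c .c))
    (bx 0 20 4928 5572 0 700) = true := by decide +kernel

theorem o0_3e_1_0 : runT (row 1 (cE 2 0 4500) 100 (-61) (-11) 140 1 1)
    (.z (.z (.y (.z (.x (.z (.x (.z .c .c) .c) .c) (.z (.z (.x .c .e) .c) .c)) (.x .c .c)) (.z (.x (.z
    (.x (.x .c .c) (.z .c .c)) .c) (.z (.z (.x (.z .c .c) .e) .c) .c)) (.x .c .c))) (.x (.z .a .a)
    .a)) (.z (.x .a .a) (.x (.y .d .d) (.z .a (.y (.z .b (.x .d (.z .b (.y (.x .b (.z .b .b)) .b))))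
    .d)))))
    (bx 20 70 714 4215 20 860) = true := by decide +kernel

theorem o0_3e_1_1 : runT (row 1 (cE 2 0 4500) 100 (-24) 51 140 1 1)
    (.z (.z (.z (.z (.x (.x .c .c) (.z .e .c)) (.x .c .c)) (.x .c .c)) (.x .c .a)) (.x (.z .a .a) (.z
    .a .a)))
    (bx 20 70 4928 5572 20 700) = true := by decide +kernel

theorem o0_Z_0_0 : runT (rowN 1 (cE 2 0 6000) 100 (-80))
    (.z (.z (.z (.z (.z .b .a) .a) .a) .a) (.z .c .d))
    (bx 0 20 2375 9063 0 860) = true := by decide +kernel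

theorem o0_Z_0_1 : runT (rowN 1 (cE 2 0 6000) 100 (-61))
    (.z (.z (.z (.z (.z .b .a) .a) .a) .a) (.z .c .c))
    (bx 0 20 6250 9875 0 700) = true := by decide +kernel

theorem o0_Z_1_0 : runT (row 1 (cE 2 0 6000) 100 (-80) (-10) 160 1 1)
    (.z (.y (.z (.y (.z (.x (.z (.x (.x .c .c) (.z .c .c)) .c) (.z (.z (.x (.x .c .c) .e) .c) .c)) (.x
    .c .c)) (.z (.x (.x (.z (.x .c .c) .c) (.z (.x .c .c) .c)) (.z (.z (.x (.x .c .e) .e) .c) .c)) (.x
    .c .c))) (.x (.z .c .a) (.z .a .a))) (.z (.y (.z (.x (.x (.z (.x .c .c) .c) (.z (.x .c .c) .c))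
    (.z (.x (.z (.z .e .c) .c) (.z .e .c)) .c)) (.x .c .c)) (.z (.x (.x (.z (.x .c .c) .c) (.z (.x .c
    (.z .c .c)) .c)) (.z (.x (.z (.z .e .c) .c) (.z .e .c)) .c)) (.x .c .c))) (.x (.z (.x .c .c) .a)
    (.z .c .a)))) (.y (.z (.x .a .a) (.x (.x .d .d) (.y (.z .a .d) .d))) (.z (.x .a .a) (.x (.y .d .d)
    (.y .d .d)))))
    (bx 20 70 2375 9063 20 860) = true := by decide +kernel

theorem o0_Z_1_1 : runT (row 1 (cE 2 0 6000) 100 (-61) 64 160 1 1)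
    (.z (.y (.z (.z (.x (.x (.z (.x .c .c) .c) (.z (.x .c .c) .c)) (.z (.z .e (.x .c .c)) .c)) (.x .c
    .c)) (.x .c .c)) (.z (.x (.z (.x (.z (.x .c .c) .c) (.z (.z (.x .c .c) .c) .c)) (.x .c .c)) (.z
    (.z (.z .e (.x .c .c)) .c) .c)) (.x .c .c))) (.x (.z .a .a) (.z .a .a)))
    (bx 20 70 6250 9875 20 700) = true := by decide +kernel

theorem o0_3b_2_0 : runT (row 1 (cE 2 0 4500) 300 (-4) (-22) 150 0 1)
    (.y (.x .a (.y (.x .a .a) .a)) (.x .a .a))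
    (bx 20 70 1400 6267 850 860) = true := by decide +kernel

end Pool.Agent.Work.MP_b30479_gtS.G2.ML

end

section

/-!
# The left ramps: certificates of a digit `1`, further rounds
-/

set_option deprecated.oldSectionVars true

namespace Pool.Agent.Work.MP_b30479_gtS.G2.ML

open NumIs NumIs.E

theorem o1_1_0_0 : runT (row 1 (cE 0 3100 9000) 20 (-80) (-85) 150 22 25)
    (.y (.z (.z (.y (.z (.y .a .b) .a) (.z (.x .c .a) .a)) (.x .a .a)) (.z (.x .a .a) (.z (.x .a .b)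
    (.x (.y .d .d) (.z (.y .d .b) (.y (.x .d (.y .d .d)) (.x .d .d))))))) (.z (.z (.z (.x (.z (.y .c
    .c) .c) (.y (.x .c .a) (.z (.y (.x .c (.z .e .a)) (.x (.z .c .a) (.z .e (.y .a (.x .a .a))))) (.x
    .a .a)))) (.x .a .a)) (.x .a .a)) (.x (.z .a (.y .a .a)) (.z .a (.z .a (.y .d .a))))))
    (bx 70 125 (-5334) 3734 70 700) = true := by decide +kernel

theorem o1_1_0_1 : runT (row 1 (cE 0 3100 9000) 20 0 (-61) 150 24 25)
    (.y (.z (.z (.z (.x .a .a) .a) .a) (.z .a (.x .a .a))) (.z (.z (.z (.x (.x .a .a) (.y .a (.z (.x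
    .a .e) .a))) (.x .a .a)) (.x .a .a)) (.z .a (.x .a .a))))
    (bx 70 125 (-4067) 4334 70 600) = true := by decide +kernel

theorem o1_1_0_2 : runT (row 1 (cE 0 3100 9000) 20 (-66) (-56) 150 1 1)
    (.z (.y (.z (.x .c (.y .a (.z .a .a))) (.x .a .a)) (.z (.x (.z (.x .c (.y .c .c)) .c) (.y (.z (.x
    (.z .c .a) .e) .a) (.z (.x (.z .e (.y .a .a)) .e) (.x .a (.y .a (.z (.x .a (.z .e .a)) .a))))))
    (.x .c (.x .a .a)))) (.y .a (.x .a .a)))
    (bx 70 125 (-2200) 5334 70 370) = true := by decide +kernel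

theorem o1_2_0_0 : runT (row 1 (cE 0 2400 0) (-170) (-80) (-49) 160 11 15)
    (.z (.z (.y .c (.z .c .c)) .a) (.z .a (.y .b .a)))
    (bx 70 100 (-1125) 5000 70 700) = true := by decide +kernel

theorem o1_2_0_1 : runT (row 1 (cE 0 2400 0) (-170) 0 32 160 4 5)
    (.z (.z (.z .a .a) .a) (.y .a .a))
    (bx 70 100 2000 5688 70 600) = true := by decide +kernel

theorem o1_2_0_2 : runT (row 1 (cE 0 2400 0) (-170) (-49) 21 160 5 6)
    (.z (.z .c .a) .a)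
    (bx 70 100 3000 6157 70 370) = true := by decide +kernel

theorem o1_2_1_0 : runT (row 1 (cE 0 3200 8000) (-170) (-80) (-49) 160 11 15)
    (.z (.z (.z (.y (.x .c .a) (.x (.x .c .c) (.z (.y (.x .a .a) (.x (.z (.y .a .a) .a) (.z .e (.y .a
    .a)))) (.y .a .a)))) (.y .a (.x .a .a))) (.x .a .a)) (.y (.z .a (.z .a (.x .b (.z .a (.y (.x .b
    .b) .b))))) (.z .a (.x .b (.z .a (.y .b .a))))))
    (bx 100 150 (-1125) 5000 73 700) = true := by decide +kernel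

theorem o1_2_1_1 : runT (row 1 (cE 0 3200 8000) (-170) 0 32 160 4 5)
    (.z (.z (.z (.x .a (.y .a (.x .a .a))) .a) .a) (.z .a .a))
    (bx 100 150 2000 5688 80 600) = true := by decide +kernel

theorem o1_2_1_2 : runT (row 1 (cE 0 3200 8000) (-170) (-49) 21 160 5 6)
    (.z (.z (.x (.x .c .a) (.z (.z .e (.y .a (.x .a .a))) (.y .a .a))) (.x .a .a)) .b)
    (bx 100 150 3000 6157 83 370) = true := by decide +kernel

theorem o1_2e_0_0 : runT (row 1 (cE 0 1950 0) 50 (-33) (-66) 140 22 25)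
    (.z (.z (.y (.z (.y .a .a) .a) (.z (.x .a .a) .a)) (.x .a .a)) (.z (.x .a .a) (.x (.z .a (.y .d
    .a)) (.z .b (.y (.z .d (.y .d .d)) (.y .d .a))))))
    (bx 70 125 (-4715) 72 70 700) = true := by decide +kernel

theorem o1_3a_0_0 : runT (row 1 (cE 2 0 4500) 300 (-80) (-22) 130 25 26)
    (.z (.z (.z (.x (.z (.y (.x (.z .c .c) (.z (.x .c (.y .b .c)) .c)) (.x (.z .c .c) (.z (.z .e (.x
    .c .c)) .c))) (.y (.x .c .c) (.x .c .c))) (.z (.x (.z .e (.y (.y .a (.x .a .a)) (.y (.x .c (.z .e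
    .a)) (.x .c (.z .e .a))))) .e) (.y (.x .a (.z (.y .b (.x .a (.z (.x .a .e) .a))) .a)) (.x (.x .c
    .a) (.z (.y (.x .a (.z (.x .a .e) .a)) (.x .a (.z (.x .a .e) .a))) (.y .a .a)))))) (.x (.y (.x .a
    .a) .c) (.y .b (.x .a .a)))) (.y (.x .a .b) (.x .a .b))) (.y (.x (.z .a .b) (.z .a (.z .a (.y (.x
    .a .b) .a)))) (.x (.z .a .a) (.z .a (.x .a .b)))))
    (bx 70 130 1615 7231 70 700) = true := by decide +kernel

theorem o1_3a_0_1 : runT (row 1 (cE 2 0 4500) 300 (-45) 51 130 25 26)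
    (.z (.z (.x (.z (.x .c (.z (.x .c .e) .c)) .c) (.z (.z .e (.x (.x .a (.z .e .a)) .e)) (.x .a (.z
    (.x .a (.z .e .a)) .a)))) (.x .c .b)) (.x .a .a))
    (bx 70 130 6692 8808 70 370) = true := by decide +kernel

theorem o1_3b_0_0 : runT (row 1 (cE 2 0 4500) 445 (-80) (-22) 150 25 22)
    (.z (.z (.z (.x (.z (.y (.x (.z .c .c) (.z (.y .b (.z .e .c)) .c)) (.x .c (.z (.z .e .c) .c))) (.y
    (.x .c .a) .c)) (.z (.z .e (.y (.x (.y .a .a) (.x (.z .e .b) .e)) (.x (.y .c .c) (.x (.z .e .a)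
    .e)))) (.y (.x .a (.x .a .b)) (.x .c (.y .a .a))))) (.y (.x .a .a) (.x .c .a))) (.x .b (.y .a
    .a))) (.y (.z .a (.x .a (.z .a .b))) (.z .a (.x .a .a))))
    (bx 70 110 1400 6267 79 700) = true := by decide +kernel

theorem o1_3b_0_1 : runT (row 1 (cE 2 0 4500) 445 (-45) 51 150 25 22)
    (.z (.z (.z (.x (.z (.x .c (.z .e .c)) .c) (.z .e (.x .a (.z .e (.y .a .a))))) (.x .c (.x .a .a)))
    (.x .a .a)) .a)
    (bx 70 110 5800 7634 79 370) = true := by decide +kernel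

theorem o1_3e_0_0 : runT (row 1 (cE 2 0 4500) 380 (-61) (-11) 140 25 24)
    (.z (.z (.z (.x (.z (.x (.y .c .c) (.z (.x (.y .b .c) .e) (.y .a .c))) (.y .a .c)) (.z (.z .e (.x
    (.y .a (.z (.x .a .a) .a)) .e)) (.x .b (.y .a (.z (.x .a .a) .a))))) (.x .a .b)) (.x .a .b)) (.y
    (.z .a (.x .a (.z .a (.y (.x .a .b) .b)))) (.z .a (.x .a (.x .a .b)))))
    (bx 70 120 714 4215 72 700) = true := by decide +kernel

theorem o1_3e_0_1 : runT (row 1 (cE 2 0 4500) 380 (-24) 51 140 25 24)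
    (.z (.z (.z (.x (.z (.x .a .a) .a) (.z .e (.x .a .e))) (.x .a .a)) (.x .a .a)) .a)
    (bx 70 120 4928 5572 72 370) = true := by decide +kernel

theorem o1_Z_0_0 : runT (row 1 (cE 2 0 6000) 120 (-80) (-10) 160 25 24)
    (.y (.z (.z (.z (.x (.y .c .c) (.z (.x (.z .e .c) .e) (.x .c .a))) (.x .c .a)) (.x .a .a)) (.z .b
    (.x .a (.y .a .a)))) (.z (.z (.z (.x (.z (.x .c (.x .c .c)) .c) (.z (.x (.z .e .c) .e) (.x .c (.x
    .c .a)))) (.x .c (.z .a .a))) (.x .a .a)) (.x (.z .a .a) (.z .a .a))))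
    (bx 70 120 2375 9063 72 700) = true := by decide +kernel

theorem o1_Z_0_1 : runT (row 1 (cE 2 0 6000) 120 (-61) 64 160 25 24)
    (.z (.z (.x (.z (.x .c (.y .c .c)) .c) (.z (.x (.z .e (.y .c .c)) .e) (.x .c (.x .a .a)))) (.x .c
    .a)) (.x .a .a))
    (bx 70 120 6250 9875 72 370) = true := by decide +kernel

theorem o2_1_0_0 : runT (row 1 (cE 0 2300 0) (-60) (-80) (-85) 150 13 15)
    (.y (.z (.z .a .a) (.z .a (.z .b (.y (.z .d (.x .d (.y .d .d))) (.x .b .d))))) (.z (.z (.z (.y .a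
    .a) .a) .a) (.z .a (.y (.z .a .a) .a))))
    (bx 125 150 (-5334) 3734 110 650) = true := by decide +kernel

theorem o2_1_0_1 : runT (row 1 (cE 0 2300 0) (-60) 0 (-61) 150 14 15)
    (.z (.y .a .a) .a)
    (bx 125 150 (-4067) 4334 120 370) = true := by decide +kernel

theorem o2_1_0_2 : runT (row 1 (cE 0 2300 0) (-60) (-66) (-56) 150 14 15)
    (.z (.y .a (.z .a .a)) .b)
    (bx 125 150 (-2200) 5334 125 370) = true := by decide +kernel

theorem o2_2_0_0 : runT (row 1 (cE 0 2100 0) (-50) (-80) (-49) 160 13 16)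
    (.y (.z (.z .a .a) (.z .a (.z .a (.y .b .a)))) (.z (.z (.z (.y .a (.z .a .a)) .a) .a) (.z .a (.y
    .a .a))))
    (bx 150 160 (-1125) 5000 121 650) = true := by decide +kernel

theorem o2_2_0_1 : runT (row 1 (cE 0 2100 0) (-50) 0 32 160 7 8)
    (.z .a .a)
    (bx 150 160 2000 5688 131 370) = true := by decide +kernel

theorem o2_2_0_2 : runT (row 1 (cE 0 2100 0) (-50) (-49) 21 160 7 8)
    (.z (.z .a .a) .a)
    (bx 150 160 3000 6157 131 370) = true := by decide +kernel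

theorem o2_2e_0_0 : runT (row 1 (cE 0 2100 0) 100 (-33) (-66) 140 13 14)
    (.z (.z .a .a) (.z .a (.z .a (.y (.y .d .b) .b))))
    (bx 125 140 (-4715) 72 116 650) = true := by decide +kernel

theorem o2_3b_0_0 : runT (row 1 (cE 2 0 4500) 290 (-80) (-22) 150 1 1)
    (.z (.z (.z (.x (.y (.z .b .a) (.z (.x .a .a) .a)) (.y (.z (.y (.x .a (.z (.x .b .e) .a)) (.x (.x
    .a .a) (.z (.x (.z .e .a) .e) (.y .a .b)))) .b) (.z (.x (.z (.x .a (.z .e .a)) .a) (.z (.x (.x (.x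
    (.z .e .a) .e) .e) .e) (.y (.x .a (.z (.x .a (.z .e .a)) .a)) (.x .a (.z (.x .a (.z .e .a))
    .a))))) (.y .a .a)))) (.y .b (.x .a .a))) (.y .b (.x .a .a))) (.y (.z .a (.x .a (.y (.z .a .b)
    .b))) (.z .a (.y .a .a))))
    (bx 110 150 1400 6267 125 640) = true := by decide +kernel

theorem o2_3b_0_1 : runT (row 1 (cE 2 0 4500) 290 (-45) 51 150 14 15)
    (.z (.z (.x .a (.z (.x .a (.z (.y (.z (.x .a .e) .a) (.z (.x .a .e) .a)) .a)) .a)) .a) .a)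
    (bx 110 150 5800 7634 125 370) = true := by decide +kernel

theorem o2_3e_0_0 : runT (row 1 (cE 2 0 4500) 380 (-61) (-11) 140 15 14)
    (.z (.z (.z (.z (.y (.x .a (.y .b .b)) (.x (.z .a .a) (.z (.x (.z .e .a) .e) .a))) (.y .a .a)) .b)
    .a) (.z .a (.y (.z .a .b) .a)))
    (bx 120 140 714 4215 128 640) = true := by decide +kernel

theorem o2_3e_0_1 : runT (row 1 (cE 2 0 4500) 380 (-24) 51 140 1 1)
    (.z (.z (.z (.x .a .a) .a) .a) .a)
    (bx 120 140 4928 5572 125 370) = true := by decide +kernel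

theorem o2_Z_0_0 : runT (row 1 (cE 2 0 6000) 100 (-80) (-10) 160 30 29)
    (.y (.z (.z (.z (.z (.y .a (.x .a (.x .a .a))) .a) .a) .a) (.z .a .b)) (.z (.z (.z (.z (.x (.y .a
    .a) (.y (.z (.x .a .e) .a) (.z (.x (.z .e .a) .e) (.x .a .a)))) (.x .a .a)) .a) .a) (.z .a .a)))
    (bx 120 145 2375 9063 125 640) = true := by decide +kernel

theorem o2_Z_0_1 : runT (row 1 (cE 2 0 6000) 100 (-61) 64 160 28 29)
    (.z (.z (.z (.x (.y .a .a) (.y (.z (.y .a (.x .a (.z .e .a))) .a) (.z (.x (.y .a (.z .a .a)) (.z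
    .e (.y .a (.x .a (.z .e .a))))) .a))) (.x .a .a)) .a) .a)
    (bx 120 145 6250 9875 125 370) = true := by decide +kernel

theorem o3_Z_0_0 : runT (row 1 (cE 2 0 6000) 140 (-80) (-10) 160 0 1)
    (.y (.z (.z (.z .a .a) .a) (.z .a (.y .b .a))) (.z (.z (.z (.z (.y .a .a) .a) .a) .a) (.z .a .a)))
    (bx 145 160 2375 8500 180 640) = true := by decide +kernel

theorem o3_Z_0_1 : runT (row 1 (cE 2 0 6000) 140 (-8) 63 160 0 1)
    (.z (.z (.y .a .a) .a) (.y .a .a))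
    (bx 145 160 3937 9063 160 560) = true := by decide +kernel

theorem o3_Z_0_2 : runT (row 1 (cE 2 0 6000) 140 (-61) 64 160 0 1)
    (.z (.z .a .a) .a)
    (bx 145 160 6250 9875 200 370) = true := by decide +kernel

theorem o4_1_0_0 : runT (row 1 (cE 0 3300 20000) 8 (-80) (-85) 150 0 1)
    (.y (.z (.z (.y .c .c) .a) (.z .b (.z .d (.z .d (.y (.y (.z .d (.y (.x .d .d) .d)) .d) .d))))) (.z
    (.z (.z (.y .c (.z (.y .c (.z (.x .c .c) .c)) .c)) .a) .a) (.z .a (.y .d .d))))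
    (bx 70 85 (-5334) 3734 70 800) = true := by decide +kernel

theorem o4_1_0_1 : runT (row 1 (cE 0 3300 20000) 8 0 (-61) 150 0 1)
    (.y (.z (.z .a .a) .a) (.z (.z (.z (.y .a (.z (.y .a (.z (.x .a (.y .a .a)) .a)) .a)) .a) .a) .a))
    (bx 70 85 (-4067) 4334 70 600) = true := by decide +kernel

theorem o5_1_0_0 : runT (row 1 (cE 0 2300 0) 80 (-80) (-85) 150 13 15)
    (.z (.z (.z (.y .a (.z (.y .a .a) .a)) .a) .a) (.z .a (.z .a (.y (.x .a (.y (.z .a (.y .a .a))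
    .a)) .a))))
    (bx 125 150 0 3734 110 650) = true := by decide +kernel

theorem o5_1_0_1 : runT (row 1 (cE 0 2300 0) 80 0 (-61) 150 14 15)
    (.z (.z .a .a) .a)
    (bx 125 150 0 4334 120 370) = true := by decide +kernel

theorem o5_1_0_2 : runT (row 1 (cE 0 2300 0) 80 (-66) (-56) 150 14 15)
    (.z (.z (.y .a (.x .a .a)) .a) .a)
    (bx 125 150 0 5334 125 370) = true := by decide +kernel

end Pool.Agent.Work.MP_b30479_gtS.G2.ML

end
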