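import Pool.Agent.Work.MP_b30479_gt.TBS.G2.MPFocD

section

/-!
# Sharp windows at a digit `3` with a digit `1` at the last slot

`T`: the height of the hinge between the digits `3` and `1`, in the frame of the digit `1`; `Tl`: the
height of the inner variable of the digit `3`, in its frame. The digit behind the digit `1` has the
class `.one` or `.two`.
-/

namespace Pool.Agent.Work.MP_b30479_gtS.G2

namespace SR

variable {M : ℕ}

/-- **Sharp windows at a digit `3` with a digit `1` at the last slot.** -/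
structure LocM6 (b : Fin (M + 1) → ℤ) (zs : DD (tyW b) ⊕ ZZ (tyW b) → ℂ) : Prop where
  one : ∀ {h h' h2 : Fin M} {i j k r : Fin (M + 1)}, Adj h i 0 j → Adj h' i 2 k →
    Adj h2 k 2 r → clsW b i = .three → clsW b k = .one → clsW b r = .one →
    ofs (b k) (zs (.inl (.inl h'))).im ≤ 801 / 10000
  two : ∀ {h h' h2 : Fin M} {i j k r : Fin (M + 1)}, Adj h i 0 j → Adj h' i 2 k →
    Adj h2 k 2 r → clsW b i = .three → clsW b k = .one → clsW b r = .two →
    ofs (b k) (zs (.inl (.inl h'))).im ≤ 894 / 10000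
  line : ∀ {h h' h2 : Fin M} {i j k r : Fin (M + 1)} (hm : (tyW b i).isMid = true),
    Adj h i 0 j → Adj h' i 2 k → Adj h2 k 2 r → clsW b i = .three → clsW b k = .one →
    clsW b r = .one ∨ clsW b r = .two →
    ofs (b k) (zs (.inl (.inl h'))).im + ofs (b i) (zs (.inl (.inr ⟨i, hm⟩))).im ≤ 512 / 10000

end SR

end Pool.Agent.Work.MP_b30479_gtS.G2

end

section

/-!
# Further location facts: the heights at two adjacent digits `±1`
-/

namespace Pool.Agent.Work.MP_b30479_gtS.G2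

namespace SR

/-- windows for the heights at a pair of adjacent digits `1`: `T` of the hinge between them and `k`
of the outer hinge of the own digit, both in the frame of the own digit, and `q` of the outer hinge
of the other digit, in the frame of the other digit -/
structure Win6 where
  t0 : ℝ
  t1 : ℝ
  k0 : ℝ
  k1 : ℝ
  q0 : ℝ
  q1 : ℝ
  a0 : ℝ
  a1 : ℝ
  b0 : ℝ
  b1 : ℝ
  c0 : ℝ
  c1 : ℝ

/-- the heights are in the windows -/
structure Win6.In (W : Win6) (T k q : ℝ) : Prop where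
  t0 : W.t0 ≤ T
  t1 : T ≤ W.t1
  k0 : W.k0 ≤ k
  k1 : k ≤ W.k1
  q0 : W.q0 ≤ q
  q1 : q ≤ W.q1
  a0 : W.a0 ≤ T + k
  a1 : T + k ≤ W.a1
  b0 : W.b0 ≤ -T + q
  b1 : -T + q ≤ W.b1
  c0 : W.c0 ≤ k + q
  c1 : k + q ≤ W.c1

/-- the windows of a pair of digits `1` whose outer neighbours have the classes `P` (next to the
own digit) and `Q` -/
noncomputable def pcw (P Q : Cl) : Win6 :=
  match P, Q with
  | .one, .one => ⟨-(53 / 1000), 53 / 1000, -(69 / 1000), 52 / 1000, -(69 / 1000), 52 / 1000, -(65 / 1000), 76 / 1000, -(65 / 1000), 76 / 1000, -(115 / 1000), 63 / 1000⟩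
  | .one, .two => ⟨-(62 / 1000), 29 / 1000, -(74 / 1000), 40 / 1000, -(3 / 1000), 78 / 1000, -(78 / 1000), 44 / 1000, -(5 / 1000), 110 / 1000, -(62 / 1000), 84 / 1000⟩
  | .one, .twoE => ⟨-(82 / 1000), -(19 / 1000), -(51 / 1000), 53 / 1000, -(61 / 1000), -(17 / 1000), -(92 / 1000), 9 / 1000, -(22 / 1000), 53 / 1000, -(106 / 1000), 12 / 1000⟩
  | .one, .three => ⟨-(50 / 1000), 16 / 1000, -(69 / 1000), 32 / 1000, 39 / 1000, 85 / 1000, -(67 / 1000), 32 / 1000, 42 / 1000, 127 / 1000, -(35 / 1000), 96 / 1000⟩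
  | .one, .threeE => ⟨-(74 / 1000), -(1 / 1000), -(67 / 1000), 37 / 1000, 16 / 1000, 60 / 1000, -(91 / 1000), 11 / 1000, 36 / 1000, 117 / 1000, -(45 / 1000), 73 / 1000⟩
  | .one, .ring => ⟨-(61 / 1000), 43 / 1000, -(89 / 1000), 29 / 1000, 56 / 1000, 131 / 1000, -(82 / 1000), 33 / 1000, 57 / 1000, 144 / 1000, -(22 / 1000), 118 / 1000⟩
  | .two, .one => ⟨-(29 / 1000), 62 / 1000, -(3 / 1000), 78 / 1000, -(74 / 1000), 40 / 1000, -(5 / 1000), 110 / 1000, -(78 / 1000), 44 / 1000, -(62 / 1000), 84 / 1000⟩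
  | .two, .two => ⟨-(35 / 1000), 35 / 1000, -(9 / 1000), 66 / 1000, -(9 / 1000), 66 / 1000, -(19 / 1000), 76 / 1000, -(19 / 1000), 76 / 1000, -(5 / 1000), 105 / 1000⟩
  | .two, .twoE => ⟨-(66 / 1000), -(16 / 1000), 12 / 1000, 78 / 1000, -(66 / 1000), -(27 / 1000), -(36 / 1000), 37 / 1000, -(33 / 1000), 27 / 1000, -(53 / 1000), 32 / 1000⟩
  | .two, .three => ⟨-(30 / 1000), 31 / 1000, -(6 / 1000), 59 / 1000, 25 / 1000, 80 / 1000, -(21 / 1000), 64 / 1000, 12 / 1000, 91 / 1000, 19 / 1000, 115 / 1000⟩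
  | .two, .threeE => ⟨-(48 / 1000), 4 / 1000, -(4 / 1000), 63 / 1000, 10 / 1000, 49 / 1000, -(33 / 1000), 41 / 1000, 22 / 1000, 86 / 1000, 7 / 1000, 93 / 1000⟩
  | .two, .ring => ⟨-(32 / 1000), 53 / 1000, -(23 / 1000), 55 / 1000, 49 / 1000, 118 / 1000, -(22 / 1000), 68 / 1000, 41 / 1000, 102 / 1000, 31 / 1000, 140 / 1000⟩
  | .twoE, .one => ⟨19 / 1000, 82 / 1000, -(61 / 1000), -(17 / 1000), -(51 / 1000), 53 / 1000, -(22 / 1000), 53 / 1000, -(92 / 1000), 9 / 1000, -(106 / 1000), 12 / 1000⟩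
  | .twoE, .two => ⟨16 / 1000, 66 / 1000, -(66 / 1000), -(27 / 1000), 12 / 1000, 78 / 1000, -(33 / 1000), 27 / 1000, -(36 / 1000), 37 / 1000, -(53 / 1000), 32 / 1000⟩
  | .twoE, .twoE => ⟨-(16 / 1000), 16 / 1000, -(46 / 1000), -(14 / 1000), -(46 / 1000), -(14 / 1000), -(38 / 1000), -(8 / 1000), -(38 / 1000), -(8 / 1000), -(99 / 1000), -(41 / 1000)⟩
  | .twoE, .three => ⟨32 / 1000, 55 / 1000, -(60 / 1000), -(33 / 1000), 44 / 1000, 85 / 1000, -(18 / 1000), 19 / 1000, 7 / 1000, 51 / 1000, -(27 / 1000), 44 / 1000⟩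
  | .twoE, .threeE => ⟨6 / 1000, 38 / 1000, -(61 / 1000), -(29 / 1000), 29 / 1000, 61 / 1000, -(38 / 1000), 0 / 1000, 0 / 1000, 44 / 1000, -(38 / 1000), 20 / 1000⟩
  | .twoE, .ring => ⟨23 / 1000, 77 / 1000, -(71 / 1000), -(36 / 1000), 68 / 1000, 128 / 1000, -(31 / 1000), 25 / 1000, 21 / 1000, 69 / 1000, -(14 / 1000), 67 / 1000⟩
  | .three, .one => ⟨-(16 / 1000), 50 / 1000, 39 / 1000, 85 / 1000, -(69 / 1000), 32 / 1000, 42 / 1000, 127 / 1000, -(67 / 1000), 32 / 1000, -(35 / 1000), 96 / 1000⟩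
  | .three, .two => ⟨-(31 / 1000), 30 / 1000, 25 / 1000, 80 / 1000, -(6 / 1000), 59 / 1000, 12 / 1000, 91 / 1000, -(21 / 1000), 64 / 1000, 19 / 1000, 115 / 1000⟩
  | .three, .twoE => ⟨-(55 / 1000), -(32 / 1000), 44 / 1000, 85 / 1000, -(60 / 1000), -(33 / 1000), 7 / 1000, 51 / 1000, -(18 / 1000), 19 / 1000, -(27 / 1000), 44 / 1000⟩
  | .three, .three => ⟨-(24 / 1000), 24 / 1000, 22 / 1000, 74 / 1000, 22 / 1000, 74 / 1000, 11 / 1000, 79 / 1000, 11 / 1000, 79 / 1000, 45 / 1000, 125 / 1000⟩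
  | .three, .threeE => ⟨-(36 / 1000), -(4 / 1000), 29 / 1000, 77 / 1000, 7 / 1000, 43 / 1000, 11 / 1000, 56 / 1000, 23 / 1000, 76 / 1000, 34 / 1000, 104 / 1000⟩
  | .three, .ring => ⟨-(27 / 1000), 40 / 1000, 18 / 1000, 70 / 1000, 39 / 1000, 110 / 1000, 11 / 1000, 85 / 1000, 31 / 1000, 98 / 1000, 58 / 1000, 151 / 1000⟩
  | .threeE, .one => ⟨1 / 1000, 74 / 1000, 16 / 1000, 60 / 1000, -(67 / 1000), 37 / 1000, 36 / 1000, 117 / 1000, -(91 / 1000), 11 / 1000, -(45 / 1000), 73 / 1000⟩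
  | .threeE, .two => ⟨-(4 / 1000), 48 / 1000, 10 / 1000, 49 / 1000, -(4 / 1000), 63 / 1000, 22 / 1000, 86 / 1000, -(33 / 1000), 41 / 1000, 7 / 1000, 93 / 1000⟩
  | .threeE, .twoE => ⟨-(38 / 1000), -(6 / 1000), 29 / 1000, 61 / 1000, -(61 / 1000), -(29 / 1000), 0 / 1000, 44 / 1000, -(38 / 1000), 0 / 1000, -(38 / 1000), 20 / 1000⟩
  | .threeE, .three => ⟨4 / 1000, 36 / 1000, 7 / 1000, 43 / 1000, 29 / 1000, 77 / 1000, 23 / 1000, 76 / 1000, 11 / 1000, 56 / 1000, 34 / 1000, 104 / 1000⟩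
  | .threeE, .threeE => ⟨-(16 / 1000), 16 / 1000, 14 / 1000, 46 / 1000, 14 / 1000, 46 / 1000, 8 / 1000, 52 / 1000, 8 / 1000, 52 / 1000, 23 / 1000, 81 / 1000⟩
  | .threeE, .ring => ⟨2 / 1000, 65 / 1000, -(2 / 1000), 39 / 1000, 45 / 1000, 109 / 1000, 23 / 1000, 81 / 1000, 25 / 1000, 70 / 1000, 46 / 1000, 124 / 1000⟩
  | .ring, .one => ⟨-(43 / 1000), 61 / 1000, 56 / 1000, 131 / 1000, -(89 / 1000), 29 / 1000, 57 / 1000, 144 / 1000, -(82 / 1000), 33 / 1000, -(22 / 1000), 118 / 1000⟩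
  | .ring, .two => ⟨-(53 / 1000), 32 / 1000, 49 / 1000, 118 / 1000, -(23 / 1000), 55 / 1000, 41 / 1000, 102 / 1000, -(22 / 1000), 68 / 1000, 31 / 1000, 140 / 1000⟩
  | .ring, .twoE => ⟨-(77 / 1000), -(23 / 1000), 68 / 1000, 128 / 1000, -(71 / 1000), -(36 / 1000), 21 / 1000, 69 / 1000, -(31 / 1000), 25 / 1000, -(14 / 1000), 67 / 1000⟩
  | .ring, .three => ⟨-(40 / 1000), 27 / 1000, 39 / 1000, 110 / 1000, 18 / 1000, 70 / 1000, 31 / 1000, 98 / 1000, 11 / 1000, 85 / 1000, 58 / 1000, 151 / 1000⟩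
  | .ring, .threeE => ⟨-(65 / 1000), -(2 / 1000), 45 / 1000, 109 / 1000, -(2 / 1000), 39 / 1000, 25 / 1000, 70 / 1000, 23 / 1000, 81 / 1000, 46 / 1000, 124 / 1000⟩
  | .ring, .ring => ⟨-(44 / 1000), 44 / 1000, 35 / 1000, 106 / 1000, 35 / 1000, 106 / 1000, 25 / 1000, 101 / 1000, 25 / 1000, 101 / 1000, 70 / 1000, 176 / 1000⟩

/-- upper bound of `k + q` at `R 1 1 | 1 Q` -/
noncomputable def kcw (R Q : Cl) : ℝ :=
  match R, Q with
  | .twoE, .ring => 52 / 1000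
  | .threeE, .ring => 67 / 1000
  | .two, .ring => 91 / 1000
  | .ring, .ring => 105 / 1000
  | _, Q => (pcw .one Q).c1

/-- the windows seen from the other digit -/
noncomputable def Win6.swap (W : Win6) : Win6 :=
  ⟨-W.t1, -W.t0, W.q0, W.q1, W.k0, W.k1, W.b0, W.b1, W.a0, W.a1, W.c0, W.c1⟩

theorem pcw_swap (P Q : Cl) : pcw Q P = (pcw P Q).swap := by
  cases P <;> cases Q <;> simp only [pcw, Win6.swap, neg_neg]

/-- the windows seen from the other digit -/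
theorem pcw_symm {P Q : Cl} {T k q : ℝ} (h : (pcw P Q).In T k q) : (pcw Q P).In (-T) q k := by
  rw [pcw_swap P Q]
  obtain ⟨h1, h2, h3, h4, h5, h6, h7, h8, h9, h10, h11, h12⟩ := h
  refine ⟨neg_le_neg h2, neg_le_neg h1, h5, h6, h3, h4, h9, h10, ?_, ?_, ?_, ?_⟩
  · show (pcw P Q).a0 ≤ - -T + k
    linarith
  · show - -T + k ≤ (pcw P Q).a1
    linarith
  · show (pcw P Q).c0 ≤ q + k
    linarith
  · show q + k ≤ (pcw P Q).c1
    linarith

variable {M : ℕ}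

/-- **Location facts at pairs of digits `±1`.** -/
structure LocP (b : Fin (M + 1) → ℤ) (zs : DD (tyW b) ⊕ ZZ (tyW b) → ℂ) : Prop where
  /-- the hinge `h` is between the digits `i` and `j`, both `±1`; the outer hinges are `h'` (between
  `i` and `k`) and `h''` (between `j` and `l`) -/
  pair : ∀ {h h' h'' : Fin M} {i j k l : Fin (M + 1)} {p : Fin 3}, Adj h i p j →
    Adj h' i p.rev k → Adj h'' j p l → clsW b i = .one → clsW b j = .one →
    (pcw (clsW b k) (clsW b l)).In (ofs (b i) (zs (.inl (.inl h))).im)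
      (ofs (b i) (zs (.inl (.inl h'))).im) (ofs (b j) (zs (.inl (.inl h''))).im)
  /-- exactly three digits `±1` in a row, between the classes of `m` and of `l` -/
  three : ∀ {h h' h'' h3 : Fin M} {i j k l m : Fin (M + 1)} {p : Fin 3}, Adj h i p j →
    Adj h' i p.rev k → Adj h'' j p l → Adj h3 k p.rev m → clsW b i = .one → clsW b j = .one →
    clsW b k = .one → clsW b l ≠ .one → clsW b m ≠ .one →
    ofs (b i) (zs (.inl (.inl h'))).im + ofs (b j) (zs (.inl (.inl h''))).im ≤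
      kcw (clsW b m) (clsW b l)

end SR

end Pool.Agent.Work.MP_b30479_gtS.G2

end

section

/-!
# Windows of the rings

The ring variable and one hinge of a ring in the own frame of the ring: `y`: the hinge, `z`: the ring
variable, `- z.re`: the distance, `z.im - y.im`: the height of the ring variable over the hinge.
-/

namespace Pool.Agent.Work.MP_b30479_gtS.G2

namespace SR

/-- next to a digit `3` or a ring -/
structure RB3 (y z : ℂ) : Prop where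
  s : -z.re ≤ 2445 / 10000
  q : z.im - y.im ≤ 1200 / 10000
  qs : z.im - y.im ≤ 5900 / 10000 - 22 / 10 * (-z.re)
  c : y.re - z.re ≤ 4465 / 10000

/-- next to a digit `2` inside -/
structure RB2 (y z : ℂ) : Prop where
  s : -z.re ≤ 2225 / 10000
  q : z.im - y.im ≤ 1400 / 10000
  qs : z.im - y.im ≤ 3980 / 10000 - 13 / 10 * (-z.re)
  c : y.re - z.re ≤ 4495 / 10000

/-- next to a digit `2` at the end, at least five crossings -/
structure RB2e (y z : ℂ) : Prop where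
  s : -z.re ≤ 1885 / 10000
  q : z.im - y.im ≤ 1680 / 10000
  qs : z.im - y.im ≤ 3520 / 10000 - 105 / 100 * (-z.re)
  c : y.re - z.re ≤ 3740 / 10000
  kap : 3 / 100 ≤ -z.re ∨ 171 / 1000 ≤ y.re

/-- next to a digit `2` at the end, four crossings inside -/
structure RB2f (y z : ℂ) : Prop where
  x0 : 1720 / 10000 ≤ y.re
  x1 : y.re ≤ 1845 / 10000
  s : -z.re ≤ 2080 / 10000
  q : z.im - y.im ≤ 1710 / 10000
  qs : z.im - y.im ≤ 3910 / 10000 - 11 / 10 * (-z.re)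

/-- the word `4 2` -/
structure RB42 (y z : ℂ) : Prop where
  x0 : 1667 / 10000 ≤ y.re
  x1 : y.re ≤ 1670 / 10000
  t0 : -(930 / 10000) ≤ y.im
  t1 : y.im ≤ -(925 / 10000)
  s0 : 2183 / 10000 ≤ -z.re
  s1 : -z.re ≤ 2187 / 10000
  r1 : z.im ≤ 265 / 10000

/-- a window, in units `1 / 10000`: `x`: real part of the hinge, `s`: minus the real part of the ring
variable, `q`: height of the ring variable over the hinge, `c`: upper bound of `x + s` -/
structure RWin where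
  x0 : ℝ
  x1 : ℝ
  s0 : ℝ
  s1 : ℝ
  q0 : ℝ
  q1 : ℝ
  c1 : ℝ

/-- hinge and ring variable are in the window -/
structure RWin.In (W : RWin) (y z : ℂ) : Prop where
  x0 : W.x0 / 10000 ≤ y.re
  x1 : y.re ≤ W.x1 / 10000
  s0 : W.s0 / 10000 ≤ -z.re
  s1 : -z.re ≤ W.s1 / 10000
  q0 : W.q0 / 10000 ≤ z.im - y.im
  q1 : z.im - y.im ≤ W.q1 / 10000
  c : y.re - z.re ≤ W.c1 / 10000

/-- windows of a ring with `n` crossings (`n = 4, 5`; `e`: at an end) next to a digit `1` whose other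
neighbour has class `P` -/
noncomputable def rw1 (n : ℕ) (e : Bool) (P : Cl) : List RWin :=
  match n, e, P with
  | 4, true, .one =>
    [⟨2186, 2483, 2027, 2153, 848, 1153, 4540⟩,
    ⟨2147, 2488, 2029, 2153, 848, 1226, 4547⟩,
    ⟨2323, 2575, 2004, 2111, 993, 1179, 4609⟩]
  | 4, true, .two =>
    [⟨2500, 2726, 1965, 2065, 1059, 1269, 4721⟩,
    ⟨2595, 2751, 1967, 2034, 1125, 1232, 4738⟩]
  | 4, true, .twoE =>
    [⟨2382, 2442, 2015, 2075, 1343, 1403, 4487⟩]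
  | 4, false, .one =>
    [⟨2269, 2692, 0, 1998, 997, 1557, 4592⟩,
    ⟨2226, 2698, 0, 2004, 997, 1634, 4595⟩,
    ⟨2412, 2788, 0, 1967, 1154, 1573, 4668⟩,
    ⟨2225, 2673, 0, 1879, 927, 1646, 4486⟩,
    ⟨2400, 2767, 0, 1879, 1103, 1567, 4578⟩]
  | 4, false, .two =>
    [⟨2591, 2947, 0, 1931, 1224, 1660, 4798⟩,
    ⟨2678, 2983, 0, 1912, 1285, 1625, 4826⟩,
    ⟨2573, 2935, 0, 1879, 1172, 1661, 4742⟩,
    ⟨2655, 2970, 0, 1879, 1237, 1614, 4777⟩]
  | 4, false, .twoE =>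
    [⟨2462, 2637, 0, 1962, 1530, 1818, 4561⟩,
    ⟨2463, 2648, 0, 1879, 1533, 1861, 4466⟩]
  | 5, true, .one =>
    [⟨2214, 2514, 1691, 1798, 858, 1190, 4235⟩,
    ⟨2166, 2524, 0, 1842, 785, 1313, 4318⟩,
    ⟨2335, 2607, 0, 1842, 959, 1252, 4403⟩]
  | 5, true, .two =>
    [⟨2499, 2750, 0, 1842, 1034, 1352, 4548⟩,
    ⟨2578, 2783, 0, 1842, 1098, 1317, 4580⟩]
  | 5, true, .twoE =>
    [⟨2389, 2480, 0, 1842, 1375, 1521, 4284⟩]
  | 5, false, .one =>
    [⟨2264, 2635, 0, 1674, 962, 1469, 4216⟩,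
    ⟨2299, 2635, 0, 1721, 1062, 1469, 4273⟩,
    ⟨2256, 2649, 0, 1710, 891, 1532, 4291⟩,
    ⟨2213, 2654, 0, 1754, 891, 1623, 4359⟩,
    ⟨2393, 2746, 0, 1754, 1073, 1552, 4450⟩]
  | 5, false, .two =>
    [⟨2563, 2906, 0, 1754, 1151, 1657, 4609⟩,
    ⟨2645, 2942, 0, 1754, 1220, 1615, 4644⟩]
  | 5, false, .twoE =>
    [⟨2442, 2609, 0, 1754, 1503, 1842, 4325⟩]
  | _, _, _ => []

variable {M : ℕ}

/-- **Windows of the rings.** -/
structure LocRg (b : Fin (M + 1) → ℤ) (zs : DD (tyW b) ⊕ ZZ (tyW b) → ℂ) : Prop where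
  three : ∀ {h : Fin M} {i j : Fin (M + 1)} {p : Fin 3} (v : ZZ (tyW b)), v.1 = i → Adj h i p j →
    clsW b i = .ring → (clsW b j = .three ∨ clsW b j = .threeE ∨ clsW b j = .ring) →
    RB3 (ofr (b i) (zs (.inl (.inl h)))) (ofz (b i) (zs (.inr v)))
  two : ∀ {h : Fin M} {i j : Fin (M + 1)} {p : Fin 3} (v : ZZ (tyW b)), v.1 = i → Adj h i p j →
    clsW b i = .ring → clsW b j = .two →
    RB2 (ofr (b i) (zs (.inl (.inl h)))) (ofz (b i) (zs (.inr v)))
  twoE5 : ∀ {h : Fin M} {i j : Fin (M + 1)} {p : Fin 3} (v : ZZ (tyW b)), v.1 = i → Adj h i p j →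
    5 ≤ (b i).natAbs → clsW b j = .twoE →
    RB2e (ofr (b i) (zs (.inl (.inl h)))) (ofz (b i) (zs (.inr v)))
  twoE4 : ∀ {h : Fin M} {i j : Fin (M + 1)} {p : Fin 3} (v : ZZ (tyW b)), v.1 = i → Adj h i p j →
    (b i).natAbs = 4 → isEnd i = false → clsW b j = .twoE →
    RB2f (ofr (b i) (zs (.inl (.inl h)))) (ofz (b i) (zs (.inr v)))
  w42 : ∀ {h : Fin M} {i j : Fin (M + 1)} {p : Fin 3} (v : ZZ (tyW b)), v.1 = i → Adj h i p j →
    (b i).natAbs = 4 → isEnd i = true → clsW b j = .twoE →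
    RB42 (ofr (b i) (zs (.inl (.inl h)))) (ofz (b i) (zs (.inr v)))
  /-- digit `1` at `i`, ring at `j` with four or five crossings -/
  one : ∀ {h h' : Fin M} {i j j' : Fin (M + 1)} {p : Fin 3} (v : ZZ (tyW b)), v.1 = j →
    Adj h i p j → Adj h' i p.rev j' → clsW b i = .one →
    ((b j).natAbs = 4 ∨ (b j).natAbs = 5) →
    ∃ W ∈ rw1 (b j).natAbs (isEnd j) (clsW b j'),
      W.In (ofr (b j) (zs (.inl (.inl h)))) (ofz (b j) (zs (.inr v)))
  /-- digit `1` at `i`, ring at `j` with at least six crossings -/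
  one6 : ∀ {h : Fin M} {i j : Fin (M + 1)} {p : Fin 3} (v : ZZ (tyW b)), v.1 = j → Adj h i p j →
    clsW b i = .one → 6 ≤ (b j).natAbs → 26 / 100 ≤ (zs (.inl (.inl h))).re →
    1 / 10 ≤ (ofz (b j) (zs (.inr v))).im - (ofr (b j) (zs (.inl (.inl h)))).im
  /-- digit `1` at `i` between `j'` and an interior ring at `j` with four crossings -/
  kr : ∀ {h h' : Fin M} {i j j' : Fin (M + 1)} {p : Fin 3} (v : ZZ (tyW b)), v.1 = j →
    Adj h i p j → Adj h' i p.rev j' → clsW b i = .one → (b j).natAbs = 4 → isEnd j = false →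
    (zs (.inr v)).im ≤ 85 / 1000 ∧ (clsW b j' = .two →
      (zs (.inr v)).im ≤ 75 / 1000 ∧
      ofs (b i) (zs (.inl (.inl h'))).im + (zs (.inr v)).im ≤ 150 / 1000)

end SR

end Pool.Agent.Work.MP_b30479_gtS.G2

end

section

/-!
# Further location facts: sums of the real parts at a digit `±1`
-/

namespace Pool.Agent.Work.MP_b30479_gtS.G2

namespace SR

variable {M : ℕ}

/-- **Location facts: real parts of the two hinges of a digit `±1`.** -/
structure LocS (b : Fin (M + 1) → ℤ) (zs : DD (tyW b) ⊕ ZZ (tyW b) → ℂ) : Prop where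
  sum : ∀ {h h' : Fin M} {i j j' : Fin (M + 1)} {p : Fin 3}, Adj h i p j → Adj h' i p.rev j' →
    clsW b i = .one → (zs (.inl (.inl h))).re + (zs (.inl (.inl h'))).re ≤ 80 / 100
  sumZ : ∀ {h h' : Fin M} {i j j' : Fin (M + 1)} {p : Fin 3}, Adj h i p j → Adj h' i p.rev j' →
    clsW b i = .one → clsW b j = .ring → clsW b j' = .one →
    (zs (.inl (.inl h))).re + (zs (.inl (.inl h'))).re ≤ 76 / 100

end SR

end Pool.Agent.Work.MP_b30479_gtS.G2

end

section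

/-!
# Further location facts: heights of the two hinges of a digit `±1`, heights at rings
-/

namespace Pool.Agent.Work.MP_b30479_gtS.G2

namespace SR

/-- a window: `t0 ≤ T ≤ t1`, `s0 ≤ T + k ≤ s1` -/
structure Win where
  t0 : ℝ
  t1 : ℝ
  s0 : ℝ
  s1 : ℝ

/-- window of a hinge `1 | B` (height `T` in the frame of the digit `1`); `P` is the class of the
other neighbour of the digit `1` and `k` the height of the hinge `P | 1` in the same frame -/
noncomputable def cw (P B : Cl) : Win :=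
  match P, B with
  | .one, .one => ⟨-(96 / 1000), 56 / 1000, -(85 / 1000), 60 / 1000⟩
  | .one, .two => ⟨-(18 / 1000), 79 / 1000, -(49 / 1000), 95 / 1000⟩
  | .one, .twoE => ⟨-(66 / 1000), -(16 / 1000), -(56 / 1000), 37 / 1000⟩
  | .one, .three => ⟨21 / 1000, 92 / 1000, -(22 / 1000), 111 / 1000⟩
  | .one, .threeE => ⟨10 / 1000, 58 / 1000, -(11 / 1000), 101 / 1000⟩
  | .one, .ring => ⟨38 / 1000, 136 / 1000, -(10 / 1000), 143 / 1000⟩
  | .two, .one => ⟨-(93 / 1000), 54 / 1000, -(49 / 1000), 95 / 1000⟩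
  | .two, .two => ⟨5 / 1000, 79 / 1000, 42 / 1000, 130 / 1000⟩
  | .two, .twoE => ⟨-(49 / 1000), -(20 / 1000), 21 / 1000, 64 / 1000⟩
  | .two, .three => ⟨46 / 1000, 94 / 1000, 78 / 1000, 148 / 1000⟩
  | .two, .threeE => ⟨30 / 1000, 59 / 1000, 83 / 1000, 134 / 1000⟩
  | .two, .ring => ⟨63 / 1000, 145 / 1000, 94 / 1000, 187 / 1000⟩
  | .twoE, .one => ⟨-(33 / 1000), 80 / 1000, -(56 / 1000), 37 / 1000⟩
  | .twoE, .two => ⟨48 / 1000, 985 / 10000, 21 / 1000, 64 / 1000⟩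
  | .twoE, .twoE => ⟨-(6 / 1000), 1 / 1000, -(6 / 1000), 6 / 1000⟩
  | .twoE, .three => ⟨87 / 1000, 1145 / 10000, 51 / 1000, 77 / 1000⟩
  | .twoE, .threeE => ⟨69 / 1000, 78 / 1000, 51 / 1000, 64 / 1000⟩
  | .twoE, .ring => ⟨100 / 1000, 158 / 1000, 64 / 1000, 106 / 1000⟩
  | .three, .one => ⟨-(91 / 1000), 49 / 1000, -(22 / 1000), 111 / 1000⟩
  | .three, .two => ⟨10 / 1000, 77 / 1000, 78 / 1000, 148 / 1000⟩
  | .three, .twoE => ⟨-(45 / 1000), -(25 / 1000), 51 / 1000, 77 / 1000⟩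
  | .threeE, .one => ⟨-(61 / 1000), 65 / 1000, -(11 / 1000), 101 / 1000⟩
  | .threeE, .two => ⟨32 / 1000, 91 / 1000, 83 / 1000, 134 / 1000⟩
  | .threeE, .twoE => ⟨-(24 / 1000), -(11 / 1000), 51 / 1000, 64 / 1000⟩
  | .ring, .one => ⟨-(117 / 1000), 51 / 1000, -(10 / 1000), 143 / 1000⟩
  | .ring, .two => ⟨-(8 / 1000), 80 / 1000, 94 / 1000, 187 / 1000⟩
  | .ring, .twoE => ⟨-(61 / 1000), -(24 / 1000), 64 / 1000, 106 / 1000⟩
  | _, B => ⟨(hbox .one B false).t0, (hbox .one B false).t1, -1, 1⟩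

/-- window of the inner variable of an interior region with three crossings between the classes `A`
(left) and `K` (right): `t0 ≤ t_m ≤ t1`, `s0 ≤ t_m - t_v ≤ s1`, `t_v` the height of the left hinge -/
noncomputable def mw (A K : Cl) : Win :=
  match A, K with
  | .one, .one => ⟨-(90 / 1000), -(18 / 1000), -(45 / 1000), 70 / 1000⟩
  | .one, .twoE => ⟨-(62 / 1000), -(5 / 1000), -(20 / 1000), 75 / 1000⟩
  | .one, .ring => ⟨-(72 / 1000), 0, -(34 / 1000), 80 / 1000⟩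
  | .one, _ => ⟨-(82 / 1000), 5 / 1000, -(40 / 1000), 84 / 1000⟩
  | .twoE, .one => ⟨-(123 / 1000), -(80 / 1000), -(48 / 1000), 15 / 1000⟩
  | .twoE, .twoE => ⟨-(95 / 1000), -(67 / 1000), -(18 / 1000), 29 / 1000⟩
  | .twoE, .ring => ⟨-(106 / 1000), -(67 / 1000), -(31 / 1000), 29 / 1000⟩
  | .twoE, _ => ⟨-(116 / 1000), -(64 / 1000), -(40 / 1000), 32 / 1000⟩
  | _, .one => ⟨-(114 / 1000), -(15 / 1000), -(105 / 1000), 14 / 1000⟩
  | _, .twoE => ⟨-(82 / 1000), -(5 / 1000), -(75 / 1000), 19 / 1000⟩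
  | _, .ring => ⟨-(92 / 1000), 0, -(93 / 1000), 24 / 1000⟩
  | _, _ => ⟨-(104 / 1000), 5 / 1000, -(100 / 1000), 28 / 1000⟩

variable {M : ℕ}

/-- **Further location facts.** -/
structure LocX (b : Fin (M + 1) → ℤ) (zs : DD (tyW b) ⊕ ZZ (tyW b) → ℂ) : Prop where
  /-- the two hinges of a digit `±1` -/
  win : ∀ {h h' : Fin M} {i j j' : Fin (M + 1)} {p : Fin 3}, Adj h i p j → Adj h' i p.rev j' →
    clsW b i = .one →
    (cw (clsW b j') (clsW b j)).t0 ≤ ofs (b i) (zs (.inl (.inl h))).im ∧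
    ofs (b i) (zs (.inl (.inl h))).im ≤ (cw (clsW b j') (clsW b j)).t1 ∧
    (cw (clsW b j') (clsW b j)).s0 ≤
      ofs (b i) (zs (.inl (.inl h))).im + ofs (b i) (zs (.inl (.inl h'))).im ∧
    ofs (b i) (zs (.inl (.inl h))).im + ofs (b i) (zs (.inl (.inl h'))).im ≤
      (cw (clsW b j') (clsW b j)).s1
  /-- `1 | 4`, `1 | 5` -/
  one4 : ∀ {h : Fin M} {i j : Fin (M + 1)} {p : Fin 3}, Adj h i p j → clsW b i = .one →
    clsW b j = .ring → (b j).natAbs = 4 → ofs (b i) (zs (.inl (.inl h))).im ≤ 128 / 1000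
  one5 : ∀ {h : Fin M} {i j : Fin (M + 1)} {p : Fin 3}, Adj h i p j → clsW b i = .one →
    clsW b j = .ring → (b j).natAbs = 5 → ofs (b i) (zs (.inl (.inl h))).im ≤ 138 / 1000
  /-- `2 | 4`, `3 | 4` -/
  lo4 : ∀ {h : Fin M} {i j : Fin (M + 1)} {p : Fin 3}, Adj h i p j → clsW b i ≠ .one →
    clsW b i ≠ .ring → clsW b j = .ring → (b j).natAbs = 4 →
    ofs (b i) (zs (.inl (.inl h))).im ≤ 115 / 1000
  /-- `ring | 4`, seen from the `4` -/
  rr4 : ∀ {h : Fin M} {i j : Fin (M + 1)} {p : Fin 3}, Adj h i p j → clsW b i = .ring →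
    clsW b j = .ring → (b i).natAbs = 4 → -(25 / 1000) ≤ ofs (b i) (zs (.inl (.inl h))).im
  /-- inner variables of interior regions with three crossings -/
  mid : ∀ {h h' : Fin M} {i j k : Fin (M + 1)} (hm : (tyW b i).isMid = true), Adj h i 0 j →
    Adj h' i 2 k → clsW b i = .three →
    (mw (clsW b j) (clsW b k)).t0 ≤ ofs (b i) (zs (.inl (.inr ⟨i, hm⟩))).im ∧
    ofs (b i) (zs (.inl (.inr ⟨i, hm⟩))).im ≤ (mw (clsW b j) (clsW b k)).t1 ∧
    (mw (clsW b j) (clsW b k)).s0 ≤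
      ofs (b i) (zs (.inl (.inr ⟨i, hm⟩))).im - ofs (b i) (zs (.inl (.inl h))).im ∧
    ofs (b i) (zs (.inl (.inr ⟨i, hm⟩))).im - ofs (b i) (zs (.inl (.inl h))).im ≤
      (mw (clsW b j) (clsW b k)).s1
  /-- `3 | ring` -/
  three : ∀ {h : Fin M} {i j : Fin (M + 1)} {p : Fin 3}, Adj h i p j → clsW b i = .three →
    clsW b j = .ring → -(1 / 1000) ≤ ofs (b i) (zs (.inl (.inl h))).im

end SR

end Pool.Agent.Work.MP_b30479_gtS.G2

end

section

/-!
# Consequences of the location facts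
-/

namespace Pool.Agent.Work.MP_b30479_gtS.G2

namespace SR

variable {M : ℕ} {b : Fin (M + 1) → ℤ} {zs : DD (tyW b) ⊕ ZZ (tyW b) → ℂ}
variable {h h' : Fin M} {i j j' : Fin (M + 1)} {p : Fin 3}

/-- a digit `±1` has another hinge -/
theorem Adj.other_one (A : Adj h i p j) (hb : ClassW b) (hc : clsW b i = .one) :
    ∃ h' j', Adj h' i p.rev j' := by
  rcases A.other b (zs := fun _ => 0) (y := fun _ => 0) with ⟨he, -⟩ | ⟨-, h', j', A'⟩
  · have := clsW_inner hb (Or.inl hc)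
    rw [this] at he
    exact absurd he (by decide)
  · exact ⟨h', j', A'⟩

theorem cw_one_le (P : Cl) : (cw P .one).t1 ≤ 80 / 1000 := by
  cases P <;> simp only [cw] <;> norm_num

/-- the height of a hinge `1 | 1` -/
theorem LocX.t11 (hX : LocX b zs) (hb : ClassW b) (A : Adj h i p j) (hi : clsW b i = .one)
    (hj : clsW b j = .one) : |ofs (b i) (zs (.inl (.inl h))).im| ≤ 80 / 1000 := by
  have hop := A.opp hb (Or.inl (by rw [hi]; decide))
  obtain ⟨h1, j1, A1⟩ := A.other_one hb hi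
  obtain ⟨h2, j2, A2⟩ := A.symm.other_one hb hj
  have g1 := (hX.win A A1 hi).2.1
  have g2 := (hX.win A.symm A2 hj).2.1
  rw [hj] at g1
  rw [hi, ofs_opp hop] at g2
  have k1 := cw_one_le (clsW b j1)
  have k2 := cw_one_le (clsW b j2)
  rw [abs_le]
  constructor <;> linarith

end SR

end Pool.Agent.Work.MP_b30479_gtS.G2

end
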