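import Pool.Agent.Work.MP_b30479_gt.TBS.G2.MPRun
import Pool.Agent.Work.MP_b30479_gt.TBS.G2.MPWallD
import Pool.Agent.Work.MP_b30479_gt.TBS.G2.MPReg
import Pool.Agent.Work.MP_b30479_gt.TBS.G2.Rng

section

/-!
# Domination on the main paths: the form needed in `Sadl`
-/

namespace Pool.Agent.Work.MP_b30479_gtS.G2

open Finset VOL Filter Topology

/-- at the saddle the growth rate is the real part of the potential -/
theorem V_eq_re_T {D Z K : Type} [Fintype D] [Fintype Z] [Fintype K] (S : Dat D Z K)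
    {z : D ⊕ Z → ℂ} (hin : ∀ k, S.form k z ∈ strip) : S.V z = (S.T z).re := by
  unfold Dat.V Dat.T
  rw [Complex.add_re (S.quad z + _) (∑ k, Fh (S.form k z)), Complex.re_sum (s := Finset.univ)
    (f := fun k => Fh (S.form k z))]
  congr 1
  exact Finset.sum_congr rfl fun k _ => UU_eq_Fh (hin k)

section
variable {M : ℕ} {t : Fin (M + 1) → Typ} {b : Fin (M + 1) → ℤ}
variable {P : Par (DD t)} {zs : DD t ⊕ ZZ t → ℂ}

/-- the part `R = ∅`, `p = 0` of the domination -/
theorem dom_paths (hh : ∀ i, 0 < P.hu i ∧ 0 < P.hd i)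
    (hin : ∀ k, (wdat t b).form k zs ∈ strip)
    (h : ∀ x ∈ P.box (ZZ t), P.pth zs x ≠ zs → (wdat t b).V (P.pth zs x) < (wdat t b).V zs)
    {z : DD t ⊕ ZZ t → ℂ} (hz : Adm (wdat t b) P zs ∅ ∅ z 0) (hne : z ≠ zs) :
    (wdat t b).V z < ((wdat t b).T zs).re := by
  obtain ⟨x, hx, rfl⟩ := hz.exists_pth hh
  rw [← V_eq_re_T _ hin]
  exact h x hx hne

/-! ### unpacking the local variables -/

/-- the left hinge of the run `h.succ` at a point of the paths -/
theorem loc_left (h : Fin M) (y : DD t ⊕ ZZ t → ℝ) :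
    xx t h.succ (P.pth zs y) 0 = P.pp zs (.inl (.inl h)) (y (.inl (.inl h))) := by
  rw [xx_left]
  rfl

/-- the right hinge of the run `h.castSucc` at a point of the paths -/
theorem loc_right (h : Fin M) (y : DD t ⊕ ZZ t → ℝ) :
    xx t h.castSucc (P.pth zs y) 2 = P.pp zs (.inl (.inl h)) (y (.inl (.inl h))) := by
  rw [xx_right]
  rfl

theorem loc_mid {i : Fin (M + 1)} (hi : (t i).isMid = true) (y : DD t ⊕ ZZ t → ℝ) :
    xx t i (P.pth zs y) 1 = P.pp zs (.inl (.inr ⟨i, hi⟩)) (y (.inl (.inr ⟨i, hi⟩))) := by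
  rw [xx_mid t hi]
  rfl

theorem loc_ring {i : Fin (M + 1)} (hi : (t i).isRing = true) (y : DD t ⊕ ZZ t → ℝ) :
    xx t i (P.pth zs y) 1 = P.pp zs (.inr ⟨i, hi⟩) (y (.inr ⟨i, hi⟩)) := by
  rw [xx_ring t hi]
  rfl

/-- path points of a discrete variable on the flat part -/
theorem pp_flat {D Z : Type} {P : Par D} (hP : P.Good) (zs : D ⊕ Z → ℂ) (i : D) {x : ℝ}
    (h0 : P.cl i ≤ x) (h1 : x ≤ P.XM i - P.cr i) :
    P.pp zs (.inl i) x = (x : ℂ) + ((zs (.inl i)).im : ℂ) * Complex.I := by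
  obtain ⟨hc, hc', hb⟩ := hP i
  unfold Par.pp
  simp only [Par.hgt]
  rw [tr_b hc hc' h0 h1, mul_one]

/-- path points of a discrete variable on the left ramp -/
theorem pp_left {D Z : Type} {P : Par D} (hP : P.Good) (zs : D ⊕ Z → ℂ) (i : D) {x : ℝ}
    (h0 : 0 ≤ x) (h1 : x ≤ P.cl i) :
    P.pp zs (.inl i) x = (x : ℂ) + (((zs (.inl i)).im * (x / P.cl i) : ℝ) : ℂ) * Complex.I := by
  obtain ⟨hc, hc', hb⟩ := hP i
  unfold Par.pp
  simp only [Par.hgt]
  rw [tr_a hc hc' hb h0 h1]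

/-- path points of a discrete variable on the right ramp -/
theorem pp_right {D Z : Type} {P : Par D} (hP : P.Good) (zs : D ⊕ Z → ℂ) (i : D) {x : ℝ}
    (h0 : P.XM i - P.cr i ≤ x) (h1 : x ≤ P.XM i) :
    P.pp zs (.inl i) x =
      (x : ℂ) + (((zs (.inl i)).im * ((P.XM i - x) / P.cr i) : ℝ) : ℂ) * Complex.I := by
  obtain ⟨hc, hc', hb⟩ := hP i
  unfold Par.pp
  simp only [Par.hgt]
  rw [tr_c hc hc' hb h0 h1]

/-- path points of a continuous variable -/
theorem pp_ring {D Z : Type} (P : Par D) (zs : D ⊕ Z → ℂ) (v : Z) (σ : ℝ) :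
    P.pp zs (.inr v) σ = (σ : ℂ) + (((zs (.inr v)).im * LT.th σ : ℝ) : ℂ) * Complex.I := rfl

theorem pp_ring_flat {D Z : Type} (P : Par D) (zs : D ⊕ Z → ℂ) (v : Z) {σ : ℝ} (h : |σ| ≤ 1 / 4) :
    P.pp zs (.inr v) σ = (σ : ℂ) + ((zs (.inr v)).im : ℂ) * Complex.I := by
  rw [pp_ring]
  unfold LT.th
  rw [min_eq_left (by linarith), mul_one]

end

end Pool.Agent.Work.MP_b30479_gtS.G2

end

section

/-!
# Part of `MPFoc`
-/
namespace Pool.Agent.Work.MP_b30479_gtS.G2

open Finset VOL Filter Topology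

section
variable {M : ℕ} {t : Fin (M + 1) → Typ} {b : Fin (M + 1) → ℤ}
variable {P : Par (DD t)} {zs : DD t ⊕ ZZ t → ℂ} {y : DD t ⊕ ZZ t → ℝ}

/-- the general conditions on the paths -/
structure Std (t : Fin (M + 1) → Typ) (P : Par (DD t)) : Prop where
  std : ∀ i, (t i).Std
  good : P.Good
  XM : ∀ i, P.XM i < 1

end

end Pool.Agent.Work.MP_b30479_gtS.G2

end

section

/-!
# First order conditions of words without conditions on the factors
-/

namespace Pool.Agent.Work.MP_b30479_gtS.G2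

open Finset VOL Filter Topology

/-- the condition on the factors which contain a hinge -/
def Reg0 (α : ℤ) (u : ℂ) : Prop := 0 < u.re ∧ (Complex.sin (Real.pi * u) = 0 → 0 < α)

theorem reg0_one_sub {w : ℂ} (hw : w ∈ strip) (α : ℤ) : Reg0 α (1 - w) := by
  have h1 := hw.1
  have h2 := hw.2
  refine ⟨by simp; linarith only [h2], fun h => ?_⟩
  exact absurd h (sinNe_one_sub.2 (sin_ne_of_strip hw))

theorem reg0_pos {u : ℂ} (h : 0 < u.re) : Reg0 1 u := ⟨h, fun _ => one_pos⟩

section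
set_option linter.unusedSimpArgs false

theorem facCo_zero {t : Typ} (ht : t.Std) (r : Bool) {x : Fin 3 → ℂ} (hw : x 0 ∈ strip)
    (h2 : 0 ≤ (x 2).re) (h1 : t.isMid = true → 0 ≤ (x 1).re ∧ (x 1).re < 1)
    (hr : t = .ring → |(x 1).re| ≤ 1 / 2) : FacCo t true r 0 x Reg0 := by
  have v1 : ∀ w : ℂ, 1 + -w = 1 - w := fun w => by ring
  have v2 : ∀ w u : ℂ, 1 + (w + -u) = 1 - (u - w) := fun w u => by ring
  have v3 : ∀ w u : ℂ, 1 / 2 + (w + u) = w + 1 / 2 + u := fun w u => by ring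
  have v4 : ∀ w u : ℂ, 1 / 2 + (w + -u) = w + 1 / 2 - u := fun w u => by ring
  have a1 := hw.1
  have a2 := hw.2
  have b1 := reg0_one_sub hw (-1)
  cases t with
  | one =>
    have b2 : Reg0 1 (x 0 + x 2) := reg0_pos (by simp; linarith only [h2, a1])
    intro f hf hf0
    cases r <;>
    · simp [facs, hL, hR] at hf
      rcases hf with rfl | rfl | rfl <;> simp_all [Fac.form_mk]
  | two =>
    have b2 : Reg0 1 (x 0 + x 2) := reg0_pos (by simp; linarith only [h2, a1])
    intro f hf hf0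
    cases r <;>
    · simp [facs, hL, hR] at hf
      rcases hf with rfl | rfl | rfl <;> simp_all [Fac.form_mk]
  | threeL =>
    have c := h1 rfl
    have b2 : Reg0 1 (1 - (x 1 - x 0)) := reg0_pos (by simp; linarith only [a1, c, c.2])
    intro f hf hf0
    cases r <;>
    · simp [facs, hL, hR] at hf
      rcases hf with rfl | rfl | rfl | rfl | rfl <;> simp_all [Fac.form_mk]
  | threeR =>
    have c := h1 rfl
    have b2 : Reg0 1 (x 0 + x 1) := reg0_pos (by simp; linarith only [a1, c, c.1])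
    intro f hf hf0
    cases r <;>
    · simp [facs, hL, hR] at hf
      rcases hf with rfl | rfl | rfl | rfl | rfl <;> simp_all [Fac.form_mk]
  | fourL => exact ht.elim
  | fourR => exact ht.elim
  | ring =>
    have c := abs_le.1 (hr rfl)
    have b2 : Reg0 1 (x 0 + 1 / 2 + x 1) := reg0_pos (by simp; linarith only [a1, c, c.1])
    have b3 : Reg0 1 (x 0 + 1 / 2 - x 1) := reg0_pos (by simp; linarith only [a1, c, c.2])
    intro f hf hf0
    cases r <;>
    · simp [facs, hL, hR] at hf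
      rcases hf with rfl | rfl | rfl | rfl | rfl | rfl <;> simp_all [Fac.form_mk]

theorem facCo_mir (t : Typ) (l r : Bool) (p : Fin 3) (x : Fin 3 → ℂ) (Q : ℤ → ℂ → Prop) :
    FacCo t.mir r l (Fin.rev p) (mir3 x) Q ↔ FacCo t l r p x Q := by
  unfold FacCo
  rw [← all_mir t l r fun f => f.α (Fin.rev p) ≠ 0 → Q (f.α (Fin.rev p)) (f.form (mir3 x))]
  simp only [Fac.mir_form]
  simp [Fac.mir]

theorem Typ.mir_std {t : Typ} (ht : t.Std) : t.mir.Std := by cases t <;> exact ht

theorem Typ.mir_isMid (t : Typ) : t.mir.isMid = t.isMid := by cases t <;> rfl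

theorem facCo_two {t : Typ} (ht : t.Std) (l : Bool) {x : Fin 3 → ℂ} (hw : x 2 ∈ strip)
    (h2 : 0 ≤ (x 0).re) (h1 : t.isMid = true → 0 ≤ (x 1).re ∧ (x 1).re < 1)
    (hr : t = .ring → |(x 1).re| ≤ 1 / 2) : FacCo t l true 2 x Reg0 := by
  have h := facCo_zero (t := t.mir) (Typ.mir_std ht) l (x := mir3 x) hw h2
    (fun h => h1 (by rwa [Typ.mir_isMid] at h)) (fun h => hr ((mir_ring t).1 h))
  exact (facCo_mir t l true 2 x Reg0).1 h

end

section
variable {M : ℕ} {t : Fin (M + 1) → Typ} {b : Fin (M + 1) → ℤ}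
variable {P : Par (DD t)} {zs : DD t ⊕ ZZ t → ℂ} {y : DD t ⊕ ZZ t → ℝ}

theorem IsMx.lt_one (h : IsMx (wdat t b) P zs y) (hS : Std t P) (j : DD t) : y (.inl j) < 1 :=
  lt_of_le_of_lt (h.1.2 (.inl j)) (hS.XM j)

theorem IsMx.nonneg (h : IsMx (wdat t b) P zs y) (j : DD t) : 0 ≤ y (.inl j) := h.1.1 (.inl j)

theorem IsMx.ring_le (h : IsMx (wdat t b) P zs y) (v : ZZ t) : |y (.inr v)| ≤ 1 / 2 :=
  abs_le.2 ⟨h.1.1 (.inr v), h.1.2 (.inr v)⟩

/-- real parts of the local variables -/
theorem IsMx.loc (h : IsMx (wdat t b) P zs y) (hS : Std t P) (i : Fin (M + 1)) :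
    0 ≤ (xx t i (P.pth zs y) 0).re ∧ 0 ≤ (xx t i (P.pth zs y) 2).re ∧
    ((t i).isMid = true → 0 ≤ (xx t i (P.pth zs y) 1).re ∧ (xx t i (P.pth zs y) 1).re < 1) ∧
    (t i = .ring → |(xx t i (P.pth zs y) 1).re| ≤ 1 / 2) := by
  refine ⟨?_, ?_, ?_, ?_⟩
  · rcases Fin.eq_zero_or_eq_succ i with h0 | ⟨k, rfl⟩
    · subst h0
      rw [xx_left_zero]
      simp
    · rw [loc_left, P.pp_re]
      exact h.nonneg _
  · rcases Fin.eq_castSucc_or_eq_last i with ⟨k, rfl⟩ | h0
    · rw [loc_right, P.pp_re]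
      exact h.nonneg _
    · subst h0
      rw [xx_right_last]
      simp
  · intro hi
    rw [loc_mid hi, P.pp_re]
    exact ⟨h.nonneg _, h.lt_one hS _⟩
  · intro hi
    have hi' : (t i).isRing = true := by rw [hi]; rfl
    rw [loc_ring hi', P.pp_re]
    exact h.ring_le _

theorem IsMx.strip_hinge (h : IsMx (wdat t b) P zs y) (hS : Std t P) (k : Fin M)
    (hk : 0 < y (.inl (.inl k))) : P.pp zs (.inl (.inl k)) (y (.inl (.inl k))) ∈ strip := by
  constructor
  · rw [P.pp_re]; exact hk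
  · rw [P.pp_re]; exact h.lt_one hS _

theorem IsMx.facCo_left (h : IsMx (wdat t b) P zs y) (hS : Std t P) (k : Fin M)
    (hk : 0 < y (.inl (.inl k))) : FacCo (t k.castSucc) (decide (k.castSucc ≠ 0))
      (decide (k.castSucc ≠ Fin.last M)) 2 (xx t k.castSucc (P.pth zs y)) Reg0 := by
  obtain ⟨h0, h2, h1, hr⟩ := h.loc hS k.castSucc
  rw [decide_castSucc]
  refine facCo_two (hS.std _) _ ?_ h0 h1 hr
  rw [loc_right]
  exact h.strip_hinge hS k hk

theorem IsMx.facCo_right (h : IsMx (wdat t b) P zs y) (hS : Std t P) (k : Fin M)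
    (hk : 0 < y (.inl (.inl k))) : FacCo (t k.succ) (decide (k.succ ≠ 0))
      (decide (k.succ ≠ Fin.last M)) 0 (xx t k.succ (P.pth zs y)) Reg0 := by
  obtain ⟨h0, h2, h1, hr⟩ := h.loc hS k.succ
  rw [decide_succ]
  refine facCo_zero (hS.std _) _ ?_ h2 h1 hr
  rw [loc_left]
  exact h.strip_hinge hS k hk

/-- **First order condition for a hinge, to the left.** -/
theorem IsMx.foc_left (h : IsMx (wdat t b) P zs y) (hS : Std t P) (k : Fin M)
    (hk : 0 < y (.inl (.inl k))) :
    (∀ q, (wdat t b).A q (.inl (.inl k)) ≠ 0 → SinNe ((wdat t b).form q (P.pth zs y))) ∧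
    0 ≤ rside t b k.castSucc 2 (P.sL zs (.inl (.inl k)) (y (.inl (.inl k))))
        (xx t k.castSucc (P.pth zs y)) +
      rside t b k.succ 0 (P.sL zs (.inl (.inl k)) (y (.inl (.inl k))))
        (xx t k.succ (P.pth zs y)) := by
  have h1 := co_hinge t b (h.facCo_left hS k hk) (h.facCo_right hS k hk)
  rw [← rside_of_hinge]
  exact h.left_gen hS.good hk (fun q hq => (h1 q hq).1) (fun q hq => (h1 q hq).2)

/-- **First order condition for a hinge, to the right.** -/
theorem IsMx.foc_right (h : IsMx (wdat t b) P zs y) (hS : Std t P) (k : Fin M)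
    (hk : 0 < y (.inl (.inl k))) (hx : y (.inl (.inl k)) < P.XM (.inl k)) :
    rside t b k.castSucc 2 (P.sR zs (.inl (.inl k)) (y (.inl (.inl k))))
        (xx t k.castSucc (P.pth zs y)) +
      rside t b k.succ 0 (P.sR zs (.inl (.inl k)) (y (.inl (.inl k))))
        (xx t k.succ (P.pth zs y)) ≤ 0 := by
  have h1 := co_hinge t b (h.facCo_left hS k hk) (h.facCo_right hS k hk)
  rw [← rside_of_hinge]
  exact (h.right_gen hS.good (j := .inl (.inl k)) hx (fun q hq => (h1 q hq).1)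
    (fun q hq hs => absurd hs ((h.foc_left hS k hk).1 q hq))).2

/-- all factors which contain the hinge are regular -/
theorem IsMx.rfac_left (h : IsMx (wdat t b) P zs y) (hS : Std t P) (k : Fin M)
    (hk : 0 < y (.inl (.inl k))) : rfac t k.castSucc 2 (xx t k.castSucc (P.pth zs y)) SinNe := by
  have h1 := (h.foc_left hS k hk).1
  intro f hf hf0
  obtain ⟨n, hn⟩ := List.get_of_mem hf
  have h2 := h1 ⟨k.castSucc, n⟩
  have e : (wdat t b).A ⟨k.castSucc, n⟩ (.inl (.inl k)) = f.α 2 := by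
    have hne : k.castSucc ≠ k.succ := (Fin.castSucc_lt_succ).ne
    show ∑ p, (fac t ⟨k.castSucc, n⟩).α p * cf t k.castSucc p (.inl (.inl k)) = f.α 2
    rw [Fin.sum_univ_three, ← hn]
    simp [cf, hne.symm, fac]
  rw [e, wdat_form] at h2
  have h3 := h2 hf0
  have e2 : fac t ⟨k.castSucc, n⟩ = f := hn
  rw [e2] at h3
  exact h3

theorem IsMx.rfac_right (h : IsMx (wdat t b) P zs y) (hS : Std t P) (k : Fin M)
    (hk : 0 < y (.inl (.inl k))) : rfac t k.succ 0 (xx t k.succ (P.pth zs y)) SinNe := by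
  have h1 := (h.foc_left hS k hk).1
  intro f hf hf0
  obtain ⟨n, hn⟩ := List.get_of_mem hf
  have h2 := h1 ⟨k.succ, n⟩
  have e : (wdat t b).A ⟨k.succ, n⟩ (.inl (.inl k)) = f.α 0 := by
    have hne : k.castSucc ≠ k.succ := (Fin.castSucc_lt_succ).ne
    show ∑ p, (fac t ⟨k.succ, n⟩).α p * cf t k.succ p (.inl (.inl k)) = f.α 0
    rw [Fin.sum_univ_three, ← hn]
    simp [cf, hne, fac]
  rw [e, wdat_form] at h2
  have h3 := h2 hf0
  have e2 : fac t ⟨k.succ, n⟩ = f := hn
  rw [e2] at h3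
  exact h3

end

/-! ### inner variables -/

/-- regular factors with positive real part -/
def Reg1 (_ : ℤ) (u : ℂ) : Prop := 0 < u.re ∧ SinNe u

section
set_option linter.unusedSimpArgs false

theorem facCo_mid {t : Typ} (hm : t.isMid = true) (ht : t.Std) {l r : Bool} {x : Fin 3 → ℂ}
    (h1 : x 1 ∈ strip) (h0 : 0 ≤ (x 0).re) (h2 : 0 ≤ (x 2).re)
    (r0 : x 0 = 0 ∨ FacAll t l r 0 x SinNe) (r2 : x 2 = 0 ∨ FacAll t l r 2 x SinNe) :
    FacCo t l r 1 x Reg1 := by
  have v1 : ∀ w : ℂ, 1 + -w = 1 - w := fun w => by ring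
  have v2 : ∀ w u : ℂ, 1 + (w + -u) = 1 - (u - w) := fun w u => by ring
  have v3 : ∀ w u : ℂ, 1 + (-u + w) = 1 - (u - w) := fun w u => by ring
  have a1 := h1.1
  have a2 := h1.2
  have c3 : Reg1 0 (1 - x 1) := ⟨by simp; linarith only [a2], sinNe_one_sub.2 (sin_ne_of_strip h1)⟩
  cases t with
  | one => exact absurd hm (by decide)
  | two => exact absurd hm (by decide)
  | threeL =>
    have c1 : Reg1 0 (x 1 + x 2) := by
      refine ⟨by simp; linarith only [h2, a1], ?_⟩
      rcases r2 with r2 | r2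
      · rw [r2, add_zero]
        exact sin_ne_of_strip h1
      · have := r2 ⟨![0, 1, 1], 0, 1 / 2⟩ (by cases l <;> cases r <;> simp [facs, hL, hR])
          (by simp)
        simpa [Fac.form_mk] using this
    have c2 : Reg1 0 (1 - (x 1 - x 0)) := by
      refine ⟨by simp; linarith only [h0, a2], ?_⟩
      rcases r0 with r0 | r0
      · rw [r0, sub_zero]
        exact c3.2
      · have := r0 ⟨![1, -1, 0], 1, -(1 / 2)⟩ (by cases l <;> cases r <;> simp [facs, hL, hR])
          (by simp)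
        have e := this
        simp [Fac.form_mk] at e
        rwa [v2] at e
    intro f hf hf0
    cases l <;> cases r <;>
    · simp [facs, hL, hR] at hf
      rcases hf with rfl | rfl | rfl | rfl | rfl | rfl | rfl <;> simp_all [Fac.form_mk, Reg1]
  | threeR =>
    have c1 : Reg1 0 (x 0 + x 1) := by
      refine ⟨by simp; linarith only [h0, a1], ?_⟩
      rcases r0 with r0 | r0
      · rw [r0, zero_add]
        exact sin_ne_of_strip h1
      · have := r0 ⟨![1, 1, 0], 0, 1 / 2⟩ (by cases l <;> cases r <;> simp [facs, hL, hR])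
          (by simp)
        simpa [Fac.form_mk] using this
    have c2 : Reg1 0 (1 - (x 1 - x 2)) := by
      refine ⟨by simp; linarith only [h2, a2], ?_⟩
      rcases r2 with r2 | r2
      · rw [r2, sub_zero]
        exact c3.2
      · have := r2 ⟨![0, -1, 1], 1, -(1 / 2)⟩ (by cases l <;> cases r <;> simp [facs, hL, hR])
          (by simp)
        have e := this
        simp [Fac.form_mk] at e
        rwa [v3] at e
    intro f hf hf0
    cases l <;> cases r <;>
    · simp [facs, hL, hR] at hf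
      rcases hf with rfl | rfl | rfl | rfl | rfl | rfl | rfl <;> simp_all [Fac.form_mk, Reg1]
  | fourL => exact ht.elim
  | fourR => exact ht.elim
  | ring => exact absurd hm (by decide)

theorem facCo_ring {l r : Bool} {x : Fin 3 → ℂ} (h1 : |(x 1).re| ≤ 1 / 2)
    (r0 : l = true → 0 < (x 0).re ∧ FacAll .ring l r 0 x SinNe)
    (r2 : r = true → 0 < (x 2).re ∧ FacAll .ring l r 2 x SinNe) :
    FacCo .ring l r 1 x Reg1 := by
  have v1 : ∀ w : ℂ, 1 + -w = 1 - w := fun w => by ring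
  have v3 : ∀ w u : ℂ, 1 / 2 + (w + u) = w + 1 / 2 + u := fun w u => by ring
  have v4 : ∀ w u : ℂ, 1 / 2 + (w + -u) = w + 1 / 2 - u := fun w u => by ring
  have a := abs_le.1 h1
  have c1 : l = true → Reg1 0 (1 / 2 + (x 0 + x 1)) ∧ Reg1 0 (1 / 2 + (x 0 + -x 1)) := by
    intro hl
    obtain ⟨p0, r0⟩ := r0 hl
    have e1 := r0 ⟨![1, 1, 0], 1 / 2, 0⟩ (by subst hl; simp [facs]) (by simp)
    have e2 := r0 ⟨![1, -1, 0], 1 / 2, 0⟩ (by subst hl; simp [facs]) (by simp)
    refine ⟨⟨by simp; linarith only [a, p0, a.1], ?_⟩, ⟨by simp; linarith only [a, p0, a.2], ?_⟩⟩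
    · simpa [Fac.form_mk] using e1
    · simpa [Fac.form_mk] using e2
  have c2 : r = true → Reg1 0 (1 / 2 + (x 1 + x 2)) ∧ Reg1 0 (1 / 2 + (-x 1 + x 2)) := by
    intro hl
    obtain ⟨p0, r2⟩ := r2 hl
    have e1 := r2 ⟨![0, 1, 1], 1 / 2, 0⟩ (by subst hl; simp [facs]) (by simp)
    have e2 := r2 ⟨![0, -1, 1], 1 / 2, 0⟩ (by subst hl; simp [facs]) (by simp)
    refine ⟨⟨by simp; linarith only [a, p0, a.1], ?_⟩, ⟨by simp; linarith only [a, p0, a.2], ?_⟩⟩
    · simpa [Fac.form_mk] using e1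
    · simpa [Fac.form_mk] using e2
  intro f hf hf0
  cases l <;> cases r <;>
  · simp [facs, hL, hR] at hf
    try rcases hf with rfl | rfl | rfl | rfl | rfl | rfl | rfl | rfl
    all_goals simp_all [Fac.form_mk, Reg1]

end

section
variable {M : ℕ} {t : Fin (M + 1) → Typ} {b : Fin (M + 1) → ℤ}
variable {P : Par (DD t)} {zs : DD t ⊕ ZZ t → ℂ} {y : DD t ⊕ ZZ t → ℝ}

/-- in a hinge slot the variable vanishes (no hinge) or the factors are regular -/
theorem IsMx.slots (h : IsMx (wdat t b) P zs y) (hS : Std t P)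
    (hpos : ∀ k : Fin M, 0 < y (.inl (.inl k))) (i : Fin (M + 1)) :
    ((i = 0 ∧ xx t i (P.pth zs y) 0 = 0) ∨ (i ≠ 0 ∧ 0 < (xx t i (P.pth zs y) 0).re ∧
      rfac t i 0 (xx t i (P.pth zs y)) SinNe)) ∧
    ((i = Fin.last M ∧ xx t i (P.pth zs y) 2 = 0) ∨ (i ≠ Fin.last M ∧
      0 < (xx t i (P.pth zs y) 2).re ∧ rfac t i 2 (xx t i (P.pth zs y)) SinNe)) := by
  constructor
  · rcases Fin.eq_zero_or_eq_succ i with h0 | ⟨k, rfl⟩
    · left
      subst h0
      exact ⟨rfl, xx_left_zero _ _⟩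
    · right
      refine ⟨Fin.succ_ne_zero k, ?_, h.rfac_right hS k (hpos k)⟩
      rw [loc_left, P.pp_re]
      exact hpos k
  · rcases Fin.eq_castSucc_or_eq_last i with ⟨k, rfl⟩ | h0
    · right
      refine ⟨Fin.castSucc_ne_last k, ?_, h.rfac_left hS k (hpos k)⟩
      rw [loc_right, P.pp_re]
      exact hpos k
    · left
      subst h0
      exact ⟨rfl, xx_right_last _ _⟩

theorem IsMx.facCo_mid (h : IsMx (wdat t b) P zs y) (hS : Std t P)
    (hpos : ∀ k : Fin M, 0 < y (.inl (.inl k))) (m : {i : Fin (M + 1) // (t i).isMid = true})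
    (hm : 0 < y (.inl (.inr m))) : FacCo (t m.1) (decide (m.1 ≠ 0)) (decide (m.1 ≠ Fin.last M)) 1
      (xx t m.1 (P.pth zs y)) Reg1 := by
  obtain ⟨h0, h2, -, -⟩ := h.loc hS m.1
  obtain ⟨s0, s2⟩ := h.slots hS hpos m.1
  refine G2.facCo_mid m.2 (hS.std _) ?_ h0 h2 (s0.imp (fun h => h.2) fun h => h.2.2)
    (s2.imp (fun h => h.2) fun h => h.2.2)
  rw [loc_mid m.2]
  constructor
  · rw [P.pp_re]; exact hm
  · rw [P.pp_re]; exact h.lt_one hS _

/-- **First order conditions for the inner discrete variable.** -/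
theorem IsMx.foc_mid_left (h : IsMx (wdat t b) P zs y) (hS : Std t P)
    (hpos : ∀ k : Fin M, 0 < y (.inl (.inl k))) (m : {i : Fin (M + 1) // (t i).isMid = true})
    (hm : 0 < y (.inl (.inr m))) :
    0 ≤ rside t b m.1 1 (P.sL zs (.inl (.inr m)) (y (.inl (.inr m)))) (xx t m.1 (P.pth zs y)) := by
  have h1 := co_mid t b (h.facCo_mid hS hpos m hm)
  rw [← rside_of_mid]
  exact (h.left_gen hS.good (j := .inl (.inr m)) hm (fun q hq => (h1 q hq).1)
    (fun q hq hs => absurd hs (h1 q hq).2)).2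

theorem IsMx.foc_mid_right (h : IsMx (wdat t b) P zs y) (hS : Std t P)
    (hpos : ∀ k : Fin M, 0 < y (.inl (.inl k))) (m : {i : Fin (M + 1) // (t i).isMid = true})
    (hm : 0 < y (.inl (.inr m))) (hx : y (.inl (.inr m)) < P.XM (.inr m)) :
    rside t b m.1 1 (P.sR zs (.inl (.inr m)) (y (.inl (.inr m)))) (xx t m.1 (P.pth zs y)) ≤ 0 := by
  have h1 := co_mid t b (h.facCo_mid hS hpos m hm)
  rw [← rside_of_mid]
  exact (h.right_gen hS.good (j := .inl (.inr m)) hx (fun q hq => (h1 q hq).1)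
    (fun q hq hs => absurd hs (h1 q hq).2)).2

theorem IsMx.facCo_ring (h : IsMx (wdat t b) P zs y) (hS : Std t P)
    (hpos : ∀ k : Fin M, 0 < y (.inl (.inl k))) (v : ZZ t) :
    FacCo (t v.1) (decide (v.1 ≠ 0)) (decide (v.1 ≠ Fin.last M)) 1
      (xx t v.1 (P.pth zs y)) Reg1 := by
  have hv : t v.1 = .ring := by
    have := v.2
    cases hc : t v.1 <;> simp [hc, Typ.isRing] at this ⊢
  obtain ⟨-, -, -, hr⟩ := h.loc hS v.1
  obtain ⟨s0, s2⟩ := h.slots hS hpos v.1
  rw [hv]
  refine G2.facCo_ring (hr hv) ?_ ?_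
  · intro hl
    have hl' : v.1 ≠ 0 := by simpa using hl
    rcases s0 with s0 | s0
    · exact absurd s0.1 hl'
    · refine ⟨s0.2.1, ?_⟩
      have := s0.2.2
      unfold rfac at this
      rwa [hv] at this
  · intro hl
    have hl' : v.1 ≠ Fin.last M := by simpa using hl
    rcases s2 with s0 | s0
    · exact absurd s0.1 hl'
    · refine ⟨s0.2.1, ?_⟩
      have := s0.2.2
      unfold rfac at this
      rwa [hv] at this

/-- **First order conditions for the inner continuous variable.** -/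
theorem IsMx.foc_ring_left (h : IsMx (wdat t b) P zs y) (hS : Std t P)
    (hpos : ∀ k : Fin M, 0 < y (.inl (.inl k))) (v : ZZ t) (hx : -(1 / 2) < y (.inr v)) :
    0 ≤ rside t b v.1 1 (P.sL zs (.inr v) (y (.inr v))) (xx t v.1 (P.pth zs y)) := by
  have h1 := co_ring t b (h.facCo_ring hS hpos v)
  rw [← rside_of_ring]
  exact (h.left_gen hS.good (j := .inr v) hx (fun q hq => (h1 q hq).1)
    (fun q hq hs => absurd hs (h1 q hq).2)).2

theorem IsMx.foc_ring_right (h : IsMx (wdat t b) P zs y) (hS : Std t P)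
    (hpos : ∀ k : Fin M, 0 < y (.inl (.inl k))) (v : ZZ t) (hx : y (.inr v) < 1 / 2) :
    rside t b v.1 1 (P.sR zs (.inr v) (y (.inr v))) (xx t v.1 (P.pth zs y)) ≤ 0 := by
  have h1 := co_ring t b (h.facCo_ring hS hpos v)
  rw [← rside_of_ring]
  exact (h.right_gen hS.good (j := .inr v) hx (fun q hq => (h1 q hq).1)
    (fun q hq hs => absurd hs (h1 q hq).2)).2

/-- **Push-back of the run `i` in the hinge slot `p`**, without the condition on the factors. -/
def Push' (t : Fin (M + 1) → Typ) (b : Fin (M + 1) → ℤ) (i : Fin (M + 1)) (p q : Fin 3)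
    (X Xs : Fin 3 → ℂ) : Prop :=
  ((Xs p).re < (X p).re → |gh (X q).re - gh (Xs q).re| ≤ gh (X p).re - gh (Xs p).re →
    rside t b i p 0 X < rside t b i p 0 Xs) ∧
  ((X p).re < (Xs p).re → |gh (X q).re - gh (Xs q).re| ≤ gh (Xs p).re - gh (X p).re →
    rside t b i p 0 Xs < rside t b i p 0 X)

/-- **Domination on the product of the main paths from local hypotheses**, second form: the factors
are regular at every maximiser, and the caps are closed. -/
theorem dom_of_push' (hS : Std t P)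
    (hone : ∀ h : Fin M, t h.castSucc = .one → t h.succ = .one →
      sgb (b h.castSucc) + sgb (b h.succ) = 0)
    (hin : ∀ k, (wdat t b).form k zs ∈ strip) (hcrit : ∀ i, (wdat t b).dT zs i = 0)
    (hD : ∀ i, P.cl i < (zs (.inl i)).re ∧ (zs (.inl i)).re < P.XM i - P.cr i)
    (hZ : ∀ v, |(zs (.inr v)).re| < 1 / 4)
    (hring : ∀ y, IsMx (wdat t b) P zs y → ∀ v : ZZ t, |y (.inr v)| < 1 / 2)
    (hcap : ∀ y, IsMx (wdat t b) P zs y → (∀ h : Fin M, 0 < y (.inl (.inl h))) →
      ∀ h : Fin M, P.cl (.inl h) ≤ y (.inl (.inl h)) ∧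
        y (.inl (.inl h)) ≤ P.XM (.inl h) - P.cr (.inl h))
    (hinner : ∀ y, IsMx (wdat t b) P zs y →
      (∀ h : Fin M, y (.inl (.inl h)) = (zs (.inl (.inl h))).re) → ∀ j, y j = (zs j).re)
    (hpush : ∀ y, IsMx (wdat t b) P zs y → (∀ h : Fin M, P.cl (.inl h) ≤ y (.inl (.inl h)) ∧
        y (.inl (.inl h)) ≤ P.XM (.inl h) - P.cr (.inl h)) → ∀ h : Fin M,
      Push' t b h.castSucc 2 0 (xx t h.castSucc (P.pth zs y)) (xx t h.castSucc zs) ∧
      Push' t b h.succ 0 2 (xx t h.succ (P.pth zs y)) (xx t h.succ zs))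
    {x : DD t ⊕ ZZ t → ℝ} (hx : x ∈ P.box (ZZ t)) (hne : P.pth zs x ≠ zs) :
    (wdat t b).V (P.pth zs x) < (wdat t b).V zs := by
  refine dom_of_push hS.std hone hS.good (fun i => (hS.XM i).le) hin hcrit hD hZ
    (fun y hy j => hy.lt_one hS j) hring hcap hinner ?_ hx hne
  intro y hy hc h
  have hpos : 0 < y (.inl (.inl h)) := (hS.good (.inl h)).1.trans_le (hc h).1
  obtain ⟨p1, p2⟩ := hpush y hy hc h
  have f1 := hy.rfac_left hS h hpos
  have f2 := hy.rfac_right hS h hpos
  exact ⟨⟨fun a c => ⟨f1, p1.1 a c⟩, fun a c => ⟨f1, p1.2 a c⟩⟩,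
    ⟨fun a c => ⟨f2, p2.1 a c⟩, fun a c => ⟨f2, p2.2 a c⟩⟩⟩

end

end Pool.Agent.Work.MP_b30479_gtS.G2

end

section

/-!
# Domination on the main paths, sum form

At a hinge only the sum of the horizontal derivatives of the two adjacent runs has to be pushed
back.
-/

namespace Pool.Agent.Work.MP_b30479_gtS.G2

open Finset VOL Filter Topology

section

variable {M : ℕ} {t : Fin (M + 1) → Typ} {b : Fin (M + 1) → ℤ}
variable {P : Par (DD t)} {zs : DD t ⊕ ZZ t → ℂ} {y : DD t ⊕ ZZ t → ℝ}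

/-- **Push-back at the hinge `h`, sum form**: if the displacement of the hinge `h` is the largest
one, then the sum of the horizontal derivatives of the two runs has the right sign. -/
def PushS (t : Fin (M + 1) → Typ) (b : Fin (M + 1) → ℤ) (P : Par (DD t))
    (zs : DD t ⊕ ZZ t → ℂ) (y : DD t ⊕ ZZ t → ℝ) (h : Fin M) : Prop :=
  ((zs (.inl (.inl h))).re < y (.inl (.inl h)) →
    (∀ k : Fin M, |gh (y (.inl (.inl k))) - gh (zs (.inl (.inl k))).re| ≤
      gh (y (.inl (.inl h))) - gh (zs (.inl (.inl h))).re) →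
    rside t b h.castSucc 2 0 (xx t h.castSucc (P.pth zs y)) +
      rside t b h.succ 0 0 (xx t h.succ (P.pth zs y)) < 0) ∧
  (y (.inl (.inl h)) < (zs (.inl (.inl h))).re →
    (∀ k : Fin M, |gh (y (.inl (.inl k))) - gh (zs (.inl (.inl k))).re| ≤
      gh (zs (.inl (.inl h))).re - gh (y (.inl (.inl h)))) →
    0 < rside t b h.castSucc 2 0 (xx t h.castSucc (P.pth zs y)) +
      rside t b h.succ 0 0 (xx t h.succ (P.pth zs y)))

/-- **Push-back of the run `i` in the hinge slot `p` with slacks** `f` (upwards) and `g`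
(downwards), functions of the displacement in the gauge. `Push'` is the case `f = g = 0`. -/
def PushQ (t : Fin (M + 1) → Typ) (b : Fin (M + 1) → ℤ) (i : Fin (M + 1)) (p q : Fin 3)
    (X Xs : Fin 3 → ℂ) (f g : ℝ → ℝ) : Prop :=
  ((Xs p).re < (X p).re → |gh (X q).re - gh (Xs q).re| ≤ gh (X p).re - gh (Xs p).re →
    rside t b i p 0 X < rside t b i p 0 Xs + f (gh (X p).re - gh (Xs p).re)) ∧
  ((X p).re < (Xs p).re → |gh (X q).re - gh (Xs q).re| ≤ gh (Xs p).re - gh (X p).re →
    rside t b i p 0 Xs < rside t b i p 0 X + g (gh (Xs p).re - gh (X p).re))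

theorem Push'.q {i : Fin (M + 1)} {p q : Fin 3} {X Xs : Fin 3 → ℂ}
    (h : Push' t b i p q X Xs) {f g : ℝ → ℝ} (hf : ∀ m, 0 < m → 0 ≤ f m)
    (hg : ∀ m, 0 < m → 0 ≤ g m) (h0 : (X p).re ∈ Set.Ioo (0 : ℝ) 1)
    (h1 : (Xs p).re ∈ Set.Ioo (0 : ℝ) 1) : PushQ t b i p q X Xs f g := by
  refine ⟨fun a c => ?_, fun a c => ?_⟩
  · have := hf _ (sub_pos.2 (strictMonoOn_gh h1 h0 a))
    linarith [h.1 a c]
  · have := hg _ (sub_pos.2 (strictMonoOn_gh h0 h1 a))
    linarith [h.2 a c]

/-- the sum of the two sides at the saddle vanishes -/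
theorem side_sum_zero (hin : ∀ k, (wdat t b).form k zs ∈ strip)
    (hcrit : ∀ i, (wdat t b).dT zs i = 0) (h : Fin M) :
    rside t b h.castSucc 2 0 (xx t h.castSucc zs) + rside t b h.succ 0 0 (xx t h.succ zs) = 0 := by
  rw [← rside_of_hinge, zero_mul, add_zero]
  exact DV_crit _ hin hcrit _

/-- the displacements of the hinges of a run are bounded by the largest one -/
theorem gauge_le (P : Par (DD t)) (zs : DD t ⊕ ZZ t → ℂ) (y : DD t ⊕ ZZ t → ℝ) {R : ℝ}
    (hR : 0 ≤ R) (hj : ∀ k : Fin M, |gh (y (.inl (.inl k))) - gh (zs (.inl (.inl k))).re| ≤ R)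
    (i : Fin (M + 1)) :
    |gh (xx t i (P.pth zs y) 0).re - gh (xx t i zs 0).re| ≤ R ∧
      |gh (xx t i (P.pth zs y) 2).re - gh (xx t i zs 2).re| ≤ R := by
  constructor
  · rcases Fin.eq_zero_or_eq_succ i with h | ⟨h, rfl⟩
    · subst h
      rw [xx_left_zero, xx_left_zero, sub_self, abs_zero]
      exact hR
    · rw [xx_left, xx_left, P.pth_eq, P.pp_re]
      exact hj h
  · rcases Fin.eq_castSucc_or_eq_last i with ⟨h, rfl⟩ | h
    · rw [xx_right, xx_right, P.pth_eq, P.pp_re]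
      exact hj h
    · subst h
      rw [xx_right_last, xx_right_last, sub_self, abs_zero]
      exact hR

/-- **The sum form from the two runs, with slacks which cancel.** -/
theorem PushS.of_q (hin : ∀ k, (wdat t b).form k zs ∈ strip)
    (hcrit : ∀ i, (wdat t b).dT zs i = 0) {h : Fin M} {f g f' g' : ℝ → ℝ}
    (h1 : PushQ t b h.castSucc 2 0 (xx t h.castSucc (P.pth zs y)) (xx t h.castSucc zs) f g)
    (h2 : PushQ t b h.succ 0 2 (xx t h.succ (P.pth zs y)) (xx t h.succ zs) f' g')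
    (hf : f (gh (y (.inl (.inl h))) - gh (zs (.inl (.inl h))).re) +
      f' (gh (y (.inl (.inl h))) - gh (zs (.inl (.inl h))).re) ≤ 0)
    (hg : g (gh (zs (.inl (.inl h))).re - gh (y (.inl (.inl h)))) +
      g' (gh (zs (.inl (.inl h))).re - gh (y (.inl (.inl h)))) ≤ 0) :
    PushS t b P zs y h := by
  have e1 : (xx t h.castSucc (P.pth zs y) 2).re = y (.inl (.inl h)) := by
    rw [xx_right, P.pth_eq, P.pp_re]
  have e2 : (xx t h.succ (P.pth zs y) 0).re = y (.inl (.inl h)) := by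
    rw [xx_left, P.pth_eq, P.pp_re]
  have e3 : (xx t h.castSucc zs 2) = zs (.inl (.inl h)) := xx_right t h zs
  have e4 : (xx t h.succ zs 0) = zs (.inl (.inl h)) := xx_left t h zs
  have hs := side_sum_zero hin hcrit h
  refine ⟨fun hlt hj => ?_, fun hlt hj => ?_⟩
  · have hR := (abs_nonneg _).trans (hj h)
    have hg := gauge_le P zs y hR hj
    have l1 := h1.1 (by rw [e1, e3]; exact hlt) (by rw [e1, e3]; exact (hg h.castSucc).1)
    have l2 := h2.1 (by rw [e2, e4]; exact hlt) (by rw [e2, e4]; exact (hg h.succ).2)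
    rw [e1, e3] at l1
    rw [e2, e4] at l2
    linarith
  · have hR := (abs_nonneg _).trans (hj h)
    have hg := gauge_le P zs y hR hj
    have l1 := h1.2 (by rw [e1, e3]; exact hlt) (by rw [e1, e3]; exact (hg h.castSucc).1)
    have l2 := h2.2 (by rw [e2, e4]; exact hlt) (by rw [e2, e4]; exact (hg h.succ).2)
    rw [e1, e3] at l1
    rw [e2, e4] at l2
    linarith

/-- the sum form from the push-back of both runs -/
theorem PushS.of_push (hin : ∀ k, (wdat t b).form k zs ∈ strip)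
    (hcrit : ∀ i, (wdat t b).dT zs i = 0) {h : Fin M}
    (h1 : Push' t b h.castSucc 2 0 (xx t h.castSucc (P.pth zs y)) (xx t h.castSucc zs))
    (h2 : Push' t b h.succ 0 2 (xx t h.succ (P.pth zs y)) (xx t h.succ zs)) :
    PushS t b P zs y h := by
  refine PushS.of_q (f := fun _ => 0) (g := fun _ => 0) (f' := fun _ => 0) (g' := fun _ => 0)
    hin hcrit ⟨fun a c => ?_, fun a c => ?_⟩ ⟨fun a c => ?_, fun a c => ?_⟩ (by simp) (by simp)
  · rw [add_zero]; exact h1.1 a c
  · rw [add_zero]; exact h1.2 a c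
  · rw [add_zero]; exact h2.1 a c
  · rw [add_zero]; exact h2.2 a c

/-- **Domination on the product of the main paths from local hypotheses, sum form.** -/
theorem dom_of_pushS (hS : Std t P)
    (hone : ∀ h : Fin M, t h.castSucc = .one → t h.succ = .one →
      sgb (b h.castSucc) + sgb (b h.succ) = 0)
    (hD : ∀ i, P.cl i < (zs (.inl i)).re ∧ (zs (.inl i)).re < P.XM i - P.cr i)
    (hZ : ∀ v, |(zs (.inr v)).re| < 1 / 4)
    (hring : ∀ y, IsMx (wdat t b) P zs y → ∀ v : ZZ t, |y (.inr v)| < 1 / 2)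
    (hcap : ∀ y, IsMx (wdat t b) P zs y → (∀ h : Fin M, 0 < y (.inl (.inl h))) →
      ∀ h : Fin M, P.cl (.inl h) ≤ y (.inl (.inl h)) ∧
        y (.inl (.inl h)) ≤ P.XM (.inl h) - P.cr (.inl h))
    (hinner : ∀ y, IsMx (wdat t b) P zs y →
      (∀ h : Fin M, y (.inl (.inl h)) = (zs (.inl (.inl h))).re) → ∀ j, y j = (zs j).re)
    (hpush : ∀ y, IsMx (wdat t b) P zs y → (∀ h : Fin M, P.cl (.inl h) ≤ y (.inl (.inl h)) ∧
        y (.inl (.inl h)) ≤ P.XM (.inl h) - P.cr (.inl h)) → ∀ h : Fin M, PushS t b P zs y h)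
    {x : DD t ⊕ ZZ t → ℝ} (hx : x ∈ P.box (ZZ t)) (hne : P.pth zs x ≠ zs) :
    (wdat t b).V (P.pth zs x) < (wdat t b).V zs := by
  have hP := hS.good
  have hXM : ∀ i, 0 < P.cr i := fun i => (hP i).2.1
  have hXM' : ∀ i, P.XM i ≤ 1 := fun i => (hS.XM i).le
  have hJ : ∀ j ∈ Set.range (fun h : Fin M => (Sum.inl (Sum.inl h) : DD t ⊕ ZZ t)),
      ∃ h : Fin M, j = .inl (.inl h) := by
    rintro j ⟨h, rfl⟩
    exact ⟨h, rfl⟩
  have hcap1 : ∀ y, IsMx (wdat t b) P zs y → (∀ i ∈ Set.range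
      (fun h : Fin M => (Sum.inl (Sum.inl h) : DD t ⊕ ZZ t)), plo (DD t) (ZZ t) i < y i) →
      ∀ h : Fin M, P.cl (.inl h) ≤ y (.inl (.inl h)) ∧
        y (.inl (.inl h)) ≤ P.XM (.inl h) - P.cr (.inl h) :=
    fun y hy hpos => hcap y hy fun h => hpos _ ⟨h, rfl⟩
  refine path_dom (wdat t b) hP hD hZ (Set.range fun h : Fin M => (Sum.inl (Sum.inl h) : DD t ⊕ ZZ t))
    (Set.range fun h : Fin M => (Sum.inl (Sum.inl h) : DD t ⊕ ZZ t)) (g := fun _ => gh)
    (C := fun _ => Set.Ioo 0 1) (fun j _ => strictMonoOn_gh) ?_ ?_ ?_ ?_ ?_ ?_ hx hne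
  · intro y hy hpos j hj
    obtain ⟨h, rfl⟩ := hJ j hj
    exact ⟨hpos _ hj, hy.lt_one hS _⟩
  · intro j hj
    obtain ⟨h, rfl⟩ := hJ j hj
    have h1 := hD (.inl h)
    exact ⟨(hP (.inl h)).1.trans h1.1, by linarith [h1.2, hXM (.inl h), hXM' (.inl h)]⟩
  · intro y hy j hj hy0
    obtain ⟨h, rfl⟩ := hJ j hj
    exact wall_hinge t b hS.std hone hP zs hy.1 (fun j => hy.lt_one hS j) (hring y hy) h hy0
  · intro y hy hpos hj
    exact hinner y hy fun h => hj _ ⟨h, rfl⟩
  · intro y hy hpos i hi hlt hj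
    obtain ⟨h, rfl⟩ := hJ i hi
    have hc := hcap1 y hy hpos
    have hsl : P.sL zs (.inl (.inl h)) (y (.inl (.inl h))) = 0 :=
      sL_flat zs _ ((hD (.inl h)).1.trans hlt) (hc h).2
    have h0 : 0 < y (.inl (.inl h)) := (hP (.inl h)).1.trans_le (hc h).1
    have l := (hpush y hy hc h).1 hlt fun k => hj _ ⟨k, rfl⟩
    refine ⟨forms_hinge t b (hy.rfac_left hS h h0) (hy.rfac_right hS h h0),
      fun hcon => absurd hsl hcon, ?_⟩
    rw [hsl, rside_of_hinge]
    exact l
  · intro y hy hpos i hi hlt hj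
    obtain ⟨h, rfl⟩ := hJ i hi
    have hc := hcap1 y hy hpos
    have hsl : P.sR zs (.inl (.inl h)) (y (.inl (.inl h))) = 0 :=
      sR_flat zs _ (hc h).1 (hlt.trans (hD (.inl h)).2)
    have h0 : 0 < y (.inl (.inl h)) := (hP (.inl h)).1.trans_le (hc h).1
    have l := (hpush y hy hc h).2 hlt fun k => hj _ ⟨k, rfl⟩
    refine ⟨forms_hinge t b (hy.rfac_left hS h h0) (hy.rfac_right hS h h0),
      fun hcon => absurd hsl hcon, ?_⟩
    rw [hsl, rside_of_hinge]
    exact l

end

end Pool.Agent.Work.MP_b30479_gtS.G2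

end

section

/-!
# Words: from the sides of the runs to the domination on the main paths
-/

namespace Pool.Agent.Work.MP_b30479_gtS.G2

open Finset VOL Filter Topology

/-! ### ordering the hinges -/

/-- if the least value of `f` is never below `θ`, then no value is -/
theorem left_phase {n : ℕ} {f : Fin n → ℝ} {θ : ℝ}
    (h : ∀ i, f i < θ → (∀ j, f i ≤ f j) → False) (i : Fin n) : θ ≤ f i := by
  have : Nonempty (Fin n) := ⟨i⟩
  obtain ⟨k, hk⟩ := Finite.exists_min f
  by_contra hi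
  push Not at hi
  exact h k ((hk i).trans_lt hi) hk

theorem right_phase {n : ℕ} {f : Fin n → ℝ} {θ : ℝ}
    (h : ∀ i, θ < f i → (∀ j, f j ≤ f i) → False) (i : Fin n) : f i ≤ θ := by
  have : Nonempty (Fin n) := ⟨i⟩
  obtain ⟨k, hk⟩ := Finite.exists_max f
  by_contra hi
  push Not at hi
  exact h k (hi.trans_le (hk i)) hk

/-- several phases: the values `θ i` depend on the hinge -/
theorem left_phase' {n : ℕ} {y c : Fin n → ℝ} (hc : ∀ i, 0 < c i) {θ : ℝ}
    (h : ∀ i, y i < θ * c i → (∀ j, y i / c i ≤ y j / c j) → False) (i : Fin n) :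
    θ * c i ≤ y i := by
  have := left_phase (f := fun i => y i / c i) (θ := θ)
    (fun i hi hj => h i ((div_lt_iff₀ (hc i)).1 hi) hj) i
  exact (le_div_iff₀ (hc i)).1 this

section
variable {M : ℕ} {t : Fin (M + 1) → Typ} {b : Fin (M + 1) → ℤ}
variable {P : Par (DD t)} {zs : DD t ⊕ ZZ t → ℂ} {y : DD t ⊕ ZZ t → ℝ}

/-- **Left ramp of a hinge between runs of opposite signs.**  `c μ` is a shift which cancels. -/
theorem IsMx.left_alt (h : IsMx (wdat t b) P zs y) (hP : P.Good) (k : Fin M)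
    (hb : b k.castSucc * b k.succ < 0)
    (hx : y (.inl (.inl k)) < P.XM (.inl k))
    (hf1 : rfac t k.castSucc 2 (xx t k.castSucc (P.pth zs y))
      (QQm (P.sR zs (.inl (.inl k)) (y (.inl (.inl k))))))
    (hf2 : rfac t k.succ 0 (xx t k.succ (P.pth zs y))
      (QQm (P.sR zs (.inl (.inl k)) (y (.inl (.inl k))))))
    {c e1 e2 : ℝ} (he : 0 < e1 + e2)
    (h1 : e1 ≤ rside t b k.castSucc 2 (P.sR zs (.inl (.inl k)) (y (.inl (.inl k))))
        (xx t k.castSucc (P.pth zs y)) +
      c * ofs (b k.castSucc) (P.sR zs (.inl (.inl k)) (y (.inl (.inl k)))))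
    (h2 : e2 ≤ rside t b k.succ 0 (P.sR zs (.inl (.inl k)) (y (.inl (.inl k))))
        (xx t k.succ (P.pth zs y)) +
      c * ofs (b k.succ) (P.sR zs (.inl (.inl k)) (y (.inl (.inl k))))) : False := by
  have h3 := h.hinge_right hP k hx hf1 hf2
  rw [ofs_opp hb] at h2
  linarith only [he, h1, h2, h3]

/-- **Right ramp of a hinge between runs of opposite signs.** -/
theorem IsMx.right_alt (h : IsMx (wdat t b) P zs y) (hP : P.Good) (k : Fin M)
    (hb : b k.castSucc * b k.succ < 0)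
    (hx : 0 < y (.inl (.inl k)))
    (hf1 : rfac t k.castSucc 2 (xx t k.castSucc (P.pth zs y))
      (QQm (P.sL zs (.inl (.inl k)) (y (.inl (.inl k))))))
    (hf2 : rfac t k.succ 0 (xx t k.succ (P.pth zs y))
      (QQm (P.sL zs (.inl (.inl k)) (y (.inl (.inl k))))))
    {c e1 e2 : ℝ} (he : e1 + e2 < 0)
    (h1 : rside t b k.castSucc 2 (P.sL zs (.inl (.inl k)) (y (.inl (.inl k))))
        (xx t k.castSucc (P.pth zs y)) +
      c * ofs (b k.castSucc) (P.sL zs (.inl (.inl k)) (y (.inl (.inl k)))) ≤ e1)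
    (h2 : rside t b k.succ 0 (P.sL zs (.inl (.inl k)) (y (.inl (.inl k))))
        (xx t k.succ (P.pth zs y)) +
      c * ofs (b k.succ) (P.sL zs (.inl (.inl k)) (y (.inl (.inl k)))) ≤ e2) : False := by
  have h3 := h.hinge_left hP k hx hf1 hf2
  rw [ofs_opp hb] at h2
  linarith only [he, h1, h2, h3]

/-- **Hinge between runs of equal signs**: both sides have the right sign. -/
theorem IsMx.left_same (h : IsMx (wdat t b) P zs y) (hP : P.Good) (k : Fin M)
    (hx : y (.inl (.inl k)) < P.XM (.inl k))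
    (hf1 : rfac t k.castSucc 2 (xx t k.castSucc (P.pth zs y))
      (QQm (P.sR zs (.inl (.inl k)) (y (.inl (.inl k))))))
    (hf2 : rfac t k.succ 0 (xx t k.succ (P.pth zs y))
      (QQm (P.sR zs (.inl (.inl k)) (y (.inl (.inl k))))))
    {e1 e2 : ℝ} (he : 0 < e1 + e2)
    (h1 : e1 ≤ rside t b k.castSucc 2 (P.sR zs (.inl (.inl k)) (y (.inl (.inl k))))
        (xx t k.castSucc (P.pth zs y)))
    (h2 : e2 ≤ rside t b k.succ 0 (P.sR zs (.inl (.inl k)) (y (.inl (.inl k))))
        (xx t k.succ (P.pth zs y))) : False := by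
  have h3 := h.hinge_right hP k hx hf1 hf2
  linarith only [he, h1, h2, h3]

theorem IsMx.right_same (h : IsMx (wdat t b) P zs y) (hP : P.Good) (k : Fin M)
    (hx : 0 < y (.inl (.inl k)))
    (hf1 : rfac t k.castSucc 2 (xx t k.castSucc (P.pth zs y))
      (QQm (P.sL zs (.inl (.inl k)) (y (.inl (.inl k))))))
    (hf2 : rfac t k.succ 0 (xx t k.succ (P.pth zs y))
      (QQm (P.sL zs (.inl (.inl k)) (y (.inl (.inl k))))))
    {e1 e2 : ℝ} (he : e1 + e2 < 0)
    (h1 : rside t b k.castSucc 2 (P.sL zs (.inl (.inl k)) (y (.inl (.inl k))))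
        (xx t k.castSucc (P.pth zs y)) ≤ e1)
    (h2 : rside t b k.succ 0 (P.sL zs (.inl (.inl k)) (y (.inl (.inl k))))
        (xx t k.succ (P.pth zs y)) ≤ e2) : False := by
  have h3 := h.hinge_left hP k hx hf1 hf2
  linarith only [he, h1, h2, h3]

/-! ### slopes on the ramps -/

theorem sR_left {D Z : Type} {P : Par D} (zs : D ⊕ Z → ℂ) (i : D) {x : ℝ} (h : x < P.cl i) :
    P.sR zs (.inl i) x = (zs (.inl i)).im / P.cl i := by
  simp only [Par.sR]
  rw [if_pos h]
  ring

theorem sL_right {D Z : Type} {P : Par D} (hP : P.Good) (zs : D ⊕ Z → ℂ) (i : D) {x : ℝ}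
    (h : P.XM i - P.cr i < x) :
    P.sL zs (.inl i) x = -((zs (.inl i)).im / P.cr i) := by
  obtain ⟨hc, hc', hb⟩ := hP i
  simp only [Par.sL]
  rw [if_neg (by linarith only [h, hb]), if_neg (by linarith only [h])]
  ring

theorem sL_left {D Z : Type} {P : Par D} (zs : D ⊕ Z → ℂ) (i : D) {x : ℝ} (h : x ≤ P.cl i) :
    P.sL zs (.inl i) x = (zs (.inl i)).im / P.cl i := by
  simp only [Par.sL]
  rw [if_pos h]
  ring

theorem sR_right {D Z : Type} {P : Par D} (hP : P.Good) (zs : D ⊕ Z → ℂ) (i : D) {x : ℝ}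
    (h : P.XM i - P.cr i ≤ x) :
    P.sR zs (.inl i) x = -((zs (.inl i)).im / P.cr i) := by
  obtain ⟨hc, hc', hb⟩ := hP i
  simp only [Par.sR]
  rw [if_neg (by linarith only [h, hb]), if_neg (by linarith only [h])]
  ring

/-- the path point in the own frame on the left ramp: `x + i μ x` with `μ = T / cl` -/
theorem ofr_pp_left {D Z : Type} {P : Par D} (hP : P.Good) (zs : D ⊕ Z → ℂ) (i : D) (b : ℤ) {x : ℝ}
    (h0 : 0 ≤ x) (h1 : x ≤ P.cl i) :
    ofr b (P.pp zs (.inl i) x) =
      (x : ℂ) + ((ofs b (zs (.inl i)).im * (x / P.cl i) : ℝ) : ℂ) * Complex.I := by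
  rw [pp_left hP zs i h0 h1, ofr_eq]
  congr 3
  · simp
  · simp [ofs_mul']

theorem ofr_pp_flat {D Z : Type} {P : Par D} (hP : P.Good) (zs : D ⊕ Z → ℂ) (i : D) (b : ℤ) {x : ℝ}
    (h0 : P.cl i ≤ x) (h1 : x ≤ P.XM i - P.cr i) :
    ofr b (P.pp zs (.inl i) x) = (x : ℂ) + ((ofs b (zs (.inl i)).im : ℝ) : ℂ) * Complex.I := by
  rw [pp_flat hP zs i h0 h1, ofr_eq]
  congr 3
  · simp
  · simp

theorem ofr_pp_right {D Z : Type} {P : Par D} (hP : P.Good) (zs : D ⊕ Z → ℂ) (i : D) (b : ℤ) {x : ℝ}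
    (h0 : P.XM i - P.cr i ≤ x) (h1 : x ≤ P.XM i) :
    ofr b (P.pp zs (.inl i) x) =
      (x : ℂ) + ((ofs b (zs (.inl i)).im * ((P.XM i - x) / P.cr i) : ℝ) : ℂ) * Complex.I := by
  rw [pp_right hP zs i h0 h1, ofr_eq]
  congr 3
  · simp
  · simp [ofs_mul']

/-- the height on the path is a fraction of the height of the saddle point -/
theorem hgt_frac {D Z : Type} {P : Par D} (hP : P.Good) (zs : D ⊕ Z → ℂ) (i : D) {x : ℝ}
    (h0 : 0 ≤ x) (h1 : x ≤ P.XM i) :
    ∃ τ : ℝ, 0 ≤ τ ∧ τ ≤ 1 ∧ P.hgt zs (.inl i) x = (zs (.inl i)).im * τ := by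
  refine ⟨tr 0 (P.XM i) (P.cl i) (P.cr i) x, ?_, ?_, rfl⟩
  · unfold tr
    exact le_max_left _ _
  · unfold tr
    exact max_le zero_le_one (min_le_left _ _)

end

end Pool.Agent.Work.MP_b30479_gtS.G2

end

section

/-!
# The saddle point is on the flat parts of the paths
-/

namespace Pool.Agent.Work.MP_b30479_gtS.G2

namespace SR

/-- consistency of the two tables at the hinges -/
theorem hbox_flat (P A B Q : Cl) (s : Bool) :
    (hp P A B Q).cl < (hbox A B s).x0 ∧ (hbox A B s).x1 < (hp P A B Q).XM - (hp P A B Q).cr := by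
  cases A <;> cases B <;> cases s <;> simp only [hp, hp1, hbox] <;> (try split_ifs) <;> norm_num

theorem mbox_mp (A B : Cl) (hB : B ≠ .threeE) :
    (mp B).cl < (mbox A).x0 ∧ (mbox A).x1 < (mp B).XM - (mp B).cr := by
  cases B <;> first | exact absurd rfl hB | (cases A <;> norm_num [mbox, mp])

theorem mboxE_mp : (mp .threeE).cl < mboxE.x0 ∧ mboxE.x1 < (mp .threeE).XM - (mp .threeE).cr := by
  norm_num [mboxE, mp]

theorem zbox_flat (n : ℕ) (e : Bool) : -(1 / 4) < (zbox n e).x0 ∧ (zbox n e).x1 < 1 / 4 := by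
  unfold zbox
  split_ifs <;> norm_num

variable {M : ℕ} {b : Fin (M + 1) → ℤ} {zs : DD (tyW b) ⊕ ZZ (tyW b) → ℂ}

theorem tyW_mid {i : Fin (M + 1)} (h : (tyW b i).isMid = true) : (b i).natAbs = 3 := by
  unfold tyW at h
  split_ifs at h with h1 h2 h3 h4
  · simp [Typ.isMid] at h
  · simp [Typ.isMid] at h
  · exact h3
  · exact h3
  · simp [Typ.isMid] at h

theorem clsW_mid {i : Fin (M + 1)} (h : (tyW b i).isMid = true) :
    clsW b i = if isEnd i then .threeE else .three := by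
  have h1 := tyW_mid h
  unfold clsW cls
  rw [if_neg (by omega), if_neg (by omega), if_pos h1]

theorem Loc.flatD (hL : Loc b zs) (i : DD (tyW b)) :
    (wpar b zs).cl i < (zs (.inl i)).re ∧
      (zs (.inl i)).re < (wpar b zs).XM i - (wpar b zs).cr i := by
  rcases i with h | m
  · have h1 := hL.hinge h
    have h2 := hbox_flat (outL b h) (clsW b h.castSucc) (clsW b h.succ) (outR b h) (ssW b h)
    have h3 := h1.1
    have h4 := h1.2.1
    rw [ofr_re] at h3 h4
    exact ⟨h2.1.trans_le h3, h4.trans_lt h2.2⟩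
  · by_cases he : isEnd m.1 = true
    · have h1 := hL.midE m he
      have h3 := h1.1
      have h4 := h1.2.1
      rw [ofr_re] at h3 h4
      have e : clsW b m.1 = .threeE := by
        have := clsW_mid m.2
        rwa [if_pos he] at this
      have h2 := mboxE_mp
      rw [← e] at h2
      exact ⟨h2.1.trans_le h3, h4.trans_lt h2.2⟩
    · have he' : isEnd m.1 = false := by simpa using he
      have hne : m.1 ≠ 0 := by
        intro h0
        apply he
        unfold isEnd
        simp [h0]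
      obtain ⟨k, hk⟩ := Fin.eq_succ_of_ne_zero hne
      have h1 := hL.mid m he' k hk.symm
      have h3 := h1.1
      have h4 := h1.2.1
      rw [ofr_re] at h3 h4
      have e : clsW b m.1 = .three := by
        have := clsW_mid m.2
        rwa [if_neg he] at this
      have h2 := mbox_mp (clsW b k.castSucc) .three (by decide)
      rw [← e] at h2
      exact ⟨h2.1.trans_le h3, h4.trans_lt h2.2⟩

theorem Loc.flatZ (hL : Loc b zs) (v : ZZ (tyW b)) : |(zs (.inr v)).re| < 1 / 4 := by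
  have h1 := hL.ring v
  have h2 := zbox_flat (b v.1).natAbs (isEnd v.1)
  have h3 := h1.1
  have h4 := h1.2.1
  rw [ofz_re] at h3 h4
  rw [← abs_ofs (b v.1), abs_lt]
  exact ⟨h2.1.trans_le h3, h4.trans_lt h2.2⟩

theorem std_wpar (b : Fin (M + 1) → ℤ) (zs : DD (tyW b) ⊕ ZZ (tyW b) → ℂ) :
    Std (tyW b) (wpar b zs) := ⟨tyW_std b, wpar_good b zs, wpar_XM b zs⟩

end SR

end Pool.Agent.Work.MP_b30479_gtS.G2

end

section

/-!
# Rounds: from side inequalities to the caps of a maximiser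

A side inequality at the hinge `h` bounds the derivative of one of the two adjacent regions along
the ramp, up to a shift `c μ` which cancels between regions of opposite signs.  `eL A B` is the bound
for the region of class `A` next to a region of class `B` on left ramps, `eR A B` on right ramps.
-/

namespace Pool.Agent.Work.MP_b30479_gtS.G2

open Finset VOL Filter Topology

namespace SR

variable {M : ℕ} {b : Fin (M + 1) → ℤ} {zs : DD (tyW b) ⊕ ZZ (tyW b) → ℂ}
variable {y : DD (tyW b) ⊕ ZZ (tyW b) → ℝ}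

/-- local variables of the region `i` at the point `y` of the paths -/
noncomputable def Xw (b : Fin (M + 1) → ℤ) (zs : DD (tyW b) ⊕ ZZ (tyW b) → ℂ)
    (y : DD (tyW b) ⊕ ZZ (tyW b) → ℝ) (i : Fin (M + 1)) : Fin 3 → ℂ :=
  xx (tyW b) i ((wpar b zs).pth zs y)

/-- side of the region `i` in the slot `p` along the slope `m` -/
noncomputable def Sw (b : Fin (M + 1) → ℤ) (zs : DD (tyW b) ⊕ ZZ (tyW b) → ℂ)
    (y : DD (tyW b) ⊕ ZZ (tyW b) → ℝ) (i : Fin (M + 1)) (p : Fin 3) (m : ℝ) : ℝ :=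
  rside (tyW b) b i p m (Xw b zs y i)

/-- a bound for the sides at the hinge `h`, along the slope `m`, with the shift `c`: lower bounds -/
def LSide (b : Fin (M + 1) → ℤ) (zs : DD (tyW b) ⊕ ZZ (tyW b) → ℂ)
    (y : DD (tyW b) ⊕ ZZ (tyW b) → ℝ) (h : Fin M) (m c e1 e2 : ℝ) : Prop :=
  e1 ≤ Sw b zs y h.castSucc 2 m + c * ofs (b h.castSucc) m ∧
    e2 ≤ Sw b zs y h.succ 0 m + c * ofs (b h.succ) m

/-- upper bounds -/
def RSide (b : Fin (M + 1) → ℤ) (zs : DD (tyW b) ⊕ ZZ (tyW b) → ℂ)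
    (y : DD (tyW b) ⊕ ZZ (tyW b) → ℝ) (h : Fin M) (m c e1 e2 : ℝ) : Prop :=
  Sw b zs y h.castSucc 2 m + c * ofs (b h.castSucc) m ≤ e1 ∧
    Sw b zs y h.succ 0 m + c * ofs (b h.succ) m ≤ e2

/-- the hinge parameters of the word -/
noncomputable def wcl (b : Fin (M + 1) → ℤ) (h : Fin M) : ℝ :=
  (hp (outL b h) (clsW b h.castSucc) (clsW b h.succ) (outR b h)).cl
noncomputable def wcr (b : Fin (M + 1) → ℤ) (h : Fin M) : ℝ :=
  (hp (outL b h) (clsW b h.castSucc) (clsW b h.succ) (outR b h)).cr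
noncomputable def wXM (b : Fin (M + 1) → ℤ) (h : Fin M) : ℝ :=
  (hp (outL b h) (clsW b h.castSucc) (clsW b h.succ) (outR b h)).XM

theorem wcl_eq (h : Fin M) : (wpar b zs).cl (.inl h) = wcl b h := rfl
theorem wcr_eq (h : Fin M) : (wpar b zs).cr (.inl h) = wcr b h := rfl
theorem wXM_eq (h : Fin M) : (wpar b zs).XM (.inl h) = wXM b h := rfl

theorem wcl_pos (h : Fin M) : 0 < wcl b h := (hp_good _ _ _ _).1
theorem wcr_pos (h : Fin M) : 0 < wcr b h := (hp_good _ _ _ _).2.1
theorem w_sum (h : Fin M) : wcl b h + wcr b h < wXM b h := (hp_good _ _ _ _).2.2.1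

/-- signs at a hinge -/
theorem sign_cases (hb : ClassW b) (h : Fin M) :
    b h.castSucc * b h.succ < 0 ∨ (0 < b h.castSucc * b h.succ ∧ clsW b h.castSucc = .ring ∧
      clsW b h.succ = .ring) := by
  have h1 := hb.ne h.castSucc
  have h2 := hb.ne h.succ
  rcases lt_trichotomy (b h.castSucc * b h.succ) 0 with h3 | h3 | h3
  · exact Or.inl h3
  · exact absurd (mul_eq_zero.1 h3) (by tauto)
  · right
    obtain ⟨a1, a2⟩ := hb.same h h3
    refine ⟨h3, ?_, ?_⟩ <;> unfold clsW cls <;>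
      rw [if_neg (by omega), if_neg (by omega), if_neg (by omega)]

/-- **Lower bounds for the sides exclude the point.**  For equal signs the shift has to be `0`. -/
theorem lside_false (hb : ClassW b) (hy : IsMx (wdat (tyW b) b) (wpar b zs) zs y) (h : Fin M)
    (h0 : 0 < y (.inl (.inl h))) (h1 : y (.inl (.inl h)) < wXM b h) {c e1 e2 : ℝ}
    (hc : 0 < b h.castSucc * b h.succ → c = 0) (he : 0 < e1 + e2)
    (hs : LSide b zs y h ((wpar b zs).sR zs (.inl (.inl h)) (y (.inl (.inl h)))) c e1 e2) :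
    False := by
  have h3 := hy.foc_right (std_wpar b zs) h h0 h1
  obtain ⟨s1, s2⟩ := hs
  unfold Sw Xw at s1 s2
  rcases sign_cases hb h with h4 | ⟨h4, -, -⟩
  · rw [ofs_opp h4] at s2
    linarith only [he, h3, s1, s2]
  · rw [hc h4] at s1 s2
    linarith only [he, h3, s1, s2]

/-- **Upper bounds for the sides exclude the point.** -/
theorem rside_false (hb : ClassW b) (hy : IsMx (wdat (tyW b) b) (wpar b zs) zs y) (h : Fin M)
    (h0 : 0 < y (.inl (.inl h))) {c e1 e2 : ℝ}
    (hc : 0 < b h.castSucc * b h.succ → c = 0) (he : e1 + e2 < 0)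
    (hs : RSide b zs y h ((wpar b zs).sL zs (.inl (.inl h)) (y (.inl (.inl h)))) c e1 e2) :
    False := by
  have h3 := (hy.foc_left (std_wpar b zs) h h0).2
  obtain ⟨s1, s2⟩ := hs
  unfold Sw Xw at s1 s2
  rcases sign_cases hb h with h4 | ⟨h4, -, -⟩
  · rw [ofs_opp h4] at s2
    linarith only [he, h3, s1, s2]
  · rw [hc h4] at s1 s2
    linarith only [he, h3, s1, s2]

/-- slope on the left ramp -/
theorem w_sR_left (h : Fin M) {x : ℝ} (hx : x < wcl b h) :
    (wpar b zs).sR zs (.inl (.inl h)) x = (zs (.inl (.inl h))).im / wcl b h :=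
  sR_left zs _ hx

/-- slope on the right ramp -/
theorem w_sL_right (h : Fin M) {x : ℝ} (hx : wXM b h - wcr b h < x) :
    (wpar b zs).sL zs (.inl (.inl h)) x = -((zs (.inl (.inl h))).im / wcr b h) :=
  sL_right (wpar_good b zs) zs _ hx

theorem w_sR_flat (h : Fin M) {x : ℝ} (hx : wcl b h ≤ x) (hx' : x < wXM b h - wcr b h) :
    (wpar b zs).sR zs (.inl (.inl h)) x = 0 := sR_flat zs _ hx hx'

theorem w_sL_flat (h : Fin M) {x : ℝ} (hx : wcl b h < x) (hx' : x ≤ wXM b h - wcr b h) :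
    (wpar b zs).sL zs (.inl (.inl h)) x = 0 := sL_flat zs _ hx hx'

/-- **A left round**: all hinges satisfy `θ cl ≤ y`.  The side inequalities are needed only at the
hinge with the least `y / cl`. -/
theorem round_left (hb : ClassW b) (hy : IsMx (wdat (tyW b) b) (wpar b zs) zs y)
    (hpos : ∀ h : Fin M, 0 < y (.inl (.inl h))) {θ : ℝ} (hθ : θ ≤ 1)
    (hside : ∀ h : Fin M, y (.inl (.inl h)) < θ * wcl b h →
      (∀ j : Fin M, y (.inl (.inl h)) / wcl b h ≤ y (.inl (.inl j)) / wcl b j) →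
      ∃ c e1 e2 : ℝ, (0 < b h.castSucc * b h.succ → c = 0) ∧ 0 < e1 + e2 ∧
        LSide b zs y h ((zs (.inl (.inl h))).im / wcl b h) c e1 e2) (h : Fin M) :
    θ * wcl b h ≤ y (.inl (.inl h)) := by
  refine left_phase' (y := fun h => y (.inl (.inl h))) (c := wcl b) (fun h => wcl_pos h) ?_ h
  intro i hi hj
  obtain ⟨c, e1, e2, hc, he, hs⟩ := hside i hi hj
  have hx : y (.inl (.inl i)) < wcl b i := by
    have := wcl_pos (b := b) i
    nlinarith only [hi, hθ, this]
  have hx' : y (.inl (.inl i)) < wXM b i := by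
    have := w_sum (b := b) i
    have := wcr_pos (b := b) i
    linarith
  rw [← w_sR_left (zs := zs) i hx] at hs
  exact lside_false hb hy i (hpos i) hx' hc he hs

/-- **A left round** with arbitrary floors `f ≤ cl`: the side inequalities are needed only at the
hinge with the least `y / f`. -/
theorem round_left' (hb : ClassW b) (hy : IsMx (wdat (tyW b) b) (wpar b zs) zs y)
    (hpos : ∀ h : Fin M, 0 < y (.inl (.inl h))) {f : Fin M → ℝ} (hf : ∀ h, 0 < f h)
    (hf' : ∀ h, f h ≤ wcl b h)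
    (hside : ∀ h : Fin M, y (.inl (.inl h)) < f h →
      (∀ j : Fin M, y (.inl (.inl h)) / f h ≤ y (.inl (.inl j)) / f j) →
      ∃ c e1 e2 : ℝ, (0 < b h.castSucc * b h.succ → c = 0) ∧ 0 < e1 + e2 ∧
        LSide b zs y h ((zs (.inl (.inl h))).im / wcl b h) c e1 e2) (h : Fin M) :
    f h ≤ y (.inl (.inl h)) := by
  have key := left_phase' (y := fun h => y (.inl (.inl h))) (c := f) (θ := 1) hf ?_ h
  · simpa using key
  intro i hi hj
  rw [one_mul] at hi
  obtain ⟨c, e1, e2, hc, he, hs⟩ := hside i hi hj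
  have hx : y (.inl (.inl i)) < wcl b i := hi.trans_le (hf' i)
  have hx' : y (.inl (.inl i)) < wXM b i := by
    have := w_sum (b := b) i
    have := wcr_pos (b := b) i
    linarith
  rw [← w_sR_left (zs := zs) i hx] at hs
  exact lside_false hb hy i (hpos i) hx' hc he hs

/-- **A right round**: all hinges satisfy `y ≤ thr`; `g` is any function used for the order. -/
theorem round_right (hb : ClassW b) (hy : IsMx (wdat (tyW b) b) (wpar b zs) zs y)
    (hpos : ∀ h : Fin M, 0 < y (.inl (.inl h))) {thr : Fin M → ℝ}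
    (hthr : ∀ h, wXM b h - wcr b h ≤ thr h)
    (hside : ∀ h : Fin M, thr h < y (.inl (.inl h)) →
      ∃ c e1 e2 : ℝ, (0 < b h.castSucc * b h.succ → c = 0) ∧ e1 + e2 < 0 ∧
        RSide b zs y h (-((zs (.inl (.inl h))).im / wcr b h)) c e1 e2) (h : Fin M) :
    y (.inl (.inl h)) ≤ thr h := by
  by_contra hcon
  push Not at hcon
  obtain ⟨c, e1, e2, hc, he, hs⟩ := hside h hcon
  rw [← w_sL_right (zs := zs) h ((hthr h).trans_lt hcon)] at hs
  exact rside_false hb hy h (hpos h) hc he hs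

/-- **A right round with an order**: the side inequalities are needed only at the hinge with the
largest value of `y - thr`, weighted by `w`. -/
theorem round_right' (hb : ClassW b) (hy : IsMx (wdat (tyW b) b) (wpar b zs) zs y)
    (hpos : ∀ h : Fin M, 0 < y (.inl (.inl h))) {thr w : Fin M → ℝ} (hw : ∀ h, 0 < w h)
    (hthr : ∀ h, wXM b h - wcr b h ≤ thr h)
    (hside : ∀ h : Fin M, thr h < y (.inl (.inl h)) →
      (∀ j, (y (.inl (.inl j)) - thr j) / w j ≤ (y (.inl (.inl h)) - thr h) / w h) →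
      ∃ c e1 e2 : ℝ, (0 < b h.castSucc * b h.succ → c = 0) ∧ e1 + e2 < 0 ∧
        RSide b zs y h (-((zs (.inl (.inl h))).im / wcr b h)) c e1 e2) (h : Fin M) :
    y (.inl (.inl h)) ≤ thr h := by
  have key := right_phase (f := fun h => (y (.inl (.inl h)) - thr h) / w h) (θ := 0) ?_ h
  · have := (div_le_iff₀ (hw h)).1 key
    linarith only [this]
  · intro i hi hj
    have hi' : thr i < y (.inl (.inl i)) := by
      have := (lt_div_iff₀ (hw i)).1 hi
      linarith only [this]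
    obtain ⟨c, e1, e2, hc, he, hs⟩ := hside i hi' hj
    rw [← w_sL_right (zs := zs) i ((hthr i).trans_lt hi')] at hs
    exact rside_false hb hy i (hpos i) hc he hs

/-- **Exclusion on the flat part**: slope `0`. -/
theorem flat_false_left (hy : IsMx (wdat (tyW b) b) (wpar b zs) zs y) (h : Fin M)
    (h0 : wcl b h ≤ y (.inl (.inl h))) (h1 : y (.inl (.inl h)) < wXM b h - wcr b h)
    (hs : 0 < Sw b zs y h.castSucc 2 0 + Sw b zs y h.succ 0 0) : False := by
  have hp0 : 0 < y (.inl (.inl h)) := (wcl_pos h).trans_le h0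
  have h3 := hy.foc_right (std_wpar b zs) h hp0 (by
    have := wcr_pos (b := b) h
    exact h1.trans (by rw [wXM_eq]; linarith only [this]))
  have h4 := w_sR_flat (zs := zs) h h0 h1
  rw [h4] at h3
  unfold Sw Xw at hs
  linarith only [hs, h3]

theorem flat_false_right (hy : IsMx (wdat (tyW b) b) (wpar b zs) zs y) (h : Fin M)
    (h0 : wcl b h < y (.inl (.inl h))) (h1 : y (.inl (.inl h)) ≤ wXM b h - wcr b h)
    (hs : Sw b zs y h.castSucc 2 0 + Sw b zs y h.succ 0 0 < 0) : False := by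
  have hp0 : 0 < y (.inl (.inl h)) := (wcl_pos h).trans h0
  have h3 := (hy.foc_left (std_wpar b zs) h hp0).2
  have h4 := w_sL_flat (zs := zs) h h0 h1
  rw [h4] at h3
  unfold Sw Xw at hs
  linarith only [hs, h3]

/-! ### the sides in the own frame -/

/-- a local variable in the own frame of the region `i` -/
noncomputable def Yw (b : Fin (M + 1) → ℤ) (zs : DD (tyW b) ⊕ ZZ (tyW b) → ℂ)
    (y : DD (tyW b) ⊕ ZZ (tyW b) → ℝ) (i : Fin (M + 1)) (p : Fin 3) : ℂ :=
  ofr (b i) (Xw b zs y i p)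

/-- the variable of a ring in its own frame -/
noncomputable def Zw (b : Fin (M + 1) → ℤ) (zs : DD (tyW b) ⊕ ZZ (tyW b) → ℂ)
    (y : DD (tyW b) ⊕ ZZ (tyW b) → ℝ) (i : Fin (M + 1)) : ℂ :=
  ofz (b i) (Xw b zs y i 1)

theorem Xw_left (h : Fin M) : Xw b zs y h.succ 0 =
    (wpar b zs).pp zs (.inl (.inl h)) (y (.inl (.inl h))) := loc_left h y

theorem Xw_right (h : Fin M) : Xw b zs y h.castSucc 2 =
    (wpar b zs).pp zs (.inl (.inl h)) (y (.inl (.inl h))) := loc_right h y

theorem Xw_zero : Xw b zs y 0 0 = 0 := xx_left_zero _ _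

theorem Xw_last : Xw b zs y (Fin.last M) 2 = 0 := xx_right_last _ _

theorem Yw_zero : Yw b zs y 0 0 = 0 := by
  unfold Yw
  rw [Xw_zero, ofr_zero]

theorem Yw_last : Yw b zs y (Fin.last M) 2 = 0 := by
  unfold Yw
  rw [Xw_last, ofr_zero]

variable (hb : ClassW b) (h : Fin M) (m : ℝ)
include hb

theorem Sw_left_one (ht : tyW b h.castSucc = .one) : Sw b zs y h.castSucc 2 m =
    S1 1 (ofs (b h.castSucc) m) (Yw b zs y h.castSucc 2) (Yw b zs y h.castSucc 0) := by
  unfold Sw rside Yw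
  rw [decide_castSucc, ht]
  exact side_one_two (hb.ne _) _ _ _

theorem Sw_right_one (ht : tyW b h.succ = .one) : Sw b zs y h.succ 0 m =
    S1 1 (ofs (b h.succ) m) (Yw b zs y h.succ 0) (Yw b zs y h.succ 2) := by
  unfold Sw rside Yw
  rw [decide_succ, ht]
  exact side_one_zero (hb.ne _) _ _ _

theorem Sw_left_two (ht : tyW b h.castSucc = .two) : Sw b zs y h.castSucc 2 m =
    S2 1 (ofs (b h.castSucc) m) (Yw b zs y h.castSucc 2) (Yw b zs y h.castSucc 0) := by
  unfold Sw rside Yw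
  rw [decide_castSucc, ht]
  exact side_two_two (hb.ne _) _ _ _

theorem Sw_right_two (ht : tyW b h.succ = .two) : Sw b zs y h.succ 0 m =
    S2 1 (ofs (b h.succ) m) (Yw b zs y h.succ 0) (Yw b zs y h.succ 2) := by
  unfold Sw rside Yw
  rw [decide_succ, ht]
  exact side_two_zero (hb.ne _) _ _ _

theorem Sw_left_threeL (ht : tyW b h.castSucc = .threeL) : Sw b zs y h.castSucc 2 m =
    S2 1 (ofs (b h.castSucc) m) (Yw b zs y h.castSucc 2) (Yw b zs y h.castSucc 1) := by
  unfold Sw rside Yw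
  rw [decide_castSucc, ht]
  exact side_threeL_two (hb.ne _) _ _ _

theorem Sw_right_threeL (ht : tyW b h.succ = .threeL) : Sw b zs y h.succ 0 m =
    S3 1 (ofs (b h.succ) m) (Yw b zs y h.succ 0) (Yw b zs y h.succ 1) := by
  unfold Sw rside Yw
  rw [decide_succ, ht]
  exact side_threeL_zero (hb.ne _) _ _ _

theorem Sw_left_threeR (ht : tyW b h.castSucc = .threeR) : Sw b zs y h.castSucc 2 m =
    S3 1 (ofs (b h.castSucc) m) (Yw b zs y h.castSucc 2) (Yw b zs y h.castSucc 1) := by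
  unfold Sw rside Yw
  rw [decide_castSucc, ht]
  exact side_threeR_two (hb.ne _) _ _ _

omit hb in
theorem Sw_left_ring (ht : tyW b h.castSucc = .ring) : Sw b zs y h.castSucc 2 m =
    S4 (ofs (b h.castSucc) m) (Yw b zs y h.castSucc 2) (Zw b zs y h.castSucc) := by
  unfold Sw rside Yw Zw
  rw [decide_castSucc, ht]
  exact side_ring_two'' _ _ _

omit hb in
theorem Sw_right_ring (ht : tyW b h.succ = .ring) : Sw b zs y h.succ 0 m =
    S4 (ofs (b h.succ) m) (Yw b zs y h.succ 0) (Zw b zs y h.succ) := by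
  unfold Sw rside Yw Zw
  rw [decide_succ, ht]
  exact side_ring_zero'' _ _ _

omit hb in
/-- the type `threeR` occurs only at the left end -/
theorem tyW_threeR {i : Fin (M + 1)} (ht : tyW b i = .threeR) : i = 0 := by
  unfold tyW at ht
  split_ifs at ht with h1 h2 h3 h4
  exact h4

omit hb in
theorem succ_not_threeR (h : Fin M) : tyW b h.succ ≠ .threeR := fun hc =>
  Fin.succ_ne_zero h (tyW_threeR hc)

/-- regions of type `one` are not at the ends -/
theorem one_inner {i : Fin (M + 1)} (ht : tyW b i = .one) : i ≠ 0 ∧ i ≠ Fin.last M := by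
  have h1 : (b i).natAbs = 1 := by
    unfold tyW at ht
    split_ifs at ht with h1
    exact h1
  constructor
  · rintro rfl
    have := hb.first
    omega
  · rintro rfl
    have := hb.last
    omega

end SR

end Pool.Agent.Work.MP_b30479_gtS.G2

end

section

/-!
# A region of the word in its own frame, at a maximiser
-/

namespace Pool.Agent.Work.MP_b30479_gtS.G2

open Finset VOL Filter Topology

/-- the local variables in the own frame -/
noncomputable def own (b : ℤ) (t : Typ) (x : Fin 3 → ℂ) : Fin 3 → ℂ := if 0 < b then x else cj t x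

theorem own_zero (b : ℤ) (t : Typ) (x : Fin 3 → ℂ) : own b t x 0 = ofr b (x 0) := by
  unfold own ofr
  split_ifs
  · rfl
  · exact cj_zero t x

theorem own_two (b : ℤ) (t : Typ) (x : Fin 3 → ℂ) : own b t x 2 = ofr b (x 2) := by
  unfold own ofr
  split_ifs
  · rfl
  · exact cj_two t x

theorem own_one {t : Typ} (ht : t ≠ .ring) (b : ℤ) (x : Fin 3 → ℂ) : own b t x 1 = ofr b (x 1) := by
  unfold own ofr
  split_ifs
  · rfl
  · exact cj_one ht x

theorem own_ring (b : ℤ) (x : Fin 3 → ℂ) : own b .ring x 1 = ofz b (x 1) := by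
  unfold own ofz
  split_ifs
  · rfl
  · exact cj_ring x

/-- the growth rate of a region in its own frame -/
theorem own_V {b : ℤ} (hb : b ≠ 0) {t : Typ} (ht : t.Std) (l r : Bool) (x : Fin 3 → ℂ) :
    (ldat t b l r).V (lx x) = (ldat t (b.natAbs : ℤ) l r).V (lx (own b t x)) := by
  unfold own
  rcases lt_or_gt_of_ne hb with h | h
  · rw [if_neg (by omega)]
    have e : (b.natAbs : ℤ) = -b := by omega
    rw [e, ldat_V_cj hb l r x t ht]
  · rw [if_pos h]
    have e : (b.natAbs : ℤ) = b := by omega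
    rw [e]

theorem own_update_one {t : Typ} (ht : t ≠ .ring) (b : ℤ) (x : Fin 3 → ℂ) (c : ℂ) :
    own b t (Function.update x 1 c) = Function.update (own b t x) 1 (ofr b c) := by
  unfold own ofr
  split_ifs
  · rfl
  · funext p
    fin_cases p <;> simp [cj, ht]

theorem own_update_ring (b : ℤ) (x : Fin 3 → ℂ) (c : ℂ) :
    own b .ring (Function.update x 1 c) = Function.update (own b .ring x) 1 (ofz b c) := by
  unfold own ofz
  split_ifs
  · rfl
  · funext p
    fin_cases p <;> simp [cj]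

private theorem th_neg (σ : ℝ) : LT.th (-σ) = LT.th σ := by
  unfold LT.th
  rw [abs_neg]

theorem th_ofs (b : ℤ) (σ : ℝ) : LT.th (ofs b σ) = LT.th σ := by
  unfold ofs
  split_ifs
  · rfl
  · exact th_neg σ

theorem ofz_zt (b : ℤ) (ρ σ : ℝ) : ofz b (LT.zt ρ σ) = LT.zt ρ (ofs b σ) := by
  rw [ofz_eq]
  have e1 : (LT.zt ρ σ).re = σ := by simp [LT.zt]
  have e2 : (LT.zt ρ σ).im = ρ * LT.th σ := by simp [LT.zt]
  rw [e1, e2]
  unfold LT.zt
  rw [th_ofs]

theorem ofs_ofs (b : ℤ) (c : ℝ) : ofs b (ofs b c) = c := by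
  unfold ofs
  split_ifs <;> ring

namespace SR

variable {M : ℕ} {b : Fin (M + 1) → ℤ} {zs : DD (tyW b) ⊕ ZZ (tyW b) → ℂ}
variable {y : DD (tyW b) ⊕ ZZ (tyW b) → ℝ}

/-- the local variables of the region `i` in its own frame -/
noncomputable def OY (b : Fin (M + 1) → ℤ) (zs : DD (tyW b) ⊕ ZZ (tyW b) → ℂ)
    (y : DD (tyW b) ⊕ ZZ (tyW b) → ℝ) (i : Fin (M + 1)) : Fin 3 → ℂ :=
  own (b i) (tyW b i) (Xw b zs y i)

theorem OY_zero (i : Fin (M + 1)) : OY b zs y i 0 = Yw b zs y i 0 := own_zero _ _ _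
theorem OY_two (i : Fin (M + 1)) : OY b zs y i 2 = Yw b zs y i 2 := own_two _ _ _
theorem OY_one {i : Fin (M + 1)} (h : tyW b i ≠ .ring) : OY b zs y i 1 = Yw b zs y i 1 :=
  own_one h _ _
theorem OY_ring {i : Fin (M + 1)} (h : tyW b i = .ring) : OY b zs y i 1 = Zw b zs y i := by
  unfold OY Zw
  rw [h]
  exact own_ring _ _

/-- the growth rate of the region `i` in its own frame -/
noncomputable def OV (b : Fin (M + 1) → ℤ) (i : Fin (M + 1)) (x : Fin 3 → ℂ) : ℝ :=
  (ldat (tyW b i) ((b i).natAbs : ℤ) (decide (i ≠ 0)) (decide (i ≠ Fin.last M))).V (lx x)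

theorem rV_own (hb : ClassW b) (i : Fin (M + 1)) (x : Fin 3 → ℂ) :
    rV (tyW b) b i x = OV b i (own (b i) (tyW b i) x) :=
  own_V (hb.ne i) (tyW_std b i) _ _ x

/-! ### hinges in the own frame -/

/-- the hinge to the right of the region `h.castSucc` -/
theorem Yw_right (h : Fin M) : Yw b zs y h.castSucc 2 =
    ofr (b h.castSucc) ((wpar b zs).pp zs (.inl (.inl h)) (y (.inl (.inl h)))) := by
  unfold Yw
  rw [Xw_right]

/-- the hinge to the left of the region `h.succ` -/
theorem Yw_left (h : Fin M) : Yw b zs y h.succ 0 =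
    ofr (b h.succ) ((wpar b zs).pp zs (.inl (.inl h)) (y (.inl (.inl h)))) := by
  unfold Yw
  rw [Xw_left]

theorem ofr_pp_re (c : ℤ) (j : DD (tyW b) ⊕ ZZ (tyW b)) (x : ℝ) :
    (ofr c ((wpar b zs).pp zs j x)).re = x := by rw [ofr_re, Par.pp_re]

/-- a hinge on its path in the own frame of an adjacent region with sign `c` -/
theorem hinge_RH (hy : IsMx (wdat (tyW b) b) (wpar b zs) zs y) (h : Fin M) (c : ℤ) :
    RH (ofr c ((wpar b zs).pp zs (.inl (.inl h)) (y (.inl (.inl h)))))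
      (ofs c (zs (.inl (.inl h))).im) (wXM b h) (wcl b h) (wcr b h) := by
  refine ⟨?_, ?_, ?_⟩
  · rw [ofr_pp_re]
    exact hy.nonneg _
  · rw [ofr_pp_re]
    exact hy.1.2 (.inl (.inl h))
  · rw [ofr_pp_re, ofr_im, Par.pp_im]
    exact ofs_mul' c _ _

/-- the box of the hinge seen from the left region -/
theorem Loc.seen_left (hL : Loc b zs) (h : Fin M) :
    (hbox (clsW b h.castSucc) (clsW b h.succ) (ssW b h)).x0 ≤ (zs (.inl (.inl h))).re ∧
    (zs (.inl (.inl h))).re ≤ (hbox (clsW b h.castSucc) (clsW b h.succ) (ssW b h)).x1 ∧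
    (hbox (clsW b h.castSucc) (clsW b h.succ) (ssW b h)).t0 ≤
      ofs (b h.castSucc) (zs (.inl (.inl h))).im ∧
    ofs (b h.castSucc) (zs (.inl (.inl h))).im ≤
      (hbox (clsW b h.castSucc) (clsW b h.succ) (ssW b h)).t1 := by
  have h1 := hL.hinge h
  unfold Box.In at h1
  rw [ofr_re, ofr_im] at h1
  exact h1

/-- the box of the hinge seen from the right region -/
theorem Loc.seen_right (hb : ClassW b) (hL : Loc b zs) (h : Fin M) :
    (hbox (clsW b h.succ) (clsW b h.castSucc) (ssW b h)).x0 ≤ (zs (.inl (.inl h))).re ∧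
    (zs (.inl (.inl h))).re ≤ (hbox (clsW b h.succ) (clsW b h.castSucc) (ssW b h)).x1 ∧
    (hbox (clsW b h.succ) (clsW b h.castSucc) (ssW b h)).t0 ≤
      ofs (b h.succ) (zs (.inl (.inl h))).im ∧
    ofs (b h.succ) (zs (.inl (.inl h))).im ≤
      (hbox (clsW b h.succ) (clsW b h.castSucc) (ssW b h)).t1 := by
  obtain ⟨a1, a2, a3, a4⟩ := hL.seen_left h
  rcases sign_cases hb h with h1 | ⟨h1, c1, c2⟩
  · have hs : ssW b h = false := by
      unfold ssW
      simp only [decide_eq_false_iff_not, not_lt]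
      exact h1.le
    rw [hs] at a1 a2 a3 a4 ⊢
    rw [hbox_swap (clsW b h.castSucc) (clsW b h.succ), ofs_opp h1]
    exact ⟨a1, a2, neg_le_neg a4, neg_le_neg a3⟩
  · rw [c1, c2] at a1 a2 a3 a4
    rw [c1, c2, ofs_same h1]
    exact ⟨a1, a2, a3, a4⟩

/-! ### rings -/

/-- the ring variable in the own frame -/
theorem Zw_eq (v : ZZ (tyW b)) : Zw b zs y v.1 =
    LT.zt (zs (.inr v)).im (ofs (b v.1) (y (.inr v))) := by
  unfold Zw Xw
  rw [loc_ring v.2]
  have e : (wpar b zs).pp zs (.inr v) (y (.inr v)) = LT.zt (zs (.inr v)).im (y (.inr v)) := by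
    rw [pp_ring]
    unfold LT.zt
    push_cast
    ring
  rw [e, ofz_zt]

theorem tyW_ring {i : Fin (M + 1)} (h : (tyW b i).isRing = true) : tyW b i = .ring := by
  cases hc : tyW b i <;> simp [hc, Typ.isRing] at h ⊢

theorem ring_four (hb : ClassW b) {i : Fin (M + 1)} (h : tyW b i = .ring) : 4 ≤ (b i).natAbs := by
  have h0 := hb.ne i
  unfold tyW at h
  split_ifs at h with h1 h2 h3 h4
  omega

/-- **The ring variable of a maximiser maximises the growth rate of its region.** -/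
theorem ring_RM (hb : ClassW b) (hL : Loc b zs) (hy : IsMx (wdat (tyW b) b) (wpar b zs) zs y)
    (v : ZZ (tyW b)) : RM ((b v.1).natAbs : ℝ) (zs (.inr v)).im (Yw b zs y v.1 0)
      (Yw b zs y v.1 2) (ofs (b v.1) (y (.inr v))) := by
  have ht := tyW_ring v.2
  have h4 := ring_four hb ht
  have key := RM_of_ldat (b := ((b v.1).natAbs : ℤ)) (by exact_mod_cast h4)
    (l := decide (v.1 ≠ 0)) (r := decide (v.1 ≠ Fin.last M)) (x := OY b zs y v.1)
    (fun h => by
      have h0 : v.1 = 0 := by simpa using h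
      rw [OY_zero, h0, Yw_zero])
    (fun h => by
      have h0 : v.1 = Fin.last M := by simpa using h
      rw [OY_two, h0, Yw_last])
    (ρ := (zs (.inr v)).im) (σ := ofs (b v.1) (y (.inr v))) (hL.rpos v)
    (by rw [abs_ofs]; exact hy.ring_le v)
    (by rw [OY_ring ht, Zw_eq])
    (fun c hc => by
      have h1 := hy.rng v (c := ofs (b v.1) c) (by
        have := (abs_le.1 (by rw [abs_ofs]; exact hc : |ofs (b v.1) c| ≤ 1 / 2)).1
        linarith) (abs_le.1 (by rw [abs_ofs]; exact hc : |ofs (b v.1) c| ≤ 1 / 2)).2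
      rw [rV_own hb, rV_own hb] at h1
      have e2 : (wpar b zs).pp zs (.inr v) (ofs (b v.1) c) =
          LT.zt (zs (.inr v)).im (ofs (b v.1) c) := by
        rw [pp_ring]
        unfold LT.zt
        push_cast
        ring
      rw [e2] at h1
      have e3 : own (b v.1) (tyW b v.1) (Function.update (xx (tyW b) v.1 ((wpar b zs).pth zs y)) 1
          (LT.zt (zs (.inr v)).im (ofs (b v.1) c))) =
          Function.update (OY b zs y v.1) 1 (LT.zt (zs (.inr v)).im c) := by
        unfold OY Xw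
        rw [ht, own_update_ring, ofz_zt, ofs_ofs]
      have e4 : own (b v.1) (tyW b v.1) (xx (tyW b) v.1 ((wpar b zs).pth zs y)) =
          OY b zs y v.1 := rfl
      rw [e3, e4] at h1
      unfold OV at h1
      rw [ht] at h1
      exact h1)
  rw [OY_zero, OY_two] at key
  have e : (((b v.1).natAbs : ℤ) : ℝ) = ((b v.1).natAbs : ℝ) := Int.cast_natCast _
  rw [e] at key
  exact key

/-! ### inner discrete variables -/

theorem mid_not_ring {i : Fin (M + 1)} (h : (tyW b i).isMid = true) : tyW b i ≠ .ring := by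
  intro hc
  rw [hc] at h
  simp [Typ.isMid] at h

/-- **The inner variable of a maximiser maximises the growth rate of its region** -/
theorem mid_max (hb : ClassW b) (hy : IsMx (wdat (tyW b) b) (wpar b zs) zs y)
    (m : {i : Fin (M + 1) // (tyW b i).isMid = true}) {c : ℝ} (h0 : 0 ≤ c)
    (h1 : c ≤ (wpar b zs).XM (.inr m)) :
    OV b m.1 (Function.update (OY b zs y m.1) 1
      (ofr (b m.1) ((wpar b zs).pp zs (.inl (.inr m)) c))) ≤ OV b m.1 (OY b zs y m.1) := by
  have h2 := hy.mid m h0 h1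
  rw [rV_own hb, rV_own hb, own_update_one (mid_not_ring m.2)] at h2
  exact h2

theorem Yw_mid (m : {i : Fin (M + 1) // (tyW b i).isMid = true}) : Yw b zs y m.1 1 =
    ofr (b m.1) ((wpar b zs).pp zs (.inl (.inr m)) (y (.inl (.inr m)))) := by
  unfold Yw Xw
  rw [loc_mid m.2]

/-- the inner variable on its path in the own frame -/
theorem mid_RH (hy : IsMx (wdat (tyW b) b) (wpar b zs) zs y)
    (m : {i : Fin (M + 1) // (tyW b i).isMid = true}) :
    RH (Yw b zs y m.1 1) (ofs (b m.1) (zs (.inl (.inr m))).im)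
      ((wpar b zs).XM (.inr m)) ((wpar b zs).cl (.inr m)) ((wpar b zs).cr (.inr m)) := by
  rw [Yw_mid]
  refine ⟨?_, ?_, ?_⟩
  · rw [ofr_pp_re]
    exact hy.nonneg _
  · rw [ofr_pp_re]
    exact hy.1.2 (.inl (.inr m))
  · rw [ofr_pp_re, ofr_im, Par.pp_im]
    exact ofs_mul' _ _ _

end SR

end Pool.Agent.Work.MP_b30479_gtS.G2

end

section

/-!
# Hinges seen from an adjacent region, left and right at once
-/

namespace Pool.Agent.Work.MP_b30479_gtS.G2

open Finset VOL Filter Topology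

namespace SR

variable {M : ℕ} {b : Fin (M + 1) → ℤ} {zs : DD (tyW b) ⊕ ZZ (tyW b) → ℂ}
variable {y : DD (tyW b) ⊕ ZZ (tyW b) → ℝ}

/-- the hinge `h` is in the slot `p` of the region `i`; `j` is the region on its other side -/
inductive Adj (h : Fin M) : Fin (M + 1) → Fin 3 → Fin (M + 1) → Prop
  | l : Adj h h.castSucc 2 h.succ
  | r : Adj h h.succ 0 h.castSucc

variable {h h' : Fin M} {i j j' : Fin (M + 1)} {p : Fin 3}

/-- the same hinge seen from the other region -/
theorem Adj.symm (A : Adj h i p j) : Adj h j p.rev i := by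
  cases A
  · exact .r
  · exact .l

theorem Adj.slot (A : Adj h i p j) : p = 0 ∨ p = 2 := by
  cases A
  · exact Or.inr rfl
  · exact Or.inl rfl

/-- a slot without a hinge -/
theorem Adj.other (A : Adj h i p j) (b : Fin (M + 1) → ℤ)
    (zs : DD (tyW b) ⊕ ZZ (tyW b) → ℂ) (y : DD (tyW b) ⊕ ZZ (tyW b) → ℝ) :
    (isEnd i = true ∧ Yw b zs y i p.rev = 0) ∨ (isEnd i = false ∧ ∃ h' j', Adj h' i p.rev j') := by
  cases A
  · by_cases h0 : h.castSucc = 0
    · left
      refine ⟨by simp [isEnd, h0], ?_⟩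
      rw [h0]
      exact Yw_zero
    · right
      obtain ⟨k, hk⟩ := Fin.eq_succ_of_ne_zero h0
      refine ⟨?_, k, k.castSucc, ?_⟩
      · unfold isEnd
        simp only [decide_eq_false_iff_not, not_or]
        exact ⟨h0, (Fin.castSucc_lt_last h).ne⟩
      · rw [hk]
        exact .r
  · by_cases h0 : h.succ = Fin.last M
    · left
      refine ⟨by simp [isEnd, h0], ?_⟩
      rw [h0]
      exact Yw_last
    · right
      obtain ⟨k, hk⟩ := Fin.eq_castSucc_of_ne_last h0
      refine ⟨?_, k, k.succ, ?_⟩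
      · unfold isEnd
        simp only [decide_eq_false_iff_not, not_or]
        exact ⟨Fin.succ_ne_zero h, h0⟩
      · rw [← hk]
        exact .l

/-- the hinge on its path in the own frame of the region -/
theorem Adj.Yw_eq (A : Adj h i p j) : Yw b zs y i p =
    ofr (b i) ((wpar b zs).pp zs (.inl (.inl h)) (y (.inl (.inl h)))) := by
  cases A
  · exact Yw_right h
  · exact Yw_left h

theorem Adj.re (A : Adj h i p j) : (Yw b zs y i p).re = y (.inl (.inl h)) := by
  rw [A.Yw_eq, ofr_pp_re]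

theorem Adj.rh (A : Adj h i p j) (hy : IsMx (wdat (tyW b) b) (wpar b zs) zs y) :
    RH (Yw b zs y i p) (ofs (b i) (zs (.inl (.inl h))).im) (wXM b h) (wcl b h) (wcr b h) := by
  rw [A.Yw_eq]
  exact hinge_RH hy h (b i)

/-- the box of the hinge seen from the region -/
theorem Adj.box (A : Adj h i p j) (hb : ClassW b) (hL : Loc b zs) :
    (hbox (clsW b i) (clsW b j) (ssW b h)).x0 ≤ (zs (.inl (.inl h))).re ∧
    (zs (.inl (.inl h))).re ≤ (hbox (clsW b i) (clsW b j) (ssW b h)).x1 ∧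
    (hbox (clsW b i) (clsW b j) (ssW b h)).t0 ≤ ofs (b i) (zs (.inl (.inl h))).im ∧
    ofs (b i) (zs (.inl (.inl h))).im ≤ (hbox (clsW b i) (clsW b j) (ssW b h)).t1 := by
  cases A
  · exact hL.seen_left h
  · exact hL.seen_right hb h

/-- signs at a hinge -/
theorem Adj.sign (A : Adj h i p j) (hb : ClassW b) : b i * b j < 0 ∨
    (0 < b i * b j ∧ clsW b i = .ring ∧ clsW b j = .ring) := by
  cases A
  · exact sign_cases hb h
  · rcases sign_cases hb h with h1 | ⟨h1, h2, h3⟩
    · left; rwa [mul_comm] at h1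
    · right; rw [mul_comm] at h1; exact ⟨h1, h3, h2⟩

theorem Adj.opp (A : Adj h i p j) (hb : ClassW b) (hc : clsW b i ≠ .ring ∨ clsW b j ≠ .ring) :
    b i * b j < 0 := by
  rcases A.sign hb with h1 | ⟨-, h2, h3⟩
  · exact h1
  · rcases hc with hc | hc
    · exact absurd h2 hc
    · exact absurd h3 hc

theorem Adj.ss (A : Adj h i p j) (h1 : b i * b j < 0) : ssW b h = false := by
  have : ¬ (0 < b h.castSucc * b h.succ) := by
    cases A
    · omega
    · rw [mul_comm]; omega
  unfold ssW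
  simpa using this

theorem ofr_opp {c c' : ℤ} (h1 : c * c' < 0) (z : ℂ) : ofr c' z = starRingEnd ℂ (ofr c z) := by
  unfold ofr
  rcases lt_trichotomy c 0 with h2 | h2 | h2
  · have h3 : 0 < c' := by
      by_contra hc
      nlinarith
    rw [if_pos h3, if_neg (by omega), Complex.conj_conj]
  · rw [h2] at h1; simp at h1
  · have h3 : c' < 0 := by
      by_contra hc
      nlinarith
    rw [if_pos h2, if_neg (by omega)]

/-- the hinge seen from the other region -/
theorem Adj.conj (A : Adj h i p j) (h1 : b i * b j < 0) :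
    Yw b zs y j p.rev = starRingEnd ℂ (Yw b zs y i p) := by
  rw [A.Yw_eq, A.symm.Yw_eq]
  exact ofr_opp h1 _

theorem Adj.ofs_conj (_ : Adj h i p j) (h1 : b i * b j < 0) (m : ℝ) :
    ofs (b j) m = -ofs (b i) m := ofs_opp h1 m

/-! ### the sides -/

theorem tyW_of_one {i : Fin (M + 1)} (hc : clsW b i = .one) : tyW b i = .one := by
  unfold clsW cls at hc
  unfold tyW
  split_ifs at hc with h1
  rw [if_pos h1]

theorem tyW_of_two {i : Fin (M + 1)} (hc : clsW b i = .two ∨ clsW b i = .twoE) :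
    tyW b i = .two := by
  have h2 : (b i).natAbs = 2 := by
    unfold clsW cls at hc
    split_ifs at hc with h1 h2 <;> simp_all
  unfold tyW
  rw [if_neg (by omega), if_pos h2]

theorem clsW_nat3 {i : Fin (M + 1)} (hc : clsW b i = .three ∨ clsW b i = .threeE) :
    (b i).natAbs = 3 := by
  unfold clsW cls at hc
  split_ifs at hc with h1 h2 h3 h4 h5 <;> simp_all

theorem clsW_end {i : Fin (M + 1)} (hc : clsW b i = .twoE ∨ clsW b i = .threeE) :
    isEnd i = true := by
  unfold clsW cls at hc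
  split_ifs at hc with h1 h2 h3 h4 h5 <;> simp_all

theorem clsW_inner {i : Fin (M + 1)} (hb : ClassW b)
    (hc : clsW b i = .one ∨ clsW b i = .two ∨ clsW b i = .three) : isEnd i = false := by
  rcases hc with hc | hc | hc
  · have := one_inner hb (tyW_of_one hc)
    unfold isEnd
    simpa using this
  · unfold clsW cls at hc
    split_ifs at hc with h1 h2 h3 <;> simp_all
  · unfold clsW cls at hc
    split_ifs at hc with h1 h2 h3 <;> simp_all

theorem tyW_of_three {i : Fin (M + 1)} (hc : clsW b i = .three) : tyW b i = .threeL := by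
  have h3 := clsW_nat3 (Or.inl hc)
  have he : isEnd i = false := by
    unfold clsW cls at hc
    split_ifs at hc with h1 h2 h3 <;> simp_all
  unfold tyW
  rw [if_neg (by omega), if_neg (by omega), if_pos h3]
  have : i ≠ 0 := by
    intro h0
    simp [isEnd, h0] at he
  rw [if_neg this]

theorem tyW_of_ring {i : Fin (M + 1)} (hb : ClassW b) (hc : clsW b i = .ring) :
    tyW b i = .ring := by
  have h0 := hb.ne i
  have h4 : (b i).natAbs ≠ 1 ∧ (b i).natAbs ≠ 2 ∧ (b i).natAbs ≠ 3 := by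
    unfold clsW cls at hc
    refine ⟨?_, ?_, ?_⟩ <;> intro h1 <;> simp [h1] at hc
    · split_ifs at hc
    · split_ifs at hc
  unfold tyW
  rw [if_neg h4.1, if_neg h4.2.1, if_neg h4.2.2]


theorem Adj.side_one (A : Adj h i p j) (hb : ClassW b) (hc : clsW b i = .one) (m : ℝ) :
    Sw b zs y i p m = S1 1 (ofs (b i) m) (Yw b zs y i p) (Yw b zs y i p.rev) := by
  cases A
  · exact Sw_left_one hb h m (tyW_of_one hc)
  · exact Sw_right_one hb h m (tyW_of_one hc)

theorem Adj.side_two (A : Adj h i p j) (hb : ClassW b) (hc : clsW b i = .two ∨ clsW b i = .twoE)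
    (m : ℝ) : Sw b zs y i p m = S2 1 (ofs (b i) m) (Yw b zs y i p) (Yw b zs y i p.rev) := by
  cases A
  · exact Sw_left_two hb h m (tyW_of_two hc)
  · exact Sw_right_two hb h m (tyW_of_two hc)

/-- a region with three crossings at an end -/
theorem Adj.side_threeE (A : Adj h i p j) (hb : ClassW b) (hc : clsW b i = .threeE) (m : ℝ) :
    Sw b zs y i p m = S3 1 (ofs (b i) m) (Yw b zs y i p) (Yw b zs y i 1) := by
  have h3 := clsW_nat3 (Or.inr hc)
  have he := clsW_end (Or.inr hc)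
  cases A
  · refine Sw_left_threeR hb h m ?_
    have h0 : h.castSucc = 0 := by
      unfold isEnd at he
      rcases of_decide_eq_true he with h1 | h1
      · exact h1
      · exact absurd h1 (Fin.castSucc_lt_last h).ne
    unfold tyW
    rw [if_neg (by omega), if_neg (by omega), if_pos h3, if_pos h0]
  · refine Sw_right_threeL hb h m ?_
    unfold tyW
    rw [if_neg (by omega), if_neg (by omega), if_pos h3, if_neg (Fin.succ_ne_zero h)]

/-- an interior region with three crossings, on the left of the hinge -/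
theorem Adj.side_three_two (A : Adj h i 2 j) (hb : ClassW b) (hc : clsW b i = .three) (m : ℝ) :
    Sw b zs y i 2 m = S2 1 (ofs (b i) m) (Yw b zs y i 2) (Yw b zs y i 1) := by
  cases A
  exact Sw_left_threeL hb h m (tyW_of_three hc)

/-- an interior region with three crossings, on the right of the hinge -/
theorem Adj.side_three_zero (A : Adj h i 0 j) (hb : ClassW b) (hc : clsW b i = .three) (m : ℝ) :
    Sw b zs y i 0 m = S3 1 (ofs (b i) m) (Yw b zs y i 0) (Yw b zs y i 1) := by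
  cases A
  exact Sw_right_threeL hb h m (tyW_of_three hc)

theorem Adj.side_ring (A : Adj h i p j) (hb : ClassW b) (hc : clsW b i = .ring) (m : ℝ) :
    Sw b zs y i p m = S4 (ofs (b i) m) (Yw b zs y i p) (Zw b zs y i) := by
  cases A
  · exact Sw_left_ring h m (tyW_of_ring hb hc)
  · exact Sw_right_ring h m (tyW_of_ring hb hc)

/-! ### the two sides of a hinge -/

theorem LSide.of_adj {m c : ℝ} {E : Fin (M + 1) → Fin 3 → Fin (M + 1) → ℝ}
    (H : ∀ i p j, Adj h i p j → E i p j ≤ Sw b zs y i p m + c * ofs (b i) m) :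
    LSide b zs y h m c (E h.castSucc 2 h.succ) (E h.succ 0 h.castSucc) :=
  ⟨H _ _ _ .l, H _ _ _ .r⟩

theorem RSide.of_adj {m c : ℝ} {E : Fin (M + 1) → Fin 3 → Fin (M + 1) → ℝ}
    (H : ∀ i p j, Adj h i p j → Sw b zs y i p m + c * ofs (b i) m ≤ E i p j) :
    RSide b zs y h m c (E h.castSucc 2 h.succ) (E h.succ 0 h.castSucc) :=
  ⟨H _ _ _ .l, H _ _ _ .r⟩

/-! ### parameters of the path of a hinge, seen from a region -/

/-- class of the neighbour of the region `i` in the slot `p`; `.ring` outside the word -/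
def oc (b : Fin (M + 1) → ℤ) (i : Fin (M + 1)) (p : Fin 3) : Cl :=
  if p = 0 then (if i.val = 0 then .ring else clsN b (i.val - 1)) else clsN b (i.val + 1)

theorem clsN_val (b : Fin (M + 1) → ℤ) (i : Fin (M + 1)) : clsN b i.val = clsW b i := by
  unfold clsN
  rw [dif_pos i.2]

theorem Adj.oc_eq (A : Adj h i p j) (b : Fin (M + 1) → ℤ) : oc b i p = clsW b j := by
  cases A
  · unfold oc
    rw [if_neg (by decide)]
    exact clsN_val b h.succ
  · unfold oc
    rw [if_pos rfl, if_neg (by simp)]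
    exact clsN_val b h.castSucc

/-- the parameters of a hinge between a region of class `A` (in whose slot `p` the hinge is) and a
region of class `B`; `P`, `Q`: classes of the outer neighbours of the two regions -/
noncomputable def hpp (p : Fin 3) (P A B Q : Cl) : HPar := if p = 2 then hp P A B Q else hp Q B A P

theorem Adj.par (A : Adj h i p j) (b : Fin (M + 1) → ℤ) : par1 b (.inl h) =
    hpp p (oc b i p.rev) (clsW b i) (clsW b j) (oc b j p) := by
  cases A
  · rfl
  · rfl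

theorem Adj.cl_eq (A : Adj h i p j) (b : Fin (M + 1) → ℤ) : wcl b h =
    (hpp p (oc b i p.rev) (clsW b i) (clsW b j) (oc b j p)).cl := by
  rw [← A.par b]; rfl

theorem Adj.cr_eq (A : Adj h i p j) (b : Fin (M + 1) → ℤ) : wcr b h =
    (hpp p (oc b i p.rev) (clsW b i) (clsW b j) (oc b j p)).cr := by
  rw [← A.par b]; rfl

theorem Adj.XM_eq (A : Adj h i p j) (b : Fin (M + 1) → ℤ) : wXM b h =
    (hpp p (oc b i p.rev) (clsW b i) (clsW b j) (oc b j p)).XM := by
  rw [← A.par b]; rfl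

end SR

end Pool.Agent.Work.MP_b30479_gtS.G2

end

section

/-!
# Push-back of the regions of a word, in the own frame
-/

namespace Pool.Agent.Work.MP_b30479_gtS.G2

open Finset VOL Filter Topology

namespace SR

variable {M : ℕ} {b : Fin (M + 1) → ℤ} {zs : DD (tyW b) ⊕ ZZ (tyW b) → ℂ}
variable {y : DD (tyW b) ⊕ ZZ (tyW b) → ℝ}
variable {h h' : Fin M} {i j j' : Fin (M + 1)} {p : Fin 3}

/-! ### sides of a region at general local variables -/

section
variable (X : Fin 3 → ℂ) (m : ℝ)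

theorem Adj.rs_one (A : Adj h i p j) (hb : ClassW b) (hc : clsW b i = .one) :
    rside (tyW b) b i p m X = S1 1 (ofs (b i) m) (ofr (b i) (X p)) (ofr (b i) (X p.rev)) := by
  have ht := tyW_of_one hc
  cases A
  · unfold rside
    rw [decide_castSucc, ht]
    exact side_one_two (hb.ne _) _ _ _
  · unfold rside
    rw [decide_succ, ht]
    exact side_one_zero (hb.ne _) _ _ _

theorem Adj.rs_two (A : Adj h i p j) (hb : ClassW b) (hc : clsW b i = .two ∨ clsW b i = .twoE) :
    rside (tyW b) b i p m X = S2 1 (ofs (b i) m) (ofr (b i) (X p)) (ofr (b i) (X p.rev)) := by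
  have ht := tyW_of_two hc
  cases A
  · unfold rside
    rw [decide_castSucc, ht]
    exact side_two_two (hb.ne _) _ _ _
  · unfold rside
    rw [decide_succ, ht]
    exact side_two_zero (hb.ne _) _ _ _

theorem Adj.rs_threeE (A : Adj h i p j) (hb : ClassW b) (hc : clsW b i = .threeE) :
    rside (tyW b) b i p m X = S3 1 (ofs (b i) m) (ofr (b i) (X p)) (ofr (b i) (X 1)) := by
  have h3 := clsW_nat3 (Or.inr hc)
  have he := clsW_end (Or.inr hc)
  cases A
  · have ht : tyW b h.castSucc = .threeR := by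
      have h0 : h.castSucc = 0 := by
        unfold isEnd at he
        rcases of_decide_eq_true he with h1 | h1
        · exact h1
        · exact absurd h1 (Fin.castSucc_lt_last h).ne
      unfold tyW
      rw [if_neg (by omega), if_neg (by omega), if_pos h3, if_pos h0]
    unfold rside
    rw [decide_castSucc, ht]
    exact side_threeR_two (hb.ne _) _ _ _
  · have ht : tyW b h.succ = .threeL := by
      unfold tyW
      rw [if_neg (by omega), if_neg (by omega), if_pos h3, if_neg (Fin.succ_ne_zero h)]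
    unfold rside
    rw [decide_succ, ht]
    exact side_threeL_zero (hb.ne _) _ _ _

theorem Adj.rs_three_two (A : Adj h i 2 j) (hb : ClassW b) (hc : clsW b i = .three) :
    rside (tyW b) b i 2 m X = S2 1 (ofs (b i) m) (ofr (b i) (X 2)) (ofr (b i) (X 1)) := by
  have ht := tyW_of_three hc
  cases A
  unfold rside
  rw [decide_castSucc, ht]
  exact side_threeL_two (hb.ne _) _ _ _

theorem Adj.rs_three_zero (A : Adj h i 0 j) (hb : ClassW b) (hc : clsW b i = .three) :
    rside (tyW b) b i 0 m X = S3 1 (ofs (b i) m) (ofr (b i) (X 0)) (ofr (b i) (X 1)) := by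
  have ht := tyW_of_three hc
  cases A
  unfold rside
  rw [decide_succ, ht]
  exact side_threeL_zero (hb.ne _) _ _ _

theorem Adj.rs_ring (A : Adj h i p j) (hb : ClassW b) (hc : clsW b i = .ring) :
    rside (tyW b) b i p m X = S4 (ofs (b i) m) (ofr (b i) (X p)) (ofz (b i) (X 1)) := by
  have ht := tyW_of_ring hb hc
  cases A
  · unfold rside
    rw [decide_castSucc, ht]
    exact side_ring_two'' _ _ _
  · unfold rside
    rw [decide_succ, ht]
    exact side_ring_zero'' _ _ _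

end

/-! ### the saddle point in the own frame -/

/-- local variables of the saddle point in the own frame of the region `i` -/
noncomputable def Ys (b : Fin (M + 1) → ℤ) (zs : DD (tyW b) ⊕ ZZ (tyW b) → ℂ) (i : Fin (M + 1))
    (p : Fin 3) : ℂ := ofr (b i) (xx (tyW b) i zs p)

/-- the ring variable of the saddle point in its own frame -/
noncomputable def Zs (b : Fin (M + 1) → ℤ) (zs : DD (tyW b) ⊕ ZZ (tyW b) → ℂ)
    (i : Fin (M + 1)) : ℂ := ofz (b i) (xx (tyW b) i zs 1)

theorem Adj.xs_eq (A : Adj h i p j) (x : DD (tyW b) ⊕ ZZ (tyW b) → ℂ) :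
    xx (tyW b) i x p = x (.inl (.inl h)) := by
  cases A
  · exact xx_right _ _ _
  · exact xx_left _ _ _

theorem Adj.Ys_eq (A : Adj h i p j) : Ys b zs i p = ofr (b i) (zs (.inl (.inl h))) := by
  unfold Ys
  rw [A.xs_eq]

theorem Adj.Ys_re (A : Adj h i p j) : (Ys b zs i p).re = (zs (.inl (.inl h))).re := by
  rw [A.Ys_eq, ofr_re]

theorem Adj.Ys_im (A : Adj h i p j) : (Ys b zs i p).im = ofs (b i) (zs (.inl (.inl h))).im := by
  rw [A.Ys_eq, ofr_im]

theorem Adj.Ys_other (A : Adj h i p j) (he : isEnd i = true) : Ys b zs i p.rev = 0 := by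
  cases A
  · have h0 : h.castSucc = 0 := by
      unfold isEnd at he
      rcases of_decide_eq_true he with h1 | h1
      · exact h1
      · exact absurd h1 (Fin.castSucc_lt_last h).ne
    unfold Ys
    rw [h0]
    show ofr _ (xx (tyW b) 0 zs 0) = 0
    rw [xx_left_zero, ofr_zero]
  · have h0 : h.succ = Fin.last M := by
      unfold isEnd at he
      rcases of_decide_eq_true he with h1 | h1
      · exact absurd h1 (Fin.succ_ne_zero h)
      · exact h1
    unfold Ys
    rw [h0]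
    show ofr _ (xx (tyW b) (Fin.last M) zs 2) = 0
    rw [xx_right_last, ofr_zero]

/-! ### push-back -/

/-- push-back of a side `S` at slope `0`; `x`, `k`: own and other hinge, `xs`, `ks` at the saddle
point; `s`, `ss`: values of the side -/
def PushV (x k xs ks : ℂ) (s ss : ℝ) : Prop :=
  (xs.re < x.re → |gh k.re - gh ks.re| ≤ gh x.re - gh xs.re → s < ss) ∧
  (x.re < xs.re → |gh k.re - gh ks.re| ≤ gh xs.re - gh x.re → ss < s)

theorem Adj.push_iff (_ : Adj h i p j) : Push' (tyW b) b i p p.rev (Xw b zs y i) (xx (tyW b) i zs) ↔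
    PushV (Yw b zs y i p) (Yw b zs y i p.rev) (Ys b zs i p) (Ys b zs i p.rev)
      (rside (tyW b) b i p 0 (Xw b zs y i)) (rside (tyW b) b i p 0 (xx (tyW b) i zs)) := by
  unfold Push' PushV Yw Ys
  simp only [ofr_re]

theorem ofs_zero' (c : ℤ) : ofs c 0 = 0 := by unfold ofs; split_ifs <;> simp

theorem Adj.push_one (A : Adj h i p j) (hb : ClassW b) (hc : clsW b i = .one)
    (H : PushV (Yw b zs y i p) (Yw b zs y i p.rev) (Ys b zs i p) (Ys b zs i p.rev)
      (S1 1 0 (Yw b zs y i p) (Yw b zs y i p.rev)) (S1 1 0 (Ys b zs i p) (Ys b zs i p.rev))) :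
    Push' (tyW b) b i p p.rev (Xw b zs y i) (xx (tyW b) i zs) := by
  rw [A.push_iff, A.rs_one _ _ hb hc, A.rs_one _ _ hb hc, ofs_zero']
  exact H

theorem Adj.push_two (A : Adj h i p j) (hb : ClassW b)
    (hc : clsW b i = .two ∨ clsW b i = .twoE)
    (H : PushV (Yw b zs y i p) (Yw b zs y i p.rev) (Ys b zs i p) (Ys b zs i p.rev)
      (S2 1 0 (Yw b zs y i p) (Yw b zs y i p.rev)) (S2 1 0 (Ys b zs i p) (Ys b zs i p.rev))) :
    Push' (tyW b) b i p p.rev (Xw b zs y i) (xx (tyW b) i zs) := by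
  rw [A.push_iff, A.rs_two _ _ hb hc, A.rs_two _ _ hb hc, ofs_zero']
  exact H

theorem Adj.push_threeE (A : Adj h i p j) (hb : ClassW b) (hc : clsW b i = .threeE)
    (H : PushV (Yw b zs y i p) (Yw b zs y i p.rev) (Ys b zs i p) (Ys b zs i p.rev)
      (S3 1 0 (Yw b zs y i p) (Yw b zs y i 1)) (S3 1 0 (Ys b zs i p) (Ys b zs i 1))) :
    Push' (tyW b) b i p p.rev (Xw b zs y i) (xx (tyW b) i zs) := by
  rw [A.push_iff, A.rs_threeE _ _ hb hc, A.rs_threeE _ _ hb hc, ofs_zero']
  exact H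

theorem Adj.push_three_two (A : Adj h i 2 j) (hb : ClassW b) (hc : clsW b i = .three)
    (H : PushV (Yw b zs y i 2) (Yw b zs y i 0) (Ys b zs i 2) (Ys b zs i 0)
      (S2 1 0 (Yw b zs y i 2) (Yw b zs y i 1)) (S2 1 0 (Ys b zs i 2) (Ys b zs i 1))) :
    Push' (tyW b) b i 2 0 (Xw b zs y i) (xx (tyW b) i zs) := by
  have := A.push_iff (b := b) (zs := zs) (y := y)
  rw [show (2 : Fin 3).rev = 0 from rfl] at this
  rw [this, A.rs_three_two _ _ hb hc, A.rs_three_two _ _ hb hc, ofs_zero']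
  exact H

theorem Adj.push_three_zero (A : Adj h i 0 j) (hb : ClassW b) (hc : clsW b i = .three)
    (H : PushV (Yw b zs y i 0) (Yw b zs y i 2) (Ys b zs i 0) (Ys b zs i 2)
      (S3 1 0 (Yw b zs y i 0) (Yw b zs y i 1)) (S3 1 0 (Ys b zs i 0) (Ys b zs i 1))) :
    Push' (tyW b) b i 0 2 (Xw b zs y i) (xx (tyW b) i zs) := by
  have := A.push_iff (b := b) (zs := zs) (y := y)
  rw [show (0 : Fin 3).rev = 2 from rfl] at this
  rw [this, A.rs_three_zero _ _ hb hc, A.rs_three_zero _ _ hb hc, ofs_zero']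
  exact H

theorem Adj.push_ring (A : Adj h i p j) (hb : ClassW b) (hc : clsW b i = .ring)
    (H : PushV (Yw b zs y i p) (Yw b zs y i p.rev) (Ys b zs i p) (Ys b zs i p.rev)
      (S4 0 (Yw b zs y i p) (Zw b zs y i)) (S4 0 (Ys b zs i p) (Zs b zs i))) :
    Push' (tyW b) b i p p.rev (Xw b zs y i) (xx (tyW b) i zs) := by
  rw [A.push_iff, A.rs_ring _ _ hb hc, A.rs_ring _ _ hb hc, ofs_zero']
  exact H

/-- push-back at a hinge from both sides -/
theorem push_hinge (h : Fin M)
    (H : ∀ i p j, Adj h i p j → Push' (tyW b) b i p p.rev (Xw b zs y i) (xx (tyW b) i zs)) :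
    Push' (tyW b) b h.castSucc 2 0 (xx (tyW b) h.castSucc ((wpar b zs).pth zs y))
      (xx (tyW b) h.castSucc zs) ∧
    Push' (tyW b) b h.succ 0 2 (xx (tyW b) h.succ ((wpar b zs).pth zs y))
      (xx (tyW b) h.succ zs) :=
  ⟨H _ _ _ .l, H _ _ _ .r⟩

end SR

end Pool.Agent.Work.MP_b30479_gtS.G2

end
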