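import Pool.Agent.Work.MP_b30479_gt.TBS.G2.MPRun
import Pool.Agent.Work.MP_b30479_gt.TBS.G2.MPFocD
import Pool.Agent.Work.MP_b30479_gt.TBS.G2.RMon
import Pool.Agent.Work.MP_b30479_gt.TBS.LT.Cube

section

/-!
# The left ramps: parameters and reduction to real functions

Everything is in the own frame of the region (digit `1` or `2`) whose side is estimated.
-/

namespace Pool.Agent.Work.MP_b30479_gtS.G2

open Real Set VOL

namespace ML

open SR

/-- length of the left ramp of a hinge between a digit `1` and a region of class `B` -/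
noncomputable def cl1 : Cl → ℝ
  | .one => 18 / 100
  | .two => 16 / 100
  | .twoE => 16 / 100
  | .three => 15 / 100
  | .threeE => 14 / 100
  | .ring => 16 / 100

/-- lowest height of a hinge between a digit `1` and a region of class `B`, in the frame of the
digit `1` -/
noncomputable def lo1 : Cl → ℝ
  | .one => -(118 / 1000)
  | .two => -(18 / 1000)
  | .twoE => -(66 / 1000)
  | .three => 21 / 1000
  | .threeE => 10 / 1000
  | .ring => 38 / 1000

/-- largest height -/
noncomputable def hi1 : Cl → ℝ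
  | .one => 118 / 1000
  | .two => 985 / 10000
  | .twoE => 1 / 1000
  | .three => 1145 / 10000
  | .threeE => 78 / 1000
  | .ring => 158 / 1000

/-- bound for the right end of the path -/
noncomputable def XM1 : Cl → ℝ
  | .one => 7 / 10
  | .two => 65 / 100
  | .twoE => 65 / 100
  | .three => 54 / 100
  | .threeE => 50 / 100
  | .ring => 65 / 100

/-- right caps used in the second left round -/
noncomputable def cap1 : Cl → ℝ
  | .one => 58 / 100
  | .two => 485 / 1000
  | .twoE => 485 / 1000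
  | .three => 485 / 1000
  | .threeE => 485 / 1000
  | .ring => 485 / 1000

/-- the shift on the left ramps -/
noncomputable def sh1 : Cl → ℝ → ℝ
  | .one, x => if x ≤ 126 / 1000 then π - 9 * x else π - 5 * x
  | .ring, x => π - 6 * x
  | _, x => π - 9 / 2 * x

/-- bounds for the side of a digit `1` in the first left round (`x ≤ 7/10 cl`) -/
noncomputable def e10 : Cl → ℝ
  | .one => 1 / 200
  | .two => 2 / 10
  | .twoE => -(5 / 100)
  | .three => 44 / 100
  | .threeE => 44 / 100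
  | .ring => 28 / 100

/-- bounds for the side of a digit `1` in the second left round (`7/10 cl ≤ x ≤ cl`) -/
noncomputable def e11 : Cl → ℝ
  | .one => 1 / 50
  | .two => 115 / 1000
  | .twoE => 9 / 100
  | .three => 30 / 100
  | .threeE => 35 / 100
  | .ring => 8 / 100

/-- in a run of type one, one of the two neighbours has size at most two -/
def okp (B C : Cl) : Prop :=
  (B = .one ∨ B = .two ∨ B = .twoE) ∨ (C = .one ∨ C = .two ∨ C = .twoE)

/-- length of the left ramp of a hinge between a digit `2` (`2` at an end if `e`) and `B` -/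
noncomputable def cl2 (e : Bool) : Cl → ℝ
  | .one => 16 / 100
  | .three => if e then 15 / 100 else 1 / 10
  | _ => 1 / 10

/-- the shift at a digit `2` -/
noncomputable def sh2 : Cl → ℝ → ℝ
  | .one, x => π - 9 / 2 * x
  | _, _ => π / 2

end ML

end Pool.Agent.Work.MP_b30479_gtS.G2

end

section

/-!
# The left rounds
-/

namespace Pool.Agent.Work.MP_b30479_gtS.G2

open Finset VOL Filter Topology

namespace SR

open ML

variable {M : ℕ} {b : Fin (M + 1) → ℤ} {zs : DD (tyW b) ⊕ ZZ (tyW b) → ℂ}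
variable {y : DD (tyW b) ⊕ ZZ (tyW b) → ℝ}
variable {h h' : Fin M} {i j j' : Fin (M + 1)} {p : Fin 3}

/-! ### facts about the classes -/

theorem clsW_small {i : Fin (M + 1)} : (clsW b i = .one ∨ clsW b i = .two ∨ clsW b i = .twoE) ↔
    ((b i).natAbs = 1 ∨ (b i).natAbs = 2) := by
  unfold clsW cls
  constructor
  · intro hc
    split_ifs at hc with h1 h2 h3 h4 h5 <;> simp_all
  · intro hc
    rcases hc with hc | hc
    · left; rw [if_pos hc]
    · right
      rw [if_neg (by omega), if_pos hc]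
      split_ifs <;> simp

/-- one of the neighbours of a digit `±1` is small -/
theorem okp_of (hb : ClassW b) (A : Adj h i p j) (A' : Adj h' i p.rev j')
    (hc : clsW b i = .one) : okp (clsW b j) (clsW b j') := by
  have h1 : (b i).natAbs = 1 := by
    have := tyW_of_one hc
    unfold tyW at this
    split_ifs at this with h1
    exact h1
  have key : ∀ (n : ℕ) (hn : n + 2 < M + 1), (b ⟨n + 1, by omega⟩).natAbs = 1 →
      ((b ⟨n, by omega⟩).natAbs = 1 ∨ (b ⟨n, by omega⟩).natAbs = 2) ∨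
      ((b ⟨n + 2, hn⟩).natAbs = 1 ∨ (b ⟨n + 2, hn⟩).natAbs = 2) := by
    intro n hn h
    have h2 := hb.one n hn h
    have h3 := hb.ne ⟨n, by omega⟩
    have h4 := hb.ne ⟨n + 2, hn⟩
    omega
  unfold okp
  rw [clsW_small, clsW_small]
  have aux : ∀ {h h' : Fin M}, h.castSucc = h'.succ →
      (b h.castSucc).natAbs = 1 → ((b h'.castSucc).natAbs = 1 ∨ (b h'.castSucc).natAbs = 2) ∨
      ((b h.succ).natAbs = 1 ∨ (b h.succ).natAbs = 2) := by
    intro h h' e h1
    have e1 : h.val = h'.val + 1 := by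
      have := congrArg Fin.val e
      simpa using this
    have e2 : h.succ = ⟨h'.val + 2, by omega⟩ := by
      apply Fin.ext
      simp [e1]
    have e3 : h.castSucc = ⟨h'.val + 1, by omega⟩ := by
      apply Fin.ext
      simp [e1]
    have e4 : h'.castSucc = ⟨h'.val, by omega⟩ := rfl
    rw [e3] at h1
    rw [e4, e2]
    exact key h'.val (by omega) h1
  generalize hi' : i = i' at A'
  generalize hp' : p.rev = p' at A'
  cases A
  · cases A'
    · exact absurd hp' (by decide)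
    · exact (aux hi' h1).symm
  · cases A'
    · have h2 := h1
      rw [hi'] at h2
      exact aux hi'.symm h2
    · exact absurd hp' (by decide)

theorem Adj.eq_of (A : Adj h i p j) (A' : Adj h' i p j') : h = h' ∧ j = j' := by
  generalize hi' : i = i' at A'
  generalize hp' : p = p' at A'
  cases A
  · cases A'
    · have := Fin.castSucc_injective _ hi'
      subst this
      exact ⟨rfl, rfl⟩
    · exact absurd hp' (by decide)
  · cases A'
    · exact absurd hp' (by decide)
    · have := Fin.succ_injective _ hi'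
      subst this
      exact ⟨rfl, rfl⟩

theorem Adj.good (_ : Adj h i p j) : 0 < wcl b h ∧ 0 < wcr b h ∧ wcl b h + wcr b h < wXM b h :=
  ⟨wcl_pos h, wcr_pos h, w_sum h⟩

/-! ### the order -/

/-- the inequality at the hinge with the least `y / cl` -/
def Least (b : Fin (M + 1) → ℤ) (y : DD (tyW b) ⊕ ZZ (tyW b) → ℝ) (h : Fin M) : Prop :=
  ∀ j : Fin M, y (.inl (.inl h)) / wcl b h ≤ y (.inl (.inl j)) / wcl b j

/-- the shift on the left ramp at a hinge between the classes `A` and `B` -/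
noncomputable def shL (A B : Cl) (x : ℝ) : ℝ :=
  if A = .one then sh1 B x else if B = .one then sh1 A x else Real.pi / 2

theorem shL_comm (A B : Cl) (x : ℝ) : shL A B x = shL B A x := by
  unfold shL
  by_cases h1 : A = .one
  · by_cases h2 : B = .one
    · rw [h1, h2]
    · rw [if_pos h1, if_neg h2, if_pos h1]
  · by_cases h2 : B = .one
    · rw [if_neg h1, if_pos h2, if_pos h2]
    · rw [if_neg h1, if_neg h2, if_neg h2, if_neg h1]

/-! ### bounds for the other regions -/

/-- interior `3`; `p = 2`: it is on the left of the hinge -/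
noncomputable def e3 (l : Bool) (p : Fin 3) : Cl → ℝ
  | .one => if l then -(43 / 100) else -(29 / 100)
  | .two => -(9 / 100)
  | .twoE => if p = 2 then -(19 / 100) else 39 / 100
  | _ => 1 / 100

/-- `3` at an end -/
noncomputable def e3E (l : Bool) : Cl → ℝ
  | .one => if l then -(43 / 100) else -(34 / 100)
  | .two => -(9 / 100)
  | .twoE => -(19 / 100)
  | _ => 1 / 100

/-- ring; `T`: height of the saddle point in the own frame -/
noncomputable def eR (l : Bool) (B : Cl) (T : ℝ) : ℝ :=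
  match B with
  | .one => if l then -(27 / 100) else if -(1 / 10) ≤ T then -(12 / 100) else -(7 / 100)
  | .two => -(9 / 100)
  | .twoE => -(19 / 100)
  | _ => 0

/-- **A left round** with the floors `f` (the order is the one of `y / f`). -/
theorem left_stage (hb : ClassW b) (hy : IsMx (wdat (tyW b) b) (wpar b zs) zs y)
    (hpos : ∀ h : Fin M, 0 < y (.inl (.inl h))) {f : Fin M → ℝ} (hf : ∀ h, 0 < f h)
    (hf' : ∀ h, f h ≤ wcl b h)
    (H : ∀ h : Fin M, y (.inl (.inl h)) < f h →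
      (∀ k : Fin M, y (.inl (.inl h)) / f h ≤ y (.inl (.inl k)) / f k) →
      ∃ c e1 e2 : ℝ, (0 < b h.castSucc * b h.succ → c = 0) ∧ 0 < e1 + e2 ∧
        LSide b zs y h ((zs (.inl (.inl h))).im / wcl b h) c e1 e2) (h : Fin M) :
    f h ≤ y (.inl (.inl h)) :=
  round_left' hb hy hpos hf hf' H h

end SR

end Pool.Agent.Work.MP_b30479_gtS.G2

end

section

/-!
# Rounds: floors and caps of the hinges of a maximiser
-/

namespace Pool.Agent.Work.MP_b30479_gtS.G2

open Finset VOL Filter Topology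

namespace SR

variable {M : ℕ} {b : Fin (M + 1) → ℤ} {zs : DD (tyW b) ⊕ ZZ (tyW b) → ℂ}
variable {y : DD (tyW b) ⊕ ZZ (tyW b) → ℝ}
variable {h h' : Fin M} {i j j' : Fin (M + 1)} {p : Fin 3}

/-- tables of floors or caps: slot of the hinge in the own region, class of the own region, class
of the region across the hinge -/
abbrev Tab := Fin 3 → Cl → Cl → ℝ

/-- the hinges of `y` are above the table `T` -/
def Flr (b : Fin (M + 1) → ℤ) (y : DD (tyW b) ⊕ ZZ (tyW b) → ℝ) (T : Tab) : Prop :=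
  ∀ {h : Fin M} {i j : Fin (M + 1)} {p : Fin 3}, Adj h i p j →
    T p (clsW b i) (clsW b j) ≤ y (.inl (.inl h))

/-- the hinges of `y` are below the table `T` -/
def Cap (b : Fin (M + 1) → ℤ) (y : DD (tyW b) ⊕ ZZ (tyW b) → ℝ) (T : Tab) : Prop :=
  ∀ {h : Fin M} {i j : Fin (M + 1)} {p : Fin 3}, Adj h i p j →
    y (.inl (.inl h)) ≤ T p (clsW b i) (clsW b j)

/-- the two hinges of a digit `1` have sum at most `c` -/
def Sum1 (b : Fin (M + 1) → ℤ) (y : DD (tyW b) ⊕ ZZ (tyW b) → ℝ) (c : ℝ) : Prop :=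
  ∀ {h h' : Fin M} {i j j' : Fin (M + 1)} {p : Fin 3}, Adj h i p j → Adj h' i p.rev j' →
    clsW b i = .one → y (.inl (.inl h)) + y (.inl (.inl h')) ≤ c

/-- the two hinges of a digit `2` have sum at most `c` -/
def Sum2 (b : Fin (M + 1) → ℤ) (y : DD (tyW b) ⊕ ZZ (tyW b) → ℝ) (c : ℝ) : Prop :=
  ∀ {h h' : Fin M} {i j j' : Fin (M + 1)} {p : Fin 3}, Adj h i p j → Adj h' i p.rev j' →
    clsW b i = .two → y (.inl (.inl h)) + y (.inl (.inl h')) ≤ c

theorem Flr.mono {T T' : Tab} (H : Flr b y T) (h : ∀ p A B, T' p A B ≤ T p A B) : Flr b y T' :=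
  fun A => (h _ _ _).trans (H A)

theorem Cap.mono {T T' : Tab} (H : Cap b y T) (h : ∀ p A B, T p A B ≤ T' p A B) : Cap b y T' :=
  fun A => (H A).trans (h _ _ _)

/-- positive hinges -/
theorem Flr.zero (hpos : ∀ h : Fin M, 0 < y (.inl (.inl h))) : Flr b y fun _ _ _ => 0 :=
  fun {h} _ _ _ _ => (hpos h).le

end SR

end Pool.Agent.Work.MP_b30479_gtS.G2

end

section

/-!
# Part of `WChL`
-/
namespace Pool.Agent.Work.MP_b30479_gtS.G2

open Finset VOL Filter Topology

namespace SR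

open ML

variable {M : ℕ} {b : Fin (M + 1) → ℤ} {zs : DD (tyW b) ⊕ ZZ (tyW b) → ℂ}
variable {y : DD (tyW b) ⊕ ZZ (tyW b) → ℝ}
variable {h h' h1 h2 : Fin M} {i j j' j1 j2 : Fin (M + 1)} {p : Fin 3}

/-- lower bounds (strict) of the side of an interior `3` in the round `n`; `p`: slot of the hinge,
`B`: the class across the hinge -/
noncomputable def e3T (n : ℕ) (p : Fin 3) (B : Cl) : ℝ :=
  match B with
  | .one => if p = 2 then (if n = 0 then -(255 / 1000) else if n = 1 then -(44 / 100)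
      else -(285 / 1000)) else (if n = 0 then -(20 / 100) else -(295 / 1000))
  | .two => if p = 2 then (if n = 0 then -(10 / 100) else -(20 / 100)) else 10 / 100
  | .twoE => if p = 2 then 19 / 100 else 40 / 100
  | .three => if p = 2 then -(5 / 100) else 5 / 100
  | .threeE => if p = 2 then 4 / 100 else 10 / 100
  | .ring => if p = 2 then (if n = 1 then 3 / 100 else -(10 / 100)) else 15 / 100

/-- the sides of the interior regions with three crossings in the round `n` with floors `F` -/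
def ThreeSd (b : Fin (M + 1) → ℤ) (zs : DD (tyW b) ⊕ ZZ (tyW b) → ℂ)
    (y : DD (tyW b) ⊕ ZZ (tyW b) → ℝ) (n : ℕ) (F : Tab) : Prop :=
  ∀ {h : Fin M} {i j : Fin (M + 1)} {p : Fin 3}, Adj h i p j → clsW b i = .three →
    y (.inl (.inl h)) < F p .three (clsW b j) →
    e3T n p (clsW b j) < Sw b zs y i p ((zs (.inl (.inl h))).im / wcl b h) +
      shL .three (clsW b j) (y (.inl (.inl h))) * ofs (b i) ((zs (.inl (.inl h))).im / wcl b h)

theorem shL_of_ne {A B : Cl} (hA : A ≠ .one) (hB : B ≠ .one) (x : ℝ) :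
    shL A B x = Real.pi / 2 := by
  unfold shL
  rw [if_neg hA, if_neg hB]

end SR

end Pool.Agent.Work.MP_b30479_gtS.G2

end

section

/-!
# The inner variable of a region with three crossings, in the own frame
-/

namespace Pool.Agent.Work.MP_b30479_gtS.G2

open Finset VOL Filter Topology

theorem side_mid_own {b : ℤ} (hb : b ≠ 0) {t : Typ} (ht : t.isMid = true) (hs : t.Std) (l r : Bool)
    (m : ℝ) (x : Fin 3 → ℂ) :
    side t b l r 1 m x = side t (b.natAbs : ℤ) l r 1 (ofs b m) (own b t x) := by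
  unfold own
  rcases lt_or_gt_of_ne hb with h | h
  · rw [if_neg (by omega), ofs_neg h]
    have e : (b.natAbs : ℤ) = -b := by omega
    rw [e, side_cj_mid hb l r m x t ht hs]
  · rw [if_pos h, ofs_pos h]
    have e : (b.natAbs : ℤ) = b := by omega
    rw [e]

theorem side_threeL_SM {b : ℤ} (hb : 0 < b) (l r : Bool) (m : ℝ) (x : Fin 3 → ℂ) :
    side .threeL b l r 1 m x = SM m (x 0) (x 1) (x 2) := by
  unfold side SM
  rw [d1_threeL_one, d2_threeL_one]
  unfold sgb
  rw [if_pos hb]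
  ring

theorem side_threeR_SM {b : ℤ} (hb : 0 < b) (l r : Bool) (m : ℝ) (x : Fin 3 → ℂ) :
    side .threeR b l r 1 m x = SM m (x 2) (x 1) (x 0) := by
  unfold side SM
  rw [d1_threeR_one, d2_threeR_one, add_comm (x 0) (x 1)]
  unfold sgb
  rw [if_pos hb]
  ring

/-- first-order conditions for a variable `v` on its path: `S m` is the derivative along the slope
`m`; `T`: height of the saddle point in the own frame -/
structure FOC (v : ℂ) (T XM cl cr : ℝ) (S : ℝ → ℝ) : Prop where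
  left : v.re < cl → S (T / cl) ≤ 0
  left' : v.re ≤ cl → 0 ≤ S (T / cl)
  flat : cl ≤ v.re → v.re < XM - cr → S 0 ≤ 0
  flat' : cl < v.re → v.re ≤ XM - cr → 0 ≤ S 0
  right : XM - cr ≤ v.re → v.re < XM → S (-(T / cr)) ≤ 0
  right' : XM - cr < v.re → 0 ≤ S (-(T / cr))

namespace SR

variable {M : ℕ} {b : Fin (M + 1) → ℤ} {zs : DD (tyW b) ⊕ ZZ (tyW b) → ℂ}
variable {y : DD (tyW b) ⊕ ZZ (tyW b) → ℝ}
variable {h h' : Fin M} {i j j' : Fin (M + 1)} {p : Fin 3}

/-- the side of the inner variable of the region `i` in its own frame -/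
noncomputable def OM (b : Fin (M + 1) → ℤ) (zs : DD (tyW b) ⊕ ZZ (tyW b) → ℂ)
    (y : DD (tyW b) ⊕ ZZ (tyW b) → ℝ) (i : Fin (M + 1)) (m : ℝ) : ℝ :=
  side (tyW b i) ((b i).natAbs : ℤ) (decide (i ≠ 0)) (decide (i ≠ Fin.last M)) 1 m (OY b zs y i)

/-- first-order conditions of the inner variable in the own frame -/
theorem mid_fc (hb : ClassW b) (hy : IsMx (wdat (tyW b) b) (wpar b zs) zs y)
    (hpos : ∀ k : Fin M, 0 < y (.inl (.inl k))) (m : {i : Fin (M + 1) // (tyW b i).isMid = true})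
    (hm : 0 < y (.inl (.inr m))) :
    FOC (Yw b zs y m.1 1) (ofs (b m.1) (zs (.inl (.inr m))).im) ((wpar b zs).XM (.inr m))
      ((wpar b zs).cl (.inr m)) ((wpar b zs).cr (.inr m)) (OM b zs y m.1) := by
  have hS := std_wpar b zs
  have hg := wpar_good b zs
  have hre : (Yw b zs y m.1 1).re = y (.inl (.inr m)) := by
    rw [Yw_mid, ofr_pp_re]
  have hR := fun hx => hy.foc_mid_right hS hpos m hm hx
  have hL := hy.foc_mid_left hS hpos m hm
  have key : ∀ q : ℝ, rside (tyW b) b m.1 1 q (xx (tyW b) m.1 ((wpar b zs).pth zs y)) =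
      OM b zs y m.1 (ofs (b m.1) q) := fun q =>
    side_mid_own (hb.ne _) m.2 (tyW_std b _) _ _ q _
  rw [key] at hL
  simp only [key] at hR
  obtain ⟨hc, hc', hs⟩ := hg (.inr m)
  rw [← hre] at hR hL hm
  refine ⟨?_, ?_, ?_, ?_, ?_, ?_⟩
  · intro h1
    have := hR (by linarith)
    rwa [sR_left zs _ h1, ofs_div] at this
  · intro h1
    rwa [sL_left zs _ h1, ofs_div] at hL
  · intro h0 h1
    have := hR (by linarith)
    rwa [sR_flat zs _ h0 h1, ofs_zero'] at this
  · intro h0 h1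
    rwa [sL_flat zs _ h0 h1, ofs_zero'] at hL
  · intro h0 h1
    have := hR h1
    rwa [sR_right hg zs _ h0, ofs_neg', ofs_div] at this
  · intro h0
    rwa [sL_right hg zs _ h0, ofs_neg', ofs_div] at hL

/-- an interior region with three crossings: closed form of the side of the inner variable -/
theorem OM_three (hc : clsW b i = .three) (m : ℝ) : OM b zs y i m =
    SM m (Yw b zs y i 0) (Yw b zs y i 1) (Yw b zs y i 2) := by
  have ht := tyW_of_three hc
  have h3 := clsW_nat3 (Or.inl hc)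
  unfold OM
  rw [ht, side_threeL_SM (by omega), OY_zero, OY_one (by rw [ht]; decide), OY_two]

/-- a region with three crossings at an end -/
theorem Adj.OM_threeE (A : Adj h i p j) (hc : clsW b i = .threeE) (m : ℝ) :
    OM b zs y i m = SM m (Yw b zs y i p) (Yw b zs y i 1) 0 := by
  have h3 := clsW_nat3 (Or.inr hc)
  have he := clsW_end (Or.inr hc)
  cases A
  · have h0 : h.castSucc = 0 := by
      unfold isEnd at he
      rcases of_decide_eq_true he with h1 | h1
      · exact h1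
      · exact absurd h1 (Fin.castSucc_lt_last h).ne
    have ht : tyW b h.castSucc = .threeR := by
      unfold tyW
      rw [if_neg (by omega), if_neg (by omega), if_pos h3, if_pos h0]
    have e : Yw b zs y h.castSucc 0 = 0 := by rw [h0]; exact Yw_zero
    unfold OM
    rw [ht, side_threeR_SM (by omega), OY_zero, OY_one (by rw [ht]; decide), OY_two, e]
  · have h0 : h.succ = Fin.last M := by
      unfold isEnd at he
      rcases of_decide_eq_true he with h1 | h1
      · exact absurd h1 (Fin.succ_ne_zero h)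
      · exact h1
    have ht : tyW b h.succ = .threeL := by
      unfold tyW
      rw [if_neg (by omega), if_neg (by omega), if_pos h3, if_neg (Fin.succ_ne_zero h)]
    have e : Yw b zs y h.succ 2 = 0 := by rw [h0]; exact Yw_last
    unfold OM
    rw [ht, side_threeL_SM (by omega), OY_zero, OY_one (by rw [ht]; decide), OY_two, e]

theorem tyW_isMid (hc : clsW b i = .three ∨ clsW b i = .threeE) : (tyW b i).isMid = true := by
  have h3 := clsW_nat3 hc
  unfold tyW
  rw [if_neg (by omega), if_neg (by omega), if_pos h3]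
  split_ifs <;> rfl

end SR

end Pool.Agent.Work.MP_b30479_gtS.G2

end

section

/-!
# The saddle point is critical, in the own frames
-/

namespace Pool.Agent.Work.MP_b30479_gtS.G2

open Finset VOL Filter Topology

/-- the two derivatives of the growth rate of a ring run in the ring variable `ζ`; `w`, `w'`: the
hinges (`0` if absent) -/
noncomputable def RD1 (b : ℝ) (w w' ζ : ℂ) : ℝ := -(2 * Real.pi * b * ζ.im) +
  (LL (w + 1 / 2 + ζ) - LL (w + 1 / 2 - ζ)) + (LL (w' + 1 / 2 + ζ) - LL (w' + 1 / 2 - ζ))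

noncomputable def RD2 (b : ℝ) (w w' ζ : ℂ) : ℝ := -(2 * Real.pi * (b * ζ.re + 1)) +
  (YY (w + 1 / 2 + ζ) - YY (w + 1 / 2 - ζ)) + (YY (w' + 1 / 2 + ζ) - YY (w' + 1 / 2 - ζ))

theorem LL_half_sub (ζ : ℂ) : LL (0 + 1 / 2 + ζ) - LL (0 + 1 / 2 - ζ) = 0 := by
  have h := LL_one_sub (0 + 1 / 2 + ζ)
  rw [show (1 : ℂ) - (0 + 1 / 2 + ζ) = 0 + 1 / 2 - ζ by ring] at h
  rw [h, sub_self]

theorem YY_half_sub (ζ : ℂ) : YY (0 + 1 / 2 + ζ) - YY (0 + 1 / 2 - ζ) = 0 := by
  have h := YY_one_sub (0 + 1 / 2 + ζ)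
  rw [show (1 : ℂ) - (0 + 1 / 2 + ζ) = 0 + 1 / 2 - ζ by ring] at h
  rw [h, sub_self]

theorem side_ring_RD (b : ℤ) (l r : Bool) (m : ℝ) (x : Fin 3 → ℂ) (h0 : l = false → x 0 = 0)
    (h2 : r = false → x 2 = 0) :
    side .ring b l r 1 m x = RD1 b (x 0) (x 2) (x 1) + m * RD2 b (x 0) (x 2) (x 1) := by
  unfold side RD1 RD2
  rw [d1_ring_one, d2_ring_one]
  cases l
  · rw [h0 rfl]
    cases r
    · rw [h2 rfl, LL_half_sub, YY_half_sub]
      simp
    · rw [LL_half_sub, YY_half_sub]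
      simp
  · cases r
    · rw [h2 rfl, LL_half_sub, YY_half_sub]
      simp
    · simp

namespace SR

variable {M : ℕ} {b : Fin (M + 1) → ℤ} {zs : DD (tyW b) ⊕ ZZ (tyW b) → ℂ}
variable {y : DD (tyW b) ⊕ ZZ (tyW b) → ℝ}
variable {h h' : Fin M} {i j j' : Fin (M + 1)} {p : Fin 3}

/-- the saddle point is critical -/
structure Crit (b : Fin (M + 1) → ℤ) (zs : DD (tyW b) ⊕ ZZ (tyW b) → ℂ) : Prop where
  inn : ∀ k, (wdat (tyW b) b).form k zs ∈ strip
  dT : ∀ i, (wdat (tyW b) b).dT zs i = 0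

theorem Crit.d (hC : Crit b zs) (j : DD (tyW b) ⊕ ZZ (tyW b)) (m : ℝ) :
    (wdat (tyW b) b).d1 zs j + m * (wdat (tyW b) b).d2 zs j = 0 := by
  unfold Dat.d1 Dat.d2
  rw [DV_crit _ hC.inn hC.dT, DV_crit _ hC.inn hC.dT]
  ring

/-- own frame, inner discrete variable -/
theorem Crit.mid (hC : Crit b zs) (hb : ClassW b) (m : {i : Fin (M + 1) // (tyW b i).isMid = true})
    (q : ℝ) : side (tyW b m.1) ((b m.1).natAbs : ℤ) (decide (m.1 ≠ 0))
      (decide (m.1 ≠ Fin.last M)) 1 q (own (b m.1) (tyW b m.1) (xx (tyW b) m.1 zs)) = 0 := by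
  have h1 := hC.d (.inl (.inr m)) (ofs (b m.1) q)
  rw [rside_of_mid] at h1
  unfold rside at h1
  rw [side_mid_own (hb.ne _) m.2 (tyW_std b _), ofs_ofs] at h1
  exact h1

theorem Ys_own_zero (i : Fin (M + 1)) : own (b i) (tyW b i) (xx (tyW b) i zs) 0 = Ys b zs i 0 :=
  own_zero _ _ _

theorem Ys_own_two (i : Fin (M + 1)) : own (b i) (tyW b i) (xx (tyW b) i zs) 2 = Ys b zs i 2 :=
  own_two _ _ _

theorem Ys_own_one {i : Fin (M + 1)} (ht : tyW b i ≠ .ring) :
    own (b i) (tyW b i) (xx (tyW b) i zs) 1 = Ys b zs i 1 := own_one ht _ _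

theorem Zs_own {i : Fin (M + 1)} (ht : tyW b i = .ring) :
    own (b i) (tyW b i) (xx (tyW b) i zs) 1 = Zs b zs i := by
  unfold Zs
  rw [ht]
  exact own_ring _ _

/-- interior region with three crossings -/
theorem Crit.three (hC : Crit b zs) (hb : ClassW b) (hc : clsW b i = .three) (q : ℝ) :
    SM q (Ys b zs i 0) (Ys b zs i 1) (Ys b zs i 2) = 0 := by
  have ht := tyW_of_three hc
  have h3 := clsW_nat3 (Or.inl hc)
  have h1 := hC.mid hb ⟨i, tyW_isMid (Or.inl hc)⟩ q
  simp only at h1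
  rw [ht, side_threeL_SM (by omega)] at h1
  have e0 := Ys_own_zero (b := b) (zs := zs) i
  have e1 := Ys_own_one (b := b) (zs := zs) (i := i) (by rw [ht]; decide)
  have e2 := Ys_own_two (b := b) (zs := zs) i
  rw [ht] at e0 e1 e2
  rw [e0, e1, e2] at h1
  exact h1

/-- region with three crossings at an end -/
theorem Crit.threeE (hC : Crit b zs) (hb : ClassW b) (A : Adj h i p j) (hc : clsW b i = .threeE)
    (q : ℝ) : SM q (Ys b zs i p) (Ys b zs i 1) 0 = 0 := by
  have h3 := clsW_nat3 (Or.inr hc)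
  have he := clsW_end (Or.inr hc)
  have h1 := hC.mid hb ⟨i, tyW_isMid (Or.inr hc)⟩ q
  simp only at h1
  have e0 := Ys_own_zero (b := b) (zs := zs) i
  have e2 := Ys_own_two (b := b) (zs := zs) i
  have e5 := A.Ys_other (zs := zs) he
  cases A
  · have h0 : h.castSucc = 0 := by
      unfold isEnd at he
      rcases of_decide_eq_true he with h1 | h1
      · exact h1
      · exact absurd h1 (Fin.castSucc_lt_last h).ne
    have ht : tyW b h.castSucc = .threeR := by
      unfold tyW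
      rw [if_neg (by omega), if_neg (by omega), if_pos h3, if_pos h0]
    have e1 := Ys_own_one (b := b) (zs := zs) (i := h.castSucc) (by rw [ht]; decide)
    rw [ht] at e0 e1 e2
    rw [ht, side_threeR_SM (by omega), e0, e1, e2] at h1
    rw [show (2 : Fin 3).rev = 0 from rfl] at e5
    rw [e5] at h1
    exact h1
  · have ht : tyW b h.succ = .threeL := by
      unfold tyW
      rw [if_neg (by omega), if_neg (by omega), if_pos h3, if_neg (Fin.succ_ne_zero h)]
    have e1 := Ys_own_one (b := b) (zs := zs) (i := h.succ) (by rw [ht]; decide)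
    rw [ht] at e0 e1 e2
    rw [ht, side_threeL_SM (by omega), e0, e1, e2] at h1
    rw [show (0 : Fin 3).rev = 2 from rfl] at e5
    rw [e5] at h1
    exact h1

theorem Ys_zero_end : Ys b zs 0 0 = 0 := by
  unfold Ys
  rw [xx_left_zero, ofr_zero]

theorem Ys_last_end : Ys b zs (Fin.last M) 2 = 0 := by
  unfold Ys
  rw [xx_right_last, ofr_zero]

/-- ring -/
theorem Crit.ring (hC : Crit b zs) (v : ZZ (tyW b)) :
    RD1 ((b v.1).natAbs : ℝ) (Ys b zs v.1 0) (Ys b zs v.1 2) (Zs b zs v.1) = 0 ∧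
    RD2 ((b v.1).natAbs : ℝ) (Ys b zs v.1 0) (Ys b zs v.1 2) (Zs b zs v.1) = 0 := by
  have ht := tyW_ring v.2
  have key : ∀ q : ℝ, side .ring ((b v.1).natAbs : ℤ) (decide (v.1 ≠ 0))
      (decide (v.1 ≠ Fin.last M)) 1 q (own (b v.1) .ring (xx (tyW b) v.1 zs)) = 0 := by
    intro q
    have h1 := hC.d (.inr v) (ofs (b v.1) q)
    rw [rside_of_ring] at h1
    unfold rside at h1
    rw [ht] at h1
    unfold own
    by_cases h : 0 < b v.1
    · rw [if_pos h]
      rw [ofs_pos h] at h1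
      have e : ((b v.1).natAbs : ℤ) = b v.1 := by omega
      rw [e]
      exact h1
    · rw [if_neg h]
      have h2 := side_cj_ring (b := b v.1) (decide (v.1 ≠ 0)) (decide (v.1 ≠ Fin.last M))
        (ofs (b v.1) q) (xx (tyW b) v.1 zs)
      have e : ((b v.1).natAbs : ℤ) = -b v.1 := by omega
      have e2 : -ofs (b v.1) q = q := by
        unfold ofs
        rw [if_neg h]
        ring
      rw [e2, h1, neg_zero] at h2
      rw [e]
      exact h2
  have e0 := Ys_own_zero (b := b) (zs := zs) v.1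
  have e1 := Zs_own (b := b) (zs := zs) ht
  have e2 := Ys_own_two (b := b) (zs := zs) v.1
  rw [ht] at e0 e1 e2
  have k : ∀ q : ℝ, RD1 ((b v.1).natAbs : ℝ) (Ys b zs v.1 0) (Ys b zs v.1 2) (Zs b zs v.1) +
      q * RD2 ((b v.1).natAbs : ℝ) (Ys b zs v.1 0) (Ys b zs v.1 2) (Zs b zs v.1) = 0 := by
    intro q
    have h1 := key q
    rw [side_ring_RD, e0, e1, e2] at h1
    · simpa using h1
    · intro hl
      rw [e0]
      have : v.1 = 0 := by simpa using hl
      rw [this]
      exact Ys_zero_end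
    · intro hl
      rw [e2]
      have : v.1 = Fin.last M := by simpa using hl
      rw [this]
      exact Ys_last_end
  have k0 := k 0
  have k1 := k 1
  constructor <;> linarith

/-- the sides at a hinge cancel at the saddle point -/
theorem Crit.hinge (hC : Crit b zs) (h : Fin M) (q : ℝ) :
    rside (tyW b) b h.castSucc 2 q (xx (tyW b) h.castSucc zs) +
      rside (tyW b) b h.succ 0 q (xx (tyW b) h.succ zs) = 0 := by
  rw [← rside_of_hinge]
  exact hC.d _ _

end SR

end Pool.Agent.Work.MP_b30479_gtS.G2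

end

section

/-!
# Assembly of the domination: main paths, modes, tails
-/

namespace Pool.Agent.Work.MP_b30479_gtS.G2

open Finset VOL Filter Topology

/-- **The domination from its three parts.** -/
theorem dom_of_parts {D Z K : Type} [Fintype D] [Fintype Z] [Fintype K]
    {S : Dat D Z K} {P : Par D} {nb : Finset D → Finset (D ⊕ Z)} {zs : D ⊕ Z → ℂ} {v : ℝ}
    (hnb : nb ∅ = ∅)
    (hmain : ∀ z, Adm S P zs ∅ ∅ z 0 → z ≠ zs → S.V z < v)
    (hle : S.V zs ≤ v)
    (hmode : ∀ z p, Adm S P zs ∅ ∅ z p → p ≠ 0 → ∃ z', Adm S P zs ∅ ∅ z' 0 ∧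
      S.V z - 2 * Real.pi * ∑ i, p i < S.V z')
    (htail : ∀ R : Finset D, (∀ i ∈ R, P.XM i < 1) → R ≠ ∅ → ∀ z p, Adm S P zs R (nb R) z p →
      ∃ (R' : Finset D) (z' : D ⊕ Z → ℂ) (p' : D → ℝ), R' ⊂ R ∧ Adm S P zs R' (nb R') z' p' ∧
        S.V z - 2 * Real.pi * ∑ i, p i < S.V z' - 2 * Real.pi * ∑ i, p' i) :
    ∀ R : Finset D, (∀ i ∈ R, P.XM i < 1) → ∀ (z : D ⊕ Z → ℂ) (p : D → ℝ),
      Adm S P zs R (nb R) z p → (R = ∅ → p = 0 → z ≠ zs) →
      S.V z - 2 * Real.pi * ∑ i, p i < v := by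
  classical
  have h0 : ∀ z, Adm S P zs ∅ ∅ z 0 → S.V z ≤ v := by
    intro z hz
    by_cases hne : z = zs
    · rw [hne]; exact hle
    · exact (hmain z hz hne).le
  have h1 : ∀ z p, Adm S P zs ∅ ∅ z p → S.V z - 2 * Real.pi * ∑ i, p i ≤ v := by
    intro z p hz
    by_cases hp : p = 0
    · subst hp
      simp only [Pi.zero_apply, sum_const_zero, mul_zero, sub_zero]
      exact h0 z hz
    · obtain ⟨z', hz', hlt⟩ := hmode z p hz hp
      exact hlt.le.trans (h0 z' hz')
  have h2 : ∀ (n : ℕ) (R : Finset D), R.card = n → (∀ i ∈ R, P.XM i < 1) → ∀ z p,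
      Adm S P zs R (nb R) z p → S.V z - 2 * Real.pi * ∑ i, p i ≤ v := by
    intro n
    induction n using Nat.strong_induction_on with
    | _ n ih =>
      intro R hR hX z p hz
      by_cases hR0 : R = ∅
      · subst hR0
        rw [hnb] at hz
        exact h1 z p hz
      · obtain ⟨R', z', p', hR', hz', hlt⟩ := htail R hX hR0 z p hz
        exact hlt.le.trans (ih R'.card (hR ▸ card_lt_card hR') R' rfl
          (fun i hi => hX i (hR'.1 hi)) z' p' hz')
  intro R hX z p hz hne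
  by_cases hR0 : R = ∅
  · subst hR0
    rw [hnb] at hz
    by_cases hp : p = 0
    · subst hp
      simp only [Pi.zero_apply, sum_const_zero, mul_zero, sub_zero]
      exact hmain z hz (hne rfl rfl)
    · obtain ⟨z', hz', hlt⟩ := hmode z p hz hp
      exact hlt.trans_le (h0 z' hz')
  · obtain ⟨R', z', p', hR', hz', hlt⟩ := htail R hX hR0 z p hz
    exact hlt.trans_le (h2 _ R' rfl (fun i hi => hX i (hR'.1 hi)) z' p' hz')

/-- **The domination from its three parts**, the modes removed first for every set of tail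
variables. -/
theorem dom_of_parts' {D Z K : Type} [Fintype D] [Fintype Z] [Fintype K]
    {S : Dat D Z K} {P : Par D} {nb : Finset D → Finset (D ⊕ Z)} {zs : D ⊕ Z → ℂ} {v : ℝ}
    (hnb : nb ∅ = ∅)
    (hmain : ∀ z, Adm S P zs ∅ ∅ z 0 → z ≠ zs → S.V z < v)
    (hle : S.V zs ≤ v)
    (hmode : ∀ R : Finset D, (∀ i ∈ R, P.XM i < 1) → ∀ z p, Adm S P zs R (nb R) z p → p ≠ 0 →
      ∃ z', Adm S P zs R (nb R) z' 0 ∧ S.V z - 2 * Real.pi * ∑ i, p i < S.V z')
    (htail : ∀ R : Finset D, (∀ i ∈ R, P.XM i < 1) → R ≠ ∅ → ∀ z, Adm S P zs R (nb R) z 0 →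
      ∃ (R' : Finset D) (z' : D ⊕ Z → ℂ) (p' : D → ℝ), R' ⊂ R ∧ Adm S P zs R' (nb R') z' p' ∧
        S.V z < S.V z' - 2 * Real.pi * ∑ i, p' i) :
    ∀ R : Finset D, (∀ i ∈ R, P.XM i < 1) → ∀ (z : D ⊕ Z → ℂ) (p : D → ℝ),
      Adm S P zs R (nb R) z p → (R = ∅ → p = 0 → z ≠ zs) →
      S.V z - 2 * Real.pi * ∑ i, p i < v := by
  refine dom_of_parts hnb hmain hle ?_ ?_
  · intro z p hz hp
    have h := hmode ∅ (by simp) z p (by rwa [hnb]) hp
    rwa [hnb] at h
  · intro R hR hR0 z p hz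
    by_cases hp : p = 0
    · subst hp
      obtain ⟨R', z', p', h1, h2, h3⟩ := htail R hR hR0 z hz
      refine ⟨R', z', p', h1, h2, ?_⟩
      simpa using h3
    · obtain ⟨z1, hz1, hlt⟩ := hmode R hR z p hz hp
      obtain ⟨R', z', p', h1, h2, h3⟩ := htail R hR hR0 z1 hz1
      exact ⟨R', z', p', h1, h2, hlt.trans h3⟩

/-- the main paths do not depend on the heights of the mirrored paths -/
theorem Adm.main_congr {D Z K : Type} [Fintype D] [Fintype Z] [Fintype K]
    {S : Dat D Z K} {P P' : Par D} {zs : D ⊕ Z → ℂ} {R : Finset D} {nb : Finset (D ⊕ Z)}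
    {z : D ⊕ Z → ℂ} (hP : ∀ i, 0 < P.hu i ∧ 0 < P.hd i) (hX : P'.XM = P.XM) (hcl : P'.cl = P.cl)
    (hcr : P'.cr = P.cr) (h : Adm S P zs R nb z 0) : Adm S P' zs R nb z 0 := by
  refine ⟨?_, ?_, h.reZ, ?_, h.onZ, h.wall⟩
  · intro i hi
    rw [hX]
    exact h.tail i hi
  · intro i hi hn
    rw [hX]
    exact h.reD i hi hn
  · intro i hi
    obtain ⟨x, h0, h1, h2⟩ := h.onD i hi
    refine ⟨x, h0, by rw [hX]; exact h1, Or.inl ⟨?_, rfl⟩⟩
    rw [hX, hcl, hcr]
    rcases h2 with h2 | h2 | h2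
    · exact h2.1
    · obtain ⟨h3, h4⟩ := h2
      have h5 : tr 0 (P.XM i) (P.cl i) (P.cr i) x = 0 := by
        have := (mul_eq_zero.1 h4.symm).resolve_left (hP i).1.ne'
        exact this
      rw [h3]
      unfold pt
      rw [h5]
      simp
    · obtain ⟨h3, h4⟩ := h2
      have h5 : tr 0 (P.XM i) (P.cl i) (P.cr i) x = 0 := by
        have := (mul_eq_zero.1 h4.symm).resolve_left (hP i).2.ne'
        exact this
      rw [h3]
      unfold pt
      rw [h5]
      simp

end Pool.Agent.Work.MP_b30479_gtS.G2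

end

section

/-!
# The hinges between a digit `3` and a ring below the real axis

The height of such a hinge in the frame of the digit `3` is nonnegative with one exception, where
all variables nearby are known up to a few thousandths.
-/

namespace Pool.Agent.Work.MP_b30479_gtS.G2

namespace SR

variable {M : ℕ}

/-- **The exception.** The hinge `h` of the digit `3` at `i`, slot `p`, to the ring at `j`. -/
structure Exc3 (b : Fin (M + 1) → ℤ) (zs : DD (tyW b) ⊕ ZZ (tyW b) → ℂ) (h : Fin M)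
    (i j : Fin (M + 1)) (p : Fin 3) : Prop where
  lo : -(7 / 10000) ≤ ofs (b i) (zs (.inl (.inl h))).im
  n4 : (b j).natAbs = 4
  /-- the other neighbour of the ring -/
  nxt : ∃ (g : Fin M) (k : Fin (M + 1)), Adj g j p k ∧ clsW b k = .ring ∧ 0 < b j * b k
  /-- the other neighbour of the digit `3` -/
  one : ∀ {h' : Fin M} {k : Fin (M + 1)}, Adj h' i p.rev k → clsW b k = .one
  /-- the region behind it -/
  two : ∀ {h' g : Fin M} {k m : Fin (M + 1)}, Adj h' i p.rev k → Adj g k p.rev m →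
    clsW b m = .two
  x0 : 212 / 1000 ≤ (zs (.inl (.inl h))).re
  x1 : (zs (.inl (.inl h))).re ≤ 217 / 1000
  s0 : ∀ v : ZZ (tyW b), v.1 = j → 201 / 1000 ≤ -(ofz (b j) (zs (.inr v))).re
  s1 : ∀ v : ZZ (tyW b), v.1 = j → -(ofz (b j) (zs (.inr v))).re ≤ 206 / 1000
  r0 : ∀ v : ZZ (tyW b), v.1 = j → 84 / 1000 ≤ (zs (.inr v)).im
  r1 : ∀ v : ZZ (tyW b), v.1 = j → (zs (.inr v)).im ≤ 895 / 10000
  c0 : ∀ v : ZZ (tyW b), v.1 = j →
    4165 / 10000 ≤ (zs (.inl (.inl h))).re - (ofz (b j) (zs (.inr v))).re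
  c1 : ∀ v : ZZ (tyW b), v.1 = j →
    (zs (.inl (.inl h))).re - (ofz (b j) (zs (.inr v))).re ≤ 4205 / 10000

/-- **The hinges between a digit `3` and a ring.** -/
structure Loc3 (b : Fin (M + 1) → ℤ) (zs : DD (tyW b) ⊕ ZZ (tyW b) → ℂ) : Prop where
  three : ∀ {h : Fin M} {i j : Fin (M + 1)} {p : Fin 3}, Adj h i p j → clsW b i = .three →
    clsW b j = .ring → 0 ≤ ofs (b i) (zs (.inl (.inl h))).im ∨ Exc3 b zs h i j p

end SR

end Pool.Agent.Work.MP_b30479_gtS.G2

end

section

/-!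
# Domination on the main paths from its parts
-/

namespace Pool.Agent.Work.MP_b30479_gtS.G2

open Finset VOL Filter Topology

namespace SR

variable {M : ℕ} {b : Fin (M + 1) → ℤ} {zs : DD (tyW b) ⊕ ZZ (tyW b) → ℂ}

/-- a maximiser of the growth rate on the product of the main paths -/
def Mx (b : Fin (M + 1) → ℤ) (zs : DD (tyW b) ⊕ ZZ (tyW b) → ℂ)
    (y : DD (tyW b) ⊕ ZZ (tyW b) → ℝ) : Prop := IsMx (wdat (tyW b) b) (wpar b zs) zs y

/-- the hinges are on the flat parts of their paths -/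
def Flat (b : Fin (M + 1) → ℤ) (y : DD (tyW b) ⊕ ZZ (tyW b) → ℝ) : Prop :=
  ∀ h : Fin M, wcl b h ≤ y (.inl (.inl h)) ∧ y (.inl (.inl h)) ≤ wXM b h - wcr b h

/-- **The parts of the argument on the main paths.** -/
structure MainParts (b : Fin (M + 1) → ℤ) (zs : DD (tyW b) ⊕ ZZ (tyW b) → ℂ) : Prop where
  /-- the ring variables are not at the ends of their paths -/
  ring : ∀ y, Mx b zs y → ∀ v : ZZ (tyW b), |y (.inr v)| < 1 / 2
  /-- the left rounds -/
  left : ∀ y, Mx b zs y → (∀ h : Fin M, 0 < y (.inl (.inl h))) → ∀ h : Fin M,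
    wcl b h ≤ y (.inl (.inl h))
  /-- the right rounds -/
  right : ∀ y, Mx b zs y → (∀ h : Fin M, wcl b h ≤ y (.inl (.inl h))) → ∀ h : Fin M,
    y (.inl (.inl h)) ≤ wXM b h - wcr b h
  /-- uniqueness of the inner variables -/
  mid : ∀ y, Mx b zs y → (∀ h : Fin M, y (.inl (.inl h)) = (zs (.inl (.inl h))).re) →
    ∀ m : {i : Fin (M + 1) // (tyW b i).isMid = true}, y (.inl (.inr m)) = (zs (.inl (.inr m))).re
  rin : ∀ y, Mx b zs y → (∀ h : Fin M, y (.inl (.inl h)) = (zs (.inl (.inl h))).re) →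
    ∀ v : ZZ (tyW b), y (.inr v) = (zs (.inr v)).re
  /-- push-back -/
  push : ∀ y, Mx b zs y → Flat b y → ∀ {h : Fin M} {i j : Fin (M + 1)} {p : Fin 3},
    Adj h i p j → Push' (tyW b) b i p p.rev (Xw b zs y i) (xx (tyW b) i zs)

/-- **Domination on the main paths.** -/
theorem MainParts.dom (hb : ClassW b) (hL : Loc b zs) (hC : Crit b zs) (hP : MainParts b zs)
    (z : DD (tyW b) ⊕ ZZ (tyW b) → ℂ)
    (hz : Adm (wdat (tyW b) b) (wpar b zs) zs ∅ ∅ z 0) (hne : z ≠ zs) :
    (wdat (tyW b) b).V z < ((wdat (tyW b) b).T zs).re := by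
  refine dom_paths (wpar_hu b zs) hC.inn ?_ hz hne
  intro x hx hx'
  refine dom_of_push' (std_wpar b zs) ?_ hC.inn hC.dT hL.flatD hL.flatZ hP.ring ?_ ?_ ?_ hx hx'
  · intro h h1 h2
    exact tyW_one b hb h h1 h2
  · intro y hy hpos h
    exact ⟨hP.left y hy hpos h, hP.right y hy (hP.left y hy hpos) h⟩
  · intro y hy hh j
    rcases j with (h | m) | v
    · exact hh h
    · exact hP.mid y hy hh m
    · exact hP.rin y hy hh v
  · intro y hy hf h
    exact push_hinge h fun i p j A => hP.push y hy hf A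

/-- **The domination.** -/
theorem MainParts.all {nb : Finset (DD (tyW b)) → Finset (DD (tyW b) ⊕ ZZ (tyW b))}
    (hb : ClassW b) (hL : Loc b zs) (hC : Crit b zs) (hP : MainParts b zs) (hnb : nb ∅ = ∅)
    (hmode : ∀ z p, Adm (wdat (tyW b) b) (wpar b zs) zs ∅ ∅ z p → p ≠ 0 → ∃ z',
      Adm (wdat (tyW b) b) (wpar b zs) zs ∅ ∅ z' 0 ∧
      (wdat (tyW b) b).V z - 2 * Real.pi * ∑ i, p i < (wdat (tyW b) b).V z')
    (htail : ∀ R : Finset (DD (tyW b)), R ≠ ∅ → ∀ z p,
      Adm (wdat (tyW b) b) (wpar b zs) zs R (nb R) z p →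
      ∃ (R' : Finset (DD (tyW b))) (z' : DD (tyW b) ⊕ ZZ (tyW b) → ℂ) (p' : DD (tyW b) → ℝ),
        R' ⊂ R ∧ Adm (wdat (tyW b) b) (wpar b zs) zs R' (nb R') z' p' ∧
        (wdat (tyW b) b).V z - 2 * Real.pi * ∑ i, p i <
          (wdat (tyW b) b).V z' - 2 * Real.pi * ∑ i, p' i) :
    ∀ R : Finset (DD (tyW b)), (∀ i ∈ R, (wpar b zs).XM i < 1) →
      ∀ (z : DD (tyW b) ⊕ ZZ (tyW b) → ℂ) (p : DD (tyW b) → ℝ),
      Adm (wdat (tyW b) b) (wpar b zs) zs R (nb R) z p → (R = ∅ → p = 0 → z ≠ zs) →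
      (wdat (tyW b) b).V z - 2 * Real.pi * ∑ i, p i < ((wdat (tyW b) b).T zs).re :=
  dom_of_parts hnb (hP.dom hb hL hC) (V_eq_re_T _ hC.inn).le hmode
    fun R _ hR z p hz => htail R hR z p hz

/-- the domination on the main paths with the parameters `wparH` -/
theorem MainParts.domE {H : DD (tyW b) → ℝ} (hH : ∀ i, 0 < H i)
    (hb : ClassW b) (hL : Loc b zs) (hC : Crit b zs) (hP : MainParts b zs)
    (z : DD (tyW b) ⊕ ZZ (tyW b) → ℂ)
    (hz : Adm (wdat (tyW b) b) (wparH b H zs) zs ∅ ∅ z 0) (hne : z ≠ zs) :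
    (wdat (tyW b) b).V z < ((wdat (tyW b) b).T zs).re :=
  hP.dom hb hL hC z (Adm.main_congr (P := wparH b H zs) (P' := wpar b zs)
    (wparH_pos b hH zs) rfl rfl rfl hz) hne

/-- **The domination, with the mirrored paths.** -/
theorem MainParts.allE {nb : Finset (DD (tyW b)) → Finset (DD (tyW b) ⊕ ZZ (tyW b))}
    {H : DD (tyW b) → ℝ} (hH : ∀ i, 0 < H i)
    (hb : ClassW b) (hL : Loc b zs) (hC : Crit b zs) (hP : MainParts b zs) (hnb : nb ∅ = ∅)
    (hmode : ∀ R : Finset (DD (tyW b)), ∀ z p,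
      Adm (wdat (tyW b) b) (wparH b H zs) zs R (nb R) z p → p ≠ 0 → ∃ z',
      Adm (wdat (tyW b) b) (wparH b H zs) zs R (nb R) z' 0 ∧
      (wdat (tyW b) b).V z - 2 * Real.pi * ∑ i, p i < (wdat (tyW b) b).V z')
    (htail : ∀ R : Finset (DD (tyW b)), R ≠ ∅ → ∀ z,
      Adm (wdat (tyW b) b) (wparH b H zs) zs R (nb R) z 0 →
      ∃ (R' : Finset (DD (tyW b))) (z' : DD (tyW b) ⊕ ZZ (tyW b) → ℂ) (p' : DD (tyW b) → ℝ),
        R' ⊂ R ∧ Adm (wdat (tyW b) b) (wparH b H zs) zs R' (nb R') z' p' ∧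
        (wdat (tyW b) b).V z < (wdat (tyW b) b).V z' - 2 * Real.pi * ∑ i, p' i) :
    ∀ R : Finset (DD (tyW b)), (∀ i ∈ R, (wparH b H zs).XM i < 1) →
      ∀ (z : DD (tyW b) ⊕ ZZ (tyW b) → ℂ) (p : DD (tyW b) → ℝ),
      Adm (wdat (tyW b) b) (wparH b H zs) zs R (nb R) z p → (R = ∅ → p = 0 → z ≠ zs) →
      (wdat (tyW b) b).V z - 2 * Real.pi * ∑ i, p i < ((wdat (tyW b) b).T zs).re :=
  dom_of_parts' hnb (hP.domE hH hb hL hC) (V_eq_re_T _ hC.inn).le (fun R _ => hmode R)
    fun R _ hR z hz => htail R hR z hz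

end SR

end Pool.Agent.Work.MP_b30479_gtS.G2

end

section

/-!
# The right rounds
-/

namespace Pool.Agent.Work.MP_b30479_gtS.G2

open Finset VOL Filter Topology

namespace SR

variable {M : ℕ} {b : Fin (M + 1) → ℤ} {zs : DD (tyW b) ⊕ ZZ (tyW b) → ℂ}
variable {y : DD (tyW b) ⊕ ZZ (tyW b) → ℝ}
variable {h h' : Fin M} {i j j' : Fin (M + 1)} {p : Fin 3}

/-- the left slope of the path of the hinge `h` at its present position -/
noncomputable def slL (b : Fin (M + 1) → ℤ) (zs : DD (tyW b) ⊕ ZZ (tyW b) → ℂ)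
    (y : DD (tyW b) ⊕ ZZ (tyW b) → ℝ) (h : Fin M) : ℝ :=
  (wpar b zs).sL zs (.inl (.inl h)) (y (.inl (.inl h)))

/-- the right slope -/
noncomputable def slR (b : Fin (M + 1) → ℤ) (zs : DD (tyW b) ⊕ ZZ (tyW b) → ℂ)
    (y : DD (tyW b) ⊕ ZZ (tyW b) → ℝ) (h : Fin M) : ℝ :=
  (wpar b zs).sR zs (.inl (.inl h)) (y (.inl (.inl h)))

theorem slL_ramp (hx : wXM b h - wcr b h < y (.inl (.inl h))) :
    slL b zs y h = -((zs (.inl (.inl h))).im / wcr b h) := w_sL_right h hx

theorem slL_flat (hx : wcl b h < y (.inl (.inl h)))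
    (hx' : y (.inl (.inl h)) ≤ wXM b h - wcr b h) : slL b zs y h = 0 := w_sL_flat h hx hx'

theorem slR_ramp (hx : y (.inl (.inl h)) < wcl b h) :
    slR b zs y h = (zs (.inl (.inl h))).im / wcl b h := w_sR_left h hx

theorem slR_flat (hx : wcl b h ≤ y (.inl (.inl h)))
    (hx' : y (.inl (.inl h)) < wXM b h - wcr b h) : slR b zs y h = 0 := w_sR_flat h hx hx'

/-- slope in the own frame of an adjacent region -/
theorem ofs_slL_ramp (c : ℤ) (hx : wXM b h - wcr b h < y (.inl (.inl h))) :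
    ofs c (slL b zs y h) = -(ofs c (zs (.inl (.inl h))).im / wcr b h) := by
  rw [slL_ramp hx, ofs_neg', ofs_div]

/-- **A right step.**  `Bad` is any property of hinges; the side inequalities are needed at one bad
hinge at which `g` is largest. -/
theorem right_step (hb : ClassW b) (hy : IsMx (wdat (tyW b) b) (wpar b zs) zs y)
    (hpos : ∀ h : Fin M, 0 < y (.inl (.inl h))) {Bad : Fin M → Prop} (g : Fin M → ℝ)
    (hside : ∀ h, Bad h → (∀ j, Bad j → g j ≤ g h) → ∃ c e1 e2 : ℝ,
      (0 < b h.castSucc * b h.succ → c = 0) ∧ e1 + e2 < 0 ∧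
        RSide b zs y h (slL b zs y h) c e1 e2) (h : Fin M) : ¬ Bad h := by
  classical
  intro hB
  obtain ⟨k, hk, hmax⟩ := (Finset.univ.filter Bad).exists_max_image g ⟨h, by simp [hB]⟩
  rw [Finset.mem_filter] at hk
  obtain ⟨c, e1, e2, hc, he, hs⟩ := hside k hk.2 (fun j hj => hmax j (by simp [hj]))
  exact rside_false hb hy k (hpos k) hc he hs

/-- **A left step.** -/
theorem left_step (hb : ClassW b) (hy : IsMx (wdat (tyW b) b) (wpar b zs) zs y)
    (hpos : ∀ h : Fin M, 0 < y (.inl (.inl h))) {Bad : Fin M → Prop} (g : Fin M → ℝ)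
    (hlt : ∀ h, Bad h → y (.inl (.inl h)) < wXM b h)
    (hside : ∀ h, Bad h → (∀ j, Bad j → g h ≤ g j) → ∃ c e1 e2 : ℝ,
      (0 < b h.castSucc * b h.succ → c = 0) ∧ 0 < e1 + e2 ∧
        LSide b zs y h (slR b zs y h) c e1 e2) (h : Fin M) : ¬ Bad h := by
  classical
  intro hB
  obtain ⟨k, hk, hmin⟩ := (Finset.univ.filter Bad).exists_min_image g ⟨h, by simp [hB]⟩
  rw [Finset.mem_filter] at hk
  obtain ⟨c, e1, e2, hc, he, hs⟩ := hside k hk.2 (fun j hj => hmin j (by simp [hj]))
  exact lside_false hb hy k (hpos k) (hlt k hk.2) hc he hs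

/-- **First-order condition of any hinge** (used for partners): the two sides in the frames of the
two adjacent regions, opposite signs -/
theorem Adj.foc (A : Adj h i p j)
    (hy : IsMx (wdat (tyW b) b) (wpar b zs) zs y) (hpos : 0 < y (.inl (.inl h))) :
    0 ≤ Sw b zs y i p (slL b zs y h) + Sw b zs y j p.rev (slL b zs y h) := by
  have h3 := (hy.foc_left (std_wpar b zs) h hpos).2
  cases A
  · exact h3
  · rw [add_comm]
    exact h3

theorem Adj.foc' (A : Adj h i p j)
    (hy : IsMx (wdat (tyW b) b) (wpar b zs) zs y) (hpos : 0 < y (.inl (.inl h)))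
    (hx : y (.inl (.inl h)) < wXM b h) :
    Sw b zs y i p (slR b zs y h) + Sw b zs y j p.rev (slR b zs y h) ≤ 0 := by
  have h3 := hy.foc_right (std_wpar b zs) h hpos hx
  cases A
  · exact h3
  · rw [add_comm]
    exact h3

/-- a step for a sum of the two sides, one region seen from the slot `p` -/
theorem RSide.of_sum (A : Adj h i p j) {m : ℝ} (hs : Sw b zs y i p m + Sw b zs y j p.rev m < 0) :
    ∃ c e1 e2 : ℝ, (0 < b h.castSucc * b h.succ → c = 0) ∧ e1 + e2 < 0 ∧
      RSide b zs y h m c e1 e2 := by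
  cases A
  · exact ⟨0, _, _, fun _ => rfl, hs, by simp, by simp⟩
  · exact ⟨0, _, _, fun _ => rfl, by rw [add_comm]; exact hs, by simp, by simp⟩

/-- a step from bounds of the two sides with a shift `c` (opposite signs) -/
theorem RSide.of_adj' (A : Adj h i p j) (hn : b i * b j < 0) {m c e1 e2 : ℝ} (he : e1 + e2 < 0)
    (h1 : Sw b zs y i p m + c * ofs (b i) m ≤ e1)
    (h2 : Sw b zs y j p.rev m + c * ofs (b j) m ≤ e2) :
    ∃ c e1 e2 : ℝ, (0 < b h.castSucc * b h.succ → c = 0) ∧ e1 + e2 < 0 ∧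
      RSide b zs y h m c e1 e2 := by
  cases A
  · exact ⟨c, e1, e2, fun h => absurd h (by omega), he, h1, h2⟩
  · exact ⟨c, e2, e1, fun h => absurd h (by rw [mul_comm] at hn; omega), by linarith, h2, h1⟩

end SR

end Pool.Agent.Work.MP_b30479_gtS.G2

end

section

/-!
# Rounds in terms of pairs of adjacent regions
-/

namespace Pool.Agent.Work.MP_b30479_gtS.G2

open Finset VOL Filter Topology

namespace SR

variable {M : ℕ} {b : Fin (M + 1) → ℤ} {zs : DD (tyW b) ⊕ ZZ (tyW b) → ℂ}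
variable {y : DD (tyW b) ⊕ ZZ (tyW b) → ℝ}
variable {h h' : Fin M} {i j j' : Fin (M + 1)} {p : Fin 3}

/-- an order of the classes -/
def rkC : Cl → ℕ
  | .one => 0 | .two => 1 | .twoE => 2 | .three => 3 | .threeE => 4 | .ring => 5

theorem rkC_inj {A B : Cl} (h : rkC A = rkC B) : A = B := by
  revert h; cases A <;> cases B <;> simp [rkC]

/-- each hinge can be seen from the region of the smaller class -/
theorem Adj.wlog (b : Fin (M + 1) → ℤ) (h : Fin M) {Pr : Prop}
    (H : ∀ {i j : Fin (M + 1)} {p : Fin 3}, Adj h i p j → rkC (clsW b i) ≤ rkC (clsW b j) → Pr) :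
    Pr := by
  rcases le_total (rkC (clsW b h.castSucc)) (rkC (clsW b h.succ)) with h1 | h1
  · exact H .l h1
  · exact H .r h1

theorem Adj.mul_eq (A : Adj h i p j) (b : Fin (M + 1) → ℤ) :
    b i * b j = b h.castSucc * b h.succ := by
  cases A
  · rfl
  · exact mul_comm _ _

/-- neighbours have opposite signs unless both are rings -/
theorem Adj.neg_of (A : Adj h i p j) (hb : ClassW b)
    (hc : clsW b i ≠ .ring ∨ clsW b j ≠ .ring) : b i * b j < 0 := by
  rw [A.mul_eq b]
  rcases sign_cases hb h with h1 | ⟨-, h2, h3⟩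
  · exact h1
  · exfalso
    cases A
    · rcases hc with hc | hc
      · exact hc h2
      · exact hc h3
    · rcases hc with hc | hc
      · exact hc h3
      · exact hc h2

/-- the other hinge of an interior region -/
theorem Adj.other' (A : Adj h i p j) (b : Fin (M + 1) → ℤ) (he : isEnd i = false) :
    ∃ h' j', Adj h' i p.rev j' := by
  rcases A.other b 0 0 with h1 | h1
  · exact absurd h1.1 (by rw [he]; decide)
  · exact h1.2

/-- a symmetric table -/
def TSym (T : Tab) : Prop := ∀ A B, T 2 A B = T 0 B A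

theorem Adj.tab (A : Adj h i p j) {T : Tab} (hT : TSym T) (b : Fin (M + 1) → ℤ) :
    T p (clsW b i) (clsW b j) = T 2 (clsW b h.castSucc) (clsW b h.succ) := by
  cases A
  · rfl
  · exact (hT _ _).symm

/-- what a step to the right needs at the hinge `h` -/
def LStep (b : Fin (M + 1) → ℤ) (zs : DD (tyW b) ⊕ ZZ (tyW b) → ℂ)
    (y : DD (tyW b) ⊕ ZZ (tyW b) → ℝ) (h : Fin M) (m : ℝ) : Prop :=
  ∃ c e1 e2 : ℝ, (0 < b h.castSucc * b h.succ → c = 0) ∧ 0 < e1 + e2 ∧ LSide b zs y h m c e1 e2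

/-- what a step to the left needs at the hinge `h` -/
def RStep (b : Fin (M + 1) → ℤ) (zs : DD (tyW b) ⊕ ZZ (tyW b) → ℂ)
    (y : DD (tyW b) ⊕ ZZ (tyW b) → ℝ) (h : Fin M) (m : ℝ) : Prop :=
  ∃ c e1 e2 : ℝ, (0 < b h.castSucc * b h.succ → c = 0) ∧ e1 + e2 < 0 ∧ RSide b zs y h m c e1 e2

theorem LStep.of_adj (A : Adj h i p j) {m c e1 e2 : ℝ} (hc : 0 < b i * b j → c = 0)
    (he : 0 < e1 + e2) (h1 : e1 ≤ Sw b zs y i p m + c * ofs (b i) m)
    (h2 : e2 ≤ Sw b zs y j p.rev m + c * ofs (b j) m) : LStep b zs y h m := by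
  rw [A.mul_eq b] at hc
  cases A
  · exact ⟨c, e1, e2, hc, he, h1, h2⟩
  · exact ⟨c, e2, e1, hc, by linarith, h2, h1⟩

theorem RStep.of_adj (A : Adj h i p j) {m c e1 e2 : ℝ} (hc : 0 < b i * b j → c = 0)
    (he : e1 + e2 < 0) (h1 : Sw b zs y i p m + c * ofs (b i) m ≤ e1)
    (h2 : Sw b zs y j p.rev m + c * ofs (b j) m ≤ e2) : RStep b zs y h m := by
  rw [A.mul_eq b] at hc
  cases A
  · exact ⟨c, e1, e2, hc, he, h1, h2⟩
  · exact ⟨c, e2, e1, hc, by linarith, h2, h1⟩

/-- **A left round** with the table of floors `T`: it is enough to have a step at each hinge below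
its floor for which `y / T` is least; the hinge is seen from the region of the smaller class. -/
theorem left_round (hb : ClassW b) (hy : Mx b zs y) (hpos : ∀ h : Fin M, 0 < y (.inl (.inl h)))
    {T : Tab} (hT : TSym T) (hT0 : ∀ p A B, 0 < T p A B)
    (hT1 : ∀ h : Fin M, T 2 (clsW b h.castSucc) (clsW b h.succ) ≤ wcl b h)
    (H : ∀ {h : Fin M} {i j : Fin (M + 1)} {p : Fin 3}, Adj h i p j →
      rkC (clsW b i) ≤ rkC (clsW b j) → y (.inl (.inl h)) < T p (clsW b i) (clsW b j) →
      (∀ {h' : Fin M} {i' j' : Fin (M + 1)} {p' : Fin 3}, Adj h' i' p' j' →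
        y (.inl (.inl h)) / T p (clsW b i) (clsW b j) ≤
          y (.inl (.inl h')) / T p' (clsW b i') (clsW b j')) →
      LStep b zs y h ((zs (.inl (.inl h))).im / wcl b h)) : Flr b y T := by
  intro h i j p A
  rw [A.tab hT b]
  refine left_stage hb hy hpos (f := fun h => T 2 (clsW b h.castSucc) (clsW b h.succ))
    (fun h => hT0 _ _ _) hT1 ?_ h
  intro h hlt hord
  refine Adj.wlog b h fun {i j p} A hr => ?_
  refine H A hr ?_ ?_
  · rw [A.tab hT b]
    exact hlt
  · intro h' i' j' p' A'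
    rw [A.tab hT b, A'.tab hT b]
    exact hord h'

/-- **A step to the right at single hinges** (any set `Bad`, least `g`), seen from the region of
the smaller class; `m` is the right slope of the path. -/
theorem left_step' (hb : ClassW b) (hy : Mx b zs y) (hpos : ∀ h : Fin M, 0 < y (.inl (.inl h)))
    {Bad : Fin M → Prop} (g : Fin M → ℝ) (hlt : ∀ h, Bad h → y (.inl (.inl h)) < wXM b h)
    (H : ∀ {h : Fin M} {i j : Fin (M + 1)} {p : Fin 3}, Adj h i p j →
      rkC (clsW b i) ≤ rkC (clsW b j) → Bad h → (∀ k, Bad k → g h ≤ g k) →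
      LStep b zs y h (slR b zs y h)) (h : Fin M) : ¬ Bad h :=
  left_step hb hy hpos g hlt (fun _ hB hg => Adj.wlog b _ fun A hr => H A hr hB hg) h

/-- **A step to the left at single hinges** (any set `Bad`, largest `g`), seen from the region of
the smaller class; `m` is the left slope of the path. -/
theorem right_step' (hb : ClassW b) (hy : Mx b zs y) (hpos : ∀ h : Fin M, 0 < y (.inl (.inl h)))
    {Bad : Fin M → Prop} (g : Fin M → ℝ)
    (H : ∀ {h : Fin M} {i j : Fin (M + 1)} {p : Fin 3}, Adj h i p j →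
      rkC (clsW b i) ≤ rkC (clsW b j) → Bad h → (∀ k, Bad k → g k ≤ g h) →
      RStep b zs y h (slL b zs y h)) (h : Fin M) : ¬ Bad h :=
  right_step hb hy hpos g (fun _ hB hg => Adj.wlog b _ fun A hr => H A hr hB hg) h

end SR

end Pool.Agent.Work.MP_b30479_gtS.G2

end

section

/-!
# Rings in a word: parameters, the ring variable
-/

namespace Pool.Agent.Work.MP_b30479_gtS.G2

open Finset VOL Filter Topology

namespace SR

variable {M : ℕ} {b : Fin (M + 1) → ℤ} {zs : DD (tyW b) ⊕ ZZ (tyW b) → ℂ}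
variable {y : DD (tyW b) ⊕ ZZ (tyW b) → ℝ}
variable {h h' : Fin M} {i j j' : Fin (M + 1)} {p : Fin 3}

/-- location facts of the hinges of rings -/
structure LocR (b : Fin (M + 1) → ℤ) (zs : DD (tyW b) ⊕ ZZ (tyW b) → ℂ) : Prop where
  rr : ∀ {h : Fin M} {i j : Fin (M + 1)} {p : Fin 3}, Adj h i p j → clsW b i = .ring →
    clsW b j = .ring → ofs (b i) (zs (.inl (.inl h))).im ≤ 56 / 1000 ∧
      (5 ≤ (b i).natAbs → ofs (b i) (zs (.inl (.inl h))).im ≤ 465 / 10000)
  three : ∀ {h : Fin M} {i j : Fin (M + 1)} {p : Fin 3}, Adj h i p j → clsW b i = .three →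
    clsW b j = .ring → 0 ≤ ofs (b i) (zs (.inl (.inl h))).im ∨ Exc3 b zs h i j p

theorem natAbs_lt {n : ℕ} {c : ℝ} {k : ℕ} (hc : c = k) (h : (n : ℝ) < c) : n < k := by
  rw [hc] at h
  exact_mod_cast h

theorem Adj.par_rr (A : Adj h i p j) (hc : clsW b i = .ring) (hj : clsW b j = .ring) :
    wXM b h = 1 / 2 ∧ wcl b h = 1 / 10 ∧ wcr b h = 2 / 100 := by
  rw [A.XM_eq b, A.cl_eq b, A.cr_eq b, hc, hj]
  unfold hpp
  split_ifs <;> simp [hp] <;> norm_num

theorem Adj.par_ring_one (A : Adj h i p j) (hc : clsW b i = .ring) (hj : clsW b j = .one) :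
    wXM b h = 65 / 100 ∧ wcl b h = 16 / 100 ∧ wcr b h = 29 / 100 := by
  rw [A.XM_eq b, A.cl_eq b, A.cr_eq b, hc, hj]
  unfold hpp
  split_ifs <;> simp [hp, hp1]

theorem Adj.par_ring_lo (A : Adj h i p j) (hc : clsW b i = .ring) (hj : clsW b j ≠ .one)
    (hj' : clsW b j ≠ .ring) :
    wXM b h = 60 / 100 ∧ (10 / 100 ≤ wcl b h ∧ wcl b h ≤ 13 / 100) ∧
      (30 / 100 ≤ wcr b h ∧ wcr b h ≤ 34 / 100) := by
  rw [A.XM_eq b, A.cl_eq b, A.cr_eq b, hc]
  unfold hpp
  generalize clsW b j = B at hj hj'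
  split_ifs <;> cases B <;> first | exact absurd rfl hj | exact absurd rfl hj' | (simp [hp]; norm_num)

/-- the caps for the imaginary part of a ring variable -/
theorem ring_cap (hb : ClassW b) (hL : Loc b zs) (v : ZZ (tyW b)) :
    RCap ((b v.1).natAbs : ℝ) (zs (.inr v)).im := by
  have h4 := ring_four hb (tyW_ring v.2)
  obtain ⟨-, -, -, h1⟩ := hL.ring v
  rw [ofz_im] at h1
  set n := (b v.1).natAbs with hn
  have key : (zbox n (isEnd v.1)).t1 ≤ (if n = 4 then 1045 / 10000 else if n = 5 then 725 / 10000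
      else if n = 6 then 52 / 1000 else if n = 7 then 40 / 1000 else 23 / 10 / (n : ℝ) ^ 2) := by
    unfold zbox
    split_ifs <;> simp only <;> (try norm_num)
    · apply div_le_div_of_nonneg_right _ (by positivity)
      norm_num
  have h2 := h1.trans key
  have h8 : 8 ≤ n → 23 / 10 / (n : ℝ) ^ 2 ≤ 36 / 1000 := by
    intro h8
    rw [div_le_iff₀ (by positivity)]
    have : (8 : ℝ) ≤ n := by exact_mod_cast h8
    nlinarith only [this]
  rcases (show n = 4 ∨ n = 5 ∨ n = 6 ∨ n = 7 ∨ 8 ≤ n by omega) with h5 | h5 | h5 | h5 | h5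
  · rw [h5] at h2 ⊢
    norm_num at h2
    refine ⟨by linarith only [h2], ?_, ?_, ?_, ?_⟩ <;> intro hh <;> exfalso <;> norm_num at hh
  · rw [h5] at h2 ⊢
    norm_num at h2
    refine ⟨by linarith only [h2], fun _ => by linarith only [h2], ?_, ?_, ?_⟩ <;> intro hh <;> exfalso <;> norm_num at hh
  · rw [h5] at h2 ⊢
    norm_num at h2
    refine ⟨by linarith only [h2], fun _ => by linarith only [h2], fun _ => by linarith only [h2], ?_, ?_⟩ <;> intro hh <;>
      exfalso <;> norm_num at hh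
  · rw [h5] at h2 ⊢
    norm_num at h2
    refine ⟨by linarith only [h2], fun _ => by linarith only [h2], fun _ => by linarith only [h2], fun _ => by linarith only [h2], ?_⟩
    intro hh
    exfalso
    norm_num at hh
  · rw [if_neg (by omega), if_neg (by omega), if_neg (by omega), if_neg (by omega)] at h2
    have h9 := h8 h5
    refine ⟨by linarith only [h2, h9], fun _ => by linarith only [h2, h9], fun _ => by linarith only [h2, h9], fun _ => by linarith only [h2, h9], fun _ => ?_⟩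
    have hp : (0 : ℝ) < (n : ℝ) ^ 2 := by
      have : (0 : ℝ) < n := by exact_mod_cast (show 0 < n by omega)
      positivity
    rw [le_div_iff₀ hp] at h2
    linarith only [h2]

/-- the ring at a hinge -/
theorem Adj.ring (A : Adj h i p j) (hb : ClassW b) (hL : Loc b zs) (hy : Mx b zs y)
    (hc : clsW b i = .ring) : ∃ v : ZZ (tyW b), v.1 = i ∧ RCap ((b i).natAbs : ℝ) (zs (.inr v)).im ∧
      RM ((b i).natAbs : ℝ) (zs (.inr v)).im (Yw b zs y i p) (Yw b zs y i p.rev)
        (ofs (b i) (y (.inr v))) ∧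
      OY b zs y i 1 = LT.zt (zs (.inr v)).im (ofs (b i) (y (.inr v))) := by
  have ht := tyW_of_ring hb hc
  refine ⟨⟨i, by rw [ht]; rfl⟩, rfl, ring_cap hb hL ⟨i, by rw [ht]; rfl⟩, ?_, ?_⟩
  · have key := ring_RM hb hL hy ⟨i, by rw [ht]; rfl⟩
    rcases A.slot with rfl | rfl
    · exact key
    · exact key.symm
  · rw [OY_ring ht]
    exact Zw_eq (⟨i, by rw [ht]; rfl⟩ : ZZ (tyW b))

end SR

end Pool.Agent.Work.MP_b30479_gtS.G2

end
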