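import Pool.Agent.Work.MP_b30479_gt.TBS.G2.WMid

section

/-!
# The tables of floors of the left rounds
-/

namespace Pool.Agent.Work.MP_b30479_gtS.G2

open Finset VOL Filter Topology

namespace SR

/-- floors of the round `L0` -/
noncomputable def F0 : Tab := fun _ A B =>
  match A, B with
  | .one, _ => 70 / 1000
  | _, .one => 70 / 1000
  | .two, _ => 70 / 1000
  | _, .two => 70 / 1000
  | .three, _ => 70 / 1000
  | _, .three => 70 / 1000
  | .twoE, .ring => 125 / 1000
  | .ring, .twoE => 125 / 1000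
  | _, _ => 100 / 1000

/-- floors of the round `L1` -/
noncomputable def F1 : Tab := fun p A B =>
  match A, B with
  | .one, .one => 125 / 1000
  | .one, .two => 150 / 1000
  | .two, .one => 150 / 1000
  | .one, .twoE => 125 / 1000
  | .twoE, .one => 125 / 1000
  | .one, .threeE => 120 / 1000
  | .threeE, .one => 120 / 1000
  | .one, .ring => 120 / 1000
  | .ring, .one => 120 / 1000
  | .one, .three => if p = 0 then 110 / 1000 else 130 / 1000
  | .three, .one => if p = 2 then 110 / 1000 else 130 / 1000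
  | .three, .three => 110 / 1000
  | .three, _ => if p = 2 then 110 / 1000 else 120 / 1000
  | _, .three => if p = 0 then 110 / 1000 else 120 / 1000
  | .two, .ring => 125 / 1000
  | .ring, .two => 125 / 1000
  | .twoE, .ring => 125 / 1000
  | .ring, .twoE => 125 / 1000
  | _, _ => 100 / 1000

/-- floors of the round `L2` -/
noncomputable def F2 : Tab := fun p A B =>
  match A, B with
  | .one, .one => 150 / 1000
  | .one, .two => 160 / 1000
  | .two, .one => 160 / 1000
  | .one, .twoE => 140 / 1000
  | .twoE, .one => 140 / 1000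
  | .one, .threeE => 140 / 1000
  | .threeE, .one => 140 / 1000
  | .one, .ring => 145 / 1000
  | .ring, .one => 145 / 1000
  | .one, .three => if p = 0 then 150 / 1000 else 130 / 1000
  | .three, .one => if p = 2 then 150 / 1000 else 130 / 1000
  | .three, .three => 130 / 1000
  | .three, _ => if p = 2 then 130 / 1000 else 120 / 1000
  | _, .three => if p = 0 then 130 / 1000 else 120 / 1000
  | .two, .ring => 125 / 1000
  | .ring, .two => 125 / 1000
  | .twoE, .ring => 125 / 1000
  | .ring, .twoE => 125 / 1000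
  | _, _ => 100 / 1000

theorem F0_sym : TSym F0 := by
  intro A B
  cases A <;> cases B <;> rfl

theorem F1_sym : TSym F1 := by
  intro A B
  cases A <;> cases B <;> rfl

theorem F2_sym : TSym F2 := by
  intro A B
  cases A <;> cases B <;> rfl

theorem F0_pos (p : Fin 3) (A B : Cl) : 0 < F0 p A B := by
  cases A <;> cases B <;> norm_num [F0]

theorem F1_pos (p : Fin 3) (A B : Cl) : 0 < F1 p A B := by
  cases A <;> cases B <;> simp only [F1] <;> (try split_ifs) <;> norm_num

theorem F2_pos (p : Fin 3) (A B : Cl) : 0 < F2 p A B := by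
  cases A <;> cases B <;> simp only [F2] <;> (try split_ifs) <;> norm_num

theorem F0_le (p : Fin 3) (A B : Cl) : F0 p A B ≤ F1 p A B := by
  cases A <;> cases B <;> simp only [F0, F1] <;> (try split_ifs) <;> norm_num

theorem F1_le {p : Fin 3} (hp : p = 0 ∨ p = 2) (A B : Cl) : F1 p A B ≤ F2 p A B := by
  have e1 : ¬ (0 : Fin 3) = 2 := by decide
  have e2 : ¬ (2 : Fin 3) = 0 := by decide
  rcases hp with rfl | rfl <;> cases A <;> cases B <;> simp only [F1, F2, e1, e2, if_true, if_false] <;>
    norm_num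

theorem F2_cl (P A B Q : Cl) : F2 2 A B ≤ (hp P A B Q).cl := by
  have e2 : ¬ (2 : Fin 3) = 0 := by decide
  cases A <;> cases B <;> simp only [F2, hp, hp1, e2, if_true, if_false] <;> (try split_ifs) <;>
    norm_num

variable {M : ℕ} {b : Fin (M + 1) → ℤ}

theorem F2_wcl (h : Fin M) : F2 2 (clsW b h.castSucc) (clsW b h.succ) ≤ wcl b h := F2_cl _ _ _ _

theorem F1_wcl (h : Fin M) : F1 2 (clsW b h.castSucc) (clsW b h.succ) ≤ wcl b h :=
  (F1_le (Or.inr rfl) _ _).trans (F2_wcl h)

theorem F0_wcl (h : Fin M) : F0 2 (clsW b h.castSucc) (clsW b h.succ) ≤ wcl b h :=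
  (F0_le _ _ _).trans (F1_wcl h)

end SR

end Pool.Agent.Work.MP_b30479_gtS.G2

end

section

/-!
# The left half of the flat part
-/

namespace Pool.Agent.Work.MP_b30479_gtS.G2

open Finset VOL Filter Topology

namespace SR

variable {M : ℕ} {b : Fin (M + 1) → ℤ} {zs : DD (tyW b) ⊕ ZZ (tyW b) → ℂ}
variable {y : DD (tyW b) ⊕ ZZ (tyW b) → ℝ}
variable {h h' : Fin M} {i j j' k : Fin (M + 1)} {p : Fin 3}

/-- the floors of the round `L2` are the left ends, except next to `1 | ring` -/
theorem cl_F2 (P A B Q : Cl) (h : ¬ (A = .one ∧ B = .ring)) (h' : ¬ (A = .ring ∧ B = .one)) :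
    (hp P A B Q).cl ≤ F2 2 A B := by
  cases A <;> cases B <;> first
    | exact absurd ⟨rfl, rfl⟩ h
    | exact absurd ⟨rfl, rfl⟩ h'
    | (simp only [hp, hp1, F2]; (try split_ifs) <;> norm_num)

/-- **The left half of the flat part.** -/
theorem flat_left (hF : Flr b y F2)
    (h3 : ∀ {h : Fin M} {i j : Fin (M + 1)} {p : Fin 3}, Adj h i p j → clsW b i = .one →
      clsW b j = .ring → 160 / 1000 ≤ y (.inl (.inl h))) (h : Fin M) :
    wcl b h ≤ y (.inl (.inl h)) := by
  by_cases h1 : clsW b h.castSucc = .one ∧ clsW b h.succ = .ring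
  · have := h3 (Adj.l (h := h)) h1.1 h1.2
    refine le_trans ?_ this
    show (hp _ _ _ _).cl ≤ _
    rw [h1.1, h1.2]
    norm_num [hp, hp1]
  by_cases h2 : clsW b h.castSucc = .ring ∧ clsW b h.succ = .one
  · have := h3 (Adj.r (h := h)) h2.2 h2.1
    refine le_trans ?_ this
    show (hp _ _ _ _).cl ≤ _
    rw [h2.1, h2.2]
    norm_num [hp, hp1]
  exact (cl_F2 _ _ _ _ h1 h2).trans (hF (Adj.l (h := h)))

end SR

end Pool.Agent.Work.MP_b30479_gtS.G2

end
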