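import Pool.Agent.Work.MP_b30479_gt.TBS.G2.MLM
import Pool.Agent.Work.MP_b30479_gt.TBS.G2.MLSB
import Pool.Agent.Work.MP_b30479_gt.TBS.G2.WMid
import Pool.Agent.Work.MP_b30479_gt.TBS.G2.WTab
import Pool.Agent.Work.MP_b30479_gt.TBS.G2.WLocX

section

/-!
# The left ramps: from rows to statements with integer tables
-/

namespace Pool.Agent.Work.MP_b30479_gtS.G2

open Real Set VOL NumIs

namespace ML

/-- ranges: `x`, `y` in thousandths, `T` in ten thousandths, `a / 1000 ≤ k`, `s / 1000 - T ≤ k`,
`ra / rb x ≤ y` -/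
structure Dat where
  x0 : ℤ
  x1 : ℤ
  t0 : ℤ
  t1 : ℤ
  a : ℤ
  s : ℤ
  y0 : ℤ
  y1 : ℤ
  ra : ℤ
  rb : ℕ

structure Dat.H (D : Dat) (T x y k : ℝ) : Prop where
  x0 : (D.x0 : ℝ) / 1000 ≤ x
  x1 : x ≤ (D.x1 : ℝ) / 1000
  t0 : (D.t0 : ℝ) / 10000 ≤ T
  t1 : T ≤ (D.t1 : ℝ) / 10000
  a : (D.a : ℝ) / 1000 ≤ k
  s : (D.s : ℝ) / 1000 - T ≤ k
  y0 : (D.y0 : ℝ) / 1000 ≤ y
  y1 : y ≤ (D.y1 : ℝ) / 1000
  r : (D.ra : ℝ) / D.rb * x ≤ y

/-- the ranges `D` are in the box -/
def Dat.ok (D : Dat) (cl x0 x1 m0 m1 a s y0 y1 ra : ℤ) (rb : ℕ) : Bool :=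
  decide (x0 ≤ D.x0) && decide (D.x1 ≤ x1) && decide (m0 * cl ≤ 1000 * D.t0) &&
  decide (1000 * D.t1 ≤ m1 * cl) && decide (a ≤ D.a) && decide (s ≤ D.s) &&
  (decide (y0 ≤ D.y0) || decide (y0 * D.rb ≤ D.ra * D.x0)) && decide (D.y1 ≤ y1) &&
  decide (ra * D.rb ≤ D.ra * rb) && decide (0 < rb) && decide (0 < D.rb) && decide (0 < cl) &&
  decide (0 ≤ D.ra)

variable {D : Dat} {cl x0 x1 m0 m1 a s y0 y1 ra e p ca cb : ℤ} {rb j : ℕ} {T x y k : ℝ} {Tt : Tr}

theorem Dat.ok_spec (h : D.ok cl x0 x1 m0 m1 a s y0 y1 ra rb = true) :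
    x0 ≤ D.x0 ∧ D.x1 ≤ x1 ∧ m0 * cl ≤ 1000 * D.t0 ∧ 1000 * D.t1 ≤ m1 * cl ∧ a ≤ D.a ∧ s ≤ D.s ∧
    (y0 ≤ D.y0 ∨ y0 * D.rb ≤ D.ra * D.x0) ∧ D.y1 ≤ y1 ∧ ra * D.rb ≤ D.ra * rb ∧ 0 < rb ∧
    0 < D.rb ∧ 0 < cl ∧ 0 ≤ D.ra := by
  unfold Dat.ok at h
  simp only [Bool.and_eq_true, Bool.or_eq_true, decide_eq_true_eq] at h
  tauto

theorem Dat.H.box (H : D.H T x y k) (h : D.ok cl x0 x1 m0 m1 a s y0 y1 ra rb = true) :
    ((x0 : ℝ) / 1000 ≤ x ∧ x ≤ (x1 : ℝ) / 1000) ∧
    ((m0 : ℝ) / 10000 ≤ T / ((cl : ℝ) / 1000) ∧ T / ((cl : ℝ) / 1000) ≤ (m1 : ℝ) / 10000) ∧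
    ((y0 : ℝ) / 1000 ≤ y ∧ y ≤ (y1 : ℝ) / 1000) ∧ (a : ℝ) / 1000 ≤ k ∧ (s : ℝ) / 1000 - T ≤ k ∧
    (0 < x → (ra : ℝ) / rb * x ≤ y) ∧ (0 : ℝ) < (cl : ℝ) / 1000 := by
  obtain ⟨h1, h2, h3, h4, h5, h6, h7, h8, h9, h10, h11, h12, h13⟩ := Dat.ok_spec h
  have g1 : (x0 : ℝ) ≤ D.x0 := by exact_mod_cast h1
  have g2 : (D.x1 : ℝ) ≤ x1 := by exact_mod_cast h2
  have g3 : (m0 : ℝ) * cl ≤ 1000 * D.t0 := by exact_mod_cast h3
  have g4 : (1000 : ℝ) * D.t1 ≤ m1 * cl := by exact_mod_cast h4
  have g5 : (a : ℝ) ≤ D.a := by exact_mod_cast h5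
  have g6 : (s : ℝ) ≤ D.s := by exact_mod_cast h6
  have g8 : (D.y1 : ℝ) ≤ y1 := by exact_mod_cast h8
  have g9 : (ra : ℝ) * D.rb ≤ D.ra * rb := by exact_mod_cast h9
  have g10 : (0 : ℝ) < rb := by exact_mod_cast h10
  have g11 : (0 : ℝ) < D.rb := by exact_mod_cast h11
  have g12 : (0 : ℝ) < cl := by exact_mod_cast h12
  have g13 : (0 : ℝ) ≤ D.ra := by exact_mod_cast h13
  have Hx0 := H.x0
  have Hx1 := H.x1
  have Ht0 := H.t0
  have Ht1 := H.t1
  have Hy0 := H.y0
  have Hy1 := H.y1
  have Hr := H.r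
  refine ⟨⟨by linarith only [g1, Hx0], by linarith only [g2, Hx1]⟩, ⟨?_, ?_⟩, ⟨?_, by linarith only [g8, Hy1]⟩, by linarith only [g5, H, H.a],
    by linarith only [g6, H, H.s], fun hx => ?_, by positivity⟩
  · rw [le_div_iff₀ (by positivity)]
    have : (m0 : ℝ) / 10000 * (cl / 1000) = m0 * cl / 10000000 := by ring
    rw [this]
    linarith only [g3, Ht0]
  · rw [div_le_iff₀ (by positivity)]
    have : (m1 : ℝ) / 10000 * (cl / 1000) = m1 * cl / 10000000 := by ring
    rw [this]
    linarith only [g4, Ht1]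
  · rcases h7 with h7 | h7
    · have g7 : (y0 : ℝ) ≤ D.y0 := by exact_mod_cast h7
      linarith only [Hy0, g7]
    · have g7 : (y0 : ℝ) * D.rb ≤ D.ra * D.x0 := by exact_mod_cast h7
      have e1 : (y0 : ℝ) ≤ D.ra / D.rb * D.x0 := by
        rw [div_mul_eq_mul_div, le_div_iff₀ g11]
        exact g7
      have e2 : (D.ra : ℝ) / D.rb * (D.x0 / 1000) ≤ D.ra / D.rb * x :=
        mul_le_mul_of_nonneg_left Hx0 (by positivity)
      linarith only [Hr, e1, e2]
  · refine le_trans ?_ Hr
    apply mul_le_mul_of_nonneg_right _ hx.le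
    rw [div_le_div_iff₀ g10 g11]
    exact g9

theorem use_row (hj : j = 1 ∨ j = 2) (h : runT (row j (cE p ca cb) e a s cl ra rb) Tt
      (bx x0 x1 m0 m1 y0 y1) = true) (D : Dat)
    (hD : D.ok cl x0 x1 m0 m1 a s y0 y1 ra rb = true) (H : D.H T x y k)
    (h0 : 0 < x) (h0' : 0 < y) (hs : x + y < 1) :
    (e : ℝ) / 1000 < sd j (cR p ca cb x) x (T / ((cl : ℝ) / 1000)) y k := by
  obtain ⟨h1, h2, h3, h4, h5, h6, h7⟩ := H.box hD
  refine row_of hj h h1 h2 h3 h0 h0' hs h4 ?_ (h6 h0)
  have : (cl : ℝ) / 1000 * (T / ((cl : ℝ) / 1000)) = T := mul_div_cancel₀ _ h7.ne'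
  rw [this]
  exact h5

theorem use_rowN (hj : j = 1 ∨ j = 2) (h : runT (rowN j (cE p ca cb) e a) Tt
      (bx 0 20 m0 m1 y0 y1) = true) (D : Dat)
    (hD : D.ok cl 0 20 m0 m1 a s y0 y1 ra rb = true)
    (hD' : (decide (-13200 ≤ m0) && decide (m1 ≤ 13200) &&
      (decide (j = 2) || decide (7 * (D.rb : ℤ) ≤ 9 * D.ra))) = true) (H : D.H T x y k)
    (h0 : 0 < x) (h0' : 0 < y) (hs : x + y < 1) :
    (e : ℝ) / 1000 < sd j (cR p ca cb x) x (T / ((cl : ℝ) / 1000)) y k := by
  obtain ⟨h1, h2, h3, h4, h5, h6, h7⟩ := H.box hD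
  simp only [Bool.and_eq_true, Bool.or_eq_true, decide_eq_true_eq] at hD'
  obtain ⟨⟨k1, k2⟩, k3⟩ := hD'
  have k1' : (-13200 : ℝ) ≤ m0 := by exact_mod_cast k1
  have k2' : (m1 : ℝ) ≤ 13200 := by exact_mod_cast k2
  have hx1 : x ≤ 1 / 50 := by
    have := h1.2
    push_cast at this
    linarith only [h1]
  refine rowN_of hj h h0 hx1 ?_ h2 h3 h0' hs h4 ?_
  · rw [abs_le]
    constructor <;> linarith only [h2, k1', k2', h2.1, h2.2]
  · intro hj1
    rcases k3 with k3 | k3
    · omega
    · have g : (7 : ℝ) * D.rb ≤ 9 * D.ra := by exact_mod_cast k3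
      have g11 : (0 : ℝ) < D.rb := by exact_mod_cast (Dat.ok_spec hD).2.2.2.2.2.2.2.2.2.2.1
      refine le_trans ?_ H.r
      apply mul_le_mul_of_nonneg_right _ h0.le
      rw [div_le_div_iff₀ (by norm_num) g11]
      linarith only [g]

/-- restriction of the range of `x` -/
theorem Dat.H.cut (H : D.H T x y k) {u v : ℤ} (h1 : (u : ℝ) / 1000 ≤ x) (h2 : x ≤ (v : ℝ) / 1000) :
    Dat.H { D with x0 := u, x1 := v } T x y k :=
  ⟨h1, h2, H.t0, H.t1, H.a, H.s, H.y0, H.y1, H.r⟩

end ML

end Pool.Agent.Work.MP_b30479_gtS.G2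

end

section

/-!
# The left ramps: tables and bounds for the sides of the digits `1` and `2`

Generated.  Rounds `0`, `1`, `2`, `3`.
-/

namespace Pool.Agent.Work.MP_b30479_gtS.G2

open Real Set VOL NumIs SR

namespace ML

/-- kinds of hinges seen from a digit `1` or `2`; `threeA`: the region with three crossings is on the
right (slot `0`), `threeB`: on the left (slot `2`) -/
inductive K7
  | one | two | twoE | threeA | threeB | threeE | ring
  deriving DecidableEq

def K7.cl : K7 → Cl
  | .one => .one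
  | .two => .two
  | .twoE => .twoE
  | .threeA => .three
  | .threeB => .three
  | .threeE => .threeE
  | .ring => .ring

/-- the kind of the hinge in the slot `p` next to a region of class `B` -/
def k7 (p : Fin 3) : Cl → K7
  | .one => .one
  | .two => .two
  | .twoE => .twoE
  | .three => if p = 2 then .threeA else .threeB
  | .threeE => .threeE
  | .ring => .ring

@[simp] theorem k7_cl (p : Fin 3) (B : Cl) : (k7 p B).cl = B := by
  cases B <;> simp only [k7] <;> (try split_ifs) <;> rfl

/-- windows of a hinge `1 | B`, other neighbour `C`: `t0`, `t1` (in ten thousandths), `s` (in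
thousandths), all in the frame of the digit `1` -/
def tz : Cl → Cl → ℤ × ℤ × ℤ
  | .one, .one => ((-800), 560, (-85))
  | .one, .two => ((-180), 790, (-49))
  | .one, .twoE => ((-660), (-160), (-66))
  | .one, .three => (210, 920, (-22))
  | .one, .threeE => (100, 580, (-11))
  | .one, .ring => (380, 1360, (-10))
  | .two, .one => ((-800), 540, (-80))
  | .two, .two => (50, 790, 5)
  | .two, .twoE => ((-490), (-200), (-49))
  | .two, .three => (460, 940, 46)
  | .two, .threeE => (300, 590, 30)
  | .two, .ring => (630, 1450, 63)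
  | .twoE, .one => ((-330), 800, (-56))
  | .twoE, .two => (480, 985, 21)
  | .twoE, .twoE => ((-60), 10, (-6))
  | .twoE, .three => (870, 1145, 51)
  | .twoE, .threeE => (690, 780, 51)
  | .twoE, .ring => (1000, 1580, 64)
  | .three, .one => ((-800), 490, (-80))
  | .three, .two => (100, 770, 10)
  | .three, .twoE => ((-450), (-250), (-45))
  | .threeE, .one => ((-610), 650, (-61))
  | .threeE, .two => (320, 910, 32)
  | .threeE, .twoE => ((-240), (-110), (-24))
  | .ring, .one => ((-800), 510, (-80))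
  | .ring, .two => ((-80), 800, (-8))
  | .ring, .twoE => ((-610), (-240), (-61))
  | _, _ => (-10000, 10000, -10000)

/-- lower bound for the height of the other hinge (in thousandths) -/
def ka (B C : Cl) : ℤ := min 0 ((tz B C).1 / 10)

/-- floors of the hinges `1 | B` after round `n` (thousandths) -/
def flz : ℕ → K7 → ℤ
  | 0, _ => 70
  | 1, .one => 125
  | 1, .two => 150
  | 1, .twoE => 125
  | 1, .threeA => 130
  | 1, .threeB => 110
  | 1, .threeE => 120
  | 1, .ring => 120
  | 2, .one => 150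
  | 2, .two => 160
  | 2, .twoE => 140
  | 2, .threeA => 130
  | 2, .threeB => 150
  | 2, .threeE => 140
  | 2, .ring => 145
  | _, .one => 150
  | _, .two => 160
  | _, .twoE => 140
  | _, .threeA => 130
  | _, .threeB => 150
  | _, .threeE => 140
  | _, .ring => 160

/-- range of `x` in round `n`: from -/
def xlz : ℕ → K7 → ℤ
  | 0, _ => 0
  | n + 1, B => flz n B

/-- floors of the other hinge in round `n` -/
def ylz : ℕ → Cl → ℤ
  | 0, _ => 0
  | 1, _ => 70
  | 2, .one => 125
  | 2, .two => 150
  | 2, .twoE => 125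
  | 2, .three => 110
  | 2, .threeE => 120
  | 2, .ring => 120
  | _, .one => 180
  | _, .two => 160
  | _, .twoE => 200
  | _, .three => 130
  | _, .threeE => 140
  | _, .ring => 145

/-- caps of the other hinge in round `n` -/
def cpz : ℕ → K7 → Cl → ℤ
  | 0, .one, .one => 800
  | 0, _, .one => 860
  | 0, _, .two => 800
  | 0, _, .twoE => 700
  | 0, _, .three => 650
  | 0, _, .threeE => 600
  | 0, _, .ring => 650
  | 1, _, .one => 700
  | 1, _, .two => 560
  | 1, _, .twoE => 370
  | 1, _, .three => 650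
  | 1, _, .threeE => 600
  | 1, _, .ring => 650
  | _, _, .one => 640
  | _, _, .two => 560
  | _, _, .twoE => 370
  | _, _, .three => 650
  | _, _, .threeE => 370
  | _, _, .ring => 650

/-- numerator of the ratio in round `n` -/
def raz : ℕ → Cl → ℤ
  | 0, _ => 70
  | 1, .one => 125
  | 1, .two => 150
  | 1, .twoE => 125
  | 1, .three => 110
  | 1, .threeE => 120
  | 1, .ring => 120
  | 2, .one => 150
  | 2, .two => 160
  | 2, .twoE => 140
  | 2, .three => 130
  | 2, .threeE => 140
  | 2, .ring => 145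
  | _, _ => 0

/-- length of the left ramp -/
def clz : K7 → ℤ
  | .one => 150
  | .two => 160
  | .twoE => 140
  | .threeA => 130
  | .threeB => 150
  | .threeE => 140
  | .ring => 160

/-- data of round `n` -/
def dO (n : ℕ) (B : K7) (C : Cl) : Dat :=
  ⟨xlz n B, flz n B, (tz C B.cl).1, (tz C B.cl).2.1, ka B.cl C, (tz C B.cl).2.2, ylz n C, cpz n B C,
    raz n C, (flz n B).toNat⟩

/-- the shift at a hinge `1 | B` in round `n` -/
noncomputable def shO : ℕ → K7 → ℝ → ℝ
  | 0, .one, x => cR 0 3300 20000 x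
  | 0, .two, x => if x ≤ ((45 : ℤ) : ℝ) / 1000 then cR 0 2700 0 x else cR 0 4320 36000 x
  | 0, .twoE, x => cR 0 1300 0 x
  | 1, .one, x => cR 0 3100 9000 x
  | 1, .two, x => if x ≤ ((100 : ℤ) : ℝ) / 1000 then cR 0 2400 0 x else cR 0 3200 8000 x
  | 1, .twoE, x => cR 0 1950 0 x
  | _, .one, x => cR 0 2300 0 x
  | _, .two, x => cR 0 2100 0 x
  | _, .twoE, x => cR 0 2100 0 x
  | _, .ring, x => cR 2 0 6000 x
  | _, _, x => cR 2 0 4500 x

/-- bounds for the side of a digit `1` (thousandths) -/
def eO : ℕ → K7 → ℤ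
  | 0, .one => 40
  | 0, .two => (-200)
  | 0, .twoE => (-300)
  | 0, .threeA => 240
  | 0, .threeB => 300
  | 0, .threeE => 100
  | 0, .ring => 100
  | 1, .one => 20
  | 1, .two => (-170)
  | 1, .twoE => 50
  | 1, .threeA => 300
  | 1, .threeB => 445
  | 1, .threeE => 380
  | 1, .ring => 120
  | 2, .one => (-60)
  | 2, .two => (-50)
  | 2, .twoE => 100
  | 2, .threeA => 290
  | 2, .threeB => 290
  | 2, .threeE => 380
  | 2, .ring => 100
  | _, .ring => 140
  | _, _ => 0

variable {B : K7} {C : Cl} {T x y k : ℝ}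

theorem one_real0 (hok : okp B.cl C) (hB : B ≠ .threeB) (H : (dO 0 B C).H T x y k) (h0 : 0 < x) (h0' : 0 < y)
    (hs : x + y < 1) :
    (eO 0 B : ℝ) / 1000 < sd 1 (shO 0 B x) x (T / ((clz B : ℝ) / 1000)) y k := by
  have hx0 := H.x0
  have hx1 := H.x1
  cases B
  case one =>
    simp only [dO, xlz, flz] at hx0 hx1
    push_cast at hx0 hx1
    cases C
    case one =>
      rcases le_total x (20 / 1000) with hx | hx
      · exact use_rowN (s := -10000) (ra := 0) (rb := 1) (Or.inl rfl) o0_1_0_0 _ (by decide) (by decide) (H.cut (u := 0) (v := 20) (by push_cast; linarith only [h0]) (by push_cast; linarith only [hx])) h0 h0' hs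
      · exact use_row (Or.inl rfl) o0_1_1_0 _ (by decide) (H.cut (u := 20) (v := 70) (by push_cast; linarith only [hx]) (by push_cast; linarith only [hx1])) h0 h0' hs
    case two =>
      rcases le_total x (20 / 1000) with hx | hx
      · exact use_rowN (s := -10000) (ra := 0) (rb := 1) (Or.inl rfl) o0_1_0_0 _ (by decide) (by decide) (H.cut (u := 0) (v := 20) (by push_cast; linarith only [h0]) (by push_cast; linarith only [hx])) h0 h0' hs
      · exact use_row (Or.inl rfl) o0_1_1_0 _ (by decide) (H.cut (u := 20) (v := 70) (by push_cast; linarith only [hx]) (by push_cast; linarith only [hx1])) h0 h0' hs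
    case twoE =>
      rcases le_total x (20 / 1000) with hx | hx
      · exact use_rowN (s := -10000) (ra := 0) (rb := 1) (Or.inl rfl) o0_1_0_2 _ (by decide) (by decide) (H.cut (u := 0) (v := 20) (by push_cast; linarith only [h0]) (by push_cast; linarith only [hx])) h0 h0' hs
      · exact use_row (Or.inl rfl) o0_1_1_2 _ (by decide) (H.cut (u := 20) (v := 70) (by push_cast; linarith only [hx]) (by push_cast; linarith only [hx1])) h0 h0' hs
    case three =>
      rcases le_total x (20 / 1000) with hx | hx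
      · exact use_rowN (s := -10000) (ra := 0) (rb := 1) (Or.inl rfl) o0_1_0_0 _ (by decide) (by decide) (H.cut (u := 0) (v := 20) (by push_cast; linarith only [h0]) (by push_cast; linarith only [hx])) h0 h0' hs
      · exact use_row (Or.inl rfl) o0_1_1_0 _ (by decide) (H.cut (u := 20) (v := 70) (by push_cast; linarith only [hx]) (by push_cast; linarith only [hx1])) h0 h0' hs
    case threeE =>
      rcases le_total x (20 / 1000) with hx | hx
      · exact use_rowN (s := -10000) (ra := 0) (rb := 1) (Or.inl rfl) o0_1_0_1 _ (by decide) (by decide) (H.cut (u := 0) (v := 20) (by push_cast; linarith only [h0]) (by push_cast; linarith only [hx])) h0 h0' hs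
      · exact use_row (Or.inl rfl) o0_1_1_1 _ (by decide) (H.cut (u := 20) (v := 70) (by push_cast; linarith only [hx]) (by push_cast; linarith only [hx1])) h0 h0' hs
    case ring =>
      rcases le_total x (20 / 1000) with hx | hx
      · exact use_rowN (s := -10000) (ra := 0) (rb := 1) (Or.inl rfl) o0_1_0_0 _ (by decide) (by decide) (H.cut (u := 0) (v := 20) (by push_cast; linarith only [h0]) (by push_cast; linarith only [hx])) h0 h0' hs
      · exact use_row (Or.inl rfl) o0_1_1_0 _ (by decide) (H.cut (u := 20) (v := 70) (by push_cast; linarith only [hx]) (by push_cast; linarith only [hx1])) h0 h0' hs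
  case two =>
    simp only [dO, xlz, flz] at hx0 hx1
    push_cast at hx0 hx1
    simp only [shO]
    cases C
    case one =>
      split_ifs with hx
      · push_cast at hx
        rcases le_total x (20 / 1000) with hx' | hx'
        · exact use_rowN (s := -10000) (ra := 0) (rb := 1) (Or.inl rfl) o0_2_0_0 _ (by decide) (by decide) (H.cut (u := 0) (v := 20) (by push_cast; linarith only [h0]) (by push_cast; linarith only [hx'])) h0 h0' hs
        · exact use_row (Or.inl rfl) o0_2_1_0 _ (by decide) (H.cut (u := 20) (v := 45) (by push_cast; linarith only [hx']) (by push_cast; linarith only [hx])) h0 h0' hs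
      · push_cast at hx
        exact use_row (Or.inl rfl) o0_2_2_0 _ (by decide) (H.cut (u := 45) (v := 70) (by push_cast; linarith only [hx]) (by push_cast; linarith only [hx1])) h0 h0' hs
    case two =>
      split_ifs with hx
      · push_cast at hx
        rcases le_total x (20 / 1000) with hx' | hx'
        · exact use_rowN (s := -10000) (ra := 0) (rb := 1) (Or.inl rfl) o0_2_0_0 _ (by decide) (by decide) (H.cut (u := 0) (v := 20) (by push_cast; linarith only [h0]) (by push_cast; linarith only [hx'])) h0 h0' hs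
        · exact use_row (Or.inl rfl) o0_2_1_0 _ (by decide) (H.cut (u := 20) (v := 45) (by push_cast; linarith only [hx']) (by push_cast; linarith only [hx])) h0 h0' hs
      · push_cast at hx
        exact use_row (Or.inl rfl) o0_2_2_0 _ (by decide) (H.cut (u := 45) (v := 70) (by push_cast; linarith only [hx]) (by push_cast; linarith only [hx1])) h0 h0' hs
    case twoE =>
      split_ifs with hx
      · push_cast at hx
        rcases le_total x (20 / 1000) with hx' | hx'
        · exact use_rowN (s := -10000) (ra := 0) (rb := 1) (Or.inl rfl) o0_2_0_2 _ (by decide) (by decide) (H.cut (u := 0) (v := 20) (by push_cast; linarith only [h0]) (by push_cast; linarith only [hx'])) h0 h0' hs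
        · exact use_row (Or.inl rfl) o0_2_1_2 _ (by decide) (H.cut (u := 20) (v := 45) (by push_cast; linarith only [hx']) (by push_cast; linarith only [hx])) h0 h0' hs
      · push_cast at hx
        exact use_row (Or.inl rfl) o0_2_2_2 _ (by decide) (H.cut (u := 45) (v := 70) (by push_cast; linarith only [hx]) (by push_cast; linarith only [hx1])) h0 h0' hs
    case three =>
      split_ifs with hx
      · push_cast at hx
        rcases le_total x (20 / 1000) with hx' | hx'
        · exact use_rowN (s := -10000) (ra := 0) (rb := 1) (Or.inl rfl) o0_2_0_0 _ (by decide) (by decide) (H.cut (u := 0) (v := 20) (by push_cast; linarith only [h0]) (by push_cast; linarith only [hx'])) h0 h0' hs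
        · exact use_row (Or.inl rfl) o0_2_1_0 _ (by decide) (H.cut (u := 20) (v := 45) (by push_cast; linarith only [hx']) (by push_cast; linarith only [hx])) h0 h0' hs
      · push_cast at hx
        exact use_row (Or.inl rfl) o0_2_2_0 _ (by decide) (H.cut (u := 45) (v := 70) (by push_cast; linarith only [hx]) (by push_cast; linarith only [hx1])) h0 h0' hs
    case threeE =>
      split_ifs with hx
      · push_cast at hx
        rcases le_total x (20 / 1000) with hx' | hx'
        · exact use_rowN (s := -10000) (ra := 0) (rb := 1) (Or.inl rfl) o0_2_0_1 _ (by decide) (by decide) (H.cut (u := 0) (v := 20) (by push_cast; linarith only [h0]) (by push_cast; linarith only [hx'])) h0 h0' hs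
        · exact use_row (Or.inl rfl) o0_2_1_1 _ (by decide) (H.cut (u := 20) (v := 45) (by push_cast; linarith only [hx']) (by push_cast; linarith only [hx])) h0 h0' hs
      · push_cast at hx
        exact use_row (Or.inl rfl) o0_2_2_1 _ (by decide) (H.cut (u := 45) (v := 70) (by push_cast; linarith only [hx]) (by push_cast; linarith only [hx1])) h0 h0' hs
    case ring =>
      split_ifs with hx
      · push_cast at hx
        rcases le_total x (20 / 1000) with hx' | hx'
        · exact use_rowN (s := -10000) (ra := 0) (rb := 1) (Or.inl rfl) o0_2_0_0 _ (by decide) (by decide) (H.cut (u := 0) (v := 20) (by push_cast; linarith only [h0]) (by push_cast; linarith only [hx'])) h0 h0' hs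
        · exact use_row (Or.inl rfl) o0_2_1_0 _ (by decide) (H.cut (u := 20) (v := 45) (by push_cast; linarith only [hx']) (by push_cast; linarith only [hx])) h0 h0' hs
      · push_cast at hx
        exact use_row (Or.inl rfl) o0_2_2_0 _ (by decide) (H.cut (u := 45) (v := 70) (by push_cast; linarith only [hx]) (by push_cast; linarith only [hx1])) h0 h0' hs
  case twoE =>
    simp only [dO, xlz, flz] at hx0 hx1
    push_cast at hx0 hx1
    cases C
    case one =>
      rcases le_total x (20 / 1000) with hx | hx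
      · exact use_rowN (s := -10000) (ra := 0) (rb := 1) (Or.inl rfl) o0_2e_0_0 _ (by decide) (by decide) (H.cut (u := 0) (v := 20) (by push_cast; linarith only [h0]) (by push_cast; linarith only [hx])) h0 h0' hs
      · exact use_row (Or.inl rfl) o0_2e_1_0 _ (by decide) (H.cut (u := 20) (v := 70) (by push_cast; linarith only [hx]) (by push_cast; linarith only [hx1])) h0 h0' hs
    case two =>
      rcases le_total x (20 / 1000) with hx | hx
      · exact use_rowN (s := -10000) (ra := 0) (rb := 1) (Or.inl rfl) o0_2e_0_0 _ (by decide) (by decide) (H.cut (u := 0) (v := 20) (by push_cast; linarith only [h0]) (by push_cast; linarith only [hx])) h0 h0' hs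
      · exact use_row (Or.inl rfl) o0_2e_1_0 _ (by decide) (H.cut (u := 20) (v := 70) (by push_cast; linarith only [hx]) (by push_cast; linarith only [hx1])) h0 h0' hs
    case twoE =>
      rcases le_total x (20 / 1000) with hx | hx
      · exact use_rowN (s := -10000) (ra := 0) (rb := 1) (Or.inl rfl) o0_2e_0_0 _ (by decide) (by decide) (H.cut (u := 0) (v := 20) (by push_cast; linarith only [h0]) (by push_cast; linarith only [hx])) h0 h0' hs
      · exact use_row (Or.inl rfl) o0_2e_1_0 _ (by decide) (H.cut (u := 20) (v := 70) (by push_cast; linarith only [hx]) (by push_cast; linarith only [hx1])) h0 h0' hs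
    case three =>
      rcases le_total x (20 / 1000) with hx | hx
      · exact use_rowN (s := -10000) (ra := 0) (rb := 1) (Or.inl rfl) o0_2e_0_0 _ (by decide) (by decide) (H.cut (u := 0) (v := 20) (by push_cast; linarith only [h0]) (by push_cast; linarith only [hx])) h0 h0' hs
      · exact use_row (Or.inl rfl) o0_2e_1_0 _ (by decide) (H.cut (u := 20) (v := 70) (by push_cast; linarith only [hx]) (by push_cast; linarith only [hx1])) h0 h0' hs
    case threeE =>
      rcases le_total x (20 / 1000) with hx | hx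
      · exact use_rowN (s := -10000) (ra := 0) (rb := 1) (Or.inl rfl) o0_2e_0_0 _ (by decide) (by decide) (H.cut (u := 0) (v := 20) (by push_cast; linarith only [h0]) (by push_cast; linarith only [hx])) h0 h0' hs
      · exact use_row (Or.inl rfl) o0_2e_1_0 _ (by decide) (H.cut (u := 20) (v := 70) (by push_cast; linarith only [hx]) (by push_cast; linarith only [hx1])) h0 h0' hs
    case ring =>
      rcases le_total x (20 / 1000) with hx | hx
      · exact use_rowN (s := -10000) (ra := 0) (rb := 1) (Or.inl rfl) o0_2e_0_0 _ (by decide) (by decide) (H.cut (u := 0) (v := 20) (by push_cast; linarith only [h0]) (by push_cast; linarith only [hx])) h0 h0' hs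
      · exact use_row (Or.inl rfl) o0_2e_1_0 _ (by decide) (H.cut (u := 20) (v := 70) (by push_cast; linarith only [hx]) (by push_cast; linarith only [hx1])) h0 h0' hs
  case threeA =>
    simp only [dO, xlz, flz] at hx0 hx1
    push_cast at hx0 hx1
    cases C
    case one =>
      rcases le_total x (20 / 1000) with hx | hx
      · exact use_rowN (s := -10000) (ra := 0) (rb := 1) (Or.inl rfl) o0_3a_0_0 _ (by decide) (by decide) (H.cut (u := 0) (v := 20) (by push_cast; linarith only [h0]) (by push_cast; linarith only [hx])) h0 h0' hs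
      · exact use_row (Or.inl rfl) o0_3a_1_0 _ (by decide) (H.cut (u := 20) (v := 70) (by push_cast; linarith only [hx]) (by push_cast; linarith only [hx1])) h0 h0' hs
    case two =>
      rcases le_total x (20 / 1000) with hx | hx
      · exact use_rowN (s := -10000) (ra := 0) (rb := 1) (Or.inl rfl) o0_3a_0_0 _ (by decide) (by decide) (H.cut (u := 0) (v := 20) (by push_cast; linarith only [h0]) (by push_cast; linarith only [hx])) h0 h0' hs
      · exact use_row (Or.inl rfl) o0_3a_1_0 _ (by decide) (H.cut (u := 20) (v := 70) (by push_cast; linarith only [hx]) (by push_cast; linarith only [hx1])) h0 h0' hs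
    case twoE =>
      rcases le_total x (20 / 1000) with hx | hx
      · exact use_rowN (s := -10000) (ra := 0) (rb := 1) (Or.inl rfl) o0_3a_0_1 _ (by decide) (by decide) (H.cut (u := 0) (v := 20) (by push_cast; linarith only [h0]) (by push_cast; linarith only [hx])) h0 h0' hs
      · exact use_row (Or.inl rfl) o0_3a_1_1 _ (by decide) (H.cut (u := 20) (v := 70) (by push_cast; linarith only [hx]) (by push_cast; linarith only [hx1])) h0 h0' hs
    case three => exact absurd hok (by simp [okp, K7.cl])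
    case threeE => exact absurd hok (by simp [okp, K7.cl])
    case ring => exact absurd hok (by simp [okp, K7.cl])
  case threeB =>
    exact absurd rfl hB
  case threeE =>
    simp only [dO, xlz, flz] at hx0 hx1
    push_cast at hx0 hx1
    cases C
    case one =>
      rcases le_total x (20 / 1000) with hx | hx
      · exact use_rowN (s := -10000) (ra := 0) (rb := 1) (Or.inl rfl) o0_3e_0_0 _ (by decide) (by decide) (H.cut (u := 0) (v := 20) (by push_cast; linarith only [h0]) (by push_cast; linarith only [hx])) h0 h0' hs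
      · exact use_row (Or.inl rfl) o0_3e_1_0 _ (by decide) (H.cut (u := 20) (v := 70) (by push_cast; linarith only [hx]) (by push_cast; linarith only [hx1])) h0 h0' hs
    case two =>
      rcases le_total x (20 / 1000) with hx | hx
      · exact use_rowN (s := -10000) (ra := 0) (rb := 1) (Or.inl rfl) o0_3e_0_0 _ (by decide) (by decide) (H.cut (u := 0) (v := 20) (by push_cast; linarith only [h0]) (by push_cast; linarith only [hx])) h0 h0' hs
      · exact use_row (Or.inl rfl) o0_3e_1_0 _ (by decide) (H.cut (u := 20) (v := 70) (by push_cast; linarith only [hx]) (by push_cast; linarith only [hx1])) h0 h0' hs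
    case twoE =>
      rcases le_total x (20 / 1000) with hx | hx
      · exact use_rowN (s := -10000) (ra := 0) (rb := 1) (Or.inl rfl) o0_3e_0_1 _ (by decide) (by decide) (H.cut (u := 0) (v := 20) (by push_cast; linarith only [h0]) (by push_cast; linarith only [hx])) h0 h0' hs
      · exact use_row (Or.inl rfl) o0_3e_1_1 _ (by decide) (H.cut (u := 20) (v := 70) (by push_cast; linarith only [hx]) (by push_cast; linarith only [hx1])) h0 h0' hs
    case three => exact absurd hok (by simp [okp, K7.cl])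
    case threeE => exact absurd hok (by simp [okp, K7.cl])
    case ring => exact absurd hok (by simp [okp, K7.cl])
  case ring =>
    simp only [dO, xlz, flz] at hx0 hx1
    push_cast at hx0 hx1
    cases C
    case one =>
      rcases le_total x (20 / 1000) with hx | hx
      · exact use_rowN (s := -10000) (ra := 0) (rb := 1) (Or.inl rfl) o0_Z_0_0 _ (by decide) (by decide) (H.cut (u := 0) (v := 20) (by push_cast; linarith only [h0]) (by push_cast; linarith only [hx])) h0 h0' hs
      · exact use_row (Or.inl rfl) o0_Z_1_0 _ (by decide) (H.cut (u := 20) (v := 70) (by push_cast; linarith only [hx]) (by push_cast; linarith only [hx1])) h0 h0' hs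
    case two =>
      rcases le_total x (20 / 1000) with hx | hx
      · exact use_rowN (s := -10000) (ra := 0) (rb := 1) (Or.inl rfl) o0_Z_0_0 _ (by decide) (by decide) (H.cut (u := 0) (v := 20) (by push_cast; linarith only [h0]) (by push_cast; linarith only [hx])) h0 h0' hs
      · exact use_row (Or.inl rfl) o0_Z_1_0 _ (by decide) (H.cut (u := 20) (v := 70) (by push_cast; linarith only [hx]) (by push_cast; linarith only [hx1])) h0 h0' hs
    case twoE =>
      rcases le_total x (20 / 1000) with hx | hx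
      · exact use_rowN (s := -10000) (ra := 0) (rb := 1) (Or.inl rfl) o0_Z_0_1 _ (by decide) (by decide) (H.cut (u := 0) (v := 20) (by push_cast; linarith only [h0]) (by push_cast; linarith only [hx])) h0 h0' hs
      · exact use_row (Or.inl rfl) o0_Z_1_1 _ (by decide) (H.cut (u := 20) (v := 70) (by push_cast; linarith only [hx]) (by push_cast; linarith only [hx1])) h0 h0' hs
    case three => exact absurd hok (by simp [okp, K7.cl])
    case threeE => exact absurd hok (by simp [okp, K7.cl])
    case ring => exact absurd hok (by simp [okp, K7.cl])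

theorem one_real1 (hok : okp B.cl C) (H : (dO 1 B C).H T x y k) (h0 : 0 < x) (h0' : 0 < y)
    (hs : x + y < 1) :
    (eO 1 B : ℝ) / 1000 < sd 1 (shO 1 B x) x (T / ((clz B : ℝ) / 1000)) y k := by
  have hx0 := H.x0
  have hx1 := H.x1
  cases B
  case one =>
    simp only [dO, xlz, flz] at hx0 hx1
    push_cast at hx0 hx1
    cases C
    case one =>
      exact use_row (Or.inl rfl) o1_1_0_0 _ (by decide) H h0 h0' hs
    case two =>
      exact use_row (Or.inl rfl) o1_1_0_0 _ (by decide) H h0 h0' hs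
    case twoE =>
      exact use_row (Or.inl rfl) o1_1_0_2 _ (by decide) H h0 h0' hs
    case three =>
      exact use_row (Or.inl rfl) o1_1_0_0 _ (by decide) H h0 h0' hs
    case threeE =>
      exact use_row (Or.inl rfl) o1_1_0_1 _ (by decide) H h0 h0' hs
    case ring =>
      exact use_row (Or.inl rfl) o1_1_0_0 _ (by decide) H h0 h0' hs
  case two =>
    simp only [dO, xlz, flz] at hx0 hx1
    push_cast at hx0 hx1
    simp only [shO]
    cases C
    case one =>
      split_ifs with hx
      · push_cast at hx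
        exact use_row (Or.inl rfl) o1_2_0_0 _ (by decide) (H.cut (u := 70) (v := 100) (by push_cast; linarith only [hx0]) (by push_cast; linarith only [hx])) h0 h0' hs
      · push_cast at hx
        exact use_row (Or.inl rfl) o1_2_1_0 _ (by decide) (H.cut (u := 100) (v := 150) (by push_cast; linarith only [hx]) (by push_cast; linarith only [hx1])) h0 h0' hs
    case two =>
      split_ifs with hx
      · push_cast at hx
        exact use_row (Or.inl rfl) o1_2_0_0 _ (by decide) (H.cut (u := 70) (v := 100) (by push_cast; linarith only [hx0]) (by push_cast; linarith only [hx])) h0 h0' hs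
      · push_cast at hx
        exact use_row (Or.inl rfl) o1_2_1_0 _ (by decide) (H.cut (u := 100) (v := 150) (by push_cast; linarith only [hx]) (by push_cast; linarith only [hx1])) h0 h0' hs
    case twoE =>
      split_ifs with hx
      · push_cast at hx
        exact use_row (Or.inl rfl) o1_2_0_2 _ (by decide) (H.cut (u := 70) (v := 100) (by push_cast; linarith only [hx0]) (by push_cast; linarith only [hx])) h0 h0' hs
      · push_cast at hx
        exact use_row (Or.inl rfl) o1_2_1_2 _ (by decide) (H.cut (u := 100) (v := 150) (by push_cast; linarith only [hx]) (by push_cast; linarith only [hx1])) h0 h0' hs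
    case three =>
      split_ifs with hx
      · push_cast at hx
        exact use_row (Or.inl rfl) o1_2_0_0 _ (by decide) (H.cut (u := 70) (v := 100) (by push_cast; linarith only [hx0]) (by push_cast; linarith only [hx])) h0 h0' hs
      · push_cast at hx
        exact use_row (Or.inl rfl) o1_2_1_0 _ (by decide) (H.cut (u := 100) (v := 150) (by push_cast; linarith only [hx]) (by push_cast; linarith only [hx1])) h0 h0' hs
    case threeE =>
      split_ifs with hx
      · push_cast at hx
        exact use_row (Or.inl rfl) o1_2_0_1 _ (by decide) (H.cut (u := 70) (v := 100) (by push_cast; linarith only [hx0]) (by push_cast; linarith only [hx])) h0 h0' hs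
      · push_cast at hx
        exact use_row (Or.inl rfl) o1_2_1_1 _ (by decide) (H.cut (u := 100) (v := 150) (by push_cast; linarith only [hx]) (by push_cast; linarith only [hx1])) h0 h0' hs
    case ring =>
      split_ifs with hx
      · push_cast at hx
        exact use_row (Or.inl rfl) o1_2_0_0 _ (by decide) (H.cut (u := 70) (v := 100) (by push_cast; linarith only [hx0]) (by push_cast; linarith only [hx])) h0 h0' hs
      · push_cast at hx
        exact use_row (Or.inl rfl) o1_2_1_0 _ (by decide) (H.cut (u := 100) (v := 150) (by push_cast; linarith only [hx]) (by push_cast; linarith only [hx1])) h0 h0' hs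
  case twoE =>
    simp only [dO, xlz, flz] at hx0 hx1
    push_cast at hx0 hx1
    cases C
    case one =>
      exact use_row (Or.inl rfl) o1_2e_0_0 _ (by decide) H h0 h0' hs
    case two =>
      exact use_row (Or.inl rfl) o1_2e_0_0 _ (by decide) H h0 h0' hs
    case twoE =>
      exact use_row (Or.inl rfl) o1_2e_0_0 _ (by decide) H h0 h0' hs
    case three =>
      exact use_row (Or.inl rfl) o1_2e_0_0 _ (by decide) H h0 h0' hs
    case threeE =>
      exact use_row (Or.inl rfl) o1_2e_0_0 _ (by decide) H h0 h0' hs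
    case ring =>
      exact use_row (Or.inl rfl) o1_2e_0_0 _ (by decide) H h0 h0' hs
  case threeA =>
    simp only [dO, xlz, flz] at hx0 hx1
    push_cast at hx0 hx1
    cases C
    case one =>
      exact use_row (Or.inl rfl) o1_3a_0_0 _ (by decide) H h0 h0' hs
    case two =>
      exact use_row (Or.inl rfl) o1_3a_0_0 _ (by decide) H h0 h0' hs
    case twoE =>
      exact use_row (Or.inl rfl) o1_3a_0_1 _ (by decide) H h0 h0' hs
    case three => exact absurd hok (by simp [okp, K7.cl])
    case threeE => exact absurd hok (by simp [okp, K7.cl])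
    case ring => exact absurd hok (by simp [okp, K7.cl])
  case threeB =>
    simp only [dO, xlz, flz] at hx0 hx1
    push_cast at hx0 hx1
    cases C
    case one =>
      exact use_row (Or.inl rfl) o1_3b_0_0 _ (by decide) H h0 h0' hs
    case two =>
      exact use_row (Or.inl rfl) o1_3b_0_0 _ (by decide) H h0 h0' hs
    case twoE =>
      exact use_row (Or.inl rfl) o1_3b_0_1 _ (by decide) H h0 h0' hs
    case three => exact absurd hok (by simp [okp, K7.cl])
    case threeE => exact absurd hok (by simp [okp, K7.cl])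
    case ring => exact absurd hok (by simp [okp, K7.cl])
  case threeE =>
    simp only [dO, xlz, flz] at hx0 hx1
    push_cast at hx0 hx1
    cases C
    case one =>
      exact use_row (Or.inl rfl) o1_3e_0_0 _ (by decide) H h0 h0' hs
    case two =>
      exact use_row (Or.inl rfl) o1_3e_0_0 _ (by decide) H h0 h0' hs
    case twoE =>
      exact use_row (Or.inl rfl) o1_3e_0_1 _ (by decide) H h0 h0' hs
    case three => exact absurd hok (by simp [okp, K7.cl])
    case threeE => exact absurd hok (by simp [okp, K7.cl])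
    case ring => exact absurd hok (by simp [okp, K7.cl])
  case ring =>
    simp only [dO, xlz, flz] at hx0 hx1
    push_cast at hx0 hx1
    cases C
    case one =>
      exact use_row (Or.inl rfl) o1_Z_0_0 _ (by decide) H h0 h0' hs
    case two =>
      exact use_row (Or.inl rfl) o1_Z_0_0 _ (by decide) H h0 h0' hs
    case twoE =>
      exact use_row (Or.inl rfl) o1_Z_0_1 _ (by decide) H h0 h0' hs
    case three => exact absurd hok (by simp [okp, K7.cl])
    case threeE => exact absurd hok (by simp [okp, K7.cl])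
    case ring => exact absurd hok (by simp [okp, K7.cl])

theorem one_real2 (hok : okp B.cl C) (hB : B ≠ .threeA) (H : (dO 2 B C).H T x y k) (h0 : 0 < x) (h0' : 0 < y)
    (hs : x + y < 1) :
    (eO 2 B : ℝ) / 1000 < sd 1 (shO 2 B x) x (T / ((clz B : ℝ) / 1000)) y k := by
  have hx0 := H.x0
  have hx1 := H.x1
  cases B
  case one =>
    simp only [dO, xlz, flz] at hx0 hx1
    push_cast at hx0 hx1
    cases C
    case one =>
      exact use_row (Or.inl rfl) o2_1_0_0 _ (by decide) H h0 h0' hs
    case two =>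
      exact use_row (Or.inl rfl) o2_1_0_0 _ (by decide) H h0 h0' hs
    case twoE =>
      exact use_row (Or.inl rfl) o2_1_0_2 _ (by decide) H h0 h0' hs
    case three =>
      exact use_row (Or.inl rfl) o2_1_0_0 _ (by decide) H h0 h0' hs
    case threeE =>
      exact use_row (Or.inl rfl) o2_1_0_1 _ (by decide) H h0 h0' hs
    case ring =>
      exact use_row (Or.inl rfl) o2_1_0_0 _ (by decide) H h0 h0' hs
  case two =>
    simp only [dO, xlz, flz] at hx0 hx1
    push_cast at hx0 hx1
    cases C
    case one =>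
      exact use_row (Or.inl rfl) o2_2_0_0 _ (by decide) H h0 h0' hs
    case two =>
      exact use_row (Or.inl rfl) o2_2_0_0 _ (by decide) H h0 h0' hs
    case twoE =>
      exact use_row (Or.inl rfl) o2_2_0_2 _ (by decide) H h0 h0' hs
    case three =>
      exact use_row (Or.inl rfl) o2_2_0_0 _ (by decide) H h0 h0' hs
    case threeE =>
      exact use_row (Or.inl rfl) o2_2_0_1 _ (by decide) H h0 h0' hs
    case ring =>
      exact use_row (Or.inl rfl) o2_2_0_0 _ (by decide) H h0 h0' hs
  case twoE =>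
    simp only [dO, xlz, flz] at hx0 hx1
    push_cast at hx0 hx1
    cases C
    case one =>
      exact use_row (Or.inl rfl) o2_2e_0_0 _ (by decide) H h0 h0' hs
    case two =>
      exact use_row (Or.inl rfl) o2_2e_0_0 _ (by decide) H h0 h0' hs
    case twoE =>
      exact use_row (Or.inl rfl) o2_2e_0_0 _ (by decide) H h0 h0' hs
    case three =>
      exact use_row (Or.inl rfl) o2_2e_0_0 _ (by decide) H h0 h0' hs
    case threeE =>
      exact use_row (Or.inl rfl) o2_2e_0_0 _ (by decide) H h0 h0' hs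
    case ring =>
      exact use_row (Or.inl rfl) o2_2e_0_0 _ (by decide) H h0 h0' hs
  case threeA =>
    exact absurd rfl hB
  case threeB =>
    simp only [dO, xlz, flz] at hx0 hx1
    push_cast at hx0 hx1
    cases C
    case one =>
      exact use_row (Or.inl rfl) o2_3b_0_0 _ (by decide) H h0 h0' hs
    case two =>
      exact use_row (Or.inl rfl) o2_3b_0_0 _ (by decide) H h0 h0' hs
    case twoE =>
      exact use_row (Or.inl rfl) o2_3b_0_1 _ (by decide) H h0 h0' hs
    case three => exact absurd hok (by simp [okp, K7.cl])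
    case threeE => exact absurd hok (by simp [okp, K7.cl])
    case ring => exact absurd hok (by simp [okp, K7.cl])
  case threeE =>
    simp only [dO, xlz, flz] at hx0 hx1
    push_cast at hx0 hx1
    cases C
    case one =>
      exact use_row (Or.inl rfl) o2_3e_0_0 _ (by decide) H h0 h0' hs
    case two =>
      exact use_row (Or.inl rfl) o2_3e_0_0 _ (by decide) H h0 h0' hs
    case twoE =>
      exact use_row (Or.inl rfl) o2_3e_0_1 _ (by decide) H h0 h0' hs
    case three => exact absurd hok (by simp [okp, K7.cl])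
    case threeE => exact absurd hok (by simp [okp, K7.cl])
    case ring => exact absurd hok (by simp [okp, K7.cl])
  case ring =>
    simp only [dO, xlz, flz] at hx0 hx1
    push_cast at hx0 hx1
    cases C
    case one =>
      exact use_row (Or.inl rfl) o2_Z_0_0 _ (by decide) H h0 h0' hs
    case two =>
      exact use_row (Or.inl rfl) o2_Z_0_0 _ (by decide) H h0 h0' hs
    case twoE =>
      exact use_row (Or.inl rfl) o2_Z_0_1 _ (by decide) H h0 h0' hs
    case three => exact absurd hok (by simp [okp, K7.cl])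
    case threeE => exact absurd hok (by simp [okp, K7.cl])
    case ring => exact absurd hok (by simp [okp, K7.cl])

theorem one_real3 (hok : okp B.cl C) (hB : B = .ring) (H : (dO 3 B C).H T x y k) (h0 : 0 < x) (h0' : 0 < y)
    (hs : x + y < 1) :
    (eO 3 B : ℝ) / 1000 < sd 1 (shO 3 B x) x (T / ((clz B : ℝ) / 1000)) y k := by
  have hx0 := H.x0
  have hx1 := H.x1
  subst hB
  simp only [dO, xlz, flz] at hx0 hx1
  push_cast at hx0 hx1
  cases C
  case one =>
    exact use_row (Or.inl rfl) o3_Z_0_0 _ (by decide) H h0 h0' hs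
  case two =>
    exact use_row (Or.inl rfl) o3_Z_0_1 _ (by decide) H h0 h0' hs
  case twoE =>
    exact use_row (Or.inl rfl) o3_Z_0_2 _ (by decide) H h0 h0' hs
  case three => exact absurd hok (by simp [okp, K7.cl])
  case threeE => exact absurd hok (by simp [okp, K7.cl])
  case ring => exact absurd hok (by simp [okp, K7.cl])

theorem Dat.H.cuty {D : Dat} (H : D.H T x y k) {v : ℤ} (h : y ≤ (v : ℝ) / 1000) :
    (({ D with y1 := v }) : Dat).H T x y k :=
  ⟨H.x0, H.x1, H.t0, H.t1, H.a, H.s, H.y0, h, H.r⟩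

/-- round `0`, the region with three crossings on the left -/
theorem one_real0B (hok : okp .three C) (H : (dO 0 .threeB C).H T x y k)
    (hk : ((850 : ℤ) : ℝ) / 1000 ≤ y → (((-4) : ℤ) : ℝ) / 1000 ≤ k) (h0 : 0 < x) (h0' : 0 < y)
    (hs : x + y < 1) :
    (eO 0 .threeB : ℝ) / 1000 < sd 1 (shO 0 .threeB x) x (T / ((clz .threeB : ℝ) / 1000)) y k := by
  have hx0 := H.x0
  have hx1 := H.x1
  simp only [dO, xlz, flz] at hx0 hx1
  push_cast at hx0 hx1
  cases C
  case one =>
    rcases le_total x (20 / 1000) with hx | hx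
    · exact use_rowN (s := -10000) (ra := 0) (rb := 1) (Or.inl rfl) o0_3b_0_0 _ (by decide) (by decide) (H.cut (u := 0) (v := 20) (by push_cast; linarith only [h0]) (by push_cast; linarith only [hx])) h0 h0' hs
    · rcases le_total y (((850 : ℤ) : ℝ) / 1000) with hy | hy
      · exact use_row (Or.inl rfl) o0_3b_1_0 _ (by decide) ((H.cut (u := 20) (v := 70) (by push_cast; linarith only [hx]) (by push_cast; linarith only [hx1])).cuty hy) h0 h0' hs
      · have h1 := H.t0
        have h2 := H.t1
        have h3 := H.s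
        have h4 := H.y1
        simp only [dO, tz, K7.cl, cpz] at h1 h2 h3 h4
        exact use_row (Or.inl rfl) o0_3b_2_0 ⟨20, 70, 210, 940, -4, -22, 850, 860, 0, 1⟩ (by decide)
          ⟨by push_cast; linarith only [hx], by push_cast; linarith only [hx1], by push_cast at h1 ⊢; linarith only [h1],
            by push_cast at h2 ⊢; linarith only [h0, hx1, h2], hk hy, by push_cast at h3 ⊢; linarith only [h3], hy,
            by push_cast at h4 ⊢; linarith only [h4], by simpa using h0'.le⟩ h0 h0' hs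
  case two =>
    rcases le_total x (20 / 1000) with hx | hx
    · exact use_rowN (s := -10000) (ra := 0) (rb := 1) (Or.inl rfl) o0_3b_0_0 _ (by decide) (by decide) (H.cut (u := 0) (v := 20) (by push_cast; linarith only [h0]) (by push_cast; linarith only [hx])) h0 h0' hs
    · exact use_row (Or.inl rfl) o0_3b_1_0 _ (by decide) (H.cut (u := 20) (v := 70) (by push_cast; linarith only [hx]) (by push_cast; linarith only [hx1])) h0 h0' hs
  case twoE =>
    rcases le_total x (20 / 1000) with hx | hx
    · exact use_rowN (s := -10000) (ra := 0) (rb := 1) (Or.inl rfl) o0_3b_0_1 _ (by decide) (by decide) (H.cut (u := 0) (v := 20) (by push_cast; linarith only [h0]) (by push_cast; linarith only [hx])) h0 h0' hs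
    · exact use_row (Or.inl rfl) o0_3b_1_1 _ (by decide) (H.cut (u := 20) (v := 70) (by push_cast; linarith only [hx]) (by push_cast; linarith only [hx1])) h0 h0' hs
  all_goals exact absurd hok (by simp [okp])

/-- data of the additional round at the hinges `1 | 1` -/
def dB (C : Cl) : Dat :=
  ⟨70, 85, (tz C .one).1, (tz C .one).2.1, ka .one C, (tz C .one).2.2, 70, cpz 0 .one C, 0, 1⟩

theorem one_real4 (hC : C ≠ .twoE) (H : (dB C).H T x y k) (h0 : 0 < x) (h0' : 0 < y)
    (hs : x + y < 1) :
    ((8 : ℤ) : ℝ) / 1000 < sd 1 (shO 0 .one x) x (T / (((150 : ℤ) : ℝ) / 1000)) y k := by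
  cases C
  case one => exact use_row (Or.inl rfl) o4_1_0_0 _ (by decide) H h0 h0' hs
  case two => exact use_row (Or.inl rfl) o4_1_0_0 _ (by decide) H h0 h0' hs
  case twoE => exact absurd rfl hC
  case three => exact use_row (Or.inl rfl) o4_1_0_0 _ (by decide) H h0 h0' hs
  case threeE => exact use_row (Or.inl rfl) o4_1_0_1 _ (by decide) H h0 h0' hs
  case ring => exact use_row (Or.inl rfl) o4_1_0_0 _ (by decide) H h0 h0' hs

/-- data of a hinge `1 | 1` with nonnegative height in the round `2` -/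
def dP (C : Cl) : Dat :=
  ⟨125, 150, 0, (tz C .one).2.1, ka .one C, (tz C .one).2.2, ylz 2 C, cpz 2 .one C, raz 2 C, 150⟩

theorem one_real5 (H : (dP C).H T x y k) (h0 : 0 < x) (h0' : 0 < y) (hs : x + y < 1) :
    ((80 : ℤ) : ℝ) / 1000 < sd 1 (shO 2 .one x) x (T / (((150 : ℤ) : ℝ) / 1000)) y k := by
  cases C
  case one => exact use_row (Or.inl rfl) o5_1_0_0 _ (by decide) H h0 h0' hs
  case two => exact use_row (Or.inl rfl) o5_1_0_0 _ (by decide) H h0 h0' hs
  case twoE => exact use_row (Or.inl rfl) o5_1_0_2 _ (by decide) H h0 h0' hs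
  case three => exact use_row (Or.inl rfl) o5_1_0_0 _ (by decide) H h0 h0' hs
  case threeE => exact use_row (Or.inl rfl) o5_1_0_1 _ (by decide) H h0 h0' hs
  case ring => exact use_row (Or.inl rfl) o5_1_0_0 _ (by decide) H h0 h0' hs

end ML

end Pool.Agent.Work.MP_b30479_gtS.G2

end

section

/-!
# The left ramps: sides of the digits `1` and `2` in a word
-/

namespace Pool.Agent.Work.MP_b30479_gtS.G2

open Finset VOL Filter Topology

namespace SR

open ML

variable {M : ℕ} {b : Fin (M + 1) → ℤ} {zs : DD (tyW b) ⊕ ZZ (tyW b) → ℂ}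
variable {y : DD (tyW b) ⊕ ZZ (tyW b) → ℝ}
variable {h h' : Fin M} {i j j' : Fin (M + 1)} {p : Fin 3}

/-! ### hinges on the left ramp -/

theorem Adj.rr (A : Adj h i p j) : Adj h i p.rev.rev j := by
  rw [Fin.rev_rev]
  exact A

/-- the own hinge on its left ramp -/
theorem Adj.Yw_ramp (A : Adj h i p j) (hy : Mx b zs y) (hx : y (.inl (.inl h)) ≤ wcl b h) :
    Yw b zs y i p = lv (y (.inl (.inl h)))
      (y (.inl (.inl h)) * (ofs (b i) (zs (.inl (.inl h))).im / wcl b h)) := by
  have r := A.rh hy
  obtain ⟨g1, g2, g3⟩ := A.good (b := b)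
  have e := A.re (zs := zs) (y := y)
  apply Complex.ext
  · rw [lv_re, e]
  · rw [lv_im, r.im, e, tr_a g1 g2 g3 (by rw [← e]; exact r.re0) hx]
    ring

theorem Adj.Yw_lv (A : Adj h i p j) : Yw b zs y i p = lv (y (.inl (.inl h))) (Yw b zs y i p).im := by
  apply Complex.ext
  · rw [lv_re, A.re]
  · rw [lv_im]

/-- lower bound for the height of a hinge on its path -/
theorem Adj.im_low (A : Adj h i p j) (hy : Mx b zs y) {a : ℝ} (ha : a ≤ 0)
    (hK : a ≤ ofs (b i) (zs (.inl (.inl h))).im) : a ≤ (Yw b zs y i p).im := by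
  have r := A.rh hy
  rw [r.im]
  have h0 : 0 ≤ tr 0 (wXM b h) (wcl b h) (wcr b h) (Yw b zs y i p).re := le_max_left _ _
  have h1 : tr 0 (wXM b h) (wcl b h) (wcr b h) (Yw b zs y i p).re ≤ 1 :=
    max_le zero_le_one (min_le_left _ _)
  nlinarith only [ha, h1, hK, h0]

/-- the side of a digit `1` on the left ramp -/
theorem Adj.one_sd (A : Adj h i p j) (A' : Adj h' i p.rev j') (hb : ClassW b) (hy : Mx b zs y)
    (hc : clsW b i = .one) (hx : y (.inl (.inl h)) ≤ wcl b h) (h0 : 0 < y (.inl (.inl h)))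
    (h0' : 0 < y (.inl (.inl h'))) (hs : y (.inl (.inl h)) + y (.inl (.inl h')) < 1) (c : ℝ) :
    Sw b zs y i p ((zs (.inl (.inl h))).im / wcl b h) +
      c * ofs (b i) ((zs (.inl (.inl h))).im / wcl b h) =
    sd 1 c (y (.inl (.inl h))) (ofs (b i) (zs (.inl (.inl h))).im / wcl b h) (y (.inl (.inl h')))
      (Yw b zs y i p.rev).im := by
  rw [A.side_one hb hc, A.Yw_ramp hy hx, A'.Yw_lv, ofs_div, lv_im]
  exact S1_sd c h0 h0' hs

/-- the side of a digit `2` on the left ramp -/
theorem Adj.two_sd (A : Adj h i p j) (A' : Adj h' i p.rev j') (hb : ClassW b) (hy : Mx b zs y)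
    (hc : clsW b i = .two) (hx : y (.inl (.inl h)) ≤ wcl b h) (h0 : 0 < y (.inl (.inl h)))
    (h0' : 0 < y (.inl (.inl h'))) (hs : y (.inl (.inl h)) + y (.inl (.inl h')) < 1) (c : ℝ) :
    Sw b zs y i p ((zs (.inl (.inl h))).im / wcl b h) +
      c * ofs (b i) ((zs (.inl (.inl h))).im / wcl b h) =
    sd 2 c (y (.inl (.inl h))) (ofs (b i) (zs (.inl (.inl h))).im / wcl b h) (y (.inl (.inl h')))
      (Yw b zs y i p.rev).im := by
  rw [A.side_two hb (Or.inl hc), A.Yw_ramp hy hx, A'.Yw_lv, ofs_div, lv_im]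
  exact S2_sd c h0 h0' hs

/-- the side of a digit `2` at an end on the left ramp -/
theorem Adj.twoE_sE (A : Adj h i p j) (hb : ClassW b) (hy : Mx b zs y)
    (hc : clsW b i = .twoE) (hx : y (.inl (.inl h)) ≤ wcl b h) (h0 : 0 < y (.inl (.inl h)))
    (hs : y (.inl (.inl h)) < 1) (c : ℝ) :
    Sw b zs y i p ((zs (.inl (.inl h))).im / wcl b h) +
      c * ofs (b i) ((zs (.inl (.inl h))).im / wcl b h) =
    sE c (y (.inl (.inl h))) (ofs (b i) (zs (.inl (.inl h))).im / wcl b h) := by
  have h00 : Yw b zs y i p.rev = 0 := by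
    rcases A.other b zs y with ⟨-, h0⟩ | ⟨he', -⟩
    · exact h0
    · rw [clsW_end (Or.inl hc)] at he'
      exact absurd he' (by decide)
  rw [A.side_two hb (Or.inr hc), A.Yw_ramp hy hx, h00, ofs_div]
  exact S2_sE c h0 hs

/-! ### tables -/

theorem tz_t0 (B C : Cl) {T : ℝ} (h : (cw C B).t0 ≤ T) (h' : B = .one → -(80 / 1000) ≤ T) :
    ((tz C B).1 : ℝ) / 10000 ≤ T := by
  cases B <;> cases C <;> simp only [cw, hbox] at h <;> simp only [tz] <;>
    first | (have := h' rfl; push_cast; linarith only [this, h]) | (push_cast; linarith only [h])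

theorem tz_t1 (B C : Cl) {T : ℝ} (h : T ≤ (cw C B).t1) : T ≤ ((tz C B).2.1 : ℝ) / 10000 := by
  cases B <;> cases C <;> simp only [cw, hbox] at h <;> simp only [tz] <;>
    (push_cast; linarith only [h])

theorem tz_s (B C : Cl) {S : ℝ} (h : (cw C B).s0 ≤ S) : ((tz C B).2.2 : ℝ) / 1000 ≤ S := by
  cases B <;> cases C <;> simp only [cw] at h <;> simp only [tz] <;> (push_cast; linarith only [h])

theorem tz_s' (B C : Cl) : (tz C B).2.2 * 10 ≤ (tz C B).1 := by
  cases B <;> cases C <;> decide

theorem ka_nonpos (B C : Cl) : ka B C ≤ 0 := min_le_left _ _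

theorem ka_le (B C : Cl) : ka B C * 10 ≤ (tz B C).1 := by
  cases B <;> cases C <;> decide

/-- the ranges of the heights of the hinges of a digit `1` -/
theorem Adj.ran (A : Adj h i p j) (A' : Adj h' i p.rev j') (hb : ClassW b) (hX : LocX b zs)
    (hc : clsW b i = .one) :
    ((tz (clsW b j') (clsW b j)).1 : ℝ) / 10000 ≤ ofs (b i) (zs (.inl (.inl h))).im ∧
    ofs (b i) (zs (.inl (.inl h))).im ≤ ((tz (clsW b j') (clsW b j)).2.1 : ℝ) / 10000 ∧
    ((tz (clsW b j') (clsW b j)).2.2 : ℝ) / 1000 ≤
      ofs (b i) (zs (.inl (.inl h))).im + ofs (b i) (zs (.inl (.inl h'))).im ∧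
    (ka (clsW b j) (clsW b j') : ℝ) / 1000 ≤ ofs (b i) (zs (.inl (.inl h'))).im := by
  obtain ⟨w1, w2, w3, -⟩ := hX.win A A' hc
  obtain ⟨v1, -, -, -⟩ := hX.win A' A.rr hc
  have k1 : clsW b j = .one → -(80 / 1000) ≤ ofs (b i) (zs (.inl (.inl h))).im := fun h1 =>
    (abs_le.1 (hX.t11 hb A hc h1)).1
  have k2 : clsW b j' = .one → -(80 / 1000) ≤ ofs (b i) (zs (.inl (.inl h'))).im := fun h1 =>
    (abs_le.1 (hX.t11 hb A' hc h1)).1
  refine ⟨tz_t0 _ _ w1 k1, tz_t1 _ _ w2, tz_s _ _ w3, le_trans ?_ (tz_t0 _ _ v1 k2)⟩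
  have : (ka (clsW b j) (clsW b j') : ℝ) * 10 ≤ ((tz (clsW b j) (clsW b j')).1 : ℝ) := by
    exact_mod_cast ka_le _ _
  linarith only [this]

/-- the data of the side of a digit `1` -/
theorem Adj.one_H (A : Adj h i p j) (A' : Adj h' i p.rev j') (hb : ClassW b) (hX : LocX b zs)
    (hy : Mx b zs y) (hc : clsW b i = .one) {n : ℕ}
    (x0 : (xlz n (k7 p (clsW b j)) : ℝ) / 1000 ≤ y (.inl (.inl h)))
    (x1 : y (.inl (.inl h)) ≤ (flz n (k7 p (clsW b j)) : ℝ) / 1000)
    (y0 : (ylz n (clsW b j') : ℝ) / 1000 ≤ y (.inl (.inl h')))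
    (y1 : y (.inl (.inl h')) ≤ (cpz n (k7 p (clsW b j)) (clsW b j') : ℝ) / 1000)
    (r : (raz n (clsW b j') : ℝ) / (flz n (k7 p (clsW b j)) : ℝ) * y (.inl (.inl h)) ≤
      y (.inl (.inl h'))) :
    (dO n (k7 p (clsW b j)) (clsW b j')).H (ofs (b i) (zs (.inl (.inl h))).im)
      (y (.inl (.inl h))) (y (.inl (.inl h'))) (Yw b zs y i p.rev).im := by
  obtain ⟨w1, w2, w3, w4⟩ := A.ran A' hb hX hc
  have hf : (((flz n (k7 p (clsW b j))).toNat : ℕ) : ℝ) = (flz n (k7 p (clsW b j)) : ℝ) := by
    have h0 : 0 ≤ flz n (k7 p (clsW b j)) := by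
      generalize k7 p (clsW b j) = K
      rcases n with - | - | - | n <;> cases K <;> simp [flz]
    have : (((flz n (k7 p (clsW b j))).toNat : ℕ) : ℤ) = flz n (k7 p (clsW b j)) :=
      Int.toNat_of_nonneg h0
    exact_mod_cast this
  refine ⟨x0, x1, ?_, ?_, ?_, ?_, y0, y1, ?_⟩
  · simp only [dO, k7_cl]; exact w1
  · simp only [dO, k7_cl]; exact w2
  · simp only [dO, k7_cl]
    refine A'.im_low hy ?_ w4
    have : (ka (clsW b j) (clsW b j') : ℝ) ≤ 0 := by exact_mod_cast ka_nonpos _ _
    linarith only [this]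
  · simp only [dO, k7_cl]
    have h1 : ((tz (clsW b j') (clsW b j)).2.2 : ℝ) * 10 ≤ ((tz (clsW b j') (clsW b j)).1 : ℝ) := by
      exact_mod_cast tz_s' _ _
    exact A'.im_low hy (by linarith only [w1, h1]) (by linarith only [w3])
  · simp only [dO]
    rw [hf]
    exact r

/-! ### parameters of the hinges of a digit `1` -/

theorem Adj.cl_one (A : Adj h i p j) (hc : clsW b i = .one) :
    wcl b h = (clz (k7 p (clsW b j)) : ℝ) / 1000 := by
  have e1 : ¬ (0 : Fin 3) = 2 := by decide
  rw [A.cl_eq b, hc]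
  generalize clsW b j = B
  unfold hpp
  rcases A.slot with rfl | rfl
  · rw [if_neg (by decide)]
    cases B <;> simp only [hp, hp1, k7, e1, if_false] <;> (try split_ifs) <;> simp only [clz] <;>
      norm_num
  · rw [if_pos rfl]
    cases B <;> simp only [hp, hp1, k7, if_true] <;> (try split_ifs) <;> simp only [clz] <;>
      norm_num

theorem XM_tab (q : Fin 3) (K : K7) (C Q : Cl) :
    (hpp q K.cl .one C Q).XM ≤ (cpz 0 K C : ℝ) / 1000 := by
  unfold hpp
  by_cases hq : q = 2
  · rw [if_pos hq]
    cases K <;> cases C <;> simp only [K7.cl, hp, hp1, cpz] <;> (try split_ifs) <;> norm_num at *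
  · rw [if_neg hq]
    cases K <;> cases C <;> simp only [K7.cl, hp, hp1, cpz] <;> (try split_ifs) <;> norm_num at *

theorem Adj.XM_one (A : Adj h i p j) (A' : Adj h' i p.rev j') (hc : clsW b i = .one) :
    wXM b h' ≤ (cpz 0 (k7 p (clsW b j)) (clsW b j') : ℝ) / 1000 := by
  rw [A'.XM_eq b, hc, A.rr.oc_eq]
  have := XM_tab p.rev (k7 p (clsW b j)) (clsW b j') (oc b j' p.rev)
  rwa [k7_cl] at this

theorem F0_one (p : Fin 3) (B : Cl) : F0 p .one B = (flz 0 (k7 p B) : ℝ) / 1000 := by
  cases B <;> simp only [F0, k7, flz] <;> norm_num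

theorem F1_one (hp : p = 0 ∨ p = 2) (B : Cl) : F1 p .one B = (flz 1 (k7 p B) : ℝ) / 1000 := by
  have e1 : ¬ (0 : Fin 3) = 2 := by decide
  have e2 : ¬ (2 : Fin 3) = 0 := by decide
  rcases hp with rfl | rfl <;> cases B <;> simp only [F1, k7, e1, e2, if_true, if_false] <;>
    simp only [flz] <;> norm_num

theorem F2_one (hp : p = 0 ∨ p = 2) (B : Cl) : F2 p .one B = (flz 2 (k7 p B) : ℝ) / 1000 := by
  have e1 : ¬ (0 : Fin 3) = 2 := by decide
  have e2 : ¬ (2 : Fin 3) = 0 := by decide
  rcases hp with rfl | rfl <;> cases B <;> simp only [F2, k7, e1, e2, if_true, if_false] <;>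
    simp only [flz] <;> norm_num

theorem sum_lt {n : ℕ} (hn : n ≤ 3) (K : K7) (C : Cl) : flz n K + cpz n K C < 1000 := by
  interval_cases n <;> cases K <;> cases C <;> decide

theorem flz_pos (n : ℕ) (K : K7) : 0 < flz n K := by
  rcases n with - | - | - | n <;> cases K <;> simp [flz]

theorem ylz_one1 (q : Fin 3) (C : Cl) : (ylz 1 C : ℝ) / 1000 ≤ F0 q .one C := by
  cases C <;> simp only [F0, ylz] <;> norm_num

theorem ylz_one2 (q : Fin 3) (C : Cl) : (ylz 2 C : ℝ) / 1000 ≤ F1 q .one C := by
  cases C <;> simp only [F1, ylz] <;> (try split_ifs) <;> norm_num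

theorem raz_one0 (q : Fin 3) (C : Cl) : (raz 0 C : ℝ) / 1000 ≤ F0 q .one C := by
  cases C <;> simp only [F0, raz] <;> norm_num

theorem raz_one1 (q : Fin 3) (C : Cl) : (raz 1 C : ℝ) / 1000 ≤ F1 q .one C := by
  cases C <;> simp only [F1, raz] <;> (try split_ifs) <;> norm_num

theorem raz_one2 (q : Fin 3) (C : Cl) : (raz 2 C : ℝ) / 1000 ≤ F2 q .one C := by
  cases C <;> simp only [F2, raz] <;> (try split_ifs) <;> norm_num

/-- the ratio from the order of the round -/
theorem ratio_of {f f' x x' : ℝ} {r : ℤ} {g : ℤ} (hf : f = (g : ℝ) / 1000) (hg : 0 < g)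
    (hf' : (r : ℝ) / 1000 ≤ f') (hf0 : 0 < f') (h0 : 0 < x) (h : x / f ≤ x' / f') :
    (r : ℝ) / g * x ≤ x' := by
  have hg' : (0 : ℝ) < g := by exact_mod_cast hg
  have hfp : 0 < f := by rw [hf]; positivity
  rw [div_le_div_iff₀ hfp hf0, hf] at h
  rw [div_mul_eq_mul_div, div_le_iff₀ hg']
  have h1 := mul_le_mul_of_nonneg_left hf' h0.le
  nlinarith only [h, h1]

/-- **A digit `1` on the left ramp, any round.** -/
theorem Adj.one_gen (A : Adj h i p j) (A' : Adj h' i p.rev j') (hb : ClassW b) (hX : LocX b zs)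
    (hy : Mx b zs y) (hpos : ∀ h : Fin M, 0 < y (.inl (.inl h))) (hc : clsW b i = .one)
    {n : ℕ} (hn : n ≤ 3) (hcl : (flz n (k7 p (clsW b j)) : ℝ) / 1000 ≤ wcl b h)
    (hreal : ∀ {T x y' k : ℝ}, (dO n (k7 p (clsW b j)) (clsW b j')).H T x y' k → 0 < x → 0 < y' →
      x + y' < 1 → (eO n (k7 p (clsW b j)) : ℝ) / 1000 < sd 1 (shO n (k7 p (clsW b j)) x) x
        (T / ((clz (k7 p (clsW b j)) : ℝ) / 1000)) y' k)
    (x0 : (xlz n (k7 p (clsW b j)) : ℝ) / 1000 ≤ y (.inl (.inl h)))
    (x1 : y (.inl (.inl h)) ≤ (flz n (k7 p (clsW b j)) : ℝ) / 1000)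
    (y0 : (ylz n (clsW b j') : ℝ) / 1000 ≤ y (.inl (.inl h')))
    (y1 : y (.inl (.inl h')) ≤ (cpz n (k7 p (clsW b j)) (clsW b j') : ℝ) / 1000)
    (r : (raz n (clsW b j') : ℝ) / (flz n (k7 p (clsW b j)) : ℝ) * y (.inl (.inl h)) ≤
      y (.inl (.inl h'))) :
    (eO n (k7 p (clsW b j)) : ℝ) / 1000 ≤ Sw b zs y i p ((zs (.inl (.inl h))).im / wcl b h) +
      shO n (k7 p (clsW b j)) (y (.inl (.inl h))) *
        ofs (b i) ((zs (.inl (.inl h))).im / wcl b h) := by
  have hs : y (.inl (.inl h)) + y (.inl (.inl h')) < 1 := by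
    have h1 : (flz n (k7 p (clsW b j)) : ℝ) + (cpz n (k7 p (clsW b j)) (clsW b j') : ℝ) < 1000 := by
      exact_mod_cast sum_lt hn _ _
    linarith only [x1, y1, h1]
  have h1 := hreal (A.one_H A' hb hX hy hc x0 x1 y0 y1 r) (hpos h) (hpos h') hs
  rw [A.one_sd A' hb hy hc (x1.trans hcl) (hpos h) (hpos h') hs]
  rw [← A.cl_one hc] at h1
  exact h1.le

theorem Adj.one_ok (A : Adj h i p j) (A' : Adj h' i p.rev j') (hb : ClassW b)
    (hc : clsW b i = .one) : okp (k7 p (clsW b j)).cl (clsW b j') := by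
  rw [k7_cl]
  exact okp_of hb A A' hc

/-- a hinge `1 | 1` close to the end of its path -/
theorem Adj.im_top (A : Adj h i p j) (hX : LocX b zs) (hb : ClassW b) (hy : Mx b zs y)
    (hc : clsW b i = .one) (hj : clsW b j = .one) (h0 : 85 / 100 ≤ y (.inl (.inl h))) :
    -(4 / 1000) ≤ (Yw b zs y i p).im := by
  have r := A.rh hy
  obtain ⟨g1, g2, g3⟩ := A.good (b := b)
  have hM := r.reM
  rw [A.re] at hM
  have hpar : (wXM b h = 86 / 100 ∨ wXM b h = 80 / 100) ∧ wcr b h = 20 / 100 := by
    rw [A.XM_eq b, A.cr_eq b, hc, hj]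
    unfold hpp
    split_ifs <;> simp only [hp] <;> split_ifs <;> norm_num
  obtain ⟨p1, p2⟩ := hpar
  have hX86 : wXM b h = 86 / 100 := by
    rcases p1 with p1 | p1
    · exact p1
    · rw [p1] at hM
      linarith only [h0, hM]
  have h1 : wXM b h - wcr b h ≤ y (.inl (.inl h)) := by
    rw [hX86, p2]
    linarith only [h0, g2, p2]
  have t11 := (abs_le.1 (hX.t11 hb A hc hj)).1
  rw [r.im, A.re, tr_c g1 g2 g3 h1 hM, hX86, p2]
  rw [hX86] at hM
  have h2 : 0 ≤ (86 / 100 - y (.inl (.inl h))) / (20 / 100) := by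
    apply div_nonneg <;> linarith only [hM, g2, p2]
  have h3 : (86 / 100 - y (.inl (.inl h))) / (20 / 100) ≤ 5 / 100 := by
    rw [div_le_iff₀ (by norm_num)]
    linarith only [h0]
  nlinarith only [h0, hM, t11]

/-- **A digit `1` in the round `L0`.** -/
theorem Adj.one_L0 (A : Adj h i p j) (A' : Adj h' i p.rev j') (hb : ClassW b) (hX : LocX b zs)
    (hy : Mx b zs y) (hpos : ∀ h : Fin M, 0 < y (.inl (.inl h))) (hc : clsW b i = .one)
    (hx : y (.inl (.inl h)) < F0 p (clsW b i) (clsW b j))
    (ho : y (.inl (.inl h)) / F0 p (clsW b i) (clsW b j) ≤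
      y (.inl (.inl h')) / F0 p.rev (clsW b i) (clsW b j')) :
    (eO 0 (k7 p (clsW b j)) : ℝ) / 1000 ≤ Sw b zs y i p ((zs (.inl (.inl h))).im / wcl b h) +
      shO 0 (k7 p (clsW b j)) (y (.inl (.inl h))) *
        ofs (b i) ((zs (.inl (.inl h))).im / wcl b h) := by
  have e1 := F0_one p (clsW b j)
  have hcl : (flz 0 (k7 p (clsW b j)) : ℝ) / 1000 ≤ wcl b h := by
    have := F0_wcl (b := b) h
    rwa [← A.tab F0_sym b, hc, e1] at this
  rw [hc] at hx ho
  have x0 : (xlz 0 (k7 p (clsW b j)) : ℝ) / 1000 ≤ y (.inl (.inl h)) := by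
    have := (hpos h).le
    simpa [xlz] using this
  have x1 : y (.inl (.inl h)) ≤ (flz 0 (k7 p (clsW b j)) : ℝ) / 1000 := by rw [← e1]; exact hx.le
  have y0 : (ylz 0 (clsW b j') : ℝ) / 1000 ≤ y (.inl (.inl h')) := by
    have := (hpos h').le
    simpa [ylz] using this
  have y1 : y (.inl (.inl h')) ≤ (cpz 0 (k7 p (clsW b j)) (clsW b j') : ℝ) / 1000 := by
    have := (A'.rh hy).reM
    rw [A'.re] at this
    exact this.trans (A.XM_one A' hc)
  have hr : (raz 0 (clsW b j') : ℝ) / (flz 0 (k7 p (clsW b j)) : ℝ) * y (.inl (.inl h)) ≤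
      y (.inl (.inl h')) := ratio_of e1 (flz_pos _ _) (raz_one0 _ _) (F0_pos _ _ _) (hpos h) ho
  by_cases hB : k7 p (clsW b j) = .threeB
  · have H := A.one_H A' hb hX hy hc x0 x1 y0 y1 hr
    have hok := A.one_ok A' hb hc
    have hs : y (.inl (.inl h)) + y (.inl (.inl h')) < 1 := by
      have h1 : (flz 0 (k7 p (clsW b j)) : ℝ) + (cpz 0 (k7 p (clsW b j)) (clsW b j') : ℝ) < 1000 := by
        exact_mod_cast sum_lt (by norm_num) _ _
      linarith only [hx, e1, y1, h1]
    have hcl' := A.cl_one hc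
    have hs1 := A.one_sd A' hb hy hc (x1.trans hcl) (hpos h) (hpos h') hs
      (shO 0 (k7 p (clsW b j)) (y (.inl (.inl h))))
    rw [hs1, hcl']
    rw [hB] at H hok ⊢
    refine (one_real0B hok H ?_ (hpos h) (hpos h') hs).le
    intro h85
    push_cast at h85 ⊢
    by_cases hj' : clsW b j' = .one
    · have := A'.im_top hX hb hy hc hj' (by linarith only [h85])
      linarith only [this]
    · exfalso
      rw [hB] at y1
      have : (cpz 0 .threeB (clsW b j') : ℝ) ≤ 800 := by
        generalize clsW b j' = C at *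
        cases C <;> first
          | exact absurd rfl hj'
          | (simp only [cpz]; norm_num)
      linarith only [y1, h85, this]
  · exact A.one_gen A' hb hX hy hpos hc (by norm_num) hcl
      (fun H h0 h0' hs => one_real0 (A.one_ok A' hb hc) hB H h0 h0' hs) x0 x1 y0 y1 hr

/-- **A digit `1` in the round `L1`.** -/
theorem Adj.one_L1 (A : Adj h i p j) (A' : Adj h' i p.rev j') (hb : ClassW b) (hX : LocX b zs)
    (hy : Mx b zs y) (hpos : ∀ h : Fin M, 0 < y (.inl (.inl h))) (hF : Flr b y F0)
    (hc : clsW b i = .one)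
    (hcap : y (.inl (.inl h')) ≤ (cpz 1 (k7 p (clsW b j)) (clsW b j') : ℝ) / 1000)
    (hx : y (.inl (.inl h)) < F1 p (clsW b i) (clsW b j))
    (ho : y (.inl (.inl h)) / F1 p (clsW b i) (clsW b j) ≤
      y (.inl (.inl h')) / F1 p.rev (clsW b i) (clsW b j')) :
    (eO 1 (k7 p (clsW b j)) : ℝ) / 1000 ≤ Sw b zs y i p ((zs (.inl (.inl h))).im / wcl b h) +
      shO 1 (k7 p (clsW b j)) (y (.inl (.inl h))) *
        ofs (b i) ((zs (.inl (.inl h))).im / wcl b h) := by
  have e1 := F1_one A.slot (clsW b j)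
  have hcl : (flz 1 (k7 p (clsW b j)) : ℝ) / 1000 ≤ wcl b h := by
    have := F1_wcl (b := b) h
    rwa [← A.tab F1_sym b, hc, e1] at this
  have f1 := hF A
  have f2 := hF A'
  rw [hc] at hx ho f1 f2
  refine A.one_gen A' hb hX hy hpos hc (by norm_num) hcl
    (fun H h0 h0' hs => one_real1 (A.one_ok A' hb hc) H h0 h0' hs) ?_ (by rw [← e1]; exact hx.le) ?_
    hcap ?_
  · rw [F0_one] at f1
    exact f1
  · exact (ylz_one1 _ _).trans f2
  · exact ratio_of e1 (flz_pos _ _) (raz_one1 _ _) (F1_pos _ _ _) (hpos h) ho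

/-- **A digit `1` in the round `L2`.** -/
theorem Adj.one_L2 (A : Adj h i p j) (A' : Adj h' i p.rev j') (hb : ClassW b) (hX : LocX b zs)
    (hy : Mx b zs y) (hpos : ∀ h : Fin M, 0 < y (.inl (.inl h))) (hF : Flr b y F1)
    (hc : clsW b i = .one)
    (hcap : y (.inl (.inl h')) ≤ (cpz 2 (k7 p (clsW b j)) (clsW b j') : ℝ) / 1000)
    (hx : y (.inl (.inl h)) < F2 p (clsW b i) (clsW b j))
    (ho : y (.inl (.inl h)) / F2 p (clsW b i) (clsW b j) ≤
      y (.inl (.inl h')) / F2 p.rev (clsW b i) (clsW b j')) :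
    (eO 2 (k7 p (clsW b j)) : ℝ) / 1000 ≤ Sw b zs y i p ((zs (.inl (.inl h))).im / wcl b h) +
      shO 2 (k7 p (clsW b j)) (y (.inl (.inl h))) *
        ofs (b i) ((zs (.inl (.inl h))).im / wcl b h) := by
  have e1 := F2_one A.slot (clsW b j)
  have hcl : (flz 2 (k7 p (clsW b j)) : ℝ) / 1000 ≤ wcl b h := by
    have := F2_wcl (b := b) h
    rwa [← A.tab F2_sym b, hc, e1] at this
  have f1 := hF A
  have f2 := hF A'
  rw [hc] at hx ho f1 f2
  have hB : k7 p (clsW b j) ≠ .threeA := by
    intro hK
    have h1 : F2 p .one (clsW b j) = F1 p .one (clsW b j) := by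
      rw [F2_one A.slot, F1_one A.slot, hK]
      simp [flz]
    rw [h1] at hx
    linarith only [hx, f1]
  refine A.one_gen A' hb hX hy hpos hc (by norm_num) hcl
    (fun H h0 h0' hs => one_real2 (A.one_ok A' hb hc) hB H h0 h0' hs) ?_ (by rw [← e1]; exact hx.le) ?_
    hcap ?_
  · rw [F1_one A.slot] at f1
    exact f1
  · exact (ylz_one2 _ _).trans f2
  · exact ratio_of e1 (flz_pos _ _) (raz_one2 _ _) (F2_pos _ _ _) (hpos h) ho

/-- **A hinge `1 | 1` with nonnegative height in the round `L2`.** -/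
theorem Adj.one_L2p (A : Adj h i p j) (A' : Adj h' i p.rev j') (hb : ClassW b) (hX : LocX b zs)
    (hy : Mx b zs y) (hpos : ∀ h : Fin M, 0 < y (.inl (.inl h))) (hF : Flr b y F1)
    (hc : clsW b i = .one) (hj : clsW b j = .one)
    (hT : 0 ≤ ofs (b i) (zs (.inl (.inl h))).im)
    (hcap : y (.inl (.inl h')) ≤ (cpz 2 .one (clsW b j') : ℝ) / 1000)
    (hx : y (.inl (.inl h)) < F2 p (clsW b i) (clsW b j))
    (ho : y (.inl (.inl h)) / F2 p (clsW b i) (clsW b j) ≤
      y (.inl (.inl h')) / F2 p.rev (clsW b i) (clsW b j')) :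
    (8 : ℝ) / 100 ≤ Sw b zs y i p ((zs (.inl (.inl h))).im / wcl b h) +
      shO 2 .one (y (.inl (.inl h))) * ofs (b i) ((zs (.inl (.inl h))).im / wcl b h) := by
  obtain ⟨w1, w2, w3, w4⟩ := A.ran A' hb hX hc
  have e1 := F2_one A.slot (clsW b j)
  have hk : k7 p (clsW b j) = .one := by rw [hj]; rfl
  have hcl : wcl b h = ((150 : ℤ) : ℝ) / 1000 := by
    rw [A.cl_one hc, hk]
    rfl
  have f1 := hF A
  have f2 := hF A'
  rw [hc] at hx ho f1 f2
  have r := ratio_of e1 (flz_pos _ _) (raz_one2 p.rev (clsW b j')) (F2_pos _ _ _) (hpos h) ho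
  rw [e1] at hx
  rw [F1_one A.slot] at f1
  rw [hk] at hx f1 r
  simp only [flz] at hx f1 r
  push_cast at hx f1 r
  rw [hj] at w1 w2 w3 w4
  have hs : y (.inl (.inl h)) + y (.inl (.inl h')) < 1 := by
    have h1 : cpz 2 .one (clsW b j') ≤ (650 : ℤ) := by
      generalize clsW b j' = C
      cases C <;> decide
    have h2 : (cpz 2 .one (clsW b j') : ℝ) ≤ 650 := by exact_mod_cast h1
    linarith only [hcap, hx, f1, h2]
  have H : (dP (clsW b j')).H (ofs (b i) (zs (.inl (.inl h))).im)
      (y (.inl (.inl h))) (y (.inl (.inl h'))) (Yw b zs y i p.rev).im := by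
    refine ⟨?_, ?_, ?_, w2, ?_, ?_, (ylz_one2 _ _).trans f2, hcap, ?_⟩
    · simp only [dP]; push_cast; linarith only [f1]
    · simp only [dP]; push_cast; linarith only [hx]
    · simp only [dP]; push_cast; linarith only [hT]
    · simp only [dP]
      refine A'.im_low hy ?_ w4
      have : (ka .one (clsW b j') : ℝ) ≤ 0 := by exact_mod_cast ka_nonpos _ _
      linarith only [this]
    · simp only [dP]
      have h1 : ((tz (clsW b j') .one).2.2 : ℝ) * 10 ≤ ((tz (clsW b j') .one).1 : ℝ) := by
        exact_mod_cast tz_s' _ _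
      exact A'.im_low hy (by linarith only [w1, h1]) (by linarith only [w3])
    · simp only [dP]
      push_cast
      linarith only [r]
  have := one_real5 H (hpos h) (hpos h') hs
  rw [← hcl] at this
  rw [A.one_sd A' hb hy hc (by rw [hcl]; push_cast; linarith only [hx]) (hpos h) (hpos h') hs]
  push_cast at this
  linarith only [this]

/-- **A digit `1` in the round `L3`** (next to a ring), after the rows on the flat parts. -/
theorem Adj.one_L3 (A : Adj h i p j) (A' : Adj h' i p.rev j') (hb : ClassW b) (hX : LocX b zs)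
    (hy : Mx b zs y) (hpos : ∀ h : Fin M, 0 < y (.inl (.inl h)))
    (hc : clsW b i = .one) (hj : clsW b j = .ring)
    (hx0 : 145 / 1000 ≤ y (.inl (.inl h))) (hx : y (.inl (.inl h)) ≤ 160 / 1000)
    (y0 : (ylz 3 (clsW b j') : ℝ) / 1000 ≤ y (.inl (.inl h')))
    (hcap : y (.inl (.inl h')) ≤ (cpz 2 .ring (clsW b j') : ℝ) / 1000) :
    (14 : ℝ) / 100 ≤ Sw b zs y i p ((zs (.inl (.inl h))).im / wcl b h) +
      (Real.pi - 6 * y (.inl (.inl h))) * ofs (b i) ((zs (.inl (.inl h))).im / wcl b h) := by
  have hk : k7 p (clsW b j) = .ring := by rw [hj]; rfl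
  have := A.one_gen A' hb hX hy hpos hc (n := 3) (by norm_num)
    (by rw [A.cl_one hc, hk]; simp [flz, clz])
    (fun H h0 h0' hs => one_real3 (A.one_ok A' hb hc) hk H h0 h0' hs)
    (by rw [hk]; simp only [xlz, flz]; push_cast; linarith only [hx0])
    (by rw [hk]; simp only [flz]; push_cast; linarith only [hx]) y0
    (by
      rw [hk]
      refine hcap.trans (le_of_eq ?_)
      cases clsW b j' <;> simp [cpz])
    (by simp only [raz]; simp; exact (hpos h').le)
  rw [hk] at this
  simp only [eO, shO, cR] at this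
  push_cast at this
  have e : (Real.pi - 6 * y (.inl (.inl h))) = (2 : ℝ) / 2 * Real.pi + 0 / 1000 -
    6000 / 1000 * y (.inl (.inl h)) := by ring
  rw [e]
  linarith only [this]

end SR

end Pool.Agent.Work.MP_b30479_gtS.G2

end
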