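import Pool.Agent.Work.MP_b30479_gt.TBS.G2.MLM
import Pool.Agent.Work.MP_b30479_gt.TBS.G2.H13A
import Pool.Agent.Work.MP_b30479_gt.TBS.G2.MLS
import Pool.Agent.Work.MP_b30479_gt.TBS.G2.DZ2

section

/-!
# The balance at the other hinge of the digit `1`
-/

namespace Pool.Agent.Work.MP_b30479_gtS.G2

open VOL NumIs

namespace DZ

theorem HH_zero_eq {a : ℝ} (b : ℝ) (h0 : 0 < a) (h1 : a < 1) : 2 * (lnA a b + Real.pi * b) =
    Real.log ((Real.exp (2 * Real.pi * b) - Real.cos (2 * Real.pi * a)) ^ 2 +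
      Real.sin (2 * Real.pi * a) ^ 2) := by
  have hp := Real.pi_pos
  have hs : 0 < Real.sin (Real.pi * a) := Real.sin_pos_of_pos_of_lt_pi (by positivity) (by nlinarith only [h1, hp])
  have hM : 0 < 4 * (Real.sin (Real.pi * a) ^ 2 + Real.sinh (Real.pi * b) ^ 2) := by positivity
  have e1 : 2 * (lnA a b + Real.pi * b) = Real.log (4 * (Real.sin (Real.pi * a) ^ 2 +
      Real.sinh (Real.pi * b) ^ 2)) + Real.log (Real.exp (2 * Real.pi * b)) := by
    rw [Real.log_exp]
    unfold lnA
    ring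
  rw [e1, ← Real.log_mul hM.ne' (Real.exp_pos _).ne']
  congr 1
  have e2 : Real.cos (2 * Real.pi * a) = 1 - 2 * Real.sin (Real.pi * a) ^ 2 := by
    rw [mul_assoc, Real.cos_two_mul]
    have := Real.sin_sq_add_cos_sq (Real.pi * a)
    linarith only [this]
  have e3 : Real.sin (2 * Real.pi * a) ^ 2 = 1 - Real.cos (2 * Real.pi * a) ^ 2 := by
    have := Real.sin_sq_add_cos_sq (2 * Real.pi * a)
    linarith only [this]
  have e4 : Real.exp (2 * Real.pi * b) = Real.exp (Real.pi * b) ^ 2 := by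
    rw [← Real.exp_nat_mul]
    congr 1
    push_cast
    ring
  have e5 : Real.sinh (Real.pi * b) = (Real.exp (Real.pi * b) - Real.exp (-(Real.pi * b))) / 2 :=
    Real.sinh_eq _
  have e6 : Real.exp (Real.pi * b) * Real.exp (-(Real.pi * b)) = 1 := by
    rw [← Real.exp_add, add_neg_cancel, Real.exp_zero]
  rw [e3, e4, e5, e2]
  generalize Real.exp (Real.pi * b) = X at *
  generalize Real.exp (-(Real.pi * b)) = Y at *
  generalize Real.sin (Real.pi * a) = S at *
  linear_combination (-2 * X ^ 2 + X * Y + 1) * e6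

theorem HH_zero_ge {a d : ℝ} (b : ℝ) (h0 : 0 < a) (hd : 0 < d) (h1 : a ≤ 1 - d)
    (h2 : 1 / 4 ≤ a ∨ d ≤ a) : Real.log (Real.sin (Real.pi * (2 * d))) ≤ lnA a b + Real.pi * b := by
  have hp := Real.pi_pos
  have key : 2 * Real.log (Real.sin (Real.pi * (2 * d))) ≤ 2 * (lnA a b + Real.pi * b) := by
    rw [HH_zero_eq b h0 (by linarith only [hd, h1])]
    by_cases hc : 1 / 4 ≤ a ∧ a ≤ 3 / 4
    · have hcos : Real.cos (2 * Real.pi * a) ≤ 0 := by
        apply Real.cos_nonpos_of_pi_div_two_le_of_le <;> nlinarith only [h0, hd, h1, hp, hc, hc.1, hc.2]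
      have h3 : 1 ≤ (Real.exp (2 * Real.pi * b) - Real.cos (2 * Real.pi * a)) ^ 2 +
          Real.sin (2 * Real.pi * a) ^ 2 := by
        have e1 := Real.sin_sq_add_cos_sq (2 * Real.pi * a)
        have e2 := Real.exp_pos (2 * Real.pi * b)
        nlinarith only [e1, hcos, e2]
      have h4 := Real.log_nonneg h3
      have h5 : Real.log (Real.sin (Real.pi * (2 * d))) ≤ 0 := by
        rcases le_or_gt (Real.sin (Real.pi * (2 * d))) 0 with h | h
        · have h6 : -Real.sin (Real.pi * (2 * d)) ≤ 1 := by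
            linarith only [Real.neg_one_le_sin (Real.pi * (2 * d))]
          rw [← Real.log_neg_eq_log]
          exact Real.log_nonpos (by linarith only [h]) h6
        · exact Real.log_nonpos h.le (Real.sin_le_one _)
      linarith only [h4, h5]
    · have h3 : 0 < Real.sin (Real.pi * (2 * d)) ∧
          Real.sin (Real.pi * (2 * d)) ^ 2 ≤ Real.sin (2 * Real.pi * a) ^ 2 := by
        rcases le_or_gt (1 / 4) a with h4 | h4
        · have h5 : 3 / 4 < a := by
            by_contra h6
            exact hc ⟨h4, by linarith only [h6]⟩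
          have e : Real.sin (2 * Real.pi * a) = -Real.sin (Real.pi * (2 * (1 - a))) := by
            rw [show Real.pi * (2 * (1 - a)) = 2 * Real.pi - 2 * Real.pi * a by ring,
              Real.sin_two_pi_sub, neg_neg]
          have h6 : 0 < Real.sin (Real.pi * (2 * d)) :=
            Real.sin_pos_of_pos_of_lt_pi (by positivity) (by nlinarith only [hd, hp, h1, h5])
          have h7 : Real.sin (Real.pi * (2 * d)) ≤ Real.sin (Real.pi * (2 * (1 - a))) :=
            Real.sin_le_sin_of_le_of_le_pi_div_two (by nlinarith only [hp, hd]) (by nlinarith only [hp, h5]) (by nlinarith only [h1, hp])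
          refine ⟨h6, ?_⟩
          rw [e, neg_sq]
          exact pow_le_pow_left₀ h6.le h7 2
        · have h5 : d ≤ a := by
            rcases h2 with h2 | h2
            · exact absurd h2 (by linarith only [h4, h2])
            · exact h2
          have h6 : 0 < Real.sin (Real.pi * (2 * d)) :=
            Real.sin_pos_of_pos_of_lt_pi (by positivity) (by nlinarith only [h0, hp, h4, h5])
          have h7 : Real.sin (Real.pi * (2 * d)) ≤ Real.sin (2 * Real.pi * a) :=
            Real.sin_le_sin_of_le_of_le_pi_div_two (by nlinarith only [hp, hd]) (by nlinarith only [h0, hd, h1, hp, h4]) (by nlinarith only [hp, h5])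
          exact ⟨h6, pow_le_pow_left₀ h6.le h7 2⟩
      have h4 : 2 * Real.log (Real.sin (Real.pi * (2 * d))) =
          Real.log (Real.sin (Real.pi * (2 * d)) ^ 2) := by
        rw [Real.log_pow]
        push_cast
        ring
      rw [h4]
      exact Real.log_le_log (by have := h3.1; positivity) (by nlinarith only [h3, h3.2])
  linarith only [key]

theorem abs_lnB_le {a : ℝ} (b : ℝ) (h0 : 0 < a) (h1 : a < 1) :
    |lnB a b| ≤ |Real.pi / 2 - Real.pi * a| := by
  have hp := Real.pi_pos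
  have key : ∀ {a : ℝ}, 0 < a → a ≤ 1 / 2 → |lnB a b| ≤ Real.pi / 2 - Real.pi * a := by
    intro a h0 h1
    have hs : 0 < Real.sin (Real.pi * a) :=
      Real.sin_pos_of_pos_of_lt_pi (by positivity) (by nlinarith)
    have hc : 0 ≤ Real.cos (Real.pi * a) := Real.cos_nonneg_of_mem_Icc ⟨by nlinarith, by nlinarith⟩
    have hch : 0 < Real.cosh (Real.pi * b) := Real.cosh_pos _
    have e1 : Real.tan (Real.pi / 2 - Real.pi * a) = Real.cos (Real.pi * a) / Real.sin (Real.pi * a) := by
      rw [Real.tan_eq_sin_div_cos, Real.sin_pi_div_two_sub, Real.cos_pi_div_two_sub]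
    have e2 : Real.pi / 2 - Real.pi * a = Real.arctan (Real.cos (Real.pi * a) / Real.sin (Real.pi * a)) := by
      rw [← e1, Real.arctan_tan] <;> nlinarith
    have h3 : |Real.cos (Real.pi * a) * Real.sinh (Real.pi * b) /
        (Real.sin (Real.pi * a) * Real.cosh (Real.pi * b))| ≤
        Real.cos (Real.pi * a) / Real.sin (Real.pi * a) := by
      rw [abs_div, abs_mul, abs_mul, abs_of_nonneg hc, abs_of_pos hs, abs_of_pos hch,
        div_le_div_iff₀ (by positivity) hs]
      have h4 : |Real.sinh (Real.pi * b)| ≤ Real.cosh (Real.pi * b) := by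
        rw [abs_le]
        have h5 := Real.cosh_sq (Real.pi * b)
        constructor <;> nlinarith
      have := mul_le_mul_of_nonneg_left h4 (mul_nonneg hc hs.le)
      nlinarith only [this]
    unfold lnB
    rw [e2]
    rw [abs_le] at h3 ⊢
    refine ⟨?_, Real.arctan_mono h3.2⟩
    rw [← Real.arctan_neg]
    exact Real.arctan_mono h3.1
  rcases le_or_gt a (1 / 2) with h | h
  · exact (key h0 h).trans (le_abs_self _)
  · have h3 := key (a := 1 - a) (by linarith only [h1]) (by linarith only [h])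
    rw [lnB_one_sub, abs_neg] at h3
    refine h3.trans ?_
    rw [abs_sub_comm]
    refine le_trans (le_of_eq ?_) (le_abs_self _)
    ring

/-- bounds of the phase -/
theorem phase_le {a : ℝ} (b : ℝ) (h0 : 0 < a) (h1 : a < 1) {c : ℝ} (h2 : 1 / 2 ≤ c) (h3 : a ≤ c) :
    Real.pi * a - lnB a b ≤ Real.pi * (2 * c - 1 / 2) := by
  have hp := Real.pi_pos
  have h4 := abs_le.1 (abs_lnB_le b h0 h1)
  rcases le_total (Real.pi / 2) (Real.pi * a) with h5 | h5
  · rw [abs_of_nonpos (by linarith only [h5])] at h4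
    nlinarith only [h4, h0, h1, h3, hp]
  · rw [abs_of_nonneg (by linarith only [h5])] at h4
    nlinarith only [h4, h0, h1, h2, hp]

theorem phase_ge {a : ℝ} (b : ℝ) (h0 : 0 < a) (h1 : a < 1) {c : ℝ} (h2 : c ≤ 1 / 2) (h3 : c ≤ a) :
    Real.pi * (2 * c - 1 / 2) ≤ Real.pi * a - lnB a b := by
  have hp := Real.pi_pos
  have h4 := abs_le.1 (abs_lnB_le b h0 h1)
  rcases le_total (Real.pi / 2) (Real.pi * a) with h5 | h5
  · rw [abs_of_nonpos (by linarith only [h5])] at h4
    nlinarith only [h4, h0, h1, h2, hp]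
  · rw [abs_of_nonneg (by linarith only [h5])] at h4
    nlinarith only [h4, h0, h1, h3, hp]

theorem lnA_neg (x t : ℝ) : lnA x (-t) = lnA x t := Num.A_neg x t

theorem dL_one {x T z K a b μ H κ : ℝ} (hH : H + μ * κ ≤ lnA (z + a) (b - K) + Real.pi * (b - K) -
    μ * (Real.pi * (z + a) - lnB (z + a) (b - K))) :
    dL 1 κ μ x T z K H ≤ MR.s1 μ z K x (dy x T) + MR.s1 (-μ) z (-K) a b := by
  unfold dL MR.s1
  rw [add_comm z x, add_comm K (dy x T), show -K + b = b - K by ring, lnA_neg, lnB_neg]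
  push_cast
  linarith only [hH]

theorem dL_two {x T z K a b μ H κ : ℝ} (hH : H + μ * κ ≤ lnA (z + a) (b - K) + Real.pi * (b - K) -
    μ * (Real.pi * (z + a) - lnB (z + a) (b - K))) :
    dL 2 (-(Real.pi * (1 / 2)) + κ) μ x T z K H ≤
      MR.s1 μ z K x (dy x T) + MR.s2 (-μ) z (-K) a b := by
  unfold dL MR.s1 MR.s2
  rw [add_comm z x, add_comm K (dy x T), show -K + b = b - K by ring, lnA_neg, lnB_neg]
  push_cast
  linarith only [hH]

theorem dL_twe {x T z K μ : ℝ} : dL 1 (-(Real.pi * (1 / 2))) μ x T z K 0 =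
    MR.s1 μ z K x (dy x T) + MR.s2e (-μ) z (-K) := by
  unfold dL MR.s1 MR.s2e
  rw [add_comm z x, add_comm K (dy x T), lnA_neg, lnB_neg]
  push_cast
  ring

theorem dL_mu_zero (κ κ' : ℝ) {n : ℕ} {x T z K H : ℝ} :
    dL n κ 0 x T z K H = dL n κ' 0 x T z K H := by
  unfold dL
  ring

/-- the term `H`, horizontal part of the path of the other hinge -/
theorem H_flat {z a b K h : ℝ} (hz : 0 < z) (ha : 0 < a) (hh : z < h) (h1 : a ≤ 1 - h)
    (h2 : 1 / 4 ≤ z + a ∨ h - z ≤ z + a) :
    Real.log (Real.sin (Real.pi * (2 * (h - z)))) + 0 * 0 ≤ lnA (z + a) (b - K) +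
      Real.pi * (b - K) - 0 * (Real.pi * (z + a) - lnB (z + a) (b - K)) := by
  have := HH_zero_ge (a := z + a) (d := h - z) (b - K) (by linarith only [hz, ha]) (by linarith only [hh]) (by linarith only [h1]) h2
  linarith only [this]

/-- the left ramp, `μ ≤ 0` -/
theorem H_neg {z a b K h μ κ : ℝ} (hz : 0 < z) (ha : 0 < a) (hh : z < h) (h1 : a ≤ 1 - h)
    (h2 : 1 / 4 ≤ z + a ∨ h - z ≤ z + a) (hμ : μ ≤ 0) {c : ℝ} (hc : c ≤ 1 / 2) (hc' : c ≤ z + a)
    (hκ : -κ ≤ Real.pi * (2 * c - 1 / 2)) :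
    Real.log (Real.sin (Real.pi * (2 * (h - z)))) + μ * κ ≤ lnA (z + a) (b - K) +
      Real.pi * (b - K) - μ * (Real.pi * (z + a) - lnB (z + a) (b - K)) := by
  have h3 := HH_zero_ge (a := z + a) (d := h - z) (b - K) (by linarith only [hz, ha]) (by linarith only [hh]) (by linarith only [h1]) h2
  have h4 := phase_ge (a := z + a) (b - K) (by linarith only [hz, ha]) (by linarith only [hh, h1]) hc hc'
  have h5 : 0 ≤ (-μ) * (κ + (Real.pi * (z + a) - lnB (z + a) (b - K))) :=
    mul_nonneg (by linarith only [hμ]) (by linarith only [hκ, h4])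
  nlinarith only [h3, h5]

/-- the left ramp, `0 ≤ μ` -/
theorem H_pos {z a b K h μ κ : ℝ} (hz : 0 < z) (ha : 0 < a) (hh : z < h) (h1 : a ≤ 1 - h)
    (h2 : 1 / 4 ≤ z + a ∨ h - z ≤ z + a) (hμ : 0 ≤ μ) {c : ℝ} (hc : 1 / 2 ≤ c) (hc' : z + a ≤ c)
    (hκ : Real.pi * (2 * c - 1 / 2) ≤ -κ) :
    Real.log (Real.sin (Real.pi * (2 * (h - z)))) + μ * κ ≤ lnA (z + a) (b - K) +
      Real.pi * (b - K) - μ * (Real.pi * (z + a) - lnB (z + a) (b - K)) := by
  have h3 := HH_zero_ge (a := z + a) (d := h - z) (b - K) (by linarith only [hz, ha]) (by linarith only [hh]) (by linarith only [h1]) h2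
  have h4 := phase_le (a := z + a) (b - K) (by linarith only [hz, ha]) (by linarith only [hh, h1]) hc hc'
  have h5 : 0 ≤ μ * (-κ - (Real.pi * (z + a) - lnB (z + a) (b - K))) :=
    mul_nonneg hμ (by linarith only [hκ, h4])
  nlinarith only [h3, h5]

end DZ

end Pool.Agent.Work.MP_b30479_gtS.G2

end

section

/-!
# The right ramp of a hinge `1 | ring`
-/

namespace Pool.Agent.Work.MP_b30479_gtS.G2

open Finset VOL Filter Topology NumIs

namespace SR

variable {M : ℕ} {b : Fin (M + 1) → ℤ} {zs : DD (tyW b) ⊕ ZZ (tyW b) → ℂ}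
variable {y : DD (tyW b) ⊕ ZZ (tyW b) → ℝ}
variable {h h' : Fin M} {i j j' : Fin (M + 1)} {p : Fin 3}

theorem Adj.par_one_ring (A : Adj h i p j) (hc : clsW b i = .one) (hj : clsW b j = .ring) :
    wXM b h = 65 / 100 ∧ wcl b h = 16 / 100 ∧ wcr b h = 29 / 100 := by
  rw [A.XM_eq b, A.cl_eq b, A.cr_eq b, hc, hj]
  unfold hpp
  split_ifs <;> simp [hp, hp1]

/-- the side of the digit `1` at a hinge `1 | ring` on its right ramp -/
theorem Adj.digit_side (A : Adj h i p j) (A' : Adj h' i p.rev j') (hb : ClassW b) (hy : Mx b zs y)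
    (hpos : ∀ h : Fin M, 0 < y (.inl (.inl h))) (hc : clsW b i = .one) (hj : clsW b j = .ring)
    (hx : 36 / 100 < y (.inl (.inl h))) (hs : y (.inl (.inl h)) + y (.inl (.inl h')) < 1) :
    Sw b zs y i p (slL b zs y h) = DZ.dD (y (.inl (.inl h)))
      (ofs (b i) (zs (.inl (.inl h))).im) (y (.inl (.inl h'))) (Yw b zs y i p.rev).im := by
  obtain ⟨e1, e2, e3⟩ := A.par_one_ring hc hj
  have hx' : wXM b h - wcr b h < y (.inl (.inl h)) := by rw [e1, e3]; linarith only [hx]
  have hrh := A.rh hy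
  rw [e1, e2, e3] at hrh
  have h0 := hpos h
  have h0' := hpos h'
  have hw : Yw b zs y i p ∈ strip := ⟨by rw [A.re]; exact h0, by rw [A.re]; linarith only [hs, h0']⟩
  have hu : Yw b zs y i p + Yw b zs y i p.rev ∈ strip :=
    ⟨by rw [Complex.add_re, A.re, A'.re]; linarith only [hx, hs, h0'], by rw [Complex.add_re, A.re, A'.re]; linarith only [hs]⟩
  have him := MR.RH_right hrh (by norm_num) (by norm_num) (by norm_num)
    (by rw [A.re]; linarith only [hx])
  rw [A.side_one hb hc, ofs_slL_ramp _ hx', e3, MR.S1_eq _ hw hu, him, A.re, A'.re]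
  unfold DZ.dD DZ.dy DZ.dn
  congr 1
  · ring
  · ring

/-- the side of the digit `1` at its other hinge -/
theorem Adj.digit_side' (A : Adj h i p j) (A' : Adj h' i p.rev j') (hb : ClassW b) (hy : Mx b zs y)
    (hpos : ∀ h : Fin M, 0 < y (.inl (.inl h))) (hc : clsW b i = .one) (hj : clsW b j = .ring)
    (hx : 36 / 100 < y (.inl (.inl h))) (hs : y (.inl (.inl h)) + y (.inl (.inl h')) < 1) (m : ℝ) :
    Sw b zs y i p.rev m = MR.s1 (ofs (b i) m) (y (.inl (.inl h'))) (Yw b zs y i p.rev).im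
      (y (.inl (.inl h))) (DZ.dy (y (.inl (.inl h))) (ofs (b i) (zs (.inl (.inl h))).im)) := by
  obtain ⟨e1, e2, e3⟩ := A.par_one_ring hc hj
  have hrh := A.rh hy
  rw [e1, e2, e3] at hrh
  have h0 := hpos h
  have h0' := hpos h'
  have hw : Yw b zs y i p.rev ∈ strip := ⟨by rw [A'.re]; exact h0', by rw [A'.re]; linarith only [hx, hs, h0']⟩
  have hu : Yw b zs y i p.rev + Yw b zs y i p ∈ strip :=
    ⟨by rw [Complex.add_re, A.re, A'.re]; linarith only [hx, hs, h0'], by rw [Complex.add_re, A.re, A'.re]; linarith only [hs]⟩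
  have him := MR.RH_right hrh (by norm_num) (by norm_num) (by norm_num)
    (by rw [A.re]; linarith only [hx])
  have hpp : p.rev.rev = p := Fin.rev_rev p
  rw [A'.side_one hb hc, hpp, MR.S1_eq _ hw hu, him, A.re, A'.re]
  unfold DZ.dy DZ.dn
  congr 1
  ring

theorem Adj.par_one_one (A : Adj h i p j) (hc : clsW b i = .one) (hj : clsW b j = .one) :
    80 / 100 ≤ wXM b h ∧ wcl b h = 15 / 100 ∧ wcr b h = 20 / 100 := by
  rw [A.XM_eq b, A.cl_eq b, A.cr_eq b, hc, hj]
  unfold hpp hp
  split_ifs <;> norm_num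

theorem Adj.par_one_two (A : Adj h i p j) (hc : clsW b i = .one) (hj : clsW b j = .two) :
    wXM b h = 80 / 100 ∧ wcl b h = 16 / 100 ∧ wcr b h = 29 / 100 := by
  rw [A.XM_eq b, A.cl_eq b, A.cr_eq b, hc, hj]
  unfold hpp hp hp1
  split_ifs <;> norm_num

theorem Adj.par_one_twoE (A : Adj h i p j) (hc : clsW b i = .one) (hj : clsW b j = .twoE) :
    wXM b h = 70 / 100 ∧ wcl b h = 14 / 100 ∧ wcr b h = 35 / 100 := by
  rw [A.XM_eq b, A.cl_eq b, A.cr_eq b, hc, hj]
  unfold hpp hp hp1
  split_ifs <;> norm_num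

/-- height and right slope at a hinge on the flat part of its path -/
theorem Adj.flat_data (A : Adj h i p j) (hy : Mx b zs y) (hcl : 0 < wcl b h) (hcr : 0 < wcr b h)
    (h1 : wcl b h ≤ y (.inl (.inl h))) (h2 : y (.inl (.inl h)) < wXM b h - wcr b h) :
    (Yw b zs y i p).im = ofs (b i) (zs (.inl (.inl h))).im ∧ ofs (b i) (slR b zs y h) = 0 := by
  constructor
  · exact MR.RH_flat (A.rh hy) hcl hcr (by rw [A.re]; exact h1) (by rw [A.re]; exact h2.le)
  · rw [slR_flat h1 h2, ofs_zero]

/-- height and right slope at a hinge on the left ramp -/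
theorem Adj.ramp_data (A : Adj h i p j) (hy : Mx b zs y) (hcl : 0 < wcl b h) (hcr : 0 < wcr b h)
    (hB : wcl b h + wcr b h < wXM b h) (h1 : y (.inl (.inl h)) < wcl b h) :
    (Yw b zs y i p).im = ofs (b i) (zs (.inl (.inl h))).im * (y (.inl (.inl h)) / wcl b h) ∧
      ofs (b i) (slR b zs y h) = ofs (b i) (zs (.inl (.inl h))).im / wcl b h := by
  constructor
  · have := MR.RH_left (A.rh hy) hcl hcr hB (by rw [A.re]; exact h1.le)
    rw [this, A.re]
  · rw [slR_ramp h1, ofs_div]

/-- the balance at the other hinge of the digit `1`, next to a digit `1` -/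
theorem Adj.bal_one (A : Adj h i p j) (A' : Adj h' i p.rev j') (hb : ClassW b) (hy : Mx b zs y)
    (hpos : ∀ h : Fin M, 0 < y (.inl (.inl h)))
    (hF : ∀ {h : Fin M} {i j : Fin (M + 1)} {p : Fin 3}, Adj h i p j → clsW b i = .one →
      11 / 100 ≤ y (.inl (.inl h)))
    (h70 : ∀ {h : Fin M} {i j : Fin (M + 1)} {p : Fin 3}, Adj h i p j → clsW b i = .one →
      y (.inl (.inl h)) ≤ 70 / 100)
    (hc : clsW b i = .one) (hj : clsW b j = .ring) (hP : clsW b j' = .one)
    (hx : 36 / 100 < y (.inl (.inl h))) (hs : y (.inl (.inl h)) + y (.inl (.inl h')) < 1)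
    (hz : y (.inl (.inl h')) < 3 / 10) : ∃ a β : ℝ, 11 / 100 ≤ a ∧ a ≤ 70 / 100 ∧
      MR.s1 (ofs (b i) (slR b zs y h')) (y (.inl (.inl h'))) (Yw b zs y i p.rev).im
        (y (.inl (.inl h))) (DZ.dy (y (.inl (.inl h))) (ofs (b i) (zs (.inl (.inl h))).im)) +
      MR.s1 (-ofs (b i) (slR b zs y h')) (y (.inl (.inl h'))) (-(Yw b zs y i p.rev).im) a β ≤ 0 := by
  have hop := A'.opp hb (Or.inl (by rw [hc]; decide))
  obtain ⟨h'', j'', A''⟩ := A'.symm.other' b (clsW_inner hb (Or.inl hP))
  have e1 := (A'.par_one_one hc hP).1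
  have h0' := hpos h'
  have u0 := hF A'' hP
  have u1 := h70 A'' hP
  have hfoc := A'.foc' hy h0' (by linarith only [hz, e1, h0'])
  refine ⟨y (.inl (.inl h'')), (Yw b zs y j' p.rev.rev.rev).im, u0, u1, ?_⟩
  have hw : Yw b zs y j' p.rev.rev ∈ strip :=
    ⟨by rw [A'.symm.re]; exact h0', by rw [A'.symm.re]; linarith only [hz, h0']⟩
  have hu : Yw b zs y j' p.rev.rev + Yw b zs y j' p.rev.rev.rev ∈ strip :=
    ⟨by rw [Complex.add_re, A'.symm.re, A''.re]; linarith only [hz, h0', u0],
      by rw [Complex.add_re, A'.symm.re, A''.re]; linarith only [hz, u1]⟩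
  rw [A.digit_side' A' hb hy hpos hc hj hx hs, A'.symm.side_one hb hP, MR.S1_eq _ hw hu,
    A'.symm.re, A''.re, ofs_opp hop, A'.conj hop, Complex.conj_im] at hfoc
  exact hfoc

/-- next to an interior digit `2` -/
theorem Adj.bal_two (A : Adj h i p j) (A' : Adj h' i p.rev j') (hb : ClassW b) (hy : Mx b zs y)
    (hpos : ∀ h : Fin M, 0 < y (.inl (.inl h)))
    (hF : ∀ {h : Fin M} {i j : Fin (M + 1)} {p : Fin 3}, Adj h i p j → clsW b i = .two →
      10 / 100 ≤ y (.inl (.inl h)))
    (h56 : ∀ {h : Fin M} {i j : Fin (M + 1)} {p : Fin 3}, Adj h i p j → clsW b i = .two →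
      y (.inl (.inl h)) ≤ 56 / 100)
    (hc : clsW b i = .one) (hj : clsW b j = .ring) (hP : clsW b j' = .two)
    (hx : 36 / 100 < y (.inl (.inl h))) (hs : y (.inl (.inl h)) + y (.inl (.inl h')) < 1)
    (hz : y (.inl (.inl h')) < 44 / 100) : ∃ a β : ℝ, 10 / 100 ≤ a ∧ a ≤ 56 / 100 ∧
      MR.s1 (ofs (b i) (slR b zs y h')) (y (.inl (.inl h'))) (Yw b zs y i p.rev).im
        (y (.inl (.inl h))) (DZ.dy (y (.inl (.inl h))) (ofs (b i) (zs (.inl (.inl h))).im)) +
      MR.s2 (-ofs (b i) (slR b zs y h')) (y (.inl (.inl h'))) (-(Yw b zs y i p.rev).im) a β ≤ 0 := by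
  have hop := A'.opp hb (Or.inl (by rw [hc]; decide))
  obtain ⟨h'', j'', A''⟩ := A'.symm.other' b (clsW_inner hb (Or.inr (Or.inl hP)))
  have e1 := (A'.par_one_two hc hP).1
  have h0' := hpos h'
  have u0 := hF A'' hP
  have u1 := h56 A'' hP
  have hfoc := A'.foc' hy h0' (by linarith only [hx, hs, e1, h0'])
  refine ⟨y (.inl (.inl h'')), (Yw b zs y j' p.rev.rev.rev).im, u0, u1, ?_⟩
  have hw : Yw b zs y j' p.rev.rev ∈ strip :=
    ⟨by rw [A'.symm.re]; exact h0', by rw [A'.symm.re]; linarith only [hx, hs, h0']⟩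
  have hu : Yw b zs y j' p.rev.rev + Yw b zs y j' p.rev.rev.rev ∈ strip :=
    ⟨by rw [Complex.add_re, A'.symm.re, A''.re]; linarith only [hx, hs, h0', u0],
      by rw [Complex.add_re, A'.symm.re, A''.re]; linarith only [hz, u1]⟩
  rw [A.digit_side' A' hb hy hpos hc hj hx hs, A'.symm.side_two hb (Or.inl hP), MR.S2_eq _ hw hu,
    A'.symm.re, A''.re, ofs_opp hop, A'.conj hop, Complex.conj_im] at hfoc
  exact hfoc

/-- next to a digit `2` at the end -/
theorem Adj.bal_twoE (A : Adj h i p j) (A' : Adj h' i p.rev j') (hb : ClassW b) (hy : Mx b zs y)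
    (hpos : ∀ h : Fin M, 0 < y (.inl (.inl h)))
    (hc : clsW b i = .one) (hj : clsW b j = .ring) (hP : clsW b j' = .twoE)
    (hx : 36 / 100 < y (.inl (.inl h))) (hs : y (.inl (.inl h)) + y (.inl (.inl h')) < 1)
    (hz : y (.inl (.inl h')) < 3 / 10) :
      MR.s1 (ofs (b i) (slR b zs y h')) (y (.inl (.inl h'))) (Yw b zs y i p.rev).im
        (y (.inl (.inl h))) (DZ.dy (y (.inl (.inl h))) (ofs (b i) (zs (.inl (.inl h))).im)) +
      MR.s2e (-ofs (b i) (slR b zs y h')) (y (.inl (.inl h'))) (-(Yw b zs y i p.rev).im) ≤ 0 := by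
  have hop := A'.opp hb (Or.inl (by rw [hc]; decide))
  have e1 := (A'.par_one_twoE hc hP).1
  have h0' := hpos h'
  have hfoc := A'.foc' hy h0' (by linarith only [hz, e1, h0'])
  have hw : Yw b zs y j' p.rev.rev ∈ strip :=
    ⟨by rw [A'.symm.re]; exact h0', by rw [A'.symm.re]; linarith only [hz, h0']⟩
  have hv : Yw b zs y j' p.rev.rev.rev = 0 := by
    rcases A'.symm.other b zs y with h5 | h5
    · exact h5.2
    · rw [clsW_end (Or.inl hP)] at h5
      exact absurd h5.1 (by decide)
  rw [A.digit_side' A' hb hy hpos hc hj hx hs, A'.symm.side_two hb (Or.inr hP), hv,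
    MR.S2_zero_eq _ hw, A'.symm.re, ofs_opp hop, A'.conj hop, Complex.conj_im] at hfoc
  exact hfoc

/-- the side of the digit `1`, the other neighbour is a digit `1` -/
theorem Adj.res_one (A : Adj h i p j) (A' : Adj h' i p.rev j') (hb : ClassW b) (hX : LocX b zs)
    (hy : Mx b zs y) (hpos : ∀ h : Fin M, 0 < y (.inl (.inl h)))
    (hF : ∀ {h : Fin M} {i j : Fin (M + 1)} {p : Fin 3}, Adj h i p j → clsW b i = .one →
      11 / 100 ≤ y (.inl (.inl h)))
    (h70 : ∀ {h : Fin M} {i j : Fin (M + 1)} {p : Fin 3}, Adj h i p j → clsW b i = .one →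
      y (.inl (.inl h)) ≤ 70 / 100)
    (hc : clsW b i = .one) (hj : clsW b j = .ring) (hP : clsW b j' = .one)
    (hF1 : 125 / 1000 ≤ y (.inl (.inl h')))
    (hx : 36 / 100 < y (.inl (.inl h))) (hs : y (.inl (.inl h)) + y (.inl (.inl h')) ≤ 95 / 100) :
    DZ.Res (ofs (b i) (zs (.inl (.inl h))).im ≤ 58 / 1000)
      (58 / 1000 ≤ ofs (b i) (zs (.inl (.inl h))).im ∧ ofs (b i) (zs (.inl (.inl h))).im ≤ 128 / 1000)
      (y (.inl (.inl h))) (ofs (b i) (zs (.inl (.inl h))).im) (Sw b zs y i p (slL b zs y h)) := by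
  have hpi := Real.pi_pos
  have hpi' := Real.pi_lt_d2
  obtain ⟨e1, e2, e3⟩ := A'.par_one_one hc hP
  obtain ⟨w1, w2, w3, w4⟩ := hX.win A A' hc
  obtain ⟨v1, v2, -, -⟩ := hX.win A' A.rr hc
  rw [hj, hP] at w1 w2 w3 w4 v1 v2
  simp only [cw] at w1 w2 w3 w4 v1 v2
  have hxM := (A.rh hy).reM
  rw [A.re, (A.par_one_ring hc hj).1] at hxM
  have h0' := hpos h'
  rw [A.digit_side A' hb hy hpos hc hj hx (by linarith only [hx, hs, h0'])]
  have hbal := fun hz => A.bal_one A' hb hy hpos hF h70 hc hj hP hx (by linarith only [hx, hs, h0']) hz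
  rcases lt_or_ge (y (.inl (.inl h'))) (15 / 100) with hz | hz
  · obtain ⟨g1, g2⟩ := A'.ramp_data hy (by rw [e2]; norm_num) (by rw [e3]; norm_num)
      (by rw [e2, e3]; linarith only [e1]) (by rw [e2]; exact hz)
    rw [e2] at g1 g2
    have g1' : (Yw b zs y i p.rev).im =
        100 / 15 * ofs (b i) (zs (.inl (.inl h'))).im * y (.inl (.inl h')) := by rw [g1]; ring
    have g2' : ofs (b i) (slR b zs y h') = 100 / 15 * ofs (b i) (zs (.inl (.inl h'))).im := by
      rw [g2]; ring
    obtain ⟨a, β, ha, ha', hbal⟩ := hbal (by linarith only [h0', hz])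
    rw [g1', g2'] at hbal
    rw [g1']
    rcases le_total (ofs (b i) (zs (.inl (.inl h'))).im) 0 with hK | hK
    · refine DZ.oneN_res (by linarith only [hx]) hxM (by linarith only [w1]) (by linarith only [w2]) (by linarith only [hF1]) (by linarith only [hz])
        hs (by linarith only [v1]) (by linarith only [hK]) (by linarith only [w3]) (by linarith only [w4]) fun hz' => ?_
      refine (DZ.dL_one ?_).trans hbal
      exact DZ.H_neg (c := 235 / 1000) h0' (by linarith only [ha]) hz' (by linarith only [ha']) (Or.inr (by linarith only [hF1, h0', ha]))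
        (by linarith only [hK]) (by norm_num) (by linarith only [hF1, ha]) (by nlinarith only [hx, hs, hpi', h0'])
    · refine DZ.oneP_res (by linarith only [hx]) hxM (by linarith only [w1]) (by linarith only [w2]) (by linarith only [hF1]) (by linarith only [hz])
        hs (by linarith only [hK]) (by linarith only [v2]) (by linarith only [w1, h0', hz, hK]) (by linarith only [w4]) fun hz' => ?_
      refine (DZ.dL_one ?_).trans hbal
      exact DZ.H_pos (c := y (.inl (.inl h')) + 7 / 10) h0' (by linarith only [h0', hz, ha]) hz' (by linarith only [ha'])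
        (Or.inr (by linarith only [hF1, h0', ha])) (by linarith only [hK]) (by linarith only [h0', hz]) (by linarith only [ha']) (by rw [neg_neg])
  · obtain ⟨g1, g2⟩ := A'.flat_data hy (by rw [e2]; norm_num) (by rw [e3]; norm_num)
      (by rw [e2]; exact hz) (by rw [e3]; linarith only [hx, hs, e1, h0'])
    rw [g1]
    refine DZ.oneF_res (by linarith only [hx]) hxM (by linarith only [w1]) (by linarith only [w2]) (by linarith only [hz]) (by linarith only [hx, hs])
      hs (by linarith only [v1]) (by linarith only [v2]) (by linarith only [w3]) (by linarith only [w4]) fun hz' => ?_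
    obtain ⟨a, β, ha, ha', hbal⟩ := hbal (by linarith only [hz'])
    rw [g1, g2] at hbal
    refine (DZ.dL_one ?_).trans hbal
    exact DZ.H_flat h0' (by linarith only [ha]) hz' (by linarith only [ha']) (Or.inr (by linarith only [h0', hz, ha]))

/-- the side of the digit `1`, the other neighbour is an interior digit `2` -/
theorem Adj.res_two (A : Adj h i p j) (A' : Adj h' i p.rev j') (hb : ClassW b) (hX : LocX b zs)
    (hy : Mx b zs y) (hpos : ∀ h : Fin M, 0 < y (.inl (.inl h)))
    (hF : ∀ {h : Fin M} {i j : Fin (M + 1)} {p : Fin 3}, Adj h i p j → clsW b i = .two →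
      10 / 100 ≤ y (.inl (.inl h)))
    (h56 : ∀ {h : Fin M} {i j : Fin (M + 1)} {p : Fin 3}, Adj h i p j → clsW b i = .two →
      y (.inl (.inl h)) ≤ 56 / 100)
    (hc : clsW b i = .one) (hj : clsW b j = .ring) (hP : clsW b j' = .two)
    (hF1 : 150 / 1000 ≤ y (.inl (.inl h')))
    (hx : 36 / 100 < y (.inl (.inl h))) (hs : y (.inl (.inl h)) + y (.inl (.inl h')) ≤ 95 / 100) :
    DZ.Res False (ofs (b i) (zs (.inl (.inl h))).im ≤ 128 / 1000)
      (y (.inl (.inl h))) (ofs (b i) (zs (.inl (.inl h))).im) (Sw b zs y i p (slL b zs y h)) := by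
  have hpi := Real.pi_pos
  obtain ⟨e1, e2, e3⟩ := A'.par_one_two hc hP
  obtain ⟨w1, w2, w3, w4⟩ := hX.win A A' hc
  obtain ⟨v1, v2, -, -⟩ := hX.win A' A.rr hc
  rw [hj, hP] at w1 w2 w3 w4 v1 v2
  simp only [cw] at w1 w2 w3 w4 v1 v2
  have hxM := (A.rh hy).reM
  rw [A.re, (A.par_one_ring hc hj).1] at hxM
  have h0' := hpos h'
  have hz56 := h56 A'.symm hP
  rw [A.digit_side A' hb hy hpos hc hj hx (by linarith only [hx, hs, h0'])]
  have hbal := fun hz => A.bal_two A' hb hy hpos hF h56 hc hj hP hx (by linarith only [hx, hs, h0']) hz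
  rcases lt_or_ge (y (.inl (.inl h'))) (16 / 100) with hz | hz
  · obtain ⟨g1, g2⟩ := A'.ramp_data hy (by rw [e2]; norm_num) (by rw [e3]; norm_num)
      (by rw [e2, e3]; linarith only [e1]) (by rw [e2]; exact hz)
    rw [e2] at g1 g2
    have g1' : (Yw b zs y i p.rev).im =
        100 / 16 * ofs (b i) (zs (.inl (.inl h'))).im * y (.inl (.inl h')) := by rw [g1]; ring
    have g2' : ofs (b i) (slR b zs y h') = 100 / 16 * ofs (b i) (zs (.inl (.inl h'))).im := by
      rw [g2]; ring
    obtain ⟨a, β, ha, ha', hbal⟩ := hbal (by linarith only [h0', hz])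
    rw [g1', g2'] at hbal
    rw [g1']
    rcases le_total (ofs (b i) (zs (.inl (.inl h'))).im) 0 with hK | hK
    · refine DZ.twoN_res (by linarith only [hx]) hxM (by linarith only [w3, h0', hz, hK]) (by linarith only [w2]) (by linarith only [hF1]) (by linarith only [hz])
        hs (by linarith only [v1]) (by linarith only [hK]) (by linarith only [w3]) (by linarith only [w2, h0', hz, hK]) fun hz' => ?_
      rw [← add_zero (-(Real.pi * (1 / 2)))]
      refine (DZ.dL_two ?_).trans hbal
      exact DZ.H_neg (c := 1 / 4) h0' (by linarith only [h0', hz, ha]) hz' (by linarith only [ha']) (Or.inl (by linarith only [hF1, ha]))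
        (by linarith only [hK]) (by norm_num) (by linarith only [hF1, ha]) (by norm_num)
    · refine DZ.twoP_res (by linarith only [hx]) hxM (by linarith only [w1]) (by linarith only [w2]) (by linarith only [hF1]) (by linarith only [hz])
        hs (by linarith only [hK]) (by linarith only [v2]) (by linarith only [w3]) (by linarith only [w4]) fun hz' => ?_
      rw [show -(Real.pi * (2 * (y (.inl (.inl h')) + 56 / 100))) = -(Real.pi * (1 / 2)) +
        -(Real.pi * (2 * (y (.inl (.inl h')) + 56 / 100) - 1 / 2)) by ring]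
      refine (DZ.dL_two ?_).trans hbal
      exact DZ.H_pos (c := y (.inl (.inl h')) + 56 / 100) h0' (by linarith only [ha]) hz' (by linarith only [ha'])
        (Or.inl (by linarith only [hF1, ha])) (by linarith only [hK]) (by linarith only [h0']) (by linarith only [ha']) (by rw [neg_neg])
  · rcases lt_or_ge (y (.inl (.inl h'))) (51 / 100) with hz2 | hz2
    · obtain ⟨g1, g2⟩ := A'.flat_data hy (by rw [e2]; norm_num) (by rw [e3]; norm_num)
        (by rw [e2]; exact hz) (by rw [e1, e3]; linarith only [hz2])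
      rw [g1]
      refine DZ.twoF_res (by linarith only [hx]) hxM (by linarith only [w1]) (by linarith only [w2]) (by linarith only [hz]) (by linarith only [hz2])
        hs (by linarith only [v1]) (by linarith only [v2]) (by linarith only [w3]) (by linarith only [w4]) fun hz' => ?_
      obtain ⟨a, β, ha, ha', hbal⟩ := hbal (by linarith only [hz'])
      rw [g1, g2] at hbal
      rw [DZ.dL_mu_zero 0 (-(Real.pi * (1 / 2)) + 0)]
      refine (DZ.dL_two ?_).trans hbal
      exact DZ.H_flat h0' (by linarith only [ha]) hz' (by linarith only [ha']) (Or.inl (by linarith only [h0', hz, ha]))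
    · have hrh := A'.rh hy
      rw [e1, e2, e3] at hrh
      have g1 := MR.RH_right hrh (by norm_num) (by norm_num) (by norm_num)
        (by rw [A'.re]; linarith only [hz2])
      rw [A'.re] at g1
      have t1 : (80 / 100 - y (.inl (.inl h'))) / (29 / 100) ≤ 1 := by
        rw [div_le_one (by norm_num)]; linarith only [hz2]
      have t0 : 82 / 100 ≤ (80 / 100 - y (.inl (.inl h'))) / (29 / 100) := by
        rw [le_div_iff₀ (by norm_num)]; linarith only [h0', hz56]
      refine DZ.twoG_res (by linarith only [hx]) hxM (by linarith only [w1]) (by linarith only [w2]) (by linarith only [hz2]) (by linarith only [hz56])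
        hs ?_ ?_ ?_ ?_ <;> rw [g1] <;> nlinarith only [v1, hz2, hx, hs, v2, w3, h0', hF1, w1, w2, w4]

/-- the side of the digit `1`, the other neighbour is a digit `2` at the end -/
theorem Adj.res_twoE (A : Adj h i p j) (A' : Adj h' i p.rev j') (hb : ClassW b) (hX : LocX b zs)
    (hy : Mx b zs y) (hpos : ∀ h : Fin M, 0 < y (.inl (.inl h)))
    (hc : clsW b i = .one) (hj : clsW b j = .ring) (hP : clsW b j' = .twoE)
    (hF1 : 125 / 1000 ≤ y (.inl (.inl h'))) (h35 : y (.inl (.inl h')) ≤ 35 / 100)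
    (hx : 36 / 100 < y (.inl (.inl h))) (hs : y (.inl (.inl h)) + y (.inl (.inl h')) ≤ 95 / 100) :
    DZ.Res (ofs (b i) (zs (.inl (.inl h))).im ≤ 128 / 1000) False
      (y (.inl (.inl h))) (ofs (b i) (zs (.inl (.inl h))).im) (Sw b zs y i p (slL b zs y h)) := by
  have hpi := Real.pi_pos
  obtain ⟨e1, e2, e3⟩ := A'.par_one_twoE hc hP
  obtain ⟨w1, w2, w3, w4⟩ := hX.win A A' hc
  obtain ⟨v1, v2, -, -⟩ := hX.win A' A.rr hc
  rw [hj, hP] at w1 w2 w3 w4 v1 v2
  simp only [cw] at w1 w2 w3 w4 v1 v2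
  have hxM := (A.rh hy).reM
  rw [A.re, (A.par_one_ring hc hj).1] at hxM
  have h0' := hpos h'
  rw [A.digit_side A' hb hy hpos hc hj hx (by linarith only [h35, hs, h0'])]
  have hbal := fun hz => A.bal_twoE A' hb hy hpos hc hj hP hx (by linarith only [h35, hs, h0']) hz
  rcases lt_or_ge (y (.inl (.inl h'))) (14 / 100) with hz | hz
  · obtain ⟨g1, g2⟩ := A'.ramp_data hy (by rw [e2]; norm_num) (by rw [e3]; norm_num)
      (by rw [e2, e3]; linarith only [e1]) (by rw [e2]; exact hz)
    rw [e2] at g1 g2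
    have g1' : (Yw b zs y i p.rev).im =
        100 / 14 * ofs (b i) (zs (.inl (.inl h'))).im * y (.inl (.inl h')) := by rw [g1]; ring
    have g2' : ofs (b i) (slR b zs y h') = 100 / 14 * ofs (b i) (zs (.inl (.inl h'))).im := by
      rw [g2]; ring
    have hbal := hbal (by linarith only [h0', hz])
    rw [g1', g2'] at hbal
    rw [g1']
    refine DZ.tweN_res (by linarith only [hx]) hxM (by linarith only [w1]) (by linarith only [w2]) (by linarith only [hF1]) (by linarith only [hz])
      hs (by linarith only [v1]) (by linarith only [v2]) (by linarith only [w3]) (by linarith only [w4]) fun hz' => ?_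
    rw [DZ.dL_twe]
    exact hbal
  · have g1 : (Yw b zs y i p.rev).im = ofs (b i) (zs (.inl (.inl h'))).im :=
      MR.RH_flat (A'.rh hy) (by rw [e2]; norm_num) (by rw [e3]; norm_num)
        (by rw [A'.re, e2]; exact hz) (by rw [A'.re, e1, e3]; linarith only [h35])
    rw [g1]
    refine DZ.tweF_res (by linarith only [hx]) hxM (by linarith only [w1]) (by linarith only [w2]) (by linarith only [hz]) (by linarith only [h35])
      hs (by linarith only [v1]) (by linarith only [v2]) (by linarith only [w3]) (by linarith only [w4]) fun hz' => ?_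
    obtain ⟨-, g2⟩ := A'.flat_data hy (by rw [e2]; norm_num) (by rw [e3]; norm_num)
      (by rw [e2]; exact hz) (by rw [e1, e3]; linarith only [h0', hz'])
    have hbal := hbal (by linarith only [hz'])
    rw [g1, g2] at hbal
    rw [DZ.dL_mu_zero 0 (-(Real.pi * (1 / 2))), DZ.dL_twe]
    exact hbal

end SR

end Pool.Agent.Work.MP_b30479_gtS.G2

end
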