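import Pool.Agent.Work.MP_b30479_gt.TBS.G2.GE_0

/-!
# The ring variable next to a ring of equal sign, left of `-1/4`: rows, wide ranges

On the left ramp of the hinge `x + i t`: `t ≤ 56/100 x`.
-/

set_option linter.unusedSimpArgs false

namespace Pool.Agent.Work.MP_b30479_gtS.G2

open VOL NumUs

namespace GE

section
open NumIs (V)
open NumUs.E

def cV1 : E := sub eT (mul (q 56 100) x1)
def cX2 : E := sub (q 2 100) x1
def cX10 : E := sub x1 (q 10 100)
def z0 : E := sub (ba x1 y1) (mul (mul pi (q 1 2)) eK)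
def zd : E := sub (ba x1 y1) (add (E.uu (q 10 1000) eK) (mul pi eK))

/-! `s`, `p = x / s`, `k = (t - 4ρs) / s`, `ρ` -/

def vs : E := var 0
def vp : E := var 1
def vk : E := var 2
def vr : E := var 3
def uX : E := mul vs (add (q 1 1) vp)
def uY : E := mul vs (add vk (mul (q 8 1) vr))
def DXp : E := sub (E.lnA uX uY) (mul (mul (q 4 1) vr) (E.lnB uX uY))
def Dp : E := sub DXp (add (E.lnA (mul vs (sub (q 1 1) vp)) (mul vs vk))
  (mul (mul (q 4 1) vr) (E.lnB (mul vs (sub (q 1 1) vp)) (mul vs vk))))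
def Dq' : E := sub DXp (add (E.lnA (mul (q 1 10) vs) (mul vs vk)) (mul (mul (q 2 1) pi) vr))
def w1 : E := sub (add vk (mul (q 4 1) vr)) (mul (q 56 100) vp)
def w2 : E := sub (mul vs (add vk (mul (q 4 1) vr))) (q 56 1000)

end

variable {s ρ x t : ℝ} {w ζ : ℂ}

theorem lnA_one_sub (y t : ℝ) : NumIs.lnA (1 - y) t = NumIs.lnA y t := by
  unfold NumIs.lnA
  rw [show Real.pi * (1 - y) = Real.pi - Real.pi * y by ring, Real.sin_pi_sub]

theorem lnB_one_sub (y t : ℝ) : NumIs.lnB (1 - y) t = -NumIs.lnB y t := by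
  unfold NumIs.lnB
  rw [show Real.pi * (1 - y) = Real.pi - Real.pi * y by ring, Real.sin_pi_sub, Real.cos_pi_sub,
    ← Real.arctan_neg]
  congr 1
  ring

/-- near `x = s` from below -/
theorem Dq_le (hw : w.re = x) (hwi : w.im = t) (hζ : ζ.re = -(1 / 2) + s) (hζi : ζ.im = 4 * ρ * s)
    (hρ : 0 ≤ ρ) (h0 : 0 < x) (h1 : x + s < 1) (h2 : x ≤ s) (h3 : 9 / 10 * s ≤ x)
    (h : 4 * ρ * s ≤ t) (hne : x ≠ s ∨ t ≠ 4 * ρ * s) :
    NumIs.lnA (x + s) (t + 4 * ρ * s) - 4 * ρ * NumIs.lnB (x + s) (t + 4 * ρ * s) -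
      (NumIs.lnA (1 / 10 * s) (t - 4 * ρ * s) + 2 * Real.pi * ρ) ≤ Dm (4 * ρ) w ζ := by
  have hp := Real.pi_pos
  have hcos : Real.cos (2 * Real.pi * (x + 1 - s)) = Real.cos (2 * Real.pi * (s - x)) := by
    rw [show 2 * Real.pi * (x + 1 - s) = 2 * Real.pi - 2 * Real.pi * (s - x) by ring,
      Real.cos_two_pi_sub]
  have hY : YY ⟨x + 1 - s, t - 4 * ρ * s⟩ ≤ Real.pi / 2 := by
    rcases eq_or_lt_of_le h with h4 | h4
    · rw [YY_zero (show (⟨x + 1 - s, t - 4 * ρ * s⟩ : ℂ).im = 0 by simp only; linarith only [h, h4])]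
      linarith only [hp]
    · have h5 : 0 < t - 4 * ρ * s := by linarith only [h4]
      rw [YY_pos (show 0 < (⟨x + 1 - s, t - 4 * ρ * s⟩ : ℂ).im from h5)]
      have h6 := Tr_mono h5 (show x + 1 - s ≤ 1 by linarith only [h2])
      rw [Tr_one h5] at h6
      simp only
      linarith only [h6]
  have hY' := mul_le_mul_of_nonneg_left hY (by positivity : (0 : ℝ) ≤ 4 * ρ)
  have hL := LL_eq' ⟨x + 1 - s, t - 4 * ρ * s⟩
  have hs : (⟨1 / 10 * s, t - 4 * ρ * s⟩ : ℂ) ∈ strip :=
    ⟨by simp only; linarith only [h0, h2], by simp only; linarith only [h0, h1, h2]⟩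
  have hR := Num.LL_lnA hs
  rw [LL_eq'] at hR
  simp only [hcos] at hL
  simp only at hR
  have hnn : 0 < 2 * Real.cosh (2 * Real.pi * (t - 4 * ρ * s)) -
      2 * Real.cos (2 * Real.pi * (s - x)) := by
    have k1 := Real.one_le_cosh (2 * Real.pi * (t - 4 * ρ * s))
    have k2 := Real.cos_le_one (2 * Real.pi * (s - x))
    rcases hne with h4 | h4
    · have h5 : 0 < s - x := by
        rcases eq_or_lt_of_le h2 with h6 | h6
        · exact absurd h6 h4
        · linarith only [h6]
      have h6 : Real.cos (2 * Real.pi * (s - x)) < Real.cos 0 := by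
        apply Real.cos_lt_cos_of_nonneg_of_le_pi le_rfl
        · nlinarith only [h0, hp, h1, h2, h3]
        · positivity
      rw [Real.cos_zero] at h6
      linarith only [k1, h6]
    · have h5 : 1 < Real.cosh (2 * Real.pi * (t - 4 * ρ * s)) := by
        rw [Real.one_lt_cosh]
        have h6 : t - 4 * ρ * s ≠ 0 := fun h7 => h4 (by linarith only [h, h7])
        positivity
      linarith only [k2, h5]
  have hc : Real.cos (2 * Real.pi * (1 / 10 * s)) ≤ Real.cos (2 * Real.pi * (s - x)) := by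
    apply Real.cos_le_cos_of_nonneg_of_le_pi
    · have : 0 ≤ s - x := by linarith only [h2]
      positivity
    · nlinarith only [hp, h0, h1]
    · have : s - x ≤ 1 / 10 * s := by linarith only [h3]
      exact mul_le_mul_of_nonneg_left this (by positivity)
  unfold Dm
  rw [DX_eq hw hwi hζ hζi (by linarith only [h0, h2]) h1]
  unfold Dq
  rw [v_eq hw hwi hζ hζi]
  have h5 := Real.log_le_log hnn (show 2 * Real.cosh (2 * Real.pi * (t - 4 * ρ * s)) -
    2 * Real.cos (2 * Real.pi * (s - x)) ≤ 2 * Real.cosh (2 * Real.pi * (t - 4 * ρ * s)) -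
      2 * Real.cos (2 * Real.pi * (1 / 10 * s)) by linarith only [hc])
  rw [hL]
  linarith only [hY', hR, h5]

/-! ### rows -/

theorem gw1 (hx : 2 / 100 ≤ x) (hx' : x ≤ 1 / 10) (hsx : s ≤ x) (hs : 0 < s) (ht' : t ≤ 56 / 1000)
    (htx : t ≤ 56 / 100 * x) (hρ : 0 < ρ) (hρ' : ρ ≤ 1045 / 10000) (hη : 4 * ρ * s ≤ t)
    (hd' : x - s ≤ 1 / 100) :
    8 * Real.pi * ρ * s * (1 - 4 * s) < fu x t (-(1 / 4)) ρ - fu x t (-(1 / 2) + s) (4 * ρ * s) := by
  have e : 0 ≤ 4 * ρ * s := mul_nonneg (by linarith only [hρ]) (by linarith only [hs])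
  have e1 : x - s + 2 * s = x + s := by ring
  have e2 : t - 4 * ρ * s + 8 * (ρ * s) = t + 4 * ρ * s := by ring
  have hg := gap_eq (s := s) (ρ := ρ) (x := x) (t := t)
  have hf1 : uu (x + 1 - s) (t - 4 * ρ * s) ≤ Real.pi / 2 * (t - 4 * ρ * s) := by
    have h1 := RV.anti1 (a := 1) (b := x + 1 - s) (y := t - 4 * ρ * s) (by norm_num) (by linarith only [hsx])
      (by linarith only [hd']) (by rw [abs_le]; constructor <;> linarith only [hη, hx', hsx, hs, ht', e])
    have h2 := uu_one_sub 0 (t - 4 * ρ * s)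
    have h3 : uu 0 (t - 4 * ρ * s) = -(Real.pi / 2 * |t - 4 * ρ * s|) := by
      unfold uu UU
      simp only [DT.Lr_zero_right]
      ring
    rw [sub_zero, h3, neg_neg, abs_of_nonneg (by linarith only [hη])] at h2
    linarith only [h1, h2]
  have h : chkT [E.sub z0 o1, cT, cV1, cX2, cX10] 22
    17026689367864781587147993826601425555245103284761956734673186
    [NumIs.V.of 10000 0 100, NumIs.V.of 10000 0 560,
      NumIs.V.of 10000 100 1000, NumIs.V.of 10000 0 1045] = true := by
    decide +kernel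
  obtain ⟨f, hf, hp⟩ := chkT4 h (by norm_num) (x := x - s) (y := t - 4 * ρ * s) (z := s) (w := ρ)
    (by norm_num; linarith only [hsx]) (by norm_num; linarith only [hd']) (by norm_num; linarith only [hη]) (by norm_num; linarith only [ht', e])
    (by norm_num; linarith only [hx, hd']) (by norm_num; linarith only [hx', hsx]) (by norm_num; linarith only [hρ]) (by norm_num; linarith only [hρ'])
  simp only [List.mem_cons, List.not_mem_nil, or_false] at hf
  rcases hf with rfl | rfl | rfl | rfl | rfl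
  · simp only [z0, ba, o1, x1, x2, y1, y2, u2, e0, eT, eK, eS, eR, eH, E.val, NumIs.lkR] at hp
    push_cast at hp
    try simp only [div_one, sub_add_cancel, e1, e2] at hp
    linarith only [hg, hf1, hp]
  · simp only [cT, x1, x2, y1, y2, u2, e0, eT, eK, eS, eR, eH, E.val, NumIs.lkR] at hp
    push_cast at hp
    try simp only [div_one, sub_add_cancel, e1, e2] at hp
    linarith only [ht', hp]
  · simp only [cV1, x1, x2, y1, y2, u2, e0, eT, eK, eS, eR, eH, E.val, NumIs.lkR] at hp
    push_cast at hp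
    try simp only [div_one, sub_add_cancel, e1, e2] at hp
    linarith only [htx, hp]
  · simp only [cX2, x1, x2, y1, y2, u2, e0, eT, eK, eS, eR, eH, E.val, NumIs.lkR] at hp
    push_cast at hp
    try simp only [div_one, sub_add_cancel, e1, e2] at hp
    linarith only [hx, hp]
  · simp only [cX10, x1, x2, y1, y2, u2, e0, eT, eK, eS, eR, eH, E.val, NumIs.lkR] at hp
    push_cast at hp
    try simp only [div_one, sub_add_cancel, e1, e2] at hp
    linarith only [hx', hp]

theorem gw2 (hx : 2 / 100 ≤ x) (hx' : x ≤ 1 / 10) (hsx : s ≤ x) (hs : 0 < s) (ht' : t ≤ 56 / 1000)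
    (htx : t ≤ 56 / 100 * x) (hρ : 0 < ρ) (hρ' : ρ ≤ 1045 / 10000) (hη : 4 * ρ * s ≤ t)
    (hd : 1 / 100 ≤ x - s) (hd' : x - s ≤ 3 / 100) :
    8 * Real.pi * ρ * s * (1 - 4 * s) < fu x t (-(1 / 4)) ρ - fu x t (-(1 / 2) + s) (4 * ρ * s) := by
  have e : 0 ≤ 4 * ρ * s := mul_nonneg (by linarith only [hρ]) (by linarith only [hs])
  have e1 : x - s + 2 * s = x + s := by ring
  have e2 : t - 4 * ρ * s + 8 * (ρ * s) = t + 4 * ρ * s := by ring
  have hg := gap_eq (s := s) (ρ := ρ) (x := x) (t := t)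
  have hf1 : uu (x + 1 - s) (t - 4 * ρ * s) ≤
      uu (10 / 1000) (t - 4 * ρ * s) + Real.pi * (t - 4 * ρ * s) := by
    have h1 := RV.anti1 (a := 10 / 1000 + 1) (b := x + 1 - s) (y := t - 4 * ρ * s) (by norm_num)
      (by linarith only [hd]) (by linarith only [hx', hs, hd']) (by rw [abs_le]; constructor <;> linarith only [hη, hx', hs, ht', hd, e])
    rwa [uu_add_one, abs_of_nonneg (by linarith only [hη])] at h1
  have h : chkT [E.sub zd o1, cT, cV1, cX2, cX10] 22
    15275416730979462235613481991321499829017967699044464415871522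
    [NumIs.V.of 10000 100 300, NumIs.V.of 10000 0 560,
      NumIs.V.of 10000 0 900, NumIs.V.of 10000 0 1045] = true := by
    decide +kernel
  obtain ⟨f, hf, hp⟩ := chkT4 h (by norm_num) (x := x - s) (y := t - 4 * ρ * s) (z := s) (w := ρ)
    (by norm_num; linarith only [hd]) (by norm_num; linarith only [hd']) (by norm_num; linarith only [hη]) (by norm_num; linarith only [ht', e])
    (by norm_num; linarith only [hs]) (by norm_num; linarith only [hx', hd]) (by norm_num; linarith only [hρ]) (by norm_num; linarith only [hρ'])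
  simp only [List.mem_cons, List.not_mem_nil, or_false] at hf
  rcases hf with rfl | rfl | rfl | rfl | rfl
  · simp only [zd, ba, o1, x1, x2, y1, y2, u2, e0, eT, eK, eS, eR, eH, E.val, NumIs.lkR] at hp
    push_cast at hp
    try simp only [div_one, sub_add_cancel, e1, e2] at hp
    linarith only [hg, hf1, hp]
  · simp only [cT, x1, x2, y1, y2, u2, e0, eT, eK, eS, eR, eH, E.val, NumIs.lkR] at hp
    push_cast at hp
    try simp only [div_one, sub_add_cancel, e1, e2] at hp
    linarith only [ht', hp]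
  · simp only [cV1, x1, x2, y1, y2, u2, e0, eT, eK, eS, eR, eH, E.val, NumIs.lkR] at hp
    push_cast at hp
    try simp only [div_one, sub_add_cancel, e1, e2] at hp
    linarith only [htx, hp]
  · simp only [cX2, x1, x2, y1, y2, u2, e0, eT, eK, eS, eR, eH, E.val, NumIs.lkR] at hp
    push_cast at hp
    try simp only [div_one, sub_add_cancel, e1, e2] at hp
    linarith only [hx, hp]
  · simp only [cX10, x1, x2, y1, y2, u2, e0, eT, eK, eS, eR, eH, E.val, NumIs.lkR] at hp
    push_cast at hp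
    try simp only [div_one, sub_add_cancel, e1, e2] at hp
    linarith only [hx', hp]

theorem gw3 (hx : 2 / 100 ≤ x) (hx' : x ≤ 1 / 10) (hsx : s ≤ x) (hs : 0 < s) (ht' : t ≤ 56 / 1000)
    (htx : t ≤ 56 / 100 * x) (hρ : 0 < ρ) (hρ' : ρ ≤ 1045 / 10000) (hη : 4 * ρ * s ≤ t)
    (hd : 3 / 100 ≤ x - s) :
    8 * Real.pi * ρ * s * (1 - 4 * s) < fu x t (-(1 / 4)) ρ - fu x t (-(1 / 2) + s) (4 * ρ * s) := by
  have e : 0 ≤ 4 * ρ * s := mul_nonneg (by linarith only [hρ]) (by linarith only [hs])
  have e1 : x - s + 2 * s = x + s := by ring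
  have e2 : t - 4 * ρ * s + 8 * (ρ * s) = t + 4 * ρ * s := by ring
  have hg := gap_eq (s := s) (ρ := ρ) (x := x) (t := t)
  have hf1 := far (x := x) hη
  have h : chkT [E.sub g1 o1, cT, cV1, cX2, cX10] 22
    16628496135212261911750311316828656130
    [NumIs.V.of 10000 300 1000, NumIs.V.of 10000 0 560,
      NumIs.V.of 10000 0 700, NumIs.V.of 10000 0 1045] = true := by
    decide +kernel
  obtain ⟨f, hf, hp⟩ := chkT4 h (by norm_num) (x := x - s) (y := t - 4 * ρ * s) (z := s) (w := ρ)
    (by norm_num; linarith only [hd]) (by norm_num; linarith only [hx', hs]) (by norm_num; linarith only [hη]) (by norm_num; linarith only [ht', e])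
    (by norm_num; linarith only [hs]) (by norm_num; linarith only [hx', hd]) (by norm_num; linarith only [hρ]) (by norm_num; linarith only [hρ'])
  simp only [List.mem_cons, List.not_mem_nil, or_false] at hf
  rcases hf with rfl | rfl | rfl | rfl | rfl
  · simp only [g1, ba, o1, x1, x2, y1, y2, u2, e0, eT, eK, eS, eR, eH, E.val, NumIs.lkR] at hp
    push_cast at hp
    try simp only [div_one, sub_add_cancel, e1, e2] at hp
    linarith only [hg, hf1, hp]
  · simp only [cT, x1, x2, y1, y2, u2, e0, eT, eK, eS, eR, eH, E.val, NumIs.lkR] at hp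
    push_cast at hp
    try simp only [div_one, sub_add_cancel, e1, e2] at hp
    linarith only [ht', hp]
  · simp only [cV1, x1, x2, y1, y2, u2, e0, eT, eK, eS, eR, eH, E.val, NumIs.lkR] at hp
    push_cast at hp
    try simp only [div_one, sub_add_cancel, e1, e2] at hp
    linarith only [htx, hp]
  · simp only [cX2, x1, x2, y1, y2, u2, e0, eT, eK, eS, eR, eH, E.val, NumIs.lkR] at hp
    push_cast at hp
    try simp only [div_one, sub_add_cancel, e1, e2] at hp
    linarith only [hs, hd, hp]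
  · simp only [cX10, x1, x2, y1, y2, u2, e0, eT, eK, eS, eR, eH, E.val, NumIs.lkR] at hp
    push_cast at hp
    try simp only [div_one, sub_add_cancel, e1, e2] at hp
    linarith only [hx', hp]

/-- numerical minimum: .0168 -/
theorem gb1w (hx : 2 / 100 ≤ x) (hx' : x ≤ 27 / 100) (ht' : t ≤ 56 / 1000)
    (htx : t ≤ 56 / 100 * x) (hs : 0 < s) (hs' : s ≤ 1 / 8) (hsx : s ≤ x) (hρ : 0 < ρ)
    (hρ' : ρ ≤ 1045 / 10000) (hη : 4 * ρ * s ≤ t) :
    8 * Real.pi * ρ * s * (1 - 4 * s) < fu x t (-(1 / 4)) ρ - fu x t (-(1 / 2) + s) (4 * ρ * s) := by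
  rcases le_total (1 / 10) x with h1 | h1
  · exact gb1 h1 hx' ht' hs hs' hsx hρ hρ' hη
  · rcases le_total (x - s) (1 / 100) with h2 | h2
    · exact gw1 hx h1 hsx hs ht' htx hρ hρ' hη h2
    · rcases le_total (x - s) (3 / 100) with h3 | h3
      · exact gw2 hx h1 hsx hs ht' htx hρ hρ' hη h2 h3
      · exact gw3 hx h1 hsx hs ht' htx hρ hρ' hη h3

theorem gcp (hpx : 32 / 100 * s ≤ x) (hsx : x ≤ 9 / 10 * s) (hs : 1 / 100 ≤ s) (hs' : s ≤ 1 / 4) (ht' : t ≤ 56 / 1000) (htx : t ≤ 56 / 100 * x)
    (hρ : 0 < ρ) (hρ' : ρ ≤ 1045 / 10000) (hη : 4 * ρ * s ≤ t)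
    (hw : w.re = x) (hwi : w.im = t) (hζ : ζ.re = -(1 / 2) + s) (hζi : ζ.im = 4 * ρ * s) :
    0 < Dm (4 * ρ) w ζ := by
  have e : 0 ≤ 4 * ρ * s := mul_nonneg (by linarith only [hρ]) (by linarith only [hpx, hsx])
  have hs0 : 0 < s := by linarith only [hs, hρ, hρ']
  have e1 : s * (1 + x / s) = x + s := by field_simp; ring
  have e2 : s * ((t - 4 * ρ * s) / s + 8 * ρ) = t + 4 * ρ * s := by field_simp; ring
  have e3 : s * (1 - x / s) = s - x := by field_simp
  have e4 : s * ((t - 4 * ρ * s) / s) = t - 4 * ρ * s := by field_simp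
  have e5 : s * ((t - 4 * ρ * s) / s + 4 * ρ) = t := by field_simp; ring
  have e6 : (t - 4 * ρ * s) / s + 4 * ρ ≤ 56 / 100 * (x / s) := by
    rw [show (t - 4 * ρ * s) / s + 4 * ρ = t / s by field_simp; ring,
      show 56 / 100 * (x / s) = (56 / 100 * x) / s by ring]
    gcongr
  have e7 : 0 ≤ (t - 4 * ρ * s) / s := div_nonneg (by linarith only [hη]) hs0.le
  have b1 : x / s ≤ 1 := by rw [div_le_one hs0]; linarith only [hpx, hsx]
  have b2 : (t - 4 * ρ * s) / s ≤ 56 / 100 := by
    rw [div_le_iff₀ hs0]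
    nlinarith only [hsx, hs, htx, hρ, hρ', e]
  have b3 : 32 / 100 ≤ x / s := by rw [le_div_iff₀ hs0]; exact hpx
  have b4 : x / s ≤ 9 / 10 := by rw [div_le_iff₀ hs0]; exact hsx
  have hf1 := D3_eq hw hwi hζ hζi (by linarith only [hpx, hs, hρ, hρ']) (by linarith only [hsx, hs', hρ, hρ']) (by linarith only [hsx, hs, hρ, hρ']) (by linarith only [hpx, hs', hρ, hρ'])
  rw [show x + 1 - s = 1 - (s - x) by ring, lnA_one_sub, lnB_one_sub] at hf1
  have h : chkT [Dp, w1, w2] 24
    204996535400350211404486680528082781505371416501076870144833620051376921069859329842467395898415663815101397694171167174507150586097967188049046656938470402634021046192527717116576767285687828356739676481048420628671306811187590849959809036415343407378374207287520585528800343536663762163187447271534066645787451690566251209136283587915375117371554298005285939462454969521708677344637070715551693551513970293376443718571578150786507863484078224665719022787457829497312739102068574629275477655961182248910207705930878134204008798671866941954740687109876717180084911251735191035550829906287732349862402652698274279160821710573204373879152664442684295271061585556387894270526332306257143224444889504616203197924851415926230819094474060243927041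
    [NumIs.V.of 10000 100 2500, NumIs.V.of 10000 3200 9000,
      NumIs.V.of 10000 0 5600, NumIs.V.of 10000 0 1045] = true := by
    decide +kernel
  obtain ⟨f, hf, hp⟩ := chkT4 h (by norm_num) (x := s) (y := x / s) (z := (t - 4 * ρ * s) / s) (w := ρ)
    (by norm_num; linarith only [hs]) (by norm_num; linarith only [hs']) (by norm_num; linarith only [b3]) (by norm_num; linarith only [b4])
    (by norm_num; linarith only [e7]) (by norm_num; linarith only [hρ, e6, b1]) (by norm_num; linarith only [hρ]) (by norm_num; linarith only [hρ'])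
  simp only [List.mem_cons, List.not_mem_nil, or_false] at hf
  rcases hf with rfl | rfl | rfl
  · simp only [Dp, DXp, uX, uY, vs, vp, vk, vr, E.val, NumIs.lkR] at hp
    push_cast at hp
    try simp only [div_one, e1, e2, e3, e4, e5] at hp
    linarith only [hf1, hp]
  · simp only [w1, vs, vp, vk, vr, E.val, NumIs.lkR] at hp
    push_cast at hp
    try simp only [div_one, e1, e2, e3, e4, e5] at hp
    linarith only [e6, hp]
  · simp only [w2, vs, vp, vk, vr, E.val, NumIs.lkR] at hp
    push_cast at hp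
    try simp only [div_one, e1, e2, e3, e4, e5] at hp
    linarith only [ht', hp]

theorem gcq (hpx : 9 / 10 * s ≤ x) (hsx : x ≤ s) (hs : 1 / 100 ≤ s) (hs' : s ≤ 1 / 4) (ht' : t ≤ 56 / 1000) (htx : t ≤ 56 / 100 * x)
    (hρ : 0 < ρ) (hρ' : ρ ≤ 1045 / 10000) (hη : 4 * ρ * s ≤ t)
    (hw : w.re = x) (hwi : w.im = t) (hζ : ζ.re = -(1 / 2) + s) (hζi : ζ.im = 4 * ρ * s)
    (hne : x ≠ s ∨ t ≠ 4 * ρ * s) :
    0 < Dm (4 * ρ) w ζ := by
  have e : 0 ≤ 4 * ρ * s := mul_nonneg (by linarith only [hρ]) (by linarith only [hpx, hsx])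
  have hs0 : 0 < s := by linarith only [hs, hρ, hρ']
  have e1 : s * (1 + x / s) = x + s := by field_simp; ring
  have e2 : s * ((t - 4 * ρ * s) / s + 8 * ρ) = t + 4 * ρ * s := by field_simp; ring
  have e3 : s * (1 - x / s) = s - x := by field_simp
  have e4 : s * ((t - 4 * ρ * s) / s) = t - 4 * ρ * s := by field_simp
  have e5 : s * ((t - 4 * ρ * s) / s + 4 * ρ) = t := by field_simp; ring
  have e6 : (t - 4 * ρ * s) / s + 4 * ρ ≤ 56 / 100 * (x / s) := by
    rw [show (t - 4 * ρ * s) / s + 4 * ρ = t / s by field_simp; ring,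
      show 56 / 100 * (x / s) = (56 / 100 * x) / s by ring]
    gcongr
  have e7 : 0 ≤ (t - 4 * ρ * s) / s := div_nonneg (by linarith only [hη]) hs0.le
  have b1 : x / s ≤ 1 := by rw [div_le_one hs0]; linarith only [hsx]
  have b2 : (t - 4 * ρ * s) / s ≤ 56 / 100 := by
    rw [div_le_iff₀ hs0]
    nlinarith only [hsx, htx, e]
  have b3 : 9 / 10 ≤ x / s := by rw [le_div_iff₀ hs0]; exact hpx
  have hf1 := Dq_le hw hwi hζ hζi hρ.le (by linarith only [hpx, hs0]) (by linarith only [hsx, hs', hρ, hρ']) hsx hpx hη hne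
  have h : chkT [Dq', w1, w2] 24
    106012349783304504722950166900793872394652875199094835767685926019811079982744487413664238935771499578531105968616374272
    [NumIs.V.of 10000 100 2500, NumIs.V.of 10000 9000 10000,
      NumIs.V.of 10000 0 5600, NumIs.V.of 10000 0 1045] = true := by
    decide +kernel
  obtain ⟨f, hf, hp⟩ := chkT4 h (by norm_num) (x := s) (y := x / s) (z := (t - 4 * ρ * s) / s) (w := ρ)
    (by norm_num; linarith only [hs]) (by norm_num; linarith only [hs']) (by norm_num; linarith only [b3]) (by norm_num; linarith only [b1])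
    (by norm_num; linarith only [e7]) (by norm_num; linarith only [hρ, e6, b1]) (by norm_num; linarith only [hρ]) (by norm_num; linarith only [hρ'])
  simp only [List.mem_cons, List.not_mem_nil, or_false] at hf
  rcases hf with rfl | rfl | rfl
  · simp only [Dq', DXp, uX, uY, vs, vp, vk, vr, E.val, NumIs.lkR] at hp
    push_cast at hp
    try simp only [div_one, e1, e2, e3, e4, e5] at hp
    linarith only [hf1, hp]
  · simp only [w1, vs, vp, vk, vr, E.val, NumIs.lkR] at hp
    push_cast at hp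
    try simp only [div_one, e1, e2, e3, e4, e5] at hp
    linarith only [e6, hp]
  · simp only [w2, vs, vp, vk, vr, E.val, NumIs.lkR] at hp
    push_cast at hp
    try simp only [div_one, e1, e2, e3, e4, e5] at hp
    linarith only [ht', hp]

/-- numerical minimum: about .6 -/
theorem gcw (hpx : 32 / 100 * s ≤ x) (hsx : x ≤ s) (ht' : t ≤ 56 / 1000)
    (htx : t ≤ 56 / 100 * x) (hs : 1 / 100 ≤ s) (hs' : s ≤ 1 / 4) (hρ : 0 < ρ)
    (hρ' : ρ ≤ 1045 / 10000) (hη : 4 * ρ * s ≤ t) (hne : x ≠ s ∨ t ≠ 4 * ρ * s)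
    (hw : w.re = x) (hwi : w.im = t) (hζ : ζ.re = -(1 / 2) + s) (hζi : ζ.im = 4 * ρ * s) :
    0 < Dm (4 * ρ) w ζ := by
  rcases le_total x (9 / 10 * s) with h1 | h1
  · exact gcp hpx h1 hs hs' ht' htx hρ hρ' hη hw hwi hζ hζi
  · exact gcq h1 hsx hs hs' ht' htx hρ hρ' hη hw hwi hζ hζi hne

end GE

end Pool.Agent.Work.MP_b30479_gtS.G2
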