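import Pool.Agent.Work.MP_b30479_gt.TBS.G2.GE_0

/-!
# Part of `GE`
-/
set_option linter.unusedSimpArgs false

namespace Pool.Agent.Work.MP_b30479_gtS.G2

open VOL NumUs

namespace GE

variable {s ρ x t : ℝ} {w ζ : ℂ}

theorem m2ca (hx : 1 / 10 ≤ x) (hx' : x ≤ 27 / 100) (hs : 1 / 8 ≤ s) (hs' : s ≤ 3 / 20) (ht' : t ≤ 93 / 2000)
    (hρ : 0 < ρ) (hρ' : ρ ≤ 29 / 400) (hη : 4 * ρ * s ≤ t)
    (hd : x - s ≤ 3 / 100) (hd' : s - x ≤ 3 / 100) :
    0 < NumIs.lnA (x + s) (t + 4 * ρ * s) - 4 * ρ * NumIs.lnB (x + s) (t + 4 * ρ * s) := by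
  have e : 0 ≤ 4 * ρ * s := mul_nonneg (by linarith only [hρ]) (by linarith only [hs, hρ, hρ'])
  have e1 : x - s + 2 * s = x + s := by ring
  have e2 : t - 4 * ρ * s + 8 * (ρ * s) = t + 4 * ρ * s := by ring
  have e3 : 2 * s - (s - x) = x + s := by ring
  have e4 : 1 - (s - x) = x + 1 - s := by ring
  have h : chk [DX y1, cC, cB 27, cU] 24
    [NumIs.V.of 10000 (-300) 300, NumIs.V.of 10000 0 465,
      NumIs.V.of 10000 1250 1500, NumIs.V.of 10000 0 725] = true := by
    decide +kernel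
  obtain ⟨f, hf, hp⟩ := chk4 h (by norm_num) (x := x - s) (y := t - 4 * ρ * s) (z := s) (w := ρ)
    (by norm_num; linarith only [hd']) (by norm_num; linarith only [hd]) (by norm_num; linarith only [hη]) (by norm_num; linarith only [ht', e])
    (by norm_num; linarith only [hs]) (by norm_num; linarith only [hs']) (by norm_num; linarith only [hρ]) (by norm_num; linarith only [hρ'])
  simp only [List.mem_cons, List.not_mem_nil, or_false] at hf
  rcases hf with rfl | rfl | rfl | rfl
  · simp only [DX, x1, x2, y1, y2, u2, e0, eT, eK, eS, eR, eH, E.val, NumIs.lkR] at hp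
    push_cast at hp
    try simp only [div_one, sub_add_cancel, sub_sub_cancel, e1, e2, e3, e4] at hp
    linarith only [hp]
  · simp only [cC, x1, x2, y1, y2, u2, e0, eT, eK, eS, eR, eH, E.val, NumIs.lkR] at hp
    push_cast at hp
    try simp only [div_one, sub_add_cancel, sub_sub_cancel, e1, e2, e3, e4] at hp
    linarith only [hx, hp]
  · simp only [cB, x1, x2, y1, y2, u2, e0, eT, eK, eS, eR, eH, E.val, NumIs.lkR] at hp
    push_cast at hp
    try simp only [div_one, sub_add_cancel, sub_sub_cancel, e1, e2, e3, e4] at hp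
    linarith only [hx', hp]
  · simp only [cU, x1, x2, y1, y2, u2, e0, eT, eK, eS, eR, eH, E.val, NumIs.lkR] at hp
    push_cast at hp
    try simp only [div_one, sub_add_cancel, sub_sub_cancel, e1, e2, e3, e4] at hp
    linarith only [ht', hp]

theorem m2cb (hx : 1 / 10 ≤ x) (hx' : x ≤ 27 / 100) (hs : 1 / 8 ≤ s) (hs' : s ≤ 3 / 20) (ht' : t ≤ 93 / 2000)
    (hρ : 0 < ρ) (hρ' : ρ ≤ 29 / 400) (hη : 4 * ρ * s ≤ t)
    (hd : x - s ≤ 3 / 100) (hd' : s - x ≤ 3 / 100) :
    0 < NumIs.lnA (x + s) (t + 4 * ρ * s) - 4 * ρ * NumIs.lnB (x + s) (t + 4 * ρ * s) -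
      (1 / 2 * Real.log (2 * (Real.cosh (2 * Real.pi * (t - 4 * ρ * s)) -
        Real.cos (Real.pi * (2 * (x - s)))) + 1 / 20) + 4 * ρ * Real.pi) := by
  have e : 0 ≤ 4 * ρ * s := mul_nonneg (by linarith only [hρ]) (by linarith only [hs, hρ, hρ'])
  have e1 : x - s + 2 * s = x + s := by ring
  have e2 : t - 4 * ρ * s + 8 * (ρ * s) = t + 4 * ρ * s := by ring
  have e3 : 2 * s - (s - x) = x + s := by ring
  have e4 : 1 - (s - x) = x + 1 - s := by ring
  have h : chk [Dc, cC, cB 27, cU] 24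
    [NumIs.V.of 10000 (-300) 300, NumIs.V.of 10000 0 465,
      NumIs.V.of 10000 1250 1500, NumIs.V.of 10000 0 725] = true := by
    decide +kernel
  obtain ⟨f, hf, hp⟩ := chk4 h (by norm_num) (x := x - s) (y := t - 4 * ρ * s) (z := s) (w := ρ)
    (by norm_num; linarith only [hd']) (by norm_num; linarith only [hd]) (by norm_num; linarith only [hη]) (by norm_num; linarith only [ht', e])
    (by norm_num; linarith only [hs]) (by norm_num; linarith only [hs']) (by norm_num; linarith only [hρ]) (by norm_num; linarith only [hρ'])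
  simp only [List.mem_cons, List.not_mem_nil, or_false] at hf
  rcases hf with rfl | rfl | rfl | rfl
  · simp only [Dc, DX, x1, x2, y1, y2, u2, e0, eT, eK, eS, eR, eH, E.val, NumIs.lkR] at hp
    push_cast at hp
    try simp only [div_one, sub_add_cancel, sub_sub_cancel, e1, e2, e3, e4] at hp
    linarith only [hp]
  · simp only [cC, x1, x2, y1, y2, u2, e0, eT, eK, eS, eR, eH, E.val, NumIs.lkR] at hp
    push_cast at hp
    try simp only [div_one, sub_add_cancel, sub_sub_cancel, e1, e2, e3, e4] at hp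
    linarith only [hx, hp]
  · simp only [cB, x1, x2, y1, y2, u2, e0, eT, eK, eS, eR, eH, E.val, NumIs.lkR] at hp
    push_cast at hp
    try simp only [div_one, sub_add_cancel, sub_sub_cancel, e1, e2, e3, e4] at hp
    linarith only [hx', hp]
  · simp only [cU, x1, x2, y1, y2, u2, e0, eT, eK, eS, eR, eH, E.val, NumIs.lkR] at hp
    push_cast at hp
    try simp only [div_one, sub_add_cancel, sub_sub_cancel, e1, e2, e3, e4] at hp
    linarith only [ht', hp]

theorem m2d (hx : 1 / 10 ≤ x) (hx' : x ≤ 27 / 100) (hs : 1 / 8 ≤ s) (hs' : s ≤ 3 / 20) (ht' : t ≤ 93 / 2000)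
    (hρ : 0 < ρ) (hρ' : ρ ≤ 29 / 400) (hη : 4 * ρ * s ≤ t)
    (hw : w.re = x) (hwi : w.im = t) (hζ : ζ.re = -(1 / 2) + s) (hζi : ζ.im = 4 * ρ * s)
    (hd : 3 / 100 ≤ s - x) :
    0 < Dm (4 * ρ) w ζ := by
  have e : 0 ≤ 4 * ρ * s := mul_nonneg (by linarith only [hρ]) (by linarith only [hx, hρ, hρ', hd])
  have e1 : x - s + 2 * s = x + s := by ring
  have e2 : t - 4 * ρ * s + 8 * (ρ * s) = t + 4 * ρ * s := by ring
  have e3 : 2 * s - (s - x) = x + s := by ring
  have e4 : 1 - (s - x) = x + 1 - s := by ring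
  have hf1 := D3_eq hw hwi hζ hζi (by linarith only [hx, hρ, hρ', hd]) (by linarith only [hx', hs', hρ, hρ']) (by linarith only [hρ, hρ', hd]) (by linarith only [hx, hs', hρ, hρ'])
  have h : chk [D2, cD, cU] 24
    [NumIs.V.of 10000 300 500, NumIs.V.of 10000 0 465,
      NumIs.V.of 10000 1300 1500, NumIs.V.of 10000 0 725] = true := by
    decide +kernel
  obtain ⟨f, hf, hp⟩ := chk4 h (by norm_num) (x := s - x) (y := t - 4 * ρ * s) (z := s) (w := ρ)
    (by norm_num; linarith only [hd]) (by norm_num; linarith only [hx, hs']) (by norm_num; linarith only [hη]) (by norm_num; linarith only [ht', e])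
    (by norm_num; linarith only [hx, hd]) (by norm_num; linarith only [hs']) (by norm_num; linarith only [hρ]) (by norm_num; linarith only [hρ'])
  simp only [List.mem_cons, List.not_mem_nil, or_false] at hf
  rcases hf with rfl | rfl | rfl
  · simp only [D2, DX, x1, x2, y1, y2, u2, e0, eT, eK, eS, eR, eH, E.val, NumIs.lkR] at hp
    push_cast at hp
    try simp only [div_one, sub_add_cancel, sub_sub_cancel, e1, e2, e3, e4] at hp
    linarith only [hf1, hp]
  · simp only [cD, x1, x2, y1, y2, u2, e0, eT, eK, eS, eR, eH, E.val, NumIs.lkR] at hp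
    push_cast at hp
    try simp only [div_one, sub_add_cancel, sub_sub_cancel, e1, e2, e3, e4] at hp
    linarith only [hx, hp]
  · simp only [cU, x1, x2, y1, y2, u2, e0, eT, eK, eS, eR, eH, E.val, NumIs.lkR] at hp
    push_cast at hp
    try simp only [div_one, sub_add_cancel, sub_sub_cancel, e1, e2, e3, e4] at hp
    linarith only [ht', hp]

theorem m2e (hx : 1 / 10 ≤ x) (hx' : x ≤ 24 / 100) (hs : 1 / 8 ≤ s) (hs' : s ≤ 3 / 20) (ht' : t ≤ 93 / 2000)
    (hρ : 0 < ρ) (hρ' : ρ ≤ 29 / 400) (hη : 4 * ρ * s ≤ t)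
    (hw : w.re = x) (hwi : w.im = t) (hζ : ζ.re = -(1 / 2) + s) (hζi : ζ.im = 4 * ρ * s)
    (hd : 3 / 100 ≤ x - s) :
    Real.pi * ρ * (1 - 4 * s) < fu x t (-(1 / 4)) ρ - fu x t (-(1 / 2) + s) (4 * ρ * s) ∨
      0 < Dm (4 * ρ) w ζ := by
  have e : 0 ≤ 4 * ρ * s := mul_nonneg (by linarith only [hρ]) (by linarith only [hs, hρ, hρ'])
  have e1 : x - s + 2 * s = x + s := by ring
  have e2 : t - 4 * ρ * s + 8 * (ρ * s) = t + 4 * ρ * s := by ring
  have e3 : 2 * s - (s - x) = x + s := by ring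
  have e4 : 1 - (s - x) = x + 1 - s := by ring
  have hg := gap_eq (s := s) (ρ := ρ) (x := x) (t := t)
  have hf1 := D1_le hw hwi hζ hζi hρ.le (by linarith only [hs, hρ, hρ', hd]) (by linarith only [hx', hρ, hρ', hd]) (by linarith only [hρ, hρ', hd]) (by linarith only [hx', hs, hρ, hρ']) hη
  have hf2 := far (x := x) hη
  have h : chk [D1, E.sub g1 o3, cB 24, cU] 24
    [NumIs.V.of 10000 300 1150, NumIs.V.of 10000 0 465,
      NumIs.V.of 10000 1250 1500, NumIs.V.of 10000 0 725] = true := by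
    decide +kernel
  obtain ⟨f, hf, hp⟩ := chk4 h (by norm_num) (x := x - s) (y := t - 4 * ρ * s) (z := s) (w := ρ)
    (by norm_num; linarith only [hd]) (by norm_num; linarith only [hx', hs]) (by norm_num; linarith only [hη]) (by norm_num; linarith only [ht', e])
    (by norm_num; linarith only [hs]) (by norm_num; linarith only [hs']) (by norm_num; linarith only [hρ]) (by norm_num; linarith only [hρ'])
  simp only [List.mem_cons, List.not_mem_nil, or_false] at hf
  rcases hf with rfl | rfl | rfl | rfl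
  · simp only [D1, DX, x1, x2, y1, y2, u2, e0, eT, eK, eS, eR, eH, E.val, NumIs.lkR] at hp
    push_cast at hp
    try simp only [div_one, sub_add_cancel, sub_sub_cancel, e1, e2, e3, e4] at hp
    right
    linarith only [hf1, hp]
  · simp only [g1, ba, o3, x1, x2, y1, y2, u2, e0, eT, eK, eS, eR, eH, E.val, NumIs.lkR] at hp
    push_cast at hp
    try simp only [div_one, sub_add_cancel, sub_sub_cancel, e1, e2, e3, e4] at hp
    left
    linarith only [hg, hf2, hp]
  · simp only [cB, x1, x2, y1, y2, u2, e0, eT, eK, eS, eR, eH, E.val, NumIs.lkR] at hp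
    push_cast at hp
    try simp only [div_one, sub_add_cancel, sub_sub_cancel, e1, e2, e3, e4] at hp
    linarith only [hx', hp]
  · simp only [cU, x1, x2, y1, y2, u2, e0, eT, eK, eS, eR, eH, E.val, NumIs.lkR] at hp
    push_cast at hp
    try simp only [div_one, sub_add_cancel, sub_sub_cancel, e1, e2, e3, e4] at hp
    linarith only [ht', hp]

theorem m2f1 (hx : 24 / 100 ≤ x) (hx' : x ≤ 1 / 4) (hs : 1 / 8 ≤ s) (hs' : s ≤ 3 / 20) (ht' : t ≤ 93 / 2000)
    (hρ : 0 < ρ) (hρ' : ρ ≤ 29 / 400) (hη : 4 * ρ * s ≤ t)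
    (hw : w.re = x) (hwi : w.im = t) (hζ : ζ.re = -(1 / 2) + s) (hζi : ζ.im = 4 * ρ * s) :
    Real.pi * ρ * (1 - 4 * s) < fu x t (-(1 / 4)) ρ - fu x t (-(1 / 2) + s) (4 * ρ * s) ∨
      0 < Dm (4 * ρ) w ζ := by
  have e : 0 ≤ 4 * ρ * s := mul_nonneg (by linarith only [hρ]) (by linarith only [hs, hρ, hρ'])
  have e1 : x - s + 2 * s = x + s := by ring
  have e2 : t - 4 * ρ * s + 8 * (ρ * s) = t + 4 * ρ * s := by ring
  have e3 : 2 * s - (s - x) = x + s := by ring
  have e4 : 1 - (s - x) = x + 1 - s := by ring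
  have hg := gap_eq (s := s) (ρ := ρ) (x := x) (t := t)
  have hf1 := D1_le hw hwi hζ hζi hρ.le (by linarith only [hx, hs, hρ, hρ']) (by linarith only [hx', hs', hρ, hρ']) (by linarith only [hx, hs', hρ, hρ']) (by linarith only [hx', hs, hρ, hρ']) hη
  have hf5 := far (x := x) hη
  have hf2 := half (t := t) (ρ := ρ) hx hx' (absdiff (by linarith only [hη, e]) (by linarith only [ht', hρ, hρ']) hρ.le (by linarith only [hρ, hρ']))
  have hf3 := pa1 (t := t) (ρ := ρ)
  have hf4 := pa2 (t := t) (ρ := ρ)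
  have h : chk [E.sub h1 o3, E.sub h2 o3, D0, cU] 24
    [NumIs.V.of 10000 2400 2500, NumIs.V.of 10000 0 465,
      NumIs.V.of 10000 1250 1500, NumIs.V.of 10000 0 725] = true := by
    decide +kernel
  obtain ⟨f, hf, hp⟩ := chk4 h (by norm_num) (x := x) (y := t - 4 * ρ * s) (z := s) (w := ρ)
    (by norm_num; linarith only [hx]) (by norm_num; linarith only [hx']) (by norm_num; linarith only [hη]) (by norm_num; linarith only [ht', e])
    (by norm_num; linarith only [hs]) (by norm_num; linarith only [hs']) (by norm_num; linarith only [hρ]) (by norm_num; linarith only [hρ'])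
  simp only [List.mem_cons, List.not_mem_nil, or_false] at hf
  rcases hf with rfl | rfl | rfl | rfl
  · simp only [h1, aft, o3, x1, x2, y1, y2, u2, e0, eT, eK, eS, eR, eH, E.val, NumIs.lkR] at hp
    push_cast at hp
    try simp only [div_one, sub_add_cancel, sub_sub_cancel, e1, e2, e3, e4] at hp
    left
    linarith only [hg, hf5, hf2, hf3, hp]
  · simp only [h2, aft, o3, x1, x2, y1, y2, u2, e0, eT, eK, eS, eR, eH, E.val, NumIs.lkR] at hp
    push_cast at hp
    try simp only [div_one, sub_add_cancel, sub_sub_cancel, e1, e2, e3, e4] at hp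
    left
    linarith only [hg, hf5, hf2, hf4, hp]
  · simp only [D0, DX, x1, x2, y1, y2, u2, e0, eT, eK, eS, eR, eH, E.val, NumIs.lkR] at hp
    push_cast at hp
    try simp only [div_one, sub_add_cancel, sub_sub_cancel, e1, e2, e3, e4] at hp
    right
    linarith only [hf1, hp]
  · simp only [cU, x1, x2, y1, y2, u2, e0, eT, eK, eS, eR, eH, E.val, NumIs.lkR] at hp
    push_cast at hp
    try simp only [div_one, sub_add_cancel, sub_sub_cancel, e1, e2, e3, e4] at hp
    linarith only [ht', hp]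

theorem m2f2 (hx : 1 / 4 ≤ x) (hx' : x ≤ 26 / 100) (hs : 1 / 8 ≤ s) (hs' : s ≤ 3 / 20) (ht' : t ≤ 93 / 2000)
    (hρ : 0 < ρ) (hρ' : ρ ≤ 29 / 400) (hη : 4 * ρ * s ≤ t)
    (hw : w.re = x) (hwi : w.im = t) (hζ : ζ.re = -(1 / 2) + s) (hζi : ζ.im = 4 * ρ * s) :
    Real.pi * ρ * (1 - 4 * s) < fu x t (-(1 / 4)) ρ - fu x t (-(1 / 2) + s) (4 * ρ * s) ∨
      0 < Dm (4 * ρ) w ζ := by
  have e : 0 ≤ 4 * ρ * s := mul_nonneg (by linarith only [hρ]) (by linarith only [hs, hρ, hρ'])
  have e1 : x - s + 2 * s = x + s := by ring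
  have e2 : t - 4 * ρ * s + 8 * (ρ * s) = t + 4 * ρ * s := by ring
  have e3 : 2 * s - (s - x) = x + s := by ring
  have e4 : 1 - (s - x) = x + 1 - s := by ring
  have hg := gap_eq (s := s) (ρ := ρ) (x := x) (t := t)
  have hf1 := D1_le hw hwi hζ hζi hρ.le (by linarith only [hx, hs, hρ, hρ']) (by linarith only [hx', hs', hρ, hρ']) (by linarith only [hx, hs', hρ, hρ']) (by linarith only [hx', hs, hρ, hρ']) hη
  have hf5 := far (x := x) hη
  have hf2 := past' (t := t) (ρ := ρ) hx hx' (absdiff (by linarith only [hη, e]) (by linarith only [ht', hρ, hρ']) hρ.le (by linarith only [hρ, hρ']))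
  have hf3 := pa1 (t := t) (ρ := ρ)
  have hf4 := pa2 (t := t) (ρ := ρ)
  have h : chk [E.sub k1 o3, E.sub k2 o3, D0, cU] 24
    [NumIs.V.of 10000 2500 2600, NumIs.V.of 10000 0 465,
      NumIs.V.of 10000 1250 1500, NumIs.V.of 10000 0 725] = true := by
    decide +kernel
  obtain ⟨f, hf, hp⟩ := chk4 h (by norm_num) (x := x) (y := t - 4 * ρ * s) (z := s) (w := ρ)
    (by norm_num; linarith only [hx]) (by norm_num; linarith only [hx']) (by norm_num; linarith only [hη]) (by norm_num; linarith only [ht', e])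
    (by norm_num; linarith only [hs]) (by norm_num; linarith only [hs']) (by norm_num; linarith only [hρ]) (by norm_num; linarith only [hρ'])
  simp only [List.mem_cons, List.not_mem_nil, or_false] at hf
  rcases hf with rfl | rfl | rfl | rfl
  · simp only [k1, aft, o3, x1, x2, y1, y2, u2, e0, eT, eK, eS, eR, eH, E.val, NumIs.lkR] at hp
    push_cast at hp
    try simp only [div_one, sub_add_cancel, sub_sub_cancel, e1, e2, e3, e4] at hp
    left
    linarith only [hg, hf5, hf2, hf3, hp]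
  · simp only [k2, aft, o3, x1, x2, y1, y2, u2, e0, eT, eK, eS, eR, eH, E.val, NumIs.lkR] at hp
    push_cast at hp
    try simp only [div_one, sub_add_cancel, sub_sub_cancel, e1, e2, e3, e4] at hp
    left
    linarith only [hg, hf5, hf2, hf4, hp]
  · simp only [D0, DX, x1, x2, y1, y2, u2, e0, eT, eK, eS, eR, eH, E.val, NumIs.lkR] at hp
    push_cast at hp
    try simp only [div_one, sub_add_cancel, sub_sub_cancel, e1, e2, e3, e4] at hp
    right
    linarith only [hf1, hp]
  · simp only [cU, x1, x2, y1, y2, u2, e0, eT, eK, eS, eR, eH, E.val, NumIs.lkR] at hp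
    push_cast at hp
    try simp only [div_one, sub_add_cancel, sub_sub_cancel, e1, e2, e3, e4] at hp
    linarith only [ht', hp]

theorem m2f3 (hx : 26 / 100 ≤ x) (hx' : x ≤ 27 / 100) (hs : 1 / 8 ≤ s) (hs' : s ≤ 3 / 20) (ht' : t ≤ 93 / 2000)
    (hρ : 0 < ρ) (hρ' : ρ ≤ 29 / 400) (hη : 4 * ρ * s ≤ t)
    (hw : w.re = x) (hwi : w.im = t) (hζ : ζ.re = -(1 / 2) + s) (hζi : ζ.im = 4 * ρ * s) :
    Real.pi * ρ * (1 - 4 * s) < fu x t (-(1 / 4)) ρ - fu x t (-(1 / 2) + s) (4 * ρ * s) ∨
      0 < Dm (4 * ρ) w ζ := by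
  have e : 0 ≤ 4 * ρ * s := mul_nonneg (by linarith only [hρ]) (by linarith only [hs, hρ, hρ'])
  have e1 : x - s + 2 * s = x + s := by ring
  have e2 : t - 4 * ρ * s + 8 * (ρ * s) = t + 4 * ρ * s := by ring
  have e3 : 2 * s - (s - x) = x + s := by ring
  have e4 : 1 - (s - x) = x + 1 - s := by ring
  have hg := gap_eq (s := s) (ρ := ρ) (x := x) (t := t)
  have hf1 := D1_le hw hwi hζ hζi hρ.le (by linarith only [hx, hs, hρ, hρ']) (by linarith only [hx', hs', hρ, hρ']) (by linarith only [hx, hs', hρ, hρ']) (by linarith only [hx', hs, hρ, hρ']) hη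
  have hf5 := far (x := x) hη
  have hf2 := past (x := x) (t := t) (ρ := ρ)
  have hf3 := pa1 (t := t) (ρ := ρ)
  have hf4 := pa2 (t := t) (ρ := ρ)
  have h : chk [E.sub l1 o3, E.sub l2 o3, D0, cU] 24
    [NumIs.V.of 10000 2600 2700, NumIs.V.of 10000 0 465,
      NumIs.V.of 10000 1250 1500, NumIs.V.of 10000 0 725] = true := by
    decide +kernel
  obtain ⟨f, hf, hp⟩ := chk4 h (by norm_num) (x := x) (y := t - 4 * ρ * s) (z := s) (w := ρ)
    (by norm_num; linarith only [hx]) (by norm_num; linarith only [hx']) (by norm_num; linarith only [hη]) (by norm_num; linarith only [ht', e])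
    (by norm_num; linarith only [hs]) (by norm_num; linarith only [hs']) (by norm_num; linarith only [hρ]) (by norm_num; linarith only [hρ'])
  simp only [List.mem_cons, List.not_mem_nil, or_false] at hf
  rcases hf with rfl | rfl | rfl | rfl
  · simp only [l1, aft, o3, x1, x2, y1, y2, u2, e0, eT, eK, eS, eR, eH, E.val, NumIs.lkR] at hp
    push_cast at hp
    try simp only [div_one, sub_add_cancel, sub_sub_cancel, e1, e2, e3, e4] at hp
    left
    linarith only [hg, hf5, hf2, hf3, hp]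
  · simp only [l2, aft, o3, x1, x2, y1, y2, u2, e0, eT, eK, eS, eR, eH, E.val, NumIs.lkR] at hp
    push_cast at hp
    try simp only [div_one, sub_add_cancel, sub_sub_cancel, e1, e2, e3, e4] at hp
    left
    linarith only [hg, hf5, hf2, hf4, hp]
  · simp only [D0, DX, x1, x2, y1, y2, u2, e0, eT, eK, eS, eR, eH, E.val, NumIs.lkR] at hp
    push_cast at hp
    try simp only [div_one, sub_add_cancel, sub_sub_cancel, e1, e2, e3, e4] at hp
    right
    linarith only [hf1, hp]
  · simp only [cU, x1, x2, y1, y2, u2, e0, eT, eK, eS, eR, eH, E.val, NumIs.lkR] at hp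
    push_cast at hp
    try simp only [div_one, sub_add_cancel, sub_sub_cancel, e1, e2, e3, e4] at hp
    linarith only [ht', hp]

theorem m4ca (hx : 1 / 10 ≤ x) (hx' : x ≤ 27 / 100) (hs : 3 / 20 ≤ s) (hs' : s ≤ 1 / 4) (ht' : t ≤ 7 / 125)
    (hρ : 0 < ρ) (hρ' : ρ ≤ 29 / 400) (hη : 4 * ρ * s ≤ t)
    (hd : x - s ≤ 3 / 100) (hd' : s - x ≤ 3 / 100) :
    0 < NumIs.lnA (x + s) (t + 4 * ρ * s) - 4 * ρ * NumIs.lnB (x + s) (t + 4 * ρ * s) := by
  have e : 0 ≤ 4 * ρ * s := mul_nonneg (by linarith only [hρ]) (by linarith only [hs, hρ, hρ'])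
  have e1 : x - s + 2 * s = x + s := by ring
  have e2 : t - 4 * ρ * s + 8 * (ρ * s) = t + 4 * ρ * s := by ring
  have e3 : 2 * s - (s - x) = x + s := by ring
  have e4 : 1 - (s - x) = x + 1 - s := by ring
  have h : chk [DX y1, cC, cB 27, cT] 24
    [NumIs.V.of 10000 (-300) 300, NumIs.V.of 10000 0 560,
      NumIs.V.of 10000 1500 2500, NumIs.V.of 10000 0 725] = true := by
    decide +kernel
  obtain ⟨f, hf, hp⟩ := chk4 h (by norm_num) (x := x - s) (y := t - 4 * ρ * s) (z := s) (w := ρ)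
    (by norm_num; linarith only [hd']) (by norm_num; linarith only [hd]) (by norm_num; linarith only [hη]) (by norm_num; linarith only [ht', e])
    (by norm_num; linarith only [hs]) (by norm_num; linarith only [hs']) (by norm_num; linarith only [hρ]) (by norm_num; linarith only [hρ'])
  simp only [List.mem_cons, List.not_mem_nil, or_false] at hf
  rcases hf with rfl | rfl | rfl | rfl
  · simp only [DX, x1, x2, y1, y2, u2, e0, eT, eK, eS, eR, eH, E.val, NumIs.lkR] at hp
    push_cast at hp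
    try simp only [div_one, sub_add_cancel, sub_sub_cancel, e1, e2, e3, e4] at hp
    linarith only [hp]
  · simp only [cC, x1, x2, y1, y2, u2, e0, eT, eK, eS, eR, eH, E.val, NumIs.lkR] at hp
    push_cast at hp
    try simp only [div_one, sub_add_cancel, sub_sub_cancel, e1, e2, e3, e4] at hp
    linarith only [hs, hρ, hρ', hd', hp]
  · simp only [cB, x1, x2, y1, y2, u2, e0, eT, eK, eS, eR, eH, E.val, NumIs.lkR] at hp
    push_cast at hp
    try simp only [div_one, sub_add_cancel, sub_sub_cancel, e1, e2, e3, e4] at hp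
    linarith only [hx', hp]
  · simp only [cT, x1, x2, y1, y2, u2, e0, eT, eK, eS, eR, eH, E.val, NumIs.lkR] at hp
    push_cast at hp
    try simp only [div_one, sub_add_cancel, sub_sub_cancel, e1, e2, e3, e4] at hp
    linarith only [ht', hp]

theorem m4cb (hx : 1 / 10 ≤ x) (hx' : x ≤ 27 / 100) (hs : 3 / 20 ≤ s) (hs' : s ≤ 1 / 4) (ht' : t ≤ 7 / 125)
    (hρ : 0 < ρ) (hρ' : ρ ≤ 29 / 400) (hη : 4 * ρ * s ≤ t)
    (hd : x - s ≤ 3 / 100) (hd' : s - x ≤ 3 / 100) :
    0 < NumIs.lnA (x + s) (t + 4 * ρ * s) - 4 * ρ * NumIs.lnB (x + s) (t + 4 * ρ * s) -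
      (1 / 2 * Real.log (2 * (Real.cosh (2 * Real.pi * (t - 4 * ρ * s)) -
        Real.cos (Real.pi * (2 * (x - s)))) + 1 / 20) + 4 * ρ * Real.pi) := by
  have e : 0 ≤ 4 * ρ * s := mul_nonneg (by linarith only [hρ]) (by linarith only [hs, hρ, hρ'])
  have e1 : x - s + 2 * s = x + s := by ring
  have e2 : t - 4 * ρ * s + 8 * (ρ * s) = t + 4 * ρ * s := by ring
  have e3 : 2 * s - (s - x) = x + s := by ring
  have e4 : 1 - (s - x) = x + 1 - s := by ring
  have h : chk [Dc, cC, cB 27, cT] 24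
    [NumIs.V.of 10000 (-300) 300, NumIs.V.of 10000 0 560,
      NumIs.V.of 10000 1500 2500, NumIs.V.of 10000 0 725] = true := by
    decide +kernel
  obtain ⟨f, hf, hp⟩ := chk4 h (by norm_num) (x := x - s) (y := t - 4 * ρ * s) (z := s) (w := ρ)
    (by norm_num; linarith only [hd']) (by norm_num; linarith only [hd]) (by norm_num; linarith only [hη]) (by norm_num; linarith only [ht', e])
    (by norm_num; linarith only [hs]) (by norm_num; linarith only [hs']) (by norm_num; linarith only [hρ]) (by norm_num; linarith only [hρ'])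
  simp only [List.mem_cons, List.not_mem_nil, or_false] at hf
  rcases hf with rfl | rfl | rfl | rfl
  · simp only [Dc, DX, x1, x2, y1, y2, u2, e0, eT, eK, eS, eR, eH, E.val, NumIs.lkR] at hp
    push_cast at hp
    try simp only [div_one, sub_add_cancel, sub_sub_cancel, e1, e2, e3, e4] at hp
    linarith only [hp]
  · simp only [cC, x1, x2, y1, y2, u2, e0, eT, eK, eS, eR, eH, E.val, NumIs.lkR] at hp
    push_cast at hp
    try simp only [div_one, sub_add_cancel, sub_sub_cancel, e1, e2, e3, e4] at hp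
    linarith only [hs, hρ, hρ', hd', hp]
  · simp only [cB, x1, x2, y1, y2, u2, e0, eT, eK, eS, eR, eH, E.val, NumIs.lkR] at hp
    push_cast at hp
    try simp only [div_one, sub_add_cancel, sub_sub_cancel, e1, e2, e3, e4] at hp
    linarith only [hx', hp]
  · simp only [cT, x1, x2, y1, y2, u2, e0, eT, eK, eS, eR, eH, E.val, NumIs.lkR] at hp
    push_cast at hp
    try simp only [div_one, sub_add_cancel, sub_sub_cancel, e1, e2, e3, e4] at hp
    linarith only [ht', hp]

theorem m4d (hx : 1 / 10 ≤ x) (hx' : x ≤ 27 / 100) (hs : 3 / 20 ≤ s) (hs' : s ≤ 1 / 4) (ht' : t ≤ 7 / 125)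
    (hρ : 0 < ρ) (hρ' : ρ ≤ 29 / 400) (hη : 4 * ρ * s ≤ t)
    (hw : w.re = x) (hwi : w.im = t) (hζ : ζ.re = -(1 / 2) + s) (hζi : ζ.im = 4 * ρ * s)
    (hd : 3 / 100 ≤ s - x) :
    0 < Dm (4 * ρ) w ζ := by
  have e : 0 ≤ 4 * ρ * s := mul_nonneg (by linarith only [hρ]) (by linarith only [hs, hρ, hρ'])
  have e1 : x - s + 2 * s = x + s := by ring
  have e2 : t - 4 * ρ * s + 8 * (ρ * s) = t + 4 * ρ * s := by ring
  have e3 : 2 * s - (s - x) = x + s := by ring
  have e4 : 1 - (s - x) = x + 1 - s := by ring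
  have hf1 := D3_eq hw hwi hζ hζi (by linarith only [hx, hs, hρ, hρ']) (by linarith only [hx', hs', hρ, hρ']) (by linarith only [hρ, hρ', hd]) (by linarith only [hx, hs', hρ, hρ'])
  have h : chk [D2, cD, cT] 24
    [NumIs.V.of 10000 300 1500, NumIs.V.of 10000 0 560,
      NumIs.V.of 10000 1500 2500, NumIs.V.of 10000 0 725] = true := by
    decide +kernel
  obtain ⟨f, hf, hp⟩ := chk4 h (by norm_num) (x := s - x) (y := t - 4 * ρ * s) (z := s) (w := ρ)
    (by norm_num; linarith only [hd]) (by norm_num; linarith only [hx, hs']) (by norm_num; linarith only [hη]) (by norm_num; linarith only [ht', e])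
    (by norm_num; linarith only [hs]) (by norm_num; linarith only [hs']) (by norm_num; linarith only [hρ]) (by norm_num; linarith only [hρ'])
  simp only [List.mem_cons, List.not_mem_nil, or_false] at hf
  rcases hf with rfl | rfl | rfl
  · simp only [D2, DX, x1, x2, y1, y2, u2, e0, eT, eK, eS, eR, eH, E.val, NumIs.lkR] at hp
    push_cast at hp
    try simp only [div_one, sub_add_cancel, sub_sub_cancel, e1, e2, e3, e4] at hp
    linarith only [hf1, hp]
  · simp only [cD, x1, x2, y1, y2, u2, e0, eT, eK, eS, eR, eH, E.val, NumIs.lkR] at hp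
    push_cast at hp
    try simp only [div_one, sub_add_cancel, sub_sub_cancel, e1, e2, e3, e4] at hp
    linarith only [hx, hp]
  · simp only [cT, x1, x2, y1, y2, u2, e0, eT, eK, eS, eR, eH, E.val, NumIs.lkR] at hp
    push_cast at hp
    try simp only [div_one, sub_add_cancel, sub_sub_cancel, e1, e2, e3, e4] at hp
    linarith only [ht', hp]

theorem m4e (hx : 1 / 10 ≤ x) (hx' : x ≤ 27 / 100) (hs : 3 / 20 ≤ s) (hs' : s ≤ 1 / 4) (ht' : t ≤ 7 / 125)
    (hρ : 0 < ρ) (hρ' : ρ ≤ 29 / 400) (hη : 4 * ρ * s ≤ t)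
    (hw : w.re = x) (hwi : w.im = t) (hζ : ζ.re = -(1 / 2) + s) (hζi : ζ.im = 4 * ρ * s)
    (hd : 3 / 100 ≤ x - s) :
    0 < Dm (4 * ρ) w ζ := by
  have e : 0 ≤ 4 * ρ * s := mul_nonneg (by linarith only [hρ]) (by linarith only [hs, hρ, hρ'])
  have e1 : x - s + 2 * s = x + s := by ring
  have e2 : t - 4 * ρ * s + 8 * (ρ * s) = t + 4 * ρ * s := by ring
  have e3 : 2 * s - (s - x) = x + s := by ring
  have e4 : 1 - (s - x) = x + 1 - s := by ring
  have hf1 := D1_le hw hwi hζ hζi hρ.le (by linarith only [hs, hρ, hρ', hd]) (by linarith only [hx', hρ, hρ', hd]) (by linarith only [hρ, hρ', hd]) (by linarith only [hx', hs, hρ, hρ']) hη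
  have h : chk [D1, cB 27] 24
    [NumIs.V.of 10000 300 1200, NumIs.V.of 10000 0 560,
      NumIs.V.of 10000 1500 2500, NumIs.V.of 10000 0 725] = true := by
    decide +kernel
  obtain ⟨f, hf, hp⟩ := chk4 h (by norm_num) (x := x - s) (y := t - 4 * ρ * s) (z := s) (w := ρ)
    (by norm_num; linarith only [hd]) (by norm_num; linarith only [hx', hs]) (by norm_num; linarith only [hη]) (by norm_num; linarith only [ht', e])
    (by norm_num; linarith only [hs]) (by norm_num; linarith only [hx', hρ, hρ', hd]) (by norm_num; linarith only [hρ]) (by norm_num; linarith only [hρ'])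
  simp only [List.mem_cons, List.not_mem_nil, or_false] at hf
  rcases hf with rfl | rfl
  · simp only [D1, DX, x1, x2, y1, y2, u2, e0, eT, eK, eS, eR, eH, E.val, NumIs.lkR] at hp
    push_cast at hp
    try simp only [div_one, sub_add_cancel, sub_sub_cancel, e1, e2, e3, e4] at hp
    linarith only [hf1, hp]
  · simp only [cB, x1, x2, y1, y2, u2, e0, eT, eK, eS, eR, eH, E.val, NumIs.lkR] at hp
    push_cast at hp
    try simp only [div_one, sub_add_cancel, sub_sub_cancel, e1, e2, e3, e4] at hp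
    linarith only [hx', hp]

theorem m5ca (hx : 1 / 10 ≤ x) (hx' : x ≤ 27 / 100) (hs : 1 / 5 ≤ s) (hs' : s ≤ 1 / 4) (ht' : t ≤ 7 / 125)
    (hρ : 0 < ρ) (hρ' : ρ ≤ 209 / 2000) (hη : 4 * ρ * s ≤ t)
    (hd : x - s ≤ 3 / 100) (hd' : s - x ≤ 3 / 100) :
    0 < NumIs.lnA (x + s) (t + 4 * ρ * s) - 4 * ρ * NumIs.lnB (x + s) (t + 4 * ρ * s) := by
  have e : 0 ≤ 4 * ρ * s := mul_nonneg (by linarith only [hρ]) (by linarith only [hs, hρ, hρ'])
  have e1 : x - s + 2 * s = x + s := by ring
  have e2 : t - 4 * ρ * s + 8 * (ρ * s) = t + 4 * ρ * s := by ring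
  have e3 : 2 * s - (s - x) = x + s := by ring
  have e4 : 1 - (s - x) = x + 1 - s := by ring
  have h : chk [DX y1, cC, cB 27, cT] 24
    [NumIs.V.of 10000 (-300) 300, NumIs.V.of 10000 0 560,
      NumIs.V.of 10000 2000 2500, NumIs.V.of 10000 0 1045] = true := by
    decide +kernel
  obtain ⟨f, hf, hp⟩ := chk4 h (by norm_num) (x := x - s) (y := t - 4 * ρ * s) (z := s) (w := ρ)
    (by norm_num; linarith only [hd']) (by norm_num; linarith only [hd]) (by norm_num; linarith only [hη]) (by norm_num; linarith only [ht', e])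
    (by norm_num; linarith only [hs]) (by norm_num; linarith only [hs']) (by norm_num; linarith only [hρ]) (by norm_num; linarith only [hρ'])
  simp only [List.mem_cons, List.not_mem_nil, or_false] at hf
  rcases hf with rfl | rfl | rfl | rfl
  · simp only [DX, x1, x2, y1, y2, u2, e0, eT, eK, eS, eR, eH, E.val, NumIs.lkR] at hp
    push_cast at hp
    try simp only [div_one, sub_add_cancel, sub_sub_cancel, e1, e2, e3, e4] at hp
    linarith only [hp]
  · simp only [cC, x1, x2, y1, y2, u2, e0, eT, eK, eS, eR, eH, E.val, NumIs.lkR] at hp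
    push_cast at hp
    try simp only [div_one, sub_add_cancel, sub_sub_cancel, e1, e2, e3, e4] at hp
    linarith only [hs, hρ, hρ', hd', hp]
  · simp only [cB, x1, x2, y1, y2, u2, e0, eT, eK, eS, eR, eH, E.val, NumIs.lkR] at hp
    push_cast at hp
    try simp only [div_one, sub_add_cancel, sub_sub_cancel, e1, e2, e3, e4] at hp
    linarith only [hx', hp]
  · simp only [cT, x1, x2, y1, y2, u2, e0, eT, eK, eS, eR, eH, E.val, NumIs.lkR] at hp
    push_cast at hp
    try simp only [div_one, sub_add_cancel, sub_sub_cancel, e1, e2, e3, e4] at hp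
    linarith only [ht', hp]

theorem m5cb (hx : 1 / 10 ≤ x) (hx' : x ≤ 27 / 100) (hs : 1 / 5 ≤ s) (hs' : s ≤ 1 / 4) (ht' : t ≤ 7 / 125)
    (hρ : 0 < ρ) (hρ' : ρ ≤ 209 / 2000) (hη : 4 * ρ * s ≤ t)
    (hd : x - s ≤ 3 / 100) (hd' : s - x ≤ 3 / 100) :
    0 < NumIs.lnA (x + s) (t + 4 * ρ * s) - 4 * ρ * NumIs.lnB (x + s) (t + 4 * ρ * s) -
      (1 / 2 * Real.log (2 * (Real.cosh (2 * Real.pi * (t - 4 * ρ * s)) -
        Real.cos (Real.pi * (2 * (x - s)))) + 1 / 20) + 4 * ρ * Real.pi) := by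
  have e : 0 ≤ 4 * ρ * s := mul_nonneg (by linarith only [hρ]) (by linarith only [hs, hρ, hρ'])
  have e1 : x - s + 2 * s = x + s := by ring
  have e2 : t - 4 * ρ * s + 8 * (ρ * s) = t + 4 * ρ * s := by ring
  have e3 : 2 * s - (s - x) = x + s := by ring
  have e4 : 1 - (s - x) = x + 1 - s := by ring
  have h : chk [Dc, cC, cB 27, cT] 24
    [NumIs.V.of 10000 (-300) 300, NumIs.V.of 10000 0 560,
      NumIs.V.of 10000 2000 2500, NumIs.V.of 10000 0 1045] = true := by
    decide +kernel
  obtain ⟨f, hf, hp⟩ := chk4 h (by norm_num) (x := x - s) (y := t - 4 * ρ * s) (z := s) (w := ρ)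
    (by norm_num; linarith only [hd']) (by norm_num; linarith only [hd]) (by norm_num; linarith only [hη]) (by norm_num; linarith only [ht', e])
    (by norm_num; linarith only [hs]) (by norm_num; linarith only [hs']) (by norm_num; linarith only [hρ]) (by norm_num; linarith only [hρ'])
  simp only [List.mem_cons, List.not_mem_nil, or_false] at hf
  rcases hf with rfl | rfl | rfl | rfl
  · simp only [Dc, DX, x1, x2, y1, y2, u2, e0, eT, eK, eS, eR, eH, E.val, NumIs.lkR] at hp
    push_cast at hp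
    try simp only [div_one, sub_add_cancel, sub_sub_cancel, e1, e2, e3, e4] at hp
    linarith only [hp]
  · simp only [cC, x1, x2, y1, y2, u2, e0, eT, eK, eS, eR, eH, E.val, NumIs.lkR] at hp
    push_cast at hp
    try simp only [div_one, sub_add_cancel, sub_sub_cancel, e1, e2, e3, e4] at hp
    linarith only [hs, hρ, hρ', hd', hp]
  · simp only [cB, x1, x2, y1, y2, u2, e0, eT, eK, eS, eR, eH, E.val, NumIs.lkR] at hp
    push_cast at hp
    try simp only [div_one, sub_add_cancel, sub_sub_cancel, e1, e2, e3, e4] at hp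
    linarith only [hx', hp]
  · simp only [cT, x1, x2, y1, y2, u2, e0, eT, eK, eS, eR, eH, E.val, NumIs.lkR] at hp
    push_cast at hp
    try simp only [div_one, sub_add_cancel, sub_sub_cancel, e1, e2, e3, e4] at hp
    linarith only [ht', hp]

theorem m5d (hx : 1 / 10 ≤ x) (hx' : x ≤ 27 / 100) (hs : 1 / 5 ≤ s) (hs' : s ≤ 1 / 4) (ht' : t ≤ 7 / 125)
    (hρ : 0 < ρ) (hρ' : ρ ≤ 209 / 2000) (hη : 4 * ρ * s ≤ t)
    (hw : w.re = x) (hwi : w.im = t) (hζ : ζ.re = -(1 / 2) + s) (hζi : ζ.im = 4 * ρ * s)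
    (hd : 3 / 100 ≤ s - x) :
    0 < Dm (4 * ρ) w ζ := by
  have e : 0 ≤ 4 * ρ * s := mul_nonneg (by linarith only [hρ]) (by linarith only [hs, hρ, hρ'])
  have e1 : x - s + 2 * s = x + s := by ring
  have e2 : t - 4 * ρ * s + 8 * (ρ * s) = t + 4 * ρ * s := by ring
  have e3 : 2 * s - (s - x) = x + s := by ring
  have e4 : 1 - (s - x) = x + 1 - s := by ring
  have hf1 := D3_eq hw hwi hζ hζi (by linarith only [hx, hs, hρ, hρ']) (by linarith only [hx', hs', hρ, hρ']) (by linarith only [hρ, hρ', hd]) (by linarith only [hx, hs', hρ, hρ'])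
  have h : chk [D2, cD, cT] 24
    [NumIs.V.of 10000 300 1500, NumIs.V.of 10000 0 560,
      NumIs.V.of 10000 2000 2500, NumIs.V.of 10000 0 1045] = true := by
    decide +kernel
  obtain ⟨f, hf, hp⟩ := chk4 h (by norm_num) (x := s - x) (y := t - 4 * ρ * s) (z := s) (w := ρ)
    (by norm_num; linarith only [hd]) (by norm_num; linarith only [hx, hs']) (by norm_num; linarith only [hη]) (by norm_num; linarith only [ht', e])
    (by norm_num; linarith only [hs]) (by norm_num; linarith only [hs']) (by norm_num; linarith only [hρ]) (by norm_num; linarith only [hρ'])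
  simp only [List.mem_cons, List.not_mem_nil, or_false] at hf
  rcases hf with rfl | rfl | rfl
  · simp only [D2, DX, x1, x2, y1, y2, u2, e0, eT, eK, eS, eR, eH, E.val, NumIs.lkR] at hp
    push_cast at hp
    try simp only [div_one, sub_add_cancel, sub_sub_cancel, e1, e2, e3, e4] at hp
    linarith only [hf1, hp]
  · simp only [cD, x1, x2, y1, y2, u2, e0, eT, eK, eS, eR, eH, E.val, NumIs.lkR] at hp
    push_cast at hp
    try simp only [div_one, sub_add_cancel, sub_sub_cancel, e1, e2, e3, e4] at hp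
    linarith only [hx, hp]
  · simp only [cT, x1, x2, y1, y2, u2, e0, eT, eK, eS, eR, eH, E.val, NumIs.lkR] at hp
    push_cast at hp
    try simp only [div_one, sub_add_cancel, sub_sub_cancel, e1, e2, e3, e4] at hp
    linarith only [ht', hp]

theorem m5e (hx : 1 / 10 ≤ x) (hx' : x ≤ 27 / 100) (hs : 1 / 5 ≤ s) (hs' : s ≤ 1 / 4) (ht' : t ≤ 7 / 125)
    (hρ : 0 < ρ) (hρ' : ρ ≤ 209 / 2000) (hη : 4 * ρ * s ≤ t)
    (hw : w.re = x) (hwi : w.im = t) (hζ : ζ.re = -(1 / 2) + s) (hζi : ζ.im = 4 * ρ * s)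
    (hd : 3 / 100 ≤ x - s) :
    0 < Dm (4 * ρ) w ζ := by
  have e : 0 ≤ 4 * ρ * s := mul_nonneg (by linarith only [hρ]) (by linarith only [hs, hρ, hρ'])
  have e1 : x - s + 2 * s = x + s := by ring
  have e2 : t - 4 * ρ * s + 8 * (ρ * s) = t + 4 * ρ * s := by ring
  have e3 : 2 * s - (s - x) = x + s := by ring
  have e4 : 1 - (s - x) = x + 1 - s := by ring
  have hf1 := D1_le hw hwi hζ hζi hρ.le (by linarith only [hs, hρ, hρ', hd]) (by linarith only [hx', hρ, hρ', hd]) (by linarith only [hρ, hρ', hd]) (by linarith only [hx', hs, hρ, hρ']) hη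
  have h : chk [D1, cB 27] 24
    [NumIs.V.of 10000 300 700, NumIs.V.of 10000 0 560,
      NumIs.V.of 10000 2000 2500, NumIs.V.of 10000 0 1045] = true := by
    decide +kernel
  obtain ⟨f, hf, hp⟩ := chk4 h (by norm_num) (x := x - s) (y := t - 4 * ρ * s) (z := s) (w := ρ)
    (by norm_num; linarith only [hd]) (by norm_num; linarith only [hx', hs]) (by norm_num; linarith only [hη]) (by norm_num; linarith only [ht', e])
    (by norm_num; linarith only [hs]) (by norm_num; linarith only [hx', hρ, hρ', hd]) (by norm_num; linarith only [hρ]) (by norm_num; linarith only [hρ'])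
  simp only [List.mem_cons, List.not_mem_nil, or_false] at hf
  rcases hf with rfl | rfl
  · simp only [D1, DX, x1, x2, y1, y2, u2, e0, eT, eK, eS, eR, eH, E.val, NumIs.lkR] at hp
    push_cast at hp
    try simp only [div_one, sub_add_cancel, sub_sub_cancel, e1, e2, e3, e4] at hp
    linarith only [hf1, hp]
  · simp only [cB, x1, x2, y1, y2, u2, e0, eT, eK, eS, eR, eH, E.val, NumIs.lkR] at hp
    push_cast at hp
    try simp only [div_one, sub_add_cancel, sub_sub_cancel, e1, e2, e3, e4] at hp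
    linarith only [hx', hp]

end GE

end Pool.Agent.Work.MP_b30479_gtS.G2
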