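import Pool.Agent.Work.MP_b30479_gt.TBS.G2.RngA
import Pool.Agent.Work.MP_b30479_gt.TBS.NumU.Node
import Pool.Agent.Work.MP_b30479_gt.TBS.G2.MRBase

section

/-!
# Left ramps of the hinges of a ring: definitions

`w = x + i m x` is on the left ramp (`m = T / cl`), `ζ = σ + i η` is the ring variable.
Flat part: `-1/4 ≤ σ ≤ 0`, `η = ρ`.  Ramp: `σ = -1/2 + s`, `η = 4ρs`.
`b = 4`: `ρ ≤ .1045`; `b ≥ 5`: `ρ ≤ .0725`.
First order condition of the ring variable on the ramp: `FP` (a hinge of positive height or `≤ 1/2`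
at the other side), `FX` (other hinge `> 1/2`).
-/

namespace Pool.Agent.Work.MP_b30479_gtS.G2

open VOL

namespace LR

/-- `w` on the left ramp with slope `m` -/
structure W (x m : ℝ) (w : ℂ) : Prop where
  re : w.re = x
  im : w.im = m * x
  pos : 0 < x

/-- `ζ` on the flat part -/
structure ZF (ζ : ℂ) : Prop where
  lo : -(1 / 4) ≤ ζ.re
  hi : ζ.re ≤ 0
  pos : 0 < ζ.im
  cap : ζ.im ≤ 1045 / 10000

/-- `ζ` on the ramp -/
structure ZR (s ρ : ℝ) (ζ : ℂ) : Prop where
  re : ζ.re = -(1 / 2) + s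
  im : ζ.im = 4 * ρ * s
  pos : 0 < ρ
  lo : 1 / 16 ≤ s
  hi : s ≤ 1 / 4

/-- bound for the other hinge -/
noncomputable def gE (s : ℝ) : ℝ := if s < 12 / 100 then 1 else 107 / 100 - 17 * s ^ 2

def FP (b s ρ : ℝ) (w ζ : ℂ) : Prop :=
  -(4 * Real.pi * ρ * (2 - b * (1 - 4 * s))) + Dm (4 * ρ) w ζ ≤ 4 * Real.pi * ρ * gE s

def FX (b s ρ : ℝ) (w ζ : ℂ) : Prop :=
  -(4 * Real.pi * ρ * (2 - b * (1 - 4 * s))) + Dm (4 * ρ) w ζ ≤ 45 / 10 * s

/-- lower bounds, all rounds with the other hinge `≤ 1/2` -/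
noncomputable def eC (x m : ℝ) : ℝ :=
  if -(625 / 1000) ≤ m then min (35 / 100) (1064 / 1000 - 74 / 10 * x)
  else min (3 / 10) (84 / 100 - 54 / 10 * x)

/-- first round -/
noncomputable def eL0 (x m : ℝ) : ℝ :=
  if -(625 / 1000) ≤ m then min (35 / 100) (85 / 100 - 8 * x) else 27 / 100 - 26 / 10 * x

end LR

end Pool.Agent.Work.MP_b30479_gtS.G2

end

section

/-!
# Left ramps of the hinges of a ring, heights `≤ 0`, shift `π / 2`: the expressions are lower bounds
-/

namespace Pool.Agent.Work.MP_b30479_gtS.G2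

open VOL NumUs

namespace LRA

open LR

theorem lnA_cosh (a b : ℝ) : NumIs.lnA a b =
    Real.log (2 * Real.cosh (2 * Real.pi * b) - 2 * Real.cos (2 * Real.pi * a)) / 2 := by
  unfold NumIs.lnA
  have h := Num.den_eq ⟨a, b⟩
  unfold NumIs.MM at h
  simp only at h
  congr 2
  linarith only [h]

theorem LL_lnA' (u : ℂ) : LL u = NumIs.lnA u.re u.im := by
  rw [LL_eq', lnA_cosh]

/-- `LL` increases along rays -/
theorem lnA_ray {x x0 m : ℝ} (h0 : 0 < x) (h1 : x ≤ x0) (h2 : x0 ≤ 1 / 2) :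
    NumIs.lnA x (m * x) ≤ NumIs.lnA x0 (m * x0) := by
  have hp := Real.pi_pos
  unfold NumIs.lnA
  have s0 : 0 < Real.sin (Real.pi * x) :=
    Real.sin_pos_of_pos_of_lt_pi (by positivity) (by nlinarith only [hp, h1, h2])
  have s1 : Real.sin (Real.pi * x) ≤ Real.sin (Real.pi * x0) := by
    apply Real.sin_le_sin_of_le_of_le_pi_div_two <;> nlinarith only [hp, h0, h2, h1]
  have s2 : |Real.sinh (Real.pi * (m * x))| ≤ |Real.sinh (Real.pi * (m * x0))| := by
    rw [Real.abs_sinh, Real.abs_sinh]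
    apply Real.sinh_le_sinh.2
    rw [abs_mul, abs_mul, abs_mul, abs_mul, abs_of_pos h0, abs_of_pos (h0.trans_le h1),
      abs_of_pos hp]
    gcongr
  have s3 := sq_le_sq.2 s2
  apply div_le_div_of_nonneg_right _ (by norm_num)
  apply Real.log_le_log (by positivity)
  nlinarith only [s3, s0, s1]

theorem lnB_flip (d h : ℝ) : NumIs.lnB (1 - d) (-h) = NumIs.lnB d h := by
  unfold NumIs.lnB
  rw [show Real.pi * (1 - d) = Real.pi - Real.pi * d by ring, Real.cos_pi_sub, Real.sin_pi_sub,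
    mul_neg, Real.sinh_neg, Real.cosh_neg, neg_mul_neg]

theorem lnB_odd (d h : ℝ) : NumIs.lnB (-d) h = -NumIs.lnB d h := by
  unfold NumIs.lnB
  rw [mul_neg, Real.cos_neg, Real.sin_neg, neg_mul, div_neg, Real.arctan_neg]

theorem lnB_odd' (d h : ℝ) : NumIs.lnB d (-h) = -NumIs.lnB d h := by
  unfold NumIs.lnB
  rw [mul_neg, Real.sinh_neg, Real.cosh_neg, mul_neg, neg_div, Real.arctan_neg]

/-- `YY` near `1`, `d < 1/2`: the three cases -/
theorem YY_cases {v : ℂ} {d h : ℝ} (hre : v.re = 1 - d) (him : v.im = -h) (h0 : 0 < h)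
    (hd : |d| < 1 / 2) : (0 < d ∧ YY v = -NumIs.lnB d h) ∨ (d = 0 ∧ YY v = -(Real.pi / 2)) ∨
      (d < 0 ∧ YY v = -Real.pi - NumIs.lnB d h) := by
  rw [abs_lt] at hd
  rcases lt_trichotomy d 0 with hd0 | hd0 | hd0
  · right; right
    refine ⟨hd0, ?_⟩
    have hs : v - 1 ∈ strip := by
      constructor
      · simp [hre]
        linarith only [hd0]
      · simp [hre]
        linarith only [hd, hd0]
    have e := YY_add_one (v - 1)
    rw [sub_add_cancel, if_neg (by simp [him]; linarith only [h0]), if_pos (by simp [him]; linarith only [h0]),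
      Num.YY_lnB hs] at e
    have e1 : (v - 1).re = -d := by simp [hre]
    have e2 : (v - 1).im = -h := by simp [him]
    rw [e1, e2, lnB_odd, lnB_odd'] at e
    linarith only [e]
  · right; left
    refine ⟨hd0, ?_⟩
    rw [YY_neg (by rw [him]; linarith only [h0]), hre, him, hd0, neg_neg, sub_zero, Tr_one h0]
    ring
  · left
    refine ⟨hd0, ?_⟩
    have hs : v ∈ strip := by
      constructor
      · rw [hre]; linarith only [hd, hd0]
      · rw [hre]; linarith only [hd0]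
    rw [Num.YY_lnB hs, hre, him, lnB_flip]

theorem YY_le_form {v : ℂ} {d h : ℝ} (hre : v.re = 1 - d) (him : v.im = -h) (h0 : 0 < h)
    (hd : |d| < 1 / 2) : YY v ≤ -NumIs.lnB d h := by
  have hp := Real.pi_pos
  rcases YY_cases hre him h0 hd with ⟨_, h⟩ | ⟨h1, h⟩ | ⟨_, h⟩
  · exact h.le
  · rw [h, h1]
    unfold NumIs.lnB
    rw [mul_zero, Real.sin_zero, zero_mul, div_zero, Real.arctan_zero]
    linarith only [hp]
  · rw [h]
    linarith only [hp]

theorem YY_eq_form {v : ℂ} {d h : ℝ} (hre : v.re = 1 - d) (him : v.im = -h) (h0 : 0 < h)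
    (hd : |d| < 1 / 2) : YY v = -(Real.pi / 2 + Real.arctan (Real.sin (Real.pi * -d) *
      Real.cosh (Real.pi * h) * (Real.cos (Real.pi * -d) * Real.sinh (Real.pi * h))⁻¹)) := by
  have hp := Real.pi_pos
  have hd' := abs_lt.1 hd
  have hc : 0 < Real.cos (Real.pi * d) := by
    apply Real.cos_pos_of_mem_Ioo
    constructor <;> nlinarith only [hp, hd', hd'.1, hd'.2]
  have hs : 0 < Real.sinh (Real.pi * h) := Real.sinh_pos_iff.2 (by positivity)
  have hch := Real.cosh_pos (Real.pi * h)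
  rw [mul_neg, Real.sin_neg, Real.cos_neg]
  rcases YY_cases hre him h0 hd with ⟨h1, e⟩ | ⟨h1, e⟩ | ⟨h1, e⟩
  · have hsin : 0 < Real.sin (Real.pi * d) :=
      Real.sin_pos_of_pos_of_lt_pi (by positivity) (by nlinarith only [hp, hd', hd'.2])
    rw [e]
    unfold NumIs.lnB
    set A := Real.sin (Real.pi * d) * Real.cosh (Real.pi * h) with hA
    set B := Real.cos (Real.pi * d) * Real.sinh (Real.pi * h) with hB
    have hAp : 0 < A := by positivity
    have hBp : 0 < B := by positivity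
    have e1 : B / A = (A / B)⁻¹ := by rw [inv_div]
    rw [e1, Real.arctan_inv_of_pos (by positivity), neg_mul, neg_mul, Real.arctan_neg,
      ← div_eq_mul_inv]
    ring
  · rw [e, h1, mul_zero, Real.sin_zero, neg_zero, zero_mul, zero_mul, Real.arctan_zero, add_zero]
  · have hsin : 0 < Real.sin (Real.pi * -d) :=
      Real.sin_pos_of_pos_of_lt_pi (by nlinarith only [hp, h1]) (by nlinarith only [hp, hd', hd'.1])
    rw [mul_neg, Real.sin_neg] at hsin
    rw [e]
    unfold NumIs.lnB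
    set A := -Real.sin (Real.pi * d) * Real.cosh (Real.pi * h) with hA
    set B := Real.cos (Real.pi * d) * Real.sinh (Real.pi * h) with hB
    have hAp : 0 < A := by positivity
    have hBp : 0 < B := by positivity
    have e1 : B / (Real.sin (Real.pi * d) * Real.cosh (Real.pi * h)) = -(A / B)⁻¹ := by
      rw [hA, inv_div, neg_mul, div_neg, neg_neg]
    rw [e1, Real.arctan_neg, Real.arctan_inv_of_pos (by positivity), ← div_eq_mul_inv]
    ring

/-! ### the values at a point -/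

variable {m x s ρ : ℝ} {w ζ : ℂ}

/-- the numbers which occur -/
structure PV (x m s ρ : ℝ) (w ζ : ℂ) (LU YU LV YV LW YW : ℝ) : Prop where
  D : S4 m w ζ = LU + LV - 2 * LW + m * (YU + YV - 2 * YW)
  F : Dm (4 * ρ) w ζ = LU + 4 * ρ * YU - (LV + 4 * ρ * YV)
  lu : aLu.val [x, -m, s, ρ] = LU
  yu : aYu.val [x, -m, s, ρ] = YU
  lw : aLw.val [x, -m, s, ρ] = LW
  yw : aYw.val [x, -m, s, ρ] = YW
  lv1 : aLv1.val [x, -m, s, ρ] = LV
  lv2 : aLv2.val [x, -m, s, ρ] = LV
  yv1 : YV ≤ aYv1.val [x, -m, s, ρ]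
  yv2 : aYv2.val [x, -m, s, ρ] = YV
  yv : YV ≤ 0
  yw0 : 0 ≤ YW

theorem pv (hw : W x m w) (hz : ZR s ρ ζ) (hm : m ≤ 0) (hx : x ≤ 13 / 100) :
    PV x m s ρ w ζ (LL (w + 1 / 2 + ζ)) (YY (w + 1 / 2 + ζ)) (LL (w + 1 / 2 - ζ))
      (YY (w + 1 / 2 - ζ)) (LL w) (YY w) := by
  have hp := Real.pi_pos
  have x0 := hw.pos
  have s0 := hz.lo
  have s1 := hz.hi
  have r0 := hz.pos
  have ure : (w + 1 / 2 + ζ).re = x + s := by simp [hw.re, hz.re]
  have uim : (w + 1 / 2 + ζ).im = m * x + 4 * ρ * s := by simp [hw.im, hz.im]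
  have vre : (w + 1 / 2 - ζ).re = 1 - (s - x) := by simp [hw.re, hz.re]; ring
  have vim : (w + 1 / 2 - ζ).im = -(4 * ρ * s - m * x) := by simp [hw.im, hz.im]
  have hpos : 0 < 4 * ρ * s - m * x := by
    have h1 : 0 < 4 * ρ * s := by positivity
    have h2 : m * x ≤ 0 := mul_nonpos_of_nonpos_of_nonneg hm x0.le
    linarith only [h1, h2]
  have hd : |s - x| < 1 / 2 := by
    rw [abs_lt]
    constructor <;> linarith only [hx, x0, s0, s1]
  have us : w + 1 / 2 + ζ ∈ strip := by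
    constructor
    · rw [ure]; linarith only [hx, x0, s0]
    · rw [ure]; linarith only [hx, x0, s1]
  have ws : w ∈ strip := by
    constructor
    · rw [hw.re]; linarith only [x0]
    · rw [hw.re]; linarith only [hx, x0]
  have tv : aT.val [x, -m, s, ρ] = m * x := by
    simp only [aT, E.val, NumIs.lkR]
    ring
  have hv : aH.val [x, -m, s, ρ] = 4 * ρ * s := by
    simp only [aH, E.val, NumIs.lkR]
    push_cast
    ring
  refine ⟨rfl, ?_, ?_, ?_, ?_, ?_, ?_, ?_, ?_, ?_, ?_, ?_⟩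
  · unfold Dm Dq
    ring
  · rw [LL_lnA', ure, uim]
    simp only [aLu, E.val, tv, hv, NumIs.lkR]
  · rw [Num.YY_lnB us, ure, uim]
    simp only [aYu, E.val, tv, hv, NumIs.lkR]
  · rw [LL_lnA', hw.re, hw.im]
    simp only [aLw, E.val, tv, NumIs.lkR]
  · rw [Num.YY_lnB ws, hw.re, hw.im]
    simp only [aYw, E.val, tv, NumIs.lkR]
  · rw [LL_lnA', vre, vim]
    simp only [aLv1, E.val, tv, hv, NumIs.lkR]
    rw [lnA_cosh, lnA_cosh, mul_neg (2 * Real.pi) (4 * ρ * s - m * x), Real.cosh_neg,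
      show 2 * Real.pi * (1 - (s - x)) = 2 * Real.pi - 2 * Real.pi * (s - x) by ring,
      Real.cos_two_pi_sub]
  · rw [LL_eq', vre, vim, mul_neg (2 * Real.pi) (4 * ρ * s - m * x), Real.cosh_neg,
      show 2 * Real.pi * (1 - (s - x)) = 2 * Real.pi - 2 * Real.pi * (s - x) by ring,
      Real.cos_two_pi_sub]
    simp only [aLv2, E.val, tv, hv, NumIs.lkR]
    push_cast
    have e1 : Real.cos (Real.pi * (2 / 1 * (x - s))) = Real.cos (2 * Real.pi * (s - x)) := by
      rw [← Real.cos_neg]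
      congr 1
      ring
    rw [e1]
    simp only [div_one]
    ring
  · have h1 := YY_le_form vre vim hpos hd
    refine h1.trans (le_of_eq ?_)
    simp only [aYv1, E.val, tv, hv, NumIs.lkR]
  · rw [YY_eq_form vre vim hpos hd]
    simp only [aYv2, E.val, tv, hv, NumIs.lkR]
    push_cast
    rw [neg_sub]
    ring
  · rw [YY_neg (by rw [vim]; linarith only [hpos])]
    have := half_le_Tr (s := -(w + 1 / 2 - ζ).im) (x := (w + 1 / 2 - ζ).re)
      (by rw [vim]; linarith only [hpos]) (by rw [vre]; linarith only [hx, x0, s1])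
    linarith only [this]
  · have him : w.im ≤ 0 := by
      rw [hw.im]
      exact mul_nonpos_of_nonpos_of_nonneg hm x0.le
    rcases him.lt_or_eq with h | h
    · rw [YY_neg h]
      have := Tr_le_half (s := -w.im) (x := w.re) (by linarith only [h]) (by rw [hw.re]; linarith only [hx, x0])
      linarith only [this]
    · rw [YY_zero h]

/-- **The list `la`.** -/
theorem la_key {R : E} {k t : ℤ} (hw : W x m w) (hz : ZR s ρ ζ) (hm : m ≤ 0) (hx : x ≤ 13 / 100)
    (ht : -((t : ℝ) / 10000) ≤ m * x) (hF : Dm (4 * ρ) w ζ ≤ R.val [x, -m, s, ρ])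
    (h : ∃ e ∈ la R k t, 0 < e.val [x, -m, s, ρ]) :
    (k : ℝ) / 1000 ≤ S4 m w ζ + Real.pi / 2 * m := by
  obtain ⟨e, he, hp⟩ := h
  have P := pv hw hz hm hx
  obtain ⟨hD, hF', lu, yu, lw, yw, lv1, lv2, yv1, yv2, yv, yw0⟩ := P
  rw [hF'] at hF
  rw [hD]
  set LU := LL (w + 1 / 2 + ζ)
  set YU := YY (w + 1 / 2 + ζ)
  set LV := LL (w + 1 / 2 - ζ)
  set YV := YY (w + 1 / 2 - ζ)
  set LW := LL w
  set YW := YY w
  have r0 := hz.pos
  have c1 : m * (aYv1.val [x, -m, s, ρ] - YV) ≤ 0 :=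
    mul_nonpos_of_nonpos_of_nonneg hm (by linarith only [yv1])
  have c2 : 0 ≤ ρ * (aYv1.val [x, -m, s, ρ] - YV) := mul_nonneg r0.le (by linarith only [yv1])
  have c3 : 0 ≤ m * YV := mul_nonneg_of_nonpos_of_nonpos hm yv
  have c4 : ρ * YV ≤ 0 := mul_nonpos_of_nonneg_of_nonpos r0.le yv
  simp only [la, List.mem_cons, List.not_mem_nil, or_false] at he
  rcases he with rfl | rfl | rfl | rfl | rfl | rfl
  · simp only [eG, eG0, E.val, lu, yu, lw, yw, NumIs.lkR] at hp
    push_cast at hp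
    simp only [div_one] at hp
    nlinarith only [hF, c1, c2, hp]
  · simp only [eDD, E.val, lu, yu, lw, yw, lv1, NumIs.lkR] at hp
    push_cast at hp
    simp only [div_one] at hp
    nlinarith only [c1, hp]
  · simp only [eG, eG0, E.val, lu, yu, lw, yw, yv2, NumIs.lkR] at hp
    push_cast at hp
    simp only [div_one] at hp
    nlinarith only [hF, hp]
  · simp only [eDD, E.val, lu, yu, lw, yw, lv2, yv2, NumIs.lkR] at hp
    push_cast at hp
    simp only [div_one] at hp
    nlinarith only [hp]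
  · simp only [eG0, E.val, lu, yu, lw, yw, NumIs.lkR] at hp
    push_cast at hp
    simp only [div_one] at hp
    nlinarith only [hF, c3, c4, hp]
  · simp only [eT, E.val, NumIs.lkR] at hp
    push_cast at hp
    linarith only [ht, hp]

/-- **The list `ls`.** -/
theorem ls_key {R : E} {n k : ℤ} (hw : W x m w) (hz : ZR s ρ ζ) (hm : m ≤ 0)
    (hx : x ≤ (n : ℝ) / 1000) (hn : (n : ℝ) ≤ 130) (hF : Dm (4 * ρ) w ζ ≤ R.val [x, -m, s, ρ])
    (h : ∃ e ∈ ls n R k, 0 < e.val [x, -m, s, ρ]) :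
    (k : ℝ) / 1000 ≤ S4 m w ζ + Real.pi / 2 * m := by
  obtain ⟨e, he, hp⟩ := h
  have P := pv hw hz hm (by linarith only [hx, hn])
  obtain ⟨hD, hF', lu, yu, lw, yw, lv1, lv2, yv1, yv2, yv, yw0⟩ := P
  have hray := lnA_ray (m := m) hw.pos hx (by linarith only [hn])
  have e1 : NumIs.lnA x (m * x) = LL w := by rw [LL_lnA', hw.re, hw.im]
  have e2 : (aLw0 n).val [x, -m, s, ρ] = NumIs.lnA ((n : ℝ) / 1000) (m * ((n : ℝ) / 1000)) := by
    simp only [aLw0, E.val, NumIs.lkR]
    push_cast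
    rw [neg_mul, neg_neg]
  rw [e1, ← e2] at hray
  rw [hF'] at hF
  rw [hD]
  set LU := LL (w + 1 / 2 + ζ)
  set YU := YY (w + 1 / 2 + ζ)
  set LV := LL (w + 1 / 2 - ζ)
  set YV := YY (w + 1 / 2 - ζ)
  set LW := LL w
  set YW := YY w
  have r0 := hz.pos
  have c1 : m * (aYv1.val [x, -m, s, ρ] - YV) ≤ 0 :=
    mul_nonpos_of_nonpos_of_nonneg hm (by linarith only [yv1])
  have c2 : 0 ≤ ρ * (aYv1.val [x, -m, s, ρ] - YV) := mul_nonneg r0.le (by linarith only [yv1])
  have c5 : m * YW ≤ 0 := mul_nonpos_of_nonpos_of_nonneg hm yw0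
  simp only [ls, List.mem_cons, List.not_mem_nil, or_false] at he
  rcases he with rfl | rfl
  · simp only [eGS, E.val, lu, yu, NumIs.lkR] at hp
    push_cast at hp
    simp only [div_one] at hp
    nlinarith only [hF, hray, c1, c2, c5, hp]
  · simp only [eDS, E.val, lu, yu, lv1, NumIs.lkR] at hp
    push_cast at hp
    simp only [div_one] at hp
    nlinarith only [hray, c1, c5, hp]

end LRA

end Pool.Agent.Work.MP_b30479_gtS.G2

end

section

/-!
# Left ramps of the ring|ring hinges, heights `≥ 0`: expressions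

`D` is the side, `F ≤ 0` the first order condition of the ring variable; in `D + F` the logarithm
`LL (w + 1/2 - ζ)` cancels.  Variables: `x`, `m`, `s`, `ρ`.  `v = w + 1/2 - ζ`,
`Re v = 1 - (s - x)`, `Im v = m x - 4 ρ s`, `c = m - 4 ρ`.
-/

namespace Pool.Agent.Work.MP_b30479_gtS.G2

open VOL NumUs

namespace LRC

open LR

section
open NumUs.E

def cT : E := mul (var 1) (var 0)
def cH : E := mul (mul (q 4 1) (var 3)) (var 2)
def cLu : E := lnA (add (var 0) (var 2)) (add cT cH)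
def cYu : E := neg (lnB (add (var 0) (var 2)) (add cT cH))
def cLv : E := lnA (sub (var 2) (var 0)) (sub cT cH)
def cB : E := lnB (sub (var 2) (var 0)) (sub cT cH)
def cLw : E := lnA (var 0) cT
def cYw : E := neg (lnB (var 0) cT)
def cLw0 (n : ℤ) : E := lnA (q n 1000) (mul (var 1) (q n 1000))
/-- `c = m - 4 ρ` -/
def cc : E := sub (var 1) (mul (q 4 1) (var 3))
/-- `D + F` without `c YY v` -/
def cG0 (R : E) : E := sub (sub (add (mul (q 2 1) (sub cLu cLw))
  (mul (add (var 1) (mul (q 4 1) (var 3))) cYu)) (mul (var 1) (mul (q 2 1) cYw))) R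
def cG (R yv : E) : E := add (cG0 R) (mul cc yv)
def cD (yv : E) : E := add (sub (add cLu cLv) (mul (q 2 1) cLw))
  (mul (var 1) (sub (add cYu yv) (mul (q 2 1) cYw)))
def cD0 : E := add (sub (add cLu cLv) (mul (q 2 1) cLw))
  (mul (var 1) (sub cYu (mul (q 2 1) cYw)))
def sG0 (n : ℤ) (R : E) : E := sub (add (mul (q 2 1) (sub cLu (cLw0 n)))
  (mul (add (var 1) (mul (q 4 1) (var 3))) cYu)) R
def sG (n : ℤ) (R yv : E) : E := add (sG0 n R) (mul cc yv)
def sD (n : ℤ) (yv : E) : E := add (sub (add cLu cLv) (mul (q 2 1) (cLw0 n)))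
  (mul (var 1) (add cYu yv))
def hb (b : ℤ) : E := sub (q 2 1) (mul (q b 1) (sub (q 1 1) (mul (q 4 1) (var 2))))
def gg1 : E := q 1 1
def gg2 : E := sub (q 107 100) (mul (q 17 1) (sq (var 2)))
def RG (g : E) (b : ℤ) : E := mul (mul (mul (q 4 1) E.pi) (var 3)) (add (hb b) g)
def RX (b : ℤ) : E := add (mul (mul (mul (q 4 1) E.pi) (var 3)) (hb b)) (mul (q 45 10) (var 2))
def ehp : E := mul (q 1 2) E.pi
/-- `Im v` -/
def iv : E := sub cT cH
/-- `Im v ≤ 0`, `c ≤ 0`, `x ≤ s` -/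
def l1a (R : E) : List E := [cG R cB, cG0 R, cD cB, iv, cc, sub (var 0) (var 2)]
/-- `Im v ≤ 0`, `c ≤ 0`, `s ≤ x` -/
def l1c (R : E) : List E := [cG R cB, cG0 R, cD (neg E.pi), iv, cc, sub (var 2) (var 0)]
/-- `Im v ≤ 0`, `0 ≤ c` -/
def l1b (R : E) : List E := [cG R cB, cG R (neg ehp), cD cB, iv, neg cc, sub (var 0) (var 2)]
/-- `0 ≤ Im v`, `0 ≤ c` -/
def l2 (R : E) : List E := [cG R cB, cG0 R, cD cB, cD0, neg iv, neg cc]
/-- `0 ≤ Im v`, `c ≤ 0` -/
def l3 (R : E) : List E := [cG R E.pi, cD0, neg iv, cc, sub (var 2) (var 0)]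
/-- `Im v ≤ 0`, small `x` -/
def s1 (n : ℤ) (R : E) : List E := [sG n R cB, sD n cB, iv]
/-- `0 ≤ Im v`, small `x` -/
def s2 (n : ℤ) (R : E) : List E := [sG n R cB, sG0 n R, sD n cB, neg iv, neg cc]

def fLu : E := lnA (sub (add (var 0) (q 1 2)) (var 2)) (add cT (var 3))
def fYu : E := neg (lnB (sub (add (var 0) (q 1 2)) (var 2)) (add cT (var 3)))
def fLv : E := lnA (add (add (var 0) (q 1 2)) (var 2)) (sub cT (var 3))
def fYv : E := neg (lnB (add (add (var 0) (q 1 2)) (var 2)) (sub cT (var 3)))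
/-- flat part -/
def fD : E := add (sub (add fLu fLv) (mul (q 2 1) cLw))
  (mul (var 1) (sub (add fYu fYv) (mul (q 2 1) cYw)))
def fS (n : ℤ) : E := add (sub (add fLu fLv) (mul (q 2 1) (cLw0 n))) (mul (var 1) (add fYu fYv))

end

variable {m x s ρ : ℝ} {w ζ : ℂ}

theorem lnB_nonneg {x t : ℝ} (h0 : 0 < x) (h1 : x ≤ 1 / 2) (h2 : 0 ≤ t) : 0 ≤ NumIs.lnB x t := by
  have hp := Real.pi_pos
  unfold NumIs.lnB
  rw [Real.arctan_nonneg]
  apply div_nonneg
  · apply mul_nonneg
    · apply Real.cos_nonneg_of_neg_pi_div_two_le_of_le <;> nlinarith only [hp, h0, h1]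
    · exact Real.sinh_nonneg_iff.2 (by positivity)
  · apply mul_nonneg
    · exact (Real.sin_pos_of_pos_of_lt_pi (by positivity) (by nlinarith only [hp, h1])).le
    · exact (Real.cosh_pos _).le

/-- what is known about `YY v` near `Re v = 1` -/
theorem YY_neg_im {v : ℂ} {d h : ℝ} (hre : v.re = 1 - d) (him : v.im = h) (h0 : h ≤ 0)
    (hd : |d| < 1 / 2) : YY v ≤ NumIs.lnB d h ∧ YY v ≤ 0 ∧ (0 < d → YY v = NumIs.lnB d h) := by
  have hd' := abs_lt.1 hd
  rcases h0.lt_or_eq with h1 | h1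
  · have e := LRA.YY_le_form (v := v) (d := d) (h := -h) hre (by rw [him]; ring) (by linarith only [h1]) hd
    rw [LRA.lnB_odd', neg_neg] at e
    refine ⟨e, ?_, ?_⟩
    · rw [YY_neg (by rw [him]; linarith only [h1])]
      have := half_le_Tr (s := -v.im) (x := v.re) (by rw [him]; linarith only [h1]) (by rw [hre]; linarith only [hd'])
      linarith only [this]
    · intro h3
      rcases LRA.YY_cases (v := v) (d := d) (h := -h) hre (by rw [him]; ring) (by linarith only [h1]) hd with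
        ⟨_, h4⟩ | ⟨h4, _⟩ | ⟨h4, _⟩
      · rw [h4, LRA.lnB_odd', neg_neg]
      · linarith only [h3, h4]
      · linarith only [h3, h4]
  · have hz : YY v = 0 := YY_zero (by rw [him, h1])
    have hl : NumIs.lnB d h = 0 := by
      rw [h1]
      unfold NumIs.lnB
      simp
    rw [hz, hl]
    exact ⟨le_rfl, le_rfl, fun _ => rfl⟩

theorem YY_pos_im {v : ℂ} {d h : ℝ} (hre : v.re = 1 - d) (him : v.im = h) (h0 : 0 ≤ h)
    (hd : |d| < 1 / 2) : NumIs.lnB d h ≤ YY v ∧ 0 ≤ YY v := by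
  obtain ⟨h1, h2, -⟩ := YY_neg_im (v := starRingEnd ℂ v) (d := d) (h := -h) (by simpa using hre)
    (by simp [him]) (by linarith only [h0]) hd
  rw [YY_conj, LRA.lnB_odd'] at h1
  rw [YY_conj] at h2
  constructor <;> linarith only [h1, h2]

/-- the numbers which occur -/
structure PV (x m s ρ : ℝ) (w ζ : ℂ) (LU YU LV YV LW YW : ℝ) : Prop where
  D : S4 m w ζ = LU + LV - 2 * LW + m * (YU + YV - 2 * YW)
  F : Dm (4 * ρ) w ζ = LU + 4 * ρ * YU - (LV + 4 * ρ * YV)
  lu : cLu.val [x, m, s, ρ] = LU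
  yu : cYu.val [x, m, s, ρ] = YU
  lw : cLw.val [x, m, s, ρ] = LW
  yw : cYw.val [x, m, s, ρ] = YW
  lv : cLv.val [x, m, s, ρ] = LV
  yn : m * x - 4 * ρ * s ≤ 0 → YV ≤ cB.val [x, m, s, ρ] ∧ YV ≤ 0 ∧
    (x < s → YV = cB.val [x, m, s, ρ])
  yp : 0 ≤ m * x - 4 * ρ * s → cB.val [x, m, s, ρ] ≤ YV ∧ 0 ≤ YV
  ypi : |YV| ≤ Real.pi
  yw0 : YW ≤ 0
  yb : -(Real.pi / 2) ≤ cB.val [x, m, s, ρ]

theorem pv (hw : W x m w) (hz : ZR s ρ ζ) (hm : 0 ≤ m) (hx : x ≤ 1 / 10) :
    PV x m s ρ w ζ (LL (w + 1 / 2 + ζ)) (YY (w + 1 / 2 + ζ)) (LL (w + 1 / 2 - ζ))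
      (YY (w + 1 / 2 - ζ)) (LL w) (YY w) := by
  have hp := Real.pi_pos
  have x0 := hw.pos
  have s0 := hz.lo
  have s1 := hz.hi
  have r0 := hz.pos
  have ure : (w + 1 / 2 + ζ).re = x + s := by simp [hw.re, hz.re]
  have uim : (w + 1 / 2 + ζ).im = m * x + 4 * ρ * s := by simp [hw.im, hz.im]
  have vre : (w + 1 / 2 - ζ).re = 1 - (s - x) := by simp [hw.re, hz.re]; ring
  have vim : (w + 1 / 2 - ζ).im = m * x - 4 * ρ * s := by simp [hw.im, hz.im]
  have hd : |s - x| < 1 / 2 := by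
    rw [abs_lt]
    constructor <;> linarith only [hx, x0, s0, s1]
  have us : w + 1 / 2 + ζ ∈ strip := by
    constructor
    · rw [ure]; linarith only [hx, x0, s0]
    · rw [ure]; linarith only [hx, x0, s1]
  have ws : w ∈ strip := by
    constructor
    · rw [hw.re]; linarith only [x0]
    · rw [hw.re]; linarith only [hx, x0]
  have tv : cT.val [x, m, s, ρ] = m * x := by
    simp only [cT, E.val, NumIs.lkR]
  have hv : cH.val [x, m, s, ρ] = 4 * ρ * s := by
    simp only [cH, E.val, NumIs.lkR]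
    push_cast
    ring
  have hB : cB.val [x, m, s, ρ] = NumIs.lnB (s - x) (m * x - 4 * ρ * s) := by
    simp only [cB, E.val, tv, hv, NumIs.lkR]
  refine ⟨rfl, ?_, ?_, ?_, ?_, ?_, ?_, ?_, ?_, ?_, ?_, ?_⟩
  · unfold Dm Dq
    ring
  · rw [LRA.LL_lnA', ure, uim]
    simp only [cLu, E.val, tv, hv, NumIs.lkR]
  · rw [Num.YY_lnB us, ure, uim]
    simp only [cYu, E.val, tv, hv, NumIs.lkR]
  · rw [LRA.LL_lnA', hw.re, hw.im]
    simp only [cLw, E.val, tv, NumIs.lkR]
  · rw [Num.YY_lnB ws, hw.re, hw.im]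
    simp only [cYw, E.val, tv, NumIs.lkR]
  · rw [LRA.LL_lnA', vre, vim]
    simp only [cLv, E.val, tv, hv, NumIs.lkR]
    rw [LRA.lnA_cosh, LRA.lnA_cosh,
      show 2 * Real.pi * (1 - (s - x)) = 2 * Real.pi - 2 * Real.pi * (s - x) by ring,
      Real.cos_two_pi_sub]
  · intro h
    obtain ⟨h1, h2, h3⟩ := YY_neg_im vre vim h hd
    rw [hB]
    exact ⟨h1, h2, fun h4 => h3 (by linarith only [h4])⟩
  · intro h
    rw [hB]
    exact YY_pos_im vre vim h hd
  · exact MR.YY_abs_pi (by rw [vre]; linarith only [hx, x0, s1]) (by rw [vre]; linarith only [hx, x0, s0])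
  · rw [Num.YY_lnB ws, hw.re, hw.im]
    have := lnB_nonneg x0 (by linarith only [hx, x0]) (mul_nonneg hm x0.le)
    linarith only [this]
  · rw [hB]
    have := MR.lnB_abs (s - x) (m * x - 4 * ρ * s)
    exact (abs_le.1 this).1

/-- the values of the expressions -/
theorem vals {R : E} {LU YU LV YV LW YW : ℝ} (P : PV x m s ρ w ζ LU YU LV YV LW YW) :
    iv.val [x, m, s, ρ] = m * x - 4 * ρ * s ∧ cc.val [x, m, s, ρ] = m - 4 * ρ ∧
    (cG0 R).val [x, m, s, ρ] = 2 * (LU - LW) + (m + 4 * ρ) * YU - m * (2 * YW) -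
      R.val [x, m, s, ρ] ∧
    (∀ yv : E, (cG R yv).val [x, m, s, ρ] = 2 * (LU - LW) + (m + 4 * ρ) * YU -
      m * (2 * YW) - R.val [x, m, s, ρ] + (m - 4 * ρ) * yv.val [x, m, s, ρ]) ∧
    (∀ yv : E, (cD yv).val [x, m, s, ρ] = LU + LV - 2 * LW +
      m * (YU + yv.val [x, m, s, ρ] - 2 * YW)) ∧
    cD0.val [x, m, s, ρ] = LU + LV - 2 * LW + m * (YU - 2 * YW) := by
  obtain ⟨hD, hF', lu, yu, lw, yw, lv, yn, yp, ypi, yw0, yb⟩ := P
  have eiv : iv.val [x, m, s, ρ] = m * x - 4 * ρ * s := by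
    simp only [iv, cT, cH, E.val, NumIs.lkR]
    push_cast
    ring
  have ecc : cc.val [x, m, s, ρ] = m - 4 * ρ := by
    simp only [cc, E.val, NumIs.lkR]
    push_cast
    ring
  have eG0 : (cG0 R).val [x, m, s, ρ] = 2 * (LU - LW) + (m + 4 * ρ) * YU - m * (2 * YW) -
      R.val [x, m, s, ρ] := by
    simp only [cG0, E.val, lu, yu, lw, yw, NumIs.lkR]
    push_cast
    ring
  have eG : ∀ yv : E, (cG R yv).val [x, m, s, ρ] = 2 * (LU - LW) + (m + 4 * ρ) * YU -
      m * (2 * YW) - R.val [x, m, s, ρ] + (m - 4 * ρ) * yv.val [x, m, s, ρ] := by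
    intro yv
    have : (cG R yv).val [x, m, s, ρ] = (cG0 R).val [x, m, s, ρ] +
      cc.val [x, m, s, ρ] * yv.val [x, m, s, ρ] := rfl
    rw [this, eG0, ecc]
  have eDD : ∀ yv : E, (cD yv).val [x, m, s, ρ] = LU + LV - 2 * LW +
      m * (YU + yv.val [x, m, s, ρ] - 2 * YW) := by
    intro yv
    simp only [cD, E.val, lu, yu, lw, yw, lv, NumIs.lkR]
    push_cast
    ring
  have eD0 : cD0.val [x, m, s, ρ] = LU + LV - 2 * LW + m * (YU - 2 * YW) := by
    simp only [cD0, E.val, lu, yu, lw, yw, lv, NumIs.lkR]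
    push_cast
    ring
  exact ⟨eiv, ecc, eG0, eG, eDD, eD0⟩

/-- **The lists for `x ≥ 1 / 100`.** -/
theorem key {R : E} (hw : W x m w) (hz : ZR s ρ ζ) (hm : 0 ≤ m) (hx : x ≤ 1 / 10)
    (hF : Dm (4 * ρ) w ζ ≤ R.val [x, m, s, ρ])
    (h1 : m * x - 4 * ρ * s ≤ 0 → m - 4 * ρ ≤ 0 → x < s →
      ∃ e ∈ l1a R, 0 < e.val [x, m, s, ρ])
    (h2 : m * x - 4 * ρ * s ≤ 0 → m - 4 * ρ ≤ 0 → s ≤ x →
      ∃ e ∈ l1c R, 0 < e.val [x, m, s, ρ])
    (h3 : m * x - 4 * ρ * s ≤ 0 → 0 ≤ m - 4 * ρ →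
      ∃ e ∈ l1b R, 0 < e.val [x, m, s, ρ])
    (h4 : 0 ≤ m * x - 4 * ρ * s → 0 ≤ m - 4 * ρ →
      ∃ e ∈ l2 R, 0 < e.val [x, m, s, ρ])
    (h5 : 0 ≤ m * x - 4 * ρ * s → m - 4 * ρ ≤ 0 → s ≤ x →
      ∃ e ∈ l3 R, 0 < e.val [x, m, s, ρ]) : 0 < S4 m w ζ := by
  have P := pv hw hz hm hx
  obtain ⟨eiv, ecc, eG0, eG, eDD, eD0⟩ := vals (R := R) P
  obtain ⟨hD, hF', lu, yu, lw, yw, lv, yn, yp, ypi, yw0, yb⟩ := P
  rw [hF'] at hF
  rw [hD]
  set LU := LL (w + 1 / 2 + ζ)
  set YU := YY (w + 1 / 2 + ζ)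
  set LV := LL (w + 1 / 2 - ζ)
  set YV := YY (w + 1 / 2 - ζ)
  set LW := LL w
  set YW := YY w
  have r0 := hz.pos
  have s0 := hz.lo
  have x0 := hw.pos
  have hpi := Real.pi_pos
  have pp := abs_le.1 ypi
  have m0 : 0 ≤ m * x - 4 * ρ * s ∨ 0 ≤ m - 4 * ρ → 0 < m := by
    rintro (h | h)
    · rcases hm.lt_or_eq with h6 | h6
      · exact h6
      · rw [← h6] at h
        have : 0 < 4 * ρ * s := by positivity
        linarith only [h, this]
    · linarith only [r0, h]
  rcases le_total (m * x - 4 * ρ * s) 0 with hi | hi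
  · obtain ⟨y1, y2, y3⟩ := yn hi
    rcases le_total (m - 4 * ρ) 0 with hc | hc
    · have c1 : (m - 4 * ρ) * cB.val [x, m, s, ρ] ≤ (m - 4 * ρ) * YV :=
        mul_le_mul_of_nonpos_left y1 hc
      have c2 : 0 ≤ (m - 4 * ρ) * YV := mul_nonneg_of_nonpos_of_nonpos hc y2
      rcases lt_or_ge x s with hxs | hxs
      · obtain ⟨e, he, hp⟩ := h1 hi hc hxs
        simp only [l1a, List.mem_cons, List.not_mem_nil, or_false] at he
        rcases he with rfl | rfl | rfl | rfl | rfl | rfl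
        · rw [eG] at hp
          linarith only [hF, c1, hp]
        · rw [eG0] at hp
          linarith only [hF, c2, hp]
        · rw [eDD] at hp
          rw [y3 hxs]
          linarith only [hp]
        · rw [eiv] at hp
          linarith only [hi, hp]
        · rw [ecc] at hp
          linarith only [hc, hp]
        · simp only [E.val, NumIs.lkR] at hp
          linarith only [hxs, hp]
      · obtain ⟨e, he, hp⟩ := h2 hi hc hxs
        have c3 : m * -Real.pi ≤ m * YV := mul_le_mul_of_nonneg_left pp.1 hm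
        simp only [l1c, List.mem_cons, List.not_mem_nil, or_false] at he
        rcases he with rfl | rfl | rfl | rfl | rfl | rfl
        · rw [eG] at hp
          linarith only [hF, c1, hp]
        · rw [eG0] at hp
          linarith only [hF, c2, hp]
        · rw [eDD] at hp
          simp only [E.val] at hp
          linarith only [c3, hp]
        · rw [eiv] at hp
          linarith only [hi, hp]
        · rw [ecc] at hp
          linarith only [hc, hp]
        · simp only [E.val, NumIs.lkR] at hp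
          linarith only [hxs, hp]
    · have mp := m0 (Or.inr hc)
      have hB : YV = cB.val [x, m, s, ρ] := by
        rcases hi.lt_or_eq with h6 | h6
        · apply y3
          have h7 : 4 * ρ * s ≤ m * s := by
            have := mul_le_mul_of_nonneg_right hc (by linarith only [hx, s0, x0] : 0 ≤ s)
            linarith only [this]
          by_contra h8
          have h9 := mul_le_mul_of_nonneg_left (not_lt.1 h8) mp.le
          linarith only [h6, h7, h9]
        · exact le_antisymm y1 (yp h6.ge).1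
      have hxs : x ≤ s := by
        have h7 : 4 * ρ * s ≤ m * s := by
          have := mul_le_mul_of_nonneg_right hc (by linarith only [hx, s0, x0] : 0 ≤ s)
          linarith only [this]
        by_contra h8
        have h9 := mul_lt_mul_of_pos_left (not_le.1 h8) mp
        linarith only [hi, h7, h9]
      have c1 : (m - 4 * ρ) * -(Real.pi / 2) ≤ (m - 4 * ρ) * YV := by
        rw [hB]
        exact mul_le_mul_of_nonneg_left yb hc
      obtain ⟨e, he, hp⟩ := h3 hi hc
      simp only [l1b, List.mem_cons, List.not_mem_nil, or_false] at he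
      rcases he with rfl | rfl | rfl | rfl | rfl | rfl
      · rw [eG, ← hB] at hp
        linarith only [hF, hp]
      · rw [eG] at hp
        simp only [ehp, E.val] at hp
        push_cast at hp
        linarith only [hF, c1, hp]
      · rw [eDD, ← hB] at hp
        linarith only [hp]
      · rw [eiv] at hp
        linarith only [hi, hp]
      · simp only [E.val] at hp
        rw [ecc] at hp
        linarith only [hc, hp]
      · simp only [E.val, NumIs.lkR] at hp
        linarith only [hxs, hp]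
  · obtain ⟨y1, y2⟩ := yp hi
    have mp := m0 (Or.inl hi)
    have c4 : 0 ≤ m * YV := mul_nonneg hm y2
    rcases le_total 0 (m - 4 * ρ) with hc | hc
    · have c1 : (m - 4 * ρ) * cB.val [x, m, s, ρ] ≤ (m - 4 * ρ) * YV :=
        mul_le_mul_of_nonneg_left y1 hc
      have c2 : 0 ≤ (m - 4 * ρ) * YV := mul_nonneg hc y2
      have c3 : m * cB.val [x, m, s, ρ] ≤ m * YV := mul_le_mul_of_nonneg_left y1 hm
      obtain ⟨e, he, hp⟩ := h4 hi hc
      simp only [l2, List.mem_cons, List.not_mem_nil, or_false] at he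
      rcases he with rfl | rfl | rfl | rfl | rfl | rfl
      · rw [eG] at hp
        linarith only [hF, c1, hp]
      · rw [eG0] at hp
        linarith only [hF, c2, hp]
      · rw [eDD] at hp
        linarith only [c3, hp]
      · rw [eD0] at hp
        linarith only [c4, hp]
      · simp only [E.val] at hp
        rw [eiv] at hp
        linarith only [hi, hp]
      · simp only [E.val] at hp
        rw [ecc] at hp
        linarith only [hc, hp]
    · have hxs : s ≤ x := by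
        have h7 : m * s ≤ 4 * ρ * s := by
          have := mul_le_mul_of_nonneg_right hc (by linarith only [hx, s0, x0] : 0 ≤ s)
          linarith only [this]
        by_contra h8
        have h9 := mul_lt_mul_of_pos_left (not_le.1 h8) mp
        linarith only [hi, h7, h9]
      have c1 : (m - 4 * ρ) * Real.pi ≤ (m - 4 * ρ) * YV := mul_le_mul_of_nonpos_left pp.2 hc
      obtain ⟨e, he, hp⟩ := h5 hi hc hxs
      simp only [l3, List.mem_cons, List.not_mem_nil, or_false] at he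
      rcases he with rfl | rfl | rfl | rfl | rfl
      · rw [eG] at hp
        simp only [E.val] at hp
        linarith only [hF, c1, hp]
      · rw [eD0] at hp
        linarith only [c4, hp]
      · simp only [E.val] at hp
        rw [eiv] at hp
        linarith only [hi, hp]
      · rw [ecc] at hp
        linarith only [hc, hp]
      · simp only [E.val, NumIs.lkR] at hp
        linarith only [hxs, hp]

/-- **The lists for small `x`.** -/
theorem keyS {R : E} {n : ℤ} (hw : W x m w) (hz : ZR s ρ ζ) (hm : 0 ≤ m)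
    (hx : x ≤ (n : ℝ) / 1000) (hn : (n : ℝ) ≤ 60) (hF : Dm (4 * ρ) w ζ ≤ R.val [x, m, s, ρ])
    (h1 : m * x - 4 * ρ * s ≤ 0 → ∃ e ∈ s1 n R, 0 < e.val [x, m, s, ρ])
    (h2 : 0 ≤ m * x - 4 * ρ * s → ∃ e ∈ s2 n R, 0 < e.val [x, m, s, ρ]) :
    0 < S4 m w ζ := by
  have P := pv hw hz hm (by linarith only [hx, hn])
  obtain ⟨eiv, ecc, -⟩ := vals (R := R) P
  obtain ⟨hD, hF', lu, yu, lw, yw, lv, yn, yp, ypi, yw0, yb⟩ := P
  have hray := LRA.lnA_ray (m := m) hw.pos hx (by linarith only [hn])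
  have e1 : NumIs.lnA x (m * x) = LL w := by rw [LRA.LL_lnA', hw.re, hw.im]
  have e2 : (cLw0 n).val [x, m, s, ρ] = NumIs.lnA ((n : ℝ) / 1000) (m * ((n : ℝ) / 1000)) := by
    simp only [cLw0, E.val, NumIs.lkR]
    push_cast
    rfl
  rw [e1, ← e2] at hray
  rw [hF'] at hF
  rw [hD]
  set LU := LL (w + 1 / 2 + ζ)
  set YU := YY (w + 1 / 2 + ζ)
  set LV := LL (w + 1 / 2 - ζ)
  set YV := YY (w + 1 / 2 - ζ)
  set LW := LL w
  set YW := YY w
  have r0 := hz.pos
  have s0 := hz.lo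
  have x0 := hw.pos
  have hxs : x < s := by linarith only [hx, hn, s0, x0]
  have c5 : m * YW ≤ 0 := mul_nonpos_of_nonneg_of_nonpos hm yw0
  have fG0 : (sG0 n R).val [x, m, s, ρ] = 2 * (LU - (cLw0 n).val [x, m, s, ρ]) +
      (m + 4 * ρ) * YU - R.val [x, m, s, ρ] := by
    simp only [sG0, E.val, lu, yu, NumIs.lkR]
    push_cast
    ring
  have fG : ∀ yv : E, (sG n R yv).val [x, m, s, ρ] = 2 * (LU - (cLw0 n).val [x, m, s, ρ]) +
      (m + 4 * ρ) * YU - R.val [x, m, s, ρ] + (m - 4 * ρ) * yv.val [x, m, s, ρ] := by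
    intro yv
    have : (sG n R yv).val [x, m, s, ρ] = (sG0 n R).val [x, m, s, ρ] +
      cc.val [x, m, s, ρ] * yv.val [x, m, s, ρ] := rfl
    rw [this, fG0, ecc]
  have fD' : ∀ yv : E, (sD n yv).val [x, m, s, ρ] = LU + LV - 2 * (cLw0 n).val [x, m, s, ρ] +
      m * (YU + yv.val [x, m, s, ρ]) := by
    intro yv
    simp only [sD, E.val, lu, yu, lv, NumIs.lkR]
    push_cast
    ring
  rcases le_total (m * x - 4 * ρ * s) 0 with hi | hi
  · obtain ⟨y1, y2, y3⟩ := yn hi
    have y4 := y3 hxs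
    obtain ⟨e, he, hp⟩ := h1 hi
    simp only [s1, List.mem_cons, List.not_mem_nil, or_false] at he
    rcases he with rfl | rfl | rfl
    · rw [fG, ← y4] at hp
      linarith only [hF, hray, c5, hp]
    · rw [fD', ← y4] at hp
      linarith only [hray, c5, hp]
    · rw [eiv] at hp
      linarith only [hi, hp]
  · obtain ⟨y1, y2⟩ := yp hi
    have hc : 0 ≤ m - 4 * ρ := by
      by_contra h
      have h6 : m * x ≤ 4 * ρ * x := mul_le_mul_of_nonneg_right (by linarith only [h]) x0.le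
      have h7 : 4 * ρ * x < 4 * ρ * s := mul_lt_mul_of_pos_left hxs (by positivity)
      linarith only [hi, h6, h7]
    have c1 : (m - 4 * ρ) * cB.val [x, m, s, ρ] ≤ (m - 4 * ρ) * YV :=
      mul_le_mul_of_nonneg_left y1 hc
    have c2 : 0 ≤ (m - 4 * ρ) * YV := mul_nonneg hc y2
    have c3 : m * cB.val [x, m, s, ρ] ≤ m * YV := mul_le_mul_of_nonneg_left y1 hm
    obtain ⟨e, he, hp⟩ := h2 hi
    simp only [s2, List.mem_cons, List.not_mem_nil, or_false] at he
    rcases he with rfl | rfl | rfl | rfl | rfl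
    · rw [fG] at hp
      linarith only [hF, hray, c5, c1, hp]
    · rw [fG0] at hp
      linarith only [hF, hray, c5, c2, hp]
    · rw [fD'] at hp
      linarith only [hray, c5, c3, hp]
    · simp only [E.val] at hp
      rw [eiv] at hp
      linarith only [hi, hp]
    · simp only [E.val] at hp
      rw [ecc] at hp
      linarith only [hc, hp]

/-- **The flat part of the ring variable.** -/
theorem keyF (hw : W x m w) (hz : ZF ζ) (hm : 0 ≤ m) (hx : x ≤ 1 / 10)
    (h1 : 1 / 100 ≤ x → ∃ e ∈ [fD], 0 < e.val [x, m, -ζ.re, ζ.im])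
    (h2 : x ≤ 1 / 100 → ∃ e ∈ [fS 10], 0 < e.val [x, m, -ζ.re, ζ.im]) : 0 < S4 m w ζ := by
  have x0 := hw.pos
  have z0 := hz.lo
  have z1 := hz.hi
  have ure : (w + 1 / 2 + ζ).re = x + 1 / 2 - -ζ.re := by simp [hw.re]
  have uim : (w + 1 / 2 + ζ).im = m * x + ζ.im := by simp [hw.im]
  have vre : (w + 1 / 2 - ζ).re = x + 1 / 2 + -ζ.re := by simp [hw.re]; ring
  have vim : (w + 1 / 2 - ζ).im = m * x - ζ.im := by simp [hw.im]
  have us : w + 1 / 2 + ζ ∈ strip := by
    constructor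
    · rw [ure]; linarith only [hx, x0, z0]
    · rw [ure]; linarith only [hx, x0, z1]
  have vs : w + 1 / 2 - ζ ∈ strip := by
    constructor
    · rw [vre]; linarith only [hx, x0, z1]
    · rw [vre]; linarith only [hx, x0, z0]
  have ws : w ∈ strip := by
    constructor
    · rw [hw.re]; linarith only [x0]
    · rw [hw.re]; linarith only [hx, x0]
  have hD : S4 m w ζ = LL (w + 1 / 2 + ζ) + LL (w + 1 / 2 - ζ) - 2 * LL w +
      m * (YY (w + 1 / 2 + ζ) + YY (w + 1 / 2 - ζ) - 2 * YY w) := rfl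
  rw [hD, Num.LL_lnA us, Num.LL_lnA vs, Num.LL_lnA ws, Num.YY_lnB us, Num.YY_lnB vs,
    Num.YY_lnB ws, ure, uim, vre, vim, hw.re, hw.im]
  rcases le_total (1 / 100) x with h | h
  · obtain ⟨e, he, hp⟩ := h1 h
    simp only [List.mem_cons, List.not_mem_nil, or_false] at he
    subst he
    simp only [fD, fLu, fLv, fYu, fYv, cLw, cYw, cT, E.val, NumIs.lkR] at hp
    push_cast at hp
    linarith only [hp]
  · obtain ⟨e, he, hp⟩ := h2 h
    have hray := LRA.lnA_ray (m := m) hw.pos h (by norm_num)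
    have hB := lnB_nonneg x0 (by linarith only [x0, h]) (mul_nonneg hm x0.le)
    have hB' := mul_nonneg hm hB
    simp only [List.mem_cons, List.not_mem_nil, or_false] at he
    subst he
    simp only [fS, fLu, fLv, fYu, fYv, cLw0, cT, E.val, NumIs.lkR] at hp
    push_cast at hp
    norm_num at hp hray ⊢
    linarith only [hB', hp, hray]

end LRC

end Pool.Agent.Work.MP_b30479_gtS.G2

end
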