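import Pool.Agent.Work.MP_b30479_gt.TBS.G2.MPLoc
import Pool.Agent.Work.MP_b30479_gt.TBS.G2.MaxP
import Pool.Agent.Work.MP_b30479_gt.TBS.DT.Conc

/-!
# The two sides of a hinge
-/

namespace Pool.Agent.Work.MP_b30479_gtS.G2

open Finset VOL Filter Topology

/-! ### symmetries of the first derivatives -/

theorem LL_neg (u : ℂ) : LL (-u) = LL u := by
  rw [LL_eq, LL_eq]
  simp

theorem LL_add_one (u : ℂ) : LL (u + 1) = LL u := by
  rw [LL_eq', LL_eq']
  simp only [Complex.add_re, Complex.one_re, Complex.add_im, Complex.one_im, add_zero, mul_add,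
    mul_one, Real.cos_add_two_pi]

theorem LL_one_sub (u : ℂ) : LL (1 - u) = LL u := by
  rw [show (1 : ℂ) - u = -u + 1 by ring, LL_add_one, LL_neg]

theorem YY_one_sub (u : ℂ) : YY (1 - u) = YY u := by
  unfold YY
  simp only [Complex.sub_re, Complex.one_re, Complex.sub_im, Complex.one_im, zero_sub, neg_neg]
  rcases lt_trichotomy u.im 0 with h | h | h
  · rw [if_pos (by linarith), if_neg (by linarith), if_pos h, DT.Tr_one_sub (by linarith)]
    ring
  · rw [h]
    simp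
  · rw [if_neg (by linarith), if_pos (by linarith), if_pos h, DT.Tr_one_sub h]
    ring

/-! ### closed forms -/

/-- sign of the number of crossings -/
noncomputable def sgb (b : ℤ) : ℝ := if 0 < b then 1 else -1

theorem un_re_mul (b : ℤ) (w : ℂ) : (un b * w).re = -(sgb b * Real.pi / 2 * w.im) := by
  unfold un sgb
  split_ifs
  · simp
  · simp
    ring

/-- the derivative of a run in list form -/
theorem ldat_DV (t : Typ) (b : ℤ) (l r : Bool) (x X : Fin 3 → ℂ) :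
    (ldat t b l r).DV (lx x) (lx X) =
      (un b * (∑ p, (∑ p', (qq2 t p p' + qq2 t p' p : ℤ) * x p' + rr1 t p) * X p)).re +
      (if t = .ring then 2 * Real.pi * Complex.I * (b * x 1 + 1) * X 1 else 0 : ℂ).re +
      ((facs t l r).map fun f => (∑ p, f.α p * X p : ℂ).re * LL (f.form x) +
        (∑ p, f.α p * X p : ℂ).im * YY (f.form x)).sum := by
  unfold Dat.DV
  rw [← sum_listR]
  simp only [ldat_form, ldat_aff]
  congr 1
  rw [← Complex.add_re]
  congr 1
  unfold Dat.dqv ldat lx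
  simp only [Fintype.sum_sum_type, Finset.univ_eq_empty, Finset.sum_empty, add_zero, Sum.elim_inl]
  by_cases h : t = .ring
  · subst h
    simp [Fin.sum_univ_three, qq2, rr1]
    ring
  · simp only [h, false_and, if_false, add_zero, Fin.sum_univ_three]
    push_cast
    ring

theorem lx_single (p : Fin 3) (c : ℂ) : (Pi.single (.inl p) c : Fin 3 ⊕ Empty → ℂ) = lx (Pi.single p c) := by
  funext j
  rcases j with q | e
  · by_cases h : q = p
    · subst h; simp [lx]
    · simp [lx, h]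
  · exact e.elim

/-- the horizontal derivative of a run -/
theorem ldat_d1 (t : Typ) (b : ℤ) (l r : Bool) (x : Fin 3 → ℂ) (p : Fin 3) :
    (ldat t b l r).d1 (lx x) (.inl p) =
      -(sgb b * Real.pi / 2 * (∑ p', (qq2 t p p' + qq2 t p' p : ℤ) * (x p').im)) +
      (if t = .ring ∧ p = 1 then -(2 * Real.pi * b * (x 1).im) else 0) +
      ((facs t l r).map fun f => f.α p * LL (f.form x)).sum := by
  unfold Dat.d1
  rw [lx_single, ldat_DV]
  have e1 : ∀ g : Fin 3 → ℂ, ∑ q, g q * (Pi.single p 1 : Fin 3 → ℂ) q = g p := by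
    intro g
    simp [Pi.single_apply]
  have e2 : ∀ f : Fac, ∑ q, (f.α q : ℂ) * (Pi.single p 1 : Fin 3 → ℂ) q = f.α p := fun f =>
    e1 fun q => (f.α q : ℂ)
  rw [e1, un_re_mul]
  simp only [e2, Complex.intCast_re, Complex.intCast_im, zero_mul, add_zero]
  congr 2
  · congr 2
    simp [Complex.add_im, Complex.im_sum]
  · by_cases h : t = .ring
    · by_cases hp : p = 1
      · subst hp
        simp [h]
        ring
      · simp [h, hp, Ne.symm hp]
    · simp [h]

/-- the vertical derivative of a run -/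
theorem ldat_d2 (t : Typ) (b : ℤ) (l r : Bool) (x : Fin 3 → ℂ) (p : Fin 3) :
    (ldat t b l r).d2 (lx x) (.inl p) =
      -(sgb b * Real.pi / 2 * (∑ p', (qq2 t p p' + qq2 t p' p : ℤ) * (x p').re + rr1 t p)) +
      (if t = .ring ∧ p = 1 then -(2 * Real.pi * (b * (x 1).re + 1)) else 0) +
      ((facs t l r).map fun f => f.α p * YY (f.form x)).sum := by
  unfold Dat.d2
  rw [lx_single, ldat_DV]
  have e1 : ∀ g : Fin 3 → ℂ, ∑ q, g q * (Pi.single p Complex.I : Fin 3 → ℂ) q = g p * Complex.I := by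
    intro g
    simp [Pi.single_apply]
  have e2 : ∀ f : Fac, ∑ q, (f.α q : ℂ) * (Pi.single p Complex.I : Fin 3 → ℂ) q = f.α p * Complex.I :=
    fun f => e1 fun q => (f.α q : ℂ)
  rw [e1, un_re_mul]
  simp only [e2, Complex.mul_I_re, Complex.mul_I_im, Complex.intCast_re, Complex.intCast_im, neg_zero,
    zero_mul, zero_add]
  congr 2
  · congr 2
    simp [Complex.add_re, Complex.re_sum]
  · by_cases h : t = .ring
    · by_cases hp : p = 1
      · subst hp
        simp [h]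
      · simp [h, hp, Ne.symm hp]
    · simp [h]

theorem Fac.form_mk (α : Fin 3 → ℤ) (a c : ℝ) (x : Fin 3 → ℂ) :
    (Fac.mk α a c).form x = a + (α 0 * x 0 + α 1 * x 1 + α 2 * x 2) := by
  unfold Fac.form
  rw [Fin.sum_univ_three]

section
set_option linter.unusedSimpArgs false
set_option linter.unusedTactic false
set_option linter.unreachableTactic false
variable (b : ℤ) (l r : Bool) (x : Fin 3 → ℂ)

theorem f1 : (1 : ℂ) + -x 0 = 1 - x 0 := by ring
theorem f2 : (1 : ℂ) + -x 1 = 1 - x 1 := by ring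
theorem f3 : (1 : ℂ) + -x 2 = 1 - x 2 := by ring
theorem f4 : (1 : ℂ) + (x 0 + -x 1) = 1 - (x 1 - x 0) := by ring
theorem f5 : (1 : ℂ) + (-x 1 + x 2) = 1 - (x 1 - x 2) := by ring

theorem d1_one_zero : (ldat .one b true r).d1 (lx x) (.inl 0) =
    sgb b * Real.pi * (x 2).im + LL (x 0 + x 2) - LL (x 0) := by
  rw [ldat_d1]
  cases r <;> simp [facs, hL, hR, qq2, Fin.sum_univ_three, Fac.form_mk, f1 x, f2 x, f3 x, f4 x, f5 x, LL_one_sub] <;> ring

theorem d2_one_zero : (ldat .one b true r).d2 (lx x) (.inl 0) =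
    sgb b * Real.pi * ((x 2).re - 1) + YY (x 0 + x 2) - YY (x 0) := by
  rw [ldat_d2]
  cases r <;> simp [facs, hL, hR, qq2, rr1, Fin.sum_univ_three, Fac.form_mk, f1 x, f2 x, f3 x, f4 x, f5 x, YY_one_sub] <;> ring

theorem d1_one_two : (ldat .one b l true).d1 (lx x) (.inl 2) =
    sgb b * Real.pi * (x 0).im + LL (x 0 + x 2) - LL (x 2) := by
  rw [ldat_d1]
  cases l <;> simp [facs, hL, hR, qq2, Fin.sum_univ_three, Fac.form_mk, f1 x, f2 x, f3 x, f4 x, f5 x, LL_one_sub] <;> ring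

theorem d2_one_two : (ldat .one b l true).d2 (lx x) (.inl 2) =
    sgb b * Real.pi * ((x 0).re - 1) + YY (x 0 + x 2) - YY (x 2) := by
  rw [ldat_d2]
  cases l <;> simp [facs, hL, hR, qq2, rr1, Fin.sum_univ_three, Fac.form_mk, f1 x, f2 x, f3 x, f4 x, f5 x, YY_one_sub] <;> ring

theorem d1_two_zero : (ldat .two b true r).d1 (lx x) (.inl 0) =
    sgb b * Real.pi * ((x 2).im - (x 0).im) + LL (x 0 + x 2) - 2 * LL (x 0) := by
  rw [ldat_d1]
  cases r <;> simp [facs, hL, hR, qq2, Fin.sum_univ_three, Fac.form_mk, f1 x, f2 x, f3 x, f4 x, f5 x, LL_one_sub] <;> ring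

theorem d2_two_zero : (ldat .two b true r).d2 (lx x) (.inl 0) =
    sgb b * Real.pi * ((x 2).re - (x 0).re - 1 / 2) + YY (x 0 + x 2) - 2 * YY (x 0) := by
  rw [ldat_d2]
  cases r <;> simp [facs, hL, hR, qq2, rr1, Fin.sum_univ_three, Fac.form_mk, f1 x, f2 x, f3 x, f4 x, f5 x, YY_one_sub] <;> ring

theorem d1_two_two : (ldat .two b l true).d1 (lx x) (.inl 2) =
    sgb b * Real.pi * ((x 0).im - (x 2).im) + LL (x 0 + x 2) - 2 * LL (x 2) := by
  rw [ldat_d1]
  cases l <;> simp [facs, hL, hR, qq2, Fin.sum_univ_three, Fac.form_mk, f1 x, f2 x, f3 x, f4 x, f5 x, LL_one_sub] <;> ring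

theorem d2_two_two : (ldat .two b l true).d2 (lx x) (.inl 2) =
    sgb b * Real.pi * ((x 0).re - (x 2).re - 1 / 2) + YY (x 0 + x 2) - 2 * YY (x 2) := by
  rw [ldat_d2]
  cases l <;> simp [facs, hL, hR, qq2, rr1, Fin.sum_univ_three, Fac.form_mk, f1 x, f2 x, f3 x, f4 x, f5 x, YY_one_sub] <;> ring

theorem d1_threeL_zero : (ldat .threeL b true r).d1 (lx x) (.inl 0) =
    -(sgb b * Real.pi * (x 1).im) + LL (x 1 - x 0) - LL (x 0) := by
  rw [ldat_d1]
  cases r <;> simp [facs, hL, hR, qq2, Fin.sum_univ_three, Fac.form_mk, f1 x, f2 x, f3 x, f4 x, f5 x, LL_one_sub] <;> ring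

theorem d2_threeL_zero : (ldat .threeL b true r).d2 (lx x) (.inl 0) =
    -(sgb b * Real.pi * (x 1).re) + YY (x 1 - x 0) - YY (x 0) := by
  rw [ldat_d2]
  cases r <;> simp [facs, hL, hR, qq2, rr1, Fin.sum_univ_three, Fac.form_mk, f1 x, f2 x, f3 x, f4 x, f5 x, YY_one_sub] <;> ring

theorem d1_threeL_one : (ldat .threeL b l r).d1 (lx x) (.inl 1) =
    sgb b * Real.pi * ((x 2).im - (x 0).im - (x 1).im) + LL (x 1 + x 2) - LL (x 1 - x 0) - LL (x 1) := by
  rw [ldat_d1]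
  cases l <;> cases r <;> simp [facs, hL, hR, qq2, Fin.sum_univ_three, Fac.form_mk, f1 x, f2 x, f3 x, f4 x, f5 x, LL_one_sub] <;> ring

theorem d2_threeL_one : (ldat .threeL b l r).d2 (lx x) (.inl 1) =
    sgb b * Real.pi * ((x 2).re - (x 0).re - (x 1).re + 1 / 2) + YY (x 1 + x 2) - YY (x 1 - x 0) - YY (x 1) := by
  rw [ldat_d2]
  cases l <;> cases r <;> simp [facs, hL, hR, qq2, rr1, Fin.sum_univ_three, Fac.form_mk, f1 x, f2 x, f3 x, f4 x, f5 x, YY_one_sub] <;> ring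

theorem d1_threeL_two : (ldat .threeL b l true).d1 (lx x) (.inl 2) =
    sgb b * Real.pi * ((x 1).im - (x 2).im) + LL (x 1 + x 2) - 2 * LL (x 2) := by
  rw [ldat_d1]
  cases l <;> simp [facs, hL, hR, qq2, Fin.sum_univ_three, Fac.form_mk, f1 x, f2 x, f3 x, f4 x, f5 x, LL_one_sub] <;> ring

theorem d2_threeL_two : (ldat .threeL b l true).d2 (lx x) (.inl 2) =
    sgb b * Real.pi * ((x 1).re - (x 2).re - 1 / 2) + YY (x 1 + x 2) - 2 * YY (x 2) := by
  rw [ldat_d2]
  cases l <;> simp [facs, hL, hR, qq2, rr1, Fin.sum_univ_three, Fac.form_mk, f1 x, f2 x, f3 x, f4 x, f5 x, YY_one_sub] <;> ring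

theorem d1_threeR_two : (ldat .threeR b l true).d1 (lx x) (.inl 2) =
    -(sgb b * Real.pi * (x 1).im) + LL (x 1 - x 2) - LL (x 2) := by
  rw [ldat_d1]
  cases l <;> simp [facs, hL, hR, qq2, Fin.sum_univ_three, Fac.form_mk, f1 x, f2 x, f3 x, f4 x, f5 x, LL_one_sub] <;> ring

theorem d2_threeR_two : (ldat .threeR b l true).d2 (lx x) (.inl 2) =
    -(sgb b * Real.pi * (x 1).re) + YY (x 1 - x 2) - YY (x 2) := by
  rw [ldat_d2]
  cases l <;> simp [facs, hL, hR, qq2, rr1, Fin.sum_univ_three, Fac.form_mk, f1 x, f2 x, f3 x, f4 x, f5 x, YY_one_sub] <;> ring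

theorem d1_threeR_one : (ldat .threeR b l r).d1 (lx x) (.inl 1) =
    sgb b * Real.pi * ((x 0).im - (x 2).im - (x 1).im) + LL (x 0 + x 1) - LL (x 1 - x 2) - LL (x 1) := by
  rw [ldat_d1]
  cases l <;> cases r <;> simp [facs, hL, hR, qq2, Fin.sum_univ_three, Fac.form_mk, f1 x, f2 x, f3 x, f4 x, f5 x, LL_one_sub] <;> ring

theorem d2_threeR_one : (ldat .threeR b l r).d2 (lx x) (.inl 1) =
    sgb b * Real.pi * ((x 0).re - (x 2).re - (x 1).re + 1 / 2) + YY (x 0 + x 1) - YY (x 1 - x 2) - YY (x 1) := by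
  rw [ldat_d2]
  cases l <;> cases r <;> simp [facs, hL, hR, qq2, rr1, Fin.sum_univ_three, Fac.form_mk, f1 x, f2 x, f3 x, f4 x, f5 x, YY_one_sub] <;> ring

theorem d1_threeR_zero : (ldat .threeR b true r).d1 (lx x) (.inl 0) =
    sgb b * Real.pi * ((x 1).im - (x 0).im) + LL (x 0 + x 1) - 2 * LL (x 0) := by
  rw [ldat_d1]
  cases r <;> simp [facs, hL, hR, qq2, Fin.sum_univ_three, Fac.form_mk, f1 x, f2 x, f3 x, f4 x, f5 x, LL_one_sub] <;> ring

theorem d2_threeR_zero : (ldat .threeR b true r).d2 (lx x) (.inl 0) =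
    sgb b * Real.pi * ((x 1).re - (x 0).re - 1 / 2) + YY (x 0 + x 1) - 2 * YY (x 0) := by
  rw [ldat_d2]
  cases r <;> simp [facs, hL, hR, qq2, rr1, Fin.sum_univ_three, Fac.form_mk, f1 x, f2 x, f3 x, f4 x, f5 x, YY_one_sub] <;> ring

theorem g1 : (2 : ℂ)⁻¹ + (x 0 + x 1) = x 0 + 1 / 2 + x 1 := by ring
theorem g2 : (2 : ℂ)⁻¹ + (x 0 + -x 1) = x 0 + 1 / 2 - x 1 := by ring
theorem g3 : (2 : ℂ)⁻¹ + (x 1 + x 2) = x 2 + 1 / 2 + x 1 := by ring
theorem g4 : (2 : ℂ)⁻¹ + (-x 1 + x 2) = x 2 + 1 / 2 - x 1 := by ring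

theorem d1_ring_zero : (ldat .ring b true r).d1 (lx x) (.inl 0) =
    LL (x 0 + 1 / 2 + x 1) + LL (x 0 + 1 / 2 - x 1) - 2 * LL (x 0) := by
  rw [ldat_d1]
  cases r <;> simp [facs, hL, hR, qq2, Fin.sum_univ_three, Fac.form_mk, f1 x, f2 x, f3 x, g1 x, g2 x, g3 x, g4 x, LL_one_sub] <;> ring

theorem d1_ring_two : (ldat .ring b l true).d1 (lx x) (.inl 2) =
    LL (x 2 + 1 / 2 + x 1) + LL (x 2 + 1 / 2 - x 1) - 2 * LL (x 2) := by
  rw [ldat_d1]
  cases l <;> simp [facs, hL, hR, qq2, Fin.sum_univ_three, Fac.form_mk, f1 x, f2 x, f3 x, g1 x, g2 x, g3 x, g4 x, LL_one_sub] <;> ring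

theorem d1_ring_one : (ldat .ring b l r).d1 (lx x) (.inl 1) =
    -(2 * Real.pi * b * (x 1).im) +
      (if l = true then LL (x 0 + 1 / 2 + x 1) - LL (x 0 + 1 / 2 - x 1) else 0) +
      (if r = true then LL (x 2 + 1 / 2 + x 1) - LL (x 2 + 1 / 2 - x 1) else 0) := by
  rw [ldat_d1]
  cases l <;> cases r <;> simp [facs, hL, hR, qq2, Fin.sum_univ_three, Fac.form_mk, f1 x, f2 x, f3 x, g1 x, g2 x, g3 x, g4 x, LL_one_sub] <;> ring

theorem d2_ring_zero : (ldat .ring b true r).d2 (lx x) (.inl 0) =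
    YY (x 0 + 1 / 2 + x 1) + YY (x 0 + 1 / 2 - x 1) - 2 * YY (x 0) := by
  rw [ldat_d2]
  cases r <;> simp [facs, hL, hR, qq2, rr1, Fin.sum_univ_three, Fac.form_mk, f1 x, f2 x, f3 x, g1 x, g2 x, g3 x, g4 x, YY_one_sub] <;> ring

theorem d2_ring_two : (ldat .ring b l true).d2 (lx x) (.inl 2) =
    YY (x 2 + 1 / 2 + x 1) + YY (x 2 + 1 / 2 - x 1) - 2 * YY (x 2) := by
  rw [ldat_d2]
  cases l <;> simp [facs, hL, hR, qq2, rr1, Fin.sum_univ_three, Fac.form_mk, f1 x, f2 x, f3 x, g1 x, g2 x, g3 x, g4 x, YY_one_sub] <;> ring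

theorem d2_ring_one : (ldat .ring b l r).d2 (lx x) (.inl 1) =
    -(2 * Real.pi * (b * (x 1).re + 1)) +
      (if l = true then YY (x 0 + 1 / 2 + x 1) - YY (x 0 + 1 / 2 - x 1) else 0) +
      (if r = true then YY (x 2 + 1 / 2 + x 1) - YY (x 2 + 1 / 2 - x 1) else 0) := by
  rw [ldat_d2]
  cases l <;> cases r <;> simp [facs, hL, hR, qq2, rr1, Fin.sum_univ_three, Fac.form_mk, f1 x, f2 x, f3 x, g1 x, g2 x, g3 x, g4 x, YY_one_sub] <;> ring

end

/-! ### the two sides of a hinge -/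

section
variable {M : ℕ} (t : Fin (M + 1) → Typ) (b : Fin (M + 1) → ℤ)

theorem xx_single (i : Fin (M + 1)) (j : DD t ⊕ ZZ t) (c : ℂ) (p : Fin 3) :
    xx t i (Pi.single j c) p = cf t i p j * c := by
  unfold xx
  rw [Finset.sum_eq_single j]
  · simp
  · intro k _ hk
    rw [Pi.single_eq_of_ne hk, mul_zero]
  · intro h
    exact absurd (Finset.mem_univ _) h

theorem DV_zero {D Z K : Type} [Fintype D] [Fintype Z] [Fintype K] (S : Dat D Z K)
    (z : D ⊕ Z → ℂ) : S.DV z 0 = 0 := by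
  have := DV_smul S z 0 0
  simpa using this

/-- a direction of the hinge `h` is seen by the two neighbouring runs only -/
theorem wdat_DV_hinge (z : DD t ⊕ ZZ t → ℂ) (h : Fin M) (c : ℂ) :
    (wdat t b).DV z (Pi.single (.inl (.inl h)) c) =
      (rdat t b h.castSucc).DV (rx t h.castSucc z) (Pi.single (.inl 2) c) +
      (rdat t b h.succ).DV (rx t h.succ z) (Pi.single (.inl 0) c) := by
  rw [wdat_DV]
  have hne : h.castSucc ≠ h.succ := (Fin.castSucc_lt_succ).ne
  have h1 : ∀ i, i ≠ h.castSucc → i ≠ h.succ →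
      rx t i (Pi.single (.inl (.inl h)) c) = 0 := by
    intro i h1 h2
    funext q
    rcases q with p | e
    · show xx t i _ p = 0
      rw [xx_single]
      simp [cf, Ne.symm h1, Ne.symm h2]
    · exact e.elim
  have h2 : rx t h.castSucc (Pi.single (.inl (.inl h)) c) = Pi.single (.inl 2) c := by
    rw [lx_single]
    unfold rx
    congr 1
    funext p
    rw [xx_single]
    fin_cases p <;> simp [cf, hne.symm]
  have h3 : rx t h.succ (Pi.single (.inl (.inl h)) c) = Pi.single (.inl 0) c := by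
    rw [lx_single]
    unfold rx
    congr 1
    funext p
    rw [xx_single]
    fin_cases p <;> simp [cf, hne]
  rw [← Finset.sum_subset (Finset.subset_univ {h.castSucc, h.succ}), Finset.sum_pair hne, h2, h3]
  intro i _ hi
  simp only [Finset.mem_insert, Finset.mem_singleton, not_or] at hi
  rw [h1 i hi.1 hi.2, DV_zero]

theorem wdat_d1_hinge (z : DD t ⊕ ZZ t → ℂ) (h : Fin M) :
    (wdat t b).d1 z (.inl (.inl h)) =
      (rdat t b h.castSucc).d1 (rx t h.castSucc z) (.inl 2) +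
      (rdat t b h.succ).d1 (rx t h.succ z) (.inl 0) := wdat_DV_hinge t b z h 1

theorem wdat_d2_hinge (z : DD t ⊕ ZZ t → ℂ) (h : Fin M) :
    (wdat t b).d2 z (.inl (.inl h)) =
      (rdat t b h.castSucc).d2 (rx t h.castSucc z) (.inl 2) +
      (rdat t b h.succ).d2 (rx t h.succ z) (.inl 0) := wdat_DV_hinge t b z h Complex.I

theorem wdat_DV_mid (z : DD t ⊕ ZZ t → ℂ) (m : {i : Fin (M + 1) // (t i).isMid = true}) (c : ℂ) :
    (wdat t b).DV z (Pi.single (.inl (.inr m)) c) =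
      (rdat t b m.1).DV (rx t m.1 z) (Pi.single (.inl 1) c) := by
  rw [wdat_DV, Finset.sum_eq_single m.1]
  · congr 1
    rw [lx_single]
    unfold rx
    congr 1
    funext p
    rw [xx_single]
    fin_cases p <;> simp [cf]
  · intro i _ hi
    have : rx t i (Pi.single (.inl (.inr m)) c) = 0 := by
      funext q
      rcases q with p | e
      · show xx t i _ p = 0
        rw [xx_single]
        simp [cf, Ne.symm hi]
      · exact e.elim
    rw [this, DV_zero]
  · intro h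
    exact absurd (Finset.mem_univ _) h

theorem wdat_d1_mid (z : DD t ⊕ ZZ t → ℂ) (m : {i : Fin (M + 1) // (t i).isMid = true}) :
    (wdat t b).d1 z (.inl (.inr m)) = (rdat t b m.1).d1 (rx t m.1 z) (.inl 1) :=
  wdat_DV_mid t b z m 1

theorem wdat_d2_mid (z : DD t ⊕ ZZ t → ℂ) (m : {i : Fin (M + 1) // (t i).isMid = true}) :
    (wdat t b).d2 z (.inl (.inr m)) = (rdat t b m.1).d2 (rx t m.1 z) (.inl 1) :=
  wdat_DV_mid t b z m Complex.I

theorem wdat_DV_ring (z : DD t ⊕ ZZ t → ℂ) (v : ZZ t) (c : ℂ) :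
    (wdat t b).DV z (Pi.single (.inr v) c) =
      (rdat t b v.1).DV (rx t v.1 z) (Pi.single (.inl 1) c) := by
  rw [wdat_DV, Finset.sum_eq_single v.1]
  · congr 1
    rw [lx_single]
    unfold rx
    congr 1
    funext p
    rw [xx_single]
    fin_cases p <;> simp [cf]
  · intro i _ hi
    have : rx t i (Pi.single (.inr v) c) = 0 := by
      funext q
      rcases q with p | e
      · show xx t i _ p = 0
        rw [xx_single]
        simp [cf, Ne.symm hi]
      · exact e.elim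
    rw [this, DV_zero]
  · intro h
    exact absurd (Finset.mem_univ _) h

theorem wdat_d1_ring (z : DD t ⊕ ZZ t → ℂ) (v : ZZ t) :
    (wdat t b).d1 z (.inr v) = (rdat t b v.1).d1 (rx t v.1 z) (.inl 1) := wdat_DV_ring t b z v 1

theorem wdat_d2_ring (z : DD t ⊕ ZZ t → ℂ) (v : ZZ t) :
    (wdat t b).d2 z (.inr v) = (rdat t b v.1).d2 (rx t v.1 z) (.inl 1) :=
  wdat_DV_ring t b z v Complex.I

/-! ### conditions on the factors -/

/-- a condition on all factors which contain the local variable `p` -/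
def FacAll (t : Typ) (l r : Bool) (p : Fin 3) (x : Fin 3 → ℂ) (Q : ℂ → Prop) : Prop :=
  ∀ f ∈ facs t l r, f.α p ≠ 0 → Q (f.form x)

theorem forms_hinge {z : DD t ⊕ ZZ t → ℂ} {Q : ℂ → Prop} {h : Fin M}
    (h1 : FacAll (t h.castSucc) (decide (h.castSucc ≠ 0)) (decide (h.castSucc ≠ Fin.last M)) 2
      (xx t h.castSucc z) Q)
    (h2 : FacAll (t h.succ) (decide (h.succ ≠ 0)) (decide (h.succ ≠ Fin.last M)) 0
      (xx t h.succ z) Q) :
    ∀ k, (wdat t b).A k (.inl (.inl h)) ≠ 0 → Q ((wdat t b).form k z) := by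
  intro k hk
  rw [wdat_form]
  have hne : h.castSucc ≠ h.succ := (Fin.castSucc_lt_succ).ne
  have hk' : ∑ p, (fac t k).α p * cf t k.1 p (.inl (.inl h)) ≠ 0 := hk
  rw [Fin.sum_univ_three] at hk'
  rcases k with ⟨i, f⟩
  have hmem : fac t ⟨i, f⟩ ∈ facs (t i) (decide (i ≠ 0)) (decide (i ≠ Fin.last M)) :=
    List.get_mem _ _
  simp only [cf] at hk'
  by_cases e1 : h.castSucc = i
  · subst e1
    refine h1 _ hmem ?_
    intro h0
    simp [h0, hne.symm] at hk'
  · by_cases e2 : h.succ = i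
    · subst e2
      refine h2 _ hmem ?_
      intro h0
      simp [h0, hne] at hk'
    · simp [e1, e2] at hk'

theorem forms_mid {z : DD t ⊕ ZZ t → ℂ} {Q : ℂ → Prop} {m : {i : Fin (M + 1) // (t i).isMid = true}}
    (h1 : FacAll (t m.1) (decide (m.1 ≠ 0)) (decide (m.1 ≠ Fin.last M)) 1 (xx t m.1 z) Q) :
    ∀ k, (wdat t b).A k (.inl (.inr m)) ≠ 0 → Q ((wdat t b).form k z) := by
  intro k hk
  rw [wdat_form]
  have hk' : ∑ p, (fac t k).α p * cf t k.1 p (.inl (.inr m)) ≠ 0 := hk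
  rw [Fin.sum_univ_three] at hk'
  rcases k with ⟨i, f⟩
  have hmem : fac t ⟨i, f⟩ ∈ facs (t i) (decide (i ≠ 0)) (decide (i ≠ Fin.last M)) :=
    List.get_mem _ _
  simp only [cf] at hk'
  by_cases e1 : m.1 = i
  · subst e1
    refine h1 _ hmem ?_
    intro h0
    simp [h0] at hk'
  · simp [e1] at hk'

theorem forms_ring {z : DD t ⊕ ZZ t → ℂ} {Q : ℂ → Prop} {v : ZZ t}
    (h1 : FacAll (t v.1) (decide (v.1 ≠ 0)) (decide (v.1 ≠ Fin.last M)) 1 (xx t v.1 z) Q) :
    ∀ k, (wdat t b).A k (.inr v) ≠ 0 → Q ((wdat t b).form k z) := by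
  intro k hk
  rw [wdat_form]
  have hk' : ∑ p, (fac t k).α p * cf t k.1 p (.inr v) ≠ 0 := hk
  rw [Fin.sum_univ_three] at hk'
  rcases k with ⟨i, f⟩
  have hmem : fac t ⟨i, f⟩ ∈ facs (t i) (decide (i ≠ 0)) (decide (i ≠ Fin.last M)) :=
    List.get_mem _ _
  simp only [cf] at hk'
  by_cases e1 : v.1 = i
  · subst e1
    refine h1 _ hmem ?_
    intro h0
    simp [h0] at hk'
  · simp [e1] at hk'

end

end Pool.Agent.Work.MP_b30479_gtS.G2
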