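import Pool.Agent.Work.MP_b30479_gt.TBS.G2.SKer
import Pool.Agent.Work.MP_b30479_gt.TBS.G2.Num.Fn

/-!
# Imaginary parts of the hinge derivatives; the local conditions for `Sadl.inner`
-/

namespace Pool.Agent.Work.MP_b30479_gtS.G2

open Finset VOL Complex

/-! ### the imaginary part of `ph` -/

lemma arctan_mul_le {c h : ℝ} (hc : 0 ≤ c) (h1 : h ≤ 1) :
    Real.arctan (c * h) ≤ Real.arctan c :=
  Real.arctan_mono (mul_le_of_le_one_right hc h1)

/-- `|Im ph z| ≤ arctan |cot π x|` -/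
lemma abs_B_le {x t : ℝ} (hx : 0 < x) (hx1 : x < 1) :
    |Num.B x t| ≤ Real.pi * |1 / 2 - x| ∧
      |Num.B x t| ≤ Real.pi * (|t| * |Real.cos (Real.pi * x) / Real.sin (Real.pi * x)|) ∧
      (x ≠ 1 / 2 → |Num.B x t| < Real.pi * |1 / 2 - x|) := by
  have hpi := Real.pi_pos
  have hs : 0 < Real.sin (Real.pi * x) := VOL.sin_pi_pos hx hx1
  have key : |Num.B x t| = Real.arctan (|Real.cos (Real.pi * x) / Real.sin (Real.pi * x)| *
      |Real.tanh (Real.pi * t)|) := by
    have h1 : |Num.B x t| = Real.arctan |Real.cos (Real.pi * x) * Real.sinh (Real.pi * t) /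
        (Real.sin (Real.pi * x) * Real.cosh (Real.pi * t))| := by
      unfold Num.B
      rcases le_or_gt 0 (Real.cos (Real.pi * x) * Real.sinh (Real.pi * t) /
        (Real.sin (Real.pi * x) * Real.cosh (Real.pi * t))) with h | h
      · rw [abs_of_nonneg h, abs_of_nonneg (Real.arctan_nonneg.2 h)]
      · rw [abs_of_neg h, abs_of_neg (Real.arctan_lt_zero.2 h), Real.arctan_neg]
    rw [h1, ← abs_mul, Real.tanh_eq_sinh_div_cosh]
    congr 2
    field_simp
  have hth : |Real.tanh (Real.pi * t)| < 1 := by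
    rw [abs_lt]
    exact ⟨Real.neg_one_lt_tanh _, Real.tanh_lt_one _⟩
  have hth2 : |Real.tanh (Real.pi * t)| ≤ Real.pi * |t| := by
    have h1 : ∀ y : ℝ, 0 ≤ y → Real.tanh y ≤ y := by
      intro y hy
      rw [Real.tanh_eq_sinh_div_cosh, div_le_iff₀ (Real.cosh_pos _)]
      have h2 : ∀ z : ℝ, 0 ≤ z → 0 ≤ z * Real.cosh z - Real.sinh z := by
        intro z hz
        have hd : ∀ w : ℝ, HasDerivAt (fun z => z * Real.cosh z - Real.sinh z)
            (w * Real.sinh w) w := by
          intro w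
          have := ((hasDerivAt_id w).mul (Real.hasDerivAt_cosh w)).sub (Real.hasDerivAt_sinh w)
          refine this.congr_deriv ?_
          simp
        have hm : MonotoneOn (fun z => z * Real.cosh z - Real.sinh z) (Set.Ici 0) := by
          refine monotoneOn_of_deriv_nonneg (convex_Ici 0) ?_ ?_ ?_
          · exact fun w _ => (hd w).continuousAt.continuousWithinAt
          · exact fun w _ => (hd w).differentiableAt.differentiableWithinAt
          · intro w hw
            rw [interior_Ici] at hw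
            rw [(hd w).deriv]
            exact mul_nonneg hw.le (Real.sinh_nonneg_iff.2 hw.le)
        have := hm (Set.mem_Ici.2 le_rfl) (Set.mem_Ici.2 hz) hz
        simpa using this
      linarith only [h2, hy, h2 y hy]
    rcases le_or_gt 0 t with h | h
    · rw [abs_of_nonneg h, abs_of_nonneg]
      · exact h1 _ (by positivity)
      · rw [Real.tanh_eq_sinh_div_cosh]
        exact div_nonneg (Real.sinh_nonneg_iff.2 (by positivity)) (Real.cosh_pos _).le
    · have e : Real.tanh (Real.pi * t) = -Real.tanh (Real.pi * (-t)) := by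
        rw [mul_neg, Real.tanh_neg, neg_neg]
      have h3 : 0 ≤ Real.pi * -t := mul_nonneg hpi.le (by linarith only [h])
      rw [e, abs_neg, abs_of_neg h, abs_of_nonneg]
      · exact h1 _ h3
      · rw [Real.tanh_eq_sinh_div_cosh]
        exact div_nonneg (Real.sinh_nonneg_iff.2 h3) (Real.cosh_pos _).le
  have hcot : Real.arctan |Real.cos (Real.pi * x) / Real.sin (Real.pi * x)| =
      Real.pi * |1 / 2 - x| := by
    have e1 : |Real.cos (Real.pi * x) / Real.sin (Real.pi * x)| =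
        Real.tan (Real.pi * |1 / 2 - x|) := by
      have e2 : Real.cos (Real.pi * x) / Real.sin (Real.pi * x) =
          Real.tan (Real.pi * (1 / 2 - x)) := by
        rw [Real.tan_eq_sin_div_cos, show Real.pi * (1 / 2 - x) = Real.pi / 2 - Real.pi * x by ring,
          Real.sin_pi_div_two_sub, Real.cos_pi_div_two_sub]
      rw [e2]
      rcases le_or_gt 0 (1 / 2 - x) with h | h
      · rw [abs_of_nonneg h, abs_of_nonneg]
        apply Real.tan_nonneg_of_nonneg_of_le_pi_div_two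
        · positivity
        · nlinarith only [hx, hpi]
      · rw [abs_of_neg h, abs_of_neg]
        · rw [mul_neg, Real.tan_neg]
        · apply Real.tan_neg_of_neg_of_pi_div_two_lt
          · exact mul_neg_of_pos_of_neg hpi h
          · nlinarith only [hx1, hpi]
    rw [e1, Real.arctan_tan]
    · have := mul_nonneg hpi.le (abs_nonneg (1 / 2 - x))
      linarith only [hpi, this]
    · have h1 : |1 / 2 - x| < 1 / 2 := by
        rw [abs_lt]
        constructor <;> linarith only [hx1, hx]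
      nlinarith only [hpi, h1]
  refine ⟨?_, ?_, fun hne => ?_⟩
  · rw [key, ← hcot]
    exact arctan_mul_le (abs_nonneg _) hth.le
  · rw [key]
    have h1 : ∀ y : ℝ, 0 ≤ y → Real.arctan y ≤ y := by
      intro y hy
      have h := Real.le_tan (Real.arctan_nonneg.2 hy) (Real.arctan_lt_pi_div_two y)
      rwa [Real.tan_arctan] at h
    refine (h1 _ (mul_nonneg (abs_nonneg _) (abs_nonneg _))).trans ?_
    calc _ ≤ |Real.cos (Real.pi * x) / Real.sin (Real.pi * x)| * (Real.pi * |t|) :=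
          mul_le_mul_of_nonneg_left hth2 (abs_nonneg _)
      _ = _ := by ring
  · rw [key, ← hcot]
    apply Real.arctan_strictMono
    have hc : 0 < |Real.cos (Real.pi * x) / Real.sin (Real.pi * x)| := by
      rw [abs_pos]
      apply div_ne_zero _ hs.ne'
      intro h0
      have h1 : Real.sin (Real.pi * (1 / 2 - x)) = 0 := by
        rw [show Real.pi * (1 / 2 - x) = Real.pi / 2 - Real.pi * x by ring,
          Real.sin_pi_div_two_sub]
        exact h0
      rcases lt_or_gt_of_ne hne with h | h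
      · have := Real.sin_pos_of_pos_of_lt_pi (x := Real.pi * (1 / 2 - x)) (by nlinarith only [hpi, h])
          (by nlinarith only [hpi, hx])
        linarith only [h1, this]
      · have := Real.sin_neg_of_neg_of_neg_pi_lt (x := Real.pi * (1 / 2 - x)) (by nlinarith only [hpi, h])
          (by nlinarith only [hpi, hx1])
        linarith only [h1, this]
    calc _ < |Real.cos (Real.pi * x) / Real.sin (Real.pi * x)| * 1 :=
          mul_lt_mul_of_pos_left hth hc
      _ = _ := mul_one _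

/-- the height times the cotangent -/
noncomputable def hc (z : ℂ) : ℝ :=
  |z.im| * |Real.cos (Real.pi * z.re) / Real.sin (Real.pi * z.re)|

lemma ph_im_le {z : ℂ} (hz : z ∈ strip) : |(ph z).im| ≤ Real.pi * |1 / 2 - z.re| := by
  rw [Num.ph_im hz]
  exact (abs_B_le hz.1 hz.2).1

lemma ph_im_le_hc {z : ℂ} (hz : z ∈ strip) : |(ph z).im| ≤ Real.pi * hc z := by
  rw [Num.ph_im hz]
  exact (abs_B_le hz.1 hz.2).2.1

lemma ph_im_lt' {z : ℂ} (hz : z ∈ strip) (h : z.re ≠ 1 / 2) :
    |(ph z).im| < Real.pi * |1 / 2 - z.re| := by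
  rw [Num.ph_im hz]
  exact (abs_B_le hz.1 hz.2).2.2 h

lemma ph_one_sub_im {z : ℂ} (hz : z ∈ strip) : (ph (1 - z)).im = (ph z).im := by
  rw [Num.ph_im (one_sub_strip hz), Num.ph_im hz]
  simp only [sub_re, one_re, sub_im, one_im, zero_sub]
  rw [Num.B_one_sub, Num.B_neg, neg_neg]

lemma jj_im (b : ℤ) : (jj b).im = 1 ∨ (jj b).im = -1 := by
  unfold jj
  split_ifs <;> simp

lemma jj_mul_im (b : ℤ) (x : ℂ) : (jj b * (Real.pi * x)).im = (jj b).im * (Real.pi * x.re) := by
  have hj : jj b = (((jj b).im : ℝ) : ℂ) * I := by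
    unfold jj
    split_ifs <;> simp
  conv_lhs => rw [hj]
  rw [mul_assoc, im_ofReal_mul, I_mul_im, re_ofReal_mul]

/-! ### the sides -/

/-- the imaginary parts of the hinge derivatives of a twist region are smaller than `π` -/
def SideIm (t : Typ) (b : ℤ) (l r : Bool) (x : Fin 3 → ℂ) : Prop :=
  (l = true → |(ldT t b l r x 0).im| < Real.pi) ∧ (r = true → |(ldT t b l r x 2).im| < Real.pi)

/-- the condition at a hinge `w` of a kernel with the other variable `w'` (one crossing) -/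
def K1 (w w' : ℂ) : Prop := 1 / 2 ≤ w.re + w'.re ∨ hc w + hc (w + w') < w'.re

/-- the condition at a hinge `w` of a kernel with the other variable `w'` (two crossings) -/
def K2 (w w' : ℂ) : Prop := 1 / 2 ≤ w.re + w'.re ∨ hc (w + w') + 2 * hc w < 1 / 2 + w'.re - w.re

lemma abs_comb {s a b c d : ℝ} (hs : s = 1 ∨ s = -1) (ha : 0 ≤ a) (h1 : a + |b| + |c| < d) :
    |s * a + b - c| < d := by
  have h2 : |s * a| = a := by
    rcases hs with h | h <;> rw [h] <;> simp [abs_of_nonneg ha]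
  have h3 := abs_sub (s * a + b) c
  have h4 := abs_add_le (s * a) b
  linarith only [h1, h2, h3, h4]

lemma one_im {b : ℤ} {w w' : ℂ} (h0 : 0 < w.re) (h0' : w.re < 1 / 2) (h2 : 0 < w'.re)
    (h2' : w'.re < 1 / 2) (h : K1 w w') :
    |(jj b * (Real.pi * (1 - w')) + ph (w + w') - ph (1 - w)).im| < Real.pi := by
  have hpi := Real.pi_pos
  have sw : w ∈ strip := ⟨h0, by linarith only [h0, h0']⟩
  have sww : w + w' ∈ strip := ⟨by simp only [add_re]; linarith only [h0, h2], by simp only [add_re]; linarith only [h0', h2']⟩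
  rw [sub_im, add_im, jj_mul_im, ph_one_sub_im sw]
  have a1 := ph_im_lt' sw (by linarith only [h0', h0'] : w.re ≠ 1 / 2)
  rw [abs_of_pos (by linarith only [h0'] : 0 < 1 / 2 - w.re)] at a1
  have hr : (1 - w').re = 1 - w'.re := by simp
  rw [hr]
  rcases h with h | h
  · have a2 := ph_im_le sww
    rw [add_re, abs_of_nonpos (by linarith only [h] : 1 / 2 - (w.re + w'.re) ≤ 0)] at a2
    apply abs_comb (jj_im b)
    · exact mul_nonneg hpi.le (by linarith only [h0, h0', h2'])
    · nlinarith only [a1, a2]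
  · have a2 := ph_im_le_hc sww
    have a3 := ph_im_le_hc sw
    apply abs_comb (jj_im b)
    · exact mul_nonneg hpi.le (by linarith only [h0, h0', h2'])
    · nlinarith only [a2, a3, hpi, h]

lemma two_im {b : ℤ} {w w' : ℂ} (h0 : 0 < w.re) (h0' : w.re < 1 / 2) (h2 : 0 < w'.re)
    (h2' : w.re + w'.re < 1) (h3 : w'.re ≤ w.re + 1 / 2) (h : K2 w w') :
    |(jj b * (Real.pi * (w - w' + 1 / 2)) + ph (w + w') - ph (1 - w) - ph (1 - w)).im| <
      Real.pi := by
  have hpi := Real.pi_pos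
  have sw : w ∈ strip := ⟨h0, by linarith only [h0, h0']⟩
  have sww : w + w' ∈ strip := ⟨by simp only [add_re]; linarith only [h0, h2], by simp only [add_re]; linarith only [h2']⟩
  rw [sub_im, sub_im, add_im, jj_mul_im, ph_one_sub_im sw]
  have a1 := ph_im_lt' sw (by linarith only [h0', h0'] : w.re ≠ 1 / 2)
  rw [abs_of_pos (by linarith only [h0'] : 0 < 1 / 2 - w.re)] at a1
  have hr : (w - w' + 1 / 2).re = w.re - w'.re + 1 / 2 := by simp
  rw [hr]
  have e : ∀ p q r : ℝ, p + q - r - r = p + q - (2 * r) := fun p q r => by ring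
  rw [e]
  have e2 : |2 * (ph w).im| = 2 * |(ph w).im| := by
    rw [abs_mul, abs_of_pos (by norm_num : (0 : ℝ) < 2)]
  rcases h with h | h
  · have a2 := ph_im_le sww
    rw [add_re, abs_of_nonpos (by linarith only [h] : 1 / 2 - (w.re + w'.re) ≤ 0)] at a2
    apply abs_comb (jj_im b)
    · exact mul_nonneg hpi.le (by linarith only [h3])
    · rw [e2]
      nlinarith only [a1, a2]
  · have a2 := ph_im_le_hc sww
    have a3 := ph_im_le_hc sw
    apply abs_comb (jj_im b)
    · exact mul_nonneg hpi.le (by linarith only [h3])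
    · rw [e2]
      nlinarith only [a2, a3, hpi, h]

lemma twoE_im {b : ℤ} {w : ℂ} (h0 : 0 < w.re) (h0' : w.re < 1 / 2) :
    |(jj b * (Real.pi * (w + 1 / 2)) + ph w - ph (1 - w) - ph (1 - w)).im| < Real.pi := by
  have hpi := Real.pi_pos
  have sw : w ∈ strip := ⟨h0, by linarith only [h0, h0']⟩
  rw [sub_im, sub_im, add_im, jj_mul_im, ph_one_sub_im sw]
  have a1 := ph_im_lt' sw (by linarith only [h0', h0'] : w.re ≠ 1 / 2)
  rw [abs_of_pos (by linarith only [h0'] : 0 < 1 / 2 - w.re)] at a1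
  have hr : (w + 1 / 2).re = w.re + 1 / 2 := by simp
  rw [hr]
  have e : ∀ p q : ℝ, p + q - q - q = p + 0 - q := fun p q => by ring
  rw [e]
  apply abs_comb (jj_im b)
  · exact mul_nonneg hpi.le (by linarith only [h0, h0'])
  · rw [abs_zero]
    nlinarith only [a1]

lemma a_im {b : ℤ} {w m : ℂ} (h0 : 0 < w.re) (h0' : w.re < 1 / 2) (h1 : 0 < m.re - w.re)
    (h1' : m.re - w.re ≤ 1 / 2) :
    |(jj b * (Real.pi * m) + ph (1 - (m - w)) - ph (1 - w)).im| < Real.pi := by
  have hpi := Real.pi_pos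
  have sw : w ∈ strip := ⟨h0, by linarith only [h0, h0']⟩
  have smw : m - w ∈ strip := ⟨by simpa using h1, by simp only [sub_re]; linarith only [h0, h0', h1']⟩
  rw [sub_im, add_im, jj_mul_im, ph_one_sub_im sw, ph_one_sub_im smw]
  have a1 := ph_im_lt' sw (by linarith only [h0', h0'] : w.re ≠ 1 / 2)
  rw [abs_of_pos (by linarith only [h0'] : 0 < 1 / 2 - w.re)] at a1
  have a2 := ph_im_le smw
  rw [sub_re, abs_of_nonneg (by linarith only [h1'] : 0 ≤ 1 / 2 - (m.re - w.re))] at a2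
  apply abs_comb (jj_im b)
  · exact mul_nonneg hpi.le (by linarith only [h0, h1])
  · nlinarith only [a1, a2]

lemma ring_im {w ζ : ℂ} (h0 : 0 < w.re) (h0' : w.re < 1 / 2) (h1 : w.re + |ζ.re| < 1 / 2)
    (h : |ζ.re| ≤ w.re ∨ |ζ.re| + hc w < 1 / 2) :
    |(ph (1 / 2 + w + ζ) + ph (1 / 2 + w - ζ) - ph (1 - w) - ph (1 - w)).im| < Real.pi := by
  have hpi := Real.pi_pos
  have hz := abs_lt.1 (show |ζ.re| < 1 / 2 by linarith only [h0, h1])
  have hz1 := abs_le.1 (le_refl |ζ.re|)
  have sw : w ∈ strip := ⟨h0, by linarith only [h0, h0']⟩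
  have r1 : (1 / 2 + w + ζ).re = 1 / 2 + w.re + ζ.re := by simp
  have r2 : (1 / 2 + w - ζ).re = 1 / 2 + w.re - ζ.re := by simp
  have s1 : 1 / 2 + w + ζ ∈ strip := ⟨by rw [r1]; linarith only [h0, h1, hz1], by rw [r1]; linarith only [h1, hz1]⟩
  have s2 : 1 / 2 + w - ζ ∈ strip := ⟨by rw [r2]; linarith only [h0, hz], by rw [r2]; linarith only [h1, hz1]⟩
  rw [sub_im, sub_im, add_im, ph_one_sub_im sw]
  have a1 := ph_im_lt' sw (by linarith only [h0', h0'] : w.re ≠ 1 / 2)
  rw [abs_of_pos (by linarith only [h0'] : 0 < 1 / 2 - w.re)] at a1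
  have a2 := ph_im_le s1
  have a3 := ph_im_le s2
  have a4 := ph_im_le_hc sw
  rw [r1, show (1 : ℝ) / 2 - (1 / 2 + w.re + ζ.re) = -(w.re + ζ.re) by ring, abs_neg] at a2
  rw [r2, show (1 : ℝ) / 2 - (1 / 2 + w.re - ζ.re) = -(w.re - ζ.re) by ring, abs_neg] at a3
  have key : |w.re + ζ.re| + |w.re - ζ.re| = 2 * max w.re |ζ.re| := by
    rcases le_or_gt |ζ.re| w.re with h5 | h5
    · have h6 := abs_le.1 h5
      rw [max_eq_left h5, abs_of_nonneg (by linarith only [hz1, h5] : 0 ≤ w.re + ζ.re),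
        abs_of_nonneg (by linarith only [hz1, h5] : 0 ≤ w.re - ζ.re)]
      ring
    · rw [max_eq_right h5.le]
      rcases abs_choice ζ.re with h6 | h6
      · rw [h6] at h5 ⊢
        rw [abs_of_nonneg (by linarith only [h0, h5] : 0 ≤ w.re + ζ.re),
          abs_of_nonpos (by linarith only [h5] : w.re - ζ.re ≤ 0)]
        ring
      · rw [h6] at h5 ⊢
        rw [abs_of_nonpos (by linarith only [h5] : w.re + ζ.re ≤ 0),
          abs_of_nonneg (by linarith only [h0, h5] : 0 ≤ w.re - ζ.re)]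
        ring
  have t1 := abs_sub ((ph (1 / 2 + w + ζ)).im + (ph (1 / 2 + w - ζ)).im) (2 * (ph w).im)
  have t2 := abs_add_le (ph (1 / 2 + w + ζ)).im (ph (1 / 2 + w - ζ)).im
  have e2 : |2 * (ph w).im| = 2 * |(ph w).im| := by
    rw [abs_mul, abs_of_pos (by norm_num : (0 : ℝ) < 2)]
  have e : ∀ p q r : ℝ, p + q - r - r = p + q - (2 * r) := fun p q r => by ring
  rw [e]
  have t3 : Real.pi * |w.re + ζ.re| + Real.pi * |w.re - ζ.re| = Real.pi * (2 * max w.re |ζ.re|) := by
    rw [← key]; ring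
  rcases h with h | h
  · rw [max_eq_left h] at t3
    nlinarith only [a1, a2, a3, t1, t2, e2, t3]
  · rcases le_or_gt |ζ.re| w.re with h5 | h5
    · rw [max_eq_left h5] at t3
      nlinarith only [a1, a2, a3, t1, t2, e2, t3]
    · rw [max_eq_right h5.le] at t3
      nlinarith only [a2, a3, a4, t1, t2, e2, t3, hpi, h]

section
variable {b : ℤ} {x : Fin 3 → ℂ} {l r : Bool}

theorem sideIm_one (h0 : 0 < (x 0).re) (h0' : (x 0).re < 1 / 2) (h2 : 0 < (x 2).re)
    (h2' : (x 2).re < 1 / 2) (h : K1 (x 0) (x 2)) (h' : K1 (x 2) (x 0)) :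
    SideIm .one b true true x := by
  refine ⟨fun _ => ?_, fun _ => ?_⟩
  · rw [ldT_one_zero]
    exact one_im h0 h0' h2 h2' h
  · rw [ldT_one_two, add_comm (x 0) (x 2)]
    exact one_im h2 h2' h0 h0' h'

theorem sideIm_two (h0 : 0 < (x 0).re) (h0' : (x 0).re < 1 / 2) (h2 : 0 < (x 2).re)
    (h2' : (x 2).re < 1 / 2) (h : K2 (x 0) (x 2)) (h' : K2 (x 2) (x 0)) :
    SideIm .two b true true x := by
  refine ⟨fun _ => ?_, fun _ => ?_⟩
  · rw [ldT_two_zero]
    exact two_im h0 h0' h2 (by linarith only [h0', h2']) (by linarith only [h0, h2']) h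
  · rw [ldT_two_two, add_comm (x 0) (x 2)]
    exact two_im h2 h2' h0 (by linarith only [h0', h2']) (by linarith only [h0', h2]) h'

theorem sideIm_two_right (hx : x 2 = 0) (h0 : 0 < (x 0).re) (h0' : (x 0).re < 1 / 2) :
    SideIm .two b true false x := by
  refine ⟨fun _ => ?_, fun h => absurd h (by decide)⟩
  rw [ldT_two_zero, hx, sub_zero, add_zero]
  exact twoE_im h0 h0'

theorem sideIm_two_left (hx : x 0 = 0) (h0 : 0 < (x 2).re) (h0' : (x 2).re < 1 / 2) :
    SideIm .two b false true x := by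
  refine ⟨fun h => absurd h (by decide), fun _ => ?_⟩
  rw [ldT_two_two, hx, sub_zero, zero_add]
  exact twoE_im h0 h0'

theorem sideIm_threeL (h0 : 0 < (x 0).re) (h0' : (x 0).re < 1 / 2)
    (h1 : 0 < (x 1).re - (x 0).re) (h1' : (x 1).re - (x 0).re ≤ 1 / 2)
    (h2 : r = true → 0 < (x 2).re ∧ (x 2).re < 1 / 2 ∧ (x 1).re + (x 2).re < 1 ∧
      (x 1).re ≤ (x 2).re + 1 / 2 ∧ K2 (x 2) (x 1)) :
    SideIm .threeL b true r x := by
  refine ⟨fun _ => ?_, fun h => ?_⟩
  · rw [ldT_threeL_zero]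
    exact a_im h0 h0' h1 h1'
  · subst h
    obtain ⟨a1, a2, a3, a4, a5⟩ := h2 rfl
    rw [ldT_threeL_two, add_comm (x 1) (x 2)]
    exact two_im a1 a2 (by linarith only [h0, h1]) (by linarith only [a3]) a4 a5

theorem sideIm_threeR (h0 : 0 < (x 2).re) (h0' : (x 2).re < 1 / 2)
    (h1 : 0 < (x 1).re - (x 2).re) (h1' : (x 1).re - (x 2).re ≤ 1 / 2)
    (h2 : l = true → 0 < (x 0).re ∧ (x 0).re < 1 / 2 ∧ (x 0).re + (x 1).re < 1 ∧
      (x 1).re ≤ (x 0).re + 1 / 2 ∧ K2 (x 0) (x 1)) :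
    SideIm .threeR b l true x := by
  refine ⟨fun h => ?_, fun _ => ?_⟩
  · subst h
    obtain ⟨a1, a2, a3, a4, a5⟩ := h2 rfl
    rw [ldT_threeR_zero]
    exact two_im a1 a2 (by linarith only [h0, h1]) a3 a4 a5
  · rw [ldT_threeR_two]
    exact a_im h0 h0' h1 h1'

/-- the condition at a hinge of a ring -/
def KZ (w ζ : ℂ) : Prop := 0 < w.re ∧ w.re + |ζ.re| < 1 / 2 ∧
  (|ζ.re| ≤ w.re ∨ |ζ.re| + hc w < 1 / 2)

theorem sideIm_ring (hl : l = true → KZ (x 0) (x 1)) (hr : r = true → KZ (x 2) (x 1)) :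
    SideIm .ring b l r x := by
  refine ⟨fun h => ?_, fun h => ?_⟩
  · subst h
    obtain ⟨a1, a2, a3⟩ := hl rfl
    rw [ldT_ring_zero]
    exact ring_im a1 (by linarith only [a2, abs_nonneg (x 1).re]) a2 a3
  · subst h
    obtain ⟨a1, a2, a3⟩ := hr rfl
    rw [ldT_ring_two]
    exact ring_im a1 (by linarith only [a2, abs_nonneg (x 1).re]) a2 a3

end

/-- **The hinge derivatives are smaller than `2 π`.** -/
theorem dT_hinge_im {M : ℕ} {t : Fin (M + 1) → Typ} {b : Fin (M + 1) → ℤ}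
    {z : DD t ⊕ ZZ t → ℂ} (h : ∀ i, SideIm (t i) (b i) (fl i) (fr i) (xx t i z)) (j : Fin M) :
    |((wdat t b).dT z (.inl (.inl j))).im| < 2 * Real.pi := by
  rw [dT_hinge, add_im]
  have h1 := abs_lt.1 ((h j.castSucc).2 (by simp [fr, Fin.castSucc_ne_last]))
  have h2 := abs_lt.1 ((h j.succ).1 (by simp [fl, Fin.succ_ne_zero]))
  rw [abs_lt]
  constructor <;> linarith only [h1, h2, h1.1, h1.2, h2.1, h2.2]

end Pool.Agent.Work.MP_b30479_gtS.G2
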