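import Mathlib

section

/-!
# A continuation principle

`F θ z` on `[0, 1] × K`, `K` compact, no zero on the boundary of `K`, invertible derivative at every
zero, a zero at `θ = 0`: then there is a zero for every `θ`.
-/

namespace Pool.Agent.Work.MP_b30479_gtS.G2

open Set Metric Filter Topology

variable {E : Type*} [NormedAddCommGroup E] [NormedSpace ℂ E] [CompleteSpace E]

/-- local continuation: zeros persist under small changes of the parameter -/
theorem cont_near {I : Set ℝ} {U : Set E} (hU : IsOpen U) {F : ℝ → E → E} {F' : ℝ → E → E →L[ℂ] E}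
    (hc : ContinuousOn (fun p : ℝ × E => F p.1 p.2) (I ×ˢ U))
    (hd : ∀ θ ∈ I, ∀ z ∈ U, HasFDerivAt (F θ) (F' θ z) z)
    (hc' : ContinuousOn (fun p : ℝ × E => F' p.1 p.2) (I ×ˢ U))
    {θ₀ : ℝ} (hθ : θ₀ ∈ I) {z₀ : E} (hz : z₀ ∈ U) (h0 : F θ₀ z₀ = 0) (e : E ≃L[ℂ] E)
    (he : (e : E →L[ℂ] E) = F' θ₀ z₀) :
    ∀ᶠ θ in 𝓝[I] θ₀, ∃ z ∈ U, F θ z = 0 := by
  let _ : NormedSpace ℝ E := NormedSpace.restrictScalars ℝ ℂ E
  set s := e.toNonlinearRightInverse with hs
  set M : ℝ := (s.nnnorm : ℝ) + 1 with hM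
  have hM0 : 0 < M := by positivity
  have hMi : M⁻¹ ≤ (s.nnnorm : ℝ)⁻¹ ∨ (s.nnnorm : ℝ) = 0 := by
    rcases eq_or_lt_of_le (NNReal.coe_nonneg s.nnnorm) with h | h
    · exact Or.inr h.symm
    · exact Or.inl (by gcongr; linarith)
  -- the derivative is close to `e` near `(θ₀, z₀)`
  have h1 : ∀ᶠ p in 𝓝[I ×ˢ U] (θ₀, z₀), ‖F' p.1 p.2 - (e : E →L[ℂ] E)‖ ≤ (2 * M)⁻¹ := by
    have h2 := tendsto_iff_norm_sub_tendsto_zero.1 (hc' (θ₀, z₀) ⟨hθ, hz⟩)
    filter_upwards [h2.eventually_le_const (u := (2 * M)⁻¹) (by positivity)] with p hp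
    rw [he]; exact hp
  rw [nhdsWithin_prod_eq, hU.nhdsWithin_eq hz, Filter.Eventually, Filter.mem_prod_iff] at h1
  obtain ⟨A, hA, B, hB, hAB⟩ := h1
  obtain ⟨r, hr, hrB⟩ := Metric.nhds_basis_closedBall.mem_iff.1 (Filter.inter_mem hB (hU.mem_nhds hz))
  have h3 : ∀ᶠ θ in 𝓝[I] θ₀, ‖F θ z₀‖ ≤ (2 * M)⁻¹ * r := by
    have : ContinuousWithinAt (fun θ => F θ z₀) I θ₀ := by
      have hf : ContinuousWithinAt (fun θ : ℝ => ((θ, z₀) : ℝ × E)) I θ₀ :=
        (continuous_id.prodMk continuous_const).continuousWithinAt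
      exact (hc (θ₀, z₀) ⟨hθ, hz⟩).comp (f := fun θ : ℝ => ((θ, z₀) : ℝ × E)) hf fun θ h => ⟨h, hz⟩
    have h4 := this.norm
    rw [ContinuousWithinAt, h0, norm_zero] at h4
    exact h4.eventually_le_const (by positivity)
  filter_upwards [h3, hA, self_mem_nhdsWithin] with θ hθ1 hθA hθI
  have happ : ApproximatesLinearOn (F θ) (e : E →L[ℂ] E) (closedBall z₀ r)
      ⟨(2 * M)⁻¹, by positivity⟩ := by
    intro x hx y hy
    exact (convex_closedBall z₀ r).norm_image_sub_le_of_norm_hasFDerivWithin_le'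
      (fun w hw => (hd θ hθI w (hrB hw).2).hasFDerivWithinAt)
      (fun w hw => hAB (show ((θ, w) : ℝ × E) ∈ A ×ˢ B from ⟨hθA, (hrB hw).1⟩)) hy hx
  have hsurj := happ.surjOn_closedBall_of_nonlinearRightInverse s hr.le Subset.rfl
  have h0m : (0 : E) ∈ closedBall (F θ z₀)
      (((s.nnnorm : ℝ)⁻¹ - (⟨(2 * M)⁻¹, by positivity⟩ : NNReal)) * r) ∨ s.nnnorm = 0 := by
    rcases hMi with h | h
    · left
      rw [mem_closedBall, dist_eq_norm, zero_sub, norm_neg]
      refine hθ1.trans ?_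
      gcongr
      change (2 * M)⁻¹ ≤ (s.nnnorm : ℝ)⁻¹ - (2 * M)⁻¹
      have : (2 * M)⁻¹ + (2 * M)⁻¹ = M⁻¹ := by field_simp; norm_num
      linarith
    · right; exact_mod_cast h
  rcases h0m with h | h
  · obtain ⟨z, hz1, hz2⟩ := hsurj h
    exact ⟨z, (hrB hz1).2, hz2⟩
  · -- the right inverse is zero: `E` is trivial
    have hall : ∀ x : E, x = 0 := fun x => by
      have h5 := s.bound (e x)
      rw [h] at h5
      have h6 : s (e x) = x := e.symm_apply_apply x
      rw [h6] at h5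
      simpa using h5
    exact ⟨z₀, hz, hall _⟩

/-- the continuation principle -/
theorem continuation {K : Set E} (hK : IsCompact K) {F : ℝ → E → E} {F' : ℝ → E → E →L[ℂ] E}
    (hc : ContinuousOn (fun p : ℝ × E => F p.1 p.2) (Icc (0 : ℝ) 1 ×ˢ K))
    (hd : ∀ θ ∈ Icc (0 : ℝ) 1, ∀ z ∈ interior K, HasFDerivAt (F θ) (F' θ z) z)
    (hc' : ContinuousOn (fun p : ℝ × E => F' p.1 p.2) (Icc (0 : ℝ) 1 ×ˢ interior K))
    (hfr : ∀ θ ∈ Icc (0 : ℝ) 1, ∀ z ∈ K, F θ z = 0 → z ∈ interior K)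
    (hinv : ∀ θ ∈ Icc (0 : ℝ) 1, ∀ z ∈ interior K, F θ z = 0 →
      ∃ e : E ≃L[ℂ] E, (e : E →L[ℂ] E) = F' θ z)
    (h0 : ∃ z ∈ K, F 0 z = 0) {θ : ℝ} (hθ : θ ∈ Icc (0 : ℝ) 1) : ∃ z ∈ interior K, F θ z = 0 := by
  set S : Set ℝ := {θ | ∃ z ∈ K, F θ z = 0} with hS
  have hsub : Icc (0 : ℝ) 1 ⊆ S := by
    refine IsClosed.Icc_subset_of_forall_mem_nhdsWithin ?_ h0 ?_
    · -- closed
      have hcl : IsClosed ((Icc (0 : ℝ) 1 ×ˢ K) ∩ (fun p : ℝ × E => F p.1 p.2) ⁻¹' {0}) :=
        hc.preimage_isClosed_of_isClosed (isClosed_Icc.prod hK.isClosed) isClosed_singleton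
      have hcp : IsCompact ((Icc (0 : ℝ) 1 ×ˢ K) ∩ (fun p : ℝ × E => F p.1 p.2) ⁻¹' {0}) :=
        (isCompact_Icc.prod hK).of_isClosed_subset hcl Set.inter_subset_left
      have : S ∩ Icc 0 1 = Prod.fst '' ((Icc (0 : ℝ) 1 ×ˢ K) ∩
          (fun p : ℝ × E => F p.1 p.2) ⁻¹' {0}) := by
        ext t
        constructor
        · rintro ⟨⟨z, hz, hz0⟩, ht⟩
          exact ⟨(t, z), ⟨⟨ht, hz⟩, hz0⟩, rfl⟩
        · rintro ⟨⟨t', z⟩, ⟨⟨ht, hz⟩, hz0⟩, rfl⟩
          exact ⟨⟨z, hz, hz0⟩, ht⟩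
      rw [this]
      exact (hcp.image continuous_fst).isClosed
    · rintro t ⟨⟨z, hz, hz0⟩, ht⟩
      have htI : t ∈ Icc (0 : ℝ) 1 := ⟨ht.1, ht.2.le⟩
      have hzi := hfr t htI z hz hz0
      obtain ⟨e, he⟩ := hinv t htI z hzi hz0
      have := cont_near isOpen_interior (hc.mono (Set.prod_mono_right interior_subset)) hd hc'
        htI hzi hz0 e he
      have h2 : ∀ᶠ θ in 𝓝[>] t, ∃ z ∈ interior K, F θ z = 0 := by
        have hle : 𝓝[>] t ≤ 𝓝[Icc (0 : ℝ) 1] t := by
          rw [← nhdsWithin_Ioo_eq_nhdsGT ht.2]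
          exact nhdsWithin_mono _ fun x hx => ⟨ht.1.trans hx.1.le, hx.2.le⟩
        exact this.filter_mono hle
      filter_upwards [h2] with x hx
      obtain ⟨z, hz, hz0⟩ := hx
      exact ⟨z, interior_subset hz, hz0⟩
  obtain ⟨z, hz, hz0⟩ := hsub hθ
  exact ⟨z, hfr θ hθ z hz hz0, hz0⟩

/-- the continuation principle in `ι → ℂ` with a Jacobian matrix -/
theorem continuation_det {ι : Type*} [Fintype ι] [DecidableEq ι] {K : Set (ι → ℂ)}
    (hK : IsCompact K) {F : ℝ → (ι → ℂ) → ι → ℂ} {J : ℝ → (ι → ℂ) → Matrix ι ι ℂ}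
    (hc : ContinuousOn (fun p : ℝ × (ι → ℂ) => F p.1 p.2) (Icc (0 : ℝ) 1 ×ˢ K))
    (hd : ∀ θ ∈ Icc (0 : ℝ) 1, ∀ z ∈ interior K,
      HasFDerivAt (F θ) (LinearMap.toContinuousLinearMap (Matrix.toLin' (J θ z))) z)
    (hc' : ∀ i j, ContinuousOn (fun p : ℝ × (ι → ℂ) => J p.1 p.2 i j)
      (Icc (0 : ℝ) 1 ×ˢ interior K))
    (hfr : ∀ θ ∈ Icc (0 : ℝ) 1, ∀ z ∈ K, F θ z = 0 → z ∈ interior K)
    (hdet : ∀ θ ∈ Icc (0 : ℝ) 1, ∀ z ∈ interior K, F θ z = 0 → (J θ z).det ≠ 0)
    (h0 : ∃ z ∈ K, F 0 z = 0) {θ : ℝ} (hθ : θ ∈ Icc (0 : ℝ) 1) : ∃ z ∈ interior K, F θ z = 0 := by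
  refine continuation (F' := fun θ z => LinearMap.toContinuousLinearMap (Matrix.toLin' (J θ z)))
    hK hc hd ?_ hfr ?_ h0 hθ
  · have h1 : ContinuousOn (fun p : ℝ × (ι → ℂ) => J p.1 p.2) (Icc (0 : ℝ) 1 ×ˢ interior K) :=
      continuousOn_pi.2 fun i => continuousOn_pi.2 fun j => hc' i j
    have h2 : Continuous fun A : Matrix ι ι ℂ =>
        (LinearMap.toContinuousLinearMap (Matrix.toLin' A) : (ι → ℂ) →L[ℂ] (ι → ℂ)) := by
      exact LinearMap.continuous_of_finiteDimensional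
        ((LinearMap.toContinuousLinearMap (𝕜 := ℂ) (E := ι → ℂ) (F' := ι → ℂ)).toLinearMap ∘ₗ
          (Matrix.toLin' (R := ℂ) (m := ι) (n := ι)).toLinearMap)
    exact h2.comp_continuousOn h1
  · intro θ hθ z hz hz0
    have hu : IsUnit (J θ z).det := isUnit_iff_ne_zero.2 (hdet θ hθ z hz hz0)
    refine ⟨LinearEquiv.toContinuousLinearEquiv (Matrix.toLinearEquiv' (J θ z)
      (Matrix.invertibleOfIsUnitDet _ hu)), ?_⟩
    ext x i
    rfl

/-- the continuation principle for a compact set `K` of pairs `(θ, z)` -/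
theorem continuation_set {K : Set (ℝ × E)} (hK : IsCompact K)
    {F : ℝ × E → E} {F' : ℝ × E → E →L[ℂ] E} (hc : ContinuousOn F K)
    (hloc : ∀ p ∈ K, p.1 ∈ Icc (0 : ℝ) 1 → F p = 0 → ∃ U : Set (ℝ × E), IsOpen U ∧ p ∈ U ∧
      (∀ q ∈ U, q.1 ∈ Icc (0 : ℝ) 1 → q ∈ K ∧ HasFDerivAt (fun z => F (q.1, z)) (F' q) q.2) ∧
      ContinuousOn F' (U ∩ {q | q.1 ∈ Icc (0 : ℝ) 1}) ∧
      ∃ e : E ≃L[ℂ] E, (e : E →L[ℂ] E) = F' p)
    (h0 : ∃ z, (0, z) ∈ K ∧ F (0, z) = 0) {θ : ℝ} (hθ : θ ∈ Icc (0 : ℝ) 1) :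
    ∃ z, (θ, z) ∈ K ∧ F (θ, z) = 0 := by
  set S : Set ℝ := {θ | ∃ z, (θ, z) ∈ K ∧ F (θ, z) = 0} with hS
  have hsub : Icc (0 : ℝ) 1 ⊆ S := by
    refine IsClosed.Icc_subset_of_forall_mem_nhdsWithin ?_ h0 ?_
    · have hcl : IsClosed (K ∩ F ⁻¹' {0}) :=
        hc.preimage_isClosed_of_isClosed hK.isClosed isClosed_singleton
      have hcp : IsCompact (K ∩ F ⁻¹' {0}) := hK.of_isClosed_subset hcl Set.inter_subset_left
      have : S = Prod.fst '' (K ∩ F ⁻¹' {0}) := by
        ext t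
        constructor
        · rintro ⟨z, hz, hz0⟩
          exact ⟨(t, z), ⟨hz, hz0⟩, rfl⟩
        · rintro ⟨⟨t', z⟩, ⟨hz, hz0⟩, rfl⟩
          exact ⟨z, hz, hz0⟩
      rw [this]
      exact (hcp.image continuous_fst).isClosed.inter isClosed_Icc
    · rintro t ⟨⟨z, hz, hz0⟩, ht⟩
      have htI : t ∈ Icc (0 : ℝ) 1 := ⟨ht.1, ht.2.le⟩
      obtain ⟨U, hU, hpU, hq, hcJ, e, he⟩ := hloc (t, z) hz htI hz0
      obtain ⟨A, B, hA, hB, htA, hzB, hAB⟩ := isOpen_prod_iff.1 hU t z hpU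
      have key := cont_near (I := A ∩ Icc (0 : ℝ) 1) (U := B) hB (F := fun θ z => F (θ, z))
        (F' := fun θ z => F' (θ, z)) (θ₀ := t) (z₀ := z)
        (hc.mono fun q hqm => (hq q (hAB ⟨hqm.1.1, hqm.2⟩) hqm.1.2).1)
        (fun θ hθ z hz => (hq (θ, z) (hAB ⟨hθ.1, hz⟩) hθ.2).2)
        (hcJ.mono fun q hqm => ⟨hAB ⟨hqm.1.1, hqm.2⟩, hqm.1.2⟩)
        ⟨htA, htI⟩ hzB hz0 e he
      have hle : 𝓝[>] t ≤ 𝓝[A ∩ Icc (0 : ℝ) 1] t := by
        rw [← nhdsWithin_Ioo_eq_nhdsGT ht.2]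
        have h1 : Ioo t 1 ∩ A ⊆ A ∩ Icc (0 : ℝ) 1 := fun x hx =>
          ⟨hx.2, ht.1.trans hx.1.1.le, hx.1.2.le⟩
        rw [← nhdsWithin_inter_of_mem' (mem_nhdsWithin_of_mem_nhds (hA.mem_nhds htA))]
        exact nhdsWithin_mono _ h1
      have h3 := key.filter_mono hle
      have h4 : ∀ᶠ x in 𝓝[>] t, x ∈ A ∩ Icc (0 : ℝ) 1 := by
        have : A ∩ Icc (0 : ℝ) 1 ∈ 𝓝[A ∩ Icc (0 : ℝ) 1] t := self_mem_nhdsWithin
        exact hle this
      filter_upwards [h3, h4] with x hx hxA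
      obtain ⟨w, hw, hw0⟩ := hx
      exact ⟨w, (hq (x, w) (hAB ⟨hxA.1, hw⟩) hxA.2).1, hw0⟩
  exact hsub hθ

/-- the continuation principle for a compact set of pairs `(θ, z)`, with a Jacobian matrix -/
theorem continuation_set_det {ι : Type*} [Fintype ι] [DecidableEq ι]
    {K : Set (ℝ × (ι → ℂ))} (hK : IsCompact K)
    {F : ℝ × (ι → ℂ) → ι → ℂ} {J : ℝ × (ι → ℂ) → Matrix ι ι ℂ} (hc : ContinuousOn F K)
    (hloc : ∀ p ∈ K, p.1 ∈ Icc (0 : ℝ) 1 → F p = 0 → ∃ U : Set (ℝ × (ι → ℂ)), IsOpen U ∧ p ∈ U ∧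
      (∀ q ∈ U, q.1 ∈ Icc (0 : ℝ) 1 → q ∈ K ∧ HasFDerivAt (fun z => F (q.1, z))
        (LinearMap.toContinuousLinearMap (Matrix.toLin' (J q))) q.2) ∧
      (∀ i j, ContinuousOn (fun q => J q i j) (U ∩ {q | q.1 ∈ Icc (0 : ℝ) 1})) ∧
      (J p).det ≠ 0)
    (h0 : ∃ z, (0, z) ∈ K ∧ F (0, z) = 0) {θ : ℝ} (hθ : θ ∈ Icc (0 : ℝ) 1) :
    ∃ z, (θ, z) ∈ K ∧ F (θ, z) = 0 := by
  refine continuation_set (F' := fun q => LinearMap.toContinuousLinearMap (Matrix.toLin' (J q)))
    hK hc ?_ h0 hθ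
  intro p hp hp1 hp0
  obtain ⟨U, hU, hpU, hq, hcJ, hdet⟩ := hloc p hp hp1 hp0
  refine ⟨U, hU, hpU, hq, ?_, ?_⟩
  · have h1 : ContinuousOn J (U ∩ {q | q.1 ∈ Icc (0 : ℝ) 1}) :=
      continuousOn_pi.2 fun i => continuousOn_pi.2 fun j => hcJ i j
    have h2 : Continuous fun A : Matrix ι ι ℂ =>
        (LinearMap.toContinuousLinearMap (Matrix.toLin' A) : (ι → ℂ) →L[ℂ] (ι → ℂ)) := by
      exact LinearMap.continuous_of_finiteDimensional
        ((LinearMap.toContinuousLinearMap (𝕜 := ℂ) (E := ι → ℂ) (F' := ι → ℂ)).toLinearMap ∘ₗ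
          (Matrix.toLin' (R := ℂ) (m := ι) (n := ι)).toLinearMap)
    exact h2.comp_continuousOn h1
  · have hu : IsUnit (J p).det := isUnit_iff_ne_zero.2 hdet
    refine ⟨LinearEquiv.toContinuousLinearEquiv (Matrix.toLinearEquiv' (J p)
      (Matrix.invertibleOfIsUnitDet _ hu)), ?_⟩
    ext x i
    rfl

end Pool.Agent.Work.MP_b30479_gtS.G2

end

section

/-!
# Rings on the level part: comparison of the sides along `a B = const`
-/

namespace Pool.Agent.Work.MP_b30479_gtS.G2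

namespace RC

theorem anti_abs {k1 k2 c d u v : ℝ} (hk2 : 0 < k2) (h : k2 ≤ k1) (hc : 0 < c) (hcd : c ≤ d)
    (hd : k1 ≤ 2 * d) (h1 : d ≤ k2) (hu : 0 ≤ u) (hv : 0 ≤ v)
    (hs : c * (k1 - 2 * c) * (4 * (k1 - d) * d + v * k1 ^ 2) ≤ d * (2 * d - k1) * (4 * (k1 - c) * c)) :
    (4 * (k2 - c) * c + u * k2 ^ 2) * (4 * (k2 - d) * d + v * k2 ^ 2) * k1 ^ 4 ≤
      (4 * (k1 - c) * c + u * k1 ^ 2) * (4 * (k1 - d) * d + v * k1 ^ 2) * k2 ^ 4 := by
  have hk1 : 0 < k1 := by linarith only [hk2, h]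
  have hd0 : 0 < d := by linarith only [hc, hcd]
  set g1 := 4 * (k1 - c) * c / k1 ^ 2 with hg1
  set g2 := 4 * (k2 - c) * c / k2 ^ 2 with hg2
  set e1 := 4 * (k1 - d) * d / k1 ^ 2 with he1
  set e2 := 4 * (k2 - d) * d / k2 ^ 2 with he2
  have r1 : 4 * (k1 - c) * c + u * k1 ^ 2 = (g1 + u) * k1 ^ 2 := by rw [hg1]; field_simp
  have r2 : 4 * (k2 - c) * c + u * k2 ^ 2 = (g2 + u) * k2 ^ 2 := by rw [hg2]; field_simp
  have r3 : 4 * (k1 - d) * d + v * k1 ^ 2 = (e1 + v) * k1 ^ 2 := by rw [he1]; field_simp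
  have r4 : 4 * (k2 - d) * d + v * k2 ^ 2 = (e2 + v) * k2 ^ 2 := by rw [he2]; field_simp
  have hgd : g1 - g2 = 4 * (k1 - k2) / (k1 * k2) * (c * (c * (1 / k1 + 1 / k2) - 1)) := by
    rw [hg1, hg2]; field_simp; ring
  have hed : e1 - e2 = 4 * (k1 - k2) / (k1 * k2) * (d * (d * (1 / k1 + 1 / k2) - 1)) := by
    rw [he1, he2]; field_simp; ring
  have hK : 0 ≤ 4 * (k1 - k2) / (k1 * k2) := by
    have : 0 ≤ k1 - k2 := by linarith only [h]
    positivity
  have hi : 1 / k1 ≤ 1 / k2 := one_div_le_one_div_of_le hk2 h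
  have hi1 : 0 < 1 / k1 := by positivity
  have hg1p : 0 ≤ g1 := by
    rw [hg1]
    have : 0 ≤ k1 - c := by linarith only [h, hcd, h1]
    positivity
  have hg2p : 0 ≤ g2 := by
    rw [hg2]
    have : 0 ≤ k2 - c := by linarith only [hcd, h1]
    positivity
  have he1p : 0 ≤ e1 := by
    rw [he1]
    have : 0 ≤ k1 - d := by linarith only [h, h1]
    positivity
  have hdσ : 0 ≤ d * (1 / k1 + 1 / k2) - 1 := by
    have : d * (2 * (1 / k1)) ≤ d * (1 / k1 + 1 / k2) :=
      mul_le_mul_of_nonneg_left (by linarith only [hi]) hd0.le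
    have h2 : 1 ≤ d * (2 * (1 / k1)) := by
      rw [show d * (2 * (1 / k1)) = 2 * d / k1 by ring, le_div_iff₀ hk1]
      linarith only [hd]
    linarith only [this, h2]
  have key : 0 ≤ c * (c * (1 / k1 + 1 / k2) - 1) * (e1 + v) +
      d * (d * (1 / k1 + 1 / k2) - 1) * (g2 + u) := by
    rcases le_total 0 (c * (1 / k1 + 1 / k2) - 1) with h2 | h2
    · positivity
    · have h3 : g1 ≤ g2 := by
        have : g1 - g2 ≤ 0 := by
          rw [hgd]
          exact mul_nonpos_of_nonneg_of_nonpos hK (mul_nonpos_of_nonneg_of_nonpos hc.le h2)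
        linarith only [this]
      have h4 : c * (1 - c * (1 / k1 + 1 / k2)) ≤ c * (1 - 2 * c * (1 / k1)) := by
        have : c * (2 * (1 / k1)) ≤ c * (1 / k1 + 1 / k2) :=
          mul_le_mul_of_nonneg_left (by linarith only [hi]) hc.le
        nlinarith only [hc, this]
      have h5 : d * (2 * d * (1 / k1) - 1) ≤ d * (d * (1 / k1 + 1 / k2) - 1) := by
        have : d * (2 * (1 / k1)) ≤ d * (1 / k1 + 1 / k2) :=
          mul_le_mul_of_nonneg_left (by linarith only [hi]) hd0.le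
        nlinarith only [hc, this, hcd]
      have h6 : c * (1 - 2 * c * (1 / k1)) * (e1 + v) ≤ d * (2 * d * (1 / k1) - 1) * g1 := by
        rw [r3] at hs
        have hs2 : 4 * (k1 - c) * c = g1 * k1 ^ 2 := by rw [hg1]; field_simp
        rw [hs2] at hs
        have hk3 : 0 < k1 ^ 3 := by positivity
        have : (c * (1 - 2 * c * (1 / k1)) * (e1 + v)) * k1 ^ 3 ≤
            (d * (2 * d * (1 / k1) - 1) * g1) * k1 ^ 3 := by
          calc (c * (1 - 2 * c * (1 / k1)) * (e1 + v)) * k1 ^ 3 =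
              c * (k1 - 2 * c) * ((e1 + v) * k1 ^ 2) := by field_simp
            _ ≤ _ := hs
            _ = _ := by field_simp
        exact le_of_mul_le_mul_right this hk3
      have h7 : d * (2 * d * (1 / k1) - 1) * g1 ≤ d * (d * (1 / k1 + 1 / k2) - 1) * (g2 + u) := by
        have a1 : d * (2 * d * (1 / k1) - 1) * g1 ≤ d * (d * (1 / k1 + 1 / k2) - 1) * g1 :=
          mul_le_mul_of_nonneg_right h5 hg1p
        have a2 : d * (d * (1 / k1 + 1 / k2) - 1) * g1 ≤
            d * (d * (1 / k1 + 1 / k2) - 1) * (g2 + u) :=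
          mul_le_mul_of_nonneg_left (by linarith only [hu, h3]) (by positivity)
        linarith only [a1, a2]
      have h8 : c * (1 - c * (1 / k1 + 1 / k2)) * (e1 + v) ≤
          c * (1 - 2 * c * (1 / k1)) * (e1 + v) :=
        mul_le_mul_of_nonneg_right h4 (by linarith only [hv, he1p])
      have h9 : c * (c * (1 / k1 + 1 / k2) - 1) * (e1 + v) =
          -(c * (1 - c * (1 / k1 + 1 / k2)) * (e1 + v)) := by ring
      rw [h9]
      linarith only [h6, h7, h8]
  generalize 1 / k1 + 1 / k2 = σ at hgd hed key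
  have hmain : (g2 + u) * (e2 + v) ≤ (g1 + u) * (e1 + v) := by
    have e : (g1 + u) * (e1 + v) - (g2 + u) * (e2 + v) = 4 * (k1 - k2) / (k1 * k2) *
        (c * (c * σ - 1) * (e1 + v) + d * (d * σ - 1) * (g2 + u)) := by
      have : (g1 + u) * (e1 + v) - (g2 + u) * (e2 + v) = (g1 - g2) * (e1 + v) +
        (g2 + u) * (e1 - e2) := by ring
      rw [this, hgd, hed]
      ring
    have := mul_nonneg hK key
    linarith only [e, this]
  rw [r1, r2, r3, r4]
  have h9 : 0 ≤ k1 ^ 4 * k2 ^ 4 := by positivity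
  have h10 := mul_le_mul_of_nonneg_right hmain h9
  calc (g2 + u) * k2 ^ 2 * ((e2 + v) * k2 ^ 2) * k1 ^ 4 =
      (g2 + u) * (e2 + v) * (k1 ^ 4 * k2 ^ 4) := by ring
    _ ≤ _ := h10
    _ = _ := by ring

theorem comb {X2 Y2 X1 Y1 W1 W2 k1 k2 : ℝ} (hk1 : 0 < k1) (hk2 : 0 < k2) (hW1 : 0 < W1)
    (hXY : 0 < X1 * Y1) (h1 : X2 * Y2 * k1 ^ 4 ≤ X1 * Y1 * k2 ^ 4) (hW : W1 * k2 ^ 2 < W2 * k1 ^ 2) :
    X2 * Y2 * W1 ^ 2 < X1 * Y1 * W2 ^ 2 := by
  have s1 : (W1 * k2 ^ 2) ^ 2 < (W2 * k1 ^ 2) ^ 2 :=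
    pow_lt_pow_left₀ hW (by positivity) (by norm_num)
  have s2 : X2 * Y2 * k1 ^ 4 * W1 ^ 2 ≤ X1 * Y1 * k2 ^ 4 * W1 ^ 2 :=
    mul_le_mul_of_nonneg_right h1 (by positivity)
  have s3 : X1 * Y1 * (W1 * k2 ^ 2) ^ 2 < X1 * Y1 * (W2 * k1 ^ 2) ^ 2 :=
    mul_lt_mul_of_pos_left s1 hXY
  have s4 : X2 * Y2 * W1 ^ 2 * k1 ^ 4 < X1 * Y1 * W2 ^ 2 * k1 ^ 4 := by
    calc X2 * Y2 * W1 ^ 2 * k1 ^ 4 = X2 * Y2 * k1 ^ 4 * W1 ^ 2 := by ring
      _ ≤ _ := s2
      _ = X1 * Y1 * (W1 * k2 ^ 2) ^ 2 := by ring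
      _ < _ := s3
      _ = _ := by ring
  exact lt_of_mul_lt_mul_right s4 (by positivity)

theorem w_lt {a1 a2 : ℝ} (ha1 : 0 < a1) (ha : a1 < a2) (ha2 : a2 ≤ 1) (B1 B2 τ : ℝ) :
    (4 * a1 ^ 2 * (1 + B1 ^ 2) ^ 2 + τ * ((1 + a1 ^ 2) * (1 + B1 ^ 2)) ^ 2) *
        ((1 + a2 ^ 2) * (1 + B2 ^ 2)) ^ 2 <
      (4 * a2 ^ 2 * (1 + B2 ^ 2) ^ 2 + τ * ((1 + a2 ^ 2) * (1 + B2 ^ 2)) ^ 2) *
        ((1 + a1 ^ 2) * (1 + B1 ^ 2)) ^ 2 := by
  have ha20 : 0 < a2 := ha1.trans ha
  have h3 : a1 * (1 + a2 ^ 2) < a2 * (1 + a1 ^ 2) := by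
    have h1 : a1 * a2 < 1 := by
      calc a1 * a2 ≤ a1 * 1 := mul_le_mul_of_nonneg_left ha2 ha1.le
        _ < 1 := by linarith only [ha, ha2]
    have h2 : 0 < (a2 - a1) * (1 - a1 * a2) := mul_pos (by linarith only [ha]) (by linarith only [h1])
    linarith only [h2]
  have h4 : (a1 * (1 + a2 ^ 2)) ^ 2 < (a2 * (1 + a1 ^ 2)) ^ 2 :=
    pow_lt_pow_left₀ h3 (by positivity) (by norm_num)
  have h5 : 0 < 4 * ((1 + B1 ^ 2) * (1 + B2 ^ 2)) ^ 2 := by positivity
  have h6 := mul_lt_mul_of_pos_left h4 h5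
  linarith only [h6]

/-- the condition at the starting point (`c = (1 - p)²`, `d = (1 + p)²`, `k = (1 + a²)(1 + B²)`) -/
def HS (a B v : ℝ) : Prop :=
  ((1 + a ^ 2) * (1 + B ^ 2) - 2 * (1 - a * B) ^ 2) *
      (4 * (B - a) ^ 2 * (1 + a * B) ^ 2 + v * ((1 + a ^ 2) * (1 + B ^ 2)) ^ 2) ≤
    (1 + a * B) ^ 2 * (2 * (1 + a * B) ^ 2 - (1 + a ^ 2) * (1 + B ^ 2)) * (4 * (a + B) ^ 2)

theorem w_anti_aux {a1 B1 a2 B2 u v : ℝ} (ha1 : 0 < a1) (hB1 : 0 < B1)
    (hp : a1 * B1 = a2 * B2) (hp1 : a1 * B1 < 1)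
    (hα : (a2 + B2) ^ 2 ≤ (a1 + B1) ^ 2)
    (hcos : (1 + a1 ^ 2) * (1 + B1 ^ 2) ≤ 2 * (1 + a1 * B1) ^ 2)
    (hu : 0 ≤ u) (hv : 0 ≤ v) (hs : HS a1 B1 v) :
    (4 * (a2 + B2) ^ 2 * (1 - a2 * B2) ^ 2 + u * ((1 + a2 ^ 2) * (1 + B2 ^ 2)) ^ 2) *
      (4 * (B2 - a2) ^ 2 * (1 + a2 * B2) ^ 2 + v * ((1 + a2 ^ 2) * (1 + B2 ^ 2)) ^ 2) *
      ((1 + a1 ^ 2) * (1 + B1 ^ 2)) ^ 4 ≤
    (4 * (a1 + B1) ^ 2 * (1 - a1 * B1) ^ 2 + u * ((1 + a1 ^ 2) * (1 + B1 ^ 2)) ^ 2) *
      (4 * (B1 - a1) ^ 2 * (1 + a1 * B1) ^ 2 + v * ((1 + a1 ^ 2) * (1 + B1 ^ 2)) ^ 2) *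
      ((1 + a2 ^ 2) * (1 + B2 ^ 2)) ^ 4 := by
  unfold HS at hs
  have e1 : (a1 + B1) ^ 2 = (1 + a1 ^ 2) * (1 + B1 ^ 2) - (1 - a1 * B1) ^ 2 := by ring
  have e2 : (a2 + B2) ^ 2 = (1 + a2 ^ 2) * (1 + B2 ^ 2) - (1 - a1 * B1) ^ 2 := by rw [hp]; ring
  have e3 : (B1 - a1) ^ 2 = (1 + a1 ^ 2) * (1 + B1 ^ 2) - (1 + a1 * B1) ^ 2 := by ring
  have e4 : (B2 - a2) ^ 2 = (1 + a2 ^ 2) * (1 + B2 ^ 2) - (1 + a1 * B1) ^ 2 := by rw [hp]; ring
  have q4 : 0 ≤ (B2 - a2) ^ 2 := sq_nonneg _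
  have hk1 : 0 < (1 + a1 ^ 2) * (1 + B1 ^ 2) := by positivity
  have hk2 : 0 < (1 + a2 ^ 2) * (1 + B2 ^ 2) := by positivity
  have hpp : 0 < a1 * B1 := by positivity
  rw [← hp]
  rw [e2] at hα ⊢
  rw [e1] at hα hs ⊢
  rw [e4] at q4 ⊢
  rw [e3] at hs ⊢
  generalize (1 + a1 ^ 2) * (1 + B1 ^ 2) = k1 at *
  generalize (1 + a2 ^ 2) * (1 + B2 ^ 2) = k2 at *
  generalize a1 * B1 = p at *
  have hc : 0 < (1 - p) ^ 2 := by
    have : 0 < 1 - p := by linarith only [hp1]
    positivity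
  have hs' : (1 - p) ^ 2 * (k1 - 2 * (1 - p) ^ 2) * (4 * (k1 - (1 + p) ^ 2) * (1 + p) ^ 2 + v * k1 ^ 2) ≤
      (1 + p) ^ 2 * (2 * (1 + p) ^ 2 - k1) * (4 * (k1 - (1 - p) ^ 2) * (1 - p) ^ 2) := by
    have := mul_le_mul_of_nonneg_left hs hc.le
    linarith only [this]
  exact anti_abs (u := u) hk2 (by linarith only [hα]) hc (by linarith only [hpp]) hcos (by linarith only [q4]) hu hv hs'

/-- **Comparison of the sides along `a B = const`**: from `(a1, B1)` to `(a2, B2)`, `a1 < a2`. -/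
theorem w_anti {a1 B1 a2 B2 u v τ : ℝ} (ha1 : 0 < a1) (hB1 : 0 < B1)
    (hp : a1 * B1 = a2 * B2) (hp1 : a1 * B1 < 1) (ha : a1 < a2) (ha2 : a2 ≤ 1)
    (hα : (a2 + B2) ^ 2 ≤ (a1 + B1) ^ 2)
    (hcos : (1 + a1 ^ 2) * (1 + B1 ^ 2) ≤ 2 * (1 + a1 * B1) ^ 2)
    (hu : 0 ≤ u) (hv : 0 ≤ v) (hτ : 0 ≤ τ) (hs : HS a1 B1 v)
    (hpos : 0 < 4 * (B1 - a1) ^ 2 * (1 + a1 * B1) ^ 2 + v * ((1 + a1 ^ 2) * (1 + B1 ^ 2)) ^ 2) :
    (4 * (a2 + B2) ^ 2 * (1 - a2 * B2) ^ 2 + u * ((1 + a2 ^ 2) * (1 + B2 ^ 2)) ^ 2) *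
      (4 * (B2 - a2) ^ 2 * (1 + a2 * B2) ^ 2 + v * ((1 + a2 ^ 2) * (1 + B2 ^ 2)) ^ 2) *
      (4 * a1 ^ 2 * (1 + B1 ^ 2) ^ 2 + τ * ((1 + a1 ^ 2) * (1 + B1 ^ 2)) ^ 2) ^ 2 <
    (4 * (a1 + B1) ^ 2 * (1 - a1 * B1) ^ 2 + u * ((1 + a1 ^ 2) * (1 + B1 ^ 2)) ^ 2) *
      (4 * (B1 - a1) ^ 2 * (1 + a1 * B1) ^ 2 + v * ((1 + a1 ^ 2) * (1 + B1 ^ 2)) ^ 2) *
      (4 * a2 ^ 2 * (1 + B2 ^ 2) ^ 2 + τ * ((1 + a2 ^ 2) * (1 + B2 ^ 2)) ^ 2) ^ 2 := by
  have h1 : 0 < 1 - a1 * B1 := by linarith only [hp1]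
  exact comb (by positivity) (by positivity) (by positivity)
    (mul_pos (by positivity) hpos)
    (w_anti_aux ha1 hB1 hp hp1 hα hcos hu hv hs) (w_lt ha1 ha ha2 B1 B2 τ)

end RC

end Pool.Agent.Work.MP_b30479_gtS.G2

end

section

/-!
# The ring system of a chain of twist regions

Ring `i`: `π ζ_i = - s_i w_i` (`s_i = ± 1` the sign of the twist region, `b_i > 0` the number of
crossings), `κ_i = cos w_i`, `T = tan w_i`; for a neighbour with value `k = κ_j`:
`R = √(T ^ 2 + 1 / k ^ 2)` is the cotangent of the hinge variable, `sinh Q = T k`, `cosh Q = R k`;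
ring equation: `b_i w_i = π - i s_i ∑_j Q (w_i, κ_j)`.
-/

namespace Pool.Agent.Work.MP_b30479_gtS.G2

open Complex Set Filter Topology

/-- the number under the root -/
noncomputable def ZZ0 (w k : ℂ) : ℂ := Complex.tan w ^ 2 + (k ^ 2)⁻¹

/-- the cotangent of the hinge variable, seen from the ring `w` with the neighbour value `k` -/
noncomputable def RR (w k : ℂ) : ℂ := ZZ0 w k ^ (2⁻¹ : ℂ)

/-- `sinh (QQ w k) = tan w * k` -/
noncomputable def QQ (w k : ℂ) : ℂ := log (Complex.tan w + RR w k) + log k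

lemma RR_sq (w k : ℂ) : RR w k ^ 2 = ZZ0 w k := by
  unfold RR
  rw [← Complex.cpow_nat_mul]
  norm_num

lemma RR_re (w k : ℂ) : (RR w k).re = √((‖ZZ0 w k‖ + (ZZ0 w k).re) / 2) := Complex.cpow_inv_two_re _

lemma ZZ0_slit {w k : ℂ} (h : 0 < (RR w k).re) : ZZ0 w k ∈ slitPlane := by
  rw [RR_re, Real.sqrt_pos] at h
  rw [Complex.mem_slitPlane_iff]
  by_contra hc
  rw [not_or, not_lt, not_not] at hc
  have h1 : ‖ZZ0 w k‖ = -(ZZ0 w k).re := by
    rw [← abs_of_nonpos hc.1, Complex.abs_re_eq_norm.2 hc.2]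
  rw [h1] at h
  linarith only [h]

lemma RR_ne {w k : ℂ} (h : 0 < (RR w k).re) : RR w k ≠ 0 := fun h0 => by
  rw [h0] at h
  exact lt_irrefl _ h

lemma tan_re_pos {w : ℂ} (h0 : 0 < w.re) (h1 : w.re ≤ 3 / 2) : 0 < (Complex.tan w).re := by
  have hpi := Real.pi_gt_three
  have h2 : 0 < Real.sin (2 * w.re) := Real.sin_pos_of_pos_of_lt_pi (by linarith only [h0]) (by linarith only [h1, hpi])
  have hc0 : 0 < Real.cos w.re := Real.cos_pos_of_mem_Ioo ⟨by linarith only [h0, hpi], by linarith only [h1, hpi]⟩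
  have hs0 : 0 < Real.sin w.re := Real.sin_pos_of_pos_of_lt_pi h0 (by linarith only [h1, hpi])
  have hch : 0 < Real.cosh w.im := Real.cosh_pos _
  have hcos : Complex.cos w = (Real.cos w.re * Real.cosh w.im : ℝ) +
      (-(Real.sin w.re * Real.sinh w.im) : ℝ) * I := by
    conv_lhs => rw [← Complex.re_add_im w]
    rw [Complex.cos_add_mul_I]
    push_cast
    ring
  have hsin : Complex.sin w = (Real.sin w.re * Real.cosh w.im : ℝ) +
      (Real.cos w.re * Real.sinh w.im : ℝ) * I := by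
    conv_lhs => rw [← Complex.re_add_im w]
    rw [Complex.sin_add_mul_I]
    push_cast
    ring
  have hn : 0 < Complex.normSq (Complex.cos w) := by
    rw [Complex.normSq_pos]
    intro h
    have := congrArg Complex.re h
    rw [hcos] at this
    simp at this
    rcases this with h3 | h3
    · exact hc0.ne' h3
    · exact hch.ne' h3
  rw [Complex.tan, Complex.div_re, hcos, hsin]
  rw [hcos] at hn
  simp only [Complex.add_re, Complex.ofReal_re, Complex.mul_re, Complex.ofReal_im, Complex.I_re,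
    Complex.I_im, mul_zero, mul_one, sub_zero, add_zero, Complex.add_im, Complex.mul_im,
    zero_add]
  rw [← add_div]
  apply div_pos _ hn
  have e : Real.sin w.re * Real.cosh w.im * (Real.cos w.re * Real.cosh w.im) +
      Real.cos w.re * Real.sinh w.im * -(Real.sin w.re * Real.sinh w.im) =
      Real.sin w.re * Real.cos w.re * (Real.cosh w.im ^ 2 - Real.sinh w.im ^ 2) := by ring
  rw [e, Real.cosh_sq_sub_sinh_sq, mul_one]
  exact mul_pos hs0 hc0

lemma cos_ne_of {w : ℂ} (h : 0 < (Complex.cos w).re) : Complex.cos w ≠ 0 := fun h0 => by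
  rw [h0] at h
  exact lt_irrefl _ h

/-- derivative of `QQ` along curves -/
lemma hasFDerivAt_QQ {E : Type*} [NormedAddCommGroup E] [NormedSpace ℂ E] {f g : E → ℂ}
    {f' g' : E →L[ℂ] ℂ} {x : E} (hf : HasFDerivAt f f' x) (hg : HasFDerivAt g g' x)
    (h0 : 0 < (f x).re) (h1 : (f x).re ≤ 3 / 2) (hc : Complex.cos (f x) ≠ 0) (hk : 0 < (g x).re)
    (hR : 0 < (RR (f x) (g x)).re) :
    HasFDerivAt (fun y => QQ (f y) (g y))
      ((1 / (Complex.cos (f x) ^ 2 * RR (f x) (g x))) • f' +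
        (Complex.tan (f x) / (RR (f x) (g x) * g x)) • g') x := by
  have hk0 : g x ≠ 0 := fun h => by rw [h] at hk; exact lt_irrefl _ hk
  have hT : HasFDerivAt (fun y => Complex.tan (f y)) ((1 / Complex.cos (f x) ^ 2) • f') x :=
    (Complex.hasDerivAt_tan hc).comp_hasFDerivAt x hf
  have hg2 : HasFDerivAt (fun y => (g y ^ 2)⁻¹) ((-2 / g x ^ 3) • g') x := by
    have h2 : HasDerivAt (fun z : ℂ => (z ^ 2)⁻¹) (-2 / g x ^ 3) (g x) := by
      have := ((hasDerivAt_pow 2 (g x)).inv (pow_ne_zero 2 hk0))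
      refine this.congr_deriv ?_
      field_simp
      norm_num
      ring
    exact h2.comp_hasFDerivAt x hg
  have hZ : HasFDerivAt (fun y => ZZ0 (f y) (g y))
      ((2 * Complex.tan (f x)) • ((1 / Complex.cos (f x) ^ 2) • f') + (-2 / g x ^ 3) • g') x := by
    have := hT.pow 2
    simp only [Nat.reduceSub, pow_one] at this
    refine (this.add hg2).congr_fderiv ?_
    ext y
    simp
  have hs := ZZ0_slit hR
  have hR0 := RR_ne hR
  have hRd : HasFDerivAt (fun y => RR (f y) (g y)) ((1 / (2 * RR (f x) (g x))) •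
      ((2 * Complex.tan (f x)) • ((1 / Complex.cos (f x) ^ 2) • f') + (-2 / g x ^ 3) • g')) x := by
    have h2 : HasDerivAt (fun z : ℂ => z ^ (2⁻¹ : ℂ)) (1 / (2 * RR (f x) (g x)))
        (ZZ0 (f x) (g x)) := by
      have h3 := (hasDerivAt_id (ZZ0 (f x) (g x))).cpow_const (c := (2⁻¹ : ℂ)) hs
      refine h3.congr_deriv ?_
      have h4 : ZZ0 (f x) (g x) ^ ((2⁻¹ : ℂ) - 1) = (RR (f x) (g x))⁻¹ := by
        unfold RR
        rw [← Complex.cpow_neg]
        norm_num
      simp only [id, h4, mul_one]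
      field_simp
    exact h2.comp_hasFDerivAt x hZ
  have hTR : Complex.tan (f x) + RR (f x) (g x) ∈ slitPlane := by
    rw [Complex.mem_slitPlane_iff]
    left
    rw [Complex.add_re]
    exact add_pos (tan_re_pos h0 h1) hR
  have hTR0 := Complex.slitPlane_ne_zero hTR
  have hgs : g x ∈ slitPlane := by
    rw [Complex.mem_slitPlane_iff]
    exact Or.inl hk
  have h5 := ((hT.add hRd).clog hTR).add (hg.clog hgs)
  refine h5.congr_fderiv ?_
  ext y
  have e2 : RR (f x) (g x) ^ 2 = Complex.tan (f x) ^ 2 + (g x ^ 2)⁻¹ := RR_sq _ _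
  simp only [_root_.add_apply, _root_.smul_apply, smul_eq_mul, Pi.add_apply]
  set R := RR (f x) (g x)
  set T := Complex.tan (f x)
  set c := Complex.cos (f x)
  set k := g x
  have e3 : k ^ 2 * (R ^ 2 - T ^ 2) = 1 := by
    rw [e2]
    field_simp
    ring
  have e4 : k ^ 2 * (R - T) * (T + R) = 1 := by linear_combination e3
  have e5 : (T + R)⁻¹ = k ^ 2 * (R - T) := by
    rw [inv_eq_iff_eq_inv, eq_comm, inv_eq_iff_eq_inv, eq_comm]
    field_simp
    linear_combination -e4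
  rw [e5]
  field_simp
  linear_combination (k * f' y) * e3

/-! ### the system -/

variable {ι : Type} [Fintype ι] [DecidableEq ι]

/-- the neighbour value at the time `θ` of the continuation -/
noncomputable def kap (θ : ℝ) (w : ℂ) : ℂ := 1 - θ + θ * Complex.cos w

/-- the ring system; `nb i` are the neighbours of `i` -/
noncomputable def FF (nb : ι → Finset ι) (b s : ι → ℝ) (θ : ℝ) (w : ι → ℂ) (i : ι) : ℂ :=
  b i * w i - Real.pi + I * s i * ∑ j ∈ nb i, QQ (w i) (kap θ (w j))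

/-- the derivative of the ring system -/
noncomputable def JRing (nb : ι → Finset ι) (b s : ι → ℝ) (θ : ℝ) (w : ι → ℂ) : Matrix ι ι ℂ :=
  fun i j => (if j = i then b i + I * s i * ∑ k ∈ nb i,
      1 / (Complex.cos (w i) ^ 2 * RR (w i) (kap θ (w k))) else 0) +
    if j ∈ nb i then -(I * s i * θ * (Complex.tan (w i) * Complex.sin (w j) /
      (RR (w i) (kap θ (w j)) * kap θ (w j)))) else 0

/-- star shaped hull about `1` -/
def Star1 (K : Set ℂ) : Set ℂ := {k | ∃ θ : ℝ, 0 ≤ θ ∧ θ ≤ 1 ∧ ∃ z ∈ K, k = 1 - θ + θ * z}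

/-- the statement about one ring: neighbours with values `k j ∈ Star1 (K j)`, own value in `K i` -/
structure RingOK (nb : ι → Finset ι) (b s : ι → ℝ) (K U : ι → Set ℂ) (r : ℝ) (i : ι)
    (k : ι → ℂ) (w : ℂ) : Prop where
  re0 : 0 < w.re
  re1 : w.re < 3 / 2
  im : |w.im| < 2
  mem : Complex.cos w ∈ U i
  hinge : ∀ j ∈ nb i, r < (RR w (k j)).re
  dom : ∑ j ∈ nb i, ‖Complex.tan w ^ 2 / RR w (k j)‖ <
    ‖(b i : ℂ) + I * s i * ∑ j ∈ nb i, 1 / (Complex.cos w ^ 2 * RR w (k j))‖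

/-- the statement about all rings -/
def RingsOK (nb : ι → Finset ι) (b s : ι → ℝ) (K U : ι → Set ℂ) (r : ℝ) : Prop :=
  ∀ i, ∀ k : ι → ℂ, (∀ j ∈ nb i, k j ∈ Star1 (K j)) → ∀ w : ℂ, 0 ≤ w.re → w.re ≤ 3 / 2 → |w.im| ≤ 2 →
    Complex.cos w ∈ K i → (∀ j ∈ nb i, r ≤ (RR w (k j)).re) →
    b i * w - Real.pi + I * s i * ∑ j ∈ nb i, QQ w (k j) = 0 → RingOK nb b s K U r i k w

end Pool.Agent.Work.MP_b30479_gtS.G2

end

section

/-!
# Existence of a solution of the ring system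
-/

namespace Pool.Agent.Work.MP_b30479_gtS.G2

open Complex Set Filter Topology

lemma tan_re_nonneg {w : ℂ} (h0 : 0 ≤ w.re) (h1 : w.re ≤ 3 / 2) : 0 ≤ (Complex.tan w).re := by
  rcases h0.eq_or_lt with h | h
  · have hw : w = (w.im : ℂ) * I := by
      conv_lhs => rw [← Complex.re_add_im w, ← h]
      simp
    rw [hw, Complex.tan_mul_I, ← Complex.ofReal_tanh]
    simp
  · exact (tan_re_pos h h1).le

section cont
variable {X : Type*} [TopologicalSpace X] {f g : X → ℂ} {x : X}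

lemma continuousAt_ZZ0 (hf : ContinuousAt f x) (hg : ContinuousAt g x)
    (hc : Complex.cos (f x) ≠ 0) (hk : g x ≠ 0) : ContinuousAt (fun y => ZZ0 (f y) (g y)) x := by
  unfold ZZ0
  have h1 : ContinuousAt (fun y => Complex.tan (f y)) x := (continuousAt_tan.2 hc).comp hf
  exact (h1.pow 2).add ((hg.pow 2).inv₀ (pow_ne_zero 2 hk))

lemma continuousAt_RR_re (hf : ContinuousAt f x) (hg : ContinuousAt g x)
    (hc : Complex.cos (f x) ≠ 0) (hk : g x ≠ 0) :
    ContinuousAt (fun y => (RR (f y) (g y)).re) x := by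
  simp_rw [RR_re]
  have h := continuousAt_ZZ0 hf hg hc hk
  exact ((h.norm.add (Complex.continuous_re.continuousAt.comp h)).div_const 2).sqrt

lemma continuousAt_RR (hf : ContinuousAt f x) (hg : ContinuousAt g x)
    (hc : Complex.cos (f x) ≠ 0) (hk : g x ≠ 0) (hR : 0 < (RR (f x) (g x)).re) :
    ContinuousAt (fun y => RR (f y) (g y)) x := by
  unfold RR
  exact (continuousAt_ZZ0 hf hg hc hk).cpow continuousAt_const (ZZ0_slit hR)

lemma continuousAt_QQ (hf : ContinuousAt f x) (hg : ContinuousAt g x) (h0 : 0 ≤ (f x).re)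
    (h1 : (f x).re ≤ 3 / 2) (hc : Complex.cos (f x) ≠ 0) (hk : 0 < (g x).re)
    (hR : 0 < (RR (f x) (g x)).re) : ContinuousAt (fun y => QQ (f y) (g y)) x := by
  unfold QQ
  have hk0 : g x ≠ 0 := fun h => by rw [h] at hk; exact lt_irrefl _ hk
  have h2 : ContinuousAt (fun y => Complex.tan (f y)) x := (continuousAt_tan.2 hc).comp hf
  have hTR : Complex.tan (f x) + RR (f x) (g x) ∈ slitPlane := by
    rw [Complex.mem_slitPlane_iff]
    left
    rw [Complex.add_re]
    exact add_pos_of_nonneg_of_pos (tan_re_nonneg h0 h1) hR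
  refine ((h2.add (continuousAt_RR hf hg hc hk0 hR)).clog hTR).add (hg.clog ?_)
  rw [Complex.mem_slitPlane_iff]
  exact Or.inl hk

end cont

lemma kap_re_pos {θ : ℝ} (h0 : 0 ≤ θ) (h1 : θ ≤ 1) {w : ℂ} (h : 0 < (Complex.cos w).re) :
    0 < (kap θ w).re := by
  have e : (kap θ w).re = 1 - θ + θ * (Complex.cos w).re := by simp [kap]
  rw [e]
  rcases h0.eq_or_lt with h2 | h2
  · rw [← h2]
    norm_num
  · have := mul_pos h2 h
    linarith

lemma norm_kap_ge {θ : ℝ} (h0 : 0 ≤ θ) (h1 : θ ≤ 1) {w : ℂ} (h : 0 < (Complex.cos w).re) :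
    ‖θ * Complex.cos w‖ ≤ ‖kap θ w‖ := by
  rw [← sq_le_sq₀ (norm_nonneg _) (norm_nonneg _), ← Complex.normSq_eq_norm_sq,
    ← Complex.normSq_eq_norm_sq, Complex.normSq_apply, Complex.normSq_apply]
  have e1 : (kap θ w).re = 1 - θ + θ * (Complex.cos w).re := by simp [kap]
  have e2 : (kap θ w).im = θ * (Complex.cos w).im := by simp [kap]
  have e3 : (θ * Complex.cos w).re = θ * (Complex.cos w).re := by simp
  have e4 : (θ * Complex.cos w).im = θ * (Complex.cos w).im := by simp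
  rw [e1, e2, e3, e4]
  have h2 : 0 ≤ θ * (Complex.cos w).re := mul_nonneg h0 h.le
  nlinarith [mul_nonneg (sub_nonneg.2 h1) h2, sq_nonneg (1 - θ)]

lemma Star1_re_pos {K : Set ℂ} (hK : ∀ z ∈ K, 0 < z.re) {k : ℂ} (hk : k ∈ Star1 K) : 0 < k.re := by
  obtain ⟨θ, h0, h1, z, hz, rfl⟩ := hk
  have e : (1 - θ + θ * z : ℂ).re = 1 - θ + θ * z.re := by simp
  rw [e]
  rcases h0.eq_or_lt with h2 | h2
  · rw [← h2]
    norm_num
  · have := mul_pos h2 (hK z hz)
    linarith

variable {ι : Type} [Fintype ι] [DecidableEq ι]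

lemma continuous_kap : Continuous fun p : ℝ × ℂ => kap p.1 p.2 := by
  unfold kap
  fun_prop

/-- the determinant of the system does not vanish at good points -/
lemma JRing_det {nb : ι → Finset ι} (hnb : ∀ i, i ∉ nb i) {b s : ι → ℝ}
    (hs : ∀ i, s i = 1 ∨ s i = -1) {θ : ℝ} (h0 : 0 ≤ θ) (h1 : θ ≤ 1) {w : ι → ℂ}
    (hw0 : ∀ i, 0 < (w i).re) (hw1 : ∀ i, (w i).re < 3 / 2)
    (hc : ∀ i, 0 < (Complex.cos (w i)).re)
    (hR : ∀ i, ∀ j ∈ nb i, 0 < (RR (w i) (kap θ (w j))).re)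
    (hd : ∀ i, ∑ j ∈ nb i, ‖Complex.tan (w i) ^ 2 / RR (w i) (kap θ (w j))‖ <
      ‖(b i : ℂ) + I * s i * ∑ j ∈ nb i, 1 / (Complex.cos (w i) ^ 2 * RR (w i) (kap θ (w j)))‖) :
    (JRing nb b s θ w).det ≠ 0 := by
  have hT : ∀ i, Complex.tan (w i) ≠ 0 := fun i h => by
    have := tan_re_pos (hw0 i) (hw1 i).le
    rw [h] at this
    exact lt_irrefl _ this
  set D : Matrix ι ι ℂ := Matrix.diagonal fun i => Complex.tan (w i)
  set D' : Matrix ι ι ℂ := Matrix.diagonal fun i => (Complex.tan (w i))⁻¹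
  have hA : (D * JRing nb b s θ w * D').det ≠ 0 := by
    apply det_ne_zero_of_sum_row_lt_diag
    intro i
    have hent : ∀ j, (D * JRing nb b s θ w * D') i j =
        Complex.tan (w i) * JRing nb b s θ w i j * (Complex.tan (w j))⁻¹ := by
      intro j
      simp only [D, D', Matrix.mul_diagonal, Matrix.diagonal_mul]
    have hdiag : (D * JRing nb b s θ w * D') i i =
        (b i : ℂ) + I * s i * ∑ j ∈ nb i, 1 / (Complex.cos (w i) ^ 2 * RR (w i) (kap θ (w j))) := by
      rw [hent]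
      simp only [JRing, if_true, hnb i, if_false, add_zero]
      field_simp [hT i]
    rw [hdiag]
    refine lt_of_le_of_lt ?_ (hd i)
    have hoff : ∀ j ∈ Finset.univ.erase i, ‖(D * JRing nb b s θ w * D') i j‖ ≤
        if j ∈ nb i then ‖Complex.tan (w i) ^ 2 / RR (w i) (kap θ (w j))‖ else 0 := by
      intro j hj
      have hji : j ≠ i := Finset.ne_of_mem_erase hj
      rw [hent]
      simp only [JRing, hji, if_false, zero_add]
      split_ifs with hjn
      · have hk := kap_re_pos h0 h1 (hc j)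
        have hk0 : kap θ (w j) ≠ 0 := fun h => by rw [h] at hk; exact lt_irrefl _ hk
        have hR0 := RR_ne (hR i j hjn)
        have hcj : Complex.cos (w j) ≠ 0 := cos_ne_of (hc j)
        have e : Complex.tan (w i) * -(I * s i * θ * (Complex.tan (w i) * Complex.sin (w j) /
            (RR (w i) (kap θ (w j)) * kap θ (w j)))) * (Complex.tan (w j))⁻¹ =
            (Complex.tan (w i) ^ 2 / RR (w i) (kap θ (w j))) *
              (-(I * s i) * ((θ * Complex.cos (w j)) / kap θ (w j))) := by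
          have hsj : Complex.sin (w j) = Complex.tan (w j) * Complex.cos (w j) :=
            (Complex.tan_mul_cos hcj).symm
          rw [hsj]
          field_simp [hT j]
        rw [e, norm_mul]
        apply mul_le_of_le_one_right (norm_nonneg _)
        rw [norm_mul, norm_neg, norm_mul, Complex.norm_I, one_mul, norm_div]
        have hsn : ‖(s i : ℂ)‖ = 1 := by
          rcases hs i with h | h <;> rw [h] <;> simp
        rw [hsn, one_mul, div_le_one (norm_pos_iff.2 hk0)]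
        exact norm_kap_ge h0 h1 (hc j)
      · simp
    refine (Finset.sum_le_sum hoff).trans ?_
    rw [← Finset.sum_filter]
    refine Finset.sum_le_sum_of_subset_of_nonneg ?_ fun _ _ _ => norm_nonneg _
    intro j hj
    exact (Finset.mem_filter.1 hj).2
  intro h
  apply hA
  rw [Matrix.det_mul, Matrix.det_mul, h]
  ring

/-- the derivative of the system at good points -/
lemma hasFDerivAt_FF {nb : ι → Finset ι} {b s : ι → ℝ} {θ : ℝ} {w : ι → ℂ}
    (hw0 : ∀ i, 0 < (w i).re) (hw1 : ∀ i, (w i).re ≤ 3 / 2)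
    (hc : ∀ i, 0 < (Complex.cos (w i)).re) (hk : ∀ i, 0 < (kap θ (w i)).re)
    (hR : ∀ i, ∀ j ∈ nb i, 0 < (RR (w i) (kap θ (w j))).re) :
    HasFDerivAt (fun z => FF nb b s θ z)
      (LinearMap.toContinuousLinearMap (Matrix.toLin' (JRing nb b s θ w))) w := by
  have hp : ∀ i, HasFDerivAt (fun z : ι → ℂ => z i) (ContinuousLinearMap.proj (R := ℂ) i) w :=
    fun i => hasFDerivAt_apply i w
  have hkd : ∀ j, HasFDerivAt (fun z : ι → ℂ => kap θ (z j))
      ((-(θ * Complex.sin (w j))) • (ContinuousLinearMap.proj (R := ℂ) j : (ι → ℂ) →L[ℂ] ℂ)) w := by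
    intro j
    have h1 : HasDerivAt (fun z : ℂ => kap θ z) (-(θ * Complex.sin (w j))) (w j) := by
      unfold kap
      have := ((Complex.hasDerivAt_cos (w j)).const_mul (θ : ℂ)).const_add (1 - θ : ℂ)
      refine this.congr_deriv ?_
      ring
    exact HasDerivAt.comp_hasFDerivAt (h₂ := fun z : ℂ => kap θ z)
      (f := fun z : ι → ℂ => z j) w h1 (hp j)
  rw [show (fun z => FF nb b s θ z) = fun z i => FF nb b s θ z i from rfl]
  have hcomp : ∀ i, HasFDerivAt (fun z => FF nb b s θ z i)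
      ((b i : ℂ) • (ContinuousLinearMap.proj (R := ℂ) i : (ι → ℂ) →L[ℂ] ℂ) +
        (I * s i) • ∑ j ∈ nb i,
          ((1 / (Complex.cos (w i) ^ 2 * RR (w i) (kap θ (w j)))) •
            (ContinuousLinearMap.proj (R := ℂ) i : (ι → ℂ) →L[ℂ] ℂ) +
          (Complex.tan (w i) / (RR (w i) (kap θ (w j)) * kap θ (w j))) •
            ((-(θ * Complex.sin (w j))) •
              (ContinuousLinearMap.proj (R := ℂ) j : (ι → ℂ) →L[ℂ] ℂ)))) w := by
    intro i
    unfold FF
    have hQ : HasFDerivAt (fun z : ι → ℂ => ∑ j ∈ nb i, QQ (z i) (kap θ (z j))) (∑ j ∈ nb i,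
          ((1 / (Complex.cos (w i) ^ 2 * RR (w i) (kap θ (w j)))) •
            (ContinuousLinearMap.proj (R := ℂ) i : (ι → ℂ) →L[ℂ] ℂ) +
          (Complex.tan (w i) / (RR (w i) (kap θ (w j)) * kap θ (w j))) •
            ((-(θ * Complex.sin (w j))) •
              (ContinuousLinearMap.proj (R := ℂ) j : (ι → ℂ) →L[ℂ] ℂ)))) w := by
      refine HasFDerivAt.fun_sum fun j hj => ?_
      exact hasFDerivAt_QQ (hp i) (hkd j) (hw0 i) (hw1 i) (cos_ne_of (hc i)) (hk j) (hR i j hj)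
    exact (((hp i).const_mul (b i : ℂ)).sub_const _).add (hQ.const_mul (I * s i))
  have hall := hasFDerivAt_pi.2 hcomp
  refine hall.congr_fderiv ?_
  ext v i
  rw [ContinuousLinearMap.coe_pi', LinearMap.coe_toContinuousLinearMap', Matrix.toLin'_apply,
    Matrix.mulVec, dotProduct]
  simp only [JRing, add_mul, ite_mul, zero_mul, Finset.sum_add_distrib, Finset.sum_ite_eq',
    Finset.mem_univ, if_true, Finset.sum_ite_mem, Finset.univ_inter]
  simp only [_root_.add_apply, _root_.smul_apply, smul_eq_mul, ContinuousLinearMap.proj_apply,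
    _root_.sum_apply, Finset.mul_sum, Finset.sum_mul, mul_add]
  rw [add_assoc]
  congr 1
  congr 1
  · refine Finset.sum_congr rfl fun j _ => ?_
    ring
  · refine Finset.sum_congr rfl fun j _ => ?_
    ring

/-- The ring system has a solution. -/
theorem ring_exists {nb : ι → Finset ι} (hnb : ∀ i, i ∉ nb i) {b s : ι → ℝ}
    (hs : ∀ i, s i = 1 ∨ s i = -1) {K U : ι → Set ℂ} {r : ℝ} (hr : 0 < r)
    (hKc : ∀ i, IsClosed (K i)) (hKr : ∀ i, ∀ z ∈ K i, 0 < z.re) (hU : ∀ i, IsOpen (U i))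
    (hUK : ∀ i, U i ⊆ K i) (h : RingsOK nb b s K U r)
    (h0 : ∀ i, ∃ w : ℂ, 0 ≤ w.re ∧ w.re ≤ 3 / 2 ∧ |w.im| ≤ 2 ∧ Complex.cos w ∈ K i ∧
      r ≤ (RR w 1).re ∧ (b i : ℂ) * w - Real.pi + I * s i * ((nb i).card * QQ w 1) = 0) :
    ∃ w : ι → ℂ, ∀ i, FF nb b s 1 w i = 0 ∧
      RingOK nb b s K U r i (fun j => Complex.cos (w j)) (w i) := by
  set Kt : Set (ℝ × (ι → ℂ)) := {p | p.1 ∈ Icc (0 : ℝ) 1 ∧ ∀ i, (0 ≤ (p.2 i).re ∧
    (p.2 i).re ≤ 3 / 2 ∧ |(p.2 i).im| ≤ 2 ∧ Complex.cos (p.2 i) ∈ K i) ∧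
    ∀ j ∈ nb i, r ≤ (RR (p.2 i) (kap p.1 (p.2 j))).re} with hKt
  have hci : ∀ i, Continuous fun p : ℝ × (ι → ℂ) => p.2 i := fun i => by fun_prop
  have hck : ∀ j, Continuous fun p : ℝ × (ι → ℂ) => kap p.1 (p.2 j) := fun j => by
    unfold kap
    fun_prop
  -- the crude compact set
  set C : Set (ℝ × (ι → ℂ)) := {p | p.1 ∈ Icc (0 : ℝ) 1 ∧ ∀ i, (0 ≤ (p.2 i).re ∧
    (p.2 i).re ≤ 3 / 2 ∧ |(p.2 i).im| ≤ 2 ∧ Complex.cos (p.2 i) ∈ K i)} with hC
  have hCcl : IsClosed C := by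
    have e : C = ((Prod.fst : ℝ × (ι → ℂ) → ℝ) ⁻¹' Icc (0 : ℝ) 1) ∩ ⋂ i : ι,
        (((fun p : ℝ × (ι → ℂ) => (p.2 i).re) ⁻¹' Icc 0 (3 / 2)) ∩
          (((fun p : ℝ × (ι → ℂ) => |(p.2 i).im|) ⁻¹' Iic 2) ∩
            ((fun p : ℝ × (ι → ℂ) => Complex.cos (p.2 i)) ⁻¹' K i))) := by
      ext p
      simp only [hC, mem_inter_iff, mem_iInter, mem_preimage, mem_Iic, mem_Icc, and_assoc]
      rfl
    rw [e]
    refine (isClosed_Icc.preimage continuous_fst).inter (isClosed_iInter fun i => ?_)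
    refine IsClosed.inter (isClosed_Icc.preimage (Complex.continuous_re.comp (hci i))) ?_
    refine IsClosed.inter (isClosed_Iic.preimage (Complex.continuous_im.comp (hci i)).abs) ?_
    exact (hKc i).preimage (Complex.continuous_cos.comp (hci i))
  have hbig : IsCompact ((Icc (0 : ℝ) 1) ×ˢ
      (Set.pi univ fun _ : ι => (Icc (0 : ℝ) (3 / 2)) ×ℂ (Icc (-2 : ℝ) 2))) :=
    isCompact_Icc.prod (isCompact_univ_pi fun i => isCompact_Icc.reProdIm isCompact_Icc)
  have hCk : IsCompact C := by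
    refine hbig.of_isClosed_subset hCcl ?_
    rintro p ⟨h1, h2⟩
    refine ⟨h1, fun i _ => ?_⟩
    have := h2 i
    exact ⟨⟨this.1, this.2.1⟩, abs_le.1 this.2.2.1⟩
  have hcosC : ∀ p ∈ C, ∀ i, 0 < (Complex.cos (p.2 i)).re := fun p hp i => hKr i _ (hp.2 i).2.2.2
  have hkapC : ∀ p ∈ C, ∀ i, 0 < (kap p.1 (p.2 i)).re := fun p hp i =>
    kap_re_pos hp.1.1 hp.1.2 (hcosC p hp i)
  have hne : ∀ {z : ℂ}, 0 < z.re → z ≠ 0 := fun {z} hz h => by rw [h] at hz; exact lt_irrefl _ hz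
  have hKtC : Kt ⊆ C := fun p hp => ⟨hp.1, fun i => (hp.2 i).1⟩
  have hKtcl : IsClosed Kt := by
    have e : Kt = C ∩ ⋂ i, ⋂ j ∈ nb i,
        (C ∩ (fun p : ℝ × (ι → ℂ) => (RR (p.2 i) (kap p.1 (p.2 j))).re) ⁻¹' (Ici r)) := by
      ext p
      simp only [mem_inter_iff, mem_iInter, mem_preimage, mem_Ici]
      constructor
      · intro hp
        exact ⟨hKtC hp, fun i j hj => ⟨hKtC hp, (hp.2 i).2 j hj⟩⟩
      · rintro ⟨h1, h2⟩
        exact ⟨h1.1, fun i => ⟨h1.2 i, fun j hj => (h2 i j hj).2⟩⟩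
    rw [e]
    refine hCcl.inter (isClosed_iInter fun i => isClosed_iInter fun j => isClosed_iInter fun hj => ?_)
    refine ContinuousOn.preimage_isClosed_of_isClosed ?_ hCcl isClosed_Ici
    intro p hp
    exact (continuousAt_RR_re (hci i).continuousAt (hck j).continuousAt
      (cos_ne_of (hcosC p hp i)) (hne (hkapC p hp j))).continuousWithinAt
  have hKtk : IsCompact Kt := hCk.of_isClosed_subset hKtcl hKtC
  have hcF : ContinuousOn (fun p : ℝ × (ι → ℂ) => FF nb b s p.1 p.2) Kt := by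
    refine continuousOn_pi.2 fun i => ?_
    intro p hp
    have hpC := hKtC hp
    refine ContinuousAt.continuousWithinAt ?_
    unfold FF
    refine ContinuousAt.add ?_ ?_
    · exact ((continuous_const.mul (hci i)).sub continuous_const).continuousAt
    · refine continuousAt_const.mul ?_
      refine tendsto_finsetSum _ fun j hj => ?_
      exact continuousAt_QQ (hci i).continuousAt (hck j).continuousAt (hpC.2 i).1 (hpC.2 i).2.1
        (cos_ne_of (hcosC p hpC i)) (hkapC p hpC j) (hr.trans_le ((hp.2 i).2 j hj))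
  have hloc : ∀ p ∈ Kt, p.1 ∈ Icc (0 : ℝ) 1 → FF nb b s p.1 p.2 = 0 →
      ∃ V : Set (ℝ × (ι → ℂ)), IsOpen V ∧ p ∈ V ∧
      (∀ q ∈ V, q.1 ∈ Icc (0 : ℝ) 1 → q ∈ Kt ∧ HasFDerivAt (fun z => FF nb b s q.1 z)
        (LinearMap.toContinuousLinearMap (Matrix.toLin' (JRing nb b s q.1 q.2))) q.2) ∧
      (∀ i j, ContinuousOn (fun q => JRing nb b s q.1 q.2 i j) (V ∩ {q | q.1 ∈ Icc (0 : ℝ) 1})) ∧
      (JRing nb b s p.1 p.2).det ≠ 0 := by
    intro p hp hp1 hp0
    have hpC := hKtC hp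
    have hok : ∀ i, RingOK nb b s K U r i (fun j => kap p.1 (p.2 j)) (p.2 i) := by
      intro i
      refine h i _ (fun j hj => ?_) _ (hp.2 i).1.1 (hp.2 i).1.2.1 (hp.2 i).1.2.2.1
        (hp.2 i).1.2.2.2 (hp.2 i).2 (congrFun hp0 i)
      exact ⟨p.1, hp.1.1, hp.1.2, _, (hp.2 j).1.2.2.2, rfl⟩
    set G : Set (ℝ × (ι → ℂ)) := {q | ∀ i, ((0 < (q.2 i).re ∧ (q.2 i).re < 3 / 2 ∧
      |(q.2 i).im| < 2 ∧ Complex.cos (q.2 i) ∈ U i) ∧ 0 < (Complex.cos (q.2 i)).re ∧
      0 < (kap q.1 (q.2 i)).re) ∧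
      ∀ j, j ∈ nb i → r < (RR (q.2 i) (kap q.1 (q.2 j))).re} with hG
    have hGn : G ∈ 𝓝 p := by
      show ∀ᶠ q in 𝓝 p, ∀ i, ((0 < (q.2 i).re ∧ (q.2 i).re < 3 / 2 ∧
        |(q.2 i).im| < 2 ∧ Complex.cos (q.2 i) ∈ U i) ∧ 0 < (Complex.cos (q.2 i)).re ∧
        0 < (kap q.1 (q.2 i)).re) ∧
        ∀ j, j ∈ nb i → r < (RR (q.2 i) (kap q.1 (q.2 j))).re
      rw [Filter.eventually_all]
      intro i
      have hi := hok i
      have hcre : Continuous fun q : ℝ × (ι → ℂ) => (q.2 i).re :=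
        Complex.continuous_re.comp (hci i)
      have hcim : Continuous fun q : ℝ × (ι → ℂ) => |(q.2 i).im| :=
        (Complex.continuous_im.comp (hci i)).abs
      have hccos : Continuous fun q : ℝ × (ι → ℂ) => Complex.cos (q.2 i) :=
        Complex.continuous_cos.comp (hci i)
      refine ((((hcre.continuousAt.eventually (lt_mem_nhds hi.re0)).and
        ((hcre.continuousAt.eventually (gt_mem_nhds hi.re1)).and
        ((hcim.continuousAt.eventually (gt_mem_nhds hi.im)).and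
        (hccos.continuousAt.eventually ((hU i).mem_nhds hi.mem))))).and
        (((Complex.continuous_re.comp hccos).continuousAt.eventually
          (lt_mem_nhds (hcosC p hpC i))).and
        ((Complex.continuous_re.comp (hck i)).continuousAt.eventually
          (lt_mem_nhds (hkapC p hpC i))))).and ?_)
      rw [Filter.eventually_all]
      intro j
      by_cases hj : j ∈ nb i
      · have hcont := continuousAt_RR_re (f := fun q : ℝ × (ι → ℂ) => q.2 i)
          (g := fun q : ℝ × (ι → ℂ) => kap q.1 (q.2 j)) (x := p) (hci i).continuousAt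
          (hck j).continuousAt (cos_ne_of (hcosC p hpC i)) (hne (hkapC p hpC j))
        filter_upwards [hcont.eventually (lt_mem_nhds (hi.hinge j hj))] with q hq _
        exact hq
      · exact Filter.Eventually.of_forall fun q hq => absurd hq hj
    obtain ⟨V, hVG, hVo, hpV⟩ := mem_nhds_iff.1 hGn
    refine ⟨V, hVo, hpV, ?_, ?_, ?_⟩
    · intro q hq hq1
      have hqG := hVG hq
      refine ⟨⟨hq1, fun i => ⟨⟨(hqG i).1.1.1.le, (hqG i).1.1.2.1.le, (hqG i).1.1.2.2.1.le,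
        hUK i (hqG i).1.1.2.2.2⟩, fun j hj => ((hqG i).2 j hj).le⟩⟩, ?_⟩
      exact hasFDerivAt_FF (fun i => (hqG i).1.1.1) (fun i => (hqG i).1.1.2.1.le)
        (fun i => (hqG i).1.2.1) (fun i => (hqG i).1.2.2) fun i j hj => hr.trans ((hqG i).2 j hj)
    · intro i j q hq
      have hqG := hVG hq.1
      refine ContinuousAt.continuousWithinAt ?_
      have hcw : ContinuousAt (fun q : ℝ × (ι → ℂ) => Complex.cos (q.2 i)) q :=
        (Complex.continuous_cos.comp (hci i)).continuousAt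
      have hRc : ∀ k ∈ nb i,
          ContinuousAt (fun q : ℝ × (ι → ℂ) => RR (q.2 i) (kap q.1 (q.2 k))) q := fun k hk =>
        continuousAt_RR (hci i).continuousAt (hck k).continuousAt
          (cos_ne_of (hqG i).1.2.1) (hne (hqG k).1.2.2) (hr.trans ((hqG i).2 k hk))
      have hR0 : ∀ k ∈ nb i, RR (q.2 i) (kap q.1 (q.2 k)) ≠ 0 := fun k hk =>
        RR_ne (hr.trans ((hqG i).2 k hk))
      have hc0 := cos_ne_of (hqG i).1.2.1
      unfold JRing
      refine ContinuousAt.add ?_ ?_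
      · split_ifs with hji
        · refine continuousAt_const.add (continuousAt_const.mul ?_)
          refine tendsto_finsetSum _ fun k hk => ?_
          exact continuousAt_const.div ((hcw.pow 2).mul (hRc k hk))
            (mul_ne_zero (pow_ne_zero 2 hc0) (hR0 k hk))
        · exact continuousAt_const
      · split_ifs with hjn
        · have ht : ContinuousAt (fun q : ℝ × (ι → ℂ) => Complex.tan (q.2 i)) q :=
            ContinuousAt.comp (g := Complex.tan) (f := fun q : ℝ × (ι → ℂ) => q.2 i)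
              (continuousAt_tan.2 hc0) (hci i).continuousAt
          have hsn : ContinuousAt (fun q : ℝ × (ι → ℂ) => Complex.sin (q.2 j)) q :=
            (Complex.continuous_sin.comp (hci j)).continuousAt
          have hth : ContinuousAt (fun q : ℝ × (ι → ℂ) => (q.1 : ℂ)) q :=
            (Complex.continuous_ofReal.comp continuous_fst).continuousAt
          exact ((continuousAt_const.mul hth).mul ((ht.mul hsn).div
            ((hRc j hjn).mul (hck j).continuousAt)
            (mul_ne_zero (hR0 j hjn) (hne (hqG j).1.2.2)))).neg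
        · exact continuousAt_const
    · exact JRing_det hnb hs hp.1.1 hp.1.2 (fun i => (hok i).re0) (fun i => (hok i).re1)
        (fun i => hcosC p hpC i) (fun i j hj => hr.trans ((hok i).hinge j hj))
        fun i => (hok i).dom
  have hstart : ∃ z, (0, z) ∈ Kt ∧ FF nb b s 0 z = 0 := by
    choose z hz using h0
    have hk0 : ∀ j, kap 0 (z j) = 1 := fun j => by simp [kap]
    refine ⟨z, ⟨⟨le_rfl, zero_le_one⟩, fun i => ⟨⟨(hz i).1, (hz i).2.1, (hz i).2.2.1,
      (hz i).2.2.2.1⟩, fun j _ => ?_⟩⟩, ?_⟩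
    · show r ≤ (RR (z i) (kap 0 (z j))).re
      rw [hk0]
      exact (hz i).2.2.2.2.1
    · funext i
      unfold FF
      simp only [hk0, Finset.sum_const, nsmul_eq_mul]
      exact (hz i).2.2.2.2.2
  obtain ⟨w, hw, hw0⟩ := continuation_set_det hKtk
    (F := fun p => FF nb b s p.1 p.2) (J := fun p => JRing nb b s p.1 p.2) hcF hloc hstart
    (θ := 1) ⟨zero_le_one, le_rfl⟩
  have hk1 : ∀ j, kap 1 (w j) = Complex.cos (w j) := fun j => by simp [kap]
  refine ⟨w, fun i => ⟨congrFun hw0 i, ?_⟩⟩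
  have := h i (fun j => kap 1 (w j)) (fun j hj => ?_) (w i) (hw.2 i).1.1 (hw.2 i).1.2.1
    (hw.2 i).1.2.2.1 (hw.2 i).1.2.2.2 (hw.2 i).2 (congrFun hw0 i)
  · simp only [hk1] at this
    exact this
  · exact ⟨1, zero_le_one, le_rfl, _, (hw.2 j).1.2.2.2, by simp [hk1]⟩

end Pool.Agent.Work.MP_b30479_gtS.G2

end

section

/-!
# The ring system of a chain

Statements about one ring in its own frame (`s = 1`: positive twist region, `Im w < 0`,
`Im cos w > 0`); the value of a neighbour of the opposite sign is conjugated.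
-/

namespace Pool.Agent.Work.MP_b30479_gtS.G2

open Complex Set Filter Topology
open scoped ComplexConjugate

lemma ZZ0_conj (w k : ℂ) : ZZ0 (conj w) (conj k) = conj (ZZ0 w k) := by
  unfold ZZ0
  rw [Complex.tan_conj, map_add, map_pow, map_inv₀, map_pow]

lemma RR_conj_re (w k : ℂ) : (RR (conj w) (conj k)).re = (RR w k).re := by
  rw [RR_re, RR_re, ZZ0_conj, Complex.norm_conj, Complex.conj_re]

lemma RR_conj {w k : ℂ} (h : 0 < (RR w k).re) : RR (conj w) (conj k) = conj (RR w k) := by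
  unfold RR
  rw [ZZ0_conj, Complex.conj_cpow _ _ (Complex.slitPlane_arg_ne_pi (ZZ0_slit h))]
  congr 2
  rw [map_inv₀]
  congr 1
  exact map_ofNat (starRingEnd ℂ) 2

lemma QQ_conj {w k : ℂ} (h : 0 < (RR w k).re) (h0 : 0 ≤ w.re) (h1 : w.re ≤ 3 / 2) (hk : 0 < k.re) :
    QQ (conj w) (conj k) = conj (QQ w k) := by
  unfold QQ
  have hTR : Complex.tan w + RR w k ∈ slitPlane := by
    rw [Complex.mem_slitPlane_iff]
    left
    rw [Complex.add_re]
    exact add_pos_of_nonneg_of_pos (tan_re_nonneg h0 h1) h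
  have hks : k ∈ slitPlane := Complex.mem_slitPlane_iff.2 (Or.inl hk)
  rw [RR_conj h, Complex.tan_conj, ← map_add, Complex.log_conj _ (Complex.slitPlane_arg_ne_pi hTR),
    Complex.log_conj _ (Complex.slitPlane_arg_ne_pi hks), map_add]

/-- the statement about an end ring in its own frame; `P` is the set of the values of the
neighbour -/
def Ring1 (b : ℝ) (K U P : Set ℂ) (r : ℝ) : Prop :=
  ∀ k ∈ P, ∀ w : ℂ, 0 ≤ w.re → w.re ≤ 3 / 2 → |w.im| ≤ 2 → Complex.cos w ∈ K → r ≤ (RR w k).re →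
    b * w - Real.pi + I * QQ w k = 0 →
    0 < w.re ∧ w.re < 3 / 2 ∧ |w.im| < 2 ∧ Complex.cos w ∈ U ∧ r < (RR w k).re ∧
      ‖Complex.tan w ^ 2 / RR w k‖ < ‖(b : ℂ) + I * (1 / (Complex.cos w ^ 2 * RR w k))‖

/-- the statement about an interior ring in its own frame; `P`, `P'` are the sets of the values of
the neighbours -/
def Ring2 (b : ℝ) (K U P P' : Set ℂ) (r : ℝ) : Prop :=
  ∀ k ∈ P, ∀ k' ∈ P', ∀ w : ℂ, 0 ≤ w.re → w.re ≤ 3 / 2 → |w.im| ≤ 2 → Complex.cos w ∈ K →
    r ≤ (RR w k).re → r ≤ (RR w k').re →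
    b * w - Real.pi + I * (QQ w k + QQ w k') = 0 →
    0 < w.re ∧ w.re < 3 / 2 ∧ |w.im| < 2 ∧ Complex.cos w ∈ U ∧ r < (RR w k).re ∧
      r < (RR w k').re ∧
      ‖Complex.tan w ^ 2 / RR w k‖ + ‖Complex.tan w ^ 2 / RR w k'‖ <
        ‖(b : ℂ) + I * (1 / (Complex.cos w ^ 2 * RR w k) + 1 / (Complex.cos w ^ 2 * RR w k'))‖

lemma Ring2.symm {b : ℝ} {K U P P' : Set ℂ} {r : ℝ} (h : Ring2 b K U P P' r) :
    Ring2 b K U P' P r := by
  intro k hk k' hk' w h0 h1 h2 h3 h4 h5 h6
  obtain ⟨a1, a2, a3, a4, a5, a6, a7⟩ := h k' hk' k hk w h0 h1 h2 h3 h5 h4 (by rw [← h6]; ring)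
  refine ⟨a1, a2, a3, a4, a6, a5, ?_⟩
  rw [add_comm, add_comm (1 / (Complex.cos w ^ 2 * RR w k))]
  exact a7

/-- conjugation of a set for negative rings -/
def frS (s : ℝ) (K : Set ℂ) : Set ℂ := if s = 1 then K else {z | conj z ∈ K}

lemma frS_one (K : Set ℂ) : frS 1 K = K := by simp [frS]

lemma frS_neg (K : Set ℂ) : frS (-1) K = {z | conj z ∈ K} := by
  have : (-1 : ℝ) ≠ 1 := by norm_num
  simp [frS, this]

lemma mem_Star1_conj {K : Set ℂ} {k : ℂ} : k ∈ Star1 {z | conj z ∈ K} ↔ conj k ∈ Star1 K := by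
  constructor
  · rintro ⟨θ, h0, h1, z, hz, rfl⟩
    exact ⟨θ, h0, h1, conj z, hz, by simp⟩
  · rintro ⟨θ, h0, h1, z, hz, h⟩
    refine ⟨θ, h0, h1, conj z, by simpa using hz, ?_⟩
    have := congrArg conj h
    rw [Complex.conj_conj] at this
    rw [this]
    simp

/-- The ring system of a graph all of whose vertices have one or two neighbours has a solution. -/
theorem graph_exists {ι : Type} [Fintype ι] [DecidableEq ι] {nb : ι → Finset ι}
    (hnb : ∀ i, i ∉ nb i)
    (hcases : ∀ i, (∃ j, nb i = {j}) ∨ (∃ j j', j ≠ j' ∧ nb i = {j, j'}))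
    {b s : ι → ℝ} (hs : ∀ i, s i = 1 ∨ s i = -1)
    {K U : ι → Set ℂ} {r : ℝ} (hr : 0 < r)
    (hKc : ∀ i, IsClosed (K i)) (hKr : ∀ i, ∀ z ∈ K i, 0 < z.re) (hU : ∀ i, IsOpen (U i))
    (hUK : ∀ i, U i ⊆ K i)
    (h1 : ∀ i j, nb i = {j} → Ring1 (b i) (K i) (U i) (frS (s i * s j) (Star1 (K j))) r)
    (h2 : ∀ i j j', j ≠ j' → nb i = {j, j'} →
      Ring2 (b i) (K i) (U i) (frS (s i * s j) (Star1 (K j))) (frS (s i * s j') (Star1 (K j'))) r)
    (h0 : ∀ i, ∃ w : ℂ, 0 ≤ w.re ∧ w.re ≤ 3 / 2 ∧ |w.im| ≤ 2 ∧ Complex.cos w ∈ K i ∧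
      r ≤ (RR w 1).re ∧ (b i : ℂ) * w - Real.pi + I * ((nb i).card * QQ w 1) = 0) :
    ∃ w : ι → ℂ, ∀ i, FF nb b s 1 w i = 0 ∧
      RingOK nb b s (fun i => frS (s i) (K i)) (fun i => frS (s i) (U i)) r i
        (fun j => Complex.cos (w j)) (w i) := by
  have hmem : ∀ {s : ℝ}, (s = 1 ∨ s = -1) → ∀ {K : Set ℂ} {z : ℂ},
      z ∈ frS s K ↔ (if s = 1 then z else conj z) ∈ K := by
    intro s hs K z
    rcases hs with rfl | rfl
    · rw [frS_one]
      simp
    · rw [frS_neg]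
      have : (-1 : ℝ) ≠ 1 := by norm_num
      simp [this]
  refine ring_exists hnb hs hr (fun i => ?_) (fun i z hz => ?_) (fun i => ?_) (fun i z hz => ?_) ?_ ?_
  · rcases hs i with h | h
    · rw [h, frS_one]
      exact hKc i
    · rw [h, frS_neg]
      exact (hKc i).preimage Complex.continuous_conj
  · rcases hs i with h | h
    · rw [h, frS_one] at hz
      exact hKr i z hz
    · rw [h, frS_neg] at hz
      have := hKr i _ hz
      rwa [Complex.conj_re] at this
  · rcases hs i with h | h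
    · rw [h, frS_one]
      exact hU i
    · rw [h, frS_neg]
      exact (hU i).preimage Complex.continuous_conj
  · rcases hs i with h | h
    · rw [h, frS_one] at hz ⊢
      exact hUK i hz
    · rw [h, frS_neg] at hz ⊢
      exact hUK i hz
  · -- the statement about all rings
    intro i k hk w hw0 hw1 hw2 hwK hwR hF
    replace hwK : Complex.cos w ∈ frS (s i) (K i) := hwK
    -- ports in the own frame
    have hport : ∀ j ∈ nb i, (if s i = 1 then k j else conj (k j)) ∈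
        frS (s i * s j) (Star1 (K j)) ∧ 0 < (k j).re := by
      intro j hj
      have h : k j ∈ Star1 (frS (s j) (K j)) := hk j hj
      have hre : ∀ z ∈ K j, 0 < z.re := hKr j
      rcases hs i with hi | hi <;> rcases hs j with hj' | hj' <;> rw [hj'] at h <;>
        simp only [hi, hj']
      · rw [frS_one] at h
        simp only [mul_one, if_true, frS_one]
        exact ⟨h, Star1_re_pos hre h⟩
      · rw [frS_neg, mem_Star1_conj] at h
        simp only [one_mul, if_true, frS_neg]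
        refine ⟨h, ?_⟩
        have := Star1_re_pos hre h
        rwa [Complex.conj_re] at this
      · rw [frS_one] at h
        have e : (-1 : ℝ) ≠ 1 := by norm_num
        simp only [mul_one, if_neg e, frS_neg]
        exact ⟨by simpa using h, Star1_re_pos hre h⟩
      · rw [frS_neg, mem_Star1_conj] at h
        have e : (-1 : ℝ) ≠ 1 := by norm_num
        simp only [if_neg e]
        rw [show (-1 : ℝ) * -1 = 1 by norm_num, frS_one]
        refine ⟨h, ?_⟩
        have := Star1_re_pos hre h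
        rwa [Complex.conj_re] at this
    rcases hs i with hi | hi
    · -- positive ring
      rw [hi, frS_one] at hwK
      rw [hi] at hF
      rcases hcases i with ⟨j, hj⟩ | ⟨j, j', hne, hj⟩
      · have hjm : j ∈ nb i := by rw [hj]; exact Finset.mem_singleton_self j
        rw [hj, Finset.sum_singleton] at hF
        have hp := (hport j hjm).1
        rw [if_pos hi] at hp
        obtain ⟨a1, a2, a3, a4, a5, a6⟩ := h1 i j hj _ hp w hw0 hw1 hw2 hwK (hwR j hjm)
          (by rw [← hF]; push_cast; ring)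
        refine ⟨a1, a2, a3, ?_, ?_, ?_⟩
        · show Complex.cos w ∈ frS (s i) (U i)
          rw [hi, frS_one]
          exact a4
        · intro l hl
          rw [hj, Finset.mem_singleton] at hl
          rw [hl]
          exact a5
        · rw [hj, Finset.sum_singleton, Finset.sum_singleton, hi]
          simpa using a6
      · have hjm : j ∈ nb i := by rw [hj]; simp
        have hjm' : j' ∈ nb i := by rw [hj]; simp
        rw [hj, Finset.sum_pair hne] at hF
        have hp := (hport j hjm).1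
        have hp' := (hport j' hjm').1
        rw [if_pos hi] at hp hp'
        obtain ⟨a1, a2, a3, a4, a5, a6, a7⟩ := h2 i j j' hne hj _ hp _ hp' w hw0 hw1 hw2 hwK
          (hwR j hjm) (hwR j' hjm') (by rw [← hF]; push_cast; ring)
        refine ⟨a1, a2, a3, ?_, ?_, ?_⟩
        · show Complex.cos w ∈ frS (s i) (U i)
          rw [hi, frS_one]
          exact a4
        · intro l hl
          rw [hj, Finset.mem_insert, Finset.mem_singleton] at hl
          rcases hl with rfl | rfl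
          · exact a5
          · exact a6
        · rw [hj, Finset.sum_pair hne, Finset.sum_pair hne, hi]
          simpa using a7
    · -- negative ring: conjugate
      have e : (-1 : ℝ) ≠ 1 := by norm_num
      rw [hi, frS_neg] at hwK
      have hwK' : Complex.cos (conj w) ∈ K i := by
        rw [Complex.cos_conj]
        exact hwK
      have hQ : ∀ j ∈ nb i, QQ (conj w) (conj (k j)) = conj (QQ w (k j)) := fun j hj =>
        QQ_conj (hr.trans_le (hwR j hj)) hw0 hw1 (hport j hj).2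
      have hRc : ∀ j ∈ nb i, RR (conj w) (conj (k j)) = conj (RR w (k j)) := fun j hj =>
        RR_conj (hr.trans_le (hwR j hj))
      have hFc := congrArg conj hF
      rw [map_zero, map_add, map_sub, map_mul, map_mul, map_mul, Complex.conj_ofReal,
        Complex.conj_ofReal, Complex.conj_ofReal, Complex.conj_I, map_sum, hi] at hFc
      have hwr : (conj w).re = w.re := Complex.conj_re w
      have hwi : |(conj w).im| = |w.im| := by rw [Complex.conj_im, abs_neg]
      rcases hcases i with ⟨j, hj⟩ | ⟨j, j', hne, hj⟩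
      · have hjm : j ∈ nb i := by rw [hj]; exact Finset.mem_singleton_self j
        rw [hj, Finset.sum_singleton, ← hQ j hjm] at hFc
        have hp := (hport j hjm).1
        rw [if_neg (by rw [hi]; exact e)] at hp
        obtain ⟨a1, a2, a3, a4, a5, a6⟩ := h1 i j hj _ hp (conj w) (by rw [hwr]; exact hw0)
          (by rw [hwr]; exact hw1) (by rw [hwi]; exact hw2) hwK'
          (by rw [RR_conj_re]; exact hwR j hjm) (by rw [← hFc]; push_cast; ring)
        rw [hwr] at a1 a2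
        rw [hwi] at a3
        rw [RR_conj_re] at a5
        refine ⟨a1, a2, a3, ?_, ?_, ?_⟩
        · show Complex.cos w ∈ frS (s i) (U i)
          rw [hi, frS_neg]
          rw [Complex.cos_conj] at a4
          exact a4
        · intro l hl
          rw [hj, Finset.mem_singleton] at hl
          rw [hl]
          exact a5
        · rw [hj, Finset.sum_singleton, Finset.sum_singleton, hi]
          rw [hRc j hjm, Complex.tan_conj, Complex.cos_conj, ← map_pow, ← map_div₀,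
            Complex.norm_conj, ← map_pow, ← map_mul] at a6
          rw [← Complex.norm_conj ((b i : ℂ) + _), map_add, map_mul, map_mul, Complex.conj_I,
            Complex.conj_ofReal, Complex.conj_ofReal, map_div₀, map_one]
          refine a6.trans_eq ?_
          congr 1
          push_cast
          ring
      · have hjm : j ∈ nb i := by rw [hj]; simp
        have hjm' : j' ∈ nb i := by rw [hj]; simp
        rw [hj, Finset.sum_pair hne, ← hQ j hjm, ← hQ j' hjm'] at hFc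
        have hp := (hport j hjm).1
        have hp' := (hport j' hjm').1
        rw [if_neg (by rw [hi]; exact e)] at hp hp'
        obtain ⟨a1, a2, a3, a4, a5, a6, a7⟩ := h2 i j j' hne hj _ hp _ hp' (conj w)
          (by rw [hwr]; exact hw0) (by rw [hwr]; exact hw1) (by rw [hwi]; exact hw2) hwK'
          (by rw [RR_conj_re]; exact hwR j hjm) (by rw [RR_conj_re]; exact hwR j' hjm')
          (by rw [← hFc]; push_cast; ring)
        rw [hwr] at a1 a2
        rw [hwi] at a3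
        rw [RR_conj_re] at a5 a6
        refine ⟨a1, a2, a3, ?_, ?_, ?_⟩
        · show Complex.cos w ∈ frS (s i) (U i)
          rw [hi, frS_neg]
          rw [Complex.cos_conj] at a4
          exact a4
        · intro l hl
          rw [hj, Finset.mem_insert, Finset.mem_singleton] at hl
          rcases hl with rfl | rfl
          · exact a5
          · exact a6
        · rw [hj, Finset.sum_pair hne, Finset.sum_pair hne, hi]
          rw [hRc j hjm, hRc j' hjm', Complex.tan_conj, Complex.cos_conj, ← map_pow, ← map_div₀,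
            ← map_div₀, Complex.norm_conj, Complex.norm_conj, ← map_pow, ← map_mul,
            ← map_mul] at a7
          rw [← Complex.norm_conj ((b i : ℂ) + _), map_add, map_mul, map_mul, Complex.conj_I,
            Complex.conj_ofReal, Complex.conj_ofReal, map_add, map_div₀, map_div₀, map_one]
          refine a7.trans_eq ?_
          congr 1
          push_cast
          ring
  · -- the start
    intro i
    obtain ⟨w, a0, a1, a2, a3, a4, a5⟩ := h0 i
    rcases hs i with hi | hi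
    · refine ⟨w, a0, a1, a2, ?_, a4, ?_⟩
      · show Complex.cos w ∈ frS (s i) (K i)
        rw [hi, frS_one]
        exact a3
      · rw [hi]
        rw [← a5]
        push_cast
        ring
    · refine ⟨conj w, by rw [Complex.conj_re]; exact a0, by rw [Complex.conj_re]; exact a1,
        by rw [Complex.conj_im, abs_neg]; exact a2, ?_, ?_, ?_⟩
      · show Complex.cos (conj w) ∈ frS (s i) (K i)
        rw [hi, frS_neg]
        rw [Set.mem_ofPred_eq, Complex.cos_conj, Complex.conj_conj]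
        exact a3
      · have := RR_conj_re w 1
        rw [map_one] at this
        rw [this]
        exact a4
      · have hQ1 : QQ (conj w) 1 = conj (QQ w 1) := by
          have := QQ_conj (w := w) (k := 1) (hr.trans_le a4) a0 a1 (by norm_num)
          rwa [map_one] at this
        rw [hi, hQ1]
        have h5 := congrArg conj a5
        rw [map_zero, map_add, map_sub, map_mul, map_mul, map_mul, Complex.conj_ofReal,
          Complex.conj_ofReal, Complex.conj_I, Complex.conj_natCast] at h5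
        rw [← h5]
        push_cast
        ring

end Pool.Agent.Work.MP_b30479_gtS.G2

end

section

/-!
# Decoupled rings

For `1 ≤ m ≤ 2`, `b > 2` (in the application `m = 1` for an end ring, `m = 2` for an interior ring)
the equations `b w = π + i m P`, `sinh P = -tan w`, `cosh P cos w = 1` have a solution with
`0 < Re w < π / b`, `Im w < 0`, `Re P < 0`, `0 < Im P < π / 2`; for `b ≥ 3` the number
`c = cos² w` satisfies `1 / 4 < |c| < 1`, `0 < Re c`, `0 < Im c`.
-/

namespace Pool.Agent.Work.MP_b30479_gtS.G2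

open Complex

theorem tanh_lt {x y : ℝ} (h : x < y) : Real.tanh x < Real.tanh y := by
  rw [Real.tanh_eq_sinh_div_cosh, Real.tanh_eq_sinh_div_cosh,
    div_lt_div_iff₀ (Real.cosh_pos _) (Real.cosh_pos _)]
  have h1 : 0 < Real.sinh (y - x) := Real.sinh_pos_iff.2 (by linarith only [h])
  rw [Real.sinh_sub] at h1
  linarith only [h1]

/-- the two real equations -/
theorem start_real {b m : ℝ} (hm : 0 < m) (hm2 : m ≤ 2) (hb : 2 < b) :
    ∃ α η : ℝ, 0 < α ∧ α < Real.pi / b ∧ 0 < η ∧ Real.sinh η < Real.sin α ∧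
      0 < (Real.pi - b * α) / m ∧ (Real.pi - b * α) / m < Real.pi / 2 ∧
      Real.sin α / Real.cosh η = Real.tanh (b * η / m) ∧
      Real.sinh η = Real.cos α * Real.tan ((Real.pi - b * α) / m) := by
  have hpi := Real.pi_pos
  have hb0 : 0 < b := by linarith only [hb]
  have hmb : m < b := by linarith only [hm2, hb]
  -- parameter `y`, `α = (π - m y) / b`
  set A : ℝ → ℝ := fun y => (Real.pi - m * y) / b with hA
  set S : ℝ → ℝ := fun y => Real.cos (A y) * Real.tan y with hS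
  set E : ℝ → ℝ := fun y => Real.arsinh (S y) with hE
  set f : ℝ → ℝ := fun y => Real.sin (A y) / Real.cosh (E y) - Real.tanh (b * E y / m) with hf
  have hcb : 0 < Real.cos (Real.pi / b) := by
    apply Real.cos_pos_of_mem_Ioo
    constructor
    · have : 0 < Real.pi / b := by positivity
      linarith only [hpi, this]
    · rw [div_lt_div_iff₀ hb0 two_pos]
      nlinarith only [hb, hpi]
  set y₁ : ℝ := Real.arctan (1 / Real.cos (Real.pi / b)) with hy₁
  have hy0 : 0 < y₁ := Real.arctan_pos.2 (by positivity)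
  have hy2 : y₁ < Real.pi / 2 := Real.arctan_lt_pi_div_two _
  have hAle : ∀ y, 0 ≤ y → A y ≤ Real.pi / b := by
    intro y hy
    simp only [hA]
    apply div_le_div_of_nonneg_right _ hb0.le
    have := mul_nonneg hm.le hy
    linarith only [this]
  have hA0 : ∀ y, y < Real.pi / 2 → 0 < A y := by
    intro y hy
    simp only [hA]
    apply div_pos _ hb0
    have := mul_lt_mul_of_pos_left hy hm
    nlinarith only [this, hm2, hpi]
  have hpb : Real.pi / b < Real.pi / 2 := by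
    rw [div_lt_div_iff₀ hb0 two_pos]
    nlinarith only [hb, hpi]
  have hcos : ∀ y, 0 ≤ y → y < Real.pi / 2 → Real.cos (Real.pi / b) ≤ Real.cos (A y) := by
    intro y h1 h2
    apply Real.cos_le_cos_of_nonneg_of_le_pi (hA0 y h2).le (by linarith only [hy0, hy2, hpb]) (hAle y h1)
  -- key: `sinh η ≥ sin α` gives `f < 0`
  have hkey : ∀ y, 0 < y → y < Real.pi / 2 → Real.sin (A y) ≤ S y → f y < 0 := by
    intro y h1 h2 h3
    have hsp : 0 < Real.sin (A y) :=
      Real.sin_pos_of_pos_of_lt_pi (hA0 y h2) (by linarith only [hy0, hy2, hpb, hAle, h1, hAle y h1.le])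
    have hSp : 0 < S y := hsp.trans_le h3
    have hEp : 0 < E y := Real.arsinh_pos_iff.2 hSp
    have e1 : Real.sinh (E y) = S y := Real.sinh_arsinh _
    have h4 : Real.tanh (E y) < Real.tanh (b * E y / m) := by
      apply tanh_lt
      rw [lt_div_iff₀ hm]
      nlinarith only [hm2, hEp, hb]
    have h5 : Real.sin (A y) / Real.cosh (E y) ≤ Real.tanh (E y) := by
      rw [Real.tanh_eq_sinh_div_cosh, e1]
      exact div_le_div_of_nonneg_right h3 (Real.cosh_pos _).le
    simp only [hf]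
    linarith only [h4, h5]
  have hf1 : f y₁ < 0 := by
    apply hkey y₁ hy0 hy2
    have e : S y₁ = Real.cos (A y₁) * (1 / Real.cos (Real.pi / b)) := by
      simp only [hS]
      rw [hy₁, Real.tan_arctan]
    have h1 : 1 ≤ S y₁ := by
      rw [e, mul_one_div, le_div_iff₀ hcb, one_mul]
      exact hcos y₁ hy0.le hy2
    exact (Real.sin_le_one _).trans h1
  have hf0 : 0 < f 0 := by
    have e1 : S 0 = 0 := by simp only [hS]; rw [Real.tan_zero, mul_zero]
    have e2 : E 0 = 0 := by simp only [hE]; rw [e1, Real.arsinh_zero]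
    have e3 : A 0 = Real.pi / b := by simp only [hA]; rw [mul_zero, sub_zero]
    simp only [hf]
    rw [e2, e3, Real.cosh_zero, mul_zero, zero_div, Real.tanh_zero, sub_zero, div_one]
    exact Real.sin_pos_of_pos_of_lt_pi (by positivity) (by linarith only [hy0, hy2, hpb])
  have hcont : ContinuousOn f (Set.Icc 0 y₁) := by
    have hAc : Continuous A := by simp only [hA]; fun_prop
    have hSc : ContinuousOn S (Set.Icc 0 y₁) := by
      simp only [hS]
      refine (Real.continuous_cos.comp hAc).continuousOn.mul ?_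
      intro y hy
      apply (Real.continuousAt_tan.2 _).continuousWithinAt
      exact (Real.cos_pos_of_mem_Ioo ⟨by linarith only [hy0, hy2, hy, hy.1], by linarith only [hy2, hy, hy.2]⟩).ne'
    have hEc : ContinuousOn E (Set.Icc 0 y₁) := Real.continuous_arsinh.comp_continuousOn hSc
    simp only [hf]
    refine ContinuousOn.sub (ContinuousOn.div ?_ ?_ ?_) ?_
    · exact (Real.continuous_sin.comp hAc).continuousOn
    · exact Real.continuous_cosh.comp_continuousOn hEc
    · intro y _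
      exact (Real.cosh_pos _).ne'
    · have hT : Continuous Real.tanh := by
        have e : Real.tanh = fun x => Real.sinh x / Real.cosh x :=
          funext fun x => Real.tanh_eq_sinh_div_cosh x
        rw [e]
        exact Real.continuous_sinh.div Real.continuous_cosh fun x => (Real.cosh_pos x).ne'
      exact hT.comp_continuousOn ((hEc.const_mul b |>.congr fun _ _ => rfl).div_const m)
  obtain ⟨y, hy, hfy⟩ := intermediate_value_Icc' hy0.le hcont ⟨hf1.le, hf0.le⟩
  have hyp : 0 < y := by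
    rcases eq_or_lt_of_le hy.1 with h | h
    · rw [← h] at hfy
      linarith only [hf0, hfy]
    · exact h
  have hyl : y < Real.pi / 2 := hy.2.trans_lt hy2
  have hyy : (Real.pi - b * A y) / m = y := by
    simp only [hA]
    field_simp
    ring
  have hEp : 0 < E y := by
    apply Real.arsinh_pos_iff.2
    simp only [hS]
    exact mul_pos (hcb.trans_le (hcos y hyp.le hyl)) (Real.tan_pos_of_pos_of_lt_pi_div_two hyp hyl)
  refine ⟨A y, E y, hA0 y hyl, ?_, hEp, ?_, by rw [hyy]; exact hyp, by rw [hyy]; exact hyl, ?_, ?_⟩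
  · simp only [hA]
    apply div_lt_div_of_pos_right _ hb0
    have := mul_pos hm hyp
    linarith only [this]
  · by_contra h
    push Not at h
    rw [Real.sinh_arsinh] at h
    have := hkey y hyp hyl h
    linarith only [hfy, this]
  · simp only [hf] at hfy
    linarith only [hfy]
  · rw [hyy]
    exact Real.sinh_arsinh _

/-- **The decoupled ring**: existence and location. -/
theorem start_ring {b m : ℝ} (hm : 0 < m) (hm2 : m ≤ 2) (hb : 2 < b) :
    ∃ w P : ℂ, 0 < w.re ∧ w.re < Real.pi / b ∧ w.im < 0 ∧ P.re < 0 ∧ 0 < P.im ∧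
      P.im < Real.pi / 2 ∧ (b : ℂ) * w = Real.pi + I * m * P ∧
      Complex.sinh P * Complex.cos w = -Complex.sin w ∧ Complex.cosh P * Complex.cos w = 1 ∧
      Real.sinh (-w.im) < Real.sin w.re ∧
      Real.sinh (-w.im) = Real.cos w.re * Real.tan P.im := by
  obtain ⟨α, η, hα, hαb, hη, hse, hy0, hy1, h1, h2⟩ := start_real hm hm2 hb
  have hpi := Real.pi_pos
  have hb0 : 0 < b := by linarith only [hb]
  have hpb : Real.pi / b < Real.pi / 2 := by
    rw [div_lt_div_iff₀ hb0 two_pos]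
    nlinarith only [hb, hy0, hy1]
  set y : ℝ := (Real.pi - b * α) / m with hy
  set A : ℝ := b * η / m with hA
  have hA0 : 0 < A := by positivity
  have hcα : 0 < Real.cos α := Real.cos_pos_of_mem_Ioo ⟨by linarith only [hα, hαb, hpb], by linarith only [hαb, hpb]⟩
  have hsα : 0 < Real.sin α := Real.sin_pos_of_pos_of_lt_pi hα (by linarith only [hα, hαb, hpb])
  have hcη := Real.cosh_pos η
  have hcA := Real.cosh_pos A
  have hcy : 0 < Real.cos y := Real.cos_pos_of_mem_Ioo ⟨by linarith only [hα, hαb, hpb, hy0], by linarith only [hy1]⟩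
  have hsη : 0 < Real.sinh η := Real.sinh_pos_iff.2 hη
  have q1 : Real.sinh A * Real.cosh η = Real.sin α * Real.cosh A := by
    rw [Real.tanh_eq_sinh_div_cosh] at h1
    rw [div_eq_div_iff hcη.ne' hcA.ne'] at h1
    linarith only [h1]
  have q2 : Real.sinh η * Real.cos y = Real.cos α * Real.sin y := by
    rw [Real.tan_eq_sin_div_cos] at h2
    rw [h2]
    field_simp
  have t1 := Real.cos_sq_add_sin_sq α
  have t2 := Real.cosh_sq η
  have t3 := Real.cosh_sq A
  have t4 := Real.cos_sq_add_sin_sq y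
  set ρ : ℝ := √(Real.cos α ^ 2 + Real.sinh η ^ 2) with hρ
  have hρ0 : 0 < ρ := Real.sqrt_pos.2 (by positivity)
  have hρ2 : ρ ^ 2 = Real.cos α ^ 2 + Real.sinh η ^ 2 := Real.sq_sqrt (by positivity)
  have r1 : Real.cosh A * ρ = Real.cosh η := by
    have h : (Real.cosh A * ρ) ^ 2 = Real.cosh η ^ 2 := by
      have e : Real.cosh η ^ 2 * Real.cosh A ^ 2 = Real.cosh η ^ 2 + (Real.sin α * Real.cosh A) ^ 2 := by
        rw [← q1]
        linear_combination (Real.cosh η ^ 2) * t3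
      rw [mul_pow, hρ2]
      linear_combination e + (Real.cosh A ^ 2) * t1 - (Real.cosh A ^ 2) * t2
    have h3 : 0 ≤ Real.cosh A * ρ := by positivity
    calc Real.cosh A * ρ = √((Real.cosh A * ρ) ^ 2) := (Real.sqrt_sq h3).symm
      _ = √(Real.cosh η ^ 2) := by rw [h]
      _ = _ := Real.sqrt_sq hcη.le
  have r2 : Real.sinh A * ρ = Real.sin α := by
    have : Real.sinh A * ρ * Real.cosh η = Real.sin α * Real.cosh η := by
      linear_combination ρ * q1 + (Real.sin α) * r1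
    exact mul_right_cancel₀ hcη.ne' this
  have r3 : Real.cos y * ρ = Real.cos α := by
    have h : (Real.cos y * ρ) ^ 2 = Real.cos α ^ 2 := by
      have e : Real.cos y ^ 2 * Real.sinh η ^ 2 = Real.cos α ^ 2 * Real.sin y ^ 2 := by
        linear_combination (Real.sinh η * Real.cos y + Real.cos α * Real.sin y) * q2
      rw [mul_pow, hρ2]
      linear_combination e + (Real.cos α ^ 2) * t4
    have h3 : 0 ≤ Real.cos y * ρ := by positivity
    calc Real.cos y * ρ = √((Real.cos y * ρ) ^ 2) := (Real.sqrt_sq h3).symm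
      _ = √(Real.cos α ^ 2) := by rw [h]
      _ = _ := Real.sqrt_sq hcα.le
  have r4 : Real.sin y * ρ = Real.sinh η := by
    have : Real.sin y * ρ * Real.cos α = Real.sinh η * Real.cos α := by
      linear_combination (-ρ) * q2 + (Real.sinh η) * r3
    exact mul_right_cancel₀ hcα.ne' this
  set w : ℂ := (α : ℂ) - (η : ℂ) * I with hw
  set P : ℂ := -(A : ℂ) + (y : ℂ) * I with hP
  have hwre : w.re = α := by rw [hw]; simp
  have hwim : w.im = -η := by rw [hw]; simp
  have hPre : P.re = -A := by rw [hP]; simp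
  have hPim : P.im = y := by rw [hP]; simp
  have hcw : Complex.cos w = (Real.cos α * Real.cosh η : ℝ) + (Real.sin α * Real.sinh η : ℝ) * I := by
    rw [hw, Complex.cos_sub, Complex.cos_mul_I, Complex.sin_mul_I]
    push_cast
    ring
  have hsw : Complex.sin w = (Real.sin α * Real.cosh η : ℝ) - (Real.cos α * Real.sinh η : ℝ) * I := by
    rw [hw, Complex.sin_sub, Complex.cos_mul_I, Complex.sin_mul_I]
    push_cast
    ring
  have hcP : Complex.cosh P = (Real.cosh A * Real.cos y : ℝ) - (Real.sinh A * Real.sin y : ℝ) * I := by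
    rw [hP, Complex.cosh_add, Complex.cosh_mul_I, Complex.sinh_mul_I, Complex.cosh_neg,
      Complex.sinh_neg]
    push_cast
    ring
  have hsP : Complex.sinh P = -(Real.sinh A * Real.cos y : ℝ) + (Real.cosh A * Real.sin y : ℝ) * I := by
    rw [hP, Complex.sinh_add, Complex.cosh_mul_I, Complex.sinh_mul_I, Complex.cosh_neg,
      Complex.sinh_neg]
    push_cast
    ring
  have hρc : (ρ : ℂ) ≠ 0 := by exact_mod_cast hρ0.ne'
  -- the two products, multiplied by `ρ²`
  have k1 : (Real.cosh A * Real.cos y) * ρ ^ 2 = Real.cosh η * Real.cos α := by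
    linear_combination (Real.cos y * ρ) * r1 + (Real.cosh η) * r3
  have k2 : (Real.sinh A * Real.sin y) * ρ ^ 2 = Real.sin α * Real.sinh η := by
    linear_combination (Real.sin y * ρ) * r2 + (Real.sin α) * r4
  have k3 : (Real.sinh A * Real.cos y) * ρ ^ 2 = Real.sin α * Real.cos α := by
    linear_combination (Real.cos y * ρ) * r2 + (Real.sin α) * r3
  have k4 : (Real.cosh A * Real.sin y) * ρ ^ 2 = Real.cosh η * Real.sinh η := by
    linear_combination (Real.sin y * ρ) * r1 + (Real.cosh η) * r4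
  have hcc : Complex.cosh P * Complex.cos w = 1 := by
    have e : ((ρ : ℂ) ^ 2) * (Complex.cosh P * Complex.cos w) = (ρ : ℂ) ^ 2 := by
      rw [hcP, hcw]
      have k1' : ((Real.cosh A : ℂ) * Real.cos y) * ρ ^ 2 = Real.cosh η * Real.cos α := by
        exact_mod_cast congrArg (fun x : ℝ => (x : ℂ)) k1
      have k2' : ((Real.sinh A : ℂ) * Real.sin y) * ρ ^ 2 = Real.sin α * Real.sinh η := by
        exact_mod_cast congrArg (fun x : ℝ => (x : ℂ)) k2
      have hρ2' : (ρ : ℂ) ^ 2 = (Real.cos α : ℂ) ^ 2 + (Real.sinh η : ℂ) ^ 2 := by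
        exact_mod_cast congrArg (fun x : ℝ => (x : ℂ)) hρ2
      have t1' : (Real.cos α : ℂ) ^ 2 + (Real.sin α : ℂ) ^ 2 = 1 := by
        exact_mod_cast congrArg (fun x : ℝ => (x : ℂ)) t1
      have t2' : (Real.cosh η : ℂ) ^ 2 = (Real.sinh η : ℂ) ^ 2 + 1 := by
        exact_mod_cast congrArg (fun x : ℝ => (x : ℂ)) t2
      rw [hρ2'] at k1' k2' ⊢
      simp only [Complex.ofReal_mul]
      linear_combination ((Real.cos α : ℂ) * Real.cosh η + (Real.sin α : ℂ) * Real.sinh η * I) * k1' -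
        I * ((Real.cos α : ℂ) * Real.cosh η + (Real.sin α : ℂ) * Real.sinh η * I) * k2' -
        ((Real.sin α : ℂ) ^ 2 * (Real.sinh η : ℂ) ^ 2) * I_sq + (Real.cos α : ℂ) ^ 2 * t2' +
        (Real.sinh η : ℂ) ^ 2 * t1'
    have hρ2c : (ρ : ℂ) ^ 2 ≠ 0 := pow_ne_zero 2 hρc
    exact mul_left_cancel₀ hρ2c (by rw [e, mul_one])
  have hsc : Complex.sinh P * Complex.cos w = -Complex.sin w := by
    have e : ((ρ : ℂ) ^ 2) * (Complex.sinh P * Complex.cos w) = (ρ : ℂ) ^ 2 * (-Complex.sin w) := by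
      rw [hsP, hcw, hsw]
      have k3' : ((Real.sinh A : ℂ) * Real.cos y) * ρ ^ 2 = Real.sin α * Real.cos α := by
        exact_mod_cast congrArg (fun x : ℝ => (x : ℂ)) k3
      have k4' : ((Real.cosh A : ℂ) * Real.sin y) * ρ ^ 2 = Real.cosh η * Real.sinh η := by
        exact_mod_cast congrArg (fun x : ℝ => (x : ℂ)) k4
      have hρ2' : (ρ : ℂ) ^ 2 = (Real.cos α : ℂ) ^ 2 + (Real.sinh η : ℂ) ^ 2 := by
        exact_mod_cast congrArg (fun x : ℝ => (x : ℂ)) hρ2
      have t1' : (Real.cos α : ℂ) ^ 2 + (Real.sin α : ℂ) ^ 2 = 1 := by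
        exact_mod_cast congrArg (fun x : ℝ => (x : ℂ)) t1
      have t2' : (Real.cosh η : ℂ) ^ 2 = (Real.sinh η : ℂ) ^ 2 + 1 := by
        exact_mod_cast congrArg (fun x : ℝ => (x : ℂ)) t2
      rw [hρ2'] at k3' k4' ⊢
      simp only [Complex.ofReal_mul]
      linear_combination (-((Real.cos α : ℂ) * Real.cosh η + (Real.sin α : ℂ) * Real.sinh η * I)) * k3' +
        I * ((Real.cos α : ℂ) * Real.cosh η + (Real.sin α : ℂ) * Real.sinh η * I) * k4' +
        ((Real.cosh η : ℂ) * (Real.sinh η : ℂ) ^ 2 * (Real.sin α : ℂ)) * I_sq +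
        ((Real.cos α : ℂ) * (Real.sinh η : ℂ) * I) * t2' - ((Real.cos α : ℂ) * (Real.sinh η : ℂ) * I) * t1'
    have hρ2c : (ρ : ℂ) ^ 2 ≠ 0 := pow_ne_zero 2 hρc
    exact mul_left_cancel₀ hρ2c e
  refine ⟨w, P, by rw [hwre]; exact hα, by rw [hwre]; exact hαb, by rw [hwim]; linarith only [hη],
    by rw [hPre]; linarith only [hA0], by rw [hPim]; exact hy0, by rw [hPim]; exact hy1, ?_, hsc, hcc,
    by rw [hwre, hwim, neg_neg]; exact hse, by rw [hwre, hwim, hPim, neg_neg]; exact h2⟩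
  have hmc : (m : ℂ) ≠ 0 := by exact_mod_cast hm.ne'
  rw [hw, hP, hA, hy]
  push_cast
  field_simp
  linear_combination ((b : ℂ) * α - Real.pi) * I_sq

/-- the location for `b ≥ 3`, `m ≥ 1` -/
theorem start_domain {b m : ℝ} (hm : 1 ≤ m) (hb : 3 ≤ b) {w P : ℂ} (h0 : 0 < w.re)
    (h1 : w.re < Real.pi / b) (h2 : w.im < 0) (h3 : 0 < P.im)
    (h5 : (b : ℂ) * w = Real.pi + I * m * P)
    (h6 : Real.sinh (-w.im) < Real.sin w.re)
    (h7 : Real.sinh (-w.im) = Real.cos w.re * Real.tan P.im) :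
    1 / 4 < ‖Complex.cos w ^ 2‖ ∧ ‖Complex.cos w ^ 2‖ < 1 ∧ 0 < (Complex.cos w ^ 2).re ∧
      0 < (Complex.cos w ^ 2).im := by
  have hpi := Real.pi_pos
  have hb0 : 0 < b := by linarith only [hb]
  have hm0 : 0 < m := by linarith only [hm]
  set α := w.re with hα
  set η := -w.im with hη
  have hη0 : 0 < η := by rw [hη]; linarith only [h2]
  have hαb : α < Real.pi / 3 := h1.trans_le (div_le_div_of_nonneg_left hpi.le (by norm_num) hb)
  have hw : w = (α : ℂ) - (η : ℂ) * I := by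
    apply Complex.ext
    · simp [hα]
    · simp [hη]
  have hcα : 1 / 2 < Real.cos α := by
    have := Real.cos_lt_cos_of_nonneg_of_le_pi h0.le (by linarith only [h0, hαb] : Real.pi / 3 ≤ Real.pi) hαb
    rwa [Real.cos_pi_div_three] at this
  have hsα : 0 < Real.sin α := Real.sin_pos_of_pos_of_lt_pi h0 (by linarith only [h0, hαb])
  have hsη : 0 < Real.sinh η := Real.sinh_pos_iff.2 hη0
  have hcη := Real.cosh_pos η
  have hc1 : 1 ≤ Real.cosh η := Real.one_le_cosh η
  have t1 := Real.cos_sq_add_sin_sq α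
  have t2 := Real.cosh_sq η
  have hcw : Complex.cos w = ((Real.cos α * Real.cosh η : ℝ) : ℂ) +
      ((Real.sin α * Real.sinh η : ℝ) : ℂ) * I := by
    rw [hw, Complex.cos_sub, Complex.cos_mul_I, Complex.sin_mul_I]
    push_cast
    ring
  have hre : (Complex.cos w).re = Real.cos α * Real.cosh η := by
    rw [hcw, add_re, ofReal_re, re_ofReal_mul, I_re, mul_zero, add_zero]
  have him : (Complex.cos w).im = Real.sin α * Real.sinh η := by
    rw [hcw, add_im, ofReal_im, im_ofReal_mul, I_im, mul_one, zero_add]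
  have hn : ‖Complex.cos w ^ 2‖ = Real.cos α ^ 2 + Real.sinh η ^ 2 := by
    rw [norm_pow, ← Complex.normSq_eq_norm_sq, Complex.normSq_apply, hre, him]
    linear_combination (Real.cos α ^ 2) * t2 + (Real.sinh η ^ 2) * t1
  -- real part
  have hy : b * α = Real.pi - m * P.im := by
    have := congrArg Complex.re h5
    rw [Complex.re_ofReal_mul, add_re, ofReal_re, mul_assoc, I_mul_re, Complex.im_ofReal_mul] at this
    linarith only [this]
  have hlt : Real.sin α * Real.sinh η < Real.cos α * Real.cosh η := by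
    rcases le_or_gt α (Real.pi / 4) with h | h
    · have hsc : Real.sin α ≤ Real.cos α := by
        rw [← Real.cos_pi_div_two_sub]
        apply Real.cos_le_cos_of_nonneg_of_le_pi h0.le (by linarith only [h0, hαb]) (by linarith only [h])
      have h8 : Real.sinh η < Real.cosh η := Real.sinh_lt_cosh η
      calc Real.sin α * Real.sinh η ≤ Real.cos α * Real.sinh η :=
            mul_le_mul_of_nonneg_right hsc hsη.le
        _ < Real.cos α * Real.cosh η := mul_lt_mul_of_pos_left h8 (by linarith only [h6, hsη, hsc])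
    · have hP : P.im < Real.pi / 4 := by
        have h9 : m * P.im < Real.pi / 4 := by nlinarith only [hy, h, hb, h0]
        nlinarith only [h9, hm, h3]
      have htan : Real.tan P.im < 1 := by
        rw [← Real.tan_pi_div_four]
        exact Real.tan_lt_tan_of_lt_of_lt_pi_div_two (by linarith only [h3, hαb, h]) (by linarith only [hαb, h]) hP
      have h8 : Real.sinh η < Real.cos α := by
        rw [h7]
        exact mul_lt_of_lt_one_right (by linarith only [hcα]) htan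
      calc Real.sin α * Real.sinh η ≤ 1 * Real.sinh η :=
            mul_le_mul_of_nonneg_right (Real.sin_le_one α) hsη.le
        _ < Real.cos α := by rw [one_mul]; exact h8
        _ ≤ Real.cos α * Real.cosh η := le_mul_of_one_le_right (by linarith only [hsη, h8]) hc1
  refine ⟨?_, ?_, ?_, ?_⟩
  · rw [hn]
    have : (1 / 2 : ℝ) ^ 2 < Real.cos α ^ 2 := pow_lt_pow_left₀ hcα (by norm_num) two_ne_zero
    have := sq_nonneg (Real.sinh η)
    norm_num at *
    linarith
  · rw [hn]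
    have : Real.sinh η ^ 2 < Real.sin α ^ 2 := pow_lt_pow_left₀ h6 hsη.le two_ne_zero
    linarith only [t1, this]
  · rw [sq, mul_re, hre, him]
    have h10 : (Real.sin α * Real.sinh η) * (Real.sin α * Real.sinh η) <
        (Real.cos α * Real.cosh η) * (Real.cos α * Real.cosh η) :=
      mul_self_lt_mul_self (by positivity) hlt
    linarith only [h10]
  · rw [sq, mul_im, hre, him]
    have hc0 : 0 < Real.cos α := by linarith only [hcα]
    positivity

end Pool.Agent.Work.MP_b30479_gtS.G2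

end

section

/-!
# The start of the continuation: all neighbour values are `1`
-/

namespace Pool.Agent.Work.MP_b30479_gtS.G2

open Complex

/-- `RR` and `QQ` at `k = 1` -/
theorem RQ_one {w P : ℂ} (hc : 0 < (Complex.cos w).re) (h1 : Complex.cosh P * Complex.cos w = 1)
    (h2 : Complex.sinh P * Complex.cos w = -Complex.sin w) (h3 : |P.im| < Real.pi / 2) :
    RR w 1 = 1 / Complex.cos w ∧ 0 < (RR w 1).re ∧ QQ w 1 = -P := by
  have hc0 : Complex.cos w ≠ 0 := cos_ne_of hc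
  have hre : 0 < (1 / Complex.cos w).re := by
    rw [one_div, Complex.inv_re]
    exact div_pos hc (Complex.normSq_pos.2 hc0)
  have hZ : ZZ0 w 1 = (1 / Complex.cos w) ^ 2 := by
    unfold ZZ0
    rw [Complex.tan_eq_sin_div_cos, div_pow, div_pow, one_pow, inv_one]
    have := Complex.sin_sq_add_cos_sq w
    field_simp
    linear_combination this
  have hR : RR w 1 = 1 / Complex.cos w := by
    unfold RR
    rw [hZ, Complex.sq_cpow_two_inv hre]
  refine ⟨hR, by rw [hR]; exact hre, ?_⟩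
  have hT : Complex.tan w + RR w 1 = cexp (-P) := by
    rw [hR, Complex.tan_eq_sin_div_cos, ← Complex.cosh_sub_sinh]
    field_simp
    linear_combination h2 - h1
  have hpi := Real.pi_pos
  obtain ⟨i1, i2⟩ := abs_lt.1 h3
  unfold QQ
  rw [hT, Complex.log_one, add_zero, Complex.log_exp]
  · rw [neg_im]; linarith only [hpi, i2]
  · rw [neg_im]; linarith only [hpi, i1]

/-- the start, `b ≥ 3`: frame `s = 1`; `m = 1` (end ring) or `m = 2` -/
theorem ring_start {b m : ℝ} (hm : 1 ≤ m) (hm2 : m ≤ 2) (hb : 3 ≤ b) :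
    ∃ w : ℂ, 0 < w.re ∧ w.re < Real.pi / b ∧ w.im < 0 ∧ Real.sinh (-w.im) < Real.sin w.re ∧
      0 < (Complex.cos w).re ∧ RR w 1 = 1 / Complex.cos w ∧ 0 < (RR w 1).re ∧
      b * w - Real.pi + I * (m * QQ w 1) = 0 ∧
      1 / 4 < ‖Complex.cos w ^ 2‖ ∧ ‖Complex.cos w ^ 2‖ < 1 ∧ 0 < (Complex.cos w ^ 2).re ∧
      0 < (Complex.cos w ^ 2).im ∧
      Real.sinh (-w.im) = Real.cos w.re * Real.tan ((Real.pi - b * w.re) / m) ∧
      0 < (Real.pi - b * w.re) / m ∧ (Real.pi - b * w.re) / m < Real.pi / 2 := by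
  have hm0 : 0 < m := by linarith only [hm]
  obtain ⟨w, P, h0, h1, h2, h3, h4, h5, h6, h7, h8, h9, h10⟩ :=
    start_ring hm0 hm2 (by linarith only [hb] : (2 : ℝ) < b)
  have hpi := Real.pi_pos
  have hb0 : 0 < b := by linarith only [hb]
  have hw2 : w.re < Real.pi / 3 := h1.trans_le (div_le_div_of_nonneg_left hpi.le (by norm_num) hb)
  have hc : 0 < (Complex.cos w).re := by
    have e : w = (w.re : ℂ) + (w.im : ℂ) * I := (re_add_im w).symm
    rw [e, Complex.cos_add_mul_I, ← ofReal_cos, ← ofReal_cosh, ← ofReal_sin, ← ofReal_sinh]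
    have h11 : 0 < Real.cos w.re := Real.cos_pos_of_mem_Ioo ⟨by linarith only [h0, hw2], by linarith only [h0, hw2]⟩
    have h12 := Real.cosh_pos w.im
    have e2 : ((Real.cos w.re : ℂ) * (Real.cosh w.im : ℂ) -
        (Real.sin w.re : ℂ) * (Real.sinh w.im : ℂ) * I).re = Real.cos w.re * Real.cosh w.im := by
      simp
      norm_cast
      simp
    rw [e2]
    positivity
  have hPi : |P.im| < Real.pi / 2 := by
    rw [abs_of_pos h4]
    exact h5
  obtain ⟨q1, q2, q3⟩ := RQ_one hc h8 h7 hPi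
  obtain ⟨d1, d2, d3, d4⟩ := start_domain hm hb h0 h1 h2 h4 h6 h9 h10
  have hP : (Real.pi - b * w.re) / m = P.im := by
    have := congrArg Complex.re h6
    rw [Complex.re_ofReal_mul, add_re, ofReal_re, mul_assoc, I_mul_re, Complex.im_ofReal_mul] at this
    rw [div_eq_iff hm0.ne']
    linarith only [this]
  refine ⟨w, h0, h1, h2, h9, hc, q1, q2, ?_, d1, d2, d3, d4, by rw [hP]; exact h10,
    by rw [hP]; exact h4, by rw [hP]; exact h5⟩
  rw [q3, h6]
  ring

/-- the start, `b = 2`, two neighbours -/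
theorem two_start : ∃ w : ℂ, w.re = Real.pi / 4 ∧ w.im < 0 ∧ -1 < w.im ∧
    Complex.cos w = ((√3 / 2 : ℝ) : ℂ) + ((1 / 2 : ℝ) : ℂ) * I ∧ RR w 1 = 1 / Complex.cos w ∧
    0 < (RR w 1).re ∧ 2 * w - Real.pi + I * (2 * QQ w 1) = 0 := by
  have hpi := Real.pi_pos
  set a : ℝ := Real.arsinh (1 / √2) with ha
  have h2 : (√2 : ℝ) * √2 = 2 := Real.mul_self_sqrt (by norm_num)
  have h20 : (0 : ℝ) < √2 := by positivity
  have hsa : Real.sinh a = 1 / √2 := Real.sinh_arsinh _
  have hca : Real.cosh a = √3 / √2 := by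
    have h := Real.cosh_sq a
    rw [hsa] at h
    have e : (1 / √2 : ℝ) ^ 2 + 1 = (√3 / √2) ^ 2 := by
      rw [div_pow, div_pow, Real.sq_sqrt (by norm_num), Real.sq_sqrt (by norm_num)]
      norm_num
    rw [e] at h
    calc Real.cosh a = √(Real.cosh a ^ 2) := (Real.sqrt_sq (Real.cosh_pos a).le).symm
      _ = √((√3 / √2) ^ 2) := by rw [h]
      _ = _ := Real.sqrt_sq (by positivity)
  have ha0 : 0 < a := Real.arsinh_pos_iff.2 (by positivity)
  have ha1 : a < 1 := by
    by_contra hc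
    push Not at hc
    have h3 : Real.sinh 1 ≤ Real.sinh a := Real.sinh_le_sinh.2 hc
    have h4 : (1 : ℝ) < Real.sinh 1 := Real.self_lt_sinh_iff.2 one_pos
    rw [hsa] at h3
    have h5 : 1 / √2 ≤ (1 : ℝ) := by
      rw [div_le_one h20]
      exact Real.one_le_sqrt.2 (by norm_num)
    linarith only [h3, h4, h5]
  have hc4 : Real.cos (Real.pi / 4) = √2 / 2 := Real.cos_pi_div_four
  have hs4 : Real.sin (Real.pi / 4) = √2 / 2 := Real.sin_pi_div_four
  set w : ℂ := ((Real.pi / 4 : ℝ) : ℂ) - (a : ℂ) * I with hw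
  set P : ℂ := -(a : ℂ) + ((Real.pi / 4 : ℝ) : ℂ) * I with hP
  have hwre : w.re = Real.pi / 4 := by rw [hw]; simp
  have hwim : w.im = -a := by rw [hw]; simp
  have hPim : P.im = Real.pi / 4 := by rw [hP]; simp
  have r1 : Real.cos (Real.pi / 4) * Real.cosh a = √3 / 2 := by
    rw [hc4, hca]
    field_simp
  have r2 : Real.sin (Real.pi / 4) * Real.sinh a = 1 / 2 := by
    rw [hs4, hsa]
    field_simp
  have hcw : Complex.cos w = ((√3 / 2 : ℝ) : ℂ) + ((1 / 2 : ℝ) : ℂ) * I := by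
    rw [hw, Complex.cos_sub, Complex.cos_mul_I, Complex.sin_mul_I, ← ofReal_cos, ← ofReal_cosh,
      ← ofReal_sin, ← ofReal_sinh, ← r1, ← r2]
    push_cast
    ring
  have hsw : Complex.sin w = ((√3 / 2 : ℝ) : ℂ) - ((1 / 2 : ℝ) : ℂ) * I := by
    have r1' : Real.sin (Real.pi / 4) * Real.cosh a = √3 / 2 := by rw [hs4, ← hc4]; exact r1
    have r2' : Real.cos (Real.pi / 4) * Real.sinh a = 1 / 2 := by rw [hc4, ← hs4]; exact r2
    rw [hw, Complex.sin_sub, Complex.cos_mul_I, Complex.sin_mul_I, ← ofReal_cos, ← ofReal_cosh,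
      ← ofReal_sin, ← ofReal_sinh, ← r1', ← r2']
    push_cast
    ring
  have hcP : Complex.cosh P = ((√3 / 2 : ℝ) : ℂ) - ((1 / 2 : ℝ) : ℂ) * I := by
    rw [hP, Complex.cosh_add, Complex.cosh_mul_I, Complex.sinh_mul_I, Complex.cosh_neg,
      Complex.sinh_neg, ← ofReal_cos, ← ofReal_cosh, ← ofReal_sin, ← ofReal_sinh, ← r1, ← r2]
    push_cast
    ring
  have hsP : Complex.sinh P = -((1 / 2 : ℝ) : ℂ) + ((√3 / 2 : ℝ) : ℂ) * I := by
    have r1' : Real.sin (Real.pi / 4) * Real.cosh a = √3 / 2 := by rw [hs4, ← hc4]; exact r1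
    have r2' : Real.cos (Real.pi / 4) * Real.sinh a = 1 / 2 := by rw [hc4, ← hs4]; exact r2
    rw [hP, Complex.sinh_add, Complex.cosh_mul_I, Complex.sinh_mul_I, Complex.cosh_neg,
      Complex.sinh_neg, ← ofReal_cos, ← ofReal_cosh, ← ofReal_sin, ← ofReal_sinh, ← r1', ← r2']
    push_cast
    ring
  have h3 : ((√3 : ℝ) : ℂ) ^ 2 = 3 := by
    rw [← ofReal_pow, Real.sq_sqrt (by norm_num)]
    norm_num
  have k1 : Complex.cosh P * Complex.cos w = 1 := by
    rw [hcP, hcw]
    push_cast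
    linear_combination (1 / 4 : ℂ) * h3 - (1 / 4 : ℂ) * I_sq
  have k2 : Complex.sinh P * Complex.cos w = -Complex.sin w := by
    rw [hsP, hcw, hsw]
    push_cast
    linear_combination (I / 4) * h3 + (((√3 : ℝ) : ℂ) / 4) * I_sq
  have hc : 0 < (Complex.cos w).re := by
    rw [hcw, add_re, ofReal_re, re_ofReal_mul, I_re, mul_zero, add_zero]
    positivity
  obtain ⟨q1, q2, q3⟩ := RQ_one hc k1 k2 (by rw [hPim, abs_of_pos (by positivity)]; linarith only [hpi])
  refine ⟨w, hwre, by rw [hwim]; linarith only [ha0], by rw [hwim]; linarith only [ha1], hcw, q1, q2, ?_⟩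
  rw [q3, hw, hP]
  push_cast
  linear_combination (-(Real.pi : ℂ) / 2) * I_sq

/-- the start, `b = 2`, one neighbour -/
theorem two_end_start : ∃ w : ℂ, 0 < w.re ∧ w.re < Real.pi / 2 ∧ w.im < 0 ∧ -1 < w.im ∧
    Complex.cos w = (1 + I) / 2 ∧ RR w 1 = 1 / Complex.cos w ∧
    0 < (RR w 1).re ∧ 2 * w - Real.pi + I * (1 * QQ w 1) = 0 := by
  have hpi := Real.pi_pos
  set g : ℝ := Real.goldenRatio with hg
  have hg2 : g ^ 2 = g + 1 := Real.goldenRatio_sq
  have hg1 : 1 < g := Real.one_lt_goldenRatio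
  have hgl : g < 2 := Real.goldenRatio_lt_two
  have hg0 : 0 < g := by linarith only [hg1, hgl]
  set a : ℝ := Real.arsinh (√g) with ha
  set y : ℝ := Real.arccos (1 / g) with hy
  have hsa : Real.sinh a = √g := Real.sinh_arsinh _
  have hsq : √g ^ 2 = g := Real.sq_sqrt hg0.le
  have hca : Real.cosh a = g := by
    have h := Real.cosh_sq a
    rw [hsa, hsq, ← hg2] at h
    calc Real.cosh a = √(Real.cosh a ^ 2) := (Real.sqrt_sq (Real.cosh_pos a).le).symm
      _ = √(g ^ 2) := by rw [h]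
      _ = _ := Real.sqrt_sq hg0.le
  have h1g : 1 / g ≤ 1 := by rw [div_le_one hg0]; exact hg1.le
  have h1g0 : 0 < 1 / g := by positivity
  have hcy : Real.cos y = 1 / g := Real.cos_arccos (by linarith only [hg1, hgl, h1g0]) h1g
  have hy0 : 0 < y := Real.arccos_pos.2 (by rw [div_lt_one hg0]; exact hg1)
  have hy1 : y < Real.pi / 2 := Real.arccos_lt_pi_div_two.2 h1g0
  have hsy : √g * Real.sin y = 1 := by
    have h0 : 0 ≤ Real.sin y := (Real.sin_pos_of_pos_of_lt_pi hy0 (by linarith only [hy0, hy1])).le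
    have h1 : (√g * Real.sin y) ^ 2 = 1 := by
      have h2 := Real.sin_sq_add_cos_sq y
      rw [hcy] at h2
      have h3 : Real.sin y ^ 2 = 1 - 1 / g ^ 2 := by
        rw [div_pow, one_pow] at h2
        linarith only [h2]
      rw [mul_pow, hsq, h3]
      field_simp
      linarith only [hg2]
    have h2 : 0 ≤ √g * Real.sin y := by positivity
    calc √g * Real.sin y = √((√g * Real.sin y) ^ 2) := (Real.sqrt_sq h2).symm
      _ = √1 := by rw [h1]
      _ = 1 := Real.sqrt_one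
  have ha0 : 0 < a := Real.arsinh_pos_iff.2 (by positivity)
  have ha1 : a < 2 := by
    by_contra hc
    push Not at hc
    have h3 : Real.sinh 2 ≤ Real.sinh a := Real.sinh_le_sinh.2 hc
    have h4 : (2 : ℝ) < Real.sinh 2 := Real.self_lt_sinh_iff.2 two_pos
    rw [hsa] at h3
    have h5 : √g < 2 := by
      rw [Real.sqrt_lt' two_pos]
      linarith only [hg1, hgl]
    linarith only [h3, h4, h5]
  set P : ℂ := -(a : ℂ) + (y : ℂ) * I with hP
  set w : ℂ := ((Real.pi : ℂ) + I * P) / 2 with hw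
  have hwre : w.re = (Real.pi - y) / 2 := by
    rw [hw, hP]
    simp
    ring
  have hwim : w.im = -a / 2 := by
    rw [hw, hP]
    simp
  have hPim : P.im = y := by rw [hP]; simp
  have hcP : Complex.cosh P = 1 - I := by
    rw [hP, Complex.cosh_add, Complex.cosh_mul_I, Complex.sinh_mul_I, Complex.cosh_neg,
      Complex.sinh_neg, ← ofReal_cos, ← ofReal_cosh, ← ofReal_sin, ← ofReal_sinh, hca, hcy, hsa]
    have e1 : (g : ℂ) * ((1 / g : ℝ) : ℂ) = 1 := by
      rw [← ofReal_mul]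
      have : g * (1 / g) = 1 := by field_simp
      rw [this, ofReal_one]
    have e2 : ((√g : ℝ) : ℂ) * ((Real.sin y : ℝ) : ℂ) = 1 := by
      rw [← ofReal_mul, hsy, ofReal_one]
    linear_combination e1 - I * e2
  have hw0 : 0 < w.re := by rw [hwre]; linarith only [hy0, hy1]
  have hw1 : w.re < Real.pi / 2 := by rw [hwre]; linarith only [hy0]
  have e : w = (w.re : ℂ) + (w.im : ℂ) * I := (re_add_im w).symm
  have hcre : 0 < (Complex.cos w).re := by
    rw [e, Complex.cos_add_mul_I, ← ofReal_cos, ← ofReal_cosh, ← ofReal_sin, ← ofReal_sinh]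
    have h11 : 0 < Real.cos w.re := Real.cos_pos_of_mem_Ioo ⟨by linarith only [hy0, hy1, hwre], by linarith only [hy0, hwre]⟩
    have h12 := Real.cosh_pos w.im
    have e2 : ((Real.cos w.re : ℂ) * (Real.cosh w.im : ℂ) -
        (Real.sin w.re : ℂ) * (Real.sinh w.im : ℂ) * I).re = Real.cos w.re * Real.cosh w.im := by
      simp
      norm_cast
      simp
    rw [e2]
    positivity
  have hsre : 0 < (Complex.sin w).re := by
    rw [e, Complex.sin_add_mul_I, ← ofReal_cos, ← ofReal_cosh, ← ofReal_sin, ← ofReal_sinh]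
    have h11 : 0 < Real.sin w.re := Real.sin_pos_of_pos_of_lt_pi hw0 (by linarith only [hy0, hy1, hwre])
    have h12 := Real.cosh_pos w.im
    have e2 : ((Real.sin w.re : ℂ) * (Real.cosh w.im : ℂ) +
        (Real.cos w.re : ℂ) * (Real.sinh w.im : ℂ) * I).re = Real.sin w.re * Real.cosh w.im := by
      simp
      norm_cast
      simp
    rw [e2]
    positivity
  have h2w : 2 * w = Real.pi + I * P := by rw [hw]; ring
  have hcc : Complex.cos w ^ 2 = ((1 + I) / 2) ^ 2 := by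
    have h1 := Complex.cos_sq w
    have h2 : Complex.cos (2 * w) = -Complex.cosh P := by
      rw [h2w, add_comm, Complex.cos_add_pi, mul_comm, Complex.cos_mul_I]
    rw [h1, h2, hcP]
    linear_combination (-1 / 4 : ℂ) * I_sq
  have hcw : Complex.cos w = (1 + I) / 2 := by
    rcases sq_eq_sq_iff_eq_or_eq_neg.1 hcc with h | h
    · exact h
    · exfalso
      rw [h] at hcre
      simp at hcre
      linarith only [hg1, hgl, hcre]
  have k1 : Complex.cosh P * Complex.cos w = 1 := by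
    rw [hcP, hcw]
    linear_combination (-1 / 2 : ℂ) * I_sq
  have k2 : Complex.sinh P * Complex.cos w = -Complex.sin w := by
    have h1 : (Complex.sinh P * Complex.cos w) ^ 2 = Complex.sin w ^ 2 := by
      have h2 := Complex.sin_sq_add_cos_sq w
      have h3 := Complex.cosh_sq_sub_sinh_sq P
      rw [hcP] at h3
      have h4 : Complex.sin w ^ 2 = 1 - ((1 + I) / 2) ^ 2 := by
        rw [← hcc]
        linear_combination h2
      have h5 : Complex.sinh P ^ 2 = (1 - I) ^ 2 - 1 := by linear_combination -h3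
      rw [mul_pow, h5, h4, hcc]
      linear_combination (1 / 4 * I ^ 2 - 3 / 4 : ℂ) * I_sq
    rcases sq_eq_sq_iff_eq_or_eq_neg.1 h1 with h | h
    · exfalso
      have h3 : (Complex.sinh P * Complex.cos w).re < 0 := by
        have h4 : Complex.sinh P = ((-(√g * (1 / g)) : ℝ) : ℂ) + ((g * Real.sin y : ℝ) : ℂ) * I := by
          rw [hP, Complex.sinh_add, Complex.cosh_mul_I, Complex.sinh_mul_I, Complex.cosh_neg,
            Complex.sinh_neg, ← ofReal_cos, ← ofReal_cosh, ← ofReal_sin, ← ofReal_sinh, hca, hcy, hsa]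
          push_cast
          ring
        have h5 : 0 < Real.sin y := Real.sin_pos_of_pos_of_lt_pi hy0 (by linarith only [hy0, hy1])
        have h6 : (Complex.sinh P * Complex.cos w).re = (-(√g * (1 / g)) - g * Real.sin y) / 2 := by
          rw [h4, hcw]
          generalize -(√g * (1 / g)) = X
          generalize g * Real.sin y = Y
          simp
          ring
        rw [h6]
        have h7 : 0 < √g * (1 / g) := by positivity
        have h8 : 0 < g * Real.sin y := by positivity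
        linarith only [h7, h8]
      rw [h] at h3
      linarith only [hsre, h3]
    · exact h
  obtain ⟨q1, q2, q3⟩ := RQ_one hcre k1 k2 (by rw [hPim, abs_of_pos hy0]; exact hy1)
  refine ⟨w, hw0, hw1, by rw [hwim]; linarith only [ha0], by rw [hwim]; linarith only [ha1], hcw, q1, q2, ?_⟩
  rw [q3, h2w]
  ring

end Pool.Agent.Work.MP_b30479_gtS.G2

end
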