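import Mathlib

section

/-!
# The typed polygons of the ring values

Own frame (positive twist region, `w = α - i η`, `κ = cos w` in the upper half plane). All polygons
are given by their vertices in counterclockwise order, in units of `1 / 1000`.
-/

namespace Pool.Agent.Work.MP_b30479_gtS.G2

/-- cross product of `q - p` and `1000 z - p` -/
def cr (p q : ℤ × ℤ) (z : ℂ) : ℝ :=
  ((q.1 - p.1 : ℤ) : ℝ) * (1000 * z.im - (p.2 : ℝ)) -
    ((q.2 - p.2 : ℤ) : ℝ) * (1000 * z.re - (p.1 : ℝ))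

/-- the edges of the closed polygon with the vertices `V` -/
def edges (V : List (ℤ × ℤ)) : List ((ℤ × ℤ) × (ℤ × ℤ)) := V.zip (V.rotate 1)

/-- the closed polygon with vertices `V` (counterclockwise, in units of `1 / 1000`) -/
def Poly (V : List (ℤ × ℤ)) : Set ℂ := {z | ∀ e ∈ edges V, 0 ≤ cr e.1 e.2 z}

/-- its interior -/
def PolyU (V : List (ℤ × ℤ)) : Set ℂ := {z | ∀ e ∈ edges V, 0 < cr e.1 e.2 z}

/-- mirror image in the real axis -/
def mir (V : List (ℤ × ℤ)) : List (ℤ × ℤ) := (V.map fun p => (p.1, -p.2)).reverse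

/-- ring types: number of crossings, then `a` = neighbour of opposite sign, `s` = neighbour of equal
sign; `t2e`, `t3e` end rings -/
inductive RT
  | t2aa | t2as | t2e | t3aa | t3as | t3ss | t3ae | t3se | t4 | t5 | t6 | t7 | t8
  deriving DecidableEq

/-- the type of a ring with `b` crossings, `na` neighbours of opposite sign and `ns` neighbours of
equal sign -/
def rtype (b na ns : ℕ) : RT :=
  if b ≤ 2 then (if na = 2 then .t2aa else if ns = 1 then .t2as else .t2e)
  else if b = 3 then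
    (if na = 2 then .t3aa else if na = 1 then (if ns = 1 then .t3as else .t3ae)
      else if ns = 2 then .t3ss else .t3se)
  else if b = 4 then .t4 else if b = 5 then .t5 else if b = 6 then .t6 else if b = 7 then .t7
  else .t8

/-- the vertices -/
def vt : RT → List (ℤ × ℤ)
  | .t2aa => [(598, 237), (672, 185), (843, 185), (874, 504), (748, 508), (598, 380)]
  | .t2as => [(528, 357), (640, 277), (852, 277), (874, 504), (831, 675), (733, 675), (528, 503)]
  | .t2e => [(420, 247), (485, 200), (653, 200), (664, 313), (586, 508), (497, 508), (420, 444)]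
  | .t3aa => [(714, 139), (762, 105), (862, 105), (873, 219), (852, 299), (794, 299), (714, 231)]
  | .t3as => [(659, 217), (722, 172), (853, 172), (862, 264), (826, 401), (766, 401), (659, 310)]
  | .t3ss => [(637, 342), (733, 274), (855, 274), (856, 294), (808, 487), (789, 539), (733, 539),
      (637, 455)]
  | .t3ae => [(614, 117), (649, 91), (739, 91), (745, 153), (703, 258), (658, 258), (614, 220)]
  | .t3se => [(501, 240), (536, 215), (666, 215), (669, 252), (628, 356), (550, 356), (501, 314)]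
  | .t4 => [(660, 115), (760, 38), (900, 38), (920, 120), (830, 330), (770, 330), (660, 230)]
  | .t5 => [(720, 70), (800, 10), (940, 10), (955, 110), (900, 250), (800, 250), (720, 190)]
  | .t6 => [(790, 45), (850, 4), (960, 4), (963, 90), (920, 200), (830, 200), (790, 150)]
  | .t7 => [(830, 30), (870, 1), (955, 1), (965, 50), (935, 130), (860, 130), (830, 110)]
  | .t8 => [(800, 0), (1000, 0), (900, 250), (800, 250)]

/-- ports: all types (mirrored for a neighbour of opposite sign) -/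
def pA : List (ℤ × ℤ) :=
  [(420, 246), (766, 0), (1000, 0), (831, 676), (730, 676), (500, 515), (420, 445)]

/-- ports: all types which have a neighbour of equal sign (neighbour of equal sign, own digit at
least `3`) -/
def pS : List (ℤ × ℤ) := [(500, 220), (800, 0), (1000, 0), (831, 676), (732, 676), (500, 480)]

/-- ports: digit at least `3` and a neighbour of equal sign (neighbour of equal sign of a `2`) -/
def pT : List (ℤ × ℤ) := [(500, 220), (800, 0), (1000, 0), (787, 545), (737, 545), (500, 340)]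

/-- lower bound for `Re R` in the continuation -/
noncomputable def r0 : ℝ := 1 / 100

end Pool.Agent.Work.MP_b30479_gtS.G2

end

section

/-!
# Quartic inequalities over a polygon

`α Re z² + β Im z² - γ |z|⁴ - μ ≥ 0` on a polygon, by Bernstein coefficients on the fan of triangles
with the first vertex as apex.
-/

namespace Pool.Agent.Work.MP_b30479_gtS.G2.SQ

/-- six times the blossom of the quartic (units `1 / 1000`) -/
def bl (al be ga mu : ℤ) (p q r s : ℤ × ℤ) : ℤ :=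
  1000000 * al * ((p.1 * q.1 - p.2 * q.2) + (p.1 * r.1 - p.2 * r.2) + (p.1 * s.1 - p.2 * s.2) +
      (q.1 * r.1 - q.2 * r.2) + (q.1 * s.1 - q.2 * s.2) + (r.1 * s.1 - r.2 * s.2)) +
    1000000 * be * ((p.1 * q.2 + p.2 * q.1) + (p.1 * r.2 + p.2 * r.1) + (p.1 * s.2 + p.2 * s.1) +
      (q.1 * r.2 + q.2 * r.1) + (q.1 * s.2 + q.2 * s.1) + (r.1 * s.2 + r.2 * s.1)) -
    2 * ga * ((p.1 * q.1 + p.2 * q.2) * (r.1 * s.1 + r.2 * s.2) +
      (p.1 * r.1 + p.2 * r.2) * (q.1 * s.1 + q.2 * s.2) +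
      (p.1 * s.1 + p.2 * s.2) * (q.1 * r.1 + q.2 * r.2)) -
    6000000000000 * mu

/-- all Bernstein coefficients on a triangle are nonnegative and the triangle is positively
oriented -/
def triOK (al be ga mu : ℤ) (a b c : ℤ × ℤ) : Bool :=
  decide (0 < (b.1 - a.1) * (c.2 - a.2) - (b.2 - a.2) * (c.1 - a.1)) &&
  decide (0 ≤ bl al be ga mu a a a a) && decide (0 ≤ bl al be ga mu a a a b) &&
  decide (0 ≤ bl al be ga mu a a a c) && decide (0 ≤ bl al be ga mu a a b b) &&
  decide (0 ≤ bl al be ga mu a a b c) && decide (0 ≤ bl al be ga mu a a c c) &&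
  decide (0 ≤ bl al be ga mu a b b b) && decide (0 ≤ bl al be ga mu a b b c) &&
  decide (0 ≤ bl al be ga mu a b c c) && decide (0 ≤ bl al be ga mu a c c c) &&
  decide (0 ≤ bl al be ga mu b b b b) && decide (0 ≤ bl al be ga mu b b b c) &&
  decide (0 ≤ bl al be ga mu b b c c) && decide (0 ≤ bl al be ga mu b c c c) &&
  decide (0 ≤ bl al be ga mu c c c c)

/-- all triangles of the fan -/
def fanOK (al be ga mu : ℤ) (a : ℤ × ℤ) : List (ℤ × ℤ) → Bool
  | b :: c :: l => triOK al be ga mu a b c && fanOK al be ga mu a (c :: l)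
  | _ => true

/-- the check for a polygon -/
def polyOK (al be ga mu : ℤ) : List (ℤ × ℤ) → Bool
  | a :: b :: c :: l => fanOK al be ga mu a (b :: c :: l)
  | _ => false

/-- the quartic -/
noncomputable def quart (al be ga mu : ℤ) (z : ℂ) : ℝ :=
  al * (z.re ^ 2 - z.im ^ 2) + be * (2 * z.re * z.im) - ga * (z.re ^ 2 + z.im ^ 2) ^ 2 - mu

lemma tri_sound {al be ga mu : ℤ} {a b c : ℤ × ℤ} (h : triOK al be ga mu a b c = true) {z : ℂ}
    (h0 : 0 ≤ cr b c z) (h1 : cr a c z ≤ 0) (h2 : 0 ≤ cr a b z) : 0 ≤ quart al be ga mu z := by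
  simp only [triOK, Bool.and_eq_true, decide_eq_true_eq] at h
  obtain ⟨⟨⟨⟨⟨⟨⟨⟨⟨⟨⟨⟨⟨⟨⟨hD, c1⟩, c2⟩, c3⟩, c4⟩, c5⟩, c6⟩, c7⟩, c8⟩, c9⟩, c10⟩, c11⟩, c12⟩, c13⟩,
    c14⟩, c15⟩ := h
  obtain ⟨a1, a2⟩ := a
  obtain ⟨b1, b2⟩ := b
  obtain ⟨e1, e2⟩ := c
  simp only [bl] at c1 c2 c3 c4 c5 c6 c7 c8 c9 c10 c11 c12 c13 c14 c15
  simp only at hD
  have hD' : (0 : ℝ) < (b1 - a1) * (e2 - a2) - (b2 - a2) * (e1 - a1) := by exact_mod_cast hD
  rify at c1 c2 c3 c4 c5 c6 c7 c8 c9 c10 c11 c12 c13 c14 c15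
  simp only [cr, Int.cast_sub] at h0 h1 h2
  generalize hx : z.re = x at *
  generalize hy : z.im = y at *
  obtain ⟨l0, hl0⟩ : ∃ l0 : ℝ, l0 = ((e1 : ℝ) - b1) * (1000 * y - b2) -
    ((e2 : ℝ) - b2) * (1000 * x - b1) := ⟨_, rfl⟩
  obtain ⟨l1, hl1⟩ : ∃ l1 : ℝ, l1 = -(((e1 : ℝ) - a1) * (1000 * y - a2) -
    ((e2 : ℝ) - a2) * (1000 * x - a1)) := ⟨_, rfl⟩
  obtain ⟨l2, hl2⟩ : ∃ l2 : ℝ, l2 = ((b1 : ℝ) - a1) * (1000 * y - a2) -
    ((b2 : ℝ) - a2) * (1000 * x - a1) := ⟨_, rfl⟩
  have p0 : 0 ≤ l0 := by rw [hl0]; exact h0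
  have p1 : 0 ≤ l1 := by rw [hl1]; linarith
  have p2 : 0 ≤ l2 := by rw [hl2]; exact h2
  set D : ℝ := ((b1 : ℝ) - a1) * (e2 - a2) - (b2 - a2) * (e1 - a1) with hDd
  have sD : l0 + l1 + l2 = D := by rw [hl0, hl1, hl2, hDd]; ring
  have sx : D * (1000 * x) = l0 * a1 + l1 * b1 + l2 * e1 := by
    rw [hl0, hl1, hl2, hDd]; ring
  have sy : D * (1000 * y) = l0 * a2 + l1 * b2 + l2 * e2 := by
    rw [hl0, hl1, hl2, hDd]; ring
  have key : 6 * D ^ 4 * 1000000000000 * quart al be ga mu z =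
      6 * (1000000 * al * ((D * (1000 * x)) ^ 2 - (D * (1000 * y)) ^ 2) * D ^ 2 +
        1000000 * be * (2 * (D * (1000 * x)) * (D * (1000 * y))) * D ^ 2 -
        ga * ((D * (1000 * x)) ^ 2 + (D * (1000 * y)) ^ 2) ^ 2 - 1000000000000 * mu * D ^ 4) := by
    rw [quart, hx, hy]
    ring
  have hpos : 0 ≤ 6 * D ^ 4 * 1000000000000 * quart al be ga mu z := by
    rw [key, sx, sy, ← sD]
    have q1 := mul_nonneg (pow_nonneg p0 4) c1
    have q2 := mul_nonneg (mul_nonneg (pow_nonneg p0 3) p1) c2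
    have q3 := mul_nonneg (mul_nonneg (pow_nonneg p0 3) p2) c3
    have q4 := mul_nonneg (mul_nonneg (pow_nonneg p0 2) (pow_nonneg p1 2)) c4
    have q5 := mul_nonneg (mul_nonneg (mul_nonneg (pow_nonneg p0 2) p1) p2) c5
    have q6 := mul_nonneg (mul_nonneg (pow_nonneg p0 2) (pow_nonneg p2 2)) c6
    have q7 := mul_nonneg (mul_nonneg p0 (pow_nonneg p1 3)) c7
    have q8 := mul_nonneg (mul_nonneg (mul_nonneg p0 (pow_nonneg p1 2)) p2) c8
    have q9 := mul_nonneg (mul_nonneg (mul_nonneg p0 p1) (pow_nonneg p2 2)) c9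
    have q10 := mul_nonneg (mul_nonneg p0 (pow_nonneg p2 3)) c10
    have q11 := mul_nonneg (pow_nonneg p1 4) c11
    have q12 := mul_nonneg (mul_nonneg (pow_nonneg p1 3) p2) c12
    have q13 := mul_nonneg (mul_nonneg (pow_nonneg p1 2) (pow_nonneg p2 2)) c13
    have q14 := mul_nonneg (mul_nonneg p1 (pow_nonneg p2 3)) c14
    have q15 := mul_nonneg (pow_nonneg p2 4) c15
    have hs := add_nonneg (add_nonneg (add_nonneg (add_nonneg q1
      (mul_nonneg (by norm_num : (0 : ℝ) ≤ 4) q2)) (mul_nonneg (by norm_num : (0 : ℝ) ≤ 4) q3))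
      (mul_nonneg (by norm_num : (0 : ℝ) ≤ 6) q4)) (mul_nonneg (by norm_num : (0 : ℝ) ≤ 12) q5)
    have hs2 := add_nonneg (add_nonneg (add_nonneg (add_nonneg hs
      (mul_nonneg (by norm_num : (0 : ℝ) ≤ 6) q6)) (mul_nonneg (by norm_num : (0 : ℝ) ≤ 4) q7))
      (mul_nonneg (by norm_num : (0 : ℝ) ≤ 12) q8)) (mul_nonneg (by norm_num : (0 : ℝ) ≤ 12) q9)
    have hs3 := add_nonneg (add_nonneg (add_nonneg (add_nonneg (add_nonneg (add_nonneg hs2
      (mul_nonneg (by norm_num : (0 : ℝ) ≤ 4) q10)) q11)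
      (mul_nonneg (by norm_num : (0 : ℝ) ≤ 4) q12)) (mul_nonneg (by norm_num : (0 : ℝ) ≤ 6) q13))
      (mul_nonneg (by norm_num : (0 : ℝ) ≤ 4) q14)) q15
    refine hs3.trans (le_of_eq ?_)
    ring
  have hD4 : 0 < 6 * D ^ 4 * 1000000000000 := by positivity
  exact nonneg_of_mul_nonneg_right hpos hD4

lemma cr_swap (p q : ℤ × ℤ) (z : ℂ) : cr p q z = -cr q p z := by
  simp only [cr, Int.cast_sub]
  ring

lemma fan_sound {al be ga mu : ℤ} {a : ℤ × ℤ} {z : ℂ} (t : List (ℤ × ℤ)) :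
    ∀ x : ℤ × ℤ, (∀ e ∈ (x :: t).zip (t ++ [a]), 0 ≤ cr e.1 e.2 z) →
      fanOK al be ga mu a (x :: t) = true → 0 ≤ cr a x z → (t ≠ [] ∨ 0 < cr a x z) →
      0 ≤ quart al be ga mu z := by
  induction t with
  | nil =>
    intro x h1 _ _ h4
    have h5 := h1 (x, a) (by simp)
    rw [cr_swap] at h5
    rcases h4 with h4 | h4
    · exact absurd rfl h4
    · simp only at h5
      linarith
  | cons y t ih =>
    intro x h1 h2 h3 _
    rw [fanOK, Bool.and_eq_true] at h2
    by_cases hy : cr a y z ≤ 0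
    · exact tri_sound h2.1 (h1 (x, y) (by simp)) hy h3
    · push Not at hy
      exact ih y (fun e he => h1 e (by simp [he])) h2.2 hy.le (Or.inr hy)

/-- soundness of the check -/
theorem poly_sound {al be ga mu : ℤ} {V : List (ℤ × ℤ)} (h : polyOK al be ga mu V = true) {z : ℂ}
    (hz : z ∈ Poly V) : 0 ≤ quart al be ga mu z := by
  match V, h, hz with
  | [], h, _ => simp [polyOK] at h
  | [_], h, _ => simp [polyOK] at h
  | [_, _], h, _ => simp [polyOK] at h
  | a :: b :: c :: l, h, hz =>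
    rw [polyOK] at h
    have hz' : ∀ e ∈ (a :: b :: c :: l).zip ((b :: c :: l) ++ [a]), 0 ≤ cr e.1 e.2 z := by
      intro e he
      apply hz e
      rw [edges, List.rotate_cons_succ, List.rotate_zero]
      exact he
    refine fan_sound (c :: l) b (fun e he => hz' e ?_) h (hz' (a, b) (by simp))
      (Or.inl (List.cons_ne_nil _ _))
    rw [List.cons_append, List.zip_cons_cons]
    exact List.mem_cons_of_mem _ he

end Pool.Agent.Work.MP_b30479_gtS.G2.SQ

end
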