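import Mathlib
import Pool.Agent.Work.MP_b30479_gt.TBS.G2.WordsD
import Pool.Agent.Work.MP_b30479_gt.TBS.G2.S2Poly
import Pool.Agent.Work.MP_b30479_gt.TBS.G2.RDw
import Pool.Agent.Work.MP_b30479_gt.TBS.G2.SKer

section

/-!
# Splitting of a hinge between two rings of equal sign, and the ring relations

`j = ± i` is `i` times the sign of the digit.  A ring with `b` crossings, tangent `τ = tan π ζ`
(`q = 1 + τ²`) and hinge cotangents `R`, `R'` satisfies `RE j b R R' τ`.  A hinge `R` between rings
of equal sign with tangents `τ`, `τ'` (`R² = 1 + τ² + τ'²`) is replaced by the two hinges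
`Rs j R τ`, `Rs j R τ'` of a digit `-1` in between; `b` drops by one on both sides.
-/

namespace Pool.Agent.Work.MP_b30479_gtS.G2

/-- the ring relation (exponentiated ring equation), interior ring -/
def RE (j : ℂ) (b : ℕ) (R R' τ : ℂ) : Prop :=
  (R + τ) * (R' + τ) * (1 - j * τ) ^ b = (R - τ) * (R' - τ) * (1 + j * τ) ^ b

/-- the ring relation, end ring -/
def RE1 (j : ℂ) (b : ℕ) (R τ : ℂ) : Prop :=
  (R + τ) * (1 - j * τ) ^ b = (R - τ) * (1 + j * τ) ^ b

/-- the hinge next to the ring with tangent `τ` after the splitting -/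
noncomputable def Rs (j R τ : ℂ) : ℂ := (j * R + τ ^ 2) / (R + j)

variable {j R R' τ τ' q q' : ℂ} {b : ℕ}

theorem RE.symm (h : RE j b R R' τ) : RE j b R' R τ := by
  unfold RE at h ⊢
  linear_combination h

/-! ### the split hinge -/

theorem Rs_add (hj : j * j = -1) (h : R + j ≠ 0) :
    Rs j R τ + τ = (R + τ) * (1 - j * τ) * (j / (R + j)) := by
  unfold Rs
  field_simp
  linear_combination ((R + τ) * τ) * hj

theorem Rs_sub (hj : j * j = -1) (h : R + j ≠ 0) :
    Rs j R τ - τ = (R - τ) * (1 + j * τ) * (j / (R + j)) := by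
  unfold Rs
  field_simp
  linear_combination (-(R - τ) * τ) * hj

/-- `(R₁ - j) (R + j) = q` -/
theorem Rs_sub_j (hj : j * j = -1) (h : R + j ≠ 0) : (Rs j R τ - j) * (R + j) = 1 + τ ^ 2 := by
  unfold Rs
  field_simp
  linear_combination -hj

/-- `R₁ + R₂ = R + j` -/
theorem Rs_add_Rs (hj : j * j = -1) (h : R + j ≠ 0) (hR : R ^ 2 = 1 + τ ^ 2 + τ' ^ 2) :
    Rs j R τ + Rs j R τ' = R + j := by
  unfold Rs
  field_simp
  linear_combination -hR - hj

/-- the value of the digit `-1` in the middle: `q₁ = -(R₁ - j)(R₂ - j) = -q q' / (R + j)²` -/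
theorem Rs_mid (hj : j * j = -1) (h : R + j ≠ 0) :
    -((Rs j R τ - j) * (Rs j R τ' - j)) = -((1 + τ ^ 2) * (1 + τ' ^ 2)) / (R + j) ^ 2 := by
  have h1 := Rs_sub_j (τ := τ) hj h
  have h2 := Rs_sub_j (τ := τ') hj h
  have h3 : (R + j) ^ 2 ≠ 0 := pow_ne_zero 2 h
  rw [eq_div_iff h3, ← h1, ← h2]
  ring

/-- the hinge equation after the splitting -/
theorem Rs_hinge (hj : j * j = -1) (h : R + j ≠ 0) (hR : R ^ 2 = 1 + τ ^ 2 + τ' ^ 2) :
    1 + Rs j R τ ^ 2 = (1 + τ ^ 2) + -((Rs j R τ - j) * (Rs j R τ' - j)) := by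
  have h1 := Rs_sub_j (τ := τ) hj h
  have h2 := Rs_add_Rs hj h hR
  have h3 : Rs j R τ' = R + j - Rs j R τ := by linear_combination h2
  rw [h3]
  linear_combination h1 + hj

/-- the ring next to a split hinge -/
theorem RE_split (hj : j * j = -1) (h : R + j ≠ 0) (hr : RE j (b + 1) R R' τ) :
    RE j b (Rs j R τ) R' τ := by
  unfold RE at hr ⊢
  rw [Rs_add hj h, Rs_sub hj h]
  rw [pow_succ, pow_succ] at hr
  linear_combination (j / (R + j)) * hr

theorem RE_split' (hj : j * j = -1) (h : R' + j ≠ 0) (hr : RE j (b + 1) R R' τ) :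
    RE j b R (Rs j R' τ) τ := (RE_split hj h hr.symm).symm

theorem RE1_split (hj : j * j = -1) (h : R + j ≠ 0) (hr : RE1 j (b + 1) R τ) :
    RE1 j b (Rs j R τ) τ := by
  unfold RE1 at hr ⊢
  rw [Rs_add hj h, Rs_sub hj h]
  rw [pow_succ, pow_succ] at hr
  linear_combination (j / (R + j)) * hr

/-! ### small digits -/

theorem RE_one (hj : j * j = -1) (hτ : τ ≠ 0) (hr : RE j 1 R R' τ) :
    1 + τ ^ 2 = -((R + j) * (R' + j)) := by
  unfold RE at hr
  have e : 2 * τ * (R + R' - j * (R * R') - j * τ ^ 2) = 0 := by linear_combination hr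
  have h2 := (mul_eq_zero.mp e).resolve_left (mul_ne_zero two_ne_zero hτ)
  linear_combination j * h2 + (R * R' + τ ^ 2 + 1) * hj

theorem RE_two (hj : j * j = -1) (hτ : τ ≠ 0) (hr : RE j 2 R R' τ) :
    (1 + τ ^ 2) * (R + R' + 2 * j) = -2 * j * ((R + j) * (R' + j)) := by
  unfold RE at hr
  have e : 2 * τ * (R + R' - 2 * j * (R * R') + τ ^ 2 * ((R + R') * j * j - 2 * j)) = 0 := by
    linear_combination hr
  have h2 := (mul_eq_zero.mp e).resolve_left (mul_ne_zero two_ne_zero hτ)
  linear_combination -h2 + ((R + R') * (τ ^ 2 + 2) + 2 * j) * hj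

theorem RE1_two (hj : j * j = -1) (hτ : τ ≠ 0) (hr : RE1 j 2 R τ) :
    1 + τ ^ 2 = -2 * j * (R + j) := by
  unfold RE1 at hr
  have e : 2 * τ * (1 - 2 * j * R + τ ^ 2 * (j * j)) = 0 := by linear_combination hr
  have h2 := (mul_eq_zero.mp e).resolve_left (mul_ne_zero two_ne_zero hτ)
  linear_combination -h2 + (τ ^ 2 + 2) * hj

/-- a ring with three crossings: `Rs j R τ` is the cotangent of the inner variable -/
theorem RE_three (hj : j * j = -1) (h : R + j ≠ 0) (hτ : τ ≠ 0) (hr : RE j 3 R R' τ) :
    (Rs j R τ - j) * (R + j) = 1 + τ ^ 2 ∧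
      (1 + τ ^ 2) * (Rs j R τ + R' + 2 * j) = -2 * j * ((Rs j R τ + j) * (R' + j)) :=
  ⟨Rs_sub_j hj h, RE_two hj hτ (RE_split hj h hr)⟩

theorem RE1_three (hj : j * j = -1) (h : R + j ≠ 0) (hτ : τ ≠ 0) (hr : RE1 j 3 R τ) :
    (Rs j R τ - j) * (R + j) = 1 + τ ^ 2 ∧ 1 + τ ^ 2 = -2 * j * (Rs j R τ + j) :=
  ⟨Rs_sub_j hj h, RE1_two hj hτ (RE1_split hj h hr)⟩

end Pool.Agent.Work.MP_b30479_gtS.G2

end

section

/-!
# Words of the class: the digits `±1` which are absorbed by their neighbours

`us b n`: the digit number `n` is `±1` and is absorbed (every second digit of a string of `±1`,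
starting from the left); `BB b n`: the number of crossings of the ring `n`; `rn b n`, `ln b n`: the
next ring to the right and to the left.
-/

namespace Pool.Agent.Work.MP_b30479_gtS.G2.SR

open Complex Set Filter Topology
open scoped ComplexConjugate

/-- relation to a neighbour: there is none, opposite sign, equal sign -/
inductive Rel
  | e | a | s
  deriving DecidableEq

section
variable {M : ℕ} (b : Fin (M + 1) → ℤ)

/-- the digits as a function on the natural numbers -/
def bb (n : ℕ) : ℤ := if h : n < M + 1 then b ⟨n, h⟩ else 0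

/-- absorbed digits -/
def us : ℕ → Bool
  | 0 => false
  | n + 1 => decide ((bb b (n + 1)).natAbs = 1) && !(us n)

/-- the number of crossings of the ring -/
def BB (n : ℕ) : ℕ := (bb b n).natAbs + (us b (n - 1)).toNat + (us b (n + 1)).toNat

/-- the next ring to the right -/
def rn (n : ℕ) : ℕ := if us b (n + 1) then n + 2 else n + 1

/-- the next ring to the left -/
def ln (n : ℕ) : ℕ := if us b (n - 1) then n - 2 else n - 1

/-- the sign -/
noncomputable def sg (n : ℕ) : ℝ := if 0 < bb b n then 1 else -1

/-- relation to the ring on the right -/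
def rr (n : ℕ) : Rel :=
  if M ≤ n then .e else if 0 < bb b n * bb b (rn b n) then .s else .a

/-- relation to the ring on the left -/
def lr (n : ℕ) : Rel :=
  if n = 0 then .e else if 0 < bb b n * bb b (ln b n) then .s else .a

/-- possible types of rings -/
def RAdm (B : ℕ) (l r : Rel) : Prop :=
  2 ≤ B ∧ ¬(l = .e ∧ r = .e) ∧
    (B = 2 → ¬(l = .s ∧ r = .s) ∧ ¬(l = .s ∧ r = .e) ∧ ¬(l = .e ∧ r = .s))

end

section
variable {M : ℕ} {b : Fin (M + 1) → ℤ}

lemma sg_or (n : ℕ) : sg b n = 1 ∨ sg b n = -1 := by
  unfold sg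
  split_ifs
  · exact Or.inl rfl
  · exact Or.inr rfl

lemma bb_lt {n : ℕ} (h : n < M + 1) : bb b n = b ⟨n, h⟩ := by simp [bb, h]

lemma bb_ge {n : ℕ} (h : M < n) : bb b n = 0 := by
  unfold bb
  rw [dif_neg (by omega)]

lemma us_succ (n : ℕ) : us b (n + 1) = (decide ((bb b (n + 1)).natAbs = 1) && !(us b n)) := rfl

lemma us_true {n : ℕ} (h : us b n = true) : 1 ≤ n ∧ (bb b n).natAbs = 1 ∧ us b (n - 1) = false ∧
    us b (n + 1) = false := by
  cases n with
  | zero => simp [us] at h
  | succ n =>
    rw [us_succ, Bool.and_eq_true, decide_eq_true_eq, Bool.not_eq_true'] at h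
    refine ⟨by omega, h.1, by simpa using h.2, ?_⟩
    rw [us_succ, us_succ, decide_eq_true h.1, h.2]
    simp

variable (hb : ClassW b)
include hb

lemma bb_zero : 2 ≤ (bb b 0).natAbs := by
  rw [bb_lt (by omega : 0 < M + 1)]
  exact hb.first

lemma bb_last : 2 ≤ (bb b M).natAbs := by
  rw [bb_lt (by omega : M < M + 1)]
  exact hb.last

lemma bb_ne {n : ℕ} (h : n ≤ M) : bb b n ≠ 0 := by
  rw [bb_lt (by omega : n < M + 1)]
  exact hb.ne _

lemma us_lt {n : ℕ} (h : us b n = true) : 1 ≤ n ∧ n < M := by
  have h1 := us_true h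
  refine ⟨h1.1, ?_⟩
  by_contra hc
  rcases (not_lt.1 hc).eq_or_lt with h2 | h2
  · have h3 := bb_last hb
    have h4 := h1.2.1
    rw [← h2] at h4
    omega
  · rw [bb_ge h2] at h1
    simp at h1

lemma us_of_ge {n : ℕ} (h : M ≤ n) : us b n = false := by
  by_contra hc
  rw [Bool.not_eq_false] at hc
  have := us_lt hb hc
  omega

lemma bb_same {n : ℕ} (h : n < M) (hs : 0 < bb b n * bb b (n + 1)) :
    4 ≤ (bb b n).natAbs ∧ 4 ≤ (bb b (n + 1)).natAbs := by
  have h1 := hb.same ⟨n, h⟩
  rw [bb_lt (by omega : n < M + 1), bb_lt (by omega : n + 1 < M + 1)] at hs ⊢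
  exact h1 hs

lemma bb_opp {n : ℕ} (h : n < M) (h1 : (bb b n).natAbs < 4 ∨ (bb b (n + 1)).natAbs < 4) :
    bb b n * bb b (n + 1) < 0 := by
  have h2 := mul_ne_zero (bb_ne hb h.le) (bb_ne hb (by omega : n + 1 ≤ M))
  by_contra hc
  have h3 : 0 < bb b n * bb b (n + 1) := by omega
  have := bb_same hb h h3
  omega

/-- the ring on the right -/
lemma rn_spec {n : ℕ} (hn : n < M) (hu : us b n = false) :
    n < rn b n ∧ rn b n ≤ M ∧ us b (rn b n) = false ∧ ln b (rn b n) = n := by
  unfold rn
  split_ifs with h
  · have h1 := us_lt hb h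
    have h2 := us_true h
    refine ⟨by omega, by omega, h2.2.2.2, ?_⟩
    unfold ln
    rw [show n + 2 - 1 = n + 1 by omega, h]
    simp
  · rw [Bool.not_eq_true] at h
    refine ⟨by omega, by omega, h, ?_⟩
    unfold ln
    rw [show n + 1 - 1 = n by omega, hu]
    simp

/-- the ring on the left -/
lemma ln_spec {n : ℕ} (hn : 0 < n) (hu : us b n = false) :
    ln b n < n ∧ us b (ln b n) = false ∧ rn b (ln b n) = n := by
  unfold ln
  split_ifs with h
  · have h1 := us_lt hb h
    have h2 := us_true h
    refine ⟨by omega, ?_, ?_⟩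
    · have := h2.2.2.1
      rwa [show n - 1 - 1 = n - 2 by omega] at this
    · unfold rn
      rw [show n - 2 + 1 = n - 1 by omega, h, if_pos rfl]
      omega
  · rw [Bool.not_eq_true] at h
    refine ⟨by omega, h, ?_⟩
    unfold rn
    rw [show n - 1 + 1 = n by omega, hu, if_neg (by decide)]

/-- equal sign across an absorbed digit -/
lemma sign_across {n : ℕ} (h : us b (n + 1) = true) : 0 < bb b n * bb b (n + 2) := by
  have h1 := us_lt hb h
  have h2 := (us_true h).2.1
  have h3 := bb_opp hb (n := n) (by omega) (Or.inr (by omega))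
  have h4 := bb_opp hb (n := n + 1) (by omega) (Or.inl (by omega))
  have h5 : 0 < (bb b n * bb b (n + 1)) * (bb b (n + 1) * bb b (n + 1 + 1)) :=
    mul_pos_of_neg_of_neg h3 h4
  have h6 : 0 < bb b (n + 1) * bb b (n + 1) :=
    mul_self_pos.2 (bb_ne hb (by omega : n + 1 ≤ M))
  have h7 : (bb b n * bb b (n + 1)) * (bb b (n + 1) * bb b (n + 1 + 1)) =
      (bb b (n + 1) * bb b (n + 1)) * (bb b n * bb b (n + 2)) := by ring
  rw [h7] at h5
  exact (mul_pos_iff_of_pos_left h6).1 h5

/-- the number of crossings of a ring -/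
lemma BB_ge {n : ℕ} (hn : n ≤ M) (hu : us b n = false) : 2 ≤ BB b n := by
  have h0 : (bb b n).natAbs ≠ 0 := Int.natAbs_ne_zero.2 (bb_ne hb hn)
  by_cases h1 : (bb b n).natAbs = 1
  · have hn0 : n ≠ 0 := by
      rintro rfl
      have := bb_zero hb
      omega
    obtain ⟨m, rfl⟩ := Nat.exists_eq_succ_of_ne_zero hn0
    have h2 : us b m = true := by
      by_contra hc
      rw [Bool.not_eq_true] at hc
      have := us_succ (b := b) m
      rw [decide_eq_true (by exact h1), hc] at this
      simp only [Nat.succ_eq_add_one] at hu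
      rw [hu] at this
      simp at this
    unfold BB
    rw [show m.succ - 1 = m by omega, h2, h1]
    simp
  · unfold BB
    omega

/-- a ring with an absorbed digit on the right has at least three crossings unless ... -/
lemma BB_ge_right {n : ℕ} (hn : n ≤ M) (hu : us b n = false) (h : us b (n + 1) = true) :
    3 ≤ BB b n := by
  have h0 : (bb b n).natAbs ≠ 0 := Int.natAbs_ne_zero.2 (bb_ne hb hn)
  by_cases h1 : (bb b n).natAbs = 1
  · have hn0 : n ≠ 0 := by
      rintro rfl
      have := bb_zero hb
      omega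
    obtain ⟨m, rfl⟩ := Nat.exists_eq_succ_of_ne_zero hn0
    have h2 : us b m = true := by
      by_contra hc
      rw [Bool.not_eq_true] at hc
      have := us_succ (b := b) m
      rw [decide_eq_true (by exact h1), hc] at this
      simp only [Nat.succ_eq_add_one] at hu
      rw [hu] at this
      simp at this
    unfold BB
    rw [show m.succ - 1 = m by omega, h2, h1, h]
    simp
  · unfold BB
    rw [h]
    simp
    omega

/-- two neighbouring rings of equal sign do not both have two crossings -/
lemma BB_same {n : ℕ} (hn : n < M) (hu : us b n = false) (h : 0 < bb b n * bb b (rn b n)) :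
    3 ≤ BB b n := by
  by_cases h1 : us b (n + 1) = true
  · exact BB_ge_right hb hn.le hu h1
  · rw [Bool.not_eq_true] at h1
    have h2 : rn b n = n + 1 := by
      unfold rn
      rw [h1]
      simp
    rw [h2] at h
    have := bb_same hb hn h
    unfold BB
    omega

end

end Pool.Agent.Work.MP_b30479_gtS.G2.SR

end

section

/-!
# Existence of the ring values of a word
-/

namespace Pool.Agent.Work.MP_b30479_gtS.G2

open Complex Set Filter Topology
open scoped ComplexConjugate

lemma Ring1.mono {b : ℝ} {K U P P' : Set ℂ} {r : ℝ} (h : Ring1 b K U P r) (hP : P' ⊆ P) :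
    Ring1 b K U P' r := fun k hk => h k (hP hk)

lemma Ring2.mono {b : ℝ} {K U P P' R R' : Set ℂ} {r : ℝ} (h : Ring2 b K U P R r) (hP : P' ⊆ P)
    (hR : R' ⊆ R) : Ring2 b K U P' R' r := fun k hk k' hk' => h k (hP hk) k' (hR hk')

lemma frS_mono {s : ℝ} {K K' : Set ℂ} (h : K ⊆ K') : frS s K ⊆ frS s K' := by
  unfold frS
  split_ifs
  · exact h
  · exact fun z hz => h hz

/-- types with a neighbour of equal sign -/
def RT.hasS : RT → Bool
  | .t2as | .t3as | .t3ss | .t3se | .t4 | .t5 | .t6 | .t7 | .t8 => true
  | _ => false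

/-- types with a neighbour of equal sign and at least three crossings -/
def RT.hasT : RT → Bool
  | .t3as | .t3ss | .t3se | .t4 | .t5 | .t6 | .t7 | .t8 => true
  | _ => false

/-- the facts about single rings -/
structure RingFacts : Prop where
  closed : ∀ t, IsClosed (Poly (vt t))
  re_pos : ∀ t, ∀ z ∈ Poly (vt t), 0 < z.re
  isOpen : ∀ t, IsOpen (PolyU (vt t))
  sub : ∀ t, PolyU (vt t) ⊆ Poly (vt t)
  starA : ∀ t, Star1 (Poly (vt t)) ⊆ Poly pA
  starS : ∀ t, RT.hasS t = true → Star1 (Poly (vt t)) ⊆ Poly pS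
  starT : ∀ t, RT.hasT t = true → Star1 (Poly (vt t)) ⊆ Poly pT
  end_a : ∀ B : ℕ, 2 ≤ B → Ring1 B (Poly (vt (rtype B 1 0))) (PolyU (vt (rtype B 1 0)))
    (frS (-1) (Poly pA)) r0
  end_s : ∀ B : ℕ, 3 ≤ B → Ring1 B (Poly (vt (rtype B 0 1))) (PolyU (vt (rtype B 0 1)))
    (Poly pS) r0
  aa : ∀ B : ℕ, 2 ≤ B → Ring2 B (Poly (vt (rtype B 2 0))) (PolyU (vt (rtype B 2 0)))
    (frS (-1) (Poly pA)) (frS (-1) (Poly pA)) r0
  as2 : Ring2 2 (Poly (vt (rtype 2 1 1))) (PolyU (vt (rtype 2 1 1)))
    (frS (-1) (Poly pA)) (Poly pT) r0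
  as3 : ∀ B : ℕ, 3 ≤ B → Ring2 B (Poly (vt (rtype B 1 1))) (PolyU (vt (rtype B 1 1)))
    (frS (-1) (Poly pA)) (Poly pS) r0
  ss : ∀ B : ℕ, 3 ≤ B → Ring2 B (Poly (vt (rtype B 0 2))) (PolyU (vt (rtype B 0 2)))
    (Poly pS) (Poly pS) r0
  start1 : ∀ B na ns : ℕ, 2 ≤ B → na + ns = 1 → (B = 2 → ns = 0) →
    ∃ w : ℂ, 0 ≤ w.re ∧ w.re ≤ 3 / 2 ∧ |w.im| ≤ 2 ∧ Complex.cos w ∈ Poly (vt (rtype B na ns)) ∧
      r0 ≤ (RR w 1).re ∧ ((B : ℝ) : ℂ) * w - Real.pi + I * QQ w 1 = 0
  start2 : ∀ B na ns : ℕ, 2 ≤ B → na + ns = 2 → (B = 2 → ns ≤ 1) →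
    ∃ w : ℂ, 0 ≤ w.re ∧ w.re ≤ 3 / 2 ∧ |w.im| ≤ 2 ∧ Complex.cos w ∈ Poly (vt (rtype B na ns)) ∧
      r0 ≤ (RR w 1).re ∧ ((B : ℝ) : ℂ) * w - Real.pi + I * (2 * QQ w 1) = 0

namespace SR

variable {M : ℕ} (b : Fin (M + 1) → ℤ)

/-- number of neighbours of opposite sign -/
def na (n : ℕ) : ℕ := (if lr b n = .a then 1 else 0) + if rr b n = .a then 1 else 0

/-- number of neighbours of equal sign -/
def ns (n : ℕ) : ℕ := (if lr b n = .s then 1 else 0) + if rr b n = .s then 1 else 0

/-- the type of the ring `n` -/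
def ty (n : ℕ) : RT := rtype (BB b n) (na b n) (ns b n)

variable {b}

lemma rtype_hasS {B na ns : ℕ} (h : 1 ≤ ns) (h2 : na + ns ≤ 2) (h3 : B ≤ 2 → ns = 1 ∧ na = 1) :
    RT.hasS (rtype B na ns) = true := by
  unfold rtype
  by_cases h4 : B ≤ 2
  · obtain ⟨h5, h6⟩ := h3 h4
    subst h5 h6
    rw [if_pos h4]
    rfl
  · rw [if_neg h4]
    by_cases h5 : B = 3
    · rw [if_pos h5]
      have h6 : na ≠ 2 := by omega
      rw [if_neg h6]
      by_cases h7 : na = 1
      · have h8 : ns = 1 := by omega
        rw [if_pos h7, if_pos h8]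
        rfl
      · rw [if_neg h7]
        split_ifs <;> rfl
    · rw [if_neg h5]
      split_ifs <;> rfl

lemma rtype_hasT {B na ns : ℕ} (h : 1 ≤ ns) (h2 : na + ns ≤ 2) (h3 : 3 ≤ B) :
    RT.hasT (rtype B na ns) = true := by
  unfold rtype
  rw [if_neg (by omega)]
  by_cases h5 : B = 3
  · rw [if_pos h5]
    have h6 : na ≠ 2 := by omega
    rw [if_neg h6]
    by_cases h7 : na = 1
    · have h8 : ns = 1 := by omega
      rw [if_pos h7, if_pos h8]
      rfl
    · rw [if_neg h7]
      split_ifs <;> rfl
  · rw [if_neg h5]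
    split_ifs <;> rfl

variable (hb : ClassW b) (hM : 1 ≤ M)
include hb

omit hb in
lemma rr_eq {n : ℕ} (h : n < M) : rr b n = if 0 < bb b n * bb b (rn b n) then .s else .a := by
  unfold rr
  rw [if_neg (by omega)]

omit hb in
lemma lr_eq {n : ℕ} (h : 0 < n) : lr b n = if 0 < bb b n * bb b (ln b n) then .s else .a := by
  unfold lr
  rw [if_neg (by omega)]

lemma lr_rn {n : ℕ} (h : n < M) (hu : us b n = false) : lr b (rn b n) = rr b n := by
  have h1 := rn_spec hb h hu
  rw [rr_eq h, lr_eq (by omega : 0 < rn b n), h1.2.2.2, mul_comm]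

lemma rr_ln {n : ℕ} (h : 0 < n) (h' : n ≤ M) (hu : us b n = false) : rr b (ln b n) = lr b n := by
  have h1 := ln_spec hb h hu
  rw [lr_eq h, rr_eq (by omega : ln b n < M), h1.2.2, mul_comm]

lemma BB_of_rr {n : ℕ} (hu : us b n = false) (h : rr b n = .s) : 3 ≤ BB b n := by
  have hn : n < M := by
    by_contra hc
    unfold rr at h
    rw [if_pos (by omega)] at h
    exact absurd h (by decide)
  rw [rr_eq hn] at h
  by_cases h2 : 0 < bb b n * bb b (rn b n)
  · exact BB_same hb hn hu h2
  · rw [if_neg h2] at h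
    exact absurd h (by decide)

lemma BB_last (h : lr b M = .s) : 3 ≤ BB b M := by
  have hM0 : 0 < M := by
    by_contra hc
    unfold lr at h
    rw [if_pos (by omega)] at h
    exact absurd h (by decide)
  have h1 : 0 < bb b M * bb b (ln b M) := by
    by_contra hc
    rw [lr_eq hM0, if_neg hc] at h
    exact absurd h (by decide)
  have h2 := bb_last hb
  by_cases h3 : us b (M - 1) = true
  · unfold BB
    rw [h3]
    simp
    omega
  · have h4 : ln b M = M - 1 := by
      unfold ln
      rw [if_neg h3]
    rw [h4, mul_comm] at h1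
    have := bb_same hb (n := M - 1) (by omega) (by rwa [show M - 1 + 1 = M by omega])
    rw [show M - 1 + 1 = M by omega] at this
    unfold BB
    omega

omit hb in
lemma rr_ne_e {n : ℕ} (h : n < M) : rr b n ≠ .e := by
  rw [rr_eq h]
  split_ifs <;> decide

omit hb in
lemma lr_ne_e {n : ℕ} (h : 0 < n) : lr b n ≠ .e := by
  rw [lr_eq h]
  split_ifs <;> decide

omit hb in
lemma rr_last : rr b M = .e := by
  unfold rr
  rw [if_pos le_rfl]

omit hb in
lemma lr_zero : lr b 0 = .e := by
  unfold lr
  rw [if_pos rfl]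

omit hb in
lemma na_add_ns (n : ℕ) : na b n + ns b n ≤ 2 := by
  unfold na ns
  cases lr b n <;> cases rr b n <;> decide

lemma BB_two {n : ℕ} (hn : n ≤ M) (hu : us b n = false) (h : BB b n ≤ 2) (hs : 1 ≤ ns b n) :
    ns b n = 1 ∧ na b n = 1 := by
  have h1 : rr b n ≠ .s := fun h1 => by
    have := BB_of_rr hb hu h1
    omega
  have h2 : lr b n = .s := by
    by_contra hc
    unfold ns at hs
    rw [if_neg hc, if_neg h1] at hs
    omega
  have h3 : rr b n ≠ .e := fun h3 => by
    have h4 : n = M := by
      by_contra hc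
      exact rr_ne_e (by omega) h3
    rw [h4] at h2 h
    have := BB_last hb h2
    omega
  have h4 : rr b n = .a := by
    cases h5 : rr b n
    · exact absurd h5 h3
    · rfl
    · exact absurd h5 h1
  unfold ns na
  rw [h2, h4]
  decide

/-- a neighbour to the right seen through an equal sign -/
lemma port_right (F : RingFacts) {n : ℕ} (hn : n < M) (hu : us b n = false) :
    frS (sg b n * sg b (rn b n)) (Star1 (Poly (vt (ty b (rn b n))))) ⊆
      (if rr b n = .s then Poly pS else frS (-1) (Poly pA)) := by
  have h1 := rn_spec hb hn hu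
  have h0 := bb_ne hb hn.le
  have h0' := bb_ne hb h1.2.1
  by_cases h2 : 0 < bb b n * bb b (rn b n)
  · have h3 : rr b n = .s := by rw [rr_eq hn, if_pos h2]
    rw [if_pos h3]
    have h4 : sg b n * sg b (rn b n) = 1 := by
      unfold sg
      rcases lt_or_gt_of_ne h0 with h5 | h5
      · have h6 : bb b (rn b n) < 0 := by nlinarith
        rw [if_neg (by omega), if_neg (by omega)]
        norm_num
      · have h6 : 0 < bb b (rn b n) := (mul_pos_iff_of_pos_left h5).1 h2
        rw [if_pos h5, if_pos h6]
        norm_num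
    rw [h4, frS_one]
    refine F.starS _ (rtype_hasS ?_ (na_add_ns _) fun h5 => ?_)
    · unfold ns
      rw [lr_rn hb hn hu, h3]
      simp
    · refine BB_two hb h1.2.1 h1.2.2.1 h5 ?_
      unfold ns
      rw [lr_rn hb hn hu, h3]
      simp
  · have h3 : rr b n ≠ .s := by
      rw [rr_eq hn, if_neg h2]
      decide
    rw [if_neg h3]
    have h7 : bb b n * bb b (rn b n) < 0 := by
      have := mul_ne_zero h0 h0'
      omega
    have h4 : sg b n * sg b (rn b n) = -1 := by
      unfold sg
      rcases lt_or_gt_of_ne h0 with h5 | h5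
      · have h6 : 0 < bb b (rn b n) := by
          by_contra hc
          have : bb b (rn b n) < 0 := by omega
          have := mul_pos_of_neg_of_neg h5 this
          omega
        rw [if_neg (by omega), if_pos h6]
        norm_num
      · have h6 : bb b (rn b n) < 0 := by
          by_contra hc
          have : 0 < bb b (rn b n) := by omega
          have := mul_pos h5 this
          omega
        rw [if_pos h5, if_neg (by omega)]
        norm_num
    rw [h4]
    exact frS_mono (F.starA _)

/-- a neighbour to the left -/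
lemma port_left (F : RingFacts) {n : ℕ} (hn : 0 < n) (hn' : n ≤ M) (hu : us b n = false) :
    frS (sg b n * sg b (ln b n)) (Star1 (Poly (vt (ty b (ln b n))))) ⊆
      (if lr b n = .s then Poly pT else frS (-1) (Poly pA)) := by
  have h1 := ln_spec hb hn hu
  have h0 := bb_ne hb hn'
  have h0' := bb_ne hb (by omega : ln b n ≤ M)
  by_cases h2 : 0 < bb b n * bb b (ln b n)
  · have h3 : lr b n = .s := by rw [lr_eq hn, if_pos h2]
    rw [if_pos h3]
    have h4 : sg b n * sg b (ln b n) = 1 := by
      unfold sg
      rcases lt_or_gt_of_ne h0 with h5 | h5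
      · have h6 : bb b (ln b n) < 0 := by nlinarith
        rw [if_neg (by omega), if_neg (by omega)]
        norm_num
      · have h6 : 0 < bb b (ln b n) := (mul_pos_iff_of_pos_left h5).1 h2
        rw [if_pos h5, if_pos h6]
        norm_num
    rw [h4, frS_one]
    have h8 : rr b (ln b n) = .s := by rw [rr_ln hb hn hn' hu, h3]
    refine F.starT _ (rtype_hasT ?_ (na_add_ns _) (BB_of_rr hb h1.2.1 h8))
    unfold ns
    rw [h8]
    simp
  · have h3 : lr b n ≠ .s := by
      rw [lr_eq hn, if_neg h2]
      decide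
    rw [if_neg h3]
    have h7 : bb b n * bb b (ln b n) < 0 := by
      have := mul_ne_zero h0 h0'
      omega
    have h4 : sg b n * sg b (ln b n) = -1 := by
      unfold sg
      rcases lt_or_gt_of_ne h0 with h5 | h5
      · have h6 : 0 < bb b (ln b n) := by
          by_contra hc
          have : bb b (ln b n) < 0 := by omega
          have := mul_pos_of_neg_of_neg h5 this
          omega
        rw [if_neg (by omega), if_pos h6]
        norm_num
      · have h6 : bb b (ln b n) < 0 := by
          by_contra hc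
          have : 0 < bb b (ln b n) := by omega
          have := mul_pos h5 this
          omega
        rw [if_pos h5, if_neg (by omega)]
        norm_num
    rw [h4]
    exact frS_mono (F.starA _)

/-- the same with the larger port set -/
lemma port_left' (F : RingFacts) {n : ℕ} (hn : 0 < n) (hn' : n ≤ M) (hu : us b n = false) :
    frS (sg b n * sg b (ln b n)) (Star1 (Poly (vt (ty b (ln b n))))) ⊆
      (if lr b n = .s then Poly pS else frS (-1) (Poly pA)) := by
  have h1 := ln_spec hb hn hu
  by_cases h3 : lr b n = .s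
  · rw [if_pos h3]
    have h2 : 0 < bb b n * bb b (ln b n) := by
      by_contra hc
      rw [lr_eq hn, if_neg hc] at h3
      exact absurd h3 (by decide)
    have h0 := bb_ne hb hn'
    have h4 : sg b n * sg b (ln b n) = 1 := by
      unfold sg
      rcases lt_or_gt_of_ne h0 with h5 | h5
      · have h6 : bb b (ln b n) < 0 := by nlinarith
        rw [if_neg (by omega), if_neg (by omega)]
        norm_num
      · have h6 : 0 < bb b (ln b n) := (mul_pos_iff_of_pos_left h5).1 h2
        rw [if_pos h5, if_pos h6]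
        norm_num
    rw [h4, frS_one]
    have h8 : rr b (ln b n) = .s := by rw [rr_ln hb hn hn' hu, h3]
    refine F.starS _ (rtype_hasS ?_ (na_add_ns _) fun h5 => ?_)
    · unfold ns
      rw [h8]
      simp
    · have := BB_of_rr hb h1.2.1 h8
      omega
  · have := port_left hb F hn hn' hu
    rw [if_neg h3] at this ⊢
    exact this

/-- the ring equations and the location of the ring values of a word -/
structure Sol (b : Fin (M + 1) → ℤ) (w : ℕ → ℂ) : Prop where
  re0 : ∀ n ≤ M, us b n = false → 0 < (w n).re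
  re1 : ∀ n ≤ M, us b n = false → (w n).re < 3 / 2
  im : ∀ n ≤ M, us b n = false → |(w n).im| < 2
  mem : ∀ n ≤ M, us b n = false → Complex.cos (w n) ∈ frS (sg b n) (PolyU (vt (ty b n)))
  hingeR : ∀ n < M, us b n = false → r0 < (RR (w n) (Complex.cos (w (rn b n)))).re
  hingeL : ∀ n < M, us b n = false → r0 < (RR (w (rn b n)) (Complex.cos (w n))).re
  first : (BB b 0 : ℂ) * w 0 - Real.pi + I * sg b 0 * QQ (w 0) (Complex.cos (w (rn b 0))) = 0
  last : (BB b M : ℂ) * w M - Real.pi + I * sg b M * QQ (w M) (Complex.cos (w (ln b M))) = 0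
  inner : ∀ n, 0 < n → n < M → us b n = false → (BB b n : ℂ) * w n - Real.pi +
    I * sg b n * (QQ (w n) (Complex.cos (w (ln b n))) + QQ (w n) (Complex.cos (w (rn b n)))) = 0

/-- The ring system of a word of the class has a solution with known location. -/
theorem exists_sol (F : RingFacts) (hM : 1 ≤ M) : ∃ w : ℕ → ℂ, Sol b w := by
  classical
  let ι := {i : Fin (M + 1) // us b i.val = false}
  let mk : (n : ℕ) → (h : n ≤ M) → us b n = false → ι := fun n h hu => ⟨⟨n, by omega⟩, hu⟩
  let nb : ι → Finset ι := fun i => Finset.univ.filter fun j =>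
    (i.1.val < M ∧ j.1.val = rn b i.1.val) ∨ (0 < i.1.val ∧ j.1.val = ln b i.1.val)
  have hle : ∀ i : ι, i.1.val ≤ M := fun i => by have := i.1.2; omega
  have hrn : ∀ i : ι, i.1.val < M → i.1.val < rn b i.1.val := fun i h => (rn_spec hb h i.2).1
  have hln : ∀ i : ι, 0 < i.1.val → ln b i.1.val < i.1.val := fun i h => (ln_spec hb h i.2).1
  have hmem : ∀ i j : ι, j ∈ nb i ↔ ((i.1.val < M ∧ j.1.val = rn b i.1.val) ∨
      (0 < i.1.val ∧ j.1.val = ln b i.1.val)) := fun i j => by
    simp only [nb, Finset.mem_filter, Finset.mem_univ, true_and]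
  have hnb : ∀ i, i ∉ nb i := by
    intro i h
    rcases (hmem i i).1 h with ⟨h1, h2⟩ | ⟨h1, h2⟩
    · have := hrn i h1
      omega
    · have := hln i h1
      omega
  have hext : ∀ {i j : ι}, i.1.val = j.1.val → i = j := fun h => Subtype.ext (Fin.ext h)
  -- the three kinds of rings
  have hk0 : ∀ i : ι, i.1.val = 0 → ∃ j : ι, j.1.val = rn b 0 ∧ nb i = {j} := by
    intro i hi
    have h1 := rn_spec hb (n := 0) (by omega) rfl
    refine ⟨mk _ h1.2.1 h1.2.2.1, rfl, ?_⟩
    ext j
    rw [hmem, Finset.mem_singleton]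
    constructor
    · rintro (⟨_, h3⟩ | ⟨h2, _⟩)
      · exact hext (by rw [h3, hi])
      · omega
    · rintro rfl
      left
      rw [hi]
      exact ⟨by omega, rfl⟩
  have hkM : ∀ i : ι, i.1.val = M → ∃ j : ι, j.1.val = ln b M ∧ nb i = {j} := by
    intro i hi
    have h0 : us b M = false := by have := i.2; rwa [hi] at this
    have h1 := ln_spec hb (n := M) (by omega) h0
    refine ⟨mk _ (by omega) h1.2.1, rfl, ?_⟩
    ext j
    rw [hmem, Finset.mem_singleton]
    constructor
    · rintro (⟨h2, _⟩ | ⟨_, h3⟩)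
      · omega
      · exact hext (by rw [h3, hi])
    · rintro rfl
      right
      rw [hi]
      exact ⟨by omega, rfl⟩
  have hki : ∀ i : ι, 0 < i.1.val → i.1.val < M → ∃ j j' : ι, j.1.val = ln b i.1.val ∧
      j'.1.val = rn b i.1.val ∧ j ≠ j' ∧ nb i = {j, j'} := by
    intro i h0 hM'
    have h1 := ln_spec hb h0 i.2
    have h2 := rn_spec hb hM' i.2
    refine ⟨mk _ (by omega) h1.2.1, mk _ h2.2.1 h2.2.2.1, rfl, rfl, ?_, ?_⟩
    · intro h
      have := congrArg (fun j : ι => j.1.val) h
      simp only [mk] at this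
      omega
    · ext j
      rw [hmem, Finset.mem_insert, Finset.mem_singleton]
      constructor
      · rintro (⟨_, h3⟩ | ⟨_, h3⟩)
        · exact Or.inr (hext h3)
        · exact Or.inl (hext h3)
      · rintro (rfl | rfl)
        · exact Or.inr ⟨h0, rfl⟩
        · exact Or.inl ⟨hM', rfl⟩
  have hcases : ∀ i, (∃ j, nb i = {j}) ∨ (∃ j j', j ≠ j' ∧ nb i = {j, j'}) := by
    intro i
    by_cases h0 : i.1.val = 0
    · obtain ⟨j, _, hj⟩ := hk0 i h0
      exact Or.inl ⟨j, hj⟩
    · by_cases h1 : i.1.val = M
      · obtain ⟨j, _, hj⟩ := hkM i h1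
        exact Or.inl ⟨j, hj⟩
      · have := hle i
        obtain ⟨j, j', _, _, hne, hj⟩ := hki i (by omega) (by omega)
        exact Or.inr ⟨j, j', hne, hj⟩
  have hus0 : us b 0 = false := rfl
  have husM : us b M = false := us_of_ge hb le_rfl
  -- types
  have hl0 : lr b 0 = .e := lr_zero
  have hrM : rr b M = .e := rr_last
  obtain ⟨w, hw⟩ := graph_exists (nb := nb) hnb hcases
    (b := fun i : ι => ((BB b i.1.val : ℕ) : ℝ)) (s := fun i : ι => sg b i.1.val)
    (fun i => sg_or _) (K := fun i => Poly (vt (ty b i.1.val)))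
    (U := fun i => PolyU (vt (ty b i.1.val))) (r := r0) (by unfold r0; norm_num)
    (fun i => F.closed _) (fun i => F.re_pos _) (fun i => F.isOpen _) (fun i => F.sub _)
    (by
      -- end rings
      intro i j hij
      by_cases h0 : i.1.val = 0
      · obtain ⟨j', hj', hnj⟩ := hk0 i h0
        have hjj : j = j' := by
          rw [hij] at hnj
          exact Finset.singleton_injective hnj
        subst hjj
        have hp := port_right hb F (n := 0) (by omega) hus0
        rw [h0, hj']
        by_cases hr : rr b 0 = .s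
        · have hB := BB_of_rr hb hus0 hr
          rw [if_pos hr] at hp
          have ht : ty b 0 = rtype (BB b 0) 0 1 := by
            unfold ty na ns
            rw [hl0, hr]
            rfl
          have := F.end_s (BB b 0) hB
          rw [← ht] at this
          exact this.mono hp
        · rw [if_neg hr] at hp
          have hra : rr b 0 = .a := by
            have := rr_ne_e (b := b) (n := 0) (by omega)
            cases h : rr b 0
            · exact absurd h this
            · rfl
            · exact absurd h hr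
          have ht : ty b 0 = rtype (BB b 0) 1 0 := by
            unfold ty na ns
            rw [hl0, hra]
            rfl
          have := F.end_a (BB b 0) (BB_ge hb (by omega) hus0)
          rw [← ht] at this
          exact this.mono hp
      · by_cases h1 : i.1.val = M
        · obtain ⟨j', hj', hnj⟩ := hkM i h1
          have hjj : j = j' := by
            rw [hij] at hnj
            exact Finset.singleton_injective hnj
          subst hjj
          have hp := port_left' hb F (n := M) (by omega) le_rfl husM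
          rw [h1, hj']
          by_cases hr : lr b M = .s
          · have hB := BB_last hb hr
            rw [if_pos hr] at hp
            have ht : ty b M = rtype (BB b M) 0 1 := by
              unfold ty na ns
              rw [hrM, hr]
              rfl
            have := F.end_s (BB b M) hB
            rw [← ht] at this
            exact this.mono hp
          · rw [if_neg hr] at hp
            have hra : lr b M = .a := by
              have := lr_ne_e (b := b) (n := M) (by omega)
              cases h : lr b M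
              · exact absurd h this
              · rfl
              · exact absurd h hr
            have ht : ty b M = rtype (BB b M) 1 0 := by
              unfold ty na ns
              rw [hrM, hra]
              rfl
            have := F.end_a (BB b M) (BB_ge hb le_rfl husM)
            rw [← ht] at this
            exact this.mono hp
        · exfalso
          have := hle i
          obtain ⟨j1, j2, _, _, hne, hj⟩ := hki i (by omega) (by omega)
          rw [hij] at hj
          have h2 := congrArg Finset.card hj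
          rw [Finset.card_singleton, Finset.card_pair hne] at h2
          omega)
    (by
      -- inner rings
      intro i j j' hne hij
      have h0 : 0 < i.1.val := by
        by_contra hc
        obtain ⟨j1, _, hnj⟩ := hk0 i (by omega)
        rw [hij] at hnj
        have h2 := congrArg Finset.card hnj
        rw [Finset.card_singleton, Finset.card_pair hne] at h2
        omega
      have h1 : i.1.val < M := by
        by_contra hc
        have := hle i
        obtain ⟨j1, _, hnj⟩ := hkM i (by omega)
        rw [hij] at hnj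
        have h2 := congrArg Finset.card hnj
        rw [Finset.card_singleton, Finset.card_pair hne] at h2
        omega
      have hu := i.2
      have key : Ring2 ((BB b i.1.val : ℕ) : ℝ) (Poly (vt (ty b i.1.val)))
          (PolyU (vt (ty b i.1.val)))
          (frS (sg b i.1.val * sg b (ln b i.1.val)) (Star1 (Poly (vt (ty b (ln b i.1.val))))))
          (frS (sg b i.1.val * sg b (rn b i.1.val)) (Star1 (Poly (vt (ty b (rn b i.1.val)))))) r0 := by
        set n := i.1.val
        have hpr := port_right hb F h1 hu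
        have hpl := port_left hb F h0 h1.le hu
        have hpl' := port_left' hb F h0 h1.le hu
        have hB := BB_ge hb h1.le hu
        have hrne := rr_ne_e (b := b) h1
        have hlne := lr_ne_e (b := b) h0
        cases hl : lr b n
        · exact absurd hl hlne
        · rw [hl] at hpl
          rw [if_neg (by decide)] at hpl
          cases hr : rr b n
          · exact absurd hr hrne
          · rw [hr] at hpr
            rw [if_neg (by decide)] at hpr
            have ht : ty b n = rtype (BB b n) 2 0 := by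
              unfold ty na ns
              rw [hl, hr]
              rfl
            have := F.aa (BB b n) hB
            rw [← ht] at this
            exact this.mono hpl hpr
          · have hB3 := BB_of_rr hb hu hr
            rw [hr, if_pos rfl] at hpr
            have ht : ty b n = rtype (BB b n) 1 1 := by
              unfold ty na ns
              rw [hl, hr]
              rfl
            have := F.as3 (BB b n) hB3
            rw [← ht] at this
            exact this.mono hpl hpr
        · cases hr : rr b n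
          · exact absurd hr hrne
          · rw [hr] at hpr
            rw [if_neg (by decide)] at hpr
            have ht : ty b n = rtype (BB b n) 1 1 := by
              unfold ty na ns
              rw [hl, hr]
              rfl
            rcases hB.eq_or_lt with h2 | h3
            · rw [hl, if_pos rfl] at hpl
              have := F.as2
              rw [h2, ← ht] at this
              have h4 := (this.mono hpr hpl).symm
              have e : ((2 : ℕ) : ℝ) = ((BB b n : ℕ) : ℝ) := by rw [h2]
              push_cast at e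
              rw [← e]
              exact h4
            · rw [hl, if_pos rfl] at hpl'
              have := F.as3 (BB b n) (by omega)
              rw [← ht] at this
              exact (this.mono hpr hpl').symm
          · have hB3 := BB_of_rr hb hu hr
            rw [hr, if_pos rfl] at hpr
            rw [hl, if_pos rfl] at hpl'
            have ht : ty b n = rtype (BB b n) 0 2 := by
              unfold ty na ns
              rw [hl, hr]
              rfl
            have := F.ss (BB b n) hB3
            rw [← ht] at this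
            exact this.mono hpl' hpr
      obtain ⟨j1, j2, hj1, hj2, hne2, hj⟩ := hki i h0 h1
      rw [hij] at hj
      have hcase : (j = j1 ∧ j' = j2) ∨ (j = j2 ∧ j' = j1) := by
        have h3 : j ∈ ({j1, j2} : Finset ι) := by rw [← hj]; simp
        have h4 : j' ∈ ({j1, j2} : Finset ι) := by rw [← hj]; simp
        rw [Finset.mem_insert, Finset.mem_singleton] at h3 h4
        rcases h3 with h3 | h3 <;> rcases h4 with h4 | h4
        · exact absurd (h3.trans h4.symm) hne
        · exact Or.inl ⟨h3, h4⟩
        · exact Or.inr ⟨h3, h4⟩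
        · exact absurd (h3.trans h4.symm) hne
      rcases hcase with ⟨rfl, rfl⟩ | ⟨rfl, rfl⟩
      · rw [hj1, hj2]
        exact key
      · rw [hj1, hj2]
        exact key.symm)
    (by
      intro i
      by_cases h0 : i.1.val = 0
      · obtain ⟨j, _, hj⟩ := hk0 i h0
        have hB := BB_ge hb (n := 0) (by omega) hus0
        have hcount : na b 0 + ns b 0 = 1 := by
          unfold na ns
          rw [hl0]
          have := rr_ne_e (b := b) (n := 0) (by omega)
          cases h : rr b 0
          · exact absurd h this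
          · decide
          · decide
        have hns : BB b 0 = 2 → ns b 0 = 0 := by
          intro h2
          unfold ns
          rw [hl0]
          have : rr b 0 ≠ .s := fun h => by
            have := BB_of_rr hb hus0 h
            omega
          rw [if_neg this]
          decide
        obtain ⟨w, h1, h2, h3, h4, h5, h6⟩ := F.start1 (BB b 0) _ _ hB hcount hns
        rw [hj, h0, Finset.card_singleton]
        refine ⟨w, h1, h2, h3, h4, h5, ?_⟩
        rw [← h6]
        push_cast
        ring
      · by_cases h1 : i.1.val = M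
        · obtain ⟨j, _, hj⟩ := hkM i h1
          have hB := BB_ge hb (n := M) le_rfl husM
          have hcount : na b M + ns b M = 1 := by
            unfold na ns
            rw [hrM]
            have := lr_ne_e (b := b) (n := M) (by omega)
            cases h : lr b M
            · exact absurd h this
            · decide
            · decide
          have hns : BB b M = 2 → ns b M = 0 := by
            intro h2
            unfold ns
            rw [hrM]
            have : lr b M ≠ .s := fun h => by
              have := BB_last hb h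
              omega
            rw [if_neg this]
            decide
          obtain ⟨w, h1', h2, h3, h4, h5, h6⟩ := F.start1 (BB b M) _ _ hB hcount hns
          rw [hj, h1, Finset.card_singleton]
          refine ⟨w, h1', h2, h3, h4, h5, ?_⟩
          rw [← h6]
          push_cast
          ring
        · have hle' := hle i
          obtain ⟨j, j', _, _, hne, hj⟩ := hki i (by omega) (by omega)
          have hB := BB_ge hb hle' i.2
          have hcount : na b i.1.val + ns b i.1.val = 2 := by
            unfold na ns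
            have h3 := lr_ne_e (b := b) (n := i.1.val) (by omega)
            have h4 := rr_ne_e (b := b) (n := i.1.val) (by omega)
            cases h5 : lr b i.1.val
            · exact absurd h5 h3
            · cases h : rr b i.1.val
              · exact absurd h h4
              · decide
              · decide
            · cases h : rr b i.1.val
              · exact absurd h h4
              · decide
              · decide
          have hns : BB b i.1.val = 2 → ns b i.1.val ≤ 1 := by
            intro h2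
            unfold ns
            have : rr b i.1.val ≠ .s := fun h => by
              have := BB_of_rr hb i.2 h
              omega
            rw [if_neg this]
            split_ifs <;> decide
          obtain ⟨w, h1', h2, h3, h4, h5, h6⟩ := F.start2 (BB b i.1.val) _ _ hB hcount hns
          rw [hj, Finset.card_pair hne]
          refine ⟨w, h1', h2, h3, h4, h5, ?_⟩
          rw [← h6]
          push_cast
          ring)
  -- the solution as a function on the natural numbers
  let W : ℕ → ℂ := fun n => if h : n ≤ M ∧ us b n = false then w (mk n h.1 h.2) else 0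
  have hW : ∀ n (h : n ≤ M) (hu : us b n = false), W n = w (mk n h hu) := fun n h hu => by
    simp only [W]
    rw [dif_pos ⟨h, hu⟩]
  have hWi : ∀ i : ι, W i.1.val = w i := fun i => hW _ (hle i) i.2
  have hk1 : ∀ z, kap 1 z = Complex.cos z := fun z => by simp [kap]
  refine ⟨W, ?_, ?_, ?_, ?_, ?_, ?_, ?_, ?_, ?_⟩
  · intro n h hu
    rw [hW n h hu]
    exact (hw _).2.re0
  · intro n h hu
    rw [hW n h hu]
    exact (hw _).2.re1
  · intro n h hu
    rw [hW n h hu]
    exact (hw _).2.im
  · intro n h hu
    rw [hW n h hu]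
    exact (hw (mk n h hu)).2.mem
  · intro n h hu
    have h1 := rn_spec hb h hu
    rw [hW n h.le hu, hW _ h1.2.1 h1.2.2.1]
    refine (hw (mk n h.le hu)).2.hinge _ ?_
    rw [hmem]
    exact Or.inl ⟨h, rfl⟩
  · intro n h hu
    have h1 := rn_spec hb h hu
    rw [hW n h.le hu, hW _ h1.2.1 h1.2.2.1]
    refine (hw (mk _ h1.2.1 h1.2.2.1)).2.hinge (mk n h.le hu) ?_
    rw [hmem]
    exact Or.inr ⟨by show 0 < rn b n; omega, h1.2.2.2.symm⟩
  · obtain ⟨j, hj1, hj⟩ := hk0 (mk 0 (by omega) hus0) rfl
    have h1 := (hw (mk 0 (by omega) hus0)).1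
    unfold FF at h1
    rw [hj, Finset.sum_singleton, hk1] at h1
    have h2 : W (rn b 0) = w j := by rw [← hj1]; exact hWi j
    rw [hW 0 (by omega) hus0, h2]
    rw [← h1]
    push_cast
    rfl
  · obtain ⟨j, hj1, hj⟩ := hkM (mk M le_rfl husM) rfl
    have h1 := (hw (mk M le_rfl husM)).1
    unfold FF at h1
    rw [hj, Finset.sum_singleton, hk1] at h1
    have h2 : W (ln b M) = w j := by rw [← hj1]; exact hWi j
    rw [hW M le_rfl husM, h2]
    rw [← h1]
    push_cast
    rfl
  · intro n h0 h1 hu
    obtain ⟨j, j', hj1, hj2, hne, hj⟩ := hki (mk n h1.le hu) h0 h1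
    have h3 := (hw (mk n h1.le hu)).1
    unfold FF at h3
    rw [hj, Finset.sum_pair hne, hk1, hk1] at h3
    have h4 : W (ln b n) = w j := by
      have : ln b n = j.1.val := hj1.symm
      rw [this]
      exact hWi j
    have h5 : W (rn b n) = w j' := by
      have : rn b n = j'.1.val := hj2.symm
      rw [this]
      exact hWi j'
    rw [hW n h1.le hu, h4, h5]
    rw [← h3]
    push_cast
    rfl

end SR

end Pool.Agent.Work.MP_b30479_gtS.G2

end

section

/-!
# The hinges of a word from the ring values
-/

namespace Pool.Agent.Work.MP_b30479_gtS.G2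

open Complex Set Filter Topology
open scoped ComplexConjugate

/-! ### one ring -/

lemma exp_QQ {w k : ℂ} (hR : 0 < (RR w k).re) (h0 : 0 ≤ w.re) (h1 : w.re ≤ 3 / 2)
    (hk : 0 < k.re) : cexp (QQ w k) = (Complex.tan w + RR w k) * k ∧
      cexp (-QQ w k) = (RR w k - Complex.tan w) * k := by
  have hk0 : k ≠ 0 := fun h => by rw [h] at hk; exact lt_irrefl _ hk
  have hTR : Complex.tan w + RR w k ≠ 0 := fun h => by
    have h2 := congrArg Complex.re h
    rw [Complex.add_re, Complex.zero_re] at h2
    have := tan_re_nonneg h0 h1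
    linarith only [hR, h2, this]
  have e1 : cexp (QQ w k) = (Complex.tan w + RR w k) * k := by
    unfold QQ
    rw [Complex.exp_add, Complex.exp_log hTR, Complex.exp_log hk0]
  refine ⟨e1, ?_⟩
  rw [Complex.exp_neg, e1]
  apply inv_eq_of_mul_eq_one_right
  have e2 : RR w k ^ 2 = Complex.tan w ^ 2 + (k ^ 2)⁻¹ := RR_sq w k
  have e3 : (Complex.tan w + RR w k) * k * ((RR w k - Complex.tan w) * k) =
      (RR w k ^ 2 - Complex.tan w ^ 2) * k ^ 2 := by ring
  rw [e3, e2]
  field_simp
  ring

lemma exp_I_mul {w : ℂ} (hc : Complex.cos w ≠ 0) :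
    cexp (I * w) = Complex.cos w * (1 + I * Complex.tan w) ∧
      cexp (-(I * w)) = Complex.cos w * (1 - I * Complex.tan w) := by
  have h1 : Complex.cos w * Complex.tan w = Complex.sin w := by
    rw [mul_comm]
    exact Complex.tan_mul_cos hc
  constructor
  · rw [mul_comm I w, Complex.exp_mul_I]
    linear_combination (-I) * h1
  · rw [show -(I * w) = (-w) * I by ring, Complex.exp_mul_I, Complex.cos_neg, Complex.sin_neg]
    linear_combination I * h1

lemma RE_of_QQ {B : ℕ} {s : ℝ} (hs : s = 1 ∨ s = -1) {w k k' : ℂ} (hR : 0 < (RR w k).re)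
    (hR' : 0 < (RR w k').re) (h0 : 0 ≤ w.re) (h1 : w.re ≤ 3 / 2) (hc : Complex.cos w ≠ 0)
    (hk : 0 < k.re) (hk' : 0 < k'.re)
    (h : (B : ℂ) * w - Real.pi + I * s * (QQ w k + QQ w k') = 0) :
    RE (s * I) B (RR w k) (RR w k') (-s * Complex.tan w) := by
  obtain ⟨e1, e2⟩ := exp_QQ hR h0 h1 hk
  obtain ⟨e1', e2'⟩ := exp_QQ hR' h0 h1 hk'
  obtain ⟨f1, f2⟩ := exp_I_mul hc
  have hk0 : k ≠ 0 := fun h => by rw [h] at hk; exact lt_irrefl _ hk
  have hk0' : k' ≠ 0 := fun h => by rw [h] at hk'; exact lt_irrefl _ hk'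
  have g1 : (Complex.cos w * (1 + I * Complex.tan w)) ^ B = cexp (B * (I * w)) := by
    rw [← f1, ← Complex.exp_nat_mul]
  have g2 : (Complex.cos w * (1 - I * Complex.tan w)) ^ B = cexp (B * (-(I * w))) := by
    rw [← f2, ← Complex.exp_nat_mul]
  have hcB : Complex.cos w ^ B ≠ 0 := pow_ne_zero _ hc
  rw [mul_pow] at g1 g2
  set T := Complex.tan w
  set R := RR w k
  set R' := RR w k'
  rcases hs with rfl | rfl
  · have h3 : (B : ℂ) * (I * w) = Real.pi * I + (QQ w k + QQ w k') := by
      push_cast at h
      linear_combination I * h - (QQ w k + QQ w k') * Complex.I_sq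
    have h4 : (B : ℂ) * (-(I * w)) = -(Real.pi * I) + (-QQ w k + -QQ w k') := by
      linear_combination -h3
    rw [h3, Complex.exp_add, Complex.exp_pi_mul_I, Complex.exp_add, e1, e1'] at g1
    rw [h4, Complex.exp_add, Complex.exp_neg, Complex.exp_pi_mul_I, Complex.exp_add, e2, e2'] at g2
    unfold RE
    apply mul_left_cancel₀ hcB
    push_cast
    have a1 : Complex.cos w ^ B * ((R + -1 * T) * (R' + -1 * T) * (1 - 1 * I * (-1 * T)) ^ B) =
        (R - T) * (R' - T) * (Complex.cos w ^ B * (1 + I * T) ^ B) := by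
      rw [show (1 : ℂ) - 1 * I * (-1 * T) = 1 + I * T by ring]
      ring
    have a2 : Complex.cos w ^ B * ((R - -1 * T) * (R' - -1 * T) * (1 + 1 * I * (-1 * T)) ^ B) =
        (R + T) * (R' + T) * (Complex.cos w ^ B * (1 - I * T) ^ B) := by
      rw [show (1 : ℂ) + 1 * I * (-1 * T) = 1 - I * T by ring]
      ring
    rw [a1, a2, g1, g2]
    ring
  · have h3 : (B : ℂ) * (I * w) = Real.pi * I + (-QQ w k + -QQ w k') := by
      push_cast at h
      linear_combination I * h + (QQ w k + QQ w k') * Complex.I_sq
    have h4 : (B : ℂ) * (-(I * w)) = -(Real.pi * I) + (QQ w k + QQ w k') := by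
      linear_combination -h3
    rw [h3, Complex.exp_add, Complex.exp_pi_mul_I, Complex.exp_add, e2, e2'] at g1
    rw [h4, Complex.exp_add, Complex.exp_neg, Complex.exp_pi_mul_I, Complex.exp_add, e1, e1'] at g2
    unfold RE
    apply mul_left_cancel₀ hcB
    push_cast
    have a1 : Complex.cos w ^ B * ((R + -(-1) * T) * (R' + -(-1) * T) *
        (1 - -1 * I * (-(-1) * T)) ^ B) =
        (R + T) * (R' + T) * (Complex.cos w ^ B * (1 + I * T) ^ B) := by
      rw [show (1 : ℂ) - -1 * I * (-(-1) * T) = 1 + I * T by ring]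
      ring
    have a2 : Complex.cos w ^ B * ((R - -(-1) * T) * (R' - -(-1) * T) *
        (1 + -1 * I * (-(-1) * T)) ^ B) =
        (R - T) * (R' - T) * (Complex.cos w ^ B * (1 - I * T) ^ B) := by
      rw [show (1 : ℂ) + -1 * I * (-(-1) * T) = 1 - I * T by ring]
      ring
    rw [a1, a2, g1, g2]
    ring

lemma RE1_of_QQ {B : ℕ} {s : ℝ} (hs : s = 1 ∨ s = -1) {w k : ℂ} (hR : 0 < (RR w k).re)
    (h0 : 0 ≤ w.re) (h1 : w.re ≤ 3 / 2) (hc : Complex.cos w ≠ 0) (hk : 0 < k.re)
    (h : (B : ℂ) * w - Real.pi + I * s * QQ w k = 0) :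
    RE1 (s * I) B (RR w k) (-s * Complex.tan w) := by
  obtain ⟨e1, e2⟩ := exp_QQ hR h0 h1 hk
  obtain ⟨f1, f2⟩ := exp_I_mul hc
  have g1 : (Complex.cos w * (1 + I * Complex.tan w)) ^ B = cexp (B * (I * w)) := by
    rw [← f1, ← Complex.exp_nat_mul]
  have g2 : (Complex.cos w * (1 - I * Complex.tan w)) ^ B = cexp (B * (-(I * w))) := by
    rw [← f2, ← Complex.exp_nat_mul]
  have hcB : Complex.cos w ^ B ≠ 0 := pow_ne_zero _ hc
  rw [mul_pow] at g1 g2
  set T := Complex.tan w
  set R := RR w k
  rcases hs with rfl | rfl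
  · have h3 : (B : ℂ) * (I * w) = Real.pi * I + QQ w k := by
      push_cast at h
      linear_combination I * h - QQ w k * Complex.I_sq
    have h4 : (B : ℂ) * (-(I * w)) = -(Real.pi * I) + -QQ w k := by
      linear_combination -h3
    rw [h3, Complex.exp_add, Complex.exp_pi_mul_I, e1] at g1
    rw [h4, Complex.exp_add, Complex.exp_neg, Complex.exp_pi_mul_I, e2] at g2
    unfold RE1
    apply mul_left_cancel₀ hcB
    push_cast
    have a1 : Complex.cos w ^ B * ((R + -1 * T) * (1 - 1 * I * (-1 * T)) ^ B) =
        (R - T) * (Complex.cos w ^ B * (1 + I * T) ^ B) := by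
      rw [show (1 : ℂ) - 1 * I * (-1 * T) = 1 + I * T by ring]
      ring
    have a2 : Complex.cos w ^ B * ((R - -1 * T) * (1 + 1 * I * (-1 * T)) ^ B) =
        (R + T) * (Complex.cos w ^ B * (1 - I * T) ^ B) := by
      rw [show (1 : ℂ) + 1 * I * (-1 * T) = 1 - I * T by ring]
      ring
    rw [a1, a2, g1, g2]
    ring
  · have h3 : (B : ℂ) * (I * w) = Real.pi * I + -QQ w k := by
      push_cast at h
      linear_combination I * h + QQ w k * Complex.I_sq
    have h4 : (B : ℂ) * (-(I * w)) = -(Real.pi * I) + QQ w k := by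
      linear_combination -h3
    rw [h3, Complex.exp_add, Complex.exp_pi_mul_I, e2] at g1
    rw [h4, Complex.exp_add, Complex.exp_neg, Complex.exp_pi_mul_I, e1] at g2
    unfold RE1
    apply mul_left_cancel₀ hcB
    push_cast
    have a1 : Complex.cos w ^ B * ((R + -(-1) * T) * (1 - -1 * I * (-(-1) * T)) ^ B) =
        (R + T) * (Complex.cos w ^ B * (1 + I * T) ^ B) := by
      rw [show (1 : ℂ) - -1 * I * (-(-1) * T) = 1 + I * T by ring]
      ring
    have a2 : Complex.cos w ^ B * ((R - -(-1) * T) * (1 + -1 * I * (-(-1) * T)) ^ B) =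
        (R - T) * (Complex.cos w ^ B * (1 - I * T) ^ B) := by
      rw [show (1 : ℂ) + -1 * I * (-(-1) * T) = 1 - I * T by ring]
      ring
    rw [a1, a2, g1, g2]
    ring

lemma one_add_tan_sq {w : ℂ} (hc : Complex.cos w ≠ 0) :
    1 + Complex.tan w ^ 2 = 1 / Complex.cos w ^ 2 := by
  have h1 : Complex.tan w * Complex.cos w = Complex.sin w := Complex.tan_mul_cos hc
  have h2 := Complex.sin_sq_add_cos_sq w
  rw [eq_div_iff (pow_ne_zero 2 hc)]
  rw [← h1] at h2
  linear_combination h2

lemma RR_symm {w w' : ℂ} (hc : Complex.cos w ≠ 0) (hc' : Complex.cos w' ≠ 0) :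
    RR w (Complex.cos w') = RR w' (Complex.cos w) := by
  unfold RR
  congr 1
  unfold ZZ0
  have h1 := one_add_tan_sq hc
  have h2 := one_add_tan_sq hc'
  rw [← one_div, ← one_div]
  linear_combination h1 - h2

lemma RR_cos_sq {w w' : ℂ} (hc' : Complex.cos w' ≠ 0) :
    RR w (Complex.cos w') ^ 2 = 1 + Complex.tan w ^ 2 + Complex.tan w' ^ 2 := by
  rw [RR_sq]
  unfold ZZ0
  rw [← one_div, ← one_add_tan_sq hc']
  ring

namespace SR

variable {M : ℕ} (b : Fin (M + 1) → ℤ) (w : ℕ → ℂ)

/-- the hinge to the right of the ring `n`, before the splitting -/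
noncomputable def R0 (n : ℕ) : ℂ := RR (w n) (Complex.cos (w (rn b n)))

/-- `tan π ζ` -/
noncomputable def tau (n : ℕ) : ℂ := -(sg b n : ℂ) * Complex.tan (w n)

/-- the cotangent of the hinge variable between the digits `n` and `n + 1` -/
noncomputable def Rh (n : ℕ) : ℂ :=
  if us b (n + 1) then Rs (jj (bb b n)) (R0 b w n) (tau b w n)
  else if us b n then Rs (jj (bb b (n + 1))) (R0 b w (n - 1)) (tau b w (n + 1))
  else R0 b w n

/-- the value of the digit `n` -/
noncomputable def qv (n : ℕ) : ℂ :=
  if us b n then -((Rh b w (n - 1) + jj (bb b n)) * (Rh b w n + jj (bb b n)))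
  else 1 / Complex.cos (w n) ^ 2

variable {b w}

lemma jj_sg (n : ℕ) : jj (bb b n) = sg b n * I := by
  unfold jj sg
  split_ifs <;> simp

lemma sg_sq (n : ℕ) : (sg b n : ℂ) ^ 2 = 1 := by
  rcases sg_or (b := b) n with h | h <;> rw [h] <;> norm_num

lemma tau_sq (n : ℕ) : tau b w n ^ 2 = Complex.tan (w n) ^ 2 := by
  unfold tau
  linear_combination (Complex.tan (w n) ^ 2) * sg_sq (b := b) n

variable (hb : ClassW b) (F : RingFacts) (hw : Sol b w)
include F hw

lemma cos_re {n : ℕ} (hn : n ≤ M) (hu : us b n = false) : 0 < (Complex.cos (w n)).re := by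
  have h := hw.mem n hn hu
  rcases sg_or (b := b) n with h1 | h1
  · rw [h1, frS_one] at h
    exact F.re_pos _ _ (F.sub _ h)
  · rw [h1, frS_neg] at h
    have := F.re_pos _ _ (F.sub _ h)
    rwa [Complex.conj_re] at this

lemma cos_ne {n : ℕ} (hn : n ≤ M) (hu : us b n = false) : Complex.cos (w n) ≠ 0 :=
  cos_ne_of (cos_re F hw hn hu)

omit F in
lemma tan_re {n : ℕ} (hn : n ≤ M) (hu : us b n = false) : 0 < (Complex.tan (w n)).re :=
  tan_re_pos (hw.re0 n hn hu) (hw.re1 n hn hu).le

omit F in
lemma tau_ne {n : ℕ} (hn : n ≤ M) (hu : us b n = false) : tau b w n ≠ 0 := by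
  have h := tan_re hw hn hu
  unfold tau
  rcases sg_or (b := b) n with h1 | h1
  · rw [h1]
    intro h2
    have := congrArg Complex.re h2
    simp at this
    linarith only [h, this]
  · rw [h1]
    intro h2
    have := congrArg Complex.re h2
    simp at this
    linarith only [h, this]

omit F in
lemma R0_re {n : ℕ} (hn : n < M) (hu : us b n = false) : 0 < (R0 b w n).re := by
  have := hw.hingeR n hn hu
  unfold r0 at this
  unfold R0
  linarith only [this]

omit F hw in
lemma add_j_ne {R : ℂ} (hR : 0 < R.re) (b : ℤ) : R + jj b ≠ 0 := by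
  intro h
  have := congrArg Complex.re h
  rw [Complex.add_re] at this
  have h2 : (jj b).re = 0 := by
    unfold jj
    split_ifs <;> simp
  rw [h2] at this
  simp at this
  linarith only [hR, this]

omit F in
lemma R0_add_ne {n : ℕ} (hn : n < M) (hu : us b n = false) (c : ℤ) : R0 b w n + jj c ≠ 0 :=
  add_j_ne (R0_re hw hn hu) c

include hb

lemma R0_sq {n : ℕ} (hn : n < M) (hu : us b n = false) :
    R0 b w n ^ 2 = 1 + tau b w n ^ 2 + tau b w (rn b n) ^ 2 := by
  have h1 := rn_spec hb hn hu
  unfold R0
  rw [RR_cos_sq (cos_ne F hw h1.2.1 h1.2.2.1), tau_sq, tau_sq]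

omit F hw in
/-- signs on the two sides of an absorbed digit -/
lemma jj_abs {n : ℕ} (h : us b (n + 1) = true) :
    jj (bb b (n + 2)) = jj (bb b n) ∧ jj (bb b (n + 1)) = -jj (bb b n) := by
  have h1 := us_lt hb h
  have h2 := (us_true h).2.1
  have h3 := bb_opp hb (n := n) (by omega) (Or.inr (by omega))
  have h4 := sign_across hb h
  have h0 := bb_ne hb (by omega : n ≤ M)
  unfold jj
  rcases lt_or_gt_of_ne h0 with h5 | h5
  · have h6 : bb b (n + 2) < 0 := by nlinarith only [h4, h5]
    have h7 : 0 < bb b (n + 1) := by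
      by_contra hc
      have := bb_ne hb (by omega : n + 1 ≤ M)
      have h8 : bb b (n + 1) < 0 := by omega
      have := mul_pos_of_neg_of_neg h5 h8
      omega
    rw [if_neg (by omega), if_neg (by omega), if_pos h7]
    constructor <;> ring
  · have h6 : 0 < bb b (n + 2) := (mul_pos_iff_of_pos_left h5).1 h4
    have h7 : ¬ 0 < bb b (n + 1) := by
      intro hc
      have := mul_pos h5 hc
      omega
    rw [if_pos h6, if_pos h5, if_neg h7]
    constructor <;> ring

omit F hw hb in
lemma Rh_true {n : ℕ} (h : us b (n + 1) = true) :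
    Rh b w n = Rs (jj (bb b n)) (R0 b w n) (tau b w n) := by
  unfold Rh
  rw [h]
  simp

omit F hw hb in
lemma Rh_left {n : ℕ} (h : us b (n + 1) = true) :
    Rh b w (n + 1) = Rs (jj (bb b (n + 2))) (R0 b w n) (tau b w (n + 2)) := by
  have h2 := (us_true h).2.2.2
  unfold Rh
  rw [h2, h]
  simp

omit F hw hb in
lemma Rh_false {n : ℕ} (h : us b (n + 1) = false) (h' : us b n = false) :
    Rh b w n = R0 b w n := by
  unfold Rh
  rw [h, h']
  simp

omit F hw hb in
lemma qv_ring {n : ℕ} (h : us b n = false) : qv b w n = 1 / Complex.cos (w n) ^ 2 := by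
  unfold qv
  rw [h]
  simp

omit hb in
lemma qv_tau {n : ℕ} (hn : n ≤ M) (h : us b n = false) : qv b w n = 1 + tau b w n ^ 2 := by
  rw [qv_ring h, tau_sq, one_add_tan_sq (cos_ne F hw hn h)]

omit F hw hb in
lemma qv_abs {n : ℕ} (h : us b n = true) :
    qv b w n = -((Rh b w (n - 1) + jj (bb b n)) * (Rh b w n + jj (bb b n))) := by
  unfold qv
  rw [h]
  simp

/-- the hinge relation -/
theorem hinge_rel {n : ℕ} (hn : n < M) : 1 + Rh b w n ^ 2 = qv b w n + qv b w (n + 1) := by
  by_cases h1 : us b (n + 1) = true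
  · have h2 := us_true h1
    have h3 := us_lt hb h1
    have hu : us b n = false := by simpa using h2.2.2.1
    obtain ⟨h4, h5⟩ := jj_abs hb h1
    have hR := R0_sq hb F hw hn hu
    have hrn : rn b n = n + 2 := by
      unfold rn
      rw [h1]
      simp
    rw [hrn] at hR
    rw [qv_tau F hw hn.le hu, qv_abs h1, Rh_left h1, h4, h5, show n + 1 - 1 = n by omega,
      Rh_true h1]
    rw [Rs_hinge (jj_sq _) (R0_add_ne hw hn hu _) hR]
    ring
  · rw [Bool.not_eq_true] at h1
    by_cases h6 : us b n = true
    · have h2 := us_true h6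
      obtain ⟨m, rfl⟩ : ∃ m, n = m + 1 := ⟨n - 1, by omega⟩
      have hu : us b m = false := by simpa using h2.2.2.1
      obtain ⟨h4, h5⟩ := jj_abs hb h6
      have hm : m < M := by omega
      have hR := R0_sq hb F hw hm hu
      have hrn : rn b m = m + 2 := by
        unfold rn
        rw [h6]
        simp
      rw [hrn] at hR
      have hR' : R0 b w m ^ 2 = 1 + tau b w (m + 2) ^ 2 + tau b w m ^ 2 := by
        rw [hR]
        ring
      rw [show m + 1 + 1 = m + 2 from rfl, qv_tau F hw (by omega : m + 2 ≤ M) h1, qv_abs h6,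
        Rh_left h6, h4, h5, show m + 1 - 1 = m by omega, Rh_true h6]
      rw [Rs_hinge (jj_sq _) (R0_add_ne hw hm hu _) hR']
      ring
    · rw [Bool.not_eq_true] at h6
      have hR := R0_sq hb F hw hn h6
      have hrn : rn b n = n + 1 := by
        unfold rn
        rw [h1]
        simp
      rw [hrn] at hR
      rw [Rh_false h1 h6, qv_tau F hw hn.le h6, qv_tau F hw (by omega) h1, hR]
      ring

/-- the hinge on the left of the ring `n`, before the splitting -/
lemma left_hinge {n : ℕ} (h0 : 0 < n) (hn : n ≤ M) (hu : us b n = false) :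
    RR (w n) (Complex.cos (w (ln b n))) = R0 b w (ln b n) := by
  have h1 := ln_spec hb h0 hu
  unfold R0
  rw [h1.2.2]
  exact RR_symm (cos_ne F hw hn hu) (cos_ne F hw (by omega) h1.2.1)

/-- the ring relation of the first ring -/
theorem ring_first (hM : 1 ≤ M) : RE1 (jj (bb b 0)) (bb b 0).natAbs (Rh b w 0) (tau b w 0) := by
  have hu : us b 0 = false := rfl
  have h1 := rn_spec hb (n := 0) (by omega) hu
  have h2 := RE1_of_QQ (sg_or (b := b) 0) (w := w 0) (k := Complex.cos (w (rn b 0)))
    (R0_re hw (by omega) hu) (hw.re0 0 (by omega) hu).le (hw.re1 0 (by omega) hu).le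
    (cos_ne F hw (by omega) hu) (cos_re F hw h1.2.1 h1.2.2.1) hw.first
  rw [← jj_sg] at h2
  change RE1 (jj (bb b 0)) (BB b 0) (R0 b w 0) (tau b w 0) at h2
  by_cases h3 : us b 1 = true
  · rw [Rh_true h3]
    have hB : BB b 0 = (bb b 0).natAbs + 1 := by
      unfold BB
      rw [show (0 : ℕ) - 1 = 0 by rfl, show (0 : ℕ) + 1 = 1 by rfl, h3]
      rfl
    rw [hB] at h2
    exact RE1_split (jj_sq _) (R0_add_ne hw (by omega) hu _) h2
  · rw [Bool.not_eq_true] at h3
    rw [Rh_false h3 hu]
    have hB : BB b 0 = (bb b 0).natAbs := by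
      unfold BB
      rw [show (0 : ℕ) - 1 = 0 by rfl, show (0 : ℕ) + 1 = 1 by rfl, h3]
      rfl
    rw [hB] at h2
    exact h2

/-- the ring relation of the last ring -/
theorem ring_last (hM : 1 ≤ M) :
    RE1 (jj (bb b M)) (bb b M).natAbs (Rh b w (M - 1)) (tau b w M) := by
  have hu : us b M = false := us_of_ge hb le_rfl
  have h1 := ln_spec hb (n := M) (by omega) hu
  have hlM : ln b M < M := h1.1
  have h6 := hw.hingeL (ln b M) hlM h1.2.1
  rw [h1.2.2] at h6
  have h7 : 0 < (RR (w M) (Complex.cos (w (ln b M)))).re := by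
    unfold r0 at h6
    linarith only [h6]
  have h2 := RE1_of_QQ (sg_or (b := b) M) (w := w M) (k := Complex.cos (w (ln b M)))
    h7 (hw.re0 M le_rfl hu).le (hw.re1 M le_rfl hu).le
    (cos_ne F hw le_rfl hu) (cos_re F hw (by omega) h1.2.1) hw.last
  rw [← jj_sg, left_hinge hb F hw (by omega) le_rfl hu] at h2
  change RE1 (jj (bb b M)) (BB b M) (R0 b w (ln b M)) (tau b w M) at h2
  have hM1 : us b (M + 1) = false := us_of_ge hb (by omega)
  by_cases h3 : us b (M - 1) = true
  · obtain ⟨m, rfl⟩ : ∃ m, M = m + 2 := ⟨M - 2, by have := us_lt hb h3; omega⟩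
    rw [show m + 2 - 1 = m + 1 by omega] at h3 ⊢
    have hl : ln b (m + 2) = m := by
      unfold ln
      rw [show m + 2 - 1 = m + 1 by omega, h3]
      simp
    rw [hl] at h2 hlM h1
    rw [Rh_left h3]
    have hB : BB b (m + 2) = (bb b (m + 2)).natAbs + 1 := by
      unfold BB
      rw [show m + 2 - 1 = m + 1 by omega, h3, hM1]
      rfl
    rw [hB] at h2
    exact RE1_split (jj_sq _) (R0_add_ne hw hlM h1.2.1 _) h2
  · rw [Bool.not_eq_true] at h3
    have hl : ln b M = M - 1 := by
      unfold ln
      rw [h3]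
      simp
    rw [hl] at h2
    rw [Rh_false (by rwa [show M - 1 + 1 = M by omega]) h3]
    have hB : BB b M = (bb b M).natAbs := by
      unfold BB
      rw [h3, hM1]
      rfl
    rw [hB] at h2
    exact h2

/-- the ring relation of an inner ring -/
theorem ring_inner {n : ℕ} (h0 : 0 < n) (hn : n < M) (hu : us b n = false) :
    RE (jj (bb b n)) (bb b n).natAbs (Rh b w (n - 1)) (Rh b w n) (tau b w n) := by
  have h1 := ln_spec hb h0 hu
  have h1' := rn_spec hb hn hu
  have h6 := hw.hingeL (ln b n) (by omega) h1.2.1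
  rw [h1.2.2] at h6
  have h7 : 0 < (RR (w n) (Complex.cos (w (ln b n)))).re := by
    unfold r0 at h6
    linarith only [h6]
  have h2 := RE_of_QQ (sg_or (b := b) n) (w := w n) (k := Complex.cos (w (ln b n)))
    (k' := Complex.cos (w (rn b n))) h7 (R0_re hw hn hu) (hw.re0 n hn.le hu).le
    (hw.re1 n hn.le hu).le (cos_ne F hw hn.le hu) (cos_re F hw (by omega) h1.2.1)
    (cos_re F hw h1'.2.1 h1'.2.2.1) (hw.inner n h0 hn hu)
  rw [← jj_sg, left_hinge hb F hw h0 hn.le hu] at h2
  change RE (jj (bb b n)) (BB b n) (R0 b w (ln b n)) (R0 b w n) (tau b w n) at h2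
  -- the right side
  have h3 : RE (jj (bb b n)) ((bb b n).natAbs + (us b (n - 1)).toNat) (R0 b w (ln b n)) (Rh b w n)
      (tau b w n) := by
    by_cases h4 : us b (n + 1) = true
    · rw [Rh_true h4]
      have hB : BB b n = (bb b n).natAbs + (us b (n - 1)).toNat + 1 := by
        unfold BB
        rw [h4]
        rfl
      rw [hB] at h2
      exact RE_split' (jj_sq _) (R0_add_ne hw hn hu _) h2
    · rw [Bool.not_eq_true] at h4
      rw [Rh_false h4 hu]
      have hB : BB b n = (bb b n).natAbs + (us b (n - 1)).toNat := by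
        unfold BB
        rw [h4]
        rfl
      rw [hB] at h2
      exact h2
  -- the left side
  by_cases h4 : us b (n - 1) = true
  · obtain ⟨m, rfl⟩ : ∃ m, n = m + 2 := ⟨n - 2, by have := us_lt hb h4; omega⟩
    rw [show m + 2 - 1 = m + 1 by omega] at h4 h3 ⊢
    have hl : ln b (m + 2) = m := by
      unfold ln
      rw [show m + 2 - 1 = m + 1 by omega, h4]
      simp
    rw [hl] at h3 h1
    rw [h4] at h3
    rw [Rh_left h4]
    exact RE_split (jj_sq _) (R0_add_ne hw (by omega) h1.2.1 _) h3
  · rw [Bool.not_eq_true] at h4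
    have hl : ln b n = n - 1 := by
      unfold ln
      rw [h4]
      simp
    rw [hl, h4] at h3
    rw [Rh_false (n := n - 1) (by rwa [show n - 1 + 1 = n by omega]) h4]
    exact h3

end SR

end Pool.Agent.Work.MP_b30479_gtS.G2

end
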