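import Pool.Agent.Work.MP_b30479_gt.TBS.G2.MPWall
import Pool.Agent.Work.MP_b30479_gt.TBS.LT.Rigid
import Pool.Agent.Work.MP_b30479_gt.TBS.G2.MPSide
import Pool.Agent.Work.MP_b30479_gt.TBS.G2.MPWallD

section

/-!
# Maximisers: the local interface, and the domination theorem from local hypotheses
-/

namespace Pool.Agent.Work.MP_b30479_gtS.G2

open Finset VOL Filter Topology

/-- the point with parameter `c` on the path of the variable `j` -/
noncomputable def Par.pp {D Z : Type} (P : Par D) (zs : D ⊕ Z → ℂ) (j : D ⊕ Z) (c : ℝ) : ℂ :=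
  (c : ℂ) + (P.hgt zs j c : ℂ) * Complex.I

theorem Par.pth_eq {D Z : Type} (P : Par D) (zs : D ⊕ Z → ℂ) (y : D ⊕ Z → ℝ) (j : D ⊕ Z) :
    P.pth zs y j = P.pp zs j (y j) := rfl

theorem Par.pp_re {D Z : Type} (P : Par D) (zs : D ⊕ Z → ℂ) (j : D ⊕ Z) (c : ℝ) :
    (P.pp zs j c).re = c := by simp [Par.pp]

theorem Par.pp_im {D Z : Type} (P : Par D) (zs : D ⊕ Z → ℂ) (j : D ⊕ Z) (c : ℝ) :
    (P.pp zs j c).im = P.hgt zs j c := by simp [Par.pp]

theorem Par.pth_update_pp {D Z : Type} [DecidableEq D] [DecidableEq Z] (P : Par D)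
    (zs : D ⊕ Z → ℂ) (y : D ⊕ Z → ℝ) (j : D ⊕ Z) (c : ℝ) :
    P.pth zs (Function.update y j c) = Function.update (P.pth zs y) j (P.pp zs j c) := by
  funext k
  by_cases hk : k = j
  · subst hk
    simp [Par.pth_eq]
  · rw [Par.pth_eq, Function.update_of_ne hk, Function.update_of_ne hk, Par.pth_eq]

section
variable {M : ℕ} (t : Fin (M + 1) → Typ) (b : Fin (M + 1) → ℤ)

theorem xx_update' (i : Fin (M + 1)) (z : DD t ⊕ ZZ t → ℂ) (j : DD t ⊕ ZZ t) (c : ℂ) (p : Fin 3) :
    xx t i (Function.update z j c) p = xx t i z p + cf t i p j * (c - z j) := by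
  have e : Function.update z j c = z + Pi.single j (c - z j) := by
    funext k
    by_cases h : k = j
    · subst h; simp
    · simp [h]
  rw [e, xx_add, xx_single]

theorem xx_upd_hinge_left (h : Fin M) (z : DD t ⊕ ZZ t → ℂ) (c : ℂ) :
    xx t h.castSucc (Function.update z (.inl (.inl h)) c) =
      Function.update (xx t h.castSucc z) 2 c := by
  have hne : h.castSucc ≠ h.succ := (Fin.castSucc_lt_succ).ne
  funext p
  rw [xx_update']
  fin_cases p
  · simp [cf, hne.symm]
  · simp [cf]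
  · simp [cf, xx_right]

theorem xx_upd_hinge_right (h : Fin M) (z : DD t ⊕ ZZ t → ℂ) (c : ℂ) :
    xx t h.succ (Function.update z (.inl (.inl h)) c) =
      Function.update (xx t h.succ z) 0 c := by
  have hne : h.castSucc ≠ h.succ := (Fin.castSucc_lt_succ).ne
  funext p
  rw [xx_update']
  fin_cases p
  · simp [cf, xx_left]
  · simp [cf]
  · simp [cf, hne]

theorem xx_upd_hinge_ne (h : Fin M) (z : DD t ⊕ ZZ t → ℂ) (c : ℂ) (i : Fin (M + 1))
    (h1 : i ≠ h.castSucc) (h2 : i ≠ h.succ) :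
    xx t i (Function.update z (.inl (.inl h)) c) = xx t i z := by
  funext p
  rw [xx_update']
  simp [cf, Ne.symm h1, Ne.symm h2]

theorem xx_upd_mid (m : {i : Fin (M + 1) // (t i).isMid = true}) (z : DD t ⊕ ZZ t → ℂ) (c : ℂ) :
    xx t m.1 (Function.update z (.inl (.inr m)) c) = Function.update (xx t m.1 z) 1 c := by
  funext p
  rw [xx_update']
  fin_cases p
  · simp [cf]
  · have := xx_mid t m.2 z
    simp [cf, this]
  · simp [cf]

theorem xx_upd_mid_ne (m : {i : Fin (M + 1) // (t i).isMid = true}) (z : DD t ⊕ ZZ t → ℂ) (c : ℂ)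
    (i : Fin (M + 1)) (h : i ≠ m.1) :
    xx t i (Function.update z (.inl (.inr m)) c) = xx t i z := by
  funext p
  rw [xx_update']
  simp [cf, Ne.symm h]

theorem xx_upd_ring (v : ZZ t) (z : DD t ⊕ ZZ t → ℂ) (c : ℂ) :
    xx t v.1 (Function.update z (.inr v) c) = Function.update (xx t v.1 z) 1 c := by
  funext p
  rw [xx_update']
  fin_cases p
  · simp [cf]
  · have := xx_ring t v.2 z
    simp [cf, this]
  · simp [cf]

theorem xx_upd_ring_ne (v : ZZ t) (z : DD t ⊕ ZZ t → ℂ) (c : ℂ)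
    (i : Fin (M + 1)) (h : i ≠ v.1) :
    xx t i (Function.update z (.inr v) c) = xx t i z := by
  funext p
  rw [xx_update']
  simp [cf, Ne.symm h]

/-- the growth rate of the run `i` as a function of its local variables -/
noncomputable def rV (i : Fin (M + 1)) (x : Fin 3 → ℂ) : ℝ := (rdat t b i).V (lx x)

theorem wdat_V_rV (z : DD t ⊕ ZZ t → ℂ) : (wdat t b).V z = ∑ i, rV t b i (xx t i z) :=
  wdat_V_eq t b z

/-- moving a hinge changes the two neighbouring runs only -/
theorem V_upd_hinge (h : Fin M) (z : DD t ⊕ ZZ t → ℂ) (c : ℂ) :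
    (wdat t b).V (Function.update z (.inl (.inl h)) c) - (wdat t b).V z =
      (rV t b h.castSucc (Function.update (xx t h.castSucc z) 2 c) -
        rV t b h.castSucc (xx t h.castSucc z)) +
      (rV t b h.succ (Function.update (xx t h.succ z) 0 c) - rV t b h.succ (xx t h.succ z)) := by
  have hne : h.castSucc ≠ h.succ := (Fin.castSucc_lt_succ).ne
  rw [wdat_V_rV, wdat_V_rV, ← Finset.sum_sub_distrib,
    ← Finset.sum_subset (Finset.subset_univ {h.castSucc, h.succ}), Finset.sum_pair hne,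
    xx_upd_hinge_left, xx_upd_hinge_right]
  intro i _ hi
  simp only [Finset.mem_insert, Finset.mem_singleton, not_or] at hi
  rw [xx_upd_hinge_ne t h z c i hi.1 hi.2, sub_self]

theorem V_upd_mid (m : {i : Fin (M + 1) // (t i).isMid = true}) (z : DD t ⊕ ZZ t → ℂ) (c : ℂ) :
    (wdat t b).V (Function.update z (.inl (.inr m)) c) - (wdat t b).V z =
      rV t b m.1 (Function.update (xx t m.1 z) 1 c) - rV t b m.1 (xx t m.1 z) := by
  rw [wdat_V_rV, wdat_V_rV, ← Finset.sum_sub_distrib, Finset.sum_eq_single m.1, xx_upd_mid]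
  · intro i _ hi
    rw [xx_upd_mid_ne t m z c i hi, sub_self]
  · intro h
    exact absurd (Finset.mem_univ _) h

theorem V_upd_ring (v : ZZ t) (z : DD t ⊕ ZZ t → ℂ) (c : ℂ) :
    (wdat t b).V (Function.update z (.inr v) c) - (wdat t b).V z =
      rV t b v.1 (Function.update (xx t v.1 z) 1 c) - rV t b v.1 (xx t v.1 z) := by
  rw [wdat_V_rV, wdat_V_rV, ← Finset.sum_sub_distrib, Finset.sum_eq_single v.1, xx_upd_ring]
  · intro i _ hi
    rw [xx_upd_ring_ne t v z c i hi, sub_self]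
  · intro h
    exact absurd (Finset.mem_univ _) h

variable {t b}
variable {P : Par (DD t)} {zs : DD t ⊕ ZZ t → ℂ} {y : DD t ⊕ ZZ t → ℝ}

/-- replacing one coordinate of a maximiser does not increase the growth rate -/
theorem IsMx.upd {D Z K : Type} [Fintype D] [Fintype Z] [Fintype K] [DecidableEq D] [DecidableEq Z]
    {S : Dat D Z K} {P : Par D} {zs : D ⊕ Z → ℂ} {y : D ⊕ Z → ℝ} (h : IsMx S P zs y) (j : D ⊕ Z)
    {c : ℝ} (h0 : plo D Z j ≤ c) (h1 : c ≤ P.hi j) :
    S.V (Function.update (P.pth zs y) j (P.pp zs j c)) ≤ S.V (P.pth zs y) := by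
  have h2 : S.V (P.pth zs (Function.update y j c)) ≤ S.V (P.pth zs y) :=
    h.2 (update_mem_box h.1 h0 h1)
  rwa [P.pth_update_pp] at h2

/-- the inner discrete variable of a run maximises the growth rate of the run over its path -/
theorem IsMx.mid (h : IsMx (wdat t b) P zs y) (m : {i : Fin (M + 1) // (t i).isMid = true}) {c : ℝ}
    (h0 : 0 ≤ c) (h1 : c ≤ P.XM (.inr m)) :
    rV t b m.1 (Function.update (xx t m.1 (P.pth zs y)) 1 (P.pp zs (.inl (.inr m)) c)) ≤
      rV t b m.1 (xx t m.1 (P.pth zs y)) := by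
  have h2 := h.upd (.inl (.inr m)) (c := c) h0 h1
  have h3 := V_upd_mid t b m (P.pth zs y) (P.pp zs (.inl (.inr m)) c)
  linarith

/-- the inner continuous variable of a run maximises the growth rate of the run over its path -/
theorem IsMx.rng (h : IsMx (wdat t b) P zs y) (v : ZZ t) {c : ℝ}
    (h0 : -(1 / 2) ≤ c) (h1 : c ≤ 1 / 2) :
    rV t b v.1 (Function.update (xx t v.1 (P.pth zs y)) 1 (P.pp zs (.inr v) c)) ≤
      rV t b v.1 (xx t v.1 (P.pth zs y)) := by
  have h2 := h.upd (.inr v) (c := c) h0 h1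
  have h3 := V_upd_ring t b v (P.pth zs y) (P.pp zs (.inr v) c)
  linarith

/-- `side` of the run `i` -/
noncomputable def rside (t : Fin (M + 1) → Typ) (b : Fin (M + 1) → ℤ) (i : Fin (M + 1)) (p : Fin 3)
    (m : ℝ) (x : Fin 3 → ℂ) : ℝ :=
  side (t i) (b i) (decide (i ≠ 0)) (decide (i ≠ Fin.last M)) p m x

/-- all factors of the run `i` which contain the local variable `p` satisfy `Q` -/
def rfac (t : Fin (M + 1) → Typ) (i : Fin (M + 1)) (p : Fin 3) (x : Fin 3 → ℂ) (Q : ℂ → Prop) :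
    Prop :=
  FacAll (t i) (decide (i ≠ 0)) (decide (i ≠ Fin.last M)) p x Q

theorem rside_of_mid (z : DD t ⊕ ZZ t → ℂ) (m : {i : Fin (M + 1) // (t i).isMid = true}) (q : ℝ) :
    (wdat t b).d1 z (.inl (.inr m)) + q * (wdat t b).d2 z (.inl (.inr m)) =
      rside t b m.1 1 q (xx t m.1 z) := by
  rw [wdat_d1_mid, wdat_d2_mid]
  rfl

theorem rside_of_ring (z : DD t ⊕ ZZ t → ℂ) (v : ZZ t) (q : ℝ) :
    (wdat t b).d1 z (.inr v) + q * (wdat t b).d2 z (.inr v) = rside t b v.1 1 q (xx t v.1 z) := by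
  rw [wdat_d1_ring, wdat_d2_ring]
  rfl

theorem rside_of_hinge (z : DD t ⊕ ZZ t → ℂ) (h : Fin M) (q : ℝ) :
    (wdat t b).d1 z (.inl (.inl h)) + q * (wdat t b).d2 z (.inl (.inl h)) =
      rside t b h.castSucc 2 q (xx t h.castSucc z) + rside t b h.succ 0 q (xx t h.succ z) := by
  rw [wdat_d1_hinge, wdat_d2_hinge]
  unfold rside side rdat rx
  ring

/-- first-order condition for the inner discrete variable, to the right -/
theorem IsMx.mid_right (h : IsMx (wdat t b) P zs y) (hP : P.Good)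
    (m : {i : Fin (M + 1) // (t i).isMid = true}) (hx : y (.inl (.inr m)) < P.XM (.inr m))
    (hf : rfac t m.1 1 (xx t m.1 (P.pth zs y)) (QQm (P.sR zs (.inl (.inr m)) (y (.inl (.inr m)))))) :
    rside t b m.1 1 (P.sR zs (.inl (.inr m)) (y (.inl (.inr m)))) (xx t m.1 (P.pth zs y)) ≤ 0 := by
  have h1 := forms_mid t b hf
  rw [← rside_of_mid]
  exact h.right hP hx (fun k hk => (h1 k hk).1) (fun hm k hk => (h1 k hk).2 hm)

theorem IsMx.mid_left (h : IsMx (wdat t b) P zs y) (hP : P.Good)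
    (m : {i : Fin (M + 1) // (t i).isMid = true}) (hx : 0 < y (.inl (.inr m)))
    (hf : rfac t m.1 1 (xx t m.1 (P.pth zs y)) (QQm (P.sL zs (.inl (.inr m)) (y (.inl (.inr m)))))) :
    0 ≤ rside t b m.1 1 (P.sL zs (.inl (.inr m)) (y (.inl (.inr m)))) (xx t m.1 (P.pth zs y)) := by
  have h1 := forms_mid t b hf
  rw [← rside_of_mid]
  exact h.left hP hx (fun k hk => (h1 k hk).1) (fun hm k hk => (h1 k hk).2 hm)

theorem IsMx.rng_right (h : IsMx (wdat t b) P zs y) (hP : P.Good) (v : ZZ t)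
    (hx : y (.inr v) < 1 / 2)
    (hf : rfac t v.1 1 (xx t v.1 (P.pth zs y)) (QQm (P.sR zs (.inr v) (y (.inr v))))) :
    rside t b v.1 1 (P.sR zs (.inr v) (y (.inr v))) (xx t v.1 (P.pth zs y)) ≤ 0 := by
  have h1 := forms_ring t b hf
  rw [← rside_of_ring]
  exact h.right hP hx (fun k hk => (h1 k hk).1) (fun hm k hk => (h1 k hk).2 hm)

theorem IsMx.rng_left (h : IsMx (wdat t b) P zs y) (hP : P.Good) (v : ZZ t)
    (hx : -(1 / 2) < y (.inr v))
    (hf : rfac t v.1 1 (xx t v.1 (P.pth zs y)) (QQm (P.sL zs (.inr v) (y (.inr v))))) :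
    0 ≤ rside t b v.1 1 (P.sL zs (.inr v) (y (.inr v))) (xx t v.1 (P.pth zs y)) := by
  have h1 := forms_ring t b hf
  rw [← rside_of_ring]
  exact h.left hP hx (fun k hk => (h1 k hk).1) (fun hm k hk => (h1 k hk).2 hm)

/-- first-order condition for a hinge, to the right -/
theorem IsMx.hinge_right (h : IsMx (wdat t b) P zs y) (hP : P.Good) (k : Fin M)
    (hx : y (.inl (.inl k)) < P.XM (.inl k))
    (hf1 : rfac t k.castSucc 2 (xx t k.castSucc (P.pth zs y))
      (QQm (P.sR zs (.inl (.inl k)) (y (.inl (.inl k))))))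
    (hf2 : rfac t k.succ 0 (xx t k.succ (P.pth zs y))
      (QQm (P.sR zs (.inl (.inl k)) (y (.inl (.inl k)))))) :
    rside t b k.castSucc 2 (P.sR zs (.inl (.inl k)) (y (.inl (.inl k))))
        (xx t k.castSucc (P.pth zs y)) +
      rside t b k.succ 0 (P.sR zs (.inl (.inl k)) (y (.inl (.inl k))))
        (xx t k.succ (P.pth zs y)) ≤ 0 := by
  have h1 := forms_hinge t b hf1 hf2
  rw [← rside_of_hinge]
  exact h.right hP hx (fun k hk => (h1 k hk).1) (fun hm k hk => (h1 k hk).2 hm)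

theorem IsMx.hinge_left (h : IsMx (wdat t b) P zs y) (hP : P.Good) (k : Fin M)
    (hx : 0 < y (.inl (.inl k)))
    (hf1 : rfac t k.castSucc 2 (xx t k.castSucc (P.pth zs y))
      (QQm (P.sL zs (.inl (.inl k)) (y (.inl (.inl k))))))
    (hf2 : rfac t k.succ 0 (xx t k.succ (P.pth zs y))
      (QQm (P.sL zs (.inl (.inl k)) (y (.inl (.inl k)))))) :
    0 ≤ rside t b k.castSucc 2 (P.sL zs (.inl (.inl k)) (y (.inl (.inl k))))
        (xx t k.castSucc (P.pth zs y)) +
      rside t b k.succ 0 (P.sL zs (.inl (.inl k)) (y (.inl (.inl k))))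
        (xx t k.succ (P.pth zs y)) := by
  have h1 := forms_hinge t b hf1 hf2
  rw [← rside_of_hinge]
  exact h.left hP hx (fun k hk => (h1 k hk).1) (fun hm k hk => (h1 k hk).2 hm)

/-! ### domination from local hypotheses -/

/-- nonzero sine -/
def SinNe (u : ℂ) : Prop := Complex.sin (Real.pi * u) ≠ 0

/-- **Push-back of the run `i` in the hinge slot `p`** (`q` is the other hinge slot): if the
displacement of `X p` from the saddle value `Xs p` is at least as large as that of `X q` (in the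
gauge), then the horizontal derivative is pushed back. -/
def Push (t : Fin (M + 1) → Typ) (b : Fin (M + 1) → ℤ) (i : Fin (M + 1)) (p q : Fin 3)
    (X Xs : Fin 3 → ℂ) : Prop :=
  ((Xs p).re < (X p).re → |gh (X q).re - gh (Xs q).re| ≤ gh (X p).re - gh (Xs p).re →
    rfac t i p X SinNe ∧ rside t b i p 0 X < rside t b i p 0 Xs) ∧
  ((X p).re < (Xs p).re → |gh (X q).re - gh (Xs q).re| ≤ gh (Xs p).re - gh (X p).re →
    rfac t i p X SinNe ∧ rside t b i p 0 Xs < rside t b i p 0 X)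

theorem QQm_zero {u : ℂ} : QQm 0 u ↔ SinNe u := by
  unfold QQm SinNe
  simp

/-- the slopes on the flat part -/
theorem sR_flat {D Z : Type} {P : Par D} (zs : D ⊕ Z → ℂ) (i : D) {x : ℝ} (h0 : P.cl i ≤ x)
    (h1 : x < P.XM i - P.cr i) : P.sR zs (.inl i) x = 0 := by
  simp only [Par.sR]
  rw [if_neg (not_lt.2 h0), if_pos h1, mul_zero]

theorem sL_flat {D Z : Type} {P : Par D} (zs : D ⊕ Z → ℂ) (i : D) {x : ℝ} (h0 : P.cl i < x)
    (h1 : x ≤ P.XM i - P.cr i) : P.sL zs (.inl i) x = 0 := by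
  simp only [Par.sL]
  rw [if_neg (not_le.2 h0), if_pos h1, mul_zero]

theorem decide_castSucc (h : Fin M) : decide (h.castSucc ≠ Fin.last M) = true := by
  simp [Fin.castSucc_ne_last]

theorem decide_succ (h : Fin M) : decide (h.succ ≠ 0) = true := by simp [Fin.succ_ne_zero]

/-- **Domination on the product of the main paths from local hypotheses.** -/
theorem dom_of_push (hstd : ∀ i, (t i).Std)
    (hone : ∀ h : Fin M, t h.castSucc = .one → t h.succ = .one →
      sgb (b h.castSucc) + sgb (b h.succ) = 0)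
    (hP : P.Good) (hXM' : ∀ i, P.XM i ≤ 1) (hin : ∀ k, (wdat t b).form k zs ∈ strip) (hcrit : ∀ i, (wdat t b).dT zs i = 0)
    (hD : ∀ i, P.cl i < (zs (.inl i)).re ∧ (zs (.inl i)).re < P.XM i - P.cr i)
    (hZ : ∀ v, |(zs (.inr v)).re| < 1 / 4)
    (hy1 : ∀ y, IsMx (wdat t b) P zs y → ∀ j : DD t, y (.inl j) < 1)
    (hring : ∀ y, IsMx (wdat t b) P zs y → ∀ v : ZZ t, |y (.inr v)| < 1 / 2)
    (hcap : ∀ y, IsMx (wdat t b) P zs y → (∀ h : Fin M, 0 < y (.inl (.inl h))) →
      ∀ h : Fin M, P.cl (.inl h) ≤ y (.inl (.inl h)) ∧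
        y (.inl (.inl h)) ≤ P.XM (.inl h) - P.cr (.inl h))
    (hinner : ∀ y, IsMx (wdat t b) P zs y →
      (∀ h : Fin M, y (.inl (.inl h)) = (zs (.inl (.inl h))).re) → ∀ j, y j = (zs j).re)
    (hpush : ∀ y, IsMx (wdat t b) P zs y → (∀ h : Fin M, P.cl (.inl h) ≤ y (.inl (.inl h)) ∧
        y (.inl (.inl h)) ≤ P.XM (.inl h) - P.cr (.inl h)) → ∀ h : Fin M,
      Push t b h.castSucc 2 0 (xx t h.castSucc (P.pth zs y)) (xx t h.castSucc zs) ∧
      Push t b h.succ 0 2 (xx t h.succ (P.pth zs y)) (xx t h.succ zs))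
    {x : DD t ⊕ ZZ t → ℝ} (hx : x ∈ P.box (ZZ t)) (hne : P.pth zs x ≠ zs) :
    (wdat t b).V (P.pth zs x) < (wdat t b).V zs := by
  have hXM : ∀ i, 0 < P.cr i := fun i => (hP i).2.1
  have hJ : ∀ j ∈ Set.range (fun h : Fin M => (Sum.inl (Sum.inl h) : DD t ⊕ ZZ t)),
      ∃ h : Fin M, j = .inl (.inl h) := by
    rintro j ⟨h, rfl⟩
    exact ⟨h, rfl⟩
  have hcap1 : ∀ y, IsMx (wdat t b) P zs y → (∀ i ∈ Set.range
      (fun h : Fin M => (Sum.inl (Sum.inl h) : DD t ⊕ ZZ t)), plo (DD t) (ZZ t) i < y i) →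
      ∀ h : Fin M, P.cl (.inl h) ≤ y (.inl (.inl h)) ∧
        y (.inl (.inl h)) ≤ P.XM (.inl h) - P.cr (.inl h) :=
    fun y hy hpos => hcap y hy fun h => hpos _ ⟨h, rfl⟩
  -- the comparison of the gauges in local variables
  have hgauge : ∀ (y : DD t ⊕ ZZ t → ℝ) (R : ℝ), 0 ≤ R →
      (∀ j ∈ Set.range (fun h : Fin M => (Sum.inl (Sum.inl h) : DD t ⊕ ZZ t)),
        |gh (y j) - gh (zs j).re| ≤ R) → ∀ i : Fin (M + 1),
      |gh (xx t i (P.pth zs y) 0).re - gh (xx t i zs 0).re| ≤ R ∧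
      |gh (xx t i (P.pth zs y) 2).re - gh (xx t i zs 2).re| ≤ R := by
    intro y R hR hj i
    constructor
    · rcases Fin.eq_zero_or_eq_succ i with h | ⟨h, rfl⟩
      · subst h
        rw [xx_left_zero, xx_left_zero, sub_self, abs_zero]
        exact hR
      · rw [xx_left, xx_left, P.pth_eq, P.pp_re]
        exact hj _ ⟨h, rfl⟩
    · rcases Fin.eq_castSucc_or_eq_last i with ⟨h, rfl⟩ | h
      · rw [xx_right, xx_right, P.pth_eq, P.pp_re]
        exact hj _ ⟨h, rfl⟩
      · subst h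
        rw [xx_right_last, xx_right_last, sub_self, abs_zero]
        exact hR
  -- the sum of the two sides at the saddle
  have hs0 : ∀ h : Fin M, rside t b h.castSucc 2 0 (xx t h.castSucc zs) +
      rside t b h.succ 0 0 (xx t h.succ zs) = 0 := by
    intro h
    rw [← rside_of_hinge, zero_mul, add_zero]
    exact DV_crit _ hin hcrit _
  refine path_dom (wdat t b) hP hD hZ (Set.range fun h : Fin M => (Sum.inl (Sum.inl h) : DD t ⊕ ZZ t))
    (Set.range fun h : Fin M => (Sum.inl (Sum.inl h) : DD t ⊕ ZZ t)) (g := fun _ => gh)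
    (C := fun _ => Set.Ioo 0 1) (fun j _ => strictMonoOn_gh) ?_ ?_ ?_ ?_ ?_ ?_ hx hne
  · intro y hy hpos j hj
    obtain ⟨h, rfl⟩ := hJ j hj
    exact ⟨hpos _ hj, hy1 y hy _⟩
  · intro j hj
    obtain ⟨h, rfl⟩ := hJ j hj
    have h1 := hD (.inl h)
    exact ⟨(hP (.inl h)).1.trans h1.1, by linarith [h1.2, hXM (.inl h), hXM' (.inl h)]⟩
  · intro y hy j hj hy0
    obtain ⟨h, rfl⟩ := hJ j hj
    exact wall_hinge t b hstd hone hP zs hy.1 (hy1 y hy) (hring y hy) h hy0
  · intro y hy hpos hj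
    exact hinner y hy fun h => hj _ ⟨h, rfl⟩
  · intro y hy hpos i hi hlt hj
    obtain ⟨h, rfl⟩ := hJ i hi
    have hc := hcap1 y hy hpos
    have hsl : P.sL zs (.inl (.inl h)) (y (.inl (.inl h))) = 0 :=
      sL_flat zs _ ((hD (.inl h)).1.trans hlt) (hc h).2
    have hR : 0 ≤ gh (y (.inl (.inl h))) - gh (zs (.inl (.inl h))).re :=
      (abs_nonneg _).trans (hj _ hi)
    have hg := hgauge y _ hR hj
    obtain ⟨p1, p2⟩ := hpush y hy hc h
    have e1 : (xx t h.castSucc (P.pth zs y) 2).re = y (.inl (.inl h)) := by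
      rw [xx_right, P.pth_eq, P.pp_re]
    have e2 : (xx t h.succ (P.pth zs y) 0).re = y (.inl (.inl h)) := by
      rw [xx_left, P.pth_eq, P.pp_re]
    have e3 : (xx t h.castSucc zs 2) = zs (.inl (.inl h)) := xx_right t h zs
    have e4 : (xx t h.succ zs 0) = zs (.inl (.inl h)) := xx_left t h zs
    obtain ⟨f1, l1⟩ := p1.1 (by rw [e1, e3]; exact hlt) (by rw [e1, e3]; exact (hg h.castSucc).1)
    obtain ⟨f2, l2⟩ := p2.1 (by rw [e2, e4]; exact hlt) (by rw [e2, e4]; exact (hg h.succ).2)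
    refine ⟨forms_hinge t b f1 f2, fun hcon => absurd hsl hcon, ?_⟩
    rw [hsl, rside_of_hinge]
    linarith [hs0 h]
  · intro y hy hpos i hi hlt hj
    obtain ⟨h, rfl⟩ := hJ i hi
    have hc := hcap1 y hy hpos
    have hsl : P.sR zs (.inl (.inl h)) (y (.inl (.inl h))) = 0 :=
      sR_flat zs _ (hc h).1 (hlt.trans (hD (.inl h)).2)
    have hR : 0 ≤ gh (zs (.inl (.inl h))).re - gh (y (.inl (.inl h))) :=
      (abs_nonneg _).trans (hj _ hi)
    have hg := hgauge y _ hR hj
    obtain ⟨p1, p2⟩ := hpush y hy hc h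
    have e1 : (xx t h.castSucc (P.pth zs y) 2).re = y (.inl (.inl h)) := by
      rw [xx_right, P.pth_eq, P.pp_re]
    have e2 : (xx t h.succ (P.pth zs y) 0).re = y (.inl (.inl h)) := by
      rw [xx_left, P.pth_eq, P.pp_re]
    have e3 : (xx t h.castSucc zs 2) = zs (.inl (.inl h)) := xx_right t h zs
    have e4 : (xx t h.succ zs 0) = zs (.inl (.inl h)) := xx_left t h zs
    obtain ⟨f1, l1⟩ := p1.2 (by rw [e1, e3]; exact hlt) (by rw [e1, e3]; exact (hg h.castSucc).1)
    obtain ⟨f2, l2⟩ := p2.2 (by rw [e2, e4]; exact hlt) (by rw [e2, e4]; exact (hg h.succ).2)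
    refine ⟨forms_hinge t b f1 f2, fun hcon => absurd hsl hcon, ?_⟩
    rw [hsl, rside_of_hinge]
    linarith [hs0 h]

end

end Pool.Agent.Work.MP_b30479_gtS.G2

end

section

/-!
# Sides in the own frame

The sides of a run with sign `b` in the hinge slots `0` and `2` are the functions `S1`, `S2`, `S3`,
`S4` of the variables in the own frame: unchanged for `b > 0`, conjugated for `b < 0`.
-/

namespace Pool.Agent.Work.MP_b30479_gtS.G2

open Finset VOL Filter Topology

/-- a point in the own frame of a run with sign `b` -/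
noncomputable def ofr (b : ℤ) (z : ℂ) : ℂ := if 0 < b then z else starRingEnd ℂ z

/-- a height or slope in the own frame of a run with sign `b` -/
noncomputable def ofs (b : ℤ) (m : ℝ) : ℝ := if 0 < b then m else -m

theorem ofr_pos {b : ℤ} (hb : 0 < b) (z : ℂ) : ofr b z = z := if_pos hb
theorem ofs_pos {b : ℤ} (hb : 0 < b) (m : ℝ) : ofs b m = m := if_pos hb
theorem ofr_neg {b : ℤ} (hb : b < 0) (z : ℂ) : ofr b z = starRingEnd ℂ z := if_neg (by omega)
theorem ofs_neg {b : ℤ} (hb : b < 0) (m : ℝ) : ofs b m = -m := if_neg (by omega)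

theorem ofr_re (b : ℤ) (z : ℂ) : (ofr b z).re = z.re := by
  unfold ofr
  split_ifs <;> simp

theorem ofr_im (b : ℤ) (z : ℂ) : (ofr b z).im = ofs b z.im := by
  unfold ofr ofs
  split_ifs <;> simp

theorem ofr_zero (b : ℤ) : ofr b 0 = 0 := by
  unfold ofr
  split_ifs <;> simp

theorem ofs_zero (b : ℤ) : ofs b 0 = 0 := by
  unfold ofs
  split_ifs <;> simp

theorem ofs_mul (b : ℤ) (c m : ℝ) : ofs b (c * m) = c * ofs b m := by
  unfold ofs
  split_ifs <;> ring

theorem ofs_mul' (b : ℤ) (c m : ℝ) : ofs b (m * c) = ofs b m * c := by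
  unfold ofs
  split_ifs <;> ring

theorem ofs_div (b : ℤ) (c m : ℝ) : ofs b (m / c) = ofs b m / c := by
  unfold ofs
  split_ifs <;> ring

theorem ofs_neg' (b : ℤ) (m : ℝ) : ofs b (-m) = -ofs b m := by
  unfold ofs
  split_ifs <;> ring

theorem abs_ofs (b : ℤ) (m : ℝ) : |ofs b m| = |m| := by
  unfold ofs
  split_ifs
  · rfl
  · exact abs_neg m

/-- opposite signs: opposite heights -/
theorem ofs_opp {b b' : ℤ} (h : b * b' < 0) (m : ℝ) : ofs b' m = -ofs b m := by
  rcases lt_trichotomy b 0 with h1 | h1 | h1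
  · have : 0 < b' := by
      by_contra h2
      push Not at h2
      nlinarith
    rw [ofs_neg h1, ofs_pos this, neg_neg]
  · simp [h1] at h
  · have : b' < 0 := by
      by_contra h2
      push Not at h2
      nlinarith
    rw [ofs_pos h1, ofs_neg this]

/-- equal signs: equal heights -/
theorem ofs_same {b b' : ℤ} (h : 0 < b * b') (m : ℝ) : ofs b' m = ofs b m := by
  rcases lt_trichotomy b 0 with h1 | h1 | h1
  · have : b' < 0 := by
      by_contra h2
      push Not at h2
      nlinarith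
    rw [ofs_neg h1, ofs_neg this]
  · simp [h1] at h
  · have : 0 < b' := by
      by_contra h2
      push Not at h2
      nlinarith
    rw [ofs_pos h1, ofs_pos this]

theorem ofr_strip {b : ℤ} {z : ℂ} : ofr b z ∈ strip ↔ z ∈ strip := by
  unfold strip
  simp only [Set.mem_ofPred_eq, ofr_re]

theorem ofr_eq (b : ℤ) (z : ℂ) : ofr b z = (z.re : ℂ) + ((ofs b z.im : ℝ) : ℂ) * Complex.I := by
  apply Complex.ext <;> simp [ofr_re, ofr_im]

/-! ### the functions `S1`, …, `S4` of conjugate variables -/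

theorem S1_conj (σ m : ℝ) (w v : ℂ) :
    S1 σ (-m) (starRingEnd ℂ w) (starRingEnd ℂ v) = S1 (-σ) m w v := by
  unfold S1
  rw [cadd, LL_conj, LL_conj, YY_conj, YY_conj]
  simp only [Complex.conj_im, Complex.conj_re]
  ring

theorem S2_conj (σ m : ℝ) (w v : ℂ) :
    S2 σ (-m) (starRingEnd ℂ w) (starRingEnd ℂ v) = S2 (-σ) m w v := by
  unfold S2
  rw [cadd, LL_conj, LL_conj, YY_conj, YY_conj]
  simp only [Complex.conj_im, Complex.conj_re]
  ring

theorem S3_conj (σ m : ℝ) (w v : ℂ) :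
    S3 σ (-m) (starRingEnd ℂ w) (starRingEnd ℂ v) = S3 (-σ) m w v := by
  unfold S3
  rw [csub, LL_conj, LL_conj, YY_conj, YY_conj]
  simp only [Complex.conj_im, Complex.conj_re]
  ring

theorem S4_conj (m : ℝ) (w ζ : ℂ) :
    S4 (-m) (starRingEnd ℂ w) (starRingEnd ℂ ζ) = S4 m w ζ := by
  unfold S4
  have e1 : starRingEnd ℂ w + 1 / 2 + starRingEnd ℂ ζ = starRingEnd ℂ (w + 1 / 2 + ζ) := by
    rw [map_add, map_add, ← chalf]
  have e2 : starRingEnd ℂ w + 1 / 2 - starRingEnd ℂ ζ = starRingEnd ℂ (w + 1 / 2 - ζ) := by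
    rw [map_sub, map_add, ← chalf]
  rw [e1, e2, LL_conj, LL_conj, LL_conj, YY_conj, YY_conj, YY_conj]
  ring

theorem S4_neg (m : ℝ) (w ζ : ℂ) : S4 m w (-ζ) = S4 m w ζ := by
  unfold S4
  rw [sub_neg_eq_add, ← sub_eq_add_neg]
  ring

theorem S1_ofr {b : ℤ} (hb : b ≠ 0) (m : ℝ) (w v : ℂ) :
    S1 (sgb b) m w v = S1 1 (ofs b m) (ofr b w) (ofr b v) := by
  rcases lt_or_gt_of_ne hb with h | h
  · rw [ofs_neg h, ofr_neg h, ofr_neg h, S1_conj]
    congr 1
    unfold sgb
    rw [if_neg (by omega)]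
  · rw [ofs_pos h, ofr_pos h, ofr_pos h]
    congr 1
    unfold sgb
    rw [if_pos h]

theorem S2_ofr {b : ℤ} (hb : b ≠ 0) (m : ℝ) (w v : ℂ) :
    S2 (sgb b) m w v = S2 1 (ofs b m) (ofr b w) (ofr b v) := by
  rcases lt_or_gt_of_ne hb with h | h
  · rw [ofs_neg h, ofr_neg h, ofr_neg h, S2_conj]
    congr 1
    unfold sgb
    rw [if_neg (by omega)]
  · rw [ofs_pos h, ofr_pos h, ofr_pos h]
    congr 1
    unfold sgb
    rw [if_pos h]

theorem S3_ofr {b : ℤ} (hb : b ≠ 0) (m : ℝ) (w v : ℂ) :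
    S3 (sgb b) m w v = S3 1 (ofs b m) (ofr b w) (ofr b v) := by
  rcases lt_or_gt_of_ne hb with h | h
  · rw [ofs_neg h, ofr_neg h, ofr_neg h, S3_conj]
    congr 1
    unfold sgb
    rw [if_neg (by omega)]
  · rw [ofs_pos h, ofr_pos h, ofr_pos h]
    congr 1
    unfold sgb
    rw [if_pos h]

/-- the variable of a ring in its own frame: `ζ` for `b > 0`, `-conj ζ` for `b < 0` -/
noncomputable def ofz (b : ℤ) (z : ℂ) : ℂ := if 0 < b then z else -starRingEnd ℂ z

theorem ofz_re (b : ℤ) (z : ℂ) : (ofz b z).re = ofs b z.re := by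
  unfold ofz ofs
  split_ifs <;> simp

theorem ofz_im (b : ℤ) (z : ℂ) : (ofz b z).im = z.im := by
  unfold ofz
  split_ifs <;> simp

theorem ofz_eq (b : ℤ) (z : ℂ) : ofz b z = ((ofs b z.re : ℝ) : ℂ) + (z.im : ℂ) * Complex.I := by
  apply Complex.ext <;> simp [ofz_re, ofz_im]

theorem S4_ofr (b : ℤ) (m : ℝ) (w v : ℂ) : S4 m w v = S4 (ofs b m) (ofr b w) (ofz b v) := by
  unfold ofs ofr ofz
  split_ifs
  · rfl
  · rw [S4_neg, S4_conj]

/-! ### the sides -/

section
variable {b : ℤ} (hb : b ≠ 0) (l r : Bool) (m : ℝ) (x : Fin 3 → ℂ)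

theorem side_one_zero' : side .one b true r 0 m x = S1 (sgb b) m (x 0) (x 2) := by
  unfold side S1
  rw [d1_one_zero, d2_one_zero]

theorem side_one_two' : side .one b l true 2 m x = S1 (sgb b) m (x 2) (x 0) := by
  unfold side S1
  rw [d1_one_two, d2_one_two, add_comm (x 2) (x 0)]

theorem side_two_zero' : side .two b true r 0 m x = S2 (sgb b) m (x 0) (x 2) := by
  unfold side S2
  rw [d1_two_zero, d2_two_zero]

theorem side_two_two' : side .two b l true 2 m x = S2 (sgb b) m (x 2) (x 0) := by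
  unfold side S2
  rw [d1_two_two, d2_two_two, add_comm (x 2) (x 0)]

theorem side_threeL_zero' : side .threeL b true r 0 m x = S3 (sgb b) m (x 0) (x 1) := by
  unfold side S3
  rw [d1_threeL_zero, d2_threeL_zero]

theorem side_threeL_two' : side .threeL b l true 2 m x = S2 (sgb b) m (x 2) (x 1) := by
  unfold side S2
  rw [d1_threeL_two, d2_threeL_two, add_comm (x 2) (x 1)]

theorem side_threeR_zero' : side .threeR b true r 0 m x = S2 (sgb b) m (x 0) (x 1) := by
  unfold side S2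
  rw [d1_threeR_zero, d2_threeR_zero]

theorem side_threeR_two' : side .threeR b l true 2 m x = S3 (sgb b) m (x 2) (x 1) := by
  unfold side S3
  rw [d1_threeR_two, d2_threeR_two]

theorem side_ring_zero' : side .ring b true r 0 m x = S4 m (x 0) (x 1) := by
  unfold side S4
  rw [d1_ring_zero, d2_ring_zero]

theorem side_ring_two' : side .ring b l true 2 m x = S4 m (x 2) (x 1) := by
  unfold side S4
  rw [d1_ring_two, d2_ring_two]

include hb

theorem side_one_zero : side .one b true r 0 m x = S1 1 (ofs b m) (ofr b (x 0)) (ofr b (x 2)) := by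
  rw [side_one_zero', S1_ofr hb]

theorem side_one_two : side .one b l true 2 m x = S1 1 (ofs b m) (ofr b (x 2)) (ofr b (x 0)) := by
  rw [side_one_two', S1_ofr hb]

theorem side_two_zero : side .two b true r 0 m x = S2 1 (ofs b m) (ofr b (x 0)) (ofr b (x 2)) := by
  rw [side_two_zero', S2_ofr hb]

theorem side_two_two : side .two b l true 2 m x = S2 1 (ofs b m) (ofr b (x 2)) (ofr b (x 0)) := by
  rw [side_two_two', S2_ofr hb]

theorem side_threeL_zero :
    side .threeL b true r 0 m x = S3 1 (ofs b m) (ofr b (x 0)) (ofr b (x 1)) := by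
  rw [side_threeL_zero', S3_ofr hb]

theorem side_threeL_two :
    side .threeL b l true 2 m x = S2 1 (ofs b m) (ofr b (x 2)) (ofr b (x 1)) := by
  rw [side_threeL_two', S2_ofr hb]

theorem side_threeR_zero :
    side .threeR b true r 0 m x = S2 1 (ofs b m) (ofr b (x 0)) (ofr b (x 1)) := by
  rw [side_threeR_zero', S2_ofr hb]

theorem side_threeR_two :
    side .threeR b l true 2 m x = S3 1 (ofs b m) (ofr b (x 2)) (ofr b (x 1)) := by
  rw [side_threeR_two', S3_ofr hb]

omit hb in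
theorem side_ring_zero'' :
    side .ring b true r 0 m x = S4 (ofs b m) (ofr b (x 0)) (ofz b (x 1)) := by
  rw [side_ring_zero', S4_ofr b]

omit hb in
theorem side_ring_two'' :
    side .ring b l true 2 m x = S4 (ofs b m) (ofr b (x 2)) (ofz b (x 1)) := by
  rw [side_ring_two', S4_ofr b]

end

/-! ### conditions on the factors -/

section
set_option linter.unusedSimpArgs false

theorem sinNe_one_sub {u : ℂ} : SinNe (1 - u) ↔ SinNe u := by
  unfold SinNe
  rw [mul_sub, mul_one, Complex.sin_pi_sub]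

theorem qqm_one_sub {m : ℝ} {u : ℂ} (h : QQm m u) : QQm m (1 - u) := by
  refine ⟨sinNe_one_sub.2 h.1, fun hm => ?_⟩
  rcases h.2 hm with h1 | h1
  · left
    simpa using h1
  · right
    have a1 := h1.1
    have a2 := h1.2
    constructor <;> simp <;> linarith

theorem facAll_one_zero {r : Bool} {x : Fin 3 → ℂ} {m : ℝ} (h1 : QQm m (x 0))
    (h2 : QQm m (x 0 + x 2)) : FacAll .one true r 0 x (QQm m) := by
  have v1 : ∀ w : ℂ, 1 + -w = 1 - w := fun w => by ring
  have h1' := qqm_one_sub h1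
  intro f hf hf0
  cases r <;>
  · simp [facs, hL, hR] at hf
    rcases hf with rfl | rfl | rfl <;> simp_all [Fac.form_mk]

theorem facAll_two_zero {r : Bool} {x : Fin 3 → ℂ} {m : ℝ} (h1 : QQm m (x 0))
    (h2 : QQm m (x 0 + x 2)) : FacAll .two true r 0 x (QQm m) := by
  have v1 : ∀ w : ℂ, 1 + -w = 1 - w := fun w => by ring
  have h1' := qqm_one_sub h1
  intro f hf hf0
  cases r <;>
  · simp [facs, hL, hR] at hf
    rcases hf with rfl | rfl | rfl <;> simp_all [Fac.form_mk]

theorem facAll_threeL_zero {r : Bool} {x : Fin 3 → ℂ} {m : ℝ} (h1 : QQm m (x 0))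
    (h2 : QQm m (x 1 - x 0)) : FacAll .threeL true r 0 x (QQm m) := by
  have v1 : ∀ w : ℂ, 1 + -w = 1 - w := fun w => by ring
  have v2 : ∀ w u : ℂ, 1 + (w + -u) = 1 - (u - w) := fun w u => by ring
  have h1' := qqm_one_sub h1
  have h2' := qqm_one_sub h2
  intro f hf hf0
  cases r <;>
  · simp [facs, hL, hR] at hf
    rcases hf with rfl | rfl | rfl | rfl | rfl <;> simp_all [Fac.form_mk]

theorem facAll_threeR_zero {r : Bool} {x : Fin 3 → ℂ} {m : ℝ} (h1 : QQm m (x 0))
    (h2 : QQm m (x 0 + x 1)) : FacAll .threeR true r 0 x (QQm m) := by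
  have v1 : ∀ w : ℂ, 1 + -w = 1 - w := fun w => by ring
  have h1' := qqm_one_sub h1
  intro f hf hf0
  cases r <;>
  · simp [facs, hL, hR] at hf
    rcases hf with rfl | rfl | rfl | rfl | rfl <;> simp_all [Fac.form_mk]

theorem facAll_ring_zero {r : Bool} {x : Fin 3 → ℂ} {m : ℝ} (h1 : QQm m (x 0))
    (h2 : QQm m (x 0 + 1 / 2 + x 1)) (h3 : QQm m (x 0 + 1 / 2 - x 1)) :
    FacAll .ring true r 0 x (QQm m) := by
  have v1 : ∀ w : ℂ, 1 + -w = 1 - w := fun w => by ring
  have v3 : ∀ w u : ℂ, 1 / 2 + (w + u) = w + 1 / 2 + u := fun w u => by ring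
  have v4 : ∀ w u : ℂ, 1 / 2 + (w + -u) = w + 1 / 2 - u := fun w u => by ring
  have h1' := qqm_one_sub h1
  intro f hf hf0
  cases r <;>
  · simp [facs, hL, hR] at hf
    rcases hf with rfl | rfl | rfl | rfl | rfl | rfl <;> simp_all [Fac.form_mk]

theorem facAll_one_two {l : Bool} {x : Fin 3 → ℂ} {m : ℝ} (h1 : QQm m (x 2))
    (h2 : QQm m (x 2 + x 0)) : FacAll .one l true 2 x (QQm m) :=
  (facAll_mir .one l true 2 x _).1 (facAll_one_zero (x := mir3 x) (r := l) h1 h2)

theorem facAll_two_two {l : Bool} {x : Fin 3 → ℂ} {m : ℝ} (h1 : QQm m (x 2))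
    (h2 : QQm m (x 2 + x 0)) : FacAll .two l true 2 x (QQm m) :=
  (facAll_mir .two l true 2 x _).1 (facAll_two_zero (x := mir3 x) (r := l) h1 h2)

theorem facAll_threeR_two {l : Bool} {x : Fin 3 → ℂ} {m : ℝ} (h1 : QQm m (x 2))
    (h2 : QQm m (x 1 - x 2)) : FacAll .threeR l true 2 x (QQm m) :=
  (facAll_mir .threeR l true 2 x _).1 (facAll_threeL_zero (x := mir3 x) (r := l) h1 h2)

theorem facAll_threeL_two {l : Bool} {x : Fin 3 → ℂ} {m : ℝ} (h1 : QQm m (x 2))
    (h2 : QQm m (x 2 + x 1)) : FacAll .threeL l true 2 x (QQm m) :=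
  (facAll_mir .threeL l true 2 x _).1 (facAll_threeR_zero (x := mir3 x) (r := l) h1 h2)

theorem facAll_ring_two {l : Bool} {x : Fin 3 → ℂ} {m : ℝ} (h1 : QQm m (x 2))
    (h2 : QQm m (x 2 + 1 / 2 + x 1)) (h3 : QQm m (x 2 + 1 / 2 - x 1)) :
    FacAll .ring l true 2 x (QQm m) :=
  (facAll_mir .ring l true 2 x _).1 (facAll_ring_zero (x := mir3 x) (r := l) h1 h2 h3)

end

end Pool.Agent.Work.MP_b30479_gtS.G2

end

section

/-!
# Parameters of the paths of a word of the class `ClassW`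

The only place where the numerical parameters are fixed.
-/

namespace Pool.Agent.Work.MP_b30479_gtS.G2

namespace SR

/-- the class of a twist region seen from one of its hinges -/
inductive Cl
  | one | two | twoE | three | threeE | ring
  deriving DecidableEq

/-- the class of the twist region `a`; `e`: it is at an end of the word -/
def cls (a : ℤ) (e : Bool) : Cl :=
  if a.natAbs = 1 then .one else if a.natAbs = 2 then (if e then .twoE else .two)
  else if a.natAbs = 3 then (if e then .threeE else .three) else .ring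

/-- path parameters -/
structure HPar where
  XM : ℝ
  cl : ℝ
  cr : ℝ

/-- parameters of a hinge between a digit `±1` (on the left) and a region of class `B` (on the
right); `P` is the class of the left neighbour of the digit `±1` (not used at present) -/
noncomputable def hp1 (_ : Cl) : Cl → HPar
  | .one => ⟨80 / 100, 15 / 100, 20 / 100⟩
  | .two => ⟨80 / 100, 16 / 100, 29 / 100⟩
  | .twoE => ⟨70 / 100, 14 / 100, 35 / 100⟩
  | .three => ⟨65 / 100, 13 / 100, 15 / 100⟩
  | .threeE => ⟨60 / 100, 14 / 100, 25 / 100⟩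
  | .ring => ⟨65 / 100, 16 / 100, 29 / 100⟩

/-- parameters of a hinge between the regions of classes `A` and `B`; `P`, `Q` are the classes of
the outer neighbours -/
noncomputable def hp (P A B Q : Cl) : HPar :=
  match A, B with
  | .one, .one => if P = .one ∨ Q = .one then ⟨80 / 100, 15 / 100, 20 / 100⟩ else
      ⟨86 / 100, 15 / 100, 20 / 100⟩
  | .one, .two => hp1 P .two
  | .one, .twoE => hp1 P .twoE
  | .one, .three => hp1 P .three
  | .one, .threeE => hp1 P .threeE
  | .one, .ring => hp1 P .ring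
  | .two, .one => hp1 Q .two
  | .twoE, .one => hp1 Q .twoE
  | .three, .one => ⟨65 / 100, 15 / 100, 29 / 100⟩
  | .threeE, .one => hp1 Q .threeE
  | .ring, .one => hp1 Q .ring
  | .ring, .ring => ⟨50 / 100, 10 / 100, 2 / 100⟩
  | .two, .two => ⟨60 / 100, 10 / 100, 28 / 100⟩
  | .two, .twoE => ⟨60 / 100, 10 / 100, 33 / 100⟩
  | .twoE, .two => ⟨60 / 100, 10 / 100, 33 / 100⟩
  | .three, _ => ⟨60 / 100, 13 / 100, 30 / 100⟩
  | .two, .three => ⟨60 / 100, 12 / 100, 27 / 100⟩
  | _, .three => ⟨60 / 100, 12 / 100, 30 / 100⟩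
  | .threeE, .ring => ⟨60 / 100, 10 / 100, 34 / 100⟩
  | .ring, .threeE => ⟨60 / 100, 10 / 100, 34 / 100⟩
  | _, .ring => ⟨60 / 100, 125 / 1000, 30 / 100⟩
  | .ring, _ => ⟨60 / 100, 125 / 1000, 30 / 100⟩
  | _, _ => ⟨60 / 100, 10 / 100, 30 / 100⟩

/-- parameters of the inner variable of a region with three crossings -/
noncomputable def mp : Cl → HPar
  | .threeE => ⟨77 / 100, 1 / 10, 2 / 10⟩
  | _ => ⟨8 / 10, 5 / 100, 5 / 100⟩

variable {M : ℕ} (b : Fin (M + 1) → ℤ)

/-- the twist region `i` is at an end of the word -/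
def isEnd (i : Fin (M + 1)) : Bool := decide (i = 0 ∨ i = Fin.last M)

/-- class of the region `i` -/
def clsW (i : Fin (M + 1)) : Cl := cls (b i) (isEnd i)

/-- class of the region `n`; `.ring` outside the word -/
def clsN (n : ℕ) : Cl := if h : n < M + 1 then clsW b ⟨n, h⟩ else .ring

/-- class of the region to the left of the hinge `h`, next but one -/
def outL (h : Fin M) : Cl := if h.val = 0 then .ring else clsN b (h.val - 1)

/-- class of the region to the right of the hinge `h`, next but one -/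
def outR (h : Fin M) : Cl := clsN b (h.val + 2)

/-- parameters of the variables -/
noncomputable def par1 : DD (tyW b) → HPar
  | .inl h => hp (outL b h) (clsW b h.castSucc) (clsW b h.succ) (outR b h)
  | .inr m => mp (clsW b m.1)

/-- the parameters of the paths of the word `b` (`zs` is the saddle point) -/
noncomputable def wpar (zs : DD (tyW b) ⊕ ZZ (tyW b) → ℂ) : Par (DD (tyW b)) where
  XM i := (par1 b i).XM
  cl i := (par1 b i).cl
  cr i := (par1 b i).cr
  hu i := if 0 < (zs (.inl i)).im then (zs (.inl i)).im else 1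
  hd i := if (zs (.inl i)).im < 0 then -(zs (.inl i)).im else 1

/-- the parameters of the word `b` with given heights `H` of the paths which are not the main
paths; the main paths are those of `wpar` -/
noncomputable def wparH (H : DD (tyW b) → ℝ) (zs : DD (tyW b) ⊕ ZZ (tyW b) → ℂ) :
    Par (DD (tyW b)) :=
  { wpar b zs with
    hu := fun i => if 0 < (zs (.inl i)).im then (zs (.inl i)).im else H i
    hd := fun i => if (zs (.inl i)).im < 0 then -(zs (.inl i)).im else H i }

theorem wparH_pos {H : DD (tyW b) → ℝ} (hH : ∀ i, 0 < H i) (zs : DD (tyW b) ⊕ ZZ (tyW b) → ℂ)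
    (i : DD (tyW b)) : 0 < (wparH b H zs).hu i ∧ 0 < (wparH b H zs).hd i := by
  unfold wparH
  simp only
  constructor
  · split_ifs with h
    · exact h
    · exact hH i
  · split_ifs with h
    · linarith
    · exact hH i

theorem hp_good (P A B Q : Cl) :
    0 < (hp P A B Q).cl ∧ 0 < (hp P A B Q).cr ∧ (hp P A B Q).cl + (hp P A B Q).cr < (hp P A B Q).XM ∧
      (hp P A B Q).XM < 1 := by
  cases A <;> cases B <;> simp only [hp, hp1] <;> (try split_ifs) <;> norm_num

theorem mp_good (A : Cl) : 0 < (mp A).cl ∧ 0 < (mp A).cr ∧ (mp A).cl + (mp A).cr < (mp A).XM ∧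
    (mp A).XM < 1 := by
  cases A <;> norm_num [mp]

theorem par1_good (i : DD (tyW b)) : 0 < (par1 b i).cl ∧ 0 < (par1 b i).cr ∧
    (par1 b i).cl + (par1 b i).cr < (par1 b i).XM ∧ (par1 b i).XM < 1 := by
  rcases i with h | m
  · exact hp_good _ _ _ _
  · exact mp_good _

variable (zs : DD (tyW b) ⊕ ZZ (tyW b) → ℂ)

theorem wpar_good : (wpar b zs).Good := fun i =>
  ⟨(par1_good b i).1, (par1_good b i).2.1, (par1_good b i).2.2.1⟩

theorem wpar_XM (i : DD (tyW b)) : (wpar b zs).XM i < 1 := (par1_good b i).2.2.2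

theorem wpar_hu (i : DD (tyW b)) : 0 < (wpar b zs).hu i ∧ 0 < (wpar b zs).hd i := by
  unfold wpar
  simp only
  constructor
  · split_ifs with h
    · exact h
    · exact one_pos
  · split_ifs with h
    · linarith
    · exact one_pos

theorem tyW_std (i : Fin (M + 1)) : (tyW b i).Std := by
  unfold tyW
  split_ifs <;> trivial

/-- neighbours of type `one` have opposite signs -/
theorem tyW_one (hb : ClassW b) (h : Fin M) (h1 : tyW b h.castSucc = .one)
    (_ : tyW b h.succ = .one) : sgb (b h.castSucc) + sgb (b h.succ) = 0 := by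
  have a1 : (b h.castSucc).natAbs = 1 := by
    unfold tyW at h1
    split_ifs at h1 with h3
    exact h3
  have a2 := hb.same h
  have a3 : b h.castSucc * b h.succ ≤ 0 := by
    by_contra hcon
    have := (a2 (by omega)).1
    omega
  have n1 := hb.ne h.castSucc
  have n2 := hb.ne h.succ
  unfold sgb
  rcases lt_or_gt_of_ne n1 with c1 | c1 <;> rcases lt_or_gt_of_ne n2 with c2 | c2
  · exact absurd (mul_pos_of_neg_of_neg c1 c2) (by omega)
  · rw [if_neg (by omega), if_pos c2]
    norm_num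
  · rw [if_pos c1, if_neg (by omega)]
    norm_num
  · exact absurd (mul_pos c1 c2) (by omega)

end SR

end Pool.Agent.Work.MP_b30479_gtS.G2

end

section

/-!
# The table of the location of the saddle point

The only place where the boxes are fixed.  Every box is given in the own frame of the left region.
-/

namespace Pool.Agent.Work.MP_b30479_gtS.G2

namespace SR

/-- a box: `x0 ≤ Re ≤ x1`, `t0 ≤ Im ≤ t1` -/
structure Box where
  x0 : ℝ
  x1 : ℝ
  t0 : ℝ
  t1 : ℝ

/-- a point is in the box -/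
def Box.In (B : Box) (z : ℂ) : Prop := B.x0 ≤ z.re ∧ z.re ≤ B.x1 ∧ B.t0 ≤ z.im ∧ z.im ≤ B.t1

/-- the complex conjugate box -/
noncomputable def Box.neg (B : Box) : Box := ⟨B.x0, B.x1, -B.t1, -B.t0⟩

theorem Box.neg_neg (B : Box) : B.neg.neg = B := by simp [Box.neg]

theorem Box.in_neg (B : Box) (z : ℂ) : B.neg.In (starRingEnd ℂ z) ↔ B.In z := by
  unfold Box.In Box.neg
  simp only [Complex.conj_re, Complex.conj_im, neg_le_neg_iff]
  tauto

/-- box of the hinge between the regions of class `A` (left) and `B` (right) in the own frame of the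
left region; `ss`: equal signs -/
noncomputable def hbox : Cl → Cl → Bool → Box
  | .one, .one, _ => ⟨275 / 1000, 1 / 2, -(118 / 1000), 118 / 1000⟩
  | .one, .two, _ => ⟨236 / 1000, 392 / 1000, -(18 / 1000), 985 / 10000⟩
  | .two, .one, _ => ⟨236 / 1000, 392 / 1000, -(985 / 10000), 18 / 1000⟩
  | .one, .twoE, _ => ⟨217 / 1000, 311 / 1000, -(66 / 1000), 1 / 1000⟩
  | .twoE, .one, _ => ⟨217 / 1000, 311 / 1000, -(1 / 1000), 66 / 1000⟩
  | .one, .three, _ => ⟨226 / 1000, 314 / 1000, 21 / 1000, 1145 / 10000⟩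
  | .three, .one, _ => ⟨226 / 1000, 314 / 1000, -(1145 / 10000), -(21 / 1000)⟩
  | .one, .threeE, _ => ⟨212 / 1000, 274 / 1000, 10 / 1000, 78 / 1000⟩
  | .threeE, .one, _ => ⟨212 / 1000, 274 / 1000, -(78 / 1000), -(10 / 1000)⟩
  | .one, .ring, _ => ⟨214 / 1000, 298 / 1000, 38 / 1000, 158 / 1000⟩
  | .ring, .one, _ => ⟨214 / 1000, 298 / 1000, -(158 / 1000), -(38 / 1000)⟩
  | .two, .two, _ => ⟨200 / 1000, 298 / 1000, -(41 / 1000), 41 / 1000⟩
  | .twoE, .two, _ => ⟨183 / 1000, 228 / 1000, 45 / 1000, 85 / 1000⟩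
  | .two, .twoE, _ => ⟨183 / 1000, 228 / 1000, -(85 / 1000), -(45 / 1000)⟩
  | .twoE, .twoE, _ => ⟨165 / 1000, 168 / 1000, -(1 / 1000), 1 / 1000⟩
  | .twoE, .three, _ => ⟨174 / 1000, 197 / 1000, 76 / 1000, 98 / 1000⟩
  | .three, .twoE, _ => ⟨174 / 1000, 197 / 1000, -(98 / 1000), -(76 / 1000)⟩
  | .twoE, .threeE, _ => ⟨162 / 1000, 166 / 1000, 65 / 1000, 69 / 1000⟩
  | .threeE, .twoE, _ => ⟨162 / 1000, 166 / 1000, -(69 / 1000), -(65 / 1000)⟩
  | .twoE, .ring, _ => ⟨164 / 1000, 186 / 1000, 88 / 1000, 131 / 1000⟩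
  | .ring, .twoE, _ => ⟨164 / 1000, 186 / 1000, -(131 / 1000), -(88 / 1000)⟩
  | .two, .three, _ => ⟨195 / 1000, 264 / 1000, -(5 / 1000), 57 / 1000⟩
  | .three, .two, _ => ⟨195 / 1000, 264 / 1000, -(57 / 1000), 5 / 1000⟩
  | .two, .threeE, _ => ⟨181 / 1000, 227 / 1000, -(13 / 1000), 26 / 1000⟩
  | .threeE, .two, _ => ⟨181 / 1000, 227 / 1000, -(26 / 1000), 13 / 1000⟩
  | .two, .ring, _ => ⟨186 / 1000, 252 / 1000, 10 / 1000, 96 / 1000⟩
  | .ring, .two, _ => ⟨186 / 1000, 252 / 1000, -(96 / 1000), -(10 / 1000)⟩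
  | .threeE, .three, _ => ⟨179 / 1000, 201 / 1000, 5 / 1000, 28 / 1000⟩
  | .three, .threeE, _ => ⟨179 / 1000, 201 / 1000, -(28 / 1000), -(5 / 1000)⟩
  | .threeE, .threeE, _ => ⟨165 / 1000, 168 / 1000, -(1 / 1000), 1 / 1000⟩
  | .threeE, .ring, _ => ⟨171 / 1000, 195 / 1000, 18 / 1000, 58 / 1000⟩
  | .ring, .threeE, _ => ⟨171 / 1000, 195 / 1000, -(58 / 1000), -(18 / 1000)⟩
  | .three, .three, _ => ⟨195 / 1000, 237 / 1000, -(22 / 1000), 22 / 1000⟩
  | .three, .ring, _ => ⟨188 / 1000, 234 / 1000, -(4 / 1000), 57 / 1000⟩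
  | .ring, .three, _ => ⟨188 / 1000, 234 / 1000, -(57 / 1000), 4 / 1000⟩
  | .ring, .ring, false => ⟨182 / 1000, 252 / 1000, -(385 / 10000), 385 / 10000⟩
  | .ring, .ring, true => ⟨170 / 1000, 252 / 1000, -(1 / 1000), 59 / 1000⟩

/-- box of the inner variable of an interior region with three crossings whose left neighbour has
class `A`, in its own frame -/
noncomputable def mbox : Cl → Box
  | _ => ⟨325 / 1000, 512 / 1000, -(160 / 1000), 15 / 1000⟩

/-- box of the inner variable of a region with three crossings at an end -/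
noncomputable def mboxE : Box := ⟨301 / 1000, 4215 / 10000, -(45 / 1000), 59 / 1000⟩

/-- box of the variable of a ring with `n` crossings, in its own frame; `e`: at an end -/
noncomputable def zbox (n : ℕ) (e : Bool) : Box :=
  if n = 4 then (if e then ⟨-(248 / 1000), -(186 / 1000), 0, 65 / 1000⟩
    else ⟨-(226 / 1000), -(144 / 1000), 0, 1045 / 10000⟩)
  else if n = 5 then (if e then ⟨-(206 / 1000), -(158 / 1000), 0, 43 / 1000⟩
    else ⟨-(194 / 1000), -(127 / 1000), 0, 725 / 10000⟩)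
  else if n = 6 then (if e then ⟨-(174 / 1000), -(136 / 1000), 0, 30 / 1000⟩
    else ⟨-(168 / 1000), -(109 / 1000), 0, 52 / 1000⟩)
  else if n = 7 then (if e then ⟨-(155 / 1000), -(118 / 1000), 0, 22 / 1000⟩
    else ⟨-(150 / 1000), -(97 / 1000), 0, 40 / 1000⟩)
  else (if e then ⟨-(155 / 1000), 0, 0, 11 / 10 / (n : ℝ) ^ 2⟩
    else ⟨-(155 / 1000), 0, 0, 23 / 10 / (n : ℝ) ^ 2⟩)

variable {M : ℕ} (b : Fin (M + 1) → ℤ)

/-- the two regions at the hinge `h` have equal signs -/
def ssW (h : Fin M) : Bool := decide (0 < b h.castSucc * b h.succ)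

/-- **Location of the saddle point.** -/
structure Loc (zs : DD (tyW b) ⊕ ZZ (tyW b) → ℂ) : Prop where
  hinge : ∀ h : Fin M, (hbox (clsW b h.castSucc) (clsW b h.succ) (ssW b h)).In
    (ofr (b h.castSucc) (zs (.inl (.inl h))))
  /-- the hinge `1 | 1` is strictly to the left of `1/2` -/
  half : ∀ h : Fin M, (zs (.inl (.inl h))).re < 1 / 2
  mid : ∀ m : {i : Fin (M + 1) // (tyW b i).isMid = true}, isEnd m.1 = false → ∀ h : Fin M,
    h.succ = m.1 → (mbox (clsW b h.castSucc)).In (ofr (b m.1) (zs (.inl (.inr m))))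
  midE : ∀ m : {i : Fin (M + 1) // (tyW b i).isMid = true}, isEnd m.1 = true →
    mboxE.In (ofr (b m.1) (zs (.inl (.inr m))))
  ring : ∀ v : ZZ (tyW b), (zbox (b v.1).natAbs (isEnd v.1)).In (ofz (b v.1) (zs (.inr v)))
  /-- the height of a ring variable is positive -/
  rpos : ∀ v : ZZ (tyW b), 0 < (zs (.inr v)).im

/-- `hbox` seen from the right region, opposite signs -/
theorem hbox_swap (A B : Cl) : hbox B A false = (hbox A B false).neg := by
  cases A <;> cases B <;> simp [hbox, Box.neg]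

theorem hbox_swap_same : hbox .ring .ring true = hbox .ring .ring true := rfl

end SR

end Pool.Agent.Work.MP_b30479_gtS.G2

end
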