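import Pool.Agent.Work.MP_b30479_gt.TBS.G2.Rng
import Pool.Agent.Work.MP_b30479_gt.TBS.G2.MPReg
import Pool.Agent.Work.MP_b30479_gt.TBS.G2.Num.RF

section

/-!
# The ring variable at a maximiser: reflection, and it is not at `±1/2`
-/

namespace Pool.Agent.Work.MP_b30479_gtS.G2

open Finset VOL Filter Topology

/-! ### the path of the ring variable -/

theorem th_of_le {c : ℝ} (h : |c| ≤ 1 / 4) : LT.th c = 1 := by
  unfold LT.th
  exact min_eq_left (by linarith only [h])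

theorem th_of_ge {c : ℝ} (h : 1 / 4 ≤ |c|) : LT.th c = 2 - 4 * |c| := by
  unfold LT.th
  exact min_eq_right (by linarith only [h])

theorem th_nonneg {c : ℝ} (h : |c| ≤ 1 / 2) : 0 ≤ LT.th c := by
  unfold LT.th
  apply le_min <;> linarith only [h]

theorem th_pos {c : ℝ} (h : |c| < 1 / 2) : 0 < LT.th c := by
  unfold LT.th
  apply lt_min <;> linarith only [h]

theorem th_le_one (c : ℝ) : LT.th c ≤ 1 := by
  unfold LT.th
  exact min_le_left _ _

theorem th_neg (c : ℝ) : LT.th (-c) = LT.th c := by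
  unfold LT.th
  rw [abs_neg]

theorem zt_eq (ρ c : ℝ) : LT.zt ρ c = (c : ℂ) + ((ρ * LT.th c : ℝ) : ℂ) * Complex.I := rfl

theorem zt_half (ρ : ℝ) : LT.zt ρ (1 / 2) = 1 / 2 := by
  rw [zt_eq, th_of_ge (by norm_num)]
  norm_num

theorem zt_neg_half (ρ : ℝ) : LT.zt ρ (-(1 / 2)) = -(1 / 2) := by
  rw [zt_eq, th_of_ge (by norm_num)]
  norm_num

theorem fR_half (w : ℂ) : fR w (1 / 2) = Real.pi * |w.im| := by
  unfold fR
  rw [show w + 1 / 2 + 1 / 2 = w + 1 by ring, show w + 1 / 2 - 1 / 2 = w by ring, UU_add_one]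
  ring

theorem fR_neg_half (w : ℂ) : fR w (-(1 / 2)) = Real.pi * |w.im| := by
  unfold fR
  rw [show w + 1 / 2 + -(1 / 2) = w by ring, show w + 1 / 2 - -(1 / 2) = w + 1 by ring, UU_add_one]
  ring

theorem rg_half (b ρ : ℝ) (w w' : ℂ) :
    rg b ρ w w' (1 / 2) = Real.pi * |w.im| + Real.pi * |w'.im| := by
  unfold rg
  rw [zt_half, fR_half, fR_half, th_of_ge (by norm_num)]
  norm_num

theorem rg_neg_half (b ρ : ℝ) (w w' : ℂ) :
    rg b ρ w w' (-(1 / 2)) = Real.pi * |w.im| + Real.pi * |w'.im| := by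
  unfold rg
  rw [zt_neg_half, fR_neg_half, fR_neg_half, th_of_ge (by norm_num)]
  norm_num

/-! ### reflection -/

/-- `0` for a height `≤ 0`, `1` otherwise -/
noncomputable def kp (w : ℂ) : ℝ := if w.im ≤ 0 then 0 else 1

theorem kp_le_one (w : ℂ) : kp w ≤ 1 := by
  unfold kp
  split_ifs <;> norm_num

theorem kp_nonneg (w : ℂ) : 0 ≤ kp w := by
  unfold kp
  split_ifs <;> norm_num

theorem kp_of_le {w : ℂ} (h : w.im ≤ 0) : kp w = 0 := if_pos h

theorem fR_reflect_le {w : ℂ} {σ η : ℝ} (hσ : 0 ≤ σ) (hσ' : σ ≤ 1 / 2) (hη : 0 ≤ η) :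
    fR w (σ + η * Complex.I) ≤ fR w (-σ + η * Complex.I) + 2 * Real.pi * η * kp w := by
  by_cases hw : w.im ≤ 0
  · rw [kp_of_le hw, mul_zero, add_zero]
    exact fR_reflect hw hσ hη
  have hk : kp w = 1 := if_neg hw
  push Not at hw
  rw [hk, mul_one]
  have hpi := Real.pi_pos
  have e1 : |w.im + η| = w.im + η := abs_of_nonneg (by linarith only [hη, hw])
  have h1 : |w.im - η| ≤ |w.im + η| := by
    rw [e1, abs_le]
    constructor <;> linarith only [hw, hη]
  have h2 : w.im - η ≤ |w.im - η| := le_abs_self _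
  have key := Lr_diff_mono (a := w.re + 1 / 2 - σ + 1) (b := w.re + 1 / 2 + σ) (by linarith only [hσ'])
    (abs_nonneg (w.im - η)) h1
  rw [DT.Lr_add_one (abs_nonneg _), DT.Lr_add_one (abs_nonneg _)] at key
  unfold fR UU
  have ui : (w + 1 / 2 + (σ + η * Complex.I)).im = w.im + η := by simp
  have ur : (w + 1 / 2 + (σ + η * Complex.I)).re = w.re + 1 / 2 + σ := by simp
  have vi : (w + 1 / 2 - (σ + η * Complex.I)).im = w.im - η := by simp
  have vr : (w + 1 / 2 - (σ + η * Complex.I)).re = w.re + 1 / 2 - σ := by simp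
  have ui' : (w + 1 / 2 + (-σ + η * Complex.I)).im = w.im + η := by simp
  have ur' : (w + 1 / 2 + (-σ + η * Complex.I)).re = w.re + 1 / 2 - σ := by
    simp
    try ring
  have vi' : (w + 1 / 2 - (-σ + η * Complex.I)).im = w.im - η := by simp
  have vr' : (w + 1 / 2 - (-σ + η * Complex.I)).re = w.re + 1 / 2 + σ := by
    simp
    try ring
  rw [ui, ur, vi, vr, ui', ur', vi', vr']
  nlinarith only [key, hpi, e1, h2]

theorem RM.two_b_le {b ρ σ : ℝ} {w w' : ℂ} (h : RM b ρ w w' σ) (hσ : |σ| < 1 / 2) :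
    2 * b * σ ≤ kp w + kp w' := by
  have hpi := Real.pi_pos
  rcases le_or_gt σ 0 with h0 | h0
  · have := mul_nonneg (show 0 ≤ 2 * b by linarith only [h, h.b4]) (neg_nonneg.mpr h0)
    linarith only [this, kp_nonneg w, kp_nonneg w']
  · have hη : 0 < ρ * LT.th σ := mul_pos h.ρ0 (th_pos hσ)
    have h1 := h.mx (-σ) (by rw [abs_neg]; exact hσ.le)
    unfold rg at h1
    rw [zt_eq, zt_eq, th_neg] at h1
    set η := ρ * LT.th σ
    have hs := (abs_lt.mp hσ).2
    have h2 := fR_reflect_le (w := w) h0.le hs.le hη.le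
    have h3 := fR_reflect_le (w := w') h0.le hs.le hη.le
    rw [Complex.ofReal_neg] at h1
    have h4 : 2 * Real.pi * η * (2 * b * σ) ≤ 2 * Real.pi * η * (kp w + kp w') := by
      linarith only [h1, h2, h3]
    exact le_of_mul_le_mul_left h4 (by positivity)

/-- upper location of the ring variable -/
theorem RM.le_quarter {b ρ σ : ℝ} {w w' : ℂ} (h : RM b ρ w w' σ) (hσ : |σ| < 1 / 2) :
    σ ≤ 1 / 4 := by
  have h1 := h.two_b_le hσ
  have h2 := h.b4
  have h3 := kp_le_one w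
  have h4 := kp_le_one w'
  nlinarith only [h1, h2, h3, h4]

theorem RM.nonpos {b ρ σ : ℝ} {w w' : ℂ} (h : RM b ρ w w' σ) (hσ : |σ| < 1 / 2)
    (hw : w.im ≤ 0) (hw' : w'.im ≤ 0) : σ ≤ 0 := by
  have h1 := h.two_b_le hσ
  have h2 := h.b4
  rw [kp_of_le hw, kp_of_le hw'] at h1
  nlinarith only [h1, h2]

/-! ### not at `±1/2` -/

/-- first-order expansion from below at `-1/2` -/
def HF (ρ : ℝ) (w : ℂ) (κ : ℝ) : Prop := ∀ ε > 0, ∀ᶠ s : ℝ in 𝓝[>] 0,
  Real.pi * |w.im| + (4 * Real.pi * ρ * κ - ε) * s ≤ fR w (LT.zt ρ (-(1 / 2) + s))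

theorem HF_zero (ρ : ℝ) : HF ρ 0 0 := by
  intro ε hε
  filter_upwards [self_mem_nhdsWithin] with s hs
  rw [fR_zero]
  have : 0 < s := hs
  simp only [Complex.zero_im, abs_zero, mul_zero, zero_add, zero_sub]
  nlinarith only [hε, this]

theorem zt_near {ρ s : ℝ} (h0 : 0 < s) (h1 : s < 1 / 4) : LT.zt ρ (-(1 / 2) + s) =
    -(1 / 2) + (s : ℂ) * (1 + 4 * ρ * Complex.I) := by
  have h2 : |-(1 / 2) + s| = 1 / 2 - s := by
    rw [abs_of_neg (by linarith only [h0, h1])]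
    ring
  rw [zt_eq, th_of_ge (by rw [h2]; linarith only [h1]), h2]
  push_cast
  ring

theorem HF_strip {ρ : ℝ} {w : ℂ} (hw : w ∈ strip) {κ : ℝ}
    (hκ : ∀ s : ℝ, 0 < s → Real.pi * |w.im| + 4 * Real.pi * ρ * κ * s ≤
      Real.pi * |w.im - 4 * ρ * s|) : HF ρ w κ := by
  intro ε hε
  set δ : ℂ := 1 + 4 * ρ * Complex.I with hδ
  have hc : ∀ c : ℝ, HasDerivAt (fun s : ℝ => w + s * (c * δ)) (c * δ) 0 := by
    intro c
    have := ((Complex.ofRealCLM.hasDerivAt (x := (0 : ℝ))).mul_const ((c : ℂ) * δ)).const_add w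
    simpa using this
  have e0 : ∀ c : ℝ, w + ((0 : ℝ) : ℂ) * (c * δ) = w := fun c => by simp
  have h1 := hasDerivAt_UU (hc 1) (Or.inr (by rw [e0]; exact hw))
  have h2 := hasDerivAt_UU (hc (-1)) (Or.inr (by rw [e0]; exact hw))
  have h3 := h1.add h2
  rw [e0, e0] at h3
  have h4 : HasDerivAt (fun s : ℝ => UU (w + s * (((1 : ℝ) : ℂ) * δ)) +
      UU (w + s * (((-1 : ℝ) : ℂ) * δ))) 0 0 := by
    refine h3.congr_deriv ?_
    simp only [Complex.ofReal_one, one_mul, Complex.ofReal_neg, neg_mul, Complex.neg_re,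
      Complex.neg_im]
    ring
  have h5 := (hasDerivAt_iff_isLittleO.mp h4).def hε
  have h6 : ∀ᶠ s : ℝ in 𝓝[>] (0 : ℝ), ‖UU (w + s * (((1 : ℝ) : ℂ) * δ)) +
      UU (w + s * (((-1 : ℝ) : ℂ) * δ)) - (UU (w + ((0 : ℝ) : ℂ) * (((1 : ℝ) : ℂ) * δ)) +
      UU (w + ((0 : ℝ) : ℂ) * (((-1 : ℝ) : ℂ) * δ))) - (s - 0) • (0 : ℝ)‖ ≤ ε * ‖s - 0‖ :=
    h5.filter_mono nhdsWithin_le_nhds
  have h7 : ∀ᶠ s : ℝ in 𝓝[>] (0 : ℝ), s < 1 / 4 := by
    have : Set.Iio (1 / 4 : ℝ) ∈ 𝓝 (0 : ℝ) := Iio_mem_nhds (by norm_num)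
    exact nhdsWithin_le_nhds this
  filter_upwards [h6, h7, self_mem_nhdsWithin] with s h8 h9 h10
  have hs : 0 < s := h10
  rw [e0, e0, sub_zero, Real.norm_eq_abs, Real.norm_eq_abs, abs_of_pos hs] at h8
  have h11 := (abs_le.mp h8).1
  rw [zt_near hs h9]
  unfold fR
  have g1 : w + 1 / 2 + (-(1 / 2) + (s : ℂ) * δ) = w + s * (((1 : ℝ) : ℂ) * δ) := by
    push_cast
    ring
  have g2 : w + 1 / 2 - (-(1 / 2) + (s : ℂ) * δ) = w + s * (((-1 : ℝ) : ℂ) * δ) + 1 := by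
    push_cast
    ring
  rw [g1, g2, UU_add_one]
  have g3 : (w + s * (((-1 : ℝ) : ℂ) * δ)).im = w.im - 4 * ρ * s := by
    rw [hδ]
    simp
    ring
  rw [g3]
  have := hκ s hs
  simp only [smul_zero, sub_zero] at h11
  linarith only [this, h11]

theorem HF_neg {ρ : ℝ} (hρ : 0 ≤ ρ) {w : ℂ} (hw : w ∈ strip) : HF ρ w (-1) := by
  have hpi := Real.pi_pos
  apply HF_strip hw
  intro s hs
  have h1 : |w.im| ≤ |w.im - 4 * ρ * s| + |4 * ρ * s| := by
    have := abs_add_le (w.im - 4 * ρ * s) (4 * ρ * s)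
    rwa [sub_add_cancel] at this
  rw [abs_of_nonneg (show 0 ≤ 4 * ρ * s by positivity)] at h1
  nlinarith only [hpi, h1]

theorem HF_pos {ρ : ℝ} (hρ : 0 ≤ ρ) {w : ℂ} (hw : w ∈ strip) (ht : w.im ≤ 0) : HF ρ w 1 := by
  have hpi := Real.pi_pos
  apply HF_strip hw
  intro s hs
  have h1 : 0 ≤ 4 * ρ * s := by positivity
  rw [abs_of_nonpos ht, abs_of_nonpos (by linarith only [ht, h1])]
  nlinarith only []

/-- some point near `-1/2` is better than `-1/2` -/
theorem exists_rg_gt {b ρ κ κ' : ℝ} (hρ : 0 < ρ) {w w' : ℂ} (h : HF ρ w κ) (h' : HF ρ w' κ')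
    (hb : 0 < b - 2 + κ + κ') : ∃ c, |c| ≤ 1 / 2 ∧ rg b ρ w w' (-(1 / 2)) < rg b ρ w w' c := by
  have hpi := Real.pi_pos
  set ε := Real.pi * ρ * (b - 2 + κ + κ') with hε
  have hε0 : 0 < ε := by positivity
  have h7 : ∀ᶠ s : ℝ in 𝓝[>] (0 : ℝ), s < 1 / 4 := by
    have : Set.Iio (1 / 4 : ℝ) ∈ 𝓝 (0 : ℝ) := Iio_mem_nhds (by norm_num)
    exact nhdsWithin_le_nhds this
  have h8 : ∀ᶠ s : ℝ in 𝓝[>] (0 : ℝ), 8 * |b| * s < b - 2 + κ + κ' := by
    have h9 : Tendsto (fun s : ℝ => 8 * |b| * s) (𝓝[>] 0) (𝓝 (8 * |b| * 0)) :=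
      (tendsto_nhdsWithin_of_tendsto_nhds tendsto_id).const_mul _
    rw [mul_zero] at h9
    exact h9.eventually (gt_mem_nhds hb)
  obtain ⟨s, h1, h2, h3, h4, h5⟩ := ((h ε hε0).and ((h' ε hε0).and (h7.and (h8.and
    self_mem_nhdsWithin)))).exists
  have hs : 0 < s := h5
  have habs : |-(1 / 2) + s| = 1 / 2 - s := by
    rw [abs_of_neg (by linarith only [h3, h5])]
    ring
  refine ⟨-(1 / 2) + s, by rw [habs]; linarith only [h5], ?_⟩
  rw [rg_neg_half]
  unfold rg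
  have hth : LT.th (-(1 / 2) + s) = 4 * s := by
    rw [th_of_ge (by rw [habs]; linarith only [h3]), habs]
    ring
  rw [hth]
  have hb1 : b * s ≤ |b| * s := mul_le_mul_of_nonneg_right (le_abs_self b) hs.le
  have e1 : -(2 * Real.pi * (ρ * (4 * s)) * (b * (-(1 / 2) + s) + 1)) =
      4 * Real.pi * ρ * s * (b - 2) - 8 * Real.pi * ρ * s * (b * s) := by ring
  rw [e1]
  have e2 : 8 * Real.pi * ρ * s * (b * s) ≤ Real.pi * ρ * s * (b - 2 + κ + κ') := by
    have : b * s * 8 ≤ b - 2 + κ + κ' := by linarith only [h4, hb1]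
    have h6 : 0 ≤ Real.pi * ρ * s := by positivity
    nlinarith only [this, h6, mul_le_mul_of_nonneg_left this h6]
  have e3 : 0 < Real.pi * ρ * s * (b - 2 + κ + κ') := by positivity
  rw [hε] at h1 h2
  nlinarith only [h1, h2, e2, e3]

/-- a maximiser is not at `±1/2` if `b > 4` or one of the heights is `≤ 0` -/
theorem RM.lt_half_of {b ρ σ : ℝ} {w w' : ℂ} (h : RM b ρ w w' σ) (hw : w = 0 ∨ w ∈ strip)
    (hw' : w' = 0 ∨ w' ∈ strip) (hq : 4 < b ∨ w.im ≤ 0 ∨ w'.im ≤ 0) : |σ| < 1 / 2 := by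
  by_contra hcon
  push Not at hcon
  have h1 : |σ| = 1 / 2 := le_antisymm h.mem hcon
  have h2 : rg b ρ w w' σ = rg b ρ w w' (-(1 / 2)) := by
    rcases (abs_eq (by norm_num : (0 : ℝ) ≤ 1 / 2)).mp h1 with h3 | h3
    · rw [h3, rg_half, rg_neg_half]
    · rw [h3]
  have hb := h.b4
  have hk : ∀ {w : ℂ}, (w = 0 ∨ w ∈ strip) → ∃ κ : ℝ, HF ρ w κ ∧ -1 ≤ κ ∧ (w.im ≤ 0 → 0 ≤ κ) := by
    intro w hw
    rcases hw with hw | hw
    · rw [hw]
      exact ⟨0, HF_zero ρ, by norm_num, fun _ => le_rfl⟩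
    · by_cases ht : w.im ≤ 0
      · exact ⟨1, HF_pos h.ρ0.le hw ht, by norm_num, fun _ => by norm_num⟩
      · exact ⟨-1, HF_neg h.ρ0.le hw, le_rfl, fun h => absurd h ht⟩
  obtain ⟨κ, k1, k2, k3⟩ := hk hw
  obtain ⟨κ', l1, l2, l3⟩ := hk hw'
  have hpos : 0 < b - 2 + κ + κ' := by
    rcases hq with hq | hq | hq
    · linarith only [k2, l2, hq]
    · linarith only [hb, l2, k3, hq, k3 hq]
    · linarith only [hb, k2, l3, hq, l3 hq]
  obtain ⟨c, hc, hlt⟩ := exists_rg_gt h.ρ0 k1 l1 hpos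
  have := h.mx c hc
  rw [h2] at this
  linarith only [hlt, this]

end Pool.Agent.Work.MP_b30479_gtS.G2

end

section

/-!
# The ring variable at a maximiser: first order condition, lower location
-/

namespace Pool.Agent.Work.MP_b30479_gtS.G2

open Finset VOL Filter Topology

/-- the derivative of `UU` in the direction `1 + i m` -/
noncomputable def Dq (m : ℝ) (u : ℂ) : ℝ := LL u + m * YY u

/-- the derivative of `fR w` in the ring variable, direction `1 + i m` -/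
noncomputable def Dm (m : ℝ) (w ζ : ℂ) : ℝ := Dq m (w + 1 / 2 + ζ) - Dq m (w + 1 / 2 - ζ)

theorem hasDerivAt_UU_q {u : ℂ} {a m s : ℝ} (h : QQm m (u + s * (a * (1 + m * Complex.I)))) :
    HasDerivAt (fun s : ℝ => UU (u + s * (a * (1 + m * Complex.I))))
      (a * Dq m (u + s * (a * (1 + m * Complex.I)))) s := by
  obtain ⟨h1, h2⟩ := h
  by_cases hm : m = 0
  · subst hm
    have e : ∀ s : ℝ, u + s * (a * (1 + ((0 : ℝ) : ℂ) * Complex.I)) = u + (a * s : ℝ) := by
      intro s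
      push_cast
      ring
    simp only [e] at h1 ⊢
    refine (hasDerivAt_UU_level u a s h1).congr_deriv ?_
    unfold Dq
    ring
  · have hc : HasDerivAt (fun s : ℝ => u + s * ((a : ℂ) * (1 + m * Complex.I)))
        ((a : ℂ) * (1 + m * Complex.I)) s := by
      have := ((Complex.ofRealCLM.hasDerivAt (x := s)).mul_const
        ((a : ℂ) * (1 + m * Complex.I))).const_add u
      simpa using this
    refine (hasDerivAt_UU hc (h2 hm)).congr_deriv ?_
    unfold Dq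
    simp
    ring

/-- one factor: regular or singular with a negative coefficient -/
theorem ev_fac {u : ℂ} {m a : ℝ} (hs : Complex.sin (Real.pi * u) = 0 → a < 0)
    (hk : u.im = 0 → u ∉ strip → 1 / 2 < u.re) {η : ℝ} (hη : 0 < η) :
    ∀ᶠ s : ℝ in 𝓝[>] 0, a * Dq m u - η < a * Dq m (u + s * (a * (1 + m * Complex.I))) := by
  by_cases h : Complex.sin (Real.pi * u) = 0
  · exact ev_factor_sing (c := (a : ℂ) * (1 + m * Complex.I)) (m := m) (a := a) (by simp) (hs h) h _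
  · exact ev_factor (c := (a : ℂ) * (1 + m * Complex.I)) (m := m) (a := a) (by simp) h
      (fun _ => hk) hη

/-- conditions for the factors `w + 1/2 ± ζ` -/
structure FC (w ζ : ℂ) : Prop where
  s1 : w + 1 / 2 + ζ ∈ strip
  k2 : 1 / 2 ≤ (w + 1 / 2 - ζ).re

theorem FC.of {w ζ : ℂ} (h0 : 0 ≤ w.re) (h1 : w.re + ζ.re < 1 / 2) (h2 : ζ.re ≤ 0)
    (h3 : -(1 / 2) < ζ.re) : FC w ζ := by
  refine ⟨⟨?_, ?_⟩, ?_⟩
  · simp
    linarith only [h0, h3]
  · simp
    linarith only [h1]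
  · simp
    linarith only [h0, h2]

theorem FC.ev {w ζ : ℂ} (h : FC w ζ) (m : ℝ) {η : ℝ} (hη : 0 < η) : ∀ᶠ s : ℝ in 𝓝[>] 0,
    Dm m w ζ - η < Dm m w (ζ + s * (1 + m * Complex.I)) := by
  have h1 := ev_fac (m := m) (a := 1) (u := w + 1 / 2 + ζ)
    (fun hs => absurd hs (sin_ne_of_strip h.s1)) (fun _ hn => absurd h.s1 hn) (half_pos hη)
  have h2 := ev_fac (m := m) (a := -1) (u := w + 1 / 2 - ζ) (fun _ => by norm_num)
    (fun hi hn => ?_) (half_pos hη)
  · filter_upwards [h1, h2] with s a1 a2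
    unfold Dm
    have e1 : w + 1 / 2 + (ζ + s * (1 + m * Complex.I)) =
        w + 1 / 2 + ζ + s * (((1 : ℝ) : ℂ) * (1 + m * Complex.I)) := by
      push_cast
      ring
    have e2 : w + 1 / 2 - (ζ + s * (1 + m * Complex.I)) =
        w + 1 / 2 - ζ + s * (((-1 : ℝ) : ℂ) * (1 + m * Complex.I)) := by
      push_cast
      ring
    rw [e1, e2]
    linarith only [a1, a2]
  · rcases h.k2.lt_or_eq with h3 | h3
    · exact h3
    · exact absurd ⟨by rw [← h3]; norm_num, by rw [← h3]; norm_num⟩ hn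

theorem FC.reg (w ζ : ℂ) (m : ℝ) : ∀ᶠ s : ℝ in 𝓝[>] 0,
    QQm m (w + 1 / 2 + ζ + s * (((1 : ℝ) : ℂ) * (1 + m * Complex.I))) ∧
    QQm m (w + 1 / 2 - ζ + s * (((-1 : ℝ) : ℂ) * (1 + m * Complex.I))) := by
  refine Filter.Eventually.and ?_ ?_
  · exact ev_reg (by simp) (by simp)
  · exact ev_reg (by simp) (by simp)

theorem hasDerivAt_fR {w ζ : ℂ} {m s : ℝ}
    (h1 : QQm m (w + 1 / 2 + ζ + s * (((1 : ℝ) : ℂ) * (1 + m * Complex.I))))
    (h2 : QQm m (w + 1 / 2 - ζ + s * (((-1 : ℝ) : ℂ) * (1 + m * Complex.I)))) :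
    HasDerivAt (fun s : ℝ => fR w (ζ + s * (1 + m * Complex.I)))
      (Dm m w (ζ + s * (1 + m * Complex.I))) s := by
  have e1 : ∀ s : ℝ, w + 1 / 2 + (ζ + s * (1 + m * Complex.I)) =
      w + 1 / 2 + ζ + s * (((1 : ℝ) : ℂ) * (1 + m * Complex.I)) := by
    intro s
    push_cast
    ring
  have e2 : ∀ s : ℝ, w + 1 / 2 - (ζ + s * (1 + m * Complex.I)) =
      w + 1 / 2 - ζ + s * (((-1 : ℝ) : ℂ) * (1 + m * Complex.I)) := by
    intro s
    push_cast
    ring
  unfold fR Dm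
  simp only [e1, e2]
  refine (((hasDerivAt_UU_q h1).add (hasDerivAt_UU_q h2)).sub_const (2 * UU w)).congr_deriv ?_
  ring

/-- the derivative of the quadratic part along the direction `1 + i m` at height `η` -/
noncomputable def nd (b m σ η : ℝ) : ℝ := -(2 * Real.pi * m * (b * σ + 1)) - 2 * Real.pi * b * η

/-- **First order condition to the right.** -/
theorem RM.right_le {b ρ σ m : ℝ} {w w' : ℂ} (h : RM b ρ w w' σ)
    (hm : ∀ᶠ s : ℝ in 𝓝[>] 0, |σ + s| ≤ 1 / 2 ∧ ρ * LT.th (σ + s) = ρ * LT.th σ + s * m)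
    (h1 : FC w (LT.zt ρ σ)) (h2 : FC w' (LT.zt ρ σ)) :
    nd b m σ (ρ * LT.th σ) + Dm m w (LT.zt ρ σ) + Dm m w' (LT.zt ρ σ) ≤ 0 := by
  by_contra hcon
  push Not at hcon
  set ζ := LT.zt ρ σ with hζ
  set η := ρ * LT.th σ with hη
  set G := nd b m σ η + Dm m w ζ + Dm m w' ζ with hG
  -- the function near `σ`
  set F : ℝ → ℝ := fun s => -(2 * Real.pi * (η + s * m) * (b * (σ + s) + 1)) +
    fR w (ζ + s * (1 + m * Complex.I)) + fR w' (ζ + s * (1 + m * Complex.I)) with hF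
  have hzt : ∀ s : ℝ, ρ * LT.th (σ + s) = η + s * m →
      LT.zt ρ (σ + s) = ζ + s * (1 + m * Complex.I) := by
    intro s hs
    rw [zt_eq, hs, hζ, zt_eq, ← hη]
    push_cast
    ring
  have hFrg : ∀ s : ℝ, ρ * LT.th (σ + s) = η + s * m → rg b ρ w w' (σ + s) = F s := by
    intro s hs
    unfold rg
    rw [hzt s hs, hs]
  -- derivative
  have hev := (h1.ev m (show 0 < G / 4 by linarith only [hcon])).and
    ((h2.ev m (show 0 < G / 4 by linarith only [hcon])).and ((FC.reg w ζ m).and (FC.reg w' ζ m)))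
  have hpol : ∀ᶠ s : ℝ in 𝓝[>] 0, nd b m σ η - G / 4 < nd b m (σ + s) (η + s * m) := by
    have hc : ContinuousAt (fun s : ℝ => nd b m (σ + s) (η + s * m)) 0 := by
      unfold nd
      fun_prop
    have h3 := hc.eventually (lt_mem_nhds (a := nd b m σ η - G / 4) (by
      simp only [add_zero, zero_mul]
      linarith only [hcon]))
    exact h3.filter_mono nhdsWithin_le_nhds
  have hall := hev.and (hpol.and hm)
  obtain ⟨r, hr0, hr⟩ := mem_nhdsGT_iff_exists_Ioo_subset.1 hall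
  have hr0' : (0 : ℝ) < r := hr0
  have hder : ∀ s ∈ Set.Ioo (0 : ℝ) r, HasDerivAt F (nd b m (σ + s) (η + s * m) +
      Dm m w (ζ + s * (1 + m * Complex.I)) + Dm m w' (ζ + s * (1 + m * Complex.I))) s := by
    intro s hs
    obtain ⟨⟨-, -, ⟨q1, q2⟩, ⟨q3, q4⟩⟩, -, -⟩ := hr hs
    have p1 : HasDerivAt (fun s : ℝ => -(2 * Real.pi * (η + s * m) * (b * (σ + s) + 1)))
        (nd b m (σ + s) (η + s * m)) s := by
      have a1 : HasDerivAt (fun s : ℝ => η + s * m) m s := by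
        simpa using ((hasDerivAt_id s).mul_const m).const_add η
      have a2 : HasDerivAt (fun s : ℝ => b * (σ + s) + 1) b s := by
        simpa using (((hasDerivAt_id s).const_add σ).const_mul b).add_const 1
      have a3 := ((a1.const_mul (2 * Real.pi)).mul a2).neg
      refine a3.congr_deriv ?_
      unfold nd
      ring
    exact (p1.add (hasDerivAt_fR q1 q2)).add (hasDerivAt_fR q3 q4)
  have hcont : ContinuousOn F (Set.Icc 0 (r / 2)) := by
    apply Continuous.continuousOn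
    have := continuous_UU
    rw [hF]
    unfold fR
    fun_prop
  have hmono : StrictMonoOn F (Set.Icc 0 (r / 2)) := by
    apply strictMonoOn_of_deriv_pos (convex_Icc _ _) hcont
    intro s hs
    rw [interior_Icc] at hs
    have hs' : s ∈ Set.Ioo (0 : ℝ) r := ⟨hs.1, by linarith only [hr0', hs, hs.2]⟩
    rw [(hder s hs').deriv]
    obtain ⟨⟨a1, a2, -, -⟩, a3, -⟩ := hr hs'
    linarith only [hcon, a1, a2, a3]
  have hr2 : r / 2 ∈ Set.Ioo (0 : ℝ) r := ⟨by linarith only [hr0'], by linarith only [hr0']⟩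
  have h3 := hmono (Set.left_mem_Icc.mpr (by linarith only [hr0'])) (Set.right_mem_Icc.mpr (by linarith only [hr0']))
    (show (0 : ℝ) < r / 2 by linarith only [hr0'])
  obtain ⟨-, -, hab, hth⟩ := hr hr2
  have h4 := h.mx (σ + r / 2) hab
  have h5 : rg b ρ w w' σ = F 0 := by
    have := hFrg 0 (by simp [hη])
    rwa [add_zero] at this
  rw [hFrg _ hth, h5] at h4
  linarith only [h3, h4]

/-- on the left ramp of the path of the ring variable -/
theorem RM.right_ramp {b ρ σ : ℝ} {w w' : ℂ} (h : RM b ρ w w' σ) (h0 : -(1 / 2) < σ)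
    (h1 : σ < -(1 / 4)) (hw : 0 ≤ w.re) (hw1 : w.re + σ < 1 / 2) (hw' : 0 ≤ w'.re)
    (hw1' : w'.re + σ < 1 / 2) :
    -(4 * Real.pi * ρ * (2 + b + 4 * b * σ)) + Dm (4 * ρ) w (LT.zt ρ σ) +
      Dm (4 * ρ) w' (LT.zt ρ σ) ≤ 0 := by
  have e : ∀ s : ℝ, 0 ≤ s → s < -(1 / 4) - σ → LT.th (σ + s) = 2 + 4 * (σ + s) := by
    intro s hs0 hs
    have : |σ + s| = -(σ + s) := abs_of_neg (by linarith only [h0, h1, hs])
    rw [th_of_ge (by rw [this]; linarith only [hs]), this]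
    ring
  have hth : LT.th σ = 2 + 4 * σ := by
    have := e 0 le_rfl (by linarith only [h1])
    rwa [add_zero] at this
  have hzr : (LT.zt ρ σ).re = σ := by simp [LT.zt]
  have key := h.right_le (m := 4 * ρ) ?_
    (FC.of hw (by rw [hzr]; exact hw1) (by rw [hzr]; linarith only [h0, h1]) (by rw [hzr]; exact h0))
    (FC.of hw' (by rw [hzr]; exact hw1') (by rw [hzr]; linarith only [h0, h1]) (by rw [hzr]; exact h0))
  · rw [hth] at key
    unfold nd at key
    linarith only [key]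
  · filter_upwards [ev_small (show 0 < -(1 / 4) - σ by linarith only [h1])] with s hs
    refine ⟨?_, ?_⟩
    · rw [abs_le]
      constructor <;> linarith only [h0, hs, hs.1, hs.2]
    · rw [e s hs.1.le hs.2, hth]
      ring

/-- on the flat part of the path of the ring variable -/
theorem RM.right_flat {b ρ σ : ℝ} {w w' : ℂ} (h : RM b ρ w w' σ) (h0 : -(1 / 4) ≤ σ)
    (h1 : σ ≤ 0) (hw : 0 ≤ w.re) (hw1 : w.re + σ < 1 / 2) (hw' : 0 ≤ w'.re)
    (hw1' : w'.re + σ < 1 / 2) :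
    -(2 * Real.pi * b * ρ) + Dm 0 w (LT.zt ρ σ) + Dm 0 w' (LT.zt ρ σ) ≤ 0 := by
  have e : ∀ s : ℝ, 0 ≤ s → s < 1 / 4 - σ → LT.th (σ + s) = 1 := by
    intro s hs0 hs
    apply th_of_le
    rw [abs_le]
    constructor <;> linarith only [h0, hs0, hs]
  have hth : LT.th σ = 1 := by
    have := e 0 le_rfl (by linarith only [h1])
    rwa [add_zero] at this
  have hzr : (LT.zt ρ σ).re = σ := by simp [LT.zt]
  have key := h.right_le (m := 0) ?_
    (FC.of hw (by rw [hzr]; exact hw1) (by rw [hzr]; linarith only [h1]) (by rw [hzr]; linarith only [h0]))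
    (FC.of hw' (by rw [hzr]; exact hw1') (by rw [hzr]; linarith only [h1]) (by rw [hzr]; linarith only [h0]))
  · rw [hth] at key
    unfold nd at key
    linarith only [key]
  · filter_upwards [ev_small (show 0 < 1 / 4 - σ by linarith only [h1])] with s hs
    refine ⟨?_, ?_⟩
    · rw [abs_le]
      constructor <;> linarith only [h0, hs, hs.1, hs.2]
    · rw [e s hs.1.le hs.2, hth]
      ring

end Pool.Agent.Work.MP_b30479_gtS.G2

end

section

/-!
# Ring sides: tools (first order condition with arbitrary limits, monotonicity in the hinge)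
-/

namespace Pool.Agent.Work.MP_b30479_gtS.G2

open Finset VOL Filter Topology NumUs

/-! ### one exceptional point -/

theorem strict_anti_one {f f' : ℝ → ℝ} {a b : ℝ} (c : ℝ) (hab : a < b) (hf : Continuous f)
    (h : ∀ x, a < x → x < b → x ≠ c → HasDerivAt f (f' x) x ∧ f' x < 0) : f b < f a := by
  have key : ∀ a' b', a ≤ a' → a' < b' → b' ≤ b → (∀ x, a' < x → x < b' → x ≠ c) → f b' < f a' := by
    intro a' b' h1 h2 h3 h4
    have hs : StrictAntiOn f (Set.Icc a' b') := by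
      apply strictAntiOn_of_deriv_neg (convex_Icc _ _) hf.continuousOn
      rw [interior_Icc]
      intro x hx
      obtain ⟨p, q⟩ := h x (by linarith only [h1, hx, hx.1]) (by linarith only [h3, hx, hx.2]) (h4 x hx.1 hx.2)
      rw [p.deriv]
      exact q
    exact hs ⟨le_rfl, h2.le⟩ ⟨h2.le, le_rfl⟩ h2
  by_cases hc : a < c ∧ c < b
  · exact (key c b hc.1.le hc.2 le_rfl fun x hx _ => hx.ne').trans
      (key a c le_rfl hc.1 hc.2.le fun x _ hx => hx.ne)
  · exact key a b le_rfl hab le_rfl fun x h1 h2 h3 => hc ⟨h3 ▸ h1, h3 ▸ h2⟩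

theorem anti_one {f f' : ℝ → ℝ} {a b : ℝ} (c : ℝ) (hab : a ≤ b) (hf : Continuous f)
    (h : ∀ x, a < x → x < b → x ≠ c → HasDerivAt f (f' x) x ∧ f' x ≤ 0) : f b ≤ f a := by
  have key : ∀ a' b', a ≤ a' → a' ≤ b' → b' ≤ b → (∀ x, a' < x → x < b' → x ≠ c) → f b' ≤ f a' := by
    intro a' b' h1 h2 h3 h4
    have hs : AntitoneOn f (Set.Icc a' b') := by
      apply antitoneOn_of_deriv_nonpos (convex_Icc _ _) hf.continuousOn
      · rw [interior_Icc]
        intro x hx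
        exact (h x (by linarith only [h1, hx, hx.1]) (by linarith only [h3, hx, hx.2]) (h4 x hx.1 hx.2)).1.differentiableAt.differentiableWithinAt
      · rw [interior_Icc]
        intro x hx
        obtain ⟨p, q⟩ := h x (by linarith only [h1, hx, hx.1]) (by linarith only [h3, hx, hx.2]) (h4 x hx.1 hx.2)
        rw [p.deriv]
        exact q
    exact hs ⟨le_rfl, h2⟩ ⟨h2, le_rfl⟩ h2
  by_cases hc : a < c ∧ c < b
  · exact (key c b hc.1.le hc.2.le le_rfl fun x hx _ => hx.ne').trans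
      (key a c le_rfl hc.1.le hc.2.le fun x _ hx => hx.ne)
  · exact key a b le_rfl hab le_rfl fun x h1 h2 h3 => hc ⟨h3 ▸ h1, h3 ▸ h2⟩

theorem mono_one {f f' : ℝ → ℝ} {a b : ℝ} (c : ℝ) (hab : a ≤ b) (hf : Continuous f)
    (h : ∀ x, a < x → x < b → x ≠ c → HasDerivAt f (f' x) x ∧ 0 ≤ f' x) : f a ≤ f b := by
  have := anti_one (f := fun x => -f x) (f' := fun x => -f' x) c hab hf.neg (fun x h1 h2 h3 =>
    ⟨(h x h1 h2 h3).1.neg, by linarith only [h, h1, h2, h3, (h x h1 h2 h3).2]⟩)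
  linarith only [this]

/-! ### the first order condition with arbitrary bounds -/

/-- **First order condition to the right**, for any lower bounds of the derivatives. -/
theorem RM.right_le_K {b ρ σ m K1 K2 : ℝ} {w w' : ℂ} (h : RM b ρ w w' σ)
    (hm : ∀ᶠ s : ℝ in 𝓝[>] 0, |σ + s| ≤ 1 / 2 ∧ ρ * LT.th (σ + s) = ρ * LT.th σ + s * m)
    (h1 : ∀ᶠ s : ℝ in 𝓝[>] 0, K1 < Dm m w (LT.zt ρ σ + s * (1 + m * Complex.I)))
    (h2 : ∀ᶠ s : ℝ in 𝓝[>] 0, K2 < Dm m w' (LT.zt ρ σ + s * (1 + m * Complex.I))) :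
    nd b m σ (ρ * LT.th σ) + K1 + K2 ≤ 0 := by
  by_contra hcon
  push Not at hcon
  set ζ := LT.zt ρ σ with hζ
  set η := ρ * LT.th σ with hη
  set G := nd b m σ η + K1 + K2 with hG
  set F : ℝ → ℝ := fun s => -(2 * Real.pi * (η + s * m) * (b * (σ + s) + 1)) +
    fR w (ζ + s * (1 + m * Complex.I)) + fR w' (ζ + s * (1 + m * Complex.I)) with hF
  have hzt : ∀ s : ℝ, ρ * LT.th (σ + s) = η + s * m →
      LT.zt ρ (σ + s) = ζ + s * (1 + m * Complex.I) := by
    intro s hs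
    rw [zt_eq, hs, hζ, zt_eq, ← hη]
    push_cast
    ring
  have hFrg : ∀ s : ℝ, ρ * LT.th (σ + s) = η + s * m → rg b ρ w w' (σ + s) = F s := by
    intro s hs
    unfold rg
    rw [hzt s hs, hs]
  have hev := h1.and (h2.and ((FC.reg w ζ m).and (FC.reg w' ζ m)))
  have hpol : ∀ᶠ s : ℝ in 𝓝[>] 0, nd b m σ η - G / 2 < nd b m (σ + s) (η + s * m) := by
    have hc : ContinuousAt (fun s : ℝ => nd b m (σ + s) (η + s * m)) 0 := by
      unfold nd
      fun_prop
    have h3 := hc.eventually (lt_mem_nhds (a := nd b m σ η - G / 2) (by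
      simp only [add_zero, zero_mul]
      linarith only [hcon]))
    exact h3.filter_mono nhdsWithin_le_nhds
  have hall := hev.and (hpol.and hm)
  obtain ⟨r, hr0, hr⟩ := mem_nhdsGT_iff_exists_Ioo_subset.1 hall
  have hr0' : (0 : ℝ) < r := hr0
  have hder : ∀ s ∈ Set.Ioo (0 : ℝ) r, HasDerivAt F (nd b m (σ + s) (η + s * m) +
      Dm m w (ζ + s * (1 + m * Complex.I)) + Dm m w' (ζ + s * (1 + m * Complex.I))) s := by
    intro s hs
    obtain ⟨⟨-, -, ⟨q1, q2⟩, ⟨q3, q4⟩⟩, -, -⟩ := hr hs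
    have p1 : HasDerivAt (fun s : ℝ => -(2 * Real.pi * (η + s * m) * (b * (σ + s) + 1)))
        (nd b m (σ + s) (η + s * m)) s := by
      have a1 : HasDerivAt (fun s : ℝ => η + s * m) m s := by
        simpa using ((hasDerivAt_id s).mul_const m).const_add η
      have a2 : HasDerivAt (fun s : ℝ => b * (σ + s) + 1) b s := by
        simpa using (((hasDerivAt_id s).const_add σ).const_mul b).add_const 1
      have a3 := ((a1.const_mul (2 * Real.pi)).mul a2).neg
      refine a3.congr_deriv ?_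
      unfold nd
      ring
    exact (p1.add (hasDerivAt_fR q1 q2)).add (hasDerivAt_fR q3 q4)
  have hcont : ContinuousOn F (Set.Icc 0 (r / 2)) := by
    apply Continuous.continuousOn
    have := continuous_UU
    rw [hF]
    unfold fR
    fun_prop
  have hmono : StrictMonoOn F (Set.Icc 0 (r / 2)) := by
    apply strictMonoOn_of_deriv_pos (convex_Icc _ _) hcont
    intro s hs
    rw [interior_Icc] at hs
    have hs' : s ∈ Set.Ioo (0 : ℝ) r := ⟨hs.1, by linarith only [hr0', hs, hs.2]⟩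
    rw [(hder s hs').deriv]
    obtain ⟨⟨a1, a2, -, -⟩, a3, -⟩ := hr hs'
    linarith only [hcon, a1, a2, a3]
  have hr2 : r / 2 ∈ Set.Ioo (0 : ℝ) r := ⟨by linarith only [hr0'], by linarith only [hr0']⟩
  have h3 := hmono (Set.left_mem_Icc.mpr (by linarith only [hr0'])) (Set.right_mem_Icc.mpr (by linarith only [hr0']))
    (show (0 : ℝ) < r / 2 by linarith only [hr0'])
  obtain ⟨-, -, hab, hth⟩ := hr hr2
  have h4 := h.mx (σ + r / 2) hab
  have h5 : rg b ρ w w' σ = F 0 := by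
    have := hFrg 0 (by simp [hη])
    rwa [add_zero] at this
  rw [hFrg _ hth, h5] at h4
  linarith only [h3, h4]

/-- the singular case: arbitrarily large derivatives -/
theorem FC.ev_sing {w ζ : ℂ} (h : FC w ζ) (hs : w + 1 / 2 - ζ = 1) (m C : ℝ) :
    ∀ᶠ s : ℝ in 𝓝[>] 0, C < Dm m w (ζ + s * (1 + m * Complex.I)) := by
  have h1 := ev_fac (m := m) (a := 1) (u := w + 1 / 2 + ζ)
    (fun hs => absurd hs (sin_ne_of_strip h.s1)) (fun _ hn => absurd h.s1 hn) one_pos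
  have h2 := ev_factor_sing (u := w + 1 / 2 - ζ) (c := ((-1 : ℝ) : ℂ) * (1 + m * Complex.I)) (m := m)
    (a := -1) (by simp) (by norm_num) (by rw [hs]; simp) (C + 1 - 1 * Dq m (w + 1 / 2 + ζ))
  filter_upwards [h1, h2] with s a1 a2
  unfold Dm
  have e1 : w + 1 / 2 + (ζ + s * (1 + m * Complex.I)) =
      w + 1 / 2 + ζ + s * (((1 : ℝ) : ℂ) * (1 + m * Complex.I)) := by
    push_cast
    ring
  have e2 : w + 1 / 2 - (ζ + s * (1 + m * Complex.I)) =
      w + 1 / 2 - ζ + s * (((-1 : ℝ) : ℂ) * (1 + m * Complex.I)) := by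
    push_cast
    ring
  rw [e1, e2]
  unfold Dq at *
  linarith only [a1, a2]

theorem RM.ev_ramp {b ρ σ : ℝ} {w w' : ℂ} (_ : RM b ρ w w' σ) (h0 : -(1 / 2) < σ)
    (h1 : σ < -(1 / 4)) : ∀ᶠ s : ℝ in 𝓝[>] 0, |σ + s| ≤ 1 / 2 ∧
      ρ * LT.th (σ + s) = ρ * LT.th σ + s * (4 * ρ) := by
  have e : ∀ s : ℝ, 0 ≤ s → s < -(1 / 4) - σ → LT.th (σ + s) = 2 + 4 * (σ + s) := by
    intro s hs0 hs
    have : |σ + s| = -(σ + s) := abs_of_neg (by linarith only [h0, h1, hs])
    rw [th_of_ge (by rw [this]; linarith only [hs]), this]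
    ring
  have hth : LT.th σ = 2 + 4 * σ := by
    have := e 0 le_rfl (by linarith only [h1])
    rwa [add_zero] at this
  filter_upwards [ev_small (show 0 < -(1 / 4) - σ by linarith only [h1])] with s hs
  refine ⟨?_, ?_⟩
  · rw [abs_le]
    constructor <;> linarith only [h0, hs, hs.1, hs.2]
  · rw [e s hs.1.le hs.2, hth]
    ring

theorem RM.ev_flat {b ρ σ : ℝ} {w w' : ℂ} (_ : RM b ρ w w' σ) (h0 : -(1 / 4) ≤ σ)
    (h1 : σ ≤ 0) : ∀ᶠ s : ℝ in 𝓝[>] 0, |σ + s| ≤ 1 / 2 ∧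
      ρ * LT.th (σ + s) = ρ * LT.th σ + s * 0 := by
  have e : ∀ s : ℝ, 0 ≤ s → s < 1 / 4 - σ → LT.th (σ + s) = 1 := by
    intro s hs0 hs
    apply th_of_le
    rw [abs_le]
    constructor <;> linarith only [h0, hs0, hs]
  have hth : LT.th σ = 1 := by
    have := e 0 le_rfl (by linarith only [h1])
    rwa [add_zero] at this
  filter_upwards [ev_small (show 0 < 1 / 4 - σ by linarith only [h1])] with s hs
  refine ⟨?_, ?_⟩
  · rw [abs_le]
    constructor <;> linarith only [h0, hs, hs.1, hs.2]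
  · rw [e s hs.1.le hs.2, hth]
    ring

/-- **no singular factor** at a maximiser -/
theorem RM.ns {b ρ σ : ℝ} {w w' : ℂ} (h : RM b ρ w w' σ) (h0 : -(1 / 2) < σ)
    (h1 : σ ≤ 0) (hw : 0 ≤ w.re) (hw1 : w.re + σ < 1 / 2) (hw' : 0 ≤ w'.re)
    (hw1' : w'.re + σ < 1 / 2) : w + 1 / 2 - LT.zt ρ σ ≠ 1 := by
  intro hs
  have hzr : (LT.zt ρ σ).re = σ := by simp [LT.zt]
  have f1 := FC.of hw (by rw [hzr]; exact hw1) (by rw [hzr]; linarith only [h1]) (by rw [hzr]; exact h0)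
  have f2 := FC.of hw' (by rw [hzr]; exact hw1') (by rw [hzr]; linarith only [h1]) (by rw [hzr]; exact h0)
  rcases lt_or_ge σ (-(1 / 4)) with h2 | h2
  · have key := h.right_le_K (h.ev_ramp h0 h2)
      (f1.ev_sing hs (4 * ρ) (1 - nd b (4 * ρ) σ (ρ * LT.th σ) - (Dm (4 * ρ) w' (LT.zt ρ σ) - 1)))
      (f2.ev (4 * ρ) one_pos)
    linarith only [h0, h2, key]
  · have key := h.right_le_K (h.ev_flat h2 h1)
      (f1.ev_sing hs 0 (1 - nd b 0 σ (ρ * LT.th σ) - (Dm 0 w' (LT.zt ρ σ) - 1)))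
      (f2.ev 0 one_pos)
    linarith only [key]

/-! ### derivatives of `uu` -/

theorem hasDerivAt_uu_x {x y : ℝ} (h : Complex.sin (Real.pi * (⟨x, y⟩ : ℂ)) ≠ 0) :
    HasDerivAt (fun x => uu x y) (LL ⟨x, y⟩) x := by
  have hpt : ∀ s : ℝ, (y : ℂ) * Complex.I + ((1 * s : ℝ) : ℂ) = ⟨s, y⟩ := by
    intro s
    apply Complex.ext <;> simp
  have h2 := hasDerivAt_UU_level ((y : ℂ) * Complex.I) 1 x (by rw [hpt]; exact h)
  simp only [hpt] at h2
  rw [one_mul] at h2
  exact h2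

theorem hasDerivAt_uu_y {x y : ℝ} (h : y ≠ 0 ∨ (0 < x ∧ x < 1)) :
    HasDerivAt (fun y => uu x y) (YY ⟨x, y⟩) y := by
  have hg : HasDerivAt (fun y : ℝ => (x : ℂ) + y * Complex.I) Complex.I y := by
    have := ((Complex.ofRealCLM.hasDerivAt (x := y)).mul_const Complex.I).const_add (x : ℂ)
    simpa using this
  have e : ∀ y : ℝ, (x : ℂ) + y * Complex.I = ⟨x, y⟩ := by
    intro y
    apply Complex.ext <;> simp
  have h2 := hasDerivAt_UU hg (by
    rcases h with h | h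
    · left; simpa using h
    · right; exact ⟨by simpa using h.1, by simpa using h.2⟩)
  simp only [e] at h2
  refine h2.congr_deriv ?_
  simp

theorem continuous_uu_x (y : ℝ) : Continuous fun x => uu x y := by
  have h : (fun x => uu x y) = fun x : ℝ => UU ((x : ℂ) + y * Complex.I) := by
    funext x
    rw [UU_uu]
    simp
  rw [h]
  exact continuous_UU.comp (by fun_prop)

theorem continuous_uu_y (x : ℝ) : Continuous fun y => uu x y := by
  have h : (fun y => uu x y) = fun y : ℝ => UU ((x : ℂ) + y * Complex.I) := by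
    funext y
    rw [UU_uu]
    simp
  rw [h]
  exact continuous_UU.comp (by fun_prop)

end Pool.Agent.Work.MP_b30479_gtS.G2

end
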