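import Pool.Agent.Work.MP_b30479_gt.TBS.G2.Rng
import Pool.Agent.Work.MP_b30479_gt.TBS.G2.RngA
import Pool.Agent.Work.MP_b30479_gt.TBS.G2.MPRun

section

/-!
# The kinds of the hinges of a ring

They replace `RKd`; new: hinges next to a digit `3` with a tiny positive height.
-/

namespace Pool.Agent.Work.MP_b30479_gtS.G2

/-- the kinds of hinges of a ring: absent, next to a digit `1`, next to a `2` or `3`, next to a
ring, next to a `3` with a tiny positive height -/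
inductive RKe
  | no | one | lo | rr | ps
  deriving DecidableEq

/-- the kinds with positive heights -/
def RKe.up : RKe → Bool
  | .rr => true
  | .ps => true
  | _ => false

/-- the ranges of the heights (they depend on the number `b` of crossings), with the parameters of
the paths -/
def RKe.ok : RKe → ℝ → ℂ → Prop
  | .no, _, w => w = 0
  | .one, b, w => ∃ T cr : ℝ, -(158 / 1000) ≤ T ∧ T ≤ -(38 / 1000) ∧ (b < 5 → -(128 / 1000) ≤ T) ∧
      (b < 6 → -(138 / 1000) ≤ T) ∧ (29 / 100 ≤ cr ∧ cr ≤ 33 / 100) ∧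
      RH w T (65 / 100) (16 / 100) cr
  | .lo, b, w => ∃ T cl cr : ℝ, -(131 / 1000) ≤ T ∧ T ≤ 0 ∧ (b < 5 → -(115 / 1000) ≤ T) ∧
      (1 / 10 ≤ cl ∧ cl ≤ 13 / 100) ∧ (30 / 100 ≤ cr ∧ cr ≤ 34 / 100) ∧ RH w T (60 / 100) cl cr
  | .rr, b, w => ∃ T : ℝ, -(385 / 10000) ≤ T ∧ T ≤ 56 / 1000 ∧ (b < 5 → -(25 / 1000) ≤ T) ∧
      (5 ≤ b → T ≤ 465 / 10000) ∧ RH w T (1 / 2) (1 / 10) (2 / 100)
  | .ps, b, w => b = 4 ∧ 0 < w.im ∧ w.im ≤ 1 / 1000 ∧ w.im ≤ 1 / 100 * w.re ∧ w.re ≤ 1 / 2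

/-- caps of the hinges with positive heights, `ρ`: the height of the ring variable -/
def RKe.cp : RKe → ℝ → ℂ → Prop
  | .rr, _, w => w.re ≤ 27 / 100
  | .ps, ρ, _ => 4 / 100 ≤ ρ
  | _, _, _ => True

end Pool.Agent.Work.MP_b30479_gtS.G2

end

section

/-!
# Ring sides: hinges next to a digit `2`, `3`, right ramp
-/

namespace Pool.Agent.Work.MP_b30479_gtS.G2

open Finset VOL Filter Topology

variable {b ρ σ : ℝ} {w w' : ℂ} {k k' : RKe}

theorem RH.strip {T XM cl cr : ℝ} (h : RH w T XM cl cr) (hcl : 0 < cl) (hcr : 0 < cr)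
    (hcc : cl + cr < XM) (hX : XM < 1) : w = 0 ∨ w ∈ strip := by
  rcases h.re0.eq_or_lt with h0 | h0
  · left
    apply Complex.ext
    · simpa using h0.symm
    · rw [h.im, ← h0, tr_a hcl hcr hcc le_rfl hcl.le]
      simp
  · right
    exact ⟨h0, by linarith only [hX, h, h.reM]⟩

theorem RKe.ok.strip (h : k.ok b w) : w = 0 ∨ w ∈ strip := by
  cases k with
  | no => exact Or.inl h
  | one =>
    obtain ⟨T, cr, -, -, -, -, ⟨r1, r2⟩, hw⟩ := h
    exact hw.strip (by norm_num) (by linarith only [r1]) (by linarith only [r2]) (by norm_num)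
  | lo =>
    obtain ⟨T, cl, cr, -, -, -, ⟨l1, l2⟩, ⟨r1, r2⟩, hw⟩ := h
    exact hw.strip (by linarith only [l1]) (by linarith only [r1]) (by linarith only [l2, r2]) (by norm_num)
  | rr =>
    obtain ⟨T, -, -, -, -, hw⟩ := h
    exact hw.strip (by norm_num) (by norm_num) (by norm_num) (by norm_num)
  | ps =>
    obtain ⟨-, h1, -, h2, h3⟩ := h
    exact Or.inr ⟨by linarith only [h1, h2], by linarith only [h1, h2, h3]⟩

theorem tr_mem (XM cl cr x : ℝ) : 0 ≤ tr 0 XM cl cr x ∧ tr 0 XM cl cr x ≤ 1 :=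
  ⟨le_max_left _ _, max_le zero_le_one (min_le_left _ _)⟩

theorem RH.im_nonpos {T XM cl cr : ℝ} (h : RH w T XM cl cr) (hT : T ≤ 0) : w.im ≤ 0 := by
  rw [h.im]
  exact mul_nonpos_of_nonpos_of_nonneg hT (tr_mem _ _ _ _).1

theorem RH.im_ge {T XM cl cr : ℝ} (h : RH w T XM cl cr) (hT : T ≤ 0) : T ≤ w.im := by
  rw [h.im]
  have := tr_mem XM cl cr w.re
  nlinarith only [hT, this]

theorem RH.im_le {T XM cl cr : ℝ} (h : RH w T XM cl cr) (hT : 0 ≤ T) : w.im ≤ T := by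
  rw [h.im]
  have := tr_mem XM cl cr w.re
  nlinarith only [hT, this]

/-- height `≤ 0` for the kinds `no`, `one`, `lo` -/
theorem RKe.ok.im_nonpos (h : k.ok b w) (hk : k.up = false) : w.im ≤ 0 := by
  cases k with
  | no =>
    have h0 : w = 0 := h
    rw [h0]
    simp
  | one =>
    obtain ⟨T, cr, -, t, -, -, -, hw⟩ := h
    exact hw.im_nonpos (by linarith only [t])
  | lo =>
    obtain ⟨T, cl, cr, -, t, -, -, -, hw⟩ := h
    exact hw.im_nonpos t
  | rr => exact absurd hk (by simp [RKe.up])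
  | ps => exact absurd hk (by simp [RKe.up])

theorem RKe.ok.re_nonneg (h : k.ok b w) : 0 ≤ w.re := by
  cases k with
  | no =>
    have h0 : w = 0 := h
    rw [h0]
    simp
  | one =>
    obtain ⟨T, cr, -, -, -, -, -, hw⟩ := h
    exact hw.re0
  | lo =>
    obtain ⟨T, cl, cr, -, -, -, -, -, hw⟩ := h
    exact hw.re0
  | rr =>
    obtain ⟨T, -, -, -, -, hw⟩ := h
    exact hw.re0
  | ps =>
    obtain ⟨-, h1, -, h2, h3⟩ := h
    linarith only [h1, h2]

theorem RKe.ok.re_le (h : k.ok b w) : w.re ≤ 65 / 100 := by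
  cases k with
  | no =>
    have h0 : w = 0 := h
    rw [h0]
    norm_num
  | one =>
    obtain ⟨T, cr, -, -, -, -, -, hw⟩ := h
    exact hw.reM
  | lo =>
    obtain ⟨T, cl, cr, -, -, -, -, -, hw⟩ := h
    linarith only [hw, hw.reM]
  | rr =>
    obtain ⟨T, -, -, -, -, hw⟩ := h
    linarith only [hw, hw.reM]
  | ps =>
    obtain ⟨-, h1, -, h2, h3⟩ := h
    linarith only [h1, h2, h3]

/-- the ring variable is inside, if one of the heights is `≤ 0` -/
theorem RM.lt_half_one (h : RM b ρ w w' σ) (h1 : k.ok b w) (h2 : k'.ok b w')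
    (hq : w.im ≤ 0 ∨ w'.im ≤ 0) : |σ| < 1 / 2 :=
  h.lt_half_of h1.strip h2.strip (Or.inr hq)

end Pool.Agent.Work.MP_b30479_gtS.G2

end

section

/-!
# Part of `RngU`
-/
namespace Pool.Agent.Work.MP_b30479_gtS.G2

open Finset VOL Filter Topology

variable {x t σ η c a b s ρ T θ y K κ m l : ℝ} {w w' ζ : ℂ} {k k' : RKe}

/-- the logarithmic part of the derivative in the ring variable -/
theorem LLp_ge (hC2 : 0 < Real.cosh (2 * Real.pi * (t - η)) - Real.cos (2 * Real.pi * (x - s)))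
    (hN : 0 ≤ Real.sin (2 * Real.pi * s) * Real.sin (2 * Real.pi * x) +
      Real.sinh (2 * Real.pi * t) * Real.sinh (2 * Real.pi * η)) :
    0 < Real.cosh (2 * Real.pi * t) * Real.cosh (2 * Real.pi * η) -
      Real.cos (2 * Real.pi * s) * Real.cos (2 * Real.pi * x) ∧
    (Real.sin (2 * Real.pi * s) * Real.sin (2 * Real.pi * x) +
      Real.sinh (2 * Real.pi * t) * Real.sinh (2 * Real.pi * η)) /
    (Real.cosh (2 * Real.pi * t) * Real.cosh (2 * Real.pi * η) -
      Real.cos (2 * Real.pi * s) * Real.cos (2 * Real.pi * x)) ≤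
    LL ⟨x + s, t + η⟩ - LL ⟨x - s, t - η⟩ := by
  set C1 := Real.cosh (2 * Real.pi * (t + η)) - Real.cos (2 * Real.pi * (x + s)) with hC1
  set C2 := Real.cosh (2 * Real.pi * (t - η)) - Real.cos (2 * Real.pi * (x - s)) with hC2'
  set N := Real.sin (2 * Real.pi * s) * Real.sin (2 * Real.pi * x) +
      Real.sinh (2 * Real.pi * t) * Real.sinh (2 * Real.pi * η) with hNN
  set D0 := Real.cosh (2 * Real.pi * t) * Real.cosh (2 * Real.pi * η) -
      Real.cos (2 * Real.pi * s) * Real.cos (2 * Real.pi * x) with hD0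
  have hdiff : C1 - C2 = 2 * N := by
    rw [hC1, hC2', hNN, mul_add, mul_sub, mul_add, mul_sub, Real.cosh_add, Real.cosh_sub, Real.cos_add,
      Real.cos_sub]
    ring
  have hsum : C1 + C2 = 2 * D0 := by
    rw [hC1, hC2', hD0, mul_add, mul_sub, mul_add, mul_sub, Real.cosh_add, Real.cosh_sub, Real.cos_add,
      Real.cos_sub]
    ring
  have hC1p : 0 < C1 := by linarith only [hC2, hN, hdiff]
  refine ⟨by linarith only [hC2, hN, hdiff, hsum], ?_⟩
  have hLL : LL ⟨x + s, t + η⟩ - LL ⟨x - s, t - η⟩ = Real.log (C1 / C2) / 2 := by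
    rw [LL_eq', LL_eq']
    simp only
    rw [show 2 * Real.cosh (2 * Real.pi * (t + η)) - 2 * Real.cos (2 * Real.pi * (x + s)) = 2 * C1 by
      rw [hC1]; ring, show 2 * Real.cosh (2 * Real.pi * (t - η)) - 2 * Real.cos (2 * Real.pi * (x - s)) =
      2 * C2 by rw [hC2']; ring, Real.log_mul two_ne_zero hC1p.ne', Real.log_mul two_ne_zero hC2.ne',
      Real.log_div hC1p.ne' hC2.ne']
    ring
  rw [hLL]
  have h1 := Real.le_log_one_add_of_nonneg (x := (C1 - C2) / C2) (by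
    apply div_nonneg _ hC2.le
    linarith only [hN, hdiff])
  have e1 : 1 + (C1 - C2) / C2 = C1 / C2 := by field_simp; ring
  have e2 : 2 * ((C1 - C2) / C2) / ((C1 - C2) / C2 + 2) = 2 * (N / D0) := by
    have hs2 : C1 + C2 ≠ 0 := by linarith only [hC2, hN, hdiff]
    have e3 : (C1 - C2) / C2 + 2 = (C1 + C2) / C2 := by field_simp; ring
    rw [e3, show 2 * ((C1 - C2) / C2) / ((C1 + C2) / C2) = 2 * ((C1 - C2) / (C1 + C2)) by
      field_simp, hdiff, hsum, mul_div_mul_left _ _ two_ne_zero]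
  rw [e1, e2] at h1
  linarith only [h1]

end Pool.Agent.Work.MP_b30479_gtS.G2

end

section

/-!
# Part of `RngU`
-/
namespace Pool.Agent.Work.MP_b30479_gtS.G2

open Finset VOL Filter Topology

variable {x t σ η c a b s ρ T θ y K κ m l : ℝ} {w w' ζ : ℂ} {k k' : RKe}

theorem LLp_gt (hC2 : 0 < Real.cosh (2 * Real.pi * (t - η)) - Real.cos (2 * Real.pi * (x - s)))
    (hK : 0 ≤ K) (h : K * (Real.cosh (2 * Real.pi * t) * Real.cosh (2 * Real.pi * η) -
      Real.cos (2 * Real.pi * s) * Real.cos (2 * Real.pi * x)) <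
      Real.sin (2 * Real.pi * s) * Real.sin (2 * Real.pi * x) +
      Real.sinh (2 * Real.pi * t) * Real.sinh (2 * Real.pi * η)) :
    K < LL ⟨x + s, t + η⟩ - LL ⟨x - s, t - η⟩ := by
  have hD : 0 ≤ Real.cosh (2 * Real.pi * t) * Real.cosh (2 * Real.pi * η) -
      Real.cos (2 * Real.pi * s) * Real.cos (2 * Real.pi * x) := by
    have h1 := Real.one_le_cosh (2 * Real.pi * t)
    have h2 := Real.one_le_cosh (2 * Real.pi * η)
    have h3 : Real.cos (2 * Real.pi * s) * Real.cos (2 * Real.pi * x) ≤ 1 := by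
      have := abs_le.1 (show |Real.cos (2 * Real.pi * s) * Real.cos (2 * Real.pi * x)| ≤ 1 by
        rw [abs_mul]
        exact mul_le_one₀ (Real.abs_cos_le_one _) (abs_nonneg _) (Real.abs_cos_le_one _))
      exact this.2
    nlinarith only [h1, h2, h3]
  obtain ⟨h1, h2⟩ := LLp_ge hC2 (le_trans (mul_nonneg hK hD) h.le)
  refine lt_of_lt_of_le ?_ h2
  rwa [lt_div_iff₀ h1]

end Pool.Agent.Work.MP_b30479_gtS.G2

end

section

/-!
# Tails: targets, gauges, minorants of the gains of the untouched regions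
-/

namespace Pool.Agent.Work.MP_b30479_gtS.G2

open VOL SR

namespace TL

/-- what is behind a real neighbour hinge (seen from the touched region) -/
inductive Ct
  | one | two | twoE | threeA | threeK | threeE | ring | touched
  deriving DecidableEq

/-- compatibility with the class of the region behind the hinge (`threeA`: the hinge is in the
slot `0` of the interior three, `threeK`: in its slot `2`) -/
def Ct.ok : Ct → Cl → Prop
  | .one, c => c = .one
  | .two, c => c = .two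
  | .twoE, c => c = .twoE
  | .threeA, c => c = .three
  | .threeK, c => c = .three
  | .threeE, c => c = .threeE
  | .ring, c => c = .ring
  | .touched, _ => True

/-- the classes with at least three crossings -/
def big (c : Cl) : Prop := c = .three ∨ c = .threeE ∨ c = .ring

/-- target (real part) of a real neighbour hinge -/
noncomputable def cN : Ct → ℝ
  | .one => 9 / 50
  | .two => 1 / 4
  | .twoE => 11 / 50
  | .threeA => 3 / 20
  | .threeK => 9 / 50
  | .threeE => 11 / 50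
  | .ring => 9 / 50
  | .touched => 1 / 5

/-- target (real part) of a hinge in the tail between the classes `K` and `B` -/
noncomputable def cT : Cl → Cl → ℝ
  | .one, .one => 42 / 100
  | .one, .ring => 1 / 4
  | .ring, .one => 1 / 4
  | .one, _ => 28 / 100
  | _, .one => 28 / 100
  | _, _ => 1 / 4

/-- slope of the gauge at a hinge in the tail -/
noncomputable def be : Cl → Cl → ℝ
  | .one, .one => 245 / 100
  | .one, .two => 215 / 100
  | .two, .one => 215 / 100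
  | .one, .twoE => 235 / 100
  | .twoE, .one => 235 / 100
  | .one, .three => 19 / 10
  | .three, .one => 19 / 10
  | .one, .threeE => 205 / 100
  | .threeE, .one => 205 / 100
  | .one, .ring => 21 / 10
  | .ring, .one => 21 / 10
  | .ring, .ring => 0
  | _, _ => 17 / 10

/-- constant of the gauge of the touched region of class `K` at its hinge in the tail at `x`; `B` is
the class on the other side of this hinge, `C` the class behind the other hinge of the region -/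
noncomputable def al (K B C : Cl) (x : ℝ) : ℝ :=
  match K, B with
  | .one, .one => if C = .one then 26 / 1000 else if 86 / 100 ≤ x then 5 / 1000 else -(255 / 10000)
  | .one, .two => -(13 / 100)
  | .one, .twoE => if 95 / 100 ≤ x then -(1 / 10) else -(225 / 1000)
  | .one, .three => -(115 / 1000)
  | .one, .threeE => -(15 / 100)
  | .one, .ring => if 95 / 100 ≤ x then 2 / 100 else -(135 / 1000)
  | .two, .one => 14 / 100
  | .twoE, .one => if 95 / 100 ≤ x then 12 / 100 else 23 / 100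
  | .three, .one => 1155 / 10000
  | .threeE, .one => 155 / 1000
  | .ring, .one => if 95 / 100 ≤ x then 1 / 100 else 14 / 100
  | .two, _ => 1 / 100
  | .twoE, _ => 5 / 100
  | .three, _ => 2 / 100
  | .threeE, _ => 15 / 100
  | .ring, .ring => 1 / 100
  | .ring, _ => 6 / 100

/-- the start of the tail between the classes `K` and `B` (`8/10` for `1 | 1`) -/
noncomputable def X0 : Cl → Cl → ℝ
  | .one, .one => 80 / 100
  | .one, .two => 80 / 100
  | .two, .one => 80 / 100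
  | .one, .twoE => 70 / 100
  | .twoE, .one => 70 / 100
  | .one, .three => 65 / 100
  | .three, .one => 65 / 100
  | .one, .ring => 65 / 100
  | .ring, .one => 65 / 100
  | .ring, .ring => 50 / 100
  | _, _ => 60 / 100

/-- lower bounds for the gain `G` of the untouched region behind the real neighbour hinge (old
position `w`, new height `τ` in its own frame), seen from the touched region of class `K` -/
def EB (K : Cl) (C : Ct) (w τ G : ℝ) : Prop :=
  match C with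
  | .one => match K with
    | .one => (w ≤ 9 / 50 → -(11 / 1000) - 3927 / 1250 * τ ≤ G ∨
          UU ⟨w, 0⟩ - 163 / 5000 + 779 / 1000 * w - 821 / 500 * τ ≤ G) ∧
        (9 / 50 ≤ w → UU ⟨w, 0⟩ + 164 / 625 - 921 / 1000 * w - 1849 / 1000 * τ ≤ G ∨
          UU ⟨w, 0⟩ + 1451 / 5000 - 1021 / 1000 * w - 1309 / 500 * τ ≤ G)
    | .two => (w ≤ 9 / 50 → -(3 / 100) - 3927 / 1250 * τ ≤ G ∨
          UU ⟨w, 0⟩ - 2039 / 10000 + 653 / 500 * w - 643 / 500 * τ ≤ G) ∧
        (9 / 50 ≤ w → UU ⟨w, 0⟩ + 137 / 625 - 1019 / 1000 * w - 1071 / 500 * τ ≤ G)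
    | _ => (w ≤ 4 / 25 → (τ ≤ 47 / 500 ∧ -(9 / 1000) - 3927 / 1250 * τ ≤ G) ∨
          UU ⟨w, 0⟩ - 247 / 10000 + 293 / 1000 * w - 163 / 100 * τ ≤ G) ∧
        (4 / 25 ≤ w → UU ⟨w, 0⟩ + 1283 / 10000 - 719 / 1000 * w - 429 / 250 * τ ≤ G)
  | .two => UU ⟨w, 0⟩ + 53 / 625 - 37 / 250 * w - 1571 / 1000 * τ ≤ G
  | .twoE => UU ⟨w, 0⟩ + 1545 / 10000 - 2262 / 1000 * τ ≤ G
  | .threeA => (w ≤ 4 / 25 → UU ⟨w, 0⟩ + 62 / 625 - 227 / 1000 * w - 851 / 1000 * τ ≤ G) ∧
      (4 / 25 ≤ w → UU ⟨w, 0⟩ + 1289 / 5000 - 553 / 500 * w - 113 / 200 * τ ≤ G)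
  | .threeK => UU ⟨w, 0⟩ + 7 / 625 + 97 / 1000 * w - 353 / 250 * τ ≤ G
  | .threeE => UU ⟨w, 0⟩ + 1345 / 10000 - 1215 / 1000 * τ ≤ G
  | .ring => (w ≤ 7 / 50 → UU ⟨w, 0⟩ - 67 / 1250 + 543 / 1000 * w - 839 / 500 * τ ≤ G) ∧
      (7 / 50 ≤ w → UU ⟨w, 0⟩ + 1291 / 10000 - 18 / 25 * w - 1397 / 1000 * τ ≤ G)
  | .touched => -(59 / 25) * τ ≤ G

/-- a slot of a touched ring with `n` crossings: old value `w`, new value `w1`, share `g`; `hi`: the
ring variable goes to `-1/4 + i ρ` instead of `-3/20 + i ρ` -/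
inductive RSlot (n : ℝ) (hi : Bool) : ℂ → ℂ → ℝ → Prop
  | tailOne {x t : ℝ} (h0 : 65 / 100 ≤ x) (h1 : x ≤ 1) (h2 : -(158 / 1000) ≤ t)
      (h3 : t ≤ -(38 / 1000)) (h4 : n < 5 → -(128 / 1000) ≤ t) (h5 : n < 6 → -(138 / 1000) ≤ t) :
      RSlot n hi ⟨x, 0⟩ ⟨1 / 4, t⟩ (al .ring .one .ring x - be .ring .one * t)
  | tailLo {x t : ℝ} (h0 : 60 / 100 ≤ x) (h1 : x ≤ 1) (h2 : -(131 / 1000) ≤ t)
      (h3 : t ≤ 4 / 1000) (h4 : n < 5 → -(115 / 1000) ≤ t) :
      RSlot n hi ⟨x, 0⟩ ⟨1 / 4, t⟩ (6 / 100 - 17 / 10 * t)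
  | tailRing {x t : ℝ} (h0 : 1 / 2 ≤ x) (h1 : x ≤ 1) (h2 : -(385 / 10000) ≤ t)
      (h3 : t ≤ 59 / 1000) (h4 : n < 5 → -(25 / 1000) ≤ t) :
      RSlot n hi ⟨x, 0⟩ ⟨1 / 4, t⟩ (1 / 100)
  | path {w : ℂ} {k : RKe} (h : k.ok n w) (h0 : hi = false → w.re ≤ 1 / 2)
      (h1 : hi = true → 1 / 2 ≤ w.re) : RSlot n hi w w 0
  | nbOne {x t : ℝ} (h0 : 0 ≤ x) (h1 : x ≤ 65 / 100) (h2 : -(158 / 1000) ≤ t)
      (h3 : t ≤ -(38 / 1000)) (h4 : n < 5 → -(128 / 1000) ≤ t) (h5 : n < 6 → -(138 / 1000) ≤ t)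
      (h6 : hi = false → x ≤ 1 / 2) (h7 : hi = true → 1 / 2 ≤ x) :
      RSlot n hi ⟨x, 0⟩ ⟨1 / 5, t⟩ (-(59 / 25) * t)
  | nbLo {x t : ℝ} (h0 : 0 ≤ x) (h1 : x ≤ 60 / 100) (h2 : -(131 / 1000) ≤ t)
      (h3 : t ≤ 4 / 1000) (h4 : n < 5 → -(115 / 1000) ≤ t)
      (h6 : hi = false → x ≤ 1 / 2) (h7 : hi = true → 1 / 2 ≤ x) :
      RSlot n hi ⟨x, 0⟩ ⟨1 / 5, t⟩ (-(59 / 25) * t)

/-- the slot is in the tail -/
inductive RTail (n : ℝ) (hi : Bool) : ℂ → ℂ → ℝ → Prop
  | one {x t : ℝ} (h0 : 65 / 100 ≤ x) (h1 : x ≤ 1) (h2 : -(158 / 1000) ≤ t)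
      (h3 : t ≤ -(38 / 1000)) (h4 : n < 5 → -(128 / 1000) ≤ t) (h5 : n < 6 → -(138 / 1000) ≤ t) :
      RTail n hi ⟨x, 0⟩ ⟨1 / 4, t⟩ (al .ring .one .ring x - be .ring .one * t)
  | lo {x t : ℝ} (h0 : 60 / 100 ≤ x) (h1 : x ≤ 1) (h2 : -(131 / 1000) ≤ t)
      (h3 : t ≤ 4 / 1000) (h4 : n < 5 → -(115 / 1000) ≤ t) :
      RTail n hi ⟨x, 0⟩ ⟨1 / 4, t⟩ (6 / 100 - 17 / 10 * t)
  | ring {x t : ℝ} (h0 : 1 / 2 ≤ x) (h1 : x ≤ 1) (h2 : -(385 / 10000) ≤ t)
      (h3 : t ≤ 59 / 1000) (h4 : n < 5 → -(25 / 1000) ≤ t) :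
      RTail n hi ⟨x, 0⟩ ⟨1 / 4, t⟩ (1 / 100)

/-- real part of the target of the ring variable -/
noncomputable def sR (hi : Bool) : ℝ := if hi then -(1 / 4) else -(3 / 20)

end TL

end Pool.Agent.Work.MP_b30479_gtS.G2

end
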