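import Pool.Agent.Work.MP_b30479_gt.TBS.G2.MRBase

section

/-!
# Right ramp of the slot-2 hinge of an interior region with three crossings: zones

`w` is the hinge, `v` the inner variable (or the partner hinge, for a region with two crossings or
a digit `±1`).  For `Re (w + v) ≤ 5/6` the sides are exact, for `Re (w + v) ∈ [5/6, 7/6]` the value
`LL (w + v)` is replaced by `nearL`, beyond `7/6` it is exact; `YY (w + v)` is replaced by a
multiple of `π` there.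
-/

namespace Pool.Agent.Work.MP_b30479_gtS.G2

open VOL NumIs

namespace MR

/-- upper bound of `LL u` for `|Re u - 1| ≤ 1/6` -/
noncomputable def nearL (y : ℝ) : ℝ :=
  1 / 2 * Real.log (2 * Real.cosh (2 * (Real.pi * y)) - 1)

theorem LL_nearL {u : ℂ} (h1 : 5 / 6 ≤ u.re) (h2 : u.re ≤ 7 / 6) : LL u ≤ nearL u.im := by
  have hp := Real.pi_pos
  have h3 : Real.cos (Real.pi * (2 * (1 / 6))) ≤ Real.cos (2 * Real.pi * u.re) := by
    have e : Real.cos (2 * Real.pi * u.re) = Real.cos (2 * Real.pi * |u.re - 1|) := by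
      rw [← Real.cos_sub_two_pi, ← Real.cos_abs, ← abs_of_pos (by positivity : 0 < 2 * Real.pi),
        ← abs_mul, abs_of_pos (by positivity : 0 < 2 * Real.pi)]
      congr 2
      ring
    rw [e]
    have h4 : |u.re - 1| ≤ 1 / 6 := by
      rw [abs_le]
      constructor <;> linarith only [h1, h2]
    have h5 := abs_nonneg (u.re - 1)
    apply Real.cos_le_cos_of_nonneg_of_le_pi
    · positivity
    · nlinarith only [hp]
    · nlinarith only [hp, h4]
  have e2 : Real.cos (Real.pi * (2 * (1 / 6))) = 1 / 2 := by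
    rw [← Real.cos_pi_div_three]
    congr 1
    ring
  rw [e2] at h3
  have e3 : 2 * Real.pi * u.im = 2 * (Real.pi * u.im) := by ring
  have h6 := Real.one_le_cosh (2 * Real.pi * u.im)
  have h4 := LL_le_log (u := u) (K := 2 * Real.cosh (2 * Real.pi * u.im) - 1) (by linarith only [h6])
    (by linarith only [h3])
  unfold nearL
  rw [← e3]
  linarith only [h4]

theorem YY_nonpos {u : ℂ} (h0 : 1 / 2 ≤ u.re) (h : u.im ≤ 0) : YY u ≤ 0 := by
  rcases h.lt_or_eq with h | h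
  · rw [YY_neg h]
    have := half_le_Tr (s := -u.im) (x := u.re) (by linarith only [h]) h0
    linarith only [this]
  · rw [YY_zero h]

theorem YY_nonneg {u : ℂ} (h0 : 1 / 2 ≤ u.re) (h : 0 ≤ u.im) : 0 ≤ YY u := by
  rcases h.lt_or_eq with h | h
  · rw [YY_pos h]
    have := half_le_Tr (s := u.im) (x := u.re) h h0
    linarith only [this]
  · rw [YY_zero h.symm]

/-- the two signs of the slope and of the height of `u` -/
theorem mul_YY_00 {m : ℝ} {u : ℂ} (hm : 0 ≤ m) (h0 : 1 / 2 ≤ u.re) (h : u.im ≤ 0) :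
    m * YY u ≤ m * (0 * Real.pi) := by
  rw [zero_mul, mul_zero]
  exact mul_nonpos_of_nonneg_of_nonpos hm (YY_nonpos h0 h)

theorem mul_YY_01 {m : ℝ} {u : ℂ} (hm : 0 ≤ m) (h0 : 0 ≤ u.re) (h1 : u.re ≤ 3 / 2) :
    m * YY u ≤ m * (1 * Real.pi) := by
  rw [one_mul]
  exact mul_le_mul_of_nonneg_left ((le_abs_self _).trans (YY_abs_pi h0 h1)) hm

theorem mul_YY_10 {m : ℝ} {u : ℂ} (hm : m ≤ 0) (h0 : 1 / 2 ≤ u.re) (h : 0 ≤ u.im) :
    m * YY u ≤ m * (0 * Real.pi) := by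
  rw [zero_mul, mul_zero]
  exact mul_nonpos_of_nonpos_of_nonneg hm (YY_nonneg h0 h)

theorem mul_YY_11 {m : ℝ} {u : ℂ} (hm : m ≤ 0) (h0 : 0 ≤ u.re) (h1 : u.re ≤ 3 / 2) :
    m * YY u ≤ m * (-1 * Real.pi) := by
  rw [neg_one_mul]
  exact mul_le_mul_of_nonpos_left (neg_le_of_abs_le (YY_abs_pi h0 h1)) hm

theorem S1_n1 {w v : ℂ} {m r c : ℝ} (hw0 : 0 < w.re) (hw : w.re < 1)
    (hL : LL (w + v) ≤ c) (hY : m * YY (w + v) ≤ m * (r * Real.pi)) :
    S1 1 m w v ≤ n1 c r m w.re w.im v.re v.im := by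
  unfold S1 n1
  rw [Num.LL_lnA ⟨hw0, hw⟩, Num.YY_lnB ⟨hw0, hw⟩]
  linarith only [hL, hY]

theorem S2_n2 {w v : ℂ} {m r c : ℝ} (hw0 : 0 < w.re) (hw : w.re < 1)
    (hL : LL (w + v) ≤ c) (hY : m * YY (w + v) ≤ m * (r * Real.pi)) :
    S2 1 m w v ≤ n2 c r m w.re w.im v.re v.im := by
  unfold S2 n2
  rw [Num.LL_lnA ⟨hw0, hw⟩, Num.YY_lnB ⟨hw0, hw⟩]
  linarith only [hL, hY]

/-- **Zones**, digit `±1` -/
theorem S1_zone {w v : ℂ} {m F : ℝ} (hw0 : 0 < w.re) (hw : w.re < 1) (hv : 0 ≤ v.re)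
    (h2 : w.re + v.re < 2)
    (hS : w.re + v.re ≤ 5 / 6 → s1 m w.re w.im v.re v.im < F)
    (hN : 5 / 6 ≤ w.re + v.re → w.re + v.re ≤ 7 / 6 →
      ∃ r, m * YY (w + v) ≤ m * (r * Real.pi) ∧ n1 (nearL (w.im + v.im)) r m w.re w.im v.re v.im < F)
    (hB : 7 / 6 ≤ w.re + v.re → ∃ r, m * YY (w + v) ≤ m * (r * Real.pi) ∧
      n1 (lnA (w.re + v.re - 1) (w.im + v.im)) r m w.re w.im v.re v.im < F) :
    S1 1 m w v < F := by
  rcases le_total (w.re + v.re) (5 / 6) with h | h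
  · rw [S1_eq m ⟨hw0, hw⟩ ⟨by rw [Complex.add_re]; linarith only [hw0, hv], by rw [Complex.add_re]; linarith only [hw0, hw, h]⟩]
    exact hS h
  rcases le_total (w.re + v.re) (7 / 6) with h' | h'
  · obtain ⟨r, hr, h3⟩ := hN h h'
    have h4 := LL_nearL (u := w + v) (by rw [Complex.add_re]; exact h)
      (by rw [Complex.add_re]; exact h')
    rw [Complex.add_im] at h4
    exact (S1_n1 hw0 hw h4 hr).trans_lt h3
  · obtain ⟨r, hr, h3⟩ := hB h'
    have h4 := (LL_beyond (u := w + v) (by rw [Complex.add_re]; linarith only [hw0, hw, h'])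
      (by rw [Complex.add_re]; linarith only [h2])).le
    rw [Complex.add_im, Complex.add_re] at h4
    exact (S1_n1 hw0 hw h4 hr).trans_lt h3

/-- **Zones**, two crossings or the slot-2 hinge of three crossings -/
theorem S2_zone {w v : ℂ} {m F : ℝ} (hw0 : 0 < w.re) (hw : w.re < 1) (hv : 0 ≤ v.re)
    (h2 : w.re + v.re < 2)
    (hS : w.re + v.re ≤ 5 / 6 → s2 m w.re w.im v.re v.im < F)
    (hN : 5 / 6 ≤ w.re + v.re → w.re + v.re ≤ 7 / 6 →
      ∃ r, m * YY (w + v) ≤ m * (r * Real.pi) ∧ n2 (nearL (w.im + v.im)) r m w.re w.im v.re v.im < F)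
    (hB : 7 / 6 ≤ w.re + v.re → ∃ r, m * YY (w + v) ≤ m * (r * Real.pi) ∧
      n2 (lnA (w.re + v.re - 1) (w.im + v.im)) r m w.re w.im v.re v.im < F) :
    S2 1 m w v < F := by
  rcases le_total (w.re + v.re) (5 / 6) with h | h
  · rw [S2_eq m ⟨hw0, hw⟩ ⟨by rw [Complex.add_re]; linarith only [hw0, hv], by rw [Complex.add_re]; linarith only [hw0, hw, h]⟩]
    exact hS h
  rcases le_total (w.re + v.re) (7 / 6) with h' | h'
  · obtain ⟨r, hr, h3⟩ := hN h h'
    have h4 := LL_nearL (u := w + v) (by rw [Complex.add_re]; exact h)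
      (by rw [Complex.add_re]; exact h')
    rw [Complex.add_im] at h4
    exact (S2_n2 hw0 hw h4 hr).trans_lt h3
  · obtain ⟨r, hr, h3⟩ := hB h'
    have h4 := (LL_beyond (u := w + v) (by rw [Complex.add_re]; linarith only [hw0, hw, h'])
      (by rw [Complex.add_re]; linarith only [h2])).le
    rw [Complex.add_im, Complex.add_re] at h4
    exact (S2_n2 hw0 hw h4 hr).trans_lt h3

/-! ### expressions -/

section
open E

/-- expression for `nearL` -/
def nearE (t : E) : E :=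
  mul (q 1 2) (log (sub (mul (q 2 1) (cosh (mul (q 2 1) (mul pi t)))) (q 1 1)))

theorem nearE_val (t : E) (xs : List ℝ) : (nearE t).val xs = nearL (t.val xs) := by
  simp only [nearE, val, nearL]
  push_cast
  ring_nf

/-- slope `-T / (cr / 100)` -/
def mE (cr : ℕ) : E := mul (q (-100) cr) (var 1)

/-- height on the right ramp -/
def tE (XM cr : ℕ) : E := mul (var 1) (mul (q 100 cr) (sub (q XM 100) (var 0)))

/-- `Re (w + v)` -/
def uE : E := add (var 0) (var 2)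

/-- `Im (w + v)` -/
def yE (XM cr : ℕ) : E := add (tE XM cr) (var 3)

/-- `F - S2`, exact -/
def S2E (XM cr : ℕ) (F : E) : E := sub F (e2 (mE cr) (var 0) (tE XM cr) (var 2) (var 3))

/-- `F - S2`, near `1` -/
def N2E (XM cr : ℕ) (F : E) (r : ℤ) : E :=
  sub F (en2 (nearE (yE XM cr)) (q r 1) (mE cr) (var 0) (tE XM cr) (var 2) (var 3))

/-- `F - S2`, beyond `1` -/
def B2E (XM cr : ℕ) (F : E) (r : ℤ) : E :=
  sub F (en2 (lnA (sub uE (q 1 1)) (yE XM cr)) (q r 1) (mE cr) (var 0) (tE XM cr) (var 2) (var 3))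

/-- `F - S1`, exact -/
def S1E (XM cr : ℕ) (F : E) : E := sub F (e1 (mE cr) (var 0) (tE XM cr) (var 2) (var 3))

/-- `F - S1`, near `1` -/
def N1E (XM cr : ℕ) (F : E) (r : ℤ) : E :=
  sub F (en1 (nearE (yE XM cr)) (q r 1) (mE cr) (var 0) (tE XM cr) (var 2) (var 3))

/-- `F - S1`, beyond `1` -/
def B1E (XM cr : ℕ) (F : E) (r : ℤ) : E :=
  sub F (en1 (lnA (sub uE (q 1 1)) (yE XM cr)) (q r 1) (mE cr) (var 0) (tE XM cr) (var 2) (var 3))

end

/-- slope -/
noncomputable def mR (cr : ℕ) (T : ℝ) : ℝ := -T / (cr / 100)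

/-- height on the right ramp -/
noncomputable def tR (XM cr : ℕ) (x T : ℝ) : ℝ := T * ((XM / 100 - x) / (cr / 100))

variable {XM cr : ℕ} {F : E} {x T x' t' : ℝ} {r : ℤ}

theorem mE_val : (mE cr).val [x, T, x', t'] = mR cr T := by
  simp only [mE, E.val, lkR, mR]
  push_cast
  rw [neg_div, neg_div, div_div_eq_mul_div]
  ring

theorem tE_val : (tE XM cr).val [x, T, x', t'] = tR XM cr x T := by
  simp only [tE, E.val, lkR, tR]
  push_cast
  rw [div_div_eq_mul_div]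
  ring

theorem S2E_val : (S2E XM cr F).val [x, T, x', t'] =
    F.val [x, T, x', t'] - s2 (mR cr T) x (tR XM cr x T) x' t' := by
  rw [S2E, E.val, e2_val, mE_val, tE_val]
  rfl

theorem S1E_val : (S1E XM cr F).val [x, T, x', t'] =
    F.val [x, T, x', t'] - s1 (mR cr T) x (tR XM cr x T) x' t' := by
  rw [S1E, E.val, e1_val, mE_val, tE_val]
  rfl

theorem yE_val : (yE XM cr).val [x, T, x', t'] = tR XM cr x T + t' := by
  rw [yE, E.val, tE_val]
  rfl

theorem uE_val : uE.val [x, T, x', t'] = x + x' := rfl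

theorem N2E_val : (N2E XM cr F r).val [x, T, x', t'] = F.val [x, T, x', t'] -
    n2 (nearL (tR XM cr x T + t')) r (mR cr T) x (tR XM cr x T) x' t' := by
  rw [N2E, E.val, en2_val, mE_val, tE_val, nearE_val, yE_val]
  simp only [E.val, lkR]
  norm_num

theorem N1E_val : (N1E XM cr F r).val [x, T, x', t'] = F.val [x, T, x', t'] -
    n1 (nearL (tR XM cr x T + t')) r (mR cr T) x (tR XM cr x T) x' t' := by
  rw [N1E, E.val, en1_val, mE_val, tE_val, nearE_val, yE_val]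
  simp only [E.val, lkR]
  norm_num

theorem B2E_val : (B2E XM cr F r).val [x, T, x', t'] = F.val [x, T, x', t'] -
    n2 (lnA (x + x' - 1) (tR XM cr x T + t')) r (mR cr T) x (tR XM cr x T) x' t' := by
  rw [B2E, E.val, en2_val, mE_val, tE_val]
  simp only [E.val, lkR, uE_val, yE_val]
  norm_num

theorem B1E_val : (B1E XM cr F r).val [x, T, x', t'] = F.val [x, T, x', t'] -
    n1 (lnA (x + x' - 1) (tR XM cr x T + t')) r (mR cr T) x (tR XM cr x T) x' t' := by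
  rw [B1E, E.val, en1_val, mE_val, tE_val]
  simp only [E.val, lkR, uE_val, yE_val]
  norm_num

/-- the check with alternatives which do not occur -/
theorem pos_box {G : E} {al : List E} {fuel : ℕ} {a1 b1 a2 b2 a3 b3 a4 b4 : ℤ}
    (h : chk (G :: al) fuel [V.of 10000 a1 b1, V.of 10000 a2 b2, V.of 10000 a3 b3,
      V.of 10000 a4 b4] = true)
    (h1 : (a1 : ℝ) / 10000 ≤ x ∧ x ≤ (b1 : ℝ) / 10000)
    (h2 : (a2 : ℝ) / 10000 ≤ T ∧ T ≤ (b2 : ℝ) / 10000)
    (h3 : (a3 : ℝ) / 10000 ≤ x' ∧ x' ≤ (b3 : ℝ) / 10000)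
    (h4 : (a4 : ℝ) / 10000 ≤ t' ∧ t' ≤ (b4 : ℝ) / 10000)
    (hal : ∀ e ∈ al, e.val [x, T, x', t'] ≤ 0) : 0 < G.val [x, T, x', t'] := by
  obtain ⟨f, hf, hp⟩ := chk4 h (by norm_num) (x := x) (y := T) (z := x') (w := t')
    (by exact_mod_cast h1.1) (by exact_mod_cast h1.2) (by exact_mod_cast h2.1)
    (by exact_mod_cast h2.2) (by exact_mod_cast h3.1) (by exact_mod_cast h3.2)
    (by exact_mod_cast h4.1) (by exact_mod_cast h4.2)
  rcases List.mem_cons.1 hf with rfl | hf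
  · exact hp
  · exact absurd hp (not_lt.2 (hal f hf))

open E

theorem z1S {fuel : ℕ} {a1 b1 a2 b2 a3 b3 a4 b4 : ℤ}
    (h : chk [S1E XM cr F, sub uE (q 5 6)] fuel
      [V.of 10000 a1 b1, V.of 10000 a2 b2, V.of 10000 a3 b3, V.of 10000 a4 b4] = true)
    (h1 : (a1 : ℝ) / 10000 ≤ x ∧ x ≤ (b1 : ℝ) / 10000)
    (h2 : (a2 : ℝ) / 10000 ≤ T ∧ T ≤ (b2 : ℝ) / 10000)
    (h3 : (a3 : ℝ) / 10000 ≤ x' ∧ x' ≤ (b3 : ℝ) / 10000)
    (h4 : (a4 : ℝ) / 10000 ≤ t' ∧ t' ≤ (b4 : ℝ) / 10000)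
    (h5 : x + x' ≤ 5 / 6) :
    s1 (mR cr T) x (tR XM cr x T) x' t' < F.val [x, T, x', t'] := by
  have := pos_box h h1 h2 h3 h4 (by
    intro e he
    simp only [List.mem_cons, List.not_mem_nil, or_false] at he
    rw [he, E.val, uE_val]
    simp only [E.val]
    norm_num
    linarith only [h5])
  rw [S1E_val] at this
  linarith only [this]

theorem z1N {s : E} {fuel : ℕ} {a1 b1 a2 b2 a3 b3 a4 b4 : ℤ}
    (h : chk [N1E XM cr F r, sub (q 5 6) uE, sub uE (q 7 6), s] fuel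
      [V.of 10000 a1 b1, V.of 10000 a2 b2, V.of 10000 a3 b3, V.of 10000 a4 b4] = true)
    (h1 : (a1 : ℝ) / 10000 ≤ x ∧ x ≤ (b1 : ℝ) / 10000)
    (h2 : (a2 : ℝ) / 10000 ≤ T ∧ T ≤ (b2 : ℝ) / 10000)
    (h3 : (a3 : ℝ) / 10000 ≤ x' ∧ x' ≤ (b3 : ℝ) / 10000)
    (h4 : (a4 : ℝ) / 10000 ≤ t' ∧ t' ≤ (b4 : ℝ) / 10000)
    (h5 : 5 / 6 ≤ x + x') (h6 : x + x' ≤ 7 / 6) (h7 : s.val [x, T, x', t'] ≤ 0) :
    n1 (nearL (tR XM cr x T + t')) r (mR cr T) x (tR XM cr x T) x' t' <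
      F.val [x, T, x', t'] := by
  have := pos_box h h1 h2 h3 h4 (by
    intro e he
    simp only [List.mem_cons, List.not_mem_nil, or_false] at he
    rcases he with rfl | rfl | rfl
    · rw [E.val, uE_val]
      simp only [E.val]
      norm_num
      linarith only [h5]
    · rw [E.val, uE_val]
      simp only [E.val]
      norm_num
      linarith only [h6]
    · exact h7)
  rw [N1E_val] at this
  linarith only [this]

theorem z1B {s : E} {fuel : ℕ} {a1 b1 a2 b2 a3 b3 a4 b4 : ℤ}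
    (h : chk [B1E XM cr F r, sub (q 7 6) uE, s] fuel
      [V.of 10000 a1 b1, V.of 10000 a2 b2, V.of 10000 a3 b3, V.of 10000 a4 b4] = true)
    (h1 : (a1 : ℝ) / 10000 ≤ x ∧ x ≤ (b1 : ℝ) / 10000)
    (h2 : (a2 : ℝ) / 10000 ≤ T ∧ T ≤ (b2 : ℝ) / 10000)
    (h3 : (a3 : ℝ) / 10000 ≤ x' ∧ x' ≤ (b3 : ℝ) / 10000)
    (h4 : (a4 : ℝ) / 10000 ≤ t' ∧ t' ≤ (b4 : ℝ) / 10000)
    (h5 : 7 / 6 ≤ x + x') (h7 : s.val [x, T, x', t'] ≤ 0) :
    n1 (lnA (x + x' - 1) (tR XM cr x T + t')) r (mR cr T) x (tR XM cr x T) x' t' <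
      F.val [x, T, x', t'] := by
  have := pos_box h h1 h2 h3 h4 (by
    intro e he
    simp only [List.mem_cons, List.not_mem_nil, or_false] at he
    rcases he with rfl | rfl
    · rw [E.val, uE_val]
      simp only [E.val]
      norm_num
      linarith only [h5]
    · exact h7)
  rw [B1E_val] at this
  linarith only [this]

theorem z2S {fuel : ℕ} {a1 b1 a2 b2 a3 b3 a4 b4 : ℤ}
    (h : chk [S2E XM cr F, sub uE (q 5 6)] fuel
      [V.of 10000 a1 b1, V.of 10000 a2 b2, V.of 10000 a3 b3, V.of 10000 a4 b4] = true)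
    (h1 : (a1 : ℝ) / 10000 ≤ x ∧ x ≤ (b1 : ℝ) / 10000)
    (h2 : (a2 : ℝ) / 10000 ≤ T ∧ T ≤ (b2 : ℝ) / 10000)
    (h3 : (a3 : ℝ) / 10000 ≤ x' ∧ x' ≤ (b3 : ℝ) / 10000)
    (h4 : (a4 : ℝ) / 10000 ≤ t' ∧ t' ≤ (b4 : ℝ) / 10000)
    (h5 : x + x' ≤ 5 / 6) :
    s2 (mR cr T) x (tR XM cr x T) x' t' < F.val [x, T, x', t'] := by
  have := pos_box h h1 h2 h3 h4 (by
    intro e he
    simp only [List.mem_cons, List.not_mem_nil, or_false] at he
    rw [he, E.val, uE_val]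
    simp only [E.val]
    norm_num
    linarith only [h5])
  rw [S2E_val] at this
  linarith only [this]

theorem z2N {s : E} {fuel : ℕ} {a1 b1 a2 b2 a3 b3 a4 b4 : ℤ}
    (h : chk [N2E XM cr F r, sub (q 5 6) uE, sub uE (q 7 6), s] fuel
      [V.of 10000 a1 b1, V.of 10000 a2 b2, V.of 10000 a3 b3, V.of 10000 a4 b4] = true)
    (h1 : (a1 : ℝ) / 10000 ≤ x ∧ x ≤ (b1 : ℝ) / 10000)
    (h2 : (a2 : ℝ) / 10000 ≤ T ∧ T ≤ (b2 : ℝ) / 10000)
    (h3 : (a3 : ℝ) / 10000 ≤ x' ∧ x' ≤ (b3 : ℝ) / 10000)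
    (h4 : (a4 : ℝ) / 10000 ≤ t' ∧ t' ≤ (b4 : ℝ) / 10000)
    (h5 : 5 / 6 ≤ x + x') (h6 : x + x' ≤ 7 / 6) (h7 : s.val [x, T, x', t'] ≤ 0) :
    n2 (nearL (tR XM cr x T + t')) r (mR cr T) x (tR XM cr x T) x' t' <
      F.val [x, T, x', t'] := by
  have := pos_box h h1 h2 h3 h4 (by
    intro e he
    simp only [List.mem_cons, List.not_mem_nil, or_false] at he
    rcases he with rfl | rfl | rfl
    · rw [E.val, uE_val]
      simp only [E.val]
      norm_num
      linarith only [h5]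
    · rw [E.val, uE_val]
      simp only [E.val]
      norm_num
      linarith only [h6]
    · exact h7)
  rw [N2E_val] at this
  linarith only [this]

theorem z2B {s : E} {fuel : ℕ} {a1 b1 a2 b2 a3 b3 a4 b4 : ℤ}
    (h : chk [B2E XM cr F r, sub (q 7 6) uE, s] fuel
      [V.of 10000 a1 b1, V.of 10000 a2 b2, V.of 10000 a3 b3, V.of 10000 a4 b4] = true)
    (h1 : (a1 : ℝ) / 10000 ≤ x ∧ x ≤ (b1 : ℝ) / 10000)
    (h2 : (a2 : ℝ) / 10000 ≤ T ∧ T ≤ (b2 : ℝ) / 10000)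
    (h3 : (a3 : ℝ) / 10000 ≤ x' ∧ x' ≤ (b3 : ℝ) / 10000)
    (h4 : (a4 : ℝ) / 10000 ≤ t' ∧ t' ≤ (b4 : ℝ) / 10000)
    (h5 : 7 / 6 ≤ x + x') (h7 : s.val [x, T, x', t'] ≤ 0) :
    n2 (lnA (x + x' - 1) (tR XM cr x T + t')) r (mR cr T) x (tR XM cr x T) x' t' <
      F.val [x, T, x', t'] := by
  have := pos_box h h1 h2 h3 h4 (by
    intro e he
    simp only [List.mem_cons, List.not_mem_nil, or_false] at he
    rcases he with rfl | rfl
    · rw [E.val, uE_val]
      simp only [E.val]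
      norm_num
      linarith only [h5]
    · exact h7)
  rw [B2E_val] at this
  linarith only [this]

theorem q0_val {xs : List ℝ} : (q 0 1).val xs ≤ 0 := by
  simp only [E.val]
  norm_num

theorem yE_le (h : tR XM cr x T + t' ≤ 0) : (yE XM cr).val [x, T, x', t'] ≤ 0 := by
  rwa [yE_val]

theorem neg_yE_le (h : 0 ≤ tR XM cr x T + t') : (neg (yE XM cr)).val [x, T, x', t'] ≤ 0 := by
  rw [E.val, yE_val]
  linarith only [h]

theorem mR_nonneg (h : T ≤ 0) : 0 ≤ mR cr T := by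
  unfold mR
  exact div_nonneg (by linarith only [h]) (by positivity)

theorem mR_nonpos (h : 0 ≤ T) : mR cr T ≤ 0 := by
  unfold mR
  exact div_nonpos_of_nonpos_of_nonneg (by linarith only [h]) (by positivity)

end MR

end Pool.Agent.Work.MP_b30479_gtS.G2

end

section

/-!
# Part of `R32B`
-/
set_option linter.unusedSimpArgs false
set_option linter.unusedVariables false

namespace Pool.Agent.Work.MP_b30479_gtS.G2

open VOL NumIs

namespace MR

open E

/-- bound -/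
def F_r32_two : E := add (q (-15) 100) (mul (q 32 10) (var 1))

/-- bound -/
def F_r32_two_b : E := add (q (-17) 100) (mul (q 34 10) (var 1))

/-- bound -/
def F_r32_twoE : E := q (-50) 100

/-- bound -/
def F_r32_three : E := sub (add (q (-243) 1000) (mul (q 32 10) (var 1))) (mul (q 3 1) (sub (var 0) (q 30 100)))

/-- bound -/
def F_r32_three_b : E := q (-32) 100

/-- bound -/
def F_r32_threeE : E := q (-25) 100

/-- bound -/
def F_r32_ring : E := q (-11) 100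

/-- bound -/
def F_r32_ring_b : E := sub (q (-44) 100) (mul pi (mE 30))

end MR

end Pool.Agent.Work.MP_b30479_gtS.G2

end

section

/-!
# Part of `R32B`
-/
set_option linter.unusedSimpArgs false
set_option linter.unusedVariables false

namespace Pool.Agent.Work.MP_b30479_gtS.G2

open VOL NumIs

namespace MR

open E

theorem im_le0 {XM cr : ℕ} {x T : ℝ} (hT : T ≤ 0) (hx : x ≤ XM / 100) : tR XM cr x T ≤ 0 := by
  unfold tR
  exact mul_nonpos_of_nonpos_of_nonneg hT (div_nonneg (by linarith only [hx]) (by positivity))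

theorem im_ge0 {XM cr : ℕ} {x T : ℝ} (hT : 0 ≤ T) (hx : x ≤ XM / 100) : 0 ≤ tR XM cr x T := by
  unfold tR
  exact mul_nonneg hT (div_nonneg (by linarith only [hx]) (by positivity))

end MR

end Pool.Agent.Work.MP_b30479_gtS.G2

end

section

/-!
# Partner hinges on their paths
-/

namespace Pool.Agent.Work.MP_b30479_gtS.G2

open VOL NumIs

namespace MR

/-- `v` lies on a path of height `k` with right end at most `XM` -/
structure PH (v : ℂ) (k XM cl cr : ℝ) : Prop where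
  re0 : 0 ≤ v.re
  reM : v.re ≤ XM
  left : v.re ≤ cl → v.im = k * (v.re / cl)
  mid : ∃ τ : ℝ, 0 ≤ τ ∧ τ ≤ 1 ∧ τ * cr ≤ XM - v.re ∧ v.im = k * τ

theorem PH.of_RH {v : ℂ} {k XM XM' cl cr : ℝ} (h : RH v k XM' cl cr) (hc : 0 < cl) (hc' : 0 < cr)
    (hb : cl + cr < XM') (hX : XM' ≤ XM) : PH v k XM cl cr := by
  refine ⟨h.re0, h.reM.trans hX, fun h1 => RH_left h hc hc' hb h1, tr 0 XM' cl cr v.re,
    le_max_left _ _, max_le zero_le_one (min_le_left _ _), ?_, h.im⟩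
  have h1 : tr 0 XM' cl cr v.re ≤ (XM' - v.re) / cr := by
    have h2 := h.reM
    exact max_le (div_nonneg (by linarith) hc'.le) ((min_le_right _ _).trans (min_le_right _ _))
  rw [le_div_iff₀ hc'] at h1
  linarith

end MR

end Pool.Agent.Work.MP_b30479_gtS.G2

end
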