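import Pool.Agent.Work.MP_b30479_gt.TBS.G2.SQuartF
import Pool.Agent.Work.MP_b30479_gt.TBS.G2.R3P

section

/-!
# Part of `R31D`
-/
set_option linter.unusedSimpArgs false
set_option linter.unusedVariables false
set_option linter.unusedTactic false
set_option linter.unreachableTactic false

namespace Pool.Agent.Work.MP_b30479_gtS.G2

open VOL NumIs

namespace MR

open E

/-- `F - S1`, the partner on its left ramp, height `k x' / (cl / 100)` -/
def K1E (XM cr cl : ℕ) (F : E) : E :=
  sub F (e1 (mE cr) (var 0) (tE XM cr) (var 2) (mul (var 3) (mul (q 100 cl) (var 2))))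

/-- `F - S1`, beyond `3/2` -/
def X1E (XM cr : ℕ) (F : E) : E :=
  sub F (en1 (lnA (sub uE (q 1 1)) (yE XM cr)) (q (-11) 10) (mE cr) (var 0) (tE XM cr) (var 2)
    (var 3))

variable {XM cr cl : ℕ} {F : E} {x T x' t' : ℝ} {r : ℤ}

theorem K1E_val : (K1E XM cr cl F).val [x, T, x', t'] = F.val [x, T, x', t'] -
    s1 (mR cr T) x (tR XM cr x T) x' (t' * (100 / cl * x')) := by
  rw [K1E, E.val, e1_val, mE_val, tE_val]
  simp only [E.val, lkR]
  push_cast
  rfl

theorem X1E_val : (X1E XM cr F).val [x, T, x', t'] = F.val [x, T, x', t'] -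
    n1 (lnA (x + x' - 1) (tR XM cr x T + t')) (-(11 / 10)) (mR cr T) x (tR XM cr x T) x' t' := by
  rw [X1E, E.val, en1_val, mE_val, tE_val]
  simp only [E.val, lkR, uE_val, yE_val]
  norm_num

theorem mul_YY_12 {m : ℝ} {u : ℂ} (hm : m ≤ 0) (h0 : 0 ≤ u.re) (h1 : u.re ≤ 16 / 10)
    (hi : u.im ≤ 0) : m * YY u ≤ m * (-(11 / 10) * Real.pi) := by
  have hp := Real.pi_pos
  refine mul_le_mul_of_nonpos_left ?_ hm
  rcases hi.lt_or_eq with hi | hi
  · rcases le_total u.re 1 with h2 | h2
    · have := YY_abs_le h0 h2
      have := (abs_le.1 this).1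
      linarith only [hp, this]
    · have e := YY_add_one (u - 1)
      rw [sub_add_cancel] at e
      have r1 : (u - 1).re = u.re - 1 := by simp
      have r2 : (u - 1).im = u.im := by simp
      rw [YY_neg (u := u - 1) (by rw [r2]; exact hi), if_neg (by rw [r2]; exact not_lt.2 hi.le),
        if_pos (by rw [r2]; exact hi), r1, r2] at e
      rw [e]
      rcases le_total (u.re - 1) (1 / 2) with h3 | h3
      · have := Tr_le_half (s := -u.im) (x := u.re - 1) (by linarith only [hi]) h3
        linarith only [hp, this]
      · have := Tr_le_pi_mul (s := -u.im) (x := u.re - 1) h3 (by linarith only [h1]) (by linarith only [hi])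
        have h4 : Real.pi * (u.re - 1) ≤ Real.pi * (6 / 10) :=
          mul_le_mul_of_nonneg_left (by linarith only [h1]) hp.le
        linarith only [this, h4]
  · rw [YY_zero hi]
    have : 0 ≤ 11 / 10 * Real.pi := by positivity
    linarith only [hp]

/-- bound -/
def F_r31d_one : E := add (q 565 1000) (mul (q 685 100) (sub (var 1) (q 21 1000)))

theorem r31d_one_h1_q1 : chk [K1E 65 29 15 F_r31d_one, sub (add (var 1) (var 3)) (q 111 1000), sub (q (-22) 1000) (add (var 1) (var 3))] 27
    (NumIs.setL 3 [V.of 10000 3600 5600, V.of 10000 210 920, V.of 10000 0 1500, V.of 10000 (-910) 490]) = true := by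
  decide +kernel

theorem r31d_one_h1_q2 : chk [K1E 65 29 15 F_r31d_one, sub (add (var 1) (var 3)) (q 111 1000), sub (q (-22) 1000) (add (var 1) (var 3))] 26
    (NumIs.setL 1 (NumIs.setR 3 [V.of 10000 3600 5600, V.of 10000 210 920, V.of 10000 0 1500, V.of 10000 (-910) 490])) = true := by
  decide +kernel

theorem r31d_one_h1_q3 : chk [K1E 65 29 15 F_r31d_one, sub (add (var 1) (var 3)) (q 111 1000), sub (q (-22) 1000) (add (var 1) (var 3))] 25
    (NumIs.setL 0 (NumIs.setR 1 (NumIs.setR 3 [V.of 10000 3600 5600, V.of 10000 210 920, V.of 10000 0 1500, V.of 10000 (-910) 490]))) = true := by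
  decide +kernel

theorem r31d_one_h1_q4 : chk [K1E 65 29 15 F_r31d_one, sub (add (var 1) (var 3)) (q 111 1000), sub (q (-22) 1000) (add (var 1) (var 3))] 25
    (NumIs.setR 0 (NumIs.setR 1 (NumIs.setR 3 [V.of 10000 3600 5600, V.of 10000 210 920, V.of 10000 0 1500, V.of 10000 (-910) 490]))) = true := by
  decide +kernel

theorem r31d_one_h1 : chk [K1E 65 29 15 F_r31d_one, sub (add (var 1) (var 3)) (q 111 1000), sub (q (-22) 1000) (add (var 1) (var 3))] 28
    [V.of 10000 3600 5600, V.of 10000 210 920, V.of 10000 0 1500, V.of 10000 (-910) 490] = true :=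
  NumIs.chk_node (i := 3) (by decide +kernel)
    r31d_one_h1_q1
    (NumIs.chk_node (i := 1) (by decide +kernel)
      r31d_one_h1_q2
      (NumIs.chk_node (i := 0) (by decide +kernel)
        r31d_one_h1_q3
        r31d_one_h1_q4))

theorem r31d_one_h2_q1 : chk [S1E 65 29 F_r31d_one, sub uE (q 5 6), sub (add (var 1) (var 3)) (q 111 1000), sub (q (-22) 1000) (add (var 1) (var 3))] 27
    (NumIs.setL 2 [V.of 10000 3600 5600, V.of 10000 210 920, V.of 10000 1500 4734, V.of 10000 (-910) 490]) = true := by
  decide +kernel

theorem r31d_one_h2_q2 : chk [S1E 65 29 F_r31d_one, sub uE (q 5 6), sub (add (var 1) (var 3)) (q 111 1000), sub (q (-22) 1000) (add (var 1) (var 3))] 27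
    (NumIs.setR 2 [V.of 10000 3600 5600, V.of 10000 210 920, V.of 10000 1500 4734, V.of 10000 (-910) 490]) = true := by
  decide +kernel

theorem r31d_one_h2 : chk [S1E 65 29 F_r31d_one, sub uE (q 5 6), sub (add (var 1) (var 3)) (q 111 1000), sub (q (-22) 1000) (add (var 1) (var 3))] 28
    [V.of 10000 3600 5600, V.of 10000 210 920, V.of 10000 1500 4734, V.of 10000 (-910) 490] = true :=
  NumIs.chk_node (i := 2) (by decide +kernel)
    r31d_one_h2_q1
    r31d_one_h2_q2

theorem r31d_one_h3 : chk [N1E 65 29 F_r31d_one (-1), sub (q 5 6) uE, sub uE (q 7 6), yE 65 29, sub (add (var 1) (var 3)) (q 111 1000), sub (q (-22) 1000) (add (var 1) (var 3))] 28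
    [V.of 10000 3600 5600, V.of 10000 210 920, V.of 10000 2733 8067, V.of 10000 (-910) 490] = true := by
  decide +kernel

theorem r31d_one_h4 : chk [N1E 65 29 F_r31d_one 0, sub (q 5 6) uE, sub uE (q 7 6), neg (yE 65 29), sub (add (var 1) (var 3)) (q 111 1000), sub (q (-22) 1000) (add (var 1) (var 3))] 28
    [V.of 10000 3600 5600, V.of 10000 210 920, V.of 10000 2733 8067, V.of 10000 (-910) 490] = true := by
  decide +kernel

theorem r31d_one_h5_q1 : chk [B1E 65 29 F_r31d_one (-1), sub (q 7 6) uE, yE 65 29, sub (add (var 1) (var 3)) (q 111 1000), sub (q (-22) 1000) (add (var 1) (var 3))] 27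
    (NumIs.setL 2 [V.of 10000 3600 5600, V.of 10000 210 920, V.of 10000 6066 8600, V.of 10000 (-910) 490]) = true := by
  decide +kernel

theorem r31d_one_h5_q2 : chk [B1E 65 29 F_r31d_one (-1), sub (q 7 6) uE, yE 65 29, sub (add (var 1) (var 3)) (q 111 1000), sub (q (-22) 1000) (add (var 1) (var 3))] 27
    (NumIs.setR 2 [V.of 10000 3600 5600, V.of 10000 210 920, V.of 10000 6066 8600, V.of 10000 (-910) 490]) = true := by
  decide +kernel

theorem r31d_one_h5 : chk [B1E 65 29 F_r31d_one (-1), sub (q 7 6) uE, yE 65 29, sub (add (var 1) (var 3)) (q 111 1000), sub (q (-22) 1000) (add (var 1) (var 3))] 28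
    [V.of 10000 3600 5600, V.of 10000 210 920, V.of 10000 6066 8600, V.of 10000 (-910) 490] = true :=
  NumIs.chk_node (i := 2) (by decide +kernel)
    r31d_one_h5_q1
    r31d_one_h5_q2

theorem r31d_one_h6 : chk [B1E 65 29 F_r31d_one 0, sub (q 7 6) uE, neg (yE 65 29), sub (add (var 1) (var 3)) (q 111 1000), sub (q (-22) 1000) (add (var 1) (var 3))] 28
    [V.of 10000 3600 5600, V.of 10000 210 920, V.of 10000 6066 8600, V.of 10000 (-910) 490] = true := by
  decide +kernel

/-- bound -/
def F_r31d_one_b : E := add (q 62 100) (mul (q 122 10) (sub (var 1) (q 21 1000)))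

/-- bound -/
def F_r31d_two : E := add (q 83 100) (mul (q 7 1) (sub (var 1) (q 46 1000)))

/-- bound -/
def F_r31d_twoE : E := add (q 99 100) (mul (q 98 10) (sub (var 1) (q 87 1000)))

/-- bound -/
def F_r31d_twoE_b : E := add (q 142 100) (mul (q 11 1) (sub (var 1) (q 87 1000)))

end MR

end Pool.Agent.Work.MP_b30479_gtS.G2

end

section

/-!
# Right ramp of the hinge between an interior region with three crossings (left) and a digit `±1`

Side of the digit.
-/

set_option linter.unusedSimpArgs false
set_option linter.unusedVariables false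
set_option linter.unusedTactic false
set_option linter.unreachableTactic false

namespace Pool.Agent.Work.MP_b30479_gtS.G2

open VOL NumIs

namespace MR

open E

variable {XM cr cl : ℕ} {F : E} {x T x' t' : ℝ} {r : ℤ}

/-- side of the digit, its other neighbour is a `2` at an end -/
theorem r31d_twoE {w v : ℂ} {T k : ℝ} (hT : 870 / 10000 ≤ T) (hT' : T ≤ 1145 / 10000)
    (hw : w.im = tR 65 29 w.re T) (hx : 3700 / 10000 ≤ w.re) (hx' : w.re ≤ 5200 / 10000)
    (hv : PH v k (70 / 100) (14 / 100) (35 / 100)) (k0 : -(450 / 10000) ≤ k) (k1 : k ≤ -(250 / 10000)) :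
    S1 1 (mR 29 T) w v < 99 / 100 + 98 / 10 * (T - 87 / 1000) := by
  have hF : ∀ x' t' : ℝ, F_r31d_twoE.val [w.re, T, x', t'] = 99 / 100 + 98 / 10 * (T - 87 / 1000) := by
    intro x' t'
    simp only [F_r31d_twoE, E.val, lkR]
    push_cast
    ring
  have hre : (w + v).re = w.re + v.re := Complex.add_re _ _
  have him : (w + v).im = w.im + v.im := Complex.add_im _ _
  have hT0 : 0 ≤ T := by linarith only [hT]
  have v0 := hv.re0
  have v1 := hv.reM
  have hs0 : 0 ≤ w.im := by
    rw [hw]
    exact im_ge0 hT0 (by norm_num; linarith only [hx'])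
  obtain ⟨τ, τ0, τ1, -, hτ⟩ := hv.mid
  have i0 : -(450 / 10000) ≤ v.im := by rw [hτ]; nlinarith only [τ1, k0, τ0]
  have i1 : v.im ≤ 0 / 10000 := by rw [hτ]; nlinarith only [τ0, k1]
  rw [← hF v.re v.im]
  apply S1_zone (by linarith only [hx]) (by linarith only [hx']) (by linarith only [v0]) (by linarith only [hx', v1])
  · intro h5
    rw [hw]
    have := pos_box (G := S1E 65 29 F_r31d_twoE) (al := [sub uE (q 5 6)]) (fuel := 28)
      (x := w.re) (T := T) (x' := v.re) (t' := v.im)
      (by decide +kernel : chk [S1E 65 29 F_r31d_twoE, sub uE (q 5 6)] 28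
        [V.of 10000 3700 5200, V.of 10000 870 1145, V.of 10000 0 4634, V.of 10000 (-450) 0] = true)
      ⟨by norm_num; linarith only [hx], by norm_num; linarith only [hx']⟩ ⟨by norm_num; linarith only [hT], by norm_num; linarith only [hT']⟩ ⟨by norm_num; linarith only [v0], by norm_num; linarith only [hx, h5]⟩
      ⟨by norm_num; linarith only [i0], by norm_num; linarith only [i1]⟩ (by
        intro e he
        simp only [List.mem_cons, List.not_mem_nil, or_false] at he
        rcases he with rfl <;> (simp only [E.val, uE_val, yE_val, lkR]; norm_num; linarith only [h5]))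
    rw [S1E_val] at this
    linarith only [this]
  · intro h5 h6
    rcases le_total (w.im + v.im) 0 with hs | hs
    · refine ⟨((-1 : ℤ) : ℝ), by simpa using mul_YY_11 (mR_nonpos hT0) (by rw [hre]; linarith only [h5]) (by rw [hre]; linarith only [hx', v1]), ?_⟩
      rw [hw] at hs ⊢
      have := pos_box (G := N1E 65 29 F_r31d_twoE (-1)) (al := [sub (q 5 6) uE, sub uE (q 7 6), yE 65 29]) (fuel := 28)
        (x := w.re) (T := T) (x' := v.re) (t' := v.im)
        (by decide +kernel : chk [N1E 65 29 F_r31d_twoE (-1), sub (q 5 6) uE, sub uE (q 7 6), yE 65 29] 28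
          [V.of 10000 3700 5200, V.of 10000 870 1145, V.of 10000 3133 7000, V.of 10000 (-450) 0] = true)
        ⟨by norm_num; linarith only [hx], by norm_num; linarith only [hx']⟩ ⟨by norm_num; linarith only [hT], by norm_num; linarith only [hT']⟩ ⟨by norm_num; linarith only [hx', h5], by norm_num; linarith only [v1]⟩
        ⟨by norm_num; linarith only [i0], by norm_num; linarith only [i1]⟩ (by
          intro e he
          simp only [List.mem_cons, List.not_mem_nil, or_false] at he
          rcases he with rfl | rfl | rfl <;> (simp only [E.val, uE_val, yE_val, lkR]; norm_num; linarith only [h5, h6, hs]))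
      rw [N1E_val] at this
      linarith only [this]
    · refine ⟨((0 : ℤ) : ℝ), by simpa using mul_YY_10 (mR_nonpos hT0) (by rw [hre]; linarith only [h5]) (by rw [him]; exact hs), ?_⟩
      rw [hw] at hs ⊢
      have := pos_box (G := N1E 65 29 F_r31d_twoE 0) (al := [sub (q 5 6) uE, sub uE (q 7 6), neg (yE 65 29)]) (fuel := 28)
        (x := w.re) (T := T) (x' := v.re) (t' := v.im)
        (by decide +kernel : chk [N1E 65 29 F_r31d_twoE 0, sub (q 5 6) uE, sub uE (q 7 6), neg (yE 65 29)] 28
          [V.of 10000 3700 5200, V.of 10000 870 1145, V.of 10000 3133 7000, V.of 10000 (-450) 0] = true)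
        ⟨by norm_num; linarith only [hx], by norm_num; linarith only [hx']⟩ ⟨by norm_num; linarith only [hT], by norm_num; linarith only [hT']⟩ ⟨by norm_num; linarith only [hx', h5], by norm_num; linarith only [v1]⟩
        ⟨by norm_num; linarith only [i0], by norm_num; linarith only [i1]⟩ (by
          intro e he
          simp only [List.mem_cons, List.not_mem_nil, or_false] at he
          rcases he with rfl | rfl | rfl <;> (simp only [E.val, uE_val, yE_val, lkR]; norm_num; linarith only [h5, h6, hs]))
      rw [N1E_val] at this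
      linarith only [this]
  · intro h5
    rcases le_total (w.im + v.im) 0 with hs | hs
    · refine ⟨((-1 : ℤ) : ℝ), by simpa using mul_YY_11 (mR_nonpos hT0) (by rw [hre]; linarith only [h5]) (by rw [hre]; linarith only [hx', v1]), ?_⟩
      rw [hw] at hs ⊢
      have := pos_box (G := B1E 65 29 F_r31d_twoE (-1)) (al := [sub (q 7 6) uE, yE 65 29]) (fuel := 28)
        (x := w.re) (T := T) (x' := v.re) (t' := v.im)
        (by decide +kernel : chk [B1E 65 29 F_r31d_twoE (-1), sub (q 7 6) uE, yE 65 29] 28
          [V.of 10000 3700 5200, V.of 10000 870 1145, V.of 10000 6466 7000, V.of 10000 (-450) 0] = true)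
        ⟨by norm_num; linarith only [hx], by norm_num; linarith only [hx']⟩ ⟨by norm_num; linarith only [hT], by norm_num; linarith only [hT']⟩ ⟨by norm_num; linarith only [hx', h5], by norm_num; linarith only [v1]⟩
        ⟨by norm_num; linarith only [i0], by norm_num; linarith only [i1]⟩ (by
          intro e he
          simp only [List.mem_cons, List.not_mem_nil, or_false] at he
          rcases he with rfl | rfl <;> (simp only [E.val, uE_val, yE_val, lkR]; norm_num; linarith only [h5, hs]))
      rw [B1E_val] at this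
      linarith only [this]
    · refine ⟨((0 : ℤ) : ℝ), by simpa using mul_YY_10 (mR_nonpos hT0) (by rw [hre]; linarith only [h5]) (by rw [him]; exact hs), ?_⟩
      rw [hw] at hs ⊢
      have := pos_box (G := B1E 65 29 F_r31d_twoE 0) (al := [sub (q 7 6) uE, neg (yE 65 29)]) (fuel := 28)
        (x := w.re) (T := T) (x' := v.re) (t' := v.im)
        (by decide +kernel : chk [B1E 65 29 F_r31d_twoE 0, sub (q 7 6) uE, neg (yE 65 29)] 28
          [V.of 10000 3700 5200, V.of 10000 870 1145, V.of 10000 6466 7000, V.of 10000 (-450) 0] = true)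
        ⟨by norm_num; linarith only [hx], by norm_num; linarith only [hx']⟩ ⟨by norm_num; linarith only [hT], by norm_num; linarith only [hT']⟩ ⟨by norm_num; linarith only [hx', h5], by norm_num; linarith only [v1]⟩
        ⟨by norm_num; linarith only [i0], by norm_num; linarith only [i1]⟩ (by
          intro e he
          simp only [List.mem_cons, List.not_mem_nil, or_false] at he
          rcases he with rfl | rfl <;> (simp only [E.val, uE_val, yE_val, lkR]; norm_num; linarith only [h5, hs]))
      rw [B1E_val] at this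
      linarith only [this]

/-- side of the digit, its other neighbour is a `2` at an end -/
theorem r31d_twoE_b {w v : ℂ} {T k : ℝ} (hT : 870 / 10000 ≤ T) (hT' : T ≤ 1145 / 10000)
    (hw : w.im = tR 65 29 w.re T) (hx : 5200 / 10000 ≤ w.re) (hx' : w.re ≤ 6500 / 10000)
    (hv : PH v k (70 / 100) (14 / 100) (35 / 100)) (k0 : -(450 / 10000) ≤ k) (k1 : k ≤ -(250 / 10000)) :
    S1 1 (mR 29 T) w v < 142 / 100 + 11 / 1 * (T - 87 / 1000) := by
  have hF : ∀ x' t' : ℝ, F_r31d_twoE_b.val [w.re, T, x', t'] = 142 / 100 + 11 / 1 * (T - 87 / 1000) := by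
    intro x' t'
    simp only [F_r31d_twoE_b, E.val, lkR]
    push_cast
    ring
  have hre : (w + v).re = w.re + v.re := Complex.add_re _ _
  have him : (w + v).im = w.im + v.im := Complex.add_im _ _
  have hT0 : 0 ≤ T := by linarith only [hT]
  have v0 := hv.re0
  have v1 := hv.reM
  have hs0 : 0 ≤ w.im := by
    rw [hw]
    exact im_ge0 hT0 (by norm_num; linarith only [hx'])
  obtain ⟨τ, τ0, τ1, -, hτ⟩ := hv.mid
  have i0 : -(450 / 10000) ≤ v.im := by rw [hτ]; nlinarith only [τ1, k0, τ0]
  have i1 : v.im ≤ 0 / 10000 := by rw [hτ]; nlinarith only [τ0, k1]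
  rw [← hF v.re v.im]
  apply S1_zone (by linarith only [hx]) (by linarith only [hx']) (by linarith only [v0]) (by linarith only [hx', v1])
  · intro h5
    rw [hw]
    have := pos_box (G := S1E 65 29 F_r31d_twoE_b) (al := [sub uE (q 5 6)]) (fuel := 28)
      (x := w.re) (T := T) (x' := v.re) (t' := v.im)
      (by decide +kernel : chk [S1E 65 29 F_r31d_twoE_b, sub uE (q 5 6)] 28
        [V.of 10000 5200 6500, V.of 10000 870 1145, V.of 10000 0 3134, V.of 10000 (-450) 0] = true)
      ⟨by norm_num; linarith only [hx], by norm_num; linarith only [hx']⟩ ⟨by norm_num; linarith only [hT], by norm_num; linarith only [hT']⟩ ⟨by norm_num; linarith only [v0], by norm_num; linarith only [hx, h5]⟩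
      ⟨by norm_num; linarith only [i0], by norm_num; linarith only [i1]⟩ (by
        intro e he
        simp only [List.mem_cons, List.not_mem_nil, or_false] at he
        rcases he with rfl <;> (simp only [E.val, uE_val, yE_val, lkR]; norm_num; linarith only [h5]))
    rw [S1E_val] at this
    linarith only [this]
  · intro h5 h6
    rcases le_total (w.im + v.im) 0 with hs | hs
    · refine ⟨((-1 : ℤ) : ℝ), by simpa using mul_YY_11 (mR_nonpos hT0) (by rw [hre]; linarith only [h5]) (by rw [hre]; linarith only [hx', v1]), ?_⟩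
      rw [hw] at hs ⊢
      have := pos_box (G := N1E 65 29 F_r31d_twoE_b (-1)) (al := [sub (q 5 6) uE, sub uE (q 7 6), yE 65 29]) (fuel := 28)
        (x := w.re) (T := T) (x' := v.re) (t' := v.im)
        (by decide +kernel : chk [N1E 65 29 F_r31d_twoE_b (-1), sub (q 5 6) uE, sub uE (q 7 6), yE 65 29] 28
          [V.of 10000 5200 6500, V.of 10000 870 1145, V.of 10000 1833 6467, V.of 10000 (-450) 0] = true)
        ⟨by norm_num; linarith only [hx], by norm_num; linarith only [hx']⟩ ⟨by norm_num; linarith only [hT], by norm_num; linarith only [hT']⟩ ⟨by norm_num; linarith only [hx', h5], by norm_num; linarith only [hx, h6]⟩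
        ⟨by norm_num; linarith only [i0], by norm_num; linarith only [i1]⟩ (by
          intro e he
          simp only [List.mem_cons, List.not_mem_nil, or_false] at he
          rcases he with rfl | rfl | rfl <;> (simp only [E.val, uE_val, yE_val, lkR]; norm_num; linarith only [h5, h6, hs]))
      rw [N1E_val] at this
      linarith only [this]
    · refine ⟨((0 : ℤ) : ℝ), by simpa using mul_YY_10 (mR_nonpos hT0) (by rw [hre]; linarith only [h5]) (by rw [him]; exact hs), ?_⟩
      rw [hw] at hs ⊢
      have := pos_box (G := N1E 65 29 F_r31d_twoE_b 0) (al := [sub (q 5 6) uE, sub uE (q 7 6), neg (yE 65 29)]) (fuel := 28)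
        (x := w.re) (T := T) (x' := v.re) (t' := v.im)
        (by decide +kernel : chk [N1E 65 29 F_r31d_twoE_b 0, sub (q 5 6) uE, sub uE (q 7 6), neg (yE 65 29)] 28
          [V.of 10000 5200 6500, V.of 10000 870 1145, V.of 10000 1833 6467, V.of 10000 (-450) 0] = true)
        ⟨by norm_num; linarith only [hx], by norm_num; linarith only [hx']⟩ ⟨by norm_num; linarith only [hT], by norm_num; linarith only [hT']⟩ ⟨by norm_num; linarith only [hx', h5], by norm_num; linarith only [hx, h6]⟩
        ⟨by norm_num; linarith only [i0], by norm_num; linarith only [i1]⟩ (by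
          intro e he
          simp only [List.mem_cons, List.not_mem_nil, or_false] at he
          rcases he with rfl | rfl | rfl <;> (simp only [E.val, uE_val, yE_val, lkR]; norm_num; linarith only [h5, h6, hs]))
      rw [N1E_val] at this
      linarith only [this]
  · intro h5
    rcases le_total (w.im + v.im) 0 with hs | hs
    · refine ⟨((-1 : ℤ) : ℝ), by simpa using mul_YY_11 (mR_nonpos hT0) (by rw [hre]; linarith only [h5]) (by rw [hre]; linarith only [hx', v1]), ?_⟩
      rw [hw] at hs ⊢
      have := pos_box (G := B1E 65 29 F_r31d_twoE_b (-1)) (al := [sub (q 7 6) uE, yE 65 29]) (fuel := 28)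
        (x := w.re) (T := T) (x' := v.re) (t' := v.im)
        (by decide +kernel : chk [B1E 65 29 F_r31d_twoE_b (-1), sub (q 7 6) uE, yE 65 29] 28
          [V.of 10000 5200 6500, V.of 10000 870 1145, V.of 10000 5166 7000, V.of 10000 (-450) 0] = true)
        ⟨by norm_num; linarith only [hx], by norm_num; linarith only [hx']⟩ ⟨by norm_num; linarith only [hT], by norm_num; linarith only [hT']⟩ ⟨by norm_num; linarith only [hx', h5], by norm_num; linarith only [v1]⟩
        ⟨by norm_num; linarith only [i0], by norm_num; linarith only [i1]⟩ (by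
          intro e he
          simp only [List.mem_cons, List.not_mem_nil, or_false] at he
          rcases he with rfl | rfl <;> (simp only [E.val, uE_val, yE_val, lkR]; norm_num; linarith only [h5, hs]))
      rw [B1E_val] at this
      linarith only [this]
    · refine ⟨((0 : ℤ) : ℝ), by simpa using mul_YY_10 (mR_nonpos hT0) (by rw [hre]; linarith only [h5]) (by rw [him]; exact hs), ?_⟩
      rw [hw] at hs ⊢
      have := pos_box (G := B1E 65 29 F_r31d_twoE_b 0) (al := [sub (q 7 6) uE, neg (yE 65 29)]) (fuel := 28)
        (x := w.re) (T := T) (x' := v.re) (t' := v.im)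
        (by decide +kernel : chk [B1E 65 29 F_r31d_twoE_b 0, sub (q 7 6) uE, neg (yE 65 29)] 28
          [V.of 10000 5200 6500, V.of 10000 870 1145, V.of 10000 5166 7000, V.of 10000 (-450) 0] = true)
        ⟨by norm_num; linarith only [hx], by norm_num; linarith only [hx']⟩ ⟨by norm_num; linarith only [hT], by norm_num; linarith only [hT']⟩ ⟨by norm_num; linarith only [hx', h5], by norm_num; linarith only [v1]⟩
        ⟨by norm_num; linarith only [i0], by norm_num; linarith only [i1]⟩ (by
          intro e he
          simp only [List.mem_cons, List.not_mem_nil, or_false] at he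
          rcases he with rfl | rfl <;> (simp only [E.val, uE_val, yE_val, lkR]; norm_num; linarith only [h5, hs]))
      rw [B1E_val] at this
      linarith only [this]

end MR

end Pool.Agent.Work.MP_b30479_gtS.G2

end

section

/-!
# Part of `R31D`
-/
set_option linter.unusedSimpArgs false
set_option linter.unusedVariables false
set_option linter.unusedTactic false
set_option linter.unreachableTactic false

namespace Pool.Agent.Work.MP_b30479_gtS.G2

open VOL NumIs

namespace MR

open E

variable {XM cr cl : ℕ} {F : E} {x T x' t' : ℝ} {r : ℤ}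

/-- side of the digit, its other neighbour is an interior `2` -/
theorem r31d_two {w v : ℂ} {T k : ℝ} (hT : 460 / 10000 ≤ T) (hT' : T ≤ 940 / 10000)
    (hw : w.im = tR 65 29 w.re T) (hx : 3850 / 10000 ≤ w.re) (hx' : w.re ≤ 6500 / 10000)
    (hv : PH v k (80 / 100) (16 / 100) (29 / 100)) (k0 : 100 / 10000 ≤ k) (k1 : k ≤ 770 / 10000) (s1 : T + k ≤ 148 / 1000) :
    S1 1 (mR 29 T) w v < 83 / 100 + 7 / 1 * (T - 46 / 1000) := by
  have hF : ∀ x' t' : ℝ, F_r31d_two.val [w.re, T, x', t'] = 83 / 100 + 7 / 1 * (T - 46 / 1000) := by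
    intro x' t'
    simp only [F_r31d_two, E.val, lkR]
    push_cast
    ring
  have hre : (w + v).re = w.re + v.re := Complex.add_re _ _
  have him : (w + v).im = w.im + v.im := Complex.add_im _ _
  have hT0 : 0 ≤ T := by linarith only [hT]
  have v0 := hv.re0
  have v1 := hv.reM
  have hs0 : 0 ≤ w.im := by
    rw [hw]
    exact im_ge0 hT0 (by norm_num; linarith only [hx'])
  obtain ⟨τ, τ0, τ1, -, hτ⟩ := hv.mid
  have i0 : 0 / 10000 ≤ v.im := by rw [hτ]; nlinarith only [τ0, k0]
  have i1 : v.im ≤ 770 / 10000 := by rw [hτ]; nlinarith only [k1, τ1, k0]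
  have q1 : T + v.im ≤ 148 / 1000 := by rw [hτ]; nlinarith only [s1, τ1, k0]
  rcases le_total v.re (16 / 100) with h | h
  · have e := hv.left h
    rw [S1_eq _ ⟨by linarith only [hx], by linarith only [hx']⟩ ⟨by rw [hre]; linarith only [hx, v0], by rw [hre]; linarith only [hx', h]⟩, hw, e,
      ← hF v.re k]
    have := pos_box (G := K1E 65 29 16 F_r31d_two) (al := [sub (add (var 1) (var 3)) (q 148 1000)]) (fuel := 28)
      (x := w.re) (T := T) (x' := v.re) (t' := k)
      (by decide +kernel : chk [K1E 65 29 16 F_r31d_two, sub (add (var 1) (var 3)) (q 148 1000)] 28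
        [V.of 10000 3850 6500, V.of 10000 460 940, V.of 10000 0 1600, V.of 10000 100 770] = true)
      ⟨by norm_num; linarith only [hx], by norm_num; linarith only [hx']⟩ ⟨by norm_num; linarith only [hT], by norm_num; linarith only [hT']⟩ ⟨by norm_num; linarith only [v0], by norm_num; linarith only [h]⟩
      ⟨by norm_num; linarith only [k0], by norm_num; linarith only [k1]⟩ (by
        intro e he
        simp only [List.mem_cons, List.not_mem_nil, or_false] at he
        rcases he with rfl <;> (simp only [E.val, uE_val, yE_val, lkR]; norm_num; linarith only [s1]))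
    rw [K1E_val] at this
    have e2 : k * (100 / 16 * v.re) = k * (v.re / (16 / 100)) := by ring
    push_cast at this
    rw [e2] at this
    linarith only [this]
  rw [← hF v.re v.im]
  apply S1_zone (by linarith only [hx]) (by linarith only [hx']) (by linarith only [h]) (by linarith only [hx', v1])
  · intro h5
    rw [hw]
    have := pos_box (G := S1E 65 29 F_r31d_two) (al := [sub uE (q 5 6), sub (add (var 1) (var 3)) (q 148 1000)]) (fuel := 28)
      (x := w.re) (T := T) (x' := v.re) (t' := v.im)
      (by decide +kernel : chk [S1E 65 29 F_r31d_two, sub uE (q 5 6), sub (add (var 1) (var 3)) (q 148 1000)] 28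
        [V.of 10000 3850 6500, V.of 10000 460 940, V.of 10000 1600 4484, V.of 10000 0 770] = true)
      ⟨by norm_num; linarith only [hx], by norm_num; linarith only [hx']⟩ ⟨by norm_num; linarith only [hT], by norm_num; linarith only [hT']⟩ ⟨by norm_num; linarith only [h], by norm_num; linarith only [hx, h5]⟩
      ⟨by norm_num; linarith only [i0], by norm_num; linarith only [i1]⟩ (by
        intro e he
        simp only [List.mem_cons, List.not_mem_nil, or_false] at he
        rcases he with rfl | rfl <;> (simp only [E.val, uE_val, yE_val, lkR]; norm_num; linarith only [h5, q1]))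
    rw [S1E_val] at this
    linarith only [this]
  · intro h5 h6
    have hs : 0 ≤ w.im + v.im := by linarith only [hs0, i0]
    refine ⟨((0 : ℤ) : ℝ), by simpa using mul_YY_10 (mR_nonpos hT0) (by rw [hre]; linarith only [h5]) (by rw [him]; exact hs), ?_⟩
    rw [hw] at hs ⊢
    have := pos_box (G := N1E 65 29 F_r31d_two 0) (al := [sub (q 5 6) uE, sub uE (q 7 6), sub (add (var 1) (var 3)) (q 148 1000)]) (fuel := 28)
      (x := w.re) (T := T) (x' := v.re) (t' := v.im)
      (by decide +kernel : chk [N1E 65 29 F_r31d_two 0, sub (q 5 6) uE, sub uE (q 7 6), sub (add (var 1) (var 3)) (q 148 1000)] 28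
        [V.of 10000 3850 6500, V.of 10000 460 940, V.of 10000 1833 7817, V.of 10000 0 770] = true)
      ⟨by norm_num; linarith only [hx], by norm_num; linarith only [hx']⟩ ⟨by norm_num; linarith only [hT], by norm_num; linarith only [hT']⟩ ⟨by norm_num; linarith only [hx', h5], by norm_num; linarith only [hx, h6]⟩
      ⟨by norm_num; linarith only [i0], by norm_num; linarith only [i1]⟩ (by
        intro e he
        simp only [List.mem_cons, List.not_mem_nil, or_false] at he
        rcases he with rfl | rfl | rfl <;> (simp only [E.val, uE_val, yE_val, lkR]; norm_num; linarith only [h5, h6, q1]))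
    rw [N1E_val] at this
    linarith only [this]
  · intro h5
    have hs : 0 ≤ w.im + v.im := by linarith only [hs0, i0]
    refine ⟨((0 : ℤ) : ℝ), by simpa using mul_YY_10 (mR_nonpos hT0) (by rw [hre]; linarith only [h5]) (by rw [him]; exact hs), ?_⟩
    rw [hw] at hs ⊢
    have := pos_box (G := B1E 65 29 F_r31d_two 0) (al := [sub (q 7 6) uE, sub (add (var 1) (var 3)) (q 148 1000)]) (fuel := 28)
      (x := w.re) (T := T) (x' := v.re) (t' := v.im)
      (by decide +kernel : chk [B1E 65 29 F_r31d_two 0, sub (q 7 6) uE, sub (add (var 1) (var 3)) (q 148 1000)] 28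
        [V.of 10000 3850 6500, V.of 10000 460 940, V.of 10000 5166 8000, V.of 10000 0 770] = true)
      ⟨by norm_num; linarith only [hx], by norm_num; linarith only [hx']⟩ ⟨by norm_num; linarith only [hT], by norm_num; linarith only [hT']⟩ ⟨by norm_num; linarith only [hx', h5], by norm_num; linarith only [v1]⟩
      ⟨by norm_num; linarith only [i0], by norm_num; linarith only [i1]⟩ (by
        intro e he
        simp only [List.mem_cons, List.not_mem_nil, or_false] at he
        rcases he with rfl | rfl <;> (simp only [E.val, uE_val, yE_val, lkR]; norm_num; linarith only [h5, q1]))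
    rw [B1E_val] at this
    linarith only [this]

end MR

end Pool.Agent.Work.MP_b30479_gtS.G2

end
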