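import Pool.Agent.Work.MP_b30479_gt.TBS.G2.R3P
import Pool.Agent.Work.MP_b30479_gt.TBS.G2.R31D_0

/-!
# Part of `R31D`
-/
set_option linter.unusedSimpArgs false
set_option linter.unusedVariables false
set_option linter.unusedTactic false
set_option linter.unreachableTactic false

namespace Pool.Agent.Work.MP_b30479_gtS.G2

open VOL NumIs

namespace MR

open E

variable {XM cr cl : ℕ} {F : E} {x T x' t' : ℝ} {r : ℤ}

/-- side of the digit, its other neighbour is a `1` -/
theorem r31d_one_b {w v : ℂ} {T k : ℝ} (hT : 210 / 10000 ≤ T) (hT' : T ≤ 920 / 10000)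
    (hw : w.im = tR 65 29 w.re T) (hx : 5600 / 10000 ≤ w.re) (hx' : w.re ≤ 6500 / 10000)
    (hv : PH v k (86 / 100) (15 / 100) (20 / 100)) (k0 : -(910 / 10000) ≤ k) (k1 : k ≤ 490 / 10000) (s0 : -(22 / 1000) ≤ T + k) (s1 : T + k ≤ 111 / 1000) :
    S1 1 (mR 29 T) w v < 62 / 100 + 122 / 10 * (T - 21 / 1000) := by
  have hF : ∀ x' t' : ℝ, F_r31d_one_b.val [w.re, T, x', t'] = 62 / 100 + 122 / 10 * (T - 21 / 1000) := by
    intro x' t'
    simp only [F_r31d_one_b, E.val, lkR]
    push_cast
    ring
  have hre : (w + v).re = w.re + v.re := Complex.add_re _ _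
  have him : (w + v).im = w.im + v.im := Complex.add_im _ _
  have hT0 : 0 ≤ T := by linarith only [hT]
  have v0 := hv.re0
  have v1 := hv.reM
  have hs0 : 0 ≤ w.im := by
    rw [hw]
    exact im_ge0 hT0 (by norm_num; linarith only [hx'])
  obtain ⟨τ, τ0, τ1, -, hτ⟩ := hv.mid
  have i0 : -(910 / 10000) ≤ v.im := by rw [hτ]; nlinarith only [τ1, k0, τ0]
  have i1 : v.im ≤ 490 / 10000 := by rw [hτ]; nlinarith only [k1, k0, τ1, τ0]
  have q0 : -(22 / 1000) ≤ T + v.im := by rw [hτ]; nlinarith only [s0, hT, τ1, k1, τ0]
  have q1 : T + v.im ≤ 111 / 1000 := by rw [hτ]; nlinarith only [s1, hT', τ1, k0, τ0]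
  rcases le_total v.re (15 / 100) with h | h
  · have e := hv.left h
    rw [S1_eq _ ⟨by linarith only [hx], by linarith only [hx']⟩ ⟨by rw [hre]; linarith only [hx, v0], by rw [hre]; linarith only [hx', h]⟩, hw, e,
      ← hF v.re k]
    have := pos_box (G := K1E 65 29 15 F_r31d_one_b) (al := [sub (add (var 1) (var 3)) (q 111 1000), sub (q (-22) 1000) (add (var 1) (var 3))]) (fuel := 28)
      (x := w.re) (T := T) (x' := v.re) (t' := k)
      (by decide +kernel : chk [K1E 65 29 15 F_r31d_one_b, sub (add (var 1) (var 3)) (q 111 1000), sub (q (-22) 1000) (add (var 1) (var 3))] 28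
        [V.of 10000 5600 6500, V.of 10000 210 920, V.of 10000 0 1500, V.of 10000 (-910) 490] = true)
      ⟨by norm_num; linarith only [hx], by norm_num; linarith only [hx']⟩ ⟨by norm_num; linarith only [hT], by norm_num; linarith only [hT']⟩ ⟨by norm_num; linarith only [v0], by norm_num; linarith only [h]⟩
      ⟨by norm_num; linarith only [k0], by norm_num; linarith only [k1]⟩ (by
        intro e he
        simp only [List.mem_cons, List.not_mem_nil, or_false] at he
        rcases he with rfl | rfl <;> (simp only [E.val, uE_val, yE_val, lkR]; norm_num; linarith only [s1, s0]))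
    rw [K1E_val] at this
    have e2 : k * (100 / 15 * v.re) = k * (v.re / (15 / 100)) := by ring
    push_cast at this
    rw [e2] at this
    linarith only [this]
  rw [← hF v.re v.im]
  apply S1_zone (by linarith only [hx]) (by linarith only [hx']) (by linarith only [h]) (by linarith only [hx', v1])
  · intro h5
    rw [hw]
    have := pos_box (G := S1E 65 29 F_r31d_one_b) (al := [sub uE (q 5 6), sub (add (var 1) (var 3)) (q 111 1000), sub (q (-22) 1000) (add (var 1) (var 3))]) (fuel := 28)
      (x := w.re) (T := T) (x' := v.re) (t' := v.im)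
      (by decide +kernel : chk [S1E 65 29 F_r31d_one_b, sub uE (q 5 6), sub (add (var 1) (var 3)) (q 111 1000), sub (q (-22) 1000) (add (var 1) (var 3))] 28
        [V.of 10000 5600 6500, V.of 10000 210 920, V.of 10000 1500 2734, V.of 10000 (-910) 490] = true)
      ⟨by norm_num; linarith only [hx], by norm_num; linarith only [hx']⟩ ⟨by norm_num; linarith only [hT], by norm_num; linarith only [hT']⟩ ⟨by norm_num; linarith only [h], by norm_num; linarith only [hx, h5]⟩
      ⟨by norm_num; linarith only [i0], by norm_num; linarith only [i1]⟩ (by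
        intro e he
        simp only [List.mem_cons, List.not_mem_nil, or_false] at he
        rcases he with rfl | rfl | rfl <;> (simp only [E.val, uE_val, yE_val, lkR]; norm_num; linarith only [h5, q1, q0]))
    rw [S1E_val] at this
    linarith only [this]
  · intro h5 h6
    rcases le_total (w.im + v.im) 0 with hs | hs
    · refine ⟨((-1 : ℤ) : ℝ), by simpa using mul_YY_11 (mR_nonpos hT0) (by rw [hre]; linarith only [h5]) (by rw [hre]; linarith only [hx', v1, h6]), ?_⟩
      rw [hw] at hs ⊢
      have := pos_box (G := N1E 65 29 F_r31d_one_b (-1)) (al := [sub (q 5 6) uE, sub uE (q 7 6), yE 65 29, sub (add (var 1) (var 3)) (q 111 1000), sub (q (-22) 1000) (add (var 1) (var 3))]) (fuel := 28)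
        (x := w.re) (T := T) (x' := v.re) (t' := v.im)
        (by decide +kernel : chk [N1E 65 29 F_r31d_one_b (-1), sub (q 5 6) uE, sub uE (q 7 6), yE 65 29, sub (add (var 1) (var 3)) (q 111 1000), sub (q (-22) 1000) (add (var 1) (var 3))] 28
          [V.of 10000 5600 6500, V.of 10000 210 920, V.of 10000 1833 6067, V.of 10000 (-910) 490] = true)
        ⟨by norm_num; linarith only [hx], by norm_num; linarith only [hx']⟩ ⟨by norm_num; linarith only [hT], by norm_num; linarith only [hT']⟩ ⟨by norm_num; linarith only [hx', h5], by norm_num; linarith only [hx, h6]⟩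
        ⟨by norm_num; linarith only [i0], by norm_num; linarith only [i1]⟩ (by
          intro e he
          simp only [List.mem_cons, List.not_mem_nil, or_false] at he
          rcases he with rfl | rfl | rfl | rfl | rfl <;> (simp only [E.val, uE_val, yE_val, lkR]; norm_num; linarith only [h5, h6, hs, q1, q0]))
      rw [N1E_val] at this
      linarith only [this]
    · refine ⟨((0 : ℤ) : ℝ), by simpa using mul_YY_10 (mR_nonpos hT0) (by rw [hre]; linarith only [h5]) (by rw [him]; exact hs), ?_⟩
      rw [hw] at hs ⊢
      have := pos_box (G := N1E 65 29 F_r31d_one_b 0) (al := [sub (q 5 6) uE, sub uE (q 7 6), neg (yE 65 29), sub (add (var 1) (var 3)) (q 111 1000), sub (q (-22) 1000) (add (var 1) (var 3))]) (fuel := 28)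
        (x := w.re) (T := T) (x' := v.re) (t' := v.im)
        (by decide +kernel : chk [N1E 65 29 F_r31d_one_b 0, sub (q 5 6) uE, sub uE (q 7 6), neg (yE 65 29), sub (add (var 1) (var 3)) (q 111 1000), sub (q (-22) 1000) (add (var 1) (var 3))] 28
          [V.of 10000 5600 6500, V.of 10000 210 920, V.of 10000 1833 6067, V.of 10000 (-910) 490] = true)
        ⟨by norm_num; linarith only [hx], by norm_num; linarith only [hx']⟩ ⟨by norm_num; linarith only [hT], by norm_num; linarith only [hT']⟩ ⟨by norm_num; linarith only [hx', h5], by norm_num; linarith only [hx, h6]⟩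
        ⟨by norm_num; linarith only [i0], by norm_num; linarith only [i1]⟩ (by
          intro e he
          simp only [List.mem_cons, List.not_mem_nil, or_false] at he
          rcases he with rfl | rfl | rfl | rfl | rfl <;> (simp only [E.val, uE_val, yE_val, lkR]; norm_num; linarith only [h5, h6, hs, q1, q0]))
      rw [N1E_val] at this
      linarith only [this]
  · intro h5
    rcases le_total (w.im + v.im) 0 with hs | hs
    · rcases le_total (w.re + v.re) (3 / 2) with hq | hq
      · refine ⟨((-1 : ℤ) : ℝ), by simpa using mul_YY_11 (mR_nonpos hT0) (by rw [hre]; linarith only [h5]) (by rw [hre]; linarith only [hq]), ?_⟩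
        rw [hw] at hs ⊢
        have := pos_box (G := B1E 65 29 F_r31d_one_b (-1)) (al := [sub (q 7 6) uE, yE 65 29, sub (add (var 1) (var 3)) (q 111 1000), sub (q (-22) 1000) (add (var 1) (var 3))]) (fuel := 28)
          (x := w.re) (T := T) (x' := v.re) (t' := v.im)
          (by decide +kernel : chk [B1E 65 29 F_r31d_one_b (-1), sub (q 7 6) uE, yE 65 29, sub (add (var 1) (var 3)) (q 111 1000), sub (q (-22) 1000) (add (var 1) (var 3))] 28
            [V.of 10000 5600 6500, V.of 10000 210 920, V.of 10000 5166 8600, V.of 10000 (-910) 490] = true)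
          ⟨by norm_num; linarith only [hx], by norm_num; linarith only [hx']⟩ ⟨by norm_num; linarith only [hT], by norm_num; linarith only [hT']⟩ ⟨by norm_num; linarith only [hx', h5], by norm_num; linarith only [v1]⟩
          ⟨by norm_num; linarith only [i0], by norm_num; linarith only [i1]⟩ (by
            intro e he
            simp only [List.mem_cons, List.not_mem_nil, or_false] at he
            rcases he with rfl | rfl | rfl | rfl <;> (simp only [E.val, uE_val, yE_val, lkR]; norm_num; linarith only [h5, hs, q1, q0]))
        rw [B1E_val] at this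
        linarith only [this]
      · refine ⟨-(11 / 10), mul_YY_12 (mR_nonpos hT0) (by rw [hre]; linarith only [hq])
          (by rw [hre]; linarith only [hx', v1]) (by rw [him]; exact hs), ?_⟩
        rw [hw] at hs ⊢
        have := pos_box (G := X1E 65 29 F_r31d_one_b) (al := [yE 65 29]) (fuel := 28)
          (x := w.re) (T := T) (x' := v.re) (t' := v.im)
          (by decide +kernel : chk [X1E 65 29 F_r31d_one_b, yE 65 29] 28
            [V.of 10000 6400 6500, V.of 10000 210 920, V.of 10000 8500 8600, V.of 10000 (-910) 490] = true)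
          ⟨by norm_num; linarith only [v1, hq], by norm_num; linarith only [hx']⟩ ⟨by norm_num; linarith only [hT], by norm_num; linarith only [hT']⟩ ⟨by norm_num; linarith only [hx', hq], by norm_num; linarith only [v1]⟩
          ⟨by norm_num; linarith only [i0], by norm_num; linarith only [i1]⟩ (by
            intro e he
            simp only [List.mem_cons, List.not_mem_nil, or_false] at he
            rcases he with rfl <;> (simp only [E.val, uE_val, yE_val, lkR]; norm_num; linarith only [hs]))
        rw [X1E_val] at this
        linarith only [this]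
    · refine ⟨((0 : ℤ) : ℝ), by simpa using mul_YY_10 (mR_nonpos hT0) (by rw [hre]; linarith only [h5]) (by rw [him]; exact hs), ?_⟩
      rw [hw] at hs ⊢
      have := pos_box (G := B1E 65 29 F_r31d_one_b 0) (al := [sub (q 7 6) uE, neg (yE 65 29), sub (add (var 1) (var 3)) (q 111 1000), sub (q (-22) 1000) (add (var 1) (var 3))]) (fuel := 28)
        (x := w.re) (T := T) (x' := v.re) (t' := v.im)
        (by decide +kernel : chk [B1E 65 29 F_r31d_one_b 0, sub (q 7 6) uE, neg (yE 65 29), sub (add (var 1) (var 3)) (q 111 1000), sub (q (-22) 1000) (add (var 1) (var 3))] 28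
          [V.of 10000 5600 6500, V.of 10000 210 920, V.of 10000 5166 8600, V.of 10000 (-910) 490] = true)
        ⟨by norm_num; linarith only [hx], by norm_num; linarith only [hx']⟩ ⟨by norm_num; linarith only [hT], by norm_num; linarith only [hT']⟩ ⟨by norm_num; linarith only [hx', h5], by norm_num; linarith only [v1]⟩
        ⟨by norm_num; linarith only [i0], by norm_num; linarith only [i1]⟩ (by
          intro e he
          simp only [List.mem_cons, List.not_mem_nil, or_false] at he
          rcases he with rfl | rfl | rfl | rfl <;> (simp only [E.val, uE_val, yE_val, lkR]; norm_num; linarith only [h5, hs, q1, q0]))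
      rw [B1E_val] at this
      linarith only [this]

end MR

end Pool.Agent.Work.MP_b30479_gtS.G2
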