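import Pool.Agent.Work.MP_b30479_gt.TBS.G2.S2Poly
import Pool.Agent.Work.MP_b30479_gt.TBS.G2.CN.GR
import Pool.Agent.Work.MP_b30479_gt.TBS.NumI.LnAff
import Mathlib

section

/-!
# A faster check of quartic inequalities over a polygon

`polyQ` implies `polyOK`: the products of two vertices are shared, the quadratic case has six
coefficients, the integers are residues modulo `2 ^ 256`.
-/

namespace Pool.Agent.Work.MP_b30479_gtS.G2.SQ

noncomputable section

/-- conjunction -/
def an (a b : Bool) : Bool := @Bool.rec (fun _ => Bool) false b a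

lemma an_iff {a b : Bool} (h : an a b = true) : a = true ∧ b = true := by
  cases a
  · have : (false : Bool) = true := h
    simp at this
  · exact ⟨rfl, h⟩

/-- disjunction -/
def oor (a b : Bool) : Bool := @Bool.rec (fun _ => Bool) b true a

lemma oor_iff {a b : Bool} (h : oor a b = true) : a = true ∨ b = true := by
  cases a
  · exact Or.inr h
  · exact Or.inl rfl

/-! ### residues -/

/-- the natural number `n` is congruent to `x`, and `|x| ≤ B` -/
def Rp (n : ℕ) (x : ℤ) (B : ℕ) : Prop := ((nat_lit 115792089237316195423570985008687907853269984665640564039457584007913129639936 : ℕ) : ℤ) ∣ (n : ℤ) - x ∧ |x| ≤ B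

lemma Rp.add {n m : ℕ} {x y : ℤ} {B C : ℕ} (h : Rp n x B) (h' : Rp m y C) :
    Rp (Nat.add n m) (x + y) (B + C) := by
  refine ⟨?_, (abs_add_le _ _).trans ?_⟩
  · have e : ((Nat.add n m : ℕ) : ℤ) - (x + y) = ((n : ℤ) - x) + ((m : ℤ) - y) := by
      change ((n + m : ℕ) : ℤ) - (x + y) = _
      push_cast
      ring
    rw [e]
    exact dvd_add h.1 h'.1
  · push_cast
    exact add_le_add h.2 h'.2

lemma Rp.mul {n m : ℕ} {x y : ℤ} {B C : ℕ} (h : Rp n x B) (h' : Rp m y C) :
    Rp (Nat.mul n m) (x * y) (B * C) := by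
  refine ⟨?_, ?_⟩
  · have e : ((Nat.mul n m : ℕ) : ℤ) - (x * y) = ((n : ℤ) - x) * m + x * ((m : ℤ) - y) := by
      change ((n * m : ℕ) : ℤ) - (x * y) = _
      push_cast
      ring
    rw [e]
    exact dvd_add (Dvd.dvd.mul_right h.1 _) (Dvd.dvd.mul_left h'.1 _)
  · rw [abs_mul]
    push_cast
    exact mul_le_mul h.2 h'.2 (abs_nonneg _) (Nat.cast_nonneg _)

lemma Rp.mod {n : ℕ} {x : ℤ} {B : ℕ} (h : Rp n x B) : Rp (Nat.mod n (nat_lit 115792089237316195423570985008687907853269984665640564039457584007913129639936)) x B := by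
  refine ⟨?_, h.2⟩
  have e : ((Nat.mod n (nat_lit 115792089237316195423570985008687907853269984665640564039457584007913129639936) : ℕ) : ℤ) - x =
      ((n : ℤ) - x) - ((nat_lit 115792089237316195423570985008687907853269984665640564039457584007913129639936 : ℕ) : ℤ) * ((n / (nat_lit 115792089237316195423570985008687907853269984665640564039457584007913129639936) : ℕ) : ℤ) := by
    have h1 := Nat.mod_add_div n (nat_lit 115792089237316195423570985008687907853269984665640564039457584007913129639936)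
    have h2 : ((n : ℕ) : ℤ) = ((n % (nat_lit 115792089237316195423570985008687907853269984665640564039457584007913129639936) : ℕ) : ℤ) +
      ((nat_lit 115792089237316195423570985008687907853269984665640564039457584007913129639936 : ℕ) : ℤ) * ((n / (nat_lit 115792089237316195423570985008687907853269984665640564039457584007913129639936) : ℕ) : ℤ) := by exact_mod_cast h1.symm
    change ((n % (nat_lit 115792089237316195423570985008687907853269984665640564039457584007913129639936) : ℕ) : ℤ) - x = _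
    linarith
  rw [e]
  exact dvd_sub h.1 (Dvd.intro _ rfl)

lemma Rp.nat (k : ℕ) : Rp k k k := ⟨by simp, by simp⟩

/-- the residue of an integer -/
def toN (x : ℤ) : ℕ :=
  @Int.rec (fun _ => ℕ) (fun n => n) (fun n => Nat.sub (nat_lit 115792089237316195423570985008687907853269984665640564039457584007913129639936) (Nat.succ n)) x

/-- the residue of minus an integer -/
def toM (x : ℤ) : ℕ :=
  @Int.rec (fun _ => ℕ) (fun n => Nat.sub (nat_lit 115792089237316195423570985008687907853269984665640564039457584007913129639936) n) (fun n => Nat.succ n) x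

/-- the size -/
def sz (K : ℕ) (x : ℤ) : Bool :=
  @Int.rec (fun _ => Bool) (fun n => Nat.ble (Nat.succ n) K) (fun n => Nat.ble (Nat.succ n) K) x

lemma sz_le {K : ℕ} {x : ℤ} (h : sz K x = true) : |x| ≤ K := by
  cases x with
  | ofNat n =>
    have h1 : n + 1 ≤ K := Nat.le_of_ble_eq_true h
    change |((n : ℕ) : ℤ)| ≤ K
    rw [abs_of_nonneg (Int.natCast_nonneg n)]
    omega
  | negSucc n =>
    have h1 : n + 1 ≤ K := Nat.le_of_ble_eq_true h
    rw [Int.negSucc_eq, abs_neg, abs_of_nonneg (by omega)]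
    omega

lemma toN_rp {K : ℕ} {x : ℤ} (h : sz K x = true) (hK : K ≤ 115792089237316195423570985008687907853269984665640564039457584007913129639936) : Rp (toN x) x K := by
  refine ⟨?_, sz_le h⟩
  cases x with
  | ofNat n =>
    change _ ∣ ((n : ℕ) : ℤ) - ((n : ℕ) : ℤ)
    rw [sub_self]
    exact dvd_zero _
  | negSucc n =>
    have h1 : n + 1 ≤ K := Nat.le_of_ble_eq_true h
    have h2 : n + 1 ≤ 115792089237316195423570985008687907853269984665640564039457584007913129639936 := h1.trans hK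
    change ((nat_lit 115792089237316195423570985008687907853269984665640564039457584007913129639936 : ℕ) : ℤ) ∣ (((115792089237316195423570985008687907853269984665640564039457584007913129639936 - (n + 1) : ℕ)) : ℤ) - Int.negSucc n
    rw [Int.negSucc_eq, Nat.cast_sub h2]
    have e : (((115792089237316195423570985008687907853269984665640564039457584007913129639936 : ℕ) : ℤ)) - ((n + 1 : ℕ) : ℤ) - -((n : ℤ) + 1) = ((nat_lit 115792089237316195423570985008687907853269984665640564039457584007913129639936 : ℕ) : ℤ) := by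
      push_cast
      ring
    rw [e]

lemma toM_rp {K : ℕ} {x : ℤ} (h : sz K x = true) (hK : K ≤ 115792089237316195423570985008687907853269984665640564039457584007913129639936) : Rp (toM x) (-x) K := by
  refine ⟨?_, by rw [abs_neg]; exact sz_le h⟩
  cases x with
  | ofNat n =>
    have h1 : n + 1 ≤ K := Nat.le_of_ble_eq_true h
    have h2 : n ≤ 115792089237316195423570985008687907853269984665640564039457584007913129639936 := by omega
    change ((nat_lit 115792089237316195423570985008687907853269984665640564039457584007913129639936 : ℕ) : ℤ) ∣ (((115792089237316195423570985008687907853269984665640564039457584007913129639936 - n : ℕ)) : ℤ) - -((n : ℕ) : ℤ)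
    rw [Nat.cast_sub h2]
    have e : (((115792089237316195423570985008687907853269984665640564039457584007913129639936 : ℕ) : ℤ)) - ((n : ℕ) : ℤ) - -((n : ℤ)) = ((nat_lit 115792089237316195423570985008687907853269984665640564039457584007913129639936 : ℕ) : ℤ) := by
      push_cast
      ring
    rw [e]
  | negSucc n =>
    change ((nat_lit 115792089237316195423570985008687907853269984665640564039457584007913129639936 : ℕ) : ℤ) ∣ (((n + 1 : ℕ)) : ℤ) - -Int.negSucc n
    rw [Int.negSucc_eq]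
    have e : (((n + 1 : ℕ)) : ℤ) - - -((n : ℤ) + 1) = 0 := by
      push_cast
      ring
    rw [e]
    exact dvd_zero _

/-- the sign -/
def ge0 (n : ℕ) : Bool := Nat.ble (Nat.mod n (nat_lit 115792089237316195423570985008687907853269984665640564039457584007913129639936)) (nat_lit 57896044618658097711785492504343953926634992332820282019728792003956564819967)

lemma ge0_le {n : ℕ} {x : ℤ} {B : ℕ} (h : Rp n x B) (hB : B ≤ 57896044618658097711785492504343953926634992332820282019728792003956564819967) (hn : ge0 n = true) : 0 ≤ x := by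
  obtain ⟨⟨k, hk⟩, h2⟩ := h.mod
  have h3 : Nat.mod n (nat_lit 115792089237316195423570985008687907853269984665640564039457584007913129639936) ≤ 57896044618658097711785492504343953926634992332820282019728792003956564819967 := Nat.le_of_ble_eq_true hn
  have h4 : |x| ≤ ((57896044618658097711785492504343953926634992332820282019728792003956564819967 : ℕ) : ℤ) := h2.trans (by exact_mod_cast hB)
  have h5 := abs_le.1 h4
  generalize Nat.mod n (nat_lit 115792089237316195423570985008687907853269984665640564039457584007913129639936) = r at *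
  have h6 : ((r : ℕ) : ℤ) ≤ ((57896044618658097711785492504343953926634992332820282019728792003956564819967 : ℕ) : ℤ) := by exact_mod_cast h3
  have h7 : (0 : ℤ) ≤ (r : ℤ) := Int.natCast_nonneg r
  push_cast at h5 h6 hk
  have h8 : k = 0 := by omega
  rw [h8] at hk
  linarith

/-! ### products -/

/-- products of two vertices -/
def eX (p q : ℤ × ℤ) : ℕ := Nat.mod (Nat.add (Nat.mul (toN p.1) (toN q.1))
  (Nat.mul (toM p.2) (toN q.2))) (nat_lit 115792089237316195423570985008687907853269984665640564039457584007913129639936)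
/-- products of two vertices -/
def eY (p q : ℤ × ℤ) : ℕ := Nat.mod (Nat.add (Nat.mul (toN p.1) (toN q.2))
  (Nat.mul (toN p.2) (toN q.1))) (nat_lit 115792089237316195423570985008687907853269984665640564039457584007913129639936)
/-- products of two vertices -/
def eZ (p q : ℤ × ℤ) : ℕ := Nat.mod (Nat.add (Nat.mul (toN p.1) (toN q.1))
  (Nat.mul (toN p.2) (toN q.2))) (nat_lit 115792089237316195423570985008687907853269984665640564039457584007913129639936)
/-- the quadratic part -/
def eF (al be mu : ℤ) (p q : ℤ × ℤ) : ℕ :=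
  Nat.add (Nat.add (Nat.mul (toN al) (eX p q)) (Nat.mul (toN be) (eY p q)))
    (Nat.mul (nat_lit 1000000) (toM mu))

/-- products of two vertices -/
def pX (p q : ℤ × ℤ) : ℤ := p.1 * q.1 + (-p.2) * q.2
/-- products of two vertices -/
def pY (p q : ℤ × ℤ) : ℤ := p.1 * q.2 + p.2 * q.1
/-- products of two vertices -/
def pZ (p q : ℤ × ℤ) : ℤ := p.1 * q.1 + p.2 * q.2
/-- the quadratic part -/
def pF (al be mu : ℤ) (p q : ℤ × ℤ) : ℤ := al * pX p q + be * pY p q + 1000000 * (-mu)

/-- the size of a vertex -/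
def vz (p : ℤ × ℤ) : Bool := an (sz (nat_lit 1048576) p.1) (sz (nat_lit 1048576) p.2)

/-- the orientation -/
def ori (a b c : ℤ × ℤ) : Bool :=
  ge0 (Nat.add (Nat.add (Nat.mul (Nat.add (toN b.1) (toM a.1)) (Nat.add (toN c.2) (toM a.2)))
    (Nat.mul (Nat.add (toM b.2) (toN a.2)) (Nat.add (toN c.1) (toM a.1)))) (nat_lit 115792089237316195423570985008687907853269984665640564039457584007913129639935))

section
variable {p q : ℤ × ℤ} (hp : vz p = true) (hq : vz q = true)
include hp hq

lemma eX_rp : Rp (eX p q) (pX p q) 2199023255552 := by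
  obtain ⟨p1, p2⟩ := an_iff hp
  obtain ⟨q1, q2⟩ := an_iff hq
  exact (((toN_rp p1 (by norm_num)).mul (toN_rp q1 (by norm_num))).add
    ((toM_rp p2 (by norm_num)).mul (toN_rp q2 (by norm_num)))).mod

lemma eY_rp : Rp (eY p q) (pY p q) 2199023255552 := by
  obtain ⟨p1, p2⟩ := an_iff hp
  obtain ⟨q1, q2⟩ := an_iff hq
  exact (((toN_rp p1 (by norm_num)).mul (toN_rp q2 (by norm_num))).add
    ((toN_rp p2 (by norm_num)).mul (toN_rp q1 (by norm_num)))).mod

lemma eZ_rp : Rp (eZ p q) (pZ p q) 2199023255552 := by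
  obtain ⟨p1, p2⟩ := an_iff hp
  obtain ⟨q1, q2⟩ := an_iff hq
  exact (((toN_rp p1 (by norm_num)).mul (toN_rp q1 (by norm_num))).add
    ((toN_rp p2 (by norm_num)).mul (toN_rp q2 (by norm_num)))).mod

lemma eF_rp {al be mu : ℤ} (h1 : sz (nat_lit 17592186044416) al = true)
    (h2 : sz (nat_lit 17592186044416) be = true) (h3 : sz (nat_lit 17592186044416) mu = true) :
    Rp (eF al be mu p q) (pF al be mu p q) 77371270047522311597195264 :=
  (((toN_rp h1 (by norm_num)).mul (eX_rp hp hq)).add ((toN_rp h2 (by norm_num)).mul (eY_rp hp hq))).add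
    ((Rp.nat 1000000).mul (toM_rp h3 (by norm_num)))

end

lemma ori_ok {a b c : ℤ × ℤ} (ha : vz a = true) (hb : vz b = true) (hc : vz c = true)
    (h : ori a b c = true) : 0 < (b.1 - a.1) * (c.2 - a.2) - (b.2 - a.2) * (c.1 - a.1) := by
  obtain ⟨a1, a2⟩ := an_iff ha
  obtain ⟨b1, b2⟩ := an_iff hb
  obtain ⟨c1, c2⟩ := an_iff hc
  have k1 : Rp (nat_lit 115792089237316195423570985008687907853269984665640564039457584007913129639935) (-1) 1 := by
    refine ⟨?_, by simp⟩
    have e : ((nat_lit 115792089237316195423570985008687907853269984665640564039457584007913129639935 : ℕ) : ℤ) - (-1) = ((nat_lit 115792089237316195423570985008687907853269984665640564039457584007913129639936 : ℕ) : ℤ) := by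
      norm_num
    rw [e]
  have h1 := ge0_le ((((((toN_rp b1 (by norm_num)).add (toM_rp a1 (by norm_num))).mul
    ((toN_rp c2 (by norm_num)).add (toM_rp a2 (by norm_num)))).add
    (((toM_rp b2 (by norm_num)).add (toN_rp a2 (by norm_num))).mul
    ((toN_rp c1 (by norm_num)).add (toM_rp a1 (by norm_num))))).add k1)) (by norm_num) h
  linarith

/-- six coefficients -/
def tri2 (al be mu : ℤ) (a b c : ℤ × ℤ) : Bool :=
  an (ge0 (eF al be mu a a)) (an (ge0 (eF al be mu a b)) (an (ge0 (eF al be mu a c))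
    (an (ge0 (eF al be mu b b)) (an (ge0 (eF al be mu b c)) (ge0 (eF al be mu c c))))))

/-- a coefficient -/
def c1 (g f z : ℕ) : Bool := ge0 (Nat.add (Nat.mul (nat_lit 1000000) f) (Nat.mul g (Nat.mul z z)))
/-- a coefficient -/
def c2 (g f f' z w : ℕ) : Bool :=
  ge0 (Nat.add (Nat.mul (nat_lit 1000000) (Nat.add f f')) (Nat.mul (Nat.mul (nat_lit 2) g) (Nat.mul z w)))
/-- a coefficient -/
def c3 (g f f' h z w y : ℕ) : Bool :=
  ge0 (Nat.add (Nat.mul (nat_lit 1000000) (Nat.add (Nat.add f f') (Nat.mul (nat_lit 4) h)))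
    (Nat.mul (Nat.mul (nat_lit 2) g) (Nat.add (Nat.mul z w) (Nat.mul (nat_lit 2) (Nat.mul y y)))))
/-- a coefficient -/
def c4 (g f f' h h' z w y x : ℕ) : Bool :=
  ge0 (Nat.add (Nat.mul (nat_lit 1000000) (Nat.add (Nat.add f f') (Nat.mul (nat_lit 2) (Nat.add h h'))))
    (Nat.mul (Nat.mul (nat_lit 2) g) (Nat.add (Nat.mul z w) (Nat.mul (nat_lit 2) (Nat.mul y x)))))

section
variable {g f f' h h' z w y x : ℕ} {G F F' K K' Z W Y X : ℤ}
  (hg : Rp g (-G) 17592186044416) (hf : Rp f F 77371270047522311597195264) (hf' : Rp f' F' 77371270047522311597195264) (hh : Rp h K 77371270047522311597195264)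
  (hh' : Rp h' K' 77371270047522311597195264) (hz : Rp z Z 2199023255552) (hw : Rp w W 2199023255552)
  (hy : Rp y Y 2199023255552) (hx : Rp x X 2199023255552)

include hg hf hz in
lemma c1_le (t : c1 g f z = true) : 0 ≤ 1000000 * F + (-G) * (Z * Z) :=
  ge0_le (((Rp.nat 1000000).mul hf).add (hg.mul (hz.mul hz))) (by norm_num) t

include hg hf hf' hz hw in
lemma c2_le (t : c2 g f f' z w = true) : 0 ≤ 1000000 * (F + F') + 2 * (-G) * (Z * W) :=
  ge0_le (((Rp.nat 1000000).mul (hf.add hf')).add (((Rp.nat 2).mul hg).mul (hz.mul hw))) (by norm_num) t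

include hg hf hf' hh hz hw hy in
lemma c3_le (t : c3 g f f' h z w y = true) :
    0 ≤ 1000000 * (F + F' + 4 * K) + 2 * (-G) * (Z * W + 2 * (Y * Y)) :=
  ge0_le (((Rp.nat 1000000).mul ((hf.add hf').add ((Rp.nat 4).mul hh))).add
    (((Rp.nat 2).mul hg).mul ((hz.mul hw).add ((Rp.nat 2).mul (hy.mul hy))))) (by norm_num) t

include hg hf hf' hh hh' hz hw hy hx in
lemma c4_le (t : c4 g f f' h h' z w y x = true) :
    0 ≤ 1000000 * (F + F' + 2 * (K + K')) + 2 * (-G) * (Z * W + 2 * (Y * X)) :=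
  ge0_le (((Rp.nat 1000000).mul ((hf.add hf').add ((Rp.nat 2).mul (hh.add hh')))).add
    (((Rp.nat 2).mul hg).mul ((hz.mul hw).add ((Rp.nat 2).mul (hy.mul hx))))) (by norm_num) t

end

/-- fifteen coefficients; `g` is the residue of `-ga` -/
def tri4 (g : ℕ) (al be mu : ℤ) (a b c : ℤ × ℤ) : Bool :=
  an (c1 g (eF al be mu a a) (eZ a a)) (an (c1 g (eF al be mu b b) (eZ b b))
  (an (c1 g (eF al be mu c c) (eZ c c))
  (an (c2 g (eF al be mu a a) (eF al be mu a b) (eZ a a) (eZ a b))
  (an (c2 g (eF al be mu a a) (eF al be mu a c) (eZ a a) (eZ a c))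
  (an (c2 g (eF al be mu b b) (eF al be mu a b) (eZ b b) (eZ a b))
  (an (c2 g (eF al be mu b b) (eF al be mu b c) (eZ b b) (eZ b c))
  (an (c2 g (eF al be mu c c) (eF al be mu a c) (eZ c c) (eZ a c))
  (an (c2 g (eF al be mu c c) (eF al be mu b c) (eZ c c) (eZ b c))
  (an (c3 g (eF al be mu a a) (eF al be mu b b) (eF al be mu a b) (eZ a a) (eZ b b) (eZ a b))
  (an (c3 g (eF al be mu a a) (eF al be mu c c) (eF al be mu a c) (eZ a a) (eZ c c) (eZ a c))
  (an (c3 g (eF al be mu b b) (eF al be mu c c) (eF al be mu b c) (eZ b b) (eZ c c) (eZ b c))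
  (an (c4 g (eF al be mu a a) (eF al be mu b c) (eF al be mu a b) (eF al be mu a c)
    (eZ a a) (eZ b c) (eZ a b) (eZ a c))
  (an (c4 g (eF al be mu b b) (eF al be mu a c) (eF al be mu a b) (eF al be mu b c)
    (eZ b b) (eZ a c) (eZ a b) (eZ b c))
  (c4 g (eF al be mu c c) (eF al be mu a b) (eF al be mu a c) (eF al be mu b c)
    (eZ c c) (eZ a b) (eZ a c) (eZ b c)))))))))))))))

/-- is zero -/
def iz (x : ℤ) : Bool :=
  @Int.rec (fun _ => Bool) (fun n => Nat.beq n (nat_lit 0)) (fun _ => false) x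

lemma iz_eq {x : ℤ} (h : iz x = true) : x = 0 := by
  cases x with
  | ofNat n =>
    have h1 : n = 0 := Nat.eq_of_beq_eq_true h
    rw [h1]
    rfl
  | negSucc n =>
    have : (false : Bool) = true := h
    simp at this

/-- the check of a triangle -/
def triQ (al be ga mu : ℤ) (a b c : ℤ × ℤ) : Bool :=
  an (ori a b c) (oor (an (iz ga) (tri2 al be mu a b c)) (tri4 (toM ga) al be mu a b c))

section
variable {al be ga mu : ℤ} {a b c : ℤ × ℤ}

lemma bl_pF (p q r s : ℤ × ℤ) : bl al be ga mu p q r s =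
    1000000 * (pF al be mu p q + pF al be mu p r + pF al be mu p s + pF al be mu q r +
      pF al be mu q s + pF al be mu r s) -
      2 * ga * (pZ p q * pZ r s + pZ p r * pZ q s + pZ p s * pZ q r) := by
  simp only [pF, pX, pY, pZ, bl]
  ring

lemma triOK_of (h0 : 0 < (b.1 - a.1) * (c.2 - a.2) - (b.2 - a.2) * (c.1 - a.1))
    (h : ∀ p q r s : ℤ × ℤ, (p, q, r, s) ∈ [(a, a, a, a), (a, a, a, b), (a, a, a, c), (a, a, b, b),
      (a, a, b, c), (a, a, c, c), (a, b, b, b), (a, b, b, c), (a, b, c, c), (a, c, c, c), (b, b, b, b),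
      (b, b, b, c), (b, b, c, c), (b, c, c, c), (c, c, c, c)] → 0 ≤ bl al be ga mu p q r s) :
    triOK al be ga mu a b c = true := by
  simp only [triOK, Bool.and_eq_true, decide_eq_true_eq]
  refine ⟨⟨⟨⟨⟨⟨⟨⟨⟨⟨⟨⟨⟨⟨⟨h0, ?_⟩, ?_⟩, ?_⟩, ?_⟩, ?_⟩, ?_⟩, ?_⟩, ?_⟩, ?_⟩, ?_⟩, ?_⟩, ?_⟩, ?_⟩, ?_⟩, ?_⟩ <;>
    exact h _ _ _ _ (by simp)

theorem triQ_ok (h1 : sz (nat_lit 17592186044416) al = true) (h2 : sz (nat_lit 17592186044416) be = true)
    (h2' : sz (nat_lit 17592186044416) ga = true) (h3 : sz (nat_lit 17592186044416) mu = true)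
    (ha : vz a = true) (hb : vz b = true) (hc : vz c = true)
    (h : triQ al be ga mu a b c = true) : triOK al be ga mu a b c = true := by
  obtain ⟨h4, h5⟩ := an_iff h
  have h0 := ori_ok ha hb hc h4
  have qaa := eF_rp ha ha h1 h2 h3
  have qab := eF_rp ha hb h1 h2 h3
  have qac := eF_rp ha hc h1 h2 h3
  have qbb := eF_rp hb hb h1 h2 h3
  have qbc := eF_rp hb hc h1 h2 h3
  have qcc := eF_rp hc hc h1 h2 h3
  rcases oor_iff h5 with h6 | h6
  · obtain ⟨h7, h8⟩ := an_iff h6
    have h9 := iz_eq h7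
    subst h9
    obtain ⟨k1, h8⟩ := an_iff h8
    obtain ⟨k2, h8⟩ := an_iff h8
    obtain ⟨k3, h8⟩ := an_iff h8
    obtain ⟨k4, h8⟩ := an_iff h8
    obtain ⟨k5, k6⟩ := an_iff h8
    have k1 := ge0_le qaa (by norm_num) k1
    have k2 := ge0_le qab (by norm_num) k2
    have k3 := ge0_le qac (by norm_num) k3
    have k4 := ge0_le qbb (by norm_num) k4
    have k5 := ge0_le qbc (by norm_num) k5
    have k6 := ge0_le qcc (by norm_num) k6
    refine triOK_of h0 ?_
    intro p q r s hm
    rw [bl_pF]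
    simp only [List.mem_cons, Prod.mk.injEq, List.not_mem_nil, or_false] at hm
    rcases hm with h | h | h | h | h | h | h | h | h | h | h | h | h | h | h <;>
      (obtain ⟨rfl, rfl, rfl, rfl⟩ := h; linarith)
  · have zaa := eZ_rp ha ha
    have zab := eZ_rp ha hb
    have zac := eZ_rp ha hc
    have zbb := eZ_rp hb hb
    have zbc := eZ_rp hb hc
    have zcc := eZ_rp hc hc
    have hg := toM_rp h2' (by norm_num : (17592186044416 : ℕ) ≤ 115792089237316195423570985008687907853269984665640564039457584007913129639936)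
    unfold tri4 at h6
    obtain ⟨k1, h6⟩ := an_iff h6
    obtain ⟨k2, h6⟩ := an_iff h6
    obtain ⟨k3, h6⟩ := an_iff h6
    obtain ⟨k4, h6⟩ := an_iff h6
    obtain ⟨k5, h6⟩ := an_iff h6
    obtain ⟨k6, h6⟩ := an_iff h6
    obtain ⟨k7, h6⟩ := an_iff h6
    obtain ⟨k8, h6⟩ := an_iff h6
    obtain ⟨k9, h6⟩ := an_iff h6
    obtain ⟨k10, h6⟩ := an_iff h6
    obtain ⟨k11, h6⟩ := an_iff h6
    obtain ⟨k12, h6⟩ := an_iff h6
    obtain ⟨k13, h6⟩ := an_iff h6
    obtain ⟨k14, k15⟩ := an_iff h6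
    have k1 := c1_le hg qaa zaa k1
    have k2 := c1_le hg qbb zbb k2
    have k3 := c1_le hg qcc zcc k3
    have k4 := c2_le hg qaa qab zaa zab k4
    have k5 := c2_le hg qaa qac zaa zac k5
    have k6 := c2_le hg qbb qab zbb zab k6
    have k7 := c2_le hg qbb qbc zbb zbc k7
    have k8 := c2_le hg qcc qac zcc zac k8
    have k9 := c2_le hg qcc qbc zcc zbc k9
    have k10 := c3_le hg qaa qbb qab zaa zbb zab k10
    have k11 := c3_le hg qaa qcc qac zaa zcc zac k11
    have k12 := c3_le hg qbb qcc qbc zbb zcc zbc k12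
    have k13 := c4_le hg qaa qbc qab qac zaa zbc zab zac k13
    have k14 := c4_le hg qbb qac qab qbc zbb zac zab zbc k14
    have k15 := c4_le hg qcc qab qac qbc zcc zab zac zbc k15
    refine triOK_of h0 ?_
    intro p q r s hm
    rw [bl_pF]
    simp only [List.mem_cons, Prod.mk.injEq, List.not_mem_nil, or_false] at hm
    rcases hm with h | h | h | h | h | h | h | h | h | h | h | h | h | h | h <;>
      (obtain ⟨rfl, rfl, rfl, rfl⟩ := h
       generalize e1 : pF al be mu _ _ = f1 at *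
       linarith)

end

/-- the triangles of the fan -/
def fanQ (al be ga mu : ℤ) (a : ℤ × ℤ) (l : List (ℤ × ℤ)) : ℤ × ℤ → Bool :=
  @List.rec (ℤ × ℤ) (fun _ => ℤ × ℤ → Bool) (fun _ => true)
    (fun c _ ih b => an (triQ al be ga mu a b c) (ih c)) l

/-- the size of the vertices -/
def vzs (l : List (ℤ × ℤ)) : Bool :=
  @List.rec (ℤ × ℤ) (fun _ => Bool) true (fun c _ ih => an (vz c) ih) l

/-- the size of the coefficients -/
def cz (al be ga mu : ℤ) : Bool :=
  an (sz (nat_lit 17592186044416) al) (an (sz (nat_lit 17592186044416) be)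
    (an (sz (nat_lit 17592186044416) ga) (sz (nat_lit 17592186044416) mu)))

lemma cz_iff {al be ga mu : ℤ} (h : cz al be ga mu = true) : sz (nat_lit 17592186044416) al = true ∧
    sz (nat_lit 17592186044416) be = true ∧ sz (nat_lit 17592186044416) ga = true ∧
    sz (nat_lit 17592186044416) mu = true := by
  unfold cz at h
  obtain ⟨z1, z⟩ := an_iff h
  obtain ⟨z2, z⟩ := an_iff z
  obtain ⟨z3, z4⟩ := an_iff z
  exact ⟨z1, z2, z3, z4⟩

lemma vzs_cons {c : ℤ × ℤ} {l : List (ℤ × ℤ)} : vzs (c :: l) = an (vz c) (vzs l) := rfl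

lemma fanQ_cons {al be ga mu : ℤ} {a b c : ℤ × ℤ} {l : List (ℤ × ℤ)} :
    fanQ al be ga mu a (c :: l) b = an (triQ al be ga mu a b c) (fanQ al be ga mu a l c) := rfl

lemma fanQ_ok {al be ga mu : ℤ} (hz : cz al be ga mu = true) {a : ℤ × ℤ} (ha : vz a = true)
    (l : List (ℤ × ℤ)) : ∀ b : ℤ × ℤ, vzs l = true → vz b = true →
    fanQ al be ga mu a l b = true → fanOK al be ga mu a (b :: l) = true := by
  obtain ⟨z1, z2, z3, z4⟩ := cz_iff hz
  clear hz
  induction l with
  | nil =>
    intro b _ _ _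
    rw [fanOK]
    simp
  | cons c l ih =>
    intro b hl hb h
    rw [fanQ_cons] at h
    rw [vzs_cons] at hl
    obtain ⟨h2, h3⟩ := an_iff h
    obtain ⟨h4, h5⟩ := an_iff hl
    have h6 := ih c h5 h4 h3
    have h7 := triQ_ok z1 z2 z3 z4 ha hb h4 h2
    rw [fanOK, h7, h6]
    rfl

lemma polyQ_nil {al be ga mu : ℤ} {V : List (ℤ × ℤ)} (h : (@List.rec (ℤ × ℤ) (fun _ => Bool) false (fun a l _ => @List.rec (ℤ × ℤ) (fun _ => Bool) false
    (fun b l' _ => @List.rec (ℤ × ℤ) (fun _ => Bool) false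
      (fun c l'' _ => fanQ al be ga mu a (c :: l'') b) l') l) V) = true) :
    ∃ a b c l, V = a :: b :: c :: l ∧ fanQ al be ga mu a (c :: l) b = true := by
  rcases V with _ | ⟨a, _ | ⟨b, _ | ⟨c, l⟩⟩⟩
  · exact absurd h Bool.false_ne_true
  · exact absurd h Bool.false_ne_true
  · exact absurd h Bool.false_ne_true
  · exact ⟨a, b, c, l, rfl, h⟩

/-- the check of a polygon -/
def polyQ (al be ga mu : ℤ) (V : List (ℤ × ℤ)) : Bool :=
  an (vzs V) (an (cz al be ga mu)
  (@List.rec (ℤ × ℤ) (fun _ => Bool) false (fun a l _ => @List.rec (ℤ × ℤ) (fun _ => Bool) false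
    (fun b l' _ => @List.rec (ℤ × ℤ) (fun _ => Bool) false
      (fun c l'' _ => fanQ al be ga mu a (c :: l'') b) l') l) V))

lemma polyQ_iff {al be ga mu : ℤ} {V : List (ℤ × ℤ)} (h : polyQ al be ga mu V = true) :
    vzs V = true ∧ cz al be ga mu = true ∧
    (@List.rec (ℤ × ℤ) (fun _ => Bool) false (fun a l _ => @List.rec (ℤ × ℤ) (fun _ => Bool) false
    (fun b l' _ => @List.rec (ℤ × ℤ) (fun _ => Bool) false
      (fun c l'' _ => fanQ al be ga mu a (c :: l'') b) l') l) V) = true := by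
  unfold polyQ at h
  obtain ⟨h1, h2⟩ := an_iff h
  obtain ⟨h3, h4⟩ := an_iff h2
  exact ⟨h1, h3, h4⟩

theorem polyQ_ok {al be ga mu : ℤ} {V : List (ℤ × ℤ)} (h : polyQ al be ga mu V = true) :
    polyOK al be ga mu V = true := by
  obtain ⟨h1, h3, h4⟩ := polyQ_iff h
  obtain ⟨a, b, c, l, rfl, h5⟩ := polyQ_nil h4
  rw [vzs_cons] at h1
  obtain ⟨h6, h7⟩ := an_iff h1
  rw [vzs_cons] at h7
  obtain ⟨h8, h9⟩ := an_iff h7
  exact fanQ_ok h3 h6 (c :: l) b h9 h8 h5

end

end Pool.Agent.Work.MP_b30479_gtS.G2.SQ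

end

section

/-!
# Constraints on a quotient

`QC`: the condition `al Re c + be Im c - ga |c|² - mu ≥ 0` on a complex number `c`; `Sat H c`: all
conditions of the list `H`; `okH H V`: they hold for `c = k²`, `k` in the polygon `V`.
`Grp`: a quotient `c = N / M` of two expressions with a list of conditions.
`row`: a run of the checker for a list of groups and a group of goals.
-/

namespace Pool.Agent.Work.MP_b30479_gtS.G2.CN

open Complex

/-- the condition `al Re c + be Im c - ga |c|² - mu ≥ 0` -/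
structure QC where
  al : ℤ
  be : ℤ
  ga : ℤ
  mu : ℤ

/-- the condition holds at `c` -/
def QC.Sat (Q : QC) (c : ℂ) : Prop :=
  0 ≤ (Q.al : ℝ) * c.re + Q.be * c.im - Q.ga * ‖c‖ ^ 2 - Q.mu

/-- the conjugate condition -/
def QC.mir (Q : QC) : QC := ⟨Q.al, -Q.be, Q.ga, Q.mu⟩

lemma QC.mir_sat {Q : QC} {c : ℂ} : Q.mir.Sat c ↔ Q.Sat ((starRingEnd ℂ) c) := by
  unfold QC.Sat QC.mir
  rw [Complex.norm_conj, Complex.conj_re, Complex.conj_im]
  push_cast
  rw [neg_mul, mul_neg]

/-- all conditions of the list hold at `c` -/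
def Sat (H : List QC) (c : ℂ) : Prop := ∀ Q ∈ H, Q.Sat c

/-- the conjugate conditions -/
def mirH (H : List QC) : List QC := H.map QC.mir

lemma Sat.mir {H : List QC} {c : ℂ} (h : Sat H ((starRingEnd ℂ) c)) : Sat (mirH H) c := by
  intro Q hQ
  obtain ⟨Q', h1, rfl⟩ := List.mem_map.1 hQ
  exact QC.mir_sat.2 (h Q' h1)

/-- check of the conditions for the squares of the points of a polygon -/
noncomputable def okH (H : List QC) (V : List (ℤ × ℤ)) : Bool :=
  @List.rec QC (fun _ => Bool) true (fun Q _ ih => SQ.an (SQ.polyQ Q.al Q.be Q.ga Q.mu V) ih) H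

lemma okH_mem {V : List (ℤ × ℤ)} : ∀ {H : List QC}, okH H V = true → ∀ Q ∈ H,
    SQ.polyQ Q.al Q.be Q.ga Q.mu V = true := by
  intro H
  induction H with
  | nil => exact fun _ Q hQ => absurd hQ (by simp)
  | cons Q' H ih =>
    intro h Q hQ
    have h1 : SQ.an (SQ.polyQ Q'.al Q'.be Q'.ga Q'.mu V) (okH H V) = true := h
    obtain ⟨h2, h3⟩ := SQ.an_iff h1
    rcases List.mem_cons.1 hQ with e | hQ
    · rw [e]
      exact h2
    · exact ih h3 Q hQ

theorem okH_sound {H : List QC} {V : List (ℤ × ℤ)} (h : okH H V = true) {k : ℂ}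
    (hk : k ∈ Poly V) : Sat H (k ^ 2) := by
  intro Q hQ
  have h1 := SQ.poly_sound (SQ.polyQ_ok (okH_mem h Q hQ)) hk
  unfold SQ.quart at h1
  unfold QC.Sat
  have e1 : (k ^ 2).re = k.re ^ 2 - k.im ^ 2 := by
    rw [pow_two, Complex.mul_re]; ring
  have e2 : (k ^ 2).im = 2 * k.re * k.im := by
    rw [pow_two, Complex.mul_im]; ring
  have e3 : ‖k ^ 2‖ ^ 2 = (k.re ^ 2 + k.im ^ 2) ^ 2 := by
    rw [norm_pow, ← pow_mul, mul_comm 2 2, pow_mul, ← Complex.normSq_eq_norm_sq,
      Complex.normSq_apply]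
    ring
  rw [e1, e2, e3]
  exact h1

noncomputable section

/-- no condition -/
def Con.triv : Con where
  g := true
  b := nat_lit 0
  lf := fun _ => ⟨nat_lit 0, nat_lit 0, nat_lit 0, nat_lit 0⟩
  Holds := fun _ _ => True
  ok := fun _ => ⟨HH_pos, fun _ _ _ _ _ _ _ _ _ _ _ => ⟨0, LOk.zero, fun _ => le_rfl⟩⟩

/-- `0 ≤ x Im A + y Re A - m |A|² + k` -/
def qdi (x y m k : ℤ) (A : Ev) : Con :=
  if m = 0 then .ql x.toNat (-x).toNat y.toNat (-y).toNat k.toNat (-k).toNat A
  else .qd x.toNat (-x).toNat y.toNat (-y).toNat m.toNat (-m).toNat k.toNat (-k).toNat A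

/-- the constraint `Q` for the quotient `N / M` -/
def mkCon0 (Q : QC) (N M : Ev) (hd : N.deg = M.deg) : Con :=
  if Q.ga = 0 then
    if Q.mu = 0 then .qI Q.be.toNat (-Q.be).toNat Q.al.toNat (-Q.al).toNat N M
    else .qM Q.be.toNat (-Q.be).toNat Q.al.toNat (-Q.al).toNat Q.mu.toNat (-Q.mu).toNat N M hd
  else if Q.mu = 0 then
    .qG Q.be.toNat (-Q.be).toNat Q.al.toNat (-Q.al).toNat Q.ga.toNat (-Q.ga).toNat N M hd
  else if Q.al = 0 ∧ Q.be = 0 then
    .qB Q.ga.toNat (-Q.ga).toNat Q.mu.toNat (-Q.mu).toNat N M hd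
  else .qA Q.be.toNat (-Q.be).toNat Q.al.toNat (-Q.al).toNat Q.ga.toNat (-Q.ga).toNat Q.mu.toNat
    (-Q.mu).toNat N M hd

/-- the same; special forms if `M = 1`, `N = 1`, `N / M = (u + i) / (u - i)` or
`N / M = (1 + i w) / (1 - i w)` -/
def mkCon (Q : QC) (N M : Ev) (hd : N.deg = M.deg) : Con :=
  if M.ty = 1 then qdi Q.be Q.al Q.ga (-Q.mu) N
  else if N.ty = 1 then qdi (-Q.be) Q.al Q.mu (-Q.ga) M
  else if N.ty = 2 ∧ M.ty = 3 then
    qdi (2 * (Q.mu - Q.ga)) (2 * Q.be) (Q.ga + Q.mu - Q.al) (-(Q.al + Q.ga + Q.mu)) .R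
  else if N.ty = 4 ∧ M.ty = 5 then
    qdi (2 * (Q.ga - Q.mu)) (2 * Q.be) (Q.al + Q.ga + Q.mu) (Q.al - Q.ga - Q.mu) .q
  else mkCon0 Q N M hd

lemma toNat_sub (x : ℤ) : ((x.toNat : ℕ) : ℝ) - ((-x).toNat : ℕ) = x := by
  have h : ((x.toNat : ℕ) : ℤ) - ((-x).toNat : ℕ) = x := by omega
  exact_mod_cast h

lemma gz_int (x y : ℤ) : gz x.toNat (-x).toNat y.toNat (-y).toNat = ⟨(x : ℝ), (y : ℝ)⟩ := by
  unfold gz
  rw [toNat_sub, toNat_sub]

theorem mkCon0_holds {Q : QC} {N M : Ev} {hd : N.deg = M.deg} {u w c : ℂ}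
    (hc : c * M.val u w = N.val u w) (h : Q.Sat c) : (mkCon0 Q N M hd).Holds u w := by
  have n2 : M.val u w * (starRingEnd ℂ) (M.val u w) = ((‖M.val u w‖ ^ 2 : ℝ) : ℂ) := by
    rw [Complex.mul_conj, Complex.normSq_eq_norm_sq]
  have hN : N.val u w * (starRingEnd ℂ) (M.val u w) = ((‖M.val u w‖ ^ 2 : ℝ) : ℂ) * c := by
    rw [← n2, ← hc]; ring
  have nn : ‖N.val u w‖ ^ 2 = ‖c‖ ^ 2 * ‖M.val u w‖ ^ 2 := by
    rw [← hc, norm_mul, mul_pow]
  have p := sq_nonneg ‖M.val u w‖
  unfold QC.Sat at h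
  have hh := mul_nonneg p h
  have e : (gz Q.be.toNat (-Q.be).toNat Q.al.toNat (-Q.al).toNat *
      (N.val u w * (starRingEnd ℂ) (M.val u w))).im = ‖M.val u w‖ ^ 2 * (Q.al * c.re + Q.be * c.im) := by
    rw [gz_int, hN, mul_left_comm, Complex.im_ofReal_mul, Complex.mul_im]
    ring
  unfold mkCon0
  by_cases hg : Q.ga = 0
  · rw [if_pos hg]
    rw [hg, Int.cast_zero, zero_mul, sub_zero] at hh
    by_cases hm : Q.mu = 0
    · rw [if_pos hm]
      rw [hm, Int.cast_zero, sub_zero] at hh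
      change 0 ≤ (gz _ _ _ _ * (N.val u w * (starRingEnd ℂ) (M.val u w))).im
      rw [e]
      exact hh
    · rw [if_neg hm]
      change 0 ≤ (gz _ _ _ _ * (N.val u w * (starRingEnd ℂ) (M.val u w))).im -
        (((Q.mu.toNat : ℕ) : ℝ) - ((-Q.mu).toNat : ℕ)) * ‖M.val u w‖ ^ 2
      rw [e, toNat_sub]
      linarith only [hh]
  · rw [if_neg hg]
    by_cases hm : Q.mu = 0
    · rw [if_pos hm]
      rw [hm, Int.cast_zero, sub_zero] at hh
      change 0 ≤ (gz _ _ _ _ * (N.val u w * (starRingEnd ℂ) (M.val u w))).im -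
        (((Q.ga.toNat : ℕ) : ℝ) - ((-Q.ga).toNat : ℕ)) * ‖N.val u w‖ ^ 2
      rw [e, toNat_sub, nn]
      linarith only [hh]
    · rw [if_neg hm]
      by_cases hab : Q.al = 0 ∧ Q.be = 0
      · rw [if_pos hab]
        rw [hab.1, hab.2, Int.cast_zero, zero_mul, zero_mul, zero_add, zero_sub] at hh
        change 0 ≤ -((((Q.ga.toNat : ℕ) : ℝ) - ((-Q.ga).toNat : ℕ)) * ‖N.val u w‖ ^ 2) -
          (((Q.mu.toNat : ℕ) : ℝ) - ((-Q.mu).toNat : ℕ)) * ‖M.val u w‖ ^ 2
        rw [toNat_sub, toNat_sub, nn]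
        linarith only [hh]
      · rw [if_neg hab]
        change 0 ≤ (gz _ _ _ _ * (N.val u w * (starRingEnd ℂ) (M.val u w))).im -
          (((Q.ga.toNat : ℕ) : ℝ) - ((-Q.ga).toNat : ℕ)) * ‖N.val u w‖ ^ 2 -
          (((Q.mu.toNat : ℕ) : ℝ) - ((-Q.mu).toNat : ℕ)) * ‖M.val u w‖ ^ 2
        rw [e, toNat_sub, toNat_sub, nn]
        linarith only [hh]

lemma im_xy (x y : ℝ) (z : ℂ) : ((⟨x, y⟩ : ℂ) * z).im = x * z.im + y * z.re := by
  rw [Complex.mul_im]

lemma qdi_holds {x y m k : ℤ} {A : Ev} {u w : ℂ}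
    (h : 0 ≤ (x : ℝ) * (A.val u w).im + y * (A.val u w).re - m * ‖A.val u w‖ ^ 2 + k) :
    (qdi x y m k A).Holds u w := by
  unfold qdi
  by_cases hm : m = 0
  · rw [if_pos hm]
    change 0 ≤ (gz _ _ _ _ * A.val u w).im + (((k.toNat : ℕ) : ℝ) - ((-k).toNat : ℕ))
    rw [gz_int, toNat_sub, im_xy]
    rw [hm, Int.cast_zero, zero_mul, sub_zero] at h
    exact h
  · rw [if_neg hm]
    change 0 ≤ (gz _ _ _ _ * A.val u w).im - (((m.toNat : ℕ) : ℝ) - ((-m).toNat : ℕ)) * ‖A.val u w‖ ^ 2 +
      (((k.toNat : ℕ) : ℝ) - ((-k).toNat : ℕ))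
    rw [gz_int, toNat_sub, toNat_sub, im_xy]
    exact h

theorem mkCon_holds {Q : QC} {N M : Ev} {hd : N.deg = M.deg} {u w c : ℂ}
    (hc : c * M.val u w = N.val u w) (h : Q.Sat c) : (mkCon Q N M hd).Holds u w := by
  unfold mkCon
  by_cases h1 : M.ty = 1
  · rw [if_pos h1]
    rw [M.kd.k1 h1, mul_one] at hc
    apply qdi_holds
    rw [← hc]
    unfold QC.Sat at h
    push_cast
    linarith only [h]
  rw [if_neg h1]
  by_cases h2 : N.ty = 1
  · rw [if_pos h2]
    rw [N.kd.k1 h2] at hc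
    apply qdi_holds
    unfold QC.Sat at h
    set z := M.val u w with hz
    have n2 : c * ((‖z‖ ^ 2 : ℝ) : ℂ) = (starRingEnd ℂ) z := by
      rw [← Complex.normSq_eq_norm_sq, ← Complex.mul_conj, ← mul_assoc, hc, one_mul]
    have r1 := congrArg Complex.re n2
    have r2 := congrArg Complex.im n2
    rw [Complex.re_mul_ofReal, Complex.conj_re] at r1
    rw [Complex.im_mul_ofReal, Complex.conj_im] at r2
    have r3 : ‖c‖ ^ 2 * ‖z‖ ^ 2 = 1 := by
      rw [← mul_pow, ← norm_mul, hc, norm_one, one_pow]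
    have hh := mul_nonneg h (sq_nonneg ‖z‖)
    have e : ((Q.al : ℝ) * c.re + Q.be * c.im - Q.ga * ‖c‖ ^ 2 - Q.mu) * ‖z‖ ^ 2 =
        Q.al * (c.re * ‖z‖ ^ 2) + Q.be * (c.im * ‖z‖ ^ 2) - Q.ga * (‖c‖ ^ 2 * ‖z‖ ^ 2) -
          Q.mu * ‖z‖ ^ 2 := by ring
    rw [e, r1, r2, r3] at hh
    push_cast
    linarith only [hh]
  rw [if_neg h2]
  by_cases h3 : N.ty = 2 ∧ M.ty = 3
  · rw [if_pos h3]
    rw [N.kd.k2 h3.1, M.kd.k3 h3.2] at hc
    apply qdi_holds
    change 0 ≤ _ * u.im + _ * u.re - _ * ‖u‖ ^ 2 + _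
    unfold QC.Sat at h
    have n1 : ‖u‖ ^ 2 = u.re * u.re + u.im * u.im := by
      rw [← Complex.normSq_eq_norm_sq, Complex.normSq_apply]
    have n2 : ‖u - I‖ ^ 2 = u.re * u.re + (u.im - 1) * (u.im - 1) := by
      rw [← Complex.normSq_eq_norm_sq, Complex.normSq_apply]
      simp
    have n3 : ‖c‖ ^ 2 * ‖u - I‖ ^ 2 = u.re * u.re + (u.im + 1) * (u.im + 1) := by
      rw [← mul_pow, ← norm_mul, hc, ← Complex.normSq_eq_norm_sq, Complex.normSq_apply]
      simp
    have n4 : c * ((‖u - I‖ ^ 2 : ℝ) : ℂ) = (u + I) * (starRingEnd ℂ) (u - I) := by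
      rw [← Complex.normSq_eq_norm_sq, ← Complex.mul_conj, ← mul_assoc, hc]
    have r1 := congrArg Complex.re n4
    have r2 := congrArg Complex.im n4
    rw [Complex.re_mul_ofReal] at r1
    rw [Complex.im_mul_ofReal] at r2
    simp only [map_sub, Complex.conj_I, sub_neg_eq_add, Complex.mul_re, Complex.mul_im, Complex.add_re,
      Complex.add_im, Complex.conj_re, Complex.conj_im, Complex.I_re, Complex.I_im, add_zero] at r1 r2
    have hh := mul_nonneg h (sq_nonneg ‖u - I‖)
    have e : ((Q.al : ℝ) * c.re + Q.be * c.im - Q.ga * ‖c‖ ^ 2 - Q.mu) * ‖u - I‖ ^ 2 =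
        Q.al * (c.re * ‖u - I‖ ^ 2) + Q.be * (c.im * ‖u - I‖ ^ 2) -
          Q.ga * (‖c‖ ^ 2 * ‖u - I‖ ^ 2) - Q.mu * ‖u - I‖ ^ 2 := by ring
    rw [e, r1, r2, n3, n2] at hh
    push_cast
    rw [n1]
    nlinarith only [hh, hh]
  rw [if_neg h3]
  by_cases h5 : N.ty = 4 ∧ M.ty = 5
  · rw [if_pos h5]
    rw [N.kd.k4 h5.1, M.kd.k5 h5.2] at hc
    apply qdi_holds
    change 0 ≤ _ * w.im + _ * w.re - _ * ‖w‖ ^ 2 + _
    unfold QC.Sat at h
    have n1 : ‖w‖ ^ 2 = w.re * w.re + w.im * w.im := by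
      rw [← Complex.normSq_eq_norm_sq, Complex.normSq_apply]
    have n2 : ‖1 - I * w‖ ^ 2 = (1 + w.im) * (1 + w.im) + w.re * w.re := by
      rw [← Complex.normSq_eq_norm_sq, Complex.normSq_apply]
      simp
    have n3 : ‖c‖ ^ 2 * ‖1 - I * w‖ ^ 2 = (1 - w.im) * (1 - w.im) + w.re * w.re := by
      rw [← mul_pow, ← norm_mul, hc, ← Complex.normSq_eq_norm_sq, Complex.normSq_apply]
      simp
      ring
    have n4 : c * ((‖1 - I * w‖ ^ 2 : ℝ) : ℂ) = (1 + I * w) * (starRingEnd ℂ) (1 - I * w) := by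
      rw [← Complex.normSq_eq_norm_sq, ← Complex.mul_conj, ← mul_assoc, hc]
    have r1 := congrArg Complex.re n4
    have r2 := congrArg Complex.im n4
    rw [Complex.re_mul_ofReal] at r1
    rw [Complex.im_mul_ofReal] at r2
    simp only [map_sub, map_mul, map_one, Complex.conj_I, Complex.mul_re, Complex.mul_im, Complex.add_re,
      Complex.add_im, Complex.sub_re, Complex.sub_im, Complex.neg_re, Complex.neg_im, Complex.one_re,
      Complex.one_im, Complex.conj_re, Complex.conj_im, Complex.I_re, Complex.I_im] at r1 r2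
    have hh := mul_nonneg h (sq_nonneg ‖1 - I * w‖)
    have e : ((Q.al : ℝ) * c.re + Q.be * c.im - Q.ga * ‖c‖ ^ 2 - Q.mu) * ‖1 - I * w‖ ^ 2 =
        Q.al * (c.re * ‖1 - I * w‖ ^ 2) + Q.be * (c.im * ‖1 - I * w‖ ^ 2) -
          Q.ga * (‖c‖ ^ 2 * ‖1 - I * w‖ ^ 2) - Q.mu * ‖1 - I * w‖ ^ 2 := by ring
    rw [e, r1, r2, n3, n2] at hh
    push_cast
    rw [n1]
    nlinarith only [hh, hh]
  rw [if_neg h5]
  exact mkCon0_holds hc h

/-- a quotient of two expressions with conditions -/
structure Grp where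
  N : Ev
  M : Ev
  hd : N.deg = M.deg
  H : List QC

/-- the constraints of a group -/
def Grp.cs (g : Grp) : List Con := g.H.map fun Q => mkCon Q g.N g.M g.hd

/-- the quotient satisfies the conditions -/
def Grp.Ok (g : Grp) (u w : ℂ) : Prop := ∃ c : ℂ, c * g.M.val u w = g.N.val u w ∧ Sat g.H c

lemma Grp.Ok.holds {g : Grp} {u w : ℂ} (h : g.Ok u w) : ∀ c ∈ g.cs, c.Holds u w := by
  intro c hc
  obtain ⟨z, h1, h2⟩ := h
  obtain ⟨Q, hQ, rfl⟩ := List.mem_map.1 hc
  exact mkCon_holds h1 (h2 Q hQ)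

/-- the constraints of a list of groups -/
def csOf (l : List Grp) : List Con := l.flatMap Grp.cs

lemma csOf_holds {l : List Grp} {u w : ℂ} (h : ∀ g ∈ l, g.Ok u w) :
    ∀ c ∈ csOf l, c.Holds u w := by
  intro c hc
  obtain ⟨g, h1, h2⟩ := List.mem_flatMap.1 hc
  exact (h g h1).holds c h2

/-- the head -/
def hdC (l : List Con) : Con := @List.rec Con (fun _ => Con) Con.triv (fun c _ _ => c) l

/-- the first `n` elements and the others -/
def spl (n : ℕ) : List Con → List Con × List Con :=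
  @Nat.rec (fun _ => List Con → List Con × List Con) (fun l => ([], l))
    (fun _ ih l => @List.rec Con (fun _ => List Con × List Con) ([], [])
      (fun c l' _ => (c :: (ih l').1, (ih l').2)) l) n

lemma spl_mem (n : ℕ) : ∀ l : List Con, (∀ c ∈ (spl n l).1, c ∈ l) ∧ (∀ c ∈ (spl n l).2, c ∈ l) := by
  induction n with
  | zero => exact fun l => ⟨fun c hc => absurd hc (by simp [spl]), fun c hc => hc⟩
  | succ n ih =>
    intro l
    cases l with
    | nil => exact ⟨fun c hc => hc, fun c hc => hc⟩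
    | cons a l =>
      constructor
      · intro c hc
        have : c ∈ a :: (spl n l).1 := hc
        rcases List.mem_cons.1 this with rfl | h
        · exact List.mem_cons_self
        · exact List.mem_cons_of_mem _ ((ih l).1 c h)
      · intro c hc
        have : c ∈ (spl n l).2 := hc
        exact List.mem_cons_of_mem _ ((ih l).2 c this)

/-- the tree of a list; its first element has the number `i` -/
def ofL (d : ℕ) : ℕ → List Con → CT :=
  @Nat.rec (fun _ => ℕ → List Con → CT) (fun _ l => .l (hdC l))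
    (fun d ih i l => .n (Nat.add i (Nat.pow (nat_lit 2) d)) (ih i (spl (Nat.pow (nat_lit 2) d) l).1)
      (ih (Nat.add i (Nat.pow (nat_lit 2) d)) (spl (Nat.pow (nat_lit 2) d) l).2)) d

lemma ofL_all {u w : ℂ} (d : ℕ) : ∀ (i : ℕ) (l : List Con), (∀ c ∈ l, c.g = true ∧ c.Holds u w) →
    (ofL d i l).All u w := by
  induction d with
  | zero =>
    intro i l hl
    cases l with
    | nil => exact ⟨rfl, trivial⟩
    | cons c l => exact hl c List.mem_cons_self
  | succ d ih =>
    intro i l hl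
    exact ⟨ih _ _ fun c hc => hl c ((spl_mem _ l).1 c hc), ih _ _ fun c hc => hl c ((spl_mem _ l).2 c hc)⟩

/-- the range of a cell, as a test -/
def inI (n : ℕ) : Bool := cB (Nat.ble (nat_lit 917504) n) (Nat.ble n (nat_lit 1179648)) false

lemma inI_spec {n : ℕ} (h : inI n = true) : InR n :=
  ⟨Nat.le_of_ble_eq_true (cB_and h).1, Nat.le_of_ble_eq_true (cB_and h).2⟩

def inC (C : Cell) : Bool := cB (inI C.xl) (cB (inI C.xh) (cB (inI C.yl) (cB (inI C.yh)
  (cB (inI C.ul) (cB (inI C.uh) (cB (inI C.vl) (inI C.vh) false) false) false) false) false) false) false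

lemma inC_spec {C : Cell} (h : inC C = true) : C.In := by
  have h1 := cB_and h
  have h2 := cB_and h1.2
  have h3 := cB_and h2.2
  have h4 := cB_and h3.2
  have h5 := cB_and h4.2
  have h6 := cB_and h5.2
  have h7 := cB_and h6.2
  exact ⟨inI_spec h1.1, inI_spec h2.1, inI_spec h3.1, inI_spec h4.1, inI_spec h5.1, inI_spec h6.1,
    inI_spec h7.1, inI_spec h7.2⟩

/-- the open goals at the start are the numbers of all goals -/
lemma mk0_goal {gs : List Con} {al : List (Con × Con)} {u w : ℂ} {C : Cell} (hC : C.In) (hm : C.Mem u w)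
    (h : CellOk gs al u w C (mk0 gs)) (hk : Nat.ble (mk0 gs) (nat_lit 4294967295) = true) {g : Con}
    (hg : g ∈ gs) : ¬ g.Holds u w := by
  obtain ⟨j, h1, h2⟩ := getG_goal al hg hk
  have h3 := (h hC hm).1 j h1
  rw [h2] at h3
  exact h3

/-- a run of the checker: groups `l`, goals `go`; `n ≥ 1048576`: `n - 1048576` chunks for the second
checker -/
def row (l : List Grp) (go : List Grp) (n code : ℕ) (C : Cell) : Bool :=
  cB (inC C) (cB (allG (csOf l)) (cB (allG (csOf go))
    (cB (Nat.ble (nat_lit 1048576) n)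
      (cB (Nat.ble (mk0 (csOf go)) (nat_lit 4294967295))
        (partC (ofL 7 (nat_lit 0) (csOf l)) (csOf go) [] (Nat.sub n (nat_lit 1048576)) code
          (.cons C (mk0 (csOf go)) .nil) .nil) false)
      (run (ofL 6 (nat_lit 13) (csOf l)) (csOf go) n code [C])) false) false) false

/-- **Soundness of a run.** -/
theorem row_sound {l : List Grp} {go : List Grp} {n code : ℕ} {C : Cell}
    (h : row l go n code C = true) {u w : ℂ} (hm : C.Mem u w) (hl : ∀ g ∈ l, g.Ok u w)
    {g : Grp} (hg : g ∈ go) {c : ℂ} (hc : c * g.M.val u w = g.N.val u w) :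
    ∀ Q ∈ g.H, ¬ Q.Sat c := by
  intro Q hQ hS
  have h1 := cB_and h
  have h2 := cB_and h1.2
  have h3 := cB_and h2.2
  have hC := inC_spec h1.1
  have hcs : ∀ c ∈ csOf l, c.g = true ∧ c.Holds u w := fun c hc => ⟨allG_spec h2.1 c hc, csOf_holds hl c hc⟩
  have hmem : mkCon Q g.N g.M g.hd ∈ csOf go :=
    List.mem_flatMap.2 ⟨g, hg, List.mem_map.2 ⟨Q, hQ, rfl⟩⟩
  rcases cB_cases h3.2 with ⟨_, h4⟩ | ⟨_, h4⟩
  · obtain ⟨h5, h6⟩ := cB_and h4
    have h7 := partC_spec (ofL_all 7 _ _ hcs) (allG_spec h3.1) (fun p hp => absurd hp (by simp)) _ _ _ h6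
    exact mk0_goal hC hm h7.1 h5 hmem (mkCon_holds hc hS)
  · have h5 := run_spec (ofL_all 6 _ _ hcs) (allG_spec h3.1) n code [C] h4 C List.mem_cons_self hC hm _ hmem
    exact h5 (mkCon_holds hc hS)

/-! ### runs in parts -/

/-- the number of chunks of a run in parts -/
def pn (n : ℕ) : ℕ := Nat.add (nat_lit 1048576) n

/-- a sum -/
def pl (m k : ℕ) : ℕ := Nat.add m k

/-- the data of a run are in the range -/
def rdy (l go : List Grp) (C : Cell) : Bool :=
  cB (inC C) (cB (allG (csOf l)) (cB (allG (csOf go)) (Nat.ble (mk0 (csOf go)) (nat_lit 4294967295))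
    false) false) false

lemma pn_le (n : ℕ) : Nat.ble (nat_lit 1048576) (pn n) = true :=
  Nat.ble_eq_true_of_le (Nat.le_add_right 1048576 n)

lemma pn_sub (n : ℕ) : Nat.sub (pn n) (nat_lit 1048576) = n := Nat.add_sub_cancel_left _ _

/-- **A run in parts.** -/
theorem row_mk {l go : List Grp} {n code : ℕ} {C : Cell} (h1 : rdy l go C = true)
    (h2 : partC (ofL 7 (nat_lit 0) (csOf l)) (csOf go) [] n code (.cons C (mk0 (csOf go)) .nil) .nil = true) :
    row l go (pn n) code C = true := by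
  obtain ⟨k1, h3⟩ := cB_and h1
  obtain ⟨k2, h4⟩ := cB_and h3
  obtain ⟨k3, k4⟩ := cB_and h4
  unfold row
  rw [k1, k2, k3, k4, pn_le, pn_sub, h2]
  rfl

/-- one part more -/
theorem cat_mk (d N : ℕ) {cs : CT} {gs : List Con} {al : List (Con × Con)} {m k c r : ℕ} {st s : Stk}
    (h1 : partC cs gs al k c st (dS d N) = true) (h2 : partC cs gs al m r (dS d N) s = true) :
    partC cs gs al (pl m k) (cat k c r) st s = true := partC_cat h2 h1

theorem and_mk {a b : Bool} (h1 : a = true) (h2 : b = true) : (a && b) = true := by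
  rw [h1, h2]
  rfl

end

end Pool.Agent.Work.MP_b30479_gtS.G2.CN

end

section

/-!
# Checking a box in pieces

The checker `chk` of `NumIs.Expr` can be run in pieces, each by a theorem of its own: `chk_node`
gives the step at a bisection.
-/

namespace Pool.Agent.Work.NumIs

theorem chk_node {es : List E} {n i : ℕ} {vs : List V}
    (hi : Nat.beq (best vs (grad1 (mkEnv 0 vs) es) 0 0 0) i = true)
    (hl : chk es n (setL i vs) = true) (hr : chk es n (setR i vs) = true) :
    chk es (n + 1) vs = true := by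
  have h := Nat.eq_of_beq_eq_true hi
  unfold chk
  rw [h, hl, hr, cond_true]
  cases tryE (mkEnv 0 vs) es <;> rfl

end Pool.Agent.Work.NumIs

end

section

/-!
# How to use the checker

1. Write the expression, e.g. `E.sub (E.sinPi (E.var 0)) (E.q 1 2)`; variables are numbered from 0.
   A shared subexpression: `E.lt a b`; inside `b` the value of `a` is the next free variable
   (`E.var n` if there are `n` variables so far).
2. Search with compiled code: `#eval cnt [e] fuel box` gives the number of boxes (>= 1000000: fuel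
   exhausted).  `V.of N lo hi k` is the range `[lo / N, hi / N]`, `k` (default 4) a weight: a larger
   `k` makes the checker prefer to bisect this variable.
3. Prove `chk [e] fuel box = true` by `decide +kernel`, apply `chk1`, ..., `chk4` or `chk_box`, and
   simplify with `E.val`.
-/

set_option deprecated.oldSectionVars true

namespace Pool.Agent.Work.NumIs

/-- number of boxes (for `#eval` only) -/
def cnt (es : List E) : ℕ → List V → ℕ
  | 0, _ => 1000000
  | n + 1, vs =>
    if tryE (mkEnv 0 vs) es then 1 else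
      let i := best vs (grad1 (mkEnv 0 vs) es) 0 0 0
      cnt es n (setL i vs) + cnt es n (setR i vs)

/-- the first box on which the search fails, in units `1 / 2^36` (for `#eval` only) -/
def bad (es : List E) : ℕ → List V → Option (List (ℤ × ℤ))
  | 0, vs => some (vs.map fun v => ((v.p : ℤ) - v.q + v.a, (v.p : ℤ) - v.q + v.b))
  | n + 1, vs =>
    if tryE (mkEnv 0 vs) es then none else
      let i := best vs (grad1 (mkEnv 0 vs) es) 0 0 0
      match bad es n (setL i vs) with
      | some r => some r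
      | none => bad es n (setR i vs)

section
open E

/-- `1/2 log (4 (sin^2 (π x) + sinh^2 (π t)))`, variables `x = var 0`, `t = var 1` -/
def exA : E := mul (q 1 2) (log (mul (q 4 1) (add (sq (sinPi (var 0))) (sq (sinh (mul pi (var 1)))))))

example (x t : ℝ) (hx : 1 / 10 ≤ x) (hx' : x ≤ 1 / 2) (ht : 0 ≤ t) (ht' : t ≤ 1 / 5) :
    -(49 / 100) < 1 / 2 * Real.log (4 * (Real.sin (Real.pi * x) ^ 2 + Real.sinh (Real.pi * t) ^ 2)) := by
  have h : chk [add exA (q 49 100)] 30 [V.of 400 40 200, V.of 400 0 80] = true := by decide +kernel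
  have hp := pos_of_chk (chk2 h (by norm_num) (x := x) (y := t) (by norm_num; linarith)
    (by norm_num; linarith) (by norm_num; linarith) (by norm_num; linarith))
  simp only [exA, val, lkR_zero, lkR_one] at hp
  norm_num at hp
  linarith

end

end Pool.Agent.Work.NumIs

end
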