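import Pool.Agent.Work.MP_b30479_gt.TBS.G2.TRa

section

/-!
# Part of `R3VA`
-/
set_option linter.unusedVariables false
set_option linter.unusedTactic false
set_option linter.unreachableTactic false
set_option linter.unusedSimpArgs false
set_option linter.unnecessarySeqFocus false

set_option deprecated.oldSectionVars true

namespace Pool.Agent.Work.MP_b30479_gtS.G2

open VOL NumUs

namespace R3V

open E

theorem o1_11 {x T m t : ℝ} (h1 : 3600 / 10000 ≤ x ∧ x ≤ 6500 / 10000)
    (h2 : -(920 / 10000) ≤ T ∧ T ≤ -(210 / 10000)) (h3 : 5000 / 10000 ≤ m ∧ m ≤ 5567 / 10000)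
    (h4 : -(1230 / 10000) ≤ t ∧ t ≤ -(150 / 10000)) (a0 : 26 / 100 + m ≤ 11 / 12) (a1 : x + m ≤ 11 / 12) :
    48 / 1000 + 115 / 100 * (x - 36 / 100) < gw (26 / 100) T x (MR.tR 65 29 x T) m t (lb 1 (-1) (26 / 100 + m) (T + t))
      (ub 1 (-1) (x + m) (MR.tR 65 29 x T + t)) := by
  have h := posT (G := sub (gwE 65 29 26 tv 1 1 (-1) (-1)) (gl 48 1000 115 100 36 100)) (al := [cge 26 11 12, zge 11 12])
    (fuel := 26) (c := 88995050479522867185819192568794507231597459010429655585417507286959380089268470043075659509760)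
    (x := x) (T := T) (x' := m) (t' := t)
    (by decide +kernel : chkT [sub (gwE 65 29 26 tv 1 1 (-1) (-1)) (gl 48 1000 115 100 36 100), cge 26 11 12, zge 11 12] 26
      88995050479522867185819192568794507231597459010429655585417507286959380089268470043075659509760
      [NumIs.V.of 10000 3600 6500, NumIs.V.of 10000 (-920) (-210), NumIs.V.of 10000 5000 5567, NumIs.V.of 10000 (-1230) (-150)] = true)
    ⟨by norm_num; linarith only [h1], by norm_num; linarith only [h1]⟩ ⟨by norm_num; linarith only [h2], by norm_num; linarith only [h2]⟩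
    ⟨by norm_num; linarith only [h3], by norm_num; linarith only [h3]⟩ ⟨by norm_num; linarith only [h4], by norm_num; linarith only [h4]⟩
    (by
      intro e he
      simp only [List.mem_cons, List.not_mem_nil, or_false] at he
      rcases he with rfl | rfl <;>
        (simp only [zge, zle, cge, cle, ypos, yneg, tv, E.val, NumIs.E.val, MR.tE_val, NumIs.lkR]
         norm_num
         linarith only [h3, a1]))
  rw [E.val, gwE_val] at h
  simp only [gl, tv, tK, E.val, NumIs.E.val, NumIs.lkR] at h
  push_cast at h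
  linarith only [h]

theorem o1_12 {x T m t : ℝ} (h1 : 3600 / 10000 ≤ x ∧ x ≤ 6500 / 10000)
    (h2 : -(920 / 10000) ≤ T ∧ T ≤ -(210 / 10000)) (h3 : 5000 / 10000 ≤ m ∧ m ≤ 6400 / 10000)
    (h4 : -(1230 / 10000) ≤ t ∧ t ≤ -(150 / 10000)) (a0 : 26 / 100 + m ≤ 11 / 12) (a1 : 11 / 12 ≤ x + m) (a2 : x + m ≤ 1 / 1) :
    48 / 1000 + 115 / 100 * (x - 36 / 100) < gw (26 / 100) T x (MR.tR 65 29 x T) m t (lb 1 (-1) (26 / 100 + m) (T + t))
      (ub 2 (-1) (x + m) (MR.tR 65 29 x T + t)) := by
  have h := posT (G := sub (gwE 65 29 26 tv 1 2 (-1) (-1)) (gl 48 1000 115 100 36 100)) (al := [cge 26 11 12, zle 11 12, zge 1 1])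
    (fuel := 26) (c := 8518090495877659651584391479844637609163529777685596801327989140757990477668343883867336678180262424565795065753781842217674170005917699)
    (x := x) (T := T) (x' := m) (t' := t)
    (by decide +kernel : chkT [sub (gwE 65 29 26 tv 1 2 (-1) (-1)) (gl 48 1000 115 100 36 100), cge 26 11 12, zle 11 12, zge 1 1] 26
      8518090495877659651584391479844637609163529777685596801327989140757990477668343883867336678180262424565795065753781842217674170005917699
      [NumIs.V.of 10000 3600 6500, NumIs.V.of 10000 (-920) (-210), NumIs.V.of 10000 5000 6400, NumIs.V.of 10000 (-1230) (-150)] = true)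
    ⟨by norm_num; linarith only [h1], by norm_num; linarith only [h1]⟩ ⟨by norm_num; linarith only [h2], by norm_num; linarith only [h2]⟩
    ⟨by norm_num; linarith only [h3], by norm_num; linarith only [h3]⟩ ⟨by norm_num; linarith only [h4], by norm_num; linarith only [h4]⟩
    (by
      intro e he
      simp only [List.mem_cons, List.not_mem_nil, or_false] at he
      rcases he with rfl | rfl | rfl <;>
        (simp only [zge, zle, cge, cle, ypos, yneg, tv, E.val, NumIs.E.val, MR.tE_val, NumIs.lkR]
         norm_num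
         linarith only [h3, a1, a2]))
  rw [E.val, gwE_val] at h
  simp only [gl, tv, tK, E.val, NumIs.E.val, NumIs.lkR] at h
  push_cast at h
  linarith only [h]

end R3V

end Pool.Agent.Work.MP_b30479_gtS.G2

end

section

/-!
# Part of `R3VB`
-/
set_option linter.unusedVariables false
set_option linter.unusedTactic false
set_option linter.unreachableTactic false
set_option linter.unusedSimpArgs false
set_option linter.unnecessarySeqFocus false

set_option deprecated.oldSectionVars true

namespace Pool.Agent.Work.MP_b30479_gtS.G2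

open VOL NumUs

namespace R3V

open E

theorem d1_K {x T m k : ℝ} (h1 : 3600 / 10000 ≤ x ∧ x ≤ 6500 / 10000)
    (h2 : 210 / 10000 ≤ T ∧ T ≤ 920 / 10000) (h3 : 0 / 10000 ≤ m ∧ m ≤ 1500 / 10000)
    (h4 : -(910 / 10000) ≤ k ∧ k ≤ 490 / 10000) (a0 : T + k ≤ 111 / 1000) (a1 : -(22 / 1000) ≤ T + k) :
    -(48 / 1000 + 115 / 100 * (x - 36 / 100)) < g1 (26 / 100) T x (MR.tR 65 29 x T) m (k * (100 / 15 * m)) (lb 1 1 (26 / 100 + m) (T + (k * (100 / 15 * m))))
      (ub 1 1 (x + m) (MR.tR 65 29 x T + (k * (100 / 15 * m)))) := by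
  have h := posT (G := add (g1E 65 29 26 (tK 15) 1 1 1 1) (gl 48 1000 115 100 36 100)) (al := [emb (.sub (.add (.var 1) (.var 3)) (.q 111 1000)), emb (.sub (.q (-22) 1000) (.add (.var 1) (.var 3)))])
    (fuel := 28) (c := 70938190498771367913032817748850947575859276487546399682099241134144139394387498685119760237056)
    (x := x) (T := T) (x' := m) (t' := k)
    (by decide +kernel : chkT [add (g1E 65 29 26 (tK 15) 1 1 1 1) (gl 48 1000 115 100 36 100), emb (.sub (.add (.var 1) (.var 3)) (.q 111 1000)), emb (.sub (.q (-22) 1000) (.add (.var 1) (.var 3)))] 28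
      70938190498771367913032817748850947575859276487546399682099241134144139394387498685119760237056
      [NumIs.V.of 10000 3600 6500, NumIs.V.of 10000 210 920, NumIs.V.of 10000 0 1500, NumIs.V.of 10000 (-910) 490] = true)
    ⟨by norm_num; linarith only [h1], by norm_num; linarith only [h1]⟩ ⟨by norm_num; linarith only [h2], by norm_num; linarith only [h2]⟩
    ⟨by norm_num; linarith only [h3], by norm_num; linarith only [h3]⟩ ⟨by norm_num; linarith only [h4], by norm_num; linarith only [h4]⟩
    (by
      intro e he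
      simp only [List.mem_cons, List.not_mem_nil, or_false] at he
      rcases he with rfl | rfl <;>
        (simp only [zge, zle, cge, cle, ypos, yneg, tv, E.val, NumIs.E.val, MR.tE_val, NumIs.lkR]
         norm_num
         linarith only [a0, a1]))
  rw [E.val, g1E_val] at h
  simp only [gl, tv, tK, E.val, NumIs.E.val, NumIs.lkR] at h
  push_cast at h
  linarith only [h]

end R3V

end Pool.Agent.Work.MP_b30479_gtS.G2

end

section

/-!
# Part of `R3VB`
-/
set_option linter.unusedVariables false
set_option linter.unusedTactic false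
set_option linter.unreachableTactic false
set_option linter.unusedSimpArgs false
set_option linter.unnecessarySeqFocus false

set_option deprecated.oldSectionVars true

namespace Pool.Agent.Work.MP_b30479_gtS.G2

open VOL NumUs

namespace R3V

open E

theorem d1_11 {x T m t : ℝ} (h1 : 3600 / 10000 ≤ x ∧ x ≤ 6500 / 10000)
    (h2 : 210 / 10000 ≤ T ∧ T ≤ 920 / 10000) (h3 : 1500 / 10000 ≤ m ∧ m ≤ 5567 / 10000)
    (h4 : -(910 / 10000) ≤ t ∧ t ≤ 490 / 10000) (a0 : 26 / 100 + m ≤ 11 / 12) (a1 : x + m ≤ 11 / 12) (a2 : T + t ≤ 111 / 1000) (a3 : -(22 / 1000) ≤ T + t) :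
    -(48 / 1000 + 115 / 100 * (x - 36 / 100)) < g1 (26 / 100) T x (MR.tR 65 29 x T) m t (lb 1 1 (26 / 100 + m) (T + t))
      (ub 1 1 (x + m) (MR.tR 65 29 x T + t)) := by
  have h := posT (G := add (g1E 65 29 26 tv 1 1 1 1) (gl 48 1000 115 100 36 100)) (al := [cge 26 11 12, zge 11 12, emb (.sub (.add (.var 1) (.var 3)) (.q 111 1000)), emb (.sub (.q (-22) 1000) (.add (.var 1) (.var 3)))])
    (fuel := 28) (c := 29259321411789987688063508244926072373092014674857627759079767005222352107080702557047017585727727740420358254716611642819022388246575032761049232788892759476080098859954613357379842546305704354701059617012043556105010673097529760942955673159156870904975572234773645456901043671396143940600417163533287938)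
    (x := x) (T := T) (x' := m) (t' := t)
    (by decide +kernel : chkT [add (g1E 65 29 26 tv 1 1 1 1) (gl 48 1000 115 100 36 100), cge 26 11 12, zge 11 12, emb (.sub (.add (.var 1) (.var 3)) (.q 111 1000)), emb (.sub (.q (-22) 1000) (.add (.var 1) (.var 3)))] 28
      29259321411789987688063508244926072373092014674857627759079767005222352107080702557047017585727727740420358254716611642819022388246575032761049232788892759476080098859954613357379842546305704354701059617012043556105010673097529760942955673159156870904975572234773645456901043671396143940600417163533287938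
      [NumIs.V.of 10000 3600 6500, NumIs.V.of 10000 210 920, NumIs.V.of 10000 1500 5567, NumIs.V.of 10000 (-910) 490] = true)
    ⟨by norm_num; linarith only [h1], by norm_num; linarith only [h1]⟩ ⟨by norm_num; linarith only [h2], by norm_num; linarith only [h2]⟩
    ⟨by norm_num; linarith only [h3], by norm_num; linarith only [h3]⟩ ⟨by norm_num; linarith only [h4], by norm_num; linarith only [h4]⟩
    (by
      intro e he
      simp only [List.mem_cons, List.not_mem_nil, or_false] at he
      rcases he with rfl | rfl | rfl | rfl <;>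
        (simp only [zge, zle, cge, cle, ypos, yneg, tv, E.val, NumIs.E.val, MR.tE_val, NumIs.lkR]
         norm_num
         linarith only [h3, a1, a2, a3]))
  rw [E.val, g1E_val] at h
  simp only [gl, tv, tK, E.val, NumIs.E.val, NumIs.lkR] at h
  push_cast at h
  linarith only [h]

end R3V

end Pool.Agent.Work.MP_b30479_gtS.G2

end

section

/-!
# Value rows of the digit at `3 | 1`, its other neighbour is a `2`
-/

set_option linter.unusedVariables false
set_option linter.unusedTactic false
set_option linter.unreachableTactic false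
set_option linter.unusedSimpArgs false
set_option linter.unnecessarySeqFocus false

set_option deprecated.oldSectionVars true

namespace Pool.Agent.Work.MP_b30479_gtS.G2

open VOL NumUs

namespace R3V

open E

theorem dE_23p {x T m t : ℝ} (h1 : 3700 / 10000 ≤ x ∧ x ≤ 6500 / 10000)
    (h2 : 870 / 10000 ≤ T ∧ T ≤ 1145 / 10000) (h3 : 6566 / 10000 ≤ m ∧ m ≤ 7000 / 10000)
    (h4 : -(450 / 10000) ≤ t ∧ t ≤ 0 / 10000) (a0 : 11 / 12 ≤ 26 / 100 + m) (a1 : 26 / 100 + m ≤ 1 / 1) (a2 : 1 / 1 ≤ x + m) (a3 : x + m ≤ 13 / 12) (a4 : 0 ≤ MR.tR 65 29 x T + t) :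
    -(42 / 1000 + 14 / 10 * (x - 37 / 100)) < g1 (26 / 100) T x (MR.tR 65 29 x T) m t (lb 2 1 (26 / 100 + m) (T + t))
      (ub 3 1 (x + m) (MR.tR 65 29 x T + t)) := by
  have h := posT (G := add (g1E 65 29 26 tv 2 3 1 1) (gl 42 1000 14 10 37 100)) (al := [cle 26 11 12, cge 26 1 1, zle 1 1, zge 13 12, yneg 65 29])
    (fuel := 28) (c := 2176)
    (x := x) (T := T) (x' := m) (t' := t)
    (by decide +kernel : chkT [add (g1E 65 29 26 tv 2 3 1 1) (gl 42 1000 14 10 37 100), cle 26 11 12, cge 26 1 1, zle 1 1, zge 13 12, yneg 65 29] 28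
      2176
      [NumIs.V.of 10000 3700 6500, NumIs.V.of 10000 870 1145, NumIs.V.of 10000 6566 7000, NumIs.V.of 10000 (-450) 0] = true)
    ⟨by norm_num; linarith only [h1], by norm_num; linarith only [h1]⟩ ⟨by norm_num; linarith only [h2], by norm_num; linarith only [h2]⟩
    ⟨by norm_num; linarith only [a0], by norm_num; linarith only [h3]⟩ ⟨by norm_num; linarith only [h4], by norm_num; linarith only [h4]⟩
    (by
      intro e he
      simp only [List.mem_cons, List.not_mem_nil, or_false] at he
      rcases he with rfl | rfl | rfl | rfl | rfl <;>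
        (simp only [zge, zle, cge, cle, ypos, yneg, tv, E.val, NumIs.E.val, MR.tE_val, NumIs.lkR]
         norm_num
         linarith only [a0, h3, h1, a3, a4]))
  rw [E.val, g1E_val] at h
  simp only [gl, tv, tK, E.val, NumIs.E.val, NumIs.lkR] at h
  push_cast at h
  linarith only [h]

theorem dE_23m {x T m t : ℝ} (h1 : 3700 / 10000 ≤ x ∧ x ≤ 6500 / 10000)
    (h2 : 870 / 10000 ≤ T ∧ T ≤ 1145 / 10000) (h3 : 6566 / 10000 ≤ m ∧ m ≤ 7000 / 10000)
    (h4 : -(450 / 10000) ≤ t ∧ t ≤ 0 / 10000) (a0 : 11 / 12 ≤ 26 / 100 + m) (a1 : 26 / 100 + m ≤ 1 / 1) (a2 : 1 / 1 ≤ x + m) (a3 : x + m ≤ 13 / 12) (a4 : MR.tR 65 29 x T + t ≤ 0) :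
    -(42 / 1000 + 14 / 10 * (x - 37 / 100)) < g1 (26 / 100) T x (MR.tR 65 29 x T) m t (lb 2 1 (26 / 100 + m) (T + t))
      (ub 3 (-1) (x + m) (MR.tR 65 29 x T + t)) := by
  have h := posT (G := add (g1E 65 29 26 tv 2 3 1 (-1)) (gl 42 1000 14 10 37 100)) (al := [cle 26 11 12, cge 26 1 1, zle 1 1, zge 13 12, ypos 65 29])
    (fuel := 28) (c := 8)
    (x := x) (T := T) (x' := m) (t' := t)
    (by decide +kernel : chkT [add (g1E 65 29 26 tv 2 3 1 (-1)) (gl 42 1000 14 10 37 100), cle 26 11 12, cge 26 1 1, zle 1 1, zge 13 12, ypos 65 29] 28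
      8
      [NumIs.V.of 10000 3700 6500, NumIs.V.of 10000 870 1145, NumIs.V.of 10000 6566 7000, NumIs.V.of 10000 (-450) 0] = true)
    ⟨by norm_num; linarith only [h1], by norm_num; linarith only [h1]⟩ ⟨by norm_num; linarith only [h2], by norm_num; linarith only [h2]⟩
    ⟨by norm_num; linarith only [a0], by norm_num; linarith only [h3]⟩ ⟨by norm_num; linarith only [h4], by norm_num; linarith only [h4]⟩
    (by
      intro e he
      simp only [List.mem_cons, List.not_mem_nil, or_false] at he
      rcases he with rfl | rfl | rfl | rfl | rfl <;>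
        (simp only [zge, zle, cge, cle, ypos, yneg, tv, E.val, NumIs.E.val, MR.tE_val, NumIs.lkR]
         norm_num
         linarith only [a0, h3, h1, a3, a4]))
  rw [E.val, g1E_val] at h
  simp only [gl, tv, tK, E.val, NumIs.E.val, NumIs.lkR] at h
  push_cast at h
  linarith only [h]

theorem dE_24p {x T m t : ℝ} (h1 : 3700 / 10000 ≤ x ∧ x ≤ 6500 / 10000)
    (h2 : 870 / 10000 ≤ T ∧ T ≤ 1145 / 10000) (h3 : 6566 / 10000 ≤ m ∧ m ≤ 7000 / 10000)
    (h4 : -(450 / 10000) ≤ t ∧ t ≤ 0 / 10000) (a0 : 11 / 12 ≤ 26 / 100 + m) (a1 : 26 / 100 + m ≤ 1 / 1) (a2 : 13 / 12 ≤ x + m) (a3 : 0 ≤ MR.tR 65 29 x T + t) :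
    -(42 / 1000 + 14 / 10 * (x - 37 / 100)) < g1 (26 / 100) T x (MR.tR 65 29 x T) m t (lb 2 1 (26 / 100 + m) (T + t))
      (ub 4 1 (x + m) (MR.tR 65 29 x T + t)) := by
  have h := posT (G := add (g1E 65 29 26 tv 2 4 1 1) (gl 42 1000 14 10 37 100)) (al := [cle 26 11 12, cge 26 1 1, zle 13 12, yneg 65 29])
    (fuel := 28) (c := 36650364928)
    (x := x) (T := T) (x' := m) (t' := t)
    (by decide +kernel : chkT [add (g1E 65 29 26 tv 2 4 1 1) (gl 42 1000 14 10 37 100), cle 26 11 12, cge 26 1 1, zle 13 12, yneg 65 29] 28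
      36650364928
      [NumIs.V.of 10000 3700 6500, NumIs.V.of 10000 870 1145, NumIs.V.of 10000 6566 7000, NumIs.V.of 10000 (-450) 0] = true)
    ⟨by norm_num; linarith only [h1], by norm_num; linarith only [h1]⟩ ⟨by norm_num; linarith only [h2], by norm_num; linarith only [h2]⟩
    ⟨by norm_num; linarith only [a0], by norm_num; linarith only [h3]⟩ ⟨by norm_num; linarith only [h4], by norm_num; linarith only [h4]⟩
    (by
      intro e he
      simp only [List.mem_cons, List.not_mem_nil, or_false] at he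
      rcases he with rfl | rfl | rfl | rfl <;>
        (simp only [zge, zle, cge, cle, ypos, yneg, tv, E.val, NumIs.E.val, MR.tE_val, NumIs.lkR]
         norm_num
         linarith only [a0, h3, a2, a3]))
  rw [E.val, g1E_val] at h
  simp only [gl, tv, tK, E.val, NumIs.E.val, NumIs.lkR] at h
  push_cast at h
  linarith only [h]

theorem dE_24m {x T m t : ℝ} (h1 : 3700 / 10000 ≤ x ∧ x ≤ 6500 / 10000)
    (h2 : 870 / 10000 ≤ T ∧ T ≤ 1145 / 10000) (h3 : 6566 / 10000 ≤ m ∧ m ≤ 7000 / 10000)
    (h4 : -(450 / 10000) ≤ t ∧ t ≤ 0 / 10000) (a0 : 11 / 12 ≤ 26 / 100 + m) (a1 : 26 / 100 + m ≤ 1 / 1) (a2 : 13 / 12 ≤ x + m) (a3 : MR.tR 65 29 x T + t ≤ 0) :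
    -(42 / 1000 + 14 / 10 * (x - 37 / 100)) < g1 (26 / 100) T x (MR.tR 65 29 x T) m t (lb 2 1 (26 / 100 + m) (T + t))
      (ub 4 (-1) (x + m) (MR.tR 65 29 x T + t)) := by
  have h := posT (G := add (g1E 65 29 26 tv 2 4 1 (-1)) (gl 42 1000 14 10 37 100)) (al := [cle 26 11 12, cge 26 1 1, zle 13 12, ypos 65 29])
    (fuel := 28) (c := 560128)
    (x := x) (T := T) (x' := m) (t' := t)
    (by decide +kernel : chkT [add (g1E 65 29 26 tv 2 4 1 (-1)) (gl 42 1000 14 10 37 100), cle 26 11 12, cge 26 1 1, zle 13 12, ypos 65 29] 28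
      560128
      [NumIs.V.of 10000 3700 6500, NumIs.V.of 10000 870 1145, NumIs.V.of 10000 6566 7000, NumIs.V.of 10000 (-450) 0] = true)
    ⟨by norm_num; linarith only [h1], by norm_num; linarith only [h1]⟩ ⟨by norm_num; linarith only [h2], by norm_num; linarith only [h2]⟩
    ⟨by norm_num; linarith only [a0], by norm_num; linarith only [h3]⟩ ⟨by norm_num; linarith only [h4], by norm_num; linarith only [h4]⟩
    (by
      intro e he
      simp only [List.mem_cons, List.not_mem_nil, or_false] at he
      rcases he with rfl | rfl | rfl | rfl <;>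
        (simp only [zge, zle, cge, cle, ypos, yneg, tv, E.val, NumIs.E.val, MR.tE_val, NumIs.lkR]
         norm_num
         linarith only [a0, h3, a2, a3]))
  rw [E.val, g1E_val] at h
  simp only [gl, tv, tK, E.val, NumIs.E.val, NumIs.lkR] at h
  push_cast at h
  linarith only [h]

end R3V

end Pool.Agent.Work.MP_b30479_gtS.G2

end

section

/-!
# Part of `R3VC`
-/
set_option linter.unusedVariables false
set_option linter.unusedTactic false
set_option linter.unreachableTactic false
set_option linter.unusedSimpArgs false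
set_option linter.unnecessarySeqFocus false

set_option deprecated.oldSectionVars true

namespace Pool.Agent.Work.MP_b30479_gtS.G2

open VOL NumUs

namespace R3V

open E

theorem d2_K {x T m k : ℝ} (h1 : 3850 / 10000 ≤ x ∧ x ≤ 6500 / 10000)
    (h2 : 460 / 10000 ≤ T ∧ T ≤ 940 / 10000) (h3 : 0 / 10000 ≤ m ∧ m ≤ 1600 / 10000)
    (h4 : 100 / 10000 ≤ k ∧ k ≤ 770 / 10000) (a0 : T + k ≤ 148 / 1000) :
    -(875 / 10000 + 115 / 100 * (x - 385 / 1000)) < g1 (26 / 100) T x (MR.tR 65 29 x T) m (k * (100 / 16 * m)) (lb 1 1 (26 / 100 + m) (T + (k * (100 / 16 * m))))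
      (ub 1 1 (x + m) (MR.tR 65 29 x T + (k * (100 / 16 * m)))) := by
  have h := posT (G := add (g1E 65 29 26 (tK 16) 1 1 1 1) (gl 875 10000 115 100 385 1000)) (al := [emb (.sub (.add (.var 1) (.var 3)) (.q 148 1000))])
    (fuel := 28) (c := 71003960687956945230842775777577748281022092260920225723665762079124125860153047455247622471712)
    (x := x) (T := T) (x' := m) (t' := k)
    (by decide +kernel : chkT [add (g1E 65 29 26 (tK 16) 1 1 1 1) (gl 875 10000 115 100 385 1000), emb (.sub (.add (.var 1) (.var 3)) (.q 148 1000))] 28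
      71003960687956945230842775777577748281022092260920225723665762079124125860153047455247622471712
      [NumIs.V.of 10000 3850 6500, NumIs.V.of 10000 460 940, NumIs.V.of 10000 0 1600, NumIs.V.of 10000 100 770] = true)
    ⟨by norm_num; linarith only [h1], by norm_num; linarith only [h1]⟩ ⟨by norm_num; linarith only [h2], by norm_num; linarith only [h2]⟩
    ⟨by norm_num; linarith only [h3], by norm_num; linarith only [h3]⟩ ⟨by norm_num; linarith only [h4], by norm_num; linarith only [h4]⟩
    (by
      intro e he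
      simp only [List.mem_cons, List.not_mem_nil, or_false] at he
      rcases he with rfl <;>
        (simp only [zge, zle, cge, cle, ypos, yneg, tv, E.val, NumIs.E.val, MR.tE_val, NumIs.lkR]
         norm_num
         linarith only [a0]))
  rw [E.val, g1E_val] at h
  simp only [gl, tv, tK, E.val, NumIs.E.val, NumIs.lkR] at h
  push_cast at h
  linarith only [h]

theorem d2_11 {x T m t : ℝ} (h1 : 3850 / 10000 ≤ x ∧ x ≤ 6500 / 10000)
    (h2 : 460 / 10000 ≤ T ∧ T ≤ 940 / 10000) (h3 : 1600 / 10000 ≤ m ∧ m ≤ 5317 / 10000)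
    (h4 : 0 / 10000 ≤ t ∧ t ≤ 770 / 10000) (a0 : 26 / 100 + m ≤ 11 / 12) (a1 : x + m ≤ 11 / 12) (a2 : T + t ≤ 148 / 1000) :
    -(875 / 10000 + 115 / 100 * (x - 385 / 1000)) < g1 (26 / 100) T x (MR.tR 65 29 x T) m t (lb 1 1 (26 / 100 + m) (T + t))
      (ub 1 1 (x + m) (MR.tR 65 29 x T + t)) := by
  have h := posT (G := add (g1E 65 29 26 tv 1 1 1 1) (gl 875 10000 115 100 385 1000)) (al := [cge 26 11 12, zge 11 12, emb (.sub (.add (.var 1) (.var 3)) (.q 148 1000))])
    (fuel := 28) (c := 58833410443509660795079691109774115873293432889582560851945563153057896291632763123451367920635099080045634963521439103171142846928262962093958593915045904136446587653106027223419747522930158950682003117464438822666754)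
    (x := x) (T := T) (x' := m) (t' := t)
    (by decide +kernel : chkT [add (g1E 65 29 26 tv 1 1 1 1) (gl 875 10000 115 100 385 1000), cge 26 11 12, zge 11 12, emb (.sub (.add (.var 1) (.var 3)) (.q 148 1000))] 28
      58833410443509660795079691109774115873293432889582560851945563153057896291632763123451367920635099080045634963521439103171142846928262962093958593915045904136446587653106027223419747522930158950682003117464438822666754
      [NumIs.V.of 10000 3850 6500, NumIs.V.of 10000 460 940, NumIs.V.of 10000 1600 5317, NumIs.V.of 10000 0 770] = true)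
    ⟨by norm_num; linarith only [h1], by norm_num; linarith only [h1]⟩ ⟨by norm_num; linarith only [h2], by norm_num; linarith only [h2]⟩
    ⟨by norm_num; linarith only [h3], by norm_num; linarith only [h3]⟩ ⟨by norm_num; linarith only [h4], by norm_num; linarith only [h4]⟩
    (by
      intro e he
      simp only [List.mem_cons, List.not_mem_nil, or_false] at he
      rcases he with rfl | rfl | rfl <;>
        (simp only [zge, zle, cge, cle, ypos, yneg, tv, E.val, NumIs.E.val, MR.tE_val, NumIs.lkR]
         norm_num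
         linarith only [h3, a1, a2]))
  rw [E.val, g1E_val] at h
  simp only [gl, tv, tK, E.val, NumIs.E.val, NumIs.lkR] at h
  push_cast at h
  linarith only [h]

end R3V

end Pool.Agent.Work.MP_b30479_gtS.G2

end

section

/-!
# Part of `R3VC`
-/
set_option linter.unusedVariables false
set_option linter.unusedTactic false
set_option linter.unreachableTactic false
set_option linter.unusedSimpArgs false
set_option linter.unnecessarySeqFocus false

set_option deprecated.oldSectionVars true

namespace Pool.Agent.Work.MP_b30479_gtS.G2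

open VOL NumUs

namespace R3V

open E

theorem d2_24 {x T m t : ℝ} (h1 : 3850 / 10000 ≤ x ∧ x ≤ 6500 / 10000)
    (h2 : 460 / 10000 ≤ T ∧ T ≤ 940 / 10000) (h3 : 6566 / 10000 ≤ m ∧ m ≤ 7400 / 10000)
    (h4 : 0 / 10000 ≤ t ∧ t ≤ 770 / 10000) (a0 : 11 / 12 ≤ 26 / 100 + m) (a1 : 26 / 100 + m ≤ 1 / 1) (a2 : 13 / 12 ≤ x + m) (a3 : T + t ≤ 148 / 1000) :
    -(875 / 10000 + 115 / 100 * (x - 385 / 1000)) < g1 (26 / 100) T x (MR.tR 65 29 x T) m t (lb 2 1 (26 / 100 + m) (T + t))
      (ub 4 1 (x + m) (MR.tR 65 29 x T + t)) := by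
  have h := posT (G := add (g1E 65 29 26 tv 2 4 1 1) (gl 875 10000 115 100 385 1000)) (al := [cle 26 11 12, cge 26 1 1, zle 13 12, emb (.sub (.add (.var 1) (.var 3)) (.q 148 1000))])
    (fuel := 28) (c := 9382498807808)
    (x := x) (T := T) (x' := m) (t' := t)
    (by decide +kernel : chkT [add (g1E 65 29 26 tv 2 4 1 1) (gl 875 10000 115 100 385 1000), cle 26 11 12, cge 26 1 1, zle 13 12, emb (.sub (.add (.var 1) (.var 3)) (.q 148 1000))] 28
      9382498807808
      [NumIs.V.of 10000 3850 6500, NumIs.V.of 10000 460 940, NumIs.V.of 10000 6566 7400, NumIs.V.of 10000 0 770] = true)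
    ⟨by norm_num; linarith only [h1], by norm_num; linarith only [h1]⟩ ⟨by norm_num; linarith only [h2], by norm_num; linarith only [h2]⟩
    ⟨by norm_num; linarith only [a0], by norm_num; linarith only [h3]⟩ ⟨by norm_num; linarith only [h4], by norm_num; linarith only [h4]⟩
    (by
      intro e he
      simp only [List.mem_cons, List.not_mem_nil, or_false] at he
      rcases he with rfl | rfl | rfl | rfl <;>
        (simp only [zge, zle, cge, cle, ypos, yneg, tv, E.val, NumIs.E.val, MR.tE_val, NumIs.lkR]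
         norm_num
         linarith only [a0, h3, a2, a3]))
  rw [E.val, g1E_val] at h
  simp only [gl, tv, tK, E.val, NumIs.E.val, NumIs.lkR] at h
  push_cast at h
  linarith only [h]

theorem d2_34 {x T m t : ℝ} (h1 : 3850 / 10000 ≤ x ∧ x ≤ 6500 / 10000)
    (h2 : 460 / 10000 ≤ T ∧ T ≤ 940 / 10000) (h3 : 7400 / 10000 ≤ m ∧ m ≤ 8000 / 10000)
    (h4 : 0 / 10000 ≤ t ∧ t ≤ 770 / 10000) (a0 : 1 / 1 ≤ 26 / 100 + m) (a1 : 26 / 100 + m ≤ 13 / 12) (a2 : 13 / 12 ≤ x + m) (a3 : T + t ≤ 148 / 1000) :
    -(875 / 10000 + 115 / 100 * (x - 385 / 1000)) < g1 (26 / 100) T x (MR.tR 65 29 x T) m t (lb 3 1 (26 / 100 + m) (T + t))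
      (ub 4 1 (x + m) (MR.tR 65 29 x T + t)) := by
  have h := posT (G := add (g1E 65 29 26 tv 3 4 1 1) (gl 875 10000 115 100 385 1000)) (al := [cle 26 1 1, cge 26 13 12, zle 13 12, emb (.sub (.add (.var 1) (.var 3)) (.q 148 1000))])
    (fuel := 28) (c := 143164160)
    (x := x) (T := T) (x' := m) (t' := t)
    (by decide +kernel : chkT [add (g1E 65 29 26 tv 3 4 1 1) (gl 875 10000 115 100 385 1000), cle 26 1 1, cge 26 13 12, zle 13 12, emb (.sub (.add (.var 1) (.var 3)) (.q 148 1000))] 28
      143164160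
      [NumIs.V.of 10000 3850 6500, NumIs.V.of 10000 460 940, NumIs.V.of 10000 7400 8000, NumIs.V.of 10000 0 770] = true)
    ⟨by norm_num; linarith only [h1], by norm_num; linarith only [h1]⟩ ⟨by norm_num; linarith only [h2], by norm_num; linarith only [h2]⟩
    ⟨by norm_num; linarith only [h3], by norm_num; linarith only [h3]⟩ ⟨by norm_num; linarith only [h4], by norm_num; linarith only [h4]⟩
    (by
      intro e he
      simp only [List.mem_cons, List.not_mem_nil, or_false] at he
      rcases he with rfl | rfl | rfl | rfl <;>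
        (simp only [zge, zle, cge, cle, ypos, yneg, tv, E.val, NumIs.E.val, MR.tE_val, NumIs.lkR]
         norm_num
         linarith only [h3, h1, a3]))
  rw [E.val, g1E_val] at h
  simp only [gl, tv, tK, E.val, NumIs.E.val, NumIs.lkR] at h
  push_cast at h
  linarith only [h]

theorem dE_11 {x T m t : ℝ} (h1 : 3700 / 10000 ≤ x ∧ x ≤ 6500 / 10000)
    (h2 : 870 / 10000 ≤ T ∧ T ≤ 1145 / 10000) (h3 : 0 / 10000 ≤ m ∧ m ≤ 5467 / 10000)
    (h4 : -(450 / 10000) ≤ t ∧ t ≤ 0 / 10000) (a0 : 26 / 100 + m ≤ 11 / 12) (a1 : x + m ≤ 11 / 12) :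
    -(42 / 1000 + 14 / 10 * (x - 37 / 100)) < g1 (26 / 100) T x (MR.tR 65 29 x T) m t (lb 1 1 (26 / 100 + m) (T + t))
      (ub 1 1 (x + m) (MR.tR 65 29 x T + t)) := by
  have h := posT (G := add (g1E 65 29 26 tv 1 1 1 1) (gl 42 1000 14 10 37 100)) (al := [cge 26 11 12, zge 11 12])
    (fuel := 28) (c := 97850318347180200460020979806084064435967955836681371879117546001686758415479351409024806966235737035375106)
    (x := x) (T := T) (x' := m) (t' := t)
    (by decide +kernel : chkT [add (g1E 65 29 26 tv 1 1 1 1) (gl 42 1000 14 10 37 100), cge 26 11 12, zge 11 12] 28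
      97850318347180200460020979806084064435967955836681371879117546001686758415479351409024806966235737035375106
      [NumIs.V.of 10000 3700 6500, NumIs.V.of 10000 870 1145, NumIs.V.of 10000 0 5467, NumIs.V.of 10000 (-450) 0] = true)
    ⟨by norm_num; linarith only [h1], by norm_num; linarith only [h1]⟩ ⟨by norm_num; linarith only [h2], by norm_num; linarith only [h2]⟩
    ⟨by norm_num; linarith only [h3], by norm_num; linarith only [h3]⟩ ⟨by norm_num; linarith only [h4], by norm_num; linarith only [h4]⟩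
    (by
      intro e he
      simp only [List.mem_cons, List.not_mem_nil, or_false] at he
      rcases he with rfl | rfl <;>
        (simp only [zge, zle, cge, cle, ypos, yneg, tv, E.val, NumIs.E.val, MR.tE_val, NumIs.lkR]
         norm_num
         linarith only [h3, a1]))
  rw [E.val, g1E_val] at h
  simp only [gl, tv, tK, E.val, NumIs.E.val, NumIs.lkR] at h
  push_cast at h
  linarith only [h]

theorem dE_12 {x T m t : ℝ} (h1 : 3700 / 10000 ≤ x ∧ x ≤ 6500 / 10000)
    (h2 : 870 / 10000 ≤ T ∧ T ≤ 1145 / 10000) (h3 : 2666 / 10000 ≤ m ∧ m ≤ 6300 / 10000)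
    (h4 : -(450 / 10000) ≤ t ∧ t ≤ 0 / 10000) (a0 : 26 / 100 + m ≤ 11 / 12) (a1 : 11 / 12 ≤ x + m) (a2 : x + m ≤ 1 / 1) :
    -(42 / 1000 + 14 / 10 * (x - 37 / 100)) < g1 (26 / 100) T x (MR.tR 65 29 x T) m t (lb 1 1 (26 / 100 + m) (T + t))
      (ub 2 1 (x + m) (MR.tR 65 29 x T + t)) := by
  have h := posT (G := add (g1E 65 29 26 tv 1 2 1 1) (gl 42 1000 14 10 37 100)) (al := [cge 26 11 12, zle 11 12, zge 1 1])
    (fuel := 28) (c := 614884287937945602)
    (x := x) (T := T) (x' := m) (t' := t)
    (by decide +kernel : chkT [add (g1E 65 29 26 tv 1 2 1 1) (gl 42 1000 14 10 37 100), cge 26 11 12, zle 11 12, zge 1 1] 28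
      614884287937945602
      [NumIs.V.of 10000 3700 6500, NumIs.V.of 10000 870 1145, NumIs.V.of 10000 2666 6300, NumIs.V.of 10000 (-450) 0] = true)
    ⟨by norm_num; linarith only [h1], by norm_num; linarith only [h1]⟩ ⟨by norm_num; linarith only [h2], by norm_num; linarith only [h2]⟩
    ⟨by norm_num; linarith only [h1, a1], by norm_num; linarith only [h3]⟩ ⟨by norm_num; linarith only [h4], by norm_num; linarith only [h4]⟩
    (by
      intro e he
      simp only [List.mem_cons, List.not_mem_nil, or_false] at he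
      rcases he with rfl | rfl | rfl <;>
        (simp only [zge, zle, cge, cle, ypos, yneg, tv, E.val, NumIs.E.val, MR.tE_val, NumIs.lkR]
         norm_num
         linarith only [h3, a1, a2]))
  rw [E.val, g1E_val] at h
  simp only [gl, tv, tK, E.val, NumIs.E.val, NumIs.lkR] at h
  push_cast at h
  linarith only [h]

end R3V

end Pool.Agent.Work.MP_b30479_gtS.G2

end
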