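import Pool.Agent.Work.MP_b30479_gt.TBS.G2.TRa

section

/-!
# Part of `R3VA`
-/
set_option linter.unusedVariables false
set_option linter.unusedTactic false
set_option linter.unreachableTactic false
set_option linter.unusedSimpArgs false
set_option linter.unnecessarySeqFocus false

set_option deprecated.oldSectionVars true

namespace Pool.Agent.Work.MP_b30479_gtS.G2

open VOL NumUs

namespace R3V

open E

theorem o2_13 {x T m t : ℝ} (h1 : 3850 / 10000 ≤ x ∧ x ≤ 6500 / 10000)
    (h2 : -(940 / 10000) ≤ T ∧ T ≤ -(460 / 10000)) (h3 : 5000 / 10000 ≤ m ∧ m ≤ 6567 / 10000)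
    (h4 : -(1230 / 10000) ≤ t ∧ t ≤ -(150 / 10000)) (a0 : 26 / 100 + m ≤ 11 / 12) (a1 : 1 / 1 ≤ x + m) (a2 : x + m ≤ 13 / 12) :
    875 / 10000 + 115 / 100 * (x - 385 / 1000) < gw (26 / 100) T x (MR.tR 65 29 x T) m t (lb 1 (-1) (26 / 100 + m) (T + t))
      (ub 3 (-1) (x + m) (MR.tR 65 29 x T + t)) := by
  have h := posT (G := sub (gwE 65 29 26 tv 1 3 (-1) (-1)) (gl 875 10000 115 100 385 1000)) (al := [cge 26 11 12, zle 1 1, zge 13 12])
    (fuel := 26) (c := 208661898378967430319896593634304752019446656812401758211)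
    (x := x) (T := T) (x' := m) (t' := t)
    (by decide +kernel : chkT [sub (gwE 65 29 26 tv 1 3 (-1) (-1)) (gl 875 10000 115 100 385 1000), cge 26 11 12, zle 1 1, zge 13 12] 26
      208661898378967430319896593634304752019446656812401758211
      [NumIs.V.of 10000 3850 6500, NumIs.V.of 10000 (-940) (-460), NumIs.V.of 10000 5000 6567, NumIs.V.of 10000 (-1230) (-150)] = true)
    ⟨by norm_num; linarith only [h1], by norm_num; linarith only [h1]⟩ ⟨by norm_num; linarith only [h2], by norm_num; linarith only [h2]⟩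
    ⟨by norm_num; linarith only [h3], by norm_num; linarith only [h3]⟩ ⟨by norm_num; linarith only [h4], by norm_num; linarith only [h4]⟩
    (by
      intro e he
      simp only [List.mem_cons, List.not_mem_nil, or_false] at he
      rcases he with rfl | rfl | rfl <;>
        (simp only [zge, zle, cge, cle, ypos, yneg, tv, E.val, NumIs.E.val, MR.tE_val, NumIs.lkR]
         norm_num
         linarith only [a0, a1, a2]))
  rw [E.val, gwE_val] at h
  simp only [gl, tv, tK, E.val, NumIs.E.val, NumIs.lkR] at h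
  push_cast at h
  linarith only [h]

theorem o2_14 {x T m t : ℝ} (h1 : 3850 / 10000 ≤ x ∧ x ≤ 6500 / 10000)
    (h2 : -(940 / 10000) ≤ T ∧ T ≤ -(460 / 10000)) (h3 : 5000 / 10000 ≤ m ∧ m ≤ 6567 / 10000)
    (h4 : -(1230 / 10000) ≤ t ∧ t ≤ -(150 / 10000)) (a0 : 26 / 100 + m ≤ 11 / 12) (a1 : 13 / 12 ≤ x + m) :
    875 / 10000 + 115 / 100 * (x - 385 / 1000) < gw (26 / 100) T x (MR.tR 65 29 x T) m t (lb 1 (-1) (26 / 100 + m) (T + t))
      (ub 4 (-1) (x + m) (MR.tR 65 29 x T + t)) := by
  have h := posT (G := sub (gwE 65 29 26 tv 1 4 (-1) (-1)) (gl 875 10000 115 100 385 1000)) (al := [cge 26 11 12, zle 13 12])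
    (fuel := 26) (c := 209203799775451615253624819506510361923619086464964534304)
    (x := x) (T := T) (x' := m) (t' := t)
    (by decide +kernel : chkT [sub (gwE 65 29 26 tv 1 4 (-1) (-1)) (gl 875 10000 115 100 385 1000), cge 26 11 12, zle 13 12] 26
      209203799775451615253624819506510361923619086464964534304
      [NumIs.V.of 10000 3850 6500, NumIs.V.of 10000 (-940) (-460), NumIs.V.of 10000 5000 6567, NumIs.V.of 10000 (-1230) (-150)] = true)
    ⟨by norm_num; linarith only [h1], by norm_num; linarith only [h1]⟩ ⟨by norm_num; linarith only [h2], by norm_num; linarith only [h2]⟩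
    ⟨by norm_num; linarith only [h3], by norm_num; linarith only [h3]⟩ ⟨by norm_num; linarith only [h4], by norm_num; linarith only [h4]⟩
    (by
      intro e he
      simp only [List.mem_cons, List.not_mem_nil, or_false] at he
      rcases he with rfl | rfl <;>
        (simp only [zge, zle, cge, cle, ypos, yneg, tv, E.val, NumIs.E.val, MR.tE_val, NumIs.lkR]
         norm_num
         linarith only [a0, a1]))
  rw [E.val, gwE_val] at h
  simp only [gl, tv, tK, E.val, NumIs.E.val, NumIs.lkR] at h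
  push_cast at h
  linarith only [h]

theorem o2_23 {x T m t : ℝ} (h1 : 3850 / 10000 ≤ x ∧ x ≤ 6500 / 10000)
    (h2 : -(940 / 10000) ≤ T ∧ T ≤ -(460 / 10000)) (h3 : 6566 / 10000 ≤ m ∧ m ≤ 6984 / 10000)
    (h4 : -(1230 / 10000) ≤ t ∧ t ≤ -(150 / 10000)) (a0 : 11 / 12 ≤ 26 / 100 + m) (a1 : 26 / 100 + m ≤ 1 / 1) (a2 : 1 / 1 ≤ x + m) (a3 : x + m ≤ 13 / 12) :
    875 / 10000 + 115 / 100 * (x - 385 / 1000) < gw (26 / 100) T x (MR.tR 65 29 x T) m t (lb 2 (-1) (26 / 100 + m) (T + t))
      (ub 3 (-1) (x + m) (MR.tR 65 29 x T + t)) := by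
  have h := posT (G := sub (gwE 65 29 26 tv 2 3 (-1) (-1)) (gl 875 10000 115 100 385 1000)) (al := [cle 26 11 12, cge 26 1 1, zle 1 1, zge 13 12])
    (fuel := 26) (c := 4349916955981757934267512033046671982640)
    (x := x) (T := T) (x' := m) (t' := t)
    (by decide +kernel : chkT [sub (gwE 65 29 26 tv 2 3 (-1) (-1)) (gl 875 10000 115 100 385 1000), cle 26 11 12, cge 26 1 1, zle 1 1, zge 13 12] 26
      4349916955981757934267512033046671982640
      [NumIs.V.of 10000 3850 6500, NumIs.V.of 10000 (-940) (-460), NumIs.V.of 10000 6566 6984, NumIs.V.of 10000 (-1230) (-150)] = true)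
    ⟨by norm_num; linarith only [h1], by norm_num; linarith only [h1]⟩ ⟨by norm_num; linarith only [h2], by norm_num; linarith only [h2]⟩
    ⟨by norm_num; linarith only [a0], by norm_num; linarith only [h3]⟩ ⟨by norm_num; linarith only [h4], by norm_num; linarith only [h4]⟩
    (by
      intro e he
      simp only [List.mem_cons, List.not_mem_nil, or_false] at he
      rcases he with rfl | rfl | rfl | rfl <;>
        (simp only [zge, zle, cge, cle, ypos, yneg, tv, E.val, NumIs.E.val, MR.tE_val, NumIs.lkR]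
         norm_num
         linarith only [a0, h3, h1, a3]))
  rw [E.val, gwE_val] at h
  simp only [gl, tv, tK, E.val, NumIs.E.val, NumIs.lkR] at h
  push_cast at h
  linarith only [h]

theorem o2_24 {x T m t : ℝ} (h1 : 3850 / 10000 ≤ x ∧ x ≤ 6500 / 10000)
    (h2 : -(940 / 10000) ≤ T ∧ T ≤ -(460 / 10000)) (h3 : 6566 / 10000 ≤ m ∧ m ≤ 7400 / 10000)
    (h4 : -(1230 / 10000) ≤ t ∧ t ≤ -(150 / 10000)) (a0 : 11 / 12 ≤ 26 / 100 + m) (a1 : 26 / 100 + m ≤ 1 / 1) (a2 : 13 / 12 ≤ x + m) :
    875 / 10000 + 115 / 100 * (x - 385 / 1000) < gw (26 / 100) T x (MR.tR 65 29 x T) m t (lb 2 (-1) (26 / 100 + m) (T + t))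
      (ub 4 (-1) (x + m) (MR.tR 65 29 x T + t)) := by
  have h := posT (G := sub (gwE 65 29 26 tv 2 4 (-1) (-1)) (gl 875 10000 115 100 385 1000)) (al := [cle 26 11 12, cge 26 1 1, zle 13 12])
    (fuel := 26) (c := 48705135203965106710240175692540362763251286784)
    (x := x) (T := T) (x' := m) (t' := t)
    (by decide +kernel : chkT [sub (gwE 65 29 26 tv 2 4 (-1) (-1)) (gl 875 10000 115 100 385 1000), cle 26 11 12, cge 26 1 1, zle 13 12] 26
      48705135203965106710240175692540362763251286784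
      [NumIs.V.of 10000 3850 6500, NumIs.V.of 10000 (-940) (-460), NumIs.V.of 10000 6566 7400, NumIs.V.of 10000 (-1230) (-150)] = true)
    ⟨by norm_num; linarith only [h1], by norm_num; linarith only [h1]⟩ ⟨by norm_num; linarith only [h2], by norm_num; linarith only [h2]⟩
    ⟨by norm_num; linarith only [a0], by norm_num; linarith only [h3]⟩ ⟨by norm_num; linarith only [h4], by norm_num; linarith only [h4]⟩
    (by
      intro e he
      simp only [List.mem_cons, List.not_mem_nil, or_false] at he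
      rcases he with rfl | rfl | rfl <;>
        (simp only [zge, zle, cge, cle, ypos, yneg, tv, E.val, NumIs.E.val, MR.tE_val, NumIs.lkR]
         norm_num
         linarith only [a0, h3, a2]))
  rw [E.val, gwE_val] at h
  simp only [gl, tv, tK, E.val, NumIs.E.val, NumIs.lkR] at h
  push_cast at h
  linarith only [h]

theorem o2_34 {x T m t : ℝ} (h1 : 3850 / 10000 ≤ x ∧ x ≤ 6500 / 10000)
    (h2 : -(940 / 10000) ≤ T ∧ T ≤ -(460 / 10000)) (h3 : 7400 / 10000 ≤ m ∧ m ≤ 7500 / 10000)
    (h4 : -(1230 / 10000) ≤ t ∧ t ≤ -(150 / 10000)) (a0 : 1 / 1 ≤ 26 / 100 + m) (a1 : 13 / 12 ≤ x + m) :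
    875 / 10000 + 115 / 100 * (x - 385 / 1000) < gw (26 / 100) T x (MR.tR 65 29 x T) m t (lb 3 (-1) (26 / 100 + m) (T + t))
      (ub 4 (-1) (x + m) (MR.tR 65 29 x T + t)) := by
  have h := posT (G := sub (gwE 65 29 26 tv 3 4 (-1) (-1)) (gl 875 10000 115 100 385 1000)) (al := [cle 26 1 1, zle 13 12])
    (fuel := 26) (c := 2634894111613600232010420272)
    (x := x) (T := T) (x' := m) (t' := t)
    (by decide +kernel : chkT [sub (gwE 65 29 26 tv 3 4 (-1) (-1)) (gl 875 10000 115 100 385 1000), cle 26 1 1, zle 13 12] 26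
      2634894111613600232010420272
      [NumIs.V.of 10000 3850 6500, NumIs.V.of 10000 (-940) (-460), NumIs.V.of 10000 7400 7500, NumIs.V.of 10000 (-1230) (-150)] = true)
    ⟨by norm_num; linarith only [h1], by norm_num; linarith only [h1]⟩ ⟨by norm_num; linarith only [h2], by norm_num; linarith only [h2]⟩
    ⟨by norm_num; linarith only [h3], by norm_num; linarith only [h3]⟩ ⟨by norm_num; linarith only [h4], by norm_num; linarith only [h4]⟩
    (by
      intro e he
      simp only [List.mem_cons, List.not_mem_nil, or_false] at he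
      rcases he with rfl | rfl <;>
        (simp only [zge, zle, cge, cle, ypos, yneg, tv, E.val, NumIs.E.val, MR.tE_val, NumIs.lkR]
         norm_num
         linarith only [h3, h1]))
  rw [E.val, gwE_val] at h
  simp only [gl, tv, tK, E.val, NumIs.E.val, NumIs.lkR] at h
  push_cast at h
  linarith only [h]

end R3V

end Pool.Agent.Work.MP_b30479_gtS.G2

end

section

/-!
# Part of `R3VA`
-/
set_option linter.unusedVariables false
set_option linter.unusedTactic false
set_option linter.unreachableTactic false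
set_option linter.unusedSimpArgs false
set_option linter.unnecessarySeqFocus false

set_option deprecated.oldSectionVars true

namespace Pool.Agent.Work.MP_b30479_gtS.G2

open VOL NumUs

namespace R3V

open E

theorem o2_34r {x T m t : ℝ} (h1 : 3850 / 10000 ≤ x ∧ x ≤ 6500 / 10000)
    (h2 : -(940 / 10000) ≤ T ∧ T ≤ -(460 / 10000)) (h3 : 7500 / 10000 ≤ m ∧ m ≤ 8000 / 10000)
    (h4 : -(1230 / 10000) ≤ t ∧ t ≤ 0 / 10000) (a0 : 1 / 1 ≤ 26 / 100 + m) (a1 : 13 / 12 ≤ x + m) (a2 : t + 3 / 10 * (8 / 10 - m) ≤ 0) :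
    875 / 10000 + 115 / 100 * (x - 385 / 1000) < gw (26 / 100) T x (MR.tR 65 29 x T) m t (lb 3 (-1) (26 / 100 + m) (T + t))
      (ub 4 (-1) (x + m) (MR.tR 65 29 x T + t)) := by
  have h := posT (G := sub (gwE 65 29 26 tv 3 4 (-1) (-1)) (gl 875 10000 115 100 385 1000)) (al := [cle 26 1 1, zle 13 12, emb (.add (.var 3) (.mul (.q 3 10) (.sub (.q 8 10) (.var 2))))])
    (fuel := 26) (c := 740635223763363200462575013319832989925424)
    (x := x) (T := T) (x' := m) (t' := t)
    (by decide +kernel : chkT [sub (gwE 65 29 26 tv 3 4 (-1) (-1)) (gl 875 10000 115 100 385 1000), cle 26 1 1, zle 13 12, emb (.add (.var 3) (.mul (.q 3 10) (.sub (.q 8 10) (.var 2))))] 26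
      740635223763363200462575013319832989925424
      [NumIs.V.of 10000 3850 6500, NumIs.V.of 10000 (-940) (-460), NumIs.V.of 10000 7500 8000, NumIs.V.of 10000 (-1230) 0] = true)
    ⟨by norm_num; linarith only [h1], by norm_num; linarith only [h1]⟩ ⟨by norm_num; linarith only [h2], by norm_num; linarith only [h2]⟩
    ⟨by norm_num; linarith only [h3], by norm_num; linarith only [h3]⟩ ⟨by norm_num; linarith only [h4], by norm_num; linarith only [h4]⟩
    (by
      intro e he
      simp only [List.mem_cons, List.not_mem_nil, or_false] at he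
      rcases he with rfl | rfl | rfl <;>
        (simp only [zge, zle, cge, cle, ypos, yneg, tv, E.val, NumIs.E.val, MR.tE_val, NumIs.lkR]
         norm_num
         linarith only [h3, h1, a2]))
  rw [E.val, gwE_val] at h
  simp only [gl, tv, tK, E.val, NumIs.E.val, NumIs.lkR] at h
  push_cast at h
  linarith only [h]

theorem oE_11 {x T m t : ℝ} (h1 : 3700 / 10000 ≤ x ∧ x ≤ 6500 / 10000)
    (h2 : -(1145 / 10000) ≤ T ∧ T ≤ -(870 / 10000)) (h3 : 5000 / 10000 ≤ m ∧ m ≤ 5467 / 10000)
    (h4 : -(1230 / 10000) ≤ t ∧ t ≤ -(150 / 10000)) (a0 : 26 / 100 + m ≤ 11 / 12) (a1 : x + m ≤ 11 / 12) :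
    42 / 1000 + 14 / 10 * (x - 37 / 100) < gw (26 / 100) T x (MR.tR 65 29 x T) m t (lb 1 (-1) (26 / 100 + m) (T + t))
      (ub 1 (-1) (x + m) (MR.tR 65 29 x T + t)) := by
  have h := posT (G := sub (gwE 65 29 26 tv 1 1 (-1) (-1)) (gl 42 1000 14 10 37 100)) (al := [cge 26 11 12, zge 11 12])
    (fuel := 26) (c := 12885041766629599866990592)
    (x := x) (T := T) (x' := m) (t' := t)
    (by decide +kernel : chkT [sub (gwE 65 29 26 tv 1 1 (-1) (-1)) (gl 42 1000 14 10 37 100), cge 26 11 12, zge 11 12] 26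
      12885041766629599866990592
      [NumIs.V.of 10000 3700 6500, NumIs.V.of 10000 (-1145) (-870), NumIs.V.of 10000 5000 5467, NumIs.V.of 10000 (-1230) (-150)] = true)
    ⟨by norm_num; linarith only [h1], by norm_num; linarith only [h1]⟩ ⟨by norm_num; linarith only [h2], by norm_num; linarith only [h2]⟩
    ⟨by norm_num; linarith only [h3], by norm_num; linarith only [h3]⟩ ⟨by norm_num; linarith only [h4], by norm_num; linarith only [h4]⟩
    (by
      intro e he
      simp only [List.mem_cons, List.not_mem_nil, or_false] at he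
      rcases he with rfl | rfl <;>
        (simp only [zge, zle, cge, cle, ypos, yneg, tv, E.val, NumIs.E.val, MR.tE_val, NumIs.lkR]
         norm_num
         linarith only [h3, a1]))
  rw [E.val, gwE_val] at h
  simp only [gl, tv, tK, E.val, NumIs.E.val, NumIs.lkR] at h
  push_cast at h
  linarith only [h]

theorem oE_12 {x T m t : ℝ} (h1 : 3700 / 10000 ≤ x ∧ x ≤ 6500 / 10000)
    (h2 : -(1145 / 10000) ≤ T ∧ T ≤ -(870 / 10000)) (h3 : 5000 / 10000 ≤ m ∧ m ≤ 6300 / 10000)
    (h4 : -(1230 / 10000) ≤ t ∧ t ≤ -(150 / 10000)) (a0 : 26 / 100 + m ≤ 11 / 12) (a1 : 11 / 12 ≤ x + m) (a2 : x + m ≤ 1 / 1) :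
    42 / 1000 + 14 / 10 * (x - 37 / 100) < gw (26 / 100) T x (MR.tR 65 29 x T) m t (lb 1 (-1) (26 / 100 + m) (T + t))
      (ub 2 (-1) (x + m) (MR.tR 65 29 x T + t)) := by
  have h := posT (G := sub (gwE 65 29 26 tv 1 2 (-1) (-1)) (gl 42 1000 14 10 37 100)) (al := [cge 26 11 12, zle 11 12, zge 1 1])
    (fuel := 26) (c := 3987894440214343444916602962812868886576)
    (x := x) (T := T) (x' := m) (t' := t)
    (by decide +kernel : chkT [sub (gwE 65 29 26 tv 1 2 (-1) (-1)) (gl 42 1000 14 10 37 100), cge 26 11 12, zle 11 12, zge 1 1] 26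
      3987894440214343444916602962812868886576
      [NumIs.V.of 10000 3700 6500, NumIs.V.of 10000 (-1145) (-870), NumIs.V.of 10000 5000 6300, NumIs.V.of 10000 (-1230) (-150)] = true)
    ⟨by norm_num; linarith only [h1], by norm_num; linarith only [h1]⟩ ⟨by norm_num; linarith only [h2], by norm_num; linarith only [h2]⟩
    ⟨by norm_num; linarith only [h3], by norm_num; linarith only [h3]⟩ ⟨by norm_num; linarith only [h4], by norm_num; linarith only [h4]⟩
    (by
      intro e he
      simp only [List.mem_cons, List.not_mem_nil, or_false] at he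
      rcases he with rfl | rfl | rfl <;>
        (simp only [zge, zle, cge, cle, ypos, yneg, tv, E.val, NumIs.E.val, MR.tE_val, NumIs.lkR]
         norm_num
         linarith only [h3, a1, a2]))
  rw [E.val, gwE_val] at h
  simp only [gl, tv, tK, E.val, NumIs.E.val, NumIs.lkR] at h
  push_cast at h
  linarith only [h]

theorem oE_13 {x T m t : ℝ} (h1 : 3700 / 10000 ≤ x ∧ x ≤ 6500 / 10000)
    (h2 : -(1145 / 10000) ≤ T ∧ T ≤ -(870 / 10000)) (h3 : 5000 / 10000 ≤ m ∧ m ≤ 6567 / 10000)
    (h4 : -(1230 / 10000) ≤ t ∧ t ≤ -(150 / 10000)) (a0 : 26 / 100 + m ≤ 11 / 12) (a1 : 1 / 1 ≤ x + m) (a2 : x + m ≤ 13 / 12) :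
    42 / 1000 + 14 / 10 * (x - 37 / 100) < gw (26 / 100) T x (MR.tR 65 29 x T) m t (lb 1 (-1) (26 / 100 + m) (T + t))
      (ub 3 (-1) (x + m) (MR.tR 65 29 x T + t)) := by
  have h := posT (G := sub (gwE 65 29 26 tv 1 3 (-1) (-1)) (gl 42 1000 14 10 37 100)) (al := [cge 26 11 12, zle 1 1, zge 13 12])
    (fuel := 26) (c := 189776841855932905281884960939111148578549808)
    (x := x) (T := T) (x' := m) (t' := t)
    (by decide +kernel : chkT [sub (gwE 65 29 26 tv 1 3 (-1) (-1)) (gl 42 1000 14 10 37 100), cge 26 11 12, zle 1 1, zge 13 12] 26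
      189776841855932905281884960939111148578549808
      [NumIs.V.of 10000 3700 6500, NumIs.V.of 10000 (-1145) (-870), NumIs.V.of 10000 5000 6567, NumIs.V.of 10000 (-1230) (-150)] = true)
    ⟨by norm_num; linarith only [h1], by norm_num; linarith only [h1]⟩ ⟨by norm_num; linarith only [h2], by norm_num; linarith only [h2]⟩
    ⟨by norm_num; linarith only [h3], by norm_num; linarith only [h3]⟩ ⟨by norm_num; linarith only [h4], by norm_num; linarith only [h4]⟩
    (by
      intro e he
      simp only [List.mem_cons, List.not_mem_nil, or_false] at he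
      rcases he with rfl | rfl | rfl <;>
        (simp only [zge, zle, cge, cle, ypos, yneg, tv, E.val, NumIs.E.val, MR.tE_val, NumIs.lkR]
         norm_num
         linarith only [a0, a1, a2]))
  rw [E.val, gwE_val] at h
  simp only [gl, tv, tK, E.val, NumIs.E.val, NumIs.lkR] at h
  push_cast at h
  linarith only [h]

theorem oE_14 {x T m t : ℝ} (h1 : 3700 / 10000 ≤ x ∧ x ≤ 6500 / 10000)
    (h2 : -(1145 / 10000) ≤ T ∧ T ≤ -(870 / 10000)) (h3 : 5000 / 10000 ≤ m ∧ m ≤ 6567 / 10000)
    (h4 : -(1230 / 10000) ≤ t ∧ t ≤ -(150 / 10000)) (a0 : 26 / 100 + m ≤ 11 / 12) (a1 : 13 / 12 ≤ x + m) :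
    42 / 1000 + 14 / 10 * (x - 37 / 100) < gw (26 / 100) T x (MR.tR 65 29 x T) m t (lb 1 (-1) (26 / 100 + m) (T + t))
      (ub 4 (-1) (x + m) (MR.tR 65 29 x T + t)) := by
  have h := posT (G := sub (gwE 65 29 26 tv 1 4 (-1) (-1)) (gl 42 1000 14 10 37 100)) (al := [cge 26 11 12, zle 13 12])
    (fuel := 26) (c := 3192196651847241877920772024520108495094907932942368)
    (x := x) (T := T) (x' := m) (t' := t)
    (by decide +kernel : chkT [sub (gwE 65 29 26 tv 1 4 (-1) (-1)) (gl 42 1000 14 10 37 100), cge 26 11 12, zle 13 12] 26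
      3192196651847241877920772024520108495094907932942368
      [NumIs.V.of 10000 3700 6500, NumIs.V.of 10000 (-1145) (-870), NumIs.V.of 10000 5000 6567, NumIs.V.of 10000 (-1230) (-150)] = true)
    ⟨by norm_num; linarith only [h1], by norm_num; linarith only [h1]⟩ ⟨by norm_num; linarith only [h2], by norm_num; linarith only [h2]⟩
    ⟨by norm_num; linarith only [h3], by norm_num; linarith only [h3]⟩ ⟨by norm_num; linarith only [h4], by norm_num; linarith only [h4]⟩
    (by
      intro e he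
      simp only [List.mem_cons, List.not_mem_nil, or_false] at he
      rcases he with rfl | rfl <;>
        (simp only [zge, zle, cge, cle, ypos, yneg, tv, E.val, NumIs.E.val, MR.tE_val, NumIs.lkR]
         norm_num
         linarith only [a0, a1]))
  rw [E.val, gwE_val] at h
  simp only [gl, tv, tK, E.val, NumIs.E.val, NumIs.lkR] at h
  push_cast at h
  linarith only [h]

end R3V

end Pool.Agent.Work.MP_b30479_gtS.G2

end

section

/-!
# Part of `R3VB`
-/
set_option linter.unusedVariables false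
set_option linter.unusedTactic false
set_option linter.unreachableTactic false
set_option linter.unusedSimpArgs false
set_option linter.unnecessarySeqFocus false

set_option deprecated.oldSectionVars true

namespace Pool.Agent.Work.MP_b30479_gtS.G2

open VOL NumUs

namespace R3V

open E

theorem d1_14p {x T m t : ℝ} (h1 : 3600 / 10000 ≤ x ∧ x ≤ 6500 / 10000)
    (h2 : 210 / 10000 ≤ T ∧ T ≤ 920 / 10000) (h3 : 4333 / 10000 ≤ m ∧ m ≤ 6567 / 10000)
    (h4 : -(910 / 10000) ≤ t ∧ t ≤ 490 / 10000) (a0 : 26 / 100 + m ≤ 11 / 12) (a1 : 13 / 12 ≤ x + m) (a2 : 0 ≤ MR.tR 65 29 x T + t) (a3 : T + t ≤ 111 / 1000) (a4 : -(22 / 1000) ≤ T + t) :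
    -(48 / 1000 + 115 / 100 * (x - 36 / 100)) < g1 (26 / 100) T x (MR.tR 65 29 x T) m t (lb 1 1 (26 / 100 + m) (T + t))
      (ub 4 1 (x + m) (MR.tR 65 29 x T + t)) := by
  have h := posT (G := add (g1E 65 29 26 tv 1 4 1 1) (gl 48 1000 115 100 36 100)) (al := [cge 26 11 12, zle 13 12, yneg 65 29, emb (.sub (.add (.var 1) (.var 3)) (.q 111 1000)), emb (.sub (.q (-22) 1000) (.add (.var 1) (.var 3)))])
    (fuel := 28) (c := 15076949200566435699080961106813474549272697455891758310629263891130092064)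
    (x := x) (T := T) (x' := m) (t' := t)
    (by decide +kernel : chkT [add (g1E 65 29 26 tv 1 4 1 1) (gl 48 1000 115 100 36 100), cge 26 11 12, zle 13 12, yneg 65 29, emb (.sub (.add (.var 1) (.var 3)) (.q 111 1000)), emb (.sub (.q (-22) 1000) (.add (.var 1) (.var 3)))] 28
      15076949200566435699080961106813474549272697455891758310629263891130092064
      [NumIs.V.of 10000 3600 6500, NumIs.V.of 10000 210 920, NumIs.V.of 10000 4333 6567, NumIs.V.of 10000 (-910) 490] = true)
    ⟨by norm_num; linarith only [h1], by norm_num; linarith only [h1]⟩ ⟨by norm_num; linarith only [h2], by norm_num; linarith only [h2]⟩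
    ⟨by norm_num; linarith only [h1, a1], by norm_num; linarith only [h3]⟩ ⟨by norm_num; linarith only [h4], by norm_num; linarith only [h4]⟩
    (by
      intro e he
      simp only [List.mem_cons, List.not_mem_nil, or_false] at he
      rcases he with rfl | rfl | rfl | rfl | rfl <;>
        (simp only [zge, zle, cge, cle, ypos, yneg, tv, E.val, NumIs.E.val, MR.tE_val, NumIs.lkR]
         norm_num
         linarith only [a0, a1, a2, a3, a4]))
  rw [E.val, g1E_val] at h
  simp only [gl, tv, tK, E.val, NumIs.E.val, NumIs.lkR] at h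
  push_cast at h
  linarith only [h]

theorem d1_14m {x T m t : ℝ} (h1 : 3600 / 10000 ≤ x ∧ x ≤ 6500 / 10000)
    (h2 : 210 / 10000 ≤ T ∧ T ≤ 920 / 10000) (h3 : 4333 / 10000 ≤ m ∧ m ≤ 6567 / 10000)
    (h4 : -(910 / 10000) ≤ t ∧ t ≤ 490 / 10000) (a0 : 26 / 100 + m ≤ 11 / 12) (a1 : 13 / 12 ≤ x + m) (a2 : MR.tR 65 29 x T + t ≤ 0) (a3 : T + t ≤ 111 / 1000) (a4 : -(22 / 1000) ≤ T + t) :
    -(48 / 1000 + 115 / 100 * (x - 36 / 100)) < g1 (26 / 100) T x (MR.tR 65 29 x T) m t (lb 1 1 (26 / 100 + m) (T + t))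
      (ub 4 (-1) (x + m) (MR.tR 65 29 x T + t)) := by
  have h := posT (G := add (g1E 65 29 26 tv 1 4 1 (-1)) (gl 48 1000 115 100 36 100)) (al := [cge 26 11 12, zle 13 12, ypos 65 29, emb (.sub (.add (.var 1) (.var 3)) (.q 111 1000)), emb (.sub (.q (-22) 1000) (.add (.var 1) (.var 3)))])
    (fuel := 28) (c := 898656201396372061913030324581489152674243962102906827801528240672)
    (x := x) (T := T) (x' := m) (t' := t)
    (by decide +kernel : chkT [add (g1E 65 29 26 tv 1 4 1 (-1)) (gl 48 1000 115 100 36 100), cge 26 11 12, zle 13 12, ypos 65 29, emb (.sub (.add (.var 1) (.var 3)) (.q 111 1000)), emb (.sub (.q (-22) 1000) (.add (.var 1) (.var 3)))] 28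
      898656201396372061913030324581489152674243962102906827801528240672
      [NumIs.V.of 10000 3600 6500, NumIs.V.of 10000 210 920, NumIs.V.of 10000 4333 6567, NumIs.V.of 10000 (-910) 490] = true)
    ⟨by norm_num; linarith only [h1], by norm_num; linarith only [h1]⟩ ⟨by norm_num; linarith only [h2], by norm_num; linarith only [h2]⟩
    ⟨by norm_num; linarith only [h1, a1], by norm_num; linarith only [h3]⟩ ⟨by norm_num; linarith only [h4], by norm_num; linarith only [h4]⟩
    (by
      intro e he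
      simp only [List.mem_cons, List.not_mem_nil, or_false] at he
      rcases he with rfl | rfl | rfl | rfl | rfl <;>
        (simp only [zge, zle, cge, cle, ypos, yneg, tv, E.val, NumIs.E.val, MR.tE_val, NumIs.lkR]
         norm_num
         linarith only [a0, a1, a2, a3, a4]))
  rw [E.val, g1E_val] at h
  simp only [gl, tv, tK, E.val, NumIs.E.val, NumIs.lkR] at h
  push_cast at h
  linarith only [h]

theorem d1_23p {x T m t : ℝ} (h1 : 3600 / 10000 ≤ x ∧ x ≤ 6500 / 10000)
    (h2 : 210 / 10000 ≤ T ∧ T ≤ 920 / 10000) (h3 : 6566 / 10000 ≤ m ∧ m ≤ 7234 / 10000)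
    (h4 : -(910 / 10000) ≤ t ∧ t ≤ 490 / 10000) (a0 : 11 / 12 ≤ 26 / 100 + m) (a1 : 26 / 100 + m ≤ 1 / 1) (a2 : 1 / 1 ≤ x + m) (a3 : x + m ≤ 13 / 12) (a4 : 0 ≤ MR.tR 65 29 x T + t) (a5 : T + t ≤ 111 / 1000) (a6 : -(22 / 1000) ≤ T + t) :
    -(48 / 1000 + 115 / 100 * (x - 36 / 100)) < g1 (26 / 100) T x (MR.tR 65 29 x T) m t (lb 2 1 (26 / 100 + m) (T + t))
      (ub 3 1 (x + m) (MR.tR 65 29 x T + t)) := by
  have h := posT (G := add (g1E 65 29 26 tv 2 3 1 1) (gl 48 1000 115 100 36 100)) (al := [cle 26 11 12, cge 26 1 1, zle 1 1, zge 13 12, yneg 65 29, emb (.sub (.add (.var 1) (.var 3)) (.q 111 1000)), emb (.sub (.q (-22) 1000) (.add (.var 1) (.var 3)))])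
    (fuel := 28) (c := 614882640684154883)
    (x := x) (T := T) (x' := m) (t' := t)
    (by decide +kernel : chkT [add (g1E 65 29 26 tv 2 3 1 1) (gl 48 1000 115 100 36 100), cle 26 11 12, cge 26 1 1, zle 1 1, zge 13 12, yneg 65 29, emb (.sub (.add (.var 1) (.var 3)) (.q 111 1000)), emb (.sub (.q (-22) 1000) (.add (.var 1) (.var 3)))] 28
      614882640684154883
      [NumIs.V.of 10000 3600 6500, NumIs.V.of 10000 210 920, NumIs.V.of 10000 6566 7234, NumIs.V.of 10000 (-910) 490] = true)
    ⟨by norm_num; linarith only [h1], by norm_num; linarith only [h1]⟩ ⟨by norm_num; linarith only [h2], by norm_num; linarith only [h2]⟩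
    ⟨by norm_num; linarith only [a0], by norm_num; linarith only [h3]⟩ ⟨by norm_num; linarith only [h4], by norm_num; linarith only [h4]⟩
    (by
      intro e he
      simp only [List.mem_cons, List.not_mem_nil, or_false] at he
      rcases he with rfl | rfl | rfl | rfl | rfl | rfl | rfl <;>
        (simp only [zge, zle, cge, cle, ypos, yneg, tv, E.val, NumIs.E.val, MR.tE_val, NumIs.lkR]
         norm_num
         linarith only [a0, h3, h1, a3, a4, a5, a6]))
  rw [E.val, g1E_val] at h
  simp only [gl, tv, tK, E.val, NumIs.E.val, NumIs.lkR] at h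
  push_cast at h
  linarith only [h]

end R3V

end Pool.Agent.Work.MP_b30479_gtS.G2

end

section

/-!
# Part of `R3VC`
-/
set_option linter.unusedVariables false
set_option linter.unusedTactic false
set_option linter.unreachableTactic false
set_option linter.unusedSimpArgs false
set_option linter.unnecessarySeqFocus false

set_option deprecated.oldSectionVars true

namespace Pool.Agent.Work.MP_b30479_gtS.G2

open VOL NumUs

namespace R3V

open E

theorem dE_13p {x T m t : ℝ} (h1 : 3700 / 10000 ≤ x ∧ x ≤ 6500 / 10000)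
    (h2 : 870 / 10000 ≤ T ∧ T ≤ 1145 / 10000) (h3 : 3500 / 10000 ≤ m ∧ m ≤ 6567 / 10000)
    (h4 : -(450 / 10000) ≤ t ∧ t ≤ 0 / 10000) (a0 : 26 / 100 + m ≤ 11 / 12) (a1 : 1 / 1 ≤ x + m) (a2 : x + m ≤ 13 / 12) (a3 : 0 ≤ MR.tR 65 29 x T + t) :
    -(42 / 1000 + 14 / 10 * (x - 37 / 100)) < g1 (26 / 100) T x (MR.tR 65 29 x T) m t (lb 1 1 (26 / 100 + m) (T + t))
      (ub 3 1 (x + m) (MR.tR 65 29 x T + t)) := by
  have h := posT (G := add (g1E 65 29 26 tv 1 3 1 1) (gl 42 1000 14 10 37 100)) (al := [cge 26 11 12, zle 1 1, zge 13 12, yneg 65 29])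
    (fuel := 28) (c := 9380754399746)
    (x := x) (T := T) (x' := m) (t' := t)
    (by decide +kernel : chkT [add (g1E 65 29 26 tv 1 3 1 1) (gl 42 1000 14 10 37 100), cge 26 11 12, zle 1 1, zge 13 12, yneg 65 29] 28
      9380754399746
      [NumIs.V.of 10000 3700 6500, NumIs.V.of 10000 870 1145, NumIs.V.of 10000 3500 6567, NumIs.V.of 10000 (-450) 0] = true)
    ⟨by norm_num; linarith only [h1], by norm_num; linarith only [h1]⟩ ⟨by norm_num; linarith only [h2], by norm_num; linarith only [h2]⟩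
    ⟨by norm_num; linarith only [h3], by norm_num; linarith only [h3]⟩ ⟨by norm_num; linarith only [h4], by norm_num; linarith only [h4]⟩
    (by
      intro e he
      simp only [List.mem_cons, List.not_mem_nil, or_false] at he
      rcases he with rfl | rfl | rfl | rfl <;>
        (simp only [zge, zle, cge, cle, ypos, yneg, tv, E.val, NumIs.E.val, MR.tE_val, NumIs.lkR]
         norm_num
         linarith only [a0, a1, a2, a3]))
  rw [E.val, g1E_val] at h
  simp only [gl, tv, tK, E.val, NumIs.E.val, NumIs.lkR] at h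
  push_cast at h
  linarith only [h]

theorem dE_13m {x T m t : ℝ} (h1 : 3700 / 10000 ≤ x ∧ x ≤ 6500 / 10000)
    (h2 : 870 / 10000 ≤ T ∧ T ≤ 1145 / 10000) (h3 : 3500 / 10000 ≤ m ∧ m ≤ 6567 / 10000)
    (h4 : -(450 / 10000) ≤ t ∧ t ≤ 0 / 10000) (a0 : 26 / 100 + m ≤ 11 / 12) (a1 : 1 / 1 ≤ x + m) (a2 : x + m ≤ 13 / 12) (a3 : MR.tR 65 29 x T + t ≤ 0) :
    -(42 / 1000 + 14 / 10 * (x - 37 / 100)) < g1 (26 / 100) T x (MR.tR 65 29 x T) m t (lb 1 1 (26 / 100 + m) (T + t))
      (ub 3 (-1) (x + m) (MR.tR 65 29 x T + t)) := by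
  have h := posT (G := add (g1E 65 29 26 tv 1 3 1 (-1)) (gl 42 1000 14 10 37 100)) (al := [cge 26 11 12, zle 1 1, zge 13 12, ypos 65 29])
    (fuel := 28) (c := 2178)
    (x := x) (T := T) (x' := m) (t' := t)
    (by decide +kernel : chkT [add (g1E 65 29 26 tv 1 3 1 (-1)) (gl 42 1000 14 10 37 100), cge 26 11 12, zle 1 1, zge 13 12, ypos 65 29] 28
      2178
      [NumIs.V.of 10000 3700 6500, NumIs.V.of 10000 870 1145, NumIs.V.of 10000 3500 6567, NumIs.V.of 10000 (-450) 0] = true)
    ⟨by norm_num; linarith only [h1], by norm_num; linarith only [h1]⟩ ⟨by norm_num; linarith only [h2], by norm_num; linarith only [h2]⟩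
    ⟨by norm_num; linarith only [h3], by norm_num; linarith only [h3]⟩ ⟨by norm_num; linarith only [h4], by norm_num; linarith only [h4]⟩
    (by
      intro e he
      simp only [List.mem_cons, List.not_mem_nil, or_false] at he
      rcases he with rfl | rfl | rfl | rfl <;>
        (simp only [zge, zle, cge, cle, ypos, yneg, tv, E.val, NumIs.E.val, MR.tE_val, NumIs.lkR]
         norm_num
         linarith only [a0, a1, a2, a3]))
  rw [E.val, g1E_val] at h
  simp only [gl, tv, tK, E.val, NumIs.E.val, NumIs.lkR] at h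
  push_cast at h
  linarith only [h]

theorem dE_14p {x T m t : ℝ} (h1 : 3700 / 10000 ≤ x ∧ x ≤ 6500 / 10000)
    (h2 : 870 / 10000 ≤ T ∧ T ≤ 1145 / 10000) (h3 : 4333 / 10000 ≤ m ∧ m ≤ 6567 / 10000)
    (h4 : -(450 / 10000) ≤ t ∧ t ≤ 0 / 10000) (a0 : 26 / 100 + m ≤ 11 / 12) (a1 : 13 / 12 ≤ x + m) (a2 : 0 ≤ MR.tR 65 29 x T + t) :
    -(42 / 1000 + 14 / 10 * (x - 37 / 100)) < g1 (26 / 100) T x (MR.tR 65 29 x T) m t (lb 1 1 (26 / 100 + m) (T + t))
      (ub 4 1 (x + m) (MR.tR 65 29 x T + t)) := by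
  have h := posT (G := add (g1E 65 29 26 tv 1 4 1 1) (gl 42 1000 14 10 37 100)) (al := [cge 26 11 12, zle 13 12, yneg 65 29])
    (fuel := 28) (c := 189602796189850702095540864361357583050738208)
    (x := x) (T := T) (x' := m) (t' := t)
    (by decide +kernel : chkT [add (g1E 65 29 26 tv 1 4 1 1) (gl 42 1000 14 10 37 100), cge 26 11 12, zle 13 12, yneg 65 29] 28
      189602796189850702095540864361357583050738208
      [NumIs.V.of 10000 3700 6500, NumIs.V.of 10000 870 1145, NumIs.V.of 10000 4333 6567, NumIs.V.of 10000 (-450) 0] = true)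
    ⟨by norm_num; linarith only [h1], by norm_num; linarith only [h1]⟩ ⟨by norm_num; linarith only [h2], by norm_num; linarith only [h2]⟩
    ⟨by norm_num; linarith only [h1, a1], by norm_num; linarith only [h3]⟩ ⟨by norm_num; linarith only [h4], by norm_num; linarith only [h4]⟩
    (by
      intro e he
      simp only [List.mem_cons, List.not_mem_nil, or_false] at he
      rcases he with rfl | rfl | rfl <;>
        (simp only [zge, zle, cge, cle, ypos, yneg, tv, E.val, NumIs.E.val, MR.tE_val, NumIs.lkR]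
         norm_num
         linarith only [a0, a1, a2]))
  rw [E.val, g1E_val] at h
  simp only [gl, tv, tK, E.val, NumIs.E.val, NumIs.lkR] at h
  push_cast at h
  linarith only [h]

theorem dE_14m {x T m t : ℝ} (h1 : 3700 / 10000 ≤ x ∧ x ≤ 6500 / 10000)
    (h2 : 870 / 10000 ≤ T ∧ T ≤ 1145 / 10000) (h3 : 4333 / 10000 ≤ m ∧ m ≤ 6567 / 10000)
    (h4 : -(450 / 10000) ≤ t ∧ t ≤ 0 / 10000) (a0 : 26 / 100 + m ≤ 11 / 12) (a1 : 13 / 12 ≤ x + m) (a2 : MR.tR 65 29 x T + t ≤ 0) :
    -(42 / 1000 + 14 / 10 * (x - 37 / 100)) < g1 (26 / 100) T x (MR.tR 65 29 x T) m t (lb 1 1 (26 / 100 + m) (T + t))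
      (ub 4 (-1) (x + m) (MR.tR 65 29 x T + t)) := by
  have h := posT (G := add (g1E 65 29 26 tv 1 4 1 (-1)) (gl 42 1000 14 10 37 100)) (al := [cge 26 11 12, zle 13 12, ypos 65 29])
    (fuel := 28) (c := 11301207315316838150950721762261404192)
    (x := x) (T := T) (x' := m) (t' := t)
    (by decide +kernel : chkT [add (g1E 65 29 26 tv 1 4 1 (-1)) (gl 42 1000 14 10 37 100), cge 26 11 12, zle 13 12, ypos 65 29] 28
      11301207315316838150950721762261404192
      [NumIs.V.of 10000 3700 6500, NumIs.V.of 10000 870 1145, NumIs.V.of 10000 4333 6567, NumIs.V.of 10000 (-450) 0] = true)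
    ⟨by norm_num; linarith only [h1], by norm_num; linarith only [h1]⟩ ⟨by norm_num; linarith only [h2], by norm_num; linarith only [h2]⟩
    ⟨by norm_num; linarith only [h1, a1], by norm_num; linarith only [h3]⟩ ⟨by norm_num; linarith only [h4], by norm_num; linarith only [h4]⟩
    (by
      intro e he
      simp only [List.mem_cons, List.not_mem_nil, or_false] at he
      rcases he with rfl | rfl | rfl <;>
        (simp only [zge, zle, cge, cle, ypos, yneg, tv, E.val, NumIs.E.val, MR.tE_val, NumIs.lkR]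
         norm_num
         linarith only [a0, a1, a2]))
  rw [E.val, g1E_val] at h
  simp only [gl, tv, tK, E.val, NumIs.E.val, NumIs.lkR] at h
  push_cast at h
  linarith only [h]

end R3V

end Pool.Agent.Work.MP_b30479_gtS.G2

end
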