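import Pool.Agent.Work.MP_b30479_gt.TBS.G2.TRa

section

/-!
# Value rows of the own side at `3 | 1`
-/

set_option linter.unusedVariables false
set_option linter.unusedTactic false
set_option linter.unreachableTactic false
set_option linter.unusedSimpArgs false
set_option linter.unnecessarySeqFocus false

set_option deprecated.oldSectionVars true

namespace Pool.Agent.Work.MP_b30479_gtS.G2

open VOL NumUs

namespace R3V

open E

theorem oE_23 {x T m t : ℝ} (h1 : 3700 / 10000 ≤ x ∧ x ≤ 6500 / 10000)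
    (h2 : -(1145 / 10000) ≤ T ∧ T ≤ -(870 / 10000)) (h3 : 6566 / 10000 ≤ m ∧ m ≤ 7134 / 10000)
    (h4 : -(1230 / 10000) ≤ t ∧ t ≤ -(150 / 10000)) (a0 : 11 / 12 ≤ 26 / 100 + m) (a1 : 26 / 100 + m ≤ 1 / 1) (a2 : 1 / 1 ≤ x + m) (a3 : x + m ≤ 13 / 12) :
    42 / 1000 + 14 / 10 * (x - 37 / 100) < gw (26 / 100) T x (MR.tR 65 29 x T) m t (lb 2 (-1) (26 / 100 + m) (T + t))
      (ub 3 (-1) (x + m) (MR.tR 65 29 x T + t)) := by
  have h := posT (G := sub (gwE 65 29 26 tv 2 3 (-1) (-1)) (gl 42 1000 14 10 37 100)) (al := [cle 26 11 12, cge 26 1 1, zle 1 1, zge 13 12])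
    (fuel := 26) (c := 921135797107884800)
    (x := x) (T := T) (x' := m) (t' := t)
    (by decide +kernel : chkT [sub (gwE 65 29 26 tv 2 3 (-1) (-1)) (gl 42 1000 14 10 37 100), cle 26 11 12, cge 26 1 1, zle 1 1, zge 13 12] 26
      921135797107884800
      [NumIs.V.of 10000 3700 6500, NumIs.V.of 10000 (-1145) (-870), NumIs.V.of 10000 6566 7134, NumIs.V.of 10000 (-1230) (-150)] = true)
    ⟨by norm_num; linarith only [h1], by norm_num; linarith only [h1]⟩ ⟨by norm_num; linarith only [h2], by norm_num; linarith only [h2]⟩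
    ⟨by norm_num; linarith only [a0], by norm_num; linarith only [h3]⟩ ⟨by norm_num; linarith only [h4], by norm_num; linarith only [h4]⟩
    (by
      intro e he
      simp only [List.mem_cons, List.not_mem_nil, or_false] at he
      rcases he with rfl | rfl | rfl | rfl <;>
        (simp only [zge, zle, cge, cle, ypos, yneg, tv, E.val, NumIs.E.val, MR.tE_val, NumIs.lkR]
         norm_num
         linarith only [a0, h3, h1, a3]))
  rw [E.val, gwE_val] at h
  simp only [gl, tv, tK, E.val, NumIs.E.val, NumIs.lkR] at h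
  push_cast at h
  linarith only [h]

theorem oE_24 {x T m t : ℝ} (h1 : 3700 / 10000 ≤ x ∧ x ≤ 6500 / 10000)
    (h2 : -(1145 / 10000) ≤ T ∧ T ≤ -(870 / 10000)) (h3 : 6566 / 10000 ≤ m ∧ m ≤ 7400 / 10000)
    (h4 : -(1230 / 10000) ≤ t ∧ t ≤ -(150 / 10000)) (a0 : 11 / 12 ≤ 26 / 100 + m) (a1 : 26 / 100 + m ≤ 1 / 1) (a2 : 13 / 12 ≤ x + m) :
    42 / 1000 + 14 / 10 * (x - 37 / 100) < gw (26 / 100) T x (MR.tR 65 29 x T) m t (lb 2 (-1) (26 / 100 + m) (T + t))
      (ub 4 (-1) (x + m) (MR.tR 65 29 x T + t)) := by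
  have h := posT (G := sub (gwE 65 29 26 tv 2 4 (-1) (-1)) (gl 42 1000 14 10 37 100)) (al := [cle 26 11 12, cge 26 1 1, zle 13 12])
    (fuel := 26) (c := 2631265868177513265524507392)
    (x := x) (T := T) (x' := m) (t' := t)
    (by decide +kernel : chkT [sub (gwE 65 29 26 tv 2 4 (-1) (-1)) (gl 42 1000 14 10 37 100), cle 26 11 12, cge 26 1 1, zle 13 12] 26
      2631265868177513265524507392
      [NumIs.V.of 10000 3700 6500, NumIs.V.of 10000 (-1145) (-870), NumIs.V.of 10000 6566 7400, NumIs.V.of 10000 (-1230) (-150)] = true)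
    ⟨by norm_num; linarith only [h1], by norm_num; linarith only [h1]⟩ ⟨by norm_num; linarith only [h2], by norm_num; linarith only [h2]⟩
    ⟨by norm_num; linarith only [a0], by norm_num; linarith only [h3]⟩ ⟨by norm_num; linarith only [h4], by norm_num; linarith only [h4]⟩
    (by
      intro e he
      simp only [List.mem_cons, List.not_mem_nil, or_false] at he
      rcases he with rfl | rfl | rfl <;>
        (simp only [zge, zle, cge, cle, ypos, yneg, tv, E.val, NumIs.E.val, MR.tE_val, NumIs.lkR]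
         norm_num
         linarith only [a0, h3, a2]))
  rw [E.val, gwE_val] at h
  simp only [gl, tv, tK, E.val, NumIs.E.val, NumIs.lkR] at h
  push_cast at h
  linarith only [h]

theorem oE_34 {x T m t : ℝ} (h1 : 3700 / 10000 ≤ x ∧ x ≤ 6500 / 10000)
    (h2 : -(1145 / 10000) ≤ T ∧ T ≤ -(870 / 10000)) (h3 : 7400 / 10000 ≤ m ∧ m ≤ 7500 / 10000)
    (h4 : -(1230 / 10000) ≤ t ∧ t ≤ -(150 / 10000)) (a0 : 1 / 1 ≤ 26 / 100 + m) (a1 : 13 / 12 ≤ x + m) :
    42 / 1000 + 14 / 10 * (x - 37 / 100) < gw (26 / 100) T x (MR.tR 65 29 x T) m t (lb 3 (-1) (26 / 100 + m) (T + t))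
      (ub 4 (-1) (x + m) (MR.tR 65 29 x T + t)) := by
  have h := posT (G := sub (gwE 65 29 26 tv 3 4 (-1) (-1)) (gl 42 1000 14 10 37 100)) (al := [cle 26 1 1, zle 13 12])
    (fuel := 26) (c := 2401576069628672)
    (x := x) (T := T) (x' := m) (t' := t)
    (by decide +kernel : chkT [sub (gwE 65 29 26 tv 3 4 (-1) (-1)) (gl 42 1000 14 10 37 100), cle 26 1 1, zle 13 12] 26
      2401576069628672
      [NumIs.V.of 10000 3700 6500, NumIs.V.of 10000 (-1145) (-870), NumIs.V.of 10000 7400 7500, NumIs.V.of 10000 (-1230) (-150)] = true)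
    ⟨by norm_num; linarith only [h1], by norm_num; linarith only [h1]⟩ ⟨by norm_num; linarith only [h2], by norm_num; linarith only [h2]⟩
    ⟨by norm_num; linarith only [h3], by norm_num; linarith only [h3]⟩ ⟨by norm_num; linarith only [h4], by norm_num; linarith only [h4]⟩
    (by
      intro e he
      simp only [List.mem_cons, List.not_mem_nil, or_false] at he
      rcases he with rfl | rfl <;>
        (simp only [zge, zle, cge, cle, ypos, yneg, tv, E.val, NumIs.E.val, MR.tE_val, NumIs.lkR]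
         norm_num
         linarith only [h3, h1]))
  rw [E.val, gwE_val] at h
  simp only [gl, tv, tK, E.val, NumIs.E.val, NumIs.lkR] at h
  push_cast at h
  linarith only [h]

theorem oE_34r {x T m t : ℝ} (h1 : 3700 / 10000 ≤ x ∧ x ≤ 6500 / 10000)
    (h2 : -(1145 / 10000) ≤ T ∧ T ≤ -(870 / 10000)) (h3 : 7500 / 10000 ≤ m ∧ m ≤ 8000 / 10000)
    (h4 : -(1230 / 10000) ≤ t ∧ t ≤ 0 / 10000) (a0 : 1 / 1 ≤ 26 / 100 + m) (a1 : 13 / 12 ≤ x + m) (a2 : t + 3 / 10 * (8 / 10 - m) ≤ 0) :
    42 / 1000 + 14 / 10 * (x - 37 / 100) < gw (26 / 100) T x (MR.tR 65 29 x T) m t (lb 3 (-1) (26 / 100 + m) (T + t))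
      (ub 4 (-1) (x + m) (MR.tR 65 29 x T + t)) := by
  have h := posT (G := sub (gwE 65 29 26 tv 3 4 (-1) (-1)) (gl 42 1000 14 10 37 100)) (al := [cle 26 1 1, zle 13 12, emb (.add (.var 3) (.mul (.q 3 10) (.sub (.q 8 10) (.var 2))))])
    (fuel := 26) (c := 40205271081742997062400)
    (x := x) (T := T) (x' := m) (t' := t)
    (by decide +kernel : chkT [sub (gwE 65 29 26 tv 3 4 (-1) (-1)) (gl 42 1000 14 10 37 100), cle 26 1 1, zle 13 12, emb (.add (.var 3) (.mul (.q 3 10) (.sub (.q 8 10) (.var 2))))] 26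
      40205271081742997062400
      [NumIs.V.of 10000 3700 6500, NumIs.V.of 10000 (-1145) (-870), NumIs.V.of 10000 7500 8000, NumIs.V.of 10000 (-1230) 0] = true)
    ⟨by norm_num; linarith only [h1], by norm_num; linarith only [h1]⟩ ⟨by norm_num; linarith only [h2], by norm_num; linarith only [h2]⟩
    ⟨by norm_num; linarith only [h3], by norm_num; linarith only [h3]⟩ ⟨by norm_num; linarith only [h4], by norm_num; linarith only [h4]⟩
    (by
      intro e he
      simp only [List.mem_cons, List.not_mem_nil, or_false] at he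
      rcases he with rfl | rfl | rfl <;>
        (simp only [zge, zle, cge, cle, ypos, yneg, tv, E.val, NumIs.E.val, MR.tE_val, NumIs.lkR]
         norm_num
         linarith only [h3, h1, a2]))
  rw [E.val, gwE_val] at h
  simp only [gl, tv, tK, E.val, NumIs.E.val, NumIs.lkR] at h
  push_cast at h
  linarith only [h]

end R3V

end Pool.Agent.Work.MP_b30479_gtS.G2

end

section

/-!
# Part of `R3VA`
-/
set_option linter.unusedVariables false
set_option linter.unusedTactic false
set_option linter.unreachableTactic false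
set_option linter.unusedSimpArgs false
set_option linter.unnecessarySeqFocus false

set_option deprecated.oldSectionVars true

namespace Pool.Agent.Work.MP_b30479_gtS.G2

open VOL NumUs

namespace R3V

open E

theorem o1_34 {x T m t : ℝ} (h1 : 3600 / 10000 ≤ x ∧ x ≤ 6500 / 10000)
    (h2 : -(920 / 10000) ≤ T ∧ T ≤ -(210 / 10000)) (h3 : 7400 / 10000 ≤ m ∧ m ≤ 7500 / 10000)
    (h4 : -(1230 / 10000) ≤ t ∧ t ≤ -(150 / 10000)) (a0 : 1 / 1 ≤ 26 / 100 + m) (a1 : 13 / 12 ≤ x + m) :
    48 / 1000 + 115 / 100 * (x - 36 / 100) < gw (26 / 100) T x (MR.tR 65 29 x T) m t (lb 3 (-1) (26 / 100 + m) (T + t))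
      (ub 4 (-1) (x + m) (MR.tR 65 29 x T + t)) := by
  have h := posT (G := sub (gwE 65 29 26 tv 3 4 (-1) (-1)) (gl 48 1000 115 100 36 100)) (al := [cle 26 1 1, zle 13 12])
    (fuel := 26) (c := 12425796952061669201945380146287786933499687079984)
    (x := x) (T := T) (x' := m) (t' := t)
    (by decide +kernel : chkT [sub (gwE 65 29 26 tv 3 4 (-1) (-1)) (gl 48 1000 115 100 36 100), cle 26 1 1, zle 13 12] 26
      12425796952061669201945380146287786933499687079984
      [NumIs.V.of 10000 3600 6500, NumIs.V.of 10000 (-920) (-210), NumIs.V.of 10000 7400 7500, NumIs.V.of 10000 (-1230) (-150)] = true)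
    ⟨by norm_num; linarith only [h1], by norm_num; linarith only [h1]⟩ ⟨by norm_num; linarith only [h2], by norm_num; linarith only [h2]⟩
    ⟨by norm_num; linarith only [h3], by norm_num; linarith only [h3]⟩ ⟨by norm_num; linarith only [h4], by norm_num; linarith only [h4]⟩
    (by
      intro e he
      simp only [List.mem_cons, List.not_mem_nil, or_false] at he
      rcases he with rfl | rfl <;>
        (simp only [zge, zle, cge, cle, ypos, yneg, tv, E.val, NumIs.E.val, MR.tE_val, NumIs.lkR]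
         norm_num
         linarith only [h3, h1]))
  rw [E.val, gwE_val] at h
  simp only [gl, tv, tK, E.val, NumIs.E.val, NumIs.lkR] at h
  push_cast at h
  linarith only [h]

theorem o1_34r {x T m t : ℝ} (h1 : 3600 / 10000 ≤ x ∧ x ≤ 6500 / 10000)
    (h2 : -(920 / 10000) ≤ T ∧ T ≤ -(210 / 10000)) (h3 : 7500 / 10000 ≤ m ∧ m ≤ 8000 / 10000)
    (h4 : -(1230 / 10000) ≤ t ∧ t ≤ 0 / 10000) (a0 : 1 / 1 ≤ 26 / 100 + m) (a1 : 13 / 12 ≤ x + m) (a2 : t + 3 / 10 * (8 / 10 - m) ≤ 0) :
    48 / 1000 + 115 / 100 * (x - 36 / 100) < gw (26 / 100) T x (MR.tR 65 29 x T) m t (lb 3 (-1) (26 / 100 + m) (T + t))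
      (ub 4 (-1) (x + m) (MR.tR 65 29 x T + t)) := by
  have h := posT (G := sub (gwE 65 29 26 tv 3 4 (-1) (-1)) (gl 48 1000 115 100 36 100)) (al := [cle 26 1 1, zle 13 12, emb (.add (.var 3) (.mul (.q 3 10) (.sub (.q 8 10) (.var 2))))])
    (fuel := 26) (c := 229212832890317866877985272931757071866464132863731673016090982617091)
    (x := x) (T := T) (x' := m) (t' := t)
    (by decide +kernel : chkT [sub (gwE 65 29 26 tv 3 4 (-1) (-1)) (gl 48 1000 115 100 36 100), cle 26 1 1, zle 13 12, emb (.add (.var 3) (.mul (.q 3 10) (.sub (.q 8 10) (.var 2))))] 26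
      229212832890317866877985272931757071866464132863731673016090982617091
      [NumIs.V.of 10000 3600 6500, NumIs.V.of 10000 (-920) (-210), NumIs.V.of 10000 7500 8000, NumIs.V.of 10000 (-1230) 0] = true)
    ⟨by norm_num; linarith only [h1], by norm_num; linarith only [h1]⟩ ⟨by norm_num; linarith only [h2], by norm_num; linarith only [h2]⟩
    ⟨by norm_num; linarith only [h3], by norm_num; linarith only [h3]⟩ ⟨by norm_num; linarith only [h4], by norm_num; linarith only [h4]⟩
    (by
      intro e he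
      simp only [List.mem_cons, List.not_mem_nil, or_false] at he
      rcases he with rfl | rfl | rfl <;>
        (simp only [zge, zle, cge, cle, ypos, yneg, tv, E.val, NumIs.E.val, MR.tE_val, NumIs.lkR]
         norm_num
         linarith only [h3, h1, a2]))
  rw [E.val, gwE_val] at h
  simp only [gl, tv, tK, E.val, NumIs.E.val, NumIs.lkR] at h
  push_cast at h
  linarith only [h]

theorem o2_11 {x T m t : ℝ} (h1 : 3850 / 10000 ≤ x ∧ x ≤ 6500 / 10000)
    (h2 : -(940 / 10000) ≤ T ∧ T ≤ -(460 / 10000)) (h3 : 5000 / 10000 ≤ m ∧ m ≤ 5317 / 10000)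
    (h4 : -(1230 / 10000) ≤ t ∧ t ≤ -(150 / 10000)) (a0 : 26 / 100 + m ≤ 11 / 12) (a1 : x + m ≤ 11 / 12) :
    875 / 10000 + 115 / 100 * (x - 385 / 1000) < gw (26 / 100) T x (MR.tR 65 29 x T) m t (lb 1 (-1) (26 / 100 + m) (T + t))
      (ub 1 (-1) (x + m) (MR.tR 65 29 x T + t)) := by
  have h := posT (G := sub (gwE 65 29 26 tv 1 1 (-1) (-1)) (gl 875 10000 115 100 385 1000)) (al := [cge 26 11 12, zge 11 12])
    (fuel := 26) (c := 55381793800921676537507510061445120)
    (x := x) (T := T) (x' := m) (t' := t)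
    (by decide +kernel : chkT [sub (gwE 65 29 26 tv 1 1 (-1) (-1)) (gl 875 10000 115 100 385 1000), cge 26 11 12, zge 11 12] 26
      55381793800921676537507510061445120
      [NumIs.V.of 10000 3850 6500, NumIs.V.of 10000 (-940) (-460), NumIs.V.of 10000 5000 5317, NumIs.V.of 10000 (-1230) (-150)] = true)
    ⟨by norm_num; linarith only [h1], by norm_num; linarith only [h1]⟩ ⟨by norm_num; linarith only [h2], by norm_num; linarith only [h2]⟩
    ⟨by norm_num; linarith only [h3], by norm_num; linarith only [h3]⟩ ⟨by norm_num; linarith only [h4], by norm_num; linarith only [h4]⟩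
    (by
      intro e he
      simp only [List.mem_cons, List.not_mem_nil, or_false] at he
      rcases he with rfl | rfl <;>
        (simp only [zge, zle, cge, cle, ypos, yneg, tv, E.val, NumIs.E.val, MR.tE_val, NumIs.lkR]
         norm_num
         linarith only [h3, a1]))
  rw [E.val, gwE_val] at h
  simp only [gl, tv, tK, E.val, NumIs.E.val, NumIs.lkR] at h
  push_cast at h
  linarith only [h]

theorem o2_12 {x T m t : ℝ} (h1 : 3850 / 10000 ≤ x ∧ x ≤ 6500 / 10000)
    (h2 : -(940 / 10000) ≤ T ∧ T ≤ -(460 / 10000)) (h3 : 5000 / 10000 ≤ m ∧ m ≤ 6150 / 10000)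
    (h4 : -(1230 / 10000) ≤ t ∧ t ≤ -(150 / 10000)) (a0 : 26 / 100 + m ≤ 11 / 12) (a1 : 11 / 12 ≤ x + m) (a2 : x + m ≤ 1 / 1) :
    875 / 10000 + 115 / 100 * (x - 385 / 1000) < gw (26 / 100) T x (MR.tR 65 29 x T) m t (lb 1 (-1) (26 / 100 + m) (T + t))
      (ub 2 (-1) (x + m) (MR.tR 65 29 x T + t)) := by
  have h := posT (G := sub (gwE 65 29 26 tv 1 2 (-1) (-1)) (gl 875 10000 115 100 385 1000)) (al := [cge 26 11 12, zle 11 12, zge 1 1])
    (fuel := 26) (c := 87510161925794838095746602340489953091402073469292267141515510577184557746572234800)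
    (x := x) (T := T) (x' := m) (t' := t)
    (by decide +kernel : chkT [sub (gwE 65 29 26 tv 1 2 (-1) (-1)) (gl 875 10000 115 100 385 1000), cge 26 11 12, zle 11 12, zge 1 1] 26
      87510161925794838095746602340489953091402073469292267141515510577184557746572234800
      [NumIs.V.of 10000 3850 6500, NumIs.V.of 10000 (-940) (-460), NumIs.V.of 10000 5000 6150, NumIs.V.of 10000 (-1230) (-150)] = true)
    ⟨by norm_num; linarith only [h1], by norm_num; linarith only [h1]⟩ ⟨by norm_num; linarith only [h2], by norm_num; linarith only [h2]⟩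
    ⟨by norm_num; linarith only [h3], by norm_num; linarith only [h3]⟩ ⟨by norm_num; linarith only [h4], by norm_num; linarith only [h4]⟩
    (by
      intro e he
      simp only [List.mem_cons, List.not_mem_nil, or_false] at he
      rcases he with rfl | rfl | rfl <;>
        (simp only [zge, zle, cge, cle, ypos, yneg, tv, E.val, NumIs.E.val, MR.tE_val, NumIs.lkR]
         norm_num
         linarith only [h3, a1, a2]))
  rw [E.val, gwE_val] at h
  simp only [gl, tv, tK, E.val, NumIs.E.val, NumIs.lkR] at h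
  push_cast at h
  linarith only [h]

end R3V

end Pool.Agent.Work.MP_b30479_gtS.G2

end

section

/-!
# Value rows of the digit at `3 | 1`, its other neighbour is a `1`
-/

set_option linter.unusedVariables false
set_option linter.unusedTactic false
set_option linter.unreachableTactic false
set_option linter.unusedSimpArgs false
set_option linter.unnecessarySeqFocus false

set_option deprecated.oldSectionVars true

namespace Pool.Agent.Work.MP_b30479_gtS.G2

open VOL NumUs

namespace R3V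

open E

theorem d1_44m {x T m t : ℝ} (h1 : 3600 / 10000 ≤ x ∧ x ≤ 6500 / 10000)
    (h2 : 210 / 10000 ≤ T ∧ T ≤ 920 / 10000) (h3 : 8233 / 10000 ≤ m ∧ m ≤ 8600 / 10000)
    (h4 : -(910 / 10000) ≤ t ∧ t ≤ 490 / 10000) (a0 : 13 / 12 ≤ 26 / 100 + m) (a1 : 13 / 12 ≤ x + m) (a2 : MR.tR 65 29 x T + t ≤ 0) (a3 : -t ≤ 455 / 1000 * (86 / 100 - m)) (a4 : T + t ≤ 111 / 1000) (a5 : -(22 / 1000) ≤ T + t) :
    -(48 / 1000 + 115 / 100 * (x - 36 / 100)) < g1 (26 / 100) T x (MR.tR 65 29 x T) m t (lb 4 1 (26 / 100 + m) (T + t))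
      (ub 4 (-1) (x + m) (MR.tR 65 29 x T + t)) := by
  have h := posT (G := add (g1E 65 29 26 tv 4 4 1 (-1)) (gl 48 1000 115 100 36 100)) (al := [cle 26 13 12, zle 13 12, ypos 65 29, emb (.sub (.neg (.var 3)) (.mul (.q 455 1000) (.sub (.q 86 100) (.var 2)))), emb (.sub (.add (.var 1) (.var 3)) (.q 111 1000)), emb (.sub (.q (-22) 1000) (.add (.var 1) (.var 3)))])
    (fuel := 28) (c := 557251)
    (x := x) (T := T) (x' := m) (t' := t)
    (by decide +kernel : chkT [add (g1E 65 29 26 tv 4 4 1 (-1)) (gl 48 1000 115 100 36 100), cle 26 13 12, zle 13 12, ypos 65 29, emb (.sub (.neg (.var 3)) (.mul (.q 455 1000) (.sub (.q 86 100) (.var 2)))), emb (.sub (.add (.var 1) (.var 3)) (.q 111 1000)), emb (.sub (.q (-22) 1000) (.add (.var 1) (.var 3)))] 28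
      557251
      [NumIs.V.of 10000 3600 6500, NumIs.V.of 10000 210 920, NumIs.V.of 10000 8233 8600, NumIs.V.of 10000 (-910) 490] = true)
    ⟨by norm_num; linarith only [h1], by norm_num; linarith only [h1]⟩ ⟨by norm_num; linarith only [h2], by norm_num; linarith only [h2]⟩
    ⟨by norm_num; linarith only [a0], by norm_num; linarith only [h3]⟩ ⟨by norm_num; linarith only [a0, a3], by norm_num; linarith only [h4]⟩
    (by
      intro e he
      simp only [List.mem_cons, List.not_mem_nil, or_false] at he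
      rcases he with rfl | rfl | rfl | rfl | rfl | rfl <;>
        (simp only [zge, zle, cge, cle, ypos, yneg, tv, E.val, NumIs.E.val, MR.tE_val, NumIs.lkR]
         norm_num
         linarith only [a0, h1, a2, a3, a4, h2]))
  rw [E.val, g1E_val] at h
  simp only [gl, tv, tK, E.val, NumIs.E.val, NumIs.lkR] at h
  push_cast at h
  linarith only [h]

theorem d1_34m {x T m t : ℝ} (h1 : 3600 / 10000 ≤ x ∧ x ≤ 6500 / 10000)
    (h2 : 210 / 10000 ≤ T ∧ T ≤ 920 / 10000) (h3 : 7400 / 10000 ≤ m ∧ m ≤ 8234 / 10000)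
    (h4 : -(910 / 10000) ≤ t ∧ t ≤ 490 / 10000) (a0 : 1 / 1 ≤ 26 / 100 + m) (a1 : 26 / 100 + m ≤ 13 / 12) (a2 : 13 / 12 ≤ x + m) (a3 : MR.tR 65 29 x T + t ≤ 0) (a4 : -t ≤ 455 / 1000 * (86 / 100 - m)) (a5 : -t ≤ 5 * (22 / 1000 + T) * (86 / 100 - m)) (a6 : T + t ≤ 111 / 1000) (a7 : -(22 / 1000) ≤ T + t) :
    -(48 / 1000 + 115 / 100 * (x - 36 / 100)) < g1 (26 / 100) T x (MR.tR 65 29 x T) m t (lb 3 1 (26 / 100 + m) (T + t))
      (ub 4 (-1) (x + m) (MR.tR 65 29 x T + t)) := by
  have h := posT (G := add (g1E 65 29 26 tv 3 4 1 (-1)) (gl 48 1000 115 100 36 100)) (al := [cle 26 1 1, cge 26 13 12, zle 13 12, ypos 65 29, emb (.sub (.neg (.var 3)) (.mul (.q 455 1000) (.sub (.q 86 100) (.var 2)))), emb (.sub (.neg (.var 3)) (.mul (.mul (.q 5 1) (.add (.q 22 1000) (.var 1))) (.sub (.q 86 100) (.var 2)))), emb (.sub (.add (.var 1) (.var 3)) (.q 111 1000)), emb (.sub (.q (-22) 1000) (.add (.var 1) (.var 3)))])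
    (fuel := 28) (c := 2909947658622964584486317565235118002992)
    (x := x) (T := T) (x' := m) (t' := t)
    (by decide +kernel : chkT [add (g1E 65 29 26 tv 3 4 1 (-1)) (gl 48 1000 115 100 36 100), cle 26 1 1, cge 26 13 12, zle 13 12, ypos 65 29, emb (.sub (.neg (.var 3)) (.mul (.q 455 1000) (.sub (.q 86 100) (.var 2)))), emb (.sub (.neg (.var 3)) (.mul (.mul (.q 5 1) (.add (.q 22 1000) (.var 1))) (.sub (.q 86 100) (.var 2)))), emb (.sub (.add (.var 1) (.var 3)) (.q 111 1000)), emb (.sub (.q (-22) 1000) (.add (.var 1) (.var 3)))] 28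
      2909947658622964584486317565235118002992
      [NumIs.V.of 10000 3600 6500, NumIs.V.of 10000 210 920, NumIs.V.of 10000 7400 8234, NumIs.V.of 10000 (-910) 490] = true)
    ⟨by norm_num; linarith only [h1], by norm_num; linarith only [h1]⟩ ⟨by norm_num; linarith only [h2], by norm_num; linarith only [h2]⟩
    ⟨by norm_num; linarith only [h3], by norm_num; linarith only [h3]⟩ ⟨by norm_num; linarith only [h3, a4], by norm_num; linarith only [h4]⟩
    (by
      intro e he
      simp only [List.mem_cons, List.not_mem_nil, or_false] at he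
      rcases he with rfl | rfl | rfl | rfl | rfl | rfl | rfl | rfl <;>
        (simp only [zge, zle, cge, cle, ypos, yneg, tv, E.val, NumIs.E.val, MR.tE_val, NumIs.lkR]
         norm_num
         linarith only [h3, a1, h1, a3, a4, a5, a6, a7]))
  rw [E.val, g1E_val] at h
  simp only [gl, tv, tK, E.val, NumIs.E.val, NumIs.lkR] at h
  push_cast at h
  linarith only [h]

end R3V

end Pool.Agent.Work.MP_b30479_gtS.G2

end

section

/-!
# Part of `R3VB`
-/
set_option linter.unusedVariables false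
set_option linter.unusedTactic false
set_option linter.unreachableTactic false
set_option linter.unusedSimpArgs false
set_option linter.unnecessarySeqFocus false

set_option deprecated.oldSectionVars true

namespace Pool.Agent.Work.MP_b30479_gtS.G2

open VOL NumUs

namespace R3V

open E

theorem d1_23m {x T m t : ℝ} (h1 : 3600 / 10000 ≤ x ∧ x ≤ 6500 / 10000)
    (h2 : 210 / 10000 ≤ T ∧ T ≤ 920 / 10000) (h3 : 6566 / 10000 ≤ m ∧ m ≤ 7234 / 10000)
    (h4 : -(910 / 10000) ≤ t ∧ t ≤ 490 / 10000) (a0 : 11 / 12 ≤ 26 / 100 + m) (a1 : 26 / 100 + m ≤ 1 / 1) (a2 : 1 / 1 ≤ x + m) (a3 : x + m ≤ 13 / 12) (a4 : MR.tR 65 29 x T + t ≤ 0) (a5 : T + t ≤ 111 / 1000) (a6 : -(22 / 1000) ≤ T + t) :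
    -(48 / 1000 + 115 / 100 * (x - 36 / 100)) < g1 (26 / 100) T x (MR.tR 65 29 x T) m t (lb 2 1 (26 / 100 + m) (T + t))
      (ub 3 (-1) (x + m) (MR.tR 65 29 x T + t)) := by
  have h := posT (G := add (g1E 65 29 26 tv 2 3 1 (-1)) (gl 48 1000 115 100 36 100)) (al := [cle 26 11 12, cge 26 1 1, zle 1 1, zge 13 12, ypos 65 29, emb (.sub (.add (.var 1) (.var 3)) (.q 111 1000)), emb (.sub (.q (-22) 1000) (.add (.var 1) (.var 3)))])
    (fuel := 28) (c := 3191922709885194353255642000626563880207084842848259)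
    (x := x) (T := T) (x' := m) (t' := t)
    (by decide +kernel : chkT [add (g1E 65 29 26 tv 2 3 1 (-1)) (gl 48 1000 115 100 36 100), cle 26 11 12, cge 26 1 1, zle 1 1, zge 13 12, ypos 65 29, emb (.sub (.add (.var 1) (.var 3)) (.q 111 1000)), emb (.sub (.q (-22) 1000) (.add (.var 1) (.var 3)))] 28
      3191922709885194353255642000626563880207084842848259
      [NumIs.V.of 10000 3600 6500, NumIs.V.of 10000 210 920, NumIs.V.of 10000 6566 7234, NumIs.V.of 10000 (-910) 490] = true)
    ⟨by norm_num; linarith only [h1], by norm_num; linarith only [h1]⟩ ⟨by norm_num; linarith only [h2], by norm_num; linarith only [h2]⟩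
    ⟨by norm_num; linarith only [a0], by norm_num; linarith only [h3]⟩ ⟨by norm_num; linarith only [h4], by norm_num; linarith only [h4]⟩
    (by
      intro e he
      simp only [List.mem_cons, List.not_mem_nil, or_false] at he
      rcases he with rfl | rfl | rfl | rfl | rfl | rfl | rfl <;>
        (simp only [zge, zle, cge, cle, ypos, yneg, tv, E.val, NumIs.E.val, MR.tE_val, NumIs.lkR]
         norm_num
         linarith only [a0, h3, h1, a3, a4, a5, a6]))
  rw [E.val, g1E_val] at h
  simp only [gl, tv, tK, E.val, NumIs.E.val, NumIs.lkR] at h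
  push_cast at h
  linarith only [h]

theorem d1_24p {x T m t : ℝ} (h1 : 3600 / 10000 ≤ x ∧ x ≤ 6500 / 10000)
    (h2 : 210 / 10000 ≤ T ∧ T ≤ 920 / 10000) (h3 : 6566 / 10000 ≤ m ∧ m ≤ 7400 / 10000)
    (h4 : -(910 / 10000) ≤ t ∧ t ≤ 490 / 10000) (a0 : 11 / 12 ≤ 26 / 100 + m) (a1 : 26 / 100 + m ≤ 1 / 1) (a2 : 13 / 12 ≤ x + m) (a3 : 0 ≤ MR.tR 65 29 x T + t) (a4 : T + t ≤ 111 / 1000) (a5 : -(22 / 1000) ≤ T + t) :
    -(48 / 1000 + 115 / 100 * (x - 36 / 100)) < g1 (26 / 100) T x (MR.tR 65 29 x T) m t (lb 2 1 (26 / 100 + m) (T + t))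
      (ub 4 1 (x + m) (MR.tR 65 29 x T + t)) := by
  have h := posT (G := add (g1E 65 29 26 tv 2 4 1 1) (gl 48 1000 115 100 36 100)) (al := [cle 26 11 12, cge 26 1 1, zle 13 12, yneg 65 29, emb (.sub (.add (.var 1) (.var 3)) (.q 111 1000)), emb (.sub (.q (-22) 1000) (.add (.var 1) (.var 3)))])
    (fuel := 28) (c := 11341122946359115644301968486182289920)
    (x := x) (T := T) (x' := m) (t' := t)
    (by decide +kernel : chkT [add (g1E 65 29 26 tv 2 4 1 1) (gl 48 1000 115 100 36 100), cle 26 11 12, cge 26 1 1, zle 13 12, yneg 65 29, emb (.sub (.add (.var 1) (.var 3)) (.q 111 1000)), emb (.sub (.q (-22) 1000) (.add (.var 1) (.var 3)))] 28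
      11341122946359115644301968486182289920
      [NumIs.V.of 10000 3600 6500, NumIs.V.of 10000 210 920, NumIs.V.of 10000 6566 7400, NumIs.V.of 10000 (-910) 490] = true)
    ⟨by norm_num; linarith only [h1], by norm_num; linarith only [h1]⟩ ⟨by norm_num; linarith only [h2], by norm_num; linarith only [h2]⟩
    ⟨by norm_num; linarith only [a0], by norm_num; linarith only [h3]⟩ ⟨by norm_num; linarith only [h4], by norm_num; linarith only [h4]⟩
    (by
      intro e he
      simp only [List.mem_cons, List.not_mem_nil, or_false] at he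
      rcases he with rfl | rfl | rfl | rfl | rfl | rfl <;>
        (simp only [zge, zle, cge, cle, ypos, yneg, tv, E.val, NumIs.E.val, MR.tE_val, NumIs.lkR]
         norm_num
         linarith only [a0, h3, a2, a3, a4, a5]))
  rw [E.val, g1E_val] at h
  simp only [gl, tv, tK, E.val, NumIs.E.val, NumIs.lkR] at h
  push_cast at h
  linarith only [h]

end R3V

end Pool.Agent.Work.MP_b30479_gtS.G2

end
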