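import Pool.Agent.Work.MP_b30479_gt.TBS.G2.TRa

section

/-!
# Value move at `3 | 1` near the flat end: rows
-/

set_option linter.unusedVariables false
set_option linter.unusedTactic false
set_option linter.unreachableTactic false
set_option linter.unusedSimpArgs false
set_option linter.unnecessarySeqFocus false

set_option deprecated.oldSectionVars true

namespace Pool.Agent.Work.MP_b30479_gtS.G2

open VOL NumUs

namespace R3V

open E

/-- a linear bound -/
def gT (a : ℤ) (b : ℕ) (c : ℤ) (d : ℕ) (e : ℤ) (f : ℕ) : E :=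
  emb (.add (.add (.q a b) (.mul (.q c d) (.add (.var 1) (.q e f)))) (.sub (.var 0) (.q 36 100)))

theorem p2_11 {x T m t : ℝ} (h1 : 3600 / 10000 ≤ x ∧ x ≤ 3850 / 10000)
    (h2 : -(940 / 10000) ≤ T ∧ T ≤ -(460 / 10000)) (h3 : 5000 / 10000 ≤ m ∧ m ≤ 5567 / 10000)
    (h4 : -(1230 / 10000) ≤ t ∧ t ≤ -(150 / 10000)) (a0 : 26 / 100 + m ≤ 11 / 12) (a1 : x + m ≤ 11 / 12) :
    (64 / 1000 + 27 / 100 * (T + 46 / 1000) + (x - 36 / 100)) < gw (26 / 100) T x (MR.tR 65 29 x T) m t (lb 1 (-1) (26 / 100 + m) (T + t))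
      (ub 1 (-1) (x + m) (MR.tR 65 29 x T + t)) := by
  have h := posT (G := sub (gwE 65 29 26 tv 1 1 (-1) (-1)) (gT 64 1000 27 100 46 1000)) (al := [cge 26 11 12, zge 11 12])
    (fuel := 26) (c := 985830267843610717288495138588234260917095437655642746748575984465080500814355)
    (x := x) (T := T) (x' := m) (t' := t)
    (by decide +kernel : chkT [sub (gwE 65 29 26 tv 1 1 (-1) (-1)) (gT 64 1000 27 100 46 1000), cge 26 11 12, zge 11 12] 26
      985830267843610717288495138588234260917095437655642746748575984465080500814355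
      [NumIs.V.of 10000 3600 3850, NumIs.V.of 10000 (-940) (-460), NumIs.V.of 10000 5000 5567, NumIs.V.of 10000 (-1230) (-150)] = true)
    ⟨by norm_num; linarith only [h1], by norm_num; linarith only [h1]⟩ ⟨by norm_num; linarith only [h2], by norm_num; linarith only [h2]⟩
    ⟨by norm_num; linarith only [h3], by norm_num; linarith only [h3]⟩ ⟨by norm_num; linarith only [h4], by norm_num; linarith only [h4]⟩
    (by
      intro e he
      simp only [List.mem_cons, List.not_mem_nil, or_false] at he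
      rcases he with rfl | rfl <;>
        (simp only [zge, zle, cge, cle, ypos, yneg, tv, E.val, NumIs.E.val, MR.tE_val, NumIs.lkR]
         norm_num
         linarith only [h3, a1]))
  rw [E.val, gwE_val] at h
  simp only [gT, tv, tK, E.val, NumIs.E.val, NumIs.lkR] at h
  push_cast at h
  linarith only [h]

theorem p2_12 {x T m t : ℝ} (h1 : 3600 / 10000 ≤ x ∧ x ≤ 3850 / 10000)
    (h2 : -(940 / 10000) ≤ T ∧ T ≤ -(460 / 10000)) (h3 : 5316 / 10000 ≤ m ∧ m ≤ 6400 / 10000)
    (h4 : -(1230 / 10000) ≤ t ∧ t ≤ -(150 / 10000)) (a0 : 26 / 100 + m ≤ 11 / 12) (a1 : 11 / 12 ≤ x + m) (a2 : x + m ≤ 1 / 1) :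
    (64 / 1000 + 27 / 100 * (T + 46 / 1000) + (x - 36 / 100)) < gw (26 / 100) T x (MR.tR 65 29 x T) m t (lb 1 (-1) (26 / 100 + m) (T + t))
      (ub 2 (-1) (x + m) (MR.tR 65 29 x T + t)) := by
  have h := posT (G := sub (gwE 65 29 26 tv 1 2 (-1) (-1)) (gT 64 1000 27 100 46 1000)) (al := [cge 26 11 12, zle 11 12, zge 1 1])
    (fuel := 26) (c := 208757670581052524405561978117165048642006904646412673811)
    (x := x) (T := T) (x' := m) (t' := t)
    (by decide +kernel : chkT [sub (gwE 65 29 26 tv 1 2 (-1) (-1)) (gT 64 1000 27 100 46 1000), cge 26 11 12, zle 11 12, zge 1 1] 26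
      208757670581052524405561978117165048642006904646412673811
      [NumIs.V.of 10000 3600 3850, NumIs.V.of 10000 (-940) (-460), NumIs.V.of 10000 5316 6400, NumIs.V.of 10000 (-1230) (-150)] = true)
    ⟨by norm_num; linarith only [h1], by norm_num; linarith only [h1]⟩ ⟨by norm_num; linarith only [h2], by norm_num; linarith only [h2]⟩
    ⟨by norm_num; linarith only [h1, a1], by norm_num; linarith only [h3]⟩ ⟨by norm_num; linarith only [h4], by norm_num; linarith only [h4]⟩
    (by
      intro e he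
      simp only [List.mem_cons, List.not_mem_nil, or_false] at he
      rcases he with rfl | rfl | rfl <;>
        (simp only [zge, zle, cge, cle, ypos, yneg, tv, E.val, NumIs.E.val, MR.tE_val, NumIs.lkR]
         norm_num
         linarith only [h3, a1, a2]))
  rw [E.val, gwE_val] at h
  simp only [gT, tv, tK, E.val, NumIs.E.val, NumIs.lkR] at h
  push_cast at h
  linarith only [h]

theorem p2_13 {x T m t : ℝ} (h1 : 3600 / 10000 ≤ x ∧ x ≤ 3850 / 10000)
    (h2 : -(940 / 10000) ≤ T ∧ T ≤ -(460 / 10000)) (h3 : 6150 / 10000 ≤ m ∧ m ≤ 6567 / 10000)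
    (h4 : -(1230 / 10000) ≤ t ∧ t ≤ -(150 / 10000)) (a0 : 26 / 100 + m ≤ 11 / 12) (a1 : 1 / 1 ≤ x + m) (a2 : x + m ≤ 13 / 12) :
    (64 / 1000 + 27 / 100 * (T + 46 / 1000) + (x - 36 / 100)) < gw (26 / 100) T x (MR.tR 65 29 x T) m t (lb 1 (-1) (26 / 100 + m) (T + t))
      (ub 3 (-1) (x + m) (MR.tR 65 29 x T + t)) := by
  have h := posT (G := sub (gwE 65 29 26 tv 1 3 (-1) (-1)) (gT 64 1000 27 100 46 1000)) (al := [cge 26 11 12, zle 1 1, zge 13 12])
    (fuel := 26) (c := 36566500115)
    (x := x) (T := T) (x' := m) (t' := t)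
    (by decide +kernel : chkT [sub (gwE 65 29 26 tv 1 3 (-1) (-1)) (gT 64 1000 27 100 46 1000), cge 26 11 12, zle 1 1, zge 13 12] 26
      36566500115
      [NumIs.V.of 10000 3600 3850, NumIs.V.of 10000 (-940) (-460), NumIs.V.of 10000 6150 6567, NumIs.V.of 10000 (-1230) (-150)] = true)
    ⟨by norm_num; linarith only [h1], by norm_num; linarith only [h1]⟩ ⟨by norm_num; linarith only [h2], by norm_num; linarith only [h2]⟩
    ⟨by norm_num; linarith only [h3], by norm_num; linarith only [h3]⟩ ⟨by norm_num; linarith only [h4], by norm_num; linarith only [h4]⟩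
    (by
      intro e he
      simp only [List.mem_cons, List.not_mem_nil, or_false] at he
      rcases he with rfl | rfl | rfl <;>
        (simp only [zge, zle, cge, cle, ypos, yneg, tv, E.val, NumIs.E.val, MR.tE_val, NumIs.lkR]
         norm_num
         linarith only [a0, a1, h1, h3]))
  rw [E.val, gwE_val] at h
  simp only [gT, tv, tK, E.val, NumIs.E.val, NumIs.lkR] at h
  push_cast at h
  linarith only [h]

theorem p2_23 {x T m t : ℝ} (h1 : 3600 / 10000 ≤ x ∧ x ≤ 3850 / 10000)
    (h2 : -(940 / 10000) ≤ T ∧ T ≤ -(460 / 10000)) (h3 : 6566 / 10000 ≤ m ∧ m ≤ 7234 / 10000)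
    (h4 : -(1230 / 10000) ≤ t ∧ t ≤ -(150 / 10000)) (a0 : 11 / 12 ≤ 26 / 100 + m) (a1 : 26 / 100 + m ≤ 1 / 1) (a2 : 1 / 1 ≤ x + m) (a3 : x + m ≤ 13 / 12) :
    (64 / 1000 + 27 / 100 * (T + 46 / 1000) + (x - 36 / 100)) < gw (26 / 100) T x (MR.tR 65 29 x T) m t (lb 2 (-1) (26 / 100 + m) (T + t))
      (ub 3 (-1) (x + m) (MR.tR 65 29 x T + t)) := by
  have h := posT (G := sub (gwE 65 29 26 tv 2 3 (-1) (-1)) (gT 64 1000 27 100 46 1000)) (al := [cle 26 11 12, cge 26 1 1, zle 1 1, zge 13 12])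
    (fuel := 26) (c := 12437217895463608106831293074880773727335500354323)
    (x := x) (T := T) (x' := m) (t' := t)
    (by decide +kernel : chkT [sub (gwE 65 29 26 tv 2 3 (-1) (-1)) (gT 64 1000 27 100 46 1000), cle 26 11 12, cge 26 1 1, zle 1 1, zge 13 12] 26
      12437217895463608106831293074880773727335500354323
      [NumIs.V.of 10000 3600 3850, NumIs.V.of 10000 (-940) (-460), NumIs.V.of 10000 6566 7234, NumIs.V.of 10000 (-1230) (-150)] = true)
    ⟨by norm_num; linarith only [h1], by norm_num; linarith only [h1]⟩ ⟨by norm_num; linarith only [h2], by norm_num; linarith only [h2]⟩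
    ⟨by norm_num; linarith only [a0], by norm_num; linarith only [h3]⟩ ⟨by norm_num; linarith only [h4], by norm_num; linarith only [h4]⟩
    (by
      intro e he
      simp only [List.mem_cons, List.not_mem_nil, or_false] at he
      rcases he with rfl | rfl | rfl | rfl <;>
        (simp only [zge, zle, cge, cle, ypos, yneg, tv, E.val, NumIs.E.val, MR.tE_val, NumIs.lkR]
         norm_num
         linarith only [a0, h3, h1, a3]))
  rw [E.val, gwE_val] at h
  simp only [gT, tv, tK, E.val, NumIs.E.val, NumIs.lkR] at h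
  push_cast at h
  linarith only [h]

theorem p2_24 {x T m t : ℝ} (h1 : 3600 / 10000 ≤ x ∧ x ≤ 3850 / 10000)
    (h2 : -(940 / 10000) ≤ T ∧ T ≤ -(460 / 10000)) (h3 : 6983 / 10000 ≤ m ∧ m ≤ 7400 / 10000)
    (h4 : -(1230 / 10000) ≤ t ∧ t ≤ -(150 / 10000)) (a0 : 11 / 12 ≤ 26 / 100 + m) (a1 : 26 / 100 + m ≤ 1 / 1) (a2 : 13 / 12 ≤ x + m) :
    (64 / 1000 + 27 / 100 * (T + 46 / 1000) + (x - 36 / 100)) < gw (26 / 100) T x (MR.tR 65 29 x T) m t (lb 2 (-1) (26 / 100 + m) (T + t))
      (ub 4 (-1) (x + m) (MR.tR 65 29 x T + t)) := by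
  have h := posT (G := sub (gwE 65 29 26 tv 2 4 (-1) (-1)) (gT 64 1000 27 100 46 1000)) (al := [cle 26 11 12, cge 26 1 1, zle 13 12])
    (fuel := 26) (c := 613483720572699411)
    (x := x) (T := T) (x' := m) (t' := t)
    (by decide +kernel : chkT [sub (gwE 65 29 26 tv 2 4 (-1) (-1)) (gT 64 1000 27 100 46 1000), cle 26 11 12, cge 26 1 1, zle 13 12] 26
      613483720572699411
      [NumIs.V.of 10000 3600 3850, NumIs.V.of 10000 (-940) (-460), NumIs.V.of 10000 6983 7400, NumIs.V.of 10000 (-1230) (-150)] = true)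
    ⟨by norm_num; linarith only [h1], by norm_num; linarith only [h1]⟩ ⟨by norm_num; linarith only [h2], by norm_num; linarith only [h2]⟩
    ⟨by norm_num; linarith only [h1, a2], by norm_num; linarith only [h3]⟩ ⟨by norm_num; linarith only [h4], by norm_num; linarith only [h4]⟩
    (by
      intro e he
      simp only [List.mem_cons, List.not_mem_nil, or_false] at he
      rcases he with rfl | rfl | rfl <;>
        (simp only [zge, zle, cge, cle, ypos, yneg, tv, E.val, NumIs.E.val, MR.tE_val, NumIs.lkR]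
         norm_num
         linarith only [h1, a2, h3]))
  rw [E.val, gwE_val] at h
  simp only [gT, tv, tK, E.val, NumIs.E.val, NumIs.lkR] at h
  push_cast at h
  linarith only [h]

theorem p2_34 {x T m t : ℝ} (h1 : 3600 / 10000 ≤ x ∧ x ≤ 3850 / 10000)
    (h2 : -(940 / 10000) ≤ T ∧ T ≤ -(460 / 10000)) (h3 : 7400 / 10000 ≤ m ∧ m ≤ 7500 / 10000)
    (h4 : -(1230 / 10000) ≤ t ∧ t ≤ -(150 / 10000)) (a0 : 1 / 1 ≤ 26 / 100 + m) (a1 : 13 / 12 ≤ x + m) :
    (64 / 1000 + 27 / 100 * (T + 46 / 1000) + (x - 36 / 100)) < gw (26 / 100) T x (MR.tR 65 29 x T) m t (lb 3 (-1) (26 / 100 + m) (T + t))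
      (ub 4 (-1) (x + m) (MR.tR 65 29 x T + t)) := by
  have h := posT (G := sub (gwE 65 29 26 tv 3 4 (-1) (-1)) (gT 64 1000 27 100 46 1000)) (al := [cle 26 1 1, zle 13 12])
    (fuel := 26) (c := 613483720572699411)
    (x := x) (T := T) (x' := m) (t' := t)
    (by decide +kernel : chkT [sub (gwE 65 29 26 tv 3 4 (-1) (-1)) (gT 64 1000 27 100 46 1000), cle 26 1 1, zle 13 12] 26
      613483720572699411
      [NumIs.V.of 10000 3600 3850, NumIs.V.of 10000 (-940) (-460), NumIs.V.of 10000 7400 7500, NumIs.V.of 10000 (-1230) (-150)] = true)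
    ⟨by norm_num; linarith only [h1], by norm_num; linarith only [h1]⟩ ⟨by norm_num; linarith only [h2], by norm_num; linarith only [h2]⟩
    ⟨by norm_num; linarith only [h3], by norm_num; linarith only [h3]⟩ ⟨by norm_num; linarith only [h4], by norm_num; linarith only [h4]⟩
    (by
      intro e he
      simp only [List.mem_cons, List.not_mem_nil, or_false] at he
      rcases he with rfl | rfl <;>
        (simp only [zge, zle, cge, cle, ypos, yneg, tv, E.val, NumIs.E.val, MR.tE_val, NumIs.lkR]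
         norm_num
         linarith only [h3, h1]))
  rw [E.val, gwE_val] at h
  simp only [gT, tv, tK, E.val, NumIs.E.val, NumIs.lkR] at h
  push_cast at h
  linarith only [h]

theorem p2_34r {x T m t : ℝ} (h1 : 3600 / 10000 ≤ x ∧ x ≤ 3850 / 10000)
    (h2 : -(940 / 10000) ≤ T ∧ T ≤ -(460 / 10000)) (h3 : 7500 / 10000 ≤ m ∧ m ≤ 8000 / 10000)
    (h4 : -(1230 / 10000) ≤ t ∧ t ≤ 0 / 10000) (a0 : 1 / 1 ≤ 26 / 100 + m) (a1 : 13 / 12 ≤ x + m) (a2 : t + 3 / 10 * (8 / 10 - m) ≤ 0) :
    (64 / 1000 + 27 / 100 * (T + 46 / 1000) + (x - 36 / 100)) < gw (26 / 100) T x (MR.tR 65 29 x T) m t (lb 3 (-1) (26 / 100 + m) (T + t))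
      (ub 4 (-1) (x + m) (MR.tR 65 29 x T + t)) := by
  have h := posT (G := sub (gwE 65 29 26 tv 3 4 (-1) (-1)) (gT 64 1000 27 100 46 1000)) (al := [cle 26 1 1, zle 13 12, emb (.add (.var 3) (.mul (.q 3 10) (.sub (.q 8 10) (.var 2))))])
    (fuel := 26) (c := 172680305051771848850180889776915)
    (x := x) (T := T) (x' := m) (t' := t)
    (by decide +kernel : chkT [sub (gwE 65 29 26 tv 3 4 (-1) (-1)) (gT 64 1000 27 100 46 1000), cle 26 1 1, zle 13 12, emb (.add (.var 3) (.mul (.q 3 10) (.sub (.q 8 10) (.var 2))))] 26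
      172680305051771848850180889776915
      [NumIs.V.of 10000 3600 3850, NumIs.V.of 10000 (-940) (-460), NumIs.V.of 10000 7500 8000, NumIs.V.of 10000 (-1230) 0] = true)
    ⟨by norm_num; linarith only [h1], by norm_num; linarith only [h1]⟩ ⟨by norm_num; linarith only [h2], by norm_num; linarith only [h2]⟩
    ⟨by norm_num; linarith only [h3], by norm_num; linarith only [h3]⟩ ⟨by norm_num; linarith only [h4], by norm_num; linarith only [h4]⟩
    (by
      intro e he
      simp only [List.mem_cons, List.not_mem_nil, or_false] at he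
      rcases he with rfl | rfl | rfl <;>
        (simp only [zge, zle, cge, cle, ypos, yneg, tv, E.val, NumIs.E.val, MR.tE_val, NumIs.lkR]
         norm_num
         linarith only [h3, h1, a2]))
  rw [E.val, gwE_val] at h
  simp only [gT, tv, tK, E.val, NumIs.E.val, NumIs.lkR] at h
  push_cast at h
  linarith only [h]

theorem pE_11 {x T m t : ℝ} (h1 : 3600 / 10000 ≤ x ∧ x ≤ 3700 / 10000)
    (h2 : -(1145 / 10000) ≤ T ∧ T ≤ -(870 / 10000)) (h3 : 5000 / 10000 ≤ m ∧ m ≤ 5567 / 10000)
    (h4 : -(1230 / 10000) ≤ t ∧ t ≤ -(150 / 10000)) (a0 : 26 / 100 + m ≤ 11 / 12) (a1 : x + m ≤ 11 / 12) :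
    35 / 1000 < gw (26 / 100) T x (MR.tR 65 29 x T) m t (lb 1 (-1) (26 / 100 + m) (T + t))
      (ub 1 (-1) (x + m) (MR.tR 65 29 x T + t)) := by
  have h := posT (G := sub (gwE 65 29 26 tv 1 1 (-1) (-1)) (q 35 1000)) (al := [cge 26 11 12, zge 11 12])
    (fuel := 26) (c := 36644751395)
    (x := x) (T := T) (x' := m) (t' := t)
    (by decide +kernel : chkT [sub (gwE 65 29 26 tv 1 1 (-1) (-1)) (q 35 1000), cge 26 11 12, zge 11 12] 26
      36644751395
      [NumIs.V.of 10000 3600 3700, NumIs.V.of 10000 (-1145) (-870), NumIs.V.of 10000 5000 5567, NumIs.V.of 10000 (-1230) (-150)] = true)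
    ⟨by norm_num; linarith only [h1], by norm_num; linarith only [h1]⟩ ⟨by norm_num; linarith only [h2], by norm_num; linarith only [h2]⟩
    ⟨by norm_num; linarith only [h3], by norm_num; linarith only [h3]⟩ ⟨by norm_num; linarith only [h4], by norm_num; linarith only [h4]⟩
    (by
      intro e he
      simp only [List.mem_cons, List.not_mem_nil, or_false] at he
      rcases he with rfl | rfl <;>
        (simp only [zge, zle, cge, cle, ypos, yneg, tv, E.val, NumIs.E.val, MR.tE_val, NumIs.lkR]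
         norm_num
         linarith only [h3, a1]))
  rw [E.val, gwE_val] at h
  simp only [gT, tv, tK, E.val, NumIs.E.val, NumIs.lkR] at h
  push_cast at h
  linarith only [h]

theorem pE_12 {x T m t : ℝ} (h1 : 3600 / 10000 ≤ x ∧ x ≤ 3700 / 10000)
    (h2 : -(1145 / 10000) ≤ T ∧ T ≤ -(870 / 10000)) (h3 : 5466 / 10000 ≤ m ∧ m ≤ 6400 / 10000)
    (h4 : -(1230 / 10000) ≤ t ∧ t ≤ -(150 / 10000)) (a0 : 26 / 100 + m ≤ 11 / 12) (a1 : 11 / 12 ≤ x + m) (a2 : x + m ≤ 1 / 1) :
    35 / 1000 < gw (26 / 100) T x (MR.tR 65 29 x T) m t (lb 1 (-1) (26 / 100 + m) (T + t))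
      (ub 2 (-1) (x + m) (MR.tR 65 29 x T + t)) := by
  have h := posT (G := sub (gwE 65 29 26 tv 1 2 (-1) (-1)) (q 35 1000)) (al := [cge 26 11 12, zle 11 12, zge 1 1])
    (fuel := 26) (c := 2395321036978211)
    (x := x) (T := T) (x' := m) (t' := t)
    (by decide +kernel : chkT [sub (gwE 65 29 26 tv 1 2 (-1) (-1)) (q 35 1000), cge 26 11 12, zle 11 12, zge 1 1] 26
      2395321036978211
      [NumIs.V.of 10000 3600 3700, NumIs.V.of 10000 (-1145) (-870), NumIs.V.of 10000 5466 6400, NumIs.V.of 10000 (-1230) (-150)] = true)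
    ⟨by norm_num; linarith only [h1], by norm_num; linarith only [h1]⟩ ⟨by norm_num; linarith only [h2], by norm_num; linarith only [h2]⟩
    ⟨by norm_num; linarith only [h1, a1], by norm_num; linarith only [h3]⟩ ⟨by norm_num; linarith only [h4], by norm_num; linarith only [h4]⟩
    (by
      intro e he
      simp only [List.mem_cons, List.not_mem_nil, or_false] at he
      rcases he with rfl | rfl | rfl <;>
        (simp only [zge, zle, cge, cle, ypos, yneg, tv, E.val, NumIs.E.val, MR.tE_val, NumIs.lkR]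
         norm_num
         linarith only [h3, a1, a2]))
  rw [E.val, gwE_val] at h
  simp only [gT, tv, tK, E.val, NumIs.E.val, NumIs.lkR] at h
  push_cast at h
  linarith only [h]

theorem pE_13 {x T m t : ℝ} (h1 : 3600 / 10000 ≤ x ∧ x ≤ 3700 / 10000)
    (h2 : -(1145 / 10000) ≤ T ∧ T ≤ -(870 / 10000)) (h3 : 6300 / 10000 ≤ m ∧ m ≤ 6567 / 10000)
    (h4 : -(1230 / 10000) ≤ t ∧ t ≤ -(150 / 10000)) (a0 : 26 / 100 + m ≤ 11 / 12) (a1 : 1 / 1 ≤ x + m) (a2 : x + m ≤ 13 / 12) :
    35 / 1000 < gw (26 / 100) T x (MR.tR 65 29 x T) m t (lb 1 (-1) (26 / 100 + m) (T + t))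
      (ub 3 (-1) (x + m) (MR.tR 65 29 x T + t)) := by
  have h := posT (G := sub (gwE 65 29 26 tv 1 3 (-1) (-1)) (q 35 1000)) (al := [cge 26 11 12, zle 1 1, zge 13 12])
    (fuel := 26) (c := 2179)
    (x := x) (T := T) (x' := m) (t' := t)
    (by decide +kernel : chkT [sub (gwE 65 29 26 tv 1 3 (-1) (-1)) (q 35 1000), cge 26 11 12, zle 1 1, zge 13 12] 26
      2179
      [NumIs.V.of 10000 3600 3700, NumIs.V.of 10000 (-1145) (-870), NumIs.V.of 10000 6300 6567, NumIs.V.of 10000 (-1230) (-150)] = true)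
    ⟨by norm_num; linarith only [h1], by norm_num; linarith only [h1]⟩ ⟨by norm_num; linarith only [h2], by norm_num; linarith only [h2]⟩
    ⟨by norm_num; linarith only [h3], by norm_num; linarith only [h3]⟩ ⟨by norm_num; linarith only [h4], by norm_num; linarith only [h4]⟩
    (by
      intro e he
      simp only [List.mem_cons, List.not_mem_nil, or_false] at he
      rcases he with rfl | rfl | rfl <;>
        (simp only [zge, zle, cge, cle, ypos, yneg, tv, E.val, NumIs.E.val, MR.tE_val, NumIs.lkR]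
         norm_num
         linarith only [a0, a1, h1, h3]))
  rw [E.val, gwE_val] at h
  simp only [gT, tv, tK, E.val, NumIs.E.val, NumIs.lkR] at h
  push_cast at h
  linarith only [h]

theorem pE_23 {x T m t : ℝ} (h1 : 3600 / 10000 ≤ x ∧ x ≤ 3700 / 10000)
    (h2 : -(1145 / 10000) ≤ T ∧ T ≤ -(870 / 10000)) (h3 : 6566 / 10000 ≤ m ∧ m ≤ 7234 / 10000)
    (h4 : -(1230 / 10000) ≤ t ∧ t ≤ -(150 / 10000)) (a0 : 11 / 12 ≤ 26 / 100 + m) (a1 : 26 / 100 + m ≤ 1 / 1) (a2 : 1 / 1 ≤ x + m) (a3 : x + m ≤ 13 / 12) :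
    35 / 1000 < gw (26 / 100) T x (MR.tR 65 29 x T) m t (lb 2 (-1) (26 / 100 + m) (T + t))
      (ub 3 (-1) (x + m) (MR.tR 65 29 x T + t)) := by
  have h := posT (G := sub (gwE 65 29 26 tv 2 3 (-1) (-1)) (q 35 1000)) (al := [cle 26 11 12, cge 26 1 1, zle 1 1, zge 13 12])
    (fuel := 26) (c := 36566499891)
    (x := x) (T := T) (x' := m) (t' := t)
    (by decide +kernel : chkT [sub (gwE 65 29 26 tv 2 3 (-1) (-1)) (q 35 1000), cle 26 11 12, cge 26 1 1, zle 1 1, zge 13 12] 26
      36566499891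
      [NumIs.V.of 10000 3600 3700, NumIs.V.of 10000 (-1145) (-870), NumIs.V.of 10000 6566 7234, NumIs.V.of 10000 (-1230) (-150)] = true)
    ⟨by norm_num; linarith only [h1], by norm_num; linarith only [h1]⟩ ⟨by norm_num; linarith only [h2], by norm_num; linarith only [h2]⟩
    ⟨by norm_num; linarith only [a0], by norm_num; linarith only [h3]⟩ ⟨by norm_num; linarith only [h4], by norm_num; linarith only [h4]⟩
    (by
      intro e he
      simp only [List.mem_cons, List.not_mem_nil, or_false] at he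
      rcases he with rfl | rfl | rfl | rfl <;>
        (simp only [zge, zle, cge, cle, ypos, yneg, tv, E.val, NumIs.E.val, MR.tE_val, NumIs.lkR]
         norm_num
         linarith only [a0, h3, h1, a3]))
  rw [E.val, gwE_val] at h
  simp only [gT, tv, tK, E.val, NumIs.E.val, NumIs.lkR] at h
  push_cast at h
  linarith only [h]

theorem pE_24 {x T m t : ℝ} (h1 : 3600 / 10000 ≤ x ∧ x ≤ 3700 / 10000)
    (h2 : -(1145 / 10000) ≤ T ∧ T ≤ -(870 / 10000)) (h3 : 7133 / 10000 ≤ m ∧ m ≤ 7400 / 10000)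
    (h4 : -(1230 / 10000) ≤ t ∧ t ≤ -(150 / 10000)) (a0 : 11 / 12 ≤ 26 / 100 + m) (a1 : 26 / 100 + m ≤ 1 / 1) (a2 : 13 / 12 ≤ x + m) :
    35 / 1000 < gw (26 / 100) T x (MR.tR 65 29 x T) m t (lb 2 (-1) (26 / 100 + m) (T + t))
      (ub 4 (-1) (x + m) (MR.tR 65 29 x T + t)) := by
  have h := posT (G := sub (gwE 65 29 26 tv 2 4 (-1) (-1)) (q 35 1000)) (al := [cle 26 11 12, cge 26 1 1, zle 13 12])
    (fuel := 26) (c := 2179)
    (x := x) (T := T) (x' := m) (t' := t)
    (by decide +kernel : chkT [sub (gwE 65 29 26 tv 2 4 (-1) (-1)) (q 35 1000), cle 26 11 12, cge 26 1 1, zle 13 12] 26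
      2179
      [NumIs.V.of 10000 3600 3700, NumIs.V.of 10000 (-1145) (-870), NumIs.V.of 10000 7133 7400, NumIs.V.of 10000 (-1230) (-150)] = true)
    ⟨by norm_num; linarith only [h1], by norm_num; linarith only [h1]⟩ ⟨by norm_num; linarith only [h2], by norm_num; linarith only [h2]⟩
    ⟨by norm_num; linarith only [h1, a2], by norm_num; linarith only [h3]⟩ ⟨by norm_num; linarith only [h4], by norm_num; linarith only [h4]⟩
    (by
      intro e he
      simp only [List.mem_cons, List.not_mem_nil, or_false] at he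
      rcases he with rfl | rfl | rfl <;>
        (simp only [zge, zle, cge, cle, ypos, yneg, tv, E.val, NumIs.E.val, MR.tE_val, NumIs.lkR]
         norm_num
         linarith only [h1, a2, h3]))
  rw [E.val, gwE_val] at h
  simp only [gT, tv, tK, E.val, NumIs.E.val, NumIs.lkR] at h
  push_cast at h
  linarith only [h]

theorem pE_34 {x T m t : ℝ} (h1 : 3600 / 10000 ≤ x ∧ x ≤ 3700 / 10000)
    (h2 : -(1145 / 10000) ≤ T ∧ T ≤ -(870 / 10000)) (h3 : 7400 / 10000 ≤ m ∧ m ≤ 7500 / 10000)
    (h4 : -(1230 / 10000) ≤ t ∧ t ≤ -(150 / 10000)) (a0 : 1 / 1 ≤ 26 / 100 + m) (a1 : 13 / 12 ≤ x + m) :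
    35 / 1000 < gw (26 / 100) T x (MR.tR 65 29 x T) m t (lb 3 (-1) (26 / 100 + m) (T + t))
      (ub 4 (-1) (x + m) (MR.tR 65 29 x T + t)) := by
  have h := posT (G := sub (gwE 65 29 26 tv 3 4 (-1) (-1)) (q 35 1000)) (al := [cle 26 1 1, zle 13 12])
    (fuel := 26) (c := 2179)
    (x := x) (T := T) (x' := m) (t' := t)
    (by decide +kernel : chkT [sub (gwE 65 29 26 tv 3 4 (-1) (-1)) (q 35 1000), cle 26 1 1, zle 13 12] 26
      2179
      [NumIs.V.of 10000 3600 3700, NumIs.V.of 10000 (-1145) (-870), NumIs.V.of 10000 7400 7500, NumIs.V.of 10000 (-1230) (-150)] = true)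
    ⟨by norm_num; linarith only [h1], by norm_num; linarith only [h1]⟩ ⟨by norm_num; linarith only [h2], by norm_num; linarith only [h2]⟩
    ⟨by norm_num; linarith only [h3], by norm_num; linarith only [h3]⟩ ⟨by norm_num; linarith only [h4], by norm_num; linarith only [h4]⟩
    (by
      intro e he
      simp only [List.mem_cons, List.not_mem_nil, or_false] at he
      rcases he with rfl | rfl <;>
        (simp only [zge, zle, cge, cle, ypos, yneg, tv, E.val, NumIs.E.val, MR.tE_val, NumIs.lkR]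
         norm_num
         linarith only [h3, h1]))
  rw [E.val, gwE_val] at h
  simp only [gT, tv, tK, E.val, NumIs.E.val, NumIs.lkR] at h
  push_cast at h
  linarith only [h]

theorem pE_34r {x T m t : ℝ} (h1 : 3600 / 10000 ≤ x ∧ x ≤ 3700 / 10000)
    (h2 : -(1145 / 10000) ≤ T ∧ T ≤ -(870 / 10000)) (h3 : 7500 / 10000 ≤ m ∧ m ≤ 8000 / 10000)
    (h4 : -(1230 / 10000) ≤ t ∧ t ≤ 0 / 10000) (a0 : 1 / 1 ≤ 26 / 100 + m) (a1 : 13 / 12 ≤ x + m) (a2 : t + 3 / 10 * (8 / 10 - m) ≤ 0) :
    35 / 1000 < gw (26 / 100) T x (MR.tR 65 29 x T) m t (lb 3 (-1) (26 / 100 + m) (T + t))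
      (ub 4 (-1) (x + m) (MR.tR 65 29 x T + t)) := by
  have h := posT (G := sub (gwE 65 29 26 tv 3 4 (-1) (-1)) (q 35 1000)) (al := [cle 26 1 1, zle 13 12, emb (.add (.var 3) (.mul (.q 3 10) (.sub (.q 8 10) (.var 2))))])
    (fuel := 26) (c := 142837811)
    (x := x) (T := T) (x' := m) (t' := t)
    (by decide +kernel : chkT [sub (gwE 65 29 26 tv 3 4 (-1) (-1)) (q 35 1000), cle 26 1 1, zle 13 12, emb (.add (.var 3) (.mul (.q 3 10) (.sub (.q 8 10) (.var 2))))] 26
      142837811
      [NumIs.V.of 10000 3600 3700, NumIs.V.of 10000 (-1145) (-870), NumIs.V.of 10000 7500 8000, NumIs.V.of 10000 (-1230) 0] = true)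
    ⟨by norm_num; linarith only [h1], by norm_num; linarith only [h1]⟩ ⟨by norm_num; linarith only [h2], by norm_num; linarith only [h2]⟩
    ⟨by norm_num; linarith only [h3], by norm_num; linarith only [h3]⟩ ⟨by norm_num; linarith only [h4], by norm_num; linarith only [h4]⟩
    (by
      intro e he
      simp only [List.mem_cons, List.not_mem_nil, or_false] at he
      rcases he with rfl | rfl | rfl <;>
        (simp only [zge, zle, cge, cle, ypos, yneg, tv, E.val, NumIs.E.val, MR.tE_val, NumIs.lkR]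
         norm_num
         linarith only [h3, h1, a2]))
  rw [E.val, gwE_val] at h
  simp only [gT, tv, tK, E.val, NumIs.E.val, NumIs.lkR] at h
  push_cast at h
  linarith only [h]

theorem e2_11 {x T m t : ℝ} (h1 : 3600 / 10000 ≤ x ∧ x ≤ 3850 / 10000)
    (h2 : 460 / 10000 ≤ T ∧ T ≤ 940 / 10000) (h3 : 2276 / 10000 ≤ m ∧ m ≤ 5567 / 10000)
    (h4 : 80 / 10000 ≤ t ∧ t ≤ 770 / 10000) (a0 : x + m ≤ 11 / 12) (a1 : T + t ≤ 148 / 1000) (a2 : 226 / 1000 + 2 / 10 * t ≤ m) :
    -((64 / 1000 + -(27 / 100) * (T + -(46 / 1000)) + (x - 36 / 100))) < g1 (26 / 100) T x (MR.tR 65 29 x T) m t (lb 1 1 (26 / 100 + m) (T + t))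
      (ub 1 1 (x + m) (MR.tR 65 29 x T + t)) := by
  have h := posT (G := add (g1E 65 29 26 tv 1 1 1 1) (gT 64 1000 (-27) 100 (-46) 1000)) (al := [zge 11 12, emb (.sub (.add (.var 1) (.var 3)) (.q 148 1000)), emb (.sub (.add (.q 226 1000) (.mul (.q 2 10) (.var 3))) (.var 2))])
    (fuel := 28) (c := 252256747685227408938226159818368399880738900110585088815392077936894065603257122)
    (x := x) (T := T) (x' := m) (t' := t)
    (by decide +kernel : chkT [add (g1E 65 29 26 tv 1 1 1 1) (gT 64 1000 (-27) 100 (-46) 1000), zge 11 12, emb (.sub (.add (.var 1) (.var 3)) (.q 148 1000)), emb (.sub (.add (.q 226 1000) (.mul (.q 2 10) (.var 3))) (.var 2))] 28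
      252256747685227408938226159818368399880738900110585088815392077936894065603257122
      [NumIs.V.of 10000 3600 3850, NumIs.V.of 10000 460 940, NumIs.V.of 10000 2276 5567, NumIs.V.of 10000 80 770] = true)
    ⟨by norm_num; linarith only [h1], by norm_num; linarith only [h1]⟩ ⟨by norm_num; linarith only [h2], by norm_num; linarith only [h2]⟩
    ⟨by norm_num; linarith only [h3], by norm_num; linarith only [h3]⟩ ⟨by norm_num; linarith only [h4], by norm_num; linarith only [h4]⟩
    (by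
      intro e he
      simp only [List.mem_cons, List.not_mem_nil, or_false] at he
      rcases he with rfl | rfl | rfl <;>
        (simp only [zge, zle, cge, cle, ypos, yneg, tv, E.val, NumIs.E.val, MR.tE_val, NumIs.lkR]
         norm_num
         linarith only [a0, a1, a2]))
  rw [E.val, g1E_val] at h
  simp only [gT, tv, tK, E.val, NumIs.E.val, NumIs.lkR] at h
  push_cast at h
  linarith only [h]

theorem e2_12 {x T m t : ℝ} (h1 : 3600 / 10000 ≤ x ∧ x ≤ 3850 / 10000)
    (h2 : 460 / 10000 ≤ T ∧ T ≤ 940 / 10000) (h3 : 5316 / 10000 ≤ m ∧ m ≤ 5600 / 10000)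
    (h4 : 80 / 10000 ≤ t ∧ t ≤ 770 / 10000) (a0 : 11 / 12 ≤ x + m) (a1 : x + m ≤ 1 / 1) (a2 : T + t ≤ 148 / 1000) (a3 : 226 / 1000 + 2 / 10 * t ≤ m) :
    -((64 / 1000 + -(27 / 100) * (T + -(46 / 1000)) + (x - 36 / 100))) < g1 (26 / 100) T x (MR.tR 65 29 x T) m t (lb 1 1 (26 / 100 + m) (T + t))
      (ub 2 1 (x + m) (MR.tR 65 29 x T + t)) := by
  have h := posT (G := add (g1E 65 29 26 tv 1 2 1 1) (gT 64 1000 (-27) 100 (-46) 1000)) (al := [zle 11 12, zge 1 1, emb (.sub (.add (.var 1) (.var 3)) (.q 148 1000)), emb (.sub (.add (.q 226 1000) (.mul (.q 2 10) (.var 3))) (.var 2))])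
    (fuel := 28) (c := 8)
    (x := x) (T := T) (x' := m) (t' := t)
    (by decide +kernel : chkT [add (g1E 65 29 26 tv 1 2 1 1) (gT 64 1000 (-27) 100 (-46) 1000), zle 11 12, zge 1 1, emb (.sub (.add (.var 1) (.var 3)) (.q 148 1000)), emb (.sub (.add (.q 226 1000) (.mul (.q 2 10) (.var 3))) (.var 2))] 28
      8
      [NumIs.V.of 10000 3600 3850, NumIs.V.of 10000 460 940, NumIs.V.of 10000 5316 5600, NumIs.V.of 10000 80 770] = true)
    ⟨by norm_num; linarith only [h1], by norm_num; linarith only [h1]⟩ ⟨by norm_num; linarith only [h2], by norm_num; linarith only [h2]⟩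
    ⟨by norm_num; linarith only [h1, a0], by norm_num; linarith only [h3]⟩ ⟨by norm_num; linarith only [h4], by norm_num; linarith only [h4]⟩
    (by
      intro e he
      simp only [List.mem_cons, List.not_mem_nil, or_false] at he
      rcases he with rfl | rfl | rfl | rfl <;>
        (simp only [zge, zle, cge, cle, ypos, yneg, tv, E.val, NumIs.E.val, MR.tE_val, NumIs.lkR]
         norm_num
         linarith only [a0, h1, h3, a2, h4]))
  rw [E.val, g1E_val] at h
  simp only [gT, tv, tK, E.val, NumIs.E.val, NumIs.lkR] at h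
  push_cast at h
  linarith only [h]

theorem eE_11 {x T m t : ℝ} (h1 : 3600 / 10000 ≤ x ∧ x ≤ 3700 / 10000)
    (h2 : 870 / 10000 ≤ T ∧ T ≤ 1145 / 10000) (h3 : 1400 / 10000 ≤ m ∧ m ≤ 3700 / 10000)
    (h4 : -(450 / 10000) ≤ t ∧ t ≤ -(235 / 10000)) :
    -(35 / 1000) < g1 (26 / 100) T x (MR.tR 65 29 x T) m t (lb 1 1 (26 / 100 + m) (T + t))
      (ub 1 1 (x + m) (MR.tR 65 29 x T + t)) := by
  have h := posT (G := add (g1E 65 29 26 tv 1 1 1 1) (q 35 1000)) (al := [])
    (fuel := 28) (c := 2178)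
    (x := x) (T := T) (x' := m) (t' := t)
    (by decide +kernel : chkT [add (g1E 65 29 26 tv 1 1 1 1) (q 35 1000)] 28
      2178
      [NumIs.V.of 10000 3600 3700, NumIs.V.of 10000 870 1145, NumIs.V.of 10000 1400 3700, NumIs.V.of 10000 (-450) (-235)] = true)
    ⟨by norm_num; linarith only [h1], by norm_num; linarith only [h1]⟩ ⟨by norm_num; linarith only [h2], by norm_num; linarith only [h2]⟩
    ⟨by norm_num; linarith only [h3], by norm_num; linarith only [h3]⟩ ⟨by norm_num; linarith only [h4], by norm_num; linarith only [h4]⟩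
    (by simp)
  rw [E.val, g1E_val] at h
  simp only [gT, tv, tK, E.val, NumIs.E.val, NumIs.lkR] at h
  push_cast at h
  linarith only [h]

end R3V

end Pool.Agent.Work.MP_b30479_gtS.G2

end

section

/-!
# Part of `R3VC`
-/
set_option linter.unusedVariables false
set_option linter.unusedTactic false
set_option linter.unreachableTactic false
set_option linter.unusedSimpArgs false
set_option linter.unnecessarySeqFocus false

set_option deprecated.oldSectionVars true

namespace Pool.Agent.Work.MP_b30479_gtS.G2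

open VOL NumUs

namespace R3V

open E

theorem d2_12 {x T m t : ℝ} (h1 : 3850 / 10000 ≤ x ∧ x ≤ 6500 / 10000)
    (h2 : 460 / 10000 ≤ T ∧ T ≤ 940 / 10000) (h3 : 2666 / 10000 ≤ m ∧ m ≤ 6150 / 10000)
    (h4 : 0 / 10000 ≤ t ∧ t ≤ 770 / 10000) (a0 : 26 / 100 + m ≤ 11 / 12) (a1 : 11 / 12 ≤ x + m) (a2 : x + m ≤ 1 / 1) (a3 : T + t ≤ 148 / 1000) :
    -(875 / 10000 + 115 / 100 * (x - 385 / 1000)) < g1 (26 / 100) T x (MR.tR 65 29 x T) m t (lb 1 1 (26 / 100 + m) (T + t))
      (ub 2 1 (x + m) (MR.tR 65 29 x T + t)) := by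
  have h := posT (G := add (g1E 65 29 26 tv 1 2 1 1) (gl 875 10000 115 100 385 1000)) (al := [cge 26 11 12, zle 11 12, zge 1 1, emb (.sub (.add (.var 1) (.var 3)) (.q 148 1000))])
    (fuel := 28) (c := 44185875684058915053111898508795906)
    (x := x) (T := T) (x' := m) (t' := t)
    (by decide +kernel : chkT [add (g1E 65 29 26 tv 1 2 1 1) (gl 875 10000 115 100 385 1000), cge 26 11 12, zle 11 12, zge 1 1, emb (.sub (.add (.var 1) (.var 3)) (.q 148 1000))] 28
      44185875684058915053111898508795906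
      [NumIs.V.of 10000 3850 6500, NumIs.V.of 10000 460 940, NumIs.V.of 10000 2666 6150, NumIs.V.of 10000 0 770] = true)
    ⟨by norm_num; linarith only [h1], by norm_num; linarith only [h1]⟩ ⟨by norm_num; linarith only [h2], by norm_num; linarith only [h2]⟩
    ⟨by norm_num; linarith only [h1, a1], by norm_num; linarith only [h3]⟩ ⟨by norm_num; linarith only [h4], by norm_num; linarith only [h4]⟩
    (by
      intro e he
      simp only [List.mem_cons, List.not_mem_nil, or_false] at he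
      rcases he with rfl | rfl | rfl | rfl <;>
        (simp only [zge, zle, cge, cle, ypos, yneg, tv, E.val, NumIs.E.val, MR.tE_val, NumIs.lkR]
         norm_num
         linarith only [h3, a1, a2, a3]))
  rw [E.val, g1E_val] at h
  simp only [gl, tv, tK, E.val, NumIs.E.val, NumIs.lkR] at h
  push_cast at h
  linarith only [h]

theorem d2_13 {x T m t : ℝ} (h1 : 3850 / 10000 ≤ x ∧ x ≤ 6500 / 10000)
    (h2 : 460 / 10000 ≤ T ∧ T ≤ 940 / 10000) (h3 : 3500 / 10000 ≤ m ∧ m ≤ 6567 / 10000)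
    (h4 : 0 / 10000 ≤ t ∧ t ≤ 770 / 10000) (a0 : 26 / 100 + m ≤ 11 / 12) (a1 : 1 / 1 ≤ x + m) (a2 : x + m ≤ 13 / 12) (a3 : T + t ≤ 148 / 1000) :
    -(875 / 10000 + 115 / 100 * (x - 385 / 1000)) < g1 (26 / 100) T x (MR.tR 65 29 x T) m t (lb 1 1 (26 / 100 + m) (T + t))
      (ub 3 1 (x + m) (MR.tR 65 29 x T + t)) := by
  have h := posT (G := add (g1E 65 29 26 tv 1 3 1 1) (gl 875 10000 115 100 385 1000)) (al := [cge 26 11 12, zle 1 1, zge 13 12, emb (.sub (.add (.var 1) (.var 3)) (.q 148 1000))])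
    (fuel := 28) (c := 157385187522863341570)
    (x := x) (T := T) (x' := m) (t' := t)
    (by decide +kernel : chkT [add (g1E 65 29 26 tv 1 3 1 1) (gl 875 10000 115 100 385 1000), cge 26 11 12, zle 1 1, zge 13 12, emb (.sub (.add (.var 1) (.var 3)) (.q 148 1000))] 28
      157385187522863341570
      [NumIs.V.of 10000 3850 6500, NumIs.V.of 10000 460 940, NumIs.V.of 10000 3500 6567, NumIs.V.of 10000 0 770] = true)
    ⟨by norm_num; linarith only [h1], by norm_num; linarith only [h1]⟩ ⟨by norm_num; linarith only [h2], by norm_num; linarith only [h2]⟩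
    ⟨by norm_num; linarith only [h3], by norm_num; linarith only [h3]⟩ ⟨by norm_num; linarith only [h4], by norm_num; linarith only [h4]⟩
    (by
      intro e he
      simp only [List.mem_cons, List.not_mem_nil, or_false] at he
      rcases he with rfl | rfl | rfl | rfl <;>
        (simp only [zge, zle, cge, cle, ypos, yneg, tv, E.val, NumIs.E.val, MR.tE_val, NumIs.lkR]
         norm_num
         linarith only [a0, a1, a2, a3]))
  rw [E.val, g1E_val] at h
  simp only [gl, tv, tK, E.val, NumIs.E.val, NumIs.lkR] at h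
  push_cast at h
  linarith only [h]

theorem d2_14 {x T m t : ℝ} (h1 : 3850 / 10000 ≤ x ∧ x ≤ 6500 / 10000)
    (h2 : 460 / 10000 ≤ T ∧ T ≤ 940 / 10000) (h3 : 4333 / 10000 ≤ m ∧ m ≤ 6567 / 10000)
    (h4 : 0 / 10000 ≤ t ∧ t ≤ 770 / 10000) (a0 : 26 / 100 + m ≤ 11 / 12) (a1 : 13 / 12 ≤ x + m) (a2 : T + t ≤ 148 / 1000) :
    -(875 / 10000 + 115 / 100 * (x - 385 / 1000)) < g1 (26 / 100) T x (MR.tR 65 29 x T) m t (lb 1 1 (26 / 100 + m) (T + t))
      (ub 4 1 (x + m) (MR.tR 65 29 x T + t)) := by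
  have h := posT (G := add (g1E 65 29 26 tv 1 4 1 1) (gl 875 10000 115 100 385 1000)) (al := [cge 26 11 12, zle 13 12, emb (.sub (.add (.var 1) (.var 3)) (.q 148 1000))])
    (fuel := 28) (c := 817178958993700791559532846058282492929441598099556896)
    (x := x) (T := T) (x' := m) (t' := t)
    (by decide +kernel : chkT [add (g1E 65 29 26 tv 1 4 1 1) (gl 875 10000 115 100 385 1000), cge 26 11 12, zle 13 12, emb (.sub (.add (.var 1) (.var 3)) (.q 148 1000))] 28
      817178958993700791559532846058282492929441598099556896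
      [NumIs.V.of 10000 3850 6500, NumIs.V.of 10000 460 940, NumIs.V.of 10000 4333 6567, NumIs.V.of 10000 0 770] = true)
    ⟨by norm_num; linarith only [h1], by norm_num; linarith only [h1]⟩ ⟨by norm_num; linarith only [h2], by norm_num; linarith only [h2]⟩
    ⟨by norm_num; linarith only [h1, a1], by norm_num; linarith only [h3]⟩ ⟨by norm_num; linarith only [h4], by norm_num; linarith only [h4]⟩
    (by
      intro e he
      simp only [List.mem_cons, List.not_mem_nil, or_false] at he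
      rcases he with rfl | rfl | rfl <;>
        (simp only [zge, zle, cge, cle, ypos, yneg, tv, E.val, NumIs.E.val, MR.tE_val, NumIs.lkR]
         norm_num
         linarith only [a0, a1, a2]))
  rw [E.val, g1E_val] at h
  simp only [gl, tv, tK, E.val, NumIs.E.val, NumIs.lkR] at h
  push_cast at h
  linarith only [h]

theorem d2_23 {x T m t : ℝ} (h1 : 3850 / 10000 ≤ x ∧ x ≤ 6500 / 10000)
    (h2 : 460 / 10000 ≤ T ∧ T ≤ 940 / 10000) (h3 : 6566 / 10000 ≤ m ∧ m ≤ 6984 / 10000)
    (h4 : 0 / 10000 ≤ t ∧ t ≤ 770 / 10000) (a0 : 11 / 12 ≤ 26 / 100 + m) (a1 : 26 / 100 + m ≤ 1 / 1) (a2 : 1 / 1 ≤ x + m) (a3 : x + m ≤ 13 / 12) (a4 : T + t ≤ 148 / 1000) :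
    -(875 / 10000 + 115 / 100 * (x - 385 / 1000)) < g1 (26 / 100) T x (MR.tR 65 29 x T) m t (lb 2 1 (26 / 100 + m) (T + t))
      (ub 3 1 (x + m) (MR.tR 65 29 x T + t)) := by
  have h := posT (G := add (g1E 65 29 26 tv 2 3 1 1) (gl 875 10000 115 100 385 1000)) (al := [cle 26 11 12, cge 26 1 1, zle 1 1, zge 13 12, emb (.sub (.add (.var 1) (.var 3)) (.q 148 1000))])
    (fuel := 28) (c := 143132720)
    (x := x) (T := T) (x' := m) (t' := t)
    (by decide +kernel : chkT [add (g1E 65 29 26 tv 2 3 1 1) (gl 875 10000 115 100 385 1000), cle 26 11 12, cge 26 1 1, zle 1 1, zge 13 12, emb (.sub (.add (.var 1) (.var 3)) (.q 148 1000))] 28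
      143132720
      [NumIs.V.of 10000 3850 6500, NumIs.V.of 10000 460 940, NumIs.V.of 10000 6566 6984, NumIs.V.of 10000 0 770] = true)
    ⟨by norm_num; linarith only [h1], by norm_num; linarith only [h1]⟩ ⟨by norm_num; linarith only [h2], by norm_num; linarith only [h2]⟩
    ⟨by norm_num; linarith only [a0], by norm_num; linarith only [h3]⟩ ⟨by norm_num; linarith only [h4], by norm_num; linarith only [h4]⟩
    (by
      intro e he
      simp only [List.mem_cons, List.not_mem_nil, or_false] at he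
      rcases he with rfl | rfl | rfl | rfl | rfl <;>
        (simp only [zge, zle, cge, cle, ypos, yneg, tv, E.val, NumIs.E.val, MR.tE_val, NumIs.lkR]
         norm_num
         linarith only [a0, h3, h1, a3, a4]))
  rw [E.val, g1E_val] at h
  simp only [gl, tv, tK, E.val, NumIs.E.val, NumIs.lkR] at h
  push_cast at h
  linarith only [h]

end R3V

end Pool.Agent.Work.MP_b30479_gtS.G2

end
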