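import Pool.Agent.Work.MP_b30479_gt.TBS.G2.R3P
import Pool.Agent.Work.MP_b30479_gt.TBS.NumU.Tree
import Pool.Agent.Work.MP_b30479_gt.TBS.G2.MRBase

section

/-!
# Right ramp of the slot-2 hinge of an interior region with three crossings: rows of the own side

`w` is the hinge, `v` the inner variable.
-/

set_option linter.unusedSimpArgs false
set_option linter.unusedVariables false

set_option deprecated.oldSectionVars true

namespace Pool.Agent.Work.MP_b30479_gtS.G2

open VOL NumIs

namespace MR

open E

/-- `3 | ring`, shift `π` -/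
theorem r32_ring_b {w v : ℂ} {T : ℝ} (hT : -(10 / 10000) ≤ T) (hT' : T ≤ 570 / 10000)
    (hw : w.im = tR 60 30 w.re T) (hx : 5000 / 10000 ≤ w.re) (hx' : w.re ≤ 6000 / 10000)
    (v0 : 0 / 10000 ≤ v.re) (v1 : v.re ≤ 8000 / 10000) (i0 : -(1060 / 10000) ≤ v.im) (i1 : v.im ≤ 0 / 10000) :
    S2 1 (mR 30 T) w v < -(44 / 100) - Real.pi * mR 30 T := by
  have hF : F_r32_ring_b.val [w.re, T, v.re, v.im] = -(44 / 100) - Real.pi * mR 30 T := by
    simp only [F_r32_ring_b, E.val, mE_val]
    push_cast
    ring
  rw [← hF]
  have hre : (w + v).re = w.re + v.re := Complex.add_re _ _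
  have him : (w + v).im = w.im + v.im := Complex.add_im _ _
  apply S2_zone (by linarith only [hx]) (by linarith only [hx']) (by linarith only [v0]) (by linarith only [hx', v1])
  · intro h5
    rw [hw]
    exact z2S (F := F_r32_ring_b) (XM := 60) (cr := 30) (fuel := 24) (h := (by decide +kernel : chk [S2E 60 30 F_r32_ring_b, sub uE (q 5 6)] 24 [V.of 10000 5000 6000, V.of 10000 (-10) 570, V.of 10000 0 3334, V.of 10000 (-1060) 0] = true))
      ⟨by norm_num; linarith only [hx], by norm_num; linarith only [hx']⟩ ⟨by norm_num; linarith only [hT], by norm_num; linarith only [hT']⟩ ⟨by norm_num; linarith only [v0], by norm_num; linarith only [hx, h5]⟩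
      ⟨by norm_num; linarith only [i0], by norm_num; linarith only [i1]⟩ h5
  · intro h5 h6
    rcases le_total T 0 with hT0 | hT0
    · rcases le_total (w.im + v.im) 0 with hs | hs
      · refine ⟨((0 : ℤ) : ℝ), by simpa using mul_YY_00 (mR_nonneg hT0) (by rw [hre]; linarith only [h5]) (by rw [him]; exact hs), ?_⟩
        rw [hw] at hs ⊢
        exact z2N (s := yE 60 30) (F := F_r32_ring_b) (r := 0) (XM := 60) (cr := 30) (fuel := 24) (h := (by decide +kernel : chk [N2E 60 30 F_r32_ring_b 0, sub (q 5 6) uE, sub uE (q 7 6), yE 60 30] 24 [V.of 10000 5000 6000, V.of 10000 (-10) 0, V.of 10000 2333 6667, V.of 10000 (-1060) 0] = true))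
            ⟨by norm_num; linarith only [hx], by norm_num; linarith only [hx']⟩ ⟨by norm_num; linarith only [hT], by norm_num; linarith only [hT0]⟩ ⟨by norm_num; linarith only [hx', h5], by norm_num; linarith only [hx, h6]⟩
            ⟨by norm_num; linarith only [i0], by norm_num; linarith only [i1]⟩ h5 h6 (yE_le hs)
      · refine ⟨((1 : ℤ) : ℝ), by simpa using mul_YY_01 (mR_nonneg hT0) (by rw [hre]; linarith only [h5]) (by rw [hre]; linarith only [hx', v1]), ?_⟩
        rw [hw] at hs ⊢
        exact z2N (s := neg (yE 60 30)) (F := F_r32_ring_b) (r := 1) (XM := 60) (cr := 30) (fuel := 24) (h := (by decide +kernel : chk [N2E 60 30 F_r32_ring_b 1, sub (q 5 6) uE, sub uE (q 7 6), neg (yE 60 30)] 24 [V.of 10000 5000 6000, V.of 10000 (-10) 0, V.of 10000 2333 6667, V.of 10000 (-1060) 0] = true))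
            ⟨by norm_num; linarith only [hx], by norm_num; linarith only [hx']⟩ ⟨by norm_num; linarith only [hT], by norm_num; linarith only [hT0]⟩ ⟨by norm_num; linarith only [hx', h5], by norm_num; linarith only [hx, h6]⟩
            ⟨by norm_num; linarith only [i0], by norm_num; linarith only [i1]⟩ h5 h6 (neg_yE_le hs)
    · refine ⟨((-1 : ℤ) : ℝ), by simpa using mul_YY_11 (mR_nonpos hT0) (by rw [hre]; linarith only [h5]) (by rw [hre]; linarith only [hx', v1]), ?_⟩
      rw [hw]
      exact z2N (s := q 0 1) (F := F_r32_ring_b) (r := (-1)) (XM := 60) (cr := 30) (fuel := 24) (h := (by decide +kernel : chk [N2E 60 30 F_r32_ring_b (-1), sub (q 5 6) uE, sub uE (q 7 6), q 0 1] 24 [V.of 10000 5000 6000, V.of 10000 0 570, V.of 10000 2333 6667, V.of 10000 (-1060) 0] = true))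
            ⟨by norm_num; linarith only [hx], by norm_num; linarith only [hx']⟩ ⟨by norm_num; linarith only [hT0], by norm_num; linarith only [hT']⟩ ⟨by norm_num; linarith only [hx', h5], by norm_num; linarith only [hx, h6]⟩
            ⟨by norm_num; linarith only [i0], by norm_num; linarith only [i1]⟩ h5 h6 q0_val
  · intro h5
    rcases le_total T 0 with hT0 | hT0
    · rcases le_total (w.im + v.im) 0 with hs | hs
      · refine ⟨((0 : ℤ) : ℝ), by simpa using mul_YY_00 (mR_nonneg hT0) (by rw [hre]; linarith only [h5]) (by rw [him]; exact hs), ?_⟩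
        rw [hw] at hs ⊢
        exact z2B (s := yE 60 30) (F := F_r32_ring_b) (r := 0) (XM := 60) (cr := 30) (fuel := 24) (h := (by decide +kernel : chk [B2E 60 30 F_r32_ring_b 0, sub (q 7 6) uE, yE 60 30] 24 [V.of 10000 5000 6000, V.of 10000 (-10) 0, V.of 10000 5666 8000, V.of 10000 (-1060) 0] = true))
            ⟨by norm_num; linarith only [hx], by norm_num; linarith only [hx']⟩ ⟨by norm_num; linarith only [hT], by norm_num; linarith only [hT0]⟩ ⟨by norm_num; linarith only [hx', h5], by norm_num; linarith only [v1]⟩
            ⟨by norm_num; linarith only [i0], by norm_num; linarith only [i1]⟩ h5 (yE_le hs)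
      · refine ⟨((1 : ℤ) : ℝ), by simpa using mul_YY_01 (mR_nonneg hT0) (by rw [hre]; linarith only [h5]) (by rw [hre]; linarith only [hx', v1]), ?_⟩
        rw [hw] at hs ⊢
        exact z2B (s := neg (yE 60 30)) (F := F_r32_ring_b) (r := 1) (XM := 60) (cr := 30) (fuel := 24) (h := (by decide +kernel : chk [B2E 60 30 F_r32_ring_b 1, sub (q 7 6) uE, neg (yE 60 30)] 24 [V.of 10000 5000 6000, V.of 10000 (-10) 0, V.of 10000 5666 8000, V.of 10000 (-1060) 0] = true))
            ⟨by norm_num; linarith only [hx], by norm_num; linarith only [hx']⟩ ⟨by norm_num; linarith only [hT], by norm_num; linarith only [hT0]⟩ ⟨by norm_num; linarith only [hx', h5], by norm_num; linarith only [v1]⟩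
            ⟨by norm_num; linarith only [i0], by norm_num; linarith only [i1]⟩ h5 (neg_yE_le hs)
    · refine ⟨((-1 : ℤ) : ℝ), by simpa using mul_YY_11 (mR_nonpos hT0) (by rw [hre]; linarith only [h5]) (by rw [hre]; linarith only [hx', v1]), ?_⟩
      rw [hw]
      exact z2B (s := q 0 1) (F := F_r32_ring_b) (r := (-1)) (XM := 60) (cr := 30) (fuel := 24) (h := (by decide +kernel : chk [B2E 60 30 F_r32_ring_b (-1), sub (q 7 6) uE, q 0 1] 24 [V.of 10000 5000 6000, V.of 10000 0 570, V.of 10000 5666 8000, V.of 10000 (-1060) 0] = true))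
            ⟨by norm_num; linarith only [hx], by norm_num; linarith only [hx']⟩ ⟨by norm_num; linarith only [hT0], by norm_num; linarith only [hT']⟩ ⟨by norm_num; linarith only [hx', h5], by norm_num; linarith only [v1]⟩
            ⟨by norm_num; linarith only [i0], by norm_num; linarith only [i1]⟩ h5 q0_val

end MR

end Pool.Agent.Work.MP_b30479_gtS.G2

end

section

/-!
# Part of `R32B`
-/
set_option linter.unusedSimpArgs false
set_option linter.unusedVariables false

set_option deprecated.oldSectionVars true

namespace Pool.Agent.Work.MP_b30479_gtS.G2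

open VOL NumIs

namespace MR

open E

/-- `3 | 2` -/
theorem r32_two {w v : ℂ} {T : ℝ} (hT : -(570 / 10000) ≤ T) (hT' : T ≤ 50 / 10000)
    (hw : w.im = tR 60 30 w.re T) (hx : 3000 / 10000 ≤ w.re) (hx' : w.re ≤ 5600 / 10000)
    (v0 : 0 / 10000 ≤ v.re) (v1 : v.re ≤ 8000 / 10000) (i0 : -(1160 / 10000) ≤ v.im) (i1 : v.im ≤ 50 / 10000) :
    S2 1 (mR 30 T) w v < -(15 / 100) + 32 / 10 * T := by
  have hF : F_r32_two.val [w.re, T, v.re, v.im] = -(15 / 100) + 32 / 10 * T := by
    simp only [F_r32_two, E.val, lkR]
    push_cast
    ring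
  rw [← hF]
  have hre : (w + v).re = w.re + v.re := Complex.add_re _ _
  have him : (w + v).im = w.im + v.im := Complex.add_im _ _
  apply S2_zone (by linarith only [hx]) (by linarith only [hx']) (by linarith only [v0]) (by linarith only [hx', v1])
  · intro h5
    rw [hw]
    exact z2S (F := F_r32_two) (XM := 60) (cr := 30) (fuel := 24) (h := (by decide +kernel : chk [S2E 60 30 F_r32_two, sub uE (q 5 6)] 24 [V.of 10000 3000 5600, V.of 10000 (-570) 50, V.of 10000 0 5334, V.of 10000 (-1160) 50] = true))
      ⟨by norm_num; linarith only [hx], by norm_num; linarith only [hx']⟩ ⟨by norm_num; linarith only [hT], by norm_num; linarith only [hT']⟩ ⟨by norm_num; linarith only [v0], by norm_num; linarith only [hx, h5]⟩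
      ⟨by norm_num; linarith only [i0], by norm_num; linarith only [i1]⟩ h5
  · intro h5 h6
    rcases le_total T 0 with hT0 | hT0
    · rcases le_total (w.im + v.im) 0 with hs | hs
      · refine ⟨((0 : ℤ) : ℝ), by simpa using mul_YY_00 (mR_nonneg hT0) (by rw [hre]; linarith only [h5]) (by rw [him]; exact hs), ?_⟩
        rw [hw] at hs ⊢
        exact z2N (s := yE 60 30) (F := F_r32_two) (r := 0) (XM := 60) (cr := 30) (fuel := 24) (h := (by decide +kernel : chk [N2E 60 30 F_r32_two 0, sub (q 5 6) uE, sub uE (q 7 6), yE 60 30] 24 [V.of 10000 3000 5600, V.of 10000 (-570) 0, V.of 10000 2733 8000, V.of 10000 (-1160) 50] = true))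
            ⟨by norm_num; linarith only [hx], by norm_num; linarith only [hx']⟩ ⟨by norm_num; linarith only [hT], by norm_num; linarith only [hT0]⟩ ⟨by norm_num; linarith only [hx', h5], by norm_num; linarith only [v1]⟩
            ⟨by norm_num; linarith only [i0], by norm_num; linarith only [i1]⟩ h5 h6 (yE_le hs)
      · refine ⟨((1 : ℤ) : ℝ), by simpa using mul_YY_01 (mR_nonneg hT0) (by rw [hre]; linarith only [h5]) (by rw [hre]; linarith only [hx', v1]), ?_⟩
        rw [hw] at hs ⊢
        exact z2N (s := neg (yE 60 30)) (F := F_r32_two) (r := 1) (XM := 60) (cr := 30) (fuel := 24) (h := (by decide +kernel : chk [N2E 60 30 F_r32_two 1, sub (q 5 6) uE, sub uE (q 7 6), neg (yE 60 30)] 24 [V.of 10000 3000 5600, V.of 10000 (-570) 0, V.of 10000 2733 8000, V.of 10000 (-1160) 50] = true))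
            ⟨by norm_num; linarith only [hx], by norm_num; linarith only [hx']⟩ ⟨by norm_num; linarith only [hT], by norm_num; linarith only [hT0]⟩ ⟨by norm_num; linarith only [hx', h5], by norm_num; linarith only [v1]⟩
            ⟨by norm_num; linarith only [i0], by norm_num; linarith only [i1]⟩ h5 h6 (neg_yE_le hs)
    · refine ⟨((-1 : ℤ) : ℝ), by simpa using mul_YY_11 (mR_nonpos hT0) (by rw [hre]; linarith only [h5]) (by rw [hre]; linarith only [hx', v1]), ?_⟩
      rw [hw]
      exact z2N (s := q 0 1) (F := F_r32_two) (r := (-1)) (XM := 60) (cr := 30) (fuel := 24) (h := (by decide +kernel : chk [N2E 60 30 F_r32_two (-1), sub (q 5 6) uE, sub uE (q 7 6), q 0 1] 24 [V.of 10000 3000 5600, V.of 10000 0 50, V.of 10000 2733 8000, V.of 10000 (-1160) 50] = true))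
            ⟨by norm_num; linarith only [hx], by norm_num; linarith only [hx']⟩ ⟨by norm_num; linarith only [hT0], by norm_num; linarith only [hT']⟩ ⟨by norm_num; linarith only [hx', h5], by norm_num; linarith only [v1]⟩
            ⟨by norm_num; linarith only [i0], by norm_num; linarith only [i1]⟩ h5 h6 q0_val
  · intro h5
    rcases le_total T 0 with hT0 | hT0
    · rcases le_total (w.im + v.im) 0 with hs | hs
      · refine ⟨((0 : ℤ) : ℝ), by simpa using mul_YY_00 (mR_nonneg hT0) (by rw [hre]; linarith only [h5]) (by rw [him]; exact hs), ?_⟩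
        rw [hw] at hs ⊢
        exact z2B (s := yE 60 30) (F := F_r32_two) (r := 0) (XM := 60) (cr := 30) (fuel := 24) (h := (by decide +kernel : chk [B2E 60 30 F_r32_two 0, sub (q 7 6) uE, yE 60 30] 24 [V.of 10000 3000 5600, V.of 10000 (-570) 0, V.of 10000 6066 8000, V.of 10000 (-1160) 50] = true))
            ⟨by norm_num; linarith only [hx], by norm_num; linarith only [hx']⟩ ⟨by norm_num; linarith only [hT], by norm_num; linarith only [hT0]⟩ ⟨by norm_num; linarith only [hx', h5], by norm_num; linarith only [v1]⟩
            ⟨by norm_num; linarith only [i0], by norm_num; linarith only [i1]⟩ h5 (yE_le hs)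
      · refine ⟨((1 : ℤ) : ℝ), by simpa using mul_YY_01 (mR_nonneg hT0) (by rw [hre]; linarith only [h5]) (by rw [hre]; linarith only [hx', v1]), ?_⟩
        rw [hw] at hs ⊢
        exact z2B (s := neg (yE 60 30)) (F := F_r32_two) (r := 1) (XM := 60) (cr := 30) (fuel := 24) (h := (by decide +kernel : chk [B2E 60 30 F_r32_two 1, sub (q 7 6) uE, neg (yE 60 30)] 24 [V.of 10000 3000 5600, V.of 10000 (-570) 0, V.of 10000 6066 8000, V.of 10000 (-1160) 50] = true))
            ⟨by norm_num; linarith only [hx], by norm_num; linarith only [hx']⟩ ⟨by norm_num; linarith only [hT], by norm_num; linarith only [hT0]⟩ ⟨by norm_num; linarith only [hx', h5], by norm_num; linarith only [v1]⟩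
            ⟨by norm_num; linarith only [i0], by norm_num; linarith only [i1]⟩ h5 (neg_yE_le hs)
    · refine ⟨((-1 : ℤ) : ℝ), by simpa using mul_YY_11 (mR_nonpos hT0) (by rw [hre]; linarith only [h5]) (by rw [hre]; linarith only [hx', v1]), ?_⟩
      rw [hw]
      exact z2B (s := q 0 1) (F := F_r32_two) (r := (-1)) (XM := 60) (cr := 30) (fuel := 24) (h := (by decide +kernel : chk [B2E 60 30 F_r32_two (-1), sub (q 7 6) uE, q 0 1] 24 [V.of 10000 3000 5600, V.of 10000 0 50, V.of 10000 6066 8000, V.of 10000 (-1160) 50] = true))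
            ⟨by norm_num; linarith only [hx], by norm_num; linarith only [hx']⟩ ⟨by norm_num; linarith only [hT0], by norm_num; linarith only [hT']⟩ ⟨by norm_num; linarith only [hx', h5], by norm_num; linarith only [v1]⟩
            ⟨by norm_num; linarith only [i0], by norm_num; linarith only [i1]⟩ h5 q0_val

end MR

end Pool.Agent.Work.MP_b30479_gtS.G2

end

section

/-!
# Part of `R32B`
-/
set_option linter.unusedSimpArgs false
set_option linter.unusedVariables false

set_option deprecated.oldSectionVars true

namespace Pool.Agent.Work.MP_b30479_gtS.G2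

open VOL NumIs

namespace MR

open E

/-- `3 | 2`, near the right end -/
theorem r32_two_b {w v : ℂ} {T : ℝ} (hT : -(570 / 10000) ≤ T) (hT' : T ≤ 50 / 10000)
    (hw : w.im = tR 60 30 w.re T) (hx : 5600 / 10000 ≤ w.re) (hx' : w.re ≤ 6000 / 10000)
    (v0 : 0 / 10000 ≤ v.re) (v1 : v.re ≤ 7000 / 10000) (i0 : -(1160 / 10000) ≤ v.im) (i1 : v.im ≤ 50 / 10000) :
    S2 1 (mR 30 T) w v < -(17 / 100) + 34 / 10 * T := by
  have hF : F_r32_two_b.val [w.re, T, v.re, v.im] = -(17 / 100) + 34 / 10 * T := by
    simp only [F_r32_two_b, E.val, lkR]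
    push_cast
    ring
  rw [← hF]
  have hre : (w + v).re = w.re + v.re := Complex.add_re _ _
  have him : (w + v).im = w.im + v.im := Complex.add_im _ _
  apply S2_zone (by linarith only [hx]) (by linarith only [hx']) (by linarith only [v0]) (by linarith only [hx', v1])
  · intro h5
    rw [hw]
    exact z2S (F := F_r32_two_b) (XM := 60) (cr := 30) (fuel := 24) (h := (by decide +kernel : chk [S2E 60 30 F_r32_two_b, sub uE (q 5 6)] 24 [V.of 10000 5600 6000, V.of 10000 (-570) 50, V.of 10000 0 2734, V.of 10000 (-1160) 50] = true))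
      ⟨by norm_num; linarith only [hx], by norm_num; linarith only [hx']⟩ ⟨by norm_num; linarith only [hT], by norm_num; linarith only [hT']⟩ ⟨by norm_num; linarith only [v0], by norm_num; linarith only [hx, h5]⟩
      ⟨by norm_num; linarith only [i0], by norm_num; linarith only [i1]⟩ h5
  · intro h5 h6
    rcases le_total T 0 with hT0 | hT0
    · rcases le_total (w.im + v.im) 0 with hs | hs
      · refine ⟨((0 : ℤ) : ℝ), by simpa using mul_YY_00 (mR_nonneg hT0) (by rw [hre]; linarith only [h5]) (by rw [him]; exact hs), ?_⟩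
        rw [hw] at hs ⊢
        exact z2N (s := yE 60 30) (F := F_r32_two_b) (r := 0) (XM := 60) (cr := 30) (fuel := 24) (h := (by decide +kernel : chk [N2E 60 30 F_r32_two_b 0, sub (q 5 6) uE, sub uE (q 7 6), yE 60 30] 24 [V.of 10000 5600 6000, V.of 10000 (-570) 0, V.of 10000 2333 6067, V.of 10000 (-1160) 50] = true))
            ⟨by norm_num; linarith only [hx], by norm_num; linarith only [hx']⟩ ⟨by norm_num; linarith only [hT], by norm_num; linarith only [hT0]⟩ ⟨by norm_num; linarith only [hx', h5], by norm_num; linarith only [hx, h6]⟩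
            ⟨by norm_num; linarith only [i0], by norm_num; linarith only [i1]⟩ h5 h6 (yE_le hs)
      · refine ⟨((1 : ℤ) : ℝ), by simpa using mul_YY_01 (mR_nonneg hT0) (by rw [hre]; linarith only [h5]) (by rw [hre]; linarith only [hx', v1]), ?_⟩
        rw [hw] at hs ⊢
        exact z2N (s := neg (yE 60 30)) (F := F_r32_two_b) (r := 1) (XM := 60) (cr := 30) (fuel := 24) (h := (by decide +kernel : chk [N2E 60 30 F_r32_two_b 1, sub (q 5 6) uE, sub uE (q 7 6), neg (yE 60 30)] 24 [V.of 10000 5600 6000, V.of 10000 (-570) 0, V.of 10000 2333 6067, V.of 10000 (-1160) 50] = true))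
            ⟨by norm_num; linarith only [hx], by norm_num; linarith only [hx']⟩ ⟨by norm_num; linarith only [hT], by norm_num; linarith only [hT0]⟩ ⟨by norm_num; linarith only [hx', h5], by norm_num; linarith only [hx, h6]⟩
            ⟨by norm_num; linarith only [i0], by norm_num; linarith only [i1]⟩ h5 h6 (neg_yE_le hs)
    · refine ⟨((-1 : ℤ) : ℝ), by simpa using mul_YY_11 (mR_nonpos hT0) (by rw [hre]; linarith only [h5]) (by rw [hre]; linarith only [hx', v1]), ?_⟩
      rw [hw]
      exact z2N (s := q 0 1) (F := F_r32_two_b) (r := (-1)) (XM := 60) (cr := 30) (fuel := 24) (h := (by decide +kernel : chk [N2E 60 30 F_r32_two_b (-1), sub (q 5 6) uE, sub uE (q 7 6), q 0 1] 24 [V.of 10000 5600 6000, V.of 10000 0 50, V.of 10000 2333 6067, V.of 10000 (-1160) 50] = true))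
            ⟨by norm_num; linarith only [hx], by norm_num; linarith only [hx']⟩ ⟨by norm_num; linarith only [hT0], by norm_num; linarith only [hT']⟩ ⟨by norm_num; linarith only [hx', h5], by norm_num; linarith only [hx, h6]⟩
            ⟨by norm_num; linarith only [i0], by norm_num; linarith only [i1]⟩ h5 h6 q0_val
  · intro h5
    rcases le_total T 0 with hT0 | hT0
    · rcases le_total (w.im + v.im) 0 with hs | hs
      · refine ⟨((0 : ℤ) : ℝ), by simpa using mul_YY_00 (mR_nonneg hT0) (by rw [hre]; linarith only [h5]) (by rw [him]; exact hs), ?_⟩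
        rw [hw] at hs ⊢
        exact z2B (s := yE 60 30) (F := F_r32_two_b) (r := 0) (XM := 60) (cr := 30) (fuel := 24) (h := (by decide +kernel : chk [B2E 60 30 F_r32_two_b 0, sub (q 7 6) uE, yE 60 30] 24 [V.of 10000 5600 6000, V.of 10000 (-570) 0, V.of 10000 5666 7000, V.of 10000 (-1160) 50] = true))
            ⟨by norm_num; linarith only [hx], by norm_num; linarith only [hx']⟩ ⟨by norm_num; linarith only [hT], by norm_num; linarith only [hT0]⟩ ⟨by norm_num; linarith only [hx', h5], by norm_num; linarith only [v1]⟩
            ⟨by norm_num; linarith only [i0], by norm_num; linarith only [i1]⟩ h5 (yE_le hs)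
      · refine ⟨((1 : ℤ) : ℝ), by simpa using mul_YY_01 (mR_nonneg hT0) (by rw [hre]; linarith only [h5]) (by rw [hre]; linarith only [hx', v1]), ?_⟩
        rw [hw] at hs ⊢
        exact z2B (s := neg (yE 60 30)) (F := F_r32_two_b) (r := 1) (XM := 60) (cr := 30) (fuel := 24) (h := (by decide +kernel : chk [B2E 60 30 F_r32_two_b 1, sub (q 7 6) uE, neg (yE 60 30)] 24 [V.of 10000 5600 6000, V.of 10000 (-570) 0, V.of 10000 5666 7000, V.of 10000 (-1160) 50] = true))
            ⟨by norm_num; linarith only [hx], by norm_num; linarith only [hx']⟩ ⟨by norm_num; linarith only [hT], by norm_num; linarith only [hT0]⟩ ⟨by norm_num; linarith only [hx', h5], by norm_num; linarith only [v1]⟩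
            ⟨by norm_num; linarith only [i0], by norm_num; linarith only [i1]⟩ h5 (neg_yE_le hs)
    · refine ⟨((-1 : ℤ) : ℝ), by simpa using mul_YY_11 (mR_nonpos hT0) (by rw [hre]; linarith only [h5]) (by rw [hre]; linarith only [hx', v1]), ?_⟩
      rw [hw]
      exact z2B (s := q 0 1) (F := F_r32_two_b) (r := (-1)) (XM := 60) (cr := 30) (fuel := 24) (h := (by decide +kernel : chk [B2E 60 30 F_r32_two_b (-1), sub (q 7 6) uE, q 0 1] 24 [V.of 10000 5600 6000, V.of 10000 0 50, V.of 10000 5666 7000, V.of 10000 (-1160) 50] = true))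
            ⟨by norm_num; linarith only [hx], by norm_num; linarith only [hx']⟩ ⟨by norm_num; linarith only [hT0], by norm_num; linarith only [hT']⟩ ⟨by norm_num; linarith only [hx', h5], by norm_num; linarith only [v1]⟩
            ⟨by norm_num; linarith only [i0], by norm_num; linarith only [i1]⟩ h5 q0_val

end MR

end Pool.Agent.Work.MP_b30479_gtS.G2

end

section

/-!
# Part of `R32B`
-/
set_option linter.unusedSimpArgs false
set_option linter.unusedVariables false

set_option deprecated.oldSectionVars true

namespace Pool.Agent.Work.MP_b30479_gtS.G2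

open VOL NumIs

namespace MR

open E

/-- `3 | ring` -/
theorem r32_ring {w v : ℂ} {T : ℝ} (hT : -(10 / 10000) ≤ T) (hT' : T ≤ 570 / 10000)
    (hw : w.im = tR 60 30 w.re T) (hx : 3000 / 10000 ≤ w.re) (hx' : w.re ≤ 5000 / 10000)
    (v0 : 0 / 10000 ≤ v.re) (v1 : v.re ≤ 8000 / 10000) (i0 : -(1060 / 10000) ≤ v.im) (i1 : v.im ≤ 0 / 10000) :
    S2 1 (mR 30 T) w v < -(11 / 100) := by
  have hF : F_r32_ring.val [w.re, T, v.re, v.im] = -(11 / 100) := by
    simp only [F_r32_ring, E.val, lkR]
    push_cast
    ring
  rw [← hF]
  have hre : (w + v).re = w.re + v.re := Complex.add_re _ _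
  have him : (w + v).im = w.im + v.im := Complex.add_im _ _
  apply S2_zone (by linarith only [hx]) (by linarith only [hx']) (by linarith only [v0]) (by linarith only [hx', v1])
  · intro h5
    rw [hw]
    exact z2S (F := F_r32_ring) (XM := 60) (cr := 30) (fuel := 24) (h := (by decide +kernel : chk [S2E 60 30 F_r32_ring, sub uE (q 5 6)] 24 [V.of 10000 3000 5000, V.of 10000 (-10) 570, V.of 10000 0 5334, V.of 10000 (-1060) 0] = true))
      ⟨by norm_num; linarith only [hx], by norm_num; linarith only [hx']⟩ ⟨by norm_num; linarith only [hT], by norm_num; linarith only [hT']⟩ ⟨by norm_num; linarith only [v0], by norm_num; linarith only [hx, h5]⟩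
      ⟨by norm_num; linarith only [i0], by norm_num; linarith only [i1]⟩ h5
  · intro h5 h6
    rcases le_total T 0 with hT0 | hT0
    · rcases le_total (w.im + v.im) 0 with hs | hs
      · refine ⟨((0 : ℤ) : ℝ), by simpa using mul_YY_00 (mR_nonneg hT0) (by rw [hre]; linarith only [h5]) (by rw [him]; exact hs), ?_⟩
        rw [hw] at hs ⊢
        exact z2N (s := yE 60 30) (F := F_r32_ring) (r := 0) (XM := 60) (cr := 30) (fuel := 24) (h := (by decide +kernel : chk [N2E 60 30 F_r32_ring 0, sub (q 5 6) uE, sub uE (q 7 6), yE 60 30] 24 [V.of 10000 3000 5000, V.of 10000 (-10) 0, V.of 10000 3333 8000, V.of 10000 (-1060) 0] = true))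
            ⟨by norm_num; linarith only [hx], by norm_num; linarith only [hx']⟩ ⟨by norm_num; linarith only [hT], by norm_num; linarith only [hT0]⟩ ⟨by norm_num; linarith only [hx', h5], by norm_num; linarith only [v1]⟩
            ⟨by norm_num; linarith only [i0], by norm_num; linarith only [i1]⟩ h5 h6 (yE_le hs)
      · refine ⟨((1 : ℤ) : ℝ), by simpa using mul_YY_01 (mR_nonneg hT0) (by rw [hre]; linarith only [h5]) (by rw [hre]; linarith only [hx', v1]), ?_⟩
        rw [hw] at hs ⊢
        exact z2N (s := neg (yE 60 30)) (F := F_r32_ring) (r := 1) (XM := 60) (cr := 30) (fuel := 24) (h := (by decide +kernel : chk [N2E 60 30 F_r32_ring 1, sub (q 5 6) uE, sub uE (q 7 6), neg (yE 60 30)] 24 [V.of 10000 3000 5000, V.of 10000 (-10) 0, V.of 10000 3333 8000, V.of 10000 (-1060) 0] = true))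
            ⟨by norm_num; linarith only [hx], by norm_num; linarith only [hx']⟩ ⟨by norm_num; linarith only [hT], by norm_num; linarith only [hT0]⟩ ⟨by norm_num; linarith only [hx', h5], by norm_num; linarith only [v1]⟩
            ⟨by norm_num; linarith only [i0], by norm_num; linarith only [i1]⟩ h5 h6 (neg_yE_le hs)
    · refine ⟨((-1 : ℤ) : ℝ), by simpa using mul_YY_11 (mR_nonpos hT0) (by rw [hre]; linarith only [h5]) (by rw [hre]; linarith only [hx', v1]), ?_⟩
      rw [hw]
      exact z2N (s := q 0 1) (F := F_r32_ring) (r := (-1)) (XM := 60) (cr := 30) (fuel := 24) (h := (by decide +kernel : chk [N2E 60 30 F_r32_ring (-1), sub (q 5 6) uE, sub uE (q 7 6), q 0 1] 24 [V.of 10000 3000 5000, V.of 10000 0 570, V.of 10000 3333 8000, V.of 10000 (-1060) 0] = true))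
            ⟨by norm_num; linarith only [hx], by norm_num; linarith only [hx']⟩ ⟨by norm_num; linarith only [hT0], by norm_num; linarith only [hT']⟩ ⟨by norm_num; linarith only [hx', h5], by norm_num; linarith only [v1]⟩
            ⟨by norm_num; linarith only [i0], by norm_num; linarith only [i1]⟩ h5 h6 q0_val
  · intro h5
    rcases le_total T 0 with hT0 | hT0
    · rcases le_total (w.im + v.im) 0 with hs | hs
      · refine ⟨((0 : ℤ) : ℝ), by simpa using mul_YY_00 (mR_nonneg hT0) (by rw [hre]; linarith only [h5]) (by rw [him]; exact hs), ?_⟩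
        rw [hw] at hs ⊢
        exact z2B (s := yE 60 30) (F := F_r32_ring) (r := 0) (XM := 60) (cr := 30) (fuel := 24) (h := (by decide +kernel : chk [B2E 60 30 F_r32_ring 0, sub (q 7 6) uE, yE 60 30] 24 [V.of 10000 3000 5000, V.of 10000 (-10) 0, V.of 10000 6666 8000, V.of 10000 (-1060) 0] = true))
            ⟨by norm_num; linarith only [hx], by norm_num; linarith only [hx']⟩ ⟨by norm_num; linarith only [hT], by norm_num; linarith only [hT0]⟩ ⟨by norm_num; linarith only [hx', h5], by norm_num; linarith only [v1]⟩
            ⟨by norm_num; linarith only [i0], by norm_num; linarith only [i1]⟩ h5 (yE_le hs)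
      · refine ⟨((1 : ℤ) : ℝ), by simpa using mul_YY_01 (mR_nonneg hT0) (by rw [hre]; linarith only [h5]) (by rw [hre]; linarith only [hx', v1]), ?_⟩
        rw [hw] at hs ⊢
        exact z2B (s := neg (yE 60 30)) (F := F_r32_ring) (r := 1) (XM := 60) (cr := 30) (fuel := 24) (h := (by decide +kernel : chk [B2E 60 30 F_r32_ring 1, sub (q 7 6) uE, neg (yE 60 30)] 24 [V.of 10000 3000 5000, V.of 10000 (-10) 0, V.of 10000 6666 8000, V.of 10000 (-1060) 0] = true))
            ⟨by norm_num; linarith only [hx], by norm_num; linarith only [hx']⟩ ⟨by norm_num; linarith only [hT], by norm_num; linarith only [hT0]⟩ ⟨by norm_num; linarith only [hx', h5], by norm_num; linarith only [v1]⟩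
            ⟨by norm_num; linarith only [i0], by norm_num; linarith only [i1]⟩ h5 (neg_yE_le hs)
    · refine ⟨((-1 : ℤ) : ℝ), by simpa using mul_YY_11 (mR_nonpos hT0) (by rw [hre]; linarith only [h5]) (by rw [hre]; linarith only [hx', v1]), ?_⟩
      rw [hw]
      exact z2B (s := q 0 1) (F := F_r32_ring) (r := (-1)) (XM := 60) (cr := 30) (fuel := 24) (h := (by decide +kernel : chk [B2E 60 30 F_r32_ring (-1), sub (q 7 6) uE, q 0 1] 24 [V.of 10000 3000 5000, V.of 10000 0 570, V.of 10000 6666 8000, V.of 10000 (-1060) 0] = true))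
            ⟨by norm_num; linarith only [hx], by norm_num; linarith only [hx']⟩ ⟨by norm_num; linarith only [hT0], by norm_num; linarith only [hT']⟩ ⟨by norm_num; linarith only [hx', h5], by norm_num; linarith only [v1]⟩
            ⟨by norm_num; linarith only [i0], by norm_num; linarith only [i1]⟩ h5 q0_val

end MR

end Pool.Agent.Work.MP_b30479_gtS.G2

end

section

/-!
# Pieces of the certificates of `TE1A`, part 3
-/

set_option linter.unusedVariables false
set_option linter.unusedSimpArgs false
set_option linter.unusedTactic false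
set_option linter.unreachableTactic false
set_option deprecated.oldSectionVars true

namespace Pool.Agent.Work.MP_b30479_gtS.G2
open NumUs
open NumUs.E
open NumIs (V)
namespace TL
namespace E1

theorem k_bxn0_p2_q1 : Pool.Agent.Work.NumUs.runT [(.sub (.add (.sub (.add (.mul .pi (.add (.mul (.sub (.q 18 100) (.var 0)) (.var 3)) (.mul (.var 1) (.sub (.sub (.var 2) (.var 0)) (.q 1 1))))) (.uu (.add (.q 18 100) (.sub (.var 2) (.var 0))) (.add (.var 1) (.var 3)))) (.uu (.q 18 100) (.var 1))) (.add (.neg (.uu (.q 5 1000) (.var 3))) (.mul .pi (.var 3)))) (.add (.add (.q 164 625) (.mul (.q (-921) 1000) (.var 0))) (.mul (.q (-1849) 1000) (.var 1)))), (.sub (.add (.sub (.add (.mul .pi (.add (.mul (.sub (.q 18 100) (.var 0)) (.var 3)) (.mul (.var 1) (.sub (.sub (.var 2) (.var 0)) (.q 1 1))))) (.uu (.add (.q 18 100) (.sub (.var 2) (.var 0))) (.add (.var 1) (.var 3)))) (.uu (.q 18 100) (.var 1))) (.add (.neg (.uu (.q 5 1000) (.var 3))) (.mul .pi (.var 3)))) (.add (.add (.q 1451 5000) (.mul (.q (-1021) 1000) (.var 0))) (.mul (.q (-1309) 500) (.var 1)))), (.sub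 (.var 0) (.var 2)), (.sub (.sub (.var 2) (.var 0)) (.q 8 10)), (.sub (.var 3) (.mul (.q 85 100) (.sub (.var 2) (.var 0)))), (.sub (.var 3) (.mul (.q 3091 10000) (.sub (.q 8 10) (.sub (.var 2) (.var 0))))), (.sub (.neg (.mul (.q 64 100) (.sub (.var 2) (.var 0)))) (.var 3)), (.sub (.neg (.mul (.q 48 100) (.sub (.q 8 10) (.sub (.var 2) (.var 0))))) (.var 3))] 32
    25738864158559898550716560092549029016176103602052348177426493818193585991258216544389544843976819894295038987185873110025045304912758664216264951169161050519813911463888185334032534874087491324801987249679735612758075909867101853155151950386358797525374702105304496590069282502539767200706374671532499308588230765453024060247511493024713911209454915377313020429656969052721264627127769729808792283096165338321880794653230502864865923494830675592825576889584718839037529641526782744461900338086062015466454586421070260363278530824251240853672487414708872827571162605073624743818060909507914788034818758941739928958219880761718513896821659346533190225410490924274464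
    (Pool.Agent.Work.NumIs.setL 2 ((Pool.Agent.Work.NumIs.setR 0 ([V.of 10000 1800 4000, V.of 10000 (-800) 800, V.of 10000 10050 12000, V.of 10000 (-960) 0])))) =
    3234674940031289986378597928876498758642093037435126450313582970318807725403930141402489026263921867802159865924303651734379555151840961450364378534137529939290273556880668132426866697491208344266215647310035024175405167578159338242829781435365615284970138066782961854009667951491013289207518399280948906146580248734553290726421199788740737498415975219733848297669327874108076305301123175214567721666683692878874595975721639806828659830853390523963693540589983820976083649849364697172077041141275245572468064173472326174866151210943121225441863505576030455394095969982078910964 := by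
  decide +kernel

theorem k_bxn0_p2_q2 : Pool.Agent.Work.NumUs.runT [(.sub (.add (.sub (.add (.mul .pi (.add (.mul (.sub (.q 18 100) (.var 0)) (.var 3)) (.mul (.var 1) (.sub (.sub (.var 2) (.var 0)) (.q 1 1))))) (.uu (.add (.q 18 100) (.sub (.var 2) (.var 0))) (.add (.var 1) (.var 3)))) (.uu (.q 18 100) (.var 1))) (.add (.neg (.uu (.q 5 1000) (.var 3))) (.mul .pi (.var 3)))) (.add (.add (.q 164 625) (.mul (.q (-921) 1000) (.var 0))) (.mul (.q (-1849) 1000) (.var 1)))), (.sub (.add (.sub (.add (.mul .pi (.add (.mul (.sub (.q 18 100) (.var 0)) (.var 3)) (.mul (.var 1) (.sub (.sub (.var 2) (.var 0)) (.q 1 1))))) (.uu (.add (.q 18 100) (.sub (.var 2) (.var 0))) (.add (.var 1) (.var 3)))) (.uu (.q 18 100) (.var 1))) (.add (.neg (.uu (.q 5 1000) (.var 3))) (.mul .pi (.var 3)))) (.add (.add (.q 1451 5000) (.mul (.q (-1021) 1000) (.var 0))) (.mul (.q (-1309) 500) (.var 1)))), (.sub (.var 0) (.var 2)), (.sub (.sub (.var 2) (.var 0)) (.q 8 10)), (.sub (.var 3) (.mul (.q 85 100) (.sub (.var 2) (.var 0)))), (.sub (.var 3) (.mul (.q 3091 10000) (.sub (.q 8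 10) (.sub (.var 2) (.var 0))))), (.sub (.neg (.mul (.q 64 100) (.sub (.var 2) (.var 0)))) (.var 3)), (.sub (.neg (.mul (.q 48 100) (.sub (.q 8 10) (.sub (.var 2) (.var 0))))) (.var 3))] 31
    202167183751955624148662370554781172415130814839695403144598935644925482837745633837655564141495116737634991620268978233398722196990060090647773658383595621205642097305041758276679168593200521516638477956877189010962822973634958640176861339710350955310633629173935115875604246968188330575469899955059306634161265545909580670401324986796296093650998451233365518604332992131754769081320198450910482604167730804929662248482602487926791239428336907747730846286873988811005228115585293573254815071329702848279254010842020385929134450683945076590116469098501903462130998123879931935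
    (Pool.Agent.Work.NumIs.setL 3 (Pool.Agent.Work.NumIs.setR 2 ((Pool.Agent.Work.NumIs.setR 0 ([V.of 10000 1800 4000, V.of 10000 (-800) 800, V.of 10000 10050 12000, V.of 10000 (-960) 0]))))) =
    12635448984497226509291398159673823275945675927480962696537433477807842677359102114853472758843444796102186976266811139587420137311878755665485853648974726325352631081565109892292448037075032594789904872304824313185176435852184915011053833731896934706914601823370944742225265435511770660966868747191206664635079096619348791900082811674768505853187403202085344912770812008234673067582512403181905162760483175308103890530162655495424452464271056734233177892929624300687826757224080848328425941958106428017453375677626274120570903167746567286882279318656368966383187382742495746 := by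
  decide +kernel

theorem k_bxn0_p2_q3 : Pool.Agent.Work.NumUs.runT [(.sub (.add (.sub (.add (.mul .pi (.add (.mul (.sub (.q 18 100) (.var 0)) (.var 3)) (.mul (.var 1) (.sub (.sub (.var 2) (.var 0)) (.q 1 1))))) (.uu (.add (.q 18 100) (.sub (.var 2) (.var 0))) (.add (.var 1) (.var 3)))) (.uu (.q 18 100) (.var 1))) (.add (.neg (.uu (.q 5 1000) (.var 3))) (.mul .pi (.var 3)))) (.add (.add (.q 164 625) (.mul (.q (-921) 1000) (.var 0))) (.mul (.q (-1849) 1000) (.var 1)))), (.sub (.add (.sub (.add (.mul .pi (.add (.mul (.sub (.q 18 100) (.var 0)) (.var 3)) (.mul (.var 1) (.sub (.sub (.var 2) (.var 0)) (.q 1 1))))) (.uu (.add (.q 18 100) (.sub (.var 2) (.var 0))) (.add (.var 1) (.var 3)))) (.uu (.q 18 100) (.var 1))) (.add (.neg (.uu (.q 5 1000) (.var 3))) (.mul .pi (.var 3)))) (.add (.add (.q 1451 5000) (.mul (.q (-1021) 1000) (.var 0))) (.mul (.q (-1309) 500) (.var 1)))), (.sub (.var 0) (.var 2)), (.sub (.sub (.var 2) (.var 0)) (.q 8 10)), (.sub (.var 3) (.mul (.q 85 100) (.sub (.var 2) (.var 0)))), (.sub (.var 3) (.mul (.q 3091 10000) (.sub (.q 8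 10) (.sub (.var 2) (.var 0))))), (.sub (.neg (.mul (.q 64 100) (.sub (.var 2) (.var 0)))) (.var 3)), (.sub (.neg (.mul (.q 48 100) (.sub (.q 8 10) (.sub (.var 2) (.var 0))))) (.var 3))] 30
    789715561531076656830712384979613954746604745467560168533589592362990167334943882178342047427715299756386686016675696224213758581992422229092865853060920395334539442597819368268278002317189537174369054519051519574073527240761557188190864608243558419182162613960684046389079089719485666310429296699450416539692443538709299493755175729673031615824212700130334057048175750514667066723907025198869072672530198456756493158135165968464028279016941045889573618308101518792989172326505053020526621372381651751090835979851642132535681447984160455430142457416023060398949211421405984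
    (Pool.Agent.Work.NumIs.setL 1 (Pool.Agent.Work.NumIs.setR 3 (Pool.Agent.Work.NumIs.setR 2 ((Pool.Agent.Work.NumIs.setR 0 ([V.of 10000 1800 4000, V.of 10000 (-800) 800, V.of 10000 10050 12000, V.of 10000 (-960) 0])))))) =
    331921058289901200425538142185046420739046920321442087911012409875025984186811617323491854594124455594037800148245634848638817732836782231145186776465570464360543740418247472878858454002214860882908046625773000656555626188792327331305264581045181652893793425141418583310912382142892864289 := by
  decide +kernel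

theorem k_bxn0_p2_q4 : Pool.Agent.Work.NumUs.runT [(.sub (.add (.sub (.add (.mul .pi (.add (.mul (.sub (.q 18 100) (.var 0)) (.var 3)) (.mul (.var 1) (.sub (.sub (.var 2) (.var 0)) (.q 1 1))))) (.uu (.add (.q 18 100) (.sub (.var 2) (.var 0))) (.add (.var 1) (.var 3)))) (.uu (.q 18 100) (.var 1))) (.add (.neg (.uu (.q 5 1000) (.var 3))) (.mul .pi (.var 3)))) (.add (.add (.q 164 625) (.mul (.q (-921) 1000) (.var 0))) (.mul (.q (-1849) 1000) (.var 1)))), (.sub (.add (.sub (.add (.mul .pi (.add (.mul (.sub (.q 18 100) (.var 0)) (.var 3)) (.mul (.var 1) (.sub (.sub (.var 2) (.var 0)) (.q 1 1))))) (.uu (.add (.q 18 100) (.sub (.var 2) (.var 0))) (.add (.var 1) (.var 3)))) (.uu (.q 18 100) (.var 1))) (.add (.neg (.uu (.q 5 1000) (.var 3))) (.mul .pi (.var 3)))) (.add (.add (.q 1451 5000) (.mul (.q (-1021) 1000) (.var 0))) (.mul (.q (-1309) 500) (.var 1)))), (.sub (.var 0) (.var 2)), (.sub (.sub (.var 2) (.var 0)) (.q 8 10)), (.sub (.var 3) (.mul (.q 85 100) (.sub (.var 2) (.var 0)))), (.sub (.var 3) (.mul (.q 3091 10000) (.sub (.q 8 10) (.sub (.var 2)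 (.var 0))))), (.sub (.neg (.mul (.q 64 100) (.sub (.var 2) (.var 0)))) (.var 3)), (.sub (.neg (.mul (.q 48 100) (.sub (.q 8 10) (.sub (.var 2) (.var 0))))) (.var 3))] 30
    331921058289901200425538142185046420739046920321442087911012409875025984186811617323491854594124455594037800148245634848638817732836782231145186776465570464360543740418247472878858454002214860882908046625773000656555626188792327331305264581045181652893793425141418583310912382142892864288
    (Pool.Agent.Work.NumIs.setR 1 (Pool.Agent.Work.NumIs.setR 3 (Pool.Agent.Work.NumIs.setR 2 ((Pool.Agent.Work.NumIs.setR 0 ([V.of 10000 1800 4000, V.of 10000 (-800) 800, V.of 10000 10050 12000, V.of 10000 (-960) 0])))))) =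
    1 := by
  decide +kernel

theorem k_bxn0_p2 : Pool.Agent.Work.NumUs.runT [(.sub (.add (.sub (.add (.mul .pi (.add (.mul (.sub (.q 18 100) (.var 0)) (.var 3)) (.mul (.var 1) (.sub (.sub (.var 2) (.var 0)) (.q 1 1))))) (.uu (.add (.q 18 100) (.sub (.var 2) (.var 0))) (.add (.var 1) (.var 3)))) (.uu (.q 18 100) (.var 1))) (.add (.neg (.uu (.q 5 1000) (.var 3))) (.mul .pi (.var 3)))) (.add (.add (.q 164 625) (.mul (.q (-921) 1000) (.var 0))) (.mul (.q (-1849) 1000) (.var 1)))), (.sub (.add (.sub (.add (.mul .pi (.add (.mul (.sub (.q 18 100) (.var 0)) (.var 3)) (.mul (.var 1) (.sub (.sub (.var 2) (.var 0)) (.q 1 1))))) (.uu (.add (.q 18 100) (.sub (.var 2) (.var 0))) (.add (.var 1) (.var 3)))) (.uu (.q 18 100) (.var 1))) (.add (.neg (.uu (.q 5 1000) (.var 3))) (.mul .pi (.var 3)))) (.add (.add (.q 1451 5000) (.mul (.q (-1021) 1000) (.var 0))) (.mul (.q (-1309) 500) (.var 1)))), (.sub (.var 0) (.var 2)), (.sub (.sub (.var 2) (.var 0)) (.q 8 10)), (.sub (.var 3) (.mul (.q 85 100) (.sub (.var 2) (.var 0)))), (.sub (.var 3) (.mul (.q 3091 10000) (.sub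 (.q 8 10) (.sub (.var 2) (.var 0))))), (.sub (.neg (.mul (.q 64 100) (.sub (.var 2) (.var 0)))) (.var 3)), (.sub (.neg (.mul (.q 48 100) (.sub (.q 8 10) (.sub (.var 2) (.var 0))))) (.var 3))] 33
    411821826536958376811464961480784464258817657632837570838823901091097375860131464710232717503629118308720623794973969760400724878604138627460239218706576808317022583422210965344520557985399861196831795994875769804129214557873629650482431206181740760405995233684871945441108520040636275211301994744519988937411692247248384963960183888395422579351278646037008326874511504843540234034044315676940676529538645413150092714451688045837854775917290809485209230233355501424600474264428523911390405409376992247463273382737124165812456493188019853658759798635341965241138601681177995901088974552126636608557100143067838863331518092187496222349146549544531043606567854788391426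
    (Pool.Agent.Work.NumIs.setR 0 ([V.of 10000 1800 4000, V.of 10000 (-800) 800, V.of 10000 10050 12000, V.of 10000 (-960) 0])) =
    1 :=
      Pool.Agent.Work.NumUs.runT_split rfl rfl rfl
        k_bxn0_p2_q1
        (Pool.Agent.Work.NumUs.runT_split rfl rfl rfl
          k_bxn0_p2_q2
          (Pool.Agent.Work.NumUs.runT_split rfl rfl rfl
            k_bxn0_p2_q3
            k_bxn0_p2_q4))

theorem k_axlo_p1 : Pool.Agent.Work.NumUs.runT [(.sub (.sub (.add (.mul .pi (.add (.mul (.sub (.q 18 100) (.var 0)) (.var 3)) (.mul (.var 1) (.sub (.sub (.var 2) (.var 0)) (.q 1 1))))) (.uu (.add (.q 18 100) (.sub (.var 2) (.var 0))) (.add (.var 1) (.var 3)))) (.uu (.q 18 100) (.var 1))) (.add (.add (.q (-11) 1000) (.mul (.q 0 1) (.var 0))) (.mul (.q (-3927) 1250) (.var 1)))), (.sub (.add (.sub (.add (.mul .pi (.add (.mul (.sub (.q 18 100) (.var 0)) (.var 3)) (.mul (.var 1) (.sub (.sub (.var 2) (.var 0)) (.q 1 1))))) (.uu (.add (.q 18 100) (.sub (.var 2) (.var 0))) (.add (.var 1) (.var 3)))) (.uu (.q 18 100) (.var 1))) (.neg (.uu (.var 2) (.var 3)))) (.add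 (.add (.q (-163) 5000) (.mul (.q 779 1000) (.var 0))) (.mul (.q (-821) 500) (.var 1)))), (.sub (.var 0) (.var 2)), (.sub (.sub (.var 2) (.var 0)) (.q 8 10)), (.sub (.var 3) (.mul (.q 85 100) (.sub (.var 2) (.var 0)))), (.sub (.var 3) (.mul (.q 3091 10000) (.sub (.q 8 10) (.sub (.var 2) (.var 0))))), (.sub (.neg (.mul (.q 64 100) (.sub (.var 2) (.var 0)))) (.var 3)), (.sub (.neg (.mul (.q 48 100) (.sub (.q 8 10) (.sub (.var 2) (.var 0))))) (.var 3))] 33
    557026605433204320775875246673121621354421046484839569239803104244968927221883614062987388256355684001034125258883069295108846356942231008917976383935879870899905298372401898861149486414214274944318915040449113760551864990272950293859630739091726997112641293862668853832319338132637920934937759458652203362150462529527672116839330538891011260230049162503423070460236085624301046118928424627166012354300181913731871468177054419915280076356026588413401557697325623611571466415915289632644390789990187442140635940144337616825943507714859608158590492893063103548865629279741970025112088199356098408837743086423713596793320784090054047016659806171581760547721062027563622970015186436618865922562494445329818769012743970433284167691137763659424052950990927089957513543586271448421090655009974832468352327820278441650145083226848791568690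
    (Pool.Agent.Work.NumIs.setL 0 ([V.of 10000 0 1600, V.of 10000 (-800) 800, V.of 10000 0 1600, V.of 10000 (-960) 1360])) =
    51314821744558573758820208251934661577156611391361026305188733845434343923074114961192975479899252461952537701666508218746376908691387400793517893167515724899916985288463549240402181499832456524230478568662385153843082204540865758914258730346760921278615520864961590791146893304423913351363565885393785052417960319409457874201397001205438081660009777699 := by
  decide +kernel

end E1
end TL
end Pool.Agent.Work.MP_b30479_gtS.G2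

end

section

/-!
# Tails: a region with three crossings next to a digit `1` in the tail, rows
-/

set_option deprecated.oldSectionVars true

namespace Pool.Agent.Work.MP_b30479_gtS.G2

open VOL NumUs

namespace TL

namespace K3o

section
open NumIs (V)
open NumUs NumUs.E

set_option linter.defProp false in
def p2_c_1 : rowP (p2 false false false false 2) (-719) (-6820) false
    851016503225962272782052827849332535997049353471342949319713181798552919991045150431125226609850536757543269517914759497712087302737914402161434784115820678905363868140734861572011106203413953809366061741553661194726158541844429391716481332331669955404749972215653106023423630891262835284760172964578455159103603059559904541859813330293936711687661781918090365595759746097618384024102400807402537944732982970777104627966693477692573659954697881055635173140247914785995204540485243439388074764413291100447498778977411658021790990151295346781879173383407679291984361802966431136512315286036367133225692012137830551173076156909786576802260112977062098996391509566032733045258457513666442118240454049814213197269671975084789921820609744906357123740490306269066820672883546163370319392684443976060342801674772540195396829240987559245664157880818982692814274325650872069098988097674033190671060106552525318834351585373061124112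 10 350 10 350 = true := by
  decide +kernel

set_option linter.defProp false in
def p2_c_2 : rowP (p2 false false true false 2) (-719) (-6820) true
    834536005435581765863032852496 10 350 10 350 = true := by
  decide +kernel

set_option linter.defProp false in
def p2_c_3 : rowP (p2 false true false false 2) (-719) (-6820) false
    49844026736529083479685916931915776 10 350 0 10 = true := by
  decide +kernel

set_option linter.defProp false in
def p2_c_4 : rowP (p2 false true true false 2) (-719) (-6820) true
    8 330 350 0 10 = true := by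
  decide +kernel

set_option linter.defProp false in
def p2_c_5 : rowP (p2 true false false false 2) (-719) (-6820) false
    49844101322491714364929892002828561 0 10 10 350 = true := by
  decide +kernel

set_option linter.defProp false in
def p2_c_6 : rowP (p2 true false true false 2) (-719) (-6820) true
    2193 0 10 10 350 = true := by
  decide +kernel

set_option linter.defProp false in
def p2_c_7 : rowP (p2 true true false true 2) (-719) (-6820) false
    8 0 10 0 10 = true := by
  decide +kernel

set_option linter.defProp false in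
def p2_c : R7 p2 true 2 (-719) (-6820) 350
    851016503225962272782052827849332535997049353471342949319713181798552919991045150431125226609850536757543269517914759497712087302737914402161434784115820678905363868140734861572011106203413953809366061741553661194726158541844429391716481332331669955404749972215653106023423630891262835284760172964578455159103603059559904541859813330293936711687661781918090365595759746097618384024102400807402537944732982970777104627966693477692573659954697881055635173140247914785995204540485243439388074764413291100447498778977411658021790990151295346781879173383407679291984361802966431136512315286036367133225692012137830551173076156909786576802260112977062098996391509566032733045258457513666442118240454049814213197269671975084789921820609744906357123740490306269066820672883546163370319392684443976060342801674772540195396829240987559245664157880818982692814274325650872069098988097674033190671060106552525318834351585373061124112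
    834536005435581765863032852496
    49844026736529083479685916931915776
    8
    49844101322491714364929892002828561
    2193
    8 :=
  ⟨p2_c_1, p2_c_2, p2_c_3, p2_c_4, p2_c_5, p2_c_6, p2_c_7⟩

set_option linter.defProp false in
def p2_e_1 : rowP (p2 false false false false 2) 0 (-5800) false
    198142720206166215423041216062692118807940127670611941562898732209241231901348836354707653310580769730159842762610586243148913444657324441280550040331627400337104654903694722236136697745745525185336838881846904101484957742934215206586867881084715471464383875070058998191594991574823585172360803225212370781019237604821078605463580861362502381392867435865484497264521694483428365679148027891847628227874587977258083631726936028569387031010917082975879339786823673055717621512874402856943007387210423638771206998412597018596303048075564901828014449864486043158681712072581399615338526506689999919716093921984763700947031365243643954968588673360424432065771502087092483032742406708738821852759205153443615585252365548466249349427423317598954464870508750917958142046707868626732030591488806086502270708929208317745107539067541468385737722995526012319011939386545891358663925387099357654296114036422628577327805632528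 10 350 10 350 = true := by
  decide +kernel

set_option linter.defProp false in
def p2_e_2 : rowP (p2 false false true false 2) 0 (-5800) true
    3259910993599346768033714192 10 350 10 350 = true := by
  decide +kernel

set_option linter.defProp false in
def p2_e_3 : rowP (p2 false true false false 2) 0 (-5800) false
    49844026736529083479685916931915776 10 350 0 10 = true := by
  decide +kernel

set_option linter.defProp false in
def p2_e_4 : rowP (p2 false true true false 2) 0 (-5800) true
    8 330 350 0 10 = true := by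
  decide +kernel

set_option linter.defProp false in
def p2_e_5 : rowP (p2 true false false false 2) 0 (-5800) false
    49844101322491714364929892002828561 0 10 10 350 = true := by
  decide +kernel

set_option linter.defProp false in
def p2_e_6 : rowP (p2 true false true false 2) 0 (-5800) true
    2193 0 10 10 350 = true := by
  decide +kernel

set_option linter.defProp false in
def p2_e_7 : rowP (p2 true true false true 2) 0 (-5800) false
    8 0 10 0 10 = true := by
  decide +kernel

set_option linter.defProp false in
def p2_e : R7 p2 true 2 0 (-5800) 350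
    198142720206166215423041216062692118807940127670611941562898732209241231901348836354707653310580769730159842762610586243148913444657324441280550040331627400337104654903694722236136697745745525185336838881846904101484957742934215206586867881084715471464383875070058998191594991574823585172360803225212370781019237604821078605463580861362502381392867435865484497264521694483428365679148027891847628227874587977258083631726936028569387031010917082975879339786823673055717621512874402856943007387210423638771206998412597018596303048075564901828014449864486043158681712072581399615338526506689999919716093921984763700947031365243643954968588673360424432065771502087092483032742406708738821852759205153443615585252365548466249349427423317598954464870508750917958142046707868626732030591488806086502270708929208317745107539067541468385737722995526012319011939386545891358663925387099357654296114036422628577327805632528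
    3259910993599346768033714192
    49844026736529083479685916931915776
    8
    49844101322491714364929892002828561
    2193
    8 :=
  ⟨p2_e_1, p2_e_2, p2_e_3, p2_e_4, p2_e_5, p2_e_6, p2_e_7⟩

end

end K3o

end TL

end Pool.Agent.Work.MP_b30479_gtS.G2

end

section

/-!
# Tails: a region with three crossings next to a digit `1` in the tail, rows
-/

set_option deprecated.oldSectionVars true

namespace Pool.Agent.Work.MP_b30479_gtS.G2

open VOL NumUs

namespace TL

namespace K3o

section
open NumIs (V)
open NumUs NumUs.E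

set_option linter.defProp false in
def p2_h_1 : rowP (p2 false false false false 2) 543 (-5180) false
    9852492975050407026022388554869244511322428556860800098733597471278589742746079449387409150431517200398944305970065155938171128908832389689078521078685170487946110302264175570907297893895658638631585825720100605964743034892447837749010592258095637481103902713562533491139442729872995538905257514726942770313625317020923132863968673431944482448514729705728 10 350 10 140 = true := by
  decide +kernel

set_option linter.defProp false in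
def p2_h_2 : rowP (p2 false false true false 2) 543 (-5180) true
    143135120 10 350 10 140 = true := by
  decide +kernel

set_option linter.defProp false in
def p2_h_3 : rowP (p2 false true false false 2) 543 (-5180) false
    49844026736529083479685916931915776 10 350 0 10 = true := by
  decide +kernel

set_option linter.defProp false in
def p2_h_4 : rowP (p2 false true true false 2) 543 (-5180) true
    8 330 350 0 10 = true := by
  decide +kernel

set_option linter.defProp false in
def p2_h_5 : rowP (p2 true false false false 2) 543 (-5180) false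
    559121 0 10 10 140 = true := by
  decide +kernel

set_option linter.defProp false in
def p2_h_6 : rowP (p2 true false true false 2) 543 (-5180) true
    9 0 10 10 140 = true := by
  decide +kernel

set_option linter.defProp false in
def p2_h_7 : rowP (p2 true true false true 2) 543 (-5180) false
    8 0 10 0 10 = true := by
  decide +kernel

set_option linter.defProp false in
def p2_h : R7 p2 true 2 543 (-5180) 140
    9852492975050407026022388554869244511322428556860800098733597471278589742746079449387409150431517200398944305970065155938171128908832389689078521078685170487946110302264175570907297893895658638631585825720100605964743034892447837749010592258095637481103902713562533491139442729872995538905257514726942770313625317020923132863968673431944482448514729705728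
    143135120
    49844026736529083479685916931915776
    8
    559121
    9
    8 :=
  ⟨p2_h_1, p2_h_2, p2_h_3, p2_h_4, p2_h_5, p2_h_6, p2_h_7⟩

set_option linter.defProp false in
def n0_one_1 : rowN false 180 3927 1250 5035 (-450) 700 (-900) (-180) (-940) (-210)
    557696 = true := by
  decide +kernel

set_option linter.defProp false in
def n0_one_2 : rowN false 180 163 100 6392 (-450) 700 (-900) (-180) (-1145) (-210)
    557696 = true := by
  decide +kernel

set_option linter.defProp false in
def n0_one_3 : rowN false 180 429 250 6472 (-450) 700 (-900) (-180) (-1145) (-210)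
    9356722669600 = true := by
  decide +kernel

set_option linter.defProp false in
def n0_two : rowN false 250 1571 1000 6225 (-400) 840 (-820) 50 (-570) 50
    8 = true := by
  decide +kernel

set_option linter.defProp false in
def n0_twoE : rowN false 220 2262 1000 5010 (-200) 750 (-620) (-50) (-980) (-760)
    8 = true := by
  decide +kernel

set_option linter.defProp false in
def n0_thrA_1 : rowN false 150 851 1000 6763 (-400) 840 (-820) 50 (-220) 220
    2401339972288528 = true := by
  decide +kernel

set_option linter.defProp false in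
def n0_thrA_2 : rowN false 150 113 200 6532 (-400) 840 (-820) 50 (-220) 220
    2176 = true := by
  decide +kernel

set_option linter.defProp false in
def n0_threeE : rowN false 220 1215 1000 5210 (-400) 840 (-820) 50 (-280) (-50)
    8 = true := by
  decide +kernel

set_option linter.defProp false in
def n0_ring_1 : rowN false 180 839 500 6681 (-340) 800 (-720) 0 (-40) 570
    2176 = true := by
  decide +kernel

set_option linter.defProp false in
def n0_ring_2 : rowN false 180 1397 1000 6468 (-340) 800 (-720) 0 (-40) 570
    8 = true := by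
  decide +kernel

set_option linter.defProp false in
def n0_t : rowN false 200 59 25 4945 (-450) 840 (-900) 50 (-1145) 570
    2178 = true := by
  decide +kernel

end

end K3o

end TL

end Pool.Agent.Work.MP_b30479_gtS.G2

end

section

/-!
# Tails: a region with three crossings next to a digit `1` in the tail, values
-/

set_option deprecated.oldSectionVars true

namespace Pool.Agent.Work.MP_b30479_gtS.G2

open VOL NumUs

namespace TL

namespace K3o


/-! ### the real axis -/

/-- the value on the real axis -/
noncomputable def ur (x : ℝ) : ℝ := uu x 0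

theorem continuous_ur : Continuous ur := by
  have e : ur = fun x : ℝ => UU ((x : ℂ)) := by
    funext x
    unfold ur uu
    congr 1
  rw [e]
  exact continuous_UU.comp Complex.continuous_ofReal

theorem hasDerivAt_ur {x : ℝ} (h0 : 0 < x) (h1 : x < 1) : HasDerivAt ur (NumIs.lnA x 0) x := by
  have h := uu_line (x := 0) (t := 0) (a := 1) (b := 0) (τ := x) (by linarith) (by linarith)
  have e : (fun τ : ℝ => uu (0 + τ * 1) (0 + τ * 0)) = ur := by
    funext s
    have e1 : 0 + s * 1 = s := by ring
    have e2 : 0 + s * 0 = 0 := by ring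
    rw [e1, e2]
    rfl
  rw [e] at h
  refine h.congr_deriv ?_
  have e1 : 0 + x * 1 = x := by ring
  have e2 : 0 + x * 0 = 0 := by ring
  rw [e1, e2]
  ring

theorem lnA_re (x : ℝ) : NumIs.lnA x 0 = Real.log (4 * Real.sin (Real.pi * x) ^ 2) / 2 := by
  unfold NumIs.lnA
  simp

theorem sin_pos' {x : ℝ} (h0 : 0 < x) (h1 : x < 1) : 0 < Real.sin (Real.pi * x) := by
  have hp := Real.pi_pos
  apply Real.sin_pos_of_pos_of_lt_pi
  · positivity
  · nlinarith

theorem lnA_anti {x x' : ℝ} (h0 : 1 / 2 ≤ x) (h : x ≤ x') (h1 : x' < 1) :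
    NumIs.lnA x' 0 ≤ NumIs.lnA x 0 := by
  have hp := Real.pi_pos
  have s1 := sin_pos' (x := x) (by linarith) (by linarith)
  have s2 := sin_pos' (x := x') (by linarith) h1
  have h3 : Real.sin (Real.pi * x') ≤ Real.sin (Real.pi * x) := by
    rw [← Real.sin_pi_sub (Real.pi * x'), ← Real.sin_pi_sub (Real.pi * x)]
    apply Real.sin_le_sin_of_le_of_le_pi_div_two <;> nlinarith
  rw [lnA_re, lnA_re]
  have h4 : Real.log (4 * Real.sin (Real.pi * x') ^ 2) ≤ Real.log (4 * Real.sin (Real.pi * x) ^ 2) := by
    apply Real.log_le_log (by positivity)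
    have := pow_le_pow_left₀ s2.le h3 2
    linarith
  linarith

/-- concavity on `[1/2, 1]` -/
theorem ur_conc {a b s : ℝ} (h1 : 1 / 2 ≤ a) (hab : a ≤ b) (hs : 0 ≤ s) (hb : b + s ≤ 1) :
    ur a - ur (a + s) ≤ ur b - ur (b + s) := by
  rcases hs.eq_or_lt with rfl | hs
  · simp
  have hm : MonotoneOn (fun x => ur x - ur (x + s)) (Set.Icc (1 / 2) (1 - s)) := by
    apply monotoneOn_of_deriv_nonneg (convex_Icc _ _)
    · exact (continuous_ur.sub (continuous_ur.comp (continuous_id.add continuous_const))).continuousOn
    · intro x hx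
      rw [interior_Icc] at hx
      have d1 := hasDerivAt_ur (x := x) (by linarith [hx.1]) (by linarith [hx.2])
      have d2 := (hasDerivAt_ur (x := x + s) (by linarith [hx.1]) (by linarith [hx.2])).comp_add_const x s
      exact (d1.sub d2).differentiableAt.differentiableWithinAt
    · intro x hx
      rw [interior_Icc] at hx
      have d1 := hasDerivAt_ur (x := x) (by linarith [hx.1]) (by linarith [hx.2])
      have d2 := (hasDerivAt_ur (x := x + s) (by linarith [hx.1]) (by linarith [hx.2])).comp_add_const x s
      have d3 : HasDerivAt (fun x => ur x - ur (x + s)) _ x := d1.sub d2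
      rw [d3.deriv]
      have := lnA_anti hx.1.le (by linarith : x ≤ x + s) (by linarith [hx.2])
      linarith
  exact hm ⟨h1, by linarith⟩ ⟨by linarith, by linarith⟩ hab

theorem ur_mono {a b : ℝ} (h1 : 1 / 2 ≤ a) (hab : a ≤ b) (hb : b ≤ 5 / 6) : ur a ≤ ur b := by
  have hp := Real.pi_pos
  have hm : MonotoneOn ur (Set.Icc (1 / 2) (5 / 6)) := by
    apply monotoneOn_of_deriv_nonneg (convex_Icc _ _) continuous_ur.continuousOn
    · intro x hx
      rw [interior_Icc] at hx
      exact (hasDerivAt_ur (x := x) (by linarith [hx.1]) (by linarith [hx.2])).differentiableAt.differentiableWithinAt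
    · intro x hx
      rw [interior_Icc] at hx
      rw [(hasDerivAt_ur (x := x) (by linarith [hx.1]) (by linarith [hx.2])).deriv, lnA_re]
      have h3 : 1 / 2 ≤ Real.sin (Real.pi * x) := by
        rw [← Real.sin_pi_div_six, ← Real.sin_pi_sub (Real.pi * x)]
        apply Real.sin_le_sin_of_le_of_le_pi_div_two <;> nlinarith [hx.1, hx.2]
      have : 0 ≤ Real.log (4 * Real.sin (Real.pi * x) ^ 2) := by
        apply Real.log_nonneg
        nlinarith
      linarith
  exact hm ⟨h1, by linarith⟩ ⟨by linarith, hb⟩ hab

theorem ur_anti {a b : ℝ} (h1 : 0 ≤ a) (hab : a ≤ b) (hb : b ≤ 1 / 6) : ur b ≤ ur a := by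
  have hp := Real.pi_pos
  have hm : AntitoneOn ur (Set.Icc 0 (1 / 6)) := by
    apply antitoneOn_of_deriv_nonpos (convex_Icc _ _) continuous_ur.continuousOn
    · intro x hx
      rw [interior_Icc] at hx
      exact (hasDerivAt_ur (x := x) hx.1 (by linarith [hx.2])).differentiableAt.differentiableWithinAt
    · intro x hx
      rw [interior_Icc] at hx
      rw [(hasDerivAt_ur (x := x) hx.1 (by linarith [hx.2])).deriv, lnA_re]
      have h3 : Real.sin (Real.pi * x) ≤ 1 / 2 := by
        rw [← Real.sin_pi_div_six]
        apply Real.sin_le_sin_of_le_of_le_pi_div_two <;> nlinarith [hx.1, hx.2]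
      have h4 := sin_pos' (x := x) hx.1 (by linarith [hx.2])
      have : Real.log (4 * Real.sin (Real.pi * x) ^ 2) ≤ 0 := by
        apply Real.log_nonpos (by positivity)
        nlinarith
      linarith
  exact hm ⟨h1, by linarith⟩ ⟨by linarith, hb⟩ hab

theorem ur_zero : ur 0 = 0 := by
  unfold ur
  rw [UA.uu_zero]
  simp

theorem ur_one_sub (x : ℝ) : ur (1 - x) = -ur x := uu_one_sub x 0

section
open NumIs (V)
open NumUs NumUs.E

theorem ur_sixth : -(1616 / 10000) ≤ ur (1 / 6) := by
  have h : chk [add (E.uu (q 1 6) (q 0 1)) (q 1616 10000)] 1 [V.of 1 0 0] = true := by decide +kernel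
  have hp := pos_of_chk (chk1 h (by norm_num) (x := 0) (by norm_num) (by norm_num))
  simp only [val] at hp
  unfold ur
  norm_num at hp ⊢
  linarith

/-! ### soundness of the rows of the old values -/

theorem u1_val (e : E) (xs : List ℝ) : (u1 e).val xs = ur (e.val xs) := by
  unfold u1 ur
  simp only [r0, val]
  norm_num

theorem k0 (a b : ℝ) : NumIs.lkR [a, b] 0 = a := rfl
theorem k1 (a b : ℝ) : NumIs.lkR [a, b] 1 = b := rfl

/-- the old value, slot `0` -/
noncomputable def PS0 (n d w e : ℝ) : ℝ := ur d + ur e + n * ur w - (ur (7 / 20 - d) + ur (7 / 20))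

/-- the old value, slot `2` -/
noncomputable def PS2 (n d w e : ℝ) : ℝ := ur d + ur e + n * ur w + ur (d + w) - 2 * ur (7 / 20)

theorem flag_le {f : Bool} {a b : E} {xs : List ℝ} {x c : ℝ} (ha : (u1 a).val xs = ur c)
    (hb : (u1 b).val xs = ur x) (h0 : 0 ≤ x) (hc : c ≤ 1 / 6) (hf : f = true → x ≤ c) :
    (cond f (u1 a) (u1 b)).val xs ≤ ur x := by
  cases f
  · exact hb.le
  · rw [cond_true, ha]
    exact ur_anti h0 (hf rfl) hc

theorem eE_val {d w e : ℝ} (hs : d + w + e = 7 / 20) : eE.val [d, w] = e := by
  simp only [eE, val, k0, k1]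
  norm_num
  linarith

theorem eps_val (xs : List ℝ) : eps.val xs = 1 / 100 := by
  simp only [eps, val]
  norm_num

theorem p0_le {fd fw fe zz : Bool} {n : ℤ} (hn : 0 ≤ n) {d w e : ℝ} (hd0 : 0 ≤ d) (hw0 : 0 ≤ w)
    (he0 : 0 ≤ e) (hs : d + w + e = 7 / 20) (hd : fd = true → d ≤ 1 / 100)
    (hw : fw = true → w ≤ 1 / 100) (he : fe = true → e ≤ 1 / 100)
    (hz : zz = true → 7 / 20 - d ≤ 2 / 100) : (p0 fd fw fe zz n).val [d, w] ≤ PS0 n d w e := by
  have hn' : (0 : ℝ) ≤ n := by exact_mod_cast hn
  have a1 : (cond fd (u1 eps) (u1 (var 0))).val [d, w] ≤ ur d :=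
    flag_le (by rw [u1_val, eps_val]) (by rw [u1_val]; rfl) hd0 (by norm_num) hd
  have a2 : (cond fe (u1 eps) (u1 eE)).val [d, w] ≤ ur e :=
    flag_le (by rw [u1_val, eps_val]) (by rw [u1_val, eE_val hs]) he0 (by norm_num) he
  have a3 : (cond fw (u1 eps) (u1 (var 1))).val [d, w] ≤ ur w :=
    flag_le (by rw [u1_val, eps_val]) (by rw [u1_val]; rfl) hw0 (by norm_num) hw
  have a4 : ur (7 / 20 - d) ≤ (cond zz r0 (u1 (sub (q 7 20) (var 0)))).val [d, w] := by
    cases zz
    · rw [cond_false, u1_val]
      simp only [val, k0]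
      norm_num
    · rw [cond_true]
      have := ur_anti le_rfl (by linarith : 0 ≤ 7 / 20 - d) (by linarith [hz rfl])
      rw [ur_zero] at this
      simp only [r0, val]
      norm_num
      linarith
  have a5 : (u1 (q 7 20)).val [d, w] = ur (7 / 20) := by
    rw [u1_val]
    simp only [val]
    norm_num
  have a6 := mul_le_mul_of_nonneg_left a3 hn'
  unfold p0 PS0
  simp only [val] at *
  norm_num at a5 ⊢
  linarith

theorem p2_le {fd fw fe zz : Bool} {n : ℤ} (hn : 0 ≤ n) {d w e : ℝ} (hd0 : 0 ≤ d) (hw0 : 0 ≤ w)
    (he0 : 0 ≤ e) (hs : d + w + e = 7 / 20) (hd : fd = true → d ≤ 1 / 100)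
    (hw : fw = true → w ≤ 1 / 100) (he : fe = true → e ≤ 1 / 100)
    (hz : zz = true → d + w ≤ 2 / 100) : (p2 fd fw fe zz n).val [d, w] ≤ PS2 n d w e := by
  have hn' : (0 : ℝ) ≤ n := by exact_mod_cast hn
  have a1 : (cond fd (u1 eps) (u1 (var 0))).val [d, w] ≤ ur d :=
    flag_le (by rw [u1_val, eps_val]) (by rw [u1_val]; rfl) hd0 (by norm_num) hd
  have a2 : (cond fe (u1 eps) (u1 eE)).val [d, w] ≤ ur e :=
    flag_le (by rw [u1_val, eps_val]) (by rw [u1_val, eE_val hs]) he0 (by norm_num) he
  have a3 : (cond fw (u1 eps) (u1 (var 1))).val [d, w] ≤ ur w :=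
    flag_le (by rw [u1_val, eps_val]) (by rw [u1_val]; rfl) hw0 (by norm_num) hw
  have a4 : (cond zz (u1 (q 2 100)) (u1 (add (var 0) (var 1)))).val [d, w] ≤ ur (d + w) :=
    flag_le (c := 2 / 100) (by rw [u1_val]; simp only [val]; norm_num)
      (by rw [u1_val]; rfl) (by linarith) (by norm_num) hz
  have a5 : (u1 (q 7 20)).val [d, w] = ur (7 / 20) := by
    rw [u1_val]
    simp only [val]
    norm_num
  have a6 := mul_le_mul_of_nonneg_left a3 hn'
  unfold p2 PS2
  simp only [val] at *
  norm_num at a5 ⊢
  linarith

theorem row_use {p : E} {cw c2 : ℤ} {fe : Bool} {c : ℕ} {dl dh wl wh : ℤ}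
    (h : rowP p cw c2 fe c dl dh wl wh = true) {d w e : ℝ} (hs : d + w + e = 7 / 20)
    (he0 : 0 ≤ e) (hfe : fe = true → e ≤ 1 / 100) (hfe' : fe = false → 1 / 100 ≤ e)
    (d1 : (dl : ℝ) / 1000 ≤ d) (d2 : d ≤ (dh : ℝ) / 1000) (w1 : (wl : ℝ) / 1000 ≤ w)
    (w2 : w ≤ (wh : ℝ) / 1000) :
    (c2 : ℝ) / 10000 < p.val [d, w] + (cw : ℝ) / 1000 * w := by
  obtain ⟨a, ha, hp⟩ := chkT2 h (by norm_num) (x := d) (y := w) (by push_cast; exact d1)
    (by push_cast; exact d2) (by push_cast; exact w1) (by push_cast; exact w2)
  have hE := eE_val hs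
  simp only [es, List.mem_cons, List.not_mem_nil, or_false] at ha
  rcases ha with rfl | rfl | rfl
  · simp only [rP, val, k1] at hp
    push_cast at hp
    linarith
  · exfalso
    cases fe
    · simp only [cond_false, val, hE, eps_val] at hp
      linarith [hfe' rfl]
    · simp only [cond_true, val, hE, eps_val] at hp
      linarith [hfe rfl]
  · exfalso
    simp only [val, hE] at hp
    linarith

theorem sound7 {P : Bool → Bool → Bool → Bool → ℤ → E} {s2 : Bool} {n cw c2 wh : ℤ}
    {c1' c2' c3' c4' c5' c6' c7' : ℕ} (h : R7 P s2 n cw c2 wh c1' c2' c3' c4' c5' c6' c7')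
    {Q : ℝ → ℝ → ℝ → ℝ → ℝ} {d w e : ℝ} (hd0 : 0 ≤ d) (hw0 : 0 ≤ w) (he0 : 0 ≤ e)
    (hs : d + w + e = 7 / 20) (hw : w ≤ (wh : ℝ) / 1000)
    (hP : ∀ fd fw fe zz : Bool, (fd = true → d ≤ 1 / 100) → (fw = true → w ≤ 1 / 100) →
      (fe = true → e ≤ 1 / 100) →
      (zz = true → (s2 = false → 7 / 20 - d ≤ 2 / 100) ∧ (s2 = true → d + w ≤ 2 / 100)) →
      (P fd fw fe zz n).val [d, w] ≤ Q n d w e) :
    (c2 : ℝ) / 10000 ≤ Q n d w e + (cw : ℝ) / 1000 * w := by
  have f0 : (false = true) → False := by decide
  rcases le_total (1 / 100) d with b1 | b1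
  · rcases le_total (1 / 100) w with b2 | b2
    · rcases le_total (1 / 100) e with b3 | b3
      · have k := row_use h.h1 hs he0 (fun h => (f0 h).elim) (fun _ => b3) (by push_cast; linarith)
          (by push_cast; linarith) (by push_cast; linarith) hw
        have k' := hP false false false false (fun h => (f0 h).elim) (fun h => (f0 h).elim)
          (fun h => (f0 h).elim) (fun h => (f0 h).elim)
        linarith
      · have k := row_use h.h2 hs he0 (fun _ => b3) (fun h => by simp at h)
          (by push_cast; linarith) (by push_cast; linarith) (by push_cast; linarith) hw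
        have k' := hP false false true false (fun h => (f0 h).elim) (fun h => (f0 h).elim)
          (fun _ => b3) (fun h => (f0 h).elim)
        linarith
    · rcases le_total (1 / 100) e with b3 | b3
      · have k := row_use h.h3 hs he0 (fun h => (f0 h).elim) (fun _ => b3) (by push_cast; linarith)
          (by push_cast; linarith) (by push_cast; linarith) (by push_cast; linarith)
        have k' := hP false true false false (fun h => (f0 h).elim) (fun _ => b2)
          (fun h => (f0 h).elim) (fun h => (f0 h).elim)
        linarith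
      · have k := row_use h.h4 hs he0 (fun _ => b3) (fun h => by simp at h)
          (by push_cast; linarith) (by push_cast; linarith) (by push_cast; linarith)
          (by push_cast; linarith)
        have k' := hP false true true (!s2) (fun h => (f0 h).elim) (fun _ => b2) (fun _ => b3)
          (fun h => ⟨fun _ => by linarith, fun h' => by rw [h'] at h; simp at h⟩)
        linarith
  · rcases le_total (1 / 100) w with b2 | b2
    · rcases le_total (1 / 100) e with b3 | b3
      · have k := row_use h.h5 hs he0 (fun h => (f0 h).elim) (fun _ => b3) (by push_cast; linarith)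
          (by push_cast; linarith) (by push_cast; linarith) hw
        have k' := hP true false false false (fun _ => b1) (fun h => (f0 h).elim)
          (fun h => (f0 h).elim) (fun h => (f0 h).elim)
        linarith
      · have k := row_use h.h6 hs he0 (fun _ => b3) (fun h => by simp at h)
          (by push_cast; linarith) (by push_cast; linarith) (by push_cast; linarith) hw
        have k' := hP true false true false (fun _ => b1) (fun h => (f0 h).elim)
          (fun _ => b3) (fun h => (f0 h).elim)
        linarith
    · have b3 : 1 / 100 ≤ e := by linarith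
      have k := row_use h.h7 hs he0 (fun h => (f0 h).elim) (fun _ => b3) (by push_cast; linarith)
        (by push_cast; linarith) (by push_cast; linarith) (by push_cast; linarith)
      have k' := hP true true false s2 (fun _ => b1) (fun _ => b2)
        (fun h => (f0 h).elim) (fun h => ⟨fun h' => by rw [h'] at h; simp at h, fun _ => by linarith⟩)
      linarith

theorem sound0 {n cw c2 wh : ℤ} {c1' c2' c3' c4' c5' c6' c7' : ℕ}
    (h : R7 p0 false n cw c2 wh c1' c2' c3' c4' c5' c6' c7') (hn : 0 ≤ n) {d w e : ℝ}
    (hd0 : 0 ≤ d) (hw0 : 0 ≤ w) (he0 : 0 ≤ e) (hs : d + w + e = 7 / 20)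
    (hw : w ≤ (wh : ℝ) / 1000) :
    (c2 : ℝ) / 10000 ≤ PS0 n d w e + (cw : ℝ) / 1000 * w :=
  sound7 h (Q := PS0) hd0 hw0 he0 hs hw fun _ _ _ _ h1 h2 h3 h4 =>
    p0_le hn hd0 hw0 he0 hs h1 h2 h3 fun hz => (h4 hz).1 rfl

theorem sound2 {n cw c2 wh : ℤ} {c1' c2' c3' c4' c5' c6' c7' : ℕ}
    (h : R7 p2 true n cw c2 wh c1' c2' c3' c4' c5' c6' c7') (hn : 0 ≤ n) {d w e : ℝ}
    (hd0 : 0 ≤ d) (hw0 : 0 ≤ w) (he0 : 0 ≤ e) (hs : d + w + e = 7 / 20)
    (hw : w ≤ (wh : ℝ) / 1000) :
    (c2 : ℝ) / 10000 ≤ PS2 n d w e + (cw : ℝ) / 1000 * w :=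
  sound7 h (Q := PS2) hd0 hw0 he0 hs hw fun _ _ _ _ h1 h2 h3 h4 =>
    p2_le hn hd0 hw0 he0 hs h1 h2 h3 fun hz => (h4 hz).2 rfl

end

end K3o

end TL

end Pool.Agent.Work.MP_b30479_gtS.G2

end

section

/-!
# Tails, row `KZ` (a touched ring): certificates
-/

set_option deprecated.oldSectionVars true

namespace Pool.Agent.Work.MP_b30479_gtS.G2

namespace TL.K5

section
open NumUs NumUs.E
open NumIs (V)

theorem kAn1 : chkT [(sub (add (add (E.uu (add (var 0) (q 265 1000)) (add (var 1) (var 2))) (E.uu (add (var 0) (q 735 1000)) (sub (var 1) (var 2)))) (add (q 2592 10000) (mul (q 9030 10000) (var 2)))) (mul (q 2 1) (E.uu (add (var 0) (q 1 2)) (var 1)))),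
  (sub (add (add (E.uu (add (var 0) (q 330 1000)) (add (var 1) (var 2))) (E.uu (add (var 0) (q 670 1000)) (sub (var 1) (var 2)))) (add (q 3285 10000) (mul (q (-10507) 10000) (var 2)))) (mul (q 2 1) (E.uu (add (var 0) (q 1 2)) (var 1)))),
  (sub (add (add (E.uu (add (var 0) (q 410 1000)) (add (var 1) (var 2))) (E.uu (add (var 0) (q 590 1000)) (sub (var 1) (var 2)))) (add (q 3695 10000) (mul (q (-34913) 10000) (var 2)))) (mul (q 2 1) (E.uu (add (var 0) (q 1 2)) (var 1)))),
  (sub (add (add (E.uu (add (var 0) (q 460 1000)) (add (var 1) (var 2))) (E.uu (add (var 0) (q 540 1000)) (sub (var 1) (var 2)))) (add (q 3822 10000) (mul (q (-49779) 10000) (var 2)))) (mul (q 2 1) (E.uu (add (var 0) (q 1 2)) (var 1))))] 40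
  0x99180
  [V.of 10000 0 2500, V.of 10000 (-1580) 0, V.of 10000 0 1045] = true := by
  decide +kernel

theorem kAn2 : chkT [(sub (add (add (E.uu (add (var 0) (q 330 1000)) (add (var 1) (var 2))) (E.uu (add (var 0) (q 670 1000)) (sub (var 1) (var 2)))) (add (q 3285 10000) (mul (q (-10507) 10000) (var 2)))) (mul (q 2 1) (E.uu (add (var 0) (q 1 2)) (var 1)))),
  (sub (add (add (E.uu (add (var 0) (q 410 1000)) (add (var 1) (var 2))) (E.uu (add (var 0) (q 590 1000)) (sub (var 1) (var 2)))) (add (q 3695 10000) (mul (q (-34913) 10000) (var 2)))) (mul (q 2 1) (E.uu (add (var 0) (q 1 2)) (var 1)))),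
  (sub (add (add (E.uu (add (var 0) (q 460 1000)) (add (var 1) (var 2))) (E.uu (add (var 0) (q 540 1000)) (sub (var 1) (var 2)))) (add (q 3822 10000) (mul (q (-49779) 10000) (var 2)))) (mul (q 2 1) (E.uu (add (var 0) (q 1 2)) (var 1)))),
  (sub (add (add (E.uu (add (var 0) (q 265 1000)) (add (var 1) (var 2))) (add (E.uu (sub (var 0) (q 265 1000)) (sub (var 1) (var 2))) (mul pi (sub (var 2) (var 1))))) (add (q 2592 10000) (mul (q 9030 10000) (var 2)))) (mul (q 2 1) (E.uu (add (var 0) (q 1 2)) (var 1)))),
  (sub (add (add (E.uu (add (var 0) (q 330 1000)) (add (var 1) (var 2))) (add (E.uu (sub (var 0) (q 330 1000)) (sub (var 1) (var 2))) (mul pi (sub (var 2) (var 1))))) (add (q 3285 10000) (mul (q (-10507) 10000) (var 2)))) (mul (q 2 1) (E.uu (add (var 0) (q 1 2)) (var 1)))),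
  (sub (add (add (E.uu (add (var 0) (q 410 1000)) (add (var 1) (var 2))) (add (E.uu (sub (var 0) (q 410 1000)) (sub (var 1) (var 2))) (mul pi (sub (var 2) (var 1))))) (add (q 3695 10000) (mul (q (-34913) 10000) (var 2)))) (mul (q 2 1) (E.uu (add (var 0) (q 1 2)) (var 1)))),
  (sub (add (add (E.uu (add (var 0) (q 460 1000)) (add (var 1) (var 2))) (add (E.uu (sub (var 0) (q 460 1000)) (sub (var 1) (var 2))) (mul pi (sub (var 2) (var 1))))) (add (q 3822 10000) (mul (q (-49779) 10000) (var 2)))) (mul (q 2 1) (E.uu (add (var 0) (q 1 2)) (var 1))))] 40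
  0xbb1c0c0b1cc1ba20b10bb080a2bb08010
  [V.of 10000 2500 4900, V.of 10000 (-1580) 0, V.of 10000 0 1045] = true := by
  decide +kernel

theorem kAn3 : chkT [(sub (add (add (E.uu (add (var 0) (q 265 1000)) (add (var 1) (var 2))) (add (E.uu (sub (var 0) (q 265 1000)) (sub (var 1) (var 2))) (mul pi (sub (var 2) (var 1))))) (add (q 2592 10000) (mul (q 9030 10000) (var 2)))) (add (mul pi (neg (var 1))) (q 76 1000))),
  (sub (add (add (E.uu (add (var 0) (q 330 1000)) (add (var 1) (var 2))) (add (E.uu (sub (var 0) (q 330 1000)) (sub (var 1) (var 2))) (mul pi (sub (var 2) (var 1))))) (add (q 3285 10000) (mul (q (-10507) 10000) (var 2)))) (add (mul pi (neg (var 1))) (q 76 1000))),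
  (sub (add (add (E.uu (add (var 0) (q 410 1000)) (add (var 1) (var 2))) (add (E.uu (sub (var 0) (q 410 1000)) (sub (var 1) (var 2))) (mul pi (sub (var 2) (var 1))))) (add (q 3695 10000) (mul (q (-34913) 10000) (var 2)))) (add (mul pi (neg (var 1))) (q 76 1000))),
  (sub (add (add (E.uu (add (var 0) (q 460 1000)) (add (var 1) (var 2))) (add (E.uu (sub (var 0) (q 460 1000)) (sub (var 1) (var 2))) (mul pi (sub (var 2) (var 1))))) (add (q 3822 10000) (mul (q (-49779) 10000) (var 2)))) (add (mul pi (neg (var 1))) (q 76 1000)))] 40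
  0x8
  [V.of 10000 4900 5000, V.of 10000 (-1580) 0, V.of 10000 0 1045] = true := by
  decide +kernel

theorem kAp1 : chkT [(sub (add (add (E.uu (add (var 0) (q 265 1000)) (add (var 1) (var 2))) (E.uu (add (var 0) (q 735 1000)) (sub (var 1) (var 2)))) (add (q 2592 10000) (mul (q 9030 10000) (var 2)))) (mul (q 2 1) (E.uu (add (var 0) (q 1 2)) (var 1)))),
  (sub (add (add (E.uu (add (var 0) (q 330 1000)) (add (var 1) (var 2))) (E.uu (add (var 0) (q 670 1000)) (sub (var 1) (var 2)))) (add (q 3285 10000) (mul (q (-10507) 10000) (var 2)))) (mul (q 2 1) (E.uu (add (var 0) (q 1 2)) (var 1)))),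
  (sub (add (add (E.uu (add (var 0) (q 410 1000)) (add (var 1) (var 2))) (E.uu (add (var 0) (q 590 1000)) (sub (var 1) (var 2)))) (add (q 3695 10000) (mul (q (-34913) 10000) (var 2)))) (mul (q 2 1) (E.uu (add (var 0) (q 1 2)) (var 1)))),
  (sub (add (add (E.uu (add (var 0) (q 460 1000)) (add (var 1) (var 2))) (E.uu (add (var 0) (q 540 1000)) (sub (var 1) (var 2)))) (add (q 3822 10000) (mul (q (-49779) 10000) (var 2)))) (mul (q 2 1) (E.uu (add (var 0) (q 1 2)) (var 1))))] 40
  0x98080
  [V.of 10000 0 2600, V.of 10000 0 560, V.of 10000 0 1045] = true := by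
  decide +kernel

theorem kAp2 : chkT [(sub (add (add (E.uu (add (var 0) (q 330 1000)) (add (var 1) (var 2))) (E.uu (add (var 0) (q 670 1000)) (sub (var 1) (var 2)))) (add (q 3285 10000) (mul (q (-10507) 10000) (var 2)))) (mul (q 2 1) (E.uu (add (var 0) (q 1 2)) (var 1)))),
  (sub (add (add (E.uu (add (var 0) (q 410 1000)) (add (var 1) (var 2))) (E.uu (add (var 0) (q 590 1000)) (sub (var 1) (var 2)))) (add (q 3695 10000) (mul (q (-34913) 10000) (var 2)))) (mul (q 2 1) (E.uu (add (var 0) (q 1 2)) (var 1)))),
  (sub (add (add (E.uu (add (var 0) (q 460 1000)) (add (var 1) (var 2))) (E.uu (add (var 0) (q 540 1000)) (sub (var 1) (var 2)))) (add (q 3822 10000) (mul (q (-49779) 10000) (var 2)))) (mul (q 2 1) (E.uu (add (var 0) (q 1 2)) (var 1)))),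
  (sub (add (add (E.uu (add (var 0) (q 265 1000)) (add (var 1) (var 2))) (add (E.uu (sub (var 0) (q 265 1000)) (sub (var 1) (var 2))) (mul pi (sub (var 2) (var 1))))) (add (q 2592 10000) (mul (q 9030 10000) (var 2)))) (mul (q 2 1) (E.uu (add (var 0) (q 1 2)) (var 1)))),
  (sub (add (add (E.uu (add (var 0) (q 265 1000)) (add (var 1) (var 2))) (add (E.uu (sub (var 0) (q 265 1000)) (sub (var 1) (var 2))) (mul pi (sub (var 1) (var 2))))) (add (q 2592 10000) (mul (q 9030 10000) (var 2)))) (mul (q 2 1) (E.uu (add (var 0) (q 1 2)) (var 1)))),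
  (sub (add (add (E.uu (add (var 0) (q 330 1000)) (add (var 1) (var 2))) (add (E.uu (sub (var 0) (q 330 1000)) (sub (var 1) (var 2))) (mul pi (sub (var 2) (var 1))))) (add (q 3285 10000) (mul (q (-10507) 10000) (var 2)))) (mul (q 2 1) (E.uu (add (var 0) (q 1 2)) (var 1)))),
  (sub (add (add (E.uu (add (var 0) (q 330 1000)) (add (var 1) (var 2))) (add (E.uu (sub (var 0) (q 330 1000)) (sub (var 1) (var 2))) (mul pi (sub (var 1) (var 2))))) (add (q 3285 10000) (mul (q (-10507) 10000) (var 2)))) (mul (q 2 1) (E.uu (add (var 0) (q 1 2)) (var 1))))] 40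
  0xd92bb0920b921b9280800a2
  [V.of 10000 2600 3800, V.of 10000 0 560, V.of 10000 0 1045] = true := by
  decide +kernel

theorem kAp3 : chkT [(sub (add (add (E.uu (add (var 0) (q 410 1000)) (add (var 1) (var 2))) (E.uu (add (var 0) (q 590 1000)) (sub (var 1) (var 2)))) (add (q 3695 10000) (mul (q (-34913) 10000) (var 2)))) (mul (q 2 1) (E.uu (add (var 0) (q 1 2)) (var 1)))),
  (sub (add (add (E.uu (add (var 0) (q 460 1000)) (add (var 1) (var 2))) (E.uu (add (var 0) (q 540 1000)) (sub (var 1) (var 2)))) (add (q 3822 10000) (mul (q (-49779) 10000) (var 2)))) (mul (q 2 1) (E.uu (add (var 0) (q 1 2)) (var 1)))),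
  (sub (add (add (E.uu (add (var 0) (q 265 1000)) (add (var 1) (var 2))) (add (E.uu (sub (var 0) (q 265 1000)) (sub (var 1) (var 2))) (mul pi (sub (var 2) (var 1))))) (add (q 2592 10000) (mul (q 9030 10000) (var 2)))) (mul (q 2 1) (E.uu (add (var 0) (q 1 2)) (var 1)))),
  (sub (add (add (E.uu (add (var 0) (q 265 1000)) (add (var 1) (var 2))) (add (E.uu (sub (var 0) (q 265 1000)) (sub (var 1) (var 2))) (mul pi (sub (var 1) (var 2))))) (add (q 2592 10000) (mul (q 9030 10000) (var 2)))) (mul (q 2 1) (E.uu (add (var 0) (q 1 2)) (var 1)))),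
  (sub (add (add (E.uu (add (var 0) (q 410 1000)) (add (var 1) (var 2))) (add (E.uu (sub (var 0) (q 410 1000)) (sub (var 1) (var 2))) (mul pi (sub (var 2) (var 1))))) (add (q 3695 10000) (mul (q (-34913) 10000) (var 2)))) (mul (q 2 1) (E.uu (add (var 0) (q 1 2)) (var 1)))),
  (sub (add (add (E.uu (add (var 0) (q 410 1000)) (add (var 1) (var 2))) (add (E.uu (sub (var 0) (q 410 1000)) (sub (var 1) (var 2))) (mul pi (sub (var 1) (var 2))))) (add (q 3695 10000) (mul (q (-34913) 10000) (var 2)))) (mul (q 2 1) (E.uu (add (var 0) (q 1 2)) (var 1)))),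
  (sub (add (add (E.uu (add (var 0) (q 460 1000)) (add (var 1) (var 2))) (add (E.uu (sub (var 0) (q 460 1000)) (sub (var 1) (var 2))) (mul pi (sub (var 2) (var 1))))) (add (q 3822 10000) (mul (q (-49779) 10000) (var 2)))) (mul (q 2 1) (E.uu (add (var 0) (q 1 2)) (var 1)))),
  (sub (add (add (E.uu (add (var 0) (q 460 1000)) (add (var 1) (var 2))) (add (E.uu (sub (var 0) (q 460 1000)) (sub (var 1) (var 2))) (mul pi (sub (var 1) (var 2))))) (add (q 3822 10000) (mul (q (-49779) 10000) (var 2)))) (mul (q 2 1) (E.uu (add (var 0) (q 1 2)) (var 1))))] 40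
  0xab2c1ab2c10aaa9220a1bc199202ac210aa9292292a921a99280912a19200
  [V.of 10000 3800 4900, V.of 10000 0 560, V.of 10000 0 1045] = true := by
  decide +kernel

theorem kAp4 : chkT [(sub (add (add (E.uu (add (var 0) (q 265 1000)) (add (var 1) (var 2))) (add (E.uu (sub (var 0) (q 265 1000)) (sub (var 1) (var 2))) (mul pi (sub (var 2) (var 1))))) (add (q 2592 10000) (mul (q 9030 10000) (var 2)))) (add (mul pi (var 1)) (q 76 1000))),
  (sub (add (add (E.uu (add (var 0) (q 265 1000)) (add (var 1) (var 2))) (add (E.uu (sub (var 0) (q 265 1000)) (sub (var 1) (var 2))) (mul pi (sub (var 1) (var 2))))) (add (q 2592 10000) (mul (q 9030 10000) (var 2)))) (add (mul pi (var 1)) (q 76 1000))),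
  (sub (add (add (E.uu (add (var 0) (q 330 1000)) (add (var 1) (var 2))) (add (E.uu (sub (var 0) (q 330 1000)) (sub (var 1) (var 2))) (mul pi (sub (var 2) (var 1))))) (add (q 3285 10000) (mul (q (-10507) 10000) (var 2)))) (add (mul pi (var 1)) (q 76 1000))),
  (sub (add (add (E.uu (add (var 0) (q 330 1000)) (add (var 1) (var 2))) (add (E.uu (sub (var 0) (q 330 1000)) (sub (var 1) (var 2))) (mul pi (sub (var 1) (var 2))))) (add (q 3285 10000) (mul (q (-10507) 10000) (var 2)))) (add (mul pi (var 1)) (q 76 1000))),
  (sub (add (add (E.uu (add (var 0) (q 460 1000)) (add (var 1) (var 2))) (add (E.uu (sub (var 0) (q 460 1000)) (sub (var 1) (var 2))) (mul pi (sub (var 2) (var 1))))) (add (q 3822 10000) (mul (q (-49779) 10000) (var 2)))) (add (mul pi (var 1)) (q 76 1000))),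
  (sub (add (add (E.uu (add (var 0) (q 460 1000)) (add (var 1) (var 2))) (add (E.uu (sub (var 0) (q 460 1000)) (sub (var 1) (var 2))) (mul pi (sub (var 1) (var 2))))) (add (q 3822 10000) (mul (q (-49779) 10000) (var 2)))) (add (mul pi (var 1)) (q 76 1000)))] 40
  0x892
  [V.of 10000 4900 5000, V.of 10000 0 560, V.of 10000 0 1045] = true := by
  decide +kernel

theorem kBn1 : chkT [(sub (add (add (E.uu (add (var 0) (q 265 1000)) (add (var 1) (var 2))) (E.uu (add (var 0) (q 735 1000)) (sub (var 1) (var 2)))) (add (q 1460 10000) (mul (q 10430 10000) (var 2)))) (add (E.uu (add (var 0) (q 265 1000)) (var 1)) (E.uu (add (var 0) (q 735 1000)) (var 1)))),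
  (sub (add (add (E.uu (add (var 0) (q 330 1000)) (add (var 1) (var 2))) (E.uu (add (var 0) (q 670 1000)) (sub (var 1) (var 2)))) (add (q 1985 10000) (mul (q (-10507) 10000) (var 2)))) (add (E.uu (add (var 0) (q 265 1000)) (var 1)) (E.uu (add (var 0) (q 735 1000)) (var 1)))),
  (sub (add (add (E.uu (add (var 0) (q 410 1000)) (add (var 1) (var 2))) (E.uu (add (var 0) (q 590 1000)) (sub (var 1) (var 2)))) (add (q 2395 10000) (mul (q (-34913) 10000) (var 2)))) (add (E.uu (add (var 0) (q 265 1000)) (var 1)) (E.uu (add (var 0) (q 735 1000)) (var 1)))),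
  (sub (add (add (E.uu (add (var 0) (q 460 1000)) (add (var 1) (var 2))) (E.uu (add (var 0) (q 540 1000)) (sub (var 1) (var 2)))) (add (q 2522 10000) (mul (q (-49779) 10000) (var 2)))) (add (E.uu (add (var 0) (q 265 1000)) (var 1)) (E.uu (add (var 0) (q 735 1000)) (var 1))))] 40
  0x9918190909800
  [V.of 10000 0 2550, V.of 10000 (-1580) 0, V.of 10000 0 1045] = true := by
  decide +kernel

theorem kBn2 : chkT [(sub (add (add (E.uu (add (var 0) (q 330 1000)) (add (var 1) (var 2))) (E.uu (add (var 0) (q 670 1000)) (sub (var 1) (var 2)))) (add (q 1985 10000) (mul (q (-10507) 10000) (var 2)))) (add (E.uu (add (var 0) (q 265 1000)) (var 1)) (add (mul pi (mul (q 1 2) (neg (var 1)))) (q 38 1000)))),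
  (sub (add (add (E.uu (add (var 0) (q 410 1000)) (add (var 1) (var 2))) (E.uu (add (var 0) (q 590 1000)) (sub (var 1) (var 2)))) (add (q 2395 10000) (mul (q (-34913) 10000) (var 2)))) (add (E.uu (add (var 0) (q 265 1000)) (var 1)) (add (mul pi (mul (q 1 2) (neg (var 1)))) (q 38 1000)))),
  (sub (add (add (E.uu (add (var 0) (q 460 1000)) (add (var 1) (var 2))) (E.uu (add (var 0) (q 540 1000)) (sub (var 1) (var 2)))) (add (q 2522 10000) (mul (q (-49779) 10000) (var 2)))) (add (E.uu (add (var 0) (q 265 1000)) (var 1)) (add (mul pi (mul (q 1 2) (neg (var 1)))) (q 38 1000))))] 40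
  0x880
  [V.of 10000 2550 2750, V.of 10000 (-1580) 0, V.of 10000 0 1045] = true := by
  decide +kernel

theorem kBn3 : chkT [(sub (add (add (E.uu (add (var 0) (q 330 1000)) (add (var 1) (var 2))) (E.uu (add (var 0) (q 670 1000)) (sub (var 1) (var 2)))) (add (q 1985 10000) (mul (q (-10507) 10000) (var 2)))) (add (E.uu (add (var 0) (q 265 1000)) (var 1)) (add (E.uu (sub (var 0) (q 265 1000)) (var 1)) (mul pi (neg (var 1)))))),
  (sub (add (add (E.uu (add (var 0) (q 410 1000)) (add (var 1) (var 2))) (E.uu (add (var 0) (q 590 1000)) (sub (var 1) (var 2)))) (add (q 2395 10000) (mul (q (-34913) 10000) (var 2)))) (add (E.uu (add (var 0) (q 265 1000)) (var 1)) (add (E.uu (sub (var 0) (q 265 1000)) (var 1)) (mul pi (neg (var 1)))))),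
  (sub (add (add (E.uu (add (var 0) (q 460 1000)) (add (var 1) (var 2))) (E.uu (add (var 0) (q 540 1000)) (sub (var 1) (var 2)))) (add (q 2522 10000) (mul (q (-49779) 10000) (var 2)))) (add (E.uu (add (var 0) (q 265 1000)) (var 1)) (add (E.uu (sub (var 0) (q 265 1000)) (var 1)) (mul pi (neg (var 1)))))),
  (sub (add (add (E.uu (add (var 0) (q 265 1000)) (add (var 1) (var 2))) (add (E.uu (sub (var 0) (q 265 1000)) (sub (var 1) (var 2))) (mul pi (sub (var 2) (var 1))))) (add (q 1460 10000) (mul (q 10430 10000) (var 2)))) (add (E.uu (add (var 0) (q 265 1000)) (var 1)) (add (E.uu (sub (var 0) (q 265 1000)) (var 1)) (mul pi (neg (var 1)))))),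
  (sub (add (add (E.uu (add (var 0) (q 330 1000)) (add (var 1) (var 2))) (add (E.uu (sub (var 0) (q 330 1000)) (sub (var 1) (var 2))) (mul pi (sub (var 2) (var 1))))) (add (q 1985 10000) (mul (q (-10507) 10000) (var 2)))) (add (E.uu (add (var 0) (q 265 1000)) (var 1)) (add (E.uu (sub (var 0) (q 265 1000)) (var 1)) (mul pi (neg (var 1)))))),
  (sub (add (add (E.uu (add (var 0) (q 410 1000)) (add (var 1) (var 2))) (add (E.uu (sub (var 0) (q 410 1000)) (sub (var 1) (var 2))) (mul pi (sub (var 2) (var 1))))) (add (q 2395 10000) (mul (q (-34913) 10000) (var 2)))) (add (E.uu (add (var 0) (q 265 1000)) (var 1)) (add (E.uu (sub (var 0) (q 265 1000)) (var 1)) (mul pi (neg (var 1)))))),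
  (sub (add (add (E.uu (add (var 0) (q 460 1000)) (add (var 1) (var 2))) (add (E.uu (sub (var 0) (q 460 1000)) (sub (var 1) (var 2))) (mul pi (sub (var 2) (var 1))))) (add (q 2522 10000) (mul (q (-49779) 10000) (var 2)))) (add (E.uu (add (var 0) (q 265 1000)) (var 1)) (add (E.uu (sub (var 0) (q 265 1000)) (var 1)) (mul pi (neg (var 1))))))] 40
  0xbb1bb198091b100
  [V.of 10000 2750 5000, V.of 10000 (-1580) 0, V.of 10000 0 1045] = true := by
  decide +kernel

theorem kBp1 : chkT [(sub (add (add (E.uu (add (var 0) (q 265 1000)) (add (var 1) (var 2))) (E.uu (add (var 0) (q 735 1000)) (sub (var 1) (var 2)))) (add (q 1460 10000) (mul (q 10430 10000) (var 2)))) (add (E.uu (add (var 0) (q 265 1000)) (var 1)) (E.uu (add (var 0) (q 735 1000)) (var 1)))),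
  (sub (add (add (E.uu (add (var 0) (q 330 1000)) (add (var 1) (var 2))) (E.uu (add (var 0) (q 670 1000)) (sub (var 1) (var 2)))) (add (q 1985 10000) (mul (q (-10507) 10000) (var 2)))) (add (E.uu (add (var 0) (q 265 1000)) (var 1)) (E.uu (add (var 0) (q 735 1000)) (var 1)))),
  (sub (add (add (E.uu (add (var 0) (q 410 1000)) (add (var 1) (var 2))) (E.uu (add (var 0) (q 590 1000)) (sub (var 1) (var 2)))) (add (q 2395 10000) (mul (q (-34913) 10000) (var 2)))) (add (E.uu (add (var 0) (q 265 1000)) (var 1)) (E.uu (add (var 0) (q 735 1000)) (var 1)))),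
  (sub (add (add (E.uu (add (var 0) (q 460 1000)) (add (var 1) (var 2))) (E.uu (add (var 0) (q 540 1000)) (sub (var 1) (var 2)))) (add (q 2522 10000) (mul (q (-49779) 10000) (var 2)))) (add (E.uu (add (var 0) (q 265 1000)) (var 1)) (E.uu (add (var 0) (q 735 1000)) (var 1))))] 40
  0x990908080
  [V.of 10000 0 2550, V.of 10000 0 560, V.of 10000 0 1045] = true := by
  decide +kernel

theorem kBp2 : chkT [(sub (add (add (E.uu (add (var 0) (q 330 1000)) (add (var 1) (var 2))) (E.uu (add (var 0) (q 670 1000)) (sub (var 1) (var 2)))) (add (q 1985 10000) (mul (q (-10507) 10000) (var 2)))) (add (E.uu (add (var 0) (q 265 1000)) (var 1)) (add (mul pi (mul (q 1 2) (var 1))) (q 38 1000)))),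
  (sub (add (add (E.uu (add (var 0) (q 410 1000)) (add (var 1) (var 2))) (E.uu (add (var 0) (q 590 1000)) (sub (var 1) (var 2)))) (add (q 2395 10000) (mul (q (-34913) 10000) (var 2)))) (add (E.uu (add (var 0) (q 265 1000)) (var 1)) (add (mul pi (mul (q 1 2) (var 1))) (q 38 1000)))),
  (sub (add (add (E.uu (add (var 0) (q 460 1000)) (add (var 1) (var 2))) (E.uu (add (var 0) (q 540 1000)) (sub (var 1) (var 2)))) (add (q 2522 10000) (mul (q (-49779) 10000) (var 2)))) (add (E.uu (add (var 0) (q 265 1000)) (var 1)) (add (mul pi (mul (q 1 2) (var 1))) (q 38 1000))))] 40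
  0x8
  [V.of 10000 2550 2750, V.of 10000 0 560, V.of 10000 0 1045] = true := by
  decide +kernel

theorem kBp3 : chkT [(sub (add (add (E.uu (add (var 0) (q 330 1000)) (add (var 1) (var 2))) (E.uu (add (var 0) (q 670 1000)) (sub (var 1) (var 2)))) (add (q 1985 10000) (mul (q (-10507) 10000) (var 2)))) (add (E.uu (add (var 0) (q 265 1000)) (var 1)) (add (E.uu (sub (var 0) (q 265 1000)) (var 1)) (mul pi (var 1))))),
  (sub (add (add (E.uu (add (var 0) (q 410 1000)) (add (var 1) (var 2))) (E.uu (add (var 0) (q 590 1000)) (sub (var 1) (var 2)))) (add (q 2395 10000) (mul (q (-34913) 10000) (var 2)))) (add (E.uu (add (var 0) (q 265 1000)) (var 1)) (add (E.uu (sub (var 0) (q 265 1000)) (var 1)) (mul pi (var 1))))),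
  (sub (add (add (E.uu (add (var 0) (q 460 1000)) (add (var 1) (var 2))) (E.uu (add (var 0) (q 540 1000)) (sub (var 1) (var 2)))) (add (q 2522 10000) (mul (q (-49779) 10000) (var 2)))) (add (E.uu (add (var 0) (q 265 1000)) (var 1)) (add (E.uu (sub (var 0) (q 265 1000)) (var 1)) (mul pi (var 1))))),
  (sub (add (add (E.uu (add (var 0) (q 265 1000)) (add (var 1) (var 2))) (add (E.uu (sub (var 0) (q 265 1000)) (sub (var 1) (var 2))) (mul pi (sub (var 2) (var 1))))) (add (q 1460 10000) (mul (q 10430 10000) (var 2)))) (add (E.uu (add (var 0) (q 265 1000)) (var 1)) (add (E.uu (sub (var 0) (q 265 1000)) (var 1)) (mul pi (var 1))))),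
  (sub (add (add (E.uu (add (var 0) (q 265 1000)) (add (var 1) (var 2))) (add (E.uu (sub (var 0) (q 265 1000)) (sub (var 1) (var 2))) (mul pi (sub (var 1) (var 2))))) (add (q 1460 10000) (mul (q 10430 10000) (var 2)))) (add (E.uu (add (var 0) (q 265 1000)) (var 1)) (add (E.uu (sub (var 0) (q 265 1000)) (var 1)) (mul pi (var 1))))),
  (sub (add (add (E.uu (add (var 0) (q 330 1000)) (add (var 1) (var 2))) (add (E.uu (sub (var 0) (q 330 1000)) (sub (var 1) (var 2))) (mul pi (sub (var 2) (var 1))))) (add (q 1985 10000) (mul (q (-10507) 10000) (var 2)))) (add (E.uu (add (var 0) (q 265 1000)) (var 1)) (add (E.uu (sub (var 0) (q 265 1000)) (var 1)) (mul pi (var 1))))),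
  (sub (add (add (E.uu (add (var 0) (q 330 1000)) (add (var 1) (var 2))) (add (E.uu (sub (var 0) (q 330 1000)) (sub (var 1) (var 2))) (mul pi (sub (var 1) (var 2))))) (add (q 1985 10000) (mul (q (-10507) 10000) (var 2)))) (add (E.uu (add (var 0) (q 265 1000)) (var 1)) (add (E.uu (sub (var 0) (q 265 1000)) (var 1)) (mul pi (var 1)))))] 40
  0xb9092988100
  [V.of 10000 2750 3800, V.of 10000 0 560, V.of 10000 0 1045] = true := by
  decide +kernel

theorem kBp4 : chkT [(sub (add (add (E.uu (add (var 0) (q 410 1000)) (add (var 1) (var 2))) (E.uu (add (var 0) (q 590 1000)) (sub (var 1) (var 2)))) (add (q 2395 10000) (mul (q (-34913) 10000) (var 2)))) (add (E.uu (add (var 0) (q 265 1000)) (var 1)) (add (E.uu (sub (var 0) (q 265 1000)) (var 1)) (mul pi (var 1))))),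
  (sub (add (add (E.uu (add (var 0) (q 460 1000)) (add (var 1) (var 2))) (E.uu (add (var 0) (q 540 1000)) (sub (var 1) (var 2)))) (add (q 2522 10000) (mul (q (-49779) 10000) (var 2)))) (add (E.uu (add (var 0) (q 265 1000)) (var 1)) (add (E.uu (sub (var 0) (q 265 1000)) (var 1)) (mul pi (var 1))))),
  (sub (add (add (E.uu (add (var 0) (q 265 1000)) (add (var 1) (var 2))) (add (E.uu (sub (var 0) (q 265 1000)) (sub (var 1) (var 2))) (mul pi (sub (var 2) (var 1))))) (add (q 1460 10000) (mul (q 10430 10000) (var 2)))) (add (E.uu (add (var 0) (q 265 1000)) (var 1)) (add (E.uu (sub (var 0) (q 265 1000)) (var 1)) (mul pi (var 1))))),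
  (sub (add (add (E.uu (add (var 0) (q 265 1000)) (add (var 1) (var 2))) (add (E.uu (sub (var 0) (q 265 1000)) (sub (var 1) (var 2))) (mul pi (sub (var 1) (var 2))))) (add (q 1460 10000) (mul (q 10430 10000) (var 2)))) (add (E.uu (add (var 0) (q 265 1000)) (var 1)) (add (E.uu (sub (var 0) (q 265 1000)) (var 1)) (mul pi (var 1))))),
  (sub (add (add (E.uu (add (var 0) (q 410 1000)) (add (var 1) (var 2))) (add (E.uu (sub (var 0) (q 410 1000)) (sub (var 1) (var 2))) (mul pi (sub (var 2) (var 1))))) (add (q 2395 10000) (mul (q (-34913) 10000) (var 2)))) (add (E.uu (add (var 0) (q 265 1000)) (var 1)) (add (E.uu (sub (var 0) (q 265 1000)) (var 1)) (mul pi (var 1))))),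
  (sub (add (add (E.uu (add (var 0) (q 410 1000)) (add (var 1) (var 2))) (add (E.uu (sub (var 0) (q 410 1000)) (sub (var 1) (var 2))) (mul pi (sub (var 1) (var 2))))) (add (q 2395 10000) (mul (q (-34913) 10000) (var 2)))) (add (E.uu (add (var 0) (q 265 1000)) (var 1)) (add (E.uu (sub (var 0) (q 265 1000)) (var 1)) (mul pi (var 1))))),
  (sub (add (add (E.uu (add (var 0) (q 460 1000)) (add (var 1) (var 2))) (add (E.uu (sub (var 0) (q 460 1000)) (sub (var 1) (var 2))) (mul pi (sub (var 2) (var 1))))) (add (q 2522 10000) (mul (q (-49779) 10000) (var 2)))) (add (E.uu (add (var 0) (q 265 1000)) (var 1)) (add (E.uu (sub (var 0) (q 265 1000)) (var 1)) (mul pi (var 1))))),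
  (sub (add (add (E.uu (add (var 0) (q 460 1000)) (add (var 1) (var 2))) (add (E.uu (sub (var 0) (q 460 1000)) (sub (var 1) (var 2))) (mul pi (sub (var 1) (var 2))))) (add (q 2522 10000) (mul (q (-49779) 10000) (var 2)))) (add (E.uu (add (var 0) (q 265 1000)) (var 1)) (add (E.uu (sub (var 0) (q 265 1000)) (var 1)) (mul pi (var 1)))))] 40
  0xab2ab20
  [V.of 10000 3800 5000, V.of 10000 0 560, V.of 10000 0 1045] = true := by
  decide +kernel

theorem kC : chkT [(add (add (sub (add (E.uu (add (var 0) (q 265 1000)) (add (var 1) (var 2))) (add (E.uu (sub (var 0) (q 265 1000)) (sub (var 1) (var 2))) (mul pi (sub (var 2) (var 1))))) (mul (q 2 1) (E.uu (var 0) (var 1)))) (add (q 1460 10000) (mul (q 10430 10000) (var 2)))) (mul pi (var 1))),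
  (sub (neg (mul (q 158 290) (sub (q 65 100) (var 0)))) (var 1))] 40
  0x88822809180
  [V.of 10000 5000 6500, V.of 10000 (-818) 0, V.of 10000 0 1045] = true := by
  decide +kernel

theorem ks1A0 : chkT [(sub (add (sub (add (E.uu (q 515 1000) (add (var 0) (var 1))) (E.uu (q 985 1000) (sub (var 0) (var 1)))) (mul (q 2 1) (E.uu (q 250 1000) (var 0)))) (sub (mul (q 21 10) (var 0)) (q 1 100))) (add (q 2592 10000) (mul (q 12800 10000) (var 1))))] 40
  0x888018800
  [V.of 10000 (-1580) (-380), V.of 10000 0 1045] = true := by
  decide +kernel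

theorem ks1B0 : chkT [(sub (add (sub (add (E.uu (q 515 1000) (add (var 0) (var 1))) (E.uu (q 985 1000) (sub (var 0) (var 1)))) (mul (q 2 1) (E.uu (q 250 1000) (var 0)))) (sub (mul (q 21 10) (var 0)) (q 14 100))) (add (q 1460 10000) (mul (q 14200 10000) (var 1))))] 40
  0x8818810888018888101008881881018881881010888080100
  [V.of 10000 (-1580) (-380), V.of 10000 0 1045] = true := by
  decide +kernel

theorem ks2A0 : chkT [(sub (add (sub (add (E.uu (q 515 1000) (add (var 0) (var 1))) (E.uu (q 985 1000) (sub (var 0) (var 1)))) (mul (q 2 1) (E.uu (q 250 1000) (var 0)))) (sub (mul (q 17 10) (var 0)) (q 6 100))) (add (q 2592 10000) (mul (q 12800 10000) (var 1))))] 40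
  0x88880118881881010888188108888011010888808018800188100
  [V.of 10000 (-1310) 40, V.of 10000 0 1045] = true := by
  decide +kernel

theorem ks3A0 : chkT [(sub (sub (sub (add (E.uu (q 515 1000) (add (var 0) (var 1))) (E.uu (q 985 1000) (sub (var 0) (var 1)))) (mul (q 2 1) (E.uu (q 250 1000) (var 0)))) (q 1 100)) (add (q 2592 10000) (mul (q 12800 10000) (var 1))))] 40
  0x881881188118818811088088110888110
  [V.of 10000 (-385) 590, V.of 10000 0 1045] = true := by
  decide +kernel

theorem ks1A1 : chkT [(sub (add (sub (add (E.uu (q 580 1000) (add (var 0) (var 1))) (E.uu (q 920 1000) (sub (var 0) (var 1)))) (mul (q 2 1) (E.uu (q 250 1000) (var 0)))) (sub (mul (q 21 10) (var 0)) (q 1 100))) (add (q 3285 10000) (mul (q 9600 10000) (var 1))))] 40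
  0x8880088801888018888011000
  [V.of 10000 (-1580) (-380), V.of 10000 0 1045] = true := by
  decide +kernel

theorem ks2A1 : chkT [(sub (add (sub (add (E.uu (q 580 1000) (add (var 0) (var 1))) (E.uu (q 920 1000) (sub (var 0) (var 1)))) (mul (q 2 1) (E.uu (q 250 1000) (var 0)))) (sub (mul (q 17 10) (var 0)) (q 6 100))) (add (q 3285 10000) (mul (q 9600 10000) (var 1))))] 40
  0x881888010881888010881881000
  [V.of 10000 (-1310) 40, V.of 10000 0 1045] = true := by
  decide +kernel

theorem ks3A1 : chkT [(sub (sub (sub (add (E.uu (q 580 1000) (add (var 0) (var 1))) (E.uu (q 920 1000) (sub (var 0) (var 1)))) (mul (q 2 1) (E.uu (q 250 1000) (var 0)))) (q 1 100)) (add (q 3285 10000) (mul (q 9600 10000) (var 1))))] 40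
  0x880
  [V.of 10000 (-385) 590, V.of 10000 0 1045] = true := by
  decide +kernel

theorem ks1A2 : chkT [(sub (add (sub (add (E.uu (q 660 1000) (add (var 0) (var 1))) (E.uu (q 840 1000) (sub (var 0) (var 1)))) (mul (q 2 1) (E.uu (q 250 1000) (var 0)))) (sub (mul (q 21 10) (var 0)) (q 1 100))) (add (q 3695 10000) (mul (q 5300 10000) (var 1))))] 40
  0x888188188188811881881888101100000
  [V.of 10000 (-1580) (-380), V.of 10000 0 1045] = true := by
  decide +kernel

theorem ks2A2 : chkT [(sub (add (sub (add (E.uu (q 660 1000) (add (var 0) (var 1))) (E.uu (q 840 1000) (sub (var 0) (var 1)))) (mul (q 2 1) (E.uu (q 250 1000) (var 0)))) (sub (mul (q 17 10) (var 0)) (q 6 100))) (add (q 3695 10000) (mul (q 5300 10000) (var 1))))] 40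
  0x880888100
  [V.of 10000 (-1310) 40, V.of 10000 0 1045] = true := by
  decide +kernel

theorem ks3A2 : chkT [(sub (sub (sub (add (E.uu (q 660 1000) (add (var 0) (var 1))) (E.uu (q 840 1000) (sub (var 0) (var 1)))) (mul (q 2 1) (E.uu (q 250 1000) (var 0)))) (q 1 100)) (add (q 3695 10000) (mul (q 5300 10000) (var 1))))] 40
  0x8
  [V.of 10000 (-385) 590, V.of 10000 0 1045] = true := by
  decide +kernel

theorem ks1A3 : chkT [(sub (add (sub (add (E.uu (q 710 1000) (add (var 0) (var 1))) (E.uu (q 790 1000) (sub (var 0) (var 1)))) (mul (q 2 1) (E.uu (q 250 1000) (var 0)))) (sub (mul (q 21 10) (var 0)) (q 1 100))) (add (q 3822 10000) (mul (q 3000 10000) (var 1))))] 40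
  0x888088188188188188811881811010000
  [V.of 10000 (-1580) (-380), V.of 10000 0 1045] = true := by
  decide +kernel

theorem ks2A3 : chkT [(sub (add (sub (add (E.uu (q 710 1000) (add (var 0) (var 1))) (E.uu (q 790 1000) (sub (var 0) (var 1)))) (mul (q 2 1) (E.uu (q 250 1000) (var 0)))) (sub (mul (q 17 10) (var 0)) (q 6 100))) (add (q 3822 10000) (mul (q 3000 10000) (var 1))))] 40
  0x8888000
  [V.of 10000 (-1310) 40, V.of 10000 0 1045] = true := by
  decide +kernel

theorem ks3A3 : chkT [(sub (sub (sub (add (E.uu (q 710 1000) (add (var 0) (var 1))) (E.uu (q 790 1000) (sub (var 0) (var 1)))) (mul (q 2 1) (E.uu (q 250 1000) (var 0)))) (q 1 100)) (add (q 3822 10000) (mul (q 3000 10000) (var 1))))] 40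
  0x8
  [V.of 10000 (-385) 590, V.of 10000 0 1045] = true := by
  decide +kernel

theorem ks2B0 : chkT [(sub (add (sub (add (E.uu (q 515 1000) (add (var 0) (var 1))) (E.uu (q 985 1000) (sub (var 0) (var 1)))) (mul (q 2 1) (E.uu (q 250 1000) (var 0)))) (sub (mul (q 17 10) (var 0)) (q 6 100))) (add (q 1460 10000) (mul (q 14200 10000) (var 1))))] 40
  0x8880180
  [V.of 10000 (-1310) 40, V.of 10000 0 1045] = true := by
  decide +kernel

theorem ks3B0 : chkT [(sub (sub (sub (add (E.uu (q 515 1000) (add (var 0) (var 1))) (E.uu (q 985 1000) (sub (var 0) (var 1)))) (mul (q 2 1) (E.uu (q 250 1000) (var 0)))) (q 1 100)) (add (q 1460 10000) (mul (q 14200 10000) (var 1))))] 40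
  0x88188108810
  [V.of 10000 (-385) 590, V.of 10000 0 1045] = true := by
  decide +kernel

theorem knb : chkT [(sub (add (sub (add (E.uu (q 530 1000) (add (var 0) (var 1))) (E.uu (q 870 1000) (sub (var 0) (var 1)))) (mul (q 2 1) (E.uu (q 200 1000) (var 0)))) (mul (q 236 100) (var 0))) (add (q 2975 10000) (mul (q 8300 10000) (var 1))))] 40
  0x8808888188881010000
  [V.of 10000 (-1580) 40, V.of 10000 0 1045] = true := by
  decide +kernel

theorem kh1 : chk [(sub (mul (q 2 1) (E.uu (var 0) (q 0 1))) (add (q 13 100) (add (E.uu (sub (var 0) (q 265 1000)) (q 0 1)) (E.uu (add (var 0) (q 265 1000)) (q 0 1)))))] 40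
  [V.of 10000 6500 7250] = true := by
  decide +kernel

theorem kh2 : chk [(sub (mul (q 2 1) (E.uu (var 0) (q 0 1))) (add (q 13 100) (add (E.uu (sub (var 0) (q 265 1000)) (q 0 1)) (q 38 1000))))] 40
  [V.of 10000 7250 7450] = true := by
  decide +kernel

theorem kh3 : chk [(sub (mul (q 2 1) (E.uu (var 0) (q 0 1))) (add (q 13 100) (add (E.uu (sub (var 0) (q 265 1000)) (q 0 1)) (E.uu (sub (var 0) (q 735 1000)) (q 0 1)))))] 40
  [V.of 10000 7450 9500] = true := by
  decide +kernel

theorem kf1 : chk [(add (sub (q 584 1000) (mul (q 2 1) (E.uu (add (var 0) (q 1 2)) (q 0 1)))) (mul (q 2 1) (neg (q 38 1000))))] 40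
  [V.of 10000 0 100] = true := by
  decide +kernel

theorem kf2 : chk [(add (sub (q 584 1000) (mul (q 2 1) (E.uu (add (var 0) (q 1 2)) (q 0 1)))) (mul (q 2 1) (E.uu (var 0) (q 0 1))))] 40
  [V.of 10000 100 4900] = true := by
  decide +kernel

theorem kf3 : chk [(add (sub (q 584 1000) (mul (q 2 1) (q 38 1000))) (mul (q 2 1) (E.uu (var 0) (q 0 1))))] 40
  [V.of 10000 4900 5000] = true := by
  decide +kernel

theorem kg1 : chk [(add (sub (q 43 100) (add (E.uu (add (var 0) (q 265 1000)) (q 0 1)) (E.uu (add (var 0) (q 735 1000)) (q 0 1)))) (mul (q 2 1) (neg (q 38 1000))))] 40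
  [V.of 10000 0 100] = true := by
  decide +kernel

theorem kg2 : chk [(add (sub (q 43 100) (add (E.uu (add (var 0) (q 265 1000)) (q 0 1)) (E.uu (add (var 0) (q 735 1000)) (q 0 1)))) (mul (q 2 1) (E.uu (var 0) (q 0 1))))] 40
  [V.of 10000 100 2550] = true := by
  decide +kernel

theorem kg3 : chk [(add (sub (q 43 100) (add (E.uu (add (var 0) (q 265 1000)) (q 0 1)) (q 38 1000))) (mul (q 2 1) (E.uu (var 0) (q 0 1))))] 40
  [V.of 10000 2550 2750] = true := by
  decide +kernel

theorem kg4 : chk [(add (sub (q 43 100) (add (E.uu (add (var 0) (q 265 1000)) (q 0 1)) (E.uu (sub (var 0) (q 265 1000)) (q 0 1)))) (mul (q 2 1) (E.uu (var 0) (q 0 1))))] 40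
  [V.of 10000 2750 5000] = true := by
  decide +kernel

end

end TL.K5

end Pool.Agent.Work.MP_b30479_gtS.G2

end
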