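import Mathlib
import Pool.Agent.Work.MP_b30479_gt.TBS.VOL.Ph
import Pool.Agent.Work.MP_b30479_gt.TBS.TB.Lob

section

/-!
# The numbers `ζ(2k) - 1` for `k = 1, 2, 3, 4`
-/

namespace Pool.Agent.Work.MP_b30479_gtS.G2.Num

open Finset

/-- `ζ(2k) - 1` -/
noncomputable def Zt (k : ℕ) : ℝ := ∑' n : ℕ, 1 / ((n : ℝ) + 2) ^ (2 * k)

theorem hasSum_Zt {k : ℕ} (hk : k ≠ 0) {c : ℝ}
    (h : HasSum (fun n : ℕ => 1 / (n : ℝ) ^ (2 * k)) c) :
    HasSum (fun n : ℕ => 1 / ((n : ℝ) + 2) ^ (2 * k)) (c - 1) := by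
  have h1 := (hasSum_nat_add_iff' 2).mpr h
  have h2 : ∑ i ∈ range 2, 1 / ((i : ℕ) : ℝ) ^ (2 * k) = 1 := by
    rw [sum_range_succ, sum_range_one]
    have : (0 : ℝ) ^ (2 * k) = 0 := zero_pow (by omega)
    simp [this]
  rw [h2] at h1
  simpa using h1

theorem summable_Zt {k : ℕ} (hk : k ≠ 0) :
    Summable (fun n : ℕ => 1 / ((n : ℝ) + 2) ^ (2 * k)) :=
  (hasSum_Zt hk (hasSum_zeta_nat hk)).summable

theorem Zt_one : Zt 1 = Real.pi ^ 2 / 6 - 1 := by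
  have h := hasSum_Zt one_ne_zero (c := Real.pi ^ 2 / 6) (by simpa using hasSum_zeta_two)
  exact h.tsum_eq

theorem Zt_two : Zt 2 = Real.pi ^ 4 / 90 - 1 := by
  have h := hasSum_Zt two_ne_zero (c := Real.pi ^ 4 / 90) (by simpa using hasSum_zeta_four)
  exact h.tsum_eq

theorem bernoulli_six : bernoulli 6 = 1 / 42 := by
  rw [bernoulli_eq_bernoulli'_of_ne_one (by norm_num), bernoulli'_def]
  have h5 : bernoulli' 5 = 0 := bernoulli'_eq_zero_of_odd (by decide) (by norm_num)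
  norm_num [sum_range_succ, Nat.choose, h5]

theorem Zt_three : Zt 3 = Real.pi ^ 6 / 945 - 1 := by
  have h1 := hasSum_zeta_nat (k := 3) (by norm_num)
  have h := hasSum_Zt (by norm_num) h1
  have h2 : Zt 3 = _ := h.tsum_eq
  rw [h2]
  have h3 : (bernoulli (2 * 3) : ℚ) = 1 / 42 := bernoulli_six
  rw [h3]
  have h4 : ((2 * 3).factorial : ℝ) = 720 := by norm_num [Nat.factorial]
  rw [h4]
  push_cast
  ring

theorem Zt_nonneg (k : ℕ) : 0 ≤ Zt k := tsum_nonneg fun n => by positivity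

theorem Zt_succ_le {k : ℕ} (hk : k ≠ 0) : Zt (k + 1) ≤ Zt k / 4 := by
  unfold Zt
  rw [← tsum_div_const]
  apply Summable.tsum_le_tsum _ (summable_Zt (by omega)) ((summable_Zt hk).div_const 4)
  intro n
  have hn : (0 : ℝ) ≤ n := Nat.cast_nonneg n
  have e : ((n : ℝ) + 2) ^ (2 * (k + 1)) = ((n : ℝ) + 2) ^ (2 * k) * ((n : ℝ) + 2) ^ 2 := by
    rw [← pow_add]
    ring_nf
  rw [e, div_div, one_div_le_one_div (by positivity) (by positivity)]
  apply mul_le_mul_of_nonneg_left _ (by positivity)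
  nlinarith

/-! ### rational bounds -/

theorem pi_pow_bounds {k : ℕ} : (3.14159265358979 : ℝ) ^ k ≤ Real.pi ^ k ∧
    Real.pi ^ k ≤ (3.14159265358980 : ℝ) ^ k := by
  have h1 := Real.pi_gt_d20
  have h2 := Real.pi_lt_d20
  constructor
  · exact pow_le_pow_left₀ (by norm_num) (by linarith only [h1, h2]) k
  · exact pow_le_pow_left₀ Real.pi_pos.le (by linarith only [h1, h2]) k

theorem Zt_one_bounds : (0.6449340668 : ℝ) ≤ Zt 1 ∧ Zt 1 ≤ 0.6449340669 := by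
  rw [Zt_one]
  obtain ⟨h1, h2⟩ := pi_pow_bounds (k := 2)
  constructor
  · norm_num at h1 ⊢
    linarith only [h1]
  · norm_num at h2 ⊢
    linarith only [h2]

theorem Zt_two_bounds : (0.0823232337 : ℝ) ≤ Zt 2 ∧ Zt 2 ≤ 0.0823232338 := by
  rw [Zt_two]
  obtain ⟨h1, h2⟩ := pi_pow_bounds (k := 4)
  constructor
  · norm_num at h1 ⊢
    linarith only [h1]
  · norm_num at h2 ⊢
    linarith only [h2]

theorem Zt_three_bounds : (0.0173430619 : ℝ) ≤ Zt 3 ∧ Zt 3 ≤ 0.0173430620 := by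
  rw [Zt_three]
  obtain ⟨h1, h2⟩ := pi_pow_bounds (k := 6)
  constructor
  · norm_num at h1 ⊢
    linarith only [h1]
  · norm_num at h2 ⊢
    linarith only [h2]

theorem Zt_four_le : Zt 4 ≤ 0.00433577 := by
  have h1 := Zt_succ_le (k := 3) (by norm_num)
  have h2 := Zt_three_bounds.2
  norm_num at h1 h2 ⊢
  linarith only [h1, h2]

end Pool.Agent.Work.MP_b30479_gtS.G2.Num

end

section

/-!
# Expansion of `π cot π z` near `0` with explicit remainder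
-/

namespace Pool.Agent.Work.MP_b30479_gtS.G2.Num

open VOL Complex

theorem strip_mem_compl {z : ℂ} (hz : z ∈ strip) : z ∈ Complex.integerComplement := by
  rintro ⟨n, hn⟩
  have h1 := hz.1
  have h2 := hz.2
  rw [← hn] at h1 h2
  simp only [Complex.intCast_re] at h1 h2
  have h3 : (0 : ℤ) < n := by exact_mod_cast h1
  have h4 : n < 1 := by exact_mod_cast h2
  omega

/-- one term of the series -/
theorem cot_term {z m : ℂ} (hm : m ≠ 0) (h1 : z - m ≠ 0) (h2 : z + m ≠ 0) :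
    1 / (z - m) + 1 / (z + m) = -(2 * z * (1 / m ^ 2)) - 2 * z ^ 3 * (1 / m ^ 4) -
      2 * z ^ 5 * (1 / m ^ 6) - 2 * z ^ 7 / (m ^ 6 * (m ^ 2 - z ^ 2)) := by
  have h3 : m ^ 2 - z ^ 2 ≠ 0 := by
    have : m ^ 2 - z ^ 2 = -((z - m) * (z + m)) := by ring
    rw [this]
    exact neg_ne_zero.mpr (mul_ne_zero h1 h2)
  field_simp
  ring

theorem hasSum_Zt' {k : ℕ} (hk : k ≠ 0) :
    HasSum (fun n : ℕ => (1 / ((n : ℂ) + 2) ^ (2 * k))) (Zt k : ℂ) := by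
  have h1 := (summable_Zt hk).hasSum
  have h2 := Complex.hasSum_ofReal.mpr h1
  have e : (fun n : ℕ => (1 / ((n : ℂ) + 2) ^ (2 * k))) =
      fun x : ℕ => (((1 / ((x : ℝ) + 2) ^ (2 * k)) : ℝ) : ℂ) := by
    funext n
    push_cast
    rfl
  rw [e]
  exact h2

theorem norm_rem_le {z : ℂ} (hn : ‖z‖ ^ 2 ≤ 1 / 2) (n : ℕ) :
    ‖2 * z ^ 7 / (((n : ℂ) + 2) ^ 6 * (((n : ℂ) + 2) ^ 2 - z ^ 2))‖ ≤
      16 / 7 * ‖z‖ ^ 7 * (1 / ((n : ℝ) + 2) ^ (2 * 4)) := by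
  have hn0 : (0 : ℝ) ≤ n := Nat.cast_nonneg n
  have h1 : ‖((n : ℂ) + 2)‖ = (n : ℝ) + 2 := by
    have : ((n : ℂ) + 2) = (((n : ℝ) + 2 : ℝ) : ℂ) := by push_cast; rfl
    rw [this, Complex.norm_real, Real.norm_of_nonneg (by linarith only [])]
  have h2 : 7 / 8 * ((n : ℝ) + 2) ^ 2 ≤ ‖((n : ℂ) + 2) ^ 2 - z ^ 2‖ := by
    have h3 := norm_sub_norm_le (((n : ℂ) + 2) ^ 2) (z ^ 2)
    rw [norm_pow, norm_pow, h1] at h3
    nlinarith
  have h4 : (0 : ℝ) < 7 / 8 * ((n : ℝ) + 2) ^ 2 := by positivity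
  rw [norm_div, norm_mul, norm_mul, norm_pow, norm_pow, h1, Complex.norm_ofNat]
  have h6 : 0 < ‖((n : ℂ) + 2) ^ 2 - z ^ 2‖ := lt_of_lt_of_le h4 h2
  rw [div_le_iff₀ (by positivity)]
  have h5 : 16 / 7 * ‖z‖ ^ 7 * (1 / ((n : ℝ) + 2) ^ (2 * 4)) *
      (((n : ℝ) + 2) ^ 6 * (7 / 8 * ((n : ℝ) + 2) ^ 2)) = 2 * ‖z‖ ^ 7 := by
    have : ((n : ℝ) + 2) ≠ 0 := by positivity
    field_simp
    ring
  rw [← h5]
  apply mul_le_mul_of_nonneg_left _ (by positivity)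
  exact mul_le_mul_of_nonneg_left h2 (by positivity)

theorem ph'_expand {z : ℂ} (hz : z ∈ strip) (hn : ‖z‖ ^ 2 ≤ 1 / 2) :
    ‖ph' z - 1 / z - 1 / (z - 1) - 1 / (z + 1) + 2 * z * Zt 1 + 2 * z ^ 3 * Zt 2 +
      2 * z ^ 5 * Zt 3‖ ≤ 16 / 7 * Zt 4 * ‖z‖ ^ 7 := by
  have hc := strip_mem_compl hz
  have h1 := cot_series_rep' hc
  have e1 : ph' z = Real.pi * Complex.cot (Real.pi * z) := by
    unfold ph'
    rw [Complex.cot, mul_div_assoc]
  have hsum : HasSum (fun n => cotTerm z n) (Real.pi * Complex.cot (Real.pi * z) - 1 / z) := by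
    have := Summable.hasSum (summable_cotTerm hc)
    rwa [← h1] at this
  have hs1 := (hasSum_nat_add_iff' 1).mpr hsum
  rw [Finset.sum_range_one] at hs1
  have hb := ((hs1.add ((hasSum_Zt' (k := 1) one_ne_zero).mul_left (2 * z))).add
    ((hasSum_Zt' (k := 2) two_ne_zero).mul_left (2 * z ^ 3))).add
    ((hasSum_Zt' (k := 3) (by norm_num)).mul_left (2 * z ^ 5))
  have h8 : HasSum (fun n : ℕ => 16 / 7 * ‖z‖ ^ 7 * (1 / ((n : ℝ) + 2) ^ (2 * 4)))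
      (16 / 7 * ‖z‖ ^ 7 * Zt 4) := (summable_Zt (k := 4) (by norm_num)).hasSum.mul_left _
  have hz7 : ‖z‖ < 1 := by
    have := norm_nonneg z
    nlinarith only [hn, this]
  have key : ∀ n : ℕ, ‖cotTerm z (n + 1) + 2 * z * (1 / ((n : ℂ) + 2) ^ (2 * 1)) +
      2 * z ^ 3 * (1 / ((n : ℂ) + 2) ^ (2 * 2)) + 2 * z ^ 5 * (1 / ((n : ℂ) + 2) ^ (2 * 3))‖ ≤
      16 / 7 * ‖z‖ ^ 7 * (1 / ((n : ℝ) + 2) ^ (2 * 4)) := by
    intro n
    have hn0 : (0 : ℝ) ≤ n := Nat.cast_nonneg n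
    have hm1 : ‖((n : ℂ) + 2)‖ = (n : ℝ) + 2 := by
      have : ((n : ℂ) + 2) = (((n : ℝ) + 2 : ℝ) : ℂ) := by push_cast; rfl
      rw [this, Complex.norm_real, Real.norm_of_nonneg (by linarith only [])]
    have hm : ((n : ℂ) + 2) ≠ 0 := by
      rw [← norm_pos_iff, hm1]
      linarith only []
    have h2 : z - ((n : ℂ) + 2) ≠ 0 := by
      intro h
      have := congrArg norm (sub_eq_zero.mp h)
      rw [hm1] at this
      linarith only [hz7, this]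
    have h3 : z + ((n : ℂ) + 2) ≠ 0 := by
      intro h
      have := congrArg norm (eq_neg_of_add_eq_zero_left h)
      rw [norm_neg, hm1] at this
      linarith only [hz7, this]
    have h4 := cot_term (z := z) hm h2 h3
    have e2 : cotTerm z (n + 1) = 1 / (z - ((n : ℂ) + 2)) + 1 / (z + ((n : ℂ) + 2)) := by
      unfold cotTerm
      push_cast
      congr 3 <;> ring
    rw [e2, h4]
    have e3 : -(2 * z * (1 / ((n : ℂ) + 2) ^ 2)) - 2 * z ^ 3 * (1 / ((n : ℂ) + 2) ^ 4) -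
      2 * z ^ 5 * (1 / ((n : ℂ) + 2) ^ 6) -
      2 * z ^ 7 / (((n : ℂ) + 2) ^ 6 * (((n : ℂ) + 2) ^ 2 - z ^ 2)) +
      2 * z * (1 / ((n : ℂ) + 2) ^ (2 * 1)) +
      2 * z ^ 3 * (1 / ((n : ℂ) + 2) ^ (2 * 2)) + 2 * z ^ 5 * (1 / ((n : ℂ) + 2) ^ (2 * 3)) =
      -(2 * z ^ 7 / (((n : ℂ) + 2) ^ 6 * (((n : ℂ) + 2) ^ 2 - z ^ 2))) := by
      norm_num
      ring
    rw [e3, norm_neg]
    exact norm_rem_le hn n
  have hfin := tsum_of_norm_bounded h8 key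
  rw [hb.tsum_eq] at hfin
  have e4 : ph' z - 1 / z - 1 / (z - 1) - 1 / (z + 1) + 2 * z * Zt 1 + 2 * z ^ 3 * Zt 2 +
      2 * z ^ 5 * Zt 3 = Real.pi * Complex.cot (Real.pi * z) - 1 / z - cotTerm z 0 +
      2 * z * Zt 1 + 2 * z ^ 3 * Zt 2 + 2 * z ^ 5 * Zt 3 := by
    rw [e1]
    unfold cotTerm
    push_cast
    ring
  rw [e4]
  refine hfin.trans (le_of_eq ?_)
  ring

end Pool.Agent.Work.MP_b30479_gtS.G2.Num

end

section

/-!
# Part of `WVal`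
-/
namespace Pool.Agent.Work.MP_b30479_gtS.G2

open Finset Filter Topology

/-- growth rate of a digit `2` with hinges `x`, `k` (`k = 0` at an end) -/
noncomputable def V2 (x k : ℂ) : ℝ :=
  -(Real.pi / 2 * ((x - k) ^ 2 + x + k).im) + UU (x + k) - 2 * UU x - 2 * UU k

/-- growth rate of a digit `3`: `u` the hinge with the side `S3`, `v` the inner variable, `w` the
hinge with the side `S2` (`w = 0` at an end) -/
noncomputable def V3 (u v w : ℂ) : ℝ :=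
  -(Real.pi / 2 * (2 * u * v + (v - w) ^ 2 - v + w).im) + UU (v + w) - UU (v - u) - UU v - UU u -
    2 * UU w

end Pool.Agent.Work.MP_b30479_gtS.G2

end
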