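import Pool.Agent.Work.MP_b30479_gt.TBS.G2.MRBase
import Pool.Agent.Work.MP_b30479_gt.TBS.NumU.Tree
import Pool.Agent.Work.MP_b30479_gt.TBS.G2.WValD

section

/-!
# Value moves of the hinge on the side `S3` of an inner digit `3`

The hinge `x + hx i` is moved to `c + hc i`, the inner variable stays (`dvR`), is moved on the flat
part (`dvL`) or from the left ramp to the flat part (`dvG`).
-/

namespace Pool.Agent.Work.MP_b30479_gtS.G2

open VOL NumUs

namespace V2A

open NumIs (V)

theorem chkT6 {es : List E} {fuel c N : ℕ} {l1 h1 l2 h2 l3 h3 l4 h4 l5 h5 l6 h6 : ℤ}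
    {k1 k2 k3 k4 k5 k6 : ℕ}
    (h : chkT es fuel c [V.of N l1 h1 k1, V.of N l2 h2 k2, V.of N l3 h3 k3, V.of N l4 h4 k4,
      V.of N l5 h5 k5, V.of N l6 h6 k6] = true)
    (hN : 0 < N) {x y z w u v : ℝ} (a1 : (l1 : ℝ) / N ≤ x) (b1 : x ≤ (h1 : ℝ) / N)
    (a2 : (l2 : ℝ) / N ≤ y) (b2 : y ≤ (h2 : ℝ) / N)
    (a3 : (l3 : ℝ) / N ≤ z) (b3 : z ≤ (h3 : ℝ) / N)
    (a4 : (l4 : ℝ) / N ≤ w) (b4 : w ≤ (h4 : ℝ) / N)
    (a5 : (l5 : ℝ) / N ≤ u) (b5 : u ≤ (h5 : ℝ) / N)
    (a6 : (l6 : ℝ) / N ≤ v) (b6 : v ≤ (h6 : ℝ) / N) :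
    ∃ e ∈ es, 0 < e.val [x, y, z, w, u, v] :=
  chkT_sound h (List.Forall₂.cons (V.of_mem hN a1 b1) (List.Forall₂.cons (V.of_mem hN a2 b2)
    (List.Forall₂.cons (V.of_mem hN a3 b3) (List.Forall₂.cons (V.of_mem hN a4 b4)
      (List.Forall₂.cons (V.of_mem hN a5 b5) (List.Forall₂.cons (V.of_mem hN a6 b6)
        List.Forall₂.nil))))))

/-! ### real functions; the term `uu (l - x) (hl - hx)` is left out -/

/-- the inner variable `l + hl i` stays -/
noncomputable def dvR (c hc x hx l hl : ℝ) : ℝ :=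
  Real.pi * ((x - c) * hl - l * (hc - hx)) - uu c hc - uu (l - c) (hl - hc) + uu x hx

/-- the inner variable moves from `l + t i` to `l' + t i` -/
noncomputable def dvL (c hc l' x hx l t w hw : ℝ) : ℝ :=
  Real.pi * (t * (x + l - (c + l')) + (l * hx - l' * hc + (l' - l) * hw)) +
    (uu (l' + w) (t + hw) - uu (l' - c) (t - hc) - uu l' t - uu c hc) +
    (-uu (l + w) (t + hw) + uu l t + uu x hx)

/-- the inner variable moves from `l + hl i` to `l' + t i`; without `uu l hl` and
`uu (l + w) (hl + hw)` -/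
noncomputable def dvG (c hc l' t x hx l hl w hw : ℝ) : ℝ :=
  Real.pi * (x * hl + l * hx + l * hl - l' * hc - t * (c + l') + (l' - l) * hw +
    (w + 1 / 2) * (t - hl)) +
    (uu (l' + w) (t + hw) - uu (l' - c) (t - hc) - uu l' t - uu c hc) + uu x hx

theorem V3_dvR {u u' v w : ℂ} {c hc x hx l hl : ℝ} (h1 : u.re = x) (h2 : u.im = hx)
    (h3 : u'.re = c) (h4 : u'.im = hc) (h5 : v.re = l) (h6 : v.im = hl) :
    V3 u' v w - V3 u v w = dvR c hc x hx l hl + uu (l - x) (hl - hx) := by
  have e1 : (2 * u' * v + (v - w) ^ 2 - v + w).im - (2 * u * v + (v - w) ^ 2 - v + w).im =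
      2 * (c * hl + hc * l) - 2 * (x * hl + hx * l) := by
    simp only [pow_two, Complex.add_im, Complex.sub_im, Complex.sub_re, Complex.mul_im,
      Complex.mul_re, Complex.re_ofNat, Complex.im_ofNat, h1, h2, h3, h4, h5, h6]
    ring
  have e2 : (2 * u' * v + (v - w) ^ 2 - v + w).im = 2 * (c * hl + hc * l) - 2 * (x * hl + hx * l) +
      (2 * u * v + (v - w) ^ 2 - v + w).im := by linarith only [e1]
  unfold V3 dvR
  rw [e2, UU_uu (v - u'), UU_uu (v - u), UU_uu u', UU_uu u]
  simp only [Complex.sub_re, Complex.sub_im, h1, h2, h3, h4, h5, h6]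
  ring

theorem V3_dvG {u u' v v' w : ℂ} {c hc x hx l hl l' t : ℝ} (h1 : u.re = x) (h2 : u.im = hx)
    (h3 : u'.re = c) (h4 : u'.im = hc) (h5 : v.re = l) (h6 : v.im = hl) (h7 : v'.re = l')
    (h8 : v'.im = t) :
    V3 u' v' w - V3 u v w = dvG c hc l' t x hx l hl w.re w.im + uu l hl -
      uu (l + w.re) (hl + w.im) + uu (l - x) (hl - hx) := by
  have e1 : (2 * u' * v' + (v' - w) ^ 2 - v' + w).im =
      2 * (c * t + hc * l') + 2 * (l' - w.re) * (t - w.im) - t + w.im := by
    simp only [pow_two, Complex.add_im, Complex.sub_im, Complex.sub_re, Complex.mul_im,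
      Complex.mul_re, Complex.re_ofNat, Complex.im_ofNat, h3, h4, h7, h8]
    ring
  have e2 : (2 * u * v + (v - w) ^ 2 - v + w).im =
      2 * (x * hl + hx * l) + 2 * (l - w.re) * (hl - w.im) - hl + w.im := by
    simp only [pow_two, Complex.add_im, Complex.sub_im, Complex.sub_re, Complex.mul_im,
      Complex.mul_re, Complex.re_ofNat, Complex.im_ofNat, h1, h2, h5, h6]
    ring
  unfold V3 dvG
  rw [e1, e2, UU_uu (v' + w), UU_uu (v' - u'), UU_uu v', UU_uu u', UU_uu (v + w), UU_uu (v - u),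
    UU_uu v, UU_uu u]
  simp only [Complex.add_re, Complex.add_im, Complex.sub_re, Complex.sub_im, h1, h2, h3, h4, h5, h6,
    h7, h8]
  ring

theorem V3_dvL {u u' v v' w : ℂ} {c hc x hx l l' t : ℝ} (h1 : u.re = x) (h2 : u.im = hx)
    (h3 : u'.re = c) (h4 : u'.im = hc) (h5 : v.re = l) (h6 : v.im = t) (h7 : v'.re = l')
    (h8 : v'.im = t) :
    V3 u' v' w - V3 u v w = dvL c hc l' x hx l t w.re w.im + uu (l - x) (t - hx) := by
  rw [V3_dvG h1 h2 h3 h4 h5 h6 h7 h8]
  unfold dvG dvL
  ring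

/-- hinge of a digit `2` or on the side `S2` of an inner digit `3`; `k + hk i` is the other hinge
or the inner variable; the terms `uu (c + k) (hc + hk) - uu (x + k) (hx + hk)` are left out -/
noncomputable def dvO (c hc x hx k hk : ℝ) : ℝ :=
  Real.pi * (k * (hc - hx) + hk * (c - x) - (c * hc - x * hx + 1 / 2 * (hc - hx))) -
    2 * (uu c hc - uu x hx)

theorem V2_dvO {u u' k : ℂ} {c hc x hx : ℝ} (h1 : u.re = x) (h2 : u.im = hx)
    (h3 : u'.re = c) (h4 : u'.im = hc) :
    V2 u' k - V2 u k = dvO c hc x hx k.re k.im +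
      (uu (c + k.re) (hc + k.im) - uu (x + k.re) (hx + k.im)) := by
  have e1 : ((u' - k) ^ 2 + u' + k).im = 2 * (c - k.re) * (hc - k.im) + hc + k.im := by
    simp only [pow_two, Complex.add_im, Complex.sub_im, Complex.sub_re, Complex.mul_im, h3, h4]
    ring
  have e2 : ((u - k) ^ 2 + u + k).im = 2 * (x - k.re) * (hx - k.im) + hx + k.im := by
    simp only [pow_two, Complex.add_im, Complex.sub_im, Complex.sub_re, Complex.mul_im, h1, h2]
    ring
  unfold V2 dvO
  rw [e1, e2, UU_uu (u' + k), UU_uu (u + k), UU_uu u', UU_uu u]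
  simp only [Complex.add_re, Complex.add_im, h1, h2, h3, h4]
  ring

theorem V3_dvO {u v w w' : ℂ} {c hc x hx : ℝ} (h1 : w.re = x) (h2 : w.im = hx)
    (h3 : w'.re = c) (h4 : w'.im = hc) :
    V3 u v w' - V3 u v w = dvO c hc x hx v.re v.im +
      (uu (c + v.re) (hc + v.im) - uu (x + v.re) (hx + v.im)) := by
  have e1 : (2 * u * v + (v - w') ^ 2 - v + w').im =
      (2 * u * v).im + 2 * (v.re - c) * (v.im - hc) - v.im + hc := by
    simp only [pow_two, Complex.add_im, Complex.sub_im, Complex.sub_re, Complex.mul_im,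
      Complex.mul_re, h3, h4]
    ring
  have e2 : (2 * u * v + (v - w) ^ 2 - v + w).im =
      (2 * u * v).im + 2 * (v.re - x) * (v.im - hx) - v.im + hx := by
    simp only [pow_two, Complex.add_im, Complex.sub_im, Complex.sub_re, Complex.mul_im,
      Complex.mul_re, h1, h2]
    ring
  unfold V3 dvO
  rw [e1, e2, add_comm v w', add_comm v w, UU_uu (w' + v), UU_uu (w + v), UU_uu w', UU_uu w]
  simp only [Complex.add_re, Complex.add_im, h1, h2, h3, h4]
  ring

/-! ### the remaining term -/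

theorem split_uu {s y G : ℝ} (hy : |y| ≤ 13 / 100)
    (h1 : s ≤ -(3 / 100) → y ≤ 0 → 0 < G + (uu (1 + s) y + Real.pi * y))
    (h2 : s ≤ -(3 / 100) → 0 ≤ y → 0 < G + (uu (1 + s) y - Real.pi * y))
    (h3 : -(3 / 100) ≤ s → s ≤ 3 / 100 → 0 < G + uu (3 / 100) y)
    (h4 : 3 / 100 ≤ s → 0 < G + uu s y) : 0 < G + uu s y := by
  have e := uu_add_one s y
  rw [add_comm s 1] at e
  rcases le_total s (-(3 / 100)) with h | h
  · rcases le_total y 0 with h' | h'
    · have := h1 h h'
      rw [e, abs_of_nonpos h'] at this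
      linarith only [this]
    · have := h2 h h'
      rw [e, abs_of_nonneg h'] at this
      linarith only [this]
  · rcases le_total s (3 / 100) with h' | h'
    · have := h3 h h'
      have := UA.anti UA.kc_7_13 (by norm_num) (a := s) (b := 3 / 100) (y := y) (by linarith only [h]) h'
        (by norm_num) hy
      linarith
    · exact h4 h'

theorem split_uu2 {s y G : ℝ} (h1 : y ≤ 0 → 0 < G + (uu (1 + s) y + Real.pi * y))
    (h2 : 0 ≤ y → 0 < G + (uu (1 + s) y - Real.pi * y)) : 0 < G + uu s y := by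
  have e := uu_add_one s y
  rw [add_comm s 1] at e
  rcases le_total y 0 with h' | h'
  · have := h1 h'
    rw [e, abs_of_nonpos h'] at this
    linarith only [this]
  · have := h2 h'
    rw [e, abs_of_nonneg h'] at this
    linarith only [this]

theorem split_one {s s' y y' G : ℝ} (hy : |y| ≤ 14 / 100) (hy' : 97 / 100 ≤ s' → |y'| ≤ 14 / 100)
    (h1 : s ≤ 97 / 100 → 0 < G + (uu s' y' - uu s y))
    (h2 : 97 / 100 ≤ s → s ≤ 103 / 100 → 0 < G + (uu s' y' - uu (97 / 100) y))
    (h3 : 103 / 100 ≤ s → s' ≤ 97 / 100 → y ≤ 0 →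
      0 < G + (uu s' y' - (uu (s - 1) y - Real.pi * y)))
    (h4 : 103 / 100 ≤ s → s' ≤ 97 / 100 → 0 ≤ y →
      0 < G + (uu s' y' - (uu (s - 1) y + Real.pi * y)))
    (h5 : 97 / 100 ≤ s' → s' ≤ 103 / 100 → y ≤ 0 →
      0 < G + (uu (3 / 100) y' - Real.pi * y' - (uu (s - 1) y - Real.pi * y)))
    (h6 : 97 / 100 ≤ s' → s' ≤ 103 / 100 → 0 ≤ y →
      0 < G + (uu (3 / 100) y' + Real.pi * y' - (uu (s - 1) y + Real.pi * y)))
    (h7 : 103 / 100 ≤ s' → y ≤ 0 →
      0 < G + (uu (s' - 1) y' - Real.pi * y' - (uu (s - 1) y - Real.pi * y)))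
    (h8 : 103 / 100 ≤ s' → 0 ≤ y →
      0 < G + (uu (s' - 1) y' + Real.pi * y' - (uu (s - 1) y + Real.pi * y))) :
    0 < G + (uu s' y' - uu s y) := by
  have hp := Real.pi_pos
  have e := uu_add_one (s - 1) y
  rw [sub_add_cancel] at e
  have e' := uu_add_one (s' - 1) y'
  rw [sub_add_cancel] at e'
  have e3 := uu_add_one (3 / 100) y'
  have a1 := mul_le_mul_of_nonneg_left (le_abs_self y') hp.le
  have a2 := mul_le_mul_of_nonneg_left (neg_abs_le y') hp.le
  rcases le_total s (97 / 100) with c1 | c1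
  · exact h1 c1
  rcases le_total s (103 / 100) with c2 | c2
  · have := h2 c1 c2
    have := UA.anti1 UA.kc_6_14 (by norm_num) (a := 97 / 100) (b := s) (y := y) (by norm_num) c1
      (by linarith only [c2]) hy
    linarith
  rcases le_total s' (97 / 100) with c3 | c3
  · rcases le_total y 0 with c4 | c4
    · have := h3 c2 c3 c4
      rw [e, abs_of_nonpos c4]
      linarith only [this]
    · have := h4 c2 c3 c4
      rw [e, abs_of_nonneg c4]
      linarith only [this]
  rcases le_total s' (103 / 100) with c5 | c5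
  · have a3 := UA.anti1 UA.kc_6_14 (by norm_num) (a := s') (b := 103 / 100) (y := y')
      (by linarith only [c3]) c5 (by norm_num) (hy' c3)
    rw [show (103 / 100 : ℝ) = 3 / 100 + 1 by norm_num, e3] at a3
    rcases le_total y 0 with c4 | c4
    · have := h5 c3 c5 c4
      rw [e, abs_of_nonpos c4]
      linarith only [a2, a3, this]
    · have := h6 c3 c5 c4
      rw [e, abs_of_nonneg c4]
      linarith only [a1, a3, this]
  · rcases le_total y 0 with c4 | c4
    · have := h7 c5 c4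
      rw [e, abs_of_nonpos c4, e']
      linarith only [a2, this]
    · have := h8 c5 c4
      rw [e, abs_of_nonneg c4, e']
      linarith only [a1, this]

/-- the ramp: `uu l hl` and `uu (l + w) (hl + hw)` -/
theorem split_ramp {l w s hl hw y G : ℝ} (h0 : 0 ≤ l) (h5 : l ≤ 5 / 100) (hw0 : 0 ≤ w)
    (hh : |hl| ≤ 14 / 100) (hd : l + w ≤ 6 / 100 → |hl + hw| ≤ 14 / 100)
    (h1 : l + w ≤ 6 / 100 → y ≤ 0 → 0 < G + (uu (1 + s) y + Real.pi * y + uu (5 / 100) hl -
      Real.pi / 2 * (hl + hw)))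
    (h2 : l + w ≤ 6 / 100 → 0 ≤ y → 0 < G + (uu (1 + s) y - Real.pi * y + uu (5 / 100) hl -
      Real.pi / 2 * (hl + hw)))
    (h3 : 6 / 100 ≤ l + w → y ≤ 0 → 0 < G + (uu (1 + s) y + Real.pi * y + uu (5 / 100) hl -
      uu (l + w) (hl + hw)))
    (h4 : 6 / 100 ≤ l + w → 0 ≤ y → 0 < G + (uu (1 + s) y - Real.pi * y + uu (5 / 100) hl -
      uu (l + w) (hl + hw))) :
    0 < G + (uu l hl - uu (l + w) (hl + hw) + uu s y) := by
  have hp := Real.pi_pos
  have e := uu_add_one s y
  rw [add_comm s 1] at e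
  have a1 := UA.anti UA.kc_6_14 (by norm_num) (a := l) (b := 5 / 100) (y := hl) (by linarith only [h0]) h5
    (by norm_num) hh
  rcases le_total (l + w) (6 / 100) with c1 | c1
  · have a2 := UA.le_zero UA.kc_6_14 (by norm_num) (b := l + w) (y := hl + hw) (by linarith only [h0, hw0]) c1
      (hd c1)
    have a3 := mul_le_mul_of_nonneg_left (neg_abs_le (hl + hw)) (by positivity : 0 ≤ Real.pi / 2)
    rcases le_total y 0 with c2 | c2
    · have := h1 c1 c2
      rw [e, abs_of_nonpos c2] at this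
      linarith only [a1, a2, a3, this]
    · have := h2 c1 c2
      rw [e, abs_of_nonneg c2] at this
      linarith only [a1, a2, a3, this]
  · rcases le_total y 0 with c2 | c2
    · have := h3 c1 c2
      rw [e, abs_of_nonpos c2] at this
      linarith only [a1, this]
    · have := h4 c1 c2
      rw [e, abs_of_nonneg c2] at this
      linarith only [a1, this]

/-! ### expressions; `x T l t w S` are the variables `0, ..., 5` -/

open NumUs.E

/-- the row `dvR + g + a` -/
def FRe (c hc x hx l hl g a : E) : E :=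
  add (add (sub (add a (uu x hx)) (uu c hc)) (sub (mul pi (sub (mul (sub x c) hl)
    (mul l (sub hc hx)))) (uu (sub l c) (sub hl hc)))) g

/-- the row `dvL + g + a` -/
def FLe (c hc l' x hx l t w hw g a : E) : E :=
  add (add (add (mul pi (add (mul t (sub (add x l) (add c l')))
    (add (sub (mul l hx) (mul l' hc)) (mul (sub l' l) hw))))
    (sub (sub (sub (uu (add l' w) (add t hw)) (uu (sub l' c) (sub t hc))) (uu l' t)) (uu c hc)))
    (add (sub a (uu (add l w) (add t hw))) (add (uu l t) (uu x hx)))) g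

/-- the row `dvG + g + a`; `a` contains `uu l hl - uu (l + w) (hl + hw)` -/
def FGe (c hc l' t x hx l hl w hw g a : E) : E :=
  add (add (add (mul pi (add (add (add (mul x hl) (mul l hx))
    (sub (mul l hl) (add (mul l' hc) (mul t (add c l')))))
      (add (mul (sub l' l) hw) (mul (add w (q 1 2)) (sub t hl)))))
    (sub (sub (sub (uu (add l' w) (add t hw)) (uu (sub l' c) (sub t hc))) (uu l' t)) (uu c hc)))
    (add a (uu x hx))) g

variable {c hc x hx l hl g a l' t w hw : E} {xs : List ℝ}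

theorem FRe_val : (FRe c hc x hx l hl g a).val xs =
    (dvR (c.val xs) (hc.val xs) (x.val xs) (hx.val xs) (l.val xs) (hl.val xs) + g.val xs) +
      a.val xs := by
  simp only [FRe, E.val, dvR]
  ring

theorem FLe_val : (FLe c hc l' x hx l t w hw g a).val xs =
    (dvL (c.val xs) (hc.val xs) (l'.val xs) (x.val xs) (hx.val xs) (l.val xs) (t.val xs) (w.val xs)
      (hw.val xs) + g.val xs) + a.val xs := by
  simp only [FLe, E.val, dvL]
  ring

theorem FGe_val : (FGe c hc l' t x hx l hl w hw g a).val xs =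
    (dvG (c.val xs) (hc.val xs) (l'.val xs) (t.val xs) (x.val xs) (hx.val xs) (l.val xs) (hl.val xs)
      (w.val xs) (hw.val xs) + g.val xs) + a.val xs := by
  simp only [FGe, E.val, dvG]
  push_cast
  ring

/-- the row `dvO + (a - g)` -/
def FOe (c hc x hx k hk g a : E) : E :=
  add (sub (mul pi (sub (add (mul k (sub hc hx)) (mul hk (sub c x))) (add (sub (mul c hc)
    (mul x hx)) (mul (q 1 2) (sub hc hx))))) (mul (q 2 1) (sub (uu c hc) (uu x hx)))) (sub a g)

theorem FOe_val {k hk : E} : (FOe c hc x hx k hk g a).val xs =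
    (dvO (c.val xs) (hc.val xs) (x.val xs) (hx.val xs) (k.val xs) (hk.val xs) - g.val xs) +
      a.val xs := by
  simp only [FOe, E.val, dvO]
  push_cast
  ring

/-- only the first expression can be positive -/
theorem of_list {e0 : E} {es : List E} (h : ∃ e ∈ e0 :: es, 0 < e.val xs)
    (hes : ∀ e ∈ es, e.val xs ≤ 0) : 0 < e0.val xs := by
  obtain ⟨e, he, hp⟩ := h
  rcases List.mem_cons.1 he with rfl | he
  · exact hp
  · have := hes e he
    linarith only [hp, this]

theorem all_cons {e0 : E} {es : List E} (h0 : e0.val xs ≤ 0) (hes : ∀ e ∈ es, e.val xs ≤ 0) :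
    ∀ e ∈ e0 :: es, e.val xs ≤ 0 := by
  intro e he
  rcases List.mem_cons.1 he with rfl | he
  · exact h0
  · exact hes e he

theorem all_nil : ∀ e ∈ ([] : List E), e.val xs ≤ 0 := fun e he => absurd he (by simp)

/-! ### heights on the right ramp and bounds for the other side -/

/-- height at `x`, `XM = .60`, `cr = .30` -/
noncomputable def h30 (x T : ℝ) : ℝ := T * (2 - 10 / 3 * x)
/-- height at `x`, `XM = .60`, `cr = .27` -/
noncomputable def h27 (x T : ℝ) : ℝ := T * (20 / 9 - 100 / 27 * x)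

/-- bound for the side of `3`, `3e` (`c = .30`); `T` in the frame of the inner digit `3` -/
noncomputable def g33 (x T : ℝ) : ℝ := 95 / 1000 + 13 / 10 * T + 36 / 100 * (x - 1 / 2)
/-- bound for the side of `2` (`c = .27`) -/
noncomputable def g27 (x T : ℝ) : ℝ :=
  379 / 10000 + 1024 / 1000 * T + (x - 1 / 2) * (47 / 100 + 96 / 10 * T)
/-- bound for the side of `2` (`c = .41`) -/
noncomputable def g41 (x T : ℝ) : ℝ :=
  292 / 10000 + 708 / 1000 * T + (x - 1 / 2) * (47 / 100 + 979 / 100 * T)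
/-- the side of `2e` (`c = .18`) -/
noncomputable def g2e (x T : ℝ) : ℝ :=
  Real.pi / 2 * (T * (136 / 100) - h30 x T * (2 * x + 1)) - (uu (18 / 100) T - uu x (h30 x T))

def vx : E := var 0
def vT : E := var 1
def vl : E := var 2
def vt : E := var 3
def vw : E := var 4
def vS : E := var 5
def eh30 : E := mul vT (sub (q 2 1) (mul (q 10 3) vx))
def eh27 : E := mul vT (sub (q 20 9) (mul (q 100 27) vx))
def eg33 : E := add (add (q 95 1000) (mul (q 13 10) vT)) (mul (q 36 100) (sub vx (q 1 2)))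
def eg27 : E := add (add (q 379 10000) (mul (q 1024 1000) vT))
  (mul (sub vx (q 1 2)) (add (q 47 100) (mul (q 96 10) vT)))
def eg41 : E := add (add (q 292 10000) (mul (q 708 1000) vT))
  (mul (sub vx (q 1 2)) (add (q 47 100) (mul (q 979 100) vT)))
def eg2e : E := sub (mul (mul (q 1 2) pi) (sub (mul vT (q 136 100))
  (mul eh30 (add (mul (q 2 1) vx) (q 1 1))))) (sub (uu (q 18 100) vT) (uu vx eh30))
/-- the bounds in the frame of the other digit -/
def fg33 : E := add (sub (q 95 1000) (mul (q 13 10) vT)) (mul (q 36 100) (sub vx (q 1 2)))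
def fg27 : E := add (sub (q 379 10000) (mul (q 1024 1000) vT))
  (mul (sub vx (q 1 2)) (sub (q 47 100) (mul (q 96 10) vT)))
def fg41 : E := add (sub (q 292 10000) (mul (q 708 1000) vT))
  (mul (sub vx (q 1 2)) (sub (q 47 100) (mul (q 979 100) vT)))

section
variable {x T : ℝ} {r : List ℝ}

theorem vx_val : vx.val (x :: T :: r) = x := rfl
theorem vT_val : vT.val (x :: T :: r) = T := rfl

theorem eh30_val : eh30.val (x :: T :: r) = h30 x T := by
  simp only [eh30, E.val, vx_val, vT_val, h30]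
  push_cast
  ring
theorem eh27_val : eh27.val (x :: T :: r) = h27 x T := by
  simp only [eh27, E.val, vx_val, vT_val, h27]
  push_cast
  ring
theorem eg33_val : eg33.val (x :: T :: r) = g33 x T := by
  simp only [eg33, E.val, vx_val, vT_val, g33]
  push_cast
  ring
theorem eg27_val : eg27.val (x :: T :: r) = g27 x T := by
  simp only [eg27, E.val, vx_val, vT_val, g27]
  push_cast
  ring
theorem eg41_val : eg41.val (x :: T :: r) = g41 x T := by
  simp only [eg41, E.val, vx_val, vT_val, g41]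
  push_cast
  ring
theorem eg2e_val : eg2e.val (x :: T :: r) = g2e x T := by
  simp only [eg2e, E.val, vx_val, vT_val, eh30_val, g2e]
  push_cast
  ring
theorem fg33_val : fg33.val (x :: T :: r) = g33 x (-T) := by
  simp only [fg33, E.val, vx_val, vT_val, g33]
  push_cast
  ring
theorem fg27_val : fg27.val (x :: T :: r) = g27 x (-T) := by
  simp only [fg27, E.val, vx_val, vT_val, g27]
  push_cast
  ring
theorem fg41_val : fg41.val (x :: T :: r) = g41 x (-T) := by
  simp only [fg41, E.val, vx_val, vT_val, g41]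
  push_cast
  ring

end

end V2A

end Pool.Agent.Work.MP_b30479_gtS.G2

end

section

/-!
# Part of `V2BMv`
-/
namespace Pool.Agent.Work.MP_b30479_gtS.G2

open VOL NumUs

namespace V2A.B

open NumUs.E

/-- the hinge `w + S i` in the slot `2` of an inner digit `3` -/
structure WOk (w S : ℝ) : Prop where
  w0 : 11 / 100 ≤ w
  w1 : w ≤ 39 / 100
  S0 : -(1145 / 10000) ≤ S
  S1 : S ≤ 57 / 1000

def eW : List E := [sub (sub vt vT) (q 84 1000), sub (q (-45) 1000) (sub vt vT)]

end V2A.B

end Pool.Agent.Work.MP_b30479_gtS.G2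

end

section

/-!
# Value moves of the hinge on the side `S3` of an inner digit `3`: rows from certificates
-/

namespace Pool.Agent.Work.MP_b30479_gtS.G2

open VOL NumUs

namespace V2A

open NumUs.E

/-- `uu s y` for `y ≤ 0`, `s < 0` -/
def aN (s y : E) : E := add (uu (add (q 1 1) s) y) (mul pi y)
/-- `uu s y` for `0 ≤ y`, `s < 0` -/
def aP (s y : E) : E := sub (uu (add (q 1 1) s) y) (mul pi y)
/-- `uu s y` for `y ≤ 0`, `1 < s` -/
def bN (s y : E) : E := sub (uu (sub s (q 1 1)) y) (mul pi y)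
/-- `uu s y` for `0 ≤ y`, `1 < s` -/
def bP (s y : E) : E := add (uu (sub s (q 1 1)) y) (mul pi y)
/-- `l - x` -/
def vs : E := sub vl vx
/-- the height of the inner variable on the left ramp -/
def vh : E := mul (q 20 1) (mul vt vl)
/-- `x + k` -/
def vk : E := add vx vl
/-- the height of the inner variable on the right ramp -/
def vtr : E := mul vt (sub (q 16 1) (mul (q 20 1) vl))
/-- the height at `c = .41` on the path `.60`, `.27` -/
def ehc41 : E := mul vT (q 19 27)

theorem vs_val {x T l : ℝ} {r : List ℝ} : vs.val (x :: T :: l :: r) = l - x := rfl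
theorem vt_val {x T l t : ℝ} {r : List ℝ} : vt.val (x :: T :: l :: t :: r) = t := rfl
theorem vtr_val {x T l t : ℝ} {r : List ℝ} : vtr.val (x :: T :: l :: t :: r) =
    t * (16 - 20 * l) := by
  have e1 : vl.val (x :: T :: l :: t :: r) = l := rfl
  simp only [vtr, E.val, vt_val, e1]
  norm_num
theorem ehc41_val {x T : ℝ} {r : List ℝ} : ehc41.val (x :: T :: r) = T * (19 / 27) := by
  simp only [ehc41, E.val, vT_val]
  norm_num

theorem h30_mem {x T a b : ℝ} (hx : 1 / 2 ≤ x) (hx' : x ≤ 6 / 10) (hT : -a ≤ T) (hT' : T ≤ b)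
    (ha : 0 ≤ a) (hb : 0 ≤ b) : -(a / 3) ≤ h30 x T ∧ h30 x T ≤ b / 3 := by
  unfold h30
  constructor <;> nlinarith only [hx, ha, hx', hT, hb, hT']

theorem h27_mem {x T a b : ℝ} (hx : 1 / 2 ≤ x) (hx' : x ≤ 6 / 10) (hT : -a ≤ T) (hT' : T ≤ b)
    (ha : 0 ≤ a) (hb : 0 ≤ b) : -(a * 10 / 27) ≤ h27 x T ∧ h27 x T ≤ b * 10 / 27 := by
  unfold h27
  constructor <;> nlinarith only [hx, ha, hx', hT, hb, hT']

/-! ### certificates -/

open NumIs (V) in
theorem use4 {es : List E} {c N : ℕ} {l1 h1 l2 h2 l3 h3 l4 h4 : ℤ} {x y z w : ℝ}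
    (k : chkT es 60 c [V.of N l1 h1, V.of N l2 h2, V.of N l3 h3, V.of N l4 h4] = true)
    (hN : 0 < N) (b : ((l1 : ℝ) / N ≤ x ∧ x ≤ (h1 : ℝ) / N) ∧ ((l2 : ℝ) / N ≤ y ∧
      y ≤ (h2 : ℝ) / N) ∧ ((l3 : ℝ) / N ≤ z ∧ z ≤ (h3 : ℝ) / N) ∧
      ((l4 : ℝ) / N ≤ w ∧ w ≤ (h4 : ℝ) / N)) : ∃ e ∈ es, 0 < e.val [x, y, z, w] :=
  chkT4 k hN b.1.1 b.1.2 b.2.1.1 b.2.1.2 b.2.2.1.1 b.2.2.1.2 b.2.2.2.1 b.2.2.2.2

open NumIs (V) in
theorem use6 {es : List E} {c N : ℕ} {l1 h1 l2 h2 l3 h3 l4 h4 l5 h5 l6 h6 : ℤ}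
    {x y z w u v : ℝ}
    (k : chkT es 60 c [V.of N l1 h1, V.of N l2 h2, V.of N l3 h3, V.of N l4 h4, V.of N l5 h5,
      V.of N l6 h6] = true)
    (hN : 0 < N) (b : ((l1 : ℝ) / N ≤ x ∧ x ≤ (h1 : ℝ) / N) ∧ ((l2 : ℝ) / N ≤ y ∧
      y ≤ (h2 : ℝ) / N) ∧ ((l3 : ℝ) / N ≤ z ∧ z ≤ (h3 : ℝ) / N) ∧
      ((l4 : ℝ) / N ≤ w ∧ w ≤ (h4 : ℝ) / N) ∧ ((l5 : ℝ) / N ≤ u ∧ u ≤ (h5 : ℝ) / N) ∧
      ((l6 : ℝ) / N ≤ v ∧ v ≤ (h6 : ℝ) / N)) : ∃ e ∈ es, 0 < e.val [x, y, z, w, u, v] :=
  chkT6 k hN b.1.1 b.1.2 b.2.1.1 b.2.1.2 b.2.2.1.1 b.2.2.1.2 b.2.2.2.1.1 b.2.2.2.1.2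
    b.2.2.2.2.1.1 b.2.2.2.2.1.2 b.2.2.2.2.2.1 b.2.2.2.2.2.2

/-! ### the lists of expressions -/

def R1 (c hc hx hl g : E) (es : List E) : List E :=
  FRe c hc vx hx vl hl g (aN vs (sub hl hx)) :: sub hl hx :: add vs (q 3 100) :: es
def R2 (c hc hx hl g : E) (es : List E) : List E :=
  FRe c hc vx hx vl hl g (aP vs (sub hl hx)) :: sub hx hl :: add vs (q 3 100) :: es
def R3 (c hc hx hl g : E) (es : List E) : List E :=
  FRe c hc vx hx vl hl g (uu (q 3 100) (sub hl hx)) :: sub vs (q 3 100) :: sub (q (-3) 100) vs :: es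
def R4 (c hc hx hl g : E) (es : List E) : List E :=
  FRe c hc vx hx vl hl g (uu vs (sub hl hx)) :: sub (q 3 100) vs :: es
def L1 (c hc l' hx g : E) (es : List E) : List E :=
  FLe c hc l' vx hx vl vt vw vS g (aN vs (sub vt hx)) :: sub vt hx :: es
def L2 (c hc l' hx g : E) (es : List E) : List E :=
  FLe c hc l' vx hx vl vt vw vS g (aP vs (sub vt hx)) :: sub hx vt :: es
def P1 (c hc l' hx g : E) (es : List E) : List E :=
  FGe c hc l' vt vx hx vl vh vw vS g (sub (add (aN vs (sub vh hx)) (uu (q 5 100) vh))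
    (mul (mul (q 1 2) pi) (add vh vS))) :: sub vh hx :: sub (add vl vw) (q 6 100) :: es
def P2 (c hc l' hx g : E) (es : List E) : List E :=
  FGe c hc l' vt vx hx vl vh vw vS g (sub (add (aP vs (sub vh hx)) (uu (q 5 100) vh))
    (mul (mul (q 1 2) pi) (add vh vS))) :: sub hx vh :: sub (add vl vw) (q 6 100) :: es
def P3 (c hc l' hx g : E) (es : List E) : List E :=
  FGe c hc l' vt vx hx vl vh vw vS g (sub (add (aN vs (sub vh hx)) (uu (q 5 100) vh))
    (uu (add vl vw) (add vh vS))) :: sub vh hx :: sub (q 6 100) (add vl vw) :: es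
def P4 (c hc l' hx g : E) (es : List E) : List E :=
  FGe c hc l' vt vx hx vl vh vw vS g (sub (add (aP vs (sub vh hx)) (uu (q 5 100) vh))
    (uu (add vl vw) (add vh vS))) :: sub hx vh :: sub (q 6 100) (add vl vw) :: es
def O1 (c hc hx g : E) (es : List E) : List E :=
  FOe c hc vx hx vl vt g (sub (uu (add c vl) (add vt hc)) (uu vk (add vt hx))) ::
    sub vk (q 97 100) :: es
def O2 (c hc hx g : E) (es : List E) : List E :=
  FOe c hc vx hx vl vt g (sub (uu (add c vl) (add vt hc)) (uu (q 97 100) (add vt hx))) ::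
    sub (q 97 100) vk :: sub vk (q 103 100) :: es
def O3 (c hc hx g : E) (es : List E) : List E :=
  FOe c hc vx hx vl vt g (sub (uu (add c vl) (add vt hc)) (bN vk (add vt hx))) :: add vt hx ::
    sub (q 103 100) vk :: es
def O4 (c hc hx g : E) (es : List E) : List E :=
  FOe c hc vx hx vl vt g (sub (uu (add c vl) (add vt hc)) (bP vk (add vt hx))) ::
    neg (add vt hx) :: sub (q 103 100) vk :: es
def O5 (c hc hx g : E) (es : List E) : List E :=
  FOe c hc vx hx vl vt g (sub (sub (uu (q 3 100) (add vt hc)) (mul pi (add vt hc)))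
    (bN vk (add vt hx))) :: add vt hx :: es
def O6 (c hc hx g : E) (es : List E) : List E :=
  FOe c hc vx hx vl vt g (sub (add (uu (q 3 100) (add vt hc)) (mul pi (add vt hc)))
    (bP vk (add vt hx))) :: neg (add vt hx) :: es
def O7 (c hc hx g : E) (es : List E) : List E :=
  FOe c hc vx hx vl vt g (sub (bN (add c vl) (add vt hc)) (bN vk (add vt hx))) ::
    add vt hx :: es
def O8 (c hc hx g : E) (es : List E) : List E :=
  FOe c hc vx hx vl vt g (sub (bP (add c vl) (add vt hc)) (bP vk (add vt hx))) ::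
    neg (add vt hx) :: es

section
variable {c hc hx g l' hl : E} {es : List E} {x T l t w S : ℝ} {xs : List ℝ}

theorem aN_val {s y : E} : (aN s y).val xs =
    uu (1 + s.val xs) (y.val xs) + Real.pi * y.val xs := by
  simp only [aN, E.val]
  norm_num

theorem aP_val {s y : E} : (aP s y).val xs =
    uu (1 + s.val xs) (y.val xs) - Real.pi * y.val xs := by
  simp only [aP, E.val]
  norm_num

theorem bN_val {s y : E} : (bN s y).val xs =
    uu (s.val xs - 1) (y.val xs) - Real.pi * y.val xs := by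
  simp only [bN, E.val]
  norm_num

theorem bP_val {s y : E} : (bP s y).val xs =
    uu (s.val xs - 1) (y.val xs) + Real.pi * y.val xs := by
  simp only [bP, E.val]
  norm_num

/-- the inner variable stays at `l + hl i` -/
theorem right_row (hv : vl.val xs = l) (hx0 : vx.val xs = x)
    (hy : |hl.val xs - hx.val xs| ≤ 13 / 100) (hes : ∀ e ∈ es, e.val xs ≤ 0)
    (k1 : l - x ≤ -(3 / 100) → ∃ e ∈ R1 c hc hx hl g es, 0 < e.val xs)
    (k2 : l - x ≤ -(3 / 100) → ∃ e ∈ R2 c hc hx hl g es, 0 < e.val xs)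
    (k3 : -(3 / 100) ≤ l - x → l - x ≤ 3 / 100 → ∃ e ∈ R3 c hc hx hl g es,
      0 < e.val xs)
    (k4 : 3 / 100 ≤ l - x → ∃ e ∈ R4 c hc hx hl g es, 0 < e.val xs) :
    0 < dvR (c.val xs) (hc.val xs) x (hx.val xs) l (hl.val xs) + g.val xs +
      uu (l - x) (hl.val xs - hx.val xs) := by
  have e1 : vs.val xs = l - x := by
    simp only [vs, E.val, hv, hx0]
  have e2 : ((3 : ℤ) : ℝ) / ((100 : ℕ) : ℝ) = 3 / 100 := by norm_num
  have e4 : ((-3 : ℤ) : ℝ) / ((100 : ℕ) : ℝ) = -(3 / 100) := by norm_num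
  refine split_uu hy ?_ ?_ ?_ ?_
  · intro h1 h2
    have := of_list (k1 h1) (all_cons (by simp only [E.val]; exact h2)
      (all_cons (by simp only [E.val, e1, e2]; linarith only [h1]) hes))
    rw [FRe_val, aN_val, hv, hx0, e1] at this
    simpa only [E.val] using this
  · intro h1 h2
    have := of_list (k2 h1) (all_cons (by simp only [E.val]; linarith only [h2])
      (all_cons (by simp only [E.val, e1, e2]; linarith only [h1]) hes))
    rw [FRe_val, aP_val, hv, hx0, e1] at this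
    simpa only [E.val] using this
  · intro h1 h2
    have := of_list (k3 h1 h2) (all_cons (by simp only [E.val, e1, e2]; linarith only [h2])
      (all_cons (by simp only [E.val, e1, e4]; linarith only [h1]) hes))
    rw [FRe_val, hv, hx0] at this
    simpa only [E.val, e2] using this
  · intro h1
    have := of_list (k4 h1) (all_cons (by simp only [E.val, e1, e2]; linarith only [h1]) hes)
    rw [FRe_val, hv, hx0] at this
    simpa only [E.val, e1] using this

/-- the inner variable moves from `l + t i` to `l' + t i` -/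
theorem left_row (hes : ∀ e ∈ es, e.val [x, T, l, t, w, S] ≤ 0)
    (k1 : ∃ e ∈ L1 c hc l' hx g es, 0 < e.val [x, T, l, t, w, S])
    (k2 : ∃ e ∈ L2 c hc l' hx g es, 0 < e.val [x, T, l, t, w, S]) :
    0 < dvL (c.val [x, T, l, t, w, S]) (hc.val [x, T, l, t, w, S]) (l'.val [x, T, l, t, w, S]) x
      (hx.val [x, T, l, t, w, S]) l t w S + g.val [x, T, l, t, w, S] +
      uu (l - x) (t - hx.val [x, T, l, t, w, S]) := by
  refine split_uu2 ?_ ?_
  · intro h2
    have := of_list k1 (all_cons (by simp only [E.val]; exact h2) hes)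
    rw [FLe_val, aN_val] at this
    exact this
  · intro h2
    have := of_list k2 (all_cons (by
      simp only [E.val]
      have h3 : vt.val [x, T, l, t, w, S] = t := rfl
      rw [h3]
      linarith only [h2]) hes)
    rw [FLe_val, aP_val] at this
    exact this

/-- the inner variable moves from `l + 20 t l i` to `l' + t i` -/
theorem ramp_row (hes : ∀ e ∈ es, e.val [x, T, l, t, w, S] ≤ 0) (h0 : 0 ≤ l) (h5 : l ≤ 5 / 100)
    (hw0 : 0 ≤ w) (ht : |t| ≤ 125 / 1000) (hS : w ≤ 6 / 100 → |S| ≤ 78 / 100 * w)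
    (k1 : l + w ≤ 6 / 100 → ∃ e ∈ P1 c hc l' hx g es, 0 < e.val [x, T, l, t, w, S])
    (k2 : l + w ≤ 6 / 100 → ∃ e ∈ P2 c hc l' hx g es, 0 < e.val [x, T, l, t, w, S])
    (k3 : 6 / 100 ≤ l + w → ∃ e ∈ P3 c hc l' hx g es, 0 < e.val [x, T, l, t, w, S])
    (k4 : 6 / 100 ≤ l + w → ∃ e ∈ P4 c hc l' hx g es, 0 < e.val [x, T, l, t, w, S]) :
    0 < dvG (c.val [x, T, l, t, w, S]) (hc.val [x, T, l, t, w, S]) (l'.val [x, T, l, t, w, S]) t x
      (hx.val [x, T, l, t, w, S]) l (20 * (t * l)) w S + g.val [x, T, l, t, w, S] +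
      (uu l (20 * (t * l)) - uu (l + w) (20 * (t * l) + S) +
        uu (l - x) (20 * (t * l) - hx.val [x, T, l, t, w, S])) := by
  have evh : vh.val [x, T, l, t, w, S] = 20 * (t * l) := by
    have h2 : vt.val [x, T, l, t, w, S] = t := rfl
    have h3 : vl.val [x, T, l, t, w, S] = l := rfl
    simp only [vh, E.val, h2, h3]
    norm_num
  have ev1 : vl.val [x, T, l, t, w, S] = l := rfl
  have ev2 : vw.val [x, T, l, t, w, S] = w := rfl
  have ev3 : vx.val [x, T, l, t, w, S] = x := rfl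
  have ev4 : vS.val [x, T, l, t, w, S] = S := rfl
  have ev5 : vt.val [x, T, l, t, w, S] = t := rfl
  have ev6 : vs.val [x, T, l, t, w, S] = l - x := rfl
  have e2 : ((6 : ℤ) : ℝ) / ((100 : ℕ) : ℝ) = 6 / 100 := by norm_num
  have e3 : ((5 : ℤ) : ℝ) / ((100 : ℕ) : ℝ) = 5 / 100 := by norm_num
  have e4 : ((1 : ℤ) : ℝ) / ((2 : ℕ) : ℝ) * Real.pi = Real.pi / 2 := by push_cast; ring
  have hhl : |20 * (t * l)| ≤ 125 / 1000 * (20 * l) := by
    rw [show 20 * (t * l) = t * (20 * l) by ring, abs_mul, abs_of_nonneg (by linarith only [h0] : 0 ≤ 20 * l)]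
    exact mul_le_mul_of_nonneg_right ht (by linarith only [h0])
  refine split_ramp h0 h5 hw0 (by linarith only [h5, hhl]) ?_ ?_ ?_ ?_ ?_
  · intro h1
    have := abs_add_le (20 * (t * l)) S
    have := hS (by linarith only [h0, h1])
    linarith
  · intro h1 h2
    have := of_list (k1 h1) (all_cons (by simp only [E.val, evh]; exact h2)
      (all_cons (by simp only [E.val, ev1, ev2, e2]; linarith only [h1]) hes))
    rw [FGe_val] at this
    simp only [E.val, aN_val, evh, ev1, ev2, ev3, ev4, ev5, ev6, e3, e4] at this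
    exact this
  · intro h1 h2
    have := of_list (k2 h1) (all_cons (by simp only [E.val, evh]; linarith only [h2])
      (all_cons (by simp only [E.val, ev1, ev2, e2]; linarith only [h1]) hes))
    rw [FGe_val] at this
    simp only [E.val, aP_val, evh, ev1, ev2, ev3, ev4, ev5, ev6, e3, e4] at this
    exact this
  · intro h1 h2
    have := of_list (k3 h1) (all_cons (by simp only [E.val, evh]; exact h2)
      (all_cons (by simp only [E.val, ev1, ev2, e2]; linarith only [h1]) hes))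
    rw [FGe_val] at this
    simp only [E.val, aN_val, evh, ev1, ev2, ev3, ev4, ev5, ev6, e3] at this
    exact this
  · intro h1 h2
    have := of_list (k4 h1) (all_cons (by simp only [E.val, evh]; linarith only [h2])
      (all_cons (by simp only [E.val, ev1, ev2, e2]; linarith only [h1]) hes))
    rw [FGe_val] at this
    simp only [E.val, aP_val, evh, ev1, ev2, ev3, ev4, ev5, ev6, e3] at this
    exact this

/-- side of a digit `2` or side `S2` of an inner digit `3` -/
theorem other_row {cc k hk : ℝ} (hv : vl.val xs = k) (hx0 : vx.val xs = x) (ht : vt.val xs = hk)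
    (hcc : c.val xs = cc) (hy : |hk + hx.val xs| ≤ 14 / 100)
    (hy' : 97 / 100 ≤ cc + k → |hk + hc.val xs| ≤ 14 / 100)
    (k1 : x + k ≤ 97 / 100 → ∃ e ∈ O1 c hc hx g es, 0 < e.val xs)
    (k2 : 97 / 100 ≤ x + k → x + k ≤ 103 / 100 → ∃ e ∈ O2 c hc hx g es, 0 < e.val xs)
    (k3 : 103 / 100 ≤ x + k → cc + k ≤ 97 / 100 → ∃ e ∈ O3 c hc hx g es, 0 < e.val xs)
    (k4 : 103 / 100 ≤ x + k → cc + k ≤ 97 / 100 → ∃ e ∈ O4 c hc hx g es, 0 < e.val xs)
    (k5 : 97 / 100 ≤ cc + k → cc + k ≤ 103 / 100 → ∃ e ∈ O5 c hc hx g es, 0 < e.val xs)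
    (k6 : 97 / 100 ≤ cc + k → cc + k ≤ 103 / 100 → ∃ e ∈ O6 c hc hx g es, 0 < e.val xs)
    (k7 : 103 / 100 ≤ cc + k → ∃ e ∈ O7 c hc hx g es, 0 < e.val xs)
    (k8 : 103 / 100 ≤ cc + k → ∃ e ∈ O8 c hc hx g es, 0 < e.val xs)
    (hes : ∀ e ∈ es, e.val xs ≤ 0) :
    g.val xs < dvO cc (hc.val xs) x (hx.val xs) k hk +
      (uu (cc + k) (hc.val xs + hk) - uu (x + k) (hx.val xs + hk)) := by
  have e1 : vk.val xs = x + k := by
    simp only [vk, E.val, hv, hx0]
  have e2 : ((3 : ℤ) : ℝ) / ((100 : ℕ) : ℝ) = 3 / 100 := by norm_num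
  have e3 : ((97 : ℤ) : ℝ) / ((100 : ℕ) : ℝ) = 97 / 100 := by norm_num
  have e5 : ((103 : ℤ) : ℝ) / ((100 : ℕ) : ℝ) = 103 / 100 := by norm_num
  have key : 0 < (dvO cc (hc.val xs) x (hx.val xs) k hk - g.val xs) +
      (uu (cc + k) (hk + hc.val xs) - uu (x + k) (hk + hx.val xs)) := by
    refine split_one hy hy' ?_ ?_ ?_ ?_ ?_ ?_ ?_ ?_
    · intro h1
      have := of_list (k1 h1) (all_cons (by simp only [E.val, e1, e3]; linarith only [h1]) hes)
      rw [FOe_val] at this
      simp only [E.val, hv, hx0, ht, hcc, e1] at this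
      exact this
    · intro h1 h2
      have := of_list (k2 h1 h2) (all_cons (by simp only [E.val, e1, e3]; linarith only [h1])
        (all_cons (by simp only [E.val, e1, e5]; linarith only [h2]) hes))
      rw [FOe_val] at this
      simp only [E.val, hv, hx0, ht, hcc, e3] at this
      exact this
    · intro h1 h2 h3
      have := of_list (k3 h1 h2) (all_cons (by simp only [E.val, ht]; exact h3)
        (all_cons (by simp only [E.val, e1, e5]; linarith only [h1]) hes))
      rw [FOe_val] at this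
      simp only [E.val, hv, hx0, ht, hcc, bN_val, e1] at this
      exact this
    · intro h1 h2 h3
      have := of_list (k4 h1 h2) (all_cons (by simp only [E.val, ht]; linarith only [h3])
        (all_cons (by simp only [E.val, e1, e5]; linarith only [h1]) hes))
      rw [FOe_val] at this
      simp only [E.val, hv, hx0, ht, hcc, bP_val, e1] at this
      exact this
    · intro h1 h2 h3
      have := of_list (k5 h1 h2) (all_cons (by simp only [E.val, ht]; exact h3) hes)
      rw [FOe_val] at this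
      simp only [E.val, hv, hx0, ht, hcc, bN_val, e1, e2] at this
      exact this
    · intro h1 h2 h3
      have := of_list (k6 h1 h2) (all_cons (by simp only [E.val, ht]; linarith only [h3]) hes)
      rw [FOe_val] at this
      simp only [E.val, hv, hx0, ht, hcc, bP_val, e1, e2] at this
      exact this
    · intro h1 h3
      have := of_list (k7 h1) (all_cons (by simp only [E.val, ht]; exact h3) hes)
      rw [FOe_val] at this
      simp only [E.val, hv, hx0, ht, hcc, bN_val, e1] at this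
      exact this
    · intro h1 h3
      have := of_list (k8 h1) (all_cons (by simp only [E.val, ht]; linarith only [h3]) hes)
      rw [FOe_val] at this
      simp only [E.val, hv, hx0, ht, hcc, bP_val, e1] at this
      exact this
  rw [add_comm (hc.val xs) hk, add_comm (hx.val xs) hk]
  linarith only [key]

end

end V2A

end Pool.Agent.Work.MP_b30479_gtS.G2

end

section

/-!
# Value moves of the hinge `2 | 3`: the digit `2`, definitions
-/

namespace Pool.Agent.Work.MP_b30479_gtS.G2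

open VOL NumUs

namespace V2A

open NumUs.E

/-- the height `κ k` -/
def vkk : E := mul vt vl
def OS (c hc hx g : E) : List E :=
  [FOe c hc vx hx vl vkk g (sub (uu (add c vl) (add vkk hc)) (uu vk (add vkk hx)))]

end V2A

end Pool.Agent.Work.MP_b30479_gtS.G2

end

section

/-!
# Expressions of the value moves of an inner digit `3`
-/

namespace Pool.Agent.Work.MP_b30479_gtS.G2

open VOL NumUs

namespace V2A

open NumUs.E

/-- `|S| ≤ .78 w` is violated -/
def ecw : E := sub (neg (mul (q 78 100) vw)) vS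

/-- the end region: lists of expressions -/
def M1 (hl : E) : List E :=
  [FGe (q 27 100) vT (q 42 100) vt vx eh30 vl hl (q 0 1) (q 0 1) (q (-2) 100)
    (aN vs (sub hl eh30)), sub hl eh30, add vs (q 3 100)]

def M2 (hl : E) : List E :=
  [FGe (q 27 100) vT (q 42 100) vt vx eh30 vl hl (q 0 1) (q 0 1) (q (-2) 100)
    (aP vs (sub hl eh30)), sub eh30 hl, add vs (q 3 100)]

def M3 (hl : E) : List E :=
  [FGe (q 27 100) vT (q 42 100) vt vx eh30 vl hl (q 0 1) (q 0 1) (q (-2) 100)
    (uu (q 3 100) (sub hl eh30)), sub vs (q 3 100), sub (q (-3) 100) vs]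

def M4 (hl : E) : List E :=
  [FGe (q 27 100) vT (q 42 100) vt vx eh30 vl hl (q 0 1) (q 0 1) (q (-2) 100)
    (uu vs (sub hl eh30)), sub (q 3 100) vs]

/-- heights of the inner variable at an end: left ramp, right ramp -/
def wE1 : E := mul (q 10 1) (mul vt vl)

def wE3 : E := mul vt (sub (q 385 100) (mul (q 5 1) vl))

/-- the height `κ k` -/
def wkk : E := mul vt vl

def OW (c hc hx g : E) : List E :=
  [FOe c hc vx hx vl wkk g (sub (uu (add c vl) (add wkk hc)) (uu vk (add wkk hx)))]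

end V2A

end Pool.Agent.Work.MP_b30479_gtS.G2

end
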