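import Pool.Agent.Work.MP_b30479_gt.TBS.G2.RMon
import Pool.Agent.Work.MP_b30479_gt.TBS.G2.Num.RF
import Pool.Agent.Work.MP_b30479_gt.TBS.G2.WValD
import Pool.Agent.Work.MP_b30479_gt.TBS.NumU.Node

section

/-!
# Value row of the inner variable of an inner digit `3`: monotonicity and concavity

With `t` the height and `20 * t * r` the height on the left ramp, the difference of the values is
`FA x T - π |20 t r - T| + FB w S + FC`.  `FA x T - π (20 t r - T)` increases in `T`,
`FA x T + π (20 t r - T)` decreases in `T`, `FB w S` increases in `S`; `FA` is concave in `x` and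
`FB` is concave in `w`.
-/

namespace Pool.Agent.Work.MP_b30479_gtS.G2

open VOL NumUs

namespace VM

/-! ### derivatives and bounds of the derivatives -/

theorem deriv_im {p : ℝ} (h0 : 0 < p) (h1 : p < 1) {f : ℝ → ℝ} {f' t : ℝ}
    (hf : HasDerivAt f f' t) : HasDerivAt (fun s => uu p (f s)) (f' * YY ⟨p, f t⟩) t := by
  have hg : HasDerivAt (fun s : ℝ => (p : ℂ) + ((f s : ℝ) : ℂ) * Complex.I)
      ((f' : ℂ) * Complex.I) t :=
    (hf.ofReal_comp.mul_const Complex.I).const_add (p : ℂ)
  have e : ∀ s : ℝ, (p : ℂ) + ((f s : ℝ) : ℂ) * Complex.I = ⟨p, f s⟩ := by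
    intro s
    apply Complex.ext <;> simp
  have h2 := hasDerivAt_UU hg (Or.inr (by rw [e]; exact ⟨h0, h1⟩))
  have h3 : (fun s => uu p (f s)) = fun s : ℝ => UU ((p : ℂ) + ((f s : ℝ) : ℂ) * Complex.I) := by
    funext s
    rw [e]
    rfl
  rw [h3]
  refine h2.congr_deriv ?_
  rw [e]
  simp

theorem deriv_re {y : ℝ} {f : ℝ → ℝ} {f' t : ℝ} (hf : HasDerivAt f f' t) (h0 : 0 < f t)
    (h1 : f t < 1) : HasDerivAt (fun s => uu (f s) y) (f' * LL ⟨f t, y⟩) t := by
  have hg : HasDerivAt (fun s : ℝ => ((f s : ℝ) : ℂ) + (y : ℂ) * Complex.I) (f' : ℂ) t :=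
    hf.ofReal_comp.add_const ((y : ℂ) * Complex.I)
  have e : ∀ s : ℝ, ((f s : ℝ) : ℂ) + (y : ℂ) * Complex.I = ⟨f s, y⟩ := by
    intro s
    apply Complex.ext <;> simp
  have h2 := hasDerivAt_UU hg (Or.inr (by rw [e]; exact ⟨h0, h1⟩))
  have h3 : (fun s => uu (f s) y) = fun s : ℝ => UU (((f s : ℝ) : ℂ) + (y : ℂ) * Complex.I) := by
    funext s
    rw [e]
    rfl
  rw [h3]
  refine h2.congr_deriv ?_
  rw [e]
  simp

theorem YY_left {p y : ℝ} (h0 : 0 ≤ p) (h1 : p ≤ 1 / 2) :
    |YY ⟨p, y⟩| ≤ Real.pi * (1 / 2 - p) := by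
  have hp := Real.pi_pos
  rcases lt_trichotomy y 0 with h | h | h
  · rw [YY_neg (by exact h)]
    simp only
    have a1 := pi_mul_le_Tr h0 h1 (s := -y) (by linarith only [h])
    have a2 := Tr_le_half (s := -y) (by linarith only [h]) h1
    rw [abs_le]
    constructor <;> nlinarith only [a1, a2]
  · rw [YY_zero (by exact h), abs_zero]
    exact mul_nonneg hp.le (by linarith only [h1])
  · rw [YY_pos (by exact h)]
    simp only
    have a1 := pi_mul_le_Tr h0 h1 h
    have a2 := Tr_le_half h h1
    rw [abs_le]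
    constructor <;> nlinarith only [a1, a2]

theorem YY_right {p y : ℝ} (h0 : 1 / 2 ≤ p) (h1 : p ≤ 1) :
    |YY ⟨p, y⟩| ≤ Real.pi * (p - 1 / 2) := by
  have hp := Real.pi_pos
  rcases lt_trichotomy y 0 with h | h | h
  · rw [YY_neg (by exact h)]
    simp only
    have a1 := Tr_le_pi_mul h0 h1 (s := -y) (by linarith only [h])
    have a2 := half_le_Tr (s := -y) (by linarith only [h]) h0
    rw [abs_le]
    constructor <;> nlinarith only [a1, a2]
  · rw [YY_zero (by exact h), abs_zero]
    exact mul_nonneg hp.le (by linarith only [h0])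
  · rw [YY_pos (by exact h)]
    simp only
    have a1 := Tr_le_pi_mul h0 h1 h
    have a2 := half_le_Tr h h0
    rw [abs_le]
    constructor <;> nlinarith only [a1, a2]

theorem LL_arg_pos {p : ℝ} (y : ℝ) (h0 : 0 < p) (h1 : p < 1) :
    0 < 2 * Real.cosh (2 * Real.pi * y) - 2 * Real.cos (2 * Real.pi * p) := by
  have hp := Real.pi_pos
  have h2 : Real.cos (2 * Real.pi * p) < 1 := by
    have h3 : 0 < Real.sin (Real.pi * p) :=
      Real.sin_pos_of_pos_of_lt_pi (by positivity) (by nlinarith only [h1, hp])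
    rw [mul_assoc, Real.cos_two_mul, Real.cos_sq']
    nlinarith only [h3]
  have h4 := Real.one_le_cosh (2 * Real.pi * y)
  linarith only [h2, h4]

/-- `LL` increases on `(0, 1/2]` -/
theorem LL_mono {p q y : ℝ} (h0 : 0 < p) (hpq : p ≤ q) (hq : q ≤ 1 / 2) :
    LL ⟨p, y⟩ ≤ LL ⟨q, y⟩ := by
  have hp := Real.pi_pos
  rw [LL_eq', LL_eq']
  simp only
  apply div_le_div_of_nonneg_right _ (by norm_num)
  apply Real.log_le_log (LL_arg_pos y h0 (by linarith only [h0, hpq, hq]))
  have : Real.cos (2 * Real.pi * q) ≤ Real.cos (2 * Real.pi * p) := by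
    apply Real.cos_le_cos_of_nonneg_of_le_pi <;> nlinarith only [h0, hp, hq, hpq]
  linarith only [this]

/-- `LL` decreases on `[1/2, 1)` -/
theorem LL_anti {p q y : ℝ} (h0 : 1 / 2 ≤ p) (hpq : p ≤ q) (hq : q < 1) :
    LL ⟨q, y⟩ ≤ LL ⟨p, y⟩ := by
  have h := LL_mono (p := 1 - q) (q := 1 - p) (y := y) (by linarith only [hq]) (by linarith only [hpq]) (by linarith only [h0])
  rw [LL_eq', LL_eq'] at h ⊢
  simp only at h ⊢
  have e : ∀ s : ℝ, Real.cos (2 * Real.pi * (1 - s)) = Real.cos (2 * Real.pi * s) := by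
    intro s
    rw [show 2 * Real.pi * (1 - s) = 2 * Real.pi - 2 * Real.pi * s by ring, Real.cos_two_pi_sub]
  rw [e, e] at h
  exact h

theorem cont_uu {f g : ℝ → ℝ} (hf : Continuous f) (hg : Continuous g) :
    Continuous fun s => uu (f s) (g s) := by
  have h : (fun s => uu (f s) (g s)) =
      fun s => UU (((f s : ℝ) : ℂ) + ((g s : ℝ) : ℂ) * Complex.I) := by
    funext s
    have e : ((f s : ℝ) : ℂ) + ((g s : ℝ) : ℂ) * Complex.I = ⟨f s, g s⟩ := by
      apply Complex.ext <;> simp
    rw [e]
    rfl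
  rw [h]
  exact continuous_UU.comp (by fun_prop)

/-! ### the parts -/

/-- the part with the hinge `x + i T` on the side `S3` -/
noncomputable def FA (c r t x T : ℝ) : ℝ :=
  -(Real.pi * (x * t * (1 - 20 * r) + T * (c - r))) - uu (c - x) (t - T) +
    uu (1 + r - x) (20 * t * r - T)

/-- the part with the hinge `w + i S` on the side `S2` -/
noncomputable def FB (c r t w S : ℝ) : ℝ :=
  Real.pi * (w * t * (1 - 20 * r) + S * (c - r)) + uu (c + w) (t + S) -
    uu (r + w) (20 * t * r + S)

/-- the remaining part -/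
noncomputable def FC (c r t : ℝ) : ℝ :=
  -(Real.pi * t * (c - 20 * r ^ 2)) + Real.pi / 2 * t * (1 - 20 * r) - uu c t + uu r (20 * t * r)

variable {c r t x T w S : ℝ}

theorem FA_deriv_T (h1 : 0 < c - x) (h1' : c - x < 1) (h2 : 0 < 1 + r - x) (h2' : 1 + r - x < 1)
    (s : ℝ) (T : ℝ) :
    HasDerivAt (fun T => FA c r t x T - s * (Real.pi * (20 * t * r - T)))
      (-(Real.pi * (c - r)) + YY ⟨c - x, t - T⟩ - YY ⟨1 + r - x, 20 * t * r - T⟩ + s * Real.pi)
      T := by
  have a1 : HasDerivAt (fun T : ℝ => t - T) (-1) T := by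
    simpa using (hasDerivAt_id T).const_sub t
  have a2 : HasDerivAt (fun T : ℝ => 20 * t * r - T) (-1) T := by
    simpa using (hasDerivAt_id T).const_sub (20 * t * r)
  have b0 : HasDerivAt (fun T : ℝ => Real.pi * (x * t * (1 - 20 * r) + T * (c - r)))
      (Real.pi * (c - r)) T := by
    simpa using (((hasDerivAt_id T).mul_const (c - r)).const_add (x * t * (1 - 20 * r))).const_mul
      Real.pi
  have b1 := deriv_im h1 h1' a1
  have b2 := deriv_im h2 h2' a2
  have b3 := (a2.const_mul Real.pi).const_mul s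
  have := ((b0.neg.sub b1).add b2).sub b3
  refine this.congr_deriv ?_
  ring

theorem FA_mono (hc : r ≤ c) (h1 : 0 < c - x) (h1' : c - x ≤ 1 / 2) (h2 : 1 / 2 ≤ 1 + r - x)
    (h2' : 1 + r - x < 1) {T' : ℝ} (h : T' ≤ T) :
    FA c r t x T' - Real.pi * (20 * t * r - T') ≤ FA c r t x T - Real.pi * (20 * t * r - T) := by
  have hd := fun T => FA_deriv_T (c := c) (r := r) (t := t) (x := x) h1 (by linarith only [h1, h1'])
    (by linarith only [h1, h1', h2]) h2' 1 T
  have hm : Monotone fun T => FA c r t x T - 1 * (Real.pi * (20 * t * r - T)) := by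
    apply monotone_of_deriv_nonneg
    · exact fun T => (hd T).differentiableAt
    · intro T
      rw [(hd T).deriv]
      have a1 := (abs_le.1 (YY_left (y := t - T) h1.le h1')).1
      have a2 := (abs_le.1 (YY_right (y := 20 * t * r - T) h2 h2'.le)).2
      linarith only [a1, a2]
  have := hm h
  simpa using this

theorem FA_anti (hc : r ≤ c) (h1 : 0 < c - x) (h1' : c - x ≤ 1 / 2) (h2 : 1 / 2 ≤ 1 + r - x)
    (h2' : 1 + r - x < 1) {T' : ℝ} (h : T ≤ T') :
    FA c r t x T' + Real.pi * (20 * t * r - T') ≤ FA c r t x T + Real.pi * (20 * t * r - T) := by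
  have hd := fun T => FA_deriv_T (c := c) (r := r) (t := t) (x := x) h1 (by linarith only [h1, h1'])
    (by linarith only [h1, h1', h2]) h2' (-1) T
  have hp := Real.pi_pos
  have hm : Antitone fun T => FA c r t x T - -1 * (Real.pi * (20 * t * r - T)) := by
    apply antitone_of_deriv_nonpos
    · exact fun T => (hd T).differentiableAt
    · intro T
      rw [(hd T).deriv]
      have a1 := (abs_le.1 (YY_left (y := t - T) h1.le h1')).2
      have a2 := (abs_le.1 (YY_right (y := 20 * t * r - T) h2 h2'.le)).1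
      have a3 : 0 ≤ Real.pi * (c - r) := mul_nonneg hp.le (by linarith only [h1, h2'])
      linarith only [a1, a2, a3]
  have := hm h
  simpa using this

theorem FB_mono (hc : r ≤ c) (h1 : 1 / 2 ≤ c + w) (h1' : c + w < 1) (h2 : 0 < r + w)
    (h2' : r + w ≤ 1 / 2) {S' : ℝ} (h : S' ≤ S) : FB c r t w S' ≤ FB c r t w S := by
  have hm : Monotone fun S => FB c r t w S := by
    have hd : ∀ S : ℝ, HasDerivAt (fun S => FB c r t w S)
        (Real.pi * (c - r) + YY ⟨c + w, t + S⟩ - YY ⟨r + w, 20 * t * r + S⟩) S := by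
      intro S
      have a1 : HasDerivAt (fun S : ℝ => t + S) 1 S := by
        simpa using (hasDerivAt_id S).const_add t
      have a2 : HasDerivAt (fun S : ℝ => 20 * t * r + S) 1 S := by
        simpa using (hasDerivAt_id S).const_add (20 * t * r)
      have b0 : HasDerivAt (fun S : ℝ => Real.pi * (w * t * (1 - 20 * r) + S * (c - r)))
          (Real.pi * (c - r)) S := by
        simpa using (((hasDerivAt_id S).mul_const (c - r)).const_add
          (w * t * (1 - 20 * r))).const_mul Real.pi
      have b1 := deriv_im (p := c + w) (by linarith only [h1, h1']) h1' a1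
      have b2 := deriv_im (p := r + w) h2 (by linarith only [hc, h1']) a2
      have := (b0.add b1).sub b2
      refine this.congr_deriv ?_
      ring
    apply monotone_of_deriv_nonneg
    · exact fun S => (hd S).differentiableAt
    · intro S
      rw [(hd S).deriv]
      have a1 := (abs_le.1 (YY_right (y := t + S) h1 h1'.le)).1
      have a2 := (abs_le.1 (YY_left (y := 20 * t * r + S) h2.le h2')).2
      linarith only [a1, a2]
  exact hm h

theorem FA_concave {a b : ℝ} (h1 : 0 < c - b) (h1' : c - a ≤ 1 / 2) (h2 : 1 / 2 ≤ 1 + r - b)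
    (h2' : 1 + r - a < 1) : ConcaveOn ℝ (Set.Icc a b) fun x => FA c r t x T := by
  have hd : ∀ x ∈ Set.Ioo a b, HasDerivAt (fun x => FA c r t x T)
      (-(Real.pi * (t * (1 - 20 * r))) + LL ⟨c - x, t - T⟩ - LL ⟨1 + r - x, 20 * t * r - T⟩) x := by
    intro x hx
    have a1 : HasDerivAt (fun x : ℝ => c - x) (-1) x := by
      simpa using (hasDerivAt_id x).const_sub c
    have a2 : HasDerivAt (fun x : ℝ => 1 + r - x) (-1) x := by
      simpa using (hasDerivAt_id x).const_sub (1 + r)
    have b0 : HasDerivAt (fun x : ℝ => Real.pi * (x * t * (1 - 20 * r) + T * (c - r)))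
        (Real.pi * (t * (1 - 20 * r))) x := by
      have := ((((hasDerivAt_id x).mul_const t).mul_const (1 - 20 * r)).add_const
        (T * (c - r))).const_mul Real.pi
      refine this.congr_deriv ?_
      ring
    have b1 := deriv_re (y := t - T) a1 (by linarith only [h1, hx, hx.2]) (by linarith only [h1', hx, hx.1])
    have b2 := deriv_re (y := 20 * t * r - T) a2 (by linarith only [h2, hx, hx.2]) (by linarith only [h2', hx, hx.1])
    have := (b0.neg.sub b1).add b2
    refine this.congr_deriv ?_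
    ring
  apply AntitoneOn.concaveOn_of_deriv (convex_Icc a b)
  · apply Continuous.continuousOn
    unfold FA
    have c1 := cont_uu (f := fun x : ℝ => c - x) (g := fun _ => t - T) (by fun_prop) (by fun_prop)
    have c2 := cont_uu (f := fun x : ℝ => 1 + r - x) (g := fun _ => 20 * t * r - T) (by fun_prop)
      (by fun_prop)
    exact (((by fun_prop : Continuous fun x : ℝ =>
      -(Real.pi * (x * t * (1 - 20 * r) + T * (c - r)))).sub c1).add c2)
  · rw [interior_Icc]
    exact fun x hx => (hd x hx).differentiableAt.differentiableWithinAt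
  · rw [interior_Icc]
    intro x hx y hy hxy
    rw [(hd x hx).deriv, (hd y hy).deriv]
    have a1 := LL_mono (p := c - y) (q := c - x) (y := t - T) (by linarith only [h1, hy, hy.2]) (by linarith only [hxy])
      (by linarith only [h1', hx, hx.1])
    have a2 := LL_anti (p := 1 + r - y) (q := 1 + r - x) (y := 20 * t * r - T)
      (by linarith only [h2, hy, hy.2]) (by linarith only [hxy]) (by linarith only [h2', hx, hx.1])
    linarith only [a1, a2]

theorem FB_concave {a b : ℝ} (h1 : 1 / 2 ≤ c + a) (h1' : c + b < 1) (h2 : 0 < r + a)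
    (h2' : r + b ≤ 1 / 2) : ConcaveOn ℝ (Set.Icc a b) fun w => FB c r t w S := by
  have hd : ∀ w ∈ Set.Ioo a b, HasDerivAt (fun w => FB c r t w S)
      (Real.pi * (t * (1 - 20 * r)) + LL ⟨c + w, t + S⟩ - LL ⟨r + w, 20 * t * r + S⟩) w := by
    intro w hw
    have a1 : HasDerivAt (fun w : ℝ => c + w) 1 w := by
      simpa using (hasDerivAt_id w).const_add c
    have a2 : HasDerivAt (fun w : ℝ => r + w) 1 w := by
      simpa using (hasDerivAt_id w).const_add r
    have b0 : HasDerivAt (fun w : ℝ => Real.pi * (w * t * (1 - 20 * r) + S * (c - r)))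
        (Real.pi * (t * (1 - 20 * r))) w := by
      have := ((((hasDerivAt_id w).mul_const t).mul_const (1 - 20 * r)).add_const
        (S * (c - r))).const_mul Real.pi
      refine this.congr_deriv ?_
      ring
    have b1 := deriv_re (y := t + S) a1 (by linarith only [h1, hw, hw.1]) (by linarith only [h1', hw, hw.2])
    have b2 := deriv_re (y := 20 * t * r + S) a2 (by linarith only [h2, hw, hw.1]) (by linarith only [h2', hw, hw.2])
    have := (b0.add b1).sub b2
    refine this.congr_deriv ?_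
    ring
  apply AntitoneOn.concaveOn_of_deriv (convex_Icc a b)
  · apply Continuous.continuousOn
    unfold FB
    have c1 := cont_uu (f := fun w : ℝ => c + w) (g := fun _ => t + S) (by fun_prop) (by fun_prop)
    have c2 := cont_uu (f := fun w : ℝ => r + w) (g := fun _ => 20 * t * r + S) (by fun_prop)
      (by fun_prop)
    exact (((by fun_prop : Continuous fun w : ℝ =>
      Real.pi * (w * t * (1 - 20 * r) + S * (c - r))).add c1).sub c2)
  · rw [interior_Icc]
    exact fun x hx => (hd x hx).differentiableAt.differentiableWithinAt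
  · rw [interior_Icc]
    intro x hx y hy hxy
    rw [(hd x hx).deriv, (hd y hy).deriv]
    have a1 := LL_anti (p := c + x) (q := c + y) (y := t + S) (by linarith only [h1, hx, hx.1]) (by linarith only [hxy])
      (by linarith only [h1', hy, hy.2])
    have a2 := LL_mono (p := r + x) (q := r + y) (y := 20 * t * r + S)
      (by linarith only [h2, hx, hx.1]) (by linarith only [hxy]) (by linarith only [h2', hy, hy.2])
    linarith only [a1, a2]

/-- reduction to the corners -/
theorem corner {a b a' b' T0 T1 S0 : ℝ} (hc : r ≤ c) (hx : a ≤ x) (hx' : x ≤ b) (hw : a' ≤ w)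
    (hw' : w ≤ b') (h1 : 0 < c - b) (h1' : c - a ≤ 1 / 2) (h2 : 1 / 2 ≤ 1 + r - b)
    (h2' : 1 + r - a < 1) (h3 : 1 / 2 ≤ c + a') (h3' : c + b' < 1) (h4 : 0 < r + a')
    (h4' : r + b' ≤ 1 / 2) (hT : T0 ≤ T) (hT' : T ≤ T1) (hS : S0 ≤ S)
    (k : ∀ x' ∈ ({a, b} : Set ℝ), ∀ w' ∈ ({a', b'} : Set ℝ),
      0 < FA c r t x' T0 - Real.pi * (20 * t * r - T0) + FB c r t w' S0 + FC c r t ∧
      0 < FA c r t x' T1 + Real.pi * (20 * t * r - T1) + FB c r t w' S0 + FC c r t) :
    0 < FA c r t x T - Real.pi * |20 * t * r - T| + FB c r t w S + FC c r t := by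
  have a1 := FA_mono (c := c) (r := r) (t := t) (x := x) hc (by linarith only [hx', h1]) (by linarith only [hx, h1'])
    (by linarith only [hx', h2]) (by linarith only [hx, h2']) hT
  have a2 := FA_anti (c := c) (r := r) (t := t) (x := x) hc (by linarith only [hx', h1]) (by linarith only [hx, h1'])
    (by linarith only [hx', h2]) (by linarith only [hx, h2']) hT'
  have a3 := FB_mono (c := c) (r := r) (t := t) (w := w) hc (by linarith only [hw, h3]) (by linarith only [hw', h3'])
    (by linarith only [hw, h4]) (by linarith only [hw', h4']) hS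
  have c1 := (FA_concave (t := t) (T := T0) h1 h1' h2 h2').min_le_of_mem_Icc
    (Set.left_mem_Icc.2 (hx.trans hx')) (Set.right_mem_Icc.2 (hx.trans hx')) ⟨hx, hx'⟩
  have c2 := (FA_concave (t := t) (T := T1) h1 h1' h2 h2').min_le_of_mem_Icc
    (Set.left_mem_Icc.2 (hx.trans hx')) (Set.right_mem_Icc.2 (hx.trans hx')) ⟨hx, hx'⟩
  have c3 := (FB_concave (t := t) (S := S0) h3 h3' h4 h4').min_le_of_mem_Icc
    (Set.left_mem_Icc.2 (hw.trans hw')) (Set.right_mem_Icc.2 (hw.trans hw')) ⟨hw, hw'⟩
  obtain ⟨x1, hx1, e1⟩ : ∃ x' ∈ ({a, b} : Set ℝ), FA c r t x' T0 ≤ FA c r t x T0 := by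
    rcases min_le_iff.1 c1 with h | h
    · exact ⟨a, by simp, h⟩
    · exact ⟨b, by simp, h⟩
  obtain ⟨x2, hx2, e2⟩ : ∃ x' ∈ ({a, b} : Set ℝ), FA c r t x' T1 ≤ FA c r t x T1 := by
    rcases min_le_iff.1 c2 with h | h
    · exact ⟨a, by simp, h⟩
    · exact ⟨b, by simp, h⟩
  obtain ⟨w1, hw1, e3⟩ : ∃ w' ∈ ({a', b'} : Set ℝ), FB c r t w' S0 ≤ FB c r t w S0 := by
    rcases min_le_iff.1 c3 with h | h
    · exact ⟨a', by simp, h⟩
    · exact ⟨b', by simp, h⟩
  have k1 := (k x1 hx1 w1 hw1).1
  have k2 := (k x2 hx2 w1 hw1).2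
  rcases le_total 0 (20 * t * r - T) with h | h
  · rw [abs_of_nonneg h]
    linarith only [a1, a3, e1, e3, k1]
  · rw [abs_of_nonpos h]
    linarith only [a2, a3, e2, e3, k2]

end VM

end Pool.Agent.Work.MP_b30479_gtS.G2

end

section

/-!
# Value row of the inner variable of an inner digit `3`, right ramp: analytic part

`v = r + τ i` is moved to `v' = c + t i`, `c < r`.  The difference of the values is
`FA x T + FB w S + FC`.  `FA x T` increases in `T`; `FB w S` increases in `w` for `w ≤ 1 - r` and is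
concave in `w` for `w ≥ 1 - r`.
-/

namespace Pool.Agent.Work.MP_b30479_gtS.G2

open VOL NumUs

namespace VN

/-- the part with the hinge `x + i T` on the side `S3` -/
noncomputable def FA (c r t τ x T : ℝ) : ℝ :=
  -(Real.pi * (x * (t - τ) + T * (c - r))) - uu (c - x) (t - T) + uu (r - x) (τ - T)

/-- the part with the hinge `w + i S` on the side `S2` -/
noncomputable def FB (c r t τ w S : ℝ) : ℝ :=
  Real.pi * (w * (t - τ) + S * (c - r)) + uu (c + w) (t + S) - uu (r + w) (τ + S)

/-- the remaining part -/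
noncomputable def FC (c r t τ : ℝ) : ℝ :=
  -(Real.pi * (c * t - r * τ)) + Real.pi / 2 * (t - τ) - uu c t + uu r τ

variable {c r t τ x T w S : ℝ}

theorem V3_diff {u v v' w : ℂ} (h1 : v.re = r) (h2 : v.im = τ) (h3 : v'.re = c)
    (h4 : v'.im = t) :
    V3 u v' w - V3 u v w = FA c r t τ u.re u.im + FB c r t τ w.re w.im + FC c r t τ := by
  have e1 : (2 * u * v' + (v' - w) ^ 2 - v' + w).im =
      2 * (u.re * t + u.im * c) + 2 * (c - w.re) * (t - w.im) - t + w.im := by
    simp only [pow_two, Complex.add_im, Complex.sub_im, Complex.sub_re, Complex.mul_im,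
      Complex.mul_re, Complex.re_ofNat, Complex.im_ofNat, h3, h4]
    ring
  have e2 : (2 * u * v + (v - w) ^ 2 - v + w).im =
      2 * (u.re * τ + u.im * r) + 2 * (r - w.re) * (τ - w.im) - τ + w.im := by
    simp only [pow_two, Complex.add_im, Complex.sub_im, Complex.sub_re, Complex.mul_im,
      Complex.mul_re, Complex.re_ofNat, Complex.im_ofNat, h1, h2]
    ring
  unfold V3 FA FB FC
  rw [e1, e2, UU_uu (v' + w), UU_uu (v' - u), UU_uu v', UU_uu (v + w), UU_uu (v - u), UU_uu v]
  simp only [Complex.add_re, Complex.add_im, Complex.sub_re, Complex.sub_im, h1, h2, h3, h4]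
  ring

/-- `FA` increases in `T` -/
theorem FA_mono {T0 : ℝ} (h : T0 ≤ T) (h1 : 0 < c - x) (h1' : c - x < 1) (h2 : 0 < r - x)
    (h2' : r - x < 1) (hd : ∀ y, T0 ≤ y → y ≤ T →
      0 ≤ Real.pi * (r - c) + YY ⟨c - x, t - y⟩ - YY ⟨r - x, τ - y⟩) :
    FA c r t τ x T0 ≤ FA c r t τ x T := by
  have hD : ∀ y : ℝ, HasDerivAt (fun y => FA c r t τ x y)
      (Real.pi * (r - c) + YY ⟨c - x, t - y⟩ - YY ⟨r - x, τ - y⟩) y := by
    intro y
    have a1 : HasDerivAt (fun y : ℝ => t - y) (-1) y := by
      simpa using (hasDerivAt_id y).const_sub t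
    have a2 : HasDerivAt (fun y : ℝ => τ - y) (-1) y := by
      simpa using (hasDerivAt_id y).const_sub τ
    have b0 : HasDerivAt (fun y : ℝ => Real.pi * (x * (t - τ) + y * (c - r)))
        (Real.pi * (c - r)) y := by
      simpa using (((hasDerivAt_id y).mul_const (c - r)).const_add (x * (t - τ))).const_mul
        Real.pi
    have b1 := VM.deriv_im h1 h1' a1
    have b2 := VM.deriv_im h2 h2' a2
    have := (b0.neg.sub b1).add b2
    refine this.congr_deriv ?_
    ring
  have hm : MonotoneOn (fun y => FA c r t τ x y) (Set.Icc T0 T) := by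
    apply monotoneOn_of_deriv_nonneg (convex_Icc _ _)
    · exact fun y _ => (hD y).continuousAt.continuousWithinAt
    · exact fun y _ => (hD y).differentiableAt.differentiableWithinAt
    · intro y hy
      rw [interior_Icc] at hy
      rw [(hD y).deriv]
      exact hd y hy.1.le hy.2.le
  exact hm (Set.left_mem_Icc.2 h) (Set.right_mem_Icc.2 h) h

theorem FB_cont : Continuous fun w => FB c r t τ w S := by
  unfold FB
  have c1 := VM.cont_uu (f := fun w : ℝ => c + w) (g := fun _ => t + S) (by fun_prop)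
    (by fun_prop)
  have c2 := VM.cont_uu (f := fun w : ℝ => r + w) (g := fun _ => τ + S) (by fun_prop)
    (by fun_prop)
  exact (((by fun_prop : Continuous fun w : ℝ =>
    Real.pi * (w * (t - τ) + S * (c - r))).add c1).sub c2)

theorem FB_lin (w : ℝ) : HasDerivAt (fun w : ℝ => Real.pi * (w * (t - τ) + S * (c - r)))
    (Real.pi * (t - τ)) w := by
  have := (((hasDerivAt_id w).mul_const (t - τ)).add_const (S * (c - r))).const_mul Real.pi
  refine this.congr_deriv ?_
  ring

theorem FB_left {w0 : ℝ} (h : w0 ≤ w) (hw : w ≤ 1 - r) (h0 : 0 < c + w0) (hc : c + w < 1)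
    (h2 : 0 < r + w0) (hd : ∀ y, w0 ≤ y → y < 1 - r →
      0 ≤ Real.pi * (t - τ) + LL ⟨c + y, t + S⟩ - LL ⟨r + y, τ + S⟩) :
    FB c r t τ w0 S ≤ FB c r t τ w S := by
  have hD : ∀ y : ℝ, w0 < y → y < w → HasDerivAt (fun y => FB c r t τ y S)
      (Real.pi * (t - τ) + LL ⟨c + y, t + S⟩ - LL ⟨r + y, τ + S⟩) y := by
    intro y hy hy'
    have a1 : HasDerivAt (fun y : ℝ => c + y) 1 y := by
      simpa using (hasDerivAt_id y).const_add c
    have a2 : HasDerivAt (fun y : ℝ => r + y) 1 y := by
      simpa using (hasDerivAt_id y).const_add r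
    have b1 := VM.deriv_re (y := t + S) a1 (by linarith only [h0, hy]) (by linarith only [hc, hy'])
    have b2 := VM.deriv_re (y := τ + S) a2 (by linarith only [h2, hy]) (by linarith only [hw, hy'])
    have := ((FB_lin (c := c) (r := r) (t := t) (τ := τ) (S := S) y).add b1).sub b2
    refine this.congr_deriv ?_
    ring
  have hm : MonotoneOn (fun y => FB c r t τ y S) (Set.Icc w0 w) := by
    apply monotoneOn_of_deriv_nonneg (convex_Icc _ _)
    · exact FB_cont.continuousOn
    · intro y hy
      rw [interior_Icc] at hy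
      exact (hD y hy.1 hy.2).differentiableAt.differentiableWithinAt
    · intro y hy
      rw [interior_Icc] at hy
      rw [(hD y hy.1 hy.2).deriv]
      exact hd y hy.1.le (hy.2.trans_le hw)
  exact hm (Set.left_mem_Icc.2 h) (Set.right_mem_Icc.2 h) h

theorem FB_right {w1 : ℝ} (hw : 1 - r ≤ w) (h : w ≤ w1) (hc : 1 / 2 ≤ c + (1 - r))
    (hc' : c + w1 < 1) (h2 : r + w1 - 1 ≤ 1 / 2) :
    min (FB c r t τ (1 - r) S) (FB c r t τ w1 S) ≤ FB c r t τ w S := by
  have hD : ∀ y ∈ Set.Ioo (1 - r) w1, HasDerivAt (fun y => FB c r t τ y S)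
      (Real.pi * (t - τ) + LL ⟨c + y, t + S⟩ - LL ⟨r + y - 1, τ + S⟩) y := by
    intro y hy
    have a1 : HasDerivAt (fun y : ℝ => c + y) 1 y := by
      simpa using (hasDerivAt_id y).const_add c
    have a2 : HasDerivAt (fun y : ℝ => r + y - 1) 1 y := by
      simpa using ((hasDerivAt_id y).const_add r).sub_const 1
    have b1 := VM.deriv_re (y := t + S) a1 (by linarith only [hw, h, hc, hc', hy, hy.1]) (by linarith only [hc', hy, hy.2])
    have b2 := VM.deriv_re (y := τ + S) a2 (by linarith only [hy, hy.1]) (by linarith only [hw, h, hc, hc', hy, hy.2])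
    have b3 := (((FB_lin (c := c) (r := r) (t := t) (τ := τ) (S := S) y).add b1).sub b2).sub_const
      (Real.pi * |τ + S|)
    have e : (fun y => FB c r t τ y S) = fun y => Real.pi * (y * (t - τ) + S * (c - r)) +
        uu (c + y) (t + S) - uu (r + y - 1) (τ + S) - Real.pi * |τ + S| := by
      funext y
      have := uu_add_one (r + y - 1) (τ + S)
      rw [sub_add_cancel] at this
      unfold FB
      rw [this]
      ring
    rw [e]
    refine b3.congr_deriv ?_
    ring
  have hcv : ConcaveOn ℝ (Set.Icc (1 - r) w1) fun y => FB c r t τ y S := by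
    apply AntitoneOn.concaveOn_of_deriv (convex_Icc _ _)
    · exact FB_cont.continuousOn
    · rw [interior_Icc]
      exact fun y hy => (hD y hy).differentiableAt.differentiableWithinAt
    · rw [interior_Icc]
      intro y hy z hz hyz
      rw [(hD y hy).deriv, (hD z hz).deriv]
      have a1 := VM.LL_anti (p := c + y) (q := c + z) (y := t + S) (by linarith only [hc, hy, hy.1])
        (by linarith only [hyz]) (by linarith only [hc', hz, hz.2])
      have a2 := VM.LL_mono (p := r + y - 1) (q := r + z - 1) (y := τ + S)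
        (by linarith only [hy, hy.1]) (by linarith only [hyz]) (by linarith only [hc, hc', hz, hz.2])
      linarith only [a1, a2]
  exact hcv.min_le_of_mem_Icc (Set.left_mem_Icc.2 (hw.trans h)) (Set.right_mem_Icc.2 (hw.trans h))
    ⟨hw, h⟩

/-- the minimum of `FB` is at the ends -/
theorem FB_min {w0 w1 : ℝ} (h : w0 ≤ w) (h' : w ≤ w1) (hr : w0 ≤ 1 - r) (h0 : 0 < c + w0)
    (hcr : 1 / 2 ≤ c + (1 - r)) (hc' : c + w1 < 1) (h1 : 0 < r + w0) (h2 : r + w1 - 1 ≤ 1 / 2)
    (hd : ∀ y, w0 ≤ y → y < 1 - r →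
      0 ≤ Real.pi * (t - τ) + LL ⟨c + y, t + S⟩ - LL ⟨r + y, τ + S⟩) :
    min (FB c r t τ w0 S) (FB c r t τ w1 S) ≤ FB c r t τ w S := by
  rcases le_total w (1 - r) with hw | hw
  · exact (min_le_left _ _).trans (FB_left h hw h0 (by linarith only [h', hc']) h1 hd)
  · have a1 := FB_right (c := c) (t := t) (τ := τ) (S := S) hw h' hcr hc' h2
    have a2 := FB_left (c := c) (t := t) (τ := τ) (S := S) hr le_rfl h0 (by linarith only [h', hc', hw]) h1 hd
    exact (min_le_min_right _ a2).trans a1

/-- the condition on `LL` -/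
theorem LL_cond {p q y z d : ℝ} (hp : 0 < p) (hp' : p < 1) (hq : 0 < q) (hq' : q < 1)
    (h : Real.cosh (2 * Real.pi * z) - Real.cos (2 * Real.pi * q) ≤
      Real.exp (2 * Real.pi * d) * (Real.cosh (2 * Real.pi * y) - Real.cos (2 * Real.pi * p))) :
    0 ≤ Real.pi * d + LL ⟨p, y⟩ - LL ⟨q, z⟩ := by
  rw [LL_eq', LL_eq']
  simp only
  have a1 := VM.LL_arg_pos y hp hp'
  have a2 := VM.LL_arg_pos z hq hq'
  have a3 : Real.log (2 * Real.cosh (2 * Real.pi * z) - 2 * Real.cos (2 * Real.pi * q)) ≤
      Real.log (Real.exp (2 * Real.pi * d) *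
        (2 * Real.cosh (2 * Real.pi * y) - 2 * Real.cos (2 * Real.pi * p))) := by
    apply Real.log_le_log a2
    linarith only [h]
  rw [Real.log_mul (Real.exp_pos _).ne' a1.ne', Real.log_exp] at a3
  linarith only [a3]

end VN

end Pool.Agent.Work.MP_b30479_gtS.G2

end

section

/-!
# The inner variable of an inner digit `3` on its right ramp: first order rows `11`, `E1`
-/

set_option linter.unusedSimpArgs false

namespace Pool.Agent.Work.MP_b30479_gtS.G2

open VOL NumUs

namespace VN

section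
open NumUs.E

/-- the slope -/
def esl (t : E) : E := mul (q (-20) 1) t

/-- the real part -/
def er (s : E) : E := sub (q 8 10) s

/-- the height -/
def et (t s : E) : E := mul (q 20 1) (mul t s)

/-- bound minus the part with `u = x + i T` -/
def eGA (b x T t s : E) : E :=
  sub b (add (sub (neg (mul E.pi T)) (lnA (sub (er s) x) (sub (et t s) T)))
    (mul (esl t) (add (neg (mul E.pi x)) (lnB (sub (er s) x) (sub (et t s) T)))))

/-- bound minus the part with `w = x + i S`; `p`: real part of `v + w` mod `1` -/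
def eGB (b p x S t s c : E) : E :=
  sub b (add (add (mul E.pi S) (lnA p (add (et t s) S)))
    (mul (esl t) (sub (sub (mul E.pi x) (mul E.pi c)) (lnB p (add (et t s) S)))))

/-- bound minus the remaining part -/
def eGC (b t s : E) : E :=
  sub b (add (sub (neg (mul E.pi (et t s))) (lnA (er s) (et t s)))
    (mul (esl t) (add (mul E.pi (sub (q 1 2) (er s))) (lnB (er s) (et t s)))))

end

variable {xs : List ℝ} {t r : ℝ}

theorem er_val {s : E} (hs : s.val xs = 8 / 10 - r) : (er s).val xs = r := by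
  simp only [er, E.val, hs]
  push_cast
  ring

theorem et_val {te s : E} (ht : te.val xs = t) (hs : s.val xs = 8 / 10 - r) :
    (et te s).val xs = 20 * t * (8 / 10 - r) := by
  simp only [et, E.val, hs, ht]
  push_cast
  ring

theorem esl_val {te : E} (ht : te.val xs = t) : (esl te).val xs = -(20 * t) := by
  simp only [esl, E.val, ht]
  push_cast
  ring

theorem eGA_val {b x T te s : E} (ht : te.val xs = t) (hs : s.val xs = 8 / 10 - r) :
    (eGA b x T te s).val xs = b.val xs - (-(Real.pi * T.val xs) -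
      NumIs.lnA (r - x.val xs) (20 * t * (8 / 10 - r) - T.val xs) +
      -(20 * t) * (-(Real.pi * x.val xs) +
        NumIs.lnB (r - x.val xs) (20 * t * (8 / 10 - r) - T.val xs))) := by
  simp only [eGA, E.val, er_val hs, et_val ht hs, esl_val ht]

theorem eGB_val {b p x S te s c : E} (ht : te.val xs = t) (hs : s.val xs = 8 / 10 - r) :
    (eGB b p x S te s c).val xs = b.val xs - (Real.pi * S.val xs +
      NumIs.lnA (p.val xs) (20 * t * (8 / 10 - r) + S.val xs) +
      -(20 * t) * (Real.pi * x.val xs - Real.pi * c.val xs -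
        NumIs.lnB (p.val xs) (20 * t * (8 / 10 - r) + S.val xs))) := by
  simp only [eGB, E.val, er_val hs, et_val ht hs, esl_val ht]

theorem eGC_val {b te s : E} (ht : te.val xs = t) (hs : s.val xs = 8 / 10 - r) :
    (eGC b te s).val xs = b.val xs - (-(Real.pi * (20 * t * (8 / 10 - r))) -
      NumIs.lnA r (20 * t * (8 / 10 - r)) +
      -(20 * t) * (Real.pi * (1 / 2 - r) + NumIs.lnB r (20 * t * (8 / 10 - r)))) := by
  simp only [eGC, E.val, er_val hs, et_val ht hs, esl_val ht]
  push_cast
  ring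

end VN

end Pool.Agent.Work.MP_b30479_gtS.G2

end

section

/-!
# Value row of the inner variable of an inner digit `3`, right ramp: expressions
-/

set_option linter.unusedSimpArgs false

namespace Pool.Agent.Work.MP_b30479_gtS.G2

open VOL NumUs

namespace VN

section
open NumUs.E

/-- the polynomial part -/
def eP (c x T w S t s : E) : E :=
  add (mul (add (sub w x) (q 1 2)) (sub t (et t s)))
    (add (mul (sub S T) (sub c (er s))) (sub (mul (er s) (et t s)) (mul c t)))

/-- the part without `w` -/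
def eQ (c x T t s : E) : E :=
  sub (add (sub (E.uu (sub (er s) x) (sub (et t s) T)) (E.uu (sub c x) (sub t T)))
    (E.uu (er s) (et t s))) (E.uu c t)

/-- the difference of the values, `r + w < 1` -/
def eD (c x T w S t s : E) : E :=
  sub (add (add (mul E.pi (eP c x T w S t s)) (eQ c x T t s)) (E.uu (add c w) (add t S)))
    (E.uu (add (er s) w) (add (et t s) S))

/-- the difference of the values, `1 < r + w` -/
def eD' (c x T w S t s : E) (σ : ℤ) : E :=
  sub (sub (add (add (mul E.pi (eP c x T w S t s)) (eQ c x T t s)) (E.uu (add c w) (add t S)))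
    (E.uu (sub (add (er s) w) (q 1 1)) (add (et t s) S))) (mul (q σ 1) (mul E.pi (add (et t s) S)))

/-- the derivative of `FA` in the height -/
def eI (c x y t s : E) : E :=
  add (sub (mul E.pi (sub (er s) c)) (lnB (sub c x) (sub t y))) (lnB (sub (er s) x) (sub (et t s) y))

/-- the condition on `LL` -/
def eJ (c w S t s : E) : E :=
  add (sub (mul (exp (mul (mul (q 2 1) E.pi) (sub t (et t s))))
    (sub (cosh (mul (mul (q 2 1) E.pi) (add t S))) (cosPi (mul (q 2 1) (add c w)))))
    (cosh (mul (mul (q 2 1) E.pi) (add (et t s) S)))) (cosPi (mul (q 2 1) (add (er s) w)))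

end

variable {xs : List ℝ} {t r : ℝ}

theorem eD_val {c x T w S te s : E} (ht : te.val xs = t) (hs : s.val xs = 8 / 10 - r) :
    (eD c x T w S te s).val xs =
      FA (c.val xs) r t (20 * t * (8 / 10 - r)) (x.val xs) (T.val xs) +
      FB (c.val xs) r t (20 * t * (8 / 10 - r)) (w.val xs) (S.val xs) +
      FC (c.val xs) r t (20 * t * (8 / 10 - r)) := by
  simp only [eD, eP, eQ, E.val, er_val hs, et_val ht hs, ht, FA, FB, FC]
  push_cast
  ring

theorem eD'_val {c x T w S te s : E} (σ : ℤ) (ht : te.val xs = t) (hs : s.val xs = 8 / 10 - r) :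
    (eD' c x T w S te s σ).val xs =
      FA (c.val xs) r t (20 * t * (8 / 10 - r)) (x.val xs) (T.val xs) +
      FB (c.val xs) r t (20 * t * (8 / 10 - r)) (w.val xs) (S.val xs) +
      FC (c.val xs) r t (20 * t * (8 / 10 - r)) +
      Real.pi * (|20 * t * (8 / 10 - r) + S.val xs| - σ * (20 * t * (8 / 10 - r) + S.val xs)) := by
  have h := uu_add_one (r + w.val xs - 1) (20 * t * (8 / 10 - r) + S.val xs)
  rw [sub_add_cancel] at h
  simp only [eD', eP, eQ, E.val, er_val hs, et_val ht hs, ht, FA, FB, FC, h]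
  push_cast
  rw [show r + w.val xs - 1 / 1 = r + w.val xs - 1 by ring]
  ring

theorem eI_val {c x y te s : E} (ht : te.val xs = t) (hs : s.val xs = 8 / 10 - r) :
    (eI c x y te s).val xs = Real.pi * (r - c.val xs) -
      NumIs.lnB (c.val xs - x.val xs) (t - y.val xs) +
      NumIs.lnB (r - x.val xs) (20 * t * (8 / 10 - r) - y.val xs) := by
  simp only [eI, E.val, er_val hs, et_val ht hs, ht]

theorem eJ_val {c w S te s : E} (ht : te.val xs = t) (hs : s.val xs = 8 / 10 - r) :
    (eJ c w S te s).val xs = Real.exp (2 * Real.pi * (t - 20 * t * (8 / 10 - r))) *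
      (Real.cosh (2 * Real.pi * (t + S.val xs)) - Real.cos (2 * Real.pi * (c.val xs + w.val xs))) -
      (Real.cosh (2 * Real.pi * (20 * t * (8 / 10 - r) + S.val xs)) -
        Real.cos (2 * Real.pi * (r + w.val xs))) := by
  simp only [eJ, E.val, er_val hs, et_val ht hs, ht]
  push_cast
  rw [show Real.pi * (2 / 1 * (c.val xs + w.val xs)) = 2 * Real.pi * (c.val xs + w.val xs) by ring,
    show Real.pi * (2 / 1 * (r + w.val xs)) = 2 * Real.pi * (r + w.val xs) by ring,
    show (2 : ℝ) / 1 * Real.pi = 2 * Real.pi by ring]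
  ring

/-- reduction to `T = T0` and `w = w0`, `w = w1` -/
theorem core {c x T w S T0 w0 w1 τ : ℝ} (x1 : 0 < c - x) (x1' : c - x < 1) (x2 : 0 < r - x)
    (x2' : r - x < 1) (hT : T0 ≤ T)
    (hI : ∀ y, T0 ≤ y → y ≤ T →
      0 < Real.pi * (r - c) - NumIs.lnB (c - x) (t - y) + NumIs.lnB (r - x) (τ - y))
    (hw : w0 ≤ w) (hw' : w ≤ w1) (hr : w0 ≤ 1 - r) (hr1 : r < 1) (h0 : 0 < c + w0)
    (hcr : 1 / 2 ≤ c + (1 - r)) (hcr' : c < r) (hc' : c + w1 < 1) (h1 : 0 < r + w0)
    (h2 : r + w1 - 1 ≤ 1 / 2)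
    (hJ : ∀ y, w0 ≤ y → y < 1 - r → 0 < Real.exp (2 * Real.pi * (t - τ)) *
      (Real.cosh (2 * Real.pi * (t + S)) - Real.cos (2 * Real.pi * (c + y))) -
      (Real.cosh (2 * Real.pi * (τ + S)) - Real.cos (2 * Real.pi * (r + y))))
    (k0 : 0 < FA c r t τ x T0 + FB c r t τ w0 S + FC c r t τ)
    (k1 : 0 < FA c r t τ x T0 + FB c r t τ w1 S + FC c r t τ) :
    0 < FA c r t τ x T + FB c r t τ w S + FC c r t τ := by
  have a1 : FA c r t τ x T0 ≤ FA c r t τ x T := by
    apply FA_mono hT x1 x1' x2 x2'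
    intro y hy hy'
    have e1 : YY ⟨c - x, t - y⟩ = -NumIs.lnB (c - x) (t - y) := Num.YY_lnB ⟨x1, x1'⟩
    have e2 : YY ⟨r - x, τ - y⟩ = -NumIs.lnB (r - x) (τ - y) := Num.YY_lnB ⟨x2, x2'⟩
    rw [e1, e2]
    have := hI y hy hy'
    linarith only [this]
  have a2 : min (FB c r t τ w0 S) (FB c r t τ w1 S) ≤ FB c r t τ w S := by
    apply FB_min hw hw' hr h0 hcr hc' h1 h2
    intro y hy hy'
    apply LL_cond (by linarith only [h0, hy]) (by linarith only [hcr', hy']) (by linarith only [h0, hcr', hy]) (by linarith only [hy'])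
    have := hJ y hy hy'
    linarith only [this]
  rcases min_le_iff.1 a2 with h | h <;> linarith only [k0, a1, h, k1]

end VN

end Pool.Agent.Work.MP_b30479_gtS.G2

end

section

/-!
# The inner variable of an inner digit `3` next to a digit `1`, right ramp: expressions

The hinge `1 | 3` is `u = x + h i`, `42/100 ≤ x`.  If `Re (v + w) ≤ 96/100` or `Im (v + w) < 0`, the
side along the slope `-20 t` is negative; otherwise `v` is moved to `66/100 + t i`.
-/

set_option linter.unusedSimpArgs false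

namespace Pool.Agent.Work.MP_b30479_gtS.G2

open VOL NumUs

namespace VN

section
open NumUs.E

/-- bridge of the values -/
def rg (t s : E) : E :=
  add (q (-45) 10000) (add (mul (q 10766 10000) t) (add (mul (q 1754 10000) s)
    (mul (q (-295153) 10000) (mul t s))))

/-- bridge of the sides -/
def rh (t : E) : E := sub (q 2150 10000) (mul (q 33 1) t)

/-- `FA + FC + bridge` -/
def rA (c x T t s : E) : E :=
  add (add (mul E.pi (eP c x T (q 0 1) (q 0 1) t s)) (eQ c x T t s)) (rg t s)

/-- `FB - bridge`, `r + w < 1` -/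
def rB (c w S t s : E) : E :=
  sub (sub (add (mul E.pi (add (mul w (sub t (et t s))) (mul S (sub c (er s)))))
    (E.uu (add c w) (add t S))) (E.uu (add (er s) w) (add (et t s) S))) (rg t s)

/-- `FB - bridge`, `1 < r + w` -/
def rB' (c w S t s : E) (σ : ℤ) : E :=
  sub (sub (sub (add (mul E.pi (add (mul w (sub t (et t s))) (mul S (sub c (er s)))))
    (E.uu (add c w) (add t S))) (E.uu (sub (add (er s) w) (q 1 1)) (add (et t s) S)))
      (mul (q σ 1) (mul E.pi (add (et t s) S)))) (rg t s)

/-- `-(GA + GC + bridge)` -/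
def rAC (x T t s : E) : E :=
  add (eGA (neg (rh t)) x T t s) (eGC (q 0 1) t s)

/-- bridge minus a bound of `GB` at height `y` -/
def rGB (p pw y t : E) : E :=
  sub (rh t) (add (add (mul E.pi (sub y t)) (lnA p y))
    (mul (esl t) (sub (mul E.pi (sub pw (q 3 4))) (lnB p y))))

/-- height of the hinge on the ramp -/
def rhx (x T : E) : E := neg (mul T (mul (q 20 3) (sub (q 65 100) x)))

end

/-- bridge of the values -/
noncomputable def vg (t s : ℝ) : ℝ :=
  -45 / 10000 + (10766 / 10000 * t + (1754 / 10000 * s + -295153 / 10000 * (t * s)))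

/-- bridge of the sides -/
noncomputable def vh (t : ℝ) : ℝ := 2150 / 10000 - 33 * t

variable {xs : List ℝ} {t r : ℝ}

theorem rg_val {te s : E} (ht : te.val xs = t) (hs : s.val xs = 8 / 10 - r) :
    (rg te s).val xs = vg t (8 / 10 - r) := by
  simp only [rg, E.val, ht, hs, vg]
  push_cast
  ring

theorem rh_val {te : E} (ht : te.val xs = t) : (rh te).val xs = vh t := by
  simp only [rh, E.val, ht, vh]
  push_cast
  ring

theorem rA_val {c x T te s : E} (ht : te.val xs = t) (hs : s.val xs = 8 / 10 - r) :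
    (rA c x T te s).val xs =
      FA (c.val xs) r t (20 * t * (8 / 10 - r)) (x.val xs) (T.val xs) +
      FC (c.val xs) r t (20 * t * (8 / 10 - r)) + vg t (8 / 10 - r) := by
  simp only [rA, eP, eQ, E.val, er_val hs, et_val ht hs, rg_val ht hs, ht, FA, FC]
  push_cast
  ring

theorem rB_val {c w S te s : E} (ht : te.val xs = t) (hs : s.val xs = 8 / 10 - r) :
    (rB c w S te s).val xs =
      FB (c.val xs) r t (20 * t * (8 / 10 - r)) (w.val xs) (S.val xs) - vg t (8 / 10 - r) := by
  simp only [rB, E.val, er_val hs, et_val ht hs, rg_val ht hs, ht, FB]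

theorem rB'_val {c w S te s : E} (σ : ℤ) (ht : te.val xs = t) (hs : s.val xs = 8 / 10 - r) :
    (rB' c w S te s σ).val xs =
      FB (c.val xs) r t (20 * t * (8 / 10 - r)) (w.val xs) (S.val xs) - vg t (8 / 10 - r) +
      Real.pi * (|20 * t * (8 / 10 - r) + S.val xs| - σ * (20 * t * (8 / 10 - r) + S.val xs)) := by
  have h := uu_add_one (r + w.val xs - 1) (20 * t * (8 / 10 - r) + S.val xs)
  rw [sub_add_cancel] at h
  simp only [rB', E.val, er_val hs, et_val ht hs, rg_val ht hs, ht, FB, h]
  push_cast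
  rw [show r + w.val xs - 1 / 1 = r + w.val xs - 1 by ring]
  ring

theorem rAC_val {x T te s : E} (ht : te.val xs = t) (hs : s.val xs = 8 / 10 - r) :
    (rAC x T te s).val xs = -(vh t) - (-(Real.pi * T.val xs) -
      NumIs.lnA (r - x.val xs) (20 * t * (8 / 10 - r) - T.val xs) +
      -(20 * t) * (-(Real.pi * x.val xs) +
        NumIs.lnB (r - x.val xs) (20 * t * (8 / 10 - r) - T.val xs))) -
      (-(Real.pi * (20 * t * (8 / 10 - r))) -
      NumIs.lnA r (20 * t * (8 / 10 - r)) +
      -(20 * t) * (Real.pi * (1 / 2 - r) + NumIs.lnB r (20 * t * (8 / 10 - r)))) := by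
  simp only [rAC, E.val, eGA_val ht hs, eGC_val ht hs, rh_val ht]
  push_cast
  ring

theorem rGB_val {p pw y te : E} (ht : te.val xs = t) :
    (rGB p pw y te).val xs = vh t - (Real.pi * (y.val xs - t) +
      NumIs.lnA (p.val xs) (y.val xs) + -(20 * t) * (Real.pi * (pw.val xs - 3 / 4) -
        NumIs.lnB (p.val xs) (y.val xs))) := by
  simp only [rGB, E.val, esl_val ht, rh_val ht, ht]
  push_cast
  ring

end VN

end Pool.Agent.Work.MP_b30479_gtS.G2

end
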