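import Pool.Agent.Work.MP_b30479_gt.TBS.G2.WValD
import Pool.Agent.Work.MP_b30479_gt.TBS.G2.MPFocD
import Pool.Agent.Work.MP_b30479_gt.TBS.G2.V3MidA
import Pool.Agent.Work.MP_b30479_gt.TBS.G2.V2Base
import Pool.Agent.Work.MP_b30479_gt.TBS.NumU.Tree

section

/-!
# Values of the regions in the own frame, and value steps
-/

namespace Pool.Agent.Work.MP_b30479_gtS.G2

open Finset VOL Filter Topology

/-- growth rate of a digit `1` with hinges `x`, `k` -/
noncomputable def V1 (x k : ℂ) : ℝ := Real.pi * (x * k - x - k).im + UU (x + k) - UU x - UU k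

/-- growth rate of a ring -/
noncomputable def VR (n : ℝ) (w w' ζ : ℂ) : ℝ :=
  (Real.pi * Complex.I * n * ζ ^ 2 + 2 * Real.pi * Complex.I * ζ).re +
    (UU (w + 1 / 2 + ζ) + UU (w + 1 / 2 - ζ) - 2 * UU w) +
    (UU (w' + 1 / 2 + ζ) + UU (w' + 1 / 2 - ζ) - 2 * UU w')

theorem UU_zero : UU 0 = 0 := by
  have h := UU_neg 0
  simp at h
  linarith

theorem V1_comm (x k : ℂ) : V1 x k = V1 k x := by
  unfold V1
  rw [show x * k - x - k = k * x - k - x by ring, add_comm x k]
  ring

theorem V2_comm (x k : ℂ) : V2 x k = V2 k x := by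
  unfold V2
  rw [show (x - k) ^ 2 + x + k = (k - x) ^ 2 + k + x by ring, add_comm x k]
  ring

theorem VR_comm (n : ℝ) (w w' ζ : ℂ) : VR n w w' ζ = VR n w' w ζ := by
  unfold VR
  ring

theorem UU_half (ζ : ℂ) : UU (0 + 1 / 2 + ζ) + UU (0 + 1 / 2 - ζ) - 2 * UU 0 = 0 := by
  have h := UU_one_sub (0 + 1 / 2 + ζ)
  rw [show (1 : ℂ) - (0 + 1 / 2 + ζ) = 0 + 1 / 2 - ζ by ring] at h
  rw [h, UU_zero]
  ring

theorem own_update_zero (b : ℤ) (t : Typ) (x : Fin 3 → ℂ) (c : ℂ) :
    own b t (Function.update x 0 c) = Function.update (own b t x) 0 (ofr b c) := by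
  unfold own ofr
  split_ifs
  · rfl
  · funext p
    fin_cases p <;> simp [cj]

theorem own_update_two (b : ℤ) (t : Typ) (x : Fin 3 → ℂ) (c : ℂ) :
    own b t (Function.update x 2 c) = Function.update (own b t x) 2 (ofr b c) := by
  unfold own ofr
  split_ifs
  · rfl
  · funext p
    fin_cases p <;> simp [cj]

namespace SR

variable {M : ℕ} {b : Fin (M + 1) → ℤ} {zs : DD (tyW b) ⊕ ZZ (tyW b) → ℂ}
variable {y : DD (tyW b) ⊕ ZZ (tyW b) → ℝ}
variable {h h' : Fin M} {i j j' : Fin (M + 1)} {p : Fin 3}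

/-- local variables in the own frame vanish at the missing hinges -/
def EndOk (i : Fin (M + 1)) (X : Fin 3 → ℂ) : Prop :=
  (i = 0 → X 0 = 0) ∧ (i = Fin.last M → X 2 = 0)

/-- local variables of a point in the own frame of the region `i` -/
noncomputable def Ow (b : Fin (M + 1) → ℤ) (z : DD (tyW b) ⊕ ZZ (tyW b) → ℂ) (i : Fin (M + 1)) :
    Fin 3 → ℂ := own (b i) (tyW b i) (xx (tyW b) i z)

theorem Ow_endOk (z : DD (tyW b) ⊕ ZZ (tyW b) → ℂ) (i : Fin (M + 1)) : EndOk i (Ow b z i) := by
  constructor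
  · rintro rfl
    unfold Ow
    rw [own_zero, xx_left_zero, ofr_zero]
  · rintro rfl
    unfold Ow
    rw [own_two, xx_right_last, ofr_zero]

theorem V_eq_OV (hb : ClassW b) (z : DD (tyW b) ⊕ ZZ (tyW b) → ℂ) :
    (wdat (tyW b) b).V z = ∑ i, OV b i (Ow b z i) := by
  rw [wdat_V_rV]
  exact sum_congr rfl fun i _ => rV_own hb i _

theorem OV_one (hb : ClassW b) (hc : clsW b i = .one) (X : Fin 3 → ℂ) :
    OV b i X = V1 (X 0) (X 2) := by
  have h0 := hb.ne i
  have ht := tyW_of_one hc
  have he := one_inner hb ht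
  unfold OV V1
  rw [ht]
  have e0 : decide (i ≠ 0) = true := by simpa using he.1
  have e2 : decide (i ≠ Fin.last M) = true := by simpa using he.2
  rw [e0, e2, V_one]
  unfold sgb
  rw [if_pos (by omega)]
  ring

theorem OV_two (hb : ClassW b) (hc : clsW b i = .two ∨ clsW b i = .twoE) {X : Fin 3 → ℂ}
    (hX : EndOk i X) : OV b i X = V2 (X 0) (X 2) := by
  have h0 := hb.ne i
  have ht := tyW_of_two hc
  unfold OV V2
  rw [ht, V_two]
  have hs : sgb ((b i).natAbs : ℤ) = 1 := by
    unfold sgb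
    rw [if_pos (by omega)]
  rw [hs]
  by_cases h1 : i = 0
  · have hx := hX.1 h1
    by_cases h2 : i = Fin.last M
    · have hx' := hX.2 h2
      simp only [h1, ne_eq, not_true_eq_false, decide_false, Bool.false_eq_true, false_or,
        if_false, hx, hx', h2 ▸ h1, UU_zero]
      simp [UU_zero]
    · simp only [h1, ne_eq, not_true_eq_false, decide_false, Bool.false_eq_true, false_or,
        if_false, hx, UU_zero]
      rw [h1] at h2
      simp only [h2, not_false_eq_true, decide_true, if_true]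
      ring
  · by_cases h2 : i = Fin.last M
    · have hx' := hX.2 h2
      simp only [h2, ne_eq, not_true_eq_false, decide_false, Bool.false_eq_true,
        if_false, hx', UU_zero]
      rw [h2] at h1
      simp only [h1, not_false_eq_true, decide_true, if_true, true_or]
      ring
    · simp only [h1, h2, ne_eq, not_false_eq_true, decide_true, if_true, true_or]
      ring

theorem OV_three (hb : ClassW b) (hc : clsW b i = .three) (X : Fin 3 → ℂ) :
    OV b i X = V3 (X 0) (X 1) (X 2) := by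
  have h3 := clsW_nat3 (Or.inl hc)
  have he := clsW_inner hb (Or.inr (Or.inr hc))
  have ht := tyW_of_three hc
  unfold isEnd at he
  have he' := of_decide_eq_false he
  rw [not_or] at he'
  unfold OV V3
  have e0 : decide (i ≠ 0) = true := by simpa using he'.1
  have e2 : decide (i ≠ Fin.last M) = true := by simpa using he'.2
  rw [ht, e0, e2, V_threeL, h3]
  simp only [sgb]
  norm_num
  ring

theorem Adj.OV_threeE (A : Adj h i p j) (hc : clsW b i = .threeE) {X : Fin 3 → ℂ}
    (hX : EndOk i X) : OV b i X = V3 (X p) (X 1) 0 := by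
  have h3 := clsW_nat3 (Or.inr hc)
  have he := clsW_end (Or.inr hc)
  cases A
  · have h0 : h.castSucc = 0 := by
      unfold isEnd at he
      rcases of_decide_eq_true he with h1 | h1
      · exact h1
      · exact absurd h1 (Fin.castSucc_lt_last h).ne
    have ht : tyW b h.castSucc = .threeR := by
      unfold tyW
      rw [if_neg (by omega), if_neg (by omega), if_pos h3, if_pos h0]
    have hx := hX.1 h0
    unfold OV V3
    rw [ht, V_threeR, h3, hx, decide_castSucc, h0]
    simp only [sgb, ne_eq, not_true_eq_false, decide_false, Bool.false_eq_true, if_false, if_true]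
    rw [UU_zero, zero_add]
    norm_num
    ring
  · have h0 : h.succ = Fin.last M := by
      unfold isEnd at he
      rcases of_decide_eq_true he with h1 | h1
      · exact absurd h1 (Fin.succ_ne_zero h)
      · exact h1
    have ht : tyW b h.succ = .threeL := by
      unfold tyW
      rw [if_neg (by omega), if_neg (by omega), if_pos h3, if_neg (Fin.succ_ne_zero h)]
    have hx := hX.2 h0
    unfold OV V3
    rw [ht, V_threeL, h3, hx, decide_succ, h0]
    simp only [sgb, ne_eq, not_true_eq_false, decide_false, Bool.false_eq_true, if_false, if_true]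
    rw [UU_zero]
    norm_num
    ring

theorem OV_ring (hb : ClassW b) (hc : clsW b i = .ring) {X : Fin 3 → ℂ} (hX : EndOk i X) :
    OV b i X = VR ((b i).natAbs : ℝ) (X 0) (X 2) (X 1) := by
  have ht := tyW_of_ring hb hc
  unfold OV VR
  rw [ht, V_ring]
  have hh := UU_half (X 1)
  have hn : ((((b i).natAbs : ℕ) : ℤ) : ℂ) = ((((b i).natAbs : ℕ) : ℝ) : ℂ) := by
    rw [Int.cast_natCast, Complex.ofReal_natCast]
  rw [hn]
  by_cases h1 : i = 0
  · rw [hX.1 h1, hh]
    by_cases h2 : i = Fin.last M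
    · rw [hX.2 h2, hh]
      simp [h1]
    · rw [h1] at h2 ⊢
      simp only [ne_eq, not_true_eq_false, decide_false, Bool.false_eq_true, if_false, h2,
        not_false_eq_true, decide_true, if_true]
  · by_cases h2 : i = Fin.last M
    · rw [hX.2 h2, hh]
      rw [h2] at h1 ⊢
      simp only [ne_eq, not_true_eq_false, decide_false, Bool.false_eq_true, if_false, h1,
        not_false_eq_true, decide_true, if_true]
    · simp only [ne_eq, h1, h2, not_false_eq_true, decide_true, if_true]

/-! ### moves -/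

theorem xx_congr' {t : Fin (M + 1) → Typ} {z z' : DD t ⊕ ZZ t → ℂ} (i : Fin (M + 1))
    (hz : ∀ j, z j ≠ z' j → ∀ p, cf t i p j = 0) : xx t i z = xx t i z' := by
  funext p
  unfold xx
  refine sum_congr rfl fun j _ => ?_
  by_cases h : z j = z' j
  · rw [h]
  · rw [hz j h p]
    simp

/-- change of the growth rate if only the regions of `S` are touched -/
theorem V_move (hb : ClassW b) (S : Finset (Fin (M + 1))) {z z' : DD (tyW b) ⊕ ZZ (tyW b) → ℂ}
    (hz : ∀ i, i ∉ S → ∀ j, z j ≠ z' j → ∀ p, cf (tyW b) i p j = 0) :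
    (wdat (tyW b) b).V z' - (wdat (tyW b) b).V z =
      ∑ i ∈ S, (OV b i (Ow b z' i) - OV b i (Ow b z i)) := by
  rw [V_eq_OV hb, V_eq_OV hb, ← sum_sub_distrib, ← sum_subset (subset_univ S)]
  intro i _ hi
  unfold Ow
  rw [xx_congr' i (hz i hi), sub_self]

/-- **Value step**: at a maximiser no move on the paths increases the values of the touched
regions. -/
theorem val_step (hb : ClassW b) (hy : IsMx (wdat (tyW b) b) (wpar b zs) zs y)
    (S : Finset (Fin (M + 1))) {y' : DD (tyW b) ⊕ ZZ (tyW b) → ℝ}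
    (hy' : y' ∈ (wpar b zs).box (ZZ (tyW b)))
    (hz : ∀ i, i ∉ S → ∀ j, y j ≠ y' j → ∀ p, cf (tyW b) i p j = 0) :
    ∑ i ∈ S, (OV b i (OY b zs y' i) - OV b i (OY b zs y i)) ≤ 0 := by
  have h1 : (wdat (tyW b) b).V ((wpar b zs).pth zs y') ≤
    (wdat (tyW b) b).V ((wpar b zs).pth zs y) := hy.2 hy'
  have h2 := V_move hb S (z := (wpar b zs).pth zs y) (z' := (wpar b zs).pth zs y') (fun i hi j hj p =>
    hz i hi j (fun h => hj (by simp only [Par.pth_eq, h])) p)
  unfold OY Xw
  unfold Ow at h2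
  rw [← h2]
  linarith

end SR

end Pool.Agent.Work.MP_b30479_gtS.G2

end

section

/-!
# Tails: side of a digit `1`, real and two-variable parts
-/

set_option linter.unusedSimpArgs false

namespace Pool.Agent.Work.MP_b30479_gtS.G2

open VOL SR NumUs

namespace TL.K1b

/-- derivative of `UU` on the real line -/
theorem hasDeriv {s : ℝ} (h0 : 0 < s) (h1 : s < 1) :
    HasDerivAt (fun s : ℝ => UU ⟨s, 0⟩) (LL ⟨s, 0⟩) s := by
  have hp := Real.pi_pos
  have hpt : ∀ s : ℝ, ((0 : ℝ) : ℂ) * Complex.I + ((1 * s : ℝ) : ℂ) = ⟨s, 0⟩ := by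
    intro s
    apply Complex.ext <;> simp
  have h2 := hasDerivAt_UU_level (((0 : ℝ) : ℂ) * Complex.I) 1 s (by
    rw [hpt]
    intro hc
    rw [Complex.sin_eq_zero_iff] at hc
    obtain ⟨k, hk⟩ := hc
    have hk1 : (⟨s, 0⟩ : ℂ) = k := by
      have : (Real.pi : ℂ) ≠ 0 := by exact_mod_cast hp.ne'
      apply mul_left_cancel₀ this
      rw [hk]
      ring
    have hk2 := congrArg Complex.re hk1
    simp only [Complex.intCast_re] at hk2
    rw [hk2] at h0 h1
    have a3 : (0 : ℤ) < k := by exact_mod_cast h0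
    have a4 : k < (1 : ℤ) := by exact_mod_cast h1
    omega)
  simp only [hpt] at h2
  rwa [one_mul] at h2

theorem cont : Continuous (fun s : ℝ => UU ⟨s, 0⟩) := by
  have : (fun s : ℝ => UU ⟨s, 0⟩) = fun s : ℝ => UU (s : ℂ) := rfl
  rw [this]
  exact continuous_UU.comp Complex.continuous_ofReal

/-- `UU (x + w) - UU x` decreases in `x` -/
theorem anti {X x w : ℝ} (hX : 1 / 2 ≤ X) (hx : X ≤ x) (hw : 0 ≤ w) (hxw : x + w ≤ 1) :
    uu (x + w) 0 - uu x 0 ≤ uu (X + w) 0 - uu X 0 := by
  have hd : ∀ s ∈ Set.Ioo X x, HasDerivAt (fun s : ℝ => UU ⟨s + w, 0⟩ - UU ⟨s, 0⟩)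
      (LL ⟨s + w, 0⟩ - LL ⟨s, 0⟩) s := by
    intro s hs
    have h1 := hasDeriv (s := s) (by linarith [hs.1]) (by linarith [hs.2])
    have h2 := (hasDeriv (s := s + w) (by linarith [hs.1]) (by linarith [hs.2])).comp_add_const s w
    exact h2.sub h1
  have hanti : AntitoneOn (fun s : ℝ => UU ⟨s + w, 0⟩ - UU ⟨s, 0⟩) (Set.Icc X x) := by
    apply antitoneOn_of_deriv_nonpos (convex_Icc _ _)
    · apply Continuous.continuousOn
      exact (cont.comp (continuous_id.add continuous_const)).sub cont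
    · rw [interior_Icc]
      exact fun s hs => (hd s hs).differentiableAt.differentiableWithinAt
    · rw [interior_Icc]
      intro s hs
      rw [(hd s hs).deriv]
      have := VM.LL_anti (p := s) (q := s + w) (y := 0) (by linarith [hs.1]) (by linarith)
        (by linarith [hs.2])
      linarith
  exact hanti (Set.left_mem_Icc.2 hx) (Set.right_mem_Icc.2 hx) hx

theorem LL_real_nonpos {s : ℝ} (h0 : 0 ≤ s) (h1 : s ≤ 1 / 6) : LL ⟨s, 0⟩ ≤ 0 := by
  have hp := Real.pi_pos
  rcases h0.eq_or_lt with h0 | h0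
  · rw [← h0, LL_eq']
    simp
  rw [LL_eq']
  simp only [mul_zero, Real.cosh_zero]
  have h3 : Real.cos (Real.pi / 3) ≤ Real.cos (2 * Real.pi * s) := by
    apply Real.cos_le_cos_of_nonneg_of_le_pi <;> nlinarith
  rw [Real.cos_pi_div_three] at h3
  have h4 : Real.cos (2 * Real.pi * s) < 1 := by
    have := Real.cos_lt_cos_of_nonneg_of_le_pi (x := 0) (y := 2 * Real.pi * s) le_rfl
      (by nlinarith) (by positivity)
    rwa [Real.cos_zero] at this
  have h5 : Real.log (2 * 1 - 2 * Real.cos (2 * Real.pi * s)) ≤ 0 :=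
    Real.log_nonpos (by linarith) (by linarith)
  exact div_nonpos_of_nonpos_of_nonneg h5 (by norm_num)

/-- `UU` decreases on `[0, 1/6]` -/
theorem anti_l {a b : ℝ} (ha : 0 ≤ a) (hab : a ≤ b) (hb : b ≤ 1 / 6) : uu b 0 ≤ uu a 0 := by
  have hd : ∀ s ∈ Set.Ioo a b, HasDerivAt (fun s : ℝ => UU ⟨s, 0⟩) (LL ⟨s, 0⟩) s :=
    fun s hs => hasDeriv (by linarith [hs.1]) (by linarith [hs.2])
  have hanti : AntitoneOn (fun s : ℝ => UU ⟨s, 0⟩) (Set.Icc a b) := by
    apply antitoneOn_of_deriv_nonpos (convex_Icc _ _)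
    · exact cont.continuousOn
    · rw [interior_Icc]
      exact fun s hs => (hd s hs).differentiableAt.differentiableWithinAt
    · rw [interior_Icc]
      intro s hs
      rw [(hd s hs).deriv]
      exact LL_real_nonpos (by linarith [hs.1]) (by linarith [hs.2])
  exact hanti (Set.left_mem_Icc.2 hab) (Set.right_mem_Icc.2 hab) hab

/-- `UU` decreases on `[5/6, 1]` -/
theorem anti_r {a b : ℝ} (ha : 5 / 6 ≤ a) (hab : a ≤ b) (hb : b ≤ 1) : uu b 0 ≤ uu a 0 := by
  have h := anti_l (a := 1 - b) (b := 1 - a) (by linarith) (by linarith) (by linarith)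
  rw [uu_one_sub, uu_one_sub] at h
  linarith

/-- new value -/
noncomputable def rF (c c' t k : ℝ) : ℝ :=
  Real.pi * (c * k + t * c' - t - k) + uu (c + c') (t + k) - uu c t - uu c' k

theorem V1_rF (c c' t k : ℝ) : V1 ⟨c, t⟩ ⟨c', k⟩ = rF c c' t k := by
  unfold V1 rF
  have e : ((⟨c, t⟩ : ℂ) * ⟨c', k⟩ - ⟨c, t⟩ - ⟨c', k⟩).im = c * k + t * c' - t - k := by
    simp only [Complex.sub_im, Complex.mul_im]
  rw [e]
  rfl

theorem V1_real (x w : ℝ) : V1 ⟨x, 0⟩ ⟨w, 0⟩ = uu (x + w) 0 - uu x 0 - uu w 0 := by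
  rw [V1_rF]
  unfold rF
  ring_nf

/-- the two parts together -/
theorem core {c c' X x w t k G β γ a a0 a1 c1 : ℝ} {U : ℝ} (hX : 1 / 2 ≤ X) (hx : X ≤ x)
    (hw : 0 ≤ w) (hxw : x + w ≤ 1) (hF : c1 < rF c c' t k + β * t + γ * k)
    (hR : -c1 < U * uu w 0 + a0 + a1 * w - (uu (X + w) 0 - uu X 0 - uu w 0) - a)
    (hG : U * uu w 0 + a0 + a1 * w + γ * k ≤ G) :
    a ≤ V1 ⟨c, t⟩ ⟨c', k⟩ - V1 ⟨x, 0⟩ ⟨w, 0⟩ + G + β * t := by
  rw [V1_rF, V1_real]
  have := anti hX hx hw hxw
  linarith

end TL.K1b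

end Pool.Agent.Work.MP_b30479_gtS.G2

end

section

/-!
# Value moves of the hinge `1 | 3` (side `S3` of an inner digit `3`): functions and rows
-/

namespace Pool.Agent.Work.MP_b30479_gtS.G2

open VOL NumUs

namespace V2A.B

open NumUs.E

/-- the hinge `x + hx i` of a digit `1` is moved to `c + hc i`; `k + hk i` is the other hinge -/
noncomputable def dvB (c hc x hx k hk : ℝ) : ℝ :=
  Real.pi * ((c - x) * hk + (hc - hx) * (k - 1)) + ((uu x hx - uu c hc) +
    (uu (c + k) (hc + hk) - uu (x + k) (hx + hk)))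

theorem V1_dvB {u u' k : ℂ} {c hc x hx : ℝ} (h1 : u.re = x) (h2 : u.im = hx)
    (h3 : u'.re = c) (h4 : u'.im = hc) :
    V1 u' k - V1 u k = dvB c hc x hx k.re k.im := by
  have e1 : (u' * k - u' - k).im = c * k.im + hc * k.re - hc - k.im := by
    simp only [Complex.sub_im, Complex.mul_im, h3, h4]
  have e2 : (u * k - u - k).im = x * k.im + hx * k.re - hx - k.im := by
    simp only [Complex.sub_im, Complex.mul_im, h1, h2]
  unfold V1 dvB
  rw [e1, e2, UU_uu (u' + k), UU_uu (u + k), UU_uu u', UU_uu u]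
  simp only [Complex.add_re, Complex.add_im, h1, h2, h3, h4]
  ring

/-- height at `x` on the ramp of the path `.65`, `.15` -/
noncomputable def h65 (x T : ℝ) : ℝ := T * (13 / 3 - 20 / 3 * x)

/-- a quadratic bound; `T` in the frame of the inner digit `3` -/
noncomputable def gq (a0 a1 a2 a3 a4 a5 x0 t0 : ℤ) (x T : ℝ) : ℝ :=
  (a0 : ℝ) / 100000 + (x - x0 / 1000) * (a1 / 1000) + ((-t0 / 1000 - T) * (a2 / 1000) +
    (x - x0 / 1000) * (-t0 / 1000 - T) * (a3 / 1000) +
    ((-t0 / 1000 - T) * (-t0 / 1000 - T) * (a4 / 1000) +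
      (x - x0 / 1000) * (x - x0 / 1000) * (a5 / 1000)))

/-! ### expressions -/

def ex65 : E := mul vT (sub (q 13 3) (mul (q 20 3) vx))
/-- `gq`, frame of the `3` -/
def eq (a0 a1 a2 a3 a4 a5 x0 t0 : ℤ) : E :=
  add (add (q a0 100000) (mul (sub vx (q x0 1000)) (q a1 1000)))
    (add (add (mul (sub (q (-t0) 1000) vT) (q a2 1000))
      (mul (mul (sub vx (q x0 1000)) (sub (q (-t0) 1000) vT)) (q a3 1000)))
      (add (mul (mul (sub (q (-t0) 1000) vT) (sub (q (-t0) 1000) vT)) (q a4 1000))
        (mul (mul (sub vx (q x0 1000)) (sub vx (q x0 1000))) (q a5 1000))))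
/-- `gq`, frame of the `1` -/
def fq (a0 a1 a2 a3 a4 a5 x0 t0 : ℤ) : E :=
  add (add (q a0 100000) (mul (sub vx (q x0 1000)) (q a1 1000)))
    (add (add (mul (sub vT (q t0 1000)) (q a2 1000))
      (mul (mul (sub vx (q x0 1000)) (sub vT (q t0 1000))) (q a3 1000)))
      (add (mul (mul (sub vT (q t0 1000)) (sub vT (q t0 1000))) (q a4 1000))
        (mul (mul (sub vx (q x0 1000)) (sub vx (q x0 1000))) (q a5 1000))))

section
variable {x T : ℝ} {r : List ℝ}

theorem ex65_val : ex65.val (x :: T :: r) = h65 x T := by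
  simp only [ex65, E.val, vx_val, vT_val, h65]
  push_cast
  ring

theorem eq_val {a0 a1 a2 a3 a4 a5 x0 t0 : ℤ} :
    (eq a0 a1 a2 a3 a4 a5 x0 t0).val (x :: T :: r) = gq a0 a1 a2 a3 a4 a5 x0 t0 x T := by
  simp only [eq, E.val, vx_val, vT_val, gq]
  push_cast
  ring

theorem fq_val {a0 a1 a2 a3 a4 a5 x0 t0 : ℤ} :
    (fq a0 a1 a2 a3 a4 a5 x0 t0).val (x :: T :: r) = gq a0 a1 a2 a3 a4 a5 x0 t0 x (-T) := by
  simp only [fq, E.val, vx_val, vT_val, gq]
  push_cast
  ring

end

/-- the row `dvB - g` -/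
def FBe (c hc x hx k hk g : E) : E :=
  sub (add (mul pi (add (mul (sub c x) hk) (mul (sub hc hx) (sub k (q 1 1)))))
    (add (sub (uu x hx) (uu c hc)) (sub (uu (add c k) (add hc hk)) (uu (add x k) (add hx hk))))) g

theorem FBe_val {c hc x hx k hk g : E} {xs : List ℝ} : (FBe c hc x hx k hk g).val xs =
    dvB (c.val xs) (hc.val xs) (x.val xs) (hx.val xs) (k.val xs) (hk.val xs) - g.val xs := by
  simp only [FBe, E.val, dvB]
  push_cast
  ring

/-! ### the inner variable stays: `x T s t`, the inner variable is `x + s + t i` -/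

/-- `x + s` -/
def vxs : E := add vx vl

def S1 (c hx g : E) (es : List E) : List E :=
  FRe c vT vx hx vxs vt g (aN vl (sub vt hx)) :: sub vt hx :: es
def S2 (c hx g : E) (es : List E) : List E :=
  FRe c vT vx hx vxs vt g (aP vl (sub vt hx)) :: sub hx vt :: es
def S3 (c hx g : E) (es : List E) : List E :=
  FRe c vT vx hx vxs vt g (mul (mul (q 1 2) pi) (sub vt hx)) :: sub vt hx :: es
def S4 (c hx g : E) (es : List E) : List E :=
  FRe c vT vx hx vxs vt g (mul (mul (q 1 2) pi) (sub hx vt)) :: sub hx vt :: es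
def S5 (c hx g : E) (es : List E) : List E :=
  FRe c vT vx hx vxs vt g (uu (q 1 100) (sub vt hx)) :: es
def S6 (c hx g : E) (es : List E) : List E :=
  FRe c vT vx hx vxs vt g (uu vl (sub vt hx)) :: es

theorem stay_row {c hx g : E} {es : List E} {x T s t cc hh gg : ℝ}
    (hc : c.val [x, T, s, t] = cc) (hh' : hx.val [x, T, s, t] = hh)
    (hg : g.val [x, T, s, t] = gg) (hs : s ≤ 4 / 100) (hy : |t - hh| ≤ 13 / 100)
    (hes : ∀ e ∈ es, e.val [x, T, s, t] ≤ 0)
    (k1 : s ≤ -(1 / 100) → ∃ e ∈ S1 c hx g es, 0 < e.val [x, T, s, t])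
    (k2 : s ≤ -(1 / 100) → ∃ e ∈ S2 c hx g es, 0 < e.val [x, T, s, t])
    (k3 : -(1 / 100) ≤ s → s ≤ 0 → ∃ e ∈ S3 c hx g es, 0 < e.val [x, T, s, t])
    (k4 : -(1 / 100) ≤ s → s ≤ 0 → ∃ e ∈ S4 c hx g es, 0 < e.val [x, T, s, t])
    (k5 : 0 ≤ s → s ≤ 1 / 100 → ∃ e ∈ S5 c hx g es, 0 < e.val [x, T, s, t])
    (k6 : 1 / 100 ≤ s → ∃ e ∈ S6 c hx g es, 0 < e.val [x, T, s, t]) :
    0 < dvR cc T x hh (x + s) t + gg + uu s (t - hh) := by
  have e1 : vl.val [x, T, s, t] = s := rfl
  have e2 : vxs.val [x, T, s, t] = x + s := rfl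
  have e3 : vt.val [x, T, s, t] = t := rfl
  have e4 : vT.val [x, T, s, t] = T := rfl
  have e5 : vx.val [x, T, s, t] = x := rfl
  have n1 : (sub vt hx).val [x, T, s, t] = t - hh := by
    simp only [E.val, e3, hh']
  have n2 : (sub hx vt).val [x, T, s, t] = hh - t := by
    simp only [E.val, e3, hh']
  have hp := Real.pi_pos
  rcases le_total s (-(1 / 100)) with c1 | c1
  · have e := uu_add_one s (t - hh)
    rw [add_comm s 1] at e
    rcases le_total (t - hh) 0 with c2 | c2
    · have := of_list (k1 c1) (all_cons (by rw [n1]; exact c2) hes)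
      rw [FRe_val, aN_val, e1, e2, e3, e4, e5, n1, hc, hh', hg] at this
      rw [e, abs_of_nonpos c2] at this
      linarith only [this]
    · have := of_list (k2 c1) (all_cons (by rw [n2]; linarith only [c2]) hes)
      rw [FRe_val, aP_val, e1, e2, e3, e4, e5, n1, hc, hh', hg] at this
      rw [e, abs_of_nonneg c2] at this
      linarith only [this]
  rcases le_total s 0 with c2 | c2
  · have a1 := UA.anti UA.kc_7_13 (by norm_num) (a := s) (b := 0) (y := t - hh) (by linarith only [c1]) c2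
      (by norm_num) hy
    rw [UA.uu_zero] at a1
    rcases le_total (t - hh) 0 with c3 | c3
    · have := of_list (k3 c1 c2) (all_cons (by rw [n1]; exact c3) hes)
      rw [FRe_val, e2, e3, e4, e5, hc, hh', hg] at this
      have e6 : (mul (mul (q 1 2) pi) (sub vt hx)).val [x, T, s, t] =
          Real.pi / 2 * (t - hh) := by
        rw [← n1]
        simp only [E.val]
        push_cast
        ring
      rw [e6] at this
      rw [abs_of_nonpos c3] at a1
      linarith only [a1, this]
    · have := of_list (k4 c1 c2) (all_cons (by rw [n2]; linarith only [c3]) hes)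
      rw [FRe_val, e2, e3, e4, e5, hc, hh', hg] at this
      have e6 : (mul (mul (q 1 2) pi) (sub hx vt)).val [x, T, s, t] =
          Real.pi / 2 * (hh - t) := by
        rw [← n2]
        simp only [E.val]
        push_cast
        ring
      rw [e6] at this
      rw [abs_of_nonneg c3] at a1
      linarith only [a1, this]
  rcases le_total s (1 / 100) with c3 | c3
  · have a1 := UA.anti UA.kc_7_13 (by norm_num) (a := s) (b := 1 / 100) (y := t - hh)
      (by linarith only [c1]) c3 (by norm_num) hy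
    have := of_list (k5 c2 c3) hes
    rw [FRe_val, e2, e3, e4, e5, hc, hh', hg] at this
    have e6 : (uu (q 1 100) (sub vt hx)).val [x, T, s, t] = NumUs.uu (1 / 100) (t - hh) := by
      rw [← n1]
      simp only [E.val]
      norm_num
    rw [e6] at this
    linarith only [a1, this]
  · have := of_list (k6 c3) hes
    rw [FRe_val, e2, e3, e4, e5, hc, hh', hg] at this
    have e6 : (uu vl (sub vt hx)).val [x, T, s, t] = NumUs.uu s (t - hh) := by
      show NumUs.uu (vl.val [x, T, s, t]) ((sub vt hx).val [x, T, s, t]) = _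
      rw [n1, e1]
    rw [e6] at this
    exact this

/-- the inner variable moves from the left ramp to the flat part, `w` is not small -/
theorem ramp_row' {c hc hx g l' : E} {es : List E} {x T l t w S : ℝ}
    (hes : ∀ e ∈ es, e.val [x, T, l, t, w, S] ≤ 0) (h0 : 0 ≤ l) (h5 : l ≤ 5 / 100)
    (hw : 7 / 100 ≤ w) (ht : |t| ≤ 125 / 1000)
    (k3 : ∃ e ∈ P3 c hc l' hx g es, 0 < e.val [x, T, l, t, w, S])
    (k4 : ∃ e ∈ P4 c hc l' hx g es, 0 < e.val [x, T, l, t, w, S]) :
    0 < dvG (c.val [x, T, l, t, w, S]) (hc.val [x, T, l, t, w, S]) (l'.val [x, T, l, t, w, S]) t x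
      (hx.val [x, T, l, t, w, S]) l (20 * (t * l)) w S + g.val [x, T, l, t, w, S] +
      (uu l (20 * (t * l)) - uu (l + w) (20 * (t * l) + S) +
        uu (l - x) (20 * (t * l) - hx.val [x, T, l, t, w, S])) := by
  have evh : vh.val [x, T, l, t, w, S] = 20 * (t * l) := by
    have h2 : vt.val [x, T, l, t, w, S] = t := rfl
    have h3 : vl.val [x, T, l, t, w, S] = l := rfl
    simp only [vh, E.val, h2, h3]
    norm_num
  have ev1 : vl.val [x, T, l, t, w, S] = l := rfl
  have ev2 : vw.val [x, T, l, t, w, S] = w := rfl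
  have ev3 : vx.val [x, T, l, t, w, S] = x := rfl
  have ev4 : vS.val [x, T, l, t, w, S] = S := rfl
  have ev5 : vt.val [x, T, l, t, w, S] = t := rfl
  have ev6 : vs.val [x, T, l, t, w, S] = l - x := rfl
  have e2 : ((6 : ℤ) : ℝ) / ((100 : ℕ) : ℝ) = 6 / 100 := by norm_num
  have e3 : ((5 : ℤ) : ℝ) / ((100 : ℕ) : ℝ) = 5 / 100 := by norm_num
  have hhl : |20 * (t * l)| ≤ 125 / 1000 * (20 * l) := by
    rw [show 20 * (t * l) = t * (20 * l) by ring, abs_mul, abs_of_nonneg (by linarith only [h0] : 0 ≤ 20 * l)]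
    exact mul_le_mul_of_nonneg_right ht (by linarith only [h0])
  refine split_ramp h0 h5 (by linarith only [hw]) (by linarith only [h5, hhl]) ?_ ?_ ?_ ?_ ?_
  · intro h1
    exact absurd h1 (by linarith only [h0, hw, h1])
  · intro h1 h2
    exact absurd h1 (by linarith only [h0, hw, h1])
  · intro h1 h2
    exact absurd h1 (by linarith only [h0, hw, h1])
  · intro h1 h2
    have := of_list k3 (all_cons (by simp only [E.val, evh]; exact h2)
      (all_cons (by simp only [E.val, ev1, ev2, e2]; linarith only [h0, hw]) hes))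
    rw [FGe_val] at this
    simp only [E.val, aN_val, evh, ev1, ev2, ev3, ev4, ev5, ev6, e3] at this
    exact this
  · intro h1 h2
    have := of_list k4 (all_cons (by simp only [E.val, evh]; linarith only [h2])
      (all_cons (by simp only [E.val, ev1, ev2, e2]; linarith only [h0, hw]) hes))
    rw [FGe_val] at this
    simp only [E.val, aP_val, evh, ev1, ev2, ev3, ev4, ev5, ev6, e3] at this
    exact this

end V2A.B

end Pool.Agent.Work.MP_b30479_gtS.G2

end

section

/-!
# Part of `V2BSt`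
-/
namespace Pool.Agent.Work.MP_b30479_gtS.G2

open VOL NumUs

namespace V2A.B

open NumUs.E

/-- heights of the hinge `1 | 3` and of the inner variable, in the frame of the `3` -/
structure MOk (T t : ℝ) : Prop where
  T0 : -(1145 / 10000) ≤ T
  T1 : T ≤ -(21 / 1000)
  t0 : -(90 / 1000) ≤ t
  t1 : t ≤ 5 / 1000
  s0 : -(45 / 1000) ≤ t - T
  s1 : t - T ≤ 84 / 1000

/-- the window of `t - T`, the range of the inner variable -/
def eM (l0 l1 : ℤ) : List E :=
  [sub (sub vt vT) (q 84 1000), sub (q (-45) 1000) (sub vt vT), sub (q l0 10000) vxs,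
    sub vxs (q l1 10000)]

theorem MOk.flat {T t : ℝ} (M : MOk T t) : |t - T| ≤ 13 / 100 := by
  have s0 := M.s0
  have s1 := M.s1
  rw [abs_le]
  constructor <;> linarith only [s0, s1]

end V2A.B

end Pool.Agent.Work.MP_b30479_gtS.G2

end

section

/-!
# Value steps for one hinge
-/

namespace Pool.Agent.Work.MP_b30479_gtS.G2

open Finset VOL Filter Topology

namespace SR

variable {M : ℕ} {b : Fin (M + 1) → ℤ} {zs : DD (tyW b) ⊕ ZZ (tyW b) → ℂ}
variable {y : DD (tyW b) ⊕ ZZ (tyW b) → ℝ}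
variable {h h' : Fin M} {i j j' : Fin (M + 1)} {p : Fin 3}

/-- the point `c` of the path of the hinge `h` in the frame of a region with sign `s` -/
noncomputable def pw (b : Fin (M + 1) → ℤ) (zs : DD (tyW b) ⊕ ZZ (tyW b) → ℂ) (s : ℤ) (h : Fin M)
    (c : ℝ) : ℂ := ofr s ((wpar b zs).pp zs (.inl (.inl h)) c)

/-- the point is on the path -/
theorem pw_RH (s : ℤ) (h : Fin M) {c : ℝ} (h0 : 0 ≤ c) (h1 : c ≤ wXM b h) :
    RH (pw b zs s h c) (ofs s (zs (.inl (.inl h))).im) (wXM b h) (wcl b h) (wcr b h) := by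
  unfold pw
  refine ⟨?_, ?_, ?_⟩
  · rw [ofr_pp_re]; exact h0
  · rw [ofr_pp_re]; exact h1
  · rw [ofr_pp_re, ofr_im, Par.pp_im]
    exact ofs_mul' _ _ _

theorem pw_re (s : ℤ) (h : Fin M) (c : ℝ) : (pw b zs s h c).re = c := ofr_pp_re _ _ _

/-- on the flat part -/
theorem pw_flat (s : ℤ) (h : Fin M) {c : ℝ} (h0 : wcl b h ≤ c) (h1 : c ≤ wXM b h - wcr b h) :
    pw b zs s h c = (c : ℂ) + ((ofs s (zs (.inl (.inl h))).im : ℝ) : ℂ) * Complex.I :=
  ofr_pp_flat (wpar_good b zs) zs _ s h0 h1

/-- change of the value of the region `i` if the hinge in the slot `p` is moved to `z` -/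
noncomputable def dV (b : Fin (M + 1) → ℤ) (i : Fin (M + 1)) (p : Fin 3) (X : Fin 3 → ℂ) (z : ℂ) :
    ℝ := OV b i (Function.update X p z) - OV b i X

/-- **Value step for one hinge.** -/
theorem val_hinge (hb : ClassW b) (hy : IsMx (wdat (tyW b) b) (wpar b zs) zs y) (A : Adj h i p j)
    {c : ℝ} (h0 : 0 ≤ c) (h1 : c ≤ wXM b h) :
    dV b i p (OY b zs y i) (pw b zs (b i) h c) +
      dV b j p.rev (OY b zs y j) (pw b zs (b j) h c) ≤ 0 := by
  have key : dV b h.castSucc 2 (OY b zs y h.castSucc) (pw b zs (b h.castSucc) h c) +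
      dV b h.succ 0 (OY b zs y h.succ) (pw b zs (b h.succ) h c) ≤ 0 := by
    have h2 := hy.upd (.inl (.inl h)) (c := c) h0 h1
    have h3 := V_upd_hinge (tyW b) b h ((wpar b zs).pth zs y) ((wpar b zs).pp zs (.inl (.inl h)) c)
    rw [rV_own hb, rV_own hb, rV_own hb, rV_own hb, own_update_two, own_update_zero] at h3
    unfold dV OY pw Xw
    linarith
  cases A
  · exact key
  · rw [add_comm]
    exact key

/-! ### closed forms -/

theorem EndOk.upd {X : Fin 3 → ℂ} (hX : EndOk i X) (A : Adj h i p j) (z : ℂ) :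
    EndOk i (Function.update X p z) := by
  cases A
  · refine ⟨fun h0 => ?_, fun h0 => absurd h0 (Fin.castSucc_lt_last h).ne⟩
    rw [Function.update_of_ne (by decide)]
    exact hX.1 h0
  · refine ⟨fun h0 => absurd h0 (Fin.succ_ne_zero h), fun h0 => ?_⟩
    rw [Function.update_of_ne (by decide)]
    exact hX.2 h0

theorem dV_one (hb : ClassW b) (A : Adj h i p j) (hc : clsW b i = .one) (X : Fin 3 → ℂ) (z : ℂ) :
    dV b i p X z = V1 z (X p.rev) - V1 (X p) (X p.rev) := by
  unfold dV
  rw [OV_one hb hc, OV_one hb hc]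
  cases A
  · rw [Function.update_self, Function.update_of_ne (by decide), V1_comm (X 0) z,
      V1_comm (X 0) (X 2)]
    rfl
  · rw [Function.update_self, Function.update_of_ne (by decide)]
    rfl

theorem dV_two (hb : ClassW b) (A : Adj h i p j) (hc : clsW b i = .two ∨ clsW b i = .twoE)
    {X : Fin 3 → ℂ} (hX : EndOk i X) (z : ℂ) :
    dV b i p X z = V2 z (X p.rev) - V2 (X p) (X p.rev) := by
  unfold dV
  rw [OV_two hb hc hX, OV_two hb hc (hX.upd A z)]
  cases A
  · rw [Function.update_self, Function.update_of_ne (by decide), V2_comm (X 0) z,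
      V2_comm (X 0) (X 2)]
    rfl
  · rw [Function.update_self, Function.update_of_ne (by decide)]
    rfl

/-- end region with two crossings -/
theorem dV_twoE (hb : ClassW b) (A : Adj h i p j) (hc : clsW b i = .twoE)
    {X : Fin 3 → ℂ} (hX : EndOk i X) (z : ℂ) :
    dV b i p X z = V2 z 0 - V2 (X p) 0 := by
  have he := clsW_end (Or.inl hc)
  rw [dV_two hb A (Or.inr hc) hX]
  have h0 : X p.rev = 0 := by
    unfold isEnd at he
    cases A
    · rcases of_decide_eq_true he with h1 | h1
      · exact hX.1 h1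
      · exact absurd h1 (Fin.castSucc_lt_last h).ne
    · rcases of_decide_eq_true he with h1 | h1
      · exact absurd h1 (Fin.succ_ne_zero h)
      · exact hX.2 h1
  rw [h0]

/-- hinge on the left of an inner region with three crossings (side `S3`) -/
theorem dV_three0 (hb : ClassW b) (hc : clsW b i = .three) (X : Fin 3 → ℂ) (z : ℂ) :
    dV b i 0 X z = V3 z (X 1) (X 2) - V3 (X 0) (X 1) (X 2) := by
  unfold dV
  rw [OV_three hb hc, OV_three hb hc, Function.update_self, Function.update_of_ne (by decide),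
    Function.update_of_ne (by decide)]

/-- hinge on the right of an inner region with three crossings (side `S2`) -/
theorem dV_three2 (hb : ClassW b) (hc : clsW b i = .three) (X : Fin 3 → ℂ) (z : ℂ) :
    dV b i 2 X z = V3 (X 0) (X 1) z - V3 (X 0) (X 1) (X 2) := by
  unfold dV
  rw [OV_three hb hc, OV_three hb hc, Function.update_self, Function.update_of_ne (by decide),
    Function.update_of_ne (by decide)]

theorem dV_threeE (A : Adj h i p j) (hc : clsW b i = .threeE)
    {X : Fin 3 → ℂ} (hX : EndOk i X) (z : ℂ) :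
    dV b i p X z = V3 z (X 1) 0 - V3 (X p) (X 1) 0 := by
  unfold dV
  rw [A.OV_threeE hc hX, A.OV_threeE hc (hX.upd A z), Function.update_self,
    Function.update_of_ne (by cases A <;> decide)]

theorem dV_ring (hb : ClassW b) (A : Adj h i p j) (hc : clsW b i = .ring)
    {X : Fin 3 → ℂ} (hX : EndOk i X) (z : ℂ) :
    dV b i p X z =
      (UU (z + 1 / 2 + X 1) + UU (z + 1 / 2 - X 1) - 2 * UU z) -
        (UU (X p + 1 / 2 + X 1) + UU (X p + 1 / 2 - X 1) - 2 * UU (X p)) := by
  unfold dV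
  rw [OV_ring hb hc hX, OV_ring hb hc (hX.upd A z)]
  unfold VR
  cases A
  · rw [Function.update_self, Function.update_of_ne (by decide), Function.update_of_ne (by decide)]
    ring
  · rw [Function.update_self, Function.update_of_ne (by decide), Function.update_of_ne (by decide)]
    ring

/-! ### the hinge variable of the local point -/

/-- the hinge `h` in the frame of the region `i` -/
theorem OY_hinge (y : DD (tyW b) ⊕ ZZ (tyW b) → ℝ) (A : Adj h i p j) :
    OY b zs y i p = pw b zs (b i) h (y (.inl (.inl h))) := by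
  unfold pw
  cases A
  · unfold OY Xw
    rw [own_two, xx_right]
    rfl
  · unfold OY Xw
    rw [own_zero, xx_left]
    rfl

end SR

end Pool.Agent.Work.MP_b30479_gtS.G2

end
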