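import Pool.Agent.Work.MP_b30479_gt.TBS.G2.MR2
import Pool.Agent.Work.MP_b30479_gt.TBS.G2.WLocX
import Pool.Agent.Work.MP_b30479_gt.TBS.G2.R32O
import Pool.Agent.Work.MP_b30479_gt.TBS.G2.TK3oneB4
import Pool.Agent.Work.MP_b30479_gt.TBS.G2.R32B_3
import Pool.Agent.Work.MP_b30479_gt.TBS.G2.R3P
import Pool.Agent.Work.MP_b30479_gt.TBS.G2.R31D_0
import Pool.Agent.Work.MP_b30479_gt.TBS.G2.R3WK
import Pool.Agent.Work.MP_b30479_gt.TBS.G2.WVal
import Pool.Agent.Work.MP_b30479_gt.TBS.G2.R31D_2
import Pool.Agent.Work.MP_b30479_gt.TBS.G2.R3VC_2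
import Pool.Agent.Work.MP_b30479_gt.TBS.G2.WTab

section

/-!
# Right ramp of the slot-2 hinge of an interior region with three crossings, word level

Own side for the neighbours `2`, `2e`, `3`, `3e`, ring, with free inner variable.
-/

namespace Pool.Agent.Work.MP_b30479_gtS.G2

open Finset VOL Filter Topology

namespace SR

variable {M : ℕ} {b : Fin (M + 1) → ℤ} {zs : DD (tyW b) ⊕ ZZ (tyW b) → ℂ}
variable {y : DD (tyW b) ⊕ ZZ (tyW b) → ℝ}
variable {h h' : Fin M} {i j j' : Fin (M + 1)} {p : Fin 3}

/-- the parameters of the hinge -/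
theorem Adj.par_three (A : Adj h i 2 j) (hi : clsW b i = .three) (hj : clsW b j ≠ .one) :
    wXM b h = 60 / 100 ∧ wcl b h = 13 / 100 ∧ wcr b h = 30 / 100 := by
  rw [A.XM_eq b, A.cl_eq b, A.cr_eq b, hi]
  unfold hpp
  generalize clsW b j = B at hj
  rw [if_pos rfl]
  cases B <;> first | exact absurd rfl hj | simp [hp]

/-- the inner variable of an interior region with three crossings -/
theorem Adj.mid_three (A : Adj h i 2 j) (hb : ClassW b) (hX : LocX b zs) (hy : Mx b zs y)
    (hi : clsW b i = .three) {a c : ℝ} (ha : a ≤ 0) (hc : 0 ≤ c)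
    (hw : ∀ P, a ≤ (mw P (clsW b j)).t0 ∧ (mw P (clsW b j)).t1 ≤ c) :
    0 ≤ (Yw b zs y i 1).re ∧ (Yw b zs y i 1).re ≤ 8 / 10 ∧
      a ≤ (Yw b zs y i 1).im ∧ (Yw b zs y i 1).im ≤ c := by
  obtain ⟨h', j', A'⟩ := A.other' b (clsW_inner hb (Or.inr (Or.inr hi)))
  have e0 : (2 : Fin 3).rev = 0 := rfl
  rw [e0] at A'
  have hm := tyW_isMid (Or.inl hi)
  obtain ⟨h1, h2, -, -⟩ := hX.mid hm A' A hi
  have h3 := mid_RH hy ⟨i, hm⟩
  have e1 : (wpar b zs).XM (.inr ⟨i, hm⟩) = 8 / 10 := by
    show (mp (clsW b i)).XM = 8 / 10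
    rw [hi]; rfl
  have h4 := h3.reM
  rw [e1] at h4
  obtain ⟨w1, w2⟩ := hw (clsW b j')
  obtain ⟨k1, k2⟩ := MR.RH_im_mem h3 ha hc (w1.trans h1) (h2.trans w2)
  exact ⟨h3.re0, h4, k1, k2⟩

/-- the slope on the right ramp -/
theorem Adj.slope_three (A : Adj h i 2 j) (hi : clsW b i = .three) (hj : clsW b j ≠ .one)
    (hx : 30 / 100 < y (.inl (.inl h))) (c : ℤ) : ofs c (slL b zs y h) =
      MR.mR 30 (ofs c (zs (.inl (.inl h))).im) := by
  obtain ⟨e1, e2, e3⟩ := A.par_three hi hj
  rw [ofs_slL_ramp _ (by rw [e1, e3]; linarith only [hx]), e3]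
  unfold MR.mR
  push_cast
  rw [neg_div]

/-- the height on the right ramp -/
theorem Adj.height_three {i' j' : Fin (M + 1)} {q : Fin 3} (A : Adj h i 2 j) (A' : Adj h i' q j')
    (hi : clsW b i = .three) (hj : clsW b j ≠ .one) (hy : Mx b zs y)
    (hx : 30 / 100 < y (.inl (.inl h))) : (Yw b zs y i' q).im =
      MR.tR 60 30 (Yw b zs y i' q).re (ofs (b i') (zs (.inl (.inl h))).im) := by
  obtain ⟨e1, e2, e3⟩ := A.par_three hi hj
  have hrh := A'.rh hy
  rw [e1, e2, e3] at hrh
  have h1 := MR.RH_right hrh (by norm_num) (by norm_num) (by norm_num)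
    (by rw [A'.re]; linarith only [hx])
  rw [h1]
  unfold MR.tR
  push_cast
  rfl

/-- the window of the height of the hinge -/
theorem Adj.im_three (A : Adj h i p j) (hb : ClassW b) (hL : Loc b zs) (hi : clsW b i = .three) :
    (hbox .three (clsW b j) false).t0 ≤ ofs (b i) (zs (.inl (.inl h))).im ∧
      ofs (b i) (zs (.inl (.inl h))).im ≤ (hbox .three (clsW b j) false).t1 := by
  have hop := A.opp hb (Or.inl (by rw [hi]; decide))
  obtain ⟨-, -, h3, h4⟩ := A.box hb hL
  rw [hi, A.ss hop] at h3 h4
  exact ⟨h3, h4⟩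

section own

variable (A : Adj h i 2 j) (hb : ClassW b) (hL : Loc b zs) (hX : LocX b zs) (hy : Mx b zs y)
  (hi : clsW b i = .three)

include A hb hL hX hy hi

/-- `3 | 2` -/
theorem Adj.own_three_two (hj : clsW b j = .two) (hx : 30 / 100 < y (.inl (.inl h)))
    (hx' : y (.inl (.inl h)) ≤ 56 / 100) : Sw b zs y i 2 (slL b zs y h) <
      -(15 / 100) + 32 / 10 * ofs (b i) (zs (.inl (.inl h))).im := by
  have hj1 : clsW b j ≠ .one := by rw [hj]; decide
  obtain ⟨g1, g2, g3, g4⟩ := A.mid_three hb hX hy hi (a := -(116 / 1000)) (c := 5 / 1000)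
    (by norm_num) (by norm_num) (fun P => by rw [hj]; cases P <;> norm_num [mw])
  obtain ⟨t1, t2⟩ := A.im_three hb hL hi
  rw [hj] at t1 t2
  norm_num [hbox] at t1 t2
  rw [A.side_three_two hb hi, A.slope_three hi hj1 hx]
  exact MR.r32_two (by linarith only [t1]) (by linarith only [t2]) (A.height_three A hi hj1 hy hx)
    (by rw [A.re]; linarith only [hx]) (by rw [A.re]; linarith only [hx']) (by linarith only [g1]) (by linarith only [g2]) (by linarith only [g3])
    (by linarith only [g4])

/-- `3 | 2`, near the right end, the inner variable at most `.70` -/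
theorem Adj.own_three_two_b (hj : clsW b j = .two) (hx : 56 / 100 ≤ y (.inl (.inl h)))
    (hv : (Yw b zs y i 1).re ≤ 70 / 100) : Sw b zs y i 2 (slL b zs y h) <
      -(17 / 100) + 34 / 10 * ofs (b i) (zs (.inl (.inl h))).im := by
  have hj1 : clsW b j ≠ .one := by rw [hj]; decide
  have hx0 : 30 / 100 < y (.inl (.inl h)) := by linarith only [hx]
  obtain ⟨g1, g2, g3, g4⟩ := A.mid_three hb hX hy hi (a := -(116 / 1000)) (c := 5 / 1000)
    (by norm_num) (by norm_num) (fun P => by rw [hj]; cases P <;> norm_num [mw])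
  obtain ⟨t1, t2⟩ := A.im_three hb hL hi
  rw [hj] at t1 t2
  norm_num [hbox] at t1 t2
  have hM := (A.rh hy).reM
  rw [(A.par_three hi hj1).1] at hM
  rw [A.side_three_two hb hi, A.slope_three hi hj1 hx0]
  exact MR.r32_two_b (by linarith only [t1]) (by linarith only [t2]) (A.height_three A hi hj1 hy hx0)
    (by rw [A.re]; linarith only [hx]) (by linarith only [hM]) (by linarith only [g1]) (by linarith only [hv]) (by linarith only [g3])
    (by linarith only [g4])

/-- `3 | 2e` -/
theorem Adj.own_three_twoE (hj : clsW b j = .twoE) (hx : 30 / 100 < y (.inl (.inl h))) :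
    Sw b zs y i 2 (slL b zs y h) < -(50 / 100) := by
  have hj1 : clsW b j ≠ .one := by rw [hj]; decide
  obtain ⟨g1, g2, g3, g4⟩ := A.mid_three hb hX hy hi (a := -(95 / 1000)) (c := 0)
    (by norm_num) (by norm_num) (fun P => by rw [hj]; cases P <;> norm_num [mw])
  obtain ⟨t1, t2⟩ := A.im_three hb hL hi
  rw [hj] at t1 t2
  norm_num [hbox] at t1 t2
  have hM := (A.rh hy).reM
  rw [(A.par_three hi hj1).1] at hM
  rw [A.side_three_two hb hi, A.slope_three hi hj1 hx]
  exact MR.r32_twoE (by linarith only [t1]) (by linarith only [t2]) (A.height_three A hi hj1 hy hx)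
    (by rw [A.re]; linarith only [hx]) (by linarith only [hM]) (by linarith only [g1]) (by linarith only [g2]) (by linarith only [g3])
    (by linarith only [g4])

/-- `3 | 3` -/
theorem Adj.own_three_three (hj : clsW b j = .three) (hx : 30 / 100 < y (.inl (.inl h)))
    (hx' : y (.inl (.inl h)) ≤ 36 / 100) : Sw b zs y i 2 (slL b zs y h) <
      -(243 / 1000) + 32 / 10 * ofs (b i) (zs (.inl (.inl h))).im -
        3 * (y (.inl (.inl h)) - 30 / 100) := by
  have hj1 : clsW b j ≠ .one := by rw [hj]; decide
  obtain ⟨g1, g2, g3, g4⟩ := A.mid_three hb hX hy hi (a := -(116 / 1000)) (c := 5 / 1000)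
    (by norm_num) (by norm_num) (fun P => by rw [hj]; cases P <;> norm_num [mw])
  obtain ⟨t1, t2⟩ := A.im_three hb hL hi
  rw [hj] at t1 t2
  norm_num [hbox] at t1 t2
  rw [A.side_three_two hb hi, A.slope_three hi hj1 hx]
  have := MR.r32_three (w := Yw b zs y i 2) (v := Yw b zs y i 1)
    (T := ofs (b i) (zs (.inl (.inl h))).im) (by linarith only [t1]) (by linarith only [t2])
    (A.height_three A hi hj1 hy hx) (by rw [A.re]; linarith only [hx]) (by rw [A.re]; linarith only [hx'])
    (by linarith only [g1]) (by linarith only [g2]) (by linarith only [g3]) (by linarith only [g4])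
  rwa [A.re] at this

/-- `3 | 3` -/
theorem Adj.own_three_three_b (hj : clsW b j = .three) (hx : 36 / 100 ≤ y (.inl (.inl h))) :
    Sw b zs y i 2 (slL b zs y h) < -(32 / 100) := by
  have hj1 : clsW b j ≠ .one := by rw [hj]; decide
  have hx0 : 30 / 100 < y (.inl (.inl h)) := by linarith only [hx]
  obtain ⟨g1, g2, g3, g4⟩ := A.mid_three hb hX hy hi (a := -(116 / 1000)) (c := 5 / 1000)
    (by norm_num) (by norm_num) (fun P => by rw [hj]; cases P <;> norm_num [mw])
  obtain ⟨t1, t2⟩ := A.im_three hb hL hi
  rw [hj] at t1 t2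
  norm_num [hbox] at t1 t2
  have hM := (A.rh hy).reM
  rw [(A.par_three hi hj1).1] at hM
  rw [A.side_three_two hb hi, A.slope_three hi hj1 hx0]
  exact MR.r32_three_b (by linarith only [t1]) (by linarith only [t2]) (A.height_three A hi hj1 hy hx0)
    (by rw [A.re]; linarith only [hx]) (by linarith only [hM]) (by linarith only [g1]) (by linarith only [g2]) (by linarith only [g3])
    (by linarith only [g4])

/-- `3 | 3e` -/
theorem Adj.own_three_threeE (hj : clsW b j = .threeE) (hx : 30 / 100 < y (.inl (.inl h))) :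
    Sw b zs y i 2 (slL b zs y h) < -(25 / 100) := by
  have hj1 : clsW b j ≠ .one := by rw [hj]; decide
  obtain ⟨g1, g2, g3, g4⟩ := A.mid_three hb hX hy hi (a := -(116 / 1000)) (c := 5 / 1000)
    (by norm_num) (by norm_num) (fun P => by rw [hj]; cases P <;> norm_num [mw])
  obtain ⟨t1, t2⟩ := A.im_three hb hL hi
  rw [hj] at t1 t2
  norm_num [hbox] at t1 t2
  have hM := (A.rh hy).reM
  rw [(A.par_three hi hj1).1] at hM
  rw [A.side_three_two hb hi, A.slope_three hi hj1 hx]
  exact MR.r32_threeE (by linarith only [t1]) (by linarith only [t2]) (A.height_three A hi hj1 hy hx)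
    (by rw [A.re]; linarith only [hx]) (by linarith only [hM]) (by linarith only [g1]) (by linarith only [g2]) (by linarith only [g3])
    (by linarith only [g4])

/-- `3 | ring` -/
theorem Adj.own_three_ring (hj : clsW b j = .ring) (hx : 30 / 100 < y (.inl (.inl h)))
    (hx' : y (.inl (.inl h)) ≤ 50 / 100) : Sw b zs y i 2 (slL b zs y h) < -(11 / 100) := by
  have hj1 : clsW b j ≠ .one := by rw [hj]; decide
  obtain ⟨g1, g2, g3, g4⟩ := A.mid_three hb hX hy hi (a := -(106 / 1000)) (c := 0)
    (by norm_num) (by norm_num) (fun P => by rw [hj]; cases P <;> norm_num [mw])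
  obtain ⟨t1, t2⟩ := A.im_three hb hL hi
  have t0 := hX.three A hi hj
  rw [hj] at t1 t2
  norm_num [hbox] at t1 t2
  rw [A.side_three_two hb hi, A.slope_three hi hj1 hx]
  exact MR.r32_ring (by linarith only [t0]) (by linarith only [t2]) (A.height_three A hi hj1 hy hx)
    (by rw [A.re]; linarith only [hx]) (by rw [A.re]; linarith only [hx']) (by linarith only [g1]) (by linarith only [g2]) (by linarith only [g3])
    (by linarith only [g4])

/-- `3 | ring`, with the shift `π` -/
theorem Adj.own_three_ring_b (hj : clsW b j = .ring) (hx : 50 / 100 ≤ y (.inl (.inl h))) :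
    Sw b zs y i 2 (slL b zs y h) + Real.pi * ofs (b i) (slL b zs y h) < -(44 / 100) := by
  have hj1 : clsW b j ≠ .one := by rw [hj]; decide
  have hx0 : 30 / 100 < y (.inl (.inl h)) := by linarith only [hx]
  obtain ⟨g1, g2, g3, g4⟩ := A.mid_three hb hX hy hi (a := -(106 / 1000)) (c := 0)
    (by norm_num) (by norm_num) (fun P => by rw [hj]; cases P <;> norm_num [mw])
  obtain ⟨t1, t2⟩ := A.im_three hb hL hi
  have t0 := hX.three A hi hj
  rw [hj] at t1 t2
  norm_num [hbox] at t1 t2
  have hM := (A.rh hy).reM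
  rw [(A.par_three hi hj1).1] at hM
  rw [A.side_three_two hb hi, A.slope_three hi hj1 hx0]
  have := MR.r32_ring_b (w := Yw b zs y i 2) (v := Yw b zs y i 1)
    (T := ofs (b i) (zs (.inl (.inl h))).im) (by linarith only [t0]) (by linarith only [t2])
    (A.height_three A hi hj1 hy hx0) (by rw [A.re]; linarith only [hx]) (by linarith only [hM])
    (by linarith only [g1]) (by linarith only [g2]) (by linarith only [g3]) (by linarith only [g4])
  linarith only [this]

/-- `3 | ring` if the height is `≤ 0` in the frame of the `3`: everything beyond the flat end -/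
theorem Adj.own_three_ring_neg (hj : clsW b j = .ring) (hx : 30 / 100 < y (.inl (.inl h)))
    (hT : ofs (b i) (zs (.inl (.inl h))).im ≤ 0) :
    Sw b zs y i 2 (slL b zs y h) < -(11 / 100) := by
  rcases le_total (y (.inl (.inl h))) (50 / 100) with h1 | h1
  · exact A.own_three_ring hb hL hX hy hi hj hx h1
  · have h2 := A.own_three_ring_b hb hL hX hy hi hj h1
    have hj1 : clsW b j ≠ .one := by rw [hj]; decide
    have h3 : 0 ≤ Real.pi * ofs (b i) (slL b zs y h) := by
      rw [A.slope_three hi hj1 hx]
      exact mul_nonneg Real.pi_pos.le (MR.mR_nonneg hT)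
    linarith only [h2, h3]

end own

/-- **`3 | 2e`** with the `3` on the left: the flat end, without any information. -/
theorem cap_three_twoE (A : Adj h i 2 j) (hb : ClassW b) (hL : Loc b zs) (hX : LocX b zs)
    (hy : Mx b zs y) (h0 : 0 < y (.inl (.inl h))) (hi : clsW b i = .three)
    (hj : clsW b j = .twoE) : y (.inl (.inl h)) ≤ 30 / 100 := by
  by_contra hcon
  push Not at hcon
  have hj1 : clsW b j ≠ .one := by rw [hj]; decide
  have hop := A.opp hb (Or.inl (by rw [hi]; decide))
  have s1 := A.own_three_twoE hb hL hX hy hi hj hcon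
  have s2 : Sw b zs y j 0 (slL b zs y h) < 1 / 2 := by
    have A' := A.symm
    have e0 : (2 : Fin 3).rev = 0 := rfl
    rw [e0] at A'
    have hop' : b j * b i < 0 := by rw [mul_comm]; exact hop
    obtain ⟨-, -, h3, h4⟩ := A'.box hb hL
    rw [hi, hj, A'.ss hop'] at h3 h4
    norm_num [hbox] at h3 h4
    have hv : Yw b zs y j 2 = 0 := by
      rcases A'.other b zs y with h5 | h5
      · exact h5.2
      · rw [clsW_end (Or.inl hj)] at h5
        exact absurd h5.1 (by decide)
    have hM := (A'.rh hy).reM
    rw [(A.par_three hi hj1).1] at hM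
    have hx : 30 / 100 ≤ (Yw b zs y j 0).re := by rw [A'.re]; linarith only [hcon]
    have e2 : (0 : Fin 3).rev = 2 := rfl
    rw [A'.side_two hb (Or.inr hj), A.slope_three hi hj1 hcon, e2, hv,
      MR.S2_zero_eq _ ⟨by linarith only [hx], by linarith only [hM]⟩, A.height_three A' hi hj1 hy hcon]
    exact MR.r32o_twoE (by linarith only [h3]) (by linarith only [h4]) hx (by linarith only [hM])
  exact rstep_false hb hy h0 (RStep.of_adj A (c := 0) (e1 := Sw b zs y i 2 (slL b zs y h))
    (e2 := 1 / 2) (fun _ => rfl) (by linarith only [s1]) (by linarith only []) (by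
      show Sw b zs y j 0 (slL b zs y h) + 0 * ofs (b j) (slL b zs y h) ≤ _
      linarith only [s2]))

end SR

end Pool.Agent.Work.MP_b30479_gtS.G2

end

section

/-!
# Part of `R31D`
-/
set_option linter.unusedSimpArgs false
set_option linter.unusedVariables false
set_option linter.unusedTactic false
set_option linter.unreachableTactic false

namespace Pool.Agent.Work.MP_b30479_gtS.G2

open VOL NumIs

namespace MR

open E

variable {XM cr cl : ℕ} {F : E} {x T x' t' : ℝ} {r : ℤ}

/-- side of the digit, its other neighbour is a `1` -/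
theorem r31d_one {w v : ℂ} {T k : ℝ} (hT : 210 / 10000 ≤ T) (hT' : T ≤ 920 / 10000)
    (hw : w.im = tR 65 29 w.re T) (hx : 3600 / 10000 ≤ w.re) (hx' : w.re ≤ 5600 / 10000)
    (hv : PH v k (86 / 100) (15 / 100) (20 / 100)) (k0 : -(910 / 10000) ≤ k) (k1 : k ≤ 490 / 10000) (s0 : -(22 / 1000) ≤ T + k) (s1 : T + k ≤ 111 / 1000) :
    S1 1 (mR 29 T) w v < 565 / 1000 + 685 / 100 * (T - 21 / 1000) := by
  have hF : ∀ x' t' : ℝ, F_r31d_one.val [w.re, T, x', t'] = 565 / 1000 + 685 / 100 * (T - 21 / 1000) := by
    intro x' t'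
    simp only [F_r31d_one, E.val, lkR]
    push_cast
    ring
  have hre : (w + v).re = w.re + v.re := Complex.add_re _ _
  have him : (w + v).im = w.im + v.im := Complex.add_im _ _
  have hT0 : 0 ≤ T := by linarith only [hT]
  have v0 := hv.re0
  have v1 := hv.reM
  have hs0 : 0 ≤ w.im := by
    rw [hw]
    exact im_ge0 hT0 (by norm_num; linarith only [hx'])
  obtain ⟨τ, τ0, τ1, -, hτ⟩ := hv.mid
  have i0 : -(910 / 10000) ≤ v.im := by rw [hτ]; nlinarith only [τ1, k0, τ0]
  have i1 : v.im ≤ 490 / 10000 := by rw [hτ]; nlinarith only [k1, k0, τ1, τ0]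
  have q0 : -(22 / 1000) ≤ T + v.im := by rw [hτ]; nlinarith only [s0, hT, τ1, k1, τ0]
  have q1 : T + v.im ≤ 111 / 1000 := by rw [hτ]; nlinarith only [s1, hT', τ1, k0, τ0]
  rcases le_total v.re (15 / 100) with h | h
  · have e := hv.left h
    rw [S1_eq _ ⟨by linarith only [hx], by linarith only [hx']⟩ ⟨by rw [hre]; linarith only [hx, v0], by rw [hre]; linarith only [hx', h]⟩, hw, e,
      ← hF v.re k]
    have := pos_box (G := K1E 65 29 15 F_r31d_one) (al := [sub (add (var 1) (var 3)) (q 111 1000), sub (q (-22) 1000) (add (var 1) (var 3))]) (fuel := 28)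
      (x := w.re) (T := T) (x' := v.re) (t' := k)
      r31d_one_h1
      ⟨by norm_num; linarith only [hx], by norm_num; linarith only [hx']⟩ ⟨by norm_num; linarith only [hT], by norm_num; linarith only [hT']⟩ ⟨by norm_num; linarith only [v0], by norm_num; linarith only [h]⟩
      ⟨by norm_num; linarith only [k0], by norm_num; linarith only [k1]⟩ (by
        intro e he
        simp only [List.mem_cons, List.not_mem_nil, or_false] at he
        rcases he with rfl | rfl <;> (simp only [E.val, uE_val, yE_val, lkR]; norm_num; linarith only [s1, s0]))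
    rw [K1E_val] at this
    have e2 : k * (100 / 15 * v.re) = k * (v.re / (15 / 100)) := by ring
    push_cast at this
    rw [e2] at this
    linarith only [this]
  rw [← hF v.re v.im]
  apply S1_zone (by linarith only [hx]) (by linarith only [hx']) (by linarith only [h]) (by linarith only [hx', v1])
  · intro h5
    rw [hw]
    have := pos_box (G := S1E 65 29 F_r31d_one) (al := [sub uE (q 5 6), sub (add (var 1) (var 3)) (q 111 1000), sub (q (-22) 1000) (add (var 1) (var 3))]) (fuel := 28)
      (x := w.re) (T := T) (x' := v.re) (t' := v.im)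
      r31d_one_h2
      ⟨by norm_num; linarith only [hx], by norm_num; linarith only [hx']⟩ ⟨by norm_num; linarith only [hT], by norm_num; linarith only [hT']⟩ ⟨by norm_num; linarith only [h], by norm_num; linarith only [hx, h5]⟩
      ⟨by norm_num; linarith only [i0], by norm_num; linarith only [i1]⟩ (by
        intro e he
        simp only [List.mem_cons, List.not_mem_nil, or_false] at he
        rcases he with rfl | rfl | rfl <;> (simp only [E.val, uE_val, yE_val, lkR]; norm_num; linarith only [h5, q1, q0]))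
    rw [S1E_val] at this
    linarith only [this]
  · intro h5 h6
    rcases le_total (w.im + v.im) 0 with hs | hs
    · refine ⟨((-1 : ℤ) : ℝ), by simpa using mul_YY_11 (mR_nonpos hT0) (by rw [hre]; linarith only [h5]) (by rw [hre]; linarith only [hx', v1]), ?_⟩
      rw [hw] at hs ⊢
      have := pos_box (G := N1E 65 29 F_r31d_one (-1)) (al := [sub (q 5 6) uE, sub uE (q 7 6), yE 65 29, sub (add (var 1) (var 3)) (q 111 1000), sub (q (-22) 1000) (add (var 1) (var 3))]) (fuel := 28)
        (x := w.re) (T := T) (x' := v.re) (t' := v.im)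
        r31d_one_h3
        ⟨by norm_num; linarith only [hx], by norm_num; linarith only [hx']⟩ ⟨by norm_num; linarith only [hT], by norm_num; linarith only [hT']⟩ ⟨by norm_num; linarith only [hx', h5], by norm_num; linarith only [hx, h6]⟩
        ⟨by norm_num; linarith only [i0], by norm_num; linarith only [i1]⟩ (by
          intro e he
          simp only [List.mem_cons, List.not_mem_nil, or_false] at he
          rcases he with rfl | rfl | rfl | rfl | rfl <;> (simp only [E.val, uE_val, yE_val, lkR]; norm_num; linarith only [h5, h6, hs, q1, q0]))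
      rw [N1E_val] at this
      linarith only [this]
    · refine ⟨((0 : ℤ) : ℝ), by simpa using mul_YY_10 (mR_nonpos hT0) (by rw [hre]; linarith only [h5]) (by rw [him]; exact hs), ?_⟩
      rw [hw] at hs ⊢
      have := pos_box (G := N1E 65 29 F_r31d_one 0) (al := [sub (q 5 6) uE, sub uE (q 7 6), neg (yE 65 29), sub (add (var 1) (var 3)) (q 111 1000), sub (q (-22) 1000) (add (var 1) (var 3))]) (fuel := 28)
        (x := w.re) (T := T) (x' := v.re) (t' := v.im)
        r31d_one_h4
        ⟨by norm_num; linarith only [hx], by norm_num; linarith only [hx']⟩ ⟨by norm_num; linarith only [hT], by norm_num; linarith only [hT']⟩ ⟨by norm_num; linarith only [hx', h5], by norm_num; linarith only [hx, h6]⟩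
        ⟨by norm_num; linarith only [i0], by norm_num; linarith only [i1]⟩ (by
          intro e he
          simp only [List.mem_cons, List.not_mem_nil, or_false] at he
          rcases he with rfl | rfl | rfl | rfl | rfl <;> (simp only [E.val, uE_val, yE_val, lkR]; norm_num; linarith only [h5, h6, hs, q1, q0]))
      rw [N1E_val] at this
      linarith only [this]
  · intro h5
    rcases le_total (w.im + v.im) 0 with hs | hs
    · refine ⟨((-1 : ℤ) : ℝ), by simpa using mul_YY_11 (mR_nonpos hT0) (by rw [hre]; linarith only [h5]) (by rw [hre]; linarith only [hx', v1]), ?_⟩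
      rw [hw] at hs ⊢
      have := pos_box (G := B1E 65 29 F_r31d_one (-1)) (al := [sub (q 7 6) uE, yE 65 29, sub (add (var 1) (var 3)) (q 111 1000), sub (q (-22) 1000) (add (var 1) (var 3))]) (fuel := 28)
        (x := w.re) (T := T) (x' := v.re) (t' := v.im)
        r31d_one_h5
        ⟨by norm_num; linarith only [hx], by norm_num; linarith only [hx']⟩ ⟨by norm_num; linarith only [hT], by norm_num; linarith only [hT']⟩ ⟨by norm_num; linarith only [hx', h5], by norm_num; linarith only [v1]⟩
        ⟨by norm_num; linarith only [i0], by norm_num; linarith only [i1]⟩ (by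
          intro e he
          simp only [List.mem_cons, List.not_mem_nil, or_false] at he
          rcases he with rfl | rfl | rfl | rfl <;> (simp only [E.val, uE_val, yE_val, lkR]; norm_num; linarith only [h5, hs, q1, q0]))
      rw [B1E_val] at this
      linarith only [this]
    · refine ⟨((0 : ℤ) : ℝ), by simpa using mul_YY_10 (mR_nonpos hT0) (by rw [hre]; linarith only [h5]) (by rw [him]; exact hs), ?_⟩
      rw [hw] at hs ⊢
      have := pos_box (G := B1E 65 29 F_r31d_one 0) (al := [sub (q 7 6) uE, neg (yE 65 29), sub (add (var 1) (var 3)) (q 111 1000), sub (q (-22) 1000) (add (var 1) (var 3))]) (fuel := 28)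
        (x := w.re) (T := T) (x' := v.re) (t' := v.im)
        r31d_one_h6
        ⟨by norm_num; linarith only [hx], by norm_num; linarith only [hx']⟩ ⟨by norm_num; linarith only [hT], by norm_num; linarith only [hT']⟩ ⟨by norm_num; linarith only [hx', h5], by norm_num; linarith only [v1]⟩
        ⟨by norm_num; linarith only [i0], by norm_num; linarith only [i1]⟩ (by
          intro e he
          simp only [List.mem_cons, List.not_mem_nil, or_false] at he
          rcases he with rfl | rfl | rfl | rfl <;> (simp only [E.val, uE_val, yE_val, lkR]; norm_num; linarith only [h5, hs, q1, q0]))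
      rw [B1E_val] at this
      linarith only [this]

end MR

end Pool.Agent.Work.MP_b30479_gtS.G2

end

section

/-!
# Caps of the slot-2 hinge of an interior region with three crossings: neighbours `1` and `2`

No floors and no other caps are used.
-/

set_option linter.unusedSimpArgs false

namespace Pool.Agent.Work.MP_b30479_gtS.G2

open Finset VOL Filter Topology NumUs

namespace R3V

theorem V3_gain (u v w : ℂ) (c T : ℝ) : V3 u v (c + (T : ℂ) * Complex.I) - V3 u v w =
    gw c T w.re w.im v.re v.im (UU ⟨c + v.re, T + v.im⟩) (UU ⟨w.re + v.re, w.im + v.im⟩) := by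
  have e1 : v + (c + (T : ℂ) * Complex.I) = ⟨c + v.re, T + v.im⟩ := by
    apply Complex.ext <;> simp [add_comm]
  have e2 : v + w = ⟨w.re + v.re, w.im + v.im⟩ := by
    apply Complex.ext <;> simp [add_comm]
  unfold V3 gw
  rw [e1, e2, UU_uu (c + (T : ℂ) * Complex.I), UU_uu w]
  simp only [Complex.add_re, Complex.add_im, Complex.sub_im, Complex.sub_re, Complex.mul_im,
    Complex.mul_re, Complex.ofReal_re, Complex.ofReal_im, Complex.I_re, Complex.I_im, mul_zero,
    mul_one, zero_mul, add_zero, zero_add, sub_zero, sub_self, pow_two]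
  ring

theorem V2_gain (v w : ℂ) (c T : ℝ) : V2 (c + (T : ℂ) * Complex.I) v - V2 w v =
    gw c T w.re w.im v.re v.im (UU ⟨c + v.re, T + v.im⟩) (UU ⟨w.re + v.re, w.im + v.im⟩) := by
  have e1 : (c + (T : ℂ) * Complex.I) + v = ⟨c + v.re, T + v.im⟩ := by
    apply Complex.ext <;> simp
  have e2 : w + v = ⟨w.re + v.re, w.im + v.im⟩ := by
    apply Complex.ext <;> simp
  unfold V2 gw
  rw [e1, e2, UU_uu (c + (T : ℂ) * Complex.I), UU_uu w]
  simp only [Complex.add_re, Complex.add_im, Complex.sub_im, Complex.sub_re, Complex.mul_im,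
    Complex.mul_re, Complex.ofReal_re, Complex.ofReal_im, Complex.I_re, Complex.I_im, mul_zero,
    mul_one, zero_mul, add_zero, zero_add, sub_zero, sub_self, pow_two]
  ring

theorem V1_gain (v w : ℂ) (c T : ℝ) : V1 (c + (T : ℂ) * Complex.I) v - V1 w v =
    g1 c T w.re w.im v.re v.im (UU ⟨c + v.re, T + v.im⟩) (UU ⟨w.re + v.re, w.im + v.im⟩) := by
  have e1 : (c + (T : ℂ) * Complex.I) + v = ⟨c + v.re, T + v.im⟩ := by
    apply Complex.ext <;> simp
  have e2 : w + v = ⟨w.re + v.re, w.im + v.im⟩ := by
    apply Complex.ext <;> simp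
  unfold V1 g1
  rw [e1, e2, UU_uu (c + (T : ℂ) * Complex.I), UU_uu w]
  simp only [Complex.add_re, Complex.add_im, Complex.sub_im, Complex.sub_re, Complex.mul_im,
    Complex.mul_re, Complex.ofReal_re, Complex.ofReal_im, Complex.I_re, Complex.I_im, mul_zero,
    mul_one, zero_mul, add_zero, zero_add, sub_zero, sub_self]
  ring

end R3V

namespace SR

variable {M : ℕ} {b : Fin (M + 1) → ℤ} {zs : DD (tyW b) ⊕ ZZ (tyW b) → ℂ}
variable {y : DD (tyW b) ⊕ ZZ (tyW b) → ℝ}
variable {h h' : Fin M} {i j j' k : Fin (M + 1)} {p : Fin 3}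

/-! ### the total gain of a value move -/

/-- the gain of an interior region with three crossings -/
noncomputable def gn3 (b : Fin (M + 1) → ℤ) (zs : DD (tyW b) ⊕ ZZ (tyW b) → ℂ)
    (y : DD (tyW b) ⊕ ZZ (tyW b) → ℝ) (h : Fin M) (i : Fin (M + 1)) (p q : Fin 3) (c : ℝ) : ℝ :=
  R3V.gw c (ofs (b i) (zs (.inl (.inl h))).im) (Yw b zs y i p).re (Yw b zs y i p).im
    (Yw b zs y i q).re (Yw b zs y i q).im
    (UU ⟨c + (Yw b zs y i q).re, ofs (b i) (zs (.inl (.inl h))).im + (Yw b zs y i q).im⟩)
    (UU ⟨(Yw b zs y i p).re + (Yw b zs y i q).re, (Yw b zs y i p).im + (Yw b zs y i q).im⟩)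

/-- the gain of a digit `±1` -/
noncomputable def gn1 (b : Fin (M + 1) → ℤ) (zs : DD (tyW b) ⊕ ZZ (tyW b) → ℂ)
    (y : DD (tyW b) ⊕ ZZ (tyW b) → ℝ) (h : Fin M) (i : Fin (M + 1)) (p q : Fin 3) (c : ℝ) : ℝ :=
  R3V.g1 c (ofs (b i) (zs (.inl (.inl h))).im) (Yw b zs y i p).re (Yw b zs y i p).im
    (Yw b zs y i q).re (Yw b zs y i q).im
    (UU ⟨c + (Yw b zs y i q).re, ofs (b i) (zs (.inl (.inl h))).im + (Yw b zs y i q).im⟩)
    (UU ⟨(Yw b zs y i p).re + (Yw b zs y i q).re, (Yw b zs y i p).im + (Yw b zs y i q).im⟩)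

theorem gain_three_left (hb : ClassW b) (A : Adj h i 2 j) (hi : clsW b i = .three) {c : ℝ}
    (h0 : wcl b h ≤ c) (h1 : c ≤ wXM b h - wcr b h) :
    dV b i 2 (OY b zs y i) (pw b zs (b i) h c) = gn3 b zs y h i 2 1 c := by
  have ht : tyW b i ≠ .ring := by rw [tyW_of_three hi]; decide
  rw [dV_three2 hb hi, pw_flat _ _ h0 h1, R3V.V3_gain, OY_one ht, OY_two]
  rfl

/-- the total gain at the slot 2 of an interior region with three crossings, the neighbour is a
`2` -/
theorem gain_three_two (hb : ClassW b) (hy : Mx b zs y) (A : Adj h i 2 j)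
    (hi : clsW b i = .three) (hj : clsW b j = .two) {c : ℝ}
    (h0 : wcl b h ≤ c) (h1 : c ≤ wXM b h - wcr b h) :
    gn3 b zs y h i 2 1 c + gn3 b zs y h j 0 2 c ≤ 0 := by
  have hcl := wcl_pos (b := b) h
  have hcr := wcr_pos (b := b) h
  have hv := val_hinge hb hy A (c := c) (by linarith only [h0, hcl]) (by linarith only [h1, hcr])
  have e0 : (2 : Fin 3).rev = 0 := rfl
  have e2 : (0 : Fin 3).rev = 2 := rfl
  have A' := A.symm
  rw [e0] at A' hv
  rw [gain_three_left hb A hi h0 h1, dV_two hb A' (Or.inl hj) (show EndOk j (OY b zs y j) from Ow_endOk _ j), e2,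
    pw_flat _ _ h0 h1, R3V.V2_gain, OY_zero, OY_two] at hv
  exact hv

/-- the total gain at the slot 2 of an interior region with three crossings, the neighbour is a
`1` -/
theorem gain_three_one (hb : ClassW b) (hy : Mx b zs y) (A : Adj h i 2 j)
    (hi : clsW b i = .three) (hj : clsW b j = .one) {c : ℝ}
    (h0 : wcl b h ≤ c) (h1 : c ≤ wXM b h - wcr b h) :
    gn3 b zs y h i 2 1 c + gn1 b zs y h j 0 2 c ≤ 0 := by
  have hcl := wcl_pos (b := b) h
  have hcr := wcr_pos (b := b) h
  have hv := val_hinge hb hy A (c := c) (by linarith only [h0, hcl]) (by linarith only [h1, hcr])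
  have e0 : (2 : Fin 3).rev = 0 := rfl
  have e2 : (0 : Fin 3).rev = 2 := rfl
  have A' := A.symm
  rw [e0] at A' hv
  rw [gain_three_left hb A hi h0 h1, dV_one hb A' hj, e2,
    pw_flat _ _ h0 h1, R3V.V1_gain, OY_zero, OY_two] at hv
  exact hv

/-! ### `3 | 2` -/

/-- **`3 | 2`** with the `3` on the left: the flat end, without any information. -/
theorem cap_three_two (A : Adj h i 2 j) (hb : ClassW b) (hL : Loc b zs) (hX : LocX b zs)
    (hy : Mx b zs y) (h0 : 0 < y (.inl (.inl h))) (hi : clsW b i = .three)
    (hj : clsW b j = .two) : y (.inl (.inl h)) ≤ 30 / 100 := by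
  by_contra hcon
  push Not at hcon
  have hj1 : clsW b j ≠ .one := by rw [hj]; decide
  have hop := A.opp hb (Or.inl (by rw [hi]; decide))
  have hop' : b j * b i < 0 := by rw [mul_comm]; exact hop
  obtain ⟨f1, f2, f3⟩ := A.par_three hi hj1
  have A' := A.symm
  have e0 : (2 : Fin 3).rev = 0 := rfl
  have e2 : (0 : Fin 3).rev = 2 := rfl
  rw [e0] at A'
  -- the heights
  have hT : ofs (b j) (zs (.inl (.inl h))).im = -ofs (b i) (zs (.inl (.inl h))).im := ofs_opp hop _
  obtain ⟨t1, t2⟩ := A.im_three hb hL hi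
  rw [hj] at t1 t2
  norm_num [hbox] at t1 t2
  -- the position
  have hM := (A'.rh hy).reM
  rw [f1, A'.re] at hM
  have hxi := A.re (zs := zs) (y := y)
  have hxj := A'.re (zs := zs) (y := y)
  -- the partner of the `2`
  obtain ⟨h', j', B⟩ := A'.other' b (clsW_inner hb (Or.inr (Or.inl hj)))
  rw [e2] at B
  obtain ⟨k1, k2⟩ := B.im_two hb hL hy hj
  have k3 := (B.rh hy).re0
  have k4 : (Yw b zs y j 2).re ≤ 80 / 100 := by
    have h1 := (B.rh hy).reM
    by_cases hj2 : clsW b j' = .one
    · have h2 : wXM b h' = 80 / 100 := by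
        rw [B.XM_eq b, hj, hj2]
        unfold SR.hpp hp hp1
        split_ifs <;> rfl
      linarith only [h1, h2]
    · rw [B.XM_two hj hj2] at h1
      linarith only [h0, hM, h1]
  -- the two sides
  have hw := A.height_three A' hi hj1 hy hcon
  have hs := A'.side_two (zs := zs) (y := y) hb (Or.inl hj) (slL b zs y h)
  rw [A.slope_three hi hj1 hcon, e2] at hs
  rcases le_total (y (.inl (.inl h))) (56 / 100) with h56 | h56
  · have s1 := A.own_three_two hb hL hX hy hi hj hcon h56
    have s2 := MR.r32o_two (w := Yw b zs y j 0) (v := Yw b zs y j 2)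
      (T := ofs (b j) (zs (.inl (.inl h))).im) (by rw [hT]; linarith only [t2]) (by rw [hT]; linarith only [t1]) hw
      (by rw [hxj]; linarith only [hcon]) (by rw [hxj]; linarith only [h56]) (le_trans (by norm_num) k3) (le_trans k4 (by norm_num)) k1
      (le_trans k2 (by norm_num))
    rw [← hs] at s2
    exact rstep_false hb hy h0 (RStep.of_adj A (c := 0) (fun _ => rfl)
      (e1 := Sw b zs y i 2 (slL b zs y h)) (e2 := Sw b zs y j 0 (slL b zs y h))
      (by rw [hT] at s2; linarith only [s1, s2]) (by linarith only []) (by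
        show Sw b zs y j 0 (slL b zs y h) + 0 * ofs (b j) (slL b zs y h) ≤ _
        linarith only []))
  · rcases le_total (Yw b zs y i 1).re (70 / 100) with hv | hv
    · have s1 := A.own_three_two_b hb hL hX hy hi hj h56 hv
      have s2 := MR.r32o_two_b (w := Yw b zs y j 0) (v := Yw b zs y j 2)
        (T := ofs (b j) (zs (.inl (.inl h))).im) (by rw [hT]; linarith only [t2]) (by rw [hT]; linarith only [t1]) hw
        (by rw [hxj]; linarith only [h56]) (by rw [hxj]; linarith only [hM]) (le_trans (by norm_num) k3) (le_trans k4 (by norm_num)) k1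
        (le_trans k2 (by norm_num))
      rw [← hs] at s2
      exact rstep_false hb hy h0 (RStep.of_adj A (c := 0) (fun _ => rfl)
        (e1 := Sw b zs y i 2 (slL b zs y h)) (e2 := Sw b zs y j 0 (slL b zs y h))
        (by rw [hT] at s2; linarith only [s1, s2]) (by linarith only []) (by
          show Sw b zs y j 0 (slL b zs y h) + 0 * ofs (b j) (slL b zs y h) ≤ _
          linarith only []))
    · obtain ⟨g1, g2, g3, g4⟩ := A.mid_three hb hX hy hi (a := -(116 / 1000)) (c := 5 / 1000)
        (by norm_num) (by norm_num) (fun P => by rw [hj]; cases P <;> norm_num [mw])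
      have q := gain_three_two hb hy A hi hj (c := 20 / 100) (by rw [f2]; norm_num)
        (by rw [f1, f3]; norm_num)
      have q1 := R3V.c2_own (w := Yw b zs y i 2) (v := Yw b zs y i 1)
        (T := ofs (b i) (zs (.inl (.inl h))).im) t1 (le_trans t2 (by norm_num))
        (A.height_three A hi hj1 hy hcon) (by rw [hxi]; linarith only [h56]) (by rw [hxi]; linarith only [hM]) hv g2 g3
        g4
      have q2 := R3V.c2_two (w := Yw b zs y j 0) (v := Yw b zs y j 2)
        (T := ofs (b j) (zs (.inl (.inl h))).im) (by rw [hT]; linarith only [t2]) (by rw [hT]; linarith only [t1]) hw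
        (by rw [hxj]; linarith only [h56]) (by rw [hxj]; linarith only [hM]) k3 (le_trans k4 (by norm_num)) k1
        k2
      unfold gn3 at q
      linarith only [q, q1, q2]

/-! ### `3 | 1` -/

/-- the parameters of the hinge -/
theorem Adj.par_three_one (A : Adj h i 2 j) (hi : clsW b i = .three) (hj : clsW b j = .one) :
    wXM b h = 65 / 100 ∧ wcl b h = 15 / 100 ∧ wcr b h = 29 / 100 := by
  rw [A.XM_eq b, A.cl_eq b, A.cr_eq b, hi, hj]
  unfold hpp
  rw [if_pos rfl]
  simp [hp]

/-- the inner variable, the neighbour in the slot 2 is a `1` -/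
theorem Adj.mid_three_one (A : Adj h i 2 j) (hb : ClassW b) (hX : LocX b zs) (hy : Mx b zs y)
    (hi : clsW b i = .three) (hj : clsW b j = .one) :
    0 ≤ (Yw b zs y i 1).re ∧ (Yw b zs y i 1).re ≤ 8 / 10 ∧
      -(123 / 1000) ≤ (Yw b zs y i 1).im ∧ (Yw b zs y i 1).im ≤ 0 ∧
      ((Yw b zs y i 1).re ≤ 5 / 100 → (Yw b zs y i 1).im ≤ -(3 / 10) * (Yw b zs y i 1).re) ∧
      (5 / 100 ≤ (Yw b zs y i 1).re → (Yw b zs y i 1).re ≤ 75 / 100 →
        (Yw b zs y i 1).im ≤ -(15 / 1000)) ∧
      (75 / 100 ≤ (Yw b zs y i 1).re →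
        (Yw b zs y i 1).im + 3 / 10 * (8 / 10 - (Yw b zs y i 1).re) ≤ 0) := by
  obtain ⟨h', j', A'⟩ := A.other' b (clsW_inner hb (Or.inr (Or.inr hi)))
  have e0 : (2 : Fin 3).rev = 0 := rfl
  rw [e0] at A'
  have hm := tyW_isMid (Or.inl hi)
  obtain ⟨h1, h2, -, -⟩ := hX.mid hm A' A hi
  have h3 := mid_RH hy ⟨i, hm⟩
  have e1 : (wpar b zs).XM (.inr ⟨i, hm⟩) = 80 / 100 := by
    show (mp (clsW b i)).XM = 80 / 100
    rw [hi]; norm_num [mp]
  have e2 : (wpar b zs).cl (.inr ⟨i, hm⟩) = 5 / 100 := by
    show (mp (clsW b i)).cl = 5 / 100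
    rw [hi]; rfl
  have e3 : (wpar b zs).cr (.inr ⟨i, hm⟩) = 5 / 100 := by
    show (mp (clsW b i)).cr = 5 / 100
    rw [hi]; rfl
  rw [e1, e2, e3] at h3
  rw [hj] at h1 h2
  have w1 : -(123 / 1000) ≤ (mw (clsW b j') .one).t0 := by
    generalize clsW b j' = P
    cases P <;> norm_num [mw]
  have w2 : (mw (clsW b j') .one).t1 ≤ -(15 / 1000) := by
    generalize clsW b j' = P
    cases P <;> norm_num [mw]
  have t0 := w1.trans h1
  have t1 := h2.trans w2
  generalize ofs (b i) (zs (.inl (.inr ⟨i, hm⟩))).im = T at h3 t0 t1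
  have h4 := h3.reM
  have h5 := h3.re0
  obtain ⟨k1, k2⟩ := MR.RH_im_mem h3 (a := -(123 / 1000)) (b := 0) (by norm_num) le_rfl t0
    (le_trans t1 (by norm_num))
  refine ⟨h5, by linarith only [hm, h4], k1, k2, fun q => ?_, fun q q' => ?_, fun q => ?_⟩
  · rw [MR.RH_left h3 (by norm_num) (by norm_num) (by norm_num) q]
    nlinarith only [hm, t1, h5]
  · rw [MR.RH_flat h3 (by norm_num) (by norm_num) q (le_trans q' (by norm_num))]
    exact t1
  · rw [MR.RH_right h3 (by norm_num) (by norm_num) (by norm_num) (le_trans (by norm_num) q)]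
    nlinarith only [hm, t1, h4]

/-- the slope on the right ramp -/
theorem Adj.slope_three_one (A : Adj h i 2 j) (hi : clsW b i = .three) (hj : clsW b j = .one)
    (hx : 36 / 100 < y (.inl (.inl h))) (c : ℤ) : ofs c (slL b zs y h) =
      MR.mR 29 (ofs c (zs (.inl (.inl h))).im) := by
  obtain ⟨e1, e2, e3⟩ := A.par_three_one hi hj
  rw [ofs_slL_ramp _ (by rw [e1, e3]; linarith only [hx]), e3]
  unfold MR.mR
  push_cast
  rw [neg_div]

/-- the height on the right ramp -/
theorem Adj.height_three_one {i' j' : Fin (M + 1)} {q : Fin 3} (A : Adj h i 2 j)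
    (A' : Adj h i' q j') (hi : clsW b i = .three) (hj : clsW b j = .one) (hy : Mx b zs y)
    (hx : 36 / 100 < y (.inl (.inl h))) : (Yw b zs y i' q).im =
      MR.tR 65 29 (Yw b zs y i' q).re (ofs (b i') (zs (.inl (.inl h))).im) := by
  obtain ⟨e1, e2, e3⟩ := A.par_three_one hi hj
  have hrh := A'.rh hy
  rw [e1, e2, e3] at hrh
  have h1 := MR.RH_right hrh (by norm_num) (by norm_num) (by norm_num)
    (by rw [A'.re]; linarith only [hx])
  rw [h1]
  unfold MR.tR
  push_cast
  rfl

/-- the caps of `3 | 1`, `Q` the class of the other neighbour of the digit `1` -/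
noncomputable def cap31 (Q : Cl) : ℝ :=
  match Q with
  | .two => 385 / 1000
  | .twoE => 37 / 100
  | _ => 36 / 100

/-- **`3 | 1`** with the `3` on the left, without any information. -/
theorem cap_three_one (A : Adj h i 2 j) (B : Adj h' j 2 k) (hb : ClassW b) (hL : Loc b zs)
    (hX : LocX b zs) (hy : Mx b zs y) (h0 : 0 < y (.inl (.inl h))) (hi : clsW b i = .three)
    (hj : clsW b j = .one) : y (.inl (.inl h)) ≤ cap31 (clsW b k) := by
  by_contra hcon
  push Not at hcon
  have hop := A.opp hb (Or.inl (by rw [hi]; decide))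
  have A' := A.symm
  have e0 : (2 : Fin 3).rev = 0 := rfl
  have e2 : (0 : Fin 3).rev = 2 := rfl
  rw [e0] at A'
  have hT : ofs (b j) (zs (.inl (.inl h))).im = -ofs (b i) (zs (.inl (.inl h))).im := ofs_opp hop _
  obtain ⟨f1, f2, f3⟩ := A.par_three_one hi hj
  have hM := (A'.rh hy).reM
  rw [f1, A'.re] at hM
  have hxi := A.re (zs := zs) (y := y)
  have hxj := A'.re (zs := zs) (y := y)
  obtain ⟨m1, m2, m3, m4, m5, m6, m7⟩ := A.mid_three_one hb hX hy hi hj
  -- the windows
  have B' : Adj h' j (0 : Fin 3).rev k := B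
  have A'' : Adj h j (2 : Fin 3).rev i := A'
  obtain ⟨a0, a1, a2, a3⟩ := hX.win A' B' hj
  obtain ⟨b0, b1, -, -⟩ := hX.win B A'' hj
  rw [hi] at a0 a1 a2 a3 b0 b1
  have hB := B.rh hy
  have hok := okp_of hb B A'' hj
  have hQ : clsW b k = .one ∨ clsW b k = .two ∨ clsW b k = .twoE := by
    rcases hok with h1 | h1
    · exact h1
    · rw [hi] at h1
      simp at h1
  have h36 : 36 / 100 < y (.inl (.inl h)) := by
    rcases hQ with h1 | h1 | h1 <;> rw [h1] at hcon <;> simp only [cap31] at hcon <;> linarith only [hcon, h0]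
  have hwi := A.height_three_one A hi hj hy h36
  have hwj := A.height_three_one A' hi hj hy h36
  have hsi := A.side_three_two (zs := zs) (y := y) hb hi (slL b zs y h)
  have hsj := A'.side_one (zs := zs) (y := y) hb hj (slL b zs y h)
  rw [A.slope_three_one hi hj h36] at hsi hsj
  rw [e2] at hsj
  have fin : ∀ e : ℝ, Sw b zs y i 2 (slL b zs y h) < e → Sw b zs y j 0 (slL b zs y h) < -e →
      False := by
    intro e s1 s2
    exact rstep_false hb hy h0 (RStep.of_adj A (c := 0) (fun _ => rfl)
      (e1 := Sw b zs y i 2 (slL b zs y h)) (e2 := Sw b zs y j 0 (slL b zs y h))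
      (by linarith only [s1, s2]) (by linarith only []) (by
        show Sw b zs y j 0 (slL b zs y h) + 0 * ofs (b j) (slL b zs y h) ≤ _
        linarith only []))
  have q : gn3 b zs y h i 2 1 (26 / 100) + gn1 b zs y h j 0 2 (26 / 100) ≤ 0 :=
    gain_three_one hb hy A hi hj (by rw [f2]; norm_num) (by rw [f1, f3]; norm_num)
  unfold gn3 gn1 at q
  rcases hQ with hk | hk | hk
  · rw [hk] at a0 a1 a2 a3 b0 b1
    norm_num [cw] at a0 a1 a2 a3 b0 b1
    have hcl : wcl b h' = 15 / 100 := by
      rw [B.cl_eq b, hj, hk]; unfold SR.hpp hp; split_ifs <;> rfl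
    have hcr : wcr b h' = 20 / 100 := by
      rw [B.cr_eq b, hj, hk]; unfold SR.hpp hp; split_ifs <;> rfl
    have hXM : 80 / 100 ≤ wXM b h' ∧ wXM b h' ≤ 86 / 100 := by
      rw [B.XM_eq b, hj, hk]; unfold SR.hpp hp; split_ifs <;> norm_num
    rw [hcl, hcr] at hB
    have hP := MR.PH.of_RH hB (by norm_num) (by norm_num) (by linarith only [h0, hM, hXM]) hXM.2
    rcases le_total (1 / 2) (Yw b zs y i 1).re with hv | hv
    · have q1 := R3V.o1_gain (w := Yw b zs y i 2) (v := Yw b zs y i 1)
        (T := ofs (b i) (zs (.inl (.inl h))).im) (by linarith only [hT, a1]) (by linarith only [hT, a0]) hwi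
        (by rw [hxi]; linarith only [h36]) (by rw [hxi]; linarith only [hM]) (le_trans (by norm_num) hv) m2 m3 m4
        (fun r => m6 (le_trans (by norm_num) hv) r) m7
      have q2 := R3V.d1_gain (w := Yw b zs y j 0) (v := Yw b zs y j 2)
        (T := ofs (b j) (zs (.inl (.inl h))).im) (le_trans (by norm_num) a0) (le_trans a1 (by norm_num)) hwj
        (by rw [hxj]; linarith only [h36]) (by rw [hxj]; linarith only [hM]) hP b0 b1
        (le_trans (by norm_num) a2) a3
      rw [hxi] at q1
      rw [hxj] at q2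
      rw [hxi, hxj] at q
      linarith only [q, q1, q2]
    · rcases le_total (y (.inl (.inl h))) (56 / 100) with h56 | h56
      · have s1 := MR.r31_one (w := Yw b zs y i 2) (v := Yw b zs y i 1)
          (T := ofs (b i) (zs (.inl (.inl h))).im) (by linarith only [hT, a1]) (by linarith only [hT, a0]) hwi
          (by rw [hxi]; linarith only [h36]) (by rw [hxi]; linarith only [h56]) m1 (le_trans hv (by norm_num)) m3 m5
          (fun r => m6 r (le_trans hv (by norm_num)))
        have s2 := MR.r31d_one (w := Yw b zs y j 0) (v := Yw b zs y j 2)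
          (T := ofs (b j) (zs (.inl (.inl h))).im) (le_trans (by norm_num) a0) (le_trans a1 (by norm_num)) hwj
          (by rw [hxj]; linarith only [h36]) (by rw [hxj]; linarith only [h56]) hP (le_trans (by norm_num) b0) (le_trans b1 (by norm_num))
          (le_trans (by norm_num) a2) a3
        rw [← hsi] at s1
        rw [← hsj] at s2
        exact fin _ s1 (by rw [hT] at s2; linarith only [s2])
      · have s1 := MR.r31_one_b (w := Yw b zs y i 2) (v := Yw b zs y i 1)
          (T := ofs (b i) (zs (.inl (.inl h))).im) (by linarith only [hT, a1]) (by linarith only [hT, a0]) hwi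
          (by rw [hxi]; linarith only [h56]) (by rw [hxi]; linarith only [hM]) m1 (le_trans hv (by norm_num)) m3 m5
          (fun r => m6 r (le_trans hv (by norm_num)))
        have s2 := MR.r31d_one_b (w := Yw b zs y j 0) (v := Yw b zs y j 2)
          (T := ofs (b j) (zs (.inl (.inl h))).im) (le_trans (by norm_num) a0) (le_trans a1 (by norm_num)) hwj
          (by rw [hxj]; linarith only [h56]) (by rw [hxj]; linarith only [hM]) hP (le_trans (by norm_num) b0) (le_trans b1 (by norm_num))
          (le_trans (by norm_num) a2) a3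
        rw [← hsi] at s1
        rw [← hsj] at s2
        exact fin _ s1 (by rw [hT] at s2; linarith only [s2])
  · rw [hk] at a0 a1 a2 a3 b0 b1 hcon
    norm_num [cw] at a0 a1 a2 a3 b0 b1
    simp only [cap31] at hcon
    have hcl : wcl b h' = 16 / 100 := by
      rw [B.cl_eq b, hj, hk]; unfold SR.hpp hp hp1; split_ifs <;> rfl
    have hcr : wcr b h' = 29 / 100 := by
      rw [B.cr_eq b, hj, hk]; unfold SR.hpp hp hp1; split_ifs <;> rfl
    have hXM : wXM b h' = 80 / 100 := by
      rw [B.XM_eq b, hj, hk]; unfold SR.hpp hp hp1; split_ifs <;> rfl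
    rw [hcl, hcr, hXM] at hB
    have hP := MR.PH.of_RH hB (by norm_num) (by norm_num) (by norm_num) le_rfl
    rcases le_total (1 / 2) (Yw b zs y i 1).re with hv | hv
    · have q1 := R3V.o2_gain (w := Yw b zs y i 2) (v := Yw b zs y i 1)
        (T := ofs (b i) (zs (.inl (.inl h))).im) (by linarith only [hT, a1]) (by linarith only [hT, a0]) hwi
        (by rw [hxi]; linarith only [hcon]) (by rw [hxi]; linarith only [hM]) (le_trans (by norm_num) hv) m2 m3 m4
        (fun r => m6 (le_trans (by norm_num) hv) r) m7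
      have q2 := R3V.d2_gain (w := Yw b zs y j 0) (v := Yw b zs y j 2)
        (T := ofs (b j) (zs (.inl (.inl h))).im) (le_trans (by norm_num) a0) (le_trans a1 (by norm_num)) hwj
        (by rw [hxj]; linarith only [hcon]) (by rw [hxj]; linarith only [hM]) hP (le_trans (by norm_num) b0) b1
        (le_trans a3 (by norm_num))
      rw [hxi] at q1
      rw [hxj] at q2
      rw [hxi, hxj] at q
      linarith only [q, q1, q2]
    · have s1 := MR.r31_two (w := Yw b zs y i 2) (v := Yw b zs y i 1)
        (T := ofs (b i) (zs (.inl (.inl h))).im) (by linarith only [hT, a1]) (by linarith only [hT, a0]) hwi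
        (by rw [hxi]; linarith only [hcon]) (by rw [hxi]; linarith only [hM]) m1 (le_trans hv (by norm_num)) m3 m5
        (fun r => m6 r (le_trans hv (by norm_num)))
      have s2 := MR.r31d_two (w := Yw b zs y j 0) (v := Yw b zs y j 2)
        (T := ofs (b j) (zs (.inl (.inl h))).im) (le_trans (by norm_num) a0) (le_trans a1 (by norm_num)) hwj
        (by rw [hxj]; linarith only [hcon]) (by rw [hxj]; linarith only [hM]) hP (le_trans (by norm_num) b0) (le_trans b1 (by norm_num))
        (le_trans a3 (by norm_num))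
      rw [← hsi] at s1
      rw [← hsj] at s2
      exact fin _ s1 (by rw [hT] at s2; linarith only [s2])
  · rw [hk] at a0 a1 a2 a3 b0 b1 hcon
    norm_num [cw] at a0 a1 a2 a3 b0 b1
    simp only [cap31] at hcon
    have hcl : wcl b h' = 14 / 100 := by
      rw [B.cl_eq b, hj, hk]; unfold SR.hpp hp hp1; split_ifs <;> rfl
    have hcr : wcr b h' = 35 / 100 := by
      rw [B.cr_eq b, hj, hk]; unfold SR.hpp hp hp1; split_ifs <;> rfl
    have hXM : wXM b h' = 70 / 100 := by
      rw [B.XM_eq b, hj, hk]; unfold SR.hpp hp hp1; split_ifs <;> rfl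
    rw [hcl, hcr, hXM] at hB
    have hP := MR.PH.of_RH hB (by norm_num) (by norm_num) (by norm_num) le_rfl
    rcases le_total (1 / 2) (Yw b zs y i 1).re with hv | hv
    · have q1 := R3V.oE_gain (w := Yw b zs y i 2) (v := Yw b zs y i 1)
        (T := ofs (b i) (zs (.inl (.inl h))).im) (by linarith only [hT, a1]) (by linarith only [hT, a0]) hwi
        (by rw [hxi]; linarith only [hcon]) (by rw [hxi]; linarith only [hM]) (le_trans (by norm_num) hv) m2 m3 m4
        (fun r => m6 (le_trans (by norm_num) hv) r) m7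
      have q2 := R3V.dE_gain (w := Yw b zs y j 0) (v := Yw b zs y j 2)
        (T := ofs (b j) (zs (.inl (.inl h))).im) (le_trans (by norm_num) a0) (le_trans a1 (by norm_num)) hwj
        (by rw [hxj]; linarith only [hcon]) (by rw [hxj]; linarith only [hM]) hP (le_trans (by norm_num) b0) (le_trans b1 (by norm_num))
      rw [hxi] at q1
      rw [hxj] at q2
      rw [hxi, hxj] at q
      linarith only [q, q1, q2]
    · rcases le_total (y (.inl (.inl h))) (52 / 100) with h52 | h52
      · have s1 := MR.r31_twoE (w := Yw b zs y i 2) (v := Yw b zs y i 1)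
          (T := ofs (b i) (zs (.inl (.inl h))).im) (by linarith only [hT, a1]) (by linarith only [hT, a0]) hwi
          (by rw [hxi]; linarith only [hcon]) (by rw [hxi]; linarith only [h52]) m1 (le_trans hv (by norm_num)) m3 m5
          (fun r => m6 r (le_trans hv (by norm_num)))
        have s2 := MR.r31d_twoE (w := Yw b zs y j 0) (v := Yw b zs y j 2)
          (T := ofs (b j) (zs (.inl (.inl h))).im) (le_trans (by norm_num) a0) (le_trans a1 (by norm_num)) hwj
          (by rw [hxj]; linarith only [hcon]) (by rw [hxj]; linarith only [h52]) hP (le_trans (by norm_num) b0) (le_trans b1 (by norm_num))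
        rw [← hsi] at s1
        rw [← hsj] at s2
        exact fin _ s1 (by rw [hT] at s2; linarith only [s2])
      · have s1 := MR.r31_twoE_b (w := Yw b zs y i 2) (v := Yw b zs y i 1)
          (T := ofs (b i) (zs (.inl (.inl h))).im) (by linarith only [hT, a1]) (by linarith only [hT, a0]) hwi
          (by rw [hxi]; linarith only [h52]) (by rw [hxi]; linarith only [hM]) m1 (le_trans hv (by norm_num)) m3 m5
          (fun r => m6 r (le_trans hv (by norm_num)))
        have s2 := MR.r31d_twoE_b (w := Yw b zs y j 0) (v := Yw b zs y j 2)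
          (T := ofs (b j) (zs (.inl (.inl h))).im) (le_trans (by norm_num) a0) (le_trans a1 (by norm_num)) hwj
          (by rw [hxj]; linarith only [h52]) (by rw [hxj]; linarith only [hM]) hP (le_trans (by norm_num) b0) (le_trans b1 (by norm_num))
        rw [← hsi] at s1
        rw [← hsj] at s2
        exact fin _ s1 (by rw [hT] at s2; linarith only [s2])

end SR

end Pool.Agent.Work.MP_b30479_gtS.G2

end

section

/-!
# The cap of a hinge between two interior regions with three crossings, given the slot-0 side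
-/

namespace Pool.Agent.Work.MP_b30479_gtS.G2

open Finset VOL Filter Topology

namespace SR

variable {M : ℕ} {b : Fin (M + 1) → ℤ} {zs : DD (tyW b) ⊕ ZZ (tyW b) → ℂ}
variable {y : DD (tyW b) ⊕ ZZ (tyW b) → ℝ}
variable {h : Fin M} {i j : Fin (M + 1)}

/-- `3 | 3` in `(.31, .50]`; `hS1`, `hS2`: the side of the right region -/
theorem cap33_31 (A : Adj h i 2 j) (hb : ClassW b) (hL : Loc b zs) (hX : LocX b zs)
    (hy : Mx b zs y) (h0 : 0 < y (.inl (.inl h))) (hi : clsW b i = .three)
    (hj : clsW b j = .three) (h50 : y (.inl (.inl h)) ≤ 1 / 2)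
    (hS1 : 30 / 100 < y (.inl (.inl h)) → y (.inl (.inl h)) ≤ 40 / 100 →
      Sw b zs y j 0 (slL b zs y h) < 66 / 100 - 3 / 2 * y (.inl (.inl h)))
    (hS2 : 40 / 100 < y (.inl (.inl h)) → y (.inl (.inl h)) ≤ 1 / 2 →
      Sw b zs y j 0 (slL b zs y h) < 0) :
    y (.inl (.inl h)) ≤ 31 / 100 := by
  by_contra hcon
  push Not at hcon
  have fin : Sw b zs y i 2 (slL b zs y h) + Sw b zs y j 0 (slL b zs y h) < 0 → False := by
    intro hs
    exact rstep_false hb hy h0 (RStep.of_adj A (c := 0) (fun _ => rfl)
      (e1 := Sw b zs y i 2 (slL b zs y h)) (e2 := Sw b zs y j 0 (slL b zs y h))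
      hs (by linarith only []) (by
        show Sw b zs y j 0 (slL b zs y h) + 0 * ofs (b j) (slL b zs y h) ≤ _
        linarith only []))
  rcases le_total (y (.inl (.inl h))) (36 / 100) with h36 | h36
  · have s1 := A.own_three_three hb hL hX hy hi hj (by linarith only [h0, hcon]) h36
    have s2 := hS1 (by linarith only [h0, hcon]) (by linarith only [h0, h36])
    obtain ⟨t1, t2⟩ := A.im_three hb hL hi
    rw [hj] at t1 t2
    norm_num [hbox] at t1 t2
    exact fin (by linarith only [h0, hcon, s1, s2, t2])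
  · have s1 := A.own_three_three_b hb hL hX hy hi hj h36
    rcases le_or_gt (y (.inl (.inl h))) (40 / 100) with h40 | h40
    · have s2 := hS1 (by linarith only [h0, hcon]) h40
      exact fin (by linarith only [h0, hcon, s1, s2])
    · have s2 := hS2 h40 h50
      exact fin (by linarith only [h0, h50, s1, s2])

/-- **`3 | 3`**: the flat end; `hS1`, `hS2`: the side of the right region, `hN`: the height of the
inner variable of the left region -/
theorem cap33_30 (A : Adj h i 2 j) (hb : ClassW b) (hL : Loc b zs) (hX : LocX b zs)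
    (hy : Mx b zs y) (h0 : 0 < y (.inl (.inl h))) (hi : clsW b i = .three)
    (hj : clsW b j = .three)
    (hN : 0 ≤ ofs (b i) (zs (.inl (.inl h))).im → ∀ hm : (tyW b i).isMid = true,
      ofs (b i) (zs (.inl (.inr ⟨i, hm⟩))).im ≤ -(5 / 1000))
    (h50 : y (.inl (.inl h)) ≤ 1 / 2)
    (hS1 : 30 / 100 < y (.inl (.inl h)) → y (.inl (.inl h)) ≤ 40 / 100 →
      Sw b zs y j 0 (slL b zs y h) < 66 / 100 - 3 / 2 * y (.inl (.inl h)))
    (hS2 : 40 / 100 < y (.inl (.inl h)) → y (.inl (.inl h)) ≤ 1 / 2 →
      Sw b zs y j 0 (slL b zs y h) < 0) :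
    y (.inl (.inl h)) ≤ 30 / 100 := by
  by_contra hcon
  push Not at hcon
  have h31 := cap33_31 A hb hL hX hy h0 hi hj h50 hS1 hS2
  have hj1 : clsW b j ≠ .one := by rw [hj]; decide
  have s2 := hS1 hcon (by linarith only [hcon, h31])
  obtain ⟨t1, t2⟩ := A.im_three hb hL hi
  rw [hj] at t1 t2
  norm_num [hbox] at t1 t2
  have fin : Sw b zs y i 2 (slL b zs y h) < -(21 / 100) → False := by
    intro hs
    exact rstep_false hb hy h0 (RStep.of_adj A (c := 0) (fun _ => rfl)
      (e1 := Sw b zs y i 2 (slL b zs y h)) (e2 := Sw b zs y j 0 (slL b zs y h))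
      (by linarith only [hcon, s2, hs]) (by linarith only []) (by
        show Sw b zs y j 0 (slL b zs y h) + 0 * ofs (b j) (slL b zs y h) ≤ _
        linarith only []))
  rcases le_total (ofs (b i) (zs (.inl (.inl h))).im) 0 with hT | hT
  · have s1 := A.own_three_three hb hL hX hy hi hj hcon (by linarith only [hcon, h31])
    exact fin (by linarith only [hcon, h31, hT, s1])
  · obtain ⟨g1, g2, g3, g4⟩ := A.mid_three hb hX hy hi (a := -(116 / 1000)) (c := 5 / 1000)
      (by norm_num) (by norm_num) (fun P => by rw [hj]; cases P <;> norm_num [mw])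
    have hm := tyW_isMid (Or.inl hi)
    have hn := hN hT hm
    have h3 := mid_RH hy ⟨i, hm⟩
    have e1 : (wpar b zs).XM (.inr ⟨i, hm⟩) = 80 / 100 := by
      show (mp (clsW b i)).XM = 80 / 100
      rw [hi]; norm_num [mp]
    have e2 : (wpar b zs).cl (.inr ⟨i, hm⟩) = 5 / 100 := by
      show (mp (clsW b i)).cl = 5 / 100
      rw [hi]; rfl
    have e3 : (wpar b zs).cr (.inr ⟨i, hm⟩) = 5 / 100 := by
      show (mp (clsW b i)).cr = 5 / 100
      rw [hi]; rfl
    rw [e1, e2, e3] at h3
    have h5 : (Yw b zs y i 1).im ≤ 0 := by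
      rw [h3.im]
      exact mul_nonpos_of_nonpos_of_nonneg (by linarith only [hm, hcon, h31, hn]) (le_max_left _ _)
    have h6 : 5 / 100 ≤ (Yw b zs y i 1).re → (Yw b zs y i 1).re ≤ 75 / 100 →
        (Yw b zs y i 1).im ≤ -(50 / 10000) := by
      intro q q'
      rw [MR.RH_flat h3 (by norm_num) (by norm_num) q (by linarith only [hm, q'])]
      linarith only [hm, hn]
    have hxi := A.re (zs := zs) (y := y)
    have s1 := MR.r33_lo (w := Yw b zs y i 2) (v := Yw b zs y i 1)
      (T := ofs (b i) (zs (.inl (.inl h))).im) hT (by linarith only [t2])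
      (A.height_three A hi hj1 hy hcon) (by rw [hxi]; linarith only [hcon]) (by rw [hxi]; linarith only [h31])
      g1 g2 (by linarith only [g3]) h5 h6
    have e := A.side_three_two (zs := zs) (y := y) hb hi (slL b zs y h)
    rw [A.slope_three hi hj1 hcon] at e
    rw [← e] at s1
    exact fin (by linarith only [hcon, h31, s1])

end SR

end Pool.Agent.Work.MP_b30479_gtS.G2

end

section

/-!
# Value move at `3 | 1` near the flat end: gains
-/

set_option linter.unusedVariables false
set_option linter.unusedTactic false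
set_option linter.unreachableTactic false
set_option linter.unusedSimpArgs false
set_option linter.unnecessarySeqFocus false

namespace Pool.Agent.Work.MP_b30479_gtS.G2

open VOL NumUs

namespace R3V

open E

/-- gain of the `3`, the other neighbour of the digit is an interior `2` -/
theorem p2_gain {w v : ℂ} {T : ℝ} (hT : -(940 / 10000) ≤ T) (hT' : T ≤ -(460 / 10000))
    (hw : w.im = MR.tR 65 29 w.re T) (hx : 3600 / 10000 ≤ w.re) (hx' : w.re ≤ 3850 / 10000)
    (v0 : 50 / 100 ≤ v.re) (v1 : v.re ≤ 8 / 10) (i0 : -(123 / 1000) ≤ v.im) (i1 : v.im ≤ 0)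
    (i2 : v.re ≤ 75 / 100 → v.im ≤ -(15 / 1000))
    (i3 : 75 / 100 ≤ v.re → v.im + 3 / 10 * (8 / 10 - v.re) ≤ 0) :
    64 / 1000 + 27 / 100 * (T + 46 / 1000) + (w.re - 36 / 100) < gw (26 / 100) T w.re w.im v.re v.im
      (UU ⟨26 / 100 + v.re, T + v.im⟩) (UU ⟨w.re + v.re, w.im + v.im⟩) := by
  have hs0 := MR.im_le0 (XM := 65) (cr := 29) (x := w.re) (T := T) (by linarith only [hT'])
    (by norm_num; linarith only [hx'])
  rw [hw]
  have hs : MR.tR 65 29 w.re T + v.im ≤ 0 := by linarith only [i1, hs0]
  rcases le_total (26 / 100 + v.re) (11 / 12) with p1 | p1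
  · rcases le_total (w.re + v.re) (11 / 12) with q1 | q1
    · have j2 := i2 (by linarith only [v1, p1])
      have := p2_11 (x := w.re) (T := T) (m := v.re) (t := v.im)
        ⟨by linarith only [hx], by linarith only [hx']⟩ ⟨by linarith only [hT], by linarith only [hT']⟩ ⟨by linarith only [v0], by linarith only [hx, q1]⟩ ⟨by linarith only [i0], by linarith only [j2]⟩
        (by linarith only [p1]) (by linarith only [q1])
      exact this.trans_le (gw_mono (lb1 _ _ _) (ub1 _ _ _))
    rcases le_total (w.re + v.re) 1 with q2 | q2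
    · have j2 := i2 (by linarith only [v1, p1])
      have := p2_12 (x := w.re) (T := T) (m := v.re) (t := v.im)
        ⟨by linarith only [hx], by linarith only [hx']⟩ ⟨by linarith only [hT], by linarith only [hT']⟩ ⟨by linarith only [hx', q1], by linarith only [hx, q2]⟩ ⟨by linarith only [i0], by linarith only [j2]⟩
        (by linarith only [p1]) (by linarith only [q1]) (by linarith only [q2])
      exact this.trans_le (gw_mono (lb1 _ _ _) (ub2 _ (by linarith only [q1]) (by linarith only [hx', p1])))
    rcases le_total (w.re + v.re) (13 / 12) with q3 | q3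
    · have j2 := i2 (by linarith only [v1, p1])
      have := p2_13 (x := w.re) (T := T) (m := v.re) (t := v.im)
        ⟨by linarith only [hx], by linarith only [hx']⟩ ⟨by linarith only [hT], by linarith only [hT']⟩ ⟨by linarith only [hx', q2], by linarith only [p1]⟩ ⟨by linarith only [i0], by linarith only [j2]⟩
        (by linarith only [p1]) (by linarith only [q2]) (by linarith only [hx', p1])
      exact this.trans_le (gw_mono (lb1 _ _ _) (ub3 (abs_eq_neg hs) (by linarith only [q2]) (by linarith only [hx', v1, p1])))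
    exfalso; linarith only [hx', p1, q3]
  rcases le_total (26 / 100 + v.re) 1 with p2 | p2
  · rcases le_total (w.re + v.re) (11 / 12) with q1 | q1
    · exfalso; linarith only [hx, p1, q1]
    rcases le_total (w.re + v.re) 1 with q2 | q2
    · exfalso; linarith only [hx, p1, q2]
    rcases le_total (w.re + v.re) (13 / 12) with q3 | q3
    · have j2 := i2 (by linarith only [v1, p2])
      have := p2_23 (x := w.re) (T := T) (m := v.re) (t := v.im)
        ⟨by linarith only [hx], by linarith only [hx']⟩ ⟨by linarith only [hT], by linarith only [hT']⟩ ⟨by linarith only [p1], by linarith only [hx, q3]⟩ ⟨by linarith only [i0], by linarith only [j2]⟩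
        (by linarith only [p1]) (by linarith only [p2]) (by linarith only [hx, p1]) (by linarith only [q3])
      exact this.trans_le (gw_mono (lb2 (sg_neg _) (by linarith only [p1]) (by linarith only [p2])) (ub3 (abs_eq_neg hs) (by linarith only [hx, p1]) (by linarith only [hx', v1, p2])))
    have j2 := i2 (by linarith only [v1, p2])
    have := p2_24 (x := w.re) (T := T) (m := v.re) (t := v.im)
      ⟨by linarith only [hx], by linarith only [hx']⟩ ⟨by linarith only [hT], by linarith only [hT']⟩ ⟨by linarith only [hx', q3], by linarith only [p2]⟩ ⟨by linarith only [i0], by linarith only [j2]⟩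
      (by linarith only [hx', q3]) (by linarith only [p2]) (by linarith only [q3])
    exact this.trans_le (gw_mono (lb2 (sg_neg _) (by linarith only [hx', q3]) (by linarith only [p2])) (ub4 (abs_eq_neg hs)))
  rcases le_total (26 / 100 + v.re) (13 / 12) with p3 | p3
  · rcases le_total (w.re + v.re) (11 / 12) with q1 | q1
    · exfalso; linarith only [hx, p2, q1]
    rcases le_total (w.re + v.re) 1 with q2 | q2
    · exfalso; linarith only [hx, p2, q2]
    rcases le_total (w.re + v.re) (13 / 12) with q3 | q3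
    · exfalso; linarith only [hx, p2, q3]
    rcases le_total v.re (75 / 100) with r | r
    · have := i2 r
      have := p2_34 (x := w.re) (T := T) (m := v.re) (t := v.im)
        ⟨by linarith only [hx], by linarith only [hx']⟩ ⟨by linarith only [hT], by linarith only [hT']⟩ ⟨by linarith only [p2], by linarith only [r]⟩ ⟨by linarith only [i0], by linarith only [this]⟩
        (by linarith only [p2]) (by linarith only [hx, p2])
      exact this.trans_le (gw_mono (lb3 (sg_neg _) (by linarith only [p2]) (by linarith only [v1])) (ub4 (abs_eq_neg hs)))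
    · have := i3 r
      have := p2_34r (x := w.re) (T := T) (m := v.re) (t := v.im)
        ⟨by linarith only [hx], by linarith only [hx']⟩ ⟨by linarith only [hT], by linarith only [hT']⟩ ⟨by linarith only [r], by linarith only [v1]⟩ ⟨by linarith only [i0], by linarith only [i1]⟩
        (by linarith only [r]) (by linarith only [hx, r]) (by linarith only [this])
      exact this.trans_le (gw_mono (lb3 (sg_neg _) (by linarith only [r]) (by linarith only [v1])) (ub4 (abs_eq_neg hs)))
  rcases le_total (w.re + v.re) (11 / 12) with q1 | q1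
  · exfalso; linarith only [v1, p3]
  rcases le_total (w.re + v.re) 1 with q2 | q2
  · exfalso; linarith only [v1, p3]
  rcases le_total (w.re + v.re) (13 / 12) with q3 | q3
  · exfalso; linarith only [v1, p3]
  exfalso; linarith only [v1, p3]

/-- gain of the `3`, the other neighbour of the digit is a `2` at an end -/
theorem pE_gain {w v : ℂ} {T : ℝ} (hT : -(1145 / 10000) ≤ T) (hT' : T ≤ -(870 / 10000))
    (hw : w.im = MR.tR 65 29 w.re T) (hx : 3600 / 10000 ≤ w.re) (hx' : w.re ≤ 3700 / 10000)
    (v0 : 50 / 100 ≤ v.re) (v1 : v.re ≤ 8 / 10) (i0 : -(123 / 1000) ≤ v.im) (i1 : v.im ≤ 0)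
    (i2 : v.re ≤ 75 / 100 → v.im ≤ -(15 / 1000))
    (i3 : 75 / 100 ≤ v.re → v.im + 3 / 10 * (8 / 10 - v.re) ≤ 0) :
    35 / 1000 < gw (26 / 100) T w.re w.im v.re v.im
      (UU ⟨26 / 100 + v.re, T + v.im⟩) (UU ⟨w.re + v.re, w.im + v.im⟩) := by
  have hs0 := MR.im_le0 (XM := 65) (cr := 29) (x := w.re) (T := T) (by linarith only [hT'])
    (by norm_num; linarith only [hx'])
  rw [hw]
  have hs : MR.tR 65 29 w.re T + v.im ≤ 0 := by linarith only [i1, hs0]
  rcases le_total (26 / 100 + v.re) (11 / 12) with p1 | p1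
  · rcases le_total (w.re + v.re) (11 / 12) with q1 | q1
    · have j2 := i2 (by linarith only [v1, p1])
      have := pE_11 (x := w.re) (T := T) (m := v.re) (t := v.im)
        ⟨by linarith only [hx], by linarith only [hx']⟩ ⟨by linarith only [hT], by linarith only [hT']⟩ ⟨by linarith only [v0], by linarith only [hx, q1]⟩ ⟨by linarith only [i0], by linarith only [j2]⟩
        (by linarith only [p1]) (by linarith only [q1])
      exact this.trans_le (gw_mono (lb1 _ _ _) (ub1 _ _ _))
    rcases le_total (w.re + v.re) 1 with q2 | q2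
    · have j2 := i2 (by linarith only [v1, p1])
      have := pE_12 (x := w.re) (T := T) (m := v.re) (t := v.im)
        ⟨by linarith only [hx], by linarith only [hx']⟩ ⟨by linarith only [hT], by linarith only [hT']⟩ ⟨by linarith only [hx', q1], by linarith only [hx, q2]⟩ ⟨by linarith only [i0], by linarith only [j2]⟩
        (by linarith only [p1]) (by linarith only [q1]) (by linarith only [q2])
      exact this.trans_le (gw_mono (lb1 _ _ _) (ub2 _ (by linarith only [q1]) (by linarith only [hx', p1])))
    rcases le_total (w.re + v.re) (13 / 12) with q3 | q3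
    · have j2 := i2 (by linarith only [v1, p1])
      have := pE_13 (x := w.re) (T := T) (m := v.re) (t := v.im)
        ⟨by linarith only [hx], by linarith only [hx']⟩ ⟨by linarith only [hT], by linarith only [hT']⟩ ⟨by linarith only [hx', q2], by linarith only [p1]⟩ ⟨by linarith only [i0], by linarith only [j2]⟩
        (by linarith only [p1]) (by linarith only [q2]) (by linarith only [hx', p1])
      exact this.trans_le (gw_mono (lb1 _ _ _) (ub3 (abs_eq_neg hs) (by linarith only [q2]) (by linarith only [hx', v1, p1])))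
    exfalso; linarith only [hx', p1, q3]
  rcases le_total (26 / 100 + v.re) 1 with p2 | p2
  · rcases le_total (w.re + v.re) (11 / 12) with q1 | q1
    · exfalso; linarith only [hx, p1, q1]
    rcases le_total (w.re + v.re) 1 with q2 | q2
    · exfalso; linarith only [hx, p1, q2]
    rcases le_total (w.re + v.re) (13 / 12) with q3 | q3
    · have j2 := i2 (by linarith only [v1, p2])
      have := pE_23 (x := w.re) (T := T) (m := v.re) (t := v.im)
        ⟨by linarith only [hx], by linarith only [hx']⟩ ⟨by linarith only [hT], by linarith only [hT']⟩ ⟨by linarith only [p1], by linarith only [hx, q3]⟩ ⟨by linarith only [i0], by linarith only [j2]⟩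
        (by linarith only [p1]) (by linarith only [p2]) (by linarith only [hx, p1]) (by linarith only [q3])
      exact this.trans_le (gw_mono (lb2 (sg_neg _) (by linarith only [p1]) (by linarith only [p2])) (ub3 (abs_eq_neg hs) (by linarith only [hx, p1]) (by linarith only [hx', v1, p2])))
    have j2 := i2 (by linarith only [v1, p2])
    have := pE_24 (x := w.re) (T := T) (m := v.re) (t := v.im)
      ⟨by linarith only [hx], by linarith only [hx']⟩ ⟨by linarith only [hT], by linarith only [hT']⟩ ⟨by linarith only [hx', q3], by linarith only [p2]⟩ ⟨by linarith only [i0], by linarith only [j2]⟩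
      (by linarith only [hx', q3]) (by linarith only [p2]) (by linarith only [q3])
    exact this.trans_le (gw_mono (lb2 (sg_neg _) (by linarith only [hx', q3]) (by linarith only [p2])) (ub4 (abs_eq_neg hs)))
  rcases le_total (26 / 100 + v.re) (13 / 12) with p3 | p3
  · rcases le_total (w.re + v.re) (11 / 12) with q1 | q1
    · exfalso; linarith only [hx, p2, q1]
    rcases le_total (w.re + v.re) 1 with q2 | q2
    · exfalso; linarith only [hx, p2, q2]
    rcases le_total (w.re + v.re) (13 / 12) with q3 | q3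
    · exfalso; linarith only [hx, p2, q3]
    rcases le_total v.re (75 / 100) with r | r
    · have := i2 r
      have := pE_34 (x := w.re) (T := T) (m := v.re) (t := v.im)
        ⟨by linarith only [hx], by linarith only [hx']⟩ ⟨by linarith only [hT], by linarith only [hT']⟩ ⟨by linarith only [p2], by linarith only [r]⟩ ⟨by linarith only [i0], by linarith only [this]⟩
        (by linarith only [p2]) (by linarith only [hx, p2])
      exact this.trans_le (gw_mono (lb3 (sg_neg _) (by linarith only [p2]) (by linarith only [v1])) (ub4 (abs_eq_neg hs)))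
    · have := i3 r
      have := pE_34r (x := w.re) (T := T) (m := v.re) (t := v.im)
        ⟨by linarith only [hx], by linarith only [hx']⟩ ⟨by linarith only [hT], by linarith only [hT']⟩ ⟨by linarith only [r], by linarith only [v1]⟩ ⟨by linarith only [i0], by linarith only [i1]⟩
        (by linarith only [r]) (by linarith only [hx, r]) (by linarith only [this])
      exact this.trans_le (gw_mono (lb3 (sg_neg _) (by linarith only [r]) (by linarith only [v1])) (ub4 (abs_eq_neg hs)))
  rcases le_total (w.re + v.re) (11 / 12) with q1 | q1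
  · exfalso; linarith only [v1, p3]
  rcases le_total (w.re + v.re) 1 with q2 | q2
  · exfalso; linarith only [v1, p3]
  rcases le_total (w.re + v.re) (13 / 12) with q3 | q3
  · exfalso; linarith only [v1, p3]
  exfalso; linarith only [v1, p3]

/-- gain of the digit, its other neighbour is an interior `2` -/
theorem e2_gain {w v : ℂ} {T : ℝ} (hT : 460 / 10000 ≤ T) (hT' : T ≤ 940 / 10000)
    (hw : w.im = MR.tR 65 29 w.re T) (hx : 3600 / 10000 ≤ w.re) (hx' : w.re ≤ 3850 / 10000)
    (v0 : 2276 / 10000 ≤ v.re) (v1 : v.re ≤ 5600 / 10000) (i0 : 80 / 10000 ≤ v.im) (i1 : v.im ≤ 770 / 10000)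
    (s1 : T + v.im ≤ 148 / 1000) (f1 : 226 / 1000 + 2 / 10 * v.im ≤ v.re) :
    -(64 / 1000 + -(27 / 100) * (T + -(46 / 1000)) + (w.re - 36 / 100)) < g1 (26 / 100) T w.re w.im v.re v.im
      (UU ⟨26 / 100 + v.re, T + v.im⟩) (UU ⟨w.re + v.re, w.im + v.im⟩) := by
  have hs0 := MR.im_ge0 (XM := 65) (cr := 29) (x := w.re) (T := T) (by linarith only [hT])
    (by norm_num; linarith only [hx'])
  rw [hw]
  have hs : 0 ≤ MR.tR 65 29 w.re T + v.im := by linarith only [i0, hs0]
  have p1 : 26 / 100 + v.re ≤ 11 / 12 := by linarith only [v1]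
  rcases le_total (w.re + v.re) (11 / 12) with q1 | q1
  · have := e2_11 (x := w.re) (T := T) (m := v.re) (t := v.im)
      ⟨by linarith only [hx], by linarith only [hx']⟩ ⟨by linarith only [hT], by linarith only [hT']⟩ ⟨by linarith only [v0], by linarith only [hx, q1]⟩ ⟨by linarith only [i0], by linarith only [i1]⟩
      (by linarith only [q1]) (by linarith only [s1]) (by linarith only [f1])
    exact this.trans_le (g1_mono (lb1 _ _ _) (ub1 _ _ _))
  · have q2 : w.re + v.re ≤ 1 := by linarith only [hx', v1]
    have := e2_12 (x := w.re) (T := T) (m := v.re) (t := v.im)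
      ⟨by linarith only [hx], by linarith only [hx']⟩ ⟨by linarith only [hT], by linarith only [hT']⟩ ⟨by linarith only [hx', q1], by linarith only [v1]⟩ ⟨by linarith only [i0], by linarith only [i1]⟩
      (by linarith only [q1]) (by linarith only [hx', v1]) (by linarith only [s1]) (by linarith only [hx', i1, q1])
    exact this.trans_le (g1_mono (lb1 _ _ _) (ub2 _ (by linarith only [q1]) (by linarith only [hx', v1])))

/-- gain of the digit, its other neighbour is a `2` at an end -/
theorem eE_gain {w v : ℂ} {T : ℝ} (hT : 870 / 10000 ≤ T) (hT' : T ≤ 1145 / 10000)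
    (hw : w.im = MR.tR 65 29 w.re T) (hx : 3600 / 10000 ≤ w.re) (hx' : w.re ≤ 3700 / 10000)
    (v0 : 1400 / 10000 ≤ v.re) (v1 : v.re ≤ 3700 / 10000) (i0 : -(450 / 10000) ≤ v.im) (i1 : v.im ≤ -(235 / 10000)) :
    -(35 / 1000) < g1 (26 / 100) T w.re w.im v.re v.im
      (UU ⟨26 / 100 + v.re, T + v.im⟩) (UU ⟨w.re + v.re, w.im + v.im⟩) := by
  have hs0 := MR.im_ge0 (XM := 65) (cr := 29) (x := w.re) (T := T) (by linarith only [hT])
    (by norm_num; linarith only [hx'])
  rw [hw]
  have p1 : 26 / 100 + v.re ≤ 11 / 12 := by linarith only [v1]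
  have := eE_11 (x := w.re) (T := T) (m := v.re) (t := v.im)
    ⟨by linarith only [hx], by linarith only [hx']⟩ ⟨by linarith only [hT], by linarith only [hT']⟩ ⟨by linarith only [v0], by linarith only [v1]⟩ ⟨by linarith only [i0], by linarith only [i1]⟩
  exact this.trans_le (g1_mono (lb1 _ _ _) (ub1 _ _ _))

end R3V

end Pool.Agent.Work.MP_b30479_gtS.G2

end

section

/-!
# The slot-2 hinge of an interior region with three crossings next to a digit `±1` is on its flat part

Uses the floors `F2` and the caps of the hinges of the digits `2`.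
-/

set_option linter.unusedSimpArgs false

namespace Pool.Agent.Work.MP_b30479_gtS.G2

open Finset VOL Filter Topology NumUs

namespace SR

variable {M : ℕ} {b : Fin (M + 1) → ℤ} {zs : DD (tyW b) ⊕ ZZ (tyW b) → ℂ}
variable {y : DD (tyW b) ⊕ ZZ (tyW b) → ℝ}
variable {h h' : Fin M} {i j j' k : Fin (M + 1)} {p : Fin 3}

theorem Adj.flat_left38 (A : Adj h i p j) (hy : Mx b zs y) (h0 : wcl b h ≤ y (.inl (.inl h)))
    (h1 : y (.inl (.inl h)) < wXM b h - wcr b h)
    (hs : 0 < Sw b zs y i p 0 + Sw b zs y j p.rev 0) : False := by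
  cases A
  · exact flat_false_left hy h h0 h1 hs
  · exact flat_false_left hy h h0 h1 (by rw [add_comm]; exact hs)

/-- the parameters of a hinge `1 | 2`, the `1` on the left -/
theorem Adj.par38_two (B : Adj h j 2 k) (hj : clsW b j = .one) (hk : clsW b k = .two) :
    wXM b h = 80 / 100 ∧ wcl b h = 16 / 100 ∧ wcr b h = 29 / 100 := by
  rw [B.XM_eq b, B.cl_eq b, B.cr_eq b, hj, hk]
  unfold SR.hpp hp hp1
  rw [if_pos rfl]
  simp

/-- the parameters of a hinge `1 | 2`, the `1` on the left -/
theorem Adj.par38_twoE (B : Adj h j 2 k) (hj : clsW b j = .one) (hk : clsW b k = .twoE) :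
    wXM b h = 70 / 100 ∧ wcl b h = 14 / 100 ∧ wcr b h = 35 / 100 := by
  rw [B.XM_eq b, B.cl_eq b, B.cr_eq b, hj, hk]
  unfold SR.hpp hp hp1
  rw [if_pos rfl]
  simp

/-- conditional floor of the hinge `1 | 2` of a digit `1` right of an interior region with three
crossings -/
theorem cf31_two (A : Adj h i 2 j) (B : Adj h' j 2 k) (hb : ClassW b) (hL : Loc b zs)
    (hX : LocX b zs) (hy : Mx b zs y) (hF : Flr b y F2)
    (h2 : ∀ {h : Fin M} {i j : Fin (M + 1)} {p : Fin 3}, Adj h i p j → clsW b i = .two →
      y (.inl (.inl h)) ≤ 56 / 100)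
    (hi : clsW b i = .three) (hj : clsW b j = .one) (hk : clsW b k = .two)
    (hx : 36 / 100 < y (.inl (.inl h))) (hx' : y (.inl (.inl h)) ≤ 385 / 1000) :
    226 / 1000 + 2 / 10 * ofs (b j) (zs (.inl (.inl h'))).im ≤ y (.inl (.inl h')) := by
  by_contra hcon
  push Not at hcon
  have e0 : (2 : Fin 3).rev = 0 := rfl
  have e2 : (0 : Fin 3).rev = 2 := rfl
  have A' := A.symm
  rw [e0] at A'
  have B' : Adj h' j (0 : Fin 3).rev k := B
  have A'' : Adj h j (2 : Fin 3).rev i := A'
  obtain ⟨a0, a1, a2, a3⟩ := hX.win A' B' hj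
  obtain ⟨b0, b1, -, -⟩ := hX.win B A'' hj
  rw [hi, hk] at a0 a1 a2 a3 b0 b1
  norm_num [cw] at a0 a1 a2 a3 b0 b1
  obtain ⟨p1, p2, p3⟩ := B.par38_two hj hk
  have hop := B.opp hb (Or.inl (by rw [hj]; decide))
  have hf := hF B
  rw [hj, hk] at hf
  norm_num [F2] at hf
  have hBj := B.rh hy
  have hBk := B.symm.rh hy
  have rj := B.re (zs := zs) (y := y)
  have rk := B.symm.re (zs := zs) (y := y)
  rw [e0] at hBk rk
  rw [p1, p2, p3] at hBj hBk
  have ij := MR.RH_flat hBj (by norm_num) (by norm_num) (by rw [rj]; linarith only [hf])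
    (by rw [rj]; linarith only [hx, hx', hcon, a0, a3])
  have ik := MR.RH_flat hBk (by norm_num) (by norm_num) (by rw [rk]; linarith only [hf])
    (by rw [rk]; linarith only [hx, hx', hcon, a0, a3])
  have hT2 : ofs (b k) (zs (.inl (.inl h'))).im = -ofs (b j) (zs (.inl (.inl h'))).im :=
    ofs_opp hop _
  rw [hT2] at ik
  have hv := A.height_three_one A' hi hj hy hx
  have rv := A'.re (zs := zs) (y := y)
  have s1 := MR.r36f_one (w := Yw b zs y j 2) (v := Yw b zs y j 0)
    (T := ofs (b j) (zs (.inl (.inl h))).im) (K := ofs (b j) (zs (.inl (.inl h'))).im)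
    (by rw [rj]; linarith only [hf]) (by rw [rj]; linarith only [hcon]) ij (by linarith only [b0]) (by linarith only [b1])
    (by rw [rv]; linarith only [hx]) (by rw [rv]; linarith only [hx']) (by rw [hv]; unfold MR.tR; push_cast; ring)
    (by linarith only [a0]) (by linarith only [a1]) (by linarith only [a2]) (by linarith only [a3])
  obtain ⟨h2', l, C⟩ := B.symm.other' b (clsW_inner hb (Or.inr (Or.inl hk)))
  rw [e0, e2] at C
  have c1 := hF C
  have c2 := h2 C hk
  rw [hk] at c1
  have c3 : (100 : ℝ) / 1000 ≤ y (.inl (.inl h2')) := by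
    refine le_trans ?_ c1
    cases clsW b l <;> simp only [F2] <;> (try split_ifs) <;> norm_num
  obtain ⟨c4, c5⟩ := C.im_two hb hL hy hk
  have rc := C.re (zs := zs) (y := y)
  have s2 := MR.r36f_two (w := Yw b zs y k 0) (v := Yw b zs y k 2)
    (K := ofs (b j) (zs (.inl (.inl h'))).im)
    (by rw [rk]; linarith only [hf]) (by rw [rk]; linarith only [hcon]) ik (by linarith only [b0]) (by linarith only [b1])
    (by rw [rc]; linarith only [c3]) (by rw [rc]; linarith only [c2]) c4 c5
  have q1 := B.side_one (zs := zs) (y := y) hb hj 0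
  have q2 := B.symm.side_two (zs := zs) (y := y) hb (Or.inl hk) 0
  rw [e0, ofs_zero'] at q1
  rw [e0, e2, ofs_zero'] at q2
  rw [← q1] at s1
  rw [← q2] at s2
  refine B.flat_left38 hy (by rw [p2]; linarith only [hf]) (by rw [p1, p3]; linarith only [hx, hx', hcon, a0, a3]) ?_
  rw [e0]
  linarith only [s1, s2]

/-- **`3 | 1`** with the `3` on the left: the flat end. -/
theorem cap_three_one_flat (A : Adj h i 2 j) (B : Adj h' j 2 k) (hb : ClassW b) (hL : Loc b zs)
    (hX : LocX b zs) (hy : Mx b zs y) (h0 : 0 < y (.inl (.inl h))) (hF : Flr b y F2)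
    (h2 : ∀ {h : Fin M} {i j : Fin (M + 1)} {p : Fin 3}, Adj h i p j → clsW b i = .two →
      y (.inl (.inl h)) ≤ 56 / 100)
    (h2e : ∀ {h : Fin M} {i j : Fin (M + 1)} {p : Fin 3}, Adj h i p j → clsW b i = .one →
      clsW b j = .twoE → y (.inl (.inl h)) ≤ 37 / 100)
    (hi : clsW b i = .three) (hj : clsW b j = .one) : y (.inl (.inl h)) ≤ 36 / 100 := by
  by_contra hcon
  push Not at hcon
  have hcap := cap_three_one A B hb hL hX hy h0 hi hj
  have hop := A.opp hb (Or.inl (by rw [hi]; decide))
  have A' := A.symm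
  have e0 : (2 : Fin 3).rev = 0 := rfl
  have e2 : (0 : Fin 3).rev = 2 := rfl
  rw [e0] at A'
  have hT : ofs (b j) (zs (.inl (.inl h))).im = -ofs (b i) (zs (.inl (.inl h))).im := ofs_opp hop _
  obtain ⟨f1, f2, f3⟩ := A.par_three_one hi hj
  have hxi := A.re (zs := zs) (y := y)
  have hxj := A'.re (zs := zs) (y := y)
  obtain ⟨m1, m2, m3, m4, m5, m6, m7⟩ := A.mid_three_one hb hX hy hi hj
  have B' : Adj h' j (0 : Fin 3).rev k := B
  have A'' : Adj h j (2 : Fin 3).rev i := A'
  obtain ⟨a0, a1, a2, a3⟩ := hX.win A' B' hj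
  obtain ⟨b0, b1, -, -⟩ := hX.win B A'' hj
  rw [hi] at a0 a1 a2 a3 b0 b1
  have hB := B.rh hy
  have hrB := B.re (zs := zs) (y := y)
  have hf := hF B
  rw [hj] at hf
  have hok := okp_of hb B A'' hj
  have hQ : clsW b k = .one ∨ clsW b k = .two ∨ clsW b k = .twoE := by
    rcases hok with h1 | h1
    · exact h1
    · rw [hi] at h1
      simp at h1
  have hwi := A.height_three_one A hi hj hy hcon
  have hwj := A.height_three_one A' hi hj hy hcon
  have hsi := A.side_three_two (zs := zs) (y := y) hb hi (slL b zs y h)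
  have hsj := A'.side_one (zs := zs) (y := y) hb hj (slL b zs y h)
  rw [A.slope_three_one hi hj hcon] at hsi hsj
  rw [e2] at hsj
  have fin : ∀ e : ℝ, Sw b zs y i 2 (slL b zs y h) < e → Sw b zs y j 0 (slL b zs y h) < -e →
      False := by
    intro e s1 s2
    exact rstep_false hb hy h0 (RStep.of_adj A (c := 0) (fun _ => rfl)
      (e1 := Sw b zs y i 2 (slL b zs y h)) (e2 := Sw b zs y j 0 (slL b zs y h))
      (by linarith only [s1, s2]) (by linarith only []) (by
        show Sw b zs y j 0 (slL b zs y h) + 0 * ofs (b j) (slL b zs y h) ≤ _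
        linarith only []))
  have q : gn3 b zs y h i 2 1 (26 / 100) + gn1 b zs y h j 0 2 (26 / 100) ≤ 0 :=
    gain_three_one hb hy A hi hj (by rw [f2]; norm_num) (by rw [f1, f3]; norm_num)
  unfold gn3 gn1 at q
  rcases hQ with hk | hk | hk
  · rw [hk] at hcap
    simp only [cap31] at hcap
    linarith only [hcon, hcap]
  · rw [hk] at hcap
    simp only [cap31] at hcap
    have hfl := cf31_two A B hb hL hX hy hF h2 hi hj hk hcon hcap
    obtain ⟨p1, p2, p3⟩ := B.par38_two hj hk
    rw [p1, p2, p3] at hB
    have hB56 := h2 B.symm hk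
    rw [hk] at a0 a1 a2 a3 b0 b1
    norm_num [cw] at a0 a1 a2 a3 b0 b1
    have him : 80 / 10000 ≤ (Yw b zs y j 2).im ∧
        (Yw b zs y j 2).im ≤ ofs (b j) (zs (.inl (.inl h'))).im := by
      rcases le_total (y (.inl (.inl h'))) (51 / 100) with h51 | h51
      · rw [MR.RH_flat hB (by norm_num) (by norm_num) (by rw [hrB]; linarith only [h0, hcap, hfl, a1, a2])
          (by rw [hrB]; linarith only [h51])]
        constructor <;> linarith only [h0, hcap, b0]
      · rw [MR.RH_right hB (by norm_num) (by norm_num) (by norm_num) (by rw [hrB]; linarith only [h51]), hrB]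
        constructor <;> nlinarith only [b0, h0, hcap, hB56, a1, a2, h51]
    rcases le_total (1 / 2) (Yw b zs y i 1).re with hv | hv
    · have q1 := R3V.p2_gain (w := Yw b zs y i 2) (v := Yw b zs y i 1)
        (T := ofs (b i) (zs (.inl (.inl h))).im) (by linarith only [hT, a1]) (by linarith only [hT, a0]) hwi
        (by rw [hxi]; linarith only [hcon]) (by rw [hxi]; linarith only [hcap]) (by linarith only [hv]) m2 m3 m4
        (fun r => m6 (by linarith only [h0, hcap, hv]) r) m7
      have q2 := R3V.e2_gain (w := Yw b zs y j 0) (v := Yw b zs y j 2)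
        (T := ofs (b j) (zs (.inl (.inl h))).im) (by linarith only [a0]) (by linarith only [a1]) hwj
        (by rw [hxj]; linarith only [hcon]) (by rw [hxj]; linarith only [hcap]) (by rw [hrB]; linarith only [h0, hcap, hfl, b0])
        (by rw [hrB]; linarith only [hB56]) him.1 (by linarith only [b1, him, him.2]) (by linarith only [a3, him, him.2])
        (by rw [hrB]; linarith only [hfl, him, him.2])
      rw [hxi] at q1
      rw [hxj, hT] at q2
      rw [hxi, hxj] at q
      rw [hT] at q
      linarith only [q, q1, q2]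
    · have s1 := MR.r36_two (w := Yw b zs y i 2) (v := Yw b zs y i 1)
        (T := ofs (b i) (zs (.inl (.inl h))).im) (by linarith only [hT, a1]) (by linarith only [hT, a0]) hwi
        (by rw [hxi]; linarith only [hcon]) (by rw [hxi]; linarith only [hcap]) m1 (by linarith only [hv]) m3 m5
        (fun r => m6 r (by linarith only [m2, hv]))
      have s2 := MR.r36d_two (w := Yw b zs y j 0) (v := Yw b zs y j 2)
        (T := ofs (b j) (zs (.inl (.inl h))).im) (by linarith only [a0]) (by linarith only [a1]) hwj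
        (by rw [hxj]; linarith only [hcon]) (by rw [hxj]; linarith only [hcap]) (by rw [hrB]; linarith only [h0, hcap, hfl, b0])
        (by rw [hrB]; linarith only [hB56]) him.1 (by linarith only [b1, him, him.2]) (by linarith only [a3, him, him.2])
        (by rw [hrB]; linarith only [hfl, him, him.2])
      rw [← hsi] at s1
      rw [← hsj] at s2
      exact fin _ s1 (by rw [hT] at s2; linarith only [s2])
  · rw [hk] at hcap
    simp only [cap31] at hcap
    obtain ⟨p1, p2, p3⟩ := B.par38_twoE hj hk
    rw [p1, p2, p3] at hB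
    have hB37 := h2e B hj hk
    rw [hk] at hf a0 a1 a2 a3 b0 b1
    norm_num [cw] at a0 a1 a2 a3 b0 b1
    norm_num [F2] at hf
    have him : -(450 / 10000) ≤ (Yw b zs y j 2).im ∧ (Yw b zs y j 2).im ≤ -(235 / 10000) := by
      rcases le_total (y (.inl (.inl h'))) (35 / 100) with h51 | h51
      · rw [MR.RH_flat hB (by norm_num) (by norm_num) (by rw [hrB]; linarith only [hf])
          (by rw [hrB]; linarith only [h51])]
        constructor <;> linarith only [b0, hcon, hcap, b1]
      · rw [MR.RH_right hB (by norm_num) (by norm_num) (by norm_num) (by rw [hrB]; linarith only [h51]), hrB]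
        constructor <;> nlinarith only [b0, h51, hcon, hcap, hB37, b1, h0, a0, a3]
    rcases le_total (1 / 2) (Yw b zs y i 1).re with hv | hv
    · have q1 := R3V.pE_gain (w := Yw b zs y i 2) (v := Yw b zs y i 1)
        (T := ofs (b i) (zs (.inl (.inl h))).im) (by linarith only [hT, a1]) (by linarith only [hT, a0]) hwi
        (by rw [hxi]; linarith only [hcon]) (by rw [hxi]; linarith only [hcap]) (by linarith only [hv]) m2 m3 m4
        (fun r => m6 (by linarith only [hcon, hcap, hv]) r) m7
      have q2 := R3V.eE_gain (w := Yw b zs y j 0) (v := Yw b zs y j 2)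
        (T := ofs (b j) (zs (.inl (.inl h))).im) (by linarith only [a0]) (by linarith only [a1]) hwj
        (by rw [hxj]; linarith only [hcon]) (by rw [hxj]; linarith only [hcap]) (by rw [hrB]; linarith only [hf])
        (by rw [hrB]; linarith only [hB37]) (by linarith only [him, him.1]) (by linarith only [him, him.2])
      linarith only [q, q1, q2]
    · have s1 := MR.r36_twoE (w := Yw b zs y i 2) (v := Yw b zs y i 1)
        (T := ofs (b i) (zs (.inl (.inl h))).im) (by linarith only [hT, a1]) (by linarith only [hT, a0]) hwi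
        (by rw [hxi]; linarith only [hcon]) (by rw [hxi]; linarith only [hcap]) m1 (by linarith only [hv]) m3 m5
        (fun r => m6 r (by linarith only [m2, hv]))
      have s2 := MR.r36d_twoE (w := Yw b zs y j 0) (v := Yw b zs y j 2)
        (T := ofs (b j) (zs (.inl (.inl h))).im) (by linarith only [a0]) (by linarith only [a1]) hwj
        (by rw [hxj]; linarith only [hcon]) (by rw [hxj]; linarith only [hcap]) (by rw [hrB]; linarith only [hf])
        (by rw [hrB]; linarith only [hB37]) (by linarith only [him, him.1]) (by linarith only [him, him.2])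
      rw [← hsi] at s1
      rw [← hsj] at s2
      exact fin _ s1 (by rw [hT] at s2; linarith only [s2])

end SR

end Pool.Agent.Work.MP_b30479_gtS.G2

end
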