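import Pool.Agent.Work.MP_b30479_gt.TBS.G2.RngA
import Pool.Agent.Work.MP_b30479_gt.TBS.G2.RngKd
import Pool.Agent.Work.MP_b30479_gt.TBS.G2.RLev
import Pool.Agent.Work.MP_b30479_gt.TBS.G2.MRBase
import Pool.Agent.Work.MP_b30479_gt.TBS.G2.SQuartF

section

/-!
# The ring variable at a maximiser: lower location for heights `≤ 0`
-/

set_option deprecated.oldSectionVars true

namespace Pool.Agent.Work.MP_b30479_gtS.G2

open Finset VOL Filter Topology

theorem re_im_eq (w : ℂ) : w = (w.re : ℂ) + (w.im : ℂ) * Complex.I := (Complex.re_add_im w).symm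

/-- the derivative in the ring variable is `≥ 0` for heights `≤ 0` -/
theorem Dm_nonneg {m σ η : ℝ} {w : ℂ} (hm : 0 ≤ m) (hx0 : 0 ≤ w.re) (hx : w.re ≤ 1 / 2)
    (ht : w.im ≤ 0) (hσ : σ ≤ 0) (hσ' : -(1 / 2) ≤ σ) (hη : 0 < η)
    (h : Real.sinh (2 * Real.pi * -w.im) * Real.sinh (2 * Real.pi * η) ≤
      Real.sin (2 * Real.pi * w.re) * Real.sin (2 * Real.pi * -σ)) {ζ : ℂ}
    (hζ : ζ = σ + η * Complex.I) : 0 ≤ Dm m w ζ := by
  have h1 := LL_ring_nonneg (x := w.re) (t := w.im) (σ := σ) (η := η) (w := w) (ζ := ζ)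
    (re_im_eq w) hζ (by linarith only [ht, hη]) (by
      rw [mul_neg, Real.sinh_neg, mul_neg, Real.sin_neg] at h
      linarith only [h])
  have h2 := YY_ring_nonneg (x := w.re) (t := w.im) (σ := σ) (η := η) hx0 hx ht hσ hσ' hη.le
    (re_im_eq w) hζ
  unfold Dm Dq
  have := mul_nonneg hm h2
  linarith only [h1, this]

theorem mul_sin_le {l a : ℝ} (hl : 0 ≤ l) (hl1 : l ≤ 1) (ha : 0 ≤ a) (ha1 : a ≤ Real.pi) :
    l * Real.sin a ≤ Real.sin (l * a) := by
  have h := strictConcaveOn_sin_Icc.concaveOn.2 (show a ∈ Set.Icc 0 Real.pi from ⟨ha, ha1⟩)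
    (show (0 : ℝ) ∈ Set.Icc 0 Real.pi from ⟨le_rfl, Real.pi_pos.le⟩) hl (sub_nonneg.mpr hl1)
    (by ring)
  simpa using h

/-- condition on a point of the path -/
def PCond (ρ : ℝ) (w : ℂ) : Prop :=
  Real.sinh (2 * Real.pi * -w.im) * Real.sinh (2 * Real.pi * ρ) ≤ Real.sin (2 * Real.pi * w.re)

theorem PCond.ring {ρ σ : ℝ} {w : ℂ} (h : PCond ρ w) (hρ : 0 ≤ ρ) (h0 : -(1 / 2) ≤ σ)
    (h1 : σ ≤ -(1 / 4)) (ht : w.im ≤ 0) :
    Real.sinh (2 * Real.pi * -w.im) * Real.sinh (2 * Real.pi * (ρ * LT.th σ)) ≤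
      Real.sin (2 * Real.pi * w.re) * Real.sin (2 * Real.pi * -σ) := by
  have hpi := Real.pi_pos
  have hth : LT.th σ = 2 + 4 * σ := by
    have : |σ| = -σ := abs_of_nonpos (by linarith only [h1])
    rw [th_of_ge (by rw [this]; linarith only [h1]), this]
    ring
  set l := 2 + 4 * σ with hl
  have l0 : 0 ≤ l := by linarith only [h0]
  have l1 : l ≤ 1 := by linarith only [h1]
  have e1 : Real.sin (2 * Real.pi * -σ) = Real.sin (Real.pi / 2 * l) := by
    rw [← Real.sin_pi_sub, hl]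
    congr 1
    ring
  have e2 : l ≤ Real.sin (Real.pi / 2 * l) := by
    have := Real.mul_le_sin (x := Real.pi / 2 * l) (by positivity) (by nlinarith only [h1, hpi])
    calc l = 2 / Real.pi * (Real.pi / 2 * l) := by field_simp
      _ ≤ _ := this
  have e3 : Real.sinh (2 * Real.pi * (ρ * l)) ≤ l * Real.sinh (2 * Real.pi * ρ) := by
    have := sinh_mul_le (z := 2 * Real.pi * ρ) l0 l1 (by positivity)
    rwa [show l * (2 * Real.pi * ρ) = 2 * Real.pi * (ρ * l) by ring] at this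
  have e4 : 0 ≤ Real.sinh (2 * Real.pi * -w.im) := by
    rw [Real.sinh_nonneg_iff]
    have : 0 ≤ -w.im := by linarith only [ht]
    positivity
  have e5 : 0 ≤ Real.sinh (2 * Real.pi * ρ) := by
    rw [Real.sinh_nonneg_iff]
    positivity
  rw [hth, e1]
  unfold PCond at h
  have e6 : 0 ≤ Real.sin (2 * Real.pi * w.re) := (mul_nonneg e4 e5).trans h
  calc _ ≤ Real.sinh (2 * Real.pi * -w.im) * (l * Real.sinh (2 * Real.pi * ρ)) :=
        mul_le_mul_of_nonneg_left e3 e4
    _ = l * (Real.sinh (2 * Real.pi * -w.im) * Real.sinh (2 * Real.pi * ρ)) := by ring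
    _ ≤ l * Real.sin (2 * Real.pi * w.re) := mul_le_mul_of_nonneg_left h l0
    _ ≤ _ := by
      rw [mul_comm]
      exact mul_le_mul_of_nonneg_left e2 e6

theorem zt_mk {ρ σ : ℝ} : LT.zt ρ σ = (σ : ℂ) + ((ρ * LT.th σ : ℝ) : ℂ) * Complex.I := rfl

/-- the derivative on the left ramp of the ring variable, heights `≤ 0` -/
theorem Dm_ramp_nonneg {b ρ σ : ℝ} {w : ℂ} (hρ : 0 < ρ) (h : PCond ρ w) (h0 : -(1 / 2) < σ)
    (h1 : σ ≤ -(1 / 4)) (ht : w.im ≤ 0) (hx0 : 0 ≤ w.re) (hx : w.re ≤ 1 / 2) {m : ℝ}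
    (hm : 0 ≤ m) : 0 ≤ Dm m w (LT.zt ρ σ) := by
  have hth : 0 < LT.th σ := th_pos (by rw [abs_lt]; constructor <;> linarith only [h0, h1])
  exact Dm_nonneg hm hx0 hx ht (by linarith only [h0, h1]) h0.le (mul_pos hρ hth)
    (h.ring hρ.le h0.le h1 ht) zt_mk

/-! ### the condition holds on the paths -/

theorem PCond_zero (ρ : ℝ) : PCond ρ 0 := by
  unfold PCond
  simp

/-- a path which ends at `1/2` -/
theorem PCond_half {ρ T cl cr : ℝ} {w : ℂ} (hρ : 0 ≤ ρ) (hT : T ≤ 0)
    (hcl : 0 < cl) (hcr : 0 < cr) (hcc : cl + cr < 1 / 2)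
    (hw : RH w T (1 / 2) cl cr)
    (k1 : Real.sinh (2 * Real.pi * -T) * Real.sinh (2 * Real.pi * ρ) ≤ Real.sin (2 * Real.pi * cl))
    (k2 : Real.sinh (2 * Real.pi * -T) * Real.sinh (2 * Real.pi * ρ) ≤ Real.sin (2 * Real.pi * cr)) :
    PCond ρ w := by
  have hpi := Real.pi_pos
  obtain ⟨r0, rM, him⟩ := hw
  have hk : 0 ≤ Real.sinh (2 * Real.pi * ρ) := by
    rw [Real.sinh_nonneg_iff]
    positivity
  have hT' : 0 ≤ 2 * Real.pi * -T := by
    have : 0 ≤ -T := by linarith only [hT]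
    positivity
  set k := Real.sinh (2 * Real.pi * ρ)
  unfold PCond
  rcases le_total w.re cl with h1 | h1
  · rw [tr_a hcl hcr hcc r0 h1] at him
    have l0 : 0 ≤ w.re / cl := by positivity
    have l1 : w.re / cl ≤ 1 := (div_le_one hcl).mpr h1
    have a1 := sinh_mul_le l0 l1 hT'
    have a2 := mul_sin_le l0 l1 (show 0 ≤ 2 * Real.pi * cl by positivity) (by nlinarith only [hcr, hpi, hcc])
    have a3 := mul_le_mul_of_nonneg_right a1 hk
    have a4 := mul_le_mul_of_nonneg_left k1 l0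
    have e1 : w.re / cl * (2 * Real.pi * -T) = 2 * Real.pi * -w.im := by rw [him]; ring
    have e2 : w.re / cl * (2 * Real.pi * cl) = 2 * Real.pi * w.re := by field_simp
    rw [e1] at a3
    rw [e2] at a2
    nlinarith only [a2, a3, a4]
  · rcases le_total w.re (1 / 2 - cr) with h2 | h2
    · rw [tr_b hcl hcr h1 h2, mul_one] at him
      rw [him]
      rcases le_total w.re (1 / 4) with h3 | h3
      · refine k1.trans ?_
        apply Real.sin_le_sin_of_le_of_le_pi_div_two <;> nlinarith only [hpi, hcl, hcr, hcc, h3, h1]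
      · refine k2.trans ?_
        rw [← Real.sin_pi_sub (2 * Real.pi * w.re)]
        apply Real.sin_le_sin_of_le_of_le_pi_div_two <;> nlinarith only [hpi, hcr, hcl, hcc, h3, h2]
    · rw [tr_c hcl hcr hcc h2 rM] at him
      have l0 : 0 ≤ (1 / 2 - w.re) / cr := div_nonneg (by linarith only [rM]) hcr.le
      have l1 : (1 / 2 - w.re) / cr ≤ 1 := (div_le_one hcr).mpr (by linarith only [h2])
      have a1 := sinh_mul_le l0 l1 hT'
      have a2 := mul_sin_le l0 l1 (show 0 ≤ 2 * Real.pi * cr by positivity) (by nlinarith only [hcl, hpi, hcc])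
      have a3 := mul_le_mul_of_nonneg_right a1 hk
      have a4 := mul_le_mul_of_nonneg_left k2 l0
      have e1 : (1 / 2 - w.re) / cr * (2 * Real.pi * -T) = 2 * Real.pi * -w.im := by rw [him]; ring
      have e2 : Real.sin ((1 / 2 - w.re) / cr * (2 * Real.pi * cr)) =
          Real.sin (2 * Real.pi * w.re) := by
        rw [← Real.sin_pi_sub (2 * Real.pi * w.re)]
        congr 1
        field_simp
      rw [e1] at a3
      rw [e2] at a2
      nlinarith only [a2, a3, a4]

/-- the beginning of a path: `c0 ≤ cl`, `Re w ≤ 1/2 - c0` -/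
theorem PCond_start {ρ T XM cl cr c0 : ℝ} {w : ℂ} (hρ : 0 ≤ ρ) (hT : T ≤ 0) (hc0 : 0 < c0)
    (hcl : c0 ≤ cl) (hcl' : cl ≤ 1 / 4) (hcr : 0 < cr) (hcc : cl + cr < XM)
    (hw : RH w T XM cl cr) (hx : w.re ≤ 1 / 2 - c0)
    (k1 : Real.sinh (2 * Real.pi * -T) * Real.sinh (2 * Real.pi * ρ) ≤
      Real.sin (2 * Real.pi * c0)) :
    PCond ρ w := by
  have hpi := Real.pi_pos
  obtain ⟨r0, rM, him⟩ := hw
  have hcl0 : 0 < cl := by linarith only [hc0, hcl]
  have hk : 0 ≤ Real.sinh (2 * Real.pi * ρ) := by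
    rw [Real.sinh_nonneg_iff]
    positivity
  have hT' : 0 ≤ 2 * Real.pi * -T := by
    have : 0 ≤ -T := by linarith only [hT]
    positivity
  have k1' : Real.sinh (2 * Real.pi * -T) * Real.sinh (2 * Real.pi * ρ) ≤
      Real.sin (2 * Real.pi * cl) := k1.trans (by
    apply Real.sin_le_sin_of_le_of_le_pi_div_two <;> nlinarith only [hpi, hc0, hcl', hcl])
  set k := Real.sinh (2 * Real.pi * ρ)
  unfold PCond
  rcases le_total w.re cl with h1 | h1
  · rw [tr_a hcl0 hcr hcc r0 h1] at him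
    have l0 : 0 ≤ w.re / cl := by positivity
    have l1 : w.re / cl ≤ 1 := (div_le_one hcl0).mpr h1
    have a1 := sinh_mul_le l0 l1 hT'
    have a2 := mul_sin_le l0 l1 (show 0 ≤ 2 * Real.pi * cl by positivity) (by nlinarith only [hpi, hcl'])
    have a3 := mul_le_mul_of_nonneg_right a1 hk
    have a4 := mul_le_mul_of_nonneg_left k1' l0
    have e1 : w.re / cl * (2 * Real.pi * -T) = 2 * Real.pi * -w.im := by rw [him]; ring
    have e2 : w.re / cl * (2 * Real.pi * cl) = 2 * Real.pi * w.re := by field_simp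
    rw [e1] at a3
    rw [e2] at a2
    nlinarith only [a2, a3, a4]
  · have h3 : -w.im ≤ -T := by
      rw [him]
      have t0 : 0 ≤ tr 0 XM cl cr w.re := le_max_left _ _
      have t1 : tr 0 XM cl cr w.re ≤ 1 := max_le zero_le_one (min_le_left _ _)
      nlinarith only [hT, t1]
    have h4 : Real.sinh (2 * Real.pi * -w.im) ≤ Real.sinh (2 * Real.pi * -T) := by
      rw [Real.sinh_le_sinh]
      nlinarith only [hc0, hcl, hcl', hpi, h3]
    refine (mul_le_mul_of_nonneg_right h4 hk).trans (k1.trans ?_)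
    rcases le_total w.re (1 / 4) with h5 | h5
    · apply Real.sin_le_sin_of_le_of_le_pi_div_two <;> nlinarith only [hpi, hc0, hcl, hcl', h5, h1]
    · rw [← Real.sin_pi_sub (2 * Real.pi * w.re)]
      apply Real.sin_le_sin_of_le_of_le_pi_div_two <;> nlinarith only [hpi, hc0, hcl, hcl', h5, hx]

/-- the height on the right ramp -/
theorem RH.neg_im_le {T XM cl cr : ℝ} {w : ℂ} (h : RH w T XM cl cr) (hT : T ≤ 0) (hcr : 0 < cr) :
    -w.im ≤ -T * ((XM - w.re) / cr) := by
  rw [h.im]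
  have h1 : tr 0 XM cl cr w.re ≤ (XM - w.re) / cr := by
    have h2 : 0 ≤ (XM - w.re) / cr := div_nonneg (by linarith only [h, h.reM]) hcr.le
    unfold tr
    refine max_le h2 ?_
    refine (min_le_right _ _).trans ?_
    exact min_le_right _ _
  nlinarith only [hT, h1]

/-! ### numbers -/

section
open NumIs NumIs.E

private def k0 (n : ℤ) : E := sub (sinPi (q n 100)) (mul (sinh (mul (mul (q 2 1) pi) (var 0)))
  (sinh (mul (mul (q 2 1) pi) (var 1))))

private theorem k0_of {n : ℤ} {τ ρ : ℝ} (h : 0 < (k0 n).val [τ, ρ]) :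
    Real.sinh (2 * Real.pi * τ) * Real.sinh (2 * Real.pi * ρ) ≤
      Real.sin (2 * Real.pi * ((n : ℝ) / 200)) := by
  simp only [k0, E.val, lkR_zero, lkR_one] at h
  simp only [Int.cast_ofNat, Nat.cast_ofNat, Int.cast_one, Nat.cast_one, div_one] at h
  have e : 2 * Real.pi * ((n : ℝ) / 200) = Real.pi * (n / 100) := by ring
  rw [e]
  linarith only [h]

theorem K_lo4 {τ ρ : ℝ} (h0 : 0 ≤ τ) (h1 : τ ≤ 115 / 1000) (h2 : 0 ≤ ρ) (h3 : ρ ≤ 1045 / 10000) :
    Real.sinh (2 * Real.pi * τ) * Real.sinh (2 * Real.pi * ρ) ≤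
      Real.sin (2 * Real.pi * (1 / 10)) := by
  have g : chk [k0 20] 40 [V.of 10000 0 1150, V.of 10000 0 1045] = true := by decide +kernel
  have := k0_of (pos_of_chk (chk2 g (x := τ) (y := ρ) (by norm_num) (by simpa using h0)
    (by norm_num; linarith only [h1]) (by simpa using h2) (by norm_num; linarith only [h3])))
  norm_num at this ⊢
  linarith only [this]

theorem K_lo5 {τ ρ : ℝ} (h0 : 0 ≤ τ) (h1 : τ ≤ 131 / 1000) (h2 : 0 ≤ ρ) (h3 : ρ ≤ 725 / 10000) :
    Real.sinh (2 * Real.pi * τ) * Real.sinh (2 * Real.pi * ρ) ≤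
      Real.sin (2 * Real.pi * (1 / 10)) := by
  have g : chk [k0 20] 40 [V.of 10000 0 1310, V.of 10000 0 725] = true := by decide +kernel
  have := k0_of (pos_of_chk (chk2 g (x := τ) (y := ρ) (by norm_num) (by simpa using h0)
    (by norm_num; linarith only [h1]) (by simpa using h2) (by norm_num; linarith only [h3])))
  norm_num at this ⊢
  linarith only [this]

theorem K_rr4 {τ ρ : ℝ} (h0 : 0 ≤ τ) (h1 : τ ≤ 25 / 1000) (h2 : 0 ≤ ρ) (h3 : ρ ≤ 1045 / 10000) :
    Real.sinh (2 * Real.pi * τ) * Real.sinh (2 * Real.pi * ρ) ≤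
      Real.sin (2 * Real.pi * (2 / 100)) := by
  have g : chk [k0 4] 40 [V.of 10000 0 250, V.of 10000 0 1045] = true := by decide +kernel
  have := k0_of (pos_of_chk (chk2 g (x := τ) (y := ρ) (by norm_num) (by simpa using h0)
    (by norm_num; linarith only [h1]) (by simpa using h2) (by norm_num; linarith only [h3])))
  norm_num at this ⊢
  linarith only [this]

theorem K_rr5 {τ ρ : ℝ} (h0 : 0 ≤ τ) (h1 : τ ≤ 4 / 100) (h2 : 0 ≤ ρ) (h3 : ρ ≤ 725 / 10000) :
    Real.sinh (2 * Real.pi * τ) * Real.sinh (2 * Real.pi * ρ) ≤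
      Real.sin (2 * Real.pi * (2 / 100)) := by
  have g : chk [k0 4] 40 [V.of 10000 0 400, V.of 10000 0 725] = true := by decide +kernel
  have := k0_of (pos_of_chk (chk2 g (x := τ) (y := ρ) (by norm_num) (by simpa using h0)
    (by norm_num; linarith only [h1]) (by simpa using h2) (by norm_num; linarith only [h3])))
  norm_num at this ⊢
  linarith only [this]

theorem K_one4 {τ ρ : ℝ} (h0 : 0 ≤ τ) (h1 : τ ≤ 128 / 1000) (h2 : 0 ≤ ρ) (h3 : ρ ≤ 1045 / 10000) :
    Real.sinh (2 * Real.pi * τ) * Real.sinh (2 * Real.pi * ρ) ≤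
      Real.sin (2 * Real.pi * (14 / 100)) := by
  have g : chk [k0 28] 40 [V.of 10000 0 1280, V.of 10000 0 1045] = true := by decide +kernel
  have := k0_of (pos_of_chk (chk2 g (x := τ) (y := ρ) (by norm_num) (by simpa using h0)
    (by norm_num; linarith only [h1]) (by simpa using h2) (by norm_num; linarith only [h3])))
  norm_num at this ⊢
  linarith only [this]

theorem K_one5 {τ ρ : ℝ} (h0 : 0 ≤ τ) (h1 : τ ≤ 158 / 1000) (h2 : 0 ≤ ρ) (h3 : ρ ≤ 725 / 10000) :
    Real.sinh (2 * Real.pi * τ) * Real.sinh (2 * Real.pi * ρ) ≤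
      Real.sin (2 * Real.pi * (14 / 100)) := by
  have g : chk [k0 28] 40 [V.of 10000 0 1580, V.of 10000 0 725] = true := by decide +kernel
  have := k0_of (pos_of_chk (chk2 g (x := τ) (y := ρ) (by norm_num) (by simpa using h0)
    (by norm_num; linarith only [h1]) (by simpa using h2) (by norm_num; linarith only [h3])))
  norm_num at this ⊢
  linarith only [this]

/-- `x = var 0`; `a/1000`: the height, `r/10000`: `ρ` -/
private def kr (a r : ℤ) : E := sub (sinPi (mul (q 2 1) (var 0))) (mul (sinh (mul (mul (q 2 1) pi)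
  (mul (q a 290) (sub (q 65 100) (var 0))))) (sinh (mul (mul (q 2 1) pi) (q r 10000))))

private theorem K_oneR4 {x : ℝ} (h0 : 36 / 100 ≤ x) (h1 : x ≤ 40 / 100) :
    Real.sinh (2 * Real.pi * (128 / 290 * (65 / 100 - x))) *
      Real.sinh (2 * Real.pi * (1045 / 10000)) ≤ Real.sin (2 * Real.pi * x) := by
  have g : chk [kr 128 1045] 40 [V.of 100 36 40] = true := by decide +kernel
  have := pos_of_chk (chk1 g (x := x) (by norm_num) (by norm_num; linarith only [h0]) (by norm_num; linarith only [h1]))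
  simp only [kr, E.val, NumIs.lkR] at this
  simp only [Int.cast_ofNat, Nat.cast_ofNat, Nat.cast_one, div_one] at this
  rw [show Real.pi * (2 * x) = 2 * Real.pi * x by ring] at this
  linarith only [this]

private theorem K_oneR5 {x : ℝ} (h0 : 36 / 100 ≤ x) (h1 : x ≤ 40 / 100) :
    Real.sinh (2 * Real.pi * (158 / 290 * (65 / 100 - x))) *
      Real.sinh (2 * Real.pi * (725 / 10000)) ≤ Real.sin (2 * Real.pi * x) := by
  have g : chk [kr 158 725] 40 [V.of 100 36 40] = true := by decide +kernel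
  have := pos_of_chk (chk1 g (x := x) (by norm_num) (by norm_num; linarith only [h0]) (by norm_num; linarith only [h1]))
  simp only [kr, E.val, NumIs.lkR] at this
  simp only [Int.cast_ofNat, Nat.cast_ofNat, Nat.cast_one, div_one] at this
  rw [show Real.pi * (2 * x) = 2 * Real.pi * x by ring] at this
  linarith only [this]

theorem K_loR4 {τ ρ : ℝ} (h0 : 0 ≤ τ) (h1 : τ ≤ 768 / 10000) (h2 : 0 ≤ ρ) (h3 : ρ ≤ 1045 / 10000) :
    Real.sinh (2 * Real.pi * τ) * Real.sinh (2 * Real.pi * ρ) ≤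
      Real.sin (2 * Real.pi * (8 / 100)) := by
  have g : chk [k0 16] 40 [V.of 10000 0 768, V.of 10000 0 1045] = true := by decide +kernel
  have := k0_of (pos_of_chk (chk2 g (x := τ) (y := ρ) (by norm_num) (by simpa using h0)
    (by norm_num; linarith only [h1]) (by simpa using h2) (by norm_num; linarith only [h3])))
  norm_num at this ⊢
  linarith only [this]

theorem K_loR5 {τ ρ : ℝ} (h0 : 0 ≤ τ) (h1 : τ ≤ 875 / 10000) (h2 : 0 ≤ ρ) (h3 : ρ ≤ 725 / 10000) :
    Real.sinh (2 * Real.pi * τ) * Real.sinh (2 * Real.pi * ρ) ≤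
      Real.sin (2 * Real.pi * (8 / 100)) := by
  have g : chk [k0 16] 40 [V.of 10000 0 875, V.of 10000 0 725] = true := by decide +kernel
  have := k0_of (pos_of_chk (chk2 g (x := τ) (y := ρ) (by norm_num) (by simpa using h0)
    (by norm_num; linarith only [h1]) (by simpa using h2) (by norm_num; linarith only [h3])))
  norm_num at this ⊢
  linarith only [this]

end

theorem sin_cr_le : Real.sin (2 * Real.pi * (2 / 100)) ≤ Real.sin (2 * Real.pi * (1 / 10)) := by
  have hpi := Real.pi_pos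
  apply Real.sin_le_sin_of_le_of_le_pi_div_two <;> nlinarith only [hpi]

/-- comparison of the condition at two heights -/
theorem PCond_of_le {ρ ρ' τ : ℝ} {w : ℂ} (h0 : 0 ≤ -w.im) (h1 : -w.im ≤ τ) (h2 : 0 ≤ ρ) (h3 : ρ ≤ ρ')
    (h : Real.sinh (2 * Real.pi * τ) * Real.sinh (2 * Real.pi * ρ') ≤ Real.sin (2 * Real.pi * w.re)) :
    PCond ρ w := by
  have hpi := Real.pi_pos
  unfold PCond
  refine le_trans ?_ h
  have a1 : Real.sinh (2 * Real.pi * -w.im) ≤ Real.sinh (2 * Real.pi * τ) := by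
    rw [Real.sinh_le_sinh]
    nlinarith only [h1, hpi]
  have a2 : Real.sinh (2 * Real.pi * ρ) ≤ Real.sinh (2 * Real.pi * ρ') := by
    rw [Real.sinh_le_sinh]
    nlinarith only [h3, hpi]
  have a3 : 0 ≤ Real.sinh (2 * Real.pi * ρ) := by
    rw [Real.sinh_nonneg_iff]; positivity
  have a4 : 0 ≤ Real.sinh (2 * Real.pi * -w.im) := by
    rw [Real.sinh_nonneg_iff]; positivity
  exact mul_le_mul a1 a2 a3 (a4.trans a1)

/-! ### near `x = 1/2` -/

/-- condition on a point of the path near `1/2` -/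
def PMid (ρ : ℝ) (w : ℂ) : Prop := 40 / 100 ≤ w.re ∧
  ((ρ ≤ 1045 / 10000 ∧ -(1321 / 10000) ≤ w.im) ∨ (ρ ≤ 52 / 1000 ∧ -(1365 / 10000) ≤ w.im))

section
open NumIs NumIs.E

private theorem s1 : Real.sinh (2 * Real.pi * (1321 / 10000)) * Real.sinh (2 * Real.pi * (1045 / 10000)) ≤
    2 * Real.pi * (1045 / 10000) := by
  have g : chk [sub (mul (mul (q 2 1) pi) (q 1045 10000)) (mul (sinh (mul (mul (q 2 1) pi) (q 1321 10000)))
      (sinh (mul (mul (q 2 1) pi) (q 1045 10000))))] 10 [V.of 1 0 0] = true := by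
    decide +kernel
  have h := pos_of_chk (chk1 g (by norm_num) (x := 0) (by norm_num) (by norm_num))
  simp only [E.val] at h
  simp only [Int.cast_ofNat, Nat.cast_ofNat, Nat.cast_one, div_one] at h
  linarith only [h]

private theorem s2 : Real.sinh (2 * Real.pi * (1365 / 10000)) * Real.sinh (2 * Real.pi * (52 / 1000)) ≤
    2 * Real.pi * (52 / 1000) := by
  have g : chk [sub (mul (mul (q 2 1) pi) (q 52 1000)) (mul (sinh (mul (mul (q 2 1) pi) (q 1365 10000)))
      (sinh (mul (mul (q 2 1) pi) (q 52 1000))))] 10 [V.of 1 0 0] = true := by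
    decide +kernel
  have h := pos_of_chk (chk1 g (by norm_num) (x := 0) (by norm_num) (by norm_num))
  simp only [E.val] at h
  simp only [Int.cast_ofNat, Nat.cast_ofNat, Nat.cast_one, div_one] at h
  linarith only [h]

end

/-- the product of hyperbolic sines near `1/2` -/
theorem PMid.prod {ρ : ℝ} {w : ℂ} (h : PMid ρ w) (hρ : 0 ≤ ρ) (ht : w.im ≤ 0) :
    Real.sinh (2 * Real.pi * -w.im) * Real.sinh (2 * Real.pi * ρ) ≤ 2 * Real.pi * ρ := by
  have hpi := Real.pi_pos
  have key : ∀ τ r : ℝ, 0 < r → ρ ≤ r → -w.im ≤ τ →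
      Real.sinh (2 * Real.pi * τ) * Real.sinh (2 * Real.pi * r) ≤ 2 * Real.pi * r →
      Real.sinh (2 * Real.pi * -w.im) * Real.sinh (2 * Real.pi * ρ) ≤ 2 * Real.pi * ρ := by
    intro τ r hr h1 h2 h3
    have a0 : 0 ≤ -w.im := by linarith only [ht]
    have a1 : Real.sinh (2 * Real.pi * -w.im) ≤ Real.sinh (2 * Real.pi * τ) := by
      rw [Real.sinh_le_sinh]
      nlinarith only [hpi, h2]
    have a2 : 0 ≤ Real.sinh (2 * Real.pi * -w.im) := by
      rw [Real.sinh_nonneg_iff]; positivity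
    have a3 : Real.sinh (2 * Real.pi * ρ) ≤ ρ / r * Real.sinh (2 * Real.pi * r) := by
      have := sinh_mul_le (l := ρ / r) (z := 2 * Real.pi * r) (by positivity)
        ((div_le_one hr).mpr h1) (by positivity)
      rwa [show ρ / r * (2 * Real.pi * r) = 2 * Real.pi * ρ by field_simp] at this
    have a4 : 0 ≤ Real.sinh (2 * Real.pi * ρ) := by
      rw [Real.sinh_nonneg_iff]; positivity
    calc _ ≤ Real.sinh (2 * Real.pi * τ) * (ρ / r * Real.sinh (2 * Real.pi * r)) :=
          mul_le_mul a1 a3 a4 (a2.trans a1)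
      _ = ρ / r * (Real.sinh (2 * Real.pi * τ) * Real.sinh (2 * Real.pi * r)) := by ring
      _ ≤ ρ / r * (2 * Real.pi * r) := mul_le_mul_of_nonneg_left h3 (by positivity)
      _ = 2 * Real.pi * ρ := by field_simp
  rcases h.2 with ⟨h1, h2⟩ | ⟨h1, h2⟩
  · exact key (1321 / 10000) (1045 / 10000) (by norm_num) h1 (by linarith only [h2]) s1
  · exact key (1365 / 10000) (52 / 1000) (by norm_num) h1 (by linarith only [h2]) s2

/-- the logarithmic part of the derivative in the ring variable -/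
theorem LL_ring_ge {x t s η N : ℝ} (hN0 : 0 < N) (ht : t ≤ 0) (hη : 0 < η)
    (hN : N ≤ 1 - Real.cos (2 * Real.pi * (x + s))) :
    -((Real.sinh (2 * Real.pi * -t) * Real.sinh (2 * Real.pi * η) -
      Real.sin (2 * Real.pi * x) * Real.sin (2 * Real.pi * s)) / N) ≤
    LL ⟨x + s, t + η⟩ - LL ⟨x - s, t - η⟩ ∨
    0 ≤ LL ⟨x + s, t + η⟩ - LL ⟨x - s, t - η⟩ := by
  have hpi := Real.pi_pos
  have p1 : 0 < Real.cosh (2 * Real.pi * (t - η)) - Real.cos (2 * Real.pi * (x - s)) :=
    cosh_sub_cos_pos (u := ⟨x - s, t - η⟩) (sin_ne_of_im (by simp only; linarith only [ht, hη]))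
  have c1 := Real.one_le_cosh (2 * Real.pi * (t + η))
  have p2 : N ≤ Real.cosh (2 * Real.pi * (t + η)) - Real.cos (2 * Real.pi * (x + s)) := by linarith only [hN, c1]
  have e1 : (Real.cosh (2 * Real.pi * (t - η)) - Real.cos (2 * Real.pi * (x - s))) -
      (Real.cosh (2 * Real.pi * (t + η)) - Real.cos (2 * Real.pi * (x + s))) =
      2 * (Real.sinh (2 * Real.pi * -t) * Real.sinh (2 * Real.pi * η) -
      Real.sin (2 * Real.pi * x) * Real.sin (2 * Real.pi * s)) := by
    rw [mul_add, mul_sub, mul_add, mul_sub, Real.cosh_add, Real.cosh_sub, Real.cos_add, Real.cos_sub,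
      mul_neg, Real.sinh_neg]
    ring
  set D := Real.cosh (2 * Real.pi * (t - η)) - Real.cos (2 * Real.pi * (x - s)) with hD
  set M := Real.cosh (2 * Real.pi * (t + η)) - Real.cos (2 * Real.pi * (x + s)) with hM
  set S := Real.sinh (2 * Real.pi * -t) * Real.sinh (2 * Real.pi * η) -
      Real.sin (2 * Real.pi * x) * Real.sin (2 * Real.pi * s) with hS
  have hM0 : 0 < M := by linarith only [hN0, hN, c1]
  have e2 : LL ⟨x + s, t + η⟩ - LL ⟨x - s, t - η⟩ = -(Real.log (D / M) / 2) := by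
    rw [LL_eq', LL_eq']
    simp only
    rw [show 2 * Real.cosh (2 * Real.pi * (t + η)) - 2 * Real.cos (2 * Real.pi * (x + s)) = 2 * M by
      rw [hM]; ring, show 2 * Real.cosh (2 * Real.pi * (t - η)) - 2 * Real.cos (2 * Real.pi * (x - s)) =
      2 * D by rw [hD]; ring, Real.log_mul two_ne_zero hM0.ne', Real.log_mul two_ne_zero p1.ne',
      Real.log_div p1.ne' hM0.ne']
    ring
  rw [e2]
  rcases le_total 0 S with h | h
  · left
    have h1 := Real.log_le_sub_one_of_pos (div_pos p1 hM0)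
    have h2 : D / M - 1 = 2 * S / M := by
      rw [← e1]
      field_simp
    have h3 : 2 * S / M ≤ 2 * S / N := div_le_div_of_nonneg_left (by linarith only [h]) hN0 p2
    have h4 : 2 * S / N = 2 * (S / N) := by ring
    linarith only [h1, h2, h3, h4]
  · right
    have h1 : D / M ≤ 1 := by
      rw [div_le_one hM0]
      linarith only [e1, h]
    have h2 := Real.log_nonpos (div_pos p1 hM0).le h1
    linarith only [h2]

/-- the height part of the derivative in the ring variable, heights `≤ 0`, `s ≤ x` -/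
theorem YY_ring_ge {x t s η : ℝ} (hs : 0 ≤ s) (hxs : 0 ≤ x - s) (hxs' : x - s ≤ 1 / 2)
    (hxs1 : x + s ≤ 1) (ht : t ≤ 0) (hη : 0 < η) :
    Real.pi * (x - s) + Real.pi / 2 - Real.pi * |x + s - 1 / 2| ≤
      YY ⟨x + s, t + η⟩ - YY ⟨x + 1 - s, t - η⟩ := by
  have hpi := Real.pi_pos
  have hv : YY ⟨x + 1 - s, t - η⟩ ≤ -(Real.pi / 2) - Real.pi * (x - s) := by
    rw [YY_neg (u := ⟨x + 1 - s, t - η⟩) (by simp only; linarith only [ht, hη])]
    simp only
    rw [show x + 1 - s = (x - s) + 1 by ring, Tr_add_one]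
    have := pi_mul_le_Tr (s := -(t - η)) (x := x - s) hxs hxs' (by linarith only [ht, hη])
    linarith only [this]
  have hu : -(Real.pi * |x + s - 1 / 2|) ≤ YY ⟨x + s, t + η⟩ := by
    rcases lt_trichotomy (t + η) 0 with h | h | h
    · rw [YY_neg (u := ⟨x + s, t + η⟩) h]
      simp only
      rcases le_total (x + s) (1 / 2) with h1 | h1
      · have := Tr_le_half (s := -(t + η)) (x := x + s) (by linarith only [h]) h1
        have h2 : 0 ≤ Real.pi * |x + s - 1 / 2| := by positivity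
        linarith only [this, h2]
      · have := Tr_le_pi_mul (s := -(t + η)) (x := x + s) h1 hxs1 (by linarith only [h])
        rw [abs_of_nonneg (by linarith only [h1])]
        linarith only [this]
    · rw [YY_zero (u := ⟨x + s, t + η⟩) h]
      have h2 : 0 ≤ Real.pi * |x + s - 1 / 2| := by positivity
      linarith only [h2]
    · rw [YY_pos (u := ⟨x + s, t + η⟩) h]
      simp only
      rcases le_total (x + s) (1 / 2) with h1 | h1
      · have := pi_mul_le_Tr (s := t + η) (x := x + s) (by linarith only [hs, hxs]) h1 h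
        rw [abs_of_nonpos (by linarith only [h1])]
        linarith only [this]
      · have := half_le_Tr (s := t + η) (x := x + s) h h1
        have h2 : 0 ≤ Real.pi * |x + s - 1 / 2| := by positivity
        linarith only [this, h2]
  linarith only [hv, hu]

/-- the derivative in the ring variable near `x = 1/2` -/
theorem Dm_mid_nonneg {ρ σ : ℝ} {w : ℂ} (hρ : 0 < ρ) (h : PMid ρ w) (h0 : -(1 / 2) < σ)
    (h1 : σ ≤ -(1 / 4)) (ht : w.im ≤ 0) (hx : w.re ≤ 1 / 2) {m : ℝ} (hm : m = 4 * ρ) :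
    0 ≤ Dm m w (LT.zt ρ σ) := by
  have hpi := Real.pi_pos
  have hx0 := h.1
  have hth : LT.th σ = 2 + 4 * σ := by
    have : |σ| = -σ := abs_of_nonpos (by linarith only [h0, h1])
    rw [th_of_ge (by rw [this]; linarith only [h1]), this]
    ring
  set s := 1 / 2 + σ with hs
  have s0 : 0 < s := by linarith only [h0, hs]
  have s1 : s ≤ 1 / 4 := by linarith only [h1, hs]
  have hη : ρ * LT.th σ = 4 * ρ * s := by rw [hth, hs]; ring
  have η0 : 0 < 4 * ρ * s := by positivity
  have e1 : w + 1 / 2 + LT.zt ρ σ = ⟨w.re + s, w.im + 4 * ρ * s⟩ := by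
    rw [zt_eq, hη]
    apply Complex.ext <;> simp [hs]
    ring
  have e2 : w + 1 / 2 - LT.zt ρ σ = ⟨w.re + 1 - s, w.im - 4 * ρ * s⟩ := by
    rw [zt_eq, hη]
    apply Complex.ext <;> simp [hs]
    ring
  have e3 : LL ⟨w.re + 1 - s, w.im - 4 * ρ * s⟩ = LL ⟨w.re - s, w.im - 4 * ρ * s⟩ := by
    rw [← LL_add_one ⟨w.re - s, w.im - 4 * ρ * s⟩]
    congr 1
    apply Complex.ext <;> simp
    ring
  unfold Dm Dq
  rw [e1, e2, e3]
  have hc : Real.cos (2 * Real.pi * (w.re + s)) ≤ 0 := by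
    apply Real.cos_nonpos_of_pi_div_two_le_of_le <;> nlinarith only [h0, hpi, h1, hx0, hs, hx]
  have k1 := LL_ring_ge (x := w.re) (t := w.im) (s := s) (η := 4 * ρ * s) (N := 1) one_pos ht η0
    (by linarith only [hc])
  have k2 := YY_ring_ge (x := w.re) (t := w.im) (s := s) (η := 4 * ρ * s) s0.le (by linarith only [h0, h1, hx0, hs])
    (by linarith only [hx, s0]) (by linarith only [h0, h1, hx, hs]) ht η0
  have k3 : Real.pi / 2 ≤ Real.pi * (w.re - s) + Real.pi / 2 - Real.pi * |w.re + s - 1 / 2| := by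
    rcases le_total (w.re + s) (1 / 2) with h3 | h3
    · rw [abs_of_nonpos (by linarith only [h3])]
      nlinarith only [h0, hpi, h1, hx0]
    · rw [abs_of_nonneg (by linarith only [h3])]
      nlinarith only [h0, h1, hpi, hs]
  have k4 : m * (Real.pi / 2) ≤ m * (YY ⟨w.re + s, w.im + 4 * ρ * s⟩ -
      YY ⟨w.re + 1 - s, w.im - 4 * ρ * s⟩) := by
    apply mul_le_mul_of_nonneg_left (k3.trans k2)
    rw [hm]; positivity
  rw [hm] at k4 ⊢
  rcases k1 with k1 | k1
  · have k5 : Real.sinh (2 * Real.pi * -w.im) * Real.sinh (2 * Real.pi * (4 * ρ * s)) ≤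
        2 * Real.pi * ρ := by
      have a1 := h.prod hρ.le ht
      have a2 : Real.sinh (2 * Real.pi * (4 * ρ * s)) ≤ 4 * s * Real.sinh (2 * Real.pi * ρ) := by
        have := sinh_mul_le (l := 4 * s) (z := 2 * Real.pi * ρ) (by linarith only [s0]) (by linarith only [h1, hs])
          (by positivity)
        rwa [show 4 * s * (2 * Real.pi * ρ) = 2 * Real.pi * (4 * ρ * s) by ring] at this
      have a3 : 0 ≤ Real.sinh (2 * Real.pi * -w.im) := by
        rw [Real.sinh_nonneg_iff]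
        have : 0 ≤ -w.im := by linarith only [ht]
        positivity
      calc _ ≤ Real.sinh (2 * Real.pi * -w.im) * (4 * s * Real.sinh (2 * Real.pi * ρ)) :=
            mul_le_mul_of_nonneg_left a2 a3
        _ = 4 * s * (Real.sinh (2 * Real.pi * -w.im) * Real.sinh (2 * Real.pi * ρ)) := by ring
        _ ≤ 1 * (2 * Real.pi * ρ) := by
          apply mul_le_mul (by linarith only [h1, hs]) a1
          · apply mul_nonneg a3
            rw [Real.sinh_nonneg_iff]; positivity
          · norm_num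
        _ = _ := one_mul _
    have k6 : 0 ≤ Real.sin (2 * Real.pi * w.re) * Real.sin (2 * Real.pi * s) := by
      apply mul_nonneg
      · apply Real.sin_nonneg_of_nonneg_of_le_pi
        · have : 0 ≤ w.re := by linarith only [hx0]
          positivity
        · nlinarith only [h0, h1, hx, hpi]
      · apply Real.sin_nonneg_of_nonneg_of_le_pi
        · positivity
        · nlinarith only [h0, hpi, h1, hs]
    rw [div_one] at k1
    linarith only [k4, k1, k5, k6]
  · have k5 : 0 ≤ 4 * ρ * (Real.pi / 2) := by positivity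
    linarith only [k4, k1, k5]

/-- the conditions on a hinge under which the location theorem is proved by derivatives -/
structure HOk (ρ : ℝ) (w : ℂ) : Prop where
  re0 : 0 ≤ w.re
  re1 : w.re ≤ 1 / 2
  im : w.im ≤ 0
  pc : PCond ρ w ∨ PMid ρ w

theorem HOk.nonneg {ρ σ : ℝ} {w : ℂ} (h : HOk ρ w) (hρ : 0 < ρ) (h0 : -(1 / 2) < σ)
    (h1 : σ ≤ -(1 / 4)) : 0 ≤ Dm (4 * ρ) w (LT.zt ρ σ) := by
  rcases h.pc with hp | hp
  · exact Dm_ramp_nonneg (b := 4) hρ hp h0 h1 h.im h.re0 h.re1 (by positivity)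
  · exact Dm_mid_nonneg hρ hp h0 h1 h.im h.re1 rfl

/-- all hinges with height `≤ 0` -/
theorem HOk_of {b ρ : ℝ} {w : ℂ} {k : RKe} (hρ : 0 < ρ) (hb : 4 ≤ b) (hc : RCap b ρ)
    (h : k.ok b w) (hk : k.up = true → w.im ≤ 0) (hx : w.re ≤ 1 / 2) : HOk ρ w := by
  have hpi := Real.pi_pos
  obtain ⟨c4, c5, c6, -, -⟩ := hc
  cases k with
  | no =>
    have h0 : w = 0 := h
    rw [h0]
    exact ⟨by simp, by simp, by simp, Or.inl (PCond_zero ρ)⟩
  | one =>
    obtain ⟨T, cr, t1, t2, t3, t4, ⟨r1, r2⟩, hw⟩ := h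
    have him : w.im ≤ 0 := by
      rw [hw.im]
      exact mul_nonpos_of_nonpos_of_nonneg (by linarith only [hρ, c4, t2]) (le_max_left _ _)
    refine ⟨hw.re0, hx, him, ?_⟩
    have hni := hw.neg_im_le (by linarith only [hρ, c4, t2]) (by linarith only [hρ, c4, r1])
    rcases le_total w.re (36 / 100) with h36 | h36
    · left
      refine PCond_start (c0 := 14 / 100) hρ.le (by linarith only [hρ, c4, t2]) (by norm_num) (by norm_num)
        (by norm_num) (by linarith only [hρ, c4, r1]) (by linarith only [hρ, c4, r2]) hw (by linarith only [h36]) ?_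
      rcases lt_or_ge b 5 with hb5 | hb5
      · exact K_one4 (by linarith only [hρ, c4, t2]) (by linarith only [t3, hb5, t3 hb5]) hρ.le c4
      · exact K_one5 (by linarith only [hρ, c4, t2]) (by linarith only [t1]) hρ.le (c5 hb5)
    · have hx1 : 0 ≤ 65 / 100 - w.re := by linarith only [hρ, hx, c4]
      have e : ∀ a : ℝ, -T ≤ a → -w.im ≤ a / (29 / 100) * (65 / 100 - w.re) := by
        intro a ha
        refine hni.trans ?_
        have h1 : 0 ≤ (65 / 100 - w.re) / cr := div_nonneg hx1 (by linarith only [hρ, c4, r1])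
        have h2 : (65 / 100 - w.re) / cr ≤ (65 / 100 - w.re) / (29 / 100) :=
          div_le_div_of_nonneg_left hx1 (by norm_num) r1
        calc -T * ((65 / 100 - w.re) / cr) ≤ a * ((65 / 100 - w.re) / cr) :=
              mul_le_mul_of_nonneg_right ha h1
          _ ≤ a * ((65 / 100 - w.re) / (29 / 100)) := mul_le_mul_of_nonneg_left h2 (by linarith only [hρ, c4, t2, ha])
          _ = _ := by ring
      rcases le_total w.re (40 / 100) with h42 | h42
      · left
        rcases lt_or_ge b 5 with hb5 | hb5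
        · refine PCond_of_le (by linarith only [him]) ((e (128 / 1000) (by linarith only [t3, hb5, t3 hb5])).trans (le_of_eq ?_))
            hρ.le c4 (K_oneR4 h36 h42)
          ring
        · refine PCond_of_le (by linarith only [him]) ((e (158 / 1000) (by linarith only [t1])).trans (le_of_eq ?_))
            hρ.le (c5 hb5) (K_oneR5 h36 h42)
          ring
      · right
        refine ⟨h42, ?_⟩
        rcases lt_or_ge b 6 with hb6 | hb6
        · left
          have := e (138 / 1000) (by linarith only [t4, hb6, t4 hb6])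
          refine ⟨c4, ?_⟩
          have h3 : (138 / 1000 : ℝ) / (29 / 100) * (65 / 100 - w.re) ≤ 1321 / 10000 := by
            rw [show (138 / 1000 : ℝ) / (29 / 100) = 138 / 290 by norm_num]
            linarith only [hρ, c4, h42]
          linarith only [hρ, c4, h42, this]
        · right
          have := e (158 / 1000) (by linarith only [t1])
          refine ⟨c6 hb6, ?_⟩
          have h3 : (158 / 1000 : ℝ) / (29 / 100) * (65 / 100 - w.re) ≤ 1365 / 10000 := by
            rw [show (158 / 1000 : ℝ) / (29 / 100) = 158 / 290 by norm_num]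
            linarith only [hρ, c4, h42]
          linarith only [hρ, c4, h42, this]
  | lo =>
    obtain ⟨T, cl, cr, t1, t2, t3, ⟨l1, l2⟩, ⟨r1, r2⟩, hw⟩ := h
    have him : w.im ≤ 0 := by
      rw [hw.im]
      exact mul_nonpos_of_nonpos_of_nonneg t2 (le_max_left _ _)
    refine ⟨hw.re0, hx, him, ?_⟩
    have hni := hw.neg_im_le t2 (by linarith only [hρ, c4, r1])
    rcases le_total w.re (40 / 100) with h40 | h40
    · left
      have hK : Real.sinh (2 * Real.pi * -T) * Real.sinh (2 * Real.pi * ρ) ≤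
          Real.sin (2 * Real.pi * (1 / 10)) := by
        rcases lt_or_ge b 5 with hb5 | hb5
        · exact K_lo4 (by linarith only [t2]) (by linarith only [t3, hb5, t3 hb5]) hρ.le c4
        · exact K_lo5 (by linarith only [t2]) (by linarith only [t1]) hρ.le (c5 hb5)
      exact PCond_start (c0 := 1 / 10) hρ.le t2 (by norm_num) l1 (by linarith only [hρ, c4, l2]) (by linarith only [hρ, c4, r1])
        (by linarith only [hρ, c4, l2, r2]) hw (by linarith only [h40]) hK
    · have e : ∀ a : ℝ, -T ≤ a → -w.im ≤ a * (2 / 3) := by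
        intro a ha
        refine hni.trans ?_
        have h1 : 0 ≤ (60 / 100 - w.re) / cr := div_nonneg (by linarith only [hρ, hx, c4]) (by linarith only [hρ, c4, r1])
        have h2 : (60 / 100 - w.re) / cr ≤ 2 / 3 := by
          rw [div_le_iff₀ (by linarith only [hρ, c4, r1])]
          linarith only [r1, h40]
        have h3 : 0 ≤ -T := by linarith only [t2]
        calc -T * ((60 / 100 - w.re) / cr) ≤ a * ((60 / 100 - w.re) / cr) :=
              mul_le_mul_of_nonneg_right ha h1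
          _ ≤ _ := mul_le_mul_of_nonneg_left h2 (by linarith only [t2, ha])
      rcases le_total w.re (42 / 100) with h42 | h42
      · left
        have h8 : Real.sin (2 * Real.pi * (8 / 100)) ≤ Real.sin (2 * Real.pi * w.re) := by
          rw [← Real.sin_pi_sub (2 * Real.pi * w.re)]
          apply Real.sin_le_sin_of_le_of_le_pi_div_two <;> nlinarith only [hpi, hρ, c4, h40, h42]
        rcases lt_or_ge b 5 with hb5 | hb5
        · refine PCond_of_le (ρ' := 1045 / 10000) (τ := 768 / 10000) (by linarith only [him])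
            ((e (115 / 1000) (by linarith only [t3, hb5, t3 hb5])).trans (by norm_num)) hρ.le c4
            ((K_loR4 (by norm_num) le_rfl (by norm_num) le_rfl).trans h8)
        · refine PCond_of_le (ρ' := 725 / 10000) (τ := 875 / 10000) (by linarith only [him])
            ((e (131 / 1000) (by linarith only [t1])).trans (by norm_num)) hρ.le (c5 hb5)
            ((K_loR5 (by norm_num) le_rfl (by norm_num) le_rfl).trans h8)
      · right
        have := e (131 / 1000) (by linarith only [t1])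
        exact ⟨by linarith only [h40], Or.inl ⟨c4, by linarith only [hρ, c4, this]⟩⟩
  | rr =>
    obtain ⟨T, t1, t2, t3, -, hw⟩ := h
    have him := hk rfl
    rcases le_or_gt T 0 with hT | hT
    · have hK : Real.sinh (2 * Real.pi * -T) * Real.sinh (2 * Real.pi * ρ) ≤
          Real.sin (2 * Real.pi * (2 / 100)) := by
        rcases lt_or_ge b 5 with hb5 | hb5
        · exact K_rr4 (by linarith only [hT]) (by linarith only [t3, hb5, t3 hb5]) hρ.le c4
        · exact K_rr5 (by linarith only [hT]) (by linarith only [hρ, c4, t1]) hρ.le (c5 hb5)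
      exact ⟨hw.re0, hw.reM, him, Or.inl (PCond_half hρ.le hT (by norm_num) (by norm_num) (by norm_num)
        hw (hK.trans sin_cr_le) hK)⟩
    · have h0 : w.im = 0 := le_antisymm him (by
        rw [hw.im]
        exact mul_nonneg hT.le (le_max_left _ _))
      refine ⟨hw.re0, hw.reM, him, ?_⟩
      left
      unfold PCond
      rw [h0, neg_zero, mul_zero, Real.sinh_zero, zero_mul]
      have := hw.re0
      have := hw.reM
      apply Real.sin_nonneg_of_nonneg_of_le_pi
      · positivity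
      · nlinarith only [hx, hpi]
  | ps => exact absurd (hk rfl) (not_le.2 h.2.1)

/-- **Lower location, heights `≤ 0`.** -/
theorem RM.ge_of_nonpos {b ρ σ : ℝ} {w w' : ℂ} (h : RM b ρ w w' σ) (h1 : HOk ρ w) (h2 : HOk ρ w')
    (h0 : -(1 / 2) < σ) : -(1 / 4) - 1 / (2 * b) ≤ σ := by
  by_contra hcon
  push Not at hcon
  have hb := h.b4
  have hρ := h.ρ0
  have hpi := Real.pi_pos
  have hb0 : 0 < 1 / (2 * b) := by positivity
  have hσ : σ < -(1 / 4) := by linarith only [hcon, hb0]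
  have key := h.right_ramp h0 hσ h1.re0 (by linarith only [h0, hcon, hb0, h1, h1.re1]) h2.re0 (by linarith only [h0, hcon, hb0, h2, h2.re1])
  have a1 := h1.nonneg hρ h0 hσ.le
  have a2 := h2.nonneg hρ h0 hσ.le
  have a3 : 2 + b + 4 * b * σ < 0 := by
    have : 4 * b * σ < 4 * b * (-(1 / 4) - 1 / (2 * b)) :=
      mul_lt_mul_of_pos_left hcon (by positivity)
    have e : 4 * b * (-(1 / 4) - 1 / (2 * b)) = -b - 2 := by
      field_simp
      ring
    linarith only [this, e]
  have a4 : 0 < -(4 * Real.pi * ρ * (2 + b + 4 * b * σ)) := by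
    have : 4 * Real.pi * ρ * (2 + b + 4 * b * σ) < 0 :=
      mul_neg_of_pos_of_neg (by positivity) a3
    linarith only [key, a1, a2, this]
  linarith only [key, a1, a2, a4]

end Pool.Agent.Work.MP_b30479_gtS.G2

end

section

/-!
# Floors of `1 | ring` and `2 | ring` at a large hinge `1 | 2`: the side of the ring

`sideA`, `sideB`: lower bounds of the side of the ring at slope `0`.
-/

namespace Pool.Agent.Work.MP_b30479_gtS.G2

open VOL NumIs

namespace CF3



variable {b ρ σ x T e s : ℝ} {w w' ζ : ℂ} {k k' : RKe}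

/-! ### numbers -/

section
open NumIs.E

private def k0 (n : ℤ) : E := sub (sinPi (q n 100)) (mul (sinh (mul (mul (q 2 1) pi) (var 0)))
  (sinh (mul (mul (q 2 1) pi) (var 1))))

private theorem k0_of {n : ℤ} {τ ρ : ℝ} (h : 0 < (k0 n).val [τ, ρ]) :
    Real.sinh (2 * Real.pi * τ) * Real.sinh (2 * Real.pi * ρ) ≤
      Real.sin (2 * Real.pi * ((n : ℝ) / 200)) := by
  simp only [k0, E.val, lkR_zero, lkR_one] at h
  simp only [Int.cast_ofNat, Nat.cast_ofNat, Int.cast_one, Nat.cast_one, div_one] at h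
  have e : 2 * Real.pi * ((n : ℝ) / 200) = Real.pi * (n / 100) := by ring
  rw [e]
  linarith only [h]

private theorem K_lo4 {τ ρ : ℝ} (h0 : 0 ≤ τ) (h1 : τ ≤ 115 / 1000) (h2 : 0 ≤ ρ) (h3 : ρ ≤ 1089 / 10000) :
    Real.sinh (2 * Real.pi * τ) * Real.sinh (2 * Real.pi * ρ) ≤
      Real.sin (2 * Real.pi * (1 / 10)) := by
  have g : chk [k0 20] 40 [V.of 10000 0 1150, V.of 10000 0 1089] = true := by decide +kernel
  have := k0_of (pos_of_chk (chk2 g (x := τ) (y := ρ) (by norm_num) (by simpa using h0)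
    (by norm_num; linarith only [h1]) (by simpa using h2) (by norm_num; linarith only [h3])))
  norm_num at this ⊢
  linarith only [this]

private theorem K_lo5 {τ ρ : ℝ} (h0 : 0 ≤ τ) (h1 : τ ≤ 131 / 1000) (h2 : 0 ≤ ρ) (h3 : ρ ≤ 756 / 10000) :
    Real.sinh (2 * Real.pi * τ) * Real.sinh (2 * Real.pi * ρ) ≤
      Real.sin (2 * Real.pi * (1 / 10)) := by
  have g : chk [k0 20] 40 [V.of 10000 0 1310, V.of 10000 0 756] = true := by decide +kernel
  have := k0_of (pos_of_chk (chk2 g (x := τ) (y := ρ) (by norm_num) (by simpa using h0)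
    (by norm_num; linarith only [h1]) (by simpa using h2) (by norm_num; linarith only [h3])))
  norm_num at this ⊢
  linarith only [this]

private theorem K_rr4 {τ ρ : ℝ} (h0 : 0 ≤ τ) (h1 : τ ≤ 25 / 1000) (h2 : 0 ≤ ρ) (h3 : ρ ≤ 1089 / 10000) :
    Real.sinh (2 * Real.pi * τ) * Real.sinh (2 * Real.pi * ρ) ≤
      Real.sin (2 * Real.pi * (2 / 100)) := by
  have g : chk [k0 4] 40 [V.of 10000 0 250, V.of 10000 0 1089] = true := by decide +kernel
  have := k0_of (pos_of_chk (chk2 g (x := τ) (y := ρ) (by norm_num) (by simpa using h0)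
    (by norm_num; linarith only [h1]) (by simpa using h2) (by norm_num; linarith only [h3])))
  norm_num at this ⊢
  linarith only [this]

private theorem K_rr5 {τ ρ : ℝ} (h0 : 0 ≤ τ) (h1 : τ ≤ 385 / 10000) (h2 : 0 ≤ ρ) (h3 : ρ ≤ 756 / 10000) :
    Real.sinh (2 * Real.pi * τ) * Real.sinh (2 * Real.pi * ρ) ≤
      Real.sin (2 * Real.pi * (2 / 100)) := by
  have g : chk [k0 4] 40 [V.of 10000 0 385, V.of 10000 0 756] = true := by decide +kernel
  have := k0_of (pos_of_chk (chk2 g (x := τ) (y := ρ) (by norm_num) (by simpa using h0)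
    (by norm_num; linarith only [h1]) (by simpa using h2) (by norm_num; linarith only [h3])))
  norm_num at this ⊢
  linarith only [this]

private theorem K_one4 {τ ρ : ℝ} (h0 : 0 ≤ τ) (h1 : τ ≤ 128 / 1000) (h2 : 0 ≤ ρ) (h3 : ρ ≤ 1089 / 10000) :
    Real.sinh (2 * Real.pi * τ) * Real.sinh (2 * Real.pi * ρ) ≤
      Real.sin (2 * Real.pi * (12 / 100)) := by
  have g : chk [k0 24] 40 [V.of 10000 0 1280, V.of 10000 0 1089] = true := by decide +kernel
  have := k0_of (pos_of_chk (chk2 g (x := τ) (y := ρ) (by norm_num) (by simpa using h0)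
    (by norm_num; linarith only [h1]) (by simpa using h2) (by norm_num; linarith only [h3])))
  norm_num at this ⊢
  linarith only [this]

private theorem K_one5 {τ ρ : ℝ} (h0 : 0 ≤ τ) (h1 : τ ≤ 158 / 1000) (h2 : 0 ≤ ρ) (h3 : ρ ≤ 756 / 10000) :
    Real.sinh (2 * Real.pi * τ) * Real.sinh (2 * Real.pi * ρ) ≤
      Real.sin (2 * Real.pi * (12 / 100)) := by
  have g : chk [k0 24] 40 [V.of 10000 0 1580, V.of 10000 0 756] = true := by decide +kernel
  have := k0_of (pos_of_chk (chk2 g (x := τ) (y := ρ) (by norm_num) (by simpa using h0)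
    (by norm_num; linarith only [h1]) (by simpa using h2) (by norm_num; linarith only [h3])))
  norm_num at this ⊢
  linarith only [this]

private theorem K_sin : (24 : ℝ) / 25 ≤ Real.sin (Real.pi * (41 / 100)) := by
  have g : chk [sub (sinPi (q 41 100)) (q 24 25)] 1 [V.of 1 0 0] = true := by decide +kernel
  have h := pos_of_chk (chk1 g (by norm_num) (x := 0) (by norm_num) (by norm_num))
  simp only [NumIs.E.val] at h
  push_cast at h
  linarith only [h]

end

/-! ### the derivative of the other hinge on the flat part -/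

theorem sin_sigma (h0 : -(1 / 4) ≤ σ) (h1 : σ ≤ -(205 / 1000)) :
    24 / 25 ≤ Real.sin (2 * Real.pi * -σ) := by
  have hpi := Real.pi_pos
  refine K_sin.trans ?_
  apply Real.sin_le_sin_of_le_of_le_pi_div_two <;> nlinarith only [hpi, h0, h1]

/-- the condition at `25/24 ρ` is enough on the flat part -/
theorem PCond.flat {ρ' : ℝ} (h : PCond ρ' w) (hρ' : 25 / 24 * ρ = ρ') (hρ : 0 < ρ)
    (h0 : -(1 / 4) ≤ σ) (h1 : σ ≤ -(205 / 1000)) (ht : w.im ≤ 0) :
    Real.sinh (2 * Real.pi * -w.im) * Real.sinh (2 * Real.pi * ρ) ≤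
      Real.sin (2 * Real.pi * w.re) * Real.sin (2 * Real.pi * -σ) := by
  have hpi := Real.pi_pos
  have e3 : Real.sinh (2 * Real.pi * ρ) ≤ 24 / 25 * Real.sinh (2 * Real.pi * ρ') := by
    have := sinh_mul_le (l := 24 / 25) (z := 2 * Real.pi * ρ') (by norm_num) (by norm_num)
      (by rw [← hρ']; positivity)
    rwa [show 24 / 25 * (2 * Real.pi * ρ') = 2 * Real.pi * ρ by rw [← hρ']; ring] at this
  have e4 : 0 ≤ Real.sinh (2 * Real.pi * -w.im) := by
    rw [Real.sinh_nonneg_iff]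
    have : 0 ≤ -w.im := by linarith only [ht]
    positivity
  have e5 : 0 ≤ Real.sinh (2 * Real.pi * ρ') := by
    rw [Real.sinh_nonneg_iff, ← hρ']
    positivity
  unfold PCond at h
  have e6 : 0 ≤ Real.sin (2 * Real.pi * w.re) := (mul_nonneg e4 e5).trans h
  have e7 := sin_sigma h0 h1
  calc _ ≤ Real.sinh (2 * Real.pi * -w.im) * (24 / 25 * Real.sinh (2 * Real.pi * ρ')) :=
        mul_le_mul_of_nonneg_left e3 e4
    _ = 24 / 25 * (Real.sinh (2 * Real.pi * -w.im) * Real.sinh (2 * Real.pi * ρ')) := by ring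
    _ ≤ 24 / 25 * Real.sin (2 * Real.pi * w.re) := mul_le_mul_of_nonneg_left h (by norm_num)
    _ ≤ _ := by
      rw [mul_comm]
      exact mul_le_mul_of_nonneg_left e7 e6

/-- the same for height `≥ 0` and `Re w ≤ 1/4 - σ` -/
theorem LL_ring_nonneg_pos {t η : ℝ} (hw : w = x + t * Complex.I) (hζ : ζ = σ + η * Complex.I)
    (ht : 0 ≤ t) (hη : 0 ≤ η) (hx : 0 ≤ x) (hx' : x + σ ≤ 1 / 4) (h0 : -(1 / 4) ≤ σ) (h1 : σ ≤ 0) :
    0 ≤ LL (w + 1 / 2 + ζ) - LL (w + 1 / 2 - ζ) := by
  have hpi := Real.pi_pos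
  have ui : (w + 1 / 2 + ζ).im = t + η := by rw [hw, hζ]; simp
  have ur : (w + 1 / 2 + ζ).re = x + 1 / 2 + σ := by rw [hw, hζ]; simp
  have vi : (w + 1 / 2 - ζ).im = t - η := by rw [hw, hζ]; simp
  have vr : (w + 1 / 2 - ζ).re = x + 1 / 2 - σ := by rw [hw, hζ]; simp
  have a1 : 0 ≤ Real.sinh (2 * Real.pi * t) * Real.sinh (2 * Real.pi * η) := by
    apply mul_nonneg
    · rw [Real.sinh_nonneg_iff]
      positivity
    · rw [Real.sinh_nonneg_iff]
      positivity
  have a2 : 0 ≤ Real.sin (2 * Real.pi * x) * Real.sin (2 * Real.pi * -σ) := by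
    apply mul_nonneg
    · apply Real.sin_nonneg_of_nonneg_of_le_pi
      · positivity
      · nlinarith only [hx', hpi, h0]
    · apply Real.sin_nonneg_of_nonneg_of_le_pi
      · have : 0 ≤ -σ := by linarith only [h1]
        positivity
      · nlinarith only [hpi, h0]
  rw [mul_neg, Real.sin_neg] at a2
  rw [LL_eq', LL_eq', ui, ur, vi, vr]
  have e1 : Real.cos (2 * Real.pi * (x + 1 / 2 + σ)) =
      -(Real.cos (2 * Real.pi * x) * Real.cos (2 * Real.pi * σ) -
        Real.sin (2 * Real.pi * x) * Real.sin (2 * Real.pi * σ)) := by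
    rw [show 2 * Real.pi * (x + 1 / 2 + σ) = 2 * Real.pi * x + 2 * Real.pi * σ + Real.pi by ring,
      Real.cos_add_pi, Real.cos_add]
  have e2 : Real.cos (2 * Real.pi * (x + 1 / 2 - σ)) =
      -(Real.cos (2 * Real.pi * x) * Real.cos (2 * Real.pi * σ) +
        Real.sin (2 * Real.pi * x) * Real.sin (2 * Real.pi * σ)) := by
    rw [show 2 * Real.pi * (x + 1 / 2 - σ) = 2 * Real.pi * x - 2 * Real.pi * σ + Real.pi by ring,
      Real.cos_add_pi, Real.cos_sub]
  have e3 : Real.cosh (2 * Real.pi * (t + η)) = Real.cosh (2 * Real.pi * t) *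
      Real.cosh (2 * Real.pi * η) + Real.sinh (2 * Real.pi * t) * Real.sinh (2 * Real.pi * η) := by
    rw [mul_add, Real.cosh_add]
  have e4 : Real.cosh (2 * Real.pi * (t - η)) = Real.cosh (2 * Real.pi * t) *
      Real.cosh (2 * Real.pi * η) - Real.sinh (2 * Real.pi * t) * Real.sinh (2 * Real.pi * η) := by
    rw [mul_sub, Real.cosh_sub]
  have h3 := Real.one_le_cosh (2 * Real.pi * (t - η))
  have h4 := Real.one_le_cosh (2 * Real.pi * (t + η))
  have h2 := Real.cos_le_one (2 * Real.pi * (x + 1 / 2 - σ))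
  have h5 : Real.cos (2 * Real.pi * (x + 1 / 2 + σ)) ≤ 0 := by
    apply Real.cos_nonpos_of_pi_div_two_le_of_le
    · nlinarith only [hx, hpi, h0]
    · nlinarith only [hx', hpi]
  rw [← sub_div]
  apply div_nonneg _ (by norm_num)
  rw [sub_nonneg]
  rcases eq_or_lt_of_le (show 0 ≤ 2 * Real.cosh (2 * Real.pi * (t - η)) -
      2 * Real.cos (2 * Real.pi * (x + 1 / 2 - σ)) by linarith only [h3, h2]) with h6 | h6
  · rw [← h6, Real.log_zero]
    exact Real.log_nonneg (by linarith only [a1, e3, e4, h3, h5])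
  · apply Real.log_le_log h6
    rw [e1, e2, e3, e4]
    linarith only [a1, a2]

/-- the derivative of a hinge `≤ .38` (`≤ .40`) is `≥ 0` -/
theorem D0_nonneg (hk : k.ok b w) (hc : RCap b ρ) (hb : 4 ≤ b) (hρ : 0 < ρ)
    (h0 : -(1 / 4) ≤ σ) (h1 : σ ≤ -(205 / 1000)) (hx : k = .one → w.re ≤ 38 / 100)
    (hx' : k = .lo → w.re ≤ 40 / 100) (hp : k = .ps → w.re ≤ 40 / 100) (hr : k.cp ρ w) :
    0 ≤ Dm 0 w (LT.zt ρ σ) := by
  have hpi := Real.pi_pos
  obtain ⟨c4, c5, -, -, -⟩ := hc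
  have hth : LT.th σ = 1 := th_of_le (by rw [abs_of_nonpos (by linarith only [hρ, h1, c4])]; linarith only [h0])
  have hz : LT.zt ρ σ = (σ : ℂ) + (ρ : ℂ) * Complex.I := by
    rw [zt_mk, hth, mul_one]
  have hρ' : 0 ≤ 25 / 24 * ρ := by positivity
  cases k with
  | no =>
    have e0 : w = 0 := hk
    have h1 := LL_one_sub (0 + 1 / 2 + LT.zt ρ σ)
    rw [show (1 : ℂ) - (0 + 1 / 2 + LT.zt ρ σ) = 0 + 1 / 2 - LT.zt ρ σ by ring] at h1
    rw [e0]
    unfold Dm Dq
    rw [h1]
    simp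
  | one =>
    have hx := hx rfl
    obtain ⟨T, cr, t1, t2, t3, t4, ⟨r1, r2⟩, hw⟩ := hk
    have him : w.im ≤ 0 := by
      rw [hw.im]
      exact mul_nonpos_of_nonpos_of_nonneg (by linarith only [hρ, c4, t2]) (le_max_left _ _)
    have hP : PCond (25 / 24 * ρ) w := by
      refine PCond_start (c0 := 12 / 100) hρ' (by linarith only [hρ, c4, t2]) (by norm_num) (by norm_num)
        (by norm_num) (by linarith only [hρ, c4, r1]) (by linarith only [hρ, c4, r2]) hw (by linarith only [hx]) ?_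
      rcases lt_or_ge b 5 with hb5 | hb5
      · exact K_one4 (by linarith only [hρ, c4, t2]) (by linarith only [t3, hb5, t3 hb5]) hρ' (by linarith only [hρ, c4])
      · exact K_one5 (by linarith only [hρ, c4, t2]) (by linarith only [t1]) hρ' (by linarith only [hρ, c5, hb5, c5 hb5])
    exact Dm_nonneg le_rfl hw.re0 (by linarith only [hρ, c4, hx]) him (by linarith only [hρ, h1, c4]) (by linarith only [hρ, h0, c4]) hρ
      (PCond.flat hP rfl hρ h0 h1 him) hz
  | lo =>
    have hx := hx' rfl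
    obtain ⟨T, cl, cr, t1, t2, t3, ⟨l1, l2⟩, ⟨r1, r2⟩, hw⟩ := hk
    have him : w.im ≤ 0 := by
      rw [hw.im]
      exact mul_nonpos_of_nonpos_of_nonneg t2 (le_max_left _ _)
    have hP : PCond (25 / 24 * ρ) w := by
      refine PCond_start (c0 := 1 / 10) hρ' t2 (by norm_num) l1 (by linarith only [hρ, c4, l2]) (by linarith only [hρ, c4, r1])
        (by linarith only [hρ, c4, l2, r2]) hw (by linarith only [hx]) ?_
      rcases lt_or_ge b 5 with hb5 | hb5
      · exact K_lo4 (by linarith only [t2]) (by linarith only [t3, hb5, t3 hb5]) hρ' (by linarith only [hρ, c4])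
      · exact K_lo5 (by linarith only [t2]) (by linarith only [t1]) hρ' (by linarith only [hρ, c5, hb5, c5 hb5])
    exact Dm_nonneg le_rfl hw.re0 (by linarith only [hρ, c4, hx]) him (by linarith only [hρ, h1, c4]) (by linarith only [hρ, h0, c4]) hρ
      (PCond.flat hP rfl hρ h0 h1 him) hz
  | rr =>
    obtain ⟨T, t1, t2, t3, t5, hw⟩ := hk
    rcases le_or_gt T 0 with hT | hT
    · have him : w.im ≤ 0 := by
        rw [hw.im]
        exact mul_nonpos_of_nonpos_of_nonneg hT (le_max_left _ _)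
      have hK : Real.sinh (2 * Real.pi * -T) * Real.sinh (2 * Real.pi * (25 / 24 * ρ)) ≤
          Real.sin (2 * Real.pi * (2 / 100)) := by
        rcases lt_or_ge b 5 with hb5 | hb5
        · exact K_rr4 (by linarith only [hT]) (by linarith only [t3, hb5, t3 hb5]) hρ' (by linarith only [hρ, c4])
        · exact K_rr5 (by linarith only [hT]) (by linarith only [t1]) hρ' (by linarith only [hρ, c5, hb5, c5 hb5])
      have hP : PCond (25 / 24 * ρ) w := PCond_half hρ' hT (by norm_num) (by norm_num) (by norm_num)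
        hw (hK.trans sin_cr_le) hK
      exact Dm_nonneg le_rfl hw.re0 hw.reM him (by linarith only [hρ, h1, c4]) (by linarith only [hρ, h0, c4]) hρ
        (PCond.flat hP rfl hρ h0 h1 him) hz
    · have him : 0 ≤ w.im := by
        rw [hw.im]
        exact mul_nonneg hT.le (le_max_left _ _)
      have h2 := LL_ring_nonneg_pos (x := w.re) (t := w.im) (σ := σ) (η := ρ) (w := w)
        (ζ := LT.zt ρ σ) (re_im_eq w) hz him hρ.le hw.re0 (by
          have : w.re ≤ 27 / 100 := hr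
          linarith only [h1, t2, hT, this]) h0 (by linarith only [h1, t2, hT])
      unfold Dm Dq
      simpa using h2
  | ps =>
    have hx := hp rfl
    obtain ⟨-, p1, -, p3, -⟩ := hk
    have h2 := LL_ring_nonneg_pos (x := w.re) (t := w.im) (σ := σ) (η := ρ) (w := w)
      (ζ := LT.zt ρ σ) (re_im_eq w) hz p1.le hρ.le (by linarith only [p1, p3]) (by linarith only [h1, hx, p1, p3]) h0 (by linarith only [h1, hx, p1, p3])
    unfold Dm Dq
    simpa using h2

end CF3

end Pool.Agent.Work.MP_b30479_gtS.G2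

end

section

/-!
# Part of `RC3e`
-/
set_option linter.unusedSimpArgs false

namespace Pool.Agent.Work.MP_b30479_gtS.G2

open VOL NumIs

namespace RC3e

section
variable {w ζ : ℂ} {σ η : ℝ}

theorem u_re (hζ : ζ = σ + η * Complex.I) : (w + 1 / 2 + ζ).re = w.re + 1 / 2 + σ := by
  rw [hζ]; simp

theorem u_im (hζ : ζ = σ + η * Complex.I) : (w + 1 / 2 + ζ).im = w.im + η := by
  rw [hζ]; simp

theorem v_re (hζ : ζ = σ + η * Complex.I) : (w + 1 / 2 - ζ).re = w.re + 1 / 2 - σ := by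
  rw [hζ]; simp

theorem v_im (hζ : ζ = σ + η * Complex.I) : (w + 1 / 2 - ζ).im = w.im - η := by
  rw [hζ]; simp

theorem LL_u (hζ : ζ = σ + η * Complex.I) : LL (w + 1 / 2 + ζ) =
    Real.log (2 * (Real.cosh (2 * Real.pi * (w.im + η)) + Real.cos (2 * Real.pi * (w.re + σ)))) / 2 := by
  rw [LL_eq', u_re hζ, u_im hζ,
    show 2 * Real.pi * (w.re + 1 / 2 + σ) = 2 * Real.pi * (w.re + σ) + Real.pi by ring,
    Real.cos_add_pi]
  congr 2
  ring

theorem LL_v (hζ : ζ = σ + η * Complex.I) : LL (w + 1 / 2 - ζ) =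
    Real.log (2 * (Real.cosh (2 * Real.pi * (w.im - η)) + Real.cos (2 * Real.pi * (w.re - σ)))) / 2 := by
  rw [LL_eq', v_re hζ, v_im hζ,
    show 2 * Real.pi * (w.re + 1 / 2 - σ) = 2 * Real.pi * (w.re - σ) + Real.pi by ring,
    Real.cos_add_pi]
  congr 2
  ring

end

/-- the vertical derivative is `≤ 0` to the right of `1/2`, `Im v < 0` -/
theorem YY_nonpos {v : ℂ} (h1 : 1 / 2 ≤ v.re) (h : v.im < 0) : YY v ≤ 0 := by
  rw [YY_neg h]
  linarith only [h, h1, half_le_Tr (s := -v.im) (x := v.re) (by linarith only [h]) h1]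

/-- `LL v` by `sin` and `sinh` -/
theorem LL_sq (v : ℂ) : LL v = 1 / 2 * Real.log (4 * (Real.sin (Real.pi * (1 - v.re)) ^ 2 +
    Real.sinh (Real.pi * -v.im) ^ 2)) := by
  rw [LL_eq']
  have e1 : Real.cosh (2 * Real.pi * v.im) = 1 + 2 * Real.sinh (Real.pi * -v.im) ^ 2 := by
    rw [show 2 * Real.pi * v.im = 2 * (Real.pi * v.im) by ring, Real.cosh_two_mul, Real.cosh_sq,
      mul_neg, Real.sinh_neg]
    ring
  have e2 : Real.cos (2 * Real.pi * v.re) = 1 - 2 * Real.sin (Real.pi * (1 - v.re)) ^ 2 := by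
    rw [show 2 * Real.pi * v.re = 2 * (Real.pi * v.re) by ring, Real.cos_two_mul, Real.cos_sq',
      show Real.pi * (1 - v.re) = Real.pi - Real.pi * v.re by ring, Real.sin_pi_sub]
    ring
  rw [e1, e2, show 2 * (1 + 2 * Real.sinh (Real.pi * -v.im) ^ 2) -
    2 * (1 - 2 * Real.sin (Real.pi * (1 - v.re)) ^ 2) = 4 * (Real.sin (Real.pi * (1 - v.re)) ^ 2 +
    Real.sinh (Real.pi * -v.im) ^ 2) by ring]
  ring

theorem LL_le_lin {v : ℂ} (h : v.im < 0) : LL v ≤ 1 / 2 * (4 * (Real.sin (Real.pi * (1 - v.re)) ^ 2 +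
    Real.sinh (Real.pi * -v.im) ^ 2) - 1) := by
  rw [LL_sq]
  have hp := Real.pi_pos
  have h1 : 0 < Real.sinh (Real.pi * -v.im) := by
    rw [Real.sinh_pos_iff]
    have : 0 < -v.im := by linarith only [h]
    positivity
  have := Real.log_le_sub_one_of_pos (x := 4 * (Real.sin (Real.pi * (1 - v.re)) ^ 2 +
    Real.sinh (Real.pi * -v.im) ^ 2)) (by positivity)
  linarith only [this]

section
open E

/-- height on the ramp, variables `x m` -/
def tE : E := neg (mul (var 1) (sub (q 6 10) (var 0)))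
def pi2 : E := mul (q 2 1) pi
def kE : E := mul (exp (q 2 10)) (sq (sub (cosh (mul pi2 tE)) (cosPi (mul (q 2 1) (var 0)))))

/-- flat part, `[26/100, 28/100]`, variables `x m σ η` -/
def gF : E := sub kE
  (mul (add (cosh (mul pi2 (add tE (var 3)))) (cosPi (mul (q 2 1) (add (var 0) (var 2)))))
    (add (cosh (mul pi2 (sub tE (var 3)))) (cosPi (mul (q 2 1) (sub (var 0) (var 2))))))

/-- ramp, variables `x m s η` -/
def gR : E := sub kE
  (mul (sub (cosh (mul pi2 (add tE (var 3)))) (cosPi (mul (q 2 1) (add (var 0) (var 2)))))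
    (sub (cosh (mul pi2 (sub tE (var 3)))) (cosPi (mul (q 2 1) (sub (var 0) (var 2))))))
def cR : E := sub (var 3) (mul (q 418 1000) (var 2))

/-- ramp, `[32/100, 60/100]` -/
def rR : E := sub (q 4 100) (add (sub (add (lnA (add (var 0) (var 2)) (add tE (var 3)))
  (lnA (sub (var 0) (var 2)) (sub tE (var 3)))) (mul (q 2 1) (lnA (var 0) tE)))
  (mul (var 1) (sub (sub (mul (q 2 1) (lnB (var 0) tE)) (lnB (add (var 0) (var 2)) (add tE (var 3))))
    (lnB (sub (var 0) (var 2)) (sub tE (var 3))))))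

/-- `1 - Re v`, `-Im v`, `4 (sin^2 + sinh^2)` -/
def aE : E := add (sub (q 1 2) (var 0)) (var 2)
def sE : E := sub (var 3) tE
def yE : E := mul (q 4 1) (add (sq (sinPi aE)) (sq (sinh (mul pi sE))))
def uE : E := add (add (var 0) (q 1 2)) (var 2)

/-- bounds of `LL v` -/
def lg : E := mul (q 1 2) (log yE)
def ln : E := mul (q 1 2) (sub yE (q 1 1))

/-- bounds of `YY v` -/
def yA : E := sub (atan (mul (mul (sinPi aE) (cosh (mul pi sE)))
  (inv (mul (cosPi aE) (sinh (mul pi sE)))))) (mul (q 1 2) pi)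
def y0 : E := q 0 1
def yB : E := neg (mul (q 1 2) pi)

/-- `l` bounds `LL v`, `y` bounds `YY v`, zone `x + σ ≤ 4/10` -/
def a1 (l y : E) : E := sub (q 4 100) (add (sub (add (lnA uE (add tE (var 3))) l)
  (mul (q 2 1) (lnA (var 0) tE))) (mul (var 1) (add (sub (add pi
    (mul (q 2 1) (lnB (var 0) tE))) (lnB uE (add tE (var 3)))) y)))

/-- the same with `LL u ≤ 0`, `YY u ≤ (r - 1) π` -/
def a2 (r l y : E) : E := sub (q 4 100) (add (sub l
  (mul (q 2 1) (lnA (var 0) tE))) (mul (var 1) (add (add (mul r pi)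
    (mul (q 2 1) (lnB (var 0) tE))) y)))

/-- `n / d ≤ x + σ` resp. `x + σ ≤ n / d` as alternatives -/
def xge (n : ℤ) (d : ℕ) : E := sub (add (var 0) (var 2)) (q n d)
def xle (n : ℤ) (d : ℕ) : E := sub (q n d) (add (var 0) (var 2))

end

section
variable {x m σ s η : ℝ}

theorem num_ramp2_h1_q1 : chk [rR, cR] 37
    (NumIs.setL 2 (NumIs.setL 2 (NumIs.setL 0 [V.of 10000 3200 6000, V.of 10000 0 1710, V.of 10000 0 2500,
    V.of 10000 0 1045]))) = true := by
  decide +kernel

theorem num_ramp2_h1_q2 : chk [rR, cR] 36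
    (NumIs.setL 3 (NumIs.setR 2 (NumIs.setL 2 (NumIs.setL 0 [V.of 10000 3200 6000, V.of 10000 0 1710, V.of 10000 0 2500,
    V.of 10000 0 1045])))) = true := by
  decide +kernel

theorem num_ramp2_h1_q3 : chk [rR, cR] 36
    (NumIs.setR 3 (NumIs.setR 2 (NumIs.setL 2 (NumIs.setL 0 [V.of 10000 3200 6000, V.of 10000 0 1710, V.of 10000 0 2500,
    V.of 10000 0 1045])))) = true := by
  decide +kernel

theorem num_ramp2_h1_q4 : chk [rR, cR] 37
    (NumIs.setL 2 (NumIs.setR 2 (NumIs.setL 0 [V.of 10000 3200 6000, V.of 10000 0 1710, V.of 10000 0 2500,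
    V.of 10000 0 1045]))) = true := by
  decide +kernel

theorem num_ramp2_h1_q5 : chk [rR, cR] 36
    (NumIs.setL 3 (NumIs.setR 2 (NumIs.setR 2 (NumIs.setL 0 [V.of 10000 3200 6000, V.of 10000 0 1710, V.of 10000 0 2500,
    V.of 10000 0 1045])))) = true := by
  decide +kernel

theorem num_ramp2_h1_q6 : chk [rR, cR] 36
    (NumIs.setR 3 (NumIs.setR 2 (NumIs.setR 2 (NumIs.setL 0 [V.of 10000 3200 6000, V.of 10000 0 1710, V.of 10000 0 2500,
    V.of 10000 0 1045])))) = true := by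
  decide +kernel

theorem num_ramp2_h1_q7 : chk [rR, cR] 37
    (NumIs.setL 2 (NumIs.setL 2 (NumIs.setR 0 [V.of 10000 3200 6000, V.of 10000 0 1710, V.of 10000 0 2500,
    V.of 10000 0 1045]))) = true := by
  decide +kernel

theorem num_ramp2_h1_q8 : chk [rR, cR] 37
    (NumIs.setR 2 (NumIs.setL 2 (NumIs.setR 0 [V.of 10000 3200 6000, V.of 10000 0 1710, V.of 10000 0 2500,
    V.of 10000 0 1045]))) = true := by
  decide +kernel

theorem num_ramp2_h1_q9 : chk [rR, cR] 38
    (NumIs.setR 2 (NumIs.setR 0 [V.of 10000 3200 6000, V.of 10000 0 1710, V.of 10000 0 2500,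
    V.of 10000 0 1045])) = true := by
  decide +kernel

theorem num_ramp2_h1 : chk [rR, cR] 40
    [V.of 10000 3200 6000, V.of 10000 0 1710, V.of 10000 0 2500,
    V.of 10000 0 1045] = true :=
  NumIs.chk_node (i := 0) (by decide +kernel)
    (NumIs.chk_node (i := 2) (by decide +kernel)
      (NumIs.chk_node (i := 2) (by decide +kernel)
        num_ramp2_h1_q1
        (NumIs.chk_node (i := 3) (by decide +kernel)
          num_ramp2_h1_q2
          num_ramp2_h1_q3))
      (NumIs.chk_node (i := 2) (by decide +kernel)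
        num_ramp2_h1_q4
        (NumIs.chk_node (i := 3) (by decide +kernel)
          num_ramp2_h1_q5
          num_ramp2_h1_q6)))
    (NumIs.chk_node (i := 2) (by decide +kernel)
      (NumIs.chk_node (i := 2) (by decide +kernel)
        num_ramp2_h1_q7
        num_ramp2_h1_q8)
      num_ramp2_h1_q9)

/-- the value of `lg` -/
noncomputable def Lg (a s : ℝ) : ℝ :=
  1 / 2 * Real.log (4 * (Real.sin (Real.pi * a) ^ 2 + Real.sinh (Real.pi * s) ^ 2))

/-- the value of `ln` -/
noncomputable def Ln (a s : ℝ) : ℝ :=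
  1 / 2 * (4 * (Real.sin (Real.pi * a) ^ 2 + Real.sinh (Real.pi * s) ^ 2) - 1)

/-- the value of `yA` -/
noncomputable def Ya (a s : ℝ) : ℝ := Real.arctan (Real.sin (Real.pi * a) *
  Real.cosh (Real.pi * s) * (Real.cos (Real.pi * a) * Real.sinh (Real.pi * s))⁻¹) - 1 / 2 * Real.pi

theorem lg_val : E.val lg [x, m, σ, η] = Lg (1 / 2 - x + σ) (η - -(m * (60 / 100 - x))) := by
  simp only [lg, yE, aE, sE, tE, E.val, lkR_zero, lkR_one, lkR_succ, Lg]
  simp only [Int.cast_ofNat, Nat.cast_ofNat, Int.cast_one, Nat.cast_one, div_one]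
  norm_num

theorem ln_val : E.val ln [x, m, σ, η] = Ln (1 / 2 - x + σ) (η - -(m * (60 / 100 - x))) := by
  simp only [ln, yE, aE, sE, tE, E.val, lkR_zero, lkR_one, lkR_succ, Ln]
  simp only [Int.cast_ofNat, Nat.cast_ofNat, Int.cast_one, Nat.cast_one, div_one]
  norm_num

theorem yA_val : E.val yA [x, m, σ, η] = Ya (1 / 2 - x + σ) (η - -(m * (60 / 100 - x))) := by
  simp only [yA, aE, sE, tE, E.val, lkR_zero, lkR_one, lkR_succ, Ya]
  simp only [Int.cast_ofNat, Nat.cast_ofNat, Int.cast_one, Nat.cast_one, div_one]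
  norm_num

theorem a1_val (l y : E) : E.val (a1 l y) [x, m, σ, η] = 4 / 100 -
    (lnA (x + 1 / 2 + σ) (-(m * (60 / 100 - x)) + η) + E.val l [x, m, σ, η] -
      2 * lnA x (-(m * (60 / 100 - x))) + m * (Real.pi + 2 * lnB x (-(m * (60 / 100 - x))) -
        lnB (x + 1 / 2 + σ) (-(m * (60 / 100 - x)) + η) + E.val y [x, m, σ, η])) := by
  simp only [a1, uE, tE, E.val, lkR_zero, lkR_one, lkR_succ]
  simp only [Int.cast_ofNat, Nat.cast_ofNat, Int.cast_one, Nat.cast_one, div_one]
  rw [show (60 : ℝ) / 100 = 6 / 10 by norm_num]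

theorem a2_val (n : ℤ) (d : ℕ) (l y : E) : E.val (a2 (E.q n d) l y) [x, m, σ, η] = 4 / 100 -
    (E.val l [x, m, σ, η] - 2 * lnA x (-(m * (60 / 100 - x))) +
      m * ((n : ℝ) / d * Real.pi + 2 * lnB x (-(m * (60 / 100 - x))) + E.val y [x, m, σ, η])) := by
  simp only [a2, tE, E.val, lkR_zero, lkR_one, lkR_succ]
  simp only [Int.cast_ofNat, Nat.cast_ofNat, Int.cast_one, Nat.cast_one, div_one]
  rw [show (60 : ℝ) / 100 = 6 / 10 by norm_num]

theorem y0_val : E.val y0 [x, m, σ, η] = 0 := by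
  simp only [y0, E.val]
  norm_num

theorem yB_val : E.val yB [x, m, σ, η] = -(1 / 2 * Real.pi) := by
  simp only [yB, E.val]
  norm_num

variable {L Y : ℝ}

theorem num_F1b_h1_q1 : chk [a1 lg yA, a1 lg yB, a1 ln yB, xge 4 10, aE] 39
    (NumIs.setL 0 [V.of 10000 3200 6000,
    V.of 10000 0 1710, V.of 10000 (-2500) 0, V.of 10000 0 1045]) = true := by
  decide +kernel

theorem num_F1b_h1_q2 : chk [a1 lg yA, a1 lg yB, a1 ln yB, xge 4 10, aE] 38
    (NumIs.setL 2 (NumIs.setR 0 [V.of 10000 3200 6000,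
    V.of 10000 0 1710, V.of 10000 (-2500) 0, V.of 10000 0 1045])) = true := by
  decide +kernel

theorem num_F1b_h1_q3 : chk [a1 lg yA, a1 lg yB, a1 ln yB, xge 4 10, aE] 38
    (NumIs.setR 2 (NumIs.setR 0 [V.of 10000 3200 6000,
    V.of 10000 0 1710, V.of 10000 (-2500) 0, V.of 10000 0 1045])) = true := by
  decide +kernel

theorem num_F1b_h1 : chk [a1 lg yA, a1 lg yB, a1 ln yB, xge 4 10, aE] 40
    [V.of 10000 3200 6000,
    V.of 10000 0 1710, V.of 10000 (-2500) 0, V.of 10000 0 1045] = true :=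
  NumIs.chk_node (i := 0) (by decide +kernel)
    num_F1b_h1_q1
    (NumIs.chk_node (i := 2) (by decide +kernel)
      num_F1b_h1_q2
      num_F1b_h1_q3)

end

section
open E

theorem kr_10_11 : MR.Kr (10 / 100) (11 / 100) 0 := by
  have h : chk [sub (q 1 1) (sub (mul (q 2 1) (cosh (mul pi (q 22 100))))
      (mul (q 2 1) (cosPi (q 20 100))))] 1 [V.of 1 0 0] = true := by decide +kernel
  have hp := pos_of_chk (chk1 h (by norm_num) (x := 0) (by norm_num) (by norm_num))
  unfold MR.Kr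
  simp only [val] at hp
  rw [mul_zero, Real.exp_zero]
  norm_num at hp ⊢
  linarith only [hp]

end

variable {w : ℂ} {m ρ σ : ℝ}

theorem zt_im_ramp (h : -(1 / 2) < σ) (h' : σ ≤ -(1 / 4)) :
    LT.zt ρ σ = (σ : ℂ) + ((4 * ρ * (σ + 1 / 2) : ℝ) : ℂ) * Complex.I := by
  rw [zt_mk, th_of_ge (by rw [abs_of_nonpos (by linarith only [h, h'])]; linarith only [h']),
    abs_of_nonpos (by linarith only [h, h'])]
  congr 3
  ring

theorem zt_im_flat (h : -(1 / 4) ≤ σ) (h' : σ ≤ 0) :
    LT.zt ρ σ = (σ : ℂ) + (ρ : ℂ) * Complex.I := by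
  rw [zt_mk, th_of_le (by rw [abs_of_nonpos h']; linarith only [h]), mul_one]

end RC3e

end Pool.Agent.Work.MP_b30479_gtS.G2

end

section

/-!
# Part of `RC3e`
-/
set_option linter.unusedSimpArgs false

namespace Pool.Agent.Work.MP_b30479_gtS.G2

open VOL NumIs

namespace RC3e

section
variable {w ζ : ℂ} {σ η : ℝ}

/-- the horizontal part of the side -/
theorem LL_part_le {K c : ℝ} (hζ : ζ = σ + η * Complex.I) (hK : 0 < K) (hc : Real.log K = 2 * c)
    (hA : 0 < Real.cosh (2 * Real.pi * (w.im + η)) + Real.cos (2 * Real.pi * (w.re + σ)))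
    (hB : 0 < Real.cosh (2 * Real.pi * (w.im - η)) + Real.cos (2 * Real.pi * (w.re - σ)))
    (hC : 0 < Real.cosh (2 * Real.pi * w.im) - Real.cos (2 * Real.pi * w.re))
    (h : (Real.cosh (2 * Real.pi * (w.im + η)) + Real.cos (2 * Real.pi * (w.re + σ))) *
      (Real.cosh (2 * Real.pi * (w.im - η)) + Real.cos (2 * Real.pi * (w.re - σ))) ≤
      K * (Real.cosh (2 * Real.pi * w.im) - Real.cos (2 * Real.pi * w.re)) ^ 2) :
    LL (w + 1 / 2 + ζ) + LL (w + 1 / 2 - ζ) - 2 * LL w ≤ c := by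
  rw [LL_u hζ, LL_v hζ, LL_eq' w,
    show 2 * Real.cosh (2 * Real.pi * w.im) - 2 * Real.cos (2 * Real.pi * w.re) =
      2 * (Real.cosh (2 * Real.pi * w.im) - Real.cos (2 * Real.pi * w.re)) by ring]
  generalize Real.cosh (2 * Real.pi * (w.im + η)) + Real.cos (2 * Real.pi * (w.re + σ)) = A at *
  generalize Real.cosh (2 * Real.pi * (w.im - η)) + Real.cos (2 * Real.pi * (w.re - σ)) = B at *
  generalize Real.cosh (2 * Real.pi * w.im) - Real.cos (2 * Real.pi * w.re) = C at *
  have h1 : Real.log (2 * A) + Real.log (2 * B) ≤ 2 * c + 2 * Real.log (2 * C) := by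
    have e1 : Real.log (2 * A) + Real.log (2 * B) = Real.log (2 * A * (2 * B)) :=
      (Real.log_mul (by positivity) (by positivity)).symm
    have e2 : 2 * c + 2 * Real.log (2 * C) = Real.log (K * (2 * C) ^ 2) := by
      rw [Real.log_mul hK.ne' (by positivity), Real.log_pow, hc]
      norm_num
    rw [e1, e2]
    apply Real.log_le_log (by positivity)
    nlinarith only [h]
  linarith only [h1]

end

/-- the vertical derivative to the left and to the right of `Re v = 1`, `Im v < 0` -/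
theorem YY_right {v : ℂ} (h1 : 1 / 2 < v.re) (h2 : v.re < 3 / 2) (h : v.im < 0) :
    YY v = -(Real.pi / 2) + Real.arctan (Real.sin (Real.pi * (1 - v.re)) *
      Real.cosh (Real.pi * -v.im) * (Real.cos (Real.pi * (1 - v.re)) *
        Real.sinh (Real.pi * -v.im))⁻¹) := by
  have hp := Real.pi_pos
  set a := 1 - v.re with ha
  set s := -v.im with hs
  have hs0 : 0 < s := by linarith only [h]
  have hc : 0 < Real.cos (Real.pi * a) := by
    apply Real.cos_pos_of_mem_Ioo
    constructor <;> nlinarith only [h2, hp, h1]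
  have hsh : 0 < Real.sinh (Real.pi * s) := by
    rw [Real.sinh_pos_iff]
    positivity
  have hch : 0 < Real.cosh (Real.pi * s) := Real.cosh_pos _
  rcases lt_trichotomy a 0 with h3 | h3 | h3
  · have hsa : Real.sin (Real.pi * a) < 0 := by
      apply Real.sin_neg_of_neg_of_neg_pi_lt <;> nlinarith only [hp, h3, h2]
    have e := YY_add_one (v - 1)
    rw [sub_add_cancel] at e
    have r1 : (v - 1).re = -a := by simp [ha]
    have r2 : (v - 1).im = -s := by simp [hs]
    rw [e, r2, if_neg (by linarith only [h]), if_pos (by linarith only [h]),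
      Num.YY_lnB ⟨by rw [r1]; linarith only [h3], by rw [r1]; linarith only [h2, h3]⟩, r1, r2]
    have hy : Real.sin (Real.pi * a) * Real.cosh (Real.pi * s) *
        (Real.cos (Real.pi * a) * Real.sinh (Real.pi * s))⁻¹ < 0 :=
      mul_neg_of_neg_of_pos (mul_neg_of_neg_of_pos hsa hch) (by positivity)
    have h4 := Real.arctan_inv_of_neg hy
    have e5 : lnB (-a) (-s) = Real.arctan ((Real.sin (Real.pi * a) * Real.cosh (Real.pi * s) *
        (Real.cos (Real.pi * a) * Real.sinh (Real.pi * s))⁻¹)⁻¹) := by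
      unfold lnB
      congr 1
      rw [mul_neg, mul_neg, Real.cos_neg, Real.sin_neg, Real.sinh_neg, Real.cosh_neg, mul_inv,
        inv_inv, div_eq_mul_inv, ← neg_mul_eq_neg_mul, ← neg_mul_eq_mul_neg, inv_neg, neg_mul_neg,
        mul_comm]
    rw [e5, h4]
    ring
  · have e1 : v = ((starRingEnd ℂ) (((s : ℝ) : ℂ) * Complex.I)) + 1 := by
      apply Complex.ext
      · simp
        linarith only [h3]
      · simp [hs]
    rw [h3, mul_zero, Real.sin_zero, zero_mul, zero_mul, Real.arctan_zero, add_zero, e1, YY_add_one,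
      YY_conj, MR.YY_it hs0]
    have i1 : ((starRingEnd ℂ) (((s : ℝ) : ℂ) * Complex.I)).im = -s := by simp
    rw [i1, if_neg (by linarith only [h]), if_pos (by linarith only [h])]
    ring
  · have hsa : 0 < Real.sin (Real.pi * a) := by
      apply Real.sin_pos_of_pos_of_lt_pi <;> nlinarith only [hp, h3, h1]
    rw [Num.YY_lnB ⟨by linarith only [h1, h3], by linarith only [h3]⟩]
    have hy : 0 < Real.sin (Real.pi * a) * Real.cosh (Real.pi * s) *
        (Real.cos (Real.pi * a) * Real.sinh (Real.pi * s))⁻¹ := by positivity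
    have h4 := Real.arctan_inv_of_pos hy
    have e5 : lnB v.re v.im = Real.arctan ((Real.sin (Real.pi * a) * Real.cosh (Real.pi * s) *
        (Real.cos (Real.pi * a) * Real.sinh (Real.pi * s))⁻¹)⁻¹) := by
      unfold lnB
      congr 1
      rw [show v.re = 1 - a by rw [ha]; ring, show v.im = -s by rw [hs]; ring, mul_sub, mul_one,
        Real.cos_pi_sub, Real.sin_pi_sub, mul_neg, Real.sinh_neg, Real.cosh_neg, mul_inv,
        inv_inv, div_eq_mul_inv, neg_mul_neg, mul_comm]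
    rw [e5, h4]
    ring

section
variable {x m σ s η : ℝ}

theorem num_flat (h1 : 26 / 100 ≤ x) (h1' : x ≤ 28 / 100) (h2 : 0 ≤ m) (h2' : m ≤ 171 / 1000)
    (h3 : -(1 / 4) ≤ σ) (h3' : σ ≤ 0) (h4 : 0 ≤ η) (h4' : η ≤ 1045 / 10000) :
    (Real.cosh (2 * Real.pi * (-(m * (60 / 100 - x)) + η)) + Real.cos (2 * Real.pi * (x + σ))) *
      (Real.cosh (2 * Real.pi * (-(m * (60 / 100 - x)) - η)) + Real.cos (2 * Real.pi * (x - σ))) ≤
      Real.exp (2 / 10) * (Real.cosh (2 * Real.pi * -(m * (60 / 100 - x))) -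
        Real.cos (2 * Real.pi * x)) ^ 2 := by
  have g : chk [gF] 40 [V.of 10000 2600 2800, V.of 10000 0 1710, V.of 10000 (-2500) 0,
    V.of 10000 0 1045] = true := by decide +kernel
  have h := pos_of_chk (chk4 g (by norm_num) (x := x) (y := m) (z := σ) (w := η)
    (le_trans (by norm_num) h1) (le_trans h1' (by norm_num)) (le_trans (by norm_num) h2)
    (le_trans h2' (by norm_num)) (le_trans (by norm_num) h3) (le_trans h3' (by norm_num))
    (le_trans (by norm_num) h4) (le_trans h4' (by norm_num)))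
  simp only [gF, kE, pi2, tE, E.val, lkR_zero, lkR_one, lkR_succ] at h
  simp only [Int.cast_ofNat, Nat.cast_ofNat, Int.cast_one, Nat.cast_one, div_one] at h
  rw [show 2 * Real.pi * x = Real.pi * (2 * x) by ring,
    show 2 * Real.pi * (x + σ) = Real.pi * (2 * (x + σ)) by ring,
    show 2 * Real.pi * (x - σ) = Real.pi * (2 * (x - σ)) by ring,
    show (60 : ℝ) / 100 = 6 / 10 by norm_num]
  linarith only [h]

theorem num_ramp (h1 : 26 / 100 ≤ x) (h1' : x ≤ 28 / 100) (h2 : 0 ≤ m) (h2' : m ≤ 171 / 1000)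
    (h3 : 0 ≤ s) (h3' : s ≤ 1 / 4) (h4 : 0 ≤ η) (h4' : η ≤ 418 / 1000 * s) :
    (Real.cosh (2 * Real.pi * (-(m * (60 / 100 - x)) + η)) - Real.cos (2 * Real.pi * (x + s))) *
      (Real.cosh (2 * Real.pi * (-(m * (60 / 100 - x)) - η)) - Real.cos (2 * Real.pi * (x - s))) ≤
      Real.exp (2 / 10) * (Real.cosh (2 * Real.pi * -(m * (60 / 100 - x))) -
        Real.cos (2 * Real.pi * x)) ^ 2 := by
  have g : chk [gR, cR] 40 [V.of 10000 2600 2800, V.of 10000 0 1710, V.of 10000 0 2500,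
    V.of 10000 0 1045] = true := by decide +kernel
  obtain ⟨f, hf, h⟩ := chk4 g (by norm_num) (x := x) (y := m) (z := s) (w := η)
    (le_trans (by norm_num) h1) (le_trans h1' (by norm_num)) (le_trans (by norm_num) h2)
    (le_trans h2' (by norm_num)) (le_trans (by norm_num) h3) (le_trans h3' (by norm_num))
    (le_trans (by norm_num) h4) (by norm_num; linarith only [h3', h4'])
  simp only [List.mem_cons, List.not_mem_nil, or_false] at hf
  rcases hf with rfl | rfl
  · simp only [gR, kE, pi2, tE, E.val, lkR_zero, lkR_one, lkR_succ] at h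
    simp only [Int.cast_ofNat, Nat.cast_ofNat, Int.cast_one, Nat.cast_one, div_one] at h
    rw [show 2 * Real.pi * x = Real.pi * (2 * x) by ring,
      show 2 * Real.pi * (x + s) = Real.pi * (2 * (x + s)) by ring,
      show 2 * Real.pi * (x - s) = Real.pi * (2 * (x - s)) by ring,
      show (60 : ℝ) / 100 = 6 / 10 by norm_num]
    linarith only [h]
  · simp only [cR, E.val, lkR_zero, lkR_one, lkR_succ] at h
    push_cast at h
    linarith only [h4', h]

end

end RC3e

end Pool.Agent.Work.MP_b30479_gtS.G2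

end

section

/-!
# Part of `RC3e`
-/
set_option linter.unusedSimpArgs false

namespace Pool.Agent.Work.MP_b30479_gtS.G2

open VOL NumIs

namespace RC3e

section
variable {x m σ s η : ℝ}

variable {L Y : ℝ}

theorem num_F1a (h1 : 32 / 100 ≤ x) (h2 : 0 ≤ m) (h2' : m ≤ 171 / 1000) (h3' : σ ≤ 0)
    (h4 : 0 ≤ η) (h4' : η ≤ 1045 / 10000) (h5 : x + σ ≤ 4 / 10) (h6 : 0 ≤ 1 / 2 - x + σ)
    (hL1 : L ≤ Lg (1 / 2 - x + σ) (η - -(m * (60 / 100 - x))))
    (hL2 : L ≤ Ln (1 / 2 - x + σ) (η - -(m * (60 / 100 - x))))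
    (hY1 : Y ≤ Ya (1 / 2 - x + σ) (η - -(m * (60 / 100 - x)))) (hY2 : Y ≤ 0) :
    lnA (x + 1 / 2 + σ) (-(m * (60 / 100 - x)) + η) + L - 2 * lnA x (-(m * (60 / 100 - x))) +
      m * (Real.pi + 2 * lnB x (-(m * (60 / 100 - x))) -
        lnB (x + 1 / 2 + σ) (-(m * (60 / 100 - x)) + η) + Y) ≤ 4 / 100 := by
  have g : chk [a1 lg yA, a1 lg y0, a1 ln y0, xge 4 10, E.neg aE] 40 [V.of 10000 3200 5000,
    V.of 10000 0 1710, V.of 10000 (-1800) 0, V.of 10000 0 1045] = true := by decide +kernel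
  obtain ⟨f, hf, h⟩ := chk4 g (by norm_num) (x := x) (y := m) (z := σ) (w := η)
    (le_trans (by norm_num) h1) (by norm_num; linarith only [h5, h6]) (le_trans (by norm_num) h2)
    (le_trans h2' (by norm_num)) (by norm_num; linarith only [h1, h6]) (le_trans h3' (by norm_num))
    (le_trans (by norm_num) h4) (le_trans h4' (by norm_num))
  have k1 := mul_le_mul_of_nonneg_left hY1 h2
  have k2 := mul_le_mul_of_nonneg_left hY2 h2
  simp only [List.mem_cons, List.not_mem_nil, or_false] at hf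
  rcases hf with rfl | rfl | rfl | rfl | rfl
  · rw [a1_val, lg_val, yA_val] at h
    linarith only [hL1, k1, h]
  · rw [a1_val, lg_val, y0_val] at h
    linarith only [hL1, k2, h]
  · rw [a1_val, ln_val, y0_val] at h
    linarith only [hL2, k2, h]
  · simp only [xge, E.val, lkR_zero, lkR_one, lkR_succ] at h
    push_cast at h
    linarith only [h5, h]
  · simp only [aE, E.val, lkR_zero, lkR_one, lkR_succ] at h
    push_cast at h
    linarith only [h6, h]

theorem num_F1b (h1 : 32 / 100 ≤ x) (h1' : x ≤ 60 / 100) (h2 : 0 ≤ m) (h2' : m ≤ 171 / 1000)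
    (h3 : -(1 / 4) ≤ σ) (h3' : σ ≤ 0)
    (h4 : 0 ≤ η) (h4' : η ≤ 1045 / 10000) (h5 : x + σ ≤ 4 / 10) (h6 : 1 / 2 - x + σ ≤ 0)
    (hL1 : L ≤ Lg (1 / 2 - x + σ) (η - -(m * (60 / 100 - x))))
    (hL2 : L ≤ Ln (1 / 2 - x + σ) (η - -(m * (60 / 100 - x))))
    (hY1 : Y ≤ Ya (1 / 2 - x + σ) (η - -(m * (60 / 100 - x)))) (hY2 : Y ≤ -(1 / 2 * Real.pi)) :
    lnA (x + 1 / 2 + σ) (-(m * (60 / 100 - x)) + η) + L - 2 * lnA x (-(m * (60 / 100 - x))) +
      m * (Real.pi + 2 * lnB x (-(m * (60 / 100 - x))) -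
        lnB (x + 1 / 2 + σ) (-(m * (60 / 100 - x)) + η) + Y) ≤ 4 / 100 := by
  have g : chk [a1 lg yA, a1 lg yB, a1 ln yB, xge 4 10, aE] 40 [V.of 10000 3200 6000,
    V.of 10000 0 1710, V.of 10000 (-2500) 0, V.of 10000 0 1045] = true := num_F1b_h1
  obtain ⟨f, hf, h⟩ := chk4 g (by norm_num) (x := x) (y := m) (z := σ) (w := η)
    (le_trans (by norm_num) h1) (le_trans h1' (by norm_num)) (le_trans (by norm_num) h2)
    (le_trans h2' (by norm_num)) (le_trans (by norm_num) h3) (le_trans h3' (by norm_num))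
    (le_trans (by norm_num) h4) (le_trans h4' (by norm_num))
  have k1 := mul_le_mul_of_nonneg_left hY1 h2
  have k2 := mul_le_mul_of_nonneg_left hY2 h2
  simp only [List.mem_cons, List.not_mem_nil, or_false] at hf
  rcases hf with rfl | rfl | rfl | rfl | rfl
  · rw [a1_val, lg_val, yA_val] at h
    linarith only [hL1, k1, h]
  · rw [a1_val, lg_val, yB_val] at h
    linarith only [hL1, k2, h]
  · rw [a1_val, ln_val, yB_val] at h
    linarith only [hL2, k2, h]
  · simp only [xge, E.val, lkR_zero, lkR_one, lkR_succ] at h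
    push_cast at h
    linarith only [h5, h]
  · simp only [aE, E.val, lkR_zero, lkR_one, lkR_succ] at h
    push_cast at h
    linarith only [h6, h]

theorem num_F2a (h2 : 0 ≤ m) (h2' : m ≤ 171 / 1000) (h3' : σ ≤ 0)
    (h4 : 0 ≤ η) (h4' : η ≤ 1045 / 10000) (h5 : 4 / 10 ≤ x + σ) (h6 : 0 ≤ 1 / 2 - x + σ)
    (hL1 : L ≤ Lg (1 / 2 - x + σ) (η - -(m * (60 / 100 - x))))
    (hL2 : L ≤ Ln (1 / 2 - x + σ) (η - -(m * (60 / 100 - x))))
    (hY1 : Y ≤ Ya (1 / 2 - x + σ) (η - -(m * (60 / 100 - x)))) (hY2 : Y ≤ 0) :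
    L - 2 * lnA x (-(m * (60 / 100 - x))) +
      m * (3 / 2 * Real.pi + 2 * lnB x (-(m * (60 / 100 - x))) + Y) ≤ 4 / 100 := by
  have g : chk [a2 (E.q 3 2) lg yA, a2 (E.q 3 2) lg y0, a2 (E.q 3 2) ln y0] 40
    [V.of 10000 4000 5000, V.of 10000 0 1710, V.of 10000 (-1000) 0, V.of 10000 0 1045] = true := by
    decide +kernel
  obtain ⟨f, hf, h⟩ := chk4 g (by norm_num) (x := x) (y := m) (z := σ) (w := η)
    (by norm_num; linarith only [h3', h5]) (by norm_num; linarith only [h3', h6]) (le_trans (by norm_num) h2)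
    (le_trans h2' (by norm_num)) (by norm_num; linarith only [h5, h6]) (le_trans h3' (by norm_num))
    (le_trans (by norm_num) h4) (le_trans h4' (by norm_num))
  have k1 := mul_le_mul_of_nonneg_left hY1 h2
  have k2 := mul_le_mul_of_nonneg_left hY2 h2
  simp only [List.mem_cons, List.not_mem_nil, or_false] at hf
  rcases hf with rfl | rfl | rfl
  · rw [a2_val, lg_val, yA_val] at h
    push_cast at h
    linarith only [hL1, k1, h]
  · rw [a2_val, lg_val, y0_val] at h
    push_cast at h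
    linarith only [hL1, k2, h]
  · rw [a2_val, ln_val, y0_val] at h
    push_cast at h
    linarith only [hL2, k2, h]

theorem num_F2b (h1' : x ≤ 60 / 100) (h2 : 0 ≤ m) (h2' : m ≤ 171 / 1000) (h3' : σ ≤ 0)
    (h4 : 0 ≤ η) (h4' : η ≤ 1045 / 10000) (h5 : 4 / 10 ≤ x + σ) (h6 : 1 / 2 - x + σ ≤ 0)
    (h7 : x + σ ≤ 5 / 10)
    (hL1 : L ≤ Lg (1 / 2 - x + σ) (η - -(m * (60 / 100 - x))))
    (hL2 : L ≤ Ln (1 / 2 - x + σ) (η - -(m * (60 / 100 - x))))
    (hY1 : Y ≤ Ya (1 / 2 - x + σ) (η - -(m * (60 / 100 - x)))) (hY2 : Y ≤ -(1 / 2 * Real.pi)) :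
    L - 2 * lnA x (-(m * (60 / 100 - x))) +
      m * (3 / 2 * Real.pi + 2 * lnB x (-(m * (60 / 100 - x))) + Y) ≤ 4 / 100 := by
  have g : chk [a2 (E.q 3 2) lg yA, a2 (E.q 3 2) lg yB, a2 (E.q 3 2) ln yB, xle 4 10, xge 5 10, aE]
    40 [V.of 10000 4000 6000, V.of 10000 0 1710, V.of 10000 (-2000) 0, V.of 10000 0 1045] = true := by
    decide +kernel
  obtain ⟨f, hf, h⟩ := chk4 g (by norm_num) (x := x) (y := m) (z := σ) (w := η)
    (by norm_num; linarith only [h3', h5]) (by norm_num; linarith only [h1']) (le_trans (by norm_num) h2)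
    (le_trans h2' (by norm_num)) (by norm_num; linarith only [h1', h5]) (le_trans h3' (by norm_num))
    (le_trans (by norm_num) h4) (le_trans h4' (by norm_num))
  have k1 := mul_le_mul_of_nonneg_left hY1 h2
  have k2 := mul_le_mul_of_nonneg_left hY2 h2
  simp only [List.mem_cons, List.not_mem_nil, or_false] at hf
  rcases hf with rfl | rfl | rfl | rfl | rfl | rfl
  · rw [a2_val, lg_val, yA_val] at h
    push_cast at h
    linarith only [hL1, k1, h]
  · rw [a2_val, lg_val, yB_val] at h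
    push_cast at h
    linarith only [hL1, k2, h]
  · rw [a2_val, ln_val, yB_val] at h
    push_cast at h
    linarith only [hL2, k2, h]
  · simp only [xle, E.val, lkR_zero, lkR_one, lkR_succ] at h
    push_cast at h
    linarith only [h5, h]
  · simp only [xge, E.val, lkR_zero, lkR_one, lkR_succ] at h
    push_cast at h
    linarith only [h7, h]
  · simp only [aE, E.val, lkR_zero, lkR_one, lkR_succ] at h
    push_cast at h
    linarith only [h6, h]

theorem num_F3 (h1' : x ≤ 60 / 100) (h2 : 0 ≤ m) (h2' : m ≤ 171 / 1000) (h3' : σ ≤ 0)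
    (h4 : 0 ≤ η) (h4' : η ≤ 1045 / 10000) (h7 : 5 / 10 ≤ x + σ)
    (hL1 : L ≤ Lg (1 / 2 - x + σ) (η - -(m * (60 / 100 - x))))
    (hL2 : L ≤ Ln (1 / 2 - x + σ) (η - -(m * (60 / 100 - x))))
    (hY1 : Y ≤ Ya (1 / 2 - x + σ) (η - -(m * (60 / 100 - x)))) (hY2 : Y ≤ -(1 / 2 * Real.pi)) :
    L - 2 * lnA x (-(m * (60 / 100 - x))) +
      m * (2 * Real.pi + 2 * lnB x (-(m * (60 / 100 - x))) + Y) ≤ 4 / 100 := by
  have g : chk [a2 (E.q 2 1) lg yA, a2 (E.q 2 1) lg yB, a2 (E.q 2 1) ln yB, xle 5 10]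
    40 [V.of 10000 5000 6000, V.of 10000 0 1710, V.of 10000 (-1000) 0, V.of 10000 0 1045] = true := by
    decide +kernel
  obtain ⟨f, hf, h⟩ := chk4 g (by norm_num) (x := x) (y := m) (z := σ) (w := η)
    (by norm_num; linarith only [h3', h7]) (by norm_num; linarith only [h1']) (le_trans (by norm_num) h2)
    (le_trans h2' (by norm_num)) (by norm_num; linarith only [h1', h7]) (le_trans h3' (by norm_num))
    (le_trans (by norm_num) h4) (le_trans h4' (by norm_num))
  have k1 := mul_le_mul_of_nonneg_left hY1 h2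
  have k2 := mul_le_mul_of_nonneg_left hY2 h2
  simp only [List.mem_cons, List.not_mem_nil, or_false] at hf
  rcases hf with rfl | rfl | rfl | rfl
  · rw [a2_val, lg_val, yA_val] at h
    push_cast at h
    linarith only [hL1, k1, h]
  · rw [a2_val, lg_val, yB_val] at h
    push_cast at h
    linarith only [hL1, k2, h]
  · rw [a2_val, ln_val, yB_val] at h
    push_cast at h
    linarith only [hL2, k2, h]
  · simp only [xle, E.val, lkR_zero, lkR_one, lkR_succ] at h
    push_cast at h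
    linarith only [h7, h]

end

end RC3e

end Pool.Agent.Work.MP_b30479_gtS.G2

end

section

/-!
# Upper location of the ring variable with positive heights
-/

namespace Pool.Agent.Work.MP_b30479_gtS.G2

open Finset VOL Filter Topology

variable {b ρ σ : ℝ} {w w' : ℂ} {k k' : RKe}

/-- comparison of two values of `LL` on a vertical line -/
theorem LL_vert_le {u v : ℂ} {t η δ : ℝ} (hr : u.re = v.re) (hu : u.im = t + η)
    (hv : v.im = t - η) (ht : 0 ≤ t) (hη : 0 ≤ η) (hδ : 0 < δ)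
    (hc : δ ≤ 1 - Real.cos (2 * Real.pi * v.re)) :
    LL u - LL v ≤ Real.sinh (2 * Real.pi * t) * Real.sinh (2 * Real.pi * η) / δ := by
  have hpi := Real.pi_pos
  rw [LL_eq', LL_eq', hr, hu, hv]
  set c := Real.cos (2 * Real.pi * v.re)
  have h1 := Real.one_le_cosh (2 * Real.pi * (t - η))
  have e1 : Real.cosh (2 * Real.pi * (t + η)) - Real.cosh (2 * Real.pi * (t - η)) =
      2 * (Real.sinh (2 * Real.pi * t) * Real.sinh (2 * Real.pi * η)) := by
    rw [mul_add, mul_sub, Real.cosh_add, Real.cosh_sub]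
    ring
  have s1 : 0 ≤ Real.sinh (2 * Real.pi * t) := by
    rw [Real.sinh_nonneg_iff]
    positivity
  have s2 : 0 ≤ Real.sinh (2 * Real.pi * η) := by
    rw [Real.sinh_nonneg_iff]
    positivity
  have s3 := mul_nonneg s1 s2
  set B := 2 * Real.cosh (2 * Real.pi * (t - η)) - 2 * c with hB
  set A := 2 * Real.cosh (2 * Real.pi * (t + η)) - 2 * c with hA
  set S := Real.sinh (2 * Real.pi * t) * Real.sinh (2 * Real.pi * η)
  have hB0 : 2 * δ ≤ B := by rw [hB]; linarith only [hc, h1]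
  have hAB : A = B + 4 * S := by rw [hA, hB]; linarith only [e1]
  have hA0 : 0 < A := by rw [hAB]; linarith only [hδ, hc, h1, s3]
  have hBp : 0 < B := by linarith only [hδ, hc, h1]
  have h3 := Real.log_le_sub_one_of_pos (div_pos hA0 hBp)
  rw [Real.log_div hA0.ne' hBp.ne'] at h3
  have h4 : A / B - 1 = 4 * S / B := by
    rw [hAB]
    field_simp
    ring
  have h5 : 4 * S / B ≤ 4 * S / (2 * δ) := by
    apply div_le_div_of_nonneg_left (by linarith only [s3]) (by linarith only [hδ]) hB0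
  have h6 : 4 * S / (2 * δ) = 2 * (S / δ) := by
    field_simp
    ring
  linarith only [h3, h4, h5, h6]

section
open NumIs NumIs.E

private theorem n1 : Real.sinh (2 * Real.pi * (6 / 100)) ≤ 39 / 100 := by
  have g : chk [sub (q 39 100) (sinh (mul (mul (q 2 1) pi) (q 6 100)))] 10 [V.of 1 0 0] = true := by
    decide +kernel
  have h := pos_of_chk (chk1 g (by norm_num) (x := 0) (by norm_num) (by norm_num))
  simp only [E.val] at h
  norm_num at h ⊢
  linarith only [h]

private theorem n2 : Real.sinh (2 * Real.pi * (11 / 100)) ≤ 748 / 1000 := by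
  have g : chk [sub (q 748 1000) (sinh (mul (mul (q 2 1) pi) (q 11 100)))] 10 [V.of 1 0 0] = true := by
    decide +kernel
  have h := pos_of_chk (chk1 g (by norm_num) (x := 0) (by norm_num) (by norm_num))
  simp only [E.val] at h
  norm_num at h ⊢
  linarith only [h]

private theorem n3 : Real.cos (Real.pi * (15 / 100)) ≤ 8911 / 10000 := by
  have g : chk [sub (q 8911 10000) (cosPi (q 15 100))] 10 [V.of 1 0 0] = true := by
    decide +kernel
  have h := pos_of_chk (chk1 g (by norm_num) (x := 0) (by norm_num) (by norm_num))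
  simp only [E.val] at h
  norm_num at h ⊢
  linarith only [h]

private theorem n4 : Real.cos (Real.pi * (4 / 10)) ≤ 3091 / 10000 := by
  have g : chk [sub (q 3091 10000) (cosPi (q 4 10))] 10 [V.of 1 0 0] = true := by
    decide +kernel
  have h := pos_of_chk (chk1 g (by norm_num) (x := 0) (by norm_num) (by norm_num))
  simp only [E.val] at h
  norm_num at h ⊢
  linarith only [h]

end

theorem sinh_small {t η : ℝ} (ht0 : 0 ≤ t) (ht : t ≤ 6 / 100) (hη0 : 0 ≤ η) (hη : η ≤ 11 / 100) :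
    0 ≤ Real.sinh (2 * Real.pi * t) * Real.sinh (2 * Real.pi * η) ∧
    Real.sinh (2 * Real.pi * t) * Real.sinh (2 * Real.pi * η) ≤ 266 / 100 * η := by
  have hpi := Real.pi_pos
  have a1 : Real.sinh (2 * Real.pi * t) ≤ 39 / 100 := by
    refine le_trans ?_ n1
    rw [Real.sinh_le_sinh]
    nlinarith only [ht, hpi]
  have a2 : Real.sinh (2 * Real.pi * η) ≤ η / (11 / 100) * (748 / 1000) := by
    have h := sinh_mul_le (l := η / (11 / 100)) (z := 2 * Real.pi * (11 / 100)) (by positivity)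
      ((div_le_one (by norm_num)).mpr hη) (by positivity)
    rw [show η / (11 / 100) * (2 * Real.pi * (11 / 100)) = 2 * Real.pi * η by field_simp] at h
    refine h.trans (mul_le_mul_of_nonneg_left n2 (by positivity))
  have s1 : 0 ≤ Real.sinh (2 * Real.pi * t) := by
    rw [Real.sinh_nonneg_iff]
    positivity
  have s2 : 0 ≤ Real.sinh (2 * Real.pi * η) := by
    rw [Real.sinh_nonneg_iff]
    positivity
  refine ⟨mul_nonneg s1 s2, ?_⟩
  calc _ ≤ 39 / 100 * (η / (11 / 100) * (748 / 1000)) := by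
        apply mul_le_mul a1 a2 s2 (by norm_num)
    _ ≤ _ := by
      have : η / (11 / 100) = η * (100 / 11) := by ring
      rw [this]
      nlinarith only [hη0]

/-- `1 - cos 2πy` away from the integers -/
theorem one_sub_cos_ge {y a : ℝ} (ha0 : 0 ≤ a) (ha : a ≤ 1 / 2) (h0 : a ≤ y) (h1 : y ≤ 1 - a) :
    1 - Real.cos (Real.pi * (2 * a)) ≤ 1 - Real.cos (2 * Real.pi * y) := by
  have hpi := Real.pi_pos
  have h : Real.cos (2 * Real.pi * y) ≤ Real.cos (Real.pi * (2 * a)) := by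
    rcases le_total y (1 / 2) with h2 | h2
    · apply Real.cos_le_cos_of_nonneg_of_le_pi
      · positivity
      · nlinarith only [hpi, h2]
      · nlinarith only [h0, hpi]
    · rw [← Real.cos_two_pi_sub]
      apply Real.cos_le_cos_of_nonneg_of_le_pi
      · positivity
      · nlinarith only [hpi, h2]
      · nlinarith only [h1, hpi]
  linarith only [h]

theorem Dm_zero (w ζ : ℂ) : Dm 0 w ζ = LL (w + 1 / 2 + ζ) - LL (w + 1 / 2 - ζ) := by
  unfold Dm Dq
  ring

/-- the even part of the derivative in the ring variable is small -/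
theorem Dm_even_le {t x τ η : ℝ} (ht0 : 0 ≤ t) (ht : t ≤ 6 / 100) (hη0 : 0 ≤ η)
    (hη : η ≤ 11 / 100) (hx0 : 0 ≤ x) (hx : x ≤ 3 / 10) (hτ0 : 0 ≤ τ) (hτ : τ ≤ 1 / 8)
    (hw : w = x + t * Complex.I) :
    Dm 0 w ((τ : ℂ) + η * Complex.I) + Dm 0 w (((-τ : ℝ) : ℂ) + η * Complex.I) ≤ 29 * η := by
  have hpi := Real.pi_pos
  obtain ⟨k0, k1⟩ := sinh_small ht0 ht hη0 hη
  rw [Dm_zero, Dm_zero]
  have h1 := LL_vert_le (u := w + 1 / 2 + ((τ : ℂ) + η * Complex.I))
    (v := w + 1 / 2 - (((-τ : ℝ) : ℂ) + η * Complex.I)) (t := t) (η := η) (δ := 1089 / 10000)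
    (by rw [hw]; simp) (by rw [hw]; simp) (by rw [hw]; simp) ht0 hη0 (by norm_num) (by
      have e : (w + 1 / 2 - (((-τ : ℝ) : ℂ) + η * Complex.I)).re = x + 1 / 2 + τ := by
        rw [hw]; simp
      rw [e]
      have := one_sub_cos_ge (y := x + 1 / 2 + τ) (a := 75 / 1000) (by norm_num) (by norm_num)
        (by linarith only [hx0, hτ0]) (by linarith only [hx, hτ])
      rw [show Real.pi * (2 * (75 / 1000)) = Real.pi * (15 / 100) by ring] at this
      linarith only [this, n3])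
  have h2 := LL_vert_le (u := w + 1 / 2 + (((-τ : ℝ) : ℂ) + η * Complex.I))
    (v := w + 1 / 2 - ((τ : ℂ) + η * Complex.I)) (t := t) (η := η) (δ := 6909 / 10000)
    (by rw [hw]; simp; ring) (by rw [hw]; simp) (by rw [hw]; simp) ht0 hη0 (by norm_num) (by
      have e : (w + 1 / 2 - ((τ : ℂ) + η * Complex.I)).re = x + 1 / 2 - τ := by
        rw [hw]; simp
      rw [e]
      have := one_sub_cos_ge (y := x + 1 / 2 - τ) (a := 2 / 10) (by norm_num) (by norm_num)
        (by linarith only [hx0, hτ]) (by linarith only [hx, hτ0])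
      rw [show Real.pi * (2 * (2 / 10)) = Real.pi * (4 / 10) by ring] at this
      linarith only [this, n4])
  have h3 : Real.sinh (2 * Real.pi * t) * Real.sinh (2 * Real.pi * η) / (1089 / 10000) ≤
      266 / 100 * η / (1089 / 10000) := by
    apply div_le_div_of_nonneg_right k1 (by norm_num)
  have h4 : Real.sinh (2 * Real.pi * t) * Real.sinh (2 * Real.pi * η) / (6909 / 10000) ≤
      266 / 100 * η / (6909 / 10000) := by
    apply div_le_div_of_nonneg_right k1 (by norm_num)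
  have h5 : 266 / 100 * η / (1089 / 10000) + 266 / 100 * η / (6909 / 10000) ≤ 29 * η := by
    have e1 : 266 / 100 * η / (1089 / 10000) = (26600 / 1089) * η := by ring
    have e2 : 266 / 100 * η / (6909 / 10000) = (26600 / 6909) * η := by ring
    rw [e1, e2]
    nlinarith only [hη0]
  linarith only [hη0, k1, h1, h2]

/-- the level derivative of `fR` -/
theorem hasDerivAt_fR_lev {w : ℂ} {a τ η : ℝ}
    (h1 : Complex.sin (Real.pi * (w + 1 / 2 + (((a * τ : ℝ) : ℂ) + η * Complex.I))) ≠ 0)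
    (h2 : Complex.sin (Real.pi * (w + 1 / 2 - (((a * τ : ℝ) : ℂ) + η * Complex.I))) ≠ 0) :
    HasDerivAt (fun τ : ℝ => fR w (((a * τ : ℝ) : ℂ) + η * Complex.I))
      (a * Dm 0 w (((a * τ : ℝ) : ℂ) + η * Complex.I)) τ := by
  have e1 : ∀ τ : ℝ, w + 1 / 2 + (((a * τ : ℝ) : ℂ) + η * Complex.I) =
      (w + 1 / 2 + η * Complex.I) + ((a * τ : ℝ) : ℂ) := fun τ => by ring
  have e2 : ∀ τ : ℝ, w + 1 / 2 - (((a * τ : ℝ) : ℂ) + η * Complex.I) =
      (w + 1 / 2 - η * Complex.I) + ((-a * τ : ℝ) : ℂ) := fun τ => by push_cast; ring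
  rw [e1] at h1
  rw [e2] at h2
  have d1 := hasDerivAt_UU_level _ a τ h1
  have d2 := hasDerivAt_UU_level _ (-a) τ h2
  rw [Dm_zero]
  unfold fR
  simp only [e1, e2]
  refine ((d1.add d2).sub_const _).congr_deriv ?_
  ring

/-- the ring variable with a hinge of small positive height: `f(σ) - f(-σ)` is small -/
theorem fR_odd_le {t x σ η : ℝ} (ht0 : 0 ≤ t) (ht : t ≤ 6 / 100) (hη0 : 0 < η)
    (hη : η ≤ 11 / 100) (hx0 : 0 ≤ x) (hx : x ≤ 3 / 10) (hσ0 : 0 ≤ σ) (hσ : σ ≤ 1 / 8)
    (hw : w = x + t * Complex.I) :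
    fR w ((σ : ℂ) + η * Complex.I) - fR w (((-σ : ℝ) : ℂ) + η * Complex.I) ≤ 29 * η * σ := by
  have hpi := Real.pi_pos
  have hstrip : ∀ u : ℂ, 0 < u.re → u.re < 1 → Complex.sin (Real.pi * u) ≠ 0 := fun u a b =>
    sin_ne_of_strip ⟨a, b⟩
  have hd : ∀ τ ∈ Set.Icc (0 : ℝ) (1 / 8), HasDerivAt
      (fun τ : ℝ => 29 * η * τ - (fR w (((1 * τ : ℝ) : ℂ) + η * Complex.I) -
        fR w (((-1 * τ : ℝ) : ℂ) + η * Complex.I)))
      (29 * η - (1 * Dm 0 w (((1 * τ : ℝ) : ℂ) + η * Complex.I) -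
        -1 * Dm 0 w (((-1 * τ : ℝ) : ℂ) + η * Complex.I))) τ := by
    intro τ hτ
    have a1 := hasDerivAt_fR_lev (w := w) (a := 1) (τ := τ) (η := η)
      (hstrip _ (by rw [hw]; simp; linarith only [hη0, hη, hx0, hτ, hτ.1]) (by rw [hw]; simp; linarith only [hη0, hη, hx, hτ, hτ.2]))
      (hstrip _ (by rw [hw]; simp; linarith only [hη0, hη, hx0, hτ, hτ.2]) (by rw [hw]; simp; linarith only [hη0, hη, hx, hτ, hτ.1]))
    have a2 := hasDerivAt_fR_lev (w := w) (a := -1) (τ := τ) (η := η)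
      (hstrip _ (by rw [hw]; simp; linarith only [hη0, hη, hx0, hτ, hτ.2]) (by rw [hw]; simp; linarith only [hη0, hη, hx, hτ, hτ.1]))
      (hstrip _ (by rw [hw]; simp; linarith only [hη0, hη, hx0, hτ, hτ.1]) (by rw [hw]; simp; linarith only [hη0, hη, hx, hτ, hτ.2]))
    have a3 : HasDerivAt (fun τ : ℝ => 29 * η * τ) (29 * η) τ := by
      simpa using (hasDerivAt_id τ).const_mul (29 * η)
    exact a3.sub (a1.sub a2)
  have hm : MonotoneOn (fun τ : ℝ => 29 * η * τ - (fR w (((1 * τ : ℝ) : ℂ) + η * Complex.I) -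
        fR w (((-1 * τ : ℝ) : ℂ) + η * Complex.I))) (Set.Icc 0 (1 / 8)) := by
    apply monotoneOn_of_deriv_nonneg (convex_Icc _ _)
    · exact fun τ hτ => (hd τ hτ).continuousAt.continuousWithinAt
    · intro τ hτ
      rw [interior_Icc] at hτ
      exact (hd τ ⟨hτ.1.le, hτ.2.le⟩).differentiableAt.differentiableWithinAt
    · intro τ hτ
      rw [interior_Icc] at hτ
      rw [(hd τ ⟨hτ.1.le, hτ.2.le⟩).deriv]
      have := Dm_even_le ht0 ht hη0.le hη hx0 hx hτ.1.le hτ.2.le hw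
      simp only [one_mul, neg_mul] at *
      linarith only [this]
  have h := hm (Set.left_mem_Icc.mpr (by norm_num)) ⟨hσ0, hσ⟩ hσ0
  simp only [mul_zero, one_mul, neg_mul, sub_self] at h
  simpa using h

/-- hinges for the upper location -/
def HUp (w : ℂ) : Prop := w.im ≤ 0 ∨ (0 ≤ w.re ∧ w.re ≤ 3 / 10 ∧ 0 < w.im ∧ w.im ≤ 6 / 100)

/-- **Upper location**, at most one positive height -/
theorem RM.nonpos_one (h : RM b ρ w w' σ) (hρ : ρ ≤ 11 / 100) (hσ : |σ| < 1 / 2) (h1 : w.im ≤ 0)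
    (h2 : HUp w') : σ ≤ 0 := by
  have hpi := Real.pi_pos
  have hpi3 := Real.pi_gt_three
  rcases h2 with h2 | ⟨x0, x1, t0, t1⟩
  · exact h.nonpos hσ h1 h2
  by_contra hcon
  push Not at hcon
  have hb := h.b4
  have hk := h.two_b_le hσ
  rw [kp_of_le h1] at hk
  have hk1 := kp_le_one w'
  have hσ8 : σ ≤ 1 / 8 := by
    have : 8 * σ ≤ 2 * b * σ := by nlinarith only [hcon, hb]
    linarith only [hk, hk1, this]
  have h3 := h.mx (-σ) (by rw [abs_neg]; exact hσ.le)
  have hth : LT.th σ = 1 := th_of_le (by rw [abs_of_pos hcon]; linarith only [t0, t1, hσ8])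
  unfold rg at h3
  rw [zt_eq, zt_eq, th_neg, hth, mul_one] at h3
  have a1 := fR_reflect (w := w) h1 hcon.le h.ρ0.le
  have a2 := fR_odd_le (w := w') (t := w'.im) (x := w'.re) (σ := σ) (η := ρ) t0.le t1 h.ρ0 hρ x0 x1
    hcon.le hσ8 (re_im_eq w')
  rw [Complex.ofReal_neg] at h3 a2
  have hρ0 := h.ρ0
  have a3 : 0 < ρ * σ := mul_pos hρ0 hcon
  have a4 : 4 * Real.pi * b * (ρ * σ) ≤ 29 * (ρ * σ) := by linarith only [h3, a1, a2]
  have a5 : 4 * Real.pi * b ≤ 29 := le_of_mul_le_mul_right a4 a3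
  nlinarith only [hpi3, hσ8, a3, a5, hρ, hcon, hpi, hb]

/-- first order condition to the left on the flat part, `σ > 0` -/
theorem RM.left_flat (h : RM b ρ w w' σ) (h0 : 0 < σ) (h1 : σ ≤ 1 / 4) (hw0 : 0 ≤ w.re)
    (hw : w.re ≤ 1 / 2) (ht : 0 < w.im + ρ) (hw0' : 0 ≤ w'.re) (hw' : w'.re ≤ 1 / 2)
    (ht' : 0 < w'.im + ρ) :
    0 ≤ -(2 * Real.pi * b * ρ) + Dm 0 w (σ + ρ * Complex.I) + Dm 0 w' (σ + ρ * Complex.I) := by
  have hpi := Real.pi_pos
  have hρ := h.ρ0
  by_contra hcon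
  push Not at hcon
  have hreg : ∀ {w : ℂ}, 0 ≤ w.re → w.re ≤ 1 / 2 → 0 < w.im + ρ →
      Complex.sin (Real.pi * (w + 1 / 2 + (((1 * σ : ℝ) : ℂ) + ρ * Complex.I))) ≠ 0 ∧
      Complex.sin (Real.pi * (w + 1 / 2 - (((1 * σ : ℝ) : ℂ) + ρ * Complex.I))) ≠ 0 := by
    intro w a0 a1 a2
    constructor
    · intro hs
      rw [Complex.sin_eq_zero_iff] at hs
      obtain ⟨k, hk⟩ := hs
      have h5 := congrArg Complex.im hk
      have h6 : (Real.pi * (w + 1 / 2 + (((1 * σ : ℝ) : ℂ) + ρ * Complex.I))).im =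
          Real.pi * (w.im + ρ) := by simp
      have h7 : ((k : ℂ) * Real.pi).im = 0 := by simp
      rw [h6, h7] at h5
      have h8 := mul_pos hpi a2
      linarith only [h5, h8]
    · apply sin_ne_of_strip
      constructor
      · simp
        linarith only [h0, h1, a0]
      · simp
        linarith only [h0, a1]
  have d1 := hasDerivAt_fR_lev (w := w) (a := 1) (τ := σ) (η := ρ) (hreg hw0 hw ht).1
    (hreg hw0 hw ht).2
  have d2 := hasDerivAt_fR_lev (w := w') (a := 1) (τ := σ) (η := ρ) (hreg hw0' hw' ht').1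
    (hreg hw0' hw' ht').2
  have d0 : HasDerivAt (fun τ : ℝ => -(2 * Real.pi * ρ * (b * τ + 1)))
      (-(2 * Real.pi * ρ * b)) σ := by
    have a2 : HasDerivAt (fun s : ℝ => b * s + 1) b σ := by
      simpa using ((hasDerivAt_id σ).const_mul b).add_const 1
    exact (a2.const_mul _).neg
  have d := (d0.add d1).add d2
  simp only [one_mul] at d
  set G := -(2 * Real.pi * ρ * b) + Dm 0 w (σ + ρ * Complex.I) + Dm 0 w' (σ + ρ * Complex.I)
    with hG
  have hG0 : G < 0 := by rw [hG]; linarith only [hcon]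
  -- a point to the left is better
  have h2 := hasDerivAt_iff_tendsto_slope.mp d
  have h3 := h2.eventually (gt_mem_nhds (show G < 0 from hG0))
  have h4 : ∀ᶠ s : ℝ in 𝓝[≠] σ, 0 < s := by
    have : Set.Ioi (0 : ℝ) ∈ 𝓝 σ := Ioi_mem_nhds h0
    exact nhdsWithin_le_nhds this
  have h5 : ∃ᶠ s : ℝ in 𝓝[≠] σ, s < σ := by
    have h6 : ∀ᶠ s : ℝ in 𝓝[<] σ, s < σ := self_mem_nhdsWithin
    exact (h6.frequently).filter_mono (nhdsWithin_mono _ fun y hy => ne_of_lt hy)
  obtain ⟨s, hs, hs3, hs4⟩ := (h5.and_eventually (h3.and h4)).exists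
  rw [slope_def_field] at hs3
  have hneg : s - σ < 0 := by linarith only [hs]
  have h7 := (div_neg_iff.mp hs3).resolve_right (fun h => by linarith only [hs, h, h.2])
  have hs0 : |s| ≤ 1 / 4 := by
    rw [abs_of_pos hs4]
    linarith only [h1, hs]
  have h8 := h.mx s (by linarith only [h1, hs, hs4, hs0])
  have hσ0 : |σ| ≤ 1 / 4 := by
    rw [abs_of_pos h0]
    exact h1
  unfold rg at h8
  rw [zt_eq, zt_eq, th_of_le hs0, th_of_le hσ0, mul_one] at h8
  simp only [Pi.add_apply] at h7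
  linarith only [h7, h8, h7.1]

/-- the derivative in the ring variable on the flat part, `σ > 0` -/
theorem Dm_flat_core (hρ0 : 0 < ρ) (h0 : 0 < σ) (hq : σ ≤ 1 / 4) (a0 : 0 ≤ w.re) (a1 : w.re ≤ 1 / 2)
    (ha : 0 < w.im + ρ) {B0 : ℝ} (hB0 : 0 < B0)
    (hB : B0 ≤ 2 * Real.cosh (2 * Real.pi * (w.im - ρ)) - 2 * Real.cos (2 * Real.pi * (w.re + 1 / 2 - σ)))
    (hS : Real.sinh (2 * Real.pi * w.im) * Real.sinh (2 * Real.pi * ρ) ≤ 2 * ρ * B0) :
    Dm 0 w (σ + ρ * Complex.I) ≤ 4 * ρ := by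
  have hpi := Real.pi_pos
  rw [Dm_zero, LL_eq', LL_eq']
  have ui : (w + 1 / 2 + (σ + ρ * Complex.I)).im = w.im + ρ := by simp
  have ur : (w + 1 / 2 + (σ + ρ * Complex.I)).re = w.re + 1 / 2 + σ := by simp
  have vi : (w + 1 / 2 - (σ + ρ * Complex.I)).im = w.im - ρ := by simp
  have vr : (w + 1 / 2 - (σ + ρ * Complex.I)).re = w.re + 1 / 2 - σ := by simp
  rw [ui, ur, vi, vr]
  have hcc : Real.cos (2 * Real.pi * (w.re + 1 / 2 - σ)) ≤
      Real.cos (2 * Real.pi * (w.re + 1 / 2 + σ)) := by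
    have e1 : Real.cos (2 * Real.pi * (w.re + 1 / 2 - σ)) - Real.cos (2 * Real.pi *
        (w.re + 1 / 2 + σ)) = -(2 * Real.sin (2 * Real.pi * w.re) *
        Real.sin (2 * Real.pi * σ)) := by
      rw [show 2 * Real.pi * (w.re + 1 / 2 - σ) = (2 * Real.pi * w.re - 2 * Real.pi * σ) +
        Real.pi by ring, show 2 * Real.pi * (w.re + 1 / 2 + σ) = (2 * Real.pi * w.re +
        2 * Real.pi * σ) + Real.pi by ring, Real.cos_add_pi, Real.cos_add_pi, Real.cos_sub,
        Real.cos_add]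
      ring
    have s1 : 0 ≤ Real.sin (2 * Real.pi * w.re) := by
      apply Real.sin_nonneg_of_nonneg_of_le_pi <;> nlinarith only [h0, hq, a0, hpi, a1]
    have s2 : 0 ≤ Real.sin (2 * Real.pi * σ) := by
      apply Real.sin_nonneg_of_nonneg_of_le_pi <;> nlinarith only [h0, hpi, hq]
    have := mul_nonneg s1 s2
    linarith only [e1, this]
  set c := Real.cos (2 * Real.pi * (w.re + 1 / 2 - σ))
  set c' := Real.cos (2 * Real.pi * (w.re + 1 / 2 + σ))
  have e1 : Real.cosh (2 * Real.pi * (w.im + ρ)) - Real.cosh (2 * Real.pi * (w.im - ρ)) =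
      2 * (Real.sinh (2 * Real.pi * w.im) * Real.sinh (2 * Real.pi * ρ)) := by
    rw [mul_add, mul_sub, Real.cosh_add, Real.cosh_sub]
    ring
  set S := Real.sinh (2 * Real.pi * w.im) * Real.sinh (2 * Real.pi * ρ)
  set B := 2 * Real.cosh (2 * Real.pi * (w.im - ρ)) - 2 * c with hBd
  set A := 2 * Real.cosh (2 * Real.pi * (w.im + ρ)) - 2 * c' with hA
  have hAB : A ≤ B + 4 * S := by rw [hA, hBd]; linarith only [hcc, e1]
  have hA0 : 0 < A := by
    have h5 : 1 < Real.cosh (2 * Real.pi * (w.im + ρ)) := by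
      rw [Real.one_lt_cosh]
      positivity
    have := Real.cos_le_one (2 * Real.pi * (w.re + 1 / 2 + σ))
    rw [hA]
    linarith only [h5, this]
  have hBp : 0 < B := by linarith only [hB0, hB]
  have h3 := Real.log_le_sub_one_of_pos (div_pos hA0 hBp)
  rw [Real.log_div hA0.ne' hBp.ne'] at h3
  have h4 : A / B - 1 ≤ 8 * ρ := by
    rw [div_sub_one hBp.ne', div_le_iff₀ hBp]
    have : 2 * ρ * B0 ≤ 2 * ρ * B := mul_le_mul_of_nonneg_left hB (by positivity)
    linarith only [hcc, hS, e1, this]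
  linarith only [h3, h4]

/-- `0 < t ≤ 6/100`, `x ≤ 3/10` -/
theorem Dm_flat_pos (hρ0 : 0 < ρ) (hρ : ρ ≤ 11 / 100) (h0 : 0 < σ) (hq : σ ≤ 1 / 4) (a0 : 0 ≤ w.re)
    (a1 : w.re ≤ 3 / 10) (a2 : 0 < w.im) (a3 : w.im ≤ 6 / 100) :
    Dm 0 w (σ + ρ * Complex.I) ≤ 4 * ρ := by
  have hpi := Real.pi_pos
  obtain ⟨k0, k1⟩ := sinh_small a2.le a3 hρ0.le hρ
  have hc : 1 - Real.cos (Real.pi * (2 * (2 / 10))) ≤
      1 - Real.cos (2 * Real.pi * (w.re + 1 / 2 - σ)) :=
    one_sub_cos_ge (by norm_num) (by norm_num) (by linarith only [hq, a0, a2, a3]) (by linarith only [h0, a1])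
  rw [show Real.pi * (2 * (2 / 10)) = Real.pi * (4 / 10) by ring] at hc
  have hc2 := n4
  have h1 := Real.one_le_cosh (2 * Real.pi * (w.im - ρ))
  exact Dm_flat_core hρ0 h0 hq a0 (by linarith only [a1, a2, a3]) (by linarith only [hρ0, a2]) (B0 := 2 * (69 / 100)) (by norm_num)
    (by linarith only [a2, a3, hc, hc2, h1]) (by linarith only [hρ0, k1])

/-- `t ≤ 0` -/
theorem Dm_flat_neg (hρ0 : 0 < ρ) (h0 : 0 < σ) (hq : σ ≤ 1 / 4) (a0 : 0 ≤ w.re)
    (a1 : w.re ≤ 1 / 2) (a2 : w.im ≤ 0) (ha : 0 < w.im + ρ) :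
    Dm 0 w (σ + ρ * Complex.I) ≤ 4 * ρ := by
  have hpi := Real.pi_pos
  have h1 : 1 < Real.cosh (2 * Real.pi * (w.im - ρ)) := by
    rw [Real.one_lt_cosh]
    have : w.im - ρ < 0 := by linarith only [hρ0, a2]
    have := mul_neg_of_pos_of_neg (show 0 < 2 * Real.pi by positivity) this
    exact this.ne
  have h2 := Real.cos_le_one (2 * Real.pi * (w.re + 1 / 2 - σ))
  refine Dm_flat_core hρ0 h0 hq a0 a1 ha (B0 := 2 * Real.cosh (2 * Real.pi * (w.im - ρ)) -
    2 * Real.cos (2 * Real.pi * (w.re + 1 / 2 - σ))) (by linarith only [h1, h2]) le_rfl ?_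
  have h3 : Real.sinh (2 * Real.pi * w.im) * Real.sinh (2 * Real.pi * ρ) ≤ 0 := by
    apply mul_nonpos_of_nonpos_of_nonneg
    · rw [Real.sinh_nonpos_iff]
      exact mul_nonpos_of_nonneg_of_nonpos (by positivity) a2
    · rw [Real.sinh_nonneg_iff]
      positivity
  have : 0 ≤ 2 * ρ * (2 * Real.cosh (2 * Real.pi * (w.im - ρ)) -
    2 * Real.cos (2 * Real.pi * (w.re + 1 / 2 - σ))) := mul_nonneg (by positivity) (by linarith only [h1, h2])
  linarith only [h3, this]

/-- `0 < t ≤ 1/1000` -/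
theorem Dm_flat_ps (hρ0 : 4 / 100 ≤ ρ) (hρ : ρ ≤ 11 / 100) (h0 : 0 < σ) (hq : σ ≤ 1 / 4) (a0 : 0 ≤ w.re)
    (a1 : w.re ≤ 1 / 2) (a2 : 0 < w.im) (a3 : w.im ≤ 1 / 1000) :
    Dm 0 w (σ + ρ * Complex.I) ≤ 4 * ρ := by
  have hpi := Real.pi_pos
  have hpi3 := Real.pi_gt_three
  have hρ' : 0 < ρ := by linarith only [hρ0, a2, a3]
  obtain ⟨k0, k1⟩ := sinh_small (t := 6 / 100) (by norm_num) le_rfl hρ'.le hρ
  have h1 : (2 * Real.pi * (39 / 1000)) ^ 2 / 2 ≤ Real.cosh (2 * Real.pi * (w.im - ρ)) - 1 := by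
    have h2 : Real.cosh (2 * Real.pi * (w.im - ρ)) = 1 + 2 * Real.sinh (Real.pi * (ρ - w.im)) ^ 2 := by
      rw [← Real.cosh_neg, show -(2 * Real.pi * (w.im - ρ)) = 2 * (Real.pi * (ρ - w.im)) by ring,
        Real.cosh_two_mul, Real.cosh_sq]
      ring
    have h4 : Real.pi * (39 / 1000) ≤ Real.pi * (ρ - w.im) :=
      mul_le_mul_of_nonneg_left (by linarith only [hρ0, a3]) hpi.le
    have h5 : Real.pi * (ρ - w.im) ≤ Real.sinh (Real.pi * (ρ - w.im)) :=
      Real.self_le_sinh_iff.2 (mul_nonneg hpi.le (by linarith only [hρ0, a2, a3]))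
    have h3 : (Real.pi * (39 / 1000)) ^ 2 ≤ Real.sinh (Real.pi * (ρ - w.im)) ^ 2 :=
      pow_le_pow_left₀ (by positivity) (h4.trans h5) 2
    nlinarith only [h2, h3]
  have h2 := Real.cos_le_one (2 * Real.pi * (w.re + 1 / 2 - σ))
  refine Dm_flat_core hρ' h0 hq a0 a1 (by linarith only [hρ0, a2, a3]) (B0 := 5 / 100) (by norm_num) ?_ ?_
  · have : (2 * 3 * (39 / 1000) : ℝ) ^ 2 ≤ (2 * Real.pi * (39 / 1000)) ^ 2 := by
      apply pow_le_pow_left₀ (by norm_num)
      linarith only [hpi3]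
    norm_num at this
    linarith only [a2, a3, h1, h2, this]
  · have e : Real.sinh (2 * Real.pi * w.im) ≤ 1 / 60 * Real.sinh (2 * Real.pi * (6 / 100)) := by
      have h3 := sinh_mul_le (l := 1 / 60) (z := 2 * Real.pi * (6 / 100)) (by norm_num) (by norm_num)
        (by positivity)
      refine le_trans ?_ h3
      rw [Real.sinh_le_sinh]
      nlinarith only [h0, hq, a3, hpi]
    have hs : 0 ≤ Real.sinh (2 * Real.pi * ρ) := by
      rw [Real.sinh_nonneg_iff]
      positivity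
    have := mul_le_mul_of_nonneg_right e hs
    linarith only [hρ0, a2, a3, k1, this]

/-- **Upper location**, two positive heights -/
theorem RM.nonpos_of_Dm (h : RM b ρ w w' σ) (hσ : |σ| < 1 / 2)
    (hw0 : 0 ≤ w.re) (hw : w.re ≤ 1 / 2) (ht : 0 < w.im + ρ)
    (hw0' : 0 ≤ w'.re) (hw' : w'.re ≤ 1 / 2) (ht' : 0 < w'.im + ρ)
    (h1 : 0 < σ → σ ≤ 1 / 4 → Dm 0 w (σ + ρ * Complex.I) ≤ 4 * ρ)
    (h2 : 0 < σ → σ ≤ 1 / 4 → Dm 0 w' (σ + ρ * Complex.I) ≤ 4 * ρ) : σ ≤ 0 := by
  have hpi := Real.pi_pos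
  have hpi3 := Real.pi_gt_three
  by_contra hcon
  push Not at hcon
  have hb := h.b4
  have hρ0 := h.ρ0
  have hq := h.le_quarter hσ
  have key := h.left_flat hcon hq hw0 hw ht hw0' hw' ht'
  have b1 := h1 hcon hq
  have b2 := h2 hcon hq
  have : 8 * ρ < 2 * Real.pi * b * ρ := by
    apply mul_lt_mul_of_pos_right _ hρ0
    nlinarith only [hpi3, hcon, hq, hpi, hb]
  linarith only [key, b1, b2, this]

/-- **Upper location**, two positive heights -/
theorem RM.nonpos_two (h : RM b ρ w w' σ) (hρ : ρ ≤ 11 / 100) (hσ : |σ| < 1 / 2)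
    (hw0 : 0 ≤ w.re) (hw : w.re ≤ 3 / 10) (ht : 0 < w.im) (ht6 : w.im ≤ 6 / 100)
    (hw0' : 0 ≤ w'.re) (hw' : w'.re ≤ 3 / 10) (ht' : 0 < w'.im) (ht6' : w'.im ≤ 6 / 100) :
    σ ≤ 0 :=
  have hρ0 := h.ρ0
  h.nonpos_of_Dm hσ hw0 (by linarith only [hw, ht, ht6]) (by linarith only [ht, hρ0]) hw0' (by linarith only [ht, ht6, hw']) (by linarith only [ht', hρ0])
    (fun h0 h1 => Dm_flat_pos hρ0 hρ h0 h1 hw0 hw ht ht6)
    (fun h0 h1 => Dm_flat_pos hρ0 hρ h0 h1 hw0' hw' ht' ht6')

end Pool.Agent.Work.MP_b30479_gtS.G2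

end
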