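import Pool.Agent.Work.MP_b30479_gt.TBS.G2.RVf_1
import Pool.Agent.Work.MP_b30479_gt.TBS.G2.RngM
import Pool.Agent.Work.MP_b30479_gt.TBS.G2.RngR
import Pool.Agent.Work.MP_b30479_gt.TBS.G2.WMid
import Pool.Agent.Work.MP_b30479_gt.TBS.G2.R32
import Pool.Agent.Work.MP_b30479_gt.TBS.G2.WVal

section

/-!
# Ring sides: the cap of the ring|ring hinges, one ring
-/

namespace Pool.Agent.Work.MP_b30479_gtS.G2

open Finset VOL Filter Topology
open NumUs (uu uu_neg uu_add_one uu_one_sub UU_uu)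

variable {x t σ η c a b s ρ T θ y K κ : ℝ} {w w' : ℂ} {k k' : RKe}

theorem fR_zt (w : ℂ) (ρ σ : ℝ) : fR w (LT.zt ρ σ) = fu w.re w.im σ (ρ * LT.th σ) := by
  rw [fR_fu]
  simp [LT.zt]

/-- the ring variable at an end of its path -/
theorem fR_end (h : |σ| = 1 / 2) (w : ℂ) (ρ : ℝ) : fR w (LT.zt ρ σ) = Real.pi * |w.im| := by
  rcases (abs_eq (by norm_num : (0 : ℝ) ≤ 1 / 2)).mp h with h3 | h3
  · rw [h3, zt_half, fR_half]
  · rw [h3, zt_neg_half, fR_neg_half]

theorem rg_end (h : |σ| = 1 / 2) (b ρ : ℝ) (w w' : ℂ) :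
    rg b ρ w w' σ = Real.pi * |w.im| + Real.pi * |w'.im| := by
  rcases (abs_eq (by norm_num : (0 : ℝ) ≤ 1 / 2)).mp h with h3 | h3
  · rw [h3, rg_half]
  · rw [h3, rg_neg_half]

/-- the ranges of the heights of ring|ring hinges -/
def RRT (b T : ℝ) : Prop := -(385 / 10000) ≤ T ∧ T ≤ 56 / 1000 ∧ (b < 5 → -(25 / 1000) ≤ T) ∧
  (5 ≤ b → T ≤ 465 / 10000)

theorem RRT.ok (h : RRT b T) (hw : RH w T (1 / 2) (1 / 10) (2 / 100)) : RKe.ok .rr b w :=
  ⟨T, h.1, h.2.1, h.2.2.1, h.2.2.2, hw⟩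

/-- both ends of the path: the ring has four crossings and positive heights -/
theorem RM.end_four (h : RM b ρ w w' σ) (h1 : k.ok b w) (h2 : k'.ok b w') (hσ : |σ| = 1 / 2) :
    b = 4 ∧ 0 < w.im ∧ 0 < w'.im := by
  have hb := h.b4
  refine ⟨?_, ?_, ?_⟩
  · by_contra hne
    exact absurd (h.lt_half_of h1.strip h2.strip (Or.inl (lt_of_le_of_ne hb (Ne.symm hne))))
      (by rw [hσ]; exact lt_irrefl _)
  · by_contra hne
    exact absurd (h.lt_half_of h1.strip h2.strip (Or.inr (Or.inl (not_lt.1 hne))))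
      (by rw [hσ]; exact lt_irrefl _)
  · by_contra hne
    exact absurd (h.lt_half_of h1.strip h2.strip (Or.inr (Or.inr (not_lt.1 hne))))
      (by rw [hσ]; exact lt_irrefl _)

theorem RM.lt_or_end (h : RM b ρ w w' σ) : |σ| < 1 / 2 ∨ |σ| = 1 / 2 := h.mem.lt_or_eq

/-- **the gain**, `x > .48`, any place of the ring variable -/
theorem RM.gain' (h : RM b ρ w w' σ) (hc : RCap b ρ) (hw : RH w T (1 / 2) (1 / 10) (2 / 100))
    (hT : RRT b T) (hk' : k'.ok b w') (hx : 48 / 100 < w.re) :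
    fR w (LT.zt ρ σ) < fR ⟨105 / 1000, T⟩ (LT.zt ρ σ) := by
  rcases h.lt_or_end with hσ | hσ
  · exact h.gain hc hw hT.1 hT.2.1 hT.2.2.1 hT.2.2.2 hk' hx.le hσ
  · obtain ⟨-, h1, -⟩ := h.end_four (hT.ok hw) hk' hσ
    rw [fR_end hσ, fR_end hσ]
    have hT0 : 0 < T := by
      by_contra hcon
      linarith only [h1, hw, hcon, hw.im_nonpos (not_lt.1 hcon)]
    have him := hw.im
    rw [tr_c (by norm_num) (by norm_num) (by norm_num) (by linarith only [hx]) hw.reM] at him
    have h2 : w.im < T := by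
      rw [him]
      have : (1 / 2 - w.re) / (2 / 100) < 1 := by
        rw [div_lt_one (by norm_num)]
        linarith only [hx]
      nlinarith only [hx, hT0]
    rw [abs_of_pos h1]
    simp only
    rw [abs_of_pos hT0]
    exact mul_lt_mul_of_pos_left h2 Real.pi_pos

/-- level monotonicity for heights of both signs -/
theorem fu_down (ha : 27 / 100 ≤ a) (hab : a < b) (hb : b ≤ 7 / 10) (hT : |T| ≤ 56 / 1000)
    (hρ : 0 < ρ) (hρ' : ρ ≤ 1045 / 10000) (hσ : |σ| < 1 / 2) :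
    fu b T σ (ρ * LT.th σ) < fu a T σ (ρ * LT.th σ) := by
  rcases le_total 0 T with h | h
  · rw [abs_of_nonneg h] at hT
    exact fu_x_anti ha hab hb h hT hρ hρ' hσ
  · rw [abs_of_nonpos h] at hT
    have := fu_x_anti (t := -T) (σ := -σ) ha hab hb (by linarith only [h]) hT hρ hρ' (by rwa [abs_neg])
    rw [fu_mir, fu_mir, neg_neg, th_neg] at this
    exact this

/-- on the flat part -/
theorem RH.rr_flat (hw : RH w T (1 / 2) (1 / 10) (2 / 100)) (h0 : 1 / 10 ≤ w.re)
    (h1 : w.re ≤ 48 / 100) : w = ⟨w.re, T⟩ := by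
  have him := hw.im
  rw [tr_b (by norm_num) (by norm_num) h0 (by linarith only [h1]), mul_one] at him
  apply Complex.ext
  · rfl
  · exact him

/-- the move of the hinge to `.27` -/
theorem move27 (hρ : 0 < ρ) (hρ' : ρ ≤ 1045 / 10000) (hw : RH w T (1 / 2) (1 / 10) (2 / 100))
    (hT : |T| ≤ 56 / 1000) (h0 : 27 / 100 < w.re) (h1 : w.re ≤ 48 / 100) (hσ : |σ| < 1 / 2) :
    fR w (LT.zt ρ σ) < fR ⟨27 / 100, T⟩ (LT.zt ρ σ) := by
  rw [hw.rr_flat (by linarith only [hρ, hρ', h0]) h1, fR_zt, fR_zt]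
  exact fu_down le_rfl h0 (by linarith only [hρ, hρ', h1]) hT hρ hρ' hσ

theorem move27_end (hw : RH w T (1 / 2) (1 / 10) (2 / 100)) (h0 : 27 / 100 < w.re)
    (h1 : w.re ≤ 48 / 100) (hσ : |σ| = 1 / 2) (c : ℝ) :
    fR w (LT.zt ρ σ) = fR ⟨c, T⟩ (LT.zt ρ σ) := by
  rw [hw.rr_flat (by linarith only [h0]) h1, fR_end hσ, fR_end hσ]

theorem RRT.abs_le (h : RRT b T) : |T| ≤ 56 / 1000 := by
  rw [_root_.abs_le]
  constructor
  · linarith only [h, h.1]
  · exact h.2.1

/-- the data of a positive ring|ring hinge -/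
theorem RKe.ok.of_pos (hk : k.ok b w) (h : 0 < w.im) (hx : k = .rr → w.re ≤ K)
    (hx' : k = .ps → 1 / 2 ≤ K) :
    0 < w.re ∧ w.re ≤ K ∧ w.im ≤ 56 / 1000 ∧ w.im ≤ 56 / 100 * w.re := by
  by_cases hn : k.up = false
  · exact absurd h (not_lt.2 (hk.im_nonpos hn))
  cases k with
  | no => exact absurd rfl hn
  | one => exact absurd rfl hn
  | lo => exact absurd rfl hn
  | rr =>
    obtain ⟨T, h1, h2, -, -, hw⟩ := hk
    have hT0 : 0 < T := by
      by_contra hcon
      linarith only [h, hw, hcon, hw.im_nonpos (not_lt.1 hcon)]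
    have h3 : tr 0 (1 / 2) (1 / 10) (2 / 100) w.re ≤ w.re / (1 / 10) := by
      have h4 : 0 ≤ w.re / (1 / 10) := div_nonneg hw.re0 (by norm_num)
      unfold tr
      rw [sub_zero]
      refine max_le h4 ((min_le_right _ _).trans (min_le_left _ _))
    have h4 : w.im ≤ 56 / 100 * w.re := by
      rw [hw.im]
      calc T * tr 0 (1 / 2) (1 / 10) (2 / 100) w.re ≤ T * (w.re / (1 / 10)) :=
            mul_le_mul_of_nonneg_left h3 hT0.le
        _ ≤ 56 / 1000 * (w.re / (1 / 10)) :=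
            mul_le_mul_of_nonneg_right h2 (div_nonneg hw.re0 (by norm_num))
        _ = _ := by ring
    exact ⟨by linarith only [h, h4], hx rfl, (hw.im_le hT0.le).trans h2, h4⟩
  | ps =>
    obtain ⟨-, -, h1, h2, h3⟩ := hk
    exact ⟨by linarith only [h, h2], by linarith only [h3, hx', hx' rfl], by linarith only [h, h1], by linarith only [h, h2]⟩

/-- the value at `-1/4` -/
theorem RKe.ok.quarter_gt (hk : k.ok b w) (h : 0 < w.im) (hx : k.cp ρ w) (hρ : 0 < ρ)
    (hρ' : ρ ≤ 1045 / 10000) : Real.pi * w.im < fu w.re w.im (-(1 / 4)) ρ := by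
  by_cases hr : k = .ps
  · subst hr
    obtain ⟨-, -, h1, h2, h3⟩ := hk
    exact fu_quarter_ps (by linarith only [h, h2]) h3 h.le h1 h2 hx hρ'
  · obtain ⟨x0, x1, t1, t2⟩ := hk.of_pos h (K := 27 / 100) (fun hk => by subst hk; exact hx)
      (fun hk => absurd hk hr)
    exact fu_quarter_gt x0 x1 h.le t1 t2 hρ.le hρ'

/-- the value at `-1/4`, weaker caps -/
theorem RKe.ok.quarter_ge (hk : k.ok b w) (h : 0 < w.im) (hx : k = .rr → w.re ≤ 48 / 100)
    (hp : k = .ps → 4 / 100 ≤ ρ) (hρ : 0 < ρ) (hρ' : ρ ≤ 1045 / 10000) :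
    Real.pi * w.im - 16 / 100 < fu w.re w.im (-(1 / 4)) ρ := by
  by_cases hr : k = .ps
  · have := hk.quarter_gt (ρ := ρ) h (by subst hr; exact hp rfl) hρ hρ'
    linarith only [hρ, hρ', this]
  · obtain ⟨x0, x1, t1, t2⟩ := hk.of_pos h hx (fun hk => absurd hk hr)
    exact fu_quarter_ge x0 x1 h.le t1 t2 hρ hρ'

/-- **block move**: hinge to `.105`, ring variable to `-1/4` -/
theorem RM.block (h : RM b ρ w w' σ) (hc : RCap b ρ) (hw : RH w T (1 / 2) (1 / 10) (2 / 100))
    (hT : RRT b T) (hk' : k'.ok b w') (hx' : k' = .rr → w'.re ≤ 48 / 100)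
    (hp' : k' = .ps → 4 / 100 ≤ ρ) (hσ : |σ| = 1 / 2) :
    rg b ρ w w' σ < rg b ρ ⟨105 / 1000, T⟩ w' (-(1 / 4)) ∧ |w.im| ≤ |T| := by
  have hpi := Real.pi_pos
  obtain ⟨hb, h1, h2⟩ := h.end_four (hT.ok hw) hk' hσ
  have hρ := h.ρ0
  have hρ' := hc.1
  have hT0 : 0 < T := by
    by_contra hcon
    linarith only [h1, hw, hcon, hw.im_nonpos (not_lt.1 hcon)]
  have hwT := hw.im_le hT0.le
  refine ⟨?_, by rw [abs_of_pos h1, abs_of_pos hT0]; exact hwT⟩
  have k1 := RV.r9 hT0.le hT.2.1 hρ.le hρ'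
  have k2 := hk'.quarter_ge h2 hx' hp' hρ hρ'
  rw [rg_end hσ, abs_of_pos h1, abs_of_pos h2]
  unfold rg
  rw [fR_zt, fR_zt, th_of_le (by rw [abs_neg, abs_of_pos] <;> norm_num), mul_one, hb]
  simp only
  have k3 := mul_le_mul_of_nonneg_left hwT hpi.le
  have e : -(2 * Real.pi * ρ * (4 * (-(1 / 4)) + 1)) = 0 := by ring
  rw [e]
  linarith only [hρ, hρ', k1, k2, k3]

/-- **the ring variable is not at an end**, once the ring|ring hinges are `≤ .27` -/
theorem RM.lt_half_four (h : RM b ρ w w' σ) (hc : RCap b ρ) (hk : k.ok b w) (hk' : k'.ok b w')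
    (hx : k.cp ρ w) (hx' : k'.cp ρ w') : |σ| < 1 / 2 := by
  rcases h.lt_or_end with hσ | hσ
  · exact hσ
  · exfalso
    obtain ⟨hb, h1, h2⟩ := h.end_four hk hk' hσ
    have hρ := h.ρ0
    have hρ' := hc.1
    have k1 := hk.quarter_gt h1 hx hρ hρ'
    have k2 := hk'.quarter_gt h2 hx' hρ hρ'
    have h3 := h.mx (-(1 / 4)) (by rw [abs_neg, abs_of_pos] <;> norm_num)
    rw [rg_end hσ, abs_of_pos h1, abs_of_pos h2] at h3
    unfold rg at h3
    rw [fR_zt, fR_zt, th_of_le (by rw [abs_neg, abs_of_pos] <;> norm_num), mul_one, hb] at h3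
    have e : -(2 * Real.pi * ρ * (4 * (-(1 / 4)) + 1)) = 0 := by ring
    rw [e] at h3
    linarith only [k1, k2, h3]

end Pool.Agent.Work.MP_b30479_gtS.G2

end

section

/-!
# Ring sides: hinges with a tiny positive height, right ramp, no information on the ring
-/

namespace Pool.Agent.Work.MP_b30479_gtS.G2

open Finset VOL Filter Topology

variable {x t σ η c a b s ρ T θ y K κ m : ℝ} {w w' : ℂ} {k k' : RKe}

theorem YY_sum_ge (hx : 28 / 100 ≤ x) (hx' : x ≤ 6 / 10) (ht : 0 ≤ t) (hσ : |σ| ≤ 1 / 2) (hη : 0 ≤ η) :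
    -(122 / 100 * Real.pi) ≤ YY ⟨x + 1 / 2 + σ, t + η⟩ + YY ⟨x + 1 / 2 - σ, t - η⟩ - 2 * YY ⟨x, t⟩ := by
  have hpi := Real.pi_pos
  obtain ⟨s1, s2⟩ := abs_le.1 hσ
  rcases (show 0 ≤ t + η by linarith only [ht, hη]).eq_or_lt with h0 | h0
  · have e1 : t = 0 := by linarith only [ht, hη, h0]
    have e2 : η = 0 := by linarith only [hη, ht, h0]
    rw [e1, e2, add_zero, sub_zero, YY_mk_zero, YY_mk_zero, YY_mk_zero]
    linarith only [hpi]
  -- the own term
  have hw1 : x ≤ 1 / 2 → YY ⟨x, t⟩ ≤ 0 := by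
    intro h
    rcases ht.eq_or_lt with h1 | h1
    · rw [← h1, YY_mk_zero]
    · rw [YY_mk_pos h1]
      have := Tr_le_half (s := t) (x := x) h1 h
      linarith only [this]
  have hw2 : 1 / 2 ≤ x → YY ⟨x, t⟩ ≤ Real.pi * (1 / 10) := by
    intro h
    rcases ht.eq_or_lt with h1 | h1
    · rw [← h1, YY_mk_zero]
      positivity
    · rw [YY_mk_pos h1]
      have := Tr_le_pi_mul (s := t) (x := x) h (by linarith only [hx']) h1
      nlinarith only [this, hx', hpi]
  have hu : 0 ≤ DT.Tr (t + η) (x + 1 / 2 + σ) := Tr_nonneg h0 (by linarith only [hx, s1])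
  rw [YY_mk_pos h0]
  rcases lt_trichotomy (t - η) 0 with h1 | h1 | h1
  · rw [YY_mk_neg h1]
    have k1 := Tr_mono (s := t + η) h0 (show x ≤ x + 1 / 2 + σ by linarith only [s1])
    have k2 := Tr_mono (s := -(t - η)) (by linarith only [h1]) (show x + 1 / 2 - σ ≤ x + 1 by linarith only [s1])
    rw [Tr_add_one] at k2
    rcases le_total x (1 / 2) with h2 | h2
    · have k3 := pi_mul_le_Tr (s := t + η) (x := x) (by linarith only [hx]) h2 h0
      have k4 := Tr_le_half (s := -(t - η)) (x := x) (by linarith only [h1]) h2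
      have := hw1 h2
      nlinarith only [k1, k2, k3, k4, this, hx, hpi]
    · have k3 := Tr_mono_left (s := -(t - η)) (s' := t + η) (x := x) (by linarith only [h1]) (by linarith only [ht]) h2
        (by linarith only [hx'])
      have := hw2 h2
      nlinarith only [hpi, k1, k2, k3, this]
  · rw [h1, YY_mk_zero]
    rcases le_total x (1 / 2) with h2 | h2
    · have := hw1 h2
      nlinarith only [hpi, hu, this]
    · have := hw2 h2
      nlinarith only [hpi, hu, this]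
  · rw [YY_mk_pos h1]
    have hv : 0 ≤ DT.Tr (t - η) (x + 1 / 2 - σ) := Tr_nonneg h1 (by linarith only [hx, s2])
    rcases le_total x (1 / 2) with h2 | h2
    · have := hw1 h2
      nlinarith only [hpi, hu, hv, this]
    · have := hw2 h2
      nlinarith only [hpi, hu, hv, this]

theorem LL_add_one' (w : ℂ) : LL (w + 1) = LL w := by
  rw [LL_eq', LL_eq']
  simp only [Complex.add_re, Complex.one_re, Complex.add_im, Complex.one_im, add_zero]
  rw [show 2 * Real.pi * (w.re + 1) = 2 * Real.pi * w.re + 2 * Real.pi by ring, Real.cos_add_two_pi]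

/-- **Side of the ring on the right ramp**, tiny positive height, any place of the ring variable -/
theorem S4_ps_right (hρ : 0 < ρ) (hc : RCap b ρ) (hσ : |σ| ≤ 1 / 2) (hx : 3 / 10 ≤ w.re)
    (hx' : w.re ≤ 6 / 10) (ht : 0 ≤ w.im) (ht' : w.im ≤ 1 / 1000) (hm : m ≤ 0) :
    S4 m w (LT.zt ρ σ) ≤ -m * (122 / 100 * Real.pi) := by
  have hη : 0 ≤ ρ * LT.th σ := by
    rcases hσ.lt_or_eq with h | h
    · exact (mul_pos hρ (th_pos h)).le
    · rw [show LT.th σ = 0 by
        unfold LT.th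
        rw [h]
        norm_num]
      simp
  have k1 := YY_sum_ge (x := w.re) (t := w.im) (σ := σ) (η := ρ * LT.th σ) (by linarith only [hx]) hx' ht hσ hη
  have e : (⟨w.re, w.im⟩ : ℂ) = w := Complex.eta w
  rw [← mk_zt1, ← mk_zt2, e] at k1
  have k2 : LL (w + 1 / 2 + LT.zt ρ σ) + LL (w + 1 / 2 - LT.zt ρ σ) - 2 * LL w ≤ 0 := by
    rcases hσ.lt_or_eq with h | h
    · have habs : |w.im| = w.im := abs_of_nonneg ht
      exact (LL_hinge_neg' hρ hc h hx (by linarith only [hx']) (fun _ => by rw [habs]; linarith only [ht'])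
        (by rw [habs]; linarith only [ht'])).le
    · rcases (abs_eq (by norm_num : (0 : ℝ) ≤ 1 / 2)).mp h with h3 | h3
      · rw [h3, zt_half, show w + 1 / 2 + (1 / 2 : ℂ) = w + 1 by ring, LL_add_one',
          show w + 1 / 2 - (1 / 2 : ℂ) = w by ring]
        linarith only []
      · rw [h3, zt_neg_half, show w + 1 / 2 + (-(1 / 2) : ℂ) = w by ring,
          show w + 1 / 2 - (-(1 / 2) : ℂ) = w + 1 by ring, LL_add_one']
        linarith only []
  unfold S4
  have k3 := mul_le_mul_of_nonpos_left k1 hm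
  linarith only [k2, k3]

/-- **Value of the ring**: the loss of a move of the hinge to `28/100` -/
theorem fR_ps_loss (hρ : 0 < ρ) (hρ' : ρ ≤ 1045 / 10000) (hσ : |σ| ≤ 1 / 2) (hx : 28 / 100 ≤ w.re)
    (hx' : w.re ≤ 6 / 10) (ht : 0 ≤ w.im) (ht' : w.im ≤ T) (hT : T ≤ 1 / 1000) :
    fR w (LT.zt ρ σ) ≤ fR ⟨28 / 100, T⟩ (LT.zt ρ σ) + 4 * T := by
  have hpi := Real.pi_pos
  have hpi4 := Real.pi_lt_d4
  have hT0 : 0 ≤ T := ht.trans ht'
  rcases hσ.lt_or_eq with h | h
  · have hη : 0 < ρ * LT.th σ := mul_pos hρ (th_pos h)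
    rw [fR_zt, fR_zt]
    simp only
    have k1 := fu_x_anti_le (a := 28 / 100) (b := w.re) (t := w.im) (σ := σ) (ρ := ρ) (by norm_num) hx
      (by linarith only [hρ, hρ', hx']) ht (by linarith only [hρ, hρ', ht', hT]) hρ hρ' h
    have k2 : fu (28 / 100) w.im σ (ρ * LT.th σ) + 122 / 100 * Real.pi * w.im ≤
        fu (28 / 100) T σ (ρ * LT.th σ) + 122 / 100 * Real.pi * T := by
      refine mono_one (f := fun t => fu (28 / 100) t σ (ρ * LT.th σ) + 122 / 100 * Real.pi * t)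
        (f' := fun t => YY ⟨28 / 100 + 1 / 2 + σ, t + ρ * LT.th σ⟩ +
        YY ⟨28 / 100 + 1 / 2 - σ, t - ρ * LT.th σ⟩ - 2 * YY ⟨28 / 100, t⟩ + 122 / 100 * Real.pi)
        (ρ * LT.th σ) ht' ?_ ?_
      · exact (continuous_fu_t _ _ _).add (by fun_prop)
      · intro t h1 h2 h3
        have t0 : 0 < t := by linarith only [ht, h1]
        refine ⟨?_, ?_⟩
        · have d1 := hasDerivAt_fu_t (x := 28 / 100) (t := t) (σ := σ) (η := ρ * LT.th σ) (by norm_num)
            (by norm_num) (by linarith only [ht, hη, h1]) (Or.inl h3)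
          have d2 : HasDerivAt (fun t : ℝ => 122 / 100 * Real.pi * t) (122 / 100 * Real.pi) t := by
            simpa using (hasDerivAt_id t).const_mul (122 / 100 * Real.pi)
          exact d1.add d2
        · have := YY_sum_ge (x := 28 / 100) (t := t) (σ := σ) (η := ρ * LT.th σ) le_rfl (by norm_num)
            t0.le hσ hη.le
          linarith only [this]
    have k3 : 122 / 100 * Real.pi * (T - w.im) ≤ 4 * T := by
      have : 122 / 100 * Real.pi * (T - w.im) ≤ 122 / 100 * Real.pi * T :=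
        mul_le_mul_of_nonneg_left (by linarith only [ht]) (by positivity)
      nlinarith only [ht, ht', hρ, hρ', hpi4]
    linarith only [k1, k2, k3]
  · rw [fR_end h, fR_end h]
    simp only
    rw [abs_of_nonneg ht, abs_of_nonneg hT0]
    have := mul_le_mul_of_nonneg_left ht' hpi.le
    linarith only [ht, ht', this]

end Pool.Agent.Work.MP_b30479_gtS.G2

end

section

/-!
# The exceptional hinges between a digit `3` and a ring: cap `1/2`, no information on the ring
-/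

namespace Pool.Agent.Work.MP_b30479_gtS.G2

open Finset VOL Filter Topology

namespace SR

variable {M : ℕ} {b : Fin (M + 1) → ℤ} {zs : DD (tyW b) ⊕ ZZ (tyW b) → ℂ}
variable {y : DD (tyW b) ⊕ ZZ (tyW b) → ℝ}
variable {h h' : Fin M} {i j j' : Fin (M + 1)} {p : Fin 3}

/-- **Side of the ring**, tiny height `T ≥ 0` in the frame of the ring -/
theorem Adj.exc_side (A : Adj h i p j) (hb : ClassW b) (hL : Loc b zs) (hy : Mx b zs y)
    (hc : clsW b i = .ring) (hj : clsW b j = .three) (hT0 : 0 ≤ ofs (b i) (zs (.inl (.inl h))).im)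
    (hT1 : ofs (b i) (zs (.inl (.inl h))).im ≤ 7 / 10000) (hx : 3 / 10 < y (.inl (.inl h))) :
    Sw b zs y i p (slL b zs y h) ≤ 9 / 1000 := by
  have hpi := Real.pi_pos
  have hpi4 := Real.pi_lt_d4
  obtain ⟨v, hv, c1, r1, -⟩ := A.ring hb hL hy hc
  obtain ⟨e1, e2, e3, e4⟩ := A.par_ring_lo hc (by rw [hj]; decide) (by rw [hj]; decide)
  have hrh := A.rh hy
  have hM := hrh.reM
  rw [e1] at hM
  have hz : Zw b zs y i = LT.zt (zs (.inr v)).im (ofs (b i) (y (.inr v))) := by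
    subst hv
    exact Zw_eq v
  rw [A.side_ring hb hc, hz, ofs_slL_ramp _ (by rw [e1]; linarith only [hx, e3])]
  have h1 : (Yw b zs y i p).im ≤ 1 / 1000 := by
    have := hrh.im_le hT0
    linarith only [hT1, this]
  have h0 : 0 ≤ (Yw b zs y i p).im := by
    rw [hrh.im]
    exact mul_nonneg hT0 (tr_mem _ _ _ _).1
  have c0 : 0 < wcr b h := by linarith only [e3]
  have hd0 : 0 ≤ ofs (b i) (zs (.inl (.inl h))).im / wcr b h := div_nonneg hT0 c0.le
  have hd : ofs (b i) (zs (.inl (.inl h))).im / wcr b h ≤ 7 / 3000 := by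
    rw [div_le_iff₀ c0]
    linarith only [hT1, e3]
  have key := S4_ps_right (m := -(ofs (b i) (zs (.inl (.inl h))).im / wcr b h)) r1.ρ0 c1 r1.mem
    (by rw [A.re]; exact hx.le) (by linarith only [hM]) h0 h1 (by linarith only [hd0])
  refine key.trans ?_
  rw [neg_neg]
  calc _ ≤ 7 / 3000 * (122 / 100 * Real.pi) := mul_le_mul_of_nonneg_right hd (by positivity)
    _ ≤ _ := by linarith only [hpi4]

/-- **Value of the ring**: the loss of a move of the hinge to `28/100` -/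
theorem Adj.exc_dV (A : Adj h i p j) (hb : ClassW b) (hL : Loc b zs) (hy : Mx b zs y)
    (hc : clsW b i = .ring) (hj : clsW b j = .three) (hT0 : 0 ≤ ofs (b i) (zs (.inl (.inl h))).im)
    (hT1 : ofs (b i) (zs (.inl (.inl h))).im ≤ 7 / 10000) (hx : 28 / 100 ≤ y (.inl (.inl h))) :
    -(28 / 10000) ≤ dV b i p (OY b zs y i) (pw b zs (b i) h (28 / 100)) := by
  obtain ⟨v, -, c1, r1, z1⟩ := A.ring hb hL hy hc
  obtain ⟨e1, ⟨e2, e2'⟩, e3, e4⟩ := A.par_ring_lo hc (by rw [hj]; decide) (by rw [hj]; decide)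
  have hrh := A.rh hy
  have hM := hrh.reM
  rw [e1] at hM
  have h0 : 0 ≤ (Yw b zs y i p).im := by
    rw [hrh.im]
    exact mul_nonneg hT0 (tr_mem _ _ _ _).1
  have h1 := hrh.im_le hT0
  have hcr : wcr b h = 30 / 100 := by
    rw [A.cr_eq b, hc, hj]
    unfold hpp
    split_ifs <;> simp [hp]
  have hE : EndOk i (OY b zs y i) := Ow_endOk _ i
  rw [dV_ring hb A hc hE, z1, OY_hinge y A,
    pw_flat (b i) h (by linarith only [e2']) (by rw [e1, hcr]; norm_num)]
  have f1 : Yw b zs y i p = pw b zs (b i) h (y (.inl (.inl h))) := A.Yw_eq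
  rw [← f1]
  have g : (((28 / 100 : ℝ) : ℂ) + ((ofs (b i) (zs (.inl (.inl h))).im : ℝ) : ℂ) * Complex.I) =
      ⟨28 / 100, ofs (b i) (zs (.inl (.inl h))).im⟩ := by
    apply Complex.ext <;> simp
  rw [g]
  have key := fR_ps_loss (T := ofs (b i) (zs (.inl (.inl h))).im) r1.ρ0 c1.1 r1.mem
    (by rw [A.re]; exact hx) (by linarith only [hM]) h0 h1 (by linarith only [hT1])
  unfold fR at key
  linarith only [hT1, key]

/-- slot `2` of the digit `3` -/
theorem Adj.exc_cap_two (A : Adj h i 2 j) (hb : ClassW b) (hL : Loc b zs) (hX : LocX b zs)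
    (hy : Mx b zs y) (hi : clsW b i = .three) (hj : clsW b j = .ring)
    (hT : ofs (b i) (zs (.inl (.inl h))).im ≤ 0)
    (hT1 : -(7 / 10000) ≤ ofs (b i) (zs (.inl (.inl h))).im) : y (.inl (.inl h)) ≤ 30 / 100 := by
  by_contra hcon
  push Not at hcon
  have hop := A.opp hb (Or.inl (by rw [hi]; decide))
  have eo := ofs_opp hop (zs (.inl (.inl h))).im
  have s1 := A.own_three_ring_neg hb hL hX hy hi hj hcon hT
  have A' : Adj h j 0 i := A.symm
  have s2 := A'.exc_side hb hL hy hj hi (by linarith only [hT, eo]) (by linarith only [hT1, eo]) (by linarith only [hcon])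
  exact rstep_false hb hy (by linarith only [hcon]) (RStep.of_adj A (c := 0) (e1 := Sw b zs y i 2 (slL b zs y h))
    (e2 := 9 / 1000) (fun _ => rfl) (by linarith only [s1]) (by linarith only []) (by
      show Sw b zs y j 0 (slL b zs y h) + 0 * ofs (b j) (slL b zs y h) ≤ _
      linarith only [s2]))

end SR

end Pool.Agent.Work.MP_b30479_gtS.G2

end
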