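import Pool.Agent.Work.MP_b30479_gt.TBS.G2.RVa

/-!
# Values at a ring|ring hinge: rows
-/

set_option linter.unusedSimpArgs false

namespace Pool.Agent.Work.MP_b30479_gtS.G2

open VOL NumUs

namespace RV

variable {T s ρ x t : ℝ}

theorem r4 (h0 : 0 ≤ T) (h1 : T ≤ 56 / 1000) (h2 : 3 / 100 ≤ s) (h3 : s ≤ 1 / 4) (h4 : 0 ≤ ρ)
    (h5 : ρ ≤ T) : fu (48 / 100) T (-s) ρ < fu (105 / 1000) T (-s) ρ := by
  have h : chk [E.sub b0 b1, E.sub er eT] 24
      [NumIs.V.of 10000 0 560, NumIs.V.of 10000 300 2500, NumIs.V.of 10000 0 560] = true := by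
    decide +kernel
  obtain ⟨f, hf, hp⟩ := chk3 h (by norm_num) (x := T) (y := s) (z := ρ)
    (by norm_num; linarith only [h0]) (by norm_num; linarith only [h1]) (by norm_num; linarith only [h2]) (by norm_num; linarith only [h3])
    (by norm_num; linarith only [h4]) (by norm_num; linarith only [h1, h5])
  unfold fu
  rw [show (48 / 100 : ℝ) + 1 / 2 + -s = 98 / 100 - s by ring,
    beyond (show (48 / 100 : ℝ) + 1 / 2 - -s = (s - 2 / 100) + 1 by ring),
    show (105 / 1000 : ℝ) + 1 / 2 + -s = 605 / 1000 - s by ring,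
    show (105 / 1000 : ℝ) + 1 / 2 - -s = 605 / 1000 + s by ring,
    abs_of_nonneg (by linarith only [h5] : 0 ≤ T - ρ)]
  simp only [List.mem_cons, List.not_mem_nil, or_false] at hf
  rcases hf with rfl | rfl
  · simp only [b0, b1, eT, es, er, x0, xh, E.val, NumIs.lkR] at hp
    push_cast at hp
    simp only [div_one, zero_div] at hp
    linarith only [hp]
  · simp only [eT, er, E.val, NumIs.lkR] at hp
    linarith only [h5, hp]

theorem r5 (h0 : 0 ≤ T) (h1 : T ≤ 56 / 1000) (h4 : 0 ≤ ρ) (h5 : ρ ≤ 1045 / 10000) :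
    fu (46 / 100) T 0 ρ < fu (105 / 1000) T (-(3 / 100)) ρ := by
  have h : chk [E.sub b21 b20] 24
      [NumIs.V.of 10000 0 560, NumIs.V.of 10000 0 10, NumIs.V.of 10000 0 1045] = true := by
    decide +kernel
  have hp := pos_of_chk (chk3 h (by norm_num) (x := T) (y := 0) (z := ρ)
    (by norm_num; linarith only [h0]) (by norm_num; linarith only [h1]) (by norm_num) (by norm_num)
    (by norm_num; linarith only [h4]) (by norm_num; linarith only [h5]))
  simp only [b20, b21, eT, es, er, x0, xh, E.val, NumIs.lkR] at hp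
  push_cast at hp
  simp only [div_one, zero_div] at hp
  unfold fu
  rw [show (46 / 100 : ℝ) + 1 / 2 + 0 = 96 / 100 by norm_num,
    show (46 / 100 : ℝ) + 1 / 2 - 0 = 96 / 100 by norm_num,
    show (105 / 1000 : ℝ) + 1 / 2 + -(3 / 100) = 575 / 1000 by norm_num,
    show (105 / 1000 : ℝ) + 1 / 2 - -(3 / 100) = 635 / 1000 by norm_num]
  linarith only [hp]

/-- flat part, `σ = s ≥ 0` -/
theorem r6 (h0 : 0 ≤ T) (h1 : T ≤ 56 / 1000) (h2 : 3 / 100 ≤ s) (h3 : s ≤ 17 / 100) (h4 : 0 ≤ ρ)
    (h5 : ρ ≤ 1045 / 10000) : fu (48 / 100) T s ρ < fu (105 / 1000) T s ρ := by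
  have h : chk [E.sub c0 c1] 24
      [NumIs.V.of 10000 0 560, NumIs.V.of 10000 300 1700, NumIs.V.of 10000 0 1045] = true := by
    decide +kernel
  have hp := pos_of_chk (chk3 h (by norm_num) (x := T) (y := s) (z := ρ)
    (by norm_num; linarith only [h0]) (by norm_num; linarith only [h1]) (by norm_num; linarith only [h2]) (by norm_num; linarith only [h3])
    (by norm_num; linarith only [h4]) (by norm_num; linarith only [h5]))
  simp only [c0, c1, eT, es, er, x0, xh, E.val, NumIs.lkR] at hp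
  push_cast at hp
  simp only [div_one, zero_div] at hp
  unfold fu
  rw [beyond (show (48 / 100 : ℝ) + 1 / 2 + s = (s - 2 / 100) + 1 by ring),
    show (48 / 100 : ℝ) + 1 / 2 - s = 98 / 100 - s by ring,
    show (105 / 1000 : ℝ) + 1 / 2 + s = 605 / 1000 + s by ring,
    show (105 / 1000 : ℝ) + 1 / 2 - s = 605 / 1000 - s by ring,
    abs_of_nonneg (by linarith only [h0, h4] : 0 ≤ T + ρ)]
  linarith only [hp]

theorem r6b (h0 : 0 ≤ T) (h1 : T ≤ 56 / 1000) (h2 : 0 ≤ s) (h3 : s ≤ 3 / 100) (h4 : 0 ≤ ρ)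
    (h5 : ρ ≤ 1045 / 10000) : fu (46 / 100) T s ρ < fu (105 / 1000) T s ρ := by
  have h : chk [E.sub c0 c2] 24
      [NumIs.V.of 10000 0 560, NumIs.V.of 10000 0 300, NumIs.V.of 10000 0 1045] = true := by
    decide +kernel
  have hp := pos_of_chk (chk3 h (by norm_num) (x := T) (y := s) (z := ρ)
    (by norm_num; linarith only [h0]) (by norm_num; linarith only [h1]) (by norm_num; linarith only [h2]) (by norm_num; linarith only [h3])
    (by norm_num; linarith only [h4]) (by norm_num; linarith only [h5]))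
  simp only [c0, c2, eT, es, er, x0, xh, E.val, NumIs.lkR] at hp
  push_cast at hp
  simp only [div_one, zero_div] at hp
  unfold fu
  rw [show (46 / 100 : ℝ) + 1 / 2 + s = 96 / 100 + s by ring,
    show (46 / 100 : ℝ) + 1 / 2 - s = 96 / 100 - s by ring,
    show (105 / 1000 : ℝ) + 1 / 2 + s = 605 / 1000 + s by ring,
    show (105 / 1000 : ℝ) + 1 / 2 - s = 605 / 1000 - s by ring]
  linarith only [hp]

end RV

end Pool.Agent.Work.MP_b30479_gtS.G2
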