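import Pool.Agent.Work.MP_b30479_gt.TBS.G2.RVa

/-!
# Values at a ring|ring hinge: rows
-/

set_option linter.unusedSimpArgs false

namespace Pool.Agent.Work.MP_b30479_gtS.G2

open VOL NumUs

namespace RV

variable {T s ρ x t : ℝ}

theorem r6c (h0 : 0 ≤ T) (h1 : T ≤ 56 / 1000) (h2 : 165 / 1000 ≤ s) (h3 : s ≤ 1 / 4) (h4 : 0 ≤ ρ)
    (h5 : ρ ≤ 85 / 1000) : fu (48 / 100) T s ρ < fu (105 / 1000) T s ρ := by
  have h : chk [E.sub c0 c1] 24
      [NumIs.V.of 10000 0 560, NumIs.V.of 10000 1650 2500, NumIs.V.of 10000 0 850] = true := by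
    decide +kernel
  have hp := pos_of_chk (chk3 h (by norm_num) (x := T) (y := s) (z := ρ)
    (by norm_num; linarith only [h0]) (by norm_num; linarith only [h1]) (by norm_num; linarith only [h2]) (by norm_num; linarith only [h3])
    (by norm_num; linarith only [h4]) (by norm_num; linarith only [h5]))
  simp only [c0, c1, eT, es, er, x0, xh, E.val, NumIs.lkR] at hp
  push_cast at hp
  simp only [div_one, zero_div] at hp
  unfold fu
  rw [beyond (show (48 / 100 : ℝ) + 1 / 2 + s = (s - 2 / 100) + 1 by ring),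
    show (48 / 100 : ℝ) + 1 / 2 - s = 98 / 100 - s by ring,
    show (105 / 1000 : ℝ) + 1 / 2 + s = 605 / 1000 + s by ring,
    show (105 / 1000 : ℝ) + 1 / 2 - s = 605 / 1000 - s by ring,
    abs_of_nonneg (by linarith only [h0, h4] : 0 ≤ T + ρ)]
  linarith only [hp]

theorem r7 (h0 : 0 ≤ T) (h1 : T ≤ 25 / 1000) (h2 : 165 / 1000 ≤ s) (h3 : s ≤ 1 / 4)
    (h4 : 85 / 1000 ≤ ρ) (h5 : ρ ≤ 1045 / 10000) : fu (48 / 100) T s ρ < fu (105 / 1000) T s ρ := by
  have h : chk [E.sub c0 c1] 24
      [NumIs.V.of 10000 0 250, NumIs.V.of 10000 1650 2500, NumIs.V.of 10000 850 1045] = true := by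
    decide +kernel
  have hp := pos_of_chk (chk3 h (by norm_num) (x := T) (y := s) (z := ρ)
    (by norm_num; linarith only [h0]) (by norm_num; linarith only [h1]) (by norm_num; linarith only [h2]) (by norm_num; linarith only [h3])
    (by norm_num; linarith only [h4]) (by norm_num; linarith only [h5]))
  simp only [c0, c1, eT, es, er, x0, xh, E.val, NumIs.lkR] at hp
  push_cast at hp
  simp only [div_one, zero_div] at hp
  unfold fu
  rw [beyond (show (48 / 100 : ℝ) + 1 / 2 + s = (s - 2 / 100) + 1 by ring),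
    show (48 / 100 : ℝ) + 1 / 2 - s = 98 / 100 - s by ring,
    show (105 / 1000 : ℝ) + 1 / 2 + s = 605 / 1000 + s by ring,
    show (105 / 1000 : ℝ) + 1 / 2 - s = 605 / 1000 - s by ring,
    abs_of_nonneg (by linarith only [h0, h4] : 0 ≤ T + ρ)]
  linarith only [hp]

/-- ramp, `σ = 1/2 - s > 0` -/
theorem r8 (h0 : 0 ≤ T) (h1 : T ≤ 25 / 1000) (h2 : 62 / 1000 ≤ s) (h3 : s ≤ 1 / 4) (h4 : 0 ≤ ρ)
    (h5 : ρ ≤ 1045 / 10000) :
    fu (48 / 100) T (1 / 2 - s) (4 * ρ * s) < fu (105 / 1000) T (1 / 2 - s) (4 * ρ * s) := by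
  unfold fu
  have e : 0 ≤ 4 * ρ * s := by positivity
  have e' : 0 ≤ T + 4 * ρ * s := by linarith only [h0, e]
  rw [beyond (show (48 / 100 : ℝ) + 1 / 2 + (1 / 2 - s) = (48 / 100 - s) + 1 by ring),
    show (48 / 100 : ℝ) + 1 / 2 - (1 / 2 - s) = 48 / 100 + s by ring,
    show (105 / 1000 : ℝ) + 1 / 2 - (1 / 2 - s) = 105 / 1000 + s by ring, abs_of_nonneg e']
  rcases le_total s (11 / 100) with hs | hs
  · rcases le_total s (1 / 10) with hs' | hs'
    · have h : chk [E.sub d0' d1] 24
          [NumIs.V.of 10000 0 250, NumIs.V.of 10000 620 1000, NumIs.V.of 10000 0 1045] = true := by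
        decide +kernel
      have hp := pos_of_chk (chk3 h (by norm_num) (x := T) (y := s) (z := ρ)
        (by norm_num; linarith only [h0]) (by norm_num; linarith only [h1]) (by norm_num; linarith only [h2])
        (by norm_num; linarith only [hs']) (by norm_num; linarith only [h4]) (by norm_num; linarith only [h5]))
      rw [beyond (show (105 / 1000 : ℝ) + 1 / 2 + (1 / 2 - s) = (105 / 1000 - s) + 1 by ring),
        abs_of_nonneg e']
      simp only [d0', d1, eT, es, ee, x0, E.val, NumIs.lkR] at hp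
      push_cast at hp
      simp only [div_one, zero_div] at hp
      linarith only [hp]
    · have h : chk [E.sub d0'' d1] 24
          [NumIs.V.of 10000 0 250, NumIs.V.of 10000 1000 1100, NumIs.V.of 10000 0 1045] = true := by
        decide +kernel
      have hp := pos_of_chk (chk3 h (by norm_num) (x := T) (y := s) (z := ρ)
        (by norm_num; linarith only [h0]) (by norm_num; linarith only [h1]) (by norm_num; linarith only [hs'])
        (by norm_num; linarith only [hs]) (by norm_num; linarith only [h4]) (by norm_num; linarith only [h5]))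
      have h7 : uu (5 / 1000 + 1) (T + 4 * ρ * s) ≤
          uu (105 / 1000 + 1 / 2 + (1 / 2 - s)) (T + 4 * ρ * s) :=
        anti1 (by linarith only [hs]) (by linarith only [hs']) (by linarith only []) (by rw [abs_of_nonneg e']; nlinarith only [h1, h5, hs, h2])
      rw [uu_add_one, abs_of_nonneg e'] at h7
      simp only [d0'', d1, eT, es, ee, x0, E.val, NumIs.lkR] at hp
      push_cast at hp
      simp only [div_one, zero_div] at hp
      linarith only [h7, hp]
  · have h : chk [E.sub d0 d1] 24
        [NumIs.V.of 10000 0 250, NumIs.V.of 10000 1100 2500, NumIs.V.of 10000 0 1045] = true := by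
      decide +kernel
    have hp := pos_of_chk (chk3 h (by norm_num) (x := T) (y := s) (z := ρ)
      (by norm_num; linarith only [h0]) (by norm_num; linarith only [h1]) (by norm_num; linarith only [hs])
      (by norm_num; linarith only [h3]) (by norm_num; linarith only [h4]) (by norm_num; linarith only [h5]))
    rw [before (show (105 / 1000 : ℝ) + 1 / 2 + (1 / 2 - s) = 1 - (s - 105 / 1000) by ring)]
    simp only [d0, d1, eT, es, ee, x0, E.val, NumIs.lkR] at hp
    push_cast at hp
    simp only [div_one, zero_div] at hp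
    linarith only [hp]

end RV

end Pool.Agent.Work.MP_b30479_gtS.G2
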