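import Pool.Agent.Work.MP_b30479_gt.TBS.G2.RVa

section

/-!
# Values at a ring|ring hinge: rows
-/

set_option linter.unusedSimpArgs false

namespace Pool.Agent.Work.MP_b30479_gtS.G2

open VOL NumUs

namespace RV

variable {T s ρ x t : ℝ}

/-- values at `σ = -1/4` -/
theorem r9 (h0 : 0 ≤ T) (h1 : T ≤ 56 / 1000) (h4 : 0 ≤ ρ) (h5 : ρ ≤ 1045 / 10000) :
    Real.pi * T + 2 / 10 < fu (105 / 1000) T (-(1 / 4)) ρ := by
  have h : chk [m1] 24
      [NumIs.V.of 10000 0 560, NumIs.V.of 10000 0 10, NumIs.V.of 10000 0 1045] = true := by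
    decide +kernel
  have hp := pos_of_chk (chk3 h (by norm_num) (x := T) (y := 0) (z := ρ)
    (by norm_num; linarith only [h0]) (by norm_num; linarith only [h1]) (by norm_num) (by norm_num)
    (by norm_num; linarith only [h4]) (by norm_num; linarith only [h5]))
  simp only [m1, eT, es, er, x0, E.val, NumIs.lkR] at hp
  push_cast at hp
  simp only [div_one, zero_div] at hp
  unfold fu
  rw [show (105 / 1000 : ℝ) + 1 / 2 + -(1 / 4) = 355 / 1000 by norm_num,
    show (105 / 1000 : ℝ) + 1 / 2 - -(1 / 4) = 855 / 1000 by norm_num]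
  linarith only [hp]

theorem r9b (h0 : 0 ≤ T) (h1 : T ≤ 56 / 1000) (h4 : 0 ≤ ρ) (h5 : ρ ≤ 1045 / 10000) :
    Real.pi * T - 16 / 100 < fu (48 / 100) T (-(1 / 4)) ρ := by
  have h : chk [m2 (E.sub eT er), m2 (E.sub er eT)] 24
      [NumIs.V.of 10000 0 560, NumIs.V.of 10000 0 10, NumIs.V.of 10000 0 1045] = true := by
    decide +kernel
  obtain ⟨f, hf, hp⟩ := chk3 h (by norm_num) (x := T) (y := 0) (z := ρ)
    (by norm_num; linarith only [h0]) (by norm_num; linarith only [h1]) (by norm_num) (by norm_num)
    (by norm_num; linarith only [h4]) (by norm_num; linarith only [h5])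
  have k1 := pi_le_abs (T - ρ)
  have k2 := pi_le_abs (ρ - T)
  rw [abs_sub_comm] at k2
  unfold fu
  rw [show (48 / 100 : ℝ) + 1 / 2 + -(1 / 4) = 73 / 100 by norm_num,
    beyond (show (48 / 100 : ℝ) + 1 / 2 - -(1 / 4) = 23 / 100 + 1 by norm_num)]
  simp only [List.mem_cons, List.not_mem_nil, or_false] at hf
  rcases hf with rfl | rfl
  · simp only [m2, eT, es, er, x0, E.val, NumIs.lkR] at hp
    push_cast at hp
    simp only [div_one, zero_div] at hp
    linarith only [k1, hp]
  · simp only [m2, eT, es, er, x0, E.val, NumIs.lkR] at hp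
    push_cast at hp
    simp only [div_one, zero_div] at hp
    linarith only [k2, hp]

end RV

end Pool.Agent.Work.MP_b30479_gtS.G2

end

section

/-!
# Values at a ring|ring hinge: rows
-/

set_option linter.unusedSimpArgs false

namespace Pool.Agent.Work.MP_b30479_gtS.G2

open VOL NumUs

namespace RV

variable {T s ρ x t : ℝ}

theorem r11 (h0 : 0 ≤ t) (h2 : 5 / 1000 ≤ x) (h1 : t ≤ 56 / 100 * x) (h3 : x ≤ 6 / 100) (h4 : 0 ≤ ρ)
    (h5 : ρ ≤ 1045 / 10000) : Real.pi * t < fu x t (-(1 / 4)) ρ := by
  have hx : 0 < x := by linarith only [h2]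
  have hm0 : 0 ≤ t / x := by positivity
  have hm1 : t / x ≤ 56 / 100 := by rw [div_le_iff₀ hx]; exact h1
  have ht : t / x * x = t := by field_simp
  unfold fu
  rw [show x + 1 / 2 + -(1 / 4) = 1 / 4 + x by ring, show x + 1 / 2 - -(1 / 4) = 3 / 4 + x by ring]
  rcases le_total x (2 / 100) with hx | hx
  · have h : chk [m4] 24
        [NumIs.V.of 10000 50 200, NumIs.V.of 10000 0 5600, NumIs.V.of 10000 0 1045] = true := by
      decide +kernel
    have hp := pos_of_chk (chk3 h (by norm_num) (x := x) (y := t / x) (z := ρ)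
      (by norm_num; linarith only [h2]) (by norm_num; linarith only [hx]) (by norm_num; linarith only [hm0])
      (by norm_num; linarith only [hm1]) (by norm_num; linarith only [h4]) (by norm_num; linarith only [h5]))
    simp only [m4, er, E.val, NumIs.lkR, ht] at hp
    push_cast at hp
    simp only [div_one, zero_div] at hp
    linarith only [hp]
  · have h : chk [m4] 24
        [NumIs.V.of 10000 200 600, NumIs.V.of 10000 0 5600, NumIs.V.of 10000 0 1045] = true := by
      decide +kernel
    have hp := pos_of_chk (chk3 h (by norm_num) (x := x) (y := t / x) (z := ρ)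
      (by norm_num; linarith only [hx]) (by norm_num; linarith only [h3]) (by norm_num; linarith only [hm0])
      (by norm_num; linarith only [hm1]) (by norm_num; linarith only [h4]) (by norm_num; linarith only [h5]))
    simp only [m4, er, E.val, NumIs.lkR, ht] at hp
    push_cast at hp
    simp only [div_one, zero_div] at hp
    linarith only [hp]

end RV

end Pool.Agent.Work.MP_b30479_gtS.G2

end
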