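import Pool.Agent.Work.MP_b30479_gt.TBS.G2.RngA
import Pool.Agent.Work.MP_b30479_gt.TBS.G2.RLevT
import Pool.Agent.Work.MP_b30479_gt.TBS.G2.RV

/-!
# Ring sides: monotonicity of the hinge function of a ring in the hinge
-/

namespace Pool.Agent.Work.MP_b30479_gtS.G2

open Finset VOL Filter Topology NumUs

/-! ### symmetries -/

theorem fu_mir (x t σ η : ℝ) : fu x (-t) σ η = fu x t (-σ) η := by
  unfold fu
  rw [show -t + η = -(t - η) by ring, show -t - η = -(t + η) by ring, uu_neg, uu_neg, uu_neg,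
    show x + 1 / 2 + -σ = x + 1 / 2 - σ by ring, show x + 1 / 2 - -σ = x + 1 / 2 + σ by ring]
  ring

theorem fu_swap (x t σ η : ℝ) : fu x t σ η + 2 * uu x t = fu x η σ t + 2 * uu x η := by
  unfold fu
  have : uu (x + 1 / 2 - σ) (η - t) = uu (x + 1 / 2 - σ) (t - η) := by
    rw [show η - t = -(t - η) by ring, uu_neg]
  rw [this, add_comm η t]
  ring

/-! ### derivatives -/

theorem sin_ne_of_not_int {u : ℂ} (h : ∀ k : ℤ, u ≠ k) : Complex.sin (Real.pi * u) ≠ 0 := by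
  intro hc
  rw [Complex.sin_eq_zero_iff] at hc
  obtain ⟨k, hk⟩ := hc
  apply h k
  have : (Real.pi : ℂ) ≠ 0 := by exact_mod_cast Real.pi_ne_zero
  apply mul_left_cancel₀ this
  rw [hk]
  ring

theorem sin_ne_02 {x y : ℝ} (h0 : 0 < x) (h2 : x < 2) (h : y ≠ 0 ∨ x ≠ 1) :
    Complex.sin (Real.pi * (⟨x, y⟩ : ℂ)) ≠ 0 := by
  apply sin_ne_of_not_int
  intro k hk
  have h1 := congrArg Complex.re hk
  have h3 := congrArg Complex.im hk
  simp at h1 h3
  rcases h with h | h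
  · exact h h3
  · rw [h1] at h0 h2 h
    have a1 : (0 : ℤ) < k := by exact_mod_cast h0
    have a2 : k < (2 : ℤ) := by exact_mod_cast h2
    apply h
    have : k = 1 := by omega
    rw [this]
    simp

variable {x t σ η c a b s ρ : ℝ}

theorem hasDerivAt_fu_x (hx0 : 0 < x) (hx1 : x < 1) (hσ : |σ| < 1 / 2) (ht : t + η ≠ 0)
    (hc : t ≠ η ∨ x ≠ 1 / 2 + σ) :
    HasDerivAt (fun x => fu x t σ η) (LL ⟨x + 1 / 2 + σ, t + η⟩ + LL ⟨x + 1 / 2 - σ, t - η⟩ -
      2 * LL ⟨x, t⟩) x := by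
  obtain ⟨s0, s1⟩ := abs_lt.mp hσ
  have h1 : HasDerivAt (fun x => uu (x + 1 / 2 + σ) (t + η)) (LL ⟨x + 1 / 2 + σ, t + η⟩) x := by
    have := (hasDerivAt_uu_x (x := x + 1 / 2 + σ) (y := t + η) (sin_ne_02 (by linarith only [hx0, s0])
      (by linarith only [hx1, s1]) (Or.inl ht))).comp x (((hasDerivAt_id x).add_const (1 / 2)).add_const σ)
    exact HasDerivAt.congr_deriv this (by simp)
  have h2 : HasDerivAt (fun x => uu (x + 1 / 2 - σ) (t - η)) (LL ⟨x + 1 / 2 - σ, t - η⟩) x := by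
    have := (hasDerivAt_uu_x (x := x + 1 / 2 - σ) (y := t - η) (sin_ne_02 (by linarith only [hx0, s1])
      (by linarith only [hx1, s0]) (by
        rcases hc with hc | hc
        · exact Or.inl (sub_ne_zero.mpr hc)
        · right
          intro h
          apply hc
          linarith only [h]))).comp x (((hasDerivAt_id x).add_const (1 / 2)).sub_const σ)
    exact HasDerivAt.congr_deriv this (by simp)
  have h3 := hasDerivAt_uu_x (x := x) (y := t) (sin_ne_of_strip ⟨hx0, hx1⟩)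
  unfold fu
  exact (h1.add h2).sub (h3.const_mul 2)

theorem continuous_fu_x (t σ η : ℝ) : Continuous fun x => fu x t σ η := by
  unfold fu
  have h1 := (continuous_uu_x (t + η)).comp (show Continuous fun x : ℝ => x + 1 / 2 + σ by fun_prop)
  have h2 := (continuous_uu_x (t - η)).comp (show Continuous fun x : ℝ => x + 1 / 2 - σ by fun_prop)
  have h3 := continuous_uu_x t
  exact (h1.add h2).sub (continuous_const.mul h3)

theorem continuous_fu_t (x σ η : ℝ) : Continuous fun t => fu x t σ η := by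
  unfold fu
  have h1 := (continuous_uu_y (x + 1 / 2 + σ)).comp (show Continuous fun t : ℝ => t + η by fun_prop)
  have h2 := (continuous_uu_y (x + 1 / 2 - σ)).comp (show Continuous fun t : ℝ => t - η by fun_prop)
  have h3 := continuous_uu_y x
  exact (h1.add h2).sub (continuous_const.mul h3)

theorem hasDerivAt_fu_t (hx0 : 0 < x) (hx1 : x < 1) (ht : t + η ≠ 0)
    (hc : t ≠ η ∨ (0 < x + 1 / 2 - σ ∧ x + 1 / 2 - σ < 1)) :
    HasDerivAt (fun t => fu x t σ η) (YY ⟨x + 1 / 2 + σ, t + η⟩ + YY ⟨x + 1 / 2 - σ, t - η⟩ -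
      2 * YY ⟨x, t⟩) t := by
  have h1 : HasDerivAt (fun t => uu (x + 1 / 2 + σ) (t + η)) (YY ⟨x + 1 / 2 + σ, t + η⟩) t := by
    have := (hasDerivAt_uu_y (x := x + 1 / 2 + σ) (y := t + η) (Or.inl ht)).comp t
      ((hasDerivAt_id t).add_const η)
    exact HasDerivAt.congr_deriv this (by simp)
  have h2 : HasDerivAt (fun t => uu (x + 1 / 2 - σ) (t - η)) (YY ⟨x + 1 / 2 - σ, t - η⟩) t := by
    have := (hasDerivAt_uu_y (x := x + 1 / 2 - σ) (y := t - η) (by
      rcases hc with hc | hc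
      · exact Or.inl (sub_ne_zero.mpr hc)
      · exact Or.inr hc)).comp t ((hasDerivAt_id t).sub_const η)
    exact HasDerivAt.congr_deriv this (by simp)
  have h3 := hasDerivAt_uu_y (x := x) (y := t) (Or.inr ⟨hx0, hx1⟩)
  unfold fu
  exact (h1.add h2).sub (h3.const_mul 2)

/-! ### the derivative in the height near `x = 1/2` -/

theorem YY_mk_pos {x y : ℝ} (h : 0 < y) : YY ⟨x, y⟩ = DT.Tr y x - Real.pi / 2 := YY_pos h

theorem YY_mk_neg {x y : ℝ} (h : y < 0) : YY ⟨x, y⟩ = Real.pi / 2 - DT.Tr (-y) x := YY_neg h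

theorem Tr_nonneg {s x : ℝ} (hs : 0 < s) (hx : 0 ≤ x) : 0 ≤ DT.Tr s x := by
  have := Tr_mono hs hx
  rwa [DT.Tr_zero hs] at this

/-- in the height: decreasing below the height of the ring variable -/
theorem fu_t_anti (hc : 1 / 4 ≤ c) (hc' : c ≤ 1 / 2) (hσ : σ ≤ -(1 / 2 - c)) (hσ' : -(1 / 2) ≤ σ)
    (ha : 0 ≤ a) (hab : a ≤ b) (hb : b ≤ η) : fu c b σ η ≤ fu c a σ η := by
  have hpi := Real.pi_pos
  refine anti_one (f := fun t => fu c t σ η) (f' := fun t => YY ⟨c + 1 / 2 + σ, t + η⟩ +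
    YY ⟨c + 1 / 2 - σ, t - η⟩ - 2 * YY ⟨c, t⟩) 0 hab (continuous_fu_t _ _ _) ?_
  intro t h1 h2 _
  have t0 : 0 < t := by linarith only [ha, h1]
  refine ⟨hasDerivAt_fu_t (by linarith only [hc]) (by linarith only [hc']) (by linarith only [ha, hb, h1, h2]) (Or.inl (by linarith only [hb, h2])), ?_⟩
  rw [YY_mk_pos (show 0 < t + η by linarith only [ha, hb, h1, h2]), YY_mk_neg (show t - η < 0 by linarith only [hb, h2]),
    YY_mk_pos t0]
  have k1 := pi_mul_le_Tr (s := t) (x := c) (by linarith only [hc]) hc' t0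
  have k2 : Real.pi + Real.pi * (c - 1 / 2 - σ) ≤ DT.Tr (-(t - η)) (c + 1 / 2 - σ) := by
    have e : c + 1 / 2 - σ = (c - 1 / 2 - σ) + 1 := by ring
    have := pi_mul_le_Tr (s := -(t - η)) (x := c - 1 / 2 - σ) (by linarith only [hσ]) (by linarith only [hc', hσ'])
      (by linarith only [hb, h2])
    rw [e, Tr_add_one]
    linarith only [this]
  rcases le_total (1 / 2) (c + 1 / 2 + σ) with h3 | h3
  · have k3 := Tr_le_pi_mul (s := t + η) (x := c + 1 / 2 + σ) h3 (by linarith only [hc', hσ]) (by linarith only [ha, hb, h1, h2])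
    nlinarith only [k1, k2, k3, hσ, hpi]
  · have k3 := Tr_le_half (s := t + η) (x := c + 1 / 2 + σ) (by linarith only [ha, hb, h1, h2]) h3
    nlinarith only [k1, k2, k3, hc, hpi, hσ]

/-- in the height: increasing above the height of the ring variable -/
theorem fu_t_mono (hc : 1 / 4 ≤ c) (hc' : c ≤ 1 / 2) (hσ : σ ≤ 0) (hσ' : -(1 / 2) ≤ σ)
    (hη : 0 < η) (ha : η ≤ a) (hab : a ≤ b) : fu c a σ η ≤ fu c b σ η := by
  have hpi := Real.pi_pos
  refine mono_one (f := fun t => fu c t σ η) (f' := fun t => YY ⟨c + 1 / 2 + σ, t + η⟩ +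
    YY ⟨c + 1 / 2 - σ, t - η⟩ - 2 * YY ⟨c, t⟩) 0 hab (continuous_fu_t _ _ _) ?_
  intro t h1 h2 _
  have t0 : 0 < t := by linarith only [hη, ha, h1]
  refine ⟨hasDerivAt_fu_t (by linarith only [hc]) (by linarith only [hc']) (by linarith only [hη, ha, h1]) (Or.inl (by linarith only [ha, h1])), ?_⟩
  rw [YY_mk_pos (show 0 < t + η by linarith only [hη, ha, h1]), YY_mk_pos (show 0 < t - η by linarith only [ha, h1]),
    YY_mk_pos t0]
  have k1 := Tr_le_half (s := t) (x := c) t0 hc'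
  rcases le_total 1 (c + 1 / 2 - σ) with h3 | h3
  · have k2 := Tr_mono (s := t - η) (by linarith only [ha, h1]) h3
    rw [Tr_one (by linarith only [ha, h1])] at k2
    have k3 := Tr_nonneg (s := t + η) (x := c + 1 / 2 + σ) (by linarith only [hη, ha, h1]) (by linarith only [hc, hσ'])
    linarith only [k1, k2, k3]
  · have k2 := half_le_Tr (s := t - η) (x := c + 1 / 2 - σ) (by linarith only [ha, h1]) (by linarith only [hc, hσ])
    have k3 := half_le_Tr (s := t + η) (x := c + 1 / 2 + σ) (by linarith only [hη, ha, h1]) (by linarith only [hc, h3])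
    linarith only [k1, k2, k3]

/-- in the height: increasing for `σ ≥ 0` -/
theorem fu_t_mono_pos (hc : 1 / 4 ≤ c) (hc' : c ≤ 1 / 2) (hσ : 0 ≤ σ) (hσ' : σ ≤ 1 / 2)
    (hη : 0 < η) (ha : 0 ≤ a) (hab : a ≤ b) : fu c a σ η ≤ fu c b σ η := by
  have hpi := Real.pi_pos
  refine mono_one (f := fun t => fu c t σ η) (f' := fun t => YY ⟨c + 1 / 2 + σ, t + η⟩ +
    YY ⟨c + 1 / 2 - σ, t - η⟩ - 2 * YY ⟨c, t⟩) η hab (continuous_fu_t _ _ _) ?_
  intro t h1 h2 h3
  have t0 : 0 < t := by linarith only [ha, h1]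
  refine ⟨hasDerivAt_fu_t (by linarith only [hc]) (by linarith only [hc']) (by linarith only [hη, ha, h1]) (Or.inl h3), ?_⟩
  rw [YY_mk_pos (show 0 < t + η by linarith only [hη, ha, h1]), YY_mk_pos t0]
  have k1 := Tr_le_half (s := t) (x := c) t0 hc'
  rcases lt_or_gt_of_ne h3 with h3 | h3
  · rw [YY_mk_neg (show t - η < 0 by linarith only [h3])]
    rcases le_total 1 (c + 1 / 2 + σ) with h4 | h4
    · have k2 := Tr_mono (s := t + η) (by linarith only [ha, h1, h3]) h4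
      rw [Tr_one (by linarith only [ha, h1, h3])] at k2
      have k3 := Tr_mono (s := -(t - η)) (by linarith only [h3]) (show c + 1 / 2 - σ ≤ 1 by linarith only [hc', hσ])
      rw [Tr_one (by linarith only [h3])] at k3
      linarith only [k1, k2, k3]
    · have k2 := Tr_le_Tr (s := -(t - η)) (s' := t + η) (x := c + 1 / 2 - σ) (y := c + 1 / 2 + σ)
        (by linarith only [h3]) (by linarith only [ha, h1]) (by linarith only [hc', hσ]) (by linarith only [hσ]) (by linarith only [hc, hσ])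
      linarith only [k1, k2]
  · rw [YY_mk_pos (show 0 < t - η by linarith only [h3])]
    rcases le_total 1 (c + 1 / 2 + σ) with h4 | h4
    · have k2 := Tr_mono (s := t + η) (by linarith only [hη, h3]) h4
      rw [Tr_one (by linarith only [hη, h3])] at k2
      have k3 := Tr_nonneg (s := t - η) (x := c + 1 / 2 - σ) (by linarith only [h3]) (by linarith only [hc, hσ'])
      linarith only [k1, k2, k3]
    · have k2 := half_le_Tr (s := t + η) (x := c + 1 / 2 + σ) (by linarith only [hη, h3]) (by linarith only [hc, hσ])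
      have k3 := half_le_Tr (s := t - η) (x := c + 1 / 2 - σ) (by linarith only [h3]) (by linarith only [hc, h4])
      linarith only [k1, k2, k3]

/-! ### level monotonicity -/

theorem mk_zt1 (x t ρ σ : ℝ) : (⟨x, t⟩ : ℂ) + 1 / 2 + LT.zt ρ σ =
    ⟨x + 1 / 2 + σ, t + ρ * LT.th σ⟩ := by
  rw [zt_eq]
  apply Complex.ext <;> simp

theorem mk_zt2 (x t ρ σ : ℝ) : (⟨x, t⟩ : ℂ) + 1 / 2 - LT.zt ρ σ =
    ⟨x + 1 / 2 - σ, t - ρ * LT.th σ⟩ := by
  rw [zt_eq]
  apply Complex.ext <;> simp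

/-- **level monotonicity on `[.27, .7]`** -/
theorem fu_x_anti (ha : 27 / 100 ≤ a) (hab : a < b) (hb : b ≤ 7 / 10) (ht0 : 0 ≤ t)
    (ht : t ≤ 56 / 1000) (hρ : 0 < ρ) (hρ' : ρ ≤ 1045 / 10000) (hσ : |σ| < 1 / 2) :
    fu b t σ (ρ * LT.th σ) < fu a t σ (ρ * LT.th σ) := by
  have hη : 0 < ρ * LT.th σ := mul_pos hρ (th_pos hσ)
  refine strict_anti_one (f := fun x => fu x t σ (ρ * LT.th σ))
    (f' := fun x => LL ⟨x + 1 / 2 + σ, t + ρ * LT.th σ⟩ + LL ⟨x + 1 / 2 - σ, t - ρ * LT.th σ⟩ -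
      2 * LL ⟨x, t⟩) (1 / 2 + σ) hab (continuous_fu_x _ _ _) ?_
  intro x h1 h2 h3
  refine ⟨hasDerivAt_fu_x (by linarith only [ha, hρ, hρ', h1]) (by linarith only [hb, hρ, hρ', h2]) hσ (by linarith only [ht0, hη]) (Or.inr h3), ?_⟩
  have := LL_neg_rr (w := ⟨x, t⟩) (σ := σ) (ρ := ρ) (by simp only; linarith only [ha, h1]) (by simp only; linarith only [hb, h2])
    hρ hρ' (by simp only; rw [abs_of_nonneg ht0]; exact ht) hσ
  rw [mk_zt1, mk_zt2] at this
  exact this

theorem fu_x_anti_le (ha : 27 / 100 ≤ a) (hab : a ≤ b) (hb : b ≤ 7 / 10) (ht0 : 0 ≤ t)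
    (ht : t ≤ 56 / 1000) (hρ : 0 < ρ) (hρ' : ρ ≤ 1045 / 10000) (hσ : |σ| < 1 / 2) :
    fu b t σ (ρ * LT.th σ) ≤ fu a t σ (ρ * LT.th σ) := by
  rcases hab.eq_or_lt with h | h
  · rw [h]
  · exact (fu_x_anti ha h hb ht0 ht hρ hρ' hσ).le

/-! ### in the ring variable, flat part -/

theorem LL_mk_le {x y x' y' : ℝ} (h : Complex.sin (Real.pi * (⟨x, y⟩ : ℂ)) ≠ 0)
    (h' : Real.cosh (2 * Real.pi * y) - Real.cos (2 * Real.pi * x) ≤
      Real.cosh (2 * Real.pi * y') - Real.cos (2 * Real.pi * x')) : LL ⟨x, y⟩ ≤ LL ⟨x', y'⟩ := by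
  have h0 := cosh_sub_cos_pos h
  rw [LL_eq', LL_eq']
  simp only at h0 ⊢
  have := Real.log_le_log (show 0 < 2 * Real.cosh (2 * Real.pi * y) - 2 * Real.cos (2 * Real.pi * x)
    by linarith only [h0]) (show 2 * Real.cosh (2 * Real.pi * y) - 2 * Real.cos (2 * Real.pi * x) ≤
      2 * Real.cosh (2 * Real.pi * y') - 2 * Real.cos (2 * Real.pi * x') by linarith only [h'])
  linarith only [this]

/-- the quadratic part of the difference in the ring variable -/
theorem ring_arg_le {x t σ η : ℝ} (hx0 : 0 ≤ x) (hx : x ≤ 1 / 2) (ht : 0 ≤ t) (hσ : σ ≤ 0)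
    (hσ' : -(1 / 2) ≤ σ) (hη : 0 ≤ η) :
    Real.cosh (2 * Real.pi * (t - η)) - Real.cos (2 * Real.pi * (x + 1 / 2 - σ)) ≤
      Real.cosh (2 * Real.pi * (t + η)) - Real.cos (2 * Real.pi * (x + 1 / 2 + σ)) := by
  have hpi := Real.pi_pos
  have h1 : Real.cosh (2 * Real.pi * (t + η)) - Real.cosh (2 * Real.pi * (t - η)) =
      2 * (Real.sinh (2 * Real.pi * t) * Real.sinh (2 * Real.pi * η)) := by
    rw [mul_add, mul_sub, Real.cosh_add, Real.cosh_sub]
    ring
  have h2 : Real.cos (2 * Real.pi * (x + 1 / 2 + σ)) - Real.cos (2 * Real.pi * (x + 1 / 2 - σ)) =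
      -(2 * (Real.sin (2 * Real.pi * x) * Real.sin (2 * Real.pi * -σ))) := by
    rw [show 2 * Real.pi * (x + 1 / 2 + σ) = 2 * Real.pi * x + 2 * Real.pi * σ + Real.pi by ring,
      show 2 * Real.pi * (x + 1 / 2 - σ) = 2 * Real.pi * x - 2 * Real.pi * σ + Real.pi by ring,
      Real.cos_add_pi, Real.cos_add_pi, Real.cos_add, Real.cos_sub, mul_neg, Real.sin_neg]
    ring
  have h3 : 0 ≤ Real.sinh (2 * Real.pi * t) * Real.sinh (2 * Real.pi * η) := by
    apply mul_nonneg <;> rw [Real.sinh_nonneg_iff] <;> positivity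
  have h4 : 0 ≤ Real.sin (2 * Real.pi * x) * Real.sin (2 * Real.pi * -σ) := by
    apply mul_nonneg
    · apply Real.sin_nonneg_of_nonneg_of_le_pi
      · positivity
      · nlinarith only [hx, hpi]
    · apply Real.sin_nonneg_of_nonneg_of_le_pi
      · have : 0 ≤ -σ := by linarith only [hσ]
        positivity
      · nlinarith only [hσ', hpi]
  linarith only [h1, h2, h3, h4]

theorem continuous_fu_s (x t η : ℝ) : Continuous fun σ => fu x t σ η := by
  unfold fu
  have h1 := (continuous_uu_x (t + η)).comp (show Continuous fun σ : ℝ => x + 1 / 2 + σ by fun_prop)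
  have h2 := (continuous_uu_x (t - η)).comp (show Continuous fun σ : ℝ => x + 1 / 2 - σ by fun_prop)
  exact (h1.add h2).sub continuous_const

theorem hasDerivAt_fu_s (h1 : Complex.sin (Real.pi * (⟨x + 1 / 2 + σ, t + η⟩ : ℂ)) ≠ 0)
    (h2 : Complex.sin (Real.pi * (⟨x + 1 / 2 - σ, t - η⟩ : ℂ)) ≠ 0) :
    HasDerivAt (fun σ => fu x t σ η) (LL ⟨x + 1 / 2 + σ, t + η⟩ - LL ⟨x + 1 / 2 - σ, t - η⟩) σ := by
  have k1 : HasDerivAt (fun σ => uu (x + 1 / 2 + σ) (t + η)) (LL ⟨x + 1 / 2 + σ, t + η⟩) σ := by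
    have := (hasDerivAt_uu_x h1).comp σ ((hasDerivAt_id σ).const_add (x + 1 / 2))
    exact HasDerivAt.congr_deriv this (by simp)
  have k2 : HasDerivAt (fun σ => uu (x + 1 / 2 - σ) (t - η)) (-LL ⟨x + 1 / 2 - σ, t - η⟩) σ := by
    have := (hasDerivAt_uu_x h2).comp σ ((hasDerivAt_id σ).const_sub (x + 1 / 2))
    exact HasDerivAt.congr_deriv this (by simp)
  unfold fu
  refine ((k1.add k2).sub_const _).congr_deriv ?_
  ring

/-- increasing in the ring variable near `0` (positive height) -/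
theorem fu_s_mono (hx0 : 0 < x) (hx : x ≤ 46 / 100) (ht : 0 ≤ t) (hη : 0 < η)
    (ha : -(3 / 100) ≤ a) (hab : a ≤ b) (hb : b ≤ 0) : fu x t a η ≤ fu x t b η := by
  refine mono_one (f := fun σ => fu x t σ η) (f' := fun σ => LL ⟨x + 1 / 2 + σ, t + η⟩ -
    LL ⟨x + 1 / 2 - σ, t - η⟩) 1 hab (continuous_fu_s _ _ _) ?_
  intro σ h1 h2 _
  have n1 : Complex.sin (Real.pi * (⟨x + 1 / 2 + σ, t + η⟩ : ℂ)) ≠ 0 :=
    sin_ne_02 (by linarith only [hx0, ha, hb, h1, h2]) (by linarith only [hx, ha, hb, h1, h2]) (Or.inl (by linarith only [ht, hη]))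
  have n2 : Complex.sin (Real.pi * (⟨x + 1 / 2 - σ, t - η⟩ : ℂ)) ≠ 0 :=
    sin_ne_02 (by linarith only [hx0, ha, hb, h1, h2]) (by linarith only [hx, ha, hb, h1, h2]) (Or.inr (by linarith only [hx, ha, hb, h1, h2]))
  refine ⟨hasDerivAt_fu_s n1 n2, ?_⟩
  have := LL_mk_le n2 (ring_arg_le hx0.le (by linarith only [hx, ha, hb, h1, h2]) ht (by linarith only [hb, h2]) (by linarith only [ha, hb, h1, h2]) hη.le)
  linarith only [this]

end Pool.Agent.Work.MP_b30479_gtS.G2
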