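import Pool.Agent.Work.MP_b30479_gt.TBS.G2.RVa
import Pool.Agent.Work.MP_b30479_gt.TBS.G2.RngG
import Pool.Agent.Work.MP_b30479_gt.TBS.G2.RngKd
import Pool.Agent.Work.MP_b30479_gt.TBS.G2.RngK

section

/-!
# Part of `RVf`
-/
set_option linter.unusedSimpArgs false

namespace Pool.Agent.Work.MP_b30479_gtS.G2

open VOL NumUs

namespace RV

variable {T s ρ x t : ℝ}

theorem r10 (h0 : 0 ≤ t) (h1 : t ≤ 56 / 1000) (h2 : 1 / 4 ≤ x) (h3 : x ≤ 27 / 100) (h4 : 0 ≤ ρ)
    (h5 : ρ ≤ 1045 / 10000) : Real.pi * t < fu x t (-(1 / 4)) ρ := by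
  have k1 := pi_le_abs (t - ρ)
  have k2 := pi_le_abs (ρ - t)
  rw [abs_sub_comm] at k2
  unfold fu
  rw [show x + 1 / 2 + -(1 / 4) = 1 / 4 + x by ring]
  rcases le_total x (26 / 100) with hx | hx
  · have h : chk [m3' (E.sub (E.var 1) er), m3' (E.sub er (E.var 1))] 24
        [NumIs.V.of 10000 2500 2600, NumIs.V.of 10000 0 560, NumIs.V.of 10000 0 1045] = true := by
      decide +kernel
    obtain ⟨f, hf, hp⟩ := chk3 h (by norm_num) (x := x) (y := t) (z := ρ)
      (by norm_num; linarith only [h2]) (by norm_num; linarith only [hx]) (by norm_num; linarith only [h0])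
      (by norm_num; linarith only [h1]) (by norm_num; linarith only [h4]) (by norm_num; linarith only [h5])
    have h7 : uu (1 / 100 + 1) (t - ρ) ≤ uu (x + 1 / 2 - -(1 / 4)) (t - ρ) :=
      anti1 (by linarith only [h2]) (by linarith only [hx]) (by norm_num) (by rw [abs_le]; constructor <;> linarith only [h0, h5, h1, h4])
    rw [uu_add_one] at h7
    simp only [List.mem_cons, List.not_mem_nil, or_false] at hf
    rcases hf with rfl | rfl
    · simp only [m3', er, E.val, NumIs.lkR] at hp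
      push_cast at hp
      simp only [div_one, zero_div] at hp
      linarith only [k1, h7, hp]
    · simp only [m3', er, E.val, NumIs.lkR] at hp
      push_cast at hp
      simp only [div_one, zero_div] at hp
      linarith only [k2, h7, hp]
  · have h : chk [m3 (E.sub (E.var 1) er), m3 (E.sub er (E.var 1))] 24
        [NumIs.V.of 10000 2600 2700, NumIs.V.of 10000 0 560, NumIs.V.of 10000 0 1045] = true := by
      decide +kernel
    obtain ⟨f, hf, hp⟩ := chk3 h (by norm_num) (x := x) (y := t) (z := ρ)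
      (by norm_num; linarith only [hx]) (by norm_num; linarith only [h3]) (by norm_num; linarith only [h0])
      (by norm_num; linarith only [h1]) (by norm_num; linarith only [h4]) (by norm_num; linarith only [h5])
    rw [beyond (show x + 1 / 2 - -(1 / 4) = (x - 1 / 4) + 1 by ring)]
    simp only [List.mem_cons, List.not_mem_nil, or_false] at hf
    rcases hf with rfl | rfl
    · simp only [m3, er, E.val, NumIs.lkR] at hp
      push_cast at hp
      simp only [div_one, zero_div] at hp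
      linarith only [k1, hp]
    · simp only [m3, er, E.val, NumIs.lkR] at hp
      push_cast at hp
      simp only [div_one, zero_div] at hp
      linarith only [k2, hp]

end RV

end Pool.Agent.Work.MP_b30479_gtS.G2

end

section

/-!
# Ring sides: the value move of the ring variable to `-1/4` for four crossings
-/

namespace Pool.Agent.Work.MP_b30479_gtS.G2

open Finset VOL Filter Topology
open NumUs (uu uu_neg uu_add_one uu_one_sub UU_uu)

variable {x t σ η c a b s ρ T θ y K κ : ℝ} {w w' : ℂ} {k k' : RKe}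

/-! ### small hinges -/

section
open NumIs NumIs.E

private theorem row0 (h0 : 0 ≤ x) (h1 : x ≤ 5 / 1000) (h2 : 0 ≤ t) (h3 : t ≤ 28 / 10000) :
    2 * Real.cosh (2 * Real.pi * t) - 2 * Real.cos (2 * Real.pi * x) ≤ 1 / 10 := by
  have h : chk [sub (q 1 10) (sub (mul (q 2 1) (cosh (mul (mul (q 2 1) pi) (var 1))))
      (mul (q 2 1) (cosPi (mul (q 2 1) (var 0)))))] 10
      [V.of 10000 0 50, V.of 10000 0 28] = true := by decide +kernel
  have hp := pos_of_chk (chk2 h (by norm_num) (x := x) (y := t)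
    (by norm_num; linarith only [h0]) (by norm_num; linarith only [h1]) (by norm_num; linarith only [h2]) (by norm_num; linarith only [h3]))
  simp only [E.val, NumIs.lkR] at hp
  simp only [Int.cast_ofNat, Nat.cast_ofNat, Int.cast_one, Nat.cast_one, div_one] at hp
  rw [show Real.pi * (2 * x) = 2 * Real.pi * x by ring] at hp
  linarith only [hp]

private theorem row1 (h0 : 0 ≤ x) (h1 : x ≤ 5 / 1000) : Real.cos (2 * Real.pi * (1 / 4 - x)) ≤ 1 / 2 := by
  have h : chk [sub (q 1 2) (cosPi (mul (q 2 1) (sub (q 1 4) (var 0))))] 10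
      [V.of 10000 0 50] = true := by decide +kernel
  have hp := pos_of_chk (chk1 h (by norm_num) (x := x)
    (by norm_num; linarith only [h0]) (by norm_num; linarith only [h1]))
  simp only [E.val, NumIs.lkR] at hp
  simp only [Int.cast_ofNat, Nat.cast_ofNat, Int.cast_one, Nat.cast_one, div_one] at hp
  rw [show Real.pi * (2 * (1 / 4 - x)) = 2 * Real.pi * (1 / 4 - x) by ring] at hp
  linarith only [hp]

end

theorem log_tenth : Real.log (1 / 10) ≤ -2 := by
  have h : (2 : ℝ) ≤ Real.log 10 := by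
    rw [Real.le_log_iff_exp_le (by norm_num)]
    have h1 := Real.exp_one_lt_d9
    have h2 : Real.exp 2 = Real.exp 1 * Real.exp 1 := by rw [← Real.exp_add]; norm_num
    have h3 := Real.exp_pos 1
    rw [h2]
    nlinarith only [h1, h3]
  rw [one_div, Real.log_inv]
  linarith only [h]

theorem uu_zero_re (t : ℝ) : uu 0 t = -(Real.pi / 2 * |t|) := by
  have h6 := uu_add_one 0 t
  have h7 := uu_one_sub 0 t
  rw [zero_add] at h6
  rw [sub_zero] at h7
  linarith only [h6, h7]

/-- `uu` near `0` -/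
theorem uu_small_le (h0 : 0 ≤ x) (h1 : x ≤ 5 / 1000) (h2 : 0 ≤ t) (h3 : t ≤ 28 / 10000) :
    uu x t ≤ -(Real.pi / 2 * t) - x := by
  have hpi := Real.pi_pos
  have key := anti_one (f := fun s => uu s t + s) (f' := fun s => LL ⟨s, t⟩ + 1) (a := 0) (b := x)
    0 h0 ((continuous_uu_x t).add continuous_id) (fun s hs0 hs1 _ => by
      refine ⟨(hasDerivAt_uu_x (sin_ne_of_strip ⟨hs0, by simp only; linarith only [h1, hs0, hs1]⟩)).add (hasDerivAt_id s), ?_⟩
      rw [LL_eq']
      simp only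
      have h4 := row0 (x := s) (t := t) hs0.le (by linarith only [h1, hs1]) h2 h3
      have h5 := cosh_sub_cos_pos (u := ⟨s, t⟩) (sin_ne_of_strip ⟨hs0, by simp only; linarith only [h1, hs0, hs1]⟩)
      simp only at h5
      have h6 := Real.log_le_log (by linarith only [h5]) h4
      linarith only [h6, log_tenth])
  simp only [add_zero] at key
  rw [uu_zero_re, abs_of_nonneg h2] at key
  linarith only [key]

theorem YY_ge_neg_half {u : ℂ} (h0 : 0 ≤ u.re) (h1 : u.re ≤ 1) : -(Real.pi / 2) ≤ YY u := by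
  have hpi := Real.pi_pos
  rcases lt_trichotomy u.im 0 with h | h | h
  · rw [YY_neg h]
    have := Tr_mono (s := -u.im) (by linarith only [h]) h1
    rw [Tr_one (by linarith only [h])] at this
    linarith only [this]
  · rw [YY_zero h]
    linarith only [hpi]
  · rw [YY_pos h]
    linarith only [h, h0, Tr_nonneg (s := u.im) (x := u.re) h h0]

theorem LL_nonneg_of {u : ℂ} (h : Real.cos (2 * Real.pi * u.re) ≤ 1 / 2) : 0 ≤ LL u := by
  rw [LL_eq']
  have h1 := Real.one_le_cosh (2 * Real.pi * u.im)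
  have := Real.log_nonneg (show 1 ≤ 2 * Real.cosh (2 * Real.pi * u.im) - 2 * Real.cos (2 * Real.pi * u.re) by
    linarith only [h, h1])
  linarith only [this]

/-- the pair of factors near `1/4` and `3/4` -/
theorem pair_ge (h0 : 0 < x) (h1 : x ≤ 5 / 1000) (h2 : 0 ≤ t) (h3 : t ≤ 56 / 100 * x) :
    -(18 / 10 * x) ≤ uu (x + 1 / 4) (t + ρ) + uu (x + 3 / 4) (t - ρ) := by
  have hpi := Real.pi_pos
  have hpi4 := Real.pi_lt_d4
  set κ := t / x with hκ
  have hκ0 : 0 ≤ κ := by positivity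
  have hκ1 : κ ≤ 56 / 100 := by rw [hκ, div_le_iff₀ h0]; exact h3
  have hκx : κ * x = t := by rw [hκ]; field_simp
  set u : ℂ := ⟨1 / 4, ρ⟩ with hu
  set v : ℂ := ⟨3 / 4, -ρ⟩ with hv
  have ure : ∀ s : ℝ, (u + s * (((1 : ℝ) : ℂ) * (1 + κ * Complex.I))) = ⟨1 / 4 + s, ρ + κ * s⟩ := by
    intro s
    apply Complex.ext <;> simp [hu]
    ring
  have vre : ∀ s : ℝ, (v + s * (((1 : ℝ) : ℂ) * (1 + κ * Complex.I))) = ⟨3 / 4 + s, -ρ + κ * s⟩ := by
    intro s
    apply Complex.ext <;> simp [hv]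
    ring
  have hd : ∀ s ∈ Set.Icc (0 : ℝ) x, HasDerivAt (fun s : ℝ =>
      UU (u + s * (((1 : ℝ) : ℂ) * (1 + κ * Complex.I))) +
      UU (v + s * (((1 : ℝ) : ℂ) * (1 + κ * Complex.I))) + 18 / 10 * s)
      (1 * Dq κ (u + s * (((1 : ℝ) : ℂ) * (1 + κ * Complex.I))) +
      1 * Dq κ (v + s * (((1 : ℝ) : ℂ) * (1 + κ * Complex.I))) + 18 / 10) s := by
    intro s hs
    have a1 := hasDerivAt_UU_q (u := u) (a := 1) (m := κ) (s := s) (by
      rw [ure]
      exact QQm_strip ⟨by simp only; linarith only [h0, h1, hs, hs.1], by simp only; linarith only [h0, h1, hs, hs.2]⟩)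
    have a2 := hasDerivAt_UU_q (u := v) (a := 1) (m := κ) (s := s) (by
      rw [vre]
      exact QQm_strip ⟨by simp only; linarith only [h0, h1, hs, hs.1], by simp only; linarith only [h0, h1, hs, hs.2]⟩)
    have a3 : HasDerivAt (fun s : ℝ => 18 / 10 * s) (18 / 10) s := by
      simpa using (hasDerivAt_id s).const_mul (18 / 10)
    exact (a1.add a2).add a3
  have hm : MonotoneOn (fun s : ℝ =>
      UU (u + s * (((1 : ℝ) : ℂ) * (1 + κ * Complex.I))) +
      UU (v + s * (((1 : ℝ) : ℂ) * (1 + κ * Complex.I))) + 18 / 10 * s) (Set.Icc 0 x) := by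
    apply monotoneOn_of_deriv_nonneg (convex_Icc _ _)
    · exact fun s hs => (hd s hs).continuousAt.continuousWithinAt
    · intro s hs
      rw [interior_Icc] at hs
      exact (hd s ⟨hs.1.le, hs.2.le⟩).differentiableAt.differentiableWithinAt
    · intro s hs
      rw [interior_Icc] at hs
      rw [(hd s ⟨hs.1.le, hs.2.le⟩).deriv, ure, vre]
      have c1 : Real.cos (2 * Real.pi * (1 / 4 + s)) ≤ 1 / 2 := by
        have : Real.cos (2 * Real.pi * (1 / 4 + s)) ≤ 0 := by
          apply Real.cos_nonpos_of_pi_div_two_le_of_le <;> nlinarith only [h0, h1, hpi, hs, hs.1, hs.2]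
        linarith only [h0, h1, this]
      have c2 : Real.cos (2 * Real.pi * (3 / 4 + s)) ≤ 1 / 2 := by
        have : Real.cos (2 * Real.pi * (3 / 4 + s)) = Real.cos (2 * Real.pi * (1 / 4 - s)) := by
          rw [← Real.cos_two_pi_sub]
          congr 1
          ring
        rw [this]
        exact row1 hs.1.le (by linarith only [h1, hs, hs.2])
      have l1 : 0 ≤ LL ⟨1 / 4 + s, ρ + κ * s⟩ := LL_nonneg_of c1
      have l2 : 0 ≤ LL ⟨3 / 4 + s, -ρ + κ * s⟩ := LL_nonneg_of c2
      have y1 : -(Real.pi / 2) ≤ YY ⟨1 / 4 + s, ρ + κ * s⟩ :=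
        YY_ge_neg_half (by simp only; linarith only [h0, h1, hs, hs.1]) (by simp only; linarith only [h0, h1, hs, hs.2])
      have y2 : -(Real.pi / 2) ≤ YY ⟨3 / 4 + s, -ρ + κ * s⟩ :=
        YY_ge_neg_half (by simp only; linarith only [h0, h1, hs, hs.1]) (by simp only; linarith only [h0, h1, hs, hs.2])
      unfold Dq
      have m1 := mul_le_mul_of_nonneg_left y1 hκ0
      have m2 := mul_le_mul_of_nonneg_left y2 hκ0
      nlinarith only [h1, hpi4, l1, l2, m1, m2, h0, hpi, hκ1]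
  have h := hm (Set.left_mem_Icc.mpr h0.le) (Set.right_mem_Icc.mpr h0.le) h0.le
  simp only at h
  rw [ure, vre, ure, vre, hκx] at h
  have e0 : UU (⟨1 / 4 + 0, ρ + κ * 0⟩ : ℂ) + UU (⟨3 / 4 + 0, -ρ + κ * 0⟩ : ℂ) = 0 := by
    have := UU_one_sub (⟨1 / 4 + 0, ρ + κ * 0⟩ : ℂ)
    have e : (1 : ℂ) - ⟨1 / 4 + 0, ρ + κ * 0⟩ = ⟨3 / 4 + 0, -ρ + κ * 0⟩ := by
      apply Complex.ext <;> simp
      norm_num
    rw [e] at this
    linarith only [this]
  have e1 : uu (x + 1 / 4) (t + ρ) = UU (⟨1 / 4 + x, ρ + t⟩ : ℂ) := by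
    rw [UU_uu]
    simp only
    rw [add_comm x, add_comm t]
  have e2 : uu (x + 3 / 4) (t - ρ) = UU (⟨3 / 4 + x, -ρ + t⟩ : ℂ) := by
    rw [UU_uu]
    simp only
    rw [add_comm x, show t - ρ = -ρ + t by ring]
  rw [e1, e2]
  linarith only [h, e0]

/-- **move of the ring variable to `-1/4`**, `x ≤ .27` -/
theorem fu_quarter_gt (h0 : 0 < x) (h1 : x ≤ 27 / 100) (h2 : 0 ≤ t) (h3 : t ≤ 56 / 1000)
    (h4 : t ≤ 56 / 100 * x) (hρ : 0 ≤ ρ) (hρ' : ρ ≤ 1045 / 10000) :
    Real.pi * t < fu x t (-(1 / 4)) ρ := by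
  rcases le_total x (5 / 1000) with h5 | h5
  · have k1 := pair_ge (ρ := ρ) h0 h5 h2 h4
    have k2 := uu_small_le h0.le h5 h2 (by linarith only [h4, h5])
    unfold fu
    rw [show x + 1 / 2 + -(1 / 4) = x + 1 / 4 by ring, show x + 1 / 2 - -(1 / 4) = x + 3 / 4 by ring]
    linarith only [h0, k1, k2]
  · rcases le_total x (6 / 100) with h6 | h6
    · exact RV.r11 h2 h5 h4 h6 hρ hρ'
    · rcases le_total x (1 / 4) with h7 | h7
      · have k := C3a (w := ⟨x, t⟩) (ζ := ⟨-(1 / 4), ρ⟩) h6 h7 (by simp only; linarith only [h0, h2, h7]) h3 h4 rfl hρ hρ'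
        have e := fR_fu ⟨x, t⟩ ⟨-(1 / 4), ρ⟩
        unfold fR at e
        rw [e] at k
        simp only at k
        have : 0 ≤ Real.pi / 2 * ρ := by positivity
        linarith only [k, this]
      · exact RV.r10 h2 h3 h7 h1 hρ hρ'

/-- `x ≤ .48` -/
theorem fu_quarter_ge (h0 : 0 < x) (h1 : x ≤ 48 / 100) (h2 : 0 ≤ t) (h3 : t ≤ 56 / 1000)
    (h4 : t ≤ 56 / 100 * x) (hρ : 0 < ρ) (hρ' : ρ ≤ 1045 / 10000) :
    Real.pi * t - 16 / 100 < fu x t (-(1 / 4)) ρ := by
  rcases le_total x (27 / 100) with h5 | h5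
  · have := fu_quarter_gt h0 h5 h2 h3 h4 hρ.le hρ'
    linarith only [hρ, hρ', this]
  · have k := fu_x_anti_le (a := x) (b := 48 / 100) (t := t) (σ := -(1 / 4)) (ρ := ρ) h5 h1
      (by norm_num) h2 h3 hρ hρ' (by rw [abs_neg, abs_of_pos] <;> norm_num)
    rw [th_of_le (by rw [abs_neg, abs_of_pos] <;> norm_num), mul_one] at k
    have := RV.r9b h2 h3 hρ.le hρ'
    linarith only [k, this]

end Pool.Agent.Work.MP_b30479_gtS.G2

end

section

/-!
# Ring sides: hinges with a tiny positive height, `x ≤ 1/2`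
-/

namespace Pool.Agent.Work.MP_b30479_gtS.G2

open Finset VOL Filter Topology
open NumUs (uu uu_neg uu_add_one uu_one_sub UU_uu)

variable {x t σ η c a b s ρ T θ y K κ : ℝ} {w w' : ℂ} {k k' : RKe}

theorem uu_half (t : ℝ) : uu (1 / 2) t = 0 := by
  have := uu_one_sub (1 / 2) t
  norm_num at this
  linarith only [this]

/-- the value at `-1/4` for `x = 1/2` -/
theorem fu_half_ge (h2 : 0 ≤ t) (h3 : t ≤ ρ) : Real.pi * (ρ - t) ≤ fu (1 / 2) t (-(1 / 4)) ρ := by
  have hpi := Real.pi_pos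
  unfold fu
  rw [uu_half, show (1 / 2 + 1 / 2 + -(1 / 4) : ℝ) = 3 / 4 by norm_num,
    show (1 / 2 + 1 / 2 - -(1 / 4) : ℝ) = 1 / 4 + 1 by norm_num, uu_add_one,
    show t - ρ = -(ρ - t) by ring, uu_neg, abs_neg, abs_of_nonneg (by linarith only [h3]),
    show (1 / 4 : ℝ) = 1 - 3 / 4 by norm_num, uu_one_sub]
  have hm : uu (3 / 4) (ρ - t) ≤ uu (3 / 4) (t + ρ) := by
    have hd : ∀ y : ℝ, HasDerivAt (fun y => uu (3 / 4) y) (YY ⟨3 / 4, y⟩) y := fun y =>
      hasDerivAt_uu_y (Or.inr (by norm_num))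
    have hmo : MonotoneOn (fun y => uu (3 / 4) y) (Set.Ici 0) := by
      apply monotoneOn_of_deriv_nonneg (convex_Ici _)
      · exact fun y _ => (hd y).continuousAt.continuousWithinAt
      · exact fun y _ => (hd y).differentiableAt.differentiableWithinAt
      · intro y hy
        rw [interior_Ici] at hy
        rw [(hd y).deriv, YY_mk_pos hy]
        have h5 := Tr_mono (s := y) hy (show (1 / 2 : ℝ) ≤ 3 / 4 by norm_num)
        rw [Tr_half hy] at h5
        linarith only [h5]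
    exact hmo (Set.mem_Ici.2 (by linarith only [h3])) (Set.mem_Ici.2 (by linarith only [h2, h3])) (by linarith only [h2])
  linarith only [hm]

/-- **move of the ring variable to `-1/4`**, tiny height -/
theorem fu_quarter_ps (h0 : 0 < x) (h1 : x ≤ 1 / 2) (h2 : 0 ≤ t) (h3 : t ≤ 1 / 1000)
    (h4 : t ≤ 1 / 100 * x) (hρ : 4 / 100 ≤ ρ) (hρ' : ρ ≤ 1045 / 10000) :
    Real.pi * t < fu x t (-(1 / 4)) ρ := by
  have hpi := Real.pi_pos
  rcases le_total x (27 / 100) with h5 | h5
  · exact fu_quarter_gt h0 h5 h2 (by linarith only [h0, h3, h5]) (by linarith only [h0, h4]) (by linarith only [h0, hρ, h5]) hρ'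
  · have k := fu_x_anti_le (a := x) (b := 1 / 2) (t := t) (σ := -(1 / 4)) (ρ := ρ) h5 h1
      (by norm_num) h2 (by linarith only [h0, h1, h3]) (by linarith only [h0, h1, hρ]) hρ' (by rw [abs_neg, abs_of_pos] <;> norm_num)
    rw [th_of_le (by rw [abs_neg, abs_of_pos] <;> norm_num), mul_one] at k
    have k2 := fu_half_ge (ρ := ρ) h2 (by linarith only [h0, h1, h3, hρ])
    have : Real.pi * t < Real.pi * (ρ - t) := mul_lt_mul_of_pos_left (by linarith only [h0, h1, h3, hρ]) hpi
    linarith only [k, k2, this]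

section
open NumUs NumUs.E

private theorem row27 (h0 : 0 ≤ t) (h1 : t ≤ 1 / 1000) (h2 : 0 ≤ s) (h3 : s ≤ 63 / 10000) (h4 : 0 ≤ η)
    (h5 : η ≤ 1 / 1000) :
    uu (27 / 100 + s) (t + η) + uu (27 / 100 - s) (t - η) - 2 * uu (27 / 100) t < 5 / 100 := by
  have h : chk [E.sub (E.add (q 5 100) (mul (q 2 1) (E.uu (q 27 100) (var 0))))
      (E.add (E.uu (E.add (q 27 100) (var 1)) (E.add (var 0) (var 2)))
        (E.uu (E.sub (q 27 100) (var 1)) (E.sub (var 0) (var 2))))] 24
      [NumIs.V.of 10000 0 10, NumIs.V.of 10000 0 63, NumIs.V.of 10000 0 10] = true := by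
    decide +kernel
  have hp := pos_of_chk (chk3 h (by norm_num) (x := t) (y := s) (z := η)
    (by norm_num; linarith only [h0]) (by norm_num; linarith only [h1]) (by norm_num; linarith only [h2]) (by norm_num; linarith only [h3])
    (by norm_num; linarith only [h4]) (by norm_num; linarith only [h5]))
  simp only [E.val, NumIs.lkR] at hp
  push_cast at hp
  simp only [div_one] at hp
  linarith only [hp]

end

/-- the value near the end, `27/100 ≤ x ≤ 1/2` -/
theorem fu_end_ps (h0 : 27 / 100 ≤ x) (h1 : x ≤ 1 / 2) (h2 : 0 ≤ t) (h3 : t ≤ 1 / 1000) (hρ : 4 / 100 ≤ ρ)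
    (hρ' : ρ ≤ 1045 / 10000) (hs : 0 < s) (hts : 4 * ρ * s ≤ t) :
    fu x t (-(1 / 2) + s) (4 * ρ * s) ≤ Real.pi * t + 5 / 100 := by
  have hpi := Real.pi_pos
  have hs' : s ≤ 63 / 10000 := by nlinarith only [h3, hs, hts, hρ]
  have hη : 0 < 4 * ρ * s := by positivity
  have k := fu_x_anti_le (a := 27 / 100) (b := x) (t := t) (σ := -(1 / 2) + s) (ρ := ρ) le_rfl h0
    (by linarith only [h1, h3, hts, hη]) h2 (by linarith only [h3, hts, hη]) (by linarith only [h3, hρ, hts, hη]) hρ' (by rw [abs_lt]; constructor <;> linarith only [hs, h3, hts, hs', hη])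
  rw [th_ramp hs.le (by linarith only [h3, hts, hs', hη])] at k
  have r := row27 (t := t) (s := s) (η := 4 * ρ * s) h2 h3 hs.le hs' hη.le (by linarith only [h3, hts])
  refine k.trans ?_
  unfold fu
  rw [show (27 / 100 : ℝ) + 1 / 2 + (-(1 / 2) + s) = 27 / 100 + s by ring,
    show (27 / 100 : ℝ) + 1 / 2 - (-(1 / 2) + s) = (27 / 100 - s) + 1 by ring, uu_add_one,
    abs_of_nonneg (by linarith only [hts])]
  have : 0 ≤ Real.pi * (4 * ρ * s) := by positivity
  linarith only [r, this]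

/-- the gap between `-1/4` and the end -/
theorem gap_ps (h0 : 27 / 100 ≤ x) (h1 : x ≤ 1 / 2) (h2 : 0 ≤ t) (h3 : t ≤ 1 / 1000) (hρ : 4 / 100 ≤ ρ)
    (hρ' : ρ ≤ 1045 / 10000) (hs : 0 < s) (hs4 : s < 1 / 4) (hts : 4 * ρ * s ≤ t) :
    8 * Real.pi * ρ * s * (1 - 4 * s) <
      fu x t (-(1 / 4)) ρ - fu x t (-(1 / 2) + s) (4 * ρ * s) := by
  have hpi := Real.pi_pos
  have hpi3 := Real.pi_gt_three
  have k1 := fu_end_ps h0 h1 h2 h3 hρ hρ' hs hts
  have k2 := fu_x_anti_le (a := x) (b := 1 / 2) (t := t) (σ := -(1 / 4)) (ρ := ρ) h0 h1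
    (by norm_num) h2 (by linarith only [h3, hs, hs4]) (by linarith only [hρ, hs, hs4]) hρ' (by rw [abs_neg, abs_of_pos] <;> norm_num)
  rw [th_of_le (by rw [abs_neg, abs_of_pos] <;> norm_num), mul_one] at k2
  have k3 := fu_half_ge (ρ := ρ) h2 (by linarith only [h3, hρ, hs, hs4])
  have hη : 0 ≤ 4 * ρ * s := by
    have : 0 < ρ := by linarith only [hρ, hs, hs4]
    positivity
  have k4 : 8 * Real.pi * ρ * s * (1 - 4 * s) ≤ 2 * Real.pi * t := by
    calc 8 * Real.pi * ρ * s * (1 - 4 * s) = 2 * Real.pi * (4 * ρ * s) * (1 - 4 * s) := by ring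
      _ ≤ 2 * Real.pi * (4 * ρ * s) * 1 := by
        apply mul_le_mul_of_nonneg_left _ (by positivity)
        linarith only [hs]
      _ ≤ 2 * Real.pi * t := by
        rw [mul_one]
        exact mul_le_mul_of_nonneg_left hts (by positivity)
  have k5 : Real.pi * (ρ - t) - Real.pi * t - 2 * Real.pi * t ≥ Real.pi * (36 / 1000) := by
    have : Real.pi * (36 / 1000) ≤ Real.pi * (ρ - 4 * t) := mul_le_mul_of_nonneg_left (by linarith only [h3, hρ]) hpi.le
    linarith only [this]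
  linarith only [hs, hs4, hpi3, k1, k2, k3, k4, k5]

end Pool.Agent.Work.MP_b30479_gtS.G2

end
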