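import Pool.Agent.Work.MP_b30479_gt.TBS.G2.SStart3
import Pool.Agent.Work.MP_b30479_gt.TBS.G2.RngK
import Pool.Agent.Work.MP_b30479_gt.TBS.G2.RVf_1
import Pool.Agent.Work.MP_b30479_gt.TBS.G2.RngC

section

/-!
# Ring sides: small hinges above the ring variable
-/

namespace Pool.Agent.Work.MP_b30479_gtS.G2

open Finset VOL Filter Topology
open NumUs (uu uu_neg uu_add_one uu_one_sub UU_uu)

variable {x t σ η c a b s ρ T θ y K κ : ℝ} {w w' : ℂ} {k k' : RKe}

/-- the height part above the ring variable -/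
theorem YY_above_ge (h0 : 0 ≤ x) (hxs : x ≤ s) (hs' : s ≤ 1 / 4) (hη : 0 < η) (ht : η ≤ t) :
    -(Real.pi * (1 - 2 * s)) ≤ YY ⟨x + s, t + η⟩ - YY ⟨x + 1 - s, t - η⟩ := by
  have hpi := Real.pi_pos
  have hu : Real.pi * (x + s) - Real.pi / 2 ≤ YY ⟨x + s, t + η⟩ := by
    rw [YY_mk_pos (by linarith only [hη, ht])]
    have := pi_mul_le_Tr (s := t + η) (x := x + s) (by linarith only [h0, hxs]) (by linarith only [hxs, hs']) (by linarith only [hη, ht])
    linarith only [this]
  have hv : YY ⟨x + 1 - s, t - η⟩ ≤ Real.pi / 2 - Real.pi * (s - x) := by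
    rcases ht.eq_or_lt with h | h
    · rw [h, sub_self, YY_mk_zero]
      nlinarith only [hpi, h0, hs']
    · rw [YY_mk_pos (by linarith only [h]), show x + 1 - s = 1 - (s - x) by ring, DT.Tr_one_sub (by linarith only [h])]
      have := pi_mul_le_Tr (s := t - η) (x := s - x) (by linarith only [hxs]) (by linarith only [h0, hs']) (by linarith only [h])
      linarith only [this]
  nlinarith only [hu, hv]

theorem self_le_sinh {z : ℝ} (h : 0 ≤ z) : z ≤ Real.sinh z := Real.self_le_sinh_iff.2 h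

/-- **the derivative in the ring variable, small hinge above the ring variable** -/
theorem Dm_small_pos (hρ : 0 < ρ) (hs : 1 / 100 ≤ s) (hs' : s ≤ 1 / 4) (hx0 : 0 < w.re)
    (hx : w.re ≤ 32 / 100 * s) (hη : 4 * ρ * s ≤ w.im) (hκ : w.im ≤ 56 / 100 * w.re) :
    0 < Dm (4 * ρ) w (LT.zt ρ (-(1 / 2) + s)) := by
  have hpi := Real.pi_pos
  have s0 : 0 < s := by linarith only [hx0, hx]
  rw [Dm_coord s0.le hs']
  unfold Dq
  rw [LL_shift]
  have hYY := YY_above_ge (x := w.re) (s := s) (η := 4 * ρ * s) (t := w.im) hx0.le (by linarith only [hx0, hx]) hs'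
    (by positivity) hη
  set x := w.re with hxd
  set t := w.im with htd
  set η := 4 * ρ * s with hηd
  have η0 : 0 < η := by positivity
  have t0 : 0 < t := by linarith only [hη, η0]
  set C1 := Real.cosh (2 * Real.pi * (t + η)) - Real.cos (2 * Real.pi * (x + s)) with hC1
  set C2 := Real.cosh (2 * Real.pi * (t - η)) - Real.cos (2 * Real.pi * (x - s)) with hC2
  have hC2p : 0 < C2 := by
    have h1 := Real.one_le_cosh (2 * Real.pi * (t - η))
    have h2 : Real.cos (2 * Real.pi * (x - s)) < 1 := by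
      rw [← Real.cos_neg, ← Real.cos_zero]
      apply Real.cos_lt_cos_of_nonneg_of_le_pi le_rfl <;> nlinarith only [hpi, hs', hx0, s0, hx]
    rw [hC2]
    linarith only [h1, h2]
  have hdiff : C1 - C2 = 2 * (Real.sin (2 * Real.pi * s) * Real.sin (2 * Real.pi * x) +
      Real.sinh (2 * Real.pi * t) * Real.sinh (2 * Real.pi * η)) := by
    rw [hC1, hC2, mul_add, mul_sub, mul_add, mul_sub, Real.cosh_add, Real.cosh_sub, Real.cos_add,
      Real.cos_sub]
    ring
  have hsum : C1 + C2 = 2 * (Real.cosh (2 * Real.pi * t) * Real.cosh (2 * Real.pi * η) -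
      Real.cos (2 * Real.pi * s) * Real.cos (2 * Real.pi * x)) := by
    rw [hC1, hC2, mul_add, mul_sub, mul_add, mul_sub, Real.cosh_add, Real.cosh_sub, Real.cos_add,
      Real.cos_sub]
    ring
  -- numbers
  obtain ⟨r1, r2⟩ := rowR (s := s) (K := x / s) hs hs' (by positivity) (by
    rw [div_le_iff₀ s0]; exact hx)
  have ex : x / s * s = x := by field_simp
  rw [ex] at r1 r2
  set B := (1 - 2 * s) * (Real.cosh (2 * Real.pi * (56 / 100 * x)) ^ 2 -
      Real.cos (2 * Real.pi * s) * Real.cos (2 * Real.pi * x)) with hB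
  -- bounds
  have hS : 2 * Real.pi * x * (1 - 99 / 10 * x ^ 2) ≤ Real.sin (2 * Real.pi * x) := by
    have h1 := Real.sin_ge_sub_cube (x := 2 * Real.pi * x) (by positivity)
    have h2 : (2 * Real.pi * x) ^ 3 / 6 ≤ 2 * Real.pi * x * (99 / 10 * x ^ 2) := by
      have h3 : Real.pi ^ 2 ≤ 99 / 10 := by nlinarith only [hs', hx, hκ, hη, hρ, η0, hpi, Real.pi_lt_d4, Real.pi_gt_three]
      have h4 : (2 * Real.pi * x) ^ 3 / 6 = 2 * Real.pi * x * ((2 / 3) * Real.pi ^ 2 * x ^ 2) := by ring
      rw [h4]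
      apply mul_le_mul_of_nonneg_left _ (by positivity)
      have h5 : 0 ≤ x ^ 2 := by positivity
      nlinarith only [h3]
    linarith only [h1, h2]
  have hSs : 0 ≤ Real.sin (2 * Real.pi * s) := by
    apply Real.sin_nonneg_of_nonneg_of_le_pi
    · positivity
    · nlinarith only [hpi, hs']
  set N := Real.sin (2 * Real.pi * s) * Real.sin (2 * Real.pi * x) +
      Real.sinh (2 * Real.pi * t) * Real.sinh (2 * Real.pi * η) with hN
  set D0 := Real.cosh (2 * Real.pi * t) * Real.cosh (2 * Real.pi * η) -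
      Real.cos (2 * Real.pi * s) * Real.cos (2 * Real.pi * x) with hD0
  have hN1 : Real.sin (2 * Real.pi * s) * (2 * Real.pi * x * (1 - 99 / 10 * x ^ 2)) +
      (2 * Real.pi * t) * (2 * Real.pi * η) ≤ N := by
    have h1 := self_le_sinh (z := 2 * Real.pi * t) (by positivity)
    have h2 := self_le_sinh (z := 2 * Real.pi * η) (by positivity)
    have h3 : (2 * Real.pi * t) * (2 * Real.pi * η) ≤ Real.sinh (2 * Real.pi * t) *
        Real.sinh (2 * Real.pi * η) := by
      apply mul_le_mul h1 h2 (by positivity) (h1.trans' (by positivity))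
    have h4 := mul_le_mul_of_nonneg_left hS hSs
    linarith only [h3, h4]
  have hD1 : (1 - 2 * s) * D0 ≤ B := by
    rw [hB]
    apply mul_le_mul_of_nonneg_left _ (by linarith only [hs', hx, hκ, hη, η0])
    have h1 : Real.cosh (2 * Real.pi * t) ≤ Real.cosh (2 * Real.pi * (56 / 100 * x)) := by
      rw [Real.cosh_le_cosh, abs_of_pos (by positivity), abs_of_pos (by positivity)]
      nlinarith only [hpi, hκ]
    have h2 : Real.cosh (2 * Real.pi * η) ≤ Real.cosh (2 * Real.pi * (56 / 100 * x)) := by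
      rw [Real.cosh_le_cosh, abs_of_pos (by positivity), abs_of_pos (by positivity)]
      nlinarith only [hpi, hκ, hη]
    have h3 := Real.cosh_pos (2 * Real.pi * η)
    have h4 := Real.cosh_pos (2 * Real.pi * (56 / 100 * x))
    have h5 := mul_le_mul h1 h2 h3.le h4.le
    rw [hD0]
    nlinarith only [h5]
  have hsN : Real.pi * η * B < s * (Real.sin (2 * Real.pi * s) * (2 * Real.pi * x * (1 - 99 / 10 * x ^ 2)) +
      (2 * Real.pi * t) * (2 * Real.pi * η)) := by
    -- at `η = t`
    set q := t / x with hq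
    have hq0 : 0 ≤ q := by positivity
    have hq1 : q ≤ 56 / 100 := by rw [hq, div_le_iff₀ hx0]; exact hκ
    have hqx : t = q * x := by rw [hq]; field_simp
    have hBp : 0 < B := lt_of_le_of_lt (by positivity) r1
    have key : Real.pi * B * q < s * Real.sin (2 * Real.pi * s) * (2 * Real.pi * (1 - 99 / 10 * x ^ 2)) +
        4 * Real.pi ^ 2 * s * (q * q * x) := by
      have h1 : 0 ≤ (56 / 100 - q) * (B - 4 * Real.pi * (x * s) * (56 / 100 + q)) := by
        apply mul_nonneg (by linarith only [hq1])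
        have h2 : 4 * Real.pi * (x * s) * (56 / 100 + q) ≤ 4 * Real.pi * (x * s) * (112 / 100) := by
          apply mul_le_mul_of_nonneg_left _ (by positivity)
          linarith only [hq1]
        linarith only [r1, h2]
      have h3 : q * B < 2 * (s * Real.sin (2 * Real.pi * s)) * (1 - 99 / 10 * x ^ 2) +
          4 * Real.pi * (q * q * (x * s)) := by
        linarith only [r2, h1]
      have h4 := mul_lt_mul_of_pos_left h3 hpi
      calc Real.pi * B * q = Real.pi * (q * B) := by ring
        _ < _ := h4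
        _ = _ := by ring
    have key2 : Real.pi * B * t < s * Real.sin (2 * Real.pi * s) * (2 * Real.pi * x * (1 - 99 / 10 * x ^ 2)) +
        4 * Real.pi ^ 2 * s * (t * t) := by
      have h4 := mul_lt_mul_of_pos_right key hx0
      calc Real.pi * B * t = Real.pi * B * q * x := by rw [hqx]; ring
        _ < _ := h4
        _ = _ := by rw [hqx]; ring
    set P := s * Real.sin (2 * Real.pi * s) * (2 * Real.pi * x * (1 - 99 / 10 * x ^ 2)) with hP
    have hPp : 0 < P := by
      rw [hP]
      have h1 : 0 < Real.sin (2 * Real.pi * s) := by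
        apply Real.sin_pos_of_pos_of_lt_pi
        · positivity
        · nlinarith only [hpi, hs']
      have h2 : 0 < 1 - 99 / 10 * x ^ 2 := by nlinarith only [hs', hx, hκ, hη, hρ, η0, hs, hx0]
      positivity
    rcases le_total (4 * Real.pi ^ 2 * s * t - Real.pi * B) 0 with h1 | h1
    · have h2 : t * (4 * Real.pi ^ 2 * s * t - Real.pi * B) ≤ η * (4 * Real.pi ^ 2 * s * t - Real.pi * B) :=
        mul_le_mul_of_nonpos_right hη h1
      nlinarith only [key2, hP, h2]
    · have h2 : 0 ≤ η * (4 * Real.pi ^ 2 * s * t - Real.pi * B) := mul_nonneg η0.le h1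
      nlinarith only [hP, hPp, h2]
  have hNp : 0 < N := by
    have h1 : 0 ≤ Real.pi * η * B := by
      have : 0 < B := lt_of_le_of_lt (by positivity) r1
      positivity
    have h2 : 0 < s * N := by nlinarith only [hN1, hsN, h1, hs]
    exact (mul_pos_iff_of_pos_left s0).1 h2
  have hD0p : 0 < D0 := by linarith only [hC2p, hdiff, hsum, hNp]
  -- logarithms
  have hLL : LL ⟨x + s, t + η⟩ - LL ⟨x - s, t - η⟩ = Real.log (C1 / C2) / 2 := by
    have hC1p : 0 < C1 := by linarith only [hC2p, hdiff, hNp]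
    rw [LL_eq', LL_eq']
    simp only
    rw [show 2 * Real.cosh (2 * Real.pi * (t + η)) - 2 * Real.cos (2 * Real.pi * (x + s)) = 2 * C1 by
      rw [hC1]; ring, show 2 * Real.cosh (2 * Real.pi * (t - η)) - 2 * Real.cos (2 * Real.pi * (x - s)) =
      2 * C2 by rw [hC2]; ring, Real.log_mul two_ne_zero hC1p.ne', Real.log_mul two_ne_zero hC2p.ne',
      Real.log_div hC1p.ne' hC2p.ne']
    ring
  have hlog : N / D0 ≤ Real.log (C1 / C2) / 2 := by
    have h1 := Real.le_log_one_add_of_nonneg (x := (C1 - C2) / C2) (by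
      apply div_nonneg _ hC2p.le
      linarith only [hdiff, hNp])
    have e1 : 1 + (C1 - C2) / C2 = C1 / C2 := by field_simp; ring
    have e2 : 2 * ((C1 - C2) / C2) / ((C1 - C2) / C2 + 2) = 2 * (N / D0) := by
      have hs2 : C1 + C2 ≠ 0 := by linarith only [hC2p, hdiff, hNp]
      have e3 : (C1 - C2) / C2 + 2 = (C1 + C2) / C2 := by field_simp; ring
      rw [e3, show 2 * ((C1 - C2) / C2) / ((C1 + C2) / C2) = 2 * ((C1 - C2) / (C1 + C2)) by
        field_simp, hdiff, hsum, mul_div_mul_left _ _ two_ne_zero]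
    rw [e1, e2] at h1
    linarith only [h1]
  have hfin : η / s * (Real.pi * (1 - 2 * s)) < N / D0 := by
    rw [lt_div_iff₀ hD0p]
    have h1 : η / s * (Real.pi * (1 - 2 * s)) * D0 = Real.pi * η * ((1 - 2 * s) * D0) / s := by ring
    rw [h1, div_lt_iff₀ s0]
    have h2 : Real.pi * η * ((1 - 2 * s) * D0) ≤ Real.pi * η * B :=
      mul_le_mul_of_nonneg_left hD1 (by positivity)
    have h3 := mul_le_mul_of_nonneg_left hN1 s0.le
    linarith only [hsN, h2, h3]
  have h4 : η / s = 4 * ρ := by rw [hηd]; field_simp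
  rw [h4] at hfin
  have h5 := mul_le_mul_of_nonneg_left hYY (show 0 ≤ 4 * ρ by positivity)
  linarith only [hLL, hlog, hfin, h5]

end Pool.Agent.Work.MP_b30479_gtS.G2

end

section

/-!
# Ring sides: left ramps, ring variable near the end of its path, bounds of the side
-/

namespace Pool.Agent.Work.MP_b30479_gtS.G2

open Finset VOL Filter Topology

variable {x t σ η c a b s ρ T θ y K κ m l : ℝ} {w w' ζ : ℂ} {k k' : RKe}

theorem lnB_im_neg (x t : ℝ) : NumIs.lnB x (-t) = -NumIs.lnB x t := by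
  unfold NumIs.lnB
  rw [mul_neg, Real.sinh_neg, Real.cosh_neg, mul_neg, neg_div, Real.arctan_neg]

theorem arctan_le_id (h : 0 ≤ y) : Real.arctan y ≤ y := by
  have h0 : 0 ≤ Real.arctan y := Real.arctan_nonneg.2 h
  have h1 := Real.le_tan h0 (Real.arctan_lt_pi_div_two y)
  rwa [Real.tan_arctan] at h1

/-- the hinge is small compared with the ring variable -/
theorem LLd_ge (hs' : s ≤ 1 / 16) (hx0 : 0 < x) (hx : x ≤ s / 4) (hm : |m| ≤ 131 / 100) :
    (Real.log 24 - Real.log (1 + m ^ 2)) / 2 ≤ LL ⟨x + s, y⟩ - LL ⟨x, m * x⟩ := by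
  have hpi := Real.pi_pos
  have hpi4 := Real.pi_lt_d4
  obtain ⟨r1, r2, -, -⟩ := rowU8
  set l := 64 * x with hl
  have l0 : 0 < l := by linarith only [hx0]
  have l1 : l ≤ 1 := by linarith only [hs', hx]
  have hm2 : 0 < 1 + m ^ 2 := by positivity
  have hu : 118 / 1000 * l ^ 2 ≤ Real.cosh (2 * Real.pi * y) - Real.cos (2 * Real.pi * (x + s)) := by
    have h1 := Real.one_le_cosh (2 * Real.pi * y)
    have h2 : Real.cos (2 * Real.pi * (x + s)) = 1 - 2 * Real.sin (Real.pi * (x + s)) ^ 2 := by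
      rw [show 2 * Real.pi * (x + s) = 2 * (Real.pi * (x + s)) by ring, Real.cos_two_mul, Real.cos_sq']
      ring
    have h3 : l * (24298 / 100000) ≤ Real.sin (Real.pi * (x + s)) := by
      have a1 := mul_sin_le (l := l) (a := 5 * Real.pi / 64) l0.le l1 (by positivity) (by linarith only [hpi])
      have a2 := mul_le_mul_of_nonneg_left r1 l0.le
      have a3 : Real.sin (l * (5 * Real.pi / 64)) ≤ Real.sin (Real.pi * (x + s)) := by
        rw [hl]
        apply Real.sin_le_sin_of_le_of_le_pi_div_two <;> nlinarith only [hpi, hx0, hs', hx]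
      linarith only [a1, a2, a3]
    have h4 : (l * (24298 / 100000)) ^ 2 ≤ Real.sin (Real.pi * (x + s)) ^ 2 :=
      pow_le_pow_left₀ (by positivity) h3 2
    rw [h2]
    nlinarith only [h1, h4]
  have hw : Real.cosh (2 * Real.pi * (m * x)) - Real.cos (2 * Real.pi * x) ≤
      484 / 100000 * l ^ 2 * (1 + m ^ 2) := by
    have e1 : Real.cosh (2 * Real.pi * (m * x)) = 1 + 2 * Real.sinh (Real.pi * (|m| * x)) ^ 2 := by
      have : Real.sinh (Real.pi * (|m| * x)) ^ 2 = Real.sinh (Real.pi * (m * x)) ^ 2 := by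
        rcases abs_choice m with h | h
        · rw [h]
        · rw [h, show Real.pi * (-m * x) = -(Real.pi * (m * x)) by ring, Real.sinh_neg]
          ring
      rw [this, show 2 * Real.pi * (m * x) = 2 * (Real.pi * (m * x)) by ring, Real.cosh_two_mul,
        Real.cosh_sq]
      ring
    have e2 : Real.cos (2 * Real.pi * x) = 1 - 2 * Real.sin (Real.pi * x) ^ 2 := by
      rw [show 2 * Real.pi * x = 2 * (Real.pi * x) by ring, Real.cos_two_mul, Real.cos_sq']
      ring
    have h1 : Real.sin (Real.pi * x) ^ 2 ≤ (Real.pi * x) ^ 2 := by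
      apply pow_le_pow_left₀
      · apply Real.sin_nonneg_of_nonneg_of_le_pi
        · positivity
        · nlinarith only [hpi, hs', hx]
      · exact Real.sin_le (by positivity)
    have h2 : Real.sinh (Real.pi * (|m| * x)) ≤ l * (|m| / (131 / 100)) * (644 / 10000) := by
      have a1 := sinh_mul_le (l := l * (|m| / (131 / 100))) (z := Real.pi * (131 / 6400)) (by positivity) (by
        have : |m| / (131 / 100) ≤ 1 := by
          rw [div_le_one (by norm_num)]
          exact hm
        have h0 : 0 ≤ |m| / (131 / 100) := by positivity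
        nlinarith only [hs', hx, hx0, hm]) (by positivity)
      have a2 : l * (|m| / (131 / 100)) * (Real.pi * (131 / 6400)) = Real.pi * (|m| * x) := by
        rw [hl]
        ring
      rw [a2] at a1
      have a3 : 0 ≤ l * (|m| / (131 / 100)) := by positivity
      have a4 := mul_le_mul_of_nonneg_left r2 a3
      linarith only [a1, a4]
    have h3 : Real.sinh (Real.pi * (|m| * x)) ^ 2 ≤ (l * (|m| / (131 / 100)) * (644 / 10000)) ^ 2 := by
      apply pow_le_pow_left₀ _ h2
      rw [Real.sinh_nonneg_iff]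
      positivity
    have h4 : (l * (|m| / (131 / 100)) * (644 / 10000)) ^ 2 ≤ 242 / 100000 * l ^ 2 * m ^ 2 := by
      have : (l * (|m| / (131 / 100)) * (644 / 10000)) ^ 2 = (644 / 13100) ^ 2 * l ^ 2 * |m| ^ 2 := by ring
      rw [this, sq_abs]
      have : 0 ≤ l ^ 2 * m ^ 2 := by positivity
      nlinarith only [this]
    have h5 : (Real.pi * x) ^ 2 ≤ 242 / 100000 * l ^ 2 := by
      rw [hl]
      have : Real.pi ^ 2 ≤ 98700 / 10000 := by nlinarith only [hpi4, hs', hx, hx0, hpi]
      have : 0 ≤ x ^ 2 := by positivity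
      nlinarith
    rw [e1, e2]
    linarith only [h1, h3, h4, h5]
  have hp : 0 < Real.cosh (2 * Real.pi * (m * x)) - Real.cos (2 * Real.pi * x) :=
    cosh_sub_cos_pos (u := ⟨x, m * x⟩) (sin_ne_of_strip ⟨by simpa using hx0, by simp only; linarith only [hs', hx0, hx]⟩)
  have hl2 : 0 < l ^ 2 := by positivity
  rw [LL_eq', LL_eq']
  simp only
  have key : Real.log 24 - Real.log (1 + m ^ 2) ≤
      Real.log (2 * Real.cosh (2 * Real.pi * y) - 2 * Real.cos (2 * Real.pi * (x + s))) -
      Real.log (2 * Real.cosh (2 * Real.pi * (m * x)) - 2 * Real.cos (2 * Real.pi * x)) := by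
    rw [← Real.log_div (by norm_num) hm2.ne', ← Real.log_div (by nlinarith only [hu, hl2]) (by linarith only [hp])]
    apply Real.log_le_log (by positivity)
    rw [div_le_div_iff₀ hm2 (by linarith only [hp])]
    nlinarith only [hu, hw, hp]
  linarith only [key]

/-- the height part at the near point -/
theorem YYu_le (hx0 : 0 < x) (hx : x ≤ s / 4) (hs' : s ≤ 1 / 16) (hm : 0 ≤ m) (hη : 0 ≤ η) :
    YY ⟨x + s, -(m * x) + η⟩ ≤ m / 5 := by
  have hpi := Real.pi_pos
  rcases le_or_gt 0 (-(m * x) + η) with h | h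
  · rcases h.eq_or_lt with h1 | h1
    · rw [← h1, YY_mk_zero]
      positivity
    · rw [YY_mk_pos h1]
      have := Tr_le_half (s := -(m * x) + η) (x := x + s) h1 (by linarith only [hx0, hx, hs'])
      have : 0 ≤ m / 5 := by positivity
      linarith
  · have hs : (⟨x + s, -(m * x) + η⟩ : ℂ) ∈ strip := ⟨by simp only; linarith only [hx0, hx], by simp only; linarith only [hx0, hx, hs']⟩
    rw [Num.YY_lnB hs, show -(m * x) + η = -(m * x - η) by ring, lnB_im_neg, neg_neg]
    unfold NumIs.lnB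
    set z := Real.pi * (m * x - η) with hz
    set q := Real.pi * (x + s) with hq
    have z0 : 0 < z := by
      rw [hz]
      have : 0 < m * x - η := by linarith only [h]
      positivity
    have q0 : 0 < q := by
      rw [hq]
      have : 0 < x + s := by linarith only [hx0, hx]
      positivity
    have q1 : q < Real.pi / 2 := by rw [hq]; nlinarith only [hx0, hpi, hx, hs']
    have hsq : 0 < Real.sin q := Real.sin_pos_of_pos_of_lt_pi q0 (by linarith only [q0, q1])
    have hcq : 0 < Real.cos q := Real.cos_pos_of_mem_Ioo ⟨by linarith only [q0, q1], q1⟩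
    have h1 : Real.cos q * q ≤ Real.sin q := by
      have := Real.lt_tan q0 q1
      rw [Real.tan_eq_sin_div_cos, lt_div_iff₀ hcq] at this
      linarith only [this]
    have h2 : Real.sinh z ≤ z * Real.cosh z := by
      have key : ∀ z : ℝ, 0 ≤ z → Real.sinh z ≤ z * Real.cosh z := by
        intro z hz
        have hm : MonotoneOn (fun z : ℝ => z * Real.cosh z - Real.sinh z) (Set.Ici 0) := by
          apply monotoneOn_of_deriv_nonneg (convex_Ici 0)
          · fun_prop
          · fun_prop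
          · intro r hr
            rw [interior_Ici] at hr
            have hd : HasDerivAt (fun z : ℝ => z * Real.cosh z - Real.sinh z)
                (1 * Real.cosh r + r * Real.sinh r - Real.cosh r) r :=
              ((hasDerivAt_id r).mul (Real.hasDerivAt_cosh r)).sub (Real.hasDerivAt_sinh r)
            rw [hd.deriv]
            have : 0 ≤ Real.sinh r := Real.sinh_nonneg_iff.2 (le_of_lt hr)
            have hr' : 0 < r := hr
            nlinarith only [hx0, hx, hs', this, hr']
        have := hm (Set.mem_Ici.2 le_rfl) (Set.mem_Ici.2 hz) hz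
        simp at this
        exact this
      exact key z z0.le
    have hch := Real.cosh_pos z
    have h3 : Real.cos q * Real.sinh z / (Real.sin q * Real.cosh z) ≤ z / q := by
      rw [div_le_div_iff₀ (by positivity) q0]
      have a1 := mul_le_mul_of_nonneg_left h2 (show 0 ≤ Real.cos q * q by positivity)
      have a2 := mul_le_mul_of_nonneg_right h1 (show 0 ≤ z * Real.cosh z by positivity)
      nlinarith only [a1, a2]
    have h4 : Real.arctan (Real.cos q * Real.sinh z / (Real.sin q * Real.cosh z)) ≤ z / q := by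
      refine (Real.arctan_le_arctan_iff.2 h3).trans ?_
      exact arctan_le_id (by positivity)
    refine h4.trans ?_
    rw [hz, hq, div_le_div_iff₀ q0 (by norm_num)]
    have : (m * x - η) * 5 ≤ m * (x + s) := by nlinarith only [hη, hx, hm]
    nlinarith only [hx0, hx, z0, hη, q0]

/-- the height part at the hinge -/
theorem YYw_ge (hx0 : 0 < x) (hx : x ≤ 1 / 64) (hm : 0 ≤ m) (hm' : m ≤ 131 / 100) :
    Real.arctan (99 / 100 * m) ≤ YY ⟨x, -(m * x)⟩ := by
  have hpi := Real.pi_pos
  obtain ⟨-, -, r3, r4⟩ := rowU8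
  have hs : (⟨x, -(m * x)⟩ : ℂ) ∈ strip := ⟨by simpa using hx0, by simp only; linarith only [hx0, hx]⟩
  rw [Num.YY_lnB hs, lnB_im_neg, neg_neg]
  unfold NumIs.lnB
  apply Real.arctan_le_arctan_iff.2
  have q0 : 0 < Real.pi * x := by positivity
  have hsq : 0 < Real.sin (Real.pi * x) := Real.sin_pos_of_pos_of_lt_pi q0 (by nlinarith only [q0, hx, hpi])
  have hch := Real.cosh_pos (Real.pi * (m * x))
  rw [le_div_iff₀ (by positivity)]
  have h1 : Real.sin (Real.pi * x) ≤ Real.pi * x := Real.sin_le q0.le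
  have h2 : Real.cosh (Real.pi * (m * x)) ≤ 10021 / 10000 := by
    refine le_trans ?_ r4
    rw [Real.cosh_le_cosh, abs_of_nonneg (by positivity), abs_of_pos (by positivity)]
    apply mul_le_mul_of_nonneg_left _ hpi.le
    nlinarith only [hx, hx0, hm']
  have h3 : 9987 / 10000 ≤ Real.cos (Real.pi * x) := by
    refine r3.trans ?_
    apply Real.cos_le_cos_of_nonneg_of_le_pi q0.le
    · linarith only [hpi]
    · nlinarith only [hx, hpi]
  have h4 : Real.pi * (m * x) ≤ Real.sinh (Real.pi * (m * x)) := self_le_sinh (by positivity)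
  have h5 : Real.sin (Real.pi * x) * Real.cosh (Real.pi * (m * x)) ≤ Real.pi * x * (10021 / 10000) :=
    mul_le_mul h1 h2 hch.le q0.le
  have h6 : 9987 / 10000 * (Real.pi * (m * x)) ≤ Real.cos (Real.pi * x) * Real.sinh (Real.pi * (m * x)) :=
    mul_le_mul h3 h4 (by positivity) (by linarith only [hx0, hx, h3])
  have h7 : 99 / 100 * m * (Real.sin (Real.pi * x) * Real.cosh (Real.pi * (m * x))) ≤
      99 / 100 * m * (Real.pi * x * (10021 / 10000)) := mul_le_mul_of_nonneg_left h5 (by positivity)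
  have h8 : 0 ≤ Real.pi * (m * x) := by positivity
  nlinarith only [h6, h7, h8]

/-- **B**, height `≤ 0` -/
theorem negB (hs : 0 < s) (hs' : s ≤ 1 / 16) (hx0 : 0 < x) (hx : x ≤ s / 4) (hη0 : 0 < η)
    (hm : 0 ≤ m) (hm' : m ≤ 131 / 100)
    (hE : LL ⟨x + s, -(m * x) + η⟩ - LL ⟨x - s, -(m * x) - η⟩ ≤ 45 / 10 * s) :
    Real.log 24 - Real.log (1 + m ^ 2) - 282 / 1000 + 2 * m * Real.arctan (99 / 100 * m) - m * (m / 5) ≤
      LL ⟨x + s, -(m * x) + η⟩ + LL ⟨x + 1 - s, -(m * x) - η⟩ - 2 * LL ⟨x, -(m * x)⟩ +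
      -m * (YY ⟨x + s, -(m * x) + η⟩ + YY ⟨x + 1 - s, -(m * x) - η⟩ - 2 * YY ⟨x, -(m * x)⟩) := by
  have h1 := LLd_ge (m := -m) (y := -(m * x) + η) hs' hx0 hx (by rw [abs_neg, abs_of_nonneg hm]; exact hm')
  rw [neg_sq, neg_mul] at h1
  have h2 := YYu_le (η := η) hx0 hx hs' hm hη0.le
  have h3 := YYw_ge hx0 (by linarith only [hs', hx]) hm hm'
  have h4 : YY ⟨x + 1 - s, -(m * x) - η⟩ ≤ 0 := RC3e.YY_nonpos (by simp only; linarith only [hs', hx0, hx]) (by
    simp only
    have : 0 ≤ m * x := by positivity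
    linarith only [hη0, this])
  rw [LL_shift]
  have h5 := mul_le_mul_of_nonneg_left h2 hm
  have h6 := mul_le_mul_of_nonneg_left h3 hm
  have h7 := mul_nonneg hm (neg_nonneg.2 h4)
  nlinarith only [hs', hx0, hx, hE, h1, h5, h6, h7]

/-- **B**, height `≥ 0` -/
theorem posB (hs : 0 < s) (hs' : s ≤ 1 / 16) (hx0 : 0 < x) (hx : x ≤ s / 4)
    (hm : 0 ≤ m) (hm' : m ≤ 56 / 100)
    (hE : LL ⟨x + s, m * x + η⟩ - LL ⟨x - s, m * x - η⟩ ≤ 55 / 10 * s) :
    0 < LL ⟨x + s, m * x + η⟩ + LL ⟨x + 1 - s, m * x - η⟩ - 2 * LL ⟨x, m * x⟩ +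
      m * (YY ⟨x + s, m * x + η⟩ + YY ⟨x + 1 - s, m * x - η⟩ - 2 * YY ⟨x, m * x⟩) := by
  have h1 := LLd_ge (m := m) (y := m * x + η) hs' hx0 hx (by rw [abs_of_nonneg hm]; linarith only [hs', hx0, hx, hm'])
  have h2 : -(Real.pi / 2) ≤ YY ⟨x + s, m * x + η⟩ := YY_ge_neg_half (by simp only; linarith only [hx0, hx])
    (by simp only; linarith only [hs', hx0, hx])
  have h3 : -(Real.pi / 2) ≤ YY ⟨x + 1 - s, m * x - η⟩ := YY_ge_neg_half (by simp only; linarith only [hs', hx0, hx])
    (by simp only; linarith only [hx0, hx])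
  have h4 : YY ⟨x, m * x⟩ ≤ 0 := by
    rcases hm.eq_or_lt with h | h
    · rw [← h, zero_mul, YY_mk_zero]
    · rw [YY_mk_pos (by positivity)]
      have := Tr_le_half (s := m * x) (x := x) (by positivity) (by linarith only [hs', hx0, hx])
      linarith only [this]
  rw [LL_shift]
  have h5 := mul_le_mul_of_nonneg_left h2 hm
  have h6 := mul_le_mul_of_nonneg_left h3 hm
  have h7 := mul_nonneg hm (neg_nonneg.2 h4)
  have h8 := rowU7 hm hm'
  nlinarith only [hs', hx0, hx, hE, h1, h5, h6, h7, h8]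

end Pool.Agent.Work.MP_b30479_gtS.G2

end
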