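import Pool.Agent.Work.MP_b30479_gt.TBS.G2.RV
import Pool.Agent.Work.MP_b30479_gt.TBS.G2.RngA
import Pool.Agent.Work.MP_b30479_gt.TBS.NumU.Node
import Pool.Agent.Work.MP_b30479_gt.TBS.NumU.Tree

section

/-!
# Part of `GE`
-/
set_option linter.unusedSimpArgs false

namespace Pool.Agent.Work.MP_b30479_gtS.G2

open VOL NumUs

namespace GE

section
open NumIs (V)
open NumUs.E

def e0 : E := var 0
def eK : E := var 1
def eS : E := var 2
def eR : E := var 3
def eH : E := mul (mul (q 4 1) (var 3)) (var 2)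
def eT : E := add eK eH
def u2 : E := add eK (mul (q 8 1) (mul (var 3) (var 2)))
/-- `x` in the second and third form -/
def x1 : E := add e0 eS
def x2 : E := sub eS e0
/-- `x + s` -/
def y1 : E := add e0 (mul (q 2 1) eS)
def y2 : E := sub (mul (q 2 1) eS) e0

def ba (X Y : E) : E := sub (add (E.uu (add X (q 1 4)) (add eT eR)) (E.uu (add X (q 3 4)) (sub eT eR)))
  (E.uu Y u2)
def g0 : E := sub (ba e0 (add e0 eS)) (add (E.uu (sub e0 eS) eK) (mul pi eK))
def g1 : E := sub (ba x1 y1) (add (E.uu e0 eK) (mul pi eK))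
def g2 : E := add (ba x2 y2) (E.uu e0 eK)
def g3 : E := add (ba x1 y1) (E.uu (q 3 100) eK)
def aft : E := sub (neg (E.uu (add e0 eS) u2)) (add (E.uu (sub e0 eS) eK) (mul pi eK))
def h1 : E := add (add (E.uu (add e0 (q 1 4)) (add eT eR)) (mul (mul pi (q 1 2)) (sub eT eR))) aft
def h2 : E := add (add (E.uu (add e0 (q 1 4)) (add eT eR)) (mul (mul pi (q 1 2)) (sub eR eT))) aft
def k1 : E := add (add (add (E.uu (add e0 (q 1 4)) (add eT eR)) (E.uu (q 1 100) (sub eT eR)))
  (mul pi (sub eT eR))) aft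
def k2 : E := add (add (add (E.uu (add e0 (q 1 4)) (add eT eR)) (E.uu (q 1 100) (sub eT eR)))
  (mul pi (sub eR eT))) aft
def l1 : E := add (add (add (E.uu (add e0 (q 1 4)) (add eT eR)) (E.uu (sub e0 (q 1 4)) (sub eT eR)))
  (mul pi (sub eT eR))) aft
def l2 : E := add (add (add (E.uu (add e0 (q 1 4)) (add eT eR)) (E.uu (sub e0 (q 1 4)) (sub eT eR)))
  (mul pi (sub eR eT))) aft
def DX (Y : E) : E := sub (E.lnA Y u2) (mul (mul (q 4 1) eR) (E.lnB Y u2))
def D0 : E := sub (DX (add e0 eS)) (add (E.lnA (sub e0 eS) eK)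
  (mul (mul (q 4 1) eR) (sub pi (E.lnB (sub e0 eS) eK))))
def D1 : E := sub (DX y1) (add (E.lnA e0 eK) (mul (mul (q 4 1) eR) (sub pi (E.lnB e0 eK))))
def D2 : E := sub (DX y2) (sub (E.lnA (sub (q 1 1) e0) eK)
  (mul (mul (q 4 1) eR) (E.lnB (sub (q 1 1) e0) eK)))
def Dc : E := sub (DX y1) (add (mul (q 1 2) (E.log (add (mul (q 2 1)
  (sub (E.cosh (mul (mul (q 2 1) pi) eK)) (E.cosPi (mul (q 2 1) e0)))) (q 1 20))))
    (mul (mul (q 4 1) eR) pi))
def o1 : E := mul (mul (mul (q 8 1) pi) (mul eR eS)) (sub (q 1 1) (mul (q 4 1) eS))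
def o2 : E := mul (mul (mul (q 4 1) pi) eR) (sub (q 2 1) (mul (q 16 1) eS))
def o3 : E := mul (mul pi eR) (sub (q 1 1) (mul (q 4 1) eS))
/-- constraints -/
def cT : E := sub eT (q 56 1000)
def cU : E := sub eT (q 465 10000)
def cA (n : ℤ) : E := sub (q n 1000) (sub e0 eS)
def cB (n : ℤ) : E := sub x1 (q n 100)
def cC : E := sub (q 1 10) x1
def cD : E := sub (q 1 10) x2

end

variable {s ρ x t : ℝ} {w ζ : ℂ}

theorem gap_eq : fu x t (-(1 / 4)) ρ - fu x t (-(1 / 2) + s) (4 * ρ * s) =
    uu (x + 1 / 4) (t + ρ) + uu (x + 3 / 4) (t - ρ) - uu (x + s) (t + 4 * ρ * s) -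
      uu (x + 1 - s) (t - 4 * ρ * s) := by
  unfold fu
  rw [show x + 1 / 2 + -(1 / 4) = x + 1 / 4 by ring, show x + 1 / 2 - -(1 / 4) = x + 3 / 4 by ring,
    show x + 1 / 2 + (-(1 / 2) + s) = x + s by ring,
    show x + 1 / 2 - (-(1 / 2) + s) = x + 1 - s by ring]
  ring

theorem far (h : 4 * ρ * s ≤ t) : uu (x + 1 - s) (t - 4 * ρ * s) =
    uu (x - s) (t - 4 * ρ * s) + Real.pi * (t - 4 * ρ * s) := by
  rw [RV.beyond (show x + 1 - s = (x - s) + 1 by ring), abs_of_nonneg (by linarith only [h])]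

theorem near : uu (x + 1 - s) (t - 4 * ρ * s) = -uu (s - x) (t - 4 * ρ * s) :=
  RV.before (by ring)

theorem corner (h : 4 * ρ * s ≤ t) (ht : t ≤ 56 / 1000) (hs : 0 ≤ s) (hρ : 0 ≤ ρ)
    (h1 : x - s ≤ 3 / 100) (h2 : s - x ≤ 3 / 100) :
    uu (3 / 100) (t - 4 * ρ * s) ≤ -uu (x + 1 - s) (t - 4 * ρ * s) := by
  rw [near, neg_neg]
  have e : 0 ≤ 4 * ρ * s := by positivity
  exact RV.anti (by linarith only [h1]) (by linarith only [h2]) (by norm_num)
    (by rw [abs_le]; constructor <;> linarith only [h, ht, e])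

/-- `x + 3/4` below one -/
theorem half (hx : 24 / 100 ≤ x) (hx' : x ≤ 1 / 4) (ht : |t - ρ| ≤ 11 / 100) :
    Real.pi / 2 * |t - ρ| ≤ uu (x + 3 / 4) (t - ρ) := by
  have h6 := VC3.UU_small (x := 1 / 4 - x) (y := t - ρ) (by linarith only [hx']) (by linarith only [hx]) ht
  have h7 := RV.before (y := t - ρ) (show x + 3 / 4 = 1 - (1 / 4 - x) by ring)
  rw [h7]
  have h8 : uu (1 / 4 - x) (t - ρ) ≤ -(Real.pi / 2 * |t - ρ|) := h6
  linarith only [h8]

theorem past : uu (x + 3 / 4) (t - ρ) = uu (x - 1 / 4) (t - ρ) + Real.pi * |t - ρ| :=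
  RV.beyond (by ring)

theorem past' (hx : 1 / 4 ≤ x) (hx' : x ≤ 26 / 100) (ht : |t - ρ| ≤ 11 / 100) :
    uu (1 / 100) (t - ρ) + Real.pi * |t - ρ| ≤ uu (x + 3 / 4) (t - ρ) := by
  rw [past]
  have := RV.anti (a := x - 1 / 4) (b := 1 / 100) (y := t - ρ) (by linarith only [hx]) (by linarith only [hx'])
    (by norm_num) ht
  linarith only [this]

/-- `gap` above an offset `o` which is evaluated by an expression: tactic for the four parts -/
theorem absdiff (ht0 : 0 ≤ t) (ht : t ≤ 56 / 1000) (hρ : 0 ≤ ρ) (hρ' : ρ ≤ 1045 / 10000) :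
    |t - ρ| ≤ 11 / 100 := by
  rw [abs_le]
  constructor <;> linarith only [ht0, hρ', ht, hρ]

theorem pa1 : Real.pi * (t - ρ) ≤ Real.pi * |t - ρ| :=
  mul_le_mul_of_nonneg_left (le_abs_self _) Real.pi_pos.le

theorem pa2 : Real.pi * (ρ - t) ≤ Real.pi * |t - ρ| := by
  rw [abs_sub_comm]
  exact mul_le_mul_of_nonneg_left (le_abs_self _) Real.pi_pos.le

theorem lnB_zero (y : ℝ) : NumIs.lnB y 0 = 0 := by
  unfold NumIs.lnB
  simp

section D

variable (hw : w.re = x) (hwi : w.im = t) (hζ : ζ.re = -(1 / 2) + s) (hζi : ζ.im = 4 * ρ * s)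

include hw hwi hζ hζi

theorem u_eq : w + 1 / 2 + ζ = ⟨x + s, t + 4 * ρ * s⟩ := by
  apply Complex.ext
  · simp [hw, hζ]
  · simp [hwi, hζi]

theorem v_eq : w + 1 / 2 - ζ = ⟨x + 1 - s, t - 4 * ρ * s⟩ := by
  apply Complex.ext
  · simp [hw, hζ]
    ring
  · simp [hwi, hζi]

theorem DX_eq (h0 : 0 < x + s) (h1 : x + s < 1) :
    Dq (4 * ρ) (w + 1 / 2 + ζ) = NumIs.lnA (x + s) (t + 4 * ρ * s) -
      4 * ρ * NumIs.lnB (x + s) (t + 4 * ρ * s) := by
  have hs : (⟨x + s, t + 4 * ρ * s⟩ : ℂ) ∈ strip := ⟨h0, h1⟩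
  unfold Dq
  rw [u_eq hw hwi hζ hζi, Num.LL_lnA hs, Num.YY_lnB hs]
  ring

/-- `s > x` -/
theorem D3_eq (h0 : 0 < x + s) (h1 : x + s < 1) (h2 : x < s) (h3 : s < x + 1) :
    Dm (4 * ρ) w ζ = NumIs.lnA (x + s) (t + 4 * ρ * s) - 4 * ρ * NumIs.lnB (x + s) (t + 4 * ρ * s) -
      (NumIs.lnA (x + 1 - s) (t - 4 * ρ * s) - 4 * ρ * NumIs.lnB (x + 1 - s) (t - 4 * ρ * s)) := by
  have hs : (⟨x + 1 - s, t - 4 * ρ * s⟩ : ℂ) ∈ strip := ⟨by simp only; linarith only [h3], by simp only; linarith only [h2]⟩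
  unfold Dm
  rw [DX_eq hw hwi hζ hζi h0 h1]
  unfold Dq
  rw [v_eq hw hwi hζ hζi, Num.LL_lnA hs, Num.YY_lnB hs]
  ring

/-- `s < x` -/
theorem D1_le (hρ : 0 ≤ ρ) (h0 : 0 < x + s) (h1 : x + s < 1) (h2 : s < x) (h3 : x < s + 1)
    (h : 4 * ρ * s ≤ t) :
    NumIs.lnA (x + s) (t + 4 * ρ * s) - 4 * ρ * NumIs.lnB (x + s) (t + 4 * ρ * s) -
      (NumIs.lnA (x - s) (t - 4 * ρ * s) + 4 * ρ * (Real.pi - NumIs.lnB (x - s) (t - 4 * ρ * s))) ≤
        Dm (4 * ρ) w ζ := by
  have hs : (⟨x - s, t - 4 * ρ * s⟩ : ℂ) ∈ strip := ⟨by simp only; linarith only [h2], by simp only; linarith only [h3]⟩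
  have hv : (⟨x + 1 - s, t - 4 * ρ * s⟩ : ℂ) = ⟨x - s, t - 4 * ρ * s⟩ + 1 := by
    apply Complex.ext
    · simp
      ring
    · simp
  have hL : LL ⟨x + 1 - s, t - 4 * ρ * s⟩ = NumIs.lnA (x - s) (t - 4 * ρ * s) := by
    rw [hv, LL_add_one, Num.LL_lnA hs]
  have hY : YY ⟨x + 1 - s, t - 4 * ρ * s⟩ ≤ Real.pi - NumIs.lnB (x - s) (t - 4 * ρ * s) := by
    rcases eq_or_lt_of_le h with h4 | h4
    · rw [YY_zero (show (⟨x + 1 - s, t - 4 * ρ * s⟩ : ℂ).im = 0 by simp only; linarith only [h, h4])]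
      rw [show t - 4 * ρ * s = 0 by linarith only [h, h4], lnB_zero]
      have := Real.pi_pos
      linarith only [this]
    · rw [hv, YY_add_one, if_pos (show 0 < (⟨x - s, t - 4 * ρ * s⟩ : ℂ).im by simp only; linarith only [h4]),
        Num.YY_lnB hs]
      linarith only []
  unfold Dm
  rw [DX_eq hw hwi hζ hζi h0 h1]
  unfold Dq
  rw [v_eq hw hwi hζ hζi, hL]
  have := mul_le_mul_of_nonneg_left hY (by positivity : (0 : ℝ) ≤ 4 * ρ)
  linarith only [this]

end D

theorem r31b_h1_q1 : chk [g0, cT, cA 50] 23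
    (NumIs.setL 0 [NumIs.V.of 10000 1000 2400, NumIs.V.of 10000 0 560,
      NumIs.V.of 10000 700 2000, NumIs.V.of 10000 0 1045]) = true := by
  decide +kernel

theorem r31b_h1_q2 : chk [g0, cT, cA 50] 22
    (NumIs.setL 2 (NumIs.setR 0 [NumIs.V.of 10000 1000 2400, NumIs.V.of 10000 0 560,
      NumIs.V.of 10000 700 2000, NumIs.V.of 10000 0 1045])) = true := by
  decide +kernel

theorem r31b_h1_q3 : chk [g0, cT, cA 50] 21
    (NumIs.setL 3 (NumIs.setR 2 (NumIs.setR 0 [NumIs.V.of 10000 1000 2400, NumIs.V.of 10000 0 560,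
      NumIs.V.of 10000 700 2000, NumIs.V.of 10000 0 1045]))) = true := by
  decide +kernel

theorem r31b_h1_q4 : chk [g0, cT, cA 50] 21
    (NumIs.setR 3 (NumIs.setR 2 (NumIs.setR 0 [NumIs.V.of 10000 1000 2400, NumIs.V.of 10000 0 560,
      NumIs.V.of 10000 700 2000, NumIs.V.of 10000 0 1045]))) = true := by
  decide +kernel

theorem r31b_h1 : chk [g0, cT, cA 50] 24
    [NumIs.V.of 10000 1000 2400, NumIs.V.of 10000 0 560,
      NumIs.V.of 10000 700 2000, NumIs.V.of 10000 0 1045] = true :=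
  NumUs.chk_node (i := 0) (by decide +kernel)
    r31b_h1_q1
    (NumUs.chk_node (i := 2) (by decide +kernel)
      r31b_h1_q2
      (NumUs.chk_node (i := 3) (by decide +kernel)
        r31b_h1_q3
        r31b_h1_q4))

theorem r31c_h1_q1 : chk [g1, cB 24, cC, cT] 23
    (NumIs.setL 2 [NumIs.V.of 10000 300 500, NumIs.V.of 10000 0 560,
      NumIs.V.of 10000 500 2000, NumIs.V.of 10000 0 1045]) = true := by
  decide +kernel

theorem r31c_h1_q2 : chk [g1, cB 24, cC, cT] 21
    (NumIs.setL 2 (NumIs.setL 3 (NumIs.setR 2 [NumIs.V.of 10000 300 500, NumIs.V.of 10000 0 560,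
      NumIs.V.of 10000 500 2000, NumIs.V.of 10000 0 1045]))) = true := by
  decide +kernel

theorem r31c_h1_q3 : chk [g1, cB 24, cC, cT] 19
    (NumIs.setL 3 (NumIs.setL 1 (NumIs.setR 2 (NumIs.setL 3 (NumIs.setR 2 [NumIs.V.of 10000 300 500, NumIs.V.of 10000 0 560,
      NumIs.V.of 10000 500 2000, NumIs.V.of 10000 0 1045]))))) = true := by
  decide +kernel

theorem r31c_h1_q4 : chk [g1, cB 24, cC, cT] 19
    (NumIs.setR 3 (NumIs.setL 1 (NumIs.setR 2 (NumIs.setL 3 (NumIs.setR 2 [NumIs.V.of 10000 300 500, NumIs.V.of 10000 0 560,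
      NumIs.V.of 10000 500 2000, NumIs.V.of 10000 0 1045]))))) = true := by
  decide +kernel

theorem r31c_h1_q5 : chk [g1, cB 24, cC, cT] 20
    (NumIs.setR 1 (NumIs.setR 2 (NumIs.setL 3 (NumIs.setR 2 [NumIs.V.of 10000 300 500, NumIs.V.of 10000 0 560,
      NumIs.V.of 10000 500 2000, NumIs.V.of 10000 0 1045])))) = true := by
  decide +kernel

theorem r31c_h1_q6 : chk [g1, cB 24, cC, cT] 22
    (NumIs.setR 3 (NumIs.setR 2 [NumIs.V.of 10000 300 500, NumIs.V.of 10000 0 560,
      NumIs.V.of 10000 500 2000, NumIs.V.of 10000 0 1045])) = true := by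
  decide +kernel

theorem r31c_h1 : chk [g1, cB 24, cC, cT] 24
    [NumIs.V.of 10000 300 500, NumIs.V.of 10000 0 560,
      NumIs.V.of 10000 500 2000, NumIs.V.of 10000 0 1045] = true :=
  NumUs.chk_node (i := 2) (by decide +kernel)
    r31c_h1_q1
    (NumUs.chk_node (i := 3) (by decide +kernel)
      (NumUs.chk_node (i := 2) (by decide +kernel)
        r31c_h1_q2
        (NumUs.chk_node (i := 1) (by decide +kernel)
          (NumUs.chk_node (i := 3) (by decide +kernel)
            r31c_h1_q3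
            r31c_h1_q4)
          r31c_h1_q5))
      r31c_h1_q6)

theorem r36_h1_q1 : chk [l1, l2, cT] 23
    (NumIs.setL 3 [NumIs.V.of 10000 2600 2700, NumIs.V.of 10000 0 560,
      NumIs.V.of 10000 0 2000, NumIs.V.of 10000 0 1045]) = true := by
  decide +kernel

theorem r36_h1_q2 : chk [l1, l2, cT] 23
    (NumIs.setR 3 [NumIs.V.of 10000 2600 2700, NumIs.V.of 10000 0 560,
      NumIs.V.of 10000 0 2000, NumIs.V.of 10000 0 1045]) = true := by
  decide +kernel

theorem r36_h1 : chk [l1, l2, cT] 24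
    [NumIs.V.of 10000 2600 2700, NumIs.V.of 10000 0 560,
      NumIs.V.of 10000 0 2000, NumIs.V.of 10000 0 1045] = true :=
  NumUs.chk_node (i := 3) (by decide +kernel)
    r36_h1_q1
    r36_h1_q2

theorem m1e_h1_q1 : chk [E.sub g0 o1, E.add D0 o2, cT, cA 50] 22
    (NumIs.setL 3 (NumIs.setL 0 [NumIs.V.of 10000 1000 2400, NumIs.V.of 10000 0 560,
      NumIs.V.of 10000 625 1250, NumIs.V.of 10000 0 1045])) = true := by
  decide +kernel

theorem m1e_h1_q2 : chk [E.sub g0 o1, E.add D0 o2, cT, cA 50] 22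
    (NumIs.setR 3 (NumIs.setL 0 [NumIs.V.of 10000 1000 2400, NumIs.V.of 10000 0 560,
      NumIs.V.of 10000 625 1250, NumIs.V.of 10000 0 1045])) = true := by
  decide +kernel

theorem m1e_h1_q3 : chk [E.sub g0 o1, E.add D0 o2, cT, cA 50] 22
    (NumIs.setL 3 (NumIs.setR 0 [NumIs.V.of 10000 1000 2400, NumIs.V.of 10000 0 560,
      NumIs.V.of 10000 625 1250, NumIs.V.of 10000 0 1045])) = true := by
  decide +kernel

theorem m1e_h1_q4 : chk [E.sub g0 o1, E.add D0 o2, cT, cA 50] 22
    (NumIs.setR 3 (NumIs.setR 0 [NumIs.V.of 10000 1000 2400, NumIs.V.of 10000 0 560,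
      NumIs.V.of 10000 625 1250, NumIs.V.of 10000 0 1045])) = true := by
  decide +kernel

theorem m1e_h1 : chk [E.sub g0 o1, E.add D0 o2, cT, cA 50] 24
    [NumIs.V.of 10000 1000 2400, NumIs.V.of 10000 0 560,
      NumIs.V.of 10000 625 1250, NumIs.V.of 10000 0 1045] = true :=
  NumUs.chk_node (i := 0) (by decide +kernel)
    (NumUs.chk_node (i := 3) (by decide +kernel)
      m1e_h1_q1
      m1e_h1_q2)
    (NumUs.chk_node (i := 3) (by decide +kernel)
      m1e_h1_q3
      m1e_h1_q4)

theorem m1f3_h1_q1 : chk [E.sub l1 o1, E.sub l2 o1, E.add D0 o2, cT] 23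
    (NumIs.setL 3 [NumIs.V.of 10000 2600 2700, NumIs.V.of 10000 0 560,
      NumIs.V.of 10000 625 1250, NumIs.V.of 10000 0 1045]) = true := by
  decide +kernel

theorem m1f3_h1_q2 : chk [E.sub l1 o1, E.sub l2 o1, E.add D0 o2, cT] 21
    (NumIs.setL 3 (NumIs.setL 3 (NumIs.setR 3 [NumIs.V.of 10000 2600 2700, NumIs.V.of 10000 0 560,
      NumIs.V.of 10000 625 1250, NumIs.V.of 10000 0 1045]))) = true := by
  decide +kernel

theorem m1f3_h1_q3 : chk [E.sub l1 o1, E.sub l2 o1, E.add D0 o2, cT] 21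
    (NumIs.setR 3 (NumIs.setL 3 (NumIs.setR 3 [NumIs.V.of 10000 2600 2700, NumIs.V.of 10000 0 560,
      NumIs.V.of 10000 625 1250, NumIs.V.of 10000 0 1045]))) = true := by
  decide +kernel

theorem m1f3_h1_q4 : chk [E.sub l1 o1, E.sub l2 o1, E.add D0 o2, cT] 22
    (NumIs.setR 3 (NumIs.setR 3 [NumIs.V.of 10000 2600 2700, NumIs.V.of 10000 0 560,
      NumIs.V.of 10000 625 1250, NumIs.V.of 10000 0 1045])) = true := by
  decide +kernel

theorem m1f3_h1 : chk [E.sub l1 o1, E.sub l2 o1, E.add D0 o2, cT] 24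
    [NumIs.V.of 10000 2600 2700, NumIs.V.of 10000 0 560,
      NumIs.V.of 10000 625 1250, NumIs.V.of 10000 0 1045] = true :=
  NumUs.chk_node (i := 3) (by decide +kernel)
    m1f3_h1_q1
    (NumUs.chk_node (i := 3) (by decide +kernel)
      (NumUs.chk_node (i := 3) (by decide +kernel)
        m1f3_h1_q2
        m1f3_h1_q3)
      m1f3_h1_q4)

end GE

end Pool.Agent.Work.MP_b30479_gtS.G2

end

section

/-!
# Part of `GE`
-/
set_option linter.unusedSimpArgs false

namespace Pool.Agent.Work.MP_b30479_gtS.G2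

open VOL NumUs

namespace GE

variable {s ρ x t : ℝ} {w ζ : ℂ}

section D

variable (hw : w.re = x) (hwi : w.im = t) (hζ : ζ.re = -(1 / 2) + s) (hζi : ζ.im = 4 * ρ * s)

include hw hwi hζ hζi

/-- near the corner -/
theorem Dc_le (hρ : 0 ≤ ρ) (h0 : 0 < x + s) (h1 : x + s < 1) (h2 : x ≤ s + 1 / 2)
    (h : 4 * ρ * s ≤ t) :
    NumIs.lnA (x + s) (t + 4 * ρ * s) - 4 * ρ * NumIs.lnB (x + s) (t + 4 * ρ * s) ≤ Dm (4 * ρ) w ζ ∨
    NumIs.lnA (x + s) (t + 4 * ρ * s) - 4 * ρ * NumIs.lnB (x + s) (t + 4 * ρ * s) -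
      (1 / 2 * Real.log (2 * (Real.cosh (2 * Real.pi * (t - 4 * ρ * s)) -
        Real.cos (Real.pi * (2 * (x - s)))) + 1 / 20) + 4 * ρ * Real.pi) ≤ Dm (4 * ρ) w ζ := by
  have hp := Real.pi_pos
  have hcos : Real.cos (2 * Real.pi * (x + 1 - s)) = Real.cos (Real.pi * (2 * (x - s))) := by
    rw [show 2 * Real.pi * (x + 1 - s) = Real.pi * (2 * (x - s)) + 2 * Real.pi by ring,
      Real.cos_add_two_pi]
  have hY : YY ⟨x + 1 - s, t - 4 * ρ * s⟩ ≤ Real.pi := by
    rcases eq_or_lt_of_le h with h4 | h4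
    · rw [YY_zero (show (⟨x + 1 - s, t - 4 * ρ * s⟩ : ℂ).im = 0 by simp only; linarith only [h, h4])]
      exact hp.le
    · have h5 : 0 < t - 4 * ρ * s := by linarith only [h4]
      rw [YY_pos (show 0 < (⟨x + 1 - s, t - 4 * ρ * s⟩ : ℂ).im from h5)]
      have h6 := Tr_mono h5 (show x + 1 - s ≤ 1 / 2 + 1 by linarith only [h2])
      rw [Tr_add_one, Tr_half h5] at h6
      simp only
      linarith only [h6]
  have hY' := mul_le_mul_of_nonneg_left hY (by positivity : (0 : ℝ) ≤ 4 * ρ)
  have hL := LL_eq' ⟨x + 1 - s, t - 4 * ρ * s⟩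
  simp only [hcos] at hL
  have hnn : 0 ≤ 2 * Real.cosh (2 * Real.pi * (t - 4 * ρ * s)) -
      2 * Real.cos (Real.pi * (2 * (x - s))) := by
    have := Real.one_le_cosh (2 * Real.pi * (t - 4 * ρ * s))
    have := Real.cos_le_one (Real.pi * (2 * (x - s)))
    linarith
  unfold Dm
  rw [DX_eq hw hwi hζ hζi h0 h1]
  unfold Dq
  rw [v_eq hw hwi hζ hζi]
  rcases eq_or_lt_of_le hnn with h4 | h4
  · left
    rw [← h4, Real.log_zero, zero_div] at hL
    rw [hL]
    rcases eq_or_lt_of_le h with h5 | h5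
    · rw [YY_zero (show (⟨x + 1 - s, t - 4 * ρ * s⟩ : ℂ).im = 0 by simp only; linarith only [h, h5])]
      linarith only []
    · exfalso
      have h6 : 1 < Real.cosh (2 * Real.pi * (t - 4 * ρ * s)) := by
        rw [Real.one_lt_cosh]
        have : 0 < 2 * Real.pi * (t - 4 * ρ * s) := by
          have : 0 < t - 4 * ρ * s := by linarith only [h5]
          positivity
        exact this.ne'
      have := Real.cos_le_one (Real.pi * (2 * (x - s)))
      linarith only [h4, h6, this]
  · right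
    have h5 := Real.log_le_log h4 (show 2 * Real.cosh (2 * Real.pi * (t - 4 * ρ * s)) -
      2 * Real.cos (Real.pi * (2 * (x - s))) ≤ 2 * (Real.cosh (2 * Real.pi * (t - 4 * ρ * s)) -
        Real.cos (Real.pi * (2 * (x - s)))) + 1 / 20 by linarith only [h0, h1])
    rw [hL]
    linarith only [hY', h5]

end D

theorem r31 (hx : 1 / 10 ≤ x) (hx' : x ≤ 24 / 100) (hs : 0 < s) (hs' : s ≤ 7 / 100)
    (ht' : t ≤ 56 / 1000) (hρ : 0 < ρ) (hρ' : ρ ≤ 1045 / 10000)
    (hη : 4 * ρ * s ≤ t) :
    fu x t (-(1 / 2) + s) (4 * ρ * s) < fu x t (-(1 / 4)) ρ := by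
  have e : 0 ≤ 4 * ρ * s := mul_nonneg (by linarith only [hρ]) (by linarith only [hs])
  have e1 : x - s + 2 * s = x + s := by ring
  have e2 : t - 4 * ρ * s + 8 * (ρ * s) = t + 4 * ρ * s := by ring
  have e3 : 2 * s - (s - x) = x + s := by ring
  have e4 : 1 - (s - x) = x + 1 - s := by ring
  have hg := gap_eq (s := s) (ρ := ρ) (x := x) (t := t)
  have hf1 := far (x := x) hη
  have h : chk [g0, cT, cA 30] 24
    [NumIs.V.of 10000 1000 2400, NumIs.V.of 10000 0 560,
      NumIs.V.of 10000 0 700, NumIs.V.of 10000 0 1045] = true := by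
    decide +kernel
  obtain ⟨f, hf, hp⟩ := chk4 h (by norm_num) (x := x) (y := t - 4 * ρ * s) (z := s) (w := ρ)
    (by norm_num; linarith only [hx]) (by norm_num; linarith only [hx']) (by norm_num; linarith only [hη]) (by norm_num; linarith only [ht', e])
    (by norm_num; linarith only [hs]) (by norm_num; linarith only [hs']) (by norm_num; linarith only [hρ]) (by norm_num; linarith only [hρ'])
  simp only [List.mem_cons, List.not_mem_nil, or_false] at hf
  rcases hf with rfl | rfl | rfl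
  · simp only [g0, ba, x1, x2, y1, y2, u2, e0, eT, eK, eS, eR, eH, E.val, NumIs.lkR] at hp
    push_cast at hp
    try simp only [div_one, sub_add_cancel, sub_sub_cancel, e1, e2, e3, e4] at hp
    linarith only [hg, hf1, hp]
  · simp only [cT, x1, x2, y1, y2, u2, e0, eT, eK, eS, eR, eH, E.val, NumIs.lkR] at hp
    push_cast at hp
    try simp only [div_one, sub_add_cancel, sub_sub_cancel, e1, e2, e3, e4] at hp
    linarith only [ht', hp]
  · simp only [cA, x1, x2, y1, y2, u2, e0, eT, eK, eS, eR, eH, E.val, NumIs.lkR] at hp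
    push_cast at hp
    try simp only [div_one, sub_add_cancel, sub_sub_cancel, e1, e2, e3, e4] at hp
    linarith only [hx, hs', hp]

theorem r31b (hx : 1 / 10 ≤ x) (hx' : x ≤ 24 / 100) (hs : 7 / 100 ≤ s) (hs' : s ≤ 1 / 5)
    (ht' : t ≤ 56 / 1000) (hρ : 0 < ρ) (hρ' : ρ ≤ 1045 / 10000)
    (hη : 4 * ρ * s ≤ t) (hd : 5 / 100 ≤ x - s) :
    fu x t (-(1 / 2) + s) (4 * ρ * s) < fu x t (-(1 / 4)) ρ := by
  have e : 0 ≤ 4 * ρ * s := mul_nonneg (by linarith only [hρ]) (by linarith only [hs, hρ, hρ'])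
  have e1 : x - s + 2 * s = x + s := by ring
  have e2 : t - 4 * ρ * s + 8 * (ρ * s) = t + 4 * ρ * s := by ring
  have e3 : 2 * s - (s - x) = x + s := by ring
  have e4 : 1 - (s - x) = x + 1 - s := by ring
  have hg := gap_eq (s := s) (ρ := ρ) (x := x) (t := t)
  have hf1 := far (x := x) hη
  have h : chk [g0, cT, cA 50] 24
    [NumIs.V.of 10000 1000 2400, NumIs.V.of 10000 0 560,
      NumIs.V.of 10000 700 2000, NumIs.V.of 10000 0 1045] = true := r31b_h1
  obtain ⟨f, hf, hp⟩ := chk4 h (by norm_num) (x := x) (y := t - 4 * ρ * s) (z := s) (w := ρ)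
    (by norm_num; linarith only [hs, hρ, hρ', hd]) (by norm_num; linarith only [hx']) (by norm_num; linarith only [hη]) (by norm_num; linarith only [ht', e])
    (by norm_num; linarith only [hs]) (by norm_num; linarith only [hx', hρ, hρ', hd]) (by norm_num; linarith only [hρ]) (by norm_num; linarith only [hρ'])
  simp only [List.mem_cons, List.not_mem_nil, or_false] at hf
  rcases hf with rfl | rfl | rfl
  · simp only [g0, ba, x1, x2, y1, y2, u2, e0, eT, eK, eS, eR, eH, E.val, NumIs.lkR] at hp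
    push_cast at hp
    try simp only [div_one, sub_add_cancel, sub_sub_cancel, e1, e2, e3, e4] at hp
    linarith only [hg, hf1, hp]
  · simp only [cT, x1, x2, y1, y2, u2, e0, eT, eK, eS, eR, eH, E.val, NumIs.lkR] at hp
    push_cast at hp
    try simp only [div_one, sub_add_cancel, sub_sub_cancel, e1, e2, e3, e4] at hp
    linarith only [ht', hp]
  · simp only [cA, x1, x2, y1, y2, u2, e0, eT, eK, eS, eR, eH, E.val, NumIs.lkR] at hp
    push_cast at hp
    try simp only [div_one, sub_add_cancel, sub_sub_cancel, e1, e2, e3, e4] at hp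
    linarith only [hd, hp]

end GE

end Pool.Agent.Work.MP_b30479_gtS.G2

end

section

/-!
# The ring variable next to a ring of equal sign, left of `-1/4`: rows

`gap = fu x t (-1/4) ρ - fu x t (-1/2 + s) (4ρs)`, `D = Dm (4ρ) w ζ`, `w = x + i t`,
`ζ = -1/2 + s + 4ρs i`; everything for `4ρs ≤ t`.
-/

set_option linter.unusedSimpArgs false

namespace Pool.Agent.Work.MP_b30479_gtS.G2

open VOL NumUs

namespace GE

section
open NumIs (V)
open NumUs.E

def g4 : E := add (ba x1 y1) (E.uu (q 1 100) eK)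
def De : E := sub (DX y1) (add (mul (q 1 2) (E.log (add (mul (q 2 1)
  (sub (E.cosh (mul (mul (q 2 1) pi) eK)) (E.cosPi (mul (q 2 1) e0)))) (q 1 100))))
    (mul (mul (q 4 1) eR) pi))
def o4 : E := mul (mul (q 8 1) (mul pi eR)) (sub (mul (q 8 1) eS) (q 1 1))

end

variable {s ρ x t : ℝ} {w ζ : ℂ}

theorem corner' (h : 4 * ρ * s ≤ t) (ht : t ≤ 56 / 1000) (hs : 0 ≤ s) (hρ : 0 ≤ ρ)
    (h1 : s ≤ x) (h2 : x - s ≤ 1 / 100) :
    uu (1 / 100) (t - 4 * ρ * s) ≤ -uu (x + 1 - s) (t - 4 * ρ * s) := by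
  rw [near, neg_neg]
  have e : 0 ≤ 4 * ρ * s := by positivity
  exact RV.anti (by linarith only [h2]) (by linarith only [h1]) (by norm_num)
    (by rw [abs_le]; constructor <;> linarith only [h, ht, e])

/-- near the corner, away from the singular point -/
theorem De_le (hw : w.re = x) (hwi : w.im = t) (hζ : ζ.re = -(1 / 2) + s) (hζi : ζ.im = 4 * ρ * s)
    (hρ : 0 ≤ ρ) (h0 : 0 < x + s) (h1 : x + s < 1) (h2 : s ≤ x) (h3 : x < s + 1 / 2)
    (h : 4 * ρ * s ≤ t) (hne : x ≠ s ∨ t ≠ 4 * ρ * s) :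
    NumIs.lnA (x + s) (t + 4 * ρ * s) - 4 * ρ * NumIs.lnB (x + s) (t + 4 * ρ * s) -
      (1 / 2 * Real.log (2 * (Real.cosh (2 * Real.pi * (t - 4 * ρ * s)) -
        Real.cos (Real.pi * (2 * (x - s)))) + 1 / 100) + 4 * ρ * Real.pi) ≤ Dm (4 * ρ) w ζ := by
  have hp := Real.pi_pos
  have hcos : Real.cos (2 * Real.pi * (x + 1 - s)) = Real.cos (Real.pi * (2 * (x - s))) := by
    rw [show 2 * Real.pi * (x + 1 - s) = Real.pi * (2 * (x - s)) + 2 * Real.pi by ring,
      Real.cos_add_two_pi]
  have hY : YY ⟨x + 1 - s, t - 4 * ρ * s⟩ ≤ Real.pi := by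
    rcases eq_or_lt_of_le h with h4 | h4
    · rw [YY_zero (show (⟨x + 1 - s, t - 4 * ρ * s⟩ : ℂ).im = 0 by simp only; linarith only [h, h4])]
      exact hp.le
    · have h5 : 0 < t - 4 * ρ * s := by linarith only [h4]
      rw [YY_pos (show 0 < (⟨x + 1 - s, t - 4 * ρ * s⟩ : ℂ).im from h5)]
      have h6 := Tr_mono h5 (show x + 1 - s ≤ 1 / 2 + 1 by linarith only [h3])
      rw [Tr_add_one, Tr_half h5] at h6
      simp only
      linarith only [h6]
  have hY' := mul_le_mul_of_nonneg_left hY (by positivity : (0 : ℝ) ≤ 4 * ρ)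
  have hL := LL_eq' ⟨x + 1 - s, t - 4 * ρ * s⟩
  simp only [hcos] at hL
  have hnn : 0 < 2 * Real.cosh (2 * Real.pi * (t - 4 * ρ * s)) -
      2 * Real.cos (Real.pi * (2 * (x - s))) := by
    have k1 := Real.one_le_cosh (2 * Real.pi * (t - 4 * ρ * s))
    have k2 := Real.cos_le_one (Real.pi * (2 * (x - s)))
    rcases hne with h4 | h4
    · have h5 : 0 < x - s := by
        rcases eq_or_lt_of_le h2 with h6 | h6
        · exact absurd h6.symm h4
        · linarith only [h6]
      have h6 : Real.cos (Real.pi * (2 * (x - s))) < Real.cos 0 := by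
        apply Real.cos_lt_cos_of_nonneg_of_le_pi le_rfl
        · nlinarith only [h0, h1, h3, hp]
        · positivity
      rw [Real.cos_zero] at h6
      linarith only [k1, h6]
    · have h5 : 1 < Real.cosh (2 * Real.pi * (t - 4 * ρ * s)) := by
        rw [Real.one_lt_cosh]
        have h6 : t - 4 * ρ * s ≠ 0 := fun h7 => h4 (by linarith only [h, h7])
        positivity
      linarith only [k2, h5]
  unfold Dm
  rw [DX_eq hw hwi hζ hζi h0 h1]
  unfold Dq
  rw [v_eq hw hwi hζ hζi]
  have h5 := Real.log_le_log hnn (show 2 * Real.cosh (2 * Real.pi * (t - 4 * ρ * s)) -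
    2 * Real.cos (Real.pi * (2 * (x - s))) ≤ 2 * (Real.cosh (2 * Real.pi * (t - 4 * ρ * s)) -
      Real.cos (Real.pi * (2 * (x - s)))) + 1 / 100 by linarith only [h0, h1])
  rw [hL]
  linarith only [hY', h5]

/-! ### rows -/

theorem gb1a (hx : 1 / 10 ≤ x) (hx' : x ≤ 24 / 100) (hs : 0 < s) (hs' : s ≤ 1 / 8)
    (ht' : t ≤ 56 / 1000) (hρ : 0 < ρ) (hρ' : ρ ≤ 1045 / 10000)
    (hη : 4 * ρ * s ≤ t) (hd : 5 / 100 ≤ x - s) :
    8 * Real.pi * ρ * s * (1 - 4 * s) < fu x t (-(1 / 4)) ρ - fu x t (-(1 / 2) + s) (4 * ρ * s) := by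
  have e : 0 ≤ 4 * ρ * s := mul_nonneg (by linarith only [hρ]) (by linarith only [hs])
  have e1 : x - s + 2 * s = x + s := by ring
  have e2 : t - 4 * ρ * s + 8 * (ρ * s) = t + 4 * ρ * s := by ring
  have e3 : 2 * s - (s - x) = x + s := by ring
  have e4 : 1 - (s - x) = x + 1 - s := by ring
  have hg := gap_eq (s := s) (ρ := ρ) (x := x) (t := t)
  have hf1 := far (x := x) hη
  have h : chkT [E.sub g0 o1, cT, cA 50] 20
    85072495118015390693342658819165883100806534041838113102693303247467637736829452269937708519044737205653497685193969305158338446699527484927585170186250465872151872814381308762632378072597607685320023590757811048393967412993605340541136420789253085833255539460912332143323525664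
    [NumIs.V.of 10000 1000 2400, NumIs.V.of 10000 0 560,
      NumIs.V.of 10000 0 1250, NumIs.V.of 10000 0 1045] = true := by
    decide +kernel
  obtain ⟨f, hf, hp⟩ := chkT4 h (by norm_num) (x := x) (y := t - 4 * ρ * s) (z := s) (w := ρ)
    (by norm_num; linarith only [hx]) (by norm_num; linarith only [hx']) (by norm_num; linarith only [hη]) (by norm_num; linarith only [ht', e])
    (by norm_num; linarith only [hs]) (by norm_num; linarith only [hs']) (by norm_num; linarith only [hρ]) (by norm_num; linarith only [hρ'])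
  simp only [List.mem_cons, List.not_mem_nil, or_false] at hf
  rcases hf with rfl | rfl | rfl
  · simp only [g0, ba, o1, x1, x2, y1, y2, u2, e0, eT, eK, eS, eR, eH, E.val, NumIs.lkR] at hp
    push_cast at hp
    try simp only [div_one, sub_add_cancel, sub_sub_cancel, e1, e2, e3, e4] at hp
    linarith only [hg, hf1, hp]
  · simp only [cT, x1, x2, y1, y2, u2, e0, eT, eK, eS, eR, eH, E.val, NumIs.lkR] at hp
    push_cast at hp
    try simp only [div_one, sub_add_cancel, sub_sub_cancel, e1, e2, e3, e4] at hp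
    linarith only [ht', hp]
  · simp only [cA, x1, x2, y1, y2, u2, e0, eT, eK, eS, eR, eH, E.val, NumIs.lkR] at hp
    push_cast at hp
    try simp only [div_one, sub_add_cancel, sub_sub_cancel, e1, e2, e3, e4] at hp
    linarith only [hd, hp]

theorem gb1b (hx : 1 / 10 ≤ x) (hs : 0 < s) (hs' : s ≤ 1 / 8)
    (ht' : t ≤ 56 / 1000) (hρ : 0 < ρ) (hρ' : ρ ≤ 1045 / 10000)
    (hη : 4 * ρ * s ≤ t) (hd : 1 / 100 ≤ x - s)
    (hd' : x - s ≤ 5 / 100) :
    8 * Real.pi * ρ * s * (1 - 4 * s) < fu x t (-(1 / 4)) ρ - fu x t (-(1 / 2) + s) (4 * ρ * s) := by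
  have e : 0 ≤ 4 * ρ * s := mul_nonneg (by linarith only [hρ]) (by linarith only [hs])
  have e1 : x - s + 2 * s = x + s := by ring
  have e2 : t - 4 * ρ * s + 8 * (ρ * s) = t + 4 * ρ * s := by ring
  have e3 : 2 * s - (s - x) = x + s := by ring
  have e4 : 1 - (s - x) = x + 1 - s := by ring
  have hg := gap_eq (s := s) (ρ := ρ) (x := x) (t := t)
  have hf1 := far (x := x) hη
  have h : chkT [E.sub g1 o1, cT, cC] 20
    256975775204525561317212739051223393060810303386468073804820715344400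
    [NumIs.V.of 10000 100 500, NumIs.V.of 10000 0 560,
      NumIs.V.of 10000 500 1250, NumIs.V.of 10000 0 1045] = true := by
    decide +kernel
  obtain ⟨f, hf, hp⟩ := chkT4 h (by norm_num) (x := x - s) (y := t - 4 * ρ * s) (z := s) (w := ρ)
    (by norm_num; linarith only [hd]) (by norm_num; linarith only [hd']) (by norm_num; linarith only [hη]) (by norm_num; linarith only [ht', e])
    (by norm_num; linarith only [hx, hd']) (by norm_num; linarith only [hs']) (by norm_num; linarith only [hρ]) (by norm_num; linarith only [hρ'])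
  simp only [List.mem_cons, List.not_mem_nil, or_false] at hf
  rcases hf with rfl | rfl | rfl
  · simp only [g1, ba, o1, x1, x2, y1, y2, u2, e0, eT, eK, eS, eR, eH, E.val, NumIs.lkR] at hp
    push_cast at hp
    try simp only [div_one, sub_add_cancel, sub_sub_cancel, e1, e2, e3, e4] at hp
    linarith only [hg, hf1, hp]
  · simp only [cT, x1, x2, y1, y2, u2, e0, eT, eK, eS, eR, eH, E.val, NumIs.lkR] at hp
    push_cast at hp
    try simp only [div_one, sub_add_cancel, sub_sub_cancel, e1, e2, e3, e4] at hp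
    linarith only [ht', hp]
  · simp only [cC, x1, x2, y1, y2, u2, e0, eT, eK, eS, eR, eH, E.val, NumIs.lkR] at hp
    push_cast at hp
    try simp only [div_one, sub_add_cancel, sub_sub_cancel, e1, e2, e3, e4] at hp
    linarith only [hx, hp]

theorem gb1c (hx : 1 / 10 ≤ x) (hs : 0 < s) (hs' : s ≤ 1 / 8)
    (ht' : t ≤ 56 / 1000) (hρ : 0 < ρ) (hρ' : ρ ≤ 1045 / 10000)
    (hη : 4 * ρ * s ≤ t) (hd : s ≤ x)
    (hd' : x - s ≤ 1 / 100) :
    8 * Real.pi * ρ * s * (1 - 4 * s) < fu x t (-(1 / 4)) ρ - fu x t (-(1 / 2) + s) (4 * ρ * s) := by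
  have e : 0 ≤ 4 * ρ * s := mul_nonneg (by linarith only [hρ]) (by linarith only [hs])
  have e1 : x - s + 2 * s = x + s := by ring
  have e2 : t - 4 * ρ * s + 8 * (ρ * s) = t + 4 * ρ * s := by ring
  have e3 : 2 * s - (s - x) = x + s := by ring
  have e4 : 1 - (s - x) = x + 1 - s := by ring
  have hg := gap_eq (s := s) (ρ := ρ) (x := x) (t := t)
  have hf1 := corner' hη ht' hs.le hρ.le hd hd'
  have h : chkT [E.sub g4 o1, cT, cC] 20
    49844197448415170251081742686455827
    [NumIs.V.of 10000 0 100, NumIs.V.of 10000 0 560,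
      NumIs.V.of 10000 900 1250, NumIs.V.of 10000 0 1045] = true := by
    decide +kernel
  obtain ⟨f, hf, hp⟩ := chkT4 h (by norm_num) (x := x - s) (y := t - 4 * ρ * s) (z := s) (w := ρ)
    (by norm_num; linarith only [hd]) (by norm_num; linarith only [hd']) (by norm_num; linarith only [hη]) (by norm_num; linarith only [ht', e])
    (by norm_num; linarith only [hx, hd']) (by norm_num; linarith only [hs']) (by norm_num; linarith only [hρ]) (by norm_num; linarith only [hρ'])
  simp only [List.mem_cons, List.not_mem_nil, or_false] at hf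
  rcases hf with rfl | rfl | rfl
  · simp only [g4, ba, o1, x1, x2, y1, y2, u2, e0, eT, eK, eS, eR, eH, E.val, NumIs.lkR] at hp
    push_cast at hp
    try simp only [div_one, sub_add_cancel, sub_sub_cancel, e1, e2, e3, e4] at hp
    linarith only [hg, hf1, hp]
  · simp only [cT, x1, x2, y1, y2, u2, e0, eT, eK, eS, eR, eH, E.val, NumIs.lkR] at hp
    push_cast at hp
    try simp only [div_one, sub_add_cancel, sub_sub_cancel, e1, e2, e3, e4] at hp
    linarith only [ht', hp]
  · simp only [cC, x1, x2, y1, y2, u2, e0, eT, eK, eS, eR, eH, E.val, NumIs.lkR] at hp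
    push_cast at hp
    try simp only [div_one, sub_add_cancel, sub_sub_cancel, e1, e2, e3, e4] at hp
    linarith only [hx, hp]

theorem gb1h (hx : 24 / 100 ≤ x) (hx' : x ≤ 1 / 4) (hs : 0 < s) (hs' : s ≤ 1 / 8)
    (ht' : t ≤ 56 / 1000) (hρ : 0 < ρ) (hρ' : ρ ≤ 1045 / 10000)
    (hη : 4 * ρ * s ≤ t) :
    8 * Real.pi * ρ * s * (1 - 4 * s) < fu x t (-(1 / 4)) ρ - fu x t (-(1 / 2) + s) (4 * ρ * s) := by
  have e : 0 ≤ 4 * ρ * s := mul_nonneg (by linarith only [hρ]) (by linarith only [hs])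
  have e1 : x - s + 2 * s = x + s := by ring
  have e2 : t - 4 * ρ * s + 8 * (ρ * s) = t + 4 * ρ * s := by ring
  have e3 : 2 * s - (s - x) = x + s := by ring
  have e4 : 1 - (s - x) = x + 1 - s := by ring
  have hg := gap_eq (s := s) (ρ := ρ) (x := x) (t := t)
  have hf1 := far (x := x) hη
  have hf2 := half (t := t) (ρ := ρ) hx hx' (absdiff (by linarith only [hη, e]) (by linarith only [ht']) hρ.le (by linarith only [hρ']))
  have hf3 := pa1 (t := t) (ρ := ρ)
  have hf4 := pa2 (t := t) (ρ := ρ)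
  have h : chkT [E.sub h1 o1, E.sub h2 o1, cT] 20
    928804845854070171132669692496109421275186
    [NumIs.V.of 10000 2400 2500, NumIs.V.of 10000 0 560,
      NumIs.V.of 10000 0 1250, NumIs.V.of 10000 0 1045] = true := by
    decide +kernel
  obtain ⟨f, hf, hp⟩ := chkT4 h (by norm_num) (x := x) (y := t - 4 * ρ * s) (z := s) (w := ρ)
    (by norm_num; linarith only [hx]) (by norm_num; linarith only [hx']) (by norm_num; linarith only [hη]) (by norm_num; linarith only [ht', e])
    (by norm_num; linarith only [hs]) (by norm_num; linarith only [hs']) (by norm_num; linarith only [hρ]) (by norm_num; linarith only [hρ'])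
  simp only [List.mem_cons, List.not_mem_nil, or_false] at hf
  rcases hf with rfl | rfl | rfl
  · simp only [h1, aft, o1, x1, x2, y1, y2, u2, e0, eT, eK, eS, eR, eH, E.val, NumIs.lkR] at hp
    push_cast at hp
    try simp only [div_one, sub_add_cancel, sub_sub_cancel, e1, e2, e3, e4] at hp
    linarith only [hg, hf1, hf2, hf3, hp]
  · simp only [h2, aft, o1, x1, x2, y1, y2, u2, e0, eT, eK, eS, eR, eH, E.val, NumIs.lkR] at hp
    push_cast at hp
    try simp only [div_one, sub_add_cancel, sub_sub_cancel, e1, e2, e3, e4] at hp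
    linarith only [hg, hf1, hf2, hf4, hp]
  · simp only [cT, x1, x2, y1, y2, u2, e0, eT, eK, eS, eR, eH, E.val, NumIs.lkR] at hp
    push_cast at hp
    try simp only [div_one, sub_add_cancel, sub_sub_cancel, e1, e2, e3, e4] at hp
    linarith only [ht', hp]

theorem gb1k (hx : 1 / 4 ≤ x) (hx' : x ≤ 26 / 100) (hs : 0 < s) (hs' : s ≤ 1 / 8)
    (ht' : t ≤ 56 / 1000) (hρ : 0 < ρ) (hρ' : ρ ≤ 1045 / 10000)
    (hη : 4 * ρ * s ≤ t) :
    8 * Real.pi * ρ * s * (1 - 4 * s) < fu x t (-(1 / 4)) ρ - fu x t (-(1 / 2) + s) (4 * ρ * s) := by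
  have e : 0 ≤ 4 * ρ * s := mul_nonneg (by linarith only [hρ]) (by linarith only [hs])
  have e1 : x - s + 2 * s = x + s := by ring
  have e2 : t - 4 * ρ * s + 8 * (ρ * s) = t + 4 * ρ * s := by ring
  have e3 : 2 * s - (s - x) = x + s := by ring
  have e4 : 1 - (s - x) = x + 1 - s := by ring
  have hg := gap_eq (s := s) (ρ := ρ) (x := x) (t := t)
  have hf1 := far (x := x) hη
  have hf2 := past' (t := t) (ρ := ρ) hx hx' (absdiff (by linarith only [hη, e]) (by linarith only [ht']) hρ.le (by linarith only [hρ']))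
  have hf3 := pa1 (t := t) (ρ := ρ)
  have hf4 := pa2 (t := t) (ρ := ρ)
  have h : chkT [E.sub k1 o1, E.sub k2 o1, cT] 20
    33292502106671102053987758412015531223844007508619104959648275023997078916574604555575290582239790586453909294977431099449187489047038908313379123
    [NumIs.V.of 10000 2500 2600, NumIs.V.of 10000 0 560,
      NumIs.V.of 10000 0 1250, NumIs.V.of 10000 0 1045] = true := by
    decide +kernel
  obtain ⟨f, hf, hp⟩ := chkT4 h (by norm_num) (x := x) (y := t - 4 * ρ * s) (z := s) (w := ρ)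
    (by norm_num; linarith only [hx]) (by norm_num; linarith only [hx']) (by norm_num; linarith only [hη]) (by norm_num; linarith only [ht', e])
    (by norm_num; linarith only [hs]) (by norm_num; linarith only [hs']) (by norm_num; linarith only [hρ]) (by norm_num; linarith only [hρ'])
  simp only [List.mem_cons, List.not_mem_nil, or_false] at hf
  rcases hf with rfl | rfl | rfl
  · simp only [k1, aft, o1, x1, x2, y1, y2, u2, e0, eT, eK, eS, eR, eH, E.val, NumIs.lkR] at hp
    push_cast at hp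
    try simp only [div_one, sub_add_cancel, sub_sub_cancel, e1, e2, e3, e4] at hp
    linarith only [hg, hf1, hf2, hf3, hp]
  · simp only [k2, aft, o1, x1, x2, y1, y2, u2, e0, eT, eK, eS, eR, eH, E.val, NumIs.lkR] at hp
    push_cast at hp
    try simp only [div_one, sub_add_cancel, sub_sub_cancel, e1, e2, e3, e4] at hp
    linarith only [hg, hf1, hf2, hf4, hp]
  · simp only [cT, x1, x2, y1, y2, u2, e0, eT, eK, eS, eR, eH, E.val, NumIs.lkR] at hp
    push_cast at hp
    try simp only [div_one, sub_add_cancel, sub_sub_cancel, e1, e2, e3, e4] at hp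
    linarith only [ht', hp]

theorem gb1l (hx : 26 / 100 ≤ x) (hx' : x ≤ 27 / 100) (hs : 0 < s) (hs' : s ≤ 1 / 8)
    (ht' : t ≤ 56 / 1000) (hρ : 0 < ρ) (hρ' : ρ ≤ 1045 / 10000)
    (hη : 4 * ρ * s ≤ t) :
    8 * Real.pi * ρ * s * (1 - 4 * s) < fu x t (-(1 / 4)) ρ - fu x t (-(1 / 2) + s) (4 * ρ * s) := by
  have e : 0 ≤ 4 * ρ * s := mul_nonneg (by linarith only [hρ]) (by linarith only [hs])
  have e1 : x - s + 2 * s = x + s := by ring
  have e2 : t - 4 * ρ * s + 8 * (ρ * s) = t + 4 * ρ * s := by ring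
  have e3 : 2 * s - (s - x) = x + s := by ring
  have e4 : 1 - (s - x) = x + 1 - s := by ring
  have hg := gap_eq (s := s) (ρ := ρ) (x := x) (t := t)
  have hf1 := far (x := x) hη
  have hf2 := past (x := x) (t := t) (ρ := ρ)
  have hf3 := pa1 (t := t) (ρ := ρ)
  have hf4 := pa2 (t := t) (ρ := ρ)
  have h : chkT [E.sub l1 o1, E.sub l2 o1, cT] 20
    1743672294928115920741609040156813495948834828956469024270174382402800039637661246561065625504484802622988666086396662688845289206604034076116666729052527189364660937839061253862650830965138256841860493013410648631693396705108106494398508796199281016711582582794302769973501423337943310634471399731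
    [NumIs.V.of 10000 2600 2700, NumIs.V.of 10000 0 560,
      NumIs.V.of 10000 0 1250, NumIs.V.of 10000 0 1045] = true := by
    decide +kernel
  obtain ⟨f, hf, hp⟩ := chkT4 h (by norm_num) (x := x) (y := t - 4 * ρ * s) (z := s) (w := ρ)
    (by norm_num; linarith only [hx]) (by norm_num; linarith only [hx']) (by norm_num; linarith only [hη]) (by norm_num; linarith only [ht', e])
    (by norm_num; linarith only [hs]) (by norm_num; linarith only [hs']) (by norm_num; linarith only [hρ]) (by norm_num; linarith only [hρ'])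
  simp only [List.mem_cons, List.not_mem_nil, or_false] at hf
  rcases hf with rfl | rfl | rfl
  · simp only [l1, aft, o1, x1, x2, y1, y2, u2, e0, eT, eK, eS, eR, eH, E.val, NumIs.lkR] at hp
    push_cast at hp
    try simp only [div_one, sub_add_cancel, sub_sub_cancel, e1, e2, e3, e4] at hp
    linarith only [hg, hf1, hf2, hf3, hp]
  · simp only [l2, aft, o1, x1, x2, y1, y2, u2, e0, eT, eK, eS, eR, eH, E.val, NumIs.lkR] at hp
    push_cast at hp
    try simp only [div_one, sub_add_cancel, sub_sub_cancel, e1, e2, e3, e4] at hp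
    linarith only [hg, hf1, hf2, hf4, hp]
  · simp only [cT, x1, x2, y1, y2, u2, e0, eT, eK, eS, eR, eH, E.val, NumIs.lkR] at hp
    push_cast at hp
    try simp only [div_one, sub_add_cancel, sub_sub_cancel, e1, e2, e3, e4] at hp
    linarith only [ht', hp]

/-- numerical minimum: .0168 -/
theorem gb1 (hx : 1 / 10 ≤ x) (hx' : x ≤ 27 / 100) (ht' : t ≤ 56 / 1000)
    (hs : 0 < s) (hs' : s ≤ 1 / 8) (hsx : s ≤ x) (hρ : 0 < ρ) (hρ' : ρ ≤ 1045 / 10000)
    (hη : 4 * ρ * s ≤ t) :
    8 * Real.pi * ρ * s * (1 - 4 * s) < fu x t (-(1 / 4)) ρ - fu x t (-(1 / 2) + s) (4 * ρ * s) := by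
  rcases le_total x (24 / 100) with h1 | h1
  · rcases le_total (5 / 100) (x - s) with h2 | h2
    · exact gb1a hx h1 hs hs' ht' hρ hρ' hη h2
    · rcases le_total (1 / 100) (x - s) with h3 | h3
      · exact gb1b hx hs hs' ht' hρ hρ' hη h3 h2
      · exact gb1c hx hs hs' ht' hρ hρ' hη hsx h3
  · rcases le_total x (1 / 4) with h2 | h2
    · exact gb1h h1 h2 hs hs' ht' hρ hρ' hη
    · rcases le_total x (26 / 100) with h3 | h3
      · exact gb1k h2 h3 hs hs' ht' hρ hρ' hη
      · exact gb1l h3 hx' hs hs' ht' hρ hρ' hη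

theorem gb2a (hx : 1 / 10 ≤ x) (hx' : x ≤ 24 / 100) (hs : 1 / 8 ≤ s) (hs' : s ≤ 23 / 100)
    (ht' : t ≤ 56 / 1000) (hρ : 0 < ρ) (hρ' : ρ ≤ 1045 / 10000)
    (hη : 4 * ρ * s ≤ t)
    (hw : w.re = x) (hwi : w.im = t) (hζ : ζ.re = -(1 / 2) + s) (hζi : ζ.im = 4 * ρ * s)
    (hd : 3 / 100 ≤ x - s) :
    8 * Real.pi * ρ * s * (1 - 4 * s) < fu x t (-(1 / 4)) ρ - fu x t (-(1 / 2) + s) (4 * ρ * s) ∨
      8 * Real.pi * ρ * (8 * s - 1) < Dm (4 * ρ) w ζ := by
  have e : 0 ≤ 4 * ρ * s := mul_nonneg (by linarith only [hρ]) (by linarith only [hs, hρ, hρ'])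
  have e1 : x - s + 2 * s = x + s := by ring
  have e2 : t - 4 * ρ * s + 8 * (ρ * s) = t + 4 * ρ * s := by ring
  have e3 : 2 * s - (s - x) = x + s := by ring
  have e4 : 1 - (s - x) = x + 1 - s := by ring
  have hg := gap_eq (s := s) (ρ := ρ) (x := x) (t := t)
  have hf1 := D1_le hw hwi hζ hζi hρ.le (by linarith only [hs, hρ, hρ', hd]) (by linarith only [hx', hρ, hρ', hd]) (by linarith only [hρ, hρ', hd]) (by linarith only [hx', hs, hρ, hρ']) hη
  have hf5 := far (x := x) hη
  have h : chkT [E.sub g0 o1, E.sub D0 o4, cT, cA 30] 20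
    9058607981166595042471212688287914927136721159452936082156442248181159748713931009480913445172534189700842896811432703073481602450290683254758853364900347613001890768808626662227917734187713806852307758806891265071982463183480336784614029297923878274839620444367250692106106355924676860312284684723710000806981626992305183953916674
    [NumIs.V.of 10000 1550 2400, NumIs.V.of 10000 0 560,
      NumIs.V.of 10000 1250 2300, NumIs.V.of 10000 0 1045] = true := by
    decide +kernel
  obtain ⟨f, hf, hp⟩ := chkT4 h (by norm_num) (x := x) (y := t - 4 * ρ * s) (z := s) (w := ρ)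
    (by norm_num; linarith only [hs, hd]) (by norm_num; linarith only [hx']) (by norm_num; linarith only [hη]) (by norm_num; linarith only [ht', e])
    (by norm_num; linarith only [hs]) (by norm_num; linarith only [hx', hρ, hρ', hd]) (by norm_num; linarith only [hρ]) (by norm_num; linarith only [hρ'])
  simp only [List.mem_cons, List.not_mem_nil, or_false] at hf
  rcases hf with rfl | rfl | rfl | rfl
  · simp only [g0, ba, o1, x1, x2, y1, y2, u2, e0, eT, eK, eS, eR, eH, E.val, NumIs.lkR] at hp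
    push_cast at hp
    try simp only [div_one, sub_add_cancel, sub_sub_cancel, e1, e2, e3, e4] at hp
    left
    linarith only [hg, hf5, hp]
  · simp only [D0, DX, o4, x1, x2, y1, y2, u2, e0, eT, eK, eS, eR, eH, E.val, NumIs.lkR] at hp
    push_cast at hp
    try simp only [div_one, sub_add_cancel, sub_sub_cancel, e1, e2, e3, e4] at hp
    right
    linarith only [hf1, hp]
  · simp only [cT, x1, x2, y1, y2, u2, e0, eT, eK, eS, eR, eH, E.val, NumIs.lkR] at hp
    push_cast at hp
    try simp only [div_one, sub_add_cancel, sub_sub_cancel, e1, e2, e3, e4] at hp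
    linarith only [ht', hp]
  · simp only [cA, x1, x2, y1, y2, u2, e0, eT, eK, eS, eR, eH, E.val, NumIs.lkR] at hp
    push_cast at hp
    try simp only [div_one, sub_add_cancel, sub_sub_cancel, e1, e2, e3, e4] at hp
    linarith only [hd, hp]

theorem gb2b (hs : 1 / 8 ≤ s) (hs' : s ≤ 23 / 100)
    (ht' : t ≤ 56 / 1000) (hρ : 0 < ρ) (hρ' : ρ ≤ 1045 / 10000)
    (hη : 4 * ρ * s ≤ t)
    (hw : w.re = x) (hwi : w.im = t) (hζ : ζ.re = -(1 / 2) + s) (hζi : ζ.im = 4 * ρ * s)
    (hd : 1 / 100 ≤ x - s) (hd' : x - s ≤ 3 / 100) :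
    8 * Real.pi * ρ * (8 * s - 1) < Dm (4 * ρ) w ζ := by
  have e : 0 ≤ 4 * ρ * s := mul_nonneg (by linarith only [hρ]) (by linarith only [hs, hρ, hρ'])
  have e1 : x - s + 2 * s = x + s := by ring
  have e2 : t - 4 * ρ * s + 8 * (ρ * s) = t + 4 * ρ * s := by ring
  have e3 : 2 * s - (s - x) = x + s := by ring
  have e4 : 1 - (s - x) = x + 1 - s := by ring
  have hf1 := D1_le hw hwi hζ hζi hρ.le (by linarith only [hs, hρ, hρ', hd]) (by linarith only [hs', hρ, hρ', hd']) (by linarith only [hρ, hρ', hd]) (by linarith only [hρ, hρ', hd']) hη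
  have h : chkT [E.sub D1 o4, cT] 20
    6977392202408728857481475477036660711546481474184930836070783537389272890316436974221656177758081386584283716952225340378525779292729601
    [NumIs.V.of 10000 100 300, NumIs.V.of 10000 0 560,
      NumIs.V.of 10000 1250 2300, NumIs.V.of 10000 0 1045] = true := by
    decide +kernel
  obtain ⟨f, hf, hp⟩ := chkT4 h (by norm_num) (x := x - s) (y := t - 4 * ρ * s) (z := s) (w := ρ)
    (by norm_num; linarith only [hd]) (by norm_num; linarith only [hd']) (by norm_num; linarith only [hη]) (by norm_num; linarith only [ht', e])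
    (by norm_num; linarith only [hs]) (by norm_num; linarith only [hs']) (by norm_num; linarith only [hρ]) (by norm_num; linarith only [hρ'])
  simp only [List.mem_cons, List.not_mem_nil, or_false] at hf
  rcases hf with rfl | rfl
  · simp only [D1, DX, o4, x1, x2, y1, y2, u2, e0, eT, eK, eS, eR, eH, E.val, NumIs.lkR] at hp
    push_cast at hp
    try simp only [div_one, sub_add_cancel, sub_sub_cancel, e1, e2, e3, e4] at hp
    linarith only [hf1, hp]
  · simp only [cT, x1, x2, y1, y2, u2, e0, eT, eK, eS, eR, eH, E.val, NumIs.lkR] at hp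
    push_cast at hp
    try simp only [div_one, sub_add_cancel, sub_sub_cancel, e1, e2, e3, e4] at hp
    linarith only [ht', hp]

theorem gb2c (hs : 1 / 8 ≤ s) (hs' : s ≤ 23 / 100)
    (ht' : t ≤ 56 / 1000) (hρ : 0 < ρ) (hρ' : ρ ≤ 1045 / 10000)
    (hη : 4 * ρ * s ≤ t)
    (hw : w.re = x) (hwi : w.im = t) (hζ : ζ.re = -(1 / 2) + s) (hζi : ζ.im = 4 * ρ * s)
    (hd : s ≤ x) (hd' : x - s ≤ 1 / 100) (hne : x ≠ s ∨ t ≠ 4 * ρ * s) :
    8 * Real.pi * ρ * (8 * s - 1) < Dm (4 * ρ) w ζ := by
  have e : 0 ≤ 4 * ρ * s := mul_nonneg (by linarith only [hρ]) (by linarith only [hs, hρ, hρ'])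
  have e1 : x - s + 2 * s = x + s := by ring
  have e2 : t - 4 * ρ * s + 8 * (ρ * s) = t + 4 * ρ * s := by ring
  have e3 : 2 * s - (s - x) = x + s := by ring
  have e4 : 1 - (s - x) = x + 1 - s := by ring
  have hf1 := De_le hw hwi hζ hζi hρ.le (by linarith only [hs, hρ, hρ', hd]) (by linarith only [hs', hρ, hρ', hd']) hd (by linarith only [hρ, hρ', hd']) hη hne
  have h : chkT [E.sub De o4, cT] 20
    284569976777053076178239223960368258720877716830483078777737889060230434586264337
    [NumIs.V.of 10000 0 100, NumIs.V.of 10000 0 560,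
      NumIs.V.of 10000 1250 2300, NumIs.V.of 10000 0 1045] = true := by
    decide +kernel
  obtain ⟨f, hf, hp⟩ := chkT4 h (by norm_num) (x := x - s) (y := t - 4 * ρ * s) (z := s) (w := ρ)
    (by norm_num; linarith only [hd]) (by norm_num; linarith only [hd']) (by norm_num; linarith only [hη]) (by norm_num; linarith only [ht', e])
    (by norm_num; linarith only [hs]) (by norm_num; linarith only [hs']) (by norm_num; linarith only [hρ]) (by norm_num; linarith only [hρ'])
  simp only [List.mem_cons, List.not_mem_nil, or_false] at hf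
  rcases hf with rfl | rfl
  · simp only [De, DX, o4, x1, x2, y1, y2, u2, e0, eT, eK, eS, eR, eH, E.val, NumIs.lkR] at hp
    push_cast at hp
    try simp only [div_one, sub_add_cancel, sub_sub_cancel, e1, e2, e3, e4] at hp
    linarith only [hf1, hp]
  · simp only [cT, x1, x2, y1, y2, u2, e0, eT, eK, eS, eR, eH, E.val, NumIs.lkR] at hp
    push_cast at hp
    try simp only [div_one, sub_add_cancel, sub_sub_cancel, e1, e2, e3, e4] at hp
    linarith only [ht', hp]

theorem gb2h (hx : 24 / 100 ≤ x) (hx' : x ≤ 1 / 4) (hs : 1 / 8 ≤ s) (hs' : s ≤ 23 / 100)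
    (ht' : t ≤ 56 / 1000) (hρ : 0 < ρ) (hρ' : ρ ≤ 1045 / 10000)
    (hη : 4 * ρ * s ≤ t)
    (hw : w.re = x) (hwi : w.im = t) (hζ : ζ.re = -(1 / 2) + s) (hζi : ζ.im = 4 * ρ * s) :
    8 * Real.pi * ρ * s * (1 - 4 * s) < fu x t (-(1 / 4)) ρ - fu x t (-(1 / 2) + s) (4 * ρ * s) ∨
      8 * Real.pi * ρ * (8 * s - 1) < Dm (4 * ρ) w ζ := by
  have e : 0 ≤ 4 * ρ * s := mul_nonneg (by linarith only [hρ]) (by linarith only [hs, hρ, hρ'])
  have e1 : x - s + 2 * s = x + s := by ring
  have e2 : t - 4 * ρ * s + 8 * (ρ * s) = t + 4 * ρ * s := by ring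
  have e3 : 2 * s - (s - x) = x + s := by ring
  have e4 : 1 - (s - x) = x + 1 - s := by ring
  have hg := gap_eq (s := s) (ρ := ρ) (x := x) (t := t)
  have hf1 := D1_le hw hwi hζ hζi hρ.le (by linarith only [hx, hs, hρ, hρ']) (by linarith only [hx', hs', hρ, hρ']) (by linarith only [hx, hs', hρ, hρ']) (by linarith only [hx', hs, hρ, hρ']) hη
  have hf5 := far (x := x) hη
  have hf2 := half (t := t) (ρ := ρ) hx hx' (absdiff (by linarith only [hη, e]) (by linarith only [ht']) hρ.le (by linarith only [hρ']))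
  have hf3 := pa1 (t := t) (ρ := ρ)
  have hf4 := pa2 (t := t) (ρ := ρ)
  have h : chkT [E.sub h1 o1, E.sub h2 o1, E.sub D0 o4, cT] 20
    143027575799957883666299694983153240138409439847038019453007888161213580338018684562021876750298071405837069373575283211158773615795680942588466
    [NumIs.V.of 10000 2400 2500, NumIs.V.of 10000 0 560,
      NumIs.V.of 10000 1250 2300, NumIs.V.of 10000 0 1045] = true := by
    decide +kernel
  obtain ⟨f, hf, hp⟩ := chkT4 h (by norm_num) (x := x) (y := t - 4 * ρ * s) (z := s) (w := ρ)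
    (by norm_num; linarith only [hx]) (by norm_num; linarith only [hx']) (by norm_num; linarith only [hη]) (by norm_num; linarith only [ht', e])
    (by norm_num; linarith only [hs]) (by norm_num; linarith only [hs']) (by norm_num; linarith only [hρ]) (by norm_num; linarith only [hρ'])
  simp only [List.mem_cons, List.not_mem_nil, or_false] at hf
  rcases hf with rfl | rfl | rfl | rfl
  · simp only [h1, aft, o1, x1, x2, y1, y2, u2, e0, eT, eK, eS, eR, eH, E.val, NumIs.lkR] at hp
    push_cast at hp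
    try simp only [div_one, sub_add_cancel, sub_sub_cancel, e1, e2, e3, e4] at hp
    left
    linarith only [hg, hf5, hf2, hf3, hp]
  · simp only [h2, aft, o1, x1, x2, y1, y2, u2, e0, eT, eK, eS, eR, eH, E.val, NumIs.lkR] at hp
    push_cast at hp
    try simp only [div_one, sub_add_cancel, sub_sub_cancel, e1, e2, e3, e4] at hp
    left
    linarith only [hg, hf5, hf2, hf4, hp]
  · simp only [D0, DX, o4, x1, x2, y1, y2, u2, e0, eT, eK, eS, eR, eH, E.val, NumIs.lkR] at hp
    push_cast at hp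
    try simp only [div_one, sub_add_cancel, sub_sub_cancel, e1, e2, e3, e4] at hp
    right
    linarith only [hf1, hp]
  · simp only [cT, x1, x2, y1, y2, u2, e0, eT, eK, eS, eR, eH, E.val, NumIs.lkR] at hp
    push_cast at hp
    try simp only [div_one, sub_add_cancel, sub_sub_cancel, e1, e2, e3, e4] at hp
    linarith only [ht', hp]

theorem gb2k (hx : 1 / 4 ≤ x) (hx' : x ≤ 26 / 100) (hs : 1 / 8 ≤ s) (hs' : s ≤ 23 / 100)
    (ht' : t ≤ 56 / 1000) (hρ : 0 < ρ) (hρ' : ρ ≤ 1045 / 10000)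
    (hη : 4 * ρ * s ≤ t)
    (hw : w.re = x) (hwi : w.im = t) (hζ : ζ.re = -(1 / 2) + s) (hζi : ζ.im = 4 * ρ * s) :
    8 * Real.pi * ρ * s * (1 - 4 * s) < fu x t (-(1 / 4)) ρ - fu x t (-(1 / 2) + s) (4 * ρ * s) ∨
      8 * Real.pi * ρ * (8 * s - 1) < Dm (4 * ρ) w ζ := by
  have e : 0 ≤ 4 * ρ * s := mul_nonneg (by linarith only [hρ]) (by linarith only [hs, hρ, hρ'])
  have e1 : x - s + 2 * s = x + s := by ring
  have e2 : t - 4 * ρ * s + 8 * (ρ * s) = t + 4 * ρ * s := by ring
  have e3 : 2 * s - (s - x) = x + s := by ring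
  have e4 : 1 - (s - x) = x + 1 - s := by ring
  have hg := gap_eq (s := s) (ρ := ρ) (x := x) (t := t)
  have hf1 := D1_le hw hwi hζ hζi hρ.le (by linarith only [hx, hs, hρ, hρ']) (by linarith only [hx', hs', hρ, hρ']) (by linarith only [hx, hs', hρ, hρ']) (by linarith only [hx', hs, hρ, hρ']) hη
  have hf5 := far (x := x) hη
  have hf2 := past' (t := t) (ρ := ρ) hx hx' (absdiff (by linarith only [hη, e]) (by linarith only [ht']) hρ.le (by linarith only [hρ']))
  have hf3 := pa1 (t := t) (ρ := ρ)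
  have hf4 := pa2 (t := t) (ρ := ρ)
  have h : chkT [E.sub k1 o1, E.sub k2 o1, E.sub D0 o4, cT] 20
    64693210246218910168887960546701537572741389615303999803854077343366235485719096300998600676772518947794910598436429324791516648262453753482548172029428946881178409659561099126011527106927990850861978270732178292216626
    [NumIs.V.of 10000 2500 2600, NumIs.V.of 10000 0 560,
      NumIs.V.of 10000 1250 2300, NumIs.V.of 10000 0 1045] = true := by
    decide +kernel
  obtain ⟨f, hf, hp⟩ := chkT4 h (by norm_num) (x := x) (y := t - 4 * ρ * s) (z := s) (w := ρ)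
    (by norm_num; linarith only [hx]) (by norm_num; linarith only [hx']) (by norm_num; linarith only [hη]) (by norm_num; linarith only [ht', e])
    (by norm_num; linarith only [hs]) (by norm_num; linarith only [hs']) (by norm_num; linarith only [hρ]) (by norm_num; linarith only [hρ'])
  simp only [List.mem_cons, List.not_mem_nil, or_false] at hf
  rcases hf with rfl | rfl | rfl | rfl
  · simp only [k1, aft, o1, x1, x2, y1, y2, u2, e0, eT, eK, eS, eR, eH, E.val, NumIs.lkR] at hp
    push_cast at hp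
    try simp only [div_one, sub_add_cancel, sub_sub_cancel, e1, e2, e3, e4] at hp
    left
    linarith only [hg, hf5, hf2, hf3, hp]
  · simp only [k2, aft, o1, x1, x2, y1, y2, u2, e0, eT, eK, eS, eR, eH, E.val, NumIs.lkR] at hp
    push_cast at hp
    try simp only [div_one, sub_add_cancel, sub_sub_cancel, e1, e2, e3, e4] at hp
    left
    linarith only [hg, hf5, hf2, hf4, hp]
  · simp only [D0, DX, o4, x1, x2, y1, y2, u2, e0, eT, eK, eS, eR, eH, E.val, NumIs.lkR] at hp
    push_cast at hp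
    try simp only [div_one, sub_add_cancel, sub_sub_cancel, e1, e2, e3, e4] at hp
    right
    linarith only [hf1, hp]
  · simp only [cT, x1, x2, y1, y2, u2, e0, eT, eK, eS, eR, eH, E.val, NumIs.lkR] at hp
    push_cast at hp
    try simp only [div_one, sub_add_cancel, sub_sub_cancel, e1, e2, e3, e4] at hp
    linarith only [ht', hp]

theorem gb2l_h1_q1 : Pool.Agent.Work.NumUs.runT [E.sub l1 o1, E.sub l2 o1, E.sub D0 o4, cT] 18
    167054034270936170404184897355943165493983135694850401461873348808259035665616387448147917565871201995367394943193947145033554268709651903197069075755709821522412865664052236239816375342630076929217805343973854497022907548017309793111989623675229754886528194422756144717382522796585684237866953631972020568425956826955454755580343244366243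
    (Pool.Agent.Work.NumIs.setL 3 (Pool.Agent.Work.NumIs.setL 2 ([NumIs.V.of 10000 2600 2700, NumIs.V.of 10000 0 560, NumIs.V.of 10000 1250 2300, NumIs.V.of 10000 0 1045]))) =
    8636491149855466212413400274136718870368236834368359226035956506389677862007547352416354409090800922847817538875083320931299749779370647021092385252560682128100627830680751992477887549459336058110090084763711325804739776758106577078764492508436397729251381570434823469503057799286479430229777081102445930838831634 := by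
  decide +kernel

theorem gb2l_h1_q2 : Pool.Agent.Work.NumUs.runT [E.sub l1 o1, E.sub l2 o1, E.sub D0 o4, cT] 18
    8636491149855466212413400274136718870368236834368359226035956506389677862007547352416354409090800922847817538875083320931299749779370647021092385252560682128100627830680751992477887549459336058110090084763711325804739776758106577078764492508436397729251381570434823469503057799286479430229777081102445930838831633
    (Pool.Agent.Work.NumIs.setR 3 (Pool.Agent.Work.NumIs.setL 2 ([NumIs.V.of 10000 2600 2700, NumIs.V.of 10000 0 560, NumIs.V.of 10000 1250 2300, NumIs.V.of 10000 0 1045]))) =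
    742641632625006719459110732569336099204470665934408436483124674308069481376840798205768171024115626912983762391629573124417827815217095647492447528201900379648382828764439523890 := by
  decide +kernel

theorem gb2l_h1_q3 : Pool.Agent.Work.NumUs.runT [E.sub l1 o1, E.sub l2 o1, E.sub D0 o4, cT] 18
    46415102039062919966194420785583506200279416620900527280195292144254342586052549887860510689007226682061485149476848320276114238451068477968277970512618773728023926797777470243
    (Pool.Agent.Work.NumIs.setL 1 (Pool.Agent.Work.NumIs.setR 2 ([NumIs.V.of 10000 2600 2700, NumIs.V.of 10000 0 560, NumIs.V.of 10000 1250 2300, NumIs.V.of 10000 0 1045]))) =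
    14179518303467796294632228 := by
  decide +kernel

theorem gb2l_h1_q4 : Pool.Agent.Work.NumUs.runT [E.sub l1 o1, E.sub l2 o1, E.sub D0 o4, cT] 18
    14179518303467796294632227
    (Pool.Agent.Work.NumIs.setR 1 (Pool.Agent.Work.NumIs.setR 2 ([NumIs.V.of 10000 2600 2700, NumIs.V.of 10000 0 560, NumIs.V.of 10000 1250 2300, NumIs.V.of 10000 0 1045]))) =
    1 := by
  decide +kernel

theorem gb2l (hx : 26 / 100 ≤ x) (hx' : x ≤ 27 / 100) (hs : 1 / 8 ≤ s) (hs' : s ≤ 23 / 100)
    (ht' : t ≤ 56 / 1000) (hρ : 0 < ρ) (hρ' : ρ ≤ 1045 / 10000)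
    (hη : 4 * ρ * s ≤ t)
    (hw : w.re = x) (hwi : w.im = t) (hζ : ζ.re = -(1 / 2) + s) (hζi : ζ.im = 4 * ρ * s) :
    8 * Real.pi * ρ * s * (1 - 4 * s) < fu x t (-(1 / 4)) ρ - fu x t (-(1 / 2) + s) (4 * ρ * s) ∨
      8 * Real.pi * ρ * (8 * s - 1) < Dm (4 * ρ) w ζ := by
  have e : 0 ≤ 4 * ρ * s := mul_nonneg (by linarith only [hρ]) (by linarith only [hs, hρ, hρ'])
  have e1 : x - s + 2 * s = x + s := by ring
  have e2 : t - 4 * ρ * s + 8 * (ρ * s) = t + 4 * ρ * s := by ring
  have e3 : 2 * s - (s - x) = x + s := by ring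
  have e4 : 1 - (s - x) = x + 1 - s := by ring
  have hg := gap_eq (s := s) (ρ := ρ) (x := x) (t := t)
  have hf1 := D1_le hw hwi hζ hζi hρ.le (by linarith only [hx, hs, hρ, hρ']) (by linarith only [hx', hs', hρ, hρ']) (by linarith only [hx, hs', hρ, hρ']) (by linarith only [hx', hs, hρ, hρ']) hη
  have hf5 := far (x := x) hη
  have hf2 := past (x := x) (t := t) (ρ := ρ)
  have hf3 := pa1 (t := t) (ρ := ρ)
  have hf4 := pa2 (t := t) (ρ := ρ)
  have h : chkT [E.sub l1 o1, E.sub l2 o1, E.sub D0 o4, cT] 20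
    42765832773359659623471333723121450366459682737881702774239577294914313130397795186725866896863027710814053105457650469128589892789670887218449683393461714309737693609997372477392992087713299693879758168057306751237864332292431307036669343660858817250951217772225573047649925835925935164893940129784837265517044947700596417428567870557758258
    [NumIs.V.of 10000 2600 2700, NumIs.V.of 10000 0 560,
      NumIs.V.of 10000 1250 2300, NumIs.V.of 10000 0 1045] = true :=
      Pool.Agent.Work.NumUs.chkT_of (Pool.Agent.Work.NumUs.runT_split rfl rfl rfl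
        (Pool.Agent.Work.NumUs.runT_split rfl rfl rfl
          gb2l_h1_q1
          gb2l_h1_q2)
        (Pool.Agent.Work.NumUs.runT_split rfl rfl rfl
          gb2l_h1_q3
          gb2l_h1_q4))
  obtain ⟨f, hf, hp⟩ := chkT4 h (by norm_num) (x := x) (y := t - 4 * ρ * s) (z := s) (w := ρ)
    (by norm_num; linarith only [hx]) (by norm_num; linarith only [hx']) (by norm_num; linarith only [hη]) (by norm_num; linarith only [ht', e])
    (by norm_num; linarith only [hs]) (by norm_num; linarith only [hs']) (by norm_num; linarith only [hρ]) (by norm_num; linarith only [hρ'])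
  simp only [List.mem_cons, List.not_mem_nil, or_false] at hf
  rcases hf with rfl | rfl | rfl | rfl
  · simp only [l1, aft, o1, x1, x2, y1, y2, u2, e0, eT, eK, eS, eR, eH, E.val, NumIs.lkR] at hp
    push_cast at hp
    try simp only [div_one, sub_add_cancel, sub_sub_cancel, e1, e2, e3, e4] at hp
    left
    linarith only [hg, hf5, hf2, hf3, hp]
  · simp only [l2, aft, o1, x1, x2, y1, y2, u2, e0, eT, eK, eS, eR, eH, E.val, NumIs.lkR] at hp
    push_cast at hp
    try simp only [div_one, sub_add_cancel, sub_sub_cancel, e1, e2, e3, e4] at hp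
    left
    linarith only [hg, hf5, hf2, hf4, hp]
  · simp only [D0, DX, o4, x1, x2, y1, y2, u2, e0, eT, eK, eS, eR, eH, E.val, NumIs.lkR] at hp
    push_cast at hp
    try simp only [div_one, sub_add_cancel, sub_sub_cancel, e1, e2, e3, e4] at hp
    right
    linarith only [hf1, hp]
  · simp only [cT, x1, x2, y1, y2, u2, e0, eT, eK, eS, eR, eH, E.val, NumIs.lkR] at hp
    push_cast at hp
    try simp only [div_one, sub_add_cancel, sub_sub_cancel, e1, e2, e3, e4] at hp
    linarith only [ht', hp]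

/-- numerical minimum of the better alternative: .0148 -/
theorem gb2 (hx : 1 / 10 ≤ x) (hx' : x ≤ 27 / 100) (ht' : t ≤ 56 / 1000)
    (hs : 1 / 8 ≤ s) (hs' : s ≤ 23 / 100) (hsx : s ≤ x) (hρ : 0 < ρ) (hρ' : ρ ≤ 1045 / 10000)
    (hη : 4 * ρ * s ≤ t) (hne : x ≠ s ∨ t ≠ 4 * ρ * s)
    (hw : w.re = x) (hwi : w.im = t) (hζ : ζ.re = -(1 / 2) + s) (hζi : ζ.im = 4 * ρ * s) :
    8 * Real.pi * ρ * s * (1 - 4 * s) < fu x t (-(1 / 4)) ρ - fu x t (-(1 / 2) + s) (4 * ρ * s) ∨
      8 * Real.pi * ρ * (8 * s - 1) < Dm (4 * ρ) w ζ := by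
  rcases le_total x (24 / 100) with h1 | h1
  · rcases le_total (3 / 100) (x - s) with h2 | h2
    · exact gb2a hx h1 hs hs' ht' hρ hρ' hη hw hwi hζ hζi h2
    · right
      rcases le_total (1 / 100) (x - s) with h3 | h3
      · exact gb2b hs hs' ht' hρ hρ' hη hw hwi hζ hζi h3 h2
      · exact gb2c hs hs' ht' hρ hρ' hη hw hwi hζ hζi hsx h3 hne
  · rcases le_total x (1 / 4) with h2 | h2
    · exact gb2h h1 h2 hs hs' ht' hρ hρ' hη hw hwi hζ hζi
    · rcases le_total x (26 / 100) with h3 | h3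
      · exact gb2k h2 h3 hs hs' ht' hρ hρ' hη hw hwi hζ hζi
      · exact gb2l h3 hx' hs hs' ht' hρ hρ' hη hw hwi hζ hζi

theorem gb3a (hx' : x ≤ 27 / 100) (hs : 23 / 100 ≤ s) (hs' : s ≤ 1 / 4)
    (ht' : t ≤ 56 / 1000) (hρ : 0 < ρ) (hρ' : ρ ≤ 1045 / 10000)
    (hη : 4 * ρ * s ≤ t)
    (hw : w.re = x) (hwi : w.im = t) (hζ : ζ.re = -(1 / 2) + s) (hζi : ζ.im = 4 * ρ * s)
    (hd : 1 / 100 ≤ x - s) :
    8 * Real.pi * ρ * (8 * s - 1) < Dm (4 * ρ) w ζ := by
  have e : 0 ≤ 4 * ρ * s := mul_nonneg (by linarith only [hρ]) (by linarith only [hs, hρ, hρ'])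
  have e1 : x - s + 2 * s = x + s := by ring
  have e2 : t - 4 * ρ * s + 8 * (ρ * s) = t + 4 * ρ * s := by ring
  have e3 : 2 * s - (s - x) = x + s := by ring
  have e4 : 1 - (s - x) = x + 1 - s := by ring
  have hf1 := D1_le hw hwi hζ hζi hρ.le (by linarith only [hs, hρ, hρ', hd]) (by linarith only [hx', hs', hρ, hρ']) (by linarith only [hρ, hρ', hd]) (by linarith only [hx', hs, hρ, hρ']) hη
  have h : chkT [E.sub D1 o4, cT, cB 27] 20
    4772167799722768346866130691241699988737980422035549197652819239285608835774231615648001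
    [NumIs.V.of 10000 100 400, NumIs.V.of 10000 0 560,
      NumIs.V.of 10000 2300 2500, NumIs.V.of 10000 0 1045] = true := by
    decide +kernel
  obtain ⟨f, hf, hp⟩ := chkT4 h (by norm_num) (x := x - s) (y := t - 4 * ρ * s) (z := s) (w := ρ)
    (by norm_num; linarith only [hd]) (by norm_num; linarith only [hx', hs]) (by norm_num; linarith only [hη]) (by norm_num; linarith only [ht', e])
    (by norm_num; linarith only [hs]) (by norm_num; linarith only [hs']) (by norm_num; linarith only [hρ]) (by norm_num; linarith only [hρ'])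
  simp only [List.mem_cons, List.not_mem_nil, or_false] at hf
  rcases hf with rfl | rfl | rfl
  · simp only [D1, DX, o4, x1, x2, y1, y2, u2, e0, eT, eK, eS, eR, eH, E.val, NumIs.lkR] at hp
    push_cast at hp
    try simp only [div_one, sub_add_cancel, sub_sub_cancel, e1, e2, e3, e4] at hp
    linarith only [hf1, hp]
  · simp only [cT, x1, x2, y1, y2, u2, e0, eT, eK, eS, eR, eH, E.val, NumIs.lkR] at hp
    push_cast at hp
    try simp only [div_one, sub_add_cancel, sub_sub_cancel, e1, e2, e3, e4] at hp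
    linarith only [ht', hp]
  · simp only [cB, x1, x2, y1, y2, u2, e0, eT, eK, eS, eR, eH, E.val, NumIs.lkR] at hp
    push_cast at hp
    try simp only [div_one, sub_add_cancel, sub_sub_cancel, e1, e2, e3, e4] at hp
    linarith only [hx', hp]

theorem gb3c (hs : 23 / 100 ≤ s) (hs' : s ≤ 1 / 4)
    (ht' : t ≤ 56 / 1000) (hρ : 0 < ρ) (hρ' : ρ ≤ 1045 / 10000)
    (hη : 4 * ρ * s ≤ t)
    (hw : w.re = x) (hwi : w.im = t) (hζ : ζ.re = -(1 / 2) + s) (hζi : ζ.im = 4 * ρ * s)
    (hd : s ≤ x) (hd' : x - s ≤ 1 / 100) (hne : x ≠ s ∨ t ≠ 4 * ρ * s) :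
    8 * Real.pi * ρ * (8 * s - 1) < Dm (4 * ρ) w ζ := by
  have e : 0 ≤ 4 * ρ * s := mul_nonneg (by linarith only [hρ]) (by linarith only [hs, hρ, hρ'])
  have e1 : x - s + 2 * s = x + s := by ring
  have e2 : t - 4 * ρ * s + 8 * (ρ * s) = t + 4 * ρ * s := by ring
  have e3 : 2 * s - (s - x) = x + s := by ring
  have e4 : 1 - (s - x) = x + 1 - s := by ring
  have hf1 := De_le hw hwi hζ hζi hρ.le (by linarith only [hs, hρ, hρ', hd]) (by linarith only [hs', hρ, hρ', hd']) hd (by linarith only [hρ, hρ', hd']) hη hne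
  have h : chkT [E.sub De o4, cT] 20
    760163504978173091264247071505
    [NumIs.V.of 10000 0 100, NumIs.V.of 10000 0 560,
      NumIs.V.of 10000 2300 2500, NumIs.V.of 10000 0 1045] = true := by
    decide +kernel
  obtain ⟨f, hf, hp⟩ := chkT4 h (by norm_num) (x := x - s) (y := t - 4 * ρ * s) (z := s) (w := ρ)
    (by norm_num; linarith only [hd]) (by norm_num; linarith only [hd']) (by norm_num; linarith only [hη]) (by norm_num; linarith only [ht', e])
    (by norm_num; linarith only [hs]) (by norm_num; linarith only [hs']) (by norm_num; linarith only [hρ]) (by norm_num; linarith only [hρ'])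
  simp only [List.mem_cons, List.not_mem_nil, or_false] at hf
  rcases hf with rfl | rfl
  · simp only [De, DX, o4, x1, x2, y1, y2, u2, e0, eT, eK, eS, eR, eH, E.val, NumIs.lkR] at hp
    push_cast at hp
    try simp only [div_one, sub_add_cancel, sub_sub_cancel, e1, e2, e3, e4] at hp
    linarith only [hf1, hp]
  · simp only [cT, x1, x2, y1, y2, u2, e0, eT, eK, eS, eR, eH, E.val, NumIs.lkR] at hp
    push_cast at hp
    try simp only [div_one, sub_add_cancel, sub_sub_cancel, e1, e2, e3, e4] at hp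
    linarith only [ht', hp]

/-- numerical minimum: .22 -/
theorem gb3 (hx' : x ≤ 27 / 100) (ht' : t ≤ 56 / 1000)
    (hs : 23 / 100 ≤ s) (hs' : s ≤ 1 / 4) (hsx : s ≤ x) (hρ : 0 < ρ) (hρ' : ρ ≤ 1045 / 10000)
    (hη : 4 * ρ * s ≤ t) (hne : x ≠ s ∨ t ≠ 4 * ρ * s)
    (hw : w.re = x) (hwi : w.im = t) (hζ : ζ.re = -(1 / 2) + s) (hζi : ζ.im = 4 * ρ * s) :
    8 * Real.pi * ρ * (8 * s - 1) < Dm (4 * ρ) w ζ := by
  rcases le_total (1 / 100) (x - s) with h3 | h3
  · exact gb3a hx' hs hs' ht' hρ hρ' hη hw hwi hζ hζi h3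
  · exact gb3c hs hs' ht' hρ hρ' hη hw hwi hζ hζi hsx h3 hne

theorem gca (hx : 1 / 10 ≤ x) (hs : 1 / 10 ≤ s) (hs' : s ≤ 1 / 4)
    (ht' : t ≤ 56 / 1000) (hρ : 0 < ρ) (hρ' : ρ ≤ 1045 / 10000)
    (hη : 4 * ρ * s ≤ t)
    (hw : w.re = x) (hwi : w.im = t) (hζ : ζ.re = -(1 / 2) + s) (hζi : ζ.im = 4 * ρ * s)
    (hd : 3 / 100 ≤ s - x) :
    0 < Dm (4 * ρ) w ζ := by
  have e : 0 ≤ 4 * ρ * s := mul_nonneg (by linarith only [hρ]) (by linarith only [hx, hρ, hρ', hd])
  have e1 : x - s + 2 * s = x + s := by ring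
  have e2 : t - 4 * ρ * s + 8 * (ρ * s) = t + 4 * ρ * s := by ring
  have e3 : 2 * s - (s - x) = x + s := by ring
  have e4 : 1 - (s - x) = x + 1 - s := by ring
  have hf1 := D3_eq hw hwi hζ hζi (by linarith only [hx, hρ, hρ', hd]) (by linarith only [hs', hρ, hρ', hd]) (by linarith only [hρ, hρ', hd]) (by linarith only [hx, hs', hρ, hρ'])
  have h : chkT [D2, cD, cT] 20
    208757701971589398358890302412496788020454410722759282720
    [NumIs.V.of 10000 300 1500, NumIs.V.of 10000 0 560,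
      NumIs.V.of 10000 1300 2500, NumIs.V.of 10000 0 1045] = true := by
    decide +kernel
  obtain ⟨f, hf, hp⟩ := chkT4 h (by norm_num) (x := s - x) (y := t - 4 * ρ * s) (z := s) (w := ρ)
    (by norm_num; linarith only [hd]) (by norm_num; linarith only [hx, hs']) (by norm_num; linarith only [hη]) (by norm_num; linarith only [ht', e])
    (by norm_num; linarith only [hx, hd]) (by norm_num; linarith only [hs']) (by norm_num; linarith only [hρ]) (by norm_num; linarith only [hρ'])
  simp only [List.mem_cons, List.not_mem_nil, or_false] at hf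
  rcases hf with rfl | rfl | rfl
  · simp only [D2, DX, x1, x2, y1, y2, u2, e0, eT, eK, eS, eR, eH, E.val, NumIs.lkR] at hp
    push_cast at hp
    try simp only [div_one, sub_add_cancel, sub_sub_cancel, e1, e2, e3, e4] at hp
    linarith only [hf1, hp]
  · simp only [cD, x1, x2, y1, y2, u2, e0, eT, eK, eS, eR, eH, E.val, NumIs.lkR] at hp
    push_cast at hp
    try simp only [div_one, sub_add_cancel, sub_sub_cancel, e1, e2, e3, e4] at hp
    linarith only [hx, hp]
  · simp only [cT, x1, x2, y1, y2, u2, e0, eT, eK, eS, eR, eH, E.val, NumIs.lkR] at hp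
    push_cast at hp
    try simp only [div_one, sub_add_cancel, sub_sub_cancel, e1, e2, e3, e4] at hp
    linarith only [ht', hp]

theorem gcb (hx : 1 / 10 ≤ x) (hs : 1 / 10 ≤ s) (hs' : s ≤ 1 / 4)
    (ht' : t ≤ 56 / 1000) (hρ : 0 < ρ) (hρ' : ρ ≤ 1045 / 10000)
    (hη : 4 * ρ * s ≤ t) (hd : x ≤ s) (hd' : s - x ≤ 3 / 100) :
    0 < NumIs.lnA (x + s) (t + 4 * ρ * s) - 4 * ρ * NumIs.lnB (x + s) (t + 4 * ρ * s) -
      (1 / 2 * Real.log (2 * (Real.cosh (2 * Real.pi * (t - 4 * ρ * s)) -
        Real.cos (Real.pi * (2 * (x - s)))) + 1 / 20) + 4 * ρ * Real.pi) := by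
  have e : 0 ≤ 4 * ρ * s := mul_nonneg (by linarith only [hρ]) (by linarith only [hs, hρ, hρ'])
  have e1 : x - s + 2 * s = x + s := by ring
  have e2 : t - 4 * ρ * s + 8 * (ρ * s) = t + 4 * ρ * s := by ring
  have e3 : 2 * s - (s - x) = x + s := by ring
  have e4 : 1 - (s - x) = x + 1 - s := by ring
  have h : chkT [Dc, cC, cT] 20
    6950534114927620707197863766462592296049768900039727628235840213088205298221238276253238886621161787448053646498147149742625
    [NumIs.V.of 10000 (-300) 0, NumIs.V.of 10000 0 560,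
      NumIs.V.of 10000 1000 2500, NumIs.V.of 10000 0 1045] = true := by
    decide +kernel
  obtain ⟨f, hf, hp⟩ := chkT4 h (by norm_num) (x := x - s) (y := t - 4 * ρ * s) (z := s) (w := ρ)
    (by norm_num; linarith only [hd']) (by norm_num; linarith only [hd]) (by norm_num; linarith only [hη]) (by norm_num; linarith only [ht', e])
    (by norm_num; linarith only [hs]) (by norm_num; linarith only [hs']) (by norm_num; linarith only [hρ]) (by norm_num; linarith only [hρ'])
  simp only [List.mem_cons, List.not_mem_nil, or_false] at hf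
  rcases hf with rfl | rfl | rfl
  · simp only [Dc, DX, x1, x2, y1, y2, u2, e0, eT, eK, eS, eR, eH, E.val, NumIs.lkR] at hp
    push_cast at hp
    try simp only [div_one, sub_add_cancel, sub_sub_cancel, e1, e2, e3, e4] at hp
    linarith only [hp]
  · simp only [cC, x1, x2, y1, y2, u2, e0, eT, eK, eS, eR, eH, E.val, NumIs.lkR] at hp
    push_cast at hp
    try simp only [div_one, sub_add_cancel, sub_sub_cancel, e1, e2, e3, e4] at hp
    linarith only [hx, hp]
  · simp only [cT, x1, x2, y1, y2, u2, e0, eT, eK, eS, eR, eH, E.val, NumIs.lkR] at hp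
    push_cast at hp
    try simp only [div_one, sub_add_cancel, sub_sub_cancel, e1, e2, e3, e4] at hp
    linarith only [ht', hp]

theorem gcc (hx : 1 / 10 ≤ x) (hs : 1 / 10 ≤ s) (hs' : s ≤ 1 / 4)
    (ht' : t ≤ 56 / 1000) (hρ : 0 < ρ) (hρ' : ρ ≤ 1045 / 10000)
    (hη : 4 * ρ * s ≤ t) (hd : x ≤ s) (hd' : s - x ≤ 3 / 100) :
    0 < NumIs.lnA (x + s) (t + 4 * ρ * s) - 4 * ρ * NumIs.lnB (x + s) (t + 4 * ρ * s) := by
  have e : 0 ≤ 4 * ρ * s := mul_nonneg (by linarith only [hρ]) (by linarith only [hs, hρ, hρ'])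
  have e1 : x - s + 2 * s = x + s := by ring
  have e2 : t - 4 * ρ * s + 8 * (ρ * s) = t + 4 * ρ * s := by ring
  have e3 : 2 * s - (s - x) = x + s := by ring
  have e4 : 1 - (s - x) = x + 1 - s := by ring
  have h : chkT [DX y1, cC, cT] 20
    11316777739937652875736489102202253858
    [NumIs.V.of 10000 (-300) 0, NumIs.V.of 10000 0 560,
      NumIs.V.of 10000 1000 2500, NumIs.V.of 10000 0 1045] = true := by
    decide +kernel
  obtain ⟨f, hf, hp⟩ := chkT4 h (by norm_num) (x := x - s) (y := t - 4 * ρ * s) (z := s) (w := ρ)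
    (by norm_num; linarith only [hd']) (by norm_num; linarith only [hd]) (by norm_num; linarith only [hη]) (by norm_num; linarith only [ht', e])
    (by norm_num; linarith only [hs]) (by norm_num; linarith only [hs']) (by norm_num; linarith only [hρ]) (by norm_num; linarith only [hρ'])
  simp only [List.mem_cons, List.not_mem_nil, or_false] at hf
  rcases hf with rfl | rfl | rfl
  · simp only [DX, x1, x2, y1, y2, u2, e0, eT, eK, eS, eR, eH, E.val, NumIs.lkR] at hp
    push_cast at hp
    try simp only [div_one, sub_add_cancel, sub_sub_cancel, e1, e2, e3, e4] at hp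
    linarith only [hp]
  · simp only [cC, x1, x2, y1, y2, u2, e0, eT, eK, eS, eR, eH, E.val, NumIs.lkR] at hp
    push_cast at hp
    try simp only [div_one, sub_add_cancel, sub_sub_cancel, e1, e2, e3, e4] at hp
    linarith only [hx, hp]
  · simp only [cT, x1, x2, y1, y2, u2, e0, eT, eK, eS, eR, eH, E.val, NumIs.lkR] at hp
    push_cast at hp
    try simp only [div_one, sub_add_cancel, sub_sub_cancel, e1, e2, e3, e4] at hp
    linarith only [ht', hp]

/-- numerical minimum: .62 -/
theorem gc (hx : 1 / 10 ≤ x) (ht' : t ≤ 56 / 1000)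
    (hs : 1 / 10 ≤ s) (hs' : s ≤ 1 / 4) (hsx : x ≤ s) (hρ : 0 < ρ) (hρ' : ρ ≤ 1045 / 10000)
    (hη : 4 * ρ * s ≤ t)
    (hw : w.re = x) (hwi : w.im = t) (hζ : ζ.re = -(1 / 2) + s) (hζi : ζ.im = 4 * ρ * s) :
    0 < Dm (4 * ρ) w ζ := by
  rcases le_total (3 / 100) (s - x) with h2 | h2
  · exact gca hx hs hs' ht' hρ hρ' hη hw hwi hζ hζi h2
  · rcases Dc_le hw hwi hζ hζi hρ.le (by linarith only [hx, hs, hρ, hρ']) (by linarith only [hs', hsx, hρ, hρ']) (by linarith only [hsx, hρ, hρ']) hη with h3 | h3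
    · exact lt_of_lt_of_le (gcc hx hs hs' ht' hρ hρ' hη hsx h2) h3
    · exact lt_of_lt_of_le (gcb hx hs hs' ht' hρ hρ' hη hsx h2) h3

end GE

end Pool.Agent.Work.MP_b30479_gtS.G2

end
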