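import Pool.Agent.Work.MP_b30479_gt.TBS.G2.GE_0
import Pool.Agent.Work.MP_b30479_gt.TBS.G2.GE_2
import Pool.Agent.Work.MP_b30479_gt.TBS.G2.GE_6
import Pool.Agent.Work.MP_b30479_gt.TBS.G2.RngM
import Pool.Agent.Work.MP_b30479_gt.TBS.G2.RngQ
import Pool.Agent.Work.MP_b30479_gt.TBS.G2.GE3
import Pool.Agent.Work.MP_b30479_gt.TBS.G2.RngO
import Pool.Agent.Work.MP_b30479_gt.TBS.G2.RngP2
import Pool.Agent.Work.MP_b30479_gt.TBS.G2.LR0

section

/-!
# Lower location of the ring variable next to a ring of equal sign: rows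

`gap = fu x t (-1/4) ρ - fu x t (-1/2 + s) (4ρs)`, `D = Dm (4ρ) w ζ`, `w = x + i t`,
`ζ = -1/2 + s + 4ρs i`; everything for `4ρs ≤ t`.
-/

set_option linter.unusedSimpArgs false

namespace Pool.Agent.Work.MP_b30479_gtS.G2

open VOL NumUs

namespace GE

variable {s ρ x t : ℝ} {w ζ : ℂ}

/-! ### values -/

/-! ### first order -/

/-! ### rows -/

/-- numerical minimum: .037 (at `s = 1/5`, `ρ → 0`, `x = 1/10`) -/
theorem ge3a (hx : 1 / 10 ≤ x) (hx' : x ≤ 27 / 100) (ht' : t ≤ 56 / 1000)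
    (hs : 0 < s) (hs' : s ≤ 1 / 5) (hρ : 0 < ρ) (hρ' : ρ ≤ 1045 / 10000) (hη : 4 * ρ * s ≤ t) :
    fu x t (-(1 / 2) + s) (4 * ρ * s) < fu x t (-(1 / 4)) ρ := by
  rcases le_total x (24 / 100) with h1 | h1
  · rcases le_total s (7 / 100) with h2 | h2
    · exact r31 hx h1 hs h2 ht' hρ hρ' hη
    · rcases le_total (5 / 100) (x - s) with h3 | h3
      · exact r31b hx h1 h2 hs' ht' hρ hρ' hη h3
      · rcases le_total (3 / 100) (x - s) with h4 | h4
        · exact r31c hx h1 (by linarith only [hs, h2]) hs' ht' hρ hρ' hη h4 h3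
        · rcases le_total (3 / 100) (s - x) with h5 | h5
          · exact r33 hx h1 (by linarith only [hx, h5]) hs' ht' hρ hρ' hη h5
          · exact r32 hx h1 h2 hs' ht' hρ hρ' hη h4 h5
  · rcases le_total x (1 / 4) with h2 | h2
    · exact r34 h1 h2 hs hs' ht' hρ hρ' hη
    · rcases le_total x (26 / 100) with h3 | h3
      · exact r35 h2 h3 hs hs' ht' hρ hρ' hη
      · exact r36 h3 hx' hs hs' ht' hρ hρ' hη

/-- numerical minimum: .034 -/
theorem ge1 (hx : 1 / 10 ≤ x) (hx' : x ≤ 27 / 100) (ht' : t ≤ 56 / 1000)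
    (hs : 1 / 16 ≤ s) (hs' : s ≤ 1 / 8) (hρ : 0 < ρ) (hρ' : ρ ≤ 1045 / 10000) (hη : 4 * ρ * s ≤ t)
    (hw : w.re = x) (hwi : w.im = t) (hζ : ζ.re = -(1 / 2) + s) (hζi : ζ.im = 4 * ρ * s) :
    8 * Real.pi * ρ * s * (1 - 4 * s) < fu x t (-(1 / 4)) ρ - fu x t (-(1 / 2) + s) (4 * ρ * s) ∨
      -(4 * Real.pi * ρ * (2 - 16 * s)) < Dm (4 * ρ) w ζ := by
  rcases le_total (5 / 100) (x - s) with h1 | h1
  · rcases le_total x (24 / 100) with h2 | h2
    · exact m1e hx h2 (by linarith only [hs]) (by linarith only [hs']) (by linarith only [ht']) hρ (by linarith only [hρ']) hη hw hwi hζ hζi h1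
    · rcases le_total x (1 / 4) with h3 | h3
      · exact m1f1 h2 h3 (by linarith only [hs]) (by linarith only [hs']) (by linarith only [ht']) hρ (by linarith only [hρ']) hη hw hwi hζ hζi
      · rcases le_total x (26 / 100) with h4 | h4
        · exact m1f2 h3 h4 (by linarith only [hs]) (by linarith only [hs']) (by linarith only [ht']) hρ (by linarith only [hρ']) hη hw hwi hζ hζi
        · exact m1f3 h4 hx' (by linarith only [hs]) (by linarith only [hs']) (by linarith only [ht']) hρ (by linarith only [hρ']) hη hw hwi hζ hζi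
  · right
    rcases le_total (2 / 100) (x - s) with h2 | h2
    · exact m1g (by linarith only [hs]) (by linarith only [hs']) (by linarith only [ht']) hρ (by linarith only [hρ']) hη hw hwi hζ hζi h2 h1
    · rcases Dc_le hw hwi hζ hζi hρ.le (by linarith only [hx, hρ, hρ', h2]) (by linarith only [hx', hs', hρ, hρ']) (by linarith only [hρ, hρ', h2]) hη with h3 | h3
      · exact lt_of_lt_of_le (m1ca hx hx' (by linarith only [hx, h2]) (by linarith only [hs']) (by linarith only [ht']) hρ (by linarith only [hρ']) hη (by linarith only [h2]) (by linarith only [hx, hs'])) h3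
      · exact lt_of_lt_of_le (m1cb hx hx' (by linarith only [hx, h2]) (by linarith only [hs']) (by linarith only [ht']) hρ (by linarith only [hρ']) hη (by linarith only [h2]) (by linarith only [hx, hs'])) h3

/-- numerical minimum: .088 -/
theorem ge2a (hx : 1 / 10 ≤ x) (hx' : x ≤ 27 / 100) (ht' : t ≤ 465 / 10000)
    (hs : 1 / 8 ≤ s) (hs' : s ≤ 15 / 100) (hρ : 0 < ρ) (hρ' : ρ ≤ 725 / 10000) (hη : 4 * ρ * s ≤ t)
    (hw : w.re = x) (hwi : w.im = t) (hζ : ζ.re = -(1 / 2) + s) (hζi : ζ.im = 4 * ρ * s) :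
    Real.pi * ρ * (1 - 4 * s) < fu x t (-(1 / 4)) ρ - fu x t (-(1 / 2) + s) (4 * ρ * s) ∨
      0 < Dm (4 * ρ) w ζ := by
  rcases le_total (3 / 100) (x - s) with h1 | h1
  · rcases le_total x (24 / 100) with h2 | h2
    · exact m2e hx h2 (by linarith only [hs]) (by linarith only [hs']) (by linarith only [ht']) hρ (by linarith only [hρ']) hη hw hwi hζ hζi h1
    · rcases le_total x (1 / 4) with h3 | h3
      · exact m2f1 h2 h3 (by linarith only [hs]) (by linarith only [hs']) (by linarith only [ht']) hρ (by linarith only [hρ']) hη hw hwi hζ hζi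
      · rcases le_total x (26 / 100) with h4 | h4
        · exact m2f2 h3 h4 (by linarith only [hs]) (by linarith only [hs']) (by linarith only [ht']) hρ (by linarith only [hρ']) hη hw hwi hζ hζi
        · exact m2f3 h4 hx' (by linarith only [hs]) (by linarith only [hs']) (by linarith only [ht']) hρ (by linarith only [hρ']) hη hw hwi hζ hζi
  · right
    rcases le_total (3 / 100) (s - x) with h2 | h2
    · exact m2d hx hx' (by linarith only [hx, hρ, hρ', h2]) (by linarith only [hs']) (by linarith only [ht']) hρ (by linarith only [hρ']) hη hw hwi hζ hζi h2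
    · rcases Dc_le hw hwi hζ hζi hρ.le (by linarith only [hx, hs, hρ, hρ']) (by linarith only [hx', hs', hρ, hρ']) (by linarith only [hx', hs, hρ, hρ']) hη with h3 | h3
      · exact lt_of_lt_of_le (m2ca hx hx' (by linarith only [hs]) (by linarith only [hs']) (by linarith only [ht']) hρ (by linarith only [hρ']) hη h1 h2) h3
      · exact lt_of_lt_of_le (m2cb hx hx' (by linarith only [hs]) (by linarith only [hs']) (by linarith only [ht']) hρ (by linarith only [hρ']) hη h1 h2) h3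

/-- numerical minimum: .077 -/
theorem ge2b (hx : 1 / 10 ≤ x) (hx' : x ≤ 27 / 100) (ht' : t ≤ 56 / 1000)
    (hs : 15 / 100 ≤ s) (hs' : s ≤ 1 / 4) (hρ : 0 < ρ) (hρ' : ρ ≤ 725 / 10000) (hη : 4 * ρ * s ≤ t)
    (hw : w.re = x) (hwi : w.im = t) (hζ : ζ.re = -(1 / 2) + s) (hζi : ζ.im = 4 * ρ * s) :
    0 < Dm (4 * ρ) w ζ := by
  rcases le_total (3 / 100) (x - s) with h1 | h1
  · exact m4e hx hx' (by linarith only [hs]) (by linarith only [hx', hρ, hρ', h1]) (by linarith only [ht']) hρ (by linarith only [hρ']) hη hw hwi hζ hζi h1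
  · rcases le_total (3 / 100) (s - x) with h2 | h2
    · exact m4d hx hx' (by linarith only [hs]) (by linarith only [hs']) (by linarith only [ht']) hρ (by linarith only [hρ']) hη hw hwi hζ hζi h2
    · rcases Dc_le hw hwi hζ hζi hρ.le (by linarith only [hs, hρ, hρ', h2]) (by linarith only [hx', hρ, hρ', h2]) (by linarith only [hx', hs, hρ, hρ']) hη with h3 | h3
      · exact lt_of_lt_of_le (m4ca hx hx' (by linarith only [hs]) (by linarith only [hs']) (by linarith only [ht']) hρ (by linarith only [hρ']) hη h1 h2) h3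
      · exact lt_of_lt_of_le (m4cb hx hx' (by linarith only [hs]) (by linarith only [hs']) (by linarith only [ht']) hρ (by linarith only [hρ']) hη h1 h2) h3

/-- numerical minimum: .62 -/
theorem ge3b (hx : 1 / 10 ≤ x) (hx' : x ≤ 27 / 100) (ht' : t ≤ 56 / 1000)
    (hs : 1 / 5 ≤ s) (hs' : s ≤ 1 / 4) (hρ : 0 < ρ) (hρ' : ρ ≤ 1045 / 10000) (hη : 4 * ρ * s ≤ t)
    (hw : w.re = x) (hwi : w.im = t) (hζ : ζ.re = -(1 / 2) + s) (hζi : ζ.im = 4 * ρ * s) :
    0 < Dm (4 * ρ) w ζ := by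
  rcases le_total (3 / 100) (x - s) with h1 | h1
  · exact m5e hx hx' (by linarith only [hs]) (by linarith only [hx', hρ, hρ', h1]) (by linarith only [ht']) hρ (by linarith only [hρ']) hη hw hwi hζ hζi h1
  · rcases le_total (3 / 100) (s - x) with h2 | h2
    · exact m5d hx hx' (by linarith only [hs]) (by linarith only [hs']) (by linarith only [ht']) hρ (by linarith only [hρ']) hη hw hwi hζ hζi h2
    · rcases Dc_le hw hwi hζ hζi hρ.le (by linarith only [hs, hρ, hρ', h2]) (by linarith only [hx', hρ, hρ', h2]) (by linarith only [hx', hs, hρ, hρ']) hη with h3 | h3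
      · exact lt_of_lt_of_le (m5ca hx hx' (by linarith only [hs]) (by linarith only [hs']) (by linarith only [ht']) hρ (by linarith only [hρ']) hη h1 h2) h3
      · exact lt_of_lt_of_le (m5cb hx hx' (by linarith only [hs]) (by linarith only [hs']) (by linarith only [ht']) hρ (by linarith only [hρ']) hη h1 h2) h3

end GE

end Pool.Agent.Work.MP_b30479_gtS.G2

end

section

/-!
# Ring sides: positive heights, all derivatives in the ring variable are `≥ 0` at a maximiser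
-/

namespace Pool.Agent.Work.MP_b30479_gtS.G2

open Finset VOL Filter Topology
open NumUs (uu uu_neg uu_add_one uu_one_sub UU_uu)

variable {x t σ η c a b s ρ T θ y K κ : ℝ} {w w' : ℂ} {k k' : RKe}

/-! ### below the ring variable -/

/-- `LL + m YY` increases along the direction `1 + i κ` in the first quadrant -/
theorem Dq_mono_dir {m κ x0 y0 l : ℝ} (hm : 0 ≤ m) (hκ : 0 ≤ κ) (hmκ : κ * m ≤ 1) (hl : 0 ≤ l)
    (hx : 0 ≤ x0) (hx' : x0 + l ≤ 1 / 2) (hy : 0 < y0) :
    Dq m ⟨x0, y0⟩ ≤ Dq m ⟨x0 + l, y0 + κ * l⟩ := by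
  have hpi := Real.pi_pos
  have hd : ∀ θ ∈ Set.Icc (0 : ℝ) l, HasDerivAt (fun θ => Dq m ⟨x0 + θ, y0 + κ * θ⟩)
      ((1 - κ * m) * CC ⟨x0 + θ, y0 + κ * θ⟩ + (m + κ) * SS ⟨x0 + θ, y0 + κ * θ⟩) θ := by
    intro θ hθ
    have hg : HasDerivAt (fun θ : ℝ => (⟨x0 + θ, y0 + κ * θ⟩ : ℂ)) (1 + κ * Complex.I) θ := by
      have h2 : HasDerivAt (fun θ : ℝ => ((x0 : ℂ) + y0 * Complex.I) + (θ : ℂ) * (1 + κ * Complex.I))
          (1 + κ * Complex.I) θ := by
        simpa using ((Complex.ofRealCLM.hasDerivAt (x := θ)).mul_const (1 + κ * Complex.I)).const_add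
          ((x0 : ℂ) + y0 * Complex.I)
      refine h2.congr_of_eventuallyEq (Filter.Eventually.of_forall fun s => ?_)
      apply Complex.ext
      · simp
      · simp
        ring
    have hi : 0 < (⟨x0 + θ, y0 + κ * θ⟩ : ℂ).im := by
      simp only
      have := mul_nonneg hκ hθ.1
      linarith only [hy, this]
    have k1 := hasDerivAt_LL hg (sin_ne_of_im hi.ne')
    have k2 := hasDerivAt_YY_im hg hi.ne'
    unfold Dq
    refine (k1.add (k2.const_mul m)).congr_deriv ?_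
    simp
    ring
  have hm' : MonotoneOn (fun θ => Dq m ⟨x0 + θ, y0 + κ * θ⟩) (Set.Icc 0 l) := by
    apply monotoneOn_of_deriv_nonneg (convex_Icc _ _)
    · exact fun θ hθ => (hd θ hθ).continuousAt.continuousWithinAt
    · intro θ hθ
      rw [interior_Icc] at hθ
      exact (hd θ ⟨hθ.1.le, hθ.2.le⟩).differentiableAt.differentiableWithinAt
    · intro θ hθ
      rw [interior_Icc] at hθ
      rw [(hd θ ⟨hθ.1.le, hθ.2.le⟩).deriv]
      have hi : 0 < y0 + κ * θ := by
        have := mul_nonneg hκ hθ.1.le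
        linarith only [hy, this]
      have hp := cosh_sub_cos_pos (sin_ne_of_im (u := ⟨x0 + θ, y0 + κ * θ⟩) (by simpa using hi.ne'))
      have c1 : 0 ≤ CC ⟨x0 + θ, y0 + κ * θ⟩ := by
        unfold CC
        apply mul_nonneg hpi.le
        apply div_nonneg _ hp.le
        simp only
        apply Real.sin_nonneg_of_nonneg_of_le_pi
        · have : 0 ≤ x0 + θ := by linarith only [hx, hθ, hθ.1]
          positivity
        · nlinarith only [hx', hpi, hθ, hθ.2]
      have c2 : 0 ≤ SS ⟨x0 + θ, y0 + κ * θ⟩ := by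
        unfold SS
        apply mul_nonneg hpi.le
        apply div_nonneg _ hp.le
        simp only
        rw [Real.sinh_nonneg_iff]
        positivity
      have c3 : 0 ≤ 1 - κ * m := by linarith only [hmκ]
      positivity
  have := hm' (Set.left_mem_Icc.2 hl) (Set.right_mem_Icc.2 hl) hl
  simpa using this

/-- reflection `u ↦ 1 - u` below the real axis -/
theorem Dq_refl {m a y : ℝ} (hy : 0 < y) : Dq m ⟨1 - a, -y⟩ = Dq m ⟨a, y⟩ := by
  unfold Dq
  have e1 : LL ⟨1 - a, -y⟩ = LL ⟨a, y⟩ := by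
    have e2 : (⟨1 - a, -y⟩ : ℂ) = -⟨a, y⟩ + 1 := by
      apply Complex.ext <;> simp
      ring
    rw [e2, LL_add_one, LL_neg]
  rw [e1, YY_mk_neg (by linarith only [hy]), YY_mk_pos hy, neg_neg, DT.Tr_one_sub hy]
  ring

/-- **the derivative in the ring variable, height below the ring variable** -/
theorem Dm_below (hρ : 0 < ρ) (hρ' : ρ ≤ 1045 / 10000) (hs : 0 < s) (hs' : s ≤ 1 / 4)
    (hx0 : 0 ≤ w.re) (hx : w.re ≤ 1 / 2) (ht : 0 ≤ w.im) (hη : w.im < 4 * ρ * s)
    (hκ : w.im ≤ 56 / 100 * w.re) : 0 ≤ Dm (4 * ρ) w (LT.zt ρ (-(1 / 2) + s)) := by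
  have hpi := Real.pi_pos
  rcases le_total s w.re with h1 | h1
  · have := Dm_own_ge (κ := 0) hρ hs hs' h1 hx ht hη (by linarith only [hs, h1]) (by linarith only [hρ, hρ', h1])
    linarith only [this]
  · have η0 : 0 < 4 * ρ * s := by positivity
    rw [Dm_coord hs.le hs', show w.re + 1 - s = 1 - (s - w.re) by ring,
      show w.im - 4 * ρ * s = -(4 * ρ * s - w.im) by ring, Dq_refl (by linarith only [hη])]
    rcases hx0.eq_or_lt with h0 | h0
    · have ht0 : w.im = 0 := le_antisymm (by rw [← h0] at hκ; linarith only [hκ]) ht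
      rw [ht0, ← h0]
      simp
    · have key := Dq_mono_dir (m := 4 * ρ) (κ := w.im / w.re) (x0 := s - w.re)
        (y0 := 4 * ρ * s - w.im) (l := 2 * w.re) (by positivity) (by positivity) (by
          have : w.im / w.re ≤ 56 / 100 := by
            rw [div_le_iff₀ h0]
            exact hκ
          have h4 : 0 ≤ w.im / w.re := by positivity
          nlinarith only [hρ', hρ, this]) (by linarith only [h0]) (by linarith only [h1]) (by linarith only [hs', h1]) (by linarith only [hη])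
      have e : w.im / w.re * (2 * w.re) = 2 * w.im := by field_simp
      rw [e, show s - w.re + 2 * w.re = w.re + s by ring,
        show 4 * ρ * s - w.im + 2 * w.im = w.im + 4 * ρ * s by ring] at key
      linarith only [key]

end Pool.Agent.Work.MP_b30479_gtS.G2

end

section

/-!
# Ring sides: all derivatives in the ring variable are `≥ 0` at a maximiser
-/

namespace Pool.Agent.Work.MP_b30479_gtS.G2

open Finset VOL Filter Topology
open NumUs (uu uu_neg uu_add_one uu_one_sub UU_uu)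

variable {x t σ η c a b s ρ T θ y K κ : ℝ} {w w' : ℂ} {k k' : RKe}

theorem zt_ramp (h0 : 0 ≤ s) (h1 : s ≤ 1 / 4) (ρ : ℝ) :
    LT.zt ρ (-(1 / 2) + s) = -(1 / 2) + s * (1 + ((4 * ρ : ℝ) : ℂ) * Complex.I) := by
  rw [zt_eq, th_ramp h0 h1]
  push_cast
  ring

/-- monotonicity along the ramp of the ring variable -/
theorem fR_ramp_mono (hρ : 0 < ρ) (hs : 0 < s) (hs' : s ≤ 1 / 4) (h0 : 0 ≤ w.re) (h1 : w.re ≤ 65 / 100)
    (hD : ∀ r, s < r → r < 1 / 4 → w.im ≠ 4 * ρ * r → 0 ≤ Dm (4 * ρ) w (LT.zt ρ (-(1 / 2) + r))) :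
    fR w (LT.zt ρ (-(1 / 2) + s)) ≤ fR w (LT.zt ρ (-(1 / 4))) := by
  have hq : LT.zt ρ (-(1 / 4)) = -(1 / 2) + ((1 / 4 : ℝ) : ℂ) * (1 + ((4 * ρ : ℝ) : ℂ) * Complex.I) := by
    rw [show (-(1 / 4) : ℝ) = -(1 / 2) + 1 / 4 by norm_num, zt_ramp (by norm_num) le_rfl]
  rw [hq, zt_ramp hs.le hs']
  refine mono_one (f := fun r : ℝ => fR w (-(1 / 2) + r * (1 + ((4 * ρ : ℝ) : ℂ) * Complex.I)))
    (f' := fun r : ℝ => Dm (4 * ρ) w (-(1 / 2) + r * (1 + ((4 * ρ : ℝ) : ℂ) * Complex.I)))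
    (w.im / (4 * ρ)) hs' ?_ ?_
  · have := continuous_UU
    unfold fR
    fun_prop
  · intro r hr hr' hne
    have hne' : w.im ≠ 4 * ρ * r := by
      intro hc
      apply hne
      rw [hc]
      field_simp
    have e1 : w + 1 / 2 + -(1 / 2) + (r : ℂ) * (((1 : ℝ) : ℂ) * (1 + ((4 * ρ : ℝ) : ℂ) * Complex.I)) =
        ⟨w.re + r, w.im + 4 * ρ * r⟩ := by
      apply Complex.ext <;> simp
      ring
    have e2 : w + 1 / 2 - -(1 / 2) + (r : ℂ) * (((-1 : ℝ) : ℂ) * (1 + ((4 * ρ : ℝ) : ℂ) * Complex.I)) =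
        ⟨w.re + 1 - r, w.im - 4 * ρ * r⟩ := by
      apply Complex.ext <;> simp
      · ring
      · ring
    constructor
    · refine hasDerivAt_fR (w := w) (ζ := -(1 / 2)) (m := 4 * ρ) (s := r) ?_ ?_
      · rw [e1]
        exact QQm_strip ⟨by simp only; linarith only [hs, h0, hr], by simp only; linarith only [hs, h1, hr, hr']⟩
      · rw [e2]
        exact ⟨sin_ne_of_im (by simp only; intro hc; apply hne'; linarith only [hc]),
          fun _ => Or.inl (by simp only; intro hc; apply hne'; linarith only [hc])⟩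
    · have := hD r hr hr' hne'
      rwa [zt_ramp (by linarith only [hs, hr]) hr'.le] at this

/-- the move of the ring variable from `-1/2 + s` to `-1/4`: the gain is `≥ 0`; it is large or the
derivative is `≥ 0` -/
structure Gd (ρ : ℝ) (w : ℂ) (s : ℝ) : Prop where
  gap : fR w (LT.zt ρ (-(1 / 2) + s)) ≤ fR w (LT.zt ρ (-(1 / 4)))
  alt : 0 ≤ Dm (4 * ρ) w (LT.zt ρ (-(1 / 2) + s)) ∨
    8 * Real.pi * ρ * s * (1 - 4 * s) < fR w (LT.zt ρ (-(1 / 4))) - fR w (LT.zt ρ (-(1 / 2) + s))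

theorem Gd.of_D (hρ : 0 < ρ) (hs : 0 < s) (hs' : s < 1 / 4) (h0 : 0 ≤ w.re) (h1 : w.re ≤ 65 / 100)
    (hne : w.re ≠ s ∨ w.im ≠ 4 * ρ * s)
    (hD : ∀ r, s ≤ r → r ≤ 1 / 4 → (w.re ≠ r ∨ w.im ≠ 4 * ρ * r) →
      0 ≤ Dm (4 * ρ) w (LT.zt ρ (-(1 / 2) + r))) : Gd ρ w s :=
  ⟨fR_ramp_mono hρ hs hs'.le h0 h1 fun r hr hr' hn => hD r hr.le hr'.le (Or.inr hn),
    Or.inl (hD s le_rfl hs'.le hne)⟩

theorem Gd.of_gap (hs : 0 < s) (hs' : s ≤ 1 / 4) (hρ : 0 < ρ)
    (h : 8 * Real.pi * ρ * s * (1 - 4 * s) <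
      fu w.re w.im (-(1 / 4)) ρ - fu w.re w.im (-(1 / 2) + s) (4 * ρ * s)) : Gd ρ w s := by
  have hpi := Real.pi_pos
  have e1 : fR w (LT.zt ρ (-(1 / 4))) = fu w.re w.im (-(1 / 4)) ρ := by
    rw [fR_zt, th_of_le (by rw [abs_neg, abs_of_pos] <;> norm_num), mul_one]
  have e2 : fR w (LT.zt ρ (-(1 / 2) + s)) = fu w.re w.im (-(1 / 2) + s) (4 * ρ * s) := by
    rw [fR_zt, th_ramp hs.le hs']
  have hK : 0 ≤ 8 * Real.pi * ρ * s * (1 - 4 * s) := by
    have : 0 ≤ 1 - 4 * s := by linarith only [hs']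
    positivity
  refine ⟨?_, Or.inr ?_⟩ <;> rw [e1, e2] <;> linarith only [h, hK]

theorem Gd.of_HOk (h : HOk ρ w) (hρ : 0 < ρ) (hs : 0 < s) (hs' : s < 1 / 4) : Gd ρ w s :=
  ⟨fR_ramp_mono hρ hs hs'.le h.re0 (by linarith only [hs, hs', h, h.re1]) fun r hr hr' _ =>
    h.nonneg hρ (by linarith only [hs, hr]) (by linarith only [hr']), Or.inl (h.nonneg hρ (by linarith only [hs]) (by linarith only [hs']))⟩

theorem zt_re (ρ c : ℝ) : (LT.zt ρ c).re = c := by simp [LT.zt]

theorem zt_im (ρ c : ℝ) : (LT.zt ρ c).im = ρ * LT.th c := by simp [LT.zt]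

/-- positive height -/
theorem Gd.of_pos (hρ : 0 < ρ) (hρ' : ρ ≤ 1045 / 10000) (hs : 0 < s) (hs' : s < 1 / 4) (h0 : 0 < w.re)
    (h1 : w.re ≤ 27 / 100) (ht0 : 0 ≤ w.im) (ht : w.im ≤ 56 / 1000) (ht' : w.im ≤ 56 / 100 * w.re)
    (hne : w.re ≠ s ∨ w.im ≠ 4 * ρ * s) : Gd ρ w s := by
  have hpi := Real.pi_pos
  have below : ∀ r, s ≤ r → r ≤ 1 / 4 → w.im < 4 * ρ * r →
      0 ≤ Dm (4 * ρ) w (LT.zt ρ (-(1 / 2) + r)) := fun r hr hr' h2 =>
    Dm_below hρ hρ' (by linarith only [hs, hr]) hr' h0.le (by linarith only [hρ, hρ', h1]) ht0 h2 ht'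
  have zi : ∀ r, 0 ≤ r → r ≤ 1 / 4 → (LT.zt ρ (-(1 / 2) + r)).im = 4 * ρ * r := fun r h2 h3 => by
    rw [zt_im, th_ramp h2 h3]
  rcases lt_or_ge w.im (4 * ρ * s) with h2 | h2
  · refine Gd.of_D hρ hs hs' h0.le (by linarith only [hρ, hρ', h1]) hne fun r hr hr' _ => below r hr hr' ?_
    have : 4 * ρ * s ≤ 4 * ρ * r := mul_le_mul_of_nonneg_left hr (by positivity)
    linarith only [h2, this]
  · rcases le_or_gt w.re s with h3 | h3
    · rcases le_total s (1 / 100) with h4 | h4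
      · exact Gd.of_gap hs hs'.le hρ (gap_tiny h0 ht' h4 h3 hρ h2)
      · refine Gd.of_D hρ hs hs' h0.le (by linarith only [hρ, hρ', h1]) hne fun r hr hr' hn => ?_
        rcases lt_or_ge w.im (4 * ρ * r) with h5 | h5
        · exact below r hr hr' h5
        · rcases le_total w.re (32 / 100 * r) with h6 | h6
          · exact (Dm_small_pos hρ (by linarith only [h4, hr]) hr' h0 h6 h5 ht').le
          · exact (GE.gcw h6 (by linarith only [h3, hr]) ht ht' (by linarith only [h4, hr]) hr' hρ hρ' h5 hn rfl rfl (zt_re _ _)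
              (zi r (by linarith only [hs, hr]) hr')).le
    · rcases le_total w.re (2 / 100) with h4 | h4
      · exact Gd.of_gap hs hs'.le hρ (gap_small h0 h4 ht' hs h3.le hρ h2)
      · rcases le_total s (1 / 8) with h5 | h5
        · exact Gd.of_gap hs hs'.le hρ (GE.gb1w h4 h1 ht ht' hs h5 h3.le hρ hρ' h2)
        · have e1 : fR w (LT.zt ρ (-(1 / 4))) = fu w.re w.im (-(1 / 4)) ρ := by
            rw [fR_zt, th_of_le (by rw [abs_neg, abs_of_pos] <;> norm_num), mul_one]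
          have e2 : fR w (LT.zt ρ (-(1 / 2) + s)) = fu w.re w.im (-(1 / 2) + s) (4 * ρ * s) := by
            rw [fR_zt, th_ramp hs.le hs'.le]
          have hL : 0 ≤ 8 * Real.pi * ρ * (8 * s - 1) := by
            have : 0 ≤ 8 * s - 1 := by linarith only [h5]
            positivity
          constructor
          · rcases le_total s (1 / 5) with h6 | h6
            · rw [e1, e2]
              exact (GE.ge3a (by linarith only [hρ, hρ', h3, h5]) h1 ht hs h6 hρ hρ' h2).le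
            · refine fR_ramp_mono hρ hs hs'.le h0.le (by linarith only [h1, h3, h6]) fun r hr hr' _ => ?_
              rcases lt_or_ge w.im (4 * ρ * r) with h7 | h7
              · exact below r hr.le hr'.le h7
              · exact (GE.ge3b (by linarith only [h3, h6, hr, hr']) h1 ht (by linarith only [h6, hr]) hr'.le hρ hρ' h7 rfl rfl (zt_re _ _)
                  (zi r (by linarith only [h6, hr, hr']) hr'.le)).le
          · rcases le_total s (23 / 100) with h6 | h6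
            · rcases GE.gb2 (by linarith only [hρ, hρ', h3, h5]) h1 ht h5 h6 h3.le hρ hρ' h2 hne rfl rfl (zt_re _ _)
                (zi s hs.le hs'.le) with h7 | h7
              · right
                rw [e1, e2]
                exact h7
              · left
                linarith only [hL, h7]
            · left
              have := GE.gb3 h1 ht h6 hs'.le h3.le hρ hρ' h2 hne rfl rfl (zt_re _ _) (zi s hs.le hs'.le)
              linarith only [hL, this]

/-- the value comparison with `-1/4` -/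
theorem RM.gap_le (h : RM b ρ w w' (-(1 / 2) + s)) (hs : 0 < s) (hs' : s ≤ 1 / 4) :
    (fR w (LT.zt ρ (-(1 / 4))) - fR w (LT.zt ρ (-(1 / 2) + s))) +
      (fR w' (LT.zt ρ (-(1 / 4))) - fR w' (LT.zt ρ (-(1 / 2) + s))) ≤
    8 * Real.pi * ρ * s * (1 - 4 * s) := by
  have hpi := Real.pi_pos
  have hρ := h.ρ0
  have hb := h.b4
  have h1 := h.mx (-(1 / 4)) (by rw [abs_neg, abs_of_pos] <;> norm_num)
  unfold rg at h1
  rw [th_of_le (by rw [abs_neg, abs_of_pos] <;> norm_num), th_ramp hs.le hs'] at h1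
  have h2 : 2 * Real.pi * (ρ * 1) * (b * (-(1 / 4)) + 1) - 2 * Real.pi * (4 * ρ * s) *
      (b * (-(1 / 2) + s) + 1) = 8 * Real.pi * ρ * s * (1 - 4 * s) -
      Real.pi / 2 * ρ * (b - 4) * (1 - 4 * s) ^ 2 := by ring
  have h3 : 0 ≤ Real.pi / 2 * ρ * (b - 4) * (1 - 4 * s) ^ 2 := by
    have : 0 ≤ b - 4 := by linarith only [hb]
    positivity
  linarith only [h1, h3]

/-- **All derivatives in the ring variable are `≥ 0` at a maximiser on the ramp.** -/
theorem RM.Dm_nonneg (h : RM b ρ w w' (-(1 / 2) + s)) (hs : 0 < s) (hs' : s ≤ 1 / 4) (G : Gd ρ w s)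
    (G' : Gd ρ w' s) : 0 ≤ Dm (4 * ρ) w (LT.zt ρ (-(1 / 2) + s)) ∧
      0 ≤ Dm (4 * ρ) w' (LT.zt ρ (-(1 / 2) + s)) := by
  have key := h.gap_le hs hs'
  constructor
  · rcases G.alt with h1 | h1
    · exact h1
    · exfalso
      linarith only [key, h1, G', G'.gap]
  · rcases G'.alt with h1 | h1
    · exact h1
    · exfalso
      linarith only [key, h1, G, G.gap]

/-- tiny positive height -/
theorem Gd.of_ps (hρ : 4 / 100 ≤ ρ) (hρ' : ρ ≤ 1045 / 10000) (hs : 0 < s) (hs' : s < 1 / 4) (h0 : 0 < w.re)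
    (h1 : w.re ≤ 1 / 2) (ht0 : 0 ≤ w.im) (ht : w.im ≤ 1 / 1000) (ht' : w.im ≤ 1 / 100 * w.re)
    (hne : w.re ≠ s ∨ w.im ≠ 4 * ρ * s) : Gd ρ w s := by
  have hρ0 : 0 < ρ := by linarith only [hρ, hs, hs']
  rcases le_or_gt w.re (27 / 100) with h2 | h2
  · exact Gd.of_pos hρ0 hρ' hs hs' h0 h2 ht0 (by linarith only [hρ', ht, hρ0]) (by linarith only [h0, ht']) hne
  · rcases lt_or_ge w.im (4 * ρ * s) with h3 | h3
    · refine Gd.of_D hρ0 hs hs' h0.le (by linarith only [hρ', h1, hρ0]) hne fun r hr hr' _ =>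
        Dm_below hρ0 hρ' (by linarith only [hs, hr]) hr' h0.le h1 ht0 ?_ (by linarith only [hρ', ht, hρ0, h2])
      have : 4 * ρ * s ≤ 4 * ρ * r := mul_le_mul_of_nonneg_left hr (by positivity)
      linarith only [h3, this]
    · exact Gd.of_gap hs hs'.le hρ0 (gap_ps h2.le h1 ht0 ht hρ hρ' hs hs' h3)

/-- the condition on a hinge -/
theorem RKe.ok.gd (hk : k.ok b w) (hb : 4 ≤ b) (hc : RCap b ρ) (hρ : 0 < ρ) (hs : 0 < s) (hs' : s < 1 / 4)
    (hx : w.re ≤ 1 / 2) (hx' : k.cp ρ w) (hne : w + 1 / 2 - LT.zt ρ (-(1 / 2) + s) ≠ 1) :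
    Gd ρ w s := by
  rcases le_or_gt w.im 0 with h1 | h1
  · exact Gd.of_HOk (HOk_of hρ hb hc hk (fun _ => h1) hx) hρ hs hs'
  · have hne' : w.re ≠ s ∨ w.im ≠ 4 * ρ * s := by
      by_contra hcon
      push Not at hcon
      apply hne
      rw [zt_eq, th_ramp hs.le hs'.le]
      apply Complex.ext
      · simp
        rw [hcon.1]
        ring
      · simp
        rw [hcon.2]
        ring
    by_cases hr : k = .ps
    · subst hr
      obtain ⟨-, -, t1, t2, x1⟩ := hk
      exact Gd.of_ps hx' hc.1 hs hs' (by linarith only [h1, t2]) x1 h1.le t1 t2 hne'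
    · obtain ⟨x0, x1, t1, t2⟩ := hk.of_pos h1 (K := 27 / 100) (fun hk => by subst hk; exact hx')
        (fun hk => absurd hk hr)
      exact Gd.of_pos hρ hc.1 hs hs' x0 x1 h1.le t1 t2 hne'

/-- **Master theorem**: both derivatives are `≥ 0` if both hinges are `≤ 1/2` -/
theorem RM.master (h : RM b ρ w w' (-(1 / 2) + s)) (hc : RCap b ρ) (hk : k.ok b w) (hk' : k'.ok b w')
    (hs : 0 < s) (hs' : s < 1 / 4) (hx : w.re ≤ 1 / 2) (hx' : w'.re ≤ 1 / 2)
    (hr : k.cp ρ w) (hr' : k'.cp ρ w') :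
    0 ≤ Dm (4 * ρ) w (LT.zt ρ (-(1 / 2) + s)) ∧ 0 ≤ Dm (4 * ρ) w' (LT.zt ρ (-(1 / 2) + s)) := by
  have hb := h.b4
  have hρ := h.ρ0
  have n1 := h.ns (by linarith only [hs]) (by linarith only [hs, hs']) hk.re_nonneg (by linarith only [hs, hs', hx]) hk'.re_nonneg (by linarith only [hs, hs', hx'])
  have n2 := h.symm.ns (by linarith only [hs]) (by linarith only [hs, hs']) hk'.re_nonneg (by linarith only [hs, hs', hx']) hk.re_nonneg
    (by linarith only [hs, hs', hx])
  exact h.Dm_nonneg hs hs'.le (hk.gd hb hc hρ hs hs' hx hr n1) (hk'.gd hb hc hρ hs hs' hx' hr' n2)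

/-- **Lower location of the ring variable.** -/
theorem RM.ge (h : RM b ρ w w' σ) (hc : RCap b ρ) (hk : k.ok b w) (hk' : k'.ok b w')
    (h0 : -(1 / 2) < σ) (hx : w.re ≤ 1 / 2) (hx' : w'.re ≤ 1 / 2)
    (hr : k.cp ρ w) (hr' : k'.cp ρ w') :
    -(1 / 4) - 1 / (2 * b) ≤ σ := by
  by_contra hcon
  push Not at hcon
  have hb := h.b4
  have hρ := h.ρ0
  have hpi := Real.pi_pos
  have hb0 : 0 < 1 / (2 * b) := by positivity
  have hσ : σ < -(1 / 4) := by linarith only [hcon, hb0]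
  have key := h.right_ramp h0 hσ hk.re_nonneg (by linarith only [h0, hx, hcon, hb0]) hk'.re_nonneg (by linarith only [h0, hx', hcon, hb0])
  obtain ⟨s, rfl⟩ : ∃ s : ℝ, σ = -(1 / 2) + s := ⟨σ + 1 / 2, by ring⟩
  obtain ⟨a1, a2⟩ := h.master hc hk hk' (by linarith only [h0]) (by linarith only [hb0, hcon]) hx hx' hr hr'
  have a3 : 2 + b + 4 * b * (-(1 / 2) + s) < 0 := by
    have : 4 * b * (-(1 / 2) + s) < 4 * b * (-(1 / 4) - 1 / (2 * b)) :=
      mul_lt_mul_of_pos_left hcon (by positivity)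
    have e : 4 * b * (-(1 / 4) - 1 / (2 * b)) = -b - 2 := by
      field_simp
      ring
    linarith only [this, e]
  have a4 : 0 < -(4 * Real.pi * ρ * (2 + b + 4 * b * (-(1 / 2) + s))) := by
    have : 4 * Real.pi * ρ * (2 + b + 4 * b * (-(1 / 2) + s)) < 0 :=
      mul_neg_of_pos_of_neg (by positivity) a3
    linarith only [key, a1, a2, this]
  linarith only [key, a1, a2, a4]

/-- the derivative of one hinge is bounded, both hinges `≤ 1/2` -/
theorem RM.Dm_le (h : RM b ρ w w' (-(1 / 2) + s)) (hc : RCap b ρ) (hk : k.ok b w) (hk' : k'.ok b w')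
    (hs : 0 < s) (hs' : s < 1 / 4) (hx : w.re ≤ 1 / 2) (hx' : w'.re ≤ 1 / 2)
    (hr : k.cp ρ w) (hr' : k'.cp ρ w') :
    Dm (4 * ρ) w (LT.zt ρ (-(1 / 2) + s)) ≤ 4 * Real.pi * ρ * (2 - b * (1 - 4 * s)) := by
  have key := h.right_ramp (by linarith only [hs]) (by linarith only [hs']) hk.re_nonneg (by linarith only [hs, hs', hx]) hk'.re_nonneg
    (by linarith only [hs, hs', hx'])
  obtain ⟨-, a2⟩ := h.master hc hk hk' hs hs' hx hx' hr hr'
  have e : 4 * Real.pi * ρ * (2 + b + 4 * b * (-(1 / 2) + s)) =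
      4 * Real.pi * ρ * (2 - b * (1 - 4 * s)) := by ring
  linarith only [key, a2]

/-- **a positive ring|ring hinge to the right of the ring variable is below it** -/
theorem RM.height_le (h : RM b ρ w w' (-(1 / 2) + s)) (hc : RCap b ρ) (hk : k.ok b w) (hk' : k'.ok b w')
    (hs : 0 < s) (hs' : s < 1 / 4) (hx0 : 1 / 10 ≤ w.re) (hx2 : w.re ≤ 1 / 2) (hx' : w'.re ≤ 1 / 2)
    (hr : k.cp ρ w) (hr' : k'.cp ρ w') (hsx : s ≤ w.re) : w.im ≤ 4 * ρ * s := by
  have hpi := Real.pi_pos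
  have hb := h.b4
  have hρ := h.ρ0
  by_contra hcon
  push Not at hcon
  have ht0 : 0 < w.im := lt_trans (by positivity) hcon
  by_cases hps : k = .ps
  · subst hps
    obtain ⟨e4, -, t1, -, -⟩ := hk
    have hρ4 : 4 / 100 ≤ ρ := hr
    have hge := h.ge hc ⟨e4, ht0, t1, by linarith only [hx0, t1], hx2⟩ hk' (by linarith only [hs]) hx2 hx' (k := .ps) hρ4 hr'
    rw [e4] at hge
    have : 1 / 8 ≤ s := by linarith only [hge]
    have : 4 * (4 / 100) * (1 / 8) ≤ 4 * ρ * s := mul_le_mul (by linarith only [hρ4]) this (by norm_num) (by positivity)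
    linarith only [hcon, ht0, t1, this]
  obtain ⟨-, hx, t1, -⟩ := hk.of_pos ht0 (K := 27 / 100) (fun hk => by subst hk; exact hr)
    (fun hk => absurd hk hps)
  have n2 := h.symm.ns (by linarith only [hs]) (by linarith only [hs', ht0, t1]) hk'.re_nonneg (by linarith only [hs', hx', ht0, t1]) hk.re_nonneg
    (by linarith only [hs', hx2, ht0, t1])
  have G' := hk'.gd hb hc hρ hs hs' hx' hr' n2
  obtain ⟨-, a2⟩ := h.master hc hk hk' hs hs' (by linarith only [hx2]) hx' hr hr'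
  have hle := h.Dm_le hc hk hk' hs hs' (by linarith only [hx2]) hx' hr hr'
  have hgap := h.gap_le hs hs'.le
  have zi : (LT.zt ρ (-(1 / 2) + s)).im = 4 * ρ * s := by rw [zt_im, th_ramp hs.le hs'.le]
  have e1 : fR w (LT.zt ρ (-(1 / 4))) = fu w.re w.im (-(1 / 4)) ρ := by
    rw [fR_zt, th_of_le (by rw [abs_neg, abs_of_pos] <;> norm_num), mul_one]
  have e2 : fR w (LT.zt ρ (-(1 / 2) + s)) = fu w.re w.im (-(1 / 2) + s) (4 * ρ * s) := by
    rw [fR_zt, th_ramp hs.le hs'.le]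
  have hL : 4 * Real.pi * ρ * (2 - b * (1 - 4 * s)) ≤ 8 * Real.pi * ρ * (8 * s - 1) := by
    have h1 : 2 - b * (1 - 4 * s) ≤ 2 * (8 * s - 1) := by nlinarith only [hs', hb]
    calc _ ≤ 4 * Real.pi * ρ * (2 * (8 * s - 1)) := mul_le_mul_of_nonneg_left h1 (by positivity)
      _ = _ := by ring
  rcases le_total s (1 / 8) with h1 | h1
  · have := GE.gb1 hx0 hx t1 hs h1 hsx hρ hc.1 hcon.le
    rw [← e1, ← e2] at this
    linarith only [hgap, this, G', G'.gap]
  · rcases le_total s (23 / 100) with h2 | h2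
    · rcases GE.gb2 hx0 hx t1 h1 h2 hsx hρ hc.1 hcon.le (Or.inr hcon.ne') rfl rfl (zt_re _ _) zi with
        h3 | h3
      · rw [← e1, ← e2] at h3
        linarith only [hgap, h3, G', G'.gap]
      · linarith only [hle, hL, h3]
    · have := GE.gb3 hx t1 h2 hs'.le hsx hρ hc.1 hcon.le (Or.inr hcon.ne') rfl rfl (zt_re _ _) zi
      linarith only [hle, hL, this]

end Pool.Agent.Work.MP_b30479_gtS.G2

end

section

/-!
# Ring sides: left ramps at a maximiser
-/

namespace Pool.Agent.Work.MP_b30479_gtS.G2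

open Finset VOL Filter Topology

variable {x t σ η c a b s ρ T θ y K κ m l : ℝ} {w w' ζ : ℂ} {k k' : RKe}

/-- the derivative of a hinge `≥ 1/2` -/
theorem RKe.ok.Dm_ge_right (hk : k.ok b w) (hkr : k.up = false) (hc : RCap b ρ) (hρ : 0 < ρ)
    (hs : 0 < s) (hs' : s ≤ 1 / 4) (hx : 1 / 2 ≤ w.re) :
    -(45 / 10 * s) ≤ Dm (4 * ρ) w (LT.zt ρ (-(1 / 2) + s)) := by
  have c4 := hc.1
  have c5 := hc.2.1
  have ok_ge : ∀ {T XM cl cr : ℝ}, RH w T XM cl cr → T ≤ 0 → 0 < cr → XM ≤ 65 / 100 → 1 / 2 ≤ w.re →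
      (b < 5 → -T / cr ≤ 128 / 290) → -T / cr ≤ 158 / 290 →
      -(45 / 10 * s) ≤ Dm (4 * ρ) w (LT.zt ρ (-(1 / 2) + s)) := by
    intro T XM cl cr hw hT hcr hX h2 hA hB
    have hni := hw.neg_im_le hT hcr
    have him := hw.im_nonpos hT
    have e : ∀ A : ℝ, -T / cr ≤ A → -w.im ≤ A * (65 / 100 - w.re) := by
      intro A hA
      have h3 : -T * ((XM - w.re) / cr) = -T / cr * (XM - w.re) := by ring
      have h4 : 0 ≤ -T / cr := div_nonneg (by linarith only [hT]) hcr.le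
      rw [h3] at hni
      have hXw := hw.reM
      calc -w.im ≤ -T / cr * (XM - w.re) := hni
        _ ≤ A * (65 / 100 - w.re) := mul_le_mul hA (by linarith only [hX]) (by linarith only [hXw]) (h4.trans hA)
    rcases lt_or_ge b 5 with hb5 | hb5
    · exact Dm_right_ge hρ c4 hs hs' h2 (hw.reM.trans hX) him (e _ (hA hb5))
        (RX4 h2 (hw.reM.trans hX))
    · exact Dm_right_ge hρ (c5 hb5) hs hs' h2 (hw.reM.trans hX) him (e _ hB)
        (RX5 h2 (hw.reM.trans hX))
  cases k with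
  | no =>
    exfalso
    have h0 : w = 0 := hk
    rw [h0] at hx
    norm_num at hx
  | one =>
    obtain ⟨T, cr, t1, t2, t3, -, ⟨r1, r2⟩, hw⟩ := hk
    refine ok_ge hw (by linarith only [hρ, c4, t2]) (by linarith only [hρ, c4, r1]) le_rfl hx (fun h5 => ?_) ?_
    · rw [div_le_iff₀ (by linarith only [hρ, c4, r1])]
      linarith only [r1, t3, h5, t3 h5]
    · rw [div_le_iff₀ (by linarith only [hρ, c4, r1])]
      linarith only [t1, r1]
  | lo =>
    obtain ⟨T, cl, cr, t1, t2, t3, ⟨l1, l2⟩, ⟨r1, r2⟩, hw⟩ := hk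
    refine ok_ge hw t2 (by linarith only [hρ, c4, r1]) (by norm_num) hx (fun h5 => ?_) ?_
    · rw [div_le_iff₀ (by linarith only [hρ, c4, r1])]
      linarith only [hρ, c4, t1, r1, t3 h5]
    · rw [div_le_iff₀ (by linarith only [hρ, c4, r1])]
      linarith only [hρ, c4, t1, r1]
  | rr => exact absurd hkr (by simp [RKe.up])
  | ps => exact absurd hkr (by simp [RKe.up])

/-- **The place of the ring variable**, seen from the hinge `w` (`≤ 27/100`) -/
inductive RPl (b ρ : ℝ) (w w' : ℂ) (σ : ℝ) : Prop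
  | flat (h : LR.ZF (LT.zt ρ σ))
  | pos (s : ℝ) (e : σ = -(1 / 2) + s) (h : LR.ZR s ρ (LT.zt ρ σ)) (hs : 1 / 4 - 1 / (2 * b) ≤ s)
      (hF : Dm (4 * ρ) w (LT.zt ρ σ) ≤ 4 * Real.pi * ρ * (2 - b * (1 - 4 * s)))
  | far (s : ℝ) (e : σ = -(1 / 2) + s) (h : LR.ZR s ρ (LT.zt ρ σ)) (hF : LR.FX b s ρ w (LT.zt ρ σ))
      (hx : 1 / 2 < w'.re)
  | tiny (s : ℝ) (e : σ = -(1 / 2) + s) (h0 : 0 < s) (h1 : s ≤ 1 / 16)
      (hF : Dm (4 * ρ) w (LT.zt ρ σ) ≤ 45 / 10 * s - 4 * Real.pi * ρ) (hx : 1 / 2 < w'.re)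

theorem RM.place (h : RM b ρ w w' σ) (hc : RCap b ρ) (hk : k.ok b w) (hk' : k'.ok b w')
    (hσ : |σ| < 1 / 2) (h0 : σ ≤ 0) (hx : w.re ≤ 1 / 2) (hr : k.cp ρ w) (hr' : k'.cp ρ w') :
    RPl b ρ w w' σ := by
  have hpi := Real.pi_pos
  have hb := h.b4
  have hρ := h.ρ0
  have hσ' := abs_lt.1 hσ
  rcases le_or_gt (-(1 / 4)) σ with h1 | h1
  · refine .flat ⟨by rw [zt_re]; exact h1, by rw [zt_re]; exact h0, ?_, ?_⟩
    · rw [zt_im, th_of_le (by rw [abs_of_nonpos h0]; linarith only [h1]), mul_one]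
      exact hρ
    · rw [zt_im, th_of_le (by rw [abs_of_nonpos h0]; linarith only [h1]), mul_one]
      exact hc.1
  · obtain ⟨s, rfl⟩ : ∃ s : ℝ, σ = -(1 / 2) + s := ⟨σ + 1 / 2, by ring⟩
    have hs : 0 < s := by linarith only [hσ']
    have hs' : s < 1 / 4 := by linarith only [h1]
    have zr : 1 / 16 ≤ s → LR.ZR s ρ (LT.zt ρ (-(1 / 2) + s)) := fun h2 =>
      ⟨zt_re _ _, by rw [zt_im, th_ramp hs.le hs'.le], hρ, h2, hs'.le⟩
    rcases le_or_gt w'.re (1 / 2) with h2 | h2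
    · have h3 := h.ge hc hk hk' (by linarith only [hs]) hx h2 hr hr'
      have h4 : 1 / (2 * b) ≤ 1 / 8 := by
        rw [div_le_div_iff₀ (by positivity) (by norm_num)]
        linarith only [hb]
      exact .pos s rfl (zr (by linarith only [hs, h3, h4])) (by linarith only [h3]) (h.Dm_le hc hk hk' hs hs' hx h2 hr hr')
    · have hkr : k'.up = false := by
        cases k' with
        | no => rfl
        | one => rfl
        | lo => rfl
        | rr => exact absurd hr' (by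
            change ¬(w'.re ≤ 27 / 100)
            linarith only [h1, hs, h2])
        | ps => exact absurd hk'.2.2.2.2 (by linarith only [h2])
      have hD := hk'.Dm_ge_right hkr hc hρ hs hs'.le h2.le
      have key := h.right_ramp (by linarith only [hs]) (by linarith only [h1]) hk.re_nonneg (by linarith only [hx, h1, hs]) hk'.re_nonneg
        (by linarith only [h1, hs, hk', hk'.re_le])
      have e : 4 * Real.pi * ρ * (2 + b + 4 * b * (-(1 / 2) + s)) =
          4 * Real.pi * ρ * (2 - b * (1 - 4 * s)) := by ring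
      rw [e] at key
      rcases le_total (1 / 16) s with h3 | h3
      · refine .far s rfl (zr h3) ?_ h2
        unfold LR.FX
        linarith only [hD, key]
      · refine .tiny s rfl hs h3 ?_ h2
        have h4 : 4 * Real.pi * ρ * (2 - b * (1 - 4 * s)) ≤ 4 * Real.pi * ρ * (-1) := by
          apply mul_le_mul_of_nonneg_left _ (by positivity)
          nlinarith only [h3, hb, h1]
        linarith only [hD, key, h4]

theorem gE_nonneg (h0 : 0 ≤ s) (h1 : s ≤ 1 / 4) : 0 ≤ LR.gE s := by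
  unfold LR.gE
  split_ifs
  · norm_num
  · nlinarith only [h1, h0]

theorem FP_of (hρ : 0 < ρ) (h0 : 0 ≤ s) (h1 : s ≤ 1 / 4)
    (hF : Dm (4 * ρ) w ζ ≤ 4 * Real.pi * ρ * (2 - b * (1 - 4 * s))) : LR.FP b s ρ w ζ := by
  have hpi := Real.pi_pos
  unfold LR.FP
  have : 0 ≤ 4 * Real.pi * ρ * LR.gE s := mul_nonneg (by positivity) (gE_nonneg h0 h1)
  linarith only [hF, this]

/-- the two logarithms near the end, height `≤ 0` -/
theorem tiny_neg (hρ : 0 < ρ) (hs : 0 < s) (hs' : s ≤ 1 / 16) (H : HOk ρ w)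
    (hF : Dm (4 * ρ) w (LT.zt ρ (-(1 / 2) + s)) ≤ 45 / 10 * s - 4 * Real.pi * ρ) :
    LL ⟨w.re + s, w.im + 4 * ρ * s⟩ - LL ⟨w.re - s, w.im - 4 * ρ * s⟩ ≤ 45 / 10 * s ∧
      ρ ≤ 36 / 100 * s := by
  have hpi := Real.pi_pos
  have hpi4 := Real.pi_gt_d4
  have hD := H.nonneg hρ (σ := -(1 / 2) + s) (by linarith only [hs]) (by linarith only [hs, hs'])
  constructor
  · have hY := YY_ring_nonneg (x := w.re) (t := w.im) (σ := -(1 / 2) + s) (η := 4 * ρ * s) H.re0 H.re1
      H.im (by linarith only [hs, hs']) (by linarith only [hs]) (by positivity) (re_im_eq w) (ζ := LT.zt ρ (-(1 / 2) + s)) (by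
        rw [zt_eq, th_ramp hs.le (by linarith only [hs, hs'])])
    unfold Dm Dq at hF
    have e1 : w + 1 / 2 + LT.zt ρ (-(1 / 2) + s) = ⟨w.re + s, w.im + 4 * ρ * s⟩ := by
      rw [zt_eq, th_ramp hs.le (by linarith only [hs, hs'])]
      apply Complex.ext <;> simp
    have e2 : w + 1 / 2 - LT.zt ρ (-(1 / 2) + s) = ⟨w.re + 1 - s, w.im - 4 * ρ * s⟩ := by
      rw [zt_eq, th_ramp hs.le (by linarith only [hs, hs'])]
      apply Complex.ext <;> simp
      ring
    rw [e1, e2] at hF hY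
    rw [LL_shift] at hF
    have := mul_nonneg (show 0 ≤ 4 * ρ by positivity) hY
    have : 0 ≤ 4 * Real.pi * ρ := by positivity
    linarith
  · have : 4 * Real.pi * ρ ≤ 45 / 10 * s := by linarith only [hF, hD]
    nlinarith only [hF, hD, hρ, hs, hs', hpi4]

/-- `Dq m - (1 - m ^ 2) LL` increases along the direction `1 + i m` in the first quadrant -/
theorem Dq_LL_mono {m x0 y0 l : ℝ} (hm : 0 ≤ m) (hl : 0 ≤ l) (hx : 0 ≤ x0) (hx' : x0 + l ≤ 1 / 2)
    (hy : 0 < y0) : Dq m ⟨x0, y0⟩ - (1 - m ^ 2) * LL ⟨x0, y0⟩ ≤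
      Dq m ⟨x0 + l, y0 + m * l⟩ - (1 - m ^ 2) * LL ⟨x0 + l, y0 + m * l⟩ := by
  have hpi := Real.pi_pos
  have hd : ∀ θ ∈ Set.Icc (0 : ℝ) l, HasDerivAt (fun θ => Dq m ⟨x0 + θ, y0 + m * θ⟩ -
      (1 - m ^ 2) * LL ⟨x0 + θ, y0 + m * θ⟩) (m * (1 + m ^ 2) * SS ⟨x0 + θ, y0 + m * θ⟩) θ := by
    intro θ hθ
    have hg : HasDerivAt (fun θ : ℝ => (⟨x0 + θ, y0 + m * θ⟩ : ℂ)) (1 + m * Complex.I) θ := by
      have h2 : HasDerivAt (fun θ : ℝ => ((x0 : ℂ) + y0 * Complex.I) + (θ : ℂ) * (1 + m * Complex.I))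
          (1 + m * Complex.I) θ := by
        simpa using ((Complex.ofRealCLM.hasDerivAt (x := θ)).mul_const (1 + m * Complex.I)).const_add
          ((x0 : ℂ) + y0 * Complex.I)
      refine h2.congr_of_eventuallyEq (Filter.Eventually.of_forall fun s => ?_)
      apply Complex.ext
      · simp
      · simp
        ring
    have hi : 0 < (⟨x0 + θ, y0 + m * θ⟩ : ℂ).im := by
      simp only
      have := mul_nonneg hm hθ.1
      linarith only [hy, this]
    have k1 := hasDerivAt_LL hg (sin_ne_of_im hi.ne')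
    have k2 := hasDerivAt_YY_im hg hi.ne'
    unfold Dq
    refine ((k1.add (k2.const_mul m)).sub (k1.const_mul (1 - m ^ 2))).congr_deriv ?_
    simp
    ring
  have hm' : MonotoneOn (fun θ => Dq m ⟨x0 + θ, y0 + m * θ⟩ -
      (1 - m ^ 2) * LL ⟨x0 + θ, y0 + m * θ⟩) (Set.Icc 0 l) := by
    apply monotoneOn_of_deriv_nonneg (convex_Icc _ _)
    · exact fun θ hθ => (hd θ hθ).continuousAt.continuousWithinAt
    · intro θ hθ
      rw [interior_Icc] at hθ
      exact (hd θ ⟨hθ.1.le, hθ.2.le⟩).differentiableAt.differentiableWithinAt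
    · intro θ hθ
      rw [interior_Icc] at hθ
      rw [(hd θ ⟨hθ.1.le, hθ.2.le⟩).deriv]
      have hi : 0 < y0 + m * θ := by
        have := mul_nonneg hm hθ.1.le
        linarith only [hy, this]
      have hp := cosh_sub_cos_pos (sin_ne_of_im (u := ⟨x0 + θ, y0 + m * θ⟩) (by simpa using hi.ne'))
      have c2 : 0 ≤ SS ⟨x0 + θ, y0 + m * θ⟩ := by
        unfold SS
        apply mul_nonneg hpi.le
        apply div_nonneg _ hp.le
        simp only
        rw [Real.sinh_nonneg_iff]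
        positivity
      positivity
  have := hm' (Set.left_mem_Icc.2 hl) (Set.right_mem_Icc.2 hl) hl
  simpa using this

/-- the two logarithms near the end, height `≥ 0` -/
theorem tiny_pos (hρ : 0 < ρ) (hρ' : ρ ≤ 1045 / 10000) (hs : 0 < s) (hs' : s ≤ 1 / 16) (h0 : 0 ≤ w.re)
    (h1 : w.re ≤ 1 / 4) (ht : 0 ≤ w.im)
    (hF : Dm (4 * ρ) w (LT.zt ρ (-(1 / 2) + s)) ≤ 45 / 10 * s - 4 * Real.pi * ρ) :
    LL ⟨w.re + s, w.im + 4 * ρ * s⟩ - LL ⟨w.re - s, w.im - 4 * ρ * s⟩ ≤ 55 / 10 * s := by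
  have hpi := Real.pi_pos
  have η0 : 0 < 4 * ρ * s := by positivity
  rw [Dm_coord hs.le (by linarith only [hs, hs'])] at hF
  have huY : -(Real.pi / 2) ≤ YY ⟨w.re + s, w.im + 4 * ρ * s⟩ :=
    YY_ge_neg_half (by simp only; linarith only [hs, h0]) (by simp only; linarith only [hs, hs', h1])
  -- if `YY v ≤ π / 2`
  have key : YY ⟨w.re + 1 - s, w.im - 4 * ρ * s⟩ ≤ Real.pi / 2 →
      LL ⟨w.re + s, w.im + 4 * ρ * s⟩ - LL ⟨w.re - s, w.im - 4 * ρ * s⟩ ≤ 55 / 10 * s := by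
    intro hY
    unfold Dq at hF
    rw [LL_shift] at hF
    have : 4 * ρ * (-Real.pi) ≤ 4 * ρ * (YY ⟨w.re + s, w.im + 4 * ρ * s⟩ -
        YY ⟨w.re + 1 - s, w.im - 4 * ρ * s⟩) := by
      apply mul_le_mul_of_nonneg_left _ (by positivity)
      linarith only [huY, hY]
    linarith only [hs, hF, this]
  rcases lt_trichotomy (w.im - 4 * ρ * s) 0 with h | h | h
  · apply key
    rw [YY_mk_neg h]
    have := Tr_nonneg (s := -(w.im - 4 * ρ * s)) (x := w.re + 1 - s) (by linarith only [h]) (by linarith only [hs, hs', h0])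
    linarith only [this]
  · apply key
    rw [h, YY_mk_zero]
    positivity
  · rcases le_or_gt w.re s with h2 | h2
    · apply key
      rw [YY_mk_pos h]
      have := Tr_mono (s := w.im - 4 * ρ * s) h (show w.re + 1 - s ≤ 1 by linarith only [h2])
      rw [Tr_one h] at this
      linarith only [this]
    · have k1 := Dq_LL_mono (m := 4 * ρ) (x0 := w.re - s) (y0 := w.im - 4 * ρ * s) (l := 2 * s)
        (by positivity) (by positivity) (by linarith only [h2]) (by linarith only [hs, hs', h1]) h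
      rw [show w.re - s + 2 * s = w.re + s by ring, show w.im - 4 * ρ * s + 4 * ρ * (2 * s) =
        w.im + 4 * ρ * s by ring] at k1
      have k2 : Dq (4 * ρ) ⟨w.re + 1 - s, w.im - 4 * ρ * s⟩ =
          Dq (4 * ρ) ⟨w.re - s, w.im - 4 * ρ * s⟩ + 4 * Real.pi * ρ := by
        unfold Dq
        rw [LL_shift, YY_mk_pos h, YY_mk_pos h, show w.re + 1 - s = (w.re - s) + 1 by ring, Tr_add_one]
        ring
      rw [k2] at hF
      have k3 : (1 - (4 * ρ) ^ 2) * (LL ⟨w.re + s, w.im + 4 * ρ * s⟩ -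
          LL ⟨w.re - s, w.im - 4 * ρ * s⟩) ≤ 45 / 10 * s := by
        linarith only [hF, k1]
      by_contra hcon
      push Not at hcon
      have k4 : 82 / 100 ≤ 1 - (4 * ρ) ^ 2 := by nlinarith only [hρ', hρ]
      have k5 : 0 < LL ⟨w.re + s, w.im + 4 * ρ * s⟩ - LL ⟨w.re - s, w.im - 4 * ρ * s⟩ := by linarith only [hs, hcon]
      nlinarith only [hs, hF, k1, hρ', η0, hcon, hs', k4]

end Pool.Agent.Work.MP_b30479_gtS.G2

end
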