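import Pool.Agent.Work.MP_b30479_gt.TBS.G2.M3N

section

/-!
# Interior 3-runs, level part: the data
-/

set_option deprecated.oldSectionVars true

namespace Pool.Agent.Work.MP_b30479_gtS.G2

namespace M3

open NumIs (E V chk)

def p11 : Prm :=
  ⟨1500, 3600, 1300, 4200, -1145, -210, -1145, -210, -900, -180, -450, 700, 1850, 7, 6580, 6340, 4, 2, 5160, 2057, 1500, 500⟩
def p1E : Prm :=
  ⟨1300, 3000, 1300, 4000, -980, -760, -1145, -210, -620, -50, -200, 750, 1920, 7, 6665, 6515, 5, 2, 5275, 1907, 1665, 500⟩
def p1N : Prm :=
  ⟨1300, 3000, 1300, 4200, -570, 220, -1145, -210, -820, 50, -400, 840, 1855, 7, 6771, 6581, 5, 2, 5341, 1818, 1721, 500⟩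
def p1Z : Prm :=
  ⟨1300, 3000, 1300, 4200, -40, 570, -1145, -210, -720, 0, -340, 800, 1855, 7, 6771, 6581, 5, 2, 5341, 1439, 1694, 500⟩
def pE1 : Prm :=
  ⟨1500, 3600, 1200, 3000, -1145, -210, -980, -760, -1230, -800, -480, 150, 2610, 6, 5918, 5768, 3, 2, 4928, 2143, 746, 500⟩
def pEE : Prm :=
  ⟨1300, 3000, 1200, 3000, -980, -760, -980, -760, -950, -670, -180, 290, 2680, 6, 6216, 5966, 5, 3, 4826, 2023, 965, 500⟩
def pEN : Prm :=
  ⟨1300, 3000, 1200, 3000, -570, 220, -980, -760, -1160, -640, -400, 320, 2680, 6, 6216, 5966, 5, 3, 4826, 1956, 1007, 500⟩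
def pEZ : Prm :=
  ⟨1300, 3000, 1200, 3000, -40, 570, -980, -760, -1060, -670, -310, 290, 2680, 6, 6216, 5966, 5, 3, 4826, 1668, 965, 500⟩
def pN1 : Prm :=
  ⟨1500, 3600, 1200, 3000, -1145, -210, -570, 570, -1140, -150, -1050, 140, 1585, 6, 5918, 5768, 3, 2, 4928, 2121, 1110, 500⟩
def pNE : Prm :=
  ⟨1300, 3000, 1200, 3000, -980, -760, -570, 570, -820, -50, -750, 190, 1550, 7, 6216, 5966, 5, 3, 4826, 1981, 1221, 500⟩
def pNN : Prm :=
  ⟨1300, 3000, 1200, 3000, -570, 220, -570, 570, -1040, 50, -1000, 280, 1550, 7, 6216, 5966, 5, 3, 4826, 1911, 1319, 500⟩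
def pNZ : Prm :=
  ⟨1300, 3000, 1200, 3000, -40, 570, -570, 570, -920, 0, -930, 240, 1550, 7, 6216, 5966, 5, 3, 4826, 1582, 1272, 500⟩
def pD1 : Prm :=
  ⟨1500, 3600, 1200, 3600, -1145, -210, -570, 50, -1140, -150, -1050, 140, 1575, 6, 6038, 5768, 3, 2, 4928, 2121, 1110, 500⟩
def pDE : Prm :=
  ⟨1300, 3000, 1200, 3600, -980, -760, -570, 50, -820, -50, -750, 190, 1525, 7, 6396, 5966, 5, 3, 4826, 1981, 1221, 500⟩
def pDN : Prm :=
  ⟨1300, 3000, 1200, 3600, -570, 220, -570, 50, -1040, 50, -1000, 280, 1525, 7, 6396, 5966, 5, 3, 4826, 1911, 1319, 500⟩
def pDZ : Prm :=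
  ⟨1300, 3000, 1200, 3600, -40, 570, -570, 50, -920, 0, -930, 240, 1525, 7, 6396, 5966, 5, 3, 4826, 1582, 1272, 500⟩
def s11 : SPrm :=
  ⟨1500, 3600, 1300, 4200, 1850, 7, 6580, 6340, 4, 2, 2760, 2045, 4728, 900, 821, 1145, 1351, 1145, 1351, 700, 492⟩
def s1n : SPrm :=
  ⟨1300, 3000, 1300, 4200, 1855, 7, 6771, 6581, 5, 2, 2765, 1600, 2747, 820, 679, 1145, 1351, 980, 979, 840, 713⟩
def sn1 : SPrm :=
  ⟨1500, 3600, 1200, 3600, 1575, 6, 6038, 5768, 3, 2, 2295, 2375, 6680, 1230, 1570, 980, 979, 1145, 1351, 1050, 1129⟩
def snn : SPrm :=
  ⟨1300, 3000, 1200, 3600, 1525, 7, 6396, 5966, 5, 3, 2365, 1930, 4150, 1160, 1388, 980, 979, 980, 979, 1000, 1020⟩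

theorem ok11 : Ok p11 := by constructor <;> decide +kernel
theorem okU11 : OkU p11 := by constructor <;> decide +kernel
theorem cov11 : Cov p11 s11 := by constructor <;> decide +kernel
theorem ok1E : Ok p1E := by constructor <;> decide +kernel
theorem okU1E : OkU p1E := by constructor <;> decide +kernel
theorem cov1E : Cov p1E s1n := by constructor <;> decide +kernel
theorem ok1N : Ok p1N := by constructor <;> decide +kernel
theorem okU1N : OkU p1N := by constructor <;> decide +kernel
theorem cov1N : Cov p1N s1n := by constructor <;> decide +kernel
theorem ok1Z : Ok p1Z := by constructor <;> decide +kernel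
theorem okU1Z : OkU p1Z := by constructor <;> decide +kernel
theorem cov1Z : Cov p1Z s1n := by constructor <;> decide +kernel
theorem okE1 : Ok pE1 := by constructor <;> decide +kernel
theorem okUE1 : OkU pE1 := by constructor <;> decide +kernel
theorem covE1 : Cov pE1 sn1 := by constructor <;> decide +kernel
theorem okEE : Ok pEE := by constructor <;> decide +kernel
theorem okUEE : OkU pEE := by constructor <;> decide +kernel
theorem covEE : Cov pEE snn := by constructor <;> decide +kernel
theorem okEN : Ok pEN := by constructor <;> decide +kernel
theorem okUEN : OkU pEN := by constructor <;> decide +kernel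
theorem covEN : Cov pEN snn := by constructor <;> decide +kernel
theorem okEZ : Ok pEZ := by constructor <;> decide +kernel
theorem okUEZ : OkU pEZ := by constructor <;> decide +kernel
theorem covEZ : Cov pEZ snn := by constructor <;> decide +kernel
theorem okN1 : Ok pN1 := by constructor <;> decide +kernel
theorem okUN1 : OkU pN1 := by constructor <;> decide +kernel
theorem covN1 : Cov pN1 sn1 := by constructor <;> decide +kernel
theorem okNE : Ok pNE := by constructor <;> decide +kernel
theorem okUNE : OkU pNE := by constructor <;> decide +kernel
theorem covNE : Cov pNE snn := by constructor <;> decide +kernel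
theorem okNN : Ok pNN := by constructor <;> decide +kernel
theorem okUNN : OkU pNN := by constructor <;> decide +kernel
theorem covNN : Cov pNN snn := by constructor <;> decide +kernel
theorem okNZ : Ok pNZ := by constructor <;> decide +kernel
theorem okUNZ : OkU pNZ := by constructor <;> decide +kernel
theorem covNZ : Cov pNZ snn := by constructor <;> decide +kernel
theorem okD1 : Ok pD1 := by constructor <;> decide +kernel
theorem okUD1 : OkU pD1 := by constructor <;> decide +kernel
theorem covD1 : Cov pD1 sn1 := by constructor <;> decide +kernel
theorem okDE : Ok pDE := by constructor <;> decide +kernel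
theorem okUDE : OkU pDE := by constructor <;> decide +kernel
theorem covDE : Cov pDE snn := by constructor <;> decide +kernel
theorem okDN : Ok pDN := by constructor <;> decide +kernel
theorem okUDN : OkU pDN := by constructor <;> decide +kernel
theorem covDN : Cov pDN snn := by constructor <;> decide +kernel
theorem okDZ : Ok pDZ := by constructor <;> decide +kernel
theorem okUDZ : OkU pDZ := by constructor <;> decide +kernel
theorem covDZ : Cov pDZ snn := by constructor <;> decide +kernel
theorem oks11 : OkS s11 := by constructor <;> decide +kernel
theorem oks1n : OkS s1n := by constructor <;> decide +kernel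
theorem oksn1 : OkS sn1 := by constructor <;> decide +kernel
theorem oksnn : OkS snn := by constructor <;> decide +kernel

end M3

end Pool.Agent.Work.MP_b30479_gtS.G2

end

section

/-!
# Interior 3-runs, level part: certificates, a digit `1` on the left
-/

set_option deprecated.oldSectionVars true

namespace Pool.Agent.Work.MP_b30479_gtS.G2

namespace M3

open NumIs (E V chk)

theorem certL11 : okL p11 true false = true := by decide +kernel
theorem certU11 : okU p11 true = true := by decide +kernel
theorem certL1E : okL p1E true false = true := by decide +kernel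
theorem certU1E : okU p1E true = true := by decide +kernel
theorem certL1N : okL p1N true false = true := by decide +kernel
theorem certU1N : okU p1N true = true := by decide +kernel
theorem certL1Z : okL p1Z true false = true := by decide +kernel
theorem certU1Z : okU p1Z true = true := by decide +kernel

end M3

end Pool.Agent.Work.MP_b30479_gtS.G2

end

section

/-!
# Interior 3-runs, level part: certificates, a `2` on the left
-/

set_option deprecated.oldSectionVars true

namespace Pool.Agent.Work.MP_b30479_gtS.G2

namespace M3

open NumIs (E V chk)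

theorem certLD1 : okL pD1 false true = true := by decide +kernel
theorem certUD1 : okU pD1 true = true := by decide +kernel
theorem certLDE : okL pDE false true = true := by decide +kernel
theorem certUDE : okU pDE true = true := by decide +kernel
theorem certLDN : okL pDN false true = true := by decide +kernel
theorem certUDN : okU pDN true = true := by decide +kernel
theorem certLDZ : okL pDZ false true = true := by decide +kernel
theorem certUDZ : okU pDZ true = true := by decide +kernel

end M3

end Pool.Agent.Work.MP_b30479_gtS.G2

end

section

/-!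
# Interior 3-runs, level part: certificates, a `2` at an end on the left
-/

set_option deprecated.oldSectionVars true

namespace Pool.Agent.Work.MP_b30479_gtS.G2

namespace M3

open NumIs (E V chk)

theorem certLE1 : okL pE1 true true = true := by decide +kernel
theorem certUE1 : okU pE1 true = true := by decide +kernel
theorem certLEE : okL pEE true true = true := by decide +kernel
theorem certUEE : okU pEE true = true := by decide +kernel
theorem certLEN : okL pEN true true = true := by decide +kernel
theorem certUEN : okU pEN true = true := by decide +kernel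
theorem certLEZ : okL pEZ true true = true := by decide +kernel
theorem certUEZ : okU pEZ true = true := by decide +kernel

end M3

end Pool.Agent.Work.MP_b30479_gtS.G2

end

section

/-!
# Interior 3-runs, level part: certificates, any other region on the left
-/

set_option deprecated.oldSectionVars true

namespace Pool.Agent.Work.MP_b30479_gtS.G2

namespace M3

open NumIs (E V chk)

theorem certLN1 : okL pN1 false true = true := by decide +kernel
theorem certUN1 : okU pN1 true = true := by decide +kernel
theorem certLNE : okL pNE false true = true := by decide +kernel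
theorem certUNE : okU pNE true = true := by decide +kernel
theorem certLNN : okL pNN false true = true := by decide +kernel
theorem certUNN : okU pNN true = true := by decide +kernel
theorem certLNZ : okL pNZ false true = true := by decide +kernel
theorem certUNZ : okU pNZ true = true := by decide +kernel

end M3

end Pool.Agent.Work.MP_b30479_gtS.G2

end

section

/-!
# Interior 3-runs, level part: certificates of the determinants, a part
-/

set_option deprecated.oldSectionVars true

namespace Pool.Agent.Work.MP_b30479_gtS.G2

namespace M3

open NumIs (E V chk)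

theorem c1n_F0Rm :
    okF s1n 0 s1n.hR (-1) = true := by decide +kernel

theorem c1n_F00p :
    okF s1n 0 0 1 = true := by decide +kernel

theorem c1n_F0Rp :
    okF s1n 0 s1n.hR 1 = true := by decide +kernel

theorem c1n_FPRm :
    okF s1n s1n.hP s1n.hR (-1) = true := by decide +kernel

end M3

end Pool.Agent.Work.MP_b30479_gtS.G2

end

section

/-!
# Interior 3-runs, level part: certificates of the determinants, a part
-/

set_option deprecated.oldSectionVars true

namespace Pool.Agent.Work.MP_b30479_gtS.G2

namespace M3

open NumIs (E V chk)

theorem cn1_2a :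
    okS2 sn1 0 false = true := by decide +kernel

theorem cn1_FPRm :
    okF sn1 sn1.hP sn1.hR (-1) = true := by decide +kernel

theorem cn1_F00p :
    okF sn1 0 0 1 = true := by decide +kernel

end M3

end Pool.Agent.Work.MP_b30479_gtS.G2

end

section

/-!
# Interior 3-runs, level part: certificates of the determinants, a part
-/

set_option deprecated.oldSectionVars true

namespace Pool.Agent.Work.MP_b30479_gtS.G2

namespace M3

open NumIs (E V chk)

theorem cnn_F00p :
    okF snn 0 0 1 = true := by decide +kernel

end M3

end Pool.Agent.Work.MP_b30479_gtS.G2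

end
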