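import Pool.Agent.Work.MP_b30479_gt.TBS.G2.M3N
import Pool.Agent.Work.MP_b30479_gt.TBS.G2.M3P

section

/-!
# Interior 3-runs, level part: certificates of the determinants, a part
-/

set_option deprecated.oldSectionVars true

namespace Pool.Agent.Work.MP_b30479_gtS.G2

namespace M3

open NumIs (E V chk)

theorem c11_FP0p_RRRLR :
    chk (esF s11 s11.hP 0 1) 55 (rgt (esF s11 s11.hP 0 1) (lft (esF s11 s11.hP 0 1) (rgt (esF s11 s11.hP 0 1) (rgt (esF s11 s11.hP 0 1) (rgt (esF s11 s11.hP 0 1) (boxS3 s11)))))) = true := by decide +kernel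

theorem c11_F00p :
    okF s11 0 0 1 = true := by decide +kernel

theorem c11_FP0p_RRLRL :
    chk (esF s11 s11.hP 0 1) 55 (lft (esF s11 s11.hP 0 1) (rgt (esF s11 s11.hP 0 1) (lft (esF s11 s11.hP 0 1) (rgt (esF s11 s11.hP 0 1) (rgt (esF s11 s11.hP 0 1) (boxS3 s11)))))) = true := by decide +kernel

end M3

end Pool.Agent.Work.MP_b30479_gtS.G2

end

section

/-!
# Interior 3-runs, level part: certificates of the determinants, a part
-/

set_option deprecated.oldSectionVars true

namespace Pool.Agent.Work.MP_b30479_gtS.G2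

namespace M3

open NumIs (E V chk)

theorem c11_FP0p_RL :
    chk (esF s11 s11.hP 0 1) 58 (lft (esF s11 s11.hP 0 1) (rgt (esF s11 s11.hP 0 1) (boxS3 s11))) = true := by decide +kernel

theorem c11_2b :
    okS2 s11 s11.hP false = true := by decide +kernel

theorem c11_FP0p_RRLRRL :
    chk (esF s11 s11.hP 0 1) 54 (lft (esF s11 s11.hP 0 1) (rgt (esF s11 s11.hP 0 1) (rgt (esF s11 s11.hP 0 1) (lft (esF s11 s11.hP 0 1) (rgt (esF s11 s11.hP 0 1) (rgt (esF s11 s11.hP 0 1) (boxS3 s11))))))) = true := by decide +kernel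

theorem c11_G00m :
    okG s11 0 0 (-1) = true := by decide +kernel

theorem c11_GP0m :
    okG s11 s11.hP 0 (-1) = true := by decide +kernel

theorem c11_0 :
    okS0 s11 = true := by decide +kernel

end M3

end Pool.Agent.Work.MP_b30479_gtS.G2

end

section

/-!
# Interior 3-runs, level part: certificates of the determinants, a part
-/

set_option deprecated.oldSectionVars true

namespace Pool.Agent.Work.MP_b30479_gtS.G2

namespace M3

open NumIs (E V chk)

theorem c1n_FP0p_RR :
    chk (esF s1n s1n.hP 0 1) 58 (rgt (esF s1n s1n.hP 0 1) (rgt (esF s1n s1n.hP 0 1) (boxS3 s1n))) = true := by decide +kernel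

theorem c1n_2b :
    okS2 s1n s1n.hP false = true := by decide +kernel

theorem c1n_FP0m :
    okF s1n s1n.hP 0 (-1) = true := by decide +kernel

end M3

end Pool.Agent.Work.MP_b30479_gtS.G2

end

section

/-!
# Interior 3-runs, level part: certificates of the determinants, a part
-/

set_option deprecated.oldSectionVars true

namespace Pool.Agent.Work.MP_b30479_gtS.G2

namespace M3

open NumIs (E V chk)

theorem cn1_G00p :
    okG sn1 0 0 1 = true := by decide +kernel

theorem cn1_FPRp_L :
    chk (esF sn1 sn1.hP sn1.hR 1) 59 (lft (esF sn1 sn1.hP sn1.hR 1) (boxS3 sn1)) = true := by decide +kernel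

theorem cn1_GP0m :
    okG sn1 sn1.hP 0 (-1) = true := by decide +kernel

theorem cn1_G00m :
    okG sn1 0 0 (-1) = true := by decide +kernel

theorem cn1_0 :
    okS0 sn1 = true := by decide +kernel

end M3

end Pool.Agent.Work.MP_b30479_gtS.G2

end
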