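import Pool.Agent.Work.MP_b30479_gt.TBS.G2.M3N
import Pool.Agent.Work.MP_b30479_gt.TBS.G2.M3P

section

/-!
# Interior 3-runs, level part: certificates of the determinants, a part
-/

set_option deprecated.oldSectionVars true

namespace Pool.Agent.Work.MP_b30479_gtS.G2

namespace M3

open NumIs (E V chk)

theorem c11_GP0p_RR :
    chk (esG s11 s11.hP 0 1) 58 (rgt (esG s11 s11.hP 0 1) (rgt (esG s11 s11.hP 0 1) (boxS3 s11))) = true := by decide +kernel

theorem c11_2a :
    okS2 s11 0 false = true := by decide +kernel

theorem c11_FPRm :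
    okF s11 s11.hP s11.hR (-1) = true := by decide +kernel

end M3

end Pool.Agent.Work.MP_b30479_gtS.G2

end

section

/-!
# Interior 3-runs, level part: certificates of the determinants, a part
-/

set_option deprecated.oldSectionVars true

namespace Pool.Agent.Work.MP_b30479_gtS.G2

namespace M3

open NumIs (E V chk)

theorem c11_G00p_RRL :
    chk (esG s11 0 0 1) 57 (lft (esG s11 0 0 1) (rgt (esG s11 0 0 1) (rgt (esG s11 0 0 1) (boxS3 s11)))) = true := by decide +kernel

theorem c11_G00p_L :
    chk (esG s11 0 0 1) 59 (lft (esG s11 0 0 1) (boxS3 s11)) = true := by decide +kernel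

theorem c11_FP0p_RRLL :
    chk (esF s11 s11.hP 0 1) 56 (lft (esF s11 s11.hP 0 1) (lft (esF s11 s11.hP 0 1) (rgt (esF s11 s11.hP 0 1) (rgt (esF s11 s11.hP 0 1) (boxS3 s11))))) = true := by decide +kernel

theorem c11_F0Rm :
    okF s11 0 s11.hR (-1) = true := by decide +kernel

theorem c11_FP0p_RRRR :
    chk (esF s11 s11.hP 0 1) 56 (rgt (esF s11 s11.hP 0 1) (rgt (esF s11 s11.hP 0 1) (rgt (esF s11 s11.hP 0 1) (rgt (esF s11 s11.hP 0 1) (boxS3 s11))))) = true := by decide +kernel

end M3

end Pool.Agent.Work.MP_b30479_gtS.G2

end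

section

/-!
# Interior 3-runs, level part: certificates of the determinants, a part
-/

set_option deprecated.oldSectionVars true

namespace Pool.Agent.Work.MP_b30479_gtS.G2

namespace M3

open NumIs (E V chk)

theorem c1n_G00p_R :
    chk (esG s1n 0 0 1) 59 (rgt (esG s1n 0 0 1) (boxS3 s1n)) = true := by decide +kernel

theorem c1n_2a :
    okS2 s1n 0 false = true := by decide +kernel

theorem c1n_GP0p_RRLR :
    chk (esG s1n s1n.hP 0 1) 56 (rgt (esG s1n s1n.hP 0 1) (lft (esG s1n s1n.hP 0 1) (rgt (esG s1n s1n.hP 0 1) (rgt (esG s1n s1n.hP 0 1) (boxS3 s1n))))) = true := by decide +kernel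

theorem c1n_FP0p_L :
    chk (esF s1n s1n.hP 0 1) 59 (lft (esF s1n s1n.hP 0 1) (boxS3 s1n)) = true := by decide +kernel

end M3

end Pool.Agent.Work.MP_b30479_gtS.G2

end

section

/-!
# Interior 3-runs, level part: certificates of the determinants, a part
-/

set_option deprecated.oldSectionVars true

namespace Pool.Agent.Work.MP_b30479_gtS.G2

namespace M3

open NumIs (E V chk)

theorem cn1_GP0p_L :
    chk (esG sn1 sn1.hP 0 1) 59 (lft (esG sn1 sn1.hP 0 1) (boxS3 sn1)) = true := by decide +kernel

theorem cn1_FP0p :
    okF sn1 sn1.hP 0 1 = true := by decide +kernel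

theorem cn1_FP0m :
    okF sn1 sn1.hP 0 (-1) = true := by decide +kernel

end M3

end Pool.Agent.Work.MP_b30479_gtS.G2

end

section

/-!
# Interior 3-runs, level part: certificates of the determinants, a part
-/

set_option deprecated.oldSectionVars true

namespace Pool.Agent.Work.MP_b30479_gtS.G2

namespace M3

open NumIs (E V chk)

theorem cn1_2b :
    okS2 sn1 sn1.hP false = true := by decide +kernel

theorem cn1_F0Rp :
    okF sn1 0 sn1.hR 1 = true := by decide +kernel

theorem cn1_F0Rm :
    okF sn1 0 sn1.hR (-1) = true := by decide +kernel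

end M3

end Pool.Agent.Work.MP_b30479_gtS.G2

end

section

/-!
# Interior 3-runs, level part: certificates of the determinants, a part
-/

set_option deprecated.oldSectionVars true

namespace Pool.Agent.Work.MP_b30479_gtS.G2

namespace M3

open NumIs (E V chk)

theorem cnn_2b :
    okS2 snn snn.hP true = true := by decide +kernel

theorem cnn_F0Rp :
    okF snn 0 snn.hR 1 = true := by decide +kernel

theorem cnn_F00m :
    okF snn 0 0 (-1) = true := by decide +kernel

theorem cnn_FP0m :
    okF snn snn.hP 0 (-1) = true := by decide +kernel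

theorem cnn_0 :
    okS0 snn = true := by decide +kernel

end M3

end Pool.Agent.Work.MP_b30479_gtS.G2

end

section

/-!
# Interior 3-runs, level part: certificates of the determinants, a part
-/

set_option deprecated.oldSectionVars true

namespace Pool.Agent.Work.MP_b30479_gtS.G2

namespace M3

open NumIs (E V chk)

theorem cnn_FP0p :
    okF snn snn.hP 0 1 = true := by decide +kernel

theorem cnn_2a :
    okS2 snn 0 true = true := by decide +kernel

end M3

end Pool.Agent.Work.MP_b30479_gtS.G2

end
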