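import Pool.Agent.Work.MP_b30479_gt.TBS.G2.M3N
import Pool.Agent.Work.MP_b30479_gt.TBS.G2.M3P

section

/-!
# Interior 3-runs, level part: certificates of the determinants, a part
-/

set_option deprecated.oldSectionVars true

namespace Pool.Agent.Work.MP_b30479_gtS.G2

namespace M3

open NumIs (E V chk)

theorem c11_G00p_RRR :
    chk (esG s11 0 0 1) 57 (rgt (esG s11 0 0 1) (rgt (esG s11 0 0 1) (rgt (esG s11 0 0 1) (boxS3 s11)))) = true := by decide +kernel

theorem c11_F0Rp :
    okF s11 0 s11.hR 1 = true := by decide +kernel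

theorem c11_G00p_RL :
    chk (esG s11 0 0 1) 58 (lft (esG s11 0 0 1) (rgt (esG s11 0 0 1) (boxS3 s11))) = true := by decide +kernel

end M3

end Pool.Agent.Work.MP_b30479_gtS.G2

end

section

/-!
# Interior 3-runs, level part: certificates of the determinants, a part
-/

set_option deprecated.oldSectionVars true

namespace Pool.Agent.Work.MP_b30479_gtS.G2

namespace M3

open NumIs (E V chk)

theorem c11_GP0p_RL :
    chk (esG s11 s11.hP 0 1) 58 (lft (esG s11 s11.hP 0 1) (rgt (esG s11 s11.hP 0 1) (boxS3 s11))) = true := by decide +kernel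

theorem c11_FPRp :
    okF s11 s11.hP s11.hR 1 = true := by decide +kernel

theorem c11_GP0p_L :
    chk (esG s11 s11.hP 0 1) 59 (lft (esG s11 s11.hP 0 1) (boxS3 s11)) = true := by decide +kernel

end M3

end Pool.Agent.Work.MP_b30479_gtS.G2

end

section

/-!
# Interior 3-runs, level part: certificates of the determinants, a part
-/

set_option deprecated.oldSectionVars true

namespace Pool.Agent.Work.MP_b30479_gtS.G2

namespace M3

open NumIs (E V chk)

theorem c1n_GP0p_RRLLR :
    chk (esG s1n s1n.hP 0 1) 55 (rgt (esG s1n s1n.hP 0 1) (lft (esG s1n s1n.hP 0 1) (lft (esG s1n s1n.hP 0 1) (rgt (esG s1n s1n.hP 0 1) (rgt (esG s1n s1n.hP 0 1) (boxS3 s1n)))))) = true := by decide +kernel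

theorem c1n_GP0p_RLRR :
    chk (esG s1n s1n.hP 0 1) 56 (rgt (esG s1n s1n.hP 0 1) (rgt (esG s1n s1n.hP 0 1) (lft (esG s1n s1n.hP 0 1) (rgt (esG s1n s1n.hP 0 1) (boxS3 s1n))))) = true := by decide +kernel

theorem c1n_G00p_L :
    chk (esG s1n 0 0 1) 59 (lft (esG s1n 0 0 1) (boxS3 s1n)) = true := by decide +kernel

end M3

end Pool.Agent.Work.MP_b30479_gtS.G2

end

section

/-!
# Interior 3-runs, level part: certificates of the determinants, a part
-/

set_option deprecated.oldSectionVars true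

namespace Pool.Agent.Work.MP_b30479_gtS.G2

namespace M3

open NumIs (E V chk)

theorem c1n_GP0p_RLL :
    chk (esG s1n s1n.hP 0 1) 57 (lft (esG s1n s1n.hP 0 1) (lft (esG s1n s1n.hP 0 1) (rgt (esG s1n s1n.hP 0 1) (boxS3 s1n)))) = true := by decide +kernel

theorem c1n_GP0p_RLRL :
    chk (esG s1n s1n.hP 0 1) 56 (lft (esG s1n s1n.hP 0 1) (rgt (esG s1n s1n.hP 0 1) (lft (esG s1n s1n.hP 0 1) (rgt (esG s1n s1n.hP 0 1) (boxS3 s1n))))) = true := by decide +kernel

theorem c1n_GP0p_RRR :
    chk (esG s1n s1n.hP 0 1) 57 (rgt (esG s1n s1n.hP 0 1) (rgt (esG s1n s1n.hP 0 1) (rgt (esG s1n s1n.hP 0 1) (boxS3 s1n)))) = true := by decide +kernel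

theorem c1n_F00m :
    okF s1n 0 0 (-1) = true := by decide +kernel

theorem c1n_G00m :
    okG s1n 0 0 (-1) = true := by decide +kernel

theorem c1n_GP0m :
    okG s1n s1n.hP 0 (-1) = true := by decide +kernel

theorem c1n_0 :
    okS0 s1n = true := by decide +kernel

end M3

end Pool.Agent.Work.MP_b30479_gtS.G2

end
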