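import Pool.Agent.Work.MP_b30479_gt.TBS.G2.MLT
import Pool.Agent.Work.MP_b30479_gt.TBS.G2.WLocX
import Pool.Agent.Work.MP_b30479_gt.TBS.G2.WMid

section

/-!
# Level push of a digit `1`: certificates

Generated.
-/

namespace Pool.Agent.Work.MP_b30479_gtS.G2.MQ

open NumIs NumIs.E

variable {t t' : ℝ}

theorem s1_c : runT (cS 0 6451 0 730)
    (.x (.y (.x (.y (.y (.x (.y (.x (.y (.x .a .a) .a) .a) (.x .a .a)) (.y .a .a)) (.x (.x .a .a) .c))
    (.x (.y .c .c) .c)) (.y (.y (.x .a .c) .c) .b)) (.x (.x (.y .b (.y .b (.y .b .b))) (.y .b (.y .b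
    (.y .b (.y .b .b))))) (.y (.y .b (.x .b .b)) (.y (.y (.x .b .b) (.x .b (.y .b .b))) (.y (.x (.y .b
    .b) (.y (.x .b .b) (.x .b .b))) (.x (.y .b (.x .b .b)) (.x (.y .b (.x .b .b)) .d))))))) (.y (.y
    (.x .c (.y .b .b)) (.x (.y .b .b) (.x (.y .b .b) (.y .b (.y .b .b))))) (.y (.x (.y (.y .b (.x .b
    .b)) (.y (.x .b (.x .b .b)) (.x .b (.x .b (.y .b .b))))) (.y (.x (.y .b (.x .b .b)) (.y (.x .b .b)
    (.x (.y .b .b) .d))) (.x (.y (.x .b (.y .b .b)) (.x (.y .b .d) .d)) .d))) (.x (.y (.x (.y (.x .b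
    .b) (.y (.x .b .b) (.x .b .d))) (.y (.x (.y .b .b) .d) .d)) (.x (.y (.x (.y (.x .b .b) .d) .d) .d)
    .d)) .d))))
    [V.of 1000 150 500 4, V.of 1000 150 640 4] = true := by decide +kernel

theorem s1 (h1 : |t| ≤ (800 : ℝ) / 10000) :
    LevS 150 500 150 640 730 t t' :=
  levS_of (t0 := 0) (t1 := 800) (τ := 0) s1_c (by decide +kernel) (by push_cast; exact h1)
    (Or.inl le_rfl) (Or.inl le_rfl)

theorem s2_c : runT (cS 0 4362 0 730)
    (.x (.y (.x (.y (.x (.y (.x (.y (.x .a .a) .a) .a) (.x .a .a)) (.y (.x .a .a) .a)) (.x (.y .a .c)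
    .c)) (.y (.y (.x .a .c) .c) .c)) (.x (.x (.y .c .b) (.y .b .b)) (.y .b (.y .b .b)))) (.y (.y (.x
    .c .b) (.x .b (.y .b .b))) (.y (.x (.x .b .b) (.x (.y .b .b) (.y .b (.x .b (.y .b .b))))) (.x (.y
    (.x .b .b) (.x .b (.y .b (.x .b .b)))) (.y (.x (.y .b (.x .b .b)) (.y (.x .b .b) (.x .b .d))) (.x
    (.y (.x .b .b) (.x .b .d)) .d))))))
    [V.of 1000 150 500 4, V.of 1000 130 500 4] = true := by decide +kernel

theorem s2 (h1 : |t| ≤ (660 : ℝ) / 10000) :
    LevS 150 500 130 500 730 t t' :=
  levS_of (t0 := 0) (t1 := 660) (τ := 0) s2_c (by decide +kernel) (by push_cast; exact h1)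
    (Or.inl le_rfl) (Or.inl le_rfl)

theorem s3_c : runT (cS 98 8399 6125 730)
    (.x (.y (.x (.y (.x (.y (.x (.y (.x .a .a) .a) .a) (.x .a .a)) (.y .a .a)) (.x (.y .a .c) .c)) (.y
    (.y (.x .a .c) .c) .c)) (.x (.y .c (.x .b .b)) (.y .b (.x .b .b)))) (.y (.y (.y .c .b) (.x .b (.y
    .b .b))) (.y (.x (.x .b .b) (.x (.y .b .b) (.y .b (.y .b .b)))) (.x (.y (.y .b .b) (.x .b .b)) (.y
    (.x (.y .b .b) (.y (.x .b .b) (.x .b .d))) (.x (.y .b .b) .d))))))
    [V.of 1000 160 500 4, V.of 1000 130 500 4] = true := by decide +kernel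

theorem s3 (h1 : |t| ≤ (910 : ℝ) / 10000) (h2 : (100 : ℝ) / 10000 ≤ t) (h3 : (780 : ℝ) / 10000 ≤ t + t') :
    LevS 160 500 130 500 730 t t' :=
  levS_of (t0 := 100) (t1 := 910) (τ := 780) s3_c (by decide +kernel) (by push_cast; exact h1)
    (Or.inr (by push_cast; exact h2)) (Or.inr (by push_cast; exact h3))

theorem s4_c : runT (cS 2291 9990 435 730)
    (.x (.x (.y (.x (.y (.x .a .a) .a) .c) (.x .c .c)) (.y .c .b)) (.y (.x .b .b) (.x .b (.x .b .b))))
    [V.of 1000 160 500 4, V.of 1000 200 350 4] = true := by decide +kernel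

theorem s4 (h1 : |t| ≤ (990 : ℝ) / 10000) (h2 : (480 : ℝ) / 10000 ≤ t) (h3 : (210 : ℝ) / 10000 ≤ t + t') :
    LevS 160 500 200 350 730 t t' :=
  levS_of (t0 := 480) (t1 := 990) (τ := 210) s4_c (by decide +kernel) (by push_cast; exact h1)
    (Or.inr (by push_cast; exact h2)) (Or.inr (by push_cast; exact h3))

theorem s5_c : runT (cS 0 36 0 730)
    (.x (.y (.x (.y (.x .a .a) .a) (.y .a .a)) (.x (.y .a .c) .c)) (.y (.x (.y .a .c) .c) .c))
    [V.of 1000 140 350 4, V.of 1000 140 350 4] = true := by decide +kernel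

theorem s5 (h1 : |t| ≤ (60 : ℝ) / 10000) :
    LevS 140 350 140 350 730 t t' :=
  levS_of (t0 := 0) (t1 := 60) (τ := 0) s5_c (by decide +kernel) (by push_cast; exact h1)
    (Or.inl le_rfl) (Or.inl le_rfl)

theorem s6_c : runT (cS 0 3476 0 730)
    (.x (.y (.y (.x (.y (.x (.y .a .a) .a) (.x .a .a)) (.y (.x .a .a) .c)) (.x (.y .c .c) .c)) (.x (.y
    .b (.y .b (.x .b .b))) (.y .b (.y .b (.y .b (.y .b .b)))))) (.y (.y (.y (.x .c .c) .c) (.x .b .b))
    (.y (.x (.y .b .b) (.y .b (.y .b .b))) (.y (.y (.x .b (.y .b .b)) (.x .b (.x .b (.y .b .b)))) (.y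
    (.x (.y .b .b) (.x (.y .b .b) (.y (.x .b .b) .d))) (.x (.y (.x .b .b) (.x .b (.y .b .b))) (.x (.y
    (.x .b .b) .d) .d)))))))
    [V.of 1000 140 350 4, V.of 1000 150 640 4] = true := by decide +kernel

theorem s6 (h1 : |t| ≤ (590 : ℝ) / 10000) :
    LevS 140 350 150 640 730 t t' :=
  levS_of (t0 := 0) (t1 := 590) (τ := 0) s6_c (by decide +kernel) (by push_cast; exact h1)
    (Or.inl le_rfl) (Or.inl le_rfl)

theorem s7_c : runT (cS 4772 6126 2589 730)
    (.x (.x (.y (.x (.y .a .a) .a) .c) (.y .c .c)) (.y .c .b))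
    [V.of 1000 140 350 4, V.of 1000 200 350 4] = true := by decide +kernel

theorem s7 (h1 : |t| ≤ (780 : ℝ) / 10000) (h2 : (690 : ℝ) / 10000 ≤ t) (h3 : (510 : ℝ) / 10000 ≤ t + t') :
    LevS 140 350 200 350 730 t t' :=
  levS_of (t0 := 690) (t1 := 780) (τ := 510) s7_c (by decide +kernel) (by push_cast; exact h1)
    (Or.inr (by push_cast; exact h2)) (Or.inr (by push_cast; exact h3))

theorem s8_c : runT (cS 320 7302 0 730)
    (.y (.x (.y (.x (.y (.x .a .c) .c) (.y .c .b)) (.x .c .b)) (.y (.x .b .b) (.x (.y .b .b) (.y .b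
    (.x .b (.y .b .b)))))) (.y (.x (.x (.y .b .b) (.y .b (.y .b (.y .b .b)))) (.y (.x (.y .b (.x .b
    .b)) (.x (.y .b (.x .b .b)) (.y (.x .b .b) (.x (.y .b .b) .d)))) (.x (.y (.x .b (.y .b .b)) (.x
    (.y .b .b) (.y (.x .b .b) (.x .b .b)))) (.x (.y (.x (.y .b .b) .d) .d) .d)))) (.x (.y (.y (.x .b
    (.x .b (.y .b .b))) (.x (.y .b .b) (.x (.y .b .b) (.y (.x .b .b) (.x .b .b))))) (.x (.y (.x .b (.y
    .b .b)) (.y (.x .b (.x .b .b)) (.x .b (.x .b (.y .b .b))))) (.y (.x (.y (.x .b .b) (.x .b .b)) (.y
    (.x .b .d) .d)) (.x (.y (.x (.y .b .b) .d) .d) .d)))) (.x (.y (.y (.x (.y (.x .b .b) (.x .b .b))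
    .d) .d) .d) .d))))
    [V.of 1000 226 500 4, V.of 1000 150 640 4] = true := by decide +kernel

theorem s8 (h1 : |t| ≤ (850 : ℝ) / 10000) (h2 : (180 : ℝ) / 10000 ≤ t) :
    LevS 226 500 150 640 730 t t' :=
  levS_of (t0 := 180) (t1 := 850) (τ := 0) s8_c (by decide +kernel) (by push_cast; exact h1)
    (Or.inr (by push_cast; exact h2)) (Or.inl le_rfl)

theorem s9_c : runT (cS 2102 8978 6125 730)
    (.x (.y (.y (.x (.y .a .c) .c) (.x .c .b)) (.x (.y .b .b) (.y .b (.y .b .b)))) (.y (.y (.y .b .b)
    (.x .b (.x .b .b))) (.y (.x (.y .b .b) (.y (.x .b .b) (.x .b (.y .b (.x .b .b))))) (.x (.y (.x .b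
    .b) (.x .b .b)) (.y (.x (.y .b .b) (.y (.x .b .b) .d)) (.x (.y .b .b) .d))))))
    [V.of 1000 226 500 4, V.of 1000 160 510 4] = true := by decide +kernel

theorem s9 (h1 : |t| ≤ (940 : ℝ) / 10000) (h2 : (460 : ℝ) / 10000 ≤ t) (h3 : (780 : ℝ) / 10000 ≤ t + t') :
    LevS 226 500 160 510 730 t t' :=
  levS_of (t0 := 460) (t1 := 940) (τ := 780) s9_c (by decide +kernel) (by push_cast; exact h1)
    (Or.inr (by push_cast; exact h2)) (Or.inr (by push_cast; exact h3))

theorem s10_c : runT (cS 7658 13631 2589 730)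
    (.x (.x (.y .c .b) .c) (.y (.y .b .b) (.x .b (.x .b .b))))
    [V.of 1000 226 500 4, V.of 1000 200 350 4] = true := by decide +kernel

theorem s10 (h1 : |t| ≤ (1150 : ℝ) / 10000) (h2 : (870 : ℝ) / 10000 ≤ t) (h3 : (510 : ℝ) / 10000 ≤ t + t') :
    LevS 226 500 200 350 730 t t' :=
  levS_of (t0 := 870) (t1 := 1150) (τ := 510) s10_c (by decide +kernel) (by push_cast; exact h1)
    (Or.inr (by push_cast; exact h2)) (Or.inr (by push_cast; exact h3))

theorem s11_c : runT (cS 3127 17916 3241 730)
    (.x (.y (.y (.y (.x .a .c) .c) .b) (.y (.x .b .b) (.y (.x .b .b) (.y .b (.y .b .b))))) (.y (.y .c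
    .b) (.y (.y .b (.y .b .b)) (.y (.y .b (.x .b .b)) (.y (.x .b .b) (.x .b .b))))))
    [V.of 1000 214 360 4, V.of 1000 190 600 4] = true := by decide +kernel

theorem s11 (h1 : |t| ≤ (1310 : ℝ) / 10000) (h2 : (560 : ℝ) / 10000 ≤ t) (h3 : (570 : ℝ) / 10000 ≤ t + t') :
    LevS 214 360 190 600 730 t t' :=
  levS_of (t0 := 560) (t1 := 1310) (τ := 570) s11_c (by decide +kernel) (by push_cast; exact h1)
    (Or.inr (by push_cast; exact h2)) (Or.inr (by push_cast; exact h3))

theorem s12_c : runT (cS 1431 14384 618 730)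
    (.x (.y (.y (.y (.x .a .c) .c) .b) (.y (.y .b (.x .b .b)) (.y (.y .b (.x .b .b)) (.y (.x .b (.y .b
    .b)) (.y (.x .b (.x .b .b)) (.x (.y .b .b) (.x .b .b))))))) (.y (.y .c .b) (.y (.y .b (.y .b (.x
    .b .b))) (.y (.y (.x .b (.y .b .b)) (.x (.y .b .b) (.y .b (.x .b .b)))) (.y (.x (.y .b (.x .b .b))
    (.x (.y .b .b) .d)) (.x (.x (.y .b .b) .d) .d))))))
    [V.of 1000 214 360 4, V.of 1000 190 640 4] = true := by decide +kernel

theorem s12 (h1 : |t| ≤ (1180 : ℝ) / 10000) (h2 : (380 : ℝ) / 10000 ≤ t) (h3 : (250 : ℝ) / 10000 ≤ t + t') :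
    LevS 214 360 190 640 730 t t' :=
  levS_of (t0 := 380) (t1 := 1180) (τ := 250) s12_c (by decide +kernel) (by push_cast; exact h1)
    (Or.inr (by push_cast; exact h2)) (Or.inr (by push_cast; exact h3))

theorem s13a_c : runT (cS 4633 11282 435 730)
    (.x (.y (.y (.y .c .c) .b) (.y (.y .b .b) (.y (.y .b (.x .b .b)) (.y (.x .b (.y .b .b)) (.y (.x .b
    .b) (.x .b (.x .b .b))))))) (.y (.y .c .b) (.y (.y .b (.y .b (.x .b .b))) (.y (.y (.x .b (.y .b
    .b)) (.x (.y .b .b) (.x .b (.y .b .b)))) (.y (.x (.y .b (.x .b .b)) (.x (.y .b .b) .d)) (.x (.x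
    (.y .b .b) .d) .d))))))
    [V.of 1000 214 360 4, V.of 1000 190 640 4] = true := by decide +kernel

theorem s13a (h1 : |t| ≤ (1050 : ℝ) / 10000) (h2 : (680 : ℝ) / 10000 ≤ t) (h3 : (210 : ℝ) / 10000 ≤ t + t') :
    LevS 214 360 190 640 730 t t' :=
  levS_of (t0 := 680) (t1 := 1050) (τ := 210) s13a_c (by decide +kernel) (by push_cast; exact h1)
    (Or.inr (by push_cast; exact h2)) (Or.inr (by push_cast; exact h3))

theorem s13b_c : runT (cS 11281 14384 775 730)
    (.x (.y (.y (.y (.x .a .c) .c) .b) (.y (.y .b (.x .b .b)) (.y (.y .b (.x .b .b)) (.y (.x .b (.y .b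
    .b)) (.y (.x .b .b) (.x (.y .b .b) (.x .b .b))))))) (.y (.y .c .b) (.y (.y .b (.y .b (.x .b .b)))
    (.y (.y (.x .b (.y .b .b)) (.x (.y .b .b) (.x .b .b))) (.y (.x (.x .b .b) (.x .b .b)) (.x (.y (.x
    .b .b) .b) .b))))))
    [V.of 1000 214 360 4, V.of 1000 190 640 4] = true := by decide +kernel

theorem s13b (h1 : |t| ≤ (1180 : ℝ) / 10000) (h2 : (1050 : ℝ) / 10000 ≤ t) (h3 : (280 : ℝ) / 10000 ≤ t + t') :
    LevS 214 360 190 640 730 t t' :=
  levS_of (t0 := 1050) (t1 := 1180) (τ := 280) s13b_c (by decide +kernel) (by push_cast; exact h1)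
    (Or.inr (by push_cast; exact h2)) (Or.inr (by push_cast; exact h3))

theorem s13c_c : runT (cS 14383 17061 1668 730)
    (.x (.y (.y (.y (.x .a .c) .c) .b) (.y (.y .b (.x .b .b)) (.y (.y .b (.x .b .b)) (.y (.x .b .b)
    (.y (.x .b .b) (.x (.y .b .b) .b)))))) (.y (.y .c .b) (.y (.y .b (.y .b (.y .b .b))) (.y (.y (.x
    .b .b) (.x .b (.y .b .b))) (.y (.x (.y .b .b) .b) (.x .b .b))))))
    [V.of 1000 214 360 4, V.of 1000 190 640 4] = true := by decide +kernel

theorem s13c (h1 : |t| ≤ (1280 : ℝ) / 10000) (h2 : (1180 : ℝ) / 10000 ≤ t) (h3 : (410 : ℝ) / 10000 ≤ t + t') :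
    LevS 214 360 190 640 730 t t' :=
  levS_of (t0 := 1180) (t1 := 1280) (τ := 410) s13c_c (by decide +kernel) (by push_cast; exact h1)
    (Or.inr (by push_cast; exact h2)) (Or.inr (by push_cast; exact h3))

theorem s14_c : runT (cS 3968 22227 8977 730)
    (.y (.y (.x (.y (.x .a .a) .c) .c) (.x .c .b)) (.x (.y .b (.x .b .b)) (.y .b (.y .b .b))))
    [V.of 1000 214 360 4, V.of 1000 160 510 4] = true := by decide +kernel

theorem s14 (h1 : |t| ≤ (1450 : ℝ) / 10000) (h2 : (630 : ℝ) / 10000 ≤ t) (h3 : (940 : ℝ) / 10000 ≤ t + t') :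
    LevS 214 360 160 510 730 t t' :=
  levS_of (t0 := 630) (t1 := 1450) (τ := 940) s14_c (by decide +kernel) (by push_cast; exact h1)
    (Or.inr (by push_cast; exact h2)) (Or.inr (by push_cast; exact h3))

theorem s15_c : runT (cS 10198 26730 4097 730)
    (.x (.y (.x .c .c) .c) (.y .c .b))
    [V.of 1000 214 360 4, V.of 1000 200 350 4] = true := by decide +kernel

theorem s15 (h1 : |t| ≤ (1580 : ℝ) / 10000) (h2 : (1000 : ℝ) / 10000 ≤ t) (h3 : (640 : ℝ) / 10000 ≤ t + t') :
    LevS 214 360 200 350 730 t t' :=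
  levS_of (t0 := 1000) (t1 := 1580) (τ := 640) s15_c (by decide +kernel) (by push_cast; exact h1)
    (Or.inr (by push_cast; exact h2)) (Or.inr (by push_cast; exact h3))

theorem l1_c : runT (cL 320 7302 48 528 30 (-12835))
    (.y (.y (.x (.y (.x (.y (.x (.y (.x (.y .a .a) .a) .a) (.y .a .a)) (.x .a .a)) (.y (.x .a .a) .a))
    (.x (.x .a .a) .a)) (.y (.y (.x .a .a) (.x .a .c)) (.x .c .c))) (.x (.x (.y .c .c) .c) (.x .c (.y
    .b .b)))) (.x (.x (.y .b (.y .b (.x .b (.y .b .b)))) (.y (.x .b .b) (.y (.x .b .b) (.y (.x .b .b)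
    (.x (.y .b .b) (.y .b (.x .b (.x .b .d)))))))) (.y (.x (.y .b (.x .b .b)) (.y (.x .b .b) (.y (.x
    .b .b) (.x .b (.y .b (.y .b .b)))))) (.y (.y (.x (.x .b .b) (.y (.x .b (.x .b .d)) (.x (.y .b .b)
    .d))) (.y (.x (.x .b .b) (.y (.x (.x .b .d) .d) .d)) (.x (.x .b (.x .b .b)) .d))) (.x (.y (.y (.x
    .b (.x .b .d)) (.x (.y .b (.x .b .b)) .d)) (.y (.x (.y (.x .b .d) .d) .d) .d)) .d)))))
    [V.of 1000 130 314 4, V.of 1000 150 640 4] = true := by decide +kernel

theorem l1 (h1 : |t| ≤ (850 : ℝ) / 10000) (h2 : (180 : ℝ) / 10000 ≤ t) (h3 : (70 : ℝ) / 10000 ≤ t + t') :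
    LevL 130 314 150 640 528 30 (-12835) t t' :=
  levL_of (t0 := 180) (t1 := 850) (τ := 70) l1_c (by decide +kernel) (by push_cast; exact h1)
    (Or.inr (by push_cast; exact h2)) (Or.inr (by push_cast; exact h3))

theorem l2_c : runT (cL 2102 8978 6125 528 30 (-12835))
    (.y (.x (.y (.x (.y (.x (.y .a .a) .a) (.x .a .a)) (.y (.y .a .a) .a)) (.x (.y .a .c) .c)) (.y (.y
    (.x .a .c) (.x .c .c)) (.x .c .b))) (.x (.x (.y .c .b) (.y .b .b)) (.x (.y .b (.x .b .b)) (.y .b
    (.y .b (.x .b .b))))))
    [V.of 1000 130 314 4, V.of 1000 160 510 4] = true := by decide +kernel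

theorem l2 (h1 : |t| ≤ (940 : ℝ) / 10000) (h2 : (460 : ℝ) / 10000 ≤ t) (h3 : (780 : ℝ) / 10000 ≤ t + t') :
    LevL 130 314 160 510 528 30 (-12835) t t' :=
  levL_of (t0 := 460) (t1 := 940) (τ := 780) l2_c (by decide +kernel) (by push_cast; exact h1)
    (Or.inr (by push_cast; exact h2)) (Or.inr (by push_cast; exact h3))

theorem l3_c : runT (cL 7658 13631 2589 528 40 (-12835))
    (.x (.y (.x (.y (.x (.y .a .a) .a) (.x .a .a)) (.y (.x .a .a) .a)) (.x .c .c)) (.y (.y (.x .c .c)
    .c) (.x .c .b)))
    [V.of 1000 130 314 4, V.of 1000 200 350 4] = true := by decide +kernel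

theorem l3 (h1 : |t| ≤ (1150 : ℝ) / 10000) (h2 : (870 : ℝ) / 10000 ≤ t) (h3 : (510 : ℝ) / 10000 ≤ t + t') :
    LevL 130 314 200 350 528 40 (-12835) t t' :=
  levL_of (t0 := 870) (t1 := 1150) (τ := 510) l3_c (by decide +kernel) (by push_cast; exact h1)
    (Or.inr (by push_cast; exact h2)) (Or.inr (by push_cast; exact h3))

theorem l4_c : runT (cL 3127 17916 3241 462 35 (-12060))
    (.y (.y (.x (.y (.x (.y (.x .a .a) .a) (.y .a .a)) (.x .a .c)) (.y (.y .c .c) .c)) (.x (.x .c .c)
    (.y .b .b))) (.x (.x (.y .b (.y .b (.y .b .b))) (.y .b (.y .b (.y (.x .b .b) (.x .b (.y .b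
    .b)))))) (.y (.x (.y .b .b) (.y .b (.x .b (.y .b .b)))) (.y (.x (.y .b (.x .b .b)) (.y (.x .b .d)
    .d)) (.y (.x (.x .b .d) .d) .d)))))
    [V.of 1000 160 298 4, V.of 1000 190 600 4] = true := by decide +kernel

theorem l4 (h1 : |t| ≤ (1310 : ℝ) / 10000) (h2 : (560 : ℝ) / 10000 ≤ t) (h3 : (570 : ℝ) / 10000 ≤ t + t') :
    LevL 160 298 190 600 462 35 (-12060) t t' :=
  levL_of (t0 := 560) (t1 := 1310) (τ := 570) l4_c (by decide +kernel) (by push_cast; exact h1)
    (Or.inr (by push_cast; exact h2)) (Or.inr (by push_cast; exact h3))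

theorem l5a_c : runT (cL 1431 12662 618 462 35 (-12060))
    (.y (.y (.x (.y (.x (.y .a .a) .a) (.x .a .c)) (.y (.y .c .c) .c)) (.x (.x .c .c) (.y .b .b))) (.y
    (.x (.x .b (.y .b .b)) (.x (.y .b (.x .b .b)) (.y .b (.y (.x .b .b) (.x .b .d))))) (.y (.x (.x .b
    (.y .b (.x .b .b))) (.x (.y (.x .b .b) (.y (.x .b .d) .d)) .d)) (.x (.x (.y (.x .b .b) (.x (.y .b
    .b) (.y .b (.x .b .b)))) (.y (.x .b (.y .b .d)) (.y (.x (.y .b .d) .d) .d))) .d))))
    [V.of 1000 160 298 4, V.of 1000 190 640 4] = true := by decide +kernel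

theorem l5a (h1 : |t| ≤ (1110 : ℝ) / 10000) (h2 : (380 : ℝ) / 10000 ≤ t) (h3 : (250 : ℝ) / 10000 ≤ t + t') :
    LevL 160 298 190 640 462 35 (-12060) t t' :=
  levL_of (t0 := 380) (t1 := 1110) (τ := 250) l5a_c (by decide +kernel) (by push_cast; exact h1)
    (Or.inr (by push_cast; exact h2)) (Or.inr (by push_cast; exact h3))

theorem l5b_c : runT (cL 2388 14384 1668 462 35 (-12060))
    (.y (.y (.x (.y (.x (.y .a .a) .a) (.x .a .c)) (.y (.y .c .c) .c)) (.x (.x .c .c) (.y .b .b))) (.y
    (.x (.x .b (.y .b .b)) (.x (.y .b (.x .b .b)) (.y (.x .b .b) (.y (.x .b .b) (.x .b .d))))) (.y (.x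
    (.x (.x .b .b) (.y .b (.x .b .b))) (.x (.y (.x .b .b) (.y (.x .b .d) .d)) .d)) (.x (.y (.x (.x .b
    .b) (.x .b (.y .b .d))) (.x (.x (.y .b .b) (.y .b (.y .b .b))) (.y (.x (.y .b .b) .d) .d))) .d))))
    [V.of 1000 160 298 4, V.of 1000 190 640 4] = true := by decide +kernel

theorem l5b (h1 : |t| ≤ (1180 : ℝ) / 10000) (h2 : (490 : ℝ) / 10000 ≤ t) (h3 : (410 : ℝ) / 10000 ≤ t + t') :
    LevL 160 298 190 640 462 35 (-12060) t t' :=
  levL_of (t0 := 490) (t1 := 1180) (τ := 410) l5b_c (by decide +kernel) (by push_cast; exact h1)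
    (Or.inr (by push_cast; exact h2)) (Or.inr (by push_cast; exact h3))

theorem l6a_c : runT (cL 4633 11282 435 462 35 (-12060))
    (.y (.y (.x (.y (.x (.y .a .a) .a) (.x .a .c)) (.y (.y .c .c) .c)) (.x (.x .c .c) (.y .b .b))) (.y
    (.x (.x .b (.y .b .b)) (.x (.y .b (.x .b .b)) (.y .b (.y .b (.x .b .d))))) (.y (.x (.x .b (.y .b
    .b)) (.x (.y (.x .b .b) (.y (.x .b .b) .d)) .d)) (.x (.x (.y .b (.x .b (.y .b .b))) (.y (.x .b (.y
    .b .d)) (.y (.x .b .d) .d))) .d))))
    [V.of 1000 160 298 4, V.of 1000 190 640 4] = true := by decide +kernel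

theorem l6a (h1 : |t| ≤ (1050 : ℝ) / 10000) (h2 : (680 : ℝ) / 10000 ≤ t) (h3 : (210 : ℝ) / 10000 ≤ t + t') :
    LevL 160 298 190 640 462 35 (-12060) t t' :=
  levL_of (t0 := 680) (t1 := 1050) (τ := 210) l6a_c (by decide +kernel) (by push_cast; exact h1)
    (Or.inr (by push_cast; exact h2)) (Or.inr (by push_cast; exact h3))

theorem l6b_c : runT (cL 11281 14384 775 462 35 (-12060))
    (.y (.y (.x (.y (.x (.y (.x .a .a) .a) .a) (.x .a .c)) (.y (.y .c .c) .c)) (.x (.x .c .c) (.y .b
    .b))) (.y (.x (.x .b (.y .b .b)) (.x (.y .b (.x .b .b)) (.y (.x .b .b) (.y (.x .b .b) (.x .b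
    .d))))) (.y (.x (.x (.x .b .b) (.y .b (.x .b .b))) (.x (.y (.x .b (.y .b .b)) (.y (.x .b .d) .d))
    .d)) (.x (.y (.x (.x .b .b) (.y (.x .b (.y .b .b)) (.x .b .d))) (.x (.x (.y .b (.x .b .b)) (.y .b
    (.y (.x .b (.y .b .b)) (.x (.y .b (.x .b (.y .b .b))) .d)))) (.y (.x (.y (.x .b .d) .d) .d) .d)))
    .d))))
    [V.of 1000 160 298 4, V.of 1000 190 640 4] = true := by decide +kernel

theorem l6b (h1 : |t| ≤ (1180 : ℝ) / 10000) (h2 : (1050 : ℝ) / 10000 ≤ t) (h3 : (280 : ℝ) / 10000 ≤ t + t') :
    LevL 160 298 190 640 462 35 (-12060) t t' :=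
  levL_of (t0 := 1050) (t1 := 1180) (τ := 280) l6b_c (by decide +kernel) (by push_cast; exact h1)
    (Or.inr (by push_cast; exact h2)) (Or.inr (by push_cast; exact h3))

theorem l6c_c : runT (cL 14383 15557 1668 462 42 (-12060))
    (.y (.y (.x (.y (.x (.y (.x .a .a) .a) (.y .a .a)) (.x .a .c)) (.y (.x .c .c) .c)) (.x (.y .c .b)
    (.y .b (.x .b .b)))) (.y (.x (.y .b (.x .b .b)) (.x (.y .b (.x .b (.y .b .b))) (.y (.y .b .b) (.y
    (.x .b (.y .b (.x .b .d))) (.x (.y .b (.y .b .d)) .d))))) (.y (.x (.x (.x .b .b) (.y .b (.x .b (.y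
    .b .b)))) (.x (.y (.x .b (.y .b .d)) (.y (.x (.y .b .b) .d) .d)) .d)) (.x (.y (.x (.x .b .b) (.y
    (.x .b (.x .b .d)) (.x (.x .b .b) .d))) (.x (.x (.y .b (.x .b .b)) (.y (.x .b .b) (.y (.x .b (.y
    .b .b)) (.x (.y .b .b) .d)))) (.y (.x (.y (.x .b .d) .d) .d) .d))) .d))))
    [V.of 1000 160 298 4, V.of 1000 190 640 4] = true := by decide +kernel

theorem l6c (h1 : |t| ≤ (1225 : ℝ) / 10000) (h2 : (1180 : ℝ) / 10000 ≤ t) (h3 : (410 : ℝ) / 10000 ≤ t + t') :
    LevL 160 298 190 640 462 42 (-12060) t t' :=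
  levL_of (t0 := 1180) (t1 := 1225) (τ := 410) l6c_c (by decide +kernel) (by push_cast; exact h1)
    (Or.inr (by push_cast; exact h2)) (Or.inr (by push_cast; exact h3))

theorem l6d_c : runT (cL 15556 16368 2057 462 42 (-12060))
    (.y (.y (.x (.y (.x (.y (.x .a .a) .a) (.y .a .a)) (.x .a .c)) (.y (.x .c .c) .c)) (.x (.y .c .b)
    (.y .b (.x .b .b)))) (.y (.x (.y .b (.x .b .b)) (.x (.y .b (.x .b (.y .b .b))) (.y (.x .b (.x .b
    .b)) (.y (.x .b (.y .b (.x .b .d))) (.x (.y .b (.y .b .d)) .d))))) (.y (.x (.x (.x .b .b) (.y .b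
    (.x .b (.y .b .b)))) (.x (.y (.x .b (.y .b .d)) (.y (.x (.x .b .b) .d) .d)) .d)) (.x (.y (.x (.x
    .b .b) (.y (.x .b (.x .b .d)) (.x (.y .b (.x .b .b)) .d))) (.x (.x (.y .b (.x .b .b)) (.y (.x .b
    .b) (.y (.x .b (.x .b .d)) (.x (.y .b (.x .b .b)) .d)))) (.y (.x (.y (.x .b .d) .d) .d) .d)))
    .d))))
    [V.of 1000 160 298 4, V.of 1000 190 640 4] = true := by decide +kernel

theorem l6d (h1 : |t| ≤ (1255 : ℝ) / 10000) (h2 : (1225 : ℝ) / 10000 ≤ t) (h3 : (455 : ℝ) / 10000 ≤ t + t') :
    LevL 160 298 190 640 462 42 (-12060) t t' :=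
  levL_of (t0 := 1225) (t1 := 1255) (τ := 455) l6d_c (by decide +kernel) (by push_cast; exact h1)
    (Or.inr (by push_cast; exact h2)) (Or.inr (by push_cast; exact h3))

theorem l6e_c : runT (cL 16367 17061 2339 462 42 (-12060))
    (.y (.y (.x (.y (.x (.y (.y .a .a) .a) (.y .a .a)) (.x .a .c)) (.y (.x .c .c) .c)) (.x (.y .c .b)
    (.y .b (.x .b .b)))) (.y (.x (.y .b (.x .b .b)) (.x (.y .b (.x .b (.y .b .b))) (.y (.x .b (.x .b
    .b)) (.y (.x .b (.y .b (.x .b .d))) (.x (.y .b (.y .b .d)) .d))))) (.y (.x (.x (.x .b .b) (.y .b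
    (.x .b (.y .b .b)))) (.x (.y (.x (.y .b .b) (.y .b .d)) (.y (.x (.x .b .d) .d) .d)) .d)) (.x (.y
    (.x (.x .b .b) (.y (.x .b (.x .b .d)) (.x (.y .b (.x .b .b)) .d))) (.x (.x (.y .b (.x .b .b)) (.y
    (.x .b .b) (.y (.x .b (.x .b .d)) (.x (.y .b (.x .b (.x .b .d))) .d)))) (.y (.x (.y (.x .b .d) .d)
    .d) .d))) .d))))
    [V.of 1000 160 298 4, V.of 1000 190 640 4] = true := by decide +kernel

theorem l6e (h1 : |t| ≤ (1280 : ℝ) / 10000) (h2 : (1255 : ℝ) / 10000 ≤ t) (h3 : (485 : ℝ) / 10000 ≤ t + t') :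
    LevL 160 298 190 640 462 42 (-12060) t t' :=
  levL_of (t0 := 1255) (t1 := 1280) (τ := 485) l6e_c (by decide +kernel) (by push_cast; exact h1)
    (Or.inr (by push_cast; exact h2)) (Or.inr (by push_cast; exact h3))

theorem l7a_c : runT (cL 3968 12426 8977 462 40 (-12060))
    (.y (.y (.x (.y (.x (.y .a .a) .a) (.x .a .a)) (.y (.x .a .c) .c)) (.x (.y .c .c) .c)) (.x (.y .c
    (.x .b .b)) (.x (.y .b (.x .b .b)) (.y .b (.y .b (.y .b .b))))))
    [V.of 1000 160 298 4, V.of 1000 160 510 4] = true := by decide +kernel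

theorem l7a (h1 : |t| ≤ (1100 : ℝ) / 10000) (h2 : (630 : ℝ) / 10000 ≤ t) (h3 : (940 : ℝ) / 10000 ≤ t + t') :
    LevL 160 298 160 510 462 40 (-12060) t t' :=
  levL_of (t0 := 630) (t1 := 1100) (τ := 940) l7a_c (by decide +kernel) (by push_cast; exact h1)
    (Or.inr (by push_cast; exact h2)) (Or.inr (by push_cast; exact h3))

theorem l7b_c : runT (cL 12425 16231 10624 462 40 (-12060))
    (.y (.y (.x (.y (.x (.y (.x .a .a) .a) (.y .a .a)) (.x .a .a)) (.y (.x .a .c) .c)) (.x (.y .c .c)
    .c)) (.x (.y .c (.x .b .b)) (.y (.x .b .b) (.x (.x .b .b) (.y .b (.y .b .b))))))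
    [V.of 1000 160 298 4, V.of 1000 160 510 4] = true := by decide +kernel

theorem l7b (h1 : |t| ≤ (1250 : ℝ) / 10000) (h2 : (1100 : ℝ) / 10000 ≤ t) (h3 : (1020 : ℝ) / 10000 ≤ t + t') :
    LevL 160 298 160 510 462 40 (-12060) t t' :=
  levL_of (t0 := 1100) (t1 := 1250) (τ := 1020) l7b_c (by decide +kernel) (by push_cast; exact h1)
    (Or.inr (by push_cast; exact h2)) (Or.inr (by push_cast; exact h3))

theorem l7c_c : runT (cL 16230 19093 14130 462 45 (-12060))
    (.y (.y (.y (.x (.x (.y (.x .a .a) .a) (.y .a .a)) (.x (.y .a .a) .c)) (.x (.x .a .a) .c)) (.x (.y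
    .c .c) .c)) (.x (.y .c (.x .b .b)) (.y (.x .b .b) (.x (.y .b .b) (.y .b (.y .b (.x .b .b)))))))
    [V.of 1000 160 298 4, V.of 1000 160 510 4] = true := by decide +kernel

theorem l7c (h1 : |t| ≤ (1350 : ℝ) / 10000) (h2 : (1250 : ℝ) / 10000 ≤ t) (h3 : (1170 : ℝ) / 10000 ≤ t + t') :
    LevL 160 298 160 510 462 45 (-12060) t t' :=
  levL_of (t0 := 1250) (t1 := 1350) (τ := 1170) l7c_c (by decide +kernel) (by push_cast; exact h1)
    (Or.inr (by push_cast; exact h2)) (Or.inr (by push_cast; exact h3))

theorem l7d_c : runT (cL 19092 22227 16781 462 45 (-12060))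
    (.y (.y (.y (.x (.y (.x (.x .a .a) (.y .a .a)) (.x .a .a)) (.y (.x .a .a) (.x .a .c))) (.x (.x .a
    .a) .c)) (.x (.x .c .c) .c)) (.x (.y .c (.x .b .b)) (.y (.x .b (.y .b .b)) (.x (.y .b .b) (.y (.x
    .b .b) (.y .b (.x .b .b)))))))
    [V.of 1000 160 298 4, V.of 1000 160 510 4] = true := by decide +kernel

theorem l7d (h1 : |t| ≤ (1450 : ℝ) / 10000) (h2 : (1350 : ℝ) / 10000 ≤ t) (h3 : (1270 : ℝ) / 10000 ≤ t + t') :
    LevL 160 298 160 510 462 45 (-12060) t t' :=
  levL_of (t0 := 1350) (t1 := 1450) (τ := 1270) l7d_c (by decide +kernel) (by push_cast; exact h1)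
    (Or.inr (by push_cast; exact h2)) (Or.inr (by push_cast; exact h3))

theorem l8a_c : runT (cL 10198 16231 4097 462 50 (-12060))
    (.y (.x (.y (.x .a .a) (.x .a .c)) (.x .c .c)) (.x (.x .c .c) .b))
    [V.of 1000 160 298 4, V.of 1000 200 350 4] = true := by decide +kernel

theorem l8a (h1 : |t| ≤ (1250 : ℝ) / 10000) (h2 : (1000 : ℝ) / 10000 ≤ t) (h3 : (640 : ℝ) / 10000 ≤ t + t') :
    LevL 160 298 200 350 462 50 (-12060) t t' :=
  levL_of (t0 := 1000) (t1 := 1250) (τ := 640) l8a_c (by decide +kernel) (by push_cast; exact h1)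
    (Or.inr (by push_cast; exact h2)) (Or.inr (by push_cast; exact h3))

theorem l8b_c : runT (cL 16230 21257 4097 462 50 (-12060))
    (.y (.x (.y (.x (.y .a .a) .a) (.x .a .c)) (.y (.x .c .c) .c)) (.x (.x .c .c) (.y .b .b)))
    [V.of 1000 160 298 4, V.of 1000 200 350 4] = true := by decide +kernel

theorem l8b (h1 : |t| ≤ (1420 : ℝ) / 10000) (h2 : (1250 : ℝ) / 10000 ≤ t) (h3 : (640 : ℝ) / 10000 ≤ t + t') :
    LevL 160 298 200 350 462 50 (-12060) t t' :=
  levL_of (t0 := 1250) (t1 := 1420) (τ := 640) l8b_c (by decide +kernel) (by push_cast; exact h1)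
    (Or.inr (by push_cast; exact h2)) (Or.inr (by push_cast; exact h3))

theorem l8c_c : runT (cL 21256 26730 6616 462 50 (-12060))
    (.y (.x (.y (.x (.y (.x (.y .a .a) .a) .a) (.y .a .a)) (.x .a .c)) (.y (.x .c .c) .c)) (.x (.y .c
    .c) (.y .b .b)))
    [V.of 1000 160 298 4, V.of 1000 200 350 4] = true := by decide +kernel

theorem l8c (h1 : |t| ≤ (1580 : ℝ) / 10000) (h2 : (1420 : ℝ) / 10000 ≤ t) (h3 : (810 : ℝ) / 10000 ≤ t + t') :
    LevL 160 298 200 350 462 50 (-12060) t t' :=
  levL_of (t0 := 1420) (t1 := 1580) (τ := 810) l8c_c (by decide +kernel) (by push_cast; exact h1)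
    (Or.inr (by push_cast; exact h2)) (Or.inr (by push_cast; exact h3))

end Pool.Agent.Work.MP_b30479_gtS.G2.MQ

end

section

/-!
# Level push of a digit `1`: all types of neighbours
-/

namespace Pool.Agent.Work.MP_b30479_gtS.G2

open Real Set VOL NumIs NumIs.E SR

namespace MQ

theorem cos_450 : (1562 : ℝ) / 10000 ≤ Real.cos (π * ((90 / 100) / 2)) := by
  have h : chk [E.sub (E.cosPi (E.q 450 1000)) (E.q 1562 10000)] 1 [] = true := by decide +kernel
  have := chk0 h
  simp only [val] at this
  push_cast at this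
  have e : (90 : ℝ) / 100 / 2 = 450 / 1000 := by norm_num
  rw [e]
  linarith only [this]

variable {x x' a a' t t' : ℝ} {u0 u1 v0 v1 P α g : ℤ}

/-- positions of the hinges: `x`, `x'` moved, `a`, `a'` at the saddle point -/
structure Bs (x x' a a' : ℝ) : Prop where
  x0 : 0 < x
  x0' : 0 < x'
  a0 : 0 < a
  a0' : 0 < a'
  x5 : x ≤ 1 / 2
  a5 : a ≤ 1 / 2
  sx : x + x' ≤ 90 / 100
  sa : a + a' ≤ 80 / 100

theorem Bs.P730 (B : Bs x x' a a') : gh x + gh x' ≤ Real.log (((730 : ℤ) : ℝ) / 1000) :=
  gh_sum_of_sum ⟨B.x0, by linarith only [B, B.x5]⟩ ⟨B.x0', by linarith only [B, B.sx, B.x0]⟩ B.sx (by norm_num)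
    cos_450 (by norm_num) (by norm_num) (by norm_num)

theorem Bs.P528 (B : Bs x x' a a') : gh a + gh a' ≤ Real.log (((528 : ℤ) : ℝ) / 1000) :=
  gh_sum_of_sum ⟨B.a0, by linarith only [B, B.a5]⟩ ⟨B.a0', by linarith only [B, B.sa, B.a0]⟩ B.sa (by norm_num)
    cos_400 (by norm_num) (by norm_num) (by norm_num)

theorem Bs.P462 (B : Bs x x' a a') (h : a + a' ≤ 76 / 100) :
    gh a + gh a' ≤ Real.log (((462 : ℤ) : ℝ) / 1000) :=
  gh_sum_of_sum ⟨B.a0, by linarith only [B, B.a5]⟩ ⟨B.a0', by linarith only [h, B, B.sa, B.a0]⟩ h (by norm_num)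
    cos_380 (by norm_num) (by norm_num) (by norm_num)

theorem log_mono {P P' : ℤ} (h0 : 0 < P) (h : P ≤ P') :
    Real.log ((P : ℝ) / 1000) ≤ Real.log ((P' : ℝ) / 1000) := by
  have h1 : (0 : ℝ) < P := by exact_mod_cast h0
  have h2 : (P : ℝ) ≤ P' := by exact_mod_cast h
  exact Real.log_le_log (by positivity) (by linarith only [h2])

/-- upward -/
def Up (x x' a a' t t' : ℝ) : Prop :=
  a < x → |gh x' - gh a'| ≤ gh x - gh a →
    LL (lv x t + lv x' t') - LL (lv x t) < LL (lv a t + lv a' t') - LL (lv a t)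

/-- downward -/
def Dn (x x' a a' t t' : ℝ) : Prop :=
  x < a → |gh x' - gh a'| ≤ gh a - gh x →
    LL (lv a t + lv a' t') - LL (lv a t) < LL (lv x t + lv x' t') - LL (lv x t)

theorem up_S (B : Bs x x' a a') (H : LevS u0 u1 v0 v1 730 t t') (ha : (u0 : ℝ) / 1000 ≤ a)
    (hx : x ≤ (u1 : ℝ) / 1000) (ha' : (v0 : ℝ) / 1000 ≤ a') (hx' : (v0 : ℝ) / 1000 ≤ x')
    (hb' : a' ≤ (v1 : ℝ) / 1000) (hy' : x' ≤ (v1 : ℝ) / 1000) : Up x x' a a' t t' := fun hlt hg =>
  H.fd ha hx B.x5 ha' hx' hb' hy' B.a0 B.a0' B.x0' hlt hg (by linarith only [B, B.sa]) (by linarith only [B, B.sx])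
    (B.P528.trans (log_mono (by norm_num) (by norm_num))) B.P730

theorem dn_S (B : Bs x x' a a') (H : LevS u0 u1 v0 v1 730 t t') (ha : (u0 : ℝ) / 1000 ≤ x)
    (hx : a ≤ (u1 : ℝ) / 1000) (ha' : (v0 : ℝ) / 1000 ≤ a') (hx' : (v0 : ℝ) / 1000 ≤ x')
    (hb' : a' ≤ (v1 : ℝ) / 1000) (hy' : x' ≤ (v1 : ℝ) / 1000) : Dn x x' a a' t t' := fun hlt hg =>
  H.fd ha hx B.a5 hx' ha' hy' hb' B.x0 B.x0' B.a0' hlt (by rwa [abs_sub_comm])
    (by linarith only [B, B.sx]) (by linarith only [B, B.sa]) B.P730
    (B.P528.trans (log_mono (by norm_num) (by norm_num)))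

theorem dn_L (B : Bs x x' a a') (H : LevL u0 u1 v0 v1 P α g t t') (hα : 0 < α)
    (hP : gh a + gh a' ≤ Real.log ((P : ℝ) / 1000)) {r : ℤ} (hr : 0 < r) (hu : 0 < u0)
    (hG : okG u0 r g = true) (hra : (r : ℝ) / 1000 ≤ a) (ha : (u0 : ℝ) / 1000 ≤ x)
    (hx : a ≤ (u1 : ℝ) / 1000) (ha' : (v0 : ℝ) / 1000 ≤ a') (hx' : (v0 : ℝ) / 1000 ≤ x')
    (hb' : a' ≤ (v1 : ℝ) / 1000) (hy' : x' ≤ (v1 : ℝ) / 1000) : Dn x x' a a' t t' := fun hlt hg =>
  H.fd hα ha hx hx' ha' hy' hb' B.x0 B.x0' B.a0' hlt (by rwa [abs_sub_comm])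
    (by linarith only [B, B.sx]) (by linarith only [B, B.sa])
    (okG_spec hG hu hr ha hra (by linarith only [B, B.x5]) (by linarith only [B, B.a5]))
    ((by have := (abs_le.1 hg).2; linarith only [this] : gh x + gh x' ≤ gh a + gh a').trans hP) hP

/-! ### tables -/

/-- lower bounds for a hinge `1 | B` of a digit `1` with other neighbour `C` (thousandths) -/
def fz : Cl → Cl → ℤ
  | .one, .ring => 190
  | .one, _ => 150
  | .two, _ => 160
  | .twoE, .one => 150
  | .twoE, .twoE => 140
  | .twoE, _ => 200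
  | .three, _ => 130
  | .threeE, _ => 140
  | .ring, _ => 160

/-- upper bounds for a hinge `1 | B` (thousandths) -/
def cz : Cl → ℤ
  | .one => 640
  | .two => 510
  | .twoE => 350
  | .three => 500
  | .threeE => 350
  | .ring => 360

/-- range of a hinge `1 | B` at the saddle point (thousandths) -/
def rz : Cl → ℤ × ℤ
  | .one => (275, 500)
  | .two => (236, 392)
  | .twoE => (217, 311)
  | .three => (226, 314)
  | .threeE => (212, 274)
  | .ring => (214, 298)

/-- the data of a digit `1` with neighbours of the classes `B` (own hinge) and `C` -/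
structure RD (B C : Cl) (x x' a a' T T' : ℝ) : Prop where
  bs : Bs x x' a a'
  ok : ML.okp B C
  f : (fz B C : ℝ) / 1000 ≤ x
  f' : (fz C B : ℝ) / 1000 ≤ x'
  c : x ≤ (cz B : ℝ) / 1000
  c' : x' ≤ (cz C : ℝ) / 1000
  r0 : ((rz B).1 : ℝ) / 1000 ≤ a
  r1 : a ≤ ((rz B).2 : ℝ) / 1000
  r0' : ((rz C).1 : ℝ) / 1000 ≤ a'
  r1' : a' ≤ ((rz C).2 : ℝ) / 1000
  w0 : (SR.cw C B).t0 ≤ T
  w1 : T ≤ (SR.cw C B).t1
  w2 : (SR.cw C B).s0 ≤ T + T'
  w3 : (SR.cw B C).t0 ≤ T'
  t11 : B = .one → |T| ≤ 80 / 1000
  p1 : C = .one → ∃ Q q, (SR.pcw B Q).In T' T q ∧ (Q = .one → x' ≤ 600 / 1000)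
  p2 : B = .one → ∃ Q q, (SR.pcw C Q).In T T' q
  sz : B = .ring → C = .one → a + a' ≤ 76 / 100

theorem both_S (B : Bs x x' a a') (H : LevS u0 u1 v0 v1 730 t t') (g0 : (u0 : ℝ) / 1000 ≤ x)
    (g1 : x ≤ (u1 : ℝ) / 1000) (g2 : (u0 : ℝ) / 1000 ≤ a) (g3 : a ≤ (u1 : ℝ) / 1000)
    (ha' : (v0 : ℝ) / 1000 ≤ a') (hx' : (v0 : ℝ) / 1000 ≤ x')
    (hb' : a' ≤ (v1 : ℝ) / 1000) (hy' : x' ≤ (v1 : ℝ) / 1000) :
    Up x x' a a' t t' ∧ Dn x x' a a' t t' :=
  ⟨up_S B H g2 g1 ha' hx' hb' hy', dn_S B H g0 g3 ha' hx' hb' hy'⟩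

theorem abs_le' {a b : ℝ} (h1 : -b ≤ a) (h2 : a ≤ b) : |a| ≤ b := abs_le.2 ⟨h1, h2⟩

theorem real_one {C : Cl} (D : RD .one C x x' a a' t t') : Up x x' a a' t t' ∧ Dn x x' a a' t t' := by
  obtain ⟨bs, ok, f, f', c, c', r0, r1, r0', r1', w0, w1, w2, w3, t11, p1, p2, sz⟩ := D
  have h1 := t11 rfl
  obtain ⟨Q, q, hq⟩ := p2 rfl
  have hx := bs.x5
  have ha := bs.a5
  cases C <;> simp only [fz, cz, rz, SR.cw] at * <;> push_cast at *
  case one => exact both_S bs (s1 (by linarith only [h1])) (by push_cast; linarith only [f]) (by push_cast; linarith only [hx]) (by push_cast; linarith only [r0]) (by push_cast; linarith only [ha]) (by push_cast; linarith only [r0']) (by push_cast; linarith only [f']) (by push_cast; linarith only [r1']) (by push_cast; linarith only [c'])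
  case two => exact both_S bs (s1 (by linarith only [h1])) (by push_cast; linarith only [f]) (by push_cast; linarith only [hx]) (by push_cast; linarith only [r0]) (by push_cast; linarith only [ha]) (by push_cast; linarith only [r0']) (by push_cast; linarith only [f']) (by push_cast; linarith only [r1']) (by push_cast; linarith only [c'])
  case twoE => exact both_S bs (s1 (by linarith only [h1])) (by push_cast; linarith only [f]) (by push_cast; linarith only [hx]) (by push_cast; linarith only [r0]) (by push_cast; linarith only [ha]) (by push_cast; linarith only [r0']) (by push_cast; linarith only [f']) (by push_cast; linarith only [r1']) (by push_cast; linarith only [c'])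
  case three =>
    have h2 : |t| ≤ (660 : ℝ) / 10000 := by
      have k1 := hq.t0
      have k2 := hq.t1
      apply abs_le' <;> cases Q <;> simp only [SR.pcw] at k1 k2 <;> linarith only [k1, w1]
    exact both_S bs (s2 h2) (by push_cast; linarith only [f]) (by push_cast; linarith only [hx]) (by push_cast; linarith only [r0]) (by push_cast; linarith only [ha]) (by push_cast; linarith only [r0']) (by push_cast; linarith only [f']) (by push_cast; linarith only [r1']) (by push_cast; linarith only [c'])
  case threeE => exact both_S bs (s2 (abs_le' (by linarith only [w0]) (by linarith only [w1]))) (by push_cast; linarith only [f]) (by push_cast; linarith only [hx]) (by push_cast; linarith only [r0]) (by push_cast; linarith only [ha]) (by push_cast; linarith only [r0']) (by push_cast; linarith only [f']) (by push_cast; linarith only [r1']) (by push_cast; linarith only [c'])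
  case ring => exact both_S bs (s1 (by linarith only [h1])) (by push_cast; linarith only [f]) (by push_cast; linarith only [hx]) (by push_cast; linarith only [r0]) (by push_cast; linarith only [ha]) (by push_cast; linarith only [r0']) (by push_cast; linarith only [f']) (by push_cast; linarith only [r1']) (by push_cast; linarith only [c'])

theorem real_two {C : Cl} (D : RD .two C x x' a a' t t') : Up x x' a a' t t' ∧ Dn x x' a a' t t' := by
  obtain ⟨bs, ok, f, f', c, c', r0, r1, r0', r1', w0, w1, w2, w3, t11, p1, p2, sz⟩ := D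
  have hx := bs.x5
  have ha := bs.a5
  cases C <;> simp only [fz, cz, rz, SR.cw] at * <;> push_cast at *
  case one => exact both_S bs (s1 (abs_le' (by linarith only [w0]) (by linarith only [w1]))) (by push_cast; linarith only [f]) (by push_cast; linarith only [hx]) (by push_cast; linarith only [r0]) (by push_cast; linarith only [r1]) (by push_cast; linarith only [r0']) (by push_cast; linarith only [f']) (by push_cast; linarith only [r1']) (by push_cast; linarith only [c'])
  case two => exact both_S bs (s1 (abs_le' (by linarith only [w0]) (by linarith only [w1]))) (by push_cast; linarith only [f]) (by push_cast; linarith only [hx]) (by push_cast; linarith only [r0]) (by push_cast; linarith only [r1]) (by push_cast; linarith only [r0']) (by push_cast; linarith only [f']) (by push_cast; linarith only [r1']) (by push_cast; linarith only [c'])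
  case twoE => exact both_S bs (s4 (abs_le' (by linarith only [w0]) (by linarith only [w1])) (by linarith only [w0]) (by linarith only [w2])) (by push_cast; linarith only [f]) (by push_cast; linarith only [hx]) (by push_cast; linarith only [r0]) (by push_cast; linarith only [r1]) (by push_cast; linarith only [r0']) (by push_cast; linarith only [f']) (by push_cast; linarith only [r1']) (by push_cast; linarith only [c'])
  case three => exact both_S bs (s3 (abs_le' (by linarith only [w0]) (by linarith only [w1])) (by linarith only [w0]) (by linarith only [w2])) (by push_cast; linarith only [f]) (by push_cast; linarith only [hx]) (by push_cast; linarith only [r0]) (by push_cast; linarith only [r1]) (by push_cast; linarith only [r0']) (by push_cast; linarith only [f']) (by push_cast; linarith only [r1']) (by push_cast; linarith only [c'])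
  case threeE => exact both_S bs (s3 (abs_le' (by linarith only [w0]) (by linarith only [w1])) (by linarith only [w0]) (by linarith only [w2])) (by push_cast; linarith only [f]) (by push_cast; linarith only [hx]) (by push_cast; linarith only [r0]) (by push_cast; linarith only [r1]) (by push_cast; linarith only [r0']) (by push_cast; linarith only [f']) (by push_cast; linarith only [r1']) (by push_cast; linarith only [c'])
  case ring => exact both_S bs (s1 (abs_le' (by linarith only [w0]) (by linarith only [w1]))) (by push_cast; linarith only [f]) (by push_cast; linarith only [hx]) (by push_cast; linarith only [r0]) (by push_cast; linarith only [r1]) (by push_cast; linarith only [r0']) (by push_cast; linarith only [f']) (by push_cast; linarith only [r1']) (by push_cast; linarith only [c'])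

theorem real_twoE {C : Cl} (D : RD .twoE C x x' a a' t t') : Up x x' a a' t t' ∧ Dn x x' a a' t t' := by
  obtain ⟨bs, ok, f, f', c, c', r0, r1, r0', r1', w0, w1, w2, w3, t11, p1, p2, sz⟩ := D
  have hx := bs.x5
  have ha := bs.a5
  cases C <;> simp only [fz, cz, rz, SR.cw] at * <;> push_cast at *
  case one => exact both_S bs (s1 (abs_le' (by linarith only [w0]) (by linarith only [w1]))) (by push_cast; linarith only [f]) (by push_cast; linarith only [c]) (by push_cast; linarith only [r0]) (by push_cast; linarith only [r1]) (by push_cast; linarith only [r0']) (by push_cast; linarith only [f']) (by push_cast; linarith only [r1']) (by push_cast; linarith only [c'])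
  case two => exact both_S bs (s1 (abs_le' (by linarith only [w0]) (by linarith only [w1]))) (by push_cast; linarith only [f]) (by push_cast; linarith only [c]) (by push_cast; linarith only [r0]) (by push_cast; linarith only [r1]) (by push_cast; linarith only [r0']) (by push_cast; linarith only [f']) (by push_cast; linarith only [r1']) (by push_cast; linarith only [c'])
  case twoE => exact both_S bs (s5 (abs_le' (by linarith only [w0]) (by linarith only [w1]))) (by push_cast; linarith only [f]) (by push_cast; linarith only [c]) (by push_cast; linarith only [r0]) (by push_cast; linarith only [r1]) (by push_cast; linarith only [r0']) (by push_cast; linarith only [f']) (by push_cast; linarith only [r1']) (by push_cast; linarith only [c'])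
  case three => exact both_S bs (s2 (abs_le' (by linarith only [w0]) (by linarith only [w1]))) (by push_cast; linarith only [f]) (by push_cast; linarith only [c]) (by push_cast; linarith only [r0]) (by push_cast; linarith only [r1]) (by push_cast; linarith only [r0']) (by push_cast; linarith only [f']) (by push_cast; linarith only [r1']) (by push_cast; linarith only [c'])
  case threeE => exact both_S bs (s2 (abs_le' (by linarith only [w0]) (by linarith only [w1]))) (by push_cast; linarith only [f]) (by push_cast; linarith only [c]) (by push_cast; linarith only [r0]) (by push_cast; linarith only [r1]) (by push_cast; linarith only [r0']) (by push_cast; linarith only [f']) (by push_cast; linarith only [r1']) (by push_cast; linarith only [c'])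
  case ring => exact both_S bs (s1 (abs_le' (by linarith only [w0]) (by linarith only [w1]))) (by push_cast; linarith only [f]) (by push_cast; linarith only [c]) (by push_cast; linarith only [r0]) (by push_cast; linarith only [r1]) (by push_cast; linarith only [r0']) (by push_cast; linarith only [f']) (by push_cast; linarith only [r1']) (by push_cast; linarith only [c'])

theorem real_threeE {C : Cl} (D : RD .threeE C x x' a a' t t') :
    Up x x' a a' t t' ∧ Dn x x' a a' t t' := by
  obtain ⟨bs, ok, f, f', c, c', r0, r1, r0', r1', w0, w1, w2, w3, t11, p1, p2, sz⟩ := D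
  have hx := bs.x5
  have ha := bs.a5
  cases C <;> simp only [fz, cz, rz, SR.cw] at * <;> push_cast at *
  case one => exact both_S bs (s6 (abs_le' (by linarith only [w0]) (by linarith only [w1]))) (by push_cast; linarith only [f]) (by push_cast; linarith only [c]) (by push_cast; linarith only [r0]) (by push_cast; linarith only [r1]) (by push_cast; linarith only [r0']) (by push_cast; linarith only [f']) (by push_cast; linarith only [r1']) (by push_cast; linarith only [c'])
  case two => exact both_S bs (s6 (abs_le' (by linarith only [w0]) (by linarith only [w1]))) (by push_cast; linarith only [f]) (by push_cast; linarith only [c]) (by push_cast; linarith only [r0]) (by push_cast; linarith only [r1]) (by push_cast; linarith only [r0']) (by push_cast; linarith only [f']) (by push_cast; linarith only [r1']) (by push_cast; linarith only [c'])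
  case twoE => exact both_S bs (s7 (abs_le' (by linarith only [w0]) (by linarith only [w1])) (by linarith only [w0]) (by linarith only [w2])) (by push_cast; linarith only [f]) (by push_cast; linarith only [c]) (by push_cast; linarith only [r0]) (by push_cast; linarith only [r1]) (by push_cast; linarith only [r0']) (by push_cast; linarith only [f']) (by push_cast; linarith only [r1']) (by push_cast; linarith only [c'])
  all_goals exact absurd ok (by simp [ML.okp])

theorem real_three {C : Cl} (D : RD .three C x x' a a' t t') :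
    Up x x' a a' t t' ∧ Dn x x' a a' t t' := by
  obtain ⟨bs, ok, f, f', c, c', r0, r1, r0', r1', w0, w1, w2, w3, t11, p1, p2, sz⟩ := D
  have hx := bs.x5
  have ha := bs.a5
  have hP := bs.P528
  have hG : okG 130 226 (-12835) = true := by decide +kernel
  cases C <;> simp only [fz, cz, rz, SR.cw] at * <;> push_cast at *
  case one =>
    obtain ⟨Q, q, hq, -⟩ := p1 trivial
    have h2 : |t| ≤ (850 : ℝ) / 10000 ∧ (180 : ℝ) / 10000 ≤ t ∧ (70 : ℝ) / 10000 ≤ t + t' := by
      have k1 := hq.k0
      have k2 := hq.k1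
      have k3 := hq.a0
      refine ⟨abs_le' ?_ ?_, ?_, ?_⟩ <;> cases Q <;> simp only [SR.pcw] at k1 k2 k3 <;> linarith only [k1, w0, k2, k3]
    exact ⟨up_S bs (s8 h2.1 h2.2.1) (by push_cast; linarith only [r0]) (by push_cast; linarith only [hx]) (by push_cast; linarith only [r0']) (by push_cast; linarith only [f']) (by push_cast; linarith only [r1']) (by push_cast; linarith only [c']),
      dn_L bs (l1 h2.1 h2.2.1 h2.2.2) (by norm_num) (by push_cast; exact hP) (r := 226) (by norm_num)
        (by norm_num) hG (by push_cast; linarith only [r0]) (by push_cast; linarith only [f]) (by push_cast; linarith only [r1]) (by push_cast; linarith only [r0']) (by push_cast; linarith only [f']) (by push_cast; linarith only [r1']) (by push_cast; linarith only [c'])⟩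
  case two =>
    have h2 : |t| ≤ (940 : ℝ) / 10000 := abs_le' (by linarith only [w0]) (by linarith only [w1])
    have h3 : (460 : ℝ) / 10000 ≤ t := by linarith only [w0]
    have h4 : (780 : ℝ) / 10000 ≤ t + t' := by linarith only [w2]
    exact ⟨up_S bs (s9 h2 h3 h4) (by push_cast; linarith only [r0]) (by push_cast; linarith only [hx]) (by push_cast; linarith only [r0']) (by push_cast; linarith only [f']) (by push_cast; linarith only [r1']) (by push_cast; linarith only [c']),
      dn_L bs (l2 h2 h3 h4) (by norm_num) (by push_cast; exact hP) (r := 226) (by norm_num)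
        (by norm_num) hG (by push_cast; linarith only [r0]) (by push_cast; linarith only [f]) (by push_cast; linarith only [r1]) (by push_cast; linarith only [r0']) (by push_cast; linarith only [f']) (by push_cast; linarith only [r1']) (by push_cast; linarith only [c'])⟩
  case twoE =>
    have h2 : |t| ≤ (1150 : ℝ) / 10000 := abs_le' (by linarith only [w0]) (by linarith only [w1])
    have h3 : (870 : ℝ) / 10000 ≤ t := by linarith only [w0]
    have h4 : (510 : ℝ) / 10000 ≤ t + t' := by linarith only [w2]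
    exact ⟨up_S bs (s10 h2 h3 h4) (by push_cast; linarith only [r0]) (by push_cast; linarith only [hx]) (by push_cast; linarith only [r0']) (by push_cast; linarith only [f']) (by push_cast; linarith only [r1']) (by push_cast; linarith only [c']),
      dn_L bs (l3 h2 h3 h4) (by norm_num) (by push_cast; exact hP) (r := 226) (by norm_num)
        (by norm_num) hG (by push_cast; linarith only [r0]) (by push_cast; linarith only [f]) (by push_cast; linarith only [r1]) (by push_cast; linarith only [r0']) (by push_cast; linarith only [f']) (by push_cast; linarith only [r1']) (by push_cast; linarith only [c'])⟩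
  all_goals exact absurd ok (by simp [ML.okp])

theorem dn_Z (B : Bs x x' a a') (hG : okG 160 214 g = true) {α : ℤ}
    (H : LevL 160 298 v0 v1 462 α g t t') (hα : 0 < α)
    (hP : gh a + gh a' ≤ Real.log (((462 : ℤ) : ℝ) / 1000))
    (g0 : (160 : ℝ) / 1000 ≤ x) (g2 : (214 : ℝ) / 1000 ≤ a) (g3 : a ≤ (298 : ℝ) / 1000)
    (ha' : (v0 : ℝ) / 1000 ≤ a') (hx' : (v0 : ℝ) / 1000 ≤ x')
    (hb' : a' ≤ (v1 : ℝ) / 1000) (hy' : x' ≤ (v1 : ℝ) / 1000) : Dn x x' a a' t t' :=
  dn_L B H hα hP (r := 214) (by norm_num) (by norm_num) hG (by push_cast; exact g2)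
    (by push_cast; exact g0) (by push_cast; exact g3) ha' hx' hb' hy'

theorem real_ring_one (D : RD .ring .one x x' a a' t t') :
    Up x x' a a' t t' ∧ Dn x x' a a' t t' := by
  obtain ⟨bs, ok, f, f', c, c', r0, r1, r0', r1', w0, w1, w2, w3, t11, p1, p2, sz⟩ := D
  have hx := bs.x5
  have ha := bs.a5
  have hP := bs.P462 (sz rfl rfl)
  have hG : okG 160 214 (-12060) = true := by decide +kernel
  obtain ⟨Q, q, hq, hq1⟩ := p1 rfl
  have k1 := hq.k0
  have k2 := hq.k1
  have k3 := hq.a0
  have k4 := hq.t0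
  simp only [fz, cz, rz, SR.cw] at *
  push_cast at *
  cases Q <;> simp only [SR.pcw] at k1 k2 k3 k4
  case one =>
    have h5 := hq1 rfl
    have h2 : |t| ≤ (1310 : ℝ) / 10000 := abs_le' (by linarith only [k1]) (by linarith only [k2])
    have h3 : (560 : ℝ) / 10000 ≤ t := by linarith only [k1]
    have h4 : (570 : ℝ) / 10000 ≤ t + t' := by linarith only [k3]
    exact ⟨up_S bs (s11 h2 h3 h4) (by push_cast; linarith only [r0]) (by push_cast; linarith only [c]) (by push_cast; linarith only [r0']) (by push_cast; linarith only [f']) (by push_cast; linarith only [r1']) (by push_cast; linarith only [h5]),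
      dn_Z bs hG (l4 h2 h3 h4) (by norm_num) (by push_cast; exact hP) (by push_cast; linarith only [f]) (by push_cast; linarith only [r0]) (by push_cast; linarith only [r1]) (by push_cast; linarith only [r0']) (by push_cast; linarith only [f']) (by push_cast; linarith only [r1']) (by push_cast; linarith only [h5])⟩
  case two =>
    have h2 : |t| ≤ (1180 : ℝ) / 10000 := abs_le' (by linarith only [k1]) (by linarith only [k2])
    have h3 : (490 : ℝ) / 10000 ≤ t := by linarith only [k1]
    have h4 : (410 : ℝ) / 10000 ≤ t + t' := by linarith only [k3]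
    exact ⟨up_S bs (s12 h2 (by linarith only [k1]) (by linarith only [k3])) (by push_cast; linarith only [r0]) (by push_cast; linarith only [c]) (by push_cast; linarith only [r0']) (by push_cast; linarith only [f']) (by push_cast; linarith only [r1']) (by push_cast; linarith only [c']),
      dn_Z bs hG (l5b h2 h3 h4) (by norm_num) (by push_cast; exact hP) (by push_cast; linarith only [f]) (by push_cast; linarith only [r0]) (by push_cast; linarith only [r1]) (by push_cast; linarith only [r0']) (by push_cast; linarith only [f']) (by push_cast; linarith only [r1']) (by push_cast; linarith only [c'])⟩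
  case twoE =>
    constructor
    · rcases le_total t (105 / 1000) with hc | hc
      · exact up_S bs (s13a (abs_le' (by linarith only [k1]) (by linarith only [hc])) (by linarith only [k1]) (by linarith only [k3])) (by push_cast; linarith only [r0]) (by push_cast; linarith only [c]) (by push_cast; linarith only [r0']) (by push_cast; linarith only [f']) (by push_cast; linarith only [r1']) (by push_cast; linarith only [c'])
      rcases le_total t (118 / 1000) with hd | hd
      · exact up_S bs (s13b (abs_le' (by linarith only [hc]) (by linarith only [hd])) (by linarith only [hc]) (by linarith only [k4, hc])) (by push_cast; linarith only [r0]) (by push_cast; linarith only [c]) (by push_cast; linarith only [r0']) (by push_cast; linarith only [f']) (by push_cast; linarith only [r1']) (by push_cast; linarith only [c'])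
      · exact up_S bs (s13c (abs_le' (by linarith only [hd]) (by linarith only [k2])) (by linarith only [hd]) (by linarith only [k4, hd])) (by push_cast; linarith only [r0]) (by push_cast; linarith only [c]) (by push_cast; linarith only [r0']) (by push_cast; linarith only [f']) (by push_cast; linarith only [r1']) (by push_cast; linarith only [c'])
    · rcases le_total t (105 / 1000) with hc | hc
      · exact dn_Z bs hG (l6a (abs_le' (by linarith only [k1]) (by linarith only [hc])) (by linarith only [k1]) (by linarith only [k3])) (by norm_num) (by push_cast; exact hP) (by push_cast; linarith only [f]) (by push_cast; linarith only [r0]) (by push_cast; linarith only [r1]) (by push_cast; linarith only [r0']) (by push_cast; linarith only [f']) (by push_cast; linarith only [r1']) (by push_cast; linarith only [c'])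
      rcases le_total t (118 / 1000) with hd | hd
      · exact dn_Z bs hG (l6b (abs_le' (by linarith only [hc]) (by linarith only [hd])) (by linarith only [hc]) (by linarith only [k4, hc])) (by norm_num) (by push_cast; exact hP) (by push_cast; linarith only [f]) (by push_cast; linarith only [r0]) (by push_cast; linarith only [r1]) (by push_cast; linarith only [r0']) (by push_cast; linarith only [f']) (by push_cast; linarith only [r1']) (by push_cast; linarith only [c'])
      rcases le_total t (1225 / 10000) with he | he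
      · exact dn_Z bs hG (l6c (abs_le' (by linarith only [hd]) (by linarith only [he])) (by linarith only [hd]) (by linarith only [k4, hd])) (by norm_num) (by push_cast; exact hP) (by push_cast; linarith only [f]) (by push_cast; linarith only [r0]) (by push_cast; linarith only [r1]) (by push_cast; linarith only [r0']) (by push_cast; linarith only [f']) (by push_cast; linarith only [r1']) (by push_cast; linarith only [c'])
      rcases le_total t (1255 / 10000) with hf | hf
      · exact dn_Z bs hG (l6d (abs_le' (by linarith only [he]) (by linarith only [hf])) (by linarith only [he]) (by linarith only [k4, he])) (by norm_num) (by push_cast; exact hP) (by push_cast; linarith only [f]) (by push_cast; linarith only [r0]) (by push_cast; linarith only [r1]) (by push_cast; linarith only [r0']) (by push_cast; linarith only [f']) (by push_cast; linarith only [r1']) (by push_cast; linarith only [c'])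
      · exact dn_Z bs hG (l6e (abs_le' (by linarith only [hf]) (by linarith only [k2])) (by linarith only [hf]) (by linarith only [k4, hf])) (by norm_num) (by push_cast; exact hP) (by push_cast; linarith only [f]) (by push_cast; linarith only [r0]) (by push_cast; linarith only [r1]) (by push_cast; linarith only [r0']) (by push_cast; linarith only [f']) (by push_cast; linarith only [r1']) (by push_cast; linarith only [c'])
  all_goals
    have h2 : |t| ≤ (1110 : ℝ) / 10000 := abs_le' (by linarith only [k1, w0]) (by linarith only [k2])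
    have h3 : (380 : ℝ) / 10000 ≤ t := by linarith only [k1, w0]
    have h4 : (250 : ℝ) / 10000 ≤ t + t' := by linarith only [k3]
    exact ⟨up_S bs (s12 (by linarith only [h2]) h3 h4) (by push_cast; linarith only [r0]) (by push_cast; linarith only [c]) (by push_cast; linarith only [r0']) (by push_cast; linarith only [f']) (by push_cast; linarith only [r1']) (by push_cast; linarith only [c']),
      dn_Z bs hG (l5a h2 h3 h4) (by norm_num) (by push_cast; exact hP) (by push_cast; linarith only [f]) (by push_cast; linarith only [r0]) (by push_cast; linarith only [r1]) (by push_cast; linarith only [r0']) (by push_cast; linarith only [f']) (by push_cast; linarith only [r1']) (by push_cast; linarith only [c'])⟩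

theorem gh_log_le (B : Bs x x' a a') {s c : ℝ} {P : ℤ} (hP0 : (0 : ℝ) < (P : ℝ) / 1000)
    (hP1 : (P : ℝ) / 1000 ≤ 1) (h : a + a' ≤ s) (hs : s ≤ 1) (hc : c ≤ Real.cos (π * (s / 2)))
    (hP : 1 - (P : ℝ) / 1000 ≤ (1 + (P : ℝ) / 1000) * c) :
    gh a + gh a' ≤ Real.log ((P : ℝ) / 1000) :=
  gh_sum_of_sum ⟨B.a0, by linarith only [B, B.a5]⟩ ⟨B.a0', by linarith only [B, B.sa, B.a0]⟩ h hs hc hP0 hP1 hP

theorem real_ring {C : Cl} (D : RD .ring C x x' a a' t t') :
    Up x x' a a' t t' ∧ Dn x x' a a' t t' := by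
  have D' := D
  obtain ⟨bs, ok, f, f', c, c', r0, r1, r0', r1', w0, w1, w2, w3, t11, p1, p2, sz⟩ := D'
  have hx := bs.x5
  have ha := bs.a5
  have hG : okG 160 214 (-12060) = true := by decide +kernel
  cases C
  case one => exact real_ring_one D
  case two =>
    simp only [fz, cz, rz, SR.cw] at *
    push_cast at *
    have hP : gh a + gh a' ≤ Real.log (((462 : ℤ) : ℝ) / 1000) := by
      refine bs.P462 ?_
      linarith only [r1, r1']
    refine ⟨up_S bs (s14 (abs_le' (by linarith only [w0]) (by linarith only [w1])) (by linarith only [w0]) (by linarith only [w2])) (by push_cast; linarith only [r0]) (by push_cast; linarith only [c]) (by push_cast; linarith only [r0']) (by push_cast; linarith only [f']) (by push_cast; linarith only [r1']) (by push_cast; linarith only [c']), ?_⟩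
    rcases le_total t (110 / 1000) with hc | hc
    · exact dn_Z bs hG (l7a (abs_le' (by linarith only [w0]) (by linarith only [hc])) (by linarith only [w0]) (by linarith only [w2])) (by norm_num) hP (by push_cast; linarith only [f]) (by push_cast; linarith only [r0]) (by push_cast; linarith only [r1]) (by push_cast; linarith only [r0']) (by push_cast; linarith only [f']) (by push_cast; linarith only [r1']) (by push_cast; linarith only [c'])
    rcases le_total t (125 / 1000) with hd | hd
    · exact dn_Z bs hG (l7b (abs_le' (by linarith only [hc]) (by linarith only [hd])) (by linarith only [hc]) (by linarith only [w3, hc])) (by norm_num) hP (by push_cast; linarith only [f]) (by push_cast; linarith only [r0]) (by push_cast; linarith only [r1]) (by push_cast; linarith only [r0']) (by push_cast; linarith only [f']) (by push_cast; linarith only [r1']) (by push_cast; linarith only [c'])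
    rcases le_total t (135 / 1000) with he | he
    · exact dn_Z bs hG (l7c (abs_le' (by linarith only [hd]) (by linarith only [he])) (by linarith only [hd]) (by linarith only [w3, hd])) (by norm_num) hP (by push_cast; linarith only [f]) (by push_cast; linarith only [r0]) (by push_cast; linarith only [r1]) (by push_cast; linarith only [r0']) (by push_cast; linarith only [f']) (by push_cast; linarith only [r1']) (by push_cast; linarith only [c'])
    · exact dn_Z bs hG (l7d (abs_le' (by linarith only [he]) (by linarith only [w1])) (by linarith only [he]) (by linarith only [w3, he])) (by norm_num) hP (by push_cast; linarith only [f]) (by push_cast; linarith only [r0]) (by push_cast; linarith only [r1]) (by push_cast; linarith only [r0']) (by push_cast; linarith only [f']) (by push_cast; linarith only [r1']) (by push_cast; linarith only [c'])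
  case twoE =>
    simp only [fz, cz, rz, SR.cw] at *
    push_cast at *
    have hP : gh a + gh a' ≤ Real.log (((462 : ℤ) : ℝ) / 1000) := by
      refine bs.P462 ?_
      linarith only [r1, r1']
    refine ⟨up_S bs (s15 (abs_le' (by linarith only [w0]) (by linarith only [w1])) (by linarith only [w0]) (by linarith only [w2])) (by push_cast; linarith only [r0]) (by push_cast; linarith only [c]) (by push_cast; linarith only [r0']) (by push_cast; linarith only [f']) (by push_cast; linarith only [r1']) (by push_cast; linarith only [c']), ?_⟩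
    rcases le_total t (125 / 1000) with hc | hc
    · exact dn_Z bs hG (l8a (abs_le' (by linarith only [w0]) (by linarith only [hc])) (by linarith only [w0]) (by linarith only [w2])) (by norm_num) hP (by push_cast; linarith only [f]) (by push_cast; linarith only [r0]) (by push_cast; linarith only [r1]) (by push_cast; linarith only [r0']) (by push_cast; linarith only [f']) (by push_cast; linarith only [r1']) (by push_cast; linarith only [c'])
    rcases le_total t (142 / 1000) with hd | hd
    · exact dn_Z bs hG (l8b (abs_le' (by linarith only [hc]) (by linarith only [hd])) (by linarith only [hc]) (by linarith only [w2])) (by norm_num) hP (by push_cast; linarith only [f]) (by push_cast; linarith only [r0]) (by push_cast; linarith only [r1]) (by push_cast; linarith only [r0']) (by push_cast; linarith only [f']) (by push_cast; linarith only [r1']) (by push_cast; linarith only [c'])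
    · exact dn_Z bs hG (l8c (abs_le' (by linarith only [hd]) (by linarith only [w1])) (by linarith only [hd]) (by linarith only [w3, hd])) (by norm_num) hP (by push_cast; linarith only [f]) (by push_cast; linarith only [r0]) (by push_cast; linarith only [r1]) (by push_cast; linarith only [r0']) (by push_cast; linarith only [f']) (by push_cast; linarith only [r1']) (by push_cast; linarith only [c'])
  all_goals exact absurd ok (by simp [ML.okp])

/-- **Level push of a digit `1`, all types of neighbours.** -/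
theorem real_push {B C : Cl} (D : RD B C x x' a a' t t') :
    Up x x' a a' t t' ∧ Dn x x' a a' t t' := by
  cases B
  · exact real_one D
  · exact real_two D
  · exact real_twoE D
  · exact real_three D
  · exact real_threeE D
  · exact real_ring D

end MQ

end Pool.Agent.Work.MP_b30479_gtS.G2

end
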