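import Pool.Agent.Work.MP_b30479_gt.TBS.G2.M3T1nd
import Pool.Agent.Work.MP_b30479_gt.TBS.G2.M3T1ne
import Pool.Agent.Work.MP_b30479_gt.TBS.G2.M3T11e
import Pool.Agent.Work.MP_b30479_gt.TBS.G2.M3T11f
import Pool.Agent.Work.MP_b30479_gt.TBS.G2.M3P
import Pool.Agent.Work.MP_b30479_gt.TBS.G2.MPRun
import Pool.Agent.Work.MP_b30479_gt.TBS.G2.MPDat
import Pool.Agent.Work.MP_b30479_gt.TBS.G2.MLA
import Pool.Agent.Work.MP_b30479_gt.TBS.G2.WMid
import Pool.Agent.Work.MP_b30479_gt.TBS.G2.MQE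
import Pool.Agent.Work.MP_b30479_gt.TBS.G2.MLS
import Pool.Agent.Work.MP_b30479_gt.TBS.G2.WLocX
import Pool.Agent.Work.MP_b30479_gt.TBS.G2.MQC
import Pool.Agent.Work.MP_b30479_gt.TBS.G2.MPFocD

section

/-!
# Interior 3-runs, level part: certificates of the determinants
-/

namespace Pool.Agent.Work.MP_b30479_gtS.G2

namespace M3

open NumIs (E V chk)

theorem c11_FP0p : okF s11 s11.hP 0 1 = true :=
  (chk_node c11_FP0p_L (chk_node c11_FP0p_RL (chk_node (chk_node c11_FP0p_RRLL (chk_node c11_FP0p_RRLRL (chk_node c11_FP0p_RRLRRL c11_FP0p_RRLRRR))) (chk_node (chk_node c11_FP0p_RRRLL c11_FP0p_RRRLR) c11_FP0p_RRRR))))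

theorem c11_G00p : okG s11 0 0 1 = true :=
  (chk_node c11_G00p_L (chk_node c11_G00p_RL (chk_node c11_G00p_RRL c11_G00p_RRR)))

theorem c11_GP0p : okG s11 s11.hP 0 1 = true :=
  (chk_node c11_GP0p_L (chk_node c11_GP0p_RL c11_GP0p_RR))

theorem certs11 : okS s11 false = true :=
  okS_intro c11_0 c11_2a c11_2b c11_F00p c11_F00m c11_F0Rp c11_F0Rm c11_FP0p c11_FP0m c11_FPRp c11_FPRm
    (fun _ => c11_G00p) (fun _ => c11_G00m) (fun _ => c11_GP0p) (fun _ => c11_GP0m)

end M3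

end Pool.Agent.Work.MP_b30479_gtS.G2

end

section

/-!
# Interior 3-runs, level part: certificates of the determinants
-/

namespace Pool.Agent.Work.MP_b30479_gtS.G2

namespace M3

open NumIs (E V chk)

theorem c1n_FP0p : okF s1n s1n.hP 0 1 = true :=
  (chk_node c1n_FP0p_L (chk_node c1n_FP0p_RL c1n_FP0p_RR))

theorem c1n_G00p : okG s1n 0 0 1 = true :=
  (chk_node c1n_G00p_L c1n_G00p_R)

theorem c1n_GP0p : okG s1n s1n.hP 0 1 = true :=
  (chk_node c1n_GP0p_L (chk_node (chk_node c1n_GP0p_RLL (chk_node c1n_GP0p_RLRL c1n_GP0p_RLRR)) (chk_node (chk_node (chk_node c1n_GP0p_RRLLL c1n_GP0p_RRLLR) c1n_GP0p_RRLR) c1n_GP0p_RRR)))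

theorem certs1n : okS s1n false = true :=
  okS_intro c1n_0 c1n_2a c1n_2b c1n_F00p c1n_F00m c1n_F0Rp c1n_F0Rm c1n_FP0p c1n_FP0m c1n_FPRp c1n_FPRm
    (fun _ => c1n_G00p) (fun _ => c1n_G00m) (fun _ => c1n_GP0p) (fun _ => c1n_GP0m)

end M3

end Pool.Agent.Work.MP_b30479_gtS.G2

end

section

/-!
# Interior 3-runs, level part: certificates of the determinants
-/

namespace Pool.Agent.Work.MP_b30479_gtS.G2

namespace M3

open NumIs (E V chk)

theorem cn1_FPRp : okF sn1 sn1.hP sn1.hR 1 = true :=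
  (chk_node cn1_FPRp_L cn1_FPRp_R)

theorem cn1_GP0p : okG sn1 sn1.hP 0 1 = true :=
  (chk_node cn1_GP0p_L cn1_GP0p_R)

theorem certsn1 : okS sn1 false = true :=
  okS_intro cn1_0 cn1_2a cn1_2b cn1_F00p cn1_F00m cn1_F0Rp cn1_F0Rm cn1_FP0p cn1_FP0m cn1_FPRp cn1_FPRm
    (fun _ => cn1_G00p) (fun _ => cn1_G00m) (fun _ => cn1_GP0p) (fun _ => cn1_GP0m)

end M3

end Pool.Agent.Work.MP_b30479_gtS.G2

end

section

/-!
# Interior 3-runs, level part: certificates of the determinants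
-/

namespace Pool.Agent.Work.MP_b30479_gtS.G2

namespace M3

open NumIs (E V chk)

theorem certsnn : okS snn true = true :=
  okS_intro cnn_0 cnn_2a cnn_2b cnn_F00p cnn_F00m cnn_F0Rp cnn_F0Rm cnn_FP0p cnn_FP0m cnn_FPRp cnn_FPRm
    (fun h => absurd h (by decide)) (fun h => absurd h (by decide)) (fun h => absurd h (by decide)) (fun h => absurd h (by decide))

end M3

end Pool.Agent.Work.MP_b30479_gtS.G2

end

section

/-!
# Interior 3-runs, level part: all pairs of classes of neighbours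
-/

namespace Pool.Agent.Work.MP_b30479_gtS.G2

open Set

namespace M3

open NumIs (MM)
open SR

/-- the data of a pair of classes; `A`: neighbour at the slot `0`, `K`: at the slot `2` -/
def prm : Cl → Cl → Prm
  | .one, .one => p11
  | .one, .twoE => p1E
  | .one, .ring => p1Z
  | .one, _ => p1N
  | .twoE, .one => pE1
  | .twoE, .twoE => pEE
  | .twoE, .ring => pEZ
  | .twoE, _ => pEN
  | .two, .one => pD1
  | .two, .twoE => pDE
  | .two, .ring => pDZ
  | .two, _ => pDN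
  | _, .one => pN1
  | _, .twoE => pNE
  | _, .ring => pNZ
  | _, _ => pNN

/-- everything known about a record -/
structure Good (p : Prm) : Prop where
  k1 : Ok p
  k2 : OkU p
  L : ∃ fl fh, okL p fl fh = true
  U : ∃ f, okU p f = true ∧ (f = true → 10 * p.e - p.be * p.ul + p.ga * p.vh ≤ 10 * p.m1)
  S : ∃ s g, OkS s ∧ Cov p s ∧ okS s g = true

theorem good11 : Good p11 :=
  ⟨ok11, okU11, ⟨_, _, certL11⟩, ⟨_, certU11, fun _ => by decide⟩,
    ⟨_, _, oks11, cov11, certs11⟩⟩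
theorem good1E : Good p1E :=
  ⟨ok1E, okU1E, ⟨_, _, certL1E⟩, ⟨_, certU1E, fun _ => by decide⟩,
    ⟨_, _, oks1n, cov1E, certs1n⟩⟩
theorem good1N : Good p1N :=
  ⟨ok1N, okU1N, ⟨_, _, certL1N⟩, ⟨_, certU1N, fun _ => by decide⟩,
    ⟨_, _, oks1n, cov1N, certs1n⟩⟩
theorem good1Z : Good p1Z :=
  ⟨ok1Z, okU1Z, ⟨_, _, certL1Z⟩, ⟨_, certU1Z, fun _ => by decide⟩,
    ⟨_, _, oks1n, cov1Z, certs1n⟩⟩
theorem goodE1 : Good pE1 :=
  ⟨okE1, okUE1, ⟨_, _, certLE1⟩, ⟨_, certUE1, fun _ => by decide⟩,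
    ⟨_, _, oksn1, covE1, certsn1⟩⟩
theorem goodEE : Good pEE :=
  ⟨okEE, okUEE, ⟨_, _, certLEE⟩, ⟨_, certUEE, fun _ => by decide⟩,
    ⟨_, _, oksnn, covEE, certsnn⟩⟩
theorem goodEN : Good pEN :=
  ⟨okEN, okUEN, ⟨_, _, certLEN⟩, ⟨_, certUEN, fun _ => by decide⟩,
    ⟨_, _, oksnn, covEN, certsnn⟩⟩
theorem goodEZ : Good pEZ :=
  ⟨okEZ, okUEZ, ⟨_, _, certLEZ⟩, ⟨_, certUEZ, fun _ => by decide⟩,
    ⟨_, _, oksnn, covEZ, certsnn⟩⟩
theorem goodN1 : Good pN1 :=
  ⟨okN1, okUN1, ⟨_, _, certLN1⟩, ⟨_, certUN1, fun _ => by decide⟩,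
    ⟨_, _, oksn1, covN1, certsn1⟩⟩
theorem goodNE : Good pNE :=
  ⟨okNE, okUNE, ⟨_, _, certLNE⟩, ⟨_, certUNE, fun _ => by decide⟩,
    ⟨_, _, oksnn, covNE, certsnn⟩⟩
theorem goodNN : Good pNN :=
  ⟨okNN, okUNN, ⟨_, _, certLNN⟩, ⟨_, certUNN, fun _ => by decide⟩,
    ⟨_, _, oksnn, covNN, certsnn⟩⟩
theorem goodNZ : Good pNZ :=
  ⟨okNZ, okUNZ, ⟨_, _, certLNZ⟩, ⟨_, certUNZ, fun _ => by decide⟩,
    ⟨_, _, oksnn, covNZ, certsnn⟩⟩

theorem goodD1 : Good pD1 :=
  ⟨okD1, okUD1, ⟨_, _, certLD1⟩, ⟨_, certUD1, fun _ => by decide⟩,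
    ⟨_, _, oksn1, covD1, certsn1⟩⟩
theorem goodDE : Good pDE :=
  ⟨okDE, okUDE, ⟨_, _, certLDE⟩, ⟨_, certUDE, fun _ => by decide⟩,
    ⟨_, _, oksnn, covDE, certsnn⟩⟩
theorem goodDN : Good pDN :=
  ⟨okDN, okUDN, ⟨_, _, certLDN⟩, ⟨_, certUDN, fun _ => by decide⟩,
    ⟨_, _, oksnn, covDN, certsnn⟩⟩
theorem goodDZ : Good pDZ :=
  ⟨okDZ, okUDZ, ⟨_, _, certLDZ⟩, ⟨_, certUDZ, fun _ => by decide⟩,
    ⟨_, _, oksnn, covDZ, certsnn⟩⟩

theorem good (A K : Cl) : Good (prm A K) := by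
  cases A <;> cases K <;>
    first
    | exact good11 | exact good1E | exact good1N | exact good1Z | exact goodE1
    | exact goodEE | exact goodEN | exact goodEZ | exact goodD1 | exact goodDE | exact goodDN
    | exact goodDZ | exact goodN1 | exact goodNE | exact goodNN | exact goodNZ

variable {p : Prm} {tu tv tm u v m : ℝ}

theorem Good.lvl (h : Good p) (ht : Hts p tu tv tm) :
    Lvl tu tv tm ((p.ul : ℝ) / 10000) ((p.uh : ℝ) / 10000) ((p.vl : ℝ) / 10000)
      ((p.vh : ℝ) / 10000) (fun _ v => mL p v) (mU p) := by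
  obtain ⟨fl, fh, hL⟩ := h.L
  obtain ⟨f, hU, hf⟩ := h.U
  obtain ⟨s, g, hks, hc, hS⟩ := h.S
  exact M3.lvl h.k1 h.k2 hks hc hL hU hf hS ht

theorem Good.zero_mem (h : Good p) (ht : Hts p tu tv tm)
    (hu0 : (p.ul : ℝ) / 10000 ≤ u) (hu1 : u ≤ (p.uh : ℝ) / 10000)
    (hv0 : (p.vl : ℝ) / 10000 ≤ v) (hv1 : v ≤ (p.vh : ℝ) / 10000)
    (hm0 : (p.ml : ℝ) / 10000 ≤ m) (hm1 : m ≤ 3 / 4) (hM1 : 0 < MM (m - v) (tm - tv))
    (hM2 : 0 < MM (u + m) (tu + tm)) (hz : Phi tu tv tm u v m = 0) :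
    m ∈ Icc (mL p v) (mU p u v) := by
  obtain ⟨fl, fh, hL⟩ := h.L
  obtain ⟨f, hU, hf⟩ := h.U
  exact M3.zero_mem h.k1 h.k2 hL hU hf ht hu0 hu1 hv0 hv1 hm0 hm1 hM1 hM2 hz

/-- **Location of the inner variable**, all pairs of classes. -/
theorem zero_mem_all (A K : Cl) (ht : Hts (prm A K) tu tv tm)
    (hu0 : ((prm A K).ul : ℝ) / 10000 ≤ u) (hu1 : u ≤ ((prm A K).uh : ℝ) / 10000)
    (hv0 : ((prm A K).vl : ℝ) / 10000 ≤ v) (hv1 : v ≤ ((prm A K).vh : ℝ) / 10000)
    (hm0 : (5 : ℝ) / 100 ≤ m) (hm1 : m ≤ 3 / 4)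
    (hM1 : 0 < MM (m - v) (tm - tv))
    (hM2 : 0 < MM (u + m) (tu + tm)) (hz : Phi tu tv tm u v m = 0) :
    m ∈ Icc (mL (prm A K) v) (mU (prm A K) u v) := by
  have h3 : (prm A K).ml ≤ 500 := by
    cases A <;> cases K <;> decide
  have h4 : ((prm A K).ml : ℝ) ≤ 500 := by exact_mod_cast h3
  exact (good A K).zero_mem ht hu0 hu1 hv0 hv1 (by linarith) hm1 hM1 hM2 hz

end M3

end Pool.Agent.Work.MP_b30479_gtS.G2

end

section

/-!
# Push-back for digits `2`
-/

namespace Pool.Agent.Work.MP_b30479_gtS.G2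

open Finset VOL Filter Topology

theorem gc_Icc_sin {a u x : ℝ} (ha : 0 < a) (hu : u ∈ Set.Icc a x) (hx : x ≤ 1 / 2) :
    Real.sin (Real.pi * a) ≤ Real.sin (Real.pi * u) := by
  have hp := Real.pi_pos
  apply Real.sin_le_sin_of_le_of_le_pi_div_two
  · nlinarith only [hp, ha]
  · nlinarith only [hx, hp, hu, hu.2]
  · nlinarith only [hp, hu, hu.1]

/-- **Push-back on levels for a digit `2`.** -/
theorem lev_two {a a' x x' τ τ' : ℝ} (ha : 0 < a) (hx : x ≤ 1 / 2)
    (ha' : a' ∈ Set.Ioo (0 : ℝ) 1) (hx' : x' ∈ Set.Ioo (0 : ℝ) 1) (hlt : a < x)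
    (hg : |gh x' - gh a'| ≤ gh x - gh a) (hs : a + a' < 1) (hs1 : x + x' < 1)
    (hτ : |Real.sinh (Real.pi * τ)| ≤ Real.sin (Real.pi * a)) :
    LL (lv x τ + lv x' τ') - 2 * LL (lv x τ) < LL (lv a τ + lv a' τ') - 2 * LL (lv a τ) := by
  have ha1 : a ∈ Set.Ioo (0 : ℝ) 1 := ⟨ha, by linarith only [ha, hx, hlt]⟩
  have hx1 : x ∈ Set.Ioo (0 : ℝ) 1 := ⟨by linarith only [ha, hlt], by linarith only [ha, hx, hlt]⟩
  refine lev_fd ha1 ha' hx1 hx' hlt hg hs hs1 ?_
  intro u u' hu hu' hsum _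
  have hu'0 : 0 < u' := by
    rcases Set.mem_uIcc.1 hu' with h | h
    · exact ha'.1.trans_le h.1
    · exact hx'.1.trans_le h.1
  have h := k2_level (u := lv u τ) (v := lv u' τ') (by simpa using ha.trans_le hu.1)
    (by simpa using hu.2.trans hx) (by simpa using hu'0) (by simpa using hsum)
    (by simpa using hτ.trans (gc_Icc_sin ha hu hx))
  simpa using h

/-- one variable: end with two crossings -/
theorem lev_twoE {a x τ : ℝ} (ha : 0 < a) (hx : x ≤ 1 / 2) (hlt : a < x) :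
    -LL (lv x τ) < -LL (lv a τ) := by
  have h : StrictMonoOn (fun x => LL (lv x τ)) (Set.Icc a (1 / 2)) := by
    apply strictMonoOn_of_deriv_pos (convex_Icc _ _)
    · intro u hu
      exact (hasDerivAt_LL_lv (t := τ) (by linarith only [ha, hu, hu.1]) (by linarith only [ha, hx, hlt, hu, hu.2])).continuousAt.continuousWithinAt
    · intro u hu
      rw [interior_Icc] at hu
      rw [(hasDerivAt_LL_lv (t := τ) (by linarith only [ha, hu, hu.1]) (by linarith only [ha, hx, hlt, hu, hu.2])).deriv]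
      exact CC_pos (by simpa using ha.trans hu.1) (by simpa using hu.2)
  have := h ⟨le_rfl, (hlt.trans_le hx).le⟩ ⟨hlt.le, hx⟩ hlt
  simp only at this
  linarith only [this]

/-- the heights are small against the left ramps -/
theorem sinh_le_sin {c T : ℝ} (hc : 0 < c) (hc1 : c ≤ 16 / 100) (hT : |T| ≤ 85 / 100 * c) :
    |Real.sinh (Real.pi * T)| ≤ Real.sin (Real.pi * c) := by
  have hp := Real.pi_pos
  have hp1 := Real.pi_lt_d4
  rw [Real.abs_sinh, abs_mul, abs_of_pos hp]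
  set x := Real.pi * c with hx
  have hx0 : 0 < x := by positivity
  have hx1 : x ≤ 50266 / 100000 := by
    rw [hx]; nlinarith only [hc1, hc, hp1]
  have h1 : Real.sinh (Real.pi * |T|) ≤ Real.sinh (85 / 100 * x) := by
    apply Real.sinh_le_sinh.2
    rw [hx]
    nlinarith only [hc, hc1, hT, hp]
  refine h1.trans ?_
  have h2 := Real.sin_gt_sub_cube hx0
  refine le_trans ?_ h2.le
  set w := 85 / 100 * x with hw
  have hw0 : 0 ≤ w := by positivity
  have h3 : Real.sinh w ≤ w * Real.cosh w := by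
    have h := Real.self_le_sinh_iff.2 hw0
    exact sinh_le_mul_cosh hw0
  have h4 : Real.cosh w ≤ Real.exp (w ^ 2 / 2) := Real.cosh_le_exp_half_sq w
  have hs : w ^ 2 / 2 ≤ 914 / 10000 := by
    rw [hw]
    nlinarith only [hp1, hc1, hc, hp, hx0, hx1]
  have h5 : Real.exp (w ^ 2 / 2) ≤ 1 / (1 - w ^ 2 / 2) := by
    have h6 := Real.add_one_le_exp (-(w ^ 2 / 2))
    rw [Real.exp_neg] at h6
    have h7 := Real.exp_pos (w ^ 2 / 2)
    rw [le_div_iff₀ (by linarith only [hc, hc1, hs])]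
    have : (-(w ^ 2 / 2) + 1) * Real.exp (w ^ 2 / 2) ≤ 1 := by
      calc _ ≤ (Real.exp (w ^ 2 / 2))⁻¹ * Real.exp (w ^ 2 / 2) :=
            mul_le_mul_of_nonneg_right h6 h7.le
        _ = 1 := inv_mul_cancel₀ h7.ne'
    linarith only [this]
  have h8 : Real.sinh w * (1 - w ^ 2 / 2) ≤ w := by
    have h9 : Real.cosh w * (1 - w ^ 2 / 2) ≤ 1 := by
      have := h4.trans h5
      rwa [le_div_iff₀ (by linarith only [hc, hc1, hs])] at this
    calc _ ≤ w * Real.cosh w * (1 - w ^ 2 / 2) := mul_le_mul_of_nonneg_right h3 (by linarith only [hc, hc1, hs])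
      _ = w * (Real.cosh w * (1 - w ^ 2 / 2)) := by ring
      _ ≤ w * 1 := mul_le_mul_of_nonneg_left h9 hw0
      _ = w := mul_one _
  have h10 : w ≤ (x - x ^ 3 / 6) * (1 - w ^ 2 / 2) := by
    rw [hw]
    have hs : x ^ 2 ≤ 2527 / 10000 := by nlinarith only [hp1, hc1, hc, hp, hx0, hx1]
    have : 85 / 100 ≤ (1 - x ^ 2 / 6) * (1 - (85 / 100 * x) ^ 2 / 2) := by
      have h0 : 0 ≤ x ^ 2 := sq_nonneg x
      nlinarith only [hc, hc1, hs]
    nlinarith only [hc, hc1, hx0, this]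
  have h11 : 0 < 1 - w ^ 2 / 2 := by linarith only [hc, hc1, hs]
  exact le_of_mul_le_mul_right (h8.trans h10) h11

namespace SR

variable {M : ℕ} {b : Fin (M + 1) → ℤ} {zs : DD (tyW b) ⊕ ZZ (tyW b) → ℂ}
variable {y : DD (tyW b) ⊕ ZZ (tyW b) → ℝ}
variable {h h' : Fin M} {i j j' : Fin (M + 1)} {p : Fin 3}

/-- on the flat parts -/
theorem Adj.Yw_flat (A : Adj h i p j) (hy : Mx b zs y) (hf : Flat b y) :
    Yw b zs y i p = lv (y (.inl (.inl h))) (ofs (b i) (zs (.inl (.inl h))).im) := by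
  have q1 := wcr_pos (b := b) h
  have q3 := wcl_pos (b := b) h
  apply Complex.ext
  · rw [A.re, lv_re]
  · rw [(A.rh hy).im, A.re, tr_b q3 q1 (hf h).1 (hf h).2, mul_one, lv_im]

theorem Adj.Ys_lv (A : Adj h i p j) :
    Ys b zs i p = lv (zs (.inl (.inl h))).re (ofs (b i) (zs (.inl (.inl h))).im) := by
  apply Complex.ext
  · rw [A.Ys_re, lv_re]
  · rw [A.Ys_im, lv_im]

theorem hpp_two_cl (p : Fin 3) (P B Q : Cl) (s : Bool) :
    0 < (hpp p P .two B Q).cl ∧ (hpp p P .two B Q).cl ≤ 16 / 100 ∧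
    -(85 / 100 * (hpp p P .two B Q).cl) ≤ (hbox .two B s).t0 ∧
    (hbox .two B s).t1 ≤ 85 / 100 * (hpp p P .two B Q).cl ∧
    (hpp p P .two B Q).cl ≤ (hbox .two B s).x0 ∧ (hbox .two B s).x1 ≤ 392 / 1000 := by
  unfold hpp
  cases B <;> split_ifs <;> simp only [hp, hp1, hbox] <;> norm_num

/-- **Push-back of a digit `2`.** -/
theorem Adj.push2 (A : Adj h i p j) (hb : ClassW b) (hL : Loc b zs) (hy : Mx b zs y)
    (hf : Flat b y) (hc : clsW b i = .two) (h5 : y (.inl (.inl h)) ≤ 1 / 2)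
    (hs : ∀ h' j', Adj h' i p.rev j' → y (.inl (.inl h)) + y (.inl (.inl h')) < 1) :
    Push' (tyW b) b i p p.rev (Xw b zs y i) (xx (tyW b) i zs) := by
  apply A.push_two hb (Or.inl hc)
  rcases A.other b zs y with ⟨he, -⟩ | ⟨-, h', j', A'⟩
  · have := clsW_inner hb (Or.inr (Or.inl hc))
    rw [this] at he
    exact absurd he (by decide)
  have hB := A.box hb hL
  have hB' := A'.box hb hL
  rw [hc] at hB hB'
  have g := hpp_two_cl p (oc b i p.rev) (clsW b j) (oc b j p) (ssW b h)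
  have g' := hpp_two_cl p.rev (oc b i p.rev.rev) (clsW b j') (oc b j' p.rev) (ssW b h')
  have ecl : wcl b h = (hpp p (oc b i p.rev) .two (clsW b j) (oc b j p)).cl := by
    rw [A.cl_eq b, hc]
  have ecl' : wcl b h' = (hpp p.rev (oc b i p.rev.rev) .two (clsW b j') (oc b j' p.rev)).cl := by
    rw [A'.cl_eq b, hc]
  rw [← ecl] at g
  rw [← ecl'] at g'
  rw [A.Yw_flat hy hf, A'.Yw_flat hy hf, A.Ys_lv, A'.Ys_lv]
  have hsum := hs h' j' A'
  have hyh := (hf h).1
  have hyh' := (hf h').1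
  have hyh2 : y (.inl (.inl h')) < 1 := by linarith only [g, hsum, hyh]
  generalize ofs (b i) (zs (.inl (.inl h))).im = T at hB ⊢
  generalize ofs (b i) (zs (.inl (.inl h'))).im = T' at hB' ⊢
  generalize y (.inl (.inl h)) = x at *
  generalize y (.inl (.inl h')) = x' at *
  generalize (zs (.inl (.inl h))).re = a at *
  generalize (zs (.inl (.inl h'))).re = a' at *
  have hT : |Real.sinh (Real.pi * T)| ≤ Real.sin (Real.pi * wcl b h) := by
    apply sinh_le_sin g.1 g.2.1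
    rw [abs_le]
    exact ⟨by linarith only [g, hB, hB.2.2.1, g.2.2.1], by linarith only [g, hB, hB.2.2.2, g.2.2.2.1]⟩
  have mono : ∀ {c : ℝ}, wcl b h ≤ c → c ≤ 1 / 2 →
      |Real.sinh (Real.pi * T)| ≤ Real.sin (Real.pi * c) := fun h1 h2 =>
    hT.trans (gc_Icc_sin g.1 ⟨h1, le_rfl⟩ h2)
  have a1 : wcl b h ≤ a := g.2.2.2.2.1.trans hB.1
  have a2 : a ≤ 392 / 1000 := hB.2.1.trans g.2.2.2.2.2
  have a1' : wcl b h' ≤ a' := g'.2.2.2.2.1.trans hB'.1
  have a2' : a' ≤ 392 / 1000 := hB'.2.1.trans g'.2.2.2.2.2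
  have a0 : 0 < a := g.1.trans_le a1
  have a0' : 0 < a' := g'.1.trans_le a1'
  have x0 : 0 < x := g.1.trans_le hyh
  have x0' : 0 < x' := g'.1.trans_le hyh'
  unfold PushV S2
  simp only [lv_re, lv_im, zero_mul, add_zero, one_mul]
  constructor
  · intro hlt hg
    have := lev_two (τ := T) (τ' := T') a0 h5 ⟨a0', by linarith only [g, g', hB']⟩ ⟨x0', hyh2⟩ hlt hg (by linarith only [g, g', hB, hB'])
      (by linarith only [hsum]) (mono a1 (by linarith only [g, hB]))
    linarith only [this]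
  · intro hlt hg
    have := lev_two (τ := T) (τ' := T') x0 (by linarith only [g, hB]) ⟨x0', hyh2⟩ ⟨a0', by linarith only [g, g', hB']⟩ hlt
      (by rwa [abs_sub_comm]) (by linarith only [hsum]) (by linarith only [g, g', hB, hB']) (mono hyh h5)
    linarith only [this]

/-- **Push-back of a digit `2` at an end.** -/
theorem Adj.push2E (A : Adj h i p j) (hb : ClassW b) (hL : Loc b zs) (hy : Mx b zs y)
    (hf : Flat b y) (hc : clsW b i = .twoE) (h5 : y (.inl (.inl h)) ≤ 1 / 2) :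
    Push' (tyW b) b i p p.rev (Xw b zs y i) (xx (tyW b) i zs) := by
  apply A.push_two hb (Or.inr hc)
  have he := clsW_end (Or.inl hc)
  have h0 : Yw b zs y i p.rev = 0 := by
    rcases A.other b zs y with ⟨-, h0⟩ | ⟨he', -⟩
    · exact h0
    · rw [he] at he'
      exact absurd he' (by decide)
  have h0' : Ys b zs i p.rev = 0 := A.Ys_other he
  rw [h0, h0', A.Yw_flat hy hf, A.Ys_lv]
  have hh := hL.half h
  have hy0 : 0 < y (.inl (.inl h)) := (wcl_pos h).trans_le (hf h).1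
  have hz0 : 0 < (zs (.inl (.inl h))).re := (wcl_pos h).trans (hL.flatD (.inl h)).1
  unfold PushV S2
  simp only [lv_re, lv_im, zero_mul, add_zero, one_mul, Complex.zero_im]
  constructor
  · intro hlt _
    have := lev_twoE (τ := ofs (b i) (zs (.inl (.inl h))).im) hz0 h5 hlt
    linarith only [this]
  · intro hlt _
    have := lev_twoE (τ := ofs (b i) (zs (.inl (.inl h))).im) hy0 hh.le hlt
    linarith only [this]

end SR

end Pool.Agent.Work.MP_b30479_gtS.G2

end

section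

/-!
# Flat parts: floors and sums at the digits `1`
-/

namespace Pool.Agent.Work.MP_b30479_gtS.G2

open Finset VOL Filter Topology

namespace SR

open ML

variable {M : ℕ} {b : Fin (M + 1) → ℤ} {zs : DD (tyW b) ⊕ ZZ (tyW b) → ℂ}
variable {y : DD (tyW b) ⊕ ZZ (tyW b) → ℝ}
variable {h h' h'' : Fin M} {i j j' l : Fin (M + 1)} {p : Fin 3}

/-! ### exclusion -/

theorem Adj.flat_right (A : Adj h i p j) (hy : Mx b zs y) (h0 : wcl b h < y (.inl (.inl h)))
    (h1 : y (.inl (.inl h)) ≤ wXM b h - wcr b h)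
    (hs : Sw b zs y i p 0 + Sw b zs y j p.rev 0 < 0) : False := by
  cases A
  · exact flat_false_right hy h h0 h1 hs
  · exact flat_false_right hy h h0 h1 (by rw [add_comm]; exact hs)

theorem Adj.flat_left (A : Adj h i p j) (hy : Mx b zs y) (h0 : wcl b h ≤ y (.inl (.inl h)))
    (h1 : y (.inl (.inl h)) < wXM b h - wcr b h)
    (hs : 0 < Sw b zs y i p 0 + Sw b zs y j p.rev 0) : False := by
  cases A
  · exact flat_false_left hy h h0 h1 hs
  · exact flat_false_left hy h h0 h1 (by rw [add_comm]; exact hs)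

/-! ### sides -/

theorem Adj.one_flat (A : Adj h i p j) (A' : Adj h' i p.rev j') (hb : ClassW b) (hy : Mx b zs y)
    (hf : Flat b y) (hc : clsW b i = .one) :
    Sw b zs y i p 0 = Real.pi * ofs (b i) (zs (.inl (.inl h'))).im +
      LL (lv (y (.inl (.inl h)) + y (.inl (.inl h')))
        (ofs (b i) (zs (.inl (.inl h))).im + ofs (b i) (zs (.inl (.inl h'))).im)) -
      LL (lv (y (.inl (.inl h))) (ofs (b i) (zs (.inl (.inl h))).im)) := by
  rw [A.side_one hb hc, ofs_zero', A.Yw_flat hy hf, A'.Yw_flat hy hf]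
  unfold S1
  rw [lv_add]
  simp only [lv_im, zero_mul, add_zero, one_mul]

theorem Adj.two_flat (A : Adj h i p j) (A' : Adj h' i p.rev j') (hb : ClassW b) (hy : Mx b zs y)
    (hf : Flat b y) (hc : clsW b i = .two) :
    Sw b zs y i p 0 = Real.pi * (ofs (b i) (zs (.inl (.inl h'))).im -
        ofs (b i) (zs (.inl (.inl h))).im) +
      LL (lv (y (.inl (.inl h)) + y (.inl (.inl h')))
        (ofs (b i) (zs (.inl (.inl h))).im + ofs (b i) (zs (.inl (.inl h'))).im)) -
      2 * LL (lv (y (.inl (.inl h))) (ofs (b i) (zs (.inl (.inl h))).im)) := by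
  rw [A.side_two hb (Or.inl hc), ofs_zero', A.Yw_flat hy hf, A'.Yw_flat hy hf]
  unfold S2
  rw [lv_add]
  simp only [lv_im, zero_mul, add_zero, one_mul]

theorem Adj.twoE_flat (A : Adj h i p j) (hb : ClassW b) (hy : Mx b zs y)
    (hf : Flat b y) (hc : clsW b i = .twoE) :
    Sw b zs y i p 0 = -(Real.pi * ofs (b i) (zs (.inl (.inl h))).im) -
      LL (lv (y (.inl (.inl h))) (ofs (b i) (zs (.inl (.inl h))).im)) := by
  have h00 : Yw b zs y i p.rev = 0 := by
    rcases A.other b zs y with ⟨-, h0⟩ | ⟨he', -⟩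
    · exact h0
    · rw [clsW_end (Or.inl hc)] at he'
      exact absurd he' (by decide)
  rw [A.side_two hb (Or.inr hc), ofs_zero', A.Yw_flat hy hf, h00]
  unfold S2
  simp only [lv_im, zero_mul, add_zero, one_mul, Complex.zero_im]
  ring

/-! ### ends of the flat parts -/

/-- upper end of the flat part of a hinge `1 | B` (thousandths) -/
def fe : Cl → ℤ
  | .one => 660
  | .two => 510
  | .twoE => 350
  | .three => 500
  | .threeE => 350
  | .ring => 360

theorem fe_tab (p : Fin 3) (P B Q : Cl) :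
    (hpp p P .one B Q).XM - (hpp p P .one B Q).cr ≤ (fe B : ℝ) / 1000 := by
  unfold hpp
  by_cases hq : p = 2
  · rw [if_pos hq]
    cases B <;> simp only [hp, hp1, fe] <;> (try split_ifs) <;> norm_num
  · rw [if_neg hq]
    cases B <;> simp only [hp, hp1, fe] <;> (try split_ifs) <;> norm_num

theorem Adj.fe (A : Adj h i p j) (hf : Flat b y) (hc : clsW b i = .one) :
    y (.inl (.inl h)) ≤ (fe (clsW b j) : ℝ) / 1000 := by
  refine (hf h).2.trans ?_
  rw [A.XM_eq b, A.cr_eq b, hc]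
  exact fe_tab _ _ _ _

theorem fe11_tab (p : Fin 3) (P Q : Cl) (hPQ : P = .one ∨ Q = .one) :
    (hpp p P .one .one Q).XM - (hpp p P .one .one Q).cr ≤ 600 / 1000 := by
  unfold hpp
  by_cases hq : p = 2
  · rw [if_pos hq]
    simp only [hp]
    rw [if_pos hPQ]
    norm_num
  · rw [if_neg hq]
    simp only [hp]
    rw [if_pos hPQ.symm]
    norm_num

/-- three digits `1` in a row -/
theorem Adj.fe11 (A : Adj h i p j) (A' : Adj h' i p.rev j') (hf : Flat b y)
    (hc : clsW b i = .one) (hj : clsW b j = .one) (hj' : clsW b j' = .one) :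
    y (.inl (.inl h)) ≤ 600 / 1000 := by
  refine (hf h).2.trans ?_
  rw [A.XM_eq b, A.cr_eq b, hc, hj]
  apply fe11_tab
  left
  rw [A'.oc_eq]
  exact hj'

/-- lower end of the flat part -/
theorem Adj.clf (A : Adj h i p j) (hf : Flat b y) (hc : clsW b i = .one) :
    (clz (k7 p (clsW b j)) : ℝ) / 1000 ≤ y (.inl (.inl h)) := by
  rw [← A.cl_one hc]
  exact (hf h).1

theorem fe_low_tab (p : Fin 3) (P B Q : Cl) :
    350 / 1000 ≤ (hpp p P .one B Q).XM - (hpp p P .one B Q).cr := by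
  unfold hpp
  by_cases hq : p = 2
  · rw [if_pos hq]
    cases B <;> simp only [hp, hp1] <;> (try split_ifs) <;> norm_num
  · rw [if_neg hq]
    cases B <;> simp only [hp, hp1] <;> (try split_ifs) <;> norm_num

theorem Adj.fe_low (A : Adj h i p j) (hc : clsW b i = .one) :
    350 / 1000 ≤ wXM b h - wcr b h := by
  rw [A.XM_eq b, A.cr_eq b, hc]
  exact fe_low_tab _ _ _ _

/-! ### windows -/

theorem pcw_ringw {Q : Cl} {T k r : ℝ} (w : (pcw .ring Q).In T k r) :
    -(77 / 1000) ≤ T ∧ T ≤ 77 / 1000 ∧ -(25 / 1000) ≤ k + r := by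
  obtain ⟨w1, w2, -, -, -, -, -, -, -, -, w3, -⟩ := w
  cases Q <;> simp only [pcw] at w1 w2 w3 <;> refine ⟨?_, ?_, ?_⟩ <;> linarith only [w1, w2, w3]

theorem pcw_twoEw {Q : Cl} {T k r : ℝ} (w : (pcw .twoE Q).In T k r) :
    -(71 / 1000) ≤ k ∧ k ≤ 71 / 1000 ∧ -(38 / 1000) ≤ k + T := by
  obtain ⟨-, -, w1, w2, -, -, w3, -, -, -, -, -⟩ := w
  cases Q <;> simp only [pcw] at w1 w2 w3 <;> refine ⟨?_, ?_, ?_⟩ <;> linarith only [w1, w2, w3]

theorem pcw_X {P Q : Cl} {T k r : ℝ} (h : P = .one ∨ Q = .one) (w : (pcw P Q).In T k r) :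
    k + r ≤ 118 / 1000 ∧ -(144 / 1000) ≤ T + k ∧ T + k ≤ 144 / 1000 ∧ -(144 / 1000) ≤ -T + r ∧
      -T + r ≤ 144 / 1000 := by
  obtain ⟨-, -, -, -, -, -, w1, w2, w3, w4, -, w6⟩ := w
  rcases h with rfl | rfl
  · cases Q <;> simp only [pcw] at w1 w2 w3 w4 w6 <;> refine ⟨?_, ?_, ?_, ?_, ?_⟩ <;> linarith only [w6, w1, w2, w3, w4]
  · cases P <;> simp only [pcw] at w1 w2 w3 w4 w6 <;> refine ⟨?_, ?_, ?_, ?_, ?_⟩ <;> linarith only [w6, w1, w2, w3, w4]

theorem pcw_Y {P Q : Cl} {T k r : ℝ} (h : P ≠ .one) (h' : Q ≠ .one) (w : (pcw P Q).In T k r) :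
    (k + r ≤ 176 / 1000 ∧ -(101 / 1000) ≤ T + k ∧ T + k ≤ 101 / 1000 ∧ -(101 / 1000) ≤ -T + r ∧
      -T + r ≤ 101 / 1000) ∨
    (k + r ≤ 151 / 1000 ∧ -(112 / 1000) ≤ T + k ∧ T + k ≤ 112 / 1000 ∧ -(112 / 1000) ≤ -T + r ∧
      -T + r ≤ 112 / 1000) := by
  obtain ⟨-, -, -, -, -, -, w1, w2, w3, w4, -, w6⟩ := w
  cases P <;> cases Q <;> first
    | exact absurd rfl h
    | exact absurd rfl h'
    | (simp only [pcw] at w1 w2 w3 w4 w6
       left
       refine ⟨?_, ?_, ?_, ?_, ?_⟩ <;> linarith only [w2, w4, w1, w3, w6])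
    | (simp only [pcw] at w1 w2 w3 w4 w6
       right
       refine ⟨?_, ?_, ?_, ?_, ?_⟩ <;> linarith only [w6, w1, w2, w3, w4])

theorem okF_Y1 : MQ.okF 176 101 101 64 = true := by decide +kernel

theorem okF_Y2 : MQ.okF 151 112 112 64 = true := by decide +kernel

theorem cw_twoEw {C : Cl} {T k : ℝ} (h1 : C ≠ .one) (h2 : C ≠ .twoE) (w1 : (cw C .twoE).t0 ≤ T)
    (w2 : T ≤ (cw C .twoE).t1) (w3 : (cw C .twoE).s0 ≤ T + k) :
    -(61 / 1000) ≤ T ∧ T ≤ 61 / 1000 ∧ 21 / 1000 ≤ T + k := by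
  cases C <;> first
    | exact absurd rfl h1
    | exact absurd rfl h2
    | (simp only [cw] at w1 w2 w3
       refine ⟨?_, ?_, ?_⟩ <;> linarith only [w1, w2, w3])

theorem clz_ge (p : Fin 3) (Q : Cl) : (13 : ℝ) / 100 ≤ (clz (k7 p Q) : ℝ) / 1000 := by
  cases Q <;> simp only [k7] <;> (try split_ifs) <;> simp only [clz] <;> norm_num

theorem clz_le (p : Fin 3) (Q : Cl) : (clz (k7 p Q) : ℝ) / 1000 ≤ 16 / 100 := by
  cases Q <;> simp only [k7] <;> (try split_ifs) <;> simp only [clz] <;> norm_num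

theorem fe_le {Q : Cl} (h : Q ≠ .one) : (fe Q : ℝ) / 1000 ≤ 51 / 100 := by
  cases Q <;> first
    | exact absurd rfl h
    | (simp only [fe]; norm_num)

theorem cw_two_w {C : Cl} {T k v : ℝ} (hv : 405 / 1000 < v) (hv' : v ≤ (fe C : ℝ) / 1000)
    (w1 : (cw C .two).t0 ≤ T) (w2 : T ≤ (cw C .two).t1) (w3 : (cw C .two).s0 ≤ T + k)
    (w4 : T + k ≤ (cw C .two).s1) :
    -(18 / 1000) ≤ T ∧ T ≤ 79 / 1000 ∧ -(148 / 1000) ≤ T + k ∧ T + k ≤ 148 / 1000 := by
  cases C <;> simp only [fe] at hv' <;> push_cast at hv' <;> first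
    | (exfalso; linarith only [hv, hv'])
    | (simp only [cw] at w1 w2 w3 w4
       refine ⟨?_, ?_, ?_, ?_⟩ <;> linarith only [w1, w2, w3, w4])

theorem hbox_two_t1 (B : Cl) (s : Bool) : (hbox .two B s).t1 ≤ 96 / 1000 := by
  cases B <;> simp only [hbox] <;> norm_num

theorem fe2_tab (p : Fin 3) (P Q : Cl) {B : Cl} (hB : B ≠ .one) :
    (hpp p P .two B Q).XM - (hpp p P .two B Q).cr ≤ 33 / 100 := by
  unfold hpp
  by_cases hq : p = 2
  · rw [if_pos hq]
    cases B <;> first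
      | exact absurd rfl hB
      | (simp only [hp]; norm_num)
  · rw [if_neg hq]
    cases B <;> first
      | exact absurd rfl hB
      | (simp only [hp]; norm_num)

/-! ### floors -/

/-- **`1 | 1` next to a ring.** -/
theorem flat_ring_one (hb : ClassW b) (hP : LocP b zs) (hy : Mx b zs y) (hf : Flat b y)
    (A : Adj h i p j) (A' : Adj h' i p.rev j') (hc : clsW b i = .one) (hj : clsW b j = .one)
    (hj' : clsW b j' = .ring) : 190 / 1000 ≤ y (.inl (.inl h)) := by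
  by_contra hcon
  push Not at hcon
  obtain ⟨h'', l, A''⟩ := A.symm.other_one hb hj
  rw [Fin.rev_rev] at A''
  have hop := A.opp hb (Or.inl (by rw [hc]; decide))
  have w := hP.pair A A' A'' hc hj
  have f1 := A.clf hf hc
  have f2 := A'.clf hf hc
  have f3 := A''.clf hf hj
  have g2 := A'.fe hf hc
  have g3 := A''.fe hf hj
  have g4 : clsW b l = .one → y (.inl (.inl h'')) ≤ 600 / 1000 := fun hl =>
    A''.fe11 A.symm hf hj hl hc
  rw [hj] at f1
  rw [hj'] at f2 g2 w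
  have e1 := A.one_flat A' hb hy hf hc
  have e2 := A.symm.one_flat A''.rr hb hy hf hj
  rw [ofs_opp hop (zs (.inl (.inl h))).im] at e2
  have e3 := A.fe_low hc
  have hv0 : 13 / 100 ≤ y (.inl (.inl h'')) := (clz_ge _ _).trans f3
  have hv1 : y (.inl (.inl h'')) ≤ 60 / 100 := by
    by_cases hq : clsW b l = .one
    · linarith only [g4, hq, g4 hq]
    · linarith only [g3, hq, fe_le hq]
  obtain ⟨w1, w2, w3⟩ := pcw_ringw w
  simp only [k7, clz, SR.fe] at f1 f2 g2
  push_cast at f1 f2 g2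
  refine A.flat_left hy (hf h).1 (by linarith only [hcon, e3]) ?_
  rw [e1, e2]
  exact MQ.flat_11Z (by linarith only [f1]) (by linarith only [hcon]) (by linarith only [f2]) (by linarith only [g2]) hv0 hv1
    (abs_le.2 ⟨w1, w2⟩) w3

/-- **`1 | 2` at an end.** -/
theorem flat_twoE (hb : ClassW b) (hX : LocX b zs) (hy : Mx b zs y) (hf : Flat b y)
    (A : Adj h i p j) (A' : Adj h' i p.rev j') (hc : clsW b i = .one) (hj : clsW b j = .twoE)
    (h1 : clsW b j' ≠ .one) (h2 : clsW b j' ≠ .twoE) : 200 / 1000 ≤ y (.inl (.inl h)) := by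
  by_contra hcon
  push Not at hcon
  have hop := A.opp hb (Or.inl (by rw [hc]; decide))
  obtain ⟨w1, w2, w3, -⟩ := hX.win A A' hc
  have f1 := A.clf hf hc
  have f2 := A'.clf hf hc
  have g2 := A'.fe hf hc
  rw [hj] at f1 w1 w2 w3
  have e1 := A.one_flat A' hb hy hf hc
  have e2 := A.symm.twoE_flat hb hy hf hj
  rw [ofs_opp hop (zs (.inl (.inl h))).im] at e2
  have e3 := A.fe_low hc
  have hv0 : 13 / 100 ≤ y (.inl (.inl h')) := (clz_ge _ _).trans f2
  have hv1 : y (.inl (.inl h')) ≤ 51 / 100 := g2.trans (fe_le h1)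
  obtain ⟨u1, u2, u3⟩ := cw_twoEw h1 h2 w1 w2 w3
  simp only [k7, clz] at f1
  push_cast at f1
  refine A.flat_left hy (hf h).1 (by linarith only [hcon, e3, f1]) ?_
  rw [e1, e2]
  exact MQ.flat_E (by linarith only [f1]) (by linarith only [hcon]) hv0 hv1 (abs_le.2 ⟨u1, u2⟩) u3

/-- **`1 | 2` at an end, next to a `1`.** -/
theorem flat_twoE_one (hb : ClassW b) (hP : LocP b zs) (hy : Mx b zs y)
    (hf : Flat b y) (A : Adj h i p j) (A' : Adj h' i p.rev j') (hc : clsW b i = .one)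
    (hj : clsW b j = .twoE) (hj' : clsW b j' = .one) (h64 : y (.inl (.inl h')) ≤ 64 / 100) :
    150 / 1000 ≤ y (.inl (.inl h)) := by
  by_contra hcon
  push Not at hcon
  have hop := A.opp hb (Or.inl (by rw [hc]; decide))
  obtain ⟨h'', l, A''⟩ := A'.symm.other_one hb hj'
  rw [Fin.rev_rev] at A''
  have w := hP.pair A' A.rr A'' hc hj'
  have f1 := A.clf hf hc
  have f2 := A'.clf hf hc
  rw [hj] at f1 w
  rw [hj'] at f2
  have e1 := A.one_flat A' hb hy hf hc
  have e2 := A.symm.twoE_flat hb hy hf hj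
  rw [ofs_opp hop (zs (.inl (.inl h))).im] at e2
  have e3 := A.fe_low hc
  obtain ⟨u1, u2, u3⟩ := pcw_twoEw w
  simp only [k7, clz] at f1 f2
  push_cast at f1 f2
  refine A.flat_left hy (hf h).1 (by linarith only [hcon, e3, f1]) ?_
  rw [e1, e2]
  exact MQ.flat_E1 (by linarith only [f1]) (by linarith only [hcon]) (by linarith only [f2]) h64 (abs_le.2 ⟨u1, u2⟩) u3

/-! ### sums -/

/-- **The sums at the digits `1`.** -/
theorem flat_sum1 (hb : ClassW b) (hL : Loc b zs) (hX : LocX b zs) (hP : LocP b zs)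
    (hy : Mx b zs y) (hf : Flat b y) {C : Tab} (hC : Cap b y C) (c11 : ∀ p, C p .one .one ≤ 64 / 100)
    (c12 : ∀ p, C p .one .two ≤ 495 / 1000) (c13 : ∀ p, C p .one .three ≤ 45 / 100)
    (hS : Sum1 b y (95 / 100)) : Sum1 b y (90 / 100) := by
  -- the larger hinge
  have key : ∀ {h h' : Fin M} {i j j' : Fin (M + 1)} {p : Fin 3}, Adj h i p j →
      Adj h' i p.rev j' → clsW b i = .one → y (.inl (.inl h')) ≤ y (.inl (.inl h)) →
      y (.inl (.inl h)) + y (.inl (.inl h')) ≤ 90 / 100 := by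
    intro h h' i j j' p A A' hc hle
    by_contra hcon
    push Not at hcon
    have hs := hS A A' hc
    have hop := A.opp hb (Or.inl (by rw [hc]; decide))
    have x0 : 45 / 100 ≤ y (.inl (.inl h)) := by linarith only [hle, hcon]
    have g1 := A.fe hf hc
    have g2 := A'.fe hf hc
    have hc1 := hC A
    have hc2 := hC A'
    rw [hc] at hc1 hc2
    have f1 := A.clf hf hc
    have f2 := A'.clf hf hc
    have e1 := A.one_flat A' hb hy hf hc
    have hcl : wcl b h < y (.inl (.inl h)) := by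
      rw [A.cl_one hc]
      have := clz_le p (clsW b j)
      linarith only [hle, hcon, hs, this]
    have hB : clsW b j = .one ∨ clsW b j = .two := by
      have c3 := c13 p
      clear e1 hop hs hcl f1 f2 g2
      cases hj : clsW b j <;> rw [hj] at g1 hc1 <;> first
        | exact Or.inl rfl
        | exact Or.inr rfl
        | (exfalso; simp only [SR.fe] at g1; push_cast at g1; linarith only [hle, hcon, g1, hc1, c3])
    rcases hB with hj | hj
    · obtain ⟨h'', l, A''⟩ := A.symm.other_one hb hj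
      rw [Fin.rev_rev] at A''
      have w := hP.pair A A' A'' hc hj
      have e2 := A.symm.one_flat A''.rr hb hy hf hj
      rw [ofs_opp hop (zs (.inl (.inl h))).im] at e2
      have hs2 := hS A.symm A''.rr hj
      have f3 := (wcl_pos h'').trans_le (hf h'').1
      have c1 := c11 p
      rw [hj] at hc1
      refine A.flat_right hy hcl (hf h).2 ?_
      rw [e1, e2]
      by_cases hPQ : clsW b j' = .one ∨ clsW b l = .one
      · have hx : y (.inl (.inl h)) ≤ 600 / 1000 := by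
          rcases hPQ with hq | hq
          · exact A.fe11 A' hf hc hj hq
          · exact A.symm.fe11 A''.rr hf hj hc hq
        obtain ⟨u1, u2, u3, u4, u5⟩ := pcw_X hPQ w
        exact MQ.flat_sum MQ.okF_X (by linarith only [hle, hcon]) (by push_cast; linarith only [hx]) (by norm_num)
          hcon.le (by linarith only [hle, hs, hs2, f3]) f3 (by linarith only [hle, hcon, hs2, f3]) (by push_cast; linarith only [u1])
          (by push_cast; exact abs_le.2 ⟨u2, u3⟩) (by push_cast; exact abs_le.2 ⟨u4, u5⟩)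
      · push Not at hPQ
        rcases pcw_Y hPQ.1 hPQ.2 w with ⟨u1, u2, u3, u4, u5⟩ | ⟨u1, u2, u3, u4, u5⟩
        · exact MQ.flat_sum okF_Y1 (by linarith only [hle, hcon]) (by push_cast; linarith only [hc1, c1]) (by norm_num)
            hcon.le (by linarith only [hle, hs, hs2, f3]) f3 (by linarith only [hle, hcon, hs2, f3]) (by push_cast; linarith only [u1])
            (by push_cast; exact abs_le.2 ⟨u2, u3⟩) (by push_cast; exact abs_le.2 ⟨u4, u5⟩)
        · exact MQ.flat_sum okF_Y2 (by linarith only [hle, hcon]) (by push_cast; linarith only [hc1, c1]) (by norm_num)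
            hcon.le (by linarith only [hle, hs, hs2, f3]) f3 (by linarith only [hle, hcon, hs2, f3]) (by push_cast; linarith only [u1])
            (by push_cast; exact abs_le.2 ⟨u2, u3⟩) (by push_cast; exact abs_le.2 ⟨u4, u5⟩)
    · obtain ⟨h'', l, A''⟩ := A.symm.other' b (clsW_inner hb (Or.inr (Or.inl hj)))
      rw [Fin.rev_rev] at A''
      have e2 := A.symm.two_flat A''.rr hb hy hf hj
      rw [ofs_opp hop (zs (.inl (.inl h))).im] at e2
      obtain ⟨w1, w2, w3, w4⟩ := hX.win A A' hc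
      have hB := (A''.box hb hL).2.2.2
      rw [hj] at hB w1 w2 w3 w4 hc1 g1
      have hB' := hbox_two_t1 (clsW b l) (ssW b h'')
      have hw1 := c12 p
      have f3 := (wcl_pos h'').trans_le (hf h'').1
      have g3 : y (.inl (.inl h'')) ≤ 495 / 1000 := by
        by_cases hl : clsW b l = .one
        · have h5 := hC A''.symm
          rw [hl, hj] at h5
          exact h5.trans (c12 _)
        · have h5 := (hf h'').2
          rw [A''.XM_eq b, A''.cr_eq b, hj] at h5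
          have h6 := fe2_tab p (oc b j p.rev) (oc b l p) hl
          linarith only [f3, h5, h6]
      obtain ⟨u1, u2, u3, u4⟩ := cw_two_w (by linarith only [hcon, hc1, hw1]) g2 w1 w2 w3 w4
      refine A.flat_right hy hcl (hf h).2 ?_
      rw [e1, e2]
      exact MQ.flat_sum_two (by linarith only [hle, hcon]) (by linarith only [hc1, hw1, f3, g3]) hcon.le (by linarith only [hs, f3, g3]) f3 (by linarith only [hc1, hw1, f3, g3])
        (abs_le.2 ⟨u3, u4⟩) u1 u2 (by linarith only [hB, hB'])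
  intro h h' i j j' p A A' hc
  rcases le_total (y (.inl (.inl h'))) (y (.inl (.inl h))) with hle | hle
  · exact key A A' hc hle
  · have := key A' A.rr hc hle
    linarith only [this]

end SR

end Pool.Agent.Work.MP_b30479_gtS.G2

end

section

/-!
# The push of a digit `1`, below `1/2`
-/

namespace Pool.Agent.Work.MP_b30479_gtS.G2

open Finset VOL Filter Topology

namespace SR

open ML

variable {M : ℕ} {b : Fin (M + 1) → ℤ} {zs : DD (tyW b) ⊕ ZZ (tyW b) → ℂ}
variable {y : DD (tyW b) ⊕ ZZ (tyW b) → ℝ}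
variable {h h' h'' : Fin M} {i j j' l : Fin (M + 1)} {p : Fin 3}

theorem fz_le_clz (p : Fin 3) (B C : Cl) (h1 : ¬ (B = .one ∧ C = .ring))
    (h2 : B = .twoE → C = .twoE) : (MQ.fz B C : ℝ) / 1000 ≤ (clz (k7 p B) : ℝ) / 1000 := by
  cases B <;> cases C <;> first
    | exact absurd ⟨rfl, rfl⟩ h1
    | exact absurd (h2 rfl) (by decide)
    | (simp only [MQ.fz, k7]; (try split_ifs) <;> simp only [clz] <;> norm_num)

/-- the floors of the hinges of a digit `1` -/
theorem Adj.fz_le (A : Adj h i p j) (A' : Adj h' i p.rev j') (hb : ClassW b) (hX : LocX b zs)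
    (hP : LocP b zs) (hy : Mx b zs y) (hf : Flat b y) (hc : clsW b i = .one)
    (h64 : clsW b j' = .one → y (.inl (.inl h')) ≤ 64 / 100) :
    (MQ.fz (clsW b j) (clsW b j') : ℝ) / 1000 ≤ y (.inl (.inl h)) := by
  by_cases h1 : clsW b j = .one ∧ clsW b j' = .ring
  · have := flat_ring_one hb hP hy hf A A' hc h1.1 h1.2
    rw [h1.1, h1.2]
    simp only [MQ.fz]
    push_cast
    exact this
  by_cases h2 : clsW b j = .twoE → clsW b j' = .twoE
  · exact (fz_le_clz p _ _ h1 h2).trans (A.clf hf hc)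
  · push Not at h2
    obtain ⟨h2, h3⟩ := h2
    by_cases h4 : clsW b j' = .one
    · have := flat_twoE_one hb hP hy hf A A' hc h2 h4 (h64 h4)
      rw [h2, h4]
      simp only [MQ.fz]
      push_cast
      exact this
    · have h5 := flat_twoE hb hX hy hf A A' hc h2 h4 h3
      rw [h2]
      refine le_trans ?_ h5
      generalize clsW b j' = C at *
      cases C <;> simp only [MQ.fz] <;> norm_num

/-- the caps of the hinges of a digit `1` -/
theorem Adj.cz_le (A : Adj h i p j) (hf : Flat b y) (hc : clsW b i = .one)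
    (h64 : clsW b j = .one → y (.inl (.inl h)) ≤ 64 / 100) :
    y (.inl (.inl h)) ≤ (MQ.cz (clsW b j) : ℝ) / 1000 := by
  by_cases h1 : clsW b j = .one
  · rw [h1]
    simp only [MQ.cz]
    push_cast
    linarith [h64 h1]
  · refine (A.fe hf hc).trans ?_
    generalize clsW b j = B at *
    cases B <;> first
      | exact absurd rfl h1
      | (simp only [SR.fe, MQ.cz]; norm_num)

theorem rz_tab (B : Cl) (s : Bool) : ((MQ.rz B).1 : ℝ) / 1000 ≤ (hbox .one B s).x0 ∧
    (hbox .one B s).x1 ≤ ((MQ.rz B).2 : ℝ) / 1000 := by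
  cases B <;> simp only [MQ.rz, hbox] <;> constructor <;> norm_num

theorem Adj.rz_box (A : Adj h i p j) (hb : ClassW b) (hL : Loc b zs) (hc : clsW b i = .one) :
    ((MQ.rz (clsW b j)).1 : ℝ) / 1000 ≤ (zs (.inl (.inl h))).re ∧
    (zs (.inl (.inl h))).re ≤ ((MQ.rz (clsW b j)).2 : ℝ) / 1000 := by
  have h1 := A.box hb hL
  rw [hc] at h1
  have h2 := rz_tab (clsW b j) (ssW b h)
  exact ⟨h2.1.trans h1.1, h1.2.1.trans h2.2⟩

theorem rz_pos (B : Cl) : (0 : ℝ) < ((MQ.rz B).1 : ℝ) / 1000 := by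
  cases B <;> simp only [MQ.rz] <;> norm_num

/-- **The data of the level push of a digit `1`.** -/
theorem Adj.rd (A : Adj h i p j) (A' : Adj h' i p.rev j') (hb : ClassW b) (hL : Loc b zs)
    (hX : LocX b zs) (hP : LocP b zs) (hS : LocS b zs) (hy : Mx b zs y) (hf : Flat b y)
    (h64 : ∀ {h : Fin M} {i j : Fin (M + 1)} {p : Fin 3}, Adj h i p j → clsW b i = .one →
      clsW b j = .one → y (.inl (.inl h)) ≤ 64 / 100)
    (hs : Sum1 b y (90 / 100)) (hc : clsW b i = .one) (h5 : y (.inl (.inl h)) ≤ 1 / 2) :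
    MQ.RD (clsW b j) (clsW b j') (y (.inl (.inl h))) (y (.inl (.inl h')))
      (zs (.inl (.inl h))).re (zs (.inl (.inl h'))).re (ofs (b i) (zs (.inl (.inl h))).im)
      (ofs (b i) (zs (.inl (.inl h'))).im) := by
  have r := A.rz_box hb hL hc
  have r' := A'.rz_box hb hL hc
  have w := hX.win A A' hc
  have w' := hX.win A' A.rr hc
  exact
    { bs :=
        { x0 := (wcl_pos h).trans_le (hf h).1
          x0' := (wcl_pos h').trans_le (hf h').1
          a0 := (rz_pos _).trans_le r.1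
          a0' := (rz_pos _).trans_le r'.1
          x5 := h5
          a5 := (hL.half h).le
          sx := hs A A' hc
          sa := hS.sum A A' hc }
      ok := okp_of hb A A' hc
      f := A.fz_le A' hb hX hP hy hf hc (h64 A' hc)
      f' := A'.fz_le A.rr hb hX hP hy hf hc (h64 A hc)
      c := A.cz_le hf hc (h64 A hc)
      c' := A'.cz_le hf hc (h64 A' hc)
      r0 := r.1
      r1 := r.2
      r0' := r'.1
      r1' := r'.2
      w0 := w.1
      w1 := w.2.1
      w2 := w.2.2.1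
      w3 := w'.1
      t11 := fun hj => hX.t11 hb A hc hj
      p1 := fun hj' => by
        obtain ⟨h'', l, A''⟩ := A'.symm.other_one hb hj'
        rw [Fin.rev_rev] at A''
        exact ⟨clsW b l, _, hP.pair A' A.rr A'' hc hj', fun hl => A'.symm.fe11 A''.rr hf hj' hc hl⟩
      p2 := fun hj => by
        obtain ⟨h'', l, A''⟩ := A.symm.other_one hb hj
        rw [Fin.rev_rev] at A''
        exact ⟨clsW b l, _, hP.pair A A' A'' hc hj⟩
      sz := fun h1 h2 => hS.sumZ A A' hc h1 h2 }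

/-- **Push of a digit `1`, hinge below `1/2`.** -/
theorem Adj.push1 (A : Adj h i p j) (hb : ClassW b) (hL : Loc b zs)
    (hX : LocX b zs) (hP : LocP b zs) (hS : LocS b zs) (hy : Mx b zs y) (hf : Flat b y)
    (h64 : ∀ {h : Fin M} {i j : Fin (M + 1)} {p : Fin 3}, Adj h i p j → clsW b i = .one →
      clsW b j = .one → y (.inl (.inl h)) ≤ 64 / 100)
    (hs : Sum1 b y (90 / 100)) (hc : clsW b i = .one) (h5 : y (.inl (.inl h)) ≤ 1 / 2) :
    Push' (tyW b) b i p p.rev (Xw b zs y i) (xx (tyW b) i zs) := by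
  obtain ⟨h', j', A'⟩ := A.other_one hb hc
  obtain ⟨up, dn⟩ := MQ.real_push (A.rd A' hb hL hX hP hS hy hf h64 hs hc h5)
  apply A.push_one hb hc
  rw [A.Yw_flat hy hf, A'.Yw_flat hy hf, A.Ys_lv, A'.Ys_lv]
  unfold PushV S1
  simp only [lv_re, lv_im, zero_mul, add_zero, one_mul]
  constructor
  · intro h1 h2
    linarith [up h1 h2]
  · intro h1 h2
    linarith [dn h1 h2]

end SR

end Pool.Agent.Work.MP_b30479_gtS.G2

end

section

/-!
# Push of the neighbours of a ring with slack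
-/

set_option deprecated.oldSectionVars true

namespace Pool.Agent.Work.MP_b30479_gtS.G2

open Real Set VOL NumIs NumIs.E

namespace MQ

/-! ### a digit `2` at an end, downwards -/

/-- one variable `u` -/
def eE (S α g : ℤ) : E :=
  sub (mul (sq (sinPi (var 0))) (cosPi (var 0)))
    (mul (el α g) (add (q S 100000) (sq (sinPi (var 0)))))

theorem eE_val (S α g : ℤ) (u : ℝ) : (eE S α g).val [u] =
    sin (π * u) ^ 2 * cos (π * u) - EL α g u * ((S : ℝ) / 100000 + sin (π * u) ^ 2) := by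
  simp only [eE, el, val, lkR_zero, EL]
  push_cast
  ring_nf

theorem rE : runT [[eE 13700 22 (-37741)]] (.x (.x (.x .a .a) .a) (.x .a .a))
    [V.of 1000 125 186 4] = true := by
  decide +kernel

theorem nE : okI 0 1150 (-1) 13700 = true := by decide +kernel

theorem nE' : (1 : ℝ) / 2 < 22 / 100 * ((gh (125 / 1000) + gh (164 / 1000)) / 2 + 37741 / 10000) := by
  have h := chk0 (e := sub (mul (q 22 100) (add (mul (q 1 2) (add (ghF 1250) (ghF 1640)))
    (q 37741 10000))) (q 1 2)) (by decide +kernel)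
  simp only [val, ghF_val] at h
  push_cast at h
  have e1 : (1250 : ℝ) / 10000 = 125 / 1000 := by norm_num
  have e2 : (1640 : ℝ) / 10000 = 164 / 1000 := by norm_num
  rw [e1, e2] at h
  linarith only [h]

/-- **A digit `2` at an end next to a ring, downwards.** -/
theorem slackE {a x t : ℝ} (a0 : 164 / 1000 ≤ a) (a1 : a ≤ 186 / 1000) (hx : 125 / 1000 ≤ x)
    (hlt : x < a) (t0 : 0 ≤ t) (t1 : t ≤ 115 / 1000) :
    1 / 2 * (gh a - gh x) < LL (lv a t) - LL (lv x t) := by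
  have hpi := pi_pos
  have A : a ∈ Ioo (0 : ℝ) 1 := ⟨by linarith only [hx, hlt], by linarith only [a1, hx, hlt]⟩
  have X : x ∈ Ioo (0 : ℝ) 1 := ⟨by linarith only [hx], by linarith only [a1, hlt]⟩
  have hm : 0 < gh a - gh x := by linarith only [X, A, hlt, (gh_lt X A).2 hlt]
  have hS := (okI_spec nE (τ := t) (by push_cast; linarith only [t0]) (by push_cast; linarith only [t1])).2
  set F : ℝ → ℝ := fun θ => LL (lv (gc x a θ) t) - (gh a - gh x) *
    (22 / 100 * ((gh x + 37741 / 10000) * θ + (gh a - gh x) * (θ ^ 2 / 2))) with hF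
  have hder : ∀ θ ∈ Icc (0 : ℝ) 1, HasDerivAt F
      (CC (lv (gc x a θ) t) * ((gh a - gh x) * (sin (π * gc x a θ) / π)) - (gh a - gh x) *
        (22 / 100 * ((gh x + 37741 / 10000) + (gh a - gh x) * θ))) θ := by
    intro θ hθ
    have m1 := gc_mem x a θ
    have h1 := hasDerivAt_gc x a θ
    have h3 := (hasDerivAt_LL_lv (t := t) m1.1 m1.2).comp θ h1
    have h5 : HasDerivAt (fun θ : ℝ => (gh a - gh x) *
        (22 / 100 * ((gh x + 37741 / 10000) * θ + (gh a - gh x) * (θ ^ 2 / 2))))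
        ((gh a - gh x) * (22 / 100 * ((gh x + 37741 / 10000) + (gh a - gh x) * θ))) θ := by
      have e1 := ((hasDerivAt_id' θ).const_mul (gh x + 37741 / 10000)).add
        ((((hasDerivAt_id' θ).pow 2).div_const 2).const_mul (gh a - gh x))
      refine ((e1.const_mul (22 / 100)).const_mul (gh a - gh x)).congr_deriv ?_
      simp
    exact h3.sub h5
  have hpos : ∀ θ ∈ Icc (0 : ℝ) 1, 0 < CC (lv (gc x a θ) t) * ((gh a - gh x) *
      (sin (π * gc x a θ) / π)) - (gh a - gh x) *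
        (22 / 100 * ((gh x + 37741 / 10000) + (gh a - gh x) * θ)) := by
    intro θ hθ
    have m1 := gc_mem x a θ
    obtain ⟨b0, b1⟩ := gc_mem_Icc X A hlt.le hθ.1 hθ.2
    have e0 : (gh x + 37741 / 10000) + (gh a - gh x) * θ = gh (gc x a θ) + 37741 / 10000 := by
      rw [gh_gc]
      ring
    rw [e0]
    set u := gc x a θ
    have hu : 0 < u := m1.1
    have s1 := sin_pi_pos m1.1 m1.2
    obtain ⟨c, hc, hp⟩ := runT_sound rE (xs := [u]) (List.Forall₂.cons
      (V.of_mem (by norm_num) (by push_cast; linarith only [hx, b0]) (by push_cast; linarith only [a1, b1])) List.Forall₂.nil)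
    simp only [List.mem_cons, List.not_mem_nil, or_false] at hc
    subst hc
    have h1 := hp _ List.mem_cons_self
    rw [eE_val, EL_gh] at h1
    push_cast at h1 hS
    rw [CC_eq, lv_re, lv_im]
    have hD : 0 < sinh (π * t) ^ 2 + sin (π * u) ^ 2 := by positivity
    have e1 : π * (sin (π * u) * cos (π * u) / (sinh (π * t) ^ 2 + sin (π * u) ^ 2)) *
        ((gh a - gh x) * (sin (π * u) / π)) =
        (gh a - gh x) * (sin (π * u) ^ 2 * cos (π * u) / (sinh (π * t) ^ 2 + sin (π * u) ^ 2)) := by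
      field_simp
    rw [e1, ← mul_sub]
    apply mul_pos hm
    rw [sub_pos, lt_div_iff₀ hD]
    have hl : 0 ≤ 22 / 100 * (gh u + 37741 / 10000) := by
      have g1 : gh (125 / 1000) ≤ gh u := gh_le ⟨by norm_num, by norm_num⟩ m1 (hx.trans b0)
      have g2 := chk0 (e := add (ghF 1250) (q 2 1)) (by decide +kernel)
      simp only [val, ghF_val] at g2
      push_cast at g2
      have e2 : (1250 : ℝ) / 10000 = 125 / 1000 := by norm_num
      rw [e2] at g2
      linarith only [g1, g2]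
    have h2 := mul_le_mul_of_nonneg_left hS hl
    linarith only [h1, h2]
  have hmono : F 0 < F 1 := by
    have hc : ContinuousOn F (Icc 0 1) := fun θ hθ => (hder θ hθ).continuousAt.continuousWithinAt
    have := strictMonoOn_of_deriv_pos (convex_Icc (0 : ℝ) 1) hc (by
      intro θ hθ
      rw [interior_Icc] at hθ
      rw [(hder θ ⟨hθ.1.le, hθ.2.le⟩).deriv]
      exact hpos θ ⟨hθ.1.le, hθ.2.le⟩)
    exact this ⟨le_rfl, zero_le_one⟩ ⟨zero_le_one, le_rfl⟩ zero_lt_one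
  simp only [hF, gc_one A, gc_zero X] at hmono
  have n := nE'
  have gx : gh (125 / 1000) ≤ gh x := gh_le ⟨by norm_num, by norm_num⟩ X hx
  have ga : gh (164 / 1000) ≤ gh a := gh_le ⟨by norm_num, by norm_num⟩ A a0
  have h2 : 1 / 2 * (gh a - gh x) < (22 / 100 * ((gh x + gh a) / 2 + 37741 / 10000)) *
      (gh a - gh x) := mul_lt_mul_of_pos_right (by linarith only [n, gx, ga]) hm
  nlinarith only [hmono, h2]

end MQ

open Finset VOL Filter Topology

namespace SR

open ML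

set_option deprecated.oldSectionVars false
variable {M : ℕ} {b : Fin (M + 1) → ℤ} {zs : DD (tyW b) ⊕ ZZ (tyW b) → ℂ}
set_option deprecated.oldSectionVars false
variable {y : DD (tyW b) ⊕ ZZ (tyW b) → ℝ}
set_option deprecated.oldSectionVars false
variable {h h' h'' : Fin M} {i j j' l : Fin (M + 1)} {p : Fin 3}

/-- the push with slacks in terms of the own frame -/
theorem Adj.pushQ_iff (_ : Adj h i p j) {f g : ℝ → ℝ} :
    PushQ (tyW b) b i p p.rev (Xw b zs y i) (xx (tyW b) i zs) f g ↔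
    (((Ys b zs i p).re < (Yw b zs y i p).re →
      |gh (Yw b zs y i p.rev).re - gh (Ys b zs i p.rev).re| ≤
        gh (Yw b zs y i p).re - gh (Ys b zs i p).re →
      rside (tyW b) b i p 0 (Xw b zs y i) < rside (tyW b) b i p 0 (xx (tyW b) i zs) +
        f (gh (Yw b zs y i p).re - gh (Ys b zs i p).re)) ∧
    ((Yw b zs y i p).re < (Ys b zs i p).re →
      |gh (Yw b zs y i p.rev).re - gh (Ys b zs i p.rev).re| ≤
        gh (Ys b zs i p).re - gh (Yw b zs y i p).re →
      rside (tyW b) b i p 0 (xx (tyW b) i zs) < rside (tyW b) b i p 0 (Xw b zs y i) +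
        g (gh (Ys b zs i p).re - gh (Yw b zs y i p).re))) := by
  unfold PushQ Yw Ys
  simp only [ofr_re]

/-- **Push of a digit `1` between a ring and a `2`, with slack `c` upwards.** -/
theorem Adj.pushQ_one (A : Adj h i p j) (A' : Adj h' i p.rev j') (hb : ClassW b) (hL : Loc b zs)
    (hX : LocX b zs) (hP : LocP b zs) (hS : LocS b zs) (hy : Mx b zs y) (hf : Flat b y)
    (h64 : ∀ {h : Fin M} {i j : Fin (M + 1)} {p : Fin 3}, Adj h i p j → clsW b i = .one →
      clsW b j = .one → y (.inl (.inl h)) ≤ 64 / 100)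
    (hs : Sum1 b y (90 / 100)) (hc : clsW b i = .one) (hj : clsW b j = .ring)
    (hj' : clsW b j' = .two) (h5 : y (.inl (.inl h)) ≤ 36 / 100)
    (r0 : 2563 / 10000 ≤ (zs (.inl (.inl h))).re) {c : ℝ}
    (hT : (c = 38 / 100 ∧ ofs (b i) (zs (.inl (.inl h))).im ≤ 128 / 1000) ∨
      (c = 355 / 1000 ∧ ofs (b i) (zs (.inl (.inl h))).im ≤ 138 / 1000)) :
    PushQ (tyW b) b i p p.rev (Xw b zs y i) (xx (tyW b) i zs) (fun m => -(c * m)) (fun _ => 0) := by
  have hpush := A.push1 hb hL hX hP hS hy hf h64 hs hc (by linarith only [h5])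
  rw [A.push_iff] at hpush
  rw [A.pushQ_iff]
  refine ⟨fun h1 h2 => ?_, fun h1 h2 => ?_⟩
  · rw [A.rs_one _ _ hb hc, A.rs_one _ _ hb hc, ofs_zero']
    change S1 1 0 (Yw b zs y i p) (Yw b zs y i p.rev) <
      S1 1 0 (Ys b zs i p) (Ys b zs i p.rev) + _
    have w := hX.win A A' hc
    rw [hj, hj'] at w
    simp only [cw] at w
    obtain ⟨w1, w2, w3, w4⟩ := w
    have r := A.rz_box hb hL hc
    have r' := A'.rz_box hb hL hc
    rw [hj] at r
    rw [hj'] at r'
    simp only [MQ.rz] at r r'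
    push_cast at r r'
    have hx' := (wcl_pos h').trans_le (hf h').1
    have hss := hs A A' hc
    simp only [A.Yw_flat hy hf, A'.Yw_flat hy hf, A.Ys_lv, A'.Ys_lv, lv_re] at h1 h2 ⊢
    unfold S1
    simp only [lv_re, lv_im, zero_mul, add_zero, one_mul]
    rcases hT with ⟨e, hT⟩ | ⟨e, hT⟩
    · have := MQ.slack_38 (t := ofs (b i) (zs (.inl (.inl h))).im)
        (t' := ofs (b i) (zs (.inl (.inl h'))).im) r0 (by linarith only [h5, r, h1]) (by linarith only [r']) (by linarith only [r'])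
        (by linarith only [h5]) hx' (by linarith only [h5, r0, hss, h1]) h1 h2 (by linarith only [w1]) hT (by linarith only [w3]) (by linarith only [w4])
      rw [e]
      linarith only [this]
    · have := MQ.slack_355 (t := ofs (b i) (zs (.inl (.inl h))).im)
        (t' := ofs (b i) (zs (.inl (.inl h'))).im) r0 (by linarith only [h5, r, h1]) (by linarith only [r']) (by linarith only [r'])
        (by linarith only [h5]) hx' (by linarith only [h5, r0, hss, h1]) h1 h2 (by linarith only [w1]) hT (by linarith only [w3]) (by linarith only [w4])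
      rw [e]
      linarith only [this]
  · simpa using hpush.2 h1 h2

/-- **Push of a digit `2` at an end next to a `4`, with slack `1 / 2` downwards.** -/
theorem Adj.pushQ_twoE (A : Adj h i p j) (hb : ClassW b) (hL : Loc b zs) (hX : LocX b zs)
    (hy : Mx b zs y) (hf : Flat b y) (hc : clsW b i = .twoE) (hj : clsW b j = .ring)
    (h4 : (b j).natAbs = 4) (h5 : y (.inl (.inl h)) ≤ 1 / 2) :
    PushQ (tyW b) b i p p.rev (Xw b zs y i) (xx (tyW b) i zs) (fun _ => 0)
      (fun m => -(1 / 2 * m)) := by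
  have hpush := A.push2E hb hL hy hf hc h5
  rw [A.push_iff] at hpush
  rw [A.pushQ_iff]
  have he := clsW_end (Or.inl hc)
  have h0 : Yw b zs y i p.rev = 0 := by
    rcases A.other b zs y with ⟨-, h0⟩ | ⟨he', -⟩
    · exact h0
    · rw [he] at he'
      exact absurd he' (by decide)
  have h0' : Ys b zs i p.rev = 0 := A.Ys_other he
  refine ⟨fun h1 h2 => ?_, fun h1 h2 => ?_⟩
  · simpa using hpush.1 h1 h2
  · rw [A.rs_two _ _ hb (Or.inr hc), A.rs_two _ _ hb (Or.inr hc), ofs_zero']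
    change S2 1 0 (Ys b zs i p) (Ys b zs i p.rev) <
      S2 1 0 (Yw b zs y i p) (Yw b zs y i p.rev) + _
    have hT := hX.lo4 A (by rw [hc]; decide) (by rw [hc]; decide) hj h4
    have hop := A.opp hb (Or.inl (by rw [hc]; decide))
    have hB := A.box hb hL
    rw [hc, hj, A.ss hop] at hB
    simp only [hbox] at hB
    have hcl : (125 : ℝ) / 1000 ≤ y (.inl (.inl h)) := by
      have h6 := (hf h).1
      rw [A.cl_eq b, hc, hj] at h6
      unfold hpp at h6
      split_ifs at h6 <;> simp only [hp] at h6 <;> exact h6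
    simp only [h0, h0', A.Yw_flat hy hf, A.Ys_lv, lv_re] at h1 h2 ⊢
    unfold S2
    simp only [lv_re, lv_im, zero_mul, add_zero, one_mul, Complex.zero_im]
    have := MQ.slackE (t := ofs (b i) (zs (.inl (.inl h))).im) hB.1 hB.2.1 hcl h1
      (by linarith only [hB, hB.2.2.1]) hT
    linarith only [this]

end SR

end Pool.Agent.Work.MP_b30479_gtS.G2

end

section

/-!
# Interior regions with three crossings in a word: location on the flat parts, push-back
-/

namespace Pool.Agent.Work.MP_b30479_gtS.G2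

open Finset VOL Filter Topology

theorem MM_pos_of_sinNe {u : ℂ} (h : SinNe u) : 0 < NumIs.MM u.re u.im := by
  have h0 : 0 ≤ NumIs.MM u.re u.im := by
    unfold NumIs.MM
    positivity
  rcases h0.lt_or_eq with h1 | h1
  · exact h1
  · exfalso
    unfold NumIs.MM at h1
    have h2 : Real.sin (Real.pi * u.re) = 0 := by
      nlinarith only [h1, sq_nonneg (Real.sin (Real.pi * u.re)), sq_nonneg (Real.sinh (Real.pi * u.im))]
    have h3 : Real.sinh (Real.pi * u.im) = 0 := by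
      nlinarith only [h1, sq_nonneg (Real.sin (Real.pi * u.re)), sq_nonneg (Real.sinh (Real.pi * u.im))]
    apply h
    rw [Complex.sin_eq]
    have e1 : ((Real.pi : ℂ) * u).re = Real.pi * u.re := by simp
    have e2 : ((Real.pi : ℂ) * u).im = Real.pi * u.im := by simp
    rw [e1, e2, ← Complex.ofReal_sin, ← Complex.ofReal_sinh, h2, h3]
    simp

theorem sinNe_ofr (c : ℤ) {u : ℂ} (h : SinNe u) : SinNe (ofr c u) := by
  unfold ofr
  split_ifs
  · exact h
  · unfold SinNe at h ⊢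
    intro h1
    apply h
    have h2 : (starRingEnd ℂ) (Complex.sin ((Real.pi : ℂ) * u)) = 0 := by
      rw [← Complex.sin_conj, map_mul, Complex.conj_ofReal]
      exact h1
    simpa using h2

theorem ofr_add (c : ℤ) (u v : ℂ) : ofr c (u + v) = ofr c u + ofr c v := by
  unfold ofr
  split_ifs
  · rfl
  · exact map_add _ _ _

theorem ofr_sub (c : ℤ) (u v : ℂ) : ofr c (u - v) = ofr c u - ofr c v := by
  unfold ofr
  split_ifs
  · rfl
  · exact map_sub _ _ _

namespace SR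

variable {M : ℕ} {b : Fin (M + 1) → ℤ} {zs : DD (tyW b) ⊕ ZZ (tyW b) → ℂ}
variable {y : DD (tyW b) ⊕ ZZ (tyW b) → ℝ}
variable {h h' : Fin M} {i j j' k : Fin (M + 1)} {p : Fin 3}

/-- the inner variable of an interior region with three crossings -/
def mI (b : Fin (M + 1) → ℤ) (hc : clsW b i = .three) :
    {i : Fin (M + 1) // (tyW b i).isMid = true} := ⟨i, tyW_isMid (Or.inl hc)⟩

/-- its height in the own frame -/
noncomputable def hI (zs : DD (tyW b) ⊕ ZZ (tyW b) → ℂ) (hc : clsW b i = .three) : ℝ :=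
  ofs (b i) (zs (.inl (.inr (mI b hc)))).im

theorem pp_mI (hc : clsW b i = .three) :
    (wpar b zs).XM (.inr (mI b hc)) = 8 / 10 ∧ (wpar b zs).cl (.inr (mI b hc)) = 5 / 100 ∧
      (wpar b zs).cr (.inr (mI b hc)) = 5 / 100 := by
  refine ⟨?_, ?_, ?_⟩ <;> simp [wpar, par1, mp, mI, hc]

/-- no factor of the inner variable of a maximiser vanishes -/
theorem reg_three (hc : clsW b i = .three)
    (hy : IsMx (wdat (tyW b) b) (wpar b zs) zs y) (hpos : ∀ h : Fin M, 0 < y (.inl (.inl h)))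
    (hm : 0 < y (.inl (.inr (mI b hc)))) :
    SinNe (Yw b zs y i 1 + Yw b zs y i 2) ∧ SinNe (Yw b zs y i 1 - Yw b zs y i 0) := by
  have h1 := hy.facCo_mid (std_wpar b zs) hpos (mI b hc) hm
  have ht := tyW_of_three hc
  simp only [mI] at h1
  rw [ht] at h1
  have h2 := h1 ⟨![0, 1, 1], 0, 1 / 2⟩ (by
    generalize decide (i ≠ 0) = l
    generalize decide (i ≠ Fin.last M) = r
    cases l <;> cases r <;> simp [facs, hR]) (by simp)
  have h3 := h1 ⟨![1, -1, 0], 1, -(1 / 2)⟩ (by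
    generalize decide (i ≠ 0) = l
    generalize decide (i ≠ Fin.last M) = r
    cases l <;> cases r <;> simp [facs, hR]) (by simp)
  have v2 : ∀ w u : ℂ, 1 + (w + -u) = 1 - (u - w) := fun w u => by ring
  simp [Fac.form_mk] at h2 h3
  rw [v2] at h3
  have h4 := h2.2
  have h5 := sinNe_one_sub.1 h3.2
  unfold Yw
  rw [← ofr_add, ← ofr_sub]
  exact ⟨sinNe_ofr _ h4, sinNe_ofr _ h5⟩

/-! ### heights and windows -/

theorem win_u (A K : Cl) (s : Bool) :
    ((M3.prm A K).tul : ℝ) / 10000 ≤ (hbox .three K s).t0 ∧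
    (hbox .three K s).t1 ≤ ((M3.prm A K).tuh : ℝ) / 10000 ∧
    ((M3.prm A K).ul : ℝ) / 10000 ≤ (hbox .three K s).x0 ∧
    (hbox .three K s).x1 ≤ ((M3.prm A K).uh : ℝ) / 10000 := by
  cases A <;> cases K <;> norm_num [hbox, M3.prm, M3.p11, M3.p1E, M3.p1N, M3.p1Z, M3.pE1, M3.pEE,
    M3.pEN, M3.pEZ, M3.pN1, M3.pNE, M3.pNN, M3.pNZ, M3.pD1, M3.pDE, M3.pDN, M3.pDZ]

theorem win_v (A K : Cl) (s : Bool) :
    ((M3.prm A K).tvl : ℝ) / 10000 ≤ (hbox .three A s).t0 ∧
    (hbox .three A s).t1 ≤ ((M3.prm A K).tvh : ℝ) / 10000 ∧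
    ((M3.prm A K).vl : ℝ) / 10000 ≤ (hbox .three A s).x0 ∧
    (hbox .three A s).x1 ≤ ((M3.prm A K).vh : ℝ) / 10000 := by
  cases A <;> cases K <;> norm_num [hbox, M3.prm, M3.p11, M3.p1E, M3.p1N, M3.p1Z, M3.pE1, M3.pEE,
    M3.pEN, M3.pEZ, M3.pN1, M3.pNE, M3.pNN, M3.pNZ, M3.pD1, M3.pDE, M3.pDN, M3.pDZ]

theorem win_m (A K : Cl) :
    ((M3.prm A K).tml : ℝ) / 10000 ≤ (mw A K).t0 ∧ (mw A K).t1 ≤ ((M3.prm A K).tmh : ℝ) / 10000 ∧
    ((M3.prm A K).tcl : ℝ) / 10000 ≤ (mw A K).s0 ∧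
    (mw A K).s1 ≤ ((M3.prm A K).tch : ℝ) / 10000 := by
  cases A <;> cases K <;> norm_num [mw, M3.prm, M3.p11, M3.p1E, M3.p1N, M3.p1Z, M3.pE1, M3.pEE,
    M3.pEN, M3.pEZ, M3.pN1, M3.pNE, M3.pNN, M3.pNZ, M3.pD1, M3.pDE, M3.pDN, M3.pDZ]

/-- the heights -/
theorem hts3 (hb : ClassW b) (hL : Loc b zs) (hX : LocX b zs) (A : Adj h i 0 j)
    (A' : Adj h' i 2 k) (hc : clsW b i = .three) :
    M3.Hts (M3.prm (clsW b j) (clsW b k)) (ofs (b i) (zs (.inl (.inl h'))).im)
      (ofs (b i) (zs (.inl (.inl h))).im) (hI zs hc) := by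
  have h1 := A.box hb hL
  have h2 := A'.box hb hL
  have h3 := hX.mid (tyW_isMid (Or.inl hc)) A A' hc
  rw [hc] at h1 h2
  have w1 := win_v (clsW b j) (clsW b k) (ssW b h)
  have w2 := win_u (clsW b j) (clsW b k) (ssW b h')
  have w3 := win_m (clsW b j) (clsW b k)
  unfold hI mI
  exact ⟨w2.1.trans h2.2.2.1, h2.2.2.2.trans w2.2.1, w1.1.trans h1.2.2.1,
    h1.2.2.2.trans w1.2.1, w3.1.trans h3.1, h3.2.1.trans w3.2.1, w3.2.2.1.trans h3.2.2.1,
    h3.2.2.2.trans w3.2.2.2⟩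

/-! ### located points -/

/-- a located point: `u`: slot 2, `v`: slot 0, `m`: inner variable -/
structure PtI (A K : Cl) (tu tv tm u v m : ℝ) : Prop where
  hu : u ∈ Set.Icc (((M3.prm A K).ul : ℝ) / 10000) (((M3.prm A K).uh : ℝ) / 10000)
  hv : v ∈ Set.Icc (((M3.prm A K).vl : ℝ) / 10000) (((M3.prm A K).vh : ℝ) / 10000)
  hm : m ∈ Set.Icc (M3.mL (M3.prm A K) v) (M3.mU (M3.prm A K) u v)
  hz : M3.Phi tu tv tm u v m = 0

theorem Phi_SM {tu tv tm u v m : ℝ} : M3.Phi tu tv tm u v m = SM 0 (lv v tv) (lv m tm) (lv u tu) := by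
  unfold M3.Phi SM
  have e1 : M3.cx (u + m) (tu + tm) = lv m tm + lv u tu := by
    rw [lv_add, add_comm u m, add_comm tu tm]
    rfl
  have e2 : M3.cx (m - v) (tm - tv) = lv m tm - lv v tv := by
    apply Complex.ext <;> simp
  have e3 : M3.cx m tm = lv m tm := rfl
  rw [e1, e2, e3]
  simp only [lv_im, zero_mul, add_zero]
  ring

theorem S2_DU {tu tm u m : ℝ} : S2 1 0 (lv u tu) (lv m tm) = Real.pi * (tm - tu) + M3.DU tu tm u m := by
  unfold S2 M3.DU
  have e1 : M3.cx (u + m) (tu + tm) = lv u tu + lv m tm := by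
    rw [lv_add]
    rfl
  have e3 : M3.cx u tu = lv u tu := rfl
  rw [e1, e3]
  simp only [lv_im, zero_mul, add_zero]
  ring

theorem S3_DV {tv tm v m : ℝ} : S3 1 0 (lv v tv) (lv m tm) = -(Real.pi * tm) + M3.DV tv tm v m := by
  unfold S3 M3.DV
  have e2 : M3.cx (m - v) (tm - tv) = lv m tm - lv v tv := by
    apply Complex.ext <;> simp
  have e3 : M3.cx v tv = lv v tv := rfl
  rw [e2, e3]
  simp only [lv_im, zero_mul, add_zero]
  ring

/-- the saddle point -/
theorem saddle3 (hb : ClassW b) (hL : Loc b zs) (hX : LocX b zs) (hC : Crit b zs)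
    (A : Adj h i 0 j) (A' : Adj h' i 2 k) (hc : clsW b i = .three) :
    Ys b zs i 1 = lv (zs (.inl (.inr (mI b hc)))).re (hI zs hc) ∧
    PtI (clsW b j) (clsW b k) (ofs (b i) (zs (.inl (.inl h'))).im)
      (ofs (b i) (zs (.inl (.inl h))).im) (hI zs hc) (zs (.inl (.inl h'))).re
      (zs (.inl (.inl h))).re (zs (.inl (.inr (mI b hc)))).re := by
  have h1 := A.box hb hL
  have h2 := A'.box hb hL
  rw [hc] at h1 h2
  have w1 := win_v (clsW b j) (clsW b k) (ssW b h)
  have w2 := win_u (clsW b j) (clsW b k) (ssW b h')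
  have e1 : Ys b zs i 1 = ofr (b i) (zs (.inl (.inr (mI b hc)))) := by
    unfold Ys
    rw [xx_mid (tyW b) (tyW_isMid (Or.inl hc))]
    rfl
  have e2 : Ys b zs i 1 = lv (zs (.inl (.inr (mI b hc)))).re (hI zs hc) := by
    rw [e1]
    apply Complex.ext
    · rw [ofr_re, lv_re]
    · rw [ofr_im, lv_im]
      rfl
  refine ⟨e2, ?_⟩
  have hm : (mbox (clsW b j)).In (ofr (b i) (zs (.inl (.inr (mI b hc))))) := by
    cases A
    exact hL.mid (mI b hc) (clsW_inner hb (Or.inr (Or.inr hc))) h rfl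
  unfold Box.In mbox at hm
  simp only [ofr_re] at hm
  have hz := hC.three hb hc 0
  rw [A.Ys_lv, A'.Ys_lv, e2, ← Phi_SM] at hz
  have hu : (zs (.inl (.inl h'))).re ∈ Set.Icc (((M3.prm (clsW b j) (clsW b k)).ul : ℝ) / 10000)
      (((M3.prm (clsW b j) (clsW b k)).uh : ℝ) / 10000) :=
    ⟨w2.2.2.1.trans h2.1, h2.2.1.trans w2.2.2.2⟩
  have hv : (zs (.inl (.inl h))).re ∈ Set.Icc (((M3.prm (clsW b j) (clsW b k)).vl : ℝ) / 10000)
      (((M3.prm (clsW b j) (clsW b k)).vh : ℝ) / 10000) :=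
    ⟨w1.2.2.1.trans h1.1, h1.2.1.trans w1.2.2.2⟩
  have hx1 : (hbox .three (clsW b j) (ssW b h)).x1 ≤ 314 / 1000 := by
    cases clsW b j <;> simp only [hbox] <;> norm_num
  have hx2 : (hbox .three (clsW b k) (ssW b h')).x1 ≤ 314 / 1000 ∧
      0 < (hbox .three (clsW b k) (ssW b h')).x0 := by
    cases clsW b k <;> simp only [hbox] <;> norm_num
  refine ⟨hu, hv, ?_, hz⟩
  exact M3.zero_mem_all _ _ (hts3 hb hL hX A A' hc) hu.1 hu.2 hv.1 hv.2 (by linarith only [hc, h2, hm, hx2, hm.1])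
    (by linarith only [hc, h2, hm, hx2, hm.2.1]) (M3.MM_pos' (by linarith only [hc, h1, h2, hm, hx1, hx2, hm.1, h1.2.1]) (by
      have := h1.1
      have : 0 < (hbox .three (clsW b j) (ssW b h)).x0 := by
        cases clsW b j <;> simp only [hbox] <;> norm_num
      linarith only [hc, h1, h2, hm, hx2, this, hm.2.1]))
    (M3.MM_pos' (by linarith only [hc, h2, hm, hx2, hm.1, h2.1]) (by linarith only [hc, h2, hm, hx2, hm.2.1, h2.2.1])) hz

/-- the maximiser on the flat parts -/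
theorem max3 (hb : ClassW b) (hL : Loc b zs) (hX : LocX b zs)
    (hy : IsMx (wdat (tyW b) b) (wpar b zs) zs y) (hpos : ∀ h : Fin M, 0 < y (.inl (.inl h)))
    (hf : Flat b y) (A : Adj h i 0 j) (A' : Adj h' i 2 k) (hc : clsW b i = .three)
    (hu : y (.inl (.inl h')) ∈ Set.Icc (((M3.prm (clsW b j) (clsW b k)).ul : ℝ) / 10000)
      (((M3.prm (clsW b j) (clsW b k)).uh : ℝ) / 10000))
    (hv : y (.inl (.inl h)) ∈ Set.Icc (((M3.prm (clsW b j) (clsW b k)).vl : ℝ) / 10000)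
      (((M3.prm (clsW b j) (clsW b k)).vh : ℝ) / 10000))
    (hm0 : 5 / 100 < y (.inl (.inr (mI b hc)))) (hm1 : y (.inl (.inr (mI b hc))) < 3 / 4) :
    Yw b zs y i 1 = lv (y (.inl (.inr (mI b hc)))) (hI zs hc) ∧
    PtI (clsW b j) (clsW b k) (ofs (b i) (zs (.inl (.inl h'))).im)
      (ofs (b i) (zs (.inl (.inl h))).im) (hI zs hc) (y (.inl (.inl h')))
      (y (.inl (.inl h))) (y (.inl (.inr (mI b hc)))) := by
  obtain ⟨p1, p2, p3⟩ := pp_mI (zs := zs) hc
  have hR := mid_RH hy (mI b hc)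
  have hF := mid_fc hb hy hpos (mI b hc) (by linarith only [hc, hm0])
  rw [p1, p2, p3] at hR hF
  have hre : (Yw b zs y (mI b hc).1 1).re = y (.inl (.inr (mI b hc))) := by
    rw [Yw_mid (zs := zs) (y := y) (mI b hc), ofr_pp_re]
  have e1 : Yw b zs y i 1 = lv (y (.inl (.inr (mI b hc)))) (hI zs hc) := by
    show Yw b zs y (mI b hc).1 1 = _
    apply Complex.ext
    · rw [hre, lv_re]
    · rw [hR.im, hre, tr_b (by norm_num) (by norm_num) (by linarith only [hc, hm0]) (by linarith only [hc, hm1]), mul_one, lv_im]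
      rfl
  have hz : M3.Phi (ofs (b i) (zs (.inl (.inl h'))).im) (ofs (b i) (zs (.inl (.inl h))).im)
      (hI zs hc) (y (.inl (.inl h'))) (y (.inl (.inl h))) (y (.inl (.inr (mI b hc)))) = 0 := by
    rw [Phi_SM, ← A.Yw_flat hy hf, ← A'.Yw_flat hy hf, ← e1, ← OM_three hc]
    exact le_antisymm (hF.flat (by rw [hre]; linarith only [hc, hm0]) (by rw [hre]; linarith only [hc, hm1]))
      (hF.flat' (by rw [hre]; linarith only [hc, hm0]) (by rw [hre]; linarith only [hc, hm1]))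
  refine ⟨e1, hu, hv, ?_, hz⟩
  obtain ⟨r1, r2⟩ := reg_three hc hy hpos (by linarith only [hc, hm0])
  have r1 := MM_pos_of_sinNe r1
  have r2 := MM_pos_of_sinNe r2
  rw [e1, A'.Yw_flat hy hf, lv_add, lv_re, lv_im, add_comm] at r1
  rw [add_comm (hI zs hc)] at r1
  rw [e1, A.Yw_flat hy hf, Complex.sub_re, Complex.sub_im, lv_re, lv_im, lv_re, lv_im] at r2
  exact M3.zero_mem_all _ _ (hts3 hb hL hX A A' hc) hu.1 hu.2 hv.1 hv.2 hm0.le
    (by linarith only [hc, hm1]) r2 r1 hz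

/-- **Push-back of an interior region with three crossings, slot 2.** -/
theorem push3_two (hb : ClassW b) (hL : Loc b zs) (hX : LocX b zs) (hC : Crit b zs)
    (hy : IsMx (wdat (tyW b) b) (wpar b zs) zs y) (hpos : ∀ h : Fin M, 0 < y (.inl (.inl h)))
    (hf : Flat b y) (A : Adj h i 0 j) (A' : Adj h' i 2 k) (hc : clsW b i = .three)
    (hu : y (.inl (.inl h')) ∈ Set.Icc (((M3.prm (clsW b j) (clsW b k)).ul : ℝ) / 10000)
      (((M3.prm (clsW b j) (clsW b k)).uh : ℝ) / 10000))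
    (hv : y (.inl (.inl h)) ∈ Set.Icc (((M3.prm (clsW b j) (clsW b k)).vl : ℝ) / 10000)
      (((M3.prm (clsW b j) (clsW b k)).vh : ℝ) / 10000))
    (hm0 : 5 / 100 < y (.inl (.inr (mI b hc)))) (hm1 : y (.inl (.inr (mI b hc))) < 3 / 4) :
    Push' (tyW b) b i 2 0 (Xw b zs y i) (xx (tyW b) i zs) := by
  apply A'.push_three_two hb hc
  obtain ⟨e1, P1⟩ := max3 hb hL hX hy hpos hf A A' hc hu hv hm0 hm1
  obtain ⟨e2, P2⟩ := saddle3 hb hL hX hC A A' hc
  have L := (M3.good (clsW b j) (clsW b k)).lvl (hts3 hb hL hX A A' hc)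
  rw [e1, e2, A.Yw_flat hy hf, A'.Yw_flat hy hf, A.Ys_lv, A'.Ys_lv, S2_DU, S2_DU]
  unfold PushV
  simp only [lv_re]
  constructor
  · intro hlt hg
    have := L.DU_lt P2.hu P2.hv P1.hu P1.hv P2.hm P2.hz P1.hm P1.hz
      (strictMonoOn_gh (L.hu P2.hu) (L.hu P1.hu) hlt) hg
    linarith only [hc, this]
  · intro hlt hg
    have := L.DU_lt P1.hu P1.hv P2.hu P2.hv P1.hm P1.hz P2.hm P2.hz
      (strictMonoOn_gh (L.hu P1.hu) (L.hu P2.hu) hlt) (by rwa [abs_sub_comm])
    linarith only [hc, this]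

/-- **Push-back of an interior region with three crossings, slot 0.** -/
theorem push3_zero (hb : ClassW b) (hL : Loc b zs) (hX : LocX b zs) (hC : Crit b zs)
    (hy : IsMx (wdat (tyW b) b) (wpar b zs) zs y) (hpos : ∀ h : Fin M, 0 < y (.inl (.inl h)))
    (hf : Flat b y) (A : Adj h i 0 j) (A' : Adj h' i 2 k) (hc : clsW b i = .three)
    (hu : y (.inl (.inl h')) ∈ Set.Icc (((M3.prm (clsW b j) (clsW b k)).ul : ℝ) / 10000)
      (((M3.prm (clsW b j) (clsW b k)).uh : ℝ) / 10000))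
    (hv : y (.inl (.inl h)) ∈ Set.Icc (((M3.prm (clsW b j) (clsW b k)).vl : ℝ) / 10000)
      (((M3.prm (clsW b j) (clsW b k)).vh : ℝ) / 10000))
    (hm0 : 5 / 100 < y (.inl (.inr (mI b hc)))) (hm1 : y (.inl (.inr (mI b hc))) < 3 / 4) :
    Push' (tyW b) b i 0 2 (Xw b zs y i) (xx (tyW b) i zs) := by
  apply A.push_three_zero hb hc
  obtain ⟨e1, P1⟩ := max3 hb hL hX hy hpos hf A A' hc hu hv hm0 hm1
  obtain ⟨e2, P2⟩ := saddle3 hb hL hX hC A A' hc
  have L := (M3.good (clsW b j) (clsW b k)).lvl (hts3 hb hL hX A A' hc)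
  rw [e1, e2, A.Yw_flat hy hf, A'.Yw_flat hy hf, A.Ys_lv, A'.Ys_lv, S3_DV, S3_DV]
  unfold PushV
  simp only [lv_re]
  constructor
  · intro hlt hg
    have := L.DV_lt P2.hu P2.hv P1.hu P1.hv P2.hm P2.hz P1.hm P1.hz
      (strictMonoOn_gh (L.hv P2.hv) (L.hv P1.hv) hlt) hg
    linarith only [hc, this]
  · intro hlt hg
    have := L.DV_lt P1.hu P1.hv P2.hu P2.hv P1.hm P1.hz P2.hm P2.hz
      (strictMonoOn_gh (L.hv P1.hv) (L.hv P2.hv) hlt) (by rwa [abs_sub_comm])
    linarith only [hc, this]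

/-- **Uniqueness of the inner variable.** -/
theorem inner3 (hb : ClassW b) (hL : Loc b zs) (hX : LocX b zs) (hC : Crit b zs)
    (hy : IsMx (wdat (tyW b) b) (wpar b zs) zs y) (hpos : ∀ h : Fin M, 0 < y (.inl (.inl h)))
    (hf : Flat b y) (A : Adj h i 0 j) (A' : Adj h' i 2 k) (hc : clsW b i = .three)
    (hz : ∀ h : Fin M, y (.inl (.inl h)) = (zs (.inl (.inl h))).re)
    (hm0 : 5 / 100 < y (.inl (.inr (mI b hc)))) (hm1 : y (.inl (.inr (mI b hc))) < 3 / 4) :
    y (.inl (.inr (mI b hc))) = (zs (.inl (.inr (mI b hc)))).re := by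
  obtain ⟨e2, P2⟩ := saddle3 hb hL hX hC A A' hc
  obtain ⟨e1, P1⟩ := max3 hb hL hX hy hpos hf A A' hc (by rw [hz h']; exact P2.hu)
    (by rw [hz h]; exact P2.hv) hm0 hm1
  have L := (M3.good (clsW b j) (clsW b k)).lvl (hts3 hb hL hX A A' hc)
  have h1 := P1.hm
  have h2 := P1.hz
  rw [hz h, hz h'] at h1 h2
  exact L.unique P2.hu P2.hv h1 P2.hm h2 P2.hz

end SR

end Pool.Agent.Work.MP_b30479_gtS.G2

end
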