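import Pool.Agent.Work.MP_b30479_gt.TBS.G2.MRBase
import Pool.Agent.Work.MP_b30479_gt.TBS.G2.SQuartF

/-!
# Sums of the two hinges of a digit `1` next to a digit `2`: rows

The first order condition of the hinge `1 | 2` (`1 | 2e`) fails if the sum of the two hinges of the
digit `1` is at least `.95`.
-/

set_option linter.unusedSimpArgs false
set_option linter.unusedVariables false

set_option deprecated.oldSectionVars true

namespace Pool.Agent.Work.MP_b30479_gtS.G2

open VOL NumIs

namespace WS2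

open MR

/-! ### an upper bound of `LL` without a singularity -/

/-- `184/1000 z`, `z = 4 (sin² + sinh²)` -/
noncomputable def zz (X t : ℝ) : ℝ :=
  184 / 1000 * (4 * (Real.sin (Real.pi * X) ^ 2 + Real.sinh (Real.pi * t) ^ 2))

theorem LL_lnA' (u : ℂ) : LL u = lnA u.re u.im := by
  rw [LL_eq', lnA]
  have := Num.den_eq u
  unfold MM at this
  congr 2
  linarith only [this]

theorem LL_le_zz (u : ℂ) : LL u ≤ zz u.re u.im := by
  rw [LL_lnA']
  unfold lnA zz
  set z := 4 * (Real.sin (Real.pi * u.re) ^ 2 + Real.sinh (Real.pi * u.im) ^ 2) with hz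
  have h0 : 0 ≤ z := by positivity
  rcases h0.eq_or_lt with h0 | h0
  · rw [← h0, Real.log_zero]
    norm_num
  · have e := Real.exp_one_gt_d9
    have h1 : Real.log z = Real.log (z / Real.exp 1) + 1 := by
      rw [Real.log_div h0.ne' (Real.exp_pos 1).ne', Real.log_exp]
      ring
    have h2 := Real.log_le_sub_one_of_pos (x := z / Real.exp 1) (by positivity)
    have h3 : z / Real.exp 1 ≤ 368 / 1000 * z := by
      rw [div_le_iff₀ (Real.exp_pos 1)]
      nlinarith only [h0, e]
    linarith only [h1, h2, h3]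

/-- the same, better for small `z` -/
theorem LL_le_z5 (u : ℂ) (hz : 4 * (Real.sin (Real.pi * u.re) ^ 2 + Real.sinh (Real.pi * u.im) ^ 2) ≠ 0) :
    LL u ≤ 4 * (Real.sin (Real.pi * u.re) ^ 2 + Real.sinh (Real.pi * u.im) ^ 2) - 8465 / 10000 := by
  rw [LL_lnA']
  unfold lnA
  set z := 4 * (Real.sin (Real.pi * u.re) ^ 2 + Real.sinh (Real.pi * u.im) ^ 2) with hz'
  have h0 : 0 < z := lt_of_le_of_ne (by positivity) (Ne.symm hz)
  have e := Real.log_two_gt_d9
  have h1 : Real.log z = Real.log (2 * z) - Real.log 2 := by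
    rw [Real.log_mul two_ne_zero h0.ne']
    ring
  have h2 := Real.log_le_sub_one_of_pos (x := 2 * z) (by positivity)
  linarith only [e, h1, h2]

theorem LL_junk (u : ℂ) (hz : 4 * (Real.sin (Real.pi * u.re) ^ 2 + Real.sinh (Real.pi * u.im) ^ 2) = 0) :
    LL u = 0 := by
  rw [LL_lnA']
  unfold lnA
  rw [hz, Real.log_zero]
  norm_num

theorem YY_nonneg {u : ℂ} (h : 1 / 2 ≤ u.re) (hi : 0 ≤ u.im) : 0 ≤ YY u := by
  rcases hi.eq_or_lt with h0 | h0
  · rw [YY_zero h0.symm]
  · rw [YY_pos h0]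
    linarith only [h0, h, half_le_Tr h0 h]

theorem YY_nonpos {u : ℂ} (h : 1 / 2 ≤ u.re) (hi : u.im ≤ 0) : YY u ≤ 0 := by
  rcases hi.eq_or_lt with h0 | h0
  · rw [YY_zero h0]
  · rw [YY_neg h0]
    linarith only [h0, h, half_le_Tr (s := -u.im) (by linarith only [h0]) h]

section
open E

/-- expression for `zz` -/
def ezz (X t : E) : E :=
  mul (q 184 1000) (mul (q 4 1) (add (sq (sinPi X)) (sq (sinh (mul pi t)))))

theorem ezz_val (X t : E) (xs : List ℝ) : (ezz X t).val xs = zz (X.val xs) (t.val xs) := by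
  simp only [ezz, val, zz]
  push_cast
  ring

/-- `x + x'`, `T + t'` -/
def XX : E := add (var 0) (var 2)
def TT : E := add (var 1) (var 3)

/-- slope `-T / (29/100)`, height on the ramp of `1 | 2` -/
def m9 : E := mul (q (-100) 29) (var 1)
def t9 : E := mul (var 1) (mul (q 100 29) (sub (q 8 10) (var 0)))

/-- the bounds between the two sides -/
def eE1 : E := sub (q 47 100) (mul (q 4 1) (sub (var 0) (q 25 100)))
def eE2 : E := sub (q 3 100) (mul (q 14 10) (sub (var 0) (q 36 100)))
def eE3 : E := add (q 4 100) (mul (q 175 100) (var 1))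

/-- side of the digit `1`, flat part -/
def ua : E := neg (add (add (sub (mul pi (var 3)) (lnA (var 0) (var 1))) (ezz XX TT)) eE2)
def ub : E := neg (add (add (sub (mul pi (var 3)) (lnA (var 0) (var 1)))
  (sub (mul (q 4 1) (add (sq (sinPi XX)) (sq (sinh (mul pi TT))))) (q 8465 10000))) eE1)
def uc : E := neg (add (sub (mul pi (var 3)) (lnA (var 0) (var 1))) eE1)
/-- side of the digit `1`, ramp, `YY u` replaced by `r π` -/
def ud (r e : E) : E := neg (add (add (en1 (ezz XX (add t9 (var 3))) r m9 (var 0) t9 (var 2) (var 3))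
  (mul pi m9)) e)
/-- side of the digit `2`, flat part -/
def va (e : E) : E := sub e (e2 (q 0 1) (var 0) (var 1) (var 2) (var 3))
def vb (e : E) : E := sub e (en2 (ezz XX TT) (q 0 1) (q 0 1) (var 0) (var 1) (var 2) (var 3))
/-- side of the digit `2`, ramp -/
def vc (e : E) : E := sub e (add (e2 m9 (var 0) t9 (var 2) (var 3)) (mul pi m9))
def vd (r e : E) : E := sub e (add (en2 (ezz XX (add t9 (var 3))) r m9 (var 0) t9 (var 2) (var 3))
  (mul pi m9))
def eE3' : E := sub (q 4 100) (mul (q 175 100) (var 1))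

/-- constraints (negated) -/
def cS (n : ℤ) (d : ℕ) : E := sub (q n d) XX
def cSu (n : ℤ) (d : ℕ) : E := sub XX (q n d)
def cR : E := sub (var 3) (mul (q 63 100) (sub (q 65 100) (var 2)))
def cI : E := neg (add t9 (var 3))
def cIu : E := add t9 (var 3)

end

noncomputable def E1 (x : ℝ) : ℝ := 47 / 100 - 4 * (x - 25 / 100)
noncomputable def E2 (x : ℝ) : ℝ := 3 / 100 - 14 / 10 * (x - 36 / 100)
noncomputable def E3 (T : ℝ) : ℝ := 4 / 100 + 175 / 100 * T

/-- height and slope on the ramp -/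
noncomputable def tr9 (T x : ℝ) : ℝ := T * (100 / 29 * (8 / 10 - x))
noncomputable def mr9 (T : ℝ) : ℝ := -100 / 29 * T

theorem m9_val (xs : List ℝ) : m9.val xs = mr9 (lkR xs 1) := by
  simp only [m9, E.val, mr9]
  push_cast
  rfl

theorem t9_val (xs : List ℝ) : t9.val xs = tr9 (lkR xs 1) (lkR xs 0) := by
  simp only [t9, E.val, tr9]
  push_cast
  rfl

/-! ### the side of the digit `1` -/

theorem a2 {x T x' t' : ℝ} (h1 : 3900 / 10000 ≤ x) (h1' : x ≤ 5100 / 10000)
    (h2 : 50 / 10000 ≤ T) (h2' : T ≤ 790 / 10000) (h3 : 4400 / 10000 ≤ x') (h3' : x' ≤ 5600 / 10000)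
    (h4 : 0 / 10000 ≤ t') (h4' : t' ≤ 790 / 10000)
    (g0 : 95 / 100 ≤ x + x') :
    Real.pi * t' - lnA x T + zz (x + x') (T + t') < -E2 x := by
  have h : chk [ua, cS 95 100] 26 [V.of 10000 3900 5100, V.of 10000 50 790, V.of 10000 4400 5600, V.of 10000 0 790] = true := by
    decide +kernel
  obtain ⟨f, hf, hp⟩ := chk4 h (by norm_num) (x := x) (y := T) (z := x') (w := t')
    (le_trans (by norm_num) h1) (le_trans h1' (by norm_num)) (le_trans (by norm_num) h2)
    (le_trans h2' (by norm_num)) (le_trans (by norm_num) h3) (le_trans h3' (by norm_num))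
    (le_trans (by norm_num) h4) (le_trans h4' (by norm_num))
  simp only [List.mem_cons, List.not_mem_nil, or_false] at hf
  rcases hf with rfl | rfl
  · simp only [ua, ub, uc, ud, va, vb, vc, vd, E.val, e2_val, en1_val, en2_val, ezz_val, lkR] at hp
    simp only [m9_val, t9_val, XX, TT, eE1, eE2, eE3, eE3', E.val, lkR,
      lkR] at hp
    try unfold E1
    try unfold E2
    try unfold E3
    push_cast at hp
    linarith only [hp]
  · simp only [cS, cSu, cR, cI, cIu, XX, E.val, lkR, t9_val,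
      lkR] at hp
    push_cast at hp
    linarith only [g0, hp]

theorem a3 {x T x' t' : ℝ} (h1 : 3600 / 10000 ≤ x) (h1' : x ≤ 5100 / 10000)
    (h2 : -(80 / 10000) ≤ T) (h2' : T ≤ 800 / 10000) (h3 : 4400 / 10000 ≤ x') (h3' : x' ≤ 6500 / 10000)
    (h4 : 0 / 10000 ≤ t') (h4' : t' ≤ 1050 / 10000)
    (g0 : 95 / 100 ≤ x + x')
    (g1 : t' ≤ 63 / 100 * (65 / 100 - x')) :
    Real.pi * t' - lnA x T + zz (x + x') (T + t') < -E2 x := by
  have h : chk [ua, cS 95 100, cR] 26 [V.of 10000 3600 5100, V.of 10000 (-80) 800, V.of 10000 4400 6500, V.of 10000 0 1050] = true := by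
    decide +kernel
  obtain ⟨f, hf, hp⟩ := chk4 h (by norm_num) (x := x) (y := T) (z := x') (w := t')
    (le_trans (by norm_num) h1) (le_trans h1' (by norm_num)) (le_trans (by norm_num) h2)
    (le_trans h2' (by norm_num)) (le_trans (by norm_num) h3) (le_trans h3' (by norm_num))
    (le_trans (by norm_num) h4) (le_trans h4' (by norm_num))
  simp only [List.mem_cons, List.not_mem_nil, or_false] at hf
  rcases hf with rfl | rfl | rfl
  · simp only [ua, ub, uc, ud, va, vb, vc, vd, E.val, e2_val, en1_val, en2_val, ezz_val, lkR] at hp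
    simp only [m9_val, t9_val, XX, TT, eE1, eE2, eE3, eE3', E.val, lkR,
      lkR] at hp
    try unfold E1
    try unfold E2
    try unfold E3
    push_cast at hp
    linarith only [hp]
  · simp only [cS, cSu, cR, cI, cIu, XX, E.val, lkR, t9_val,
      lkR] at hp
    push_cast at hp
    linarith only [g0, hp]
  · simp only [cS, cSu, cR, cI, cIu, XX, E.val, lkR, t9_val,
      lkR] at hp
    push_cast at hp
    linarith only [g1, hp]

theorem b3 {x T x' t' : ℝ} (h1 : 3000 / 10000 ≤ x) (h1' : x ≤ 3600 / 10000)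
    (h2 : -(80 / 10000) ≤ T) (h2' : T ≤ 800 / 10000) (h3 : 5900 / 10000 ≤ x') (h3' : x' ≤ 6500 / 10000)
    (h4 : 0 / 10000 ≤ t') (h4' : t' ≤ 380 / 10000)
    (g0 : 95 / 100 ≤ x + x') :
    Real.pi * t' - lnA x T + (4 * (Real.sin (Real.pi * (x + x')) ^ 2 +
      Real.sinh (Real.pi * (T + t')) ^ 2) - 8465 / 10000) < -E1 x := by
  have h : chk [ub, cS 95 100] 26 [V.of 10000 3000 3600, V.of 10000 (-80) 800, V.of 10000 5900 6500, V.of 10000 0 380] = true := by
    decide +kernel
  obtain ⟨f, hf, hp⟩ := chk4 h (by norm_num) (x := x) (y := T) (z := x') (w := t')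
    (le_trans (by norm_num) h1) (le_trans h1' (by norm_num)) (le_trans (by norm_num) h2)
    (le_trans h2' (by norm_num)) (le_trans (by norm_num) h3) (le_trans h3' (by norm_num))
    (le_trans (by norm_num) h4) (le_trans h4' (by norm_num))
  simp only [List.mem_cons, List.not_mem_nil, or_false] at hf
  rcases hf with rfl | rfl
  · simp only [ua, ub, uc, ud, va, vb, vc, vd, E.val, e2_val, en1_val, en2_val, ezz_val, lkR] at hp
    simp only [m9_val, t9_val, XX, TT, eE1, eE2, eE3, eE3', E.val, lkR,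
      lkR] at hp
    try unfold E1
    try unfold E2
    try unfold E3
    push_cast at hp
    linarith only [hp]
  · simp only [cS, cSu, cR, cI, cIu, XX, E.val, lkR, t9_val,
      lkR] at hp
    push_cast at hp
    linarith only [g0, hp]

theorem b0 {x T x' t' : ℝ} (h1 : 3000 / 10000 ≤ x) (h1' : x ≤ 3600 / 10000)
    (h2 : -(80 / 10000) ≤ T) (h2' : T ≤ 800 / 10000) (h3 : 0 / 10000 ≤ x') (h3' : x' ≤ 1 / 10000)
    (h4 : 0 / 10000 ≤ t') (h4' : t' ≤ 80 / 10000) :
    Real.pi * t' - lnA x T < -E1 x := by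
  have h : chk [uc] 26 [V.of 10000 3000 3600, V.of 10000 (-80) 800, V.of 10000 0 1, V.of 10000 0 80] = true := by
    decide +kernel
  obtain ⟨f, hf, hp⟩ := chk4 h (by norm_num) (x := x) (y := T) (z := x') (w := t')
    (le_trans (by norm_num) h1) (le_trans h1' (by norm_num)) (le_trans (by norm_num) h2)
    (le_trans h2' (by norm_num)) (le_trans (by norm_num) h3) (le_trans h3' (by norm_num))
    (le_trans (by norm_num) h4) (le_trans h4' (by norm_num))
  simp only [List.mem_cons, List.not_mem_nil, or_false] at hf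
  subst hf
  simp only [ua, ub, uc, ud, va, vb, vc, vd, E.val, e2_val, en1_val, en2_val, ezz_val, lkR] at hp
  simp only [m9_val, t9_val, XX, TT, eE1, eE2, eE3, eE3', E.val, lkR,
    lkR] at hp
  try unfold E1
  try unfold E2
  try unfold E3
  push_cast at hp
  linarith only [hp]

theorem d2 {x T x' t' : ℝ} (h1 : 5100 / 10000 ≤ x) (h1' : x ≤ 5600 / 10000)
    (h2 : 50 / 10000 ≤ T) (h2' : T ≤ 790 / 10000) (h3 : 3900 / 10000 ≤ x') (h3' : x' ≤ 5600 / 10000)
    (h4 : 0 / 10000 ≤ t') (h4' : t' ≤ 790 / 10000)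
    (g0 : 95 / 100 ≤ x + x') :
    n1 (zz (x + x') (tr9 T x + t')) 0 (mr9 T) x (tr9 T x) x' t' + Real.pi * mr9 T < -E3 T := by
  have h : chk [ud (E.q 0 1) eE3, cS 95 100] 26 [V.of 10000 5100 5600, V.of 10000 50 790, V.of 10000 3900 5600, V.of 10000 0 790] = true := by
    decide +kernel
  obtain ⟨f, hf, hp⟩ := chk4 h (by norm_num) (x := x) (y := T) (z := x') (w := t')
    (le_trans (by norm_num) h1) (le_trans h1' (by norm_num)) (le_trans (by norm_num) h2)
    (le_trans h2' (by norm_num)) (le_trans (by norm_num) h3) (le_trans h3' (by norm_num))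
    (le_trans (by norm_num) h4) (le_trans h4' (by norm_num))
  simp only [List.mem_cons, List.not_mem_nil, or_false] at hf
  rcases hf with rfl | rfl
  · simp only [ua, ub, uc, ud, va, vb, vc, vd, E.val, e2_val, en1_val, en2_val, ezz_val, lkR] at hp
    simp only [m9_val, t9_val, XX, TT, eE1, eE2, eE3, eE3', E.val, lkR,
      lkR] at hp
    try unfold E1
    try unfold E2
    try unfold E3
    push_cast at hp
    linarith only [hp]
  · simp only [cS, cSu, cR, cI, cIu, XX, E.val, lkR, t9_val,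
      lkR] at hp
    push_cast at hp
    linarith only [g0, hp]

theorem d3 {x T x' t' : ℝ} (h1 : 5100 / 10000 ≤ x) (h1' : x ≤ 5600 / 10000)
    (h2 : 0 / 10000 ≤ T) (h2' : T ≤ 800 / 10000) (h3 : 3900 / 10000 ≤ x') (h3' : x' ≤ 6500 / 10000)
    (h4 : 0 / 10000 ≤ t') (h4' : t' ≤ 1310 / 10000)
    (g0 : 95 / 100 ≤ x + x')
    (g1 : t' ≤ 63 / 100 * (65 / 100 - x')) :
    n1 (zz (x + x') (tr9 T x + t')) 0 (mr9 T) x (tr9 T x) x' t' + Real.pi * mr9 T < -E3 T := by
  have h : chk [ud (E.q 0 1) eE3, cS 95 100, cR] 26 [V.of 10000 5100 5600, V.of 10000 0 800, V.of 10000 3900 6500, V.of 10000 0 1310] = true := by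
    decide +kernel
  obtain ⟨f, hf, hp⟩ := chk4 h (by norm_num) (x := x) (y := T) (z := x') (w := t')
    (le_trans (by norm_num) h1) (le_trans h1' (by norm_num)) (le_trans (by norm_num) h2)
    (le_trans h2' (by norm_num)) (le_trans (by norm_num) h3) (le_trans h3' (by norm_num))
    (le_trans (by norm_num) h4) (le_trans h4' (by norm_num))
  simp only [List.mem_cons, List.not_mem_nil, or_false] at hf
  rcases hf with rfl | rfl | rfl
  · simp only [ua, ub, uc, ud, va, vb, vc, vd, E.val, e2_val, en1_val, en2_val, ezz_val, lkR] at hp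
    simp only [m9_val, t9_val, XX, TT, eE1, eE2, eE3, eE3', E.val, lkR,
      lkR] at hp
    try unfold E1
    try unfold E2
    try unfold E3
    push_cast at hp
    linarith only [hp]
  · simp only [cS, cSu, cR, cI, cIu, XX, E.val, lkR, t9_val,
      lkR] at hp
    push_cast at hp
    linarith only [g0, hp]
  · simp only [cS, cSu, cR, cI, cIu, XX, E.val, lkR, t9_val,
      lkR] at hp
    push_cast at hp
    linarith only [g1, hp]

theorem d4 {x T x' t' : ℝ} (h1 : 5100 / 10000 ≤ x) (h1' : x ≤ 5600 / 10000)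
    (h2 : -(80 / 10000) ≤ T) (h2' : T ≤ 0 / 10000) (h3 : 3900 / 10000 ≤ x') (h3' : x' ≤ 6500 / 10000)
    (h4 : 0 / 10000 ≤ t') (h4' : t' ≤ 1310 / 10000)
    (g0 : 95 / 100 ≤ x + x')
    (g1 : t' ≤ 63 / 100 * (65 / 100 - x')) :
    n1 (zz (x + x') (tr9 T x + t')) 1 (mr9 T) x (tr9 T x) x' t' + Real.pi * mr9 T < 25 / 100 := by
  have h : chk [ud (E.q 1 1) (E.q (-25) 100), cS 95 100, cR] 26 [V.of 10000 5100 5600, V.of 10000 (-80) 0, V.of 10000 3900 6500, V.of 10000 0 1310] = true := by
    decide +kernel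
  obtain ⟨f, hf, hp⟩ := chk4 h (by norm_num) (x := x) (y := T) (z := x') (w := t')
    (le_trans (by norm_num) h1) (le_trans h1' (by norm_num)) (le_trans (by norm_num) h2)
    (le_trans h2' (by norm_num)) (le_trans (by norm_num) h3) (le_trans h3' (by norm_num))
    (le_trans (by norm_num) h4) (le_trans h4' (by norm_num))
  simp only [List.mem_cons, List.not_mem_nil, or_false] at hf
  rcases hf with rfl | rfl | rfl
  · simp only [ua, ub, uc, ud, va, vb, vc, vd, E.val, e2_val, en1_val, en2_val, ezz_val, lkR] at hp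
    simp only [m9_val, t9_val, XX, TT, eE1, eE2, eE3, eE3', E.val, lkR,
      lkR] at hp
    try unfold E1
    try unfold E2
    try unfold E3
    push_cast at hp
    linarith only [hp]
  · simp only [cS, cSu, cR, cI, cIu, XX, E.val, lkR, t9_val,
      lkR] at hp
    push_cast at hp
    linarith only [g0, hp]
  · simp only [cS, cSu, cR, cI, cIu, XX, E.val, lkR, t9_val,
      lkR] at hp
    push_cast at hp
    linarith only [g1, hp]

/-! ### the side of the digit `2` -/

theorem f1_h1_q1 : chk [va eE1] 24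
    (NumIs.setL 3 (NumIs.setL 2 [V.of 10000 2500 3600, V.of 10000 (-800) 80, V.of 10000 0 6000, V.of 10000 (-985) 960])) = true := by
  decide +kernel

theorem f1_h1_q2 : chk [va eE1] 24
    (NumIs.setR 3 (NumIs.setL 2 [V.of 10000 2500 3600, V.of 10000 (-800) 80, V.of 10000 0 6000, V.of 10000 (-985) 960])) = true := by
  decide +kernel

theorem f1_h1_q3 : chk [va eE1] 25
    (NumIs.setR 2 [V.of 10000 2500 3600, V.of 10000 (-800) 80, V.of 10000 0 6000, V.of 10000 (-985) 960]) = true := by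
  decide +kernel

theorem f1_h1 : chk [va eE1] 26
    [V.of 10000 2500 3600, V.of 10000 (-800) 80, V.of 10000 0 6000, V.of 10000 (-985) 960] = true :=
  NumIs.chk_node (i := 2) (by decide +kernel)
    (NumIs.chk_node (i := 3) (by decide +kernel)
      f1_h1_q1
      f1_h1_q2)
    f1_h1_q3

theorem f1 {x T x' t' : ℝ} (h1 : 2500 / 10000 ≤ x) (h1' : x ≤ 3600 / 10000)
    (h2 : -(800 / 10000) ≤ T) (h2' : T ≤ 80 / 10000) (h3 : 0 / 10000 ≤ x') (h3' : x' ≤ 6000 / 10000)
    (h4 : -(985 / 10000) ≤ t') (h4' : t' ≤ 960 / 10000) :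
    s2 0 x T x' t' < E1 x := by
  have h : chk [va eE1] 26 [V.of 10000 2500 3600, V.of 10000 (-800) 80, V.of 10000 0 6000, V.of 10000 (-985) 960] = true := f1_h1
  obtain ⟨f, hf, hp⟩ := chk4 h (by norm_num) (x := x) (y := T) (z := x') (w := t')
    (le_trans (by norm_num) h1) (le_trans h1' (by norm_num)) (le_trans (by norm_num) h2)
    (le_trans h2' (by norm_num)) (le_trans (by norm_num) h3) (le_trans h3' (by norm_num))
    (le_trans (by norm_num) h4) (le_trans h4' (by norm_num))
  simp only [List.mem_cons, List.not_mem_nil, or_false] at hf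
  subst hf
  simp only [ua, ub, uc, ud, va, vb, vc, vd, E.val, e2_val, en1_val, en2_val, ezz_val, lkR] at hp
  simp only [m9_val, t9_val, XX, TT, eE1, eE2, eE3, eE3', E.val, lkR,
    lkR] at hp
  try unfold E1
  try unfold E2
  try unfold E3
  push_cast at hp
  linarith only [hp]

theorem f2_h1_q1 : chk [va eE2, cSu 91 100] 24
    (NumIs.setL 3 (NumIs.setL 2 [V.of 10000 3600 5100, V.of 10000 (-800) 80, V.of 10000 0 6000, V.of 10000 (-985) 960])) = true := by
  decide +kernel

theorem f2_h1_q2 : chk [va eE2, cSu 91 100] 24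
    (NumIs.setR 3 (NumIs.setL 2 [V.of 10000 3600 5100, V.of 10000 (-800) 80, V.of 10000 0 6000, V.of 10000 (-985) 960])) = true := by
  decide +kernel

theorem f2_h1_q3 : chk [va eE2, cSu 91 100] 24
    (NumIs.setL 2 (NumIs.setR 2 [V.of 10000 3600 5100, V.of 10000 (-800) 80, V.of 10000 0 6000, V.of 10000 (-985) 960])) = true := by
  decide +kernel

theorem f2_h1_q4 : chk [va eE2, cSu 91 100] 24
    (NumIs.setR 2 (NumIs.setR 2 [V.of 10000 3600 5100, V.of 10000 (-800) 80, V.of 10000 0 6000, V.of 10000 (-985) 960])) = true := by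
  decide +kernel

theorem f2_h1 : chk [va eE2, cSu 91 100] 26
    [V.of 10000 3600 5100, V.of 10000 (-800) 80, V.of 10000 0 6000, V.of 10000 (-985) 960] = true :=
  NumIs.chk_node (i := 2) (by decide +kernel)
    (NumIs.chk_node (i := 3) (by decide +kernel)
      f2_h1_q1
      f2_h1_q2)
    (NumIs.chk_node (i := 2) (by decide +kernel)
      f2_h1_q3
      f2_h1_q4)

theorem f2 {x T x' t' : ℝ} (h1 : 3600 / 10000 ≤ x) (h1' : x ≤ 5100 / 10000)
    (h2 : -(800 / 10000) ≤ T) (h2' : T ≤ 80 / 10000) (h3 : 0 / 10000 ≤ x') (h3' : x' ≤ 6000 / 10000)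
    (h4 : -(985 / 10000) ≤ t') (h4' : t' ≤ 960 / 10000)
    (g0 : x + x' ≤ 91 / 100) :
    s2 0 x T x' t' < E2 x := by
  have h : chk [va eE2, cSu 91 100] 26 [V.of 10000 3600 5100, V.of 10000 (-800) 80, V.of 10000 0 6000, V.of 10000 (-985) 960] = true := f2_h1
  obtain ⟨f, hf, hp⟩ := chk4 h (by norm_num) (x := x) (y := T) (z := x') (w := t')
    (le_trans (by norm_num) h1) (le_trans h1' (by norm_num)) (le_trans (by norm_num) h2)
    (le_trans h2' (by norm_num)) (le_trans (by norm_num) h3) (le_trans h3' (by norm_num))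
    (le_trans (by norm_num) h4) (le_trans h4' (by norm_num))
  simp only [List.mem_cons, List.not_mem_nil, or_false] at hf
  rcases hf with rfl | rfl
  · simp only [ua, ub, uc, ud, va, vb, vc, vd, E.val, e2_val, en1_val, en2_val, ezz_val, lkR] at hp
    simp only [m9_val, t9_val, XX, TT, eE1, eE2, eE3, eE3', E.val, lkR,
      lkR] at hp
    try unfold E1
    try unfold E2
    try unfold E3
    push_cast at hp
    linarith only [hp]
  · simp only [cS, cSu, cR, cI, cIu, XX, E.val, lkR, t9_val,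
      lkR] at hp
    push_cast at hp
    linarith only [g0, hp]

theorem f3 {x T x' t' : ℝ} (h1 : 3600 / 10000 ≤ x) (h1' : x ≤ 5100 / 10000)
    (h2 : -(800 / 10000) ≤ T) (h2' : T ≤ 80 / 10000) (h3 : 4000 / 10000 ≤ x') (h3' : x' ≤ 6000 / 10000)
    (h4 : -(985 / 10000) ≤ t') (h4' : t' ≤ 960 / 10000)
    (g0 : 91 / 100 ≤ x + x') :
    n2 (zz (x + x') (T + t')) 0 0 x T x' t' < E2 x := by
  have h : chk [vb eE2, cS 91 100] 26 [V.of 10000 3600 5100, V.of 10000 (-800) 80, V.of 10000 4000 6000, V.of 10000 (-985) 960] = true := by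
    decide +kernel
  obtain ⟨f, hf, hp⟩ := chk4 h (by norm_num) (x := x) (y := T) (z := x') (w := t')
    (le_trans (by norm_num) h1) (le_trans h1' (by norm_num)) (le_trans (by norm_num) h2)
    (le_trans h2' (by norm_num)) (le_trans (by norm_num) h3) (le_trans h3' (by norm_num))
    (le_trans (by norm_num) h4) (le_trans h4' (by norm_num))
  simp only [List.mem_cons, List.not_mem_nil, or_false] at hf
  rcases hf with rfl | rfl
  · simp only [ua, ub, uc, ud, va, vb, vc, vd, E.val, e2_val, en1_val, en2_val, ezz_val, lkR] at hp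
    simp only [m9_val, t9_val, XX, TT, eE1, eE2, eE3, eE3', E.val, lkR,
      lkR] at hp
    try unfold E1
    try unfold E2
    try unfold E3
    push_cast at hp
    linarith only [hp]
  · simp only [cS, cSu, cR, cI, cIu, XX, E.val, lkR, t9_val,
      lkR] at hp
    push_cast at hp
    linarith only [g0, hp]

theorem g1 {x T x' t' : ℝ} (h1 : 5100 / 10000 ≤ x) (h1' : x ≤ 5600 / 10000)
    (h2 : -(800 / 10000) ≤ T) (h2' : T ≤ 0 / 10000) (h3 : 0 / 10000 ≤ x') (h3' : x' ≤ 3600 / 10000)
    (h4 : -(985 / 10000) ≤ t') (h4' : t' ≤ 960 / 10000) :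
    s2 (mr9 T) x (tr9 T x) x' t' + Real.pi * mr9 T < E3 (-T) := by
  have h : chk [vc eE3'] 26 [V.of 10000 5100 5600, V.of 10000 (-800) 0, V.of 10000 0 3600, V.of 10000 (-985) 960] = true := by
    decide +kernel
  obtain ⟨f, hf, hp⟩ := chk4 h (by norm_num) (x := x) (y := T) (z := x') (w := t')
    (le_trans (by norm_num) h1) (le_trans h1' (by norm_num)) (le_trans (by norm_num) h2)
    (le_trans h2' (by norm_num)) (le_trans (by norm_num) h3) (le_trans h3' (by norm_num))
    (le_trans (by norm_num) h4) (le_trans h4' (by norm_num))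
  simp only [List.mem_cons, List.not_mem_nil, or_false] at hf
  subst hf
  simp only [ua, ub, uc, ud, va, vb, vc, vd, E.val, e2_val, en1_val, en2_val, ezz_val, lkR] at hp
  simp only [m9_val, t9_val, XX, TT, eE1, eE2, eE3, eE3', E.val, lkR,
    lkR] at hp
  try unfold E1
  try unfold E2
  try unfold E3
  push_cast at hp
  linarith only [hp]

theorem g2 {x T x' t' : ℝ} (h1 : 5100 / 10000 ≤ x) (h1' : x ≤ 5600 / 10000)
    (h2 : 0 / 10000 ≤ T) (h2' : T ≤ 180 / 10000) (h3 : 0 / 10000 ≤ x') (h3' : x' ≤ 3600 / 10000)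
    (h4 : -(985 / 10000) ≤ t') (h4' : t' ≤ 960 / 10000) :
    s2 (mr9 T) x (tr9 T x) x' t' + Real.pi * mr9 T < -(25 / 100) := by
  have h : chk [vc (E.q (-25) 100)] 26 [V.of 10000 5100 5600, V.of 10000 0 180, V.of 10000 0 3600, V.of 10000 (-985) 960] = true := by
    decide +kernel
  obtain ⟨f, hf, hp⟩ := chk4 h (by norm_num) (x := x) (y := T) (z := x') (w := t')
    (le_trans (by norm_num) h1) (le_trans h1' (by norm_num)) (le_trans (by norm_num) h2)
    (le_trans h2' (by norm_num)) (le_trans (by norm_num) h3) (le_trans h3' (by norm_num))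
    (le_trans (by norm_num) h4) (le_trans h4' (by norm_num))
  simp only [List.mem_cons, List.not_mem_nil, or_false] at hf
  subst hf
  simp only [ua, ub, uc, ud, va, vb, vc, vd, E.val, e2_val, en1_val, en2_val, ezz_val, lkR] at hp
  simp only [m9_val, t9_val, XX, TT, eE1, eE2, eE3, eE3', E.val, lkR,
    lkR] at hp
  try unfold E1
  try unfold E2
  try unfold E3
  push_cast at hp
  linarith only [hp]

theorem g3 {x T x' t' : ℝ} (h1 : 5100 / 10000 ≤ x) (h1' : x ≤ 5600 / 10000)
    (h2 : -(800 / 10000) ≤ T) (h2' : T ≤ 0 / 10000) (h3 : 3600 / 10000 ≤ x') (h3' : x' ≤ 5600 / 10000)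
    (h4 : -(985 / 10000) ≤ t') (h4' : t' ≤ 180 / 10000) :
    n2 (zz (x + x') (tr9 T x + t')) 0 (mr9 T) x (tr9 T x) x' t' + Real.pi * mr9 T < E3 (-T) := by
  have h : chk [vd (E.q 0 1) eE3'] 26 [V.of 10000 5100 5600, V.of 10000 (-800) 0, V.of 10000 3600 5600, V.of 10000 (-985) 180] = true := by
    decide +kernel
  obtain ⟨f, hf, hp⟩ := chk4 h (by norm_num) (x := x) (y := T) (z := x') (w := t')
    (le_trans (by norm_num) h1) (le_trans h1' (by norm_num)) (le_trans (by norm_num) h2)
    (le_trans h2' (by norm_num)) (le_trans (by norm_num) h3) (le_trans h3' (by norm_num))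
    (le_trans (by norm_num) h4) (le_trans h4' (by norm_num))
  simp only [List.mem_cons, List.not_mem_nil, or_false] at hf
  subst hf
  simp only [ua, ub, uc, ud, va, vb, vc, vd, E.val, e2_val, en1_val, en2_val, ezz_val, lkR] at hp
  simp only [m9_val, t9_val, XX, TT, eE1, eE2, eE3, eE3', E.val, lkR,
    lkR] at hp
  try unfold E1
  try unfold E2
  try unfold E3
  push_cast at hp
  linarith only [hp]

theorem g4 {x T x' t' : ℝ} (h1 : 5100 / 10000 ≤ x) (h1' : x ≤ 5600 / 10000)
    (h2 : -(800 / 10000) ≤ T) (h2' : T ≤ 0 / 10000) (h3 : 3600 / 10000 ≤ x') (h3' : x' ≤ 5600 / 10000)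
    (h4 : -(985 / 10000) ≤ t') (h4' : t' ≤ 180 / 10000)
    (g0 : 0 ≤ tr9 T x + t') :
    n2 (zz (x + x') (tr9 T x + t')) 1 (mr9 T) x (tr9 T x) x' t' + Real.pi * mr9 T < E3 (-T) := by
  have h : chk [vd (E.q 1 1) eE3', cI] 26 [V.of 10000 5100 5600, V.of 10000 (-800) 0, V.of 10000 3600 5600, V.of 10000 (-985) 180] = true := by
    decide +kernel
  obtain ⟨f, hf, hp⟩ := chk4 h (by norm_num) (x := x) (y := T) (z := x') (w := t')
    (le_trans (by norm_num) h1) (le_trans h1' (by norm_num)) (le_trans (by norm_num) h2)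
    (le_trans h2' (by norm_num)) (le_trans (by norm_num) h3) (le_trans h3' (by norm_num))
    (le_trans (by norm_num) h4) (le_trans h4' (by norm_num))
  simp only [List.mem_cons, List.not_mem_nil, or_false] at hf
  rcases hf with rfl | rfl
  · simp only [ua, ub, uc, ud, va, vb, vc, vd, E.val, e2_val, en1_val, en2_val, ezz_val, lkR] at hp
    simp only [m9_val, t9_val, XX, TT, eE1, eE2, eE3, eE3', E.val, lkR,
      lkR] at hp
    try unfold E1
    try unfold E2
    try unfold E3
    push_cast at hp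
    linarith only [hp]
  · simp only [cS, cSu, cR, cI, cIu, XX, E.val, lkR, t9_val,
      lkR] at hp
    push_cast at hp
    linarith only [g0, hp]

theorem g5 {x T x' t' : ℝ} (h1 : 5100 / 10000 ≤ x) (h1' : x ≤ 5600 / 10000)
    (h2 : 0 / 10000 ≤ T) (h2' : T ≤ 180 / 10000) (h3 : 3600 / 10000 ≤ x') (h3' : x' ≤ 5600 / 10000)
    (h4 : -(985 / 10000) ≤ t') (h4' : t' ≤ 180 / 10000) :
    n2 (zz (x + x') (tr9 T x + t')) (-1) (mr9 T) x (tr9 T x) x' t' + Real.pi * mr9 T < -(25 / 100) := by
  have h : chk [vd (E.q (-1) 1) (E.q (-25) 100)] 26 [V.of 10000 5100 5600, V.of 10000 0 180, V.of 10000 3600 5600, V.of 10000 (-985) 180] = true := by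
    decide +kernel
  obtain ⟨f, hf, hp⟩ := chk4 h (by norm_num) (x := x) (y := T) (z := x') (w := t')
    (le_trans (by norm_num) h1) (le_trans h1' (by norm_num)) (le_trans (by norm_num) h2)
    (le_trans h2' (by norm_num)) (le_trans (by norm_num) h3) (le_trans h3' (by norm_num))
    (le_trans (by norm_num) h4) (le_trans h4' (by norm_num))
  simp only [List.mem_cons, List.not_mem_nil, or_false] at hf
  subst hf
  simp only [ua, ub, uc, ud, va, vb, vc, vd, E.val, e2_val, en1_val, en2_val, ezz_val, lkR] at hp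
  simp only [m9_val, t9_val, XX, TT, eE1, eE2, eE3, eE3', E.val, lkR,
    lkR] at hp
  try unfold E1
  try unfold E2
  try unfold E3
  push_cast at hp
  linarith only [hp]

end WS2

end Pool.Agent.Work.MP_b30479_gtS.G2
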