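import Pool.Agent.Work.MP_b30479_gt.TBS.G2.MR2
import Pool.Agent.Work.MP_b30479_gt.TBS.G2.WVal
import Pool.Agent.Work.MP_b30479_gt.TBS.G2.WLocX
import Pool.Agent.Work.MP_b30479_gt.TBS.G2.C12R3_2
import Pool.Agent.Work.MP_b30479_gt.TBS.G2.C12R5_2
import Pool.Agent.Work.MP_b30479_gt.TBS.G2.WPush2
import Pool.Agent.Work.MP_b30479_gt.TBS.G2.WS2Row

section

/-!
# Caps of the hinges between a digit `1` and a digit `2`
-/

set_option linter.unusedSimpArgs false

namespace Pool.Agent.Work.MP_b30479_gtS.G2

open Finset VOL Filter Topology NumUs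

/-! ### gains of the values -/

theorem V1_gain (c T : ℝ) (w v : ℂ) : V1 (c + (T : ℂ) * Complex.I) v - V1 w v =
    C12.g1 c T w.re w.im v.re v.im (uu (c + v.re) (T + v.im)) (uu (w.re + v.re) (w.im + v.im)) := by
  unfold V1 C12.g1
  rw [UU_uu (c + (T : ℂ) * Complex.I + v), UU_uu (c + (T : ℂ) * Complex.I), UU_uu (w + v), UU_uu w]
  simp only [Complex.add_re, Complex.add_im, Complex.sub_im, Complex.mul_im, Complex.mul_re,
    Complex.ofReal_re, Complex.ofReal_im, Complex.I_re, Complex.I_im, mul_zero, mul_one, zero_mul,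
    add_zero, zero_add, sub_zero, sub_self]
  ring

theorem V2_gain (c T : ℝ) (w v : ℂ) :
    V2 (c + ((-T : ℝ) : ℂ) * Complex.I) v - V2 (starRingEnd ℂ w) v =
    C12.g2 c T w.re w.im v.re v.im (uu (c + v.re) (v.im - T)) (uu (w.re + v.re) (v.im - w.im)) := by
  unfold V2 C12.g2
  rw [UU_uu (c + ((-T : ℝ) : ℂ) * Complex.I + v), UU_uu (c + ((-T : ℝ) : ℂ) * Complex.I),
    UU_uu (starRingEnd ℂ w + v), UU_uu (starRingEnd ℂ w)]
  simp only [Complex.add_re, Complex.add_im, Complex.sub_im, Complex.sub_re, Complex.mul_im,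
    Complex.mul_re, Complex.ofReal_re, Complex.ofReal_im, Complex.I_re, Complex.I_im, mul_zero,
    mul_one, zero_mul, add_zero, zero_add, sub_zero, sub_self, pow_two, Complex.conj_re,
    Complex.conj_im]
  rw [uu_neg, uu_neg, show -T + v.im = v.im - T by ring, show -w.im + v.im = v.im - w.im by ring]
  ring

/-! ### bounds on a path -/

theorem RH_bd {w : ℂ} {T XM cl cr : ℝ} (B C : ℝ) (h : RH w T XM cl cr) (hc : 0 < cl)
    (hc' : 0 < cr) (hB : 0 ≤ B) (hC : 0 ≤ C) (h1 : T ≤ B) (h2 : -T ≤ C) :
    (w.im ≤ B ∧ w.im * cl ≤ B * w.re ∧ w.im * cr ≤ B * (XM - w.re)) ∧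
      (-w.im ≤ C ∧ -w.im * cl ≤ C * w.re ∧ -w.im * cr ≤ C * (XM - w.re)) ∧
      (w.im ≤ T ∨ w.im ≤ 0) ∧ (0 ≤ T → 0 ≤ w.im) := by
  have hre := h.re0
  have hM := h.reM
  have t0 : 0 ≤ tr 0 XM cl cr w.re := le_max_left _ _
  have t1 : tr 0 XM cl cr w.re ≤ 1 := max_le zero_le_one (min_le_left _ _)
  have t2 : tr 0 XM cl cr w.re * cl ≤ w.re := by
    have : tr 0 XM cl cr w.re ≤ w.re / cl := by
      refine max_le (by positivity) ((min_le_right _ _).trans ((min_le_left _ _).trans ?_))
      rw [sub_zero]
    rwa [le_div_iff₀ hc] at this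
  have t3 : tr 0 XM cl cr w.re * cr ≤ XM - w.re := by
    have : tr 0 XM cl cr w.re ≤ (XM - w.re) / cr :=
      max_le (div_nonneg (by linarith only [hM]) hc'.le) ((min_le_right _ _).trans (min_le_right _ _))
    rwa [le_div_iff₀ hc'] at this
  rw [h.im]
  generalize tr 0 XM cl cr w.re = τ at t0 t1 t2 t3
  have a1 : T * τ ≤ B * τ := mul_le_mul_of_nonneg_right h1 t0
  have a2 : B * τ ≤ B := by nlinarith only [hB, t1]
  have b1 : -T * τ ≤ C * τ := mul_le_mul_of_nonneg_right h2 t0
  have b2 : C * τ ≤ C := by nlinarith only [hC, t1]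
  refine ⟨⟨a1.trans a2, ?_, ?_⟩, ⟨by linarith only [b1, b2], ?_, ?_⟩, ?_, fun h => mul_nonneg h t0⟩
  · have c1 := mul_le_mul_of_nonneg_right a1 hc.le
    have c2 := mul_le_mul_of_nonneg_left t2 hB
    linarith only [c1, c2]
  · have c1 := mul_le_mul_of_nonneg_right a1 hc'.le
    have c2 := mul_le_mul_of_nonneg_left t3 hB
    linarith only [c1, c2]
  · have c1 := mul_le_mul_of_nonneg_right b1 hc.le
    have c2 := mul_le_mul_of_nonneg_left t2 hC
    linarith only [c1, c2]
  · have c1 := mul_le_mul_of_nonneg_right b1 hc'.le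
    have c2 := mul_le_mul_of_nonneg_left t3 hC
    linarith only [c1, c2]
  · rcases le_total 0 T with h | h
    · left; nlinarith only [t1, h]
    · right; exact mul_nonpos_of_nonpos_of_nonneg h t0

namespace SR

/-- window of the hinge `1 | 2` and of the other hinge of the digit `1` -/
theorem r1_core {P Q : Cl} {p' : Fin 3} {T T' : ℝ} {w : ℂ}
    (hrh : RH w T' (hpp p' .two .one P Q).XM (hpp p' .two .one P Q).cl (hpp p' .two .one P Q).cr)
    (a0 : (cw P .two).t0 ≤ T) (a1 : T ≤ (cw P .two).t1) (a2 : T + T' ≤ (cw P .two).s1)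
    (b0 : (cw .two P).t0 ≤ T') (b1 : T' ≤ (cw .two P).t1) (hF : 7 / 100 ≤ w.re)
    (h11 : P = .one → w.re ≤ 70 / 100) :
    C12.R1 T w.re w.im ∧ (P ≠ .ring → C12.R1P T w.re w.im) := by
  have hM := hrh.reM
  cases P
  case one =>
    have e1 : (hpp p' .two .one .one Q).XM ≤ 86 / 100 := by
      unfold hpp hp; split_ifs <;> simp only [] <;> norm_num
    have e2 : (hpp p' .two .one .one Q).cl = 15 / 100 := by
      unfold hpp hp; split_ifs <;> rfl
    have e3 : (hpp p' .two .one .one Q).cr = 20 / 100 := by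
      unfold hpp hp; split_ifs <;> rfl
    rw [e2, e3] at hrh
    simp only [cw] at a0 a1 a2 b0 b1
    have h7 := h11 rfl
    obtain ⟨⟨c1, c2, c3⟩, ⟨d1, d2, d3⟩, g, g'⟩ := RH_bd (54 / 1000) (93 / 1000) hrh (by norm_num)
      (by norm_num) (by norm_num) (by norm_num) (by linarith only [b1]) (by linarith only [b0])
    have hR : C12.R1 T w.re w.im := ⟨by linarith only [a0], by linarith only [a1], by linarith only [hF], by linarith only [hM, e1, h7],
      by linarith only [d1], by linarith only [c1], by rcases g with g | g <;> linarith only [a1, c1, g], by linarith only [hF, c2], by linarith only [d2],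
      by linarith only [hM, e1, c3], by linarith only [e1, d3], fun h => by linarith only [h7, h]⟩
    exact ⟨hR, fun _ => ⟨hR, by rcases g with g | g <;> linarith only [a1, c1, g], by linarith only [c1], by linarith only [hF, c2]⟩⟩
  case two =>
    have e : hpp p' .two .one .two Q = ⟨80 / 100, 16 / 100, 29 / 100⟩ := by
      unfold hpp hp hp1; split_ifs <;> rfl
    rw [e] at hrh hM
    simp only [cw] at a0 a1 a2 b0 b1 hrh hM
    obtain ⟨⟨c1, c2, c3⟩, ⟨d1, d2, d3⟩, g, g'⟩ := RH_bd (79 / 1000) 0 hrh (by norm_num)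
      (by norm_num) (by norm_num) (by norm_num) (by linarith only [b1]) (by linarith only [b0])
    have g'' := g' (by linarith only [b0])
    have hR : C12.R1 T w.re w.im := ⟨by linarith only [a0], by linarith only [a1], by linarith only [hF], by linarith only [hM],
      by linarith only [d1], by linarith only [c1], by rcases g with g | g <;> linarith only [a1, c1, g], by linarith only [hF, c2], by linarith only [hF, d1],
      by linarith only [hM, c3], by linarith only [hM, d1], fun h => ⟨by linarith only [d1], by linarith only [hM, c3], by linarith only [a0], by linarith only [a1],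
        by rcases g with g | g <;> linarith only [a1, c3, h]⟩⟩
    exact ⟨hR, fun _ => ⟨hR, by rcases g with g | g <;> linarith only [a2, g, a1], by linarith only [c1], by linarith only [hF, c2]⟩⟩
  case twoE =>
    have e : hpp p' .two .one .twoE Q = ⟨70 / 100, 14 / 100, 35 / 100⟩ := by
      unfold hpp hp hp1; split_ifs <;> rfl
    rw [e] at hrh hM
    simp only [cw] at a0 a1 a2 b0 b1 hrh hM
    obtain ⟨⟨c1, c2, c3⟩, ⟨d1, d2, d3⟩, g, g'⟩ := RH_bd 0 (49 / 1000) hrh (by norm_num)
      (by norm_num) (by norm_num) (by norm_num) (by linarith only [b1]) (by linarith only [b0])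
    have hR : C12.R1 T w.re w.im := ⟨by linarith only [a0], by linarith only [a1], by linarith only [hF], by linarith only [hM],
      by linarith only [d1], by linarith only [c1], by rcases g with g | g <;> linarith only [a2, g, a1, c1], by linarith only [hF, c1], by linarith only [hF, d1, d2],
      by linarith only [hM, c1], by linarith only [hM, d1], fun h => by linarith only [hM, h]⟩
    exact ⟨hR, fun _ => ⟨hR, by rcases g with g | g <;> linarith only [a2, g, a1, c1], by linarith only [c1], by linarith only [hF, c1]⟩⟩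
  case three =>
    have e1 : (hpp p' .two .one .three Q).XM = 65 / 100 := by
      unfold hpp hp hp1; split_ifs <;> rfl
    have e2 : 13 / 100 ≤ (hpp p' .two .one .three Q).cl := by
      unfold hpp hp hp1; split_ifs <;> simp only [] <;> norm_num
    have e3 : 15 / 100 ≤ (hpp p' .two .one .three Q).cr := by
      unfold hpp hp hp1; split_ifs <;> simp only [] <;> norm_num
    rw [e1] at hrh hM
    simp only [cw] at a0 a1 a2 b0 b1
    obtain ⟨⟨c1, c2, c3⟩, ⟨d1, d2, d3⟩, g, g'⟩ := RH_bd (94 / 1000) 0 hrh (by linarith only [e2])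
      (by linarith only [e3]) (by norm_num) (by norm_num) (by linarith only [b1]) (by linarith only [b0])
    have g'' := g' (by linarith only [b0])
    have c2' : w.im * (13 / 100) ≤ 94 / 1000 * w.re :=
      (mul_le_mul_of_nonneg_left e2 g'').trans c2
    have c3' : w.im * (15 / 100) ≤ 94 / 1000 * (65 / 100 - w.re) :=
      (mul_le_mul_of_nonneg_left e3 g'').trans c3
    have hR : C12.R1 T w.re w.im := ⟨by linarith only [a0], by linarith only [a1], by linarith only [hF], by linarith only [hM],
      by linarith only [d1], by linarith only [c1], by rcases g with g | g <;> linarith only [a1, c1, g], by linarith only [hF, c2'], by linarith only [hF, d1],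
      by linarith only [c1, c3'], by linarith only [hM, d1], fun h => by linarith only [hM, h]⟩
    exact ⟨hR, fun _ => ⟨hR, by rcases g with g | g <;> linarith only [a2, g, a1], by linarith only [c1], by linarith only [c2']⟩⟩
  case threeE =>
    have e : hpp p' .two .one .threeE Q = ⟨60 / 100, 14 / 100, 25 / 100⟩ := by
      unfold hpp hp hp1; split_ifs <;> rfl
    rw [e] at hrh hM
    simp only [cw] at a0 a1 a2 b0 b1 hrh hM
    obtain ⟨⟨c1, c2, c3⟩, ⟨d1, d2, d3⟩, g, g'⟩ := RH_bd (59 / 1000) 0 hrh (by norm_num)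
      (by norm_num) (by norm_num) (by norm_num) (by linarith only [b1]) (by linarith only [b0])
    have hR : C12.R1 T w.re w.im := ⟨by linarith only [a0], by linarith only [a1], by linarith only [hF], by linarith only [hM],
      by linarith only [d1], by linarith only [c1], by rcases g with g | g <;> linarith only [a1, c1, g], by linarith only [hF, c2], by linarith only [hF, d1],
      by linarith only [hM, c1], by linarith only [hM, d1], fun h => by linarith only [hM, h]⟩
    exact ⟨hR, fun _ => ⟨hR, by rcases g with g | g <;> linarith only [a1, a2, c1, g], by linarith only [c1], by linarith only [hF, c2]⟩⟩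
  case ring =>
    have e1 : (hpp p' .two .one .ring Q).XM = 65 / 100 := by
      unfold hpp hp hp1; split_ifs <;> rfl
    have e2 : (hpp p' .two .one .ring Q).cl = 16 / 100 := by
      unfold hpp hp hp1; split_ifs <;> rfl
    have e3 : 29 / 100 ≤ (hpp p' .two .one .ring Q).cr := by
      unfold hpp hp hp1; split_ifs <;> simp only [] <;> norm_num
    rw [e1, e2] at hrh
    rw [e1] at hM
    simp only [cw] at a0 a1 a2 b0 b1
    obtain ⟨⟨c1, c2, c3⟩, ⟨d1, d2, d3⟩, g, g'⟩ := RH_bd (145 / 1000) 0 hrh (by linarith only [])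
      (by linarith only [e3]) (by norm_num) (by norm_num) (by linarith only [b1]) (by linarith only [b0])
    have g'' := g' (by linarith only [b0])
    have c3' : w.im * (29 / 100) ≤ 145 / 1000 * (65 / 100 - w.re) :=
      (mul_le_mul_of_nonneg_left e3 g'').trans c3
    have hR : C12.R1 T w.re w.im := ⟨by linarith only [a0], by linarith only [a1], by linarith only [hF], by linarith only [hM],
      by linarith only [d1], by linarith only [c1], by rcases g with g | g <;> linarith only [a2, g, a1], by linarith only [c2], by linarith only [hF, d1],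
      by linarith only [c1, c3'], by linarith only [hM, d1], fun h => by linarith only [hM, h]⟩
    exact ⟨hR, fun h => absurd rfl h⟩

/-- the other hinge of the digit `2` -/
theorem r2_core {C Q : Cl} {p' : Fin 3} {T T' : ℝ} {w : ℂ}
    (hrh : RH w T' (hpp p' .one .two C Q).XM (hpp p' .one .two C Q).cl (hpp p' .one .two C Q).cr)
    (a0 : -(18 / 1000) ≤ T) (a1 : T ≤ 985 / 10000)
    (b0 : (hbox .two C false).t0 ≤ T') (b1 : T' ≤ (hbox .two C false).t1) (hF : 7 / 100 ≤ w.re) :
    C12.R2 T w.re w.im := by
  have hM := hrh.reM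
  cases C
  case one =>
    have e : hpp p' .one .two .one Q = ⟨80 / 100, 16 / 100, 29 / 100⟩ := by
      unfold hpp hp hp1; split_ifs <;> rfl
    rw [e] at hrh hM
    simp only [hbox] at b0 b1 hrh hM
    obtain ⟨⟨c1, c2, c3⟩, ⟨d1, d2, d3⟩, -⟩ := RH_bd (18 / 1000) (985 / 10000) hrh (by norm_num)
      (by norm_num) (by norm_num) (by norm_num) (by linarith only [b1]) (by linarith only [b0])
    exact ⟨a0, a1, hF, by linarith only [hM], by linarith only [d1], by linarith only [c1], by linarith only [hF, c2], by linarith only [hF, d2],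
      fun _ => by linarith, fun _ => by linarith only [hM, c3], by linarith only [hM, d3]⟩
  case two =>
    have e : hpp p' .one .two .two Q = ⟨60 / 100, 10 / 100, 28 / 100⟩ := by
      unfold hpp hp; split_ifs <;> rfl
    rw [e] at hrh hM
    simp only [hbox] at b0 b1 hrh hM
    obtain ⟨⟨c1, c2, c3⟩, ⟨d1, d2, d3⟩, -⟩ := RH_bd (41 / 1000) (41 / 1000) hrh (by norm_num)
      (by norm_num) (by norm_num) (by norm_num) (by linarith only [b1]) (by linarith only [b0])
    exact ⟨a0, a1, hF, by linarith only [hM], by linarith only [d1], by linarith only [c1], by linarith only [hF, c2], by linarith only [hF, d1],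
      fun _ => by linarith only [hM, c3], fun _ => by linarith, by linarith only [hM, d1]⟩
  case twoE =>
    have e : hpp p' .one .two .twoE Q = ⟨60 / 100, 10 / 100, 33 / 100⟩ := by
      unfold hpp hp; split_ifs <;> rfl
    rw [e] at hrh hM
    simp only [hbox] at b0 b1 hrh hM
    obtain ⟨⟨c1, c2, c3⟩, ⟨d1, d2, d3⟩, -⟩ := RH_bd 0 (85 / 1000) hrh (by norm_num)
      (by norm_num) (by norm_num) (by norm_num) (by linarith only [b1]) (by linarith only [b0])
    exact ⟨a0, a1, hF, by linarith only [hM], by linarith only [d1], by linarith only [c1], by linarith only [hF, c1], by linarith only [hF, d2],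
      fun _ => by linarith only [hM, c1], fun _ => by linarith only [hM, c1], by linarith only [hM, d3]⟩
  case three =>
    have e1 : (hpp p' .one .two .three Q).XM = 60 / 100 := by
      unfold hpp hp; split_ifs <;> rfl
    have e2 : 12 / 100 ≤ (hpp p' .one .two .three Q).cl := by
      unfold hpp hp; split_ifs <;> simp only [] <;> norm_num
    have e3 : 27 / 100 ≤ (hpp p' .one .two .three Q).cr := by
      unfold hpp hp; split_ifs <;> simp only [] <;> norm_num
    rw [e1] at hrh hM
    simp only [hbox] at b0 b1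
    obtain ⟨⟨c1, c2, c3⟩, ⟨d1, d2, d3⟩, -⟩ := RH_bd (57 / 1000) (5 / 1000) hrh (by linarith only [e2])
      (by linarith only [e3]) (by norm_num) (by norm_num) (by linarith only [b1]) (by linarith only [b0])
    have c2' : w.im ≤ 57 / 120 * w.re := by
      rcases le_total 0 w.im with h | h
      · have := (mul_le_mul_of_nonneg_left e2 h).trans c2
        linarith only [this]
      · linarith only [hF, h]
    have c3' : w.im ≤ 57 / 270 * (60 / 100 - w.re) := by
      rcases le_total 0 w.im with h | h
      · have := (mul_le_mul_of_nonneg_left e3 h).trans c3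
        linarith only [this]
      · linarith only [hM, h]
    have d2' : -w.im ≤ 5 / 120 * w.re := by
      rcases le_total 0 (-w.im) with h | h
      · have := (mul_le_mul_of_nonneg_left e2 h).trans d2
        linarith only [this]
      · linarith only [hF, d1, h]
    have d3' : -w.im ≤ 5 / 270 * (60 / 100 - w.re) := by
      rcases le_total 0 (-w.im) with h | h
      · have := (mul_le_mul_of_nonneg_left e3 h).trans d3
        linarith only [this]
      · linarith only [hM, h]
    exact ⟨a0, a1, hF, by linarith only [hM], by linarith only [d1], by linarith only [c1], by linarith only [hF, c2'], by linarith only [hF, d1],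
      fun _ => by linarith only [hM, c3'], fun _ => by linarith, by linarith only [hM, d1]⟩
  case threeE =>
    have e : hpp p' .one .two .threeE Q = ⟨60 / 100, 10 / 100, 30 / 100⟩ := by
      unfold hpp hp; split_ifs <;> rfl
    rw [e] at hrh hM
    simp only [hbox] at b0 b1 hrh hM
    obtain ⟨⟨c1, c2, c3⟩, ⟨d1, d2, d3⟩, -⟩ := RH_bd (26 / 1000) (13 / 1000) hrh (by norm_num)
      (by norm_num) (by norm_num) (by norm_num) (by linarith only [b1]) (by linarith only [b0])
    exact ⟨a0, a1, hF, by linarith only [hM], by linarith only [d1], by linarith only [c1], by linarith only [hF, c2], by linarith only [hF, d1],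
      fun _ => by linarith only [hM, c3], fun _ => by linarith, by linarith only [hM, d1]⟩
  case ring =>
    have e : hpp p' .one .two .ring Q = ⟨60 / 100, 125 / 1000, 30 / 100⟩ := by
      unfold hpp hp; split_ifs <;> rfl
    rw [e] at hrh hM
    simp only [hbox] at b0 b1 hrh hM
    obtain ⟨⟨c1, c2, c3⟩, ⟨d1, d2, d3⟩, -⟩ := RH_bd (96 / 1000) 0 hrh (by norm_num)
      (by norm_num) (by norm_num) (by norm_num) (by linarith only [b1]) (by linarith only [b0])
    exact ⟨a0, a1, hF, by linarith only [hM], by linarith only [d1], by linarith only [c1], by linarith only [c2], by linarith only [hF, d1],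
      fun _ => by linarith only [c3], fun _ => by linarith, by linarith only [hM, d1]⟩

variable {M : ℕ} {b : Fin (M + 1) → ℤ} {zs : DD (tyW b) ⊕ ZZ (tyW b) → ℂ}
variable {y : DD (tyW b) ⊕ ZZ (tyW b) → ℝ}
variable {h h' : Fin M} {i j j' : Fin (M + 1)} {p : Fin 3}

theorem Adj.OY_Yw (A : Adj h i p j) : OY b zs y i p = Yw b zs y i p := by
  rcases A.slot with h0 | h0
  · rw [h0]; exact OY_zero _
  · rw [h0]; exact OY_two _

theorem OY_endOk1 (i : Fin (M + 1)) : EndOk i (OY b zs y i) := Ow_endOk _ i

/-- the total gain of a value move at a hinge `1 | 2` is not positive at a maximiser -/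
theorem gain_12 (hb : ClassW b) (hy : Mx b zs y) (A : Adj h i p j) (A' : Adj h' i p.rev j')
    (hi : clsW b i = .one) (hj : clsW b j = .two) {c : ℝ} (h0 : 16 / 100 ≤ c) (h1 : c ≤ 51 / 100)
    (hcl : wcl b h = 16 / 100) (hcr : wcr b h = 29 / 100) (hXM : wXM b h = 80 / 100)
    {T : ℝ} (hT : ofs (b i) (zs (.inl (.inl h))).im = T)
    (him : (Yw b zs y i p).im = C12.tt T (y (.inl (.inl h)))) :
    C12.gn1 c (y (.inl (.inl h))) T (Yw b zs y i p.rev).re (Yw b zs y i p.rev).im +
      C12.gn2 c (y (.inl (.inl h))) T (Yw b zs y j p).re (Yw b zs y j p).im ≤ 0 := by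
  have hop := A.opp hb (Or.inl (by rw [hi]; decide))
  have hv := val_hinge hb hy A (c := c) (by linarith only [h0]) (by rw [hXM]; linarith only [h1])
  have hpp : p.rev.rev = p := Fin.rev_rev p
  rw [dV_one hb A hi, dV_two hb A.symm (Or.inl hj) (OY_endOk1 j), A.OY_Yw, A.symm.OY_Yw, A'.OY_Yw,
    pw_flat _ _ (by rw [hcl]; exact h0) (by rw [hXM, hcr]; linarith only [h1]),
    pw_flat _ _ (by rw [hcl]; exact h0) (by rw [hXM, hcr]; linarith only [h1]), hpp, ofs_opp hop, hT,
    A.conj hop] at hv
  have e : OY b zs y j p = Yw b zs y j p := by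
    rcases A.slot with h0 | h0
    · rw [h0]; exact OY_zero _
    · rw [h0]; exact OY_two _
  rw [e, V1_gain, V2_gain, him, A.re] at hv
  unfold C12.gn1 C12.gn2
  exact hv

/-- **Caps of the hinges `1 | 2`**: `.535`; `.56` if the other neighbour of the digit `1` is a
ring. -/
theorem cap12 (hb : ClassW b) (hL : Loc b zs) (hX : LocX b zs) (hy : Mx b zs y)
    (hpos : ∀ h : Fin M, 0 < y (.inl (.inl h)))
    (hF : ∀ h : Fin M, 7 / 100 ≤ y (.inl (.inl h)))
    (h11 : ∀ {h : Fin M} {i j : Fin (M + 1)} {p : Fin 3}, Adj h i p j → clsW b i = .one →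
      clsW b j = .one → y (.inl (.inl h)) ≤ 70 / 100)
    (A : Adj h i p j) (A' : Adj h' i p.rev j') (hi : clsW b i = .one) (hj : clsW b j = .two) :
    y (.inl (.inl h)) ≤ 56 / 100 ∧ (clsW b j' ≠ .ring → y (.inl (.inl h)) ≤ 535 / 1000) := by
  have hpp : p.rev.rev = p := Fin.rev_rev p
  have hop := A.opp hb (Or.inl (by rw [hi]; decide))
  have hpar : ∀ P Q, SR.hpp p P .one .two Q = ⟨80 / 100, 16 / 100, 29 / 100⟩ := by
    intro P Q
    unfold SR.hpp hp hp1
    split_ifs <;> rfl
  have hcl : wcl b h = 16 / 100 := by rw [A.cl_eq b, hi, hj, hpar]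
  have hcr : wcr b h = 29 / 100 := by rw [A.cr_eq b, hi, hj, hpar]
  have hXM : wXM b h = 80 / 100 := by rw [A.XM_eq b, hi, hj, hpar]
  set x := y (.inl (.inl h)) with hx
  -- the partner of the digit 1
  have A2 : Adj h i p.rev.rev j := by rw [hpp]; exact A
  obtain ⟨a0, a1, -, a3⟩ := hX.win A A' hi
  obtain ⟨b0, b1, -, -⟩ := hX.win A' A2 hi
  rw [hj] at a0 a1 a3 b0 b1
  have hrh' := A'.rh hy
  rw [A'.XM_eq b, A'.cl_eq b, A'.cr_eq b, A2.oc_eq b, hi, hj] at hrh'
  obtain ⟨hR1, hR1P⟩ := r1_core hrh' a0 a1 a3 b0 b1 (by rw [A'.re]; exact hF h')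
    (fun hc => by rw [A'.re]; exact h11 A' hi hc)
  -- the partner of the digit 2
  obtain ⟨h2, j2, B0⟩ := A.symm.other' b (clsW_inner hb (Or.inr (Or.inl hj)))
  rw [hpp] at B0
  have hopB := B0.opp hb (Or.inl (by rw [hj]; decide))
  obtain ⟨-, -, c0, c1⟩ := B0.box hb hL
  rw [hj, B0.ss hopB] at c0 c1
  have hrh2 := B0.rh hy
  rw [B0.XM_eq b, B0.cl_eq b, B0.cr_eq b, A.symm.oc_eq b, hi, hj] at hrh2
  obtain ⟨-, -, T0, T1⟩ := A.box hb hL
  rw [hi, hj, A.ss hop] at T0 T1
  simp only [hbox] at T0 T1
  have hR2 := r2_core (T := ofs (b i) (zs (.inl (.inl h))).im) hrh2 T0 T1 c0 c1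
    (by rw [B0.re]; exact hF h2)
  -- the hinge
  have hrh := A.rh hy
  rw [hXM, hcl, hcr] at hrh
  set T := ofs (b i) (zs (.inl (.inl h))).im with hT
  have hxM : x ≤ 80 / 100 := by
    have := hrh.reM
    rwa [A.re] at this
  have him : 51 / 100 ≤ x → (Yw b zs y i p).im = C12.tt T x := by
    intro h51
    have := MR.RH_right hrh (by norm_num) (by norm_num) (by norm_num)
      (by rw [A.re]; linarith only [h51])
    rw [this, A.re]
    unfold C12.tt
    rw [← hx]
    ring
  have hgain : 51 / 100 ≤ x → ∀ c : ℝ, 16 / 100 ≤ c → c ≤ 51 / 100 →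
      C12.gn1 c x T (Yw b zs y i p.rev).re (Yw b zs y i p.rev).im +
      C12.gn2 c x T (Yw b zs y j p).re (Yw b zs y j p).im ≤ 0 := fun h51 c h0 h1 =>
    gain_12 hb hy A A' hi hj h0 h1 hcl hcr hXM rfl (him h51)
  have hD : ∀ f : ℝ, 51 / 100 < x → x + (Yw b zs y i p.rev).re ≤ 97 / 100 →
      x + (Yw b zs y j p).re ≤ 97 / 100 →
      MR.s1 (C12.mm T) x (C12.tt T x) (Yw b zs y i p.rev).re (Yw b zs y i p.rev).im < f →
      MR.s2 (-C12.mm T) x (-C12.tt T x) (Yw b zs y j p).re (Yw b zs y j p).im < -f → False := by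
    intro f h51 u1 u2 d1 d2
    have hx0 := hR1.x0
    have hx0' := hR2.x0
    have hsl := ofs_slL_ramp (b := b) (zs := zs) (y := y) (h := h) (b i) (by rw [hXM, hcr]; linarith only [h51])
    have hm : ofs (b i) (slL b zs y h) = C12.mm T := by
      rw [hsl, hcr]
      unfold C12.mm
      ring
    have hre := A.re (zs := zs) (y := y)
    have e1 : Sw b zs y i p (slL b zs y h) =
        MR.s1 (C12.mm T) x (C12.tt T x) (Yw b zs y i p.rev).re (Yw b zs y i p.rev).im := by
      rw [A.side_one hb hi, hm, MR.S1_eq, him h51.le, hre]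
      · constructor <;> rw [hre] <;> linarith only [h51, hxM]
      · constructor <;> rw [Complex.add_re, hre] <;> linarith only [h51, hx0, u1]
    have hc := A.conj (zs := zs) (y := y) hop
    have hcre : (Yw b zs y j p.rev).re = x := by rw [hc, Complex.conj_re, hre]
    have e2 : Sw b zs y j p.rev (slL b zs y h) =
        MR.s2 (-C12.mm T) x (-C12.tt T x) (Yw b zs y j p).re (Yw b zs y j p).im := by
      rw [A.symm.side_two hb (Or.inl hj), hpp, MR.S2_eq, hcre, ofs_opp hop, hm]
      · rw [hc, Complex.conj_im, him h51.le]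
      · constructor <;> rw [hcre] <;> linarith only [h51, hxM]
      · constructor <;> rw [Complex.add_re, hcre] <;> linarith only [h51, hx0', u2]
    exact rstep_false hb hy (hpos h) (RStep.of_adj A (c := 0) (fun h => absurd h (by omega))
      (e1 := Sw b zs y i p (slL b zs y h)) (e2 := Sw b zs y j p.rev (slL b zs y h))
      (by rw [e1, e2]; linarith only [d1, d2]) (by linarith only []) (by linarith only []))
  have hFG : 535 / 1000 ≤ x → x ≤ 75 / 100 → C12.F1 x T ≤ C12.G1 x T := by
    intro q0 q1
    unfold C12.F1 C12.G1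
    have q2 := hR1.T0
    have q3 := hR1.T1
    nlinarith only [T1, q1, q0, T0, mul_nonneg (by linarith only [q0] : 0 ≤ x - 535 / 1000) (by linarith only [q1] : 0 ≤ 75 / 100 - x),
      mul_nonneg (by linarith only [q0] : 0 ≤ x - 535 / 1000) (by linarith only [T0] : 0 ≤ T + 18 / 1000)]
  have main : 56 / 100 < x → False := by
    intro hx56
    rcases le_total x (75 / 100) with h75 | h75
    · have hg := hgain (by linarith only [hx56]) (40 / 100) (by norm_num) (by norm_num)
      have hFG' := hFG (by linarith only [hx56]) h75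
      rcases le_total (x + (Yw b zs y i p.rev).re) (97 / 100) with u1 | u1
      · rcases le_total (x + (Yw b zs y j p).re) (97 / 100) with u2 | u2
        · exact hD (C12.fZ x T) (by linarith only [hx56]) u1 u2 (C12.s1_lt_fZ hx56.le h75 hR1 u1)
            (C12.s2_lt_fZ hx56.le h75 hR2 u2)
        · have k1 := C12.V1lo hx56.le h75 hR1 u1
          have k2 := C12.V2hi (by linarith only [hx56]) h75 hR2 u2
          linarith only [hg, k1, k2]
      · have k1 := C12.V1hi hx56.le h75 hR1 u1
        rcases le_total (x + (Yw b zs y j p).re) (97 / 100) with u2 | u2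
        · have k2 := C12.V2lo (by linarith only [hx56]) h75 hR2 u2
          linarith only [hg, k1, k2]
        · have k2 := C12.V2hi (by linarith only [hx56]) h75 hR2 u2
          linarith only [hg, hFG', k1, k2]
    · have hg := hgain (by linarith only [hx56]) (44 / 100) (by norm_num) (by norm_num)
      have k1 := C12.W1 h75 hxM hR1
      have k2 := C12.W2 h75 hxM hR2
      linarith only [hg, k1, k2]
  refine ⟨not_lt.1 main, fun hP => not_lt.1 fun hx535 => ?_⟩
  have hR1P := hR1P hP
  have h56 := not_lt.1 main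
  have hg := hgain (by linarith only [hx535]) (40 / 100) (by norm_num) (by norm_num)
  have hFG' := hFG hx535.le (by linarith only [h56])
  rcases le_total (x + (Yw b zs y i p.rev).re) (97 / 100) with u1 | u1
  · rcases le_total (x + (Yw b zs y j p).re) (97 / 100) with u2 | u2
    · exact hD (C12.fP x T) (by linarith only [hx535]) u1 u2 (C12.s1_lt_fP hx535.le h56 hR1P u1)
        (C12.s2_lt_fP hx535.le h56 hR2 u2)
    · have k1 := C12.V1loP hx535.le h56 hR1P u1
      have k2 := C12.V2hi hx535.le (by linarith only [h56]) hR2 u2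
      linarith only [hg, k1, k2]
  · have k1 := C12.V1hiP hx535.le h56 hR1P u1
    rcases le_total (x + (Yw b zs y j p).re) (97 / 100) with u2 | u2
    · have k2 := C12.V2lo hx535.le (by linarith only [h56]) hR2 u2
      linarith only [hg, k1, k2]
    · have k2 := C12.V2hi hx535.le (by linarith only [h56]) hR2 u2
      linarith only [hg, hFG', k1, k2]

end SR

end Pool.Agent.Work.MP_b30479_gtS.G2

end

section

/-!
# The hinge `1 | 2`: the caps `.51` (ramp) and `.495` (flat part)
-/

set_option linter.unusedSimpArgs false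

set_option deprecated.oldSectionVars true

namespace Pool.Agent.Work.MP_b30479_gtS.G2

open Finset VOL Filter Topology NumUs

namespace C12

section
open NumIs NumIs.E

theorem kr_12_2 : MR.Kr (12 / 100) (2 / 10) (45 / 100) := by
  have h : chk [sub (exp (q 90 100)) (sub (mul (q 2 1) (cosh (mul pi (q 4 10))))
      (mul (q 2 1) (cosPi (q 24 100))))] 1 [V.of 1 0 0] = true := by decide +kernel
  have hp := pos_of_chk (chk1 h (by norm_num) (x := 0) (by norm_num) (by norm_num))
  unfold MR.Kr
  simp only [NumIs.E.val] at hp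
  norm_num at hp ⊢
  linarith only [hp]

end

theorem YY_np {u : ℂ} (h1 : 1 / 2 ≤ u.re) (h : u.im ≤ 0) : YY u ≤ 0 := by
  rcases h.lt_or_eq with h | h
  · rw [YY_neg h]
    have := Tr_mono (s := -u.im) (by linarith only [h]) h1
    rw [Tr_half (by linarith only [h])] at this
    linarith only [this]
  · rw [YY_zero h]

theorem S2_r {w v : ℂ} {m r c : ℝ} (hw0 : 0 < w.re) (hw : w.re < 1)
    (hL : LL (w + v) ≤ c) (hY : m * YY (w + v) ≤ m * (r * Real.pi)) :
    S2 1 m w v ≤ MR.n2 c r m w.re w.im v.re v.im := by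
  unfold S2 MR.n2
  rw [Num.LL_lnA ⟨hw0, hw⟩, Num.YY_lnB ⟨hw0, hw⟩]
  linarith only [hL, hY]

/-- the other hinge of the digit `2` if the other neighbour is not a `1`; `a`, `c`: floor and
height if it is a ring -/
structure Q2 (a c : ℝ) (x' t' : ℝ) : Prop where
  x1 : x' ≤ 36 / 100
  t0 : -(85 / 1000) ≤ t'
  h : (10 / 100 ≤ x' ∧ t' ≤ 41 / 1000) ∨ (12 / 100 ≤ x' ∧ t' ≤ 57 / 1000) ∨ (a ≤ x' ∧ t' ≤ c)

/-- the other hinge of the digit `2` if the other neighbour is a `1` -/
structure Q21 (x' t' : ℝ) : Prop where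
  x0 : 16 / 100 ≤ x'
  x1 : x' ≤ 56 / 100
  t0 : -(985 / 10000) ≤ t'
  t1 : t' ≤ 18 / 1000

theorem s2_rP {x T x' t' : ℝ} (h0 : 51 / 100 ≤ x) (h1 : x ≤ 56 / 100) (T0 : -(18 / 1000) ≤ T)
    (T1 : T ≤ 985 / 10000) (Q : Q2 (125 / 1000) (96 / 1000) x' t') :
    MR.s2 (-mm T) x (-tt T x) x' t' < -(3965 / 10000 + 76 / 10 * T) := by
  obtain ⟨x1, t0, h⟩ := Q
  have ex0 : 10 / 100 ≤ x' := by rcases h with ⟨h, -⟩ | ⟨h, -⟩ | ⟨h, -⟩ <;> linarith only [h]
  have et : t' ≤ 96 / 1000 := by rcases h with ⟨-, h⟩ | ⟨-, h⟩ | ⟨-, h⟩ <;> linarith only [h]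
  rcases le_total x' (125 / 1000) with hx | hx
  · by_cases ht : t' ≤ 57 / 1000
    · have := rP2a (x := x) (T := T) (s := x') (k := t') (by linarith only [h0]) (by linarith only [h1]) (by linarith only [T0])
        (by linarith only [T1]) (by linarith only [ex0]) (by linarith only [hx]) (by linarith only [t0]) (by linarith only [ht])
      linarith only [this]
    · have hx' : 125 / 1000 ≤ x' := by
        rcases h with ⟨-, h⟩ | ⟨-, h⟩ | ⟨h, -⟩ <;> linarith only [ht, h]
      have := rP2b (x := x) (T := T) (s := x') (k := t') (by linarith only [h0]) (by linarith only [h1]) (by linarith only [T0])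
        (by linarith only [T1]) (by linarith only [hx']) (by linarith only [hx]) (by linarith only [ht]) (by linarith only [et])
      linarith only [this]
  · have := rP2b (x := x) (T := T) (s := x') (k := t') (by linarith only [h0]) (by linarith only [h1]) (by linarith only [T0])
      (by linarith only [T1]) (by linarith only [hx]) (by linarith only [x1]) (by linarith only [t0]) (by linarith only [et])
    linarith only [this]

theorem s2_rZ {x T x' t' : ℝ} (h0 : 51 / 100 ≤ x) (h1 : x ≤ 56 / 100) (T0 : -(8 / 1000) ≤ T)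
    (T1 : T ≤ 80 / 1000) (Q : Q2 (125 / 1000) (60 / 1000) x' t') :
    MR.s2 (-mm T) x (-tt T x) x' t' < -(536 / 1000 + 77 / 10 * T) := by
  obtain ⟨x1, t0, h⟩ := Q
  have ex0 : 10 / 100 ≤ x' := by rcases h with ⟨h, -⟩ | ⟨h, -⟩ | ⟨h, -⟩ <;> linarith only [h]
  have et : t' ≤ 60 / 1000 := by rcases h with ⟨-, h⟩ | ⟨-, h⟩ | ⟨-, h⟩ <;> linarith only [h]
  by_cases hx : 120 / 1000 ≤ x'
  · have := rZ2b (x := x) (T := T) (s := x') (k := t') (by linarith only [h0]) (by linarith only [h1]) (by linarith only [T0])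
      (by linarith only [T1]) (by linarith only [hx]) (by linarith only [x1]) (by linarith only [t0]) (by linarith only [et])
    linarith only [this]
  · have ht : t' ≤ 41 / 1000 := by
      rcases h with ⟨-, h⟩ | ⟨h, -⟩ | ⟨h, -⟩ <;> linarith only [h, hx, ex0]
    have := rZ2a (x := x) (T := T) (s := x') (k := t') (by linarith only [h0]) (by linarith only [h1]) (by linarith only [T0])
      (by linarith only [T1]) (by linarith only [ex0]) (by linarith only [hx]) (by linarith only [t0]) (by linarith only [ht])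
    linarith only [this]

theorem s2_fP {x T x' t' : ℝ} (h0 : 495 / 1000 ≤ x) (h1 : x ≤ 51 / 100) (T0 : -(18 / 1000) ≤ T)
    (T1 : T ≤ 985 / 10000) (Q : Q2 (155 / 1000) (96 / 1000) x' t') :
    MR.s2 0 x (-T) x' t' < -(419 / 1000 - 3 / 2 * T) := by
  obtain ⟨x1, t0, h⟩ := Q
  have ex0 : 10 / 100 ≤ x' := by rcases h with ⟨h, -⟩ | ⟨h, -⟩ | ⟨h, -⟩ <;> linarith only [h]
  have et : t' ≤ 96 / 1000 := by rcases h with ⟨-, h⟩ | ⟨-, h⟩ | ⟨-, h⟩ <;> linarith only [h]
  by_cases hx : 155 / 1000 ≤ x'
  · have := fP2b (x := x) (T := T) (s := x') (k := t') (by linarith only [h0]) (by linarith only [h1]) (by linarith only [T0])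
      (by linarith only [T1]) (by linarith only [hx]) (by linarith only [x1]) (by linarith only [t0]) (by linarith only [et])
    linarith only [this]
  · have ht : t' ≤ 57 / 1000 := by
      rcases h with ⟨-, h⟩ | ⟨-, h⟩ | ⟨h, -⟩ <;> linarith only [h, hx]
    have := fP2a (x := x) (T := T) (s := x') (k := t') (by linarith only [h0]) (by linarith only [h1]) (by linarith only [T0])
      (by linarith only [T1]) (by linarith only [ex0]) (by linarith only [hx]) (by linarith only [t0]) (by linarith only [ht])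
    linarith only [this]

theorem s2_fZ {x T x' t' : ℝ} (h0 : 495 / 1000 ≤ x) (h1 : x ≤ 51 / 100) (T0 : -(8 / 1000) ≤ T)
    (T1 : T ≤ 80 / 1000) (Q : Q2 (165 / 1000) (60 / 1000) x' t') :
    MR.s2 0 x (-T) x' t' < -(535 / 1000 - 2 * T) := by
  obtain ⟨x1, t0, h⟩ := Q
  have ex0 : 10 / 100 ≤ x' := by rcases h with ⟨h, -⟩ | ⟨h, -⟩ | ⟨h, -⟩ <;> linarith only [h]
  have et : t' ≤ 60 / 1000 := by rcases h with ⟨-, h⟩ | ⟨-, h⟩ | ⟨-, h⟩ <;> linarith only [h]
  by_cases hx : 165 / 1000 ≤ x'
  · have := fZ2c (x := x) (T := T) (s := x') (k := t') (by linarith only [h0]) (by linarith only [h1]) (by linarith only [T0])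
      (by linarith only [T1]) (by linarith only [hx]) (by linarith only [x1]) (by linarith only [t0]) (by linarith only [et])
    linarith only [this]
  · have ht : t' ≤ 57 / 1000 := by
      rcases h with ⟨-, h⟩ | ⟨-, h⟩ | ⟨h, -⟩ <;> linarith only [h, hx]
    by_cases hx' : 120 / 1000 ≤ x'
    · have := fZ2b (x := x) (T := T) (s := x') (k := t') (by linarith only [h0]) (by linarith only [h1]) (by linarith only [T0])
        (by linarith only [T1]) (by linarith only [hx']) (by linarith only [hx]) (by linarith only [t0]) (by linarith only [ht])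
      linarith only [this]
    · have ht : t' ≤ 41 / 1000 := by
        rcases h with ⟨-, h⟩ | ⟨h, -⟩ | ⟨h, -⟩ <;> linarith only [h, hx', ex0]
      have := fZ2a (x := x) (T := T) (s := x') (k := t') (by linarith only [h0]) (by linarith only [h1]) (by linarith only [T0])
        (by linarith only [T1]) (by linarith only [ex0]) (by linarith only [hx']) (by linarith only [t0]) (by linarith only [ht])
      linarith only [this]

theorem tt_bd {x T : ℝ} (h0 : 51 / 100 ≤ x) (h1 : x ≤ 56 / 100) :
    (T ≤ 0 → T ≤ tt T x ∧ tt T x ≤ 0) ∧ (0 ≤ T → 0 ≤ tt T x ∧ tt T x ≤ T) := by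
  have b1 : 0 ≤ 100 / 29 * (8 / 10 - x) := by linarith only [h1]
  have b2 : 100 / 29 * (8 / 10 - x) ≤ 1 := by linarith only [h0]
  unfold tt
  refine ⟨fun h => ⟨by nlinarith only [h0, h], by nlinarith only [h, h1]⟩, fun h => ⟨by nlinarith only [h, h1], by nlinarith only [h0, h]⟩⟩

/-- `1 2 1`: the side of the digit `2` on the ramp -/
theorem S2_r1 {T : ℝ} {w v : ℂ} (T0 : -(18 / 1000) ≤ T) (T1 : T ≤ 985 / 10000)
    (h0 : 51 / 100 ≤ w.re) (h1 : w.re ≤ 56 / 100) (him : w.im = -tt T w.re)
    (Q : Q21 v.re v.im) : S2 1 (-mm T) w v < -(536 / 1000 + 77 / 10 * T) := by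
  obtain ⟨x0, x1, t0, t1⟩ := Q
  have hw0 : 0 < w.re := by linarith only [h0]
  have hw1 : w.re < 1 := by linarith only [h1, hw0]
  obtain ⟨e1, e2⟩ := tt_bd (T := T) h0 h1
  rcases le_total (w.re + v.re) (94 / 100) with hu | hu
  · rw [MR.S2_eq, him]
    · have := r12a (x := w.re) (T := T) (s := v.re) (k := v.im) (by linarith only [h0]) (by linarith only [h1])
        (by linarith only [T0]) (by linarith only [T1]) (by linarith only [x0]) (by linarith only [h0, hu]) (by linarith only [t0]) (by linarith only [t1])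
        (by linarith only [hu])
      linarith only [this]
    · constructor <;> linarith only [h0, hw1]
    · constructor <;> rw [Complex.add_re] <;> linarith only [h0, x0, hw1, hu]
  · have hre : |(w + v).re - 1| ≤ 12 / 100 := by
      rw [Complex.add_re, abs_le]; constructor <;> linarith only [hu, h1, x1]
    have hY : |YY (w + v)| ≤ Real.pi :=
      MR.YY_abs_pi (by rw [Complex.add_re]; linarith only [hu]) (by rw [Complex.add_re]; linarith only [h1, x1, hw1])
    have hY1 := (abs_le.1 hY).1
    have hY2 := (abs_le.1 hY).2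
    have hi : (w + v).im = v.im - tt T w.re := by rw [Complex.add_im, him]; ring
    have hm : -mm T = 100 / 29 * T := by unfold mm; ring
    rcases le_total T 0 with hT | hT
    · obtain ⟨e3, e4⟩ := e1 hT
      have hL : LL (w + v) ≤ 16 / 100 := MR.LL_rect MR.kr_12_14 (by norm_num) (by norm_num) hre
        (by rw [hi, abs_le]; constructor <;> linarith only [h0, t0, hw1, e4, T0, t1, e3])
      have := S2_r (r := -1) (m := -mm T) hw0 hw1 hL (by
        rw [hm]
        nlinarith only [hT, hY1, mul_nonneg (by linarith only [hT] : 0 ≤ -T) (by linarith only [hY1] : 0 ≤ YY (w + v) + Real.pi)])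
      rw [him] at this
      have k := r12b (x := w.re) (T := T) (s := v.re) (k := v.im) (by linarith only [h0]) (by linarith only [h1])
        (by linarith only [T0]) (by linarith only [hT]) (by linarith only [h1, hu]) (by linarith only [x1]) (by linarith only [t0]) (by linarith only [t1])
        (by linarith only [hu])
      linarith only [this, k]
    · obtain ⟨e3, e4⟩ := e2 hT
      rcases le_total v.im (tt T w.re) with hk | hk
      · have hYn : YY (w + v) ≤ 0 := YY_np (by rw [Complex.add_re]; linarith only [hu]) (by rw [hi]; linarith only [hk])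
        have hYm : -mm T * YY (w + v) ≤ -mm T * (0 * Real.pi) := by
          rw [hm]
          nlinarith only [hT, hYn, mul_nonneg hT (by linarith only [hYn] : 0 ≤ -YY (w + v))]
        rcases le_total (tt T w.re - v.im) (14 / 100) with hk' | hk'
        · have hL : LL (w + v) ≤ 16 / 100 := MR.LL_rect MR.kr_12_14 (by norm_num) (by norm_num) hre
            (by rw [hi, abs_le]; constructor <;> linarith only [hk', h0, t1, hw1, e3])
          have := S2_r (r := 0) (m := -mm T) hw0 hw1 hL hYm
          rw [him] at this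
          have k := r12c (x := w.re) (T := T) (s := v.re) (k := v.im) (by linarith only [h0]) (by linarith only [h1])
            (by linarith only [hT]) (by linarith only [T1]) (by linarith only [h1, hu]) (by linarith only [x1]) (by linarith only [t0]) (by linarith only [t1])
            (by linarith only [hu]) (by linarith only [hk]) (by linarith only [hk'])
          linarith only [this, k]
        · have hL : LL (w + v) ≤ 45 / 100 := MR.LL_rect kr_12_2 (by norm_num) (by norm_num) hre
            (by rw [hi, abs_le]; constructor <;> linarith only [T1, h0, t0, hw1, e4, hk'])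
          have := S2_r (r := 0) (m := -mm T) hw0 hw1 hL hYm
          rw [him] at this
          have k := r12e (x := w.re) (T := T) (s := v.re) (k := v.im) (by linarith only [h0]) (by linarith only [h1])
            (by linarith only [h0, t0, hw1, e4, hk']) (by linarith only [T1]) (by linarith only [h1, hu]) (by linarith only [x1]) (by linarith only [t0]) (by linarith only [T1, h0, hw1, e4, hk'])
            (by linarith only [hu]) (by linarith only [hk'])
          linarith only [this, k]
      · have hL : LL (w + v) ≤ 16 / 100 := MR.LL_rect MR.kr_12_14 (by norm_num) (by norm_num) hre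
          (by rw [hi, abs_le]; constructor <;> linarith only [h0, hw1, hk, t1, e3])
        have := S2_r (r := 1) (m := -mm T) hw0 hw1 hL (by
          rw [hm]
          nlinarith only [hT, hY2, mul_nonneg hT (by linarith only [hY2] : 0 ≤ Real.pi - YY (w + v))])
        rw [him] at this
        have k := r12d (x := w.re) (T := T) (s := v.re) (k := v.im) (by linarith only [h0]) (by linarith only [h1])
          (by linarith only [hT]) (by linarith only [T1]) (by linarith only [h1, hu]) (by linarith only [x1]) (by linarith only [h0, hw1, e3, hk]) (by linarith only [t1])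
          (by linarith only [hu]) (by linarith only [hk])
        linarith only [this, k]

/-- `1 2 1`: the side of the digit `2` on the flat part -/
theorem S2_f1 {T : ℝ} {w v : ℂ} (T0 : -(18 / 1000) ≤ T) (T1 : T ≤ 985 / 10000)
    (h0 : 495 / 1000 ≤ w.re) (h1 : w.re ≤ 51 / 100) (him : w.im = -T)
    (Q : Q21 v.re v.im) : S2 1 0 w v < -(535 / 1000 - 2 * T) := by
  obtain ⟨x0, x1, t0, t1⟩ := Q
  have hw0 : 0 < w.re := by linarith only [h0]
  have hw1 : w.re < 1 := by linarith only [h1, hw0]
  rcases le_total (w.re + v.re) (94 / 100) with hu | hu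
  · rw [MR.S2_eq, him]
    · have := f12a (x := w.re) (T := T) (s := v.re) (k := v.im) (by linarith only [h0]) (by linarith only [h1])
        (by linarith only [T0]) (by linarith only [T1]) (by linarith only [x0]) (by linarith only [h0, hu]) (by linarith only [t0]) (by linarith only [t1])
        (by linarith only [hu])
      linarith only [this]
    · constructor <;> linarith only [hw0, h1]
    · constructor <;> rw [Complex.add_re] <;> linarith only [x0, hw0, hw1, hu]
  · have hL : LL (w + v) ≤ 45 / 100 := MR.LL_rect kr_12_2 (by norm_num) (by norm_num)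
      (by rw [Complex.add_re, abs_le]; constructor <;> linarith only [hw0, hw1, hu, h1, x1])
      (by rw [Complex.add_im, him, abs_le]; constructor <;> linarith only [T1, t0, hw0, hw1, T0, t1])
    have := S2_r (r := 0) (m := 0) hw0 hw1 hL (by linarith only [])
    rw [him] at this
    have k := f12b (x := w.re) (T := T) (s := v.re) (k := v.im) (by linarith only [h0]) (by linarith only [h1])
      (by linarith only [T0]) (by linarith only [T1]) (by linarith only [h1, hu]) (by linarith only [x1]) (by linarith only [t0]) (by linarith only [t1])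
      (by linarith only [hu])
    linarith only [this, k]

end C12

namespace SR

/-- the other hinge of the digit `1`, ring -/
theorem z1_core {Q : Cl} {p' : Fin 3} {T T' : ℝ} {w : ℂ}
    (hrh : RH w T' (hpp p' .two .one .ring Q).XM (hpp p' .two .one .ring Q).cl
      (hpp p' .two .one .ring Q).cr)
    (a2 : T + T' ≤ (cw .ring .two).s1)
    (b0 : (cw .two .ring).t0 ≤ T') (b1 : T' ≤ (cw .two .ring).t1) :
    0 ≤ w.im ∧ w.im ≤ 145 / 1000 ∧ T + w.im ≤ 187 / 1000 ∧ w.im ≤ 907 / 1000 * w.re ∧
      16 / 100 * w.im ≤ (187 / 1000 - T) * w.re ∧ w.im ≤ T' := by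
  have hM := hrh.reM
  have h0 := hrh.re0
  have e1 : (hpp p' .two .one .ring Q).XM = 65 / 100 := by
    unfold hpp hp hp1; split_ifs <;> rfl
  have e2 : (hpp p' .two .one .ring Q).cl = 16 / 100 := by
    unfold hpp hp hp1; split_ifs <;> rfl
  have e3 : 29 / 100 ≤ (hpp p' .two .one .ring Q).cr := by
    unfold hpp hp hp1; split_ifs <;> simp only [] <;> norm_num
  rw [e1, e2] at hrh
  rw [e1] at hM
  simp only [cw] at a2 b0 b1
  obtain ⟨⟨c1, c2, c3⟩, -, g, g'⟩ := RH_bd (145 / 1000) 0 hrh (by linarith only [])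
    (by linarith only [e3]) (by norm_num) (by norm_num) (by linarith only [b1]) (by linarith only [b0])
  obtain ⟨⟨d1, d2, d3⟩, -⟩ := RH_bd (187 / 1000 - T) 0 hrh (by linarith only [])
    (by linarith only [e3]) (by linarith only [a2, b0]) (by norm_num) (by linarith only [a2]) (by linarith only [b0])
  have g'' := g' (by linarith only [b0])
  exact ⟨g'', c1, by linarith only [d1], by linarith only [h0, c2], by linarith only [d2], by rcases g with g | g <;> linarith only [g, b0]⟩

/-- the other hinge of the digit `2`, not `1` -/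
theorem q2_core {C Q : Cl} {p' q : Fin 3} {T' a c : ℝ} {w : ℂ}
    (hrh : RH w T' (hpp p' .one .two C Q).XM (hpp p' .one .two C Q).cl (hpp p' .one .two C Q).cr)
    (b0 : (hbox .two C false).t0 ≤ T') (b1 : T' ≤ (hbox .two C false).t1)
    (hF : F2 q .two C ≤ w.re) (hx1 : w.re ≤ 36 / 100) (hc : C ≠ .one)
    (hZ : C = .ring → a ≤ w.re ∧ T' ≤ c) : C12.Q2 a c w.re w.im := by
  cases C
  case one => exact absurd rfl hc
  case two =>
    have e : hpp p' .one .two .two Q = ⟨60 / 100, 10 / 100, 28 / 100⟩ := by
      unfold hpp hp; split_ifs <;> rfl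
    rw [e] at hrh
    simp only [hbox, F2] at b0 b1 hrh hF
    obtain ⟨⟨c1, c2, c3⟩, ⟨d1, d2, d3⟩, -⟩ := RH_bd (41 / 1000) (41 / 1000) hrh (by norm_num)
      (by norm_num) (by norm_num) (by norm_num) (by linarith only [b1]) (by linarith only [b0])
    exact ⟨hx1, by linarith only [d1], Or.inl ⟨by linarith only [hF], by linarith only [c1]⟩⟩
  case twoE =>
    have e : hpp p' .one .two .twoE Q = ⟨60 / 100, 10 / 100, 33 / 100⟩ := by
      unfold hpp hp; split_ifs <;> rfl
    rw [e] at hrh
    simp only [hbox, F2] at b0 b1 hrh hF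
    obtain ⟨⟨c1, c2, c3⟩, ⟨d1, d2, d3⟩, -⟩ := RH_bd 0 (85 / 1000) hrh (by norm_num)
      (by norm_num) (by norm_num) (by norm_num) (by linarith only [b1]) (by linarith only [b0])
    exact ⟨hx1, by linarith only [d1], Or.inl ⟨by linarith only [hF], by linarith only [c1]⟩⟩
  case three =>
    have e1 : (hpp p' .one .two .three Q).XM = 60 / 100 := by
      unfold hpp hp; split_ifs <;> rfl
    have e2 : 12 / 100 ≤ (hpp p' .one .two .three Q).cl := by
      unfold hpp hp; split_ifs <;> simp only [] <;> norm_num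
    have e3 : 27 / 100 ≤ (hpp p' .one .two .three Q).cr := by
      unfold hpp hp; split_ifs <;> simp only [] <;> norm_num
    rw [e1] at hrh
    simp only [hbox] at b0 b1
    have hF' : 120 / 1000 ≤ w.re := by
      refine le_trans ?_ hF
      simp only [F2]
      split_ifs <;> norm_num
    obtain ⟨⟨c1, c2, c3⟩, ⟨d1, d2, d3⟩, -⟩ := RH_bd (57 / 1000) (5 / 1000) hrh (by linarith only [e2])
      (by linarith only [e3]) (by norm_num) (by norm_num) (by linarith only [b1]) (by linarith only [b0])
    exact ⟨hx1, by linarith only [d1], Or.inr (Or.inl ⟨by linarith only [hF'], by linarith only [c1]⟩)⟩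
  case threeE =>
    have e : hpp p' .one .two .threeE Q = ⟨60 / 100, 10 / 100, 30 / 100⟩ := by
      unfold hpp hp; split_ifs <;> rfl
    rw [e] at hrh
    simp only [hbox, F2] at b0 b1 hrh hF
    obtain ⟨⟨c1, c2, c3⟩, ⟨d1, d2, d3⟩, -⟩ := RH_bd (26 / 1000) (13 / 1000) hrh (by norm_num)
      (by norm_num) (by norm_num) (by norm_num) (by linarith only [b1]) (by linarith only [b0])
    exact ⟨hx1, by linarith only [d1], Or.inl ⟨by linarith only [hF], by linarith only [c1]⟩⟩
  case ring =>
    have e : hpp p' .one .two .ring Q = ⟨60 / 100, 125 / 1000, 30 / 100⟩ := by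
      unfold hpp hp; split_ifs <;> rfl
    rw [e] at hrh
    simp only [hbox] at b0 b1 hrh
    obtain ⟨ha, hc⟩ := hZ rfl
    obtain ⟨⟨c1, c2, c3⟩, ⟨d1, d2, d3⟩, -⟩ := RH_bd c 0 hrh (by norm_num)
      (by norm_num) (by linarith only [b0, hc]) (by norm_num) hc (by linarith only [b0])
    exact ⟨hx1, by linarith only [d1], Or.inr (Or.inr ⟨ha, by linarith only [c1]⟩)⟩

theorem q21_core {Q : Cl} {p' q : Fin 3} {T' : ℝ} {w : ℂ}
    (hrh : RH w T' (hpp p' .one .two .one Q).XM (hpp p' .one .two .one Q).cl
      (hpp p' .one .two .one Q).cr)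
    (b0 : (hbox .two .one false).t0 ≤ T') (b1 : T' ≤ (hbox .two .one false).t1)
    (hF : F2 q .two .one ≤ w.re) (hx1 : w.re ≤ 56 / 100) : C12.Q21 w.re w.im := by
  have e : hpp p' .one .two .one Q = ⟨80 / 100, 16 / 100, 29 / 100⟩ := by
    unfold hpp hp hp1; split_ifs <;> rfl
  rw [e] at hrh
  simp only [hbox, F2] at b0 b1 hrh hF
  obtain ⟨⟨c1, c2, c3⟩, ⟨d1, d2, d3⟩, -⟩ := RH_bd (18 / 1000) (985 / 10000) hrh (by norm_num)
    (by norm_num) (by norm_num) (by norm_num) (by linarith only [b1]) (by linarith only [b0])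
  exact ⟨by linarith only [hF], hx1, by linarith only [d1], by linarith only [c1]⟩

set_option deprecated.oldSectionVars false
variable {M : ℕ} {b : Fin (M + 1) → ℤ} {zs : DD (tyW b) ⊕ ZZ (tyW b) → ℂ}
set_option deprecated.oldSectionVars false
variable {y : DD (tyW b) ⊕ ZZ (tyW b) → ℝ}
set_option deprecated.oldSectionVars false
variable {h h' : Fin M} {i j j' : Fin (M + 1)} {p : Fin 3}

/-- the other hinge of the digit `1` -/
theorem part1 (hX : LocX b zs) (hy : Mx b zs y) (hF : Flr b y F2)
    (h11 : clsW b j' = .one → y (.inl (.inl h')) ≤ 70 / 100)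
    (A : Adj h i p j) (A' : Adj h' i p.rev j') (hi : clsW b i = .one) (hj : clsW b j = .two) :
    (clsW b j' ≠ .ring → C12.R1P (ofs (b i) (zs (.inl (.inl h))).im) (Yw b zs y i p.rev).re
        (Yw b zs y i p.rev).im ∧ 130 / 1000 ≤ (Yw b zs y i p.rev).re) ∧
    (clsW b j' = .ring → -(8 / 1000) ≤ ofs (b i) (zs (.inl (.inl h))).im ∧
      ofs (b i) (zs (.inl (.inl h))).im ≤ 80 / 1000 ∧ 145 / 1000 ≤ (Yw b zs y i p.rev).re ∧
      0 ≤ (Yw b zs y i p.rev).im ∧ (Yw b zs y i p.rev).im ≤ 145 / 1000 ∧
      ofs (b i) (zs (.inl (.inl h))).im + (Yw b zs y i p.rev).im ≤ 187 / 1000 ∧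
      (Yw b zs y i p.rev).im ≤ 907 / 1000 * (Yw b zs y i p.rev).re ∧
      16 / 100 * (Yw b zs y i p.rev).im ≤
        (187 / 1000 - ofs (b i) (zs (.inl (.inl h))).im) * (Yw b zs y i p.rev).re ∧
      (Yw b zs y i p.rev).im ≤ ofs (b i) (zs (.inl (.inl h'))).im ∧
      94 / 1000 ≤ ofs (b i) (zs (.inl (.inl h))).im + ofs (b i) (zs (.inl (.inl h'))).im) := by
  have hpp : p.rev.rev = p := Fin.rev_rev p
  have A2 : Adj h i p.rev.rev j := by rw [hpp]; exact A
  obtain ⟨a0, a1, a2, a3⟩ := hX.win A A' hi
  obtain ⟨b0, b1, -, -⟩ := hX.win A' A2 hi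
  rw [hj] at a0 a1 a2 a3 b0 b1
  have hrh' := A'.rh hy
  rw [A'.XM_eq b, A'.cl_eq b, A'.cr_eq b, A2.oc_eq b, hi, hj] at hrh'
  have hF' := hF A'
  rw [hi, ← A'.re (zs := zs) (y := y)] at hF'
  refine ⟨fun hr => ⟨(r1_core hrh' a0 a1 a3 b0 b1 ?_ (fun hc => by rw [A'.re]; exact h11 hc)).2 hr,
    ?_⟩, fun hr => ?_⟩
  · refine le_trans ?_ hF'
    generalize clsW b j' = C
    cases C <;> simp only [F2] <;> (try split_ifs) <;> norm_num
  · refine le_trans ?_ hF'
    revert hr
    generalize clsW b j' = C
    cases C <;> simp only [F2] <;> (try split_ifs) <;> (try norm_num)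
  · rw [hr] at hrh' a0 a1 a2 a3 b0 b1 hF'
    obtain ⟨z0, z1, z2, z3, z4, z5⟩ := z1_core hrh' a3 b0 b1
    simp only [cw, F2] at a0 a1 a2 hF'
    exact ⟨by linarith only [a0], by linarith only [a1], by linarith only [hF'], z0, z1, z2, z3, z4, z5, by linarith only [a2]⟩

/-- the other hinge of the digit `2` -/
theorem part2 (hb : ClassW b) (hL : Loc b zs) (hy : Mx b zs y) (hF : Flr b y F2)
    (hC : ∀ {h : Fin M} {i j : Fin (M + 1)} {p : Fin 3}, Adj h i p j → clsW b i = .two →
      y (.inl (.inl h)) ≤ if clsW b j = .one then 56 / 100 else 36 / 100)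
    (A : Adj h i p j) (hi : clsW b i = .one) (hj : clsW b j = .two) :
    ∃ h2 j2, ∃ _ : Adj h2 j p j2, (clsW b j2 = .one → C12.Q21 (Yw b zs y j p).re
        (Yw b zs y j p).im) ∧
      (clsW b j2 ≠ .one → C12.Q2 (125 / 1000) (96 / 1000) (Yw b zs y j p).re
        (Yw b zs y j p).im ∧ ∀ a c : ℝ, (clsW b j2 = .ring → a ≤ y (.inl (.inl h2)) ∧
          ofs (b j) (zs (.inl (.inl h2))).im ≤ c) →
          C12.Q2 a c (Yw b zs y j p).re (Yw b zs y j p).im) := by
  have hpp : p.rev.rev = p := Fin.rev_rev p
  obtain ⟨h2, j2, B0⟩ := A.symm.other' b (clsW_inner hb (Or.inr (Or.inl hj)))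
  rw [hpp] at B0
  have hopB := B0.opp hb (Or.inl (by rw [hj]; decide))
  obtain ⟨-, -, c0, c1⟩ := B0.box hb hL
  rw [hj, B0.ss hopB] at c0 c1
  have hrh2 := B0.rh hy
  rw [B0.XM_eq b, B0.cl_eq b, B0.cr_eq b, A.symm.oc_eq b, hi, hj] at hrh2
  have hF2 := hF B0
  rw [hj, ← B0.re (zs := zs) (y := y)] at hF2
  have hC2 := hC B0 hj
  rw [← B0.re (zs := zs) (y := y)] at hC2
  refine ⟨h2, j2, B0, fun h1 => ?_, fun h1 => ?_⟩
  · rw [h1] at hrh2 c0 c1 hF2
    rw [if_pos h1] at hC2
    exact q21_core hrh2 c0 c1 hF2 hC2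
  · rw [if_neg h1] at hC2
    have key : ∀ a c : ℝ, (clsW b j2 = .ring → a ≤ (Yw b zs y j p).re ∧
        ofs (b j) (zs (.inl (.inl h2))).im ≤ c) →
        C12.Q2 a c (Yw b zs y j p).re (Yw b zs y j p).im := fun a c hac =>
      q2_core hrh2 c0 c1 hF2 hC2 h1 hac
    refine ⟨key _ _ fun hr => ?_, fun a c hac => key a c fun hr => ?_⟩
    · rw [hr] at hF2 c1
      simp only [F2, hbox] at hF2 c1
      exact ⟨by linarith only [hF2], by linarith only [c1]⟩
    · rw [B0.re]
      exact hac hr

/-- parameters of the path of a hinge `1 | 2` -/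
theorem par12 (A : Adj h i p j) (hi : clsW b i = .one) (hj : clsW b j = .two) :
    wcl b h = 16 / 100 ∧ wcr b h = 29 / 100 ∧ wXM b h = 80 / 100 := by
  have hpar : ∀ P Q, SR.hpp p P .one .two Q = ⟨80 / 100, 16 / 100, 29 / 100⟩ := by
    intro P Q
    unfold SR.hpp hp hp1
    split_ifs <;> rfl
  exact ⟨by rw [A.cl_eq b, hi, hj, hpar], by rw [A.cr_eq b, hi, hj, hpar],
    by rw [A.XM_eq b, hi, hj, hpar]⟩

/-- **Cap `.51` of the hinges `1 | 2`** (the ramp). -/
theorem cap12b (hb : ClassW b) (hL : Loc b zs) (hX : LocX b zs) (hy : Mx b zs y)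
    (hpos : ∀ h : Fin M, 0 < y (.inl (.inl h))) (hF : Flr b y F2) (hS : Sum1 b y (95 / 100))
    (hC : ∀ {h : Fin M} {i j : Fin (M + 1)} {p : Fin 3}, Adj h i p j → clsW b i = .two →
      y (.inl (.inl h)) ≤ if clsW b j = .one then 56 / 100 else 36 / 100)
    (A : Adj h i p j) (A' : Adj h' i p.rev j') (hi : clsW b i = .one) (hj : clsW b j = .two)
    (h11 : clsW b j' = .one → y (.inl (.inl h')) ≤ 70 / 100)
    (h21 : clsW b j' = .ring → ∀ {h2 : Fin M} {j2 : Fin (M + 1)}, Adj h2 j p j2 →
      clsW b j2 = .ring → ofs (b j) (zs (.inl (.inl h2))).im ≤ 60 / 1000) :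
    y (.inl (.inl h)) ≤ 51 / 100 := by
  by_contra hcon
  have h51 := not_le.1 hcon
  have hpp : p.rev.rev = p := Fin.rev_rev p
  have hop := A.opp hb (Or.inl (by rw [hi]; decide))
  obtain ⟨hcl, hcr, hXM⟩ := par12 (b := b) A hi hj
  obtain ⟨u1, u2⟩ := part1 hX hy hF h11 A A' hi hj
  obtain ⟨h2, j2, B, q1, q2⟩ := part2 hb hL hy hF hC A hi hj
  have hsum := hS A A' hi
  rw [← A'.re (zs := zs) (y := y)] at hsum
  have hx56 : y (.inl (.inl h)) ≤ 56 / 100 := by
    have := hC A.symm hj
    rwa [if_pos hi] at this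
  set x := y (.inl (.inl h)) with hx
  obtain ⟨-, -, T0, T1⟩ := A.box hb hL
  rw [hi, hj, A.ss hop] at T0 T1
  simp only [hbox] at T0 T1
  have hrh := A.rh hy
  rw [hXM, hcl, hcr] at hrh
  set T := ofs (b i) (zs (.inl (.inl h))).im with hT
  have him : (Yw b zs y i p).im = C12.tt T x := by
    have := MR.RH_right hrh (by norm_num) (by norm_num) (by norm_num)
      (by rw [A.re]; linarith only [hcon])
    rw [this, A.re]
    unfold C12.tt
    rw [← hx]
    ring
  have hsl := ofs_slL_ramp (b := b) (zs := zs) (y := y) (h := h) (b i) (by rw [hXM, hcr]; linarith only [hcon])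
  have hm : ofs (b i) (slL b zs y h) = C12.mm T := by
    rw [hsl, hcr]
    unfold C12.mm
    ring
  have hre := A.re (zs := zs) (y := y)
  have hc := A.conj (zs := zs) (y := y) hop
  have hcre : (Yw b zs y j p.rev).re = x := by rw [hc, Complex.conj_re, hre]
  have hcim : (Yw b zs y j p.rev).im = -C12.tt T x := by rw [hc, Complex.conj_im, him]
  have v0 : 130 / 1000 ≤ (Yw b zs y i p.rev).re := by
    by_cases hr : clsW b j' = .ring
    · linarith only [u2, hr, (u2 hr).2.2.1]
    · exact (u1 hr).2
  have e1 : Sw b zs y i p (slL b zs y h) =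
      MR.s1 (C12.mm T) x (C12.tt T x) (Yw b zs y i p.rev).re (Yw b zs y i p.rev).im := by
    rw [A.side_one hb hi, hm, MR.S1_eq, him, hre]
    · constructor <;> rw [hre] <;> linarith only [hcon, hx56]
    · constructor <;> rw [Complex.add_re, hre] <;> linarith only [hcon, v0, hsum]
  have e2 : Sw b zs y j p.rev (slL b zs y h) =
      S2 1 (-C12.mm T) (Yw b zs y j p.rev) (Yw b zs y j p) := by
    rw [A.symm.side_two hb (Or.inl hj), hpp, ofs_opp hop, hm]
  have e3 : 10 / 100 ≤ (Yw b zs y j p).re → (Yw b zs y j p).re ≤ 36 / 100 →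
      Sw b zs y j p.rev (slL b zs y h) =
      MR.s2 (-C12.mm T) x (-C12.tt T x) (Yw b zs y j p).re (Yw b zs y j p).im := by
    intro k1 k2
    rw [e2, MR.S2_eq, hcre, hcim]
    · constructor <;> rw [hcre] <;> linarith only [hcon, hx56]
    · constructor <;> rw [Complex.add_re, hcre] <;> linarith only [hcon, k1, hx56, k2]
  have fin : ∀ f : ℝ, Sw b zs y i p (slL b zs y h) < f → Sw b zs y j p.rev (slL b zs y h) < -f →
      False := by
    intro f d1 d2
    exact rstep_false hb hy (hpos h) (RStep.of_adj A (c := 0) (fun h => absurd h (by omega))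
      (e1 := Sw b zs y i p (slL b zs y h)) (e2 := Sw b zs y j p.rev (slL b zs y h))
      (by linarith only [d1, d2]) (by linarith only []) (by linarith only []))
  have hone : clsW b j2 = .one → Sw b zs y j p.rev (slL b zs y h) <
      -(536 / 1000 + 77 / 10 * T) := by
    intro hj2
    rw [e2]
    have := C12.S2_r1 (T := T) (w := Yw b zs y j p.rev) (v := Yw b zs y j p) T0 T1
      (by rw [hcre]; linarith only [hcon]) (by rw [hcre]; linarith only [hx56]) (by rw [hcim, hcre]) (q1 hj2)
    exact this
  have hQ : ∀ {a c : ℝ}, 10 / 100 ≤ a → C12.Q2 a c (Yw b zs y j p).re (Yw b zs y j p).im →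
      10 / 100 ≤ (Yw b zs y j p).re := by
    intro a c ha q
    rcases q.h with ⟨h, -⟩ | ⟨h, -⟩ | ⟨h, -⟩ <;> linarith only [h, ha]
  by_cases hr : clsW b j' = .ring
  · obtain ⟨t0, t1, w0, k0, k1, k2, k3, k4, k5, k6⟩ := u2 hr
    refine fin (536 / 1000 + 77 / 10 * T) ?_ ?_
    · rw [e1]
      have := C12.rZ1 (x := x) (T := T) (s := (Yw b zs y i p.rev).re)
        (k := (Yw b zs y i p.rev).im) (by linarith only [hcon]) (by linarith only [hx56]) (by linarith only [t0]) (by linarith only [t1])
        (by linarith only [w0]) (by linarith only [hcon, hsum]) (by linarith only [k0]) (by linarith only [k1]) (by linarith only [k2]) (by linarith only [hsum])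
        (by linarith only [k3]) (by linarith only [k4])
      linarith only [this]
    · by_cases hj2 : clsW b j2 = .one
      · exact hone hj2
      · have hq := (q2 hj2).2 (125 / 1000) (60 / 1000) (fun hz => ⟨by
          have := hF B
          rw [hj, hz] at this
          simp only [F2] at this
          linarith only [this], h21 hr B hz⟩)
        rw [e3 (hQ (by norm_num) hq) hq.x1]
        exact C12.s2_rZ h51.le hx56 t0 t1 hq
  · obtain ⟨hR, w0⟩ := u1 hr
    have g1 := hR.T0
    have g2 := hR.T1
    have g3 := hR.t0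
    have g4 := hR.t2
    have g5 := hR.s2
    refine fin (3965 / 10000 + 76 / 10 * T) ?_ ?_
    · rw [e1]
      have := C12.rP1 (x := x) (T := T) (s := (Yw b zs y i p.rev).re)
        (k := (Yw b zs y i p.rev).im) (by linarith only [hcon]) (by linarith only [hx56]) (by linarith only [T0]) (by linarith only [T1])
        (by linarith only [v0]) (by linarith only [hcon, hsum]) (by linarith only [g3]) (by linarith only [g4]) (by linarith only [g5]) (by linarith only [hsum])
      linarith only [this]
    · by_cases hj2 : clsW b j2 = .one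
      · linarith only [T0, hone, hj2, hone hj2]
      · have hq := (q2 hj2).1
        rw [e3 (hQ (by norm_num) hq) hq.x1]
        exact C12.s2_rP h51.le hx56 T0 T1 hq

/-- **Cap `.495` of the hinges `1 | 2`** (the flat part). -/
theorem cap12c (hb : ClassW b) (hL : Loc b zs) (hX : LocX b zs) (hy : Mx b zs y)
    (hF : Flr b y F2) (hS : Sum1 b y (95 / 100))
    (hC : ∀ {h : Fin M} {i j : Fin (M + 1)} {p : Fin 3}, Adj h i p j → clsW b i = .two →
      y (.inl (.inl h)) ≤ if clsW b j = .one then 56 / 100 else 36 / 100)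
    (A : Adj h i p j) (A' : Adj h' i p.rev j') (hi : clsW b i = .one) (hj : clsW b j = .two)
    (h51 : y (.inl (.inl h)) ≤ 51 / 100)
    (h11 : clsW b j' = .one → y (.inl (.inl h')) ≤ 70 / 100)
    (hZ1 : 495 / 1000 ≤ y (.inl (.inl h)) → clsW b j' = .ring →
      182 / 1000 + 3 / 10 * ofs (b i) (zs (.inl (.inl h))).im +
        2 / 10 * ofs (b i) (zs (.inl (.inl h'))).im ≤ y (.inl (.inl h')))
    (h2Z : 495 / 1000 ≤ y (.inl (.inl h)) → ∀ {h2 : Fin M} {j2 : Fin (M + 1)}, Adj h2 j p j2 →
      clsW b j2 = .ring → 155 / 1000 ≤ y (.inl (.inl h2)) ∧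
        (clsW b j' = .ring → 165 / 1000 ≤ y (.inl (.inl h2))))
    (h21 : clsW b j' = .ring → ∀ {h2 : Fin M} {j2 : Fin (M + 1)}, Adj h2 j p j2 →
      clsW b j2 = .ring → ofs (b j) (zs (.inl (.inl h2))).im ≤ 60 / 1000) :
    y (.inl (.inl h)) ≤ 495 / 1000 := by
  by_contra hcon
  have h495 := not_le.1 hcon
  have hpp : p.rev.rev = p := Fin.rev_rev p
  have hop := A.opp hb (Or.inl (by rw [hi]; decide))
  obtain ⟨hcl, hcr, hXM⟩ := par12 (b := b) A hi hj
  obtain ⟨u1, u2⟩ := part1 hX hy hF h11 A A' hi hj
  obtain ⟨h2, j2, B, q1, q2⟩ := part2 hb hL hy hF hC A hi hj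
  have hsum := hS A A' hi
  rw [← A'.re (zs := zs) (y := y)] at hsum
  set x := y (.inl (.inl h)) with hx
  obtain ⟨-, -, T0, T1⟩ := A.box hb hL
  rw [hi, hj, A.ss hop] at T0 T1
  simp only [hbox] at T0 T1
  have hrh := A.rh hy
  rw [hXM, hcl, hcr] at hrh
  set T := ofs (b i) (zs (.inl (.inl h))).im with hT
  have him : (Yw b zs y i p).im = T := by
    rw [hrh.im]
    have e : tr 0 (80 / 100) (16 / 100) (29 / 100) (Yw b zs y i p).re = 1 := by
      rw [A.re]
      apply le_antisymm
      · exact max_le zero_le_one (min_le_left _ _)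
      · refine le_trans ?_ (le_max_right _ _)
        refine le_min le_rfl (le_min ?_ ?_)
        · rw [le_div_iff₀ (by norm_num)]; linarith only [hcon]
        · rw [le_div_iff₀ (by norm_num)]; linarith only [h51]
    rw [e, mul_one]
  have hre := A.re (zs := zs) (y := y)
  have hc := A.conj (zs := zs) (y := y) hop
  have hcre : (Yw b zs y j p.rev).re = x := by rw [hc, Complex.conj_re, hre]
  have hcim : (Yw b zs y j p.rev).im = -T := by rw [hc, Complex.conj_im, him]
  have v0 : 130 / 1000 ≤ (Yw b zs y i p.rev).re := by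
    by_cases hr : clsW b j' = .ring
    · linarith only [u2, hr, (u2 hr).2.2.1]
    · exact (u1 hr).2
  have e1 : Sw b zs y i p 0 =
      MR.s1 0 x T (Yw b zs y i p.rev).re (Yw b zs y i p.rev).im := by
    rw [A.side_one hb hi, ofs_zero', MR.S1_eq, him, hre]
    · constructor <;> rw [hre] <;> linarith only [hcon, h51]
    · constructor <;> rw [Complex.add_re, hre] <;> linarith only [hcon, v0, hsum]
  have e2 : Sw b zs y j p.rev 0 = S2 1 0 (Yw b zs y j p.rev) (Yw b zs y j p) := by
    rw [A.symm.side_two hb (Or.inl hj), hpp, ofs_zero']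
  have e3 : 10 / 100 ≤ (Yw b zs y j p).re → (Yw b zs y j p).re ≤ 36 / 100 →
      Sw b zs y j p.rev 0 = MR.s2 0 x (-T) (Yw b zs y j p).re (Yw b zs y j p).im := by
    intro k1 k2
    rw [e2, MR.S2_eq, hcre, hcim]
    · constructor <;> rw [hcre] <;> linarith only [hcon, h51]
    · constructor <;> rw [Complex.add_re, hcre] <;> linarith only [hcon, k1, h51, k2]
  have fin : ∀ f : ℝ, Sw b zs y i p 0 < f → Sw b zs y j p.rev 0 < -f → False := by
    intro f d1 d2
    exact A.flat_right hy (by rw [hcl]; linarith only [hcon]) (by rw [hXM, hcr]; linarith only [h51]) (by linarith only [d1, d2])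
  have hone : clsW b j2 = .one → Sw b zs y j p.rev 0 < -(535 / 1000 - 2 * T) := by
    intro hj2
    rw [e2]
    exact C12.S2_f1 (T := T) (w := Yw b zs y j p.rev) (v := Yw b zs y j p) T0 T1
      (by rw [hcre]; linarith only [hcon]) (by rw [hcre]; linarith only [h51]) hcim (q1 hj2)
  have hQ : ∀ {a c : ℝ}, 10 / 100 ≤ a → C12.Q2 a c (Yw b zs y j p).re (Yw b zs y j p).im →
      10 / 100 ≤ (Yw b zs y j p).re := by
    intro a c ha q
    rcases q.h with ⟨h, -⟩ | ⟨h, -⟩ | ⟨h, -⟩ <;> linarith only [h, ha]
  by_cases hr : clsW b j' = .ring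
  · obtain ⟨t0, t1, w0, k0, k1, k2, k3, k4, k5, k6⟩ := u2 hr
    have hz1 := hZ1 h495.le hr
    rw [← A'.re (zs := zs) (y := y)] at hz1
    refine fin (535 / 1000 - 2 * T) ?_ ?_
    · rw [e1]
      have := C12.fZ1 (x := x) (T := T) (s := (Yw b zs y i p.rev).re)
        (k := (Yw b zs y i p.rev).im) (by linarith only [hcon]) (by linarith only [h51]) (by linarith only [t0]) (by linarith only [t1])
        (by linarith only [t0, k6, hz1]) (by linarith only [hcon, hsum]) (by linarith only [k0]) (by linarith only [k1]) (by linarith only [k2]) (by linarith only [hsum])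
        (by linarith only [k5, hz1])
      linarith only [this]
    · by_cases hj2 : clsW b j2 = .one
      · exact hone hj2
      · have hq := (q2 hj2).2 (165 / 1000) (60 / 1000) (fun hz =>
          ⟨(h2Z h495.le B hz).2 hr, h21 hr B hz⟩)
        rw [e3 (hQ (by norm_num) hq) hq.x1]
        exact C12.s2_fZ h495.le h51 t0 t1 hq
  · obtain ⟨hR, w0⟩ := u1 hr
    have g1 := hR.T0
    have g2 := hR.T1
    have g3 := hR.t0
    have g4 := hR.t2
    have g5 := hR.s2
    refine fin (419 / 1000 - 3 / 2 * T) ?_ ?_
    · rw [e1]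
      have := C12.fP1 (x := x) (T := T) (s := (Yw b zs y i p.rev).re)
        (k := (Yw b zs y i p.rev).im) (by linarith only [hcon]) (by linarith only [h51]) (by linarith only [T0]) (by linarith only [T1])
        (by linarith only [v0]) (by linarith only [hcon, hsum]) (by linarith only [g3]) (by linarith only [g4]) (by linarith only [g5]) (by linarith only [hsum])
      linarith only [this]
    · by_cases hj2 : clsW b j2 = .one
      · linarith only [T1, hone, hj2, hone hj2]
      · have hq := (q2 hj2).2 (155 / 1000) (96 / 1000) (fun hz => ⟨(h2Z h495.le B hz).1, by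
          obtain ⟨-, -, c0, c1⟩ := B.box hb hL
          rw [hj, hz, B.ss (B.opp hb (Or.inl (by rw [hj]; decide)))] at c1
          simp only [hbox] at c1
          linarith only [c1]⟩)
        rw [e3 (hQ (by norm_num) hq) hq.x1]
        exact C12.s2_fP h495.le h51 T0 T1 hq

end SR

end Pool.Agent.Work.MP_b30479_gtS.G2

end

section

/-!
# Sums of the two hinges of a digit `1` next to a digit `2`

At a digit `1` with the neighbours `{2, 2}`, `{2, 3}`, `{2, ring}`, `{2e, 3}`, `{2e, ring}` the sum
of the two hinges is at most `.95` (first order condition of the hinge `1 | 2`, `1 | 2e`).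
-/

set_option deprecated.oldSectionVars true

namespace Pool.Agent.Work.MP_b30479_gtS.G2

open Finset VOL Filter Topology

namespace WS2

open MR

theorem S1_le_n1 {w v : ℂ} {m c r : ℝ} (hw0 : 0 < w.re) (hw : w.re < 1) (hL : LL (w + v) ≤ c)
    (hY : m * YY (w + v) ≤ m * (r * Real.pi)) :
    S1 1 m w v ≤ n1 c r m w.re w.im v.re v.im := by
  unfold S1 n1
  rw [Num.LL_lnA ⟨hw0, hw⟩, Num.YY_lnB ⟨hw0, hw⟩]
  linarith only [hL, hY]

theorem S2_le_n2 {w v : ℂ} {m c r : ℝ} (hw0 : 0 < w.re) (hw : w.re < 1) (hL : LL (w + v) ≤ c)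
    (hY : m * YY (w + v) ≤ m * (r * Real.pi)) :
    S2 1 m w v ≤ n2 c r m w.re w.im v.re v.im := by
  unfold S2 n2
  rw [Num.LL_lnA ⟨hw0, hw⟩, Num.YY_lnB ⟨hw0, hw⟩]
  linarith only [hL, hY]

noncomputable def EF (x : ℝ) : ℝ := if x ≤ 36 / 100 then E1 x else E2 x
noncomputable def EX (T : ℝ) : ℝ := if 0 ≤ T then E3 T else -(25 / 100)

/-! ### the side of the digit `1` -/

/-- the partner hinge `1 | 2` -/
theorem s1_flat2 {w v : ℂ} {T : ℝ} (hx : 39 / 100 ≤ w.re) (hx' : w.re ≤ 51 / 100)
    (hi : w.im = T) (h1 : 5 / 1000 ≤ T) (h2 : T ≤ 79 / 1000) (h3 : v.re ≤ 56 / 100)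
    (h4 : 0 ≤ v.im) (h5 : v.im ≤ 79 / 1000) (hs : 95 / 100 ≤ w.re + v.re) :
    S1 1 0 w v < -EF w.re := by
  have k1 := S1_le_n1 (w := w) (v := v) (m := 0) (r := 0) (by linarith only [hx]) (by linarith only [hx'])
    (LL_le_zz (w + v)) (by simp)
  unfold n1 at k1
  rw [Complex.add_re, Complex.add_im, hi] at k1
  have k2 := a2 (x := w.re) (T := T) (x' := v.re) (t' := v.im) (by linarith only [hx]) (by linarith only [hx'])
    (by linarith only [h1]) (by linarith only [h2]) (by linarith only [hx', hs]) (by linarith only [h3]) (by linarith only [h4]) (by linarith only [h5]) hs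
  unfold EF
  rw [if_neg (by linarith only [hx])]
  linarith only [k1, k2]

/-- the partner hinges `1 | 3`, `1 | ring` -/
theorem s1_flat3 {w v : ℂ} {T : ℝ} (hx : 30 / 100 ≤ w.re) (hx' : w.re ≤ 51 / 100)
    (hi : w.im = T) (h1 : -(8 / 1000) ≤ T) (h2 : T ≤ 80 / 1000) (h3 : v.re ≤ 65 / 100)
    (h4 : 0 ≤ v.im) (h5 : v.im ≤ 105 / 1000) (h6 : v.im ≤ 63 / 100 * (65 / 100 - v.re))
    (hs : 95 / 100 ≤ w.re + v.re) : S1 1 0 w v < -EF w.re := by
  unfold EF
  split_ifs with h36
  · by_cases hz : 4 * (Real.sin (Real.pi * (w + v).re) ^ 2 + Real.sinh (Real.pi * (w + v).im) ^ 2) = 0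
    · have k1 := S1_le_n1 (w := w) (v := v) (m := 0) (r := 0) (by linarith only [hx]) (by linarith only [hx'])
        (LL_junk (w + v) hz).le (by simp)
      have k3 : (w + v).im = 0 := by
        have a1 := sq_nonneg (Real.sin (Real.pi * (w + v).re))
        have a2 := sq_nonneg (Real.sinh (Real.pi * (w + v).im))
        have a3 : Real.sinh (Real.pi * (w + v).im) ^ 2 = 0 := by linarith only [a2, hz, a1]
        have a4 := pow_eq_zero_iff (two_ne_zero) |>.1 a3
        rw [Real.sinh_eq_zero] at a4
        exact (mul_eq_zero.1 a4).resolve_left Real.pi_pos.ne'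
      rw [Complex.add_im, hi] at k3
      unfold n1 at k1
      rw [hi] at k1
      have k2 := b0 (x := w.re) (T := T) (x' := 0) (t' := v.im) (by linarith only [hx]) (by linarith only [h36])
        (by linarith only [h1]) (by linarith only [h2]) (by linarith only []) (by linarith only []) (by linarith only [h4]) (by linarith only [h1, k3])
      linarith only [k1, k2]
    · have k1 := S1_le_n1 (w := w) (v := v) (m := 0) (r := 0) (by linarith only [hx]) (by linarith only [hx'])
        (LL_le_z5 (w + v) hz) (by simp)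
      unfold n1 at k1
      rw [Complex.add_re, Complex.add_im, hi] at k1
      have k2 := b3 (x := w.re) (T := T) (x' := v.re) (t' := v.im) (by linarith only [hx]) (by linarith only [h36])
        (by linarith only [h1]) (by linarith only [h2]) (by linarith only [hs, h36]) (by linarith only [h3]) (by linarith only [h4]) (by linarith only [h6, hs, h36]) hs
      linarith only [k1, k2]
  · push Not at h36
    have k1 := S1_le_n1 (w := w) (v := v) (m := 0) (r := 0) (by linarith only [h36]) (by linarith only [hx'])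
      (LL_le_zz (w + v)) (by simp)
    unfold n1 at k1
    rw [Complex.add_re, Complex.add_im, hi] at k1
    have k2 := a3 (x := w.re) (T := T) (x' := v.re) (t' := v.im) (by linarith only [h36]) (by linarith only [hx'])
      (by linarith only [h1]) (by linarith only [h2]) (by linarith only [hx', hs]) (by linarith only [h3]) (by linarith only [h4]) (by linarith only [h5]) hs h6
    linarith only [k1, k2]

theorem tr9_nonneg {T x : ℝ} (hT : 0 ≤ T) (hx : x ≤ 8 / 10) : 0 ≤ tr9 T x := by
  unfold tr9
  have : 0 ≤ 8 / 10 - x := by linarith only [hx]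
  positivity

theorem mr9_nonpos {T : ℝ} (hT : 0 ≤ T) : mr9 T ≤ 0 := by
  unfold mr9
  linarith only [hT]

theorem s1_ramp2 {w v : ℂ} {T : ℝ} (hx : 51 / 100 ≤ w.re) (hx' : w.re ≤ 56 / 100)
    (hi : w.im = tr9 T w.re) (h1 : 5 / 1000 ≤ T) (h2 : T ≤ 79 / 1000) (h3 : v.re ≤ 56 / 100)
    (h4 : 0 ≤ v.im) (h5 : v.im ≤ 79 / 1000) (hs : 95 / 100 ≤ w.re + v.re) :
    S1 1 (mr9 T) w v + Real.pi * mr9 T < -EX T := by
  have hn := tr9_nonneg (T := T) (x := w.re) (by linarith only [h1]) (by linarith only [hx'])
  have hY : 0 ≤ YY (w + v) := YY_nonneg (by rw [Complex.add_re]; linarith only [hs])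
    (by rw [Complex.add_im, hi]; linarith only [h4, hn])
  have k1 := S1_le_n1 (w := w) (v := v) (m := mr9 T) (r := 0) (by linarith only [hx]) (by linarith only [hx'])
    (LL_le_zz (w + v)) (by
      have := mul_nonpos_of_nonpos_of_nonneg (mr9_nonpos (T := T) (by linarith only [h1])) hY
      simpa using this)
  rw [Complex.add_re, Complex.add_im, hi] at k1
  have k2 := d2 (x := w.re) (T := T) (x' := v.re) (t' := v.im) (by linarith only [hx]) (by linarith only [hx'])
    (by linarith only [h1]) (by linarith only [h2]) (by linarith only [hx', hs]) (by linarith only [h3]) (by linarith only [h4]) (by linarith only [h5]) hs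
  unfold EX
  rw [if_pos (by linarith only [h1])]
  linarith only [k1, k2]

theorem s1_ramp3 {w v : ℂ} {T : ℝ} (hx : 51 / 100 ≤ w.re) (hx' : w.re ≤ 56 / 100)
    (hi : w.im = tr9 T w.re) (h1 : -(8 / 1000) ≤ T) (h2 : T ≤ 80 / 1000) (h3 : v.re ≤ 65 / 100)
    (h4 : 0 ≤ v.im) (h5 : v.im ≤ 131 / 1000) (h6 : v.im ≤ 63 / 100 * (65 / 100 - v.re))
    (hs : 95 / 100 ≤ w.re + v.re) :
    S1 1 (mr9 T) w v + Real.pi * mr9 T < -EX T := by
  unfold EX
  split_ifs with hT
  · have hn := tr9_nonneg (T := T) (x := w.re) hT (by linarith only [hx'])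
    have hY : 0 ≤ YY (w + v) := YY_nonneg (by rw [Complex.add_re]; linarith only [hs])
      (by rw [Complex.add_im, hi]; linarith only [h4, hn])
    have k1 := S1_le_n1 (w := w) (v := v) (m := mr9 T) (r := 0) (by linarith only [hx]) (by linarith only [hx'])
      (LL_le_zz (w + v)) (by
        have := mul_nonpos_of_nonpos_of_nonneg (mr9_nonpos (T := T) hT) hY
        simpa using this)
    rw [Complex.add_re, Complex.add_im, hi] at k1
    have k2 := d3 (x := w.re) (T := T) (x' := v.re) (t' := v.im) (by linarith only [hx]) (by linarith only [hx'])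
      (by linarith only [hT]) (by linarith only [h2]) (by linarith only [hx', hs]) (by linarith only [h3]) (by linarith only [h4]) (by linarith only [h5]) hs h6
    linarith only [k1, k2]
  · push Not at hT
    have hY : YY (w + v) ≤ 1 * Real.pi := by
      have := (abs_le.1 (YY_abs_pi (u := w + v) (by rw [Complex.add_re]; linarith only [h1, hs, hT])
        (by rw [Complex.add_re]; linarith only [hx', h1, h3, hT]))).2
      linarith only [this]
    have hm : 0 ≤ mr9 T := by
      unfold mr9
      linarith only [hT]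
    have k1 := S1_le_n1 (w := w) (v := v) (m := mr9 T) (r := 1) (by linarith only [hx, h1, hT]) (by linarith only [hx', h1, hT])
      (LL_le_zz (w + v)) (mul_le_mul_of_nonneg_left hY hm)
    rw [Complex.add_re, Complex.add_im, hi] at k1
    have k2 := d4 (x := w.re) (T := T) (x' := v.re) (t' := v.im) (by linarith only [hx]) (by linarith only [hx'])
      (by linarith only [h1]) (by linarith only [hT]) (by linarith only [hx', hs]) (by linarith only [h3]) (by linarith only [h4]) (by linarith only [h5]) hs h6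
    linarith only [k1, k2]

/-! ### the side of the digit `2` -/

theorem s2_flat {w v : ℂ} {T : ℝ} (hx : 25 / 100 ≤ w.re) (hx' : w.re ≤ 51 / 100)
    (hi : w.im = T) (h1 : -(80 / 1000) ≤ T) (h2 : T ≤ 8 / 1000) (h3 : 0 ≤ v.re)
    (h3' : v.re ≤ 60 / 100) (h4 : -(985 / 10000) ≤ v.im) (h5 : v.im ≤ 96 / 1000) :
    S2 1 0 w v < EF w.re := by
  have hws : w ∈ strip := ⟨by linarith only [hx], by linarith only [hx']⟩
  unfold EF
  split_ifs with h36
  · have hu : w + v ∈ strip := ⟨by rw [Complex.add_re]; linarith only [hx, h3], by rw [Complex.add_re]; linarith only [h3', h36]⟩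
    rw [S2_eq _ hws hu, hi]
    exact f1 (by linarith only [hx]) (by linarith only [h36]) (by linarith only [h1]) (by linarith only [h2]) (by linarith only [h3]) (by linarith only [h3'])
      (by linarith only [h4]) (by linarith only [h5])
  · push Not at h36
    rcases le_total (w.re + v.re) (91 / 100) with hs | hs
    · have hu : w + v ∈ strip := ⟨by rw [Complex.add_re]; linarith only [h3, h36], by rw [Complex.add_re]; linarith only [hs]⟩
      rw [S2_eq _ hws hu, hi]
      exact f2 (by linarith only [h36]) (by linarith only [hx']) (by linarith only [h1]) (by linarith only [h2]) (by linarith only [h3]) (by linarith only [h3'])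
        (by linarith only [h4]) (by linarith only [h5]) hs
    · have k1 := S2_le_n2 (w := w) (v := v) (m := 0) (r := 0) (by linarith only [h36]) (by linarith only [hx'])
        (LL_le_zz (w + v)) (by simp)
      rw [Complex.add_re, Complex.add_im, hi] at k1
      have k2 := f3 (x := w.re) (T := T) (x' := v.re) (t' := v.im) (by linarith only [h36]) (by linarith only [hx'])
        (by linarith only [h1]) (by linarith only [h2]) (by linarith only [hx', hs]) (by linarith only [h3']) (by linarith only [h4]) (by linarith only [h5]) hs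
      linarith only [k1, k2]

theorem s2_ramp {w v : ℂ} {T : ℝ} (hx : 51 / 100 ≤ w.re) (hx' : w.re ≤ 56 / 100)
    (hi : w.im = tr9 T w.re) (h1 : -(80 / 1000) ≤ T) (h2 : T ≤ 18 / 1000) (h3 : 0 ≤ v.re)
    (h4 : -(985 / 10000) ≤ v.im) (h5 : v.im ≤ 96 / 1000)
    (h6 : v.re ≤ 36 / 100 ∨ (v.re ≤ 56 / 100 ∧ v.im ≤ 18 / 1000)) :
    S2 1 (mr9 T) w v + Real.pi * mr9 T < EX (-T) := by
  have hws : w ∈ strip := ⟨by linarith only [hx], by linarith only [hx']⟩
  rcases le_total v.re (36 / 100) with h7 | h7
  · have hu : w + v ∈ strip := ⟨by rw [Complex.add_re]; linarith only [hx, h3], by rw [Complex.add_re]; linarith only [hx', h7]⟩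
    rw [S2_eq _ hws hu, hi]
    unfold EX
    split_ifs with hT
    · exact g1 (by linarith only [hx]) (by linarith only [hx']) (by linarith only [h1]) (by linarith only [hT]) (by linarith only [h3]) (by linarith only [h7])
        (by linarith only [h4]) (by linarith only [h5])
    · push Not at hT
      exact g2 (by linarith only [hx]) (by linarith only [hx']) (by linarith only [hT]) (by linarith only [h2]) (by linarith only [h3]) (by linarith only [h7])
        (by linarith only [h4]) (by linarith only [h5])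
  · have h8 : v.re ≤ 56 / 100 := by
      rcases h6 with h6 | h6
      · linarith only [h6]
      · exact h6.1
    have h9 : v.im ≤ 18 / 1000 ∨ v.re = 36 / 100 := by
      rcases h6 with h6 | h6
      · exact Or.inr (le_antisymm h6 h7)
      · exact Or.inl h6.2
    rcases h9 with h9 | h9
    · unfold EX
      split_ifs with hT
      · have hm : 0 ≤ mr9 T := by
          unfold mr9
          linarith only [hT]
        rcases le_total 0 (tr9 T w.re + v.im) with h10 | h10
        · have hY : YY (w + v) ≤ 1 * Real.pi := by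
            have := (abs_le.1 (YY_abs_pi (u := w + v) (by rw [Complex.add_re]; linarith only [hx, h7])
              (by rw [Complex.add_re]; linarith only [hx', h8]))).2
            linarith only [this]
          have k1 := S2_le_n2 (w := w) (v := v) (m := mr9 T) (r := 1) (by linarith only [hx]) (by linarith only [hx'])
            (LL_le_zz (w + v)) (mul_le_mul_of_nonneg_left hY hm)
          rw [Complex.add_re, Complex.add_im, hi] at k1
          have k2 := g4 (x := w.re) (T := T) (x' := v.re) (t' := v.im) (by linarith only [hx])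
            (by linarith only [hx']) (by linarith only [h1]) (by linarith only [hT]) (by linarith only [h7]) (by linarith only [h8]) (by linarith only [h4])
            (by linarith only [h9]) h10
          linarith only [k1, k2]
        · have hY : YY (w + v) ≤ 0 := YY_nonpos (by rw [Complex.add_re]; linarith only [hx, h7])
            (by rw [Complex.add_im, hi]; linarith only [h10])
          have k1 := S2_le_n2 (w := w) (v := v) (m := mr9 T) (r := 0) (by linarith only [hx]) (by linarith only [hx'])
            (LL_le_zz (w + v)) (by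
              have := mul_nonpos_of_nonneg_of_nonpos hm hY
              simpa using this)
          rw [Complex.add_re, Complex.add_im, hi] at k1
          have k2 := g3 (x := w.re) (T := T) (x' := v.re) (t' := v.im) (by linarith only [hx])
            (by linarith only [hx']) (by linarith only [h1]) (by linarith only [hT]) (by linarith only [h7]) (by linarith only [h8]) (by linarith only [h4])
            (by linarith only [h9])
          linarith only [k1, k2]
      · push Not at hT
        have hm : mr9 T ≤ 0 := mr9_nonpos (by linarith only [hT])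
        have hY : -1 * Real.pi ≤ YY (w + v) := by
          have := (abs_le.1 (YY_abs_pi (u := w + v) (by rw [Complex.add_re]; linarith only [hx, h2, h7, hT])
            (by rw [Complex.add_re]; linarith only [hx', h2, h8, hT]))).1
          linarith only [this]
        have k1 := S2_le_n2 (w := w) (v := v) (m := mr9 T) (r := -1) (by linarith only [hx, h2, hT]) (by linarith only [hx', h2, hT])
          (LL_le_zz (w + v)) (mul_le_mul_of_nonpos_left hY hm)
        rw [Complex.add_re, Complex.add_im, hi] at k1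
        have k2 := g5 (x := w.re) (T := T) (x' := v.re) (t' := v.im) (by linarith only [hx])
          (by linarith only [hx']) (by linarith only [hT]) (by linarith only [h2]) (by linarith only [h7]) (by linarith only [h8]) (by linarith only [h4])
          (by linarith only [h9])
        linarith only [k1, k2]
    · have hu : w + v ∈ strip := ⟨by rw [Complex.add_re]; linarith only [hx, h7], by rw [Complex.add_re]; linarith only [hx', h9]⟩
      rw [S2_eq _ hws hu, hi]
      unfold EX
      split_ifs with hT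
      · exact g1 (by linarith only [hx]) (by linarith only [hx']) (by linarith only [h1]) (by linarith only [hT]) (by linarith only [h7]) (by linarith only [h9])
          (by linarith only [h4]) (by linarith only [h5])
      · push Not at hT
        exact g2 (by linarith only [hx]) (by linarith only [hx']) (by linarith only [hT]) (by linarith only [h2]) (by linarith only [h2, h7, hT]) (by linarith only [h9])
          (by linarith only [h4]) (by linarith only [h5])

/-! ### rows of the hinge `1 | 2e` -/

theorem k1 {x T x' t' : ℝ} (h1 : 3000 / 10000 ≤ x) (h1' : x ≤ 3500 / 10000)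
    (h2 : -(660 / 10000) ≤ T) (h2' : T ≤ 10 / 10000) (h3 : 6000 / 10000 ≤ x')
    (h3' : x' ≤ 6500 / 10000) (h4 : 0 / 10000 ≤ t') (h4' : t' ≤ 800 / 10000) :
    Real.pi * t' - NumIs.lnA x T + zz (x + x') (T + t') < 0 := by
  have h : NumIs.chk [NumIs.E.neg (NumIs.E.add (NumIs.E.sub (NumIs.E.mul NumIs.E.pi (NumIs.E.var 3))
      (NumIs.E.lnA (NumIs.E.var 0) (NumIs.E.var 1))) (ezz XX TT))] 20
      [NumIs.V.of 10000 3000 3500, NumIs.V.of 10000 (-660) 10, NumIs.V.of 10000 6000 6500,
        NumIs.V.of 10000 0 800] = true := by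
    decide +kernel
  obtain ⟨f, hf, hp⟩ := NumIs.chk4 h (by norm_num) (x := x) (y := T) (z := x') (w := t')
    (le_trans (by norm_num) h1) (le_trans h1' (by norm_num)) (le_trans (by norm_num) h2)
    (le_trans h2' (by norm_num)) (le_trans (by norm_num) h3) (le_trans h3' (by norm_num))
    (le_trans (by norm_num) h4) (le_trans h4' (by norm_num))
  simp only [List.mem_cons, List.not_mem_nil, or_false] at hf
  subst hf
  simp only [NumIs.E.val, ezz_val, XX, TT, NumIs.lkR] at hp
  linarith only [hp]

theorem k2 {x T : ℝ} (h1 : 3000 / 10000 ≤ x) (h1' : x ≤ 3500 / 10000)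
    (h2 : -(10 / 10000) ≤ T) (h2' : T ≤ 660 / 10000) : s2 0 x T 0 0 < 0 := by
  have h : NumIs.chk [NumIs.E.neg (e2 (NumIs.E.q 0 1) (NumIs.E.var 0) (NumIs.E.var 1) (NumIs.E.var 2)
      (NumIs.E.var 3))] 20
      [NumIs.V.of 10000 3000 3500, NumIs.V.of 10000 (-10) 660, NumIs.V.of 10000 0 0,
        NumIs.V.of 10000 0 0] = true := by
    decide +kernel
  obtain ⟨f, hf, hp⟩ := NumIs.chk4 h (by norm_num) (x := x) (y := T) (z := 0) (w := 0)
    (le_trans (by norm_num) h1) (le_trans h1' (by norm_num)) (le_trans (by norm_num) h2)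
    (le_trans h2' (by norm_num)) (by norm_num) (by norm_num) (by norm_num) (by norm_num)
  simp only [List.mem_cons, List.not_mem_nil, or_false] at hf
  subst hf
  simp only [NumIs.E.val, e2_val, NumIs.lkR] at hp
  push_cast at hp
  norm_num at hp
  linarith only [hp]

end WS2

namespace SR

open WS2

set_option deprecated.oldSectionVars false
variable {M : ℕ} {b : Fin (M + 1) → ℤ} {zs : DD (tyW b) ⊕ ZZ (tyW b) → ℂ}
set_option deprecated.oldSectionVars false
variable {y : DD (tyW b) ⊕ ZZ (tyW b) → ℝ}
set_option deprecated.oldSectionVars false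
variable {h h' : Fin M} {i j j' : Fin (M + 1)} {p : Fin 3}

/-- the hinges `1 | 2` are at most `.56`, the other hinges of a digit `2` at most `.36` -/
def Cap2 (b : Fin (M + 1) → ℤ) (y : DD (tyW b) ⊕ ZZ (tyW b) → ℝ) : Prop :=
  ∀ {h : Fin M} {i j : Fin (M + 1)} {p : Fin 3}, Adj h i p j → clsW b i = .two →
    y (.inl (.inl h)) ≤ if clsW b j = .one then 56 / 100 else 36 / 100

/-- the other hinge of the digit `2` of a hinge `1 | 2` -/
theorem Adj.part_21 (A : Adj h i p j) (hb : ClassW b) (hL : Loc b zs) (hy : Mx b zs y)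
    (hj : clsW b j = .two) (hC : Cap2 b y) :
    0 ≤ (Yw b zs y j p).re ∧ (Yw b zs y j p).re ≤ 60 / 100 ∧
      -(985 / 10000) ≤ (Yw b zs y j p).im ∧ (Yw b zs y j p).im ≤ 96 / 1000 ∧
      ((Yw b zs y j p).re ≤ 36 / 100 ∨
        ((Yw b zs y j p).re ≤ 56 / 100 ∧ (Yw b zs y j p).im ≤ 18 / 1000)) := by
  have hpp : p.rev.rev = p := Fin.rev_rev p
  obtain ⟨h2, j2, B⟩ := A.symm.other' b (clsW_inner hb (Or.inr (Or.inl hj)))
  rw [hpp] at B
  have hop := B.opp hb (Or.inl (by rw [hj]; decide))
  obtain ⟨h3, h4⟩ := B.im_two hb hL hy hj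
  have hc := hC B hj
  rw [← B.re (zs := zs) (y := y)] at hc
  refine ⟨(B.rh hy).re0, ?_, h3, h4, ?_⟩
  · split_ifs at hc <;> linarith only [hc]
  · split_ifs at hc with h1
    · right
      refine ⟨hc, ?_⟩
      obtain ⟨-, -, k3, k4⟩ := B.box hb hL
      rw [hj, h1, B.ss hop] at k3 k4
      simp only [hbox] at k3 k4
      exact (MR.RH_im_mem (B.rh hy) (a := -(985 / 10000)) (b := 18 / 1000) (by norm_num)
        (by norm_num) (by linarith only [k3]) (by linarith only [k4])).2
    · exact Or.inl hc

/-- the first order condition of the hinge `1 | 2` -/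
theorem sum_core (hb : ClassW b) (hL : Loc b zs) (hy : Mx b zs y)
    (hpos : ∀ h : Fin M, 0 < y (.inl (.inl h))) (hC : Cap2 b y)
    (A : Adj h i p j) (hi : clsW b i = .one) (hj : clsW b j = .two)
    (hx : 30 / 100 ≤ y (.inl (.inl h))) {T : ℝ} (hT : ofs (b i) (zs (.inl (.inl h))).im = T)
    (t0 : -(8 / 1000) ≤ T) (t1 : T ≤ 80 / 1000)
    (f1 : y (.inl (.inl h)) ≤ 51 / 100 → (Yw b zs y i p).im = T →
      S1 1 0 (Yw b zs y i p) (Yw b zs y i p.rev) < -EF (y (.inl (.inl h))))
    (r1 : 51 / 100 ≤ y (.inl (.inl h)) → y (.inl (.inl h)) ≤ 56 / 100 →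
      (Yw b zs y i p).im = tr9 T (y (.inl (.inl h))) →
      S1 1 (mr9 T) (Yw b zs y i p) (Yw b zs y i p.rev) + Real.pi * mr9 T < -EX T) : False := by
  have hpp : p.rev.rev = p := Fin.rev_rev p
  have hop := A.opp hb (Or.inl (by rw [hi]; decide))
  obtain ⟨hcl, hcr, hXM⟩ := par12 (b := b) A hi hj
  obtain ⟨g1, g2, g3, g4, g5⟩ := A.part_21 hb hL hy hj hC
  have hx56 : y (.inl (.inl h)) ≤ 56 / 100 := by
    have := hC A.symm hj
    rwa [if_pos hi] at this
  have hrh := A.rh hy
  rw [hXM, hcl, hcr, hT] at hrh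
  have hre := A.re (zs := zs) (y := y)
  have hc := A.conj (zs := zs) (y := y) hop
  have hcre : (Yw b zs y j p.rev).re = y (.inl (.inl h)) := by rw [hc, Complex.conj_re, hre]
  have hcim : (Yw b zs y j p.rev).im = -(Yw b zs y i p).im := by rw [hc, Complex.conj_im]
  rcases le_or_gt (y (.inl (.inl h))) (51 / 100) with h51 | h51
  · have him : (Yw b zs y i p).im = T :=
      MR.RH_flat hrh (by norm_num) (by norm_num) (by rw [hre]; linarith only [hx]) (by rw [hre]; linarith only [h51])
    have hsl : slL b zs y h = 0 := slL_flat (by rw [hcl]; linarith only [hx]) (by rw [hXM, hcr]; linarith only [h51])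
    have e1 := f1 h51 him
    have e2 := s2_flat (w := Yw b zs y j p.rev) (v := Yw b zs y j p) (T := -T)
      (by rw [hcre]; linarith only [hx]) (by rw [hcre]; exact h51) (by rw [hcim, him]) (by linarith only [t1])
      (by linarith only [t0]) g1 g2 g3 g4
    rw [hcre] at e2
    have k1 : Sw b zs y i p (slL b zs y h) = S1 1 0 (Yw b zs y i p) (Yw b zs y i p.rev) := by
      rw [A.side_one hb hi, hsl, ofs_zero]
    have k2 : Sw b zs y j p.rev (slL b zs y h) = S2 1 0 (Yw b zs y j p.rev) (Yw b zs y j p) := by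
      rw [A.symm.side_two hb (Or.inl hj), hpp, hsl, ofs_zero]
    exact rstep_false hb hy (hpos h) (RStep.of_adj A (c := 0) (fun h => absurd h (by omega))
      (e1 := Sw b zs y i p (slL b zs y h)) (e2 := Sw b zs y j p.rev (slL b zs y h))
      (by rw [k1, k2]; linarith only [e1, e2]) (by linarith only []) (by linarith only []))
  · have him : (Yw b zs y i p).im = tr9 T (y (.inl (.inl h))) := by
      have := MR.RH_right hrh (by norm_num) (by norm_num) (by norm_num)
        (by rw [hre]; linarith only [h51])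
      rw [this, hre]
      unfold tr9
      ring
    have hsl : ofs (b i) (slL b zs y h) = mr9 T := by
      rw [ofs_slL_ramp _ (by rw [hXM, hcr]; linarith only [h51]), hcr, hT]
      unfold mr9
      ring
    have hsl' : ofs (b j) (slL b zs y h) = mr9 (-T) := by
      rw [ofs_opp hop, hsl]
      unfold mr9
      ring
    have e1 := r1 h51.le hx56 him
    have e2 := s2_ramp (w := Yw b zs y j p.rev) (v := Yw b zs y j p) (T := -T)
      (by rw [hcre]; linarith only [h51]) (by rw [hcre]; exact hx56)
      (by rw [hcim, him, hcre]; unfold tr9; ring) (by linarith only [t1]) (by linarith only [t0]) g1 g3 g4 g5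
    rw [neg_neg] at e2
    exact rstep_false hb hy (hpos h) (RStep.of_adj A (c := Real.pi) (fun h => absurd h (by omega))
      (e1 := Sw b zs y i p (slL b zs y h) + Real.pi * ofs (b i) (slL b zs y h))
      (e2 := Sw b zs y j p.rev (slL b zs y h) + Real.pi * ofs (b j) (slL b zs y h))
      (by
        rw [A.side_one hb hi, A.symm.side_two hb (Or.inl hj), hpp, hsl, hsl']
        linarith only [e1, e2]) le_rfl le_rfl)

/-- **The sum of the two hinges of a digit `1` with the neighbours `{2, 2}`, `{2, 3}`,
`{2, ring}` is at most `.95`.** -/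
theorem sum1_two (hb : ClassW b) (hL : Loc b zs) (hX : LocX b zs) (hy : Mx b zs y)
    (hpos : ∀ h : Fin M, 0 < y (.inl (.inl h))) (hC : Cap2 b y)
    (h31 : ∀ {h : Fin M} {i j : Fin (M + 1)}, Adj h i 0 j → clsW b i = .one →
      clsW b j = .three → y (.inl (.inl h)) ≤ 39 / 100)
    (A : Adj h i p j) (A' : Adj h' i p.rev j') (hi : clsW b i = .one) (hj : clsW b j = .two)
    (hj' : clsW b j' = .two ∨ clsW b j' = .three ∨ clsW b j' = .ring) :
    y (.inl (.inl h)) + y (.inl (.inl h')) ≤ 95 / 100 := by
  by_contra hcon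
  push Not at hcon
  have hpp : p.rev.rev = p := Fin.rev_rev p
  have A2 : Adj h i p.rev.rev j := by rw [hpp]; exact A
  obtain ⟨a0, a1, -, -⟩ := hX.win A A' hi
  obtain ⟨b0, b1, -, -⟩ := hX.win A' A2 hi
  rw [hj] at a0 a1 b0 b1
  have hx56 : y (.inl (.inl h)) ≤ 56 / 100 := by
    have := hC A.symm hj
    rwa [if_pos hi] at this
  have hre := A.re (zs := zs) (y := y)
  have hre' := A'.re (zs := zs) (y := y)
  have hrh' := A'.rh hy
  have hM' := hrh'.reM
  rw [hre'] at hM'
  rcases hj' with hj' | hj' | hj'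
  · rw [hj'] at a0 a1 b0 b1
    simp only [cw] at a0 a1 b0 b1
    have hx56' : y (.inl (.inl h')) ≤ 56 / 100 := by
      have := hC A'.symm hj'
      rwa [if_pos hi] at this
    have him := MR.RH_im_mem hrh' (a := 0) (b := 79 / 1000) le_rfl (by norm_num) (by linarith only [b0]) b1
    refine sum_core hb hL hy hpos hC A hi hj (by linarith only [hcon, hx56']) rfl (by linarith only [a0]) (by linarith only [a1])
      (fun h51 hT => ?_) (fun h51 h56 hT => ?_)
    · have := s1_flat2 (w := Yw b zs y i p) (v := Yw b zs y i p.rev) (by rw [hre]; linarith only [hcon, hx56'])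
        (by rw [hre]; exact h51) hT a0 a1 (by rw [hre']; exact hx56') him.1 him.2
        (by rw [hre, hre']; exact hcon.le)
      rwa [hre] at this
    · exact s1_ramp2 (w := Yw b zs y i p) (v := Yw b zs y i p.rev) (by rw [hre]; exact h51)
        (by rw [hre]; exact h56) (by rw [hre]; exact hT) a0 a1 (by rw [hre']; exact hx56')
        him.1 him.2 (by rw [hre, hre']; exact hcon.le)
  · rw [hj'] at a0 a1 b0 b1
    simp only [cw] at a0 a1 b0 b1
    by_cases hp : p.rev = 0
    · have A0 : Adj h' i 0 j' := by rw [← hp]; exact A'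
      have := h31 A0 hi hj'
      linarith only [hcon, hx56, this]
    · have hpar : wXM b h' = 65 / 100 ∧ wcr b h' = 15 / 100 ∧ wcl b h' = 13 / 100 := by
        have hp2 : p.rev = 2 := by
          rcases A'.slot with h0 | h0
          · exact absurd h0 hp
          · exact h0
        rw [A'.XM_eq b, A'.cr_eq b, A'.cl_eq b, hi, hj', hp2]
        unfold SR.hpp
        rw [if_pos rfl]
        refine ⟨?_, ?_, ?_⟩ <;> unfold SR.hp SR.hp1 <;> rfl
      obtain ⟨e1, e2, e3⟩ := hpar
      rw [e1] at hM'
      rw [e1, e2, e3] at hrh'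
      obtain ⟨⟨c1, -, c3⟩, -, -, g'⟩ := RH_bd (94 / 1000) 0 hrh' (by norm_num) (by norm_num)
        (by norm_num) (by norm_num) b1 (by linarith only [b0])
      have g'' := g' (by linarith only [b0])
      rw [hre'] at c3
      refine sum_core hb hL hy hpos hC A hi hj (by linarith only [hcon, hM']) rfl (by linarith only [a0]) (by linarith only [a1])
        (fun h51 hT => ?_) (fun h51 h56 hT => ?_)
      · have := s1_flat3 (w := Yw b zs y i p) (v := Yw b zs y i p.rev) (by rw [hre]; linarith only [hcon, hM'])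
          (by rw [hre]; exact h51) hT (by linarith only [a0]) (by linarith only [a1]) (by rw [hre']; exact hM')
          g'' (by linarith only [c1]) (by rw [hre']; linarith only [hM', c3]) (by rw [hre, hre']; exact hcon.le)
        rwa [hre] at this
      · exact s1_ramp3 (w := Yw b zs y i p) (v := Yw b zs y i p.rev) (by rw [hre]; exact h51)
          (by rw [hre]; exact h56) (by rw [hre]; exact hT) (by linarith only [a0]) (by linarith only [a1])
          (by rw [hre']; exact hM') g'' (by linarith only [c1]) (by rw [hre']; linarith only [hM', c3])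
          (by rw [hre, hre']; exact hcon.le)
  · rw [hj'] at a0 a1 b0 b1
    simp only [cw] at a0 a1 b0 b1
    have hpar : wXM b h' = 65 / 100 ∧ wcr b h' = 29 / 100 ∧ wcl b h' = 16 / 100 := by
      rw [A'.XM_eq b, A'.cr_eq b, A'.cl_eq b, hi, hj', A2.oc_eq b, hj]
      refine ⟨?_, ?_, ?_⟩ <;> unfold SR.hpp SR.hp SR.hp1 <;> split_ifs <;> rfl
    obtain ⟨e1, e2, e3⟩ := hpar
    rw [e1] at hM'
    rw [e1, e2, e3] at hrh'
    obtain ⟨⟨-, -, c3⟩, -, -, g'⟩ := RH_bd (145 / 1000) 0 hrh' (by norm_num) (by norm_num)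
      (by norm_num) (by norm_num) b1 (by linarith only [b0])
    have g'' := g' (by linarith only [b0])
    rw [hre'] at c3
    refine sum_core hb hL hy hpos hC A hi hj (by linarith only [hcon, hM']) rfl (by linarith only [a0]) (by linarith only [a1])
      (fun h51 hT => ?_) (fun h51 h56 hT => ?_)
    · have := s1_flat3 (w := Yw b zs y i p) (v := Yw b zs y i p.rev) (by rw [hre]; linarith only [hcon, hM'])
        (by rw [hre]; exact h51) hT (by linarith only [a0]) (by linarith only [a1]) (by rw [hre']; exact hM')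
        g'' (by linarith only [hcon, c3, h51]) (by rw [hre']; linarith only [hM', c3]) (by rw [hre, hre']; exact hcon.le)
      rwa [hre] at this
    · exact s1_ramp3 (w := Yw b zs y i p) (v := Yw b zs y i p.rev) (by rw [hre]; exact h51)
        (by rw [hre]; exact h56) (by rw [hre]; exact hT) (by linarith only [a0]) (by linarith only [a1])
        (by rw [hre']; exact hM') g'' (by linarith only [hcon, hx56, c3]) (by rw [hre']; linarith only [hM', c3])
        (by rw [hre, hre']; exact hcon.le)

/-- **The sum of the two hinges of a digit `1` with the neighbours `{2e, 3}`, `{2e, ring}` is at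
most `.95`.** -/
theorem sum1_twoE (hb : ClassW b) (hX : LocX b zs) (hy : Mx b zs y)
    (hpos : ∀ h : Fin M, 0 < y (.inl (.inl h)))
    (A : Adj h i p j) (A' : Adj h' i p.rev j') (hi : clsW b i = .one) (hj : clsW b j = .twoE)
    (hj' : clsW b j' = .three ∨ clsW b j' = .ring) (h35 : y (.inl (.inl h)) ≤ 35 / 100) :
    y (.inl (.inl h)) + y (.inl (.inl h')) ≤ 95 / 100 := by
  by_contra hcon
  push Not at hcon
  have hpp : p.rev.rev = p := Fin.rev_rev p
  have A2 : Adj h i p.rev.rev j := by rw [hpp]; exact A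
  have hop := A.opp hb (Or.inl (by rw [hi]; decide))
  obtain ⟨a0, a1, -, -⟩ := hX.win A A' hi
  obtain ⟨b0, b1, -, -⟩ := hX.win A' A2 hi
  rw [hj] at a0 a1 b0 b1
  have hre := A.re (zs := zs) (y := y)
  have hre' := A'.re (zs := zs) (y := y)
  have hrh := A.rh hy
  have hrh' := A'.rh hy
  have hM' := hrh'.reM
  rw [hre'] at hM'
  have hpar : wXM b h = 70 / 100 ∧ wcr b h = 35 / 100 ∧ wcl b h = 14 / 100 := by
    rw [A.XM_eq b, A.cr_eq b, A.cl_eq b, hi, hj, A'.oc_eq b]
    rcases hj' with hj' | hj' <;> rw [hj'] <;>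
    refine ⟨?_, ?_, ?_⟩ <;> unfold SR.hpp SR.hp SR.hp1 <;> split_ifs <;> rfl
  have hpar' : wXM b h' = 65 / 100 ∧ 15 / 100 ≤ wcr b h' ∧ 13 / 100 ≤ wcl b h' := by
    rw [A'.XM_eq b, A'.cr_eq b, A'.cl_eq b, hi, A2.oc_eq b, hj]
    rcases hj' with hj' | hj' <;> rw [hj'] <;>
    refine ⟨?_, ?_, ?_⟩ <;> unfold SR.hpp SR.hp SR.hp1 <;> split_ifs <;> norm_num
  obtain ⟨e1, e2, e3⟩ := hpar
  obtain ⟨e1', e2', e3'⟩ := hpar'
  rw [e1'] at hM' hrh'
  rw [e1, e2, e3] at hrh
  have hT : -(66 / 1000) ≤ ofs (b i) (zs (.inl (.inl h))).im ∧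
      ofs (b i) (zs (.inl (.inl h))).im ≤ 1 / 1000 ∧
      0 ≤ ofs (b i) (zs (.inl (.inl h'))).im ∧ ofs (b i) (zs (.inl (.inl h'))).im ≤ 158 / 1000 := by
    rcases hj' with hj' | hj' <;> rw [hj'] at a0 a1 b0 b1 <;> simp only [cw] at a0 a1 b0 b1 <;>
      refine ⟨by linarith only [a0], by linarith only [a1], by linarith only [b0], by linarith only [b1]⟩
  obtain ⟨t0, t1, t2, t3⟩ := hT
  obtain ⟨⟨-, -, c3⟩, -, -, g'⟩ := RH_bd (158 / 1000) 0 hrh' (by linarith only [e3']) (by linarith only [e2'])
    (by norm_num) (by norm_num) t3 (by linarith only [t2])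
  have g'' := g' t2
  rw [hre'] at c3
  have c4 : (Yw b zs y i p.rev).im * (15 / 100) ≤ 158 / 1000 * (65 / 100 - y (.inl (.inl h'))) :=
    (mul_le_mul_of_nonneg_left e2' g'').trans c3
  set T := ofs (b i) (zs (.inl (.inl h))).im with hT
  have him : (Yw b zs y i p).im = T :=
    MR.RH_flat hrh (by norm_num) (by norm_num) (by rw [hre]; linarith only [hcon, hM']) (by rw [hre]; linarith only [h35])
  have hsl : slL b zs y h = 0 := slL_flat (by rw [e3]; linarith only [hcon, hM']) (by rw [e1, e2]; linarith only [h35])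
  have hc := A.conj (zs := zs) (y := y) hop
  have hcre : (Yw b zs y j p.rev).re = y (.inl (.inl h)) := by rw [hc, Complex.conj_re, hre]
  have hcim : (Yw b zs y j p.rev).im = -T := by rw [hc, Complex.conj_im, him]
  have hv : Yw b zs y j p = 0 := by
    rcases A.symm.other b zs y with h5 | h5
    · rw [hpp] at h5
      exact h5.2
    · rw [clsW_end (Or.inl hj)] at h5
      exact absurd h5.1 (by decide)
  have q1 : Sw b zs y i p (slL b zs y h) < 0 := by
    rw [A.side_one hb hi, hsl, ofs_zero]
    have r1 := S1_le_n1 (w := Yw b zs y i p) (v := Yw b zs y i p.rev) (m := 0) (r := 0)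
      (by rw [hre]; linarith only [hcon, hM']) (by rw [hre]; linarith only [h35]) (LL_le_zz _) (by simp)
    unfold MR.n1 at r1
    rw [Complex.add_re, Complex.add_im, him, hre, hre'] at r1
    have r2 := k1 (x := y (.inl (.inl h))) (T := T) (x' := y (.inl (.inl h')))
      (t' := (Yw b zs y i p.rev).im) (by linarith only [hcon, hM']) (by linarith only [h35]) (by linarith only [t0]) (by linarith only [t1])
      (by linarith only [h35, hcon]) (by linarith only [hM']) (by linarith only [g'']) (by linarith only [h35, hcon, c4])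
    linarith only [r1, r2]
  have q2 : Sw b zs y j p.rev (slL b zs y h) < 0 := by
    rw [A.symm.side_two hb (Or.inr hj), hpp, hsl, ofs_zero, hv, MR.S2_eq, hcre, hcim]
    · exact k2 (by linarith only [hcon, hM']) (by linarith only [h35]) (by linarith only [t1]) (by linarith only [t0])
    · constructor <;> rw [hcre] <;> linarith only [hcon, hM', h35]
    · constructor <;> rw [add_zero, hcre] <;> linarith only [hcon, hM', h35]
  exact rstep_false hb hy (hpos h) (RStep.of_adj A (c := 0) (fun h => absurd h (by omega))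
    (e1 := Sw b zs y i p (slL b zs y h)) (e2 := Sw b zs y j p.rev (slL b zs y h))
    (by linarith only [q1, q2]) (by linarith only []) (by linarith only []))

end SR

end Pool.Agent.Work.MP_b30479_gtS.G2

end
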