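import Pool.Agent.Work.MP_b30479_gt.TBS.G2.MPFocD
import Pool.Agent.Work.MP_b30479_gt.TBS.G2.WLocX
import Pool.Agent.Work.MP_b30479_gt.TBS.G2.WMid

section

/-!
# Part of `V2BL`
-/
namespace Pool.Agent.Work.MP_b30479_gtS.G2

open Finset VOL Filter Topology

namespace SR



variable {M : ℕ} {b : Fin (M + 1) → ℤ} {zs : DD (tyW b) ⊕ ZZ (tyW b) → ℂ}
variable {y : DD (tyW b) ⊕ ZZ (tyW b) → ℝ}
variable {h h' : Fin M} {i j k j' : Fin (M + 1)} {p : Fin 3}

/-- Heights of the inner variable of a digit `3` with a digit `1` in the slot `0`; `r` is the region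
behind this digit `1`. -/
structure Mid13 (b : Fin (M + 1) → ℤ) (zs : DD (tyW b) ⊕ ZZ (tyW b) → ℂ) : Prop where
  one0 : ∀ {h h' h2 : Fin M} {i j k r : Fin (M + 1)} (hm : (tyW b i).isMid = true),
    Adj h i 0 j → Adj h' i 2 k → Adj h2 j 0 r → clsW b i = .three → clsW b j = .one →
    clsW b r = .one → -(78 / 1000) ≤ ofs (b i) (zs (.inl (.inr ⟨i, hm⟩))).im
  one1 : ∀ {h h' h2 : Fin M} {i j k r : Fin (M + 1)} (hm : (tyW b i).isMid = true),
    Adj h i 0 j → Adj h' i 2 k → Adj h2 j 0 r → clsW b i = .three → clsW b j = .one →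
    clsW b r = .one → -(20 / 1000) ≤ ofs (b j) (zs (.inl (.inl h2))).im →
    -(69 / 1000) ≤ ofs (b i) (zs (.inl (.inr ⟨i, hm⟩))).im
  two0 : ∀ {h h' h2 : Fin M} {i j k r : Fin (M + 1)} (hm : (tyW b i).isMid = true),
    Adj h i 0 j → Adj h' i 2 k → Adj h2 j 0 r → clsW b i = .three → clsW b j = .one →
    clsW b r = .two → -(58 / 1000) ≤ ofs (b i) (zs (.inl (.inr ⟨i, hm⟩))).im
  two1 : ∀ {h h' h2 : Fin M} {i j k r : Fin (M + 1)} (hm : (tyW b i).isMid = true),
    Adj h i 0 j → Adj h' i 2 k → Adj h2 j 0 r → clsW b i = .three → clsW b j = .one →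
    clsW b r = .two → 45 / 1000 ≤ ofs (b j) (zs (.inl (.inl h2))).im →
    -(51 / 1000) ≤ ofs (b i) (zs (.inl (.inr ⟨i, hm⟩))).im

end SR

end Pool.Agent.Work.MP_b30479_gtS.G2

end

section

/-!
# The inner variable of a digit `3` next to a digit `2` at the first slot

The heights, in the frame of the digit `3`, of the inner variable (`t0`, `t1`), of the inner
variable minus the hinge at the first slot (`s0`, `s1`), and of this hinge (`y0`, `y1`).
-/

namespace Pool.Agent.Work.MP_b30479_gtS.G2

namespace SR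

/-- windows for the inner variable, its difference with the hinge, and the hinge -/
structure MWin where
  t0 : ℝ
  t1 : ℝ
  s0 : ℝ
  s1 : ℝ
  y0 : ℝ
  y1 : ℝ

/-- the heights `m` of the inner variable and `t` of the hinge are in the windows -/
def MWin.In (c : MWin) (m t : ℝ) : Prop :=
  c.t0 ≤ m ∧ m ≤ c.t1 ∧ c.s0 ≤ m - t ∧ m - t ≤ c.s1 ∧ c.y0 ≤ t ∧ t ≤ c.y1

/-- the windows by the class of the neighbour at the last slot -/
noncomputable def mw2 : Cl → MWin
  | .one => ⟨-(885 / 10000), -(275 / 10000), -(535 / 10000), 40 / 10000, -(530 / 10000),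
      -(35 / 10000)⟩
  | .two => ⟨-(800 / 10000), -(220 / 10000), -(495 / 10000), 65 / 10000, -(490 / 10000),
      -(10 / 10000)⟩
  | .twoE => ⟨-(665 / 10000), -(130 / 10000), -(375 / 10000), 135 / 10000, -(460 / 10000), 0⟩
  | .three => ⟨-(680 / 10000), -(220 / 10000), -(430 / 10000), 50 / 10000, -(440 / 10000),
      5 / 10000⟩
  | .threeE => ⟨-(565 / 10000), -(145 / 10000), -(340 / 10000), 110 / 10000, -(405 / 10000),
      20 / 10000⟩
  | .ring => ⟨-(635 / 10000), -(190 / 10000), -(430 / 10000), 65 / 10000, -(412 / 10000),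
      22 / 10000⟩

variable {M : ℕ}

/-- **The inner variable of a digit `3` next to a digit `2` at the first slot.** -/
structure LocMd (b : Fin (M + 1) → ℤ) (zs : DD (tyW b) ⊕ ZZ (tyW b) → ℂ) : Prop where
  two : ∀ {h h' : Fin M} {i j k : Fin (M + 1)} (hm : (tyW b i).isMid = true), Adj h i 0 j →
    Adj h' i 2 k → clsW b i = .three → clsW b j = .two →
    (mw2 (clsW b k)).In (ofs (b i) (zs (.inl (.inr ⟨i, hm⟩))).im)
      (ofs (b i) (zs (.inl (.inl h))).im)

end SR

end Pool.Agent.Work.MP_b30479_gtS.G2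

end

section

/-!
# The inner variable of a digit `3` next to a digit `1` at the first slot

`mw3 e C`: windows of the inner variable of a digit `3` with a digit `1` at the first slot and a
neighbour of class `C` at the last slot; behind the digit `1`: a digit `1` (`e = false`), a digit
`2` which is not at an end (`e = true`).
-/

namespace Pool.Agent.Work.MP_b30479_gtS.G2

namespace SR

/-- the windows -/
noncomputable def mw3 : Bool → Cl → MWin
  | false, .one => ⟨-(745 / 10000), -(285 / 10000), -(170 / 10000), 336 / 10000,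
      -(802 / 10000), -(328 / 10000)⟩
  | false, .two => ⟨-(655 / 10000), -(154 / 10000), -(130 / 10000), 403 / 10000,
      -(756 / 10000), -(274 / 10000)⟩
  | false, .twoE => ⟨-(515 / 10000), -(67 / 10000), -(16 / 10000), 471 / 10000, -(718 / 10000),
      -(258 / 10000)⟩
  | false, .three => ⟨-(535 / 10000), -(154 / 10000), -(65 / 10000), 394 / 10000,
      -(699 / 10000), -(260 / 10000)⟩
  | false, .threeE => ⟨-(415 / 10000), -(75 / 10000), 21 / 10000, 445 / 10000, -(662 / 10000),
      -(241 / 10000)⟩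
  | false, .ring => ⟨-(485 / 10000), -(120 / 10000), -(65 / 10000), 406 / 10000,
      -(671 / 10000), -(241 / 10000)⟩
  | true, .one => ⟨-(582 / 10000), -(215 / 10000), 172 / 10000, 499 / 10000, -(915 / 10000),
      -(594 / 10000)⟩
  | true, .two => ⟨-(490 / 10000), -(83 / 10000), 211 / 10000, 565 / 10000, -(868 / 10000),
      -(536 / 10000)⟩
  | true, .twoE => ⟨-(355 / 10000), 6 / 10000, 312 / 10000, 631 / 10000, -(821 / 10000),
      -(514 / 10000)⟩
  | true, .three => ⟨-(375 / 10000), -(83 / 10000), 272 / 10000, 558 / 10000, -(809 / 10000),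
      -(524 / 10000)⟩
  | true, .threeE => ⟨-(255 / 10000), -(4 / 10000), 352 / 10000, 610 / 10000, -(765 / 10000),
      -(499 / 10000)⟩
  | true, .ring => ⟨-(330 / 10000), -(47 / 10000), 274 / 10000, 572 / 10000, -(780 / 10000),
      -(505 / 10000)⟩

variable {M : ℕ}

/-- **The inner variable of a digit `3` next to a digit `1` at the first slot.** -/
structure LocM2 (b : Fin (M + 1) → ℤ) (zs : DD (tyW b) ⊕ ZZ (tyW b) → ℂ) : Prop where
  one : ∀ {h h' h2 : Fin M} {i j k r : Fin (M + 1)} (hm : (tyW b i).isMid = true),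
    Adj h i 0 j → Adj h' i 2 k → Adj h2 j 0 r → clsW b i = .three → clsW b j = .one →
    clsW b r = .one →
    (mw3 false (clsW b k)).In (ofs (b i) (zs (.inl (.inr ⟨i, hm⟩))).im)
      (ofs (b i) (zs (.inl (.inl h))).im)
  two : ∀ {h h' h2 : Fin M} {i j k r : Fin (M + 1)} (hm : (tyW b i).isMid = true),
    Adj h i 0 j → Adj h' i 2 k → Adj h2 j 0 r → clsW b i = .three → clsW b j = .one →
    clsW b r = .two →
    (mw3 true (clsW b k)).In (ofs (b i) (zs (.inl (.inr ⟨i, hm⟩))).im)
      (ofs (b i) (zs (.inl (.inl h))).im)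

end SR

end Pool.Agent.Work.MP_b30479_gtS.G2

end

section

/-!
# The inner variable of a digit `3` between two digits `1`

`h`: the hinge between the digit `3` at `i` and the digit `1` at `j` (first slot), `h2`: the hinge
behind this digit `1`.
-/

namespace Pool.Agent.Work.MP_b30479_gtS.G2

namespace SR

variable {M : ℕ}

/-- **The inner variable of a digit `3` between two digits `1`.** -/
structure LocM1 (b : Fin (M + 1) → ℤ) (zs : DD (tyW b) ⊕ ZZ (tyW b) → ℂ) : Prop where
  one0 : ∀ {h h' h2 : Fin M} {i j k r : Fin (M + 1)} (hm : (tyW b i).isMid = true),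
    Adj h i 0 j → Adj h' i 2 k → Adj h2 j 0 r → clsW b i = .three → clsW b j = .one →
    clsW b k = .one → clsW b r = .one →
    -(78 / 1000) ≤ ofs (b i) (zs (.inl (.inr ⟨i, hm⟩))).im
  one1 : ∀ {h h' h2 : Fin M} {i j k r : Fin (M + 1)} (hm : (tyW b i).isMid = true),
    Adj h i 0 j → Adj h' i 2 k → Adj h2 j 0 r → clsW b i = .three → clsW b j = .one →
    clsW b k = .one → clsW b r = .one →
    -(20 / 1000) ≤ ofs (b j) (zs (.inl (.inl h2))).im →
    -(69 / 1000) ≤ ofs (b i) (zs (.inl (.inr ⟨i, hm⟩))).im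
  two0 : ∀ {h h' h2 : Fin M} {i j k r : Fin (M + 1)} (hm : (tyW b i).isMid = true),
    Adj h i 0 j → Adj h' i 2 k → Adj h2 j 0 r → clsW b i = .three → clsW b j = .one →
    clsW b k = .one → clsW b r = .two →
    -(58 / 1000) ≤ ofs (b i) (zs (.inl (.inr ⟨i, hm⟩))).im
  two1 : ∀ {h h' h2 : Fin M} {i j k r : Fin (M + 1)} (hm : (tyW b i).isMid = true),
    Adj h i 0 j → Adj h' i 2 k → Adj h2 j 0 r → clsW b i = .three → clsW b j = .one →
    clsW b k = .one → clsW b r = .two →
    45 / 1000 ≤ ofs (b j) (zs (.inl (.inl h2))).im →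
    -(51 / 1000) ≤ ofs (b i) (zs (.inl (.inr ⟨i, hm⟩))).im

end SR

end Pool.Agent.Work.MP_b30479_gtS.G2

end

section

/-!
# The hypothesis `Mid13` from the location facts
-/

namespace Pool.Agent.Work.MP_b30479_gtS.G2

namespace SR

variable {M : ℕ} {b : Fin (M + 1) → ℤ} {zs : DD (tyW b) ⊕ ZZ (tyW b) → ℂ}

/-- **`Mid13` holds.** -/
theorem Mid13.of (hN : LocM1 b zs) (hO : LocM2 b zs) : Mid13 b zs where
  one0 := by
    intro h h' h2 i j k r hm A A' A3 hi hj hr
    by_cases hk : clsW b k = .one
    · exact hN.one0 hm A A' A3 hi hj hk hr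
    · have := (hO.one hm A A' A3 hi hj hr).1
      refine le_trans ?_ this
      generalize clsW b k = B at hk
      cases B <;> first | exact absurd rfl hk | norm_num [mw3]
  one1 := by
    intro h h' h2 i j k r hm A A' A3 hi hj hr hT
    by_cases hk : clsW b k = .one
    · exact hN.one1 hm A A' A3 hi hj hk hr hT
    · have := (hO.one hm A A' A3 hi hj hr).1
      refine le_trans ?_ this
      generalize clsW b k = B at hk
      cases B <;> first | exact absurd rfl hk | norm_num [mw3]
  two0 := by
    intro h h' h2 i j k r hm A A' A3 hi hj hr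
    by_cases hk : clsW b k = .one
    · exact hN.two0 hm A A' A3 hi hj hk hr
    · have := (hO.two hm A A' A3 hi hj hr).1
      refine le_trans ?_ this
      generalize clsW b k = B at hk
      cases B <;> first | exact absurd rfl hk | norm_num [mw3]
  two1 := by
    intro h h' h2 i j k r hm A A' A3 hi hj hr hT
    by_cases hk : clsW b k = .one
    · exact hN.two1 hm A A' A3 hi hj hk hr hT
    · have := (hO.two hm A A' A3 hi hj hr).1
      refine le_trans ?_ this
      generalize clsW b k = B at hk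
      cases B <;> first | exact absurd rfl hk | norm_num [mw3]

end SR

end Pool.Agent.Work.MP_b30479_gtS.G2

end

section

/-!
# The inner variable of a digit `3` next to a digit `3`
-/

namespace Pool.Agent.Work.MP_b30479_gtS.G2

namespace SR

variable {M : ℕ}

/-- **The inner variable of a digit `3` next to a digit `3` at the last slot.** -/
structure LocM3 (b : Fin (M + 1) → ℤ) (zs : DD (tyW b) ⊕ ZZ (tyW b) → ℂ) : Prop where
  three : ∀ {h h' : Fin M} {i j k : Fin (M + 1)} (hm : (tyW b i).isMid = true),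
    Adj h i 0 j → Adj h' i 2 k → clsW b i = .three → clsW b k = .three →
    ofs (b i) (zs (.inl (.inr ⟨i, hm⟩))).im ≤ -(5 / 1000)

end SR

end Pool.Agent.Work.MP_b30479_gtS.G2

end

section

/-!
# The inner variable of a digit `3` between two digits `1`
-/

namespace Pool.Agent.Work.MP_b30479_gtS.G2

namespace SR

variable {M : ℕ}

/-- **The inner variable of a digit `3` between two digits `1`**, with a digit `2` at an end
behind the digit `1` at the first slot. -/
structure LocM4 (b : Fin (M + 1) → ℤ) (zs : DD (tyW b) ⊕ ZZ (tyW b) → ℂ) : Prop where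
  tail : ∀ {h h' h2 : Fin M} {i j k r : Fin (M + 1)} (hm : (tyW b i).isMid = true),
    Adj h i 0 j → Adj h' i 2 k → Adj h2 j 0 r → clsW b i = .three → clsW b j = .one →
    clsW b r = .twoE → clsW b k = .one →
    (⟨-(725 / 10000), -(440 / 10000), 370 / 10000, 560 / 10000, -(1120 / 10000),
      -(965 / 10000)⟩ : MWin).In (ofs (b i) (zs (.inl (.inr ⟨i, hm⟩))).im)
      (ofs (b i) (zs (.inl (.inl h))).im)

end SR

end Pool.Agent.Work.MP_b30479_gtS.G2

end

section

/-!
# Windows of the rings with four crossings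

`R4`: bounds of a hinge `y` and of the ring variable `z` (own frames); `r4 e C s`: the bounds for a
ring with four crossings (`e`: at an end) next to a region of class `C` (`s`: equal signs).
-/

namespace Pool.Agent.Work.MP_b30479_gtS.G2

namespace SR

/-- bounds -/
structure R4 where
  x0 : ℝ
  x1 : ℝ
  s0 : ℝ
  s1 : ℝ
  q0 : ℝ
  q1 : ℝ
  r0 : ℝ
  r1 : ℝ
  t0 : ℝ
  t1 : ℝ
  c1 : ℝ
  cr : ℝ

/-- the bounds hold: `x`, `t` for the hinge, `s`, `r` for the ring variable, `q = r - t`,
`c = x + s` -/
structure R4.In (B : R4) (y z : ℂ) : Prop where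
  x0 : B.x0 ≤ y.re
  x1 : y.re ≤ B.x1
  s0 : B.s0 ≤ -z.re
  s1 : -z.re ≤ B.s1
  q0 : B.q0 ≤ z.im - y.im
  q1 : z.im - y.im ≤ B.q1
  r0 : B.r0 ≤ z.im
  r1 : z.im ≤ B.r1
  t0 : B.t0 ≤ y.im
  t1 : y.im ≤ B.t1
  c1 : y.re - z.re ≤ B.c1
  cr : y.re - z.re ≤ B.cr + z.im

/-- bounds in units of `1 / 10000` -/
noncomputable def mk4 (x0 x1 s0 s1 q0 q1 r0 r1 t0 t1 c1 cr : ℤ) : R4 :=
  ⟨x0 / 10000, x1 / 10000, s0 / 10000, s1 / 10000, q0 / 10000, q1 / 10000, r0 / 10000,
    r1 / 10000, t0 / 10000, t1 / 10000, c1 / 10000, cr / 10000⟩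

/-- bounds for a ring with four crossings -/
noncomputable def r4 : Bool → Cl → Bool → R4
  | true, .one, _ => mk4 2160 2810 1910 2200 800 1450 220 500 (-1150) (-360) 4800 4380
  | true, .two, _ => mk4 1910 2380 2040 2300 580 970 320 530 (-560) (-110) 4490 4020
  | true, .twoE, _ => mk4 1590 1750 2100 2260 1110 1270 180 320 (-1010) (-850) 3930 3700
  | true, .three, _ => mk4 1850 2150 2130 2340 470 740 380 550 (-270) 20 4360 3850
  | true, .threeE, _ => mk4 1660 1820 2200 2360 570 730 310 450 (-340) (-180) 4100 3670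
  | true, .ring, false => mk4 1770 2170 2180 2390 280 630 400 670 (-130) 340 4470 3820
  | true, .ring, true => mk4 1650 2170 2220 2520 110 440 440 670 160 490 4470 3820
  | false, .one, _ => mk4 2250 3030 1510 2040 960 1870 330 850 (-1300) (-350) 4870 4150
  | false, .two, _ => mk4 1985 2580 1610 2110 730 1360 420 910 (-680) (-70) 4500 3750
  | false, .twoE, _ => mk4 1660 1910 1660 2140 1320 1720 320 730 (-1120) (-850) 3960 3290
  | false, .three, _ => mk4 1950 2340 1650 2140 600 1100 470 930 (-360) 60 4330 3560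
  | false, .threeE, _ => mk4 1750 1980 1690 2170 740 1140 430 870 (-420) (-150) 4060 3320
  | false, .ring, false => mk4 1870 2370 1670 2170 370 980 490 1050 (-200) 430 4380 3560
  | false, .ring, true => mk4 1730 2370 1680 2260 140 730 530 1070 120 630 4380 3560

variable {M : ℕ}

/-- **Windows of the rings with four crossings.** -/
structure LocR4 (b : Fin (M + 1) → ℤ) (zs : DD (tyW b) ⊕ ZZ (tyW b) → ℂ) : Prop where
  four : ∀ {h : Fin M} {i j : Fin (M + 1)} {p : Fin 3} (v : ZZ (tyW b)), v.1 = i → Adj h i p j →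
    clsW b i = .ring → (b i).natAbs = 4 →
    (r4 (isEnd i) (clsW b j) (ssW b h)).In (ofr (b i) (zs (.inl (.inl h)))) (ofz (b i) (zs (.inr v)))

end SR

end Pool.Agent.Work.MP_b30479_gtS.G2

end

section

/-!
# Further windows of the rings

Interior rings with four crossings next to a digit `1`, by the class of the other neighbour of the
ring; the height of a hinge between a digit `3` and a ring, and of the hinge `2 | ring` of a digit
`2` next to a digit `1`.
-/

namespace Pool.Agent.Work.MP_b30479_gtS.G2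

namespace SR

/-- the height of the ring variable over the hinge next to a digit `1`, four crossings -/
structure QS (y z : ℂ) : Prop where
  q26 : 260 / 1000 ≤ y.re → 1120 / 10000 ≤ z.im - y.im
  q27 : 270 / 1000 ≤ y.re → 1195 / 10000 ≤ z.im - y.im
  q28 : 280 / 1000 ≤ y.re → 1270 / 10000 ≤ z.im - y.im
  q285 : 285 / 1000 ≤ y.re → 1308 / 10000 ≤ z.im - y.im
  q29 : 290 / 1000 ≤ y.re → 1345 / 10000 ≤ z.im - y.im

/-- real part of the hinge, minus the real part of the ring variable and their sum are bounded -/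
structure TB (X S C : ℝ) (y z : ℂ) : Prop where
  x : y.re ≤ X / 10000
  s : -z.re ≤ S / 10000
  c : y.re - z.re ≤ C / 10000

/-- bounds for an interior ring with four crossings next to a digit `1` whose other neighbour has
class `.two`, by the class `C` of the other neighbour of the ring; `e`: equal signs -/
def Tri (C : Cl) (e : Bool) (y z : ℂ) : Prop :=
  match C, e with
  | .one, _ => TB 2980 1820 4655 y z
  | .two, _ => TB 2980 1845 4690 y z
  | .twoE, _ => TB 2900 1880 4680 y z
  | .three, _ => TB 2980 1880 4720 y z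
  | .threeE, _ => TB 2980 1880 4720 y z
  | .ring, false => TB 2980 1870 4748 y z
  | .ring, true => True

variable {M : ℕ}

/-- **Further windows of the rings.** -/
structure LocRt (b : Fin (M + 1) → ℤ) (zs : DD (tyW b) ⊕ ZZ (tyW b) → ℂ) : Prop where
  /-- digit `1` at `i`, interior ring with four crossings at `j` -/
  qs : ∀ {h : Fin M} {i j : Fin (M + 1)} {p : Fin 3} (v : ZZ (tyW b)), v.1 = j → Adj h i p j →
    clsW b i = .one → (b j).natAbs = 4 → isEnd j = false →
    QS (ofr (b j) (zs (.inl (.inl h)))) (ofz (b j) (zs (.inr v)))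
  /-- `j'`: other neighbour of the digit `1`, `k`: other neighbour of the ring -/
  tri : ∀ {h h' g : Fin M} {i j j' k : Fin (M + 1)} {p : Fin 3} (v : ZZ (tyW b)), v.1 = j →
    Adj h i p j → Adj h' i p.rev j' → Adj g j p k → clsW b i = .one → clsW b j' = .two →
    (b j).natAbs = 4 →
    Tri (clsW b k) (decide (0 < b j * b k)) (ofr (b j) (zs (.inl (.inl h))))
      (ofz (b j) (zs (.inr v)))
  /-- a ring between two digits `1` -/
  tri1 : ∀ {h g : Fin M} {i j k : Fin (M + 1)} {p : Fin 3} (v : ZZ (tyW b)), v.1 = j →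
    Adj h i p j → Adj g j p k → clsW b i = .one → clsW b k = .one → (b j).natAbs = 4 →
    4535 / 10000 ≤ (zs (.inl (.inl h))).re - (ofz (b j) (zs (.inr v))).re →
    (zs (.inl (.inl g))).re ≤ 262 / 1000
  /-- digit `3` at `i`, ring at `j` -/
  three : ∀ {h : Fin M} {i j : Fin (M + 1)} {p : Fin 3}, Adj h i p j → clsW b i = .three →
    clsW b j = .ring →
    0 ≤ ofs (b i) (zs (.inl (.inl h))).im ∨
      (-(1 / 1000) ≤ ofs (b i) (zs (.inl (.inl h))).im ∧ (b j).natAbs = 4 ∧
        (∃ (g : Fin M) (k : Fin (M + 1)), Adj g j p k ∧ clsW b k = .ring) ∧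
        ∀ v : ZZ (tyW b), v.1 = j → 4 / 100 ≤ (zs (.inr v)).im)
  /-- digit `2` at `i`, ring at `j`, digit `1` at `k`, `m`: the other neighbour of the digit `1` -/
  two1 : ∀ {h h' g : Fin M} {i j k m : Fin (M + 1)} {p : Fin 3}, Adj h i p j →
    Adj h' i p.rev k → Adj g k p.rev m → clsW b i = .two → clsW b j = .ring → clsW b k = .one →
    clsW b m ≠ .one → ofs (b i) (zs (.inl (.inl h))).im ≤ 75 / 1000
  /-- the same, `m` a ring -/
  twoZ : ∀ {h h' g : Fin M} {i j k m : Fin (M + 1)} {p : Fin 3}, Adj h i p j →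
    Adj h' i p.rev k → Adj g k p.rev m → clsW b i = .two → clsW b j = .ring → clsW b k = .one →
    clsW b m = .ring → ofs (b i) (zs (.inl (.inl h))).im ≤ 60 / 1000

end SR

end Pool.Agent.Work.MP_b30479_gtS.G2

end

section

/-!
# All location facts
-/

namespace Pool.Agent.Work.MP_b30479_gtS.G2

open Finset VOL Filter Topology

namespace SR

variable {M : ℕ}

/-- **All location facts** used on the main paths. -/
structure LocA (b : Fin (M + 1) → ℤ) (zs : DD (tyW b) ⊕ ZZ (tyW b) → ℂ) : Prop where
  L : Loc b zs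
  X : LocX b zs
  P : LocP b zs
  R : LocR b zs
  G : LocRg b zs
  S : LocS b zs
  C : Crit b zs
  T : LocRt b zs
  F : LocR4 b zs
  E : Loc3 b zs
  D : LocMd b zs
  N : LocM1 b zs
  O : LocM2 b zs
  Q : LocM3 b zs
  U : LocM4 b zs

end SR

end Pool.Agent.Work.MP_b30479_gtS.G2

end

section

/-!
# Windows of the rings next to a digit `1`, reduced form

`rk4`, `rk5`: hinge next to a digit `1` with a region of class two behind it, by the class at the
other hinge, and `ka4`, `ka5`: the real part of the hinge minus this constant is at most the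
difference of the heights. `rc6`: hinge next to a digit `1`, by the class behind it only.
-/

namespace Pool.Agent.Work.MP_b30479_gtS.G2

namespace SR

/-- hinges next to a digit `1`, class two behind it, 4 crossings -/
noncomputable def rk4 : Cl → Bool → R4
  | .one, _ => mk4 2542 2965 1485 1786 1242 1637 370 694 (-1148) (-733) 4638 4268
  | .two, _ => mk4 2565 2983 1551 1843 1274 1650 452 733 (-1107) (-701) 4708 4256
  | .twoE, _ => mk4 2522 2916 1619 1854 1195 1536 367 597 (-1090) (-719) 4654 4287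
  | .three, _ => mk4 2583 2985 1606 1872 1302 1659 498 748 (-1075) (-686) 4736 4238
  | .threeE, _ => mk4 2560 2956 1655 1892 1258 1597 461 695 (-1056) (-684) 4731 4270
  | .ring, false => mk4 2585 3027 1632 1900 1301 1725 516 837 (-1059) (-665) 4791 4275
  | .ring, true => mk4 2598 3032 1642 1971 1307 1725 564 842 (-1043) (-622) 4864 4300

/-- constants, 4 crossings -/
def ka4 : Cl → Bool → ℤ
  | .one, _ => 1530
  | .two, _ => 1520
  | .twoE, _ => 1540
  | .three, _ => 1520
  | .threeE, _ => 1530
  | .ring, false => 1515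
  | .ring, true => 1520

/-- hinges next to a digit `1`, class two behind it, 5 crossings -/
noncomputable def rk5 : Cl → Bool → R4
  | .one, _ => mk4 2529 2954 1278 1583 1197 1612 229 537 (-1245) (-824) 4411 4182
  | .two, _ => mk4 2538 2961 1337 1629 1218 1616 289 563 (-1218) (-804) 4461 4172
  | .twoE, _ => mk4 2514 2924 1380 1627 1163 1534 221 462 (-1213) (-821) 4424 4203
  | .three, _ => mk4 2547 2963 1380 1651 1237 1619 316 577 (-1198) (-794) 4480 4164
  | .threeE, _ => mk4 2532 2945 1414 1662 1206 1576 286 530 (-1190) (-797) 4479 4193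
  | .ring, false => mk4 2546 2968 1402 1684 1256 1666 350 636 (-1188) (-799) 4505 4155
  | .ring, true => mk4 2553 2968 1417 1711 1267 1666 377 636 (-1174) (-774) 4554 4177

/-- constants, 5 crossings -/
def ka5 : Cl → Bool → ℤ
  | .one, _ => 1530
  | .two, _ => 1520
  | .twoE, _ => 1530
  | .three, _ => 1510
  | .threeE, _ => 1520
  | .ring, false => 1510
  | .ring, true => 1515

/-- hinges next to a digit `1`, 6 crossings -/
noncomputable def rc6 : Cl → R4
  | .one => mk4 2186 2835 1108 1622 818 1553 83 572 (-1221) (-500) 4238 4155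
  | .two => mk4 2516 2983 1131 1544 1132 1628 120 505 (-1307) (-831) 4367 4247
  | .twoE => mk4 2315 2670 1102 1596 1410 1833 60 508 (-1528) (-1150) 4099 4039
  | _ => mk4 0 4000 0 2500 (-10000) 10000 (-10000) 10000 (-10000) 10000 6500 10000

variable {M : ℕ}

/-- **Windows of the rings with `n` crossings next to a digit `1`, class two behind it.** Region
`i` (ring), `j` (digit `1`), `g` (behind `j`), `k` (at the other hinge `h'` of `i`). -/
structure LocRk (n : ℕ) (q : Cl → Bool → R4) (ka : Cl → Bool → ℤ) (b : Fin (M + 1) → ℤ)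
    (zs : DD (tyW b) ⊕ ZZ (tyW b) → ℂ) : Prop where
  own : ∀ {h h' h2 : Fin M} {i j k g : Fin (M + 1)} {p : Fin 3} (v : ZZ (tyW b)), v.1 = i →
    Adj h i p j → Adj h2 j p g → Adj h' i p.rev k → clsW b i = .ring → (b i).natAbs = n →
    clsW b j = .one → clsW b g = .two →
    (q (clsW b k) (ssW b h')).In (ofr (b i) (zs (.inl (.inl h)))) (ofz (b i) (zs (.inr v)))
  kap : ∀ {h h' h2 : Fin M} {i j k g : Fin (M + 1)} {p : Fin 3} (v : ZZ (tyW b)), v.1 = i →
    Adj h i p j → Adj h2 j p g → Adj h' i p.rev k → clsW b i = .ring → (b i).natAbs = n →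
    clsW b j = .one → clsW b g = .two →
    (ofr (b i) (zs (.inl (.inl h)))).re - (ka (clsW b k) (ssW b h') : ℝ) / 10000 ≤
      (ofz (b i) (zs (.inr v))).im - (ofr (b i) (zs (.inl (.inl h)))).im

/-- **Windows of the rings with `n` crossings next to a digit `1`, by the class behind it.** -/
structure LocRc (n : ℕ) (q e : Cl → R4) (b : Fin (M + 1) → ℤ)
    (zs : DD (tyW b) ⊕ ZZ (tyW b) → ℂ) : Prop where
  own : ∀ {h h' h2 : Fin M} {i j k g : Fin (M + 1)} {p : Fin 3} (v : ZZ (tyW b)), v.1 = i →
    Adj h i p j → Adj h2 j p g → Adj h' i p.rev k → clsW b i = .ring → (b i).natAbs = n →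
    clsW b j = .one →
    (q (clsW b g)).In (ofr (b i) (zs (.inl (.inl h)))) (ofz (b i) (zs (.inr v)))
  fin : ∀ {h h2 : Fin M} {i j g : Fin (M + 1)} {p : Fin 3} (v : ZZ (tyW b)), v.1 = i →
    Adj h i p j → Adj h2 j p g → isEnd i = true → clsW b i = .ring → (b i).natAbs = n →
    clsW b j = .one →
    (e (clsW b g)).In (ofr (b i) (zs (.inl (.inl h)))) (ofz (b i) (zs (.inr v)))

/-- **A lower bound for the height of the rings with `n` crossings next to a digit `1`.** -/
def LocRh (n : ℕ) (m : ℤ) (b : Fin (M + 1) → ℤ) (zs : DD (tyW b) ⊕ ZZ (tyW b) → ℂ) : Prop :=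
  ∀ {h h' h2 : Fin M} {i j k g : Fin (M + 1)} {p : Fin 3} (v : ZZ (tyW b)), v.1 = i →
    Adj h i p j → Adj h2 j p g → Adj h' i p.rev k → clsW b i = .ring → (b i).natAbs = n →
    clsW b j = .one → (m : ℝ) / 10000 ≤ (ofz (b i) (zs (.inr v))).im

end SR

end Pool.Agent.Work.MP_b30479_gtS.G2

end

section

/-!
# Windows of the rings with seven or more crossings next to a digit `1`

`rc7`, `rc8`: hinge next to a digit `1`, by the class behind it; `rd7`, `rd8`: the other hinge, by
the class there; `re7`, `re8`: rings at an end.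
-/

namespace Pool.Agent.Work.MP_b30479_gtS.G2

namespace SR

/-- hinges next to a digit `1`, 7 crossings -/
noncomputable def rc7 : Cl → R4
  | .one => mk4 2205 2760 1032 1410 800 1640 104 400 (-1240) (-640) 4070 3966
  | .two => mk4 2560 2930 1051 1348 1120 1689 127 379 (-1310) (-950) 4210 4083
  | .twoE => mk4 2425 2545 1070 1337 1450 1788 115 338 (-1450) (-1320) 3870 3755
  | _ => mk4 0 4000 0 2500 (-10000) 10000 (-10000) 10000 (-10000) 10000 6500 10000

/-- the other hinges, 7 crossings -/
noncomputable def rd7 : Cl → R4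
  | .two => mk4 1985 2510 1065 1330 560 1254 135 394 (-860) (-375) 3810 3675
  | .twoE => mk4 1705 1795 1089 1297 1245 1528 104 308 (-1220) (-1130) 3080 2976
  | .three => mk4 2030 2300 1112 1344 385 876 156 391 (-485) (-185) 3615 3459
  | .threeE => mk4 1840 1925 1133 1332 585 855 142 345 (-510) (-425) 3240 3098
  | _ => mk4 0 4000 0 2500 (-10000) 10000 (-10000) 10000 (-10000) 10000 6500 10000

/-- ends, 7 crossings -/
noncomputable def re7 : Cl → R4
  | .one => mk4 2170 2780 1120 1474 731 1369 1 316 (-1235) (-575) 4063 4062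
  | .two => mk4 2494 2920 1141 1400 1054 1454 12 264 (-1322) (-909) 4181 4169
  | .twoE => mk4 2291 2611 1119 1439 1329 1649 1 272 (-1537) (-1217) 3890 3889
  | _ => mk4 0 4000 0 2500 (-10000) 10000 (-10000) 10000 (-10000) 10000 6500 10000

/-- hinges next to a digit `1`, at least 8 crossings -/
noncomputable def rc8 : Cl → R4
  | .one => mk4 2185 2770 0 1291 685 1710 0 360 (-1350) (-685) 3960 3960
  | .two => mk4 2545 2925 0 1201 1000 1796 0 346 (-1450) (-1000) 4080 4080
  | .twoE => mk4 2410 2550 0 1191 1365 1885 0 310 (-1575) (-1365) 3725 3725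
  | _ => mk4 0 4000 0 2500 (-10000) 10000 (-10000) 10000 (-10000) 10000 6500 10000

/-- the other hinges, at least 8 crossings -/
noncomputable def rd8 : Cl → R4
  | .two => mk4 1975 2525 0 1250 400 1305 0 355 (-950) (-400) 3770 3770
  | .twoE => mk4 1695 1795 0 1250 1145 1577 0 277 (-1300) (-1145) 3030 3030
  | .three => mk4 2025 2335 0 1250 205 907 0 352 (-555) (-205) 3560 3560
  | .threeE => mk4 1835 1945 0 1250 440 882 0 312 (-570) (-440) 3160 3160
  | _ => mk4 0 4000 0 2500 (-10000) 10000 (-10000) 10000 (-10000) 10000 6500 10000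

/-- ends, at least 8 crossings -/
noncomputable def re8 : Cl → R4
  | .one => mk4 2185 2770 0 1250 685 1522 0 172 (-1350) (-685) 3960 3960
  | .two => mk4 2545 2925 0 1165 1000 1615 0 165 (-1450) (-1000) 4080 4080
  | .twoE => mk4 2410 2550 0 1154 1365 1704 0 129 (-1575) (-1365) 3725 3725
  | _ => mk4 0 4000 0 2500 (-10000) 10000 (-10000) 10000 (-10000) 10000 6500 10000

variable {M : ℕ}

/-- **Windows of the other hinges of the rings with `n` crossings next to a digit `1`.** -/
def LocRd (n : ℕ) (r : Cl → R4) (b : Fin (M + 1) → ℤ) (zs : DD (tyW b) ⊕ ZZ (tyW b) → ℂ) : Prop :=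
  ∀ {h h' : Fin M} {i j k : Fin (M + 1)} {p : Fin 3} (v : ZZ (tyW b)), v.1 = i →
    Adj h i p j → Adj h' i p.rev k → clsW b i = .ring → (b i).natAbs = n → clsW b j = .one →
    clsW b k ≠ .one → clsW b k ≠ .ring →
    (r (clsW b k)).In (ofr (b i) (zs (.inl (.inl h')))) (ofz (b i) (zs (.inr v)))

/-- **Windows of the rings with at least `8` crossings next to a digit `1`.** -/
structure LocRc8 (q r e : Cl → R4) (b : Fin (M + 1) → ℤ)
    (zs : DD (tyW b) ⊕ ZZ (tyW b) → ℂ) : Prop where
  own : ∀ {h h' h2 : Fin M} {i j k g : Fin (M + 1)} {p : Fin 3} (v : ZZ (tyW b)), v.1 = i →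
    Adj h i p j → Adj h2 j p g → Adj h' i p.rev k → clsW b i = .ring → 8 ≤ (b i).natAbs →
    clsW b j = .one →
    (q (clsW b g)).In (ofr (b i) (zs (.inl (.inl h)))) (ofz (b i) (zs (.inr v)))
  par : ∀ {h h' : Fin M} {i j k : Fin (M + 1)} {p : Fin 3} (v : ZZ (tyW b)), v.1 = i →
    Adj h i p j → Adj h' i p.rev k → clsW b i = .ring → 8 ≤ (b i).natAbs → clsW b j = .one →
    clsW b k ≠ .one → clsW b k ≠ .ring →
    (r (clsW b k)).In (ofr (b i) (zs (.inl (.inl h')))) (ofz (b i) (zs (.inr v)))
  fin : ∀ {h h2 : Fin M} {i j g : Fin (M + 1)} {p : Fin 3} (v : ZZ (tyW b)), v.1 = i →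
    Adj h i p j → Adj h2 j p g → isEnd i = true → clsW b i = .ring → 8 ≤ (b i).natAbs →
    clsW b j = .one →
    (e (clsW b g)).In (ofr (b i) (zs (.inl (.inl h)))) (ofz (b i) (zs (.inr v)))

end SR

end Pool.Agent.Work.MP_b30479_gtS.G2

end

section

/-!
# The inner variable of a digit `3` between two digits `1`: lower bound

The three cases of the digit behind the digit `1` at the first slot are in `LocM1` and `LocM4`.
-/

namespace Pool.Agent.Work.MP_b30479_gtS.G2

open Finset VOL Filter Topology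

namespace SR

variable {M : ℕ}

/-- **Lower bound of the inner variable of a digit `3` between two digits `1`.** -/
structure LocM7 (b : Fin (M + 1) → ℤ) (zs : DD (tyW b) ⊕ ZZ (tyW b) → ℂ) : Prop where
  low : ∀ {h h' h2 : Fin M} {i j k r : Fin (M + 1)}, Adj h i 0 j → Adj h' i 2 k →
    Adj h2 k 2 r → clsW b i = .three → clsW b k = .one → clsW b j = .one → clsW b r = .two →
    ∀ hm : (tyW b i).isMid = true, -(80 / 1000) ≤ ofs (b i) (zs (.inl (.inr ⟨i, hm⟩))).im

variable {b : Fin (M + 1) → ℤ} {zs : DD (tyW b) ⊕ ZZ (tyW b) → ℂ}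

/-- a digit `1` next to a digit `3` at its last slot has a digit `1` or `2` behind it -/
theorem behind_left (hb : ClassW b) {h : Fin M} {i j : Fin (M + 1)} (A : Adj h i 0 j)
    (hi : clsW b i = .three) (hj : clsW b j = .one) :
    ∃ (h2 : Fin M) (r : Fin (M + 1)), Adj h2 j 0 r ∧
      (clsW b r = .one ∨ clsW b r = .two ∨ clsW b r = .twoE) := by
  have h3 : (b i).natAbs = 3 := by
    unfold clsW cls at hi
    split_ifs at hi with h1 h2 h3 h4 h5
    exact h4
  have h1 : (b j).natAbs = 1 := by
    unfold clsW cls at hj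
    split_ifs at hj with h1
    exact h1
  have e : i.val = h.val + 1 ∧ j.val = h.val := by
    cases A
    exact ⟨rfl, rfl⟩
  have hj0 : j ≠ 0 := by
    rintro rfl
    have := hb.first
    omega
  have hjv : j.val ≠ 0 := fun h => hj0 (Fin.ext h)
  obtain ⟨k, hk⟩ := Fin.eq_succ_of_ne_zero hj0
  refine ⟨k, k.castSucc, by rw [hk]; exact .r, ?_⟩
  have hkv : j.val = k.val + 1 := by rw [hk]; rfl
  have hi2 := i.2
  have h5 : (b k.castSucc).natAbs ≤ 2 := by
    have e1 : (⟨k.val + 1, by omega⟩ : Fin (M + 1)) = j := Fin.ext hkv.symm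
    have h6 := hb.one k.val (by omega) (by rw [e1]; exact h1)
    rcases h6 with h6 | h6
    · exact h6
    · exfalso
      have h7 : (⟨k.val + 2, by omega⟩ : Fin (M + 1)) = i := Fin.ext (by simp; omega)
      rw [h7] at h6
      omega
  have h6 : (b k.castSucc).natAbs ≠ 0 := by
    rw [Int.natAbs_ne_zero]
    exact hb.ne _
  have h8 : (b k.castSucc).natAbs = 1 ∨ (b k.castSucc).natAbs = 2 := by omega
  unfold clsW cls
  rcases h8 with h8 | h8
  · left
    rw [if_pos h8]
  · right
    rw [if_neg (by omega), if_pos h8]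
    cases isEnd k.castSucc
    · left
      rfl
    · right
      rfl

/-- the inner variable of a digit `3` between two digits `1` -/
theorem mid_low (hb : ClassW b) (N : LocM1 b zs) (U : LocM4 b zs) {h h' : Fin M}
    {i j k : Fin (M + 1)} (A : Adj h i 0 j) (A' : Adj h' i 2 k) (hi : clsW b i = .three)
    (hk : clsW b k = .one) (hj : clsW b j = .one) (hm : (tyW b i).isMid = true) :
    -(78 / 1000) ≤ ofs (b i) (zs (.inl (.inr ⟨i, hm⟩))).im := by
  obtain ⟨h2, r, A2, h5⟩ := behind_left hb A hi hj
  rcases h5 with h5 | h5 | h5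
  · exact N.one0 hm A A' A2 hi hj hk h5
  · have := N.two0 hm A A' A2 hi hj hk h5
    linarith
  · have := (U.tail hm A A' A2 hi hj h5 hk).1
    linarith

/-- the windows `LocM7` follow from `LocM1` and `LocM4` -/
theorem locM7 (hb : ClassW b) (N : LocM1 b zs) (U : LocM4 b zs) : LocM7 b zs where
  low A A' _ hi hk hj _ hm := by
    have := mid_low hb N U A A' hi hk hj hm
    linarith

end SR

end Pool.Agent.Work.MP_b30479_gtS.G2

end

section

/-!
# Windows of the rings next to a digit `1`

`rq n C k s`: the bounds for the hinge of a ring with `n` crossings next to a digit `1`; `C`: the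
class behind the digit `1`; `k`, `s`: the class at the other hinge of the ring (`s`: equal signs).
`rp n C k s`: the bounds for the other hinge. `re n C`: the bounds for a ring at an end.
-/

namespace Pool.Agent.Work.MP_b30479_gtS.G2

namespace SR

/-- hinges next to a digit `1`, 4 crossings -/
noncomputable def rq4 : Cl → Cl → Bool → R4
  | .one, .one, _ => mk4 2259 2750 1567 1820 1018 1594 403 683 (-1017) (-473) 4464 4061
  | .one, .two, _ => mk4 2267 2772 1646 1879 1066 1555 491 726 (-991) (-443) 4530 4039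
  | .one, .twoE, _ => mk4 2251 2708 1714 1896 986 1440 400 581 (-977) (-465) 4481 4081
  | .one, .three, _ => mk4 2304 2772 1698 1908 1100 1562 543 748 (-959) (-427) 4556 4013
  | .one, .threeE, _ => mk4 2284 2745 1750 1933 1056 1507 502 687 (-944) (-429) 4555 4053
  | .one, .ring, false => mk4 2306 2811 1727 1940 1102 1609 561 838 (-940) (-408) 4607 4046
  | .one, .ring, true => mk4 2326 2816 1736 2016 1117 1609 612 848 (-930) (-367) 4687 4075
  | .two, .one, _ => mk4 2602 2945 1545 1766 1262 1617 390 634 (-1088) (-753) 4618 4228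
  | .two, .two, _ => mk4 2625 2963 1611 1823 1294 1590 472 673 (-1047) (-721) 4688 4216
  | .two, .twoE, _ => mk4 2582 2896 1679 1834 1215 1476 387 537 (-1030) (-739) 4634 4247
  | .two, .three, _ => mk4 2643 2965 1666 1852 1322 1599 518 688 (-1015) (-706) 4716 4198
  | .two, .threeE, _ => mk4 2620 2936 1715 1872 1278 1537 481 635 (-996) (-704) 4711 4230
  | .two, .ring, false => mk4 2645 3007 1692 1880 1321 1665 536 777 (-999) (-685) 4771 4235
  | .two, .ring, true => mk4 2658 3012 1702 1951 1327 1665 584 782 (-983) (-642) 4844 4260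
  | .twoE, .one, _ => mk4 2452 2610 1585 1791 1569 1794 361 578 (-1284) (-1126) 4336 3975
  | .twoE, .two, _ => mk4 2479 2621 1667 1851 1606 1771 443 613 (-1246) (-1097) 4408 3965
  | .twoE, .twoE, _ => mk4 2439 2559 1733 1853 1521 1641 354 474 (-1227) (-1107) 4352 3998
  | .twoE, .three, _ => mk4 2498 2629 1727 1880 1636 1777 489 634 (-1218) (-1081) 4445 3956
  | .twoE, .threeE, _ => mk4 2477 2597 1777 1897 1588 1708 450 570 (-1198) (-1078) 4434 3984
  | .twoE, .ring, false => mk4 2502 2666 1755 1909 1634 1845 506 715 (-1203) (-1065) 4498 3992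
  | .twoE, .ring, true => mk4 2519 2666 1772 1985 1640 1845 552 715 (-1190) (-1025) 4584 4032
  | _, _, _ => mk4 0 4000 0 2500 (-10000) 10000 (-10000) 10000 (-10000) 10000 6500 10000

/-- the other hinges, 4 crossings -/
noncomputable def rp4 : Cl → Cl → Bool → R4
  | .one, .two, _ => mk4 1997 2512 1646 1879 822 1238 491 726 (-649) (-187) 4262 3771
  | .one, .twoE, _ => mk4 1707 1844 1714 1896 1418 1593 400 581 (-1091) (-951) 3676 3276
  | .one, .three, _ => mk4 2011 2285 1698 1908 666 973 543 748 (-331) (-33) 4094 3551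
  | .one, .threeE, _ => mk4 1799 1933 1750 1933 822 997 502 687 (-390) (-249) 3801 3299
  | .one, .ring, false => mk4 1920 2337 1727 1950 429 838 561 838 (-169) 302 4181 3620
  | .one, .ring, true => mk4 1800 2336 1736 2016 210 594 612 848 154 531 4180 3568
  | .two, .two, _ => mk4 2023 2504 1611 1823 812 1213 472 673 (-661) (-211) 4205 3733
  | .two, .twoE, _ => mk4 1707 1835 1679 1834 1423 1568 387 537 (-1102) (-971) 3609 3222
  | .two, .three, _ => mk4 2011 2282 1666 1852 670 944 518 688 (-344) (-70) 4038 3520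
  | .two, .threeE, _ => mk4 1803 1930 1715 1872 818 964 481 635 (-400) (-270) 3740 3259
  | .two, .ring, false => mk4 1928 2343 1692 1880 416 805 536 777 (-184) 277 4133 3597
  | .two, .ring, true => mk4 1815 2343 1702 1951 185 558 584 782 142 510 4133 3549
  | .twoE, .two, _ => mk4 1999 2480 1667 1851 769 1157 443 613 (-651) (-216) 4207 3764
  | .twoE, .twoE, _ => mk4 1696 1816 1733 1853 1384 1504 354 474 (-1090) (-970) 3609 3255
  | .twoE, .three, _ => mk4 1996 2260 1727 1880 635 889 489 634 (-337) (-61) 4047 3558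
  | .twoE, .threeE, _ => mk4 1791 1911 1777 1897 783 903 450 570 (-393) (-273) 3749 3299
  | .twoE, .ring, false => mk4 1915 2318 1755 1919 391 757 506 715 (-183) 264 4150 3644
  | .twoE, .ring, true => mk4 1807 2318 1772 1985 160 510 552 715 140 493 4150 3598
  | _, _, _ => mk4 0 4000 0 2500 (-10000) 10000 (-10000) 10000 (-10000) 10000 6500 10000

/-- ends, 4 crossings -/
noncomputable def re4 : Cl → R4
  | .one => mk4 2163 2605 1974 2179 820 1201 298 495 (-864) (-385) 4638 4340
  | .two => mk4 2480 2791 1927 2094 1031 1280 293 449 (-927) (-642) 4778 4485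
  | .twoE => mk4 2352 2472 1985 2105 1313 1433 244 364 (-1129) (-1009) 4517 4273
  | _ => mk4 0 4000 0 2500 (-10000) 10000 (-10000) 10000 (-10000) 10000 6500 10000

/-- hinges next to a digit `1`, 5 crossings -/
noncomputable def rq5 : Cl → Cl → Bool → R4
  | .one, .one, _ => mk4 2233 2772 1321 1626 931 1554 236 547 (-1113) (-536) 4252 4016
  | .one, .two, _ => mk4 2245 2775 1383 1673 964 1564 294 572 (-1094) (-518) 4300 4006
  | .one, .twoE, _ => mk4 2220 2729 1428 1673 906 1483 226 470 (-1093) (-536) 4257 4031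
  | .one, .three, _ => mk4 2247 2778 1428 1697 987 1569 331 590 (-1072) (-510) 4321 3990
  | .one, .threeE, _ => mk4 2235 2760 1461 1709 955 1529 296 543 (-1070) (-512) 4321 4025
  | .one, .ring, false => mk4 2247 2797 1449 1721 995 1616 338 656 (-1066) (-493) 4362 4024
  | .one, .ring, true => mk4 2249 2800 1463 1779 999 1622 371 656 (-1055) (-471) 4412 4041
  | .two, .one, _ => mk4 2549 2954 1298 1583 1197 1592 229 517 (-1225) (-824) 4411 4182
  | .two, .two, _ => mk4 2558 2961 1357 1629 1218 1596 289 543 (-1198) (-804) 4461 4172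
  | .two, .twoE, _ => mk4 2534 2924 1400 1627 1163 1514 221 442 (-1193) (-821) 4424 4203
  | .two, .three, _ => mk4 2567 2963 1400 1651 1237 1599 316 557 (-1178) (-794) 4480 4164
  | .two, .threeE, _ => mk4 2552 2945 1434 1662 1206 1556 286 510 (-1170) (-797) 4479 4193
  | .two, .ring, false => mk4 2566 2988 1422 1674 1236 1646 330 616 (-1168) (-779) 4525 4195
  | .two, .ring, true => mk4 2573 2988 1437 1731 1247 1646 357 616 (-1154) (-754) 4574 4217
  | .twoE, .one, _ => mk4 2391 2611 1331 1597 1509 1762 207 475 (-1411) (-1186) 4107 3900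
  | .twoE, .two, _ => mk4 2403 2616 1396 1644 1534 1765 261 497 (-1386) (-1168) 4158 3897
  | .twoE, .twoE, _ => mk4 2380 2580 1436 1636 1475 1675 195 395 (-1380) (-1180) 4116 3921
  | .twoE, .three, _ => mk4 2413 2619 1442 1668 1554 1769 292 510 (-1368) (-1158) 4184 3892
  | .twoE, .threeE, _ => mk4 2400 2600 1475 1675 1520 1720 261 461 (-1359) (-1159) 4175 3914
  | .twoE, .ring, false => mk4 2413 2639 1465 1692 1552 1816 301 568 (-1359) (-1147) 4223 3922
  | .twoE, .ring, true => mk4 2420 2639 1484 1751 1557 1816 331 589 (-1347) (-1122) 4282 3951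
  | _, _, _ => mk4 0 4000 0 2500 (-10000) 10000 (-10000) 10000 (-10000) 10000 6500 10000

/-- the other hinges, 5 crossings -/
noncomputable def rp5 : Cl → Cl → Bool → R4
  | .one, .two, _ => mk4 2007 2538 1383 1673 695 1202 294 572 (-777) (-240) 4059 3765
  | .one, .twoE, _ => mk4 1650 1860 1428 1673 1322 1560 226 470 (-1202) (-990) 3431 3205
  | .one, .three, _ => mk4 1977 2326 1428 1697 552 916 331 590 (-454) (-80) 3895 3564
  | .one, .threeE, _ => mk4 1763 1970 1461 1709 691 930 296 543 (-499) (-287) 3577 3281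
  | .one, .ring, false => mk4 1898 2416 1449 1721 272 766 338 656 (-287) 248 4017 3679
  | .one, .ring, true => mk4 1821 2416 1463 1779 15 507 371 656 34 499 4017 3646
  | .two, .two, _ => mk4 2012 2537 1357 1629 688 1187 289 543 (-784) (-254) 4017 3728
  | .two, .twoE, _ => mk4 1652 1856 1400 1627 1327 1544 221 442 (-1209) (-1003) 3382 3161
  | .two, .three, _ => mk4 1983 2329 1400 1651 548 897 316 557 (-461) (-93) 3853 3537
  | .two, .threeE, _ => mk4 1767 1971 1434 1662 690 909 286 510 (-505) (-299) 3531 3245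
  | .two, .ring, false => mk4 1904 2422 1422 1674 265 746 330 616 (-299) 233 3980 3650
  | .two, .ring, true => mk4 1831 2422 1437 1731 3 482 357 616 27 494 3980 3623
  | .twoE, .two, _ => mk4 2002 2522 1396 1644 656 1186 261 517 (-780) (-259) 4017 3756
  | .twoE, .twoE, _ => mk4 1645 1845 1436 1636 1299 1539 195 435 (-1203) (-1003) 3381 3186
  | .twoE, .three, _ => mk4 1973 2315 1442 1668 508 856 292 530 (-459) (-98) 3857 3565
  | .twoE, .threeE, _ => mk4 1760 1960 1475 1675 664 884 261 481 (-503) (-303) 3535 3274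
  | .twoE, .ring, false => mk4 1897 2407 1465 1692 245 729 301 588 (-299) 223 3991 3690
  | .twoE, .ring, true => mk4 1828 2407 1484 1751 (-23) 444 331 589 24 483 3991 3660
  | _, _, _ => mk4 0 4000 0 2500 (-10000) 10000 (-10000) 10000 (-10000) 10000 6500 10000

/-- ends, 5 crossings -/
noncomputable def re5 : Cl → R4
  | .one => mk4 2180 2677 1605 1865 790 1274 140 391 (-1026) (-499) 4382 4242
  | .two => mk4 2471 2859 1571 1805 1037 1381 141 364 (-1140) (-772) 4530 4389
  | .twoE => mk4 2326 2526 1608 1808 1334 1534 106 306 (-1328) (-1128) 4235 4129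
  | _ => mk4 0 4000 0 2500 (-10000) 10000 (-10000) 10000 (-10000) 10000 6500 10000

/-- hinges next to a digit `1`, 6 crossings -/
noncomputable def rq6 : Cl → Cl → Bool → R4
  | .one, .one, _ => mk4 2243 2781 1148 1459 886 1522 133 457 (-1181) (-591) 4077 3944
  | .one, .two, _ => mk4 2241 2787 1185 1496 909 1533 179 472 (-1164) (-569) 4121 3942
  | .one, .twoE, _ => mk4 2226 2765 1214 1491 858 1471 123 394 (-1164) (-583) 4099 3976
  | .one, .three, _ => mk4 2245 2786 1222 1514 918 1528 201 479 (-1144) (-565) 4134 3933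
  | .one, .threeE, _ => mk4 2234 2753 1247 1522 894 1501 172 447 (-1142) (-567) 4119 3947
  | .one, .ring, false => mk4 2245 2795 1239 1536 918 1573 203 532 (-1139) (-552) 4170 3967
  | .one, .ring, true => mk4 2246 2793 1255 1582 935 1569 225 532 (-1135) (-540) 4198 3973
  | .two, .one, _ => mk4 2528 2958 1131 1426 1155 1585 130 432 (-1307) (-886) 4239 4109
  | .two, .two, _ => mk4 2536 2969 1166 1461 1174 1590 175 450 (-1291) (-864) 4285 4110
  | .two, .twoE, _ => mk4 2516 2944 1194 1454 1132 1530 120 376 (-1290) (-877) 4258 4138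
  | .two, .three, _ => mk4 2536 2969 1202 1479 1192 1594 192 460 (-1278) (-857) 4300 4108
  | .two, .threeE, _ => mk4 2527 2957 1223 1485 1165 1562 168 425 (-1274) (-860) 4300 4132
  | .two, .ring, false => mk4 2535 2983 1218 1499 1186 1628 200 505 (-1271) (-845) 4336 4136
  | .two, .ring, true => mk4 2542 2983 1233 1544 1191 1628 218 505 (-1260) (-831) 4367 4149
  | .twoE, .one, _ => mk4 2363 2615 1142 1434 1476 1755 112 403 (-1488) (-1232) 3929 3817
  | .twoE, .two, _ => mk4 2369 2617 1193 1471 1494 1757 150 417 (-1472) (-1220) 3967 3817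
  | .twoE, .twoE, _ => mk4 2355 2595 1220 1460 1450 1690 100 340 (-1469) (-1229) 3935 3835
  | .twoE, .three, _ => mk4 2374 2618 1230 1490 1508 1758 172 424 (-1460) (-1214) 3986 3814
  | .twoE, .threeE, _ => mk4 2366 2606 1252 1492 1483 1723 147 387 (-1456) (-1216) 3979 3832
  | .twoE, .ring, false => mk4 2374 2630 1248 1510 1506 1793 176 468 (-1454) (-1205) 4016 3840
  | .twoE, .ring, true => mk4 2377 2630 1266 1556 1510 1793 197 468 (-1445) (-1190) 4059 3862
  | _, _, _ => mk4 0 4000 0 2500 (-10000) 10000 (-10000) 10000 (-10000) 10000 6500 10000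

/-- the other hinges, 6 crossings -/
noncomputable def rp6 : Cl → Cl → Bool → R4
  | .one, .two, _ => mk4 1995 2558 1185 1496 610 1174 179 472 (-852) (-278) 3896 3717
  | .one, .twoE, _ => mk4 1626 1871 1214 1491 1267 1534 123 394 (-1268) (-1020) 3241 3118
  | .one, .three, _ => mk4 1973 2357 1222 1514 472 870 201 479 (-525) (-126) 3731 3530
  | .one, .threeE, _ => mk4 1751 1995 1247 1522 612 881 172 447 (-562) (-315) 3396 3224
  | .one, .ring, false => mk4 1896 2471 1239 1536 170 715 203 532 (-352) 214 3875 3672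
  | .one, .ring, true => mk4 1844 2470 1255 1582 (-107) 436 225 532 (-33) 489 3875 3650
  | .two, .two, _ => mk4 1996 2559 1166 1461 613 1162 175 450 (-857) (-286) 3863 3688
  | .two, .twoE, _ => mk4 1627 1870 1194 1454 1271 1524 120 376 (-1272) (-1028) 3204 3084
  | .two, .three, _ => mk4 1976 2359 1202 1479 459 856 192 460 (-529) (-132) 3698 3506
  | .two, .threeE, _ => mk4 1754 1997 1223 1485 613 867 168 425 (-566) (-322) 3360 3192
  | .two, .ring, false => mk4 1900 2475 1218 1499 166 700 200 505 (-362) 206 3845 3645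
  | .two, .ring, true => mk4 1851 2475 1233 1544 (-118) 417 218 505 (-37) 486 3845 3627
  | .twoE, .two, _ => mk4 1990 2550 1193 1471 585 1132 150 417 (-855) (-289) 3863 3713
  | .twoE, .twoE, _ => mk4 1622 1862 1220 1460 1250 1490 100 340 (-1269) (-1029) 3202 3102
  | .twoE, .three, _ => mk4 1970 2351 1230 1490 434 825 172 424 (-529) (-130) 3701 3529
  | .twoE, .threeE, _ => mk4 1750 1990 1252 1492 593 833 147 387 (-565) (-325) 3362 3215
  | .twoE, .ring, false => mk4 1896 2466 1248 1510 150 669 176 468 (-364) 198 3852 3676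
  | .twoE, .ring, true => mk4 1850 2466 1266 1556 (-143) 388 197 468 (-40) 480 3852 3655
  | _, _, _ => mk4 0 4000 0 2500 (-10000) 10000 (-10000) 10000 (-10000) 10000 6500 10000

/-- ends, 6 crossings -/
noncomputable def re6 : Cl → R4
  | .one => mk4 2188 2723 1343 1628 772 1316 52 328 (-1138) (-564) 4186 4134
  | .two => mk4 2475 2902 1318 1583 1040 1434 54 311 (-1259) (-849) 4340 4286
  | .twoE => mk4 2320 2560 1344 1584 1348 1588 29 269 (-1440) (-1200) 4024 3995
  | _ => mk4 0 4000 0 2500 (-10000) 10000 (-10000) 10000 (-10000) 10000 6500 10000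

variable {M : ℕ}

/-- **Windows of the rings with `n` crossings next to a digit `1`.** Region `i` (ring), `j` (digit
`1`), `r` (behind `j`), `k` (at the other hinge `h'` of `i`). -/
structure LocRw (n : ℕ) (q r : Cl → Cl → Bool → R4) (e : Cl → R4) (b : Fin (M + 1) → ℤ)
    (zs : DD (tyW b) ⊕ ZZ (tyW b) → ℂ) : Prop where
  own : ∀ {h h' h2 : Fin M} {i j k g : Fin (M + 1)} {p : Fin 3} (v : ZZ (tyW b)), v.1 = i →
    Adj h i p j → Adj h2 j p g → Adj h' i p.rev k → clsW b i = .ring → (b i).natAbs = n →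
    clsW b j = .one →
    (q (clsW b g) (clsW b k) (ssW b h')).In (ofr (b i) (zs (.inl (.inl h)))) (ofz (b i) (zs (.inr v)))
  par : ∀ {h h' h2 : Fin M} {i j k g : Fin (M + 1)} {p : Fin 3} (v : ZZ (tyW b)), v.1 = i →
    Adj h i p j → Adj h2 j p g → Adj h' i p.rev k → clsW b i = .ring → (b i).natAbs = n →
    clsW b j = .one → clsW b k ≠ .one →
    (r (clsW b g) (clsW b k) (ssW b h')).In (ofr (b i) (zs (.inl (.inl h'))))
      (ofz (b i) (zs (.inr v)))
  fin : ∀ {h h2 : Fin M} {i j g : Fin (M + 1)} {p : Fin 3} (v : ZZ (tyW b)), v.1 = i →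
    Adj h i p j → Adj h2 j p g → isEnd i = true → clsW b i = .ring → (b i).natAbs = n →
    clsW b j = .one →
    (e (clsW b g)).In (ofr (b i) (zs (.inl (.inl h)))) (ofz (b i) (zs (.inr v)))

end SR

end Pool.Agent.Work.MP_b30479_gtS.G2

end

section

/-!
# Windows of the rings in the words `2 1 n 1 2`
-/

namespace Pool.Agent.Work.MP_b30479_gtS.G2

namespace SR

/-- the hinges of a ring with four crossings between two digits `1` with a `2` behind each -/
noncomputable def rw4 : R4 := mk4 2640 2905 1570 1685 1320 1585 450 560 (-1070) (-815) 4535 4085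

/-- the same for five crossings -/
noncomputable def rw5 : R4 := mk4 2620 2880 1370 1480 1285 1555 320 425 (-1170) (-915) 4315 3995

variable {M : ℕ}

/-- **Windows of the rings in the words `2 1 n 1 2`.** -/
structure LocR2 (n : ℕ) (e : R4) (b : Fin (M + 1) → ℤ) (zs : DD (tyW b) ⊕ ZZ (tyW b) → ℂ) :
    Prop where
  two : ∀ {h h' h2 h3 : Fin M} {i j k g g' : Fin (M + 1)} {p : Fin 3} (v : ZZ (tyW b)), v.1 = i →
    Adj h i p j → Adj h2 j p g → Adj h' i p.rev k → Adj h3 k p.rev g' → clsW b i = .ring →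
    (b i).natAbs = n → clsW b j = .one → clsW b k = .one → clsW b g = .two → clsW b g' = .two →
    e.In (ofr (b i) (zs (.inl (.inl h)))) (ofz (b i) (zs (.inr v)))

end SR

end Pool.Agent.Work.MP_b30479_gtS.G2

end
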