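import Pool.Agent.Work.MP_b30479_gt.TBS.G2.MLev
import Pool.Agent.Work.MP_b30479_gt.TBS.G2.RngA
import Pool.Agent.Work.MP_b30479_gt.TBS.G2.Num.Fn
import Pool.Agent.Work.MP_b30479_gt.TBS.G2.MLA
import Pool.Agent.Work.MP_b30479_gt.TBS.G2.MRBase

section

/-!
# Rings on the level part: closed forms

`a = tan (π x / 2)`, `B = tan (π y / 2)` with `y = 1/2 + σ` (`σ ≤ 0` the real part of the ring
variable), `u`, `v`, `τ` are `sinh²` of `π (T + ρ)`, `π (T - ρ)`, `π T`.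
-/

namespace Pool.Agent.Work.MP_b30479_gtS.G2

open Real Set VOL

namespace RC

def kq (a B : ℝ) : ℝ := (1 + a ^ 2) * (1 + B ^ 2)
def NP (a B u : ℝ) : ℝ := 4 * (a + B) ^ 2 * (1 - a * B) ^ 2 + u * kq a B ^ 2
def NM (a B v : ℝ) : ℝ := 4 * (B - a) ^ 2 * (1 + a * B) ^ 2 + v * kq a B ^ 2
def NW (a B τ : ℝ) : ℝ := 4 * a ^ 2 * (1 + B ^ 2) ^ 2 + τ * kq a B ^ 2

theorem kq_pos (a B : ℝ) : 0 < kq a B := by unfold kq; positivity

/-- half angle tangent -/
noncomputable def ta (x : ℝ) : ℝ := Real.tan (π * x / 2)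

/-- `sinh²` -/
noncomputable def shq (t : ℝ) : ℝ := Real.sinh (π * t) ^ 2

theorem shq_nonneg (t : ℝ) : 0 ≤ shq t := sq_nonneg _

theorem shq_neg (t : ℝ) : shq (-t) = shq t := by
  unfold shq
  rw [mul_neg, Real.sinh_neg]
  ring

theorem ta_pos {x : ℝ} (hx : x ∈ Ioo (0 : ℝ) 1) : 0 < ta x := by
  have h1 := Real.pi_pos
  exact Real.tan_pos_of_pos_of_lt_pi_div_two (by have := hx.1; positivity) (by nlinarith only [h1, hx, hx.2])

theorem log_ta (x : ℝ) : Real.log (ta x) = gh x := rfl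

theorem cos_half_pos {x : ℝ} (hx : x ∈ Ioo (0 : ℝ) 1) : 0 < Real.cos (π * x / 2) := by
  have h1 := Real.pi_pos
  apply Real.cos_pos_of_mem_Ioo
  constructor
  · have := mul_pos h1 hx.1
    linarith only [h1, this]
  · nlinarith only [h1, hx, hx.2]

theorem sin_ta {x : ℝ} (hx : x ∈ Ioo (0 : ℝ) 1) : Real.sin (π * x) = 2 * ta x / (1 + ta x ^ 2) := by
  have hc := cos_half_pos hx
  have e : π * x = 2 * (π * x / 2) := by ring
  have h2 := Real.sin_sq_add_cos_sq (π * x / 2)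
  unfold ta
  rw [Real.tan_eq_sin_div_cos]
  nth_rewrite 1 [e]
  rw [Real.sin_two_mul, eq_div_iff (by positivity)]
  field_simp
  linear_combination (Real.sin (π * x / 2)) * h2

theorem cos_ta {x : ℝ} (hx : x ∈ Ioo (0 : ℝ) 1) :
    Real.cos (π * x) = (1 - ta x ^ 2) / (1 + ta x ^ 2) := by
  have hc := cos_half_pos hx
  have e : π * x = 2 * (π * x / 2) := by ring
  have h2 := Real.sin_sq_add_cos_sq (π * x / 2)
  unfold ta
  rw [Real.tan_eq_sin_div_cos]
  nth_rewrite 1 [e]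
  rw [Real.cos_two_mul, eq_div_iff (by positivity)]
  field_simp
  linear_combination (2 * Real.cos (π * x / 2) ^ 2) * h2

theorem sin_add_ta {x y : ℝ} (hx : x ∈ Ioo (0 : ℝ) 1) (hy : y ∈ Ioo (0 : ℝ) 1) :
    Real.sin (π * (x + y)) = 2 * (ta x + ta y) * (1 - ta x * ta y) / kq (ta x) (ta y) := by
  rw [mul_add, Real.sin_add, sin_ta hx, sin_ta hy, cos_ta hx, cos_ta hy]
  unfold kq
  field_simp
  ring

theorem sin_sub_ta {x y : ℝ} (hx : x ∈ Ioo (0 : ℝ) 1) (hy : y ∈ Ioo (0 : ℝ) 1) :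
    Real.sin (π * (y - x)) = 2 * (ta y - ta x) * (1 + ta x * ta y) / kq (ta x) (ta y) := by
  rw [mul_sub, Real.sin_sub, sin_ta hx, sin_ta hy, cos_ta hx, cos_ta hy]
  unfold kq
  field_simp
  ring

/-- closed form of `LL` -/
theorem LL_lv_eq (x t : ℝ) :
    LL (lv x t) = Real.log (4 * (Real.sin (π * x) ^ 2 + shq t)) / 2 := by
  rw [LL_eq', lv_re, lv_im]
  congr 2
  unfold shq
  rw [mul_assoc 2 π x, mul_assoc 2 π t, Real.cos_two_mul, Real.cosh_two_mul]
  have e1 := Real.sin_sq_add_cos_sq (π * x)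
  have e2 := Real.cosh_sq (π * t)
  linarith only [e1, e2]

theorem LL_plus {x y : ℝ} (hx : x ∈ Ioo (0 : ℝ) 1) (hy : y ∈ Ioo (0 : ℝ) 1) (t : ℝ) :
    LL (lv (x + y) t) = Real.log (4 * NP (ta x) (ta y) (shq t) / kq (ta x) (ta y) ^ 2) / 2 := by
  rw [LL_lv_eq, sin_add_ta hx hy]
  congr 2
  have := (kq_pos (ta x) (ta y)).ne'
  unfold NP
  field_simp
  ring

theorem LL_minus {x y : ℝ} (hx : x ∈ Ioo (0 : ℝ) 1) (hy : y ∈ Ioo (0 : ℝ) 1) (t : ℝ) :
    LL (lv (y - x) t) = Real.log (4 * NM (ta x) (ta y) (shq t) / kq (ta x) (ta y) ^ 2) / 2 := by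
  rw [LL_lv_eq, sin_sub_ta hx hy]
  congr 2
  have := (kq_pos (ta x) (ta y)).ne'
  unfold NM
  field_simp
  ring

theorem LL_own {x : ℝ} (hx : x ∈ Ioo (0 : ℝ) 1) (B t : ℝ) :
    LL (lv x t) = Real.log (4 * NW (ta x) B (shq t) / kq (ta x) B ^ 2) / 2 := by
  rw [LL_lv_eq, sin_ta hx]
  congr 2
  unfold NW kq
  field_simp
  ring

/-- the side of a ring in the hinge `x + i T`, ring variable `y - 1/2 + i ρ` -/
noncomputable def Sx (x y T η : ℝ) : ℝ :=
  LL (lv (x + y) (T + η)) + LL (lv (y - x) (T - η)) - 2 * LL (lv x T)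

/-- the contribution of the hinge to the derivative in the ring variable -/
noncomputable def Dx (x y T η : ℝ) : ℝ := LL (lv (x + y) (T + η)) - LL (lv (y - x) (T - η))

theorem LL_lv_neg (x t : ℝ) : LL (lv x (-t)) = LL (lv x t) := by
  rw [LL_lv_eq, LL_lv_eq, shq_neg]

theorem fac_minus (x y T η : ℝ) :
    LL (lv x T + 1 / 2 - lv (y - 1 / 2) η) = LL (lv (y - x) (T - η)) := by
  rw [← LL_one_sub, ← LL_lv_neg (y - x) (T - η)]
  congr 1
  unfold lv
  push_cast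
  ring

theorem fac_plus (x y T η : ℝ) :
    LL (lv x T + 1 / 2 + lv (y - 1 / 2) η) = LL (lv (x + y) (T + η)) := by
  congr 1
  unfold lv
  push_cast
  ring

theorem S4_eq (x y T η : ℝ) : S4 0 (lv x T) (lv (y - 1 / 2) η) = Sx x y T η := by
  unfold S4 Sx
  rw [fac_plus, fac_minus]
  ring

theorem Dm_eq (x y T η : ℝ) : Dm 0 (lv x T) (lv (y - 1 / 2) η) = Dx x y T η := by
  unfold Dm Dq Dx
  rw [fac_plus, fac_minus]
  ring

theorem NP_pos {a B : ℝ} (ha : 0 < a) (hB : 0 < B) (h : a * B < 1) {u : ℝ} (hu : 0 ≤ u) :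
    0 < NP a B u := by
  unfold NP
  have h1 : 0 < 1 - a * B := by linarith only [h]
  positivity

theorem NW_pos {a B : ℝ} (ha : 0 < a) {u : ℝ} (hu : 0 ≤ u) : 0 < NW a B u := by
  unfold NW
  positivity

theorem log_NN {N k : ℝ} (hN : 0 < N) (hk : 0 < k) :
    Real.log (4 * N / k ^ 2) = Real.log 4 + Real.log N - 2 * Real.log k := by
  rw [Real.log_div (by positivity) (by positivity), Real.log_mul (by norm_num) hN.ne',
    Real.log_pow]
  push_cast
  ring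

section
variable {x y T η : ℝ}

theorem Dx_eq (hx : x ∈ Ioo (0 : ℝ) 1) (hy : y ∈ Ioo (0 : ℝ) 1)
    (hp : 0 < NP (ta x) (ta y) (shq (T + η))) (hm : 0 < NM (ta x) (ta y) (shq (T - η))) :
    Dx x y T η = (Real.log (NP (ta x) (ta y) (shq (T + η))) -
      Real.log (NM (ta x) (ta y) (shq (T - η)))) / 2 := by
  unfold Dx
  rw [LL_plus hx hy, LL_minus hx hy, log_NN hp (kq_pos _ _), log_NN hm (kq_pos _ _)]
  ring

theorem Sx_eq (hx : x ∈ Ioo (0 : ℝ) 1) (hy : y ∈ Ioo (0 : ℝ) 1)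
    (hp : 0 < NP (ta x) (ta y) (shq (T + η))) (hm : 0 < NM (ta x) (ta y) (shq (T - η)))
    (hw : 0 < NW (ta x) (ta y) (shq T)) :
    Sx x y T η = (Real.log (NP (ta x) (ta y) (shq (T + η))) +
      Real.log (NM (ta x) (ta y) (shq (T - η)))) / 2 -
      Real.log (NW (ta x) (ta y) (shq T)) := by
  unfold Sx
  rw [LL_plus hx hy, LL_minus hx hy, LL_own hx (ta y), log_NN hp (kq_pos _ _),
    log_NN hm (kq_pos _ _), log_NN hw (kq_pos _ _)]
  ring

end

/-- comparison of the contributions to the derivative -/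
theorem Dx_lt {x y x' y' T η : ℝ} (hx : x ∈ Ioo (0 : ℝ) 1) (hy : y ∈ Ioo (0 : ℝ) 1)
    (hx' : x' ∈ Ioo (0 : ℝ) 1) (hy' : y' ∈ Ioo (0 : ℝ) 1)
    (hp : 0 < NP (ta x) (ta y) (shq (T + η))) (hm : 0 < NM (ta x) (ta y) (shq (T - η)))
    (hp' : 0 < NP (ta x') (ta y') (shq (T + η))) (hm' : 0 < NM (ta x') (ta y') (shq (T - η)))
    (h : NP (ta x) (ta y) (shq (T + η)) * NM (ta x') (ta y') (shq (T - η)) <
      NP (ta x') (ta y') (shq (T + η)) * NM (ta x) (ta y) (shq (T - η))) :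
    Dx x y T η < Dx x' y' T η := by
  rw [Dx_eq hx hy hp hm, Dx_eq hx' hy' hp' hm']
  have h1 := Real.log_lt_log (by positivity) h
  rw [Real.log_mul hp.ne' hm'.ne', Real.log_mul hp'.ne' hm.ne'] at h1
  linarith only [h1]

/-- comparison of the sides -/
theorem Sx_lt {x y x' y' T η : ℝ} (hx : x ∈ Ioo (0 : ℝ) 1) (hy : y ∈ Ioo (0 : ℝ) 1)
    (hx' : x' ∈ Ioo (0 : ℝ) 1) (hy' : y' ∈ Ioo (0 : ℝ) 1)
    (hp : 0 < NP (ta x) (ta y) (shq (T + η))) (hm : 0 < NM (ta x) (ta y) (shq (T - η)))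
    (hp' : 0 < NP (ta x') (ta y') (shq (T + η))) (hm' : 0 < NM (ta x') (ta y') (shq (T - η)))
    (h : NP (ta x) (ta y) (shq (T + η)) * NM (ta x) (ta y) (shq (T - η)) *
        NW (ta x') (ta y') (shq T) ^ 2 <
      NP (ta x') (ta y') (shq (T + η)) * NM (ta x') (ta y') (shq (T - η)) *
        NW (ta x) (ta y) (shq T) ^ 2) :
    Sx x y T η < Sx x' y' T η := by
  have hw := NW_pos (B := ta y) (ta_pos hx) (shq_nonneg T)
  have hw' := NW_pos (B := ta y') (ta_pos hx') (shq_nonneg T)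
  rw [Sx_eq hx hy hp hm hw, Sx_eq hx' hy' hp' hm' hw']
  have h1 := Real.log_lt_log (by positivity) h
  rw [Real.log_mul (by positivity) (by positivity), Real.log_mul hp.ne' hm.ne',
    Real.log_mul (by positivity) (by positivity), Real.log_mul hp'.ne' hm'.ne', Real.log_pow,
    Real.log_pow] at h1
  push_cast at h1
  linarith only [h1]

end RC

end Pool.Agent.Work.MP_b30479_gtS.G2

end

section

/-!
# Rings on the level part: derivatives along the gauge curves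
-/

namespace Pool.Agent.Work.MP_b30479_gtS.G2

open Real Set VOL

namespace RC

/-- coefficient of the displacement of the hinge in the derivative of the side -/
noncomputable def SA (x y T η : ℝ) : ℝ := Real.sin (π * x) *
  (NumIs.PP (x + y) (T + η) - NumIs.PP (y - x) (T - η) - 2 * NumIs.PP x T)

/-- coefficient of the displacement of the ring variable in the derivative of the side -/
noncomputable def SB (x y T η : ℝ) : ℝ := Real.sin (π * y) *
  (NumIs.PP (x + y) (T + η) + NumIs.PP (y - x) (T - η))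

/-- the same for the contribution to the derivative -/
noncomputable def DA (x y T η : ℝ) : ℝ := Real.sin (π * x) *
  (NumIs.PP (x + y) (T + η) + NumIs.PP (y - x) (T - η))

noncomputable def DB (x y T η : ℝ) : ℝ := Real.sin (π * y) *
  (NumIs.PP (x + y) (T + η) - NumIs.PP (y - x) (T - η))

/-- no factor is singular -/
def Nz (x y T η : ℝ) : Prop :=
  Complex.sin (Real.pi * lv (x + y) (T + η)) ≠ 0 ∧ Complex.sin (Real.pi * lv (y - x) (T - η)) ≠ 0

theorem CC_lv (x t : ℝ) : CC (lv x t) = π * NumIs.PP x t := by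
  rw [Num.CC_PP, lv_re, lv_im]

theorem hasDerivAt_LL_lv' {x t : ℝ} (h : Complex.sin (Real.pi * lv x t) ≠ 0) :
    HasDerivAt (fun x : ℝ => LL (lv x t)) (π * NumIs.PP x t) x := by
  have e : ∀ x : ℝ, (t : ℂ) * Complex.I + (x : ℂ) = lv x t := by
    intro x
    unfold lv
    ring
  have h := hasDerivAt_LL_level ((t : ℂ) * Complex.I) 1 x (by rw [one_mul, e]; exact h)
  simpa only [one_mul, e, CC_lv] using h

section
variable {X Y : ℝ → ℝ} {θ L1 L2 T η : ℝ}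

theorem hasDerivAt_Sx (hX : HasDerivAt X (L1 * (Real.sin (π * X θ) / π)) θ)
    (hY : HasDerivAt Y (L2 * (Real.sin (π * Y θ) / π)) θ) (h0 : X θ ∈ Ioo (0 : ℝ) 1)
    (hn : Nz (X θ) (Y θ) T η) :
    HasDerivAt (fun θ => Sx (X θ) (Y θ) T η)
      (L1 * SA (X θ) (Y θ) T η + L2 * SB (X θ) (Y θ) T η) θ := by
  have hpi := Real.pi_pos
  have h1 := (hasDerivAt_LL_lv' hn.1).comp θ (hX.add hY)
  have h2 := (hasDerivAt_LL_lv' hn.2).comp θ (hY.sub hX)
  have h3 := (hasDerivAt_LL_lv' (lv_sin_ne (t := T) h0.1 h0.2)).comp θ hX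
  unfold Sx
  refine ((h1.add h2).sub (h3.const_mul 2)).congr_deriv ?_
  unfold SA SB
  field_simp
  ring

theorem hasDerivAt_Dx (hX : HasDerivAt X (L1 * (Real.sin (π * X θ) / π)) θ)
    (hY : HasDerivAt Y (L2 * (Real.sin (π * Y θ) / π)) θ) (hn : Nz (X θ) (Y θ) T η) :
    HasDerivAt (fun θ => Dx (X θ) (Y θ) T η)
      (L1 * DA (X θ) (Y θ) T η + L2 * DB (X θ) (Y θ) T η) θ := by
  have hpi := Real.pi_pos
  have h1 := (hasDerivAt_LL_lv' hn.1).comp θ (hX.add hY)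
  have h2 := (hasDerivAt_LL_lv' hn.2).comp θ (hY.sub hX)
  unfold Dx
  refine (h1.sub h2).congr_deriv ?_
  unfold DA DB
  field_simp
  ring

end

/-! ### the diagonal -/

/-- `- 2 (cos φ + cos ψ)` times half the derivative of the side along the diagonal -/
noncomputable def WW (x y T η : ℝ) : ℝ :=
  2 * Real.sin (π * y) ^ 2 -
    2 * Real.cos (π * x) * (Real.cos (π * x) + Real.cos (π * y)) *
      (shq T / (Real.sin (π * x) ^ 2 + shq T)) +
    (1 + Real.cos (π * (x + y))) * Real.cos (π * (y - x)) *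
      (shq (T - η) / (Real.sin (π * (y - x)) ^ 2 + shq (T - η))) +
    (1 + Real.cos (π * (y - x))) * Real.cos (π * (x + y)) *
      (shq (T + η) / (Real.sin (π * (x + y)) ^ 2 + shq (T + η)))

theorem MM_pos_of {x t : ℝ} (h : Complex.sin (Real.pi * lv x t) ≠ 0) :
    0 < Real.sin (π * x) ^ 2 + shq t := by
  have h1 : (0 : ℝ) ≤ Real.sin (π * x) ^ 2 := sq_nonneg _
  have h2 := shq_nonneg t
  rcases (add_nonneg h1 h2).lt_or_eq with h3 | h3
  · exact h3
  · exfalso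
    have h4 : Real.sin (π * x) = 0 := by
      have : Real.sin (π * x) ^ 2 = 0 := by linarith only [h1, h2, h3]
      exact pow_eq_zero_iff (two_ne_zero) |>.1 this
    have h5 : Real.sinh (π * t) = 0 := by
      have : Real.sinh (π * t) ^ 2 = 0 := by unfold shq at h2 h3; linarith only [h2, h1, h3]
      exact pow_eq_zero_iff (two_ne_zero) |>.1 this
    apply h
    have e : (Real.pi : ℂ) * lv x t = ((π * x : ℝ) : ℂ) + ((π * t : ℝ) : ℂ) * Complex.I := by
      unfold lv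
      push_cast
      ring
    rw [e, Complex.sin_add_mul_I, ← Complex.ofReal_sin, ← Complex.ofReal_cos,
      ← Complex.ofReal_sinh, h4, h5]
    simp

theorem diag_eq {x y T η : ℝ} (h0 : x ∈ Ioo (0 : ℝ) 1) (hn : Nz x y T η) :
    (Real.cos (π * x) + Real.cos (π * y)) * (SA x y T η + SB x y T η) = -WW x y T η := by
  have m1 := MM_pos_of hn.1
  have m2 := MM_pos_of hn.2
  have m3 := MM_pos_of (lv_sin_ne (t := T) h0.1 h0.2)
  unfold SA SB WW NumIs.PP NumIs.MM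
  have ep : π * (x + y) = π * x + π * y := by ring
  have em : π * (y - x) = π * y - π * x := by ring
  change (Real.cos (π * x) + Real.cos (π * y)) * (Real.sin (π * x) *
    (Real.sin (π * (x + y)) * Real.cos (π * (x + y)) / (Real.sin (π * (x + y)) ^ 2 + shq (T + η)) -
      Real.sin (π * (y - x)) * Real.cos (π * (y - x)) / (Real.sin (π * (y - x)) ^ 2 + shq (T - η)) -
      2 * (Real.sin (π * x) * Real.cos (π * x) / (Real.sin (π * x) ^ 2 + shq T))) +
    Real.sin (π * y) *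
      (Real.sin (π * (x + y)) * Real.cos (π * (x + y)) / (Real.sin (π * (x + y)) ^ 2 + shq (T + η)) +
      Real.sin (π * (y - x)) * Real.cos (π * (y - x)) /
        (Real.sin (π * (y - x)) ^ 2 + shq (T - η)))) = _
  have s1 : (Real.sin (π * x) + Real.sin (π * y)) * (Real.cos (π * x) + Real.cos (π * y)) =
      Real.sin (π * (x + y)) * (1 + Real.cos (π * (y - x))) := by
    rw [ep, em, Real.sin_add, Real.cos_sub]
    have a1 := Real.sin_sq_add_cos_sq (π * x)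
    have a2 := Real.sin_sq_add_cos_sq (π * y)
    linear_combination (-Real.sin (π * y) * Real.cos (π * y)) * a1 +
      (-Real.sin (π * x) * Real.cos (π * x)) * a2
  have s2 : (Real.sin (π * y) - Real.sin (π * x)) * (Real.cos (π * x) + Real.cos (π * y)) =
      Real.sin (π * (y - x)) * (1 + Real.cos (π * (x + y))) := by
    rw [ep, em, Real.sin_sub, Real.cos_add]
    have a1 := Real.sin_sq_add_cos_sq (π * x)
    have a2 := Real.sin_sq_add_cos_sq (π * y)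
    linear_combination (-Real.sin (π * y) * Real.cos (π * y)) * a1 +
      (Real.sin (π * x) * Real.cos (π * x)) * a2
  have t1 : ∀ s u : ℝ, 0 < s + u → s / (s + u) = 1 - u / (s + u) := by
    intro s u h
    rw [eq_sub_iff_add_eq, ← add_div, div_self h.ne']
  have q1 := t1 _ _ m1
  have q2 := t1 _ _ m2
  have q3 := t1 _ _ m3
  have c1 : (Real.cos (π * x) + Real.cos (π * y)) * (Real.sin (π * x) *
    (Real.sin (π * (x + y)) * Real.cos (π * (x + y)) / (Real.sin (π * (x + y)) ^ 2 + shq (T + η)) -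
      Real.sin (π * (y - x)) * Real.cos (π * (y - x)) / (Real.sin (π * (y - x)) ^ 2 + shq (T - η)) -
      2 * (Real.sin (π * x) * Real.cos (π * x) / (Real.sin (π * x) ^ 2 + shq T))) +
    Real.sin (π * y) *
      (Real.sin (π * (x + y)) * Real.cos (π * (x + y)) / (Real.sin (π * (x + y)) ^ 2 + shq (T + η)) +
      Real.sin (π * (y - x)) * Real.cos (π * (y - x)) /
        (Real.sin (π * (y - x)) ^ 2 + shq (T - η)))) =
      (1 + Real.cos (π * (y - x))) * Real.cos (π * (x + y)) *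
        (Real.sin (π * (x + y)) ^ 2 / (Real.sin (π * (x + y)) ^ 2 + shq (T + η))) +
      (1 + Real.cos (π * (x + y))) * Real.cos (π * (y - x)) *
        (Real.sin (π * (y - x)) ^ 2 / (Real.sin (π * (y - x)) ^ 2 + shq (T - η))) -
      2 * Real.cos (π * x) * (Real.cos (π * x) + Real.cos (π * y)) *
        (Real.sin (π * x) ^ 2 / (Real.sin (π * x) ^ 2 + shq T)) := by
    linear_combination (Real.cos (π * (x + y)) / (Real.sin (π * (x + y)) ^ 2 + shq (T + η)) *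
      Real.sin (π * (x + y))) * s1 + (Real.cos (π * (y - x)) /
        (Real.sin (π * (y - x)) ^ 2 + shq (T - η)) * Real.sin (π * (y - x))) * s2
  rw [c1, q1, q2, q3]
  have s3 : Real.cos (π * (x + y)) + Real.cos (π * (y - x)) +
      2 * (Real.cos (π * (x + y)) * Real.cos (π * (y - x))) -
      2 * Real.cos (π * x) * (Real.cos (π * x) + Real.cos (π * y)) = -(2 * Real.sin (π * y) ^ 2) := by
    rw [ep, em, Real.cos_add, Real.cos_sub]
    have a1 := Real.sin_sq_add_cos_sq (π * x)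
    have a2 := Real.sin_sq_add_cos_sq (π * y)
    linear_combination (-2 * Real.sin (π * y) ^ 2) * a1 + (2 * Real.cos (π * x) ^ 2) * a2
  linear_combination s3

/-- auxiliary function for the diagonal -/
noncomputable def GG (a1 x : ℝ) : ℝ := gh x + a1 / ta x

theorem ta_eq_exp {x : ℝ} (hx : x ∈ Ioo (0 : ℝ) 1) : ta x = Real.exp (gh x) := by
  rw [← log_ta, Real.exp_log (ta_pos hx)]

theorem Nz_of {x y T η : ℝ} (h0 : 0 < x) (h1 : x < y) (h2 : x + y < 1) : Nz x y T η :=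
  ⟨lv_sin_ne (by linarith only [h0, h1]) h2, lv_sin_ne (by linarith only [h1]) (by linarith only [h0, h2])⟩

/-- **The side along the diagonal.** -/
theorem diag_mono {x0 y0 x1 y1 T η c a1 : ℝ} (hx0 : x0 ∈ Ioo (0 : ℝ) 1) (hy0 : y0 ∈ Ioo (0 : ℝ) 1)
    (hx1 : x1 ∈ Ioo (0 : ℝ) 1) (hy1 : y1 ∈ Ioo (0 : ℝ) 1) (h : x0 < x1) (h0 : x0 < y0)
    (hg : gh x1 - gh x0 = gh y1 - gh y0) (h1 : x1 + y1 < 1)
    (hrow : ∀ x y, x ∈ Icc x0 x1 → y ∈ Icc y0 y1 → gh x - gh x0 = gh y - gh y0 →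
      0 < Real.cos (π * x) + Real.cos (π * y) ∧
      c * (1 - a1 / ta x) * (Real.cos (π * x) + Real.cos (π * y)) < WW x y T η) :
    Sx x1 y1 T η + c * GG a1 x1 < Sx x0 y0 T η + c * GG a1 x0 := by
  have hL : 0 < gh x1 - gh x0 := by
    have := (gh_lt hx0 hx1).2 h
    linarith only [this]
  have hyy : y0 < y1 := (gh_lt hy0 hy1).1 (by linarith only [hg, hL])
  set F : ℝ → ℝ := fun θ => Sx (gc x0 x1 θ) (gc y0 y1 θ) T η +
    c * (((1 - θ) * gh x0 + θ * gh x1) + a1 * Real.exp (-((1 - θ) * gh x0 + θ * gh x1))) with hF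
  have hpt : ∀ θ ∈ Icc (0 : ℝ) 1, gc x0 x1 θ ∈ Icc x0 x1 ∧ gc y0 y1 θ ∈ Icc y0 y1 ∧
      gh (gc x0 x1 θ) - gh x0 = gh (gc y0 y1 θ) - gh y0 := by
    intro θ hθ
    refine ⟨gc_mem_Icc hx0 hx1 h.le hθ.1 hθ.2, gc_mem_Icc hy0 hy1 hyy.le hθ.1 hθ.2, ?_⟩
    rw [gh_gc, gh_gc]
    linear_combination θ * hg
  have hder : ∀ θ ∈ Icc (0 : ℝ) 1, HasDerivAt F ((gh x1 - gh x0) *
      (SA (gc x0 x1 θ) (gc y0 y1 θ) T η + SB (gc x0 x1 θ) (gc y0 y1 θ) T η +
        c * (1 - a1 / ta (gc x0 x1 θ)))) θ := by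
    intro θ hθ
    obtain ⟨p1, p2, p3⟩ := hpt θ hθ
    have m1 := gc_mem x0 x1 θ
    have m2 := gc_mem y0 y1 θ
    have hlt : gc x0 x1 θ < gc y0 y1 θ := by
      have := (gh_lt hx0 hy0).2 h0
      exact (gh_lt m1 m2).1 (by linarith only [p3, this])
    have hn : Nz (gc x0 x1 θ) (gc y0 y1 θ) T η := Nz_of m1.1 hlt (by linarith only [h1, p1, p2, p1.2, p2.2])
    have d1 := hasDerivAt_Sx (hasDerivAt_gc x0 x1 θ) (hasDerivAt_gc y0 y1 θ) m1 hn
    have d2 : HasDerivAt (fun θ : ℝ => (1 - θ) * gh x0 + θ * gh x1) (gh x1 - gh x0) θ := by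
      have := (((hasDerivAt_id' θ).const_sub 1).mul_const (gh x0)).add
        ((hasDerivAt_id' θ).mul_const (gh x1))
      exact this.congr_deriv (by ring)
    have d3 := (d2.add (d2.fun_neg.exp.const_mul a1)).const_mul c
    refine (d1.add d3).congr_deriv ?_
    rw [ta_eq_exp m1, gh_gc, Real.exp_neg, ← hg]
    field_simp
    ring
  have hneg : ∀ θ ∈ Icc (0 : ℝ) 1, (gh x1 - gh x0) *
      (SA (gc x0 x1 θ) (gc y0 y1 θ) T η + SB (gc x0 x1 θ) (gc y0 y1 θ) T η +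
        c * (1 - a1 / ta (gc x0 x1 θ))) < 0 := by
    intro θ hθ
    obtain ⟨p1, p2, p3⟩ := hpt θ hθ
    have m1 := gc_mem x0 x1 θ
    have m2 := gc_mem y0 y1 θ
    have hlt : gc x0 x1 θ < gc y0 y1 θ := by
      have := (gh_lt hx0 hy0).2 h0
      exact (gh_lt m1 m2).1 (by linarith only [p3, this])
    have hn : Nz (gc x0 x1 θ) (gc y0 y1 θ) T η := Nz_of m1.1 hlt (by linarith only [h1, p1, p2, p1.2, p2.2])
    obtain ⟨r1, r2⟩ := hrow _ _ p1 p2 p3
    have e := diag_eq m1 hn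
    apply mul_neg_of_pos_of_neg hL
    by_contra hcon
    push Not at hcon
    have := mul_nonneg r1.le hcon
    nlinarith only [r2, e, this]
  have hc : ContinuousOn F (Icc 0 1) := fun θ hθ => (hder θ hθ).continuousAt.continuousWithinAt
  have hanti := strictAntiOn_of_deriv_neg (convex_Icc (0 : ℝ) 1) hc (by
      intro θ hθ
      rw [interior_Icc] at hθ
      rw [(hder θ ⟨hθ.1.le, hθ.2.le⟩).deriv]
      exact hneg θ ⟨hθ.1.le, hθ.2.le⟩)
  have key := hanti ⟨le_rfl, zero_le_one⟩ ⟨zero_le_one, le_rfl⟩ zero_lt_one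
  simp only [hF, gc_zero hx0, gc_zero hy0, gc_one hx1, gc_one hy1, sub_self, zero_mul, one_mul,
    zero_add, sub_zero, add_zero] at key
  unfold GG
  rw [ta_eq_exp hx0, ta_eq_exp hx1, div_eq_mul_inv, div_eq_mul_inv, ← Real.exp_neg, ← Real.exp_neg]
  exact key

end RC

end Pool.Agent.Work.MP_b30479_gtS.G2

end

section


/-!
# Rings with the ring variable on the ramp: the combination theorem

`x` hinge (level `T`), `y = 1/2 + σ < 1/4`, height `4 ρ y`; `(xs, ys)` saddle point.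
The first order condition `Fr p + Fr q ≤ Rr` is split by `Sp`, a mixture of the constant shares
`w` and of the shares of the saddle point.
-/

namespace Pool.Agent.Work.MP_b30479_gtS.G2

open Real Set VOL Filter Topology

namespace RC

/-- the contribution of the hinge to the derivative in the ring variable on the ramp -/
noncomputable def Fr (x y T ρ : ℝ) : ℝ := Dx x y T (4 * ρ * y) +
  4 * ρ * (YY (lv (x + y) (T + 4 * ρ * y)) - YY (lv (y - x) (4 * ρ * y - T)))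

/-- the quadratic part of the first order condition on the ramp -/
noncomputable def Rr (b y ρ : ℝ) : ℝ := 4 * π * ρ * (2 - b * (1 - 4 * y))

noncomputable def kr (b y : ℝ) : ℝ := 4 / b - 2 * (1 - 4 * y)

theorem Rr_eq {b : ℝ} (hb : 0 < b) (y ρ : ℝ) : Rr b y ρ = kr b y * (2 * π * b * ρ) := by
  unfold Rr kr
  field_simp
  ring

/-- the part of `Rr` for one hinge, `D = Dx xs ys T ρ` -/
noncomputable def Sp (w lam b y ρ D : ℝ) : ℝ := (1 - lam) * (w * Rr b y ρ) + lam * (kr b y * D)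

/-- the hinge beyond its part -/
noncomputable def Ph (w lam b xs ys T ρ x y : ℝ) : ℝ :=
  Fr x y T ρ - Sp w lam b y ρ (Dx xs ys T ρ)

/-- the increment of the side of the ring -/
noncomputable def dS (xs ys T ρ x y : ℝ) : ℝ := Sx x y T (4 * ρ * y) - Sx xs ys T ρ

/-- points to be considered: on the ramp of the ring variable; at a maximiser `T ≤ 4 ρ y` if the
hinge is beyond `1/2 - |σ|`, and no factor is singular -/
structure Adm (b T ρ cl cp x y : ℝ) : Prop where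
  x0 : cl ≤ x
  x1 : x ≤ cp
  y0 : 1 / 4 - 1 / (2 * b) ≤ y
  y1 : y ≤ 1 / 4
  t : y ≤ x → T ≤ 4 * ρ * y
  /-- the factor is not singular -/
  nz : ¬ (x = y ∧ T = 4 * ρ * y)

/-- comparison statements for one hinge of an interior ring, ring variable on the ramp -/
structure RampOK (lam α β b xs ys T ρ cl cp : ℝ) : Prop where
  ph : ∀ x y, Adm b T ρ cl cp x y →
    α - β * |gh x - gh xs| ≤ Ph (1 / 2) lam b xs ys T ρ x y
  dn : ∀ x y, Adm b T ρ cl cp x y → x < xs →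
    β * |gh x - gh xs| - α < Ph (1 / 2) lam b xs ys T ρ x y ∨
    β * |gh x - gh xs| - α < Ph (1 / 2) lam b xs ys T ρ x y + dS xs ys T ρ x y
  up : ∀ x y, Adm b T ρ cl cp x y → xs < x →
    β * |gh x - gh xs| - α < Ph (1 / 2) lam b xs ys T ρ x y ∨
    β * |gh x - gh xs| - α < Ph (1 / 2) lam b xs ys T ρ x y - dS xs ys T ρ x y

/-- the same for a ring at an end -/
structure RampOK1 (b xs ys T ρ cl cp : ℝ) : Prop where
  eq : ∀ y, Adm b T ρ cl cp xs y → Rr b y ρ < Fr xs y T ρ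
  dn : ∀ x y, Adm b T ρ cl cp x y → x < xs →
    Rr b y ρ < Fr x y T ρ ∨ Rr b y ρ < Fr x y T ρ + dS xs ys T ρ x y
  up : ∀ x y, Adm b T ρ cl cp x y → xs < x →
    Rr b y ρ < Fr x y T ρ ∨ Rr b y ρ < Fr x y T ρ - dS xs ys T ρ x y

/-- no ramp: positivity of `Ph` is enough -/
theorem RampOK.of_pos {lam α b xs ys T ρ cl cp : ℝ} (hα : 0 < α)
    (h : ∀ x y, Adm b T ρ cl cp x y → α ≤ Ph (1 / 2) lam b xs ys T ρ x y) :
    RampOK lam α 0 b xs ys T ρ cl cp := by
  refine ⟨fun x y ha => ?_, fun x y ha _ => Or.inl ?_, fun x y ha _ => Or.inl ?_⟩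
  · have := h x y ha
    linarith only [this]
  · have := h x y ha
    linarith only [hα, this]
  · have := h x y ha
    linarith only [hα, this]

theorem Sp_one {lam b y ρ D : ℝ} (hb : 0 < b) (hD : D = 2 * π * b * ρ) :
    Sp 1 lam b y ρ D = Rr b y ρ := by
  unfold Sp
  rw [hD, ← Rr_eq hb]
  ring

/-- a ring at an end: any mixture can be used -/
theorem RampOK1.of {b xs ys T ρ cl cp : ℝ} (hb : 0 < b) (hD : Dx xs ys T ρ = 2 * π * b * ρ)
    (eq : ∀ y, Adm b T ρ cl cp xs y → ∃ lam, 0 < Ph 1 lam b xs ys T ρ xs y)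
    (dn : ∀ x y, Adm b T ρ cl cp x y → x < xs → ∃ lam,
      0 < Ph 1 lam b xs ys T ρ x y ∨ 0 < Ph 1 lam b xs ys T ρ x y + dS xs ys T ρ x y)
    (up : ∀ x y, Adm b T ρ cl cp x y → xs < x → ∃ lam,
      0 < Ph 1 lam b xs ys T ρ x y ∨ 0 < Ph 1 lam b xs ys T ρ x y - dS xs ys T ρ x y) :
    RampOK1 b xs ys T ρ cl cp := by
  refine ⟨fun y ha => ?_, fun x y ha hx => ?_, fun x y ha hx => ?_⟩
  · obtain ⟨lam, h⟩ := eq y ha
    unfold Ph at h
    rw [Sp_one hb hD] at h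
    linarith only [h]
  · obtain ⟨lam, h⟩ := dn x y ha hx
    unfold Ph at h
    rw [Sp_one hb hD] at h
    rcases h with h | h
    · left; linarith only [h]
    · right; linarith only [h]
  · obtain ⟨lam, h⟩ := up x y ha hx
    unfold Ph at h
    rw [Sp_one hb hD] at h
    rcases h with h | h
    · left; linarith only [h]
    · right; linarith only [h]

section
variable {lam α β b xs ys T ρ cl cp xs' T' cl' cp' x x' y : ℝ}

/-- the two parts add up -/
theorem Ph_add (hb : 0 < b) (hD : Dx xs ys T ρ + Dx xs' ys T' ρ = 2 * π * b * ρ) :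
    Ph (1 / 2) lam b xs ys T ρ x y + Ph (1 / 2) lam b xs' ys T' ρ x' y =
      Fr x y T ρ + Fr x' y T' ρ - Rr b y ρ := by
  unfold Ph Sp
  have h1 := Rr_eq hb y ρ
  rw [← hD] at h1
  linear_combination lam * h1

/-- **Ramp theorem, two hinges.** -/
theorem ramp_two (hp : RampOK lam α β b xs ys T ρ cl cp) (hq : RampOK lam α β b xs' ys T' ρ cl' cp')
    (hb : 0 < b) (hβ : 0 ≤ β) (hD : Dx xs ys T ρ + Dx xs' ys T' ρ = 2 * π * b * ρ)
    (ha : Adm b T ρ cl cp x y) (ha' : Adm b T' ρ cl' cp' x' y)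
    (hN : |gh x' - gh xs'| ≤ |gh x - gh xs|) (foc : Fr x y T ρ + Fr x' y T' ρ ≤ Rr b y ρ) :
    (xs < x → Sx x y T (4 * ρ * y) < Sx xs ys T ρ) ∧
      (x < xs → Sx xs ys T ρ < Sx x y T (4 * ρ * y)) := by
  have e := Ph_add (lam := lam) (x := x) (x' := x') (y := y) hb hD
  have h1 := hq.ph x' y ha'
  have h2 := mul_le_mul_of_nonneg_left hN hβ
  refine ⟨fun hx => ?_, fun hx => ?_⟩
  · rcases hp.up x y ha hx with h | h
    · linarith only [foc, e, h1, h2, h]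
    · unfold dS at h
      linarith only [foc, e, h1, h2, h]
  · rcases hp.dn x y ha hx with h | h
    · linarith only [foc, e, h1, h2, h]
    · unfold dS at h
      linarith only [foc, e, h1, h2, h]

/-- no ring variable on the ramp if the two hinges are at the saddle point -/
theorem ramp_two_in (hp : RampOK lam α β b xs ys T ρ cl cp)
    (hq : RampOK lam α β b xs' ys T' ρ cl' cp') (hα : 0 < α) (hb : 0 < b)
    (hD : Dx xs ys T ρ + Dx xs' ys T' ρ = 2 * π * b * ρ) (ha : Adm b T ρ cl cp xs y)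
    (ha' : Adm b T' ρ cl' cp' xs' y) : Rr b y ρ < Fr xs y T ρ + Fr xs' y T' ρ := by
  have e := Ph_add (lam := lam) (x := xs) (x' := xs') (y := y) hb hD
  have h1 := hp.ph xs y ha
  have h2 := hq.ph xs' y ha'
  rw [sub_self, abs_zero, mul_zero, sub_zero] at h1 h2
  linarith only [hα, e, h1, h2]

/-- **Ramp theorem, one hinge.** -/
theorem ramp_one (hp : RampOK1 b xs ys T ρ cl cp) (ha : Adm b T ρ cl cp x y)
    (foc : Fr x y T ρ ≤ Rr b y ρ) :
    (xs < x → Sx x y T (4 * ρ * y) < Sx xs ys T ρ) ∧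
      (x < xs → Sx xs ys T ρ < Sx x y T (4 * ρ * y)) := by
  refine ⟨fun hx => ?_, fun hx => ?_⟩
  · rcases hp.up x y ha hx with h | h
    · linarith only [foc, h]
    · unfold dS at h
      linarith only [foc, h]
  · rcases hp.dn x y ha hx with h | h
    · linarith only [foc, h]
    · unfold dS at h
      linarith only [foc, h]

end

/-! ### translation of the first order condition -/

theorem lv_eq (x t : ℝ) : lv x t = (x : ℂ) + (t : ℂ) * Complex.I := rfl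

theorem zt_lv (ρ : ℝ) {σ : ℝ} (h : σ ≤ -(1 / 4)) :
    LT.zt ρ σ = lv ((1 / 2 + σ) - 1 / 2) (4 * ρ * (1 / 2 + σ)) := by
  have hth : LT.th σ = 2 + 4 * σ := by
    have : |σ| = -σ := abs_of_neg (by linarith only [h])
    rw [th_of_ge (by rw [this]; linarith only [h]), this]
    ring
  rw [zt_eq, hth]
  unfold lv
  push_cast
  ring

theorem YY_minus (x y T η : ℝ) :
    YY (lv x T + 1 / 2 - lv (y - 1 / 2) η) = YY (lv (y - x) (η - T)) := by
  rw [← YY_one_sub]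
  congr 1
  unfold lv
  push_cast
  ring

theorem YY_plus (x y T η : ℝ) :
    YY (lv x T + 1 / 2 + lv (y - 1 / 2) η) = YY (lv (x + y) (T + η)) := by
  congr 1
  unfold lv
  push_cast
  ring

theorem Fr_eq (x y T ρ : ℝ) :
    Dm (4 * ρ) (lv x T) (lv (y - 1 / 2) (4 * ρ * y)) = Fr x y T ρ := by
  unfold Dm Dq Fr Dx
  rw [fac_plus, fac_minus, YY_plus, YY_minus]
  ring

theorem Dm_zero_left (m : ℝ) (ζ : ℂ) : Dm m 0 ζ = 0 := by
  unfold Dm Dq
  have h1 := LL_one_sub (0 + 1 / 2 + ζ)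
  have h2 := YY_one_sub (0 + 1 / 2 + ζ)
  rw [show (1 : ℂ) - (0 + 1 / 2 + ζ) = 0 + 1 / 2 - ζ by ring] at h1 h2
  rw [h1, h2]
  ring

/-- first order condition on the ramp, two hinges -/
theorem foc_two {b ρ σ x x' T T' : ℝ} (h : RM b ρ (lv x T) (lv x' T') σ) (h0 : -(1 / 2) < σ)
    (h1 : σ < -(1 / 4)) (hx : 0 ≤ x) (hx1 : x ≤ 1 / 2) (hx' : 0 ≤ x') (hx1' : x' ≤ 1 / 2) :
    Fr x (1 / 2 + σ) T ρ + Fr x' (1 / 2 + σ) T' ρ ≤ Rr b (1 / 2 + σ) ρ := by
  have key := h.right_ramp h0 h1 (by rw [lv_re]; exact hx) (by rw [lv_re]; linarith only [h0, h1, hx1])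
    (by rw [lv_re]; exact hx') (by rw [lv_re]; linarith only [h0, h1, hx1'])
  rw [zt_lv ρ h1.le, Fr_eq, Fr_eq] at key
  unfold Rr
  linarith only [key]

/-- first order condition on the ramp, one hinge -/
theorem foc_one {b ρ σ x T : ℝ} (h : RM b ρ (lv x T) 0 σ) (h0 : -(1 / 2) < σ)
    (h1 : σ < -(1 / 4)) (hx : 0 ≤ x) (hx1 : x ≤ 1 / 2) :
    Fr x (1 / 2 + σ) T ρ ≤ Rr b (1 / 2 + σ) ρ := by
  have key := h.right_ramp h0 h1 (by rw [lv_re]; exact hx) (by rw [lv_re]; linarith only [h0, h1, hx1])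
    (by simp) (by simp; linarith only [h0, h1])
  rw [zt_lv ρ h1.le, Fr_eq, Dm_zero_left] at key
  unfold Rr
  linarith only [key]

end RC

end Pool.Agent.Work.MP_b30479_gtS.G2

end

section

/-!
# Rings with the ring variable on the ramp: shape of the rows

`RowI`: interior ring, `RowE`: ring at an end.
-/

namespace Pool.Agent.Work.MP_b30479_gtS.G2

open Real Set VOL Filter Topology NumIs

namespace RC

/-- window of the saddle point: hinge `xs + i T`, ring variable `-s + i ρ` -/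
structure RWp where
  x0 : ℝ
  x1 : ℝ
  t0 : ℝ
  t1 : ℝ
  s0 : ℝ
  s1 : ℝ
  r0 : ℝ
  r1 : ℝ
  /-- `xs + s ≤ c1` -/
  c1 : ℝ
  /-- `xs + s ≤ cr + ρ` -/
  cr : ℝ
  /-- `q0 ≤ ρ - T ≤ q1` -/
  q0 : ℝ
  q1 : ℝ
  /-- `ρ - T + A s ≤ C` -/
  A : ℝ
  C : ℝ

/-- the saddle point is in the window -/
structure RWp.In (W : RWp) (xs s T ρ : ℝ) : Prop where
  x0 : W.x0 ≤ xs
  x1 : xs ≤ W.x1
  t0 : W.t0 ≤ T
  t1 : T ≤ W.t1
  s0 : W.s0 ≤ s
  s1 : s ≤ W.s1
  pos : 0 < ρ
  r0 : W.r0 ≤ ρ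
  r1 : ρ ≤ W.r1
  c1 : xs + s ≤ W.c1
  cr : xs + s ≤ W.cr + ρ
  q0 : W.q0 ≤ ρ - T
  q1 : ρ - T ≤ W.q1
  qs : ρ - T + W.A * s ≤ W.C

/-- row of an interior ring with `b` crossings: mixture `lam`, line `α - β m`, window `W`, flat part
`[cl, cp]` of the hinge -/
def RowI (W : RWp) (b lam α β cl cp : ℝ) : Prop :=
  ∀ xs s T ρ, W.In xs s T ρ → RampOK lam α β b xs (1 / 2 - s) T ρ cl cp

/-- row of a ring at an end -/
def RowE (W : RWp) (b cl cp : ℝ) : Prop :=
  ∀ xs s T ρ, W.In xs s T ρ → Dx xs (1 / 2 - s) T ρ = 2 * π * b * ρ →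
    RampOK1 b xs (1 / 2 - s) T ρ cl cp

/-- the window of a hinge without `s` and `ρ`: neighbour of class `1`, `2`, `2` at an end, `3`, `3`
at an end, ring with the other sign, ring with the same sign -/
noncomputable def wOne (s0 s1 r0 r1 : ℝ) : RWp :=
  ⟨214 / 1000, 298 / 1000, -(158 / 1000), -(38 / 1000), s0, s1, r0, r1, 1, 1, 0, 1, 0, 1⟩
noncomputable def wTwo (s0 s1 r0 r1 : ℝ) : RWp :=
  ⟨186 / 1000, 252 / 1000, -(96 / 1000), -(10 / 1000), s0, s1, r0, r1, 4495 / 10000, 1, 0, 14 / 100,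
    13 / 10, 398 / 1000⟩
noncomputable def wTwoE (s0 s1 r0 r1 : ℝ) : RWp :=
  ⟨164 / 1000, 186 / 1000, -(131 / 1000), -(88 / 1000), s0, s1, r0, r1, 374 / 1000, 1, 0, 168 / 1000,
    105 / 100, 352 / 1000⟩
noncomputable def wThree (s0 s1 r0 r1 : ℝ) : RWp :=
  ⟨188 / 1000, 234 / 1000, -(57 / 1000), 1 / 1000, s0, s1, r0, r1, 4465 / 10000, 1, -1, 12 / 100,
    22 / 10, 59 / 100⟩
noncomputable def wThreeE (s0 s1 r0 r1 : ℝ) : RWp :=
  ⟨171 / 1000, 195 / 1000, -(58 / 1000), -(18 / 1000), s0, s1, r0, r1, 4465 / 10000, 1, 0, 12 / 100,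
    22 / 10, 59 / 100⟩
noncomputable def wRr (s0 s1 r0 r1 : ℝ) : RWp :=
  ⟨182 / 1000, 252 / 1000, -(385 / 10000), 385 / 10000, s0, s1, r0, r1, 4465 / 10000, 1, -1, 12 / 100,
    22 / 10, 59 / 100⟩
noncomputable def wRs (s0 s1 r0 r1 : ℝ) : RWp :=
  ⟨170 / 1000, 252 / 1000, -(1 / 1000), 465 / 10000, s0, s1, r0, r1, 4465 / 10000, 1, -1, 12 / 100,
    22 / 10, 59 / 100⟩
/-- next to a digit `1`, five crossings, inside / at an end -/
noncomputable def wOne5 (r0 r1 : ℝ) : RWp :=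
  ⟨2213 / 10000, 2942 / 10000, -(138 / 1000), -(38 / 1000), 127 / 1000, 1754 / 10000, r0, r1,
    4644 / 10000, 1, 891 / 10000, 1842 / 10000, 0, 1⟩
noncomputable def wOne5e (r0 r1 : ℝ) : RWp :=
  ⟨2166 / 10000, 2783 / 10000, -(138 / 1000), -(38 / 1000), 158 / 1000, 1842 / 10000, r0, r1,
    4580 / 10000, 1, 785 / 10000, 1521 / 10000, 0, 1⟩

/-! ### closed forms -/

/-- `YY` near the imaginary axis, above the real axis -/
theorem YY_mid {d s : ℝ} (hs : 0 < s) (h0 : -(1 / 2) < d) (h1 : d < 1 / 2) :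
    YY (lv d s) = Real.arctan (Real.sin (π * d) * Real.cosh (π * s) /
      (Real.cos (π * d) * Real.sinh (π * s))) - π / 2 := by
  have hc : 0 < Real.cos (π * d) := Real.cos_pos_of_mem_Ioo ⟨by nlinarith only [h0, pi_pos], by nlinarith only [h1, pi_pos]⟩
  have hsh : 0 < Real.sinh (π * s) := Real.sinh_pos_iff.2 (by positivity)
  have hch := Real.cosh_pos (π * s)
  rcases lt_trichotomy d 0 with h | h | h
  · have hsn : Real.sin (π * d) < 0 := Real.sin_neg_of_neg_of_neg_pi_lt (by nlinarith only [h, pi_pos]) (by nlinarith only [h0, pi_pos])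
    have e := YY_add_one (lv d s)
    rw [if_pos (by rw [lv_im]; exact hs)] at e
    have e2 : lv d s + 1 = lv (d + 1) s := by
      unfold lv
      push_cast
      ring
    rw [e2, YY_lv s (by linarith only [h0, h]) (by linarith only [h])] at e
    unfold lnB at e
    have e3 : Real.cos (π * (d + 1)) * Real.sinh (π * s) / (Real.sin (π * (d + 1)) * Real.cosh (π * s)) =
        (Real.sin (π * d) * Real.cosh (π * s) / (Real.cos (π * d) * Real.sinh (π * s)))⁻¹ := by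
      rw [mul_add, mul_one, Real.cos_add_pi, Real.sin_add_pi, inv_div]
      rw [neg_mul, neg_mul, neg_div_neg_eq]
    rw [e3, Real.arctan_inv_of_neg (by
      apply div_neg_of_neg_of_pos <;> nlinarith only [hsn, hch, hc, hsh, mul_pos hc hsh, mul_neg_of_neg_of_pos hsn hch])] at e
    linarith only [e]
  · rw [h]
    have e := MR.YY_it hs
    have : lv 0 s = (s : ℂ) * Complex.I := by unfold lv; simp
    rw [this, e]
    simp
  · have hsn : 0 < Real.sin (π * d) := Real.sin_pos_of_pos_of_lt_pi (by positivity) (by nlinarith only [h1, pi_pos])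
    rw [YY_lv s h (by linarith only [h1, h])]
    unfold lnB
    have e3 : Real.cos (π * d) * Real.sinh (π * s) / (Real.sin (π * d) * Real.cosh (π * s)) =
        (Real.sin (π * d) * Real.cosh (π * s) / (Real.cos (π * d) * Real.sinh (π * s)))⁻¹ := by
      rw [inv_div]
    rw [e3, Real.arctan_inv_of_pos (by positivity)]
    ring

theorem YY_nonpos_lv {d s : ℝ} (hs : 0 ≤ s) (h1 : d ≤ 1 / 2) : YY (lv d s) ≤ 0 := by
  rcases hs.eq_or_lt with hy | hy
  · rw [YY_zero (by rw [lv_im]; exact hy.symm)]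
  · rw [YY_pos (by rw [lv_im]; exact hy), lv_im, lv_re]
    linarith only [hy, h1, Tr_le_half hy h1]

theorem YY_le_half {d s : ℝ} (hs : 0 < s) (h0 : -(1 / 2) < d) (h1 : d ≤ 0) :
    YY (lv d s) ≤ -(π / 2) := by
  rw [YY_mid hs h0 (by linarith only [h1])]
  have hc : 0 < Real.cos (π * d) := Real.cos_pos_of_mem_Ioo ⟨by nlinarith only [h0, pi_pos], by nlinarith only [h1, pi_pos]⟩
  have hsh : 0 < Real.sinh (π * s) := Real.sinh_pos_iff.2 (by positivity)
  have hsn : Real.sin (π * d) ≤ 0 := Real.sin_nonpos_of_nonpos_of_neg_pi_le (by nlinarith only [h1, pi_pos]) (by nlinarith only [h0, pi_pos])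
  have : Real.arctan (Real.sin (π * d) * Real.cosh (π * s) /
      (Real.cos (π * d) * Real.sinh (π * s))) ≤ 0 := by
    rw [← Real.arctan_zero]
    apply Real.arctan_strictMono.monotone
    apply div_nonpos_of_nonpos_of_nonneg
    · exact mul_nonpos_of_nonpos_of_nonneg hsn (Real.cosh_pos _).le
    · positivity
  linarith only [this]

/-- the contribution of the hinge at the saddle point, upper bound -/
theorem Dx_le {xs s T ρ c : ℝ} (hx : 0 < xs) (hs : 0 ≤ s) (h1 : xs < 1 / 2) (hc : xs + s ≤ c) (hc2 : c < 1 / 2) :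
    Dx xs (1 / 2 - s) T ρ ≤ lnA (1 / 2) (T + ρ) - lnA (1 / 2 - c) (ρ - T) := by
  unfold Dx
  have e1 : LL (lv (xs + (1 / 2 - s)) (T + ρ)) ≤ lnA (1 / 2) (T + ρ) := by
    rw [LL_lv _ (by linarith only [hx, hc, hc2]) (by linarith only [hs, h1])]
    unfold lnA
    have hs1 : Real.sin (π * (xs + (1 / 2 - s))) ^ 2 ≤ Real.sin (π * (1 / 2)) ^ 2 := by
      rw [show π * (1 / 2) = π / 2 by ring, Real.sin_pi_div_two]
      nlinarith only [Real.sin_sq_le_one (π * (xs + (1 / 2 - s)))]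
    have hp : 0 < Real.sin (π * (xs + (1 / 2 - s))) :=
      Real.sin_pos_of_pos_of_lt_pi (by apply mul_pos pi_pos; linarith only [hx, hc, hc2]) (by nlinarith only [hs, h1, pi_pos])
    have : 0 < Real.sin (π * (xs + (1 / 2 - s))) ^ 2 := by positivity
    have h4 := Real.log_le_log (by positivity : 0 < 4 * (Real.sin (π * (xs + (1 / 2 - s))) ^ 2 + Real.sinh (π * (T + ρ)) ^ 2))
      (by linarith only [hs1] : 4 * (Real.sin (π * (xs + (1 / 2 - s))) ^ 2 + Real.sinh (π * (T + ρ)) ^ 2) ≤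
        4 * (Real.sin (π * (1 / 2)) ^ 2 + Real.sinh (π * (T + ρ)) ^ 2))
    linarith only [h4]
  have e2 : lnA (1 / 2 - c) (ρ - T) ≤ LL (lv (1 / 2 - s - xs) (T - ρ)) := by
    rw [← LL_lv_neg, neg_sub, LL_lv _ (by linarith only [hc, hc2]) (by linarith only [hx, hs, h1])]
    unfold lnA
    have hp : 0 < Real.sin (π * (1 / 2 - c)) :=
      Real.sin_pos_of_pos_of_lt_pi (by apply mul_pos pi_pos; linarith only [hc2]) (by nlinarith only [hx, hs, h1, hc, pi_pos])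
    have hm : Real.sin (π * (1 / 2 - c)) ≤ Real.sin (π * (1 / 2 - s - xs)) :=
      Real.sin_le_sin_of_le_of_le_pi_div_two (by nlinarith only [hx, h1, hc2, pi_pos]) (by nlinarith only [hx, hs, pi_pos])
        (by nlinarith only [hx, h1, hc, pi_pos])
    have hsq : Real.sin (π * (1 / 2 - c)) ^ 2 ≤ Real.sin (π * (1 / 2 - s - xs)) ^ 2 :=
      pow_le_pow_left₀ hp.le hm 2
    have : 0 < Real.sin (π * (1 / 2 - c)) ^ 2 := by positivity
    have h4 := Real.log_le_log (by positivity : 0 < 4 * (Real.sin (π * (1 / 2 - c)) ^ 2 + Real.sinh (π * (ρ - T)) ^ 2))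
      (by linarith only [hsq] : 4 * (Real.sin (π * (1 / 2 - c)) ^ 2 + Real.sinh (π * (ρ - T)) ^ 2) ≤
        4 * (Real.sin (π * (1 / 2 - s - xs)) ^ 2 + Real.sinh (π * (ρ - T)) ^ 2))
    linarith only [h4]
  linarith only [e1, e2]

end RC

end Pool.Agent.Work.MP_b30479_gtS.G2

end

section

/-!
# Rings on the level part: the derivative of the side along the diagonal, rational form
-/

namespace Pool.Agent.Work.MP_b30479_gtS.G2

open Real Set VOL

namespace RC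

namespace Row

theorem rat_mono {s v v' : ℝ} (hs : 0 ≤ s) (hv : 0 ≤ v) (h : v ≤ v') : v / (s + v) ≤ v' / (s + v') := by
  rcases (add_nonneg hs hv).lt_or_eq with h1 | h1
  · rw [div_le_div_iff₀ h1 (by linarith only [h, h1])]
    nlinarith only [hs, h]
  · rw [← h1, div_zero]
    have := hv.trans h
    positivity

theorem rat_k {s v k : ℝ} (hk : 0 < k) : v / (s / k ^ 2 + v) = v * k ^ 2 / (s + v * k ^ 2) := by
  have hk2 : k ^ 2 ≠ 0 := by positivity
  rw [show s / k ^ 2 + v = (s + v * k ^ 2) / k ^ 2 by field_simp, div_div_eq_mul_div]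

/-- one half of `WW` times `r²`, the part with `u` aside; `v = t` -/
noncomputable def w1 (a B t : ℝ) : ℝ :=
  4 * B ^ 2 + (1 - a * B) ^ 2 * (2 * (1 + a * B) ^ 2 - kq a B) * (1 + B ^ 2) ^ 2 * t /
      (4 * (B - a) ^ 2 * (1 + a * B) ^ 2 + t * kq a B ^ 2) -
    2 * (1 + B ^ 2) * (1 - a ^ 2) * (1 - (a * B) ^ 2) * t / (4 * a ^ 2 + t * (1 + a ^ 2) ^ 2)

noncomputable def w0 (a B t : ℝ) : ℝ :=
  4 * B ^ 2 -
    2 * (1 + B ^ 2) * (1 - a ^ 2) * (1 - (a * B) ^ 2) * t / (4 * a ^ 2 + t * (1 + a ^ 2) ^ 2)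

/-- the part with `u` -/
noncomputable def ww (a B u : ℝ) : ℝ :=
  (1 + a * B) ^ 2 * (kq a B - 2 * (1 - a * B) ^ 2) * (1 + B ^ 2) ^ 2 * u /
      (4 * (a + B) ^ 2 * (1 - a * B) ^ 2 + u * kq a B ^ 2)

section
variable {x y T η : ℝ}

theorem cos_add_ta (hx : x ∈ Ioo (0 : ℝ) 1) (hy : y ∈ Ioo (0 : ℝ) 1) :
    Real.cos (π * (x + y)) = (2 * (1 - ta x * ta y) ^ 2 - kq (ta x) (ta y)) / kq (ta x) (ta y) := by
  rw [mul_add, Real.cos_add, sin_ta hx, sin_ta hy, cos_ta hx, cos_ta hy]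
  unfold kq
  field_simp
  ring

theorem cos_sub_ta (hx : x ∈ Ioo (0 : ℝ) 1) (hy : y ∈ Ioo (0 : ℝ) 1) :
    Real.cos (π * (y - x)) = (2 * (1 + ta x * ta y) ^ 2 - kq (ta x) (ta y)) / kq (ta x) (ta y) := by
  rw [mul_sub, Real.cos_sub, sin_ta hx, sin_ta hy, cos_ta hx, cos_ta hy]
  unfold kq
  field_simp
  ring

/-- rational form of `WW` -/
theorem WW_eq (hx : x ∈ Ioo (0 : ℝ) 1) (hy : y ∈ Ioo (0 : ℝ) 1) :
    WW x y T η * (1 + ta y ^ 2) ^ 2 / 2 =
      4 * ta y ^ 2 + (1 - ta x * ta y) ^ 2 * (2 * (1 + ta x * ta y) ^ 2 - kq (ta x) (ta y)) *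
        (1 + ta y ^ 2) ^ 2 * shq (T - η) /
      (4 * (ta y - ta x) ^ 2 * (1 + ta x * ta y) ^ 2 + shq (T - η) * kq (ta x) (ta y) ^ 2) -
    2 * (1 + ta y ^ 2) * (1 - ta x ^ 2) * (1 - (ta x * ta y) ^ 2) * shq T /
      (4 * ta x ^ 2 + shq T * (1 + ta x ^ 2) ^ 2) - ww (ta x) (ta y) (shq (T + η)) := by
  have hk := kq_pos (ta x) (ta y)
  have e1 : Real.sin (π * (y - x)) ^ 2 =
      4 * (ta y - ta x) ^ 2 * (1 + ta x * ta y) ^ 2 / kq (ta x) (ta y) ^ 2 := by
    rw [sin_sub_ta hx hy, div_pow]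
    ring
  have e2 : Real.sin (π * (x + y)) ^ 2 =
      4 * (ta x + ta y) ^ 2 * (1 - ta x * ta y) ^ 2 / kq (ta x) (ta y) ^ 2 := by
    rw [sin_add_ta hx hy, div_pow]
    ring
  have e3 : Real.sin (π * x) ^ 2 = 4 * ta x ^ 2 / (1 + ta x ^ 2) ^ 2 := by
    rw [sin_ta hx, div_pow]
    ring
  have e4 : Real.sin (π * y) ^ 2 = 4 * ta y ^ 2 / (1 + ta y ^ 2) ^ 2 := by
    rw [sin_ta hy, div_pow]
    ring
  have e5 : Real.cos (π * x) + Real.cos (π * y) = 2 * (1 - (ta x * ta y) ^ 2) / kq (ta x) (ta y) := by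
    rw [cos_ta hx, cos_ta hy]
    unfold kq
    field_simp
    ring
  unfold WW ww
  rw [e1, e2, e3, e4, e5, rat_k hk, rat_k hk, rat_k (show 0 < 1 + ta x ^ 2 by positivity),
    cos_add_ta hx hy, cos_sub_ta hx hy, cos_ta hx]
  have h1 : kq (ta x) (ta y) = (1 + ta x ^ 2) * (1 + ta y ^ 2) := rfl
  generalize shq (T - η) = v
  generalize shq (T + η) = u
  generalize shq T = t
  generalize 4 * (ta y - ta x) ^ 2 * (1 + ta x * ta y) ^ 2 = X1
  generalize 4 * (ta x + ta y) ^ 2 * (1 - ta x * ta y) ^ 2 = X2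
  generalize 4 * ta x ^ 2 = X3
  have hx2 : 0 < 1 + ta x ^ 2 := by positivity
  have hy2 : 0 < 1 + ta y ^ 2 := by positivity
  have c1 : (1 + (2 * (1 - ta x * ta y) ^ 2 - kq (ta x) (ta y)) / kq (ta x) (ta y)) *
      ((2 * (1 + ta x * ta y) ^ 2 - kq (ta x) (ta y)) / kq (ta x) (ta y)) =
      2 * (1 - ta x * ta y) ^ 2 * (2 * (1 + ta x * ta y) ^ 2 - kq (ta x) (ta y)) /
        kq (ta x) (ta y) ^ 2 := by
    field_simp
    ring
  have c2 : (1 + (2 * (1 + ta x * ta y) ^ 2 - kq (ta x) (ta y)) / kq (ta x) (ta y)) *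
      ((2 * (1 - ta x * ta y) ^ 2 - kq (ta x) (ta y)) / kq (ta x) (ta y)) =
      2 * (1 + ta x * ta y) ^ 2 * (2 * (1 - ta x * ta y) ^ 2 - kq (ta x) (ta y)) /
        kq (ta x) (ta y) ^ 2 := by
    field_simp
    ring
  have c3 : 2 * ((1 - ta x ^ 2) / (1 + ta x ^ 2)) * (2 * (1 - (ta x * ta y) ^ 2) / kq (ta x) (ta y)) =
      4 * (1 - ta x ^ 2) * (1 - (ta x * ta y) ^ 2) / ((1 + ta x ^ 2) ^ 2 * (1 + ta y ^ 2)) := by
    rw [h1]
    field_simp
    ring
  rw [c1, c2, c3]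
  have d1 : ∀ A D X Y : ℝ, 2 * A * D / kq (ta x) (ta y) ^ 2 *
      (X * kq (ta x) (ta y) ^ 2 / Y) = 2 * A * D * X / Y := by
    intro A D X Y
    rw [← mul_div_assoc]
    congr 1
    field_simp
  have d2 : ∀ Y : ℝ, 4 * (1 - ta x ^ 2) * (1 - (ta x * ta y) ^ 2) /
      ((1 + ta x ^ 2) ^ 2 * (1 + ta y ^ 2)) * (t * (1 + ta x ^ 2) ^ 2 / Y) =
      4 * (1 - ta x ^ 2) * (1 - (ta x * ta y) ^ 2) * t / (1 + ta y ^ 2) / Y := by
    intro Y
    rw [← mul_div_assoc]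
    congr 1
    field_simp
  rw [d1, d1, d2]
  generalize X1 + v * kq (ta x) (ta y) ^ 2 = Y1
  generalize X2 + u * kq (ta x) (ta y) ^ 2 = Y2
  generalize X3 + t * (1 + ta x ^ 2) ^ 2 = Y3
  generalize kq (ta x) (ta y) = k
  simp only [div_eq_mul_inv]
  generalize Y1⁻¹ = Z1
  generalize Y2⁻¹ = Z2
  generalize Y3⁻¹ = Z3
  field_simp
  ring

end

section
variable {a B t τ u : ℝ}

/-- concave case -/
theorem w1_pos (ha : 0 < a) (haB : a < B) (hc : kq a B ≤ 2 * (1 - a * B) ^ 2) (ht : 0 ≤ t)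
    (hτ : t ≤ τ) (h : 0 < w1 a B τ) : 0 < w1 a B t := by
  have hB : 0 < B := ha.trans haB
  have hk := kq_pos a B
  have hβ : 0 < 4 * (B - a) ^ 2 * (1 + a * B) ^ 2 := by
    have : 0 < B - a := by linarith only [haB]
    positivity
  rcases ht.lt_or_eq with ht0 | ht0
  · have hd1 : ∀ s : ℝ, 0 ≤ s → 0 < 4 * (B - a) ^ 2 * (1 + a * B) ^ 2 + s * kq a B ^ 2 := by
      intro s hs; positivity
    have hd2 : ∀ s : ℝ, 0 ≤ s → 0 < 4 * a ^ 2 + s * (1 + a ^ 2) ^ 2 := by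
      intro s hs; positivity
    have key : ∀ s : ℝ, 0 ≤ s → w1 a B s * ((4 * (B - a) ^ 2 * (1 + a * B) ^ 2 + s * kq a B ^ 2) *
        (4 * a ^ 2 + s * (1 + a ^ 2) ^ 2)) =
        64 * a ^ 2 * B ^ 2 * (B - a) ^ 2 * (1 + a * B) ^ 2 +
        s * (4 * B ^ 2 * (4 * (B - a) ^ 2 * (1 + a * B) ^ 2 * (1 + a ^ 2) ^ 2 + 4 * a ^ 2 * kq a B ^ 2) +
          (1 - a * B) ^ 2 * (2 * (1 + a * B) ^ 2 - kq a B) * (1 + B ^ 2) ^ 2 * (4 * a ^ 2) -
          2 * (1 + B ^ 2) * (1 - a ^ 2) * (1 - (a * B) ^ 2) * (4 * (B - a) ^ 2 * (1 + a * B) ^ 2)) +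
        s ^ 2 * (kq a B ^ 2 * ((1 + a * B) ^ 2 * (kq a B - 2 * (1 - a * B) ^ 2))) := by
      intro s hs
      have h1 := (hd1 s hs).ne'
      have h2 := (hd2 s hs).ne'
      unfold w1
      rw [sub_mul, add_mul, mul_comm (4 * (B - a) ^ 2 * (1 + a * B) ^ 2 + s * kq a B ^ 2)
        (4 * a ^ 2 + s * (1 + a ^ 2) ^ 2)]
      have e1 : ∀ A D1 D2 : ℝ, D1 ≠ 0 → A / D1 * (D2 * D1) = A * D2 := by
        intro A D1 D2 h
        field_simp
      have e2 : ∀ A D1 D2 : ℝ, D2 ≠ 0 → A / D2 * (D2 * D1) = A * D1 := by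
        intro A D1 D2 h
        field_simp
      rw [e1 _ _ _ h1, e2 _ _ _ h2]
      unfold kq
      ring
    have kt := key t ht
    have kτ := key τ (ht.trans hτ)
    set E0 := 64 * a ^ 2 * B ^ 2 * (B - a) ^ 2 * (1 + a * B) ^ 2 with hE0
    have hE0p : 0 < E0 := by
      have : 0 < B - a := by linarith only [haB]
      rw [hE0]; positivity
    have hE2 : kq a B ^ 2 * ((1 + a * B) ^ 2 * (kq a B - 2 * (1 - a * B) ^ 2)) ≤ 0 :=
      mul_nonpos_of_nonneg_of_nonpos (by positivity)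
        (mul_nonpos_of_nonneg_of_nonpos (by positivity) (by linarith only [hc]))
    generalize kq a B ^ 2 * ((1 + a * B) ^ 2 * (kq a B - 2 * (1 - a * B) ^ 2)) = E2 at *
    generalize (4 * B ^ 2 * (4 * (B - a) ^ 2 * (1 + a * B) ^ 2 * (1 + a ^ 2) ^ 2 + 4 * a ^ 2 * kq a B ^ 2) +
          (1 - a * B) ^ 2 * (2 * (1 + a * B) ^ 2 - kq a B) * (1 + B ^ 2) ^ 2 * (4 * a ^ 2) -
          2 * (1 + B ^ 2) * (1 - a ^ 2) * (1 - (a * B) ^ 2) * (4 * (B - a) ^ 2 * (1 + a * B) ^ 2)) = E1 at *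
    have pτ : 0 < E0 + τ * E1 + τ ^ 2 * E2 := by
      rw [← kτ]
      exact mul_pos h (mul_pos (hd1 τ (ht.trans hτ)) (hd2 τ (ht.trans hτ)))
    have pt : 0 < E0 + t * E1 + t ^ 2 * E2 := by
      have hτ0 : 0 < τ := ht0.trans_le hτ
      have e : τ * (E0 + t * E1 + t ^ 2 * E2) = (τ - t) * E0 + t * (E0 + τ * E1 + τ ^ 2 * E2) +
        (-E2) * (t * τ * (τ - t)) := by ring
      have h3 : 0 ≤ (τ - t) * E0 := mul_nonneg (by linarith only [hτ]) hE0p.le
      have h4 : 0 < t * (E0 + τ * E1 + τ ^ 2 * E2) := mul_pos ht0 pτ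
      have h5 : 0 ≤ (-E2) * (t * τ * (τ - t)) :=
        mul_nonneg (by linarith only [hE2]) (mul_nonneg (by positivity) (by linarith only [hτ]))
      have h6 : 0 < τ * (E0 + t * E1 + t ^ 2 * E2) := by linarith only [h3, h4, h5]
      exact (pos_iff_pos_of_mul_pos h6).1 hτ0
    rw [← kt] at pt
    exact (pos_iff_pos_of_mul_pos pt).2 (mul_pos (hd1 t ht) (hd2 t ht))
  · rw [← ht0]
    unfold w1
    simp only [mul_zero, zero_mul, zero_div, add_zero, sub_zero]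
    positivity

/-- the linear expression of the convex case -/
noncomputable def lin (a B t u : ℝ) : ℝ :=
  (4 * B ^ 2 - ww a B u) * (4 * (B - a) ^ 2 * (1 + a * B) ^ 2 * (4 * a ^ 2)) +
    t * ((4 * B ^ 2 - ww a B u) * (4 * a ^ 2 * kq a B ^ 2 +
        4 * (B - a) ^ 2 * (1 + a * B) ^ 2 * (1 + a ^ 2) ^ 2) -
      2 * (1 + B ^ 2) * (1 - a ^ 2) * (1 - (a * B) ^ 2) * (4 * (B - a) ^ 2 * (1 + a * B) ^ 2) +
      (1 - a * B) ^ 2 * (2 * (1 + a * B) ^ 2 - kq a B) * ((1 + B ^ 2) ^ 2 * (4 * a ^ 2)))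

/-- convex case -/
theorem w2_pos (ha : 0 < a) (haB : a < B) (hp : a * B < 1) (hc : 2 * (1 - a * B) ^ 2 ≤ kq a B)
    (ht : 0 ≤ t) (hτ : t ≤ τ) (hu : 0 ≤ u) (h0 : 0 < 4 * B ^ 2 - ww a B u) (h : 0 < lin a B τ u) :
    0 < w1 a B t - ww a B u := by
  have hB : 0 < B := ha.trans haB
  have hk := kq_pos a B
  have hβ : 0 < 4 * (B - a) ^ 2 * (1 + a * B) ^ 2 := by
    have : 0 < B - a := by linarith only [haB]
    positivity
  have hα : 0 < 4 * (a + B) ^ 2 * (1 - a * B) ^ 2 := by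
    have : 0 < 1 - a * B := by linarith only [hp]
    positivity
  have hd1 : 0 < 4 * (B - a) ^ 2 * (1 + a * B) ^ 2 + t * kq a B ^ 2 := by positivity
  have hd2 : 0 < 4 * a ^ 2 + t * (1 + a ^ 2) ^ 2 := by positivity
  have hlin : 0 < lin a B t u := by
    unfold lin at h ⊢
    have hE0 : 0 < (4 * B ^ 2 - ww a B u) * (4 * (B - a) ^ 2 * (1 + a * B) ^ 2 * (4 * a ^ 2)) := by
      positivity
    generalize (4 * B ^ 2 - ww a B u) * (4 * (B - a) ^ 2 * (1 + a * B) ^ 2 * (4 * a ^ 2)) = E0 at *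
    generalize ((4 * B ^ 2 - ww a B u) * (4 * a ^ 2 * kq a B ^ 2 +
        4 * (B - a) ^ 2 * (1 + a * B) ^ 2 * (1 + a ^ 2) ^ 2) -
      2 * (1 + B ^ 2) * (1 - a ^ 2) * (1 - (a * B) ^ 2) * (4 * (B - a) ^ 2 * (1 + a * B) ^ 2) +
      (1 - a * B) ^ 2 * (2 * (1 + a * B) ^ 2 - kq a B) * ((1 + B ^ 2) ^ 2 * (4 * a ^ 2))) = E1 at *
    rcases le_total 0 E1 with h1 | h1
    · have := mul_nonneg ht h1
      linarith only [hE0, this]
    · have : τ * E1 ≤ t * E1 := mul_le_mul_of_nonpos_right hτ h1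
      linarith only [h, this]
  have key : (w1 a B t - ww a B u) * ((4 * (B - a) ^ 2 * (1 + a * B) ^ 2 + t * kq a B ^ 2) *
        (4 * a ^ 2 + t * (1 + a ^ 2) ^ 2)) = lin a B t u +
        t ^ 2 * ((4 * B ^ 2 - ww a B u) * (kq a B ^ 2 * (1 + a ^ 2) ^ 2) -
          2 * (1 + B ^ 2) * (1 - a ^ 2) * (1 - (a * B) ^ 2) * kq a B ^ 2 +
          (1 - a * B) ^ 2 * (2 * (1 + a * B) ^ 2 - kq a B) * (1 + B ^ 2) ^ 2 * (1 + a ^ 2) ^ 2) := by
    have e1 : ∀ A D1 D2 : ℝ, D1 ≠ 0 → A / D1 * (D1 * D2) = A * D2 := by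
      intro A D1 D2 h
      field_simp
    have e2 : ∀ A D1 D2 : ℝ, D2 ≠ 0 → A / D2 * (D1 * D2) = A * D1 := by
      intro A D1 D2 h
      field_simp
    unfold w1 lin
    rw [sub_mul, sub_mul, add_mul, e1 _ _ _ hd1.ne', e2 _ _ _ hd2.ne']
    ring
  have hE2 : 0 ≤ (4 * B ^ 2 - ww a B u) * (kq a B ^ 2 * (1 + a ^ 2) ^ 2) -
          2 * (1 + B ^ 2) * (1 - a ^ 2) * (1 - (a * B) ^ 2) * kq a B ^ 2 +
          (1 - a * B) ^ 2 * (2 * (1 + a * B) ^ 2 - kq a B) * (1 + B ^ 2) ^ 2 * (1 + a ^ 2) ^ 2 := by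
    have e3 : (4 * B ^ 2 - ww a B u) * (kq a B ^ 2 * (1 + a ^ 2) ^ 2) -
          2 * (1 + B ^ 2) * (1 - a ^ 2) * (1 - (a * B) ^ 2) * kq a B ^ 2 +
          (1 - a * B) ^ 2 * (2 * (1 + a * B) ^ 2 - kq a B) * (1 + B ^ 2) ^ 2 * (1 + a ^ 2) ^ 2 =
        kq a B ^ 2 * ((1 + a * B) ^ 2 * (kq a B - 2 * (1 - a * B) ^ 2)) -
          ww a B u * (kq a B ^ 2 * (1 + a ^ 2) ^ 2) := by
      unfold kq
      ring
    rw [e3]
    have e4 : ww a B u * (kq a B ^ 2 * (1 + a ^ 2) ^ 2) =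
        kq a B ^ 2 * ((1 + a * B) ^ 2 * (kq a B - 2 * (1 - a * B) ^ 2)) *
          (u * kq a B ^ 2 / (4 * (a + B) ^ 2 * (1 - a * B) ^ 2 + u * kq a B ^ 2)) := by
      unfold ww
      rw [div_mul_eq_mul_div, mul_div_assoc']
      congr 1
      unfold kq
      ring
    rw [e4]
    have h5 : u * kq a B ^ 2 / (4 * (a + B) ^ 2 * (1 - a * B) ^ 2 + u * kq a B ^ 2) ≤ 1 := by
      rw [div_le_one (by positivity)]
      linarith only [hα]
    have h6 : 0 ≤ kq a B ^ 2 * ((1 + a * B) ^ 2 * (kq a B - 2 * (1 - a * B) ^ 2)) :=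
      mul_nonneg (by positivity) (mul_nonneg (by positivity) (by linarith only [hc]))
    have := mul_le_mul_of_nonneg_left h5 h6
    linarith only [this]
  have h7 : 0 < (w1 a B t - ww a B u) * ((4 * (B - a) ^ 2 * (1 + a * B) ^ 2 + t * kq a B ^ 2) *
        (4 * a ^ 2 + t * (1 + a ^ 2) ^ 2)) := by
    rw [key]
    have := mul_nonneg (sq_nonneg t) hE2
    linarith only [hlin, this]
  exact (pos_iff_pos_of_mul_pos h7).2 (mul_pos hd1 hd2)

end

end Row

end RC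

end Pool.Agent.Work.MP_b30479_gtS.G2

end
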