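import Pool.Agent.Work.MP_b30479_gt.TBS.G2.RDz
import Pool.Agent.Work.MP_b30479_gt.TBS.G2.MPFocD
import Pool.Agent.Work.MP_b30479_gt.TBS.G2.WMid
import Pool.Agent.Work.MP_b30479_gt.TBS.G2.WVal
import Pool.Agent.Work.MP_b30479_gt.TBS.G2.RCF
import Pool.Agent.Work.MP_b30479_gt.TBS.G2.WLocX

section

/-!
# The push of a ring in a word

The state of the ring variable (`RingSt`), the hinges as points `lv x T`, the saddle point, the
push-back in terms of real data (`Adj.push_ring2`, `Adj.push_ring1`).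
-/

namespace Pool.Agent.Work.MP_b30479_gtS.G2

open Finset VOL Filter Topology

namespace SR

variable {M : ℕ} {b : Fin (M + 1) → ℤ} {zs : DD (tyW b) ⊕ ZZ (tyW b) → ℂ}
variable {y : DD (tyW b) ⊕ ZZ (tyW b) → ℝ}
variable {h h' : Fin M} {i j j' : Fin (M + 1)} {p : Fin 3}

/-- **The ring variables of a maximiser.** -/
structure RingSt (b : Fin (M + 1) → ℤ) (zs : DD (tyW b) ⊕ ZZ (tyW b) → ℂ)
    (y : DD (tyW b) ⊕ ZZ (tyW b) → ℝ) : Prop where
  neg : ∀ v : ZZ (tyW b), ofs (b v.1) (y (.inr v)) ≤ 0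
  ge : ∀ v : ZZ (tyW b), -(1 / 4) - 1 / (2 * ((b v.1).natAbs : ℝ)) ≤ ofs (b v.1) (y (.inr v))
  /-- on the ramp: a hinge beyond `1/2 - |σ|` is not higher than the ring variable -/
  t : ∀ {h : Fin M} {i j : Fin (M + 1)} {p : Fin 3} (v : ZZ (tyW b)), v.1 = i → Adj h i p j →
    ofs (b i) (y (.inr v)) < -(1 / 4) → 1 / 2 + ofs (b i) (y (.inr v)) ≤ y (.inl (.inl h)) →
    ofs (b i) (zs (.inl (.inl h))).im ≤
      4 * (zs (.inr v)).im * (1 / 2 + ofs (b i) (y (.inr v)))

/-- no factor of a ring at a hinge of a maximiser vanishes -/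
theorem Adj.ring_ne (A : Adj h i p j) (hb : ClassW b) (hy : Mx b zs y)
    (h0 : 0 < y (.inl (.inl h))) (hc : clsW b i = .ring) :
    SinNe (Yw b zs y i p + 1 / 2 + Zw b zs y i) ∧ SinNe (Yw b zs y i p + 1 / 2 - Zw b zs y i) := by
  have ht := tyW_of_ring hb hc
  have key : SinNe (Xw b zs y i p + 1 / 2 + Xw b zs y i 1) ∧
      SinNe (Xw b zs y i p + 1 / 2 - Xw b zs y i 1) := by
    have v3 : ∀ w u : ℂ, 1 / 2 + (w + u) = w + 1 / 2 + u := fun w u => by ring
    have v4 : ∀ w u : ℂ, 1 / 2 + (w + -u) = w + 1 / 2 - u := fun w u => by ring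
    have v5 : ∀ w u : ℂ, 1 / 2 + (u + w) = w + 1 / 2 + u := fun w u => by ring
    have v6 : ∀ w u : ℂ, 1 / 2 + (-u + w) = w + 1 / 2 - u := fun w u => by ring
    cases A
    · have h1 := IsMx.rfac_left hy (std_wpar b zs) h h0
      unfold rfac at h1
      rw [decide_castSucc, ht] at h1
      have e1 := h1 ⟨![0, 1, 1], 1 / 2, 0⟩ (by
        generalize decide (h.castSucc ≠ 0) = l
        cases l <;> simp [facs, hL, hR]) (by simp)
      have e2 := h1 ⟨![0, -1, 1], 1 / 2, 0⟩ (by
        generalize decide (h.castSucc ≠ 0) = l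
        cases l <;> simp [facs, hL, hR]) (by simp)
      simp [Fac.form_mk] at e1 e2
      have a1 := v5 (Xw b zs y h.castSucc 2) (Xw b zs y h.castSucc 1)
      have a2 := v6 (Xw b zs y h.castSucc 2) (Xw b zs y h.castSucc 1)
      rw [← a1, ← a2]
      unfold Xw
      simp only [one_div] at e1 e2 ⊢
      exact ⟨e1, e2⟩
    · have h1 := IsMx.rfac_right hy (std_wpar b zs) h h0
      unfold rfac at h1
      rw [decide_succ, ht] at h1
      have e1 := h1 ⟨![1, 1, 0], 1 / 2, 0⟩ (by
        generalize decide (h.succ ≠ Fin.last M) = r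
        cases r <;> simp [facs, hL, hR]) (by simp)
      have e2 := h1 ⟨![1, -1, 0], 1 / 2, 0⟩ (by
        generalize decide (h.succ ≠ Fin.last M) = r
        cases r <;> simp [facs, hL, hR]) (by simp)
      simp [Fac.form_mk] at e1 e2
      have a1 := v3 (Xw b zs y h.succ 0) (Xw b zs y h.succ 1)
      have a2 := v4 (Xw b zs y h.succ 0) (Xw b zs y h.succ 1)
      rw [← a1, ← a2]
      unfold Xw
      simp only [one_div] at e1 e2 ⊢
      exact ⟨e1, e2⟩
  unfold Yw Zw ofr ofz
  split_ifs with h5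
  · exact key
  · have e : ∀ u : ℂ, SinNe u → SinNe (starRingEnd ℂ u) := by
      intro u hu h6
      apply hu
      have h2 : (starRingEnd ℂ) (Complex.sin ((Real.pi : ℂ) * u)) = 0 := by
        rw [← Complex.sin_conj, map_mul, Complex.conj_ofReal]
        exact h6
      simpa using h2
    have k1 := e _ key.1
    have k2 := e _ key.2
    simp only [map_add, map_sub, map_div₀, map_one, map_ofNat] at k1 k2
    constructor
    · rw [← sub_eq_add_neg]
      exact k2
    · rw [sub_neg_eq_add]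
      exact k1

/-! ### real form of the data of a ring -/

theorem Adj.Ys_lvR (A : Adj h i p j) :
    Ys b zs i p = lv (zs (.inl (.inl h))).re (ofs (b i) (zs (.inl (.inl h))).im) :=
  Complex.ext (by rw [A.Ys_re, lv_re]) (by rw [A.Ys_im, lv_im])

theorem Adj.Yw_lvR (A : Adj h i p j) (hf : Flat b y) :
    Yw b zs y i p = lv (y (.inl (.inl h))) (ofs (b i) (zs (.inl (.inl h))).im) := by
  have e : Yw b zs y i p = pw b zs (b i) h (y (.inl (.inl h))) := A.Yw_eq
  rw [e, pw_flat (b i) h (hf h).1 (hf h).2]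
  rfl

theorem Zs_lv (v : ZZ (tyW b)) :
    Zs b zs v.1 = lv ((1 / 2 + ofs (b v.1) (zs (.inr v)).re) - 1 / 2) (zs (.inr v)).im := by
  unfold Zs
  rw [xx_ring (tyW b) v.2]
  apply Complex.ext
  · rw [ofz_re, lv_re]
    ring
  · rw [ofz_im, lv_im]

section

variable {v : ZZ (tyW b)}

/-- the real data of a ring and a hinge: no factor is singular -/
theorem Adj.ring_St (A : Adj h i p j) (hb : ClassW b) (hy : Mx b zs y) (hf : Flat b y)
    (hc : clsW b i = .ring) (hv : v.1 = i) (R : RingSt b zs y)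
    (h0 : 0 < y (.inl (.inl h))) :
    RC.St ((b i).natAbs : ℝ) (zs (.inr v)).im (ofs (b i) (y (.inr v)))
      (ofs (b i) (zs (.inl (.inl h))).im) (y (.inl (.inl h))) := by
  have hn := A.ring_ne hb hy h0 hc
  have hz : Zw b zs y i = LT.zt (zs (.inr v)).im (ofs (b i) (y (.inr v))) := by
    have := Zw_eq (zs := zs) (y := y) v
    rw [hv] at this
    exact this
  rw [A.Yw_lvR hf, hz] at hn
  have hneg := R.neg v
  have hge := R.ge v
  rw [hv] at hneg hge
  refine ⟨hneg, hge, fun h1 h2 => R.t v hv A h1 h2, fun h1 => ?_, fun h1 h2 => ?_⟩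
  · rw [RC.zt_flat _ h1 (by linarith only [hneg])] at hn
    exact RC.Nz_of_sin hn.1 hn.2
  · rw [RC.zt_lv _ h1.le] at hn
    apply hn.2
    have e : lv (y (.inl (.inl h))) (ofs (b i) (zs (.inl (.inl h))).im) + 1 / 2 -
        lv ((1 / 2 + ofs (b i) (y (.inr v))) - 1 / 2)
          (4 * (zs (.inr v)).im * (1 / 2 + ofs (b i) (y (.inr v)))) = 1 := by
      rw [h2.1, h2.2]
      unfold lv
      push_cast
      ring
    rw [e, mul_one, Complex.sin_pi]

/-- the critical equation of the saddle point in the ring variable -/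
theorem Adj.ring_crit (A : Adj h i p j) (hC : Crit b zs) (hv : v.1 = i) :
    RC.Dx (zs (.inl (.inl h))).re (1 / 2 + ofs (b i) (zs (.inr v)).re)
      (ofs (b i) (zs (.inl (.inl h))).im) (zs (.inr v)).im +
      Dm 0 (Ys b zs i p.rev) (Zs b zs i) = 2 * Real.pi * ((b i).natAbs : ℝ) * (zs (.inr v)).im := by
  have h1 := (hC.ring v).1
  have hz := Zs_lv (zs := zs) v
  have him : (Zs b zs v.1).im = (zs (.inr v)).im := by rw [hz, lv_im]
  rw [hv] at h1 hz him
  unfold RD1 at h1
  rw [him] at h1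
  have e1 : ∀ w : ℂ, LL (w + 1 / 2 + Zs b zs i) - LL (w + 1 / 2 - Zs b zs i) =
      Dm 0 w (Zs b zs i) := by
    intro w
    unfold Dm Dq
    ring
  rw [e1, e1] at h1
  have e2 := RC.Dm_eq (zs (.inl (.inl h))).re (1 / 2 + ofs (b i) (zs (.inr v)).re)
      (ofs (b i) (zs (.inl (.inl h))).im) (zs (.inr v)).im
  rw [← hz, ← A.Ys_lvR] at e2
  rw [← e2]
  rcases A.slot with rfl | rfl
  · have : (0 : Fin 3).rev = 2 := rfl
    rw [this]
    linarith only [h1]
  · have : (2 : Fin 3).rev = 0 := rfl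
    rw [this]
    linarith only [h1]

theorem Adj.ring_crit2 (A : Adj h i p j) (A' : Adj h' i p.rev j') (hC : Crit b zs) (hv : v.1 = i) :
    RC.Dx (zs (.inl (.inl h))).re (1 / 2 + ofs (b i) (zs (.inr v)).re)
      (ofs (b i) (zs (.inl (.inl h))).im) (zs (.inr v)).im +
      RC.Dx (zs (.inl (.inl h'))).re (1 / 2 + ofs (b i) (zs (.inr v)).re)
      (ofs (b i) (zs (.inl (.inl h'))).im) (zs (.inr v)).im =
      2 * Real.pi * ((b i).natAbs : ℝ) * (zs (.inr v)).im := by
  have h1 := A.ring_crit hC hv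
  have hz := Zs_lv (zs := zs) v
  rw [hv] at hz
  rw [A'.Ys_lvR, hz, RC.Dm_eq] at h1
  exact h1

theorem Adj.ring_crit1 (A : Adj h i p j) (he : isEnd i = true) (hC : Crit b zs) (hv : v.1 = i) :
    RC.Dx (zs (.inl (.inl h))).re (1 / 2 + ofs (b i) (zs (.inr v)).re)
      (ofs (b i) (zs (.inl (.inl h))).im) (zs (.inr v)).im =
      2 * Real.pi * ((b i).natAbs : ℝ) * (zs (.inr v)).im := by
  have h1 := A.ring_crit hC hv
  rw [A.Ys_other he, RC.Dm_zero_left] at h1
  linarith only [h1]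

/-! ### the push of a ring -/

/-- all real data of a ring `v` seen from a hinge `h`: the statements of the maximiser -/
theorem Adj.ring_RM2 (A : Adj h i p j) (A' : Adj h' i p.rev j') (hb : ClassW b) (hL : Loc b zs)
    (hy : Mx b zs y) (hf : Flat b y) (hc : clsW b i = .ring) (hv : v.1 = i) :
    RM ((b i).natAbs : ℝ) (zs (.inr v)).im
      (lv (y (.inl (.inl h))) (ofs (b i) (zs (.inl (.inl h))).im))
      (lv (y (.inl (.inl h'))) (ofs (b i) (zs (.inl (.inl h'))).im)) (ofs (b i) (y (.inr v))) := by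
  obtain ⟨v', hv', -, hM, -⟩ := A.ring hb hL hy hc
  have e : v' = v := Subtype.ext (hv'.trans hv.symm)
  subst e
  rw [A.Yw_lvR hf, A'.Yw_lvR hf] at hM
  exact hM

theorem Adj.ring_RM1 (A : Adj h i p j) (he : isEnd i = true) (hb : ClassW b) (hL : Loc b zs)
    (hy : Mx b zs y) (hf : Flat b y) (hc : clsW b i = .ring) (hv : v.1 = i) :
    RM ((b i).natAbs : ℝ) (zs (.inr v)).im
      (lv (y (.inl (.inl h))) (ofs (b i) (zs (.inl (.inl h))).im)) 0
      (ofs (b i) (y (.inr v))) := by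
  obtain ⟨v', hv', -, hM, -⟩ := A.ring hb hL hy hc
  have e : v' = v := Subtype.ext (hv'.trans hv.symm)
  subst e
  have e0 : Yw b zs y i p.rev = 0 := by
    rcases A.other b zs y with ⟨-, h0⟩ | ⟨h1, -⟩
    · exact h0
    · rw [he] at h1
      simp at h1
  rw [A.Yw_lvR hf, e0] at hM
  exact hM

theorem Adj.Zw_at (_ : Adj h i p j) (hv : v.1 = i) :
    Zw b zs y i = LT.zt (zs (.inr v)).im (ofs (b i) (y (.inr v))) := by
  have := Zw_eq (zs := zs) (y := y) v
  rw [hv] at this
  exact this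

theorem Adj.Zs_at (_ : Adj h i p j) (hv : v.1 = i) :
    Zs b zs i = lv ((1 / 2 + ofs (b i) (zs (.inr v)).re) - 1 / 2) (zs (.inr v)).im := by
  have := Zs_lv (zs := zs) v
  rw [hv] at this
  exact this

theorem Adj.pushQ_ring (A : Adj h i p j) (hb : ClassW b) (hf : Flat b y) (hc : clsW b i = .ring)
    (hv : v.1 = i) {f g : ℝ → ℝ}
    (H : |gh (Yw b zs y i p.rev).re - gh (Ys b zs i p.rev).re| ≤
        |gh (y (.inl (.inl h))) - gh (zs (.inl (.inl h))).re| →
      ((zs (.inl (.inl h))).re < y (.inl (.inl h)) →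
        S4 0 (lv (y (.inl (.inl h))) (ofs (b i) (zs (.inl (.inl h))).im))
          (LT.zt (zs (.inr v)).im (ofs (b i) (y (.inr v)))) <
        S4 0 (lv (zs (.inl (.inl h))).re (ofs (b i) (zs (.inl (.inl h))).im))
          (lv ((1 / 2 + ofs (b i) (zs (.inr v)).re) - 1 / 2) (zs (.inr v)).im) +
          f (gh (y (.inl (.inl h))) - gh (zs (.inl (.inl h))).re)) ∧
      (y (.inl (.inl h)) < (zs (.inl (.inl h))).re →
        S4 0 (lv (zs (.inl (.inl h))).re (ofs (b i) (zs (.inl (.inl h))).im))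
          (lv ((1 / 2 + ofs (b i) (zs (.inr v)).re) - 1 / 2) (zs (.inr v)).im) <
        S4 0 (lv (y (.inl (.inl h))) (ofs (b i) (zs (.inl (.inl h))).im))
          (LT.zt (zs (.inr v)).im (ofs (b i) (y (.inr v)))) +
          g (gh (zs (.inl (.inl h))).re - gh (y (.inl (.inl h)))))) :
    PushQ (tyW b) b i p p.rev (Xw b zs y i) (xx (tyW b) i zs) f g := by
  have e1 : (Xw b zs y i p).re = y (.inl (.inl h)) := by
    rw [← ofr_re (b i)]
    exact A.re
  have e2 : (xx (tyW b) i zs p).re = (zs (.inl (.inl h))).re := by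
    rw [A.xs_eq]
  have e3 : (Yw b zs y i p.rev).re = (Xw b zs y i p.rev).re := ofr_re _ _
  have e4 : (Ys b zs i p.rev).re = (xx (tyW b) i zs p.rev).re := ofr_re _ _
  rw [e3, e4] at H
  unfold PushQ
  rw [A.rs_ring _ _ hb hc, A.rs_ring _ _ hb hc, ofs_zero', e1, e2]
  have z1 : ofz (b i) (Xw b zs y i 1) = Zw b zs y i := rfl
  have z2 : ofz (b i) (xx (tyW b) i zs 1) = Zs b zs i := rfl
  have y1 : ofr (b i) (Xw b zs y i p) = Yw b zs y i p := rfl
  have y2 : ofr (b i) (xx (tyW b) i zs p) = Ys b zs i p := rfl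
  rw [z1, z2, y1, y2, A.Zw_at hv, A.Zs_at hv, A.Yw_lvR hf, A.Ys_lvR]
  refine ⟨fun h1 h2 => (H (h2.trans (le_abs_self _))).1 h1, fun h1 h2 => (H (h2.trans ?_)).2 h1⟩
  rw [abs_sub_comm]
  exact le_abs_self _

/-- **The push of an interior ring in a word.** -/
theorem Adj.push_ring2 (A : Adj h i p j) (A' : Adj h' i p.rev j') (hb : ClassW b) (hL : Loc b zs)
    (hy : Mx b zs y) (hf : Flat b y) (hc : clsW b i = .ring) (R : RingSt b zs y) (hv : v.1 = i)
    {cl cp cl' cp' : ℝ} {f g : ℝ → ℝ}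
    (H : RC.RP2 ((b i).natAbs : ℝ) (zs (.inl (.inl h))).re (1 / 2 + ofs (b i) (zs (.inr v)).re)
      (ofs (b i) (zs (.inl (.inl h))).im) (zs (.inr v)).im cl cp (zs (.inl (.inl h'))).re
      (ofs (b i) (zs (.inl (.inl h'))).im) cl' cp' f g)
    (hx : y (.inl (.inl h)) ∈ Set.Icc cl cp) (hx' : y (.inl (.inl h')) ∈ Set.Icc cl' cp')
    (hcl : 0 < cl) (hcl' : 0 < cl') (hcp : cp < 1 / 2) (hcp' : cp' < 1 / 2) :
    PushQ (tyW b) b i p p.rev (Xw b zs y i) (xx (tyW b) i zs) f g := by
  refine A.pushQ_ring hb hf hc hv fun hN => ?_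
  rw [A'.re, A'.Ys_re] at hN
  exact RC.push_two H (A.ring_RM2 A' hb hL hy hf hc hv)
    (A.ring_St hb hy hf hc hv R (by linarith only [hcl, hx, hx.1]))
    (A'.ring_St hb hy hf hc hv R (by linarith only [hcl', hx', hx'.1])) hx hx' hcl hcl' hcp hcp' hN

/-- **The push of a ring at an end of a word.** -/
theorem Adj.push_ring1 (A : Adj h i p j) (he : isEnd i = true) (hb : ClassW b) (hL : Loc b zs)
    (hy : Mx b zs y) (hf : Flat b y) (hc : clsW b i = .ring) (R : RingSt b zs y) (hv : v.1 = i)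
    {cl cp : ℝ} {f g : ℝ → ℝ}
    (H : RC.RP1 ((b i).natAbs : ℝ) (zs (.inl (.inl h))).re (1 / 2 + ofs (b i) (zs (.inr v)).re)
      (ofs (b i) (zs (.inl (.inl h))).im) (zs (.inr v)).im cl cp f g)
    (hx : y (.inl (.inl h)) ∈ Set.Icc cl cp) (hcl : 0 < cl) (hcp : cp < 1 / 2) :
    PushQ (tyW b) b i p p.rev (Xw b zs y i) (xx (tyW b) i zs) f g :=
  A.pushQ_ring hb hf hc hv fun _ => RC.push_one H (A.ring_RM1 he hb hL hy hf hc hv)
    (A.ring_St hb hy hf hc hv R (by linarith only [hcl, hx, hx.1])) hx hcl hcp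

theorem PushQ.push' {i : Fin (M + 1)} {p q : Fin 3} {X Xs : Fin 3 → ℂ}
    (h : PushQ (tyW b) b i p q X Xs (fun _ => 0) (fun _ => 0)) : Push' (tyW b) b i p q X Xs := by
  unfold PushQ at h
  simp only [add_zero] at h
  exact h

theorem ofs_inj {c : ℤ} {s t : ℝ} (h : ofs c s = ofs c t) : s = t := by
  unfold ofs at h
  split_ifs at h
  · exact h
  · linarith only [h]

/-- **Inner statement for an interior ring in a word.** -/
theorem Adj.in_ring2 (A : Adj h i p j) (A' : Adj h' i p.rev j') (hb : ClassW b) (hL : Loc b zs)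
    (hC : Crit b zs) (hy : Mx b zs y) (hf : Flat b y) (hc : clsW b i = .ring) (R : RingSt b zs y)
    (hv : v.1 = i) {lam α β cl cp cl' cp' : ℝ}
    (hp : RC.LI (zs (.inl (.inl h))).re (1 / 2 + ofs (b i) (zs (.inr v)).re)
      (ofs (b i) (zs (.inl (.inl h))).im) (zs (.inr v)).im)
    (hq : RC.LI (zs (.inl (.inl h'))).re (1 / 2 + ofs (b i) (zs (.inr v)).re)
      (ofs (b i) (zs (.inl (.inl h'))).im) (zs (.inr v)).im)
    (rp : RC.RampOK lam α β ((b i).natAbs : ℝ) (zs (.inl (.inl h))).re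
      (1 / 2 + ofs (b i) (zs (.inr v)).re) (ofs (b i) (zs (.inl (.inl h))).im) (zs (.inr v)).im cl cp)
    (rq : RC.RampOK lam α β ((b i).natAbs : ℝ) (zs (.inl (.inl h'))).re
      (1 / 2 + ofs (b i) (zs (.inr v)).re) (ofs (b i) (zs (.inl (.inl h'))).im) (zs (.inr v)).im
        cl' cp')
    (hα : 0 < α) (hys : 1 / 4 < 1 / 2 + ofs (b i) (zs (.inr v)).re)
    (hx : (zs (.inl (.inl h))).re ∈ Set.Icc cl cp) (hx' : (zs (.inl (.inl h'))).re ∈ Set.Icc cl' cp')
    (hcl : 0 < cl) (hcl' : 0 < cl') (hcp : cp < 1 / 2) (hcp' : cp' < 1 / 2)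
    (e : y (.inl (.inl h)) = (zs (.inl (.inl h))).re)
    (e' : y (.inl (.inl h')) = (zs (.inl (.inl h'))).re) : y (.inr v) = (zs (.inr v)).re := by
  have hM := A.ring_RM2 A' hb hL hy hf hc hv
  have s := A.ring_St hb hy hf hc hv R (by rw [e]; linarith only [hcl, hx, hx.1])
  have s' := A'.ring_St hb hy hf hc hv R (by rw [e']; linarith only [hcl', hx', hx'.1])
  rw [e, e'] at hM
  rw [e] at s
  rw [e'] at s'
  have key := RC.in_two hp hq rp rq hα (A.ring_crit2 A' hC hv) hys hM s s' hx hx' hcl hcl' hcp hcp'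
  exact ofs_inj (c := b i) (by linarith only [key])

/-- **Inner statement for a ring at an end of a word.** -/
theorem Adj.in_ring1 (A : Adj h i p j) (he : isEnd i = true) (hb : ClassW b) (hL : Loc b zs)
    (hC : Crit b zs) (hy : Mx b zs y) (hf : Flat b y) (hc : clsW b i = .ring) (R : RingSt b zs y)
    (hv : v.1 = i) {cl cp : ℝ}
    (hp : RC.LI (zs (.inl (.inl h))).re (1 / 2 + ofs (b i) (zs (.inr v)).re)
      (ofs (b i) (zs (.inl (.inl h))).im) (zs (.inr v)).im)
    (rp : RC.RampOK1 ((b i).natAbs : ℝ) (zs (.inl (.inl h))).re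
      (1 / 2 + ofs (b i) (zs (.inr v)).re) (ofs (b i) (zs (.inl (.inl h))).im) (zs (.inr v)).im cl cp)
    (hys : 1 / 4 < 1 / 2 + ofs (b i) (zs (.inr v)).re)
    (hx : (zs (.inl (.inl h))).re ∈ Set.Icc cl cp) (hcl : 0 < cl) (hcp : cp < 1 / 2)
    (e : y (.inl (.inl h)) = (zs (.inl (.inl h))).re) : y (.inr v) = (zs (.inr v)).re := by
  have hM := A.ring_RM1 he hb hL hy hf hc hv
  have s := A.ring_St hb hy hf hc hv R (by rw [e]; linarith only [hcl, hx, hx.1])
  rw [e] at hM s
  have key := RC.in_one hp rp (A.ring_crit1 he hC hv) hys hM s hx hcl hcp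
  exact ofs_inj (c := b i) (by linarith only [key])

end

end SR

end Pool.Agent.Work.MP_b30479_gtS.G2

end

section

/-!
# The ramp part of the rings in a word, at least five crossings

`Rows5`: the list of the rows.
-/

namespace Pool.Agent.Work.MP_b30479_gtS.G2

open Finset VOL Filter Topology

namespace SR

/-- flat part of a hinge of a ring at a maximiser, by the class of the neighbour -/
noncomputable def fcl : Cl → ℝ
  | .one => 16 / 100
  | .two => 125 / 1000
  | .twoE => 125 / 1000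
  | .three => 12 / 100
  | .threeE => 10 / 100
  | .ring => 10 / 100

noncomputable def fcp : Cl → ℝ
  | .one => 36 / 100
  | .two => 30 / 100
  | .twoE => 30 / 100
  | .three => 30 / 100
  | .threeE => 26 / 100
  | .ring => 27 / 100

theorem fcl_pos (C : Cl) : 1 / 10 ≤ fcl C := by cases C <;> norm_num [fcl]
theorem fcp_lt (C : Cl) : fcp C ≤ 36 / 100 := by cases C <;> norm_num [fcp]

/-- window of the saddle point by the class of the neighbour; `e`: equal signs -/
noncomputable def wCl (C : Cl) (e : Bool) (s0 s1 r1 : ℝ) : RC.RWp :=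
  match C, e with
  | .one, _ => RC.wOne s0 s1 0 r1
  | .two, _ => RC.wTwo s0 s1 0 r1
  | .twoE, _ => RC.wTwoE s0 s1 0 r1
  | .three, _ => RC.wThree s0 s1 0 r1
  | .threeE, _ => RC.wThreeE s0 s1 0 r1
  | .ring, false => RC.wRr s0 s1 0 r1
  | .ring, true => RC.wRs s0 s1 0 r1

/-- **The rows of the ramp part, at least five crossings.** -/
structure Rows5 : Prop where
  i7 : ∀ n : ℝ, 7 ≤ n → ∀ C e, RC.RowI (wCl C e 0 (155 / 1000) (40 / 1000)) n (1 / 2) (1 / 50) 0
    (fcl C) (fcp C)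
  e7 : ∀ n : ℝ, 7 ≤ n → ∀ C e, RC.RowE (wCl C e 0 (155 / 1000) (22 / 1000)) n (fcl C) (fcp C)
  i6 : ∀ C e, RC.RowI (wCl C e (109 / 1000) (168 / 1000) (52 / 1000)) 6 (6 / 10) (3 / 100) (4 / 10)
    (fcl C) (fcp C)
  e6 : ∀ C e, RC.RowE (wCl C e (136 / 1000) (174 / 1000) (30 / 1000)) 6 (fcl C) (fcp C)
  i5o : RC.RowI (RC.wOne5 0 (725 / 10000)) 5 (6 / 10) (15 / 100) (75 / 100) (16 / 100) (36 / 100)
  i5 : ∀ C e, C ≠ .one → RC.RowI (wCl C e (127 / 1000) (194 / 1000) (725 / 10000)) 5 (6 / 10)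
    (15 / 100) (75 / 100) (fcl C) (fcp C)
  e5o : RC.RowE (RC.wOne5e 0 (43 / 1000)) 5 (16 / 100) (36 / 100)
  e5 : ∀ C e, C ≠ .one → RC.RowE (wCl C e (158 / 1000) (206 / 1000) (43 / 1000)) 5 (fcl C) (fcp C)

/-- the mixture and the line of an interior ring with `n` crossings; `s`: minus the real part of the
ring variable -/
noncomputable def rlam (n : ℕ) : ℝ := if n = 4 then 65 / 100 else if n ≤ 6 then 6 / 10 else 1 / 2
noncomputable def ralp (n : ℕ) (s : ℝ) : ℝ :=
  if n = 4 then (if s ≤ 213 / 1000 then 14 / 100 else 8 / 100)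
  else if n = 5 then 15 / 100 else if n = 6 then 3 / 100 else 1 / 50
noncomputable def rbet (n : ℕ) (s : ℝ) : ℝ :=
  if n = 4 then (if s ≤ 1 / 5 then 1 else 11 / 10)
  else if n = 5 then 75 / 100 else if n = 6 then 4 / 10 else 0

theorem ralp_pos (n : ℕ) (s : ℝ) : 0 < ralp n s := by unfold ralp; split_ifs <;> norm_num
theorem rbet_nonneg (n : ℕ) (s : ℝ) : 0 ≤ rbet n s := by unfold rbet; split_ifs <;> norm_num

variable {M : ℕ} {b : Fin (M + 1) → ℤ} {zs : DD (tyW b) ⊕ ZZ (tyW b) → ℂ}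
variable {y : DD (tyW b) ⊕ ZZ (tyW b) → ℝ}
variable {h h' : Fin M} {i j j' : Fin (M + 1)} {p : Fin 3} {v : ZZ (tyW b)}

/-- real part of the ring variable -/
theorem ring_box (hL : Loc b zs) (v : ZZ (tyW b)) :
    (zbox (b v.1).natAbs (isEnd v.1)).x0 ≤ ofs (b v.1) (zs (.inr v)).re ∧
    ofs (b v.1) (zs (.inr v)).re ≤ (zbox (b v.1).natAbs (isEnd v.1)).x1 ∧
    0 < (zs (.inr v)).im ∧ (zs (.inr v)).im ≤ (zbox (b v.1).natAbs (isEnd v.1)).t1 := by
  obtain ⟨h1, h2, -, h4⟩ := hL.ring v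
  rw [ofz_re] at h1 h2
  rw [ofz_im] at h4
  exact ⟨h1, h2, hL.rpos v, h4⟩

theorem Adj.real_re (_ : Adj h i p j) : (ofr (b i) (zs (.inl (.inl h)))).re =
    (zs (.inl (.inl h))).re := by
  rw [ofr_re]

/-- **The saddle point is in the window of its class.** -/
theorem Adj.in_wCl (A : Adj h i p j) (hb : ClassW b) (hL : Loc b zs) (hX : LocX b zs)
    (hR : LocR b zs) (hG : LocRg b zs) (hc : clsW b i = .ring) (hv : v.1 = i)
    (h5 : 5 ≤ (b i).natAbs) {s0 s1 r1 : ℝ} (a0 : s0 ≤ -ofs (b i) (zs (.inr v)).re)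
    (a1 : -ofs (b i) (zs (.inr v)).re ≤ s1) (a2 : (zs (.inr v)).im ≤ r1) (a3 : s1 ≤ 3 / 10)
    (a4 : r1 ≤ 1 / 10) :
    (wCl (clsW b j) (ssW b h) s0 s1 r1).In (zs (.inl (.inl h))).re
      (-ofs (b i) (zs (.inr v)).re) (ofs (b i) (zs (.inl (.inl h))).im) (zs (.inr v)).im := by
  have hpos := hL.rpos v
  obtain ⟨x0, x1, t0, t1⟩ := A.box hb hL
  rw [hc] at x0 x1 t0 t1
  by_cases hj : clsW b j = .ring
  · -- ring
    have W := hG.three v hv A hc (Or.inr (Or.inr hj))
    have Ws := W.s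
    have Wq := W.q
    have Wqs := W.qs
    have Wc := W.c
    simp only [ofr_re, ofr_im, ofz_re, ofz_im] at Ws Wq Wqs Wc
    have hT := (hR.rr A hc hj).2 h5
    rw [hj] at x0 x1 t0 t1 ⊢
    generalize ssW b h = e at *
    cases e
    · simp only [hbox] at x0 x1 t0 t1
      unfold wCl RC.wRr
      constructor <;> (try simp only) <;> linarith only [x0, x1, t0, t1, a0, a1, hpos, a2, Wc, a4, hT, Wq, Wqs]
    · simp only [hbox] at x0 x1 t0 t1
      unfold wCl RC.wRs
      constructor <;> (try simp only) <;> linarith only [x0, x1, t0, hT, a0, a1, hpos, a2, Wc, a4, Wqs]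
  · have hop := A.opp hb (Or.inr hj)
    have hop' : b j * b i < 0 := by rwa [mul_comm] at hop
    have eo := ofs_opp hop' (zs (.inl (.inl h))).im
    rw [A.ss hop] at x0 x1 t0 t1
    have e : ssW b h = false := A.ss hop
    rw [e]
    generalize hC : clsW b j = C at *
    cases C
    · simp only [hbox] at x0 x1 t0 t1
      unfold wCl RC.wOne
      constructor <;> (try simp only) <;> linarith only [x0, x1, t0, t1, a0, a1, hpos, a2, a3, a4]
    · have W := hG.two v hv A hc hC
      have Ws := W.s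
      have Wq := W.q
      have Wqs := W.qs
      have Wc := W.c
      simp only [ofr_re, ofr_im, ofz_re, ofz_im] at Ws Wq Wqs Wc
      simp only [hbox] at x0 x1 t0 t1
      unfold wCl RC.wTwo
      constructor <;> (try simp only) <;> linarith only [x0, x1, t0, t1, a0, a1, hpos, a2, Wc, a3, a4, Wq, Wqs]
    · have W := hG.twoE5 v hv A h5 hC
      have Ws := W.s
      have Wq := W.q
      have Wqs := W.qs
      have Wc := W.c
      simp only [ofr_re, ofr_im, ofz_re, ofz_im] at Ws Wq Wqs Wc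
      simp only [hbox] at x0 x1 t0 t1
      unfold wCl RC.wTwoE
      constructor <;> (try simp only) <;> linarith only [x0, x1, t0, t1, a0, a1, hpos, a2, Wc, Wq, Wqs]
    · have W := hG.three v hv A hc (Or.inl hC)
      have Ws := W.s
      have Wq := W.q
      have Wqs := W.qs
      have Wc := W.c
      simp only [ofr_re, ofr_im, ofz_re, ofz_im] at Ws Wq Wqs Wc
      simp only [hbox] at x0 x1 t0 t1
      have h3 := hX.three A.symm hC hc
      unfold wCl RC.wThree
      constructor <;> (try simp only) <;> linarith only [x0, x1, t0, eo, h3, a0, a1, hpos, a2, Wc, a3, a4, t1, Wq, Wqs]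
    · have W := hG.three v hv A hc (Or.inr (Or.inl hC))
      have Ws := W.s
      have Wq := W.q
      have Wqs := W.qs
      have Wc := W.c
      simp only [ofr_re, ofr_im, ofz_re, ofz_im] at Ws Wq Wqs Wc
      simp only [hbox] at x0 x1 t0 t1
      unfold wCl RC.wThreeE
      constructor <;> (try simp only) <;> linarith only [x0, x1, t0, t1, a0, a1, hpos, a2, Ws, Wqs, a3, a4, Wq]
    · exact absurd rfl hj

/-- window of a digit `1`, five crossings -/
theorem Adj.in_one5 (A : Adj h i p j) (hb : ClassW b) (hL : Loc b zs) (hX : LocX b zs)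
    (hG : LocRg b zs) (hc : clsW b i = .ring) (hv : v.1 = i) (hj : clsW b j = .one)
    (h5 : (b i).natAbs = 5) (he : isEnd i = false) :
    (RC.wOne5 0 (725 / 10000)).In (zs (.inl (.inl h))).re (-ofs (b i) (zs (.inr v)).re)
      (ofs (b i) (zs (.inl (.inl h))).im) (zs (.inr v)).im := by
  obtain ⟨h', j', A'⟩ := A.symm.other_one hb hj
  obtain ⟨W, hW, hI⟩ := hG.one v hv A.symm A' hj (Or.inr h5)
  have hop : b j * b i < 0 := by
    have := A.opp hb (Or.inr (by rw [hj]; decide))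
    rwa [mul_comm] at this
  have eo := ofs_opp hop (zs (.inl (.inl h))).im
  have hT := hX.one5 A.symm hj hc h5
  obtain ⟨b0, b1, hpos, b2⟩ := ring_box hL v
  rw [hv, h5, he] at b0 b1 b2
  obtain ⟨-, -, -, t1⟩ := A.box hb hL
  rw [hc, hj] at t1
  simp only [hbox] at t1
  norm_num [zbox] at b0 b1 b2
  rw [h5, he] at hW
  have i0 := hI.x0
  have i1 := hI.x1
  have i2 := hI.s0
  have i3 := hI.s1
  have i4 := hI.q0
  have i5 := hI.q1
  have i6 := hI.c
  simp only [ofr_re, ofr_im, ofz_re, ofz_im] at i0 i1 i2 i3 i4 i5 i6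
  generalize clsW b j' = P at hW
  cases P <;> simp only [rw1, List.mem_cons, List.not_mem_nil, or_false] at hW
  · rcases hW with rfl | rfl | rfl | rfl | rfl <;> norm_num at i0 i1 i2 i3 i4 i5 i6 <;>
      (unfold RC.wOne5; constructor <;> (try simp only) <;> linarith only [hpos, b2, i0, i1, eo, hT, t1, b1, i3, i4, i5])
  · rcases hW with rfl | rfl <;> norm_num at i0 i1 i2 i3 i4 i5 i6 <;>
      (unfold RC.wOne5; constructor <;> (try simp only) <;> linarith only [hpos, b2, i0, i1, eo, hT, t1, b1, i3, i6, i4, i5])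
  · subst hW
    norm_num at i0 i1 i2 i3 i4 i5 i6
    unfold RC.wOne5
    constructor <;> (try simp only) <;> linarith only [hpos, b2, i0, i1, eo, hT, t1, b1, i3, i4, i5]

/-- the same for a ring at an end -/
theorem Adj.in_one5e (A : Adj h i p j) (hb : ClassW b) (hL : Loc b zs) (hX : LocX b zs)
    (hG : LocRg b zs) (hc : clsW b i = .ring) (hv : v.1 = i) (hj : clsW b j = .one)
    (h5 : (b i).natAbs = 5) (he : isEnd i = true) :
    (RC.wOne5e 0 (43 / 1000)).In (zs (.inl (.inl h))).re (-ofs (b i) (zs (.inr v)).re)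
      (ofs (b i) (zs (.inl (.inl h))).im) (zs (.inr v)).im := by
  obtain ⟨h', j', A'⟩ := A.symm.other_one hb hj
  obtain ⟨W, hW, hI⟩ := hG.one v hv A.symm A' hj (Or.inr h5)
  have hop : b j * b i < 0 := by
    have := A.opp hb (Or.inr (by rw [hj]; decide))
    rwa [mul_comm] at this
  have eo := ofs_opp hop (zs (.inl (.inl h))).im
  have hT := hX.one5 A.symm hj hc h5
  obtain ⟨b0, b1, hpos, b2⟩ := ring_box hL v
  rw [hv, h5, he] at b0 b1 b2
  obtain ⟨-, -, -, t1⟩ := A.box hb hL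
  rw [hc, hj] at t1
  simp only [hbox] at t1
  norm_num [zbox] at b0 b1 b2
  rw [h5, he] at hW
  have i0 := hI.x0
  have i1 := hI.x1
  have i2 := hI.s0
  have i3 := hI.s1
  have i4 := hI.q0
  have i5 := hI.q1
  have i6 := hI.c
  simp only [ofr_re, ofr_im, ofz_re, ofz_im] at i0 i1 i2 i3 i4 i5 i6
  generalize clsW b j' = P at hW
  cases P <;> simp only [rw1, List.mem_cons, List.not_mem_nil, or_false] at hW
  · rcases hW with rfl | rfl | rfl <;> norm_num at i0 i1 i2 i3 i4 i5 i6 <;>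
      (unfold RC.wOne5e; constructor <;> (try simp only) <;> linarith only [hpos, b2, i0, i1, i5, t1, b1, i3, i4])
  · rcases hW with rfl | rfl <;> norm_num at i0 i1 i2 i3 i4 i5 i6 <;>
      (unfold RC.wOne5e; constructor <;> (try simp only) <;> linarith only [hpos, b2, i0, i1, i5, t1, b1, i3, i6, i4])
  · subst hW
    norm_num at i0 i1 i2 i3 i4 i5 i6
    unfold RC.wOne5e
    constructor <;> (try simp only) <;> linarith only [hpos, b2, i0, i1, eo, hT, t1, b1, i3, i4, i5]

/-! ### the ramp part, at least five crossings -/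

theorem sub_neg_half (t : ℝ) : 1 / 2 - -t = 1 / 2 + t := by ring

theorem Adj.rampI5 (A : Adj h i p j) (R5 : Rows5) (hb : ClassW b) (hL : Loc b zs)
    (hX : LocX b zs) (hR : LocR b zs) (hG : LocRg b zs) (hc : clsW b i = .ring) (hv : v.1 = i)
    (h5 : 5 ≤ (b i).natAbs) (he : isEnd i = false) :
    RC.RampOK (rlam (b i).natAbs) (ralp (b i).natAbs (-ofs (b i) (zs (.inr v)).re))
      (rbet (b i).natAbs (-ofs (b i) (zs (.inr v)).re)) ((b i).natAbs : ℝ)
      (zs (.inl (.inl h))).re (1 / 2 + ofs (b i) (zs (.inr v)).re)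
      (ofs (b i) (zs (.inl (.inl h))).im) (zs (.inr v)).im (fcl (clsW b j)) (fcp (clsW b j)) := by
  obtain ⟨b0, b1, hpos, b2⟩ := ring_box hL v
  rw [hv, he] at b0 b1 b2
  rw [← sub_neg_half]
  rcases (show (b i).natAbs = 5 ∨ (b i).natAbs = 6 ∨ 7 ≤ (b i).natAbs by omega) with h6 | h6 | h6
  · have e1 : rlam 5 = 6 / 10 := by norm_num [rlam]
    have e2 : ∀ s, ralp 5 s = 15 / 100 := fun s => by norm_num [ralp]
    have e3 : ∀ s, rbet 5 s = 75 / 100 := fun s => by norm_num [rbet]
    rw [h6] at b0 b1 b2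
    norm_num [zbox] at b0 b1 b2
    by_cases hj : clsW b j = .one
    · have hI := A.in_one5 hb hL hX hG hc hv hj h6 he
      have := R5.i5o _ _ _ _ hI
      rw [h6, e1, e2, e3, hj]
      push_cast
      exact this
    · have hI := A.in_wCl hb hL hX hR hG hc hv h5 (s0 := 127 / 1000) (s1 := 194 / 1000)
        (r1 := 725 / 10000) (by linarith only [b1]) (by linarith only [b0]) (by linarith only [b2]) (by norm_num) (by norm_num)
      have := R5.i5 _ _ hj _ _ _ _ hI
      rw [h6, e1, e2, e3]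
      push_cast
      exact this
  · have e1 : rlam 6 = 6 / 10 := by norm_num [rlam]
    have e2 : ∀ s, ralp 6 s = 3 / 100 := fun s => by norm_num [ralp]
    have e3 : ∀ s, rbet 6 s = 4 / 10 := fun s => by norm_num [rbet]
    rw [h6] at b0 b1 b2
    norm_num [zbox] at b0 b1 b2
    have hI := A.in_wCl hb hL hX hR hG hc hv h5 (s0 := 109 / 1000) (s1 := 168 / 1000)
      (r1 := 52 / 1000) (by linarith only [b1]) (by linarith only [b0]) (by linarith only [b2]) (by norm_num) (by norm_num)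
    have := R5.i6 _ _ _ _ _ _ hI
    rw [h6, e1, e2, e3]
    push_cast
    exact this
  · have e1 : rlam (b i).natAbs = 1 / 2 := by
      unfold rlam
      rw [if_neg (by omega), if_neg (by omega)]
    have e2 : ∀ s, ralp (b i).natAbs s = 1 / 50 := by
      intro s
      unfold ralp
      rw [if_neg (by omega), if_neg (by omega), if_neg (by omega)]
    have e3 : ∀ s, rbet (b i).natAbs s = 0 := by
      intro s
      unfold rbet
      rw [if_neg (by omega), if_neg (by omega), if_neg (by omega)]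
    have h7 : (7 : ℝ) ≤ ((b i).natAbs : ℝ) := by exact_mod_cast h6
    have b3 : ofs (b i) (zs (.inr v)).re ≤ 0 ∧ -(155 / 1000) ≤ ofs (b i) (zs (.inr v)).re := by
      constructor
      · refine b1.trans ?_
        unfold zbox
        split_ifs <;> norm_num
      · refine le_trans ?_ b0
        unfold zbox
        rw [if_neg (by omega), if_neg (by omega), if_neg (by omega)]
        split_ifs <;> norm_num
    have b4 := (ring_cap hb hL v).2.2.2.1 (by rw [hv]; exact h7)
    have hI := A.in_wCl hb hL hX hR hG hc hv h5 (s0 := 0) (s1 := 155 / 1000)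
      (r1 := 40 / 1000) (by linarith only [b3]) (by linarith only [b3]) (by linarith only [b4]) (by norm_num) (by norm_num)
    have := R5.i7 _ h7 _ _ _ _ _ _ hI
    rw [e1, e2, e3]
    exact this

theorem Adj.rampE5 (A : Adj h i p j) (R5 : Rows5) (hb : ClassW b) (hL : Loc b zs)
    (hC : Crit b zs) (hX : LocX b zs) (hR : LocR b zs) (hG : LocRg b zs)
    (hc : clsW b i = .ring) (hv : v.1 = i)
    (h5 : 5 ≤ (b i).natAbs) (he : isEnd i = true) :
    RC.RampOK1 ((b i).natAbs : ℝ)
      (zs (.inl (.inl h))).re (1 / 2 + ofs (b i) (zs (.inr v)).re)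
      (ofs (b i) (zs (.inl (.inl h))).im) (zs (.inr v)).im (fcl (clsW b j)) (fcp (clsW b j)) := by
  obtain ⟨b0, b1, hpos, b2⟩ := ring_box hL v
  rw [hv, he] at b0 b1 b2
  have hD := A.ring_crit1 he hC hv
  rw [← sub_neg_half] at hD ⊢
  rcases (show (b i).natAbs = 5 ∨ (b i).natAbs = 6 ∨ 7 ≤ (b i).natAbs by omega) with h6 | h6 | h6
  · rw [h6] at b0 b1 b2 hD
    push_cast at hD
    norm_num [zbox] at b0 b1 b2
    by_cases hj : clsW b j = .one
    · have hI := A.in_one5e hb hL hX hG hc hv hj h6 he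
      have := R5.e5o _ _ _ _ hI hD
      rw [h6, hj]
      push_cast
      exact this
    · have hI := A.in_wCl hb hL hX hR hG hc hv h5 (s0 := 158 / 1000) (s1 := 206 / 1000)
        (r1 := 43 / 1000) (by linarith only [b1]) (by linarith only [b0]) (by linarith only [b2]) (by norm_num) (by norm_num)
      have := R5.e5 _ _ hj _ _ _ _ hI hD
      rw [h6]
      push_cast
      exact this
  · rw [h6] at b0 b1 b2 hD
    push_cast at hD
    norm_num [zbox] at b0 b1 b2
    have hI := A.in_wCl hb hL hX hR hG hc hv h5 (s0 := 136 / 1000) (s1 := 174 / 1000)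
      (r1 := 30 / 1000) (by linarith only [b1]) (by linarith only [b0]) (by linarith only [b2]) (by norm_num) (by norm_num)
    have := R5.e6 _ _ _ _ _ _ hI hD
    rw [h6]
    push_cast
    exact this
  · have h7 : (7 : ℝ) ≤ ((b i).natAbs : ℝ) := by exact_mod_cast h6
    have b3 : ofs (b i) (zs (.inr v)).re ≤ 0 ∧ -(155 / 1000) ≤ ofs (b i) (zs (.inr v)).re ∧
        (zs (.inr v)).im ≤ 22 / 1000 := by
      refine ⟨?_, ?_, ?_⟩
      · refine b1.trans ?_
        unfold zbox
        split_ifs <;> norm_num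
      · refine le_trans ?_ b0
        unfold zbox
        rw [if_neg (by omega), if_neg (by omega), if_neg (by omega)]
        split_ifs <;> norm_num
      · refine b2.trans ?_
        unfold zbox
        rw [if_neg (by omega), if_neg (by omega), if_neg (by omega)]
        by_cases h8 : (b i).natAbs = 7
        · rw [if_pos h8]
          norm_num
        · rw [if_neg h8]
          have h9 : (8 : ℝ) ≤ ((b i).natAbs : ℝ) := by exact_mod_cast (show 8 ≤ (b i).natAbs by omega)
          simp only [if_true]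
          rw [div_le_iff₀ (by positivity)]
          nlinarith only [h9, h7]
    have hI := A.in_wCl hb hL hX hR hG hc hv h5 (s0 := 0) (s1 := 155 / 1000)
      (r1 := 22 / 1000) (by linarith only [b3]) (by linarith only [b3]) (by linarith only [b3]) (by norm_num) (by norm_num)
    exact R5.e7 _ h7 _ _ _ _ _ _ hI hD

end SR

end Pool.Agent.Work.MP_b30479_gtS.G2

end
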