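import Pool.Agent.Work.MP_b30479_gt.TBS.G2.RZ0

/-!
# Right ramps of `{2, 2e} | ring`, the side of the ring: the rows without a lower bound

`30/100 ≤ x ≤ 36/100`: `S4 + π m ≤ -15/1000 + 141/100 m`.
-/

set_option deprecated.oldSectionVars true

namespace Pool.Agent.Work.MP_b30479_gtS.G2

open VOL NumIs

namespace RZ2

open LR RZ1

/-- `π m + 15/1000 - 141/100 m` -/
def bI (M : F) : F := ((F.pi.mul M).add (F.rat 15 1000)).sub (F.mulq 141 100 M)

lemma ev_bI : EvB bI (fun m => Real.pi * m + 15 / 1000 - 141 / 100 * m) := by
  intro M ε m hε h
  have h2 := F.Encl.rat 15 1000 ε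
  have h3 := F.Encl.mulq (n := 141) (d := 100) (by norm_num) hε h
  push_cast at h2 h3
  exact F.Encl.sub (F.Encl.add (F.Encl.mul hε (F.Encl.pi ε) h) h2) h3

theorem qiR_1 : okB 10000 (uR bI) 0 0 0 0 40 3000 3600 100 600 0 2500 0 1045
    0x408042030810182081010408080820810084080c184080c104080020204102030810183081018208100040408080081000404102000410202081010408080020810200041020208101020400082 = true := by
  decide +kernel

theorem qiR_2 : okB 10000 (uR bI) 0 0 0 0 40 3000 3600 600 1310 0 2500 0 1045
    0x10200080c204000820406102010410202040420402101020810184080420300102020410202041020308101810810182081008404082040408080 = true := by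
  decide +kernel

theorem qiF_1 : okB 10000 (uF bI) 0 0 0 0 40 3000 3600 100 600 0 2500 0 1045
    0x60c180030c183060c00003060830602183060c000030610203081020006102060800200060c08304002040610204060c20408281830604184080c2040820100060c20406102040820100060c181102018810200831020400060018200084081020008000c1881020003042040310201800420408020040810001831020188100440300084080620401100c40300080020c1820200102040020100041830008083040800104080440204001881000402102000210201881000108102010004001060c180020c1020004183000810202060808008102010210203100820408200020620400040400210200080420108100040210080020c1830614041000410503140410814044021020000100840204183000c185010400204042818a0208204140c08a0628088140c4021020088000010210200080420102000c181 = true := by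
  decide +kernel

theorem qiF_2 : okB 10000 (uF bI) 0 0 0 0 40 3000 3600 600 1310 0 2500 0 1045
    0x18306000c2040610204000c1821020008102000306204031020180040830604183060c000830610200080c2040610204020c083042040310204000620400040c408062040300081010c1830006183030c18300060408408002030810200060c2040610203061020308101830204104080c204060c204061020306044081004008100c1820810184081000306102030810203060c08810004031020188100c0030404108100c40806044080020182102018810044020620401100c1011020401002018810081881004403102010806201800420402100c408040c4080420188100818110201081008088100018810041820200100 = true := by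
  decide +kernel

set_option deprecated.oldSectionVars false
variable {x T s ρ : ℝ} {w ζ : ℂ}

/-- `30/100 ≤ x ≤ 36/100`, flat part -/
theorem g0_flat (hw : W x (T / (30 / 100)) w) (hz : RZ1.ZF ρ ζ) (h1 : 30 / 100 ≤ x)
    (h2 : x ≤ 36 / 100) (h3 : 10 / 1000 ≤ T) (h4 : T ≤ 131 / 1000) (h5 : ρ ≤ 1045 / 10000) :
    S4 (T / (30 / 100)) w ζ + Real.pi * (T / (30 / 100)) ≤
      -(15 / 1000) + 141 / 100 * (T / (30 / 100)) := by
  rw [mT_eq] at hw ⊢
  rcases le_total T (6 / 100) with h8 | h8
  · have h9 := boxF ev_bI qiF_1 hw hz h1 (by linarith only [h3])
      (by push_cast; linarith only [h1]) (by push_cast; linarith only [h2]) (by push_cast; linarith only [h3])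
      (by push_cast; linarith only [h8]) (by push_cast; linarith only [h5])
    linarith only [h9]
  · have h9 := boxF ev_bI qiF_2 hw hz h1 (by linarith only [h8])
      (by push_cast; linarith only [h1]) (by push_cast; linarith only [h2]) (by push_cast; linarith only [h8])
      (by push_cast; linarith only [h4]) (by push_cast; linarith only [h5])
    linarith only [h9]

/-- `30/100 ≤ x ≤ 36/100`, ramp -/
theorem g0_ramp (hw : W x (T / (30 / 100)) w) (hz : RZ1.ZR s ρ ζ) (h1 : 30 / 100 ≤ x)
    (h2 : x ≤ 36 / 100) (h3 : 10 / 1000 ≤ T) (h4 : T ≤ 131 / 1000) (h5 : ρ ≤ 1045 / 10000) :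
    S4 (T / (30 / 100)) w ζ + Real.pi * (T / (30 / 100)) ≤
      -(15 / 1000) + 141 / 100 * (T / (30 / 100)) := by
  rw [mT_eq] at hw ⊢
  have h6 := hz.lo
  have h7 := hz.hi
  rcases le_total T (6 / 100) with h8 | h8
  · have h9 := boxR ev_bI qiR_1 hw hz h1 (by linarith only [h3, h6, h7])
      (by push_cast; linarith only [h1]) (by push_cast; linarith only [h2]) (by push_cast; linarith only [h3])
      (by push_cast; linarith only [h8]) (by push_cast; linarith only [h6]) (by push_cast; linarith only [h7])
      (by push_cast; linarith only [h5])
    linarith only [h9]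
  · have h9 := boxR ev_bI qiR_2 hw hz h1 (by linarith only [h6, h7, h8])
      (by push_cast; linarith only [h1]) (by push_cast; linarith only [h2]) (by push_cast; linarith only [h8])
      (by push_cast; linarith only [h4]) (by push_cast; linarith only [h6]) (by push_cast; linarith only [h7])
      (by push_cast; linarith only [h5])
    linarith only [h9]

end RZ2

end Pool.Agent.Work.MP_b30479_gtS.G2
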