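import Pool.Agent.Work.MP_b30479_gt.TBS.G2.RMon
import Pool.Agent.Work.MP_b30479_gt.TBS.NumU.Node
import Pool.Agent.Work.MP_b30479_gt.TBS.G2.WValD

section

/-!
# Tails at rings: the rows

`tr_other`: a hinge on its path; `tr_tail`: a hinge in the tail; the target of the ring variable is
`-1/8 + i ρ`, the target of the hinges in the tail is `1/4 + i t`.
-/

set_option deprecated.oldSectionVars true

namespace Pool.Agent.Work.MP_b30479_gtS.G2

open Finset VOL Filter Topology NumUs

/-! ### `Lr` near `0` -/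

theorem Lr_le_left {s s' ε : ℝ} (hs : 0 ≤ s) (hss : s ≤ s') (hε : 0 ≤ ε) : DT.Lr s ε ≤ DT.Lr s' ε := by
  have := Lr_diff_mono hε hs hss
  rw [DT.Lr_zero_right, DT.Lr_zero_right] at this
  linarith only [this]

theorem Lr_anti_pos {s x x' : ℝ} (hs : 0 < s) (hs' : s ≤ 6 / 100) (h0 : 0 ≤ x) (h1 : x ≤ x')
    (h2 : x' ≤ 2 / 100) : DT.Lr s x' ≤ DT.Lr s x := by
  have hpi := Real.pi_pos
  have hpi4 : Real.pi < 3.15 := Real.pi_lt_d2
  have hm : AntitoneOn (fun x => DT.Lr s x) (Set.Icc 0 (2 / 100)) := by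
    apply antitoneOn_of_deriv_nonpos (convex_Icc _ _)
    · exact fun r _ => (DT.hasDerivAt_Lr hs).continuousAt.continuousWithinAt
    · exact fun r _ => (DT.hasDerivAt_Lr hs).differentiableAt.differentiableWithinAt
    · intro r hr
      rw [interior_Icc] at hr
      rw [(DT.hasDerivAt_Lr hs).deriv]
      unfold DT.el
      have a1 := DT.LrDer.cosh_gt_cos (v := r) hs
      have a2 : Real.cosh (2 * Real.pi * s) ≤ 11 / 10 := by
        refine (Real.cosh_le_exp_half_sq _).trans ?_
        have h3 : (2 * Real.pi * s) ^ 2 / 2 ≤ 72 / 1000 := by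
          have h4 : 2 * Real.pi * s ≤ 2 * 3.15 * (6 / 100) := by
            apply mul_le_mul _ hs' hs.le (by norm_num)
            linarith only [hpi4]
          have h5 : 0 ≤ 2 * Real.pi * s := by positivity
          nlinarith only [hs', hpi4, hs, hpi, h4, h5]
        have h6 : Real.exp ((2 * Real.pi * s) ^ 2 / 2) ≤ Real.exp (72 / 1000) := Real.exp_le_exp.mpr h3
        have h7 := Real.add_one_le_exp (-(72 / 1000) : ℝ)
        have h8 : Real.exp (72 / 1000) * Real.exp (-(72 / 1000)) = 1 := by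
          rw [← Real.exp_add]
          simp
        have h9 := Real.exp_pos (72 / 1000 : ℝ)
        nlinarith only [h6, h8, hs, hs', h9, h7]
      have a3 : 9 / 10 ≤ Real.cos (2 * Real.pi * r) := by
        have h3 := Real.one_sub_sq_div_two_le_cos (x := 2 * Real.pi * r)
        have h4 : 2 * Real.pi * r ≤ 2 * 3.15 * (2 / 100) := by
          apply mul_le_mul _ hr.2.le hr.1.le (by norm_num)
          linarith only [hpi4]
        have h5 : 0 ≤ 2 * Real.pi * r := by have := hr.1.le; positivity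
        nlinarith only [h3, h4, hs', hs, h5]
      have a4 : Real.log (2 * Real.cosh (2 * Real.pi * s) - 2 * Real.cos (2 * Real.pi * r)) ≤ 0 := by
        apply Real.log_nonpos
        · linarith only [a1]
        · linarith only [hs, hs', a2, a3]
      linarith only [a4]
  exact hm ⟨h0, by linarith only [h1, h2]⟩ ⟨by linarith only [h0, h1], h2⟩ h1

theorem Lr_anti {s x x' : ℝ} (hs : 0 ≤ s) (hs' : s ≤ 6 / 100) (h0 : 0 ≤ x) (h1 : x ≤ x')
    (h2 : x' ≤ 2 / 100) : DT.Lr s x' ≤ DT.Lr s x := by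
  rcases hs.lt_or_eq with h | h
  · exact Lr_anti_pos h hs' h0 h1 h2
  · subst h
    have c1 : ∀ z : ℝ, Tendsto (fun s => DT.Lr s z) (𝓝[>] 0) (𝓝 (DT.Lr 0 z)) := fun z =>
      (DT.LrCont.continuous_Lr_left z).continuousAt.tendsto.mono_left nhdsWithin_le_nhds
    refine le_of_tendsto_of_tendsto (c1 x') (c1 x) ?_
    filter_upwards [self_mem_nhdsWithin, nhdsWithin_le_nhds (gt_mem_nhds (show (0 : ℝ) < 6 / 100 by
      norm_num))] with s h3 h4
    exact Lr_anti_pos h3 h4.le h0 h1 h2

theorem Lr_incr {s x x' : ℝ} (hs : 165 / 1000 ≤ s) (h1 : x ≤ x') : DT.Lr s x ≤ DT.Lr s x' := by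
  have hpi := Real.pi_pos
  have hpi4 : 3.14 < Real.pi := Real.pi_gt_d2
  have hs0 : 0 < s := by linarith only [hs]
  have hm : Monotone (fun x => DT.Lr s x) := by
    apply monotone_of_deriv_nonneg
    · exact fun r => (DT.hasDerivAt_Lr hs0).differentiableAt
    · intro r
      rw [(DT.hasDerivAt_Lr hs0).deriv]
      unfold DT.el
      have a2 : 3 / 2 ≤ Real.cosh (2 * Real.pi * s) := by
        have h3 : Real.cosh (2 * (Real.pi * s)) = 1 + 2 * Real.sinh (Real.pi * s) ^ 2 := by
          rw [Real.cosh_two_mul, Real.cosh_sq]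
          ring
        rw [show 2 * Real.pi * s = 2 * (Real.pi * s) by ring, h3]
        have h4 : 3.14 * (165 / 1000) ≤ Real.pi * s := by
          apply mul_le_mul hpi4.le hs (by norm_num) hpi.le
        have h5 : Real.pi * s ≤ Real.sinh (Real.pi * s) := Real.self_le_sinh_iff.mpr (by positivity)
        nlinarith only [hs, h5, hpi4, hs0, h4]
      have a3 := Real.cos_le_one (2 * Real.pi * r)
      have a4 : 0 ≤ Real.log (2 * Real.cosh (2 * Real.pi * s) - 2 * Real.cos (2 * Real.pi * r)) :=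
        Real.log_nonneg (by linarith only [a2, a3])
      linarith only [a4]
  exact hm h1

theorem uu_Lr (x y : ℝ) : uu x y = DT.Lr |y| x - Real.pi * |y| / 2 := rfl

/-- near `1`, to the left -/
theorem uu_le_98 {x y : ℝ} (h0 : 98 / 100 ≤ x) (h1 : x ≤ 1) (hy : |y| ≤ 6 / 100) :
    uu x y ≤ uu (98 / 100) y := by
  have e1 : uu x y = -uu (1 - x) y := by
    rw [← uu_one_sub]
    ring_nf
  have e2 : uu (98 / 100) y = -uu (2 / 100) y := by
    rw [← uu_one_sub]
    norm_num
  rw [e1, e2, uu_Lr, uu_Lr]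
  have := Lr_anti (abs_nonneg y) hy (show 0 ≤ 1 - x by linarith only [h1]) (show 1 - x ≤ 2 / 100 by linarith only [h0])
    le_rfl
  linarith only [this]

section
open NumIs (V)

private theorem n1 : -(38 / 1000) ≤ DT.Lr 0 (1 / 100) := by
  have g : chk [E.add (E.uu (E.q 1 100) (E.q 0 1)) (E.q 38 1000)] 10 [V.of 1 0 0] = true := by
    decide +kernel
  have h := pos_of_chk (chk1 g (by norm_num) (x := 0) (by norm_num) (by norm_num))
  simp only [E.val, uu_Lr] at h
  norm_num at h ⊢
  linarith only [h]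

private theorem n2 : DT.Lr (165 / 1000) (1 / 100) ≤ 38 / 1000 := by
  have g : chk [E.sub (E.q 38 1000) (E.add (E.uu (E.q 1 100) (E.q 165 1000))
      (E.mul E.pi (E.q 165 2000)))] 10 [V.of 1 0 0] = true := by
    decide +kernel
  have h := pos_of_chk (chk1 g (by norm_num) (x := 0) (by norm_num) (by norm_num))
  simp only [E.val, uu_Lr] at h
  rw [show |((165 : ℤ) : ℝ) / ((1000 : ℕ) : ℝ)| = 165 / 1000 by
    rw [abs_of_pos (by norm_num)]
    norm_num] at h
  norm_num at h ⊢
  linarith only [h]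

end

/-- near `1` -/
theorem uu_ge_near {x y : ℝ} (h0 : 99 / 100 ≤ x) (h1 : x ≤ 101 / 100) (hy : |y| ≤ 165 / 1000) :
    Real.pi * |y| / 2 - 38 / 1000 ≤ uu x y := by
  rcases le_total x 1 with h | h
  · have e1 : uu x y = -uu (1 - x) y := by
      rw [← uu_one_sub]
      ring_nf
    rw [e1, uu_Lr]
    have a1 := Lr_le_left (ε := 1 - x) (abs_nonneg y) hy (by linarith only [h])
    have a2 := Lr_incr (s := 165 / 1000) le_rfl (show 1 - x ≤ 1 / 100 by linarith only [h0])
    have a3 := n2
    linarith only [a1, a2, a3]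
  · have e1 : uu x y = uu (x - 1) y + Real.pi * |y| := by
      rw [← uu_add_one]
      ring_nf
    rw [e1, uu_Lr]
    have a1 := Lr_le_left (ε := x - 1) le_rfl (abs_nonneg y) (by linarith only [h])
    have a2 := Lr_anti (s := 0) le_rfl (by norm_num) (show 0 ≤ x - 1 by linarith only [h])
      (show x - 1 ≤ 1 / 100 by linarith only [h1]) (by norm_num)
    have a3 := n1
    linarith only [a1, a2, a3]

end Pool.Agent.Work.MP_b30479_gtS.G2

end

section

/-!
# Tails, rows `E4` - `E7`: tools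

Values of `uu` near `0` and near `1`.
-/

namespace Pool.Agent.Work.MP_b30479_gtS.G2

open VOL NumUs

namespace TL

variable {w w0 x X Y τ c d ρ r s : ℝ}

theorem lnA_real {x : ℝ} (h0 : 0 < x) (h1 : x < 1) :
    NumIs.lnA x 0 = Real.log (2 * Real.sin (Real.pi * x)) := by
  have hpi := Real.pi_pos
  have hs : 0 < Real.sin (Real.pi * x) := by
    apply Real.sin_pos_of_pos_of_lt_pi
    · positivity
    · nlinarith
  unfold NumIs.lnA
  rw [mul_zero, Real.sinh_zero]
  have e : 4 * (Real.sin (Real.pi * x) ^ 2 + 0 ^ 2) = (2 * Real.sin (Real.pi * x)) ^ 2 := by ring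
  rw [e, Real.log_pow]
  push_cast
  ring

theorem uu_real_deriv {x : ℝ} (h0 : 0 < x) (h1 : x < 1) :
    HasDerivAt (fun x => uu x 0) (Real.log (2 * Real.sin (Real.pi * x))) x := by
  have h := uu_line (x := 0) (t := 0) (a := 1) (b := 0) (τ := x) (by linarith) (by linarith)
  have e : (fun τ : ℝ => uu (0 + τ * 1) (0 + τ * 0)) = fun x => uu x 0 := by
    funext s
    simp
  rw [e] at h
  refine h.congr_deriv ?_
  simp only [zero_add, mul_one, mul_zero, zero_mul, sub_zero, one_mul]
  exact lnA_real h0 h1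

theorem cont_uu_real : Continuous fun x => uu x 0 := by
  have h : (fun x => uu x 0) = fun x : ℝ => UU (x : ℂ) := by
    funext x
    rw [UU_uu]
    simp
  rw [h]
  exact continuous_UU.comp Complex.continuous_ofReal

/-- horizontal differences on the real axis -/
theorem uu_incr_real (h0 : 0 ≤ w) (h1 : w ≤ w0) (hX : 0 ≤ X) (h2 : 2 * w0 + X ≤ 1) :
    uu w0 0 - uu (w0 + X) 0 ≤ uu w 0 - uu (w + X) 0 := by
  have hpi := Real.pi_pos
  rcases eq_or_lt_of_le h1 with rfl | h1
  · exact le_rfl
  have hm : AntitoneOn (fun s => uu s 0 - uu (s + X) 0) (Set.Icc 0 w0) := by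
    have hd : ∀ s ∈ interior (Set.Icc 0 w0), HasDerivAt (fun s => uu s 0 - uu (s + X) 0)
        (Real.log (2 * Real.sin (Real.pi * s)) - Real.log (2 * Real.sin (Real.pi * (s + X)))) s := by
      intro s hs
      rw [interior_Icc] at hs
      have a2 := (uu_real_deriv (x := s + X) (by linarith [hs.1]) (by linarith [hs.2])).comp s
        ((hasDerivAt_id s).add_const X)
      rw [mul_one] at a2
      exact (uu_real_deriv hs.1 (by linarith [hs.2])).sub a2
    apply antitoneOn_of_deriv_nonpos (convex_Icc _ _)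
    · exact (cont_uu_real.sub (cont_uu_real.comp (by fun_prop))).continuousOn
    · exact fun s hs => (hd s hs).differentiableAt.differentiableWithinAt
    · intro s hs
      rw [(hd s hs).deriv]
      rw [interior_Icc] at hs
      have s1 : 0 < Real.sin (Real.pi * s) := by
        apply Real.sin_pos_of_pos_of_lt_pi
        · exact mul_pos hpi hs.1
        · nlinarith [hs.2]
      have s2 : Real.sin (Real.pi * s) ≤ Real.sin (Real.pi * (s + X)) := by
        rcases le_total (s + X) (1 / 2) with h3 | h3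
        · apply Real.sin_le_sin_of_le_of_le_pi_div_two
          · nlinarith [hs.1]
          · nlinarith
          · nlinarith
        · rw [← Real.sin_pi_sub (Real.pi * (s + X))]
          apply Real.sin_le_sin_of_le_of_le_pi_div_two
          · nlinarith [hs.1]
          · nlinarith
          · nlinarith [hs.2]
      have := Real.log_le_log (show 0 < 2 * Real.sin (Real.pi * s) by linarith)
        (show 2 * Real.sin (Real.pi * s) ≤ 2 * Real.sin (Real.pi * (s + X)) by linarith)
      linarith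
  exact hm ⟨h0, h1.le⟩ ⟨by linarith, le_rfl⟩ h1.le

/-- horizontal differences -/
theorem uu_incr (h0 : 0 ≤ w) (h1 : w ≤ w0) (hX : 0 ≤ X) (h2 : 2 * w0 + X ≤ 1) :
    uu w0 0 - uu (w0 + X) Y ≤ uu w 0 - uu (w + X) Y := by
  have a1 := uu_incr_real h0 h1 hX h2
  have a2 := Lr_diff_mono (a := w0 + X) (b := w + X) (s := 0) (s' := |Y|) (by linarith) le_rfl
    (abs_nonneg Y)
  rw [uu_Lr (w0 + X) Y, uu_Lr (w + X) Y]
  rw [uu_Lr (w0 + X) 0, uu_Lr (w + X) 0] at a1
  rw [abs_zero] at a1
  linarith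

/-- values at a small real part -/
theorem uu_near_zero (h0 : 0 ≤ x) (h1 : x ≤ 2 / 100) :
    uu (2 / 100) 0 - Real.pi / 2 * |Y| ≤ uu x Y := by
  have a1 := Lr_le_left (ε := x) le_rfl (abs_nonneg Y) h0
  have a2 := Lr_anti (s := 0) le_rfl (by norm_num) h0 h1 le_rfl
  rw [uu_Lr, uu_Lr, abs_zero]
  linarith

/-- values at a real part close to `1`, to the left -/
theorem uu_near_one (h0 : 98 / 100 ≤ x) (h1 : x ≤ 1) :
    uu x Y ≤ -uu (2 / 100) 0 + Real.pi / 2 * |Y| := by
  have e1 : uu x Y = -uu (1 - x) Y := by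
    rw [← uu_one_sub]
    ring_nf
  have := uu_near_zero (x := 1 - x) (Y := Y) (by linarith) (by linarith)
  linarith

/-! ### `Lr` near `0` -/

theorem cosh_quarter : Real.cosh (Real.pi * (1 / 4)) ≤ 133 / 100 := by
  have h : NumIs.chk [NumIs.E.sub (NumIs.E.q 133 100)
      (NumIs.E.cosh (NumIs.E.mul NumIs.E.pi (NumIs.E.q 1 4)))] 1 [NumIs.V.of 1 0 0] = true := by
    decide +kernel
  have hp := NumIs.pos_of_chk (NumIs.chk1 h (by norm_num) (x := 0) (by norm_num) (by norm_num))
  simp only [NumIs.E.val] at hp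
  norm_num at hp ⊢
  linarith

theorem Lr_nonpos' (h0 : 0 ≤ ρ) (h1 : ρ ≤ 1 / 8) (h2 : 0 ≤ x) (h3 : x ≤ 7 / 100) :
    DT.Lr ρ x ≤ 0 := by
  have hpi := Real.pi_pos
  have hpi4 : Real.pi < 3.15 := Real.pi_lt_d2
  refine (Lr_le_left h0 h1 h2).trans ?_
  have hm : AntitoneOn (fun x => DT.Lr (1 / 8) x) (Set.Icc 0 (7 / 100)) := by
    have hs : (0 : ℝ) < 1 / 8 := by norm_num
    apply antitoneOn_of_deriv_nonpos (convex_Icc _ _)
    · exact fun r _ => (DT.hasDerivAt_Lr hs).continuousAt.continuousWithinAt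
    · exact fun r _ => (DT.hasDerivAt_Lr hs).differentiableAt.differentiableWithinAt
    · intro r hr
      rw [interior_Icc] at hr
      rw [(DT.hasDerivAt_Lr hs).deriv]
      unfold DT.el
      have a1 := DT.LrDer.cosh_gt_cos (v := r) hs
      have a2 := cosh_quarter
      rw [show Real.pi * (1 / 4) = 2 * Real.pi * (1 / 8) by ring] at a2
      have a3 : 9 / 10 ≤ Real.cos (2 * Real.pi * r) := by
        have h3 := Real.one_sub_sq_div_two_le_cos (x := 2 * Real.pi * r)
        have h4 : 2 * Real.pi * r ≤ 2 * 3.15 * (7 / 100) := by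
          apply mul_le_mul _ hr.2.le hr.1.le (by norm_num)
          linarith
        have h5 : 0 ≤ 2 * Real.pi * r := by have := hr.1.le; positivity
        nlinarith
      have a4 : Real.log (2 * Real.cosh (2 * Real.pi * (1 / 8)) - 2 * Real.cos (2 * Real.pi * r)) ≤ 0 := by
        apply Real.log_nonpos
        · linarith
        · linarith
      linarith
  have := hm ⟨le_rfl, by norm_num⟩ ⟨h2, h3⟩ h2
  simp only at this
  rwa [DT.Lr_zero_right] at this

theorem V2_diff (c τ w X Y : ℝ) : V2 ⟨c, τ⟩ ⟨X, Y⟩ - V2 ⟨w, 0⟩ ⟨X, Y⟩ =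
    uu (c + X) (τ + Y) - 2 * uu c τ - Real.pi * ((c - X) * (τ - Y) + 1 / 2 * τ) +
      (2 * uu w 0 - uu (w + X) Y - Real.pi * ((w - X) * Y)) := by
  unfold V2
  simp only [UU_uu, Complex.add_re, Complex.add_im, Complex.sub_re, Complex.sub_im, pow_two,
    Complex.mul_im]
  rw [zero_add]
  ring

end TL

end Pool.Agent.Work.MP_b30479_gtS.G2

end
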