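import Pool.Agent.Work.MP_b30479_gt.TBS.G2.MRBase
import Pool.Agent.Work.MP_b30479_gt.TBS.G2.TRb
import Pool.Agent.Work.MP_b30479_gt.TBS.G2.ZRows

section

/-!
# `UU` is convex in the real part on `[0, 1/2]`
-/

namespace Pool.Agent.Work.MP_b30479_gtS.G2

open VOL NumUs

namespace UC

theorem lnA_mono {x x' t t' : ℝ} (h0 : 0 < x) (h : x ≤ x') (h1 : x' ≤ 1 / 2) (ht : |t| ≤ |t'|) :
    NumIs.lnA x t ≤ NumIs.lnA x' t' := by
  have hp := Real.pi_pos
  have s0 : 0 < Real.sin (Real.pi * x) := by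
    apply Real.sin_pos_of_pos_of_lt_pi <;> nlinarith only [h0, hp, h, h1]
  have s1 : Real.sin (Real.pi * x) ≤ Real.sin (Real.pi * x') := by
    apply Real.sin_le_sin_of_le_of_le_pi_div_two <;> nlinarith only [hp, h0, h1, h]
  have s2 : Real.sinh (Real.pi * t) ^ 2 ≤ Real.sinh (Real.pi * t') ^ 2 := by
    rw [← sq_abs, ← sq_abs (Real.sinh (Real.pi * t')), Real.abs_sinh, Real.abs_sinh, abs_mul,
      abs_mul, abs_of_pos hp]
    apply pow_le_pow_left₀ (Real.sinh_nonneg_iff.2 (by positivity))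
    exact Real.sinh_le_sinh.2 (by nlinarith only [h0, h, h1, ht, hp])
  unfold NumIs.lnA
  have h3 : 0 < 4 * (Real.sin (Real.pi * x) ^ 2 + Real.sinh (Real.pi * t) ^ 2) := by positivity
  have h4 : 4 * (Real.sin (Real.pi * x) ^ 2 + Real.sinh (Real.pi * t) ^ 2) ≤
      4 * (Real.sin (Real.pi * x') ^ 2 + Real.sinh (Real.pi * t') ^ 2) := by
    have := pow_le_pow_left₀ s0.le s1 2
    linarith only [s2, this]
  have := Real.log_le_log h3 h4
  linarith only [this]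

theorem hasDeriv {x t : ℝ} (h0 : 0 < x) (h1 : x < 1) :
    HasDerivAt (fun z => uu z t) (NumIs.lnA x t) x := by
  have h := uu_line (x := 0) (t := t) (a := 1) (b := 0) (τ := x) (by linarith only [h0]) (by linarith only [h1])
  simp only [zero_add, mul_one, mul_zero, add_zero, one_mul, zero_mul, sub_zero] at h
  exact h

theorem continuous_uu (t : ℝ) : Continuous fun z => uu z t := by
  have : (fun z : ℝ => uu z t) = fun z : ℝ => UU ((z : ℂ) + t * Complex.I) := by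
    funext z
    rw [UU_uu]
    simp
  rw [this]
  exact continuous_UU.comp (by fun_prop)

theorem convex (t : ℝ) : ConvexOn ℝ (Set.Icc 0 (1 / 2)) fun z => uu z t := by
  apply MonotoneOn.convexOn_of_deriv (convex_Icc _ _) (continuous_uu t).continuousOn
  · rw [interior_Icc]
    intro z hz
    exact (hasDeriv hz.1 (by linarith only [hz, hz.2])).differentiableAt.differentiableWithinAt
  · rw [interior_Icc]
    intro a ha b hb hab
    rw [(hasDeriv ha.1 (by linarith only [ha, ha.2])).deriv, (hasDeriv hb.1 (by linarith only [hb, hb.2])).deriv]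
    exact lnA_mono ha.1 hab hb.2.le le_rfl

/-- the tangent at `d` is below -/
theorem tangent {d p t : ℝ} (h0 : 0 < d) (h1 : d ≤ 1 / 2) (p0 : 0 ≤ p) (p1 : p ≤ 1 / 2) :
    uu d t + (p - d) * NumIs.lnA d t ≤ uu p t := by
  rcases lt_trichotomy p d with h | h | h
  · have := (convex t).slope_le_of_hasDerivAt ⟨p0, p1⟩ ⟨h0.le, h1⟩ h
      (hasDeriv (t := t) h0 (by linarith only [h0, h1]))
    rw [slope_def_field, div_le_iff₀ (by linarith only [h])] at this
    linarith only [this]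
  · rw [h]
    linarith only []
  · have := (convex t).le_slope_of_hasDerivAt ⟨h0.le, h1⟩ ⟨p0, p1⟩ h
      (hasDeriv (t := t) h0 (by linarith only [h0, p1, h]))
    rw [slope_def_field, le_div_iff₀ (by linarith only [h])] at this
    linarith only [this]

/-- the chord over `[0, d]` is above -/
theorem chord {d p t : ℝ} (h0 : 0 < d) (h1 : d ≤ 1 / 2) (p0 : 0 ≤ p) (p1 : p ≤ d) :
    uu p t ≤ p / d * uu d t - (1 - p / d) * (Real.pi / 2 * |t|) := by
  have hq : 0 ≤ p / d := by positivity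
  have hq1 : p / d ≤ 1 := (div_le_one h0).2 p1
  have h := (convex t).2 (show (0 : ℝ) ∈ Set.Icc (0 : ℝ) (1 / 2) from ⟨le_rfl, by norm_num⟩)
    (show d ∈ Set.Icc (0 : ℝ) (1 / 2) from ⟨h0.le, h1⟩) (show 0 ≤ 1 - p / d by linarith only [hq1]) hq
    (by ring)
  simp only [smul_eq_mul, mul_zero, zero_add] at h
  rw [div_mul_cancel₀ _ h0.ne', UA.uu_zero] at h
  linarith only [h]

/-- Lipschitz in the imaginary part -/
theorem lip {x a b : ℝ} (h0 : 0 ≤ x) (h1 : x ≤ 1) : uu x a - uu x b ≤ Real.pi / 2 * |(|a| - |b|)| := by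
  have hp := Real.pi_pos
  rcases le_total |a| |b| with h | h
  · have h2 := Lr_le_left (abs_nonneg a) h h0
    rw [uu_Lr, uu_Lr, abs_of_nonpos (show |a| - |b| ≤ 0 by linarith only [h])]
    linarith only [h2]
  · have e1 := uu_one_sub x a
    have e2 := uu_one_sub x b
    have h2 := Lr_le_left (abs_nonneg b) h (show 0 ≤ 1 - x by linarith only [h1])
    rw [uu_Lr] at e1 e2
    rw [abs_of_nonneg (show 0 ≤ |a| - |b| by linarith only [h])]
    linarith only [e1, e2, h2]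

/-- for `x` between `0` and `d`, `T = uu (x + s) h1 + uu (1 + x - s) h2` -/
theorem corner {x s a b z0 h0 : ℝ} (x0 : 0 ≤ x) (s0 : 0 ≤ s) (hz : x + s ≤ z0) (hz1 : z0 ≤ 1 / 2)
    (ha : |a| ≤ h0) (hb : |b| ≤ h0) :
    uu (x + s) a + uu (1 + x - s) b ≤ Real.pi / 2 * |(|a| - |b|)| + 2 * x * NumIs.lnA z0 h0 := by
  have hh : 0 ≤ h0 := (abs_nonneg a).trans ha
  have ha' : |a| ≤ |h0| := by rwa [abs_of_nonneg hh]
  have hb' : |b| ≤ |h0| := by rwa [abs_of_nonneg hh]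
  rcases x0.eq_or_lt with hx | hx
  · subst hx
    have e : uu (1 + 0 - s) b = -uu s b := by
      rw [show 1 + 0 - s = 1 - s by ring]
      exact uu_one_sub s b
    rw [e, zero_add]
    have := lip (a := a) (b := b) s0 (by linarith only [hz1, hz])
    linarith only [this]
  have hxs : 0 < x + s := by linarith only [s0, hx]
  have m1 := lnA_mono (t := a) hxs hz hz1 ha'
  rcases le_or_gt x s with h | h
  · have e : uu (1 + x - s) b = -uu (s - x) b := by
      rw [show 1 + x - s = 1 - (s - x) by ring]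
      exact uu_one_sub _ b
    rw [e]
    have t1 := tangent (d := x + s) (p := s - x) (t := a) hxs (by linarith only [hz, hz1]) (by linarith only [h])
      (by linarith only [hz, hz1, hx])
    have l1 := lip (x := s - x) (a := a) (b := b) (by linarith only [h]) (by linarith only [hz, hz1, hx, h])
    have : 2 * x * NumIs.lnA (x + s) a ≤ 2 * x * NumIs.lnA z0 h0 := by
      apply mul_le_mul_of_nonneg_left m1
      linarith only [hx]
    have e2 : (s - x - (x + s)) * NumIs.lnA (x + s) a = -(2 * x * NumIs.lnA (x + s) a) := by ring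
    linarith only [t1, l1, this]
  · have e : uu (1 + x - s) b = uu (x - s) b + Real.pi * |b| := by
      rw [show 1 + x - s = (x - s) + 1 by ring]
      exact uu_add_one _ b
    rw [e]
    have t1 := tangent (d := x + s) (p := 0) (t := a) hxs (by linarith only [hz, hz1]) le_rfl (by norm_num)
    have t2 := tangent (d := x - s) (p := 0) (t := b) (by linarith only [h]) (by linarith only [s0, hz, hz1]) le_rfl
      (by norm_num)
    rw [UA.uu_zero] at t1 t2
    have m2 := lnA_mono (x := x - s) (x' := z0) (t := b) (t' := h0) (by linarith only [h]) (by linarith only [s0, hz])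
      hz1 hb'
    have q1 : (x + s) * NumIs.lnA (x + s) a ≤ (x + s) * NumIs.lnA z0 h0 :=
      mul_le_mul_of_nonneg_left m1 hxs.le
    have q2 : (x - s) * NumIs.lnA (x - s) b ≤ (x - s) * NumIs.lnA z0 h0 :=
      mul_le_mul_of_nonneg_left m2 (by linarith only [h])
    have q3 : Real.pi / 2 * (|b| - |a|) ≤ Real.pi / 2 * |(|a| - |b|)| := by
      apply mul_le_mul_of_nonneg_left _ (by positivity)
      rw [abs_sub_comm]
      exact le_abs_self _
    have e3 : 2 * x * NumIs.lnA z0 h0 = (x + s) * NumIs.lnA z0 h0 + (x - s) * NumIs.lnA z0 h0 := by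
      ring
    linarith only [t1, t2, q1, q2, q3]

end UC

end Pool.Agent.Work.MP_b30479_gtS.G2

end

section

/-!
# The loss at a hinge when the ring variable moves: bounds of the terms
-/

namespace Pool.Agent.Work.MP_b30479_gtS.G2

open VOL NumUs

namespace ZD

private theorem th_ge {σ : ℝ} (h : 1 / 4 ≤ |σ|) : LT.th σ = 2 - 4 * |σ| := by
  unfold LT.th
  exact min_eq_right (by linarith only [h])

/-- the difference, `σ = -1/2 + s` -/
theorem loss_p {x y s ρ : ℝ} (h0 : 0 ≤ s) (h1 : s ≤ 1 / 5) :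
    fR ⟨x, y⟩ ⟨-(1 / 2) + s, ρ * LT.th (-(1 / 2) + s)⟩ - fR ⟨x, y⟩ ⟨-(11 / 40), 9 / 10 * ρ⟩ =
      uu (x + s) (y + 4 * (ρ * s)) + uu (1 + x - s) (y - 4 * (ρ * s)) +
        (-uu (x + 225 / 1000) (y + 9 / 10 * ρ) + -uu (x + 775 / 1000) (y - 9 / 10 * ρ)) := by
  have e : |(-(1 / 2) + s)| = 1 / 2 - s := by
    rw [abs_of_nonpos (by linarith only [h1])]
    ring
  rw [th_ge (by rw [e]; linarith only [h1]), e]
  have e1 : (⟨x, y⟩ : ℂ) + 1 / 2 + ⟨-(1 / 2) + s, ρ * (2 - 4 * (1 / 2 - s))⟩ =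
      ⟨x + s, y + 4 * (ρ * s)⟩ := by
    apply Complex.ext <;> simp <;> ring
  have e2 : (⟨x, y⟩ : ℂ) + 1 / 2 - ⟨-(1 / 2) + s, ρ * (2 - 4 * (1 / 2 - s))⟩ =
      ⟨1 + x - s, y - 4 * (ρ * s)⟩ := by
    apply Complex.ext <;> simp <;> ring
  have e3 : (⟨x, y⟩ : ℂ) + 1 / 2 + ⟨-(11 / 40), 9 / 10 * ρ⟩ =
      ⟨x + 225 / 1000, y + 9 / 10 * ρ⟩ := by
    apply Complex.ext <;> simp <;> ring
  have e4 : (⟨x, y⟩ : ℂ) + 1 / 2 - ⟨-(11 / 40), 9 / 10 * ρ⟩ =
      ⟨x + 775 / 1000, y - 9 / 10 * ρ⟩ := by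
    apply Complex.ext <;> simp <;> ring
  unfold fR
  rw [e1, e2, e3, e4]
  unfold uu
  ring

/-- the difference, `σ = 1/2 - s` -/
theorem loss_m {x y s ρ : ℝ} (h0 : 0 ≤ s) (h1 : s ≤ 1 / 5) :
    fR ⟨x, y⟩ ⟨1 / 2 - s, ρ * LT.th (1 / 2 - s)⟩ - fR ⟨x, y⟩ ⟨-(11 / 40), 9 / 10 * ρ⟩ =
      uu (x + s) (y - 4 * (ρ * s)) + uu (1 + x - s) (y + 4 * (ρ * s)) +
        (-uu (x + 225 / 1000) (y + 9 / 10 * ρ) + -uu (x + 775 / 1000) (y - 9 / 10 * ρ)) := by
  have e : |(1 / 2 - s)| = 1 / 2 - s := abs_of_nonneg (by linarith only [h1])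
  rw [th_ge (by rw [e]; linarith only [h1]), e]
  have e1 : (⟨x, y⟩ : ℂ) + 1 / 2 + ⟨1 / 2 - s, ρ * (2 - 4 * (1 / 2 - s))⟩ =
      ⟨1 + x - s, y + 4 * (ρ * s)⟩ := by
    apply Complex.ext <;> simp <;> ring
  have e2 : (⟨x, y⟩ : ℂ) + 1 / 2 - ⟨1 / 2 - s, ρ * (2 - 4 * (1 / 2 - s))⟩ =
      ⟨x + s, y - 4 * (ρ * s)⟩ := by
    apply Complex.ext <;> simp <;> ring
  have e3 : (⟨x, y⟩ : ℂ) + 1 / 2 + ⟨-(11 / 40), 9 / 10 * ρ⟩ =
      ⟨x + 225 / 1000, y + 9 / 10 * ρ⟩ := by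
    apply Complex.ext <;> simp <;> ring
  have e4 : (⟨x, y⟩ : ℂ) + 1 / 2 - ⟨-(11 / 40), 9 / 10 * ρ⟩ =
      ⟨x + 775 / 1000, y - 9 / 10 * ρ⟩ := by
    apply Complex.ext <;> simp <;> ring
  unfold fR
  rw [e1, e2, e3, e4]
  unfold uu
  ring

theorem q4_p {s ρ : ℝ} (h0 : 0 ≤ s) (h1 : s ≤ 1 / 5) :
    q4 (-(1 / 2) + s) ρ = 2 * Real.pi * ρ * (9 / 100 + 4 * s * (4 * s - 1)) ∧
      bR (-(1 / 2) + s) (ρ * LT.th (-(1 / 2) + s)) = 0 := by
  have e : |(-(1 / 2) + s)| = 1 / 2 - s := by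
    rw [abs_of_nonpos (by linarith only [h1])]
    ring
  unfold q4 bR
  rw [th_ge (by rw [e]; linarith only [h1]), e, max_eq_right (by linarith only [h1])]
  constructor <;> ring

theorem q4_m {s ρ : ℝ} (h0 : 0 ≤ s) (h1 : s ≤ 1 / 5) :
    q4 (1 / 2 - s) ρ - bR (1 / 2 - s) (ρ * LT.th (1 / 2 - s)) =
      2 * Real.pi * ρ * (9 / 100 + 4 * s * (5 / 2 - 3 * s)) := by
  have e : |(1 / 2 - s)| = 1 / 2 - s := abs_of_nonneg (by linarith only [h1])
  unfold q4 bR
  rw [th_ge (by rw [e]; linarith only [h1]), e, max_eq_left (by linarith only [h1])]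
  ring

/-! ### the term `uu (1 + x - s) b` -/

theorem d2 {x s b δ : ℝ} (h0 : 0 < δ) (h1 : δ ≤ 1 / 2) (h2 : -δ ≤ x - s) (h3 : x - s ≤ 0) :
    uu (1 + x - s) b ≤ (δ + (x - s)) * NumIs.lnA δ b - uu δ b := by
  have e : uu (1 + x - s) b = -uu (s - x) b := by
    rw [show 1 + x - s = 1 - (s - x) by ring]
    exact uu_one_sub _ b
  have := UC.tangent (d := δ) (p := s - x) (t := b) h0 h1 (by linarith only [h3]) (by linarith only [h1, h2])
  rw [e]
  linarith only [this]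

theorem d4 {x s b : ℝ} : uu (1 + x - s) b = uu (x - s) b + Real.pi * |b| := by
  rw [show 1 + x - s = (x - s) + 1 by ring]
  exact uu_add_one _ b

theorem d4p {x s b : ℝ} (hb : 0 ≤ b) : uu (1 + x - s) b = uu (x - s) b + Real.pi * b := by
  rw [d4, abs_of_nonneg hb]

theorem d4n {x s b : ℝ} (hb : b ≤ 0) : uu (1 + x - s) b = uu (x - s) b + Real.pi * -b := by
  rw [d4, abs_of_nonpos hb]

theorem d3 {x s b δ K : ℝ} (h0 : 0 < δ) (h1 : δ ≤ 1 / 2) (hK : K * δ = 1) (h2 : 0 ≤ x - s)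
    (h3 : x - s ≤ δ) : uu (1 + x - s) b ≤
      Real.pi * (1 / 2) * |b| * (1 + K * (x - s)) + K * (x - s) * uu δ b := by
  have e : (x - s) / δ = K * (x - s) := by
    rw [div_eq_iff h0.ne']
    linear_combination -(x - s) * hK
  have h := UC.chord (t := b) h0 h1 h2 h3
  rw [e] at h
  rw [d4]
  linarith only [h]

theorem d3p {x s b δ K : ℝ} (hb : 0 ≤ b) (h0 : 0 < δ) (h1 : δ ≤ 1 / 2) (hK : K * δ = 1)
    (h2 : 0 ≤ x - s) (h3 : x - s ≤ δ) : uu (1 + x - s) b ≤
      Real.pi * (1 / 2) * b * (1 + K * (x - s)) + K * (x - s) * uu δ b := by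
  have := d3 (b := b) h0 h1 hK h2 h3
  rwa [abs_of_nonneg hb] at this

theorem d3n {x s b δ K : ℝ} (hb : b ≤ 0) (h0 : 0 < δ) (h1 : δ ≤ 1 / 2) (hK : K * δ = 1)
    (h2 : 0 ≤ x - s) (h3 : x - s ≤ δ) : uu (1 + x - s) b ≤
      Real.pi * (1 / 2) * -b * (1 + K * (x - s)) + K * (x - s) * uu δ b := by
  have := d3 (b := b) h0 h1 hK h2 h3
  rwa [abs_of_nonpos hb] at this

/-! ### the term `-uu (x + 775/1000) c` -/

theorem x4 {x c c' : ℝ} (hc : c' ≤ |c|) :
    -uu (x + 775 / 1000) c ≤ -(uu (x - 225 / 1000) c + Real.pi * c') := by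
  have hp := Real.pi_pos
  rw [show x + 775 / 1000 = (x - 225 / 1000) + 1 by ring, uu_add_one]
  have := mul_le_mul_of_nonneg_left hc hp.le
  linarith only [this]

theorem x3 {x c c' δ : ℝ} (hc : c' ≤ |c|) (h0 : 0 < δ) (h1 : δ ≤ 1 / 2)
    (h2 : 0 ≤ x - 225 / 1000) (h3 : x - 225 / 1000 ≤ δ) :
    -uu (x + 775 / 1000) c ≤
      (δ - (x - 225 / 1000)) * NumIs.lnA δ c - uu δ c - Real.pi * c' := by
  have h := x4 (x := x) hc
  have := UC.tangent (d := δ) (p := x - 225 / 1000) (t := c) h0 h1 h2 (by linarith only [h1, h3])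
  linarith only [h, this]

theorem x2 {x c c' δ K : ℝ} (hc : c' ≤ |c|) (h0 : 0 < δ) (h1 : δ ≤ 1 / 2) (hK : K * δ = 1)
    (h2 : 0 ≤ 225 / 1000 - x) (h3 : 225 / 1000 - x ≤ δ) :
    -uu (x + 775 / 1000) c ≤ K * (225 / 1000 - x) * uu δ c -
      Real.pi * (1 / 2) * c' * (1 - K * (225 / 1000 - x)) := by
  have hp := Real.pi_pos
  have e0 : uu (x + 775 / 1000) c = -uu (225 / 1000 - x) c := by
    rw [show x + 775 / 1000 = 1 - (225 / 1000 - x) by ring]
    exact uu_one_sub _ c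
  have e : (225 / 1000 - x) / δ = K * (225 / 1000 - x) := by
    rw [div_eq_iff h0.ne']
    linear_combination -(225 / 1000 - x) * hK
  have h := UC.chord (t := c) h0 h1 h2 h3
  rw [e] at h
  have hk : K * (225 / 1000 - x) ≤ 1 := by
    rw [← e]
    exact (div_le_one h0).2 h3
  have h4 : (1 - K * (225 / 1000 - x)) * (Real.pi / 2 * c') ≤
      (1 - K * (225 / 1000 - x)) * (Real.pi / 2 * |c|) := by
    apply mul_le_mul_of_nonneg_left _ (by linarith only [hk])
    exact mul_le_mul_of_nonneg_left hc (by positivity)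
  rw [e0]
  linarith only [h, h4]

/-! ### the corner -/

theorem abs_diff_le {y η m : ℝ} (h : |y| ≤ m ∨ |η| ≤ m) :
    |(|y + η| - |y - η|)| ≤ 2 * m := by
  rcases abs_cases (y + η) with ⟨e1, _⟩ | ⟨e1, _⟩ <;> rcases abs_cases (y - η) with ⟨e2, _⟩ | ⟨e2, _⟩ <;>
    rw [e1, e2, abs_le] <;> rcases h with h | h <;> rw [abs_le] at h <;> constructor <;> linarith

end ZD

end Pool.Agent.Work.MP_b30479_gtS.G2

end
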