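import Pool.Agent.Work.MP_b30479_gt.TBS.NumU.Node
import Pool.Agent.Work.MP_b30479_gt.TBS.NumU.Tree
import Pool.Agent.Work.MP_b30479_gt.TBS.G2.ZConv
import Pool.Agent.Work.MP_b30479_gt.TBS.G2.SIm

section

/-!
# Part of `ZRe1B`
-/
set_option linter.unusedSimpArgs false
set_option linter.unusedVariables false

set_option deprecated.oldSectionVars true

namespace Pool.Agent.Work.MP_b30479_gtS.G2

open VOL NumUs

namespace ZD

open NumUs.E ZE

theorem e1_Cna {x y s r : ℝ} (ua1 : 0 / 10000 ≤ x) (ua2 : x ≤ 50 / 10000) (ua3 : -(80 / 10000) ≤ y) (ua4 : y ≤ 0 / 10000) (ua5 : 70 / 10000 ≤ s) (ua6 : s ≤ 200 / 10000) (ua7 : 0 / 10000 ≤ r) (ua8 : r ≤ 1045 / 10000) (ua9 : -y ≤ 158 / 100 * x) :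
    Real.pi * -y + 2 * x * NumIs.lnA (x + s) (4 * (r * s) - y) + (-NumUs.uu (x + 225 / 1000) (y + 9 / 10 * r) + -NumUs.uu (x + 775 / 1000) (y - 9 / 10 * r)) < (958 / 10000 - 85 / 100 * r) ∨ Real.pi * (4 * (r * s)) + 2 * x * NumIs.lnA (x + s) (4 * (r * s) - y) + (-NumUs.uu (x + 225 / 1000) (y + 9 / 10 * r) + -NumUs.uu (x + 775 / 1000) (y - 9 / 10 * r)) < (958 / 10000 - 85 / 100 * r) := by
  have h : chkT [sub (sub (q 958 10000) (mul (q 85 100) ZE.r)) (add (add (mul pi (neg ZE.y)) (mul (mul (q 2 1) ZE.x) (E.lnA (add ZE.x ZE.s) (sub ZE.h ZE.y)))) (add (neg (E.uu (add ZE.x (q 225 1000)) (add ZE.y (mul (q 9 10) ZE.r)))) (neg (E.uu (add ZE.x (q 775 1000)) (sub ZE.y (mul (q 9 10) ZE.r)))))), sub (sub (q 958 10000) (mul (q 85 100) ZE.r)) (add (add (mul pi ZE.h) (mul (mul (q 2 1) ZE.x) (E.lnA (add ZE.x ZE.s) (sub ZE.h ZE.y)))) (add (neg (E.uu (add ZE.x (q 225 1000)) (add ZE.y (mul (q 9 10) ZE.r)))) (neg (E.uu (add ZE.x (q 775 1000)) (sub ZE.y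 (mul (q 9 10) ZE.r)))))), sub (neg ZE.y) (mul (q 158 100) ZE.x)] 60
    190308019974685283653088513801304867904488083
    [NumIs.V.of 10000 0 50, NumIs.V.of 10000 (-80) 0, NumIs.V.of 10000 70 200, NumIs.V.of 10000 0 1045] = true := by
    decide +kernel
  obtain ⟨f, hf, hp⟩ := chkT4 h (by norm_num) (x := x) (y := y) (z := s) (w := r)
    (by norm_num; linarith only [ua1]) (by norm_num; linarith only [ua2]) (by norm_num; linarith only [ua2, ua9]) (by norm_num; linarith only [ua4]) (by norm_num; linarith only [ua5]) (by norm_num; linarith only [ua6]) (by norm_num; linarith only [ua7]) (by norm_num; linarith only [ua8])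
  by_contra hc
  push Not at hc
  obtain ⟨hc0, hc1⟩ := hc
  simp only [List.mem_cons, List.not_mem_nil, or_false] at hf
  rcases hf with rfl | rfl | rfl
  · simp only [ZE.x, ZE.y, ZE.s, ZE.r, ZE.h, E.val, NumIs.lkR] at hp
    push_cast at hp
    linarith only [hc0, hp]
  · simp only [ZE.x, ZE.y, ZE.s, ZE.r, ZE.h, E.val, NumIs.lkR] at hp
    push_cast at hp
    linarith only [hc1, hp]
  · simp only [ZE.x, ZE.y, ZE.s, ZE.r, ZE.h, E.val, NumIs.lkR] at hp
    push_cast at hp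
    linarith only [ua9, hp]

theorem e1_Cpa {x y s r : ℝ} (ua1 : 0 / 10000 ≤ x) (ua2 : x ≤ 50 / 10000) (ua3 : 0 / 10000 ≤ y) (ua4 : y ≤ 10 / 10000) (ua5 : 70 / 10000 ≤ s) (ua6 : s ≤ 200 / 10000) (ua7 : 0 / 10000 ≤ r) (ua8 : r ≤ 1045 / 10000) :
    Real.pi * y + 2 * x * NumIs.lnA (x + s) (y + 4 * (r * s)) + (-NumUs.uu (x + 225 / 1000) (y + 9 / 10 * r) + -NumUs.uu (x + 775 / 1000) (y - 9 / 10 * r)) < (958 / 10000 - 85 / 100 * r) := by
  have h : chkT [sub (sub (q 958 10000) (mul (q 85 100) ZE.r)) (add (add (mul pi ZE.y) (mul (mul (q 2 1) ZE.x) (E.lnA (add ZE.x ZE.s) (add ZE.y ZE.h)))) (add (neg (E.uu (add ZE.x (q 225 1000)) (add ZE.y (mul (q 9 10) ZE.r)))) (neg (E.uu (add ZE.x (q 775 1000)) (sub ZE.y (mul (q 9 10) ZE.r))))))] 60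
    613483750636922928
    [NumIs.V.of 10000 0 50, NumIs.V.of 10000 0 10, NumIs.V.of 10000 70 200, NumIs.V.of 10000 0 1045] = true := by
    decide +kernel
  obtain ⟨f, hf, hp⟩ := chkT4 h (by norm_num) (x := x) (y := y) (z := s) (w := r)
    (by norm_num; linarith only [ua1]) (by norm_num; linarith only [ua2]) (by norm_num; linarith only [ua3]) (by norm_num; linarith only [ua4]) (by norm_num; linarith only [ua5]) (by norm_num; linarith only [ua6]) (by norm_num; linarith only [ua7]) (by norm_num; linarith only [ua8])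
  by_contra hc
  push Not at hc
  simp only [List.mem_cons, List.not_mem_nil, or_false] at hf
  rcases hf with rfl
  · simp only [ZE.x, ZE.y, ZE.s, ZE.r, ZE.h, E.val, NumIs.lkR] at hp
    push_cast at hp
    linarith only [hc, hp]

theorem e1_Cpb {x y s r : ℝ} (ua1 : 50 / 10000 ≤ x) (ua2 : x ≤ 1500 / 10000) (ua3 : 0 / 10000 ≤ y) (ua4 : y ≤ 10 / 10000) (ua5 : 0 / 10000 ≤ s) (ua6 : s ≤ 200 / 10000) (ua7 : 0 / 10000 ≤ r) (ua8 : r ≤ 1045 / 10000) :
    Real.pi * y + 2 * x * NumIs.lnA (x + s) (y + 4 * (r * s)) + (-NumUs.uu (x + 225 / 1000) (y + 9 / 10 * r) + -NumUs.uu (x + 775 / 1000) (y - 9 / 10 * r)) < (958 / 10000 - 85 / 100 * r) := by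
  have h : chkT [sub (sub (q 958 10000) (mul (q 85 100) ZE.r)) (add (add (mul pi ZE.y) (mul (mul (q 2 1) ZE.x) (E.lnA (add ZE.x ZE.s) (add ZE.y ZE.h)))) (add (neg (E.uu (add ZE.x (q 225 1000)) (add ZE.y (mul (q 9 10) ZE.r)))) (neg (E.uu (add ZE.x (q 775 1000)) (sub ZE.y (mul (q 9 10) ZE.r))))))] 60
    40149953262344736997376
    [NumIs.V.of 10000 50 1500, NumIs.V.of 10000 0 10, NumIs.V.of 10000 0 200, NumIs.V.of 10000 0 1045] = true := by
    decide +kernel
  obtain ⟨f, hf, hp⟩ := chkT4 h (by norm_num) (x := x) (y := y) (z := s) (w := r)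
    (by norm_num; linarith only [ua1]) (by norm_num; linarith only [ua2]) (by norm_num; linarith only [ua3]) (by norm_num; linarith only [ua4]) (by norm_num; linarith only [ua5]) (by norm_num; linarith only [ua6]) (by norm_num; linarith only [ua7]) (by norm_num; linarith only [ua8])
  by_contra hc
  push Not at hc
  simp only [List.mem_cons, List.not_mem_nil, or_false] at hf
  rcases hf with rfl
  · simp only [ZE.x, ZE.y, ZE.s, ZE.r, ZE.h, E.val, NumIs.lkR] at hp
    push_cast at hp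
    linarith only [hc, hp]

theorem e1_mD4X1pA {x y s r : ℝ} (ua1 : 1500 / 10000 ≤ x) (ua2 : x ≤ 1850 / 10000) (ua3 : -(1580 / 10000) ≤ y) (ua4 : y ≤ 10 / 10000) (ua5 : 0 / 10000 ≤ s) (ua6 : s ≤ 200 / 10000) (ua7 : 0 / 10000 ≤ r) (ua8 : r ≤ 1045 / 10000) (ua9 : 0 ≤ (y + 4 * (r * s))) :
    NumUs.uu (x + s) (y - 4 * (r * s)) + (NumUs.uu (x - s) (y + 4 * (r * s)) + Real.pi * (y + 4 * (r * s))) + (-NumUs.uu (x + 225 / 1000) (y + 9 / 10 * r) + -NumUs.uu (x + 775 / 1000) (y - 9 / 10 * r)) < (958 / 10000 - 85 / 100 * r) := by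
  have h : chkT [sub (sub (q 958 10000) (mul (q 85 100) ZE.r)) (add (add (E.uu (add ZE.x ZE.s) (sub ZE.y ZE.h)) (add (E.uu (sub ZE.x ZE.s) (add ZE.y ZE.h)) (mul pi (add ZE.y ZE.h)))) (add (neg (E.uu (add ZE.x (q 225 1000)) (add ZE.y (mul (q 9 10) ZE.r)))) (neg (E.uu (add ZE.x (q 775 1000)) (sub ZE.y (mul (q 9 10) ZE.r)))))), neg (add ZE.y ZE.h)] 60
    2177
    [NumIs.V.of 10000 1500 1850, NumIs.V.of 10000 (-1580) 10, NumIs.V.of 10000 0 200, NumIs.V.of 10000 0 1045] = true := by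
    decide +kernel
  obtain ⟨f, hf, hp⟩ := chkT4 h (by norm_num) (x := x) (y := y) (z := s) (w := r)
    (by norm_num; linarith only [ua1]) (by norm_num; linarith only [ua2]) (by norm_num; linarith only [ua3]) (by norm_num; linarith only [ua4]) (by norm_num; linarith only [ua5]) (by norm_num; linarith only [ua6]) (by norm_num; linarith only [ua7]) (by norm_num; linarith only [ua8])
  by_contra hc
  push Not at hc
  simp only [List.mem_cons, List.not_mem_nil, or_false] at hf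
  rcases hf with rfl | rfl
  · simp only [ZE.x, ZE.y, ZE.s, ZE.r, ZE.h, E.val, NumIs.lkR] at hp
    push_cast at hp
    linarith only [hc, hp]
  · simp only [ZE.x, ZE.y, ZE.s, ZE.r, ZE.h, E.val, NumIs.lkR] at hp
    push_cast at hp
    linarith only [ua9, hp]

theorem e1_mD4X1nA {x y s r : ℝ} (ua1 : 1500 / 10000 ≤ x) (ua2 : x ≤ 1850 / 10000) (ua3 : -(1580 / 10000) ≤ y) (ua4 : y ≤ 0 / 10000) (ua5 : 0 / 10000 ≤ s) (ua6 : s ≤ 200 / 10000) (ua7 : 0 / 10000 ≤ r) (ua8 : r ≤ 1045 / 10000) (ua9 : (y + 4 * (r * s)) ≤ 0) :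
    NumUs.uu (x + s) (y - 4 * (r * s)) + (NumUs.uu (x - s) (y + 4 * (r * s)) + Real.pi * -(y + 4 * (r * s))) + (-NumUs.uu (x + 225 / 1000) (y + 9 / 10 * r) + -NumUs.uu (x + 775 / 1000) (y - 9 / 10 * r)) < (958 / 10000 - 85 / 100 * r) := by
  have h : chkT [sub (sub (q 958 10000) (mul (q 85 100) ZE.r)) (add (add (E.uu (add ZE.x ZE.s) (sub ZE.y ZE.h)) (add (E.uu (sub ZE.x ZE.s) (add ZE.y ZE.h)) (mul pi (neg (add ZE.y ZE.h))))) (add (neg (E.uu (add ZE.x (q 225 1000)) (add ZE.y (mul (q 9 10) ZE.r)))) (neg (E.uu (add ZE.x (q 775 1000)) (sub ZE.y (mul (q 9 10) ZE.r)))))), add (q 0 1) (add ZE.y ZE.h)] 60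
    2177
    [NumIs.V.of 10000 1500 1850, NumIs.V.of 10000 (-1580) 0, NumIs.V.of 10000 0 200, NumIs.V.of 10000 0 1045] = true := by
    decide +kernel
  obtain ⟨f, hf, hp⟩ := chkT4 h (by norm_num) (x := x) (y := y) (z := s) (w := r)
    (by norm_num; linarith only [ua1]) (by norm_num; linarith only [ua2]) (by norm_num; linarith only [ua3]) (by norm_num; linarith only [ua4]) (by norm_num; linarith only [ua5]) (by norm_num; linarith only [ua6]) (by norm_num; linarith only [ua7]) (by norm_num; linarith only [ua8])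
  by_contra hc
  push Not at hc
  simp only [List.mem_cons, List.not_mem_nil, or_false] at hf
  rcases hf with rfl | rfl
  · simp only [ZE.x, ZE.y, ZE.s, ZE.r, ZE.h, E.val, NumIs.lkR] at hp
    push_cast at hp
    linarith only [hc, hp]
  · simp only [ZE.x, ZE.y, ZE.s, ZE.r, ZE.h, E.val, NumIs.lkR] at hp
    push_cast at hp
    linarith only [ua9, hp]

theorem e1_mD2X1B {x y s r : ℝ} (ua1 : 0 / 10000 ≤ x) (ua2 : x ≤ 500 / 10000) (ua3 : -(791 / 10000) ≤ y) (ua4 : y ≤ 10 / 10000) (ua5 : 200 / 10000 ≤ s) (ua6 : s ≤ 500 / 10000) (ua7 : 0 / 10000 ≤ r) (ua8 : r ≤ 1045 / 10000) (ua9 : -(200 / 10000) ≤ x - s) (ua10 : x - s ≤ 0) (ua11 : -y ≤ 158 / 100 * x) :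
    NumUs.uu (x + s) (y - 4 * (r * s)) + (((200 / 10000) + (x - s)) * NumIs.lnA (200 / 10000) (y + 4 * (r * s)) - NumUs.uu (200 / 10000) (y + 4 * (r * s))) + (-NumUs.uu (x + 225 / 1000) (y + 9 / 10 * r) + -NumUs.uu (x + 775 / 1000) (y - 9 / 10 * r)) < (958 / 10000 - 85 / 100 * r) := by
  have h : chkT [sub (sub (q 958 10000) (mul (q 85 100) ZE.r)) (add (add (E.uu (add ZE.x ZE.s) (sub ZE.y ZE.h)) (sub (mul (add (q 200 10000) (sub ZE.x ZE.s)) (E.lnA (q 200 10000) (add ZE.y ZE.h))) (E.uu (q 200 10000) (add ZE.y ZE.h)))) (add (neg (E.uu (add ZE.x (q 225 1000)) (add ZE.y (mul (q 9 10) ZE.r)))) (neg (E.uu (add ZE.x (q 775 1000)) (sub ZE.y (mul (q 9 10) ZE.r)))))), sub (q (-200) 10000) (sub ZE.x ZE.s), sub ZE.x ZE.s, sub (neg ZE.y) (mul (q 158 100) ZE.x)] 60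
    814711484988582663917446234986521641925449833269897233
    [NumIs.V.of 10000 0 500, NumIs.V.of 10000 (-791) 10, NumIs.V.of 10000 200 500, NumIs.V.of 10000 0 1045] = true := by
    decide +kernel
  obtain ⟨f, hf, hp⟩ := chkT4 h (by norm_num) (x := x) (y := y) (z := s) (w := r)
    (by norm_num; linarith only [ua1]) (by norm_num; linarith only [ua2]) (by norm_num; linarith only [ua2, ua11]) (by norm_num; linarith only [ua4]) (by norm_num; linarith only [ua5]) (by norm_num; linarith only [ua6]) (by norm_num; linarith only [ua7]) (by norm_num; linarith only [ua8])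
  by_contra hc
  push Not at hc
  simp only [List.mem_cons, List.not_mem_nil, or_false] at hf
  rcases hf with rfl | rfl | rfl | rfl
  · simp only [ZE.x, ZE.y, ZE.s, ZE.r, ZE.h, E.val, NumIs.lkR] at hp
    push_cast at hp
    linarith only [hc, hp]
  · simp only [ZE.x, ZE.y, ZE.s, ZE.r, ZE.h, E.val, NumIs.lkR] at hp
    push_cast at hp
    linarith only [ua9, hp]
  · simp only [ZE.x, ZE.y, ZE.s, ZE.r, ZE.h, E.val, NumIs.lkR] at hp
    push_cast at hp
    linarith only [ua10, hp]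
  · simp only [ZE.x, ZE.y, ZE.s, ZE.r, ZE.h, E.val, NumIs.lkR] at hp
    push_cast at hp
    linarith only [ua11, hp]

theorem e1_mD3X1pB {x y s r : ℝ} (ua1 : 200 / 10000 ≤ x) (ua2 : x ≤ 700 / 10000) (ua3 : -(1107 / 10000) ≤ y) (ua4 : y ≤ 10 / 10000) (ua5 : 200 / 10000 ≤ s) (ua6 : s ≤ 500 / 10000) (ua7 : 0 / 10000 ≤ r) (ua8 : r ≤ 1045 / 10000) (ua9 : 0 ≤ x - s) (ua10 : x - s ≤ 200 / 10000) (ua11 : 0 ≤ (y + 4 * (r * s))) (ua12 : -y ≤ 158 / 100 * x) :
    NumUs.uu (x + s) (y - 4 * (r * s)) + (Real.pi * (1 / 2) * (y + 4 * (r * s)) * (1 + (50 / 1) * (x - s)) + (50 / 1) * (x - s) * NumUs.uu (200 / 10000) (y + 4 * (r * s))) + (-NumUs.uu (x + 225 / 1000) (y + 9 / 10 * r) + -NumUs.uu (x + 775 / 1000) (y - 9 / 10 * r)) < (958 / 10000 - 85 / 100 * r) := by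
  have h : chkT [sub (sub (q 958 10000) (mul (q 85 100) ZE.r)) (add (add (E.uu (add ZE.x ZE.s) (sub ZE.y ZE.h)) (add (mul (mul (mul pi (q 1 2)) (add ZE.y ZE.h)) (add (q 1 1) (mul (q 50 1) (sub ZE.x ZE.s)))) (mul (mul (q 50 1) (sub ZE.x ZE.s)) (E.uu (q 200 10000) (add ZE.y ZE.h))))) (add (neg (E.uu (add ZE.x (q 225 1000)) (add ZE.y (mul (q 9 10) ZE.r)))) (neg (E.uu (add ZE.x (q 775 1000)) (sub ZE.y (mul (q 9 10) ZE.r)))))), sub ZE.s ZE.x, sub (sub ZE.x ZE.s) (q 200 10000), neg (add ZE.y ZE.h), sub (neg ZE.y) (mul (q 158 100) ZE.x)] 60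
    157049958350259794353
    [NumIs.V.of 10000 200 700, NumIs.V.of 10000 (-1107) 10, NumIs.V.of 10000 200 500, NumIs.V.of 10000 0 1045] = true := by
    decide +kernel
  obtain ⟨f, hf, hp⟩ := chkT4 h (by norm_num) (x := x) (y := y) (z := s) (w := r)
    (by norm_num; linarith only [ua1]) (by norm_num; linarith only [ua2]) (by norm_num; linarith only [ua2, ua12]) (by norm_num; linarith only [ua4]) (by norm_num; linarith only [ua5]) (by norm_num; linarith only [ua6]) (by norm_num; linarith only [ua7]) (by norm_num; linarith only [ua8])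
  by_contra hc
  push Not at hc
  simp only [List.mem_cons, List.not_mem_nil, or_false] at hf
  rcases hf with rfl | rfl | rfl | rfl | rfl
  · simp only [ZE.x, ZE.y, ZE.s, ZE.r, ZE.h, E.val, NumIs.lkR] at hp
    push_cast at hp
    linarith only [hc, hp]
  · simp only [ZE.x, ZE.y, ZE.s, ZE.r, ZE.h, E.val, NumIs.lkR] at hp
    push_cast at hp
    linarith only [ua9, hp]
  · simp only [ZE.x, ZE.y, ZE.s, ZE.r, ZE.h, E.val, NumIs.lkR] at hp
    push_cast at hp
    linarith only [ua10, hp]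
  · simp only [ZE.x, ZE.y, ZE.s, ZE.r, ZE.h, E.val, NumIs.lkR] at hp
    push_cast at hp
    linarith only [ua11, hp]
  · simp only [ZE.x, ZE.y, ZE.s, ZE.r, ZE.h, E.val, NumIs.lkR] at hp
    push_cast at hp
    linarith only [ua12, hp]

theorem e1_mD4X1pB {x y s r : ℝ} (ua1 : 400 / 10000 ≤ x) (ua2 : x ≤ 1850 / 10000) (ua3 : -(1580 / 10000) ≤ y) (ua4 : y ≤ 10 / 10000) (ua5 : 200 / 10000 ≤ s) (ua6 : s ≤ 500 / 10000) (ua7 : 0 / 10000 ≤ r) (ua8 : r ≤ 1045 / 10000) (ua9 : 200 / 10000 ≤ x - s) (ua10 : 0 ≤ (y + 4 * (r * s))) (ua11 : -y ≤ 158 / 100 * x) :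
    NumUs.uu (x + s) (y - 4 * (r * s)) + (NumUs.uu (x - s) (y + 4 * (r * s)) + Real.pi * (y + 4 * (r * s))) + (-NumUs.uu (x + 225 / 1000) (y + 9 / 10 * r) + -NumUs.uu (x + 775 / 1000) (y - 9 / 10 * r)) < (958 / 10000 - 85 / 100 * r) := by
  have h : chkT [sub (sub (q 958 10000) (mul (q 85 100) ZE.r)) (add (add (E.uu (add ZE.x ZE.s) (sub ZE.y ZE.h)) (add (E.uu (sub ZE.x ZE.s) (add ZE.y ZE.h)) (mul pi (add ZE.y ZE.h)))) (add (neg (E.uu (add ZE.x (q 225 1000)) (add ZE.y (mul (q 9 10) ZE.r)))) (neg (E.uu (add ZE.x (q 775 1000)) (sub ZE.y (mul (q 9 10) ZE.r)))))), sub (q 200 10000) (sub ZE.x ZE.s), neg (add ZE.y ZE.h), sub (neg ZE.y) (mul (q 158 100) ZE.x)] 60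
    2903741232290022825644732021229104439713
    [NumIs.V.of 10000 400 1850, NumIs.V.of 10000 (-1580) 10, NumIs.V.of 10000 200 500, NumIs.V.of 10000 0 1045] = true := by
    decide +kernel
  obtain ⟨f, hf, hp⟩ := chkT4 h (by norm_num) (x := x) (y := y) (z := s) (w := r)
    (by norm_num; linarith only [ua1]) (by norm_num; linarith only [ua2]) (by norm_num; linarith only [ua3]) (by norm_num; linarith only [ua4]) (by norm_num; linarith only [ua5]) (by norm_num; linarith only [ua6]) (by norm_num; linarith only [ua7]) (by norm_num; linarith only [ua8])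
  by_contra hc
  push Not at hc
  simp only [List.mem_cons, List.not_mem_nil, or_false] at hf
  rcases hf with rfl | rfl | rfl | rfl
  · simp only [ZE.x, ZE.y, ZE.s, ZE.r, ZE.h, E.val, NumIs.lkR] at hp
    push_cast at hp
    linarith only [hc, hp]
  · simp only [ZE.x, ZE.y, ZE.s, ZE.r, ZE.h, E.val, NumIs.lkR] at hp
    push_cast at hp
    linarith only [ua9, hp]
  · simp only [ZE.x, ZE.y, ZE.s, ZE.r, ZE.h, E.val, NumIs.lkR] at hp
    push_cast at hp
    linarith only [ua10, hp]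
  · simp only [ZE.x, ZE.y, ZE.s, ZE.r, ZE.h, E.val, NumIs.lkR] at hp
    push_cast at hp
    linarith only [ua11, hp]

theorem e1_mD3X1nB {x y s r : ℝ} (ua1 : 200 / 10000 ≤ x) (ua2 : x ≤ 700 / 10000) (ua3 : -(1107 / 10000) ≤ y) (ua4 : y ≤ 0 / 10000) (ua5 : 200 / 10000 ≤ s) (ua6 : s ≤ 500 / 10000) (ua7 : 0 / 10000 ≤ r) (ua8 : r ≤ 1045 / 10000) (ua9 : 0 ≤ x - s) (ua10 : x - s ≤ 200 / 10000) (ua11 : (y + 4 * (r * s)) ≤ 0) (ua12 : -y ≤ 158 / 100 * x) :
    NumUs.uu (x + s) (y - 4 * (r * s)) + (Real.pi * (1 / 2) * -(y + 4 * (r * s)) * (1 + (50 / 1) * (x - s)) + (50 / 1) * (x - s) * NumUs.uu (200 / 10000) (y + 4 * (r * s))) + (-NumUs.uu (x + 225 / 1000) (y + 9 / 10 * r) + -NumUs.uu (x + 775 / 1000) (y - 9 / 10 * r)) < (958 / 10000 - 85 / 100 * r) := by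
  have h : chkT [sub (sub (q 958 10000) (mul (q 85 100) ZE.r)) (add (add (E.uu (add ZE.x ZE.s) (sub ZE.y ZE.h)) (add (mul (mul (mul pi (q 1 2)) (neg (add ZE.y ZE.h))) (add (q 1 1) (mul (q 50 1) (sub ZE.x ZE.s)))) (mul (mul (q 50 1) (sub ZE.x ZE.s)) (E.uu (q 200 10000) (add ZE.y ZE.h))))) (add (neg (E.uu (add ZE.x (q 225 1000)) (add ZE.y (mul (q 9 10) ZE.r)))) (neg (E.uu (add ZE.x (q 775 1000)) (sub ZE.y (mul (q 9 10) ZE.r)))))), sub ZE.s ZE.x, sub (sub ZE.x ZE.s) (q 200 10000), add (q 0 1) (add ZE.y ZE.h), sub (neg ZE.y) (mul (q 158 100) ZE.x)] 60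
    2897095101391987718581212762571282825233
    [NumIs.V.of 10000 200 700, NumIs.V.of 10000 (-1107) 0, NumIs.V.of 10000 200 500, NumIs.V.of 10000 0 1045] = true := by
    decide +kernel
  obtain ⟨f, hf, hp⟩ := chkT4 h (by norm_num) (x := x) (y := y) (z := s) (w := r)
    (by norm_num; linarith only [ua1]) (by norm_num; linarith only [ua2]) (by norm_num; linarith only [ua2, ua12]) (by norm_num; linarith only [ua4]) (by norm_num; linarith only [ua5]) (by norm_num; linarith only [ua6]) (by norm_num; linarith only [ua7]) (by norm_num; linarith only [ua8])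
  by_contra hc
  push Not at hc
  simp only [List.mem_cons, List.not_mem_nil, or_false] at hf
  rcases hf with rfl | rfl | rfl | rfl | rfl
  · simp only [ZE.x, ZE.y, ZE.s, ZE.r, ZE.h, E.val, NumIs.lkR] at hp
    push_cast at hp
    linarith only [hc, hp]
  · simp only [ZE.x, ZE.y, ZE.s, ZE.r, ZE.h, E.val, NumIs.lkR] at hp
    push_cast at hp
    linarith only [ua9, hp]
  · simp only [ZE.x, ZE.y, ZE.s, ZE.r, ZE.h, E.val, NumIs.lkR] at hp
    push_cast at hp
    linarith only [ua10, hp]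
  · simp only [ZE.x, ZE.y, ZE.s, ZE.r, ZE.h, E.val, NumIs.lkR] at hp
    push_cast at hp
    linarith only [ua11, hp]
  · simp only [ZE.x, ZE.y, ZE.s, ZE.r, ZE.h, E.val, NumIs.lkR] at hp
    push_cast at hp
    linarith only [ua12, hp]

theorem e1_mD1X1C_h1_q1 : Pool.Agent.Work.NumUs.runT [sub (sub (q 958 10000) (mul (q 85 100) ZE.r)) (add (add (E.uu (add ZE.x ZE.s) (sub ZE.y ZE.h)) (E.uu (sub (add (q 1 1) ZE.x) ZE.s) (add ZE.y ZE.h))) (add (neg (E.uu (add ZE.x (q 225 1000)) (add ZE.y (mul (q 9 10) ZE.r)))) (neg (E.uu (add ZE.x (q 775 1000)) (sub ZE.y (mul (q 9 10) ZE.r)))))), sub (sub ZE.x ZE.s) (q (-400) 10000), sub (neg ZE.y) (mul (q 158 100) ZE.x)] 58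
    2087916980012656846831917627940932715973014507379646009765686015798820423498772560746229270045526084994954570429212135121589720479252956927382426451247414473398666106655004390043360672828763051302804322927823187015128770393247082396988268655071732097353843293681913435086376746643915565958376573928726794779475872303619273662774544386207387752032523761204424646905387960097725920917764568189720092190165411437161305338009303819560420595666217070952688485655143693465468178130769981717738286372552783554088601624536382194724949031603157645534835635566694082560200130606774017971038669157079496082424483859545903378642132246775680235677202287858266974217945306055691946584158046473084079740215875418625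
    (Pool.Agent.Work.NumIs.setL 2 (Pool.Agent.Work.NumIs.setL 0 ([NumIs.V.of 10000 0 1600, NumIs.V.of 10000 (-1580) 10, NumIs.V.of 10000 500 2000, NumIs.V.of 10000 0 1045]))) =
    84053649292684293918557430090032868602114707664776796425721411729240953902899738132324860225144653007907990177629326330320250359950511448840564781768527492327957447014023799840797328637590846605306250706663317884089395749035459846716128213782258519700157935566979533513669432946315356859537889921420610919255938218193360398702773757936025891857564067128558979874112256424726549210831094533216959036620426029552843994314941287233251915255404161995689287106256852721683 := by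
  decide +kernel

theorem e1_mD1X1C_h1_q2 : Pool.Agent.Work.NumUs.runT [sub (sub (q 958 10000) (mul (q 85 100) ZE.r)) (add (add (E.uu (add ZE.x ZE.s) (sub ZE.y ZE.h)) (E.uu (sub (add (q 1 1) ZE.x) ZE.s) (add ZE.y ZE.h))) (add (neg (E.uu (add ZE.x (q 225 1000)) (add ZE.y (mul (q 9 10) ZE.r)))) (neg (E.uu (add ZE.x (q 775 1000)) (sub ZE.y (mul (q 9 10) ZE.r)))))), sub (sub ZE.x ZE.s) (q (-400) 10000), sub (neg ZE.y) (mul (q 158 100) ZE.x)] 58
    84053649292684293918557430090032868602114707664776796425721411729240953902899738132324860225144653007907990177629326330320250359950511448840564781768527492327957447014023799840797328637590846605306250706663317884089395749035459846716128213782258519700157935566979533513669432946315356859537889921420610919255938218193360398702773757936025891857564067128558979874112256424726549210831094533216959036620426029552843994314941287233251915255404161995689287106256852721682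
    (Pool.Agent.Work.NumIs.setR 2 (Pool.Agent.Work.NumIs.setL 0 ([NumIs.V.of 10000 0 1600, NumIs.V.of 10000 (-1580) 10, NumIs.V.of 10000 500 2000, NumIs.V.of 10000 0 1045]))) =
    572635300951006763290842115832586294045990208823531666116283233921046280977276008620608081752442118022430660515785210487105777928343611878738990558118795828759613991033192454641985348440412435365616966007787585826877258018229763664223329126126486484766853476000794272105159067048936255633584163927306693762055168702356280107225951789067762009572306394121052194 := by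
  decide +kernel

theorem e1_mD1X1C_h1_q3 : Pool.Agent.Work.NumUs.runT [sub (sub (q 958 10000) (mul (q 85 100) ZE.r)) (add (add (E.uu (add ZE.x ZE.s) (sub ZE.y ZE.h)) (E.uu (sub (add (q 1 1) ZE.x) ZE.s) (add ZE.y ZE.h))) (add (neg (E.uu (add ZE.x (q 225 1000)) (add ZE.y (mul (q 9 10) ZE.r)))) (neg (E.uu (add ZE.x (q 775 1000)) (sub ZE.y (mul (q 9 10) ZE.r)))))), sub (sub ZE.x ZE.s) (q (-400) 10000), sub (neg ZE.y) (mul (q 158 100) ZE.x)] 58
    35789706309437922705677632239536643377874388051470729132267702120065392561079750538788005109527632376401916282236575655444111120521475742421186909882424739297475874439574528415124084277525777210351060375486724114179828626139360229013958070382905405297928342250049642006572441690558515977099010245456668360128448043897267506701621986816735125598269149632565762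
    (Pool.Agent.Work.NumIs.setL 1 (Pool.Agent.Work.NumIs.setR 0 ([NumIs.V.of 10000 0 1600, NumIs.V.of 10000 (-1580) 10, NumIs.V.of 10000 500 2000, NumIs.V.of 10000 0 1045]))) =
    3077514405286606200603762638014894243219696346327449279633834281409967385795303563870922359433937078359233194868012939612343112485039181094656825930975597594178030960543818176154545752634349097050001371929793448301597594115 := by
  decide +kernel

theorem e1_mD1X1C_h1_q4 : Pool.Agent.Work.NumUs.runT [sub (sub (q 958 10000) (mul (q 85 100) ZE.r)) (add (add (E.uu (add ZE.x ZE.s) (sub ZE.y ZE.h)) (E.uu (sub (add (q 1 1) ZE.x) ZE.s) (add ZE.y ZE.h))) (add (neg (E.uu (add ZE.x (q 225 1000)) (add ZE.y (mul (q 9 10) ZE.r)))) (neg (E.uu (add ZE.x (q 775 1000)) (sub ZE.y (mul (q 9 10) ZE.r)))))), sub (sub ZE.x ZE.s) (q (-400) 10000), sub (neg ZE.y) (mul (q 158 100) ZE.x)] 58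
    3077514405286606200603762638014894243219696346327449279633834281409967385795303563870922359433937078359233194868012939612343112485039181094656825930975597594178030960543818176154545752634349097050001371929793448301597594114
    (Pool.Agent.Work.NumIs.setR 1 (Pool.Agent.Work.NumIs.setR 0 ([NumIs.V.of 10000 0 1600, NumIs.V.of 10000 (-1580) 10, NumIs.V.of 10000 500 2000, NumIs.V.of 10000 0 1045]))) =
    1 := by
  decide +kernel

end ZD

end Pool.Agent.Work.MP_b30479_gtS.G2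

end

section

/-!
# Part of `ZRe1B`
-/
set_option linter.unusedSimpArgs false
set_option linter.unusedVariables false

set_option deprecated.oldSectionVars true

namespace Pool.Agent.Work.MP_b30479_gtS.G2

open VOL NumUs

namespace ZD

open NumUs.E ZE

theorem e1_Cnb {x y s r : ℝ} (ua1 : 50 / 10000 ≤ x) (ua2 : x ≤ 1500 / 10000) (ua3 : -(1580 / 10000) ≤ y) (ua4 : y ≤ 0 / 10000) (ua5 : 0 / 10000 ≤ s) (ua6 : s ≤ 200 / 10000) (ua7 : 0 / 10000 ≤ r) (ua8 : r ≤ 1045 / 10000) (ua9 : -y ≤ 158 / 100 * x) :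
    Real.pi * -y + 2 * x * NumIs.lnA (x + s) (4 * (r * s) - y) + (-NumUs.uu (x + 225 / 1000) (y + 9 / 10 * r) + -NumUs.uu (x + 775 / 1000) (y - 9 / 10 * r)) < (958 / 10000 - 85 / 100 * r) ∨ Real.pi * (4 * (r * s)) + 2 * x * NumIs.lnA (x + s) (4 * (r * s) - y) + (-NumUs.uu (x + 225 / 1000) (y + 9 / 10 * r) + -NumUs.uu (x + 775 / 1000) (y - 9 / 10 * r)) < (958 / 10000 - 85 / 100 * r) := by
  have h : chkT [sub (sub (q 958 10000) (mul (q 85 100) ZE.r)) (add (add (mul pi (neg ZE.y)) (mul (mul (q 2 1) ZE.x) (E.lnA (add ZE.x ZE.s) (sub ZE.h ZE.y)))) (add (neg (E.uu (add ZE.x (q 225 1000)) (add ZE.y (mul (q 9 10) ZE.r)))) (neg (E.uu (add ZE.x (q 775 1000)) (sub ZE.y (mul (q 9 10) ZE.r)))))), sub (sub (q 958 10000) (mul (q 85 100) ZE.r)) (add (add (mul pi ZE.h) (mul (mul (q 2 1) ZE.x) (E.lnA (add ZE.x ZE.s) (sub ZE.h ZE.y)))) (add (neg (E.uu (add ZE.x (q 225 1000)) (add ZE.y (mul (q 9 10) ZE.r)))) (neg (E.uu (add ZE.x (q 775 1000)) (sub ZE.y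 (mul (q 9 10) ZE.r)))))), sub (neg ZE.y) (mul (q 158 100) ZE.x)] 60
    1472751322136929982425320751787951231507490039125226337195517231511234641590675236344181983318348047645565727580416
    [NumIs.V.of 10000 50 1500, NumIs.V.of 10000 (-1580) 0, NumIs.V.of 10000 0 200, NumIs.V.of 10000 0 1045] = true := by
    decide +kernel
  obtain ⟨f, hf, hp⟩ := chkT4 h (by norm_num) (x := x) (y := y) (z := s) (w := r)
    (by norm_num; linarith only [ua1]) (by norm_num; linarith only [ua2]) (by norm_num; linarith only [ua3]) (by norm_num; linarith only [ua4]) (by norm_num; linarith only [ua5]) (by norm_num; linarith only [ua6]) (by norm_num; linarith only [ua7]) (by norm_num; linarith only [ua8])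
  by_contra hc
  push Not at hc
  obtain ⟨hc0, hc1⟩ := hc
  simp only [List.mem_cons, List.not_mem_nil, or_false] at hf
  rcases hf with rfl | rfl | rfl
  · simp only [ZE.x, ZE.y, ZE.s, ZE.r, ZE.h, E.val, NumIs.lkR] at hp
    push_cast at hp
    linarith only [hc0, hp]
  · simp only [ZE.x, ZE.y, ZE.s, ZE.r, ZE.h, E.val, NumIs.lkR] at hp
    push_cast at hp
    linarith only [hc1, hp]
  · simp only [ZE.x, ZE.y, ZE.s, ZE.r, ZE.h, E.val, NumIs.lkR] at hp
    push_cast at hp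
    linarith only [ua9, hp]

theorem e1_mD4X2pA {x y s r : ℝ} (ua1 : 1850 / 10000 ≤ x) (ua2 : x ≤ 2250 / 10000) (ua3 : -(1580 / 10000) ≤ y) (ua4 : y ≤ 10 / 10000) (ua5 : 0 / 10000 ≤ s) (ua6 : s ≤ 200 / 10000) (ua7 : 0 / 10000 ≤ r) (ua8 : r ≤ 1045 / 10000) (ua9 : 0 ≤ (y + 4 * (r * s))) :
    NumUs.uu (x + s) (y - 4 * (r * s)) + (NumUs.uu (x - s) (y + 4 * (r * s)) + Real.pi * (y + 4 * (r * s))) + (-NumUs.uu (x + 225 / 1000) (y + 9 / 10 * r) + ((25 / 1) * (225 / 1000 - x) * NumUs.uu (400 / 10000) (y - 9 / 10 * r) - Real.pi * (1 / 2) * (y - 9 / 10 * r) * (1 - (25 / 1) * (225 / 1000 - x)))) < (958 / 10000 - 85 / 100 * r) ∨ NumUs.uu (x + s) (y - 4 * (r * s)) + (NumUs.uu (x - s) (y + 4 * (r * s)) + Real.pi * (y + 4 * (r * s))) + (-NumUs.uu (x + 225 / 1000) (y + 9 / 10 * r) + ((25 / 1) * (225 / 1000 - x) * NumUs.uu (400 / 10000) (y - 9 / 10 * r) - Real.pi * (1 / 2) * -(y - 9 / 10 * r) * (1 - (25 / 1) * (225 / 1000 - x)))) < (958 / 10000 -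 85 / 100 * r) := by
  have h : chkT [sub (sub (q 958 10000) (mul (q 85 100) ZE.r)) (add (add (E.uu (add ZE.x ZE.s) (sub ZE.y ZE.h)) (add (E.uu (sub ZE.x ZE.s) (add ZE.y ZE.h)) (mul pi (add ZE.y ZE.h)))) (add (neg (E.uu (add ZE.x (q 225 1000)) (add ZE.y (mul (q 9 10) ZE.r)))) (sub (mul (mul (q 25 1) (sub (q 225 1000) ZE.x)) (E.uu (q 400 10000) (sub ZE.y (mul (q 9 10) ZE.r)))) (mul (mul (mul pi (q 1 2)) (sub ZE.y (mul (q 9 10) ZE.r))) (sub (q 1 1) (mul (q 25 1) (sub (q 225 1000) ZE.x))))))), sub (sub (q 958 10000) (mul (q 85 100) ZE.r)) (add (add (E.uu (add ZE.x ZE.s) (sub ZE.y ZE.h)) (add (E.uu (sub ZE.x ZE.s) (add ZE.y ZE.h)) (mul pi (add ZE.y ZE.h)))) (add (neg (E.uu (add ZE.x (q 225 1000)) (add ZE.y (mul (q 9 10) ZE.r)))) (sub (mul (mul (q 25 1) (sub (q 225 1000) ZE.x)) (E.uu (q 400 10000) (sub ZE.y (mul (q 9 10) ZE.r)))) (mul (mul (mul pi (q 1 2)) (neg (sub ZE.y (mul (q 9 10) ZE.r)))) (sub (q 1 1) (mul (q 25 1) (sub (q 225 1000)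 ZE.x))))))), neg (add ZE.y ZE.h)] 60
    2433
    [NumIs.V.of 10000 1850 2250, NumIs.V.of 10000 (-1580) 10, NumIs.V.of 10000 0 200, NumIs.V.of 10000 0 1045] = true := by
    decide +kernel
  obtain ⟨f, hf, hp⟩ := chkT4 h (by norm_num) (x := x) (y := y) (z := s) (w := r)
    (by norm_num; linarith only [ua1]) (by norm_num; linarith only [ua2]) (by norm_num; linarith only [ua3]) (by norm_num; linarith only [ua4]) (by norm_num; linarith only [ua5]) (by norm_num; linarith only [ua6]) (by norm_num; linarith only [ua7]) (by norm_num; linarith only [ua8])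
  by_contra hc
  push Not at hc
  obtain ⟨hc0, hc1⟩ := hc
  simp only [List.mem_cons, List.not_mem_nil, or_false] at hf
  rcases hf with rfl | rfl | rfl
  · simp only [ZE.x, ZE.y, ZE.s, ZE.r, ZE.h, E.val, NumIs.lkR] at hp
    push_cast at hp
    linarith only [hc0, hp]
  · simp only [ZE.x, ZE.y, ZE.s, ZE.r, ZE.h, E.val, NumIs.lkR] at hp
    push_cast at hp
    linarith only [hc1, hp]
  · simp only [ZE.x, ZE.y, ZE.s, ZE.r, ZE.h, E.val, NumIs.lkR] at hp
    push_cast at hp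
    linarith only [ua9, hp]

theorem e1_mD4X2nA {x y s r : ℝ} (ua1 : 1850 / 10000 ≤ x) (ua2 : x ≤ 2250 / 10000) (ua3 : -(1580 / 10000) ≤ y) (ua4 : y ≤ 0 / 10000) (ua5 : 0 / 10000 ≤ s) (ua6 : s ≤ 200 / 10000) (ua7 : 0 / 10000 ≤ r) (ua8 : r ≤ 1045 / 10000) (ua9 : (y + 4 * (r * s)) ≤ 0) :
    NumUs.uu (x + s) (y - 4 * (r * s)) + (NumUs.uu (x - s) (y + 4 * (r * s)) + Real.pi * -(y + 4 * (r * s))) + (-NumUs.uu (x + 225 / 1000) (y + 9 / 10 * r) + ((25 / 1) * (225 / 1000 - x) * NumUs.uu (400 / 10000) (y - 9 / 10 * r) - Real.pi * (1 / 2) * (y - 9 / 10 * r) * (1 - (25 / 1) * (225 / 1000 - x)))) < (958 / 10000 - 85 / 100 * r) ∨ NumUs.uu (x + s) (y - 4 * (r * s)) + (NumUs.uu (x - s) (y + 4 * (r * s)) + Real.pi * -(y + 4 * (r * s))) + (-NumUs.uu (x + 225 / 1000) (y + 9 / 10 * r) + ((25 / 1) * (225 / 1000 - x) * NumUs.uu (400 / 10000) (y - 9 / 10 * r) - Real.pi * (1 / 2) * -(y - 9 / 10 * r) * (1 - (25 / 1) * (225 / 1000 - x)))) < (958 / 10000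 - 85 / 100 * r) := by
  have h : chkT [sub (sub (q 958 10000) (mul (q 85 100) ZE.r)) (add (add (E.uu (add ZE.x ZE.s) (sub ZE.y ZE.h)) (add (E.uu (sub ZE.x ZE.s) (add ZE.y ZE.h)) (mul pi (neg (add ZE.y ZE.h))))) (add (neg (E.uu (add ZE.x (q 225 1000)) (add ZE.y (mul (q 9 10) ZE.r)))) (sub (mul (mul (q 25 1) (sub (q 225 1000) ZE.x)) (E.uu (q 400 10000) (sub ZE.y (mul (q 9 10) ZE.r)))) (mul (mul (mul pi (q 1 2)) (sub ZE.y (mul (q 9 10) ZE.r))) (sub (q 1 1) (mul (q 25 1) (sub (q 225 1000) ZE.x))))))), sub (sub (q 958 10000) (mul (q 85 100) ZE.r)) (add (add (E.uu (add ZE.x ZE.s) (sub ZE.y ZE.h)) (add (E.uu (sub ZE.x ZE.s) (add ZE.y ZE.h)) (mul pi (neg (add ZE.y ZE.h))))) (add (neg (E.uu (add ZE.x (q 225 1000)) (add ZE.y (mul (q 9 10) ZE.r)))) (sub (mul (mul (q 25 1) (sub (q 225 1000) ZE.x)) (E.uu (q 400 10000) (sub ZE.y (mul (q 9 10) ZE.r)))) (mul (mul (mul pi (q 1 2)) (neg (sub ZE.y (mul (q 9 10) ZE.r)))) (sub (q 1 1) (mul (q 25 1) (sub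 (q 225 1000) ZE.x))))))), add (q 0 1) (add ZE.y ZE.h)] 60
    2449
    [NumIs.V.of 10000 1850 2250, NumIs.V.of 10000 (-1580) 0, NumIs.V.of 10000 0 200, NumIs.V.of 10000 0 1045] = true := by
    decide +kernel
  obtain ⟨f, hf, hp⟩ := chkT4 h (by norm_num) (x := x) (y := y) (z := s) (w := r)
    (by norm_num; linarith only [ua1]) (by norm_num; linarith only [ua2]) (by norm_num; linarith only [ua3]) (by norm_num; linarith only [ua4]) (by norm_num; linarith only [ua5]) (by norm_num; linarith only [ua6]) (by norm_num; linarith only [ua7]) (by norm_num; linarith only [ua8])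
  by_contra hc
  push Not at hc
  obtain ⟨hc0, hc1⟩ := hc
  simp only [List.mem_cons, List.not_mem_nil, or_false] at hf
  rcases hf with rfl | rfl | rfl
  · simp only [ZE.x, ZE.y, ZE.s, ZE.r, ZE.h, E.val, NumIs.lkR] at hp
    push_cast at hp
    linarith only [hc0, hp]
  · simp only [ZE.x, ZE.y, ZE.s, ZE.r, ZE.h, E.val, NumIs.lkR] at hp
    push_cast at hp
    linarith only [hc1, hp]
  · simp only [ZE.x, ZE.y, ZE.s, ZE.r, ZE.h, E.val, NumIs.lkR] at hp
    push_cast at hp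
    linarith only [ua9, hp]

theorem e1_mD4X3pA {x y s r : ℝ} (ua1 : 2250 / 10000 ≤ x) (ua2 : x ≤ 2650 / 10000) (ua3 : -(1580 / 10000) ≤ y) (ua4 : y ≤ 10 / 10000) (ua5 : 0 / 10000 ≤ s) (ua6 : s ≤ 200 / 10000) (ua7 : 0 / 10000 ≤ r) (ua8 : r ≤ 1045 / 10000) (ua9 : 0 ≤ (y + 4 * (r * s))) :
    NumUs.uu (x + s) (y - 4 * (r * s)) + (NumUs.uu (x - s) (y + 4 * (r * s)) + Real.pi * (y + 4 * (r * s))) + (-NumUs.uu (x + 225 / 1000) (y + 9 / 10 * r) + (((400 / 10000) - (x - 225 / 1000)) * NumIs.lnA (400 / 10000) (y - 9 / 10 * r) - NumUs.uu (400 / 10000) (y - 9 / 10 * r) - Real.pi * (y - 9 / 10 * r))) < (958 / 10000 - 85 / 100 * r) ∨ NumUs.uu (x + s) (y - 4 * (r * s)) + (NumUs.uu (x - s) (y + 4 * (r * s)) + Real.pi * (y + 4 * (r * s))) + (-NumUs.uu (x + 225 / 1000) (y + 9 / 10 * r) + (((400 / 10000) - (x - 225 / 1000)) * NumIs.lnA (400 / 10000) (y - 9 / 10 * r) - NumUs.uu (400 / 10000) (y - 9 / 10 * r) - Real.pi * -(y - 9 / 10 * r))) < (958 /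 10000 - 85 / 100 * r) := by
  have h : chkT [sub (sub (q 958 10000) (mul (q 85 100) ZE.r)) (add (add (E.uu (add ZE.x ZE.s) (sub ZE.y ZE.h)) (add (E.uu (sub ZE.x ZE.s) (add ZE.y ZE.h)) (mul pi (add ZE.y ZE.h)))) (add (neg (E.uu (add ZE.x (q 225 1000)) (add ZE.y (mul (q 9 10) ZE.r)))) (sub (sub (mul (sub (q 400 10000) (sub ZE.x (q 225 1000))) (E.lnA (q 400 10000) (sub ZE.y (mul (q 9 10) ZE.r)))) (E.uu (q 400 10000) (sub ZE.y (mul (q 9 10) ZE.r)))) (mul pi (sub ZE.y (mul (q 9 10) ZE.r)))))), sub (sub (q 958 10000) (mul (q 85 100) ZE.r)) (add (add (E.uu (add ZE.x ZE.s) (sub ZE.y ZE.h)) (add (E.uu (sub ZE.x ZE.s) (add ZE.y ZE.h)) (mul pi (add ZE.y ZE.h)))) (add (neg (E.uu (add ZE.x (q 225 1000)) (add ZE.y (mul (q 9 10) ZE.r)))) (sub (sub (mul (sub (q 400 10000) (sub ZE.x (q 225 1000))) (E.lnA (q 400 10000) (sub ZE.y (mul (q 9 10) ZE.r)))) (E.uu (q 400 10000) (sub ZE.y (mul (q 9 10) ZE.r)))) (mul pi (neg (sub ZE.y (mul (q 9 10) ZE.r))))))),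 neg (add ZE.y ZE.h)] 60
    2449
    [NumIs.V.of 10000 2250 2650, NumIs.V.of 10000 (-1580) 10, NumIs.V.of 10000 0 200, NumIs.V.of 10000 0 1045] = true := by
    decide +kernel
  obtain ⟨f, hf, hp⟩ := chkT4 h (by norm_num) (x := x) (y := y) (z := s) (w := r)
    (by norm_num; linarith only [ua1]) (by norm_num; linarith only [ua2]) (by norm_num; linarith only [ua3]) (by norm_num; linarith only [ua4]) (by norm_num; linarith only [ua5]) (by norm_num; linarith only [ua6]) (by norm_num; linarith only [ua7]) (by norm_num; linarith only [ua8])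
  by_contra hc
  push Not at hc
  obtain ⟨hc0, hc1⟩ := hc
  simp only [List.mem_cons, List.not_mem_nil, or_false] at hf
  rcases hf with rfl | rfl | rfl
  · simp only [ZE.x, ZE.y, ZE.s, ZE.r, ZE.h, E.val, NumIs.lkR] at hp
    push_cast at hp
    linarith only [hc0, hp]
  · simp only [ZE.x, ZE.y, ZE.s, ZE.r, ZE.h, E.val, NumIs.lkR] at hp
    push_cast at hp
    linarith only [hc1, hp]
  · simp only [ZE.x, ZE.y, ZE.s, ZE.r, ZE.h, E.val, NumIs.lkR] at hp
    push_cast at hp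
    linarith only [ua9, hp]

theorem e1_mD4X3nA {x y s r : ℝ} (ua1 : 2250 / 10000 ≤ x) (ua2 : x ≤ 2650 / 10000) (ua3 : -(1580 / 10000) ≤ y) (ua4 : y ≤ 0 / 10000) (ua5 : 0 / 10000 ≤ s) (ua6 : s ≤ 200 / 10000) (ua7 : 0 / 10000 ≤ r) (ua8 : r ≤ 1045 / 10000) (ua9 : (y + 4 * (r * s)) ≤ 0) :
    NumUs.uu (x + s) (y - 4 * (r * s)) + (NumUs.uu (x - s) (y + 4 * (r * s)) + Real.pi * -(y + 4 * (r * s))) + (-NumUs.uu (x + 225 / 1000) (y + 9 / 10 * r) + (((400 / 10000) - (x - 225 / 1000)) * NumIs.lnA (400 / 10000) (y - 9 / 10 * r) - NumUs.uu (400 / 10000) (y - 9 / 10 * r) - Real.pi * (y - 9 / 10 * r))) < (958 / 10000 - 85 / 100 * r) ∨ NumUs.uu (x + s) (y - 4 * (r * s)) + (NumUs.uu (x - s) (y + 4 * (r * s)) + Real.pi * -(y + 4 * (r * s))) + (-NumUs.uu (x + 225 / 1000) (y + 9 / 10 * r) + (((400 / 10000) - (x - 225 / 1000)) * NumIs.lnA (400 / 10000) (y - 9 / 10 * r) - NumUs.uu (400 / 10000) (y - 9 / 10 * r) - Real.pi * -(y - 9 / 10 * r))) < (958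 / 10000 - 85 / 100 * r) := by
  have h : chkT [sub (sub (q 958 10000) (mul (q 85 100) ZE.r)) (add (add (E.uu (add ZE.x ZE.s) (sub ZE.y ZE.h)) (add (E.uu (sub ZE.x ZE.s) (add ZE.y ZE.h)) (mul pi (neg (add ZE.y ZE.h))))) (add (neg (E.uu (add ZE.x (q 225 1000)) (add ZE.y (mul (q 9 10) ZE.r)))) (sub (sub (mul (sub (q 400 10000) (sub ZE.x (q 225 1000))) (E.lnA (q 400 10000) (sub ZE.y (mul (q 9 10) ZE.r)))) (E.uu (q 400 10000) (sub ZE.y (mul (q 9 10) ZE.r)))) (mul pi (sub ZE.y (mul (q 9 10) ZE.r)))))), sub (sub (q 958 10000) (mul (q 85 100) ZE.r)) (add (add (E.uu (add ZE.x ZE.s) (sub ZE.y ZE.h)) (add (E.uu (sub ZE.x ZE.s) (add ZE.y ZE.h)) (mul pi (neg (add ZE.y ZE.h))))) (add (neg (E.uu (add ZE.x (q 225 1000)) (add ZE.y (mul (q 9 10) ZE.r)))) (sub (sub (mul (sub (q 400 10000) (sub ZE.x (q 225 1000))) (E.lnA (q 400 10000) (sub ZE.y (mul (q 9 10) ZE.r)))) (E.uu (q 400 10000) (sub ZE.y (mul (q 9 10) ZE.r)))) (mul pi (neg (sub ZE.y (mul (q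 9 10) ZE.r))))))), add (q 0 1) (add ZE.y ZE.h)] 60
    2449
    [NumIs.V.of 10000 2250 2650, NumIs.V.of 10000 (-1580) 0, NumIs.V.of 10000 0 200, NumIs.V.of 10000 0 1045] = true := by
    decide +kernel
  obtain ⟨f, hf, hp⟩ := chkT4 h (by norm_num) (x := x) (y := y) (z := s) (w := r)
    (by norm_num; linarith only [ua1]) (by norm_num; linarith only [ua2]) (by norm_num; linarith only [ua3]) (by norm_num; linarith only [ua4]) (by norm_num; linarith only [ua5]) (by norm_num; linarith only [ua6]) (by norm_num; linarith only [ua7]) (by norm_num; linarith only [ua8])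
  by_contra hc
  push Not at hc
  obtain ⟨hc0, hc1⟩ := hc
  simp only [List.mem_cons, List.not_mem_nil, or_false] at hf
  rcases hf with rfl | rfl | rfl
  · simp only [ZE.x, ZE.y, ZE.s, ZE.r, ZE.h, E.val, NumIs.lkR] at hp
    push_cast at hp
    linarith only [hc0, hp]
  · simp only [ZE.x, ZE.y, ZE.s, ZE.r, ZE.h, E.val, NumIs.lkR] at hp
    push_cast at hp
    linarith only [hc1, hp]
  · simp only [ZE.x, ZE.y, ZE.s, ZE.r, ZE.h, E.val, NumIs.lkR] at hp
    push_cast at hp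
    linarith only [ua9, hp]

theorem e1_mD4X4pA {x y s r : ℝ} (ua1 : 2650 / 10000 ≤ x) (ua2 : x ≤ 6000 / 10000) (ua3 : -(1580 / 10000) ≤ y) (ua4 : y ≤ 10 / 10000) (ua5 : 0 / 10000 ≤ s) (ua6 : s ≤ 200 / 10000) (ua7 : 0 / 10000 ≤ r) (ua8 : r ≤ 1045 / 10000) (ua9 : 0 ≤ (y + 4 * (r * s))) (ua10 : -y ≤ 545 / 1000 * (65 / 100 - x)) :
    NumUs.uu (x + s) (y - 4 * (r * s)) + (NumUs.uu (x - s) (y + 4 * (r * s)) + Real.pi * (y + 4 * (r * s))) + (-NumUs.uu (x + 225 / 1000) (y + 9 / 10 * r) + -(NumUs.uu (x - 225 / 1000) (y - 9 / 10 * r) + Real.pi * (y - 9 / 10 * r))) < (958 / 10000 - 85 / 100 * r) ∨ NumUs.uu (x + s) (y - 4 * (r * s)) + (NumUs.uu (x - s) (y + 4 * (r * s)) + Real.pi * (y + 4 * (r * s))) + (-NumUs.uu (x + 225 / 1000) (y + 9 / 10 * r) + -(NumUs.uu (x - 225 / 1000) (y - 9 / 10 * r) + Real.pi * -(y - 9 / 10 * r))) < (958 / 10000 - 85 / 100 * r) := by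
  have h : chkT [sub (sub (q 958 10000) (mul (q 85 100) ZE.r)) (add (add (E.uu (add ZE.x ZE.s) (sub ZE.y ZE.h)) (add (E.uu (sub ZE.x ZE.s) (add ZE.y ZE.h)) (mul pi (add ZE.y ZE.h)))) (add (neg (E.uu (add ZE.x (q 225 1000)) (add ZE.y (mul (q 9 10) ZE.r)))) (neg (add (E.uu (sub ZE.x (q 225 1000)) (sub ZE.y (mul (q 9 10) ZE.r))) (mul pi (sub ZE.y (mul (q 9 10) ZE.r))))))), sub (sub (q 958 10000) (mul (q 85 100) ZE.r)) (add (add (E.uu (add ZE.x ZE.s) (sub ZE.y ZE.h)) (add (E.uu (sub ZE.x ZE.s) (add ZE.y ZE.h)) (mul pi (add ZE.y ZE.h)))) (add (neg (E.uu (add ZE.x (q 225 1000)) (add ZE.y (mul (q 9 10) ZE.r)))) (neg (add (E.uu (sub ZE.x (q 225 1000)) (sub ZE.y (mul (q 9 10) ZE.r))) (mul pi (neg (sub ZE.y (mul (q 9 10) ZE.r)))))))), neg (add ZE.y ZE.h), sub (neg ZE.y) (mul (q 545 1000) (sub (q 65 100) ZE.x))] 60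
    690054122939060480
    [NumIs.V.of 10000 2650 6000, NumIs.V.of 10000 (-1580) 10, NumIs.V.of 10000 0 200, NumIs.V.of 10000 0 1045] = true := by
    decide +kernel
  obtain ⟨f, hf, hp⟩ := chkT4 h (by norm_num) (x := x) (y := y) (z := s) (w := r)
    (by norm_num; linarith only [ua1]) (by norm_num; linarith only [ua2]) (by norm_num; linarith only [ua3]) (by norm_num; linarith only [ua4]) (by norm_num; linarith only [ua5]) (by norm_num; linarith only [ua6]) (by norm_num; linarith only [ua7]) (by norm_num; linarith only [ua8])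
  by_contra hc
  push Not at hc
  obtain ⟨hc0, hc1⟩ := hc
  simp only [List.mem_cons, List.not_mem_nil, or_false] at hf
  rcases hf with rfl | rfl | rfl | rfl
  · simp only [ZE.x, ZE.y, ZE.s, ZE.r, ZE.h, E.val, NumIs.lkR] at hp
    push_cast at hp
    linarith only [hc0, hp]
  · simp only [ZE.x, ZE.y, ZE.s, ZE.r, ZE.h, E.val, NumIs.lkR] at hp
    push_cast at hp
    linarith only [hc1, hp]
  · simp only [ZE.x, ZE.y, ZE.s, ZE.r, ZE.h, E.val, NumIs.lkR] at hp
    push_cast at hp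
    linarith only [ua9, hp]
  · simp only [ZE.x, ZE.y, ZE.s, ZE.r, ZE.h, E.val, NumIs.lkR] at hp
    push_cast at hp
    linarith only [ua10, hp]

theorem e1_mD4X4nA {x y s r : ℝ} (ua1 : 2650 / 10000 ≤ x) (ua2 : x ≤ 6000 / 10000) (ua3 : -(1580 / 10000) ≤ y) (ua4 : y ≤ 0 / 10000) (ua5 : 0 / 10000 ≤ s) (ua6 : s ≤ 200 / 10000) (ua7 : 0 / 10000 ≤ r) (ua8 : r ≤ 1045 / 10000) (ua9 : (y + 4 * (r * s)) ≤ 0) (ua10 : -y ≤ 545 / 1000 * (65 / 100 - x)) :
    NumUs.uu (x + s) (y - 4 * (r * s)) + (NumUs.uu (x - s) (y + 4 * (r * s)) + Real.pi * -(y + 4 * (r * s))) + (-NumUs.uu (x + 225 / 1000) (y + 9 / 10 * r) + -(NumUs.uu (x - 225 / 1000) (y - 9 / 10 * r) + Real.pi * (y - 9 / 10 * r))) < (958 / 10000 - 85 / 100 * r) ∨ NumUs.uu (x + s) (y - 4 * (r * s)) + (NumUs.uu (x - s) (y + 4 * (r * s)) + Real.pi * -(y + 4 * (r * s))) + (-NumUs.uu (x + 225 / 1000) (y + 9 / 10 * r) + -(NumUs.uu (x - 225 / 1000) (y - 9 / 10 * r) + Real.pi * -(y - 9 / 10 * r)))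 < (958 / 10000 - 85 / 100 * r) := by
  have h : chkT [sub (sub (q 958 10000) (mul (q 85 100) ZE.r)) (add (add (E.uu (add ZE.x ZE.s) (sub ZE.y ZE.h)) (add (E.uu (sub ZE.x ZE.s) (add ZE.y ZE.h)) (mul pi (neg (add ZE.y ZE.h))))) (add (neg (E.uu (add ZE.x (q 225 1000)) (add ZE.y (mul (q 9 10) ZE.r)))) (neg (add (E.uu (sub ZE.x (q 225 1000)) (sub ZE.y (mul (q 9 10) ZE.r))) (mul pi (sub ZE.y (mul (q 9 10) ZE.r))))))), sub (sub (q 958 10000) (mul (q 85 100) ZE.r)) (add (add (E.uu (add ZE.x ZE.s) (sub ZE.y ZE.h)) (add (E.uu (sub ZE.x ZE.s) (add ZE.y ZE.h)) (mul pi (neg (add ZE.y ZE.h))))) (add (neg (E.uu (add ZE.x (q 225 1000)) (add ZE.y (mul (q 9 10) ZE.r)))) (neg (add (E.uu (sub ZE.x (q 225 1000)) (sub ZE.y (mul (q 9 10) ZE.r))) (mul pi (neg (sub ZE.y (mul (q 9 10) ZE.r)))))))), add (q 0 1) (add ZE.y ZE.h), sub (neg ZE.y) (mul (q 545 1000) (sub (q 65 100) ZE.x))] 60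
    45225767002728005931264
    [NumIs.V.of 10000 2650 6000, NumIs.V.of 10000 (-1580) 0, NumIs.V.of 10000 0 200, NumIs.V.of 10000 0 1045] = true := by
    decide +kernel
  obtain ⟨f, hf, hp⟩ := chkT4 h (by norm_num) (x := x) (y := y) (z := s) (w := r)
    (by norm_num; linarith only [ua1]) (by norm_num; linarith only [ua2]) (by norm_num; linarith only [ua3]) (by norm_num; linarith only [ua4]) (by norm_num; linarith only [ua5]) (by norm_num; linarith only [ua6]) (by norm_num; linarith only [ua7]) (by norm_num; linarith only [ua8])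
  by_contra hc
  push Not at hc
  obtain ⟨hc0, hc1⟩ := hc
  simp only [List.mem_cons, List.not_mem_nil, or_false] at hf
  rcases hf with rfl | rfl | rfl | rfl
  · simp only [ZE.x, ZE.y, ZE.s, ZE.r, ZE.h, E.val, NumIs.lkR] at hp
    push_cast at hp
    linarith only [hc0, hp]
  · simp only [ZE.x, ZE.y, ZE.s, ZE.r, ZE.h, E.val, NumIs.lkR] at hp
    push_cast at hp
    linarith only [hc1, hp]
  · simp only [ZE.x, ZE.y, ZE.s, ZE.r, ZE.h, E.val, NumIs.lkR] at hp
    push_cast at hp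
    linarith only [ua9, hp]
  · simp only [ZE.x, ZE.y, ZE.s, ZE.r, ZE.h, E.val, NumIs.lkR] at hp
    push_cast at hp
    linarith only [ua10, hp]

theorem e1_mD4X4nZ {x y s r : ℝ} (ua1 : 6000 / 10000 ≤ x) (ua2 : x ≤ 6500 / 10000) (ua3 : -(273 / 10000) ≤ y) (ua4 : y ≤ 0 / 10000) (ua5 : 0 / 10000 ≤ s) (ua6 : s ≤ 200 / 10000) (ua7 : 0 / 10000 ≤ r) (ua8 : r ≤ 1045 / 10000) (ua9 : (y + 4 * (r * s)) ≤ 0) (ua10 : -y ≤ 545 / 1000 * (65 / 100 - x)) :
    NumUs.uu (x + s) (y - 4 * (r * s)) + (NumUs.uu (x - s) (y + 4 * (r * s)) + Real.pi * -(y + 4 * (r * s))) + (-NumUs.uu (x + 225 / 1000) (y + 9 / 10 * r) + -(NumUs.uu (x - 225 / 1000) (y - 9 / 10 * r) + Real.pi * (y - 9 / 10 * r))) < (958 / 10000 - 85 / 100 * r) ∨ NumUs.uu (x + s) (y - 4 * (r * s)) + (NumUs.uu (x - s) (y + 4 * (r * s)) + Real.pi * -(y + 4 * (r * s))) + (-NumUs.uu (x + 225 / 1000) (y + 9 / 10 * r) + -(NumUs.uu (x - 225 / 1000) (y - 9 / 10 * r) + Real.pi * -(y - 9 / 10 * r)))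 < (958 / 10000 - 85 / 100 * r) := by
  have h : chkT [sub (sub (q 958 10000) (mul (q 85 100) ZE.r)) (add (add (E.uu (add ZE.x ZE.s) (sub ZE.y ZE.h)) (add (E.uu (sub ZE.x ZE.s) (add ZE.y ZE.h)) (mul pi (neg (add ZE.y ZE.h))))) (add (neg (E.uu (add ZE.x (q 225 1000)) (add ZE.y (mul (q 9 10) ZE.r)))) (neg (add (E.uu (sub ZE.x (q 225 1000)) (sub ZE.y (mul (q 9 10) ZE.r))) (mul pi (sub ZE.y (mul (q 9 10) ZE.r))))))), sub (sub (q 958 10000) (mul (q 85 100) ZE.r)) (add (add (E.uu (add ZE.x ZE.s) (sub ZE.y ZE.h)) (add (E.uu (sub ZE.x ZE.s) (add ZE.y ZE.h)) (mul pi (neg (add ZE.y ZE.h))))) (add (neg (E.uu (add ZE.x (q 225 1000)) (add ZE.y (mul (q 9 10) ZE.r)))) (neg (add (E.uu (sub ZE.x (q 225 1000)) (sub ZE.y (mul (q 9 10) ZE.r))) (mul pi (neg (sub ZE.y (mul (q 9 10) ZE.r)))))))), add (q 0 1) (add ZE.y ZE.h), sub (neg ZE.y) (mul (q 545 1000) (sub (q 65 100) ZE.x))] 60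
    10555303199539
    [NumIs.V.of 10000 6000 6500, NumIs.V.of 10000 (-273) 0, NumIs.V.of 10000 0 200, NumIs.V.of 10000 0 1045] = true := by
    decide +kernel
  obtain ⟨f, hf, hp⟩ := chkT4 h (by norm_num) (x := x) (y := y) (z := s) (w := r)
    (by norm_num; linarith only [ua1]) (by norm_num; linarith only [ua2]) (by norm_num; linarith only [ua1, ua10]) (by norm_num; linarith only [ua4]) (by norm_num; linarith only [ua5]) (by norm_num; linarith only [ua6]) (by norm_num; linarith only [ua7]) (by norm_num; linarith only [ua8])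
  by_contra hc
  push Not at hc
  obtain ⟨hc0, hc1⟩ := hc
  simp only [List.mem_cons, List.not_mem_nil, or_false] at hf
  rcases hf with rfl | rfl | rfl | rfl
  · simp only [ZE.x, ZE.y, ZE.s, ZE.r, ZE.h, E.val, NumIs.lkR] at hp
    push_cast at hp
    linarith only [hc0, hp]
  · simp only [ZE.x, ZE.y, ZE.s, ZE.r, ZE.h, E.val, NumIs.lkR] at hp
    push_cast at hp
    linarith only [hc1, hp]
  · simp only [ZE.x, ZE.y, ZE.s, ZE.r, ZE.h, E.val, NumIs.lkR] at hp
    push_cast at hp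
    linarith only [ua9, hp]
  · simp only [ZE.x, ZE.y, ZE.s, ZE.r, ZE.h, E.val, NumIs.lkR] at hp
    push_cast at hp
    linarith only [ua10, hp]

theorem e1_mD1X1B {x y s r : ℝ} (ua1 : 0 / 10000 ≤ x) (ua2 : x ≤ 300 / 10000) (ua3 : -(475 / 10000) ≤ y) (ua4 : y ≤ 10 / 10000) (ua5 : 200 / 10000 ≤ s) (ua6 : s ≤ 500 / 10000) (ua7 : 0 / 10000 ≤ r) (ua8 : r ≤ 1045 / 10000) (ua9 : x - s ≤ -(200 / 10000)) (ua10 : -y ≤ 158 / 100 * x) :
    NumUs.uu (x + s) (y - 4 * (r * s)) + NumUs.uu (1 + x - s) (y + 4 * (r * s)) + (-NumUs.uu (x + 225 / 1000) (y + 9 / 10 * r) + -NumUs.uu (x + 775 / 1000) (y - 9 / 10 * r)) < (958 / 10000 - 85 / 100 * r) := by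
  have h : chkT [sub (sub (q 958 10000) (mul (q 85 100) ZE.r)) (add (add (E.uu (add ZE.x ZE.s) (sub ZE.y ZE.h)) (E.uu (sub (add (q 1 1) ZE.x) ZE.s) (add ZE.y ZE.h))) (add (neg (E.uu (add ZE.x (q 225 1000)) (add ZE.y (mul (q 9 10) ZE.r)))) (neg (E.uu (add ZE.x (q 775 1000)) (sub ZE.y (mul (q 9 10) ZE.r)))))), sub (sub ZE.x ZE.s) (q (-200) 10000), sub (neg ZE.y) (mul (q 158 100) ZE.x)] 60
    718039384691503161076960902395909845878188889286476628997509497662286825696604427877320302778461037781502857786857112832685732947753008510531605206467601626371326763436347011822838469821163041026037020331922817331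
    [NumIs.V.of 10000 0 300, NumIs.V.of 10000 (-475) 10, NumIs.V.of 10000 200 500, NumIs.V.of 10000 0 1045] = true := by
    decide +kernel
  obtain ⟨f, hf, hp⟩ := chkT4 h (by norm_num) (x := x) (y := y) (z := s) (w := r)
    (by norm_num; linarith only [ua1]) (by norm_num; linarith only [ua2]) (by norm_num; linarith only [ua2, ua10]) (by norm_num; linarith only [ua4]) (by norm_num; linarith only [ua5]) (by norm_num; linarith only [ua6]) (by norm_num; linarith only [ua7]) (by norm_num; linarith only [ua8])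
  by_contra hc
  push Not at hc
  simp only [List.mem_cons, List.not_mem_nil, or_false] at hf
  rcases hf with rfl | rfl | rfl
  · simp only [ZE.x, ZE.y, ZE.s, ZE.r, ZE.h, E.val, NumIs.lkR] at hp
    push_cast at hp
    linarith only [hc, hp]
  · simp only [ZE.x, ZE.y, ZE.s, ZE.r, ZE.h, E.val, NumIs.lkR] at hp
    push_cast at hp
    linarith only [ua9, hp]
  · simp only [ZE.x, ZE.y, ZE.s, ZE.r, ZE.h, E.val, NumIs.lkR] at hp
    push_cast at hp
    linarith only [ua10, hp]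

end ZD

end Pool.Agent.Work.MP_b30479_gtS.G2

end

section

/-!
# The loss at a hinge next to a ring: `s` small
-/

set_option linter.unusedSimpArgs false
set_option linter.unusedVariables false

set_option deprecated.oldSectionVars true

namespace Pool.Agent.Work.MP_b30479_gtS.G2

open VOL NumUs

namespace ZD

section
open NumUs.E ZE

theorem e1_pC {x y s r : ℝ} (ua1 : 0 / 10000 ≤ x) (ua2 : x ≤ 50 / 10000) (ua3 : -(79 / 10000) ≤ y) (ua4 : y ≤ 10 / 10000) (ua5 : 0 / 10000 ≤ s) (ua6 : s ≤ 70 / 10000) (ua7 : 0 / 10000 ≤ r) (ua8 : r ≤ 1045 / 10000) :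
    32 / 10000 + (-NumUs.uu (x + 225 / 1000) (y + 9 / 10 * r) + -NumUs.uu (x + 775 / 1000) (y - 9 / 10 * r)) < (958 / 10000 - 85 / 100 * r) := by
  have h : chkT [sub (sub (q 958 10000) (mul (q 85 100) ZE.r)) (add (q 32 10000) (add (neg (E.uu (add ZE.x (q 225 1000)) (add ZE.y (mul (q 9 10) ZE.r)))) (neg (E.uu (add ZE.x (q 775 1000)) (sub ZE.y (mul (q 9 10) ZE.r))))))] 60
    2179
    [NumIs.V.of 10000 0 50, NumIs.V.of 10000 (-79) 10, NumIs.V.of 10000 0 70, NumIs.V.of 10000 0 1045] = true := by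
    decide +kernel
  obtain ⟨f, hf, hp⟩ := chkT4 h (by norm_num) (x := x) (y := y) (z := s) (w := r)
    (by norm_num; linarith only [ua1]) (by norm_num; linarith only [ua2]) (by norm_num; linarith only [ua3]) (by norm_num; linarith only [ua4]) (by norm_num; linarith only [ua5]) (by norm_num; linarith only [ua6]) (by norm_num; linarith only [ua7]) (by norm_num; linarith only [ua8])
  by_contra hc
  push Not at hc
  simp only [List.mem_cons, List.not_mem_nil, or_false] at hf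
  rcases hf with rfl
  · simp only [ZE.x, ZE.y, ZE.s, ZE.r, ZE.h, E.val, NumIs.lkR] at hp
    push_cast at hp
    linarith only [hc, hp]

/-- `lnA` at the corner -/
private theorem lnA_12_11 : NumIs.lnA (12 / 1000) (109 / 10000) ≤ -(228 / 100) := by
  have h : chk [sub (q (-228) 100) (E.lnA (q 12 1000) (q 109 10000))] 1
      [NumIs.V.of 1 0 0] = true := by decide +kernel
  have hp := pos_of_chk (chk1 h (by norm_num) (x := 0) (by norm_num) (by norm_num))
  simp only [E.val] at hp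
  push_cast at hp
  linarith only [hp]

end

private theorem zoneA' {x y s r a b : ℝ} (x0 : 0 ≤ x) (x1 : x ≤ 1500 / 10000)
    (y0 : -(158 / 1000) ≤ y) (y1 : y ≤ 1 / 1000) (b0 : -y ≤ 158 / 100 * x) (s0 : 0 ≤ s)
    (s1 : s ≤ 200 / 10000) (r0 : 0 ≤ r) (r1 : r ≤ 1045 / 10000)
    (hab : ∀ m : ℝ, |y| ≤ m ∨ |4 * (r * s)| ≤ m → |(|a| - |b|)| ≤ 2 * m)
    (ha : |a| ≤ |y| + 4 * (r * s)) (hb : |b| ≤ |y| + 4 * (r * s)) :
    uu (x + s) a + uu (1 + x - s) b +
      (-uu (x + 225 / 1000) (y + 9 / 10 * r) + -uu (x + 775 / 1000) (y - 9 / 10 * r)) ≤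
      958 / 10000 - 85 / 100 * r := by
  have hp := Real.pi_pos
  have hp4 := Real.pi_lt_d4
  have hrs : 0 ≤ r * s := mul_nonneg r0 s0
  by_cases hc : x ≤ 50 / 10000 ∧ s ≤ 70 / 10000
  · obtain ⟨hc1, hc2⟩ := hc
    have T := e1_pC (x := x) (y := y) (s := s) (r := r) (by linarith only [x0]) (by linarith only [hc1]) (by linarith only [b0, hc1])
      (by linarith only [y1]) (by linarith only [s0]) (by linarith only [hc2]) (by linarith only [r0]) (by linarith only [r1])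
    have h1 : r * s ≤ 1045 / 10000 * (70 / 10000) := mul_le_mul r1 hc2 s0 (by norm_num)
    have hy : |y| ≤ 1 / 1000 ∨ |y| ≤ 158 / 100 * x := by
      rcases le_total 0 y with h | h
      · left
        rwa [abs_of_nonneg h]
      · right
        rwa [abs_of_nonpos h]
    have hy' : |y| ≤ 79 / 10000 := by rcases hy with h | h <;> linarith only [h, hc1]
    have h := UC.corner (a := a) (b := b) (z0 := 12 / 1000) (h0 := 109 / 10000) x0 s0
      (by linarith only [hc1, hc2]) (by norm_num) (by linarith only [ha, h1, hy']) (by linarith only [hb, h1, hy'])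
    have h3 : 2 * x * NumIs.lnA (12 / 1000) (109 / 10000) ≤ 2 * x * (-(228 / 100)) :=
      mul_le_mul_of_nonneg_left lnA_12_11 (by linarith only [x0])
    rcases hy with g | g
    · have h2 : Real.pi / 2 * |(|a| - |b|)| ≤ Real.pi / 2 * (2 * (1 / 1000)) :=
        mul_le_mul_of_nonneg_left (hab _ (Or.inl g)) (by positivity)
      linarith only [x0, hp4, T, h, h3, h2]
    · have h2 : Real.pi / 2 * |(|a| - |b|)| ≤ Real.pi / 2 * (2 * (158 / 100 * x)) :=
        mul_le_mul_of_nonneg_left (hab _ (Or.inl g)) (by positivity)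
      nlinarith only [hc1, T, h, h3, h2, x0, hp4]
  have hc' : x ≤ 50 / 10000 → 70 / 10000 ≤ s := by
    intro hx
    by_contra h
    push Not at h
    exact hc ⟨hx, h.le⟩
  rcases le_total 0 y with hy | hy
  · have h := UC.corner (a := a) (b := b) (z0 := x + s) (h0 := y + 4 * (r * s)) x0 s0 le_rfl
      (by linarith only [x1, s1]) (by rwa [abs_of_nonneg hy] at ha) (by rwa [abs_of_nonneg hy] at hb)
    have h2 : Real.pi / 2 * |(|a| - |b|)| ≤ Real.pi / 2 * (2 * y) :=
      mul_le_mul_of_nonneg_left (hab _ (Or.inl (abs_of_nonneg hy).le)) (by positivity)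
    rcases le_or_gt x (50 / 10000) with g | g
    · have := hc' g
      have T := e1_Cpa (x := x) (y := y) (s := s) (r := r) (by linarith only [x0]) (by linarith only [g])
        (by linarith only [hy]) (by linarith only [y1]) (by linarith only [this]) (by linarith only [s1]) (by linarith only [r0]) (by linarith only [r1])
      linarith only [h, h2, T]
    · have T := e1_Cpb (x := x) (y := y) (s := s) (r := r) (by linarith only [g]) (by linarith only [x1])
        (by linarith only [hy]) (by linarith only [y1]) (by linarith only [s0]) (by linarith only [s1]) (by linarith only [r0]) (by linarith only [r1])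
      linarith only [h, h2, T]
  · have h := UC.corner (a := a) (b := b) (z0 := x + s) (h0 := 4 * (r * s) - y) x0 s0 le_rfl
      (by linarith only [x1, s1]) (by rw [abs_of_nonpos hy] at ha; linarith only [ha])
      (by rw [abs_of_nonpos hy] at hb; linarith only [hb])
    have h2 : Real.pi / 2 * |(|a| - |b|)| ≤ Real.pi / 2 * (2 * -y) :=
      mul_le_mul_of_nonneg_left (hab _ (Or.inl (abs_of_nonpos hy).le)) (by positivity)
    have h2' : Real.pi / 2 * |(|a| - |b|)| ≤ Real.pi / 2 * (2 * (4 * (r * s))) :=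
      mul_le_mul_of_nonneg_left (hab _ (Or.inr (abs_of_nonneg (by positivity)).le))
        (by positivity)
    rcases le_or_gt x (50 / 10000) with g | g
    · have := hc' g
      have T := e1_Cna (x := x) (y := y) (s := s) (r := r) (by linarith only [x0]) (by linarith only [g])
        (by linarith only [b0, g]) (by linarith only [hy]) (by linarith only [this]) (by linarith only [s1]) (by linarith only [r0]) (by linarith only [r1])
        (by linarith only [b0])
      rcases T with T | T <;> linarith only [h, h2, T, h2']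
    · have T := e1_Cnb (x := x) (y := y) (s := s) (r := r) (by linarith only [g]) (by linarith only [x1])
        (by linarith only [y0]) (by linarith only [hy]) (by linarith only [s0]) (by linarith only [s1]) (by linarith only [r0]) (by linarith only [r1])
        (by linarith only [b0])
      rcases T with T | T <;> linarith only [h, h2, T, h2']

theorem zoneA {x y s r : ℝ} (x0 : 0 ≤ x) (x1 : x ≤ 1500 / 10000)
    (y0 : -(158 / 1000) ≤ y) (y1 : y ≤ 1 / 1000) (b0 : -y ≤ 158 / 100 * x) (s0 : 0 ≤ s)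
    (s1 : s ≤ 200 / 10000) (r0 : 0 ≤ r) (r1 : r ≤ 1045 / 10000) :
    uu (x + s) (y + 4 * (r * s)) + uu (1 + x - s) (y - 4 * (r * s)) +
      (-uu (x + 225 / 1000) (y + 9 / 10 * r) + -uu (x + 775 / 1000) (y - 9 / 10 * r)) ≤
      958 / 10000 - 85 / 100 * r := by
  have h0 : 0 ≤ 4 * (r * s) := by positivity
  refine zoneA' x0 x1 y0 y1 b0 s0 s1 r0 r1 (fun m hm => abs_diff_le hm) ?_ ?_
  · have := abs_add_le y (4 * (r * s))
    rwa [abs_of_nonneg h0] at this
  · have := abs_sub y (4 * (r * s))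
    rwa [abs_of_nonneg h0] at this

theorem zoneAm {x y s r : ℝ} (x0 : 0 ≤ x) (x1 : x ≤ 1500 / 10000)
    (y0 : -(158 / 1000) ≤ y) (y1 : y ≤ 1 / 1000) (b0 : -y ≤ 158 / 100 * x) (s0 : 0 ≤ s)
    (s1 : s ≤ 200 / 10000) (r0 : 0 ≤ r) (r1 : r ≤ 1045 / 10000) :
    uu (x + s) (y - 4 * (r * s)) + uu (1 + x - s) (y + 4 * (r * s)) +
      (-uu (x + 225 / 1000) (y + 9 / 10 * r) + -uu (x + 775 / 1000) (y - 9 / 10 * r)) ≤
      958 / 10000 - 85 / 100 * r := by
  have h0 : 0 ≤ 4 * (r * s) := by positivity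
  refine zoneA' x0 x1 y0 y1 b0 s0 s1 r0 r1 (fun m hm => ?_) ?_ ?_
  · rw [abs_sub_comm]
    exact abs_diff_le hm
  · have := abs_sub y (4 * (r * s))
    rwa [abs_of_nonneg h0] at this
  · have := abs_add_le y (4 * (r * s))
    rwa [abs_of_nonneg h0] at this

end ZD

end Pool.Agent.Work.MP_b30479_gtS.G2

end

section

/-!
# The loss at a hinge between two rings: the corner
-/

set_option linter.unusedSimpArgs false
set_option linter.unusedVariables false

set_option deprecated.oldSectionVars true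

namespace Pool.Agent.Work.MP_b30479_gtS.G2

open VOL NumUs

namespace ZD

section
open NumUs.E ZE

theorem e4a_pC {x y s r : ℝ} (ua1 : 0 / 10000 ≤ x) (ua2 : x ≤ 300 / 10000) (ua3 : -(168 / 10000) ≤ y) (ua4 : y ≤ 168 / 10000) (ua5 : 0 / 10000 ≤ s) (ua6 : s ≤ 300 / 10000) (ua7 : 0 / 10000 ≤ r) (ua8 : r ≤ 1045 / 10000) :
    3 / 1000 + (-NumUs.uu (x + 225 / 1000) (y + 9 / 10 * r) + -NumUs.uu (x + 775 / 1000) (y - 9 / 10 * r)) < (107 / 1000 + 64 / 100 * r + 2 * Real.pi * r * (9 / 100 + 4 * s * (4 * s - 1))) := by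
  have h : chkT [sub (add (add (q 107 1000) (mul (q 64 100) ZE.r)) (mul (mul (mul (q 2 1) pi) ZE.r) (add (q 9 100) (mul (mul (q 4 1) ZE.s) (sub (mul (q 4 1) ZE.s) (q 1 1)))))) (add (q 3 1000) (add (neg (E.uu (add ZE.x (q 225 1000)) (add ZE.y (mul (q 9 10) ZE.r)))) (neg (E.uu (add ZE.x (q 775 1000)) (sub ZE.y (mul (q 9 10) ZE.r))))))] 60
    8
    [NumIs.V.of 10000 0 300, NumIs.V.of 10000 (-168) 168, NumIs.V.of 10000 0 300, NumIs.V.of 10000 0 1045] = true := by
    decide +kernel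
  obtain ⟨f, hf, hp⟩ := chkT4 h (by norm_num) (x := x) (y := y) (z := s) (w := r)
    (by norm_num; linarith only [ua1]) (by norm_num; linarith only [ua2]) (by norm_num; linarith only [ua3]) (by norm_num; linarith only [ua4]) (by norm_num; linarith only [ua5]) (by norm_num; linarith only [ua6]) (by norm_num; linarith only [ua7]) (by norm_num; linarith only [ua8])
  by_contra hc
  push Not at hc
  simp only [List.mem_cons, List.not_mem_nil, or_false] at hf
  rcases hf with rfl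
  · simp only [ZE.x, ZE.y, ZE.s, ZE.r, ZE.h, E.val, NumIs.lkR] at hp
    push_cast at hp
    linarith only [hc, hp]

theorem e4a_mC {x y s r : ℝ} (ua1 : 0 / 10000 ≤ x) (ua2 : x ≤ 300 / 10000) (ua3 : -(168 / 10000) ≤ y) (ua4 : y ≤ 168 / 10000) (ua5 : 0 / 10000 ≤ s) (ua6 : s ≤ 300 / 10000) (ua7 : 0 / 10000 ≤ r) (ua8 : r ≤ 1045 / 10000) :
    3 / 1000 + (-NumUs.uu (x + 225 / 1000) (y + 9 / 10 * r) + -NumUs.uu (x + 775 / 1000) (y - 9 / 10 * r)) < (107 / 1000 + 64 / 100 * r + 2 * Real.pi * r * (9 / 100 + 4 * s * (5 / 2 - 3 * s))) := by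
  have h : chkT [sub (add (add (q 107 1000) (mul (q 64 100) ZE.r)) (mul (mul (mul (q 2 1) pi) ZE.r) (add (q 9 100) (mul (mul (q 4 1) ZE.s) (sub (q 5 2) (mul (q 3 1) ZE.s)))))) (add (q 3 1000) (add (neg (E.uu (add ZE.x (q 225 1000)) (add ZE.y (mul (q 9 10) ZE.r)))) (neg (E.uu (add ZE.x (q 775 1000)) (sub ZE.y (mul (q 9 10) ZE.r))))))] 60
    2179
    [NumIs.V.of 10000 0 300, NumIs.V.of 10000 (-168) 168, NumIs.V.of 10000 0 300, NumIs.V.of 10000 0 1045] = true := by
    decide +kernel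
  obtain ⟨f, hf, hp⟩ := chkT4 h (by norm_num) (x := x) (y := y) (z := s) (w := r)
    (by norm_num; linarith only [ua1]) (by norm_num; linarith only [ua2]) (by norm_num; linarith only [ua3]) (by norm_num; linarith only [ua4]) (by norm_num; linarith only [ua5]) (by norm_num; linarith only [ua6]) (by norm_num; linarith only [ua7]) (by norm_num; linarith only [ua8])
  by_contra hc
  push Not at hc
  simp only [List.mem_cons, List.not_mem_nil, or_false] at hf
  rcases hf with rfl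
  · simp only [ZE.x, ZE.y, ZE.s, ZE.r, ZE.h, E.val, NumIs.lkR] at hp
    push_cast at hp
    linarith only [hc, hp]

theorem e4b_pC {x y s r : ℝ} (ua1 : 0 / 10000 ≤ x) (ua2 : x ≤ 300 / 10000) (ua3 : -(168 / 10000) ≤ y) (ua4 : y ≤ 168 / 10000) (ua5 : 0 / 10000 ≤ s) (ua6 : s ≤ 300 / 10000) (ua7 : 0 / 10000 ≤ r) (ua8 : r ≤ 1045 / 10000) :
    3 / 1000 + (-NumUs.uu (x + 225 / 1000) (y + 9 / 10 * r) + -NumUs.uu (x + 775 / 1000) (y - 9 / 10 * r)) < (92 / 1000 + 94 / 100 * r + 2 * Real.pi * r * (9 / 100 + 4 * s * (4 * s - 1))) := by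
  have h : chkT [sub (add (add (q 92 1000) (mul (q 94 100) ZE.r)) (mul (mul (mul (q 2 1) pi) ZE.r) (add (q 9 100) (mul (mul (q 4 1) ZE.s) (sub (mul (q 4 1) ZE.s) (q 1 1)))))) (add (q 3 1000) (add (neg (E.uu (add ZE.x (q 225 1000)) (add ZE.y (mul (q 9 10) ZE.r)))) (neg (E.uu (add ZE.x (q 775 1000)) (sub ZE.y (mul (q 9 10) ZE.r))))))] 60
    8
    [NumIs.V.of 10000 0 300, NumIs.V.of 10000 (-168) 168, NumIs.V.of 10000 0 300, NumIs.V.of 10000 0 1045] = true := by
    decide +kernel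
  obtain ⟨f, hf, hp⟩ := chkT4 h (by norm_num) (x := x) (y := y) (z := s) (w := r)
    (by norm_num; linarith only [ua1]) (by norm_num; linarith only [ua2]) (by norm_num; linarith only [ua3]) (by norm_num; linarith only [ua4]) (by norm_num; linarith only [ua5]) (by norm_num; linarith only [ua6]) (by norm_num; linarith only [ua7]) (by norm_num; linarith only [ua8])
  by_contra hc
  push Not at hc
  simp only [List.mem_cons, List.not_mem_nil, or_false] at hf
  rcases hf with rfl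
  · simp only [ZE.x, ZE.y, ZE.s, ZE.r, ZE.h, E.val, NumIs.lkR] at hp
    push_cast at hp
    linarith only [hc, hp]

theorem e4b_mC {x y s r : ℝ} (ua1 : 0 / 10000 ≤ x) (ua2 : x ≤ 300 / 10000) (ua3 : -(168 / 10000) ≤ y) (ua4 : y ≤ 168 / 10000) (ua5 : 0 / 10000 ≤ s) (ua6 : s ≤ 300 / 10000) (ua7 : 0 / 10000 ≤ r) (ua8 : r ≤ 1045 / 10000) :
    3 / 1000 + (-NumUs.uu (x + 225 / 1000) (y + 9 / 10 * r) + -NumUs.uu (x + 775 / 1000) (y - 9 / 10 * r)) < (92 / 1000 + 94 / 100 * r + 2 * Real.pi * r * (9 / 100 + 4 * s * (5 / 2 - 3 * s))) := by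
  have h : chkT [sub (add (add (q 92 1000) (mul (q 94 100) ZE.r)) (mul (mul (mul (q 2 1) pi) ZE.r) (add (q 9 100) (mul (mul (q 4 1) ZE.s) (sub (q 5 2) (mul (q 3 1) ZE.s)))))) (add (q 3 1000) (add (neg (E.uu (add ZE.x (q 225 1000)) (add ZE.y (mul (q 9 10) ZE.r)))) (neg (E.uu (add ZE.x (q 775 1000)) (sub ZE.y (mul (q 9 10) ZE.r))))))] 60
    2179
    [NumIs.V.of 10000 0 300, NumIs.V.of 10000 (-168) 168, NumIs.V.of 10000 0 300, NumIs.V.of 10000 0 1045] = true := by
    decide +kernel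
  obtain ⟨f, hf, hp⟩ := chkT4 h (by norm_num) (x := x) (y := y) (z := s) (w := r)
    (by norm_num; linarith only [ua1]) (by norm_num; linarith only [ua2]) (by norm_num; linarith only [ua3]) (by norm_num; linarith only [ua4]) (by norm_num; linarith only [ua5]) (by norm_num; linarith only [ua6]) (by norm_num; linarith only [ua7]) (by norm_num; linarith only [ua8])
  by_contra hc
  push Not at hc
  simp only [List.mem_cons, List.not_mem_nil, or_false] at hf
  rcases hf with rfl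
  · simp only [ZE.x, ZE.y, ZE.s, ZE.r, ZE.h, E.val, NumIs.lkR] at hp
    push_cast at hp
    linarith only [hc, hp]

/-- `lnA` at the corner -/
private theorem lnA_6_3 : NumIs.lnA (6 / 100) (3 / 100) ≤ -(86 / 100) := by
  have h : chk [sub (q (-86) 100) (E.lnA (q 6 100) (q 3 100))] 1
      [NumIs.V.of 1 0 0] = true := by decide +kernel
  have hp := pos_of_chk (chk1 h (by norm_num) (x := 0) (by norm_num) (by norm_num))
  simp only [E.val] at hp
  push_cast at hp
  linarith only [hp]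

end

private theorem corner4' {x y s r a b : ℝ} (x0 : 0 ≤ x) (x1 : x ≤ 300 / 10000) (s0 : 0 ≤ s)
    (s1 : s ≤ 300 / 10000) (y1 : |y| ≤ 56 / 100 * x) (r0 : 0 ≤ r) (r1 : r ≤ 1045 / 10000)
    (hab : |(|a| - |b|)| ≤ 2 * (56 / 100 * x)) (ha : |a| ≤ |y| + 4 * (r * s))
    (hb : |b| ≤ |y| + 4 * (r * s)) :
    uu (x + s) a + uu (1 + x - s) b ≤ 3 / 1000 := by
  have h1 : r * s ≤ 1045 / 10000 * (300 / 10000) := mul_le_mul r1 s1 s0 (by norm_num)
  have h := UC.corner (a := a) (b := b) (z0 := 6 / 100) (h0 := 3 / 100) x0 s0 (by linarith only [x1, s1])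
    (by norm_num) (by linarith only [x1, y1, ha, h1]) (by linarith only [x1, y1, hb, h1])
  have hp := Real.pi_pos
  have hp4 := Real.pi_lt_d4
  have h2 : Real.pi / 2 * |(|a| - |b|)| ≤ Real.pi / 2 * (2 * (56 / 100 * x)) :=
    mul_le_mul_of_nonneg_left hab (by positivity)
  have h3 : 2 * x * NumIs.lnA (6 / 100) (3 / 100) ≤ 2 * x * (-(86 / 100)) :=
    mul_le_mul_of_nonneg_left lnA_6_3 (by linarith only [x0])
  nlinarith only [x1, h, h2, h3, x0, hp4]

theorem corner4 {x y s r : ℝ} (x0 : 0 ≤ x) (x1 : x ≤ 300 / 10000) (s0 : 0 ≤ s)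
    (s1 : s ≤ 300 / 10000) (y1 : |y| ≤ 56 / 100 * x) (r0 : 0 ≤ r) (r1 : r ≤ 1045 / 10000) :
    uu (x + s) (y + 4 * (r * s)) + uu (1 + x - s) (y - 4 * (r * s)) ≤ 3 / 1000 := by
  have h0 : 0 ≤ 4 * (r * s) := by positivity
  refine corner4' x0 x1 s0 s1 y1 r0 r1 (abs_diff_le (Or.inl y1)) ?_ ?_
  · have := abs_add_le y (4 * (r * s))
    rwa [abs_of_nonneg h0] at this
  · have := abs_sub y (4 * (r * s))
    rwa [abs_of_nonneg h0] at this

theorem corner4m {x y s r : ℝ} (x0 : 0 ≤ x) (x1 : x ≤ 300 / 10000) (s0 : 0 ≤ s)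
    (s1 : s ≤ 300 / 10000) (y1 : |y| ≤ 56 / 100 * x) (r0 : 0 ≤ r) (r1 : r ≤ 1045 / 10000) :
    uu (x + s) (y - 4 * (r * s)) + uu (1 + x - s) (y + 4 * (r * s)) ≤ 3 / 1000 := by
  have h0 : 0 ≤ 4 * (r * s) := by positivity
  refine corner4' x0 x1 s0 s1 y1 r0 r1 ?_ ?_ ?_
  · rw [abs_sub_comm]
    exact abs_diff_le (Or.inl y1)
  · have := abs_sub y (4 * (r * s))
    rwa [abs_of_nonneg h0] at this
  · have := abs_add_le y (4 * (r * s))
    rwa [abs_of_nonneg h0] at this

end ZD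

end Pool.Agent.Work.MP_b30479_gtS.G2

end
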