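import Pool.Agent.Work.MP_b30479_gt.TBS.G2.RngC
import Pool.Agent.Work.MP_b30479_gt.TBS.G2.CF3E
import Pool.Agent.Work.MP_b30479_gt.TBS.G2.LRB
import Pool.Agent.Work.MP_b30479_gt.TBS.G2.RngP
import Pool.Agent.Work.MP_b30479_gt.TBS.G2.WRngZ
import Pool.Agent.Work.MP_b30479_gt.TBS.G2.WPush2
import Pool.Agent.Work.MP_b30479_gt.TBS.G2.WCap12
import Pool.Agent.Work.MP_b30479_gt.TBS.G2.WLocF
import Pool.Agent.Work.MP_b30479_gt.TBS.G2.DZ3
import Pool.Agent.Work.MP_b30479_gt.TBS.G2.RR4Cc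

section

/-!
# Floors of `1 | ring` and `2 | ring` at a large hinge `1 | 2`: the side of the ring

`sideA`, `sideB`: lower bounds of the side of the ring at slope `0`.
-/

namespace Pool.Agent.Work.MP_b30479_gtS.G2

open VOL NumIs

namespace CF3

open LR

variable {b ρ σ x T s : ℝ} {w w' ζ : ℂ} {k k' : RKe}

/-- the place of the ring variable with the first order conditions -/
inductive Pl (b ρ : ℝ) (w : ℂ) (σ : ℝ) : Prop
  | lo (h : ZF (LT.zt ρ σ)) (h1 : -(205 / 1000) ≤ σ)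
  | hi (h : ZF (LT.zt ρ σ)) (h1 : σ ≤ -(205 / 1000))
      (hF : Dm 0 w (LT.zt ρ σ) ≤ 953 / 100 * Real.sqrt (LT.zt ρ σ).im)
  | ramp (s : ℝ) (e : σ = -(1 / 2) + s) (h : ZR s ρ (LT.zt ρ σ)) (hs : 1 / 4 - 1 / (2 * b) ≤ s)
      (hF : Dm (4 * ρ) w (LT.zt ρ σ) ≤ 4 * Real.pi * ρ * (2 - b * (1 - 4 * s)))

theorem sqrt_bd {D : ℝ} (hη : 0 < ρ) (hb : b ^ 2 * ρ ≤ 23 / 10)
    (hF : -(2 * Real.pi * b * ρ) + D ≤ 0) : D ≤ 953 / 100 * Real.sqrt ρ := by
  have hp := Real.pi_lt_d4
  have hp0 := Real.pi_pos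
  have hr : Real.sqrt ρ ^ 2 = ρ := Real.sq_sqrt hη.le
  have hr0 := Real.sqrt_nonneg ρ
  set r := Real.sqrt ρ with hrd
  rw [← hr] at hF hb
  have h1 : (2 * Real.pi * (b * r)) ^ 2 ≤ (953 / 100) ^ 2 := by
    have e : (2 * Real.pi * (b * r)) ^ 2 = 4 * Real.pi ^ 2 * (b ^ 2 * r ^ 2) := by ring
    have e2 : Real.pi ^ 2 ≤ 3.1416 ^ 2 := pow_le_pow_left₀ hp0.le hp.le 2
    have e3 : 0 ≤ b ^ 2 * r ^ 2 := by positivity
    rw [e]
    have : 4 * Real.pi ^ 2 * (b ^ 2 * r ^ 2) ≤ 4 * 3.1416 ^ 2 * (23 / 10) :=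
      mul_le_mul (by linarith only [e2]) hb e3 (by norm_num)
    refine this.trans (by norm_num)
  have h2 : 2 * Real.pi * (b * r) ≤ 953 / 100 := (abs_le.mp (abs_le_of_sq_le_sq h1 (by norm_num))).2
  have h3 : 2 * Real.pi * b * r ^ 2 = 2 * Real.pi * (b * r) * r := by ring
  have h4 := mul_le_mul_of_nonneg_right h2 hr0
  linarith only [hF, h4]

/-- the hinges of the ring are `≤ .38`, `≤ .40`, `≤ .27` -/
theorem place (h : RM b ρ w w' σ) (hc : RCap b ρ) (hbρ : b ^ 2 * ρ ≤ 23 / 10) (hk : k.ok b w)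
    (hk' : k'.ok b w') (hσ : |σ| < 1 / 2) (h0 : σ ≤ 0) (hx : w.re ≤ 1 / 4)
    (hx1 : k' = .one → w'.re ≤ 38 / 100) (hx2 : w'.re ≤ 40 / 100)
    (hr : k.cp ρ w) (hr' : k'.cp ρ w') : Pl b ρ w σ := by
  have hρ := h.ρ0
  cases h.place hc hk hk' hσ h0 (by linarith only [hx]) hr hr' with
  | flat hz =>
    have hs : -(1 / 4) ≤ σ := by
      have := hz.lo
      rwa [zt_re] at this
    rcases le_or_gt (-(205 / 1000)) σ with h1 | h1
    · exact .lo hz h1
    · refine .hi hz h1.le ?_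
      have key := h.right_flat hs h0 hk.re_nonneg (by linarith only [hx, h1]) hk'.re_nonneg (by linarith only [hx2, h1])
      have h2 := D0_nonneg hk' hc h.b4 hρ hs h1.le hx1 (fun _ => hx2) (fun _ => hx2) hr'
      have e : (LT.zt ρ σ).im = ρ := by
        rw [zt_im, th_of_le (by rw [abs_of_nonpos h0]; linarith only [hs]), mul_one]
      rw [e]
      exact sqrt_bd hρ hbρ (by linarith only [key, h2])
  | pos s e hz hs hF => exact .ramp s e hz hs hF
  | far s e hz hF hx' => linarith only [hx2, hx']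
  | tiny s e h0 h1 hF hx' => linarith only [hx2, h0, h1, hx']

theorem uf_eq' {r : ℝ} (hre : w.re = x) (him : w.im = -T) (hr : r ^ 2 = ζ.im) :
    w + 1 / 2 + ζ = ⟨x + 1 / 2 - -ζ.re, r ^ 2 - T⟩ := by
  apply Complex.ext
  · have h : ((1 : ℂ) / 2).re = 1 / 2 := by norm_num
    simp only [Complex.add_re, h, hre]
    ring
  · have h : ((1 : ℂ) / 2).im = 0 := by norm_num
    simp only [Complex.add_im, h, him, hr]
    ring

theorem vf_eq' {r : ℝ} (hre : w.re = x) (him : w.im = -T) (hr : r ^ 2 = ζ.im) :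
    w + 1 / 2 - ζ = ⟨x + 1 / 2 + -ζ.re, -(r ^ 2 + T)⟩ := by
  apply Complex.ext
  · have h : ((1 : ℂ) / 2).re = 1 / 2 := by norm_num
    simp only [Complex.sub_re, Complex.add_re, h, hre]
    ring
  · have h : ((1 : ℂ) / 2).im = 0 := by norm_num
    simp only [Complex.sub_im, Complex.add_im, h, him, hr]
    ring

theorem S0_fD {r : ℝ} (hre : w.re = x) (him : w.im = -T) (hr : r ^ 2 = ζ.im) (e : ℝ) :
    S4 0 w ζ - e = fD e x T (-ζ.re) r := by
  unfold S4 fD
  rw [uf_eq' hre him hr, vf_eq' hre him hr, LL_lnA' ⟨x + 1 / 2 - -ζ.re, _⟩,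
    LL_lnA' ⟨x + 1 / 2 + -ζ.re, _⟩, LL_lnA' w, hre, him]
  simp only [lnA_neg]
  ring

theorem Dm_fF' {r : ℝ} (hre : w.re = x) (him : w.im = -T) (hr : r ^ 2 = ζ.im) :
    Dm 0 w ζ - 953 / 100 * r = fF x T (-ζ.re) r := by
  unfold Dm Dq fF
  rw [uf_eq' hre him hr, vf_eq' hre him hr, LL_lnA' ⟨x + 1 / 2 - -ζ.re, _⟩,
    LL_lnA' ⟨x + 1 / 2 + -ζ.re, _⟩]
  simp only [lnA_neg]
  ring

/-- one box, first half of the flat part -/
theorem boxL {eX : F → F → F} {e : ℝ → ℝ → ℝ} (he : Ev2 eX e) {l0 h0 l1 h1 c : ℕ}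
    (h : okB 10000 (tL eX) 0 0 0 0 40 l0 h0 l1 h1 0 2050 0 3233 c = true)
    (hre : w.re = x) (him : w.im = -T) (hz : ZF ζ) (hσ : -(205 / 1000) ≤ ζ.re)
    (b0 : (l0 : ℝ) / 10000 ≤ x) (b0' : x ≤ (h0 : ℝ) / 10000)
    (b1 : (l1 : ℝ) / 10000 ≤ T) (b1' : T ≤ (h1 : ℝ) / 10000) : e x T ≤ S4 0 w ζ := by
  have hz2 := hz.hi
  have hr : Real.sqrt ζ.im ^ 2 = ζ.im := Real.sq_sqrt hz.pos.le
  have hr0 := Real.sqrt_nonneg ζ.im
  have hr1 := r_le hz hr
  have h1 : PL e x T (-ζ.re) (Real.sqrt ζ.im) := okB_sound0 (tL_ok he) h b0 b0' b1 b1'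
    (by push_cast; linarith only [hz2]) (by push_cast; linarith only [hσ]) (by push_cast; linarith only [hr0]) (by push_cast; linarith only [hr1])
  unfold PL at h1
  rw [← S0_fD hre him hr] at h1
  linarith only [h1]

/-- one box, second half of the flat part -/
theorem boxC {eX : F → F → F} {e : ℝ → ℝ → ℝ} (he : Ev2 eX e) {l0 h0 l1 h1 c : ℕ}
    (h : okB 10000 (tC eX) 0 0 0 0 40 l0 h0 l1 h1 2050 2500 0 3233 c = true)
    (hre : w.re = x) (him : w.im = -T) (hz : ZF ζ) (hσ : ζ.re ≤ -(205 / 1000))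
    (b0 : (l0 : ℝ) / 10000 ≤ x) (b0' : x ≤ (h0 : ℝ) / 10000)
    (b1 : (l1 : ℝ) / 10000 ≤ T) (b1' : T ≤ (h1 : ℝ) / 10000)
    (hF : Dm 0 w ζ ≤ 953 / 100 * Real.sqrt ζ.im) : e x T ≤ S4 0 w ζ := by
  have hz1 := hz.lo
  have hr : Real.sqrt ζ.im ^ 2 = ζ.im := Real.sq_sqrt hz.pos.le
  have hr0 := Real.sqrt_nonneg ζ.im
  have hr1 := r_le hz hr
  have h1 : PC e x T (-ζ.re) (Real.sqrt ζ.im) := okB_sound0 (tC_ok he) h b0 b0' b1 b1'
    (by push_cast; linarith only [hσ]) (by push_cast; linarith only [hz1]) (by push_cast; linarith only [hr0]) (by push_cast; linarith only [hr1])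
  have h2 := h1 (by rw [← Dm_fF' hre him hr]; linarith only [hF])
  rw [← S0_fD hre him hr] at h2
  linarith only [h2]

/-- one box on the ramp -/
theorem boxR {eX : F → F → F} {e : ℝ → ℝ → ℝ} {rS : F → F} {r : ℝ → ℝ} (he : Ev2 eX e)
    (hr : Ev rS r) {l0 h0 l1 h1 l2 h3 c : ℕ}
    (h : okB 10000 (tR eX rS) 0 0 0 0 40 l0 h0 l1 h1 l2 2500 0 h3 c = true)
    (hre : w.re = x) (him : w.im = -T) (hx0 : 0 < x) (hx : x < 1 / 4) (hT : 0 < T) (hz : ZR s ρ ζ)
    (b0 : (l0 : ℝ) / 10000 ≤ x) (b0' : x ≤ (h0 : ℝ) / 10000)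
    (b1 : (l1 : ℝ) / 10000 ≤ T) (b1' : T ≤ (h1 : ℝ) / 10000)
    (b2 : (l2 : ℝ) / 10000 ≤ s) (b3 : ρ ≤ (h3 : ℝ) / 10000)
    (hF : Dm (4 * ρ) w ζ ≤ 4 * ρ * (Real.pi * r s)) : e x T ≤ S4 0 w ζ := by
  have hW : W x (-(T / x)) w := ⟨hre, by rw [him]; field_simp, hx0⟩
  have hm : -(T / x) < 0 := by
    have := div_pos hT hx0
    linarith only [this]
  have hz2 := hz.hi
  have hz3 := hz.pos
  have h1 : PR e r x T s ρ := okB_sound0 (tR_ok he hr) h b0 b0' b1 b1'
    b2 (by push_cast; linarith only [hz2]) (by push_cast; linarith only [hz3]) b3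
  have hD := LR.dom hW hz hx hm
  rw [neg_neg] at hD
  have hF' := Dm_rF hW hz hx (r s) 0
  rw [neg_neg] at hF'
  have h2 := h1 hD (by rw [← hF']; linarith only [hF])
  have ex : T / x * x = T := div_mul_cancel₀ _ hx0.ne'
  have e1 : S4 0 w ζ - e x T = rD0 (e x T) x T s ρ := by
    unfold S4 rD0
    rw [u_eq hW hz, v_eq hW hz, LL_lnA' ⟨x + s, _⟩, LL_lnA' w, hre, him]
    simp only [neg_neg, lnA_neg, ex]
    unfold vA
    ring
  rw [← e1] at h2
  linarith only [h2]

/-- the bound of the first order condition on the ramp -/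
theorem FR {D a : ℝ} (hρ : 0 < ρ) (hs : s ≤ 1 / 4) (hb : a ≤ b)
    (hF : D ≤ 4 * Real.pi * ρ * (2 - b * (1 - 4 * s))) :
    D ≤ 4 * ρ * (Real.pi * (4 * a * s - (a - 2))) := by
  have hpi := Real.pi_pos
  refine hF.trans ?_
  have e : 4 * ρ * (Real.pi * (4 * a * s - (a - 2))) = 4 * Real.pi * ρ * (2 - a * (1 - 4 * s)) := by
    ring
  rw [e]
  apply mul_le_mul_of_nonneg_left _ (by positivity)
  nlinarith only [hs, hb]

theorem s_ge {a c : ℝ} (ha : 0 < a) (hb : a ≤ b) (hs : 1 / 4 - 1 / (2 * b) ≤ s)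
    (hc : c = 1 / 4 - 1 / (2 * a)) : c ≤ s := by
  rw [hc]
  have : 1 / (2 * b) ≤ 1 / (2 * a) := one_div_le_one_div_of_le (by linarith only [ha]) (by linarith only [hb])
  linarith only [hs, this]

/-- **The side of the ring at a hinge `1 | ring`** -/
theorem sideA (P : Pl b ρ w σ) (hb : 4 ≤ b) (hc : RCap b ρ) (hre : w.re = x) (him : w.im = -T)
    (x0 : 16 / 100 ≤ x) (x1 : x ≤ 228 / 1000) (t0 : 63 / 1000 ≤ T) (t1 : T ≤ 145 / 1000)
    (t4 : b < 5 → T ≤ 128 / 1000) : eA x T ≤ S4 0 w (LT.zt ρ σ) := by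
  cases P with
  | lo h h1 =>
    exact boxL ev_fA caL hre him h (by rw [zt_re]; exact h1) (by push_cast; linarith only [x0])
      (by push_cast; linarith only [x1]) (by push_cast; linarith only [t0]) (by push_cast; linarith only [t1])
  | hi h h1 hF =>
    exact boxC ev_fA caC hre him h (by rw [zt_re]; exact h1) (by push_cast; linarith only [x0])
      (by push_cast; linarith only [x1]) (by push_cast; linarith only [t0]) (by push_cast; linarith only [t1]) hF
  | ramp s e h hs hF =>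
    have hs1 := h.hi
    rcases lt_or_ge b 5 with h5 | h5
    · have hs2 := s_ge (c := 1 / 8) (by norm_num) hb hs (by norm_num)
      exact boxR ev_fA ev_r4s caR4 hre him (by linarith only [x0]) (by linarith only [x1]) (by linarith only [t0]) h
        (by push_cast; linarith only [x0]) (by push_cast; linarith only [x1]) (by push_cast; linarith only [t0])
        (by push_cast; linarith only [t4, h5, t4 h5]) (by push_cast; linarith only [hs2]) (by push_cast; linarith only [hc, hc.1])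
        (FR h.pos hs1 hb hF)
    · have hs2 := s_ge (c := 15 / 100) (by norm_num) h5 hs (by norm_num)
      exact boxR ev_fA ev_r5s caR5 hre him (by linarith only [x0]) (by linarith only [x1]) (by linarith only [t0]) h
        (by push_cast; linarith only [x0]) (by push_cast; linarith only [x1]) (by push_cast; linarith only [t0])
        (by push_cast; linarith only [t1]) (by push_cast; linarith only [hs2]) (by push_cast; linarith only [hc, h5, hc.2.1 h5])
        (FR h.pos hs1 h5 hF)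

/-- **The side of the ring at a hinge `2 | ring`** -/
theorem sideB1 (P : Pl b ρ w σ) (hb : 4 ≤ b) (hc : RCap b ρ) (hre : w.re = x) (him : w.im = -T)
    (x0 : 125 / 1000 ≤ x) (x1 : x ≤ 145 / 1000) (t0 : 10 / 1000 ≤ T) (t1 : T ≤ 96 / 1000) :
    35 / 100 ≤ S4 0 w (LT.zt ρ σ) := by
  cases P with
  | lo h h1 =>
    exact boxL (e := fun _ _ => 35 / 100) (x := x) (T := T) ev_fK cbL1 hre him h (by rw [zt_re]; exact h1) (by push_cast; linarith only [x0])
      (by push_cast; linarith only [x1]) (by push_cast; linarith only [t0]) (by push_cast; linarith only [t1])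
  | hi h h1 hF =>
    exact boxC (e := fun _ _ => 35 / 100) (x := x) (T := T) ev_fK cbC1 hre him h (by rw [zt_re]; exact h1) (by push_cast; linarith only [x0])
      (by push_cast; linarith only [x1]) (by push_cast; linarith only [t0]) (by push_cast; linarith only [t1]) hF
  | ramp s e h hs hF =>
    have hs1 := h.hi
    rcases lt_or_ge b 5 with h5 | h5
    · have hs2 := s_ge (c := 1 / 8) (by norm_num) hb hs (by norm_num)
      exact boxR (e := fun _ _ => 35 / 100) (x := x) (T := T) ev_fK ev_r4s cbR41 hre him (by linarith only [x0]) (by linarith only [x1]) (by linarith only [t0]) h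
        (by push_cast; linarith only [x0]) (by push_cast; linarith only [x1]) (by push_cast; linarith only [t0])
        (by push_cast; linarith only [t1]) (by push_cast; linarith only [hs2]) (by push_cast; linarith only [hc, hc.1])
        (FR h.pos hs1 hb hF)
    · have hs2 := s_ge (c := 15 / 100) (by norm_num) h5 hs (by norm_num)
      exact boxR (e := fun _ _ => 35 / 100) (x := x) (T := T) ev_fK ev_r5s cbR51 hre him (by linarith only [x0]) (by linarith only [x1]) (by linarith only [t0]) h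
        (by push_cast; linarith only [x0]) (by push_cast; linarith only [x1]) (by push_cast; linarith only [t0])
        (by push_cast; linarith only [t1]) (by push_cast; linarith only [hs2]) (by push_cast; linarith only [hc, h5, hc.2.1 h5])
        (FR h.pos hs1 h5 hF)

theorem sideB2 (P : Pl b ρ w σ) (hb : 4 ≤ b) (hc : RCap b ρ) (hre : w.re = x) (him : w.im = -T)
    (x0 : 145 / 1000 ≤ x) (x1 : x ≤ 165 / 1000) (t0 : 10 / 1000 ≤ T) (t1 : T ≤ 96 / 1000) :
    eB x T ≤ S4 0 w (LT.zt ρ σ) := by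
  cases P with
  | lo h h1 =>
    exact boxL ev_fB cbL2 hre him h (by rw [zt_re]; exact h1) (by push_cast; linarith only [x0])
      (by push_cast; linarith only [x1]) (by push_cast; linarith only [t0]) (by push_cast; linarith only [t1])
  | hi h h1 hF =>
    exact boxC ev_fB cbC2 hre him h (by rw [zt_re]; exact h1) (by push_cast; linarith only [x0])
      (by push_cast; linarith only [x1]) (by push_cast; linarith only [t0]) (by push_cast; linarith only [t1]) hF
  | ramp s e h hs hF =>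
    have hs1 := h.hi
    rcases lt_or_ge b 5 with h5 | h5
    · have hs2 := s_ge (c := 1 / 8) (by norm_num) hb hs (by norm_num)
      exact boxR ev_fB ev_r4s cbR42 hre him (by linarith only [x0]) (by linarith only [x1]) (by linarith only [t0]) h
        (by push_cast; linarith only [x0]) (by push_cast; linarith only [x1]) (by push_cast; linarith only [t0])
        (by push_cast; linarith only [t1]) (by push_cast; linarith only [hs2]) (by push_cast; linarith only [hc, hc.1])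
        (FR h.pos hs1 hb hF)
    · have hs2 := s_ge (c := 15 / 100) (by norm_num) h5 hs (by norm_num)
      exact boxR ev_fB ev_r5s cbR52 hre him (by linarith only [x0]) (by linarith only [x1]) (by linarith only [t0]) h
        (by push_cast; linarith only [x0]) (by push_cast; linarith only [x1]) (by push_cast; linarith only [t0])
        (by push_cast; linarith only [t1]) (by push_cast; linarith only [hs2]) (by push_cast; linarith only [hc, h5, hc.2.1 h5])
        (FR h.pos hs1 h5 hF)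

/-- `b ^ 2 ρ ≤ 2.3` -/
theorem rcap_sq {n : ℕ} (h4 : 4 ≤ n) (hρ : 0 ≤ ρ) (h : RCap (n : ℝ) ρ) :
    (n : ℝ) ^ 2 * ρ ≤ 23 / 10 := by
  obtain ⟨c4, c5, c6, c7, c8⟩ := h
  rcases (show n = 4 ∨ n = 5 ∨ n = 6 ∨ n = 7 ∨ 8 ≤ n by omega) with e | e | e | e | e
  · subst e
    norm_num
    linarith only [c4]
  · subst e
    have := c5 (by norm_num)
    norm_num
    linarith only [this]
  · subst e
    have := c6 (by norm_num)
    norm_num
    linarith only [this]
  · subst e
    have := c7 (by norm_num)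
    norm_num
    linarith only [this]
  · exact c8 (by exact_mod_cast e)

end CF3

end Pool.Agent.Work.MP_b30479_gtS.G2

end

section

/-!
# Floors of `1 | ring` and `2 | ring` at a hinge `1 | 2` in `[.495, .51]`

The third round of the caps of `1 | 2` (`SR.cap12c`) uses these floors: `cf3_one` is its hypothesis
`hZ1`, `cf3_two` its hypothesis `h2Z`.
-/

set_option linter.unusedSimpArgs false

namespace Pool.Agent.Work.MP_b30479_gtS.G2

open Finset VOL Filter Topology

namespace SR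

variable {M : ℕ} {b : Fin (M + 1) → ℤ} {zs : DD (tyW b) ⊕ ZZ (tyW b) → ℂ}
variable {y : DD (tyW b) ⊕ ZZ (tyW b) → ℝ}
variable {h h' h2 : Fin M} {i j j' j2 : Fin (M + 1)} {p : Fin 3}

/-- the height on the flat part -/
theorem cf3_im (A : Adj h i p j) (hy : Mx b zs y) (h0 : wcl b h ≤ y (.inl (.inl h)))
    (h1 : y (.inl (.inl h)) ≤ wXM b h - wcr b h) :
    (Yw b zs y i p).im = ofs (b i) (zs (.inl (.inl h))).im := by
  rw [(A.rh hy).im, A.re, tr_b (wcl_pos h) (wcr_pos h) h0 h1, mul_one]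

/-- parameters of the path of a hinge `1 | 2` -/
theorem cf3_par12 (A : Adj h i p j) (hi : clsW b i = .one) (hj : clsW b j = .two) :
    wcl b h = 16 / 100 ∧ wcr b h = 29 / 100 ∧ wXM b h = 80 / 100 := by
  have hpar : ∀ P Q, SR.hpp p P .one .two Q = ⟨80 / 100, 16 / 100, 29 / 100⟩ := by
    intro P Q
    unfold SR.hpp hp hp1
    split_ifs <;> rfl
  exact ⟨by rw [A.cl_eq b, hi, hj, hpar], by rw [A.cr_eq b, hi, hj, hpar],
    by rw [A.XM_eq b, hi, hj, hpar]⟩

theorem cf3_par1Z (A : Adj h i p j) (hi : clsW b i = .one) (hj : clsW b j = .ring) :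
    wcl b h = 16 / 100 := by
  have hpar : ∀ P Q, (SR.hpp p P .one .ring Q).cl = 16 / 100 := by
    intro P Q
    unfold SR.hpp hp hp1
    split_ifs <;> rfl
  rw [A.cl_eq b, hi, hj, hpar]

/-- the ring of a hinge: the place of its variable -/
theorem cf3_place (A : Adj h i p j) (hb : ClassW b) (hL : Loc b zs) (hX : LocX b zs)
    (hR : LocR b zs) (hy : Mx b zs y) (hc : clsW b i = .ring) (hx : y (.inl (.inl h)) ≤ 1 / 4)
    (hZ : ∀ {h1 : Fin M} {j1 : Fin (M + 1)}, Adj h1 i p.rev j1 → y (.inl (.inl h1)) ≤ 38 / 100) :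
    ∃ ρ σ : ℝ, 4 ≤ ((b i).natAbs : ℝ) ∧ RCap ((b i).natAbs : ℝ) ρ ∧
      CF3.Pl ((b i).natAbs : ℝ) ρ (Yw b zs y i p) σ ∧ Zw b zs y i = LT.zt ρ σ := by
  obtain ⟨v, rfl, k', P⟩ := A.rpk hb hL hX hR hy hc
  have hw' : (Yw b zs y v.1 p.rev).re ≤ 38 / 100 := by
    rcases A.other b zs y with ⟨-, h0⟩ | ⟨-, h', j', A'⟩
    · rw [h0]
      norm_num
    · rw [A'.re]
      exact hZ A'
  have h4 : 4 ≤ (b v.1).natAbs := by exact_mod_cast P.rm.b4
  exact ⟨_, _, P.rm.b4, P.cap, CF3.place P.rm P.cap (CF3.rcap_sq h4 P.rm.ρ0.le P.cap) P.ok P.ok'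
    P.lt P.le (by rw [A.re]; exact hx) (fun _ => hw') (hw'.trans (by norm_num)) P.cp P.cp', P.z⟩

/-- **Floor of `1 | ring` at a hinge `1 | 2` in `[.495, .51]`.** -/
theorem cf3_one (hb : ClassW b) (hL : Loc b zs) (hX : LocX b zs) (hR : LocR b zs)
    (hy : Mx b zs y) (A : Adj h i p j) (A' : Adj h' i p.rev j') (hi : clsW b i = .one)
    (hj : clsW b j = .two) (hj' : clsW b j' = .ring)
    (hfl : wcl b h' ≤ y (.inl (.inl h')))
    (hZ : ∀ {h1 : Fin M} {j1 : Fin (M + 1)}, Adj h1 j' p.rev j1 → y (.inl (.inl h1)) ≤ 38 / 100)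
    (h495 : 495 / 1000 ≤ y (.inl (.inl h))) (h51 : y (.inl (.inl h)) ≤ 51 / 100) :
    182 / 1000 + 3 / 10 * ofs (b i) (zs (.inl (.inl h))).im +
      2 / 10 * ofs (b i) (zs (.inl (.inl h'))).im ≤ y (.inl (.inl h')) := by
  by_contra hcon
  have hlt := not_le.1 hcon
  have hpp : p.rev.rev = p := Fin.rev_rev p
  have A2 : Adj h i p.rev.rev j := by rw [hpp]; exact A
  obtain ⟨a0, a1, a2, a3⟩ := hX.win A A' hi
  obtain ⟨b0, b1, -, -⟩ := hX.win A' A2 hi
  rw [hj, hj'] at a0 a1 a2 a3 b0 b1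
  simp only [cw] at a0 a1 a2 a3 b0 b1
  obtain ⟨c1, c2, c3⟩ := cf3_par12 (b := b) A hi hj
  have c4 := cf3_par1Z (b := b) A' hi hj'
  have c5 := A'.fe_low hi
  have hop := A'.opp hb (Or.inl (by rw [hi]; decide))
  set x := y (.inl (.inl h')) with hx
  set X := y (.inl (.inl h)) with hXd
  set T := ofs (b i) (zs (.inl (.inl h'))).im with hT
  set K := ofs (b i) (zs (.inl (.inl h))).im with hK
  have x0 : 16 / 100 ≤ x := by rw [c4] at hfl; exact hfl
  have x1 : x ≤ 228 / 1000 := by linarith only [a1, a3, hcon]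
  have him := cf3_im A hy (by rw [c1]; linarith only [h495]) (by rw [c2, c3]; linarith only [h51])
  have him' := cf3_im A' hy hfl (by linarith only [c5, b1, a1, hcon])
  have hre := A.re (zs := zs) (y := y)
  have hre' := A'.re (zs := zs) (y := y)
  have hc := A'.conj (zs := zs) (y := y) hop
  have e1 : Sw b zs y i p.rev 0 = MR.s1 0 x T X K := by
    rw [A'.side_one hb hi, hpp, ofs_zero', MR.S1_eq, him', hre', him, hre]
    · constructor <;> rw [hre'] <;> linarith only [c4, hfl, b1, a1, hcon]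
    · constructor <;> rw [Complex.add_re, hre, hre'] <;> linarith only [c4, hfl, h495, h51, b1, a1, hcon]
  have hw1 : (Yw b zs y j' p).re = x := by
    rw [hpp] at hc
    rw [hc, Complex.conj_re, hre']
  have hw2 : (Yw b zs y j' p).im = -T := by
    rw [hpp] at hc
    rw [hc, Complex.conj_im, him']
  have B : Adj h' j' p i := by
    have := A'.symm
    rwa [hpp] at this
  obtain ⟨ρ, σ, h4, hcp, hP, hz⟩ := cf3_place B hb hL hX hR hy hj' (by rw [← hx]; linarith only [b1, a1, hcon]) hZ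
  have e2 : CF3.eA x T ≤ Sw b zs y j' p 0 := by
    rw [B.side_ring hb hj', ofs_zero', hz]
    refine CF3.sideA hP h4 hcp hw1 hw2 x0 x1 (by linarith only [b0]) (by linarith only [b1]) fun h5 => ?_
    have h6 : (b j').natAbs < 5 := by exact_mod_cast h5
    have h7 : 4 ≤ (b j').natAbs := by exact_mod_cast h4
    exact hX.one4 A' hi hj' (by omega)
  have e3 := CF3.rowA (x := x) (T := T) (K := K) (X := X) x0 (by linarith only [hcon]) (by linarith only [b0])
    (by linarith only [b1]) (by linarith only [a0]) (by linarith only [a1]) (by linarith only [a2]) (by linarith only [a3]) h495 h51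
  refine A'.flat_left hy hfl (by linarith only [c5, b1, a1, hcon]) ?_
  rw [e1, hpp]
  unfold MR.s1
  linarith only [e2, e3]

/-- **Floors of `2 | ring` at a hinge `1 | 2` in `[.495, .51]`.** -/
theorem cf3_two (hb : ClassW b) (hL : Loc b zs) (hX : LocX b zs) (hR : LocR b zs)
    (hy : Mx b zs y) (A : Adj h i p j) (B : Adj h2 j p j2) (hi : clsW b i = .one)
    (hj : clsW b j = .two) (hj2 : clsW b j2 = .ring)
    (hfl : wcl b h2 ≤ y (.inl (.inl h2)))
    (hZ : ∀ {h1 : Fin M} {j1 : Fin (M + 1)}, Adj h1 j2 p j1 → y (.inl (.inl h1)) ≤ 38 / 100)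
    (h495 : 495 / 1000 ≤ y (.inl (.inl h))) (h51 : y (.inl (.inl h)) ≤ 51 / 100) :
    155 / 1000 ≤ y (.inl (.inl h2)) ∧
      (ofs (b i) (zs (.inl (.inl h))).im ≤ 80 / 1000 →
        ofs (b j) (zs (.inl (.inl h2))).im ≤ 75 / 1000 → 165 / 1000 ≤ y (.inl (.inl h2))) := by
  have hpp : p.rev.rev = p := Fin.rev_rev p
  have hop := A.opp hb (Or.inl (by rw [hi]; decide))
  obtain ⟨-, -, a0, a1⟩ := A.box hb hL
  rw [hi, hj, A.ss hop] at a0 a1
  have hopB := B.opp hb (Or.inl (by rw [hj]; decide))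
  obtain ⟨-, -, b0, b1⟩ := B.box hb hL
  rw [hj, hj2, B.ss hopB] at b0 b1
  simp only [hbox] at a0 a1 b0 b1
  obtain ⟨c1, c2, c3⟩ := cf3_par12 (b := b) A hi hj
  obtain ⟨c4, c5, c6⟩ := B.par_two_ring (b := b) (Or.inl hj) hj2
  set x := y (.inl (.inl h2)) with hx
  set X := y (.inl (.inl h)) with hXd
  set T := ofs (b j) (zs (.inl (.inl h2))).im with hT
  set K := ofs (b i) (zs (.inl (.inl h))).im with hK
  have x0 : 125 / 1000 ≤ x := by rw [c6] at hfl; exact hfl
  have A1 := A.symm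
  have hKj : ofs (b j) (zs (.inl (.inl h))).im = -K := by rw [ofs_opp hop]
  have him := cf3_im A1 hy (by rw [c1]; linarith only [h495]) (by rw [c2, c3]; linarith only [h51])
  rw [hKj] at him
  have hre := A1.re (zs := zs) (y := y)
  have hre' := B.re (zs := zs) (y := y)
  have hc := B.conj (zs := zs) (y := y) hopB
  -- both sides
  have key : x ≤ 165 / 1000 →
      (0 < NumIs.lnA (x + X) (T - K) - (Real.pi * (K + T) + (NumIs.lnA x T + NumIs.lnA x T)) + 35 / 100 ∧
        x ≤ 145 / 1000 ∨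
      0 < NumIs.lnA (x + X) (T - K) - (Real.pi * (K + T) + (NumIs.lnA x T + NumIs.lnA x T)) + CF3.eB x T ∧
        145 / 1000 ≤ x) → False := by
    intro x1 hrow
    have him' := cf3_im B hy hfl (by rw [c4, c5]; linarith only [x1])
    have e1 : Sw b zs y j p 0 = MR.s2 0 x T X (-K) := by
      rw [B.side_two hb (Or.inl hj), ofs_zero', MR.S2_eq, him', hre', him, hre]
      · constructor <;> rw [hre'] <;> linarith only [c6, hfl, x1]
      · constructor <;> rw [Complex.add_re, hre, hre'] <;> linarith only [c6, hfl, h495, h51, x1]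
    have hw1 : (Yw b zs y j2 p.rev).re = x := by rw [hc, Complex.conj_re, hre']
    have hw2 : (Yw b zs y j2 p.rev).im = -T := by rw [hc, Complex.conj_im, him']
    obtain ⟨ρ, σ, h4, hcp, hP, hz⟩ := cf3_place B.symm hb hL hX hR hy hj2
      (by rw [← hx]; linarith only [x1]) (by rw [hpp]; exact hZ)
    have e2 : Sw b zs y j2 p.rev 0 = S4 0 (Yw b zs y j2 p.rev) (LT.zt ρ σ) := by
      rw [B.symm.side_ring hb hj2, ofs_zero', hz]
    refine B.flat_left hy hfl (by rw [c4, c5]; linarith only [x1]) ?_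
    rw [e1, e2]
    unfold MR.s2
    rw [show T + -K = T - K by ring]
    rcases hrow with ⟨h1, h2⟩ | ⟨h1, h2⟩
    · have := CF3.sideB1 hP h4 hcp hw1 hw2 x0 h2 b0 b1
      linarith only [h1, this]
    · have := CF3.sideB2 hP h4 hcp hw1 hw2 h2 x1 b0 b1
      linarith only [h1, this]
  have m1 : ¬ x ≤ 145 / 1000 := fun h1 => key (by linarith only [h1]) (Or.inl
    ⟨CF3.rowB1 x0 h1 b0 b1 a0 a1 h495 h51, h1⟩)
  have m2 : 155 / 1000 ≤ x := by
    by_contra hcon
    have h1 := not_le.1 hcon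
    exact key (by linarith only [hcon]) (Or.inr ⟨CF3.rowB2 (not_le.1 m1).le h1.le b0 b1 a0 a1 h495 h51,
      (not_le.1 m1).le⟩)
  refine ⟨m2, fun hK8 hT7 => ?_⟩
  by_contra hcon
  have h1 := not_le.1 hcon
  exact key h1.le (Or.inr ⟨CF3.rowB3 m2 h1.le b0 hT7 a0 hK8 h495 h51, by linarith only [m2]⟩)

end SR

end Pool.Agent.Work.MP_b30479_gtS.G2

end

section

/-!
# Cap `.495` of the hinges `1 | 2`, with the floors of the hinges of the neighbouring rings
-/

namespace Pool.Agent.Work.MP_b30479_gtS.G2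

open Finset VOL Filter Topology

namespace SR

variable {M : ℕ} {b : Fin (M + 1) → ℤ} {zs : DD (tyW b) ⊕ ZZ (tyW b) → ℂ}
variable {y : DD (tyW b) ⊕ ZZ (tyW b) → ℝ}
variable {h h' : Fin M} {i j j' : Fin (M + 1)} {p : Fin 3}

/-- **Third round of the caps of the hinges `1 | 2`.**  `hZ`: the hinges of the rings are `≤ .38`;
`h16`: the hinges `1 | ring` are on the flat part. -/
theorem cap12_R3 (hb : ClassW b) (hL : Loc b zs) (hX : LocX b zs) (hR : LocR b zs)
    (hT : LocRt b zs) (hy : Mx b zs y) (hF : Flr b y F2) (hS : Sum1 b y (95 / 100))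
    (hC : ∀ {h : Fin M} {i j : Fin (M + 1)} {p : Fin 3}, Adj h i p j → clsW b i = .two →
      y (.inl (.inl h)) ≤ if clsW b j = .one then 56 / 100 else 36 / 100)
    (hZ : ∀ {h : Fin M} {i j : Fin (M + 1)} {p : Fin 3}, Adj h i p j → clsW b i = .ring →
      y (.inl (.inl h)) ≤ 38 / 100)
    (h16 : ∀ {h : Fin M} {i j : Fin (M + 1)} {p : Fin 3}, Adj h i p j → clsW b i = .one →
      clsW b j = .ring → 16 / 100 ≤ y (.inl (.inl h)))
    (A : Adj h i p j) (A' : Adj h' i p.rev j') (hi : clsW b i = .one) (hj : clsW b j = .two)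
    (h51 : y (.inl (.inl h)) ≤ 51 / 100)
    (h11 : clsW b j' = .one → y (.inl (.inl h')) ≤ 70 / 100) :
    y (.inl (.inl h)) ≤ 495 / 1000 := by
  have h21 : clsW b j' = .ring → ∀ {h2 : Fin M} {j2 : Fin (M + 1)}, Adj h2 j p j2 →
      clsW b j2 = .ring → ofs (b j) (zs (.inl (.inl h2))).im ≤ 60 / 1000 :=
    fun hr h2 j2 B hj2 => hT.twoZ B A.symm A' hj hj2 hi hr
  refine cap12c hb hL hX hy hF hS hC A A' hi hj h51 h11 (fun h495 hr => ?_)
    (fun h495 h2 j2 B hj2 => ?_) h21
  · exact cf3_one hb hL hX hR hy A A' hi hj hr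
      (by rw [cf3_par1Z A' hi hr]; exact h16 A' hi hr) (fun A1 => hZ A1 hr) h495 h51
  · have hfl : wcl b h2 ≤ y (.inl (.inl h2)) := by
      rw [(B.par_two_ring (Or.inl hj) hj2).2.2]
      have := hF B
      rw [hj, hj2] at this
      simpa only [F2] using this
    obtain ⟨k1, k2⟩ := cf3_two hb hL hX hR hy A B hi hj hj2 hfl (fun A1 => hZ A1 hj2) h495 h51
    refine ⟨k1, fun hr => k2 ?_ ?_⟩
    · obtain ⟨-, a1, -, -⟩ := hX.win A A' hi
      rw [hj, hr] at a1
      simp only [cw] at a1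
      exact a1
    · have := h21 hr B hj2
      linarith

end SR

end Pool.Agent.Work.MP_b30479_gtS.G2

end

section

/-!
# The cap `.36` of the hinges `1 | ring`
-/

namespace Pool.Agent.Work.MP_b30479_gtS.G2

open Finset VOL Filter Topology NumIs

namespace SR

variable {M : ℕ} {b : Fin (M + 1) → ℤ} {zs : DD (tyW b) ⊕ ZZ (tyW b) → ℂ}
variable {y : DD (tyW b) ⊕ ZZ (tyW b) → ℝ}
variable {h h' : Fin M} {i j j' : Fin (M + 1)} {p : Fin 3}

/-- the side of the ring at a hinge `1 | ring` on its right ramp: it beats the side of the digit -/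
theorem Adj.ring_row (A : Adj h i p j) (A' : Adj h' i p.rev j') (hb : ClassW b) (hL : Loc b zs)
    (hX : LocX b zs) (hR : LocR b zs) (hG : LocRg b zs) (hy : Mx b zs y)
    (hc : clsW b i = .one) (hj : clsW b j = .ring)
    (hx : 36 / 100 < y (.inl (.inl h)))
    (hcap : y (.inl (.inl h)) ≤ 1 / 2 →
      ∀ {h' j'}, Adj h' j p.rev.rev j' → y (.inl (.inl h')) ≤ 1 / 2)
    {T D : ℝ} (hT : ofs (b i) (zs (.inl (.inl h))).im = T) (h1 : 38 / 1000 ≤ T)
    (h2 : T ≤ 158 / 1000) {fa fb : Prop} (hres : DZ.Res fa fb (y (.inl (.inl h))) T D)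
    (hab : T ≤ 128 / 1000 → fa ∨ (fb ∧ 58 / 1000 ≤ T ∧ (clsW b j' = .one ∨ clsW b j' = .two))) :
    D + Sw b zs y j p.rev (slL b zs y h) < 0 := by
  have hop := A.opp hb (Or.inl (by rw [hc]; decide))
  obtain ⟨hXM, hl, hr⟩ := A.par_one_ring hc hj
  have hTj : ofs (b j) (zs (.inl (.inl h))).im = -T := by rw [ofs_opp hop, hT]
  have hrh := A.symm.rh hy
  rw [hXM, hl, hr, hTj] at hrh
  have him := MR.RH_right hrh (by norm_num) (by norm_num) (by norm_num)
    (by rw [A.symm.re]; linarith only [hx])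
  have hM := hrh.reM
  rw [A.symm.re] at him hM
  have hW : RZ1.W (y (.inl (.inl h))) (T / (29 / 100)) (Yw b zs y j p.rev) := by
    refine ⟨A.symm.re .., ?_, hM⟩
    rw [him]
    ring
  rw [A.symm.side_ring hb hj, ofs_slL_ramp _ (by rw [hXM, hr]; linarith only [hx]), hr, hTj, neg_div,
    neg_neg]
  obtain ⟨v, hv, c1, c2, c3⟩ := A.symm.ring_ns hb hL hX hR hy hj
  have n4 : 4 ≤ (b j).natAbs := ring_four hb (tyW_of_ring hb hj)
  have hρ := c1.1
  rcases le_or_gt (y (.inl (.inl h))) (1 / 2) with hx5 | hx5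
  · -- `x ≤ 1/2`
    rcases eq_or_lt_of_le n4 with h4 | h5
    · -- four crossings
      have hT4 : T ≤ 128 / 1000 := by rw [← hT]; exact hX.one4 A hc hj h4.symm
      have e4 : ((b j).natAbs : ℝ) = 4 := by rw [← h4]; norm_num
      have hs4 : (1 : ℝ) / 8 ≤ 1 / 4 - 1 / (2 * ((b j).natAbs : ℝ)) := by rw [e4]; norm_num
      rcases hab hT4 with ha | ⟨hb', hT5, hP⟩
      · have hD := hres.a ha hx5
        rcases c3 with hz | ⟨s, hz, hfm⟩
        · linarith only [hD, hW, hz, hx, hx5, h1, hT4, hρ, RZ1.a_flat hW hz hx.le hx5 h1 hT4 hρ]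
        · obtain ⟨g1, g2⟩ := hfm (hcap hx5) hx5
          rw [e4] at g2
          linarith only [hD, hW, hz, hx, hx5, h1, hT4, hρ, hs4, g1, g2, RZ1.a_ramp hW hz hx.le hx5 h1 hT4 hρ (hs4.trans g1) g2]
      · have hD := hres.b hb' hx5
        obtain ⟨W, hW1, hW2⟩ := hG.one v hv A A' hc (Or.inl h4.symm)
        have q1 := hW2.q1
        rw [ofr_im, ofz_im, hTj] at q1
        have hq : (zs (.inr v)).im ≤ 85 / 1000 ∧ (zs (.inr v)).im + T ≤ 1665 / 10000 := by
          rw [← h4] at hW1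
          cases he : isEnd j
          · refine ⟨(hG.kr v hv A A' hc h4.symm he).1, ?_⟩
            rw [he] at hW1
            rcases hP with hP | hP <;> rw [hP] at hW1 <;>
              simp only [rw1, List.mem_cons, List.not_mem_nil, or_false] at hW1 <;>
              rcases hW1 with rfl | rfl | rfl | rfl | rfl <;> norm_num at q1 <;> linarith only [c2, hT5, q1, hρ]
          · have : (zs (.inr v)).im + T ≤ 1269 / 10000 := by
              rw [he] at hW1
              rcases hP with hP | hP <;> rw [hP] at hW1 <;>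
                simp only [rw1, List.mem_cons, List.not_mem_nil, or_false] at hW1 <;>
                rcases hW1 with rfl | rfl | rfl | rfl | rfl <;> norm_num at q1 <;> linarith only [c2, hT5, q1]
            constructor <;> linarith only [c2, hT5, this]
        rcases c3 with hz | ⟨s, hz, hfm⟩
        · linarith only [hD, hW, hz, hx, hx5, hT5, hT4, hq, RZ1.b2_flat hW hz hx.le hx5 hT5 hT4 hq.1 hq.2]
        · obtain ⟨g1, g2⟩ := hfm (hcap hx5) hx5
          rw [e4] at g2
          linarith only [hD, hW, hz, hx, hx5, hT5, hT4, hq, hs4, g1, g2, RZ1.b2_ramp hW hz hx.le hx5 hT5 hT4 hq.1 hq.2 (hs4.trans g1) g2]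
    · -- at least five crossings
      have e5 : (5 : ℝ) ≤ ((b j).natAbs : ℝ) := by exact_mod_cast h5
      have hρ5 := c1.2.1 e5
      have hD := hres.c hx5
      rcases c3 with hz | ⟨s, hz, hfm⟩
      · linarith only [hD, hW, hz, hx, hx5, h1, h2, hρ5, RZ1.c_flat hW hz hx.le hx5 h1 h2 hρ5]
      · obtain ⟨g1, g2⟩ := hfm (hcap hx5) hx5
        have hs5 : (3 : ℝ) / 20 ≤ 1 / 4 - 1 / (2 * ((b j).natAbs : ℝ)) := by
          have : 1 / (2 * ((b j).natAbs : ℝ)) ≤ 1 / 10 := by
            apply one_div_le_one_div_of_le <;> linarith only [c2, hρ5, e5]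
          linarith only [this]
        linarith only [hD, e5, hW, hz, hx, hx5, h1, h2, hρ5, hs5, g1, g2, RZ1.c_ramp e5 hW hz hx.le hx5 h1 h2 hρ5 (hs5.trans g1) g2]
  · rcases le_or_gt (y (.inl (.inl h))) (60 / 100) with hx6 | hx6
    · have hD := hres.d hx5.le hx6
      rcases c3 with hz | ⟨s, hz, -⟩
      · linarith only [hD, hW, hz, hx5, hx6, h1, h2, hρ, RZ1.d_flat hW hz hx5.le hx6 h1 h2 hρ]
      · linarith only [hD, hW, hz, hx5, hx6, h1, h2, hρ, RZ1.d_ramp hW hz hx5.le hx6 h1 h2 hρ]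
    · rcases eq_or_lt_of_le n4 with h4 | h5
      · have hT4 : T ≤ 128 / 1000 := by rw [← hT]; exact hX.one4 A hc hj h4.symm
        have hD := hres.e hx6.le hT4
        rcases c3 with hz | ⟨s, hz, -⟩
        · linarith only [hD, hW, hz, hx6, h1, hT4, hρ, RZ1.e_flat hW hz hx6.le h1 hT4 hρ]
        · linarith only [hD, hW, hz, hx6, h1, hT4, hρ, RZ1.e_ramp hW hz hx6.le h1 hT4 hρ]
      · have e5 : (5 : ℝ) ≤ ((b j).natAbs : ℝ) := by exact_mod_cast h5
        have hρ5 := c1.2.1 e5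
        have hD := hres.f hx6.le
        rcases c3 with hz | ⟨s, hz, -⟩
        · linarith only [hD, hW, hz, hx6, h1, h2, hρ5, RZ1.f_flat hW hz hx6.le h1 h2 hρ5]
        · linarith only [hD, hW, hz, hx6, h1, h2, hρ5, RZ1.f_ramp hW hz hx6.le h1 h2 hρ5]

/-- **The cap `.36` of the hinges `1 | ring`.** -/
theorem cap_1Z (hb : ClassW b) (H : LocA b zs) (hy : Mx b zs y)
    (hpos : ∀ h : Fin M, 0 < y (.inl (.inl h))) (hF : Flr b y F1)
    (h1 : ∀ {h : Fin M} {i j : Fin (M + 1)} {p : Fin 3}, Adj h i p j → clsW b i = .one →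
      y (.inl (.inl h)) ≤ 70 / 100)
    (h1E : ∀ {h : Fin M} {i j : Fin (M + 1)} {p : Fin 3}, Adj h i p j → clsW b i = .one →
      clsW b j = .twoE → y (.inl (.inl h)) ≤ 35 / 100)
    (h22 : ∀ {h : Fin M} {i j : Fin (M + 1)} {p : Fin 3}, Adj h i p j → clsW b i = .two →
      y (.inl (.inl h)) ≤ 56 / 100)
    (hZ : ∀ {h : Fin M} {i j : Fin (M + 1)} {p : Fin 3}, Adj h i p j → clsW b i = .ring →
      clsW b j ≠ .one → y (.inl (.inl h)) ≤ 1 / 2)
    (hS : Sum1 b y (95 / 100)) (A : Adj h i p j) (hc : clsW b i = .one)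
    (hj : clsW b j = .ring) : y (.inl (.inl h)) ≤ 36 / 100 := by
  by_contra hcon
  push Not at hcon
  refine right_step' hb hy hpos
    (Bad := fun h => (∃ (i j : Fin (M + 1)) (p : Fin 3), Adj h i p j ∧ clsW b i = .one ∧
      clsW b j = .ring) ∧ 36 / 100 < y (.inl (.inl h)))
    (fun h => y (.inl (.inl h))) ?_ h ⟨⟨i, j, p, A, hc, hj⟩, hcon⟩
  clear A hc hj hcon
  rintro h i j p A - ⟨⟨i', j', p', B, hc, hj⟩, hx⟩ hmax
  clear A i j p
  obtain ⟨h', k, A'⟩ := B.other' b (clsW_inner hb (Or.inl hc))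
  have hFp := hF A'
  have hwin := H.X.win B A' hc
  have hsum := hS B A' hc
  have hcap : y (.inl (.inl h)) ≤ 1 / 2 →
      ∀ {h'' k'}, Adj h'' j' p'.rev.rev k' → y (.inl (.inl h'')) ≤ 1 / 2 := by
    intro hx5 h'' k' A''
    by_cases hk : clsW b k' = .one
    · rcases le_or_gt (y (.inl (.inl h''))) (36 / 100) with g | g
      · linarith only [g]
      · exact (hmax h'' ⟨⟨_, _, _, A''.symm, hk, hj⟩, g⟩).trans hx5
    · exact hZ A'' hj hk
  have key : ∀ {fa fb : Prop}, 38 / 1000 ≤ ofs (b i') (zs (.inl (.inl h))).im →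
      ofs (b i') (zs (.inl (.inl h))).im ≤ 158 / 1000 →
      DZ.Res fa fb (y (.inl (.inl h))) (ofs (b i') (zs (.inl (.inl h))).im)
        (Sw b zs y i' p' (slL b zs y h)) →
      (ofs (b i') (zs (.inl (.inl h))).im ≤ 128 / 1000 →
        fa ∨ (fb ∧ 58 / 1000 ≤ ofs (b i') (zs (.inl (.inl h))).im ∧
          (clsW b k = .one ∨ clsW b k = .two))) → RStep b zs y h (slL b zs y h) := by
    intro fa fb g1 g2 g3 g4
    have := B.ring_row A' hb H.L H.X H.R H.G hy hc hj hx hcap rfl g1 g2 g3 g4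
    refine RStep.of_adj B (c := 0) (fun _ => rfl) this ?_ ?_ <;> linarith only []
  have h70 : ∀ {h : Fin M} {i j : Fin (M + 1)} {p : Fin 3}, Adj h i p j → clsW b i = .one →
      y (.inl (.inl h)) ≤ 70 / 100 := h1
  have f1 : ∀ {h : Fin M} {i j : Fin (M + 1)} {p : Fin 3}, Adj h i p j → clsW b i = .one →
      11 / 100 ≤ y (.inl (.inl h)) := by
    intro h i j p A hc
    refine le_trans ?_ (hF A)
    rw [hc]
    cases clsW b j <;> simp only [F1] <;> (try split_ifs) <;> norm_num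
  have f2 : ∀ {h : Fin M} {i j : Fin (M + 1)} {p : Fin 3}, Adj h i p j → clsW b i = .two →
      10 / 100 ≤ y (.inl (.inl h)) := by
    intro h i j p A hc
    refine le_trans ?_ (hF A)
    rw [hc]
    cases clsW b j <;> simp only [F1] <;> (try split_ifs) <;> norm_num
  have hok := okp_of hb B A' hc
  rcases hok with hok | hok
  · rcases hok with h | h | h <;> rw [hj] at h <;> exact absurd h (by decide)
  rw [hj] at hwin
  rcases hok with hP | hP | hP
  · have r := B.res_one A' hb H.X hy hpos f1 h70 hc hj hP (by rw [hc, hP] at hFp; exact hFp) hx hsum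
    rw [hP] at hwin
    simp only [cw] at hwin
    refine key (by linarith only [hwin, hwin.1]) (by linarith only [hwin, hwin.2.1]) r fun hT => ?_
    rcases le_total (ofs (b i') (zs (.inl (.inl h))).im) (58 / 1000) with g | g
    · exact Or.inl g
    · exact Or.inr ⟨⟨g, hT⟩, g, Or.inl hP⟩
  · have r := B.res_two A' hb H.X hy hpos f2 h22 hc hj hP (by rw [hc, hP] at hFp; exact hFp) hx hsum
    rw [hP] at hwin
    simp only [cw] at hwin
    exact key (by linarith only [hwin, hwin.1]) (by linarith only [hwin, hwin.2.1]) r fun hT =>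
      Or.inr ⟨hT, by linarith only [hwin, hwin.1], Or.inr hP⟩
  · have r := B.res_twoE A' hb H.X hy hpos hc hj hP (by rw [hc, hP] at hFp; exact hFp)
      (h1E A' hc hP) hx hsum
    rw [hP] at hwin
    simp only [cw] at hwin
    exact key (by linarith only [hwin, hwin.1]) (by linarith only [hwin, hwin.2.1]) r fun hT => Or.inl hT

end SR

end Pool.Agent.Work.MP_b30479_gtS.G2

end
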