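import Pool.Agent.Work.MP_b30479_gt.TBS.G2.SKapTwo
import Pool.Agent.Work.MP_b30479_gt.TBS.G2.SWordA
import Pool.Agent.Work.MP_b30479_gt.TBS.G2.SWordH
import Pool.Agent.Work.MP_b30479_gt.TBS.G2.SQuartF
import Pool.Agent.Work.MP_b30479_gt.TBS.NumI.LnAff
import Pool.Agent.Work.MP_b30479_gt.TBS.G2.MPRun

section

/-!
# Rings with at least four crossings: imaginary parts of `QQ`
-/

namespace Pool.Agent.Work.MP_b30479_gtS.G2

open Complex Set SQ KB
open scoped ComplexConjugate

lemma tan_re_nonneg' {w : ℂ} (h0 : 0 ≤ w.re) (h1 : w.re ≤ 3 / 2) : 0 ≤ (Complex.tan w).re :=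
  tan_re_nonneg h0 h1

lemma QQ_im_lt {w k : ℂ} (hR : 0 < (RR w k).re) (h0 : 0 ≤ w.re) (h1 : w.re ≤ 3 / 2)
    (hk : 0 < k.re) : |(QQ w k).im| < Real.pi := by
  have hT := tan_re_nonneg h0 h1
  have a1 : |(Complex.tan w + RR w k).arg| < Real.pi / 2 :=
    Complex.abs_arg_lt_pi_div_two_iff.2 (Or.inl (by rw [Complex.add_re]; linarith only [hR, hT]))
  have a2 : |k.arg| < Real.pi / 2 := Complex.abs_arg_lt_pi_div_two_iff.2 (Or.inl hk)
  have e : (QQ w k).im = (Complex.tan w + RR w k).arg + k.arg := by
    unfold QQ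
    rw [Complex.add_im, Complex.log_im, Complex.log_im]
  rw [abs_lt] at *
  rw [e]
  constructor <;> linarith only [a1, a2, a1.1, a1.2, a2.1, a2.2]

lemma cosh_QQ {w k : ℂ} (hR : 0 < (RR w k).re) (h0 : 0 ≤ w.re) (h1 : w.re ≤ 3 / 2)
    (hk : 0 < k.re) : Complex.cosh (QQ w k) = RR w k * k ∧
      Complex.sinh (QQ w k) = Complex.tan w * k := by
  obtain ⟨e1, e2⟩ := exp_QQ hR h0 h1 hk
  rw [Complex.cosh, Complex.sinh, e1, e2]
  constructor <;> ring

lemma cosh_re_im (z : ℂ) : (Complex.cosh z).re = Real.cosh z.re * Real.cos z.im ∧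
    (Complex.sinh z).im = Real.cosh z.re * Real.sin z.im ∧
    (Complex.sinh z).re = Real.sinh z.re * Real.cos z.im := by
  have e : z = (z.re : ℂ) + z.im * I := (Complex.re_add_im z).symm
  refine ⟨?_, ?_, ?_⟩
  · conv_lhs => rw [e, Complex.cosh_add, Complex.cosh_mul_I, Complex.sinh_mul_I]
    simp [Complex.cosh_ofReal_re, Complex.sinh_ofReal_re, Complex.cos_ofReal_re,
      Complex.sin_ofReal_re, Complex.cosh_ofReal_im, Complex.sinh_ofReal_im,
      Complex.cos_ofReal_im, Complex.sin_ofReal_im]
  · conv_lhs => rw [e, Complex.sinh_add, Complex.cosh_mul_I, Complex.sinh_mul_I]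
    simp [Complex.cosh_ofReal_re, Complex.sinh_ofReal_re, Complex.cos_ofReal_re,
      Complex.sin_ofReal_re, Complex.cosh_ofReal_im, Complex.sinh_ofReal_im,
      Complex.cos_ofReal_im, Complex.sin_ofReal_im]
  · conv_lhs => rw [e, Complex.sinh_add, Complex.cosh_mul_I, Complex.sinh_mul_I]
    simp [Complex.cosh_ofReal_re, Complex.sinh_ofReal_re, Complex.cos_ofReal_re,
      Complex.sin_ofReal_re, Complex.cosh_ofReal_im, Complex.sinh_ofReal_im,
      Complex.cos_ofReal_im, Complex.sin_ofReal_im]

lemma QQ_im_half {w k : ℂ} (hR : 0 < (RR w k).re) (h0 : 0 ≤ w.re) (h1 : w.re ≤ 3 / 2)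
    (hk : 0 < k.re) (h : 0 < (RR w k * k).re) : |(QQ w k).im| < Real.pi / 2 := by
  have h2 := QQ_im_lt hR h0 h1 hk
  rw [← (cosh_QQ hR h0 h1 hk).1, (cosh_re_im _).1] at h
  have h3 := Real.cosh_pos (QQ w k).re
  have h4 : 0 < Real.cos (QQ w k).im := by
    by_contra hc
    push Not at hc
    nlinarith only [h, h3, hc]
  by_contra hc
  push Not at hc
  rw [← Real.cos_abs] at h4
  have := Real.cos_nonpos_of_pi_div_two_le_of_le hc (by linarith only [h2, hc])
  linarith only [h4, this]

/-! ### polygons -/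

lemma own_h {t : RT} (ht : typS t = true) {z : ℂ} (hz : z ∈ Poly (vt t)) :
    46 / 100 ≤ px z - 1 / 2 * py z := by
  have := px_py_of (al := 1000) (be := -500) (ga := 460) (V := vt t) (by cases t <;> decide)
    (by revert ht; cases t <;> simp only [typS] <;> decide) hz
  push_cast at this
  linarith only [this]

lemma pA_h {k : ℂ} (hk : k ∈ Poly pA) : 57 / 100 ≤ px k + 1 / 2 * py k := by
  have := px_py_of (al := 1000) (be := 500) (ga := 570) (V := pA) (by decide) (by decide) hk
  push_cast at this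
  linarith only [this]

lemma pA_slope {k : ℂ} (hk : k ∈ Poly pA) : k.im ≤ 106 / 100 * k.re := by
  have := lin_sound (al := 1060) (be := -1000) (mu := 0) (V := pA) (by decide) hk
  push_cast at this
  linarith only [this]

lemma pA_re {k : ℂ} (hk : k ∈ Poly pA) : 4 / 10 ≤ k.re ∧ k.re ≤ 1 := by
  have h1 := lin_sound (al := 1) (be := 0) (mu := 400) (V := pA) (by decide) hk
  have h2 := lin_sound (al := -1) (be := 0) (mu := -1000) (V := pA) (by decide) hk
  push_cast at h1 h2
  constructor <;> linarith only [h1, h2]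

lemma pA_im {k : ℂ} (hk : k ∈ Poly pA) : 0 ≤ k.im ∧ k.im ≤ 676 / 1000 := by
  have h1 := lin_sound (al := 0) (be := 1) (mu := 0) (V := pA) (by decide) hk
  have h2 := lin_sound (al := 0) (be := -1) (mu := -676) (V := pA) (by decide) hk
  push_cast at h1 h2
  constructor <;> linarith only [h1, h2]

lemma pS_re {k : ℂ} (hk : k ∈ Poly pS) : 5 / 10 ≤ k.re ∧ k.re ≤ 1 := by
  have h1 := lin_sound (al := 1) (be := 0) (mu := 500) (V := pS) (by decide) hk
  have h2 := lin_sound (al := -1) (be := 0) (mu := -1000) (V := pS) (by decide) hk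
  push_cast at h1 h2
  constructor <;> linarith only [h1, h2]

lemma pS_im {k : ℂ} (hk : k ∈ Poly pS) : 0 ≤ k.im ∧ k.im ≤ 676 / 1000 := by
  have h1 := lin_sound (al := 0) (be := 1) (mu := 0) (V := pS) (by decide) hk
  have h2 := lin_sound (al := 0) (be := -1) (mu := -676) (V := pS) (by decide) hk
  push_cast at h1 h2
  constructor <;> linarith only [h1, h2]

/-- ports of opposite sign -/
lemma RRk_a {t : RT} (ht : typS t = true) {w k : ℂ} (hw : Complex.cos w ∈ Poly (vt t))
    (hk : conj k ∈ Poly pA) (hR : 0 < (RR w k).re) : 0 < (RR w k * k).re := by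
  have hc := cos_ne_of_n (own_n hw)
  obtain ⟨e1, e2⟩ := RR_a (k := k) hc
  have h1 := own_h ht hw
  have h2 := pA_h hk
  have h3 := pA_slope hk
  have h4 := (pA_re hk).1
  have h5 := (pA_im hk).1
  rw [Complex.conj_re] at h3 h4
  rw [Complex.conj_im] at h3 h5
  rw [sq_re] at e1
  rw [sq_im] at e2
  set R := RR w k
  have h6 : 0 < R.re ^ 2 - R.im ^ 2 + R.re * R.im := by nlinarith only [h1, h2, e1, e2]
  rw [Complex.mul_re]
  rcases le_or_gt 0 R.im with h7 | h7
  · nlinarith only [h7, h5, hR, h4, mul_nonneg h7 h5, mul_pos hR (lt_of_lt_of_le (by norm_num) h4 : 0 < k.re)]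
  · have h8 : -R.im < 62 / 100 * R.re := by
      by_contra hc
      push Not at hc
      nlinarith only [h1, h2, e1, e2, hR, hc, h7]
    nlinarith only [h8, hR, h4, h3, h7, mul_pos hR (lt_of_lt_of_le (by norm_num) h4 : 0 < k.re)]

/-- ports of equal sign -/
lemma RRk_s {t : RT} {w k : ℂ} (hw : Complex.cos w ∈ Poly (vt t))
    (hk : k ∈ Poly pS) (hR : 0 < (RR w k).re) : 0 < (RR w k * k).re := by
  have hc := cos_ne_of_n (own_n hw)
  obtain ⟨e1, e2⟩ := RR_s (k := k) hc
  have h2 := own_y hw
  have h3 := pS_y hk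
  have h4 := (pS_re hk).1
  have h5 := (pS_im hk).1
  have h6 := im_nonpos_of_sq hR (by rw [e2]; linarith only [h2, h3])
  rw [Complex.mul_re]
  nlinarith only [h6, h5, hR, h4, mul_nonneg (neg_nonneg.2 h6) h5,
    mul_pos hR (lt_of_lt_of_le (by norm_num) h4 : 0 < k.re)]

/-! ### a split hinge -/

/-- at least five crossings -/
def typ5 : RT → Bool
  | .t5 | .t6 | .t7 | .t8 => true
  | _ => false

lemma own5_1 {t : RT} (ht : typ5 t = true) {z : ℂ} (hz : z ∈ Poly (vt t)) :
    -(9 / 100) ≤ 7 / 10 * px z - py z := by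
  have := px_py_of (al := 700) (be := -1000) (ga := -90) (V := vt t) (by cases t <;> decide)
    (by revert ht; cases t <;> simp only [typ5] <;> decide) hz
  push_cast at this
  linarith only [this]

lemma own5_2 {t : RT} (ht : typ5 t = true) {z : ℂ} (hz : z ∈ Poly (vt t)) :
    97 / 100 ≤ px z ∧ px z ≤ 2 := by
  have h1 := px_py_of (al := 1000) (be := 0) (ga := 970) (V := vt t) (by cases t <;> decide)
    (by revert ht; cases t <;> simp only [typ5] <;> decide) hz
  have h2 := px_py_of (al := -1000) (be := 0) (ga := -2000) (V := vt t) (by cases t <;> decide)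
    (by revert ht; cases t <;> simp only [typ5] <;> decide) hz
  push_cast at h1 h2
  constructor <;> linarith only [h1, h2]

lemma own5_3 {t : RT} (ht : typ5 t = true) {z : ℂ} (hz : z ∈ Poly (vt t)) :
    ‖1 - z ^ 2‖ ^ 2 ≤ 1123 / 1000 * (z.re ^ 2 + z.im ^ 2) ^ 2 := by
  have h : polyOK 2000 0 (-123) 1000 (vt t) = true := by
    revert ht; cases t <;> simp only [typ5] <;> decide
  have := poly_sound h hz
  rw [norm_one_sub_sq]
  simp only [quart, Int.cast_ofNat, Int.cast_zero, Int.cast_neg] at this
  linarith only [this]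

lemma own5_4 {t : RT} (ht : typ5 t = true) {z : ℂ} (hz : z ∈ Poly (vt t)) :
    z.re ^ 2 + z.im ^ 2 ≤ 1 := by
  have h1 : z.re ≤ 1 ∧ z.im ≤ 25 / 100 ∧ 0 ≤ z.im ∧ z.re + 4 / 10 * z.im ≤ 1 ∧ 0 < z.re := by
    have h1 := lin_sound (al := -1) (be := 0) (mu := -1000) (V := vt t)
      (by revert ht; cases t <;> simp only [typ5] <;> decide) hz
    have h2 := lin_sound (al := 0) (be := -1) (mu := -250) (V := vt t)
      (by revert ht; cases t <;> simp only [typ5] <;> decide) hz
    have h3 := lin_sound (al := 0) (be := 1) (mu := 0) (V := vt t)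
      (by revert ht; cases t <;> simp only [typ5] <;> decide) hz
    have h4 := lin_sound (al := -10) (be := -4) (mu := -10000) (V := vt t)
      (by revert ht; cases t <;> simp only [typ5] <;> decide) hz
    have h5 := poly_re_pos t z hz
    push_cast at h1 h2 h3 h4
    refine ⟨by linarith only [h1], by linarith only [h2], by linarith only [h3], by linarith only [h4], h5⟩
  obtain ⟨h1, h2, h3, h4, h5⟩ := h1
  nlinarith only [h1, h4, h5, h2, h3]

lemma cos_sq_add (w : ℂ) : (Complex.cos w).re ^ 2 + (Complex.cos w).im ^ 2 =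
    Real.cos w.re ^ 2 + Real.sinh w.im ^ 2 ∧
    ‖1 - Complex.cos w ^ 2‖ = Real.sin w.re ^ 2 + Real.sinh w.im ^ 2 := by
  have e : w = (w.re : ℂ) + w.im * I := (Complex.re_add_im w).symm
  have h1 : (Complex.cos w).re = Real.cos w.re * Real.cosh w.im ∧
      (Complex.cos w).im = -(Real.sin w.re * Real.sinh w.im) := by
    constructor
    · conv_lhs => rw [e, Complex.cos_add, Complex.cos_mul_I, Complex.sin_mul_I]
      simp [Complex.cosh_ofReal_re, Complex.sinh_ofReal_re, Complex.cos_ofReal_re,
        Complex.sin_ofReal_re, Complex.cosh_ofReal_im, Complex.sinh_ofReal_im,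
        Complex.cos_ofReal_im, Complex.sin_ofReal_im]
    · conv_lhs => rw [e, Complex.cos_add, Complex.cos_mul_I, Complex.sin_mul_I]
      simp [Complex.cosh_ofReal_re, Complex.sinh_ofReal_re, Complex.cos_ofReal_re,
        Complex.sin_ofReal_re, Complex.cosh_ofReal_im, Complex.sinh_ofReal_im,
        Complex.cos_ofReal_im, Complex.sin_ofReal_im]
  have h2 : (Complex.sin w).re = Real.sin w.re * Real.cosh w.im ∧
      (Complex.sin w).im = Real.cos w.re * Real.sinh w.im := by
    constructor
    · conv_lhs => rw [e, Complex.sin_add, Complex.cos_mul_I, Complex.sin_mul_I]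
      simp [Complex.cosh_ofReal_re, Complex.sinh_ofReal_re, Complex.cos_ofReal_re,
        Complex.sin_ofReal_re, Complex.cosh_ofReal_im, Complex.sinh_ofReal_im,
        Complex.cos_ofReal_im, Complex.sin_ofReal_im]
    · conv_lhs => rw [e, Complex.sin_add, Complex.cos_mul_I, Complex.sin_mul_I]
      simp [Complex.cosh_ofReal_re, Complex.sinh_ofReal_re, Complex.cos_ofReal_re,
        Complex.sin_ofReal_re, Complex.cosh_ofReal_im, Complex.sinh_ofReal_im,
        Complex.cos_ofReal_im, Complex.sin_ofReal_im]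
  have h3 := Real.cosh_sq w.im
  have h4 := Real.sin_sq_add_cos_sq w.re
  constructor
  · rw [h1.1, h1.2]
    nlinarith only [h3, h4]
  · have e2 : 1 - Complex.cos w ^ 2 = Complex.sin w ^ 2 := by
      rw [← Complex.sin_sq_add_cos_sq w]
      ring
    rw [e2, norm_pow, norm_sq_re_im, h2.1, h2.2]
    nlinarith only [h3, h4]

lemma split_aux {a b x y n c s m : ℝ} (u1 : a ^ 2 - b ^ 2 = x) (u2 : 2 * a * b = -y)
    (hx1 : -(3 / 100) ≤ x) (hx2 : x ≤ 1) (hy0 : 0 ≤ y) (hy : y ≤ 79 / 100 + 7 / 10 * x)
    (hn0 : 0 ≤ n) (hn : n ≤ 1) (hs : m ^ 2 ≤ 1123 / 1000 * n ^ 2) (c1 : n = c ^ 2 + s)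
    (c2 : m = 1 - c ^ 2 + s) : b ^ 2 ≤ c ^ 2 := by
  have t1 : (a ^ 2 + b ^ 2) ^ 2 = x ^ 2 + y ^ 2 := by
    have h : (a ^ 2 + b ^ 2) ^ 2 = (a ^ 2 - b ^ 2) ^ 2 + (2 * a * b) ^ 2 := by ring
    rw [h, u1, u2]
    ring
  have t2 : y ^ 2 ≤ 64 / 100 + 16 / 10 * x := by
    have : y ^ 2 ≤ (79 / 100 + 7 / 10 * x) ^ 2 := pow_le_pow_left₀ hy0 hy 2
    nlinarith only [hx1, this, hx2]
  have t3 : a ^ 2 + b ^ 2 ≤ 8 / 10 + x := by
    apply le_of_sq_le_sq _ (by linarith only [hx1])
    rw [t1]
    nlinarith only [t2]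
  have t4 : b ^ 2 ≤ 4 / 10 := by linarith only [u1, t3]
  have s1 : m ≤ 106 / 100 * n := by
    apply le_of_sq_le_sq _ (by positivity)
    nlinarith only [hs, sq_nonneg n]
  nlinarith only [u1, hn, c1, c2, t3, s1]

/-- next to a split hinge -/
lemma split_im {t : RT} (ht : typ5 t = true) {w k : ℂ} (hw : Complex.cos w ∈ Poly (vt t))
    (hk : k ∈ Poly pS) (hR : 0 < (RR w k).re) (h0 : 0 < w.re) (h1 : w.re ≤ 3 / 2) :
    |(-QQ w k + I * w).im| ≤ Real.pi / 2 := by
  have hpi := Real.pi_gt_three
  have hk1 := pS_re hk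
  have hk2 := pS_im hk
  have hkr : 0 < k.re := by linarith only [hk1, hk1.1]
  have hRk := RRk_s hw hk hR
  have hQ := QQ_im_half hR h0.le h1 hkr hRk
  obtain ⟨_, hs⟩ := cosh_QQ hR h0.le h1 hkr
  have hs2 := (cosh_re_im (QQ w k)).2.1
  rw [hs, Complex.mul_im] at hs2
  have hT := tan_re_nonneg h0.le h1
  have hc := cos_ne_of_n (own_n hw)
  have e1 : (-QQ w k + I * w).im = w.re - (QQ w k).im := by
    rw [Complex.add_im, Complex.neg_im, Complex.I_mul_im]
    ring
  rw [abs_lt] at hQ
  rw [e1, abs_le]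
  constructor
  · linarith only [h0, hQ, hQ.2]
  -- bounds for tan
  have u1 : (Complex.tan w ^ 2).re = px (Complex.cos w) - 1 ∧
      (Complex.tan w ^ 2).im = -py (Complex.cos w) := by
    rw [tan_sq_eq, sub_div, div_self (pow_ne_zero 2 hc), one_div]
    rw [Complex.sub_re, Complex.sub_im, inv_sq_re, inv_sq_im]
    simp
  rw [sq_re, sq_im] at u1
  have g1 := own5_1 ht hw
  have g2 := own5_2 ht hw
  have g3 := own5_3 ht hw
  have g4 := own5_4 ht hw
  have g5 := own_y hw
  obtain ⟨c1, c2⟩ := cos_sq_add w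
  have hsc := Real.sin_sq_add_cos_sq w.re
  have hcp : 0 < Real.cos w.re := Real.cos_pos_of_mem_Ioo ⟨by linarith only [h0, hpi], by linarith only [h1, hpi]⟩
  have hx1 : -(3 / 100) ≤ px (Complex.cos w) - 1 := by linarith only [g2, g2.1]
  have hx2 : px (Complex.cos w) - 1 ≤ 1 := by linarith only [g2, g2.2]
  have hy : py (Complex.cos w) ≤ 79 / 100 + 7 / 10 * (px (Complex.cos w) - 1) := by linarith only [g1]
  have key := split_aux u1.1 u1.2 hx1 hx2 g5 hy (by positivity) g4 g3 c1
    (by rw [c2]; linarith only [hsc])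
  have s3 : -Real.cos w.re ≤ (Complex.tan w).im := by
    have : |(Complex.tan w).im| ≤ |Real.cos w.re| := sq_le_sq.1 key
    rw [abs_of_pos hcp] at this
    linarith only [this, (abs_le.1 this).1]
  -- the sine of the imaginary part
  have hTi : (Complex.tan w).im ≤ 0 := by
    by_contra hc2
    push Not at hc2
    have h3 := tan_re_pos h0 h1
    have : 0 < 2 * (Complex.tan w).re * (Complex.tan w).im := by positivity
    rw [u1.2] at this
    linarith only [g5, this]
  have k1 : (Complex.tan w).im ≤ Real.cosh (QQ w k).re * Real.sin (QQ w k).im := by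
    rw [← hs2]
    nlinarith only [hT, hk2, hk1, hTi, mul_nonneg hT hk2.1]
  by_contra hcon
  push Not at hcon
  have k2 : (QQ w k).im < w.re - Real.pi / 2 := by linarith only [hcon]
  have k3 : Real.sin (QQ w k).im < Real.sin (w.re - Real.pi / 2) := by
    apply Real.sin_lt_sin_of_lt_of_le_pi_div_two (by linarith only [hQ, hQ.1]) (by linarith only [h1, hpi]) k2
  rw [Real.sin_sub_pi_div_two] at k3
  have k4 := Real.one_le_cosh (QQ w k).re
  have k5 : (Real.cosh (QQ w k).re - 1) * Real.sin (QQ w k).im ≤ 0 :=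
    mul_nonpos_of_nonneg_of_nonpos (by linarith only [k4]) (by linarith only [hcp, k3])
  linarith only [s3, k1, k3, k5]

end Pool.Agent.Work.MP_b30479_gtS.G2

end

section

/-!
# Rings with at least eight crossings: location of the ring value, uniformly in the number of
crossings
-/

namespace Pool.Agent.Work.MP_b30479_gtS.G2

open Complex Set SQ KB
open scoped ComplexConjugate

namespace Z8

/-! ### elementary bounds -/

lemma sinh_ge {r : ℝ} (hr : 0 ≤ r) : r + r ^ 3 / 6 ≤ Real.sinh r := by
  have h := Real.hasSum_sinh r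
  have h2 := sum_le_hasSum (Finset.range 2) (fun n _ => by positivity) h
  simp only [Finset.sum_range_succ, Finset.sum_range_zero] at h2
  norm_num [Nat.factorial] at h2
  linarith only [h2]

lemma sinh_le {r : ℝ} (h0 : 0 ≤ r) (h1 : r ≤ 1) :
    Real.sinh r ≤ r + r ^ 3 / 6 + r ^ 4 * (5 / 96) := by
  have e1 := Real.exp_bound (x := r) (by rwa [abs_of_nonneg h0]) (n := 4) (by norm_num)
  have e2 := Real.exp_bound (x := -r) (by rwa [abs_neg, abs_of_nonneg h0]) (n := 4) (by norm_num)
  rw [abs_of_nonneg h0] at e1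
  rw [abs_neg, abs_of_nonneg h0] at e2
  simp only [Finset.sum_range_succ, Finset.sum_range_zero] at e1 e2
  norm_num [Nat.factorial] at e1 e2
  rw [Real.sinh_eq]
  have a1 := (abs_le.1 e1).2
  have a2 := (abs_le.1 e2).1
  nlinarith only [a1, a2]

/-- a bound for `r` from a bound for `sinh r` -/
lemma le_of_sinh {r v m : ℝ} (hv : 0 ≤ v) (h : Real.sinh r ^ 2 ≤ m) (h2 : m < (v + v ^ 3 / 6) ^ 2) :
    |r| < v := by
  by_contra hc
  push Not at hc
  have h3 := sinh_ge (abs_nonneg r)
  have h4 : Real.sinh |r| ^ 2 = Real.sinh r ^ 2 := by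
    rcases abs_choice r with h | h <;> rw [h]
    rw [Real.sinh_neg]
    ring
  have h5 : v + v ^ 3 / 6 ≤ |r| + |r| ^ 3 / 6 := by
    have := pow_le_pow_left₀ hv hc 3
    linarith only [hc, this]
  have h6 : (v + v ^ 3 / 6) ^ 2 ≤ Real.sinh |r| ^ 2 :=
    pow_le_pow_left₀ (by positivity) (h5.trans h3) 2
  linarith only [h, h2, h4, h6]

/-! ### `tan` -/

lemma cos_parts (w : ℂ) : (Complex.cos w).re = Real.cos w.re * Real.cosh w.im ∧
    (Complex.cos w).im = -(Real.sin w.re * Real.sinh w.im) := by
  have e : w = (w.re : ℂ) + w.im * I := (Complex.re_add_im w).symm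
  constructor
  · conv_lhs => rw [e, Complex.cos_add, Complex.cos_mul_I, Complex.sin_mul_I]
    simp [Complex.cosh_ofReal_re, Complex.sinh_ofReal_re, Complex.cos_ofReal_re,
      Complex.sin_ofReal_re, Complex.cosh_ofReal_im, Complex.sinh_ofReal_im,
      Complex.cos_ofReal_im, Complex.sin_ofReal_im]
  · conv_lhs => rw [e, Complex.cos_add, Complex.cos_mul_I, Complex.sin_mul_I]
    simp [Complex.cosh_ofReal_re, Complex.sinh_ofReal_re, Complex.cos_ofReal_re,
      Complex.sin_ofReal_re, Complex.cosh_ofReal_im, Complex.sinh_ofReal_im,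
      Complex.cos_ofReal_im, Complex.sin_ofReal_im]

lemma sin_parts (w : ℂ) : (Complex.sin w).re = Real.sin w.re * Real.cosh w.im ∧
    (Complex.sin w).im = Real.cos w.re * Real.sinh w.im := by
  have e : w = (w.re : ℂ) + w.im * I := (Complex.re_add_im w).symm
  constructor
  · conv_lhs => rw [e, Complex.sin_add, Complex.cos_mul_I, Complex.sin_mul_I]
    simp [Complex.cosh_ofReal_re, Complex.sinh_ofReal_re, Complex.cos_ofReal_re,
      Complex.sin_ofReal_re, Complex.cosh_ofReal_im, Complex.sinh_ofReal_im,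
      Complex.cos_ofReal_im, Complex.sin_ofReal_im]
  · conv_lhs => rw [e, Complex.sin_add, Complex.cos_mul_I, Complex.sin_mul_I]
    simp [Complex.cosh_ofReal_re, Complex.sinh_ofReal_re, Complex.cos_ofReal_re,
      Complex.sin_ofReal_re, Complex.cosh_ofReal_im, Complex.sinh_ofReal_im,
      Complex.cos_ofReal_im, Complex.sin_ofReal_im]

lemma tan_parts {w : ℂ} (hc : 0 < Real.cos w.re) :
    (Complex.tan w).re * (Real.cos w.re ^ 2 + Real.sinh w.im ^ 2) =
      Real.sin w.re * Real.cos w.re ∧
    (Complex.tan w).im * (Real.cos w.re ^ 2 + Real.sinh w.im ^ 2) =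
      Real.sinh w.im * Real.cosh w.im := by
  obtain ⟨c1, c2⟩ := cos_parts w
  obtain ⟨s1, s2⟩ := sin_parts w
  have h1 := Real.cosh_sq w.im
  have h2 := Real.sin_sq_add_cos_sq w.re
  have hN : 0 < Real.cos w.re ^ 2 + Real.sinh w.im ^ 2 := by positivity
  have hn : Complex.normSq (Complex.cos w) = Real.cos w.re ^ 2 + Real.sinh w.im ^ 2 := by
    rw [Complex.normSq_apply, c1, c2]
    nlinarith only [h1, h2]
  rw [Complex.tan, Complex.div_re, Complex.div_im, hn, c1, c2, s1, s2]
  constructor
  · field_simp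
    linear_combination (Real.sin w.re) * h1
  · field_simp
    linear_combination (Real.sinh w.im) * h2

/-! ### the sides of a ring -/

/-- a side of a ring in its own frame, with its term `Q` in the ring equation -/
def Sd : SK → ℂ → ℂ → Prop
  | .e, _, Q => Q = 0
  | .a, w, Q => ∃ k, conj k ∈ Poly pA ∧ 0 < (RR w k).re ∧ Q = QQ w k
  | .z, w, Q => ∃ k t, typS t = true ∧ k ∈ Poly (vt t) ∧ 0 < (RR w k).re ∧ Q = QQ w k
  | .s, w, Q => ∃ k, k ∈ Poly pS ∧ 0 < (RR w k).re ∧ Q = QQ w k

/-- a ring with at least eight crossings in its own frame -/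
structure Rg (B : ℕ) (x y : SK) (w Q Q' : ℂ) : Prop where
  B8 : 8 ≤ B
  mem : Complex.cos w ∈ Poly (vt .t8)
  h0 : 0 < w.re
  h1 : w.re ≤ 3 / 2
  sd : Sd x w Q
  sd' : Sd y w Q'
  eq : (B : ℂ) * w - Real.pi + I * (Q + Q') = 0

lemma pA_norm {k : ℂ} (hk : conj k ∈ Poly pA) : 4 / 10 ≤ k.re ∧ -(676 / 1000) ≤ k.im ∧ k.im ≤ 0 ∧
    k.re - 1 / 4 * k.im ≤ 1 := by
  have h1 := pA_re hk
  have h2 := pA_im hk
  have h3 := lin_sound (al := -4) (be := -1) (mu := -4000) (V := pA) (by decide) hk
  rw [Complex.conj_re] at h1 h3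
  rw [Complex.conj_im] at h2 h3
  push_cast at h3
  refine ⟨h1.1, by linarith only [h2, h2.2], by linarith only [h2, h2.1], by linarith only [h3]⟩

lemma pS_norm {k : ℂ} (hk : k ∈ Poly pS) : 5 / 10 ≤ k.re ∧ 0 ≤ k.im ∧ k.im ≤ 676 / 1000 ∧
    k.re + 1 / 4 * k.im ≤ 1 := by
  have h1 := pS_re hk
  have h2 := pS_im hk
  have h3 := lin_sound (al := -4) (be := -1) (mu := -4000) (V := pS) (by decide) hk
  push_cast at h3
  refine ⟨h1.1, h2.1, h2.2, by linarith only [h3]⟩

lemma z_mem {k : ℂ} {t : RT} (ht : typS t = true) (hk : k ∈ Poly (vt t)) : k ∈ Poly pS := by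
  refine starS t ?_ ⟨1, by norm_num, le_rfl, k, hk, by simp⟩
  cases t <;> first | rfl | exact absurd ht (by decide)

lemma z_norm {k : ℂ} {t : RT} (ht : typS t = true) (hk : k ∈ Poly (vt t)) :
    66 / 100 ≤ k.re ∧ k.re + 4 / 10 * k.im ≤ 1 ∧ k.im ≤ 33 / 100 := by
  have h1 := lin_sound (al := 1) (be := 0) (mu := 660) (V := vt t)
    (by revert ht; cases t <;> simp only [typS] <;> decide) hk
  have h2 := lin_sound (al := -10) (be := -4) (mu := -10000) (V := vt t)
    (by revert ht; cases t <;> simp only [typS] <;> decide) hk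
  have h3 := lin_sound (al := 0) (be := -1) (mu := -330) (V := vt t)
    (by revert ht; cases t <;> simp only [typS] <;> decide) hk
  push_cast at h1 h2 h3
  refine ⟨by linarith only [h1], by linarith only [h2], by linarith only [h3]⟩

/-- the port of a side -/
lemma Sd.port {x : SK} {w Q : ℂ} (h : Sd x w Q) (hx : x ≠ .e) : ∃ k, Q = QQ w k ∧
    0 < (RR w k).re ∧ 4 / 10 ≤ k.re ∧ k.re + 1 / 4 * |k.im| ≤ 1 ∧
    |k.im| ≤ (if x = .z then 33 / 100 else 676 / 1000) ∧
    (x = .a → conj k ∈ Poly pA) ∧ (x ≠ .a → k ∈ Poly pS) ∧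
    (x = .z → 66 / 100 ≤ k.re ∧ k.re + 4 / 10 * k.im ≤ 1) := by
  cases x
  · exact absurd rfl hx
  · obtain ⟨k, h1, h2, h3⟩ := h
    obtain ⟨g1, g2, g3, g4⟩ := pA_norm h1
    refine ⟨k, h3, h2, g1, ?_, ?_, fun _ => h1, fun h => absurd rfl h,
      fun h => absurd h (by decide)⟩
    · rw [abs_of_nonpos g3]; linarith only [g4]
    · rw [if_neg (by decide), abs_of_nonpos g3]; linarith only [g2]
  · obtain ⟨k, t, ht, h1, h2, h3⟩ := h
    have h1' := z_mem ht h1
    obtain ⟨g1, g2, g3, g4⟩ := pS_norm h1'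
    obtain ⟨z1, z2, z3⟩ := z_norm ht h1
    refine ⟨k, h3, h2, by linarith only [z1], ?_, ?_, fun h => absurd h (by decide), fun _ => h1',
      fun _ => ⟨z1, z2⟩⟩
    · rw [abs_of_nonneg g2]; linarith only [g4]
    · rw [if_pos rfl, abs_of_nonneg g2]; linarith only [z3]
  · obtain ⟨k, h1, h2, h3⟩ := h
    obtain ⟨g1, g2, g3, g4⟩ := pS_norm h1
    refine ⟨k, h3, h2, by linarith only [g1], ?_, ?_, fun h => absurd h (by decide), fun _ => h1,
      fun h => absurd h (by decide)⟩
    · rw [abs_of_nonneg g2]; linarith only [g4]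
    · rw [if_neg (by decide), abs_of_nonneg g2]; linarith only [g3]

/-- the facts about a side which are used below -/
structure Fa (x : SK) (w Q : ℂ) : Prop where
  half : |Q.im| < Real.pi / 2
  re : Real.sinh Q.re ^ 2 ≤ 1148 / 1000 * ((Complex.tan w).re ^ 2 + (Complex.tan w).im ^ 2)
  nonpos : x = .e ∨ x = .a → Q.im ≤ 0
  le : ∀ θ : ℝ, 0 ≤ θ → θ ≤ Real.pi / 2 →
    (if x = .z then 33 / 100 else 676 / 1000) * (Complex.tan w).re ≤ Real.sin θ → Q.im ≤ θ

lemma tan_im_nonpos {t : RT} {w : ℂ} (hm : Complex.cos w ∈ Poly (vt t)) (h0 : 0 < w.re)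
    (h1 : w.re ≤ 3 / 2) : (Complex.tan w).im ≤ 0 := by
  have hc := cos_ne_of_n (own_n hm)
  have hy := own_y hm
  have u1 : (Complex.tan w ^ 2).im = -py (Complex.cos w) := by
    rw [tan_sq_eq, sub_div, div_self (pow_ne_zero 2 hc), one_div]
    rw [Complex.sub_im, inv_sq_im]
    simp
  rw [sq_im] at u1
  by_contra hc2
  push Not at hc2
  have h3 := tan_re_pos h0 h1
  have : 0 < 2 * (Complex.tan w).re * (Complex.tan w).im := by positivity
  rw [u1] at this
  linarith only [hy, this]

lemma Sd.fa {x : SK} {t : RT} (ht : typS t = true) {w Q : ℂ} (h : Sd x w Q)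
    (hm : Complex.cos w ∈ Poly (vt t)) (h0 : 0 < w.re) (h1 : w.re ≤ 3 / 2) : Fa x w Q := by
  have hpi := Real.pi_pos
  by_cases hx : x = .e
  · subst hx
    have h2 : Q = 0 := h
    subst h2
    refine ⟨by simp; positivity, by simp; positivity, fun _ => by simp, fun θ h3 _ _ => by simpa using h3⟩
  · obtain ⟨k, rfl, hR, g1, g2, g3, g4, g5, g6⟩ := h.port hx
    have g3' : |k.im| ≤ 676 / 1000 := by split_ifs at g3 <;> linarith only [g3]
    have hk : 0 < k.re := by linarith only [g1]
    have hT := tan_re_nonneg h0.le h1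
    have hTi := tan_im_nonpos hm h0 h1
    obtain ⟨e1, e2⟩ := cosh_QQ hR h0.le h1 hk
    have hs := cosh_re_im (QQ w k)
    have hH : |(QQ w k).im| < Real.pi / 2 := by
      apply QQ_im_half hR h0.le h1 hk
      by_cases hxa : x = .a
      · exact RRk_a ht hm (g4 hxa) hR
      · exact RRk_s hm (g5 hxa) hR
    rw [e2] at hs
    obtain ⟨_, hs1, hs2⟩ := hs
    have hC := Real.one_le_cosh (QQ w k).re
    have hC2 := Real.cosh_sq (QQ w k).re
    have hS2 := Real.sin_sq_add_cos_sq (QQ w k).im
    have hkn : k.re ^ 2 + k.im ^ 2 ≤ 1148 / 1000 := by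
      have a1 := abs_nonneg k.im
      rw [← sq_abs k.im]
      have a2 : k.re ^ 2 ≤ (1 - 1 / 4 * |k.im|) ^ 2 := pow_le_pow_left₀ hk.le (by linarith only [g2]) 2
      have a3 : |k.im| * |k.im| ≤ 676 / 1000 * |k.im| := mul_le_mul_of_nonneg_right g3' a1
      linarith only [g2, g3', hk, a2, a3]
    refine ⟨hH, ?_, ?_, ?_⟩
    · have e3 : Real.sinh (QQ w k).re ^ 2 + Real.sin (QQ w k).im ^ 2 =
          ((Complex.tan w).re ^ 2 + (Complex.tan w).im ^ 2) * (k.re ^ 2 + k.im ^ 2) := by
        have e4 : (Complex.tan w * k).re ^ 2 + (Complex.tan w * k).im ^ 2 =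
            ((Complex.tan w).re ^ 2 + (Complex.tan w).im ^ 2) * (k.re ^ 2 + k.im ^ 2) := by
          rw [Complex.mul_re, Complex.mul_im]
          ring
        rw [← e4, hs1, hs2, mul_pow, mul_pow, hC2]
        linear_combination (-(Real.sinh (QQ w k).re ^ 2)) * hS2
      have : 0 ≤ (Complex.tan w).re ^ 2 + (Complex.tan w).im ^ 2 := by positivity
      have a1 := mul_le_mul_of_nonneg_left hkn this
      have a2 := sq_nonneg (Real.sin (QQ w k).im)
      linarith only [e3, a1, a2]
    · intro hx2
      have hxa : x = .a := by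
        rcases hx2 with h | h
        · exact absurd h hx
        · exact h
      obtain ⟨p1, p2, p3, p4⟩ := pA_norm (g4 hxa)
      have h4 : (Complex.tan w * k).im ≤ 0 := by
        rw [Complex.mul_im]
        exact add_nonpos (mul_nonpos_of_nonneg_of_nonpos hT p3)
          (mul_nonpos_of_nonpos_of_nonneg hTi hk.le)
      rw [hs1] at h4
      by_contra hc
      push Not at hc
      have h5 : 0 < Real.sin (QQ w k).im :=
        Real.sin_pos_of_pos_of_lt_pi hc (by linarith only [hc, hH, (abs_lt.1 hH).2])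
      exact absurd h4 (not_le.2 (mul_pos (by linarith only [hC]) h5))
    · intro θ t1 t2 t3
      by_contra hc
      push Not at hc
      have h4 : (Complex.tan w * k).im ≤
          (if x = .z then 33 / 100 else 676 / 1000) * (Complex.tan w).re := by
        rw [Complex.mul_im]
        have h6 := ((abs_le.1 (le_refl |k.im|)).2).trans g3
        have h7 := mul_le_mul_of_nonneg_left h6 hT
        have h8 : (Complex.tan w).im * k.re ≤ 0 := mul_nonpos_of_nonpos_of_nonneg hTi hk.le
        linarith only [h7, h8]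
      rw [hs1] at h4
      have h5 : Real.sin θ < Real.sin (QQ w k).im :=
        Real.sin_lt_sin_of_lt_of_le_pi_div_two (by linarith only [hpi, t1]) (by linarith only [hH, (abs_lt.1 hH).2]) hc
      have h6 : 0 ≤ Real.sin θ := Real.sin_nonneg_of_nonneg_of_le_pi t1 (by linarith only [hpi, t2])
      have h7 : Real.sin (QQ w k).im ≤ Real.cosh (QQ w k).re * Real.sin (QQ w k).im :=
        le_mul_of_one_le_left (h6.trans h5.le) hC
      linarith only [t3, h4, h5, h7]

/-! ### the bootstrap -/

/-- number of split sides -/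
def nS : SK → ℝ
  | .s => 1
  | _ => 0

/-- number of unsplit sides of equal sign -/
def nZ : SK → ℝ
  | .z => 1
  | _ => 0

/-- number of sides -/
def nE : SK → ℝ
  | .e => 0
  | _ => 1

variable {B : ℕ} {x y : SK} {w Q Q' : ℂ}

lemma Rg.re_eq (R : Rg B x y w Q Q') : (B : ℝ) * w.re = Real.pi + (Q.im + Q'.im) := by
  have h := congrArg Complex.re R.eq
  simp only [Complex.add_re, Complex.sub_re, Complex.mul_re, Complex.natCast_re,
    Complex.natCast_im, Complex.ofReal_re, Complex.I_re, Complex.I_im, Complex.add_im,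
    Complex.zero_re] at h
  linarith only [h]

lemma Rg.im_eq (R : Rg B x y w Q Q') : (B : ℝ) * -w.im = Q.re + Q'.re := by
  have h := congrArg Complex.im R.eq
  simp only [Complex.add_im, Complex.sub_im, Complex.mul_im, Complex.natCast_re,
    Complex.natCast_im, Complex.ofReal_im, Complex.I_re, Complex.I_im, Complex.add_re,
    Complex.zero_im] at h
  linarith only [h]

lemma Rg.cos_pos (R : Rg B x y w Q Q') : 0 < Real.cos w.re :=
  Real.cos_pos_of_mem_Ioo ⟨by linarith only [R, R.h0, Real.pi_pos], by linarith only [R, R.h1, Real.pi_gt_three]⟩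

lemma Rg.im_nonpos (R : Rg B x y w Q Q') : w.im ≤ 0 := by
  have h1 := lin_sound (al := 0) (be := 1) (mu := 0) (V := vt .t8) (by decide) R.mem
  have h2 := (cos_parts w).2
  have h3 : 0 < Real.sin w.re :=
    Real.sin_pos_of_pos_of_lt_pi R.h0 (by linarith only [R, R.h1, Real.pi_gt_three])
  push_cast at h1
  have h4 : 0 ≤ (Complex.cos w).im := by linarith only [h1]
  rw [h2] at h4
  by_contra hc
  push Not at hc
  have := Real.sinh_pos_iff.2 hc
  nlinarith only [h2, h1, h3, this]

lemma fa_re_le {x : SK} {w Q : ℂ} (h : Fa x w Q) (he : x = .e → Q = 0) {τ v : ℝ}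
    (hT : (Complex.tan w).re ^ 2 + (Complex.tan w).im ^ 2 ≤ τ) (hv : 0 ≤ v)
    (h2 : 1148 / 1000 * τ < (v + v ^ 3 / 6) ^ 2) : Q.re ≤ nE x * v := by
  by_cases hx : x = .e
  · rw [he hx, hx]
    simp [nE]
  · have h3 := le_of_sinh hv (h.re.trans (by linarith only [hT])) h2
    have e : nE x = 1 := by
      cases x <;> first | rfl | exact absurd rfl hx
    rw [e, one_mul]
    exact ((le_abs_self _).trans h3.le)

lemma fa_im_le {x : SK} {w Q : ℂ} (h : Fa x w Q) {θ φ : ℝ}
    (h0 : 0 ≤ θ) (h1 : θ ≤ 1) (h2 : 676 / 1000 * (Complex.tan w).re ≤ θ - θ ^ 3 / 6)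
    (g0 : 0 ≤ φ) (g1 : φ ≤ 1) (g2 : 33 / 100 * (Complex.tan w).re ≤ φ - φ ^ 3 / 6) :
    Q.im ≤ nS x * θ + nZ x * φ := by
  have hpi := Real.pi_gt_three
  have h3 : ∀ {θ : ℝ}, 0 ≤ θ → θ - θ ^ 3 / 6 ≤ Real.sin θ := by
    intro θ h0
    rcases h0.eq_or_lt with h4 | h4
    · rw [← h4]; simp
    · exact (Real.sin_gt_sub_cube h4).le
  cases x
  · simp only [nS, nZ, zero_mul, add_zero]; exact h.nonpos (Or.inl rfl)
  · simp only [nS, nZ, zero_mul, add_zero]; exact h.nonpos (Or.inr rfl)
  · have h5 := h.le φ g0 (by linarith) (by rw [if_pos rfl]; linarith [h3 g0])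
    simp only [nS, nZ, one_mul, zero_mul, zero_add]; exact h5
  · have h5 := h.le θ h0 (by linarith) (by rw [if_neg (by decide)]; linarith [h3 h0])
    simp only [nS, nZ, one_mul, zero_mul, add_zero]; exact h5

lemma Rg.bound (R : Rg B x y w Q Q') {τ v χ θ φ : ℝ}
    (hT : (Complex.tan w).re ^ 2 + (Complex.tan w).im ^ 2 ≤ τ) (hX : (Complex.tan w).re ≤ χ)
    (hv : 0 ≤ v) (h2 : 1148 / 1000 * τ < (v + v ^ 3 / 6) ^ 2) (h0 : 0 ≤ θ) (h1 : θ ≤ 1)
    (h3 : 676 / 1000 * χ ≤ θ - θ ^ 3 / 6) (g0 : 0 ≤ φ) (g1 : φ ≤ 1)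
    (g3 : 33 / 100 * χ ≤ φ - φ ^ 3 / 6) :
    8 * w.re ≤ Real.pi + ((nS x + nS y) * θ + (nZ x + nZ y) * φ) ∧
      8 * -w.im ≤ (nE x + nE y) * v := by
  have f1 := R.sd.fa (t := .t8) rfl R.mem R.h0 R.h1
  have f2 := R.sd'.fa (t := .t8) rfl R.mem R.h0 R.h1
  have e1 : x = .e → Q = 0 := fun h => by have := R.sd; rw [h] at this; exact this
  have e2 : y = .e → Q' = 0 := fun h => by have := R.sd'; rw [h] at this; exact this
  have a1 := fa_re_le f1 e1 hT hv h2
  have a2 := fa_re_le f2 e2 hT hv h2
  have b1 := fa_im_le f1 h0 h1 (by linarith only [hX, h3]) g0 g1 (by linarith only [hX, g3])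
  have b2 := fa_im_le f2 h0 h1 (by linarith only [hX, h3]) g0 g1 (by linarith only [hX, g3])
  have hB : (8 : ℝ) ≤ B := by exact_mod_cast R.B8
  have c1 := R.re_eq
  have c2 := R.im_eq
  have c3 := R.im_nonpos
  have c4 := R.h0
  have d1 := mul_le_mul_of_nonneg_right hB c4.le
  have d2 := mul_le_mul_of_nonneg_right hB (neg_nonneg.2 c3)
  constructor <;> linarith only [b1, b2, c1, d1, a1, a2, c2, d2]

lemma tan_norm {w : ℂ} (hc : 0 < Real.cos w.re) :
    ((Complex.tan w).re ^ 2 + (Complex.tan w).im ^ 2) *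
      (1 - Real.sin w.re ^ 2 + Real.sinh w.im ^ 2) = Real.sin w.re ^ 2 + Real.sinh w.im ^ 2 := by
  obtain ⟨h1, h2⟩ := tan_parts hc
  have h3 := Real.cosh_sq w.im
  have h4 := Real.sin_sq_add_cos_sq w.re
  have hN : 0 < Real.cos w.re ^ 2 + Real.sinh w.im ^ 2 := by positivity
  apply mul_right_cancel₀ hN.ne'
  have e : ((Complex.tan w).re ^ 2 + (Complex.tan w).im ^ 2) *
      (1 - Real.sin w.re ^ 2 + Real.sinh w.im ^ 2) * (Real.cos w.re ^ 2 + Real.sinh w.im ^ 2) =
      ((Complex.tan w).re * (Real.cos w.re ^ 2 + Real.sinh w.im ^ 2)) ^ 2 +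
      ((Complex.tan w).im * (Real.cos w.re ^ 2 + Real.sinh w.im ^ 2)) ^ 2 := by
    have : 1 - Real.sin w.re ^ 2 = Real.cos w.re ^ 2 := by linarith only [h4]
    rw [this]
    ring
  rw [e, h1, h2]
  have e2 : Real.cos w.re ^ 2 = 1 - Real.sin w.re ^ 2 := by linarith only [h4]
  rw [mul_pow, mul_pow, h3, e2]
  ring

/-- one round -/
lemma Rg.step (R : Rg B x y w Q Q') {A E S H τ v χ θ φ : ℝ} (hA : w.re ≤ A) (hA1 : A ≤ 1)
    (hE : -w.im ≤ E) (hE1 : E ≤ 1)
    (hS : (A - A ^ 3 / 6 + A ^ 5 / 100) ^ 2 ≤ S) (hS2 : S ≤ 1 / 2)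
    (hH : (E + E ^ 3 / 6 + E ^ 4 * (5 / 96)) ^ 2 ≤ H)
    (hτ : S + H ≤ τ * (1 - S + H)) (hχ : S ≤ χ ^ 2 * (1 - S)) (hχ0 : 0 ≤ χ)
    (hv : 0 ≤ v) (h2 : 1148 / 1000 * τ < (v + v ^ 3 / 6) ^ 2) (h0 : 0 ≤ θ) (h1 : θ ≤ 1)
    (h3 : 676 / 1000 * χ ≤ θ - θ ^ 3 / 6) (g0 : 0 ≤ φ) (g1 : φ ≤ 1)
    (g3 : 33 / 100 * χ ≤ φ - φ ^ 3 / 6) :
    8 * w.re ≤ Real.pi + ((nS x + nS y) * θ + (nZ x + nZ y) * φ) ∧
      8 * -w.im ≤ (nE x + nE y) * v ∧
      (Complex.tan w).re ^ 2 + (Complex.tan w).im ^ 2 ≤ τ ∧ (Complex.tan w).re ≤ χ ∧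
      Real.sin w.re ^ 2 ≤ S ∧ Real.sinh w.im ^ 2 ≤ H := by
  have hpi := Real.pi_gt_three
  have hr0 := R.h0
  have hi0 := R.im_nonpos
  have hc := R.cos_pos
  have hs0 : 0 < Real.sin w.re := Real.sin_pos_of_pos_of_lt_pi hr0 (by linarith only [hA, hA1, hpi])
  have hs : Real.sin w.re ^ 2 ≤ S := by
    have a1 : Real.sin w.re ≤ Real.sin A :=
      Real.sin_le_sin_of_le_of_le_pi_div_two (by linarith only [hpi, hr0]) (by linarith only [hA1, hpi]) hA
    have a2 := (abs_le.1 (Real.sin_bound (x := A) (by rw [abs_of_pos (by linarith only [hA, hr0])]; exact hA1))).2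
    rw [abs_of_pos (by linarith only [hA, hr0] : (0 : ℝ) < A)] at a2
    have a3 : Real.sin w.re ≤ A - A ^ 3 / 6 + A ^ 5 / 100 := by linarith only [a1, a2]
    exact (pow_le_pow_left₀ hs0.le a3 2).trans hS
  have hh : Real.sinh w.im ^ 2 ≤ H := by
    have a1 : Real.sinh (-w.im) ≤ Real.sinh E := Real.sinh_le_sinh.2 hE
    have a2 := sinh_le (r := E) (by linarith only [hE, hi0]) hE1
    have a3 : 0 ≤ Real.sinh (-w.im) := Real.sinh_nonneg_iff.2 (by linarith only [hi0])
    have a4 : Real.sinh w.im ^ 2 = Real.sinh (-w.im) ^ 2 := by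
      rw [Real.sinh_neg]; ring
    rw [a4]
    exact (pow_le_pow_left₀ a3 (a1.trans a2) 2).trans hH
  have hn := tan_norm hc
  set t := (Complex.tan w).re ^ 2 + (Complex.tan w).im ^ 2 with ht
  have hH0 : 0 ≤ H := (sq_nonneg _).trans hH
  have hD : 0 < 1 - S + H := by linarith only [hS2, hH0]
  have hD2 : 0 < 1 - Real.sin w.re ^ 2 + Real.sinh w.im ^ 2 := by
    have := sq_nonneg (Real.sinh w.im)
    linarith only [hS2, hs, this]
  have hT : t ≤ τ := by
    have b1 : (Real.sin w.re ^ 2 + Real.sinh w.im ^ 2) * (1 - S + H) ≤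
        (S + H) * (1 - Real.sin w.re ^ 2 + Real.sinh w.im ^ 2) := by
      have u1 := mul_nonneg (sub_nonneg.2 hh) (by linarith only [hS2] : (0 : ℝ) ≤ 1 - 2 * S)
      have u2 := mul_nonneg (sub_nonneg.2 hs) (by linarith only [hH0] : (0 : ℝ) ≤ 1 + 2 * H)
      linarith only [u1, u2]
    have b2 : t * (1 - Real.sin w.re ^ 2 + Real.sinh w.im ^ 2) * (1 - S + H) ≤
        τ * (1 - Real.sin w.re ^ 2 + Real.sinh w.im ^ 2) * (1 - S + H) := by
      rw [hn]
      calc _ ≤ (S + H) * (1 - Real.sin w.re ^ 2 + Real.sinh w.im ^ 2) := b1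
        _ ≤ (τ * (1 - S + H)) * (1 - Real.sin w.re ^ 2 + Real.sinh w.im ^ 2) :=
          mul_le_mul_of_nonneg_right hτ hD2.le
        _ = _ := by ring
    have b3 := le_of_mul_le_mul_right b2 hD
    exact le_of_mul_le_mul_right b3 hD2
  have hX : (Complex.tan w).re ≤ χ := by
    have h4 := (tan_parts hc).1
    have h5 := Real.sin_sq_add_cos_sq w.re
    have hT0 := tan_re_nonneg hr0.le R.h1
    have h6 : (Complex.tan w).re * Real.cos w.re ≤ Real.sin w.re := by
      have : (Complex.tan w).re * Real.cos w.re * Real.cos w.re ≤ Real.sin w.re * Real.cos w.re := by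
        rw [← h4]
        linarith only [hT0, mul_nonneg hT0 (sq_nonneg (Real.sinh w.im))]
      exact le_of_mul_le_mul_right this hc
    have h7 : ((Complex.tan w).re * Real.cos w.re) ^ 2 ≤ S := 
      (pow_le_pow_left₀ (by positivity) h6 2).trans hs
    have h8 : (Complex.tan w).re ^ 2 * (1 - S) ≤ χ ^ 2 * (1 - S) := by
      have : (Complex.tan w).re ^ 2 * (1 - S) ≤ (Complex.tan w).re ^ 2 * Real.cos w.re ^ 2 :=
        mul_le_mul_of_nonneg_left (by linarith only [hs, h5]) (sq_nonneg _)
      rw [mul_pow] at h7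
      linarith only [hχ, h7, this]
    have h9 := le_of_mul_le_mul_right h8 (by linarith only [hS2] : (0 : ℝ) < 1 - S)
    exact le_of_sq_le_sq h9 hχ0
  obtain ⟨r1, r2⟩ := R.bound hT hX hv h2 h0 h1 h3 g0 g1 g3
  exact ⟨r1, r2, hT, hX, hs, hh⟩

lemma Rg.start (R : Rg B x y w Q Q') :
    8 * w.re ≤ Real.pi + ((nS x + nS y) * (666 / 1000) + (nZ x + nZ y) * (306 / 1000)) ∧
      8 * -w.im ≤ (nE x + nE y) * (87 / 100) := by
  have hc := cos_ne_of_n (own_n R.mem)
  have hT : (Complex.tan w).re ^ 2 + (Complex.tan w).im ^ 2 ≤ 8305 / 10000 := by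
    have h : polyOK 2000 0 311 1000 (vt .t8) = true := by decide
    have h1 := poly_sound h R.mem
    have h2 := norm_one_sub_sq (Complex.cos w)
    simp only [quart, Int.cast_ofNat, Int.cast_zero] at h1
    have h3 : ‖Complex.tan w ^ 2‖ * ((Complex.cos w).re ^ 2 + (Complex.cos w).im ^ 2) =
        ‖1 - Complex.cos w ^ 2‖ := by
      rw [tan_sq_eq, norm_div, norm_pow (Complex.cos w), norm_sq_re_im]
      have := own_n R.mem
      field_simp
    have h4 : ‖Complex.tan w ^ 2‖ = (Complex.tan w).re ^ 2 + (Complex.tan w).im ^ 2 := by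
      rw [norm_pow, norm_sq_re_im]
    have hn := own_n R.mem
    rw [← h4]
    set N := (Complex.cos w).re ^ 2 + (Complex.cos w).im ^ 2
    have h5 : (‖Complex.tan w ^ 2‖ * N) ^ 2 ≤ (8305 / 10000 * N) ^ 2 := by
      rw [h3, h2]
      nlinarith only [h1, sq_nonneg N]
    have h6 := le_of_sq_le_sq h5 (by positivity)
    exact le_of_mul_le_mul_right h6 hn
  have hX : (Complex.tan w).re ≤ 9114 / 10000 := by
    apply le_of_sq_le_sq _ (by norm_num)
    nlinarith only [hT, sq_nonneg (Complex.tan w).im]
  exact R.bound hT hX (by norm_num) (by norm_num) (by norm_num) (by norm_num) (by norm_num)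
    (by norm_num) (by norm_num) (by norm_num)

lemma im_of {a m v E : ℝ} (h : 8 * a ≤ m * v) (hm : m ≤ 2) (hv : 0 ≤ v) (hE : 2 * v ≤ 8 * E) :
    a ≤ E := by
  have := mul_le_mul_of_nonneg_right hm hv
  linarith only [h, hE, this]

lemma nE_le (x y : SK) : nE x + nE y ≤ 2 := by
  cases x <;> cases y <;> norm_num [nE]

lemma Rg.loc00 (R : Rg B x y w Q Q') (hs : nS x + nS y = 0) (hz : nZ x + nZ y = 0) :
    w.re ≤ 39270 / 100000 ∧ 8 * -w.im ≤ (nE x + nE y) * (4445 / 10000) ∧
      (Complex.tan w).re ^ 2 + (Complex.tan w).im ^ 2 ≤ 18357 / 100000 ∧ (Complex.tan w).re ≤ 41424 / 100000 ∧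
      Real.sin w.re ^ 2 ≤ 14646 / 100000 ∧ Real.sinh w.im ^ 2 ≤ 1252 / 100000 := by
  have hpi : Real.pi < 31416 / 10000 := by have := Real.pi_lt_d4; linarith only [this]
  have hm := nE_le x y
  have t0 := R.start
  rw [hs, hz] at t0
  have t1 := R.step (A := 39270 / 100000) (E := 21750 / 100000) (S := 14646 / 100000) (H := 4811 / 100000) (τ := 21580 / 100000) (v := 4794 / 10000)
    (χ := 41424 / 100000) (θ := 2839 / 10000) (φ := 1372 / 10000)
    (by linarith only [hpi, t0, t0.1]) (by norm_num) (im_of t0.2 hm (by norm_num) (by norm_num)) (by norm_num) (by norm_num)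
    (by norm_num) (by norm_num) (by norm_num) (by norm_num) (by norm_num) (by norm_num)
    (by norm_num) (by norm_num) (by norm_num) (by norm_num) (by norm_num) (by norm_num) (by norm_num)
  rw [hs, hz] at t1
  have t2 := R.step (A := 39270 / 100000) (E := 11985 / 100000) (S := 14646 / 100000) (H := 1444 / 100000) (τ := 18538 / 100000) (v := 4465 / 10000)
    (χ := 41424 / 100000) (θ := 2839 / 10000) (φ := 1372 / 10000)
    (by linarith only [hpi, t0, t1.1]) (by norm_num) (im_of t1.2.1 hm (by norm_num) (by norm_num)) (by norm_num) (by norm_num)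
    (by norm_num) (by norm_num) (by norm_num) (by norm_num) (by norm_num) (by norm_num)
    (by norm_num) (by norm_num) (by norm_num) (by norm_num) (by norm_num) (by norm_num) (by norm_num)
  rw [hs, hz] at t2
  have t3 := R.step (A := 39270 / 100000) (E := 11163 / 100000) (S := 14646 / 100000) (H := 1252 / 100000) (τ := 18357 / 100000) (v := 4445 / 10000)
    (χ := 41424 / 100000) (θ := 2839 / 10000) (φ := 1372 / 10000)
    (by linarith only [hpi, t0, t2.1]) (by norm_num) (im_of t2.2.1 hm (by norm_num) (by norm_num)) (by norm_num) (by norm_num)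
    (by norm_num) (by norm_num) (by norm_num) (by norm_num) (by norm_num) (by norm_num)
    (by norm_num) (by norm_num) (by norm_num) (by norm_num) (by norm_num) (by norm_num) (by norm_num)
  rw [hs, hz] at t3
  exact ⟨by linarith only [hpi, t0, t3.1], t3.2.1, t3.2.2.1, t3.2.2.2.1, t3.2.2.2.2.1, t3.2.2.2.2.2⟩

lemma Rg.loc01 (R : Rg B x y w Q Q') (hs : nS x + nS y = 0) (hz : nZ x + nZ y = 1) :
    w.re ≤ 41074 / 100000 ∧ 8 * -w.im ≤ (nE x + nE y) * (4658 / 10000) ∧
      (Complex.tan w).re ^ 2 + (Complex.tan w).im ^ 2 ≤ 20291 / 100000 ∧ (Complex.tan w).re ≤ 43561 / 100000 ∧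
      Real.sin w.re ^ 2 ≤ 15949 / 100000 ∧ Real.sinh w.im ^ 2 ≤ 1387 / 100000 := by
  have hpi : Real.pi < 31416 / 10000 := by have := Real.pi_lt_d4; linarith only [this]
  have hm := nE_le x y
  have t0 := R.start
  rw [hs, hz] at t0
  have t1 := R.step (A := 43095 / 100000) (E := 21750 / 100000) (S := 17453 / 100000) (H := 4811 / 100000) (τ := 25486 / 100000) (v := 5178 / 10000)
    (χ := 45982 / 100000) (θ := 3162 / 10000) (φ := 1524 / 10000)
    (by linarith only [hpi, t0, t0.1]) (by norm_num) (im_of t0.2 hm (by norm_num) (by norm_num)) (by norm_num) (by norm_num)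
    (by norm_num) (by norm_num) (by norm_num) (by norm_num) (by norm_num) (by norm_num)
    (by norm_num) (by norm_num) (by norm_num) (by norm_num) (by norm_num) (by norm_num) (by norm_num)
  rw [hs, hz] at t1
  have t2 := R.step (A := 41175 / 100000) (E := 12945 / 100000) (S := 16019 / 100000) (H := 1686 / 100000) (τ := 20668 / 100000) (v := 4699 / 10000)
    (χ := 43675 / 100000) (θ := 2998 / 10000) (φ := 1447 / 10000)
    (by linarith only [hpi, t1, t1.1]) (by norm_num) (im_of t1.2.1 hm (by norm_num) (by norm_num)) (by norm_num) (by norm_num)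
    (by norm_num) (by norm_num) (by norm_num) (by norm_num) (by norm_num) (by norm_num)
    (by norm_num) (by norm_num) (by norm_num) (by norm_num) (by norm_num) (by norm_num) (by norm_num)
  rw [hs, hz] at t2
  have t3 := R.step (A := 41079 / 100000) (E := 11748 / 100000) (S := 15949 / 100000) (H := 1387 / 100000) (τ := 20291 / 100000) (v := 4658 / 10000)
    (χ := 43561 / 100000) (θ := 2990 / 10000) (φ := 1443 / 10000)
    (by linarith only [hpi, t2, t2.1]) (by norm_num) (im_of t2.2.1 hm (by norm_num) (by norm_num)) (by norm_num) (by norm_num)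
    (by norm_num) (by norm_num) (by norm_num) (by norm_num) (by norm_num) (by norm_num)
    (by norm_num) (by norm_num) (by norm_num) (by norm_num) (by norm_num) (by norm_num) (by norm_num)
  rw [hs, hz] at t3
  exact ⟨by linarith only [hpi, t3, t3.1], t3.2.1, t3.2.2.1, t3.2.2.2.1, t3.2.2.2.2.1, t3.2.2.2.2.2⟩

lemma Rg.loc02 (R : Rg B x y w Q Q') (hs : nS x + nS y = 0) (hz : nZ x + nZ y = 2) :
    w.re ≤ 43083 / 100000 ∧ 8 * -w.im ≤ (nE x + nE y) * (4901 / 10000) ∧
      (Complex.tan w).re ^ 2 + (Complex.tan w).im ^ 2 ≤ 22628 / 100000 ∧ (Complex.tan w).re ≤ 46009 / 100000 ∧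
      Real.sin w.re ^ 2 ≤ 17470 / 100000 ∧ Real.sinh w.im ^ 2 ≤ 1557 / 100000 := by
  have hpi : Real.pi < 31416 / 10000 := by have := Real.pi_lt_d4; linarith only [this]
  have hm := nE_le x y
  have t0 := R.start
  rw [hs, hz] at t0
  have t1 := R.step (A := 46920 / 100000) (E := 21750 / 100000) (S := 20450 / 100000) (H := 4811 / 100000) (τ := 29944 / 100000) (v := 5575 / 10000)
    (χ := 50703 / 100000) (θ := 3499 / 10000) (φ := 1682 / 10000)
    (by linarith only [hpi, t0, t0.1]) (by norm_num) (im_of t0.2 hm (by norm_num) (by norm_num)) (by norm_num) (by norm_num)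
    (by norm_num) (by norm_num) (by norm_num) (by norm_num) (by norm_num) (by norm_num)
    (by norm_num) (by norm_num) (by norm_num) (by norm_num) (by norm_num) (by norm_num) (by norm_num)
  rw [hs, hz] at t1
  have t2 := R.step (A := 43475 / 100000) (E := 13938 / 100000) (S := 17742 / 100000) (H := 1956 / 100000) (τ := 23391 / 100000) (v := 4977 / 10000)
    (χ := 46443 / 100000) (θ := 3194 / 10000) (φ := 1539 / 10000)
    (by linarith only [hpi, t1, t1.1]) (by norm_num) (im_of t1.2.1 hm (by norm_num) (by norm_num)) (by norm_num) (by norm_num)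
    (by norm_num) (by norm_num) (by norm_num) (by norm_num) (by norm_num) (by norm_num)
    (by norm_num) (by norm_num) (by norm_num) (by norm_num) (by norm_num) (by norm_num) (by norm_num)
  rw [hs, hz] at t2
  have t3 := R.step (A := 43118 / 100000) (E := 12443 / 100000) (S := 17470 / 100000) (H := 1557 / 100000) (τ := 22628 / 100000) (v := 4901 / 10000)
    (χ := 46009 / 100000) (θ := 3163 / 10000) (φ := 1525 / 10000)
    (by linarith only [hpi, t2, t2.1]) (by norm_num) (im_of t2.2.1 hm (by norm_num) (by norm_num)) (by norm_num) (by norm_num)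
    (by norm_num) (by norm_num) (by norm_num) (by norm_num) (by norm_num) (by norm_num)
    (by norm_num) (by norm_num) (by norm_num) (by norm_num) (by norm_num) (by norm_num) (by norm_num)
  rw [hs, hz] at t3
  exact ⟨by linarith only [hpi, t3, t3.1], t3.2.1, t3.2.2.1, t3.2.2.2.1, t3.2.2.2.2.1, t3.2.2.2.2.2⟩

lemma Rg.loc10 (R : Rg B x y w Q Q') (hs : nS x + nS y = 1) (hz : nZ x + nZ y = 0) :
    w.re ≤ 43243 / 100000 ∧ 8 * -w.im ≤ (nE x + nE y) * (4922 / 10000) ∧
      (Complex.tan w).re ^ 2 + (Complex.tan w).im ^ 2 ≤ 22838 / 100000 ∧ (Complex.tan w).re ≤ 46218 / 100000 ∧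
      Real.sin w.re ^ 2 ≤ 17601 / 100000 ∧ Real.sinh w.im ^ 2 ≤ 1577 / 100000 := by
  have hpi : Real.pi < 31416 / 10000 := by have := Real.pi_lt_d4; linarith only [this]
  have hm := nE_le x y
  have t0 := R.start
  rw [hs, hz] at t0
  have t1 := R.step (A := 47595 / 100000) (E := 21750 / 100000) (S := 20998 / 100000) (H := 4811 / 100000) (τ := 30794 / 100000) (v := 5646 / 10000)
    (χ := 51555 / 100000) (θ := 3561 / 10000) (φ := 1710 / 10000)
    (by linarith only [hpi, t0, t0.1]) (by norm_num) (im_of t0.2 hm (by norm_num) (by norm_num)) (by norm_num) (by norm_num)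
    (by norm_num) (by norm_num) (by norm_num) (by norm_num) (by norm_num) (by norm_num)
    (by norm_num) (by norm_num) (by norm_num) (by norm_num) (by norm_num) (by norm_num) (by norm_num)
  rw [hs, hz] at t1
  have t2 := R.step (A := 43722 / 100000) (E := 14115 / 100000) (S := 17931 / 100000) (H := 2007 / 100000) (τ := 23715 / 100000) (v := 5009 / 10000)
    (χ := 46743 / 100000) (θ := 3216 / 10000) (φ := 1549 / 10000)
    (by linarith only [hpi, t1, t1.1]) (by norm_num) (im_of t1.2.1 hm (by norm_num) (by norm_num)) (by norm_num) (by norm_num)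
    (by norm_num) (by norm_num) (by norm_num) (by norm_num) (by norm_num) (by norm_num)
    (by norm_num) (by norm_num) (by norm_num) (by norm_num) (by norm_num) (by norm_num) (by norm_num)
  rw [hs, hz] at t2
  have t3 := R.step (A := 43290 / 100000) (E := 12523 / 100000) (S := 17601 / 100000) (H := 1577 / 100000) (τ := 22838 / 100000) (v := 4922 / 10000)
    (χ := 46218 / 100000) (θ := 3178 / 10000) (φ := 1532 / 10000)
    (by linarith only [hpi, t2, t2.1]) (by norm_num) (im_of t2.2.1 hm (by norm_num) (by norm_num)) (by norm_num) (by norm_num)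
    (by norm_num) (by norm_num) (by norm_num) (by norm_num) (by norm_num) (by norm_num)
    (by norm_num) (by norm_num) (by norm_num) (by norm_num) (by norm_num) (by norm_num) (by norm_num)
  rw [hs, hz] at t3
  exact ⟨by linarith only [hpi, t3, t3.1], t3.2.1, t3.2.2.1, t3.2.2.2.1, t3.2.2.2.2.1, t3.2.2.2.2.2⟩

lemma Rg.loc11 (R : Rg B x y w Q Q') (hs : nS x + nS y = 1) (hz : nZ x + nZ y = 1) :
    w.re ≤ 45543 / 100000 ∧ 8 * -w.im ≤ (nE x + nE y) * (5209 / 10000) ∧
      (Complex.tan w).re ^ 2 + (Complex.tan w).im ^ 2 ≤ 25815 / 100000 ∧ (Complex.tan w).re ≤ 49154 / 100000 ∧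
      Real.sin w.re ^ 2 ≤ 19459 / 100000 ∧ Real.sinh w.im ^ 2 ≤ 1796 / 100000 := by
  have hpi : Real.pi < 31416 / 10000 := by have := Real.pi_lt_d4; linarith only [this]
  have hm := nE_le x y
  have t0 := R.start
  rw [hs, hz] at t0
  have t1 := R.step (A := 51420 / 100000) (E := 21750 / 100000) (S := 24197 / 100000) (H := 4811 / 100000) (τ := 35984 / 100000) (v := 6057 / 10000)
    (χ := 56499 / 100000) (θ := 3920 / 10000) (φ := 1876 / 10000)
    (by linarith only [hpi, t0, t0.1]) (by norm_num) (im_of t0.2 hm (by norm_num) (by norm_num)) (by norm_num) (by norm_num)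
    (by norm_num) (by norm_num) (by norm_num) (by norm_num) (by norm_num) (by norm_num)
    (by norm_num) (by norm_num) (by norm_num) (by norm_num) (by norm_num) (by norm_num) (by norm_num)
  rw [hs, hz] at t1
  have t2 := R.step (A := 46515 / 100000) (E := 15143 / 100000) (S := 20124 / 100000) (H := 2312 / 100000) (τ := 27299 / 100000) (v := 5344 / 10000)
    (χ := 50194 / 100000) (θ := 3463 / 10000) (φ := 1665 / 10000)
    (by linarith only [hpi, t1, t1.1]) (by norm_num) (im_of t1.2.1 hm (by norm_num) (by norm_num)) (by norm_num) (by norm_num)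
    (by norm_num) (by norm_num) (by norm_num) (by norm_num) (by norm_num) (by norm_num)
    (by norm_num) (by norm_num) (by norm_num) (by norm_num) (by norm_num) (by norm_num) (by norm_num)
  rw [hs, hz] at t2
  have t3 := R.step (A := 45680 / 100000) (E := 13360 / 100000) (S := 19459 / 100000) (H := 1796 / 100000) (τ := 25815 / 100000) (v := 5209 / 10000)
    (χ := 49154 / 100000) (θ := 3388 / 10000) (φ := 1630 / 10000)
    (by linarith only [hpi, t2, t2.1]) (by norm_num) (im_of t2.2.1 hm (by norm_num) (by norm_num)) (by norm_num) (by norm_num)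
    (by norm_num) (by norm_num) (by norm_num) (by norm_num) (by norm_num) (by norm_num)
    (by norm_num) (by norm_num) (by norm_num) (by norm_num) (by norm_num) (by norm_num) (by norm_num)
  rw [hs, hz] at t3
  exact ⟨by linarith only [hpi, t3, t3.1], t3.2.1, t3.2.2.1, t3.2.2.2.1, t3.2.2.2.2.1, t3.2.2.2.2.2⟩

lemma Rg.loc20 (R : Rg B x y w Q Q') (hs : nS x + nS y = 2) (hz : nZ x + nZ y = 0) :
    w.re ≤ 48445 / 100000 ∧ 8 * -w.im ≤ (nE x + nE y) * (5584 / 10000) ∧
      (Complex.tan w).re ^ 2 + (Complex.tan w).im ^ 2 ≤ 30047 / 100000 ∧ (Complex.tan w).re ≤ 53063 / 100000 ∧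
      Real.sin w.re ^ 2 ≤ 21970 / 100000 ∧ Real.sinh w.im ^ 2 ≤ 2109 / 100000 := by
  have hpi : Real.pi < 31416 / 10000 := by have := Real.pi_lt_d4; linarith only [this]
  have hm := nE_le x y
  have t0 := R.start
  rw [hs, hz] at t0
  have t1 := R.step (A := 55920 / 100000) (E := 21750 / 100000) (S := 28154 / 100000) (H := 4811 / 100000) (τ := 43004 / 100000) (v := 6557 / 10000)
    (χ := 62600 / 100000) (θ := 4371 / 10000) (φ := 2081 / 10000)
    (by linarith only [hpi, t0, t0.1]) (by norm_num) (im_of t0.2 hm (by norm_num) (by norm_num)) (by norm_num) (by norm_num)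
    (by norm_num) (by norm_num) (by norm_num) (by norm_num) (by norm_num) (by norm_num)
    (by norm_num) (by norm_num) (by norm_num) (by norm_num) (by norm_num) (by norm_num) (by norm_num)
  rw [hs, hz] at t1
  have t2 := R.step (A := 50198 / 100000) (E := 16393 / 100000) (S := 23157 / 100000) (H := 2713 / 100000) (τ := 32518 / 100000) (v := 5787 / 10000)
    (χ := 54896 / 100000) (θ := 3803 / 10000) (φ := 1822 / 10000)
    (by linarith only [hpi, t1, t1.1]) (by norm_num) (im_of t1.2.1 hm (by norm_num) (by norm_num)) (by norm_num) (by norm_num)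
    (by norm_num) (by norm_num) (by norm_num) (by norm_num) (by norm_num) (by norm_num)
    (by norm_num) (by norm_num) (by norm_num) (by norm_num) (by norm_num) (by norm_num) (by norm_num)
  rw [hs, hz] at t2
  have t3 := R.step (A := 48778 / 100000) (E := 14468 / 100000) (S := 21970 / 100000) (H := 2109 / 100000) (τ := 30047 / 100000) (v := 5584 / 10000)
    (χ := 53063 / 100000) (θ := 3670 / 10000) (φ := 1761 / 10000)
    (by linarith only [hpi, t2, t2.1]) (by norm_num) (im_of t2.2.1 hm (by norm_num) (by norm_num)) (by norm_num) (by norm_num)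
    (by norm_num) (by norm_num) (by norm_num) (by norm_num) (by norm_num) (by norm_num)
    (by norm_num) (by norm_num) (by norm_num) (by norm_num) (by norm_num) (by norm_num) (by norm_num)
  rw [hs, hz] at t3
  exact ⟨by linarith only [hpi, t3, t3.1], t3.2.1, t3.2.2.1, t3.2.2.2.1, t3.2.2.2.2.1, t3.2.2.2.2.2⟩

end Z8

end Pool.Agent.Work.MP_b30479_gtS.G2

end

section

/-!
# Bounds of a ring variable from the polygon of its cosine

`(1 - C) x² - C y² - C (1 - C) = (cos² w₁ - C) (cosh² w₂ - C)` for `x + i y = cos w`; its sign on a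
polygon is read off from the polar form on the triangles of a fan.
-/

namespace Pool.Agent.Work.MP_b30479_gtS.G2.CN.M4

open Complex SR NumIs

/-- the polar form, units `1 / 1000` and `10 ^ 7` -/
def gf (c : ℤ) (p q : ℤ × ℤ) : ℤ :=
  (10000000 - c) * 10000000 * (p.1 * q.1) - c * 10000000 * (p.2 * q.2) -
    c * (10000000 - c) * 1000000

/-- one triangle -/
def triF (s c : ℤ) (a b d : ℤ × ℤ) : Bool :=
  decide (0 < (b.1 - a.1) * (d.2 - a.2) - (b.2 - a.2) * (d.1 - a.1)) &&
  decide (0 ≤ s * gf c a a) && decide (0 ≤ s * gf c b b) && decide (0 ≤ s * gf c d d) &&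
  decide (0 ≤ s * gf c a b) && decide (0 ≤ s * gf c a d) && decide (0 ≤ s * gf c b d)

/-- all triangles of the fan -/
def fanF (s c : ℤ) (a : ℤ × ℤ) : List (ℤ × ℤ) → Bool
  | b :: d :: l => triF s c a b d && fanF s c a (d :: l)
  | _ => true

/-- the check for a polygon -/
def polyF (s c : ℤ) : List (ℤ × ℤ) → Bool
  | a :: b :: d :: l => fanF s c a (b :: d :: l)
  | _ => false

/-- the quadratic function -/
noncomputable def qf (C : ℝ) (z : ℂ) : ℝ := (1 - C) * z.re ^ 2 - C * z.im ^ 2 - C * (1 - C)

lemma tri_sound {s c : ℤ} {a b d : ℤ × ℤ} (h : triF s c a b d = true) {z : ℂ}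
    (h0 : 0 ≤ cr b d z) (h1 : cr a d z ≤ 0) (h2 : 0 ≤ cr a b z) :
    0 ≤ (s : ℝ) * qf ((c : ℝ) / 10000000) z := by
  simp only [triF, Bool.and_eq_true, decide_eq_true_eq] at h
  obtain ⟨⟨⟨⟨⟨⟨hD, c1⟩, c2⟩, c3⟩, c4⟩, c5⟩, c6⟩ := h
  obtain ⟨a1, a2⟩ := a
  obtain ⟨b1, b2⟩ := b
  obtain ⟨e1, e2⟩ := d
  simp only [gf] at c1 c2 c3 c4 c5 c6
  simp only at hD
  have hD' : (0 : ℝ) < (b1 - a1) * (e2 - a2) - (b2 - a2) * (e1 - a1) := by exact_mod_cast hD
  rify at c1 c2 c3 c4 c5 c6
  simp only [cr, Int.cast_sub] at h0 h1 h2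
  generalize hx : z.re = x at *
  generalize hy : z.im = y at *
  obtain ⟨l0, hl0⟩ : ∃ l0 : ℝ, l0 = ((e1 : ℝ) - b1) * (1000 * y - b2) -
    ((e2 : ℝ) - b2) * (1000 * x - b1) := ⟨_, rfl⟩
  obtain ⟨l1, hl1⟩ : ∃ l1 : ℝ, l1 = -(((e1 : ℝ) - a1) * (1000 * y - a2) -
    ((e2 : ℝ) - a2) * (1000 * x - a1)) := ⟨_, rfl⟩
  obtain ⟨l2, hl2⟩ : ∃ l2 : ℝ, l2 = ((b1 : ℝ) - a1) * (1000 * y - a2) -
    ((b2 : ℝ) - a2) * (1000 * x - a1) := ⟨_, rfl⟩
  have p0 : 0 ≤ l0 := by rw [hl0]; exact h0
  have p1 : 0 ≤ l1 := by rw [hl1]; linarith only [h1]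
  have p2 : 0 ≤ l2 := by rw [hl2]; exact h2
  set D : ℝ := ((b1 : ℝ) - a1) * (e2 - a2) - (b2 - a2) * (e1 - a1) with hDd
  have sD : l0 + l1 + l2 = D := by rw [hl0, hl1, hl2, hDd]; ring
  have sx : D * (1000 * x) = l0 * a1 + l1 * b1 + l2 * e1 := by
    rw [hl0, hl1, hl2, hDd]; ring
  have sy : D * (1000 * y) = l0 * a2 + l1 * b2 + l2 * e2 := by
    rw [hl0, hl1, hl2, hDd]; ring
  have key : D ^ 2 * 1000000 * 100000000000000 * ((s : ℝ) * qf ((c : ℝ) / 10000000) z) =
      s * ((10000000 - c) * 10000000 * (D * (1000 * x)) ^ 2 -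
        c * 10000000 * (D * (1000 * y)) ^ 2 - c * (10000000 - c) * 1000000 * D ^ 2) := by
    rw [qf, hx, hy]
    ring
  have hpos : 0 ≤ D ^ 2 * 1000000 * 100000000000000 * ((s : ℝ) * qf ((c : ℝ) / 10000000) z) := by
    rw [key, sx, sy, ← sD]
    have q1 := mul_nonneg (pow_nonneg p0 2) c1
    have q2 := mul_nonneg (pow_nonneg p1 2) c2
    have q3 := mul_nonneg (pow_nonneg p2 2) c3
    have q4 := mul_nonneg (mul_nonneg p0 p1) c4
    have q5 := mul_nonneg (mul_nonneg p0 p2) c5
    have q6 := mul_nonneg (mul_nonneg p1 p2) c6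
    have hs := add_nonneg (add_nonneg (add_nonneg q1 q2) q3) (mul_nonneg (by norm_num :
      (0 : ℝ) ≤ 2) (add_nonneg (add_nonneg q4 q5) q6))
    refine hs.trans (le_of_eq ?_)
    ring
  have hD4 : 0 < D ^ 2 * 1000000 * 100000000000000 := by positivity
  exact nonneg_of_mul_nonneg_right hpos hD4

lemma fan_sound {s c : ℤ} {a : ℤ × ℤ} {z : ℂ} (t : List (ℤ × ℤ)) :
    ∀ x : ℤ × ℤ, (∀ e ∈ (x :: t).zip (t ++ [a]), 0 ≤ cr e.1 e.2 z) →
      fanF s c a (x :: t) = true → 0 ≤ cr a x z → (t ≠ [] ∨ 0 < cr a x z) →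
      0 ≤ (s : ℝ) * qf ((c : ℝ) / 10000000) z := by
  induction t with
  | nil =>
    intro x h1 _ _ h4
    have h5 := h1 (x, a) (by simp)
    rw [SQ.cr_swap] at h5
    rcases h4 with h4 | h4
    · exact absurd rfl h4
    · simp only at h5
      linarith only [h5, h4]
  | cons y t ih =>
    intro x h1 h2 h3 _
    rw [fanF, Bool.and_eq_true] at h2
    by_cases hy : cr a y z ≤ 0
    · exact tri_sound h2.1 (h1 (x, y) (by simp)) hy h3
    · push Not at hy
      exact ih y (fun e he => h1 e (by simp [he])) h2.2 hy.le (Or.inr hy)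

theorem polyF_sound {s c : ℤ} {V : List (ℤ × ℤ)} (h : polyF s c V = true) {z : ℂ}
    (hz : z ∈ Poly V) : 0 ≤ (s : ℝ) * qf ((c : ℝ) / 10000000) z := by
  match V, h, hz with
  | [], h, _ => simp [polyF] at h
  | [_], h, _ => simp [polyF] at h
  | [_, _], h, _ => simp [polyF] at h
  | a :: b :: c :: l, h, hz =>
    rw [polyF] at h
    have hz' : ∀ e ∈ (a :: b :: c :: l).zip ((b :: c :: l) ++ [a]), 0 ≤ cr e.1 e.2 z := by
      intro e he
      apply hz e
      rw [edges, List.rotate_cons_succ, List.rotate_zero]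
      exact he
    refine fan_sound (c :: l) b (fun e he => hz' e ?_) h (hz' (a, b) (by simp))
      (Or.inl (List.cons_ne_nil _ _))
    rw [List.cons_append, List.zip_cons_cons]
    exact List.mem_cons_of_mem _ he

/-- the factorisation -/
lemma qf_cos (C : ℝ) (w : ℂ) : qf C (Complex.cos w) =
    (Real.cos w.re ^ 2 - C) * (Real.cosh w.im ^ 2 - C) := by
  obtain ⟨h1, h2⟩ := Z8.cos_parts w
  have h3 := Real.sin_sq_add_cos_sq w.re
  have h4 := Real.cosh_sq w.im
  unfold qf
  rw [h1, h2]
  have h5 : Real.sin w.re ^ 2 = 1 - Real.cos w.re ^ 2 := by linarith only [h3]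
  have h6 : Real.sinh w.im ^ 2 = Real.cosh w.im ^ 2 - 1 := by linarith only [h4]
  have h7 : (-(Real.sin w.re * Real.sinh w.im)) ^ 2 =
      (1 - Real.cos w.re ^ 2) * (Real.cosh w.im ^ 2 - 1) := by
    rw [← h5, ← h6]
    ring
  rw [h7]
  ring

/-! ### bounds -/

/-- an upper bound `n / 10000` of `w₁ / π`; `c > 10 ^ 7 cos² (π n / 10000)` -/
structure UD where
  n : ℕ
  c : ℤ

/-- the check of the number -/
def UD.ok (s : UD) : Bool := decide (s.c < 10000000) && Nat.ble s.n 5000 &&
  chk [.sub (.q s.c 10000000) (.sq (.cosPi (.q s.n 10000)))] 1 []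

/-- bounds: `n0 ≤ 10000 w₁ / π ≤ n1`, `10000 |w₂| / π ≤ m` -/
structure ZD where
  n1 : ℕ
  n0 : ℕ
  m : ℕ
  c1 : ℤ
  c0 : ℤ
  h : ℤ

/-- the check of the numbers -/
def ZD.ok (s : ZD) : Bool := (UD.ok ⟨s.n1, s.c1⟩ && decide (s.c0 < 10000000)) &&
  decide (10000000 < s.h) && Nat.ble s.n0 5000 &&
  chk [.sub (.sq (.cosPi (.q s.n0 10000))) (.q s.c0 10000000)] 1 [] &&
  chk [.sub (.sq (.cosh (.mul .pi (.q s.m 10000)))) (.q s.h 10000000)] 1 []

/-- the check for a polygon -/
noncomputable def ZD.pol (s : ZD) (V : List (ℤ × ℤ)) : Bool := polyF 1 s.c1 V && polyF (-1) s.c0 V &&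
  polyF 1 s.h V && okH [⟨0, 1000000, 0, 1⟩] V

section
variable {V : List (ℤ × ℤ)} {w : ℂ}

theorem UD.sound {s : UD} (h : s.ok = true) (hV : polyF 1 s.c V = true)
    (hw : Complex.cos w ∈ Poly V) (h0 : 0 < w.re) (h1 : w.re < 3 / 2) :
    w.re / Real.pi ≤ s.n / 10000 := by
  have hpi := Real.pi_pos
  have hpi3 := Real.pi_gt_three
  unfold ok at h
  simp only [Bool.and_eq_true, decide_eq_true_eq, Nat.ble_eq] at h
  obtain ⟨⟨k1, k2⟩, k3⟩ := h
  have g := pos_of_chk (chk_sound k3 List.Forall₂.nil)
  simp only [E.val, Int.cast_natCast] at g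
  push_cast at g
  have k1' : (s.c : ℝ) < 10000000 := by exact_mod_cast k1
  have k2' : (s.n : ℝ) ≤ 5000 := by exact_mod_cast k2
  have f := polyF_sound hV hw
  rw [qf_cos] at f
  have c1 : 1 ≤ Real.cosh w.im ^ 2 := one_le_pow₀ (Real.one_le_cosh _)
  have c2 : (s.c : ℝ) / 10000000 < 1 := by rw [div_lt_one (by norm_num)]; exact k1'
  have c3 : 0 ≤ Real.cos w.re ^ 2 - (s.c : ℝ) / 10000000 := by
    rw [Int.cast_one, one_mul] at f
    exact nonneg_of_mul_nonneg_left f (by linarith only [k1', c1])
  have c4 : Real.cos (Real.pi * (s.n / 10000)) ^ 2 < Real.cos w.re ^ 2 := by linarith only [g, c3]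
  have c5 : 0 ≤ Real.cos w.re := Real.cos_nonneg_of_mem_Icc ⟨by linarith only [h0, hpi3], by linarith only [h1, hpi3]⟩
  have c6 : Real.cos (Real.pi * (s.n / 10000)) < Real.cos w.re := lt_of_pow_lt_pow_left₀ 2 c5 c4
  by_contra hc
  push Not at hc
  rw [lt_div_iff₀ hpi] at hc
  have c7 := Real.cos_le_cos_of_nonneg_of_le_pi (x := Real.pi * (s.n / 10000)) (y := w.re)
    (by positivity) (by linarith only [h1, hpi3]) (by linarith only [hc])
  linarith only [c6, c7]

theorem ZD.sound {s : ZD} (h : s.ok = true) (hV : s.pol V = true)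
    (hw : Complex.cos w ∈ Poly V) (h0 : 0 < w.re) (h1 : w.re < 3 / 2) :
    (s.n0 : ℝ) / 10000 ≤ w.re / Real.pi ∧ w.re / Real.pi ≤ s.n1 / 10000 ∧
      w.im < 0 ∧ -w.im / Real.pi ≤ s.m / 10000 := by
  have hpi := Real.pi_pos
  have hpi3 := Real.pi_gt_three
  unfold ok at h
  unfold pol at hV
  simp only [Bool.and_eq_true, decide_eq_true_eq, Nat.ble_eq] at h hV
  obtain ⟨⟨⟨⟨⟨k0, k1⟩, k2⟩, k3⟩, k4⟩, k5⟩ := h
  obtain ⟨⟨⟨v1, v2⟩, v3⟩, v4⟩ := hV
  have g4 := pos_of_chk (chk_sound k4 List.Forall₂.nil)
  have g5 := pos_of_chk (chk_sound k5 List.Forall₂.nil)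
  simp only [E.val, Int.cast_natCast] at g4 g5
  push_cast at g4 g5
  have k1' : (s.c0 : ℝ) < 10000000 := by exact_mod_cast k1
  have k2' : (10000000 : ℝ) < s.h := by exact_mod_cast k2
  have k3' : (s.n0 : ℝ) ≤ 5000 := by exact_mod_cast k3
  have f2 := polyF_sound v2 hw
  have f3 := polyF_sound v3 hw
  rw [qf_cos] at f2 f3
  push_cast at f2 f3
  have c1 : 1 ≤ Real.cosh w.im ^ 2 := one_le_pow₀ (Real.one_le_cosh _)
  have d1 : Real.cos w.re ^ 2 ≤ 1 := Real.cos_sq_le_one _
  have hs : 0 < Real.sin w.re := Real.sin_pos_of_pos_of_lt_pi h0 (by linarith only [h1, hpi3])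
  have hcp : 0 < Real.cos w.re := Real.cos_pos_of_mem_Ioo ⟨by linarith only [h0, hpi3], by linarith only [h1, hpi3]⟩
  have him : w.im < 0 := by
    have h2 := okH_sound v4 hw ⟨0, 1000000, 0, 1⟩ (by simp)
    unfold QC.Sat at h2
    rw [pow_two, Complex.mul_im] at h2
    obtain ⟨e1, e2⟩ := Z8.cos_parts w
    rw [e1, e2] at h2
    push_cast at h2
    by_contra hc
    push Not at hc
    have h3 := Real.sinh_nonneg_iff.2 hc
    have h4 := mul_nonneg (mul_nonneg hcp.le (Real.cosh_pos w.im).le) (mul_nonneg hs.le h3)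
    linarith only [h2, h4]
  refine ⟨?_, UD.sound k0 v1 hw h0 h1, him, ?_⟩
  · have c2 : (s.c0 : ℝ) / 10000000 < 1 := by rw [div_lt_one (by norm_num)]; exact k1'
    have c3 : Real.cos w.re ^ 2 - (s.c0 : ℝ) / 10000000 ≤ 0 := by
      by_contra hc
      push Not at hc
      have := mul_pos hc (by linarith only [k1', c1] : 0 < Real.cosh w.im ^ 2 - (s.c0 : ℝ) / 10000000)
      linarith only [f2, this]
    have c4 : Real.cos w.re ^ 2 < Real.cos (Real.pi * (s.n0 / 10000)) ^ 2 := by linarith only [g4, c3]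
    have c5 : 0 ≤ Real.cos (Real.pi * (s.n0 / 10000)) :=
      Real.cos_nonneg_of_mem_Icc ⟨by
        have : 0 ≤ Real.pi * ((s.n0 : ℝ) / 10000) := by positivity
        linarith only [hpi3, this], by nlinarith only [hpi, k3']⟩
    have c6 := lt_of_pow_lt_pow_left₀ 2 c5 c4
    rw [le_div_iff₀ hpi]
    by_contra hc
    push Not at hc
    have c7 := Real.cos_le_cos_of_nonneg_of_le_pi (x := w.re) (y := Real.pi * (s.n0 / 10000))
      h0.le (by nlinarith only [hpi3, hpi, k3']) (by linarith only [hc])
    linarith only [c6, c7]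
  · have c2 : 1 < (s.h : ℝ) / 10000000 := by rw [one_lt_div (by norm_num)]; exact k2'
    have c3 : Real.cosh w.im ^ 2 - (s.h : ℝ) / 10000000 ≤ 0 := by
      by_contra hc
      push Not at hc
      have := mul_neg_of_neg_of_pos (by linarith only [k2', d1] : Real.cos w.re ^ 2 - (s.h : ℝ) / 10000000 < 0) hc
      linarith only [f3, this]
    have c4 : Real.cosh w.im ^ 2 < Real.cosh (Real.pi * (s.m / 10000)) ^ 2 := by linarith only [g5, c3]
    have c5 : Real.cosh w.im < Real.cosh (Real.pi * (s.m / 10000)) :=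
      lt_of_pow_lt_pow_left₀ 2 (Real.cosh_pos _).le c4
    rw [Real.cosh_lt_cosh, abs_of_neg him, abs_of_nonneg (by positivity)] at c5
    rw [div_le_iff₀ hpi]
    linarith only [c5]

end

end Pool.Agent.Work.MP_b30479_gtS.G2.CN.M4

end

section

/-!
# Own frames of the rings of a word, and the fields `pl`, `pr` of `LocOK`
-/

namespace Pool.Agent.Work.MP_b30479_gtS.G2

open Complex Set SQ KB
open scoped ComplexConjugate

lemma fz_RR {s : ℝ} (hs : s = 1 ∨ s = -1) {w k : ℂ} (hR : 0 < (RR w k).re) :
    RR (fz s w) (fz s k) = fz s (RR w k) := by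
  rcases hs with rfl | rfl
  · rw [fz_one, fz_one, fz_one]
  · rw [fz_neg, fz_neg, fz_neg, RR_conj hR]

lemma Star1_self {K : Set ℂ} : K ⊆ Star1 K := fun z hz => ⟨1, by norm_num, le_rfl, z, hz, by simp⟩

/-- the imaginary part of `P` in the own frame -/
lemma P_im {s : ℝ} (hs : s = 1 ∨ s = -1) {w k : ℂ} (hR : 0 < (RR w k).re) (h0 : 0 ≤ w.re)
    (h1 : w.re ≤ 3 / 2) (hk : 0 < k.re) (c : Prop) [Decidable c] :
    |(-(s : ℂ) * QQ w k + if c then I * w else 0).im| =
      |(-QQ (fz s w) (fz s k) + if c then I * fz s w else 0).im| := by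
  rw [SR.fz_QQ hs hR h0 h1 hk]
  rcases hs with rfl | rfl
  · rw [fz_one, fz_one]
    push_cast
    rw [neg_one_mul]
  · rw [fz_neg, fz_neg]
    by_cases h : c
    · rw [if_pos h, if_pos h]
      have e : (-conj (QQ w k) + I * conj w) = -conj (QQ w k + I * w) := by
        rw [map_add, map_mul, Complex.conj_I]
        ring
      rw [e, Complex.neg_im, Complex.conj_im, neg_neg]
      push_cast
      rw [neg_neg, one_mul]
    · rw [if_neg h, if_neg h, add_zero, add_zero, Complex.neg_im, Complex.conj_im, neg_neg]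
      push_cast
      rw [neg_neg, one_mul]

namespace SR

variable {M : ℕ} {b : Fin (M + 1) → ℤ} {w : ℕ → ℂ}
variable (hb : ClassW b) (F : RingFacts) (hw : Sol b w)
include hb F hw

omit hb F in
lemma own_mem {n : ℕ} (hn : n ≤ M) (hu : us b n = false) :
    Complex.cos (fz (sg b n) (w n)) ∈ PolyU (vt (ty b n)) := by
  have hs := sg_or (b := b) n
  have h := fz_mem hs hs (hw.mem n hn hu)
  rw [← fz_cos]
  have e : sg b n * sg b n = 1 := by rcases hs with h | h <;> rw [h] <;> norm_num
  rwa [e, frS_one] at h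

/-- the port on the right, in the own frame -/
lemma port_mem_right {n : ℕ} (hn : n < M) (hu : us b n = false) :
    fz (sg b n) (Complex.cos (w (rn b n))) ∈
      (if rr b n = .s then Poly pS else frS (-1) (Poly pA)) := by
  have h1 := rn_spec hb hn hu
  have h2 := hw.mem (rn b n) h1.2.1 h1.2.2.1
  have h3 := fz_mem (sg_or (b := b) n) (sg_or (b := b) (rn b n)) h2
  exact port_right hb F hn hu (frS_mono ((F.sub _).trans Star1_self) h3)

/-- the port on the left, in the own frame -/
lemma port_mem_left {n : ℕ} (hn : 0 < n) (hn' : n ≤ M) (hu : us b n = false) :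
    fz (sg b n) (Complex.cos (w (ln b n))) ∈
      (if lr b n = .s then Poly pS else frS (-1) (Poly pA)) := by
  have h1 := ln_spec hb hn hu
  have h2 := hw.mem (ln b n) (by omega) h1.2.1
  have h3 := fz_mem (sg_or (b := b) n) (sg_or (b := b) (ln b n)) h2
  exact port_left' hb F hn hn' hu (frS_mono ((F.sub _).trans Star1_self) h3)

lemma RR_left {n : ℕ} (h0 : 0 < n) (hn : n ≤ M) (hu : us b n = false) :
    0 < (RR (w n) (Complex.cos (w (ln b n)))).re := by
  have h1 := ln_spec hb h0 hu
  rw [left_hinge hb F hw h0 hn hu]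
  exact R0_re hw (by omega) h1.2.1

omit hb F hw in
lemma typ_of {n : ℕ} (h4 : 4 ≤ BB b n) : typS (ty b n) = true := by
  unfold ty rtype
  rw [if_neg (by omega), if_neg (by omega)]
  split_ifs <;> rfl

omit hb F hw in
lemma typ5_of {n : ℕ} (h4 : 5 ≤ BB b n) : typ5 (ty b n) = true := by
  unfold ty rtype
  rw [if_neg (by omega), if_neg (by omega), if_neg (by omega)]
  split_ifs <;> rfl

omit F hw in
/-- equal sign across an absorbed digit on the right -/
lemma rr_of_us {n : ℕ} (h : us b (n + 1) = true) : rr b n = .s ∧ BB b n ≥ (bb b n).natAbs + 1 := by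
  have h1 := us_lt hb h
  have h2 := sign_across hb h
  have h3 : rn b n = n + 2 := by unfold rn; rw [h]; simp
  constructor
  · rw [rr_eq (by omega), h3, if_pos h2]
  · unfold BB
    rw [h]
    have : (true.toNat) = 1 := rfl
    rw [this]
    omega

omit F hw in
lemma lr_of_us {n : ℕ} (h0 : 0 < n) (h : us b (n - 1) = true) :
    lr b n = .s ∧ BB b n ≥ (bb b n).natAbs + 1 := by
  have h1 := us_lt hb h
  obtain ⟨m, rfl⟩ : ∃ m, n = m + 2 := ⟨n - 2, by omega⟩
  rw [show m + 2 - 1 = m + 1 by omega] at h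
  have h2 := sign_across hb h
  have h3 : ln b (m + 2) = m := by
    unfold ln
    rw [show m + 2 - 1 = m + 1 by omega, h]
    simp
  constructor
  · rw [lr_eq (by omega), h3, if_pos (by rw [mul_comm]; exact h2)]
  · unfold BB
    rw [show m + 2 - 1 = m + 1 by omega, h]
    have : (true.toNat) = 1 := rfl
    rw [this]
    omega

omit hb F hw in
lemma cos_re_of_mem {z : ℂ} {t : RT} (h : z ∈ Poly (vt t)) : 0 < z.re := poly_re_pos t z h

theorem pr_all : ∀ n < M, 4 ≤ (bb b n).natAbs → |(PR b w n).im| ≤ Real.pi / 2 := by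
  intro n hn h4
  have hu : us b n = false := by
    by_contra hc
    rw [Bool.not_eq_false] at hc
    have := (us_true hc).2.1
    omega
  have hs := sg_or (b := b) n
  have hr := rn_spec hb hn hu
  have hR : 0 < (RR (w n) (Complex.cos (w (rn b n)))).re := R0_re hw hn hu
  have hk := cos_re F hw hr.2.1 hr.2.2.1
  have h0 := hw.re0 n hn.le hu
  have h1 := (hw.re1 n hn.le hu).le
  have hm := F.sub _ (own_mem hw hn.le hu)
  have hp := port_mem_right hb F hw hn hu
  have hB := BB_ge hb (n := n)
  have hR' : 0 < (RR (fz (sg b n) (w n)) (fz (sg b n) (Complex.cos (w (rn b n))))).re := by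
    rw [fz_RR hs hR, fz_re]
    exact hR
  have hk' : 0 < (fz (sg b n) (Complex.cos (w (rn b n)))).re := by rwa [fz_re]
  have h0' : 0 < (fz (sg b n) (w n)).re := by rwa [fz_re]
  have h1' : (fz (sg b n) (w n)).re ≤ 3 / 2 := by rwa [fz_re]
  unfold PR
  rw [P_im hs hR h0.le h1 hk]
  by_cases h : us b (n + 1) = true
  · obtain ⟨h2, h3⟩ := rr_of_us hb h
    rw [if_pos h2] at hp
    rw [if_pos h]
    exact split_im (typ5_of (by omega)) hm hp hR' h0' h1'
  · rw [if_neg h, add_zero, Complex.neg_im, abs_neg]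
    have hBB : 4 ≤ BB b n := by
      unfold BB
      omega
    have ht := typ_of hBB
    by_cases h2 : rr b n = .s
    · rw [if_pos h2] at hp
      exact (QQ_im_half hR' h0'.le h1' hk' (RRk_s hm hp hR')).le
    · rw [if_neg h2, frS_neg] at hp
      exact (QQ_im_half hR' h0'.le h1' hk' (RRk_a ht hm hp hR')).le

theorem pl_all : ∀ n, 0 < n → n ≤ M → 4 ≤ (bb b n).natAbs → |(PL b w n).im| ≤ Real.pi / 2 := by
  intro n hn0 hn h4
  have hu : us b n = false := by
    by_contra hc
    rw [Bool.not_eq_false] at hc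
    have := (us_true hc).2.1
    omega
  have hs := sg_or (b := b) n
  have hr := ln_spec hb hn0 hu
  have hR := RR_left hb F hw hn0 hn hu
  have hk := cos_re F hw (by omega : ln b n ≤ M) hr.2.1
  have h0 := hw.re0 n hn hu
  have h1 := (hw.re1 n hn hu).le
  have hm := F.sub _ (own_mem hw hn hu)
  have hp := port_mem_left hb F hw hn0 hn hu
  have hR' : 0 < (RR (fz (sg b n) (w n)) (fz (sg b n) (Complex.cos (w (ln b n))))).re := by
    rw [fz_RR hs hR, fz_re]
    exact hR
  have hk' : 0 < (fz (sg b n) (Complex.cos (w (ln b n)))).re := by rwa [fz_re]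
  have h0' : 0 < (fz (sg b n) (w n)).re := by rwa [fz_re]
  have h1' : (fz (sg b n) (w n)).re ≤ 3 / 2 := by rwa [fz_re]
  unfold PL
  rw [P_im hs hR h0.le h1 hk]
  by_cases h : us b (n - 1) = true
  · obtain ⟨h2, h3⟩ := lr_of_us hb hn0 h
    rw [if_pos h2] at hp
    rw [if_pos h]
    exact split_im (typ5_of (by omega)) hm hp hR' h0' h1'
  · rw [if_neg h, add_zero, Complex.neg_im, abs_neg]
    have hBB : 4 ≤ BB b n := by
      unfold BB
      omega
    have ht := typ_of hBB
    by_cases h2 : lr b n = .s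
    · rw [if_pos h2] at hp
      exact (QQ_im_half hR' h0'.le h1' hk' (RRk_s hm hp hR')).le
    · rw [if_neg h2, frS_neg] at hp
      exact (QQ_im_half hR' h0'.le h1' hk' (RRk_a ht hm hp hR')).le

end SR

end Pool.Agent.Work.MP_b30479_gtS.G2

end

section

/-!
# The location of the saddle point of a word from statements about single hinges and rings
-/

namespace Pool.Agent.Work.MP_b30479_gtS.G2

open Complex Set Filter Topology VOL
open scoped ComplexConjugate

/-! ### conjugation of the local conditions -/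

lemma ph'_conj (z : ℂ) : ph' (conj z) = conj (ph' z) := by
  unfold ph'
  have h : (Real.pi : ℂ) * conj z = conj ((Real.pi : ℂ) * z) := by
    rw [map_mul, Complex.conj_ofReal]
  rw [h, Complex.cos_conj, Complex.sin_conj, map_div₀, map_mul, Complex.conj_ofReal]

lemma hc_conj (z : ℂ) : hc (conj z) = hc z := by
  unfold hc
  rw [Complex.conj_re, Complex.conj_im, abs_neg]

lemma jj_neg {b : ℤ} (hb : b ≠ 0) : jj (-b) = -jj b := by
  unfold jj
  rcases lt_or_gt_of_ne hb with h | h
  · rw [if_pos (by omega), if_neg (by omega)]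
    ring
  · rw [if_neg (by omega), if_pos h]
    ring

lemma jj_conj (b : ℤ) : conj (jj b) = -jj b := by
  unfold jj
  split_ifs <;> simp

lemma K1s.conj {b : ℤ} (hb : b ≠ 0) {w w' : ℂ} (h0 : 0 < w.re) (h1 : w.re < 1 / 2)
    (h0' : 0 < w'.re) (h1' : w'.re < 1 / 2) (h : K1s b w w') :
    K1s (-b) (conj w) (conj w') := by
  unfold K1s at h ⊢
  have s1 : w + w' ∈ strip := ⟨by simp only [Complex.add_re]; linarith only [h0, h0'],
    by simp only [Complex.add_re]; linarith only [h1, h1']⟩
  have s2 : 1 - w ∈ strip := ⟨by simp only [Complex.sub_re, Complex.one_re]; linarith only [h0, h1],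
    by simp only [Complex.sub_re, Complex.one_re]; linarith only [h0]⟩
  have e : jj (-b) * (Real.pi * (1 - conj w')) + ph (conj w + conj w') - ph (1 - conj w) =
      conj (jj b * (Real.pi * (1 - w')) + ph (w + w') - ph (1 - w)) := by
    rw [← map_add, ph_conj s1, show (1 : ℂ) - conj w = conj (1 - w) by simp, ph_conj s2, jj_neg hb]
    simp only [map_add, map_sub, map_mul, map_one, Complex.conj_ofReal, jj_conj]
  rw [e, Complex.conj_im, abs_neg]
  exact h

lemma K1s.of_sign {b c : ℤ} (h : 0 < b ↔ 0 < c) {w w' : ℂ} (hK : K1s b w w') : K1s c w w' := by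
  have e : jj b = jj c := by
    unfold jj
    by_cases h1 : 0 < b
    · rw [if_pos h1, if_pos (h.1 h1)]
    · rw [if_neg h1, if_neg (fun h2 => h1 (h.2 h2))]
  unfold K1s at hK ⊢
  rwa [← e]

lemma K2.conj {w w' : ℂ} (h : K2 w w') : K2 (conj w) (conj w') := by
  unfold K2 at h ⊢
  rw [← map_add, hc_conj, hc_conj, Complex.conj_re, Complex.conj_re]
  exact h

lemma Hg.conj {w : ℂ} (h : Hg w) : Hg (conj w) := by
  unfold Hg at h ⊢
  rw [ph'_conj, Complex.conj_re, Complex.conj_im, abs_neg]
  exact h

lemma Hl.conj {w l : ℂ} (h : Hl w l) : Hl (conj w) (conj l) := by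
  unfold Hl at h ⊢
  rw [← map_sub, ph'_conj, ph'_conj, ph'_conj]
  simp only [Complex.conj_re]
  exact h

lemma KZ.conj {w ζ : ℂ} (h : KZ w ζ) : KZ (conj w) (-conj ζ) := by
  unfold KZ at h ⊢
  rw [hc_conj, Complex.neg_re, Complex.conj_re, Complex.conj_re, abs_neg]
  exact h

lemma Hr.conj {w ζ : ℂ} (h : Hr w ζ) : Hr (conj w) (-conj ζ) := by
  unfold Hr at h ⊢
  have h2 : (starRingEnd ℂ) 2 = 2 := map_ofNat (starRingEnd ℂ) 2
  have e1 : conj w + 1 / 2 + -conj ζ = conj (w + 1 / 2 - ζ) := by
    simp only [map_add, map_sub, map_div₀, map_one, h2]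
    ring
  have e2 : conj w + 1 / 2 - -conj ζ = conj (w + 1 / 2 + ζ) := by
    simp only [map_add, map_div₀, map_one, h2]
    ring
  rw [e1, e2, ph'_conj, ph'_conj, ph'_conj]
  simp only [Complex.conj_re]
  obtain ⟨h3, h4⟩ := h
  constructor <;> linarith only [h3, h4]

section
variable {T : Typ} {b c : ℤ} {l r : Bool} {x x' : Fin 3 → ℂ}

lemma RunOk.congr (h : RunOk b T l r x) (hbc : 0 < b ↔ 0 < c) (h0 : x' 0 = x 0) (h2 : x' 2 = x 2)
    (h1 : T.isMid = true ∨ T.isRing = true → x' 1 = x 1) : RunOk c T l r x' := by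
  cases T
  case one =>
    cases l <;> cases r <;> simp only [RunOk, h0, h2] at h ⊢
    exact ⟨h.1, h.2.1, h.2.2.1, h.2.2.2.1, h.2.2.2.2.1.of_sign hbc, h.2.2.2.2.2.1.of_sign hbc,
      h.2.2.2.2.2.2⟩
  case two => cases l <;> cases r <;> simp only [RunOk, h0, h2] at h ⊢ <;> exact h
  case threeL =>
    have h1' := h1 (Or.inl rfl)
    cases l <;> cases r <;> simp only [RunOk, h0, h2, h1'] at h ⊢ <;> exact h
  case threeR =>
    have h1' := h1 (Or.inl rfl)
    cases l <;> cases r <;> simp only [RunOk, h0, h2, h1'] at h ⊢ <;> exact h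
  case ring =>
    have h1' := h1 (Or.inr rfl)
    simp only [RunOk, h0, h2, h1'] at h ⊢
    exact h
  all_goals cases l <;> cases r <;> simp only [RunOk] at h

lemma RunOk.conj (h : RunOk b T l r x) (hb : b ≠ 0) (h0 : x' 0 = conj (x 0))
    (h2 : x' 2 = conj (x 2)) (h1 : T.isMid = true → x' 1 = conj (x 1))
    (h1' : T.isRing = true → x' 1 = -conj (x 1)) : RunOk (-b) T l r x' := by
  cases T
  case one =>
    cases l <;> cases r <;> simp only [RunOk] at h ⊢
    rw [h0, h2]
    obtain ⟨a1, a2, a3, a4, a5, a6, a7⟩ := h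
    refine ⟨by rwa [Complex.conj_re], by rwa [Complex.conj_re], by rwa [Complex.conj_re],
      by rwa [Complex.conj_re], a5.conj hb a1 a2 a3 a4, a6.conj hb a3 a4 a1 a2, ?_⟩
    rcases a7 with a7 | a7
    · exact Or.inl ⟨a7.1.conj, a7.2.conj⟩
    · right
      rwa [Complex.conj_re, Complex.conj_re]
  case two =>
    cases l <;> cases r <;> simp only [RunOk] at h ⊢
    · rw [h0, h2, Complex.conj_re]
      exact ⟨by rw [h.1, map_zero], h.2⟩
    · rw [h0, h2, Complex.conj_re]
      exact ⟨by rw [h.1, map_zero], h.2⟩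
    · rw [h0, h2]
      exact ⟨h.1.conj, h.2.1.conj, h.2.2.1.conj, h.2.2.2.conj⟩
  case threeL =>
    have h3 := h1 rfl
    cases l <;> cases r <;> simp only [RunOk] at h ⊢
    · rw [h0, h2, h3]
      simp only [Complex.conj_re]
      exact ⟨by rw [h.1, map_zero], h.2⟩
    · rw [h0, h2, h3]
      simp only [Complex.conj_re]
      exact ⟨h.1.conj, h.2⟩
  case threeR =>
    have h3 := h1 rfl
    cases l <;> cases r <;> simp only [RunOk] at h ⊢
    · rw [h0, h2, h3]
      simp only [Complex.conj_re]
      exact ⟨by rw [h.1, map_zero], h.2⟩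
    · rw [h0, h2, h3]
      simp only [Complex.conj_re]
      exact ⟨h.1.conj, h.2⟩
  case ring =>
    have h3 := h1' rfl
    simp only [RunOk] at h ⊢
    rw [h0, h2, h3]
    exact ⟨h.1, fun hl => ⟨(h.2.1 hl).1.conj, (h.2.1 hl).2.conj⟩,
      fun hr => ⟨(h.2.2 hr).1.conj, (h.2.2 hr).2.conj⟩⟩
  all_goals cases l <;> cases r <;> simp only [RunOk] at h

end

/-! ### statements about single hinges and rings -/

namespace SR

/-- the word hinge at a side of kind `x` of the ring with the value `k` -/
noncomputable def yH (x : SK) (R k : ℂ) : ℂ := acot2 (Hq x R k)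

/-- the inner variable of a ring with the digit `3`, seen from a side of kind `x` -/
noncomputable def mH (x : SK) (R k : ℂ) : ℂ := acot2 (Sp (Hq x R k) k)

/-- the ring variable in the own frame -/
noncomputable def zeta (w : ℂ) : ℂ := -w / Real.pi

/-- the one-sided part of the conditions for a digit of at least `4`; `k`: the neighbour -/
def ZSide (x : SK) (w k : ℂ) : Prop :=
  KZ (yH x (RR w k) (Complex.cos w)) (zeta w) ∧ Hr (yH x (RR w k) (Complex.cos w)) (zeta w)

/-- The statements about single hinges and rings, for a family `K` of sets, which give the location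
of the saddle point of every word. -/
structure Rows (K : KFam) : Prop where
  /-- split hinges -/
  ne : ∀ {d l d' l' R k k'}, HDt K .s d l d' l' R k k' → Sp R k ≠ -I
  /-- an absorbed digit -/
  absd : ∀ {d l d' l' R k k'}, HDt K .s d l d' l' R k k' →
    RunOk (-1) .one true true ![yH .s R k, 0, yH .s R k']
  one : ∀ {l r dl ll dr rr w kl kr}, RDt K 1 l r dl ll dr rr w kl kr →
    RunOk 1 .one true true ![yH l (RR w kl) (Complex.cos w), 0, yH r (RR w kr) (Complex.cos w)]
  two : ∀ {l r dl ll dr rr w kl kr}, RDt K 2 l r dl ll dr rr w kl kr →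
    RunOk 1 .two true true ![yH l (RR w kl) (Complex.cos w), 0, yH r (RR w kr) (Complex.cos w)]
  twoE : ∀ {r dr rr w kr}, RDe K 2 r dr rr w kr →
    0 < (yH r (RR w kr) (Complex.cos w)).re ∧ (yH r (RR w kr) (Complex.cos w)).re < 1 / 2
  three : ∀ {l r dl ll dr rr w kl kr}, RDt K 3 l r dl ll dr rr w kl kr →
    RunOk 1 .threeL true true ![yH l (RR w kl) (Complex.cos w), mH l (RR w kl) (Complex.cos w),
      yH r (RR w kr) (Complex.cos w)] ∧
    0 ≤ (yH l (RR w kl) (Complex.cos w)).re + (mH l (RR w kl) (Complex.cos w)).re -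
      (yH r (RR w kr) (Complex.cos w)).re ∧
    (yH l (RR w kl) (Complex.cos w)).re + (mH l (RR w kl) (Complex.cos w)).re -
      (yH r (RR w kr) (Complex.cos w)).re ≤ 1
  threeE : ∀ {r dr rr w kr}, RDe K 3 r dr rr w kr →
    0 < (yH r (RR w kr) (Complex.cos w)).re ∧ (yH r (RR w kr) (Complex.cos w)).re < 1 / 2 ∧
    0 < (mH r (RR w kr) (Complex.cos w)).re - (yH r (RR w kr) (Complex.cos w)).re ∧
    (mH r (RR w kr) (Complex.cos w)).re - (yH r (RR w kr) (Complex.cos w)).re < 1 / 2 ∧
    (yH r (RR w kr) (Complex.cos w)).re + (mH r (RR w kr) (Complex.cos w)).re ≤ 1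
  ring : ∀ {d l r dl ll dr rr w kl kr}, 4 ≤ d → RDt K d l r dl ll dr rr w kl kr → ZSide l w kl
  ringE : ∀ {d r dr rr w kr}, 4 ≤ d → RDe K d r dr rr w kr → ZSide r w kr

/-- the refinement of a family of sets -/
structure Refine (K K' : KFam) : Prop where
  inner : ∀ {d l r dl ll dr rr w kl kr}, RDt K d l r dl ll dr rr w kl kr →
    Complex.cos w ∈ K'.K d l r
  ends : ∀ {d r dr rr w kr}, RDe K d r dr rr w kr → Complex.cos w ∈ K'.K d .e r

theorem RDt.symm {K : KFam} {d : ℕ} {l r : SK} {dl : ℕ} {ll : SK} {dr : ℕ} {rr : SK}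
    {w kl kr : ℂ} (h : RDt K d l r dl ll dr rr w kl kr) :
    RDt K d r l dr rr dl ll w kr kl :=
  ⟨h.right, h.left, h.w0, h.w1, h.wi, by rw [crs_symm, add_comm (QQ w kr)]; exact h.eq⟩

section word3

variable {M : ℕ} {b : Fin (M + 1) → ℤ} {w : ℕ → ℂ}
variable (hb : ClassW b) (F : RingFacts) (hw : Sol b w)
include hb F hw

/-- the second round -/
theorem Snd.refine (hM : 1 ≤ M) {K K' : KFam} (h : Refine K K') (hK : Snd K b w) :
    Snd K' b w := by
  intro n hn hu
  rw [fz_cos]
  by_cases h0 : n = 0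
  · subst h0
    rw [lk_e]
    exact h.ends (rde_first hb F hw hK hM)
  · by_cases h1 : n = M
    · have h2 := h.ends (rde_last hb F hw hK hM)
      have h3 : rk b n = .e := rk_e (by omega)
      rw [h3, K'.symm, h1]
      exact h2
    · exact h.inner (rdt hb F hw hK (by omega) (by omega) hu)

end word3

lemma RunOk_fz {T : Typ} {b c : ℤ} (hb : b ≠ 0) {l r : Bool} {s : ℝ} (hs : s = 1 ∨ s = -1)
    (hc : s = 1 → (0 < b ↔ 0 < c)) (hc' : s = -1 → (0 < -b ↔ 0 < c)) {x xo : Fin 3 → ℂ}
    (h : RunOk b T l r xo) (h0 : fz s (x 0) = xo 0) (h2 : fz s (x 2) = xo 2)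
    (h1 : T.isMid = true → fz s (x 1) = xo 1)
    (h1' : T.isRing = true → x 1 = if s = 1 then xo 1 else -conj (xo 1)) : RunOk c T l r x := by
  rcases hs with rfl | rfl
  · rw [fz_one] at h0 h2
    refine h.congr (hc rfl) h0 h2 ?_
    rintro (h3 | h3)
    · have := h1 h3
      rwa [fz_one] at this
    · have := h1' h3
      rwa [if_pos rfl] at this
  · rw [fz_neg] at h0 h2
    have h4 : RunOk (-b) T l r x := by
      refine h.conj hb (by rw [← h0, Complex.conj_conj]) (by rw [← h2, Complex.conj_conj])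
        (fun h3 => ?_) (fun h3 => ?_)
      · have := h1 h3
        rw [fz_neg] at this
        rw [← this, Complex.conj_conj]
      · have := h1' h3
        rwa [if_neg (by norm_num)] at this
    exact h4.congr (hc' rfl) rfl rfl fun _ => rfl

lemma fz_ne {s : ℝ} {z : ℂ} (h : fz s z ≠ I ∧ fz s z ≠ -I) : z ≠ I ∧ z ≠ -I := by
  unfold fz at h
  split_ifs at h with hs
  · exact h
  · constructor
    · intro h2
      exact h.2 (by rw [h2, Complex.conj_I])
    · intro h2
      exact h.1 (by rw [h2, map_neg, Complex.conj_I, neg_neg])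

section rows
variable {K : KFam} (Rw : Rows K)
include Rw

lemma Rows.hq_ne {x : SK} {d : ℕ} {l : SK} {d' : ℕ} {l' : SK} {R k k' : ℂ}
    (h : HDt K x d l d' l' R k k') : Hq x R k ≠ I ∧ Hq x R k ≠ -I := by
  have hR : 0 < R.re := r0_pos.trans h.Rre
  have hk : k ≠ 0 := fun h0 => by
    have := h.kre
    rw [h0] at this
    exact lt_irrefl _ this
  by_cases hx : x = .s
  · subst hx
    rw [Hq_s]
    exact ⟨Sp_ne_I (add_I_ne h.Rre) hk, Rw.ne h⟩
  · rw [Hq_of_ne hx]
    exact ne_I_of_re hR

end rows

section word4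

variable {M : ℕ} {b : Fin (M + 1) → ℤ} {w : ℕ → ℂ}

/-- the values of the ring `n` and of its neighbours in its own frame -/
noncomputable def oW (b : Fin (M + 1) → ℤ) (w : ℕ → ℂ) (n : ℕ) : ℂ := fz (sg b n) (w n)
noncomputable def oL (b : Fin (M + 1) → ℤ) (w : ℕ → ℂ) (n : ℕ) : ℂ :=
  fz (sg b n) (Complex.cos (w (ln b n)))
noncomputable def oR (b : Fin (M + 1) → ℤ) (w : ℕ → ℂ) (n : ℕ) : ℂ :=
  fz (sg b n) (Complex.cos (w (rn b n)))

section
variable (hb : ClassW b) (F : RingFacts) (hw : Sol b w)
include hb F hw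

omit hb in
lemma own_right {n : ℕ} (hn : n < M) (hu : us b n = false) :
    fz (sg b n) (Rh b w n) = Hq (rk b n) (RR (oW b w n) (oR b w n)) (Complex.cos (oW b w n)) := by
  rw [fz_Rh_right F hw hn hu, fz_R0_right hw hn hu, fz_cos (w n)]
  rfl

lemma own_left {n : ℕ} (h0 : 0 < n) (hn : n ≤ M) (hu : us b n = false) :
    fz (sg b n) (Rh b w (n - 1)) =
      Hq (lk b n) (RR (oW b w n) (oL b w n)) (Complex.cos (oW b w n)) := by
  rw [fz_Rh_left hb F hw h0 hn hu, fz_R0_left hb F hw h0 hn hu, fz_cos (w n)]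
  rfl

omit hb in
lemma own_y_right {n : ℕ} (hn : n < M) (hu : us b n = false) :
    fz (sg b n) (acot2 (Rh b w n)) =
      yH (rk b n) (RR (oW b w n) (oR b w n)) (Complex.cos (oW b w n)) := by
  rw [← acot2_fz, own_right F hw hn hu]
  rfl

lemma own_y_left {n : ℕ} (h0 : 0 < n) (hn : n ≤ M) (hu : us b n = false) :
    fz (sg b n) (acot2 (Rh b w (n - 1))) =
      yH (lk b n) (RR (oW b w n) (oL b w n)) (Complex.cos (oW b w n)) := by
  rw [← acot2_fz, own_left hb F hw h0 hn hu]
  rfl

/-- the inner variable -/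
lemma own_mid {n : ℕ} (h0 : 0 < n) (hn : n ≤ M) (hu : us b n = false) :
    fz (sg b n) (Rm b w n) =
      Sp (Hq (lk b n) (RR (oW b w n) (oL b w n)) (Complex.cos (oW b w n)))
        (Complex.cos (oW b w n)) := by
  unfold Rm
  rw [if_neg (by omega), fz_Sp F hw hn hu, own_left hb F hw h0 hn hu, fz_cos (w n)]
  rfl

omit hb in
lemma own_mid0 (hM : 1 ≤ M) :
    fz (sg b 0) (Rm b w 0) =
      Sp (Hq (rk b 0) (RR (oW b w 0) (oR b w 0)) (Complex.cos (oW b w 0)))
        (Complex.cos (oW b w 0)) := by
  unfold Rm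
  rw [if_pos rfl, fz_Sp F hw (by omega) rfl, own_right F hw (by omega) rfl, fz_cos (w 0)]
  rfl

section
variable {K : KFam} (hK : Snd K b w) (Rw : Rows K)
include hK Rw

theorem hinge_ne {n : ℕ} (hn : n < M) : Rh b w n ≠ I ∧ Rh b w n ≠ -I := by
  by_cases hu : us b n = true
  · have h1 := us_true hu
    have h2 := Rw.hq_ne (hdt_left hb F hw hK (n := n + 1) (by omega) (by omega) h1.2.2.2)
    have h3 := own_left hb F hw (n := n + 1) (by omega) (by omega) h1.2.2.2
    rw [show n + 1 - 1 = n by omega] at h3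
    apply fz_ne (s := sg b (n + 1))
    rw [h3]
    exact h2
  · rw [Bool.not_eq_true] at hu
    have h2 := Rw.hq_ne (hdt_right hb F hw hK hn hu)
    apply fz_ne (s := sg b n)
    rw [own_right F hw hn hu]
    exact h2

theorem mid_ne' (hM : 1 ≤ M) {n : ℕ} (hn : n ≤ M) (h3 : dg b n = 3) :
    Rm b w n ≠ I ∧ Rm b w n ≠ -I := by
  have hu : us b n = false := by
    by_contra hc
    rw [Bool.not_eq_false] at hc
    have := (us_true hc).2.1
    unfold dg at h3
    omega
  have h3' : (bb b n).natAbs = 3 := h3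
  have hj := jj_sq (bb b n)
  have hτ := tau_ne hw (n := n) hn hu
  have hq0 : 1 + tau b w n ^ 2 ≠ 0 := by
    rw [← cos_sq_tau F hw hn hu]
    exact one_div_ne_zero (pow_ne_zero 2 (cos_ne F hw hn hu))
  -- hinges are not `-j`
  have hne : ∀ m < M, Rh b w m + jj (bb b n) ≠ 0 := by
    intro m hm h
    obtain ⟨h1, h2⟩ := hinge_ne hb F hw hK Rw hm
    have h3 : Rh b w m = -jj (bb b n) := by linear_combination h
    unfold jj at h3
    split_ifs at h3
    · exact h2 (by rw [h3]; ring)
    · exact h1 (by rw [h3]; ring)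
  have hj0 : jj (bb b n) ≠ 0 := jj_ne _
  -- reduce to `± j`
  suffices h : Rm b w n - jj (bb b n) ≠ 0 ∧ Rm b w n + jj (bb b n) ≠ 0 by
    unfold jj at h
    split_ifs at h
    · exact ⟨fun h4 => h.1 (by rw [h4]; ring), fun h4 => h.2 (by rw [h4]; ring)⟩
    · exact ⟨fun h4 => h.2 (by rw [h4]; ring), fun h4 => h.1 (by rw [h4]; ring)⟩
  by_cases h0 : n = 0
  · subst h0
    have hr := ring_first hb F hw hM
    rw [h3'] at hr
    have hRm : Rm b w 0 = Rs (jj (bb b 0)) (Rh b w 0) (tau b w 0) := by
      unfold Rm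
      rw [if_pos rfl]
    obtain ⟨q1, q2⟩ := RE1_three hj (hne 0 (by omega)) hτ hr
    rw [← hRm] at q1 q2
    constructor
    · intro h
      rw [h, zero_mul] at q1
      exact hq0 q1.symm
    · intro h
      rw [h, mul_zero] at q2
      exact hq0 q2
  · have hRm : Rm b w n = Rs (jj (bb b n)) (Rh b w (n - 1)) (tau b w n) := by
      unfold Rm
      rw [if_neg h0]
    by_cases h1 : n = M
    · have hr : RE1 (jj (bb b n)) (bb b n).natAbs (Rh b w (n - 1)) (tau b w n) := by
        rw [h1]
        exact ring_last hb F hw hM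
      rw [h3'] at hr
      obtain ⟨q1, q2⟩ := RE1_three hj (hne (n - 1) (by omega)) hτ hr
      rw [← hRm] at q1 q2
      constructor
      · intro h
        rw [h, zero_mul] at q1
        exact hq0 q1.symm
      · intro h
        rw [h, mul_zero] at q2
        exact hq0 q2
    · have hr := ring_inner hb F hw (n := n) (by omega) (by omega) hu
      rw [h3'] at hr
      obtain ⟨q1, q2⟩ := RE_three hj (hne (n - 1) (by omega)) hτ hr
      rw [← hRm] at q1 q2
      constructor
      · intro h
        rw [h, zero_mul] at q1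
        exact hq0 q1.symm
      · intro h
        rw [h, zero_mul, mul_zero] at q2
        rcases mul_eq_zero.1 q2 with h4 | h4
        · exact hq0 h4
        · exact hne n (by omega) (by linear_combination h4 - h)

end

end

lemma zeta_own (n : ℕ) : -(sg b n : ℂ) * w n / Real.pi =
    if sg b n = 1 then zeta (oW b w n) else -conj (zeta (oW b w n)) := by
  unfold zeta oW
  rcases sg_or (b := b) n with h | h
  · rw [h, if_pos rfl, fz_one]
    push_cast
    ring
  · rw [h, if_neg (by norm_num), fz_neg]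
    rw [map_div₀, map_neg, Complex.conj_conj, Complex.conj_ofReal]
    push_cast
    ring

lemma dg_val (i : Fin (M + 1)) : dg b i.val = (b i).natAbs := by
  unfold dg
  rw [bb_val]

section
variable (hb : ClassW b) (F : RingFacts) (hw : Sol b w) (hM : 1 ≤ M) {K : KFam}
  (hK : Snd K b w) (Rw : Rows K)
include hb F hw hM hK Rw

theorem run_all (i : Fin (M + 1)) :
    RunOk (b i) (tyW b i) (fl i) (fr i) (xx (tyW b) i (zsW b w)) := by
  have hi := i.2
  have hsg1 : sg b i.val = 1 → ((0 : ℤ) < 1 ↔ 0 < b i) := by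
    intro h
    unfold sg at h
    rw [bb_val] at h
    split_ifs at h with h1
    · exact ⟨fun _ => h1, fun _ => one_pos⟩
    · norm_num at h
  have hsg2 : sg b i.val = -1 → ((0 : ℤ) < -1 ↔ 0 < b i) := by
    intro h
    unfold sg at h
    rw [bb_val] at h
    split_ifs at h with h1
    · norm_num at h
    · exact ⟨fun h2 => absurd h2 (by norm_num), fun h2 => absurd h2 h1⟩
  have hfl0 : i.val = 0 → fl i = false := fun h => by
    have : i = 0 := Fin.ext h
    simp [fl, this]
  have hfl1 : 0 < i.val → fl i = true := fun h => by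
    have : i ≠ 0 := fun h2 => by rw [h2] at h; simp at h
    simp [fl, this]
  have hfr0 : i.val = M → fr i = false := fun h => by
    have : i = Fin.last M := Fin.ext h
    simp [fr, this]
  have hfr1 : i.val < M → fr i = true := fun h => by
    have : i ≠ Fin.last M := fun h2 => by rw [h2] at h; simp at h
    simp [fr, this]
  have hx0 : i.val = 0 → xx (tyW b) i (zsW b w) 0 = 0 := fun h => by
    have : i = 0 := Fin.ext h
    rw [this]
    exact x_left0
  have hxM : i.val = M → xx (tyW b) i (zsW b w) 2 = 0 := fun h => by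
    have : i = Fin.last M := Fin.ext h
    rw [this]
    exact x_rightM
  have hd := dg_val (b := b) i
  by_cases hu : us b i.val = true
  · -- absorbed
    obtain ⟨h1, h2, h3, h4⟩ := us_true hu
    have h5 := us_lt hb hu
    obtain ⟨m, hm⟩ : ∃ m, i.val = m + 1 := ⟨i.val - 1, by omega⟩
    rw [hm] at hu h3 h4 h5
    rw [show m + 1 - 1 = m by omega] at h3
    rw [bb_val] at h2
    have ht : tyW b i = .one := by unfold tyW; rw [if_pos h2]
    have hxl := x_left (b := b) (w := w) (i := i) (by omega)
    have hxr := x_right (b := b) (w := w) (i := i) (by omega)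
    rw [hfl1 (by omega), hfr1 (by omega)]
    rw [hm] at hxl hxr
    rw [show m + 1 - 1 = m by omega] at hxl
    have hrk : rk b m = .s := rk_s (by omega) hu
    have hrn : rn b m = m + 2 := by
      unfold rn
      rw [if_pos hu]
    have hH := hdt_right hb F hw hK (n := m) (by omega) h3
    rw [hrk] at hH
    have hR := Rw.absd hH
    have hsg : sg b m * sg b (m + 2) = 1 := by
      have := sg_rk hb (n := m) (by omega) h3
      rw [hrk, hrn] at this
      exact this
    have hss : sg b (m + 2) = sg b m := by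
      rcases sg_or (b := b) m with h | h <;> rcases sg_or (b := b) (m + 2) with h' | h' <;>
        rw [h, h'] at hsg ⊢ <;> norm_num at hsg
    have e0 := own_y_right F hw (n := m) (by omega) h3
    have e2 := own_y_left hb F hw (n := m + 2) (by omega) (by omega) (by simpa using h4)
    rw [show m + 2 - 1 = m + 1 by omega, hss] at e2
    have hlk : lk b (m + 2) = .s := lk_s (by omega) (by rwa [show m + 2 - 1 = m + 1 by omega])
    have hln : ln b (m + 2) = m := by
      unfold ln
      rw [show m + 2 - 1 = m + 1 by omega, if_pos hu]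
      omega
    rw [ht]
    rw [ht] at *
    have hbi : b i = bb b (m + 1) := by rw [← hm, bb_val]
    have hopp : bb b m * bb b (m + 1) < 0 := bb_opp hb (by omega) (Or.inr (by rw [← hbi]; omega))
    refine RunOk_fz (b := -1) (by norm_num) (sg_or (b := b) m) (fun h => ?_) (fun h => ?_) hR ?_ ?_
      (fun h => absurd h (by decide)) (fun h => absurd h (by decide))
    · rw [hbi]
      unfold sg at h
      split_ifs at h with h6
      · constructor
        · intro h7
          norm_num at h7
        · intro h7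
          have := mul_pos h6 h7
          omega
      · norm_num at h
    · rw [hbi]
      unfold sg at h
      split_ifs at h with h6
      · norm_num at h
      · constructor
        · intro _
          by_contra h7
          have := mul_nonneg_of_nonpos_of_nonpos (not_lt.1 h6) (not_lt.1 h7)
          omega
        · intro _
          norm_num
    · rw [hxl, e0, hrk]
      rfl
    · rw [hxr, e2, hlk]
      have eR : RR (oW b w (m + 2)) (oL b w (m + 2)) =
          RR (fz (sg b m) (w m)) (fz (sg b m) (Complex.cos (w (rn b m)))) := by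
        unfold oW oL
        rw [← fz_R0_left hb F hw (by omega) (by omega) (by simpa using h4), hln, hss,
          fz_R0_right hw (by omega) h3]
      have eC : Complex.cos (oW b w (m + 2)) = fz (sg b m) (Complex.cos (w (rn b m))) := by
        unfold oW
        rw [hss, ← fz_cos, hrn]
      rw [eR, eC]
      rfl
  · rw [Bool.not_eq_true] at hu
    have hs := sg_or (b := b) i.val
    by_cases hi0 : i.val = 0
    · -- the first ring
      have hiM : i.val < M := by omega
      have hE := rde_first hb F hw hK hM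
      have e0 : i = 0 := Fin.ext hi0
      have h2d : 2 ≤ dg b 0 := bb_zero hb
      have ey := own_y_right F hw (n := i.val) hiM hu
      have hxr := x_right (b := b) (w := w) hiM
      have hxl := hx0 hi0
      rw [hfl0 hi0, hfr1 hiM]
      rw [hi0] at hd ey hxr hs hsg1 hsg2
      by_cases h2 : dg b 0 = 2
      · have ht : tyW b i = .two := by
          unfold tyW
          rw [← hd, h2]
          rfl
        rw [h2] at hE
        have hR := Rw.twoE hE
        have e2 : (xx (tyW b) i (zsW b w) 2).re =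
            (yH (rk b 0) (RR (oW b w 0) (oR b w 0)) (Complex.cos (oW b w 0))).re := by
          rw [hxr, ← ey, fz_re]
        rw [ht] at *
        simp only [RunOk]
        refine ⟨hxl, ?_, ?_⟩
        · rw [e2]
          exact hR.1
        · rw [e2]
          exact hR.2
      · by_cases h3 : dg b 0 = 3
        · have ht : tyW b i = .threeR := by
            unfold tyW
            rw [← hd, h3, if_pos e0]
            rfl
          rw [h3] at hE
          have hR := Rw.threeE hE
          have e2 : (xx (tyW b) i (zsW b w) 2).re =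
              (yH (rk b 0) (RR (oW b w 0) (oR b w 0)) (Complex.cos (oW b w 0))).re := by
            rw [hxr, ← ey, fz_re]
          have e1 : (xx (tyW b) i (zsW b w) 1).re =
              (mH (rk b 0) (RR (oW b w 0) (oR b w 0)) (Complex.cos (oW b w 0))).re := by
            rw [x_mid (b := b) (w := w) (by rw [ht]; rfl), hi0]
            unfold mH
            rw [← own_mid0 F hw hM, acot2_fz, fz_re]
          rw [ht] at *
          simp only [RunOk]
          refine ⟨hxl, ?_, ?_, ?_, ?_⟩
          · rw [e2]; exact hR.1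
          · rw [e2]; exact hR.2.1
          · rw [e1, e2]; exact hR.2.2.1
          · rw [e1, e2]; exact hR.2.2.2.1
        · have ht : tyW b i = .ring := by
            unfold tyW
            rw [← hd, if_neg (by omega), if_neg h2, if_neg h3]
          have hR := Rw.ringE (by omega) hE
          have hx1 := x_ring (b := b) (w := w) (i := i) (by rw [ht]; rfl)
          rw [hi0, zeta_own] at hx1
          rw [ht] at *
          refine RunOk_fz (b := 1) (by norm_num) (T := .ring) (s := sg b 0) hs hsg1 hsg2 (xo := ![0, zeta (oW b w 0),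
            yH (rk b 0) (RR (oW b w 0) (oR b w 0)) (Complex.cos (oW b w 0))])
            ⟨Or.inr rfl, fun h => absurd h (by decide), fun _ => hR⟩ ?_ ?_
            (fun h => absurd h (by decide)) (fun _ => hx1)
          · rw [hxl]
            unfold fz
            split_ifs <;> simp
          · rw [hxr]
            exact ey
    · have hi0' : 0 < i.val := by omega
      have hxl := x_left (b := b) (w := w) hi0'
      have eyl := own_y_left hb F hw (n := i.val) hi0' (by omega) hu
      rw [hfl1 hi0']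
      have e0 : i ≠ 0 := fun h => hi0 (by rw [h]; simp)
      by_cases hiM : i.val = M
      · -- the last ring
        have hE := rde_last hb F hw hK hM
        have hxr := hxM hiM
        have h2d : 2 ≤ dg b i.val := by
          rw [hd]
          have h := hb.last
          have : i = Fin.last M := Fin.ext hiM
          rw [this]
          exact h
        rw [hfr0 hiM]
        have hE' : RDe K (dg b i.val) (lk b i.val) (dg b (ln b i.val)) (lk b (ln b i.val))
            (oW b w i.val) (oL b w i.val) := by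
          unfold oW oL
          rw [hiM]
          exact hE
        by_cases h2 : dg b i.val = 2
        · have ht : tyW b i = .two := by
            unfold tyW
            rw [← hd, h2]
            rfl
          rw [h2] at hE'
          have hR := Rw.twoE hE'
          have e2 : (xx (tyW b) i (zsW b w) 0).re = (yH (lk b i.val)
              (RR (oW b w i.val) (oL b w i.val)) (Complex.cos (oW b w i.val))).re := by
            rw [hxl, ← eyl, fz_re]
          rw [ht] at *
          simp only [RunOk]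
          refine ⟨hxr, ?_, ?_⟩
          · rw [e2]
            exact hR.1
          · rw [e2]
            exact hR.2
        · by_cases h3 : dg b i.val = 3
          · have ht : tyW b i = .threeL := by
              unfold tyW
              rw [← hd, h3, if_neg e0]
              rfl
            rw [h3] at hE'
            have hR := Rw.threeE hE'
            have e2 : (xx (tyW b) i (zsW b w) 0).re = (yH (lk b i.val)
                (RR (oW b w i.val) (oL b w i.val)) (Complex.cos (oW b w i.val))).re := by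
              rw [hxl, ← eyl, fz_re]
            have e1 : (xx (tyW b) i (zsW b w) 1).re = (mH (lk b i.val)
                (RR (oW b w i.val) (oL b w i.val)) (Complex.cos (oW b w i.val))).re := by
              rw [x_mid (b := b) (w := w) (by rw [ht]; rfl)]
              unfold mH
              rw [← own_mid hb F hw hi0' (by omega) hu, acot2_fz, fz_re]
            rw [ht] at *
            simp only [RunOk]
            refine ⟨hxr, ?_, ?_, ?_, ?_⟩
            · rw [e2]; exact hR.1
            · rw [e2]; exact hR.2.1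
            · rw [e1, e2]; exact hR.2.2.1
            · rw [e1, e2]; exact hR.2.2.2.1
          · have ht : tyW b i = .ring := by
              unfold tyW
              rw [← hd, if_neg (by omega), if_neg h2, if_neg h3]
            have hR := Rw.ringE (by omega) hE'
            have hx1 := x_ring (b := b) (w := w) (i := i) (by rw [ht]; rfl)
            rw [zeta_own] at hx1
            rw [ht] at *
            refine RunOk_fz (b := 1) (by norm_num) (T := .ring) (s := sg b i.val) hs hsg1 hsg2 (xo := ![yH (lk b i.val)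
              (RR (oW b w i.val) (oL b w i.val)) (Complex.cos (oW b w i.val)),
              zeta (oW b w i.val), 0])
              ⟨Or.inl rfl, fun _ => hR, fun h => absurd h (by decide)⟩ ?_ ?_
              (fun h => absurd h (by decide)) (fun _ => hx1)
            · rw [hxl]
              exact eyl
            · rw [hxr]
              unfold fz
              split_ifs <;> simp
      · -- inner rings
        have hiM' : i.val < M := by omega
        have hxr := x_right (b := b) (w := w) hiM'
        have eyr := own_y_right F hw (n := i.val) hiM' hu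
        rw [hfr1 hiM']
        have hE : RDt K (dg b i.val) (lk b i.val) (rk b i.val) (dg b (ln b i.val))
            (lk b (ln b i.val)) (dg b (rn b i.val)) (rk b (rn b i.val)) (oW b w i.val)
            (oL b w i.val) (oR b w i.val) := rdt hb F hw hK hi0' hiM' hu
        have h1d : 1 ≤ dg b i.val := hE.right.ok.left.pos
        by_cases h1 : dg b i.val = 1
        · have ht : tyW b i = .one := by
            unfold tyW
            rw [← hd, h1]
            rfl
          rw [h1] at hE
          have hR := Rw.one hE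
          rw [ht] at *
          refine RunOk_fz (by norm_num) hs hsg1 hsg2 hR ?_ ?_ (fun h => absurd h (by decide))
            (fun h => absurd h (by decide))
          · rw [hxl]
            exact eyl
          · rw [hxr]
            exact eyr
        · by_cases h2 : dg b i.val = 2
          · have ht : tyW b i = .two := by
              unfold tyW
              rw [← hd, h2]
              rfl
            rw [h2] at hE
            have hR := Rw.two hE
            rw [ht] at *
            refine RunOk_fz (by norm_num) hs hsg1 hsg2 hR ?_ ?_ (fun h => absurd h (by decide))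
              (fun h => absurd h (by decide))
            · rw [hxl]
              exact eyl
            · rw [hxr]
              exact eyr
          · by_cases h3 : dg b i.val = 3
            · have ht : tyW b i = .threeL := by
                unfold tyW
                rw [← hd, h3, if_neg e0]
                rfl
              rw [h3] at hE
              have hR := Rw.three hE
              have hxm := x_mid (b := b) (w := w) (i := i) (by rw [ht]; rfl)
              rw [ht] at *
              refine RunOk_fz (by norm_num) hs hsg1 hsg2 hR.1 ?_ ?_ (fun _ => ?_) (fun h => absurd h (by decide))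
              · rw [hxl]
                exact eyl
              · rw [hxr]
                exact eyr
              · rw [hxm, ← acot2_fz, own_mid hb F hw hi0' (by omega) hu]
                rfl
            · have ht : tyW b i = .ring := by
                unfold tyW
                rw [← hd, if_neg h1, if_neg h2, if_neg h3]
              have hR := Rw.ring (by omega) hE
              have hR' := Rw.ring (by omega) hE.symm
              have hx1 := x_ring (b := b) (w := w) (i := i) (by rw [ht]; rfl)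
              rw [zeta_own] at hx1
              rw [ht] at *
              refine RunOk_fz (b := 1) (by norm_num) (T := .ring) (s := sg b i.val) hs hsg1 hsg2 (xo := ![yH (lk b i.val)
                (RR (oW b w i.val) (oL b w i.val)) (Complex.cos (oW b w i.val)),
                zeta (oW b w i.val), yH (rk b i.val)
                (RR (oW b w i.val) (oR b w i.val)) (Complex.cos (oW b w i.val))])
                ⟨Or.inl rfl, fun _ => hR, fun _ => hR'⟩ ?_ ?_
                (fun h => absurd h (by decide)) (fun _ => hx1)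
              · rw [hxl]
                exact eyl
              · rw [hxr]
                exact eyr

theorem midL_all (i : Fin (M + 1)) (ht : tyW b i = .threeL) :
    0 ≤ (xx (tyW b) i (zsW b w) 0 + xx (tyW b) i (zsW b w) 1 - xx (tyW b) i (zsW b w) 2).re ∧
    (xx (tyW b) i (zsW b w) 0 + xx (tyW b) i (zsW b w) 1 - xx (tyW b) i (zsW b w) 2).re ≤ 1 := by
  have hd := dg_val (b := b) i
  have hi := i.2
  have h3 : (b i).natAbs = 3 ∧ i ≠ 0 := by
    unfold tyW at ht
    split_ifs at ht with h1 h2 h3 h4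
    exact ⟨h3, h4⟩
  have hi0 : 0 < i.val := by
    by_contra hc
    exact h3.2 (Fin.ext (by show i.val = 0; omega))
  have hu : us b i.val = false := us_of_abs (by omega)
  have hxl := x_left (b := b) (w := w) hi0
  have eyl := own_y_left hb F hw (n := i.val) hi0 (by omega) hu
  have hxm := x_mid (b := b) (w := w) (i := i) (by rw [ht]; rfl)
  have e0 : (xx (tyW b) i (zsW b w) 0).re = (yH (lk b i.val)
      (RR (oW b w i.val) (oL b w i.val)) (Complex.cos (oW b w i.val))).re := by
    rw [hxl, ← eyl, fz_re]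
  have e1 : (xx (tyW b) i (zsW b w) 1).re = (mH (lk b i.val)
      (RR (oW b w i.val) (oL b w i.val)) (Complex.cos (oW b w i.val))).re := by
    rw [hxm]
    unfold mH
    rw [← own_mid hb F hw hi0 (by omega) hu, acot2_fz, fz_re]
  rw [Complex.sub_re, Complex.add_re, e0, e1]
  rw [h3.1] at hd
  by_cases hiM : i.val = M
  · have hxr : xx (tyW b) i (zsW b w) 2 = 0 := by
      have : i = Fin.last M := Fin.ext hiM
      rw [this]
      exact x_rightM
    have hE : RDe K (dg b i.val) (lk b i.val) (dg b (ln b i.val)) (lk b (ln b i.val))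
        (oW b w i.val) (oL b w i.val) := by
      have hE := rde_last hb F hw hK hM
      unfold oW oL
      rw [hiM]
      exact hE
    rw [hd] at hE
    have hR := Rw.threeE hE
    rw [hxr, Complex.zero_re, sub_zero]
    exact ⟨by linarith only [hR, hR.1, hR.2.2.1], hR.2.2.2.2⟩
  · have hiM' : i.val < M := by omega
    have eyr := own_y_right F hw (n := i.val) hiM' hu
    have e2 : (xx (tyW b) i (zsW b w) 2).re = (yH (rk b i.val)
        (RR (oW b w i.val) (oR b w i.val)) (Complex.cos (oW b w i.val))).re := by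
      rw [x_right (b := b) (w := w) hiM', ← eyr, fz_re]
    have hE : RDt K (dg b i.val) (lk b i.val) (rk b i.val) (dg b (ln b i.val))
        (lk b (ln b i.val)) (dg b (rn b i.val)) (rk b (rn b i.val)) (oW b w i.val)
        (oL b w i.val) (oR b w i.val) := rdt hb F hw hK hi0 hiM' hu
    rw [hd] at hE
    rw [e2]
    exact (Rw.three hE).2

theorem midR_all (i : Fin (M + 1)) (ht : tyW b i = .threeR) :
    0 ≤ (xx (tyW b) i (zsW b w) 2 + xx (tyW b) i (zsW b w) 1 - xx (tyW b) i (zsW b w) 0).re ∧
    (xx (tyW b) i (zsW b w) 2 + xx (tyW b) i (zsW b w) 1 - xx (tyW b) i (zsW b w) 0).re ≤ 1 := by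
  have hd := dg_val (b := b) i
  have h3 : (b i).natAbs = 3 ∧ i = 0 := by
    unfold tyW at ht
    split_ifs at ht with h1 h2 h3 h4
    exact ⟨h3, h4⟩
  have hi0 : i.val = 0 := by rw [h3.2]; rfl
  have hu : us b 0 = false := rfl
  have hxl : xx (tyW b) i (zsW b w) 0 = 0 := by
    rw [h3.2]
    exact x_left0
  have hxr := x_right (b := b) (w := w) (i := i) (by omega)
  have hxm := x_mid (b := b) (w := w) (i := i) (by rw [ht]; rfl)
  have eyr := own_y_right F hw (n := 0) (by omega) hu
  rw [hi0] at hd hxr hxm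
  have hE : RDe K (dg b 0) (rk b 0) (dg b (rn b 0)) (rk b (rn b 0)) (oW b w 0) (oR b w 0) :=
    rde_first hb F hw hK hM
  rw [hd, h3.1] at hE
  have hR := Rw.threeE hE
  have e2 : (xx (tyW b) i (zsW b w) 2).re =
      (yH (rk b 0) (RR (oW b w 0) (oR b w 0)) (Complex.cos (oW b w 0))).re := by
    rw [hxr, ← eyr, fz_re]
  have e1 : (xx (tyW b) i (zsW b w) 1).re =
      (mH (rk b 0) (RR (oW b w 0) (oR b w 0)) (Complex.cos (oW b w 0))).re := by
    rw [hxm]
    unfold mH
    rw [← own_mid0 F hw hM, acot2_fz, fz_re]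
  rw [Complex.sub_re, Complex.add_re, hxl, Complex.zero_re, sub_zero, e1, e2]
  exact ⟨by linarith only [hR, hR.1, hR.2.2.1], hR.2.2.2.2⟩

omit hM Rw in
/-- a one-sided statement about rings holds on the left side of every ring of a word -/
theorem left_side {P : ℕ → SK → ℂ → ℂ → Prop} {n : ℕ} (h0 : 0 < n) (hn : n ≤ M)
    (hu : us b n = false)
    (h1 : ∀ {d l r dl ll dr rr w kl kr}, RDt K d l r dl ll dr rr w kl kr → P d l w kl)
    (h2 : ∀ {d r dr rr w kr}, RDe K d r dr rr w kr → P d r w kr) :
    P (dg b n) (lk b n) (oW b w n) (oL b w n) := by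
  by_cases hM' : n = M
  · have hE := rde_last hb F hw hK (by omega)
    unfold oW oL
    rw [hM']
    exact h2 hE
  · exact h1 (rdt hb F hw hK h0 (by omega) hu)

omit hM Rw in
/-- a one-sided statement about rings holds on the right side of every ring of a word -/
theorem right_side {P : ℕ → SK → ℂ → ℂ → Prop} {n : ℕ} (hn : n < M)
    (hu : us b n = false)
    (h1 : ∀ {d l r dl ll dr rr w kl kr}, RDt K d l r dl ll dr rr w kl kr → P d l w kl)
    (h2 : ∀ {d r dr rr w kr}, RDe K d r dr rr w kr → P d r w kr) :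
    P (dg b n) (rk b n) (oW b w n) (oR b w n) := by
  by_cases h0 : n = 0
  · subst h0
    exact h2 (rde_first hb F hw hK (by omega))
  · exact h1 (rdt hb F hw hK (by omega) hn hu).symm

/-- **The location of the saddle point of a word** from statements about single hinges and
rings. -/
theorem locOK_of_rows : LocOK b w := by
  refine ⟨fun n hn => hinge_ne hb F hw hK Rw hn, fun i h3 => ?_, run_all hb F hw hM hK Rw,
    midL_all hb F hw hM hK Rw, midR_all hb F hw hM hK Rw, ?_, ?_⟩
  · have hi := i.2
    refine mid_ne' hb F hw hK Rw hM (by omega) ?_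
    rw [dg_val]
    exact h3
  · exact pl_all hb F hw
  · exact pr_all hb F hw

end

end word4

end SR

end Pool.Agent.Work.MP_b30479_gtS.G2

end

section

/-!
# The location table of a word from box statements about single hinges and rings
-/

namespace Pool.Agent.Work.MP_b30479_gtS.G2

open Complex Set Filter Topology VOL
open scoped ComplexConjugate

namespace SR

/-- the class of the ring with the digit `d` whose other side has the kind `l` -/
def cK (d : ℕ) (l : SK) : Cl :=
  if d = 1 then .one else if d = 2 then (if l = .e then .twoE else .two)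
  else if d = 3 then (if l = .e then .threeE else .three) else .ring

/-- The box statements about single hinges and rings. -/
structure BoxRows (K : KFam) : Prop where
  /-- hinges which are not split -/
  un : ∀ {x d l d' l' R k k'}, x ≠ .s → HDt K x d l d' l' R k k' →
    (hbox (cK d l) (cK d' l') (decide (x = .z))).In (acot2 R)
  /-- split hinges, in the frame of the ring -/
  sp : ∀ {d l d' l' R k k'}, HDt K .s d l d' l' R k k' →
    (hbox (cK d l) .one false).In (acot2 (Sp R k)) ∧ (acot2 (Sp R k)).re < 1 / 2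
  mid : ∀ {l r dl ll dr rr w kl kr}, RDt K 3 l r dl ll dr rr w kl kr →
    (mbox (if l = .s then .one else cK dl ll)).In (mH l (RR w kl) (Complex.cos w))
  midE : ∀ {r dr rr w kr}, RDe K 3 r dr rr w kr →
    mboxE.In (mH r (RR w kr) (Complex.cos w))
  ring : ∀ {d l r dl ll dr rr w kl kr}, 4 ≤ d → RDt K d l r dl ll dr rr w kl kr →
    (zbox d false).In (zeta w) ∧ 0 < (zeta w).im
  ringE : ∀ {d r dr rr w kr}, 4 ≤ d → RDe K d r dr rr w kr →
    (zbox d true).In (zeta w) ∧ 0 < (zeta w).im

/-- the box of a hinge of kind `x` in the frame of the first ring -/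
noncomputable def kbox (x : SK) (d : ℕ) (l : SK) (d' : ℕ) (l' : SK) : Box :=
  if x = .s then hbox (cK d l) .one false else hbox (cK d l) (cK d' l') (decide (x = .z))

lemma BoxRows.box {K : KFam} (Bx : BoxRows K) {x : SK} {d : ℕ} {l : SK} {d' : ℕ} {l' : SK}
    {R k k' : ℂ} (h : HDt K x d l d' l' R k k') : (kbox x d l d' l').In (yH x R k) := by
  unfold kbox yH
  by_cases hx : x = .s
  · subst hx
    rw [if_pos rfl, Hq_s]
    exact (Bx.sp h).1
  · rw [if_neg hx, Hq_of_ne hx]
    exact Bx.un hx h

/-- all boxes lie in `[0, 1/2]` -/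
lemma hbox_le (A B : Cl) (s : Bool) : 16 / 100 ≤ (hbox A B s).x0 ∧ (hbox A B s).x1 ≤ 1 / 2 := by
  cases A <;> cases B <;> cases s <;> norm_num [hbox]

lemma hbox_lt {A B : Cl} (s : Bool) (h : A ≠ .one ∨ B ≠ .one) : (hbox A B s).x1 < 1 / 2 := by
  by_cases h2 : A = .one ∧ B = .one
  · obtain ⟨rfl, rfl⟩ := h2
    exact absurd rfl (h.elim id id)
  · revert h2
    cases A <;> cases B <;> cases s <;> norm_num [hbox]

lemma BoxRows.half {K : KFam} (Bx : BoxRows K) {x : SK} {d : ℕ} {l : SK} {d' : ℕ} {l' : SK}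
    {R k k' : ℂ} (h : HDt K x d l d' l' R k k') :
    0 < (yH x R k).re ∧ (yH x R k).re < 1 / 2 := by
  have h1 := Bx.box h
  unfold kbox at h1
  by_cases hx : x = .s
  · subst hx
    rw [if_pos rfl] at h1
    have h2 := hbox_le (cK d l) .one false
    refine ⟨by linarith [h1.1, h2.1], ?_⟩
    unfold yH
    rw [Hq_s]
    exact (Bx.sp h).2
  · rw [if_neg hx] at h1
    have h2 := hbox_le (cK d l) (cK d' l') (decide (x = .z))
    refine ⟨by linarith [h1.1, h2.1], ?_⟩
    have h3 : cK d l ≠ .one ∨ cK d' l' ≠ .one := by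
      by_contra hc
      push Not at hc
      have e1 : d = 1 := by
        by_contra hd
        have := hc.1
        unfold cK at this
        split_ifs at this
      have e2 : d' = 1 := by
        by_contra hd
        have := hc.2
        unfold cK at this
        split_ifs at this
      cases x
      · exact h.ok.ne rfl
      · have := h.ok.opp rfl
        omega
      · have := h.ok.left.zr rfl
        omega
      · exact hx rfl
    linarith [h1.2.1, hbox_lt (decide (x = .z)) h3]

section word5

variable {M : ℕ} {b : Fin (M + 1) → ℤ} {w : ℕ → ℂ}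

lemma ofr_fz {i : Fin (M + 1)} (z : ℂ) : ofr (b i) z = fz (sg b i.val) z := by
  unfold ofr fz sg
  rw [bb_val]
  by_cases h : 0 < b i
  · rw [if_pos h, if_pos h, if_pos rfl]
  · rw [if_neg h, if_neg h, if_neg (by norm_num)]

lemma clsW_eq {i : Fin (M + 1)} (l : SK) (hl : l = .e ↔ (i.val = 0 ∨ i.val = M)) :
    clsW b i = cK (dg b i.val) l := by
  unfold clsW cls cK
  rw [dg_val]
  have he : isEnd i = true ↔ l = .e := by
    unfold isEnd
    rw [decide_eq_true_iff, hl]
    constructor
    · rintro (h | h)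
      · left; rw [h]; rfl
      · right; rw [h]; rfl
    · rintro (h | h)
      · left; exact Fin.ext h
      · right; exact Fin.ext h
  by_cases h : l = .e
  · simp only [he.2 h, h, if_true]
  · have h2 : isEnd i = false := by
      rw [← Bool.not_eq_true]
      exact fun h3 => h (he.1 h3)
    simp only [h2, h, Bool.false_eq_true, if_false]

lemma hbox_one_right (A : Cl) (s : Bool) : hbox A .one s = hbox A .one false := by
  cases A <;> cases s <;> rfl

lemma hbox_one_left (A : Cl) (s : Bool) : hbox .one A s = hbox .one A false := by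
  cases A <;> cases s <;> rfl

lemma clsW_one {i : Fin (M + 1)} (h : (b i).natAbs = 1) : clsW b i = .one := by
  unfold clsW cls
  rw [if_pos h]

variable (hb : ClassW b) (F : RingFacts) (hw : Sol b w)
include hb F hw

/-- the hinges of the word in their boxes -/
theorem hinge_box {K : KFam} (hK : Snd K b w) (Bx : BoxRows K) (h : Fin M) :
    (hbox (clsW b h.castSucc) (clsW b h.succ) (ssW b h)).In
      (ofr (b h.castSucc) (zsW b w (.inl (.inl h)))) ∧ (zsW b w (.inl (.inl h))).re < 1 / 2 := by
  have hn := h.2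
  have hc : h.castSucc.val = h.val := rfl
  have hs' : h.succ.val = h.val + 1 := by simp
  have ez : zsW b w (.inl (.inl h)) = acot2 (Rh b w h.val) := rfl
  rw [ez, ofr_fz, hc]
  by_cases hu : us b h.val = true
  · -- the left region is an absorbed digit
    obtain ⟨h1, h2, h3, h4⟩ := us_true hu
    have hH := hdt_left hb F hw hK (n := h.val + 1) (by omega) (by omega) h4
    have hk : lk b (h.val + 1) = .s := lk_s (by omega) (by rwa [show h.val + 1 - 1 = h.val by omega])
    rw [hk] at hH
    have hB := Bx.sp hH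
    have ey := own_y_left hb F hw (n := h.val + 1) (by omega) (by omega) h4
    rw [show h.val + 1 - 1 = h.val by omega, hk] at ey
    unfold yH at ey
    rw [Hq_s] at ey
    have e1 : (b h.castSucc).natAbs = 1 := by
      rw [← bb_val (b := b)]
      exact h2
    have e2 : clsW b h.succ = cK (dg b (h.val + 1)) (rk b (h.val + 1)) := by
      rw [← hs']
      refine clsW_eq _ ?_
      rw [hs']
      constructor
      · intro h5
        right
        by_contra hc
        exact rk_ne_e (by omega) h5
      · rintro (h5 | h5)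
        · omega
        · exact rk_e (by omega)
    have hop : sg b h.val = -sg b (h.val + 1) := by
      have h5 := us_lt hb hu
      have h6 := bb_opp hb (n := h.val) (by omega) (Or.inl (by omega))
      unfold sg
      rcases lt_or_gt_of_ne (bb_ne hb (by omega : h.val ≤ M)) with h7 | h7
      · have h8 : 0 < bb b (h.val + 1) := by
          by_contra hc
          have := mul_nonneg_of_nonpos_of_nonpos h7.le (not_lt.1 hc)
          omega
        rw [if_neg (by omega), if_pos h8]
      · have h8 : ¬ 0 < bb b (h.val + 1) := by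
          intro hc
          have := mul_pos h7 hc
          omega
        rw [if_pos h7, if_neg h8, neg_neg]
    have ef : fz (sg b h.val) (acot2 (Rh b w h.val)) =
        conj (fz (sg b (h.val + 1)) (acot2 (Rh b w h.val))) := by
      rw [hop]
      rcases sg_or (b := b) (h.val + 1) with h5 | h5
      · rw [h5, fz_neg, fz_one]
      · rw [h5, neg_neg, fz_neg, fz_one, Complex.conj_conj]
    rw [clsW_one e1, e2, hbox_one_left, hbox_swap, ef, Box.in_neg, ey]
    refine ⟨hB.1, ?_⟩
    rw [← fz_re (sg b (h.val + 1)), ey]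
    exact hB.2
  · rw [Bool.not_eq_true] at hu
    have e1 : clsW b h.castSucc = cK (dg b h.val) (lk b h.val) := by
      have := clsW_eq (b := b) (i := h.castSucc) (lk b h.val) (by
        rw [hc]
        constructor
        · intro h5
          left
          by_contra hc
          exact lk_ne_e (by omega) h5
        · rintro (h5 | h5)
          · rw [h5]
            exact lk_e
          · omega)
      rw [hc] at this
      exact this
    have hH := hdt_right hb F hw hK (n := h.val) hn hu
    have ey := own_y_right F hw (n := h.val) hn hu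
    have hhalf := Bx.half hH
    have hy : (acot2 (Rh b w h.val)).re =
        (yH (rk b h.val) (RR (oW b w h.val) (oR b w h.val)) (Complex.cos (oW b w h.val))).re := by
      rw [← ey, fz_re]
    refine ⟨?_, by rw [hy]; exact hhalf.2⟩
    rw [ey, e1]
    by_cases h1 : us b (h.val + 1) = true
    · have hk := rk_s hn h1
      rw [hk] at hH ⊢
      have hB := (Bx.sp hH).1
      have e2 : (b h.succ).natAbs = 1 := by
        rw [← bb_val (b := b), hs']
        exact (us_true h1).2.1
      rw [clsW_one e2, hbox_one_right]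
      unfold yH
      rw [Hq_s]
      exact hB
    · rw [Bool.not_eq_true] at h1
      have hrn : rn b h.val = h.val + 1 := by
        unfold rn
        rw [if_neg (by rw [h1]; decide)]
      have hns : rk b h.val ≠ .s := by
        rw [rk_f hn h1]
        split_ifs <;> decide
      have hB := Bx.un hns hH
      have e2 : clsW b h.succ = cK (dg b (rn b h.val)) (rk b (rn b h.val)) := by
        rw [hrn, ← hs']
        refine clsW_eq _ ?_
        rw [hs']
        constructor
        · intro h5
          right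
          by_contra hc
          exact rk_ne_e (by omega) h5
        · rintro (h5 | h5)
          · omega
          · exact rk_e (by omega)
      have e3 : ssW b h = decide (rk b h.val = .z) := by
        unfold ssW
        rw [rk_f hn h1, ← bb_val (b := b), ← bb_val (b := b), hc, hs']
        by_cases h5 : 0 < bb b h.val * bb b (h.val + 1)
        · simp [h5]
        · simp [h5]
      rw [e2, e3]
      unfold yH
      rw [Hq_of_ne hns]
      exact hB

/-- **The location table of a word.** -/
theorem loc_of_boxes (hM : 1 ≤ M) {K : KFam} (hK : Snd K b w) (Bx : BoxRows K) :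
    Loc b (zsW b w) := by
  have hmid : ∀ m : {i : Fin (M + 1) // (tyW b i).isMid = true}, (b m.1).natAbs = 3 := by
    rintro ⟨i, hm⟩
    show (b i).natAbs = 3
    have hm' := hm
    unfold tyW at hm'
    split_ifs at hm' with h1 h2 h3 h4
    · exact absurd hm' (by decide)
    · exact absurd hm' (by decide)
    · exact h3
    · exact h3
    · exact absurd hm' (by decide)
  have hringd : ∀ v : ZZ (tyW b), 4 ≤ (b v.1).natAbs := by
    rintro ⟨i, hm⟩
    show 4 ≤ (b i).natAbs
    have h0 := hb.ne i
    have hm' := hm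
    unfold tyW at hm'
    split_ifs at hm' with h1 h2 h3 h4
    · exact absurd hm' (by decide)
    · exact absurd hm' (by decide)
    · exact absurd hm' (by decide)
    · exact absurd hm' (by decide)
    · omega
  have hring : ∀ v : ZZ (tyW b), (zbox (b v.1).natAbs (isEnd v.1)).In (zeta (oW b w v.1.val)) ∧
      0 < (zeta (oW b w v.1.val)).im := by
    intro v
    have h4 := hringd v
    have hi := v.1.2
    have hu : us b v.1.val = false := us_of_abs (by omega)
    have hd := dg_val (b := b) v.1
    by_cases h0 : v.1.val = 0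
    · have e : isEnd v.1 = true := by
        unfold isEnd
        rw [decide_eq_true_iff]
        exact Or.inl (Fin.ext h0)
      rw [e]
      have hE : RDe K (dg b 0) (rk b 0) (dg b (rn b 0)) (rk b (rn b 0)) (oW b w 0) (oR b w 0) :=
        rde_first hb F hw hK hM
      rw [h0] at hd
      have := Bx.ringE (by omega) hE
      rw [hd] at this
      rw [h0]
      exact this
    · by_cases h1 : v.1.val = M
      · have e : isEnd v.1 = true := by
          unfold isEnd
          rw [decide_eq_true_iff]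
          exact Or.inr (Fin.ext h1)
        rw [e]
        have hE : RDe K (dg b v.1.val) (lk b v.1.val) (dg b (ln b v.1.val))
            (lk b (ln b v.1.val)) (oW b w v.1.val) (oL b w v.1.val) := by
          unfold oW oL
          rw [h1]
          exact rde_last hb F hw hK hM
        have := Bx.ringE (by omega) hE
        rw [hd] at this
        exact this
      · have e : isEnd v.1 = false := by
          unfold isEnd
          rw [decide_eq_false_iff_not]
          rintro (h5 | h5)
          · exact h0 (by rw [h5]; rfl)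
          · exact h1 (by rw [h5]; rfl)
        rw [e]
        have hE : RDt K (dg b v.1.val) (lk b v.1.val) (rk b v.1.val) (dg b (ln b v.1.val))
            (lk b (ln b v.1.val)) (dg b (rn b v.1.val)) (rk b (rn b v.1.val)) (oW b w v.1.val)
            (oL b w v.1.val) (oR b w v.1.val) := rdt hb F hw hK (by omega) (by omega) hu
        have := Bx.ring (by omega) hE
        rw [hd] at this
        exact this
  have hzs : ∀ v : ZZ (tyW b), zsW b w (.inr v) =
      if sg b v.1.val = 1 then zeta (oW b w v.1.val) else -conj (zeta (oW b w v.1.val)) := by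
    intro v
    exact zeta_own v.1.val
  refine ⟨fun h => (hinge_box hb F hw hK Bx h).1, fun h => (hinge_box hb F hw hK Bx h).2,
    ?_, ?_, ?_, ?_⟩
  · intro m he h hm
    have h3 := hmid m
    have hi := m.1.2
    have hv : m.1.val = h.val + 1 := by
      rw [← hm]
      simp
    have hh := h.2
    have hd := dg_val (b := b) m.1
    rw [h3] at hd
    have hM' : m.1.val < M := by
      by_contra hc
      have : isEnd m.1 = true := by
        unfold isEnd
        rw [decide_eq_true_iff]
        exact Or.inr (Fin.ext (by show m.1.val = M; omega))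
      rw [he] at this
      exact absurd this (by decide)
    have h0 : 0 < m.1.val := by omega
    have hu : us b m.1.val = false := us_of_abs (by omega)
    have hE : RDt K (dg b m.1.val) (lk b m.1.val) (rk b m.1.val) (dg b (ln b m.1.val))
        (lk b (ln b m.1.val)) (dg b (rn b m.1.val)) (rk b (rn b m.1.val)) (oW b w m.1.val)
        (oL b w m.1.val) (oR b w m.1.val) := rdt hb F hw hK h0 hM' hu
    rw [hd] at hE
    have hB := Bx.mid hE
    have ez : zsW b w (.inl (.inr m)) = acot2 (Rm b w m.1.val) := rfl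
    rw [ez, ofr_fz, ← acot2_fz, own_mid hb F hw h0 hM'.le hu]
    have ec : clsW b h.castSucc = if lk b m.1.val = .s then .one
        else cK (dg b (ln b m.1.val)) (lk b (ln b m.1.val)) := by
      have hc : h.castSucc.val = h.val := rfl
      by_cases h5 : us b (m.1.val - 1) = true
      · rw [if_pos (lk_s h0 h5)]
        apply clsW_one
        rw [← bb_val (b := b), hc]
        have := (us_true h5).2.1
        rwa [show m.1.val - 1 = h.val by omega] at this
      · rw [Bool.not_eq_true] at h5
        have hln : ln b m.1.val = h.val := by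
          unfold ln
          rw [if_neg (by rw [h5]; decide)]
          omega
        rw [if_neg (by rw [lk_f h0 h5]; split_ifs <;> decide), hln]
        have := clsW_eq (b := b) (i := h.castSucc) (lk b h.val) (by
          rw [hc]
          constructor
          · intro h6
            left
            by_contra hc
            exact lk_ne_e (by omega) h6
          · rintro (h6 | h6)
            · rw [h6]
              exact lk_e
            · omega)
        rw [hc] at this
        exact this
    rw [ec]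
    exact hB
  · intro m he
    have h3 := hmid m
    have hi := m.1.2
    have hd := dg_val (b := b) m.1
    rw [h3] at hd
    have hu : us b m.1.val = false := us_of_abs (by omega)
    have ez : zsW b w (.inl (.inr m)) = acot2 (Rm b w m.1.val) := rfl
    rw [ez, ofr_fz, ← acot2_fz]
    by_cases h0 : m.1.val = 0
    · rw [h0] at hd ⊢
      rw [own_mid0 F hw hM]
      have hE : RDe K (dg b 0) (rk b 0) (dg b (rn b 0)) (rk b (rn b 0)) (oW b w 0) (oR b w 0) :=
        rde_first hb F hw hK hM
      rw [hd] at hE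
      exact Bx.midE hE
    · have h1 : m.1.val = M := by
        unfold isEnd at he
        rw [decide_eq_true_iff] at he
        rcases he with he | he
        · exact absurd (by rw [he]; rfl) h0
        · rw [he]
          rfl
      rw [own_mid hb F hw (by omega) (by omega) hu]
      have hE : RDe K (dg b m.1.val) (lk b m.1.val) (dg b (ln b m.1.val))
          (lk b (ln b m.1.val)) (oW b w m.1.val) (oL b w m.1.val) := by
        unfold oW oL
        rw [h1]
        exact rde_last hb F hw hK hM
      rw [hd] at hE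
      exact Bx.midE hE
  · intro v
    have h1 := (hring v).1
    have e : ofz (b v.1) (zsW b w (.inr v)) = zeta (oW b w v.1.val) := by
      rw [hzs]
      unfold ofz sg
      rw [bb_val (b := b)]
      by_cases h : 0 < b v.1
      · rw [if_pos h, if_pos h, if_pos rfl]
      · rw [if_neg h, if_neg h, if_neg (by norm_num), map_neg, neg_neg, Complex.conj_conj]
    rw [e]
    exact h1
  · intro v
    have h2 := (hring v).2
    rw [hzs]
    split_ifs
    · exact h2
    · rw [Complex.neg_im, Complex.conj_im, neg_neg]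
      exact h2

end word5

end SR

end Pool.Agent.Work.MP_b30479_gtS.G2

end

section

/-!
# Small lemmas about classes and hinges
-/

namespace Pool.Agent.Work.MP_b30479_gtS.G2

open Complex Set Filter Topology VOL
open scoped ComplexConjugate

namespace SR

lemma cK_ring {d : ℕ} (h : 4 ≤ d) (l : SK) : cK d l = .ring := by
  unfold cK
  rw [if_neg (by omega), if_neg (by omega), if_neg (by omega)]

lemma cK_one {d : ℕ} {l : SK} (h : cK d l = .one) : d = 1 := by
  unfold cK at h
  split_ifs at h with h1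
  exact h1

lemma cK_two {d : ℕ} {l : SK} (h : cK d l = .two) : d = 2 ∧ l ≠ .e := by
  unfold cK at h
  split_ifs at h with h1 h2 h3
  exact ⟨h2, h3⟩

lemma yH_s (R k : ℂ) : yH .s R k = acot2 (Sp R k) := by
  unfold yH
  rw [Hq_s]

lemma yH_ne {x : SK} (h : x ≠ .s) (R k : ℂ) : yH x R k = acot2 R := by
  unfold yH
  rw [Hq_of_ne h]

end SR

end Pool.Agent.Work.MP_b30479_gtS.G2

end
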