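import Mathlib
import Pool.Agent.Work.MP_b30479_gt.TBS.G2.S2Poly
import Pool.Agent.Work.MP_b30479_gt.TBS.G2.RDw
import Pool.Agent.Work.MP_b30479_gt.TBS.G2.SWordA

section

/-!
# Diagonal dominance for twist regions with at least three crossings: core inequalities

Own frame: `c = cos² w`, hinges `R`, `R²  = 1 / c - 1 + 1 / k²`.  The dominance
`‖1 - c‖ ∑ 1 / ‖R‖ < ‖b c + ∑ I / R‖` is tested in the direction `(9, 40) / 41`.
-/

namespace Pool.Agent.Work.MP_b30479_gtS.G2.KB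

open Complex

/-- the test direction -/
noncomputable def dirN (ζ : ℂ) : ℝ := (9 * ζ.re + 40 * ζ.im) / 41

lemma dirN_add (ζ ξ : ℂ) : dirN (ζ + ξ) = dirN ζ + dirN ξ := by
  simp only [dirN, Complex.add_re, Complex.add_im]
  ring

lemma dirN_le (ζ : ℂ) : dirN ζ ≤ ‖ζ‖ := by
  apply le_of_sq_le_sq _ (norm_nonneg _)
  rw [Complex.sq_norm, Complex.normSq_apply, dirN]
  nlinarith only [sq_nonneg (40 * ζ.re - 9 * ζ.im)]

lemma norm_sq_re_im (R : ℂ) : ‖R‖ ^ 2 = R.re ^ 2 + R.im ^ 2 := by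
  rw [Complex.sq_norm, Complex.normSq_apply]
  ring

lemma dirN_I_div {R : ℂ} (hR : R ≠ 0) :
    dirN (I / R) = (9 * R.im + 40 * R.re) / 41 / ‖R‖ ^ 2 := by
  have h0 : Complex.normSq R ≠ 0 := by
    rwa [Ne, Complex.normSq_eq_zero]
  rw [dirN, Complex.div_re, Complex.div_im, Complex.sq_norm]
  simp only [Complex.I_re, Complex.I_im]
  field_simp
  ring

/-- a port of alternating type -/
lemma port_A' {m : ℝ} {R : ℂ} (hm : m ^ 2 ≤ 525 / 1000) (hX : 0 < R.re)
    (h1 : -(55 / 100) * R.re ≤ R.im) (h2 : R.im ≤ 136 / 100 * R.re) :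
    m * (1 / ‖R‖) ≤ dirN (I / R) := by
  have hR : R ≠ 0 := fun h => by rw [h] at hX; exact lt_irrefl _ hX
  have hn : 0 < ‖R‖ := norm_pos_iff.mpr hR
  have hsq := norm_sq_re_im R
  have key : m * ‖R‖ ≤ (9 * R.im + 40 * R.re) / 41 := by
    have hnn : 0 ≤ (9 * R.im + 40 * R.re) / 41 := by
      apply div_nonneg _ (by norm_num)
      nlinarith only [hX, h1]
    apply le_of_sq_le_sq _ hnn
    have e : (m * ‖R‖) ^ 2 = m ^ 2 * ‖R‖ ^ 2 := by ring
    rw [e, hsq]
    have h3 : m ^ 2 * (R.re ^ 2 + R.im ^ 2) ≤ 525 / 1000 * (R.re ^ 2 + R.im ^ 2) :=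
      mul_le_mul_of_nonneg_right hm (by positivity)
    refine h3.trans ?_
    have h4 : 0 ≤ (R.im + 55 / 100 * R.re) * (136 / 100 * R.re - R.im) :=
      mul_nonneg (by linarith only [h1]) (by linarith only [h2])
    nlinarith only [h4, mul_pos hX hX]
  rw [dirN_I_div hR, mul_one_div, div_le_div_iff₀ hn (by positivity)]
  calc m * ‖R‖ ^ 2 = m * ‖R‖ * ‖R‖ := by ring
    _ ≤ (9 * R.im + 40 * R.re) / 41 * ‖R‖ := mul_le_mul_of_nonneg_right key hn.le

/-- a port of equal sign -/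
lemma port_S' {m ν r1 δ : ℝ} {R : ℂ} (hR : R ≠ 0) (hδ0 : 0 ≤ δ)
    (hN : ν * ‖R‖ ≤ (9 * R.im + 40 * R.re) / 41) (hr : r1 ≤ ‖R‖) (hδ : m - ν ≤ δ * r1) :
    m * (1 / ‖R‖) - δ ≤ dirN (I / R) := by
  have hn : 0 < ‖R‖ := norm_pos_iff.mpr hR
  rw [dirN_I_div hR, le_div_iff₀ (by positivity)]
  have e : (m * (1 / ‖R‖) - δ) * ‖R‖ ^ 2 = m * ‖R‖ - δ * ‖R‖ * ‖R‖ := by
    field_simp
  rw [e]
  refine le_trans ?_ hN
  have h1 : δ * r1 ≤ δ * ‖R‖ := mul_le_mul_of_nonneg_left hr hδ0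
  have h2 : (m - ν) * ‖R‖ ≤ δ * ‖R‖ * ‖R‖ := mul_le_mul_of_nonneg_right (hδ.trans h1) hn.le
  linarith only [h2]

/-- bound in the test direction in a sector of the fourth quadrant -/
lemma sector_51 {R : ℂ} (hX : 0 < R.re) (h1 : -(1052 / 1000) * R.re ≤ R.im) (h2 : R.im ≤ 0) :
    51 / 100 * ‖R‖ ≤ (9 * R.im + 40 * R.re) / 41 := by
  have hnn : 0 ≤ (9 * R.im + 40 * R.re) / 41 := by
    apply div_nonneg _ (by norm_num)
    nlinarith only [hX, h1]
  apply le_of_sq_le_sq _ hnn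
  rw [mul_pow, norm_sq_re_im]
  have h4 : 0 ≤ (R.im + 1052 / 1000 * R.re) * (-R.im) := mul_nonneg (by linarith only [h1]) (by linarith only [h2])
  nlinarith only [h4, hX, h1, mul_pos hX hX, mul_nonneg hX.le (neg_nonneg.mpr h2)]

/-- bound in the test direction in a larger sector of the fourth quadrant -/
lemma sector_40 {R : ℂ} (hX : 0 < R.re) (h1 : -(1345 / 1000) * R.re ≤ R.im) (h2 : R.im ≤ 0) :
    40 / 100 * ‖R‖ ≤ (9 * R.im + 40 * R.re) / 41 := by
  have hnn : 0 ≤ (9 * R.im + 40 * R.re) / 41 := by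
    apply div_nonneg _ (by norm_num)
    nlinarith only [hX, h1]
  apply le_of_sq_le_sq _ hnn
  rw [mul_pow, norm_sq_re_im]
  have h4 : 0 ≤ (R.im + 1345 / 1000 * R.re) * (-R.im) := mul_nonneg (by linarith only [h1]) (by linarith only [h2])
  nlinarith only [h4, hX, h1, mul_pos hX hX, mul_nonneg hX.le (neg_nonneg.mpr h2)]

/-! ### from the square of `R` to the sector -/

lemma sq_re (R : ℂ) : (R ^ 2).re = R.re ^ 2 - R.im ^ 2 := by
  rw [pow_two, Complex.mul_re]; ring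

lemma sq_im (R : ℂ) : (R ^ 2).im = 2 * R.re * R.im := by
  rw [pow_two, Complex.mul_im]; ring

lemma low_of_sq {R : ℂ} (hX : 0 < R.re) (h : 0 ≤ (R ^ 2).re + 7 / 10 * (R ^ 2).im) :
    -(55 / 100) * R.re ≤ R.im := by
  rw [sq_re, sq_im] at h
  by_contra hc
  push Not at hc
  -- `X² - Y² + 1.4 X Y < 0`
  have h1 : R.im < 0 := by nlinarith only [hX, hc]
  nlinarith only [h, h1, hc, hX, mul_pos hX hX, mul_pos hX (neg_pos.mpr h1), mul_pos (neg_pos.mpr h1) (neg_pos.mpr h1),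
    mul_pos (show 0 < -(55 / 100) * R.re - R.im by linarith only [hc]) (neg_pos.mpr h1)]

lemma high_of_sq {R : ℂ} (hX : 0 < R.re) (h : 0 ≤ (R ^ 2).re + 3 / 10 * (R ^ 2).im) :
    R.im ≤ 136 / 100 * R.re := by
  rw [sq_re, sq_im] at h
  by_contra hc
  push Not at hc
  nlinarith only [h, hX, hc, mul_pos hX hX, mul_pos hX (show 0 < R.im - 136 / 100 * R.re by linarith only [hc]),
    mul_pos (show 0 < R.im - 136 / 100 * R.re by linarith only [hc])
      (show 0 < R.im - 136 / 100 * R.re by linarith only [hc])]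

lemma im_nonpos_of_sq {R : ℂ} (hX : 0 < R.re) (h : (R ^ 2).im ≤ 0) : R.im ≤ 0 := by
  rw [sq_im] at h
  by_contra hc
  push Not at hc
  nlinarith only [h, hX, hc, mul_pos hX hc]

lemma low51_of_sq {R : ℂ} (hX : 0 < R.re)
    (h : 0 ≤ (R ^ 2).re - 5 / 100 * (R ^ 2).im) : -(1052 / 1000) * R.re ≤ R.im := by
  rw [sq_re, sq_im] at h
  by_contra hc
  push Not at hc
  have h1 : 0 < -R.im := by nlinarith only [hX, hc]
  nlinarith only [h, hX, hc, h1, mul_pos hX hX, mul_pos hX h1,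
    mul_pos (show 0 < -(1052 / 1000) * R.re - R.im by linarith only [hc]) h1,
    mul_pos (show 0 < -(1052 / 1000) * R.re - R.im by linarith only [hc]) hX]

lemma low40_of_sq {R : ℂ} (hX : 0 < R.re)
    (h : 0 ≤ (R ^ 2).re - 3 / 10 * (R ^ 2).im) : -(1345 / 1000) * R.re ≤ R.im := by
  rw [sq_re, sq_im] at h
  by_contra hc
  push Not at hc
  have h1 : 0 < -R.im := by nlinarith only [hX, hc]
  nlinarith only [h, hX, hc, h1, mul_pos hX hX, mul_pos hX h1,
    mul_pos (show 0 < -(1345 / 1000) * R.re - R.im by linarith only [hc]) h1,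
    mul_pos (show 0 < -(1345 / 1000) * R.re - R.im by linarith only [hc]) hX]

/-- lower bound for `‖R‖` from a linear functional of the square -/
lemma norm_ge_of_sq {R : ℂ} {r : ℝ}
    (h : 3 / 2 * r ^ 2 ≤ (R ^ 2).re - (R ^ 2).im) : r ≤ ‖R‖ := by
  apply le_of_sq_le_sq _ (norm_nonneg _)
  have h1 : ‖R‖ ^ 2 = ‖R ^ 2‖ := by rw [norm_pow]
  rw [h1]
  have h2 : (3 / 2 * ‖R ^ 2‖) ^ 2 ≥ ((R ^ 2).re - (R ^ 2).im) ^ 2 := by
    rw [mul_pow, norm_sq_re_im]
    nlinarith only [sq_nonneg ((R ^ 2).re + (R ^ 2).im), sq_nonneg (R ^ 2).re, sq_nonneg (R ^ 2).im]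
  have h3 : (R ^ 2).re - (R ^ 2).im ≤ 3 / 2 * ‖R ^ 2‖ := le_of_sq_le_sq h2 (by positivity)
  linarith only [h, h3]

/-! ### the dominance inequality -/

lemma dom_iff2 {c R R' : ℂ} {b : ℝ} (hc : c ≠ 0) (hR : R ≠ 0) (hR' : R' ≠ 0)
    (h : ‖1 - c‖ * (1 / ‖R‖) + ‖1 - c‖ * (1 / ‖R'‖) < ‖(b : ℂ) * c + (I / R + I / R')‖) :
    ‖(1 - c) / c / R‖ + ‖(1 - c) / c / R'‖ <
      ‖(b : ℂ) + I * (1 / (c * R) + 1 / (c * R'))‖ := by
  have hn : 0 < ‖c‖ := norm_pos_iff.mpr hc
  have e : (b : ℂ) * c + (I / R + I / R') = c * ((b : ℂ) + I * (1 / (c * R) + 1 / (c * R'))) := by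
    field_simp
  rw [e, norm_mul] at h
  have e1 : ‖(1 - c) / c / R‖ + ‖(1 - c) / c / R'‖ =
      (‖1 - c‖ * (1 / ‖R‖) + ‖1 - c‖ * (1 / ‖R'‖)) / ‖c‖ := by
    simp only [norm_div]
    have := norm_pos_iff.mpr hR
    have := norm_pos_iff.mpr hR'
    field_simp
  rw [e1, div_lt_iff₀ hn]
  linarith only [h]

lemma dom_iff1 {c R : ℂ} {b : ℝ} (hc : c ≠ 0) (hR : R ≠ 0)
    (h : ‖1 - c‖ * (1 / ‖R‖) < ‖(b : ℂ) * c + I / R‖) :
    ‖(1 - c) / c / R‖ < ‖(b : ℂ) + I * (1 / (c * R))‖ := by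
  have hn : 0 < ‖c‖ := norm_pos_iff.mpr hc
  have e : (b : ℂ) * c + I / R = c * ((b : ℂ) + I * (1 / (c * R))) := by
    field_simp
  rw [e, norm_mul] at h
  have e1 : ‖(1 - c) / c / R‖ = (‖1 - c‖ * (1 / ‖R‖)) / ‖c‖ := by
    simp only [norm_div]
    have := norm_pos_iff.mpr hR
    field_simp
  rw [e1, div_lt_iff₀ hn]
  linarith only [h]

lemma dom_dir2 {c R R' : ℂ} {b δ δ' : ℝ} (hc : c ≠ 0) (hR : R ≠ 0) (hR' : R' ≠ 0)
    (h1 : ‖1 - c‖ * (1 / ‖R‖) - δ ≤ dirN (I / R)) (h2 : ‖1 - c‖ * (1 / ‖R'‖) - δ' ≤ dirN (I / R'))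
    (hb : δ + δ' < b * dirN c) :
    ‖(1 - c) / c / R‖ + ‖(1 - c) / c / R'‖ <
      ‖(b : ℂ) + I * (1 / (c * R) + 1 / (c * R'))‖ := by
  apply dom_iff2 hc hR hR'
  refine lt_of_lt_of_le ?_ (dirN_le _)
  rw [dirN_add, dirN_add]
  have e : dirN ((b : ℂ) * c) = b * dirN c := by
    simp only [dirN, Complex.mul_re, Complex.mul_im, Complex.ofReal_re, Complex.ofReal_im]
    ring
  rw [e]
  linarith only [h1, h2, hb]

lemma dom_dir1 {c R : ℂ} {b δ : ℝ} (hc : c ≠ 0) (hR : R ≠ 0)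
    (h1 : ‖1 - c‖ * (1 / ‖R‖) - δ ≤ dirN (I / R)) (hb : δ < b * dirN c) :
    ‖(1 - c) / c / R‖ < ‖(b : ℂ) + I * (1 / (c * R))‖ := by
  apply dom_iff1 hc hR
  refine lt_of_lt_of_le ?_ (dirN_le _)
  rw [dirN_add]
  have e : dirN ((b : ℂ) * c) = b * dirN c := by
    simp only [dirN, Complex.mul_re, Complex.mul_im, Complex.ofReal_re, Complex.ofReal_im]
    ring
  rw [e]
  linarith only [h1, hb]

end Pool.Agent.Work.MP_b30479_gtS.G2.KB

end

section

/-!
# Diagonal dominance for twist regions with at least three crossings: the static cases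

All ring types with `b ≥ 3` except `t3as`: no ring equation is needed.
-/

namespace Pool.Agent.Work.MP_b30479_gtS.G2.KB

open Complex SQ

/-- real part of `1 / z²` -/
noncomputable def px (z : ℂ) : ℝ := (z.re ^ 2 - z.im ^ 2) / (z.re ^ 2 + z.im ^ 2) ^ 2

/-- minus the imaginary part of `1 / z²` -/
noncomputable def py (z : ℂ) : ℝ := (2 * z.re * z.im) / (z.re ^ 2 + z.im ^ 2) ^ 2

lemma inv_sq_re (z : ℂ) : ((z ^ 2)⁻¹).re = px z := by
  rw [Complex.inv_re, map_pow, Complex.normSq_apply, sq_re, px]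
  ring

lemma inv_sq_im (z : ℂ) : ((z ^ 2)⁻¹).im = -py z := by
  rw [Complex.inv_im, map_pow, Complex.normSq_apply, sq_im, py]
  ring

lemma quart_div {al be ga : ℤ} {z : ℂ} (hn : 0 < z.re ^ 2 + z.im ^ 2)
    (h : 0 ≤ quart al be ga 0 z) : (ga : ℝ) ≤ al * px z + be * py z := by
  have e : (al : ℝ) * px z + be * py z = (al * (z.re ^ 2 - z.im ^ 2) + be * (2 * z.re * z.im)) /
      (z.re ^ 2 + z.im ^ 2) ^ 2 := by
    rw [px, py]
    ring
  rw [e, le_div_iff₀ (by positivity)]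
  simp only [quart, Int.cast_zero] at h
  linarith only [h]

lemma n_pos {V : List (ℤ × ℤ)} (h : polyOK 0 0 (-1000) 20 V = true) {z : ℂ} (hz : z ∈ Poly V) :
    0 < z.re ^ 2 + z.im ^ 2 := by
  have h1 := poly_sound h hz
  simp only [quart, Int.cast_zero, Int.cast_neg, Int.cast_ofNat] at h1
  by_contra hc
  push Not at hc
  have h2 : 0 ≤ z.re ^ 2 + z.im ^ 2 := by positivity
  have h3 : z.re ^ 2 + z.im ^ 2 = 0 := le_antisymm hc h2
  rw [h3] at h1
  norm_num at h1

lemma px_py_of {al be ga : ℤ} {V : List (ℤ × ℤ)} (h0 : polyOK 0 0 (-1000) 20 V = true)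
    (h : polyOK al be ga 0 V = true) {z : ℂ} (hz : z ∈ Poly V) :
    (ga : ℝ) ≤ al * px z + be * py z :=
  quart_div (n_pos h0 hz) (poly_sound h hz)

/-! ### the ports -/

lemma pA_1 {k : ℂ} (hk : k ∈ Poly pA) : 77 / 100 ≤ px k + 7 / 10 * py k := by
  have := px_py_of (al := 1000) (be := 700) (ga := 770) (V := pA) (by decide) (by decide) hk
  push_cast at this
  linarith only [this]

lemma pA_2 {k : ℂ} (hk : k ∈ Poly pA) : 37 / 100 ≤ px k + 3 / 10 * py k := by
  have := px_py_of (al := 1000) (be := 300) (ga := 370) (V := pA) (by decide) (by decide) hk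
  push_cast at this
  linarith only [this]

lemma pA_3 {k : ℂ} (hk : k ∈ Poly pA) : 222 / 1000 ≤ px k + 145 / 1000 * py k := by
  have := px_py_of (al := 1000) (be := 145) (ga := 222) (V := pA) (by decide) (by decide) hk
  push_cast at this
  linarith only [this]

lemma pA_4 {k : ℂ} (hk : k ∈ Poly pA) : -(16 / 100) ≤ px k := by
  have := px_py_of (al := 1000) (be := 0) (ga := -160) (V := pA) (by decide) (by decide) hk
  push_cast at this
  linarith only [this]

lemma pA_y {k : ℂ} (hk : k ∈ Poly pA) : 0 ≤ py k := by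
  have := px_py_of (al := 0) (be := 1000) (ga := 0) (V := pA) (by decide) (by decide) hk
  push_cast at this
  linarith only [this]

lemma pS_1 {k : ℂ} (hk : k ∈ Poly pS) : 1 ≤ px k + py k := by
  have := px_py_of (al := 1000) (be := 1000) (ga := 1000) (V := pS) (by decide) (by decide) hk
  push_cast at this
  linarith only [this]

lemma pS_2 {k : ℂ} (hk : k ∈ Poly pS) : 1 / 10 ≤ px k + 5 / 100 * py k := by
  have := px_py_of (al := 1000) (be := 50) (ga := 100) (V := pS) (by decide) (by decide) hk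
  push_cast at this
  linarith only [this]

lemma pS_3 {k : ℂ} (hk : k ∈ Poly pS) : 37 / 100 ≤ px k + 3 / 10 * py k := by
  have := px_py_of (al := 1000) (be := 300) (ga := 370) (V := pS) (by decide) (by decide) hk
  push_cast at this
  linarith only [this]

lemma pS_4 {k : ℂ} (hk : k ∈ Poly pS) : 195 / 1000 ≤ px k + 12 / 100 * py k := by
  have := px_py_of (al := 1000) (be := 120) (ga := 195) (V := pS) (by decide) (by decide) hk
  push_cast at this
  linarith only [this]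

lemma pS_5 {k : ℂ} (hk : k ∈ Poly pS) : -(76 / 10) ≤ 784 / 100 * px k - 395 / 100 * py k := by
  have := px_py_of (al := 7840) (be := -3950) (ga := -7600) (V := pS) (by decide) (by decide) hk
  push_cast at this
  linarith only [this]

lemma pS_y {k : ℂ} (hk : k ∈ Poly pS) : 0 ≤ py k := by
  have := px_py_of (al := 0) (be := 1000) (ga := 0) (V := pS) (by decide) (by decide) hk
  push_cast at this
  linarith only [this]

/-! ### the own values -/

/-- types which can have a neighbour of opposite sign (all but `t3as`), at least three crossings -/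
def typA : RT → Bool
  | .t3aa | .t3ae | .t4 | .t5 | .t6 | .t7 | .t8 => true
  | _ => false

/-- types with at least four crossings -/
def typS : RT → Bool
  | .t4 | .t5 | .t6 | .t7 | .t8 => true
  | _ => false

/-- types with at least three crossings -/
def typ3 : RT → Bool
  | .t2aa | .t2as | .t2e => false
  | _ => true

lemma typA3 {t : RT} (h : typA t = true) : typ3 t = true := by
  cases t <;> simp [typA, typ3] at *

lemma typSA {t : RT} (h : typS t = true) : typA t = true := by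
  cases t <;> simp [typA, typS] at *

lemma own_n {t : RT} {z : ℂ} (hz : z ∈ Poly (vt t)) : 0 < z.re ^ 2 + z.im ^ 2 :=
  n_pos (by cases t <;> decide) hz

lemma own_y {t : RT} {z : ℂ} (hz : z ∈ Poly (vt t)) : 0 ≤ py z := by
  have := px_py_of (al := 0) (be := 1000) (ga := 0) (V := vt t) (by cases t <;> decide)
    (by cases t <;> decide) hz
  push_cast at this
  linarith only [this]

lemma norm_one_sub_sq (z : ℂ) : ‖1 - z ^ 2‖ ^ 2 =
    1 - 2 * (z.re ^ 2 - z.im ^ 2) + (z.re ^ 2 + z.im ^ 2) ^ 2 := by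
  rw [norm_sq_re_im, Complex.sub_re, Complex.sub_im, sq_re, sq_im, Complex.one_re, Complex.one_im]
  ring

lemma own_m {t : RT} (ht : typA t = true) {z : ℂ} (hz : z ∈ Poly (vt t)) :
    ‖1 - z ^ 2‖ ^ 2 ≤ 525 / 1000 := by
  have h : polyOK 2000 0 1000 475 (vt t) = true := by
    revert ht; cases t <;> simp only [typA] <;> decide
  have := poly_sound h hz
  rw [norm_one_sub_sq]
  simp only [quart, Int.cast_ofNat, Int.cast_zero] at this
  linarith only [this]

lemma own_a1 {t : RT} (ht : typA t = true) {z : ℂ} (hz : z ∈ Poly (vt t)) :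
    24 / 100 ≤ px z - 7 / 10 * py z := by
  have := px_py_of (al := 1000) (be := -700) (ga := 240) (V := vt t) (by cases t <;> decide)
    (by revert ht; cases t <;> simp only [typA] <;> decide) hz
  push_cast at this
  linarith only [this]

lemma own_a2 {t : RT} (ht : typA t = true) {z : ℂ} (hz : z ∈ Poly (vt t)) :
    64 / 100 ≤ px z - 3 / 10 * py z := by
  have := px_py_of (al := 1000) (be := -300) (ga := 640) (V := vt t) (by cases t <;> decide)
    (by revert ht; cases t <;> simp only [typA] <;> decide) hz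
  push_cast at this
  linarith only [this]

lemma own_dir {t : RT} (ht : typA t = true) {z : ℂ} (hz : z ∈ Poly (vt t)) :
    57 / 10 / 41 ≤ dirN (z ^ 2) := by
  have h : polyOK 9000 40000 0 5700 (vt t) = true := by
    revert ht; cases t <;> simp only [typA] <;> decide
  have := poly_sound h hz
  rw [dirN, sq_re, sq_im]
  simp only [quart, Int.cast_ofNat, Int.cast_zero] at this
  linarith only [this]

lemma own_s1 {t : RT} (ht : typS t = true ∨ t = .t3se) {z : ℂ} (hz : z ∈ Poly (vt t)) :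
    91 / 100 ≤ px z + 5 / 100 * py z := by
  have := px_py_of (al := 1000) (be := 50) (ga := 910) (V := vt t) (by cases t <;> decide)
    (by revert ht; cases t <;> simp only [typS] <;> decide) hz
  push_cast at this
  linarith only [this]

lemma own_s2 {t : RT} (ht : typS t = true ∨ t = .t3se) {z : ℂ} (hz : z ∈ Poly (vt t)) :
    1 ≤ px z + py z := by
  have := px_py_of (al := 1000) (be := 1000) (ga := 1000) (V := vt t) (by cases t <;> decide)
    (by revert ht; cases t <;> simp only [typS] <;> decide) hz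
  push_cast at this
  linarith only [this]

lemma se_m {z : ℂ} (hz : z ∈ Poly (vt .t3se)) : ‖1 - z ^ 2‖ ^ 2 ≤ 833 / 1000 := by
  have h : polyOK 2000 0 1000 167 (vt .t3se) = true := by decide
  have := poly_sound h hz
  rw [norm_one_sub_sq]
  simp only [quart, Int.cast_ofNat, Int.cast_zero] at this
  linarith only [this]

lemma se_dir {z : ℂ} (hz : z ∈ Poly (vt .t3se)) : 11 / 41 ≤ dirN (z ^ 2) := by
  have h : polyOK 9000 40000 0 11000 (vt .t3se) = true := by decide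
  have := poly_sound h hz
  rw [dirN, sq_re, sq_im]
  simp only [quart, Int.cast_ofNat, Int.cast_zero] at this
  linarith only [this]

lemma ss_m {z : ℂ} (hz : z ∈ Poly (vt .t3ss)) : ‖1 - z ^ 2‖ ^ 2 ≤ 1200 / 1000 := by
  have h : polyOK 2000 0 1000 (-200) (vt .t3ss) = true := by decide
  have := poly_sound h hz
  rw [norm_one_sub_sq]
  simp only [quart, Int.cast_ofNat, Int.cast_zero, Int.cast_neg] at this
  linarith only [this]

lemma ss_dir {z : ℂ} (hz : z ∈ Poly (vt .t3ss)) : 199 / 10 / 41 ≤ dirN (z ^ 2) := by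
  have h : polyOK 9000 40000 0 19900 (vt .t3ss) = true := by decide
  have := poly_sound h hz
  rw [dirN, sq_re, sq_im]
  simp only [quart, Int.cast_ofNat, Int.cast_zero] at this
  linarith only [this]

lemma ss_1 {z : ℂ} (hz : z ∈ Poly (vt .t3ss)) : 65 / 100 ≤ px z + 3 / 10 * py z := by
  have := px_py_of (al := 1000) (be := 300) (ga := 650) (V := vt .t3ss) (by decide)
    (by decide) hz
  push_cast at this
  linarith only [this]

lemma ss_2 {z : ℂ} (hz : z ∈ Poly (vt .t3ss)) : 141 / 100 ≤ px z + py z := by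
  have := px_py_of (al := 1000) (be := 1000) (ga := 1410) (V := vt .t3ss) (by decide)
    (by decide) hz
  push_cast at this
  linarith only [this]

/-! ### from `tan` to `cos` -/

lemma cos_ne_of_n {w : ℂ} (h : 0 < (Complex.cos w).re ^ 2 + (Complex.cos w).im ^ 2) :
    Complex.cos w ≠ 0 := fun h0 => by
  rw [h0] at h
  simp at h

lemma tan_sq_eq (w : ℂ) :
    Complex.tan w ^ 2 = (1 - Complex.cos w ^ 2) / Complex.cos w ^ 2 := by
  rw [Complex.tan, div_pow, ← Complex.sin_sq_add_cos_sq w]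
  ring

lemma RR_sq_eq {w k : ℂ} (h : Complex.cos w ≠ 0) :
    RR w k ^ 2 = (Complex.cos w ^ 2)⁻¹ - 1 + (k ^ 2)⁻¹ := by
  rw [RR_sq, ZZ0, tan_sq_eq, sub_div, div_self (pow_ne_zero 2 h), one_div]

/-- the ports of opposite sign -/
lemma RR_a {w k : ℂ} (h : Complex.cos w ≠ 0) :
    (RR w k ^ 2).re = px (Complex.cos w) - 1 + px (starRingEnd ℂ k) ∧
      (RR w k ^ 2).im = -py (Complex.cos w) + py (starRingEnd ℂ k) := by
  have e : (k ^ 2)⁻¹ = starRingEnd ℂ (((starRingEnd ℂ k) ^ 2)⁻¹) := by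
    rw [map_inv₀, map_pow, Complex.conj_conj]
  rw [RR_sq_eq h, e]
  constructor
  · rw [Complex.add_re, Complex.sub_re, inv_sq_re, Complex.one_re, Complex.conj_re, inv_sq_re]
  · rw [Complex.add_im, Complex.sub_im, inv_sq_im, Complex.one_im, Complex.conj_im, inv_sq_im]
    ring

/-- the ports of equal sign -/
lemma RR_s {w k : ℂ} (h : Complex.cos w ≠ 0) :
    (RR w k ^ 2).re = px (Complex.cos w) - 1 + px k ∧
      (RR w k ^ 2).im = -py (Complex.cos w) - py k := by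
  rw [RR_sq_eq h]
  constructor
  · rw [Complex.add_re, Complex.sub_re, inv_sq_re, Complex.one_re, inv_sq_re]
  · rw [Complex.add_im, Complex.sub_im, inv_sq_im, Complex.one_im, inv_sq_im]
    ring

/-! ### the ports in the test direction -/

lemma port_a {t : RT} (ht : typA t = true) {w k : ℂ} (hw : Complex.cos w ∈ Poly (vt t))
    (hk : starRingEnd ℂ k ∈ Poly pA) (hR : 0 < (RR w k).re) :
    ‖1 - Complex.cos w ^ 2‖ * (1 / ‖RR w k‖) - 0 ≤ dirN (I / RR w k) := by
  have hc := cos_ne_of_n (own_n hw)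
  obtain ⟨e1, e2⟩ := RR_a (k := k) hc
  have h1 := own_a1 ht hw
  have h2 := own_a2 ht hw
  have h3 := pA_1 hk
  have h4 := pA_2 hk
  rw [sub_zero]
  exact port_A' (own_m ht hw) hR (low_of_sq hR (by rw [e1, e2]; linarith only [h1, h3]))
    (high_of_sq hR (by rw [e1, e2]; linarith only [h2, h4]))

lemma port_s {t : RT} (ht : typS t = true) {w k : ℂ} (hw : Complex.cos w ∈ Poly (vt t))
    (hk : k ∈ Poly pS) (hR : 0 < (RR w k).re) :
    ‖1 - Complex.cos w ^ 2‖ * (1 / ‖RR w k‖) - 27 / 100 ≤ dirN (I / RR w k) := by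
  have hc := cos_ne_of_n (own_n hw)
  obtain ⟨e1, e2⟩ := RR_s (k := k) hc
  have h1 := own_s1 (Or.inl ht) hw
  have h2 := own_s2 (Or.inl ht) hw
  have h3 := pS_1 hk
  have h4 := pS_2 hk
  have h5 := pS_y hk
  have h6 := own_y hw
  have hY := im_nonpos_of_sq hR (by rw [e2]; linarith only [h5, h6])
  have hlow := low51_of_sq hR (by rw [e1, e2]; linarith only [h1, h4])
  have hr : 816 / 1000 ≤ ‖RR w k‖ := norm_ge_of_sq (by rw [e1, e2]; norm_num; linarith only [h2, h3])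
  have hm : ‖1 - Complex.cos w ^ 2‖ ≤ 725 / 1000 := by
    apply le_of_sq_le_sq _ (by norm_num)
    have := own_m (typSA ht) hw
    norm_num at this ⊢
    linarith only [this]
  exact port_S' (RR_ne hR) (by norm_num) (sector_51 hR hlow hY) hr (by norm_num; linarith only [hm])

lemma port_se {w k : ℂ} (hw : Complex.cos w ∈ Poly (vt .t3se))
    (hk : k ∈ Poly pS) (hR : 0 < (RR w k).re) :
    ‖1 - Complex.cos w ^ 2‖ * (1 / ‖RR w k‖) - 1 / 2 ≤ dirN (I / RR w k) := by
  have hc := cos_ne_of_n (own_n hw)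
  obtain ⟨e1, e2⟩ := RR_s (k := k) hc
  have h1 := own_s1 (Or.inr rfl) hw
  have h2 := own_s2 (Or.inr rfl) hw
  have h3 := pS_1 hk
  have h4 := pS_2 hk
  have h5 := pS_y hk
  have h6 := own_y hw
  have hY := im_nonpos_of_sq hR (by rw [e2]; linarith only [h5, h6])
  have hlow := low51_of_sq hR (by rw [e1, e2]; linarith only [h1, h4])
  have hr : 816 / 1000 ≤ ‖RR w k‖ := norm_ge_of_sq (by rw [e1, e2]; norm_num; linarith only [h2, h3])
  have hm : ‖1 - Complex.cos w ^ 2‖ ≤ 913 / 1000 := by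
    apply le_of_sq_le_sq _ (by norm_num)
    have := se_m hw
    norm_num at this ⊢
    linarith only [this]
  exact port_S' (RR_ne hR) (by norm_num) (sector_51 hR hlow hY) hr (by norm_num; linarith only [hm])

lemma port_ss {w k : ℂ} (hw : Complex.cos w ∈ Poly (vt .t3ss))
    (hk : k ∈ Poly pS) (hR : 0 < (RR w k).re) :
    ‖1 - Complex.cos w ^ 2‖ * (1 / ‖RR w k‖) - 72 / 100 ≤ dirN (I / RR w k) := by
  have hc := cos_ne_of_n (own_n hw)
  obtain ⟨e1, e2⟩ := RR_s (k := k) hc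
  have h1 := ss_1 hw
  have h2 := ss_2 hw
  have h3 := pS_1 hk
  have h4 := pS_3 hk
  have h5 := pS_y hk
  have h6 := own_y hw
  have hY := im_nonpos_of_sq hR (by rw [e2]; linarith only [h5, h6])
  have hlow := low40_of_sq hR (by rw [e1, e2]; linarith only [h1, h4])
  have hr : 969 / 1000 ≤ ‖RR w k‖ := norm_ge_of_sq (by rw [e1, e2]; norm_num; linarith only [h2, h3])
  have hm : ‖1 - Complex.cos w ^ 2‖ ≤ 10955 / 10000 := by
    apply le_of_sq_le_sq _ (by norm_num)
    have := ss_m hw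
    norm_num at this ⊢
    linarith only [this]
  exact port_S' (RR_ne hR) (by norm_num) (sector_40 hR hlow hY) hr (by norm_num; linarith only [hm])

/-! ### the dominance, static cases -/

/-- the last inequality of `Ring1` -/
def Kap1 (b : ℝ) (w k : ℂ) : Prop :=
  ‖Complex.tan w ^ 2 / RR w k‖ < ‖(b : ℂ) + I * (1 / (Complex.cos w ^ 2 * RR w k))‖

/-- the last inequality of `Ring2` -/
def Kap2 (b : ℝ) (w k k' : ℂ) : Prop :=
  ‖Complex.tan w ^ 2 / RR w k‖ + ‖Complex.tan w ^ 2 / RR w k'‖ <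
    ‖(b : ℂ) + I * (1 / (Complex.cos w ^ 2 * RR w k) + 1 / (Complex.cos w ^ 2 * RR w k'))‖

lemma Kap2.symm {b : ℝ} {w k k' : ℂ} (h : Kap2 b w k k') : Kap2 b w k' k := by
  unfold Kap2 at *
  rw [add_comm, add_comm (1 / (Complex.cos w ^ 2 * RR w k'))]
  exact h

lemma kap2_of {b δ δ' : ℝ} {w k k' : ℂ} (hc : Complex.cos w ≠ 0) (hR : 0 < (RR w k).re)
    (hR' : 0 < (RR w k').re)
    (h1 : ‖1 - Complex.cos w ^ 2‖ * (1 / ‖RR w k‖) - δ ≤ dirN (I / RR w k))
    (h2 : ‖1 - Complex.cos w ^ 2‖ * (1 / ‖RR w k'‖) - δ' ≤ dirN (I / RR w k'))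
    (hb : δ + δ' < b * dirN (Complex.cos w ^ 2)) : Kap2 b w k k' := by
  unfold Kap2
  rw [tan_sq_eq]
  exact dom_dir2 (pow_ne_zero 2 hc) (RR_ne hR) (RR_ne hR') h1 h2 hb

lemma kap1_of {b δ : ℝ} {w k : ℂ} (hc : Complex.cos w ≠ 0) (hR : 0 < (RR w k).re)
    (h1 : ‖1 - Complex.cos w ^ 2‖ * (1 / ‖RR w k‖) - δ ≤ dirN (I / RR w k))
    (hb : δ < b * dirN (Complex.cos w ^ 2)) : Kap1 b w k := by
  unfold Kap1
  rw [tan_sq_eq]
  exact dom_dir1 (pow_ne_zero 2 hc) (RR_ne hR) h1 hb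

/-- two neighbours of opposite sign -/
theorem kap_aa {t : RT} (ht : typA t = true) {b : ℝ} (hb : 3 ≤ b) {w k k' : ℂ}
    (hw : Complex.cos w ∈ Poly (vt t)) (hk : starRingEnd ℂ k ∈ Poly pA)
    (hk' : starRingEnd ℂ k' ∈ Poly pA) (hR : 0 < (RR w k).re) (hR' : 0 < (RR w k').re) :
    Kap2 b w k k' := by
  have hd := own_dir ht hw
  refine kap2_of (cos_ne_of_n (own_n hw)) hR hR' (port_a ht hw hk hR) (port_a ht hw hk' hR') ?_
  nlinarith only [hb, hd]

/-- an end ring, the neighbour has the opposite sign -/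
theorem kap_a {t : RT} (ht : typA t = true) {b : ℝ} (hb : 3 ≤ b) {w k : ℂ}
    (hw : Complex.cos w ∈ Poly (vt t)) (hk : starRingEnd ℂ k ∈ Poly pA) (hR : 0 < (RR w k).re) :
    Kap1 b w k := by
  have hd := own_dir ht hw
  refine kap1_of (cos_ne_of_n (own_n hw)) hR (port_a ht hw hk hR) ?_
  nlinarith only [hb, hd]

/-- at least four crossings, neighbours of both signs -/
theorem kap_as4 {t : RT} (ht : typS t = true) {b : ℝ} (hb : 4 ≤ b) {w k k' : ℂ}
    (hw : Complex.cos w ∈ Poly (vt t)) (hk : starRingEnd ℂ k ∈ Poly pA)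
    (hk' : k' ∈ Poly pS) (hR : 0 < (RR w k).re) (hR' : 0 < (RR w k').re) :
    Kap2 b w k k' := by
  have hd := own_dir (typSA ht) hw
  refine kap2_of (cos_ne_of_n (own_n hw)) hR hR' (port_a (typSA ht) hw hk hR)
    (port_s ht hw hk' hR') ?_
  nlinarith only [hb, hd]

/-- at least four crossings, two neighbours of the same sign -/
theorem kap_ss4 {t : RT} (ht : typS t = true) {b : ℝ} (hb : 4 ≤ b) {w k k' : ℂ}
    (hw : Complex.cos w ∈ Poly (vt t)) (hk : k ∈ Poly pS)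
    (hk' : k' ∈ Poly pS) (hR : 0 < (RR w k).re) (hR' : 0 < (RR w k').re) :
    Kap2 b w k k' := by
  have hd := own_dir (typSA ht) hw
  refine kap2_of (cos_ne_of_n (own_n hw)) hR hR' (port_s ht hw hk hR)
    (port_s ht hw hk' hR') ?_
  nlinarith only [hb, hd]

/-- at least four crossings, end ring with a neighbour of the same sign -/
theorem kap_s4 {t : RT} (ht : typS t = true) {b : ℝ} (hb : 4 ≤ b) {w k : ℂ}
    (hw : Complex.cos w ∈ Poly (vt t)) (hk : k ∈ Poly pS) (hR : 0 < (RR w k).re) :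
    Kap1 b w k := by
  have hd := own_dir (typSA ht) hw
  refine kap1_of (cos_ne_of_n (own_n hw)) hR (port_s ht hw hk hR) ?_
  nlinarith only [hb, hd]

/-- three crossings, two neighbours of the same sign -/
theorem kap_ss3 {b : ℝ} (hb : 3 ≤ b) {w k k' : ℂ}
    (hw : Complex.cos w ∈ Poly (vt .t3ss)) (hk : k ∈ Poly pS)
    (hk' : k' ∈ Poly pS) (hR : 0 < (RR w k).re) (hR' : 0 < (RR w k').re) :
    Kap2 b w k k' := by
  have hd := ss_dir hw
  refine kap2_of (cos_ne_of_n (own_n hw)) hR hR' (port_ss hw hk hR)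
    (port_ss hw hk' hR') ?_
  nlinarith only [hb, hd]

/-- three crossings, end ring with a neighbour of the same sign -/
theorem kap_s3 {b : ℝ} (hb : 3 ≤ b) {w k : ℂ}
    (hw : Complex.cos w ∈ Poly (vt .t3se)) (hk : k ∈ Poly pS) (hR : 0 < (RR w k).re) :
    Kap1 b w k := by
  have hd := se_dir hw
  refine kap1_of (cos_ne_of_n (own_n hw)) hR (port_se hw hk hR) ?_
  nlinarith only [hb, hd]

end Pool.Agent.Work.MP_b30479_gtS.G2.KB

end

section

/-!
# Diagonal dominance for twist regions with two crossings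

Own frame (positive sign): `T = tan w`, `c = cos² w`, `q = 1 / c = 1 + T²`; ports `k`, `k'`,
`p = 1 / k`, `p' = 1 / k'`; hinges `R² = T² + p²`, `R'² = T² + p'²`.  The ring equation
`2 w = π - i (Q + Q')` gives `R + R' = -2 i c p p'` and `R R' + T² = p p' (1 - 2 c)`.  With
`τ = R + R' + i` one has `τ² = (p + p')² - 1` and the factor of dominance is
`(|R| + |R'|) / (2 |τ|)`; it is smaller than `1` if `|τ| > 1` and `Re (p conj p') ≥ 0`.
-/

namespace Pool.Agent.Work.MP_b30479_gtS.G2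

open Complex

/-! ### the algebra -/

/-- the square of `τ = R + R' + i` -/
theorem tau_sq {c p p' R R' T : ℂ} (hR : R ^ 2 = T ^ 2 + p ^ 2) (hR' : R' ^ 2 = T ^ 2 + p' ^ 2)
    (ha : R + R' = -2 * I * c * (p * p')) (hb : R * R' + T ^ 2 = p * p' * (1 - 2 * c)) :
    (R + R' + I) ^ 2 = (p + p') ^ 2 - 1 := by
  linear_combination hR + hR' + 2 * hb + 2 * I * ha + (1 - 4 * c * (p * p')) * I_sq

/-- numerator of the diagonal entry -/
theorem diag_num {c p p' R R' T q : ℂ} (hq : q = 1 + T ^ 2) (hc : q * c = 1)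
    (ha : R + R' = -2 * I * c * (p * p')) (hb : R * R' + T ^ 2 = p * p' * (1 - 2 * c)) :
    2 * (R * R') + I * q * (R + R') = -2 * (q - 1) * (1 - I * (R + R')) := by
  subst hq
  linear_combination 2 * hb + I * (1 - T ^ 2) * ha + (-2 * (p * p')) * hc
    + (-2 * c * (p * p') * (1 - T ^ 2)) * I_sq

/-- `|R| + |R'| < 2 |τ|` -/
theorem norm_add_lt {p p' R R' : ℂ} (hR : R ^ 2 - R' ^ 2 = p ^ 2 - p' ^ 2)
    (hτ : (R + R' + I) ^ 2 = (p + p') ^ 2 - 1) (hd : 0 ≤ (p * starRingEnd ℂ p').re)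
    (hP : 1 < ‖(p + p') ^ 2 - 1‖) : ‖R‖ + ‖R'‖ < 2 * ‖R + R' + I‖ := by
  set τ := R + R' + I with hτd
  have h1 : 1 < ‖τ‖ := by
    have : ‖τ‖ ^ 2 = ‖(p + p') ^ 2 - 1‖ := by rw [← hτ, norm_pow]
    by_contra h
    have h2 : ‖τ‖ ≤ 1 := not_lt.mp h
    have h3 : ‖τ‖ ^ 2 ≤ 1 := by nlinarith only [hP, this, h, norm_nonneg τ]
    linarith only [hP, this, h3]
  have hsum : R + R' = τ - I := by rw [hτd]; ring
  have hprod : (R - R') * (τ - I) = (p + p') * (p - p') := by
    rw [← hsum]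
    linear_combination hR
  have hpp : (τ - I) * (τ + I) = (p + p') ^ 2 := by linear_combination hτ - I_sq
  have hnm : ‖p - p'‖ ≤ ‖p + p'‖ := by
    apply le_of_sq_le_sq _ (norm_nonneg _)
    rw [Complex.sq_norm, Complex.sq_norm, Complex.normSq_sub, Complex.normSq_add]
    linarith only [hd]
  have hle : ‖R - R'‖ ≤ ‖τ + I‖ := by
    by_cases h0 : ‖τ - I‖ = 0
    · exfalso
      have e : τ = I := sub_eq_zero.mp (norm_eq_zero.mp h0)
      rw [e, norm_I] at h1
      exact lt_irrefl _ h1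
    have h0' : 0 < ‖τ - I‖ := lt_of_le_of_ne (norm_nonneg _) (Ne.symm h0)
    have e1 : ‖R - R'‖ * ‖τ - I‖ = ‖p + p'‖ * ‖p - p'‖ := by
      rw [← norm_mul, ← norm_mul, hprod]
    have e2 : ‖τ - I‖ * ‖τ + I‖ = ‖p + p'‖ * ‖p + p'‖ := by
      rw [← norm_mul, ← norm_mul, hpp, pow_two]
    have e3 : ‖R - R'‖ * ‖τ - I‖ ≤ ‖τ + I‖ * ‖τ - I‖ := by
      rw [e1, mul_comm ‖τ + I‖, e2]
      exact mul_le_mul_of_nonneg_left hnm (norm_nonneg _)
    exact le_of_mul_le_mul_right e3 h0'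
  have hpar : ‖R‖ ^ 2 + ‖R'‖ ^ 2 = (‖R + R'‖ ^ 2 + ‖R - R'‖ ^ 2) / 2 := by
    rw [Complex.sq_norm, Complex.sq_norm, Complex.sq_norm, Complex.sq_norm, Complex.normSq_sub,
      Complex.normSq_add]
    ring
  have hpar2 : ‖τ - I‖ ^ 2 + ‖τ + I‖ ^ 2 = 2 * ‖τ‖ ^ 2 + 2 := by
    rw [Complex.sq_norm, Complex.sq_norm, Complex.sq_norm, Complex.normSq_apply,
      Complex.normSq_apply, Complex.normSq_apply]
    simp only [sub_re, sub_im, add_re, add_im, I_re, I_im]
    ring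
  apply lt_of_pow_lt_pow_left₀ 2 (by positivity)
  have h5 : ‖R + R'‖ = ‖τ - I‖ := by rw [hsum]
  have h6 : ‖R - R'‖ ^ 2 ≤ ‖τ + I‖ ^ 2 := by
    have := norm_nonneg (R - R')
    nlinarith only [hle, this]
  have h7 : ‖R + R'‖ ^ 2 = ‖τ - I‖ ^ 2 := by rw [h5]
  have h8 : 1 < ‖τ‖ ^ 2 := by nlinarith only [h1]
  have h9 : (‖R‖ + ‖R'‖) ^ 2 ≤ 2 * (‖R‖ ^ 2 + ‖R'‖ ^ 2) := by nlinarith only [sq_nonneg (‖R‖ - ‖R'‖)]
  have h10 : (2 * ‖τ‖) ^ 2 = 4 * ‖τ‖ ^ 2 := by ring
  rw [h10]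
  linarith only [hpar, hpar2, h6, h7, h8, h9]

/-- diagonal dominance of a ring with two crossings, interior case -/
theorem kap_two {c p p' R R' T q : ℂ} (hq : q = 1 + T ^ 2) (hc : q * c = 1)
    (hR : R ^ 2 = T ^ 2 + p ^ 2) (hR' : R' ^ 2 = T ^ 2 + p' ^ 2)
    (ha : R + R' = -2 * I * c * (p * p')) (hb : R * R' + T ^ 2 = p * p' * (1 - 2 * c))
    (hR0 : R ≠ 0) (hR0' : R' ≠ 0) (hT : T ≠ 0) (hd : 0 ≤ (p * starRingEnd ℂ p').re)
    (hP : 1 < ‖(p + p') ^ 2 - 1‖) :
    ‖q - 1‖ * (1 / ‖R‖ + 1 / ‖R'‖) < ‖2 + I * q * (1 / R + 1 / R')‖ := by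
  have hτ := tau_sq hR hR' ha hb
  have h1 := norm_add_lt (by rw [hR, hR']; ring) hτ hd hP
  have h2 := diag_num hq hc ha hb
  have e1 : 1 - I * (R + R') = -I * (R + R' + I) := by linear_combination I_sq
  have h3 : (2 + I * q * (1 / R + 1 / R')) * (R * R') = -2 * (q - 1) * (-I * (R + R' + I)) := by
    rw [← e1, ← h2]
    field_simp
    ring
  have h4 := congrArg norm h3
  rw [norm_mul, norm_mul R R', norm_mul (-2 * (q - 1)), norm_mul (-2 : ℂ), norm_mul (-I), norm_neg,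
    norm_neg, norm_I] at h4
  simp only [one_mul, norm_ofNat] at h4
  have p1 : 0 < ‖R‖ := norm_pos_iff.mpr hR0
  have p2 : 0 < ‖R'‖ := norm_pos_iff.mpr hR0'
  have p3 : 0 < ‖q - 1‖ := by
    rw [norm_pos_iff, hq]
    simpa using hT
  have h5 : ‖q - 1‖ * (1 / ‖R‖ + 1 / ‖R'‖) = ‖q - 1‖ * (‖R‖ + ‖R'‖) / (‖R‖ * ‖R'‖) := by
    field_simp
    ring
  rw [h5, div_lt_iff₀ (by positivity), h4]
  nlinarith only [h1, p3]

/-- diagonal dominance of an end ring with two crossings: the factor is exactly `1 / 2` -/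
theorem kap_two_end {R q : ℂ} (hR : R ≠ 0) (hq : q = 2 * (1 - I * R)) (hq1 : q ≠ 1) :
    ‖q - 1‖ * (1 / ‖R‖) < ‖2 + I * q * (1 / R)‖ := by
  have e : 2 + I * q * (1 / R) = 2 * (q - 1) * (I / R) := by
    field_simp
    rw [hq]
    linear_combination (2 * R) * I_sq
  have p3 : 0 < ‖q - 1‖ := norm_pos_iff.mpr (sub_ne_zero.mpr hq1)
  have p1 : 0 < ‖R‖ := norm_pos_iff.mpr hR
  rw [e, norm_mul, norm_mul, norm_div, norm_I]
  have : 0 < ‖q - 1‖ * (1 / ‖R‖) := by positivity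
  simp only [norm_ofNat]
  linarith only [this]

/-! ### from the ring equation -/

/-- hyperbolic functions of `Q = log (T + R) + log k` -/
theorem cosh_Q {T R k Q : ℂ} (hk : k ≠ 0) (hR : R ^ 2 = T ^ 2 + 1 / k ^ 2)
    (hQ : Complex.exp Q = (T + R) * k) : Complex.cosh Q = R * k ∧ Complex.sinh Q = T * k := by
  have h1 : (T + R) * k * ((R - T) * k) = 1 := by
    have e : (T + R) * k * ((R - T) * k) = (R ^ 2 - T ^ 2) * k ^ 2 := by ring
    rw [e, hR]
    field_simp
    ring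
  have h2 : Complex.exp (-Q) = (R - T) * k := by
    rw [Complex.exp_neg, hQ]
    exact inv_eq_of_mul_eq_one_right h1
  rw [Complex.cosh, Complex.sinh, hQ, h2]
  constructor <;> ring

/-- the ring equation of an interior ring with two crossings -/
theorem two_of_ring {w T R R' k k' Q Q' c : ℂ} (hk : k ≠ 0) (hk' : k' ≠ 0)
    (hT : T * Complex.cos w = Complex.sin w) (hcd : c = Complex.cos w ^ 2) (hT0 : T ≠ 0)
    (hR : R ^ 2 = T ^ 2 + 1 / k ^ 2) (hR' : R' ^ 2 = T ^ 2 + 1 / k' ^ 2)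
    (hQ : Complex.exp Q = (T + R) * k) (hQ' : Complex.exp Q' = (T + R') * k')
    (hw : 2 * w = Real.pi - I * (Q + Q')) :
    R + R' = -2 * I * c * (1 / k * (1 / k')) ∧
      R * R' + T ^ 2 = 1 / k * (1 / k') * (1 - 2 * c) := by
  obtain ⟨c1, s1⟩ := cosh_Q hk hR hQ
  obtain ⟨c2, s2⟩ := cosh_Q hk' hR' hQ'
  have hQQ : Q + Q' = (2 * w - Real.pi) * I := by
    linear_combination (-I) * hw + (Q + Q') * I_sq
  have hch : Complex.cosh (Q + Q') = -Complex.cos (2 * w) := by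
    rw [hQQ, Complex.cosh_mul_I, Complex.cos_sub_pi]
  have hsh : Complex.sinh (Q + Q') = -(Complex.sin (2 * w)) * I := by
    rw [hQQ, Complex.sinh_mul_I, Complex.sin_sub_pi]
  rw [Complex.cosh_add, c1, c2, s1, s2, Complex.cos_two_mul] at hch
  rw [Complex.sinh_add, c1, c2, s1, s2, Complex.sin_two_mul] at hsh
  constructor
  · have h1 : T * (k * k') * (R + R' + 2 * I * c * (1 / k * (1 / k'))) = 0 := by
      have e : T * (k * k') * (R + R' + 2 * I * c * (1 / k * (1 / k'))) =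
        T * k * (R' * k') + R * k * (T * k') + 2 * I * T * c := by
        field_simp
        ring
      rw [e, hsh, hcd, ← hT]
      ring
    have h2 := (mul_eq_zero.mp h1).resolve_left (mul_ne_zero hT0 (mul_ne_zero hk hk'))
    linear_combination h2
  · have e : (R * R' + T ^ 2) * (k * k') = 1 - 2 * c := by
      have : (R * R' + T ^ 2) * (k * k') = R * k * (R' * k') + T * k * (T * k') := by ring
      rw [this, hch, hcd]
      ring
    field_simp
    linear_combination e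

/-- the ring equation of an end ring with two crossings -/
theorem two_of_end {w T R k Q : ℂ} (hk : k ≠ 0) (hT : T * Complex.cos w = Complex.sin w)
    (hc : Complex.cos w ≠ 0) (hT0 : T ≠ 0) (hR : R ^ 2 = T ^ 2 + 1 / k ^ 2)
    (hQ : Complex.exp Q = (T + R) * k) (hw : 2 * w = Real.pi - I * Q) :
    1 / Complex.cos w ^ 2 = 2 * (1 - I * R) := by
  obtain ⟨c1, s1⟩ := cosh_Q hk hR hQ
  have hQQ : Q = (2 * w - Real.pi) * I := by
    linear_combination (-I) * hw + Q * I_sq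
  have hch : Complex.cosh Q = -Complex.cos (2 * w) := by
    conv_lhs => rw [hQQ, Complex.cosh_mul_I, Complex.cos_sub_pi]
  have hsh : Complex.sinh Q = -(Complex.sin (2 * w)) * I := by
    conv_lhs => rw [hQQ, Complex.sinh_mul_I, Complex.sin_sub_pi]
  rw [c1, Complex.cos_two_mul] at hch
  rw [s1, Complex.sin_two_mul, ← hT] at hsh
  have h1 : k = -2 * I * Complex.cos w ^ 2 := by
    have : T * (k + 2 * I * Complex.cos w ^ 2) = 0 := by linear_combination hsh
    linear_combination (mul_eq_zero.mp this).resolve_left hT0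
  rw [h1] at hch
  field_simp
  linear_combination -hch

/-- diagonal dominance from the ring equation, `b = 2`, interior ring -/
theorem kap_two_ring {w T R R' k k' Q Q' q : ℂ} (hk : k ≠ 0) (hk' : k' ≠ 0)
    (hT : T * Complex.cos w = Complex.sin w) (hT0 : T ≠ 0)
    (hq : q = 1 + T ^ 2) (hR : R ^ 2 = T ^ 2 + 1 / k ^ 2) (hR' : R' ^ 2 = T ^ 2 + 1 / k' ^ 2)
    (hR0 : R ≠ 0) (hR0' : R' ≠ 0)
    (hQ : Complex.exp Q = (T + R) * k) (hQ' : Complex.exp Q' = (T + R') * k')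
    (hw : 2 * w = Real.pi - I * (Q + Q'))
    (hd : 0 ≤ (1 / k * starRingEnd ℂ (1 / k')).re)
    (hP : 1 < ‖(1 / k + 1 / k') ^ 2 - 1‖) :
    ‖q - 1‖ * (1 / ‖R‖ + 1 / ‖R'‖) < ‖2 + I * q * (1 / R + 1 / R')‖ := by
  obtain ⟨ha, hb⟩ := two_of_ring hk hk' hT rfl hT0 hR hR' hQ hQ' hw
  refine kap_two hq ?_ (by rw [hR]; ring) (by rw [hR']; ring) ha hb hR0 hR0' hT0 hd hP
  rw [hq]
  have := Complex.sin_sq_add_cos_sq w
  rw [← hT] at this
  linear_combination this

/-- diagonal dominance from the ring equation, `b = 2`, end ring -/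
theorem kap_two_end_ring {w T R k Q q : ℂ} (hk : k ≠ 0) (hT : T * Complex.cos w = Complex.sin w)
    (hc : Complex.cos w ≠ 0) (hT0 : T ≠ 0) (hq : q = 1 + T ^ 2)
    (hR : R ^ 2 = T ^ 2 + 1 / k ^ 2) (hR0 : R ≠ 0)
    (hQ : Complex.exp Q = (T + R) * k) (hw : 2 * w = Real.pi - I * Q) :
    ‖q - 1‖ * (1 / ‖R‖) < ‖2 + I * q * (1 / R)‖ := by
  have h1 := two_of_end hk hT hc hT0 hR hQ hw
  have h2 : q * Complex.cos w ^ 2 = 1 := by
    rw [hq]
    have := Complex.sin_sq_add_cos_sq w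
    rw [← hT] at this
    linear_combination this
  apply kap_two_end hR0
  · rw [← h1]
    field_simp
    exact h2
  · rw [hq]
    simpa using hT0

end Pool.Agent.Work.MP_b30479_gtS.G2

end

section

/-!
# Diagonal dominance for three crossings and neighbours of both signs

The ring equation gives `D R R' = - T² E`, `E = 3 - T² - R R' - 4 i (R + R')`, and
`‖R‖ + ‖R'‖ < - Im E`.
-/

namespace Pool.Agent.Work.MP_b30479_gtS.G2.KB

open Complex SQ

/-! ### facts on the polygon -/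

lemma as_1 {z : ℂ} (hz : z ∈ Poly (vt .t3as)) : 166 / 100 ≤ px z + py z := by
  have := px_py_of (al := 1000) (be := 1000) (ga := 1660) (V := vt .t3as) (by decide)
    (by decide) hz
  push_cast at this
  linarith only [this]

lemma as_2 {z : ℂ} (hz : z ∈ Poly (vt .t3as)) : py z ≤ 146 / 100 := by
  have := px_py_of (al := 0) (be := -1000) (ga := -1460) (V := vt .t3as) (by decide)
    (by decide) hz
  push_cast at this
  linarith only [this]

lemma as_3 {z : ℂ} (hz : z ∈ Poly (vt .t3as)) : 73 / 100 ≤ px z := by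
  have := px_py_of (al := 1000) (be := 0) (ga := 730) (V := vt .t3as) (by decide)
    (by decide) hz
  push_cast at this
  linarith only [this]

lemma as_4 {z : ℂ} (hz : z ∈ Poly (vt .t3as)) : 59 / 100 ≤ px z - 145 / 1000 * py z := by
  have := px_py_of (al := 1000) (be := -145) (ga := 590) (V := vt .t3as) (by decide)
    (by decide) hz
  push_cast at this
  linarith only [this]

lemma as_5 {z : ℂ} (hz : z ∈ Poly (vt .t3as)) :
    15 / 10 ≤ 784 / 100 * px z - 395 / 100 * py z := by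
  have := px_py_of (al := 7840) (be := -3950) (ga := 1500) (V := vt .t3as) (by decide)
    (by decide) hz
  push_cast at this
  linarith only [this]

lemma as_6 {z : ℂ} (hz : z ∈ Poly (vt .t3as)) : 815 / 1000 ≤ px z + 12 / 100 * py z := by
  have := px_py_of (al := 1000) (be := 120) (ga := 815) (V := vt .t3as) (by decide)
    (by decide) hz
  push_cast at this
  linarith only [this]

lemma as_8 {z : ℂ} (hz : z ∈ Poly (vt .t3as)) : -(6 / 10) ≤ px z - 12 / 10 * py z := by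
  have := px_py_of (al := 1000) (be := -1200) (ga := -600) (V := vt .t3as) (by decide)
    (by decide) hz
  push_cast at this
  linarith only [this]

lemma pS_6 {k : ℂ} (hk : k ∈ Poly pS) : py k ≤ 275 / 100 := by
  have := px_py_of (al := 0) (be := -1000) (ga := -2750) (V := pS) (by decide) (by decide) hk
  push_cast at this
  linarith only [this]

/-! ### the identity -/

lemma exp_QQ {w k : ℂ} (hk : k ≠ 0) : Complex.exp (QQ w k) = (Complex.tan w + RR w k) * k := by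
  have h1 : (Complex.tan w + RR w k) ≠ 0 := by
    intro h0
    have h2 : RR w k ^ 2 - Complex.tan w ^ 2 = (k ^ 2)⁻¹ := by rw [RR_sq, ZZ0]; ring
    have h3 : (Complex.tan w + RR w k) * (RR w k - Complex.tan w) = (k ^ 2)⁻¹ := by
      rw [← h2]; ring
    rw [h0, zero_mul] at h3
    exact inv_ne_zero (pow_ne_zero 2 hk) h3.symm
  rw [QQ, Complex.exp_add, Complex.exp_log h1, Complex.exp_log hk]

lemma ring3 {w k k' : ℂ} (hc : Complex.cos w ≠ 0) (hk : k ≠ 0) (hk' : k' ≠ 0)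
    (hT : Complex.tan w ≠ 0)
    (hw : (3 : ℂ) * w - Real.pi + I * (QQ w k + QQ w k') = 0) :
    3 * (RR w k * RR w k') + I * (1 / Complex.cos w ^ 2) * (RR w k + RR w k') =
      -(Complex.tan w ^ 2 * (3 - Complex.tan w ^ 2 - RR w k * RR w k' -
        4 * I * (RR w k + RR w k'))) := by
  have hR : RR w k ^ 2 = Complex.tan w ^ 2 + 1 / k ^ 2 := by rw [RR_sq, ZZ0, one_div]
  have hR' : RR w k' ^ 2 = Complex.tan w ^ 2 + 1 / k' ^ 2 := by rw [RR_sq, ZZ0, one_div]
  obtain ⟨c1, s1⟩ := cosh_Q hk hR (exp_QQ hk)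
  obtain ⟨c2, s2⟩ := cosh_Q hk' hR' (exp_QQ hk')
  have hQQ : QQ w k + QQ w k' = (3 * w - Real.pi) * I := by
    linear_combination (-I) * hw + (QQ w k + QQ w k') * I_sq
  have hch : Complex.cosh (QQ w k + QQ w k') = -Complex.cos (3 * w) := by
    rw [hQQ, Complex.cosh_mul_I, Complex.cos_sub_pi]
  have hsh : Complex.sinh (QQ w k + QQ w k') = -(Complex.sin (3 * w)) * I := by
    rw [hQQ, Complex.sinh_mul_I, Complex.sin_sub_pi]
  rw [Complex.cosh_add, c1, c2, s1, s2, Complex.cos_three_mul] at hch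
  rw [Complex.sinh_add, c1, c2, s1, s2, Complex.sin_three_mul] at hsh
  have hTc : Complex.tan w * Complex.cos w = Complex.sin w := Complex.tan_mul_cos hc
  have hss : Complex.sin w ^ 2 = 1 - Complex.cos w ^ 2 := Complex.sin_sq w
  generalize Complex.tan w = T at *
  generalize Complex.cos w = z at *
  generalize Complex.sin w = s at *
  generalize RR w k = R at *
  generalize RR w k' = R' at *
  have hT2 : T ^ 2 * z ^ 2 = 1 - z ^ 2 := by rw [← hss, ← hTc]; ring
  have hA : k * k' * (R + R') = -I * z * (4 * z ^ 2 - 1) := by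
    have h1 : T * (k * k' * (R + R') + I * z * (4 * z ^ 2 - 1)) = 0 := by
      have e : s * (3 - 4 * s ^ 2) = T * z * (4 * z ^ 2 - 1) := by
        rw [hss, ← hTc]; ring
      linear_combination hsh - I * e
    have h2 := (mul_eq_zero.mp h1).resolve_left hT
    linear_combination h2
  have hB : k * k' * (R * R' + T ^ 2) = -(4 * z ^ 3 - 3 * z) := by
    linear_combination hch
  have hh : k * k' ≠ 0 := mul_ne_zero hk hk'
  have hz2 : z ^ 2 ≠ 0 := pow_ne_zero 2 hc
  have key : k * k' * (z ^ 2 * (3 * (R * R') + T ^ 2 * (3 - T ^ 2 - R * R' - 4 * I * (R + R'))) +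
      I * (R + R')) = 0 := by
    linear_combination (z ^ 2 * (3 - T ^ 2)) * hB + (I - 4 * I * z ^ 2 * T ^ 2) * hA +
      (4 * z ^ 3 - 3 * z + 4 * I ^ 2 * z * (4 * z ^ 2 - 1)) * hT2 -
      (z * (4 * z ^ 2 - 1) * (1 - 4 * (1 - z ^ 2))) * I_sq
  have key2 := (mul_eq_zero.mp key).resolve_left hh
  field_simp
  linear_combination key2

/-! ### real inequalities -/

lemma r_X2 {X Y a b p q : ℝ} (e3 : X ^ 2 - Y ^ 2 = a - 1 + p) (e4 : 2 * X * Y = -b - q)
    (c1 : 1 ≤ p + q) : (a + b) / 2 ≤ X ^ 2 := by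
  nlinarith only [e3, e4, c1, sq_nonneg (X + Y)]

lemma r_Xa {X a b : ℝ} (hX : 0 < X) (a1 : 166 / 100 ≤ a + b) (h : (a + b) / 2 ≤ X ^ 2) :
    911 / 1000 ≤ X := by
  by_contra hcon
  push Not at hcon
  nlinarith only [a1, h, hcon, hX]

lemma r_Xb {X a b : ℝ} (hX : 0 < X) (a2 : b ≤ 146 / 100) (a3 : 73 / 100 ≤ a)
    (a8 : -(6 / 10) ≤ a - 12 / 10 * b) (a9 : 0 ≤ b) (h : (a + b) / 2 ≤ X ^ 2) :
    36 / 100 + 53 / 100 * b ≤ X := by
  have h1 : (36 / 100 + 53 / 100 * b) ^ 2 ≤ (a + b) / 2 := by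
    rcases le_total b (11 / 10) with h | h
    · nlinarith only [a2, a8, a3, a9]
    · nlinarith only [a2, a8, h, mul_nonneg (sub_nonneg.mpr h) (sub_nonneg.mpr a2)]
  exact le_of_sq_le_sq (h1.trans h) hX.le

lemma r_Ynp {X Y b q : ℝ} (hX : 0 < X) (e4 : 2 * X * Y = -b - q) (a9 : 0 ≤ b) (c7 : 0 ≤ q) :
    Y ≤ 0 := by
  by_contra hcon
  push Not at hcon
  have := mul_pos hX hcon
  linarith only [e4, a9, c7, this]

lemma r_low {X Y : ℝ} (hX : 0 < X) (hY : Y ≤ 0) (h : 0 ≤ X ^ 2 - Y ^ 2 - 12 / 100 * (2 * X * Y)) :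
    -(1128 / 1000) * X ≤ Y := by
  by_contra hcon
  push Not at hcon
  have h1 : 0 < -Y := by nlinarith only [hX, hcon]
  have h2 : 0 < -(1128 / 1000) * X - Y := by linarith only [hcon]
  have h3 := mul_pos h2 h1
  have h4 := mul_pos h2 hX
  have h5 := mul_pos hX hX
  nlinarith only [h, h3, h4]

lemma r_N {X Y N : ℝ} (hX : 0 < X) (hY : Y ≤ 0) (h : -(1128 / 1000) * X ≤ Y)
    (n2 : N ^ 2 = X ^ 2 + Y ^ 2) : N ≤ 151 / 100 * X := by
  apply le_of_sq_le_sq _ (by positivity)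
  have h4 : 0 ≤ (Y + 1128 / 1000 * X) * (-Y) := mul_nonneg (by linarith only [h]) (by linarith only [hY])
  have h5 : 0 ≤ (Y + 1128 / 1000 * X) * X := mul_nonneg (by linarith only [h]) hX.le
  nlinarith only [n2, h4, h5]

lemma r_eta {X Y a b p q : ℝ} (hY : Y ≤ 0) (e3 : X ^ 2 - Y ^ 2 = a - 1 + p)
    (e4 : 2 * X * Y = -b - q) (a2 : b ≤ 146 / 100) (a9 : 0 ≤ b)
    (a5 : 15 / 10 ≤ 784 / 100 * a - 395 / 100 * b)
    (c5 : -(76 / 10) ≤ 784 / 100 * p - 395 / 100 * q) (c6 : q ≤ 275 / 100) (c7 : 0 ≤ q) :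
    -(14 / 10) ≤ Y := by
  by_contra hcon
  push Not at hcon
  have hB : b + q ≤ 421 / 100 := by linarith only [a2, c6]
  have hB0 : 0 ≤ b + q := by linarith only [a9, c7]
  have h1 : 196 / 100 ≤ Y ^ 2 := by nlinarith only [hcon, hY]
  -- `7.84 X^2 <= B^2`
  have h2 : 784 / 100 * X ^ 2 ≤ (b + q) ^ 2 := by
    have e : (b + q) ^ 2 = 4 * (X ^ 2 * Y ^ 2) := by
      have : b + q = -(2 * X * Y) := by linarith only [e4]
      rw [this]; ring
    rw [e]
    have := mul_le_mul_of_nonneg_left h1 (sq_nonneg X)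
    linarith only [this]
  have h3 : (b + q) ^ 2 ≤ 421 / 100 * (b + q) := by
    rw [pow_two]
    exact mul_le_mul_of_nonneg_right hB hB0
  have h4 : 784 / 100 * (X ^ 2 - Y ^ 2) = 784 / 100 * a - 784 / 100 + 784 / 100 * p := by
    rw [e3]; ring
  linarith only [e3, a2, a5, c5, c6, h1, h2, h3]

/-- the case `Y ≥ 0` -/
lemma r_pos {X Y X' Y' N N' b : ℝ} (hX : 0 < X) (hX' : 911 / 1000 ≤ X') (hY : 0 ≤ Y)
    (hN : N ^ 2 = X ^ 2 + Y ^ 2) (hN' : N' ≤ 151 / 100 * X') (hη : -(14 / 10) ≤ Y')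
    (hS : -(43 / 100) ≤ X ^ 2 - Y ^ 2) (hb : b ≤ 146 / 100) :
    N + N' < -b + (X * Y' + X' * Y) + 4 * (X + X') := by
  have hN1 : N ≤ X + Y := by
    apply le_of_sq_le_sq _ (by positivity)
    have := mul_nonneg hX.le hY
    nlinarith only [hN, this]
  have hYb : Y ≤ X + 66 / 100 := by
    apply le_of_sq_le_sq _ (by positivity)
    nlinarith only [hX, hS]
  have hXY : X * (-(14 / 10)) ≤ X * Y' := mul_le_mul_of_nonneg_left hη hX.le
  rcases le_total 1 X' with h1 | h1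
  · have : 1 * Y ≤ X' * Y := mul_le_mul_of_nonneg_right h1 hY
    linarith only [hX, hN', hb, hN1, hXY, h1, this]
  · have h3 : (1 - X') * Y ≤ 89 / 1000 * Y := mul_le_mul_of_nonneg_right (by linarith only [hX']) hY
    have h4 : X' * Y = Y - (1 - X') * Y := by ring
    rw [h4]
    linarith only [hX, hX', hN', hb, hN1, hYb, hXY, h3]

/-- the case `Y < 0` -/
lemma r_neg {X y X' Y' N N' b q : ℝ} (hX : 0 < X) (hX' : 36 / 100 + 53 / 100 * b ≤ X')
    (hy : 0 < y) (hN0 : N ^ 2 = X ^ 2 + y ^ 2) (hN' : N' ≤ 151 / 100 * X')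
    (hη : -(14 / 10) ≤ Y') (hS : -(188 / 1000) ≤ X ^ 2 - y ^ 2) (hD : 2 * X * y = b - q)
    (hq : 0 ≤ q) (hb0 : 0 ≤ b) (hb : b ≤ 146 / 100) :
    N + N' < -b + (X * Y' + X' * (-y)) + 4 * (X + X') := by
  have hy1 : y ≤ 63 / 100 + 74 / 100 * X := by
    rcases le_total (12 / 10) X with h | h
    · have := mul_nonneg (sub_nonneg.mpr h) hy.le
      nlinarith only [hy, hD, hq, hb, h, this]
    · apply le_of_sq_le_sq _ (by positivity)
      have := mul_nonneg hX.le (sub_nonneg.mpr h)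
      nlinarith only [hX, hS, this]
  have hy2 : y ≤ 2 := by
    rcases le_total (12 / 10) X with h | h
    · have := mul_nonneg (sub_nonneg.mpr h) hy.le
      nlinarith only [hy, hD, hq, hb, this]
    · linarith only [hy1, h]
  have hN1 : N ≤ X + y := by
    apply le_of_sq_le_sq _ (by positivity)
    have := mul_pos hX hy
    nlinarith only [hN0, this]
  have hXY : X * (-(14 / 10)) ≤ X * Y' := mul_le_mul_of_nonneg_left hη hX.le
  have h5 : (36 / 100 + 53 / 100 * b) * (249 / 100 - y) ≤ X' * (249 / 100 - y) :=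
    mul_le_mul_of_nonneg_right hX' (by linarith only [hy2])
  have h6 : y * (136 / 100 + 53 / 100 * b) ≤
      (63 / 100 + 74 / 100 * X) * (136 / 100 + 53 / 100 * b) :=
    mul_le_mul_of_nonneg_right hy1 (by linarith only [hb0])
  have h7 : X * b ≤ X * (146 / 100) := mul_le_mul_of_nonneg_left hb hX.le
  linarith only [hX, hN', hb, hN1, hXY, h5, h6, h7]

/-- `‖R‖ + ‖R'‖ < - Im E` -/
lemma as_E {w k k' : ℂ} (hw : Complex.cos w ∈ Poly (vt .t3as))
    (hk : starRingEnd ℂ k ∈ Poly pA) (hk' : k' ∈ Poly pS) (hR : 0 < (RR w k).re)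
    (hR' : 0 < (RR w k').re) :
    ‖RR w k‖ + ‖RR w k'‖ < -(3 - Complex.tan w ^ 2 - RR w k * RR w k' -
        4 * I * (RR w k + RR w k')).im := by
  have hc := cos_ne_of_n (own_n hw)
  obtain ⟨e1, e2⟩ := RR_a (k := k) hc
  obtain ⟨e3, e4⟩ := RR_s (k := k') hc
  have a1 := as_1 hw
  have a2 := as_2 hw
  have a3 := as_3 hw
  have a4 := as_4 hw
  have a5 := as_5 hw
  have a6 := as_6 hw
  have a8 := as_8 hw
  have a9 := own_y hw
  have b3 := pA_3 hk
  have b4 := pA_4 hk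
  have b5 := pA_y hk
  have c1 := pS_1 hk'
  have c4 := pS_4 hk'
  have c5 := pS_5 hk'
  have c6 := pS_6 hk'
  have c7 := pS_y hk'
  have hT : (Complex.tan w ^ 2).im = -py (Complex.cos w) := by
    rw [tan_sq_eq, sub_div, div_self (pow_ne_zero 2 hc), one_div, Complex.sub_im, inv_sq_im]
    simp
  have hE : -(3 - Complex.tan w ^ 2 - RR w k * RR w k' - 4 * I * (RR w k + RR w k')).im =
      -py (Complex.cos w) + ((RR w k).re * (RR w k').im + (RR w k').re * (RR w k).im) +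
        4 * ((RR w k).re + (RR w k').re) := by
    simp only [Complex.sub_im, hT, Complex.mul_im, Complex.mul_re, Complex.add_re, Complex.add_im,
      Complex.I_re, Complex.I_im]
    norm_num
    ring
  rw [hE]
  have n1 := norm_sq_re_im (RR w k)
  have n2 := norm_sq_re_im (RR w k')
  rw [sq_re] at e1 e3
  rw [sq_im] at e2 e4
  have hY' := r_Ynp hR' e4 a9 c7
  have hX2 := r_X2 e3 e4 c1
  have hXa := r_Xa hR' a1 hX2
  have hXb := r_Xb hR' a2 a3 a8 a9 hX2
  have hYlow := r_low hR' hY' (by rw [e3, e4]; linarith only [a1, a3, c4])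
  have hN' := r_N hR' hY' hYlow n2
  have hη := r_eta hY' e3 e4 a2 a9 a5 c5 c6 c7
  rcases le_or_gt 0 (RR w k).im with hY | hY
  · exact r_pos hR hXa hY n1 hN' hη (by rw [e1]; linarith only [a3, b4]) a2
  · have hqb : py (starRingEnd ℂ k) < py (Complex.cos w) := by
      have := mul_pos hR (neg_pos.mpr hY)
      nlinarith only [e2, this]
    have h := r_neg (q := py (starRingEnd ℂ k)) hR hXb (neg_pos.mpr hY)
      (by rw [n1]; ring) hN' hη (by rw [neg_sq, e1]; linarith only [a4, b3, hqb]) (by linarith only [e2]) b5 a9 a2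
    rw [neg_neg] at h
    exact h

/-- three crossings, neighbours of both signs -/
theorem kap_as3 {w k k' : ℂ} (hw : Complex.cos w ∈ Poly (vt .t3as))
    (hk : starRingEnd ℂ k ∈ Poly pA) (hk' : k' ∈ Poly pS) (hR : 0 < (RR w k).re)
    (hR' : 0 < (RR w k').re)
    (hring : ((3 : ℝ) : ℂ) * w - Real.pi + I * (QQ w k + QQ w k') = 0) :
    Kap2 3 w k k' := by
  have hc := cos_ne_of_n (own_n hw)
  have hk0 : k ≠ 0 := by
    rintro rfl
    have := n_pos (V := pA) (by decide) hk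
    simp at this
  have hk0' : k' ≠ 0 := by
    rintro rfl
    have := n_pos (V := pS) (by decide) hk'
    simp at this
  have hT : Complex.tan w ≠ 0 := by
    intro h0
    have h1 := tan_sq_eq w
    rw [h0] at h1
    have h2 : Complex.cos w ^ 2 = 1 := by
      have h3 : (1 - Complex.cos w ^ 2) / Complex.cos w ^ 2 = 0 := by rw [← h1]; norm_num
      have h4 := (div_eq_zero_iff.mp h3).resolve_right (pow_ne_zero 2 hc)
      linear_combination -h4
    have h5 : polyOK 0 1000 0 100 (vt .t3as) = true := by decide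
    have h6 := poly_sound h5 hw
    have h7 : (Complex.cos w ^ 2).im = 0 := by rw [h2]; simp
    rw [sq_im] at h7
    simp only [quart, Int.cast_ofNat, Int.cast_zero] at h6
    linarith only [h7, h6]
  have h3 := ring3 hc hk0 hk0' hT (by exact_mod_cast hring)
  have h4 := as_E hw hk hk' hR hR'
  have h5 : -(3 - Complex.tan w ^ 2 - RR w k * RR w k' - 4 * I * (RR w k + RR w k')).im ≤
      ‖3 - Complex.tan w ^ 2 - RR w k * RR w k' - 4 * I * (RR w k + RR w k')‖ :=
    (neg_le_abs _).trans (Complex.abs_im_le_norm _)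
  set E := 3 - Complex.tan w ^ 2 - RR w k * RR w k' - 4 * I * (RR w k + RR w k') with hEd
  have hRn := RR_ne hR
  have hRn' := RR_ne hR'
  have e1 : (((3 : ℝ) : ℂ) + I * (1 / (Complex.cos w ^ 2 * RR w k) +
      1 / (Complex.cos w ^ 2 * RR w k'))) * (RR w k * RR w k') = -(Complex.tan w ^ 2 * E) := by
    rw [← h3]
    push_cast
    field_simp
    ring
  have e2 := congrArg norm e1
  rw [norm_mul, norm_mul (RR w k), norm_neg, norm_mul (Complex.tan w ^ 2)] at e2
  have q1 : 0 < ‖RR w k‖ := norm_pos_iff.mpr hRn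
  have q2 : 0 < ‖RR w k'‖ := norm_pos_iff.mpr hRn'
  have q3 : 0 < ‖Complex.tan w ^ 2‖ := norm_pos_iff.mpr (pow_ne_zero 2 hT)
  unfold Kap2
  have e3 : ‖Complex.tan w ^ 2 / RR w k‖ + ‖Complex.tan w ^ 2 / RR w k'‖ =
      ‖Complex.tan w ^ 2‖ * (‖RR w k‖ + ‖RR w k'‖) / (‖RR w k‖ * ‖RR w k'‖) := by
    rw [norm_div, norm_div]
    field_simp
    ring
  rw [e3, div_lt_iff₀ (by positivity), e2]
  exact mul_lt_mul_of_pos_left (lt_of_lt_of_le h4 h5) q3

end Pool.Agent.Work.MP_b30479_gtS.G2.KB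

end

section

/-!
# Diagonal dominance for all rings with at least three crossings
-/

namespace Pool.Agent.Work.MP_b30479_gtS.G2.KB

open Complex

lemma frS_mem {K : Set ℂ} {k : ℂ} (h : k ∈ frS (-1) K) : starRingEnd ℂ k ∈ K := by
  rw [frS_neg] at h
  exact h

lemma typS_rtype {B : ℕ} (hB : 4 ≤ B) (na ns : ℕ) : typS (rtype B na ns) = true := by
  have h2 : ¬ B ≤ 2 := by omega
  have h3 : ¬ B = 3 := by omega
  unfold rtype
  rw [if_neg h2, if_neg h3]
  split_ifs <;> rfl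

/-- end ring, neighbour of opposite sign -/
theorem kap_end_a {B : ℕ} (hB : 3 ≤ B) {w k : ℂ} (hw : Complex.cos w ∈ Poly (vt (rtype B 1 0)))
    (hk : k ∈ frS (-1) (Poly pA)) (hR : 0 < (RR w k).re) : Kap1 B w k := by
  have hb : (3 : ℝ) ≤ B := by exact_mod_cast hB
  rcases Nat.lt_or_ge B 4 with h | h
  · have h3 : B = 3 := by omega
    subst h3
    exact kap_a (t := .t3ae) rfl hb hw (frS_mem hk) hR
  · exact kap_a (typSA (typS_rtype h 1 0)) hb hw (frS_mem hk) hR

/-- end ring, neighbour of the same sign -/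
theorem kap_end_s {B : ℕ} (hB : 3 ≤ B) {w k : ℂ} (hw : Complex.cos w ∈ Poly (vt (rtype B 0 1)))
    (hk : k ∈ Poly pS) (hR : 0 < (RR w k).re) : Kap1 B w k := by
  rcases Nat.lt_or_ge B 4 with h | h
  · have h3 : B = 3 := by omega
    subst h3
    exact kap_s3 (by norm_num) hw hk hR
  · have hb : (4 : ℝ) ≤ B := by exact_mod_cast h
    exact kap_s4 (typS_rtype h 0 1) hb hw hk hR

/-- two neighbours of opposite sign -/
theorem kap_int_aa {B : ℕ} (hB : 3 ≤ B) {w k k' : ℂ}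
    (hw : Complex.cos w ∈ Poly (vt (rtype B 2 0))) (hk : k ∈ frS (-1) (Poly pA))
    (hk' : k' ∈ frS (-1) (Poly pA)) (hR : 0 < (RR w k).re) (hR' : 0 < (RR w k').re) :
    Kap2 B w k k' := by
  have hb : (3 : ℝ) ≤ B := by exact_mod_cast hB
  rcases Nat.lt_or_ge B 4 with h | h
  · have h3 : B = 3 := by omega
    subst h3
    exact kap_aa (t := .t3aa) rfl hb hw (frS_mem hk) (frS_mem hk') hR hR'
  · exact kap_aa (typSA (typS_rtype h 2 0)) hb hw (frS_mem hk) (frS_mem hk') hR hR'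

/-- neighbours of both signs -/
theorem kap_int_as {B : ℕ} (hB : 3 ≤ B) {w k k' : ℂ}
    (hw : Complex.cos w ∈ Poly (vt (rtype B 1 1))) (hk : k ∈ frS (-1) (Poly pA))
    (hk' : k' ∈ Poly pS) (hR : 0 < (RR w k).re) (hR' : 0 < (RR w k').re)
    (hring : ((B : ℝ) : ℂ) * w - Real.pi + I * (QQ w k + QQ w k') = 0) :
    Kap2 B w k k' := by
  rcases Nat.lt_or_ge B 4 with h | h
  · have h3 : B = 3 := by omega
    subst h3
    have := kap_as3 hw (frS_mem hk) hk' hR hR' (by exact_mod_cast hring)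
    exact_mod_cast this
  · have hb : (4 : ℝ) ≤ B := by exact_mod_cast h
    exact kap_as4 (typS_rtype h 1 1) hb hw (frS_mem hk) hk' hR hR'

/-- two neighbours of the same sign -/
theorem kap_int_ss {B : ℕ} (hB : 3 ≤ B) {w k k' : ℂ}
    (hw : Complex.cos w ∈ Poly (vt (rtype B 0 2))) (hk : k ∈ Poly pS)
    (hk' : k' ∈ Poly pS) (hR : 0 < (RR w k).re) (hR' : 0 < (RR w k').re) :
    Kap2 B w k k' := by
  rcases Nat.lt_or_ge B 4 with h | h
  · have h3 : B = 3 := by omega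
    subst h3
    exact kap_ss3 (by norm_num) hw hk hk' hR hR'
  · have hb : (4 : ℝ) ≤ B := by exact_mod_cast h
    exact kap_ss4 (typS_rtype h 0 2) hb hw hk hk' hR hR'

end Pool.Agent.Work.MP_b30479_gtS.G2.KB

end

section

/-!
# Linear inequalities over a polygon
-/

namespace Pool.Agent.Work.MP_b30479_gtS.G2.SQ

/-- the triangle is positively oriented -/
def triD (a b c : ℤ × ℤ) : Bool :=
  decide (0 < (b.1 - a.1) * (c.2 - a.2) - (b.2 - a.2) * (c.1 - a.1))

/-- all triangles of the fan are positively oriented -/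
def fanD (a : ℤ × ℤ) : List (ℤ × ℤ) → Bool
  | b :: c :: l => triD a b c && fanD a (c :: l)
  | _ => true

/-- the check of `α x + β y ≥ μ` (units `1 / 1000`) -/
def linOK (al be mu : ℤ) : List (ℤ × ℤ) → Bool
  | a :: b :: c :: l => fanD a (b :: c :: l) &&
      (a :: b :: c :: l).all fun p => decide (0 ≤ al * p.1 + be * p.2 - mu)
  | _ => false

lemma cr_swapL (p q : ℤ × ℤ) (z : ℂ) : cr p q z = -cr q p z := by
  simp only [cr, Int.cast_sub]
  ring

lemma tri_lin {al be mu : ℤ} {a b c : ℤ × ℤ} (h : triD a b c = true)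
    (ha : 0 ≤ al * a.1 + be * a.2 - mu) (hb : 0 ≤ al * b.1 + be * b.2 - mu)
    (hc : 0 ≤ al * c.1 + be * c.2 - mu) {z : ℂ}
    (h0 : 0 ≤ cr b c z) (h1 : cr a c z ≤ 0) (h2 : 0 ≤ cr a b z) :
    0 ≤ (al : ℝ) * (1000 * z.re) + be * (1000 * z.im) - mu := by
  rw [triD, decide_eq_true_eq] at h
  obtain ⟨a1, a2⟩ := a
  obtain ⟨b1, b2⟩ := b
  obtain ⟨e1, e2⟩ := c
  simp only at h ha hb hc
  have hD : (0 : ℝ) < (b1 - a1) * (e2 - a2) - (b2 - a2) * (e1 - a1) := by exact_mod_cast h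
  rify at ha hb hc
  simp only [cr, Int.cast_sub] at h0 h1 h2
  have q0 := mul_nonneg h0 ha
  have q1 := mul_nonneg (neg_nonneg.mpr h1) hb
  have q2 := mul_nonneg h2 hc
  have key : 0 ≤ (((b1 : ℝ) - a1) * (e2 - a2) - (b2 - a2) * (e1 - a1)) *
      ((al : ℝ) * (1000 * z.re) + be * (1000 * z.im) - mu) := by
    refine (add_nonneg (add_nonneg q0 q1) q2).trans (le_of_eq ?_)
    ring
  exact nonneg_of_mul_nonneg_right key hD

lemma fan_lin {al be mu : ℤ} {a : ℤ × ℤ} (ha : 0 ≤ al * a.1 + be * a.2 - mu) {z : ℂ}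
    (t : List (ℤ × ℤ)) :
    ∀ x : ℤ × ℤ, (∀ e ∈ (x :: t).zip (t ++ [a]), 0 ≤ cr e.1 e.2 z) →
      (∀ p ∈ x :: t, 0 ≤ al * p.1 + be * p.2 - mu) →
      fanD a (x :: t) = true → 0 ≤ cr a x z → (t ≠ [] ∨ 0 < cr a x z) →
      0 ≤ (al : ℝ) * (1000 * z.re) + be * (1000 * z.im) - mu := by
  induction t with
  | nil =>
    intro x h1 _ _ _ h4
    have h5 := h1 (x, a) (by simp)
    rw [cr_swapL] at h5
    rcases h4 with h4 | h4
    · exact absurd rfl h4
    · simp only at h5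
      linarith
  | cons y t ih =>
    intro x h1 hp h2 h3 _
    rw [fanD, Bool.and_eq_true] at h2
    by_cases hy : cr a y z ≤ 0
    · exact tri_lin h2.1 ha (hp x (by simp)) (hp y (by simp)) (h1 (x, y) (by simp)) hy h3
    · push Not at hy
      exact ih y (fun e he => h1 e (by simp [he])) (fun p h => hp p (List.mem_cons_of_mem _ h))
        h2.2 hy.le (Or.inr hy)

/-- soundness of the check -/
theorem lin_sound {al be mu : ℤ} {V : List (ℤ × ℤ)} (h : linOK al be mu V = true) {z : ℂ}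
    (hz : z ∈ Poly V) : 0 ≤ (al : ℝ) * (1000 * z.re) + be * (1000 * z.im) - mu := by
  match V, h, hz with
  | [], h, _ => simp [linOK] at h
  | [_], h, _ => simp [linOK] at h
  | [_, _], h, _ => simp [linOK] at h
  | a :: b :: c :: l, h, hz =>
    rw [linOK, Bool.and_eq_true, List.all_eq_true] at h
    have hv : ∀ p ∈ a :: b :: c :: l, 0 ≤ al * p.1 + be * p.2 - mu := by
      intro p hp
      have := h.2 p hp
      rwa [decide_eq_true_eq] at this
    have hz' : ∀ e ∈ (a :: b :: c :: l).zip ((b :: c :: l) ++ [a]), 0 ≤ cr e.1 e.2 z := by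
      intro e he
      apply hz e
      rw [edges, List.rotate_cons_succ, List.rotate_zero]
      exact he
    refine fan_lin (hv a (by simp)) (c :: l) b (fun e he => hz' e ?_)
      (fun p hp => hv p (List.mem_cons_of_mem _ hp)) h.1 (hz' (a, b) (by simp))
      (Or.inl (List.cons_ne_nil _ _))
    rw [List.cons_append, List.zip_cons_cons]
    exact List.mem_cons_of_mem _ he

end Pool.Agent.Work.MP_b30479_gtS.G2.SQ

end

section

/-!
# Diagonal dominance for all rings: two crossings, and the summary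
-/

namespace Pool.Agent.Work.MP_b30479_gtS.G2.KB

open Complex SQ

lemma lin_of {al be mu : ℤ} {V : List (ℤ × ℤ)} (h : linOK al be mu V = true) {z : ℂ}
    (hz : z ∈ Poly V) : (mu : ℝ) ≤ al * (1000 * z.re) + be * (1000 * z.im) := by
  have := lin_sound h hz
  linarith only [this]

lemma pA_re {k : ℂ} (hk : k ∈ Poly pA) : 42 / 100 ≤ k.re := by
  have := lin_of (al := 1) (be := 0) (mu := 420) (V := pA) (by decide) hk
  push_cast at this
  linarith only [this]

lemma pA_im0 {k : ℂ} (hk : k ∈ Poly pA) : 0 ≤ k.im := by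
  have := lin_of (al := 0) (be := 1) (mu := 0) (V := pA) (by decide) hk
  push_cast at this
  linarith only [this]

lemma pA_im1 {k : ℂ} (hk : k ∈ Poly pA) : k.im ≤ 676 / 1000 := by
  have := lin_of (al := 0) (be := -1) (mu := -676) (V := pA) (by decide) hk
  push_cast at this
  linarith only [this]

lemma pA_sec {k : ℂ} (hk : k ∈ Poly pA) : k.im ≤ 106 / 100 * k.re := by
  have := lin_of (al := 106) (be := -100) (mu := 0) (V := pA) (by decide) hk
  push_cast at this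
  linarith only [this]

lemma pA_n {k : ℂ} (hk : k ∈ Poly pA) : k.re ^ 2 + k.im ^ 2 ≤ 1148 / 1000 := by
  have h : polyOK 0 0 1000 (-1317) pA = true := by decide
  have := poly_sound h hk
  simp only [quart, Int.cast_ofNat, Int.cast_zero, Int.cast_neg] at this
  apply le_of_sq_le_sq _ (by norm_num)
  norm_num at this ⊢
  linarith only [this]

lemma pT_re {k : ℂ} (hk : k ∈ Poly pT) : 1 / 2 ≤ k.re := by
  have := lin_of (al := 1) (be := 0) (mu := 500) (V := pT) (by decide) hk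
  push_cast at this
  linarith only [this]

lemma pT_im0 {k : ℂ} (hk : k ∈ Poly pT) : 0 ≤ k.im := by
  have := lin_of (al := 0) (be := 1) (mu := 0) (V := pT) (by decide) hk
  push_cast at this
  linarith only [this]

lemma pT_sec {k : ℂ} (hk : k ∈ Poly pT) : k.im ≤ 3 / 4 * k.re := by
  have := lin_of (al := 3) (be := -4) (mu := 0) (V := pT) (by decide) hk
  push_cast at this
  linarith only [this]

lemma pT_n {k : ℂ} (hk : k ∈ Poly pT) : k.re ^ 2 + k.im ^ 2 ≤ 1 := by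
  have h : polyOK 0 0 1000 (-1000) pT = true := by decide
  have := poly_sound h hk
  simp only [quart, Int.cast_ofNat, Int.cast_zero, Int.cast_neg] at this
  apply le_of_sq_le_sq _ (by norm_num)
  norm_num at this ⊢
  linarith only [this]

/-- the condition of `kap_two` in terms of `k`, `k'` -/
lemma hP_of {k k' : ℂ} (hk : k ≠ 0) (hk' : k' ≠ 0)
    (h : 2 * (‖k‖ ^ 2 * ‖k'‖ ^ 2) < ‖k + k'‖ ^ 2) : 1 < ‖(1 / k + 1 / k') ^ 2 - 1‖ := by
  have n1 : 0 < ‖k‖ := norm_pos_iff.mpr hk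
  have n2 : 0 < ‖k'‖ := norm_pos_iff.mpr hk'
  have e : 1 / k + 1 / k' = (k + k') / (k * k') := by field_simp; ring
  have h1 : ‖(1 / k + 1 / k') ^ 2‖ = ‖k + k'‖ ^ 2 / (‖k‖ ^ 2 * ‖k'‖ ^ 2) := by
    rw [e, norm_pow, norm_div, norm_mul, div_pow, mul_pow]
  have h2 : 2 < ‖(1 / k + 1 / k') ^ 2‖ := by
    rw [h1, lt_div_iff₀ (by positivity)]
    exact h
  have h3 := norm_sub_norm_le ((1 / k + 1 / k') ^ 2) 1
  rw [norm_one] at h3
  linarith only [h2, h3]

lemma hd_of {k k' : ℂ} (h : 0 ≤ k.re * k'.re + k.im * k'.im) :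
    0 ≤ (1 / k * starRingEnd ℂ (1 / k')).re := by
  have e : 1 / k * starRingEnd ℂ (1 / k') = starRingEnd ℂ k * k' /
      ((Complex.normSq k : ℂ) * (Complex.normSq k' : ℂ)) := by
    by_cases hk : k = 0
    · simp [hk]
    by_cases hk' : k' = 0
    · simp [hk']
    have h1 : (starRingEnd ℂ) k' ≠ 0 := by simpa using hk'
    have h2 : (starRingEnd ℂ) k ≠ 0 := by simpa using hk
    rw [← Complex.mul_conj k, ← Complex.mul_conj k', map_div₀, map_one]
    field_simp
  rw [e, ← Complex.ofReal_mul, Complex.div_ofReal_re]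
  apply div_nonneg _ (mul_nonneg (Complex.normSq_nonneg _) (Complex.normSq_nonneg _))
  rw [Complex.mul_re, Complex.conj_re, Complex.conj_im]
  linarith only [h]

lemma norm_add_sq' (k k' : ℂ) : ‖k + k'‖ ^ 2 = ‖k‖ ^ 2 + ‖k'‖ ^ 2 +
    2 * (k.re * k'.re + k.im * k'.im) := by
  rw [norm_sq_re_im, norm_sq_re_im, norm_sq_re_im, Complex.add_re, Complex.add_im]
  ring

/-- `tan w ≠ 0` if the value is in the open upper half plane -/
lemma tan_ne {V : List (ℤ × ℤ)} (h0 : polyOK 0 0 (-1000) 20 V = true)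
    (h1 : polyOK 0 1000 0 20 V = true) {w : ℂ} (hw : Complex.cos w ∈ Poly V) :
    Complex.tan w ≠ 0 := by
  intro h
  have hc := cos_ne_of_n (n_pos h0 hw)
  have h2 := tan_sq_eq w
  rw [h] at h2
  have h3 : Complex.cos w ^ 2 = 1 := by
    have h4 : (1 - Complex.cos w ^ 2) / Complex.cos w ^ 2 = 0 := by rw [← h2]; norm_num
    have h5 := (div_eq_zero_iff.mp h4).resolve_right (pow_ne_zero 2 hc)
    linear_combination -h5
  have h6 := poly_sound h1 hw
  have h7 : (Complex.cos w ^ 2).im = 0 := by rw [h3]; simp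
  rw [sq_im] at h7
  simp only [quart, Int.cast_ofNat, Int.cast_zero] at h6
  linarith only [h7, h6]

lemma kap2_two {w k k' : ℂ} (hc : Complex.cos w ≠ 0) (hT : Complex.tan w ≠ 0) (hk : k ≠ 0)
    (hk' : k' ≠ 0) (hR : 0 < (RR w k).re) (hR' : 0 < (RR w k').re)
    (hring : ((2 : ℝ) : ℂ) * w - Real.pi + I * (QQ w k + QQ w k') = 0)
    (hd : 0 ≤ k.re * k'.re + k.im * k'.im)
    (hP : 2 * (‖k‖ ^ 2 * ‖k'‖ ^ 2) < ‖k + k'‖ ^ 2) : Kap2 2 w k k' := by
  have h1 := kap_two_ring (w := w) (T := Complex.tan w) (R := RR w k) (R' := RR w k') hk hk'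
    (Complex.tan_mul_cos hc) hT rfl
    (by rw [RR_sq, ZZ0, one_div]) (by rw [RR_sq, ZZ0, one_div]) (RR_ne hR) (RR_ne hR')
    (exp_QQ hk) (exp_QQ hk') (by push_cast at hring; linear_combination hring) (hd_of hd)
    (hP_of hk hk' hP)
  have hq : 1 + Complex.tan w ^ 2 = 1 / Complex.cos w ^ 2 := by
    rw [tan_sq_eq]
    field_simp
    ring
  unfold Kap2
  have n1 := norm_pos_iff.mpr (RR_ne hR)
  have n2 := norm_pos_iff.mpr (RR_ne hR')
  have e1 : ‖Complex.tan w ^ 2 / RR w k‖ + ‖Complex.tan w ^ 2 / RR w k'‖ =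
      ‖(1 + Complex.tan w ^ 2) - 1‖ * (1 / ‖RR w k‖ + 1 / ‖RR w k'‖) := by
    rw [norm_div, norm_div, add_sub_cancel_left]
    ring
  have e2 : (((2 : ℝ) : ℂ) + I * (1 / (Complex.cos w ^ 2 * RR w k) +
      1 / (Complex.cos w ^ 2 * RR w k'))) =
      2 + I * (1 + Complex.tan w ^ 2) * (1 / RR w k + 1 / RR w k') := by
    rw [hq]
    push_cast
    have := RR_ne hR
    have := RR_ne hR'
    field_simp
  rw [e1, e2]
  exact h1

lemma kap1_two {w k : ℂ} (hc : Complex.cos w ≠ 0) (hT : Complex.tan w ≠ 0) (hk : k ≠ 0)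
    (hR : 0 < (RR w k).re)
    (hring : ((2 : ℝ) : ℂ) * w - Real.pi + I * QQ w k = 0) : Kap1 2 w k := by
  have h1 := kap_two_end_ring (w := w) (T := Complex.tan w) (R := RR w k) hk
    (Complex.tan_mul_cos hc) hc hT rfl
    (by rw [RR_sq, ZZ0, one_div]) (RR_ne hR)
    (exp_QQ hk) (by push_cast at hring; linear_combination hring)
  have hq : 1 + Complex.tan w ^ 2 = 1 / Complex.cos w ^ 2 := by
    rw [tan_sq_eq]
    field_simp
    ring
  unfold Kap1
  have n1 := norm_pos_iff.mpr (RR_ne hR)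
  have e1 : ‖Complex.tan w ^ 2 / RR w k‖ = ‖(1 + Complex.tan w ^ 2) - 1‖ * (1 / ‖RR w k‖) := by
    rw [norm_div, add_sub_cancel_left]
    ring
  have e2 : (((2 : ℝ) : ℂ) + I * (1 / (Complex.cos w ^ 2 * RR w k))) =
      2 + I * (1 + Complex.tan w ^ 2) * (1 / RR w k) := by
    rw [hq]
    push_cast
    have := RR_ne hR
    field_simp
  rw [e1, e2]
  exact h1

lemma ne_of_pA {k : ℂ} (hk : starRingEnd ℂ k ∈ Poly pA) : k ≠ 0 := by
  rintro rfl
  have := pA_re hk
  simp at this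
  norm_num at this

/-- two crossings, end ring -/
theorem kap_end_a2 {w k : ℂ} (hw : Complex.cos w ∈ Poly (vt .t2e))
    (hk : k ∈ frS (-1) (Poly pA)) (hR : 0 < (RR w k).re)
    (hring : ((2 : ℝ) : ℂ) * w - Real.pi + I * QQ w k = 0) : Kap1 2 w k :=
  kap1_two (cos_ne_of_n (own_n hw)) (tan_ne (by decide) (by decide) hw)
    (ne_of_pA (frS_mem hk)) hR hring

/-- two crossings, two neighbours of opposite sign -/
theorem kap_aa2 {w k k' : ℂ} (hw : Complex.cos w ∈ Poly (vt .t2aa))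
    (hk : k ∈ frS (-1) (Poly pA)) (hk' : k' ∈ frS (-1) (Poly pA)) (hR : 0 < (RR w k).re)
    (hR' : 0 < (RR w k').re)
    (hring : ((2 : ℝ) : ℂ) * w - Real.pi + I * (QQ w k + QQ w k') = 0) : Kap2 2 w k k' := by
  have h := frS_mem hk
  have h' := frS_mem hk'
  have a1 := pA_re h
  have a2 := pA_im0 h
  have a3 := pA_n h
  have b1 := pA_re h'
  have b2 := pA_im0 h'
  have b3 := pA_n h'
  rw [Complex.conj_re] at a1 b1
  rw [Complex.conj_im] at a2 b2
  rw [Complex.conj_re, Complex.conj_im, neg_sq] at a3 b3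
  have h1 : 1764 / 10000 ≤ k.re * k'.re := by nlinarith only [a1, b1]
  have h2 : 0 ≤ k.im * k'.im := by nlinarith only [a2, b2]
  refine kap2_two (cos_ne_of_n (own_n hw)) (tan_ne (by decide) (by decide) hw)
    (ne_of_pA h) (ne_of_pA h') hR hR' hring (by linarith only [h1, h2]) ?_
  rw [norm_add_sq', norm_sq_re_im, norm_sq_re_im]
  have p1 : 0 ≤ k.re ^ 2 + k.im ^ 2 := by positivity
  have p2 : 0 ≤ k'.re ^ 2 + k'.im ^ 2 := by positivity
  nlinarith only [a3, h1, h2, p1, b3, p2, mul_nonneg p1 (sub_nonneg.mpr b3), mul_nonneg p2 (sub_nonneg.mpr a3)]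

/-- two crossings, neighbours of both signs -/
theorem kap_as2 {w k k' : ℂ} (hw : Complex.cos w ∈ Poly (vt .t2as))
    (hk : k ∈ frS (-1) (Poly pA)) (hk' : k' ∈ Poly pT) (hR : 0 < (RR w k).re)
    (hR' : 0 < (RR w k').re)
    (hring : ((2 : ℝ) : ℂ) * w - Real.pi + I * (QQ w k + QQ w k') = 0) : Kap2 2 w k k' := by
  have h := frS_mem hk
  have a1 := pA_re h
  have a2 := pA_im0 h
  have a3 := pA_n h
  have a4 := pA_sec h
  have a5 := pA_im1 h
  have b1 := pT_re hk'
  have b2 := pT_im0 hk'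
  have b3 := pT_n hk'
  have b4 := pT_sec hk'
  obtain ⟨x, hx⟩ : ∃ x, x = k.re := ⟨_, rfl⟩
  obtain ⟨y, hy⟩ : ∃ y, y = -k.im := ⟨_, rfl⟩
  obtain ⟨s, hs⟩ : ∃ s, s = k'.re := ⟨_, rfl⟩
  obtain ⟨t, ht⟩ : ∃ t, t = k'.im := ⟨_, rfl⟩
  rw [Complex.conj_re] at a1 a4
  rw [Complex.conj_im] at a2 a4 a5
  rw [Complex.conj_re, Complex.conj_im, neg_sq] at a3
  have ey : k.im = -y := by rw [hy]; ring
  rw [← hx] at a1 a3 a4
  rw [← hy] at a2 a4 a5
  rw [ey, neg_sq] at a3
  rw [← hs] at b1 b3 b4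
  rw [← ht] at b2 b3 b4
  have h0' : k' ≠ 0 := by
    rintro rfl
    simp at hs
    linarith only [b1, hs]
  -- `x s - y t >= s (x - 3/4 y)`
  have h1 : y * t ≤ y * (3 / 4 * s) := mul_le_mul_of_nonneg_left b4 a2
  have h2 : 0 < x - 3 / 4 * y := by linarith only [a1, a4]
  have h3 : 0 < s * (x - 3 / 4 * y) := mul_pos (by linarith only [b1]) h2
  refine kap2_two (cos_ne_of_n (own_n hw)) (tan_ne (by decide) (by decide) hw)
    (ne_of_pA h) h0' hR hR' hring (by rw [← hx, ey, ← hs, ← ht]; linarith only [h1, h3]) ?_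
  rw [norm_add_sq', norm_sq_re_im, norm_sq_re_im, ← hx, ey, ← hs, ← ht, neg_sq]
  have p1 : 0 ≤ x ^ 2 + y ^ 2 := by positivity
  have p2 : 0 ≤ s ^ 2 + t ^ 2 := by positivity
  rcases le_total (x ^ 2 + y ^ 2) 1 with h4 | h4
  · nlinarith only [h1, h3, p1, b3, p2, h4, mul_nonneg p1 (sub_nonneg.mpr b3), mul_nonneg p2 (sub_nonneg.mpr h4)]
  · have h5 : 1 / 10 ≤ x - 3 / 4 * y := by
      by_contra hcon
      push Not at hcon
      nlinarith only [a1, a4, h4, hcon, a5, a2]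
    have h6 : s * (1 / 10) ≤ s * (x - 3 / 4 * y) := mul_le_mul_of_nonneg_left h5 (by linarith only [b1])
    have h7 : s ^ 2 + t ^ 2 ≤ 25 / 16 * s ^ 2 := by nlinarith only [b4, b1, b2]
    have h8 : s ≤ 1 := by nlinarith only [b3, b1]
    have h9 : (s ^ 2 + t ^ 2) ≤ 5 / 4 * s := by
      -- `|k'|^2 <= |k'| <= 5/4 s`
      have h10 : (s ^ 2 + t ^ 2) ^ 2 ≤ (5 / 4 * s) ^ 2 := by
        have : (s ^ 2 + t ^ 2) ^ 2 ≤ 1 * (s ^ 2 + t ^ 2) := by
          rw [pow_two]
          exact mul_le_mul_of_nonneg_right b3 p2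
        nlinarith only [h7, this]
      exact le_of_sq_le_sq h10 (by linarith only [b1])
    have h11 : (x ^ 2 + y ^ 2 - 1) * (s ^ 2 + t ^ 2) ≤ 148 / 1000 * (s ^ 2 + t ^ 2) :=
      mul_le_mul_of_nonneg_right (by linarith only [a3]) p2
    have h12 := mul_nonneg p1 (sub_nonneg.mpr b3)
    nlinarith only [h1, h3, h6, h9, h11, h12]

end Pool.Agent.Work.MP_b30479_gtS.G2.KB

end

section

/-!
# Geometry of the typed polygons: closed, open, inclusions of the star shaped hulls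
-/

namespace Pool.Agent.Work.MP_b30479_gtS.G2.KB

open Complex SQ Set

lemma cr_cont (p q : ℤ × ℤ) : Continuous (cr p q) := by
  unfold cr
  fun_prop

lemma poly_closed (V : List (ℤ × ℤ)) : IsClosed (Poly V) := by
  have e : Poly V = ⋂ e : (ℤ × ℤ) × (ℤ × ℤ), ⋂ _ : e ∈ edges V, {z | 0 ≤ cr e.1 e.2 z} := by
    ext z
    simp only [Poly, mem_ofPred_eq, mem_iInter]
  rw [e]
  exact isClosed_iInter fun e => isClosed_iInter fun _ =>
    isClosed_le continuous_const (cr_cont e.1 e.2)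

lemma polyU_open (V : List (ℤ × ℤ)) : IsOpen (PolyU V) := by
  unfold PolyU
  induction edges V with
  | nil => simp
  | cons a l ih =>
    have e : {z : ℂ | ∀ e ∈ a :: l, 0 < cr e.1 e.2 z} =
        {z | 0 < cr a.1 a.2 z} ∩ {z | ∀ e ∈ l, 0 < cr e.1 e.2 z} := by
      ext z
      simp only [List.mem_cons, forall_eq_or_imp, mem_ofPred_eq, mem_inter_iff]
    rw [e]
    exact (isOpen_lt continuous_const (cr_cont a.1 a.2)).inter ih

lemma polyU_sub (V : List (ℤ × ℤ)) : PolyU V ⊆ Poly V := fun _ hz e he => (hz e he).le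

lemma poly_re_pos (t : RT) : ∀ z ∈ Poly (vt t), 0 < z.re := by
  intro z hz
  have := lin_of (al := 1) (be := 0) (mu := 400) (V := vt t) (by cases t <;> decide) hz
  push_cast at this
  linarith

/-- check that `1` and the polygon `V` are in the polygon `W` -/
def starOK (V W : List (ℤ × ℤ)) : Bool :=
  (edges W).all fun e => linOK (-(e.2.2 - e.1.2)) (e.2.1 - e.1.1)
    ((e.2.1 - e.1.1) * e.1.2 - (e.2.2 - e.1.2) * e.1.1) V &&
    decide (0 ≤ -(e.2.2 - e.1.2) * 1000 -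
      ((e.2.1 - e.1.1) * e.1.2 - (e.2.2 - e.1.2) * e.1.1))

lemma star_sub {V W : List (ℤ × ℤ)} (h : starOK V W = true) : Star1 (Poly V) ⊆ Poly W := by
  rintro k ⟨θ, h0, h1, z, hz, rfl⟩ e he
  rw [starOK, List.all_eq_true] at h
  have h2 := h e he
  rw [Bool.and_eq_true, decide_eq_true_eq] at h2
  have h3 := lin_of h2.1 hz
  have h4 : (0 : ℝ) ≤ -((e.2.2 : ℝ) - e.1.2) * 1000 -
      (((e.2.1 : ℝ) - e.1.1) * e.1.2 - ((e.2.2 : ℝ) - e.1.2) * e.1.1) := by exact_mod_cast h2.2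
  push_cast at h3
  simp only [cr, Int.cast_sub, Complex.add_re, Complex.add_im, Complex.sub_re, Complex.sub_im,
    Complex.one_re, Complex.one_im, Complex.ofReal_re, Complex.ofReal_im, Complex.mul_re,
    Complex.mul_im, zero_mul, sub_zero, add_zero, zero_add]
  have h5 := mul_nonneg (sub_nonneg.mpr h1) h4
  have h6 := mul_nonneg h0 (sub_nonneg.mpr h3)
  nlinarith

theorem starA (t : RT) : Star1 (Poly (vt t)) ⊆ Poly pA := star_sub (by cases t <;> decide)

theorem starS (t : RT) (h : RT.hasS t = true) : Star1 (Poly (vt t)) ⊆ Poly pS :=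
  star_sub (by revert h; cases t <;> simp only [RT.hasS] <;> decide)

theorem starT (t : RT) (h : RT.hasT t = true) : Star1 (Poly (vt t)) ⊆ Poly pT :=
  star_sub (by revert h; cases t <;> simp only [RT.hasT] <;> decide)

end Pool.Agent.Work.MP_b30479_gtS.G2.KB

end
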