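import Pool.Agent.Work.MP_b30479_gt.TBS.G2.S2Poly
import Pool.Agent.Work.MP_b30479_gt.TBS.G2.SKapTwo
import Pool.Agent.Work.MP_b30479_gt.TBS.G2.RDw
import Pool.Agent.Work.MP_b30479_gt.TBS.G2.ZRows
import Pool.Agent.Work.MP_b30479_gt.TBS.NumU.Node

section

/-!
# Plane geometry of the polygons

A point which is on the left of all edges is a convex combination of the vertices (fan
triangulation), affine functions are minimal at the vertices, a frontier point lies on an edge.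
-/

namespace Pool.Agent.Work.MP_b30479_gtS.G2

/-- the complex number of an integer point -/
noncomputable def zp (p : ℤ × ℤ) : ℂ := ⟨(p.1 : ℝ), (p.2 : ℝ)⟩

/-- cross product of `q - p` and `Z - p` -/
def xr (p q : ℤ × ℤ) (Z : ℂ) : ℝ :=
  ((q.1 - p.1 : ℤ) : ℝ) * (Z.im - (p.2 : ℝ)) - ((q.2 - p.2 : ℤ) : ℝ) * (Z.re - (p.1 : ℝ))

/-- integer version -/
def xz (p q r : ℤ × ℤ) : ℤ := (q.1 - p.1) * (r.2 - p.2) - (q.2 - p.2) * (r.1 - p.1)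

lemma xr_zp (p q r : ℤ × ℤ) : xr p q (zp r) = (xz p q r : ℝ) := by
  simp [xr, xz, zp]

lemma xr_neg (p q : ℤ × ℤ) (Z : ℂ) : xr q p Z = -xr p q Z := by
  simp only [xr]
  push_cast
  ring

/-- edges of a closed chain which ends at `v0` -/
def eds (v0 : ℤ × ℤ) : List (ℤ × ℤ) → List ((ℤ × ℤ) × (ℤ × ℤ))
  | [] => []
  | [p] => [(p, v0)]
  | p :: q :: l => (p, q) :: eds v0 (q :: l)

lemma zip_eds (v0 : ℤ × ℤ) : ∀ (l : List (ℤ × ℤ)) (p : ℤ × ℤ),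
    (p :: l).zip (l ++ [v0]) = eds v0 (p :: l) := by
  intro l
  induction l with
  | nil => intro p; rfl
  | cons q l ih =>
    intro p
    simp only [List.cons_append, List.zip_cons_cons, eds]
    rw [← ih q]

lemma edges_cons (v0 : ℤ × ℤ) (l : List (ℤ × ℤ)) : edges (v0 :: l) = eds v0 (v0 :: l) := by
  unfold edges
  rw [← zip_eds v0 l v0]
  congr 1
  simp [List.rotate_cons_succ]

/-- closed polygon, in the units of the vertices -/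
def PolyZ (V : List (ℤ × ℤ)) : Set ℂ := {Z | ∀ e ∈ edges V, 0 ≤ xr e.1 e.2 Z}

lemma cr_eq (p q : ℤ × ℤ) (z : ℂ) : cr p q z = xr p q (1000 * z) := by
  simp [cr, xr]

lemma mem_Poly {V : List (ℤ × ℤ)} {z : ℂ} : z ∈ Poly V ↔ (1000 * z : ℂ) ∈ PolyZ V := by
  simp only [Poly, PolyZ, Set.mem_ofPred_eq, cr_eq]

/-- the triangle statement -/
lemma tri_bary {p q r : ℤ × ℤ} {Z : ℂ} (ha : 0 < xz p q r) (h1 : 0 ≤ xr p q Z)
    (h2 : 0 ≤ xr q r Z) (h3 : 0 ≤ xr r p Z) :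
    ∃ u v w : ℝ, 0 ≤ u ∧ 0 ≤ v ∧ 0 ≤ w ∧ u + v + w = 1 ∧ Z = u * zp p + v * zp q + w * zp r := by
  have hA : (0 : ℝ) < (xz p q r : ℝ) := by exact_mod_cast ha
  set A : ℝ := (xz p q r : ℝ) with hAd
  have hs : xr q r Z + xr r p Z + xr p q Z = A := by
    simp only [hAd, xr, xz]
    push_cast
    ring
  refine ⟨xr q r Z / A, xr r p Z / A, xr p q Z / A, by positivity, by positivity, by positivity,
    ?_, ?_⟩
  · rw [← add_div, ← add_div, hs, div_self hA.ne']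
  · have hA' : A ≠ 0 := hA.ne'
    have e1 : A * Z.re = xr q r Z * p.1 + xr r p Z * q.1 + xr p q Z * r.1 := by
      simp only [hAd, xr, xz]
      push_cast
      ring
    have e2 : A * Z.im = xr q r Z * p.2 + xr r p Z * q.2 + xr p q Z * r.2 := by
      simp only [hAd, xr, xz]
      push_cast
      ring
    apply Complex.ext
    · simp only [Complex.add_re, Complex.mul_re, Complex.ofReal_re, Complex.ofReal_im, zero_mul,
        sub_zero, zp]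
      field_simp
      linarith only [e1]
    · simp only [Complex.add_im, Complex.mul_im, Complex.ofReal_re, Complex.ofReal_im, zero_mul,
        add_zero, zp]
      field_simp
      linarith only [e2]

/-- all triangles of the fan at `v0` have positive area -/
def areas (v0 : ℤ × ℤ) : List (ℤ × ℤ) → Bool
  | [] => true
  | [_] => true
  | p :: q :: l => decide (0 < xz v0 p q) && areas v0 (q :: l)

lemma fan_aux (v0 : ℤ × ℤ) {Z : ℂ} : ∀ (l : List (ℤ × ℤ)) (p : ℤ × ℤ),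
    (∀ e ∈ eds v0 (p :: l), 0 ≤ xr e.1 e.2 Z) → 0 ≤ xr v0 p Z → l ≠ [] → areas v0 (p :: l) = true →
    ∃ q ∈ p :: l, ∃ r ∈ p :: l, 0 < xz v0 q r ∧ 0 ≤ xr v0 q Z ∧ 0 ≤ xr q r Z ∧ 0 ≤ xr r v0 Z := by
  intro l
  induction l with
  | nil => intro p _ _ h; exact absurd rfl h
  | cons q l ih =>
    intro p he hp _ ha
    simp only [areas, Bool.and_eq_true, decide_eq_true_eq] at ha
    by_cases hq : 0 ≤ xr q v0 Z
    · exact ⟨p, by simp, q, by simp, ha.1, hp, he (p, q) (by simp [eds]), hq⟩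
    · push Not at hq
      have hl : l ≠ [] := by
        rintro rfl
        have := he (q, v0) (by simp [eds])
        exact absurd this (not_le.2 hq)
      obtain ⟨r, hr, s, hs, h⟩ := ih q (fun e hm => he e (by simp [eds, hm]))
        (by rw [xr_neg]; linarith only [hq]) hl ha.2
      exact ⟨r, List.mem_cons_of_mem _ hr, s, List.mem_cons_of_mem _ hs, h⟩

/-- every point of the polygon is a convex combination of three vertices -/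
lemma poly_tri {v0 v1 v2 : ℤ × ℤ} {l : List (ℤ × ℤ)} (ha : areas v0 (v1 :: v2 :: l) = true) {Z : ℂ}
    (hZ : Z ∈ PolyZ (v0 :: v1 :: v2 :: l)) :
    ∃ q ∈ v1 :: v2 :: l, ∃ r ∈ v1 :: v2 :: l, ∃ u v w : ℝ, 0 ≤ u ∧ 0 ≤ v ∧ 0 ≤ w ∧
      u + v + w = 1 ∧ Z = u * zp v0 + v * zp q + w * zp r := by
  simp only [PolyZ, Set.mem_ofPred_eq, edges_cons] at hZ
  obtain ⟨q, hq, r, hr, h1, h2, h3, h4⟩ := fan_aux v0 (v2 :: l) v1
    (fun e he => hZ e (by simp only [eds, List.mem_cons] at he ⊢; right; simpa using he))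
    (hZ (v0, v1) (by simp [eds])) (by simp) ha
  exact ⟨q, hq, r, hr, tri_bary h1 h2 h3 h4⟩

/-- shape check of a vertex list -/
def shape : List (ℤ × ℤ) → Bool
  | v0 :: v1 :: v2 :: l => areas v0 (v1 :: v2 :: l)
  | _ => false

/-- affine functions which are positive at the vertices are positive on the polygon -/
lemma poly_aff {V : List (ℤ × ℤ)} (hV : shape V = true) {Z : ℂ} (hZ : Z ∈ PolyZ V) {A : ℂ}
    {c : ℝ} (h : ∀ v ∈ V, 0 < (A * zp v).re + c) : 0 < (A * Z).re + c := by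
  match V, hV with
  | v0 :: v1 :: v2 :: l, hV =>
    obtain ⟨q, hq, r, hr, u, v, w, hu, hv, hw, hs, rfl⟩ := poly_tri hV hZ
    have h0 := h v0 (by simp)
    have h1 := h q (List.mem_cons_of_mem _ hq)
    have h2 := h r (List.mem_cons_of_mem _ hr)
    have e : (A * (u * zp v0 + v * zp q + w * zp r)).re + c =
        u * ((A * zp v0).re + c) + v * ((A * zp q).re + c) + w * ((A * zp r).re + c) := by
      have : c = (u + v + w) * c := by rw [hs, one_mul]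
      conv_lhs => rw [this]
      simp only [Complex.mul_re, Complex.add_re, Complex.add_im, Complex.mul_im, Complex.ofReal_re,
        Complex.ofReal_im]
      ring
    rw [e]
    rcases eq_or_lt_of_le hu with hu0 | hu0
    · rcases eq_or_lt_of_le hv with hv0 | hv0
      · have : w = 1 := by linarith only [hs, hu0, hv0, hu, hv]
        rw [← hu0, ← hv0, this]; linarith only [h2]
      · have := mul_pos hv0 h1
        have := mul_nonneg hw h2.le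
        have := mul_nonneg hu h0.le
        linarith
    · have := mul_pos hu0 h0
      have := mul_nonneg hv h1.le
      have := mul_nonneg hw h2.le
      linarith

/-- nonnegative version -/
lemma poly_aff0 {V : List (ℤ × ℤ)} (hV : shape V = true) {Z : ℂ} (hZ : Z ∈ PolyZ V) {A : ℂ}
    {c : ℝ} (h : ∀ v ∈ V, 0 ≤ (A * zp v).re + c) : 0 ≤ (A * Z).re + c := by
  by_contra hc
  push Not at hc
  have := poly_aff hV hZ (A := A) (c := c + (-((A * Z).re + c)) / 2)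
    (fun v hv => by have := h v hv; linarith only [hc, this])
  linarith only [hc, this]

/-- cross products as affine functions -/
lemma xr_aff (p q : ℤ × ℤ) (Z : ℂ) :
    xr p q Z = ((⟨-((q.2 - p.2 : ℤ) : ℝ), -((q.1 - p.1 : ℤ) : ℝ)⟩ : ℂ) * Z).re +
      (((q.2 - p.2 : ℤ) : ℝ) * p.1 - ((q.1 - p.1 : ℤ) : ℝ) * p.2) := by
  simp only [xr, Complex.mul_re]
  ring

/-- inclusion of polygons is checked at the vertices -/
lemma poly_sub {V W : List (ℤ × ℤ)} (hV : shape V = true)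
    (h : ∀ v ∈ V, ∀ e ∈ edges W, 0 ≤ xz e.1 e.2 v) : PolyZ V ⊆ PolyZ W := by
  intro Z hZ e he
  rw [xr_aff]
  refine poly_aff0 hV hZ fun v hv => ?_
  rw [← xr_aff, xr_zp]
  exact_mod_cast h v hv e he

/-- the convexity check used for frontier points: every edge has a predecessor and a successor which
turn left -/
def cvx (V : List (ℤ × ℤ)) : Prop :=
  ∀ e ∈ edges V, (∃ d ∈ edges V, d.2 = e.1 ∧ 0 < xz d.1 d.2 e.2) ∧
    ∃ f ∈ edges V, f.1 = e.2 ∧ 0 < xz e.1 e.2 f.2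

instance (V : List (ℤ × ℤ)) : Decidable (cvx V) := by unfold cvx; infer_instance

/-- a point of the polygon on the line of an edge lies on the edge -/
lemma on_edge {V : List (ℤ × ℤ)} (hV : cvx V) {Z : ℂ} (hZ : Z ∈ PolyZ V)
    {e : (ℤ × ℤ) × (ℤ × ℤ)} (he : e ∈ edges V) (h0 : xr e.1 e.2 Z = 0) :
    ∃ s t : ℝ, 0 ≤ s ∧ 0 ≤ t ∧ s + t = 1 ∧ Z = s * zp e.1 + t * zp e.2 := by
  obtain ⟨⟨d, hd, hde, hdp⟩, ⟨f, hf, hfe, hfp⟩⟩ := hV e he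
  obtain ⟨p, q⟩ := e
  obtain ⟨d1, d2⟩ := d
  obtain ⟨f1, f2⟩ := f
  simp only at hde hfe hdp hfp h0
  subst hde hfe
  have h1 := hZ _ hd
  have h2 := hZ _ hf
  simp only at h1 h2
  -- the direction of the edge is not zero
  have hne : (0 : ℝ) < ((f1.1 - d2.1 : ℤ) : ℝ) ^ 2 + ((f1.2 - d2.2 : ℤ) : ℝ) ^ 2 := by
    by_contra hc
    push Not at hc
    have q1 := sq_nonneg (((f1.1 - d2.1 : ℤ) : ℝ))
    have q2 := sq_nonneg (((f1.2 - d2.2 : ℤ) : ℝ))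
    have ha : ((f1.1 - d2.1 : ℤ) : ℝ) = 0 := by
      rw [← sq_eq_zero_iff]
      linarith only [q1, hc, q2]
    have hb : ((f1.2 - d2.2 : ℤ) : ℝ) = 0 := by
      rw [← sq_eq_zero_iff]
      linarith only [q2, hc, q1]
    have ha' : f1.1 - d2.1 = 0 := by exact_mod_cast ha
    have hb' : f1.2 - d2.2 = 0 := by exact_mod_cast hb
    have hx : xz d2 f1 f2 = 0 := by
      unfold xz
      rw [ha', hb', zero_mul, zero_mul, sub_zero]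
    rw [hx] at hfp
    exact lt_irrefl _ hfp
  set N : ℝ := ((f1.1 - d2.1 : ℤ) : ℝ) ^ 2 + ((f1.2 - d2.2 : ℤ) : ℝ) ^ 2 with hN
  set t : ℝ := (((f1.1 - d2.1 : ℤ) : ℝ) * (Z.re - d2.1) + ((f1.2 - d2.2 : ℤ) : ℝ) * (Z.im - d2.2)) / N
    with ht
  have hNt : N * t = ((f1.1 - d2.1 : ℤ) : ℝ) * (Z.re - d2.1) +
      ((f1.2 - d2.2 : ℤ) : ℝ) * (Z.im - d2.2) := by rw [ht]; field_simp
  have hre : Z.re = d2.1 + t * ((f1.1 - d2.1 : ℤ) : ℝ) := by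
    have : N * (Z.re - d2.1 - t * ((f1.1 - d2.1 : ℤ) : ℝ)) = 0 := by
      have h0' := h0
      simp only [xr] at h0'
      linear_combination (-((f1.1 - d2.1 : ℤ) : ℝ)) * hNt - ((f1.2 - d2.2 : ℤ) : ℝ) * h0'
    rcases mul_eq_zero.1 this with h | h
    · exact absurd h hne.ne'
    · linarith only [h]
  have him : Z.im = d2.2 + t * ((f1.2 - d2.2 : ℤ) : ℝ) := by
    have : N * (Z.im - d2.2 - t * ((f1.2 - d2.2 : ℤ) : ℝ)) = 0 := by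
      have h0' := h0
      simp only [xr] at h0'
      linear_combination (-((f1.2 - d2.2 : ℤ) : ℝ)) * hNt + ((f1.1 - d2.1 : ℤ) : ℝ) * h0'
    rcases mul_eq_zero.1 this with h | h
    · exact absurd h hne.ne'
    · linarith only [h]
  have ht0 : 0 ≤ t := by
    have e1 : xr d1 d2 Z = t * (xz d1 d2 f1 : ℝ) := by
      simp only [xr, xz, hre, him]
      push_cast
      ring
    rw [e1] at h1
    have : (0 : ℝ) < (xz d1 d2 f1 : ℝ) := by exact_mod_cast hdp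
    by_contra hc
    push Not at hc
    nlinarith only [h1, this, hc]
  have ht1 : 0 ≤ 1 - t := by
    have e1 : xr f1 f2 Z = (1 - t) * (xz d2 f1 f2 : ℝ) := by
      simp only [xr, xz, hre, him]
      push_cast
      ring
    rw [e1] at h2
    have : (0 : ℝ) < (xz d2 f1 f2 : ℝ) := by exact_mod_cast hfp
    by_contra hc
    push Not at hc
    nlinarith only [h2, this, hc]
  refine ⟨1 - t, t, ht1, ht0, by ring, ?_⟩
  apply Complex.ext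
  · simp only [Complex.add_re, Complex.mul_re, Complex.ofReal_re, Complex.ofReal_im, zero_mul,
      sub_zero, zp, Complex.sub_re, Complex.one_re, Complex.ofReal_sub, Complex.ofReal_one,
      Complex.sub_im, Complex.one_im]
    rw [hre]; push_cast; ring
  · simp only [Complex.add_im, Complex.mul_im, Complex.ofReal_re, Complex.ofReal_im, zero_mul,
      zp, Complex.sub_re, Complex.one_re, Complex.ofReal_sub, Complex.ofReal_one,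
      Complex.sub_im, Complex.one_im]
    rw [him]; push_cast; ring

end Pool.Agent.Work.MP_b30479_gtS.G2

end

section

/-!
# Certificates: a polynomial has no zero on a product of polygons

Contraction form: a polynomial of degree `d` in a variable is a multi affine function of `d` points,
which is evaluated at the vertices. All numbers are natural numbers.
-/

namespace Pool.Agent.Work.MP_b30479_gtS.G2.SC

/-- a Gaussian integer `(a - b) + (c - d) i` -/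
structure G4 where
  a : ℕ
  b : ℕ
  c : ℕ
  d : ℕ

/-- `x + v y` for `v = p + q i` -/
def fma (v : ℕ × ℕ) (x y : G4) : G4 :=
  ⟨Nat.add x.a (Nat.add (Nat.mul v.1 y.a) (Nat.mul v.2 y.d)),
   Nat.add x.b (Nat.add (Nat.mul v.1 y.b) (Nat.mul v.2 y.c)),
   Nat.add x.c (Nat.add (Nat.mul v.1 y.c) (Nat.mul v.2 y.a)),
   Nat.add x.d (Nat.add (Nat.mul v.1 y.d) (Nat.mul v.2 y.b))⟩

/-- reduced product -/
def mulE (x y : G4) : G4 :=
  let a := Nat.add (Nat.add (Nat.mul x.a y.a) (Nat.mul x.b y.b))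
        (Nat.add (Nat.mul x.c y.d) (Nat.mul x.d y.c))
  let b := Nat.add (Nat.add (Nat.mul x.a y.b) (Nat.mul x.b y.a))
        (Nat.add (Nat.mul x.c y.c) (Nat.mul x.d y.d))
  let c := Nat.add (Nat.add (Nat.mul x.a y.c) (Nat.mul x.b y.d))
        (Nat.add (Nat.mul x.c y.a) (Nat.mul x.d y.b))
  let d := Nat.add (Nat.add (Nat.mul x.a y.d) (Nat.mul x.b y.c))
        (Nat.add (Nat.mul x.c y.b) (Nat.mul x.d y.a))
  ⟨Nat.sub a b, Nat.sub b a, Nat.sub c d, Nat.sub d c⟩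

/-- zip with `fma` -/
noncomputable def zw (v : ℕ × ℕ) (L : List G4) : List G4 → List G4 :=
  List.rec (motive := fun _ => List G4 → List G4) (fun _ => [])
    (fun x _ ih M => List.rec (motive := fun _ => List G4) [] (fun y M' _ => fma v x y :: ih M') M) L

/-- drop -/
noncomputable def dr (B : ℕ) : List G4 → List G4 :=
  Nat.rec (motive := fun _ => List G4 → List G4) (fun L => L)
    (fun _ ih L => List.rec (motive := fun _ => List G4) [] (fun _ t _ => ih t) L) B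

/-- contraction -/
noncomputable def ctr (B : ℕ) (v : ℕ × ℕ) (L : List G4) : List G4 := zw v L (dr B L)

/-- contraction with all sorted tuples of vertices -/
noncomputable def chkS (B d : ℕ) : (List (ℕ × ℕ) → List G4 → Bool) → List (ℕ × ℕ) → List G4 → Bool :=
  Nat.rec (motive := fun _ => (List (ℕ × ℕ) → List G4 → Bool) → List (ℕ × ℕ) → List G4 → Bool)
    (fun rest V L => rest V L)
    (fun _ ih rest V L => List.rec (motive := fun _ => Bool) true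
      (fun v W ihW => Bool.rec (motive := fun _ => Bool) false ihW (ih rest (v :: W) (ctr B v L)))
      V) d

/-- innermost loop: `xb + p yb + q yc < xa + p ya + q yd` for all vertices `p + q i` -/
noncomputable def lp (xa xb ya yb yc yd : ℕ) (V : List (ℕ × ℕ)) : Bool :=
  List.rec (motive := fun _ => Bool) true (fun v _ ih => Prod.rec (motive := fun _ => Bool)
    (fun p q => Bool.rec (motive := fun _ => Bool) ih false
      (Nat.ble (Nat.add (Nat.add xa (Nat.mul p ya)) (Nat.mul q yd))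
        (Nat.add (Nat.add xb (Nat.mul p yb)) (Nat.mul q yc)))) v) V

/-- last contraction -/
noncomputable def last1 (V : List (ℕ × ℕ)) (L : List G4) : Bool :=
  List.rec (motive := fun _ => Bool) false (fun x t _ =>
    List.rec (motive := fun _ => Bool) false (fun y _ _ =>
      G4.rec (motive := fun _ => Bool) (fun xa xb _ _ => G4.rec (motive := fun _ => Bool)
        (fun ya yb yc yd => lp xa xb ya yb yc yd V) y) x) t) L

/-- multiplication of the tensor -/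
noncomputable def mapE (e : G4) (L : List G4) : List G4 :=
  List.rec (motive := fun _ => List G4) [] (fun x _ ih => mulE e x :: ih) L

/-- swap the coordinates -/
noncomputable def swp (V : List (ℕ × ℕ)) : List (ℕ × ℕ) :=
  List.rec (motive := fun _ => List (ℕ × ℕ)) [] (fun v _ ih => (v.2, v.1) :: ih) V

/-- swap if mirrored -/
noncomputable def sw (m : Bool) (V : List (ℕ × ℕ)) : List (ℕ × ℕ) :=
  Bool.rec (motive := fun _ => List (ℕ × ℕ)) V (swp V) m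

/-- nonstrict left turn -/
def le3 (p q r : ℕ × ℕ) : Bool :=
  Nat.ble (Nat.add (Nat.add (Nat.mul q.1 p.2) (Nat.mul p.1 r.2)) (Nat.mul q.2 r.1))
    (Nat.add (Nat.add (Nat.mul q.1 r.2) (Nat.mul q.2 p.1)) (Nat.mul p.2 r.1))

/-- strict left turn -/
def lt3 (p q r : ℕ × ℕ) : Bool :=
  Nat.blt (Nat.add (Nat.add (Nat.mul q.1 p.2) (Nat.mul p.1 r.2)) (Nat.mul q.2 r.1))
    (Nat.add (Nat.add (Nat.mul q.1 r.2) (Nat.mul q.2 p.1)) (Nat.mul p.2 r.1))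

/-- the fan at `v0` is positive; `p` is the current vertex -/
noncomputable def fan (v0 : ℕ × ℕ) (l : List (ℕ × ℕ)) : (ℕ × ℕ) → Bool :=
  List.rec (motive := fun _ => (ℕ × ℕ) → Bool) (fun _ => true)
    (fun q _ ih p => Bool.rec (motive := fun _ => Bool) false (ih q) (lt3 v0 p q)) l

/-- shape -/
noncomputable def shp (V : List (ℕ × ℕ)) : Bool :=
  List.rec (motive := fun _ => Bool) false (fun v0 t _ =>
    List.rec (motive := fun _ => Bool) false (fun v1 t' _ =>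
      List.rec (motive := fun _ => Bool) false (fun _ _ _ => fan v0 t' v1) t') t) V

/-- all points of `V` are on the left of `p q` -/
noncomputable def allL (p q : ℕ × ℕ) (V : List (ℕ × ℕ)) : Bool :=
  List.rec (motive := fun _ => Bool) true
    (fun v _ ih => Bool.rec (motive := fun _ => Bool) false ih (le3 p q v)) V

/-- the edge `p q` lies on the boundary of the half plane `x ≤ m` (`ax = false`, `up = true`),
`x ≥ m` (`false`, `false`), `y ≤ m` (`true`, `true`), `y ≥ m` (`true`, `false`) -/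
def chd (ax up : Bool) (m : ℕ) (p q : ℕ × ℕ) : Bool :=
  match ax, up with
  | false, true => Nat.beq p.1 m && Nat.beq q.1 m && Nat.ble p.2 q.2
  | false, false => Nat.beq p.1 m && Nat.beq q.1 m && Nat.ble q.2 p.2
  | true, true => Nat.beq p.2 m && Nat.beq q.2 m && Nat.ble q.1 p.1
  | true, false => Nat.beq p.2 m && Nat.beq q.2 m && Nat.ble p.1 q.1

/-- the edges of `W` (from `p` on, closing at `v0`) are implied by `V` and the half plane -/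
noncomputable def subE (ax up : Bool) (m : ℕ) (V : List (ℕ × ℕ)) (v0 : ℕ × ℕ)
    (W : List (ℕ × ℕ)) : (ℕ × ℕ) → Bool :=
  List.rec (motive := fun _ => (ℕ × ℕ) → Bool)
    (fun p => Bool.rec (motive := fun _ => Bool) (allL p v0 V) true (chd ax up m p v0))
    (fun q _ ih p => Bool.rec (motive := fun _ => Bool) false (ih q)
      (Bool.rec (motive := fun _ => Bool) (allL p q V) true (chd ax up m p q))) W

/-- child of a cut -/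
noncomputable def child (ax up : Bool) (m : ℕ) (V W : List (ℕ × ℕ)) : Bool :=
  List.rec (motive := fun _ => Bool) false (fun v0 t _ => subE ax up m V v0 t v0) W

/-- the edges of `W` (from `p` on, closing at `v0`) have `V` on the left -/
noncomputable def relE (V : List (ℕ × ℕ)) (v0 : ℕ × ℕ) (W : List (ℕ × ℕ)) : (ℕ × ℕ) → Bool :=
  List.rec (motive := fun _ => (ℕ × ℕ) → Bool) (fun p => allL p v0 V)
    (fun q _ ih p => Bool.rec (motive := fun _ => Bool) false (ih q) (allL p q V)) W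

/-- `V` is contained in `W` -/
noncomputable def relc (V W : List (ℕ × ℕ)) : Bool :=
  List.rec (motive := fun _ => Bool) false (fun v0 t _ => relE V v0 t v0) W

/-- certificate trees -/
inductive CT
  | leaf (e : G4)
  | leaf2 (e : G4)
  | rel0 (W : List (ℕ × ℕ)) (t : CT)
  | rel1 (W : List (ℕ × ℕ)) (t : CT)
  | rel2 (W : List (ℕ × ℕ)) (t : CT)
  | seg (m : ℕ × ℕ) (t1 t2 : CT)
  | cut0 (ax : Bool) (m : ℕ) (W1 W2 : List (ℕ × ℕ)) (t1 t2 : CT)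
  | cut1 (ax : Bool) (m : ℕ) (W1 W2 : List (ℕ × ℕ)) (t1 t2 : CT)
  | cut2 (ax : Bool) (m : ℕ) (W1 W2 : List (ℕ × ℕ)) (t1 t2 : CT)

/-- degrees, block lengths, mirror flags, tensor -/
structure Cfg where
  ds : ℕ
  d0 : ℕ
  d1 : ℕ
  d2 : ℕ
  Bs : ℕ
  B0 : ℕ
  B1 : ℕ
  m0 : Bool
  m1 : Bool
  m2 : Bool
  L : List G4

/-- and -/
def an (x y : Bool) : Bool := Bool.rec (motive := fun _ => Bool) false y x

/-- leaf -/
noncomputable def chkL (c : Cfg) (e : G4) (p q : ℕ × ℕ) (V0 V1 V2 : List (ℕ × ℕ)) : Bool :=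
  an (shp V0) (an (shp V1) (an (shp V2)
    (chkS c.Bs c.ds (fun _ L => chkS c.B0 c.d0 (fun _ L => chkS c.B1 c.d1 (fun _ L =>
      chkS 1 c.d2 last1 (sw c.m2 V2) L) (sw c.m1 V1) L) (sw c.m0 V0) L) [p, q] (mapE e c.L))))

/-- `m` is the midpoint of `p`, `q` -/
def mid (p q m : ℕ × ℕ) : Bool :=
  an (Nat.beq (Nat.add p.1 q.1) (Nat.add m.1 m.1)) (Nat.beq (Nat.add p.2 q.2) (Nat.add m.2 m.2))

/-- tree check; a leaf uses the first or the second polynomial -/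
noncomputable def chkT (c c' : Cfg) (T : CT) :
    (ℕ × ℕ) → (ℕ × ℕ) → List (ℕ × ℕ) → List (ℕ × ℕ) → List (ℕ × ℕ) → Bool :=
  CT.rec (motive := fun _ =>
      (ℕ × ℕ) → (ℕ × ℕ) → List (ℕ × ℕ) → List (ℕ × ℕ) → List (ℕ × ℕ) → Bool)
    (fun e p q V0 V1 V2 => chkL c e p q V0 V1 V2)
    (fun e p q V0 V1 V2 => chkL c' e p q V0 V1 V2)
    (fun W _ i p q V0 V1 V2 => an (shp V0) (an (relc V0 W) (i p q W V1 V2)))
    (fun W _ i p q V0 V1 V2 => an (shp V1) (an (relc V1 W) (i p q V0 W V2)))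
    (fun W _ i p q V0 V1 V2 => an (shp V2) (an (relc V2 W) (i p q V0 V1 W)))
    (fun m _ _ i1 i2 p q V0 V1 V2 => an (mid p q m) (an (i1 p m V0 V1 V2) (i2 m q V0 V1 V2)))
    (fun ax m W1 W2 _ _ i1 i2 p q V0 V1 V2 => an (shp V0) (an (child ax true m V0 W1)
      (an (child ax false m V0 W2) (an (i1 p q W1 V1 V2) (i2 p q W2 V1 V2)))))
    (fun ax m W1 W2 _ _ i1 i2 p q V0 V1 V2 => an (shp V1) (an (child ax true m V1 W1)
      (an (child ax false m V1 W2) (an (i1 p q V0 W1 V2) (i2 p q V0 W2 V2)))))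
    (fun ax m W1 W2 _ _ i1 i2 p q V0 V1 V2 => an (shp V2) (an (child ax true m V2 W1)
      (an (child ax false m V2 W2) (an (i1 p q V0 V1 W1) (i2 p q V0 V1 W2)))))
    T

/-! ### semantics -/

/-- value -/
noncomputable def G4.v (x : G4) : ℂ := ⟨(x.a : ℝ) - x.b, (x.c : ℝ) - x.d⟩

/-- the complex number of a vertex -/
noncomputable def pv (v : ℕ × ℕ) : ℂ := ⟨(v.1 : ℝ), (v.2 : ℝ)⟩

lemma fma_v (v : ℕ × ℕ) (x y : G4) : (fma v x y).v = x.v + pv v * y.v := by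
  apply Complex.ext
  · simp only [fma, G4.v, pv, Complex.add_re, Complex.mul_re, Nat.add_eq, Nat.mul_eq]
    push_cast
    ring
  · simp only [fma, G4.v, pv, Complex.add_im, Complex.mul_im, Nat.add_eq, Nat.mul_eq]
    push_cast
    ring

lemma sub_cast (a b : ℕ) : ((Nat.sub a b : ℕ) : ℝ) - (Nat.sub b a : ℕ) = a - b := by
  simp only [Nat.sub_eq]
  rcases le_total a b with h | h
  · rw [Nat.sub_eq_zero_of_le h, Nat.cast_sub h]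
    push_cast
    ring
  · rw [Nat.sub_eq_zero_of_le h, Nat.cast_sub h]
    push_cast
    ring

lemma mulE_v (x y : G4) : (mulE x y).v = x.v * y.v := by
  apply Complex.ext
  · simp only [mulE, G4.v, Complex.mul_re, sub_cast]
    simp only [Nat.add_eq, Nat.mul_eq]
    push_cast
    ring
  · simp only [mulE, G4.v, Complex.mul_im, sub_cast]
    simp only [Nat.add_eq, Nat.mul_eq]
    push_cast
    ring

lemma zw_eq (v : ℕ × ℕ) : ∀ L M : List G4, zw v L M = List.zipWith (fma v) L M := by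
  intro L
  induction L with
  | nil => intro M; rfl
  | cons x L ih =>
    intro M
    cases M with
    | nil => rfl
    | cons y M =>
      rw [List.zipWith_cons_cons, ← ih M]
      rfl

lemma dr_eq : ∀ (B : ℕ) (L : List G4), dr B L = L.drop B := by
  intro B
  induction B with
  | zero => intro L; rfl
  | succ B ih =>
    intro L
    cases L with
    | nil => rfl
    | cons x L =>
      rw [List.drop_succ_cons, ← ih L]
      rfl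

/-- contraction of sequences -/
noncomputable def sc (B : ℕ) (z : ℂ) (a : ℕ → ℂ) : ℕ → ℂ := fun i => a i + z * a (i + B)

lemma sc_comm (B B' : ℕ) (z z' : ℂ) (a : ℕ → ℂ) : sc B z (sc B' z' a) = sc B' z' (sc B z a) := by
  funext i
  simp only [sc]
  rw [show i + B + B' = i + B' + B by ring]
  ring

/-- several contractions -/
noncomputable def app : List (ℕ × ℂ) → (ℕ → ℂ) → (ℕ → ℂ)
  | [], a => a
  | p :: l, a => app l (sc p.1 p.2 a)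

lemma app_append (l l' : List (ℕ × ℂ)) : ∀ a : ℕ → ℂ, app (l ++ l') a = app l' (app l a) := by
  induction l with
  | nil => intro a; rfl
  | cons p l ih => intro a; exact ih _

lemma app_perm {l l' : List (ℕ × ℂ)} (h : l.Perm l') : ∀ a : ℕ → ℂ, app l a = app l' a := by
  induction h with
  | nil => intro a; rfl
  | cons x _ ih => intro a; exact ih _
  | swap x y l =>
    intro a
    simp only [app]
    rw [sc_comm]
  | trans _ _ ih1 ih2 => intro a; rw [ih1, ih2]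

lemma app_lin (l : List (ℕ × ℂ)) : ∀ (a b : ℕ → ℂ) (z : ℂ),
    app l (fun i => a i + z * b i) = fun i => app l a i + z * app l b i := by
  induction l with
  | nil => intro a b z; rfl
  | cons p l ih =>
    intro a b z
    simp only [app]
    rw [← ih]
    congr 1
    funext i
    simp only [sc]
    ring

lemma app_smul (l : List (ℕ × ℂ)) (a : ℕ → ℂ) (z : ℂ) :
    app l (fun i => z * a i) = fun i => z * app l a i := by
  have h := app_lin l (fun _ => 0) a z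
  have h0 : ∀ l : List (ℕ × ℂ), app l (fun _ => 0) = fun _ => 0 := by
    intro l
    induction l with
    | nil => rfl
    | cons p l ih =>
      simp only [app]
      have : sc p.1 p.2 (fun _ => 0) = fun _ => 0 := by funext i; simp [sc]
      rw [this, ih]
  rw [h0 l] at h
  simpa using h

/-- the list represents the sequence -/
def Rp (L : List G4) (a : ℕ → ℂ) : Prop := ∀ (i : ℕ) (h : i < L.length), (L[i]).v = a i

lemma ctr_rp {L : List G4} {a : ℕ → ℂ} (h : Rp L a) (B : ℕ) (v : ℕ × ℕ) :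
    Rp (ctr B v L) (sc B (pv v) a) := by
  intro i hi
  have e : ctr B v L = List.zipWith (fma v) L (L.drop B) := by rw [ctr, zw_eq, dr_eq]
  simp only [e] at hi ⊢
  rw [List.length_zipWith, List.length_drop, lt_min_iff] at hi
  rw [List.getElem_zipWith, fma_v, List.getElem_drop]
  have h1 := h i hi.1
  have h2 := h (B + i) (by omega)
  rw [h1, h2, sc, add_comm B i]

/-- positivity for all tuples of vertices -/
def SS (B d : ℕ) (V : List (ℕ × ℕ)) (a : ℕ → ℂ) (R : List (ℕ × ℂ) → Prop) : Prop :=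
  ∀ vs : List (ℕ × ℕ), vs.length = d → (∀ v ∈ vs, v ∈ V) → ∀ l, R l →
    0 < (app (vs.map (fun v => (B, pv v)) ++ l) a 0).re

lemma an_iff {x y : Bool} : an x y = true ↔ x = true ∧ y = true := by
  cases x <;> cases y <;> simp [an]

lemma chkS_sound {B k : ℕ} {rest : List (ℕ × ℕ) → List G4 → Bool} {R : List (ℕ × ℂ) → Prop}
    (hrest : ∀ V L a, rest V L = true → Rp L a → SS B k V a R) :
    ∀ d V L a, chkS B d rest V L = true → Rp L a → SS B (d + k) V a R := by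
  intro d
  induction d with
  | zero =>
    intro V L a h hL
    rw [zero_add]
    exact hrest V L a h hL
  | succ d ih =>
    intro V
    induction V with
    | nil =>
      intro L a _ _ vs hvs hV
      cases vs with
      | nil => simp only [List.length_nil] at hvs; omega
      | cons v vs => exact absurd (hV v (by simp)) (by simp)
    | cons v W ihW =>
      intro L a h hL
      have h2 : an (chkS B d rest (v :: W) (ctr B v L)) (chkS B (d + 1) rest W L) = true := h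
      rw [an_iff] at h2
      have h3 := ih (v :: W) _ _ h2.1 (ctr_rp hL B v)
      have h4 := ihW L a h2.2 hL
      intro vs hvs hV l hl
      by_cases hv : v ∈ vs
      · obtain ⟨vs', hp⟩ : ∃ vs', vs.Perm (v :: vs') := ⟨vs.erase v, List.perm_cons_erase hv⟩
        have hlen : vs'.length = d + k := by
          have := hp.length_eq
          rw [hvs, List.length_cons] at this
          omega
        have := h3 vs' hlen (fun u hu => hV u (hp.symm.subset (List.mem_cons_of_mem _ hu))) l hl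
        have e : app (vs.map (fun v => (B, pv v)) ++ l) a =
            app (vs'.map (fun v => (B, pv v)) ++ l) (sc B (pv v) a) := by
          rw [app_perm ((hp.map _).append_right l) a]
          rfl
        rw [e]
        exact this
      · refine h4 vs hvs (fun u hu => ?_) l hl
        rcases List.mem_cons.1 (hV u hu) with rfl | h5
        · exact absurd hu hv
        · exact h5

/-- `Z` is in the hull of `V` -/
def InH (V : List (ℕ × ℕ)) (Z : ℂ) : Prop :=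
  ∀ (A : ℂ) (c : ℝ), (∀ v ∈ V, 0 < (A * pv v).re + c) → 0 < (A * Z).re + c

lemma hull {B d : ℕ} {V : List (ℕ × ℕ)} {a : ℕ → ℂ} {R : List (ℕ × ℂ) → Prop} {Z : ℂ}
    (hZ : InH V Z) (h : SS B d V a R) : ∀ l, R l →
    0 < (app (List.replicate d (B, Z) ++ l) a 0).re := by
  intro l hl
  have key : ∀ k m, k + m = d → ∀ vs : List (ℕ × ℕ), vs.length = m → (∀ v ∈ vs, v ∈ V) →
      0 < (app (List.replicate k (B, Z) ++ (vs.map (fun v => (B, pv v)) ++ l)) a 0).re := by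
    intro k
    induction k with
    | zero =>
      intro m hm vs hvs hV
      exact h vs (by omega) hV l hl
    | succ k ih =>
      intro m hm vs hvs hV
      set X := List.replicate k (B, Z) ++ (vs.map (fun v => (B, pv v)) ++ l) with hX
      have e1 : ∀ z : ℂ, app ((B, z) :: X) a 0 = app X a 0 + z * app X (fun i => a (i + B)) 0 := by
        intro z
        have := app_lin X a (fun i => a (i + B)) z
        show app X (sc B z a) 0 = _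
        rw [show sc B z a = fun i => a i + z * a (i + B) from rfl, this]
      have e2 : app (List.replicate (k + 1) (B, Z) ++ (vs.map (fun v => (B, pv v)) ++ l)) a 0 =
          app ((B, Z) :: X) a 0 := rfl
      rw [e2, e1, Complex.add_re, add_comm, mul_comm]
      rw [mul_comm]
      have := hZ (app X (fun i => a (i + B)) 0) (app X a 0).re ?_
      · rw [mul_comm] at this
        exact this
      · intro v hv
        have h5 := ih (m + 1) (by omega) (v :: vs) (by simp [hvs])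
          (by intro u hu; rcases List.mem_cons.1 hu with rfl | h6; exacts [hv, hV u h6])
        have e3 : app (List.replicate k (B, Z) ++ ((v :: vs).map (fun v => (B, pv v)) ++ l)) a =
            app ((B, pv v) :: X) a := by
          apply app_perm
          rw [List.map_cons, List.cons_append, hX]
          exact List.perm_middle
        rw [e3, e1, Complex.add_re, add_comm, mul_comm] at h5
        exact h5
  have := key d 0 (by omega) [] rfl (by simp)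
  simpa using this

lemma lp_iff {xa xb ya yb yc yd : ℕ} : ∀ V : List (ℕ × ℕ), lp xa xb ya yb yc yd V = true →
    ∀ v ∈ V, xb + v.1 * yb + v.2 * yc < xa + v.1 * ya + v.2 * yd := by
  intro V
  induction V with
  | nil => intro _ v hv; exact absurd hv (by simp)
  | cons v V ih =>
    intro h u hu
    have h2 : Bool.rec (motive := fun _ => Bool) (lp xa xb ya yb yc yd V) false
      (Nat.ble (xa + v.1 * ya + v.2 * yd) (xb + v.1 * yb + v.2 * yc)) = true := h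
    have h3 : Nat.ble (xa + v.1 * ya + v.2 * yd) (xb + v.1 * yb + v.2 * yc) = false ∧
        lp xa xb ya yb yc yd V = true := by
      revert h2
      cases Nat.ble (xa + v.1 * ya + v.2 * yd) (xb + v.1 * yb + v.2 * yc) <;> simp
    rcases List.mem_cons.1 hu with rfl | h4
    · have h5 : ¬ (xa + u.1 * ya + u.2 * yd ≤ xb + u.1 * yb + u.2 * yc) := by
        intro h6
        rw [show Nat.ble (xa + u.1 * ya + u.2 * yd) (xb + u.1 * yb + u.2 * yc) = true from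
          Nat.ble_eq_true_of_le h6] at h3
        exact absurd h3.1 (by simp)
      omega
    · exact ih h3.2 u h4

lemma last1_sound : ∀ (V : List (ℕ × ℕ)) (L : List G4) (a : ℕ → ℂ), last1 V L = true → Rp L a →
    SS 1 1 V a (fun l => l = []) := by
  intro V L a h hL vs hvs hV l hl
  subst hl
  rw [List.append_nil]
  obtain ⟨v, rfl⟩ := List.length_eq_one_iff.1 hvs
  have hv : v ∈ V := hV v (by simp)
  match L, h with
  | x :: y :: t, h =>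
    have h1 : lp x.a x.b y.a y.b y.c y.d V = true := h
    have h2 := lp_iff V h1 v hv
    have hx := hL 0 (by simp)
    have hy := hL 1 (by simp)
    simp only [List.getElem_cons_zero, List.getElem_cons_succ] at hx hy
    show 0 < (a 0 + pv v * a (0 + 1)).re
    rw [zero_add, ← hx, ← hy]
    simp only [G4.v, pv, Complex.add_re, Complex.mul_re]
    have h3 : ((x.b + v.1 * y.b + v.2 * y.c : ℕ) : ℝ) < ((x.a + v.1 * y.a + v.2 * y.d : ℕ) : ℝ) := by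
      exact_mod_cast h2
    push_cast at h3
    linarith only [h3]

lemma mapE_eq (e : G4) (L : List G4) : mapE e L = L.map (mulE e) := by
  induction L with
  | nil => rfl
  | cons x L ih =>
    rw [List.map_cons, ← ih]
    rfl

lemma mapE_rp {L : List G4} {a : ℕ → ℂ} (h : Rp L a) (e : G4) :
    Rp (mapE e L) (fun i => e.v * a i) := by
  intro i hi
  simp only [mapE_eq] at hi ⊢
  rw [List.getElem_map, mulE_v, h i (by simpa using hi)]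

/-! ### geometry -/

/-- integer vertex -/
def tz (v : ℕ × ℕ) : ℤ × ℤ := ((v.1 : ℤ), (v.2 : ℤ))

lemma zp_tz (v : ℕ × ℕ) : zp (tz v) = pv v := by
  simp [zp, tz, pv]

lemma le3_iff {p q r : ℕ × ℕ} : le3 p q r = true ↔ 0 ≤ xz (tz p) (tz q) (tz r) := by
  rw [le3, Nat.ble_eq]
  simp only [xz, tz, Nat.add_eq, Nat.mul_eq]
  zify
  constructor <;> intro h <;> linarith only [h]

lemma lt3_iff {p q r : ℕ × ℕ} : lt3 p q r = true ↔ 0 < xz (tz p) (tz q) (tz r) := by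
  rw [lt3, Nat.blt_eq]
  simp only [xz, tz, Nat.add_eq, Nat.mul_eq]
  zify
  constructor <;> intro h <;> linarith only [h]

lemma fan_areas (v0 : ℕ × ℕ) : ∀ (l : List (ℕ × ℕ)) (p : ℕ × ℕ), fan v0 l p = true →
    areas (tz v0) (tz p :: l.map tz) = true := by
  intro l
  induction l with
  | nil => intro p _; rfl
  | cons q l ih =>
    intro p h
    have h2 : an (lt3 v0 p q) (fan v0 l q) = true := h
    rw [an_iff, lt3_iff] at h2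
    simp only [List.map_cons, areas, Bool.and_eq_true, decide_eq_true_eq]
    exact ⟨h2.1, ih q h2.2⟩

lemma shp_shape {V : List (ℕ × ℕ)} (h : shp V = true) : shape (V.map tz) = true := by
  match V, h with
  | v0 :: v1 :: v2 :: l, h => exact fan_areas v0 (v2 :: l) v1 h

/-- region of a vertex list -/
def Rg (V : List (ℕ × ℕ)) : Set ℂ := PolyZ (V.map tz)

lemma Rg_InH {V : List (ℕ × ℕ)} (h : shp V = true) {Z : ℂ} (hZ : Z ∈ Rg V) : InH V Z := by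
  intro A c hA
  refine poly_aff (shp_shape h) hZ fun v hv => ?_
  obtain ⟨u, hu, rfl⟩ := List.mem_map.1 hv
  rw [zp_tz]
  exact hA u hu

lemma allL_iff {p q : ℕ × ℕ} : ∀ {V : List (ℕ × ℕ)}, allL p q V = true →
    ∀ v ∈ V, le3 p q v = true := by
  intro V
  induction V with
  | nil => intro _ v hv; exact absurd hv (by simp)
  | cons v V ih =>
    intro h u hu
    have h2 : an (le3 p q v) (allL p q V) = true := h
    rw [an_iff] at h2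
    rcases List.mem_cons.1 hu with rfl | h3
    · exact h2.1
    · exact ih h2.2 u h3

lemma allL_left {p q : ℕ × ℕ} {V : List (ℕ × ℕ)} (hV : shp V = true) (h : allL p q V = true) {Z : ℂ}
    (hZ : Z ∈ Rg V) : 0 ≤ xr (tz p) (tz q) Z := by
  rw [xr_aff]
  refine poly_aff0 (shp_shape hV) hZ fun v hv => ?_
  obtain ⟨u, hu, rfl⟩ := List.mem_map.1 hv
  rw [← xr_aff, xr_zp]
  exact_mod_cast le3_iff.1 (allL_iff h u hu)

/-- half planes -/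
def HP (ax up : Bool) (m : ℕ) (Z : ℂ) : Prop :=
  match ax, up with
  | false, true => Z.re ≤ m
  | false, false => (m : ℝ) ≤ Z.re
  | true, true => Z.im ≤ m
  | true, false => (m : ℝ) ≤ Z.im

lemma chd_left {ax up : Bool} {m : ℕ} {p q : ℕ × ℕ} (h : chd ax up m p q = true) {Z : ℂ}
    (hZ : HP ax up m Z) : 0 ≤ xr (tz p) (tz q) Z := by
  obtain ⟨p1, p2⟩ := p
  obtain ⟨q1, q2⟩ := q
  cases ax <;> cases up <;> simp only [chd, HP, Bool.and_eq_true, Nat.beq_eq, Nat.ble_eq] at h hZ <;>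
    obtain ⟨⟨rfl, rfl⟩, h3⟩ := h <;> simp only [xr, tz] <;> push_cast
  · have h4 : (q2 : ℝ) ≤ p2 := by exact_mod_cast h3
    have := mul_nonneg (sub_nonneg.2 h4) (sub_nonneg.2 hZ)
    nlinarith only [this]
  · have h4 : (p2 : ℝ) ≤ q2 := by exact_mod_cast h3
    have := mul_nonneg (sub_nonneg.2 h4) (sub_nonneg.2 hZ)
    nlinarith only [this]
  · have h4 : (p1 : ℝ) ≤ q1 := by exact_mod_cast h3
    have := mul_nonneg (sub_nonneg.2 h4) (sub_nonneg.2 hZ)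
    nlinarith only [this]
  · have h4 : (q1 : ℝ) ≤ p1 := by exact_mod_cast h3
    have := mul_nonneg (sub_nonneg.2 h4) (sub_nonneg.2 hZ)
    nlinarith only [this]

/-- or -/
lemma or_rec {x y : Bool} (h : Bool.rec (motive := fun _ => Bool) x true y = true) :
    x = true ∨ y = true := by
  cases y
  · exact Or.inl h
  · exact Or.inr rfl

lemma subE_sound {ax up : Bool} {m : ℕ} {V : List (ℕ × ℕ)} (hV : shp V = true) {Z : ℂ}
    (hZ : Z ∈ Rg V) (hH : HP ax up m Z) (v0 : ℕ × ℕ) : ∀ (W : List (ℕ × ℕ)) (p : ℕ × ℕ),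
    subE ax up m V v0 W p = true → ∀ e ∈ eds (tz v0) (tz p :: W.map tz), 0 ≤ xr e.1 e.2 Z := by
  intro W
  induction W with
  | nil =>
    intro p h e he
    simp only [List.map_nil, eds, List.mem_singleton] at he
    subst he
    rcases or_rec (x := allL p v0 V) (y := chd ax up m p v0) h with h1 | h1
    · exact allL_left hV h1 hZ
    · exact chd_left h1 hH
  | cons q W ih =>
    intro p h e he
    have h2 : an (Bool.rec (motive := fun _ => Bool) (allL p q V) true (chd ax up m p q))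
      (subE ax up m V v0 W q) = true := h
    rw [an_iff] at h2
    simp only [List.map_cons, eds, List.mem_cons] at he
    rcases he with rfl | he
    · rcases or_rec h2.1 with h1 | h1
      · exact allL_left hV h1 hZ
      · exact chd_left h1 hH
    · exact ih q h2.2 e he

lemma child_sound {ax up : Bool} {m : ℕ} {V W : List (ℕ × ℕ)} (hV : shp V = true)
    (h : child ax up m V W = true) {Z : ℂ} (hZ : Z ∈ Rg V) (hH : HP ax up m Z) : Z ∈ Rg W := by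
  match W, h with
  | v0 :: t, h =>
    intro e he
    rw [List.map_cons, edges_cons] at he
    exact subE_sound hV hZ hH v0 t v0 h e he

lemma relE_sound {V : List (ℕ × ℕ)} (hV : shp V = true) {Z : ℂ}
    (hZ : Z ∈ Rg V) (v0 : ℕ × ℕ) : ∀ (W : List (ℕ × ℕ)) (p : ℕ × ℕ),
    relE V v0 W p = true → ∀ e ∈ eds (tz v0) (tz p :: W.map tz), 0 ≤ xr e.1 e.2 Z := by
  intro W
  induction W with
  | nil =>
    intro p h e he
    simp only [List.map_nil, eds, List.mem_singleton] at he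
    subst he
    exact allL_left hV h hZ
  | cons q W ih =>
    intro p h e he
    have h2 : an (allL p q V) (relE V v0 W q) = true := h
    rw [an_iff] at h2
    simp only [List.map_cons, eds, List.mem_cons] at he
    rcases he with rfl | he
    · exact allL_left hV h2.1 hZ
    · exact ih q h2.2 e he

lemma relc_sound {V W : List (ℕ × ℕ)} (hV : shp V = true)
    (h : relc V W = true) {Z : ℂ} (hZ : Z ∈ Rg V) : Z ∈ Rg W := by
  match W, h with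
  | v0 :: t, h =>
    intro e he
    rw [List.map_cons, edges_cons] at he
    exact relE_sound hV hZ v0 t v0 h e he

/-- segments -/
def Sg (p q : ℕ × ℕ) : Set ℂ := {Z | ∃ s t : ℝ, 0 ≤ s ∧ 0 ≤ t ∧ s + t = 1 ∧ Z = s * pv p + t * pv q}

lemma Sg_InH {p q : ℕ × ℕ} {Z : ℂ} (hZ : Z ∈ Sg p q) : InH [p, q] Z := by
  obtain ⟨s, t, hs, ht, h1, rfl⟩ := hZ
  intro A c h
  have hp := h p (by simp)
  have hq := h q (by simp)
  have e : (A * (s * pv p + t * pv q)).re + c =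
      s * ((A * pv p).re + c) + t * ((A * pv q).re + c) := by
    have : c = (s + t) * c := by rw [h1, one_mul]
    conv_lhs => rw [this]
    simp only [Complex.mul_re, Complex.add_re, Complex.add_im, Complex.mul_im, Complex.ofReal_re,
      Complex.ofReal_im]
    ring
  rw [e]
  rcases eq_or_lt_of_le hs with h0 | h0
  · have : t = 1 := by linarith only [h1, h0, hs]
    rw [← h0, this]
    linarith only [hq]
  · have := mul_pos h0 hp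
    have := mul_nonneg ht hq.le
    linarith

lemma mid_sound {p q m : ℕ × ℕ} (h : mid p q m = true) {Z : ℂ} (hZ : Z ∈ Sg p q) :
    Z ∈ Sg p m ∨ Z ∈ Sg m q := by
  rw [mid, an_iff, Nat.beq_eq, Nat.beq_eq] at h
  simp only [Nat.add_eq] at h
  have e : pv p + pv q = 2 * pv m := by
    apply Complex.ext
    · have : ((p.1 + q.1 : ℕ) : ℝ) = ((m.1 + m.1 : ℕ) : ℝ) := by exact_mod_cast h.1
      simp only [pv, Complex.add_re, Complex.mul_re, Complex.re_ofNat, Complex.im_ofNat]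
      push_cast at this
      linarith only [this]
    · have : ((p.2 + q.2 : ℕ) : ℝ) = ((m.2 + m.2 : ℕ) : ℝ) := by exact_mod_cast h.2
      simp only [pv, Complex.add_im, Complex.mul_im, Complex.re_ofNat, Complex.im_ofNat]
      push_cast at this
      linarith only [this]
  obtain ⟨s, t, hs, ht, h1, rfl⟩ := hZ
  rcases le_total t s with h2 | h2
  · refine Or.inl ⟨s - t, 2 * t, by linarith only [h2], by linarith only [ht], by linarith only [h1], ?_⟩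
    push_cast
    linear_combination (t : ℂ) * e
  · refine Or.inr ⟨2 * s, t - s, by linarith only [hs], by linarith only [h2], by linarith only [h1], ?_⟩
    push_cast
    linear_combination (s : ℂ) * e

open scoped ComplexConjugate in
/-- mirrored variable -/
noncomputable def mr (m : Bool) (Z : ℂ) : ℂ := if m then Complex.I * conj Z else Z

lemma swp_eq (V : List (ℕ × ℕ)) : swp V = V.map fun v => (v.2, v.1) := by
  induction V with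
  | nil => rfl
  | cons v V ih =>
    rw [List.map_cons, ← ih]
    rfl

lemma InH_mr {V : List (ℕ × ℕ)} {Z : ℂ} (h : InH V Z) (m : Bool) : InH (sw m V) (mr m Z) := by
  cases m with
  | false => exact h
  | true =>
    intro A c hA
    have h1 := h (starRingEnd ℂ (A * Complex.I)) c (fun v hv => by
      have := hA (v.2, v.1) (by
        show (v.2, v.1) ∈ swp V
        rw [swp_eq]
        exact List.mem_map.2 ⟨v, hv, rfl⟩)
      refine lt_of_lt_of_eq this ?_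
      congr 1
      simp only [pv, Complex.mul_re, Complex.conj_re, Complex.conj_im, Complex.I_re, Complex.I_im,
        Complex.mul_im]
      ring)
    refine lt_of_lt_of_eq h1 ?_
    congr 1
    simp only [mr, Complex.mul_re, Complex.conj_re, Complex.conj_im, Complex.I_re, Complex.I_im,
        Complex.mul_im, if_true]
    ring

/-- the slots -/
noncomputable def slots (c : Cfg) (S Z0 Z1 Z2 : ℂ) : List (ℕ × ℂ) :=
  List.replicate c.ds (c.Bs, S) ++ (List.replicate c.d0 (c.B0, mr c.m0 Z0) ++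
    (List.replicate c.d1 (c.B1, mr c.m1 Z1) ++ (List.replicate (c.d2 + 1) (1, mr c.m2 Z2) ++ [])))

lemma chkL_sound {c : Cfg} {a : ℕ → ℂ} (hL : Rp c.L a) {e : G4} {p q : ℕ × ℕ}
    {V0 V1 V2 : List (ℕ × ℕ)} (h : chkL c e p q V0 V1 V2 = true) {S Z0 Z1 Z2 : ℂ}
    (hS : S ∈ Sg p q) (h0 : Z0 ∈ Rg V0) (h1 : Z1 ∈ Rg V1) (h2 : Z2 ∈ Rg V2) :
    app (slots c S Z0 Z1 Z2) a 0 ≠ 0 := by
  rw [chkL, an_iff, an_iff, an_iff] at h
  obtain ⟨s0, s1, s2, h⟩ := h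
  have a2 : ∀ (V : List (ℕ × ℕ)) (L : List G4) (a : ℕ → ℂ), chkS 1 c.d2 last1 V L = true →
      Rp L a → SS 1 (c.d2 + 1) V a (fun l => l = []) := fun V L a => chkS_sound last1_sound c.d2 V L a
  have b2 : ∀ (L : List G4) (a : ℕ → ℂ), chkS 1 c.d2 last1 (sw c.m2 V2) L = true → Rp L a →
      0 < (app (List.replicate (c.d2 + 1) (1, mr c.m2 Z2) ++ []) a 0).re := fun L a hc hr =>
    hull (InH_mr (Rg_InH s2 h2) c.m2) (a2 _ L a hc hr) [] rfl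
  have b1 : ∀ (L : List G4) (a : ℕ → ℂ), chkS c.B1 c.d1 (fun _ L =>
      chkS 1 c.d2 last1 (sw c.m2 V2) L) (sw c.m1 V1) L = true → Rp L a →
      0 < (app (List.replicate c.d1 (c.B1, mr c.m1 Z1) ++
        (List.replicate (c.d2 + 1) (1, mr c.m2 Z2) ++ [])) a 0).re := fun L a hc hr =>
    hull (R := fun l => l = List.replicate (c.d2 + 1) (1, mr c.m2 Z2) ++ [])
      (InH_mr (Rg_InH s1 h1) c.m1) (chkS_sound (k := 0) (fun V L a h' hr' vs hvs _ l hl => by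
        rw [List.length_eq_zero_iff] at hvs
        subst hvs
        subst hl
        exact b2 L a h' hr') c.d1 _ L a hc hr) _ rfl
  have b0 : ∀ (L : List G4) (a : ℕ → ℂ), chkS c.B0 c.d0 (fun _ L => chkS c.B1 c.d1 (fun _ L =>
      chkS 1 c.d2 last1 (sw c.m2 V2) L) (sw c.m1 V1) L) (sw c.m0 V0) L = true → Rp L a →
      0 < (app (List.replicate c.d0 (c.B0, mr c.m0 Z0) ++ (List.replicate c.d1 (c.B1, mr c.m1 Z1) ++
        (List.replicate (c.d2 + 1) (1, mr c.m2 Z2) ++ []))) a 0).re := fun L a hc hr =>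
    hull (R := fun l => l = List.replicate c.d1 (c.B1, mr c.m1 Z1) ++
        (List.replicate (c.d2 + 1) (1, mr c.m2 Z2) ++ []))
      (InH_mr (Rg_InH s0 h0) c.m0) (chkS_sound (k := 0) (fun V L a h' hr' vs hvs _ l hl => by
        rw [List.length_eq_zero_iff] at hvs
        subst hvs
        subst hl
        exact b1 L a h' hr') c.d0 _ L a hc hr) _ rfl
  have bs := hull (R := fun l => l = List.replicate c.d0 (c.B0, mr c.m0 Z0) ++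
        (List.replicate c.d1 (c.B1, mr c.m1 Z1) ++
        (List.replicate (c.d2 + 1) (1, mr c.m2 Z2) ++ [])))
      (Sg_InH hS) (chkS_sound (k := 0) (fun V L a h' hr' vs hvs _ l hl => by
        rw [List.length_eq_zero_iff] at hvs
        subst hvs
        subst hl
        exact b0 L a h' hr') c.ds _ _ _ h (mapE_rp hL e)) _ rfl
  intro h0
  rw [app_smul] at bs
  have : (e.v * app (slots c S Z0 Z1 Z2) a 0).re = 0 := by rw [h0]; simp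
  rw [slots] at this
  exact absurd bs (by
    show ¬ 0 < (e.v * _).re
    rw [add_zero, this]
    exact lt_irrefl _)

/-- soundness of the tree -/
theorem chkT_sound {c c' : Cfg} {a a' : ℕ → ℂ} (hL : Rp c.L a) (hL' : Rp c'.L a') :
    ∀ (T : CT) (p q : ℕ × ℕ) (V0 V1 V2 : List (ℕ × ℕ)), chkT c c' T p q V0 V1 V2 = true →
    ∀ S Z0 Z1 Z2 : ℂ, S ∈ Sg p q → Z0 ∈ Rg V0 → Z1 ∈ Rg V1 → Z2 ∈ Rg V2 →
    app (slots c S Z0 Z1 Z2) a 0 ≠ 0 ∨ app (slots c' S Z0 Z1 Z2) a' 0 ≠ 0 := by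
  intro T
  induction T with
  | leaf e =>
    intro p q V0 V1 V2 h S Z0 Z1 Z2 hS h0 h1 h2
    exact Or.inl (chkL_sound hL h hS h0 h1 h2)
  | leaf2 e =>
    intro p q V0 V1 V2 h S Z0 Z1 Z2 hS h0 h1 h2
    exact Or.inr (chkL_sound hL' h hS h0 h1 h2)
  | rel0 W t ih =>
    intro p q V0 V1 V2 h S Z0 Z1 Z2 hS h0 h1 h2
    have h3 : an (shp V0) (an (relc V0 W) (chkT c c' t p q W V1 V2)) = true := h
    rw [an_iff, an_iff] at h3
    exact ih p q W V1 V2 h3.2.2 S Z0 Z1 Z2 hS (relc_sound h3.1 h3.2.1 h0) h1 h2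
  | rel1 W t ih =>
    intro p q V0 V1 V2 h S Z0 Z1 Z2 hS h0 h1 h2
    have h3 : an (shp V1) (an (relc V1 W) (chkT c c' t p q V0 W V2)) = true := h
    rw [an_iff, an_iff] at h3
    exact ih p q V0 W V2 h3.2.2 S Z0 Z1 Z2 hS h0 (relc_sound h3.1 h3.2.1 h1) h2
  | rel2 W t ih =>
    intro p q V0 V1 V2 h S Z0 Z1 Z2 hS h0 h1 h2
    have h3 : an (shp V2) (an (relc V2 W) (chkT c c' t p q V0 V1 W)) = true := h
    rw [an_iff, an_iff] at h3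
    exact ih p q V0 V1 W h3.2.2 S Z0 Z1 Z2 hS h0 h1 (relc_sound h3.1 h3.2.1 h2)
  | seg m t1 t2 ih1 ih2 =>
    intro p q V0 V1 V2 h S Z0 Z1 Z2 hS h0 h1 h2
    have h3 : an (mid p q m) (an (chkT c c' t1 p m V0 V1 V2) (chkT c c' t2 m q V0 V1 V2)) = true := h
    rw [an_iff, an_iff] at h3
    rcases mid_sound h3.1 hS with h4 | h4
    · exact ih1 p m V0 V1 V2 h3.2.1 S Z0 Z1 Z2 h4 h0 h1 h2
    · exact ih2 m q V0 V1 V2 h3.2.2 S Z0 Z1 Z2 h4 h0 h1 h2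
  | cut0 ax m W1 W2 t1 t2 ih1 ih2 =>
    intro p q V0 V1 V2 h S Z0 Z1 Z2 hS h0 h1 h2
    have h3 : an (shp V0) (an (child ax true m V0 W1) (an (child ax false m V0 W2)
      (an (chkT c c' t1 p q W1 V1 V2) (chkT c c' t2 p q W2 V1 V2)))) = true := h
    rw [an_iff, an_iff, an_iff, an_iff] at h3
    obtain ⟨g1, g2, g3, g4, g5⟩ := h3
    have hc : HP ax true m Z0 ∨ HP ax false m Z0 := by cases ax <;> exact le_total _ _
    rcases hc with hc | hc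
    · exact ih1 p q W1 V1 V2 g4 S Z0 Z1 Z2 hS (child_sound g1 g2 h0 hc) h1 h2
    · exact ih2 p q W2 V1 V2 g5 S Z0 Z1 Z2 hS (child_sound g1 g3 h0 hc) h1 h2
  | cut1 ax m W1 W2 t1 t2 ih1 ih2 =>
    intro p q V0 V1 V2 h S Z0 Z1 Z2 hS h0 h1 h2
    have h3 : an (shp V1) (an (child ax true m V1 W1) (an (child ax false m V1 W2)
      (an (chkT c c' t1 p q V0 W1 V2) (chkT c c' t2 p q V0 W2 V2)))) = true := h
    rw [an_iff, an_iff, an_iff, an_iff] at h3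
    obtain ⟨g1, g2, g3, g4, g5⟩ := h3
    have hc : HP ax true m Z1 ∨ HP ax false m Z1 := by cases ax <;> exact le_total _ _
    rcases hc with hc | hc
    · exact ih1 p q V0 W1 V2 g4 S Z0 Z1 Z2 hS h0 (child_sound g1 g2 h1 hc) h2
    · exact ih2 p q V0 W2 V2 g5 S Z0 Z1 Z2 hS h0 (child_sound g1 g3 h1 hc) h2
  | cut2 ax m W1 W2 t1 t2 ih1 ih2 =>
    intro p q V0 V1 V2 h S Z0 Z1 Z2 hS h0 h1 h2
    have h3 : an (shp V2) (an (child ax true m V2 W1) (an (child ax false m V2 W2)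
      (an (chkT c c' t1 p q V0 V1 W1) (chkT c c' t2 p q V0 V1 W2)))) = true := h
    rw [an_iff, an_iff, an_iff, an_iff] at h3
    obtain ⟨g1, g2, g3, g4, g5⟩ := h3
    have hc : HP ax true m Z2 ∨ HP ax false m Z2 := by cases ax <;> exact le_total _ _
    rcases hc with hc | hc
    · exact ih1 p q V0 V1 W1 g4 S Z0 Z1 Z2 hS h0 h1 (child_sound g1 g2 h2 hc)
    · exact ih2 p q V0 V1 W2 g5 S Z0 Z1 Z2 hS h0 h1 (child_sound g1 g3 h2 hc)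

end Pool.Agent.Work.MP_b30479_gtS.G2.SC

end

section

/-!
# From the polygons to the scaled vertex lists of the certificates (scale 16)
-/

namespace Pool.Agent.Work.MP_b30479_gtS.G2.SC

open scoped ComplexConjugate

/-- scaling by `16` -/
def s16 (p : ℤ × ℤ) : ℤ × ℤ := (16 * p.1, 16 * p.2)

lemma edges_map (f : ℤ × ℤ → ℤ × ℤ) (V : List (ℤ × ℤ)) :
    edges (V.map f) = (edges V).map fun e => (f e.1, f e.2) := by
  unfold edges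
  rw [← List.map_rotate, List.zip_map]
  rfl

lemma rg_of_poly {V : List (ℤ × ℤ)} {W : List (ℕ × ℕ)} (h : W.map tz = V.map s16) {z : ℂ}
    (hz : z ∈ Poly V) : 16000 * z ∈ Rg W := by
  intro e he
  rw [h, edges_map] at he
  obtain ⟨d, hd, rfl⟩ := List.mem_map.1 he
  have h1 := mem_Poly.1 hz d hd
  have : xr (s16 d.1) (s16 d.2) (16000 * z) = 256 * xr d.1 d.2 (1000 * z) := by
    simp only [xr, s16, Complex.mul_re, Complex.mul_im, Complex.re_ofNat, Complex.im_ofNat]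
    push_cast
    ring
  show 0 ≤ xr (s16 d.1) (s16 d.2) (16000 * z)
  rw [this]
  exact mul_nonneg (by norm_num) h1

lemma zp_s16 (p : ℤ × ℤ) : zp (s16 p) = 16 * zp p := by
  apply Complex.ext <;> simp [zp, s16]

/-- `z` is on an edge of the polygon -/
def OnE (V : List (ℤ × ℤ)) (z : ℂ) : Prop :=
  ∃ e ∈ edges V, ∃ s t : ℝ, 0 ≤ s ∧ 0 ≤ t ∧ s + t = 1 ∧ 1000 * z = s * zp e.1 + t * zp e.2

lemma onE_of {V : List (ℤ × ℤ)} (hV : cvx V) {z : ℂ} (hz : z ∈ Poly V) (h : z ∉ PolyU V) :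
    OnE V z := by
  have h2 : ∃ e ∈ edges V, ¬ 0 < cr e.1 e.2 z := by
    by_contra hc
    push Not at hc
    exact h fun e he => hc e he
  obtain ⟨e, he, h3⟩ := h2
  have h4 : xr e.1 e.2 (1000 * z) = 0 := by
    rw [← cr_eq]
    exact le_antisymm (not_lt.1 h3) (hz e he)
  obtain ⟨s, t, hs, ht, h5, h6⟩ := on_edge hV (mem_Poly.1 hz) he h4
  exact ⟨e, he, s, t, hs, ht, h5, h6⟩

/-- all edges have a certificate -/
def edgeOK (c : Cfg) (E : List ((ℕ × ℕ) × (ℕ × ℕ))) (V0 V1 V2 : List (ℕ × ℕ)) : Prop :=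
  ∀ e ∈ E, ∃ T, chkT c c T e.1 e.2 V0 V1 V2 = true

lemma edge_use {c : Cfg} {a : ℕ → ℂ} (hL : Rp c.L a) {E : List ((ℕ × ℕ) × (ℕ × ℕ))}
    {V0 V1 V2 : List (ℕ × ℕ)} (h : edgeOK c E V0 V1 V2) {V : List (ℤ × ℤ)}
    (hE : E.map (fun e => (tz e.1, tz e.2)) = (edges V).map fun e => (s16 e.1, s16 e.2))
    {z Z0 Z1 Z2 : ℂ} (hz : OnE V z) (h0 : Z0 ∈ Rg V0) (h1 : Z1 ∈ Rg V1) (h2 : Z2 ∈ Rg V2) :
    app (slots c (16000 * z) Z0 Z1 Z2) a 0 ≠ 0 := by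
  obtain ⟨e, he, s, t, hs, ht, h5, h6⟩ := hz
  have he2 : (s16 e.1, s16 e.2) ∈ (edges V).map fun e => (s16 e.1, s16 e.2) :=
    List.mem_map.2 ⟨e, he, rfl⟩
  rw [← hE] at he2
  obtain ⟨d, hd, h7⟩ := List.mem_map.1 he2
  obtain ⟨T, hT⟩ := h d hd
  have hp : tz d.1 = s16 e.1 := congrArg Prod.fst h7
  have hq : tz d.2 = s16 e.2 := congrArg Prod.snd h7
  have hS : 16000 * z ∈ Sg d.1 d.2 := by
    refine ⟨s, t, hs, ht, h5, ?_⟩
    rw [← zp_tz, ← zp_tz, hp, hq, zp_s16, zp_s16]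
    linear_combination 16 * h6
  rcases chkT_sound hL hL T d.1 d.2 V0 V1 V2 hT _ Z0 Z1 Z2 hS h0 h1 h2 with h8 | h8 <;> exact h8

/-- the dummy polygon -/
def dum : List (ℕ × ℕ) := [(0, 0), (1, 0), (0, 1)]

lemma zero_dum : (0 : ℂ) ∈ Rg dum := by
  intro e he
  have : edges (dum.map tz) = [((0, 0), (1, 0)), ((1, 0), (0, 1)), ((0, 1), (0, 0))] := by rfl
  rw [this] at he
  simp only [List.mem_cons, List.not_mem_nil, or_false] at he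
  rcases he with rfl | rfl | rfl <;> simp [xr]

/-- scaled ports -/
def nA : List (ℕ × ℕ) :=
  [(6720, 3936), (12256, 0), (16000, 0), (13296, 10816), (11680, 10816), (8000, 8240), (6720, 7120)]

/-- scaled ports -/
def nS : List (ℕ × ℕ) :=
  [(8000, 3520), (12800, 0), (16000, 0), (13296, 10816), (11712, 10816), (8000, 7680)]

/-- scaled ports -/
def nT : List (ℕ × ℕ) :=
  [(8000, 3520), (12800, 0), (16000, 0), (12592, 8720), (11792, 8720), (8000, 5440)]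

lemma rgA {k : ℂ} (h : k ∈ Poly pA) : 16000 * k ∈ Rg nA := rg_of_poly (by decide) h

lemma rgS {k : ℂ} (h : k ∈ Poly pS) : 16000 * k ∈ Rg nS := rg_of_poly (by decide) h

lemma rgT {k : ℂ} (h : k ∈ Poly pT) : 16000 * k ∈ Rg nT := rg_of_poly (by decide) h

lemma mr_true (k : ℂ) : mr true (16000 * conj k) = Complex.I * (16000 * k) := by
  simp only [mr, if_true, map_mul, Complex.conj_conj]
  congr 2
  exact map_ofNat (starRingEnd ℂ) 16000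

lemma mr_false (k : ℂ) : mr false (16000 * k) = 16000 * k := by
  simp [mr]

/-- the segment of the hinge exclusion -/
lemma hinge_seg {R : ℂ} (h : R.re = r0) (hi : |R.im| ≤ 4) :
    16000 * (R + 4 * Complex.I) ∈ Sg (160, 0) (160, 128000) := by
  rw [abs_le] at hi
  refine ⟨1 - (R.im + 4) / 8, (R.im + 4) / 8, by linarith [hi.2], by linarith [hi.1], by ring, ?_⟩
  apply Complex.ext
  · simp only [Complex.add_re, Complex.mul_re, Complex.ofReal_re, Complex.ofReal_im, zero_mul,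
      sub_zero, pv, Complex.re_ofNat, Complex.im_ofNat, Complex.I_re, Complex.I_im, mul_zero,
      h, r0]
    push_cast
    ring
  · simp only [Complex.add_im, Complex.mul_im, Complex.ofReal_re, Complex.ofReal_im, zero_mul,
      pv, Complex.re_ofNat, Complex.im_ofNat, Complex.I_re, Complex.I_im, mul_zero, Complex.add_re,
      Complex.mul_re]
    push_cast
    ring

lemma hinge_use {c c' : Cfg} {a a' : ℕ → ℂ} (hL : Rp c.L a) (hL' : Rp c'.L a') {T : CT}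
    {V0 V1 V2 : List (ℕ × ℕ)} (h : chkT c c' T (160, 0) (160, 128000) V0 V1 V2 = true)
    {R Z0 Z1 Z2 : ℂ} (hR : R.re = r0) (hi : |R.im| ≤ 4) (h0 : Z0 ∈ Rg V0) (h1 : Z1 ∈ Rg V1)
    (h2 : Z2 ∈ Rg V2) :
    app (slots c (16000 * (R + 4 * Complex.I)) Z0 Z1 Z2) a 0 ≠ 0 ∨
      app (slots c' (16000 * (R + 4 * Complex.I)) Z0 Z1 Z2) a' 0 ≠ 0 :=
  chkT_sound hL hL' T _ _ V0 V1 V2 h _ Z0 Z1 Z2 (hinge_seg hR hi) h0 h1 h2

end Pool.Agent.Work.MP_b30479_gtS.G2.SC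

end

section

/-!
# Certificates of `S2Cert` in pieces

The check of a tree from the checks of its subtrees.
-/

namespace Pool.Agent.Work.MP_b30479_gtS.G2.SC

variable {c c' : Cfg} {p q m : ℕ × ℕ} {V0 V1 V2 W W1 W2 : List (ℕ × ℕ)} {t t1 t2 : CT} {ax : Bool}
  {n : ℕ}

theorem chkT_rel0 (h : an (shp V0) (relc V0 W) = true) (h1 : chkT c c' t p q W V1 V2 = true) :
    chkT c c' (.rel0 W t) p q V0 V1 V2 = true := by
  change an (shp V0) (an (relc V0 W) (chkT c c' t p q W V1 V2)) = true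
  rw [an_iff] at h ⊢
  exact ⟨h.1, an_iff.2 ⟨h.2, h1⟩⟩

theorem chkT_rel1 (h : an (shp V1) (relc V1 W) = true) (h1 : chkT c c' t p q V0 W V2 = true) :
    chkT c c' (.rel1 W t) p q V0 V1 V2 = true := by
  change an (shp V1) (an (relc V1 W) (chkT c c' t p q V0 W V2)) = true
  rw [an_iff] at h ⊢
  exact ⟨h.1, an_iff.2 ⟨h.2, h1⟩⟩

theorem chkT_rel2 (h : an (shp V2) (relc V2 W) = true) (h1 : chkT c c' t p q V0 V1 W = true) :
    chkT c c' (.rel2 W t) p q V0 V1 V2 = true := by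
  change an (shp V2) (an (relc V2 W) (chkT c c' t p q V0 V1 W)) = true
  rw [an_iff] at h ⊢
  exact ⟨h.1, an_iff.2 ⟨h.2, h1⟩⟩

theorem chkT_seg (h : mid p q m = true) (h1 : chkT c c' t1 p m V0 V1 V2 = true)
    (h2 : chkT c c' t2 m q V0 V1 V2 = true) :
    chkT c c' (.seg m t1 t2) p q V0 V1 V2 = true := by
  change an (mid p q m) (an (chkT c c' t1 p m V0 V1 V2) (chkT c c' t2 m q V0 V1 V2)) = true
  rw [an_iff]
  exact ⟨h, an_iff.2 ⟨h1, h2⟩⟩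

theorem chkT_cut0
    (h : an (shp V0) (an (child ax true n V0 W1) (child ax false n V0 W2)) = true)
    (h1 : chkT c c' t1 p q W1 V1 V2 = true) (h2 : chkT c c' t2 p q W2 V1 V2 = true) :
    chkT c c' (.cut0 ax n W1 W2 t1 t2) p q V0 V1 V2 = true := by
  change an (shp V0) (an (child ax true n V0 W1) (an (child ax false n V0 W2)
    (an (chkT c c' t1 p q W1 V1 V2) (chkT c c' t2 p q W2 V1 V2)))) = true
  rw [an_iff, an_iff] at h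
  exact an_iff.2 ⟨h.1, an_iff.2 ⟨h.2.1, an_iff.2 ⟨h.2.2, an_iff.2 ⟨h1, h2⟩⟩⟩⟩

theorem chkT_cut1
    (h : an (shp V1) (an (child ax true n V1 W1) (child ax false n V1 W2)) = true)
    (h1 : chkT c c' t1 p q V0 W1 V2 = true) (h2 : chkT c c' t2 p q V0 W2 V2 = true) :
    chkT c c' (.cut1 ax n W1 W2 t1 t2) p q V0 V1 V2 = true := by
  change an (shp V1) (an (child ax true n V1 W1) (an (child ax false n V1 W2)
    (an (chkT c c' t1 p q V0 W1 V2) (chkT c c' t2 p q V0 W2 V2)))) = true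
  rw [an_iff, an_iff] at h
  exact an_iff.2 ⟨h.1, an_iff.2 ⟨h.2.1, an_iff.2 ⟨h.2.2, an_iff.2 ⟨h1, h2⟩⟩⟩⟩

theorem chkT_cut2
    (h : an (shp V2) (an (child ax true n V2 W1) (child ax false n V2 W2)) = true)
    (h1 : chkT c c' t1 p q V0 V1 W1 = true) (h2 : chkT c c' t2 p q V0 V1 W2 = true) :
    chkT c c' (.cut2 ax n W1 W2 t1 t2) p q V0 V1 V2 = true := by
  change an (shp V2) (an (child ax true n V2 W1) (an (child ax false n V2 W2)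
    (an (chkT c c' t1 p q V0 V1 W1) (chkT c c' t2 p q V0 V1 W2)))) = true
  rw [an_iff, an_iff] at h
  exact an_iff.2 ⟨h.1, an_iff.2 ⟨h.2.1, an_iff.2 ⟨h.2.2, an_iff.2 ⟨h1, h2⟩⟩⟩⟩

end Pool.Agent.Work.MP_b30479_gtS.G2.SC

end

section

/-!
# Evaluation of the tensor form
-/

namespace Pool.Agent.Work.MP_b30479_gtS.G2.SC

open Finset

lemma app_rep (B : ℕ) (z : ℂ) : ∀ (d : ℕ) (a : ℕ → ℂ) (i : ℕ),
    app (List.replicate d (B, z)) a i =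
      ∑ k ∈ range (d + 1), (d.choose k : ℂ) * z ^ k * a (i + k * B) := by
  intro d
  induction d with
  | zero => intro a i; simp [app]
  | succ d ih =>
    intro a i
    rw [List.replicate_succ]
    show app (List.replicate d (B, z)) (sc B z a) i = _
    rw [ih]
    have e1 : ∑ k ∈ range (d + 1), (d.choose k : ℂ) * z ^ k * sc B z a (i + k * B) =
        ∑ k ∈ range (d + 1), (d.choose k : ℂ) * z ^ k * a (i + k * B) +
        ∑ k ∈ range (d + 1), (d.choose k : ℂ) * z ^ (k + 1) * a (i + (k + 1) * B) := by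
      rw [← Finset.sum_add_distrib]
      refine Finset.sum_congr rfl fun k _ => ?_
      simp only [sc]
      rw [show i + k * B + B = i + (k + 1) * B by ring]
      ring
    have e2 : ∑ k ∈ range (d + 1), (d.choose k : ℂ) * z ^ k * a (i + k * B) =
        ∑ k ∈ range (d + 1), (d.choose (k + 1) : ℂ) * z ^ (k + 1) * a (i + (k + 1) * B) + a i := by
      have : ∑ k ∈ range (d + 2), (d.choose k : ℂ) * z ^ k * a (i + k * B) =
          ∑ k ∈ range (d + 1), (d.choose k : ℂ) * z ^ k * a (i + k * B) := by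
        rw [Finset.sum_range_succ _ (d + 1), Nat.choose_succ_self]
        simp
      rw [← this, Finset.sum_range_succ' _ (d + 1)]
      simp
    rw [e1, e2, Finset.sum_range_succ' _ (d + 1)]
    simp only [Nat.choose_succ_succ, Nat.cast_add, Nat.choose_zero_right, Nat.cast_one, pow_zero,
      one_mul, mul_one, zero_mul, add_zero]
    rw [add_assoc, add_comm (a i), ← add_assoc, ← Finset.sum_add_distrib]
    congr 1
    refine Finset.sum_congr rfl fun k _ => ?_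
    ring

/-- the value of the tensor form -/
theorem app_slots (c : Cfg) (S Z0 Z1 Z2 : ℂ) (a : ℕ → ℂ) : app (slots c S Z0 Z1 Z2) a 0 =
    ∑ k3 ∈ range (c.d2 + 1 + 1), ((c.d2 + 1).choose k3 : ℂ) * mr c.m2 Z2 ^ k3 *
    ∑ k2 ∈ range (c.d1 + 1), (c.d1.choose k2 : ℂ) * mr c.m1 Z1 ^ k2 *
    ∑ k1 ∈ range (c.d0 + 1), (c.d0.choose k1 : ℂ) * mr c.m0 Z0 ^ k1 *
    ∑ k0 ∈ range (c.ds + 1), (c.ds.choose k0 : ℂ) * S ^ k0 *
      a (0 + k3 * 1 + k2 * c.B1 + k1 * c.B0 + k0 * c.Bs) := by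
  rw [slots, List.append_nil, app_append, app_append, app_append, app_rep]
  refine Finset.sum_congr rfl fun k3 _ => ?_
  rw [app_rep]
  congr 1
  refine Finset.sum_congr rfl fun k2 _ => ?_
  rw [app_rep]
  congr 1
  refine Finset.sum_congr rfl fun k1 _ => ?_
  rw [app_rep]

lemma rp_map (n : ℕ) (g : ℕ → G4) : Rp ((List.range n).map g) (fun i => (g i).v) := by
  intro i h
  rw [List.getElem_map, List.getElem_range]

lemma v_zero : (⟨0, 0, 0, 0⟩ : G4).v = 0 := by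
  apply Complex.ext <;> simp [G4.v]

lemma v_re (n : ℕ) : (⟨n, 0, 0, 0⟩ : G4).v = (n : ℂ) := by
  apply Complex.ext <;> simp [G4.v]

lemma v_neg (n : ℕ) : (⟨0, n, 0, 0⟩ : G4).v = -(n : ℂ) := by
  apply Complex.ext <;> simp [G4.v]

lemma v_im (n : ℕ) : (⟨0, 0, n, 0⟩ : G4).v = (n : ℂ) * Complex.I := by
  apply Complex.ext <;> simp [G4.v]

lemma v_imn (n : ℕ) : (⟨0, 0, 0, n⟩ : G4).v = -((n : ℂ) * Complex.I) := by
  apply Complex.ext <;> simp [G4.v]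

end Pool.Agent.Work.MP_b30479_gtS.G2.SC

end

section

/-!
# Tensors of the ring equations with 2, 3, 4 crossings
-/

set_option linter.unusedSimpArgs false
set_option linter.unusedTactic false
set_option linter.unreachableTactic false

namespace Pool.Agent.Work.MP_b30479_gtS.G2.SC

lemma I5 : Complex.I ^ 5 = Complex.I := by
  rw [show (5 : ℕ) = 4 + 1 from rfl, pow_succ, Complex.I_pow_four, one_mul]

lemma I6 : Complex.I ^ 6 = -1 := by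
  rw [show (6 : ℕ) = 4 + 2 from rfl, pow_add, Complex.I_pow_four, one_mul, Complex.I_sq]

lemma I7 : Complex.I ^ 7 = -Complex.I := by
  rw [show (7 : ℕ) = 4 + 3 from rfl, pow_add, Complex.I_pow_four, one_mul, Complex.I_pow_three]

lemma I8 : Complex.I ^ 8 = 1 := by
  rw [show (8 : ℕ) = 4 + 4 from rfl, pow_add, Complex.I_pow_four, one_mul]

/-- coefficients -/
def gF2mm (i : ℕ) : G4 :=
  if i = 2 then ⟨0, 1536000000, 0, 0⟩ else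
  if i = 4 then ⟨0, 768000000, 0, 0⟩ else
  if i = 6 then ⟨0, 1536000000, 0, 0⟩ else
  if i = 22 then ⟨1, 0, 0, 0⟩ else
  if i = 36 then ⟨24, 0, 0, 0⟩ else
  ⟨0, 0, 0, 0⟩

/-- configuration -/
def cF2mm : Cfg := ⟨4, 0, 2, 1, 9, 9, 3, false, true, true, [⟨0, 0, 0, 0⟩, ⟨0, 0, 0, 0⟩, ⟨0,
    1536000000, 0, 0⟩, ⟨0, 0, 0, 0⟩, ⟨0, 768000000, 0, 0⟩, ⟨0, 0, 0, 0⟩, ⟨0, 1536000000, 0, 0⟩,
    ⟨0, 0, 0, 0⟩, ⟨0, 0, 0, 0⟩, ⟨0, 0, 0, 0⟩, ⟨0, 0, 0, 0⟩, ⟨0, 0, 0, 0⟩, ⟨0, 0, 0, 0⟩, ⟨0, 0, 0,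
    0⟩, ⟨0, 0, 0, 0⟩, ⟨0, 0, 0, 0⟩, ⟨0, 0, 0, 0⟩, ⟨0, 0, 0, 0⟩, ⟨0, 0, 0, 0⟩, ⟨0, 0, 0, 0⟩, ⟨0, 0,
    0, 0⟩, ⟨0, 0, 0, 0⟩, ⟨1, 0, 0, 0⟩, ⟨0, 0, 0, 0⟩, ⟨0, 0, 0, 0⟩, ⟨0, 0, 0, 0⟩, ⟨0, 0, 0, 0⟩, ⟨0,
    0, 0, 0⟩, ⟨0, 0, 0, 0⟩, ⟨0, 0, 0, 0⟩, ⟨0, 0, 0, 0⟩, ⟨0, 0, 0, 0⟩, ⟨0, 0, 0, 0⟩, ⟨0, 0, 0, 0⟩,
    ⟨0, 0, 0, 0⟩, ⟨0, 0, 0, 0⟩, ⟨24, 0, 0, 0⟩, ⟨0, 0, 0, 0⟩, ⟨0, 0, 0, 0⟩, ⟨0, 0, 0, 0⟩, ⟨0, 0, 0,
    0⟩, ⟨0, 0, 0, 0⟩, ⟨0, 0, 0, 0⟩, ⟨0, 0, 0, 0⟩, ⟨0, 0, 0, 0⟩]⟩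

lemma rpF2mm : Rp cF2mm.L (fun i => (gF2mm i).v) := by
  have h : cF2mm.L = (List.range 45).map gF2mm := by rfl
  rw [h]
  exact rp_map _ _

lemma evF2mm {z k l Z0 Z1 Z2 : ℂ} (h1 : mr true Z1 = Complex.I * (16000 * k))
    (h2 : mr true Z2 = Complex.I * (16000 * l)) :
    app (slots cF2mm (16000 * z) Z0 Z1 Z2) (fun i => (gF2mm i).v) 0 =
      393216000000000000 * (k ^ 2 + l ^ 2 - 2 * k * l * (2 * z ^ 2 - 1) + (z * (2 * z)) ^ 2) := by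
  rw [app_slots]
  simp only [cF2mm, Finset.sum_range_succ, Finset.sum_range_zero, Nat.reduceAdd, Nat.reduceMul,
    zero_add, add_zero, gF2mm, Nat.reduceEqDiff, if_true, if_false, v_zero, v_re, v_neg, v_im, v_imn,
    mul_zero, h1, h2, Nat.cast_zero, OfNat.ofNat_ne_zero, OfNat.ofNat_eq_ofNat, Nat.reduceEqDiff, Nat.cast_ofNat]
  simp only [Nat.choose, Nat.reduceAdd, pow_zero, pow_one, mul_one, one_mul, Nat.cast_one,
    Nat.cast_ofNat, mul_pow, Complex.I_sq]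
  ring_nf
  try simp only [Complex.I_sq, Complex.I_pow_three, Complex.I_pow_four, I5, I6, I7, I8]
  try ring

/-- coefficients -/
def gF2mn (i : ℕ) : G4 :=
  if i = 2 then ⟨1536000000, 0, 0, 0⟩ else
  if i = 4 then ⟨0, 0, 0, 768000000⟩ else
  if i = 6 then ⟨0, 1536000000, 0, 0⟩ else
  if i = 22 then ⟨0, 0, 1, 0⟩ else
  if i = 36 then ⟨24, 0, 0, 0⟩ else
  ⟨0, 0, 0, 0⟩

/-- configuration -/
def cF2mn : Cfg := ⟨4, 0, 2, 1, 9, 9, 3, false, true, false, [⟨0, 0, 0, 0⟩, ⟨0, 0, 0, 0⟩,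
    ⟨1536000000, 0, 0, 0⟩, ⟨0, 0, 0, 0⟩, ⟨0, 0, 0, 768000000⟩, ⟨0, 0, 0, 0⟩, ⟨0, 1536000000, 0,
    0⟩, ⟨0, 0, 0, 0⟩, ⟨0, 0, 0, 0⟩, ⟨0, 0, 0, 0⟩, ⟨0, 0, 0, 0⟩, ⟨0, 0, 0, 0⟩, ⟨0, 0, 0, 0⟩, ⟨0, 0,
    0, 0⟩, ⟨0, 0, 0, 0⟩, ⟨0, 0, 0, 0⟩, ⟨0, 0, 0, 0⟩, ⟨0, 0, 0, 0⟩, ⟨0, 0, 0, 0⟩, ⟨0, 0, 0, 0⟩, ⟨0,
    0, 0, 0⟩, ⟨0, 0, 0, 0⟩, ⟨0, 0, 1, 0⟩, ⟨0, 0, 0, 0⟩, ⟨0, 0, 0, 0⟩, ⟨0, 0, 0, 0⟩, ⟨0, 0, 0, 0⟩,
    ⟨0, 0, 0, 0⟩, ⟨0, 0, 0, 0⟩, ⟨0, 0, 0, 0⟩, ⟨0, 0, 0, 0⟩, ⟨0, 0, 0, 0⟩, ⟨0, 0, 0, 0⟩, ⟨0, 0, 0,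
    0⟩, ⟨0, 0, 0, 0⟩, ⟨0, 0, 0, 0⟩, ⟨24, 0, 0, 0⟩, ⟨0, 0, 0, 0⟩, ⟨0, 0, 0, 0⟩, ⟨0, 0, 0, 0⟩, ⟨0,
    0, 0, 0⟩, ⟨0, 0, 0, 0⟩, ⟨0, 0, 0, 0⟩, ⟨0, 0, 0, 0⟩, ⟨0, 0, 0, 0⟩]⟩

lemma rpF2mn : Rp cF2mn.L (fun i => (gF2mn i).v) := by
  have h : cF2mn.L = (List.range 45).map gF2mn := by rfl
  rw [h]
  exact rp_map _ _

lemma evF2mn {z k l Z0 Z1 Z2 : ℂ} (h1 : mr true Z1 = Complex.I * (16000 * k))
    (h2 : mr false Z2 = 16000 * l) :
    app (slots cF2mn (16000 * z) Z0 Z1 Z2) (fun i => (gF2mn i).v) 0 =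
      393216000000000000 * (k ^ 2 + l ^ 2 - 2 * k * l * (2 * z ^ 2 - 1) + (z * (2 * z)) ^ 2) := by
  rw [app_slots]
  simp only [cF2mn, Finset.sum_range_succ, Finset.sum_range_zero, Nat.reduceAdd, Nat.reduceMul,
    zero_add, add_zero, gF2mn, Nat.reduceEqDiff, if_true, if_false, v_zero, v_re, v_neg, v_im, v_imn,
    mul_zero, h1, h2, Nat.cast_zero, OfNat.ofNat_ne_zero, OfNat.ofNat_eq_ofNat, Nat.reduceEqDiff, Nat.cast_ofNat]
  simp only [Nat.choose, Nat.reduceAdd, pow_zero, pow_one, mul_one, one_mul, Nat.cast_one,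
    Nat.cast_ofNat, mul_pow, Complex.I_sq]
  ring_nf
  try simp only [Complex.I_sq, Complex.I_pow_three, Complex.I_pow_four, I5, I6, I7, I8]
  try ring

/-- coefficients -/
def gG2m (i : ℕ) : G4 :=
  if i = 1 then ⟨0, 0, 0, 16000⟩ else
  if i = 4 then ⟨0, 0, 2, 0⟩ else
  ⟨0, 0, 0, 0⟩

/-- configuration -/
def cG2m : Cfg := ⟨2, 0, 0, 0, 2, 2, 2, false, false, true, [⟨0, 0, 0, 0⟩, ⟨0, 0, 0, 16000⟩, ⟨0,
    0, 0, 0⟩, ⟨0, 0, 0, 0⟩, ⟨0, 0, 2, 0⟩, ⟨0, 0, 0, 0⟩]⟩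

lemma rpG2m : Rp cG2m.L (fun i => (gG2m i).v) := by
  have h : cG2m.L = (List.range 6).map gG2m := by rfl
  rw [h]
  exact rp_map _ _

lemma evG2m {z k Z0 Z1 Z2 : ℂ} (h2 : mr true Z2 = Complex.I * (16000 * k)) :
    app (slots cG2m (16000 * z) Z0 Z1 Z2) (fun i => (gG2m i).v) 0 =
      256000000 * (k + Complex.I * z * (2 * z)) := by
  rw [app_slots]
  simp only [cG2m, Finset.sum_range_succ, Finset.sum_range_zero, Nat.reduceAdd, Nat.reduceMul,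
    zero_add, add_zero, gG2m, Nat.reduceEqDiff, if_true, if_false, v_zero, v_re, v_neg, v_im, v_imn,
    mul_zero, h2, Nat.cast_zero, OfNat.ofNat_ne_zero, OfNat.ofNat_eq_ofNat, Nat.reduceEqDiff, Nat.cast_ofNat]
  simp only [Nat.choose, Nat.reduceAdd, pow_zero, pow_one, mul_one, one_mul, Nat.cast_one,
    Nat.cast_ofNat, mul_pow, Complex.I_sq]
  ring_nf
  try simp only [Complex.I_sq, Complex.I_pow_three, Complex.I_pow_four, I5, I6, I7, I8]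
  try ring

/-- coefficients -/
def gF3mm (i : ℕ) : G4 :=
  if i = 2 then ⟨0, 3932160000000000000, 0, 0⟩ else
  if i = 6 then ⟨0, 3932160000000000000, 0, 0⟩ else
  if i = 13 then ⟨0, 61440000000000, 0, 0⟩ else
  if i = 18 then ⟨262144000000000000, 0, 0, 0⟩ else
  if i = 31 then ⟨96000, 0, 0, 0⟩ else
  if i = 36 then ⟨0, 8192000000, 0, 0⟩ else
  if i = 54 then ⟨960, 0, 0, 0⟩ else
  ⟨0, 0, 0, 0⟩

/-- configuration -/
def cF3mm : Cfg := ⟨6, 0, 2, 1, 9, 9, 3, false, true, true, [⟨0, 0, 0, 0⟩, ⟨0, 0, 0, 0⟩, ⟨0,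
    3932160000000000000, 0, 0⟩, ⟨0, 0, 0, 0⟩, ⟨0, 0, 0, 0⟩, ⟨0, 0, 0, 0⟩, ⟨0, 3932160000000000000,
    0, 0⟩, ⟨0, 0, 0, 0⟩, ⟨0, 0, 0, 0⟩, ⟨0, 0, 0, 0⟩, ⟨0, 0, 0, 0⟩, ⟨0, 0, 0, 0⟩, ⟨0, 0, 0, 0⟩, ⟨0,
    61440000000000, 0, 0⟩, ⟨0, 0, 0, 0⟩, ⟨0, 0, 0, 0⟩, ⟨0, 0, 0, 0⟩, ⟨0, 0, 0, 0⟩,
    ⟨262144000000000000, 0, 0, 0⟩, ⟨0, 0, 0, 0⟩, ⟨0, 0, 0, 0⟩, ⟨0, 0, 0, 0⟩, ⟨0, 0, 0, 0⟩, ⟨0, 0,
    0, 0⟩, ⟨0, 0, 0, 0⟩, ⟨0, 0, 0, 0⟩, ⟨0, 0, 0, 0⟩, ⟨0, 0, 0, 0⟩, ⟨0, 0, 0, 0⟩, ⟨0, 0, 0, 0⟩, ⟨0,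
    0, 0, 0⟩, ⟨96000, 0, 0, 0⟩, ⟨0, 0, 0, 0⟩, ⟨0, 0, 0, 0⟩, ⟨0, 0, 0, 0⟩, ⟨0, 0, 0, 0⟩, ⟨0,
    8192000000, 0, 0⟩, ⟨0, 0, 0, 0⟩, ⟨0, 0, 0, 0⟩, ⟨0, 0, 0, 0⟩, ⟨0, 0, 0, 0⟩, ⟨0, 0, 0, 0⟩, ⟨0,
    0, 0, 0⟩, ⟨0, 0, 0, 0⟩, ⟨0, 0, 0, 0⟩, ⟨0, 0, 0, 0⟩, ⟨0, 0, 0, 0⟩, ⟨0, 0, 0, 0⟩, ⟨0, 0, 0, 0⟩,
    ⟨0, 0, 0, 0⟩, ⟨0, 0, 0, 0⟩, ⟨0, 0, 0, 0⟩, ⟨0, 0, 0, 0⟩, ⟨0, 0, 0, 0⟩, ⟨960, 0, 0, 0⟩, ⟨0, 0,
    0, 0⟩, ⟨0, 0, 0, 0⟩, ⟨0, 0, 0, 0⟩, ⟨0, 0, 0, 0⟩, ⟨0, 0, 0, 0⟩, ⟨0, 0, 0, 0⟩, ⟨0, 0, 0, 0⟩, ⟨0,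
    0, 0, 0⟩]⟩

lemma rpF3mm : Rp cF3mm.L (fun i => (gF3mm i).v) := by
  have h : cF3mm.L = (List.range 63).map gF3mm := by rfl
  rw [h]
  exact rp_map _ _

lemma evF3mm {z k l Z0 Z1 Z2 : ℂ} (h1 : mr true Z1 = Complex.I * (16000 * k))
    (h2 : mr true Z2 = Complex.I * (16000 * l)) :
    app (slots cF3mm (16000 * z) Z0 Z1 Z2) (fun i => (gF3mm i).v) 0 =
      1006632960000000000000000000 * (k ^ 2 + l ^ 2 - 2 * k * l * (4 * z ^ 3 - 3 * z) + (z * (4 * z ^ 2 - 1)) ^ 2) := by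
  rw [app_slots]
  simp only [cF3mm, Finset.sum_range_succ, Finset.sum_range_zero, Nat.reduceAdd, Nat.reduceMul,
    zero_add, add_zero, gF3mm, Nat.reduceEqDiff, if_true, if_false, v_zero, v_re, v_neg, v_im, v_imn,
    mul_zero, h1, h2, Nat.cast_zero, OfNat.ofNat_ne_zero, OfNat.ofNat_eq_ofNat, Nat.reduceEqDiff, Nat.cast_ofNat]
  simp only [Nat.choose, Nat.reduceAdd, pow_zero, pow_one, mul_one, one_mul, Nat.cast_one,
    Nat.cast_ofNat, mul_pow, Complex.I_sq]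
  ring_nf
  try simp only [Complex.I_sq, Complex.I_pow_three, Complex.I_pow_four, I5, I6, I7, I8]
  try ring

/-- coefficients -/
def gF3mn (i : ℕ) : G4 :=
  if i = 2 then ⟨3932160000000000000, 0, 0, 0⟩ else
  if i = 6 then ⟨0, 3932160000000000000, 0, 0⟩ else
  if i = 13 then ⟨0, 0, 0, 61440000000000⟩ else
  if i = 18 then ⟨262144000000000000, 0, 0, 0⟩ else
  if i = 31 then ⟨0, 0, 96000, 0⟩ else
  if i = 36 then ⟨0, 8192000000, 0, 0⟩ else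
  if i = 54 then ⟨960, 0, 0, 0⟩ else
  ⟨0, 0, 0, 0⟩

/-- configuration -/
def cF3mn : Cfg := ⟨6, 0, 2, 1, 9, 9, 3, false, true, false, [⟨0, 0, 0, 0⟩, ⟨0, 0, 0, 0⟩,
    ⟨3932160000000000000, 0, 0, 0⟩, ⟨0, 0, 0, 0⟩, ⟨0, 0, 0, 0⟩, ⟨0, 0, 0, 0⟩, ⟨0,
    3932160000000000000, 0, 0⟩, ⟨0, 0, 0, 0⟩, ⟨0, 0, 0, 0⟩, ⟨0, 0, 0, 0⟩, ⟨0, 0, 0, 0⟩, ⟨0, 0, 0,
    0⟩, ⟨0, 0, 0, 0⟩, ⟨0, 0, 0, 61440000000000⟩, ⟨0, 0, 0, 0⟩, ⟨0, 0, 0, 0⟩, ⟨0, 0, 0, 0⟩, ⟨0, 0,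
    0, 0⟩, ⟨262144000000000000, 0, 0, 0⟩, ⟨0, 0, 0, 0⟩, ⟨0, 0, 0, 0⟩, ⟨0, 0, 0, 0⟩, ⟨0, 0, 0, 0⟩,
    ⟨0, 0, 0, 0⟩, ⟨0, 0, 0, 0⟩, ⟨0, 0, 0, 0⟩, ⟨0, 0, 0, 0⟩, ⟨0, 0, 0, 0⟩, ⟨0, 0, 0, 0⟩, ⟨0, 0, 0,
    0⟩, ⟨0, 0, 0, 0⟩, ⟨0, 0, 96000, 0⟩, ⟨0, 0, 0, 0⟩, ⟨0, 0, 0, 0⟩, ⟨0, 0, 0, 0⟩, ⟨0, 0, 0, 0⟩,
    ⟨0, 8192000000, 0, 0⟩, ⟨0, 0, 0, 0⟩, ⟨0, 0, 0, 0⟩, ⟨0, 0, 0, 0⟩, ⟨0, 0, 0, 0⟩, ⟨0, 0, 0, 0⟩,
    ⟨0, 0, 0, 0⟩, ⟨0, 0, 0, 0⟩, ⟨0, 0, 0, 0⟩, ⟨0, 0, 0, 0⟩, ⟨0, 0, 0, 0⟩, ⟨0, 0, 0, 0⟩, ⟨0, 0, 0,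
    0⟩, ⟨0, 0, 0, 0⟩, ⟨0, 0, 0, 0⟩, ⟨0, 0, 0, 0⟩, ⟨0, 0, 0, 0⟩, ⟨0, 0, 0, 0⟩, ⟨960, 0, 0, 0⟩, ⟨0,
    0, 0, 0⟩, ⟨0, 0, 0, 0⟩, ⟨0, 0, 0, 0⟩, ⟨0, 0, 0, 0⟩, ⟨0, 0, 0, 0⟩, ⟨0, 0, 0, 0⟩, ⟨0, 0, 0, 0⟩,
    ⟨0, 0, 0, 0⟩]⟩

lemma rpF3mn : Rp cF3mn.L (fun i => (gF3mn i).v) := by
  have h : cF3mn.L = (List.range 63).map gF3mn := by rfl
  rw [h]
  exact rp_map _ _

lemma evF3mn {z k l Z0 Z1 Z2 : ℂ} (h1 : mr true Z1 = Complex.I * (16000 * k))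
    (h2 : mr false Z2 = 16000 * l) :
    app (slots cF3mn (16000 * z) Z0 Z1 Z2) (fun i => (gF3mn i).v) 0 =
      1006632960000000000000000000 * (k ^ 2 + l ^ 2 - 2 * k * l * (4 * z ^ 3 - 3 * z) + (z * (4 * z ^ 2 - 1)) ^ 2) := by
  rw [app_slots]
  simp only [cF3mn, Finset.sum_range_succ, Finset.sum_range_zero, Nat.reduceAdd, Nat.reduceMul,
    zero_add, add_zero, gF3mn, Nat.reduceEqDiff, if_true, if_false, v_zero, v_re, v_neg, v_im, v_imn,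
    mul_zero, h1, h2, Nat.cast_zero, OfNat.ofNat_ne_zero, OfNat.ofNat_eq_ofNat, Nat.reduceEqDiff, Nat.cast_ofNat]
  simp only [Nat.choose, Nat.reduceAdd, pow_zero, pow_one, mul_one, one_mul, Nat.cast_one,
    Nat.cast_ofNat, mul_pow, Complex.I_sq]
  ring_nf
  try simp only [Complex.I_sq, Complex.I_pow_three, Complex.I_pow_four, I5, I6, I7, I8]
  try ring

/-- coefficients -/
def gF3nn (i : ℕ) : G4 :=
  if i = 2 then ⟨3932160000000000000, 0, 0, 0⟩ else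
  if i = 6 then ⟨3932160000000000000, 0, 0, 0⟩ else
  if i = 13 then ⟨61440000000000, 0, 0, 0⟩ else
  if i = 18 then ⟨262144000000000000, 0, 0, 0⟩ else
  if i = 31 then ⟨0, 96000, 0, 0⟩ else
  if i = 36 then ⟨0, 8192000000, 0, 0⟩ else
  if i = 54 then ⟨960, 0, 0, 0⟩ else
  ⟨0, 0, 0, 0⟩

/-- configuration -/
def cF3nn : Cfg := ⟨6, 0, 2, 1, 9, 9, 3, false, false, false, [⟨0, 0, 0, 0⟩, ⟨0, 0, 0, 0⟩,
    ⟨3932160000000000000, 0, 0, 0⟩, ⟨0, 0, 0, 0⟩, ⟨0, 0, 0, 0⟩, ⟨0, 0, 0, 0⟩,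
    ⟨3932160000000000000, 0, 0, 0⟩, ⟨0, 0, 0, 0⟩, ⟨0, 0, 0, 0⟩, ⟨0, 0, 0, 0⟩, ⟨0, 0, 0, 0⟩, ⟨0, 0,
    0, 0⟩, ⟨0, 0, 0, 0⟩, ⟨61440000000000, 0, 0, 0⟩, ⟨0, 0, 0, 0⟩, ⟨0, 0, 0, 0⟩, ⟨0, 0, 0, 0⟩, ⟨0,
    0, 0, 0⟩, ⟨262144000000000000, 0, 0, 0⟩, ⟨0, 0, 0, 0⟩, ⟨0, 0, 0, 0⟩, ⟨0, 0, 0, 0⟩, ⟨0, 0, 0,
    0⟩, ⟨0, 0, 0, 0⟩, ⟨0, 0, 0, 0⟩, ⟨0, 0, 0, 0⟩, ⟨0, 0, 0, 0⟩, ⟨0, 0, 0, 0⟩, ⟨0, 0, 0, 0⟩, ⟨0, 0,
    0, 0⟩, ⟨0, 0, 0, 0⟩, ⟨0, 96000, 0, 0⟩, ⟨0, 0, 0, 0⟩, ⟨0, 0, 0, 0⟩, ⟨0, 0, 0, 0⟩, ⟨0, 0, 0, 0⟩,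
    ⟨0, 8192000000, 0, 0⟩, ⟨0, 0, 0, 0⟩, ⟨0, 0, 0, 0⟩, ⟨0, 0, 0, 0⟩, ⟨0, 0, 0, 0⟩, ⟨0, 0, 0, 0⟩,
    ⟨0, 0, 0, 0⟩, ⟨0, 0, 0, 0⟩, ⟨0, 0, 0, 0⟩, ⟨0, 0, 0, 0⟩, ⟨0, 0, 0, 0⟩, ⟨0, 0, 0, 0⟩, ⟨0, 0, 0,
    0⟩, ⟨0, 0, 0, 0⟩, ⟨0, 0, 0, 0⟩, ⟨0, 0, 0, 0⟩, ⟨0, 0, 0, 0⟩, ⟨0, 0, 0, 0⟩, ⟨960, 0, 0, 0⟩, ⟨0,
    0, 0, 0⟩, ⟨0, 0, 0, 0⟩, ⟨0, 0, 0, 0⟩, ⟨0, 0, 0, 0⟩, ⟨0, 0, 0, 0⟩, ⟨0, 0, 0, 0⟩, ⟨0, 0, 0, 0⟩,
    ⟨0, 0, 0, 0⟩]⟩

lemma rpF3nn : Rp cF3nn.L (fun i => (gF3nn i).v) := by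
  have h : cF3nn.L = (List.range 63).map gF3nn := by rfl
  rw [h]
  exact rp_map _ _

lemma evF3nn {z k l Z0 Z1 Z2 : ℂ} (h1 : mr false Z1 = 16000 * k)
    (h2 : mr false Z2 = 16000 * l) :
    app (slots cF3nn (16000 * z) Z0 Z1 Z2) (fun i => (gF3nn i).v) 0 =
      1006632960000000000000000000 * (k ^ 2 + l ^ 2 - 2 * k * l * (4 * z ^ 3 - 3 * z) + (z * (4 * z ^ 2 - 1)) ^ 2) := by
  rw [app_slots]
  simp only [cF3nn, Finset.sum_range_succ, Finset.sum_range_zero, Nat.reduceAdd, Nat.reduceMul,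
    zero_add, add_zero, gF3nn, Nat.reduceEqDiff, if_true, if_false, v_zero, v_re, v_neg, v_im, v_imn,
    mul_zero, h1, h2, Nat.cast_zero, OfNat.ofNat_ne_zero, OfNat.ofNat_eq_ofNat, Nat.reduceEqDiff, Nat.cast_ofNat]
  simp only [Nat.choose, Nat.reduceAdd, pow_zero, pow_one, mul_one, one_mul, Nat.cast_one,
    Nat.cast_ofNat, mul_pow, Complex.I_sq]
  ring_nf
  try simp only [Complex.I_sq, Complex.I_pow_three, Complex.I_pow_four, I5, I6, I7, I8]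
  try ring

/-- coefficients -/
def gG3m (i : ℕ) : G4 :=
  if i = 1 then ⟨0, 0, 0, 768000000⟩ else
  if i = 2 then ⟨0, 0, 0, 256000000⟩ else
  if i = 6 then ⟨0, 0, 12, 0⟩ else
  ⟨0, 0, 0, 0⟩

/-- configuration -/
def cG3m : Cfg := ⟨3, 0, 0, 0, 2, 2, 2, false, false, true, [⟨0, 0, 0, 0⟩, ⟨0, 0, 0, 768000000⟩,
    ⟨0, 0, 0, 256000000⟩, ⟨0, 0, 0, 0⟩, ⟨0, 0, 0, 0⟩, ⟨0, 0, 0, 0⟩, ⟨0, 0, 12, 0⟩, ⟨0, 0, 0, 0⟩]⟩

lemma rpG3m : Rp cG3m.L (fun i => (gG3m i).v) := by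
  have h : cG3m.L = (List.range 8).map gG3m := by rfl
  rw [h]
  exact rp_map _ _

lemma evG3m {z k Z0 Z1 Z2 : ℂ} (h2 : mr true Z2 = Complex.I * (16000 * k)) :
    app (slots cG3m (16000 * z) Z0 Z1 Z2) (fun i => (gG3m i).v) 0 =
      12288000000000 * (k + Complex.I * z * (4 * z ^ 2 - 1)) := by
  rw [app_slots]
  simp only [cG3m, Finset.sum_range_succ, Finset.sum_range_zero, Nat.reduceAdd, Nat.reduceMul,
    zero_add, add_zero, gG3m, Nat.reduceEqDiff, if_true, if_false, v_zero, v_re, v_neg, v_im, v_imn,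
    mul_zero, h2, Nat.cast_zero, OfNat.ofNat_ne_zero, OfNat.ofNat_eq_ofNat, Nat.reduceEqDiff, Nat.cast_ofNat]
  simp only [Nat.choose, Nat.reduceAdd, pow_zero, pow_one, mul_one, one_mul, Nat.cast_one,
    Nat.cast_ofNat, mul_pow, Complex.I_sq]
  ring_nf
  try simp only [Complex.I_sq, Complex.I_pow_three, Complex.I_pow_four, I5, I6, I7, I8]
  try ring

/-- coefficients -/
def gG3n (i : ℕ) : G4 :=
  if i = 1 then ⟨768000000, 0, 0, 0⟩ else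
  if i = 2 then ⟨0, 0, 0, 256000000⟩ else
  if i = 6 then ⟨0, 0, 12, 0⟩ else
  ⟨0, 0, 0, 0⟩

/-- configuration -/
def cG3n : Cfg := ⟨3, 0, 0, 0, 2, 2, 2, false, false, false, [⟨0, 0, 0, 0⟩, ⟨768000000, 0, 0, 0⟩,
    ⟨0, 0, 0, 256000000⟩, ⟨0, 0, 0, 0⟩, ⟨0, 0, 0, 0⟩, ⟨0, 0, 0, 0⟩, ⟨0, 0, 12, 0⟩, ⟨0, 0, 0, 0⟩]⟩

lemma rpG3n : Rp cG3n.L (fun i => (gG3n i).v) := by
  have h : cG3n.L = (List.range 8).map gG3n := by rfl
  rw [h]
  exact rp_map _ _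

lemma evG3n {z k Z0 Z1 Z2 : ℂ} (h2 : mr false Z2 = 16000 * k) :
    app (slots cG3n (16000 * z) Z0 Z1 Z2) (fun i => (gG3n i).v) 0 =
      12288000000000 * (k + Complex.I * z * (4 * z ^ 2 - 1)) := by
  rw [app_slots]
  simp only [cG3n, Finset.sum_range_succ, Finset.sum_range_zero, Nat.reduceAdd, Nat.reduceMul,
    zero_add, add_zero, gG3n, Nat.reduceEqDiff, if_true, if_false, v_zero, v_re, v_neg, v_im, v_imn,
    mul_zero, h2, Nat.cast_zero, OfNat.ofNat_ne_zero, OfNat.ofNat_eq_ofNat, Nat.reduceEqDiff, Nat.cast_ofNat]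
  simp only [Nat.choose, Nat.reduceAdd, pow_zero, pow_one, mul_one, one_mul, Nat.cast_one,
    Nat.cast_ofNat, mul_pow, Complex.I_sq]
  ring_nf
  try simp only [Complex.I_sq, Complex.I_pow_three, Complex.I_pow_four, I5, I6, I7, I8]
  try ring

/-- coefficients -/
def gF4mm (i : ℕ) : G4 :=
  if i = 2 then ⟨0, 1174405120000000000000000000, 0, 0⟩ else
  if i = 4 then ⟨587202560000000000000000000, 0, 0, 0⟩ else
  if i = 6 then ⟨0, 1174405120000000000000000000, 0, 0⟩ else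
  if i = 22 then ⟨0, 655360000000000000, 0, 0⟩ else
  if i = 36 then ⟨1048576000000000000, 0, 0, 0⟩ else
  if i = 40 then ⟨1024000000, 0, 0, 0⟩ else
  if i = 54 then ⟨0, 40960000000, 0, 0⟩ else
  if i = 72 then ⟨4480, 0, 0, 0⟩ else
  ⟨0, 0, 0, 0⟩

/-- configuration -/
def cF4mm : Cfg := ⟨8, 0, 2, 1, 9, 9, 3, false, true, true, [⟨0, 0, 0, 0⟩, ⟨0, 0, 0, 0⟩, ⟨0,
    1174405120000000000000000000, 0, 0⟩, ⟨0, 0, 0, 0⟩, ⟨587202560000000000000000000, 0, 0, 0⟩, ⟨0,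
    0, 0, 0⟩, ⟨0, 1174405120000000000000000000, 0, 0⟩, ⟨0, 0, 0, 0⟩, ⟨0, 0, 0, 0⟩, ⟨0, 0, 0, 0⟩,
    ⟨0, 0, 0, 0⟩, ⟨0, 0, 0, 0⟩, ⟨0, 0, 0, 0⟩, ⟨0, 0, 0, 0⟩, ⟨0, 0, 0, 0⟩, ⟨0, 0, 0, 0⟩, ⟨0, 0, 0,
    0⟩, ⟨0, 0, 0, 0⟩, ⟨0, 0, 0, 0⟩, ⟨0, 0, 0, 0⟩, ⟨0, 0, 0, 0⟩, ⟨0, 0, 0, 0⟩, ⟨0,
    655360000000000000, 0, 0⟩, ⟨0, 0, 0, 0⟩, ⟨0, 0, 0, 0⟩, ⟨0, 0, 0, 0⟩, ⟨0, 0, 0, 0⟩, ⟨0, 0, 0,
    0⟩, ⟨0, 0, 0, 0⟩, ⟨0, 0, 0, 0⟩, ⟨0, 0, 0, 0⟩, ⟨0, 0, 0, 0⟩, ⟨0, 0, 0, 0⟩, ⟨0, 0, 0, 0⟩, ⟨0, 0,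
    0, 0⟩, ⟨0, 0, 0, 0⟩, ⟨1048576000000000000, 0, 0, 0⟩, ⟨0, 0, 0, 0⟩, ⟨0, 0, 0, 0⟩, ⟨0, 0, 0, 0⟩,
    ⟨1024000000, 0, 0, 0⟩, ⟨0, 0, 0, 0⟩, ⟨0, 0, 0, 0⟩, ⟨0, 0, 0, 0⟩, ⟨0, 0, 0, 0⟩, ⟨0, 0, 0, 0⟩,
    ⟨0, 0, 0, 0⟩, ⟨0, 0, 0, 0⟩, ⟨0, 0, 0, 0⟩, ⟨0, 0, 0, 0⟩, ⟨0, 0, 0, 0⟩, ⟨0, 0, 0, 0⟩, ⟨0, 0, 0,
    0⟩, ⟨0, 0, 0, 0⟩, ⟨0, 40960000000, 0, 0⟩, ⟨0, 0, 0, 0⟩, ⟨0, 0, 0, 0⟩, ⟨0, 0, 0, 0⟩, ⟨0, 0, 0,
    0⟩, ⟨0, 0, 0, 0⟩, ⟨0, 0, 0, 0⟩, ⟨0, 0, 0, 0⟩, ⟨0, 0, 0, 0⟩, ⟨0, 0, 0, 0⟩, ⟨0, 0, 0, 0⟩, ⟨0, 0,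
    0, 0⟩, ⟨0, 0, 0, 0⟩, ⟨0, 0, 0, 0⟩, ⟨0, 0, 0, 0⟩, ⟨0, 0, 0, 0⟩, ⟨0, 0, 0, 0⟩, ⟨0, 0, 0, 0⟩,
    ⟨4480, 0, 0, 0⟩, ⟨0, 0, 0, 0⟩, ⟨0, 0, 0, 0⟩, ⟨0, 0, 0, 0⟩, ⟨0, 0, 0, 0⟩, ⟨0, 0, 0, 0⟩, ⟨0, 0,
    0, 0⟩, ⟨0, 0, 0, 0⟩, ⟨0, 0, 0, 0⟩]⟩

lemma rpF4mm : Rp cF4mm.L (fun i => (gF4mm i).v) := by
  have h : cF4mm.L = (List.range 81).map gF4mm := by rfl
  rw [h]
  exact rp_map _ _

lemma evF4mm {z k l Z0 Z1 Z2 : ℂ} (h1 : mr true Z1 = Complex.I * (16000 * k))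
    (h2 : mr true Z2 = Complex.I * (16000 * l)) :
    app (slots cF4mm (16000 * z) Z0 Z1 Z2) (fun i => (gF4mm i).v) 0 =
      300647710720000000000000000000000000 * (k ^ 2 + l ^ 2 - 2 * k * l * (8 * z ^ 4 - 8 * z ^ 2 + 1) + (z * (8 * z ^ 3 - 4 * z)) ^ 2) := by
  rw [app_slots]
  simp only [cF4mm, Finset.sum_range_succ, Finset.sum_range_zero, Nat.reduceAdd, Nat.reduceMul,
    zero_add, add_zero, gF4mm, Nat.reduceEqDiff, if_true, if_false, v_zero, v_re, v_neg, v_im, v_imn,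
    mul_zero, h1, h2, Nat.cast_zero, OfNat.ofNat_ne_zero, OfNat.ofNat_eq_ofNat, Nat.reduceEqDiff, Nat.cast_ofNat]
  simp only [Nat.choose, Nat.reduceAdd, pow_zero, pow_one, mul_one, one_mul, Nat.cast_one,
    Nat.cast_ofNat, mul_pow, Complex.I_sq]
  ring_nf
  try simp only [Complex.I_sq, Complex.I_pow_three, Complex.I_pow_four, I5, I6, I7, I8]
  try ring

/-- coefficients -/
def gF4mn (i : ℕ) : G4 :=
  if i = 2 then ⟨1174405120000000000000000000, 0, 0, 0⟩ else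
  if i = 4 then ⟨0, 0, 587202560000000000000000000, 0⟩ else
  if i = 6 then ⟨0, 1174405120000000000000000000, 0, 0⟩ else
  if i = 22 then ⟨0, 0, 0, 655360000000000000⟩ else
  if i = 36 then ⟨1048576000000000000, 0, 0, 0⟩ else
  if i = 40 then ⟨0, 0, 1024000000, 0⟩ else
  if i = 54 then ⟨0, 40960000000, 0, 0⟩ else
  if i = 72 then ⟨4480, 0, 0, 0⟩ else
  ⟨0, 0, 0, 0⟩

/-- configuration -/
def cF4mn : Cfg := ⟨8, 0, 2, 1, 9, 9, 3, false, true, false, [⟨0, 0, 0, 0⟩, ⟨0, 0, 0, 0⟩,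
    ⟨1174405120000000000000000000, 0, 0, 0⟩, ⟨0, 0, 0, 0⟩, ⟨0, 0, 587202560000000000000000000, 0⟩,
    ⟨0, 0, 0, 0⟩, ⟨0, 1174405120000000000000000000, 0, 0⟩, ⟨0, 0, 0, 0⟩, ⟨0, 0, 0, 0⟩, ⟨0, 0, 0,
    0⟩, ⟨0, 0, 0, 0⟩, ⟨0, 0, 0, 0⟩, ⟨0, 0, 0, 0⟩, ⟨0, 0, 0, 0⟩, ⟨0, 0, 0, 0⟩, ⟨0, 0, 0, 0⟩, ⟨0, 0,
    0, 0⟩, ⟨0, 0, 0, 0⟩, ⟨0, 0, 0, 0⟩, ⟨0, 0, 0, 0⟩, ⟨0, 0, 0, 0⟩, ⟨0, 0, 0, 0⟩, ⟨0, 0, 0,
    655360000000000000⟩, ⟨0, 0, 0, 0⟩, ⟨0, 0, 0, 0⟩, ⟨0, 0, 0, 0⟩, ⟨0, 0, 0, 0⟩, ⟨0, 0, 0, 0⟩, ⟨0,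
    0, 0, 0⟩, ⟨0, 0, 0, 0⟩, ⟨0, 0, 0, 0⟩, ⟨0, 0, 0, 0⟩, ⟨0, 0, 0, 0⟩, ⟨0, 0, 0, 0⟩, ⟨0, 0, 0, 0⟩,
    ⟨0, 0, 0, 0⟩, ⟨1048576000000000000, 0, 0, 0⟩, ⟨0, 0, 0, 0⟩, ⟨0, 0, 0, 0⟩, ⟨0, 0, 0, 0⟩, ⟨0, 0,
    1024000000, 0⟩, ⟨0, 0, 0, 0⟩, ⟨0, 0, 0, 0⟩, ⟨0, 0, 0, 0⟩, ⟨0, 0, 0, 0⟩, ⟨0, 0, 0, 0⟩, ⟨0, 0,
    0, 0⟩, ⟨0, 0, 0, 0⟩, ⟨0, 0, 0, 0⟩, ⟨0, 0, 0, 0⟩, ⟨0, 0, 0, 0⟩, ⟨0, 0, 0, 0⟩, ⟨0, 0, 0, 0⟩, ⟨0,
    0, 0, 0⟩, ⟨0, 40960000000, 0, 0⟩, ⟨0, 0, 0, 0⟩, ⟨0, 0, 0, 0⟩, ⟨0, 0, 0, 0⟩, ⟨0, 0, 0, 0⟩, ⟨0,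
    0, 0, 0⟩, ⟨0, 0, 0, 0⟩, ⟨0, 0, 0, 0⟩, ⟨0, 0, 0, 0⟩, ⟨0, 0, 0, 0⟩, ⟨0, 0, 0, 0⟩, ⟨0, 0, 0, 0⟩,
    ⟨0, 0, 0, 0⟩, ⟨0, 0, 0, 0⟩, ⟨0, 0, 0, 0⟩, ⟨0, 0, 0, 0⟩, ⟨0, 0, 0, 0⟩, ⟨0, 0, 0, 0⟩, ⟨4480, 0,
    0, 0⟩, ⟨0, 0, 0, 0⟩, ⟨0, 0, 0, 0⟩, ⟨0, 0, 0, 0⟩, ⟨0, 0, 0, 0⟩, ⟨0, 0, 0, 0⟩, ⟨0, 0, 0, 0⟩, ⟨0,
    0, 0, 0⟩, ⟨0, 0, 0, 0⟩]⟩

lemma rpF4mn : Rp cF4mn.L (fun i => (gF4mn i).v) := by
  have h : cF4mn.L = (List.range 81).map gF4mn := by rfl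
  rw [h]
  exact rp_map _ _

lemma evF4mn {z k l Z0 Z1 Z2 : ℂ} (h1 : mr true Z1 = Complex.I * (16000 * k))
    (h2 : mr false Z2 = 16000 * l) :
    app (slots cF4mn (16000 * z) Z0 Z1 Z2) (fun i => (gF4mn i).v) 0 =
      300647710720000000000000000000000000 * (k ^ 2 + l ^ 2 - 2 * k * l * (8 * z ^ 4 - 8 * z ^ 2 + 1) + (z * (8 * z ^ 3 - 4 * z)) ^ 2) := by
  rw [app_slots]
  simp only [cF4mn, Finset.sum_range_succ, Finset.sum_range_zero, Nat.reduceAdd, Nat.reduceMul,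
    zero_add, add_zero, gF4mn, Nat.reduceEqDiff, if_true, if_false, v_zero, v_re, v_neg, v_im, v_imn,
    mul_zero, h1, h2, Nat.cast_zero, OfNat.ofNat_ne_zero, OfNat.ofNat_eq_ofNat, Nat.reduceEqDiff, Nat.cast_ofNat]
  simp only [Nat.choose, Nat.reduceAdd, pow_zero, pow_one, mul_one, one_mul, Nat.cast_one,
    Nat.cast_ofNat, mul_pow, Complex.I_sq]
  ring_nf
  try simp only [Complex.I_sq, Complex.I_pow_three, Complex.I_pow_four, I5, I6, I7, I8]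
  try ring

/-- coefficients -/
def gF4nn (i : ℕ) : G4 :=
  if i = 2 then ⟨1174405120000000000000000000, 0, 0, 0⟩ else
  if i = 4 then ⟨0, 587202560000000000000000000, 0, 0⟩ else
  if i = 6 then ⟨1174405120000000000000000000, 0, 0, 0⟩ else
  if i = 22 then ⟨655360000000000000, 0, 0, 0⟩ else
  if i = 36 then ⟨1048576000000000000, 0, 0, 0⟩ else
  if i = 40 then ⟨0, 1024000000, 0, 0⟩ else
  if i = 54 then ⟨0, 40960000000, 0, 0⟩ else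
  if i = 72 then ⟨4480, 0, 0, 0⟩ else
  ⟨0, 0, 0, 0⟩

/-- configuration -/
def cF4nn : Cfg := ⟨8, 0, 2, 1, 9, 9, 3, false, false, false, [⟨0, 0, 0, 0⟩, ⟨0, 0, 0, 0⟩,
    ⟨1174405120000000000000000000, 0, 0, 0⟩, ⟨0, 0, 0, 0⟩, ⟨0, 587202560000000000000000000, 0, 0⟩,
    ⟨0, 0, 0, 0⟩, ⟨1174405120000000000000000000, 0, 0, 0⟩, ⟨0, 0, 0, 0⟩, ⟨0, 0, 0, 0⟩, ⟨0, 0, 0,
    0⟩, ⟨0, 0, 0, 0⟩, ⟨0, 0, 0, 0⟩, ⟨0, 0, 0, 0⟩, ⟨0, 0, 0, 0⟩, ⟨0, 0, 0, 0⟩, ⟨0, 0, 0, 0⟩, ⟨0, 0,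
    0, 0⟩, ⟨0, 0, 0, 0⟩, ⟨0, 0, 0, 0⟩, ⟨0, 0, 0, 0⟩, ⟨0, 0, 0, 0⟩, ⟨0, 0, 0, 0⟩,
    ⟨655360000000000000, 0, 0, 0⟩, ⟨0, 0, 0, 0⟩, ⟨0, 0, 0, 0⟩, ⟨0, 0, 0, 0⟩, ⟨0, 0, 0, 0⟩, ⟨0, 0,
    0, 0⟩, ⟨0, 0, 0, 0⟩, ⟨0, 0, 0, 0⟩, ⟨0, 0, 0, 0⟩, ⟨0, 0, 0, 0⟩, ⟨0, 0, 0, 0⟩, ⟨0, 0, 0, 0⟩, ⟨0,
    0, 0, 0⟩, ⟨0, 0, 0, 0⟩, ⟨1048576000000000000, 0, 0, 0⟩, ⟨0, 0, 0, 0⟩, ⟨0, 0, 0, 0⟩, ⟨0, 0, 0,
    0⟩, ⟨0, 1024000000, 0, 0⟩, ⟨0, 0, 0, 0⟩, ⟨0, 0, 0, 0⟩, ⟨0, 0, 0, 0⟩, ⟨0, 0, 0, 0⟩, ⟨0, 0, 0,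
    0⟩, ⟨0, 0, 0, 0⟩, ⟨0, 0, 0, 0⟩, ⟨0, 0, 0, 0⟩, ⟨0, 0, 0, 0⟩, ⟨0, 0, 0, 0⟩, ⟨0, 0, 0, 0⟩, ⟨0, 0,
    0, 0⟩, ⟨0, 0, 0, 0⟩, ⟨0, 40960000000, 0, 0⟩, ⟨0, 0, 0, 0⟩, ⟨0, 0, 0, 0⟩, ⟨0, 0, 0, 0⟩, ⟨0, 0,
    0, 0⟩, ⟨0, 0, 0, 0⟩, ⟨0, 0, 0, 0⟩, ⟨0, 0, 0, 0⟩, ⟨0, 0, 0, 0⟩, ⟨0, 0, 0, 0⟩, ⟨0, 0, 0, 0⟩, ⟨0,
    0, 0, 0⟩, ⟨0, 0, 0, 0⟩, ⟨0, 0, 0, 0⟩, ⟨0, 0, 0, 0⟩, ⟨0, 0, 0, 0⟩, ⟨0, 0, 0, 0⟩, ⟨0, 0, 0, 0⟩,
    ⟨4480, 0, 0, 0⟩, ⟨0, 0, 0, 0⟩, ⟨0, 0, 0, 0⟩, ⟨0, 0, 0, 0⟩, ⟨0, 0, 0, 0⟩, ⟨0, 0, 0, 0⟩, ⟨0, 0,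
    0, 0⟩, ⟨0, 0, 0, 0⟩, ⟨0, 0, 0, 0⟩]⟩

lemma rpF4nn : Rp cF4nn.L (fun i => (gF4nn i).v) := by
  have h : cF4nn.L = (List.range 81).map gF4nn := by rfl
  rw [h]
  exact rp_map _ _

lemma evF4nn {z k l Z0 Z1 Z2 : ℂ} (h1 : mr false Z1 = 16000 * k)
    (h2 : mr false Z2 = 16000 * l) :
    app (slots cF4nn (16000 * z) Z0 Z1 Z2) (fun i => (gF4nn i).v) 0 =
      300647710720000000000000000000000000 * (k ^ 2 + l ^ 2 - 2 * k * l * (8 * z ^ 4 - 8 * z ^ 2 + 1) + (z * (8 * z ^ 3 - 4 * z)) ^ 2) := by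
  rw [app_slots]
  simp only [cF4nn, Finset.sum_range_succ, Finset.sum_range_zero, Nat.reduceAdd, Nat.reduceMul,
    zero_add, add_zero, gF4nn, Nat.reduceEqDiff, if_true, if_false, v_zero, v_re, v_neg, v_im, v_imn,
    mul_zero, h1, h2, Nat.cast_zero, OfNat.ofNat_ne_zero, OfNat.ofNat_eq_ofNat, Nat.reduceEqDiff, Nat.cast_ofNat]
  simp only [Nat.choose, Nat.reduceAdd, pow_zero, pow_one, mul_one, one_mul, Nat.cast_one,
    Nat.cast_ofNat, mul_pow, Complex.I_sq]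
  ring_nf
  try simp only [Complex.I_sq, Complex.I_pow_three, Complex.I_pow_four, I5, I6, I7, I8]
  try ring

/-- coefficients -/
def gG4m (i : ℕ) : G4 :=
  if i = 1 then ⟨0, 0, 0, 12288000000000⟩ else
  if i = 4 then ⟨0, 0, 0, 512000000⟩ else
  if i = 8 then ⟨0, 0, 24, 0⟩ else
  ⟨0, 0, 0, 0⟩

/-- configuration -/
def cG4m : Cfg := ⟨4, 0, 0, 0, 2, 2, 2, false, false, true, [⟨0, 0, 0, 0⟩, ⟨0, 0, 0,
    12288000000000⟩, ⟨0, 0, 0, 0⟩, ⟨0, 0, 0, 0⟩, ⟨0, 0, 0, 512000000⟩, ⟨0, 0, 0, 0⟩, ⟨0, 0, 0, 0⟩,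
    ⟨0, 0, 0, 0⟩, ⟨0, 0, 24, 0⟩, ⟨0, 0, 0, 0⟩]⟩

lemma rpG4m : Rp cG4m.L (fun i => (gG4m i).v) := by
  have h : cG4m.L = (List.range 10).map gG4m := by rfl
  rw [h]
  exact rp_map _ _

lemma evG4m {z k Z0 Z1 Z2 : ℂ} (h2 : mr true Z2 = Complex.I * (16000 * k)) :
    app (slots cG4m (16000 * z) Z0 Z1 Z2) (fun i => (gG4m i).v) 0 =
      196608000000000000 * (k + Complex.I * z * (8 * z ^ 3 - 4 * z)) := by
  rw [app_slots]
  simp only [cG4m, Finset.sum_range_succ, Finset.sum_range_zero, Nat.reduceAdd, Nat.reduceMul,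
    zero_add, add_zero, gG4m, Nat.reduceEqDiff, if_true, if_false, v_zero, v_re, v_neg, v_im, v_imn,
    mul_zero, h2, Nat.cast_zero, OfNat.ofNat_ne_zero, OfNat.ofNat_eq_ofNat, Nat.reduceEqDiff, Nat.cast_ofNat]
  simp only [Nat.choose, Nat.reduceAdd, pow_zero, pow_one, mul_one, one_mul, Nat.cast_one,
    Nat.cast_ofNat, mul_pow, Complex.I_sq]
  ring_nf
  try simp only [Complex.I_sq, Complex.I_pow_three, Complex.I_pow_four, I5, I6, I7, I8]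
  try ring

/-- coefficients -/
def gG4n (i : ℕ) : G4 :=
  if i = 1 then ⟨12288000000000, 0, 0, 0⟩ else
  if i = 4 then ⟨0, 0, 0, 512000000⟩ else
  if i = 8 then ⟨0, 0, 24, 0⟩ else
  ⟨0, 0, 0, 0⟩

/-- configuration -/
def cG4n : Cfg := ⟨4, 0, 0, 0, 2, 2, 2, false, false, false, [⟨0, 0, 0, 0⟩, ⟨12288000000000, 0, 0,
    0⟩, ⟨0, 0, 0, 0⟩, ⟨0, 0, 0, 0⟩, ⟨0, 0, 0, 512000000⟩, ⟨0, 0, 0, 0⟩, ⟨0, 0, 0, 0⟩, ⟨0, 0, 0,
    0⟩, ⟨0, 0, 24, 0⟩, ⟨0, 0, 0, 0⟩]⟩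

lemma rpG4n : Rp cG4n.L (fun i => (gG4n i).v) := by
  have h : cG4n.L = (List.range 10).map gG4n := by rfl
  rw [h]
  exact rp_map _ _

lemma evG4n {z k Z0 Z1 Z2 : ℂ} (h2 : mr false Z2 = 16000 * k) :
    app (slots cG4n (16000 * z) Z0 Z1 Z2) (fun i => (gG4n i).v) 0 =
      196608000000000000 * (k + Complex.I * z * (8 * z ^ 3 - 4 * z)) := by
  rw [app_slots]
  simp only [cG4n, Finset.sum_range_succ, Finset.sum_range_zero, Nat.reduceAdd, Nat.reduceMul,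
    zero_add, add_zero, gG4n, Nat.reduceEqDiff, if_true, if_false, v_zero, v_re, v_neg, v_im, v_imn,
    mul_zero, h2, Nat.cast_zero, OfNat.ofNat_ne_zero, OfNat.ofNat_eq_ofNat, Nat.reduceEqDiff, Nat.cast_ofNat]
  simp only [Nat.choose, Nat.reduceAdd, pow_zero, pow_one, mul_one, one_mul, Nat.cast_one,
    Nat.cast_ofNat, mul_pow, Complex.I_sq]
  ring_nf
  try simp only [Complex.I_sq, Complex.I_pow_three, Complex.I_pow_four, I5, I6, I7, I8]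
  try ring

end Pool.Agent.Work.MP_b30479_gtS.G2.SC

end

section

/-!
# Tensors of the ring equations with 5, 6, 7 crossings
-/

set_option linter.unusedSimpArgs false
set_option linter.unusedTactic false
set_option linter.unreachableTactic false

namespace Pool.Agent.Work.MP_b30479_gtS.G2.SC

/-- coefficients -/
def gF5mm (i : ℕ) : G4 :=
  if i = 2 then ⟨0, 5411658792960000000000000000000000000, 0, 0⟩ else
  if i = 6 then ⟨0, 5411658792960000000000000000000000000, 0, 0⟩ else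
  if i = 13 then ⟨84557168640000000000000000000000, 0, 0, 0⟩ else
  if i = 18 then ⟨120259084288000000000000000000000000, 0, 0, 0⟩ else
  if i = 31 then ⟨0, 110100480000000000000000, 0, 0⟩ else
  if i = 36 then ⟨0, 2415919104000000000000000000, 0, 0⟩ else
  if i = 49 then ⟨163840000000000, 0, 0, 0⟩ else
  if i = 54 then ⟨69206016000000000000, 0, 0, 0⟩ else
  if i = 72 then ⟨0, 2752512000000, 0, 0⟩ else
  if i = 90 then ⟨322560, 0, 0, 0⟩ else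
  ⟨0, 0, 0, 0⟩

/-- configuration -/
def cF5mm : Cfg := ⟨10, 0, 2, 1, 9, 9, 3, false, true, true, [⟨0, 0, 0, 0⟩, ⟨0, 0, 0, 0⟩, ⟨0,
    5411658792960000000000000000000000000, 0, 0⟩, ⟨0, 0, 0, 0⟩, ⟨0, 0, 0, 0⟩, ⟨0, 0, 0, 0⟩, ⟨0,
    5411658792960000000000000000000000000, 0, 0⟩, ⟨0, 0, 0, 0⟩, ⟨0, 0, 0, 0⟩, ⟨0, 0, 0, 0⟩, ⟨0, 0,
    0, 0⟩, ⟨0, 0, 0, 0⟩, ⟨0, 0, 0, 0⟩, ⟨84557168640000000000000000000000, 0, 0, 0⟩, ⟨0, 0, 0, 0⟩,
    ⟨0, 0, 0, 0⟩, ⟨0, 0, 0, 0⟩, ⟨0, 0, 0, 0⟩, ⟨120259084288000000000000000000000000, 0, 0, 0⟩, ⟨0,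
    0, 0, 0⟩, ⟨0, 0, 0, 0⟩, ⟨0, 0, 0, 0⟩, ⟨0, 0, 0, 0⟩, ⟨0, 0, 0, 0⟩, ⟨0, 0, 0, 0⟩, ⟨0, 0, 0, 0⟩,
    ⟨0, 0, 0, 0⟩, ⟨0, 0, 0, 0⟩, ⟨0, 0, 0, 0⟩, ⟨0, 0, 0, 0⟩, ⟨0, 0, 0, 0⟩, ⟨0,
    110100480000000000000000, 0, 0⟩, ⟨0, 0, 0, 0⟩, ⟨0, 0, 0, 0⟩, ⟨0, 0, 0, 0⟩, ⟨0, 0, 0, 0⟩, ⟨0,
    2415919104000000000000000000, 0, 0⟩, ⟨0, 0, 0, 0⟩, ⟨0, 0, 0, 0⟩, ⟨0, 0, 0, 0⟩, ⟨0, 0, 0, 0⟩,
    ⟨0, 0, 0, 0⟩, ⟨0, 0, 0, 0⟩, ⟨0, 0, 0, 0⟩, ⟨0, 0, 0, 0⟩, ⟨0, 0, 0, 0⟩, ⟨0, 0, 0, 0⟩, ⟨0, 0, 0,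
    0⟩, ⟨0, 0, 0, 0⟩, ⟨163840000000000, 0, 0, 0⟩, ⟨0, 0, 0, 0⟩, ⟨0, 0, 0, 0⟩, ⟨0, 0, 0, 0⟩, ⟨0, 0,
    0, 0⟩, ⟨69206016000000000000, 0, 0, 0⟩, ⟨0, 0, 0, 0⟩, ⟨0, 0, 0, 0⟩, ⟨0, 0, 0, 0⟩, ⟨0, 0, 0,
    0⟩, ⟨0, 0, 0, 0⟩, ⟨0, 0, 0, 0⟩, ⟨0, 0, 0, 0⟩, ⟨0, 0, 0, 0⟩, ⟨0, 0, 0, 0⟩, ⟨0, 0, 0, 0⟩, ⟨0, 0,
    0, 0⟩, ⟨0, 0, 0, 0⟩, ⟨0, 0, 0, 0⟩, ⟨0, 0, 0, 0⟩, ⟨0, 0, 0, 0⟩, ⟨0, 0, 0, 0⟩, ⟨0, 0, 0, 0⟩, ⟨0,
    2752512000000, 0, 0⟩, ⟨0, 0, 0, 0⟩, ⟨0, 0, 0, 0⟩, ⟨0, 0, 0, 0⟩, ⟨0, 0, 0, 0⟩, ⟨0, 0, 0, 0⟩,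
    ⟨0, 0, 0, 0⟩, ⟨0, 0, 0, 0⟩, ⟨0, 0, 0, 0⟩, ⟨0, 0, 0, 0⟩, ⟨0, 0, 0, 0⟩, ⟨0, 0, 0, 0⟩, ⟨0, 0, 0,
    0⟩, ⟨0, 0, 0, 0⟩, ⟨0, 0, 0, 0⟩, ⟨0, 0, 0, 0⟩, ⟨0, 0, 0, 0⟩, ⟨0, 0, 0, 0⟩, ⟨322560, 0, 0, 0⟩,
    ⟨0, 0, 0, 0⟩, ⟨0, 0, 0, 0⟩, ⟨0, 0, 0, 0⟩, ⟨0, 0, 0, 0⟩, ⟨0, 0, 0, 0⟩, ⟨0, 0, 0, 0⟩, ⟨0, 0, 0,
    0⟩, ⟨0, 0, 0, 0⟩]⟩

lemma rpF5mm : Rp cF5mm.L (fun i => (gF5mm i).v) := by
  have h : cF5mm.L = (List.range 99).map gF5mm := by rfl
  rw [h]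
  exact rp_map _ _

lemma evF5mm {z k l Z0 Z1 Z2 : ℂ} (h1 : mr true Z1 = Complex.I * (16000 * k))
    (h2 : mr true Z2 = Complex.I * (16000 * l)) :
    app (slots cF5mm (16000 * z) Z0 Z1 Z2) (fun i => (gF5mm i).v) 0 =
      1385384650997760000000000000000000000000000000 * (k ^ 2 + l ^ 2 - 2 * k * l * (16 * z ^ 5 - 20 * z ^ 3 + 5 * z) + (z * (16 * z ^ 4 - 12 * z ^ 2 + 1)) ^ 2) := by
  rw [app_slots]
  simp only [cF5mm, Finset.sum_range_succ, Finset.sum_range_zero, Nat.reduceAdd, Nat.reduceMul,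
    zero_add, add_zero, gF5mm, Nat.reduceEqDiff, if_true, if_false, v_zero, v_re, v_neg, v_im, v_imn,
    mul_zero, h1, h2, Nat.cast_zero, OfNat.ofNat_ne_zero, OfNat.ofNat_eq_ofNat, Nat.reduceEqDiff, Nat.cast_ofNat]
  simp only [Nat.choose, Nat.reduceAdd, pow_zero, pow_one, mul_one, one_mul, Nat.cast_one,
    Nat.cast_ofNat, mul_pow, Complex.I_sq]
  ring_nf
  try simp only [Complex.I_sq, Complex.I_pow_three, Complex.I_pow_four, I5, I6, I7, I8]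
  try ring

/-- coefficients -/
def gF5mn (i : ℕ) : G4 :=
  if i = 2 then ⟨5411658792960000000000000000000000000, 0, 0, 0⟩ else
  if i = 6 then ⟨0, 5411658792960000000000000000000000000, 0, 0⟩ else
  if i = 13 then ⟨0, 0, 84557168640000000000000000000000, 0⟩ else
  if i = 18 then ⟨120259084288000000000000000000000000, 0, 0, 0⟩ else
  if i = 31 then ⟨0, 0, 0, 110100480000000000000000⟩ else
  if i = 36 then ⟨0, 2415919104000000000000000000, 0, 0⟩ else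
  if i = 49 then ⟨0, 0, 163840000000000, 0⟩ else
  if i = 54 then ⟨69206016000000000000, 0, 0, 0⟩ else
  if i = 72 then ⟨0, 2752512000000, 0, 0⟩ else
  if i = 90 then ⟨322560, 0, 0, 0⟩ else
  ⟨0, 0, 0, 0⟩

/-- configuration -/
def cF5mn : Cfg := ⟨10, 0, 2, 1, 9, 9, 3, false, true, false, [⟨0, 0, 0, 0⟩, ⟨0, 0, 0, 0⟩,
    ⟨5411658792960000000000000000000000000, 0, 0, 0⟩, ⟨0, 0, 0, 0⟩, ⟨0, 0, 0, 0⟩, ⟨0, 0, 0, 0⟩,
    ⟨0, 5411658792960000000000000000000000000, 0, 0⟩, ⟨0, 0, 0, 0⟩, ⟨0, 0, 0, 0⟩, ⟨0, 0, 0, 0⟩,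
    ⟨0, 0, 0, 0⟩, ⟨0, 0, 0, 0⟩, ⟨0, 0, 0, 0⟩, ⟨0, 0, 84557168640000000000000000000000, 0⟩, ⟨0, 0,
    0, 0⟩, ⟨0, 0, 0, 0⟩, ⟨0, 0, 0, 0⟩, ⟨0, 0, 0, 0⟩, ⟨120259084288000000000000000000000000, 0, 0,
    0⟩, ⟨0, 0, 0, 0⟩, ⟨0, 0, 0, 0⟩, ⟨0, 0, 0, 0⟩, ⟨0, 0, 0, 0⟩, ⟨0, 0, 0, 0⟩, ⟨0, 0, 0, 0⟩, ⟨0, 0,
    0, 0⟩, ⟨0, 0, 0, 0⟩, ⟨0, 0, 0, 0⟩, ⟨0, 0, 0, 0⟩, ⟨0, 0, 0, 0⟩, ⟨0, 0, 0, 0⟩, ⟨0, 0, 0,
    110100480000000000000000⟩, ⟨0, 0, 0, 0⟩, ⟨0, 0, 0, 0⟩, ⟨0, 0, 0, 0⟩, ⟨0, 0, 0, 0⟩, ⟨0,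
    2415919104000000000000000000, 0, 0⟩, ⟨0, 0, 0, 0⟩, ⟨0, 0, 0, 0⟩, ⟨0, 0, 0, 0⟩, ⟨0, 0, 0, 0⟩,
    ⟨0, 0, 0, 0⟩, ⟨0, 0, 0, 0⟩, ⟨0, 0, 0, 0⟩, ⟨0, 0, 0, 0⟩, ⟨0, 0, 0, 0⟩, ⟨0, 0, 0, 0⟩, ⟨0, 0, 0,
    0⟩, ⟨0, 0, 0, 0⟩, ⟨0, 0, 163840000000000, 0⟩, ⟨0, 0, 0, 0⟩, ⟨0, 0, 0, 0⟩, ⟨0, 0, 0, 0⟩, ⟨0, 0,
    0, 0⟩, ⟨69206016000000000000, 0, 0, 0⟩, ⟨0, 0, 0, 0⟩, ⟨0, 0, 0, 0⟩, ⟨0, 0, 0, 0⟩, ⟨0, 0, 0,
    0⟩, ⟨0, 0, 0, 0⟩, ⟨0, 0, 0, 0⟩, ⟨0, 0, 0, 0⟩, ⟨0, 0, 0, 0⟩, ⟨0, 0, 0, 0⟩, ⟨0, 0, 0, 0⟩, ⟨0, 0,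
    0, 0⟩, ⟨0, 0, 0, 0⟩, ⟨0, 0, 0, 0⟩, ⟨0, 0, 0, 0⟩, ⟨0, 0, 0, 0⟩, ⟨0, 0, 0, 0⟩, ⟨0, 0, 0, 0⟩, ⟨0,
    2752512000000, 0, 0⟩, ⟨0, 0, 0, 0⟩, ⟨0, 0, 0, 0⟩, ⟨0, 0, 0, 0⟩, ⟨0, 0, 0, 0⟩, ⟨0, 0, 0, 0⟩,
    ⟨0, 0, 0, 0⟩, ⟨0, 0, 0, 0⟩, ⟨0, 0, 0, 0⟩, ⟨0, 0, 0, 0⟩, ⟨0, 0, 0, 0⟩, ⟨0, 0, 0, 0⟩, ⟨0, 0, 0,
    0⟩, ⟨0, 0, 0, 0⟩, ⟨0, 0, 0, 0⟩, ⟨0, 0, 0, 0⟩, ⟨0, 0, 0, 0⟩, ⟨0, 0, 0, 0⟩, ⟨322560, 0, 0, 0⟩,
    ⟨0, 0, 0, 0⟩, ⟨0, 0, 0, 0⟩, ⟨0, 0, 0, 0⟩, ⟨0, 0, 0, 0⟩, ⟨0, 0, 0, 0⟩, ⟨0, 0, 0, 0⟩, ⟨0, 0, 0,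
    0⟩, ⟨0, 0, 0, 0⟩]⟩

lemma rpF5mn : Rp cF5mn.L (fun i => (gF5mn i).v) := by
  have h : cF5mn.L = (List.range 99).map gF5mn := by rfl
  rw [h]
  exact rp_map _ _

lemma evF5mn {z k l Z0 Z1 Z2 : ℂ} (h1 : mr true Z1 = Complex.I * (16000 * k))
    (h2 : mr false Z2 = 16000 * l) :
    app (slots cF5mn (16000 * z) Z0 Z1 Z2) (fun i => (gF5mn i).v) 0 =
      1385384650997760000000000000000000000000000000 * (k ^ 2 + l ^ 2 - 2 * k * l * (16 * z ^ 5 - 20 * z ^ 3 + 5 * z) + (z * (16 * z ^ 4 - 12 * z ^ 2 + 1)) ^ 2) := by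
  rw [app_slots]
  simp only [cF5mn, Finset.sum_range_succ, Finset.sum_range_zero, Nat.reduceAdd, Nat.reduceMul,
    zero_add, add_zero, gF5mn, Nat.reduceEqDiff, if_true, if_false, v_zero, v_re, v_neg, v_im, v_imn,
    mul_zero, h1, h2, Nat.cast_zero, OfNat.ofNat_ne_zero, OfNat.ofNat_eq_ofNat, Nat.reduceEqDiff, Nat.cast_ofNat]
  simp only [Nat.choose, Nat.reduceAdd, pow_zero, pow_one, mul_one, one_mul, Nat.cast_one,
    Nat.cast_ofNat, mul_pow, Complex.I_sq]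
  ring_nf
  try simp only [Complex.I_sq, Complex.I_pow_three, Complex.I_pow_four, I5, I6, I7, I8]
  try ring

/-- coefficients -/
def gF5nn (i : ℕ) : G4 :=
  if i = 2 then ⟨5411658792960000000000000000000000000, 0, 0, 0⟩ else
  if i = 6 then ⟨5411658792960000000000000000000000000, 0, 0, 0⟩ else
  if i = 13 then ⟨0, 84557168640000000000000000000000, 0, 0⟩ else
  if i = 18 then ⟨120259084288000000000000000000000000, 0, 0, 0⟩ else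
  if i = 31 then ⟨110100480000000000000000, 0, 0, 0⟩ else
  if i = 36 then ⟨0, 2415919104000000000000000000, 0, 0⟩ else
  if i = 49 then ⟨0, 163840000000000, 0, 0⟩ else
  if i = 54 then ⟨69206016000000000000, 0, 0, 0⟩ else
  if i = 72 then ⟨0, 2752512000000, 0, 0⟩ else
  if i = 90 then ⟨322560, 0, 0, 0⟩ else
  ⟨0, 0, 0, 0⟩

/-- configuration -/
def cF5nn : Cfg := ⟨10, 0, 2, 1, 9, 9, 3, false, false, false, [⟨0, 0, 0, 0⟩, ⟨0, 0, 0, 0⟩,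
    ⟨5411658792960000000000000000000000000, 0, 0, 0⟩, ⟨0, 0, 0, 0⟩, ⟨0, 0, 0, 0⟩, ⟨0, 0, 0, 0⟩,
    ⟨5411658792960000000000000000000000000, 0, 0, 0⟩, ⟨0, 0, 0, 0⟩, ⟨0, 0, 0, 0⟩, ⟨0, 0, 0, 0⟩,
    ⟨0, 0, 0, 0⟩, ⟨0, 0, 0, 0⟩, ⟨0, 0, 0, 0⟩, ⟨0, 84557168640000000000000000000000, 0, 0⟩, ⟨0, 0,
    0, 0⟩, ⟨0, 0, 0, 0⟩, ⟨0, 0, 0, 0⟩, ⟨0, 0, 0, 0⟩, ⟨120259084288000000000000000000000000, 0, 0,
    0⟩, ⟨0, 0, 0, 0⟩, ⟨0, 0, 0, 0⟩, ⟨0, 0, 0, 0⟩, ⟨0, 0, 0, 0⟩, ⟨0, 0, 0, 0⟩, ⟨0, 0, 0, 0⟩, ⟨0, 0,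
    0, 0⟩, ⟨0, 0, 0, 0⟩, ⟨0, 0, 0, 0⟩, ⟨0, 0, 0, 0⟩, ⟨0, 0, 0, 0⟩, ⟨0, 0, 0, 0⟩,
    ⟨110100480000000000000000, 0, 0, 0⟩, ⟨0, 0, 0, 0⟩, ⟨0, 0, 0, 0⟩, ⟨0, 0, 0, 0⟩, ⟨0, 0, 0, 0⟩,
    ⟨0, 2415919104000000000000000000, 0, 0⟩, ⟨0, 0, 0, 0⟩, ⟨0, 0, 0, 0⟩, ⟨0, 0, 0, 0⟩, ⟨0, 0, 0,
    0⟩, ⟨0, 0, 0, 0⟩, ⟨0, 0, 0, 0⟩, ⟨0, 0, 0, 0⟩, ⟨0, 0, 0, 0⟩, ⟨0, 0, 0, 0⟩, ⟨0, 0, 0, 0⟩, ⟨0, 0,
    0, 0⟩, ⟨0, 0, 0, 0⟩, ⟨0, 163840000000000, 0, 0⟩, ⟨0, 0, 0, 0⟩, ⟨0, 0, 0, 0⟩, ⟨0, 0, 0, 0⟩, ⟨0,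
    0, 0, 0⟩, ⟨69206016000000000000, 0, 0, 0⟩, ⟨0, 0, 0, 0⟩, ⟨0, 0, 0, 0⟩, ⟨0, 0, 0, 0⟩, ⟨0, 0, 0,
    0⟩, ⟨0, 0, 0, 0⟩, ⟨0, 0, 0, 0⟩, ⟨0, 0, 0, 0⟩, ⟨0, 0, 0, 0⟩, ⟨0, 0, 0, 0⟩, ⟨0, 0, 0, 0⟩, ⟨0, 0,
    0, 0⟩, ⟨0, 0, 0, 0⟩, ⟨0, 0, 0, 0⟩, ⟨0, 0, 0, 0⟩, ⟨0, 0, 0, 0⟩, ⟨0, 0, 0, 0⟩, ⟨0, 0, 0, 0⟩, ⟨0,
    2752512000000, 0, 0⟩, ⟨0, 0, 0, 0⟩, ⟨0, 0, 0, 0⟩, ⟨0, 0, 0, 0⟩, ⟨0, 0, 0, 0⟩, ⟨0, 0, 0, 0⟩,
    ⟨0, 0, 0, 0⟩, ⟨0, 0, 0, 0⟩, ⟨0, 0, 0, 0⟩, ⟨0, 0, 0, 0⟩, ⟨0, 0, 0, 0⟩, ⟨0, 0, 0, 0⟩, ⟨0, 0, 0,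
    0⟩, ⟨0, 0, 0, 0⟩, ⟨0, 0, 0, 0⟩, ⟨0, 0, 0, 0⟩, ⟨0, 0, 0, 0⟩, ⟨0, 0, 0, 0⟩, ⟨322560, 0, 0, 0⟩,
    ⟨0, 0, 0, 0⟩, ⟨0, 0, 0, 0⟩, ⟨0, 0, 0, 0⟩, ⟨0, 0, 0, 0⟩, ⟨0, 0, 0, 0⟩, ⟨0, 0, 0, 0⟩, ⟨0, 0, 0,
    0⟩, ⟨0, 0, 0, 0⟩]⟩

lemma rpF5nn : Rp cF5nn.L (fun i => (gF5nn i).v) := by
  have h : cF5nn.L = (List.range 99).map gF5nn := by rfl
  rw [h]
  exact rp_map _ _

lemma evF5nn {z k l Z0 Z1 Z2 : ℂ} (h1 : mr false Z1 = 16000 * k)
    (h2 : mr false Z2 = 16000 * l) :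
    app (slots cF5nn (16000 * z) Z0 Z1 Z2) (fun i => (gF5nn i).v) 0 =
      1385384650997760000000000000000000000000000000 * (k ^ 2 + l ^ 2 - 2 * k * l * (16 * z ^ 5 - 20 * z ^ 3 + 5 * z) + (z * (16 * z ^ 4 - 12 * z ^ 2 + 1)) ^ 2) := by
  rw [app_slots]
  simp only [cF5nn, Finset.sum_range_succ, Finset.sum_range_zero, Nat.reduceAdd, Nat.reduceMul,
    zero_add, add_zero, gF5nn, Nat.reduceEqDiff, if_true, if_false, v_zero, v_re, v_neg, v_im, v_imn,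
    mul_zero, h1, h2, Nat.cast_zero, OfNat.ofNat_ne_zero, OfNat.ofNat_eq_ofNat, Nat.reduceEqDiff, Nat.cast_ofNat]
  simp only [Nat.choose, Nat.reduceAdd, pow_zero, pow_one, mul_one, one_mul, Nat.cast_one,
    Nat.cast_ofNat, mul_pow, Complex.I_sq]
  ring_nf
  try simp only [Complex.I_sq, Complex.I_pow_three, Complex.I_pow_four, I5, I6, I7, I8]
  try ring

/-- coefficients -/
def gG5m (i : ℕ) : G4 :=
  if i = 1 then ⟨0, 0, 0, 327680000000000000⟩ else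
  if i = 2 then ⟨0, 0, 65536000000000000, 0⟩ else
  if i = 6 then ⟨0, 0, 0, 1536000000⟩ else
  if i = 10 then ⟨0, 0, 80, 0⟩ else
  ⟨0, 0, 0, 0⟩

/-- configuration -/
def cG5m : Cfg := ⟨5, 0, 0, 0, 2, 2, 2, false, false, true, [⟨0, 0, 0, 0⟩, ⟨0, 0, 0,
    327680000000000000⟩, ⟨0, 0, 65536000000000000, 0⟩, ⟨0, 0, 0, 0⟩, ⟨0, 0, 0, 0⟩, ⟨0, 0, 0, 0⟩,
    ⟨0, 0, 0, 1536000000⟩, ⟨0, 0, 0, 0⟩, ⟨0, 0, 0, 0⟩, ⟨0, 0, 0, 0⟩, ⟨0, 0, 80, 0⟩, ⟨0, 0, 0, 0⟩]⟩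

lemma rpG5m : Rp cG5m.L (fun i => (gG5m i).v) := by
  have h : cG5m.L = (List.range 12).map gG5m := by rfl
  rw [h]
  exact rp_map _ _

lemma evG5m {z k Z0 Z1 Z2 : ℂ} (h2 : mr true Z2 = Complex.I * (16000 * k)) :
    app (slots cG5m (16000 * z) Z0 Z1 Z2) (fun i => (gG5m i).v) 0 =
      5242880000000000000000 * (k + Complex.I * z * (16 * z ^ 4 - 12 * z ^ 2 + 1)) := by
  rw [app_slots]
  simp only [cG5m, Finset.sum_range_succ, Finset.sum_range_zero, Nat.reduceAdd, Nat.reduceMul,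
    zero_add, add_zero, gG5m, Nat.reduceEqDiff, if_true, if_false, v_zero, v_re, v_neg, v_im, v_imn,
    mul_zero, h2, Nat.cast_zero, OfNat.ofNat_ne_zero, OfNat.ofNat_eq_ofNat, Nat.reduceEqDiff, Nat.cast_ofNat]
  simp only [Nat.choose, Nat.reduceAdd, pow_zero, pow_one, mul_one, one_mul, Nat.cast_one,
    Nat.cast_ofNat, mul_pow, Complex.I_sq]
  ring_nf
  try simp only [Complex.I_sq, Complex.I_pow_three, Complex.I_pow_four, I5, I6, I7, I8]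
  try ring

/-- coefficients -/
def gG5n (i : ℕ) : G4 :=
  if i = 1 then ⟨327680000000000000, 0, 0, 0⟩ else
  if i = 2 then ⟨0, 0, 65536000000000000, 0⟩ else
  if i = 6 then ⟨0, 0, 0, 1536000000⟩ else
  if i = 10 then ⟨0, 0, 80, 0⟩ else
  ⟨0, 0, 0, 0⟩

/-- configuration -/
def cG5n : Cfg := ⟨5, 0, 0, 0, 2, 2, 2, false, false, false, [⟨0, 0, 0, 0⟩, ⟨327680000000000000,
    0, 0, 0⟩, ⟨0, 0, 65536000000000000, 0⟩, ⟨0, 0, 0, 0⟩, ⟨0, 0, 0, 0⟩, ⟨0, 0, 0, 0⟩, ⟨0, 0, 0,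
    1536000000⟩, ⟨0, 0, 0, 0⟩, ⟨0, 0, 0, 0⟩, ⟨0, 0, 0, 0⟩, ⟨0, 0, 80, 0⟩, ⟨0, 0, 0, 0⟩]⟩

lemma rpG5n : Rp cG5n.L (fun i => (gG5n i).v) := by
  have h : cG5n.L = (List.range 12).map gG5n := by rfl
  rw [h]
  exact rp_map _ _

lemma evG5n {z k Z0 Z1 Z2 : ℂ} (h2 : mr false Z2 = 16000 * k) :
    app (slots cG5n (16000 * z) Z0 Z1 Z2) (fun i => (gG5n i).v) 0 =
      5242880000000000000000 * (k + Complex.I * z * (16 * z ^ 4 - 12 * z ^ 2 + 1)) := by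
  rw [app_slots]
  simp only [cG5n, Finset.sum_range_succ, Finset.sum_range_zero, Nat.reduceAdd, Nat.reduceMul,
    zero_add, add_zero, gG5n, Nat.reduceEqDiff, if_true, if_false, v_zero, v_re, v_neg, v_im, v_imn,
    mul_zero, h2, Nat.cast_zero, OfNat.ofNat_ne_zero, OfNat.ofNat_eq_ofNat, Nat.reduceEqDiff, Nat.cast_ofNat]
  simp only [Nat.choose, Nat.reduceAdd, pow_zero, pow_one, mul_one, one_mul, Nat.cast_one,
    Nat.cast_ofNat, mul_pow, Complex.I_sq]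
  ring_nf
  try simp only [Complex.I_sq, Complex.I_pow_three, Complex.I_pow_four, I5, I6, I7, I8]
  try ring

/-- coefficients -/
def gF6mm (i : ℕ) : G4 :=
  if i = 2 then ⟨0, 7619615580487680000000000000000000000000000000, 0, 0⟩ else
  if i = 4 then ⟨0, 3809807790243840000000000000000000000000000000, 0, 0⟩ else
  if i = 6 then ⟨0, 7619615580487680000000000000000000000000000000, 0, 0⟩ else
  if i = 22 then ⟨4058744094720000000000000000000000000, 0, 0, 0⟩ else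
  if i = 36 then ⟨2164663517184000000000000000000000000, 0, 0, 0⟩ else
  if i = 40 then ⟨0, 5637144576000000000000000000, 0, 0⟩ else
  if i = 54 then ⟨0, 48318382080000000000000000000, 0, 0⟩ else
  if i = 58 then ⟨7864320000000000000, 0, 0, 0⟩ else
  if i = 72 then ⟨1291845632000000000000, 0, 0, 0⟩ else
  if i = 90 then ⟨0, 55050240000000, 0, 0⟩ else
  if i = 108 then ⟨7096320, 0, 0, 0⟩ else
  ⟨0, 0, 0, 0⟩

/-- configuration -/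
def cF6mm : Cfg := ⟨12, 0, 2, 1, 9, 9, 3, false, true, true, [⟨0, 0, 0, 0⟩, ⟨0, 0, 0, 0⟩, ⟨0,
    7619615580487680000000000000000000000000000000, 0, 0⟩, ⟨0, 0, 0, 0⟩, ⟨0,
    3809807790243840000000000000000000000000000000, 0, 0⟩, ⟨0, 0, 0, 0⟩, ⟨0,
    7619615580487680000000000000000000000000000000, 0, 0⟩, ⟨0, 0, 0, 0⟩, ⟨0, 0, 0, 0⟩, ⟨0, 0, 0,
    0⟩, ⟨0, 0, 0, 0⟩, ⟨0, 0, 0, 0⟩, ⟨0, 0, 0, 0⟩, ⟨0, 0, 0, 0⟩, ⟨0, 0, 0, 0⟩, ⟨0, 0, 0, 0⟩, ⟨0, 0,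
    0, 0⟩, ⟨0, 0, 0, 0⟩, ⟨0, 0, 0, 0⟩, ⟨0, 0, 0, 0⟩, ⟨0, 0, 0, 0⟩, ⟨0, 0, 0, 0⟩,
    ⟨4058744094720000000000000000000000000, 0, 0, 0⟩, ⟨0, 0, 0, 0⟩, ⟨0, 0, 0, 0⟩, ⟨0, 0, 0, 0⟩,
    ⟨0, 0, 0, 0⟩, ⟨0, 0, 0, 0⟩, ⟨0, 0, 0, 0⟩, ⟨0, 0, 0, 0⟩, ⟨0, 0, 0, 0⟩, ⟨0, 0, 0, 0⟩, ⟨0, 0, 0,
    0⟩, ⟨0, 0, 0, 0⟩, ⟨0, 0, 0, 0⟩, ⟨0, 0, 0, 0⟩, ⟨2164663517184000000000000000000000000, 0, 0,
    0⟩, ⟨0, 0, 0, 0⟩, ⟨0, 0, 0, 0⟩, ⟨0, 0, 0, 0⟩, ⟨0, 5637144576000000000000000000, 0, 0⟩, ⟨0, 0,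
    0, 0⟩, ⟨0, 0, 0, 0⟩, ⟨0, 0, 0, 0⟩, ⟨0, 0, 0, 0⟩, ⟨0, 0, 0, 0⟩, ⟨0, 0, 0, 0⟩, ⟨0, 0, 0, 0⟩, ⟨0,
    0, 0, 0⟩, ⟨0, 0, 0, 0⟩, ⟨0, 0, 0, 0⟩, ⟨0, 0, 0, 0⟩, ⟨0, 0, 0, 0⟩, ⟨0, 0, 0, 0⟩, ⟨0,
    48318382080000000000000000000, 0, 0⟩, ⟨0, 0, 0, 0⟩, ⟨0, 0, 0, 0⟩, ⟨0, 0, 0, 0⟩,
    ⟨7864320000000000000, 0, 0, 0⟩, ⟨0, 0, 0, 0⟩, ⟨0, 0, 0, 0⟩, ⟨0, 0, 0, 0⟩, ⟨0, 0, 0, 0⟩, ⟨0, 0,
    0, 0⟩, ⟨0, 0, 0, 0⟩, ⟨0, 0, 0, 0⟩, ⟨0, 0, 0, 0⟩, ⟨0, 0, 0, 0⟩, ⟨0, 0, 0, 0⟩, ⟨0, 0, 0, 0⟩, ⟨0,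
    0, 0, 0⟩, ⟨0, 0, 0, 0⟩, ⟨1291845632000000000000, 0, 0, 0⟩, ⟨0, 0, 0, 0⟩, ⟨0, 0, 0, 0⟩, ⟨0, 0,
    0, 0⟩, ⟨0, 0, 0, 0⟩, ⟨0, 0, 0, 0⟩, ⟨0, 0, 0, 0⟩, ⟨0, 0, 0, 0⟩, ⟨0, 0, 0, 0⟩, ⟨0, 0, 0, 0⟩, ⟨0,
    0, 0, 0⟩, ⟨0, 0, 0, 0⟩, ⟨0, 0, 0, 0⟩, ⟨0, 0, 0, 0⟩, ⟨0, 0, 0, 0⟩, ⟨0, 0, 0, 0⟩, ⟨0, 0, 0, 0⟩,
    ⟨0, 0, 0, 0⟩, ⟨0, 55050240000000, 0, 0⟩, ⟨0, 0, 0, 0⟩, ⟨0, 0, 0, 0⟩, ⟨0, 0, 0, 0⟩, ⟨0, 0, 0,
    0⟩, ⟨0, 0, 0, 0⟩, ⟨0, 0, 0, 0⟩, ⟨0, 0, 0, 0⟩, ⟨0, 0, 0, 0⟩, ⟨0, 0, 0, 0⟩, ⟨0, 0, 0, 0⟩, ⟨0, 0,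
    0, 0⟩, ⟨0, 0, 0, 0⟩, ⟨0, 0, 0, 0⟩, ⟨0, 0, 0, 0⟩, ⟨0, 0, 0, 0⟩, ⟨0, 0, 0, 0⟩, ⟨0, 0, 0, 0⟩,
    ⟨7096320, 0, 0, 0⟩, ⟨0, 0, 0, 0⟩, ⟨0, 0, 0, 0⟩, ⟨0, 0, 0, 0⟩, ⟨0, 0, 0, 0⟩, ⟨0, 0, 0, 0⟩, ⟨0,
    0, 0, 0⟩, ⟨0, 0, 0, 0⟩, ⟨0, 0, 0, 0⟩]⟩

lemma rpF6mm : Rp cF6mm.L (fun i => (gF6mm i).v) := by
  have h : cF6mm.L = (List.range 117).map gF6mm := by rfl
  rw [h]
  exact rp_map _ _

lemma evF6mm {z k l Z0 Z1 Z2 : ℂ} (h1 : mr true Z1 = Complex.I * (16000 * k))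
    (h2 : mr true Z2 = Complex.I * (16000 * l)) :
    app (slots cF6mm (16000 * z) Z0 Z1 Z2) (fun i => (gF6mm i).v) 0 =
      1950621588604846080000000000000000000000000000000000000 * (k ^ 2 + l ^ 2 - 2 * k * l * (32 * z ^ 6 - 48 * z ^ 4 + 18 * z ^ 2 - 1) + (z * (32 * z ^ 5 - 32 * z ^ 3 + 6 * z)) ^ 2) := by
  rw [app_slots]
  simp only [cF6mm, Finset.sum_range_succ, Finset.sum_range_zero, Nat.reduceAdd, Nat.reduceMul,
    zero_add, add_zero, gF6mm, Nat.reduceEqDiff, if_true, if_false, v_zero, v_re, v_neg, v_im, v_imn,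
    mul_zero, h1, h2, Nat.cast_zero, OfNat.ofNat_ne_zero, OfNat.ofNat_eq_ofNat, Nat.reduceEqDiff, Nat.cast_ofNat]
  simp only [Nat.choose, Nat.reduceAdd, pow_zero, pow_one, mul_one, one_mul, Nat.cast_one,
    Nat.cast_ofNat, mul_pow, Complex.I_sq]
  ring_nf
  try simp only [Complex.I_sq, Complex.I_pow_three, Complex.I_pow_four, I5, I6, I7, I8]
  try ring

/-- coefficients -/
def gF6mn (i : ℕ) : G4 :=
  if i = 2 then ⟨7619615580487680000000000000000000000000000000, 0, 0, 0⟩ else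
  if i = 4 then ⟨0, 0, 0, 3809807790243840000000000000000000000000000000⟩ else
  if i = 6 then ⟨0, 7619615580487680000000000000000000000000000000, 0, 0⟩ else
  if i = 22 then ⟨0, 0, 4058744094720000000000000000000000000, 0⟩ else
  if i = 36 then ⟨2164663517184000000000000000000000000, 0, 0, 0⟩ else
  if i = 40 then ⟨0, 0, 0, 5637144576000000000000000000⟩ else
  if i = 54 then ⟨0, 48318382080000000000000000000, 0, 0⟩ else
  if i = 58 then ⟨0, 0, 7864320000000000000, 0⟩ else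
  if i = 72 then ⟨1291845632000000000000, 0, 0, 0⟩ else
  if i = 90 then ⟨0, 55050240000000, 0, 0⟩ else
  if i = 108 then ⟨7096320, 0, 0, 0⟩ else
  ⟨0, 0, 0, 0⟩

/-- configuration -/
def cF6mn : Cfg := ⟨12, 0, 2, 1, 9, 9, 3, false, true, false, [⟨0, 0, 0, 0⟩, ⟨0, 0, 0, 0⟩,
    ⟨7619615580487680000000000000000000000000000000, 0, 0, 0⟩, ⟨0, 0, 0, 0⟩, ⟨0, 0, 0,
    3809807790243840000000000000000000000000000000⟩, ⟨0, 0, 0, 0⟩, ⟨0,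
    7619615580487680000000000000000000000000000000, 0, 0⟩, ⟨0, 0, 0, 0⟩, ⟨0, 0, 0, 0⟩, ⟨0, 0, 0,
    0⟩, ⟨0, 0, 0, 0⟩, ⟨0, 0, 0, 0⟩, ⟨0, 0, 0, 0⟩, ⟨0, 0, 0, 0⟩, ⟨0, 0, 0, 0⟩, ⟨0, 0, 0, 0⟩, ⟨0, 0,
    0, 0⟩, ⟨0, 0, 0, 0⟩, ⟨0, 0, 0, 0⟩, ⟨0, 0, 0, 0⟩, ⟨0, 0, 0, 0⟩, ⟨0, 0, 0, 0⟩, ⟨0, 0,
    4058744094720000000000000000000000000, 0⟩, ⟨0, 0, 0, 0⟩, ⟨0, 0, 0, 0⟩, ⟨0, 0, 0, 0⟩, ⟨0, 0, 0,
    0⟩, ⟨0, 0, 0, 0⟩, ⟨0, 0, 0, 0⟩, ⟨0, 0, 0, 0⟩, ⟨0, 0, 0, 0⟩, ⟨0, 0, 0, 0⟩, ⟨0, 0, 0, 0⟩, ⟨0, 0,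
    0, 0⟩, ⟨0, 0, 0, 0⟩, ⟨0, 0, 0, 0⟩, ⟨2164663517184000000000000000000000000, 0, 0, 0⟩, ⟨0, 0, 0,
    0⟩, ⟨0, 0, 0, 0⟩, ⟨0, 0, 0, 0⟩, ⟨0, 0, 0, 5637144576000000000000000000⟩, ⟨0, 0, 0, 0⟩, ⟨0, 0,
    0, 0⟩, ⟨0, 0, 0, 0⟩, ⟨0, 0, 0, 0⟩, ⟨0, 0, 0, 0⟩, ⟨0, 0, 0, 0⟩, ⟨0, 0, 0, 0⟩, ⟨0, 0, 0, 0⟩, ⟨0,
    0, 0, 0⟩, ⟨0, 0, 0, 0⟩, ⟨0, 0, 0, 0⟩, ⟨0, 0, 0, 0⟩, ⟨0, 0, 0, 0⟩, ⟨0,
    48318382080000000000000000000, 0, 0⟩, ⟨0, 0, 0, 0⟩, ⟨0, 0, 0, 0⟩, ⟨0, 0, 0, 0⟩, ⟨0, 0,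
    7864320000000000000, 0⟩, ⟨0, 0, 0, 0⟩, ⟨0, 0, 0, 0⟩, ⟨0, 0, 0, 0⟩, ⟨0, 0, 0, 0⟩, ⟨0, 0, 0, 0⟩,
    ⟨0, 0, 0, 0⟩, ⟨0, 0, 0, 0⟩, ⟨0, 0, 0, 0⟩, ⟨0, 0, 0, 0⟩, ⟨0, 0, 0, 0⟩, ⟨0, 0, 0, 0⟩, ⟨0, 0, 0,
    0⟩, ⟨0, 0, 0, 0⟩, ⟨1291845632000000000000, 0, 0, 0⟩, ⟨0, 0, 0, 0⟩, ⟨0, 0, 0, 0⟩, ⟨0, 0, 0, 0⟩,
    ⟨0, 0, 0, 0⟩, ⟨0, 0, 0, 0⟩, ⟨0, 0, 0, 0⟩, ⟨0, 0, 0, 0⟩, ⟨0, 0, 0, 0⟩, ⟨0, 0, 0, 0⟩, ⟨0, 0, 0,
    0⟩, ⟨0, 0, 0, 0⟩, ⟨0, 0, 0, 0⟩, ⟨0, 0, 0, 0⟩, ⟨0, 0, 0, 0⟩, ⟨0, 0, 0, 0⟩, ⟨0, 0, 0, 0⟩, ⟨0, 0,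
    0, 0⟩, ⟨0, 55050240000000, 0, 0⟩, ⟨0, 0, 0, 0⟩, ⟨0, 0, 0, 0⟩, ⟨0, 0, 0, 0⟩, ⟨0, 0, 0, 0⟩, ⟨0,
    0, 0, 0⟩, ⟨0, 0, 0, 0⟩, ⟨0, 0, 0, 0⟩, ⟨0, 0, 0, 0⟩, ⟨0, 0, 0, 0⟩, ⟨0, 0, 0, 0⟩, ⟨0, 0, 0, 0⟩,
    ⟨0, 0, 0, 0⟩, ⟨0, 0, 0, 0⟩, ⟨0, 0, 0, 0⟩, ⟨0, 0, 0, 0⟩, ⟨0, 0, 0, 0⟩, ⟨0, 0, 0, 0⟩, ⟨7096320,
    0, 0, 0⟩, ⟨0, 0, 0, 0⟩, ⟨0, 0, 0, 0⟩, ⟨0, 0, 0, 0⟩, ⟨0, 0, 0, 0⟩, ⟨0, 0, 0, 0⟩, ⟨0, 0, 0, 0⟩,
    ⟨0, 0, 0, 0⟩, ⟨0, 0, 0, 0⟩]⟩

lemma rpF6mn : Rp cF6mn.L (fun i => (gF6mn i).v) := by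
  have h : cF6mn.L = (List.range 117).map gF6mn := by rfl
  rw [h]
  exact rp_map _ _

lemma evF6mn {z k l Z0 Z1 Z2 : ℂ} (h1 : mr true Z1 = Complex.I * (16000 * k))
    (h2 : mr false Z2 = 16000 * l) :
    app (slots cF6mn (16000 * z) Z0 Z1 Z2) (fun i => (gF6mn i).v) 0 =
      1950621588604846080000000000000000000000000000000000000 * (k ^ 2 + l ^ 2 - 2 * k * l * (32 * z ^ 6 - 48 * z ^ 4 + 18 * z ^ 2 - 1) + (z * (32 * z ^ 5 - 32 * z ^ 3 + 6 * z)) ^ 2) := by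
  rw [app_slots]
  simp only [cF6mn, Finset.sum_range_succ, Finset.sum_range_zero, Nat.reduceAdd, Nat.reduceMul,
    zero_add, add_zero, gF6mn, Nat.reduceEqDiff, if_true, if_false, v_zero, v_re, v_neg, v_im, v_imn,
    mul_zero, h1, h2, Nat.cast_zero, OfNat.ofNat_ne_zero, OfNat.ofNat_eq_ofNat, Nat.reduceEqDiff, Nat.cast_ofNat]
  simp only [Nat.choose, Nat.reduceAdd, pow_zero, pow_one, mul_one, one_mul, Nat.cast_one,
    Nat.cast_ofNat, mul_pow, Complex.I_sq]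
  ring_nf
  try simp only [Complex.I_sq, Complex.I_pow_three, Complex.I_pow_four, I5, I6, I7, I8]
  try ring

/-- coefficients -/
def gF6nn (i : ℕ) : G4 :=
  if i = 2 then ⟨7619615580487680000000000000000000000000000000, 0, 0, 0⟩ else
  if i = 4 then ⟨3809807790243840000000000000000000000000000000, 0, 0, 0⟩ else
  if i = 6 then ⟨7619615580487680000000000000000000000000000000, 0, 0, 0⟩ else
  if i = 22 then ⟨0, 4058744094720000000000000000000000000, 0, 0⟩ else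
  if i = 36 then ⟨2164663517184000000000000000000000000, 0, 0, 0⟩ else
  if i = 40 then ⟨5637144576000000000000000000, 0, 0, 0⟩ else
  if i = 54 then ⟨0, 48318382080000000000000000000, 0, 0⟩ else
  if i = 58 then ⟨0, 7864320000000000000, 0, 0⟩ else
  if i = 72 then ⟨1291845632000000000000, 0, 0, 0⟩ else
  if i = 90 then ⟨0, 55050240000000, 0, 0⟩ else
  if i = 108 then ⟨7096320, 0, 0, 0⟩ else
  ⟨0, 0, 0, 0⟩

/-- configuration -/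
def cF6nn : Cfg := ⟨12, 0, 2, 1, 9, 9, 3, false, false, false, [⟨0, 0, 0, 0⟩, ⟨0, 0, 0, 0⟩,
    ⟨7619615580487680000000000000000000000000000000, 0, 0, 0⟩, ⟨0, 0, 0, 0⟩,
    ⟨3809807790243840000000000000000000000000000000, 0, 0, 0⟩, ⟨0, 0, 0, 0⟩,
    ⟨7619615580487680000000000000000000000000000000, 0, 0, 0⟩, ⟨0, 0, 0, 0⟩, ⟨0, 0, 0, 0⟩, ⟨0, 0,
    0, 0⟩, ⟨0, 0, 0, 0⟩, ⟨0, 0, 0, 0⟩, ⟨0, 0, 0, 0⟩, ⟨0, 0, 0, 0⟩, ⟨0, 0, 0, 0⟩, ⟨0, 0, 0, 0⟩, ⟨0,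
    0, 0, 0⟩, ⟨0, 0, 0, 0⟩, ⟨0, 0, 0, 0⟩, ⟨0, 0, 0, 0⟩, ⟨0, 0, 0, 0⟩, ⟨0, 0, 0, 0⟩, ⟨0,
    4058744094720000000000000000000000000, 0, 0⟩, ⟨0, 0, 0, 0⟩, ⟨0, 0, 0, 0⟩, ⟨0, 0, 0, 0⟩, ⟨0, 0,
    0, 0⟩, ⟨0, 0, 0, 0⟩, ⟨0, 0, 0, 0⟩, ⟨0, 0, 0, 0⟩, ⟨0, 0, 0, 0⟩, ⟨0, 0, 0, 0⟩, ⟨0, 0, 0, 0⟩, ⟨0,
    0, 0, 0⟩, ⟨0, 0, 0, 0⟩, ⟨0, 0, 0, 0⟩, ⟨2164663517184000000000000000000000000, 0, 0, 0⟩, ⟨0, 0,
    0, 0⟩, ⟨0, 0, 0, 0⟩, ⟨0, 0, 0, 0⟩, ⟨5637144576000000000000000000, 0, 0, 0⟩, ⟨0, 0, 0, 0⟩, ⟨0,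
    0, 0, 0⟩, ⟨0, 0, 0, 0⟩, ⟨0, 0, 0, 0⟩, ⟨0, 0, 0, 0⟩, ⟨0, 0, 0, 0⟩, ⟨0, 0, 0, 0⟩, ⟨0, 0, 0, 0⟩,
    ⟨0, 0, 0, 0⟩, ⟨0, 0, 0, 0⟩, ⟨0, 0, 0, 0⟩, ⟨0, 0, 0, 0⟩, ⟨0, 0, 0, 0⟩, ⟨0,
    48318382080000000000000000000, 0, 0⟩, ⟨0, 0, 0, 0⟩, ⟨0, 0, 0, 0⟩, ⟨0, 0, 0, 0⟩, ⟨0,
    7864320000000000000, 0, 0⟩, ⟨0, 0, 0, 0⟩, ⟨0, 0, 0, 0⟩, ⟨0, 0, 0, 0⟩, ⟨0, 0, 0, 0⟩, ⟨0, 0, 0,
    0⟩, ⟨0, 0, 0, 0⟩, ⟨0, 0, 0, 0⟩, ⟨0, 0, 0, 0⟩, ⟨0, 0, 0, 0⟩, ⟨0, 0, 0, 0⟩, ⟨0, 0, 0, 0⟩, ⟨0, 0,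
    0, 0⟩, ⟨0, 0, 0, 0⟩, ⟨1291845632000000000000, 0, 0, 0⟩, ⟨0, 0, 0, 0⟩, ⟨0, 0, 0, 0⟩, ⟨0, 0, 0,
    0⟩, ⟨0, 0, 0, 0⟩, ⟨0, 0, 0, 0⟩, ⟨0, 0, 0, 0⟩, ⟨0, 0, 0, 0⟩, ⟨0, 0, 0, 0⟩, ⟨0, 0, 0, 0⟩, ⟨0, 0,
    0, 0⟩, ⟨0, 0, 0, 0⟩, ⟨0, 0, 0, 0⟩, ⟨0, 0, 0, 0⟩, ⟨0, 0, 0, 0⟩, ⟨0, 0, 0, 0⟩, ⟨0, 0, 0, 0⟩, ⟨0,
    0, 0, 0⟩, ⟨0, 55050240000000, 0, 0⟩, ⟨0, 0, 0, 0⟩, ⟨0, 0, 0, 0⟩, ⟨0, 0, 0, 0⟩, ⟨0, 0, 0, 0⟩,
    ⟨0, 0, 0, 0⟩, ⟨0, 0, 0, 0⟩, ⟨0, 0, 0, 0⟩, ⟨0, 0, 0, 0⟩, ⟨0, 0, 0, 0⟩, ⟨0, 0, 0, 0⟩, ⟨0, 0, 0,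
    0⟩, ⟨0, 0, 0, 0⟩, ⟨0, 0, 0, 0⟩, ⟨0, 0, 0, 0⟩, ⟨0, 0, 0, 0⟩, ⟨0, 0, 0, 0⟩, ⟨0, 0, 0, 0⟩,
    ⟨7096320, 0, 0, 0⟩, ⟨0, 0, 0, 0⟩, ⟨0, 0, 0, 0⟩, ⟨0, 0, 0, 0⟩, ⟨0, 0, 0, 0⟩, ⟨0, 0, 0, 0⟩, ⟨0,
    0, 0, 0⟩, ⟨0, 0, 0, 0⟩, ⟨0, 0, 0, 0⟩]⟩

lemma rpF6nn : Rp cF6nn.L (fun i => (gF6nn i).v) := by
  have h : cF6nn.L = (List.range 117).map gF6nn := by rfl
  rw [h]
  exact rp_map _ _

lemma evF6nn {z k l Z0 Z1 Z2 : ℂ} (h1 : mr false Z1 = 16000 * k)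
    (h2 : mr false Z2 = 16000 * l) :
    app (slots cF6nn (16000 * z) Z0 Z1 Z2) (fun i => (gF6nn i).v) 0 =
      1950621588604846080000000000000000000000000000000000000 * (k ^ 2 + l ^ 2 - 2 * k * l * (32 * z ^ 6 - 48 * z ^ 4 + 18 * z ^ 2 - 1) + (z * (32 * z ^ 5 - 32 * z ^ 3 + 6 * z)) ^ 2) := by
  rw [app_slots]
  simp only [cF6nn, Finset.sum_range_succ, Finset.sum_range_zero, Nat.reduceAdd, Nat.reduceMul,
    zero_add, add_zero, gF6nn, Nat.reduceEqDiff, if_true, if_false, v_zero, v_re, v_neg, v_im, v_imn,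
    mul_zero, h1, h2, Nat.cast_zero, OfNat.ofNat_ne_zero, OfNat.ofNat_eq_ofNat, Nat.reduceEqDiff, Nat.cast_ofNat]
  simp only [Nat.choose, Nat.reduceAdd, pow_zero, pow_one, mul_one, one_mul, Nat.cast_one,
    Nat.cast_ofNat, mul_pow, Complex.I_sq]
  ring_nf
  try simp only [Complex.I_sq, Complex.I_pow_three, Complex.I_pow_four, I5, I6, I7, I8]
  try ring

/-- coefficients -/
def gG6m (i : ℕ) : G4 :=
  if i = 1 then ⟨0, 0, 0, 15728640000000000000000⟩ else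
  if i = 4 then ⟨0, 0, 393216000000000000, 0⟩ else
  if i = 8 then ⟨0, 0, 0, 8192000000⟩ else
  if i = 12 then ⟨0, 0, 480, 0⟩ else
  ⟨0, 0, 0, 0⟩

/-- configuration -/
def cG6m : Cfg := ⟨6, 0, 0, 0, 2, 2, 2, false, false, true, [⟨0, 0, 0, 0⟩, ⟨0, 0, 0,
    15728640000000000000000⟩, ⟨0, 0, 0, 0⟩, ⟨0, 0, 0, 0⟩, ⟨0, 0, 393216000000000000, 0⟩, ⟨0, 0, 0,
    0⟩, ⟨0, 0, 0, 0⟩, ⟨0, 0, 0, 0⟩, ⟨0, 0, 0, 8192000000⟩, ⟨0, 0, 0, 0⟩, ⟨0, 0, 0, 0⟩, ⟨0, 0, 0,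
    0⟩, ⟨0, 0, 480, 0⟩, ⟨0, 0, 0, 0⟩]⟩

lemma rpG6m : Rp cG6m.L (fun i => (gG6m i).v) := by
  have h : cG6m.L = (List.range 14).map gG6m := by rfl
  rw [h]
  exact rp_map _ _

lemma evG6m {z k Z0 Z1 Z2 : ℂ} (h2 : mr true Z2 = Complex.I * (16000 * k)) :
    app (slots cG6m (16000 * z) Z0 Z1 Z2) (fun i => (gG6m i).v) 0 =
      251658240000000000000000000 * (k + Complex.I * z * (32 * z ^ 5 - 32 * z ^ 3 + 6 * z)) := by
  rw [app_slots]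
  simp only [cG6m, Finset.sum_range_succ, Finset.sum_range_zero, Nat.reduceAdd, Nat.reduceMul,
    zero_add, add_zero, gG6m, Nat.reduceEqDiff, if_true, if_false, v_zero, v_re, v_neg, v_im, v_imn,
    mul_zero, h2, Nat.cast_zero, OfNat.ofNat_ne_zero, OfNat.ofNat_eq_ofNat, Nat.reduceEqDiff, Nat.cast_ofNat]
  simp only [Nat.choose, Nat.reduceAdd, pow_zero, pow_one, mul_one, one_mul, Nat.cast_one,
    Nat.cast_ofNat, mul_pow, Complex.I_sq]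
  ring_nf
  try simp only [Complex.I_sq, Complex.I_pow_three, Complex.I_pow_four, I5, I6, I7, I8]
  try ring

/-- coefficients -/
def gG6n (i : ℕ) : G4 :=
  if i = 1 then ⟨15728640000000000000000, 0, 0, 0⟩ else
  if i = 4 then ⟨0, 0, 393216000000000000, 0⟩ else
  if i = 8 then ⟨0, 0, 0, 8192000000⟩ else
  if i = 12 then ⟨0, 0, 480, 0⟩ else
  ⟨0, 0, 0, 0⟩

/-- configuration -/
def cG6n : Cfg := ⟨6, 0, 0, 0, 2, 2, 2, false, false, false, [⟨0, 0, 0, 0⟩,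
    ⟨15728640000000000000000, 0, 0, 0⟩, ⟨0, 0, 0, 0⟩, ⟨0, 0, 0, 0⟩, ⟨0, 0, 393216000000000000, 0⟩,
    ⟨0, 0, 0, 0⟩, ⟨0, 0, 0, 0⟩, ⟨0, 0, 0, 0⟩, ⟨0, 0, 0, 8192000000⟩, ⟨0, 0, 0, 0⟩, ⟨0, 0, 0, 0⟩,
    ⟨0, 0, 0, 0⟩, ⟨0, 0, 480, 0⟩, ⟨0, 0, 0, 0⟩]⟩

lemma rpG6n : Rp cG6n.L (fun i => (gG6n i).v) := by
  have h : cG6n.L = (List.range 14).map gG6n := by rfl
  rw [h]
  exact rp_map _ _

lemma evG6n {z k Z0 Z1 Z2 : ℂ} (h2 : mr false Z2 = 16000 * k) :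
    app (slots cG6n (16000 * z) Z0 Z1 Z2) (fun i => (gG6n i).v) 0 =
      251658240000000000000000000 * (k + Complex.I * z * (32 * z ^ 5 - 32 * z ^ 3 + 6 * z)) := by
  rw [app_slots]
  simp only [cG6n, Finset.sum_range_succ, Finset.sum_range_zero, Nat.reduceAdd, Nat.reduceMul,
    zero_add, add_zero, gG6n, Nat.reduceEqDiff, if_true, if_false, v_zero, v_re, v_neg, v_im, v_imn,
    mul_zero, h2, Nat.cast_zero, OfNat.ofNat_ne_zero, OfNat.ofNat_eq_ofNat, Nat.reduceEqDiff, Nat.cast_ofNat]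
  simp only [Nat.choose, Nat.reduceAdd, pow_zero, pow_one, mul_one, one_mul, Nat.cast_one,
    Nat.cast_ofNat, mul_pow, Complex.I_sq]
  ring_nf
  try simp only [Complex.I_sq, Complex.I_pow_three, Complex.I_pow_four, I5, I6, I7, I8]
  try ring

/-- coefficients -/
def gF7mm (i : ℕ) : G4 :=
  if i = 2 then ⟨0, 3381077420248399872000000000000000000000000000000000000, 0, 0⟩ else
  if i = 6 then ⟨0, 3381077420248399872000000000000000000000000000000000000, 0, 0⟩ else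
  if i = 13 then ⟨0, 52829334691381248000000000000000000000000000000000, 0, 0⟩ else
  if i = 18 then ⟨37154696925806592000000000000000000000000000000000000, 0, 0, 0⟩ else
  if i = 31 then ⟨63496796504064000000000000000000000000000, 0, 0, 0⟩ else
  if i = 36 then ⟨0, 633318697598976000000000000000000000000000000, 0, 0⟩ else
  if i = 49 then ⟨0, 90194313216000000000000000000000, 0, 0⟩ else
  if i = 54 then ⟨12644383719424000000000000000000000000, 0, 0, 0⟩ else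
  if i = 67 then ⟨117440512000000000000000, 0, 0, 0⟩ else
  if i = 72 then ⟨0, 266287972352000000000000000000, 0, 0⟩ else
  if i = 90 then ⟨7449083904000000000000, 0, 0, 0⟩ else
  if i = 108 then ⟨0, 346030080000000, 0, 0⟩ else
  if i = 126 then ⟨49201152, 0, 0, 0⟩ else
  ⟨0, 0, 0, 0⟩

/-- configuration -/
def cF7mm : Cfg := ⟨14, 0, 2, 1, 9, 9, 3, false, true, true, [⟨0, 0, 0, 0⟩, ⟨0, 0, 0, 0⟩, ⟨0,
    3381077420248399872000000000000000000000000000000000000, 0, 0⟩, ⟨0, 0, 0, 0⟩, ⟨0, 0, 0, 0⟩,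
    ⟨0, 0, 0, 0⟩, ⟨0, 3381077420248399872000000000000000000000000000000000000, 0, 0⟩, ⟨0, 0, 0,
    0⟩, ⟨0, 0, 0, 0⟩, ⟨0, 0, 0, 0⟩, ⟨0, 0, 0, 0⟩, ⟨0, 0, 0, 0⟩, ⟨0, 0, 0, 0⟩, ⟨0,
    52829334691381248000000000000000000000000000000000, 0, 0⟩, ⟨0, 0, 0, 0⟩, ⟨0, 0, 0, 0⟩, ⟨0, 0,
    0, 0⟩, ⟨0, 0, 0, 0⟩, ⟨37154696925806592000000000000000000000000000000000000, 0, 0, 0⟩, ⟨0, 0,
    0, 0⟩, ⟨0, 0, 0, 0⟩, ⟨0, 0, 0, 0⟩, ⟨0, 0, 0, 0⟩, ⟨0, 0, 0, 0⟩, ⟨0, 0, 0, 0⟩, ⟨0, 0, 0, 0⟩, ⟨0,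
    0, 0, 0⟩, ⟨0, 0, 0, 0⟩, ⟨0, 0, 0, 0⟩, ⟨0, 0, 0, 0⟩, ⟨0, 0, 0, 0⟩,
    ⟨63496796504064000000000000000000000000000, 0, 0, 0⟩, ⟨0, 0, 0, 0⟩, ⟨0, 0, 0, 0⟩, ⟨0, 0, 0,
    0⟩, ⟨0, 0, 0, 0⟩, ⟨0, 633318697598976000000000000000000000000000000, 0, 0⟩, ⟨0, 0, 0, 0⟩, ⟨0,
    0, 0, 0⟩, ⟨0, 0, 0, 0⟩, ⟨0, 0, 0, 0⟩, ⟨0, 0, 0, 0⟩, ⟨0, 0, 0, 0⟩, ⟨0, 0, 0, 0⟩, ⟨0, 0, 0, 0⟩,
    ⟨0, 0, 0, 0⟩, ⟨0, 0, 0, 0⟩, ⟨0, 0, 0, 0⟩, ⟨0, 0, 0, 0⟩, ⟨0, 90194313216000000000000000000000,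
    0, 0⟩, ⟨0, 0, 0, 0⟩, ⟨0, 0, 0, 0⟩, ⟨0, 0, 0, 0⟩, ⟨0, 0, 0, 0⟩,
    ⟨12644383719424000000000000000000000000, 0, 0, 0⟩, ⟨0, 0, 0, 0⟩, ⟨0, 0, 0, 0⟩, ⟨0, 0, 0, 0⟩,
    ⟨0, 0, 0, 0⟩, ⟨0, 0, 0, 0⟩, ⟨0, 0, 0, 0⟩, ⟨0, 0, 0, 0⟩, ⟨0, 0, 0, 0⟩, ⟨0, 0, 0, 0⟩, ⟨0, 0, 0,
    0⟩, ⟨0, 0, 0, 0⟩, ⟨0, 0, 0, 0⟩, ⟨117440512000000000000000, 0, 0, 0⟩, ⟨0, 0, 0, 0⟩, ⟨0, 0, 0,
    0⟩, ⟨0, 0, 0, 0⟩, ⟨0, 0, 0, 0⟩, ⟨0, 266287972352000000000000000000, 0, 0⟩, ⟨0, 0, 0, 0⟩, ⟨0,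
    0, 0, 0⟩, ⟨0, 0, 0, 0⟩, ⟨0, 0, 0, 0⟩, ⟨0, 0, 0, 0⟩, ⟨0, 0, 0, 0⟩, ⟨0, 0, 0, 0⟩, ⟨0, 0, 0, 0⟩,
    ⟨0, 0, 0, 0⟩, ⟨0, 0, 0, 0⟩, ⟨0, 0, 0, 0⟩, ⟨0, 0, 0, 0⟩, ⟨0, 0, 0, 0⟩, ⟨0, 0, 0, 0⟩, ⟨0, 0, 0,
    0⟩, ⟨0, 0, 0, 0⟩, ⟨0, 0, 0, 0⟩, ⟨7449083904000000000000, 0, 0, 0⟩, ⟨0, 0, 0, 0⟩, ⟨0, 0, 0, 0⟩,
    ⟨0, 0, 0, 0⟩, ⟨0, 0, 0, 0⟩, ⟨0, 0, 0, 0⟩, ⟨0, 0, 0, 0⟩, ⟨0, 0, 0, 0⟩, ⟨0, 0, 0, 0⟩, ⟨0, 0, 0,
    0⟩, ⟨0, 0, 0, 0⟩, ⟨0, 0, 0, 0⟩, ⟨0, 0, 0, 0⟩, ⟨0, 0, 0, 0⟩, ⟨0, 0, 0, 0⟩, ⟨0, 0, 0, 0⟩, ⟨0, 0,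
    0, 0⟩, ⟨0, 0, 0, 0⟩, ⟨0, 346030080000000, 0, 0⟩, ⟨0, 0, 0, 0⟩, ⟨0, 0, 0, 0⟩, ⟨0, 0, 0, 0⟩, ⟨0,
    0, 0, 0⟩, ⟨0, 0, 0, 0⟩, ⟨0, 0, 0, 0⟩, ⟨0, 0, 0, 0⟩, ⟨0, 0, 0, 0⟩, ⟨0, 0, 0, 0⟩, ⟨0, 0, 0, 0⟩,
    ⟨0, 0, 0, 0⟩, ⟨0, 0, 0, 0⟩, ⟨0, 0, 0, 0⟩, ⟨0, 0, 0, 0⟩, ⟨0, 0, 0, 0⟩, ⟨0, 0, 0, 0⟩, ⟨0, 0, 0,
    0⟩, ⟨49201152, 0, 0, 0⟩, ⟨0, 0, 0, 0⟩, ⟨0, 0, 0, 0⟩, ⟨0, 0, 0, 0⟩, ⟨0, 0, 0, 0⟩, ⟨0, 0, 0, 0⟩,
    ⟨0, 0, 0, 0⟩, ⟨0, 0, 0, 0⟩, ⟨0, 0, 0, 0⟩]⟩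

lemma rpF7mm : Rp cF7mm.L (fun i => (gF7mm i).v) := by
  have h : cF7mm.L = (List.range 135).map gF7mm := by rfl
  rw [h]
  exact rp_map _ _

lemma evF7mm {z k l Z0 Z1 Z2 : ℂ} (h1 : mr true Z1 = Complex.I * (16000 * k))
    (h2 : mr true Z2 = Complex.I * (16000 * l)) :
    app (slots cF7mm (16000 * z) Z0 Z1 Z2) (fun i => (gF7mm i).v) 0 =
      865555819583590367232000000000000000000000000000000000000000000 * (k ^ 2 + l ^ 2 - 2 * k * l * (64 * z ^ 7 - 112 * z ^ 5 + 56 * z ^ 3 - 7 * z) + (z * (64 * z ^ 6 - 80 * z ^ 4 + 24 * z ^ 2 - 1)) ^ 2) := by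
  rw [app_slots]
  simp only [cF7mm, Finset.sum_range_succ, Finset.sum_range_zero, Nat.reduceAdd, Nat.reduceMul,
    zero_add, add_zero, gF7mm, Nat.reduceEqDiff, if_true, if_false, v_zero, v_re, v_neg, v_im, v_imn,
    mul_zero, h1, h2, Nat.cast_zero, OfNat.ofNat_ne_zero, OfNat.ofNat_eq_ofNat, Nat.reduceEqDiff, Nat.cast_ofNat]
  simp only [Nat.choose, Nat.reduceAdd, pow_zero, pow_one, mul_one, one_mul, Nat.cast_one,
    Nat.cast_ofNat, mul_pow, Complex.I_sq]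
  ring_nf
  try simp only [Complex.I_sq, Complex.I_pow_three, Complex.I_pow_four, I5, I6, I7, I8]
  try ring

/-- coefficients -/
def gF7mn (i : ℕ) : G4 :=
  if i = 2 then ⟨3381077420248399872000000000000000000000000000000000000, 0, 0, 0⟩ else
  if i = 6 then ⟨0, 3381077420248399872000000000000000000000000000000000000, 0, 0⟩ else
  if i = 13 then ⟨0, 0, 0, 52829334691381248000000000000000000000000000000000⟩ else
  if i = 18 then ⟨37154696925806592000000000000000000000000000000000000, 0, 0, 0⟩ else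
  if i = 31 then ⟨0, 0, 63496796504064000000000000000000000000000, 0⟩ else
  if i = 36 then ⟨0, 633318697598976000000000000000000000000000000, 0, 0⟩ else
  if i = 49 then ⟨0, 0, 0, 90194313216000000000000000000000⟩ else
  if i = 54 then ⟨12644383719424000000000000000000000000, 0, 0, 0⟩ else
  if i = 67 then ⟨0, 0, 117440512000000000000000, 0⟩ else
  if i = 72 then ⟨0, 266287972352000000000000000000, 0, 0⟩ else
  if i = 90 then ⟨7449083904000000000000, 0, 0, 0⟩ else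
  if i = 108 then ⟨0, 346030080000000, 0, 0⟩ else
  if i = 126 then ⟨49201152, 0, 0, 0⟩ else
  ⟨0, 0, 0, 0⟩

/-- configuration -/
def cF7mn : Cfg := ⟨14, 0, 2, 1, 9, 9, 3, false, true, false, [⟨0, 0, 0, 0⟩, ⟨0, 0, 0, 0⟩,
    ⟨3381077420248399872000000000000000000000000000000000000, 0, 0, 0⟩, ⟨0, 0, 0, 0⟩, ⟨0, 0, 0,
    0⟩, ⟨0, 0, 0, 0⟩, ⟨0, 3381077420248399872000000000000000000000000000000000000, 0, 0⟩, ⟨0, 0,
    0, 0⟩, ⟨0, 0, 0, 0⟩, ⟨0, 0, 0, 0⟩, ⟨0, 0, 0, 0⟩, ⟨0, 0, 0, 0⟩, ⟨0, 0, 0, 0⟩, ⟨0, 0, 0,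
    52829334691381248000000000000000000000000000000000⟩, ⟨0, 0, 0, 0⟩, ⟨0, 0, 0, 0⟩, ⟨0, 0, 0, 0⟩,
    ⟨0, 0, 0, 0⟩, ⟨37154696925806592000000000000000000000000000000000000, 0, 0, 0⟩, ⟨0, 0, 0, 0⟩,
    ⟨0, 0, 0, 0⟩, ⟨0, 0, 0, 0⟩, ⟨0, 0, 0, 0⟩, ⟨0, 0, 0, 0⟩, ⟨0, 0, 0, 0⟩, ⟨0, 0, 0, 0⟩, ⟨0, 0, 0,
    0⟩, ⟨0, 0, 0, 0⟩, ⟨0, 0, 0, 0⟩, ⟨0, 0, 0, 0⟩, ⟨0, 0, 0, 0⟩, ⟨0, 0,
    63496796504064000000000000000000000000000, 0⟩, ⟨0, 0, 0, 0⟩, ⟨0, 0, 0, 0⟩, ⟨0, 0, 0, 0⟩, ⟨0,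
    0, 0, 0⟩, ⟨0, 633318697598976000000000000000000000000000000, 0, 0⟩, ⟨0, 0, 0, 0⟩, ⟨0, 0, 0,
    0⟩, ⟨0, 0, 0, 0⟩, ⟨0, 0, 0, 0⟩, ⟨0, 0, 0, 0⟩, ⟨0, 0, 0, 0⟩, ⟨0, 0, 0, 0⟩, ⟨0, 0, 0, 0⟩, ⟨0, 0,
    0, 0⟩, ⟨0, 0, 0, 0⟩, ⟨0, 0, 0, 0⟩, ⟨0, 0, 0, 0⟩, ⟨0, 0, 0, 90194313216000000000000000000000⟩,
    ⟨0, 0, 0, 0⟩, ⟨0, 0, 0, 0⟩, ⟨0, 0, 0, 0⟩, ⟨0, 0, 0, 0⟩,
    ⟨12644383719424000000000000000000000000, 0, 0, 0⟩, ⟨0, 0, 0, 0⟩, ⟨0, 0, 0, 0⟩, ⟨0, 0, 0, 0⟩,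
    ⟨0, 0, 0, 0⟩, ⟨0, 0, 0, 0⟩, ⟨0, 0, 0, 0⟩, ⟨0, 0, 0, 0⟩, ⟨0, 0, 0, 0⟩, ⟨0, 0, 0, 0⟩, ⟨0, 0, 0,
    0⟩, ⟨0, 0, 0, 0⟩, ⟨0, 0, 0, 0⟩, ⟨0, 0, 117440512000000000000000, 0⟩, ⟨0, 0, 0, 0⟩, ⟨0, 0, 0,
    0⟩, ⟨0, 0, 0, 0⟩, ⟨0, 0, 0, 0⟩, ⟨0, 266287972352000000000000000000, 0, 0⟩, ⟨0, 0, 0, 0⟩, ⟨0,
    0, 0, 0⟩, ⟨0, 0, 0, 0⟩, ⟨0, 0, 0, 0⟩, ⟨0, 0, 0, 0⟩, ⟨0, 0, 0, 0⟩, ⟨0, 0, 0, 0⟩, ⟨0, 0, 0, 0⟩,
    ⟨0, 0, 0, 0⟩, ⟨0, 0, 0, 0⟩, ⟨0, 0, 0, 0⟩, ⟨0, 0, 0, 0⟩, ⟨0, 0, 0, 0⟩, ⟨0, 0, 0, 0⟩, ⟨0, 0, 0,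
    0⟩, ⟨0, 0, 0, 0⟩, ⟨0, 0, 0, 0⟩, ⟨7449083904000000000000, 0, 0, 0⟩, ⟨0, 0, 0, 0⟩, ⟨0, 0, 0, 0⟩,
    ⟨0, 0, 0, 0⟩, ⟨0, 0, 0, 0⟩, ⟨0, 0, 0, 0⟩, ⟨0, 0, 0, 0⟩, ⟨0, 0, 0, 0⟩, ⟨0, 0, 0, 0⟩, ⟨0, 0, 0,
    0⟩, ⟨0, 0, 0, 0⟩, ⟨0, 0, 0, 0⟩, ⟨0, 0, 0, 0⟩, ⟨0, 0, 0, 0⟩, ⟨0, 0, 0, 0⟩, ⟨0, 0, 0, 0⟩, ⟨0, 0,
    0, 0⟩, ⟨0, 0, 0, 0⟩, ⟨0, 346030080000000, 0, 0⟩, ⟨0, 0, 0, 0⟩, ⟨0, 0, 0, 0⟩, ⟨0, 0, 0, 0⟩, ⟨0,
    0, 0, 0⟩, ⟨0, 0, 0, 0⟩, ⟨0, 0, 0, 0⟩, ⟨0, 0, 0, 0⟩, ⟨0, 0, 0, 0⟩, ⟨0, 0, 0, 0⟩, ⟨0, 0, 0, 0⟩,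
    ⟨0, 0, 0, 0⟩, ⟨0, 0, 0, 0⟩, ⟨0, 0, 0, 0⟩, ⟨0, 0, 0, 0⟩, ⟨0, 0, 0, 0⟩, ⟨0, 0, 0, 0⟩, ⟨0, 0, 0,
    0⟩, ⟨49201152, 0, 0, 0⟩, ⟨0, 0, 0, 0⟩, ⟨0, 0, 0, 0⟩, ⟨0, 0, 0, 0⟩, ⟨0, 0, 0, 0⟩, ⟨0, 0, 0, 0⟩,
    ⟨0, 0, 0, 0⟩, ⟨0, 0, 0, 0⟩, ⟨0, 0, 0, 0⟩]⟩

lemma rpF7mn : Rp cF7mn.L (fun i => (gF7mn i).v) := by
  have h : cF7mn.L = (List.range 135).map gF7mn := by rfl
  rw [h]
  exact rp_map _ _

lemma evF7mn {z k l Z0 Z1 Z2 : ℂ} (h1 : mr true Z1 = Complex.I * (16000 * k))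
    (h2 : mr false Z2 = 16000 * l) :
    app (slots cF7mn (16000 * z) Z0 Z1 Z2) (fun i => (gF7mn i).v) 0 =
      865555819583590367232000000000000000000000000000000000000000000 * (k ^ 2 + l ^ 2 - 2 * k * l * (64 * z ^ 7 - 112 * z ^ 5 + 56 * z ^ 3 - 7 * z) + (z * (64 * z ^ 6 - 80 * z ^ 4 + 24 * z ^ 2 - 1)) ^ 2) := by
  rw [app_slots]
  simp only [cF7mn, Finset.sum_range_succ, Finset.sum_range_zero, Nat.reduceAdd, Nat.reduceMul,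
    zero_add, add_zero, gF7mn, Nat.reduceEqDiff, if_true, if_false, v_zero, v_re, v_neg, v_im, v_imn,
    mul_zero, h1, h2, Nat.cast_zero, OfNat.ofNat_ne_zero, OfNat.ofNat_eq_ofNat, Nat.reduceEqDiff, Nat.cast_ofNat]
  simp only [Nat.choose, Nat.reduceAdd, pow_zero, pow_one, mul_one, one_mul, Nat.cast_one,
    Nat.cast_ofNat, mul_pow, Complex.I_sq]
  ring_nf
  try simp only [Complex.I_sq, Complex.I_pow_three, Complex.I_pow_four, I5, I6, I7, I8]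
  try ring

/-- coefficients -/
def gF7nn (i : ℕ) : G4 :=
  if i = 2 then ⟨3381077420248399872000000000000000000000000000000000000, 0, 0, 0⟩ else
  if i = 6 then ⟨3381077420248399872000000000000000000000000000000000000, 0, 0, 0⟩ else
  if i = 13 then ⟨52829334691381248000000000000000000000000000000000, 0, 0, 0⟩ else
  if i = 18 then ⟨37154696925806592000000000000000000000000000000000000, 0, 0, 0⟩ else
  if i = 31 then ⟨0, 63496796504064000000000000000000000000000, 0, 0⟩ else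
  if i = 36 then ⟨0, 633318697598976000000000000000000000000000000, 0, 0⟩ else
  if i = 49 then ⟨90194313216000000000000000000000, 0, 0, 0⟩ else
  if i = 54 then ⟨12644383719424000000000000000000000000, 0, 0, 0⟩ else
  if i = 67 then ⟨0, 117440512000000000000000, 0, 0⟩ else
  if i = 72 then ⟨0, 266287972352000000000000000000, 0, 0⟩ else
  if i = 90 then ⟨7449083904000000000000, 0, 0, 0⟩ else
  if i = 108 then ⟨0, 346030080000000, 0, 0⟩ else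
  if i = 126 then ⟨49201152, 0, 0, 0⟩ else
  ⟨0, 0, 0, 0⟩

/-- configuration -/
def cF7nn : Cfg := ⟨14, 0, 2, 1, 9, 9, 3, false, false, false, [⟨0, 0, 0, 0⟩, ⟨0, 0, 0, 0⟩,
    ⟨3381077420248399872000000000000000000000000000000000000, 0, 0, 0⟩, ⟨0, 0, 0, 0⟩, ⟨0, 0, 0,
    0⟩, ⟨0, 0, 0, 0⟩, ⟨3381077420248399872000000000000000000000000000000000000, 0, 0, 0⟩, ⟨0, 0,
    0, 0⟩, ⟨0, 0, 0, 0⟩, ⟨0, 0, 0, 0⟩, ⟨0, 0, 0, 0⟩, ⟨0, 0, 0, 0⟩, ⟨0, 0, 0, 0⟩,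
    ⟨52829334691381248000000000000000000000000000000000, 0, 0, 0⟩, ⟨0, 0, 0, 0⟩, ⟨0, 0, 0, 0⟩, ⟨0,
    0, 0, 0⟩, ⟨0, 0, 0, 0⟩, ⟨37154696925806592000000000000000000000000000000000000, 0, 0, 0⟩, ⟨0,
    0, 0, 0⟩, ⟨0, 0, 0, 0⟩, ⟨0, 0, 0, 0⟩, ⟨0, 0, 0, 0⟩, ⟨0, 0, 0, 0⟩, ⟨0, 0, 0, 0⟩, ⟨0, 0, 0, 0⟩,
    ⟨0, 0, 0, 0⟩, ⟨0, 0, 0, 0⟩, ⟨0, 0, 0, 0⟩, ⟨0, 0, 0, 0⟩, ⟨0, 0, 0, 0⟩, ⟨0,
    63496796504064000000000000000000000000000, 0, 0⟩, ⟨0, 0, 0, 0⟩, ⟨0, 0, 0, 0⟩, ⟨0, 0, 0, 0⟩,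
    ⟨0, 0, 0, 0⟩, ⟨0, 633318697598976000000000000000000000000000000, 0, 0⟩, ⟨0, 0, 0, 0⟩, ⟨0, 0,
    0, 0⟩, ⟨0, 0, 0, 0⟩, ⟨0, 0, 0, 0⟩, ⟨0, 0, 0, 0⟩, ⟨0, 0, 0, 0⟩, ⟨0, 0, 0, 0⟩, ⟨0, 0, 0, 0⟩, ⟨0,
    0, 0, 0⟩, ⟨0, 0, 0, 0⟩, ⟨0, 0, 0, 0⟩, ⟨0, 0, 0, 0⟩, ⟨90194313216000000000000000000000, 0, 0,
    0⟩, ⟨0, 0, 0, 0⟩, ⟨0, 0, 0, 0⟩, ⟨0, 0, 0, 0⟩, ⟨0, 0, 0, 0⟩,
    ⟨12644383719424000000000000000000000000, 0, 0, 0⟩, ⟨0, 0, 0, 0⟩, ⟨0, 0, 0, 0⟩, ⟨0, 0, 0, 0⟩,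
    ⟨0, 0, 0, 0⟩, ⟨0, 0, 0, 0⟩, ⟨0, 0, 0, 0⟩, ⟨0, 0, 0, 0⟩, ⟨0, 0, 0, 0⟩, ⟨0, 0, 0, 0⟩, ⟨0, 0, 0,
    0⟩, ⟨0, 0, 0, 0⟩, ⟨0, 0, 0, 0⟩, ⟨0, 117440512000000000000000, 0, 0⟩, ⟨0, 0, 0, 0⟩, ⟨0, 0, 0,
    0⟩, ⟨0, 0, 0, 0⟩, ⟨0, 0, 0, 0⟩, ⟨0, 266287972352000000000000000000, 0, 0⟩, ⟨0, 0, 0, 0⟩, ⟨0,
    0, 0, 0⟩, ⟨0, 0, 0, 0⟩, ⟨0, 0, 0, 0⟩, ⟨0, 0, 0, 0⟩, ⟨0, 0, 0, 0⟩, ⟨0, 0, 0, 0⟩, ⟨0, 0, 0, 0⟩,
    ⟨0, 0, 0, 0⟩, ⟨0, 0, 0, 0⟩, ⟨0, 0, 0, 0⟩, ⟨0, 0, 0, 0⟩, ⟨0, 0, 0, 0⟩, ⟨0, 0, 0, 0⟩, ⟨0, 0, 0,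
    0⟩, ⟨0, 0, 0, 0⟩, ⟨0, 0, 0, 0⟩, ⟨7449083904000000000000, 0, 0, 0⟩, ⟨0, 0, 0, 0⟩, ⟨0, 0, 0, 0⟩,
    ⟨0, 0, 0, 0⟩, ⟨0, 0, 0, 0⟩, ⟨0, 0, 0, 0⟩, ⟨0, 0, 0, 0⟩, ⟨0, 0, 0, 0⟩, ⟨0, 0, 0, 0⟩, ⟨0, 0, 0,
    0⟩, ⟨0, 0, 0, 0⟩, ⟨0, 0, 0, 0⟩, ⟨0, 0, 0, 0⟩, ⟨0, 0, 0, 0⟩, ⟨0, 0, 0, 0⟩, ⟨0, 0, 0, 0⟩, ⟨0, 0,
    0, 0⟩, ⟨0, 0, 0, 0⟩, ⟨0, 346030080000000, 0, 0⟩, ⟨0, 0, 0, 0⟩, ⟨0, 0, 0, 0⟩, ⟨0, 0, 0, 0⟩, ⟨0,
    0, 0, 0⟩, ⟨0, 0, 0, 0⟩, ⟨0, 0, 0, 0⟩, ⟨0, 0, 0, 0⟩, ⟨0, 0, 0, 0⟩, ⟨0, 0, 0, 0⟩, ⟨0, 0, 0, 0⟩,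
    ⟨0, 0, 0, 0⟩, ⟨0, 0, 0, 0⟩, ⟨0, 0, 0, 0⟩, ⟨0, 0, 0, 0⟩, ⟨0, 0, 0, 0⟩, ⟨0, 0, 0, 0⟩, ⟨0, 0, 0,
    0⟩, ⟨49201152, 0, 0, 0⟩, ⟨0, 0, 0, 0⟩, ⟨0, 0, 0, 0⟩, ⟨0, 0, 0, 0⟩, ⟨0, 0, 0, 0⟩, ⟨0, 0, 0, 0⟩,
    ⟨0, 0, 0, 0⟩, ⟨0, 0, 0, 0⟩, ⟨0, 0, 0, 0⟩]⟩

lemma rpF7nn : Rp cF7nn.L (fun i => (gF7nn i).v) := by
  have h : cF7nn.L = (List.range 135).map gF7nn := by rfl
  rw [h]
  exact rp_map _ _

lemma evF7nn {z k l Z0 Z1 Z2 : ℂ} (h1 : mr false Z1 = 16000 * k)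
    (h2 : mr false Z2 = 16000 * l) :
    app (slots cF7nn (16000 * z) Z0 Z1 Z2) (fun i => (gF7nn i).v) 0 =
      865555819583590367232000000000000000000000000000000000000000000 * (k ^ 2 + l ^ 2 - 2 * k * l * (64 * z ^ 7 - 112 * z ^ 5 + 56 * z ^ 3 - 7 * z) + (z * (64 * z ^ 6 - 80 * z ^ 4 + 24 * z ^ 2 - 1)) ^ 2) := by
  rw [app_slots]
  simp only [cF7nn, Finset.sum_range_succ, Finset.sum_range_zero, Nat.reduceAdd, Nat.reduceMul,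
    zero_add, add_zero, gF7nn, Nat.reduceEqDiff, if_true, if_false, v_zero, v_re, v_neg, v_im, v_imn,
    mul_zero, h1, h2, Nat.cast_zero, OfNat.ofNat_ne_zero, OfNat.ofNat_eq_ofNat, Nat.reduceEqDiff, Nat.cast_ofNat]
  simp only [Nat.choose, Nat.reduceAdd, pow_zero, pow_one, mul_one, one_mul, Nat.cast_one,
    Nat.cast_ofNat, mul_pow, Complex.I_sq]
  ring_nf
  try simp only [Complex.I_sq, Complex.I_pow_three, Complex.I_pow_four, I5, I6, I7, I8]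
  try ring

/-- coefficients -/
def gG7m (i : ℕ) : G4 :=
  if i = 1 then ⟨0, 0, 0, 1761607680000000000000000000⟩ else
  if i = 2 then ⟨0, 0, 0, 251658240000000000000000000⟩ else
  if i = 6 then ⟨0, 0, 4718592000000000000, 0⟩ else
  if i = 10 then ⟨0, 0, 0, 102400000000⟩ else
  if i = 14 then ⟨0, 0, 6720, 0⟩ else
  ⟨0, 0, 0, 0⟩

/-- configuration -/
def cG7m : Cfg := ⟨7, 0, 0, 0, 2, 2, 2, false, false, true, [⟨0, 0, 0, 0⟩, ⟨0, 0, 0,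
    1761607680000000000000000000⟩, ⟨0, 0, 0, 251658240000000000000000000⟩, ⟨0, 0, 0, 0⟩, ⟨0, 0, 0,
    0⟩, ⟨0, 0, 0, 0⟩, ⟨0, 0, 4718592000000000000, 0⟩, ⟨0, 0, 0, 0⟩, ⟨0, 0, 0, 0⟩, ⟨0, 0, 0, 0⟩,
    ⟨0, 0, 0, 102400000000⟩, ⟨0, 0, 0, 0⟩, ⟨0, 0, 0, 0⟩, ⟨0, 0, 0, 0⟩, ⟨0, 0, 6720, 0⟩, ⟨0, 0, 0,
    0⟩]⟩

lemma rpG7m : Rp cG7m.L (fun i => (gG7m i).v) := by
  have h : cG7m.L = (List.range 16).map gG7m := by rfl
  rw [h]
  exact rp_map _ _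

lemma evG7m {z k Z0 Z1 Z2 : ℂ} (h2 : mr true Z2 = Complex.I * (16000 * k)) :
    app (slots cG7m (16000 * z) Z0 Z1 Z2) (fun i => (gG7m i).v) 0 =
      28185722880000000000000000000000 * (k + Complex.I * z * (64 * z ^ 6 - 80 * z ^ 4 + 24 * z ^ 2 - 1)) := by
  rw [app_slots]
  simp only [cG7m, Finset.sum_range_succ, Finset.sum_range_zero, Nat.reduceAdd, Nat.reduceMul,
    zero_add, add_zero, gG7m, Nat.reduceEqDiff, if_true, if_false, v_zero, v_re, v_neg, v_im, v_imn,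
    mul_zero, h2, Nat.cast_zero, OfNat.ofNat_ne_zero, OfNat.ofNat_eq_ofNat, Nat.reduceEqDiff, Nat.cast_ofNat]
  simp only [Nat.choose, Nat.reduceAdd, pow_zero, pow_one, mul_one, one_mul, Nat.cast_one,
    Nat.cast_ofNat, mul_pow, Complex.I_sq]
  ring_nf
  try simp only [Complex.I_sq, Complex.I_pow_three, Complex.I_pow_four, I5, I6, I7, I8]
  try ring

/-- coefficients -/
def gG7n (i : ℕ) : G4 :=
  if i = 1 then ⟨1761607680000000000000000000, 0, 0, 0⟩ else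
  if i = 2 then ⟨0, 0, 0, 251658240000000000000000000⟩ else
  if i = 6 then ⟨0, 0, 4718592000000000000, 0⟩ else
  if i = 10 then ⟨0, 0, 0, 102400000000⟩ else
  if i = 14 then ⟨0, 0, 6720, 0⟩ else
  ⟨0, 0, 0, 0⟩

/-- configuration -/
def cG7n : Cfg := ⟨7, 0, 0, 0, 2, 2, 2, false, false, false, [⟨0, 0, 0, 0⟩,
    ⟨1761607680000000000000000000, 0, 0, 0⟩, ⟨0, 0, 0, 251658240000000000000000000⟩, ⟨0, 0, 0, 0⟩,
    ⟨0, 0, 0, 0⟩, ⟨0, 0, 0, 0⟩, ⟨0, 0, 4718592000000000000, 0⟩, ⟨0, 0, 0, 0⟩, ⟨0, 0, 0, 0⟩, ⟨0, 0,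
    0, 0⟩, ⟨0, 0, 0, 102400000000⟩, ⟨0, 0, 0, 0⟩, ⟨0, 0, 0, 0⟩, ⟨0, 0, 0, 0⟩, ⟨0, 0, 6720, 0⟩, ⟨0,
    0, 0, 0⟩]⟩

lemma rpG7n : Rp cG7n.L (fun i => (gG7n i).v) := by
  have h : cG7n.L = (List.range 16).map gG7n := by rfl
  rw [h]
  exact rp_map _ _

lemma evG7n {z k Z0 Z1 Z2 : ℂ} (h2 : mr false Z2 = 16000 * k) :
    app (slots cG7n (16000 * z) Z0 Z1 Z2) (fun i => (gG7n i).v) 0 =
      28185722880000000000000000000000 * (k + Complex.I * z * (64 * z ^ 6 - 80 * z ^ 4 + 24 * z ^ 2 - 1)) := by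
  rw [app_slots]
  simp only [cG7n, Finset.sum_range_succ, Finset.sum_range_zero, Nat.reduceAdd, Nat.reduceMul,
    zero_add, add_zero, gG7n, Nat.reduceEqDiff, if_true, if_false, v_zero, v_re, v_neg, v_im, v_imn,
    mul_zero, h2, Nat.cast_zero, OfNat.ofNat_ne_zero, OfNat.ofNat_eq_ofNat, Nat.reduceEqDiff, Nat.cast_ofNat]
  simp only [Nat.choose, Nat.reduceAdd, pow_zero, pow_one, mul_one, one_mul, Nat.cast_one,
    Nat.cast_ofNat, mul_pow, Complex.I_sq]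
  ring_nf
  try simp only [Complex.I_sq, Complex.I_pow_three, Complex.I_pow_four, I5, I6, I7, I8]
  try ring

end Pool.Agent.Work.MP_b30479_gtS.G2.SC

end

section

/-!
# Tensors of the hinge equations
-/

set_option linter.unusedSimpArgs false
set_option linter.unusedTactic false
set_option linter.unreachableTactic false

namespace Pool.Agent.Work.MP_b30479_gtS.G2.SC

/-- coefficients -/
def gPmm (i : ℕ) : G4 :=
  if i = 1 then ⟨0, 0, 0, 196608000000000000⟩ else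
  if i = 2 then ⟨0, 0, 0, 65536000000000000⟩ else
  if i = 5 then ⟨0, 0, 3840000000, 0⟩ else
  if i = 6 then ⟨0, 0, 6912000000, 0⟩ else
  if i = 13 then ⟨0, 64000, 0, 0⟩ else
  if i = 14 then ⟨0, 144000, 0, 0⟩ else
  if i = 21 then ⟨0, 0, 0, 1⟩ else
  if i = 22 then ⟨0, 0, 0, 3⟩ else
  ⟨0, 0, 0, 0⟩

/-- configuration -/
def cPmm : Cfg := ⟨2, 0, 3, 0, 8, 8, 2, false, true, true, [⟨0, 0, 0, 0⟩, ⟨0, 0, 0,
    196608000000000000⟩, ⟨0, 0, 0, 65536000000000000⟩, ⟨0, 0, 0, 0⟩, ⟨0, 0, 0, 0⟩, ⟨0, 0,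
    3840000000, 0⟩, ⟨0, 0, 6912000000, 0⟩, ⟨0, 0, 0, 0⟩, ⟨0, 0, 0, 0⟩, ⟨0, 0, 0, 0⟩, ⟨0, 0, 0, 0⟩,
    ⟨0, 0, 0, 0⟩, ⟨0, 0, 0, 0⟩, ⟨0, 64000, 0, 0⟩, ⟨0, 144000, 0, 0⟩, ⟨0, 0, 0, 0⟩, ⟨0, 0, 0, 0⟩,
    ⟨0, 0, 0, 0⟩, ⟨0, 0, 0, 0⟩, ⟨0, 0, 0, 0⟩, ⟨0, 0, 0, 0⟩, ⟨0, 0, 0, 1⟩, ⟨0, 0, 0, 3⟩, ⟨0, 0, 0,
    0⟩]⟩

lemma rpPmm : Rp cPmm.L (fun i => (gPmm i).v) := by
  have h : cPmm.L = (List.range 24).map gPmm := by rfl
  rw [h]
  exact rp_map _ _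

lemma evPmm {R k l Z0 Z1 Z2 : ℂ} (h1 : mr true Z1 = Complex.I * (16000 * k))
    (h2 : mr true Z2 = Complex.I * (16000 * l)) :
    app (slots cPmm (16000 * (R + 4 * Complex.I)) Z0 Z1 Z2) (fun i => (gPmm i).v) 0 =
      3145728000000000000000 * ((k + l) * (k ^ 2 * (1 - Complex.I * R) ^ 2 + 1) -
        2 * (1 - Complex.I * R) * k ^ 2 * l) := by
  rw [app_slots]
  simp only [cPmm, Finset.sum_range_succ, Finset.sum_range_zero, Nat.reduceAdd, Nat.reduceMul,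
    zero_add, add_zero, gPmm, Nat.reduceEqDiff, if_true, if_false, v_zero, v_re, v_neg, v_im, v_imn,
    mul_zero, h1, h2, Nat.cast_zero, OfNat.ofNat_ne_zero, OfNat.ofNat_eq_ofNat, Nat.reduceEqDiff, Nat.cast_ofNat]
  simp only [Nat.choose, Nat.reduceAdd, pow_zero, pow_one, mul_one, one_mul, Nat.cast_one,
    Nat.cast_ofNat, mul_pow, Complex.I_sq]
  ring_nf
  try simp only [Complex.I_sq, Complex.I_pow_three, Complex.I_pow_four, I5, I6, I7, I8]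
  try ring

/-- coefficients -/
def gPmn (i : ℕ) : G4 :=
  if i = 1 then ⟨196608000000000000, 0, 0, 0⟩ else
  if i = 2 then ⟨0, 0, 0, 65536000000000000⟩ else
  if i = 5 then ⟨0, 3840000000, 0, 0⟩ else
  if i = 6 then ⟨0, 0, 6912000000, 0⟩ else
  if i = 13 then ⟨0, 0, 0, 64000⟩ else
  if i = 14 then ⟨0, 144000, 0, 0⟩ else
  if i = 21 then ⟨1, 0, 0, 0⟩ else
  if i = 22 then ⟨0, 0, 0, 3⟩ else
  ⟨0, 0, 0, 0⟩

/-- configuration -/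
def cPmn : Cfg := ⟨2, 0, 3, 0, 8, 8, 2, false, true, false, [⟨0, 0, 0, 0⟩, ⟨196608000000000000, 0,
    0, 0⟩, ⟨0, 0, 0, 65536000000000000⟩, ⟨0, 0, 0, 0⟩, ⟨0, 0, 0, 0⟩, ⟨0, 3840000000, 0, 0⟩, ⟨0, 0,
    6912000000, 0⟩, ⟨0, 0, 0, 0⟩, ⟨0, 0, 0, 0⟩, ⟨0, 0, 0, 0⟩, ⟨0, 0, 0, 0⟩, ⟨0, 0, 0, 0⟩, ⟨0, 0,
    0, 0⟩, ⟨0, 0, 0, 64000⟩, ⟨0, 144000, 0, 0⟩, ⟨0, 0, 0, 0⟩, ⟨0, 0, 0, 0⟩, ⟨0, 0, 0, 0⟩, ⟨0, 0,
    0, 0⟩, ⟨0, 0, 0, 0⟩, ⟨0, 0, 0, 0⟩, ⟨1, 0, 0, 0⟩, ⟨0, 0, 0, 3⟩, ⟨0, 0, 0, 0⟩]⟩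

lemma rpPmn : Rp cPmn.L (fun i => (gPmn i).v) := by
  have h : cPmn.L = (List.range 24).map gPmn := by rfl
  rw [h]
  exact rp_map _ _

lemma evPmn {R k l Z0 Z1 Z2 : ℂ} (h1 : mr true Z1 = Complex.I * (16000 * k))
    (h2 : mr false Z2 = 16000 * l) :
    app (slots cPmn (16000 * (R + 4 * Complex.I)) Z0 Z1 Z2) (fun i => (gPmn i).v) 0 =
      3145728000000000000000 * ((k + l) * (k ^ 2 * (1 - Complex.I * R) ^ 2 + 1) -
        2 * (1 - Complex.I * R) * k ^ 2 * l) := by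
  rw [app_slots]
  simp only [cPmn, Finset.sum_range_succ, Finset.sum_range_zero, Nat.reduceAdd, Nat.reduceMul,
    zero_add, add_zero, gPmn, Nat.reduceEqDiff, if_true, if_false, v_zero, v_re, v_neg, v_im, v_imn,
    mul_zero, h1, h2, Nat.cast_zero, OfNat.ofNat_ne_zero, OfNat.ofNat_eq_ofNat, Nat.reduceEqDiff, Nat.cast_ofNat]
  simp only [Nat.choose, Nat.reduceAdd, pow_zero, pow_one, mul_one, one_mul, Nat.cast_one,
    Nat.cast_ofNat, mul_pow, Complex.I_sq]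
  ring_nf
  try simp only [Complex.I_sq, Complex.I_pow_three, Complex.I_pow_four, I5, I6, I7, I8]
  try ring

/-- coefficients -/
def gPnm (i : ℕ) : G4 :=
  if i = 1 then ⟨0, 0, 0, 196608000000000000⟩ else
  if i = 2 then ⟨65536000000000000, 0, 0, 0⟩ else
  if i = 5 then ⟨0, 0, 0, 3840000000⟩ else
  if i = 6 then ⟨6912000000, 0, 0, 0⟩ else
  if i = 13 then ⟨64000, 0, 0, 0⟩ else
  if i = 14 then ⟨0, 0, 144000, 0⟩ else
  if i = 21 then ⟨0, 0, 1, 0⟩ else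
  if i = 22 then ⟨0, 3, 0, 0⟩ else
  ⟨0, 0, 0, 0⟩

/-- configuration -/
def cPnm : Cfg := ⟨2, 0, 3, 0, 8, 8, 2, false, false, true, [⟨0, 0, 0, 0⟩, ⟨0, 0, 0,
    196608000000000000⟩, ⟨65536000000000000, 0, 0, 0⟩, ⟨0, 0, 0, 0⟩, ⟨0, 0, 0, 0⟩, ⟨0, 0, 0,
    3840000000⟩, ⟨6912000000, 0, 0, 0⟩, ⟨0, 0, 0, 0⟩, ⟨0, 0, 0, 0⟩, ⟨0, 0, 0, 0⟩, ⟨0, 0, 0, 0⟩,
    ⟨0, 0, 0, 0⟩, ⟨0, 0, 0, 0⟩, ⟨64000, 0, 0, 0⟩, ⟨0, 0, 144000, 0⟩, ⟨0, 0, 0, 0⟩, ⟨0, 0, 0, 0⟩,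
    ⟨0, 0, 0, 0⟩, ⟨0, 0, 0, 0⟩, ⟨0, 0, 0, 0⟩, ⟨0, 0, 0, 0⟩, ⟨0, 0, 1, 0⟩, ⟨0, 3, 0, 0⟩, ⟨0, 0, 0,
    0⟩]⟩

lemma rpPnm : Rp cPnm.L (fun i => (gPnm i).v) := by
  have h : cPnm.L = (List.range 24).map gPnm := by rfl
  rw [h]
  exact rp_map _ _

lemma evPnm {R k l Z0 Z1 Z2 : ℂ} (h1 : mr false Z1 = 16000 * k)
    (h2 : mr true Z2 = Complex.I * (16000 * l)) :
    app (slots cPnm (16000 * (R + 4 * Complex.I)) Z0 Z1 Z2) (fun i => (gPnm i).v) 0 =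
      3145728000000000000000 * ((k + l) * (k ^ 2 * (1 - Complex.I * R) ^ 2 + 1) -
        2 * (1 - Complex.I * R) * k ^ 2 * l) := by
  rw [app_slots]
  simp only [cPnm, Finset.sum_range_succ, Finset.sum_range_zero, Nat.reduceAdd, Nat.reduceMul,
    zero_add, add_zero, gPnm, Nat.reduceEqDiff, if_true, if_false, v_zero, v_re, v_neg, v_im, v_imn,
    mul_zero, h1, h2, Nat.cast_zero, OfNat.ofNat_ne_zero, OfNat.ofNat_eq_ofNat, Nat.reduceEqDiff, Nat.cast_ofNat]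
  simp only [Nat.choose, Nat.reduceAdd, pow_zero, pow_one, mul_one, one_mul, Nat.cast_one,
    Nat.cast_ofNat, mul_pow, Complex.I_sq]
  ring_nf
  try simp only [Complex.I_sq, Complex.I_pow_three, Complex.I_pow_four, I5, I6, I7, I8]
  try ring

/-- coefficients -/
def gEm (i : ℕ) : G4 :=
  if i = 2 then ⟨65536000000000000, 0, 0, 0⟩ else
  if i = 6 then ⟨0, 65536000000000000, 0, 0⟩ else
  if i = 8 then ⟨3840000000, 0, 0, 0⟩ else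
  if i = 17 then ⟨0, 0, 64000, 0⟩ else
  if i = 26 then ⟨0, 1, 0, 0⟩ else
  ⟨0, 0, 0, 0⟩

/-- configuration -/
def cEm : Cfg := ⟨2, 0, 2, 1, 9, 9, 3, false, false, true, [⟨0, 0, 0, 0⟩, ⟨0, 0, 0, 0⟩,
    ⟨65536000000000000, 0, 0, 0⟩, ⟨0, 0, 0, 0⟩, ⟨0, 0, 0, 0⟩, ⟨0, 0, 0, 0⟩, ⟨0, 65536000000000000,
    0, 0⟩, ⟨0, 0, 0, 0⟩, ⟨3840000000, 0, 0, 0⟩, ⟨0, 0, 0, 0⟩, ⟨0, 0, 0, 0⟩, ⟨0, 0, 0, 0⟩, ⟨0, 0,
    0, 0⟩, ⟨0, 0, 0, 0⟩, ⟨0, 0, 0, 0⟩, ⟨0, 0, 0, 0⟩, ⟨0, 0, 0, 0⟩, ⟨0, 0, 64000, 0⟩, ⟨0, 0, 0, 0⟩,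
    ⟨0, 0, 0, 0⟩, ⟨0, 0, 0, 0⟩, ⟨0, 0, 0, 0⟩, ⟨0, 0, 0, 0⟩, ⟨0, 0, 0, 0⟩, ⟨0, 0, 0, 0⟩, ⟨0, 0, 0,
    0⟩, ⟨0, 1, 0, 0⟩]⟩

lemma rpEm : Rp cEm.L (fun i => (gEm i).v) := by
  have h : cEm.L = (List.range 27).map gEm := by rfl
  rw [h]
  exact rp_map _ _

lemma evEm {R z k Z0 Z1 Z2 : ℂ} (h1 : mr false Z1 = 16000 * z)
    (h2 : mr true Z2 = Complex.I * (16000 * k)) :
    app (slots cEm (16000 * (R + 4 * Complex.I)) Z0 Z1 Z2) (fun i => (gEm i).v) 0 =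
      16777216000000000000000000 * (k ^ 2 * (z ^ 2 * (R ^ 2 + 1) - 1) - z ^ 2) := by
  rw [app_slots]
  simp only [cEm, Finset.sum_range_succ, Finset.sum_range_zero, Nat.reduceAdd, Nat.reduceMul,
    zero_add, add_zero, gEm, Nat.reduceEqDiff, if_true, if_false, v_zero, v_re, v_neg, v_im, v_imn,
    mul_zero, h1, h2, Nat.cast_zero, OfNat.ofNat_ne_zero, OfNat.ofNat_eq_ofNat, Nat.reduceEqDiff, Nat.cast_ofNat]
  simp only [Nat.choose, Nat.reduceAdd, pow_zero, pow_one, mul_one, one_mul, Nat.cast_one,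
    Nat.cast_ofNat, mul_pow, Complex.I_sq]
  ring_nf
  try simp only [Complex.I_sq, Complex.I_pow_three, Complex.I_pow_four, I5, I6, I7, I8]
  try ring

/-- coefficients -/
def gEn (i : ℕ) : G4 :=
  if i = 2 then ⟨0, 65536000000000000, 0, 0⟩ else
  if i = 6 then ⟨0, 65536000000000000, 0, 0⟩ else
  if i = 8 then ⟨0, 3840000000, 0, 0⟩ else
  if i = 17 then ⟨0, 0, 0, 64000⟩ else
  if i = 26 then ⟨1, 0, 0, 0⟩ else
  ⟨0, 0, 0, 0⟩

/-- configuration -/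
def cEn : Cfg := ⟨2, 0, 2, 1, 9, 9, 3, false, false, false, [⟨0, 0, 0, 0⟩, ⟨0, 0, 0, 0⟩, ⟨0,
    65536000000000000, 0, 0⟩, ⟨0, 0, 0, 0⟩, ⟨0, 0, 0, 0⟩, ⟨0, 0, 0, 0⟩, ⟨0, 65536000000000000, 0,
    0⟩, ⟨0, 0, 0, 0⟩, ⟨0, 3840000000, 0, 0⟩, ⟨0, 0, 0, 0⟩, ⟨0, 0, 0, 0⟩, ⟨0, 0, 0, 0⟩, ⟨0, 0, 0,
    0⟩, ⟨0, 0, 0, 0⟩, ⟨0, 0, 0, 0⟩, ⟨0, 0, 0, 0⟩, ⟨0, 0, 0, 0⟩, ⟨0, 0, 0, 64000⟩, ⟨0, 0, 0, 0⟩,
    ⟨0, 0, 0, 0⟩, ⟨0, 0, 0, 0⟩, ⟨0, 0, 0, 0⟩, ⟨0, 0, 0, 0⟩, ⟨0, 0, 0, 0⟩, ⟨0, 0, 0, 0⟩, ⟨0, 0, 0,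
    0⟩, ⟨1, 0, 0, 0⟩]⟩

lemma rpEn : Rp cEn.L (fun i => (gEn i).v) := by
  have h : cEn.L = (List.range 27).map gEn := by rfl
  rw [h]
  exact rp_map _ _

lemma evEn {R z k Z0 Z1 Z2 : ℂ} (h1 : mr false Z1 = 16000 * z)
    (h2 : mr false Z2 = 16000 * k) :
    app (slots cEn (16000 * (R + 4 * Complex.I)) Z0 Z1 Z2) (fun i => (gEn i).v) 0 =
      16777216000000000000000000 * (k ^ 2 * (z ^ 2 * (R ^ 2 + 1) - 1) - z ^ 2) := by
  rw [app_slots]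
  simp only [cEn, Finset.sum_range_succ, Finset.sum_range_zero, Nat.reduceAdd, Nat.reduceMul,
    zero_add, add_zero, gEn, Nat.reduceEqDiff, if_true, if_false, v_zero, v_re, v_neg, v_im, v_imn,
    mul_zero, h1, h2, Nat.cast_zero, OfNat.ofNat_ne_zero, OfNat.ofNat_eq_ofNat, Nat.reduceEqDiff, Nat.cast_ofNat]
  simp only [Nat.choose, Nat.reduceAdd, pow_zero, pow_one, mul_one, one_mul, Nat.cast_one,
    Nat.cast_ofNat, mul_pow, Complex.I_sq]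
  ring_nf
  try simp only [Complex.I_sq, Complex.I_pow_three, Complex.I_pow_four, I5, I6, I7, I8]
  try ring

/-- coefficients -/
def gH1 (i : ℕ) : G4 :=
  if i = 1 then ⟨196608000000000000, 0, 0, 0⟩ else
  if i = 6 then ⟨0, 0, 4096000000000, 0⟩ else
  if i = 14 then ⟨0, 0, 0, 576000⟩ else
  if i = 22 then ⟨0, 256000000, 0, 0⟩ else
  if i = 30 then ⟨12, 0, 0, 0⟩ else
  ⟨0, 0, 0, 0⟩

/-- configuration -/
def cH1 : Cfg := ⟨1, 3, 1, 0, 16, 4, 2, false, true, false, [⟨0, 0, 0, 0⟩, ⟨196608000000000000, 0,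
    0, 0⟩, ⟨0, 0, 0, 0⟩, ⟨0, 0, 0, 0⟩, ⟨0, 0, 0, 0⟩, ⟨0, 0, 0, 0⟩, ⟨0, 0, 4096000000000, 0⟩, ⟨0,
    0, 0, 0⟩, ⟨0, 0, 0, 0⟩, ⟨0, 0, 0, 0⟩, ⟨0, 0, 0, 0⟩, ⟨0, 0, 0, 0⟩, ⟨0, 0, 0, 0⟩, ⟨0, 0, 0, 0⟩,
    ⟨0, 0, 0, 576000⟩, ⟨0, 0, 0, 0⟩, ⟨0, 0, 0, 0⟩, ⟨0, 0, 0, 0⟩, ⟨0, 0, 0, 0⟩, ⟨0, 0, 0, 0⟩, ⟨0,
    0, 0, 0⟩, ⟨0, 0, 0, 0⟩, ⟨0, 256000000, 0, 0⟩, ⟨0, 0, 0, 0⟩, ⟨0, 0, 0, 0⟩, ⟨0, 0, 0, 0⟩, ⟨0, 0,
    0, 0⟩, ⟨0, 0, 0, 0⟩, ⟨0, 0, 0, 0⟩, ⟨0, 0, 0, 0⟩, ⟨12, 0, 0, 0⟩, ⟨0, 0, 0, 0⟩]⟩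

lemma rpH1 : Rp cH1.L (fun i => (gH1 i).v) := by
  have h : cH1.L = (List.range 32).map gH1 := by rfl
  rw [h]
  exact rp_map _ _

lemma evH1 {R z k l Z0 Z1 Z2 : ℂ} (h0 : mr false Z0 = 16000 * z)
    (h1 : mr true Z1 = Complex.I * (16000 * k)) (h2 : mr false Z2 = 16000 * l) :
    app (slots cH1 (16000 * (R + 4 * Complex.I)) Z0 Z1 Z2) (fun i => (gH1 i).v) 0 =
      3145728000000000000000 * (l - k * (4 * z ^ 3 - 3 * z - Complex.I * R * (z * (4 * z ^ 2 - 1)))) := by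
  rw [app_slots]
  simp only [cH1, Finset.sum_range_succ, Finset.sum_range_zero, Nat.reduceAdd, Nat.reduceMul,
    zero_add, add_zero, gH1, Nat.reduceEqDiff, if_true, if_false, v_zero, v_re, v_neg, v_im, v_imn,
    mul_zero, h0, h1, h2, Nat.cast_zero, OfNat.ofNat_ne_zero, OfNat.ofNat_eq_ofNat, Nat.reduceEqDiff, Nat.cast_ofNat]
  simp only [Nat.choose, Nat.reduceAdd, pow_zero, pow_one, mul_one, one_mul, Nat.cast_one,
    Nat.cast_ofNat, mul_pow, Complex.I_sq]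
  ring_nf
  try simp only [Complex.I_sq, Complex.I_pow_three, Complex.I_pow_four, I5, I6, I7, I8]
  try ring

/-- coefficients -/
def gH2 (i : ℕ) : G4 :=
  if i = 4 then ⟨65536000000000000, 0, 0, 0⟩ else
  if i = 12 then ⟨0, 65536000000000000, 0, 0⟩ else
  if i = 16 then ⟨3840000000, 0, 0, 0⟩ else
  if i = 34 then ⟨0, 0, 64000, 0⟩ else
  if i = 52 then ⟨0, 1, 0, 0⟩ else
  ⟨0, 0, 0, 0⟩

/-- configuration -/
def cH2 : Cfg := ⟨2, 2, 2, 0, 18, 6, 2, false, true, false, [⟨0, 0, 0, 0⟩, ⟨0, 0, 0, 0⟩, ⟨0, 0, 0,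
    0⟩, ⟨0, 0, 0, 0⟩, ⟨65536000000000000, 0, 0, 0⟩, ⟨0, 0, 0, 0⟩, ⟨0, 0, 0, 0⟩, ⟨0, 0, 0, 0⟩, ⟨0,
    0, 0, 0⟩, ⟨0, 0, 0, 0⟩, ⟨0, 0, 0, 0⟩, ⟨0, 0, 0, 0⟩, ⟨0, 65536000000000000, 0, 0⟩, ⟨0, 0, 0,
    0⟩, ⟨0, 0, 0, 0⟩, ⟨0, 0, 0, 0⟩, ⟨3840000000, 0, 0, 0⟩, ⟨0, 0, 0, 0⟩, ⟨0, 0, 0, 0⟩, ⟨0, 0, 0,
    0⟩, ⟨0, 0, 0, 0⟩, ⟨0, 0, 0, 0⟩, ⟨0, 0, 0, 0⟩, ⟨0, 0, 0, 0⟩, ⟨0, 0, 0, 0⟩, ⟨0, 0, 0, 0⟩, ⟨0, 0,
    0, 0⟩, ⟨0, 0, 0, 0⟩, ⟨0, 0, 0, 0⟩, ⟨0, 0, 0, 0⟩, ⟨0, 0, 0, 0⟩, ⟨0, 0, 0, 0⟩, ⟨0, 0, 0, 0⟩, ⟨0,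
    0, 0, 0⟩, ⟨0, 0, 64000, 0⟩, ⟨0, 0, 0, 0⟩, ⟨0, 0, 0, 0⟩, ⟨0, 0, 0, 0⟩, ⟨0, 0, 0, 0⟩, ⟨0, 0, 0,
    0⟩, ⟨0, 0, 0, 0⟩, ⟨0, 0, 0, 0⟩, ⟨0, 0, 0, 0⟩, ⟨0, 0, 0, 0⟩, ⟨0, 0, 0, 0⟩, ⟨0, 0, 0, 0⟩, ⟨0, 0,
    0, 0⟩, ⟨0, 0, 0, 0⟩, ⟨0, 0, 0, 0⟩, ⟨0, 0, 0, 0⟩, ⟨0, 0, 0, 0⟩, ⟨0, 0, 0, 0⟩, ⟨0, 1, 0, 0⟩, ⟨0,
    0, 0, 0⟩]⟩

lemma rpH2 : Rp cH2.L (fun i => (gH2 i).v) := by
  have h : cH2.L = (List.range 54).map gH2 := by rfl
  rw [h]
  exact rp_map _ _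

lemma evH2 {R z k Z0 Z1 Z2 : ℂ} (h0 : mr false Z0 = 16000 * z)
    (h1 : mr true Z1 = Complex.I * (16000 * k)) :
    app (slots cH2 (16000 * (R + 4 * Complex.I)) Z0 Z1 Z2) (fun i => (gH2 i).v) 0 =
      16777216000000000000000000 * (k ^ 2 * (z ^ 2 * (R ^ 2 + 1) - 1) - z ^ 2) := by
  rw [app_slots]
  simp only [cH2, Finset.sum_range_succ, Finset.sum_range_zero, Nat.reduceAdd, Nat.reduceMul,
    zero_add, add_zero, gH2, Nat.reduceEqDiff, if_true, if_false, v_zero, v_re, v_neg, v_im, v_imn,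
    mul_zero, h0, h1, Nat.cast_zero, OfNat.ofNat_ne_zero, OfNat.ofNat_eq_ofNat, Nat.reduceEqDiff, Nat.cast_ofNat]
  simp only [Nat.choose, Nat.reduceAdd, pow_zero, pow_one, mul_one, one_mul, Nat.cast_one,
    Nat.cast_ofNat, mul_pow, Complex.I_sq]
  ring_nf
  try simp only [Complex.I_sq, Complex.I_pow_three, Complex.I_pow_four, I5, I6, I7, I8]
  try ring

end Pool.Agent.Work.MP_b30479_gtS.G2.SC

end

section

/-!
# Location of a ring: from the exclusions on the polygons to the statement about the ring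

`z = cos w`, `C = cos (b w)`, `sin (b w) = sin w * U`, `R = RR w k`: `l = k (C - i R z U)` for two
ports, `k + i z U = 0`, `R k = - C` for one port.
-/

namespace Pool.Agent.Work.MP_b30479_gtS.G2.SL

open Complex SC
open scoped ComplexConjugate

/-! ### linear bounds on the polygons -/

lemma poly_lin {V : List (ℤ × ℤ)} (hV : shape V = true) {a b c : ℤ}
    (h : ∀ v ∈ V, 0 ≤ a * v.1 + b * v.2 + c) {z : ℂ} (hz : z ∈ Poly V) :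
    0 ≤ (a : ℝ) * (1000 * z.re) + b * (1000 * z.im) + c := by
  have h2 := poly_aff0 hV (mem_Poly.1 hz) (A := ⟨(a : ℝ), -(b : ℝ)⟩) (c := c) (fun v hv => by
    have h3 : (0 : ℝ) ≤ ((a * v.1 + b * v.2 + c : ℤ) : ℝ) := by exact_mod_cast h v hv
    push_cast at h3
    simp only [zp, Complex.mul_re]
    linarith only [h3])
  simp only [Complex.mul_re, Complex.mul_im, Complex.re_ofNat, Complex.im_ofNat] at h2
  linarith only [h2]

lemma vt_shape (t : RT) : shape (vt t) = true := by cases t <;> decide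

lemma vt_cvx (t : RT) : cvx (vt t) := by cases t <;> decide

lemma vt_re {t : RT} {z : ℂ} (hz : z ∈ Poly (vt t)) : 42 / 100 ≤ z.re := by
  have := poly_lin (vt_shape t) (a := 1) (b := 0) (c := -420) (by cases t <;> decide) hz
  push_cast at this
  linarith only [this]

lemma vt_re_le {t : RT} {z : ℂ} (hz : z ∈ Poly (vt t)) : z.re ≤ 1 := by
  have := poly_lin (vt_shape t) (a := -1) (b := 0) (c := 1000) (by cases t <;> decide) hz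
  push_cast at this
  linarith only [this]

lemma vt_im {t : RT} {z : ℂ} (hz : z ∈ Poly (vt t)) : 0 ≤ z.im := by
  have := poly_lin (vt_shape t) (a := 0) (b := 1) (c := 0) (by cases t <;> decide) hz
  push_cast at this
  linarith only [this]

lemma vt_im_le {t : RT} {z : ℂ} (hz : z ∈ Poly (vt t)) : z.im ≤ 68 / 100 := by
  have := poly_lin (vt_shape t) (a := 0) (b := -1) (c := 680) (by cases t <;> decide) hz
  push_cast at this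
  linarith only [this]

lemma vt_re_lt {t : RT} (ht : t ≠ .t8) {z : ℂ} (hz : z ∈ Poly (vt t)) : z.re < 1 := by
  have := poly_lin (vt_shape t) (a := -1) (b := 0) (c := 970) (by
    cases t <;> first | decide | exact absurd rfl ht) hz
  push_cast at this
  linarith only [this]

/-- what is needed about a port -/
structure Port (k : ℂ) : Prop where
  re : 42 / 100 ≤ k.re
  re_le : k.re ≤ 1
  im_abs : |k.im| ≤ 68 / 100
  im : k.im ≤ k.re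

lemma port_a {k : ℂ} (h : conj k ∈ Poly pA) : Port k := by
  have hs : shape pA = true := by decide
  have h1 := poly_lin hs (a := 1) (b := 0) (c := -420) (by decide) h
  have h2 := poly_lin hs (a := -1) (b := 0) (c := 1000) (by decide) h
  have h3 := poly_lin hs (a := 0) (b := 1) (c := 0) (by decide) h
  have h4 := poly_lin hs (a := 0) (b := -1) (c := 680) (by decide) h
  rw [conj_re, conj_im] at h1 h2 h3 h4
  push_cast at h1 h2 h3 h4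
  refine ⟨by linarith only [h1], by linarith only [h2], ?_, by linarith only [h1, h3]⟩
  rw [abs_le]
  constructor <;> linarith only [h4, h3]

lemma port_s {k : ℂ} (h : k ∈ Poly pS) : Port k := by
  have hs : shape pS = true := by decide
  have h1 := poly_lin hs (a := 1) (b := 0) (c := -420) (by decide) h
  have h2 := poly_lin hs (a := -1) (b := 0) (c := 1000) (by decide) h
  have h3 := poly_lin hs (a := 0) (b := 1) (c := 0) (by decide) h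
  have h4 := poly_lin hs (a := 0) (b := -1) (c := 680) (by decide) h
  have h5 := poly_lin hs (a := 1) (b := -1) (c := 0) (by decide) h
  push_cast at h1 h2 h3 h4 h5
  refine ⟨by linarith only [h1], by linarith only [h2], ?_, by linarith only [h5]⟩
  rw [abs_le]
  constructor <;> linarith only [h3, h4]

lemma port_t {k : ℂ} (h : k ∈ Poly pT) : Port k := by
  have hs : shape pT = true := by decide
  have h1 := poly_lin hs (a := 1) (b := 0) (c := -420) (by decide) h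
  have h2 := poly_lin hs (a := -1) (b := 0) (c := 1000) (by decide) h
  have h3 := poly_lin hs (a := 0) (b := 1) (c := 0) (by decide) h
  have h4 := poly_lin hs (a := 0) (b := -1) (c := 680) (by decide) h
  have h5 := poly_lin hs (a := 1) (b := -1) (c := 0) (by decide) h
  push_cast at h1 h2 h3 h4 h5
  refine ⟨by linarith only [h1], by linarith only [h2], ?_, by linarith only [h5]⟩
  rw [abs_le]
  constructor <;> linarith only [h3, h4]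

/-! ### real and imaginary parts -/

lemma cos_re (w : ℂ) : (Complex.cos w).re = Real.cos w.re * Real.cosh w.im := by
  conv_lhs => rw [← Complex.re_add_im w, Complex.cos_add_mul_I]
  simp [← Complex.ofReal_cos, ← Complex.ofReal_cosh, ← Complex.ofReal_sin, ← Complex.ofReal_sinh]

lemma cos_im (w : ℂ) : (Complex.cos w).im = -(Real.sin w.re * Real.sinh w.im) := by
  conv_lhs => rw [← Complex.re_add_im w, Complex.cos_add_mul_I]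
  simp [← Complex.ofReal_cos, ← Complex.ofReal_cosh, ← Complex.ofReal_sin, ← Complex.ofReal_sinh]

lemma sq_le_sinh_sq (y : ℝ) : y ^ 2 ≤ Real.sinh y ^ 2 := by
  rcases le_total 0 y with h | h
  · have := Real.self_le_sinh_iff.2 h
    nlinarith only [h, this]
  · have := Real.sinh_le_self_iff.2 h
    nlinarith only [h, this]

/-- the strict bounds on `w` -/
lemma loc_basic {w : ℂ} (h1 : w.re ≤ 3 / 2) (h2 : |w.im| ≤ 2)
    (hx : 42 / 100 ≤ (Complex.cos w).re) (hx1 : (Complex.cos w).re ≤ 1)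
    (hy0 : 0 ≤ (Complex.cos w).im) (hy : (Complex.cos w).im ≤ 68 / 100) :
    w.re < 3 / 2 ∧ |w.im| < 2 := by
  rw [cos_re] at hx hx1
  rw [cos_im] at hy0 hy
  have hch : Real.cosh w.im ^ 2 = 1 + Real.sinh w.im ^ 2 := by
    have := Real.cosh_sq w.im
    linarith only [this]
  have hcs := Real.sin_sq_add_cos_sq w.re
  have hs := sq_le_sinh_sq w.im
  have e1 : (Real.sin w.re * Real.sinh w.im) ^ 2 ≤ (68 / 100) ^ 2 := by
    apply sq_le_sq'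
    · linarith only [hy]
    · linarith only [hy0]
  rw [mul_pow] at e1
  have hchp := Real.cosh_pos w.im
  constructor
  · refine lt_of_le_of_ne h1 fun h => ?_
    rw [h] at hx hx1 e1 hcs
    have hpi := Real.pi_lt_d2
    have hpi0 := Real.pi_gt_three
    have hc : Real.cos (3 / 2) ≤ 75 / 1000 := by
      rw [← Real.sin_pi_div_two_sub]
      have := Real.sin_le (x := Real.pi / 2 - 3 / 2) (by linarith only [hpi0, Real.pi_gt_three])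
      linarith only [hpi, this]
    have hc0 : 0 < Real.cos (3 / 2) := Real.cos_pos_of_mem_Ioo ⟨by linarith only [hpi, hpi0], by linarith only [hpi0]⟩
    have h5 : 5 ≤ Real.cosh w.im := by nlinarith only [hx, hchp, hc]
    have h6 : 24 ≤ Real.sinh w.im ^ 2 := by nlinarith only [hch, hc, hc0, h5, hx, hchp]
    have h7 : 1 / 2 ≤ Real.sin (3 / 2) ^ 2 := by nlinarith only [hx1, hcs, e1, hc, hc0, h6, hch, hx]
    nlinarith only [e1, hc, hc0, h7, h6]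
  · refine lt_of_le_of_ne h2 fun h => ?_
    have h3 : w.im ^ 2 = 4 := by
      rw [← sq_abs, h]
      norm_num
    rw [h3] at hs
    have h4 : Real.cos w.re ^ 2 * Real.cosh w.im ^ 2 ≤ 1 := by
      rw [← mul_pow]
      have h0 : 0 ≤ Real.cos w.re * Real.cosh w.im := by linarith only [hx]
      nlinarith only [hx1, hx]
    have h5 : Real.cos w.re ^ 2 ≤ 1 / 5 := by
      have := sq_nonneg (Real.cos w.re)
      nlinarith only [h4, hch, hs]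
    have h6 : Real.sin w.re ^ 2 ≤ 1 / 5 := by
      have := sq_nonneg (Real.sin w.re)
      nlinarith only [hcs, e1, h5, hs]
    linarith only [hcs, h5, h6]

lemma re_pos_of {w : ℂ} (h0 : 0 ≤ w.re) (hx : (Complex.cos w).re < 1) : 0 < w.re := by
  refine lt_of_le_of_ne h0 fun h => ?_
  rw [cos_re, ← h, Real.cos_zero, one_mul] at hx
  exact absurd (Real.one_le_cosh w.im) (not_le.2 hx)

/-! ### the ring equation -/

lemma expQ {w k : ℂ} (h0 : 0 ≤ w.re) (h1 : w.re ≤ 3 / 2) (hk : 0 < k.re)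
    (hR : 0 < (RR w k).re) : exp (QQ w k) = (Complex.tan w + RR w k) * k := by
  have hT := tan_re_nonneg h0 h1
  have hk0 : k ≠ 0 := fun h => by rw [h] at hk; exact lt_irrefl _ hk
  have hTR : Complex.tan w + RR w k ≠ 0 := fun h => by
    have := congrArg Complex.re h
    rw [Complex.add_re, Complex.zero_re] at this
    linarith only [hR, hT, this]
  rw [QQ, exp_add, exp_log hTR, exp_log hk0]

lemma QQ_cosh {w k : ℂ} (h0 : 0 ≤ w.re) (h1 : w.re ≤ 3 / 2) (hk : 0 < k.re)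
    (hR : 0 < (RR w k).re) : Complex.cosh (QQ w k) = RR w k * k ∧
      Complex.sinh (QQ w k) = Complex.tan w * k := by
  have hk0 : k ≠ 0 := fun h => by rw [h] at hk; exact lt_irrefl _ hk
  refine cosh_Q hk0 ?_ (expQ h0 h1 hk hR)
  rw [RR_sq, ZZ0, one_div]

/-- the relation of the two ports -/
lemma rel_two {w k l b C U : ℂ} (hC : Complex.cos (b * w) = C)
    (hU : Complex.sin (b * w) = Complex.sin w * U) (h0 : 0 < w.re) (h1 : w.re ≤ 3 / 2)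
    (hz : Complex.cos w ≠ 0) (hk : 0 < k.re) (hl : 0 < l.re) (hR : 0 < (RR w k).re)
    (hR' : 0 < (RR w l).re) (hw : b * w - Real.pi + I * (QQ w k + QQ w l) = 0) :
    l = k * (C - I * RR w k * (Complex.cos w * U)) := by
  obtain ⟨c1, s1⟩ := QQ_cosh h0.le h1 hk hR
  obtain ⟨_, s2⟩ := QQ_cosh h0.le h1 hl hR'
  have hT : Complex.tan w ≠ 0 := fun h => by
    have := tan_re_pos h0 h1
    rw [h] at this
    exact lt_irrefl _ this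
  have hTz : Complex.tan w * Complex.cos w = Complex.sin w := Complex.tan_mul_cos hz
  have e : QQ w l = (b * w - Real.pi) * I - QQ w k := by
    linear_combination (-I) * hw + (QQ w k + QQ w l) * I_sq
  have h2 : Complex.sinh (QQ w l) =
      -(Complex.sin (b * w)) * I * Complex.cosh (QQ w k) +
        Complex.cos (b * w) * Complex.sinh (QQ w k) := by
    conv_lhs => rw [e]
    rw [Complex.sinh_sub, Complex.sinh_mul_I, Complex.cosh_mul_I, Complex.sin_sub_pi,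
      Complex.cos_sub_pi]
    ring
  rw [c1, s1, s2, hC, hU, ← hTz] at h2
  have h3 : Complex.tan w * (l - k * (C - I * RR w k * (Complex.cos w * U))) = 0 := by
    linear_combination h2
  exact sub_eq_zero.1 ((mul_eq_zero.1 h3).resolve_left hT)

/-- one port -/
lemma rel_one {w k b C U : ℂ} (hC : Complex.cos (b * w) = C)
    (hU : Complex.sin (b * w) = Complex.sin w * U) (h0 : 0 < w.re) (h1 : w.re ≤ 3 / 2)
    (hz : Complex.cos w ≠ 0) (hk : 0 < k.re) (hR : 0 < (RR w k).re)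
    (hw : b * w - Real.pi + I * QQ w k = 0) :
    k + I * Complex.cos w * U = 0 ∧ RR w k * k = -C := by
  obtain ⟨c1, s1⟩ := QQ_cosh h0.le h1 hk hR
  have hT : Complex.tan w ≠ 0 := fun h => by
    have := tan_re_pos h0 h1
    rw [h] at this
    exact lt_irrefl _ this
  have hTz : Complex.tan w * Complex.cos w = Complex.sin w := Complex.tan_mul_cos hz
  have e : QQ w k = (b * w - Real.pi) * I := by
    linear_combination (-I) * hw + QQ w k * I_sq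
  rw [e, Complex.sinh_mul_I, Complex.sin_sub_pi, hU, ← hTz] at s1
  rw [e, Complex.cosh_mul_I, Complex.cos_sub_pi, hC] at c1
  refine ⟨?_, c1.symm⟩
  have h3 : Complex.tan w * (k + I * Complex.cos w * U) = 0 := by
    linear_combination -s1
  exact (mul_eq_zero.1 h3).resolve_left hT

/-- the relation of the hinge -/
lemma rel_R {w k : ℂ} (hz : Complex.cos w ≠ 0) (hk : k ≠ 0) :
    k ^ 2 * (Complex.cos w ^ 2 * (RR w k ^ 2 + 1) - 1) - Complex.cos w ^ 2 = 0 := by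
  have hTz : Complex.tan w * Complex.cos w = Complex.sin w := Complex.tan_mul_cos hz
  have hs : Complex.sin w ^ 2 = 1 - Complex.cos w ^ 2 := by
    have := Complex.sin_sq_add_cos_sq w
    linear_combination this
  have h1 : Complex.cos w ^ 2 * Complex.tan w ^ 2 = 1 - Complex.cos w ^ 2 := by
    rw [← hs, ← hTz]
    ring
  rw [RR_sq, ZZ0]
  have h2 : k ^ 2 * (k ^ 2)⁻¹ = 1 := mul_inv_cancel₀ (pow_ne_zero 2 hk)
  linear_combination k ^ 2 * h1 + Complex.cos w ^ 2 * h2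

/-- elimination of the hinge -/
lemma front_id {z k l R C U : ℂ} (h1 : l = k * (C - I * R * (z * U)))
    (h2 : k ^ 2 * (z ^ 2 * (R ^ 2 + 1) - 1) - z ^ 2 = 0) (h3 : C ^ 2 + (1 - z ^ 2) * U ^ 2 = 1) :
    k ^ 2 + l ^ 2 - 2 * k * l * C + (z * U) ^ 2 = 0 := by
  subst h1
  linear_combination (k ^ 2 * (R * z * U) ^ 2) * I_sq - (U ^ 2) * h2 - k ^ 2 * h3

/-- bound of the hinge -/
lemma R_im_le {w k : ℂ} (hz : 42 / 100 ≤ (Complex.cos w).re) (hk : 42 / 100 ≤ k.re) :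
    |(RR w k).im| ≤ 4 := by
  have hzn : 42 / 100 ≤ ‖Complex.cos w‖ := hz.trans (Complex.re_le_norm _)
  have hkn : 42 / 100 ≤ ‖k‖ := hk.trans (Complex.re_le_norm _)
  have hz0 : Complex.cos w ≠ 0 := fun h => by rw [h, norm_zero] at hzn; norm_num at hzn
  have hT : Complex.tan w ^ 2 = (Complex.cos w ^ 2)⁻¹ - 1 := by
    have hTz : Complex.tan w * Complex.cos w = Complex.sin w := Complex.tan_mul_cos hz0
    have hs : Complex.sin w ^ 2 = 1 - Complex.cos w ^ 2 := by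
      have := Complex.sin_sq_add_cos_sq w
      linear_combination this
    field_simp
    rw [← hs, ← hTz]
    ring
  have key : ∀ u : ℂ, 42 / 100 ≤ ‖u‖ → ‖(u ^ 2)⁻¹‖ ≤ 6 := by
    intro u hu
    rw [norm_inv, norm_pow]
    rw [inv_le_comm₀ (by positivity) (by norm_num)]
    nlinarith only [hu]
  have h1 : ‖RR w k‖ ^ 2 ≤ 13 := by
    rw [← norm_pow, RR_sq, ZZ0, hT]
    calc ‖(Complex.cos w ^ 2)⁻¹ - 1 + (k ^ 2)⁻¹‖
        ≤ ‖(Complex.cos w ^ 2)⁻¹ - 1‖ + ‖(k ^ 2)⁻¹‖ := norm_add_le _ _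
      _ ≤ ‖(Complex.cos w ^ 2)⁻¹‖ + ‖(1 : ℂ)‖ + ‖(k ^ 2)⁻¹‖ := by
        gcongr
        exact norm_sub_le _ _
      _ ≤ 6 + 1 + 6 := by
        have := key _ hzn
        have := key _ hkn
        rw [norm_one]
        linarith
      _ = 13 := by norm_num
  have h2 := Complex.abs_im_le_norm (RR w k)
  nlinarith only [h1, h2, norm_nonneg (RR w k)]

/-! ### multiple angles -/

lemma cs_one (w : ℂ) : Complex.cos ((1 : ℝ) * w) = Complex.cos w ∧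
    Complex.sin ((1 : ℝ) * w) = Complex.sin w * 1 := by
  simp

lemma cs_succ {n : ℝ} {w C U : ℂ} (h : Complex.cos (n * w) = C ∧ Complex.sin (n * w) = Complex.sin w * U)
    (C' U' : ℂ) (m : ℝ) (hm : m = n + 1) (hC : C' = C * Complex.cos w - (1 - Complex.cos w ^ 2) * U)
    (hU : U' = U * Complex.cos w + C) :
    Complex.cos (m * w) = C' ∧ Complex.sin (m * w) = Complex.sin w * U' := by
  have hs : Complex.sin w ^ 2 = 1 - Complex.cos w ^ 2 := by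
    have := Complex.sin_sq_add_cos_sq w
    linear_combination this
  have e : (m : ℂ) * w = n * w + w := by
    rw [hm]
    push_cast
    ring
  rw [e, Complex.cos_add, Complex.sin_add, h.1, h.2, hC, hU]
  constructor
  · linear_combination (-U) * hs
  · ring

lemma cs2 (w : ℂ) : Complex.cos ((2 : ℝ) * w) = 2 * Complex.cos w ^ 2 - 1 ∧
    Complex.sin ((2 : ℝ) * w) = Complex.sin w * (2 * Complex.cos w) :=
  cs_succ (cs_one w) _ _ 2 (by norm_num) (by ring) (by ring)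

lemma cs3 (w : ℂ) : Complex.cos ((3 : ℝ) * w) = 4 * Complex.cos w ^ 3 - 3 * Complex.cos w ∧
    Complex.sin ((3 : ℝ) * w) = Complex.sin w * (4 * Complex.cos w ^ 2 - 1) :=
  cs_succ (cs2 w) _ _ 3 (by norm_num) (by ring) (by ring)

lemma cs4 (w : ℂ) : Complex.cos ((4 : ℝ) * w) = 8 * Complex.cos w ^ 4 - 8 * Complex.cos w ^ 2 + 1 ∧
    Complex.sin ((4 : ℝ) * w) = Complex.sin w * (8 * Complex.cos w ^ 3 - 4 * Complex.cos w) :=
  cs_succ (cs3 w) _ _ 4 (by norm_num) (by ring) (by ring)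

lemma cs5 (w : ℂ) : Complex.cos ((5 : ℝ) * w) =
      16 * Complex.cos w ^ 5 - 20 * Complex.cos w ^ 3 + 5 * Complex.cos w ∧
    Complex.sin ((5 : ℝ) * w) = Complex.sin w * (16 * Complex.cos w ^ 4 - 12 * Complex.cos w ^ 2 + 1) :=
  cs_succ (cs4 w) _ _ 5 (by norm_num) (by ring) (by ring)

lemma cs6 (w : ℂ) : Complex.cos ((6 : ℝ) * w) =
      32 * Complex.cos w ^ 6 - 48 * Complex.cos w ^ 4 + 18 * Complex.cos w ^ 2 - 1 ∧
    Complex.sin ((6 : ℝ) * w) =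
      Complex.sin w * (32 * Complex.cos w ^ 5 - 32 * Complex.cos w ^ 3 + 6 * Complex.cos w) :=
  cs_succ (cs5 w) _ _ 6 (by norm_num) (by ring) (by ring)

lemma cs7 (w : ℂ) : Complex.cos ((7 : ℝ) * w) =
      64 * Complex.cos w ^ 7 - 112 * Complex.cos w ^ 5 + 56 * Complex.cos w ^ 3 -
        7 * Complex.cos w ∧
    Complex.sin ((7 : ℝ) * w) = Complex.sin w *
      (64 * Complex.cos w ^ 6 - 80 * Complex.cos w ^ 4 + 24 * Complex.cos w ^ 2 - 1) :=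
  cs_succ (cs6 w) _ _ 7 (by norm_num) (by ring) (by ring)

/-! ### location -/

/-- location of an end ring -/
def Loc1 (b : ℝ) (K U P : Set ℂ) (r : ℝ) : Prop :=
  ∀ k ∈ P, ∀ w : ℂ, 0 ≤ w.re → w.re ≤ 3 / 2 → |w.im| ≤ 2 → Complex.cos w ∈ K → r ≤ (RR w k).re →
    b * w - Real.pi + I * QQ w k = 0 →
    0 < w.re ∧ w.re < 3 / 2 ∧ |w.im| < 2 ∧ Complex.cos w ∈ U ∧ r < (RR w k).re

/-- location of an interior ring -/
def Loc2 (b : ℝ) (K U P P' : Set ℂ) (r : ℝ) : Prop :=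
  ∀ k ∈ P, ∀ k' ∈ P', ∀ w : ℂ, 0 ≤ w.re → w.re ≤ 3 / 2 → |w.im| ≤ 2 → Complex.cos w ∈ K →
    r ≤ (RR w k).re → r ≤ (RR w k').re →
    b * w - Real.pi + I * (QQ w k + QQ w k') = 0 →
    0 < w.re ∧ w.re < 3 / 2 ∧ |w.im| < 2 ∧ Complex.cos w ∈ U ∧ r < (RR w k).re ∧ r < (RR w k').re

lemma r0_pos : 0 < r0 := by norm_num [r0]

/-- two ports -/
theorem loc2_of {b : ℝ} {C U : ℂ → ℂ} (hCU : ∀ w : ℂ, Complex.cos (b * w) = C (Complex.cos w) ∧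
      Complex.sin (b * w) = Complex.sin w * U (Complex.cos w)) {t : RT} (ht : t ≠ .t8)
    {P P' : Set ℂ} (hP : ∀ k ∈ P, Port k) (hP' : ∀ k ∈ P', Port k)
    (hfr : ∀ z k l : ℂ, OnE (vt t) z → k ∈ P → l ∈ P' →
      k ^ 2 + l ^ 2 - 2 * k * l * C z + (z * U z) ^ 2 ≠ 0)
    (hh : ∀ z k l R : ℂ, z ∈ Poly (vt t) → k ∈ P → l ∈ P' → R.re = r0 → |R.im| ≤ 4 →
      l = k * (C z - I * R * (z * U z)) → k ^ 2 * (z ^ 2 * (R ^ 2 + 1) - 1) - z ^ 2 = 0 → False)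
    (hh' : ∀ z k l R : ℂ, z ∈ Poly (vt t) → k ∈ P' → l ∈ P → R.re = r0 → |R.im| ≤ 4 →
      l = k * (C z - I * R * (z * U z)) → k ^ 2 * (z ^ 2 * (R ^ 2 + 1) - 1) - z ^ 2 = 0 → False) :
    Loc2 b (Poly (vt t)) (PolyU (vt t)) P P' r0 := by
  intro k hk l hl w h0 h1 h2 hz hR hR' hw
  have pk := hP k hk
  have pl := hP' l hl
  have hzr := vt_re hz
  have hw0 : 0 < w.re := re_pos_of h0 (vt_re_lt ht hz)
  obtain ⟨h3, h4⟩ := loc_basic h1 h2 hzr (vt_re_le hz) (vt_im hz) (vt_im_le hz)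
  have hz0 : Complex.cos w ≠ 0 := fun h => by rw [h] at hzr; norm_num at hzr
  have hk0 : 0 < k.re := lt_of_lt_of_le (by norm_num) pk.re
  have hl0 : 0 < l.re := lt_of_lt_of_le (by norm_num) pl.re
  have hkn : k ≠ 0 := fun h => by rw [h] at hk0; exact lt_irrefl _ hk0
  have hln : l ≠ 0 := fun h => by rw [h] at hl0; exact lt_irrefl _ hl0
  have hRp := r0_pos.trans_le hR
  have hRp' := r0_pos.trans_le hR'
  have e1 := rel_two (hCU w).1 (hCU w).2 hw0 h1 hz0 hk0 hl0 hRp hRp' hw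
  have e2 := rel_two (hCU w).1 (hCU w).2 hw0 h1 hz0 hl0 hk0 hRp' hRp (by rw [← hw]; ring)
  have e3 := rel_R hz0 hkn
  have e4 := rel_R hz0 hln
  have e5 : C (Complex.cos w) ^ 2 + (1 - Complex.cos w ^ 2) * U (Complex.cos w) ^ 2 = 1 := by
    have h5 := Complex.sin_sq_add_cos_sq (b * w)
    rw [(hCU w).1, (hCU w).2] at h5
    have h6 := Complex.sin_sq_add_cos_sq w
    linear_combination h5 - U (Complex.cos w) ^ 2 * h6
  refine ⟨hw0, h3, h4, ?_, ?_, ?_⟩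
  · by_contra hc
    exact hfr _ k l (onE_of (vt_cvx t) hz hc) hk hl (front_id e1 e3 e5)
  · exact lt_of_le_of_ne hR fun h => hh _ k l _ hz hk hl h.symm (R_im_le hzr pk.re) e1 e3
  · exact lt_of_le_of_ne hR' fun h => hh' _ l k _ hz hl hk h.symm (R_im_le hzr pl.re) e2 e4

/-- one port -/
theorem loc1_of {b : ℝ} {C U : ℂ → ℂ} (hCU : ∀ w : ℂ, Complex.cos (b * w) = C (Complex.cos w) ∧
      Complex.sin (b * w) = Complex.sin w * U (Complex.cos w)) {t : RT} (ht : t ≠ .t8)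
    {P : Set ℂ} (hP : ∀ k ∈ P, Port k)
    (hfr : ∀ z k : ℂ, OnE (vt t) z → k ∈ P → k + I * z * U z ≠ 0)
    (hh : ∀ z k R : ℂ, z ∈ Poly (vt t) → k ∈ P → R.re = r0 → |R.im| ≤ 4 →
      k + I * z * U z = 0 → R * k = -C z → k ^ 2 * (z ^ 2 * (R ^ 2 + 1) - 1) - z ^ 2 = 0 → False) :
    Loc1 b (Poly (vt t)) (PolyU (vt t)) P r0 := by
  intro k hk w h0 h1 h2 hz hR hw
  have pk := hP k hk
  have hzr := vt_re hz
  have hw0 : 0 < w.re := re_pos_of h0 (vt_re_lt ht hz)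
  obtain ⟨h3, h4⟩ := loc_basic h1 h2 hzr (vt_re_le hz) (vt_im hz) (vt_im_le hz)
  have hz0 : Complex.cos w ≠ 0 := fun h => by rw [h] at hzr; norm_num at hzr
  have hk0 : 0 < k.re := lt_of_lt_of_le (by norm_num) pk.re
  have hkn : k ≠ 0 := fun h => by rw [h] at hk0; exact lt_irrefl _ hk0
  have hRp := r0_pos.trans_le hR
  obtain ⟨e1, e2⟩ := rel_one (hCU w).1 (hCU w).2 hw0 h1 hz0 hk0 hRp hw
  have e3 := rel_R hz0 hkn
  refine ⟨hw0, h3, h4, ?_, ?_⟩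
  · by_contra hc
    exact hfr _ k (onE_of (vt_cvx t) hz hc) hk e1
  · exact lt_of_le_of_ne hR fun h => hh _ k _ hz hk h.symm (R_im_le hzr pk.re) e1 e2 e3

end Pool.Agent.Work.MP_b30479_gtS.G2.SL

end

section

/-!
# Location of a ring with at least eight crossings
-/

namespace Pool.Agent.Work.MP_b30479_gtS.G2.SL

open Complex SC
open scoped ComplexConjugate

lemma sinh_re' (Q : ℂ) : (Complex.sinh Q).re = Real.sinh Q.re * Real.cos Q.im := by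
  conv_lhs => rw [← Complex.re_add_im Q, Complex.sinh_add, Complex.sinh_mul_I, Complex.cosh_mul_I]
  simp [← Complex.ofReal_cos, ← Complex.ofReal_cosh, ← Complex.ofReal_sin, ← Complex.ofReal_sinh]

lemma sinh_im' (Q : ℂ) : (Complex.sinh Q).im = Real.cosh Q.re * Real.sin Q.im := by
  conv_lhs => rw [← Complex.re_add_im Q, Complex.sinh_add, Complex.sinh_mul_I, Complex.cosh_mul_I]
  simp [← Complex.ofReal_cos, ← Complex.ofReal_cosh, ← Complex.ofReal_sin, ← Complex.ofReal_sinh]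

lemma cosh_re' (Q : ℂ) : (Complex.cosh Q).re = Real.cosh Q.re * Real.cos Q.im := by
  conv_lhs => rw [← Complex.re_add_im Q, Complex.cosh_add, Complex.sinh_mul_I, Complex.cosh_mul_I]
  simp [← Complex.ofReal_cos, ← Complex.ofReal_cosh, ← Complex.ofReal_sin, ← Complex.ofReal_sinh]

lemma cosh_im' (Q : ℂ) : (Complex.cosh Q).im = Real.sinh Q.re * Real.sin Q.im := by
  conv_lhs => rw [← Complex.re_add_im Q, Complex.cosh_add, Complex.sinh_mul_I, Complex.cosh_mul_I]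
  simp [← Complex.ofReal_cos, ← Complex.ofReal_cosh, ← Complex.ofReal_sin, ← Complex.ofReal_sinh]

lemma sin_re' (w : ℂ) : (Complex.sin w).re = Real.sin w.re * Real.cosh w.im := by
  conv_lhs => rw [← Complex.re_add_im w, Complex.sin_add_mul_I]
  simp [← Complex.ofReal_cos, ← Complex.ofReal_cosh, ← Complex.ofReal_sin, ← Complex.ofReal_sinh]

lemma sin_im' (w : ℂ) : (Complex.sin w).im = Real.cos w.re * Real.sinh w.im := by
  conv_lhs => rw [← Complex.re_add_im w, Complex.sin_add_mul_I]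
  simp [← Complex.ofReal_cos, ← Complex.ofReal_cosh, ← Complex.ofReal_sin, ← Complex.ofReal_sinh]

/-- the imaginary part of the tangent -/
lemma tan_im (w : ℂ) : (Complex.tan w).im * normSq (Complex.cos w) =
    Real.cosh w.im * Real.sinh w.im := by
  by_cases hz : Complex.cos w = 0
  · have h1 : (Complex.cos w).re = 0 := by rw [hz]; rfl
    have h2 : (Complex.cos w).im = 0 := by rw [hz]; rfl
    rw [cos_re] at h1
    rw [cos_im] at h2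
    have hc := Real.cosh_pos w.im
    have h3 : Real.cos w.re = 0 := (mul_eq_zero.1 h1).resolve_right hc.ne'
    have h4 : Real.sin w.re ≠ 0 := fun h => by
      have := Real.sin_sq_add_cos_sq w.re
      rw [h, h3] at this
      norm_num at this
    have h5 : Real.sinh w.im = 0 := by
      have := neg_eq_zero.1 h2
      exact (mul_eq_zero.1 this).resolve_left h4
    rw [hz, h5]
    simp
  · have hn : normSq (Complex.cos w) ≠ 0 := by rwa [Ne, Complex.normSq_eq_zero]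
    rw [Complex.tan, Complex.div_im, sub_mul, div_mul_cancel₀ _ hn, div_mul_cancel₀ _ hn, cos_re,
      cos_im, sin_re', sin_im']
    have e := Real.sin_sq_add_cos_sq w.re
    linear_combination (Real.cosh w.im * Real.sinh w.im) * e

lemma tan_im_nonpos {w : ℂ} (h : w.im ≤ 0) (hz : Complex.cos w ≠ 0) : (Complex.tan w).im ≤ 0 := by
  have hn : 0 < normSq (Complex.cos w) := Complex.normSq_pos.2 hz
  have h1 : Real.cosh w.im * Real.sinh w.im ≤ 0 :=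
    mul_nonpos_of_nonneg_of_nonpos (Real.cosh_pos _).le (Real.sinh_nonpos_iff.2 h)
  rw [← tan_im] at h1
  by_contra hc
  push Not at hc
  exact absurd (mul_pos hc hn) (not_lt.2 h1)

lemma QQ_im (w k : ℂ) : (QQ w k).im = arg (Complex.tan w + RR w k) + arg k := by
  rw [QQ, Complex.add_im, Complex.log_im, Complex.log_im]

/-- the imaginary part of `Q` is strictly between `-π` and `π` -/
lemma QQ_im_lt {w k : ℂ} (h0 : 0 ≤ w.re) (h1 : w.re ≤ 3 / 2) (hk : 0 < k.re)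
    (hR : 0 < (RR w k).re) : |(QQ w k).im| < Real.pi := by
  have hT := tan_re_nonneg h0 h1
  have h2 : |arg (Complex.tan w + RR w k)| < Real.pi / 2 := by
    rw [Complex.abs_arg_lt_pi_div_two_iff]
    left
    rw [Complex.add_re]
    linarith only [hR, hT]
  have h3 : |arg k| < Real.pi / 2 := by
    rw [Complex.abs_arg_lt_pi_div_two_iff]
    exact Or.inl hk
  rw [QQ_im]
  calc |arg (Complex.tan w + RR w k) + arg k| ≤ |arg (Complex.tan w + RR w k)| + |arg k| :=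
        abs_add_le _ _
    _ < Real.pi := by linarith only [h2, h3]

lemma arg_nonpos_of {z : ℂ} (h : z.im ≤ 0) (hr : 0 < z.re) : arg z ≤ 0 := by
  rcases eq_or_lt_of_le h with h1 | h1
  · have : z = ((z.re : ℝ) : ℂ) := Complex.ext (by simp) (by simp [h1])
    rw [this, Complex.arg_ofReal_of_nonneg hr.le]
  · exact (Complex.arg_neg_iff.2 h1).le

/-- the bound of the imaginary part of `Q` -/
lemma QQ_im_le {w k : ℂ} (h0 : 0 < w.re) (h1 : w.re ≤ 3 / 2) (hz : Complex.cos w ≠ 0)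
    (hy : w.im ≤ 0) (hk : 0 < k.re) (hki : k.im ≤ k.re)
    (hR : 0 < (RR w k).re) : (QQ w k).im ≤ Real.pi / 4 := by
  have hT := tan_re_pos h0 h1
  have hTi := tan_im_nonpos hy hz
  have hpi := Real.pi_pos
  rcases le_or_gt k.im 0 with hk0 | hk0
  · -- opposite sign
    have h2 : (Complex.sinh (QQ w k)).im ≤ 0 := by
      rw [(QQ_cosh h0.le h1 hk hR).2, Complex.mul_im]
      have := mul_nonpos_of_nonneg_of_nonpos hT.le hk0
      have := mul_nonpos_of_nonpos_of_nonneg hTi hk.le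
      linarith
    rw [sinh_im'] at h2
    have h3 : Real.sin (QQ w k).im ≤ 0 := by
      by_contra hc
      push Not at hc
      exact absurd (mul_pos (Real.cosh_pos (QQ w k).re) hc) (not_lt.2 h2)
    have h4 := QQ_im_lt h0.le h1 hk hR
    by_contra hc
    push Not at hc
    have := Real.sin_pos_of_pos_of_lt_pi (x := (QQ w k).im) (by linarith only [hpi, hc]) (abs_lt.1 h4).2
    linarith only [h3, this]
  · -- equal sign
    have hR2 : (RR w k ^ 2).im ≤ 0 := by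
      rw [RR_sq, ZZ0, Complex.add_im]
      have e1 : (Complex.tan w ^ 2).im = 2 * ((Complex.tan w).re * (Complex.tan w).im) := by
        rw [pow_two, Complex.mul_im]
        ring
      have e2 : ((k ^ 2)⁻¹).im = -(2 * (k.re * k.im)) / normSq (k ^ 2) := by
        rw [Complex.inv_im, pow_two, Complex.mul_im]
        ring
      have h5 := mul_nonpos_of_nonneg_of_nonpos hT.le hTi
      have h6 : -(2 * (k.re * k.im)) / normSq (k ^ 2) ≤ 0 := by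
        apply div_nonpos_of_nonpos_of_nonneg
        · have := mul_pos hk hk0
          linarith only [this]
        · exact Complex.normSq_nonneg _
      rw [e1, e2]
      linarith only [h5, h6]
    have hRi : (RR w k).im ≤ 0 := by
      rw [pow_two, Complex.mul_im] at hR2
      by_contra hc
      push Not at hc
      have := mul_pos hR hc
      linarith only [hR2, this]
    have ha1 : arg (Complex.tan w + RR w k) ≤ 0 := by
      apply arg_nonpos_of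
      · rw [Complex.add_im]
        linarith only [hTi, hRi]
      · rw [Complex.add_re]
        linarith only [hR, hT]
    have ha2 : arg k ≤ Real.pi / 4 := by
      rw [Complex.arg_of_re_nonneg hk.le, Real.arcsin_le_iff_le_sin' ⟨by linarith only [hpi], by linarith only [hpi]⟩,
        Real.sin_pi_div_four]
      have hkn : 0 < ‖k‖ := lt_of_lt_of_le hk (Complex.re_le_norm k)
      rw [div_le_iff₀ hkn]
      have e : ‖k‖ ^ 2 = k.re ^ 2 + k.im ^ 2 := by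
        rw [Complex.sq_norm, Complex.normSq_apply]
        ring
      apply le_of_sq_le_sq _ (by positivity)
      rw [mul_pow, div_pow, Real.sq_sqrt (by norm_num), e]
      nlinarith only [hk, hki, hk0]
    rw [QQ_im]
    linarith only [ha1, ha2]

/-- the real part of `Q` for real `w` -/
lemma QQ_re_pos {w k : ℂ} (h0 : 0 < w.re) (h1 : w.re ≤ 3 / 2) (hy : w.im = 0)
    (hk : 0 < k.re) (hR : 0 < (RR w k).re) (hz : Complex.cos w ≠ 0) : 0 < (QQ w k).re := by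
  obtain ⟨c1, s1⟩ := QQ_cosh h0.le h1 hk hR
  have hT := tan_re_pos h0 h1
  have hTi : (Complex.tan w).im = 0 := by
    have := tan_im w
    rw [hy, Real.sinh_zero, mul_zero] at this
    exact (mul_eq_zero.1 this).resolve_right (by rwa [Complex.normSq_eq_zero])
  have e : (Complex.sinh (QQ w k)).re * (Complex.cosh (QQ w k)).re +
      (Complex.sinh (QQ w k)).im * (Complex.cosh (QQ w k)).im =
      Real.sinh (QQ w k).re * Real.cosh (QQ w k).re := by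
    rw [sinh_re', sinh_im', cosh_re', cosh_im']
    have := Real.sin_sq_add_cos_sq (QQ w k).im
    linear_combination (Real.sinh (QQ w k).re * Real.cosh (QQ w k).re) * this
  have e2 : (Complex.sinh (QQ w k)).re * (Complex.cosh (QQ w k)).re +
      (Complex.sinh (QQ w k)).im * (Complex.cosh (QQ w k)).im =
      (Complex.tan w).re * (RR w k).re * (k.re ^ 2 + k.im ^ 2) := by
    rw [c1, s1]
    simp only [Complex.mul_re, Complex.mul_im, hTi]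
    ring
  rw [e] at e2
  have h3 : 0 < Real.sinh (QQ w k).re * Real.cosh (QQ w k).re := by
    rw [e2]
    have : 0 < k.re ^ 2 + k.im ^ 2 := by positivity
    positivity
  have h4 : 0 < Real.sinh (QQ w k).re := (mul_pos_iff_of_pos_right (Real.cosh_pos _)).1 h3
  exact Real.sinh_pos_iff.1 h4

/-- `4 sinh x ≤ sinh (4 x)` -/
lemma four_sinh {x : ℝ} (hx : 0 ≤ x) : 4 * Real.sinh x ≤ Real.sinh (4 * x) := by
  have h2 : 2 * Real.sinh x ≤ Real.sinh (2 * x) := by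
    rw [Real.sinh_two_mul]
    have := Real.one_le_cosh x
    have := Real.sinh_nonneg_iff.2 hx
    nlinarith
  have h4 : 2 * Real.sinh (2 * x) ≤ Real.sinh (2 * (2 * x)) := by
    rw [Real.sinh_two_mul (2 * x)]
    have := Real.one_le_cosh (2 * x)
    have := Real.sinh_nonneg_iff.2 (show 0 ≤ 2 * x by linarith only [hx])
    nlinarith
  rw [show 4 * x = 2 * (2 * x) by ring]
  linarith only [h2, h4]

/-- the main estimate: one port with `Re Q ≥ 4 η` -/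
lemma core8 {w k : ℂ} (h0 : 0 < w.re) (h1 : w.re ≤ 59 / 100) (hy : w.im < 0) (pk : Port k)
    (hR : 0 < (RR w k).re) (hz : Complex.cos w ≠ 0) (hu : 4 * (-w.im) ≤ (QQ w k).re) :
    (Complex.cos w).im < 1 / 4 ∧ (Complex.cos w).re + 4 / 10 * (Complex.cos w).im < 1 := by
  have hk : 0 < k.re := lt_of_lt_of_le (by norm_num) pk.re
  obtain ⟨_, s1⟩ := QQ_cosh h0.le (h1.trans (by norm_num)) hk hR
  -- the norm of `sinh Q`
  have e1 : Real.sinh (QQ w k).re ^ 2 ≤ normSq (Complex.sinh (QQ w k)) := by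
    rw [Complex.normSq_apply, sinh_re', sinh_im']
    have a1 := Real.sin_sq_add_cos_sq (QQ w k).im
    have a2 := Real.cosh_sq (QQ w k).re
    have : Real.sinh (QQ w k).re * Real.cos (QQ w k).im *
        (Real.sinh (QQ w k).re * Real.cos (QQ w k).im) +
        Real.cosh (QQ w k).re * Real.sin (QQ w k).im *
        (Real.cosh (QQ w k).re * Real.sin (QQ w k).im) =
        Real.sinh (QQ w k).re ^ 2 + Real.sin (QQ w k).im ^ 2 := by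
      linear_combination (Real.sinh (QQ w k).re ^ 2) * a1 + (Real.sin (QQ w k).im ^ 2) * a2
    rw [this]
    have := sq_nonneg (Real.sin (QQ w k).im)
    linarith only [this]
  set S := Real.sin w.re with hS
  set C := Real.cos w.re with hC
  set s := Real.sinh (-w.im) with hs
  have hsp : 0 < s := Real.sinh_pos_iff.2 (by linarith only [hy])
  have hSC : S ^ 2 + C ^ 2 = 1 := Real.sin_sq_add_cos_sq w.re
  have hCl : 82 / 100 ≤ C := by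
    have := Real.one_sub_sq_div_two_le_cos (x := w.re)
    nlinarith only [h1, this, h0]
  have hSp : 0 < S := Real.sin_pos_of_pos_of_lt_pi h0 (by linarith only [h0, h1, Real.pi_gt_three])
  have hC2 : 6724 / 10000 ≤ C ^ 2 := by nlinarith only [hCl]
  have hS2 : S ^ 2 ≤ 3276 / 10000 := by linarith only [hSC, hC2]
  have hch : Real.cosh w.im ^ 2 = s ^ 2 + 1 := by
    rw [hs, Real.sinh_neg, neg_sq]
    exact Real.cosh_sq w.im
  have hsy : Real.sinh w.im = -s := by rw [hs, Real.sinh_neg, neg_neg]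
  have e2 : 4 * s ≤ Real.sinh (QQ w k).re :=
    (four_sinh (by linarith only [hy])).trans (Real.sinh_le_sinh.2 hu)
  have e3 : 16 * s ^ 2 ≤ normSq (Complex.sinh (QQ w k)) := by nlinarith only [e1, h0, h1, hsp, e2]
  have e4 : normSq (Complex.sinh (QQ w k)) * normSq (Complex.cos w) =
      normSq (Complex.sin w) * normSq k := by
    rw [s1, ← map_mul, ← map_mul]
    congr 1
    have hTz : Complex.tan w * Complex.cos w = Complex.sin w := Complex.tan_mul_cos hz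
    linear_combination k * hTz
  have e5 : normSq (Complex.cos w) = C ^ 2 + s ^ 2 := by
    rw [Complex.normSq_apply, cos_re, cos_im, hsy]
    linear_combination (C ^ 2) * hch + s ^ 2 * hSC
  have e6 : normSq (Complex.sin w) = S ^ 2 + s ^ 2 := by
    rw [Complex.normSq_apply, sin_re', sin_im', hsy]
    linear_combination (S ^ 2) * hch + s ^ 2 * hSC
  have e7 : normSq k ≤ 147 / 100 := by
    rw [Complex.normSq_apply]
    have a1 := pk.re_le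
    have a2 := abs_le.1 pk.im_abs
    nlinarith only [a1, h0, h1, hk, a2]
  rw [e5, e6] at e4
  have e8 : 16 * s ^ 2 * (C ^ 2 + s ^ 2) ≤ (S ^ 2 + s ^ 2) * (147 / 100) := by
    have a1 : 0 ≤ C ^ 2 + s ^ 2 := by positivity
    have a2 : 0 ≤ S ^ 2 + s ^ 2 := by positivity
    calc 16 * s ^ 2 * (C ^ 2 + s ^ 2) ≤ normSq (Complex.sinh (QQ w k)) * (C ^ 2 + s ^ 2) :=
          mul_le_mul_of_nonneg_right e3 a1
      _ = (S ^ 2 + s ^ 2) * normSq k := e4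
      _ ≤ _ := mul_le_mul_of_nonneg_left e7 a2
  -- `s ≤ 2 / 5 S`
  have e9 : s ^ 2 ≤ 16 / 100 * S ^ 2 := by nlinarith only [e8, hC2, sq_nonneg s, sq_nonneg (s ^ 2)]
  have e10 : s ≤ 4 / 10 * S := by
    apply le_of_sq_le_sq _ (by positivity)
    rw [mul_pow]
    linarith only [e9]
  rw [cos_re, cos_im, hsy]
  constructor
  · nlinarith only [hSC, hC2, hSp, e10]
  · by_contra hc
    push Not at hc
    have e11 : 1 - 4 / 10 * (S * s) ≤ C * Real.cosh w.im := by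
      have : -(S * -s) = S * s := by ring
      rw [this] at hc
      linarith only [hc]
    have e12 : 0 ≤ 1 - 4 / 10 * (S * s) := by nlinarith only [h0, h1, hSC, hSp, e10]
    have e13 : (1 - 4 / 10 * (S * s)) ^ 2 ≤ (C * Real.cosh w.im) ^ 2 :=
      pow_le_pow_left₀ e12 e11 2
    rw [mul_pow, hch] at e13
    have e14 : C ^ 2 = 1 - S ^ 2 := by linarith only [hSC]
    rw [e14] at e13
    have e15 : 0 < S ^ 2 := by positivity
    nlinarith only [e9, e13, hsp, hSp, e10, mul_pos hSp hsp, sq_nonneg (S * s)]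

/-- the polygon of the rings with at least eight crossings -/
lemma mem_t8 {z : ℂ} (h1 : 0 < z.im) (h2 : z.re + 4 / 10 * z.im < 1) (h3 : z.im < 1 / 4)
    (h4 : 8 / 10 < z.re) : z ∈ PolyU (vt .t8) := by
  have e : edges (vt .t8) = [((800, 0), (1000, 0)), ((1000, 0), (900, 250)), ((900, 250), (800, 250)),
      ((800, 250), (800, 0))] := by rfl
  intro d hd
  rw [e] at hd
  simp only [List.mem_cons, List.not_mem_nil, or_false] at hd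
  rcases hd with rfl | rfl | rfl | rfl <;> simp only [cr] <;> push_cast <;> nlinarith only [h1, h2, h3, h4]

/-- `w = 0` is impossible -/
lemma re_pos8 {w k : ℂ} (h0 : w.re = 0) (hx : (Complex.cos w).re ≤ 1) (hk : 0 < k.re)
    (hR : 0 < (RR w k).re) : (QQ w k).im = 0 ∧ w.im = 0 := by
  have hy : w.im = 0 := by
    rw [cos_re, h0, Real.cos_zero, one_mul] at hx
    have := Real.cosh_sq w.im
    have h1 := Real.one_le_cosh w.im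
    have h2 := sq_le_sinh_sq w.im
    have : w.im ^ 2 = 0 := by nlinarith only [hx, this, h2, h1, sq_nonneg w.im]
    exact pow_eq_zero_iff (two_ne_zero) |>.1 this
  have hw : w = 0 := Complex.ext h0 hy
  refine ⟨?_, hy⟩
  obtain ⟨_, s1⟩ := QQ_cosh (w := w) (k := k) h0.ge (by rw [h0]; norm_num) hk hR
  have h3 : (Complex.sinh (QQ w k)).im = 0 := by
    rw [s1, hw]
    simp
  rw [sinh_im'] at h3
  have h4 : Real.sin (QQ w k).im = 0 := (mul_eq_zero.1 h3).resolve_left (Real.cosh_pos _).ne'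
  have h5 := abs_lt.1 (QQ_im_lt (w := w) (k := k) h0.ge (by rw [h0]; norm_num) hk hR)
  exact (Real.sin_eq_zero_iff_of_lt_of_lt h5.1 h5.2).1 h4

lemma im_nonpos_of {w : ℂ} (h0 : 0 < w.re) (h1 : w.re ≤ 3 / 2) (h : 0 ≤ (Complex.cos w).im) :
    w.im ≤ 0 := by
  rw [cos_im] at h
  have hS : 0 < Real.sin w.re := Real.sin_pos_of_pos_of_lt_pi h0 (by linarith only [h1, Real.pi_gt_three])
  by_contra hc
  push Not at hc
  have := mul_pos hS (Real.sinh_pos_iff.2 hc)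
  linarith only [h, this]

/-- two ports -/
theorem loc2_8 {b : ℝ} (hb : 8 ≤ b) {P P' : Set ℂ} (hP : ∀ k ∈ P, Port k) (hP' : ∀ k ∈ P', Port k)
    (hh : ∀ z k R : ℂ, z ∈ Poly (vt .t8) → k ∈ P → R.re = r0 → |R.im| ≤ 4 →
      k ^ 2 * (z ^ 2 * (R ^ 2 + 1) - 1) - z ^ 2 ≠ 0)
    (hh' : ∀ z k R : ℂ, z ∈ Poly (vt .t8) → k ∈ P' → R.re = r0 → |R.im| ≤ 4 →
      k ^ 2 * (z ^ 2 * (R ^ 2 + 1) - 1) - z ^ 2 ≠ 0) :
    Loc2 b (Poly (vt .t8)) (PolyU (vt .t8)) P P' r0 := by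
  intro k hk l hl w h0 h1 h2 hz hR hR' hw
  have pk := hP k hk
  have pl := hP' l hl
  have hzr := vt_re hz
  obtain ⟨h3, h4⟩ := loc_basic h1 h2 hzr (vt_re_le hz) (vt_im hz) (vt_im_le hz)
  have hz0 : Complex.cos w ≠ 0 := fun h => by rw [h] at hzr; norm_num at hzr
  have hk0 : 0 < k.re := lt_of_lt_of_le (by norm_num) pk.re
  have hl0 : 0 < l.re := lt_of_lt_of_le (by norm_num) pl.re
  have hkn : k ≠ 0 := fun h => by rw [h] at hk0; exact lt_irrefl _ hk0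
  have hln : l ≠ 0 := fun h => by rw [h] at hl0; exact lt_irrefl _ hl0
  have hRp := r0_pos.trans_le hR
  have hRp' := r0_pos.trans_le hR'
  have hre : b * w.re - Real.pi - ((QQ w k).im + (QQ w l).im) = 0 := by
    have := congrArg Complex.re hw
    simp only [Complex.add_re, Complex.sub_re, Complex.mul_re, Complex.ofReal_re,
      Complex.ofReal_im, Complex.I_re, Complex.I_im, Complex.add_im, Complex.zero_re] at this
    linarith only [this]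
  have him : b * w.im + ((QQ w k).re + (QQ w l).re) = 0 := by
    have := congrArg Complex.im hw
    simp only [Complex.add_re, Complex.sub_im, Complex.mul_im, Complex.ofReal_re,
      Complex.ofReal_im, Complex.I_re, Complex.I_im, Complex.add_im, Complex.zero_im] at this
    linarith only [this]
  have hw0 : 0 < w.re := by
    refine lt_of_le_of_ne h0 fun h => ?_
    have a1 := (re_pos8 h.symm (vt_re_le hz) hk0 hRp).1
    have a2 := (re_pos8 h.symm (vt_re_le hz) hl0 hRp').1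
    rw [a1, a2, ← h] at hre
    have := Real.pi_pos
    linarith only [hre, this]
  have hy := im_nonpos_of hw0 h1 (vt_im hz)
  have hα : w.re ≤ 59 / 100 := by
    have a1 := QQ_im_le hw0 h1 hz0 hy hk0 pk.im hRp
    have a2 := QQ_im_le hw0 h1 hz0 hy hl0 pl.im hRp'
    have a3 := Real.pi_lt_d4
    nlinarith only [hre, hw0, a1, a2, a3, hb, h0]
  have hy' : w.im < 0 := by
    refine lt_of_le_of_ne hy fun h => ?_
    have a1 := QQ_re_pos hw0 h1 h hk0 hRp hz0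
    have a2 := QQ_re_pos hw0 h1 h hl0 hRp' hz0
    rw [h] at him
    linarith only [him, a1, a2]
  have hcore : (Complex.cos w).im < 1 / 4 ∧
      (Complex.cos w).re + 4 / 10 * (Complex.cos w).im < 1 := by
    rcases le_total (QQ w k).re (QQ w l).re with h | h
    · exact core8 hw0 hα hy' pl hRp' hz0 (by nlinarith only [him, h, hb, hy])
    · exact core8 hw0 hα hy' pk hRp hz0 (by nlinarith only [him, h, hb, hy])
  refine ⟨hw0, h3, h4, ?_, ?_, ?_⟩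
  · refine mem_t8 ?_ hcore.2 hcore.1 ?_
    · rw [cos_im]
      have hS : 0 < Real.sin w.re := Real.sin_pos_of_pos_of_lt_pi hw0
        (by linarith only [hw0, hα, Real.pi_gt_three])
      have := mul_pos_of_neg_of_neg (neg_lt_zero.2 hS) (Real.sinh_neg_iff.2 hy')
      linarith only [this]
    · rw [cos_re]
      have a1 := Real.one_sub_sq_div_two_le_cos (x := w.re)
      have a2 := Real.one_le_cosh w.im
      have a3 : 82 / 100 ≤ Real.cos w.re := by nlinarith only [hw0, hα, a1, h0]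
      nlinarith only [a2, a3]
  · exact lt_of_le_of_ne hR fun h => hh _ k _ hz hk h.symm (R_im_le hzr pk.re) (rel_R hz0 hkn)
  · exact lt_of_le_of_ne hR' fun h => hh' _ l _ hz hl h.symm (R_im_le hzr pl.re) (rel_R hz0 hln)

/-- one port -/
theorem loc1_8 {b : ℝ} (hb : 8 ≤ b) {P : Set ℂ} (hP : ∀ k ∈ P, Port k)
    (hh : ∀ z k R : ℂ, z ∈ Poly (vt .t8) → k ∈ P → R.re = r0 → |R.im| ≤ 4 →
      k ^ 2 * (z ^ 2 * (R ^ 2 + 1) - 1) - z ^ 2 ≠ 0) :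
    Loc1 b (Poly (vt .t8)) (PolyU (vt .t8)) P r0 := by
  intro k hk w h0 h1 h2 hz hR hw
  have pk := hP k hk
  have hzr := vt_re hz
  obtain ⟨h3, h4⟩ := loc_basic h1 h2 hzr (vt_re_le hz) (vt_im hz) (vt_im_le hz)
  have hz0 : Complex.cos w ≠ 0 := fun h => by rw [h] at hzr; norm_num at hzr
  have hk0 : 0 < k.re := lt_of_lt_of_le (by norm_num) pk.re
  have hkn : k ≠ 0 := fun h => by rw [h] at hk0; exact lt_irrefl _ hk0
  have hRp := r0_pos.trans_le hR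
  have hre : b * w.re - Real.pi - (QQ w k).im = 0 := by
    have := congrArg Complex.re hw
    simp only [Complex.add_re, Complex.sub_re, Complex.mul_re, Complex.ofReal_re,
      Complex.ofReal_im, Complex.I_re, Complex.I_im, Complex.add_im, Complex.zero_re] at this
    linarith only [this]
  have him : b * w.im + (QQ w k).re = 0 := by
    have := congrArg Complex.im hw
    simp only [Complex.add_re, Complex.sub_im, Complex.mul_im, Complex.ofReal_re,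
      Complex.ofReal_im, Complex.I_re, Complex.I_im, Complex.add_im, Complex.zero_im] at this
    linarith only [this]
  have hw0 : 0 < w.re := by
    refine lt_of_le_of_ne h0 fun h => ?_
    have a1 := (re_pos8 h.symm (vt_re_le hz) hk0 hRp).1
    rw [a1, ← h] at hre
    have := Real.pi_pos
    linarith only [hre, this]
  have hy := im_nonpos_of hw0 h1 (vt_im hz)
  have hα : w.re ≤ 59 / 100 := by
    have a1 := QQ_im_le hw0 h1 hz0 hy hk0 pk.im hRp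
    have a3 := Real.pi_lt_d4
    nlinarith only [hre, hw0, a1, a3, hb, h0]
  have hy' : w.im < 0 := by
    refine lt_of_le_of_ne hy fun h => ?_
    have a1 := QQ_re_pos hw0 h1 h hk0 hRp hz0
    rw [h] at him
    linarith only [him, a1]
  have hcore := core8 hw0 hα hy' pk hRp hz0 (by nlinarith only [him, hy', hb, hy])
  refine ⟨hw0, h3, h4, ?_, ?_⟩
  · refine mem_t8 ?_ hcore.2 hcore.1 ?_
    · rw [cos_im]
      have hS : 0 < Real.sin w.re := Real.sin_pos_of_pos_of_lt_pi hw0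
        (by linarith only [hw0, hα, Real.pi_gt_three])
      have := mul_pos_of_neg_of_neg (neg_lt_zero.2 hS) (Real.sinh_neg_iff.2 hy')
      linarith only [this]
    · rw [cos_re]
      have a1 := Real.one_sub_sq_div_two_le_cos (x := w.re)
      have a2 := Real.one_le_cosh w.im
      have a3 : 82 / 100 ≤ Real.cos w.re := by nlinarith only [hw0, hα, a1, h0]
      nlinarith only [a2, a3]
  · exact lt_of_le_of_ne hR fun h => hh _ k _ hz hk h.symm (R_im_le hzr pk.re) (rel_R hz0 hkn)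

end Pool.Agent.Work.MP_b30479_gtS.G2.SL

end

section

/-!
# Refined polygons for the rings with `2, …, 7` crossings (in units of `1 / 1000`)

`v<round>_<crossings><sides>`; sides: `e` end, `a` neighbour of opposite sign, `z` unsplit neighbour
of equal sign, `s` split side. The digit is the number of crossings minus the number of split sides.
Ports `p<round>_`: `A2` neighbours of opposite sign of a digit at least `2`, `A1` of a digit `1`,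
    `Z`
unsplit neighbours of equal sign, `S3` neighbours across a split side of a digit at least `3`, `S2`
of a digit at most `2` with at least `3` crossings, `ST` of a ring with `2` crossings.
-/

namespace Pool.Agent.Work.MP_b30479_gtS.G2

/-- ports of the round 1 -/
def p1_A2 : List (ℤ × ℤ) :=
  [(420, 247), (485, 200), (785, 0), (1000, 0), (831, 676), (733, 675), (497, 508), (420, 444)]

/-- ports of the round 1 -/
def p1_A1 : List (ℤ × ℤ) :=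
  [(420, 247), (485, 200), (649, 91), (800, 0), (1000, 0), (873, 508), (497, 508), (420, 444)]

/-- ports of the round 1 -/
def p1_Z : List (ℤ × ℤ) :=
  [(660, 115), (800, 0), (1000, 0), (900, 250), (830, 330), (770, 330), (660, 230)]

/-- ports of the round 1 -/
def p1_S3 : List (ℤ × ℤ) :=
  [(501, 240), (757, 38), (930, 38), (874, 504), (831, 675), (733, 675), (528, 503), (501, 314)]

/-- ports of the round 1 -/
def p1_S2 : List (ℤ × ℤ) :=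
  [(501, 240), (800, 0), (1000, 0), (874, 504), (831, 675), (733, 675), (528, 503), (501, 314)]

/-- ports of the round 1 -/
def p1_ST : List (ℤ × ℤ) :=
  [(501, 240), (800, 0), (1000, 0), (789, 539), (733, 539), (637, 455), (501, 314)]

/-- round 1, 2 crossings, sides `ea` -/
def v1_2ea : List (ℤ × ℤ) :=
  [(427, 244), (514, 201), (647, 283), (662, 314), (500, 501), (441, 442), (428, 355), (424, 280)]

/-- round 1, 2 crossings, sides `aa` -/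
def v1_2aa : List (ℤ × ℤ) :=
  [(598, 263), (670, 189), (839, 197), (867, 501), (804, 501), (738, 489), (641, 389), (604, 286)]

/-- round 1, 2 crossings, sides `as` -/
def v1_2as : List (ℤ × ℤ) :=
  [(586, 316), (695, 303), (843, 348), (867, 499), (818, 672), (707, 648), (558, 493), (529, 411)]

/-- round 1, 3 crossings, sides `ea` -/
def v1_3ea : List (ℤ × ℤ) :=
  [(622, 116), (667, 96), (734, 137), (742, 150), (661, 252), (628, 221), (622, 183), (620, 151)]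

/-- round 1, 3 crossings, sides `es` -/
def v1_3es : List (ℤ × ℤ) :=
  [(522, 246), (535, 222), (573, 220), (632, 221), (663, 250), (567, 352), (547, 346), (510, 292)]

/-- round 1, 3 crossings, sides `aa` -/
def v1_3aa : List (ℤ × ℤ) :=
  [(718, 147), (763, 109), (846, 123), (860, 133), (848, 293), (784, 281), (744, 229), (723, 176)]

/-- round 1, 3 crossings, sides `as` -/
def v1_3as : List (ℤ × ℤ) :=
  [(673, 232), (706, 187), (850, 178), (849, 284), (823, 399), (763, 387), (723, 357), (665, 277)]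

/-- round 1, 3 crossings, sides `ss` -/
def v1_3ss : List (ℤ × ℤ) :=
  [(652, 338), (788, 278), (848, 290), (820, 412), (790, 528), (745, 534), (652, 464), (644, 378)]

/-- round 1, 4 crossings, sides `ea` -/
def v1_4ea : List (ℤ × ℤ) :=
  [(753, 55), (777, 47), (813, 73), (814, 79), (764, 130), (748, 109), (748, 88)]

/-- round 1, 4 crossings, sides `ez` -/
def v1_4ez : List (ℤ × ℤ) :=
  [(714, 117), (726, 105), (750, 110), (766, 129), (726, 145), (716, 138)]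

/-- round 1, 4 crossings, sides `es` -/
def v1_4es : List (ℤ × ℤ) :=
  [(683, 112), (696, 98), (744, 109), (758, 125), (699, 182), (686, 177), (669, 137)]

/-- round 1, 4 crossings, sides `aa` -/
def v1_4aa : List (ℤ × ℤ) :=
  [(799, 82), (829, 63), (886, 80), (861, 179), (825, 163), (820, 155), (806, 124)]

/-- round 1, 4 crossings, sides `az` -/
def v1_4az : List (ℤ × ℤ) :=
  [(806, 106), (857, 110), (872, 121), (861, 177), (841, 204), (809, 192), (789, 152), (783, 130)]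

/-- round 1, 4 crossings, sides `as` -/
def v1_4as : List (ℤ × ℤ) :=
  [(765, 126), (786, 105), (856, 110), (871, 124), (836, 238), (802, 228), (780, 205), (753, 153)]

/-- round 1, 4 crossings, sides `zz` -/
def v1_4zz : List (ℤ × ℤ) :=
  [(779, 197), (790, 172), (825, 162), (862, 176), (831, 217), (813, 231), (798, 228)]

/-- round 1, 4 crossings, sides `ss` -/
def v1_4ss : List (ℤ × ℤ) :=
  [(730, 206), (739, 183), (831, 162), (862, 174), (808, 313), (780, 314), (726, 264), (726, 240)]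

/-- round 1, 5 crossings, sides `ea` -/
def v1_5ea : List (ℤ × ℤ) :=
  [(831, 29), (844, 25), (867, 43), (833, 72), (825, 59), (827, 45)]

/-- round 1, 5 crossings, sides `ez` -/
def v1_5ez : List (ℤ × ℤ) :=
  [(805, 60), (814, 54), (827, 60), (834, 72), (811, 77), (807, 76), (804, 72)]

/-- round 1, 5 crossings, sides `es` -/
def v1_5es : List (ℤ × ℤ) :=
  [(778, 63), (797, 47), (824, 59), (829, 69), (787, 97), (780, 90), (778, 71)]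

/-- round 1, 5 crossings, sides `aa` -/
def v1_5aa : List (ℤ × ℤ) :=
  [(856, 47), (874, 38), (908, 52), (908, 54), (883, 112), (861, 97), (856, 73), (855, 57)]

/-- round 1, 5 crossings, sides `az` -/
def v1_5az : List (ℤ × ℤ) :=
  [(841, 75), (857, 62), (886, 69), (896, 77), (884, 110), (868, 125), (849, 114), (842, 87)]

/-- round 1, 5 crossings, sides `as` -/
def v1_5as : List (ℤ × ℤ) :=
  [(821, 79), (844, 59), (887, 70), (893, 76), (878, 114), (860, 146), (838, 135), (824, 105)]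

/-- round 1, 5 crossings, sides `zz` -/
def v1_5zz : List (ℤ × ℤ) :=
  [(841, 99), (864, 98), (884, 110), (852, 140), (839, 136), (833, 120), (831, 113)]

/-- round 1, 5 crossings, sides `zs` -/
def v1_5zs : List (ℤ × ℤ) :=
  [(817, 111), (826, 99), (860, 98), (880, 110), (856, 153), (841, 163), (826, 160), (809, 130)]

/-- round 1, 5 crossings, sides `ss` -/
def v1_5ss : List (ℤ × ℤ) :=
  [(794, 124), (806, 99), (856, 98), (876, 109), (834, 192), (817, 188), (800, 167), (787, 146)]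

/-- round 1, 6 crossings, sides `ea` -/
def v1_6ea : List (ℤ × ℤ) :=
  [(878, 17), (886, 15), (899, 26), (900, 27), (877, 44), (873, 34)]

/-- round 1, 6 crossings, sides `ez` -/
def v1_6ez : List (ℤ × ℤ) :=
  [(861, 34), (866, 31), (876, 36), (879, 43), (865, 45), (859, 43)]

/-- round 1, 6 crossings, sides `es` -/
def v1_6es : List (ℤ × ℤ) :=
  [(843, 53), (845, 33), (858, 26), (872, 34), (876, 41), (844, 56)]

/-- round 1, 6 crossings, sides `aa` -/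
def v1_6aa : List (ℤ × ℤ) :=
  [(891, 40), (892, 29), (904, 24), (927, 35), (905, 73), (891, 60)]

/-- round 1, 6 crossings, sides `az` -/
def v1_6az : List (ℤ × ℤ) :=
  [(880, 46), (892, 39), (911, 45), (917, 50), (903, 76), (893, 79), (882, 70)]

/-- round 1, 6 crossings, sides `as` -/
def v1_6as : List (ℤ × ℤ) :=
  [(869, 46), (884, 36), (909, 45), (916, 53), (887, 93), (872, 82), (867, 52)]

/-- round 1, 6 crossings, sides `zz` -/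
def v1_6zz : List (ℤ × ℤ) :=
  [(871, 68), (879, 60), (895, 62), (906, 71), (905, 72), (888, 84), (874, 87)]

/-- round 1, 6 crossings, sides `zs` -/
def v1_6zs : List (ℤ × ℤ) :=
  [(855, 75), (869, 58), (893, 62), (903, 71), (886, 92), (871, 103), (863, 97)]

/-- round 1, 6 crossings, sides `ss` -/
def v1_6ss : List (ℤ × ℤ) :=
  [(851, 65), (859, 56), (892, 62), (901, 70), (864, 119), (851, 114), (839, 82)]

/-- round 1, 7 crossings, sides `ea` -/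
def v1_7ea : List (ℤ × ℤ) :=
  [(908, 11), (913, 9), (921, 16), (922, 18), (907, 28), (904, 24)]

/-- round 1, 7 crossings, sides `ez` -/
def v1_7ez : List (ℤ × ℤ) :=
  [(895, 27), (897, 21), (900, 19), (905, 21), (908, 28), (902, 29)]

/-- round 1, 7 crossings, sides `es` -/
def v1_7es : List (ℤ × ℤ) :=
  [(885, 28), (887, 20), (895, 15), (906, 23), (906, 27), (884, 34)]

/-- round 1, 7 crossings, sides `aa` -/
def v1_7aa : List (ℤ × ℤ) :=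
  [(915, 30), (917, 19), (926, 16), (941, 25), (923, 49), (922, 48), (915, 40)]

/-- round 1, 7 crossings, sides `az` -/
def v1_7az : List (ℤ × ℤ) :=
  [(908, 30), (917, 25), (926, 29), (933, 34), (923, 49), (915, 53), (908, 46)]

/-- round 1, 7 crossings, sides `as` -/
def v1_7as : List (ℤ × ℤ) :=
  [(899, 30), (911, 23), (927, 30), (932, 37), (909, 61), (901, 54), (900, 47)]

/-- round 1, 7 crossings, sides `zz` -/
def v1_7zz : List (ℤ × ℤ) :=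
  [(901, 42), (908, 38), (917, 41), (924, 48), (914, 54), (905, 56), (901, 54)]

/-- round 1, 7 crossings, sides `zs` -/
def v1_7zs : List (ℤ × ℤ) :=
  [(901, 37), (915, 40), (922, 48), (910, 59), (899, 66), (891, 60), (891, 43)]

/-- round 1, 7 crossings, sides `ss` -/
def v1_7ss : List (ℤ × ℤ) :=
  [(893, 34), (916, 41), (921, 47), (890, 76), (884, 72), (882, 67), (879, 49)]

/-- ports of the round 2 -/
def p2_A2 : List (ℤ × ℤ) :=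
  [(422, 247), (669, 85), (907, 0), (1000, 0), (821, 675), (707, 648), (500, 501), (432, 433)]

/-- ports of the round 2 -/
def p2_A1 : List (ℤ × ℤ) :=
  [(422, 247), (622, 116), (753, 55), (907, 0), (1000, 0), (867, 501), (500, 501), (432, 433)]

/-- ports of the round 2 -/
def p2_Z : List (ℤ × ℤ) :=
  [(714, 117), (726, 105), (897, 0), (1000, 0), (831, 217), (813, 231), (798, 228), (716, 138)]

/-- ports of the round 2 -/
def p2_S3 : List (ℤ × ℤ) :=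
  [(510, 292), (528, 223), (862, 155), (867, 499), (818, 672), (707, 648), (558, 493), (529, 411)]

/-- ports of the round 2 -/
def p2_S2 : List (ℤ × ℤ) :=
  [(510, 292), (526, 228), (696, 98), (883, 0), (1000, 0), (821, 673), (707, 648), (539, 474)]

/-- ports of the round 2 -/
def p2_ST : List (ℤ × ℤ) :=
  [(527, 228), (696, 98), (883, 0), (1000, 0), (790, 528), (745, 534), (652, 464), (506, 300)]

/-- round 2, 2 crossings, sides `ea` -/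
def v2_2ea : List (ℤ × ℤ) :=
  [(428, 243), (518, 207), (634, 278), (661, 310), (500, 501), (475, 476), (434, 384), (427, 305)]

/-- round 2, 2 crossings, sides `aa` -/
def v2_2aa : List (ℤ × ℤ) :=
  [(672, 195), (837, 200), (867, 502), (815, 500), (743, 467), (682, 421), (627, 346), (599, 264)]

/-- round 2, 2 crossings, sides `as` -/
def v2_2as : List (ℤ × ℤ) :=
  [(588, 324), (684, 308), (841, 350), (867, 499), (817, 671), (715, 644), (557, 487), (534, 412)]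

/-- round 2, 3 crossings, sides `ea` -/
def v2_3ea : List (ℤ × ℤ) :=
  [(623, 115), (669, 99), (728, 135), (740, 150), (661, 252), (646, 237), (624, 190), (621, 146)]

/-- round 2, 3 crossings, sides `es` -/
def v2_3es : List (ℤ × ℤ) :=
  [(529, 237), (544, 223), (596, 222), (645, 234), (665, 247), (566, 351), (543, 339), (515, 286)]

/-- round 2, 3 crossings, sides `aa` -/
def v2_3aa : List (ℤ × ℤ) :=
  [(763, 113), (859, 126), (848, 292), (819, 287), (786, 266), (753, 237), (730, 192), (718, 148)]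

/-- round 2, 3 crossings, sides `as` -/
def v2_3as : List (ℤ × ℤ) :=
  [(673, 238), (712, 189), (849, 183), (849, 285), (822, 396), (785, 388), (734, 357), (669, 278)]

/-- round 2, 3 crossings, sides `ss` -/
def v2_3ss : List (ℤ × ℤ) :=
  [(663, 337), (742, 302), (814, 284), (851, 289), (786, 528), (734, 523), (658, 452), (649, 370)]

/-- round 2, 4 crossings, sides `ea` -/
def v2_4ea : List (ℤ × ℤ) :=
  [(754, 54), (778, 49), (808, 70), (813, 78), (764, 130), (758, 123), (748, 91)]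

/-- round 2, 4 crossings, sides `ez` -/
def v2_4ez : List (ℤ × ℤ) :=
  [(729, 116), (730, 110), (757, 119), (765, 128), (765, 129), (728, 133)]

/-- round 2, 4 crossings, sides `es` -/
def v2_4es : List (ℤ × ℤ) :=
  [(679, 123), (694, 102), (703, 100), (742, 129), (699, 182), (683, 170), (675, 138)]

/-- round 2, 4 crossings, sides `aa` -/
def v2_4aa : List (ℤ × ℤ) :=
  [(801, 81), (829, 65), (852, 71), (885, 80), (861, 177), (844, 171), (814, 141), (803, 106)]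

/-- round 2, 4 crossings, sides `az` -/
def v2_4az : List (ℤ × ℤ) :=
  [(809, 111), (835, 111), (872, 116), (861, 177), (836, 195), (810, 171), (796, 144), (793, 128)]

/-- round 2, 4 crossings, sides `as` -/
def v2_4as : List (ℤ × ℤ) :=
  [(763, 130), (791, 106), (830, 114), (860, 124), (837, 236), (814, 230), (784, 205), (758, 154)]

/-- round 2, 4 crossings, sides `zz` -/
def v2_4zz : List (ℤ × ℤ) :=
  [(799, 177), (849, 169), (862, 176), (840, 192), (814, 210), (810, 207), (800, 183)]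

/-- round 2, 4 crossings, sides `ss` -/
def v2_4ss : List (ℤ × ℤ) :=
  [(732, 218), (738, 185), (803, 171), (839, 168), (862, 175), (806, 312), (775, 307), (730, 257)]

/-- round 2, 5 crossings, sides `ea` -/
def v2_5ea : List (ℤ × ℤ) :=
  [(831, 29), (844, 26), (862, 40), (864, 45), (833, 72), (829, 66), (826, 52)]

/-- round 2, 5 crossings, sides `ez` -/
def v2_5ez : List (ℤ × ℤ) :=
  [(811, 70), (814, 57), (831, 66), (834, 72), (817, 71)]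

/-- round 2, 5 crossings, sides `es` -/
def v2_5es : List (ℤ × ℤ) :=
  [(780, 77), (781, 63), (794, 51), (801, 49), (821, 69), (788, 97), (780, 87)]

/-- round 2, 5 crossings, sides `aa` -/
def v2_5aa : List (ℤ × ℤ) :=
  [(855, 48), (856, 47), (875, 39), (906, 52), (907, 55), (883, 112), (872, 104), (857, 80)]

/-- round 2, 5 crossings, sides `az` -/
def v2_5az : List (ℤ × ℤ) :=
  [(846, 75), (859, 65), (897, 74), (883, 112), (868, 118), (863, 115), (851, 99)]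

/-- round 2, 5 crossings, sides `as` -/
def v2_5as : List (ℤ × ℤ) :=
  [(829, 72), (847, 61), (866, 67), (888, 79), (861, 146), (847, 138), (833, 122), (822, 87)]

/-- round 2, 5 crossings, sides `zz` -/
def v2_5zz : List (ℤ × ℤ) :=
  [(848, 103), (873, 104), (886, 110), (850, 126), (848, 122), (845, 106)]

/-- round 2, 5 crossings, sides `zs` -/
def v2_5zs : List (ℤ × ℤ) :=
  [(821, 120), (827, 106), (835, 100), (874, 113), (862, 144), (841, 155), (831, 150), (823, 133)]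

/-- round 2, 5 crossings, sides `ss` -/
def v2_5ss : List (ℤ × ℤ) :=
  [(794, 133), (803, 109), (813, 99), (863, 119), (863, 120), (834, 191), (812, 182), (794, 149)]

/-- round 2, 6 crossings, sides `ea` -/
def v2_6ea : List (ℤ × ℤ) :=
  [(874, 30), (879, 16), (887, 16), (896, 24), (899, 27), (876, 45)]

/-- round 2, 6 crossings, sides `ez` -/
def v2_6ez : List (ℤ × ℤ) :=
  [(864, 40), (867, 33), (878, 40), (878, 44), (865, 41)]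

/-- round 2, 6 crossings, sides `es` -/
def v2_6es : List (ℤ × ℤ) :=
  [(847, 34), (855, 28), (860, 27), (870, 41), (848, 55), (843, 48)]

/-- round 2, 6 crossings, sides `aa` -/
def v2_6aa : List (ℤ × ℤ) :=
  [(892, 29), (904, 25), (914, 29), (926, 36), (904, 74), (899, 67), (891, 51)]

/-- round 2, 6 crossings, sides `az` -/
def v2_6az : List (ℤ × ℤ) :=
  [(884, 47), (891, 40), (917, 49), (905, 73), (894, 75), (890, 71), (886, 62)]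

/-- round 2, 6 crossings, sides `as` -/
def v2_6as : List (ℤ × ℤ) :=
  [(878, 40), (888, 37), (911, 50), (888, 92), (879, 87), (871, 74), (868, 49)]

/-- round 2, 6 crossings, sides `zz` -/
def v2_6zz : List (ℤ × ℤ) :=
  [(881, 63), (899, 66), (906, 71), (905, 72), (881, 79)]

/-- round 2, 6 crossings, sides `zs` -/
def v2_6zs : List (ℤ × ℤ) :=
  [(870, 60), (887, 65), (899, 73), (888, 90), (879, 94), (868, 97), (863, 75)]

/-- round 2, 6 crossings, sides `ss` -/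
def v2_6ss : List (ℤ × ℤ) :=
  [(847, 74), (855, 62), (863, 57), (891, 74), (865, 119), (851, 111), (843, 86)]

/-- round 2, 7 crossings, sides `ea` -/
def v2_7ea : List (ℤ × ℤ) :=
  [(905, 23), (906, 17), (909, 10), (915, 10), (922, 18), (907, 28)]

/-- round 2, 7 crossings, sides `ez` -/
def v2_7ez : List (ℤ × ℤ) :=
  [(901, 20), (906, 24), (908, 28), (899, 26), (898, 25)]

/-- round 2, 7 crossings, sides `es` -/
def v2_7es : List (ℤ × ℤ) :=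
  [(889, 18), (896, 16), (897, 17), (903, 26), (887, 34), (885, 28)]

/-- round 2, 7 crossings, sides `aa` -/
def v2_7aa : List (ℤ × ℤ) :=
  [(915, 34), (917, 19), (925, 16), (940, 25), (922, 51)]

/-- round 2, 7 crossings, sides `az` -/
def v2_7az : List (ℤ × ℤ) :=
  [(912, 29), (917, 27), (920, 28), (933, 34), (923, 49), (913, 50), (910, 36)]

/-- round 2, 7 crossings, sides `as` -/
def v2_7as : List (ℤ × ℤ) :=
  [(900, 35), (902, 28), (915, 23), (928, 35), (910, 61), (904, 56), (900, 47)]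

/-- round 2, 7 crossings, sides `zz` -/
def v2_7zz : List (ℤ × ℤ) :=
  [(906, 47), (908, 41), (913, 42), (922, 45), (924, 49), (907, 51)]

/-- round 2, 7 crossings, sides `zs` -/
def v2_7zs : List (ℤ × ℤ) :=
  [(895, 48), (897, 43), (902, 38), (909, 41), (919, 48), (911, 59), (896, 62)]

/-- round 2, 7 crossings, sides `ss` -/
def v2_7ss : List (ℤ × ℤ) :=
  [(886, 43), (891, 38), (896, 35), (914, 49), (891, 76), (883, 69), (881, 51)]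

/-- ports of the round 3 -/
def p3_A2 : List (ℤ × ℤ) :=
  [(428, 243), (670, 84), (905, 0), (1000, 0), (822, 673), (715, 644), (480, 488), (426, 366)]

/-- ports of the round 3 -/
def p3_A1 : List (ℤ × ℤ) :=
  [(428, 243), (623, 115), (754, 54), (907, 0), (1000, 0), (867, 502), (486, 501), (426, 366)]

/-- ports of the round 3 -/
def p3_Z : List (ℤ × ℤ) :=
  [(728, 133), (729, 116), (730, 110), (897, 0), (1000, 0), (859, 180), (814, 210), (810, 207)]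

/-- ports of the round 3 -/
def p3_S3 : List (ℤ × ℤ) :=
  [(515, 286), (532, 225), (862, 159), (867, 499), (817, 671), (715, 644), (557, 487), (534, 412)]

/-- ports of the round 3 -/
def p3_S2 : List (ℤ × ℤ) :=
  [(509, 251), (694, 102), (883, 0), (1000, 0), (867, 499), (817, 671), (714, 644), (543, 473)]

/-- ports of the round 3 -/
def p3_ST : List (ℤ × ℤ) :=
  [(515, 286), (529, 235), (694, 102), (883, 0), (1000, 0), (786, 528), (730, 523), (543, 339)]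

/-- round 3, 2 crossings, sides `ea` -/
def v3_2ea : List (ℤ × ℤ) :=
  [(482, 220), (542, 221), (636, 283), (661, 310), (500, 501), (474, 475), (430, 375), (426, 249)]

/-- round 3, 2 crossings, sides `aa` -/
def v3_2aa : List (ℤ × ℤ) :=
  [(646, 218), (707, 194), (837, 204), (867, 503), (809, 498), (704, 448), (632, 356), (600, 269)]

/-- round 3, 2 crossings, sides `as` -/
def v3_2as : List (ℤ × ℤ) :=
  [(569, 354), (653, 300), (841, 349), (867, 499), (817, 668), (714, 644), (568, 497), (537, 420)]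

/-- round 3, 3 crossings, sides `ea` -/
def v3_3ea : List (ℤ × ℤ) :=
  [(623, 118), (650, 105), (678, 104), (743, 146), (661, 252), (646, 237), (625, 192), (621, 159)]

/-- round 3, 3 crossings, sides `es` -/
def v3_3es : List (ℤ × ℤ) :=
  [(535, 226), (593, 222), (648, 235), (662, 250), (565, 350), (545, 340), (517, 286), (525, 256)]

/-- round 3, 3 crossings, sides `aa` -/
def v3_3aa : List (ℤ × ℤ) :=
  [(748, 124), (778, 114), (859, 129), (847, 296), (807, 283), (756, 241), (733, 199), (718, 151)]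

/-- round 3, 3 crossings, sides `as` -/
def v3_3as : List (ℤ × ℤ) :=
  [(684, 213), (728, 188), (849, 185), (848, 289), (822, 393), (789, 389), (731, 354), (669, 274)]

/-- round 3, 3 crossings, sides `ss` -/
def v3_3ss : List (ℤ × ℤ) :=
  [(651, 346), (743, 303), (814, 284), (851, 290), (784, 527), (740, 521), (700, 488), (658, 448)]

/-- round 3, 4 crossings, sides `ea` -/
def v3_4ea : List (ℤ × ℤ) :=
  [(754, 55), (768, 51), (780, 50), (815, 76), (764, 130), (757, 121), (748, 90)]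

/-- round 3, 4 crossings, sides `ez` -/
def v3_4ez : List (ℤ × ℤ) :=
  [(731, 114), (733, 112), (757, 119), (766, 129), (732, 132), (731, 128)]

/-- round 3, 4 crossings, sides `es` -/
def v3_4es : List (ℤ × ℤ) :=
  [(693, 105), (702, 100), (742, 129), (699, 182), (685, 171), (675, 136), (681, 122)]

/-- round 3, 4 crossings, sides `aa` -/
def v3_4aa : List (ℤ × ℤ) :=
  [(820, 70), (839, 67), (885, 82), (861, 177), (841, 170), (814, 139), (806, 118), (800, 83)]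

/-- round 3, 4 crossings, sides `az` -/
def v3_4az : List (ℤ × ℤ) :=
  [(795, 129), (805, 117), (818, 111), (872, 116), (861, 177), (838, 193), (812, 170), (798, 142)]

/-- round 3, 4 crossings, sides `as` -/
def v3_4as : List (ℤ × ℤ) :=
  [(767, 129), (781, 114), (797, 107), (860, 123), (837, 236), (813, 228), (783, 203), (758, 150)]

/-- round 3, 4 crossings, sides `zz` -/
def v3_4zz : List (ℤ × ℤ) :=
  [(803, 178), (845, 169), (862, 176), (841, 191), (826, 201), (815, 205), (802, 182)]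

/-- round 3, 4 crossings, sides `ss` -/
def v3_4ss : List (ℤ × ℤ) :=
  [(734, 216), (740, 187), (805, 171), (842, 169), (862, 174), (804, 313), (776, 305), (731, 256)]

/-- round 3, 5 crossings, sides `ea` -/
def v3_5ea : List (ℤ × ℤ) :=
  [(831, 30), (838, 27), (849, 29), (865, 44), (833, 72), (829, 66), (826, 52)]

/-- round 3, 5 crossings, sides `ez` -/
def v3_5ez : List (ℤ × ℤ) :=
  [(813, 70), (815, 60), (817, 59), (831, 66), (834, 72), (821, 71)]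

/-- round 3, 5 crossings, sides `es` -/
def v3_5es : List (ℤ × ℤ) :=
  [(780, 65), (793, 52), (801, 49), (820, 70), (790, 95), (787, 95), (781, 87)]

/-- round 3, 5 crossings, sides `aa` -/
def v3_5aa : List (ℤ × ℤ) :=
  [(856, 48), (869, 41), (880, 41), (900, 50), (907, 55), (883, 112), (871, 103), (855, 76)]

/-- round 3, 5 crossings, sides `az` -/
def v3_5az : List (ℤ × ℤ) :=
  [(847, 76), (855, 69), (861, 66), (891, 73), (896, 75), (883, 112), (867, 118), (854, 101)]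

/-- round 3, 5 crossings, sides `as` -/
def v3_5as : List (ℤ × ℤ) :=
  [(824, 82), (835, 67), (853, 61), (887, 79), (861, 147), (844, 135), (833, 120), (824, 91)]

/-- round 3, 5 crossings, sides `zz` -/
def v3_5zz : List (ℤ × ℤ) :=
  [(847, 107), (849, 104), (873, 104), (885, 110), (852, 125)]

/-- round 3, 5 crossings, sides `zs` -/
def v3_5zs : List (ℤ × ℤ) :=
  [(828, 107), (833, 103), (846, 104), (874, 113), (863, 142), (842, 154), (834, 150), (821, 124)]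

/-- round 3, 5 crossings, sides `ss` -/
def v3_5ss : List (ℤ × ℤ) :=
  [(796, 130), (805, 108), (814, 100), (862, 119), (835, 191), (813, 181), (794, 147)]

/-- round 3, 6 crossings, sides `ea` -/
def v3_6ea : List (ℤ × ℤ) :=
  [(874, 34), (876, 24), (878, 17), (887, 16), (899, 27), (877, 44)]

/-- round 3, 6 crossings, sides `ez` -/
def v3_6ez : List (ℤ × ℤ) :=
  [(867, 35), (868, 34), (875, 38), (876, 39), (879, 44), (865, 41)]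

/-- round 3, 6 crossings, sides `es` -/
def v3_6es : List (ℤ × ℤ) :=
  [(847, 34), (858, 27), (860, 27), (870, 41), (848, 55), (844, 49)]

/-- round 3, 6 crossings, sides `aa` -/
def v3_6aa : List (ℤ × ℤ) :=
  [(892, 30), (901, 26), (908, 26), (926, 36), (904, 74), (896, 62), (891, 49)]

/-- round 3, 6 crossings, sides `az` -/
def v3_6az : List (ℤ × ℤ) :=
  [(885, 47), (890, 43), (896, 42), (917, 49), (905, 73), (894, 75), (887, 63)]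

/-- round 3, 6 crossings, sides `as` -/
def v3_6as : List (ℤ × ℤ) :=
  [(870, 48), (879, 40), (888, 38), (911, 50), (887, 93), (873, 80), (869, 57)]

/-- round 3, 6 crossings, sides `zz` -/
def v3_6zz : List (ℤ × ℤ) :=
  [(882, 64), (902, 67), (906, 72), (886, 77), (883, 76)]

/-- round 3, 6 crossings, sides `zs` -/
def v3_6zs : List (ℤ × ℤ) :=
  [(872, 61), (884, 64), (899, 73), (888, 90), (874, 95), (869, 93), (864, 73)]

/-- round 3, 6 crossings, sides `ss` -/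
def v3_6ss : List (ℤ × ℤ) :=
  [(844, 80), (856, 61), (863, 58), (891, 75), (864, 119), (852, 110), (846, 93)]

/-- round 3, 7 crossings, sides `ea` -/
def v3_7ea : List (ℤ × ℤ) :=
  [(907, 12), (910, 10), (915, 11), (922, 18), (907, 28), (905, 24)]

/-- round 3, 7 crossings, sides `ez` -/
def v3_7ez : List (ℤ × ℤ) :=
  [(899, 25), (901, 21), (908, 26), (908, 28), (900, 26)]

/-- round 3, 7 crossings, sides `es` -/
def v3_7es : List (ℤ × ℤ) :=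
  [(885, 30), (888, 20), (896, 16), (903, 26), (893, 31), (887, 33)]

/-- round 3, 7 crossings, sides `aa` -/
def v3_7aa : List (ℤ × ℤ) :=
  [(917, 19), (925, 17), (928, 18), (940, 25), (923, 49), (920, 46), (915, 34)]

/-- round 3, 7 crossings, sides `az` -/
def v3_7az : List (ℤ × ℤ) :=
  [(911, 30), (917, 27), (927, 31), (932, 35), (923, 49), (916, 50), (912, 44)]

/-- round 3, 7 crossings, sides `as` -/
def v3_7as : List (ℤ × ℤ) :=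
  [(901, 31), (907, 25), (916, 25), (928, 35), (909, 62), (903, 54), (899, 42)]

/-- round 3, 7 crossings, sides `zz` -/
def v3_7zz : List (ℤ × ℤ) :=
  [(908, 41), (919, 44), (926, 48), (908, 51)]

/-- round 3, 7 crossings, sides `zs` -/
def v3_7zs : List (ℤ × ℤ) :=
  [(896, 47), (898, 42), (903, 39), (911, 42), (919, 49), (910, 59), (897, 62)]

/-- round 3, 7 crossings, sides `ss` -/
def v3_7ss : List (ℤ × ℤ) :=
  [(882, 49), (889, 40), (896, 35), (913, 49), (891, 77), (883, 68)]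

namespace SC

/-- scaled ports -/
def n1_A2 : List (ℕ × ℕ) :=
  [(6720, 3952), (7760, 3200), (12560, 0), (16000, 0), (13296, 10816), (11728, 10800), (7952, 8128),
      (6720, 7104)]

lemma rg1_A2 {k : ℂ} (h : k ∈ Poly p1_A2) : 16000 * k ∈ Rg n1_A2 := rg_of_poly (by decide) h

/-- scaled ports -/
def n1_A1 : List (ℕ × ℕ) :=
  [(6720, 3952), (7760, 3200), (10384, 1456), (12800, 0), (16000, 0), (13968, 8128), (7952, 8128),
      (6720, 7104)]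

lemma rg1_A1 {k : ℂ} (h : k ∈ Poly p1_A1) : 16000 * k ∈ Rg n1_A1 := rg_of_poly (by decide) h

/-- scaled ports -/
def n1_Z : List (ℕ × ℕ) :=
  [(10560, 1840), (12800, 0), (16000, 0), (14400, 4000), (13280, 5280), (12320, 5280), (10560,
      3680)]

lemma rg1_Z {k : ℂ} (h : k ∈ Poly p1_Z) : 16000 * k ∈ Rg n1_Z := rg_of_poly (by decide) h

/-- scaled ports -/
def n1_S3 : List (ℕ × ℕ) :=
  [(8016, 3840), (12112, 608), (14880, 608), (13984, 8064), (13296, 10800), (11728, 10800), (8448,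
      8048), (8016, 5024)]

lemma rg1_S3 {k : ℂ} (h : k ∈ Poly p1_S3) : 16000 * k ∈ Rg n1_S3 := rg_of_poly (by decide) h

/-- scaled ports -/
def n1_S2 : List (ℕ × ℕ) :=
  [(8016, 3840), (12800, 0), (16000, 0), (13984, 8064), (13296, 10800), (11728, 10800), (8448,
      8048), (8016, 5024)]

lemma rg1_S2 {k : ℂ} (h : k ∈ Poly p1_S2) : 16000 * k ∈ Rg n1_S2 := rg_of_poly (by decide) h

/-- scaled ports -/
def n1_ST : List (ℕ × ℕ) :=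
  [(8016, 3840), (12800, 0), (16000, 0), (12624, 8624), (11728, 8624), (10192, 7280), (8016, 5024)]

lemma rg1_ST {k : ℂ} (h : k ∈ Poly p1_ST) : 16000 * k ∈ Rg n1_ST := rg_of_poly (by decide) h

/-- scaled ports -/
def n2_A2 : List (ℕ × ℕ) :=
  [(6752, 3952), (10704, 1360), (14512, 0), (16000, 0), (13136, 10800), (11312, 10368), (8000,
      8016), (6912, 6928)]

lemma rg2_A2 {k : ℂ} (h : k ∈ Poly p2_A2) : 16000 * k ∈ Rg n2_A2 := rg_of_poly (by decide) h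

/-- scaled ports -/
def n2_A1 : List (ℕ × ℕ) :=
  [(6752, 3952), (9952, 1856), (12048, 880), (14512, 0), (16000, 0), (13872, 8016), (8000, 8016),
      (6912, 6928)]

lemma rg2_A1 {k : ℂ} (h : k ∈ Poly p2_A1) : 16000 * k ∈ Rg n2_A1 := rg_of_poly (by decide) h

/-- scaled ports -/
def n2_Z : List (ℕ × ℕ) :=
  [(11424, 1872), (11616, 1680), (14352, 0), (16000, 0), (13296, 3472), (13008, 3696), (12768,
      3648), (11456, 2208)]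

lemma rg2_Z {k : ℂ} (h : k ∈ Poly p2_Z) : 16000 * k ∈ Rg n2_Z := rg_of_poly (by decide) h

/-- scaled ports -/
def n2_S3 : List (ℕ × ℕ) :=
  [(8160, 4672), (8448, 3568), (13792, 2480), (13872, 7984), (13088, 10752), (11312, 10368), (8928,
      7888), (8464, 6576)]

lemma rg2_S3 {k : ℂ} (h : k ∈ Poly p2_S3) : 16000 * k ∈ Rg n2_S3 := rg_of_poly (by decide) h

/-- scaled ports -/
def n2_S2 : List (ℕ × ℕ) :=
  [(8160, 4672), (8416, 3648), (11136, 1568), (14128, 0), (16000, 0), (13136, 10768), (11312,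
      10368), (8624, 7584)]

lemma rg2_S2 {k : ℂ} (h : k ∈ Poly p2_S2) : 16000 * k ∈ Rg n2_S2 := rg_of_poly (by decide) h

/-- scaled ports -/
def n2_ST : List (ℕ × ℕ) :=
  [(8432, 3648), (11136, 1568), (14128, 0), (16000, 0), (12640, 8448), (11920, 8544), (10432, 7424),
      (8096, 4800)]

lemma rg2_ST {k : ℂ} (h : k ∈ Poly p2_ST) : 16000 * k ∈ Rg n2_ST := rg_of_poly (by decide) h

/-- scaled ports -/
def n3_A2 : List (ℕ × ℕ) :=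
  [(6848, 3888), (10720, 1344), (14480, 0), (16000, 0), (13152, 10768), (11440, 10304), (7680,
      7808), (6816, 5856)]

lemma rg3_A2 {k : ℂ} (h : k ∈ Poly p3_A2) : 16000 * k ∈ Rg n3_A2 := rg_of_poly (by decide) h

/-- scaled ports -/
def n3_A1 : List (ℕ × ℕ) :=
  [(6848, 3888), (9968, 1840), (12064, 864), (14512, 0), (16000, 0), (13872, 8032), (7776, 8016),
      (6816, 5856)]

lemma rg3_A1 {k : ℂ} (h : k ∈ Poly p3_A1) : 16000 * k ∈ Rg n3_A1 := rg_of_poly (by decide) h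

/-- scaled ports -/
def n3_Z : List (ℕ × ℕ) :=
  [(11648, 2128), (11664, 1856), (11680, 1760), (14352, 0), (16000, 0), (13744, 2880), (13024,
      3360), (12960, 3312)]

lemma rg3_Z {k : ℂ} (h : k ∈ Poly p3_Z) : 16000 * k ∈ Rg n3_Z := rg_of_poly (by decide) h

/-- scaled ports -/
def n3_S3 : List (ℕ × ℕ) :=
  [(8240, 4576), (8512, 3600), (13792, 2544), (13872, 7984), (13072, 10736), (11440, 10304), (8912,
      7792), (8544, 6592)]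

lemma rg3_S3 {k : ℂ} (h : k ∈ Poly p3_S3) : 16000 * k ∈ Rg n3_S3 := rg_of_poly (by decide) h

/-- scaled ports -/
def n3_S2 : List (ℕ × ℕ) :=
  [(8144, 4016), (11104, 1632), (14128, 0), (16000, 0), (13872, 7984), (13072, 10736), (11424,
      10304), (8688, 7568)]

lemma rg3_S2 {k : ℂ} (h : k ∈ Poly p3_S2) : 16000 * k ∈ Rg n3_S2 := rg_of_poly (by decide) h

/-- scaled ports -/
def n3_ST : List (ℕ × ℕ) :=
  [(8240, 4576), (8464, 3760), (11104, 1632), (14128, 0), (16000, 0), (12576, 8448), (11680, 8368),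
      (8688, 5424)]

lemma rg3_ST {k : ℂ} (h : k ∈ Poly p3_ST) : 16000 * k ∈ Rg n3_ST := rg_of_poly (by decide) h

end SC

end Pool.Agent.Work.MP_b30479_gtS.G2

end

section

/-!
# Rows at rings, side of the ring: expressions and the word part

The variables are `x`, `Y`, `s`, `η`.  Right: `σ = x - 1/2 + s`; left: `σ = -(x - 1/2) - s`,
`η` stands for `-η`; between: `σ = x - 1/2 - s`.
-/

namespace Pool.Agent.Work.MP_b30479_gtS.G2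

open VOL NumUs

namespace ZD

namespace ZA

section
open NumIs (V)
open NumUs NumUs.E

/-- `x` -/
def vx : E := var 0
def vY : E := var 1
def vs : E := var 2
def ve : E := var 3
def two (a : E) : E := mul (q 2 1) a
def hpi : E := mul (q 1 2) pi
/-- `2 x - 1 + s` -/
def vb : E := add (sub (two vx) (q 1 1)) vs
/-- `2 x - 1 - s` -/
def vc : E := sub (sub (two vx) (q 1 1)) vs
def py : E := add (mul (q 49 5) vY) (mul (q 90 1) (mul vY (sq vY)))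
def pyd : E := add (q 49 5) (mul (q 270 1) (sq vY))
def z0 : E := q 0 1
def br : E := mul (mul (two pi) ve) (add (sub vx (q 1 2)) vs)
def vio : E := sub ve (mul (q 418 1000) (sub (sub (q 1 1) vx) vs))
def vioN : E := sub (neg ve) (mul (q 418 1000) (sub (sub (q 1 1) vx) vs))
/-- right of the hinge: the value, `w` stands for `-uu s (Y - η)` -/
def fR' (w : E) : E := add (sub (add (E.uu vb (add vY ve)) w) (two (E.uu vx vY))) (mul pi ve)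
/-- the derivative, `w` stands for `lnB s (Y - η)` -/
def fRy (w : E) : E := add (sub w (E.lnB vb (add vY ve))) (two (E.lnB vx vY))
/-- minus the derivative of `F` -/
def dD (c : ℤ) (f fy b : E) : E :=
  neg (add (mul (add (q 1 1) py) fy) (add (q 1 1000) (mul pyd (sub (sub f b) (q c 1000)))))
/-- `-F` -/
def dF (c : ℤ) (f b f0 : E) : E :=
  neg (add (sub f f0) (add (mul (q 1 1000) vY) (mul py (sub (sub f b) (q c 1000)))))
def w1 : E := neg (E.uu vs (sub vY ve))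
def ep : E := q 2 1000
def w2 : E := neg (E.uu ep (sub vY ve))
def w3 : E := add w2 (q 52 10000)
def l1 : E := E.lnB vs (sub vY ve)
def l2 : E := E.lnB ep (sub vY ve)
/-- values at `0` (right, left), `w` stands for `-uu s η`, `g` for `π η` (`η` the true one) -/
def f0R (w g : E) : E := add (sub (add (E.uu vb ve) w) (two (E.uu vx z0))) g
def w4 : E := neg (E.uu vs ve)
def g1 : E := mul pi ve
def g2 : E := neg (mul pi ve)
/-- thin: `-(-uu s η)` is at most `-π η / 2` -/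
def w5 : E := mul hpi ve
def w6 : E := neg (mul hpi ve)
def vYn : E := neg (add ve vY)
def vYe : E := sub ve vY
def vYg : E := sub vY ve
/-- between -/
def fm (a b : E) : E := sub (add (add a b) (mul pi vY)) (two (E.uu vx vY))
def f0M (a b : E) : E := sub (add (add a b) (two (mul pi ve))) (two (E.uu vx z0))
def a1 : E := E.uu vc (add vY ve)
def b1 : E := E.uu vs (sub vY ve)
def a10 : E := E.uu vc ve
def b10 : E := E.uu vs ve
def ee : E := q 2 10000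
def b2 : E := neg (mul hpi (sub vY ve))
def b3 : E := add b2 (q 52 100000)
def a2 : E := neg (mul hpi (add vY ve))
def a3 : E := add a2 (q 78 100000)
def e30 : E := E.uu (q 3 10000) ve
def e20 : E := E.uu ee ve
/-- between, `η = 0`, derivative -/
def fM0 (b : E) : E := sub (add (add (E.uu vc vY) b) (mul pi vY)) (two (E.uu vx vY))
def fMy (b : E) : E := add (sub (sub pi (E.lnB vc vY)) b) (two (E.lnB vx vY))
def bb1 : E := E.uu vs vY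
def bb2 : E := neg (mul hpi vY)
def lb1 : E := E.lnB vs vY
def lb2 : E := E.lnB ee vY
/-- series, `a` point, `Q` the exponential -/
def qe (t : E) : E := exp (neg (mul (two pi) t))
def sr (Q a : E) : E := sub (mul Q (sinPi (two a))) (mul (mul (q 1 4) (sq Q)) (sinPi (mul (q 4 1) a)))
def er (Q : E) : E := mul (mul (q 1 12) (mul Q (sq Q))) (inv (sub (q 1 1) Q))
def ser : E := E.lt (qe (add vY ve)) (E.lt (qe (sub vY ve)) (E.lt (qe vY)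
  (add (mul (inv (two pi)) (add (add (sr (var 4) (add vx vs)) (sr (var 5) (sub vx vs)))
    (two (add (mul (var 6) (sinPi (two vx))) (mul (mul (q 1 4) (sq (var 6))) (sinPi (mul (q 4 1) vx)))))))
    (add (er (var 4)) (add (er (var 5)) (two (er (var 6))))))))
def vs1 : E := sub ve (mul (q 418 1000) (sub (q 1 2) vs))
def vs2 : E := sub ve (mul (q 418 1000) (add (q 1 2) vs))
def brM : E := mul (mul (two pi) ve) (sub (sub vx (q 1 2)) vs)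
/-- a two at an end -/
def dz : E := sub (mul (mul pi (sub vx (q 1 2))) vY) (E.uu vx vY)
def dzy : E := add (mul pi (sub vx (q 1 2))) (E.lnB vx vY)
def dzs : E := E.lt (qe vY) (add (mul (inv (two pi)) (add (mul (var 4) (sinPi (two vx)))
  (mul (mul (q 1 4) (sq (var 4))) (sinPi (mul (q 4 1) vx))))) (er (var 4)))

theorem lk0 (a b c d : ℝ) (l : List ℝ) : NumIs.lkR (a :: b :: c :: d :: l) 0 = a := rfl
theorem lk1 (a b c d : ℝ) (l : List ℝ) : NumIs.lkR (a :: b :: c :: d :: l) 1 = b := rfl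
theorem lk2 (a b c d : ℝ) (l : List ℝ) : NumIs.lkR (a :: b :: c :: d :: l) 2 = c := rfl
theorem lk3 (a b c d : ℝ) (l : List ℝ) : NumIs.lkR (a :: b :: c :: d :: l) 3 = d := rfl

theorem dD_val (c : ℤ) (f fy b : E) (x Y s e : ℝ) : (dD c f fy b).val [x, Y, s, e] =
    -((1 + PY Y) * fy.val [x, Y, s, e] + (1 / 1000 + (49 / 5 + 270 * Y ^ 2) *
      (f.val [x, Y, s, e] - b.val [x, Y, s, e] - c / 1000))) := by
  simp only [dD, py, pyd, vY, val, lk1, PY]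
  push_cast
  ring

theorem dF_val (c : ℤ) (f b f0 : E) (x Y s e : ℝ) : (dF c f b f0).val [x, Y, s, e] =
    -(f.val [x, Y, s, e] - f0.val [x, Y, s, e] + (Y / 1000 + PY Y *
      (f.val [x, Y, s, e] - b.val [x, Y, s, e] - c / 1000))) := by
  simp only [dF, py, vY, val, lk1, PY]
  push_cast
  ring

theorem fR_val (w : E) (x Y s e : ℝ) : (fR' w).val [x, Y, s, e] =
    uu (2 * x - 1 + s) (Y + e) + w.val [x, Y, s, e] - 2 * uu x Y + Real.pi * e := by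
  simp only [fR', vb, vx, vY, vs, ve, two, val, lk0, lk1, lk2, lk3]
  norm_num

theorem fRy_val (w : E) (x Y s e : ℝ) : (fRy w).val [x, Y, s, e] =
    w.val [x, Y, s, e] - NumIs.lnB (2 * x - 1 + s) (Y + e) + 2 * NumIs.lnB x Y := by
  simp only [fRy, vb, vx, vY, vs, ve, two, val, lk0, lk1, lk2, lk3]
  norm_num

theorem w1_val (x Y s e : ℝ) : w1.val [x, Y, s, e] = -uu s (Y - e) := by
  simp only [w1, vY, vs, ve, val, lk1, lk2, lk3]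

theorem w2_val (x Y s e : ℝ) : w2.val [x, Y, s, e] = -uu (2 / 1000) (Y - e) := by
  simp only [w2, ep, vY, ve, val, lk1, lk3]
  norm_num

theorem w3_val (x Y s e : ℝ) : w3.val [x, Y, s, e] = -uu (2 / 1000) (Y - e) + 52 / 10000 := by
  simp only [w3, val, w2_val]
  norm_num

theorem w4_val (x Y s e : ℝ) : w4.val [x, Y, s, e] = -uu s e := by
  simp only [w4, vs, ve, val, lk2, lk3]

theorem w5_val (x Y s e : ℝ) : w5.val [x, Y, s, e] = Real.pi / 2 * e := by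
  simp only [w5, hpi, ve, val, lk3]
  push_cast
  ring

theorem w6_val (x Y s e : ℝ) : w6.val [x, Y, s, e] = -(Real.pi / 2 * e) := by
  simp only [w6, hpi, ve, val, lk3]
  push_cast
  ring

theorem l1_val (x Y s e : ℝ) : l1.val [x, Y, s, e] = NumIs.lnB s (Y - e) := by
  simp only [l1, vY, vs, ve, val, lk1, lk2, lk3]

theorem l2_val (x Y s e : ℝ) : l2.val [x, Y, s, e] = NumIs.lnB (2 / 1000) (Y - e) := by
  simp only [l2, ep, vY, ve, val, lk1, lk3]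
  norm_num

theorem hpi_val (x Y s e : ℝ) : hpi.val [x, Y, s, e] = Real.pi / 2 := by
  simp only [hpi, val]
  push_cast
  ring

theorem z0_val (x Y s e : ℝ) : z0.val [x, Y, s, e] = 0 := by
  simp only [z0, val]
  norm_num

theorem br_val (x Y s e : ℝ) : br.val [x, Y, s, e] = 2 * Real.pi * e * (x - 1 / 2 + s) := by
  simp only [br, two, vx, vs, ve, val, lk0, lk2, lk3]
  norm_num

theorem brM_val (x Y s e : ℝ) : brM.val [x, Y, s, e] = 2 * Real.pi * e * (x - 1 / 2 - s) := by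
  simp only [brM, two, vx, vs, ve, val, lk0, lk2, lk3]
  norm_num

theorem f0R_val (w g : E) (x Y s e : ℝ) : (f0R w g).val [x, Y, s, e] =
    uu (2 * x - 1 + s) e + w.val [x, Y, s, e] - 2 * uu x 0 + g.val [x, Y, s, e] := by
  simp only [f0R, vb, vx, vs, ve, two, z0, val, lk0, lk2, lk3]
  norm_num

theorem g1_val (x Y s e : ℝ) : g1.val [x, Y, s, e] = Real.pi * e := by
  simp only [g1, ve, val, lk3]

theorem g2_val (x Y s e : ℝ) : g2.val [x, Y, s, e] = -(Real.pi * e) := by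
  simp only [g2, ve, val, lk3]

theorem fm_val (a b : E) (x Y s e : ℝ) : (fm a b).val [x, Y, s, e] =
    a.val [x, Y, s, e] + b.val [x, Y, s, e] + Real.pi * Y - 2 * uu x Y := by
  simp only [fm, vx, vY, two, val, lk0, lk1]
  norm_num

theorem f0M_val (a b : E) (x Y s e : ℝ) : (f0M a b).val [x, Y, s, e] =
    a.val [x, Y, s, e] + b.val [x, Y, s, e] + 2 * (Real.pi * e) - 2 * uu x 0 := by
  simp only [f0M, vx, ve, two, z0, val, lk0, lk3]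
  norm_num

theorem a1_val (x Y s e : ℝ) : a1.val [x, Y, s, e] = uu (2 * x - 1 - s) (Y + e) := by
  simp only [a1, vc, vx, vY, vs, ve, two, val, lk0, lk1, lk2, lk3]
  norm_num

theorem b1_val (x Y s e : ℝ) : b1.val [x, Y, s, e] = uu s (Y - e) := by
  simp only [b1, vY, vs, ve, val, lk1, lk2, lk3]

theorem a10_val (x Y s e : ℝ) : a10.val [x, Y, s, e] = uu (2 * x - 1 - s) e := by
  simp only [a10, vc, vx, vs, ve, two, val, lk0, lk2, lk3]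
  norm_num

theorem b10_val (x Y s e : ℝ) : b10.val [x, Y, s, e] = uu s e := by
  simp only [b10, vs, ve, val, lk2, lk3]

theorem b2_val (x Y s e : ℝ) : b2.val [x, Y, s, e] = -(Real.pi / 2 * (Y - e)) := by
  simp only [b2, hpi, vY, ve, val, lk1, lk3]
  push_cast
  ring

theorem b3_val (x Y s e : ℝ) : b3.val [x, Y, s, e] = -(Real.pi / 2 * (Y - e)) + 52 / 100000 := by
  simp only [b3, val, b2_val]
  norm_num

theorem a2_val (x Y s e : ℝ) : a2.val [x, Y, s, e] = -(Real.pi / 2 * (Y + e)) := by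
  simp only [a2, hpi, vY, ve, val, lk1, lk3]
  push_cast
  ring

theorem a3_val (x Y s e : ℝ) : a3.val [x, Y, s, e] = -(Real.pi / 2 * (Y + e)) + 78 / 100000 := by
  simp only [a3, val, a2_val]
  norm_num

theorem e20_val (x Y s e : ℝ) : e20.val [x, Y, s, e] = uu (2 / 10000) e := by
  simp only [e20, ee, ve, val, lk3]
  norm_num

theorem e30_val (x Y s e : ℝ) : e30.val [x, Y, s, e] = uu (3 / 10000) e := by
  simp only [e30, ve, val, lk3]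
  norm_num

theorem fM0_val (b : E) (x Y s e : ℝ) : (fM0 b).val [x, Y, s, e] =
    uu (2 * x - 1 - s) Y + b.val [x, Y, s, e] + Real.pi * Y - 2 * uu x Y := by
  simp only [fM0, vc, vx, vY, vs, two, val, lk0, lk1, lk2]
  norm_num

theorem fMy_val (b : E) (x Y s e : ℝ) : (fMy b).val [x, Y, s, e] =
    Real.pi - NumIs.lnB (2 * x - 1 - s) Y - b.val [x, Y, s, e] + 2 * NumIs.lnB x Y := by
  simp only [fMy, vc, vx, vY, vs, two, val, lk0, lk1, lk2]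
  norm_num

theorem bb1_val (x Y s e : ℝ) : bb1.val [x, Y, s, e] = uu s Y := by
  simp only [bb1, vY, vs, val, lk1, lk2]

theorem bb2_val (x Y s e : ℝ) : bb2.val [x, Y, s, e] = -(Real.pi / 2 * Y) := by
  simp only [bb2, hpi, vY, val, lk1]
  push_cast
  ring

theorem lb1_val (x Y s e : ℝ) : lb1.val [x, Y, s, e] = NumIs.lnB s Y := by
  simp only [lb1, vY, vs, val, lk1, lk2]

theorem lb2_val (x Y s e : ℝ) : lb2.val [x, Y, s, e] = NumIs.lnB (2 / 10000) Y := by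
  simp only [lb2, ee, vY, val, lk1]
  norm_num

theorem vio_no {x Y s e : ℝ} (h : e ≤ 418 / 1000 * (1 - x - s)) : ¬ 0 < vio.val [x, Y, s, e] := by
  intro hp
  simp only [vio, vx, vs, ve, val, lk0, lk2, lk3] at hp
  norm_num at hp
  linarith

theorem vioN_no {x Y s e : ℝ} (h : -e ≤ 418 / 1000 * (1 - x - s)) : ¬ 0 < vioN.val [x, Y, s, e] := by
  intro hp
  simp only [vioN, vx, vs, ve, val, lk0, lk2, lk3] at hp
  norm_num at hp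
  linarith

theorem vYe_no {x Y s e : ℝ} (h : e ≤ Y) : ¬ 0 < vYe.val [x, Y, s, e] := by
  intro hp
  simp only [vYe, vY, ve, val, lk1, lk3] at hp
  linarith

theorem vYg_no {x Y s e : ℝ} (h : Y ≤ e) : ¬ 0 < vYg.val [x, Y, s, e] := by
  intro hp
  simp only [vYg, vY, ve, val, lk1, lk3] at hp
  linarith

theorem vYn_no {x Y s e : ℝ} (h : 0 ≤ e + Y) : ¬ 0 < vYn.val [x, Y, s, e] := by
  intro hp
  simp only [vYn, vY, ve, val, lk1, lk3] at hp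
  linarith

/-- alternatives -/
theorem ex1 {a : E} {xs : List ℝ} (h : ∃ e ∈ [a], 0 < e.val xs) : 0 < a.val xs := by
  obtain ⟨e, he, hp⟩ := h
  rw [List.mem_singleton] at he
  rwa [he] at hp

theorem ex2 {a : E} {l : List E} {xs : List ℝ} (h : ∃ e ∈ a :: l, 0 < e.val xs) :
    0 < a.val xs ∨ ∃ e ∈ l, 0 < e.val xs := by
  obtain ⟨e, he, hp⟩ := h
  rcases List.mem_cons.1 he with rfl | he
  · exact Or.inl hp
  · exact Or.inr ⟨e, he, hp⟩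

theorem exd {a : E} {l : List E} {xs : List ℝ} (h : ∃ e ∈ l ++ [a], 0 < e.val xs)
    (ha : ¬ 0 < a.val xs) : ∃ e ∈ l, 0 < e.val xs := by
  obtain ⟨e, he, hp⟩ := h
  rcases List.mem_append.1 he with he | he
  · exact ⟨e, he, hp⟩
  · rw [List.mem_singleton] at he
    rw [he] at hp
    exact absurd hp ha

end

end ZA

end ZD

end Pool.Agent.Work.MP_b30479_gtS.G2

end
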