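import Pool.Agent.Work.MP_b30479_gt.TBS.G2.RDw
import Pool.Agent.Work.MP_b30479_gt.TBS.G2.ZRAe
import Pool.Agent.Work.MP_b30479_gt.TBS.G2.SKapTwo
import Pool.Agent.Work.MP_b30479_gt.TBS.G2.SZa
import Pool.Agent.Work.MP_b30479_gt.TBS.G2.WLocX
import Pool.Agent.Work.MP_b30479_gt.TBS.G2.MPRun

section

/-!
# Refined location of the value of a ring

All solutions of a ring equation with the ports in star shaped sets `P j` (center `c j`) have
`cos w` in `K`. If no solution lies on the frontier of a closed set `C` and the solution with the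
ports `c j` is not in `C`, then no solution is in `C` (move the ports to `c j`).
-/

namespace Pool.Agent.Work.MP_b30479_gtS.G2

open Complex Set Filter Topology

/-- solutions of the ring equation with the ports `k j` -/
structure RSol {J : Type} [Fintype J] (b : ℝ) (K : Set ℂ) (r : ℝ) (k : J → ℂ) (w : ℂ) : Prop where
  re0 : 0 ≤ w.re
  re1 : w.re ≤ 3 / 2
  im : |w.im| ≤ 2
  mem : Complex.cos w ∈ K
  hinge : ∀ j, r ≤ (RR w (k j)).re
  eq : b * w - Real.pi + I * ∑ j, QQ w (k j) = 0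

/-- derivative of `QQ` with respect to the ring variable -/
lemma hasDerivAt_QQ1 {w k : ℂ} (h0 : 0 < w.re) (h1 : w.re ≤ 3 / 2) (hc : Complex.cos w ≠ 0)
    (hk : 0 < k.re) (hR : 0 < (RR w k).re) :
    HasDerivAt (fun z => QQ z k) (1 / (Complex.cos w ^ 2 * RR w k)) w := by
  have h := hasFDerivAt_QQ (f := fun z : ℂ => z) (g := fun _ : ℂ => k)
    (f' := ContinuousLinearMap.id ℂ ℂ) (g' := 0) (x := w) (hasFDerivAt_id w)
    (hasFDerivAt_const k w) h0 h1 hc hk hR
  rw [hasDerivAt_iff_hasFDerivAt]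
  refine h.congr_fderiv ?_
  ext
  simp

/-- star shaped about `c` -/
def StarC (c : ℂ) (P : Set ℂ) : Prop :=
  ∀ z ∈ P, ∀ θ : ℝ, 0 ≤ θ → θ ≤ 1 → (θ : ℂ) * c + (1 - θ) * z ∈ P

theorem no_sol {J : Type} [Fintype J] {b : ℝ} {K U C : Set ℂ} {P : J → Set ℂ} {c : J → ℂ} {r : ℝ}
    (hr : 0 < r)
    (hKc : IsClosed K) (hKr : ∀ z ∈ K, 0 < z.re) (hU : IsOpen U) (hUK : U ⊆ K) (hC : IsClosed C)
    (hP : ∀ j, ∀ z ∈ P j, 0 < z.re) (hst : ∀ j, StarC (c j) (P j))
    (hloc : ∀ k : J → ℂ, (∀ j, k j ∈ P j) → ∀ w : ℂ, RSol b K r k w →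
      0 < w.re ∧ w.re < 3 / 2 ∧ |w.im| < 2 ∧ Complex.cos w ∈ U ∧ ∀ j, r < (RR w (k j)).re)
    (hkap : ∀ k : J → ℂ, (∀ j, k j ∈ P j) → ∀ w : ℂ, RSol b K r k w →
      (b : ℂ) + I * ∑ j, 1 / (Complex.cos w ^ 2 * RR w (k j)) ≠ 0)
    (hcut : ∀ k : J → ℂ, (∀ j, k j ∈ P j) → ∀ w : ℂ, RSol b K r k w → Complex.cos w ∈ C →
      Complex.cos w ∈ interior C)
    (hstart : ∀ w : ℂ, RSol b K r c w → Complex.cos w ∉ C)
    {k : J → ℂ} (hk : ∀ j, k j ∈ P j) {w : ℂ} (hw : RSol b K r k w) : Complex.cos w ∉ C := by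
  intro hwC
  -- the ports at the time `θ`
  set kp : ℝ → J → ℂ := fun θ j => θ * c j + (1 - θ) * k j with hkp
  have hkpP : ∀ θ ∈ Icc (0 : ℝ) 1, ∀ j, kp θ j ∈ P j := by
    intro θ hθ j
    exact hst j _ (hk j) θ hθ.1 hθ.2
  have hkc : ∀ j, Continuous fun p : ℝ × ℂ => kp p.1 j := fun j => by
    simp only [hkp]
    fun_prop
  have hne : ∀ {z : ℂ}, 0 < z.re → z ≠ 0 := fun {z} hz h => by rw [h] at hz; exact lt_irrefl _ hz
  set F : ℝ × ℂ → ℂ := fun p => b * p.2 - Real.pi + I * ∑ j, QQ p.2 (kp p.1 j) with hF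
  set F' : ℝ × ℂ → ℂ →L[ℂ] ℂ := fun p => (b + I * ∑ j, 1 / (Complex.cos p.2 ^ 2 *
    RR p.2 (kp p.1 j)) : ℂ) • (1 : ℂ →L[ℂ] ℂ) with hF'
  set C0 : Set (ℝ × ℂ) := {p | p.1 ∈ Icc (0 : ℝ) 1 ∧ 0 ≤ p.2.re ∧ p.2.re ≤ 3 / 2 ∧
    |p.2.im| ≤ 2 ∧ Complex.cos p.2 ∈ K ∧ Complex.cos p.2 ∈ C} with hC0
  set Kt : Set (ℝ × ℂ) := {p | p ∈ C0 ∧ ∀ j, r ≤ (RR p.2 (kp p.1 j)).re} with hKt
  have hC0cl : IsClosed C0 := by
    have e : C0 = ((Prod.fst : ℝ × ℂ → ℝ) ⁻¹' Icc (0 : ℝ) 1) ∩
        (((fun p : ℝ × ℂ => p.2.re) ⁻¹' Icc 0 (3 / 2)) ∩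
          (((fun p : ℝ × ℂ => |p.2.im|) ⁻¹' Iic 2) ∩
            (((fun p : ℝ × ℂ => Complex.cos p.2) ⁻¹' K) ∩
            ((fun p : ℝ × ℂ => Complex.cos p.2) ⁻¹' C)))) := by
      ext p
      simp only [hC0, mem_inter_iff, mem_preimage, mem_Iic, mem_Icc, and_assoc]
      rfl
    rw [e]
    refine (isClosed_Icc.preimage continuous_fst).inter ?_
    refine IsClosed.inter (isClosed_Icc.preimage (Complex.continuous_re.comp continuous_snd)) ?_
    refine IsClosed.inter (isClosed_Iic.preimage (Complex.continuous_im.comp continuous_snd).abs) ?_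
    exact (hKc.preimage (Complex.continuous_cos.comp continuous_snd)).inter
      (hC.preimage (Complex.continuous_cos.comp continuous_snd))
  have hbig : IsCompact ((Icc (0 : ℝ) 1) ×ˢ ((Icc (0 : ℝ) (3 / 2)) ×ℂ (Icc (-2 : ℝ) 2))) :=
    isCompact_Icc.prod (isCompact_Icc.reProdIm isCompact_Icc)
  have hC0k : IsCompact C0 := by
    refine hbig.of_isClosed_subset hC0cl ?_
    rintro p ⟨h1, h2, h3, h4, _⟩
    exact ⟨h1, ⟨h2, h3⟩, abs_le.1 h4⟩
  have hcos : ∀ p ∈ C0, 0 < (Complex.cos p.2).re := fun p hp => hKr _ hp.2.2.2.2.1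
  have hkre : ∀ p ∈ C0, ∀ j, 0 < (kp p.1 j).re := fun p hp j => hP j _ (hkpP _ hp.1 j)
  have hKtC : Kt ⊆ C0 := fun p hp => hp.1
  have hKtcl : IsClosed Kt := by
    have e : Kt = C0 ∩ ⋂ j, (C0 ∩ (fun p : ℝ × ℂ => (RR p.2 (kp p.1 j)).re) ⁻¹' (Ici r)) := by
      ext p
      simp only [mem_inter_iff, mem_iInter, mem_preimage, mem_Ici]
      constructor
      · intro hp
        exact ⟨hp.1, fun j => ⟨hp.1, hp.2 j⟩⟩
      · rintro ⟨h1, h2⟩
        exact ⟨h1, fun j => (h2 j).2⟩
    rw [e]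
    refine hC0cl.inter (isClosed_iInter fun j => ?_)
    refine ContinuousOn.preimage_isClosed_of_isClosed ?_ hC0cl isClosed_Ici
    intro p hp
    exact (continuousAt_RR_re continuous_snd.continuousAt (hkc j).continuousAt
      (cos_ne_of (hcos p hp)) (hne (hkre p hp j))).continuousWithinAt
  have hKtk : IsCompact Kt := hC0k.of_isClosed_subset hKtcl hKtC
  have hcF : ContinuousOn F Kt := by
    intro p hp
    refine ContinuousAt.continuousWithinAt ?_
    simp only [hF]
    refine ContinuousAt.add ?_ ?_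
    · exact ((continuous_const.mul continuous_snd).sub continuous_const).continuousAt
    · refine continuousAt_const.mul ?_
      refine tendsto_finsetSum _ fun j _ => ?_
      exact continuousAt_QQ continuous_snd.continuousAt (hkc j).continuousAt hp.1.2.1 hp.1.2.2.1
        (cos_ne_of (hcos p hp.1)) (hkre p hp.1 j) (hr.trans_le (hp.2 j))
  have hloc2 : ∀ p ∈ Kt, p.1 ∈ Icc (0 : ℝ) 1 → F p = 0 → ∃ V : Set (ℝ × ℂ), IsOpen V ∧ p ∈ V ∧
      (∀ q ∈ V, q.1 ∈ Icc (0 : ℝ) 1 → q ∈ Kt ∧ HasFDerivAt (fun z => F (q.1, z)) (F' q) q.2) ∧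
      ContinuousOn F' (V ∩ {q | q.1 ∈ Icc (0 : ℝ) 1}) ∧
      ∃ e : ℂ ≃L[ℂ] ℂ, (e : ℂ →L[ℂ] ℂ) = F' p := by
    intro p hp hp1 hp0
    have hsol : RSol b K r (kp p.1) p.2 :=
      ⟨hp.1.2.1, hp.1.2.2.1, hp.1.2.2.2.1, hp.1.2.2.2.2.1, hp.2, hp0⟩
    have hkP := hkpP p.1 hp1
    obtain ⟨l1, l2, l3, l4, l5⟩ := hloc _ hkP _ hsol
    have hd := hkap _ hkP _ hsol
    have hint := hcut _ hkP _ hsol hp.1.2.2.2.2.2
    set G : Set (ℝ × ℂ) := {q | (0 < q.2.re ∧ q.2.re < 3 / 2 ∧ |q.2.im| < 2 ∧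
      Complex.cos q.2 ∈ U ∧ Complex.cos q.2 ∈ interior C) ∧
      (0 < (Complex.cos q.2).re) ∧ ∀ j, 0 < (kp q.1 j).re ∧ r < (RR q.2 (kp q.1 j)).re} with hG
    have hGn : G ∈ 𝓝 p := by
      show ∀ᶠ q in 𝓝 p, (0 < q.2.re ∧ q.2.re < 3 / 2 ∧ |q.2.im| < 2 ∧
        Complex.cos q.2 ∈ U ∧ Complex.cos q.2 ∈ interior C) ∧
        (0 < (Complex.cos q.2).re) ∧ ∀ j, 0 < (kp q.1 j).re ∧ r < (RR q.2 (kp q.1 j)).re
      have hcre : Continuous fun q : ℝ × ℂ => q.2.re := Complex.continuous_re.comp continuous_snd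
      have hcim : Continuous fun q : ℝ × ℂ => |q.2.im| :=
        (Complex.continuous_im.comp continuous_snd).abs
      have hccos : Continuous fun q : ℝ × ℂ => Complex.cos q.2 :=
        Complex.continuous_cos.comp continuous_snd
      refine (((hcre.continuousAt.eventually (lt_mem_nhds l1)).and
        ((hcre.continuousAt.eventually (gt_mem_nhds l2)).and
        ((hcim.continuousAt.eventually (gt_mem_nhds l3)).and
        ((hccos.continuousAt.eventually (hU.mem_nhds l4)).and
        (hccos.continuousAt.eventually (isOpen_interior.mem_nhds hint)))))).and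
        (((Complex.continuous_re.comp hccos).continuousAt.eventually
          (lt_mem_nhds (hcos p hp.1))).and ?_))
      rw [Filter.eventually_all]
      intro j
      refine ((Complex.continuous_re.comp (hkc j)).continuousAt.eventually
        (lt_mem_nhds (hkre p hp.1 j))).and ?_
      have hcont := continuousAt_RR_re (f := fun q : ℝ × ℂ => q.2)
        (g := fun q : ℝ × ℂ => kp q.1 j) (x := p) continuous_snd.continuousAt
        (hkc j).continuousAt (cos_ne_of (hcos p hp.1)) (hne (hkre p hp.1 j))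
      exact hcont.eventually (lt_mem_nhds (l5 j))
    obtain ⟨V, hVG, hVo, hpV⟩ := mem_nhds_iff.1 hGn
    refine ⟨V, hVo, hpV, ?_, ?_, ?_⟩
    · intro q hq hq1
      have hqG := hVG hq
      refine ⟨⟨⟨hq1, hqG.1.1.le, hqG.1.2.1.le, hqG.1.2.2.1.le, hUK hqG.1.2.2.2.1,
        interior_subset hqG.1.2.2.2.2⟩, fun j => (hqG.2.2 j).2.le⟩, ?_⟩
      have hder : HasDerivAt (fun z : ℂ => F (q.1, z)) (b + I * ∑ j, 1 / (Complex.cos q.2 ^ 2 *
          RR q.2 (kp q.1 j)) : ℂ) q.2 := by
        have h1 : HasDerivAt (fun z : ℂ => ∑ j, QQ z (kp q.1 j))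
            (∑ j, 1 / (Complex.cos q.2 ^ 2 * RR q.2 (kp q.1 j))) q.2 := by
          refine HasDerivAt.fun_sum fun j _ => ?_
          exact hasDerivAt_QQ1 hqG.1.1 hqG.1.2.1.le (cos_ne_of hqG.2.1) (hqG.2.2 j).1
            (hr.trans (hqG.2.2 j).2)
        have h2 : HasDerivAt (fun z : ℂ => (b : ℂ) * z - Real.pi) (b : ℂ) q.2 := by
          have := ((hasDerivAt_id q.2).const_mul (b : ℂ)).sub_const (Real.pi : ℂ)
          simpa using this
        exact h2.add (h1.const_mul I)
      have := hder.hasFDerivAt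
      refine this.congr_fderiv ?_
      ext
      simp [hF']
    · intro q hq
      have hqG := hVG hq.1
      have hcc : ContinuousAt (fun q : ℝ × ℂ => ((b : ℂ) + I * ∑ j, 1 / (Complex.cos q.2 ^ 2 *
          RR q.2 (kp q.1 j)))) q := by
        refine continuousAt_const.add (continuousAt_const.mul ?_)
        refine tendsto_finsetSum _ fun j _ => ?_
        have hcw : ContinuousAt (fun q : ℝ × ℂ => Complex.cos q.2) q :=
          (Complex.continuous_cos.comp continuous_snd).continuousAt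
        have hc0 := cos_ne_of hqG.2.1
        have hR := hr.trans (hqG.2.2 j).2
        exact continuousAt_const.div ((hcw.pow 2).mul (continuousAt_RR continuous_snd.continuousAt
          (hkc j).continuousAt hc0 (hne (hqG.2.2 j).1) hR))
          (mul_ne_zero (pow_ne_zero 2 hc0) (RR_ne hR))
      exact (hcc.smul (continuousAt_const (y := (1 : ℂ →L[ℂ] ℂ)))).continuousWithinAt
    · refine ⟨ContinuousLinearEquiv.unitsEquivAut ℂ (Units.mk0 _ hd), ?_⟩
      ext
      simp [hF']
  have h0 : ∃ z, ((0 : ℝ), z) ∈ Kt ∧ F (0, z) = 0 := by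
    have hk0 : kp 0 = k := by
      funext j
      simp [hkp]
    refine ⟨w, ⟨⟨⟨le_rfl, zero_le_one⟩, hw.re0, hw.re1, hw.im, hw.mem, hwC⟩, fun j => ?_⟩, ?_⟩
    · show r ≤ (RR w (kp 0 j)).re
      rw [hk0]
      exact hw.hinge j
    · show b * w - Real.pi + I * ∑ j, QQ w (kp 0 j) = 0
      rw [hk0]
      exact hw.eq
  obtain ⟨z, hz, hz0⟩ := continuation_set hKtk hcF hloc2 h0 (θ := 1) ⟨zero_le_one, le_rfl⟩
  have hk1 : kp 1 = c := by
    funext j
    simp [hkp]
  have hsol : RSol b K r c z := by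
    refine ⟨hz.1.2.1, hz.1.2.2.1, hz.1.2.2.2.1, hz.1.2.2.2.2.1, fun j => ?_, ?_⟩
    · have := hz.2 j
      simp only at this
      rw [hk1] at this
      exact this
    · have h1 : F (1, z) = b * z - Real.pi + I * ∑ j, QQ z (kp 1 j) := rfl
      rw [h1, hk1] at hz0
      exact hz0
  exact hstart z hsol hz.1.2.2.2.2.2

end Pool.Agent.Work.MP_b30479_gtS.G2

end

section

/-!
# Refined location of the value of a ring: from the certificates to the ring equation
-/

namespace Pool.Agent.Work.MP_b30479_gtS.G2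

open Complex Set SC
open scoped ComplexConjugate

/-- refined location of an end ring: the value is in the interior of the polygon `V` -/
def Rf1 (b : ℝ) (t : RT) (P : Set ℂ) (V : List (ℤ × ℤ)) : Prop :=
  ∀ k ∈ P, ∀ w : ℂ, 0 ≤ w.re → w.re ≤ 3 / 2 → |w.im| ≤ 2 → Complex.cos w ∈ Poly (vt t) →
    r0 ≤ (RR w k).re → b * w - Real.pi + I * QQ w k = 0 → Complex.cos w ∈ PolyU V

/-- refined location of an interior ring -/
def Rf2 (b : ℝ) (t : RT) (P P' : Set ℂ) (V : List (ℤ × ℤ)) : Prop :=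
  ∀ k ∈ P, ∀ k' ∈ P', ∀ w : ℂ, 0 ≤ w.re → w.re ≤ 3 / 2 → |w.im| ≤ 2 →
    Complex.cos w ∈ Poly (vt t) → r0 ≤ (RR w k).re → r0 ≤ (RR w k').re →
    b * w - Real.pi + I * (QQ w k + QQ w k') = 0 → Complex.cos w ∈ PolyU V

lemma Rf2.symm {b : ℝ} {t : RT} {P P' : Set ℂ} {V : List (ℤ × ℤ)} (h : Rf2 b t P P' V) :
    Rf2 b t P' P V := fun k hk k' hk' w h0 h1 h2 h3 h4 h5 h6 =>
  h k' hk' k hk w h0 h1 h2 h3 h5 h4 (by rw [← h6]; ring)

lemma Rf1.mono {b : ℝ} {t : RT} {P Q : Set ℂ} {V : List (ℤ × ℤ)} (h : Rf1 b t P V) (hQ : Q ⊆ P) :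
    Rf1 b t Q V := fun k hk => h k (hQ hk)

lemma Rf2.mono {b : ℝ} {t : RT} {P P' Q Q' : Set ℂ} {V : List (ℤ × ℤ)} (h : Rf2 b t P P' V)
    (hQ : Q ⊆ P) (hQ' : Q' ⊆ P') : Rf2 b t Q Q' V := fun k hk k' hk' => h k (hQ hk) k' (hQ' hk')

/-! ### a box in a polygon -/

/-- the corners of the box (units `1 / 16000`) are in the interior of the polygon -/
def boxIn (x1 x2 y1 y2 : ℤ) (V : List (ℤ × ℤ)) : Bool :=
  (edges V).all fun e =>
    decide (0 < (e.2.1 - e.1.1) * (y1 - 16 * e.1.2) - (e.2.2 - e.1.2) * (x1 - 16 * e.1.1)) &&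
    decide (0 < (e.2.1 - e.1.1) * (y2 - 16 * e.1.2) - (e.2.2 - e.1.2) * (x1 - 16 * e.1.1)) &&
    decide (0 < (e.2.1 - e.1.1) * (y1 - 16 * e.1.2) - (e.2.2 - e.1.2) * (x2 - 16 * e.1.1)) &&
    decide (0 < (e.2.1 - e.1.1) * (y2 - 16 * e.1.2) - (e.2.2 - e.1.2) * (x2 - 16 * e.1.1))

lemma corner_pos {a b p q x1 x2 y1 y2 X Y : ℝ} (h1 : 0 < a * (y1 - q) - b * (x1 - p))
    (h2 : 0 < a * (y2 - q) - b * (x1 - p)) (h3 : 0 < a * (y1 - q) - b * (x2 - p))
    (h4 : 0 < a * (y2 - q) - b * (x2 - p)) (hx1 : x1 < X) (hx2 : X < x2) (hy1 : y1 < Y)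
    (hy2 : Y < y2) : 0 < a * (Y - q) - b * (X - p) := by
  rcases le_total 0 a with ha | ha <;> rcases le_total 0 b with hb | hb
  · nlinarith only [h3, ha, hy1, hb, hx2, mul_nonneg ha (sub_nonneg.2 hy1.le), mul_nonneg hb (sub_nonneg.2 hx2.le)]
  · nlinarith only [h1, ha, hy1, hb, hx1, mul_nonneg ha (sub_nonneg.2 hy1.le), mul_nonneg (neg_nonneg.2 hb) (sub_nonneg.2 hx1.le)]
  · nlinarith only [h4, ha, hy2, hb, hx2, mul_nonneg (neg_nonneg.2 ha) (sub_nonneg.2 hy2.le), mul_nonneg hb (sub_nonneg.2 hx2.le)]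
  · nlinarith only [h2, ha, hy2, hb, hx1, mul_nonneg (neg_nonneg.2 ha) (sub_nonneg.2 hy2.le),
      mul_nonneg (neg_nonneg.2 hb) (sub_nonneg.2 hx1.le)]

lemma box_polyU {x1 x2 y1 y2 : ℤ} {V : List (ℤ × ℤ)} (h : boxIn x1 x2 y1 y2 V = true) {z : ℂ}
    (hz : ((x1 : ℝ) < 16000 * z.re ∧ 16000 * z.re < x2) ∧ (y1 : ℝ) < 16000 * z.im ∧
      16000 * z.im < y2) : z ∈ PolyU V := by
  intro e he
  have h1 := List.all_eq_true.1 h e he
  simp only [Bool.and_eq_true, decide_eq_true_eq] at h1
  obtain ⟨⟨⟨c1, c2⟩, c3⟩, c4⟩ := h1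
  have d1 := Int.cast_pos (R := ℝ).2 c1
  have d2 := Int.cast_pos (R := ℝ).2 c2
  have d3 := Int.cast_pos (R := ℝ).2 c3
  have d4 := Int.cast_pos (R := ℝ).2 c4
  push_cast at d1 d2 d3 d4
  have key := corner_pos d1 d2 d3 d4 hz.1.1 hz.1.2 hz.2.1 hz.2.2
  unfold cr
  push_cast
  nlinarith only [key]

/-- a lattice point (units `1 / 1000`) is in the polygon -/
def ptIn (p : ℤ × ℤ) (V : List (ℤ × ℤ)) : Bool :=
  (edges V).all fun e => decide (0 ≤ (e.2.1 - e.1.1) * (p.2 - e.1.2) - (e.2.2 - e.1.2) * (p.1 - e.1.1))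

lemma pt_mem {p : ℤ × ℤ} {V : List (ℤ × ℤ)} (h : ptIn p V = true) {c : ℂ}
    (h1 : 1000 * c.re = p.1) (h2 : 1000 * c.im = p.2) : c ∈ Poly V := by
  intro e he
  have h3 := of_decide_eq_true (List.all_eq_true.1 h e he)
  have h4 : (0 : ℝ) ≤ (((e.2.1 - e.1.1) * (p.2 - e.1.2) - (e.2.2 - e.1.2) * (p.1 - e.1.1) : ℤ) : ℝ) :=
    by exact_mod_cast h3
  push_cast at h4
  unfold cr
  rw [h1, h2]
  push_cast
  exact h4

lemma starC_poly {V : List (ℤ × ℤ)} {c : ℂ} (hc : c ∈ Poly V) : StarC c (Poly V) := by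
  intro z hz θ h0 h1 e he
  have a1 := hc e he
  have a2 := hz e he
  have e1 : cr e.1 e.2 ((θ : ℂ) * c + (1 - θ) * z) = θ * cr e.1 e.2 c + (1 - θ) * cr e.1 e.2 z := by
    unfold cr
    simp only [Complex.add_re, Complex.add_im, Complex.mul_re, Complex.mul_im, Complex.ofReal_re,
      Complex.ofReal_im, Complex.sub_re, Complex.sub_im, Complex.one_re, Complex.one_im]
    ring
  rw [e1]
  exact add_nonneg (mul_nonneg h0 a1) (mul_nonneg (by linarith only [h1]) a2)

lemma starC_frS {K : Set ℂ} (h : StarC 1 K) : StarC 1 (frS (-1) K) := by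
  intro z hz θ h0 h1
  rw [frS_neg] at hz ⊢
  have := h _ hz θ h0 h1
  show (starRingEnd ℂ) _ ∈ K
  have e : (starRingEnd ℂ) ((θ : ℂ) * 1 + (1 - θ) * z) = (θ : ℂ) * 1 + (1 - θ) * conj z := by
    simp
  rw [e]
  exact this

/-- check: `V` is contained in `W` -/
def inOK (V W : List (ℤ × ℤ)) : Bool :=
  shape V && (edges W).all fun e => V.all fun v => decide (0 ≤ xz e.1 e.2 v)

lemma poly_in {V W : List (ℤ × ℤ)} (h : inOK V W = true) : Poly V ⊆ Poly W := by
  rw [inOK, Bool.and_eq_true] at h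
  intro z hz
  rw [mem_Poly] at hz ⊢
  exact poly_sub h.1 (fun v hv e he => of_decide_eq_true (List.all_eq_true.1
    (List.all_eq_true.1 h.2 e he) v hv)) hz

/-! ### the principle -/

lemma compl_int {V : List (ℤ × ℤ)} (hV : cvx V) {z : ℂ} (h : ¬ OnE V z) (hz : z ∈ (PolyU V)ᶜ) :
    z ∈ interior (PolyU V)ᶜ := by
  have h1 : z ∉ Poly V := fun hc => h (onE_of hV hc hz)
  exact mem_interior.2 ⟨(Poly V)ᶜ, compl_subset_compl.2 (KB.polyU_sub V),
    (KB.poly_closed V).isOpen_compl, h1⟩

theorem rf1_of {b : ℝ} {C U : ℂ → ℂ} (hCU : ∀ w : ℂ, Complex.cos (b * w) = C (Complex.cos w) ∧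
      Complex.sin (b * w) = Complex.sin w * U (Complex.cos w)) {t : RT}
    {P Q : Set ℂ} (hR : Ring1 b (Poly (vt t)) (PolyU (vt t)) Q r0) (hPQ : P ⊆ Q)
    {c : ℂ} (hc : c ∈ P) (hst : StarC c P) (hP : ∀ k ∈ P, 0 < k.re) {V : List (ℤ × ℤ)} (hV : cvx V)
    (hfr : ∀ z k : ℂ, OnE V z → k ∈ P → k + I * z * U z ≠ 0)
    (hs : ∀ z ∈ Poly (vt t), c + I * z * U z = 0 → z ∈ PolyU V) : Rf1 b t P V := by
  intro k hk w h0 h1 h2 hz hr hw
  have hsol : RSol b (Poly (vt t)) r0 (fun _ : Unit => k) w :=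
    ⟨h0, h1, h2, hz, fun _ => hr, by rw [Finset.univ_unique, Finset.sum_singleton]; exact hw⟩
  have heq : ∀ {k : Unit → ℂ} {w : ℂ}, RSol b (Poly (vt t)) r0 k w →
      b * w - Real.pi + I * QQ w (k ()) = 0 := fun {k w} h => by
    have := h.eq
    rwa [Finset.univ_unique, Finset.sum_singleton] at this
  have hfact : ∀ {k : Unit → ℂ} {w : ℂ}, (∀ j, k j ∈ P) → RSol b (Poly (vt t)) r0 k w →
      0 < w.re ∧ w.re < 3 / 2 ∧ |w.im| < 2 ∧ Complex.cos w ∈ PolyU (vt t) ∧ r0 < (RR w (k ())).re ∧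
      ‖Complex.tan w ^ 2 / RR w (k ())‖ < ‖(b : ℂ) + I * (1 / (Complex.cos w ^ 2 * RR w (k ())))‖ :=
    fun {k w} hk h => hR (k ()) (hPQ (hk ())) w h.re0 h.re1 h.im h.mem (h.hinge ()) (heq h)
  have key := no_sol (J := Unit) (b := b) (K := Poly (vt t)) (U := PolyU (vt t))
    (C := (PolyU V)ᶜ) (P := fun _ => P) (c := fun _ => c) SL.r0_pos (KB.poly_closed _) (KB.poly_re_pos t)
    (KB.polyU_open _) (KB.polyU_sub _) (KB.polyU_open V).isClosed_compl (fun _ => hP)
    (fun _ => hst) ?_ ?_ ?_ ?_ (k := fun _ => k) (fun _ => hk) hsol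
  · exact not_not.1 key
  · intro k hk w h
    obtain ⟨a1, a2, a3, a4, a5, _⟩ := hfact hk h
    exact ⟨a1, a2, a3, a4, fun _ => a5⟩
  · intro k hk w h
    obtain ⟨_, _, _, _, _, a6⟩ := hfact hk h
    rw [Finset.univ_unique, Finset.sum_singleton]
    intro hc
    have e : (default : Unit) = () := rfl
    rw [e] at hc
    rw [hc, norm_zero] at a6
    exact absurd a6 (not_lt.2 (norm_nonneg _))
  · intro k hk w h hc
    refine compl_int hV (fun hon => ?_) hc
    have hz0 := KB.poly_re_pos t _ h.mem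
    have hcn : Complex.cos w ≠ 0 := cos_ne_of hz0
    obtain ⟨a1, _, _, _, a5, _⟩ := hfact hk h
    obtain ⟨e1, _⟩ := SL.rel_one (hCU w).1 (hCU w).2 a1 h.re1 hcn (hP _ (hk ()))
      (SL.r0_pos.trans a5) (heq h)
    exact hfr _ _ hon (hk ()) e1
  · intro w h hcon
    have hz0 := KB.poly_re_pos t _ h.mem
    have hcn : Complex.cos w ≠ 0 := cos_ne_of hz0
    have g2 := heq (k := fun _ : Unit => c) (w := w) h
    obtain ⟨a1, _, _, _, a5, _⟩ := hfact (k := fun _ : Unit => c) (fun _ => hc) h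
    obtain ⟨e1, _⟩ := SL.rel_one (k := c) (hCU w).1 (hCU w).2 a1 h.re1 hcn (hP _ hc)
      (SL.r0_pos.trans a5) g2
    exact hcon (hs _ h.mem e1)

/-- the relation of two equal ports -/
lemma start_rel {b w C k : ℂ} (hC : Complex.cos (b * w) = C) (h0 : 0 ≤ w.re) (h1 : w.re ≤ 3 / 2)
    (hz : Complex.cos w ≠ 0) (hk : 0 < k.re) (hR : 0 < (RR w k).re)
    (hw : b * w - Real.pi + I * (QQ w k + QQ w k) = 0) :
    Complex.cos w ^ 2 * (1 + C) + 2 * k ^ 2 * (1 - Complex.cos w ^ 2) = 0 := by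
  obtain ⟨c1, _⟩ := SL.QQ_cosh h0 h1 hk hR
  have e : 2 * QQ w k = (b * w - Real.pi) * I := by
    linear_combination (-I) * hw + (2 * QQ w k) * I_sq
  have h2 := Complex.cosh_two_mul (QQ w k)
  rw [e, Complex.cosh_mul_I, Complex.cos_sub_pi, hC] at h2
  have h3 := Complex.cosh_sq_sub_sinh_sq (QQ w k)
  have hkn : k ≠ 0 := fun h => by rw [h] at hk; exact lt_irrefl _ hk
  have h4 := SL.rel_R (w := w) hz hkn
  rw [c1] at h2 h3
  linear_combination (-Complex.cos w ^ 2) * h2 + Complex.cos w ^ 2 * h3 - 2 * h4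

theorem rf2_of {b : ℝ} {C U : ℂ → ℂ} (hCU : ∀ w : ℂ, Complex.cos (b * w) = C (Complex.cos w) ∧
      Complex.sin (b * w) = Complex.sin w * U (Complex.cos w)) {t : RT}
    {P P' Q Q' : Set ℂ} (hR : Ring2 b (Poly (vt t)) (PolyU (vt t)) Q Q' r0) (hPQ : P ⊆ Q)
    (hPQ' : P' ⊆ Q') {c c' : ℂ} (hc : c ∈ P) (hc' : c' ∈ P') (hst : StarC c P)
    (hst' : StarC c' P') (hP : ∀ k ∈ P, 0 < k.re)
    (hP' : ∀ k ∈ P', 0 < k.re) {V : List (ℤ × ℤ)} (hV : cvx V)
    (hfr : ∀ z k l : ℂ, OnE V z → k ∈ P → l ∈ P' →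
      k ^ 2 + l ^ 2 - 2 * k * l * C z + (z * U z) ^ 2 ≠ 0)
    (hs : ∀ z ∈ Poly (vt t), c ^ 2 + c' ^ 2 - 2 * c * c' * C z + (z * U z) ^ 2 = 0 →
      (c = c' → z ^ 2 * (1 + C z) + 2 * c ^ 2 * (1 - z ^ 2) = 0) → z ∈ PolyU V) :
    Rf2 b t P P' V := by
  intro k hk l hl w h0 h1 h2 hz hr hr' hw
  have hsol : RSol b (Poly (vt t)) r0 (fun j : Bool => if j then k else l) w := by
    refine ⟨h0, h1, h2, hz, fun j => by cases j <;> simpa, ?_⟩
    rw [Fintype.sum_bool]
    simpa using hw
  have heq : ∀ {k : Bool → ℂ} {w : ℂ}, RSol b (Poly (vt t)) r0 k w →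
      b * w - Real.pi + I * (QQ w (k true) + QQ w (k false)) = 0 := fun {k w} h => by
    have := h.eq
    rwa [Fintype.sum_bool] at this
  have hfact : ∀ {k : Bool → ℂ} {w : ℂ}, (∀ j, k j ∈ (if j = true then P else P')) →
      RSol b (Poly (vt t)) r0 k w →
      0 < w.re ∧ w.re < 3 / 2 ∧ |w.im| < 2 ∧ Complex.cos w ∈ PolyU (vt t) ∧
      r0 < (RR w (k true)).re ∧ r0 < (RR w (k false)).re ∧
      ‖Complex.tan w ^ 2 / RR w (k true)‖ + ‖Complex.tan w ^ 2 / RR w (k false)‖ <
        ‖(b : ℂ) + I * (1 / (Complex.cos w ^ 2 * RR w (k true)) +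
          1 / (Complex.cos w ^ 2 * RR w (k false)))‖ :=
    fun {k w} hk h => hR (k true) (hPQ (by simpa using hk true)) (k false)
      (hPQ' (by simpa using hk false)) w h.re0 h.re1 h.im h.mem (h.hinge true) (h.hinge false)
      (heq h)
  have hrel : ∀ {k : Bool → ℂ} {w : ℂ}, (∀ j, k j ∈ (if j = true then P else P')) →
      RSol b (Poly (vt t)) r0 k w →
      k true ^ 2 + k false ^ 2 - 2 * k true * k false * C (Complex.cos w) +
        (Complex.cos w * U (Complex.cos w)) ^ 2 = 0 ∧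
      (k true = k false → Complex.cos w ^ 2 * (1 + C (Complex.cos w)) +
        2 * k true ^ 2 * (1 - Complex.cos w ^ 2) = 0) := by
    intro k w hk h
    have hz0 := KB.poly_re_pos t _ h.mem
    have hcn : Complex.cos w ≠ 0 := cos_ne_of hz0
    obtain ⟨a1, _, _, _, a5, a6, _⟩ := hfact hk h
    have hkt : k true ∈ P := by simpa using hk true
    have hkf : k false ∈ P' := by simpa using hk false
    have hk0 := hP _ hkt
    have hkn : k true ≠ 0 := fun h => by rw [h] at hk0; exact lt_irrefl _ hk0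
    have e1 := SL.rel_two (hCU w).1 (hCU w).2 a1 h.re1 hcn hk0 (hP' _ hkf)
      (SL.r0_pos.trans a5) (SL.r0_pos.trans a6) (heq h)
    have e3 := SL.rel_R hcn hkn
    have e5 : C (Complex.cos w) ^ 2 + (1 - Complex.cos w ^ 2) * U (Complex.cos w) ^ 2 = 1 := by
      have h5 := Complex.sin_sq_add_cos_sq (b * w)
      rw [(hCU w).1, (hCU w).2] at h5
      have h6 := Complex.sin_sq_add_cos_sq w
      linear_combination h5 - U (Complex.cos w) ^ 2 * h6
    refine ⟨SL.front_id e1 e3 e5, fun he => ?_⟩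
    have h7 := heq h
    rw [← he] at h7
    exact start_rel (hCU w).1 a1.le h.re1 hcn hk0 (SL.r0_pos.trans a5) h7
  have key := no_sol (J := Bool) (b := b) (K := Poly (vt t)) (U := PolyU (vt t))
    (C := (PolyU V)ᶜ) (P := fun j => if j = true then P else P')
    (c := fun j => if j = true then c else c') SL.r0_pos (KB.poly_closed _)
    (KB.poly_re_pos t) (KB.polyU_open _) (KB.polyU_sub _) (KB.polyU_open V).isClosed_compl
    (fun j => by cases j <;> simpa) (fun j => by cases j <;> simpa) ?_ ?_ ?_ ?_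
    (k := fun j : Bool => if j then k else l) (fun j => by cases j <;> simpa) hsol
  · exact not_not.1 key
  · intro k hk w h
    obtain ⟨a1, a2, a3, a4, a5, a6, _⟩ := hfact hk h
    exact ⟨a1, a2, a3, a4, fun j => by cases j <;> assumption⟩
  · intro k hk w h
    obtain ⟨_, _, _, _, _, _, a6⟩ := hfact hk h
    rw [Fintype.sum_bool]
    intro hc
    rw [hc, norm_zero] at a6
    exact absurd a6 (not_lt.2 (add_nonneg (norm_nonneg _) (norm_nonneg _)))
  · intro k hk w h hc
    refine compl_int hV (fun hon => ?_) hc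
    have hkt : k true ∈ P := by simpa using hk true
    have hkf : k false ∈ P' := by simpa using hk false
    exact hfr _ _ _ hon hkt hkf (hrel hk h).1
  · intro w h hcon
    have hz0 := KB.poly_re_pos t _ h.mem
    have hcn : Complex.cos w ≠ 0 := cos_ne_of hz0
    have hkk : ∀ j : Bool, (fun j => if j = true then c else c') j ∈ (if j = true then P else P') :=
      fun j => by cases j <;> simpa
    obtain ⟨r1, r2⟩ := hrel hkk h
    refine hcon (hs _ h.mem ?_ ?_)
    · simpa using r1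
    · intro e
      have := r2 (by simpa using e)
      simpa using this

end Pool.Agent.Work.MP_b30479_gtS.G2

end

section

/-!
# Rings with at least eight crossings inside a word
-/

namespace Pool.Agent.Work.MP_b30479_gtS.G2

open Complex Set SQ KB
open scoped ComplexConjugate

namespace SR

/-! ### monotonicity in the family of sets -/

/-- smaller sets -/
def KFam.Le (K K' : KFam) : Prop := ∀ d l r, K.K d l r ⊆ K'.K d l r

lemma frS_mono' {s : ℝ} {A B : Set ℂ} (h : A ⊆ B) : frS s A ⊆ frS s B := frS_mono h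

/-- the set `P` is contained in the set `P'` -/
def OSub : Option (Set ℂ) → Option (Set ℂ) → Prop
  | none, none => True
  | some A, some B => A ⊆ B
  | _, _ => False

lemma port_sub {K K' : KFam} (h : K.Le K') (d₀ B : ℕ) (x : SK) :
    OSub (port K d₀ B x) (port K' d₀ B x) := by
  cases x
  · trivial
  · refine frS_mono' ?_
    rintro k ⟨d, l, h1, h2, h3⟩
    exact ⟨d, l, h1, h2, h _ _ _ h3⟩
  · rintro k ⟨d, l, h1, h3⟩
    exact ⟨d, l, h1, h _ _ _ h3⟩
  · rintro k ⟨d, l, h1, h2, h4, h3⟩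
    exact ⟨d, l, h1, h2, h4, h _ _ _ h3⟩

lemma Out.mono' {j : ℂ} {B : ℕ} {R q q' : ℂ} {P P' : Option (Set ℂ)} (h : Out j B R q q' P)
    (hP : OSub P P') : Out j B R q q' P' := by
  cases P with
  | none =>
    cases P' with
    | none => exact h
    | some B => exact hP.elim
  | some A =>
    cases P' with
    | none => exact hP.elim
    | some B => exact Out.mono h hP

lemma OSub.map {P P' : Option (Set ℂ)} (h : OSub P P') (s : ℝ) :
    OSub (P.map (frS s)) (P'.map (frS s)) := by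
  cases P with
  | none =>
    cases P' with
    | none => trivial
    | some B => exact h.elim
  | some A =>
    cases P' with
    | none => exact h.elim
    | some B => exact frS_mono' h

theorem HDt.mono {K K' : KFam} (hK : K.Le K') {x : SK} {d : ℕ} {l : SK} {d' : ℕ} {l' : SK}
    {R k k' : ℂ} (h : HDt K x d l d' l' R k k') : HDt K' x d l d' l' R k k' :=
  ⟨h.ok, h.Rre, h.kre, h.kre', hK _ _ _ h.mem, frS_mono' (hK _ _ _) h.mem', h.hinge,
    h.out.mono' (port_sub hK _ _ _), h.out'.mono' ((port_sub hK _ _ _).map _)⟩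

theorem RDt.mono {K K' : KFam} (hK : K.Le K') {d : ℕ} {l r : SK} {dl : ℕ} {ll : SK} {dr : ℕ}
    {rr : SK} {w kl kr : ℂ} (h : RDt K d l r dl ll dr rr w kl kr) :
    RDt K' d l r dl ll dr rr w kl kr :=
  ⟨h.left.mono hK, h.right.mono hK, h.w0, h.w1, h.wi, h.eq⟩

theorem RDe.mono {K K' : KFam} (hK : K.Le K') {d : ℕ} {r : SK} {dr : ℕ}
    {rr : SK} {w kr : ℂ} (h : RDe K d r dr rr w kr) :
    RDe K' d r dr rr w kr :=
  ⟨h.right.mono hK, h.w0, h.w1, h.wi, h.eq⟩

end SR

namespace Z8

open SR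

/-! ### from a word to a ring -/

lemma Poly_of_U {t : RT} {z : ℂ} (h : z ∈ PolyU (vt t)) : z ∈ Poly (vt t) := fun e he => (h e he).le

lemma port_self {V : List (ℤ × ℤ)} {P : List (ℤ × ℤ)} (h : Star1 (Poly V) ⊆ Poly P) {k : ℂ}
    (hk : k ∈ Poly V) : k ∈ Poly P := h ⟨1, by norm_num, le_rfl, k, hk, by simp⟩

lemma rty_hasS {d : ℕ} {l : SK} (h : ROK d .s l) : RT.hasS (rty d .s l) = true := by
  unfold rty
  apply rtype_hasS
  · simp only [SK.ns]; omega
  · cases l <;> simp [SK.na, SK.ns]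
  · intro h2
    have h1 : d = 1 ∧ l.u = 0 := by
      have := h.pos
      have e : SK.s.u = 1 := rfl
      unfold crs at h2
      rw [e] at h2
      constructor <;> omega
    obtain ⟨h3, h4, h5⟩ := h.one h1.1
    cases l
    · exact absurd rfl h5
    · simp [SK.na, SK.ns]
    · have := h.zr rfl
      omega
    · simp [SK.u] at h1

lemma rty_typS {d : ℕ} {l r : SK} (h : 4 ≤ crs d l r) : typS (rty d l r) = true := by
  unfold rty rtype
  rw [if_neg (by omega), if_neg (by omega)]
  split_ifs <;> rfl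

lemma rty_t8 {d : ℕ} {l r : SK} (h : 8 ≤ crs d l r) : rty d l r = .t8 := by
  unfold rty rtype
  rw [if_neg (by omega), if_neg (by omega), if_neg (by omega), if_neg (by omega),
    if_neg (by omega), if_neg (by omega)]

theorem side_of {x : SK} {d : ℕ} {l : SK} {d' : ℕ} {l' : SK} {w k : ℂ}
    (h : HDt K0 x d l d' l' (RR w k) (Complex.cos w) k) : Sd x w (QQ w k) := by
  have hR : 0 < (RR w k).re := r0_pos.trans h.Rre
  have h1 := h.mem'
  have h2 := h.ok
  cases x
  · exact absurd rfl h2.ne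
  · refine ⟨k, ?_, hR, rfl⟩
    rw [show SK.a.sgn = -1 from rfl, frS_neg] at h1
    exact port_self (starA _) (Poly_of_U h1)
  · refine ⟨k, rty d' .z l', ?_, ?_, hR, rfl⟩
    · apply rty_typS
      have := h2.right.zl rfl
      unfold crs
      omega
    · rw [show SK.z.sgn = 1 from rfl, frS_one] at h1
      exact Poly_of_U h1
  · refine ⟨k, ?_, hR, rfl⟩
    rw [show SK.s.sgn = 1 from rfl, frS_one] at h1
    exact port_self (starS _ (rty_hasS h2.right)) (Poly_of_U h1)

theorem rg_of {d : ℕ} {l r : SK} {dl : ℕ} {ll : SK} {dr : ℕ} {rr : SK} {w kl kr : ℂ}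
    (h : RDt K0 d l r dl ll dr rr w kl kr) (h8 : 8 ≤ crs d l r) :
    Rg (crs d l r) l r w (QQ w kl) (QQ w kr) := by
  refine ⟨h8, ?_, h.w0, h.w1.le, side_of h.left, side_of h.right, h.eq⟩
  have := Poly_of_U h.right.mem
  rwa [rty_t8 h8] at this

theorem rge_of {d : ℕ} {r : SK} {dr : ℕ} {rr : SK} {w kr : ℂ}
    (h : RDe K0 d r dr rr w kr) (h8 : 8 ≤ crs d .e r) :
    Rg (crs d .e r) .e r w 0 (QQ w kr) := by
  refine ⟨h8, ?_, h.w0, h.w1.le, rfl, side_of h.right, by rw [zero_add]; exact h.eq⟩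
  have := Poly_of_U h.right.mem
  rwa [rty_t8 h8] at this

/-! ### a wedge at `1` -/

lemma cosh_le {r : ℝ} : Real.cosh r ≤ 1 + Real.sinh r ^ 2 / 2 := by
  have h := Real.cosh_sq r
  have h0 := Real.cosh_pos r
  nlinarith only [h, h0, sq_nonneg (Real.sinh r)]

lemma sinh_le_lin {η : ℝ} (h0 : 0 ≤ η) (h1 : η ≤ 197 / 1000) :
    Real.sinh η ≤ 1007 / 1000 * η := by
  have h := sinh_le h0 (by linarith only [h1])
  have h2 : η ^ 3 / 6 + η ^ 4 * (5 / 96) ≤ 7 / 1000 * η := by
    have e : η ^ 3 / 6 + η ^ 4 * (5 / 96) = η * (η ^ 2 / 6 + η ^ 3 * (5 / 96)) := by ring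
    have h3 : η ^ 2 ≤ (197 / 1000) ^ 2 := pow_le_pow_left₀ h0 h1 2
    have h4 : η ^ 3 ≤ (197 / 1000) ^ 3 := pow_le_pow_left₀ h0 h1 3
    rw [e, mul_comm]
    exact mul_le_mul_of_nonneg_right (by linarith only [h3, h4]) h0
  linarith only [h, h2]

lemma wedge {α η r n u : ℝ} (h0 : 0 < α) (h1 : α ≤ 4845 / 10000) (h2 : 0 ≤ η) (h3 : η ≤ r * α)
    (_hr : 0 ≤ r) (hr1 : r ≤ 406 / 1000) (hn : 0 ≤ n)
    (hu : u = α ^ 2)
    (hq : (1 - u / 2 + 5 / 96 * u ^ 2) * (1 + 10141 / 20000 * r ^ 2 * u) + 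
      n * (1007 / 1000) * r * u < 1) :
    Real.cos α * Real.cosh η + n * (Real.sin α * Real.sinh η) < 1 := by
  have hη : η ≤ 197 / 1000 := by nlinarith only [h1, h3, h0, hr1]
  have a1 := sinh_le_lin h2 hη
  have a0 : 0 ≤ Real.sinh η := Real.sinh_nonneg_iff.2 h2
  have a2 : Real.sinh η ≤ 1007 / 1000 * r * α := by nlinarith only [h3, a1]
  have a3 : Real.sinh η ^ 2 ≤ 10141 / 10000 * r ^ 2 * u := by
    have := pow_le_pow_left₀ a0 a2 2
    rw [hu]
    nlinarith only [this, mul_nonneg (sq_nonneg r) (sq_nonneg α)]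
  have a4 : Real.cosh η ≤ 1 + 10141 / 20000 * r ^ 2 * u := by
    have := cosh_le (r := η)
    linarith only [a3, this]
  have b1 := (abs_le.1 (Real.cos_bound (x := α) (by rw [abs_of_pos h0]; linarith only [h0, h1]))).2
  rw [abs_of_pos h0] at b1
  have b2 : Real.cos α ≤ 1 - u / 2 + 5 / 96 * u ^ 2 := by
    rw [hu]
    nlinarith only [b1]
  have b0 : 0 ≤ Real.cos α := Real.cos_nonneg_of_mem_Icc
    ⟨by linarith only [h0, h1, Real.pi_gt_three], by linarith only [h0, h1, Real.pi_gt_three]⟩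
  have c1 : Real.sin α ≤ α := Real.sin_le h0.le
  have c0 : 0 ≤ Real.sin α := Real.sin_nonneg_of_nonneg_of_le_pi h0.le (by linarith only [h0, h1, Real.pi_gt_three])
  have d1 : Real.cos α * Real.cosh η ≤
      (1 - u / 2 + 5 / 96 * u ^ 2) * (1 + 10141 / 20000 * r ^ 2 * u) :=
    mul_le_mul b2 a4 (Real.cosh_pos _).le (b0.trans b2)
  have d2 : Real.sin α * Real.sinh η ≤ α * (1007 / 1000 * r * α) :=
    mul_le_mul c1 a2 a0 h0.le
  have d3 : n * (Real.sin α * Real.sinh η) ≤ n * (1007 / 1000) * r * u := by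
    rw [hu]
    calc _ ≤ n * (α * (1007 / 1000 * r * α)) := mul_le_mul_of_nonneg_left d2 hn
      _ = _ := by ring
  linarith only [hq, d1, d3]

lemma wedge1 {α η : ℝ} (h0 : 0 < α) (h1 : α ≤ 4845 / 10000) (h2 : 0 ≤ η)
    (h3 : η ≤ 405 / 1000 * α) :
    Real.cos α * Real.cosh η + Real.sin α * Real.sinh η < 1 := by
  have h := wedge (u := α ^ 2) (n := 1) h0 h1 h2 h3 (by norm_num) (by norm_num) (by norm_num) rfl ?_
  · linarith only [h]
  · have hu0 : 0 < α ^ 2 := by positivity
    have hu : α ^ 2 ≤ 2348 / 10000 := by nlinarith only [h1, hu0, h0]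
    set u := α ^ 2
    have e : u * (u * u) ≤ u * (2348 / 10000) ^ 2 :=
      mul_le_mul_of_nonneg_left (by nlinarith only [h1, h0, hu0, hu]) hu0.le
    have e2 : u * u ≤ u * (2348 / 10000) := mul_le_mul_of_nonneg_left hu hu0.le
    nlinarith only [hu0, e, e2]

lemma wedge2 {α η : ℝ} (h0 : 0 < α) (h1 : α ≤ 4845 / 10000) (h2 : 0 ≤ η)
    (h3 : η ≤ 21 / 100 * α) :
    Real.cos α * Real.cosh η + 2 * (Real.sin α * Real.sinh η) < 1 := by
  refine wedge (u := α ^ 2) (n := 2) h0 h1 h2 h3 (by norm_num) (by norm_num) (by norm_num) rfl ?_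
  have hu0 : 0 < α ^ 2 := by positivity
  have hu : α ^ 2 ≤ 2348 / 10000 := by nlinarith only [h1, hu0, h0]
  set u := α ^ 2
  have e : u * (u * u) ≤ u * (2348 / 10000) ^ 2 :=
    mul_le_mul_of_nonneg_left (by nlinarith only [h1, h0, hu0, hu]) hu0.le
  have e2 : u * u ≤ u * (2348 / 10000) := mul_le_mul_of_nonneg_left hu hu0.le
  nlinarith only [hu0, e, e2]

/-! ### lower bound of `Im Q` -/

/-- number of sides of opposite sign -/
def nA : SK → ℝ
  | .a => 1
  | _ => 0

lemma Sd.parts {x : SK} {t : RT} (ht : typS t = true) {w Q : ℂ} (h : Sd x w Q)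
    (hm : Complex.cos w ∈ Poly (vt t)) (h0 : 0 < w.re) (h1 : w.re ≤ 3 / 2) (hx : x ≠ .e) :
    ∃ k : ℂ, |Q.im| < Real.pi / 2 ∧
      (Complex.tan w * k).im = Real.cosh Q.re * Real.sin Q.im ∧
      (Complex.tan w * k).re = Real.sinh Q.re * Real.cos Q.im ∧
      4 / 10 ≤ k.re ∧ k.re + 1 / 4 * |k.im| ≤ 1 ∧
      |k.im| ≤ (if x = .z then 33 / 100 else 676 / 1000) ∧
      (x = .a → conj k ∈ Poly pA ∧ k.im ≤ 0) ∧ (x ≠ .a → k ∈ Poly pS ∧ 0 ≤ k.im) ∧
      (x = .z → 66 / 100 ≤ k.re ∧ k.re + 4 / 10 * k.im ≤ 1) := by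
  obtain ⟨k, rfl, hR, g1, g2, g3, g4, g5, g6⟩ := h.port hx
  have hk : 0 < k.re := by linarith only [g1]
  obtain ⟨e1, e2⟩ := cosh_QQ hR h0.le h1 hk
  have hs := cosh_re_im (QQ w k)
  have hH : |(QQ w k).im| < Real.pi / 2 := by
    apply QQ_im_half hR h0.le h1 hk
    by_cases hxa : x = .a
    · exact RRk_a ht hm (g4 hxa) hR
    · exact RRk_s hm (g5 hxa) hR
  rw [e2] at hs
  obtain ⟨_, hs1, hs2⟩ := hs
  exact ⟨k, hH, hs1, hs2, g1, g2, g3, fun h => ⟨g4 h, (pA_norm (g4 h)).2.2.1⟩,
    fun h => ⟨g5 h, (pS_norm (g5 h)).2.1⟩, g6⟩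

lemma Sd.ge {x : SK} {t : RT} (ht : typS t = true) {w Q : ℂ} (h : Sd x w Q)
    (hm : Complex.cos w ∈ Poly (vt t)) (h0 : 0 < w.re) (h1 : w.re ≤ 3 / 2) {χ ψ μ ν : ℝ}
    (hX : (Complex.tan w).re ≤ χ) (hY : -(Complex.tan w).im ≤ ψ)
    (hψ : ψ ≤ 4 * χ) (hμ0 : 0 ≤ μ) (hμ1 : μ ≤ 1)
    (hμ : 676 / 1000 * χ + 831 / 1000 * ψ ≤ μ - μ ^ 3 / 6) (hν0 : 0 ≤ ν) (hν1 : ν ≤ 1)
    (hν : ψ ≤ ν - ν ^ 3 / 6) :
    -Q.im ≤ nA x * μ + (nS x + nZ x) * ν := by
  have hpi := Real.pi_gt_three
  have h3 : ∀ {θ : ℝ}, 0 ≤ θ → θ - θ ^ 3 / 6 ≤ Real.sin θ := by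
    intro θ h0
    rcases h0.eq_or_lt with h4 | h4
    · rw [← h4]; simp
    · exact (Real.sin_gt_sub_cube h4).le
  by_cases hx : x = .e
  · subst hx
    have h2 : Q = 0 := h
    subst h2
    simp [nA, nS, nZ]
  · obtain ⟨k, hH, s1, s2, g1, g2, g3, g4, g5, g6⟩ := h.parts ht hm h0 h1 hx
    have hT := tan_re_nonneg h0.le h1
    have hTi := tan_im_nonpos hm h0 h1
    have hC := Real.one_le_cosh Q.re
    have key : ∀ {θ : ℝ}, 0 ≤ θ → θ ≤ 1 → -(Complex.tan w * k).im ≤ θ - θ ^ 3 / 6 → -Q.im ≤ θ := by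
      intro θ t0 t1 t2
      by_contra hc
      push Not at hc
      have h5 : Real.sin θ < Real.sin (-Q.im) :=
        Real.sin_lt_sin_of_lt_of_le_pi_div_two (by linarith only [hpi, t0]) (by linarith only [hH, (abs_lt.1 hH).1]) hc
      have h6 : 0 ≤ Real.sin θ := Real.sin_nonneg_of_nonneg_of_le_pi t0 (by linarith only [hpi, t1])
      rw [Real.sin_neg] at h5
      rw [s1] at t2
      have h7 := h3 t0
      nlinarith only [t2, h5, h7, hC, h6]
    have hk2 : k.re ≤ 1 := by linarith only [g2, abs_nonneg k.im]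
    by_cases hxa : x = .a
    · obtain ⟨_, p2⟩ := g4 hxa
      have p3 : |k.im| = -k.im := abs_of_nonpos p2
      rw [if_neg (by rw [hxa]; decide), p3] at g3
      rw [p3] at g2
      have : nA x * μ + (nS x + nZ x) * ν = μ := by rw [hxa]; simp [nA, nS, nZ]
      rw [this]
      refine key hμ0 hμ1 (le_trans ?_ hμ)
      rw [Complex.mul_im]
      nlinarith only [hX, p2, hY, g1, g2, hψ, g3, hTi, mul_nonneg (sub_nonneg.2 hX) (neg_nonneg.2 p2),
        mul_nonneg (sub_nonneg.2 hY) (by linarith only [g1] : 0 ≤ k.re)]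
    · obtain ⟨_, p2⟩ := g5 hxa
      have : nA x * μ + (nS x + nZ x) * ν = ν := by
        cases x
        · exact absurd rfl hx
        · exact absurd rfl hxa
        · simp [nA, nS, nZ]
        · simp [nA, nS, nZ]
      rw [this]
      refine key hν0 hν1 (le_trans ?_ hν)
      rw [Complex.mul_im]
      nlinarith only [hY, hT, p2, hTi, hk2, mul_nonneg hT p2, mul_nonneg (neg_nonneg.2 hTi) (by linarith only [hk2] : 0 ≤ 1 - k.re)]

section
variable {B : ℕ} {x y : SK} {w Q Q' : ℂ}

lemma Rg.ratio (R : Rg B x y w Q Q') {τ v χ ψ μ ν r : ℝ}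
    (hT : (Complex.tan w).re ^ 2 + (Complex.tan w).im ^ 2 ≤ τ) (hX : (Complex.tan w).re ≤ χ)
    (hY : -(Complex.tan w).im ≤ ψ)
    (hv : 0 ≤ v) (h2 : 1148 / 1000 * τ < (v + v ^ 3 / 6) ^ 2)
    (hψ : ψ ≤ 4 * χ) (hμ0 : 0 ≤ μ) (hμ1 : μ ≤ 1)
    (hμ : 676 / 1000 * χ + 831 / 1000 * ψ ≤ μ - μ ^ 3 / 6) (hν0 : 0 ≤ ν) (hν1 : ν ≤ 1)
    (hν : ψ ≤ ν - ν ^ 3 / 6) (hr : 0 ≤ r)
    (hr2 : (nE x + nE y) * v ≤
      r * (314 / 100 - ((nA x + nA y) * μ + (nS x + nS y + (nZ x + nZ y)) * ν))) :
    (B : ℝ) * -w.im ≤ (nE x + nE y) * v ∧ -w.im ≤ r * w.re := by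
  have hpi : 314 / 100 < Real.pi := by have := Real.pi_gt_d2; linarith only [this]
  have f1 := R.sd.fa (t := .t8) rfl R.mem R.h0 R.h1
  have f2 := R.sd'.fa (t := .t8) rfl R.mem R.h0 R.h1
  have e1 : x = .e → Q = 0 := fun h => by have := R.sd; rw [h] at this; exact this
  have e2 : y = .e → Q' = 0 := fun h => by have := R.sd'; rw [h] at this; exact this
  have a1 := fa_re_le f1 e1 hT hv h2
  have a2 := fa_re_le f2 e2 hT hv h2
  have b1 := R.sd.ge (t := .t8) rfl R.mem R.h0 R.h1 hX hY hψ hμ0 hμ1 hμ hν0 hν1 hν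
  have b2 := R.sd'.ge (t := .t8) rfl R.mem R.h0 R.h1 hX hY hψ hμ0 hμ1 hμ hν0 hν1 hν
  have hB : (8 : ℝ) ≤ B := by exact_mod_cast R.B8
  have c1 := R.re_eq
  have c2 := R.im_eq
  have c3 : (B : ℝ) * -w.im ≤ (nE x + nE y) * v := by rw [c2]; linarith only [a1, a2]
  refine ⟨c3, ?_⟩
  have c4 : 314 / 100 - ((nA x + nA y) * μ + (nS x + nS y + (nZ x + nZ y)) * ν) ≤ B * w.re := by
    rw [c1]; linarith only [hpi, b1, b2]
  have c5 := mul_le_mul_of_nonneg_left c4 hr
  have c6 : (B : ℝ) * -w.im ≤ B * (r * w.re) := by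
    calc _ ≤ (nE x + nE y) * v := c3
      _ ≤ _ := hr2
      _ ≤ r * (B * w.re) := c5
      _ = _ := by ring
  exact le_of_mul_le_mul_left c6 (by linarith only [hB])

lemma Rg.Y_le (R : Rg B x y w Q Q') {S H ψ : ℝ} (hS : Real.sin w.re ^ 2 ≤ S)
    (hH : Real.sinh w.im ^ 2 ≤ H) (hS2 : S ≤ 1 / 2) (hψ : 0 ≤ ψ)
    (h : H * (1 + H) ≤ ψ ^ 2 * (1 - S) ^ 2) : -(Complex.tan w).im ≤ ψ := by
  have h1 := (tan_parts R.cos_pos).2
  have h2 := Real.cosh_sq w.im
  have h3 := Real.sin_sq_add_cos_sq w.re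
  set N := Real.cos w.re ^ 2 + Real.sinh w.im ^ 2
  have hN : 1 - S ≤ N := by
    have := sq_nonneg (Real.sinh w.im)
    show 1 - S ≤ Real.cos w.re ^ 2 + Real.sinh w.im ^ 2
    linarith only [hS, h3, this]
  have h4 : ((Complex.tan w).im * N) ^ 2 ≤ H * (1 + H) := by
    rw [h1, mul_pow, h2]
    have := sq_nonneg (Real.sinh w.im)
    nlinarith only [hH]
  have h5 : (Complex.tan w).im ^ 2 * (1 - S) ^ 2 ≤ ψ ^ 2 * (1 - S) ^ 2 := by
    refine le_trans ?_ (h4.trans h)
    rw [mul_pow]
    exact mul_le_mul_of_nonneg_left (pow_le_pow_left₀ (by linarith only [hS2]) hN 2) (sq_nonneg _)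
  have h6 := le_of_mul_le_mul_right h5 (by nlinarith only [hS2])
  exact (neg_le_abs _).trans (abs_le_of_sq_le_sq h6 hψ)

lemma mem_quad {a y n : ℤ} {z : ℂ} (hy : 0 < y) (ha : a < 1000) (ha2 : a + n * y < 1000)
    (h0 : 0 < z.im) (h1 : z.re + n * z.im < 1) (h2 : z.im < y / 1000) (h3 : (a : ℝ) / 1000 < z.re) :
    z ∈ PolyU [(a, 0), (1000, 0), (1000 - n * y, y), (a, y)] := by
  have hy' : (0 : ℝ) < y := by exact_mod_cast hy
  have ha' : (a : ℝ) < 1000 := by exact_mod_cast ha
  have ha2' : (a : ℝ) + n * y < 1000 := by exact_mod_cast ha2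
  have hl : edges [(a, 0), (1000, 0), (1000 - n * y, y), (a, y)] =
      [((a, 0), (1000, 0)), ((1000, 0), (1000 - n * y, y)), ((1000 - n * y, y), (a, y)),
        ((a, y), (a, 0))] := rfl
  intro e he
  rw [hl] at he
  simp only [List.mem_cons, List.not_mem_nil, or_false] at he
  rcases he with rfl | rfl | rfl | rfl
  · simp only [cr]
    push_cast
    nlinarith only [h0, ha']
  · simp only [cr]
    push_cast
    nlinarith only [h0, h1, h2]
  · simp only [cr]
    push_cast
    nlinarith only [h2, ha2']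
  · simp only [cr]
    push_cast
    nlinarith only [h0, h3, h2]

lemma Rg.quad (R : Rg B x y w Q Q') (h0 : 0 < (Complex.cos w).im) {a b n : ℤ} {S E : ℝ}
    (hA : w.re ≤ 4845 / 10000)
    (hS : Real.sin w.re ^ 2 ≤ S) (hE : 8 * -w.im ≤ E) (hE1 : E ≤ 12 / 10)
    (hn : (n = 1 ∧ -w.im ≤ 405 / 1000 * w.re) ∨ (n = 2 ∧ -w.im ≤ 21 / 100 * w.re))
    (hb : 0 < b) (ha0 : 0 ≤ a) (ha : a < 1000) (ha2 : a + n * b < 1000)
    (g1 : ((a : ℝ) / 1000) ^ 2 < 1 - S) (g2 : S * (1007 / 8000 * E) ^ 2 < ((b : ℝ) / 1000) ^ 2) :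
    Complex.cos w ∈ PolyU [(a, 0), (1000, 0), (1000 - n * b, b), (a, b)] := by
  have hi := R.im_nonpos
  have hr := R.h0
  have hc := R.cos_pos
  obtain ⟨c1, c2⟩ := cos_parts w
  have hs0 : 0 ≤ Real.sin w.re := Real.sin_nonneg_of_nonneg_of_le_pi hr.le
    (by linarith only [hA, hr, Real.pi_gt_three])
  have c2' : (Complex.cos w).im = Real.sin w.re * Real.sinh (-w.im) := by
    rw [c2, Real.sinh_neg]; ring
  have c1' : (Complex.cos w).re = Real.cos w.re * Real.cosh (-w.im) := by
    rw [c1, Real.cosh_neg]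
  have hb' : (0 : ℝ) < b := by exact_mod_cast hb
  have ha' : (0 : ℝ) ≤ a := by exact_mod_cast ha0
  refine mem_quad hb ha ha2 h0 ?_ ?_ ?_
  · rw [c1', c2']
    rcases hn with ⟨rfl, hn⟩ | ⟨rfl, hn⟩
    · have := wedge1 hr hA (by linarith only [hi]) hn
      push_cast
      linarith only [this]
    · have := wedge2 hr hA (by linarith only [hi]) hn
      push_cast
      linarith only [this]
  · have d1 := sinh_le_lin (η := -w.im) (by linarith only [hi]) (by linarith only [hA, hE, hE1, hr])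
    have d0 : 0 ≤ Real.sinh (-w.im) := Real.sinh_nonneg_iff.2 (by linarith only [hi])
    have d2 : Real.sinh (-w.im) ≤ 1007 / 8000 * E := by linarith only [hE, d1]
    rw [c2']
    have d3 : (Real.sin w.re * Real.sinh (-w.im)) ^ 2 < ((b : ℝ) / 1000) ^ 2 := by
      rw [mul_pow]
      refine lt_of_le_of_lt ?_ g2
      exact mul_le_mul hS (pow_le_pow_left₀ d0 d2 2) (sq_nonneg _) ((sq_nonneg _).trans hS)
    exact lt_of_pow_lt_pow_left₀ 2 (by positivity) d3
  · rw [c1']
    have d1 := Real.one_le_cosh (-w.im)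
    have d2 := Real.sin_sq_add_cos_sq w.re
    have d3 : ((a : ℝ) / 1000) ^ 2 < Real.cos w.re ^ 2 := by linarith only [hS, g1, d2]
    have d4 := lt_of_pow_lt_pow_left₀ 2 hc.le d3
    nlinarith only [d4, hc, d1]

lemma Rg.symm (R : Rg B x y w Q Q') : Rg B y x w Q' Q :=
  ⟨R.B8, R.mem, R.h0, R.h1, R.sd', R.sd, by rw [add_comm Q' Q]; exact R.eq⟩

end

/-- the facts about a ring, with the constants of its class -/
structure Fin8 (B : ℕ) (x y : SK) (w : ℂ) (A v τ χ ψ S H r : ℝ) : Prop where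
  re_le : w.re ≤ A
  im_le : 8 * -w.im ≤ (nE x + nE y) * v
  imB : (B : ℝ) * -w.im ≤ (nE x + nE y) * v
  tn : (Complex.tan w).re ^ 2 + (Complex.tan w).im ^ 2 ≤ τ
  tr : (Complex.tan w).re ≤ χ
  ti : -(Complex.tan w).im ≤ ψ
  sn : Real.sin w.re ^ 2 ≤ S
  sh : Real.sinh w.im ^ 2 ≤ H
  ratio : -w.im ≤ r * w.re

lemma fin_ea {B : ℕ} {w Q Q' : ℂ} (R : Rg B .e .a w Q Q') :
    Fin8 B .e .a w (39270 / 100000) (4445 / 10000) (18357 / 100000)
      (41424 / 100000) (1320 / 10000) (14646 / 100000) (1252 / 100000) (21 / 100) := by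
  obtain ⟨t1, t2, t3, t4, t5, t6⟩ := R.loc00 (by norm_num [nS]) (by norm_num [nZ])
  have hY := R.Y_le (ψ := (1320 / 10000)) t5 t6 (by norm_num) (by norm_num) (by norm_num)
  obtain ⟨t7, t8⟩ := R.ratio (v := (4445 / 10000)) (μ := 4020 / 10000) (ν := 1325 / 10000) (r := (21 / 100)) t3 t4 hY (by norm_num) (by norm_num) (by norm_num)
    (by norm_num) (by norm_num) (by norm_num) (by norm_num) (by norm_num) (by norm_num)
    (by norm_num) (by norm_num [nE, nA, nS, nZ])
  exact ⟨t1, t2, t7, t3, t4, hY, t5, t6, t8⟩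

lemma fin_ez {B : ℕ} {w Q Q' : ℂ} (R : Rg B .e .z w Q Q') :
    Fin8 B .e .z w (41074 / 100000) (4658 / 10000) (20291 / 100000)
      (43561 / 100000) (1412 / 10000) (15949 / 100000) (1387 / 100000) (21 / 100) := by
  obtain ⟨t1, t2, t3, t4, t5, t6⟩ := R.loc01 (by norm_num [nS]) (by norm_num [nZ])
  have hY := R.Y_le (ψ := (1412 / 10000)) t5 t6 (by norm_num) (by norm_num) (by norm_num)
  obtain ⟨t7, t8⟩ := R.ratio (v := (4658 / 10000)) (μ := 4250 / 10000) (ν := 1418 / 10000) (r := (21 / 100)) t3 t4 hY (by norm_num) (by norm_num) (by norm_num)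
    (by norm_num) (by norm_num) (by norm_num) (by norm_num) (by norm_num) (by norm_num)
    (by norm_num) (by norm_num [nE, nA, nS, nZ])
  exact ⟨t1, t2, t7, t3, t4, hY, t5, t6, t8⟩

lemma fin_es {B : ℕ} {w Q Q' : ℂ} (R : Rg B .e .s w Q Q') :
    Fin8 B .e .s w (43243 / 100000) (4922 / 10000) (22838 / 100000)
      (46218 / 100000) (1537 / 10000) (17601 / 100000) (1577 / 100000) (21 / 100) := by
  obtain ⟨t1, t2, t3, t4, t5, t6⟩ := R.loc10 (by norm_num [nS]) (by norm_num [nZ])
  have hY := R.Y_le (ψ := (1537 / 10000)) t5 t6 (by norm_num) (by norm_num) (by norm_num)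
  obtain ⟨t7, t8⟩ := R.ratio (v := (4922 / 10000)) (μ := 4565 / 10000) (ν := 1545 / 10000) (r := (21 / 100)) t3 t4 hY (by norm_num) (by norm_num) (by norm_num)
    (by norm_num) (by norm_num) (by norm_num) (by norm_num) (by norm_num) (by norm_num)
    (by norm_num) (by norm_num [nE, nA, nS, nZ])
  exact ⟨t1, t2, t7, t3, t4, hY, t5, t6, t8⟩

lemma fin_aa {B : ℕ} {w Q Q' : ℂ} (R : Rg B .a .a w Q Q') :
    Fin8 B .a .a w (39270 / 100000) (4445 / 10000) (18357 / 100000)
      (41424 / 100000) (1320 / 10000) (14646 / 100000) (1252 / 100000) (405 / 1000) := by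
  obtain ⟨t1, t2, t3, t4, t5, t6⟩ := R.loc00 (by norm_num [nS]) (by norm_num [nZ])
  have hY := R.Y_le (ψ := (1320 / 10000)) t5 t6 (by norm_num) (by norm_num) (by norm_num)
  obtain ⟨t7, t8⟩ := R.ratio (v := (4445 / 10000)) (μ := 4020 / 10000) (ν := 1325 / 10000) (r := (405 / 1000)) t3 t4 hY (by norm_num) (by norm_num) (by norm_num)
    (by norm_num) (by norm_num) (by norm_num) (by norm_num) (by norm_num) (by norm_num)
    (by norm_num) (by norm_num [nE, nA, nS, nZ])
  exact ⟨t1, t2, t7, t3, t4, hY, t5, t6, t8⟩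

lemma fin_az {B : ℕ} {w Q Q' : ℂ} (R : Rg B .a .z w Q Q') :
    Fin8 B .a .z w (41074 / 100000) (4658 / 10000) (20291 / 100000)
      (43561 / 100000) (1412 / 10000) (15949 / 100000) (1387 / 100000) (405 / 1000) := by
  obtain ⟨t1, t2, t3, t4, t5, t6⟩ := R.loc01 (by norm_num [nS]) (by norm_num [nZ])
  have hY := R.Y_le (ψ := (1412 / 10000)) t5 t6 (by norm_num) (by norm_num) (by norm_num)
  obtain ⟨t7, t8⟩ := R.ratio (v := (4658 / 10000)) (μ := 4250 / 10000) (ν := 1418 / 10000) (r := (405 / 1000)) t3 t4 hY (by norm_num) (by norm_num) (by norm_num)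
    (by norm_num) (by norm_num) (by norm_num) (by norm_num) (by norm_num) (by norm_num)
    (by norm_num) (by norm_num [nE, nA, nS, nZ])
  exact ⟨t1, t2, t7, t3, t4, hY, t5, t6, t8⟩

lemma fin_zz {B : ℕ} {w Q Q' : ℂ} (R : Rg B .z .z w Q Q') :
    Fin8 B .z .z w (43083 / 100000) (4901 / 10000) (22628 / 100000)
      (46009 / 100000) (1525 / 10000) (17470 / 100000) (1557 / 100000) (405 / 1000) := by
  obtain ⟨t1, t2, t3, t4, t5, t6⟩ := R.loc02 (by norm_num [nS]) (by norm_num [nZ])
  have hY := R.Y_le (ψ := (1525 / 10000)) t5 t6 (by norm_num) (by norm_num) (by norm_num)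
  obtain ⟨t7, t8⟩ := R.ratio (v := (4901 / 10000)) (μ := 4560 / 10000) (ν := 1532 / 10000) (r := (405 / 1000)) t3 t4 hY (by norm_num) (by norm_num) (by norm_num)
    (by norm_num) (by norm_num) (by norm_num) (by norm_num) (by norm_num) (by norm_num)
    (by norm_num) (by norm_num [nE, nA, nS, nZ])
  exact ⟨t1, t2, t7, t3, t4, hY, t5, t6, t8⟩

lemma fin_as {B : ℕ} {w Q Q' : ℂ} (R : Rg B .a .s w Q Q') :
    Fin8 B .a .s w (43243 / 100000) (4922 / 10000) (22838 / 100000)
      (46218 / 100000) (1537 / 10000) (17601 / 100000) (1577 / 100000) (405 / 1000) := by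
  obtain ⟨t1, t2, t3, t4, t5, t6⟩ := R.loc10 (by norm_num [nS]) (by norm_num [nZ])
  have hY := R.Y_le (ψ := (1537 / 10000)) t5 t6 (by norm_num) (by norm_num) (by norm_num)
  obtain ⟨t7, t8⟩ := R.ratio (v := (4922 / 10000)) (μ := 4565 / 10000) (ν := 1545 / 10000) (r := (405 / 1000)) t3 t4 hY (by norm_num) (by norm_num) (by norm_num)
    (by norm_num) (by norm_num) (by norm_num) (by norm_num) (by norm_num) (by norm_num)
    (by norm_num) (by norm_num [nE, nA, nS, nZ])
  exact ⟨t1, t2, t7, t3, t4, hY, t5, t6, t8⟩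

lemma fin_zs {B : ℕ} {w Q Q' : ℂ} (R : Rg B .z .s w Q Q') :
    Fin8 B .z .s w (45543 / 100000) (5209 / 10000) (25815 / 100000)
      (49154 / 100000) (1680 / 10000) (19459 / 100000) (1796 / 100000) (405 / 1000) := by
  obtain ⟨t1, t2, t3, t4, t5, t6⟩ := R.loc11 (by norm_num [nS]) (by norm_num [nZ])
  have hY := R.Y_le (ψ := (1680 / 10000)) t5 t6 (by norm_num) (by norm_num) (by norm_num)
  obtain ⟨t7, t8⟩ := R.ratio (v := (5209 / 10000)) (μ := 4980 / 10000) (ν := 1690 / 10000) (r := (405 / 1000)) t3 t4 hY (by norm_num) (by norm_num) (by norm_num)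
    (by norm_num) (by norm_num) (by norm_num) (by norm_num) (by norm_num) (by norm_num)
    (by norm_num) (by norm_num [nE, nA, nS, nZ])
  exact ⟨t1, t2, t7, t3, t4, hY, t5, t6, t8⟩

lemma fin_ss {B : ℕ} {w Q Q' : ℂ} (R : Rg B .s .s w Q Q') :
    Fin8 B .s .s w (48445 / 100000) (5584 / 10000) (30047 / 100000)
      (53063 / 100000) (1881 / 10000) (21970 / 100000) (2109 / 100000) (405 / 1000) := by
  obtain ⟨t1, t2, t3, t4, t5, t6⟩ := R.loc20 (by norm_num [nS]) (by norm_num [nZ])
  have hY := R.Y_le (ψ := (1881 / 10000)) t5 t6 (by norm_num) (by norm_num) (by norm_num)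
  obtain ⟨t7, t8⟩ := R.ratio (v := (5584 / 10000)) (μ := 5500 / 10000) (ν := 1894 / 10000) (r := (405 / 1000)) t3 t4 hY (by norm_num) (by norm_num) (by norm_num)
    (by norm_num) (by norm_num) (by norm_num) (by norm_num) (by norm_num) (by norm_num)
    (by norm_num) (by norm_num [nE, nA, nS, nZ])
  exact ⟨t1, t2, t7, t3, t4, hY, t5, t6, t8⟩

/-- the polygons of the rings with at least eight crossings -/
def v8 : SK → SK → List (ℤ × ℤ)
  | .e, .a | .a, .e => [(923, 0), (1000, 0), (956, 22), (923, 22)]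
  | .e, .z | .z, .e => [(916, 0), (1000, 0), (952, 24), (916, 24)]
  | .e, .s | .s, .e => [(907, 0), (1000, 0), (948, 26), (907, 26)]
  | .a, .a => [(923, 0), (1000, 0), (957, 43), (923, 43)]
  | .a, .z | .z, .a => [(916, 0), (1000, 0), (953, 47), (916, 47)]
  | .z, .z => [(908, 0), (1000, 0), (948, 52), (908, 52)]
  | .a, .s | .s, .a => [(907, 0), (1000, 0), (948, 52), (907, 52)]
  | .z, .s | .s, .z => [(897, 0), (1000, 0), (942, 58), (897, 58)]
  | .s, .s => [(883, 0), (1000, 0), (934, 66), (883, 66)]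
  | .e, .e => [(0, 0), (1000, 0), (1000, 1000), (0, 1000)]

lemma v8_symm (x y : SK) : v8 x y = v8 y x := by
  cases x <;> cases y <;> rfl

lemma mem_ea {B : ℕ} {w Q Q' : ℂ} (R : Rg B .e .a w Q Q') (h0 : 0 < (Complex.cos w).im) :
    Complex.cos w ∈ PolyU (v8 .e .a) := by
  have F := fin_ea R
  have h1 := F.im_le
  norm_num [nE] at h1
  have h := R.quad h0 (a := 923) (b := 22) (n := 2) (S := (14646 / 100000)) (E := (4445 / 10000))
    (by linarith only [F, F.re_le]) F.sn (by linarith only [h1]) (by norm_num) (Or.inr ⟨rfl, F.ratio⟩)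
    (by norm_num) (by norm_num) (by norm_num) (by norm_num) (by norm_num) (by norm_num)
  exact h

lemma mem_ez {B : ℕ} {w Q Q' : ℂ} (R : Rg B .e .z w Q Q') (h0 : 0 < (Complex.cos w).im) :
    Complex.cos w ∈ PolyU (v8 .e .z) := by
  have F := fin_ez R
  have h1 := F.im_le
  norm_num [nE] at h1
  have h := R.quad h0 (a := 916) (b := 24) (n := 2) (S := (15949 / 100000)) (E := (4658 / 10000))
    (by linarith only [F, F.re_le]) F.sn (by linarith only [h1]) (by norm_num) (Or.inr ⟨rfl, F.ratio⟩)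
    (by norm_num) (by norm_num) (by norm_num) (by norm_num) (by norm_num) (by norm_num)
  exact h

lemma mem_es {B : ℕ} {w Q Q' : ℂ} (R : Rg B .e .s w Q Q') (h0 : 0 < (Complex.cos w).im) :
    Complex.cos w ∈ PolyU (v8 .e .s) := by
  have F := fin_es R
  have h1 := F.im_le
  norm_num [nE] at h1
  have h := R.quad h0 (a := 907) (b := 26) (n := 2) (S := (17601 / 100000)) (E := (4922 / 10000))
    (by linarith only [F, F.re_le]) F.sn (by linarith only [h1]) (by norm_num) (Or.inr ⟨rfl, F.ratio⟩)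
    (by norm_num) (by norm_num) (by norm_num) (by norm_num) (by norm_num) (by norm_num)
  exact h

lemma mem_aa {B : ℕ} {w Q Q' : ℂ} (R : Rg B .a .a w Q Q') (h0 : 0 < (Complex.cos w).im) :
    Complex.cos w ∈ PolyU (v8 .a .a) := by
  have F := fin_aa R
  have h1 := F.im_le
  norm_num [nE] at h1
  have h := R.quad h0 (a := 923) (b := 43) (n := 1) (S := (14646 / 100000)) (E := (8890 / 10000))
    (by linarith only [F, F.re_le]) F.sn (by linarith only [h1]) (by norm_num) (Or.inl ⟨rfl, F.ratio⟩)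
    (by norm_num) (by norm_num) (by norm_num) (by norm_num) (by norm_num) (by norm_num)
  exact h

lemma mem_az {B : ℕ} {w Q Q' : ℂ} (R : Rg B .a .z w Q Q') (h0 : 0 < (Complex.cos w).im) :
    Complex.cos w ∈ PolyU (v8 .a .z) := by
  have F := fin_az R
  have h1 := F.im_le
  norm_num [nE] at h1
  have h := R.quad h0 (a := 916) (b := 47) (n := 1) (S := (15949 / 100000)) (E := (9316 / 10000))
    (by linarith only [F, F.re_le]) F.sn (by linarith only [h1]) (by norm_num) (Or.inl ⟨rfl, F.ratio⟩)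
    (by norm_num) (by norm_num) (by norm_num) (by norm_num) (by norm_num) (by norm_num)
  exact h

lemma mem_zz {B : ℕ} {w Q Q' : ℂ} (R : Rg B .z .z w Q Q') (h0 : 0 < (Complex.cos w).im) :
    Complex.cos w ∈ PolyU (v8 .z .z) := by
  have F := fin_zz R
  have h1 := F.im_le
  norm_num [nE] at h1
  have h := R.quad h0 (a := 908) (b := 52) (n := 1) (S := (17470 / 100000)) (E := (9802 / 10000))
    (by linarith only [F, F.re_le]) F.sn (by linarith only [h1]) (by norm_num) (Or.inl ⟨rfl, F.ratio⟩)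
    (by norm_num) (by norm_num) (by norm_num) (by norm_num) (by norm_num) (by norm_num)
  exact h

lemma mem_as {B : ℕ} {w Q Q' : ℂ} (R : Rg B .a .s w Q Q') (h0 : 0 < (Complex.cos w).im) :
    Complex.cos w ∈ PolyU (v8 .a .s) := by
  have F := fin_as R
  have h1 := F.im_le
  norm_num [nE] at h1
  have h := R.quad h0 (a := 907) (b := 52) (n := 1) (S := (17601 / 100000)) (E := (9844 / 10000))
    (by linarith only [F, F.re_le]) F.sn (by linarith only [h1]) (by norm_num) (Or.inl ⟨rfl, F.ratio⟩)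
    (by norm_num) (by norm_num) (by norm_num) (by norm_num) (by norm_num) (by norm_num)
  exact h

lemma mem_zs {B : ℕ} {w Q Q' : ℂ} (R : Rg B .z .s w Q Q') (h0 : 0 < (Complex.cos w).im) :
    Complex.cos w ∈ PolyU (v8 .z .s) := by
  have F := fin_zs R
  have h1 := F.im_le
  norm_num [nE] at h1
  have h := R.quad h0 (a := 897) (b := 58) (n := 1) (S := (19459 / 100000)) (E := (10418 / 10000))
    (by linarith only [F, F.re_le]) F.sn (by linarith only [h1]) (by norm_num) (Or.inl ⟨rfl, F.ratio⟩)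
    (by norm_num) (by norm_num) (by norm_num) (by norm_num) (by norm_num) (by norm_num)
  exact h

lemma mem_ss {B : ℕ} {w Q Q' : ℂ} (R : Rg B .s .s w Q Q') (h0 : 0 < (Complex.cos w).im) :
    Complex.cos w ∈ PolyU (v8 .s .s) := by
  have F := fin_ss R
  have h1 := F.im_le
  norm_num [nE] at h1
  have h := R.quad h0 (a := 883) (b := 66) (n := 1) (S := (21970 / 100000)) (E := (11168 / 10000))
    (by linarith only [F, F.re_le]) F.sn (by linarith only [h1]) (by norm_num) (Or.inl ⟨rfl, F.ratio⟩)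
    (by norm_num) (by norm_num) (by norm_num) (by norm_num) (by norm_num) (by norm_num)
  exact h

lemma mem_v8 {B : ℕ} {x y : SK} {w Q Q' : ℂ} (R : Rg B x y w Q Q') (hx : x ≠ .e ∨ y ≠ .e)
    (h0 : 0 < (Complex.cos w).im) : Complex.cos w ∈ PolyU (v8 x y) := by
  have hR := R.symm
  cases x <;> cases y
  · exact absurd rfl (hx.elim id id)
  · exact mem_ea R h0
  · exact mem_ez R h0
  · exact mem_es R h0
  · rw [v8_symm]; exact mem_ea hR h0
  · exact mem_aa R h0
  · exact mem_az R h0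
  · exact mem_as R h0
  · rw [v8_symm]; exact mem_ez hR h0
  · rw [v8_symm]; exact mem_az hR h0
  · exact mem_zz R h0
  · exact mem_zs R h0
  · rw [v8_symm]; exact mem_es hR h0
  · rw [v8_symm]; exact mem_as hR h0
  · rw [v8_symm]; exact mem_zs hR h0
  · exact mem_ss R h0
/-! ### statements for words -/

lemma K0_im {d : ℕ} {l r : SK} {z : ℂ} (h : z ∈ K0.K d l r) (h8 : 8 ≤ crs d l r) : 0 < z.im := by
  have h1 : z ∈ PolyU (vt .t8) := by
    have h2 : z ∈ PolyU (vt (rty d l r)) := h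
    rwa [rty_t8 h8] at h2
  have h3 := h1 ((800, 0), (1000, 0)) (by decide)
  unfold cr at h3
  push_cast at h3
  linarith only [h3]

theorem mem8 {K : KFam} (hK : K.Le K0) {d : ℕ} {l r : SK} {dl : ℕ} {ll : SK} {dr : ℕ} {rr : SK}
    {w kl kr : ℂ} (h : RDt K d l r dl ll dr rr w kl kr) (h8 : 8 ≤ crs d l r) :
    Complex.cos w ∈ PolyU (v8 l r) :=
  mem_v8 (rg_of (h.mono hK) h8) (Or.inl h.left.ok.ne) (K0_im (h.mono hK).right.mem h8)

theorem mem8e {K : KFam} (hK : K.Le K0) {d : ℕ} {r : SK} {dr : ℕ} {rr : SK}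
    {w kr : ℂ} (h : RDe K d r dr rr w kr) (h8 : 8 ≤ crs d .e r) :
    Complex.cos w ∈ PolyU (v8 .e r) :=
  mem_v8 (rge_of (h.mono hK) h8) (Or.inr h.right.ok.ne) (K0_im (h.mono hK).right.mem h8)

end Z8

end Pool.Agent.Work.MP_b30479_gtS.G2

end

section

/-!
# Refined families of sets for the ring values

`q1`, `q2`, `q3` are the tables of the three rounds for the rings with at most seven crossings;
rings with at least eight crossings use `v8`.
-/

set_option linter.style.longLine false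

namespace Pool.Agent.Work.MP_b30479_gtS.G2

open Complex Set SC
open scoped ComplexConjugate

namespace SR

/-- table of the typed polygons -/
def q0 (B : ℕ) (l r : SK) : Option (List (ℤ × ℤ)) :=
  some (vt (rtype B (l.na + r.na) (l.ns + r.ns)))

/-- table of round 1 -/
def q1 : ℕ → SK → SK → Option (List (ℤ × ℤ))
  | 2, .e, .a | 2, .a, .e => some v1_2ea
  | 2, .a, .a => some v1_2aa
  | 2, .a, .s | 2, .s, .a => some v1_2as
  | 3, .e, .a | 3, .a, .e => some v1_3ea
  | 3, .e, .s | 3, .s, .e => some v1_3es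
  | 3, .a, .a => some v1_3aa
  | 3, .a, .s | 3, .s, .a => some v1_3as
  | 3, .s, .s => some v1_3ss
  | 4, .e, .a | 4, .a, .e => some v1_4ea
  | 4, .e, .z | 4, .z, .e => some v1_4ez
  | 4, .e, .s | 4, .s, .e => some v1_4es
  | 4, .a, .a => some v1_4aa
  | 4, .a, .z | 4, .z, .a => some v1_4az
  | 4, .a, .s | 4, .s, .a => some v1_4as
  | 4, .z, .z => some v1_4zz
  | 4, .s, .s => some v1_4ss
  | 5, .e, .a | 5, .a, .e => some v1_5ea
  | 5, .e, .z | 5, .z, .e => some v1_5ez
  | 5, .e, .s | 5, .s, .e => some v1_5es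
  | 5, .a, .a => some v1_5aa
  | 5, .a, .z | 5, .z, .a => some v1_5az
  | 5, .a, .s | 5, .s, .a => some v1_5as
  | 5, .z, .z => some v1_5zz
  | 5, .z, .s | 5, .s, .z => some v1_5zs
  | 5, .s, .s => some v1_5ss
  | 6, .e, .a | 6, .a, .e => some v1_6ea
  | 6, .e, .z | 6, .z, .e => some v1_6ez
  | 6, .e, .s | 6, .s, .e => some v1_6es
  | 6, .a, .a => some v1_6aa
  | 6, .a, .z | 6, .z, .a => some v1_6az
  | 6, .a, .s | 6, .s, .a => some v1_6as
  | 6, .z, .z => some v1_6zz
  | 6, .z, .s | 6, .s, .z => some v1_6zs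
  | 6, .s, .s => some v1_6ss
  | 7, .e, .a | 7, .a, .e => some v1_7ea
  | 7, .e, .z | 7, .z, .e => some v1_7ez
  | 7, .e, .s | 7, .s, .e => some v1_7es
  | 7, .a, .a => some v1_7aa
  | 7, .a, .z | 7, .z, .a => some v1_7az
  | 7, .a, .s | 7, .s, .a => some v1_7as
  | 7, .z, .z => some v1_7zz
  | 7, .z, .s | 7, .s, .z => some v1_7zs
  | 7, .s, .s => some v1_7ss
  | _, _, _ => none

/-- table of round 2 -/
def q2 : ℕ → SK → SK → Option (List (ℤ × ℤ))
  | 2, .e, .a | 2, .a, .e => some v2_2ea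
  | 2, .a, .a => some v2_2aa
  | 2, .a, .s | 2, .s, .a => some v2_2as
  | 3, .e, .a | 3, .a, .e => some v2_3ea
  | 3, .e, .s | 3, .s, .e => some v2_3es
  | 3, .a, .a => some v2_3aa
  | 3, .a, .s | 3, .s, .a => some v2_3as
  | 3, .s, .s => some v2_3ss
  | 4, .e, .a | 4, .a, .e => some v2_4ea
  | 4, .e, .z | 4, .z, .e => some v2_4ez
  | 4, .e, .s | 4, .s, .e => some v2_4es
  | 4, .a, .a => some v2_4aa
  | 4, .a, .z | 4, .z, .a => some v2_4az
  | 4, .a, .s | 4, .s, .a => some v2_4as
  | 4, .z, .z => some v2_4zz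
  | 4, .s, .s => some v2_4ss
  | 5, .e, .a | 5, .a, .e => some v2_5ea
  | 5, .e, .z | 5, .z, .e => some v2_5ez
  | 5, .e, .s | 5, .s, .e => some v2_5es
  | 5, .a, .a => some v2_5aa
  | 5, .a, .z | 5, .z, .a => some v2_5az
  | 5, .a, .s | 5, .s, .a => some v2_5as
  | 5, .z, .z => some v2_5zz
  | 5, .z, .s | 5, .s, .z => some v2_5zs
  | 5, .s, .s => some v2_5ss
  | 6, .e, .a | 6, .a, .e => some v2_6ea
  | 6, .e, .z | 6, .z, .e => some v2_6ez
  | 6, .e, .s | 6, .s, .e => some v2_6es
  | 6, .a, .a => some v2_6aa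
  | 6, .a, .z | 6, .z, .a => some v2_6az
  | 6, .a, .s | 6, .s, .a => some v2_6as
  | 6, .z, .z => some v2_6zz
  | 6, .z, .s | 6, .s, .z => some v2_6zs
  | 6, .s, .s => some v2_6ss
  | 7, .e, .a | 7, .a, .e => some v2_7ea
  | 7, .e, .z | 7, .z, .e => some v2_7ez
  | 7, .e, .s | 7, .s, .e => some v2_7es
  | 7, .a, .a => some v2_7aa
  | 7, .a, .z | 7, .z, .a => some v2_7az
  | 7, .a, .s | 7, .s, .a => some v2_7as
  | 7, .z, .z => some v2_7zz
  | 7, .z, .s | 7, .s, .z => some v2_7zs
  | 7, .s, .s => some v2_7ss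
  | _, _, _ => none

/-- table of round 3 -/
def q3 : ℕ → SK → SK → Option (List (ℤ × ℤ))
  | 2, .e, .a | 2, .a, .e => some v3_2ea
  | 2, .a, .a => some v3_2aa
  | 2, .a, .s | 2, .s, .a => some v3_2as
  | 3, .e, .a | 3, .a, .e => some v3_3ea
  | 3, .e, .s | 3, .s, .e => some v3_3es
  | 3, .a, .a => some v3_3aa
  | 3, .a, .s | 3, .s, .a => some v3_3as
  | 3, .s, .s => some v3_3ss
  | 4, .e, .a | 4, .a, .e => some v3_4ea
  | 4, .e, .z | 4, .z, .e => some v3_4ez
  | 4, .e, .s | 4, .s, .e => some v3_4es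
  | 4, .a, .a => some v3_4aa
  | 4, .a, .z | 4, .z, .a => some v3_4az
  | 4, .a, .s | 4, .s, .a => some v3_4as
  | 4, .z, .z => some v3_4zz
  | 4, .s, .s => some v3_4ss
  | 5, .e, .a | 5, .a, .e => some v3_5ea
  | 5, .e, .z | 5, .z, .e => some v3_5ez
  | 5, .e, .s | 5, .s, .e => some v3_5es
  | 5, .a, .a => some v3_5aa
  | 5, .a, .z | 5, .z, .a => some v3_5az
  | 5, .a, .s | 5, .s, .a => some v3_5as
  | 5, .z, .z => some v3_5zz
  | 5, .z, .s | 5, .s, .z => some v3_5zs
  | 5, .s, .s => some v3_5ss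
  | 6, .e, .a | 6, .a, .e => some v3_6ea
  | 6, .e, .z | 6, .z, .e => some v3_6ez
  | 6, .e, .s | 6, .s, .e => some v3_6es
  | 6, .a, .a => some v3_6aa
  | 6, .a, .z | 6, .z, .a => some v3_6az
  | 6, .a, .s | 6, .s, .a => some v3_6as
  | 6, .z, .z => some v3_6zz
  | 6, .z, .s | 6, .s, .z => some v3_6zs
  | 6, .s, .s => some v3_6ss
  | 7, .e, .a | 7, .a, .e => some v3_7ea
  | 7, .e, .z | 7, .z, .e => some v3_7ez
  | 7, .e, .s | 7, .s, .e => some v3_7es
  | 7, .a, .a => some v3_7aa
  | 7, .a, .z | 7, .z, .a => some v3_7az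
  | 7, .a, .s | 7, .s, .a => some v3_7as
  | 7, .z, .z => some v3_7zz
  | 7, .z, .s | 7, .s, .z => some v3_7zs
  | 7, .s, .s => some v3_7ss
  | _, _, _ => none

/-- the polygon of a ring -/
def pol (q : ℕ → SK → SK → Option (List (ℤ × ℤ))) (vh : SK → SK → List (ℤ × ℤ)) (d : ℕ)
    (l r : SK) : Option (List (ℤ × ℤ)) :=
  if 8 ≤ crs d l r then some (vh l r) else q (crs d l r) l r

/-- the polygons of the table contain the sets of the family `K` -/
def Src (K : KFam) (q : ℕ → SK → SK → Option (List (ℤ × ℤ))) (vh : SK → SK → List (ℤ × ℤ)) :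
    Prop :=
  ∀ d l r, ROK d l r → ∃ V, pol q vh d l r = some V ∧ K.K d l r ⊆ PolyU V

lemma pol_symm {q : ℕ → SK → SK → Option (List (ℤ × ℤ))} {vh : SK → SK → List (ℤ × ℤ)}
    (hq : ∀ B l r, q B l r = q B r l) (hv : ∀ l r, vh l r = vh r l) (d : ℕ) (l r : SK) :
    pol q vh d l r = pol q vh d r l := by
  unfold pol
  rw [crs_symm, hq, hv]

/-- the family of a table -/
def Kq (q : ℕ → SK → SK → Option (List (ℤ × ℤ))) (vh : SK → SK → List (ℤ × ℤ))
    (hq : ∀ B l r, q B l r = q B r l) (hv : ∀ l r, vh l r = vh r l) : KFam where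
  K d l r := match pol q vh d l r with
    | some V => PolyU V
    | none => PolyU (vt (rty d l r))
  symm d l r := by rw [pol_symm hq hv, rty_symm]

lemma Kq_some {q : ℕ → SK → SK → Option (List (ℤ × ℤ))} {vh : SK → SK → List (ℤ × ℤ)}
    {hq : ∀ B l r, q B l r = q B r l} {hv : ∀ l r, vh l r = vh r l} {d : ℕ} {l r : SK}
    {V : List (ℤ × ℤ)} (h : pol q vh d l r = some V) : (Kq q vh hq hv).K d l r = PolyU V := by
  show (match pol q vh d l r with
    | some V => PolyU V
    | none => PolyU (vt (rty d l r))) = PolyU V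
  rw [h]

lemma q1_symm : ∀ (B : ℕ) (l r : SK), q1 B l r = q1 B r l := by
  intro B l r
  rcases B with _ | _ | _ | _ | _ | _ | _ | _ | B <;> cases l <;> cases r <;> rfl

lemma q2_symm : ∀ (B : ℕ) (l r : SK), q2 B l r = q2 B r l := by
  intro B l r
  rcases B with _ | _ | _ | _ | _ | _ | _ | _ | B <;> cases l <;> cases r <;> rfl

lemma q3_symm : ∀ (B : ℕ) (l r : SK), q3 B l r = q3 B r l := by
  intro B l r
  rcases B with _ | _ | _ | _ | _ | _ | _ | _ | B <;> cases l <;> cases r <;> rfl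

/-- the polygons for at least eight crossings -/
def vr : SK → SK → List (ℤ × ℤ)
  | .e, .e => vt .t8
  | l, r => Z8.v8 l r

lemma vr_symm : ∀ l r : SK, vr l r = vr r l := by
  intro l r
  cases l <;> cases r <;> rfl

lemma vr_eq {l r : SK} (h : r ≠ .e) : vr l r = Z8.v8 l r := by
  cases l <;> cases r <;> first | rfl | exact absurd rfl h

/-- the family after the first round -/
def Kr1 : KFam := Kq q1 vr q1_symm vr_symm

/-- the family after the second round -/
def Kr2 : KFam := Kq q2 vr q2_symm vr_symm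

/-- the family after the third round -/
def Kr3 : KFam := Kq q3 vr q3_symm vr_symm

/-! ### checks of the tables -/

instance (d : ℕ) (l r : SK) : Decidable (ROK d l r) :=
  decidable_of_iff (1 ≤ d ∧ (l = .e → r ≠ .e) ∧ (d = 1 → (l = .s ∨ r = .s) ∧ l ≠ .e ∧ r ≠ .e) ∧
    (l = .z → 4 ≤ d) ∧ (r = .z → 4 ≤ d))
    ⟨fun h => ⟨h.1, h.2.1, h.2.2.1, h.2.2.2.1, h.2.2.2.2⟩,
      fun h => ⟨h.pos, h.ends, h.one, h.zl, h.zr⟩⟩

/-- hulls of the possible neighbours -/
structure PT where
  /-- opposite sign -/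
  A2 : List (ℤ × ℤ)
  /-- opposite sign, digit at least two -/
  A1 : List (ℤ × ℤ)
  /-- equal sign, not split -/
  Z : List (ℤ × ℤ)
  /-- split, digit at most two -/
  S3 : List (ℤ × ℤ)
  /-- split -/
  S2 : List (ℤ × ℤ)
  /-- split, at least three crossings -/
  ST : List (ℤ × ℤ)

/-- the hull of the neighbours on a side of kind `x` of a ring with the digit `d` and `B`
crossings -/
def prt (p : PT) (x : SK) (d B : ℕ) : Set ℂ :=
  match x with
  | .e => ∅
  | .a => frS (-1) (Poly (if 2 ≤ d then p.A2 else p.A1))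
  | .z => Poly p.Z
  | .s => Poly (if 3 ≤ d then p.S3 else if 3 ≤ B then p.S2 else p.ST)

/-- the ring `(d, x, l)` is in the hulls -/
def chk (q : ℕ → SK → SK → Option (List (ℤ × ℤ))) (vh : SK → SK → List (ℤ × ℤ)) (p : PT) (d : ℕ)
    (x l : SK) : Bool :=
  match pol q vh d x l with
  | none => false
  | some V => match x with
    | .e => true
    | .a => inOK V p.A2 && (decide (d < 2) || inOK V p.A1)
    | .z => inOK V p.Z
    | .s => (decide (2 < d) || inOK V p.S3) && inOK V p.S2 &&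
        (decide (crs d x l < 3) || inOK V p.ST)

/-- kinds -/
def allK : List SK := [.e, .a, .z, .s]

lemma mem_allK (x : SK) : x ∈ allK := by cases x <;> decide

/-- all rings are in the hulls -/
def tab (q : ℕ → SK → SK → Option (List (ℤ × ℤ))) (vh : SK → SK → List (ℤ × ℤ)) (p : PT) : Bool :=
  (List.range 9).all fun d => allK.all fun x => allK.all fun l =>
    !(decide (ROK d x l)) || chk q vh p d x l

lemma pol_8 (q : ℕ → SK → SK → Option (List (ℤ × ℤ))) (vh : SK → SK → List (ℤ × ℤ)) {d : ℕ}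
    (h : 8 ≤ d) (x l : SK) : pol q vh d x l = some (vh x l) := by
  unfold pol
  rw [if_pos]
  unfold crs
  omega

lemma ROK_8 {d : ℕ} {x l : SK} (h : ROK d x l) : ROK 8 x l :=
  ⟨by norm_num, h.ends, by norm_num, fun _ => by norm_num, fun _ => by norm_num⟩

lemma chk_8 (q : ℕ → SK → SK → Option (List (ℤ × ℤ))) (vh : SK → SK → List (ℤ × ℤ)) (p : PT)
    {d : ℕ} (h : 8 ≤ d) (x l : SK) : chk q vh p d x l = chk q vh p 8 x l := by
  have h1 : decide (d < 2) = false := decide_eq_false (by omega)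
  have h2 : decide (2 < d) = true := decide_eq_true (by omega)
  have h3 : decide (crs d x l < 3) = false := decide_eq_false (by unfold crs; omega)
  have h4 : decide (8 < 2) = false := rfl
  have h5 : decide (2 < 8) = true := rfl
  have h6 : decide (crs 8 x l < 3) = false := decide_eq_false (by unfold crs; omega)
  unfold chk
  rw [pol_8 q vh h, pol_8 q vh le_rfl]
  cases x
  · rfl
  · simp only [h1, h4]
  · rfl
  · simp only [h2, h3, h5, h6]

lemma tab_spec {q : ℕ → SK → SK → Option (List (ℤ × ℤ))} {vh : SK → SK → List (ℤ × ℤ)} {p : PT}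
    (hT : tab q vh p = true) {d : ℕ} {x l : SK} (h : ROK d x l) : chk q vh p d x l = true := by
  have key : ∀ {d : ℕ}, d < 9 → ROK d x l → chk q vh p d x l = true := by
    intro d hd h
    have h1 := List.all_eq_true.1 (List.all_eq_true.1 (List.all_eq_true.1 hT d
      (List.mem_range.2 hd)) x (mem_allK x)) l (mem_allK l)
    rw [Bool.or_eq_true, Bool.not_eq_true', decide_eq_false_iff_not] at h1
    exact h1.resolve_left (fun h2 => h2 h)
  rcases lt_or_ge d 9 with h9 | h9
  · exact key h9 h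
  · rw [chk_8 q vh p (by omega)]
    exact key (by norm_num) (ROK_8 h)

lemma src_Kq {q : ℕ → SK → SK → Option (List (ℤ × ℤ))} {vh : SK → SK → List (ℤ × ℤ)} {p : PT}
    {hq : ∀ B l r, q B l r = q B r l} {hv : ∀ l r, vh l r = vh r l} (hT : tab q vh p = true) :
    Src (Kq q vh hq hv) q vh := by
  intro d l r h
  have h1 := tab_spec hT h
  unfold chk at h1
  cases h2 : pol q vh d l r with
  | none =>
    rw [h2] at h1
    exact absurd h1 (by simp)
  | some V => exact ⟨V, rfl, (Kq_some h2).subset⟩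

lemma src_K0 : Src K0 q0 (fun _ _ => vt .t8) := by
  intro d l r _
  refine ⟨vt (rty d l r), ?_, Subset.rfl⟩
  unfold pol
  split_ifs with h
  · rw [Z8.rty_t8 h]
  · rfl

/-- the neighbours are in the hulls -/
theorem port_in {K : KFam} {q : ℕ → SK → SK → Option (List (ℤ × ℤ))}
    {vh : SK → SK → List (ℤ × ℤ)} {p : PT} (hS : Src K q vh) (hT : tab q vh p = true) {x : SK}
    {d : ℕ} {l : SK} {d' : ℕ} {l' : SK} {k : ℂ} (h : HOK x d l d' l')
    (hk : k ∈ frS x.sgn (K.K d' x l')) : k ∈ prt p x d (crs d l x) := by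
  obtain ⟨V, e, hV⟩ := hS d' x l' h.right
  have hc := tab_spec hT h.right
  unfold chk at hc
  rw [e] at hc
  have hP := hV.trans (KB.polyU_sub V)
  cases x
  · exact absurd rfl h.ne
  · have hc' : (inOK V p.A2 && (decide (d' < 2) || inOK V p.A1)) = true := hc
    rw [Bool.and_eq_true, Bool.or_eq_true, decide_eq_true_eq] at hc'
    show k ∈ frS (-1) (Poly (if 2 ≤ d then p.A2 else p.A1))
    refine frS_mono ?_ hk
    split_ifs with h2
    · exact hP.trans (poly_in hc'.1)
    · exact hP.trans (poly_in (hc'.2.resolve_left (by have := h.opp rfl; omega)))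
  · have hc' : inOK V p.Z = true := hc
    rw [show SK.z.sgn = 1 from rfl, frS_one] at hk
    exact poly_in hc' (hP hk)
  · have hc' : ((decide (2 < d') || inOK V p.S3) && inOK V p.S2 &&
        (decide (crs d' .s l' < 3) || inOK V p.ST)) = true := hc
    rw [Bool.and_eq_true, Bool.and_eq_true, Bool.or_eq_true, Bool.or_eq_true, decide_eq_true_eq,
      decide_eq_true_eq] at hc'
    rw [show SK.s.sgn = 1 from rfl, frS_one] at hk
    show k ∈ Poly (if 3 ≤ d then p.S3 else if 3 ≤ crs d l .s then p.S2 else p.ST)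
    split_ifs with h2 h3
    · exact poly_in (hc'.1.1.resolve_left (by have := h.one rfl; omega)) (hP hk)
    · exact poly_in hc'.1.2 (hP hk)
    · refine poly_in (hc'.2.resolve_left ?_) (hP hk)
      have := h.abs rfl
      omega

/-! ### one round -/

/-- the statements of one round for the rings with at most seven crossings -/
structure Low (q : ℕ → SK → SK → Option (List (ℤ × ℤ))) (p : PT) : Prop where
  ends : ∀ d r, ROK d .e r → crs d .e r ≤ 7 → ∃ V, q (crs d .e r) .e r = some V ∧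
    Rf1 ((crs d .e r : ℕ) : ℝ) (rty d .e r) (prt p r d (crs d .e r)) V
  inner : ∀ d l r, ROK d l r → l ≠ .e → r ≠ .e → crs d l r ≤ 7 → ∃ V,
    q (crs d l r) l r = some V ∧ Rf2 ((crs d l r : ℕ) : ℝ) (rty d l r) (prt p l d (crs d l r))
      (prt p r d (crs d l r)) V

theorem refine_of {K : KFam} {q q' : ℕ → SK → SK → Option (List (ℤ × ℤ))}
    {vh : SK → SK → List (ℤ × ℤ)} {p : PT} {hq : ∀ B l r, q' B l r = q' B r l} (hle : K.Le K0)
    (hS : Src K q vh) (hT : tab q vh p = true) (hL : Low q' p) :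
    Refine K (Kq q' vr hq vr_symm) := by
  constructor
  · intro d l r dl ll dr rr w kl kr h
    rcases lt_or_ge (crs d l r) 8 with h8 | h8
    · obtain ⟨V, e, hR⟩ := hL.inner d l r h.right.ok.left h.left.ok.ne h.right.ok.ne (by omega)
      have e' : pol q' vr d l r = some V := by
        unfold pol
        rw [if_neg (by omega), e]
      rw [Kq_some e']
      have hl := port_in hS hT h.left.ok h.left.mem'
      rw [crs_symm] at hl
      have hr := port_in hS hT h.right.ok h.right.mem'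
      have hz : Complex.cos w ∈ Poly (vt (rty d l r)) := KB.polyU_sub _ (hle _ _ _ h.right.mem)
      refine hR kl hl kr hr w h.w0.le h.w1.le h.wi.le hz h.left.Rre.le h.right.Rre.le ?_
      rw [Complex.ofReal_natCast]
      exact h.eq
    · rw [Kq_some (V := Z8.v8 l r) (by unfold pol; rw [if_pos h8, vr_eq h.right.ok.ne])]
      exact Z8.mem8 hle h h8
  · intro d r dr rr w kr h
    rcases lt_or_ge (crs d .e r) 8 with h8 | h8
    · obtain ⟨V, e, hR⟩ := hL.ends d r h.right.ok.left (by omega)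
      have e' : pol q' vr d .e r = some V := by
        unfold pol
        rw [if_neg (by omega), e]
      rw [Kq_some e']
      have hr := port_in hS hT h.right.ok h.right.mem'
      have hz : Complex.cos w ∈ Poly (vt (rty d .e r)) := KB.polyU_sub _ (hle _ _ _ h.right.mem)
      refine hR kr hr w h.w0.le h.w1.le h.wi.le hz h.right.Rre.le ?_
      rw [Complex.ofReal_natCast]
      exact h.eq
    · rw [Kq_some (V := Z8.v8 .e r) (by unfold pol; rw [if_pos h8, vr_eq h.right.ok.ne])]
      exact Z8.mem8e hle h h8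

/-! ### the families are smaller than `K0` -/

/-- the edges are not degenerate -/
def nde (W : List (ℤ × ℤ)) : Bool := (edges W).all fun e => !(decide (e.1 = e.2))

/-- check: all polygons are in the typed polygons -/
def leb (q : ℕ → SK → SK → Option (List (ℤ × ℤ))) (vh : SK → SK → List (ℤ × ℤ)) : Bool :=
  (List.range 9).all fun d => allK.all fun l => allK.all fun r =>
    match pol q vh d l r with
    | none => true
    | some V => inOK V (vt (rty d l r)) && nde (vt (rty d l r))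

lemma polyU_in {V W : List (ℤ × ℤ)} (h : inOK V W = true) (hW : nde W = true) :
    PolyU V ⊆ PolyU W := by
  intro z hz e he
  have hne : e.1 ≠ e.2 := by
    have := List.all_eq_true.1 hW e he
    rw [Bool.not_eq_true', decide_eq_false_iff_not] at this
    exact this
  have hU := KB.polyU_open V
  set u : ℂ := ⟨-((e.2.2 : ℝ) - e.1.2), (e.2.1 : ℝ) - e.1.1⟩ with hu
  have hc : Filter.Tendsto (fun t : ℝ => z - (t : ℂ) * u) (nhds 0) (nhds z) := by
    have : Continuous fun t : ℝ => z - (t : ℂ) * u := by fun_prop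
    have h2 := this.tendsto 0
    simpa using h2
  obtain ⟨ε, hε, hb⟩ := Metric.mem_nhds_iff.1 (hc (hU.mem_nhds hz))
  have h1 : (ε / 2 : ℝ) ∈ Metric.ball (0 : ℝ) ε := by
    rw [Metric.mem_ball, dist_zero_right, Real.norm_eq_abs, abs_of_pos (by linarith)]
    linarith
  have h2 := poly_in h (KB.polyU_sub V (hb h1)) e he
  have h3 : cr e.1 e.2 (z - ((ε / 2 : ℝ) : ℂ) * u) = cr e.1 e.2 z -
      1000 * (ε / 2) * (((e.2.2 : ℝ) - e.1.2) ^ 2 + ((e.2.1 : ℝ) - e.1.1) ^ 2) := by
    rw [hu]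
    unfold cr
    simp only [Complex.sub_re, Complex.sub_im, Complex.mul_re, Complex.mul_im, Complex.ofReal_re,
      Complex.ofReal_im]
    push_cast
    ring
  rw [h3] at h2
  have h4 : 0 < ((e.2.2 : ℝ) - e.1.2) ^ 2 + ((e.2.1 : ℝ) - e.1.1) ^ 2 := by
    by_contra hcon
    apply hne
    have s1 := sq_nonneg ((e.2.2 : ℝ) - e.1.2)
    have s2 := sq_nonneg ((e.2.1 : ℝ) - e.1.1)
    have h5 : ((e.2.2 : ℝ) - e.1.2) ^ 2 = 0 := by linarith
    have h6 : ((e.2.1 : ℝ) - e.1.1) ^ 2 = 0 := by linarith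
    rw [sq_eq_zero_iff, sub_eq_zero] at h5 h6
    exact (Prod.ext (by exact_mod_cast h6) (by exact_mod_cast h5)).symm
  have h5 : 0 < 1000 * (ε / 2) * (((e.2.2 : ℝ) - e.1.2) ^ 2 + ((e.2.1 : ℝ) - e.1.1) ^ 2) := by
    positivity
  show 0 < cr e.1 e.2 z
  linarith

lemma leb_spec {q : ℕ → SK → SK → Option (List (ℤ × ℤ))} {vh : SK → SK → List (ℤ × ℤ)}
    {hq : ∀ B l r, q B l r = q B r l} {hv : ∀ l r, vh l r = vh r l} (hT : leb q vh = true) :
    (Kq q vh hq hv).Le K0 := by
  have key : ∀ {d : ℕ} {l r : SK}, d < 9 → (Kq q vh hq hv).K d l r ⊆ K0.K d l r := by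
    intro d l r hd
    have h1 := List.all_eq_true.1 (List.all_eq_true.1 (List.all_eq_true.1 hT d
      (List.mem_range.2 hd)) l (mem_allK l)) r (mem_allK r)
    cases h2 : pol q vh d l r with
    | none =>
      have : (Kq q vh hq hv).K d l r = PolyU (vt (rty d l r)) := by
        show (match pol q vh d l r with
          | some V => PolyU V
          | none => PolyU (vt (rty d l r))) = PolyU (vt (rty d l r))
        rw [h2]
      exact this.subset
    | some V =>
      rw [h2] at h1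
      have h3 : (inOK V (vt (rty d l r)) && nde (vt (rty d l r))) = true := h1
      rw [Bool.and_eq_true] at h3
      rw [Kq_some h2]
      exact polyU_in h3.1 h3.2
  intro d l r
  rcases lt_or_ge d 9 with h9 | h9
  · exact key h9
  · have h1 := key (d := 8) (l := l) (r := r) (by norm_num)
    rw [Kq_some (pol_8 q vh le_rfl l r)] at h1
    rw [Kq_some (pol_8 q vh (by omega) l r)]
    intro z hz
    have h2 : z ∈ PolyU (vt (rty 8 l r)) := h1 hz
    rw [Z8.rty_t8 (by unfold crs; omega)] at h2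
    show z ∈ PolyU (vt (rty d l r))
    rw [Z8.rty_t8 (by unfold crs; omega)]
    exact h2

end SR

end Pool.Agent.Work.MP_b30479_gtS.G2

end

section

/-!
# Hinges of a word as hinges of the lists of rings, from the side of a region

`Adj.side_view`: one side of a region which is not absorbed; `Adj.pair_view`: both sides;
`Adj.absd_view`: the two hinges of an absorbed digit.
-/

namespace Pool.Agent.Work.MP_b30479_gtS.G2

open Complex Set Filter Topology VOL
open scoped ComplexConjugate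

namespace SR

/-- the class of the region behind a side of kind `x` -/
def nC (x : SK) (d : ℕ) (l : SK) : Cl := if x = .s then .one else cK d l

section view

variable {M : ℕ} {b : Fin (M + 1) → ℤ} {w : ℕ → ℂ}

lemma isEnd_iff (i : Fin (M + 1)) : isEnd i = true ↔ i.val = 0 ∨ i.val = M := by
  unfold isEnd
  rw [decide_eq_true_iff, Fin.ext_iff, Fin.ext_iff]
  rfl

lemma cls_right {i j : Fin (M + 1)} (hj : j.val = i.val + 1) :
    clsW b j = nC (rk b i.val) (dg b (rn b i.val)) (rk b (rn b i.val)) := by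
  have hjM := j.2
  by_cases h1 : us b (i.val + 1) = true
  · unfold nC
    rw [if_pos (rk_s (by omega) h1)]
    apply clsW_one
    rw [← bb_val (b := b), hj]
    exact (us_true h1).2.1
  · rw [Bool.not_eq_true] at h1
    have hrn : rn b i.val = i.val + 1 := by
      unfold rn
      rw [if_neg (by rw [h1]; decide)]
    unfold nC
    rw [if_neg (by rw [rk_f (by omega) h1]; split_ifs <;> decide), hrn, ← hj]
    refine clsW_eq _ ?_
    constructor
    · intro h5
      right
      by_contra hc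
      exact rk_ne_e (by omega) h5
    · rintro (h5 | h5)
      · omega
      · exact rk_e (by omega)

lemma cls_left {i j : Fin (M + 1)} (hj : i.val = j.val + 1) :
    clsW b j = nC (lk b i.val) (dg b (ln b i.val)) (lk b (ln b i.val)) := by
  have hiM := i.2
  by_cases h1 : us b j.val = true
  · have h1' : us b (i.val - 1) = true := by rwa [show i.val - 1 = j.val by omega]
    unfold nC
    rw [if_pos (lk_s (by omega) h1')]
    apply clsW_one
    rw [← bb_val (b := b)]
    exact (us_true h1).2.1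
  · rw [Bool.not_eq_true] at h1
    have h1' : us b (i.val - 1) = false := by rwa [show i.val - 1 = j.val by omega]
    have hln : ln b i.val = j.val := by
      unfold ln
      rw [if_neg (by rw [h1']; decide)]
      omega
    unfold nC
    rw [if_neg (by rw [lk_f (by omega) h1']; split_ifs <;> decide), hln]
    refine clsW_eq _ ?_
    constructor
    · intro h5
      left
      by_contra hc
      exact lk_ne_e (by omega) h5
    · rintro (h5 | h5)
      · rw [h5]
        exact lk_e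
      · omega

lemma Adj.elim {h : Fin M} {i j : Fin (M + 1)} {p : Fin 3} (A : Adj h i p j) :
    (p = 2 ∧ i.val = h.val ∧ j.val = h.val + 1) ∨ (p = 0 ∧ i.val = h.val + 1 ∧ j.val = h.val) := by
  cases A
  · left
    exact ⟨rfl, rfl, by simp⟩
  · right
    exact ⟨rfl, by simp, rfl⟩

lemma zsW_val (h : Fin M) {n : ℕ} (hn : h.val = n) :
    zsW b w (.inl (.inl h)) = acot2 (Rh b w n) := by
  rw [← hn]
  rfl

section
variable (hb : ClassW b) (F : RingFacts) (hw : Sol b w) {K : KFam} (hK : Snd K b w)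
variable {h h' : Fin M} {i j j' : Fin (M + 1)} {p : Fin 3}
include hb F hw hK

/-- one side of a region which is not absorbed -/
theorem Adj.side_view (A : Adj h i p j) (hu : us b i.val = false) :
    ∃ (x l : SK) (d' : ℕ) (l' : SK) (R k' : ℂ),
      HDt K x (b i).natAbs l d' l' R (Complex.cos (oW b w i.val)) k' ∧
      ofr (b i) (zsW b w (.inl (.inl h))) = yH x R (Complex.cos (oW b w i.val)) ∧
      (l = .e ↔ isEnd i = true) ∧ clsW b j = nC x d' l' ∧
      ((x = .s ∧ us b j.val = true) ∨ (us b j.val = false ∧ d' = (b j).natAbs ∧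
        x = if 0 < b i * b j then .z else .a)) := by
  cases A
  · -- the hinge is on the right
    have hh := h.2
    have hc : h.castSucc.val = h.val := rfl
    have hs : h.succ.val = h.val + 1 := by simp
    have hH := hdt_right hb F hw hK (n := h.castSucc.val) (by omega) hu
    have ey := own_y_right F hw (n := h.castSucc.val) (by omega) hu
    rw [dg_val] at hH
    refine ⟨_, _, _, _, _, _, hH, ?_, ?_, cls_right (by rw [hs, hc]), ?_⟩
    · rw [ofr_fz]
      exact ey
    · rw [isEnd_iff]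
      constructor
      · intro h5
        left
        by_contra hc
        exact lk_ne_e (by omega) h5
      · rintro (h5 | h5)
        · rw [h5]
          exact lk_e
        · omega
    · by_cases h1 : us b h.succ.val = true
      · left
        exact ⟨rk_s (by omega) (by rwa [hs] at h1), h1⟩
      · right
        rw [Bool.not_eq_true] at h1
        have h1' : us b (h.castSucc.val + 1) = false := by rwa [hc, ← hs]
        have hrn : rn b h.castSucc.val = h.succ.val := by
          unfold rn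
          rw [if_neg (by rw [h1']; decide), hs, hc]
        refine ⟨h1, ?_, ?_⟩
        · rw [hrn, dg_val]
        · rw [rk_f (by omega) h1', ← bb_val (b := b) h.castSucc, ← bb_val (b := b) h.succ, hs, hc]
  · have hh := h.2
    have hc : h.castSucc.val = h.val := rfl
    have hs : h.succ.val = h.val + 1 := by simp
    have hH := hdt_left hb F hw hK (n := h.succ.val) (by omega) (by omega) hu
    have ey := own_y_left hb F hw (n := h.succ.val) (by omega) (by omega) hu
    rw [dg_val] at hH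
    refine ⟨_, _, _, _, _, _, hH, ?_, ?_, cls_left (by rw [hs, hc]), ?_⟩
    · rw [show h.succ.val - 1 = h.val by omega] at ey
      rw [ofr_fz]
      exact ey
    · rw [isEnd_iff]
      constructor
      · intro h5
        right
        by_contra hc
        exact rk_ne_e (by omega) h5
      · rintro (h5 | h5)
        · omega
        · exact rk_e (by omega)
    · by_cases h1 : us b h.castSucc.val = true
      · left
        exact ⟨lk_s (by omega) (by rwa [show h.succ.val - 1 = h.castSucc.val by omega]), h1⟩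
      · right
        rw [Bool.not_eq_true] at h1
        have h1' : us b (h.succ.val - 1) = false := by
          rwa [show h.succ.val - 1 = h.castSucc.val by omega]
        have hln : ln b h.succ.val = h.castSucc.val := by
          unfold ln
          rw [if_neg (by rw [h1']; decide)]
          omega
        refine ⟨h1, ?_, ?_⟩
        · rw [hln, dg_val]
        · rw [lk_f (by omega) h1', ← bb_val (b := b) h.castSucc, ← bb_val (b := b) h.succ,
            show h.succ.val - 1 = h.castSucc.val by omega]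

/-- both sides of an inner region which is not absorbed -/
theorem Adj.pair_view (A : Adj h i p j) (A' : Adj h' i p.rev j') (hu : us b i.val = false) :
    ∃ (x x' : SK) (dl : ℕ) (ll : SK) (dr : ℕ) (rr : SK) (kl kr : ℂ),
      RDt K (b i).natAbs x x' dl ll dr rr (oW b w i.val) kl kr ∧
      ofr (b i) (zsW b w (.inl (.inl h))) =
        yH x (RR (oW b w i.val) kl) (Complex.cos (oW b w i.val)) ∧
      ofr (b i) (zsW b w (.inl (.inl h'))) =
        yH x' (RR (oW b w i.val) kr) (Complex.cos (oW b w i.val)) ∧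
      clsW b j = nC x dl ll ∧ clsW b j' = nC x' dr rr := by
  rcases A.elim with ⟨rfl, e1, e2⟩ | ⟨rfl, e1, e2⟩
  · have e3 : i.val = h'.val + 1 ∧ j'.val = h'.val := by
      rcases A'.elim with ⟨h0, -⟩ | ⟨-, h1⟩
      · exact absurd h0 (by decide)
      · exact h1
    have hh := h.2
    have hE := (rdt hb F hw hK (n := i.val) (by omega) (by omega) hu).symm
    rw [dg_val] at hE
    refine ⟨rk b i.val, lk b i.val, _, _, _, _, oR b w i.val, oL b w i.val, hE, ?_, ?_,
      cls_right (by omega), cls_left (by omega)⟩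
    · have ey := own_y_right F hw (n := i.val) (by omega) hu
      rw [ofr_fz, zsW_val h e1.symm]
      exact ey
    · have ey := own_y_left hb F hw (n := i.val) (by omega) (by omega) hu
      rw [ofr_fz, zsW_val h' (n := i.val - 1) (by omega)]
      exact ey
  · have e3 : i.val = h'.val ∧ j'.val = h'.val + 1 := by
      rcases A'.elim with ⟨-, h1⟩ | ⟨h0, -⟩
      · exact h1
      · exact absurd h0 (by decide)
    have hh := h'.2
    have hE := rdt hb F hw hK (n := i.val) (by omega) (by omega) hu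
    rw [dg_val] at hE
    refine ⟨lk b i.val, rk b i.val, _, _, _, _, oL b w i.val, oR b w i.val, hE, ?_, ?_,
      cls_left (by omega), cls_right (by omega)⟩
    · have ey := own_y_left hb F hw (n := i.val) (by omega) (by omega) hu
      rw [ofr_fz, zsW_val h (n := i.val - 1) (by omega)]
      exact ey
    · have ey := own_y_right F hw (n := i.val) (by omega) hu
      rw [ofr_fz, zsW_val h' e3.1.symm]
      exact ey

/-- both sides of an inner region with three crossings, with its inner variable -/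
theorem Adj.mid_view (A : Adj h i 0 j) (A' : Adj h' i 2 j') (hu : us b i.val = false)
    (hm : (tyW b i).isMid = true) :
    ∃ (x x' : SK) (dl : ℕ) (ll : SK) (dr : ℕ) (rr : SK) (kl kr : ℂ),
      RDt K (b i).natAbs x x' dl ll dr rr (oW b w i.val) kl kr ∧
      ofr (b i) (zsW b w (.inl (.inl h))) =
        yH x (RR (oW b w i.val) kl) (Complex.cos (oW b w i.val)) ∧
      ofr (b i) (zsW b w (.inl (.inr ⟨i, hm⟩))) =
        mH x (RR (oW b w i.val) kl) (Complex.cos (oW b w i.val)) ∧
      clsW b j = nC x dl ll ∧ clsW b j' = nC x' dr rr := by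
  have e : i.val = h.val + 1 ∧ j.val = h.val := by
    rcases A.elim with ⟨h0, -⟩ | ⟨-, h1⟩
    · exact absurd h0 (by decide)
    · exact h1
  have e3 : i.val = h'.val ∧ j'.val = h'.val + 1 := by
    rcases A'.elim with ⟨-, h1⟩ | ⟨h0, -⟩
    · exact h1
    · exact absurd h0 (by decide)
  have hh := h'.2
  have hE := rdt hb F hw hK (n := i.val) (by omega) (by omega) hu
  rw [dg_val] at hE
  refine ⟨lk b i.val, rk b i.val, _, _, _, _, oL b w i.val, oR b w i.val, hE, ?_, ?_,
    cls_left (by omega), cls_right (by omega)⟩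
  · have ey := own_y_left hb F hw (n := i.val) (by omega) (by omega) hu
    rw [ofr_fz, zsW_val h (n := i.val - 1) (by omega)]
    exact ey
  · have ez : zsW b w (.inl (.inr ⟨i, hm⟩)) = acot2 (Rm b w i.val) := rfl
    rw [ez, ofr_fz, ← acot2_fz, own_mid hb F hw (n := i.val) (by omega) (by omega) hu]
    rfl

/-- the hinges of an absorbed digit -/
theorem absd_nat {m : ℕ} (hu : us b (m + 1) = true) :
    HDt K .s (dg b m) (lk b m) (dg b (m + 2)) (rk b (m + 2)) (RR (oW b w m) (oR b w m))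
      (Complex.cos (oW b w m)) (oR b w m) ∧
    fz (sg b (m + 1)) (acot2 (Rh b w m)) =
      conj (acot2 (Sp (RR (oW b w m) (oR b w m)) (Complex.cos (oW b w m)))) ∧
    fz (sg b (m + 1)) (acot2 (Rh b w (m + 1))) =
      conj (acot2 (Sp (RR (oW b w m) (oR b w m)) (oR b w m))) := by
  obtain ⟨h1, h2, h3, h4⟩ := us_true hu
  have h5 := us_lt hb hu
  rw [show m + 1 - 1 = m by omega] at h3
  have hrk : rk b m = .s := rk_s (by omega) hu
  have hrn : rn b m = m + 2 := by
    unfold rn
    rw [if_pos hu]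
  have hH := hdt_right hb F hw hK (n := m) (by omega) h3
  rw [hrk, hrn] at hH
  have hsg : sg b m * sg b (m + 2) = 1 := by
    have := sg_rk hb (n := m) (by omega) h3
    rw [hrk, hrn] at this
    exact this
  have hss : sg b (m + 2) = sg b m := by
    rcases sg_or (b := b) m with h | h <;> rcases sg_or (b := b) (m + 2) with h' | h' <;>
      rw [h, h'] at hsg ⊢ <;> norm_num at hsg
  have e0 := own_y_right F hw (n := m) (by omega) h3
  have e2 := own_y_left hb F hw (n := m + 2) (by omega) (by omega) (by simpa using h4)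
  rw [show m + 2 - 1 = m + 1 by omega, hss] at e2
  have hlk : lk b (m + 2) = .s := lk_s (by omega) (by rwa [show m + 2 - 1 = m + 1 by omega])
  have hln : ln b (m + 2) = m := by
    unfold ln
    rw [show m + 2 - 1 = m + 1 by omega, if_pos hu]
    omega
  have hopp : bb b m * bb b (m + 1) < 0 := bb_opp hb (by omega) (Or.inr (by omega))
  have hsm : sg b (m + 1) = -sg b m := by
    unfold sg
    rcases lt_or_gt_of_ne (bb_ne hb (by omega : m ≤ M)) with h7 | h7
    · have h8 : 0 < bb b (m + 1) := by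
        by_contra hc
        have := mul_nonneg_of_nonpos_of_nonpos h7.le (not_lt.1 hc)
        omega
      rw [if_pos h8, if_neg (not_lt.2 h7.le), neg_neg]
    · have h8 : ¬ 0 < bb b (m + 1) := by
        intro hc
        have := mul_pos h7 hc
        omega
      rw [if_neg h8, if_pos h7]
  have hfz : ∀ z, fz (sg b (m + 1)) z = conj (fz (sg b m) z) := by
    intro z
    rw [hsm]
    rcases sg_or (b := b) m with h | h
    · rw [h, fz_neg, fz_one]
    · rw [h, neg_neg, fz_neg, fz_one, Complex.conj_conj]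
  have eo : oR b w m = fz (sg b m) (Complex.cos (w (m + 2))) := by
    unfold oR
    rw [hrn]
  refine ⟨?_, ?_, ?_⟩
  · rw [eo]
    exact hH
  · rw [hfz, e0, hrk]
    unfold yH
    rw [Hq_s]
  · rw [hfz, e2, hlk]
    have eR : RR (oW b w (m + 2)) (oL b w (m + 2)) = RR (oW b w m) (oR b w m) := by
      unfold oW oL oR
      rw [← fz_R0_left hb F hw (by omega) (by omega) (by simpa using h4), hln, hss,
        fz_R0_right hw (by omega) h3]
    have eC : Complex.cos (oW b w (m + 2)) = oR b w m := by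
      unfold oW
      rw [hss, ← fz_cos, eo]
    rw [eR, eC]
    unfold yH
    rw [Hq_s]

/-- the two hinges of an absorbed digit -/
theorem Adj.absd_view (A : Adj h i p j) (A' : Adj h' i p.rev j') (hu : us b i.val = true) :
    ∃ (l l' : SK) (R k k' : ℂ), HDt K .s (b j).natAbs l (b j').natAbs l' R k k' ∧
      ofr (b i) (zsW b w (.inl (.inl h))) = conj (acot2 (Sp R k)) ∧
      ofr (b i) (zsW b w (.inl (.inl h'))) = conj (acot2 (Sp R k')) ∧
      clsW b j = cK (b j).natAbs l ∧ clsW b j' = cK (b j').natAbs l' := by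
  obtain ⟨m, hm⟩ : ∃ m, i.val = m + 1 := ⟨i.val - 1, by have := (us_true hu).1; omega⟩
  rw [hm] at hu
  obtain ⟨hH, e1, e2⟩ := absd_nat hb F hw hK hu
  have h5 := us_lt hb hu
  have key : ∀ {h h' : Fin M} {j j' : Fin (M + 1)}, Adj h i 0 j → Adj h' i 2 j' →
      (b j).natAbs = dg b m ∧ (b j').natAbs = dg b (m + 2) ∧
      clsW b j = cK (b j).natAbs (lk b m) ∧ clsW b j' = cK (b j').natAbs (rk b (m + 2)) ∧
      ofr (b i) (zsW b w (.inl (.inl h))) =
        conj (acot2 (Sp (RR (oW b w m) (oR b w m)) (Complex.cos (oW b w m)))) ∧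
      ofr (b i) (zsW b w (.inl (.inl h'))) =
        conj (acot2 (Sp (RR (oW b w m) (oR b w m)) (oR b w m))) := by
    intro h h' j j' A A'
    have hj : i.val = h.val + 1 ∧ j.val = h.val := by
      rcases A.elim with ⟨h0, -⟩ | ⟨-, h1⟩
      · exact absurd h0 (by decide)
      · exact h1
    have hj' : i.val = h'.val ∧ j'.val = h'.val + 1 := by
      rcases A'.elim with ⟨-, h1⟩ | ⟨h0, -⟩
      · exact h1
      · exact absurd h0 (by decide)
    have d1 : (b j).natAbs = dg b m := by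
      rw [← dg_val]
      congr 1
      omega
    have d2 : (b j').natAbs = dg b (m + 2) := by
      rw [← dg_val]
      congr 1
      omega
    have hjM := j'.2
    refine ⟨d1, d2, ?_, ?_, ?_, ?_⟩
    · rw [← dg_val]
      have e : j.val = m := by omega
      rw [← e]
      refine clsW_eq _ ?_
      constructor
      · intro h5
        left
        by_contra hc
        exact lk_ne_e (by omega) h5
      · rintro (h5 | h5)
        · rw [h5]
          exact lk_e
        · omega
    · rw [← dg_val]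
      have e : j'.val = m + 2 := by omega
      rw [← e]
      refine clsW_eq _ ?_
      constructor
      · intro h5
        right
        by_contra hc
        exact rk_ne_e (by omega) h5
      · rintro (h5 | h5)
        · omega
        · exact rk_e (by omega)
    · rw [ofr_fz, zsW_val h (n := m) (by omega), hm]
      exact e1
    · rw [ofr_fz, zsW_val h' (n := m + 1) (by omega), hm]
      exact e2
  rcases A.slot with rfl | rfl
  · obtain ⟨d1, d2, c1, c2, y1, y2⟩ := key A A'
    rw [← d1, ← d2] at hH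
    exact ⟨_, _, _, _, _, hH, y1, y2, c1, c2⟩
  · obtain ⟨d1, d2, c1, c2, y1, y2⟩ := key A' A
    rw [← d1, ← d2] at hH
    have hR := hH.rev
    have f : ∀ z, fz SK.s.sgn z = z := fun z => fz_one z
    rw [f, f, f] at hR
    exact ⟨_, _, _, _, _, hR, y2, y1, c2, c1⟩

end

/-! ### the further location facts -/

/-- the heights of the two hinges of a digit `1` are in the window -/
def Win.In (c : Win) (t k : ℝ) : Prop := c.t0 ≤ t ∧ t ≤ c.t1 ∧ c.s0 ≤ t + k ∧ t + k ≤ c.s1

/-- the height of the inner variable of a region with three crossings, `t`: left hinge -/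
def Win.InM (c : Win) (m t : ℝ) : Prop := c.t0 ≤ m ∧ m ≤ c.t1 ∧ c.s0 ≤ m - t ∧ m - t ≤ c.s1

/-- Statements about single hinges and rings which give the further location facts. -/
structure XRows (K : KFam) : Prop where
  /-- a digit `1` which is not absorbed; the other side: by symmetry -/
  one : ∀ {l r dl ll dr rr w kl kr}, RDt K 1 l r dl ll dr rr w kl kr →
    (cw (nC r dr rr) (nC l dl ll)).In (yH l (RR w kl) (Complex.cos w)).im
      (yH r (RR w kr) (Complex.cos w)).im
  /-- an absorbed digit; the other side: by symmetry -/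
  absd : ∀ {d l d' l' R k k'}, HDt K .s d l d' l' R k k' →
    (cw (cK d' l') (cK d l)).In (-(acot2 (Sp R k)).im) (-(acot2 (Sp R k')).im)
  one4a : ∀ {l l' R k k'}, HDt K .a 4 l 1 l' R k k' → -(acot2 R).im ≤ 128 / 1000
  one4s : ∀ {l d' l' R k k'}, HDt K .s 4 l d' l' R k k' → -(acot2 (Sp R k)).im ≤ 128 / 1000
  one5a : ∀ {l l' R k k'}, HDt K .a 5 l 1 l' R k k' → -(acot2 R).im ≤ 138 / 1000
  one5s : ∀ {l d' l' R k k'}, HDt K .s 5 l d' l' R k k' → -(acot2 (Sp R k)).im ≤ 138 / 1000
  lo4 : ∀ {l d' l' R k k'}, HDt K .a 4 l d' l' R k k' → d' = 2 ∨ d' = 3 →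
    -(acot2 R).im ≤ 115 / 1000
  three : ∀ {l d' l' R k k'}, HDt K .a 3 l d' l' R k k' → l ≠ .e → 4 ≤ d' →
    -(1 / 1000) ≤ (acot2 R).im
  rr4 : ∀ {x l d' l' R k k'}, HDt K x 4 l d' l' R k k' → x ≠ .s → 4 ≤ d' →
    -(25 / 1000) ≤ (acot2 R).im
  mid : ∀ {l r dl ll dr rr w kl kr}, RDt K 3 l r dl ll dr rr w kl kr →
    (mw (nC l dl ll) (nC r dr rr)).InM (mH l (RR w kl) (Complex.cos w)).im
      (yH l (RR w kl) (Complex.cos w)).im

section
variable (hb : ClassW b) (F : RingFacts) (hw : Sol b w) {K : KFam} (hK : Snd K b w)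
include hb F hw hK

/-- the height of the hinge seen from the region on the other side -/
lemma ofs_view {h : Fin M} {i j : Fin (M + 1)} {p : Fin 3} (A : Adj h i p j)
    (hc : clsW b i ≠ .ring) (hu : us b j.val = false) :
    ∃ (x l : SK) (d' : ℕ) (l' : SK) (R k k' : ℂ), HDt K x (b j).natAbs l d' l' R k k' ∧
      ofs (b i) (zsW b w (.inl (.inl h))).im = -(yH x R k).im ∧
      ((x = .s ∧ us b i.val = true) ∨ (us b i.val = false ∧ d' = (b i).natAbs ∧ x = .a)) := by
  obtain ⟨x, l, d', l', R, k', hH, hy, -, -, hx⟩ := A.symm.side_view hb F hw hK hu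
  have hop := A.opp hb (Or.inl hc)
  refine ⟨x, l, d', l', R, _, k', hH, ?_, ?_⟩
  · rw [← hy, ofr_im, ofs_opp hop, neg_neg]
  · rcases hx with hx | ⟨h1, h2, h3⟩
    · exact Or.inl hx
    · right
      refine ⟨h1, h2, ?_⟩
      rw [h3, if_neg]
      rw [mul_comm]
      omega

/-- **The further location facts of a word.** -/
theorem locX_of_rows (X : XRows K) : LocX b (zsW b w) where
  win := by
    intro h h' i j j' p A A' hc
    by_cases hu : us b i.val = true
    · obtain ⟨l, l', R, k, k', hH, y1, y2, c1, c2⟩ := A.absd_view hb F hw hK A' hu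
      have := X.absd hH
      rw [← ofr_im, ← ofr_im, y1, y2, c1, c2, Complex.conj_im, Complex.conj_im]
      exact this
    · rw [Bool.not_eq_true] at hu
      obtain ⟨x, x', dl, ll, dr, rr, kl, kr, hE, y1, y2, c1, c2⟩ := A.pair_view hb F hw hK A' hu
      have h1 : (b i).natAbs = 1 := by
        unfold clsW cls at hc
        split_ifs at hc with h1
        exact h1
      rw [h1] at hE
      have := X.one hE
      rw [← ofr_im, ← ofr_im, y1, y2, c1, c2]
      exact this
  one4 := by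
    intro h i j p A hc hr h4
    obtain ⟨x, l, d', l', R, k, k', hH, hy, hx⟩ := ofs_view hb F hw hK A (by rw [hc]; decide)
      (us_of_abs (by omega))
    rw [h4] at hH
    rw [hy]
    rcases hx with ⟨rfl, -⟩ | ⟨-, rfl, rfl⟩
    · unfold yH
      rw [Hq_s]
      exact X.one4s hH
    · unfold yH
      rw [Hq_of_ne (by decide)]
      have h1 : (b i).natAbs = 1 := by
        unfold clsW cls at hc
        split_ifs at hc with h1
        exact h1
      rw [h1] at hH
      exact X.one4a hH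
  one5 := by
    intro h i j p A hc hr h4
    obtain ⟨x, l, d', l', R, k, k', hH, hy, hx⟩ := ofs_view hb F hw hK A (by rw [hc]; decide)
      (us_of_abs (by omega))
    rw [h4] at hH
    rw [hy]
    rcases hx with ⟨rfl, -⟩ | ⟨-, rfl, rfl⟩
    · unfold yH
      rw [Hq_s]
      exact X.one5s hH
    · unfold yH
      rw [Hq_of_ne (by decide)]
      have h1 : (b i).natAbs = 1 := by
        unfold clsW cls at hc
        split_ifs at hc with h1
        exact h1
      rw [h1] at hH
      exact X.one5a hH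
  lo4 := by
    intro h i j p A hc hc' hr h4
    obtain ⟨x, l, d', l', R, k, k', hH, hy, hx⟩ := ofs_view hb F hw hK A hc'
      (us_of_abs (by omega))
    rw [h4] at hH
    rw [hy]
    have hi : (b i).natAbs = 2 ∨ (b i).natAbs = 3 := by
      unfold clsW cls at hc hc'
      split_ifs at hc hc' with h1 h2 h3 h4 h5 <;> first | exact absurd rfl hc | exact absurd rfl hc' | omega
    rcases hx with ⟨rfl, hu⟩ | ⟨-, rfl, rfl⟩
    · exfalso
      have := (us_true hu).2.1
      rw [bb_val] at this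
      omega
    · unfold yH
      rw [Hq_of_ne (by decide)]
      exact X.lo4 hH hi
  three := by
    intro h i j p A hc hr
    have h3 := clsW_nat3 (Or.inl hc)
    have hi : isEnd i = false := clsW_inner hb (Or.inr (Or.inr hc))
    have hop := A.opp hb (Or.inl (by rw [hc]; decide))
    obtain ⟨x, l, d', l', R, k', hH, hy, he, -, hx⟩ :=
      A.side_view hb F hw hK (us_of_abs (by omega))
    have hj : 4 ≤ (b j).natAbs := by
      have h0 := hb.ne j
      unfold clsW cls at hr
      split_ifs at hr with h1 h2 h3 h4 h5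
      omega
    rw [← ofr_im, hy]
    rcases hx with ⟨rfl, hu⟩ | ⟨-, rfl, rfl⟩
    · exfalso
      have := (us_true hu).2.1
      rw [bb_val] at this
      omega
    · rw [if_neg (by omega)] at hH ⊢
      unfold yH
      rw [Hq_of_ne (by decide)]
      rw [h3] at hH
      exact X.three hH (fun h0 => by rw [he.1 h0] at hi; exact absurd hi (by decide)) hj
  rr4 := by
    intro h i j p A hc hr h4
    obtain ⟨x, l, d', l', R, k', hH, hy, he, -, hx⟩ :=
      A.side_view hb F hw hK (us_of_abs (by omega))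
    have hj : 4 ≤ (b j).natAbs := by
      have h0 := hb.ne j
      unfold clsW cls at hr
      split_ifs at hr with h1 h2 h3 h4 h5
      omega
    rw [h4] at hH
    rw [← ofr_im, hy]
    rcases hx with ⟨rfl, hu⟩ | ⟨-, rfl, hx⟩
    · exfalso
      have := (us_true hu).2.1
      rw [bb_val] at this
      omega
    · have hs : x ≠ .s := by
        rw [hx]
        split_ifs <;> decide
      unfold yH
      rw [Hq_of_ne hs]
      exact X.rr4 hH hs hj
  mid := by
    intro h h' i j k hm A A' hc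
    have h3 := clsW_nat3 (Or.inl hc)
    obtain ⟨x, x', dl, ll, dr, rr, kl, kr, hE, y1, y2, c1, c2⟩ :=
      A.mid_view hb F hw hK A' (us_of_abs (by omega)) hm
    rw [h3] at hE
    have := X.mid hE
    rw [← ofr_im, ← ofr_im, y1, y2, c1, c2]
    exact this

end

end view

end SR

end Pool.Agent.Work.MP_b30479_gtS.G2

end

section

/-!
# Two adjacent digits `±1`: one of them is absorbed, the other is a ring

`Adj.one_view`: the three hinges as hinges of the ring; `locP_of_rows`.
-/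

namespace Pool.Agent.Work.MP_b30479_gtS.G2

open Complex Set Filter Topology VOL
open scoped ComplexConjugate

namespace SR

section view

variable {M : ℕ} {b : Fin (M + 1) → ℤ} {w : ℕ → ℂ}

/-- one of two adjacent digits `±1` is absorbed -/
lemma us_or {n : ℕ} (h1 : (bb b (n + 1)).natAbs = 1) : us b n = true ∨ us b (n + 1) = true := by
  by_cases h : us b n = true
  · exact Or.inl h
  · right
    rw [us_succ, decide_eq_true h1]
    simpa using h

lemma abs_one {i : Fin (M + 1)} (h : clsW b i = .one) : (b i).natAbs = 1 := by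
  unfold clsW cls at h
  split_ifs at h with h1
  exact h1

/-- an absorbed digit has neighbours which are not absorbed -/
lemma us_next {h : Fin M} {i j : Fin (M + 1)} {p : Fin 3} (A : Adj h i p j)
    (hu : us b i.val = true) : us b j.val = false := by
  have h1 := us_true hu
  rcases A.elim with ⟨-, e1, e2⟩ | ⟨-, e1, e2⟩
  · rw [show j.val = i.val + 1 by omega]
    exact h1.2.2.2
  · rw [show j.val = i.val - 1 by omega]
    exact h1.2.2.1

/-- one of two adjacent digits `±1` is absorbed -/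
lemma us_pair {h : Fin M} {i j : Fin (M + 1)} {p : Fin 3} (A : Adj h i p j)
    (hi : clsW b i = .one) (hj : clsW b j = .one) :
    us b i.val = true ∨ us b j.val = true := by
  have h1 := abs_one hi
  have h2 := abs_one hj
  rcases A.elim with ⟨-, e1, e2⟩ | ⟨-, e1, e2⟩
  · rw [e1, e2]
    apply us_or
    rw [← e2, bb_val]
    exact h2
  · rw [e1, e2]
    refine (us_or ?_).symm
    rw [← e1, bb_val]
    exact h1

section
variable (hb : ClassW b) (F : RingFacts) (hw : Sol b w) {K : KFam} (hK : Snd K b w)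
variable {h h' h'' : Fin M} {i j k l : Fin (M + 1)} {p : Fin 3}
include hb F hw hK

omit hb F hw hK in
lemma cls_lk {i : Fin (M + 1)} (hi : i.val < M) : clsW b i = cK (dg b i.val) (lk b i.val) := by
  refine clsW_eq _ ⟨fun h5 => ?_, ?_⟩
  · left
    by_contra hc
    exact lk_ne_e (by omega) h5
  · rintro (h5 | h5)
    · rw [h5]
      exact lk_e
    · omega

omit hb F hw hK in
lemma cls_rk {i : Fin (M + 1)} (hi : 0 < i.val) : clsW b i = cK (dg b i.val) (rk b i.val) := by
  have := i.2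
  refine clsW_eq _ ⟨fun h5 => ?_, ?_⟩
  · right
    by_contra hc
    exact rk_ne_e (by omega) h5
  · rintro (h5 | h5)
    · omega
    · exact rk_e (by omega)

omit hK in
/-- the values of the two rings at an absorbed digit, seen from both -/
theorem absd_eqs {m : ℕ} (hu : us b (m + 1) = true) :
    RR (oW b w (m + 2)) (oL b w (m + 2)) = RR (oW b w m) (oR b w m) ∧
    Complex.cos (oW b w (m + 2)) = oR b w m ∧ oL b w (m + 2) = Complex.cos (oW b w m) := by
  obtain ⟨h1, h2, h3, h4⟩ := us_true hu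
  have h5 := us_lt hb hu
  rw [show m + 1 - 1 = m by omega] at h3
  have hrk : rk b m = .s := rk_s (by omega) hu
  have hrn : rn b m = m + 2 := by
    unfold rn
    rw [if_pos hu]
  have hln : ln b (m + 2) = m := by
    unfold ln
    rw [show m + 2 - 1 = m + 1 by omega, if_pos hu]
    omega
  have hsg : sg b m * sg b (m + 2) = 1 := by
    have := sg_rk hb (n := m) (by omega) h3
    rw [hrk, hrn] at this
    exact this
  have hss : sg b (m + 2) = sg b m := by
    rcases sg_or (b := b) m with h | h <;> rcases sg_or (b := b) (m + 2) with h' | h' <;>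
      rw [h, h'] at hsg ⊢ <;> norm_num at hsg
  refine ⟨?_, ?_, ?_⟩
  · unfold oW oL oR
    rw [← fz_R0_left hb F hw (by omega) (by omega) (by simpa using h4), hln, hss,
      fz_R0_right hw (by omega) h3]
  · unfold oW oR
    rw [hrn, hss, ← fz_cos]
  · unfold oL oW
    rw [hln, hss, ← fz_cos]

/-- the three hinges at two adjacent digits `±1`, `i` absorbed and `j` a ring -/
theorem Adj.one_view (A : Adj h i p j) (A' : Adj h' i p.rev k) (A'' : Adj h'' j p l)
    (hu : us b i.val = true) :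
    ∃ (x : SK) (dl : ℕ) (ll : SK) (dr : ℕ) (rr : SK) (kl kr : ℂ),
      RDt K (b j).natAbs .s x dl ll dr rr (oW b w j.val) kl kr ∧
      ofr (b i) (zsW b w (.inl (.inl h))) =
        conj (acot2 (Sp (RR (oW b w j.val) kl) (Complex.cos (oW b w j.val)))) ∧
      ofr (b i) (zsW b w (.inl (.inl h'))) = conj (acot2 (Sp (RR (oW b w j.val) kl) kl)) ∧
      ofr (b j) (zsW b w (.inl (.inl h''))) =
        yH x (RR (oW b w j.val) kr) (Complex.cos (oW b w j.val)) ∧
      clsW b k = cK dl ll ∧ clsW b l = nC x dr rr ∧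
      (us b l.val = true → x = .s ∧ ∀ {h3 : Fin M} {m : Fin (M + 1)}, Adj h3 l p m →
        clsW b m = cK dr rr) := by
  have hj := us_next A hu
  obtain ⟨m, hm⟩ : ∃ m, i.val = m + 1 := ⟨i.val - 1, by have := (us_true hu).1; omega⟩
  have hu' := hu
  rw [hm] at hu'
  obtain ⟨-, e1, e2⟩ := absd_nat hb F hw hK hu'
  obtain ⟨g1, g2, g3⟩ := absd_eqs hb F hw hu'
  obtain ⟨-, -, h3, h4⟩ := us_true hu'
  have hk2 := k.2
  have hl2 := l.2
  rcases A.elim with ⟨rfl, f1, f2⟩ | ⟨rfl, f1, f2⟩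
  · have f3 : i.val = h'.val + 1 ∧ k.val = h'.val := by
      rcases A'.elim with ⟨h0, -⟩ | ⟨-, h1⟩
      · exact absurd h0 (by decide)
      · exact h1
    have f4 : j.val = h''.val ∧ l.val = h''.val + 1 := by
      rcases A''.elim with ⟨-, h1⟩ | ⟨h0, -⟩
      · exact h1
      · exact absurd h0 (by decide)
    have hE := rdt hb F hw hK (n := m + 2) (by omega) (by omega) (by simpa using h4)
    have hlk : lk b (m + 2) = .s := lk_s (by omega) (by rwa [show m + 2 - 1 = m + 1 by omega])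
    have hln : ln b (m + 2) = m := by
      unfold ln
      rw [show m + 2 - 1 = m + 1 by omega, if_pos hu']
      omega
    have hjv : j.val = m + 2 := by omega
    rw [hlk] at hE
    have hcl := cls_lk (b := b) (i := k) (by omega)
    have hcr := cls_right (b := b) (i := j) (j := l) (by omega)
    have hkv : k.val = m := by omega
    rw [hkv] at hcl
    rw [hjv] at hcr ⊢
    refine ⟨rk b (m + 2), dg b m, lk b m, _, _, oL b w (m + 2), oR b w (m + 2), ?_, ?_, ?_, ?_,
      hcl, hcr, ?_⟩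
    · have hd : (b j).natAbs = dg b (m + 2) := by rw [← dg_val, hjv]
      rw [hd]
      unfold oL
      rw [hln] at hE ⊢
      exact hE
    · rw [ofr_fz, zsW_val h (n := m + 1) (by omega), hm, e2, g1, g2]
    · rw [ofr_fz, zsW_val h' (n := m) (by omega), hm, e1, g1, g3]
    · have ey := own_y_right F hw (n := m + 2) (by omega) (by simpa using h4)
      rw [ofr_fz, zsW_val h'' (n := m + 2) (by omega), hjv]
      exact ey
    · intro hul
      have hlv : l.val = m + 3 := by omega
      rw [hlv] at hul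
      refine ⟨rk_s (by omega) hul, ?_⟩
      intro h3 m' A3
      have f5 : l.val = h3.val ∧ m'.val = h3.val + 1 := by
        rcases A3.elim with ⟨-, h1⟩ | ⟨h0, -⟩
        · exact h1
        · exact absurd h0 (by decide)
      have hrn : rn b (m + 2) = m + 4 := by
        unfold rn
        rw [if_pos hul]
      rw [hrn, cls_rk (b := b) (i := m') (by omega), show m'.val = m + 4 by omega]
  · have f3 : i.val = h'.val ∧ k.val = h'.val + 1 := by
      rcases A'.elim with ⟨-, h1⟩ | ⟨h0, -⟩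
      · exact h1
      · exact absurd h0 (by decide)
    have f4 : j.val = h''.val + 1 ∧ l.val = h''.val := by
      rcases A''.elim with ⟨h0, -⟩ | ⟨-, h1⟩
      · exact absurd h0 (by decide)
      · exact h1
    have h3' : us b m = false := by simpa using h3
    have hE := (rdt hb F hw hK (n := m) (by omega) (by omega) h3').symm
    have hrk : rk b m = .s := rk_s (by omega) hu'
    have hrn : rn b m = m + 2 := by
      unfold rn
      rw [if_pos hu']
    have hjv : j.val = m := by omega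
    rw [hrk] at hE
    have hcr := cls_rk (b := b) (i := k) (by omega)
    have hcl := cls_left (b := b) (i := j) (j := l) (by omega)
    have hkv : k.val = m + 2 := by omega
    rw [hkv] at hcr
    rw [hjv] at hcl ⊢
    refine ⟨lk b m, dg b (m + 2), rk b (m + 2), _, _, oR b w m, oL b w m, ?_, ?_, ?_, ?_,
      hcr, hcl, ?_⟩
    · have hd : (b j).natAbs = dg b m := by rw [← dg_val, hjv]
      rw [hd]
      unfold oR
      rw [hrn] at hE ⊢
      exact hE
    · rw [ofr_fz, zsW_val h (n := m) (by omega), hm, e1]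
    · rw [ofr_fz, zsW_val h' (n := m + 1) (by omega), hm, e2]
    · have ey := own_y_left hb F hw (n := m) (by omega) (by omega) h3'
      rw [ofr_fz, zsW_val h'' (n := m - 1) (by omega), hjv]
      exact ey
    · intro hul
      have hlv : l.val = m - 1 := by omega
      rw [hlv] at hul
      refine ⟨lk_s (by omega) hul, ?_⟩
      intro h3 m' A3
      have f5 : l.val = h3.val + 1 ∧ m'.val = h3.val := by
        rcases A3.elim with ⟨h0, -⟩ | ⟨-, h1⟩
        · exact absurd h0 (by decide)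
        · exact h1
      have hln : ln b m = m - 2 := by
        unfold ln
        rw [if_pos hul]
      rw [hln, cls_lk (b := b) (i := m') (by omega), show m'.val = m - 2 by omega]


end

end view

/-! ### the rows -/

/-- Statements about rings which give the location facts at pairs of digits `±1`. -/
structure PRows (K : KFam) : Prop where
  /-- a ring with the digit `1` and an absorbed digit on one side -/
  pair : ∀ {r dl ll dr rr w kl kr}, RDt K 1 .s r dl ll dr rr w kl kr →
    (pcw (cK dl ll) (nC r dr rr)).In (-(acot2 (Sp (RR w kl) (Complex.cos w))).im)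
      (-(acot2 (Sp (RR w kl) kl)).im) (yH r (RR w kr) (Complex.cos w)).im
  /-- a ring with the digit `1` between two absorbed digits; the other side: by symmetry -/
  three : ∀ {dl ll dr rr w kl kr}, RDt K 1 .s .s dl ll dr rr w kl kr → 2 ≤ dl → 2 ≤ dr →
    -(acot2 (Sp (RR w kl) kl)).im + (acot2 (Sp (RR w kr) (Complex.cos w))).im ≤
      kcw (cK dr rr) (cK dl ll)

section word

variable {M : ℕ} {b : Fin (M + 1) → ℤ} {w : ℕ → ℂ}

theorem Win6.In.symm' {P Q : Cl} {T k q : ℝ} (h : (pcw P Q).In (-T) k q) : (pcw Q P).In T q k := by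
  have := pcw_symm h
  rwa [neg_neg] at this

/-- **The location facts at pairs of digits `±1`.** -/
theorem locP_of_rows (hb : ClassW b) (F : RingFacts) (hw : Sol b w) {K : KFam} (hK : Snd K b w)
    (X : PRows K) : LocP b (zsW b w) where
  pair := by
    intro h h' h'' i j k l p A A' A'' hi hj
    have hop := A.opp hb (Or.inl (by rw [hi]; decide))
    rcases us_pair A hi hj with hu | hu
    · obtain ⟨x, dl, ll, dr, rr, kl, kr, hE, y1, y2, y3, c1, c2, -⟩ :=
        A.one_view hb F hw hK A' A'' hu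
      rw [abs_one hj] at hE
      have := X.pair hE
      rw [← ofr_im, ← ofr_im, ← ofr_im, y1, y2, y3, c1, c2, Complex.conj_im, Complex.conj_im]
      exact this
    · have A3 : Adj h'' j p.rev.rev l := by rw [Fin.rev_rev]; exact A''
      obtain ⟨x, dl, ll, dr, rr, kl, kr, hE, y1, y2, y3, c1, c2, -⟩ :=
        A.symm.one_view hb F hw hK A3 A' hu
      rw [abs_one hi] at hE
      have := X.pair hE
      rw [← Complex.conj_im, ← Complex.conj_im, ← y1, ← y2, ← y3, ← c1, ← c2, ofr_im, ofr_im,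
        ofr_im, ofs_opp hop] at this
      exact this.symm'
  three := by
    intro h h' h'' h3 i j k l m p A A' A'' A3 hi hj hk hl hm
    have g1 := us_pair A hi hj
    have g2 := us_pair A' hi hk
    have hui : us b i.val = false := by
      by_contra hc
      rw [Bool.not_eq_false] at hc
      have hnj := us_next A hc
      have hnk := us_next A' hc
      rcases A.elim with ⟨rfl, f1, f2⟩ | ⟨rfl, f1, f2⟩
      · have f0 : i.val = h'.val + 1 ∧ k.val = h'.val := by
          rcases A'.elim with ⟨h0, -⟩ | ⟨-, h1⟩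
          · exact absurd h0 (by decide)
          · exact h1
        have f3 : k.val = h3.val + 1 ∧ m.val = h3.val := by
          rcases A3.elim with ⟨h0, -⟩ | ⟨-, h1⟩
          · exact absurd h0 (by decide)
          · exact h1
        have h5 := us_of_one hb (n := k.val) (by have := k.2; omega) hnk
          (by rw [dg_val]; exact abs_one hk)
        rw [show k.val - 1 = m.val by omega] at h5
        have h6 := (us_true h5.2).2.1
        rw [bb_val] at h6
        exact hm (clsW_one h6)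
      · have f3 : j.val = h''.val + 1 ∧ l.val = h''.val := by
          rcases A''.elim with ⟨h0, -⟩ | ⟨-, h1⟩
          · exact absurd h0 (by decide)
          · exact h1
        have h5 := us_of_one hb (n := j.val) (by have := j.2; omega) hnj
          (by rw [dg_val]; exact abs_one hj)
        rw [show j.val - 1 = l.val by omega] at h5
        have h6 := (us_true h5.2).2.1
        rw [bb_val] at h6
        exact hl (clsW_one h6)
    have huj : us b j.val = true := by
      rcases g1 with h1 | h1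
      · rw [hui] at h1
        exact absurd h1 (by decide)
      · exact h1
    have huk : us b k.val = true := by
      rcases g2 with h1 | h1
      · rw [hui] at h1
        exact absurd h1 (by decide)
      · exact h1
    have A4 : Adj h'' j p.rev.rev l := by rw [Fin.rev_rev]; exact A''
    obtain ⟨x, dl, ll, dr, rr, kl, kr, hE, y1, y2, y3, c1, c2, c3⟩ :=
      A.symm.one_view hb F hw hK A4 A' huj
    obtain ⟨rfl, c4⟩ := c3 huk
    rw [abs_one hi] at hE
    have c5 := c4 A3
    have d1 : 2 ≤ dl := by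
      have h5 := hE.left.ok.right.pos
      by_contra hc
      have h6 : dl = 1 := by omega
      rw [c1, h6] at hl
      exact hl (by simp [cK])
    have d2 : 2 ≤ dr := by
      have h5 := hE.right.ok.right.pos
      by_contra hc
      have h6 : dr = 1 := by omega
      rw [c5, h6] at hm
      exact hm (by simp [cK])
    have := X.three hE d1 d2
    rw [yH, Hq_s] at y3
    rw [← ofr_im, ← ofr_im, y2, y3, c1, c5, Complex.conj_im]
    linarith

end word

end SR

end Pool.Agent.Work.MP_b30479_gtS.G2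

end

section

/-!
# Two adjacent digits `±1`: the rings behind absorbed digits

`Adj.one_view2`: as `Adj.one_view`, with the data of the rings behind absorbed digits if they have
the digit `1`; `locP_of_rows2`.
-/

namespace Pool.Agent.Work.MP_b30479_gtS.G2

open Complex Set Filter Topology VOL
open scoped ComplexConjugate

namespace SR

/-- the ring behind the absorbed digit has the digit `1` and a side `a`: its data -/
def FarX (K : KFam) (r : SK) (w k : ℂ) : Prop :=
  ∃ dX lX wP kX, RDt K 1 .s .a 1 r dX lX wP (Complex.cos w) kX ∧ Complex.cos wP = k ∧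
    RR wP (Complex.cos w) = RR w k

section view

variable {M : ℕ} {b : Fin (M + 1) → ℤ} {w : ℕ → ℂ}

section
variable (hb : ClassW b) (F : RingFacts) (hw : Sol b w) {K : KFam} (hK : Snd K b w)
variable {h h' h'' : Fin M} {i j k l : Fin (M + 1)} {p : Fin 3}
include hb F hw hK

/-- the ring to the left of the absorbed digit `m + 1`, seen from the ring `m + 2` -/
theorem far_left {m : ℕ} (hu : us b (m + 1) = true) (hd : dg b (m + 2) = 1)
    (h1 : dg b m = 1) (h2 : lk b m = .a) :
    FarX K (rk b (m + 2)) (oW b w (m + 2)) (oL b w (m + 2)) := by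
  obtain ⟨g1, g2, g3⟩ := absd_eqs hb F hw hu
  obtain ⟨-, -, h3, h4⟩ := us_true hu
  have h5 := us_lt hb hu
  have hm : 0 < m := by
    by_contra hc
    rw [show m = 0 by omega, lk, if_pos rfl] at h2
    exact absurd h2 (by decide)
  have hE := (rdt hb F hw hK (n := m) hm (by omega) (by simpa using h3)).symm
  have hrk : rk b m = .s := rk_s (by omega) hu
  have hrn : rn b m = m + 2 := by
    unfold rn
    rw [if_pos hu]
  rw [hrk, hrn, h1, h2, hd] at hE
  refine ⟨dg b (ln b m), lk b (ln b m), oW b w m, fz (sg b m) (Complex.cos (w (ln b m))), ?_,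
    g3.symm, ?_⟩
  · rw [g2]
    unfold oR
    rw [hrn]
    exact hE
  · rw [g2]
    exact g1.symm

/-- the ring to the right of the absorbed digit `m + 1`, seen from the ring `m` -/
theorem far_right' {m : ℕ} (hu : us b (m + 1) = true) (hd : dg b m = 1)
    (h1 : dg b (m + 2) = 1) (h2 : rk b (m + 2) = .a) :
    FarX K (lk b m) (oW b w m) (oR b w m) := by
  obtain ⟨g1, g2, g3⟩ := absd_eqs hb F hw hu
  obtain ⟨-, -, h3, h4⟩ := us_true hu
  have h5 := us_lt hb hu
  have hm : m + 2 < M := by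
    by_contra hc
    rw [rk, if_pos (by omega)] at h2
    exact absurd h2 (by decide)
  have hE := rdt hb F hw hK (n := m + 2) (by omega) hm (by simpa using h4)
  have hlk : lk b (m + 2) = .s := lk_s (by omega) (by rwa [show m + 2 - 1 = m + 1 by omega])
  have hln : ln b (m + 2) = m := by
    unfold ln
    rw [show m + 2 - 1 = m + 1 by omega, if_pos hu]
    omega
  rw [hlk, hln, h1, h2, hd] at hE
  refine ⟨dg b (rn b (m + 2)), rk b (rn b (m + 2)), oW b w (m + 2),
    fz (sg b (m + 2)) (Complex.cos (w (rn b (m + 2)))), ?_, g2, ?_⟩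
  · rw [← g3]
    unfold oL
    rw [hln]
    exact hE
  · rw [← g3]
    exact g1

/-- a ring with absorbed digits on both sides, to the right -/
theorem far_right {n : ℕ} (hn : n < M) (hd : dg b n = 1) (hl : lk b n = .s) (h0 : rk b n = .s)
    (h1 : dg b (rn b n) = 1) (h2 : rk b (rn b n) = .a) :
    FarX K .s (oW b w n) (oR b w n) := by
  have hu : us b (n + 1) = true := by
    by_contra hc
    rw [rk, if_neg (by omega), if_neg hc] at h0
    split_ifs at h0
  have hrn : rn b n = n + 2 := by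
    unfold rn
    rw [if_pos hu]
  rw [hrn] at h1 h2
  have h3 := far_right' hb F hw hK hu hd h1 h2
  rwa [hl] at h3

/-- a ring with absorbed digits on both sides, to the left -/
theorem far_left' {n : ℕ} (hn : 0 < n) (hd : dg b n = 1) (hr : rk b n = .s) (h0 : lk b n = .s)
    (h1 : dg b (ln b n) = 1) (h2 : lk b (ln b n) = .a) :
    FarX K .s (oW b w n) (oL b w n) := by
  have hu : us b (n - 1) = true := by
    by_contra hc
    rw [lk, if_neg (by omega), if_neg hc] at h0
    split_ifs at h0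
  have h3 := us_lt hb hu
  obtain ⟨m, rfl⟩ : ∃ m, n = m + 2 := ⟨n - 2, by omega⟩
  rw [show m + 2 - 1 = m + 1 by omega] at hu
  have hln : ln b (m + 2) = m := by
    unfold ln
    rw [show m + 2 - 1 = m + 1 by omega, if_pos hu]
    omega
  rw [hln] at h1 h2
  have h4 := far_left hb F hw hK hu hd h1 h2
  rwa [hr] at h4

/-- the three hinges at two adjacent digits `±1`, `i` absorbed and `j` a ring, with the data of the
rings behind absorbed digits -/
theorem Adj.one_view2 (A : Adj h i p j) (A' : Adj h' i p.rev k) (A'' : Adj h'' j p l)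
    (hu : us b i.val = true)
    (hj1 : clsW b j = .one) :
    ∃ (x : SK) (dl : ℕ) (ll : SK) (dr : ℕ) (rr : SK) (kl kr : ℂ),
      RDt K 1 .s x dl ll dr rr (oW b w j.val) kl kr ∧
      ofr (b i) (zsW b w (.inl (.inl h))) =
        conj (acot2 (Sp (RR (oW b w j.val) kl) (Complex.cos (oW b w j.val)))) ∧
      ofr (b i) (zsW b w (.inl (.inl h'))) = conj (acot2 (Sp (RR (oW b w j.val) kl) kl)) ∧
      ofr (b j) (zsW b w (.inl (.inl h''))) =
        yH x (RR (oW b w j.val) kr) (Complex.cos (oW b w j.val)) ∧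
      clsW b k = cK dl ll ∧ clsW b l = nC x dr rr ∧
      (us b l.val = true → x = .s ∧ ∀ {h3 : Fin M} {m : Fin (M + 1)}, Adj h3 l p m →
        clsW b m = cK dr rr) ∧
      (dl = 1 → ll = .a → FarX K x (oW b w j.val) kl) ∧
      (x = .s → dr = 1 → rr = .a → FarX K .s (oW b w j.val) kr) := by
  have hd1 := abs_one hj1
  have hj := us_next A hu
  obtain ⟨m, hm⟩ : ∃ m, i.val = m + 1 := ⟨i.val - 1, by have := (us_true hu).1; omega⟩
  have hu' := hu
  rw [hm] at hu'
  obtain ⟨-, e1, e2⟩ := absd_nat hb F hw hK hu'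
  obtain ⟨g1, g2, g3⟩ := absd_eqs hb F hw hu'
  obtain ⟨-, -, h3, h4⟩ := us_true hu'
  have hk2 := k.2
  have hl2 := l.2
  rcases A.elim with ⟨rfl, f1, f2⟩ | ⟨rfl, f1, f2⟩
  · have f3 : i.val = h'.val + 1 ∧ k.val = h'.val := by
      rcases A'.elim with ⟨h0, -⟩ | ⟨-, h1⟩
      · exact absurd h0 (by decide)
      · exact h1
    have f4 : j.val = h''.val ∧ l.val = h''.val + 1 := by
      rcases A''.elim with ⟨-, h1⟩ | ⟨h0, -⟩
      · exact h1
      · exact absurd h0 (by decide)
    have hE := rdt hb F hw hK (n := m + 2) (by omega) (by omega) (by simpa using h4)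
    have hlk : lk b (m + 2) = .s := lk_s (by omega) (by rwa [show m + 2 - 1 = m + 1 by omega])
    have hln : ln b (m + 2) = m := by
      unfold ln
      rw [show m + 2 - 1 = m + 1 by omega, if_pos hu']
      omega
    have hjv : j.val = m + 2 := by omega
    rw [hlk] at hE
    have hcl := cls_lk (b := b) (i := k) (by omega)
    have hcr := cls_right (b := b) (i := j) (j := l) (by omega)
    have hkv : k.val = m := by omega
    rw [hkv] at hcl
    rw [hjv] at hcr ⊢
    have hd : dg b (m + 2) = 1 := by rw [← hd1, ← dg_val, hjv]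
    rw [hd] at hE
    refine ⟨rk b (m + 2), dg b m, lk b m, _, _, oL b w (m + 2), oR b w (m + 2), ?_, ?_, ?_, ?_,
      hcl, hcr, ?_, far_left hb F hw hK hu' hd,
      far_right hb F hw hK (by omega) hd hlk⟩
    · unfold oL
      rw [hln] at hE ⊢
      exact hE
    · rw [ofr_fz, zsW_val h (n := m + 1) (by omega), hm, e2, g1, g2]
    · rw [ofr_fz, zsW_val h' (n := m) (by omega), hm, e1, g1, g3]
    · have ey := own_y_right F hw (n := m + 2) (by omega) (by simpa using h4)
      rw [ofr_fz, zsW_val h'' (n := m + 2) (by omega), hjv]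
      exact ey
    · intro hul
      have hlv : l.val = m + 3 := by omega
      rw [hlv] at hul
      refine ⟨rk_s (by omega) hul, ?_⟩
      intro h3 m' A3
      have f5 : l.val = h3.val ∧ m'.val = h3.val + 1 := by
        rcases A3.elim with ⟨-, h1⟩ | ⟨h0, -⟩
        · exact h1
        · exact absurd h0 (by decide)
      have hrn : rn b (m + 2) = m + 4 := by
        unfold rn
        rw [if_pos hul]
      rw [hrn, cls_rk (b := b) (i := m') (by omega), show m'.val = m + 4 by omega]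
  · have f3 : i.val = h'.val ∧ k.val = h'.val + 1 := by
      rcases A'.elim with ⟨-, h1⟩ | ⟨h0, -⟩
      · exact h1
      · exact absurd h0 (by decide)
    have f4 : j.val = h''.val + 1 ∧ l.val = h''.val := by
      rcases A''.elim with ⟨h0, -⟩ | ⟨-, h1⟩
      · exact absurd h0 (by decide)
      · exact h1
    have h3' : us b m = false := by simpa using h3
    have hE := (rdt hb F hw hK (n := m) (by omega) (by omega) h3').symm
    have hrk : rk b m = .s := rk_s (by omega) hu'
    have hrn : rn b m = m + 2 := by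
      unfold rn
      rw [if_pos hu']
    have hjv : j.val = m := by omega
    rw [hrk] at hE
    have hcr := cls_rk (b := b) (i := k) (by omega)
    have hcl := cls_left (b := b) (i := j) (j := l) (by omega)
    have hkv : k.val = m + 2 := by omega
    rw [hkv] at hcr
    rw [hjv] at hcl ⊢
    have hd : dg b m = 1 := by rw [← hd1, ← dg_val, hjv]
    rw [hd] at hE
    refine ⟨lk b m, dg b (m + 2), rk b (m + 2), _, _, oR b w m, oL b w m, ?_, ?_, ?_, ?_,
      hcr, hcl, ?_, far_right' hb F hw hK hu' hd,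
      far_left' hb F hw hK (by omega) hd hrk⟩
    · unfold oR
      rw [hrn] at hE ⊢
      exact hE
    · rw [ofr_fz, zsW_val h (n := m) (by omega), hm, e1]
    · rw [ofr_fz, zsW_val h' (n := m + 1) (by omega), hm, e2]
    · have ey := own_y_left hb F hw (n := m) (by omega) (by omega) h3'
      rw [ofr_fz, zsW_val h'' (n := m - 1) (by omega), hjv]
      exact ey
    · intro hul
      have hlv : l.val = m - 1 := by omega
      rw [hlv] at hul
      refine ⟨lk_s (by omega) hul, ?_⟩
      intro h3 m' A3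
      have f5 : l.val = h3.val + 1 ∧ m'.val = h3.val := by
        rcases A3.elim with ⟨h0, -⟩ | ⟨-, h1⟩
        · exact absurd h0 (by decide)
        · exact h1
      have hln : ln b m = m - 2 := by
        unfold ln
        rw [if_pos hul]
      rw [hln, cls_lk (b := b) (i := m') (by omega), show m'.val = m - 2 by omega]

end

end view

/-! ### the rows -/

/-- Statements about rings which give the location facts at pairs of digits `±1`. -/
structure PRows2 (K : KFam) : Prop where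
  /-- a ring with the digit `1` and an absorbed digit on one side -/
  pair : ∀ {r dl ll dr rr w kl kr}, RDt K 1 .s r dl ll dr rr w kl kr →
    (dl = 1 → ll = .a → FarX K r w kl) → (r = .s → dr = 1 → rr = .a → FarX K .s w kr) →
    (pcw (cK dl ll) (nC r dr rr)).In (-(acot2 (Sp (RR w kl) (Complex.cos w))).im)
      (-(acot2 (Sp (RR w kl) kl)).im) (yH r (RR w kr) (Complex.cos w)).im
  /-- a ring with the digit `1` between two absorbed digits; the other side: by symmetry -/
  three : ∀ {dl ll dr rr w kl kr}, RDt K 1 .s .s dl ll dr rr w kl kr → 2 ≤ dl → 2 ≤ dr →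
    -(acot2 (Sp (RR w kl) kl)).im + (acot2 (Sp (RR w kr) (Complex.cos w))).im ≤
      kcw (cK dr rr) (cK dl ll)

section word

variable {M : ℕ} {b : Fin (M + 1) → ℤ} {w : ℕ → ℂ}

/-- **The location facts at pairs of digits `±1`.** -/
theorem locP_of_rows2 (hb : ClassW b) (F : RingFacts) (hw : Sol b w) {K : KFam} (hK : Snd K b w)
    (X : PRows2 K) : LocP b (zsW b w) where
  pair := by
    intro h h' h'' i j k l p A A' A'' hi hj
    have hop := A.opp hb (Or.inl (by rw [hi]; decide))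
    rcases us_pair A hi hj with hu | hu
    · obtain ⟨x, dl, ll, dr, rr, kl, kr, hE, y1, y2, y3, c1, c2, -, x1, x2⟩ :=
        A.one_view2 hb F hw hK A' A'' hu hj
      have := X.pair hE x1 x2
      rw [← ofr_im, ← ofr_im, ← ofr_im, y1, y2, y3, c1, c2, Complex.conj_im, Complex.conj_im]
      exact this
    · have A3 : Adj h'' j p.rev.rev l := by rw [Fin.rev_rev]; exact A''
      obtain ⟨x, dl, ll, dr, rr, kl, kr, hE, y1, y2, y3, c1, c2, -, x1, x2⟩ :=
        A.symm.one_view2 hb F hw hK A3 A' hu hi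
      have := X.pair hE x1 x2
      rw [← Complex.conj_im, ← Complex.conj_im, ← y1, ← y2, ← y3, ← c1, ← c2, ofr_im, ofr_im,
        ofr_im, ofs_opp hop] at this
      exact this.symm'
  three := by
    intro h h' h'' h3 i j k l m p A A' A'' A3 hi hj hk hl hm
    have g1 := us_pair A hi hj
    have g2 := us_pair A' hi hk
    have hui : us b i.val = false := by
      by_contra hc
      rw [Bool.not_eq_false] at hc
      have hnj := us_next A hc
      have hnk := us_next A' hc
      rcases A.elim with ⟨rfl, f1, f2⟩ | ⟨rfl, f1, f2⟩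
      · have f0 : i.val = h'.val + 1 ∧ k.val = h'.val := by
          rcases A'.elim with ⟨h0, -⟩ | ⟨-, h1⟩
          · exact absurd h0 (by decide)
          · exact h1
        have f3 : k.val = h3.val + 1 ∧ m.val = h3.val := by
          rcases A3.elim with ⟨h0, -⟩ | ⟨-, h1⟩
          · exact absurd h0 (by decide)
          · exact h1
        have h5 := us_of_one hb (n := k.val) (by have := k.2; omega) hnk
          (by rw [dg_val]; exact abs_one hk)
        rw [show k.val - 1 = m.val by omega] at h5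
        have h6 := (us_true h5.2).2.1
        rw [bb_val] at h6
        exact hm (clsW_one h6)
      · have f3 : j.val = h''.val + 1 ∧ l.val = h''.val := by
          rcases A''.elim with ⟨h0, -⟩ | ⟨-, h1⟩
          · exact absurd h0 (by decide)
          · exact h1
        have h5 := us_of_one hb (n := j.val) (by have := j.2; omega) hnj
          (by rw [dg_val]; exact abs_one hj)
        rw [show j.val - 1 = l.val by omega] at h5
        have h6 := (us_true h5.2).2.1
        rw [bb_val] at h6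
        exact hl (clsW_one h6)
    have huj : us b j.val = true := by
      rcases g1 with h1 | h1
      · rw [hui] at h1
        exact absurd h1 (by decide)
      · exact h1
    have huk : us b k.val = true := by
      rcases g2 with h1 | h1
      · rw [hui] at h1
        exact absurd h1 (by decide)
      · exact h1
    have A4 : Adj h'' j p.rev.rev l := by rw [Fin.rev_rev]; exact A''
    obtain ⟨x, dl, ll, dr, rr, kl, kr, hE, y1, y2, y3, c1, c2, c3⟩ :=
      A.symm.one_view hb F hw hK A4 A' huj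
    obtain ⟨rfl, c4⟩ := c3 huk
    rw [abs_one hi] at hE
    have c5 := c4 A3
    have d1 : 2 ≤ dl := by
      have h5 := hE.left.ok.right.pos
      by_contra hc
      have h6 : dl = 1 := by omega
      rw [c1, h6] at hl
      exact hl (by simp [cK])
    have d2 : 2 ≤ dr := by
      have h5 := hE.right.ok.right.pos
      by_contra hc
      have h6 : dr = 1 := by omega
      rw [c5, h6] at hm
      exact hm (by simp [cK])
    have := X.three hE d1 d2
    rw [yH, Hq_s] at y3
    rw [← ofr_im, ← ofr_im, y2, y3, c1, c5, Complex.conj_im]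
    linarith

end word

end SR

end Pool.Agent.Work.MP_b30479_gtS.G2

end

section

/-!
# Rings with at least eight crossings: the height of the ring variable
-/

namespace Pool.Agent.Work.MP_b30479_gtS.G2

open Complex Set SQ KB
open scoped ComplexConjugate

namespace Z8

open SR

lemma cos_ge_sin (q : ℝ) (h : |q| < Real.pi / 2) : 1 - Real.sin q ^ 2 ≤ Real.cos q ∧ 0 < Real.cos q := by
  have h1 := Real.sin_sq_add_cos_sq q
  have h2 := Real.cos_pos_of_mem_Ioo (abs_lt.1 h)
  have h3 := Real.cos_le_one q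
  exact ⟨by nlinarith only [h1, h2, h3], h2⟩

section side
variable {w Q : ℂ} {κ lam r χ ψ C c c0 : ℝ}

/-- sides of opposite sign -/
lemma side_A (h : Sd .a w Q) (hm : Complex.cos w ∈ Poly (vt .t8)) (h0 : 0 < w.re)
    (h1 : w.re ≤ 3 / 2) (hXα : (Complex.tan w).re ≤ κ * w.re) (hX : (Complex.tan w).re ≤ χ)
    (hY : -(Complex.tan w).im ≤ ψ) (hC : 0 ≤ C) (hc : 0 ≤ c)
    (hn : ∀ m : ℝ, 0 ≤ m → m ≤ 676 / 1000 →
      κ * (1 - m / 4) ≤ C * (1 - (ψ + (χ - ψ / 4) * m) ^ 2)) :
    Q.re + c * Q.im ≤ C * w.re := by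
  have hq := (h.fa (t := .t8) rfl hm h0 h1).nonpos (Or.inr rfl)
  obtain ⟨k, hH, s1, s2, g1, g2, g3, g4, g5, g6⟩ := h.parts (t := .t8) rfl hm h0 h1 (by decide)
  have hT := tan_re_nonneg h0.le h1
  have hTi := tan_im_nonpos hm h0 h1
  have hk := (g4 rfl).2
  rw [if_neg (by decide), abs_of_nonpos hk] at g3
  rw [abs_of_nonpos hk] at g2
  obtain ⟨c1, c2⟩ := cos_ge_sin _ hH
  have hCh := Real.one_le_cosh Q.re
  set m := -k.im with hmdef
  have hm0 : 0 ≤ m := by rw [hmdef]; linarith only [hk]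
  set X := (Complex.tan w).re
  set Y := -(Complex.tan w).im with hYdef
  have hY0 : 0 ≤ Y := by rw [hYdef]; linarith only [hTi]
  have e1 : (Complex.tan w * k).re = X * k.re - Y * m := by
    rw [Complex.mul_re, hYdef, hmdef]; ring
  have e2 : (Complex.tan w * k).im = -(X * m + Y * k.re) := by
    rw [Complex.mul_im, hYdef, hmdef]; ring
  have hs : Real.sin Q.im ^ 2 ≤ (ψ + (χ - ψ / 4) * m) ^ 2 := by
    have b1 : Real.sin Q.im ^ 2 ≤ (Complex.tan w * k).im ^ 2 := by
      rw [s1, mul_pow]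
      exact le_mul_of_one_le_left (sq_nonneg _) (one_le_pow₀ hCh)
    refine b1.trans ?_
    rw [e2, neg_sq]
    apply pow_le_pow_left₀ (by positivity)
    have u1 := mul_le_mul_of_nonneg_right hX hm0
    have u2 := mul_le_mul_of_nonneg_right hY (by linarith only [g1] : 0 ≤ k.re)
    have u3 := mul_nonneg (hY0.trans hY) (by linarith only [g2] : 0 ≤ 1 - m / 4 - k.re)
    linarith only [u1, u2, u3]
  have hp : Q.re ≤ C * w.re := by
    by_contra hcon
    push Not at hcon
    have hp0 : 0 < Q.re := lt_of_le_of_lt (by positivity) hcon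
    have b2 : Q.re ≤ Real.sinh Q.re := Real.self_le_sinh_iff.2 hp0.le
    have b3 : (C * w.re) * Real.cos Q.im < (Complex.tan w * k).re := by
      rw [s2]
      exact mul_lt_mul_of_pos_right (by linarith only [hcon, b2]) c2
    have b4 : (Complex.tan w * k).re ≤ κ * w.re * (1 - m / 4) := by
      rw [e1]
      have u1 : X * k.re ≤ X * (1 - m / 4) := mul_le_mul_of_nonneg_left (by linarith only [g2]) hT
      have u2 : X * (1 - m / 4) ≤ κ * w.re * (1 - m / 4) :=
        mul_le_mul_of_nonneg_right hXα (by linarith only [g1, g2])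
      linarith only [u1, u2, hY0, hm0, mul_nonneg hY0 hm0]
    have b5 := mul_le_mul_of_nonneg_right (hn m hm0 g3) h0.le
    have b6 : C * w.re * (1 - (ψ + (χ - ψ / 4) * m) ^ 2) ≤ C * w.re * Real.cos Q.im :=
      mul_le_mul_of_nonneg_left (by linarith only [c1, hs]) (by positivity)
    linarith only [b3, b4, b5, b6]
  linarith only [hp, hc, hq, mul_nonneg hc (neg_nonneg.2 hq)]

/-- split sides -/
lemma side_S (h : Sd .s w Q) (hm : Complex.cos w ∈ Poly (vt .t8)) (h0 : 0 < w.re)
    (h1 : w.re ≤ 3 / 2) (hXc : (Complex.tan w).re * Real.cos w.re ≤ Real.sin w.re)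
    (hcs : 7 / 10 ≤ Real.cos w.re)
    (hXα : (Complex.tan w).re ≤ κ * w.re) (hX : (Complex.tan w).re ≤ χ)
    (hYη : -(Complex.tan w).im ≤ lam * -w.im)
    (hY : -(Complex.tan w).im ≤ ψ) (hη0 : 0 ≤ -w.im) (hη : -w.im ≤ r * w.re)
    (hr : 0 < r) (hC : 0 ≤ C) (hc : 0 ≤ c)
    (hn : ∀ m : ℝ, 0 ≤ m → m ≤ 676 / 1000 →
      κ * (1 - m / 4) ≤ C * (1 - χ ^ 2 * m ^ 2 - ψ ^ 2) ∧
      κ * (1 - m / 4) + lam * r * m ≤ (C + r) * (1 - χ ^ 2 * m ^ 2 - ψ ^ 2)) :
    (Q.re - -w.im) + c * (Q.im - w.re) ≤ C * w.re := by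
  have hpi := Real.pi_gt_three
  obtain ⟨k, hH, s1, s2, g1, g2, g3, g4, g5, g6⟩ := h.parts (t := .t8) rfl hm h0 h1 (by decide)
  have hT := tan_re_nonneg h0.le h1
  have hTi := tan_im_nonpos hm h0 h1
  have hk := (g5 (by decide)).2
  rw [if_neg (by decide), abs_of_nonneg hk] at g3
  rw [abs_of_nonneg hk] at g2
  obtain ⟨c1, c2⟩ := cos_ge_sin _ hH
  have hCh := Real.one_le_cosh Q.re
  set m := k.im
  set X := (Complex.tan w).re
  set Y := -(Complex.tan w).im with hYdef
  have hY0 : 0 ≤ Y := by rw [hYdef]; linarith only [hTi]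
  have e1 : (Complex.tan w * k).re = X * k.re + Y * m := by
    rw [Complex.mul_re, hYdef]; ring
  have e2 : (Complex.tan w * k).im = X * m - Y * k.re := by
    rw [Complex.mul_im, hYdef]; ring
  have hXm : X * m ≤ χ * m := mul_le_mul_of_nonneg_right hX hk
  have hYk : Y * k.re ≤ ψ := by
    calc Y * k.re ≤ Y * 1 := mul_le_mul_of_nonneg_left (by linarith only [g2, hk]) hY0
      _ ≤ ψ := by linarith only [hY]
  have hs : Real.sin Q.im ^ 2 ≤ χ ^ 2 * m ^ 2 + ψ ^ 2 := by
    have b1 : Real.sin Q.im ^ 2 ≤ (Complex.tan w * k).im ^ 2 := by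
      rw [s1, mul_pow]
      exact le_mul_of_one_le_left (sq_nonneg _) (one_le_pow₀ hCh)
    refine b1.trans ?_
    rw [e2]
    have b2 : 0 ≤ X * m := by positivity
    have b3 : 0 ≤ Y * k.re := by
      have : 0 ≤ k.re := by linarith only [g1]
      positivity
    have b4 : (X * m) ^ 2 ≤ (χ * m) ^ 2 := pow_le_pow_left₀ b2 hXm 2
    have b5 : (Y * k.re) ^ 2 ≤ ψ ^ 2 := pow_le_pow_left₀ b3 hYk 2
    linarith only [b4, b5, b2, b3, mul_nonneg b2 b3]
  have hq : Q.im ≤ w.re := by
    by_contra hcon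
    push Not at hcon
    have b1 : Real.sin w.re < Real.sin Q.im :=
      Real.sin_lt_sin_of_lt_of_le_pi_div_two (by linarith only [h0, hpi]) (by linarith only [hH, (abs_lt.1 hH).2]) hcon
    have b0 : 0 < Real.sin w.re := Real.sin_pos_of_pos_of_lt_pi h0 (by linarith only [h1, hpi])
    have b2 : Real.sin Q.im ≤ (Complex.tan w * k).im := by
      rw [s1]; exact le_mul_of_one_le_left (b0.trans b1).le hCh
    rw [e2] at b2
    have b3 : 0 ≤ Y * k.re := by
      have : 0 ≤ k.re := by linarith only [g1]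
      positivity
    have b4 : X * m ≤ X * Real.cos w.re := mul_le_mul_of_nonneg_left (by linarith only [hcs, g3]) hT
    linarith only [hXc, b1, b2, b3, b4]
  have hp : Q.re - -w.im ≤ C * w.re := by
    by_contra hcon
    push Not at hcon
    have hp0 : 0 < Q.re := by
      have : 0 ≤ C * w.re := by positivity
      linarith only [hη0, hcon, this]
    have b2 : Q.re ≤ Real.sinh Q.re := Real.self_le_sinh_iff.2 hp0.le
    have b3 : (C * w.re + -w.im) * Real.cos Q.im < (Complex.tan w * k).re := by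
      rw [s2]
      exact mul_lt_mul_of_pos_right (by linarith only [hcon, b2]) c2
    have b4 : (Complex.tan w * k).re ≤ κ * w.re * (1 - m / 4) + lam * -w.im * m := by
      rw [e1]
      have u1 : X * k.re ≤ X * (1 - m / 4) := mul_le_mul_of_nonneg_left (by linarith only [g2]) hT
      have u2 : X * (1 - m / 4) ≤ κ * w.re * (1 - m / 4) :=
        mul_le_mul_of_nonneg_right hXα (by linarith only [g3])
      have u3 : Y * m ≤ lam * -w.im * m := mul_le_mul_of_nonneg_right hYη hk
      linarith only [u1, u2, u3]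
    have b6 : (C * w.re + -w.im) * (1 - χ ^ 2 * m ^ 2 - ψ ^ 2) ≤ (C * w.re + -w.im) * Real.cos Q.im :=
      mul_le_mul_of_nonneg_left (by linarith only [c1, hs]) (by positivity)
    obtain ⟨n1, n2⟩ := hn m hk g3
    set D := 1 - χ ^ 2 * m ^ 2 - ψ ^ 2
    set η := -w.im
    have b7 : 0 ≤ r * ((C * w.re + η) * D - κ * w.re * (1 - m / 4) - lam * η * m) := by
      have t1 := mul_nonneg (sub_nonneg.2 hη) (sub_nonneg.2 n1)
      have t2 := mul_nonneg hη0 (sub_nonneg.2 n2)
      have e3 : r * ((C * w.re + η) * D - κ * w.re * (1 - m / 4) - lam * η * m) =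
          (r * w.re - η) * (C * D - κ * (1 - m / 4)) +
          η * ((C + r) * D - (κ * (1 - m / 4) + lam * r * m)) := by ring
      rw [e3]
      linarith only [t1, t2]
    have b8 := nonneg_of_mul_nonneg_right b7 hr
    linarith only [b3, b4, b6, b8]
  linarith only [hp, hc, hq, mul_nonneg hc (sub_nonneg.2 hq)]

/-- unsplit sides of equal sign -/
lemma side_Z (h : Sd .z w Q) (hm : Complex.cos w ∈ Poly (vt .t8)) (h0 : 0 < w.re)
    (h1 : w.re ≤ 3 / 2)
    (hXα : (Complex.tan w).re ≤ κ * w.re) (hX : (Complex.tan w).re ≤ χ)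
    (hYη : -(Complex.tan w).im ≤ lam * -w.im)
    (hY : -(Complex.tan w).im ≤ ψ) (hη : -w.im ≤ r * w.re)
    (hr : 0 < r) (hlam : 0 < lam) (hC : 0 ≤ C) (hc : 0 ≤ c) (hcc : c ≤ c0)
    (hn1 : ∀ m : ℝ, 0 ≤ m → m ≤ 33 / 100 →
      κ * (1 - 4 / 10 * m) + lam * r * m ≤ C * (1 - ψ ^ 2))
    (hn2 : ∀ m : ℝ, 0 ≤ m → m ≤ 33 / 100 →
      κ * (1 - (4 / 10 - c0) * m) ≤ C * (1 - χ ^ 2 * m ^ 2) ∧
      κ * (1 - (4 / 10 - c0) * m) + lam * r * (m - 66 / 100 * c0) ≤ C * (1 - χ ^ 2 * m ^ 2)) :
    Q.re + c * Q.im ≤ C * w.re := by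
  have hpi := Real.pi_gt_three
  obtain ⟨k, hH, s1, s2, g1, g2, g3, g4, g5, g6⟩ := h.parts (t := .t8) rfl hm h0 h1 (by decide)
  have hT := tan_re_nonneg h0.le h1
  have hTi := tan_im_nonpos hm h0 h1
  have hk := (g5 (by decide)).2
  obtain ⟨z1, z2⟩ := g6 rfl
  rw [if_pos rfl, abs_of_nonneg hk] at g3
  rw [abs_of_nonneg hk] at g2
  obtain ⟨c1, c2⟩ := cos_ge_sin _ hH
  have hCh := Real.one_le_cosh Q.re
  set m := k.im
  set X := (Complex.tan w).re
  set Y := -(Complex.tan w).im with hYdef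
  have hY0 : 0 ≤ Y := by rw [hYdef]; linarith only [hTi]
  have e1 : (Complex.tan w * k).re = X * k.re + Y * m := by
    rw [Complex.mul_re, hYdef]; ring
  have e2 : (Complex.tan w * k).im = X * m - Y * k.re := by
    rw [Complex.mul_im, hYdef]; ring
  have hXm : X * m ≤ χ * m := mul_le_mul_of_nonneg_right hX hk
  have hXm0 : 0 ≤ X * m := by positivity
  have hk0 : 0 ≤ k.re := by linarith only [g1]
  have hYk0 : 0 ≤ Y * k.re := by positivity
  have hYk : Y * k.re ≤ ψ := by
    calc Y * k.re ≤ Y * 1 := mul_le_mul_of_nonneg_left (by linarith only [g2, hk]) hY0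
      _ ≤ ψ := by linarith only [hY]
  have hYr : Y ≤ lam * r * w.re := by
    have := mul_le_mul_of_nonneg_left hη hlam.le
    linarith only [hYη, this]
  have hRe : (Complex.tan w * k).re ≤ κ * w.re * (1 - 4 / 10 * m) + Y * m := by
    rw [e1]
    have u1 : X * k.re ≤ X * (1 - 4 / 10 * m) := mul_le_mul_of_nonneg_left (by linarith only [z2]) hT
    have u2 : X * (1 - 4 / 10 * m) ≤ κ * w.re * (1 - 4 / 10 * m) :=
      mul_le_mul_of_nonneg_right hXα (by linarith only [g3])
    linarith only [u1, u2]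
  by_cases hq : Q.im ≤ 0
  · have hp : Q.re ≤ C * w.re := by
      by_contra hcon
      push Not at hcon
      have hp0 : 0 < Q.re := lt_of_le_of_lt (by positivity) hcon
      have b2 : Q.re ≤ Real.sinh Q.re := Real.self_le_sinh_iff.2 hp0.le
      have b3 : (C * w.re) * Real.cos Q.im < (Complex.tan w * k).re := by
        rw [s2]
        exact mul_lt_mul_of_pos_right (by linarith only [hcon, b2]) c2
      have hs0 : Real.sin Q.im ≤ 0 :=
        Real.sin_nonpos_of_nonpos_of_neg_pi_le hq (by linarith only [hpi, hH, (abs_lt.1 hH).1])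
      have hs : Real.sin Q.im ^ 2 ≤ ψ ^ 2 := by
        have b5 : -Real.sin Q.im ≤ ψ := by
          have : -Real.sin Q.im ≤ -(Complex.tan w * k).im := by
            rw [s1, ← mul_neg]; exact le_mul_of_one_le_left (by linarith only [hs0]) hCh
          rw [e2] at this
          linarith only [hXm0, hYk, this]
        have := pow_le_pow_left₀ (by linarith only [hs0]) b5 2
        rwa [neg_sq] at this
      have b6 : C * w.re * (1 - ψ ^ 2) ≤ C * w.re * Real.cos Q.im :=
        mul_le_mul_of_nonneg_left (by linarith only [c1, hs]) (by positivity)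
      have b7 := mul_le_mul_of_nonneg_right (hn1 m hk g3) h0.le
      have b8 := mul_le_mul_of_nonneg_right hYr hk
      linarith only [hRe, b3, b6, b7, b8]
    linarith only [hp, hc, hq, mul_nonneg hc (neg_nonneg.2 hq)]
  · push Not at hq
    have hqc : Q.im * Real.cos Q.im ≤ Real.sin Q.im := by
      have b1 := Real.lt_tan hq (abs_lt.1 hH).2
      have b2 : Real.tan Q.im * Real.cos Q.im = Real.sin Q.im := Real.tan_mul_cos c2.ne'
      rw [← b2]
      exact mul_le_mul_of_nonneg_right b1.le c2.le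
    have hs0 : 0 ≤ Real.sin Q.im := Real.sin_nonneg_of_nonneg_of_le_pi hq.le (by linarith only [hpi, hH, (abs_lt.1 hH).2])
    have hs1 : Real.sin Q.im ≤ X * m - Y * k.re := by
      rw [← e2, s1]; exact le_mul_of_one_le_left hs0 hCh
    have hs : Real.sin Q.im ^ 2 ≤ χ ^ 2 * m ^ 2 := by
      have b5 : Real.sin Q.im ≤ χ * m := by linarith only [hXm, hYk0, hs1]
      have := pow_le_pow_left₀ hs0 b5 2
      rwa [mul_pow] at this
    have hc00 : 0 ≤ c0 := hc.trans hcc
    have hp : Q.re + c0 * Q.im ≤ C * w.re := by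
      by_contra hcon
      push Not at hcon
      have b3 : (C * w.re) * Real.cos Q.im < (Q.re + c0 * Q.im) * Real.cos Q.im :=
        mul_lt_mul_of_pos_right hcon c2
      have b4 : Q.re * Real.cos Q.im ≤ (Complex.tan w * k).re := by
        rw [s2]
        by_cases hp0 : 0 ≤ Q.re
        · exact mul_le_mul_of_nonneg_right (Real.self_le_sinh_iff.2 hp0) c2.le
        · push Not at hp0
          exfalso
          have b1 : 0 ≤ (Complex.tan w * k).re := by rw [e1]; positivity
          have b2 : Real.sinh Q.re < 0 := Real.sinh_neg_iff.2 hp0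
          rw [s2] at b1
          exact absurd b1 (not_le.2 (mul_neg_of_neg_of_pos b2 c2))
      have b5 : c0 * (Q.im * Real.cos Q.im) ≤ c0 * (X * m - 66 / 100 * Y) := by
        apply mul_le_mul_of_nonneg_left _ hc00
        have u1 : 66 / 100 * Y ≤ Y * k.re := by
          rw [mul_comm]
          exact mul_le_mul_of_nonneg_left z1 hY0
        linarith only [hqc, hs1, u1]
      have b6 : C * w.re * (1 - χ ^ 2 * m ^ 2) ≤ C * w.re * Real.cos Q.im :=
        mul_le_mul_of_nonneg_left (by linarith only [c1, hs]) (by positivity)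
      obtain ⟨n1, n2⟩ := hn2 m hk g3
      have b7 : c0 * (X * m) ≤ c0 * (κ * w.re * m) :=
        mul_le_mul_of_nonneg_left (mul_le_mul_of_nonneg_right hXα hk) hc00
      set D := C * (1 - χ ^ 2 * m ^ 2)
      have b8 : κ * w.re * (1 - (4 / 10 - c0) * m) + Y * (m - 66 / 100 * c0) ≤ w.re * D := by
        have t1 := mul_nonneg (sub_nonneg.2 hYr) (sub_nonneg.2 n1)
        have t2 := mul_nonneg hY0 (sub_nonneg.2 n2)
        have hlr : 0 < lam * r := by positivity
        have e3 : (lam * r) * (w.re * D - (κ * w.re * (1 - (4 / 10 - c0) * m) + Y * (m - 66 / 100 * c0))) =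
            (lam * r * w.re - Y) * (D - κ * (1 - (4 / 10 - c0) * m)) +
            Y * (D - (κ * (1 - (4 / 10 - c0) * m) + lam * r * (m - 66 / 100 * c0))) := by ring
        have t3 : 0 ≤ (lam * r) * (w.re * D - (κ * w.re * (1 - (4 / 10 - c0) * m) + Y * (m - 66 / 100 * c0))) := by
          rw [e3]; linarith only [t1, t2]
        have := nonneg_of_mul_nonneg_right t3 hlr
        linarith only [hRe, b3, b4, b5, b6, b7, this]
      linarith only [hRe, b3, b4, b5, b6, b7, b8]
    linarith only [hp, hcc, hq, mul_le_mul_of_nonneg_right hcc hq.le]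

end side

/-! ### the two constants -/

section
variable {B : ℕ} {x y : SK} {w Q Q' : ℂ}

lemma Rg.Xc (R : Rg B x y w Q Q') :
    (Complex.tan w).re * Real.cos w.re ≤ Real.sin w.re := by
  have hc := R.cos_pos
  have h4 := (tan_parts hc).1
  have hT0 := tan_re_nonneg R.h0.le R.h1
  have : (Complex.tan w).re * Real.cos w.re * Real.cos w.re ≤ Real.sin w.re * Real.cos w.re := by
    rw [← h4]
    nlinarith only [hT0, mul_nonneg hT0 (sq_nonneg (Real.sinh w.im))]
  exact le_of_mul_le_mul_right this hc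

lemma Rg.Xk (R : Rg B x y w Q Q') {A κ : ℝ} (hA : w.re ≤ A) (hA1 : A ≤ 1)
    (hn : ∀ u : ℝ, 0 ≤ u → u ≤ A ^ 2 → 1 - u / 6 + u ^ 2 / 100 ≤ κ * (1 - u / 2)) :
    (Complex.tan w).re ≤ κ * w.re := by
  have h0 := R.h0
  have hc := R.cos_pos
  have h1 := R.Xc
  have a2 := (abs_le.1 (Real.sin_bound (x := w.re) (by rw [abs_of_pos h0]; linarith only [hA, hA1]))).2
  rw [abs_of_pos h0] at a2
  have a3 := Real.one_sub_sq_div_two_le_cos (x := w.re)
  have a4 := hn (w.re ^ 2) (sq_nonneg _) (pow_le_pow_left₀ h0.le hA 2)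
  have hu1 : w.re ^ 2 ≤ 1 := by nlinarith only [hA, hA1, h0]
  have hκ : 0 ≤ κ := by
    by_contra hcon
    push Not at hcon
    have : 0 ≤ w.re ^ 2 := sq_nonneg _
    nlinarith only [a4, hu1, hcon]
  have a5 : Real.sin w.re ≤ κ * w.re * Real.cos w.re := by
    calc Real.sin w.re ≤ w.re * (1 - w.re ^ 2 / 6 + (w.re ^ 2) ^ 2 / 100) := by linarith only [a2]
      _ ≤ w.re * (κ * (1 - w.re ^ 2 / 2)) := mul_le_mul_of_nonneg_left a4 h0.le
      _ = κ * w.re * (1 - w.re ^ 2 / 2) := by ring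
      _ ≤ κ * w.re * Real.cos w.re := mul_le_mul_of_nonneg_left a3 (by positivity)
  exact le_of_mul_le_mul_right (h1.trans a5) hc

lemma Rg.Yl (R : Rg B x y w Q Q') {S lam : ℝ} (hS : Real.sin w.re ^ 2 ≤ S) (hS1 : S ≤ 1 / 2)
    (hη : -w.im ≤ 14 / 100) (hl : 102 / 100 ≤ lam * (1 - S)) :
    -(Complex.tan w).im ≤ lam * -w.im := by
  have hi := R.im_nonpos
  have h1 := (tan_parts R.cos_pos).2
  have h3 := Real.sin_sq_add_cos_sq w.re
  have hTi := tan_im_nonpos (t := .t8) R.mem R.h0 R.h1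
  have b1 := sinh_le_lin (η := -w.im) (by linarith only [hi]) (by linarith only [hη])
  have b0 : 0 ≤ Real.sinh (-w.im) := Real.sinh_nonneg_iff.2 (by linarith only [hi])
  have b2 := cosh_le (r := -w.im)
  have b3 : Real.sinh (-w.im) ^ 2 ≤ (1007 / 1000 * (14 / 100)) ^ 2 :=
    pow_le_pow_left₀ b0 (by linarith only [hη, b1]) 2
  have b4 : Real.sinh (-w.im) * Real.cosh (-w.im) ≤ 102 / 100 * -w.im := by
    calc _ ≤ (1007 / 1000 * -w.im) * (101 / 100) :=
          mul_le_mul b1 (by linarith only [b2, b3]) (Real.cosh_pos _).le (by linarith only [hi])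
      _ ≤ _ := by linarith only [hi]
  rw [Real.sinh_neg, Real.cosh_neg] at b4
  have b5 : -(Complex.tan w).im * (1 - S) ≤ 102 / 100 * -w.im := by
    have : -(Complex.tan w).im * (1 - S) ≤
        -(Complex.tan w).im * (Real.cos w.re ^ 2 + Real.sinh w.im ^ 2) := by
      apply mul_le_mul_of_nonneg_left _ (by linarith only [hTi])
      have := sq_nonneg (Real.sinh w.im)
      linarith only [hS, h3, this]
    linarith only [h1, b4, this]
  have b6 : -(Complex.tan w).im * (1 - S) ≤ lam * -w.im * (1 - S) := by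
    have := mul_le_mul_of_nonneg_right hl (by linarith only [hi] : 0 ≤ -w.im)
    linarith only [b5, this]
  exact le_of_mul_le_mul_right b6 (by linarith only [hS1])

lemma Rg.rho_of (R : Rg B x y w Q Q') {d : ℕ} (hd : 0 < d) (hB : (B : ℝ) = d + nS x + nS y)
    {C n a b : ℝ} (hn : a + b = n)
    (h1 : (Q.re - nS x * -w.im) + (n * C / d) * (Q.im - nS x * w.re) ≤ a * (C * w.re))
    (h2 : (Q'.re - nS y * -w.im) + (n * C / d) * (Q'.im - nS y * w.re) ≤ b * (C * w.re)) :
    (d : ℝ) ^ 2 * -w.im ≤ n * C * Real.pi := by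
  have hd' : (0 : ℝ) < d := by exact_mod_cast hd
  have c1 := R.re_eq
  have c2 := R.im_eq
  have e1 : (d : ℝ) * -w.im = (Q.re - nS x * -w.im) + (Q'.re - nS y * -w.im) := by
    rw [hB] at c2; linarith only [c2]
  have e2 : (d : ℝ) * w.re - Real.pi = (Q.im - nS x * w.re) + (Q'.im - nS y * w.re) := by
    rw [hB] at c1; linarith only [c1]
  have e3 : (d : ℝ) * -w.im + (n * C / d) * (d * w.re - Real.pi) ≤ n * (C * w.re) := by
    rw [e1, e2, ← hn]
    rw [← hn] at h1 h2
    linarith only [h1, h2]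
  have e4 : (n * C / d) * (d * w.re - Real.pi) = n * (C * w.re) - n * C * Real.pi / d := by
    field_simp
  rw [e4] at e3
  have e5 : (d : ℝ) * -w.im ≤ n * C * Real.pi / d := by linarith only [e3]
  rw [le_div_iff₀ hd'] at e5
  linarith only [e5]

end

lemma rho_ea {B : ℕ} {w Q Q' : ℂ} (R : Rg B .e .a w Q Q') {d : ℕ} (hd : 8 ≤ d)
    (hB : B = d + SK.u .e + SK.u .a) : (d : ℝ) ^ 2 * -w.im ≤ 1 * (11 / 10) * Real.pi := by
  have F := fin_ea R
  have hd' : (8 : ℝ) ≤ d := by exact_mod_cast hd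
  have hi := R.im_nonpos
  have hi2 := F.im_le
  norm_num [nE] at hi2
  have hXα := R.Xk (κ := (1056 / 1000)) F.re_le (by norm_num) (fun u h0 h1 => by linarith only [h1, h0, mul_nonneg h0 (sub_nonneg.2 h1)])
  have hYη := R.Yl (lam := (1196 / 1000)) F.sn (by norm_num) (by linarith only [hi2]) (by norm_num)
  have hc0 : 0 ≤ 1 * (11 / 10) / (d : ℝ) := by positivity
  have hc1 : 1 * (11 / 10) / (d : ℝ) ≤ (11 / 80) := by
    rw [div_le_iff₀ (by linarith only [hd'])]
    linarith only [hd']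
  have hQ : Q = 0 := R.sd
  have l1 : Q.re + 1 * (11 / 10) / (d : ℝ) * Q.im ≤ 0 := by rw [hQ]; simp
  have l2 := side_A (C := (11 / 10)) R.sd' R.mem R.h0 R.h1 hXα F.tr F.ti (by norm_num) hc0
      (fun m h0 h1 => by linarith only [h0, h1, mul_nonneg h0 (sub_nonneg.2 h1)])
  refine R.rho_of (C := (11 / 10)) (n := 1) (a := 0) (b := 1) (by omega) (by rw [hB]; norm_num [nS, SK.u]) (by norm_num) ?_ ?_
  · norm_num [nS] at l1 ⊢
    linarith only [l1]
  · norm_num [nS] at l2 ⊢
    linarith only [l2]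

lemma rho_ez {B : ℕ} {w Q Q' : ℂ} (R : Rg B .e .z w Q Q') {d : ℕ} (hd : 8 ≤ d)
    (hB : B = d + SK.u .e + SK.u .z) : (d : ℝ) ^ 2 * -w.im ≤ 1 * (11 / 10) * Real.pi := by
  have F := fin_ez R
  have hd' : (8 : ℝ) ≤ d := by exact_mod_cast hd
  have hi := R.im_nonpos
  have hi2 := F.im_le
  norm_num [nE] at hi2
  have hXα := R.Xk (κ := (1062 / 1000)) F.re_le (by norm_num) (fun u h0 h1 => by linarith only [h1, h0, mul_nonneg h0 (sub_nonneg.2 h1)])
  have hYη := R.Yl (lam := (1214 / 1000)) F.sn (by norm_num) (by linarith only [hi2]) (by norm_num)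
  have hc0 : 0 ≤ 1 * (11 / 10) / (d : ℝ) := by positivity
  have hc1 : 1 * (11 / 10) / (d : ℝ) ≤ (11 / 80) := by
    rw [div_le_iff₀ (by linarith only [hd'])]
    linarith only [hd']
  have hQ : Q = 0 := R.sd
  have l1 : Q.re + 1 * (11 / 10) / (d : ℝ) * Q.im ≤ 0 := by rw [hQ]; simp
  have l2 := side_Z (C := (11 / 10)) (r := (21 / 100)) (c0 := (11 / 80)) R.sd' R.mem R.h0 R.h1 hXα F.tr hYη F.ti F.ratio
      (by norm_num) (by norm_num) (by norm_num) hc0 hc1
      (fun m h0 h1 => by linarith only [h0, mul_nonneg h0 (sub_nonneg.2 h1)])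
      (fun m h0 h1 => ⟨by linarith only [h0, h1, mul_nonneg h0 (sub_nonneg.2 h1)], by linarith only [h1, h0, mul_nonneg h0 (sub_nonneg.2 h1)]⟩)
  refine R.rho_of (C := (11 / 10)) (n := 1) (a := 0) (b := 1) (by omega) (by rw [hB]; norm_num [nS, SK.u]) (by norm_num) ?_ ?_
  · norm_num [nS] at l1 ⊢
    linarith only [l1]
  · norm_num [nS] at l2 ⊢
    linarith only [l2]

lemma rho_es {B : ℕ} {w Q Q' : ℂ} (R : Rg B .e .s w Q Q') {d : ℕ} (hd : 8 ≤ d)
    (hB : B = d + SK.u .e + SK.u .s) : (d : ℝ) ^ 2 * -w.im ≤ 1 * (11 / 10) * Real.pi := by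
  have F := fin_es R
  have hd' : (8 : ℝ) ≤ d := by exact_mod_cast hd
  have hi := R.im_nonpos
  have hi2 := F.im_le
  norm_num [nE] at hi2
  have hXα := R.Xk (κ := (1070 / 1000)) F.re_le (by norm_num) (fun u h0 h1 => by linarith only [h1, h0, mul_nonneg h0 (sub_nonneg.2 h1)])
  have hYη := R.Yl (lam := (1238 / 1000)) F.sn (by norm_num) (by linarith only [hi2]) (by norm_num)
  have hcs : 7 / 10 ≤ Real.cos w.re := by
    have h1 := Real.sin_sq_add_cos_sq w.re
    have h2 := F.sn
    have h3 := R.cos_pos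
    nlinarith only [h1, h2, h3]
  have hc0 : 0 ≤ 1 * (11 / 10) / (d : ℝ) := by positivity
  have hc1 : 1 * (11 / 10) / (d : ℝ) ≤ (11 / 80) := by
    rw [div_le_iff₀ (by linarith only [hd'])]
    linarith only [hd']
  have hQ : Q = 0 := R.sd
  have l1 : Q.re + 1 * (11 / 10) / (d : ℝ) * Q.im ≤ 0 := by rw [hQ]; simp
  have l2 := side_S (C := (11 / 10)) (r := (21 / 100)) R.sd' R.mem R.h0 R.h1 R.Xc hcs hXα F.tr hYη F.ti (by linarith only [hi]) F.ratio
      (by norm_num) (by norm_num) hc0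
      (fun m h0 h1 => ⟨by linarith only [h0, h1, mul_nonneg h0 (sub_nonneg.2 h1)], by linarith only [h1, h0, mul_nonneg h0 (sub_nonneg.2 h1)]⟩)
  refine R.rho_of (C := (11 / 10)) (n := 1) (a := 0) (b := 1) (by omega) (by rw [hB]; norm_num [nS, SK.u]) (by norm_num) ?_ ?_
  · norm_num [nS] at l1 ⊢
    linarith only [l1]
  · norm_num [nS] at l2 ⊢
    linarith only [l2]

lemma rho_aa {B : ℕ} {w Q Q' : ℂ} (R : Rg B .a .a w Q Q') {d : ℕ} (hd : 8 ≤ d)
    (hB : B = d + SK.u .a + SK.u .a) : (d : ℝ) ^ 2 * -w.im ≤ 2 * (115 / 100) * Real.pi := by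
  have F := fin_aa R
  have hd' : (8 : ℝ) ≤ d := by exact_mod_cast hd
  have hi := R.im_nonpos
  have hi2 := F.im_le
  norm_num [nE] at hi2
  have hXα := R.Xk (κ := (1056 / 1000)) F.re_le (by norm_num) (fun u h0 h1 => by linarith only [h1, h0, mul_nonneg h0 (sub_nonneg.2 h1)])
  have hYη := R.Yl (lam := (1196 / 1000)) F.sn (by norm_num) (by linarith only [hi2]) (by norm_num)
  have hc0 : 0 ≤ 2 * (115 / 100) / (d : ℝ) := by positivity
  have hc1 : 2 * (115 / 100) / (d : ℝ) ≤ (23 / 80) := by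
    rw [div_le_iff₀ (by linarith only [hd'])]
    linarith only [hd']
  have l1 := side_A (C := (115 / 100)) R.sd R.mem R.h0 R.h1 hXα F.tr F.ti (by norm_num) hc0
      (fun m h0 h1 => by linarith only [h0, h1, mul_nonneg h0 (sub_nonneg.2 h1)])
  have l2 := side_A (C := (115 / 100)) R.sd' R.mem R.h0 R.h1 hXα F.tr F.ti (by norm_num) hc0
      (fun m h0 h1 => by linarith only [h0, h1, mul_nonneg h0 (sub_nonneg.2 h1)])
  refine R.rho_of (C := (115 / 100)) (n := 2) (a := 1) (b := 1) (by omega) (by rw [hB]; norm_num [nS, SK.u]) (by norm_num) ?_ ?_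
  · norm_num [nS] at l1 ⊢
    linarith only [l1]
  · norm_num [nS] at l2 ⊢
    linarith only [l2]

lemma rho_az {B : ℕ} {w Q Q' : ℂ} (R : Rg B .a .z w Q Q') {d : ℕ} (hd : 8 ≤ d)
    (hB : B = d + SK.u .a + SK.u .z) : (d : ℝ) ^ 2 * -w.im ≤ 2 * (115 / 100) * Real.pi := by
  have F := fin_az R
  have hd' : (8 : ℝ) ≤ d := by exact_mod_cast hd
  have hi := R.im_nonpos
  have hi2 := F.im_le
  norm_num [nE] at hi2
  have hXα := R.Xk (κ := (1062 / 1000)) F.re_le (by norm_num) (fun u h0 h1 => by linarith only [h1, h0, mul_nonneg h0 (sub_nonneg.2 h1)])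
  have hYη := R.Yl (lam := (1214 / 1000)) F.sn (by norm_num) (by linarith only [hi2]) (by norm_num)
  have hc0 : 0 ≤ 2 * (115 / 100) / (d : ℝ) := by positivity
  have hc1 : 2 * (115 / 100) / (d : ℝ) ≤ (23 / 80) := by
    rw [div_le_iff₀ (by linarith only [hd'])]
    linarith only [hd']
  have l1 := side_A (C := (115 / 100)) R.sd R.mem R.h0 R.h1 hXα F.tr F.ti (by norm_num) hc0
      (fun m h0 h1 => by linarith only [h0, h1, mul_nonneg h0 (sub_nonneg.2 h1)])
  have l2 := side_Z (C := (115 / 100)) (r := (405 / 1000)) (c0 := (23 / 80)) R.sd' R.mem R.h0 R.h1 hXα F.tr hYη F.ti F.ratio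
      (by norm_num) (by norm_num) (by norm_num) hc0 hc1
      (fun m h0 h1 => by linarith only [h1, mul_nonneg h0 (sub_nonneg.2 h1)])
      (fun m h0 h1 => ⟨by linarith only [h0, h1, mul_nonneg h0 (sub_nonneg.2 h1)], by linarith only [h1, h0, mul_nonneg h0 (sub_nonneg.2 h1)]⟩)
  refine R.rho_of (C := (115 / 100)) (n := 2) (a := 1) (b := 1) (by omega) (by rw [hB]; norm_num [nS, SK.u]) (by norm_num) ?_ ?_
  · norm_num [nS] at l1 ⊢
    linarith only [l1]
  · norm_num [nS] at l2 ⊢
    linarith only [l2]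

lemma rho_zz {B : ℕ} {w Q Q' : ℂ} (R : Rg B .z .z w Q Q') {d : ℕ} (hd : 8 ≤ d)
    (hB : B = d + SK.u .z + SK.u .z) : (d : ℝ) ^ 2 * -w.im ≤ 2 * (115 / 100) * Real.pi := by
  have F := fin_zz R
  have hd' : (8 : ℝ) ≤ d := by exact_mod_cast hd
  have hi := R.im_nonpos
  have hi2 := F.im_le
  norm_num [nE] at hi2
  have hXα := R.Xk (κ := (1070 / 1000)) F.re_le (by norm_num) (fun u h0 h1 => by linarith only [h1, h0, mul_nonneg h0 (sub_nonneg.2 h1)])
  have hYη := R.Yl (lam := (1236 / 1000)) F.sn (by norm_num) (by linarith only [hi2]) (by norm_num)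
  have hc0 : 0 ≤ 2 * (115 / 100) / (d : ℝ) := by positivity
  have hc1 : 2 * (115 / 100) / (d : ℝ) ≤ (23 / 80) := by
    rw [div_le_iff₀ (by linarith only [hd'])]
    linarith only [hd']
  have l1 := side_Z (C := (115 / 100)) (r := (405 / 1000)) (c0 := (23 / 80)) R.sd R.mem R.h0 R.h1 hXα F.tr hYη F.ti F.ratio
      (by norm_num) (by norm_num) (by norm_num) hc0 hc1
      (fun m h0 h1 => by linarith only [h1, mul_nonneg h0 (sub_nonneg.2 h1)])
      (fun m h0 h1 => ⟨by linarith only [h0, h1, mul_nonneg h0 (sub_nonneg.2 h1)], by linarith only [h1, h0, mul_nonneg h0 (sub_nonneg.2 h1)]⟩)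
  have l2 := side_Z (C := (115 / 100)) (r := (405 / 1000)) (c0 := (23 / 80)) R.sd' R.mem R.h0 R.h1 hXα F.tr hYη F.ti F.ratio
      (by norm_num) (by norm_num) (by norm_num) hc0 hc1
      (fun m h0 h1 => by linarith only [h1, mul_nonneg h0 (sub_nonneg.2 h1)])
      (fun m h0 h1 => ⟨by linarith only [h0, h1, mul_nonneg h0 (sub_nonneg.2 h1)], by linarith only [h1, h0, mul_nonneg h0 (sub_nonneg.2 h1)]⟩)
  refine R.rho_of (C := (115 / 100)) (n := 2) (a := 1) (b := 1) (by omega) (by rw [hB]; norm_num [nS, SK.u]) (by norm_num) ?_ ?_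
  · norm_num [nS] at l1 ⊢
    linarith only [l1]
  · norm_num [nS] at l2 ⊢
    linarith only [l2]

lemma rho_as {B : ℕ} {w Q Q' : ℂ} (R : Rg B .a .s w Q Q') {d : ℕ} (hd : 8 ≤ d)
    (hB : B = d + SK.u .a + SK.u .s) : (d : ℝ) ^ 2 * -w.im ≤ 2 * (115 / 100) * Real.pi := by
  have F := fin_as R
  have hd' : (8 : ℝ) ≤ d := by exact_mod_cast hd
  have hi := R.im_nonpos
  have hi2 := F.im_le
  norm_num [nE] at hi2
  have hXα := R.Xk (κ := (1070 / 1000)) F.re_le (by norm_num) (fun u h0 h1 => by linarith only [h1, h0, mul_nonneg h0 (sub_nonneg.2 h1)])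
  have hYη := R.Yl (lam := (1238 / 1000)) F.sn (by norm_num) (by linarith only [hi2]) (by norm_num)
  have hcs : 7 / 10 ≤ Real.cos w.re := by
    have h1 := Real.sin_sq_add_cos_sq w.re
    have h2 := F.sn
    have h3 := R.cos_pos
    nlinarith only [h1, h2, h3]
  have hc0 : 0 ≤ 2 * (115 / 100) / (d : ℝ) := by positivity
  have hc1 : 2 * (115 / 100) / (d : ℝ) ≤ (23 / 80) := by
    rw [div_le_iff₀ (by linarith only [hd'])]
    linarith only [hd']
  have l1 := side_A (C := (115 / 100)) R.sd R.mem R.h0 R.h1 hXα F.tr F.ti (by norm_num) hc0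
      (fun m h0 h1 => by linarith only [h1, h0, mul_nonneg h0 (sub_nonneg.2 h1)])
  have l2 := side_S (C := (115 / 100)) (r := (405 / 1000)) R.sd' R.mem R.h0 R.h1 R.Xc hcs hXα F.tr hYη F.ti (by linarith only [hi]) F.ratio
      (by norm_num) (by norm_num) hc0
      (fun m h0 h1 => ⟨by linarith only [h0, h1, mul_nonneg h0 (sub_nonneg.2 h1)], by linarith only [h1, h0, mul_nonneg h0 (sub_nonneg.2 h1)]⟩)
  refine R.rho_of (C := (115 / 100)) (n := 2) (a := 1) (b := 1) (by omega) (by rw [hB]; norm_num [nS, SK.u]) (by norm_num) ?_ ?_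
  · norm_num [nS] at l1 ⊢
    linarith only [l1]
  · norm_num [nS] at l2 ⊢
    linarith only [l2]

lemma rho_zs {B : ℕ} {w Q Q' : ℂ} (R : Rg B .z .s w Q Q') {d : ℕ} (hd : 8 ≤ d)
    (hB : B = d + SK.u .z + SK.u .s) : (d : ℝ) ^ 2 * -w.im ≤ 2 * (115 / 100) * Real.pi := by
  have F := fin_zs R
  have hd' : (8 : ℝ) ≤ d := by exact_mod_cast hd
  have hi := R.im_nonpos
  have hi2 := F.im_le
  norm_num [nE] at hi2
  have hXα := R.Xk (κ := (1078 / 1000)) F.re_le (by norm_num) (fun u h0 h1 => by linarith only [h1, h0, mul_nonneg h0 (sub_nonneg.2 h1)])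
  have hYη := R.Yl (lam := (1267 / 1000)) F.sn (by norm_num) (by linarith only [hi2]) (by norm_num)
  have hcs : 7 / 10 ≤ Real.cos w.re := by
    have h1 := Real.sin_sq_add_cos_sq w.re
    have h2 := F.sn
    have h3 := R.cos_pos
    nlinarith only [h1, h2, h3]
  have hc0 : 0 ≤ 2 * (115 / 100) / (d : ℝ) := by positivity
  have hc1 : 2 * (115 / 100) / (d : ℝ) ≤ (23 / 80) := by
    rw [div_le_iff₀ (by linarith only [hd'])]
    linarith only [hd']
  have l1 := side_Z (C := (115 / 100)) (r := (405 / 1000)) (c0 := (23 / 80)) R.sd R.mem R.h0 R.h1 hXα F.tr hYη F.ti F.ratio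
      (by norm_num) (by norm_num) (by norm_num) hc0 hc1
      (fun m h0 h1 => by linarith only [h1, mul_nonneg h0 (sub_nonneg.2 h1)])
      (fun m h0 h1 => ⟨by linarith only [h0, h1, mul_nonneg h0 (sub_nonneg.2 h1)], by linarith only [h1, h0, mul_nonneg h0 (sub_nonneg.2 h1)]⟩)
  have l2 := side_S (C := (115 / 100)) (r := (405 / 1000)) R.sd' R.mem R.h0 R.h1 R.Xc hcs hXα F.tr hYη F.ti (by linarith only [hi]) F.ratio
      (by norm_num) (by norm_num) hc0
      (fun m h0 h1 => ⟨by linarith only [h0, h1, mul_nonneg h0 (sub_nonneg.2 h1)], by linarith only [h1, h0, mul_nonneg h0 (sub_nonneg.2 h1)]⟩)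
  refine R.rho_of (C := (115 / 100)) (n := 2) (a := 1) (b := 1) (by omega) (by rw [hB]; norm_num [nS, SK.u]) (by norm_num) ?_ ?_
  · norm_num [nS] at l1 ⊢
    linarith only [l1]
  · norm_num [nS] at l2 ⊢
    linarith only [l2]

lemma rho_ss {B : ℕ} {w Q Q' : ℂ} (R : Rg B .s .s w Q Q') {d : ℕ} (hd : 8 ≤ d)
    (hB : B = d + SK.u .s + SK.u .s) : (d : ℝ) ^ 2 * -w.im ≤ 2 * (115 / 100) * Real.pi := by
  have F := fin_ss R
  have hd' : (8 : ℝ) ≤ d := by exact_mod_cast hd
  have hi := R.im_nonpos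
  have hi2 := F.im_le
  norm_num [nE] at hi2
  have hXα := R.Xk (κ := (1090 / 1000)) F.re_le (by norm_num) (fun u h0 h1 => by linarith only [h1, h0, mul_nonneg h0 (sub_nonneg.2 h1)])
  have hYη := R.Yl (lam := (1308 / 1000)) F.sn (by norm_num) (by linarith only [hi2]) (by norm_num)
  have hcs : 7 / 10 ≤ Real.cos w.re := by
    have h1 := Real.sin_sq_add_cos_sq w.re
    have h2 := F.sn
    have h3 := R.cos_pos
    nlinarith only [h1, h2, h3]
  have hc0 : 0 ≤ 2 * (115 / 100) / (d : ℝ) := by positivity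
  have hc1 : 2 * (115 / 100) / (d : ℝ) ≤ (23 / 80) := by
    rw [div_le_iff₀ (by linarith only [hd'])]
    linarith only [hd']
  have l1 := side_S (C := (115 / 100)) (r := (405 / 1000)) R.sd R.mem R.h0 R.h1 R.Xc hcs hXα F.tr hYη F.ti (by linarith only [hi]) F.ratio
      (by norm_num) (by norm_num) hc0
      (fun m h0 h1 => ⟨by linarith only [h0, h1, mul_nonneg h0 (sub_nonneg.2 h1)], by linarith only [h1, h0, mul_nonneg h0 (sub_nonneg.2 h1)]⟩)
  have l2 := side_S (C := (115 / 100)) (r := (405 / 1000)) R.sd' R.mem R.h0 R.h1 R.Xc hcs hXα F.tr hYη F.ti (by linarith only [hi]) F.ratio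
      (by norm_num) (by norm_num) hc0
      (fun m h0 h1 => ⟨by linarith only [h0, h1, mul_nonneg h0 (sub_nonneg.2 h1)], by linarith only [h1, h0, mul_nonneg h0 (sub_nonneg.2 h1)]⟩)
  refine R.rho_of (C := (115 / 100)) (n := 2) (a := 1) (b := 1) (by omega) (by rw [hB]; norm_num [nS, SK.u]) (by norm_num) ?_ ?_
  · norm_num [nS] at l1 ⊢
    linarith only [l1]
  · norm_num [nS] at l2 ⊢
    linarith only [l2]

end Z8

end Pool.Agent.Work.MP_b30479_gtS.G2

end

section

/-!
# Rings with at least eight crossings: the box of the ring variable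
-/

namespace Pool.Agent.Work.MP_b30479_gtS.G2

open Complex Set SQ KB
open scoped ComplexConjugate

namespace Z8

open SR

section
variable {B : ℕ} {x y : SK} {w Q Q' : ℂ}

/-- bounds for `B Re w` -/
lemma Rg.reB (R : Rg B x y w Q Q') {χ ψ θ φ μ ν : ℝ} (hX : (Complex.tan w).re ≤ χ)
    (hY : -(Complex.tan w).im ≤ ψ)
    (h0 : 0 ≤ θ) (h1 : θ ≤ 1)
    (h3 : 676 / 1000 * χ ≤ θ - θ ^ 3 / 6) (g0 : 0 ≤ φ) (g1 : φ ≤ 1)
    (g3 : 33 / 100 * χ ≤ φ - φ ^ 3 / 6)
    (hψ : ψ ≤ 4 * χ) (hμ0 : 0 ≤ μ) (hμ1 : μ ≤ 1)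
    (hμ : 676 / 1000 * χ + 831 / 1000 * ψ ≤ μ - μ ^ 3 / 6) (hν0 : 0 ≤ ν) (hν1 : ν ≤ 1)
    (hν : ψ ≤ ν - ν ^ 3 / 6) :
    (B : ℝ) * w.re ≤ Real.pi + ((nS x + nS y) * θ + (nZ x + nZ y) * φ) ∧
      Real.pi - ((nA x + nA y) * μ + (nS x + nS y + (nZ x + nZ y)) * ν) ≤ B * w.re := by
  have f1 := R.sd.fa (t := .t8) rfl R.mem R.h0 R.h1
  have f2 := R.sd'.fa (t := .t8) rfl R.mem R.h0 R.h1
  have b1 := fa_im_le f1 h0 h1 (by linarith only [hX, h3]) g0 g1 (by linarith only [hX, g3])
  have b2 := fa_im_le f2 h0 h1 (by linarith only [hX, h3]) g0 g1 (by linarith only [hX, g3])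
  have c1 := R.sd.ge (t := .t8) rfl R.mem R.h0 R.h1 hX hY hψ hμ0 hμ1 hμ hν0 hν1 hν
  have c2 := R.sd'.ge (t := .t8) rfl R.mem R.h0 R.h1 hX hY hψ hμ0 hμ1 hμ hν0 hν1 hν
  rw [R.re_eq]
  constructor <;> linarith only [b1, b2, c1, c2]

/-- the real part at a side with an unsplit neighbour of equal sign -/
lemma re_Z (h : Sd .z w Q) (hm : Complex.cos w ∈ Poly (vt .t8)) (h0 : 0 < w.re)
    (h1 : w.re ≤ 3 / 2) {τ v : ℝ} (hT : (Complex.tan w).re ^ 2 + (Complex.tan w).im ^ 2 ≤ τ)
    (hv : 0 ≤ v) (h2 : τ < (v + v ^ 3 / 6) ^ 2) : Q.re ≤ v := by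
  obtain ⟨k, hH, s1, s2, g1, g2, g3, g4, g5, g6⟩ := h.parts (t := .t8) rfl hm h0 h1 (by decide)
  have hk := (g5 (by decide)).2
  obtain ⟨z1, z2⟩ := g6 rfl
  rw [if_pos rfl, abs_of_nonneg hk] at g3
  have e1 : Real.sinh Q.re ^ 2 + Real.sin Q.im ^ 2 =
      ((Complex.tan w).re ^ 2 + (Complex.tan w).im ^ 2) * (k.re ^ 2 + k.im ^ 2) := by
    have e2 : ((Complex.tan w).re ^ 2 + (Complex.tan w).im ^ 2) * (k.re ^ 2 + k.im ^ 2) =
        (Complex.tan w * k).re ^ 2 + (Complex.tan w * k).im ^ 2 := by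
      rw [Complex.mul_re, Complex.mul_im]; ring
    rw [e2, s1, s2]
    have a1 := Real.cosh_sq Q.re
    have a2 := Real.sin_sq_add_cos_sq Q.im
    rw [mul_pow, mul_pow, a1]
    linear_combination (-(Real.sinh Q.re ^ 2)) * a2
  have e3 : k.re ^ 2 + k.im ^ 2 ≤ 1 := by nlinarith only [z2, g1, hk, g3]
  have e4 : Real.sinh Q.re ^ 2 ≤ τ := by
    have a1 : 0 ≤ (Complex.tan w).re ^ 2 + (Complex.tan w).im ^ 2 := by positivity
    have a2 := mul_le_mul_of_nonneg_left e3 a1
    have a3 := sq_nonneg (Real.sin Q.im)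
    linarith only [hT, e1, a2, a3]
  exact (le_abs_self _).trans (le_of_sinh hv e4 h2).le

/-- bound of `|tan w|` -/
lemma Rg.tn_le (R : Rg B x y w Q Q') {A E S H τ : ℝ} (hA : w.re ≤ A) (hA1 : A ≤ 1)
    (hE : -w.im ≤ E) (hE1 : E ≤ 1)
    (hS : (A - A ^ 3 / 6 + A ^ 5 / 100) ^ 2 ≤ S) (hS2 : S ≤ 1 / 2)
    (hH : (E + E ^ 3 / 6 + E ^ 4 * (5 / 96)) ^ 2 ≤ H)
    (hτ : S + H ≤ τ * (1 - S + H)) :
    (Complex.tan w).re ^ 2 + (Complex.tan w).im ^ 2 ≤ τ := by
  have h := R.step (A := A) (E := E) (S := S) (H := H) (τ := τ) (v := 1 + |τ| * 10) (χ := 1)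
    (θ := 1) (φ := 1) hA hA1 hE hE1 hS hS2 hH hτ (by linarith only [hS2]) (by norm_num) (by positivity) ?_
    (by norm_num) (by norm_num) (by norm_num) (by norm_num) (by norm_num) (by norm_num)
  · exact h.2.2.1
  · have h1 := abs_nonneg τ
    have h2 := le_abs_self τ
    have h3 : (1 + |τ| * 10) ^ 2 ≤ (1 + |τ| * 10 + (1 + |τ| * 10) ^ 3 / 6) ^ 2 := by
      apply pow_le_pow_left₀ (by positivity)
      have : 0 ≤ (1 + |τ| * 10) ^ 3 / 6 := by positivity
      linarith only [this]
    nlinarith only [h1, h2, h3]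

end

/-- the sharper height of a ring with a split side and an unsplit side of equal sign -/
lemma im_zs {B : ℕ} {w Q Q' : ℂ} (R : Rg B .z .s w Q Q') :
    (B : ℝ) * -w.im ≤ 10050 / 10000 := by
  have F := fin_zs R
  have hB : (8 : ℝ) ≤ B := by exact_mod_cast R.B8
  have hi := R.im_nonpos
  have e1 := R.im_eq
  have f2 := R.sd'.fa (t := .t8) rfl R.mem R.h0 R.h1
  have a1 := re_Z (v := 4888 / 10000) R.sd R.mem R.h0 R.h1 F.tn (by norm_num) (by norm_num)
  have a2 := fa_re_le (v := 5209 / 10000) f2 (fun h => absurd h (by decide)) F.tn (by norm_num)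
    (by norm_num)
  norm_num [nE] at a2
  have a3 : -w.im ≤ 12622 / 100000 := by nlinarith only [hB, e1, a1, a2]
  have t := R.tn_le (A := 45543 / 100000) (E := 12622 / 100000) (S := 19350 / 100000)
    (H := 1603 / 100000) (τ := 25478 / 100000) F.re_le (by norm_num) a3 (by norm_num)
    (by norm_num) (by norm_num) (by norm_num) (by norm_num)
  have b1 := re_Z (v := 4859 / 10000) R.sd R.mem R.h0 R.h1 t (by norm_num) (by norm_num)
  have b2 := fa_re_le (v := 5178 / 10000) f2 (fun h => absurd h (by decide)) t (by norm_num)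
    (by norm_num)
  norm_num [nE] at b2
  linarith only [e1, b1, b2]

/-! ### the box of the ring variable -/

lemma zeta_re (w : ℂ) : (zeta w).re = -(w.re / Real.pi) := by
  unfold zeta
  rw [Complex.div_ofReal_re, Complex.neg_re, neg_div]

lemma zeta_im (w : ℂ) : (zeta w).im = -w.im / Real.pi := by
  unfold zeta
  rw [Complex.div_ofReal_im, Complex.neg_im]

lemma in_box {w : ℂ} {Bx : Box} (h1 : -Bx.x0 * Real.pi ≥ w.re) (h2 : -Bx.x1 * Real.pi ≤ w.re)
    (h3 : Bx.t0 = 0) (h4 : -w.im ≤ Bx.t1 * Real.pi) (h5 : 0 ≤ -w.im) : Bx.In (zeta w) := by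
  have hpi := Real.pi_pos
  unfold Box.In
  rw [zeta_re, zeta_im, h3]
  refine ⟨?_, ?_, div_nonneg h5 hpi.le, ?_⟩
  · have : w.re / Real.pi ≤ -Bx.x0 := by rw [div_le_iff₀ hpi]; exact h1
    linarith only [this]
  · have : -Bx.x1 ≤ w.re / Real.pi := by rw [le_div_iff₀ hpi]; exact h2
    linarith only [this]
  · rw [div_le_iff₀ hpi]; exact h4

lemma Rg.im_pos {B : ℕ} {x y : SK} {w Q Q' : ℂ} (R : Rg B x y w Q Q')
    (h : 0 < (Complex.cos w).im) : 0 < -w.im := by
  have hs0 : 0 < Real.sin w.re := Real.sin_pos_of_pos_of_lt_pi R.h0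
    (by linarith only [R, Real.pi_gt_three, R.h1])
  rw [(cos_parts w).2] at h
  by_contra hc
  push Not at hc
  have : 0 ≤ Real.sinh w.im := Real.sinh_nonneg_iff.2 (by linarith only [hc])
  have := mul_nonneg hs0.le this
  linarith only [h, this]

lemma zbox_big {d : ℕ} (hd : 8 ≤ d) (e : Bool) : zbox d e =
    if e then ⟨-(155 / 1000), 0, 0, 11 / 10 / (d : ℝ) ^ 2⟩
    else ⟨-(155 / 1000), 0, 0, 23 / 10 / (d : ℝ) ^ 2⟩ := by
  unfold zbox
  rw [if_neg (by omega), if_neg (by omega), if_neg (by omega), if_neg (by omega)]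

section
variable {B : ℕ} {x y : SK} {w Q Q' : ℂ}

/-- the box of a ring with the digit `d`, in terms of the two sides -/
def Bx (d : ℕ) (e : Bool) (w : ℂ) : Prop := (zbox d e).In (zeta w)

lemma bx_inner {d : ℕ} (hd : 8 ≤ d) (R : Rg B x y w Q Q') (h0 : w.re ≤ 4845 / 10000)
    (h1 : (d : ℝ) ^ 2 * -w.im ≤ 2 * (115 / 100) * Real.pi) : Bx d false w := by
  have hpi := Real.pi_gt_d2
  have hd' : (8 : ℝ) ≤ d := by exact_mod_cast hd
  have hd2 : (0 : ℝ) < (d : ℝ) ^ 2 := by positivity
  unfold Bx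
  rw [zbox_big hd]
  refine in_box ?_ ?_ rfl ?_ (by linarith only [R, R.im_nonpos])
  · norm_num; linarith only [h0, hpi]
  · norm_num; exact R.h0.le
  · show -w.im ≤ 23 / 10 / (d : ℝ) ^ 2 * Real.pi
    rw [div_mul_eq_mul_div, le_div_iff₀ hd2]
    linarith only [h1]

lemma bx_end {d : ℕ} (hd : 8 ≤ d) (R : Rg B x y w Q Q') (h0 : w.re ≤ 4845 / 10000)
    (h1 : (d : ℝ) ^ 2 * -w.im ≤ 1 * (11 / 10) * Real.pi) : Bx d true w := by
  have hpi := Real.pi_gt_d2
  have hd' : (8 : ℝ) ≤ d := by exact_mod_cast hd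
  have hd2 : (0 : ℝ) < (d : ℝ) ^ 2 := by positivity
  unfold Bx
  rw [zbox_big hd]
  refine in_box ?_ ?_ rfl ?_ (by linarith only [R, R.im_nonpos])
  · norm_num; linarith only [h0, hpi]
  · norm_num; exact R.h0.le
  · show -w.im ≤ 11 / 10 / (d : ℝ) ^ 2 * Real.pi
    rw [div_mul_eq_mul_div, le_div_iff₀ hd2]
    linarith only [h1]

end

/-- inner rings -/
theorem ring_big {B d : ℕ} {x y : SK} {w Q Q' : ℂ} (R : Rg B x y w Q Q') (hx : x ≠ .e)
    (hy : y ≠ .e) (hB : B = d + x.u + y.u) (hd : 8 ≤ d) : Bx d false w := by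
  have hR := R.symm
  have hB' : B = d + y.u + x.u := by omega
  cases x <;> cases y
  · exact absurd rfl hx
  · exact absurd rfl hx
  · exact absurd rfl hx
  · exact absurd rfl hx
  · exact absurd rfl hy
  · exact bx_inner hd R (by linarith only [R, (fin_aa R).re_le]) (rho_aa R hd hB)
  · exact bx_inner hd R (by linarith only [R, (fin_az R).re_le]) (rho_az R hd hB)
  · exact bx_inner hd R (by linarith only [R, (fin_as R).re_le]) (rho_as R hd hB)
  · exact absurd rfl hy
  · exact bx_inner hd R (by linarith only [hR, (fin_az hR).re_le]) (rho_az hR hd hB')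
  · exact bx_inner hd R (by linarith only [R, (fin_zz R).re_le]) (rho_zz R hd hB)
  · exact bx_inner hd R (by linarith only [R, (fin_zs R).re_le]) (rho_zs R hd hB)
  · exact absurd rfl hy
  · exact bx_inner hd R (by linarith only [hR, (fin_as hR).re_le]) (rho_as hR hd hB')
  · exact bx_inner hd R (by linarith only [hR, (fin_zs hR).re_le]) (rho_zs hR hd hB')
  · exact bx_inner hd R (by linarith only [R, (fin_ss R).re_le]) (rho_ss R hd hB)

/-- end rings -/
theorem end_big {B d : ℕ} {y : SK} {w Q Q' : ℂ} (R : Rg B .e y w Q Q')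
    (hy : y ≠ .e) (hB : B = d + SK.u .e + y.u) (hd : 8 ≤ d) : Bx d true w := by
  cases y
  · exact absurd rfl hy
  · exact bx_end hd R (by linarith only [R, (fin_ea R).re_le]) (rho_ea R hd hB)
  · exact bx_end hd R (by linarith only [R, (fin_ez R).re_le]) (rho_ez R hd hB)
  · exact bx_end hd R (by linarith only [R, (fin_es R).re_le]) (rho_es R hd hB)

lemma bx7_as {w Q Q' : ℂ} (R : Rg 8 .a .s w Q Q') : Bx 7 false w := by
  have hpi := Real.pi_gt_d4
  have hpi2 := Real.pi_lt_d4
  have F := fin_as R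
  have h := R.reB (θ := 3179 / 10000) (φ := 1533 / 10000) (μ := 4565 / 10000) (ν := 1545 / 10000) F.tr F.ti
    (by norm_num) (by norm_num) (by norm_num) (by norm_num) (by norm_num) (by norm_num)
    (by norm_num) (by norm_num) (by norm_num) (by norm_num) (by norm_num) (by norm_num) (by norm_num)
  have h2 := F.imB
  have h3 := F.re_le
  have h4 := R.im_nonpos
  norm_num [nS, nZ, nA, nE] at h h2
  unfold Bx zbox
  norm_num
  refine in_box ?_ ?_ rfl ?_ (by linarith only [h4])
  · norm_num; linarith only [hpi, h]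
  · norm_num; linarith only [hpi, hpi2, h]
  · norm_num; linarith only [hpi, hpi2, h2]

lemma bx7_zs {w Q Q' : ℂ} (R : Rg 8 .z .s w Q Q') : Bx 7 false w := by
  have hpi := Real.pi_gt_d4
  have hpi2 := Real.pi_lt_d4
  have F := fin_zs R
  have h := R.reB (θ := 3389 / 10000) (φ := 1631 / 10000) (μ := 4980 / 10000) (ν := 1690 / 10000) F.tr F.ti
    (by norm_num) (by norm_num) (by norm_num) (by norm_num) (by norm_num) (by norm_num)
    (by norm_num) (by norm_num) (by norm_num) (by norm_num) (by norm_num) (by norm_num) (by norm_num)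
  have h2 := im_zs R
  have h3 := F.re_le
  have h4 := R.im_nonpos
  norm_num [nS, nZ, nA, nE] at h h2
  unfold Bx zbox
  norm_num
  refine in_box ?_ ?_ rfl ?_ (by linarith only [h4])
  · norm_num; linarith only [hpi, hpi2, h3]
  · norm_num; linarith only [hpi, hpi2, h]
  · norm_num; linarith only [hpi, hpi2, h2]

lemma bx7_ss {w Q Q' : ℂ} (R : Rg 9 .s .s w Q Q') : Bx 7 false w := by
  have hpi := Real.pi_gt_d4
  have hpi2 := Real.pi_lt_d4
  have F := fin_ss R
  have h := R.reB (θ := 3671 / 10000) (φ := 1762 / 10000) (μ := 5500 / 10000) (ν := 1894 / 10000) F.tr F.ti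
    (by norm_num) (by norm_num) (by norm_num) (by norm_num) (by norm_num) (by norm_num)
    (by norm_num) (by norm_num) (by norm_num) (by norm_num) (by norm_num) (by norm_num) (by norm_num)
  have h2 := F.imB
  have h3 := F.re_le
  have h4 := R.im_nonpos
  norm_num [nS, nZ, nA, nE] at h h2
  unfold Bx zbox
  norm_num
  refine in_box ?_ ?_ rfl ?_ (by linarith only [h4])
  · norm_num; linarith only [hpi, hpi2, h]
  · norm_num; linarith only [hpi, hpi2, h]
  · norm_num; linarith only [hpi, hpi2, h2]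

lemma bx7_es {w Q Q' : ℂ} (R : Rg 8 .e .s w Q Q') : Bx 7 true w := by
  have hpi := Real.pi_gt_d4
  have hpi2 := Real.pi_lt_d4
  have F := fin_es R
  have h := R.reB (θ := 3179 / 10000) (φ := 1533 / 10000) (μ := 4565 / 10000) (ν := 1545 / 10000) F.tr F.ti
    (by norm_num) (by norm_num) (by norm_num) (by norm_num) (by norm_num) (by norm_num)
    (by norm_num) (by norm_num) (by norm_num) (by norm_num) (by norm_num) (by norm_num) (by norm_num)
  have h2 := F.imB
  have h3 := F.re_le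
  have h4 := R.im_nonpos
  norm_num [nS, nZ, nA, nE] at h h2
  unfold Bx zbox
  norm_num
  refine in_box ?_ ?_ rfl ?_ (by linarith only [h4])
  · norm_num; linarith only [hpi, h]
  · norm_num; linarith only [hpi, hpi2, h]
  · norm_num; linarith only [hpi, hpi2, h2]

lemma bx6_ss {w Q Q' : ℂ} (R : Rg 8 .s .s w Q Q') : Bx 6 false w := by
  have hpi := Real.pi_gt_d4
  have hpi2 := Real.pi_lt_d4
  have F := fin_ss R
  have h := R.reB (θ := 3671 / 10000) (φ := 1762 / 10000) (μ := 5500 / 10000) (ν := 1894 / 10000) F.tr F.ti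
    (by norm_num) (by norm_num) (by norm_num) (by norm_num) (by norm_num) (by norm_num)
    (by norm_num) (by norm_num) (by norm_num) (by norm_num) (by norm_num) (by norm_num) (by norm_num)
  have h2 := F.imB
  have h3 := F.re_le
  have h4 := R.im_nonpos
  norm_num [nS, nZ, nA, nE] at h h2
  unfold Bx zbox
  norm_num
  refine in_box ?_ ?_ rfl ?_ (by linarith only [h4])
  · norm_num; linarith only [hpi, hpi2, h3]
  · norm_num; linarith only [hpi, hpi2, h]
  · norm_num; linarith only [hpi, hpi2, h2]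

end Z8

namespace SR

open Z8

/-- the box of the variable of an inner ring with at least eight crossings -/
theorem ring8 {K : KFam} (hK : K.Le K0) {d : ℕ} {l r : SK} {dl : ℕ} {ll : SK} {dr : ℕ} {rr : SK}
    {w kl kr : ℂ} (h : RDt K d l r dl ll dr rr w kl kr) (h8 : 8 ≤ crs d l r) :
    (zbox d false).In (zeta w) ∧ 0 < (zeta w).im := by
  have R := rg_of (h.mono hK) h8
  have hi := R.im_pos (K0_im (h.mono hK).right.mem h8)
  have hl := h.left.ok.ne
  have hr := h.right.ok.ne
  refine ⟨?_, by rw [zeta_im]; exact div_pos hi Real.pi_pos⟩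
  by_cases hd : 8 ≤ d
  · exact ring_big R hl hr rfl hd
  · have hR := R.symm
    unfold crs at h8 R hR
    cases l <;> cases r <;> simp only [SK.u] at h8 R hR
    all_goals first
      | exact absurd rfl hl
      | exact absurd rfl hr
      | (exfalso; omega)
      | skip
    · obtain rfl : d = 7 := by omega
      exact bx7_as R
    · obtain rfl : d = 7 := by omega
      exact bx7_zs R
    · obtain rfl : d = 7 := by omega
      exact bx7_as hR
    · obtain rfl : d = 7 := by omega
      exact bx7_zs hR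
    · obtain rfl | rfl : d = 7 ∨ d = 6 := by omega
      · exact bx7_ss R
      · exact bx6_ss R

/-- the box of the variable of an end ring with at least eight crossings -/
theorem end8 {K : KFam} (hK : K.Le K0) {d : ℕ} {r : SK} {dr : ℕ} {rr : SK}
    {w kr : ℂ} (h : RDe K d r dr rr w kr) (h8 : 8 ≤ crs d .e r) :
    (zbox d true).In (zeta w) ∧ 0 < (zeta w).im := by
  have R := rge_of (h.mono hK) h8
  have hi := R.im_pos (K0_im (h.mono hK).right.mem h8)
  have hr := h.right.ok.ne
  refine ⟨?_, by rw [zeta_im]; exact div_pos hi Real.pi_pos⟩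
  by_cases hd : 8 ≤ d
  · exact end_big R hr rfl hd
  · unfold crs at h8 R
    cases r <;> simp only [SK.u] at h8 R
    all_goals first
      | exact absurd rfl hr
      | (exfalso; omega)
      | skip
    obtain rfl : d = 7 := by omega
    exact bx7_es R

end SR

end Pool.Agent.Work.MP_b30479_gtS.G2

end
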