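import Pool.Agent.Work.MP_b30479_gt.TBS.G2.RngA
import Pool.Agent.Work.MP_b30479_gt.TBS.G2.R3P
import Pool.Agent.Work.MP_b30479_gt.TBS.G2.Num.RF
import Pool.Agent.Work.MP_b30479_gt.TBS.NumU.Tree

section

/-!
# Tails at rings: monotonicity in a real ring variable

* `pair_anti`, `pair_mono`: `s ↦ UU (w + 1/2 + s) + UU (w + 1/2 - s)` on `[0, 1/2]`;
* `fR_real_le_zero`: `fR w s ≤ fR w 0` for `0 ≤ Re w ≤ 1/2`;
* `fR_tail_nonpos`: `fR x s ≤ 0` for real `x ∈ [1/2, 1]`.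
-/

namespace Pool.Agent.Work.MP_b30479_gtS.G2

open Finset VOL Filter Topology

/-- the pair of factors with a real ring variable -/
noncomputable def pr2 (x y s : ℝ) : ℝ := UU ⟨x + 1 / 2 + s, y⟩ + UU ⟨x + 1 / 2 - s, y⟩

theorem hasDerivAt_UU_hor {x y : ℝ} (hy : y ≠ 0) (e s : ℝ) :
    HasDerivAt (fun s : ℝ => UU ⟨x + e * s, y⟩) (e * LL ⟨x + e * s, y⟩) s := by
  have hg : HasDerivAt (fun s : ℝ => (⟨x + e * s, y⟩ : ℂ)) (e : ℂ) s := by
    have h1 : HasDerivAt (fun s : ℝ => ((⟨x, y⟩ : ℂ) + (e : ℂ) * (s : ℂ))) ((e : ℂ) * 1) s :=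
      ((Complex.ofRealCLM.hasDerivAt (x := s)).const_mul (e : ℂ)).const_add _
    rw [mul_one] at h1
    refine h1.congr_of_eventuallyEq (Eventually.of_forall fun r => ?_)
    apply Complex.ext <;> simp
  have h2 := hasDerivAt_UU_im hg (by exact hy)
  refine h2.congr_deriv ?_
  simp

theorem hasDerivAt_pr2 {x y : ℝ} (hy : y ≠ 0) (s : ℝ) :
    HasDerivAt (pr2 x y) (LL ⟨x + 1 / 2 + s, y⟩ - LL ⟨x + 1 / 2 - s, y⟩) s := by
  have h1 := hasDerivAt_UU_hor (x := x + 1 / 2) hy 1 s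
  have h2 := hasDerivAt_UU_hor (x := x + 1 / 2) hy (-1) s
  have h3 := h1.add h2
  have e1 : (fun s : ℝ => UU ⟨x + 1 / 2 + 1 * s, y⟩ + UU ⟨x + 1 / 2 + -1 * s, y⟩) = pr2 x y := by
    funext r
    unfold pr2
    rw [one_mul, show x + 1 / 2 + -1 * r = x + 1 / 2 - r by ring]
  have e2 : 1 * LL ⟨x + 1 / 2 + 1 * s, y⟩ + -1 * LL ⟨x + 1 / 2 + -1 * s, y⟩ =
      LL ⟨x + 1 / 2 + s, y⟩ - LL ⟨x + 1 / 2 - s, y⟩ := by
    rw [one_mul, show x + 1 / 2 + -1 * s = x + 1 / 2 - s by ring]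
    ring
  rw [← e1, ← e2]
  exact h3

/-- comparison of the two derivatives -/
theorem LL_pair {x y s : ℝ} (hy : y ≠ 0) (h : 0 ≤ Real.sin (2 * Real.pi * x) * Real.sin (2 * Real.pi * s)) :
    LL ⟨x + 1 / 2 + s, y⟩ ≤ LL ⟨x + 1 / 2 - s, y⟩ := by
  rw [LL_eq', LL_eq']
  simp only
  have e1 : Real.cos (2 * Real.pi * (x + 1 / 2 + s)) =
      -(Real.cos (2 * Real.pi * x) * Real.cos (2 * Real.pi * s) -
        Real.sin (2 * Real.pi * x) * Real.sin (2 * Real.pi * s)) := by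
    rw [show 2 * Real.pi * (x + 1 / 2 + s) = 2 * Real.pi * x + 2 * Real.pi * s + Real.pi by ring,
      Real.cos_add_pi, Real.cos_add]
  have e2 : Real.cos (2 * Real.pi * (x + 1 / 2 - s)) =
      -(Real.cos (2 * Real.pi * x) * Real.cos (2 * Real.pi * s) +
        Real.sin (2 * Real.pi * x) * Real.sin (2 * Real.pi * s)) := by
    rw [show 2 * Real.pi * (x + 1 / 2 - s) = 2 * Real.pi * x - 2 * Real.pi * s + Real.pi by ring,
      Real.cos_add_pi, Real.cos_sub]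
  have h1 : 1 < Real.cosh (2 * Real.pi * y) := by
    rw [Real.one_lt_cosh]
    exact mul_ne_zero (by positivity) hy
  have h2 := Real.cos_le_one (2 * Real.pi * (x + 1 / 2 + s))
  have h3 : Real.log (2 * Real.cosh (2 * Real.pi * y) - 2 * Real.cos (2 * Real.pi * (x + 1 / 2 + s))) ≤
      Real.log (2 * Real.cosh (2 * Real.pi * y) - 2 * Real.cos (2 * Real.pi * (x + 1 / 2 - s))) := by
    apply Real.log_le_log
    · linarith only [h1, h2]
    · rw [e1, e2]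
      linarith only [h]
  linarith only [h3]

theorem LL_pair' {x y s : ℝ} (hy : y ≠ 0) (h : Real.sin (2 * Real.pi * x) * Real.sin (2 * Real.pi * s) ≤ 0) :
    LL ⟨x + 1 / 2 - s, y⟩ ≤ LL ⟨x + 1 / 2 + s, y⟩ := by
  have h1 := LL_pair (x := x) (s := -s) hy (by
    rw [mul_neg, Real.sin_neg, mul_neg]
    linarith only [h])
  rw [sub_neg_eq_add, ← sub_eq_add_neg] at h1
  exact h1

theorem sin_two_pi_nonneg {x : ℝ} (h0 : 0 ≤ x) (h1 : x ≤ 1 / 2) : 0 ≤ Real.sin (2 * Real.pi * x) := by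
  have hpi := Real.pi_pos
  apply Real.sin_nonneg_of_nonneg_of_le_pi <;> nlinarith only [h0, hpi, h1]

theorem sin_two_pi_nonpos {x : ℝ} (h0 : 1 / 2 ≤ x) (h1 : x ≤ 1) : Real.sin (2 * Real.pi * x) ≤ 0 := by
  have h := sin_two_pi_nonneg (x := x - 1 / 2) (by linarith only [h0]) (by linarith only [h1])
  rw [show 2 * Real.pi * (x - 1 / 2) = 2 * Real.pi * x - Real.pi by ring, Real.sin_sub_pi] at h
  linarith only [h]

theorem continuous_pr2_y (x s : ℝ) : Continuous fun y => pr2 x y s := by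
  have h1 : ∀ a : ℝ, Continuous fun y : ℝ => (⟨a, y⟩ : ℂ) := by
    intro a
    have : (fun y : ℝ => (⟨a, y⟩ : ℂ)) = fun y : ℝ => (a : ℂ) + (y : ℂ) * Complex.I := by
      funext y
      apply Complex.ext <;> simp
    rw [this]
    fun_prop
  unfold pr2
  exact (continuous_UU.comp (h1 _)).add (continuous_UU.comp (h1 _))

theorem le_of_ne_zero {f g : ℝ → ℝ} (hf : Continuous f) (hg : Continuous g)
    (h : ∀ y, y ≠ 0 → f y ≤ g y) (y : ℝ) : f y ≤ g y := by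
  by_cases hy : y = 0
  · subst hy
    have h1 : Tendsto f (𝓝[≠] 0) (𝓝 (f 0)) := hf.continuousAt.tendsto.mono_left nhdsWithin_le_nhds
    have h2 : Tendsto g (𝓝[≠] 0) (𝓝 (g 0)) := hg.continuousAt.tendsto.mono_left nhdsWithin_le_nhds
    exact le_of_tendsto_of_tendsto h1 h2 (eventually_nhdsWithin_of_forall fun y hy => h y hy)
  · exact h y hy

/-- for `x ∈ [0, 1/2]` the pair is antitone in `s ∈ [0, 1/2]` -/
theorem pair_anti {x s s' : ℝ} (y : ℝ) (h0 : 0 ≤ x) (h1 : x ≤ 1 / 2) (hs : 0 ≤ s) (hss : s ≤ s')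
    (hs' : s' ≤ 1 / 2) : pr2 x y s' ≤ pr2 x y s := by
  refine le_of_ne_zero (continuous_pr2_y x s') (continuous_pr2_y x s) (fun y hy => ?_) y
  have hm : AntitoneOn (pr2 x y) (Set.Icc 0 (1 / 2)) := by
    apply antitoneOn_of_deriv_nonpos (convex_Icc _ _)
    · exact fun r _ => (hasDerivAt_pr2 hy r).continuousAt.continuousWithinAt
    · exact fun r _ => (hasDerivAt_pr2 hy r).differentiableAt.differentiableWithinAt
    · intro r hr
      rw [interior_Icc] at hr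
      rw [(hasDerivAt_pr2 hy r).deriv]
      have := LL_pair (x := x) (s := r) hy
        (mul_nonneg (sin_two_pi_nonneg h0 h1) (sin_two_pi_nonneg hr.1.le hr.2.le))
      linarith only [this]
  exact hm ⟨hs, by linarith only [hss, hs']⟩ ⟨by linarith only [hs, hss], hs'⟩ hss

/-- for `x ∈ [1/2, 1]` the pair is monotone in `s ∈ [0, 1/2]` -/
theorem pair_mono {x s s' : ℝ} (y : ℝ) (h0 : 1 / 2 ≤ x) (h1 : x ≤ 1) (hs : 0 ≤ s) (hss : s ≤ s')
    (hs' : s' ≤ 1 / 2) : pr2 x y s ≤ pr2 x y s' := by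
  refine le_of_ne_zero (continuous_pr2_y x s) (continuous_pr2_y x s') (fun y hy => ?_) y
  have hm : MonotoneOn (pr2 x y) (Set.Icc 0 (1 / 2)) := by
    apply monotoneOn_of_deriv_nonneg (convex_Icc _ _)
    · exact fun r _ => (hasDerivAt_pr2 hy r).continuousAt.continuousWithinAt
    · exact fun r _ => (hasDerivAt_pr2 hy r).differentiableAt.differentiableWithinAt
    · intro r hr
      rw [interior_Icc] at hr
      rw [(hasDerivAt_pr2 hy r).deriv]
      have := LL_pair' (x := x) (s := r) hy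
        (mul_nonpos_of_nonpos_of_nonneg (sin_two_pi_nonpos h0 h1) (sin_two_pi_nonneg hr.1.le hr.2.le))
      linarith only [this]
  exact hm ⟨hs, by linarith only [hss, hs']⟩ ⟨by linarith only [hs, hss], hs'⟩ hss

theorem fR_real (w : ℂ) (s : ℝ) : fR w s = pr2 w.re w.im |s| - 2 * UU w := by
  have e1 : w + 1 / 2 + (s : ℂ) = ⟨w.re + 1 / 2 + s, w.im⟩ := by
    apply Complex.ext <;> simp
  have e2 : w + 1 / 2 - (s : ℂ) = ⟨w.re + 1 / 2 - s, w.im⟩ := by
    apply Complex.ext <;> simp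
  unfold fR pr2
  rw [e1, e2]
  rcases abs_cases s with ⟨h, -⟩ | ⟨h, -⟩
  · rw [h]
  · rw [h, sub_neg_eq_add, show w.re + 1 / 2 + -s = w.re + 1 / 2 - s by ring,
      add_comm (UU ⟨w.re + 1 / 2 + s, w.im⟩)]

/-- a real ring variable: the maximum is at `0` -/
theorem fR_real_le_zero {w : ℂ} (h0 : 0 ≤ w.re) (h1 : w.re ≤ 1 / 2) {s : ℝ} (hs : |s| ≤ 1 / 2) :
    fR w s ≤ fR w 0 := by
  have e := fR_real w 0
  rw [Complex.ofReal_zero, abs_zero] at e
  rw [fR_real, e]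
  linarith only [h0, h1, hs, pair_anti w.im h0 h1 le_rfl (abs_nonneg s) hs]

/-- a hinge in the tail and a real ring variable -/
theorem fR_tail_nonpos {w : ℂ} (hi : w.im = 0) (h0 : 1 / 2 ≤ w.re) (h1 : w.re ≤ 1) {s : ℝ}
    (hs : |s| ≤ 1 / 2) : fR w s ≤ 0 := by
  have e : fR w ((1 / 2 : ℝ) : ℂ) = 0 := by
    have := fR_half w
    rw [hi, abs_zero, mul_zero] at this
    rw [← this]
    norm_num
  rw [fR_real, abs_of_pos (by norm_num : (0 : ℝ) < 1 / 2)] at e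
  rw [fR_real]
  linarith only [e, h0, h1, hs, pair_mono w.im h0 h1 (abs_nonneg s) hs le_rfl]

end Pool.Agent.Work.MP_b30479_gtS.G2

end

section

/-!
# `UU` near `Re u = 1`: upper and lower bounds in zones
-/

namespace Pool.Agent.Work.MP_b30479_gtS.G2

open VOL NumUs Filter Topology

namespace MR

theorem continuous_nearL : Continuous nearL := by
  unfold nearL
  refine continuous_const.mul (Continuous.log (by fun_prop) ?_)
  intro y
  have := Real.one_le_cosh (2 * (Real.pi * y))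
  linarith only [this]

theorem nearL_nonneg (y : ℝ) : 0 ≤ nearL y := by
  unfold nearL
  have := Real.one_le_cosh (2 * (Real.pi * y))
  have := Real.log_nonneg (x := 2 * Real.cosh (2 * (Real.pi * y)) - 1) (by linarith only [this])
  linarith only [this]

theorem nearL_neg (y : ℝ) : nearL (-y) = nearL y := by
  unfold nearL
  rw [mul_neg, mul_neg, Real.cosh_neg]

theorem UU_near_ne {a b t : ℝ} (h1 : 5 / 6 ≤ a) (hab : a ≤ b) (h2 : b ≤ 7 / 6) (ht : t ≠ 0) :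
    UU ⟨b, t⟩ - UU ⟨a, t⟩ ≤ (b - a) * nearL t := by
  have hd : ∀ s : ℝ, HasDerivAt (fun s : ℝ => UU ⟨0 + 1 * s, t⟩) (1 * LL ⟨0 + 1 * s, t⟩) s :=
    fun s => hasDerivAt_UU_hor ht 1 s
  have e : (fun s : ℝ => UU ⟨0 + 1 * s, t⟩) = fun s : ℝ => UU ⟨s, t⟩ := by
    funext s
    rw [zero_add, one_mul]
  rw [e] at hd
  have := Convex.image_sub_le_mul_sub_of_deriv_le (convex_Icc (5 / 6 : ℝ) (7 / 6))
    (f := fun s : ℝ => UU ⟨s, t⟩) (fun s _ => (hd s).continuousAt.continuousWithinAt)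
    (fun s _ => (hd s).differentiableAt.differentiableWithinAt) (C := nearL t) (by
      intro s hs
      rw [interior_Icc] at hs
      rw [(hd s).deriv, one_mul, zero_add, one_mul]
      exact LL_nearL (u := ⟨s, t⟩) hs.1.le hs.2.le) a ⟨h1, hab.trans h2⟩ b ⟨h1.trans hab, h2⟩ hab
  linarith only [this]

theorem UU_near {a b t : ℝ} (h1 : 5 / 6 ≤ a) (hab : a ≤ b) (h2 : b ≤ 7 / 6) :
    UU ⟨b, t⟩ - UU ⟨a, t⟩ ≤ (b - a) * nearL t := by
  have hc : ∀ c : ℝ, Continuous fun t : ℝ => UU ⟨c, t⟩ := by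
    intro c
    have e : (fun t : ℝ => UU ⟨c, t⟩) = fun t : ℝ => UU ((c : ℂ) + (t : ℂ) * Complex.I) := by
      funext t
      congr 1
      apply Complex.ext <;> simp
    rw [e]
    exact continuous_UU.comp (by fun_prop)
  have hcl : IsClosed {t : ℝ | UU ⟨b, t⟩ - UU ⟨a, t⟩ ≤ (b - a) * nearL t} :=
    isClosed_le ((hc b).sub (hc a)) (continuous_const.mul continuous_nearL)
  have hd : Dense ({0}ᶜ : Set ℝ) := dense_compl_singleton 0
  have hs : ({0}ᶜ : Set ℝ) ⊆ {t : ℝ | UU ⟨b, t⟩ - UU ⟨a, t⟩ ≤ (b - a) * nearL t} :=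
    fun t ht => UU_near_ne h1 hab h2 ht
  have := hcl.closure_subset_iff.2 hs (hd.closure_eq ▸ Set.mem_univ t)
  exact this

theorem UU_it (t : ℝ) : UU ⟨0, t⟩ = -(Real.pi * |t| / 2) := by
  have h1 := UU_neg ⟨0, t⟩
  have e : -(⟨0, t⟩ : ℂ) = starRingEnd ℂ ⟨0, t⟩ := by
    apply Complex.ext <;> simp
  rw [e, UU_conj] at h1
  simp only at h1
  linarith only [h1]

theorem UU_add_one' (x t : ℝ) : UU ⟨x + 1, t⟩ = UU ⟨x, t⟩ + Real.pi * |t| := by
  have h1 := UU_add_one ⟨x, t⟩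
  have e : (⟨x, t⟩ : ℂ) + 1 = ⟨x + 1, t⟩ := by
    apply Complex.ext <;> simp
  rwa [e] at h1

theorem UU_one_it (t : ℝ) : UU ⟨1, t⟩ = Real.pi * |t| / 2 := by
  have h1 := UU_add_one' 0 t
  rw [zero_add, UU_it] at h1
  linarith only [h1]

/-! ### upper bounds -/

theorem up2 {x t : ℝ} (h1 : 11 / 12 ≤ x) (h2 : x ≤ 13 / 12) :
    UU ⟨x, t⟩ ≤ uu (11 / 12) t + (x - 11 / 12) * nearL t := by
  have := UU_near (a := 11 / 12) (b := x) (t := t) (by norm_num) h1 (by linarith only [h2])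
  have e : UU ⟨11 / 12, t⟩ = uu (11 / 12) t := rfl
  linarith only [this, e]

theorem up3 {x t : ℝ} (h1 : 1 ≤ x) (h2 : x ≤ 7 / 6) :
    UU ⟨x, t⟩ ≤ Real.pi * |t| / 2 + (x - 1) * nearL t := by
  have := UU_near (a := 1) (b := x) (t := t) (by norm_num) h1 h2
  rw [UU_one_it] at this
  linarith only [this]

theorem up4 (x t : ℝ) : UU ⟨x, t⟩ = uu (x - 1) t + Real.pi * |t| := by
  have := UU_add_one' (x - 1) t
  rw [sub_add_cancel] at this
  exact this

/-! ### lower bounds -/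

theorem lo2 {x t : ℝ} (h1 : 5 / 6 ≤ x) (h2 : x ≤ 1) :
    Real.pi * |t| / 2 - (1 - x) * nearL t ≤ UU ⟨x, t⟩ := by
  have := UU_near (a := x) (b := 1) (t := t) h1 h2 (by norm_num)
  rw [UU_one_it] at this
  linarith only [this]

theorem lo3 {x t : ℝ} (h1 : 5 / 6 ≤ x) (h2 : x ≤ 13 / 12) :
    uu (1 / 12) t + Real.pi * |t| - (13 / 12 - x) * nearL t ≤ UU ⟨x, t⟩ := by
  have := UU_near (a := x) (b := 13 / 12) (t := t) h1 h2 (by norm_num)
  have e := up4 (13 / 12) t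
  norm_num at e
  rw [e] at this
  norm_num at this ⊢
  linarith only [this]

end MR

end Pool.Agent.Work.MP_b30479_gtS.G2

end

section

/-!
# Value moves of the slot-2 hinge of an interior region with three crossings: expressions

Variables of the rows: `x`, `T` (the hinge, on its right ramp, and its height), `x'`, `t'` (the
inner variable or the partner hinge).  The hinge moves to `c + T i`.
-/

namespace Pool.Agent.Work.MP_b30479_gtS.G2

open VOL NumUs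

namespace R3V

/-- gain of a region with two crossings, or of a region with three crossings if its slot-2 hinge
moves; `a`, `b`: the values of `UU` at the two sums -/
noncomputable def gw (c T x s m t a b : ℝ) : ℝ :=
  Real.pi * ((m - x) * (t - s) + s / 2) - Real.pi * ((m - c) * (t - T) + T / 2) + (a - b) -
    2 * (uu c T - uu x s)

/-- gain of a digit `±1` -/
noncomputable def g1 (c T x s m t a b : ℝ) : ℝ :=
  Real.pi * ((c - x) * t + (T - s) * (m - 1)) + (a - b) - (uu c T - uu x s)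

/-! ### zones of the upper sum -/

/-- upper bound of `UU (u + i y)` in the zones `1, .., 4`; `σ`: the sign of `y` -/
noncomputable def ub (z : ℕ) (σ : ℤ) (u y : ℝ) : ℝ :=
  match z with
  | 1 => uu u y
  | 2 => uu (11 / 12) y + (u - 11 / 12) * MR.nearL y
  | 3 => σ / 2 * (Real.pi * y) + (u - 1) * MR.nearL y
  | _ => uu (u - 1) y + σ * (Real.pi * y)

/-- lower bound of `UU (u + i y)` in the zones `1, .., 4`; `σ`: the sign of `y` -/
noncomputable def lb (z : ℕ) (σ : ℤ) (u y : ℝ) : ℝ :=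
  match z with
  | 1 => uu u y
  | 2 => σ / 2 * (Real.pi * y) - (1 - u) * MR.nearL y
  | 3 => uu (1 / 12) y + σ * (Real.pi * y) - (13 / 12 - u) * MR.nearL y
  | _ => uu (u - 1) y + σ * (Real.pi * y)

theorem abs_eq_pos {y : ℝ} (h : 0 ≤ y) : |y| = ((1 : ℤ) : ℝ) * y := by
  rw [abs_of_nonneg h]; norm_num

theorem abs_eq_neg {y : ℝ} (h : y ≤ 0) : |y| = ((-1 : ℤ) : ℝ) * y := by
  rw [abs_of_nonpos h]; norm_num

theorem ub1 (σ : ℤ) (u y : ℝ) : UU ⟨u, y⟩ ≤ ub 1 σ u y := le_rfl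

theorem ub2 (σ : ℤ) {u y : ℝ} (h1 : 11 / 12 ≤ u) (h2 : u ≤ 13 / 12) :
    UU ⟨u, y⟩ ≤ ub 2 σ u y := MR.up2 h1 h2

theorem ub3 {σ : ℤ} {u y : ℝ} (hy : |y| = σ * y) (h1 : 1 ≤ u) (h2 : u ≤ 7 / 6) :
    UU ⟨u, y⟩ ≤ ub 3 σ u y := by
  have := MR.up3 (t := y) h1 h2
  rw [hy] at this
  show UU ⟨u, y⟩ ≤ σ / 2 * (Real.pi * y) + (u - 1) * MR.nearL y
  linarith only [this]

theorem ub4 {σ : ℤ} {u y : ℝ} (hy : |y| = σ * y) : UU ⟨u, y⟩ ≤ ub 4 σ u y := by
  have := MR.up4 u y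
  rw [hy] at this
  show UU ⟨u, y⟩ ≤ uu (u - 1) y + σ * (Real.pi * y)
  linarith only [this]

theorem lb1 (σ : ℤ) (u y : ℝ) : lb 1 σ u y ≤ UU ⟨u, y⟩ := le_rfl

theorem lb2 {σ : ℤ} {u y : ℝ} (hy : σ * y ≤ |y|) (h1 : 5 / 6 ≤ u) (h2 : u ≤ 1) :
    lb 2 σ u y ≤ UU ⟨u, y⟩ := by
  have := MR.lo2 (t := y) h1 h2
  have h3 := mul_le_mul_of_nonneg_left hy Real.pi_pos.le
  show σ / 2 * (Real.pi * y) - (1 - u) * MR.nearL y ≤ UU ⟨u, y⟩
  linarith only [this, h3]

theorem lb3 {σ : ℤ} {u y : ℝ} (hy : σ * y ≤ |y|) (h1 : 5 / 6 ≤ u) (h2 : u ≤ 13 / 12) :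
    lb 3 σ u y ≤ UU ⟨u, y⟩ := by
  have := MR.lo3 (t := y) h1 h2
  have h3 := mul_le_mul_of_nonneg_left hy Real.pi_pos.le
  show uu (1 / 12) y + σ * (Real.pi * y) - (13 / 12 - u) * MR.nearL y ≤ UU ⟨u, y⟩
  linarith only [this, h3]

theorem lb4 {σ : ℤ} {u y : ℝ} (hy : σ * y ≤ |y|) : lb 4 σ u y ≤ UU ⟨u, y⟩ := by
  have := MR.up4 u y
  have h3 := mul_le_mul_of_nonneg_left hy Real.pi_pos.le
  show uu (u - 1) y + σ * (Real.pi * y) ≤ UU ⟨u, y⟩
  linarith only [this, h3]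

/-! ### expressions -/

section
open E

/-- expression for `ub` -/
def ubE (z : ℕ) (σ : ℤ) (u y : NumIs.E) : E :=
  match z with
  | 1 => uu (emb u) (emb y)
  | 2 => add (uu (q 11 12) (emb y)) (mul (sub (emb u) (q 11 12)) (emb (MR.nearE y)))
  | 3 => add (mul (q σ 2) (mul pi (emb y))) (mul (sub (emb u) (q 1 1)) (emb (MR.nearE y)))
  | _ => add (uu (sub (emb u) (q 1 1)) (emb y)) (mul (q σ 1) (mul pi (emb y)))

/-- expression for `lb` -/
def lbE (z : ℕ) (σ : ℤ) (u y : NumIs.E) : E :=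
  match z with
  | 1 => uu (emb u) (emb y)
  | 2 => sub (mul (q σ 2) (mul pi (emb y))) (mul (sub (q 1 1) (emb u)) (emb (MR.nearE y)))
  | 3 => sub (add (uu (q 1 12) (emb y)) (mul (q σ 1) (mul pi (emb y))))
      (mul (sub (q 13 12) (emb u)) (emb (MR.nearE y)))
  | _ => add (uu (sub (emb u) (q 1 1)) (emb y)) (mul (q σ 1) (mul pi (emb y)))

theorem ubE_val (z : ℕ) (σ : ℤ) (u y : NumIs.E) (xs : List ℝ) :
    (ubE z σ u y).val xs = ub z σ (u.val xs) (y.val xs) := by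
  unfold ubE ub
  split <;> simp only [E.val, MR.nearE_val] <;> push_cast <;> simp only [div_one]

theorem lbE_val (z : ℕ) (σ : ℤ) (u y : NumIs.E) (xs : List ℝ) :
    (lbE z σ u y).val xs = lb z σ (u.val xs) (y.val xs) := by
  unfold lbE lb
  split <;> simp only [E.val, MR.nearE_val] <;> push_cast <;> simp only [div_one]

/-- expression for `gw` with the bounds of the zones `z'` (moved) and `z`; the hinge moves to
`n / 100 + T i` -/
def gwE (XM cr : ℕ) (n : ℤ) (t : NumIs.E) (z' z : ℕ) (σ' σ : ℤ) : E :=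
  let s := MR.tE XM cr
  sub (add (sub (mul pi (add (mul (sub (var 2) (var 0)) (sub (emb t) (emb s)))
      (mul (q 1 2) (emb s))))
    (mul pi (add (mul (sub (var 2) (q n 100)) (sub (emb t) (var 1))) (mul (q 1 2) (var 1)))))
    (sub (lbE z' σ' (.add (.q n 100) (.var 2)) (.add (.var 1) t))
      (ubE z σ (.add (.var 0) (.var 2)) (.add s t))))
    (mul (q 2 1) (sub (uu (q n 100) (var 1)) (uu (var 0) (emb s))))

/-- expression for `g1` -/
def g1E (XM cr : ℕ) (n : ℤ) (t : NumIs.E) (z' z : ℕ) (σ' σ : ℤ) : E :=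
  let s := MR.tE XM cr
  sub (add (mul pi (add (mul (sub (q n 100) (var 0)) (emb t))
      (mul (sub (var 1) (emb s)) (sub (var 2) (q 1 1)))))
    (sub (lbE z' σ' (.add (.q n 100) (.var 2)) (.add (.var 1) t))
      (ubE z σ (.add (.var 0) (.var 2)) (.add s t))))
    (sub (uu (q n 100) (var 1)) (uu (var 0) (emb s)))

variable {XM cr : ℕ} {n : ℤ} {t : NumIs.E} {z' z : ℕ} {σ' σ : ℤ} {x T m k : ℝ}

theorem gwE_val : (gwE XM cr n t z' z σ' σ).val [x, T, m, k] =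
    gw (n / 100) T x (MR.tR XM cr x T) m (t.val [x, T, m, k])
      (lb z' σ' (n / 100 + m) (T + t.val [x, T, m, k]))
      (ub z σ (x + m) (MR.tR XM cr x T + t.val [x, T, m, k])) := by
  unfold gwE gw
  simp only [E.val, lbE_val, ubE_val, NumIs.E.val, MR.tE_val, NumIs.lkR]
  push_cast
  ring

theorem g1E_val : (g1E XM cr n t z' z σ' σ).val [x, T, m, k] =
    g1 (n / 100) T x (MR.tR XM cr x T) m (t.val [x, T, m, k])
      (lb z' σ' (n / 100 + m) (T + t.val [x, T, m, k]))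
      (ub z σ (x + m) (MR.tR XM cr x T + t.val [x, T, m, k])) := by
  unfold g1E g1
  simp only [E.val, lbE_val, ubE_val, NumIs.E.val, MR.tE_val, NumIs.lkR]
  push_cast
  ring

end

theorem gw_mono {c T x s m t a b a' b' : ℝ} (h1 : a ≤ a') (h2 : b' ≤ b) :
    gw c T x s m t a b ≤ gw c T x s m t a' b' := by
  unfold gw
  linarith only [h1, h2]

theorem g1_mono {c T x s m t a b a' b' : ℝ} (h1 : a ≤ a') (h2 : b' ≤ b) :
    g1 c T x s m t a b ≤ g1 c T x s m t a' b' := by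
  unfold g1
  linarith only [h1, h2]

section
open E

/-- `UU` argument alternatives -/
def zge (n : ℤ) (d : ℕ) : E := emb (.sub (.add (.var 0) (.var 2)) (.q n d))
def zle (n : ℤ) (d : ℕ) : E := emb (.sub (.q n d) (.add (.var 0) (.var 2)))
def cge (c n : ℤ) (d : ℕ) : E := emb (.sub (.add (.q c 100) (.var 2)) (.q n d))
def cle (c n : ℤ) (d : ℕ) : E := emb (.sub (.q n d) (.add (.q c 100) (.var 2)))
def tv : NumIs.E := .var 3
def tK (cl : ℕ) : NumIs.E := .mul (.var 3) (.mul (.q 100 cl) (.var 2))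
def ypos (XM cr : ℕ) : E := emb (.add (MR.tE XM cr) (.var 3))
def yneg (XM cr : ℕ) : E := emb (.neg (.add (MR.tE XM cr) (.var 3)))
def gl (a : ℤ) (b : ℕ) (c : ℤ) (d : ℕ) (e : ℤ) (f : ℕ) : E :=
  emb (.add (.q a b) (.mul (.q c d) (.sub (.var 0) (.q e f))))

end

/-- the check with a certificate and alternatives which do not occur -/
theorem posT {G : E} {al : List E} {fuel c : ℕ} {a1 b1 a2 b2 a3 b3 a4 b4 : ℤ} {x T x' t' : ℝ}
    (h : chkT (G :: al) fuel c [NumIs.V.of 10000 a1 b1, NumIs.V.of 10000 a2 b2,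
      NumIs.V.of 10000 a3 b3, NumIs.V.of 10000 a4 b4] = true)
    (h1 : (a1 : ℝ) / 10000 ≤ x ∧ x ≤ (b1 : ℝ) / 10000)
    (h2 : (a2 : ℝ) / 10000 ≤ T ∧ T ≤ (b2 : ℝ) / 10000)
    (h3 : (a3 : ℝ) / 10000 ≤ x' ∧ x' ≤ (b3 : ℝ) / 10000)
    (h4 : (a4 : ℝ) / 10000 ≤ t' ∧ t' ≤ (b4 : ℝ) / 10000)
    (hal : ∀ e ∈ al, e.val [x, T, x', t'] ≤ 0) : 0 < G.val [x, T, x', t'] := by
  obtain ⟨f, hf, hp⟩ := chkT4 h (by norm_num) (x := x) (y := T) (z := x') (w := t')
    (by exact_mod_cast h1.1) (by exact_mod_cast h1.2) (by exact_mod_cast h2.1)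
    (by exact_mod_cast h2.2) (by exact_mod_cast h3.1) (by exact_mod_cast h3.2)
    (by exact_mod_cast h4.1) (by exact_mod_cast h4.2)
  rcases List.mem_cons.1 hf with rfl | hf
  · exact hp
  · exact absurd hp (not_lt.2 (hal f hf))

end R3V

end Pool.Agent.Work.MP_b30479_gtS.G2

end
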