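import Pool.Agent.Work.MP_b30479_gt.TBS.G2.TRb
import Pool.Agent.Work.MP_b30479_gt.TBS.G2.WVal
import Pool.Agent.Work.MP_b30479_gt.TBS.G2.TRa

/-!
# Tails at rings: one ring

`tr_ring`: moving the ring variable from a real point to `-1/8 + i ρ` and the hinges in the tail to
`1/4 + i t` increases the growth rate of the ring.
-/

set_option deprecated.oldSectionVars true

namespace Pool.Agent.Work.MP_b30479_gtS.G2

open Finset VOL Filter Topology NumUs

theorem fR_uu (w ζ : ℂ) : fR w ζ = uu (w.re + 1 / 2 + ζ.re) (w.im + ζ.im) +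
    uu (w.re + 1 / 2 - ζ.re) (w.im - ζ.im) - 2 * uu w.re w.im := by
  unfold fR
  rw [UU_uu, UU_uu, UU_uu]
  simp

section
open NumIs (V)

/-- threshold -/
private def eL : E := E.sub (E.q 39 100) (E.mul (E.q 2 1) (E.var 2))
private def e1 : E := E.mul (E.q 2 1) (E.uu (E.add (E.var 0) (E.q 1 2)) (E.var 1))
private def e2 : E := E.uu (E.add (E.var 0) (E.q 3 8)) (E.add (E.var 1) (E.var 2))
private def eA : E := E.sub eL (E.sub e1 (E.add e2
  (E.uu (E.add (E.var 0) (E.q 5 8)) (E.sub (E.var 1) (E.var 2)))))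
private def eB (a b : ℕ) : E := E.sub eL (E.sub e1 (E.add e2
  (E.sub (E.mul (E.mul (E.q 1 2) E.pi) (E.sub (E.var a) (E.var b))) (E.q 38 1000))))
private def eC (f : E) (a b : ℕ) : E := E.sub eL (E.sub f (E.add e2
  (E.add (E.uu (E.sub (E.var 0) (E.q 3 8)) (E.sub (E.var 1) (E.var 2)))
    (E.mul E.pi (E.sub (E.var a) (E.var b))))))
private def e98 : E := E.mul (E.q 2 1) (E.uu (E.q 98 100) (E.var 1))

private theorem kA : chk [eA] 20 [V.of 10000 0 3650, V.of 10000 (-600) 600, V.of 10000 0 1045] = true := by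
  decide +kernel
private theorem kB : chk [eB 2 1, eB 1 2] 20
    [V.of 10000 3650 3850, V.of 10000 (-600) 600, V.of 10000 0 1045] = true := by
  decide +kernel
private theorem kC : chk [eC e1 2 1, eC e1 1 2] 20
    [V.of 10000 3850 4800, V.of 10000 (-600) 600, V.of 10000 0 1045] = true := by
  decide +kernel
private theorem kD : chk [eC e98 2 1, eC e98 1 2] 20
    [V.of 10000 4800 5000, V.of 10000 (-600) 600, V.of 10000 0 1045] = true := by
  decide +kernel

/-- the row of a hinge on its path -/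
theorem row_other {u Y ρ : ℝ} (h0 : 0 ≤ u) (h1 : u ≤ 1 / 2) (hY : |Y| ≤ 6 / 100) (hρ : 0 ≤ ρ)
    (hρ' : ρ ≤ 1045 / 10000) : 2 * uu (u + 1 / 2) Y - uu (u + 3 / 8) (Y + ρ) - uu (u + 5 / 8) (Y - ρ) <
      39 / 100 - 2 * ρ := by
  have hpi := Real.pi_pos
  obtain ⟨hY0, hY1⟩ := abs_le.mp hY
  have hab : |Y - ρ| ≤ 165 / 1000 := by
    rw [abs_le]
    constructor <;> linarith only [hρ', hY0, hρ, hY1]
  have ha1 : Real.pi * (ρ - Y) ≤ Real.pi * |Y - ρ| := by
    apply mul_le_mul_of_nonneg_left _ hpi.le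
    rw [abs_sub_comm]
    exact le_abs_self _
  have ha2 : Real.pi * (Y - ρ) ≤ Real.pi * |Y - ρ| :=
    mul_le_mul_of_nonneg_left (le_abs_self _) hpi.le
  rcases le_total u (3650 / 10000) with c1 | c1
  · have h := pos_of_chk (chk3 kA (by norm_num) (x := u) (y := Y) (z := ρ) (by norm_num; linarith only [h0])
      (by norm_num; linarith only [c1]) (by norm_num; linarith only [hY0]) (by norm_num; linarith only [hY1]) (by norm_num; linarith only [hρ])
      (by norm_num; linarith only [hρ']))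
    simp only [eA, eL, e1, e2, E.val, NumIs.lkR] at h
    norm_num at h
    linarith only [h]
  rcases le_total u (3850 / 10000) with c2 | c2
  · have hn := uu_ge_near (x := u + 5 / 8) (by linarith only [c1]) (by linarith only [c2]) hab
    obtain ⟨e, he, h⟩ := chk3 kB (by norm_num) (x := u) (y := Y) (z := ρ) (by norm_num; linarith only [c1])
      (by norm_num; linarith only [c2]) (by norm_num; linarith only [hY0]) (by norm_num; linarith only [hY1]) (by norm_num; linarith only [hρ])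
      (by norm_num; linarith only [hρ'])
    simp only [List.mem_cons, List.not_mem_nil, or_false] at he
    rcases he with rfl | rfl
    · simp only [eB, eL, e1, e2, E.val, NumIs.lkR] at h
      norm_num at h
      linarith only [ha1, hn, h]
    · simp only [eB, eL, e1, e2, E.val, NumIs.lkR] at h
      norm_num at h
      linarith only [ha2, hn, h]
  have hs : uu (u + 5 / 8) (Y - ρ) = uu (u - 3 / 8) (Y - ρ) + Real.pi * |Y - ρ| := by
    rw [← uu_add_one]
    ring_nf
  rcases le_total u (4800 / 10000) with c3 | c3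
  · obtain ⟨e, he, h⟩ := chk3 kC (by norm_num) (x := u) (y := Y) (z := ρ) (by norm_num; linarith only [c2])
      (by norm_num; linarith only [c3]) (by norm_num; linarith only [hY0]) (by norm_num; linarith only [hY1]) (by norm_num; linarith only [hρ])
      (by norm_num; linarith only [hρ'])
    simp only [List.mem_cons, List.not_mem_nil, or_false] at he
    rcases he with rfl | rfl
    · simp only [eC, eL, e1, e2, E.val, NumIs.lkR] at h
      norm_num at h
      linarith only [ha1, hs, h]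
    · simp only [eC, eL, e1, e2, E.val, NumIs.lkR] at h
      norm_num at h
      linarith only [ha2, hs, h]
  · have h98 := uu_le_98 (x := u + 1 / 2) (y := Y) (by linarith only [c3]) (by linarith only [h1]) hY
    obtain ⟨e, he, h⟩ := chk3 kD (by norm_num) (x := u) (y := Y) (z := ρ) (by norm_num; linarith only [c3])
      (by norm_num; linarith only [h1]) (by norm_num; linarith only [hY0]) (by norm_num; linarith only [hY1]) (by norm_num; linarith only [hρ])
      (by norm_num; linarith only [hρ'])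
    simp only [List.mem_cons, List.not_mem_nil, or_false] at he
    norm_num at h98
    rcases he with rfl | rfl
    · simp only [eC, e98, eL, e2, E.val, NumIs.lkR] at h
      norm_num at h
      linarith only [ha1, hs, h98, h]
    · simp only [eC, e98, eL, e2, E.val, NumIs.lkR] at h
      norm_num at h
      linarith only [ha2, hs, h98, h]

private def eT : E := E.sub (E.sub (E.add (E.uu (E.q 5 8) (E.add (E.var 0) (E.var 1)))
  (E.sub (E.uu (E.q 7 8) (E.sub (E.var 0) (E.var 1))) (E.mul (E.q 2 1) (E.uu (E.q 1 4) (E.var 0)))))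
  (E.mul E.pi (E.var 1))) (E.sub (E.q 39 100) (E.mul (E.q 2 1) (E.var 1)))

private theorem kT : chk [eT] 20 [V.of 10000 (-600) 600, V.of 10000 0 1045] = true := by
  decide +kernel

/-- the row of a hinge in the tail -/
theorem row_tail {t ρ : ℝ} (ht : |t| ≤ 6 / 100) (hρ : 0 ≤ ρ) (hρ' : ρ ≤ 1045 / 10000) :
    39 / 100 - 2 * ρ + Real.pi * ρ < uu (5 / 8) (t + ρ) + uu (7 / 8) (t - ρ) - 2 * uu (1 / 4) t := by
  obtain ⟨h0, h1⟩ := abs_le.mp ht
  have h := pos_of_chk (chk2 kT (by norm_num) (x := t) (y := ρ) (by norm_num; linarith only [h0])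
    (by norm_num; linarith only [h1]) (by norm_num; linarith only [hρ]) (by norm_num; linarith only [hρ']))
  simp only [eT, E.val, NumIs.lkR] at h
  norm_num at h
  linarith only [h]

end

/-- the target of the ring variable -/
noncomputable def zT (ρ : ℝ) : ℂ := ⟨-(1 / 8), ρ⟩
/-- the target of a hinge in the tail -/
noncomputable def wT (t : ℝ) : ℂ := ⟨1 / 4, t⟩

theorem tr_other {w : ℂ} (h0 : 0 ≤ w.re) (h1 : w.re ≤ 1 / 2) (hY : |w.im| ≤ 6 / 100) {ρ s : ℝ}
    (hρ : 0 ≤ ρ) (hρ' : ρ ≤ 1045 / 10000) (hs : |s| ≤ 1 / 2) :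
    fR w s - fR w (zT ρ) < 39 / 100 - 2 * ρ := by
  have a1 := fR_real_le_zero h0 h1 hs
  have a2 := row_other h0 h1 hY hρ hρ'
  rw [fR_uu w (zT ρ)]
  rw [fR_uu w 0] at a1
  simp only [zT, Complex.zero_re, Complex.zero_im, add_zero, sub_zero] at a1 ⊢
  rw [show w.re + 1 / 2 + -(1 / 8) = w.re + 3 / 8 by ring,
    show w.re + 1 / 2 - -(1 / 8) = w.re + 5 / 8 by ring]
  linarith only [a2, a1]

theorem tr_tail {w : ℂ} (hi : w.im = 0) (h0 : 1 / 2 ≤ w.re) (h1 : w.re ≤ 1) {t ρ s : ℝ}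
    (ht : |t| ≤ 6 / 100) (hρ : 0 ≤ ρ) (hρ' : ρ ≤ 1045 / 10000) (hs : |s| ≤ 1 / 2) :
    39 / 100 - 2 * ρ + Real.pi * ρ < fR (wT t) (zT ρ) - fR w s := by
  have a1 := fR_tail_nonpos hi h0 h1 hs
  have a2 := row_tail ht hρ hρ'
  rw [fR_uu (wT t)]
  simp only [zT, wT]
  norm_num at a2 ⊢
  linarith only [a1, a2]

/-- one slot of a ring: old and new value of the hinge; `g`: the slot is in the tail -/
structure TSlot (g : Bool) (w w1 : ℂ) : Prop where
  tail : g = true → w.im = 0 ∧ 1 / 2 ≤ w.re ∧ w.re ≤ 1 ∧ ∃ t : ℝ, |t| ≤ 6 / 100 ∧ w1 = wT t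
  other : g = false → w1 = w ∧ 0 ≤ w.re ∧ w.re ≤ 1 / 2 ∧ |w.im| ≤ 6 / 100

theorem TSlot.ge {g : Bool} {w w1 : ℂ} (h : TSlot g w w1) {ρ s : ℝ}
    (hρ : 0 ≤ ρ) (hρ' : ρ ≤ 1045 / 10000) (hs : |s| ≤ 1 / 2) :
    -(39 / 100 - 2 * ρ) < fR w1 (zT ρ) - fR w s := by
  cases g
  · obtain ⟨e, h0, h1, h2⟩ := h.other rfl
    rw [e]
    linarith only [h0, h1, h2, hρ, hρ', hs, tr_other h0 h1 h2 hρ hρ' hs]
  · obtain ⟨h0, h1, h2, t, h3, rfl⟩ := h.tail rfl
    have := tr_tail h0 h1 h2 h3 hρ hρ' hs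
    have := mul_nonneg Real.pi_pos.le hρ
    linarith

theorem VR_fR (n : ℝ) (w w' ζ : ℂ) : VR n w w' ζ =
    (Real.pi * Complex.I * n * ζ ^ 2 + 2 * Real.pi * Complex.I * ζ).re + fR w ζ + fR w' ζ := rfl

theorem VR_re_real (n s : ℝ) : (Real.pi * Complex.I * n * (s : ℂ) ^ 2 +
    2 * Real.pi * Complex.I * (s : ℂ)).re = 0 := by
  simp [pow_two]

theorem VR_re_zT (n ρ : ℝ) : (Real.pi * Complex.I * n * zT ρ ^ 2 +
    2 * Real.pi * Complex.I * zT ρ).re = 2 * Real.pi * ρ * (n / 8 - 1) := by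
  unfold zT
  simp [pow_two]
  ring

/-- **One ring.**  The slot `w` is in the tail. -/
theorem tr_ring {g' : Bool} {w w1 w' w1' : ℂ} (h : TSlot true w w1) (h' : TSlot g' w' w1')
    {n ρ s : ℝ} (hn : 4 ≤ n) (hρ : 0 ≤ ρ) (hρ' : ρ ≤ 1045 / 10000) (hs : |s| ≤ 1 / 2) :
    VR n w w' s < VR n w1 w1' (zT ρ) := by
  obtain ⟨h0, h1, h2, t, h3, rfl⟩ := h.tail rfl
  have a1 := tr_tail h0 h1 h2 h3 hρ hρ' hs
  have a2 := h'.ge hρ hρ' hs
  have hpr := mul_nonneg Real.pi_pos.le hρ
  rw [VR_fR, VR_fR, VR_re_real, VR_re_zT]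
  have a3 : -(Real.pi * ρ) ≤ 2 * Real.pi * ρ * (n / 8 - 1) := by nlinarith only [hn, hpr]
  linarith only [a1, a2, a3]

end Pool.Agent.Work.MP_b30479_gtS.G2
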