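import Pool.Agent.Work.MP_b30479_gt.TBS.G2.CN.Hin
import Pool.Agent.Work.MP_b30479_gt.TBS.G2.CN.TGoal
import Pool.Agent.Work.MP_b30479_gt.TBS.G2.TRc
import Pool.Agent.Work.MP_b30479_gt.TBS.G2.ZRows

section

/-!
# Two adjacent digits `1`: groups

A ring with the digit `1` and an absorbed digit on the left.  `V`, `W`: the two hinges of the absorbed
digit (`V` next to the digit `1`), `U`: the other hinge of the digit `1`.  Groups `u…`: variables `U`,
`V`; groups `v…`: variables `V`, `W`.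
-/

namespace Pool.Agent.Work.MP_b30479_gtS.G2.CN.PW

open Complex SR CN.Ev

noncomputable section

/-! ### expressions -/

def ua : Ev := (.add .R (.sc 1 (.k 0 0 1 0)) (rfl : 1 = 1))
def uf : Ev := (.sub .R (.sc 1 (.k 0 0 1 0)) (rfl : 1 = 1))
def ub : Ev := (.add .q (.sc 1 (.k 0 0 1 0)) (rfl : 1 = 1))
def ue : Ev := (.sub .q (.sc 1 (.k 0 0 1 0)) (rfl : 1 = 1))
def uc : Ev := (.add .R .q (rfl : 1 = 1))
def uab : Ev := (.nl (.mul ua ub))
def um : Ev := (.nl (.mul ua uc))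
def ubc : Ev := (.nl (.mul ub uc))
def ue2 : Ev := (.nl (.sq ue))
def uf2 : Ev := (.nl (.sq uf))
def ug : Ev := (.nl (.add uab ue2 (rfl : 2 = 2)))
def un : Ev := (.nl (.mul uab ubc))
def ug2 : Ev := (.nl (.add uab uf2 (rfl : 2 = 2)))
def un2 : Ev := (.nl (.mul uab um))
def uy3 : Ev := (.nl (.sub un (.gm 0 0 2 0 (.sc 1 (.mul ue ug))) (rfl : 4 = 4)))
def uy4 : Ev := (.nl (.sub (.sc 1 (.nm 2 (.mul ue un))) (.gm 0 0 1 0 (.mul ug (.sub (.sc 2 (.nm
  4 ue2)) un (rfl : 4 = 4)))) (rfl : 6 = 6)))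
def uy5 : Ev := (.nl (.sub (.mul un (.sub (.sc 2 (.nm 4 ue2)) un (rfl : 4 = 4))) (.gm 0 0 4 0
  (.sc 1 (.mul (.mul ue ug) (.sub (.sc 2 (.nm 2 ue2)) un (rfl : 4 = 4))))) (rfl : 8 = 8)))
def uz3 : Ev := (.nl (.sub un2 (.gm 0 0 2 0 (.sc 1 (.mul uf ug2))) (rfl : 4 = 4)))
def uz4 : Ev := (.nl (.sub (.sc 1 (.nm 2 (.mul uf un2))) (.gm 0 0 1 0 (.mul ug2 (.sub (.sc 2
  (.nm 4 uf2)) un2 (rfl : 4 = 4)))) (rfl : 6 = 6)))
def uz5 : Ev := (.nl (.sub (.mul un2 (.sub (.sc 2 (.nm 4 uf2)) un2 (rfl : 4 = 4))) (.gm 0 0 4 0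
  (.sc 1 (.mul (.mul uf ug2) (.sub (.sc 2 (.nm 2 uf2)) un2 (rfl : 4 = 4))))) (rfl : 8 = 8)))
def uD2e : Ev := (.nl (.sub um (.sc 1 (.gm 0 0 2 0 uf)) (rfl : 2 = 2)))
def uD3e : Ev := (.nl (.sub (.sc 1 (.nm 2 um)) (.gm 0 0 1 0 (.mul uf (.sub (.sc 2 (.k 4 0 0 0))
  um (rfl : 2 = 2)))) (rfl : 3 = 3)))
def uD4e : Ev := (.nl (.sub (.sub (.sc 2 (.nm 4 um)) (.sq um) (rfl : 4 = 4)) (.sc 1 (.gm 0 0 4 0
  (.mul uf (.sub (.sc 2 (.k 2 0 0 0)) um (rfl : 2 = 2))))) (rfl : 4 = 4)))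
def uD5e : Ev := (.nl (.sub (.sub (.sc 3 (.nm 8 um)) (.sc 1 (.nm 4 (.sq um))) (rfl : 5 = 5))
  (.gm 0 0 1 0 (.mul uf (.add (.sub (.sq um) (.sc 2 (.nm 12 um)) (rfl : 4 = 4)) (.sc 4 (.k 16 0
  0 0)) (rfl : 4 = 4)))) (rfl : 5 = 5)))
def uX2e : Ev := (.nl (.sub (.sc 1 (.gm 0 0 2 0 (.mul (.nl (.sub (.sc 1 (.gm 0 0 2 0 ue)) ubc
  (rfl : 2 = 2))) (.add (.mul ubc uab) (.sc 1 (.gm 0 0 2 0 (.mul (.nl (.sub (.sc 1 (.gm 0 0 2 0
  ue)) ubc (rfl : 2 = 2))) ue))) (rfl : 4 = 4))))) (.mul (.mul (.mul ubc ubc) uab) ue) (rfl : 7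
  = 7)))
def uX2r : Ev := (.nl (.sub (.sc 1 (.gm 0 0 2 0 (.mul (.nl (.sub (.sc 1 (.gm 0 0 2 0 uf)) um
  (rfl : 2 = 2))) (.add (.mul um uab) (.sc 1 (.gm 0 0 2 0 (.mul (.nl (.sub (.sc 1 (.gm 0 0 2 0
  uf)) um (rfl : 2 = 2))) uf))) (rfl : 4 = 4))))) (.mul (.mul (.mul um um) uab) uf) (rfl : 7 =
  7)))
def uJ (H : List QC) : Grp := ⟨(.sc 2 one), (.gm 0 1 0 0 uab), (rfl : 2 = 2), H⟩
def uP (H : List QC) : Grp := ⟨(.sc 2 ue2), un, (rfl : 4 = 4), H⟩
def uQ (H : List QC) : Grp := ⟨(.sc 2 one), um, (rfl : 2 = 2), H⟩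
def uR (H : List QC) : Grp := ⟨(.sc 2 uf2), un2, (rfl : 4 = 4), H⟩
def uA2 (H : List QC) : Grp := ⟨(.sc 2 (.nl (.sq ug))), (.gm 0 1 0 0 (.nl (.mul (.sq ubc)
  uab))), (rfl : 6 = 6), H⟩
def uA3 (H : List QC) : Grp := ⟨(.sc 2 (.nl (.sq uy3))), (.nl (.mul (.mul (.sq ubc) ubc) (.sq
  uab))), (rfl : 10 = 10), H⟩
def uS2 (H : List QC) : Grp := ⟨(.sc 2 (.nl (.sq ug2))), (.gm 0 1 0 0 (.nl (.mul (.sq um)
  uab))), (rfl : 6 = 6), H⟩
def uS3 (H : List QC) : Grp := ⟨(.sc 2 (.nl (.sq uz3))), (.nl (.mul (.mul (.sq um) um) (.sq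
  uab))), (rfl : 10 = 10), H⟩
def uF3 (H : List QC) : Grp := ⟨uy3, (.sc 4 one), (rfl : 4 = 4), H⟩
def uF4 (H : List QC) : Grp := ⟨uy4, (.sc 6 one), (rfl : 6 = 6), H⟩
def uF5 (H : List QC) : Grp := ⟨uy5, (.sc 8 one), (rfl : 8 = 8), H⟩
def uG3 (H : List QC) : Grp := ⟨uz3, (.sc 4 one), (rfl : 4 = 4), H⟩
def uG4 (H : List QC) : Grp := ⟨uz4, (.sc 6 one), (rfl : 6 = 6), H⟩
def uG5 (H : List QC) : Grp := ⟨uz5, (.sc 8 one), (rfl : 8 = 8), H⟩
def uE2 (H : List QC) : Grp := ⟨uD2e, (.sc 2 one), (rfl : 2 = 2), H⟩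
def uE3 (H : List QC) : Grp := ⟨uD3e, (.sc 3 one), (rfl : 3 = 3), H⟩
def uE4 (H : List QC) : Grp := ⟨uD4e, (.sc 4 one), (rfl : 4 = 4), H⟩
def uX2 (H : List QC) : Grp := ⟨uX2e, (.sc 7 one), (rfl : 7 = 7), H⟩
def uX3 (H : List QC) : Grp := ⟨uX2r, (.sc 7 one), (rfl : 7 = 7), H⟩
def uD2 (H : List QC) : Grp := ⟨(.sc 2 (.nl (.sq uD2e))), (.gm 0 1 0 0 (.nl (.mul uab (.sq
  um)))), (rfl : 6 = 6), H⟩
def uD3 (H : List QC) : Grp := ⟨(.sc 2 (.nl (.sq uD3e))), (.gm 0 1 0 0 (.nl (.mul uab (.mul (.sq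
  um) um)))), (rfl : 8 = 8), H⟩
def uD4 (H : List QC) : Grp := ⟨(.sc 2 (.nl (.sq uD4e))), (.gm 0 1 0 0 (.nl (.mul uab (.sq (.sq
  um))))), (rfl : 10 = 10), H⟩
def uD5 (H : List QC) : Grp := ⟨(.sc 2 (.nl (.sq uD5e))), (.gm 0 1 0 0 (.nl (.mul uab (.mul (.sq
  (.sq um)) um)))), (rfl : 12 = 12), H⟩
def ugT (H : List QC) : Grp := ⟨ub, ue, (rfl : 1 = 1), H⟩
def ugK (H : List QC) : Grp := ⟨ug, ubc, (rfl : 2 = 2), H⟩
def ugR (H : List QC) : Grp := ⟨ua, uf, (rfl : 1 = 1), H⟩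
def ugA (H : List QC) : Grp := ⟨ug, (.mul ue uc), (rfl : 2 = 2), H⟩
def ugB (H : List QC) : Grp := ⟨uab, (.mul ue uf), (rfl : 2 = 2), H⟩
def ugC (H : List QC) : Grp := ⟨(.mul uab uc), (.mul uf ug), (rfl : 3 = 3), H⟩
def vb : Ev := (.add .R (.sc 1 (.k 0 0 1 0)) (rfl : 1 = 1))
def ve : Ev := (.sub .R (.sc 1 (.k 0 0 1 0)) (rfl : 1 = 1))
def vh : Ev := (.sub .q (.sc 1 (.k 0 0 1 0)) (rfl : 1 = 1))
def vi : Ev := (.add .q (.sc 1 (.k 0 0 1 0)) (rfl : 1 = 1))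
def vr : Ev := (.add .R .q (rfl : 1 = 1))
def vre : Ev := (.nl (.mul vr ve))
def vrh : Ev := (.nl (.mul vr vh))
def vs : Ev := (.nl (.add vre (.sc 1 (.gm 0 0 2 0 vb)) (rfl : 2 = 2)))
def vb2 : Ev := (.nl (.sq vb))
def ve2 : Ev := (.nl (.sq ve))
def vn : Ev := (.nl (.mul vrh ve2))
def vy3 : Ev := (.nl (.sub (.add (.sc 2 (.k 0 0 4 0)) (.sc 1 (.nm 2 vh)) (rfl : 2 = 2)) (.gm 0 0
  1 0 vrh) (rfl : 2 = 2)))
def vy4 : Ev := (.nl (.sub (.sub (.add (.sc 3 (.k 0 0 8 0)) (.sc 2 (.nm 4 vh)) (rfl : 3 = 3))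
  (.sc 1 (.gm 0 0 4 0 vrh)) (rfl : 3 = 3)) (.mul vrh vh) (rfl : 3 = 3)))
def vy5 : Ev := (.nl (.add (.sub (.gm 0 0 1 0 (.add (.sub (.sq vrh) (.sc 2 (.nm 12 vrh)) (rfl :
  4 = 4)) (.sc 4 (.k 16 0 0 0)) (rfl : 4 = 4))) (.sc 1 (.nm 4 (.mul vrh vh))) (rfl : 4 = 4))
  (.sc 3 (.nm 8 vh)) (rfl : 4 = 4)))
def vD2e : Ev := (.nl (.add vn (.sc 1 (.gm 0 0 2 0 (.mul vb vs))) (rfl : 4 = 4)))
def vD3e : Ev := (.nl (.add (.gm 0 0 1 0 (.mul vs (.sub (.sc 2 (.nm 4 vb2)) vn (rfl : 4 = 4))))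
  (.sc 1 (.nm 2 (.mul vb vn))) (rfl : 6 = 6)))
def vD4e : Ev := (.nl (.sub (.add (.sc 1 (.gm 0 0 4 0 (.mul (.mul vb vs) (.sub (.sc 2 (.nm 2
  vb2)) vn (rfl : 4 = 4))))) (.sc 2 (.nm 4 (.mul vn vb2))) (rfl : 8 = 8)) (.sq vn) (rfl : 8 =
  8)))
def vX2e : Ev := (.nl (.add (.mul vrh (.mul vh ve)) (.sc 1 (.gm 0 0 2 0 (.mul vi (.add vrh (.sc
  1 (.gm 0 0 2 0 vi)) (rfl : 2 = 2))))) (rfl : 4 = 4)))
def vJ (H : List QC) : Grp := ⟨(.sc 2 one), vre, (rfl : 2 = 2), H⟩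
def vP (H : List QC) : Grp := ⟨(.sc 2 one), vrh, (rfl : 2 = 2), H⟩
def vQ (H : List QC) : Grp := ⟨(.sc 2 vb2), vn, (rfl : 4 = 4), H⟩
def vR (H : List QC) : Grp := ⟨(.sc 2 (.nl (.sq vs))), (.gm 0 1 0 0 (.nl (.mul (.mul (.sq vr)
  (.mul ve2 ve)) vh))), (rfl : 6 = 6), H⟩
def vA2 (H : List QC) : Grp := ⟨(.sc 2 (.nl (.sq vi))), (.nl (.mul vrh (.mul vh ve))), (rfl : 4
  = 4), H⟩
def vA3 (H : List QC) : Grp := ⟨(.sc 2 (.nl (.sq vy3))), (.nl (.mul (.sq vrh) (.mul vh ve))),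
  (rfl : 6 = 6), H⟩
def vA4 (H : List QC) : Grp := ⟨(.sc 2 (.nl (.sq vy4))), (.nl (.mul (.mul (.sq vrh) vrh) (.mul
  vh ve))), (rfl : 8 = 8), H⟩
def vA5 (H : List QC) : Grp := ⟨(.sc 2 (.nl (.sq vy5))), (.nl (.mul (.sq (.sq vrh)) (.mul vh
  ve))), (rfl : 10 = 10), H⟩
def vF3 (H : List QC) : Grp := ⟨vy3, (.sc 2 one), (rfl : 2 = 2), H⟩
def vF4 (H : List QC) : Grp := ⟨vy4, (.sc 3 one), (rfl : 3 = 3), H⟩
def vF5 (H : List QC) : Grp := ⟨vy5, (.sc 4 one), (rfl : 4 = 4), H⟩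
def vE2 (H : List QC) : Grp := ⟨vD2e, (.sc 4 one), (rfl : 4 = 4), H⟩
def vE3 (H : List QC) : Grp := ⟨vD3e, (.sc 6 one), (rfl : 6 = 6), H⟩
def vE4 (H : List QC) : Grp := ⟨vD4e, (.sc 8 one), (rfl : 8 = 8), H⟩
def vX2 (H : List QC) : Grp := ⟨vX2e, (.sc 4 one), (rfl : 4 = 4), H⟩
def vD2 (H : List QC) : Grp := ⟨(.sc 2 (.nl (.sq vD2e))), (.nl (.mul (.sq vn) vre)), (rfl : 10 =
  10), H⟩
def vgT (H : List QC) : Grp := ⟨vb, ve, (rfl : 1 = 1), H⟩
def vgK (H : List QC) : Grp := ⟨vi, vh, (rfl : 1 = 1), H⟩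
def vgR (H : List QC) : Grp := ⟨vre, vs, (rfl : 2 = 2), H⟩
def vgA (H : List QC) : Grp := ⟨(.mul vb vi), (.mul ve vh), (rfl : 2 = 2), H⟩
def vgB (H : List QC) : Grp := ⟨(.mul vb vr), vs, (rfl : 2 = 2), H⟩
def vgC (H : List QC) : Grp := ⟨(.mul vre vh), (.mul vs vi), (rfl : 3 = 3), H⟩

/-! ### values -/

section
variable (A B : Ev) (u w : ℂ)

lemma v_mul : (Ev.mul A B).val u w = A.val u w * B.val u w := rfl
lemma v_sq : (Ev.sq A).val u w = A.val u w ^ 2 := rfl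
lemma v_sc (j : ℕ) : (Ev.sc j A).val u w = A.val u w := rfl
lemma v_nl : (Ev.nl A).val u w = A.val u w := rfl

lemma gz_eq (a b c d : ℕ) : gz a b c d = ((a : ℂ) - b) + ((c : ℂ) - d) * I := by
  unfold gz
  apply Complex.ext <;> simp

lemma v_k (a b c d : ℕ) : (Ev.k a b c d).val u w = ((a : ℂ) - b) + ((c : ℂ) - d) * I :=
  gz_eq a b c d

lemma v_one (j : ℕ) : (Ev.sc j one).val u w = 1 := by
  rw [v_sc]
  exact CN.Ev.val_one _ _

lemma v_neg : (Ev.gm 0 1 0 0 A).val u w = -A.val u w := by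
  change gz 0 1 0 0 * A.val u w = _
  rw [gz_eq]
  simp

end

section
variable (u w : ℂ)

lemma val_ua : ua.val u w = u + I := by
  change u + gz 0 0 1 0 = _
  rw [gz_eq]; push_cast; ring
lemma val_uf : uf.val u w = u - I := by
  change u - gz 0 0 1 0 = _
  rw [gz_eq]; push_cast; ring
lemma val_ub : ub.val u w = w + I := by
  change w + gz 0 0 1 0 = _
  rw [gz_eq]; push_cast; ring
lemma val_ue : ue.val u w = w - I := by
  change w - gz 0 0 1 0 = _
  rw [gz_eq]; push_cast; ring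
lemma val_uc : uc.val u w = u + w := rfl
lemma val_uab : uab.val u w = (u + I) * (w + I) := by
  simp only [uab, v_nl, v_mul, val_ua, val_ub]
lemma val_um : um.val u w = (u + I) * (u + w) := by
  simp only [um, v_nl, v_mul, val_ua, val_uc]
lemma val_ubc : ubc.val u w = (w + I) * (u + w) := by
  simp only [ubc, v_nl, v_mul, val_ub, val_uc]
lemma val_ue2 : ue2.val u w = (w - I) ^ 2 := by
  simp only [ue2, v_nl, v_sq, val_ue]
lemma val_uf2 : uf2.val u w = (u - I) ^ 2 := by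
  simp only [uf2, v_nl, v_sq, val_uf]
lemma val_ug : ug.val u w = (u + I) * (w + I) + (w - I) ^ 2 := by
  change uab.val u w + ue2.val u w = _
  rw [val_uab, val_ue2]
lemma val_ug2 : ug2.val u w = (u + I) * (w + I) + (u - I) ^ 2 := by
  change uab.val u w + uf2.val u w = _
  rw [val_uab, val_uf2]
lemma val_un : un.val u w = (u + I) * (w + I) * ((w + I) * (u + w)) := by
  simp only [un, v_nl, v_mul, val_uab, val_ubc]
lemma val_un2 : un2.val u w = (u + I) * (w + I) * ((u + I) * (u + w)) := by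
  simp only [un2, v_nl, v_mul, val_uab, val_um]

/-- the polynomials of the outer values -/
def pY3 (e g n : ℂ) : ℂ := n - 2 * I * (e * g)
/-- the polynomials of the outer values -/
def pY4 (e g n : ℂ) : ℂ := 2 * (e * n) - I * (g * (4 * e ^ 2 - n))
/-- the polynomials of the outer values -/
def pY5 (e g n : ℂ) : ℂ := n * (4 * e ^ 2 - n) - 4 * I * (e * g * (2 * e ^ 2 - n))

lemma val_uy3 : uy3.val u w = pY3 (ue.val u w) (ug.val u w) (un.val u w) := by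
  change un.val u w - gz 0 0 2 0 * (ue.val u w * ug.val u w) = _
  rw [gz_eq, pY3]; push_cast; ring
lemma val_uy4 : uy4.val u w = pY4 (ue.val u w) (ug.val u w) (un.val u w) := by
  change (2 : ℕ) * (ue.val u w * un.val u w) - gz 0 0 1 0 * (ug.val u w *
    ((4 : ℕ) * ue2.val u w - un.val u w)) = _
  rw [gz_eq, pY4, val_ue2, val_ue]; push_cast; ring
lemma val_uy5 : uy5.val u w = pY5 (ue.val u w) (ug.val u w) (un.val u w) := by
  change un.val u w * ((4 : ℕ) * ue2.val u w - un.val u w) - gz 0 0 4 0 *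
    (ue.val u w * ug.val u w * ((2 : ℕ) * ue2.val u w - un.val u w)) = _
  rw [gz_eq, pY5, val_ue2, val_ue]; push_cast; ring
lemma val_uz3 : uz3.val u w = pY3 (uf.val u w) (ug2.val u w) (un2.val u w) := by
  change un2.val u w - gz 0 0 2 0 * (uf.val u w * ug2.val u w) = _
  rw [gz_eq, pY3]; push_cast; ring
lemma val_uz4 : uz4.val u w = pY4 (uf.val u w) (ug2.val u w) (un2.val u w) := by
  change (2 : ℕ) * (uf.val u w * un2.val u w) - gz 0 0 1 0 * (ug2.val u w *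
    ((4 : ℕ) * uf2.val u w - un2.val u w)) = _
  rw [gz_eq, pY4, val_uf2, val_uf]; push_cast; ring
lemma val_uz5 : uz5.val u w = pY5 (uf.val u w) (ug2.val u w) (un2.val u w) := by
  change un2.val u w * ((4 : ℕ) * uf2.val u w - un2.val u w) - gz 0 0 4 0 *
    (uf.val u w * ug2.val u w * ((2 : ℕ) * uf2.val u w - un2.val u w)) = _
  rw [gz_eq, pY5, val_uf2, val_uf]; push_cast; ring

/-- the polynomials of the outer values of the second neighbour -/
def pD2 (U m : ℂ) : ℂ := m - 2 - 2 * I * U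
/-- the polynomials of the outer values of the second neighbour -/
def pD3 (U m : ℂ) : ℂ := 2 * m - I * ((U - I) * (4 - m))
/-- the polynomials of the outer values of the second neighbour -/
def pD4 (U m : ℂ) : ℂ := 4 * m - m ^ 2 - 4 * I * ((U - I) * (2 - m))
/-- the polynomials of the outer values of the second neighbour -/
def pD5 (U m : ℂ) : ℂ := 8 * m - 4 * m ^ 2 - I * ((U - I) * (m ^ 2 - 12 * m + 16))

lemma val_uD2e : uD2e.val u w = pD2 u (um.val u w) := by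
  change um.val u w - gz 0 0 2 0 * uf.val u w = _
  rw [gz_eq, pD2, val_uf]; push_cast; linear_combination 2 * Complex.I_mul_I
lemma val_uD3e : uD3e.val u w = pD3 u (um.val u w) := by
  change (2 : ℕ) * um.val u w - gz 0 0 1 0 * (uf.val u w * (gz 4 0 0 0 - um.val u w)) = _
  rw [gz_eq, gz_eq, pD3, val_uf]; push_cast; ring
lemma val_uD4e : uD4e.val u w = pD4 u (um.val u w) := by
  change (4 : ℕ) * um.val u w - um.val u w ^ 2 - gz 0 0 4 0 *
    (uf.val u w * (gz 2 0 0 0 - um.val u w)) = _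
  rw [gz_eq, gz_eq, pD4, val_uf]; push_cast; ring
lemma val_uD5e : uD5e.val u w = pD5 u (um.val u w) := by
  change (8 : ℕ) * um.val u w - (4 : ℕ) * um.val u w ^ 2 - gz 0 0 1 0 *
    (uf.val u w * (um.val u w ^ 2 - (12 : ℕ) * um.val u w + gz 16 0 0 0)) = _
  rw [gz_eq, gz_eq, pD5, val_uf]; push_cast; ring

/-- the polynomial for the end digit `2` two rings away -/
def pX (e b a c : ℂ) : ℂ :=
  2 * I * ((2 * I * e - b * c) * (b * c * (a * b) + 2 * I * ((2 * I * e - b * c) * e))) -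
    b * c * (b * c) * (a * b) * e

lemma val_uX2e : uX2e.val u w = pX (w - I) (w + I) (u + I) (u + w) := by
  change gz 0 0 2 0 * ((gz 0 0 2 0 * ue.val u w - ubc.val u w) * (ubc.val u w * uab.val u w +
    gz 0 0 2 0 * ((gz 0 0 2 0 * ue.val u w - ubc.val u w) * ue.val u w))) -
    ubc.val u w * ubc.val u w * uab.val u w * ue.val u w = _
  rw [gz_eq, pX, val_ubc, val_uab, val_ue]; push_cast; ring
lemma val_uX2r : uX2r.val u w = pX (u - I) (u + I) (w + I) (u + w) := by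
  change gz 0 0 2 0 * ((gz 0 0 2 0 * uf.val u w - um.val u w) * (um.val u w * uab.val u w +
    gz 0 0 2 0 * ((gz 0 0 2 0 * uf.val u w - um.val u w) * uf.val u w))) -
    um.val u w * um.val u w * uab.val u w * uf.val u w = _
  rw [gz_eq, pX, val_um, val_uab, val_uf]; push_cast; ring

lemma val_vb : vb.val u w = u + I := by
  change u + gz 0 0 1 0 = _
  rw [gz_eq]; push_cast; ring
lemma val_ve : ve.val u w = u - I := by
  change u - gz 0 0 1 0 = _
  rw [gz_eq]; push_cast; ring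
lemma val_vh : vh.val u w = w - I := by
  change w - gz 0 0 1 0 = _
  rw [gz_eq]; push_cast; ring
lemma val_vi : vi.val u w = w + I := by
  change w + gz 0 0 1 0 = _
  rw [gz_eq]; push_cast; ring
lemma val_vr : vr.val u w = u + w := rfl
lemma val_vre : vre.val u w = (u + w) * (u - I) := by
  simp only [vre, v_nl, v_mul, val_vr, val_ve]
lemma val_vrh : vrh.val u w = (u + w) * (w - I) := by
  simp only [vrh, v_nl, v_mul, val_vr, val_vh]
lemma val_vs : vs.val u w = (u + w) * (u - I) + 2 * I * (u + I) := by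
  change vre.val u w + gz 0 0 2 0 * vb.val u w = _
  rw [gz_eq, val_vre, val_vb]; push_cast; ring
lemma val_vb2 : vb2.val u w = (u + I) ^ 2 := by
  simp only [vb2, v_nl, v_sq, val_vb]
lemma val_ve2 : ve2.val u w = (u - I) ^ 2 := by
  simp only [ve2, v_nl, v_sq, val_ve]
lemma val_vn : vn.val u w = (u + w) * (w - I) * (u - I) ^ 2 := by
  simp only [vn, v_nl, v_mul, val_vrh, val_ve2]

/-- the outer value, divided by the unsplit hinge -/
def qY3 (r h : ℂ) : ℂ := 4 * I + 2 * h - I * (r * h)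
/-- the outer value, divided by the unsplit hinge -/
def qY4 (r h : ℂ) : ℂ := 8 * I + 4 * h - 4 * I * (r * h) - r * h * h
/-- the outer value, divided by the unsplit hinge -/
def qY5 (r h : ℂ) : ℂ := I * ((r * h) ^ 2 - 12 * (r * h) + 16) - 4 * (r * h * h) + 8 * h

lemma val_vy3 : vy3.val u w = qY3 (u + w) (w - I) := by
  change gz 0 0 4 0 + (2 : ℕ) * vh.val u w - gz 0 0 1 0 * vrh.val u w = _
  rw [gz_eq, gz_eq, qY3, val_vrh, val_vh]; push_cast; ring
lemma val_vy4 : vy4.val u w = qY4 (u + w) (w - I) := by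
  change gz 0 0 8 0 + (4 : ℕ) * vh.val u w - gz 0 0 4 0 * vrh.val u w -
    vrh.val u w * vh.val u w = _
  rw [gz_eq, gz_eq, qY4, val_vrh, val_vh]; push_cast; ring
lemma val_vy5 : vy5.val u w = qY5 (u + w) (w - I) := by
  change gz 0 0 1 0 * (vrh.val u w ^ 2 - (12 : ℕ) * vrh.val u w + gz 16 0 0 0) -
    (4 : ℕ) * (vrh.val u w * vh.val u w) + (8 : ℕ) * vh.val u w = _
  rw [gz_eq, gz_eq, qY5, val_vrh, val_vh]; push_cast; ring

lemma val_vD2e : vD2e.val u w = vn.val u w + 2 * I * (vb.val u w * vs.val u w) := by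
  change vn.val u w + gz 0 0 2 0 * (vb.val u w * vs.val u w) = _
  rw [gz_eq]; push_cast; ring
lemma val_vD3e : vD3e.val u w = I * (vs.val u w * (4 * vb.val u w ^ 2 - vn.val u w)) +
    2 * (vb.val u w * vn.val u w) := by
  change gz 0 0 1 0 * (vs.val u w * ((4 : ℕ) * vb2.val u w - vn.val u w)) +
    (2 : ℕ) * (vb.val u w * vn.val u w) = _
  rw [gz_eq, val_vb2, val_vb]; push_cast; ring
lemma val_vD4e : vD4e.val u w = 4 * I * (vb.val u w * vs.val u w * (2 * vb.val u w ^ 2 -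
    vn.val u w)) + 4 * (vn.val u w * vb.val u w ^ 2) - vn.val u w ^ 2 := by
  change gz 0 0 4 0 * (vb.val u w * vs.val u w * ((2 : ℕ) * vb2.val u w - vn.val u w)) +
    (4 : ℕ) * (vn.val u w * vb2.val u w) - vn.val u w ^ 2 = _
  rw [gz_eq, val_vb2, val_vb]; push_cast; ring
lemma val_vX2e : vX2e.val u w = vrh.val u w * (vh.val u w * ve.val u w) +
    2 * I * (vi.val u w * (vrh.val u w + 2 * I * vi.val u w)) := by
  change vrh.val u w * (vh.val u w * ve.val u w) +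
    gz 0 0 2 0 * (vi.val u w * (vrh.val u w + gz 0 0 2 0 * vi.val u w)) = _
  rw [gz_eq]; push_cast; ring

end

end

end Pool.Agent.Work.MP_b30479_gtS.G2.CN.PW

end

section

/-!
# Two adjacent digits `1`: the groups hold

`PV`: the relation between the hinges; `PD`: the same with the values of the two rings.
-/

namespace Pool.Agent.Work.MP_b30479_gtS.G2.CN.PW

open Complex SR NumIs CN.Ev S6

/-- the relation between the three hinges -/
structure PV (U V W : ℂ) : Prop where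
  e : (V + W) * (V - I) = -((U + I) * (V + I))
  b0 : V + I ≠ 0
  e0 : V - I ≠ 0
  r0 : V + W ≠ 0

/-- the relations between the three hinges and the values `q`, `p` of the rings -/
structure PD (U V W q p : ℂ) : Prop extends PV U V W where
  q : (V + W) * (V - I) = q
  p : (V + W) * (W - I) = p

namespace PV

variable {U V W : ℂ} (h : PV U V W)
include h

lemma he : (W - I) * (V - I) = -((V + I) * (U + V)) := by
  linear_combination h.e

lemma pe : (W + I) * (V - I) = -((U + I) * (V + I) + (V - I) ^ 2) := by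
  linear_combination h.e

lemma pe' : (U + I) * (V + I) + (V - I) ^ 2 = -((W + I) * (V - I)) := by
  rw [h.pe]
  ring

lemma fb : (U - I) * (V + I) = -((V + W) * (V - I) + 2 * I * (V + I)) := by
  linear_combination h.e

lemma n_eq : (V + W) * (W - I) * (V - I) ^ 2 = (U + I) * (V + I) * ((V + I) * (U + V)) := by
  have h1 := h.e
  have h2 := h.he
  calc (V + W) * (W - I) * (V - I) ^ 2 = ((V + W) * (V - I)) * ((W - I) * (V - I)) := by ring
    _ = _ := by rw [h1, h2]; ring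

end PV

lemma sp_sum {R c k : ℂ} (h : R + I ≠ 0) (hh : R ^ 2 + 1 = 1 / c ^ 2 + 1 / k ^ 2) :
    Sp R c + Sp R k = R + I := by
  have h1 := Sp_sub (k := c) h
  have h2 := Sp_sub (k := k) h
  apply mul_right_cancel₀ h
  linear_combination h1 + h2 - hh + Complex.I_mul_I

section
variable {K : KFam} {r : SK} {dl : ℕ} {ll : SK} {dr : ℕ} {rr : SK} {w kl kr : ℂ}

/-- the relations for a ring with the digit `1` and an absorbed digit on the left -/
theorem pd (h : RDt K 1 .s r dl ll dr rr w kl kr) :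
    PD (Hq r (RR w kr) (Complex.cos w)) (Sp (RR w kl) (Complex.cos w)) (Sp (RR w kl) kl)
      (1 / Complex.cos w ^ 2) (1 / kl ^ 2) := by
  have e := one_rel h
  rw [Hq_s] at e
  have hR : RR w kl + I ≠ 0 := add_I_ne h.left.Rre
  have s1 := Sp_sub (k := Complex.cos w) hR
  have s2 := Sp_sub (k := kl) hR
  have s3 := sp_sum hR h.left.hinge
  have q0 : (1 : ℂ) / Complex.cos w ^ 2 ≠ 0 := one_div_ne_zero (pow_ne_zero 2 h.cos_ne)
  have e1 : (Sp (RR w kl) (Complex.cos w) + Sp (RR w kl) kl) *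
      (Sp (RR w kl) (Complex.cos w) - I) = 1 / Complex.cos w ^ 2 := by
    rw [s3, mul_comm]
    exact s1
  refine ⟨⟨?_, ?_, ?_, ?_⟩, e1, ?_⟩
  · rw [e1]
    linear_combination e
  · intro h0
    rw [h0, zero_mul] at e
    exact q0 (neg_eq_zero.1 e.symm)
  · intro h0
    rw [h0, mul_zero] at e1
    exact q0 e1.symm
  · rw [s3]
    exact hR
  · rw [s3, mul_comm]
    exact s2

/-- the second neighbour on a side `a` -/
lemma qQ_a (h : RDt K 1 .s .a dl ll dr rr w kl kr) :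
    (Hq .a (RR w kr) (Complex.cos w) + I) * (Hq .a (RR w kr) (Complex.cos w) +
      Sp (RR w kl) (Complex.cos w)) = 1 / kr ^ 2 := by
  have e := one_rel h
  rw [Hq_s] at e
  have e2 := h.right.hinge
  rw [Hq_of_ne (by decide)] at e ⊢
  linear_combination e + e2 - Complex.I_mul_I

end

section
variable {U V W q p : ℂ} (h : PD U V W q p) {H : List QC} {k : ℂ}

/-! ### own values -/

section
include h

lemma q_uv : -((U + I) * (V + I)) = q := by rw [← h.q, h.e]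

lemma p_un : (U + I) * (V + I) * ((V + I) * (U + V)) = p * (V - I) ^ 2 := by
  rw [← h.p, h.n_eq]

end

lemma uJ_ok (h : PD U V W (1 / k ^ 2) p) (k0 : k ≠ 0) (hS : Sat H (k ^ 2)) :
    (uJ H).Ok U V := by
  refine ⟨k ^ 2, ?_, hS⟩
  change k ^ 2 * (Ev.gm 0 1 0 0 uab).val U V = (Ev.sc 2 one).val U V
  rw [v_one, v_neg, val_uab, q_uv h, mul_one_div_cancel (pow_ne_zero 2 k0)]

lemma vJ_ok (h : PD U V W (1 / k ^ 2) p) (k0 : k ≠ 0) (hS : Sat H (k ^ 2)) :
    (vJ H).Ok V W := by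
  refine ⟨k ^ 2, ?_, hS⟩
  change k ^ 2 * vre.val V W = (Ev.sc 2 one).val V W
  rw [v_one, val_vre, h.q, mul_one_div_cancel (pow_ne_zero 2 k0)]

lemma uP_ok (h : PD U V W q (1 / k ^ 2)) (k0 : k ≠ 0) (hS : Sat H (k ^ 2)) :
    (uP H).Ok U V := by
  refine ⟨k ^ 2, ?_, hS⟩
  change k ^ 2 * un.val U V = ue2.val U V
  rw [val_un, val_ue2, p_un h, ← mul_assoc, mul_one_div_cancel (pow_ne_zero 2 k0), one_mul]

lemma vP_ok (h : PD U V W q (1 / k ^ 2)) (k0 : k ≠ 0) (hS : Sat H (k ^ 2)) :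
    (vP H).Ok V W := by
  refine ⟨k ^ 2, ?_, hS⟩
  change k ^ 2 * vrh.val V W = (Ev.sc 2 one).val V W
  rw [v_one, val_vrh, h.p, mul_one_div_cancel (pow_ne_zero 2 k0)]

lemma uQ_ok (hm : (U + I) * (U + V) = 1 / k ^ 2) (k0 : k ≠ 0) (hS : Sat H (k ^ 2)) :
    (uQ H).Ok U V := by
  refine ⟨k ^ 2, ?_, hS⟩
  change k ^ 2 * um.val U V = (Ev.sc 2 one).val U V
  rw [v_one, val_um, hm, mul_one_div_cancel (pow_ne_zero 2 k0)]

lemma vn_eq (h : PV U V W) : vn.val V W = (V + I) ^ 2 * ((U + I) * (U + V)) := by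
  rw [val_vn, h.n_eq]
  ring

lemma vQ_ok (h : PV U V W) (hm : (U + I) * (U + V) = 1 / k ^ 2) (k0 : k ≠ 0)
    (hS : Sat H (k ^ 2)) : (vQ H).Ok V W := by
  refine ⟨k ^ 2, ?_, hS⟩
  change k ^ 2 * vn.val V W = vb2.val V W
  rw [vn_eq h, val_vb2, hm]
  have := pow_ne_zero 2 k0
  field_simp

/-- the other neighbour of the digit `1` on a side `s` -/
lemma uR_ok (h : (uP H).Ok V U) : (uR H).Ok U V := by
  obtain ⟨c, h1, h2⟩ := h
  refine ⟨c, ?_, h2⟩
  change c * un.val V U = ue2.val V U at h1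
  change c * un2.val U V = uf2.val U V
  rw [val_un, val_ue2] at h1
  rw [val_un2, val_uf2]
  linear_combination h1

lemma vR_ok (hv : PV U V W) (h : (uR H).Ok U V) : (vR H).Ok V W := by
  obtain ⟨c, h1, h2⟩ := h
  refine ⟨c, ?_, h2⟩
  change c * un2.val U V = uf2.val U V at h1
  rw [val_un2, val_uf2] at h1
  change c * (Ev.gm 0 1 0 0 (.nl (.mul (.mul (.sq vr) (.mul ve2 ve)) vh))).val V W =
    vs.val V W ^ 2
  rw [v_neg, v_nl, v_mul, v_mul, v_sq, v_mul, val_vr, val_ve2, val_ve, val_vh, val_vs]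
  have e1 := hv.e
  have e2 := hv.he
  have e3 := hv.fb
  have e4 : (V + W) ^ 2 * ((V - I) ^ 2 * (V - I)) * (W - I) =
      -((U + I) * (V + I) * ((U + I) * (U + V)) * (V + I) ^ 2) := by
    calc (V + W) ^ 2 * ((V - I) ^ 2 * (V - I)) * (W - I) =
        ((V + W) * (V - I)) ^ 2 * ((W - I) * (V - I)) := by ring
      _ = _ := by rw [e1, e2]; ring
  have e5 : ((V + W) * (V - I) + 2 * I * (V + I)) ^ 2 = (U - I) ^ 2 * (V + I) ^ 2 := by
    rw [← mul_pow, e3]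
    ring
  rw [e4, e5]
  linear_combination (V + I) ^ 2 * h1

end

/-! ### outer values of the absorbed side -/

section
variable {U V W q p : ℂ} {H : List QC}

lemma dr2v (R q : ℂ) : (dr2 1 0).val R q = R ^ 2 + 1 - q - 2 + 2 * I * R := val_dr2' R q

lemma dr3v (R q : ℂ) : (dr3 1 0).val R q =
    I * R * (4 - (R ^ 2 + 1 - q)) - (4 - 3 * (R ^ 2 + 1 - q)) := by
  have hv := CN.Ev.val_dr3 R q 1 0
  apply mul_left_cancel₀ two_ne_zero
  rw [hv]
  simp only [DB, cab]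
  push_cast
  ring

lemma dr4v (R q : ℂ) : (dr4 1 0).val R q =
    4 * I * R * (2 - (R ^ 2 + 1 - q)) - ((R ^ 2 + 1 - q) ^ 2 - 8 * (R ^ 2 + 1 - q) + 8) := by
  have hv := CN.Ev.val_dr4 R q 1 0
  apply mul_left_cancel₀ two_ne_zero
  rw [hv]
  simp only [DB, cab]
  push_cast
  ring

lemma dr5v (R q : ℂ) : (dr5 1 0).val R q =
    I * R * ((R ^ 2 + 1 - q) ^ 2 - 12 * (R ^ 2 + 1 - q) + 16) -
      (5 * (R ^ 2 + 1 - q) ^ 2 - 20 * (R ^ 2 + 1 - q) + 16) := by
  have hv := CN.Ev.val_dr5 R q 1 0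
  apply mul_left_cancel₀ two_ne_zero
  rw [hv]
  simp only [DB, cab]
  push_cast
  ring

section
variable (h : PD U V W q p) {R : ℂ} (hR : V + W = R + I) (hp : R ^ 2 + 1 - q = p)
include h hR hp

lemma y2_eq : (dr2 1 0).val R q = (V + W) * (W + I) := by
  rw [dr2v, hp, ← h.p]
  have e : R = V + W - I := by rw [hR]; ring
  rw [e]
  linear_combination (-2 : ℂ) * Complex.I_mul_I

lemma y3_eq : (dr3 1 0).val R q = (V + W) * qY3 (V + W) (W - I) := by
  rw [dr3v, hp, ← h.p, qY3]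
  have e : R = V + W - I := by rw [hR]; ring
  rw [e]
  linear_combination (-(4 - (V + W) * (W - I))) * Complex.I_mul_I

lemma y4_eq : (dr4 1 0).val R q = (V + W) * qY4 (V + W) (W - I) := by
  rw [dr4v, hp, ← h.p, qY4]
  have e : R = V + W - I := by rw [hR]; ring
  rw [e]
  linear_combination (-(4 * (2 - (V + W) * (W - I)))) * Complex.I_mul_I

lemma y5_eq : (dr5 1 0).val R q = (V + W) * qY5 (V + W) (W - I) := by
  rw [dr5v, hp, ← h.p, qY5]
  have e : R = V + W - I := by rw [hR]; ring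
  rw [e]
  linear_combination (-(((V + W) * (W - I)) ^ 2 - 12 * ((V + W) * (W - I)) + 16)) *
    Complex.I_mul_I

lemma vA2_ok (hg : (gD2 1 0 H).Ok R q) : (vA2 H).Ok V W := by
  obtain ⟨c, h1, h2⟩ := hg
  refine ⟨c, ?_, h2⟩
  change c * ((R ^ 2 + 1 - q) ^ (1 + 1) * q) = (dr2 1 0).val R q ^ 2 at h1
  rw [y2_eq h hR hp, hp, ← h.p, ← h.q] at h1
  change c * (vrh.val V W * (vh.val V W * ve.val V W)) = vi.val V W ^ 2
  rw [val_vrh, val_vh, val_ve, val_vi]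
  apply mul_left_cancel₀ (pow_ne_zero 2 h.r0)
  linear_combination h1

lemma vA3_ok (hg : (gD3 1 0 H).Ok R q) : (vA3 H).Ok V W := by
  obtain ⟨c, h1, h2⟩ := hg
  refine ⟨c, ?_, h2⟩
  change c * ((R ^ 2 + 1 - q) ^ (2 + 1) * q) = (dr3 1 0).val R q ^ 2 at h1
  rw [y3_eq h hR hp, hp, ← h.p, ← h.q] at h1
  change c * (vrh.val V W ^ 2 * (vh.val V W * ve.val V W)) = vy3.val V W ^ 2
  rw [val_vrh, val_vh, val_ve, val_vy3]
  apply mul_left_cancel₀ (pow_ne_zero 2 h.r0)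
  linear_combination h1

lemma vA4_ok (hg : (gD4 1 0 H).Ok R q) : (vA4 H).Ok V W := by
  obtain ⟨c, h1, h2⟩ := hg
  refine ⟨c, ?_, h2⟩
  change c * ((R ^ 2 + 1 - q) ^ (3 + 1) * q) = (dr4 1 0).val R q ^ 2 at h1
  rw [y4_eq h hR hp, hp, ← h.p, ← h.q] at h1
  change c * (vrh.val V W ^ 2 * vrh.val V W * (vh.val V W * ve.val V W)) = vy4.val V W ^ 2
  rw [val_vrh, val_vh, val_ve, val_vy4]
  apply mul_left_cancel₀ (pow_ne_zero 2 h.r0)
  linear_combination h1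

lemma vA5_ok (hg : (gD5 1 0 H).Ok R q) : (vA5 H).Ok V W := by
  obtain ⟨c, h1, h2⟩ := hg
  refine ⟨c, ?_, h2⟩
  change c * ((R ^ 2 + 1 - q) ^ (4 + 1) * q) = (dr5 1 0).val R q ^ 2 at h1
  rw [y5_eq h hR hp, hp, ← h.p, ← h.q] at h1
  change c * ((vrh.val V W ^ 2) ^ 2 * (vh.val V W * ve.val V W)) = vy5.val V W ^ 2
  rw [val_vrh, val_vh, val_ve, val_vy5]
  apply mul_left_cancel₀ (pow_ne_zero 2 h.r0)
  linear_combination h1

end

lemma zeroN {g : Grp} {u w : ℂ} (hH : g.H = zeroQ) (h : g.N.val u w = 0) : g.Ok u w := by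
  refine ⟨0, ?_, by rw [hH]; exact zeroQ_sat⟩
  rw [h, zero_mul]

/-- the value of a group of an end -/
lemma zero_val {g : Grp} {u w : ℂ} (hH : g.H = zeroQ) (h : g.Ok u w) : g.N.val u w = 0 := by
  obtain ⟨c, h1, h2⟩ := h
  rw [hH] at h2
  have a1 := h2 ⟨1, 0, 0, 0⟩ (by simp [zeroQ])
  have a2 := h2 ⟨-1, 0, 0, 0⟩ (by simp [zeroQ])
  have a3 := h2 ⟨0, 1, 0, 0⟩ (by simp [zeroQ])
  have a4 := h2 ⟨0, -1, 0, 0⟩ (by simp [zeroQ])
  unfold QC.Sat at a1 a2 a3 a4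
  push_cast at a1 a2 a3 a4
  have hc : c = 0 := by
    apply Complex.ext
    · rw [Complex.zero_re]; linarith
    · rw [Complex.zero_im]; linarith
  rw [← h1, hc, zero_mul]

section
variable (h : PD U V W q p) {R : ℂ} (hR : V + W = R + I) (hp : R ^ 2 + 1 - q = p)
include h hR hp

lemma vF3_ok (hg : (gE3 1 0).Ok R q) : (vF3 zeroQ).Ok V W := by
  have h1 : (dr3 1 0).val R q = 0 := zero_val rfl hg
  rw [y3_eq h hR hp] at h1
  refine zeroN rfl ?_
  change vy3.val V W = 0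
  rw [val_vy3]
  exact (mul_eq_zero.1 h1).resolve_left h.r0

lemma vF4_ok (hg : (gE4 1 0).Ok R q) : (vF4 zeroQ).Ok V W := by
  have h1 : (dr4 1 0).val R q = 0 := zero_val rfl hg
  rw [y4_eq h hR hp] at h1
  refine zeroN rfl ?_
  change vy4.val V W = 0
  rw [val_vy4]
  exact (mul_eq_zero.1 h1).resolve_left h.r0

lemma vF5_ok (hg : (gE5 1 0).Ok R q) : (vF5 zeroQ).Ok V W := by
  have h1 : (dr5 1 0).val R q = 0 := zero_val rfl hg
  rw [y5_eq h hR hp] at h1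
  refine zeroN rfl ?_
  change vy5.val V W = 0
  rw [val_vy5]
  exact (mul_eq_zero.1 h1).resolve_left h.r0

end

/-! ### the same in the variables `U`, `V` -/

section
variable (h : PV U V W)
include h

lemma Y3_eq : pY3 (V - I) ((U + I) * (V + I) + (V - I) ^ 2)
    ((U + I) * (V + I) * ((V + I) * (U + V))) = I * (qY3 (V + W) (W - I) * (V - I) ^ 2) := by
  rw [← h.n_eq, h.pe', pY3, qY3]
  linear_combination ((V + W) * (W - I) * (V - I) ^ 2) * Complex.I_mul_I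

lemma Y4_eq : pY4 (V - I) ((U + I) * (V + I) + (V - I) ^ 2)
    ((U + I) * (V + I) * ((V + I) * (U + V))) = I * (qY4 (V + W) (W - I) * (V - I) ^ 3) := by
  rw [← h.n_eq, h.pe', pY4, qY4]
  linear_combination (2 * ((V + W) * (W - I) * (V - I) ^ 3)) * Complex.I_mul_I

lemma Y5_eq : pY5 (V - I) ((U + I) * (V + I) + (V - I) ^ 2)
    ((U + I) * (V + I) * ((V + I) * (U + V))) = I * (qY5 (V + W) (W - I) * (V - I) ^ 4) := by
  rw [← h.n_eq, h.pe', pY5, qY5]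
  linear_combination ((4 * ((V + W) * (W - I)) - ((V + W) * (W - I)) ^ 2) * (V - I) ^ 4) *
    Complex.I_mul_I

lemma uA2_ok {H : List QC} (hg : (vA2 H).Ok V W) : (uA2 H).Ok U V := by
  obtain ⟨c, h1, h2⟩ := hg
  refine ⟨c, ?_, h2⟩
  change c * (vrh.val V W * (vh.val V W * ve.val V W)) = vi.val V W ^ 2 at h1
  rw [val_vrh, val_vh, val_ve, val_vi] at h1
  change c * (Ev.gm 0 1 0 0 (.nl (.mul (.sq ubc) uab))).val U V = ug.val U V ^ 2
  rw [v_neg, v_nl, v_mul, v_sq, val_ubc, val_uab, val_ug, h.pe']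
  have e1 := h.e
  have e2 := h.he
  have e3 : -(((V + I) * (U + V)) ^ 2 * ((U + I) * (V + I))) =
      ((W - I) * (V - I)) ^ 2 * ((V + W) * (V - I)) := by
    rw [e1, e2]
    ring
  rw [e3]
  linear_combination (V - I) ^ 2 * h1

lemma uA3_ok {H : List QC} (hg : (vA3 H).Ok V W) : (uA3 H).Ok U V := by
  obtain ⟨c, h1, h2⟩ := hg
  refine ⟨c, ?_, h2⟩
  change c * (vrh.val V W ^ 2 * (vh.val V W * ve.val V W)) = vy3.val V W ^ 2 at h1
  rw [val_vrh, val_vh, val_ve, val_vy3] at h1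
  change c * (ubc.val U V ^ 2 * ubc.val U V * uab.val U V ^ 2) = uy3.val U V ^ 2
  rw [val_uy3, val_ue, val_ug, val_un, Y3_eq h, val_ubc, val_uab]
  have e1 := h.e
  have e2 := h.he
  have e3 : ((V + I) * (U + V)) ^ 2 * ((V + I) * (U + V)) * ((U + I) * (V + I)) ^ 2 =
      -(((W - I) * (V - I)) ^ 3 * ((V + W) * (V - I)) ^ 2) := by
    rw [e1, e2]
    ring
  rw [e3]
  linear_combination (-(V - I) ^ 4) * h1 -
    (qY3 (V + W) (W - I) ^ 2 * (V - I) ^ 4) * Complex.I_mul_I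

lemma uF3_ok (hg : (vF3 zeroQ).Ok V W) : (uF3 zeroQ).Ok U V := by
  have h1 : vy3.val V W = 0 := zero_val rfl hg
  refine zeroN rfl ?_
  change uy3.val U V = 0
  rw [val_uy3, val_ue, val_ug, val_un, Y3_eq h, ← val_vy3, h1]
  ring

lemma uF4_ok (hg : (vF4 zeroQ).Ok V W) : (uF4 zeroQ).Ok U V := by
  have h1 : vy4.val V W = 0 := zero_val rfl hg
  refine zeroN rfl ?_
  change uy4.val U V = 0
  rw [val_uy4, val_ue, val_ug, val_un, Y4_eq h, ← val_vy4, h1]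
  ring

lemma uF5_ok (hg : (vF5 zeroQ).Ok V W) : (uF5 zeroQ).Ok U V := by
  have h1 : vy5.val V W = 0 := zero_val rfl hg
  refine zeroN rfl ?_
  change uy5.val U V = 0
  rw [val_uy5, val_ue, val_ug, val_un, Y5_eq h, ← val_vy5, h1]
  ring

lemma uX2_ok (hg : (vX2 zeroQ).Ok V W) : (uX2 zeroQ).Ok U V := by
  have h1 : vX2e.val V W = 0 := zero_val rfl hg
  rw [val_vX2e, val_vrh, val_vh, val_ve, val_vi] at h1
  refine zeroN rfl ?_
  change uX2e.val U V = 0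
  rw [val_uX2e, pX]
  have e1 := h.e
  have e2 := h.he
  have e3 : (U + I) * (V + I) = -((V + W) * (V - I)) := by rw [e1]; ring
  have e4 : (V + I) * (U + V) = -((W - I) * (V - I)) := by rw [e2]; ring
  rw [e3, e4]
  linear_combination (V - I) ^ 3 * h1

end

/-! ### the other side of the digit `1` -/

lemma uS2_ok {U V : ℂ} {H : List QC} (h : (uA2 H).Ok V U) : (uS2 H).Ok U V := by
  obtain ⟨c, h1, h2⟩ := h
  refine ⟨c, ?_, h2⟩
  change c * (Ev.gm 0 1 0 0 (.nl (.mul (.sq ubc) uab))).val V U = ug.val V U ^ 2 at h1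
  change c * (Ev.gm 0 1 0 0 (.nl (.mul (.sq um) uab))).val U V = ug2.val U V ^ 2
  rw [v_neg, v_nl, v_mul, v_sq, val_ubc, val_uab, val_ug] at h1
  rw [v_neg, v_nl, v_mul, v_sq, val_um, val_uab, val_ug2]
  linear_combination h1

lemma uS3_ok {U V : ℂ} {H : List QC} (h : (uA3 H).Ok V U) : (uS3 H).Ok U V := by
  obtain ⟨c, h1, h2⟩ := h
  refine ⟨c, ?_, h2⟩
  change c * (ubc.val V U ^ 2 * ubc.val V U * uab.val V U ^ 2) = uy3.val V U ^ 2 at h1
  change c * (um.val U V ^ 2 * um.val U V * uab.val U V ^ 2) = uz3.val U V ^ 2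
  rw [val_ubc, val_uab, val_uy3, val_ue, val_ug, val_un, pY3] at h1
  rw [val_um, val_uab, val_uz3, val_uf, val_ug2, val_un2, pY3]
  linear_combination h1

lemma uG3_ok {U V : ℂ} (h : (uF3 zeroQ).Ok V U) : (uG3 zeroQ).Ok U V := by
  have h1 : uy3.val V U = 0 := zero_val rfl h
  rw [val_uy3, val_ue, val_ug, val_un, pY3] at h1
  refine zeroN rfl ?_
  change uz3.val U V = 0
  rw [val_uz3, val_uf, val_ug2, val_un2, pY3]
  linear_combination h1

lemma uG4_ok {U V : ℂ} (h : (uF4 zeroQ).Ok V U) : (uG4 zeroQ).Ok U V := by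
  have h1 : uy4.val V U = 0 := zero_val rfl h
  rw [val_uy4, val_ue, val_ug, val_un, pY4] at h1
  refine zeroN rfl ?_
  change uz4.val U V = 0
  rw [val_uz4, val_uf, val_ug2, val_un2, pY4]
  linear_combination h1

lemma uX3_ok {U V : ℂ} (h : (uX2 zeroQ).Ok V U) : (uX3 zeroQ).Ok U V := by
  have h1 : uX2e.val V U = 0 := zero_val rfl h
  rw [val_uX2e, pX] at h1
  refine zeroN rfl ?_
  change uX2r.val U V = 0
  rw [val_uX2r, pX]
  linear_combination h1

/-! ### outer values of the second neighbour on a side `a` -/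

section
variable {U V W q p : ℂ} {H : List QC}

lemma m_eq {U V q : ℂ} (hq : -((U + I) * (V + I)) = q) : U ^ 2 + 1 - q = (U + I) * (U + V) := by
  rw [← hq]
  linear_combination Complex.I_mul_I

lemma d2v (U q : ℂ) : (dr2 0 1).val U q = pD2 U (U ^ 2 + 1 - q) := by
  have hv := CN.Ev.val_dr2 U q 0 1
  apply mul_left_cancel₀ two_ne_zero
  rw [hv]
  simp only [DB, cab, pD2]
  push_cast
  ring

lemma d3v (U q : ℂ) : (dr3 0 1).val U q = pD3 U (U ^ 2 + 1 - q) := by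
  have hv := CN.Ev.val_dr3 U q 0 1
  apply mul_left_cancel₀ two_ne_zero
  rw [hv]
  simp only [DB, cab, pD3]
  push_cast
  linear_combination (-2 * (4 - (U ^ 2 + 1 - q))) * Complex.I_mul_I

lemma d4v (U q : ℂ) : (dr4 0 1).val U q = pD4 U (U ^ 2 + 1 - q) := by
  have hv := CN.Ev.val_dr4 U q 0 1
  apply mul_left_cancel₀ two_ne_zero
  rw [hv]
  simp only [DB, cab, pD4]
  push_cast
  linear_combination (-8 * (2 - (U ^ 2 + 1 - q))) * Complex.I_mul_I

lemma d5v (U q : ℂ) : (dr5 0 1).val U q = pD5 U (U ^ 2 + 1 - q) := by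
  have hv := CN.Ev.val_dr5 U q 0 1
  apply mul_left_cancel₀ two_ne_zero
  rw [hv]
  simp only [DB, cab, pD5]
  push_cast
  linear_combination (-2 * ((U ^ 2 + 1 - q) ^ 2 - 12 * (U ^ 2 + 1 - q) + 16)) *
    Complex.I_mul_I

section
variable (hq : -((U + I) * (V + I)) = q)
include hq

lemma uD2_ok (hg : (gD2 0 1 H).Ok U q) : (uD2 H).Ok U V := by
  obtain ⟨c, h1, h2⟩ := hg
  refine ⟨c, ?_, h2⟩
  change c * ((U ^ 2 + 1 - q) ^ (1 + 1) * q) = (dr2 0 1).val U q ^ 2 at h1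
  change c * (Ev.gm 0 1 0 0 (.nl (.mul uab (.sq um)))).val U V = uD2e.val U V ^ 2
  rw [d2v, m_eq hq, ← hq] at h1
  rw [v_neg, v_nl, v_mul, v_sq, val_uD2e, val_um, val_uab]
  linear_combination h1

lemma uD3_ok (hg : (gD3 0 1 H).Ok U q) : (uD3 H).Ok U V := by
  obtain ⟨c, h1, h2⟩ := hg
  refine ⟨c, ?_, h2⟩
  change c * ((U ^ 2 + 1 - q) ^ (2 + 1) * q) = (dr3 0 1).val U q ^ 2 at h1
  change c * (Ev.gm 0 1 0 0 (.nl (.mul uab (.mul (.sq um) um)))).val U V = uD3e.val U V ^ 2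
  rw [d3v, m_eq hq, ← hq] at h1
  rw [v_neg, v_nl, v_mul, v_mul, v_sq, val_uD3e, val_um, val_uab]
  linear_combination h1

lemma uD4_ok (hg : (gD4 0 1 H).Ok U q) : (uD4 H).Ok U V := by
  obtain ⟨c, h1, h2⟩ := hg
  refine ⟨c, ?_, h2⟩
  change c * ((U ^ 2 + 1 - q) ^ (3 + 1) * q) = (dr4 0 1).val U q ^ 2 at h1
  change c * (Ev.gm 0 1 0 0 (.nl (.mul uab (.sq (.sq um))))).val U V = uD4e.val U V ^ 2
  rw [d4v, m_eq hq, ← hq] at h1
  rw [v_neg, v_nl, v_mul, v_sq, v_sq, val_uD4e, val_um, val_uab]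
  linear_combination h1

lemma uD5_ok (hg : (gD5 0 1 H).Ok U q) : (uD5 H).Ok U V := by
  obtain ⟨c, h1, h2⟩ := hg
  refine ⟨c, ?_, h2⟩
  change c * ((U ^ 2 + 1 - q) ^ (4 + 1) * q) = (dr5 0 1).val U q ^ 2 at h1
  change c * (Ev.gm 0 1 0 0 (.nl (.mul uab (.mul (.sq (.sq um)) um)))).val U V =
    uD5e.val U V ^ 2
  rw [d5v, m_eq hq, ← hq] at h1
  rw [v_neg, v_nl, v_mul, v_mul, v_sq, v_sq, val_uD5e, val_um, val_uab]
  linear_combination h1

lemma uE2_ok (hg : (gE2 0 1).Ok U q) : (uE2 zeroQ).Ok U V := by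
  have h1 : (dr2 0 1).val U q = 0 := zero_val rfl hg
  refine zeroN rfl ?_
  change uD2e.val U V = 0
  rw [val_uD2e, val_um, ← m_eq hq, ← d2v, h1]

lemma uE3_ok (hg : (gE3 0 1).Ok U q) : (uE3 zeroQ).Ok U V := by
  have h1 : (dr3 0 1).val U q = 0 := zero_val rfl hg
  refine zeroN rfl ?_
  change uD3e.val U V = 0
  rw [val_uD3e, val_um, ← m_eq hq, ← d3v, h1]

lemma uE4_ok (hg : (gE4 0 1).Ok U q) : (uE4 zeroQ).Ok U V := by
  have h1 : (dr4 0 1).val U q = 0 := zero_val rfl hg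
  refine zeroN rfl ?_
  change uD4e.val U V = 0
  rw [val_uD4e, val_um, ← m_eq hq, ← d4v, h1]

end

section
variable (h : PV U V W)
include h

lemma s_eq : vs.val V W = -((U - I) * (V + I)) := by
  rw [val_vs, h.fb]
  ring

lemma D2_eq : vD2e.val V W = (V + I) ^ 2 * uD2e.val U V := by
  rw [val_vD2e, s_eq h, vn_eq h, val_vb, val_uD2e, val_um, pD2]
  linear_combination (2 * (V + I) ^ 2) * Complex.I_mul_I

lemma D3_eq : vD3e.val V W = (V + I) ^ 3 * uD3e.val U V := by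
  rw [val_vD3e, s_eq h, vn_eq h, val_vb, val_uD3e, val_um, pD3]
  ring

lemma D4_eq : vD4e.val V W = (V + I) ^ 4 * uD4e.val U V := by
  rw [val_vD4e, s_eq h, vn_eq h, val_vb, val_uD4e, val_um, pD4]
  ring

lemma vD2_ok (hg : (uD2 H).Ok U V) : (vD2 H).Ok V W := by
  obtain ⟨c, h1, h2⟩ := hg
  refine ⟨c, ?_, h2⟩
  change c * (Ev.gm 0 1 0 0 (.nl (.mul uab (.sq um)))).val U V = uD2e.val U V ^ 2 at h1
  rw [v_neg, v_nl, v_mul, v_sq, val_um, val_uab] at h1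
  change c * (vn.val V W ^ 2 * vre.val V W) = vD2e.val V W ^ 2
  rw [D2_eq h, vn_eq h, val_vre, h.e]
  linear_combination (V + I) ^ 4 * h1

lemma vE2_ok (hg : (uE2 zeroQ).Ok U V) : (vE2 zeroQ).Ok V W := by
  have h1 : uD2e.val U V = 0 := zero_val rfl hg
  refine zeroN rfl ?_
  change vD2e.val V W = 0
  rw [D2_eq h, h1, mul_zero]

lemma vE3_ok (hg : (uE3 zeroQ).Ok U V) : (vE3 zeroQ).Ok V W := by
  have h1 : uD3e.val U V = 0 := zero_val rfl hg
  refine zeroN rfl ?_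
  change vD3e.val V W = 0
  rw [D3_eq h, h1, mul_zero]

lemma vE4_ok (hg : (uE4 zeroQ).Ok U V) : (vE4 zeroQ).Ok V W := by
  have h1 : uD4e.val U V = 0 := zero_val rfl hg
  refine zeroN rfl ?_
  change vD4e.val V W = 0
  rw [D4_eq h, h1, mul_zero]

end

end

/-! ### exponentials -/

section
variable {U V W yU yV yW : ℂ} (h : PV U V W)
  (eU : cexp (2 * Real.pi * I * yU) * (U - I) = U + I)
  (eV : cexp (2 * Real.pi * I * yV) * (V - I) = V + I)
  (eW : cexp (2 * Real.pi * I * yW) * (W - I) = W + I)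

/-- the exponential of a hinge, in the variables `U`, `V` -/
def EG (E : ℂ) (g : Grp) (u w : ℂ) : Prop := E * g.M.val u w = g.N.val u w

include eV in
lemma eugT (H : List QC) : EG (cexp (2 * Real.pi * I * yV)) (ugT H) U V := by
  change _ * ue.val U V = ub.val U V
  rw [val_ue, val_ub, eV]

include h eW in
lemma eugK (H : List QC) : EG (cexp (2 * Real.pi * I * yW)) (ugK H) U V := by
  change _ * ubc.val U V = ug.val U V
  have e2 := h.he
  rw [val_ubc, val_ug, h.pe', ← eW]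
  linear_combination (cexp (2 * Real.pi * I * yW)) * e2

include eU in
lemma eugR (H : List QC) : EG (cexp (2 * Real.pi * I * yU)) (ugR H) U V := by
  change _ * uf.val U V = ua.val U V
  rw [val_uf, val_ua, eU]

include h eV eW in
lemma eugA (H : List QC) : EG (cexp (2 * Real.pi * I * (yV + yW))) (ugA H) U V := by
  have e1 := eugK h eW H
  change _ * ubc.val U V = ug.val U V at e1
  change _ * (ue.val U V * uc.val U V) = ug.val U V
  rw [← e1, val_ubc, val_ue, val_uc, mul_add, Complex.exp_add]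
  linear_combination (cexp (2 * Real.pi * I * yW) * (U + V)) * eV

include eU eV in
lemma eugB (H : List QC) : EG (cexp (2 * Real.pi * I * (yV + yU))) (ugB H) U V := by
  change _ * (ue.val U V * uf.val U V) = uab.val U V
  rw [val_ue, val_uf, val_uab, mul_add, Complex.exp_add, ← eU]
  linear_combination (cexp (2 * Real.pi * I * yU) * (U - I)) * eV

include h eU eW in
lemma eugC (H : List QC) : EG (cexp (2 * Real.pi * I * (yU - yW))) (ugC H) U V := by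
  have e1 := eugK h eW H
  change _ * ubc.val U V = ug.val U V at e1
  change _ * (uf.val U V * ug.val U V) = uab.val U V * uc.val U V
  rw [← e1, val_ubc, val_uf, val_uab, val_uc, mul_sub, Complex.exp_sub, ← eU]
  have := Complex.exp_ne_zero (2 * Real.pi * I * yW)
  field_simp

include eV in
lemma evgT (H : List QC) : EG (cexp (2 * Real.pi * I * yV)) (vgT H) V W := by
  change _ * ve.val V W = vb.val V W
  rw [val_ve, val_vb, eV]

include eW in
lemma evgK (H : List QC) : EG (cexp (2 * Real.pi * I * yW)) (vgK H) V W := by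
  change _ * vh.val V W = vi.val V W
  rw [val_vh, val_vi, eW]

include h eU in
lemma evgR (H : List QC) : EG (cexp (2 * Real.pi * I * yU)) (vgR H) V W := by
  change _ * vs.val V W = vre.val V W
  rw [s_eq h, val_vre, h.e, ← eU]
  ring

include eV eW in
lemma evgA (H : List QC) : EG (cexp (2 * Real.pi * I * (yV + yW))) (vgA H) V W := by
  change _ * (ve.val V W * vh.val V W) = vb.val V W * vi.val V W
  rw [val_ve, val_vh, val_vb, val_vi, mul_add, Complex.exp_add, ← eV, ← eW]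
  ring

include h eU eV in
lemma evgB (H : List QC) : EG (cexp (2 * Real.pi * I * (yV + yU))) (vgB H) V W := by
  have e1 := evgR h eU H
  change _ * vs.val V W = vre.val V W at e1
  change _ * vs.val V W = vb.val V W * vr.val V W
  rw [mul_add, Complex.exp_add, mul_assoc, e1, val_vre, val_vb, val_vr, ← eV]
  ring

include h eU eW in
lemma evgC (H : List QC) : EG (cexp (2 * Real.pi * I * (yU - yW))) (vgC H) V W := by
  have e1 := evgR h eU H
  change _ * vs.val V W = vre.val V W at e1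
  change _ * (vs.val V W * vi.val V W) = vre.val V W * vh.val V W
  rw [mul_sub, Complex.exp_sub, ← e1, val_vi, val_vh, ← eW]
  have := Complex.exp_ne_zero (2 * Real.pi * I * yW)
  field_simp

end

end

end Pool.Agent.Work.MP_b30479_gtS.G2.CN.PW

end

section

/-!
# Modes at rings: the far path

`Y = 10000 t`: height of the lower mirrored path (frame of the digit), `t` the trapezoid.
-/

namespace Pool.Agent.Work.MP_b30479_gtS.G2

open NumUs

namespace ZD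

theorem PY_pos {Y : ℝ} (h : 0 < Y) : 0 < PY Y := by
  unfold PY
  positivity

/-! ### Lipschitz bounds in the height -/

theorem Lr_inc {x s s' : ℝ} (h0 : 0 ≤ x) (h1 : x ≤ 2) (hs : 0 ≤ s) (hss : s ≤ s') :
    0 ≤ DT.Lr s' x - DT.Lr s x ∧ DT.Lr s' x - DT.Lr s x ≤ 2 * Real.pi * (s' - s) := by
  have a0 := Lr_diff_mono h0 hs hss
  have a1 := Lr_diff_mono h1 hs hss
  rw [DT.Lr_zero_right, DT.Lr_zero_right] at a0
  have e : ∀ r : ℝ, 0 ≤ r → DT.Lr r 2 = 2 * Real.pi * r := by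
    intro r hr
    have b1 := DT.Lr_add_one hr 1
    have b2 := DT.Lr_add_one hr 0
    rw [zero_add] at b2
    rw [show (1 : ℝ) + 1 = 2 by norm_num, b2, DT.Lr_zero_right] at b1
    linarith only [b1]
  rw [e s hs, e s' (hs.trans hss)] at a1
  constructor <;> linarith only [a0, a1]

theorem uu_lip {x y y' : ℝ} (h0 : 0 ≤ x) (h1 : x ≤ 2) :
    |uu x y - uu x y'| ≤ 3 * Real.pi / 2 * |y - y'| := by
  have hpi := Real.pi_pos
  have key : ∀ y y' : ℝ, |y| ≤ |y'| → |uu x y - uu x y'| ≤ 3 * Real.pi / 2 * |y - y'| := by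
    intro y y' h
    obtain ⟨a, b⟩ := Lr_inc h0 h1 (abs_nonneg y) h
    have h2 : |y'| - |y| ≤ |y - y'| := by
      have := abs_abs_sub_abs_le y' y
      rw [abs_sub_comm y' y] at this
      exact (le_abs_self _).trans this
    have h3 := mul_le_mul_of_nonneg_left h2 (show 0 ≤ 3 * Real.pi / 2 by positivity)
    have h4 : 0 ≤ Real.pi * (|y'| - |y|) := mul_nonneg hpi.le (by linarith only [h])
    rw [uu_Lr, uu_Lr, abs_le]
    constructor <;> linarith only [b, h3, a]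
  rcases le_total |y| |y'| with h | h
  · exact key y y' h
  · rw [abs_sub_comm, abs_sub_comm y]
    exact key y' y h

theorem fR_lip {x y y' σ η : ℝ} (h0 : 0 ≤ x) (h1 : x ≤ 1) (hσ : |σ| ≤ 1 / 2) :
    |fR ⟨x, y⟩ ⟨σ, η⟩ - fR ⟨x, y'⟩ ⟨σ, η⟩| ≤ 6 * Real.pi * |y - y'| := by
  obtain ⟨s0, s1⟩ := abs_le.mp hσ
  have a1 := uu_lip (x := x + 1 / 2 + σ) (y := y + η) (y' := y' + η) (by linarith only [h0, s0]) (by linarith only [h1, s1])
  have a2 := uu_lip (x := x + 1 / 2 - σ) (y := y - η) (y' := y' - η) (by linarith only [h0, s1]) (by linarith only [h1, s0])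
  have a3 := uu_lip (x := x) (y := y) (y' := y') h0 (by linarith only [h1])
  rw [show y + η - (y' + η) = y - y' by ring] at a1
  rw [show y - η - (y' - η) = y - y' by ring] at a2
  rw [fR_uu, fR_uu]
  simp only
  obtain ⟨b1, c1⟩ := abs_le.mp a1
  obtain ⟨b2, c2⟩ := abs_le.mp a2
  obtain ⟨b3, c3⟩ := abs_le.mp a3
  rw [abs_le]
  constructor <;> linarith only [b1, b2, c3, c1, c2, b3]

theorem gD1_lip {x t k1 k2 : ℝ} (h0 : 0 ≤ x) (h1 : x ≤ 1) (h2 : 0 ≤ k1) (h3 : k1 ≤ 1) :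
    |gD1 x t k1 k2 - gD1 x 0 k1 k2| ≤ 4 * Real.pi * |t| := by
  have hpi := Real.pi_pos
  have a1 := uu_lip (x := x + k1) (y := t + k2) (y' := 0 + k2) (by linarith only [h0, h2]) (by linarith only [h1, h3])
  have a2 := uu_lip (x := x) (y := t) (y' := 0) h0 (by linarith only [h1])
  rw [show t + k2 - (0 + k2) = t by ring] at a1
  rw [sub_zero] at a2
  obtain ⟨b1, c1⟩ := abs_le.mp a1
  obtain ⟨b2, c2⟩ := abs_le.mp a2
  obtain ⟨b3, c3⟩ := abs_le.mp (le_refl |t|)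
  have h4 : |Real.pi * (t * k1 - t)| ≤ Real.pi * |t| := by
    rw [abs_mul, abs_of_pos hpi]
    apply mul_le_mul_of_nonneg_left _ hpi.le
    rw [show t * k1 - t = t * (k1 - 1) by ring, abs_mul]
    have : |k1 - 1| ≤ 1 := by
      rw [abs_le]
      constructor <;> linarith only [h2, h3]
    nlinarith only [hpi, b1, this, c1, abs_nonneg t]
  obtain ⟨b4, c4⟩ := abs_le.mp h4
  unfold gD1
  rw [abs_le]
  constructor <;> nlinarith only [b1, c2, b4, c1, b2, c4]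

theorem gD2_lip {x t k1 k2 : ℝ} (h0 : 0 ≤ x) (h1 : x ≤ 1) (h2 : 0 ≤ k1) (h3 : k1 ≤ 1) :
    |gD2 x t k1 k2 - gD2 x 0 k1 k2| ≤ 6 * Real.pi * |t| := by
  have hpi := Real.pi_pos
  have a1 := uu_lip (x := x + k1) (y := t + k2) (y' := 0 + k2) (by linarith only [h0, h2]) (by linarith only [h1, h3])
  have a2 := uu_lip (x := x) (y := t) (y' := 0) h0 (by linarith only [h1])
  rw [show t + k2 - (0 + k2) = t by ring] at a1
  rw [sub_zero] at a2
  obtain ⟨b1, c1⟩ := abs_le.mp a1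
  obtain ⟨b2, c2⟩ := abs_le.mp a2
  have h4 : |Real.pi * ((x - k1) * t)| ≤ Real.pi * |t| := by
    rw [abs_mul, abs_of_pos hpi, abs_mul]
    apply mul_le_mul_of_nonneg_left _ hpi.le
    have : |x - k1| ≤ 1 := by
      rw [abs_le]
      constructor <;> linarith only [h0, h3, h1, h2]
    nlinarith only [hpi, b1, this, c1, abs_nonneg t]
  have h5 : |Real.pi / 2 * t| ≤ Real.pi / 2 * |t| := by
    rw [abs_mul, abs_of_pos (by positivity : (0 : ℝ) < Real.pi / 2)]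
  obtain ⟨b4, c4⟩ := abs_le.mp h4
  obtain ⟨b5, c5⟩ := abs_le.mp h5
  have e : gD2 x t k1 k2 - gD2 x 0 k1 k2 = -(Real.pi * ((x - k1) * t)) - Real.pi / 2 * t +
      (uu (x + k1) (t + k2) - uu (x + k1) (0 + k2)) - 2 * (uu x t - uu x 0) := by
    unfold gD2
    ring
  rw [e, abs_le]
  constructor <;> linarith only [b1, c2, c4, c5, c1, b2, b4, b5]

theorem gD0_lip {x t : ℝ} (h0 : 0 ≤ x) (h1 : x ≤ 1) :
    |gD0 x t - gD0 x 0| ≤ 6 * Real.pi * |t| := by
  have hpi := Real.pi_pos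
  have a2 := uu_lip (x := x) (y := t) (y' := 0) h0 (by linarith only [h1])
  rw [sub_zero] at a2
  obtain ⟨b2, c2⟩ := abs_le.mp a2
  have h4 : |Real.pi * (x * t)| ≤ Real.pi * |t| := by
    rw [abs_mul, abs_of_pos hpi, abs_mul]
    apply mul_le_mul_of_nonneg_left _ hpi.le
    have : |x| ≤ 1 := by
      rw [abs_le]
      constructor <;> linarith only [h0, h1]
    nlinarith only [hpi, b2, this, c2, abs_nonneg t]
  have h5 : |Real.pi / 2 * t| ≤ Real.pi / 2 * |t| := by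
    rw [abs_mul, abs_of_pos (by positivity : (0 : ℝ) < Real.pi / 2)]
  obtain ⟨b4, c4⟩ := abs_le.mp h4
  obtain ⟨b5, c5⟩ := abs_le.mp h5
  have e : gD0 x t - gD0 x 0 = -(Real.pi * (x * t)) - Real.pi / 2 * t - (uu x t - uu x 0) := by
    unfold gD0
    ring
  have h6 := mul_nonneg hpi.le (abs_nonneg t)
  rw [e, abs_le]
  constructor <;> linarith only [b2, c2, c4, c5, b4, b5]

/-! ### the far path -/

/-- small trapezoid: near one of the ends -/
theorem tr_small {XM cl cr x t : ℝ} (hcl : 0 < cl) (hcl' : cl ≤ 16 / 100) (hcr : 0 < cr)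
    (hcr' : cr ≤ 34 / 100) (ht : t = tr 0 XM cl cr x) (h0 : 0 < t) (h1 : t < 1 / 10000) :
    x ≤ 16 / 1000000 ∨ XM - 4 / 100000 ≤ x := by
  have e : t = min 1 (min ((x - 0) / cl) ((XM - x) / cr)) := by
    rw [ht] at h0 ⊢
    unfold tr at h0 ⊢
    rcases le_total 0 (min 1 (min ((x - 0) / cl) ((XM - x) / cr))) with h | h
    · exact max_eq_right h
    · rw [max_eq_left h] at h0
      exact absurd h0 (lt_irrefl _)
  rcases min_choice 1 (min ((x - 0) / cl) ((XM - x) / cr)) with e1 | e1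
  · rw [e1] at e
    linarith only [h0, h1, e]
  · rw [e1] at e
    rcases min_choice ((x - 0) / cl) ((XM - x) / cr) with e2 | e2
    · left
      rw [e2, sub_zero, eq_div_iff hcl.ne'] at e
      nlinarith only [hcl', e, hcl, h1]
    · right
      rw [e2, eq_div_iff hcr.ne'] at e
      nlinarith only [hcl', hcr', e, hcl, h0, h1, hcr]

/-- **The far path**, all zones. -/
theorem far_gen {XM Ym cl cr x Y t d0 dY f0 fY b C m c G : ℝ} (hcl : 0 < cl)
    (hcl' : cl ≤ 16 / 100) (hcr : 0 < cr) (hcr' : cr ≤ 34 / 100) (ht : t = tr 0 XM cl cr x)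
    (h0 : 0 < t) (hY : Y = 10000 * t) (w : 1 ≤ Y → dY + fY < b + G)
    (z : x ≤ 16 / 1000000 → Y ≤ 1 → dY + fY < b + G)
    (e : XM - 4 / 100000 ≤ x → Ym ≤ Y → Y ≤ 1 → dY + fY < b + G)
    (rA : XM - 4 / 100000 ≤ x → Y ≤ Ym → fY - f0 + Y / 1000 + PY Y * (fY - b - c) ≤ 0)
    (rB : XM - 4 / 100000 ≤ x → Y ≤ Ym → dY - d0 + Y / 1000 + PY Y * (dY - C - m) ≤ 0)
    (hG : C + m + c < G) (hM : d0 + f0 - Y / 1000 ≤ dY + fY) : dY + fY < b + G := by
  have hYp : 0 < Y := by rw [hY]; linarith only [h0]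
  rcases le_or_gt 1 Y with h | h
  · exact w h
  rcases tr_small hcl hcl' hcr hcr' ht h0 (by linarith only [hY, h]) with h2 | h2
  · exact z h2 h.le
  rcases le_or_gt Ym Y with h3 | h3
  · exact e h2 h3 h.le
  have a1 := rA h2 h3.le
  have a2 := rB h2 h3.le
  have a3 := PY_pos hYp
  by_contra hc
  have a4 : 0 < (fY - b - c) + (dY - C - m) := by linarith only [hG, hc]
  have a5 := mul_pos a3 a4
  nlinarith only [h0, hY, hM, a1, a2, a5]

/-- the loss of the comparison with the same point of the main path -/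
theorem pert {x Y t T σ η g g0 L : ℝ} (hx0 : 0 ≤ x) (hx1 : x ≤ 1) (hσ : |σ| ≤ 1 / 2)
    (hY : Y = 10000 * t) (h0 : 0 < t) (hT0 : -(1 / 1000) ≤ T) (hT1 : T ≤ 158 / 1000)
    (hL : L ≤ 6 * Real.pi) (hg : |g - g0| ≤ L * |T * t|) :
    g0 + fR ⟨x, 0⟩ ⟨σ, η⟩ - Y / 1000 ≤ g + fR ⟨x, -(T * t)⟩ ⟨σ, η⟩ := by
  have hpi := Real.pi_pos
  have hpi4 : Real.pi < 3.15 := Real.pi_lt_d2
  have a1 := fR_lip (x := x) (y := -(T * t)) (y' := 0) (η := η) hx0 hx1 hσ
  rw [sub_zero, abs_neg] at a1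
  obtain ⟨b1, c1⟩ := abs_le.mp a1
  obtain ⟨b2, c2⟩ := abs_le.mp hg
  have h1 : |T * t| ≤ 158 / 1000 * t := by
    rw [abs_mul, abs_of_pos h0]
    apply mul_le_mul_of_nonneg_right _ h0.le
    rw [abs_le]
    constructor <;> linarith only [hT0, hT1]
  have h2 : L * |T * t| ≤ 6 * Real.pi * |T * t| := mul_le_mul_of_nonneg_right hL (abs_nonneg _)
  have h3 : 6 * Real.pi * |T * t| ≤ 6 * 3.15 * (158 / 1000 * t) := by
    apply mul_le_mul (by linarith only [hpi4]) h1 (abs_nonneg _) (by norm_num)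
  rw [hY]
  linarith only [h0, b1, b2, h2, h3]

end ZD

end Pool.Agent.Work.MP_b30479_gtS.G2

end
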