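import Pool.Agent.Work.MP_b30479_gt.TBS.G2.RMon
import Pool.Agent.Work.MP_b30479_gt.TBS.G2.TRc

/-!
# Moving a ring variable towards `-11/40`: the far hinge

The ring variable moves from `σ + iη`, `|σ| ∈ [11/40, 1/2]`, to `-11/40 + iη'`, `η ≤ η'`; the hinge
`u + iY` in the other slot stays.  `far_neg_up`, `far_neg_down`, `far_pos`: bounds of the loss.
-/

namespace Pool.Agent.Work.MP_b30479_gtS.G2

open Finset VOL Filter Topology NumUs

/-! ### increments of `Lr` in the height -/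

theorem inc_ge_half {x s s' : ℝ} (hx : 1 / 2 ≤ x) (h0 : 0 ≤ s) (h : s ≤ s') :
    Real.pi / 2 * (s' - s) ≤ DT.Lr s' x - DT.Lr s x := by
  have h1 := Lr_diff_mono hx h0 h
  rw [DT.Lr_half h0, DT.Lr_half (h0.trans h)] at h1
  linarith only [h1]

theorem inc_le_half {x s s' : ℝ} (hx : x ≤ 1 / 2) (h0 : 0 ≤ s) (h : s ≤ s') :
    DT.Lr s' x - DT.Lr s x ≤ Real.pi / 2 * (s' - s) := by
  have h1 := Lr_diff_mono hx h0 h
  rw [DT.Lr_half h0, DT.Lr_half (h0.trans h)] at h1
  linarith only [h1]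

theorem inc_ge_one {x s s' : ℝ} (hx : 1 ≤ x) (h0 : 0 ≤ s) (h : s ≤ s') :
    Real.pi * (s' - s) ≤ DT.Lr s' x - DT.Lr s x := by
  have h1 := Lr_diff_mono hx h0 h
  rw [DT.Lr_one h0, DT.Lr_one (h0.trans h)] at h1
  linarith only [h1]

theorem inc_le_one {x s s' : ℝ} (hx : x ≤ 1) (h0 : 0 ≤ s) (h : s ≤ s') :
    DT.Lr s' x - DT.Lr s x ≤ Real.pi * (s' - s) := by
  have h1 := Lr_diff_mono hx h0 h
  rw [DT.Lr_one h0, DT.Lr_one (h0.trans h)] at h1
  linarith only [h1]

theorem inc_le_three {x s s' : ℝ} (hx : x ≤ 1 / 2 + 1) (h0 : 0 ≤ s) (h : s ≤ s') :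
    DT.Lr s' x - DT.Lr s x ≤ 3 * Real.pi / 2 * (s' - s) := by
  have h1 := Lr_diff_mono hx h0 h
  rw [DT.Lr_add_one h0, DT.Lr_add_one (h0.trans h), DT.Lr_half h0, DT.Lr_half (h0.trans h)] at h1
  linarith only [h1]

theorem Tr_ge {x s : ℝ} (h0 : 0 ≤ x) (h1 : x ≤ 1 / 2) (hs : 0 < s) : Real.pi * x ≤ DT.Tr s x := by
  unfold DT.Tr
  have e : (Complex.exp (2 * Real.pi * Complex.I * (x + s * Complex.I))) =
      (Real.exp (-(2 * Real.pi * s)) : ℂ) *
        (Real.cos (2 * Real.pi * x) + Real.sin (2 * Real.pi * x) * Complex.I) := by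
    rw [show 2 * Real.pi * Complex.I * (x + s * Complex.I) =
      ((-(2 * Real.pi * s) : ℝ) : ℂ) + ((2 * Real.pi * x : ℝ) : ℂ) * Complex.I by
        push_cast
        linear_combination (2 * Real.pi * s : ℂ) * Complex.I_sq]
    rw [Complex.exp_add, Complex.exp_mul_I]
    push_cast
    ring
  set z : ℂ := 1 - Complex.exp (2 * Real.pi * Complex.I * (x + s * Complex.I)) with hz
  have hre : 0 < z.re := by
    rw [hz, e]
    simp only [Complex.sub_re, Complex.one_re, Complex.mul_re, Complex.add_re, Complex.add_im,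
      Complex.ofReal_re, Complex.ofReal_im, Complex.I_re, Complex.I_im, Complex.mul_im]
    have a1 : Real.exp (-(2 * Real.pi * s)) < 1 := by
      rw [Real.exp_lt_one_iff]
      have := Real.pi_pos
      have : 0 < 2 * Real.pi * s := by positivity
      linarith only [this]
    have a2 := Real.cos_le_one (2 * Real.pi * x)
    have a3 := Real.exp_pos (-(2 * Real.pi * s))
    nlinarith only [a1, a3, a2]
  have him : z.im ≤ 0 := by
    rw [hz, e]
    simp only [Complex.sub_im, Complex.one_im, Complex.mul_re, Complex.add_re, Complex.add_im,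
      Complex.ofReal_re, Complex.ofReal_im, Complex.I_re, Complex.I_im, Complex.mul_im]
    have a1 := sin_two_pi_nonneg h0 h1
    have a3 := Real.exp_pos (-(2 * Real.pi * s))
    have := mul_nonneg a3.le a1
    linarith only [this]
  have harg : z.arg ≤ 0 := by
    rcases him.lt_or_eq with h | h
    · exact (Complex.arg_neg_iff.mpr h).le
    · exact (Complex.arg_eq_zero_iff.mpr ⟨hre.le, h⟩).le
  linarith only [harg]

theorem inc_ge_lin {c x s s' : ℝ} (hc : 0 ≤ c) (hc' : c ≤ 1 / 2) (hx : c ≤ x) (h0 : 0 ≤ s)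
    (h : s ≤ s') : Real.pi * c * (s' - s) ≤ DT.Lr s' x - DT.Lr s x := by
  have h1 := Lr_diff_mono hx h0 h
  have hm : MonotoneOn (fun r => DT.Lr r c - Real.pi * c * r) (Set.Ici 0) := by
    apply monotoneOn_of_deriv_nonneg (convex_Ici 0)
    · exact ((DT.LrCont.continuous_Lr_left c).sub (continuous_const.mul continuous_id)).continuousOn
    · intro r hr
      rw [interior_Ici] at hr
      exact ((DT.hasDerivAt_Lr_left (Set.mem_Ioi.mp hr)).sub
        ((hasDerivAt_id r).const_mul (Real.pi * c))).differentiableAt.differentiableWithinAt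
    · intro r hr
      rw [interior_Ici] at hr
      have e := ((DT.hasDerivAt_Lr_left (x := c) (Set.mem_Ioi.mp hr)).sub
        ((hasDerivAt_id r).const_mul (Real.pi * c))).deriv
      have e2 : deriv (fun r => DT.Lr r c - Real.pi * c * r) r = DT.Tr r c - Real.pi * c * 1 := e
      rw [e2]
      linarith only [hc, hc', hr, Tr_ge hc hc' (Set.mem_Ioi.mp hr)]
  have h2 := hm (Set.mem_Ici.mpr h0) (Set.mem_Ici.mpr (h0.trans h)) h
  simp only at h2
  linarith only [h1, h2]

/-! ### vertical moves at `-11/40` -/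

/-- the two factors with the ring variable at `-11/40 + iη` -/
noncomputable def vP (u Y η : ℝ) : ℝ := uu (u + 9 / 40) (Y + η) + uu (u + 31 / 40) (Y - η)

theorem fR_vP (u Y η : ℝ) : fR ⟨u, Y⟩ ⟨-(11 / 40), η⟩ = vP u Y η - 2 * uu u Y := by
  rw [fR_uu]
  simp only
  unfold vP
  rw [show u + 1 / 2 + -(11 / 40) = u + 9 / 40 by ring,
    show u + 1 / 2 - -(11 / 40) = u + 31 / 40 by ring]

/-- heights with `|Y| ≤ η` -/
theorem vP_in {u Y η η' : ℝ} (h0 : 0 ≤ u) (hY : |Y| ≤ η) (h : η ≤ η') :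
    vP u Y η - vP u Y η' ≤ 11 / 40 * Real.pi * (η' - η) := by
  obtain ⟨y0, y1⟩ := abs_le.mp hY
  have hpi := Real.pi_pos
  unfold vP
  rw [uu_Lr, uu_Lr, uu_Lr, uu_Lr, abs_of_nonneg (show 0 ≤ Y + η by linarith only [y0]),
    abs_of_nonneg (show 0 ≤ Y + η' by linarith only [h, y0]), abs_of_nonpos (show Y - η ≤ 0 by linarith only [y1]),
    abs_of_nonpos (show Y - η' ≤ 0 by linarith only [h, y1])]
  have a1 := inc_ge_lin (c := 9 / 40) (x := u + 9 / 40) (by norm_num) (by norm_num) (by linarith only [h0])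
    (show 0 ≤ Y + η by linarith only [y0]) (show Y + η ≤ Y + η' by linarith only [h])
  have a2 := inc_ge_half (x := u + 31 / 40) (by linarith only [h0]) (show 0 ≤ -(Y - η) by linarith only [y1])
    (show -(Y - η) ≤ -(Y - η') by linarith only [h])
  linarith only [a1, a2]

/-- heights below `Y` -/
theorem vP_up {u Y η η' : ℝ} (h0 : 0 ≤ u) (h1 : u ≤ 1 / 2) (hη : 0 ≤ η) (h : η ≤ η') (hY : η' ≤ Y) :
    vP u Y η - vP u Y η' ≤ 21 / 20 * Real.pi * (η' - η) := by
  have hpi := Real.pi_pos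
  have hp := mul_nonneg hpi.le (show 0 ≤ η' - η by linarith only [h])
  unfold vP
  rw [uu_Lr, uu_Lr, uu_Lr, uu_Lr, abs_of_nonneg (show 0 ≤ Y + η by linarith only [hη, h, hY]),
    abs_of_nonneg (show 0 ≤ Y + η' by linarith only [hη, h, hY]), abs_of_nonneg (show 0 ≤ Y - η by linarith only [h, hY]),
    abs_of_nonneg (show 0 ≤ Y - η' by linarith only [hY])]
  rcases le_total (u + 31 / 40) 1 with h2 | h2
  · have a1 := inc_ge_lin (c := 9 / 40) (x := u + 9 / 40) (by norm_num) (by norm_num) (by linarith only [h0])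
      (show 0 ≤ Y + η by linarith only [hη, h, hY]) (show Y + η ≤ Y + η' by linarith only [h])
    have a2 := inc_le_one h2 (show 0 ≤ Y - η' by linarith only [hY]) (show Y - η' ≤ Y - η by linarith only [h])
    linarith only [hp, a1, a2]
  · have a1 := inc_ge_lin (c := 9 / 20) (x := u + 9 / 40) (by norm_num) (by norm_num) (by linarith only [h2])
      (show 0 ≤ Y + η by linarith only [hη, h, hY]) (show Y + η ≤ Y + η' by linarith only [h])
    have a2 := inc_le_three (x := u + 31 / 40) (by linarith only [h1]) (show 0 ≤ Y - η' by linarith only [hY])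
      (show Y - η' ≤ Y - η by linarith only [h])
    linarith only [a1, a2]

/-- heights below `|Y|`, `Y < 0` -/
theorem vP_down {u Y η η' : ℝ} (h0 : 0 ≤ u) (h1 : u ≤ 1 / 2) (hη : 0 ≤ η) (h : η ≤ η')
    (hY : η' ≤ -Y) : vP u Y η - vP u Y η' ≤ 0 := by
  have hpi := Real.pi_pos
  unfold vP
  rw [uu_Lr, uu_Lr, uu_Lr, uu_Lr, abs_of_nonpos (show Y + η ≤ 0 by linarith only [h, hY]),
    abs_of_nonpos (show Y + η' ≤ 0 by linarith only [hY]), abs_of_nonpos (show Y - η ≤ 0 by linarith only [hη, h, hY]),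
    abs_of_nonpos (show Y - η' ≤ 0 by linarith only [hη, h, hY])]
  rcases le_total (u + 9 / 40) (1 / 2) with h2 | h2
  · have a1 := inc_le_half h2 (show 0 ≤ -(Y + η') by linarith only [hY]) (show -(Y + η') ≤ -(Y + η) by linarith only [h])
    have a2 := inc_ge_half (x := u + 31 / 40) (by linarith only [h0]) (show 0 ≤ -(Y - η) by linarith only [hη, h, hY])
      (show -(Y - η) ≤ -(Y - η') by linarith only [h])
    linarith only [a1, a2]
  · have a1 := inc_le_one (x := u + 9 / 40) (by linarith only [h1]) (show 0 ≤ -(Y + η') by linarith only [hY])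
      (show -(Y + η') ≤ -(Y + η) by linarith only [h])
    have a2 := inc_ge_one (x := u + 31 / 40) (by linarith only [h2]) (show 0 ≤ -(Y - η) by linarith only [hη, h, hY])
      (show -(Y - η) ≤ -(Y - η') by linarith only [h])
    linarith only [a1, a2]

theorem vP_pos {u Y η η' : ℝ} (h0 : 0 ≤ u) (h1 : u ≤ 1 / 2) (hη : 0 ≤ η) (h : η ≤ η') (hY : 0 ≤ Y) :
    vP u Y η - vP u Y η' ≤ 11 / 40 * Real.pi * (η' - η) + 21 / 20 * Real.pi * max (Y - η) 0 := by
  have hpi := Real.pi_pos
  have hm1 := le_max_left (Y - η) 0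
  have hm2 := le_max_right (Y - η) 0
  have hp := mul_nonneg hpi.le (show 0 ≤ η' - η by linarith only [h])
  have hq := mul_nonneg hpi.le hm2
  have hr := mul_le_mul_of_nonneg_left hm1 hpi.le
  rcases le_total Y η with h2 | h2
  · have := vP_in (u := u) (Y := Y) h0 (by rw [abs_of_nonneg hY]; exact h2) h
    linarith only [hq, this]
  · rcases le_total η' Y with h3 | h3
    · have := vP_up (u := u) (Y := Y) h0 h1 hη h h3
      have h4 := mul_le_mul_of_nonneg_left (show η' - η ≤ Y - η by linarith only [h3]) hpi.le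
      linarith only [hq, hr, this, h4]
    · have a1 := vP_up (u := u) (Y := Y) h0 h1 hη h2 le_rfl
      have a2 := vP_in (u := u) (Y := Y) h0 (by rw [abs_of_nonneg hY]) h3
      have h4 := mul_nonneg hpi.le (show 0 ≤ Y - η by linarith only [h2])
      linarith only [hq, hr, a1, a2]

theorem vP_neg {u Y η η' : ℝ} (h0 : 0 ≤ u) (h1 : u ≤ 1 / 2) (hη : 0 ≤ η) (h : η ≤ η') (hY : Y ≤ 0) :
    vP u Y η - vP u Y η' ≤ 11 / 40 * Real.pi * (η' - η) := by
  have hpi := Real.pi_pos
  have hp := mul_nonneg hpi.le (show 0 ≤ η' - η by linarith only [h])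
  rcases le_total (-Y) η with h2 | h2
  · exact vP_in (u := u) (Y := Y) h0 (by rw [abs_of_nonpos hY]; exact h2) h
  · rcases le_total η' (-Y) with h3 | h3
    · have := vP_down (u := u) (Y := Y) h0 h1 hη h h3
      linarith only [hp, this]
    · have a1 := vP_down (u := u) (Y := Y) h0 h1 hη h2 le_rfl
      have a2 := vP_in (u := u) (Y := Y) h0 (by rw [abs_of_nonpos hY]) h3
      have h4 := mul_nonneg hpi.le (show 0 ≤ -Y - η by linarith only [h2])
      linarith only [a1, a2, h4]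

/-! ### horizontal moves -/

theorem fR_neg_uu (u Y s η : ℝ) : fR ⟨u, Y⟩ ⟨-s, η⟩ =
    uu (u + 1 / 2 - s) (Y + η) + uu (u + 1 / 2 + s) (Y - η) - 2 * uu u Y := by
  rw [fR_uu]
  simp only
  rw [← sub_eq_add_neg, sub_neg_eq_add]

/-- `Y ≥ 0` -/
theorem hor_up {u Y s s' η : ℝ} (h0 : 0 ≤ u) (h1 : u ≤ 1 / 2) (hY : 0 ≤ Y) (hη : 0 ≤ η)
    (hs' : 0 ≤ s') (hss : s' ≤ s) (hs : s ≤ 1 / 2) :
    fR ⟨u, Y⟩ ⟨-s, η⟩ ≤ fR ⟨u, Y⟩ ⟨-s', η⟩ := by
  rw [fR_neg_uu, fR_neg_uu]
  simp only [uu_Lr]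
  rw [abs_of_nonneg (show 0 ≤ Y + η by linarith only [hY, hη])]
  have hp : |Y - η| ≤ Y + η := by
    rw [abs_le]
    constructor <;> linarith only [hY, hη]
  have a1 := Lr_diff_mono (a := u + 1 / 2 - s') (b := u + 1 / 2 - s) (by linarith only [hss])
    (abs_nonneg (Y - η)) hp
  have a2 := pair_anti (x := u) |Y - η| h0 h1 hs' hss hs
  unfold pr2 at a2
  simp only [UU_uu, uu_Lr, abs_abs] at a2
  linarith only [a1, a2]

theorem Lr_sec {p q x x' : ℝ} (hp : 0 ≤ p) (hpq : p ≤ q) (h0 : 1 / 4 ≤ x) (hx : x ≤ x')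
    (h1 : x' ≤ 3 / 4) : (DT.Lr q x' - DT.Lr p x') - (DT.Lr q x - DT.Lr p x) ≤
      Real.pi * (q - p) * (x' - x) := by
  have key : ∀ p : ℝ, 0 < p → p ≤ q → (DT.Lr q x' - DT.Lr p x') - (DT.Lr q x - DT.Lr p x) ≤
      Real.pi * (q - p) * (x' - x) := by
    intro p hp hpq
    have hq : 0 < q := by linarith only [hp, hpq]
    have hd : ∀ r : ℝ, HasDerivAt (fun x => DT.Lr q x - DT.Lr p x - Real.pi * (q - p) * x)
        (DT.el q r - DT.el p r - Real.pi * (q - p) * 1) r := fun r =>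
      ((DT.hasDerivAt_Lr hq).sub (DT.hasDerivAt_Lr hp)).sub
        ((hasDerivAt_id r).const_mul (Real.pi * (q - p)))
    have hm : AntitoneOn (fun x => DT.Lr q x - DT.Lr p x - Real.pi * (q - p) * x)
        (Set.Icc (1 / 4) (3 / 4)) := by
      apply antitoneOn_of_deriv_nonpos (convex_Icc _ _)
      · exact fun r _ => (hd r).continuousAt.continuousWithinAt
      · exact fun r _ => (hd r).differentiableAt.differentiableWithinAt
      · intro r hr
        rw [interior_Icc] at hr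
        rw [(hd r).deriv]
        have hpi := Real.pi_pos
        have hc : Real.cos (2 * Real.pi * r) ≤ 0 := by
          apply Real.cos_nonpos_of_pi_div_two_le_of_le
          · nlinarith only [hpi, hr, hr.1]
          · nlinarith only [hpi, hr, hr.2]
        unfold DT.el
        set c := Real.cos (2 * Real.pi * r)
        have hcp := Real.cosh_pos (2 * Real.pi * p)
        have hcq := Real.cosh_pos (2 * Real.pi * q)
        have hE : Real.cosh (2 * Real.pi * q) ≤
            Real.exp (2 * Real.pi * (q - p)) * Real.cosh (2 * Real.pi * p) := by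
          rw [Real.cosh_eq, Real.cosh_eq, mul_div_assoc', mul_add, ← Real.exp_add, ← Real.exp_add]
          have b1 : 2 * Real.pi * (q - p) + 2 * Real.pi * p = 2 * Real.pi * q := by ring
          have b2 : Real.exp (-(2 * Real.pi * q)) ≤
              Real.exp (2 * Real.pi * (q - p) + -(2 * Real.pi * p)) := by
            apply Real.exp_le_exp.mpr
            nlinarith only [hpq, hpi]
          rw [b1]
          linarith only [b2]
        have hE1 : 1 ≤ Real.exp (2 * Real.pi * (q - p)) := by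
          apply Real.one_le_exp
          have : 0 ≤ q - p := by linarith only [hpq]
          positivity
        have h5 : 2 * Real.cosh (2 * Real.pi * q) - 2 * c ≤
            Real.exp (2 * Real.pi * (q - p)) * (2 * Real.cosh (2 * Real.pi * p) - 2 * c) := by
          nlinarith only [hE, hc, hE1]
        have h6 := Real.log_le_log (by linarith only [hc, hcq]) h5
        rw [Real.log_mul (Real.exp_pos _).ne' (by linarith only [hc, hcp]), Real.log_exp] at h6
        linarith only [h6]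
    have h := hm ⟨h0, by linarith only [hx, h1]⟩ ⟨by linarith only [h0, hx], h1⟩ hx
    simp only at h
    linarith only [h]
  rcases hp.lt_or_eq with h | h
  · exact key p h hpq
  · subst h
    rcases hpq.lt_or_eq with h2 | h2
    · have c1 : ∀ z : ℝ, Tendsto (fun s => DT.Lr s z) (𝓝[>] 0) (𝓝 (DT.Lr 0 z)) := fun z =>
        (DT.LrCont.continuous_Lr_left z).continuousAt.tendsto.mono_left nhdsWithin_le_nhds
      have c2 : Tendsto (fun p => (DT.Lr q x' - DT.Lr p x') - (DT.Lr q x - DT.Lr p x)) (𝓝[>] 0)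
          (𝓝 ((DT.Lr q x' - DT.Lr 0 x') - (DT.Lr q x - DT.Lr 0 x))) :=
        (tendsto_const_nhds.sub (c1 x')).sub (tendsto_const_nhds.sub (c1 x))
      have c3 : Tendsto (fun p => Real.pi * (q - p) * (x' - x)) (𝓝[>] 0)
          (𝓝 (Real.pi * (q - 0) * (x' - x))) := by
        have : Continuous fun p : ℝ => Real.pi * (q - p) * (x' - x) := by fun_prop
        exact this.continuousAt.tendsto.mono_left nhdsWithin_le_nhds
      refine le_of_tendsto_of_tendsto c2 c3 ?_
      filter_upwards [self_mem_nhdsWithin, nhdsWithin_le_nhds (gt_mem_nhds h2)] with p h3 h4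
      exact key p h3 h4.le
    · rw [← h2]
      simp

/-- `Y ≤ 0`, `u ≥ 1/4` -/
theorem hor_down_near {u Y s η : ℝ} (h0 : 1 / 4 ≤ u) (h1 : u ≤ 1 / 2) (hY : Y ≤ 0)
    (hη : 0 ≤ η) (hss : 11 / 40 ≤ s) (hs : s ≤ 1 / 2) :
    fR ⟨u, Y⟩ ⟨-s, η⟩ ≤ fR ⟨u, Y⟩ ⟨-(11 / 40), η⟩ + Real.pi * (η - Y - |Y + η|) * (s - 11 / 40) := by
  rw [fR_neg_uu, fR_neg_uu]
  simp only [uu_Lr]
  rw [abs_of_nonpos (show Y - η ≤ 0 by linarith only [hY, hη]), show -(Y - η) = η - Y by ring]
  have hp : |Y + η| ≤ η - Y := by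
    rw [abs_le]
    constructor <;> linarith only [hη, hY]
  have a2 := pair_anti (x := u) (η - Y) (by linarith only [h0]) h1 (show 0 ≤ (11 / 40 : ℝ) by norm_num) hss hs
  unfold pr2 at a2
  simp only [UU_uu, uu_Lr, abs_of_nonneg (show 0 ≤ η - Y by linarith only [hY, hη])] at a2
  have a3 := Lr_sec (x := u + 1 / 2 - s) (x' := u + 1 / 2 - 11 / 40) (abs_nonneg (Y + η)) hp
    (by linarith only [h0, hs]) (by linarith only [hss]) (by linarith only [h1])
  rw [show u + 1 / 2 - 11 / 40 - (u + 1 / 2 - s) = s - 11 / 40 by ring] at a3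
  linarith only [a2, a3]

/-- two factors with different heights -/
theorem hor_two {u y1 y2 s s' : ℝ} (hss : s' ≤ s)
    (hc : ∀ r, s' ≤ r → r ≤ s → Real.cosh (2 * Real.pi * y1) + Real.cos (2 * Real.pi * (u + r)) ≤
      Real.cosh (2 * Real.pi * y2) + Real.cos (2 * Real.pi * (u - r))) (h1 : y1 ≠ 0) (h2 : y2 ≠ 0) :
    uu (u + 1 / 2 + s) y1 + uu (u + 1 / 2 - s) y2 ≤ uu (u + 1 / 2 + s') y1 + uu (u + 1 / 2 - s') y2 := by
  have hd : ∀ r : ℝ, HasDerivAt (fun s : ℝ => UU ⟨u + 1 / 2 + 1 * s, y1⟩ + UU ⟨u + 1 / 2 + -1 * s, y2⟩)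
      (1 * LL ⟨u + 1 / 2 + 1 * r, y1⟩ + -1 * LL ⟨u + 1 / 2 + -1 * r, y2⟩) r := fun r =>
    (hasDerivAt_UU_hor h1 1 r).add (hasDerivAt_UU_hor h2 (-1) r)
  have hm : AntitoneOn (fun s : ℝ => UU ⟨u + 1 / 2 + 1 * s, y1⟩ + UU ⟨u + 1 / 2 + -1 * s, y2⟩)
      (Set.Icc s' s) := by
    apply antitoneOn_of_deriv_nonpos (convex_Icc _ _)
    · exact fun r _ => (hd r).continuousAt.continuousWithinAt
    · exact fun r _ => (hd r).differentiableAt.differentiableWithinAt
    · intro r hr
      rw [interior_Icc] at hr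
      rw [(hd r).deriv, LL_eq', LL_eq']
      simp only
      have e1 : Real.cos (2 * Real.pi * (u + 1 / 2 + 1 * r)) = -Real.cos (2 * Real.pi * (u + r)) := by
        rw [show 2 * Real.pi * (u + 1 / 2 + 1 * r) = 2 * Real.pi * (u + r) + Real.pi by ring,
          Real.cos_add_pi]
      have e2 : Real.cos (2 * Real.pi * (u + 1 / 2 + -1 * r)) = -Real.cos (2 * Real.pi * (u - r)) := by
        rw [show 2 * Real.pi * (u + 1 / 2 + -1 * r) = 2 * Real.pi * (u - r) + Real.pi by ring,
          Real.cos_add_pi]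
      rw [e1, e2]
      have h3 : 1 < Real.cosh (2 * Real.pi * y1) := by
        rw [Real.one_lt_cosh]
        exact mul_ne_zero (by positivity) h1
      have h4 := Real.neg_one_le_cos (2 * Real.pi * (u + r))
      have h5 := hc r hr.1.le hr.2.le
      have h6 : Real.log (2 * Real.cosh (2 * Real.pi * y1) - 2 * -Real.cos (2 * Real.pi * (u + r))) ≤
          Real.log (2 * Real.cosh (2 * Real.pi * y2) - 2 * -Real.cos (2 * Real.pi * (u - r))) := by
        apply Real.log_le_log <;> linarith only [h3, h4, h5]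
      linarith only [h6]
  have h := hm (Set.left_mem_Icc.mpr hss) (Set.right_mem_Icc.mpr hss) hss
  simp only [one_mul, neg_mul, ← sub_eq_add_neg, UU_uu] at h
  exact h

/-- the same, one of the heights may vanish -/
theorem hor_two' {u y1 y2 s s' : ℝ} (hss : s' ≤ s)
    (hc : ∀ r, s' ≤ r → r ≤ s → Real.cosh (2 * Real.pi * y1) + Real.cos (2 * Real.pi * (u + r)) ≤
      Real.cosh (2 * Real.pi * y2) + Real.cos (2 * Real.pi * (u - r))) (h1 : y1 ≠ 0) :
    uu (u + 1 / 2 + s) y1 + uu (u + 1 / 2 - s) y2 ≤ uu (u + 1 / 2 + s') y1 + uu (u + 1 / 2 - s') y2 := by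
  by_cases h2 : y2 = 0
  · subst h2
    have c1 : ∀ a : ℝ, Tendsto (fun y => uu a y) (𝓝[≠] 0) (𝓝 (uu a 0)) := by
      intro a
      have : Continuous fun y : ℝ => uu a y := by
        have h3 : Continuous fun y : ℝ => DT.Lr |y| a - Real.pi * |y| / 2 :=
          ((DT.LrCont.continuous_Lr_left a).comp continuous_abs).sub (by fun_prop)
        exact h3
      exact this.continuousAt.tendsto.mono_left nhdsWithin_le_nhds
    refine le_of_tendsto_of_tendsto ((tendsto_const_nhds (x := uu (u + 1 / 2 + s) y1)).add (c1 _))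
      ((tendsto_const_nhds (x := uu (u + 1 / 2 + s') y1)).add (c1 _)) ?_
    filter_upwards [self_mem_nhdsWithin] with y hy
    refine hor_two hss (fun r a b => ?_) h1 hy
    have h4 := hc r a b
    rw [mul_zero, Real.cosh_zero] at h4
    have h5 := Real.one_le_cosh (2 * Real.pi * y)
    linarith only [h4, h5]
  · exact hor_two hss hc h1 h2

theorem sinh_le {x c : ℝ} (h0 : 0 ≤ x) (hc : Real.exp (x ^ 2 / 2) ≤ c) : Real.sinh x ≤ c * x := by
  have h1 : Real.sinh x ≤ x * Real.cosh x := by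
    have hm : MonotoneOn (fun x => x * Real.cosh x - Real.sinh x) (Set.Ici 0) := by
      apply monotoneOn_of_deriv_nonneg (convex_Ici 0)
      · exact ((continuous_id.mul Real.continuous_cosh).sub Real.continuous_sinh).continuousOn
      · intro r _
        exact ((differentiableAt_id.mul Real.differentiableAt_cosh).sub
          Real.differentiableAt_sinh).differentiableWithinAt
      · intro r hr
        rw [interior_Ici] at hr
        have hr : 0 < r := hr
        have e : HasDerivAt (fun x => x * Real.cosh x - Real.sinh x)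
            (1 * Real.cosh r + r * Real.sinh r - Real.cosh r) r :=
          ((hasDerivAt_id r).mul (Real.hasDerivAt_cosh r)).sub (Real.hasDerivAt_sinh r)
        rw [e.deriv]
        have := Real.sinh_nonneg_iff.mpr hr.le
        have := mul_nonneg hr.le this
        linarith only [this]
    have h := hm (Set.mem_Ici.mpr le_rfl) (Set.mem_Ici.mpr h0) h0
    simp only [zero_mul, Real.sinh_zero, sub_zero] at h
    linarith only [h]
  have h2 := Real.cosh_le_exp_half_sq x
  nlinarith only [h1, h0, hc, h2]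

theorem jordan {x : ℝ} (h0 : 0 ≤ x) (h1 : x ≤ 1 / 4) : 4 * x ≤ Real.sin (2 * Real.pi * x) := by
  have hpi := Real.pi_pos
  have h := Real.mul_le_sin (x := 2 * Real.pi * x) (by positivity) (by nlinarith only [h1, hpi])
  have e : 2 / Real.pi * (2 * Real.pi * x) = 4 * x := by
    field_simp
    ring
  linarith only [h, e]

theorem exp_le_of {x c : ℝ} (h : x ≤ 1 - 1 / c) (hc : 0 < c) : Real.exp x ≤ c := by
  have h1 := Real.add_one_le_exp (-x)
  have h2 : 1 / c ≤ Real.exp (-x) := by linarith only [h, h1]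
  rw [Real.exp_neg, one_div] at h2
  exact (inv_le_inv₀ hc (Real.exp_pos x)).mp h2

/-- `Y ≤ 0`, `u ≤ 1/4` -/
theorem hor_down_far {u Y s η : ℝ} (h0 : 0 ≤ u) (h1 : u ≤ 1 / 4) (hY : Y < 0)
    (hY1 : -Y ≤ 6 / 10 * u) (hY2 : -Y ≤ 6 / 100) (hη : 0 ≤ η) (hη1 : η ≤ 418 / 1000 * (1 / 2 - s))
    (hss : 11 / 40 ≤ s) (hs : s ≤ 1 / 2) :
    fR ⟨u, Y⟩ ⟨-s, η⟩ ≤ fR ⟨u, Y⟩ ⟨-(11 / 40), η⟩ := by
  have hpi := Real.pi_pos
  have hpi4 : Real.pi < 3.15 := Real.pi_lt_d2
  have key := hor_two' (u := u) (y1 := Y - η) (y2 := Y + η) hss (fun r hr0 hr1 => ?_) (by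
    intro h
    linarith only [hY, hη, h])
  · rw [fR_neg_uu, fR_neg_uu]
    linarith only [key]
  · have e1 : Real.cosh (2 * Real.pi * (Y - η)) - Real.cosh (2 * Real.pi * (Y + η)) =
        2 * (Real.sinh (2 * Real.pi * (-Y)) * Real.sinh (2 * Real.pi * η)) := by
      rw [show 2 * Real.pi * (Y - η) = 2 * Real.pi * Y - 2 * Real.pi * η by ring,
        show 2 * Real.pi * (Y + η) = 2 * Real.pi * Y + 2 * Real.pi * η by ring,
        show 2 * Real.pi * (-Y) = -(2 * Real.pi * Y) by ring, Real.cosh_sub, Real.cosh_add,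
        Real.sinh_neg]
      ring
    have e2 : Real.cos (2 * Real.pi * (u - r)) - Real.cos (2 * Real.pi * (u + r)) =
        2 * (Real.sin (2 * Real.pi * u) * Real.sin (2 * Real.pi * r)) := by
      rw [show 2 * Real.pi * (u - r) = 2 * Real.pi * u - 2 * Real.pi * r by ring,
        show 2 * Real.pi * (u + r) = 2 * Real.pi * u + 2 * Real.pi * r by ring, Real.cos_sub,
        Real.cos_add]
      ring
    have t1 : Real.sinh (2 * Real.pi * (-Y)) ≤ 11 / 10 * (2 * Real.pi * (-Y)) := by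
      apply sinh_le
      · have : 0 ≤ -Y := by linarith only [hY]
        positivity
      · apply exp_le_of _ (by norm_num)
        have h3 : 2 * Real.pi * (-Y) ≤ 378 / 1000 := by nlinarith only [hY2, hY, hpi4]
        have h4 : 0 ≤ 2 * Real.pi * (-Y) := by
          have : 0 ≤ -Y := by linarith only [hY]
          positivity
        norm_num
        nlinarith only [hpi4, hY, hY2, hpi, h3, h4]
    have t2 : Real.sinh (2 * Real.pi * η) ≤ 5 / 4 * (2 * Real.pi * η) := by
      apply sinh_le (by positivity)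
      apply exp_le_of _ (by norm_num)
      have h3 : 2 * Real.pi * η ≤ 6 / 10 := by nlinarith only [hη1, hss, hY, hY2, hη, hpi4]
      have h4 : 0 ≤ 2 * Real.pi * η := by positivity
      norm_num
      nlinarith only [hY2, hpi4, hY, hη1, hpi, hss, h3, h4]
    have t3 : 0 ≤ Real.sinh (2 * Real.pi * (-Y)) := by
      rw [Real.sinh_nonneg_iff]
      have : 0 ≤ -Y := by linarith only [hY]
      positivity
    have t4 : 0 ≤ Real.sinh (2 * Real.pi * η) := by
      rw [Real.sinh_nonneg_iff]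
      positivity
    have s1 := jordan h0 h1
    have s2 : 4 * (1 / 2 - s) ≤ Real.sin (2 * Real.pi * r) := by
      have h3 := jordan (x := 1 / 2 - r) (by linarith only [hη, hη1, hr1]) (by linarith only [hY, hY2, hr0])
      rw [show 2 * Real.pi * (1 / 2 - r) = Real.pi - 2 * Real.pi * r by ring, Real.sin_pi_sub] at h3
      linarith only [hr1, h3]
    have hr : 0 ≤ 1 / 2 - s := by linarith only [hη, hη1]
    have u1 : Real.sinh (2 * Real.pi * (-Y)) ≤ 4.2 * u := by
      have : 2 * Real.pi * (-Y) ≤ 2 * 3.15 * (6 / 10 * u) := by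
        have : 0 ≤ -Y := by linarith only [hY]
        nlinarith only [hY1, hY, hpi4]
      linarith only [hY, hY1, t1, this]
    have u2 : Real.sinh (2 * Real.pi * η) ≤ 3.3 * (1 / 2 - s) := by
      have : 2 * Real.pi * η ≤ 2 * 3.15 * (418 / 1000 * (1 / 2 - s)) := by nlinarith only [hη1, hY, hY2, hη, hpi4]
      linarith only [hη, hη1, t2, this]
    have m1 : Real.sinh (2 * Real.pi * (-Y)) * Real.sinh (2 * Real.pi * η) ≤
        4.2 * u * (3.3 * (1 / 2 - s)) := mul_le_mul u1 u2 t4 (by positivity)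
    have m2 : 4 * u * (4 * (1 / 2 - s)) ≤ Real.sin (2 * Real.pi * u) * Real.sin (2 * Real.pi * r) :=
      mul_le_mul s1 s2 (by positivity) (le_trans (by positivity) s1)
    have m3 : 0 ≤ u * (1 / 2 - s) := mul_nonneg h0 hr
    linarith only [e1, e2, m1, m2, m3]

/-! ### the far hinge -/

/-- bound of the loss at the far hinge -/
noncomputable def farB (s η η' : ℝ) : ℝ := 11 / 40 * Real.pi * (η' - η) +
  max (21 / 20 * Real.pi * max (6 / 100 - η) 0) (2 * Real.pi * η * (s - 11 / 40))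

theorem far_neg {u Y s η η' : ℝ} (h0 : 0 ≤ u) (h1 : u ≤ 1 / 2) (hY : |Y| ≤ 6 / 100)
    (hY1 : |Y| ≤ 6 / 10 * u) (hη : 0 ≤ η) (hη1 : η ≤ 418 / 1000 * (1 / 2 - s)) (hη' : η ≤ η')
    (hss : 11 / 40 ≤ s) (hs : s ≤ 1 / 2) :
    fR ⟨u, Y⟩ ⟨-s, η⟩ - fR ⟨u, Y⟩ ⟨-(11 / 40), η'⟩ ≤ farB s η η' := by
  have hpi := Real.pi_pos
  obtain ⟨y0, y1⟩ := abs_le.mp hY
  obtain ⟨y2, y3⟩ := abs_le.mp hY1
  have b1 := le_max_left (21 / 20 * Real.pi * max (6 / 100 - η) 0) (2 * Real.pi * η * (s - 11 / 40))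
  have b2 := le_max_right (21 / 20 * Real.pi * max (6 / 100 - η) 0) (2 * Real.pi * η * (s - 11 / 40))
  have b3 : 0 ≤ 2 * Real.pi * η * (s - 11 / 40) := by
    have : 0 ≤ s - 11 / 40 := by linarith only [hss]
    positivity
  have e1 := fR_vP u Y η
  have e2 := fR_vP u Y η'
  unfold farB
  rcases le_or_gt 0 Y with h | h
  · have a1 := hor_up (u := u) (Y := Y) h0 h1 h hη (show 0 ≤ (11 / 40 : ℝ) by norm_num) hss hs
    have a2 := vP_pos (u := u) (Y := Y) h0 h1 hη hη' h
    have a3 : max (Y - η) 0 ≤ max (6 / 100 - η) 0 := max_le_max (by linarith only [y1]) le_rfl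
    have a4 : 21 / 20 * Real.pi * max (Y - η) 0 ≤ 21 / 20 * Real.pi * max (6 / 100 - η) 0 :=
      mul_le_mul_of_nonneg_left a3 (by positivity)
    linarith only [b1, e1, e2, a1, a2, a4]
  · have a2 := vP_neg (u := u) (Y := Y) h0 h1 hη hη' h.le
    rcases le_total u (1 / 4) with h4 | h4
    · have a1 := hor_down_far h0 h4 h (by linarith only [y2]) (by linarith only [y0]) hη hη1 hss hs
      linarith only [b2, b3, e1, e2, a2, a1]
    · have a1 := hor_down_near h4 h1 h.le hη hss hs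
      have a5 : Real.pi * (η - Y - |Y + η|) * (s - 11 / 40) ≤ 2 * Real.pi * η * (s - 11 / 40) := by
        apply mul_le_mul_of_nonneg_right _ (by linarith only [hss])
        have := neg_abs_le (Y + η)
        nlinarith only [hpi, this]
      linarith only [b2, e1, e2, a2, a1, a5]

theorem flip_both {u Y s η : ℝ} (hη : 0 ≤ η) (hs : 0 ≤ s) (hs' : s ≤ 1 / 2) :
    fR ⟨u, Y⟩ ⟨s, η⟩ ≤ fR ⟨u, Y⟩ ⟨-s, η⟩ + 2 * Real.pi * η := by
  have hpi := Real.pi_pos
  have hp := mul_nonneg hpi.le hη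
  rcases le_total 0 Y with h | h
  · have a1 := flip_le (x := u) (T := Y) (σ := -s) h hη (by linarith only [hs'])
    have a2 := fR_mirror u Y (-s) η
    rw [neg_neg] at a2
    rw [a2] at a1
    have a3 : Real.pi * (η + Y - |η - Y|) ≤ 2 * Real.pi * η := by
      have := neg_abs_le (η - Y)
      nlinarith only [hpi, this]
    linarith only [a1, a3]
  · have a1 := flip_nonneg (x := u) (T := -Y) (σ := -s) (by linarith only [h]) hη (by linarith only [hs])
    have a2 := fR_mirror u (-Y) s η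
    rw [neg_neg] at a1 a2
    rw [a2]
    linarith only [hp, a1]

theorem far_pos {u Y s η η' : ℝ} (h0 : 0 ≤ u) (h1 : u ≤ 1 / 2) (hY : |Y| ≤ 6 / 100)
    (hY1 : |Y| ≤ 6 / 10 * u) (hη : 0 ≤ η) (hη1 : η ≤ 418 / 1000 * (1 / 2 - s)) (hη' : η ≤ η')
    (hss : 11 / 40 ≤ s) (hs : s ≤ 1 / 2) :
    fR ⟨u, Y⟩ ⟨s, η⟩ - fR ⟨u, Y⟩ ⟨-(11 / 40), η'⟩ ≤ farB s η η' + 2 * Real.pi * η := by
  have a1 := far_neg h0 h1 hY hY1 hη hη1 hη' hss hs
  have a2 := flip_both (u := u) (Y := Y) hη (show 0 ≤ s by linarith only [hss]) hs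
  linarith only [a1, a2]

end Pool.Agent.Work.MP_b30479_gtS.G2
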