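import Pool.Agent.Work.MP_b30479_gt.TBS.NumI.LnAff
import Pool.Agent.Work.MP_b30479_gt.TBS.G2.MPWallD
import Pool.Agent.Work.MP_b30479_gt.TBS.G2.Num.Fn

section

/-!
# Interior 3-runs, level part: the certificates

A pair of classes of neighbours is described by a record of integers (`Prm`); the checks are
evaluated by the kernel.
-/

namespace Pool.Agent.Work.MP_b30479_gtS.G2

namespace M3

open NumIs (E V chk)
open NumIs.E

/-- data of a pair of classes; unit `1/10000` (slopes `be`, `ga`, `lm`: unit `1/10`).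
`u ∈ [ul, uh]`, `v ∈ [vl, vh]`, heights `tu ∈ [tul, tuh]`, `tv ∈ [tvl, tvh]`, `tm ∈ [tml, tmh]`,
`tm - tv ∈ [tcl, tch]`; the inner variable of the maximiser is in
`[l0 + lm v, min m1 (e - be u + ga v)]`, the upper end is at least `mb`; `xl`: threshold for
`u + m`; `yl`: lower bound of `m - v` at the upper end; `ml`: lower bound of `m` -/
structure Prm where
  ul : ℤ
  uh : ℤ
  vl : ℤ
  vh : ℤ
  tul : ℤ
  tuh : ℤ
  tvl : ℤ
  tvh : ℤ
  tml : ℤ
  tmh : ℤ
  tcl : ℤ
  tch : ℤ
  l0 : ℤ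
  lm : ℤ
  m1 : ℤ
  e : ℤ
  be : ℤ
  ga : ℤ
  mb : ℤ
  xl : ℤ
  yl : ℤ
  ml : ℤ

/-- a constant in the unit `1/10000` -/
def T (n : ℤ) : E := q n 10000

/-- `1/2 log (4 (sin² πx + sinh² πt + 1/50))` -/
def lnEE (x t : E) : E :=
  mul (q 1 2) (log (mul (q 4 1) (add (add (sq (sinPi x)) (sq (sinh (mul pi t)))) (q 1 50))))

def f1 (x a : E) : E := add (E.lnA x a) (mul pi a)
def f1z (x : E) : E := mul (q 1 2) (log (sq (sinPi (mul (q 2 1) x))))
def f2 (x c : E) : E := sub (E.lnA x c) (mul pi c)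
def f2e (x c : E) : E := sub (lnEE x c) (mul pi c)
def f3 (m t : E) : E := add (E.lnA m t) (mul pi (mul (q 3 1) t))

/-- the ends of the range of `tm - tv` (`t`: the variable `tm`) -/
def cE (p : Prm) (t : E) : ℕ → E
  | 0 => sub t (T p.tvh)
  | 1 => T p.tcl
  | 2 => sub t (T p.tvl)
  | _ => T p.tch

/-- positive where the end is not needed -/
def cA (p : Prm) (t : E) : ℕ → E
  | 0 => sub (T (p.tcl + p.tvh)) t
  | 1 => sub t (T (p.tcl + p.tvh))
  | 2 => sub t (T (p.tch + p.tvl))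
  | _ => sub (T (p.tch + p.tvl)) t

/-- alternatives: none if the end is used for all heights -/
def cL (p : Prm) (t : E) (c : ℕ) (fr : Bool) : List E := if fr then [] else [cA p t c]

/-- the four bounds for the first term: end of the range of `u`, with or without the height -/
def gE (p : Prm) (m t : E) : ℕ → E
  | 0 => f1z (add (T p.ul) m)
  | 1 => f1 (add (T p.ul) m) (add t (T p.tul))
  | 2 => f1 (add (T p.uh) m) (add t (T p.tul))
  | _ => f1z (add (T p.uh) m)

/-- positive where the bound is not needed -/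
def gA (p : Prm) (m : E) : ℕ → List E
  | 0 => [sub m (T (p.xl - p.ul))]
  | 1 => [sub (T (p.xl - p.ul)) m, sub (mul (q 2 1) m) (T (10000 - p.ul - p.uh))]
  | 2 => [sub (T (10000 - p.ul - p.uh)) (mul (q 2 1) m), sub m (T (10000 - p.xl - p.uh))]
  | _ => [sub (T (10000 - p.xl - p.uh)) m]

/-- positivity for small `m`, variables `s, tm`; `y`: distance of `m` and `v` -/
def rowL (p : Prm) (y m : E) (j c : ℕ) (fr : Bool) : List E :=
  sub (neg (f2 y (cE p (var 1) c))) (sub (f3 m (var 1)) (gE p m (var 1) j)) ::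
    (gA p m j ++ cL p (var 1) c fr ++
      [sub (neg (f2e y (cE p (var 1) c))) (sub (f3 m (var 1)) (gE p m (var 1) j))])

def boxL (p : Prm) (a b : ℤ) : List V := [V.of 10000 a b, V.of 10000 p.tml p.tmh]

/-- the lower end of the range of the inner variable -/
def mLE (p : Prm) (v : E) : E := add (T p.l0) (mul (q p.lm 10) v)

def okLa (p : Prm) (c : ℕ) (fr : Bool) (j : ℕ) : Bool :=
  chk (rowL p (sub (T p.vh) (var 0)) (var 0) j c fr) 60 (boxL p p.ml p.vh)
def okLb (p : Prm) (c : ℕ) (fr : Bool) (j : ℕ) : Bool :=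
  chk (rowL p (sub (var 0) (T p.vl)) (var 0) j c fr) 60 (boxL p p.vl ((10 * p.l0 + p.lm * p.vl) / 10 + 1))
def okLc (p : Prm) (c : ℕ) (fr : Bool) (j : ℕ) : Bool :=
  chk (rowL p (sub (mLE p (var 0)) (var 0)) (mLE p (var 0)) j c fr) 60 (boxL p p.vl p.vh)

/-- positivity for one end of the range of `tm - tv` -/
def okL1 (p : Prm) (c : ℕ) (fr : Bool) : Bool :=
  (List.range 4).all fun j => okLa p c fr j && (okLb p c fr j && okLc p c fr j)

/-- positivity; `fl`, `fh`: the restriction of `tm - tv` is not needed at the lower, upper end -/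
def okL (p : Prm) (fl fh : Bool) : Bool :=
  (okL1 p 0 fl && (fl || okL1 p 1 false)) && (okL1 p 2 fh && (fh || okL1 p 3 false))

/-- `e - be u + ga v` -/
def lin (p : Prm) (u v : E) : E := add (sub (T p.e) (mul (q p.be 10) u)) (mul (q p.ga 10) v)

/-- negativity for large `m`: `x = u + m`, `y = m - v` -/
def eU (p : Prm) (a : ℤ) (x y m t : E) : E :=
  sub (add (f2 y (sub t (T p.tvl))) (f3 m t)) (f1 x (add t (T a)))

def box3 (p : Prm) (a b : ℤ) : List V :=
  [V.of 10000 p.vl p.vh, V.of 10000 a b, V.of 10000 p.tml p.tmh]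

def okU1 (p : Prm) (a : ℤ) : Bool :=
  chk [eU p a (add (T p.ul) (var 1)) (sub (var 1) (var 0)) (var 1) (var 2),
      sub (lin p (T p.ul) (var 0)) (var 1)] 60 (box3 p p.mb 7500)
def okU2 (p : Prm) (a : ℤ) : Bool :=
  chk [eU p a (add (T p.ul) (var 1)) (sub (var 1) (var 0)) (var 1) (var 2)] 60
      (box3 p p.m1 7500)
def okU3 (p : Prm) (a : ℤ) : Bool :=
  chk [eU p a (add (var 0) (lin p (var 0) (var 1))) (sub (lin p (var 0) (var 1)) (var 1))
      (lin p (var 0) (var 1)) (var 2), sub (lin p (var 0) (var 1)) (T p.m1)] 60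
      [V.of 10000 p.ul p.uh, V.of 10000 p.vl p.vh, V.of 10000 p.tml p.tmh]
def okU4 (p : Prm) (a : ℤ) : Bool :=
  chk [eU p a (sub (add (T p.uh) (var 1)) (q 1 1)) (sub (var 1) (var 0)) (var 1) (var 2)] 60
      (box3 p ((20000 - p.ul - p.uh) / 2) 7500)

/-- negativity; `f`: the end `m1` is not needed -/
def okU (p : Prm) (f : Bool) : Bool :=
  [p.tul, p.tuh].all fun a => okU1 p a && (okU3 p a && (okU4 p a && (f || okU2 p a)))

/-! ### the second derivatives, variables `u, v, m` -/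

/-- data for the determinants; ranges as in `Prm`; `aP`, `aR`, `aS`, `aU`, `aC`: bounds of
`|tu + tm|`, `|tm|`, `|tv|`, `|tu|`, `|tm - tv|`; `hP`, ...: bounds of the squares of their
hyperbolic sines; `ma`: lower bound of the inner variable -/
structure SPrm where
  ul : ℤ
  uh : ℤ
  vl : ℤ
  vh : ℤ
  l0 : ℤ
  lm : ℤ
  m1 : ℤ
  e : ℤ
  be : ℤ
  ga : ℤ
  ma : ℤ
  aP : ℤ
  hP : ℤ
  aR : ℤ
  hR : ℤ
  aS : ℤ
  hS : ℤ
  aU : ℤ
  hU : ℤ
  aC : ℤ
  hC : ℤ

/-- numerator and denominator of the two extreme values of `cot π(x + it)`, real part -/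
def nP (h : ℤ) (x : E) : E := if h = 0 then cosPi x else mul (sinPi x) (cosPi x)
def dP (h : ℤ) (x : E) : E := if h = 0 then sinPi x else add (sq (sinPi x)) (T h)

/-- `R D - N` -/
def eRP (h k : ℤ) (x m : E) : E := sub (mul (mul (nP k m) (inv (dP k m))) (dP h x)) (nP h x)

/-- `sin² πx cos πx / (sin² πx + h)` -/
def eS (h : ℤ) (x : E) : E := mul (mul (cosPi x) (sq (sinPi x))) (inv (add (sq (sinPi x)) (T h)))

/-- the first determinant, `u, v, m` -/
def eF (p : SPrm) (h k s : ℤ) (u v m : E) : E :=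
  add (mul (cosPi (sub m v)) (add (add (mul (eS p.hS v) (dP h (add u m)))
    (mul (sinPi v) (eRP h k (add u m) m))) (mul (q s 1) (mul (sinPi u) (nP h (add u m))))))
    (mul (sinPi (sub m v)) (mul (eS p.hS v) (eRP h k (add u m) m)))

def eE (p : SPrm) (h s : ℤ) (u v m : E) : E :=
  add (sub (mul (mul (q 2 1) (eS p.hU u)) (dP h (add u m))) (mul (sinPi u) (nP h (add u m))))
    (mul (q s 1) (mul (sinPi v) (nP h (add u m))))

def eG0 (p : SPrm) (h k : ℤ) (u m : E) : E :=
  sub (mul (mul (q 2 1) (eS p.hU u)) (eRP h k (add u m) m))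
        (mul (mul (sinPi u) (nP h (add u m))) (mul (nP k m) (inv (dP k m))))

def eG (p : SPrm) (h k s : ℤ) (u v m : E) : E :=
  add (mul (mul (sinPi (sub m v)) (cosPi (sub m v))) (eE p h s u v m))
    (mul (add (sq (sinPi (sub m v))) (T p.hC)) (eG0 p h k u m))

/-- sign condition on `u + m - 1/2` -/
def aX (s : ℤ) (x : E) : E := if s = 1 then sub (T 5000) x else sub x (T 5000)
/-- sign condition on `m - 1/2` -/
def aM (k : ℤ) (m : E) : E := if k = 0 then sub (T 5000) m else sub m (T 5000)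

def linS (p : SPrm) (u v : E) : E := add (sub (T p.e) (mul (q p.be 10) u)) (mul (q p.ga 10) v)

def boxS2 (p : SPrm) : List V := [V.of 10000 p.ul p.uh, V.of 10000 p.ma p.m1]
def boxS3 (p : SPrm) : List V := [V.of 10000 p.ul p.uh, V.of 10000 p.vl p.vh, V.of 10000 p.ma p.m1]

def a2 (p : SPrm) : E := sub (var 1) (linS p (var 0) (T p.vh))
def a3 (p : SPrm) : List E :=
  [sub (var 2) (linS p (var 0) (var 1)), sub (add (T p.l0) (mul (q p.lm 10) (var 1))) (var 2)]

def okR (p : SPrm) (h k : ℤ) : Bool :=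
  chk [eRP h k (add (var 0) (var 1)) (var 1), aM k (var 1), a2 p] 60 (boxS2 p)
def okE (p : SPrm) (h s : ℤ) : Bool :=
  chk [eE p h s (var 0) (T p.vh) (var 1), aX s (add (var 0) (var 1)), a2 p] 60 (boxS2 p)
def okG0 (p : SPrm) (h k : ℤ) : Bool :=
  chk [eG0 p h k (var 0) (var 1), aM k (var 1), a2 p] 60 (boxS2 p)
def okF (p : SPrm) (h k s : ℤ) : Bool :=
  chk (eF p h k s (var 0) (var 1) (var 2) :: aX s (add (var 0) (var 2)) :: aM k (var 2) :: a3 p) 60
    (boxS3 p)
def okG (p : SPrm) (h k s : ℤ) : Bool :=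
  chk (eG p h k s (var 0) (var 1) (var 2) :: aX s (add (var 0) (var 2)) :: aM k (var 2) :: a3 p) 60
    (boxS3 p)

/-- bound of a hyperbolic sine -/
def okH (a h : ℤ) : Bool := chk [sub (T h) (sq (sinh (mul pi (T a))))] 2 []

/-- the checks of the determinants; `g`: `eG0` is positive for `m ≥ 1/2` too -/
def okS (p : SPrm) (g : Bool) : Bool :=
  ([0, p.hP].all fun h => (okR p h 0 && okR p h p.hR) && (okE p h 1 && okE p h (-1)) &&
      ([0, p.hR].all fun k => okF p h k 1 && okF p h k (-1)) && okG0 p h p.hR &&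
      (if g then okG0 p h 0 else okG p h 0 1 && okG p h 0 (-1))) &&
  (okH p.aP p.hP && (okH p.aR p.hR && (okH p.aS p.hS && (okH p.aU p.hU && okH p.aC p.hC))))

end M3

end Pool.Agent.Work.MP_b30479_gtS.G2

end

section

/-!
# Interior 3-runs, level part: sign of the inner derivative
-/

namespace Pool.Agent.Work.MP_b30479_gtS.G2

namespace M3

open NumIs (E V chk lnA MM)
open NumIs.E hiding lnA lnB

/-! ### values -/

theorem val_T (n : ℤ) (xs : List ℝ) : (T n).val xs = (n : ℝ) / 10000 := by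
  simp [T, E.val]

theorem val_f1 (x a : E) (xs : List ℝ) : (f1 x a).val xs = W (x.val xs) (a.val xs) := rfl

theorem val_f2 (x c : E) (xs : List ℝ) : (f2 x c).val xs = W (x.val xs) (-(c.val xs)) := by
  show lnA _ _ - Real.pi * _ = lnA _ _ + Real.pi * _
  rw [lnA_neg]
  ring

theorem val_f3 (m t : E) (xs : List ℝ) : (f3 m t).val xs =
    lnA (m.val xs) (t.val xs) + 3 * Real.pi * t.val xs := by
  simp only [f3, E.val]
  push_cast
  ring

theorem val_f1z (x : E) (xs : List ℝ) : (f1z x).val xs =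
    Real.log (Real.sin (Real.pi * (2 * x.val xs)) ^ 2) / 2 := by
  simp only [f1z, E.val]
  push_cast
  ring_nf

theorem le_f2e (x c : E) (xs : List ℝ) (h : 0 < MM (x.val xs) (c.val xs)) :
    W (x.val xs) (-(c.val xs)) ≤ (f2e x c).val xs := by
  rw [← val_f2]
  have h1 := lnA_le_lnE (ε := 1 / 50) (by norm_num) h
  have h2 : (f2e x c).val xs = lnE (1 / 50) (x.val xs) (c.val xs) - Real.pi * c.val xs := by
    simp only [f2e, lnEE, E.val, lnE]
    push_cast
    ring_nf
  rw [h2]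
  show lnA _ _ - Real.pi * _ ≤ _
  linarith only [h1]

/-! ### monotonicity in the real parts -/

theorem sin_ge_left {x y : ℝ} (h0 : 0 ≤ y) (h1 : y ≤ x) (h2 : x ≤ 1 - y) :
    Real.sin (Real.pi * y) ^ 2 ≤ Real.sin (Real.pi * x) ^ 2 := by
  have h := cos_le h0 h1 h2
  rw [mul_assoc, Real.cos_two_mul, mul_assoc, Real.cos_two_mul] at h
  have e1 := Real.sin_sq_add_cos_sq (Real.pi * x)
  have e2 := Real.sin_sq_add_cos_sq (Real.pi * y)
  linarith only [h, e1, e2]

theorem sin_ge_right {x y : ℝ} (h0 : y ≤ 1) (h1 : x ≤ y) (h2 : 1 - y ≤ x) :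
    Real.sin (Real.pi * y) ^ 2 ≤ Real.sin (Real.pi * x) ^ 2 := by
  have h := sin_ge_left (x := 1 - x) (y := 1 - y) (by linarith only [h0]) (by linarith only [h1]) (by linarith only [h2])
  rw [show Real.pi * (1 - x) = Real.pi - Real.pi * x by ring,
    show Real.pi * (1 - y) = Real.pi - Real.pi * y by ring, Real.sin_pi_sub, Real.sin_pi_sub] at h
  exact h

/-- `1` in the middle -/
theorem sin_le_one {x y : ℝ} (h0 : 1 / 2 ≤ y) (h1 : y ≤ x) (h2 : x ≤ 2 - y) :
    Real.sin (Real.pi * x) ^ 2 ≤ Real.sin (Real.pi * y) ^ 2 := by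
  rcases le_total x 1 with h | h
  · exact sin_ge_right h h1 (by linarith only [h0, h1])
  · have := sin_ge_right (x := y) (y := 2 - x) (by linarith only [h]) (by linarith only [h2]) (by linarith only [h0, h2])
    rw [show Real.pi * (2 - x) = -(Real.pi * x - 2 * Real.pi) by ring, Real.sin_neg, neg_sq,
      Real.sin_sub_two_pi] at this
    exact this

theorem W_le_of_sin {x y t : ℝ} (h : Real.sin (Real.pi * x) ^ 2 ≤ Real.sin (Real.pi * y) ^ 2)
    (hM : 0 < MM x t) : W x t ≤ W y t := by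
  unfold MM at hM
  unfold W lnA
  have := Real.log_le_log (by positivity : (0 : ℝ) <
    4 * (Real.sin (Real.pi * x) ^ 2 + Real.sinh (Real.pi * t) ^ 2))
    (by linarith only [h] : 4 * (Real.sin (Real.pi * x) ^ 2 + Real.sinh (Real.pi * t) ^ 2) ≤
      4 * (Real.sin (Real.pi * y) ^ 2 + Real.sinh (Real.pi * t) ^ 2))
  linarith only [this]

theorem sin_two_pos {x : ℝ} (h0 : 0 < x) (h1 : x < 1) (h : x ≠ 1 / 2) :
    0 < Real.sin (Real.pi * (2 * x)) ^ 2 := by
  have hpi := Real.pi_pos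
  apply pow_pos_of_ne
  rcases lt_or_gt_of_ne h with h | h
  · exact (Real.sin_pos_of_pos_of_lt_pi (by positivity) (by nlinarith only [hpi, h])).ne'
  · rw [show Real.pi * (2 * x) = Real.pi * (2 * x - 1) + Real.pi by ring, Real.sin_add_pi]
    exact (neg_neg_of_pos (Real.sin_pos_of_pos_of_lt_pi (by nlinarith only [hpi, h]) (by nlinarith only [h1, hpi]))).ne
where
  pow_pos_of_ne {a : ℝ} (h : a ≠ 0) : 0 < a ^ 2 := by positivity

/-! ### the data -/

/-- relations between the data -/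
structure Ok (p : Prm) : Prop where
  ul : 0 < p.ul
  uh : p.ul ≤ p.uh
  vl : 500 ≤ p.vl
  ml : 0 < p.ml
  vh : p.vl ≤ p.vh
  xl0 : 0 ≤ p.xl
  xl : p.xl < 5000
  lm : 0 < p.lm
  lm' : p.lm ≤ 10
  l1 : 10 * p.uh + 10 * p.l0 + p.lm * p.vh < 100000
  l3 : 10 * p.vh < 10 * p.l0 + p.lm * p.vh
  l4 : 10 * p.l0 + p.lm * p.vl ≤ 50000 + 10 * p.vl
  vh' : p.vh ≤ 5000
  c0 : chk [sub (E.exp (mul (mul (q 2 1) E.pi) (T (p.tml + p.tul)))) (cosPi (mul (q 2 1) (T p.xl)))]
    1 [] = true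

/-- the heights -/
structure Hts (p : Prm) (tu tv tm : ℝ) : Prop where
  tu0 : (p.tul : ℝ) / 10000 ≤ tu
  tu1 : tu ≤ (p.tuh : ℝ) / 10000
  tv0 : (p.tvl : ℝ) / 10000 ≤ tv
  tv1 : tv ≤ (p.tvh : ℝ) / 10000
  tm0 : (p.tml : ℝ) / 10000 ≤ tm
  tm1 : tm ≤ (p.tmh : ℝ) / 10000
  c0 : (p.tcl : ℝ) / 10000 ≤ tm - tv
  c1 : tm - tv ≤ (p.tch : ℝ) / 10000

/-- the lower end of the range of the inner variable -/
noncomputable def mL (p : Prm) (v : ℝ) : ℝ := (p.l0 : ℝ) / 10000 + (p.lm : ℝ) / 10 * v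

variable {p : Prm} {tu tv tm u v m : ℝ}

theorem Ok.cos_xl (h : Ok p) (ht : (p.tml : ℝ) / 10000 ≤ tm) {x : ℝ}
    (h0 : (p.xl : ℝ) / 10000 ≤ x) (h1 : x ≤ 1 - (p.xl : ℝ) / 10000) :
    Real.cos (2 * Real.pi * x) ≤ Real.exp (2 * Real.pi * (tm + (p.tul : ℝ) / 10000)) := by
  have hx : (0 : ℝ) ≤ p.xl := by exact_mod_cast h.xl0
  have h2 := NumIs.pos_of_chk (NumIs.chk_sound h.c0 List.Forall₂.nil)
  simp only [E.val, val_T] at h2
  push_cast at h2
  have h3 := cos_le (by positivity) h0 h1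
  have h4 : Real.exp (2 / 1 * Real.pi * (((p.tml : ℝ) + p.tul) / 10000)) ≤
      Real.exp (2 * Real.pi * (tm + (p.tul : ℝ) / 10000)) := by
    apply Real.exp_le_exp.2
    have := Real.pi_pos
    rw [show (2 : ℝ) / 1 = 2 by norm_num, add_div]
    gcongr
  have h5 : Real.cos (2 * Real.pi * ((p.xl : ℝ) / 10000)) =
      Real.cos (Real.pi * (2 / 1 * ((p.xl : ℝ) / 10000))) := by
    congr 1; ring
  rw [h5] at h3
  linarith only [h2, h3, h4]

/-- one line of the table -/
theorem row_pos {y mm : E} {j c : ℕ} {fr : Bool} {a b : ℤ} {s : ℝ}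
    (h : chk (rowL p y mm j c fr) 60 (boxL p a b) = true)
    (hs0 : (a : ℝ) / 10000 ≤ s) (hs1 : s ≤ (b : ℝ) / 10000)
    (ht0 : (p.tml : ℝ) / 10000 ≤ tm) (ht1 : tm ≤ (p.tmh : ℝ) / 10000)
    (hg : ∀ e ∈ gA p mm j, e.val [s, tm] ≤ 0)
    (hc : fr = true ∨ (cA p (var 1) c).val [s, tm] ≤ 0)
    (hM : 0 < MM (y.val [s, tm]) ((cE p (var 1) c).val [s, tm])) :
    0 < (gE p mm (var 1) j).val [s, tm] -
      W (y.val [s, tm]) (-((cE p (var 1) c).val [s, tm])) -
      (lnA (mm.val [s, tm]) tm + 3 * Real.pi * tm) := by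
  obtain ⟨e, he, hp⟩ := NumIs.chk2 h (by norm_num) (x := s) (y := tm) (by push_cast; exact hs0)
    (by push_cast; exact hs1) (by push_cast; exact ht0) (by push_cast; exact ht1)
  simp only [rowL, List.mem_append, List.mem_cons, List.not_mem_nil, or_false] at he
  have v1 : (var 1).val [s, tm] = tm := rfl
  have hsub : ∀ a b : E, (sub a b).val [s, tm] = a.val [s, tm] - b.val [s, tm] :=
    fun _ _ => rfl
  have hneg : ∀ a : E, (neg a).val [s, tm] = -(a.val [s, tm]) := fun _ => rfl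
  rcases he with he | (he | he) | he
  · rw [he, hsub, hneg, hsub, val_f2, val_f3, v1] at hp
    linarith only [hp]
  · exact absurd hp (not_lt.2 (hg e he))
  · exfalso
    unfold cL at he
    rcases hc with hc | hc
    · subst hc
      simp at he
    · split_ifs at he
      · simp at he
      · simp only [List.mem_cons, List.not_mem_nil, or_false] at he
        rw [he] at hp
        linarith only [hp, hc]
  · have h2 := le_f2e y (cE p (var 1) c) [s, tm] hM
    rw [he, hsub, hneg, hsub, val_f3, v1] at hp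
    linarith only [hp, h2]

/-- the lines of one kind together -/
theorem rows_pos {y mm : E} {c : ℕ} {fr : Bool} {a b : ℤ} {s : ℝ} (hk : Ok p)
    (h : ∀ j < 4, chk (rowL p y mm j c fr) 60 (boxL p a b) = true)
    (hs0 : (a : ℝ) / 10000 ≤ s) (hs1 : s ≤ (b : ℝ) / 10000)
    (ht0 : (p.tml : ℝ) / 10000 ≤ tm) (ht1 : tm ≤ (p.tmh : ℝ) / 10000)
    (hu0 : (p.ul : ℝ) / 10000 ≤ u) (hu1 : u ≤ (p.uh : ℝ) / 10000)
    (hmm : mm.val [s, tm] = m) (hm0 : 0 < m) (hm1 : (p.uh : ℝ) / 10000 + m < 1)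
    (htu : (p.tul : ℝ) / 10000 ≤ tu)
    (hc : fr = true ∨ (cA p (var 1) c).val [s, tm] ≤ 0)
    (hM : 0 < MM (y.val [s, tm]) ((cE p (var 1) c).val [s, tm])) :
    0 < W (u + m) (tu + tm) - W (y.val [s, tm]) (-((cE p (var 1) c).val [s, tm])) -
      (lnA m tm + 3 * Real.pi * tm) := by
  have a3 : (0 : ℝ) < p.ul := by exact_mod_cast hk.ul
  have a4 : (p.xl : ℝ) < 5000 := by exact_mod_cast hk.xl
  have a6 : (p.ul : ℝ) ≤ p.uh := by exact_mod_cast hk.uh
  have hul : 0 < (p.ul : ℝ) / 10000 := by positivity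
  have r0 := row_pos (h 0 (by norm_num)) hs0 hs1 ht0 ht1
  have r1 := row_pos (h 1 (by norm_num)) hs0 hs1 ht0 ht1
  have r2 := row_pos (h 2 (by norm_num)) hs0 hs1 ht0 ht1
  have r3 := row_pos (h 3 (by norm_num)) hs0 hs1 ht0 ht1
  simp only [gA, List.mem_cons, List.not_mem_nil, or_false, forall_eq_or_imp, forall_eq] at r0 r1 r2 r3
  simp only [E.val, val_T, hmm] at r0 r1 r2 r3
  push_cast at r0 r1 r2 r3
  have g0 : (gE p mm (var 1) 0).val [s, tm] =
      Real.log (Real.sin (Real.pi * (2 * ((p.ul : ℝ) / 10000 + m))) ^ 2) / 2 := by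
    show (f1z (add (T p.ul) mm)).val [s, tm] = _
    rw [val_f1z]
    show Real.log (Real.sin (Real.pi * (2 * ((T p.ul).val _ + mm.val _))) ^ 2) / 2 = _
    rw [val_T, hmm]
  have g3 : (gE p mm (var 1) 3).val [s, tm] =
      Real.log (Real.sin (Real.pi * (2 * ((p.uh : ℝ) / 10000 + m))) ^ 2) / 2 := by
    show (f1z (add (T p.uh) mm)).val [s, tm] = _
    rw [val_f1z]
    show Real.log (Real.sin (Real.pi * (2 * ((T p.uh).val _ + mm.val _))) ^ 2) / 2 = _
    rw [val_T, hmm]
  have g1 : (gE p mm (var 1) 1).val [s, tm] =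
      W ((p.ul : ℝ) / 10000 + m) (tm + (p.tul : ℝ) / 10000) := by
    show (f1 (add (T p.ul) mm) (add (var 1) (T p.tul))).val [s, tm] = _
    rw [val_f1]
    show W ((T p.ul).val _ + mm.val _) (tm + (T p.tul).val _) = _
    rw [val_T, val_T, hmm]
  have g2 : (gE p mm (var 1) 2).val [s, tm] =
      W ((p.uh : ℝ) / 10000 + m) (tm + (p.tul : ℝ) / 10000) := by
    show (f1 (add (T p.uh) mm) (add (var 1) (T p.tul))).val [s, tm] = _
    rw [val_f1]
    show W ((T p.uh).val _ + mm.val _) (tm + (T p.tul).val _) = _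
    rw [val_T, val_T, hmm]
  rw [g0] at r0
  rw [g1] at r1
  rw [g2] at r2
  rw [g3] at r3
  rcases le_total (2 * m) (1 - (p.ul : ℝ) / 10000 - (p.uh : ℝ) / 10000) with hmc | hmc
  · set x := (p.ul : ℝ) / 10000 + m with hxd
    have hx0 : 0 < x := by positivity
    have hx1 : x < 1 := by linarith only [hu0, hu1, hm0, a3, hmc, hxd]
    have hs : Real.sin (Real.pi * x) ^ 2 ≤ Real.sin (Real.pi * (u + m)) ^ 2 :=
      sin_ge_left hx0.le (by linarith only [hu0, hxd]) (by linarith only [hu1, hmc, hxd])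
    have hW : W x (tu + tm) ≤ W (u + m) (tu + tm) := W_le_of_sin hs (MM_pos' hx0 hx1)
    rcases le_total m ((p.xl : ℝ) / 10000 - (p.ul : ℝ) / 10000) with hc1 | hc1
    · have := r0 (by linarith only [hc1]) hc hM
      have h5 := W_ge (t := tu + tm) (sin_two_pos hx0 hx1 (by
        have : x < 1 / 2 := by linarith only [a4, hxd, hc1]
        exact this.ne)) (MM_pos' hx0 hx1)
      linarith only [hW, this, h5]
    · have := r1 ⟨by linarith only [hc1], by linarith only [hmc]⟩ hc hM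
      have h5 : W x (tm + (p.tul : ℝ) / 10000) ≤ W x (tu + tm) :=
        W_mono (MM_pos' hx0 hx1) (MM_pos' hx0 hx1) (by linarith only [htu])
          (hk.cos_xl ht0 (by linarith only [hxd, hc1]) (by linarith only [hu0, hu1, a4, hmc, hxd]))
      linarith only [hW, this, h5]
  · set x := (p.uh : ℝ) / 10000 + m with hxd
    have hx0 : 0 < x := by linarith only [hu0, hu1, hm0, a3, hxd]
    have hs : Real.sin (Real.pi * x) ^ 2 ≤ Real.sin (Real.pi * (u + m)) ^ 2 :=
      sin_ge_right hm1.le (by linarith only [hu1, hxd]) (by linarith only [hu0, hmc, hxd])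
    have hW : W x (tu + tm) ≤ W (u + m) (tu + tm) := W_le_of_sin hs (MM_pos' hx0 hm1)
    rcases le_total m (1 - (p.xl : ℝ) / 10000 - (p.uh : ℝ) / 10000) with hc1 | hc1
    · have := r2 ⟨by linarith only [hmc], by linarith only [hc1]⟩ hc hM
      have h5 : W x (tm + (p.tul : ℝ) / 10000) ≤ W x (tu + tm) :=
        W_mono (MM_pos' hx0 hm1) (MM_pos' hx0 hm1) (by linarith only [htu])
          (hk.cos_xl ht0 (by linarith only [hu0, hu1, a4, hmc, hxd]) (by linarith only [hxd, hc1]))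
      linarith only [hW, this, h5]
    · have := r3 (by linarith only [hc1]) hc hM
      have h5 := W_ge (t := tu + tm) (sin_two_pos hx0 hm1 (by
        have : 1 / 2 < x := by linarith only [a4, hxd, hc1]
        exact this.ne')) (MM_pos' hx0 hm1)
      linarith only [hW, this, h5]

/-- the value of the end `c` of the range of `tm - tv` -/
noncomputable def cv (p : Prm) (tm : ℝ) : ℕ → ℝ
  | 0 => tm - (p.tvh : ℝ) / 10000
  | 1 => (p.tcl : ℝ) / 10000
  | 2 => tm - (p.tvl : ℝ) / 10000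
  | _ => (p.tch : ℝ) / 10000

/-- the end `c` is needed -/
def cN (p : Prm) (tm : ℝ) : ℕ → Prop
  | 0 => ((p.tcl : ℝ) + p.tvh) / 10000 ≤ tm
  | 1 => tm ≤ ((p.tcl : ℝ) + p.tvh) / 10000
  | 2 => tm ≤ ((p.tch : ℝ) + p.tvl) / 10000
  | _ => ((p.tch : ℝ) + p.tvl) / 10000 ≤ tm

theorem val_cE (c : ℕ) (s tm : ℝ) : (cE p (var 1) c).val [s, tm] = cv p tm c := by
  unfold cE cv
  split <;> simp [E.val, val_T]

theorem val_cA {c : ℕ} (s : ℝ) (h : cN p tm c) : (cA p (var 1) c).val [s, tm] ≤ 0 := by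
  unfold cN at h
  unfold cA
  split at h <;> simp only [E.val, val_T, NumIs.lkR_one] <;> push_cast <;> linarith only [h]

/-- **Positivity**, for one end of the range of `tm - tv`. -/
theorem okL1_pos {c : ℕ} {fr : Bool} (hk : Ok p) (h : okL1 p c fr = true)
    (hu0 : (p.ul : ℝ) / 10000 ≤ u) (hu1 : u ≤ (p.uh : ℝ) / 10000)
    (hv0 : (p.vl : ℝ) / 10000 ≤ v) (hv1 : v ≤ (p.vh : ℝ) / 10000)
    (hm0 : (p.ml : ℝ) / 10000 ≤ m) (ht0 : (p.tml : ℝ) / 10000 ≤ tm) (ht1 : tm ≤ (p.tmh : ℝ) / 10000)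
    (hmL : m ≤ mL p v) (htu : (p.tul : ℝ) / 10000 ≤ tu) (hc : fr = true ∨ cN p tm c)
    (hM : 0 < MM (m - v) (cv p tm c)) :
    0 < W (u + m) (tu + tm) - W (m - v) (-(cv p tm c)) - (lnA m tm + 3 * Real.pi * tm) := by
  unfold okL1 at h
  rw [List.all_eq_true] at h
  have hh : ∀ j < 4, okLa p c fr j = true ∧ okLb p c fr j = true ∧ okLc p c fr j = true := by
    intro j hj
    have := h j (List.mem_range.2 hj)
    simp only [Bool.and_eq_true] at this
    exact this
  have a1 : (10 : ℝ) * p.uh + 10 * p.l0 + p.lm * p.vh < 100000 := by exact_mod_cast hk.l1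
  have a2 : (10 : ℝ) * p.vh < 10 * p.l0 + p.lm * p.vh := by exact_mod_cast hk.l3
  have a3 : (10 : ℝ) * p.l0 + p.lm * p.vl ≤ 50000 + 10 * p.vl := by exact_mod_cast hk.l4
  have a4 : (0 : ℝ) < p.lm := by exact_mod_cast hk.lm
  have a5 : (p.lm : ℝ) ≤ 10 := by exact_mod_cast hk.lm'
  have a6 : (500 : ℝ) ≤ p.vl := by exact_mod_cast hk.vl
  have a8 : (0 : ℝ) < p.ml := by exact_mod_cast hk.ml
  have a7 : (p.vh : ℝ) ≤ 5000 := by exact_mod_cast hk.vh'
  unfold mL at hmL
  have b1 : (p.lm : ℝ) / 10 * v ≤ (p.lm : ℝ) / 10 * ((p.vh : ℝ) / 10000) := by gcongr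
  have b3 : (p.uh : ℝ) / 10000 + m < 1 := by linarith only [hmL, a1, b1]
  have hm00 : 0 < m := by linarith only [hm0, a8]
  have hcc : ∀ s, fr = true ∨ (cA p (var 1) c).val [s, tm] ≤ 0 := fun s =>
    hc.imp id fun h => val_cA s h
  rcases le_total m v with hmv | hmv
  · -- far end `vh`
    have hy : (sub (T p.vh) (var 0)).val [m, tm] = (p.vh : ℝ) / 10000 - m := by
      simp [E.val, val_T]
    have hs : Real.sin (Real.pi * (m - v)) ^ 2 ≤
        Real.sin (Real.pi * ((p.vh : ℝ) / 10000 - m)) ^ 2 := by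
      rw [show Real.pi * (m - v) = -(Real.pi * (v - m)) by ring, Real.sin_neg, neg_sq]
      exact sin_ge_left (by linarith only [hmv]) (by linarith only [hv1]) (by linarith only [hv1, a7, hm00])
    have hM' : 0 < MM ((p.vh : ℝ) / 10000 - m) (cv p tm c) := by
      unfold MM at hM ⊢
      linarith only [hM, hs]
    have := rows_pos (y := sub (T p.vh) (var 0)) (mm := var 0) (s := m) (u := u) (m := m)
      (tu := tu) hk (fun j hj => (hh j hj).1)
      (by push_cast; linarith only [hm0]) (by linarith only [hv1, hmv]) ht0 ht1 hu0 hu1 rfl hm00 b3 htu (hcc m)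
      (by rw [hy, val_cE]; exact hM')
    rw [hy, val_cE] at this
    have h6 := W_le_of_sin (t := -(cv p tm c)) hs (by rw [MM_neg]; exact hM)
    linarith only [this, h6]
  · rcases le_total m ((p.l0 : ℝ) / 10000 + (p.lm : ℝ) / 10 * ((p.vl : ℝ) / 10000)) with hml | hml
    · have hy : (sub (var 0) (T p.vl)).val [m, tm] = m - (p.vl : ℝ) / 10000 := by
        simp [E.val, val_T]
      have hs : Real.sin (Real.pi * (m - v)) ^ 2 ≤
          Real.sin (Real.pi * (m - (p.vl : ℝ) / 10000)) ^ 2 :=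
        sin_ge_left (by linarith only [hmv]) (by linarith only [hv0]) (by linarith only [hv0, a3, hml])
      have hM' : 0 < MM (m - (p.vl : ℝ) / 10000) (cv p tm c) := by
        unfold MM at hM ⊢
        linarith only [hM, hs]
      have hb : m ≤ (((10 * p.l0 + p.lm * p.vl) / 10 + 1 : ℤ) : ℝ) / 10000 := by
        have h6 : (10 * p.l0 + p.lm * p.vl : ℤ) < 10 * ((10 * p.l0 + p.lm * p.vl) / 10 + 1) := by
          omega
        have h7 : ((10 * p.l0 + p.lm * p.vl : ℤ) : ℝ) <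
            ((10 * ((10 * p.l0 + p.lm * p.vl) / 10 + 1) : ℤ) : ℝ) := by
          exact_mod_cast h6
        push_cast at h7 ⊢
        linarith only [hml, h7]
      have := rows_pos (y := sub (var 0) (T p.vl)) (mm := var 0) (s := m) (u := u) (m := m)
        (tu := tu) hk (fun j hj => (hh j hj).2.1)
        (by linarith only [hv0, hmv]) hb ht0 ht1 hu0 hu1 rfl hm00 b3 htu (hcc m)
        (by rw [hy, val_cE]; exact hM')
      rw [hy, val_cE] at this
      have h6 := W_le_of_sin (t := -(cv p tm c)) hs (by rw [MM_neg]; exact hM)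
      linarith only [this, h6]
    · -- on the curve
      set v' := (m - (p.l0 : ℝ) / 10000) / ((p.lm : ℝ) / 10) with hv'
      have hlm : 0 < (p.lm : ℝ) / 10 := by positivity
      have e1 : (p.l0 : ℝ) / 10000 + (p.lm : ℝ) / 10 * v' = m := by
        rw [hv']; field_simp; ring
      have c1 : (p.vl : ℝ) / 10000 ≤ v' := by
        rw [hv', le_div_iff₀ hlm]; linarith only [hml]
      have c2 : v' ≤ v := by
        rw [hv', div_le_iff₀ hlm]; linarith only [hmL]
      have hy : (sub (mLE p (var 0)) (var 0)).val [v', tm] = m - v' := by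
        simp only [mLE, E.val, val_T, NumIs.lkR_zero]
        push_cast
        linarith only [e1]
      have hmm : (mLE p (var 0)).val [v', tm] = m := by
        simp only [mLE, E.val, val_T, NumIs.lkR_zero]
        push_cast
        linarith only [e1]
      have hy2 : m - v' ≤ 1 / 2 := by
        have : (1 - (p.lm : ℝ) / 10) * ((p.vl : ℝ) / 10000) ≤ (1 - (p.lm : ℝ) / 10) * v' :=
          mul_le_mul_of_nonneg_left c1 (by linarith only [a5])
        nlinarith only [a3, e1, this]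
      have hs : Real.sin (Real.pi * (m - v)) ^ 2 ≤ Real.sin (Real.pi * (m - v')) ^ 2 :=
        sin_ge_left (by linarith only [hmv]) (by linarith only [c2]) (by linarith only [c2, hy2])
      have hM' : 0 < MM (m - v') (cv p tm c) := by
        unfold MM at hM ⊢
        linarith only [hM, hs]
      have := rows_pos (y := sub (mLE p (var 0)) (var 0)) (mm := mLE p (var 0)) (s := v')
        (u := u) (m := m) (tu := tu) hk (fun j hj => (hh j hj).2.2)
        c1 (by linarith only [hv1, c2]) ht0 ht1 hu0 hu1 hmm hm00 b3 htu (hcc v')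
        (by rw [hy, val_cE]; exact hM')
      rw [hy, val_cE] at this
      have h6 := W_le_of_sin (t := -(cv p tm c)) hs (by rw [MM_neg]; exact hM)
      linarith only [this, h6]

/-- **Positivity of the inner derivative to the left of the range.** -/
theorem Phi_pos {fl fh : Bool} (hk : Ok p) (h : okL p fl fh = true) (ht : Hts p tu tv tm)
    (hu0 : (p.ul : ℝ) / 10000 ≤ u) (hu1 : u ≤ (p.uh : ℝ) / 10000)
    (hv0 : (p.vl : ℝ) / 10000 ≤ v) (hv1 : v ≤ (p.vh : ℝ) / 10000)
    (hm0 : (p.ml : ℝ) / 10000 ≤ m) (hmL : m ≤ mL p v) (hM : 0 < MM (m - v) (tm - tv)) :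
    0 < Phi tu tv tm u v m := by
  unfold okL at h
  simp only [Bool.and_eq_true, Bool.or_eq_true] at h
  obtain ⟨⟨h0, h1⟩, h2, h3⟩ := h
  -- the two ends
  obtain ⟨cl, frl, hl1, hl2, hl3⟩ : ∃ c fr, okL1 p c fr = true ∧ (fr = true ∨ cN p tm c) ∧
      cv p tm c ≤ tm - tv := by
    rcases h1 with h1 | h1
    · exact ⟨0, fl, h0, Or.inl h1, by show tm - (p.tvh : ℝ) / 10000 ≤ _; linarith only [ht, ht.tv1]⟩
    · rcases le_total (((p.tcl : ℝ) + p.tvh) / 10000) tm with hc | hc
      · exact ⟨0, fl, h0, Or.inr hc, by show tm - (p.tvh : ℝ) / 10000 ≤ _; linarith only [ht, ht.tv1]⟩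
      · exact ⟨1, false, h1, Or.inr hc, ht.c0⟩
  obtain ⟨ch, frh, hh1, hh2, hh3⟩ : ∃ c fr, okL1 p c fr = true ∧ (fr = true ∨ cN p tm c) ∧
      tm - tv ≤ cv p tm c := by
    rcases h3 with h3 | h3
    · exact ⟨2, fh, h2, Or.inl h3, by show _ ≤ tm - (p.tvl : ℝ) / 10000; linarith only [ht, ht.tv0]⟩
    · rcases le_total tm (((p.tch : ℝ) + p.tvl) / 10000) with hc | hc
      · exact ⟨2, fh, h2, Or.inr hc, by show _ ≤ tm - (p.tvl : ℝ) / 10000; linarith only [ht, ht.tv0]⟩
      · exact ⟨3, false, h3, Or.inr hc, ht.c1⟩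
  rw [Phi_eq]
  have hM' : 0 < MM (m - v) (-(tm - tv)) := by rw [MM_neg]; exact hM
  rcases W_le hM' (neg_le_neg hh3) (neg_le_neg hl3) with ⟨r1, r2⟩ | ⟨r1, r2⟩
  · rw [MM_neg] at r1
    have := okL1_pos hk hh1 hu0 hu1 hv0 hv1 hm0 ht.tm0 ht.tm1 hmL ht.tu0 hh2 r1
    linarith only [r2, this]
  · rw [MM_neg] at r1
    have := okL1_pos hk hl1 hu0 hu1 hv0 hv1 hm0 ht.tm0 ht.tm1 hmL ht.tu0 hl2 r1
    linarith only [r2, this]

end M3

end Pool.Agent.Work.MP_b30479_gtS.G2

end

section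

/-!
# Interior 3-runs, level part: the three determinants
-/

namespace Pool.Agent.Work.MP_b30479_gtS.G2

namespace M3

open NumIs (E V chk MM PP)
open NumIs.E hiding lnA lnB

/-! ### extreme values of `PP` -/

/-- extreme values of `PP x t` -/
noncomputable def kN (h : ℤ) (x : ℝ) : ℝ :=
  if h = 0 then Real.cos (Real.pi * x) else Real.sin (Real.pi * x) * Real.cos (Real.pi * x)
noncomputable def kD (h : ℤ) (x : ℝ) : ℝ :=
  if h = 0 then Real.sin (Real.pi * x) else Real.sin (Real.pi * x) ^ 2 + (h : ℝ) / 10000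

theorem kD_pos {h : ℤ} {x : ℝ} (hx : 0 < Real.sin (Real.pi * x)) (hh : 0 ≤ h) : 0 < kD h x := by
  unfold kD
  have : (0 : ℝ) ≤ h := by exact_mod_cast hh
  split_ifs <;> positivity

theorem val_nP (h : ℤ) (x : E) (xs : List ℝ) : (nP h x).val xs = kN h (x.val xs) := by
  unfold nP kN
  split_ifs <;> rfl

theorem val_dP (h : ℤ) (x : E) (xs : List ℝ) : (dP h x).val xs = kD h (x.val xs) := by
  unfold dP kD
  split_ifs
  · rfl
  · show Real.sin (Real.pi * _) ^ 2 + (T h).val xs = _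
    rw [val_T]

/-- `PP` is between its extreme values -/
theorem PP_between {h : ℤ} {x t : ℝ} (hx : 0 < Real.sin (Real.pi * x)) (hh : 0 < h)
    (ht : Real.sinh (Real.pi * t) ^ 2 ≤ (h : ℝ) / 10000) :
    (0 ≤ Real.cos (Real.pi * x) → kN h x / kD h x ≤ PP x t ∧ PP x t ≤ kN 0 x / kD 0 x) ∧
    (Real.cos (Real.pi * x) ≤ 0 → kN 0 x / kD 0 x ≤ PP x t ∧ PP x t ≤ kN h x / kD h x) := by
  have hM := NumIs.MM_pos (t := t) hx
  have hh' : (0 : ℝ) < h := by exact_mod_cast hh
  have hD : 0 < Real.sin (Real.pi * x) ^ 2 + (h : ℝ) / 10000 := by positivity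
  have e0 : kN 0 x / kD 0 x = Real.cos (Real.pi * x) / Real.sin (Real.pi * x) := by simp [kN, kD]
  have e1 : kN h x / kD h x = Real.sin (Real.pi * x) * Real.cos (Real.pi * x) /
      (Real.sin (Real.pi * x) ^ 2 + (h : ℝ) / 10000) := by simp [kN, kD, hh.ne']
  rw [e0, e1]
  unfold PP
  have hs := sq_nonneg (Real.sinh (Real.pi * t))
  have hle : MM x t ≤ Real.sin (Real.pi * x) ^ 2 + (h : ℝ) / 10000 := by unfold MM; linarith only [ht]
  have hge : Real.sin (Real.pi * x) ^ 2 ≤ MM x t := by unfold MM; linarith only [hs]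
  refine ⟨fun hc => ⟨?_, ?_⟩, fun hc => ⟨?_, ?_⟩⟩
  · exact div_le_div_of_nonneg_left (by positivity) hM hle
  · rw [div_le_div_iff₀ hM hx]
    nlinarith only [hge, hc, mul_le_mul_of_nonneg_left hge hc]
  · rw [div_le_div_iff₀ hx hM]
    nlinarith only [hge, hc, mul_le_mul_of_nonneg_left hge (neg_nonneg.2 hc)]
  · rw [div_le_div_iff₀ hM hD]
    nlinarith only [hle, hx, hc, mul_le_mul_of_nonneg_left hle (mul_nonneg hx.le (neg_nonneg.2 hc))]

/-- an affine function which is positive at the ends -/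
theorem aff_pos {α β a b P : ℝ} (h0 : 0 < α + β * a) (h1 : 0 < α + β * b)
    (h : (a ≤ P ∧ P ≤ b) ∨ (b ≤ P ∧ P ≤ a)) : 0 < α + β * P := by
  rcases le_total 0 β with hb | hb
  · rcases h with h | h
    · nlinarith only [h0, h, hb, mul_le_mul_of_nonneg_left h.1 hb]
    · nlinarith only [h1, h, hb, mul_le_mul_of_nonneg_left h.1 hb]
  · rcases h with h | h
    · nlinarith only [h1, h, hb, mul_le_mul_of_nonpos_left h.2 hb]
    · nlinarith only [h0, h, hb, mul_le_mul_of_nonpos_left h.2 hb]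

theorem sinh_sq_le {t a : ℝ} (h : |t| ≤ a) :
    Real.sinh (Real.pi * t) ^ 2 ≤ Real.sinh (Real.pi * a) ^ 2 := by
  have hpi := Real.pi_pos
  rw [← sq_abs (Real.sinh (Real.pi * t)), Real.abs_sinh, abs_mul, abs_of_pos hpi]
  have h0 := abs_nonneg t
  apply pow_le_pow_left₀ (Real.sinh_nonneg_iff.2 (by positivity))
  exact Real.sinh_le_sinh.2 (by gcongr)

theorem okH_spec {a h : ℤ} (hc : okH a h = true) {t : ℝ} (ht : |t| ≤ (a : ℝ) / 10000) :
    Real.sinh (Real.pi * t) ^ 2 ≤ (h : ℝ) / 10000 := by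
  have h2 := NumIs.pos_of_chk (NumIs.chk_sound hc List.Forall₂.nil)
  simp only [E.val, val_T] at h2
  have := sinh_sq_le ht
  linarith only [h2, this]

/-! ### relations -/

/-- relations between the data -/
structure OkS (s : SPrm) : Prop where
  ul : 0 < s.ul
  vl : 0 < s.vl
  vh : s.vh < 5000
  uh : s.uh < 5000
  be : 0 ≤ s.be
  be' : s.be ≤ 10
  ga : 0 ≤ s.ga
  ga' : s.ga ≤ 10
  lm : 0 ≤ s.lm
  l1 : 10 * s.vh < 10 * s.l0 + s.lm * s.vh
  lm' : s.lm ≤ 10
  ma : 10 * s.ma ≤ 10 * s.l0 + s.lm * s.vl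
  y1 : 10 * s.e - s.be * s.ul + s.ga * s.vl - 10 * s.vl ≤ 50000
  um : 10 * s.e + s.ga * s.vh + (10 - s.be) * s.uh < 100000
  hP : 0 < s.hP
  hR : 0 < s.hR
  hS : 0 < s.hS
  hU : 0 < s.hU
  hC : 0 < s.hC

/-- heights -/
structure HtS (s : SPrm) (tu tv tm : ℝ) : Prop where
  aP : |tu + tm| ≤ (s.aP : ℝ) / 10000
  aR : |tm| ≤ (s.aR : ℝ) / 10000
  aS : |tv| ≤ (s.aS : ℝ) / 10000
  aU : |tu| ≤ (s.aU : ℝ) / 10000
  aC : |tm - tv| ≤ (s.aC : ℝ) / 10000

/-- real parts -/
structure InS (s : SPrm) (u v m : ℝ) : Prop where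
  u0 : (s.ul : ℝ) / 10000 ≤ u
  u1 : u ≤ (s.uh : ℝ) / 10000
  v0 : (s.vl : ℝ) / 10000 ≤ v
  v1 : v ≤ (s.vh : ℝ) / 10000
  m0 : (s.l0 : ℝ) / 10000 + (s.lm : ℝ) / 10 * v ≤ m
  m1 : m ≤ (s.m1 : ℝ) / 10000
  m2 : m ≤ (s.e : ℝ) / 10000 - (s.be : ℝ) / 10 * u + (s.ga : ℝ) / 10 * v

variable {s : SPrm} {tu tv tm u v m : ℝ}

theorem InS.facts (hi : InS s u v m) (hk : OkS s) : 0 < u ∧ u < 1 / 2 ∧ 0 < v ∧ v < 1 / 2 ∧
    0 < m - v ∧ m - v ≤ 1 / 2 ∧ u + m < 1 ∧ (s.ma : ℝ) / 10000 ≤ m ∧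
    m ≤ (s.e : ℝ) / 10000 - (s.be : ℝ) / 10 * u + (s.ga : ℝ) / 10 * ((s.vh : ℝ) / 10000) := by
  have a1 : (0 : ℝ) < s.ul := by exact_mod_cast hk.ul
  have a2 : (0 : ℝ) < s.vl := by exact_mod_cast hk.vl
  have a3 : (s.vh : ℝ) < 5000 := by exact_mod_cast hk.vh
  have a4 : (s.uh : ℝ) < 5000 := by exact_mod_cast hk.uh
  have a5 : (0 : ℝ) ≤ s.be := by exact_mod_cast hk.be
  have a6 : (s.be : ℝ) ≤ 10 := by exact_mod_cast hk.be'
  have a7 : (0 : ℝ) ≤ s.ga := by exact_mod_cast hk.ga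
  have a8 : (s.ga : ℝ) ≤ 10 := by exact_mod_cast hk.ga'
  have a9 : (0 : ℝ) ≤ s.lm := by exact_mod_cast hk.lm
  have b1 : (10 : ℝ) * s.vh < 10 * s.l0 + s.lm * s.vh := by exact_mod_cast hk.l1
  have b2 : (s.lm : ℝ) ≤ 10 := by exact_mod_cast hk.lm'
  have b3 : (10 : ℝ) * s.ma ≤ 10 * s.l0 + s.lm * s.vl := by exact_mod_cast hk.ma
  have b4 : (10 : ℝ) * s.e - s.be * s.ul + s.ga * s.vl - 10 * s.vl ≤ 50000 := by
    exact_mod_cast hk.y1
  have b5 : (10 : ℝ) * s.e + s.ga * s.vh + (10 - s.be) * s.uh < 100000 := by exact_mod_cast hk.um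
  obtain ⟨c1, c2, c3, c4, c5, c6, c7⟩ := hi
  have d1 := mul_le_mul_of_nonneg_left c4 (by linarith only [b2] : (0 : ℝ) ≤ 1 - (s.lm : ℝ) / 10)
  have d2 := mul_le_mul_of_nonneg_left c3 (by linarith only [a8] : (0 : ℝ) ≤ 1 - (s.ga : ℝ) / 10)
  have d3 := mul_le_mul_of_nonneg_left c1 (by linarith only [a5] : (0 : ℝ) ≤ (s.be : ℝ) / 10)
  have d4 := mul_le_mul_of_nonneg_left c2 (by linarith only [a6] : (0 : ℝ) ≤ 1 - (s.be : ℝ) / 10)
  have d5 := mul_le_mul_of_nonneg_left c4 (by linarith only [a7] : (0 : ℝ) ≤ (s.ga : ℝ) / 10)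
  have d6 := mul_le_mul_of_nonneg_left c3 (by linarith only [a9] : (0 : ℝ) ≤ (s.lm : ℝ) / 10)
  refine ⟨by linarith only [a1, c1], by linarith only [a4, c2], by linarith only [a2, c3], by linarith only [a3, c4], by linarith only [b1, c5, d1], by linarith only [b4, c7, d2, d3],
    by linarith only [b5, c7, d4, d5], by linarith only [b3, c5, d6], by linarith only [c7, d5]⟩

theorem sin_pos_of {x : ℝ} (h0 : 0 < x) (h1 : x < 1) : 0 < Real.sin (Real.pi * x) :=
  Real.sin_pos_of_pos_of_lt_pi (mul_pos Real.pi_pos h0) (by nlinarith only [h1, Real.pi_pos])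

theorem cos_nonneg_of {x : ℝ} (h0 : 0 ≤ x) (h1 : x ≤ 1 / 2) : 0 ≤ Real.cos (Real.pi * x) :=
  Real.cos_nonneg_of_neg_pi_div_two_le_of_le (by nlinarith only [h0, Real.pi_pos])
    (by nlinarith only [h1, Real.pi_pos])

theorem cos_nonpos_of {x : ℝ} (h0 : 1 / 2 ≤ x) (h1 : x ≤ 1) : Real.cos (Real.pi * x) ≤ 0 :=
  Real.cos_nonpos_of_pi_div_two_le_of_le (by nlinarith only [h0, Real.pi_pos])
    (by nlinarith only [h1, Real.pi_pos])

/-- `sin · PP` from below -/
noncomputable def kS (h : ℤ) (x : ℝ) : ℝ :=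
  Real.cos (Real.pi * x) * Real.sin (Real.pi * x) ^ 2 * (Real.sin (Real.pi * x) ^ 2 +
    (h : ℝ) / 10000)⁻¹

theorem val_eS (h : ℤ) (x : E) (xs : List ℝ) : (eS h x).val xs = kS h (x.val xs) := by
  show Real.cos _ * Real.sin _ ^ 2 * (Real.sin _ ^ 2 + (T h).val xs)⁻¹ = _
  rw [val_T]
  rfl

theorem kS_eq {h : ℤ} {x : ℝ} (hh : 0 < h) :
    kS h x = Real.sin (Real.pi * x) * (kN h x / kD h x) := by
  unfold kS kN kD
  rw [if_neg hh.ne', if_neg hh.ne']
  ring

/-- values of the checks; `R`, `P` the extreme values -/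
theorem val_eRP (h k : ℤ) (x m' : E) (xs : List ℝ) (hx : 0 < kD h (x.val xs)) :
    (eRP h k x m').val xs = kD h (x.val xs) *
      (kN k (m'.val xs) / kD k (m'.val xs) - kN h (x.val xs) / kD h (x.val xs)) := by
  show (nP k m').val xs * ((dP k m').val xs)⁻¹ * (dP h x).val xs - (nP h x).val xs = _
  rw [val_nP, val_dP, val_dP, val_nP]
  field_simp

theorem val_eF (h k σ : ℤ) (u' v' m' : E) (xs : List ℝ)
    (hx : 0 < kD h ((add u' m').val xs)) :
    (eF s h k σ u' v' m').val xs = kD h ((add u' m').val xs) *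
      (Real.cos (Real.pi * ((sub m' v').val xs)) * (kS s.hS (v'.val xs) +
        Real.sin (Real.pi * v'.val xs) * (kN k (m'.val xs) / kD k (m'.val xs) -
          kN h ((add u' m').val xs) / kD h ((add u' m').val xs)) +
        σ * (Real.sin (Real.pi * u'.val xs) *
          (kN h ((add u' m').val xs) / kD h ((add u' m').val xs)))) +
        Real.sin (Real.pi * ((sub m' v').val xs)) * (kS s.hS (v'.val xs) *
          (kN k (m'.val xs) / kD k (m'.val xs) -
          kN h ((add u' m').val xs) / kD h ((add u' m').val xs)))) := by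
  show Real.cos (Real.pi * ((sub m' v').val xs)) * ((eS s.hS v').val xs * (dP h (add u' m')).val xs +
    Real.sin (Real.pi * v'.val xs) * (eRP h k (add u' m') m').val xs +
    (σ : ℝ) / (1 : ℕ) * (Real.sin (Real.pi * u'.val xs) * (nP h (add u' m')).val xs)) +
    Real.sin (Real.pi * ((sub m' v').val xs)) * ((eS s.hS v').val xs *
      (eRP h k (add u' m') m').val xs) = _
  rw [val_eRP h k _ _ _ hx, val_eS, val_dP, val_nP]
  field_simp
  push_cast
  ring

theorem val_eE (h σ : ℤ) (u' v' m' : E) (xs : List ℝ)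
    (hx : 0 < kD h ((add u' m').val xs)) :
    (eE s h σ u' v' m').val xs = kD h ((add u' m').val xs) *
      (2 * kS s.hU (u'.val xs) - Real.sin (Real.pi * u'.val xs) *
          (kN h ((add u' m').val xs) / kD h ((add u' m').val xs)) +
        σ * (Real.sin (Real.pi * v'.val xs) *
          (kN h ((add u' m').val xs) / kD h ((add u' m').val xs)))) := by
  show ((2 : ℤ) : ℝ) / (1 : ℕ) * (eS s.hU u').val xs * (dP h (add u' m')).val xs -
    Real.sin (Real.pi * u'.val xs) * (nP h (add u' m')).val xs +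
    (σ : ℝ) / (1 : ℕ) * (Real.sin (Real.pi * v'.val xs) * (nP h (add u' m')).val xs) = _
  rw [val_eS, val_dP, val_nP]
  field_simp
  push_cast
  ring

theorem val_eG0 (h k : ℤ) (u' m' : E) (xs : List ℝ)
    (hx : 0 < kD h ((add u' m').val xs)) :
    (eG0 s h k u' m').val xs = kD h ((add u' m').val xs) *
      (2 * kS s.hU (u'.val xs) * (kN k (m'.val xs) / kD k (m'.val xs) -
          kN h ((add u' m').val xs) / kD h ((add u' m').val xs)) -
        Real.sin (Real.pi * u'.val xs) *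
          (kN h ((add u' m').val xs) / kD h ((add u' m').val xs)) *
          (kN k (m'.val xs) / kD k (m'.val xs))) := by
  show ((2 : ℤ) : ℝ) / (1 : ℕ) * (eS s.hU u').val xs * (eRP h k (add u' m') m').val xs -
    Real.sin (Real.pi * u'.val xs) * (nP h (add u' m')).val xs *
      ((nP k m').val xs * ((dP k m').val xs)⁻¹) = _
  rw [val_eRP h k _ _ _ hx, val_eS, val_nP, val_nP, val_dP]
  field_simp
  push_cast
  ring

theorem val_eG (h k σ : ℤ) (u' v' m' : E) (xs : List ℝ) :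
    (eG s h k σ u' v' m').val xs =
      Real.sin (Real.pi * ((sub m' v').val xs)) * Real.cos (Real.pi * ((sub m' v').val xs)) *
        (eE s h σ u' v' m').val xs +
      (Real.sin (Real.pi * ((sub m' v').val xs)) ^ 2 + (s.hC : ℝ) / 10000) *
        (eG0 s h k u' m').val xs := by
  show _ + (Real.sin _ ^ 2 + (T s.hC).val xs) * _ = _
  rw [val_T]
  rfl

end M3

end Pool.Agent.Work.MP_b30479_gtS.G2

end

section

/-!
# Interior 3-runs, level part: positivity of the three determinants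
-/

namespace Pool.Agent.Work.MP_b30479_gtS.G2

namespace M3

open NumIs (E V chk MM PP)
open NumIs.E hiding lnA lnB

variable {s : SPrm} {tu tv tm u v m : ℝ}

/-! ### algebra -/

/-- the first determinant -/
theorem algF {wu wv P Q R S Rk sg sy cy σ : ℝ} (hwv : 0 < wv) (hsy : 0 < sy)
    (hQ0 : 0 ≤ Q) (hQ1 : Q * sy ≤ cy) (hR : Rk ≤ R) (hS : sg ≤ wv * S) (hsg : 0 < sg)
    (hRP : 0 < Rk - P) (hσ : -(wu * |P * Q|) = σ * (wu * P * Q))
    (h : 0 < cy * (sg + wv * (Rk - P) + σ * (wu * P)) + sy * (sg * (Rk - P))) :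
    0 < wv * ((Q + S) * (Q + R - P) - Q ^ 2) - wu * |P * Q| := by
  have h1 : 0 < Q * (sg + wv * (Rk - P) + σ * (wu * P)) + sg * (Rk - P) := by
    rcases le_total 0 (sg + wv * (Rk - P) + σ * (wu * P)) with hX | hX
    · have := mul_pos hsg hRP
      have := mul_nonneg hQ0 hX
      linarith
    · have h2 : cy * (sg + wv * (Rk - P) + σ * (wu * P)) ≤
          Q * sy * (sg + wv * (Rk - P) + σ * (wu * P)) := mul_le_mul_of_nonpos_right hQ1 hX
      have h3 : 0 < sy * (Q * (sg + wv * (Rk - P) + σ * (wu * P)) + sg * (Rk - P)) := by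
        nlinarith only [h, h2]
      exact pos_of_mul_pos_right h3 hsy.le
  have h2 : wv * ((Q + S) * (Q + R - P) - Q ^ 2) - wu * |P * Q| =
      Q * (wv * S + wv * (R - P) + σ * (wu * P)) + wv * S * (R - P) := by
    rw [sub_eq_add_neg, hσ]; ring
  rw [h2]
  have h3 : Q * (sg + wv * (Rk - P)) ≤ Q * (wv * S + wv * (R - P)) := by
    apply mul_le_mul_of_nonneg_left _ hQ0
    have := mul_le_mul_of_nonneg_left hR hwv.le
    linarith only [hS, this]
  have h4 : sg * (Rk - P) ≤ wv * S * (R - P) :=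
    mul_le_mul hS (by linarith only [hR]) hRP.le (hsg.le.trans hS)
  nlinarith only [h1, h3, h4]

/-- the second determinant -/
theorem algG {wu wv P Q R S Rk tg q0 σ : ℝ} (hwu : 0 < wu) (hQ0 : 0 ≤ Q) (hQ : q0 ≤ Q)
    (hR : Rk ≤ R) (hS : tg ≤ wu * S) (hRP : 0 < Rk - P)
    (hσ : -(wv * |P * Q|) = σ * (wv * P * Q)) (hσ' : σ * (wv * P) ≤ 0)
    (hY : 0 < 2 * tg - wu * P + σ * (wv * P))
    (h : 0 < 2 * tg * (Rk - P) - wu * P * Rk ∨
      0 < q0 * (2 * tg - wu * P + σ * (wv * P)) + (2 * tg * (Rk - P) - wu * P * Rk)) :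
    0 < wu * (2 * S * (Q + R - P) - P * (Q + R)) - wv * |P * Q| := by
  have h2 : wu * (2 * S * (Q + R - P) - P * (Q + R)) - wv * |P * Q| =
      Q * (2 * (wu * S) - wu * P + σ * (wv * P)) + (R * (2 * (wu * S) - wu * P) -
        2 * (wu * S) * P) := by
    rw [sub_eq_add_neg, hσ]; ring
  rw [h2]
  have h3 : Q * (2 * tg - wu * P + σ * (wv * P)) ≤
      Q * (2 * (wu * S) - wu * P + σ * (wv * P)) := by
    apply mul_le_mul_of_nonneg_left _ hQ0
    linarith only [hS]
  have h4 : Rk * (2 * (wu * S) - wu * P) ≤ R * (2 * (wu * S) - wu * P) :=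
    mul_le_mul_of_nonneg_right hR (by linarith only [hS, hσ', hY])
  have h5 : 2 * tg * (Rk - P) ≤ 2 * (wu * S) * (Rk - P) :=
    mul_le_mul_of_nonneg_right (by linarith only [hS]) hRP.le
  have h6 : 0 < Q * (2 * tg - wu * P + σ * (wv * P)) + (2 * tg * (Rk - P) - wu * P * Rk) := by
    rcases h with h | h
    · have := mul_nonneg hQ0 hY.le
      linarith only [h, this]
    · have := mul_le_mul_of_nonneg_right hQ hY.le
      linarith only [h, this]
  nlinarith only [h3, h4, h5, h6]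

/-! ### the checks at a point -/

theorem val_linS (u' v' : E) (xs : List ℝ) : (linS s u' v').val xs =
    (s.e : ℝ) / 10000 - (s.be : ℝ) / 10 * u'.val xs + (s.ga : ℝ) / 10 * v'.val xs := by
  simp [linS, E.val, val_T]

/-- the sign condition on `m - 1/2` -/
def mOk (k : ℤ) (m : ℝ) : Prop := if k = 0 then 1 / 2 ≤ m else m ≤ 1 / 2
/-- the sign condition on `u + m - 1/2` -/
def xOk (σ : ℤ) (x : ℝ) : Prop := if σ = 1 then 1 / 2 ≤ x else x ≤ 1 / 2

theorem val_aM {k : ℤ} {m' : E} {xs : List ℝ} (h : mOk k (m'.val xs)) :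
    (aM k m').val xs ≤ 0 := by
  unfold mOk at h
  unfold aM
  split_ifs with hk
  · rw [if_pos hk] at h
    show (T 5000).val xs - _ ≤ 0
    rw [val_T]
    push_cast
    linarith only [h]
  · rw [if_neg hk] at h
    show _ - (T 5000).val xs ≤ 0
    rw [val_T]
    push_cast
    linarith only [h]

theorem val_aX {k : ℤ} {m' : E} {xs : List ℝ} (h : xOk k (m'.val xs)) :
    (aX k m').val xs ≤ 0 := by
  unfold xOk at h
  unfold aX
  split_ifs with hk
  · rw [if_pos hk] at h
    show (T 5000).val xs - _ ≤ 0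
    rw [val_T]
    push_cast
    linarith only [h]
  · rw [if_neg hk] at h
    show _ - (T 5000).val xs ≤ 0
    rw [val_T]
    push_cast
    linarith only [h]

/-- a check in two variables -/
theorem two_pos {e : E} {as : List E} (hk : OkS s) (hi : InS s u v m)
    (h : chk (e :: (as ++ [a2 s])) 60 (boxS2 s) = true) (ha : ∀ a ∈ as, a.val [u, m] ≤ 0) :
    0 < e.val [u, m] := by
  obtain ⟨-, -, -, -, -, -, -, f8, f9⟩ := hi.facts hk
  obtain ⟨e', he, hp⟩ := NumIs.chk2 h (by norm_num) (x := u) (y := m)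
    (by push_cast; exact hi.u0) (by push_cast; exact hi.u1) (by push_cast; exact f8)
    (by push_cast; exact hi.m1)
  simp only [List.mem_cons, List.mem_append, List.not_mem_nil, or_false] at he
  rcases he with he | he | he
  · rwa [he] at hp
  · exact absurd hp (not_lt.2 (ha e' he))
  · exfalso
    rw [he] at hp
    have : (a2 s).val [u, m] = m - ((s.e : ℝ) / 10000 - (s.be : ℝ) / 10 * u +
        (s.ga : ℝ) / 10 * ((s.vh : ℝ) / 10000)) := by
      show m - (linS s (var 0) (T s.vh)).val _ = _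
      rw [val_linS, val_T]
      rfl
    rw [this] at hp
    linarith only [f9, hp]

/-- a check in three variables -/
theorem three_pos {e : E} {as : List E} (hk : OkS s) (hi : InS s u v m)
    (h : chk (e :: (as ++ a3 s)) 60 (boxS3 s) = true) (ha : ∀ a ∈ as, a.val [u, v, m] ≤ 0) :
    0 < e.val [u, v, m] := by
  obtain ⟨-, -, -, -, -, -, -, f8, f9⟩ := hi.facts hk
  obtain ⟨e', he, hp⟩ := NumIs.chk3 h (by norm_num) (x := u) (y := v) (z := m)
    (by push_cast; exact hi.u0) (by push_cast; exact hi.u1) (by push_cast; exact hi.v0)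
    (by push_cast; exact hi.v1) (by push_cast; exact f8) (by push_cast; exact hi.m1)
  simp only [a3, List.mem_cons, List.mem_append, List.not_mem_nil, or_false] at he
  rcases he with he | he | he | he
  · rwa [he] at hp
  · exact absurd hp (not_lt.2 (ha e' he))
  · exfalso
    rw [he] at hp
    have : (sub (var 2) (linS s (var 0) (var 1))).val [u, v, m] =
        m - ((s.e : ℝ) / 10000 - (s.be : ℝ) / 10 * u + (s.ga : ℝ) / 10 * v) := by
      show m - (linS s (var 0) (var 1)).val _ = _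
      rw [val_linS]
      rfl
    rw [this] at hp
    linarith only [hp, hi, hi.m2]
  · exfalso
    rw [he] at hp
    have : (sub (add (T s.l0) (mul (q s.lm 10) (var 1))) (var 2)).val [u, v, m] =
        (s.l0 : ℝ) / 10000 + (s.lm : ℝ) / 10 * v - m := by
      simp [E.val, val_T]
    rw [this] at hp
    linarith only [hp, hi, hi.m0]

/-- the extreme values for the two heights -/
noncomputable def kap (h : ℤ) (x : ℝ) : ℝ := kN h x / kD h x

/-- the facts at a point -/
structure Facts (s : SPrm) (u v m : ℝ) (k σ h : ℤ) : Prop where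
  rp : 0 < kap k m - kap h (u + m)
  f : 0 < Real.cos (Real.pi * (m - v)) * (kS s.hS v +
        Real.sin (Real.pi * v) * (kap k m - kap h (u + m)) +
        σ * (Real.sin (Real.pi * u) * kap h (u + m))) +
        Real.sin (Real.pi * (m - v)) * (kS s.hS v * (kap k m - kap h (u + m)))
  e : 0 < 2 * kS s.hU u - Real.sin (Real.pi * u) * kap h (u + m) +
        σ * (Real.sin (Real.pi * ((s.vh : ℝ) / 10000)) * kap h (u + m))
  g : 0 < 2 * kS s.hU u * (kap k m - kap h (u + m)) -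
        Real.sin (Real.pi * u) * kap h (u + m) * kap k m ∨
      0 < Real.sin (Real.pi * (m - v)) * Real.cos (Real.pi * (m - v)) *
        (2 * kS s.hU u - Real.sin (Real.pi * u) * kap h (u + m) +
        σ * (Real.sin (Real.pi * v) * kap h (u + m))) +
        (Real.sin (Real.pi * (m - v)) ^ 2 + (s.hC : ℝ) / 10000) *
        (2 * kS s.hU u * (kap k m - kap h (u + m)) -
        Real.sin (Real.pi * u) * kap h (u + m) * kap k m)

theorem facts_of {g : Bool} (hk : OkS s) (hc : okS s g = true) (hi : InS s u v m)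
    {k σ h : ℤ} (hkm : (k = 0 ∨ k = s.hR) ∧ mOk k m) (hσ : (σ = 1 ∨ σ = -1) ∧ xOk σ (u + m))
    (hh : h = 0 ∨ h = s.hP) : Facts s u v m k σ h := by
  obtain ⟨f1, f2, f3, f4, f5, f6, f7, f8, f9⟩ := hi.facts hk
  have hx : 0 < Real.sin (Real.pi * (u + m)) := sin_pos_of (by linarith only [f1, f3, f5]) f7
  have hh0 : 0 ≤ h := by
    rcases hh with hh | hh
    · exact hh.ge
    · rw [hh]; exact hk.hP.le
  have hD : 0 < kD h (u + m) := kD_pos hx hh0
  have hR0 := hk.hR
  unfold okS at hc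
  simp only [Bool.and_eq_true, List.all_eq_true] at hc
  have hc1 := hc.1 h (by rcases hh with hh | hh <;> simp [hh])
  obtain ⟨⟨⟨⟨⟨cR0, cR1⟩, cE1, cE2⟩, cF⟩, cG⟩, cG'⟩ := hc1
  have v2 : ∀ e : E, (add (var 0) (var 1)).val [u, m] = u + m := fun _ => rfl
  have v3 : (add (var 0) (var 2)).val [u, v, m] = u + m := rfl
  have y3 : (sub (var 2) (var 1)).val [u, v, m] = m - v := rfl
  have w2 : (add (var 0) (var 1)).val [u, m] = u + m := rfl
  have hM2 : ∀ a ∈ [aM k (var 1)], a.val [u, m] ≤ 0 := by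
    intro a ha
    rw [List.mem_singleton.1 ha]
    exact val_aM hkm.2
  have hX2 : ∀ a ∈ [aX σ (add (var 0) (var 1))], a.val [u, m] ≤ 0 := by
    intro a ha
    rw [List.mem_singleton.1 ha]
    exact val_aX hσ.2
  have hMX3 : ∀ a ∈ [aX σ (add (var 0) (var 2)), aM k (var 2)], a.val [u, v, m] ≤ 0 := by
    intro a ha
    simp only [List.mem_cons, List.not_mem_nil, or_false] at ha
    rcases ha with ha | ha
    · rw [ha]; exact val_aX hσ.2
    · rw [ha]; exact val_aM hkm.2
  have hrp : okR s h k = true := by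
    rcases hkm.1 with hk1 | hk1 <;> rw [hk1] <;> assumption
  have hF : okF s h k σ = true := by
    have := cF k (by rcases hkm.1 with h1 | h1 <;> simp [h1])
    rcases hσ.1 with h1 | h1 <;> rw [h1]
    exacts [this.1, this.2]
  have hE : okE s h σ = true := by
    rcases hσ.1 with h1 | h1 <;> rw [h1] <;> assumption
  refine ⟨?_, ?_, ?_, ?_⟩
  · have := two_pos (as := [aM k (var 1)]) hk hi hrp hM2
    rw [val_eRP h k _ _ _ (by rw [w2]; exact hD), w2] at this
    exact pos_of_mul_pos_right this hD.le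
  · have := three_pos (as := [aX σ (add (var 0) (var 2)), aM k (var 2)]) hk hi hF hMX3
    rw [val_eF h k σ _ _ _ _ (by rw [v3]; exact hD), v3, y3] at this
    exact pos_of_mul_pos_right this hD.le
  · have := two_pos (as := [aX σ (add (var 0) (var 1))]) hk hi hE hX2
    rw [val_eE h σ _ _ _ _ (by rw [w2]; exact hD), w2, val_T] at this
    exact pos_of_mul_pos_right this hD.le
  · have key : okG0 s h k = true ∨ okG s h k σ = true := by
      rcases hkm.1 with hk1 | hk1
      · rw [hk1]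
        split_ifs at cG'
        · exact Or.inl cG'
        · right
          simp only [Bool.and_eq_true] at cG'
          rcases hσ.1 with h1 | h1 <;> rw [h1]
          exacts [cG'.1, cG'.2]
      · rw [hk1]
        exact Or.inl cG
    rcases key with key | key
    · left
      have := two_pos (as := [aM k (var 1)]) hk hi key hM2
      rw [val_eG0 h k _ _ _ (by rw [w2]; exact hD), w2] at this
      exact pos_of_mul_pos_right this hD.le
    · right
      have := three_pos (as := [aX σ (add (var 0) (var 2)), aM k (var 2)]) hk hi key hMX3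
      rw [val_eG, val_eE h σ _ _ _ _ (by rw [v3]; exact hD),
        val_eG0 h k _ _ _ (by rw [v3]; exact hD), v3, y3] at this
      refine pos_of_mul_pos_right (a := kD h (u + m)) ?_ hD.le
      refine this.trans_eq ?_
      show _ = kD h (u + m) * (Real.sin (Real.pi * (m - v)) * Real.cos (Real.pi * (m - v)) *
        (2 * kS s.hU u - Real.sin (Real.pi * u) * (kN h (u + m) / kD h (u + m)) +
        σ * (Real.sin (Real.pi * v) * (kN h (u + m) / kD h (u + m)))) +
        (Real.sin (Real.pi * (m - v)) ^ 2 + (s.hC : ℝ) / 10000) *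
        (2 * kS s.hU u * (kN k m / kD k m - kN h (u + m) / kD h (u + m)) -
        Real.sin (Real.pi * u) * (kN h (u + m) / kD h (u + m)) * (kN k m / kD k m)))
      simp only [E.val, NumIs.lkR_zero, NumIs.lkR_one, NumIs.lkR_succ]
      ring

end M3

end Pool.Agent.Work.MP_b30479_gtS.G2

end

section

/-!
# Interior 3-runs, level part: the three determinants with the heights
-/

namespace Pool.Agent.Work.MP_b30479_gtS.G2

namespace M3

open NumIs (MM PP)

variable {s : SPrm} {tu tv tm u v m : ℝ}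

theorem kap_zero (x : ℝ) : kap 0 x = Real.cos (Real.pi * x) / Real.sin (Real.pi * x) := by
  simp [kap, kN, kD]

theorem kap_h {h : ℤ} (hh : 0 < h) (x : ℝ) : kap h x =
    Real.sin (Real.pi * x) * Real.cos (Real.pi * x) /
      (Real.sin (Real.pi * x) ^ 2 + (h : ℝ) / 10000) := by
  simp [kap, kN, kD, hh.ne']

/-- **The three determinants are positive.** -/
theorem dets {g : Bool} (hk : OkS s) (hc : okS s g = true) (hi : InS s u v m)
    (ht : HtS s tu tv tm) :
    0 < PP (m - v) (tm - tv) + PP m tm - PP (u + m) (tu + tm) ∧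
    0 < Real.sin (Real.pi * v) * ((PP (m - v) (tm - tv) + PP v tv) *
        (PP (m - v) (tm - tv) + PP m tm - PP (u + m) (tu + tm)) - PP (m - v) (tm - tv) ^ 2) -
      Real.sin (Real.pi * u) * |PP (u + m) (tu + tm) * PP (m - v) (tm - tv)| ∧
    0 < Real.sin (Real.pi * u) * (2 * PP u tu *
        (PP (m - v) (tm - tv) + PP m tm - PP (u + m) (tu + tm)) -
        PP (u + m) (tu + tm) * (PP (m - v) (tm - tv) + PP m tm)) -
      Real.sin (Real.pi * v) * |PP (u + m) (tu + tm) * PP (m - v) (tm - tv)| := by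
  obtain ⟨f1, f2, f3, f4, f5, f6, f7, -, -⟩ := hi.facts hk
  have f8 : 0 < m := by linarith only [f3, f5]
  have f9 : m < 1 := by linarith only [f1, f7]
  have hc' := hc
  unfold okS at hc'
  simp only [Bool.and_eq_true] at hc'
  obtain ⟨-, h1, h2, h3, h4, h5⟩ := hc'
  have sx : 0 < Real.sin (Real.pi * (u + m)) := sin_pos_of (by linarith only [f1, f3, f5]) f7
  have su : 0 < Real.sin (Real.pi * u) := sin_pos_of f1 (by linarith only [f3, f5, f7])
  have sv : 0 < Real.sin (Real.pi * v) := sin_pos_of f3 (by linarith only [f1, f5, f7])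
  have sm : 0 < Real.sin (Real.pi * m) := sin_pos_of f8 f9
  have sy : 0 < Real.sin (Real.pi * (m - v)) := sin_pos_of f5 (by linarith only [f1, f3, f7])
  have cy : 0 ≤ Real.cos (Real.pi * (m - v)) := cos_nonneg_of f5.le f6
  have cv : 0 < Real.cos (Real.pi * v) := Real.cos_pos_of_mem_Ioo
    ⟨by nlinarith only [f1, f2, f3, Real.pi_pos], by nlinarith only [f4, Real.pi_pos]⟩
  have cu : 0 < Real.cos (Real.pi * u) := Real.cos_pos_of_mem_Ioo
    ⟨by nlinarith only [f1, Real.pi_pos], by nlinarith only [f2, Real.pi_pos]⟩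
  have bP := PP_between (h := s.hP) (t := tu + tm) sx hk.hP (okH_spec h1 ht.aP)
  have bR := PP_between (h := s.hR) (t := tm) sm hk.hR (okH_spec h2 ht.aR)
  have bS := PP_between (h := s.hS) (t := tv) sv hk.hS (okH_spec h3 ht.aS)
  have bU := PP_between (h := s.hU) (t := tu) su hk.hU (okH_spec h4 ht.aU)
  have bC := PP_between (h := s.hC) (t := tm - tv) sy hk.hC (okH_spec h5 ht.aC)
  have hS : kS s.hS v ≤ Real.sin (Real.pi * v) * PP v tv := by
    rw [kS_eq hk.hS]
    exact mul_le_mul_of_nonneg_left (bS.1 cv.le).1 sv.le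
  have hU : kS s.hU u ≤ Real.sin (Real.pi * u) * PP u tu := by
    rw [kS_eq hk.hU]
    exact mul_le_mul_of_nonneg_left (bU.1 cu.le).1 su.le
  have hSp : 0 < kS s.hS v := by
    have : (0 : ℝ) < s.hS := by exact_mod_cast hk.hS
    unfold kS; positivity
  have hUp : 0 < kS s.hU u := by
    have : (0 : ℝ) < s.hU := by exact_mod_cast hk.hU
    unfold kS; positivity
  obtain ⟨q1, q2⟩ := bC.1 cy
  have q1' : kap s.hC (m - v) ≤ PP (m - v) (tm - tv) := q1
  have q2' : PP (m - v) (tm - tv) ≤ kap 0 (m - v) := q2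
  have hCp : (0 : ℝ) < s.hC := by exact_mod_cast hk.hC
  have hQ0 : 0 ≤ PP (m - v) (tm - tv) := by
    refine le_trans ?_ q1'
    rw [kap_h hk.hC]
    positivity
  have hQ1 : PP (m - v) (tm - tv) * Real.sin (Real.pi * (m - v)) ≤
      Real.cos (Real.pi * (m - v)) := by
    rw [kap_zero, le_div_iff₀ sy] at q2'
    exact q2'
  -- the choices
  obtain ⟨k, hkm, hR⟩ : ∃ k : ℤ, ((k = 0 ∨ k = s.hR) ∧ mOk k m) ∧ kap k m ≤ PP m tm := by
    rcases le_total m (1 / 2) with h | h
    · refine ⟨s.hR, ⟨Or.inr rfl, ?_⟩, (bR.1 (cos_nonneg_of f8.le h)).1⟩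
      unfold mOk
      rw [if_neg hk.hR.ne']
      exact h
    · refine ⟨0, ⟨Or.inl rfl, ?_⟩, (bR.2 (cos_nonpos_of h f9.le)).1⟩
      unfold mOk
      rw [if_pos rfl]
      exact h
  obtain ⟨σ, hσ, hbet, hsg⟩ : ∃ σ : ℤ, ((σ = 1 ∨ σ = -1) ∧ xOk σ (u + m)) ∧
      ((kap 0 (u + m) ≤ PP (u + m) (tu + tm) ∧ PP (u + m) (tu + tm) ≤ kap s.hP (u + m)) ∨
      (kap s.hP (u + m) ≤ PP (u + m) (tu + tm) ∧ PP (u + m) (tu + tm) ≤ kap 0 (u + m))) ∧
      (∀ z ∈ [PP (u + m) (tu + tm), kap 0 (u + m), kap s.hP (u + m)], (σ : ℝ) * z ≤ 0) := by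
    have hPp : (0 : ℝ) < s.hP := by exact_mod_cast hk.hP
    rcases le_total (1 / 2) (u + m) with h | h
    · have hcx := cos_nonpos_of h f7.le
      have e0 : kap 0 (u + m) ≤ 0 := by
        rw [kap_zero]; exact div_nonpos_of_nonpos_of_nonneg hcx sx.le
      have eh : kap s.hP (u + m) ≤ 0 := by
        rw [kap_h hk.hP]
        exact div_nonpos_of_nonpos_of_nonneg (mul_nonpos_of_nonneg_of_nonpos sx.le hcx)
          (by positivity)
      obtain ⟨b1, b2⟩ := bP.2 hcx
      refine ⟨1, ⟨Or.inl rfl, ?_⟩, Or.inl ⟨b1, b2⟩, ?_⟩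
      · unfold xOk; rw [if_pos rfl]; exact h
      · have b2' : PP (u + m) (tu + tm) ≤ kap s.hP (u + m) := b2
        intro z hz
        simp only [List.mem_cons, List.not_mem_nil, or_false] at hz
        rcases hz with rfl | rfl | rfl <;> push_cast <;> linarith only [eh, b2', e0]
    · have hcx := cos_nonneg_of (by linarith only [f1, f3, f5] : 0 ≤ u + m) h
      have e0 : 0 ≤ kap 0 (u + m) := by rw [kap_zero]; positivity
      have eh : 0 ≤ kap s.hP (u + m) := by rw [kap_h hk.hP]; positivity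
      obtain ⟨b1, b2⟩ := bP.1 hcx
      refine ⟨-1, ⟨Or.inr rfl, ?_⟩, Or.inr ⟨b1, b2⟩, ?_⟩
      · unfold xOk; rw [if_neg (by norm_num)]; exact h
      · have b1' : kap s.hP (u + m) ≤ PP (u + m) (tu + tm) := b1
        intro z hz
        simp only [List.mem_cons, List.not_mem_nil, or_false] at hz
        rcases hz with rfl | rfl | rfl <;> push_cast <;> linarith only [eh, b1', e0]
  have F0 := facts_of hk hc hi hkm hσ (Or.inl rfl : (0 : ℤ) = 0 ∨ (0 : ℤ) = s.hP)
  have Fh := facts_of hk hc hi hkm hσ (Or.inr rfl : s.hP = 0 ∨ s.hP = s.hP)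
  set P := PP (u + m) (tu + tm)
  set Q := PP (m - v) (tm - tv)
  set R := PP m tm
  set Rk := kap k m
  set κ0 := kap 0 (u + m)
  set κh := kap s.hP (u + m)
  set wu := Real.sin (Real.pi * u)
  set wv := Real.sin (Real.pi * v)
  set w1 := Real.sin (Real.pi * ((s.vh : ℝ) / 10000))
  set yy := Real.sin (Real.pi * (m - v))
  set cc := Real.cos (Real.pi * (m - v))
  have hP0 : (σ : ℝ) * P ≤ 0 := hsg P (by simp)
  have hκ0 : (σ : ℝ) * κ0 ≤ 0 := hsg κ0 (by simp)
  have hκh : (σ : ℝ) * κh ≤ 0 := hsg κh (by simp)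
  -- affine in `P`
  have hRP : 0 < Rk - P := by
    have := aff_pos (α := Rk) (β := -1) (a := κ0) (b := κh) (P := P)
      (by linarith only [F0, F0.rp]) (by linarith only [Fh, Fh.rp]) hbet
    linarith only [this]
  have hF : 0 < cc * (kS s.hS v + wv * (Rk - P) + σ * (wu * P)) +
      yy * (kS s.hS v * (Rk - P)) := by
    have := aff_pos (α := cc * (kS s.hS v + wv * Rk) + yy * (kS s.hS v * Rk))
      (β := cc * (-wv + σ * wu) - yy * kS s.hS v) (a := κ0) (b := κh) (P := P)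
      (by refine F0.f.trans_eq ?_; ring) (by refine Fh.f.trans_eq ?_; ring) hbet
    refine this.trans_eq ?_
    ring
  have hw1 : wv ≤ w1 := by
    apply Real.sin_le_sin_of_le_of_le_pi_div_two
    · nlinarith only [f1, f2, f3, Real.pi_pos]
    · have a3 : (s.vh : ℝ) < 5000 := by exact_mod_cast hk.vh
      nlinarith only [a3, Real.pi_pos]
    · have := hi.v1
      have := Real.pi_pos
      gcongr
  have hE : 0 < 2 * kS s.hU u - wu * P + σ * (w1 * P) := by
    have := aff_pos (α := 2 * kS s.hU u) (β := -wu + σ * w1) (a := κ0) (b := κh) (P := P)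
      (by refine F0.e.trans_eq ?_; ring) (by refine Fh.e.trans_eq ?_; ring) hbet
    refine this.trans_eq ?_
    ring
  have mono : ∀ z : ℝ, (σ : ℝ) * z ≤ 0 → (σ : ℝ) * (w1 * z) ≤ σ * (wv * z) := by
    intro z hz
    nlinarith only [hw1, hz]
  have hY : 0 < 2 * kS s.hU u - wu * P + σ * (wv * P) := by
    linarith only [hE, mono, hP0, mono P hP0]
  -- the second form of the last determinant
  have form : ∀ κ : ℝ, (σ : ℝ) * κ ≤ 0 →
      0 < 2 * kS s.hU u - wu * κ + σ * (w1 * κ) →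
      (0 < 2 * kS s.hU u * (Rk - κ) - wu * κ * Rk ∨
        0 < yy * cc * (2 * kS s.hU u - wu * κ + σ * (wv * κ)) +
          (yy ^ 2 + (s.hC : ℝ) / 10000) * (2 * kS s.hU u * (Rk - κ) - wu * κ * Rk)) →
      0 < yy * cc * (2 * kS s.hU u - wu * κ + σ * (wv * κ)) +
          (yy ^ 2 + (s.hC : ℝ) / 10000) * (2 * kS s.hU u * (Rk - κ) - wu * κ * Rk) := by
    intro κ h1 h2 h3
    rcases h3 with h3 | h3
    · have h4 : 0 < 2 * kS s.hU u - wu * κ + σ * (wv * κ) := by linarith only [h2, mono, h1, mono κ h1]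
      have h5 : 0 ≤ yy * cc := mul_nonneg sy.le cy
      have h6 : 0 < yy ^ 2 + (s.hC : ℝ) / 10000 := by positivity
      have := mul_pos h6 h3
      have := mul_nonneg h5 h4.le
      linarith
    · exact h3
  have g0 := form κ0 hκ0 F0.e F0.g
  have gh := form κh hκh Fh.e Fh.g
  have hG : 0 < yy * cc * (2 * kS s.hU u - wu * P + σ * (wv * P)) +
      (yy ^ 2 + (s.hC : ℝ) / 10000) * (2 * kS s.hU u * (Rk - P) - wu * P * Rk) := by
    have := aff_pos (α := yy * cc * (2 * kS s.hU u) + (yy ^ 2 + (s.hC : ℝ) / 10000) *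
        (2 * kS s.hU u * Rk))
      (β := yy * cc * (-wu + σ * wv) + (yy ^ 2 + (s.hC : ℝ) / 10000) *
        (-(2 * kS s.hU u) - wu * Rk)) (a := κ0) (b := κh) (P := P)
      (by refine g0.trans_eq ?_; ring) (by refine gh.trans_eq ?_; ring) hbet
    refine this.trans_eq ?_
    ring
  have abs1 : |P * Q| = -((σ : ℝ) * (P * Q)) := by
    rcases hσ.1 with h | h
    · rw [h] at hP0 ⊢
      push_cast at hP0 ⊢
      rw [abs_of_nonpos (mul_nonpos_of_nonpos_of_nonneg (by linarith only [hP0]) hQ0)]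
      ring
    · rw [h] at hP0 ⊢
      push_cast at hP0 ⊢
      rw [abs_of_nonneg (mul_nonneg (by linarith only [hP0]) hQ0)]
      ring
  refine ⟨by linarith only [hQ0, hR, hRP], ?_, ?_⟩
  · exact algF (σ := σ) sv sy hQ0 hQ1 hR hS hSp hRP (by rw [abs1]; ring) hF
  · have hyy : 0 < yy ^ 2 + (s.hC : ℝ) / 10000 := by positivity
    refine algG (σ := σ) (q0 := kap s.hC (m - v)) su hQ0 q1' hR hU hRP (by rw [abs1]; ring)
      (by nlinarith only [sv, hP0]) hY (Or.inr ?_)
    rw [kap_h hk.hC]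
    refine pos_of_mul_pos_right (a := yy ^ 2 + (s.hC : ℝ) / 10000) ?_ hyy.le
    have e : (yy ^ 2 + (s.hC : ℝ) / 10000) * (yy * cc / (yy ^ 2 + (s.hC : ℝ) / 10000)) =
        yy * cc := by rw [mul_comm]; exact div_mul_cancel₀ _ hyy.ne'
    refine hG.trans_eq ?_
    linear_combination (-(2 * kS s.hU u - wu * P + σ * (wv * P))) * e

end M3

end Pool.Agent.Work.MP_b30479_gtS.G2

end

section

/-!
# Interior 3-runs, level part: the inner derivative is negative to the right of the range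
-/

namespace Pool.Agent.Work.MP_b30479_gtS.G2

namespace M3

open NumIs (E V chk lnA MM)
open NumIs.E hiding lnA lnB

/-- relations between the data, part 2 -/
structure OkU (p : Prm) : Prop where
  ul : 0 < p.ul
  uh : p.ul ≤ p.uh
  vl : 500 ≤ p.vl
  be : 0 ≤ p.be
  ga : 0 ≤ p.ga
  ga' : p.ga ≤ 10
  yl0 : 0 < p.yl
  y1 : p.yl ≤ p.m1 - p.vh
  y2 : 10 * p.yl ≤ 10 * p.e - p.be * p.uh + p.ga * p.vh - 10 * p.vh
  y3 : p.yl ≤ 2500 + p.vl
  mb : 10 * p.mb ≤ 10 * p.e - p.be * p.uh + p.ga * p.vl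
  mb' : p.mb ≤ p.m1
  m1 : p.m1 ≤ 7500
  u1 : 5000 ≤ p.ul + p.mb
  uu : p.ul ≤ 2500
  uu' : p.uh ≤ 5000
  u5 : 10 * p.uh + 10 * p.ul + 2 * (10 * p.e - p.be * p.ul + p.ga * p.vh) ≤ 200000
  u6 : 10 * p.uh + 10 * p.uh + 2 * (10 * p.e - p.be * p.uh + p.ga * p.vh) ≤ 200000
  c0 : chk [sub (E.exp (mul (mul (q 2 1) E.pi) (sub (T 0) (T (p.tmh - p.tvl)))))
      (cosPi (mul (q 2 1) (T p.yl))),
    sub (add (E.exp (mul (mul (q 2 1) E.pi) (sub (T 0) (T (p.tmh - p.tvl)))))
      (E.exp (mul (mul (q 2 1) E.pi) (sub (T 0) (T p.tch)))))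
      (mul (q 2 1) (cosPi (mul (q 2 1) (T p.yl))))] 1 [] = true

/-- the upper end of the range of the inner variable -/
noncomputable def mU (p : Prm) (u v : ℝ) : ℝ :=
  min ((p.m1 : ℝ) / 10000) ((p.e : ℝ) / 10000 - (p.be : ℝ) / 10 * u + (p.ga : ℝ) / 10 * v)

variable {p : Prm} {tu tv tm u v m : ℝ}

/-- `W` increases with the height if the two heights together are above the lowest point -/
theorem W_mono2 {x s t : ℝ} (hs : 0 < MM x s) (ht : 0 < MM x t) (hst : s ≤ t)
    (hx : 2 * Real.cos (2 * Real.pi * x) ≤ Real.exp (2 * Real.pi * s) + Real.exp (2 * Real.pi * t)) :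
    W x s ≤ W x t := by
  rw [W_eq hs, W_eq ht]
  have h1 := exp_mono hst
  have h2 : qd x (Real.exp (2 * Real.pi * s)) ≤ qd x (Real.exp (2 * Real.pi * t)) := by
    unfold qd
    nlinarith only [h1, hx, mul_nonneg (sub_nonneg.2 h1) (sub_nonneg.2 hx)]
  have := Real.log_le_log (qd_pos hs) h2
  linarith only [this]

theorem OkU.W_yl (h : OkU p) (ht : Hts p tu tv tm) {y : ℝ}
    (h0 : (p.yl : ℝ) / 10000 ≤ y) (h1 : y ≤ 1 - (p.yl : ℝ) / 10000) :
    W y (-(tm - (p.tvl : ℝ) / 10000)) ≤ W y (-(tm - tv)) := by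
  have hx : (0 : ℝ) < p.yl := by exact_mod_cast h.yl0
  have hx' : 0 < (p.yl : ℝ) / 10000 := by positivity
  have h3 := cos_le (by positivity) h0 h1
  have hle : -(tm - (p.tvl : ℝ) / 10000) ≤ -(tm - tv) := by linarith only [ht, ht.tv0]
  have h4 : Real.exp (2 / 1 * Real.pi * (0 / 10000 - (((p.tmh : ℝ) - p.tvl) / 10000))) ≤
      Real.exp (2 * Real.pi * (-(tm - (p.tvl : ℝ) / 10000))) := by
    apply Real.exp_le_exp.2
    have := Real.pi_pos
    rw [show (2 : ℝ) / 1 = 2 by norm_num, sub_div, zero_div]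
    apply mul_le_mul_of_nonneg_left _ (by positivity)
    linarith only [ht, ht.tm1]
  have h4' : Real.exp (2 / 1 * Real.pi * (0 / 10000 - ((p.tch : ℝ) / 10000))) ≤
      Real.exp (2 * Real.pi * (-(tm - tv))) := by
    apply Real.exp_le_exp.2
    have := Real.pi_pos
    rw [show (2 : ℝ) / 1 = 2 by norm_num, zero_div]
    apply mul_le_mul_of_nonneg_left _ (by positivity)
    linarith only [ht, ht.c1]
  have h5 : Real.cos (2 * Real.pi * ((p.yl : ℝ) / 10000)) =
      Real.cos (Real.pi * (2 / 1 * ((p.yl : ℝ) / 10000))) := by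
    congr 1; ring
  rw [h5] at h3
  have hm := exp_mono hle
  obtain ⟨e, he, h2⟩ := NumIs.chk_sound h.c0 List.Forall₂.nil
  simp only [List.mem_cons, List.not_mem_nil, or_false] at he
  refine W_mono2 (MM_pos' (by linarith only [h0, hx]) (by linarith only [h1, hx])) (MM_pos' (by linarith only [h0, hx]) (by linarith only [h1, hx])) hle ?_
  rcases he with he | he
  · rw [he] at h2
    simp only [E.val, val_T] at h2
    push_cast at h2
    linarith only [h3, h4, hm, h2]
  · rw [he] at h2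
    simp only [E.val, val_T] at h2
    push_cast at h2
    linarith only [h3, h4, h4', h2]

/-- the conclusion from a check at the point `x` instead of `u + m` -/
theorem neg_of {x : ℝ} (hk : OkU p) (ht : Hts p tu tv tm)
    (hy0 : (p.yl : ℝ) / 10000 ≤ m - v) (hy1 : m - v ≤ 1 - (p.yl : ℝ) / 10000)
    (hx : Real.sin (Real.pi * (u + m)) ^ 2 ≤ Real.sin (Real.pi * x) ^ 2)
    (hM : 0 < MM (u + m) (tu + tm))
    (h : ∀ a ∈ [p.tul, p.tuh], 0 < W (m - v) (-(tm - (p.tvl : ℝ) / 10000)) +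
      (lnA m tm + 3 * Real.pi * tm) - W x (tm + (a : ℝ) / 10000)) :
    Phi tu tv tm u v m < 0 := by
  have hyl : (0 : ℝ) < p.yl := by exact_mod_cast hk.yl0
  have hyl' : 0 < (p.yl : ℝ) / 10000 := by positivity
  rw [Phi_eq]
  have h1 := W_le_of_sin hx hM
  have hMx : 0 < MM x (tu + tm) := by
    unfold MM at hM ⊢
    linarith only [hx, hM]
  have h2 : W (m - v) (-(tm - (p.tvl : ℝ) / 10000)) ≤ W (m - v) (-(tm - tv)) :=
    hk.W_yl ht hy0 hy1
  have h3 := h p.tul (by simp)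
  have h4 := h p.tuh (by simp)
  rcases W_le (t := tm + (p.tul : ℝ) / 10000) (r := tm + (p.tuh : ℝ) / 10000) hMx
    (by linarith only [ht, ht.tu0]) (by linarith only [ht, ht.tu1]) with ⟨-, h5⟩ | ⟨-, h5⟩ <;> linarith only [h1, h2, h3, h5, h4]

theorem val_eU (a : ℤ) (x y m' t : E) (xs : List ℝ) : (eU p a x y m' t).val xs =
    W (y.val xs) (-(t.val xs - (p.tvl : ℝ) / 10000)) +
      (lnA (m'.val xs) (t.val xs) + 3 * Real.pi * t.val xs) -
      W (x.val xs) (t.val xs + (a : ℝ) / 10000) := by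
  unfold eU
  show (f2 y (sub t (T p.tvl))).val xs + (f3 m' t).val xs - (f1 x (add t (T a))).val xs = _
  rw [val_f2, val_f3, val_f1]
  show W _ (-(t.val xs - (T p.tvl).val xs)) + _ - W _ (t.val xs + (T a).val xs) = _
  rw [val_T, val_T]

theorem val_lin (u v : E) (xs : List ℝ) : (lin p u v).val xs =
    (p.e : ℝ) / 10000 - (p.be : ℝ) / 10 * u.val xs + (p.ga : ℝ) / 10 * v.val xs := by
  simp [lin, E.val, val_T]

/-- **Negativity of the inner derivative to the right of the range.** -/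
theorem Phi_neg {f : Bool} (hk : OkU p) (h : okU p f = true)
    (hf : f = true → 10 * p.e - p.be * p.ul + p.ga * p.vh ≤ 10 * p.m1) (ht : Hts p tu tv tm)
    (hu0 : (p.ul : ℝ) / 10000 ≤ u) (hu1 : u ≤ (p.uh : ℝ) / 10000)
    (hv0 : (p.vl : ℝ) / 10000 ≤ v) (hv1 : v ≤ (p.vh : ℝ) / 10000)
    (hmU : mU p u v ≤ m) (hm1 : m ≤ 3 / 4) (hM : 0 < MM (u + m) (tu + tm)) :
    Phi tu tv tm u v m < 0 := by
  unfold okU at h
  rw [List.all_eq_true] at h
  have a1 : (0 : ℝ) < p.ul := by exact_mod_cast hk.ul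
  have a2 : (p.ul : ℝ) ≤ p.uh := by exact_mod_cast hk.uh
  have a3 : (0 : ℝ) ≤ p.be := by exact_mod_cast hk.be
  have a4 : (0 : ℝ) ≤ p.ga := by exact_mod_cast hk.ga
  have a5 : (p.ga : ℝ) ≤ 10 := by exact_mod_cast hk.ga'
  have a6 : (p.yl : ℝ) ≤ p.m1 - p.vh := by exact_mod_cast hk.y1
  have a7 : (10 : ℝ) * p.yl ≤ 10 * p.e - p.be * p.uh + p.ga * p.vh - 10 * p.vh := by
    exact_mod_cast hk.y2
  have a8 : (p.yl : ℝ) ≤ 2500 + p.vl := by exact_mod_cast hk.y3
  have a9 : (10 : ℝ) * p.mb ≤ 10 * p.e - p.be * p.uh + p.ga * p.vl := by exact_mod_cast hk.mb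
  have b1 : (p.mb : ℝ) ≤ p.m1 := by exact_mod_cast hk.mb'
  have b2 : (p.m1 : ℝ) ≤ 7500 := by exact_mod_cast hk.m1
  have b3 : (5000 : ℝ) ≤ p.ul + p.mb := by exact_mod_cast hk.u1
  have b4 : (p.ul : ℝ) ≤ 2500 := by exact_mod_cast hk.uu
  have b5 : (p.uh : ℝ) ≤ 5000 := by exact_mod_cast hk.uu'
  have b6 : (10 : ℝ) * p.uh + 10 * p.ul + 2 * (10 * p.e - p.be * p.ul + p.ga * p.vh) ≤ 200000 := by
    exact_mod_cast hk.u5
  have b7 : (10 : ℝ) * p.uh + 10 * p.uh + 2 * (10 * p.e - p.be * p.uh + p.ga * p.vh) ≤ 200000 := by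
    exact_mod_cast hk.u6
  have hvg : (p.ga : ℝ) / 10 * v ≤ (p.ga : ℝ) / 10 * ((p.vh : ℝ) / 10000) := by gcongr
  have hvg' : (p.ga : ℝ) / 10 * ((p.vl : ℝ) / 10000) ≤ (p.ga : ℝ) / 10 * v := by gcongr
  have hub : (p.be : ℝ) / 10 * u ≤ (p.be : ℝ) / 10 * ((p.uh : ℝ) / 10000) := by gcongr
  have hub' : (p.be : ℝ) / 10 * ((p.ul : ℝ) / 10000) ≤ (p.be : ℝ) / 10 * u := by gcongr
  -- ranges
  have hmb : (p.mb : ℝ) / 10000 ≤ m := by
    refine le_trans (le_min ?_ ?_) hmU
    · gcongr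
    · linarith only [a9, hvg', hub]
  have hy0 : (p.yl : ℝ) / 10000 ≤ m - v := by
    have h1 : (p.yl : ℝ) / 10000 + v ≤ mU p u v := by
      refine le_min ?_ ?_
      · linarith only [hv1, a6]
      · have h2 : (1 - (p.ga : ℝ) / 10) * v ≤ (1 - (p.ga : ℝ) / 10) * ((p.vh : ℝ) / 10000) :=
          mul_le_mul_of_nonneg_left hv1 (by linarith only [a5])
        nlinarith only [a7, hub, h2]
    linarith only [hmU, h1]
  have hy1 : m - v ≤ 1 - (p.yl : ℝ) / 10000 := by linarith only [hv0, hm1, a8]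
  -- the check at `u = uh`
  have key4 : (2 : ℝ) < u + (p.ul : ℝ) / 10000 + 2 * m → Phi tu tv tm u v m < 0 := by
    intro hc
    refine neg_of (x := (p.uh : ℝ) / 10000 + m - 1) hk ht hy0 hy1 ?_ hM ?_
    · rw [show Real.pi * (u + m) = Real.pi * (u + m - 1) + Real.pi by ring, Real.sin_add_pi,
        neg_sq]
      exact sin_ge_left (by linarith only [hm1, b4, hc]) (by linarith only [hu1]) (by linarith only [hu1, hm1, a9, b3, b4, b7, hvg, hvg'])
    · intro a ha
      have h1 := h a ha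
      simp only [Bool.and_eq_true] at h1
      have h2 := h1.2.2.1
      have hb : (((20000 - p.ul - p.uh) / 2 : ℤ) : ℝ) / 10000 ≤ m := by
        have h6 : 2 * ((20000 - p.ul - p.uh) / 2) ≤ (20000 - p.ul - p.uh : ℤ) := by omega
        have h7 : ((2 * ((20000 - p.ul - p.uh) / 2) : ℤ) : ℝ) ≤ ((20000 - p.ul - p.uh : ℤ) : ℝ) := by
          exact_mod_cast h6
        push_cast at h7 ⊢
        linarith only [hu1, hc, h7]
      have h3 := NumIs.pos_of_chk (NumIs.chk3 h2 (by norm_num) (x := v) (y := m) (z := tm)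
        (by push_cast; exact hv0) (by push_cast; exact hv1) (by push_cast at hb ⊢; exact hb)
        (by push_cast; linarith only [hm1]) (by push_cast; exact ht.tm0) (by push_cast; exact ht.tm1))
      rw [val_eU] at h3
      have e1 : (sub (add (T p.uh) (var 1)) (q 1 1)).val [v, m, tm] =
          (p.uh : ℝ) / 10000 + m - 1 := by
        simp [E.val, val_T]
      have e2 : (sub (var 1) (var 0)).val [v, m, tm] = m - v := rfl
      rw [e1, e2] at h3
      exact h3
  rcases lt_or_ge 2 (u + (p.ul : ℝ) / 10000 + 2 * m) with hc | hc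
  · exact key4 hc
  -- the checks at `u = ul`
  have e2 : (sub (var 1) (var 0)).val [v, m, tm] = m - v := rfl
  have e3 : (add (T p.ul) (var 1)).val [v, m, tm] = (p.ul : ℝ) / 10000 + m := by
    simp [E.val, val_T]
  have hsin : Real.sin (Real.pi * (u + m)) ^ 2 ≤
      Real.sin (Real.pi * ((p.ul : ℝ) / 10000 + m)) ^ 2 :=
    sin_le_one (by linarith only [b3, hmb]) (by linarith only [hu0]) (by linarith only [hc])
  rcases le_or_gt ((p.e : ℝ) / 10000 - (p.be : ℝ) / 10 * ((p.ul : ℝ) / 10000) +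
      (p.ga : ℝ) / 10 * v) m with h1 | h1
  · refine neg_of hk ht hy0 hy1 hsin hM ?_
    intro a ha
    have h2 := h a ha
    simp only [Bool.and_eq_true] at h2
    obtain ⟨e, he, h3⟩ := NumIs.chk3 h2.1 (by norm_num) (x := v) (y := m) (z := tm)
      (by push_cast; exact hv0) (by push_cast; exact hv1) (by push_cast; exact hmb)
      (by push_cast; linarith only [hm1]) (by push_cast; exact ht.tm0) (by push_cast; exact ht.tm1)
    simp only [List.mem_cons, List.not_mem_nil, or_false] at he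
    rcases he with he | he
    · rw [he, val_eU, e3, e2] at h3
      exact h3
    · exfalso
      rw [he] at h3
      have e4 : (sub (lin p (T p.ul) (var 0)) (var 1)).val [v, m, tm] =
          (p.e : ℝ) / 10000 - (p.be : ℝ) / 10 * ((p.ul : ℝ) / 10000) + (p.ga : ℝ) / 10 * v - m := by
        show (lin p (T p.ul) (var 0)).val _ - m = _
        rw [val_lin, val_T]
        rfl
      rw [e4] at h3
      linarith only [h1, h3]
  · rcases le_or_gt ((p.m1 : ℝ) / 10000) m with h5 | h5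
    · have hff : f = false := by
        rcases hfe : f with _ | _
        · rfl
        · exfalso
          have := hf hfe
          have h6 : (10 : ℝ) * p.e - p.be * p.ul + p.ga * p.vh ≤ 10 * p.m1 := by exact_mod_cast this
          linarith only [hvg, h1, h5, h6]
      refine neg_of hk ht hy0 hy1 hsin hM ?_
      intro a ha
      have h2 := h a ha
      simp only [Bool.and_eq_true, Bool.or_eq_true, hff, Bool.false_eq_true, false_or] at h2
      have h3 := NumIs.pos_of_chk (NumIs.chk3 h2.2.2.2 (by norm_num) (x := v) (y := m) (z := tm)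
        (by push_cast; exact hv0) (by push_cast; exact hv1) (by push_cast; exact h5)
        (by push_cast; linarith only [hm1]) (by push_cast; exact ht.tm0) (by push_cast; exact ht.tm1))
      rw [val_eU, e3, e2] at h3
      exact h3
    · -- on the curve
      have h6 : (p.e : ℝ) / 10000 - (p.be : ℝ) / 10 * u + (p.ga : ℝ) / 10 * v ≤ m := by
        rcases min_le_iff.1 hmU with h7 | h7
        · exact absurd h7 (not_le.2 h5)
        · exact h7
      have hbe : 0 < (p.be : ℝ) / 10 := by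
        rcases a3.lt_or_eq with h7 | h7
        · positivity
        · exfalso
          rw [← h7] at h6 h1
          linarith only [h1, h6]
      set u' := ((p.e : ℝ) / 10000 + (p.ga : ℝ) / 10 * v - m) / ((p.be : ℝ) / 10) with hu'
      have e5 : (p.be : ℝ) / 10 * u' = (p.e : ℝ) / 10000 + (p.ga : ℝ) / 10 * v - m := by
        rw [hu', mul_comm]
        exact div_mul_cancel₀ _ hbe.ne'
      have c1 : (p.ul : ℝ) / 10000 ≤ u' := by
        rw [hu', le_div_iff₀ hbe]; linarith only [h1]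
      have c2 : u' ≤ u := by
        rw [hu', div_le_iff₀ hbe]; linarith only [h6]
      have c3 : u + u' + 2 * m ≤ 2 := by
        have hw : m = (p.e : ℝ) / 10000 + (p.ga : ℝ) / 10 * v - (p.be : ℝ) / 10 * u' := by linarith only [e5]
        rcases le_total (p.be : ℝ) 5 with h7 | h7
        · have h8 : (1 - 2 * ((p.be : ℝ) / 10)) * u' ≤
              (1 - 2 * ((p.be : ℝ) / 10)) * ((p.uh : ℝ) / 10000) :=
            mul_le_mul_of_nonneg_left (by linarith only [hu1, c2]) (by linarith only [h7])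
          nlinarith only [hu1, b7, hvg, e5, h8]
        · have h8 : (2 * ((p.be : ℝ) / 10) - 1) * ((p.ul : ℝ) / 10000) ≤
              (2 * ((p.be : ℝ) / 10) - 1) * u' :=
            mul_le_mul_of_nonneg_left (by linarith only [c1]) (by linarith only [h7])
          nlinarith only [hu1, b6, hvg, e5, h8]
      refine neg_of (x := u' + m) hk ht hy0 hy1 (sin_le_one (by linarith only [b3, hmb, c1]) (by linarith only [c2])
        (by linarith only [c3])) hM ?_
      intro a ha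
      have h2 := h a ha
      simp only [Bool.and_eq_true] at h2
      obtain ⟨e, he, h3⟩ := NumIs.chk3 h2.2.1 (by norm_num) (x := u') (y := v) (z := tm)
        (by push_cast; exact c1) (by push_cast; linarith only [hu1, c2]) (by push_cast; exact hv0)
        (by push_cast; exact hv1) (by push_cast; exact ht.tm0) (by push_cast; exact ht.tm1)
      have e6 : (lin p (var 0) (var 1)).val [u', v, tm] = m := by
        rw [val_lin]
        show (p.e : ℝ) / 10000 - (p.be : ℝ) / 10 * u' + (p.ga : ℝ) / 10 * v = m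
        linarith only [e5]
      simp only [List.mem_cons, List.not_mem_nil, or_false] at he
      rcases he with he | he
      · rw [he, val_eU] at h3
        have e7 : (add (var 0) (lin p (var 0) (var 1))).val [u', v, tm] = u' + m := by
          show u' + (lin p (var 0) (var 1)).val _ = _
          rw [e6]
        have e8 : (sub (lin p (var 0) (var 1)) (var 1)).val [u', v, tm] = m - v := by
          show (lin p (var 0) (var 1)).val _ - v = _
          rw [e6]
        rw [e6, e7, e8] at h3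
        exact h3
      · exfalso
        rw [he] at h3
        have e9 : (sub (lin p (var 0) (var 1)) (T p.m1)).val [u', v, tm] =
            m - (p.m1 : ℝ) / 10000 := by
          show (lin p (var 0) (var 1)).val _ - (T p.m1).val _ = _
          rw [e6, val_T]
        rw [e9] at h3
        linarith only [h5, h3]
end M3

end Pool.Agent.Work.MP_b30479_gtS.G2

end

section

/-!
# Interior 3-runs, level part: the level data of a pair of classes
-/

namespace Pool.Agent.Work.MP_b30479_gtS.G2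

open Set

namespace M3

open NumIs (MM PP)

/-- the data `p` are covered by the data `s` of the determinants -/
structure Cov (p : Prm) (s : SPrm) : Prop where
  ul : s.ul ≤ p.ul
  uh : p.uh ≤ s.uh
  vl : s.vl ≤ p.vl
  vh : p.vh ≤ s.vh
  l1 : 10 * s.l0 + s.lm * p.vl ≤ 10 * p.l0 + p.lm * p.vl
  l2 : 10 * s.l0 + s.lm * p.vh ≤ 10 * p.l0 + p.lm * p.vh
  m1 : p.m1 ≤ s.m1
  e : p.e ≤ s.e
  be : p.be = s.be
  ga : p.ga = s.ga
  p0 : -s.aP ≤ p.tul + p.tml
  p1 : p.tuh + p.tmh ≤ s.aP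
  r0 : -s.aR ≤ p.tml
  r1 : p.tmh ≤ s.aR
  s0 : -s.aS ≤ p.tvl
  s1 : p.tvh ≤ s.aS
  u0 : -s.aU ≤ p.tul
  u1 : p.tuh ≤ s.aU
  c0 : -s.aC ≤ p.tcl
  c1 : p.tch ≤ s.aC
  /-- the lower end is below the upper end -/
  lu0 : 10 * p.l0 + p.lm * p.vl + p.be * p.uh < 10 * p.e + p.ga * p.vl
  lu1 : 10 * p.l0 + p.lm * p.vh + p.be * p.uh < 10 * p.e + p.ga * p.vh
  lu2 : 10 * p.l0 + p.lm * p.vh < 10 * p.m1
  m0 : 10 * p.ml ≤ 10 * p.l0 + p.lm * p.vl

variable {p : Prm} {s : SPrm} {tu tv tm u v m : ℝ}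

/-- an affine function which is nonnegative at the ends -/
theorem aff_nonneg {α β a b x : ℝ} (h0 : 0 ≤ α + β * a) (h1 : 0 ≤ α + β * b) (ha : a ≤ x)
    (hb : x ≤ b) : 0 ≤ α + β * x := by
  rcases le_total 0 β with h | h
  · have := mul_le_mul_of_nonneg_left ha h
    linarith only [h0, this]
  · have := mul_le_mul_of_nonpos_left hb h
    linarith only [h1, this]

theorem Cov.hts (hc : Cov p s) (ht : Hts p tu tv tm) : HtS s tu tv tm := by
  have a1 : -(s.aP : ℝ) ≤ p.tul + p.tml := by exact_mod_cast hc.p0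
  have a2 : (p.tuh : ℝ) + p.tmh ≤ s.aP := by exact_mod_cast hc.p1
  have a3 : -(s.aR : ℝ) ≤ p.tml := by exact_mod_cast hc.r0
  have a4 : (p.tmh : ℝ) ≤ s.aR := by exact_mod_cast hc.r1
  have a5 : -(s.aS : ℝ) ≤ p.tvl := by exact_mod_cast hc.s0
  have a6 : (p.tvh : ℝ) ≤ s.aS := by exact_mod_cast hc.s1
  have a7 : -(s.aU : ℝ) ≤ p.tul := by exact_mod_cast hc.u0
  have a8 : (p.tuh : ℝ) ≤ s.aU := by exact_mod_cast hc.u1
  have a9 : -(s.aC : ℝ) ≤ p.tcl := by exact_mod_cast hc.c0
  have b1 : (p.tch : ℝ) ≤ s.aC := by exact_mod_cast hc.c1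
  obtain ⟨c1, c2, c3, c4, c5, c6, c7, c8⟩ := ht
  refine ⟨abs_le.2 ⟨?_, ?_⟩, abs_le.2 ⟨?_, ?_⟩, abs_le.2 ⟨?_, ?_⟩, abs_le.2 ⟨?_, ?_⟩,
    abs_le.2 ⟨?_, ?_⟩⟩ <;> linarith only [a1, c1, c5, a2, c2, c6, a3, a4, a5, c3, a6, c4, a7, a8, a9, c7, b1, c8]

theorem Cov.ins (hc : Cov p s)
    (hu0 : (p.ul : ℝ) / 10000 ≤ u) (hu1 : u ≤ (p.uh : ℝ) / 10000)
    (hv0 : (p.vl : ℝ) / 10000 ≤ v) (hv1 : v ≤ (p.vh : ℝ) / 10000)
    (hm0 : mL p v ≤ m) (hm1 : m ≤ mU p u v) : InS s u v m := by
  have a1 : (s.ul : ℝ) ≤ p.ul := by exact_mod_cast hc.ul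
  have a2 : (p.uh : ℝ) ≤ s.uh := by exact_mod_cast hc.uh
  have a3 : (s.vl : ℝ) ≤ p.vl := by exact_mod_cast hc.vl
  have a4 : (p.vh : ℝ) ≤ s.vh := by exact_mod_cast hc.vh
  have a5 : (10 : ℝ) * s.l0 + s.lm * p.vl ≤ 10 * p.l0 + p.lm * p.vl := by exact_mod_cast hc.l1
  have a6 : (10 : ℝ) * s.l0 + s.lm * p.vh ≤ 10 * p.l0 + p.lm * p.vh := by exact_mod_cast hc.l2
  have a7 : (p.m1 : ℝ) ≤ s.m1 := by exact_mod_cast hc.m1
  have a8 : (p.e : ℝ) ≤ s.e := by exact_mod_cast hc.e
  have a9 : (p.be : ℝ) = s.be := by exact_mod_cast hc.be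
  have b1 : (p.ga : ℝ) = s.ga := by exact_mod_cast hc.ga
  have b2 := aff_nonneg (α := ((p.l0 : ℝ) - s.l0) / 10000) (β := ((p.lm : ℝ) - s.lm) / 10)
    (a := (p.vl : ℝ) / 10000) (b := (p.vh : ℝ) / 10000) (x := v) (by linarith only [a5]) (by linarith only [a6])
    hv0 hv1
  unfold mL at hm0
  have b3 := hm1.trans (min_le_left _ _)
  have b4 := hm1.trans (min_le_right _ _)
  rw [a9, b1] at b4
  exact ⟨by linarith only [hu0, a1], by linarith only [hu1, a2], by linarith only [hv0, a3], by linarith only [hv1, a4], by linarith only [hm0, b2], by linarith only [a7, b3],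
    by linarith only [a8, b4]⟩

/-- **The level data of a pair of classes.** -/
theorem lvl {fl fh f g : Bool} (hk : Ok p) (hkU : OkU p) (hks : OkS s) (hc : Cov p s)
    (hL : okL p fl fh = true) (hU : okU p f = true)
    (hf : f = true → 10 * p.e - p.be * p.ul + p.ga * p.vh ≤ 10 * p.m1)
    (hS : okS s g = true) (ht : Hts p tu tv tm) :
    Lvl tu tv tm ((p.ul : ℝ) / 10000) ((p.uh : ℝ) / 10000) ((p.vl : ℝ) / 10000)
      ((p.vh : ℝ) / 10000) (fun _ v => mL p v) (mU p) := by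
  have a1 : (0 : ℝ) < p.ul := by exact_mod_cast hk.ul
  have a2 : (p.uh : ℝ) ≤ 5000 := by exact_mod_cast hkU.uu'
  have a3 : (500 : ℝ) ≤ p.vl := by exact_mod_cast hk.vl
  have a4 : (p.vh : ℝ) ≤ 5000 := by exact_mod_cast hk.vh'
  have a5 : (10 : ℝ) * p.vh < 10 * p.l0 + p.lm * p.vh := by exact_mod_cast hk.l3
  have a6 : (p.lm : ℝ) ≤ 10 := by exact_mod_cast hk.lm'
  have a7 : (10 : ℝ) * p.l0 + p.lm * p.vl + p.be * p.uh < 10 * p.e + p.ga * p.vl := by
    exact_mod_cast hc.lu0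
  have a8 : (10 : ℝ) * p.l0 + p.lm * p.vh + p.be * p.uh < 10 * p.e + p.ga * p.vh := by
    exact_mod_cast hc.lu1
  have a9 : (10 : ℝ) * p.l0 + p.lm * p.vh < 10 * p.m1 := by exact_mod_cast hc.lu2
  have b1 : (10 : ℝ) * p.ml ≤ 10 * p.l0 + p.lm * p.vl := by exact_mod_cast hc.m0
  have b2 : (0 : ℝ) ≤ p.be := by exact_mod_cast hkU.be
  have b3 : (0 : ℝ) < p.lm := by exact_mod_cast hk.lm
  have b4 : (p.m1 : ℝ) ≤ 7500 := by exact_mod_cast hkU.m1
  have mono : ∀ u ∈ Icc ((p.ul : ℝ) / 10000) ((p.uh : ℝ) / 10000),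
      ∀ v ∈ Icc ((p.vl : ℝ) / 10000) ((p.vh : ℝ) / 10000),
      v < mL p v ∧ mL p v < mU p u v ∧ u + mU p u v < 1 ∧ (p.ml : ℝ) / 10000 ≤ mL p v ∧
        mU p u v ≤ 3 / 4 := by
    intro u hu v hv
    have d1 := mul_le_mul_of_nonneg_left hv.2 (by linarith only [a6] : (0 : ℝ) ≤ 1 - (p.lm : ℝ) / 10)
    have d2 := mul_le_mul_of_nonneg_left hu.2 (by linarith only [b2] : (0 : ℝ) ≤ (p.be : ℝ) / 10)
    have d3 := mul_le_mul_of_nonneg_left hv.1 (by linarith only [b3] : (0 : ℝ) ≤ (p.lm : ℝ) / 10)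
    have d4 := mul_le_mul_of_nonneg_left hv.2 (by linarith only [b3] : (0 : ℝ) ≤ (p.lm : ℝ) / 10)
    have e1 : v < mL p v := by unfold mL; linarith only [a5, d1]
    have e2 : mL p v < mU p u v := by
      unfold mL mU
      refine lt_min (by linarith only [a9, d4]) ?_
      rcases le_total (p.lm : ℝ) p.ga with h | h
      · have := mul_le_mul_of_nonneg_left hv.1 (by linarith only [h] : (0 : ℝ) ≤ ((p.ga : ℝ) - p.lm) / 10)
        linarith only [a7, d2, this]
      · have := mul_le_mul_of_nonneg_left hv.2 (by linarith only [h] : (0 : ℝ) ≤ ((p.lm : ℝ) - p.ga) / 10)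
        linarith only [a8, d2, this]
    have e3 := (hc.ins hu.1 hu.2 hv.1 hv.2 e2.le le_rfl).facts hks
    exact ⟨e1, e2, e3.2.2.2.2.2.2.1, by unfold mL; linarith only [b1, d3],
      (min_le_left _ _).trans (by linarith only [b4])⟩
  have cc : ∀ z : ℂ, ∀ x t : ℝ, z = cx x t → CC z = Real.pi * PP x t := by
    intro z x t hz
    rw [hz, Num.CC_PP, cx_re, cx_im]
  have hpi := Real.pi_pos
  refine ⟨by positivity, by linarith only [a2], by linarith only [a3], by linarith only [a4], ?_, ?_, ?_, ?_, ?_, ?_, ?_, ?_⟩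
  · unfold mL
    exact continuous_const.add (continuous_const.mul continuous_snd)
  · unfold mU
    exact continuous_const.min ((continuous_const.sub (continuous_const.mul continuous_fst)).add
      (continuous_const.mul continuous_snd))
  · intro u hu v hv
    obtain ⟨e1, e2, e3, -, -⟩ := mono u hu v hv
    exact ⟨e1, e2, e3⟩
  · intro u hu v hv
    obtain ⟨e1, e2, e3, e4, e5⟩ := mono u hu v hv
    exact Phi_pos hk hL ht hu.1 hu.2 hv.1 hv.2 e4 le_rfl
      (MM_pos' (by linarith only [e1]) (by linarith only [a3, e1, e2, e5, hv, hv.1, hu.1, div_pos a1 (by norm_num : (0 : ℝ) < 10000)]))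
  · intro u hu v hv
    obtain ⟨e1, e2, e3, e4, e5⟩ := mono u hu v hv
    exact Phi_neg hkU hU hf ht hu.1 hu.2 hv.1 hv.2 le_rfl e5
      (MM_pos' (by linarith only [a1, a3, e1, e2, e5, hv, hu, hv.1, hu.1, div_pos a1 (by norm_num : (0 : ℝ) < 10000)]) e3)
  · intro u hu v hv m hm hz
    obtain ⟨h1, -, -⟩ := dets hks hS (hc.ins hu.1 hu.2 hv.1 hv.2 hm.1 hm.2) (hc.hts ht)
    rw [cc _ _ _ rfl, cc _ _ _ rfl, cc _ _ _ rfl]
    have := mul_pos hpi h1
    linarith only [this]
  · intro u hu v hv m hm hz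
    obtain ⟨-, h1, -⟩ := dets hks hS (hc.ins hu.1 hu.2 hv.1 hv.2 hm.1 hm.2) (hc.hts ht)
    rw [cc _ _ _ rfl, cc _ _ _ rfl, cc _ _ _ rfl, cc _ _ _ rfl]
    have h2 : |Real.pi * PP (u + m) (tu + tm) * (Real.pi * PP (m - v) (tm - tv))| =
        Real.pi ^ 2 * |PP (u + m) (tu + tm) * PP (m - v) (tm - tv)| := by
      rw [show Real.pi * PP (u + m) (tu + tm) * (Real.pi * PP (m - v) (tm - tv)) =
        Real.pi ^ 2 * (PP (u + m) (tu + tm) * PP (m - v) (tm - tv)) by ring, abs_mul,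
        abs_of_pos (pow_pos hpi 2)]
    rw [h2]
    refine (mul_pos (pow_pos hpi 2) h1).trans_eq ?_
    ring
  · intro u hu v hv m hm hz
    obtain ⟨-, -, h1⟩ := dets hks hS (hc.ins hu.1 hu.2 hv.1 hv.2 hm.1 hm.2) (hc.hts ht)
    rw [cc _ _ _ rfl, cc _ _ _ rfl, cc _ _ _ rfl, cc _ _ _ rfl]
    have h2 : |Real.pi * PP (u + m) (tu + tm) * (Real.pi * PP (m - v) (tm - tv))| =
        Real.pi ^ 2 * |PP (u + m) (tu + tm) * PP (m - v) (tm - tv)| := by
      rw [show Real.pi * PP (u + m) (tu + tm) * (Real.pi * PP (m - v) (tm - tv)) =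
        Real.pi ^ 2 * (PP (u + m) (tu + tm) * PP (m - v) (tm - tv)) by ring, abs_mul,
        abs_of_pos (pow_pos hpi 2)]
    rw [h2]
    refine (mul_pos (pow_pos hpi 2) h1).trans_eq ?_
    ring

/-- **Location of the zeros of the inner derivative.** -/
theorem zero_mem {fl fh f : Bool} (hk : Ok p) (hkU : OkU p)
    (hL : okL p fl fh = true) (hU : okU p f = true)
    (hf : f = true → 10 * p.e - p.be * p.ul + p.ga * p.vh ≤ 10 * p.m1) (ht : Hts p tu tv tm)
    (hu0 : (p.ul : ℝ) / 10000 ≤ u) (hu1 : u ≤ (p.uh : ℝ) / 10000)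
    (hv0 : (p.vl : ℝ) / 10000 ≤ v) (hv1 : v ≤ (p.vh : ℝ) / 10000)
    (hm0 : (p.ml : ℝ) / 10000 ≤ m) (hm1 : m ≤ 3 / 4) (hM1 : 0 < MM (m - v) (tm - tv))
    (hM2 : 0 < MM (u + m) (tu + tm)) (hz : Phi tu tv tm u v m = 0) :
    m ∈ Icc (mL p v) (mU p u v) := by
  constructor
  · by_contra h
    exact (Phi_pos hk hL ht hu0 hu1 hv0 hv1 hm0 (not_le.1 h).le hM1).ne' hz
  · by_contra h
    exact (Phi_neg hkU hU hf ht hu0 hu1 hv0 hv1 (not_le.1 h).le hm1 hM2).ne hz

end M3

end Pool.Agent.Work.MP_b30479_gtS.G2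

end

section

/-!
# Interior 3-runs, level part: checks in pieces

The certificates of the determinants need much memory in one piece; here they are put together
from several kernel computations.
-/

namespace Pool.Agent.Work.MP_b30479_gtS.G2

namespace M3

open NumIs (E V chk tryE mkEnv best grad1 setL setR)
open NumIs.E

/-- the left half of a box -/
def lft (es : List E) (vs : List V) : List V := setL (best vs (grad1 (mkEnv 0 vs) es) 0 0 0) vs
/-- the right half of a box -/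
def rgt (es : List E) (vs : List V) : List V := setR (best vs (grad1 (mkEnv 0 vs) es) 0 0 0) vs

theorem chk_node {es : List E} {n : ℕ} {vs : List V} (h1 : chk es n (lft es vs) = true)
    (h2 : chk es n (rgt es vs) = true) : chk es (n + 1) vs = true := by
  unfold chk
  unfold lft at h1
  unfold rgt at h2
  rw [h1, h2]
  cases tryE (mkEnv 0 vs) es <;> rfl

/-- the expressions of `okF` -/
def esF (p : SPrm) (h k s : ℤ) : List E :=
  eF p h k s (var 0) (var 1) (var 2) :: aX s (add (var 0) (var 2)) :: aM k (var 2) :: a3 p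
/-- the expressions of `okG` -/
def esG (p : SPrm) (h k s : ℤ) : List E :=
  eG p h k s (var 0) (var 1) (var 2) :: aX s (add (var 0) (var 2)) :: aM k (var 2) :: a3 p

/-- the checks in two variables -/
def okS2 (p : SPrm) (h : ℤ) (g : Bool) : Bool :=
  okR p h 0 && okR p h p.hR && (okE p h 1 && okE p h (-1)) && okG0 p h p.hR && (!g || okG0 p h 0)
/-- the checks of constants -/
def okS0 (p : SPrm) : Bool :=
  okH p.aP p.hP && (okH p.aR p.hR && (okH p.aS p.hS && (okH p.aU p.hU && okH p.aC p.hC)))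

theorem okS_intro {p : SPrm} {g : Bool} (c0 : okS0 p = true) (c1 : okS2 p 0 g = true)
    (c2 : okS2 p p.hP g = true)
    (f1 : okF p 0 0 1 = true) (f2 : okF p 0 0 (-1) = true)
    (f3 : okF p 0 p.hR 1 = true) (f4 : okF p 0 p.hR (-1) = true)
    (f5 : okF p p.hP 0 1 = true) (f6 : okF p p.hP 0 (-1) = true)
    (f7 : okF p p.hP p.hR 1 = true) (f8 : okF p p.hP p.hR (-1) = true)
    (g1 : g = false → okG p 0 0 1 = true) (g2 : g = false → okG p 0 0 (-1) = true)
    (g3 : g = false → okG p p.hP 0 1 = true) (g4 : g = false → okG p p.hP 0 (-1) = true) :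
    okS p g = true := by
  unfold okS2 at c1 c2
  unfold okS0 at c0
  simp only [Bool.and_eq_true] at c0 c1 c2
  obtain ⟨⟨⟨⟨r1, r2⟩, e1, e2⟩, q1⟩, w1⟩ := c1
  obtain ⟨⟨⟨⟨r3, r4⟩, e3, e4⟩, q2⟩, w2⟩ := c2
  obtain ⟨k1, k2, k3, k4, k5⟩ := c0
  unfold okS
  cases g with
  | false =>
    simp only [List.all_cons, List.all_nil, r1, r2, r3, r4, e1, e2, e3, e4, q1, q2, f1, f2, f3, f4,
      f5, f6, f7, f8, g1 rfl, g2 rfl, g3 rfl, g4 rfl, k1, k2, k3, k4, k5, Bool.and_true]
    rfl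
  | true =>
    simp only [Bool.not_true, Bool.false_or] at w1 w2
    simp only [List.all_cons, List.all_nil, r1, r2, r3, r4, e1, e2, e3, e4, q1, q2, f1, f2, f3, f4,
      f5, f6, f7, f8, w1, w2, k1, k2, k3, k4, k5, Bool.and_true]
    rfl

end M3

end Pool.Agent.Work.MP_b30479_gtS.G2

end
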