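import Pool.Agent.Work.MP_b30479_gt.TBS.G2.RMon
import Pool.Agent.Work.MP_b30479_gt.TBS.G2.TRc

/-!
# Hinges on the mode paths next to rings

`fR_mode`: `fR (x ± iY) (σ + iη) ≤ fR (x + iY) 0 + π η` for `x ∈ [0, 1/2]`, all heights.
`fR_zero_le`: `fR (x + iY) 0 ≤ π Y + 2 min (x, 1/2 - x) / (π Y)`.
-/

namespace Pool.Agent.Work.MP_b30479_gtS.G2

open Finset VOL Filter Topology

/-- `Tr` decreases with the height for `x ∈ [0, 1/2]` -/
theorem Tr_anti {x s s' : ℝ} (h0 : 0 ≤ x) (h1 : x ≤ 1 / 2) (hs : 0 < s) (hss : s ≤ s') :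
    DT.Tr s' x ≤ DT.Tr s x := by
  have hpi := Real.pi_pos
  have hm : AntitoneOn (fun s => DT.Tr s x) (Set.Ici s) := by
    apply antitoneOn_of_deriv_nonpos (convex_Ici s)
    · intro r hr
      exact (DT.hasDerivAt_Tr_left (hs.trans_le hr)).continuousAt.continuousWithinAt
    · intro r hr
      rw [interior_Ici] at hr
      exact (DT.hasDerivAt_Tr_left (hs.trans hr)).differentiableAt.differentiableWithinAt
    · intro r hr
      rw [interior_Ici] at hr
      rw [(DT.hasDerivAt_Tr_left (hs.trans hr)).deriv]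
      have h2 : 0 ≤ DT.rr r x := by
        unfold DT.rr
        apply div_nonneg (sin_two_pi_nonneg h0 h1)
        have := DT.LrDer.cosh_gt_cos (v := x) (hs.trans hr)
        linarith only [this]
      nlinarith only [hpi, h2]
  exact hm (Set.mem_Ici.mpr le_rfl) hss hss

/-- `s ↦ Lr s x` is concave for `x ∈ [0, 1/2]` -/
theorem Lr_conc {x s s' d : ℝ} (h0 : 0 ≤ x) (h1 : x ≤ 1 / 2) (hs : 0 ≤ s) (hss : s ≤ s')
    (hd : 0 ≤ d) : DT.Lr (s' + d) x - DT.Lr s' x ≤ DT.Lr (s + d) x - DT.Lr s x := by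
  have hc : Continuous fun s => DT.Lr (s + d) x - DT.Lr s x :=
    ((DT.LrCont.continuous_Lr_left x).comp (continuous_id.add continuous_const)).sub
      (DT.LrCont.continuous_Lr_left x)
  have hm : AntitoneOn (fun s => DT.Lr (s + d) x - DT.Lr s x) (Set.Ici 0) := by
    apply antitoneOn_of_deriv_nonpos (convex_Ici 0) hc.continuousOn
    · intro r hr
      rw [interior_Ici] at hr
      have hr : 0 < r := hr
      have e1 := (DT.hasDerivAt_Lr_left (x := x) (show 0 < r + d by linarith only [hd, hr])).comp_add_const r d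
      exact (e1.sub (DT.hasDerivAt_Lr_left hr)).differentiableAt.differentiableWithinAt
    · intro r hr
      rw [interior_Ici] at hr
      have hr : 0 < r := hr
      have e1 := (DT.hasDerivAt_Lr_left (x := x) (show 0 < r + d by linarith only [hd, hr])).comp_add_const r d
      have e2 := (e1.sub (DT.hasDerivAt_Lr_left (x := x) hr)).deriv
      have e3 : deriv (fun s => DT.Lr (s + d) x - DT.Lr s x) r = DT.Tr (r + d) x - DT.Tr r x := e2
      rw [e3]
      linarith only [h0, h1, hr, hd, Tr_anti h0 h1 hr (show r ≤ r + d by linarith only [hd])]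
  exact hm (Set.mem_Ici.mpr hs) (Set.mem_Ici.mpr (hs.trans hss)) hss

/-- values of `fR` by `Lr`, both heights nonnegative -/
theorem fR_Lr {x Y σ η : ℝ} (hY : 0 ≤ Y) (hη : 0 ≤ η) : fR ⟨x, Y⟩ ⟨σ, η⟩ =
    DT.Lr (Y + η) (x + 1 / 2 + σ) + DT.Lr |Y - η| (x + 1 / 2 - σ) -
      Real.pi * (Y + η + |Y - η|) / 2 - 2 * UU ⟨x, Y⟩ := by
  rw [fR_uu]
  simp only
  rw [uu_Lr, uu_Lr, abs_of_nonneg (show 0 ≤ Y + η by linarith only [hY, hη]), NumUs.UU_uu]
  ring

private theorem Lr_core {x Y σ η : ℝ} (h0 : 0 ≤ x) (h1 : x ≤ 1 / 2) (hη : 0 ≤ η) (hηY : η ≤ Y)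
    (_hσ : 0 ≤ σ) (hσ' : σ ≤ 1 / 2) :
    DT.Lr (Y + η) (x + 1 / 2 + σ) - DT.Lr Y (x + 1 / 2 + σ) +
      (DT.Lr (Y - η) (x + 1 / 2 - σ) - DT.Lr Y (x + 1 / 2 - σ)) ≤ Real.pi * η := by
  have hY : 0 ≤ Y := by linarith only [hη, hηY]
  rcases le_total (x + 1 / 2 - σ) (1 / 2) with hb | hb
  · have a1 := Lr_diff_mono (a := x + 1 / 2 - σ + 1) (b := x + 1 / 2 + σ) (by linarith only [hσ']) hY
      (show Y ≤ Y + η by linarith only [hη])
    rw [DT.Lr_add_one hY, DT.Lr_add_one (show 0 ≤ Y + η by linarith only [hη, hηY])] at a1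
    have a2 := Lr_conc (x := x + 1 / 2 - σ) (s := Y - η) (s' := Y) (d := η) (by linarith only [h0, hσ']) hb
      (by linarith only [hηY]) (by linarith only [hη]) hη
    rw [show Y - η + η = Y by ring] at a2
    linarith only [a1, a2]
  · have a1 := Lr_diff_mono (a := 1 / 2 + 1) (b := x + 1 / 2 + σ) (by linarith only [h1, hσ']) hY
      (show Y ≤ Y + η by linarith only [hη])
    rw [DT.Lr_add_one hY, DT.Lr_add_one (show 0 ≤ Y + η by linarith only [hη, hηY]), DT.Lr_half hY,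
      DT.Lr_half (show 0 ≤ Y + η by linarith only [hη, hηY])] at a1
    have a2 := Lr_diff_mono (a := x + 1 / 2 - σ) (b := 1 / 2) hb (show 0 ≤ Y - η by linarith only [hηY])
      (show Y - η ≤ Y by linarith only [hη])
    rw [DT.Lr_half hY, DT.Lr_half (show 0 ≤ Y - η by linarith only [hηY])] at a2
    linarith only [a1, a2]

/-- lowering the ring variable to the real axis costs at most `π η` -/
theorem fR_le_real {x Y σ η : ℝ} (h0 : 0 ≤ x) (h1 : x ≤ 1 / 2) (hY : 0 ≤ Y) (hη : 0 ≤ η)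
    (hσ : 0 ≤ σ) (hσ' : σ ≤ 1 / 2) : fR ⟨x, Y⟩ ⟨σ, η⟩ ≤ fR ⟨x, Y⟩ ⟨σ, 0⟩ + Real.pi * η := by
  rw [fR_Lr hY hη, fR_Lr hY le_rfl, add_zero, sub_zero, abs_of_nonneg hY]
  rcases le_total η Y with h | h
  · have a1 := Lr_core h0 h1 hη h hσ hσ'
    rw [abs_of_nonneg (show 0 ≤ Y - η by linarith only [h])]
    linarith only [a1]
  · have a1 := Lr_core h0 h1 hY le_rfl hσ hσ'
    rw [sub_self] at a1
    rw [abs_of_nonpos (show Y - η ≤ 0 by linarith only [h]), neg_sub]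
    have a2 := Lr_diff_mono (a := σ + 1) (b := x + 1 / 2 + σ) (by linarith only [h1])
      (show 0 ≤ Y + Y by linarith only [hY]) (show Y + Y ≤ Y + η by linarith only [h])
    rw [DT.Lr_add_one (show 0 ≤ Y + Y by linarith only [hY]), DT.Lr_add_one (show 0 ≤ Y + η by linarith only [hY, hη])] at a2
    have a3 := Lr_diff_mono (a := 1 - σ) (b := x + 1 / 2 - σ) (by linarith only [h1])
      (le_refl (0 : ℝ)) (show 0 ≤ η - Y by linarith only [h])
    rw [DT.Lr_one_sub le_rfl, DT.Lr_one_sub (show 0 ≤ η - Y by linarith only [h])] at a3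
    have a4 := Lr_conc (x := σ) (s := 0) (s' := Y + Y) (d := η - Y) hσ hσ' le_rfl (by linarith only [hY])
      (by linarith only [h])
    rw [zero_add, show Y + Y + (η - Y) = Y + η by ring] at a4
    linarith only [a1, a2, a3, a4]

/-- **A hinge of any height next to a ring.** -/
theorem fR_mode {x Y σ η : ℝ} (h0 : 0 ≤ x) (h1 : x ≤ 1 / 2) (hη : 0 ≤ η) (hσ : |σ| ≤ 1 / 2) :
    fR ⟨x, Y⟩ ⟨σ, η⟩ ≤ fR ⟨x, |Y|⟩ 0 + Real.pi * η := by
  have key : ∀ Y σ : ℝ, 0 ≤ Y → |σ| ≤ 1 / 2 → fR ⟨x, Y⟩ ⟨σ, η⟩ ≤ fR ⟨x, Y⟩ 0 + Real.pi * η := by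
    have key1 : ∀ Y σ : ℝ, 0 ≤ Y → 0 ≤ σ → σ ≤ 1 / 2 →
        fR ⟨x, Y⟩ ⟨σ, η⟩ ≤ fR ⟨x, Y⟩ 0 + Real.pi * η := by
      intro Y σ hY hσ hσ'
      have a1 := fR_le_real h0 h1 hY hη hσ hσ'
      have a2 := fR_real_le_zero (w := ⟨x, Y⟩) h0 h1 (s := σ) (by rw [abs_of_nonneg hσ]; exact hσ')
      have e : ((σ : ℝ) : ℂ) = ⟨σ, 0⟩ := by
        apply Complex.ext <;> simp
      rw [e] at a2
      linarith only [a1, a2]
    intro Y σ hY hσ
    rcases le_total 0 σ with h | h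
    · exact key1 Y σ hY h (by rwa [abs_of_nonneg h] at hσ)
    · have a1 := flip_nonneg (x := x) (T := Y) (σ := σ) hY hη h
      rw [fR_mirror] at a1
      exact a1.trans (key1 Y (-σ) hY (by linarith only [h]) (by rwa [abs_of_nonpos h] at hσ))
  rcases le_total 0 Y with h | h
  · rw [abs_of_nonneg h]
    exact key Y σ h hσ
  · have a1 := key (-Y) (-σ) (by linarith only [h]) (by rwa [abs_neg])
    rw [abs_of_nonpos h]
    rw [← fR_mirror, neg_neg] at a1
    exact a1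

/-! ### the value for the real ring variable `0` -/

theorem el_diff_le {Y v : ℝ} (hY : 0 < Y) :
    DT.el Y (v + 1 / 2) - DT.el Y v ≤ 1 / (Real.pi * Y) := by
  have hpi := Real.pi_pos
  have hp : 0 < Real.pi * Y := by positivity
  unfold DT.el
  have e1 : Real.cos (2 * Real.pi * (v + 1 / 2)) = -Real.cos (2 * Real.pi * v) := by
    rw [show 2 * Real.pi * (v + 1 / 2) = 2 * Real.pi * v + Real.pi by ring, Real.cos_add_pi]
  rw [e1]
  set c := Real.cos (2 * Real.pi * v)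
  have hc : c ≤ 1 := Real.cos_le_one _
  have hC : 1 < Real.cosh (2 * Real.pi * Y) := by
    rw [Real.one_lt_cosh]
    positivity
  have hc1 : -1 ≤ c := Real.neg_one_le_cos _
  set C := Real.cosh (2 * Real.pi * Y) with hCdef
  have b1 : Real.log (2 * C - 2 * -c) ≤ Real.log (2 * C + 2) := by
    apply Real.log_le_log <;> linarith only [hc1, hC, hc]
  have b2 : Real.log (2 * C - 2) ≤ Real.log (2 * C - 2 * c) := by
    apply Real.log_le_log <;> linarith only [hC, hc]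
  have hs : 0 < Real.sinh (Real.pi * Y) := Real.sinh_pos_iff.mpr hp
  have hch := Real.cosh_pos (Real.pi * Y)
  have d1 : 2 * C + 2 = (2 * Real.cosh (Real.pi * Y)) ^ 2 := by
    rw [hCdef, show 2 * Real.pi * Y = 2 * (Real.pi * Y) by ring, Real.cosh_two_mul, Real.sinh_sq]
    ring
  have d2 : 2 * C - 2 = (2 * Real.sinh (Real.pi * Y)) ^ 2 := by
    rw [hCdef, show 2 * Real.pi * Y = 2 * (Real.pi * Y) by ring, Real.cosh_two_mul, Real.cosh_sq]
    ring
  rw [d1, Real.log_pow] at b1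
  rw [d2, Real.log_pow] at b2
  push_cast at b1 b2
  have b3 : Real.log (2 * Real.cosh (Real.pi * Y)) - Real.log (2 * Real.sinh (Real.pi * Y)) ≤
      1 / (Real.pi * Y) := by
    rw [← Real.log_div (by positivity) (by positivity)]
    have f1 := Real.log_le_sub_one_of_pos
      (show 0 < 2 * Real.cosh (Real.pi * Y) / (2 * Real.sinh (Real.pi * Y)) by positivity)
    refine f1.trans ?_
    have f2 : 2 * Real.cosh (Real.pi * Y) / (2 * Real.sinh (Real.pi * Y)) - 1 =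
        Real.exp (-(Real.pi * Y)) / Real.sinh (Real.pi * Y) := by
      rw [← Real.cosh_sub_sinh]
      field_simp
    rw [f2, div_le_div_iff₀ hs hp, one_mul]
    have f3 : Real.exp (-(Real.pi * Y)) ≤ 1 := Real.exp_le_one_iff.mpr (by linarith only [hp])
    have f4 : Real.pi * Y ≤ Real.sinh (Real.pi * Y) := Real.self_le_sinh_iff.mpr hp.le
    have f5 := mul_le_mul_of_nonneg_right f3 hp.le
    linarith only [f4, f5]
  linarith only [b1, b2, b3]

theorem Lr_half_le {Y x : ℝ} (hY : 0 < Y) (h0 : 0 ≤ x) (h1 : x ≤ 1 / 2) :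
    DT.Lr Y (x + 1 / 2) - DT.Lr Y x ≤ Real.pi * Y / 2 + x / (Real.pi * Y) := by
  have hd : ∀ r : ℝ, HasDerivAt (fun x => DT.Lr Y (x + 1 / 2) - DT.Lr Y x - x / (Real.pi * Y))
      (DT.el Y (r + 1 / 2) - DT.el Y r - 1 / (Real.pi * Y)) r := by
    intro r
    exact (((DT.hasDerivAt_Lr hY).comp_add_const r (1 / 2)).sub (DT.hasDerivAt_Lr hY)).sub
      ((hasDerivAt_id r).div_const _)
  have hm : AntitoneOn (fun x => DT.Lr Y (x + 1 / 2) - DT.Lr Y x - x / (Real.pi * Y))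
      (Set.Icc 0 (1 / 2)) := by
    apply antitoneOn_of_deriv_nonpos (convex_Icc _ _)
    · exact fun r _ => (hd r).continuousAt.continuousWithinAt
    · exact fun r _ => (hd r).differentiableAt.differentiableWithinAt
    · intro r hr
      rw [interior_Icc] at hr
      rw [(hd r).deriv]
      linarith only [hY, el_diff_le (v := r) hY]
  have h := hm (Set.left_mem_Icc.mpr (by norm_num)) ⟨h0, h1⟩ h0
  simp only [zero_add, zero_div] at h
  rw [DT.Lr_half hY.le, DT.Lr_zero_right] at h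
  linarith only [h]

theorem fR_at_zero {x Y : ℝ} (hY : 0 ≤ Y) :
    fR ⟨x, Y⟩ 0 = 2 * (DT.Lr Y (x + 1 / 2) - DT.Lr Y x) := by
  rw [fR_uu]
  simp only [Complex.zero_re, Complex.zero_im, add_zero, sub_zero]
  rw [uu_Lr, uu_Lr, abs_of_nonneg hY]
  ring

theorem fR_zero_le {x Y : ℝ} (hY : 0 < Y) (h0 : 0 ≤ x) (h1 : x ≤ 1 / 2) :
    fR ⟨x, Y⟩ 0 ≤ Real.pi * Y + 2 * (x / (Real.pi * Y)) := by
  rw [fR_at_zero hY.le]
  linarith only [hY, h0, h1, Lr_half_le hY h0 h1]

theorem fR_zero_le' {x Y : ℝ} (hY : 0 < Y) (h0 : 0 ≤ x) (h1 : x ≤ 1 / 2) :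
    fR ⟨x, Y⟩ 0 ≤ Real.pi * Y + 2 * ((1 / 2 - x) / (Real.pi * Y)) := by
  have h := Lr_half_le hY (x := 1 / 2 - x) (by linarith only [h1]) (by linarith only [h0])
  rw [show 1 / 2 - x + 1 / 2 = 1 - x by ring, DT.Lr_one_sub hY.le] at h
  have e : DT.Lr Y (1 / 2 - x) = Real.pi * Y - DT.Lr Y (x + 1 / 2) := by
    rw [← DT.Lr_one_sub hY.le]
    ring_nf
  rw [e] at h
  rw [fR_at_zero hY.le]
  linarith only [h]

end Pool.Agent.Work.MP_b30479_gtS.G2
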