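import Pool.Agent.Work.MP_b30479_gt.TBS.G2.MDc
import Pool.Agent.Work.MP_b30479_gt.TBS.G2.MDb

/-!
# One ring: modes and tails together

A slot of a ring carries a hinge on its path (`main`), on a mode path (`mode`, with a penalty), or in
the tail (`tail`).  `ring_tail`, `ring_near`, `ring_far`: the new values are larger.
-/

set_option deprecated.oldSectionVars true

namespace Pool.Agent.Work.MP_b30479_gtS.G2

open Finset VOL Filter Topology NumUs

/-- the target of a hinge on a mode path -/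
noncomputable def wM (t : ℝ) : ℂ := ⟨17 / 100, t⟩
/-- the target of the ring variable if it is near `±1/2` and there is a mode -/
noncomputable def zM (ρ : ℝ) : ℂ := ⟨-(11 / 40), 9 / 10 * ρ⟩

section
open NumIs (V)

private def eW : E := E.mul (E.q 2 1) (E.uu (E.q 17 100) (E.var 0))
private def kA : E := E.sub (E.sub (E.add (E.uu (E.add (E.q 67 100) (E.var 1))
  (E.add (E.var 0) (E.var 2))) (E.uu (E.sub (E.q 67 100) (E.var 1)) (E.sub (E.var 0) (E.var 2)))) eW)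
  (E.add (E.mul E.pi (E.var 2)) (E.q 2 1000))
private def et : E := E.mul (E.var 2) (E.sub (E.q 2 1) (E.mul (E.q 4 1) (E.var 1)))
private def kB : E := E.sub (E.sub (E.add (E.uu (E.add (E.q 67 100) (E.var 1)) (E.add (E.var 0) et))
  (E.uu (E.sub (E.q 67 100) (E.var 1)) (E.sub (E.var 0) et))) eW) (E.add (E.mul E.pi et) (E.q 2 1000))
private def kC : E := E.sub (E.sub (E.add (E.uu (E.add (E.q 67 100) (E.var 1)) (E.sub (E.var 0) et))
  (E.uu (E.sub (E.q 67 100) (E.var 1)) (E.add (E.var 0) et))) eW) (E.add (E.mul E.pi et) (E.q 2 1000))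

private theorem cA : chk [kA] 20 [V.of 10000 (-600) 600, V.of 10000 (-2500) 2500, V.of 10000 0 1045] =
    true := by decide +kernel
private theorem cB : chk [kB] 20 [V.of 10000 (-600) 600, V.of 10000 2500 3000, V.of 10000 0 1045] =
    true := by decide +kernel
private theorem cC : chk [kC] 20 [V.of 10000 (-600) 600, V.of 10000 2500 3000, V.of 10000 0 1045] =
    true := by decide +kernel

private def gR : E := E.sub (E.sub (E.add (E.uu (E.q 395 1000) (E.add (E.var 0)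
  (E.mul (E.q 9 10) (E.var 1)))) (E.uu (E.q 945 1000) (E.sub (E.var 0) (E.mul (E.q 9 10) (E.var 1)))))
  eW) (E.add (E.mul (E.q 18 100) (E.var 1)) (E.q 356 1000))
private theorem cG : chk [gR] 20 [V.of 10000 (-600) 600, V.of 10000 0 1045] = true := by
  decide +kernel

private def hRR : E := E.sub (E.add (E.uu (E.q 545 1000) (E.add (E.var 0) (E.var 1)))
  (E.uu (E.q 795 1000) (E.sub (E.var 0) (E.var 1)))) eW
private theorem cH : chk [hRR] 20 [V.of 10000 (-600) 600, V.of 10000 0 1045] = true := by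
  decide +kernel

-- variables `r`, `ρ`
private def eA : E := E.sub (E.add (E.add (E.q 354 1000) (E.mul (E.q 18 100) (E.var 1)))
  (E.mul (E.mul (E.q 18 100) E.pi) (E.var 1))) (E.mul (E.mul (E.mul (E.q 4 1) E.pi)
    (E.mul (E.var 1) (E.var 0))) (E.sub (E.q 3 1) (E.mul (E.q 8 1) (E.var 0))))
private def eV : E := E.mul (E.mul (E.q 11 40) E.pi) (E.mul (E.var 1) (E.sub (E.q 9 10)
  (E.mul (E.q 4 1) (E.var 0))))
private def eI : E := E.sub (E.sub eA eV) (E.mul (E.mul (E.q 21 20) E.pi) (E.sub (E.q 6 100)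
  (E.mul (E.q 4 1) (E.mul (E.var 1) (E.var 0)))))
private def eJ : E := E.sub (E.sub eA eV) (E.mul (E.mul (E.mul (E.q 8 1) E.pi)
  (E.mul (E.var 1) (E.var 0))) (E.sub (E.q 9 40) (E.var 0)))
private theorem cI : chk [eI] 20 [V.of 10000 0 2000, V.of 10000 0 1045] = true := by decide +kernel
private theorem cJ : chk [eJ] 20 [V.of 10000 0 2000, V.of 10000 0 1045] = true := by decide +kernel

/-- the ring variable stays -/
theorem row_K {T σ ρ : ℝ} (hT : |T| ≤ 6 / 100) (hσ : |σ| ≤ 3 / 10) (hρ : 0 ≤ ρ)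
    (hρ' : ρ ≤ 1045 / 10000) :
    Real.pi * (ρ * LT.th σ) + 2 / 1000 < fR (wM T) ⟨σ, ρ * LT.th σ⟩ := by
  obtain ⟨t0, t1⟩ := abs_le.mp hT
  rw [fR_uu]
  simp only [wM]
  rcases le_total |σ| (1 / 4) with h | h
  · obtain ⟨s0, s1⟩ := abs_le.mp h
    rw [th_of_le h, mul_one]
    have g := pos_of_chk (chk3 cA (by norm_num) (x := T) (y := σ) (z := ρ) (le_trans (by norm_num) t0)
      (le_trans t1 (by norm_num)) (le_trans (by norm_num) s0) (le_trans s1 (by norm_num))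
      (le_trans (by norm_num) hρ) (le_trans hρ' (by norm_num)))
    simp only [kA, eW, E.val, NumIs.lkR] at g
    norm_num at g ⊢
    linarith only [g]
  · rw [th_of_ge h]
    rcases le_total 0 σ with h2 | h2
    · rw [abs_of_nonneg h2] at h hσ ⊢
      have g := pos_of_chk (chk3 cB (by norm_num) (x := T) (y := σ) (z := ρ)
        (le_trans (by norm_num) t0) (le_trans t1 (by norm_num)) (le_trans (by norm_num) h)
        (le_trans hσ (by norm_num)) (le_trans (by norm_num) hρ) (le_trans hρ' (by norm_num)))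
      simp only [kB, et, eW, E.val, NumIs.lkR] at g
      norm_num at g ⊢
      linarith only [g]
    · rw [abs_of_nonpos h2] at h hσ ⊢
      have g := pos_of_chk (chk3 cC (by norm_num) (x := T) (y := -σ) (z := ρ)
        (le_trans (by norm_num) t0) (le_trans t1 (by norm_num)) (le_trans (by norm_num) h)
        (le_trans hσ (by norm_num)) (le_trans (by norm_num) hρ) (le_trans hρ' (by norm_num)))
      simp only [kC, et, eW, E.val, NumIs.lkR] at g
      norm_num at g ⊢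
      rw [show (67 : ℝ) / 100 + -σ = 67 / 100 - σ by ring] at g
      linarith only [g]

theorem row_g {T ρ : ℝ} (hT : |T| ≤ 6 / 100) (hρ : 0 ≤ ρ) (hρ' : ρ ≤ 1045 / 10000) :
    356 / 1000 + 18 / 100 * ρ < fR (wM T) (zM ρ) := by
  obtain ⟨t0, t1⟩ := abs_le.mp hT
  rw [fR_uu]
  have g := pos_of_chk (chk2 cG (by norm_num) (x := T) (y := ρ) (le_trans (by norm_num) t0)
      (le_trans t1 (by norm_num)) (le_trans (by norm_num) hρ) (le_trans hρ' (by norm_num)))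
  simp only [gR, eW, E.val, NumIs.lkR] at g
  simp only [wM, zM]
  norm_num at g ⊢
  linarith only [g]

theorem row_h {T ρ : ℝ} (hT : |T| ≤ 6 / 100) (hρ : 0 ≤ ρ) (hρ' : ρ ≤ 1045 / 10000) :
    0 < fR (wM T) (zT ρ) := by
  obtain ⟨t0, t1⟩ := abs_le.mp hT
  rw [fR_uu]
  have g := pos_of_chk (chk2 cH (by norm_num) (x := T) (y := ρ) (le_trans (by norm_num) t0)
      (le_trans t1 (by norm_num)) (le_trans (by norm_num) hρ) (le_trans hρ' (by norm_num)))
  simp only [hRR, eW, E.val, NumIs.lkR] at g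
  simp only [wM, zT]
  norm_num at g ⊢
  linarith only [g]

/-- balance for `n = 4`, `σ = -s` -/
theorem row_a4 {s ρ : ℝ} (h0 : 3 / 10 ≤ s) (h1 : s ≤ 1 / 2) (hρ : 0 ≤ ρ) (hρ' : ρ ≤ 1045 / 10000) :
    farB s (ρ * (2 - 4 * s)) (9 / 10 * ρ) + 2 / 1000 + Real.pi * (ρ * (2 - 4 * s)) <
      2 * Real.pi * (9 / 10 * ρ) * (1 / 10) + 2 * Real.pi * (ρ * (2 - 4 * s)) * (1 - 4 * s) +
        (356 / 1000 + 18 / 100 * ρ) := by
  have hpi := Real.pi_pos
  have r0 : 0 ≤ 1 / 2 - s := by linarith only [h1]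
  have r1 : 1 / 2 - s ≤ 2 / 10 := by linarith only [h0]
  have gI := pos_of_chk (chk2 cI (by norm_num) (x := 1 / 2 - s) (y := ρ) (le_trans (by norm_num) r0)
      (le_trans r1 (by norm_num)) (le_trans (by norm_num) hρ) (le_trans hρ' (by norm_num)))
  have gJ := pos_of_chk (chk2 cJ (by norm_num) (x := 1 / 2 - s) (y := ρ) (le_trans (by norm_num) r0)
      (le_trans r1 (by norm_num)) (le_trans (by norm_num) hρ) (le_trans hρ' (by norm_num)))
  simp only [eI, eJ, eA, eV, E.val, NumIs.lkR] at gI gJ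
  norm_num at gI gJ
  have hJ0 : 0 ≤ 8 * Real.pi * (ρ * (1 / 2 - s)) * (9 / 40 - (1 / 2 - s)) := by
    have : 0 ≤ 9 / 40 - (1 / 2 - s) := by linarith only [h0]
    positivity
  unfold farB
  rcases max_cases (21 / 20 * Real.pi * max (6 / 100 - ρ * (2 - 4 * s)) 0)
    (2 * Real.pi * (ρ * (2 - 4 * s)) * (s - 11 / 40)) with ⟨e, -⟩ | ⟨e, -⟩
  · rw [e]
    rcases max_cases (6 / 100 - ρ * (2 - 4 * s)) 0 with ⟨e', -⟩ | ⟨e', -⟩
    · rw [e']
      linarith only [gI]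
    · rw [e']
      linarith only [gJ, hJ0]
  · rw [e]
    linarith only [gJ]

end

/-- the change of the quadratic part -/
theorem quad_diff (n ρ σ : ℝ) : (Real.pi * Complex.I * n * zM ρ ^ 2 + 2 * Real.pi * Complex.I * zM ρ).re -
    (Real.pi * Complex.I * n * (⟨σ, ρ * LT.th σ⟩ : ℂ) ^ 2 +
      2 * Real.pi * Complex.I * (⟨σ, ρ * LT.th σ⟩ : ℂ)).re =
    2 * Real.pi * (9 / 10 * ρ) * (11 / 40 * n - 1) + 2 * Real.pi * (ρ * LT.th σ) * (1 + n * σ) := by
  unfold zM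
  simp [pow_two]
  ring

/-- balance -/
theorem row_a {n s ρ σ : ℝ} (hn : 4 ≤ n) (hσ : |σ| = s) (h0 : 3 / 10 ≤ s) (h1 : s ≤ 1 / 2) (hρ : 0 ≤ ρ)
    (hρ' : ρ ≤ 1045 / 10000) :
    farB s (ρ * LT.th σ) (9 / 10 * ρ) + (if 0 ≤ σ then 2 * Real.pi * (ρ * LT.th σ) else 0) + 2 / 1000 +
      Real.pi * (ρ * LT.th σ) <
      2 * Real.pi * (9 / 10 * ρ) * (11 / 40 * n - 1) + 2 * Real.pi * (ρ * LT.th σ) * (1 + n * σ) +
        (356 / 1000 + 18 / 100 * ρ) := by
  have hpi := Real.pi_pos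
  rw [th_of_ge (by rw [hσ]; linarith only [h0]), hσ]
  have a1 := row_a4 h0 h1 hρ hρ'
  have hm : 0 ≤ 2 * Real.pi * ρ * (n - 4) * (99 / 400 - (2 - 4 * s) * s) := by
    have b1 : 0 ≤ n - 4 := by linarith only [hn]
    have b2 : 0 ≤ 99 / 400 - (2 - 4 * s) * s := by nlinarith only [h0]
    positivity
  have hth : 0 ≤ 2 - 4 * s := by linarith only [h1]
  rcases le_or_gt 0 σ with h | h
  · rw [abs_of_nonneg h] at hσ
    rw [if_pos h, hσ]
    have hm2 : 0 ≤ Real.pi * (ρ * (2 - 4 * s)) * (2 * n * s + 2 * n * s - 2) := by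
      have b3 : 0 ≤ 2 * n * s + 2 * n * s - 2 := by nlinarith only [hn, h0]
      positivity
    linarith only [a1, hm, hm2]
  · rw [abs_of_neg h] at hσ
    have hσ' : σ = -s := by linarith only [hσ]
    rw [if_neg (not_le.mpr h), hσ']
    linarith only [a1, hm]

/-- kinds of slots -/
inductive SlK where
  | main : SlK
  | mode : SlK
  | tail : SlK
deriving DecidableEq

/-- one slot of a ring: old and new value of the hinge, penalty -/
structure MSlot (g : SlK) (w w1 : ℂ) (q : ℝ) : Prop where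
  main : g = .main → w1 = w ∧ q = 0 ∧ 0 ≤ w.re ∧ w.re ≤ 1 / 2 ∧ |w.im| ≤ 6 / 100 ∧
    |w.im| ≤ 6 / 10 * w.re
  mode : g = .mode → 0 ≤ w.re ∧ w.re ≤ 1 / 2 ∧ q = |w.im| ∧
    fR ⟨w.re, |w.im|⟩ 0 ≤ Real.pi * |w.im| + 2 / 1000 ∧ ∃ T : ℝ, |T| ≤ 6 / 100 ∧ w1 = wM T
  tail : g = .tail → w.im = 0 ∧ 1 / 2 ≤ w.re ∧ w.re ≤ 1 ∧ q = 0 ∧ ∃ t : ℝ, |t| ≤ 6 / 100 ∧ w1 = wT t

theorem MSlot.mode_le {w w1 : ℂ} {q : ℝ} (h : MSlot .mode w w1 q) {σ η : ℝ} (hσ : |σ| ≤ 1 / 2)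
    (hη : 0 ≤ η) : fR w ⟨σ, η⟩ - Real.pi * q ≤ Real.pi * η + 2 / 1000 := by
  obtain ⟨h0, h1, h2, h3, -⟩ := h.mode rfl
  have a := fR_mode (x := w.re) (Y := w.im) h0 h1 hη hσ
  rw [h2]
  have e : w = ⟨w.re, w.im⟩ := rfl
  rw [← e] at a
  linarith only [h3, a]

/-! ### next to a tail -/

theorem MSlot.tail_gt {w w1 : ℂ} {q : ℝ} (h : MSlot .tail w w1 q) {ρ s : ℝ}
    (hρ : 0 ≤ ρ) (hρ' : ρ ≤ 1045 / 10000) (hs : |s| ≤ 1 / 2) :
    39 / 100 - 2 * ρ + Real.pi * ρ < fR w1 (zT ρ) - (fR w s - Real.pi * q) := by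
  obtain ⟨h0, h1, h2, h3, t, h4, rfl⟩ := h.tail rfl
  rw [h3, mul_zero, sub_zero]
  exact tr_tail h0 h1 h2 h4 hρ hρ' hs

theorem MSlot.any_gt {g : SlK} {w w1 : ℂ} {q : ℝ} (h : MSlot g w w1 q) {ρ s : ℝ}
    (hρ : 0 ≤ ρ) (hρ' : ρ ≤ 1045 / 10000) (hs : |s| ≤ 1 / 2) :
    -(39 / 100 - 2 * ρ) < fR w1 (zT ρ) - (fR w s - Real.pi * q) := by
  cases g
  · obtain ⟨e, hq, h0, h1, h2, -⟩ := h.main rfl
    rw [e, hq, mul_zero, sub_zero]
    linarith only [h0, h1, h2, hρ, hρ', hs, tr_other h0 h1 h2 hρ hρ' hs]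
  · obtain ⟨-, -, -, -, T, hT, rfl⟩ := h.mode rfl
    have a1 := h.mode_le hs (le_refl (0 : ℝ))
    have a2 := row_h hT hρ hρ'
    have e : ((s : ℝ) : ℂ) = ⟨s, 0⟩ := by
      apply Complex.ext <;> simp
    rw [e]
    linarith only [hρ', a1, a2]
  · have := h.tail_gt hρ hρ' hs
    have := mul_nonneg Real.pi_pos.le hρ
    linarith

/-- **One ring next to a tail.** -/
theorem ring_tail {g' : SlK} {w w1 w' w1' : ℂ} {q q' : ℝ} (h : MSlot .tail w w1 q)
    (h' : MSlot g' w' w1' q') {n ρ s : ℝ} (hn : 4 ≤ n) (hρ : 0 ≤ ρ) (hρ' : ρ ≤ 1045 / 10000)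
    (hs : |s| ≤ 1 / 2) : VR n w w' s - Real.pi * (q + q') < VR n w1 w1' (zT ρ) := by
  have a1 := h.tail_gt hρ hρ' hs
  have a2 := h'.any_gt hρ hρ' hs
  have hpr := mul_nonneg Real.pi_pos.le hρ
  rw [VR_fR, VR_fR, VR_re_real, VR_re_zT]
  have a3 : -(Real.pi * ρ) ≤ 2 * Real.pi * ρ * (n / 8 - 1) := by nlinarith only [hn, hpr]
  linarith only [a1, a2, a3]

/-! ### next to a mode -/

theorem MSlot.near {g : SlK} {w w1 : ℂ} {q : ℝ} (h : MSlot g w w1 q) (hg : g ≠ .tail) {ρ σ : ℝ}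
    (hρ : 0 ≤ ρ) (hρ' : ρ ≤ 1045 / 10000) (hσ : |σ| ≤ 3 / 10) :
    fR w ⟨σ, ρ * LT.th σ⟩ - Real.pi * q ≤ fR w1 ⟨σ, ρ * LT.th σ⟩ ∧
      (g = .mode → fR w ⟨σ, ρ * LT.th σ⟩ - Real.pi * q < fR w1 ⟨σ, ρ * LT.th σ⟩) := by
  cases g
  · obtain ⟨e, hq, -⟩ := h.main rfl
    rw [e, hq, mul_zero, sub_zero]
    exact ⟨le_rfl, fun h => absurd h (by decide)⟩
  · obtain ⟨-, -, -, -, T, hT, rfl⟩ := h.mode rfl
    have hth : 0 ≤ LT.th σ := th_nonneg (by linarith only [hσ])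
    have a1 := h.mode_le (show |σ| ≤ 1 / 2 by linarith only [hσ]) (mul_nonneg hρ hth)
    have a2 := row_K hT hσ hρ hρ'
    exact ⟨by linarith only [a1, a2], fun _ => by linarith only [a1, a2]⟩
  · exact absurd rfl hg

/-- **One ring next to a mode**, the ring variable stays. -/
theorem ring_near {g' : SlK} {w w1 w' w1' : ℂ} {q q' : ℝ} (h : MSlot .mode w w1 q)
    (h' : MSlot g' w' w1' q') (hg' : g' ≠ .tail) {n ρ σ : ℝ} (hρ : 0 ≤ ρ)
    (hρ' : ρ ≤ 1045 / 10000) (hσ : |σ| ≤ 3 / 10) :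
    VR n w w' ⟨σ, ρ * LT.th σ⟩ - Real.pi * (q + q') < VR n w1 w1' ⟨σ, ρ * LT.th σ⟩ := by
  have a1 := (h.near (by decide) hρ hρ' hσ).2 rfl
  have a2 := (h'.near hg' hρ hρ' hσ).1
  rw [VR_fR, VR_fR]
  linarith only [a1, a2]

/-- **One ring next to a mode**, the ring variable moves. -/
theorem ring_far {g' : SlK} {w w1 w' w1' : ℂ} {q q' : ℝ} (h : MSlot .mode w w1 q)
    (h' : MSlot g' w' w1' q') (hg' : g' ≠ .tail) {n ρ σ : ℝ} (hn : 4 ≤ n) (hρ : 0 ≤ ρ)
    (hρ' : ρ ≤ 1045 / 10000) (h0 : 3 / 10 < |σ|) (h1 : |σ| ≤ 1 / 2) :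
    VR n w w' ⟨σ, ρ * LT.th σ⟩ - Real.pi * (q + q') < VR n w1 w1' (zM ρ) := by
  have hpi := Real.pi_pos
  have hth : LT.th σ = 2 - 4 * |σ| := th_of_ge (by linarith only [h0])
  have hth0 : 0 ≤ LT.th σ := th_nonneg h1
  have hη : 0 ≤ ρ * LT.th σ := mul_nonneg hρ hth0
  obtain ⟨-, -, -, -, T, hT, rfl⟩ := h.mode rfl
  have a1 := h.mode_le h1 hη
  have a2 := row_g hT hρ hρ'
  have a3 := row_a hn rfl h0.le h1 hρ hρ'
  have a4 := quad_diff n ρ σ
  have hη1 : ρ * LT.th σ ≤ 418 / 1000 * (1 / 2 - |σ|) := by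
    rw [hth]
    have : 0 ≤ 1 / 2 - |σ| := by linarith only [h1]
    nlinarith only [hρ', h1]
  have hη' : ρ * LT.th σ ≤ 9 / 10 * ρ := by
    rw [hth]
    nlinarith only [hρ, h0]
  have hB : 0 ≤ farB |σ| (ρ * LT.th σ) (9 / 10 * ρ) := by
    unfold farB
    have b1 : 0 ≤ 11 / 40 * Real.pi * (9 / 10 * ρ - ρ * LT.th σ) := by
      have : 0 ≤ 9 / 10 * ρ - ρ * LT.th σ := by linarith only [hη']
      positivity
    have b2 : 0 ≤ 21 / 20 * Real.pi * max (6 / 100 - ρ * LT.th σ) 0 := by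
      have := le_max_right (6 / 100 - ρ * LT.th σ) 0
      positivity
    have b3 := le_max_left (21 / 20 * Real.pi * max (6 / 100 - ρ * LT.th σ) 0)
      (2 * Real.pi * (ρ * LT.th σ) * (|σ| - 11 / 40))
    linarith only [b1, b2, b3]
  have hif : 0 ≤ (if 0 ≤ σ then 2 * Real.pi * (ρ * LT.th σ) else 0) := by
    split_ifs
    · positivity
    · exact le_rfl
  rw [VR_fR, VR_fR]
  cases g'
  · obtain ⟨e, hq, u0, u1, y1, y2⟩ := h'.main rfl
    rw [e, hq]
    have key : fR w' ⟨σ, ρ * LT.th σ⟩ - fR w' (zM ρ) ≤ farB |σ| (ρ * LT.th σ) (9 / 10 * ρ) +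
        (if 0 ≤ σ then 2 * Real.pi * (ρ * LT.th σ) else 0) := by
      have ew : w' = ⟨w'.re, w'.im⟩ := rfl
      rw [ew]
      rcases le_or_gt 0 σ with hs | hs
      · rw [if_pos hs]
        have := far_pos (u := w'.re) (Y := w'.im) (s := |σ|) (η' := 9 / 10 * ρ) u0 u1 y1 y2 hη hη1 hη'
          (by linarith only [h0]) h1
        rw [abs_of_nonneg hs] at this ⊢
        exact this
      · rw [if_neg (not_le.mpr hs), add_zero]
        have := far_neg (u := w'.re) (Y := w'.im) (s := |σ|) (η' := 9 / 10 * ρ) u0 u1 y1 y2 hη hη1 hη'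
          (by linarith only [h0]) h1
        rw [show -|σ| = σ by rw [abs_of_neg hs]; ring] at this
        exact this
    linarith only [a1, a2, a3, a4, key]
  · obtain ⟨-, -, -, -, T', hT', rfl⟩ := h'.mode rfl
    have b1 := h'.mode_le h1 hη
    have b2 := row_g hT' hρ hρ'
    have b3 : Real.pi * (ρ * LT.th σ) ≤ 3 / 10 := by
      have hpi4 : Real.pi < 3.15 := Real.pi_lt_d2
      have : ρ * LT.th σ ≤ 418 / 1000 * (2 / 10) := by linarith only [h0, hη1]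
      nlinarith only [hpi4, h0, hpi, hη1]
    linarith only [hρ, a1, a2, a3, a4, hB, hif, b1, b2, b3]
  · exact absurd rfl hg'

end Pool.Agent.Work.MP_b30479_gtS.G2
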