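import Pool.Agent.Work.MP_b30479_gt.TBS.VC.FStrip
import Mathlib
import Pool.Agent.Work.MP_b30479_gt.TBS.G2.WordsD
import Pool.Agent.Work.MP_b30479_gt.TBS.LT.Cube
import Pool.Agent.Work.MP_b30479_gt.TBS.G2.SEfD
import Pool.Agent.Work.MP_b30479_gt.TBS.LT.Stmt
import Pool.Agent.Work.MP_b30479_gt.TBS.G2.ADat
import Pool.Agent.Work.MP_b30479_gt.TBS.VC.GaussND

section

/-!
# Calculus of the Bloch-Wigner dilogarithm on the whole plane

`BW_ee` (LT/BWgen) gives `BW (ee w)` for `w` in the strip `0 < Re w < 1`, that is on `ℂ ∖ [0, ∞)`: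
there the derivative formula follows from `Fh' = ph`.  On the positive real axis we use
`BW z = BW (1 - z⁻¹)` (`BW_three`): both sides have the same derivative on the upper half plane, and
they agree at the fixed point `e^{πi/3}`; then `BW_conj` gives the lower half plane.
-/

namespace Pool.Agent.Work.MP_b30479_gtS.G2

open LT Filter Topology

private theorem arg_ne {z : ℂ} (h : ‖z‖ ≤ 1) : (1 - z).arg ≠ Real.pi := by
  intro h1
  rw [Complex.arg_eq_pi_iff] at h1
  have h2 := Complex.re_le_norm z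
  have h3 := h1.1
  rw [Complex.sub_re, Complex.one_re] at h3
  linarith only [h, h2, h3]

theorem BW_conj (z : ℂ) : BW ((starRingEnd ℂ) z) = -BW z := by
  unfold BW
  rw [RCLike.norm_conj]
  split_ifs with h
  · exact BWd_conj (arg_ne h)
  · have h2 : ‖z⁻¹‖ ≤ 1 := by
      rw [norm_inv]
      exact inv_le_one_of_one_le₀ (not_le.1 h).le
    rw [← map_inv₀, BWd_conj (arg_ne h2)]

theorem BW_real (x : ℝ) : BW (x : ℂ) = 0 := by
  have h := BW_conj (x : ℂ)
  rw [Complex.conj_ofReal] at h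
  linarith only [h]

theorem BW_inv (z : ℂ) : BW z⁻¹ = -BW z := by
  rcases lt_trichotomy ‖z‖ 1 with h | h | h
  · rcases eq_or_ne z 0 with h0 | h0
    · have h1 := BW_real 0
      rw [Complex.ofReal_zero] at h1
      rw [h0, inv_zero, h1, neg_zero]
    · have h1 : ¬ ‖z⁻¹‖ ≤ 1 := by
        rw [norm_inv, not_le]
        exact (one_lt_inv₀ (norm_pos_iff.2 h0)).2 h
      unfold BW
      rw [if_neg h1, if_pos h.le, inv_inv]
  · have h1 : z⁻¹ = (starRingEnd ℂ) z := by
      rw [Complex.inv_def, Complex.normSq_eq_norm_sq, h]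
      simp
    rw [h1, BW_conj]
  · have h1 : ‖z⁻¹‖ ≤ 1 := by
      rw [norm_inv]
      exact inv_le_one_of_one_le₀ h.le
    unfold BW
    rw [if_pos h1, if_neg (not_le.2 h), neg_neg]

/-! ### the slit plane `ℂ ∖ [0, ∞)` -/

/-- the inverse of `ee` on `ℂ ∖ [0, ∞)` -/
private noncomputable def wl (z : ℂ) : ℂ := 1 / 2 + Complex.log (-z) / (2 * Real.pi * Complex.I)

private theorem wl_re (z : ℂ) : (wl z).re = 1 / 2 + (-z).arg / (2 * Real.pi) := by
  unfold wl
  have hpi := Real.pi_ne_zero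
  have e : Complex.log (-z) / (2 * Real.pi * Complex.I) =
      ((1 / (2 * Real.pi) : ℝ) : ℂ) * (-(Complex.log (-z) * Complex.I)) := by
    push_cast
    rw [div_eq_mul_inv, mul_inv, mul_inv, Complex.inv_I]
    field_simp
  rw [Complex.add_re, e, Complex.re_ofReal_mul, Complex.neg_re, Complex.mul_re, Complex.log_im]
  simp
  ring

private theorem wl_mem {z : ℂ} (h : -z ∈ Complex.slitPlane) : wl z ∈ VOL.strip := by
  have hpi := Real.pi_pos
  have h1 := Complex.neg_pi_lt_arg (-z)
  have h2 := (Complex.arg_le_pi (-z)).lt_of_ne (Complex.slitPlane_arg_ne_pi h)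
  constructor
  · rw [wl_re]
    have : -(1 / 2) < (-z).arg / (2 * Real.pi) := by
      rw [lt_div_iff₀ (by positivity)]
      linarith only [h1]
    linarith only [this]
  · rw [wl_re]
    have : (-z).arg / (2 * Real.pi) < 1 / 2 := by
      rw [div_lt_iff₀ (by positivity)]
      linarith only [h2]
    linarith only [this]

private theorem two_pi_I_ne : (2 * Real.pi * Complex.I : ℂ) ≠ 0 := by
  have := Real.pi_ne_zero
  simp [this]

private theorem ee_wl {z : ℂ} (h : -z ∈ Complex.slitPlane) : ee (wl z) = z := by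
  have h0 := Complex.slitPlane_ne_zero h
  unfold ee wl
  have e : 2 * Real.pi * Complex.I * (1 / 2 + Complex.log (-z) / (2 * Real.pi * Complex.I)) =
      Real.pi * Complex.I + Complex.log (-z) := by
    have := two_pi_I_ne
    field_simp
  rw [e, Complex.exp_add, Complex.exp_pi_mul_I, Complex.exp_log h0]
  ring

private theorem slit_mem {z : ℂ} (h : -z ∈ Complex.slitPlane) :
    ∀ᶠ x in 𝓝 z, -x ∈ Complex.slitPlane :=
  (continuous_neg.tendsto z).eventually (Complex.isOpen_slitPlane.mem_nhds h)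

private theorem BW_wl {z : ℂ} (h : -z ∈ Complex.slitPlane) :
    BW z = -(2 * Real.pi * ((VOL.Fh (wl z)).re + (wl z).im * (VOL.ph (wl z)).im)) := by
  conv_lhs => rw [← ee_wl h]
  exact BW_ee (wl_mem h)

private theorem continuousAt_wl {z : ℂ} (h : -z ∈ Complex.slitPlane) : ContinuousAt wl z := by
  unfold wl
  have h1 : ContinuousAt (fun z : ℂ => Complex.log (-z)) z :=
    ContinuousAt.clog continuous_neg.continuousAt h
  exact continuousAt_const.add (h1.div_const _)

private theorem continuousAt_slit {z : ℂ} (h : -z ∈ Complex.slitPlane) : ContinuousAt BW z := by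
  have hw := continuousAt_wl h
  have h1 : ContinuousAt (fun z => VOL.Fh (wl z)) z :=
    ContinuousAt.comp (g := VOL.Fh) (f := wl) (VOL.hasDerivAt_Fh (wl_mem h)).continuousAt hw
  have h2 : ContinuousAt (fun z => VOL.ph (wl z)) z :=
    ContinuousAt.comp (g := VOL.ph) (f := wl) (VOL.continuousAt_ph (wl_mem h)) hw
  have h3 : ContinuousAt (fun z => -(2 * Real.pi * ((VOL.Fh (wl z)).re +
      (wl z).im * (VOL.ph (wl z)).im))) z := by
    apply ContinuousAt.neg
    apply continuousAt_const.mul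
    apply ContinuousAt.add
    · exact Complex.continuous_re.continuousAt.comp h1
    · exact (Complex.continuous_im.continuousAt.comp hw).mul
        (Complex.continuous_im.continuousAt.comp h2)
  refine h3.congr ?_
  filter_upwards [slit_mem h] with x hx
  exact (BW_wl hx).symm

/-- the right hand side of the derivative formula -/
private noncomputable def dd (z z' : ℂ) : ℝ :=
  Real.log ‖z‖ * (-z' / (1 - z)).im - Real.log ‖1 - z‖ * (z' / z).im

private theorem hasDerivAt_slit {f : ℝ → ℂ} {f' : ℂ} {t : ℝ} (h : HasDerivAt f f' t)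
    (hs : -f t ∈ Complex.slitPlane) : HasDerivAt (fun s => BW (f s)) (dd (f t) f') t := by
  have hpi := Real.pi_ne_zero
  have h0 : f t ≠ 0 := fun h0 => Complex.slitPlane_ne_zero hs (by rw [h0, neg_zero])
  have hI := two_pi_I_ne
  have hm := wl_mem hs
  have hl : HasDerivAt (fun s => Complex.log (-f s)) (-f' / -f t) t := h.neg.clog_real hs
  have hw : HasDerivAt (fun s => wl (f s)) (f' / f t / (2 * Real.pi * Complex.I)) t := by
    unfold wl
    rw [neg_div_neg_eq] at hl
    exact (hl.div_const _).const_add _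
  have h1 : HasDerivAt (fun s => VOL.Fh (wl (f s)))
      (VOL.ph (wl (f t)) * (f' / f t / (2 * Real.pi * Complex.I))) t :=
    (VOL.hasDerivAt_Fh hm).comp_of_eq t hw rfl
  have h2 : HasDerivAt (fun s => VOL.ph (wl (f s)))
      (VOL.ph' (wl (f t)) * (f' / f t / (2 * Real.pi * Complex.I))) t :=
    (VOL.hasDerivAt_ph hm).comp_of_eq t hw rfl
  have r1 : HasDerivAt (fun s => (VOL.Fh (wl (f s))).re)
      (VOL.ph (wl (f t)) * (f' / f t / (2 * Real.pi * Complex.I))).re t :=
    Complex.reCLM.hasFDerivAt.comp_hasDerivAt t h1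
  have r2 : HasDerivAt (fun s => (VOL.ph (wl (f s))).im)
      (VOL.ph' (wl (f t)) * (f' / f t / (2 * Real.pi * Complex.I))).im t :=
    Complex.imCLM.hasFDerivAt.comp_hasDerivAt t h2
  have r3 : HasDerivAt (fun s => (wl (f s)).im) (f' / f t / (2 * Real.pi * Complex.I)).im t :=
    Complex.imCLM.hasFDerivAt.comp_hasDerivAt t hw
  have key := ((r1.add (r3.mul r2)).const_mul (2 * Real.pi)).neg
  have e0 : (fun s => BW (f s)) =ᶠ[𝓝 t] fun s => -(2 * Real.pi * ((VOL.Fh (wl (f s))).re +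
      (wl (f s)).im * (VOL.ph (wl (f s))).im)) := by
    filter_upwards [h.continuousAt.eventually (slit_mem hs)] with x hx
    exact BW_wl hx
  refine (key.congr_of_eventuallyEq e0).congr_deriv ?_
  -- the formula
  set w := wl (f t)
  have hf : ee w = f t := ee_wl hs
  -- the derivative of `1 - ee w`
  have q1 : HasDerivAt (fun z : ℂ => 1 - ee z) (-(2 * Real.pi * Complex.I * ee w)) w := by
    have : HasDerivAt (fun z : ℂ => Complex.exp (2 * Real.pi * Complex.I * z))
        (Complex.exp (2 * Real.pi * Complex.I * w) * (2 * Real.pi * Complex.I * 1)) w :=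
      ((hasDerivAt_id w).const_mul _).cexp
    have h5 := this.const_sub 1
    refine h5.congr_deriv ?_
    unfold ee
    ring
  have q2 : HasDerivAt (fun z : ℂ => Complex.exp (VOL.ph z + Real.pi * (z - 1 / 2) * Complex.I))
      (Complex.exp (VOL.ph w + Real.pi * (w - 1 / 2) * Complex.I) *
        (VOL.ph' w + Real.pi * 1 * Complex.I)) w :=
    ((VOL.hasDerivAt_ph hm).add ((((hasDerivAt_id w).sub_const (1 / 2)).const_mul
      (Real.pi : ℂ)).mul_const Complex.I)).cexp
  have q3 : (fun z : ℂ => 1 - ee z) =ᶠ[𝓝 w]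
      fun z => Complex.exp (VOL.ph z + Real.pi * (z - 1 / 2) * Complex.I) := by
    filter_upwards [VOL.strip_open.mem_nhds hm] with x hx
    exact one_sub_ee' hx
  have q4 := q1.unique (q2.congr_of_eventuallyEq q3)
  rw [← one_sub_ee' hm, hf] at q4
  have hne : 1 - f t ≠ 0 := by
    rw [← hf, one_sub_ee' hm]
    exact Complex.exp_ne_zero _
  have q5 : -f' / (1 - f t) = (VOL.ph' w + Real.pi * Complex.I) *
      (f' / f t / (2 * Real.pi * Complex.I)) := by
    have : VOL.ph' w + Real.pi * Complex.I = -(2 * Real.pi * Complex.I * f t) / (1 - f t) := by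
      rw [q4]
      field_simp
    rw [this]
    field_simp
  have q6 : Real.log ‖f t‖ = -(2 * Real.pi * w.im) := by
    rw [← hf, norm_ee, Real.log_exp]
  have q7 : Real.log ‖1 - f t‖ = (VOL.ph w).re - Real.pi * w.im := by
    rw [← hf, one_sub_ee' hm, Complex.norm_exp, Real.log_exp]
    simp [Complex.mul_re, Complex.mul_im]
    ring
  have q8 : (f' / f t).im = 2 * Real.pi * (f' / f t / (2 * Real.pi * Complex.I)).re := by
    have : f' / f t = 2 * Real.pi * Complex.I * (f' / f t / (2 * Real.pi * Complex.I)) := by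
      field_simp
    conv_lhs => rw [this]
    simp [Complex.mul_re, Complex.mul_im]
  unfold dd
  rw [q5, q6, q7, q8]
  set v := f' / f t / (2 * Real.pi * Complex.I)
  simp only [Complex.mul_re, Complex.mul_im, Complex.add_re, Complex.add_im, Complex.ofReal_re,
    Complex.ofReal_im, Complex.I_re, Complex.I_im]
  ring

/-! ### the symmetry of order three -/

private theorem slit_of_im {z : ℂ} (h : z.im ≠ 0) : -z ∈ Complex.slitPlane := by
  rw [Complex.mem_slitPlane_iff]
  right
  simpa using h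

private theorem dd_three {z : ℂ} (h0 : z ≠ 0) (h1 : z ≠ 1) (z' : ℂ) :
    dd (1 - z⁻¹) (z' / z ^ 2) = dd z z' := by
  have h2 : 1 - z ≠ 0 := sub_ne_zero.2 h1.symm
  have h3 : z - 1 ≠ 0 := sub_ne_zero.2 h1
  unfold dd
  have e1 : 1 - (1 - z⁻¹) = z⁻¹ := by ring
  have e2 : 1 - z⁻¹ = -((1 - z) / z) := by
    field_simp
    ring
  have e3 : -(z' / z ^ 2) / z⁻¹ = -(z' / z) := by
    field_simp
  have e4 : z' / z ^ 2 / (1 - z⁻¹) = -z' / (1 - z) - z' / z := by
    rw [e2]
    field_simp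
    ring
  have n1 : Real.log ‖z⁻¹‖ = -Real.log ‖z‖ := by
    rw [norm_inv, Real.log_inv]
  have n2 : Real.log ‖1 - z⁻¹‖ = Real.log ‖1 - z‖ - Real.log ‖z‖ := by
    rw [e2, norm_neg, norm_div, Real.log_div (norm_ne_zero_iff.2 h2) (norm_ne_zero_iff.2 h0)]
  rw [n2, e1, n1, e3, e4]
  simp only [Complex.sub_im, Complex.neg_im]
  ring

private theorem three_deriv {f : ℝ → ℂ} {f' : ℂ} {t : ℝ} (h : HasDerivAt f f' t) (h0 : f t ≠ 0) :
    HasDerivAt (fun s => 1 - (f s)⁻¹) (f' / f t ^ 2) t := by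
  have h1 := (h.inv h0).const_sub 1
  refine h1.congr_deriv ?_
  ring

private theorem im_three {z : ℂ} (h : 0 < z.im) : 0 < (1 - z⁻¹).im := by
  have h0 : z ≠ 0 := by
    rintro rfl
    simp at h
  rw [Complex.sub_im, Complex.one_im, Complex.inv_im]
  have := Complex.normSq_pos.2 h0
  have h2 : 0 < z.im / Complex.normSq z := div_pos h this
  rw [neg_div]
  linarith only [h2]

private theorem BW_three_pos {z : ℂ} (h : 0 < z.im) : BW (1 - z⁻¹) = BW z := by
  -- the segment from the fixed point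
  set z₀ : ℂ := ⟨1 / 2, Real.sqrt 3 / 2⟩ with hz₀
  have hs : 0 < Real.sqrt 3 := Real.sqrt_pos.2 (by norm_num)
  have h3 : Real.sqrt 3 * Real.sqrt 3 = 3 := Real.mul_self_sqrt (by norm_num)
  have hfix : 1 - z₀⁻¹ = z₀ := by
    have hn : Complex.normSq z₀ = 1 := by
      rw [hz₀, Complex.normSq_mk]
      nlinarith only [h3]
    apply Complex.ext
    · rw [Complex.sub_re, Complex.inv_re, hn, Complex.one_re]
      simp only [hz₀]
      norm_num
    · rw [Complex.sub_im, Complex.inv_im, hn, Complex.one_im]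
      simp only [hz₀]
      ring
  set g : ℝ → ℂ := fun s => z₀ + s * (z - z₀) with hg
  have hd : ∀ s, HasDerivAt g (z - z₀) s := by
    intro s
    have h3 : HasDerivAt (fun t : ℝ => ((t : ℝ) : ℂ)) 1 s := Complex.ofRealCLM.hasDerivAt
    have h4 := (h3.mul_const (z - z₀)).const_add z₀
    rwa [one_mul] at h4
  have him : ∀ s ∈ Set.Icc (0 : ℝ) 1, 0 < (g s).im := by
    intro s hs'
    have e : (g s).im = (1 - s) * (Real.sqrt 3 / 2) + s * z.im := by
      simp [hg, hz₀, Complex.mul_im]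
      ring
    rw [e]
    rcases hs'.1.eq_or_lt with h4 | h4
    · rw [← h4]
      linarith only [hs]
    · have : 0 ≤ 1 - s := by linarith only [hs', hs'.2]
      positivity
  have hder : ∀ s ∈ Set.Icc (0 : ℝ) 1, HasDerivAt (fun s => BW (1 - (g s)⁻¹) - BW (g s)) 0 s := by
    intro s hs'
    have h4 := him s hs'
    have h0 : g s ≠ 0 := by
      intro h0
      rw [h0] at h4
      simp at h4
    have h1 : g s ≠ 1 := by
      intro h0
      rw [h0] at h4
      simp at h4
    have d1 := hasDerivAt_slit (hd s) (slit_of_im h4.ne')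
    have d2 := hasDerivAt_slit (three_deriv (hd s) h0) (slit_of_im (im_three h4).ne')
    have d3 := d2.sub d1
    rw [dd_three h0 h1, sub_self] at d3
    exact d3
  have hconst := constant_of_derivWithin_zero (f := fun s => BW (1 - (g s)⁻¹) - BW (g s))
    (a := 0) (b := 1)
    (fun s hs' => (hder s hs').differentiableAt.differentiableWithinAt)
    (fun s hs' => (hder s ⟨hs'.1, hs'.2.le⟩).hasDerivWithinAt.derivWithin
      (uniqueDiffOn_Icc zero_lt_one s ⟨hs'.1, hs'.2.le⟩)) 1 ⟨zero_le_one, le_rfl⟩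
  have g0 : g 0 = z₀ := by simp [hg]
  have g1 : g 1 = z := by simp [hg]
  simp only [g0, g1, hfix, sub_self] at hconst
  linarith only [hconst]

/-- `D(1 - 1/z) = D(z)` (also for `z = 0, 1` with `0⁻¹ = 0`) -/
theorem BW_three' (z : ℂ) : BW (1 - z⁻¹) = BW z := by
  rcases lt_trichotomy z.im 0 with h | h | h
  · have h2 := BW_three_pos (z := (starRingEnd ℂ) z) (by simpa using h)
    have e : 1 - ((starRingEnd ℂ) z)⁻¹ = (starRingEnd ℂ) (1 - z⁻¹) := by
      simp
    rw [e, BW_conj, BW_conj] at h2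
    linarith only [h2]
  · have e : z = ((z.re : ℝ) : ℂ) := by
      apply Complex.ext
      · simp
      · simpa using h
    have e2 : 1 - z⁻¹ = ((1 - z.re⁻¹ : ℝ) : ℂ) := by
      rw [e]
      push_cast
      simp
    rw [e2, BW_real, e, BW_real]
  · exact BW_three_pos h

set_option linter.unusedVariables false in
theorem BW_three {z : ℂ} (h0 : z ≠ 0) (h1 : z ≠ 1) : BW (1 - z⁻¹) = BW z := BW_three' z

/-- the derivative along a curve -/
theorem hasDerivAt_BW {f : ℝ → ℂ} {f' : ℂ} {t : ℝ} (h : HasDerivAt f f' t) (h0 : f t ≠ 0)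
    (h1 : f t ≠ 1) : HasDerivAt (fun s => BW (f s))
      (Real.log ‖f t‖ * (-f' / (1 - f t)).im - Real.log ‖1 - f t‖ * (f' / f t).im) t := by
  change HasDerivAt (fun s => BW (f s)) (dd (f t) f') t
  by_cases hs : -f t ∈ Complex.slitPlane
  · exact hasDerivAt_slit h hs
  have hx : 0 ≤ (f t).re ∧ (f t).im = 0 := by
    rw [Complex.mem_slitPlane_iff, not_or, not_lt, not_not] at hs
    simpa using hs
  -- the first rotation
  have h2 := three_deriv h h0
  have h2' : (fun s => BW (1 - (f s)⁻¹)) = fun s => BW (f s) := by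
    ext s
    exact BW_three' _
  by_cases hs2 : -(1 - (f t)⁻¹) ∈ Complex.slitPlane
  · have h3 := hasDerivAt_slit h2 hs2
    rw [h2', dd_three h0 h1] at h3
    exact h3
  -- the second rotation
  have h10 : 1 - (f t)⁻¹ ≠ 0 := by
    intro h4
    apply h1
    have h5 : (f t)⁻¹ = 1 := (sub_eq_zero.1 h4).symm
    rw [← inv_inv (f t), h5, inv_one]
  have h11 : 1 - (f t)⁻¹ ≠ 1 := by
    intro h4
    apply h0
    have h5 : (f t)⁻¹ = 0 := by linear_combination -h4
    exact inv_eq_zero.1 h5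
  have h4 := three_deriv h2 h10
  have h4' : (fun s => BW (1 - (1 - (f s)⁻¹)⁻¹)) = fun s => BW (f s) := by
    ext s
    rw [BW_three', BW_three']
  have hs3 : -(1 - (1 - (f t)⁻¹)⁻¹) ∈ Complex.slitPlane := by
    rw [Complex.mem_slitPlane_iff]
    left
    have e : f t = (((f t).re : ℝ) : ℂ) := by
      apply Complex.ext
      · simp
      · simpa using hx.2
    have hp : 0 < (f t).re := by
      rcases hx.1.eq_or_lt with h5 | h5
      · exfalso
        apply h0
        rw [e, ← h5, Complex.ofReal_zero]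
      · exact h5
    have h6 : (f t).re ≠ 1 := by
      intro h5
      apply h1
      rw [e, h5, Complex.ofReal_one]
    -- `f t > 1`
    have h7 : 1 < (f t).re := by
      by_contra h8
      have h9 : (f t).re < 1 := lt_of_le_of_ne (not_lt.1 h8) h6
      apply hs2
      rw [Complex.mem_slitPlane_iff]
      left
      rw [e, ← Complex.ofReal_inv, ← Complex.ofReal_one, ← Complex.ofReal_sub,
        ← Complex.ofReal_neg, Complex.ofReal_re]
      have := (one_lt_inv₀ hp).2 h9
      linarith only [this]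
    have e2 : -(1 - (1 - (f t)⁻¹)⁻¹) = ((-(1 - (1 - (f t).re⁻¹)⁻¹) : ℝ) : ℂ) := by
      conv_lhs => rw [e]
      push_cast
      rfl
    rw [e2, Complex.ofReal_re]
    have h9 : (f t).re⁻¹ < 1 := inv_lt_one_of_one_lt₀ h7
    have h12 : 0 < (f t).re⁻¹ := inv_pos.2 hp
    have h13 : 1 < (1 - (f t).re⁻¹)⁻¹ := (one_lt_inv₀ (by linarith only [h9])).2 (by linarith only [h12])
    linarith only [h13]
  have h5 := hasDerivAt_slit h4 hs3
  rw [h4', dd_three h10 h11, dd_three h0 h1] at h5
  exact h5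

/-! ### continuity -/

private theorem continuousAt_zero : ContinuousAt BW 0 := by
  have hz : BW 0 = 0 := by
    have h1 := BW_real 0
    rwa [Complex.ofReal_zero] at h1
  rw [ContinuousAt, hz]
  have hball : Metric.closedBall (0 : ℂ) (1 / 2) ∈ 𝓝 (0 : ℂ) :=
    Metric.closedBall_mem_nhds _ (by norm_num)
  -- the series
  have hsum : Summable fun k : ℕ => (1 : ℝ) / ((k : ℝ) + 1) ^ 2 := by
    have := (summable_nat_add_iff 1).2 (Real.summable_one_div_nat_pow.2 one_lt_two)
    simpa using this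
  have c1 : ContinuousOn (fun z : ℂ => ∑' k : ℕ, z ^ (k + 1) / ((k : ℂ) + 1) ^ 2)
      (Metric.closedBall (0 : ℂ) (1 / 2)) := by
    refine continuousOn_tsum (u := fun k : ℕ => (1 : ℝ) / ((k : ℝ) + 1) ^ 2) ?_ hsum ?_
    · intro k
      exact ((continuous_pow (k + 1)).div_const _).continuousOn
    · intro k z hz'
      have h1 : ‖z‖ ≤ 1 := by
        have := mem_closedBall_zero_iff.1 hz'
        linarith only [this]
      rw [norm_div, norm_pow, norm_pow]
      have : ‖(k : ℂ) + 1‖ = (k : ℝ) + 1 := by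
        have := Complex.norm_natCast (k + 1)
        push_cast at this
        exact this
      rw [this]
      gcongr
      exact pow_le_one₀ (norm_nonneg _) h1
  have c2 : Tendsto (fun z : ℂ => (∑' k : ℕ, z ^ (k + 1) / ((k : ℂ) + 1) ^ 2).im) (𝓝 0) (𝓝 0) := by
    have h1 := (c1.continuousAt hball)
    have h2 : Tendsto (fun z : ℂ => (∑' k : ℕ, z ^ (k + 1) / ((k : ℂ) + 1) ^ 2).im) (𝓝 0)
        (𝓝 ((∑' k : ℕ, (0 : ℂ) ^ (k + 1) / ((k : ℂ) + 1) ^ 2).im)) :=
      (Complex.continuous_im.tendsto _).comp h1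
    simpa using h2
  -- the argument
  have c3 : Tendsto (fun z : ℂ => (1 - z).arg * Real.log ‖z‖) (𝓝 0) (𝓝 0) := by
    have h1 : Tendsto (fun z : ℂ => 3 / 2 * |‖z‖ * Real.log ‖z‖|) (𝓝 0) (𝓝 0) := by
      have h2 : Continuous fun z : ℂ => 3 / 2 * |‖z‖ * Real.log ‖z‖| :=
        continuous_const.mul (Real.continuous_mul_log.comp continuous_norm).abs
      have h3 := h2.tendsto 0
      simpa using h3
    refine squeeze_zero_norm' ?_ h1
    filter_upwards [hball] with z hz'
    have h4 : ‖z‖ ≤ 1 / 2 := mem_closedBall_zero_iff.1 hz'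
    rw [Real.norm_eq_abs, abs_mul, abs_mul, abs_norm]
    have h5 : |(1 - z).arg| ≤ 3 / 2 * ‖z‖ := by
      rw [← Complex.log_im]
      refine (Complex.abs_im_le_norm _).trans ?_
      have := Complex.norm_log_one_add_half_le_self (z := -z) (by rwa [norm_neg])
      rwa [norm_neg, ← sub_eq_add_neg] at this
    calc |(1 - z).arg| * |Real.log ‖z‖| ≤ 3 / 2 * ‖z‖ * |Real.log ‖z‖| :=
          mul_le_mul_of_nonneg_right h5 (abs_nonneg _)
      _ = _ := by ring
  have c4 := c2.add c3
  rw [add_zero] at c4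
  refine c4.congr' ?_
  filter_upwards [hball] with z hz'
  have h4 : ‖z‖ ≤ 1 := by
    have := mem_closedBall_zero_iff.1 hz'
    linarith only [this]
  unfold BW DT.BWd
  rw [if_pos h4]

private theorem continuousAt_of_three {z : ℂ} (h0 : z ≠ 0) (h : ContinuousAt BW (1 - z⁻¹)) :
    ContinuousAt BW z := by
  have h1 : ContinuousAt (fun z : ℂ => 1 - z⁻¹) z :=
    continuousAt_const.sub (continuousAt_inv₀ h0)
  have h2 : ContinuousAt (fun z : ℂ => BW (1 - z⁻¹)) z :=
    ContinuousAt.comp (g := BW) (f := fun z : ℂ => 1 - z⁻¹) h h1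
  have h3 : (fun z : ℂ => BW (1 - z⁻¹)) = BW := by
    ext z
    exact BW_three' z
  rwa [h3] at h2

theorem continuous_BW : Continuous BW := by
  rw [continuous_iff_continuousAt]
  intro z
  by_cases h0 : z = 0
  · rw [h0]
    exact continuousAt_zero
  by_cases h1 : z = 1
  · apply continuousAt_of_three h0
    rw [h1, inv_one, sub_self]
    exact continuousAt_zero
  by_cases hs : -z ∈ Complex.slitPlane
  · exact continuousAt_slit hs
  have hx : 0 ≤ z.re ∧ z.im = 0 := by
    rw [Complex.mem_slitPlane_iff, not_or, not_lt, not_not] at hs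
    simpa using hs
  have e : z = ((z.re : ℝ) : ℂ) := by
    apply Complex.ext
    · simp
    · simpa using hx.2
  have hp : 0 < z.re := by
    rcases hx.1.eq_or_lt with h5 | h5
    · exfalso
      apply h0
      rw [e, ← h5, Complex.ofReal_zero]
    · exact h5
  have h6 : z.re ≠ 1 := by
    intro h5
    apply h1
    rw [e, h5, Complex.ofReal_one]
  have step : ∀ x : ℝ, 0 < x → x < 1 → ContinuousAt BW (x : ℂ) := by
    intro x hx0 hx1
    apply continuousAt_of_three (by exact_mod_cast hx0.ne')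
    apply continuousAt_slit
    rw [Complex.mem_slitPlane_iff]
    left
    rw [← Complex.ofReal_inv, ← Complex.ofReal_one, ← Complex.ofReal_sub,
      ← Complex.ofReal_neg, Complex.ofReal_re]
    have := (one_lt_inv₀ hx0).2 hx1
    linarith only [this]
  rcases lt_or_gt_of_ne h6 with h7 | h7
  · rw [e]
    exact step _ hp h7
  · apply continuousAt_of_three h0
    have e2 : 1 - z⁻¹ = ((1 - z.re⁻¹ : ℝ) : ℂ) := by
      conv_lhs => rw [e]
      push_cast
      rfl
    rw [e2]
    have h9 : z.re⁻¹ < 1 := inv_lt_one_of_one_lt₀ h7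
    have h12 : 0 < z.re⁻¹ := inv_pos.2 hp
    exact step _ (by linarith only [h9]) (by linarith only [h12])

theorem tendsto_BW_cocompact : Tendsto BW (cocompact ℂ) (𝓝 0) := by
  have hz : BW 0 = 0 := by
    have h1 := BW_real 0
    rwa [Complex.ofReal_zero] at h1
  have h1 : Tendsto (fun z : ℂ => z⁻¹) (cocompact ℂ) (𝓝 0) := by
    rw [← Metric.cobounded_eq_cocompact]
    exact tendsto_inv₀_cobounded
  have h2 : Tendsto (fun z : ℂ => -BW z⁻¹) (cocompact ℂ) (𝓝 (-BW 0)) :=
    ((continuous_BW.tendsto 0).comp h1).neg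
  rw [hz, neg_zero] at h2
  refine h2.congr ?_
  intro z
  rw [BW_inv, neg_neg]

end Pool.Agent.Work.MP_b30479_gtS.G2

end

section

/-!
# Functional equations of the Bloch-Wigner dilogarithm

Hints.  Fix all parameters but one and move the last one along a curve that avoids the finitely many
bad points and ends at a point where the identity is trivial (for `BW_seven`: `X → 0`, then
`mob Z X → 1`); the derivative vanishes by `hasDerivAt_BW` after factoring all arguments and `1 -`
arguments into `X`, `X - 1`, `X + Z`, `1 + Z X`, `(1 + Z + Z⁻¹) X + 1`.  The degenerate cases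
(`X = 0`, `X = 1`, `(1 + Z + Z⁻¹) X + 1 = 0`, `X = -Z^{±1}`) are true with `x / 0 = 0`: `X = 0` and
`X = 1` by hand, the others by continuity (`tendsto_BW_cocompact`, `continuous_BW`).
Both identities were tested numerically.
-/

namespace Pool.Agent.Work.MP_b30479_gtS.G2

open LT Filter Topology Finset

/-- the step of a chain with parameter `Z` -/
noncomputable def mob (Z X : ℂ) : ℂ := -(((1 + Z + Z⁻¹) * X + 1) / (X - 1))

/-- three of the four tetrahedra of an octahedron -/
noncomputable def gZ (Z X : ℂ) : ℝ := BW X + BW (-(Z / X)) + BW (-(1 / (Z * X)))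

namespace BWAux

/-- `f` does not vanish at `t`, `l = log |f|` and `θ = d arg f` -/
def HD (f : ℝ → ℂ) (t l θ : ℝ) : Prop :=
  f t ≠ 0 ∧ Real.log ‖f t‖ = l ∧ ∃ f' : ℂ, HasDerivAt f f' t ∧ (f' / f t).im = θ

lemma HD.congr {f g : ℝ → ℂ} {t l θ : ℝ} (h : HD g t l θ) (e : f =ᶠ[𝓝 t] g) : HD f t l θ := by
  obtain ⟨h0, h1, g', h2, h3⟩ := h
  have e0 : f t = g t := e.eq_of_nhds
  exact ⟨by rw [e0]; exact h0, by rw [e0]; exact h1, g', h2.congr_of_eventuallyEq e,
    by rw [e0]; exact h3⟩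

lemma HD.mul {f g : ℝ → ℂ} {t l θ l' θ' : ℝ} (hf : HD f t l θ) (hg : HD g t l' θ') :
    HD (fun s => f s * g s) t (l + l') (θ + θ') := by
  obtain ⟨h0, h1, f', h2, h3⟩ := hf
  obtain ⟨k0, k1, g', k2, k3⟩ := hg
  refine ⟨mul_ne_zero h0 k0, ?_, f' * g t + f t * g', h2.mul k2, ?_⟩
  · rw [norm_mul, Real.log_mul (norm_ne_zero_iff.mpr h0) (norm_ne_zero_iff.mpr k0), h1, k1]
  · have e : (f' * g t + f t * g') / (f t * g t) = f' / f t + g' / g t := by
      field_simp
    rw [e, Complex.add_im, h3, k3]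

lemma HD.inv {f : ℝ → ℂ} {t l θ : ℝ} (hf : HD f t l θ) : HD (fun s => (f s)⁻¹) t (-l) (-θ) := by
  obtain ⟨h0, h1, f', h2, h3⟩ := hf
  refine ⟨inv_ne_zero h0, ?_, -f' / f t ^ 2, h2.inv h0, ?_⟩
  · rw [norm_inv, Real.log_inv, h1]
  · have e : -f' / f t ^ 2 / (f t)⁻¹ = -(f' / f t) := by
      field_simp
    rw [e, Complex.neg_im, h3]

lemma HD.neg {f : ℝ → ℂ} {t l θ : ℝ} (hf : HD f t l θ) : HD (fun s => -f s) t l θ := by
  obtain ⟨h0, h1, f', h2, h3⟩ := hf
  refine ⟨neg_ne_zero.mpr h0, ?_, -f', h2.neg, ?_⟩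
  · rw [norm_neg, h1]
  · rw [neg_div_neg_eq, h3]

lemma HD.const {c : ℂ} (hc : c ≠ 0) (t : ℝ) : HD (fun _ => c) t (Real.log ‖c‖) 0 :=
  ⟨hc, rfl, 0, hasDerivAt_const t c, by simp⟩

lemma HD.of {f : ℝ → ℂ} {t : ℝ} {f' : ℂ} (h : HasDerivAt f f' t) (h0 : f t ≠ 0) :
    HD f t (Real.log ‖f t‖) (f' / f t).im :=
  ⟨h0, rfl, f', h, rfl⟩

lemma HD.eventually_ne {f : ℝ → ℂ} {t l θ : ℝ} (hf : HD f t l θ) : ∀ᶠ s in 𝓝 t, f s ≠ 0 := by
  obtain ⟨h0, _, f', h2, _⟩ := hf
  exact h2.continuousAt.eventually_ne h0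

/-- the derivative of `BW` -/
lemma HD.bw {f : ℝ → ℂ} {t l θ l' θ' : ℝ} (hf : HD f t l θ)
    (hg : HD (fun s => 1 - f s) t l' θ') :
    HasDerivAt (fun s => BW (f s)) (l * θ' - l' * θ) t := by
  obtain ⟨h0, h1, f', h2, h3⟩ := hf
  obtain ⟨k0, k1, g', k2, k3⟩ := hg
  have e : g' = -f' := k2.unique (h2.const_sub 1)
  have h4 : f t ≠ 1 := fun h => k0 (by simp only [h, sub_self])
  have h5 := hasDerivAt_BW h2 h0 h4
  simp only at k1 k3
  rw [h1, h3, k1, ← e, k3] at h5
  exact h5

lemma BW_zero : BW 0 = 0 := by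
  have := BW_inv 0
  rw [inv_zero] at this
  linarith

lemma BW_one : BW 1 = 0 := by
  have := BW_real 1
  simpa using this

lemma BW_div (a b : ℂ) : BW (a / b) = -BW (b / a) := by
  rw [← inv_div b a, BW_inv]

lemma cont_div {N D : ℂ → ℂ} {X : ℂ} (hN : ContinuousAt N X) (hD : ContinuousAt D X)
    (h : N X ≠ 0 ∨ D X ≠ 0) : ContinuousAt (fun Y => BW (N Y / D Y)) X := by
  rcases h with h | h
  · have e : (fun Y => BW (N Y / D Y)) = fun Y => -BW (D Y / N Y) := by
      funext Y
      exact BW_div _ _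
    rw [e]
    exact (continuous_BW.continuousAt.comp (hD.div hN h)).neg
  · exact continuous_BW.continuousAt.comp (hN.div hD h)

lemma eq_zero_of_dense {Φ : ℂ → ℝ} {D : Set ℂ} (hD : Dense D) (h0 : ∀ y ∈ D, Φ y = 0) {y : ℂ}
    (hc : ContinuousAt Φ y) : Φ y = 0 := by
  have h1 : (𝓝[D] y).NeBot := mem_closure_iff_nhdsWithin_neBot.mp (hD y)
  have h2 : Tendsto Φ (𝓝[D] y) (𝓝 (Φ y)) := hc.mono_left nhdsWithin_le_nhds
  have h3 : Tendsto Φ (𝓝[D] y) (𝓝 0) := by
    refine tendsto_const_nhds.congr' ?_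
    filter_upwards [self_mem_nhdsWithin] with z hz
    exact (h0 z hz).symm
  exact tendsto_nhds_unique h2 h3

lemma open_im (c : ℂ) (a : ℝ) : IsOpen {y : ℂ | (y * c).im ≠ a} := by
  have : Continuous fun y : ℂ => (y * c).im :=
    Complex.continuous_im.comp (continuous_id.mul continuous_const)
  exact isOpen_ne.preimage this

lemma dense_im {c : ℂ} (hc : c ≠ 0) (a : ℝ) : Dense {y : ℂ | (y * c).im ≠ a} := by
  rw [Metric.dense_iff]
  intro y r hr
  by_cases h : (y * c).im = a
  · have hc' : 0 < ‖c‖ := norm_pos_iff.mpr hc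
    refine ⟨y + (r / 2 * ‖c‖ : ℝ) * (Complex.I / c), ?_, ?_⟩
    · rw [Metric.mem_ball, dist_eq_norm, add_sub_cancel_left, norm_mul, norm_div, Complex.norm_I,
        Complex.norm_real, Real.norm_eq_abs, abs_of_pos (by positivity)]
      have : r / 2 * ‖c‖ * (1 / ‖c‖) = r / 2 := by field_simp
      rw [this]
      linarith
    · show ((y + (r / 2 * ‖c‖ : ℝ) * (Complex.I / c)) * c).im ≠ a
      have : (y + (r / 2 * ‖c‖ : ℝ) * (Complex.I / c)) * c = y * c + (r / 2 * ‖c‖ : ℝ) *
          Complex.I := by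
        field_simp
      rw [this, Complex.add_im, h, Complex.im_ofReal_mul, Complex.I_im, mul_one]
      have : 0 < r / 2 * ‖c‖ := by positivity
      linarith
  · exact ⟨y, Metric.mem_ball_self hr, h⟩

/-- a function with vanishing derivative on `(0, 1]` -/
lemma const_path {Ψ : ℝ → ℝ} (hc : ContinuousOn Ψ (Set.Icc 0 1))
    (hd : ∀ t ∈ Set.Ioo (0 : ℝ) 1, HasDerivAt Ψ 0 t) (h0 : Ψ 0 = 0) : Ψ 1 = 0 := by
  obtain ⟨c, _, h⟩ := exists_hasDerivAt_eq_slope Ψ (fun _ => 0) zero_lt_one hc hd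
  rw [h0] at h
  simpa using h.symm

/-- the five-term relation: the difference of the two sides -/
noncomputable def F5 (x y : ℂ) : ℝ :=
  BW x + BW y + BW (1 / (x * y)) - (BW ((1 - y⁻¹) / (1 - x)) + BW ((1 - x⁻¹) / (1 - y)))

lemma F5_cont {x y : ℂ} (_hx0 : x ≠ 0) (hx1 : x ≠ 1) (hy : y ≠ 0) : ContinuousAt (F5 x) y := by
  have c1 : ContinuousAt (fun y : ℂ => BW (1 / (x * y))) y :=
    cont_div continuousAt_const (continuousAt_const.mul continuousAt_id) (Or.inl one_ne_zero)
  have c2 : ContinuousAt (fun y : ℂ => BW ((1 - y⁻¹) / (1 - x))) y :=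
    cont_div (continuousAt_const.sub (continuousAt_id.inv₀ hy)) continuousAt_const
      (Or.inr (sub_ne_zero.mpr hx1.symm))
  have c3 : ContinuousAt (fun y : ℂ => BW ((1 - x⁻¹) / (1 - y))) y :=
    cont_div continuousAt_const (continuousAt_const.sub continuousAt_id)
      (Or.inl (sub_ne_zero.mpr fun h => hx1 (by rw [← inv_inv x, ← h, inv_one])))
  exact ((continuousAt_const.add continuous_BW.continuousAt).add c1).sub (c2.add c3)

lemma F5_deriv {x : ℂ} (hx0 : x ≠ 0) (hx1 : x ≠ 1) {y : ℝ → ℂ} {y' : ℂ} {t : ℝ}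
    (hy : HasDerivAt y y' t) (h0 : y t ≠ 0) (h1 : 1 - y t ≠ 0) (h2 : 1 - x * y t ≠ 0) :
    HasDerivAt (fun s => F5 x (y s)) 0 t := by
  have a : HD y t _ _ := HD.of hy h0
  have b : HD (fun s => 1 - y s) t _ _ := HD.of (hy.const_sub 1) h1
  have c : HD (fun s => 1 - x * y s) t _ _ := HD.of ((hy.const_mul x).const_sub 1) h2
  have p : HD (fun _ => x) t _ _ := HD.const hx0 t
  have hq0 : 1 - x ≠ 0 := sub_ne_zero.mpr hx1.symm
  have q : HD (fun _ => 1 - x) t _ _ := HD.const hq0 t
  have na := a.eventually_ne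
  have nb := b.eventually_ne
  have d2 := HD.bw a b
  -- the third term
  have d3 := HD.bw (f := fun s => 1 / (x * y s))
    ((p.mul a).inv.congr (Eventually.of_forall fun s => one_div _))
    ((c.neg.mul (p.mul a).inv).congr (by
      filter_upwards [na] with s hs
      field_simp
      ring))
  have d4 := HD.bw (f := fun s => (1 - (y s)⁻¹) / (1 - x))
    ((b.neg.mul (a.mul q).inv).congr (by
      filter_upwards [na] with s hs
      field_simp
      ring))
    ((c.mul (a.mul q).inv).congr (by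
      filter_upwards [na] with s hs
      field_simp
      ring))
  have d5 := HD.bw (f := fun s => (1 - x⁻¹) / (1 - y s))
    ((q.neg.mul (p.mul b).inv).congr (by
      filter_upwards [nb] with s hs
      field_simp
      ring))
    ((c.mul (p.mul b).inv).congr (by
      filter_upwards [nb] with s hs
      field_simp
      ring))
  have d := (((hasDerivAt_const t (BW x)).add d2).add d3).sub (d4.add d5)
  refine (d.congr_deriv ?_)
  ring

lemma F5_good {x : ℂ} (hx0 : x ≠ 0) (hx1 : x ≠ 1) {y : ℂ} (h1 : (y * 1).im ≠ 0)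
    (h2 : (y * (x⁻¹ - 1)⁻¹).im ≠ ((x⁻¹ - 1)⁻¹).im) : F5 x y = 0 := by
  rw [mul_one] at h1
  have hk : x⁻¹ - 1 ≠ 0 := sub_ne_zero.mpr fun h => hx1 (by rw [← inv_inv x, h, inv_one])
  set Y : ℝ → ℂ := fun s => 1 + s * (y - 1) with hY
  have him : ∀ s : ℝ, (Y s).im = s * y.im := by
    intro s
    simp [hY]
  have hYc : Continuous Y := by
    rw [hY]
    fun_prop
  have hYd : ∀ t : ℝ, HasDerivAt Y (y - 1) t := by
    intro t
    have := ((Complex.ofRealCLM.hasDerivAt (x := t)).mul_const (y - 1)).const_add 1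
    simpa [hY] using this
  have hY0 : ∀ s : ℝ, Y s ≠ 0 := by
    intro s hs
    have h := him s
    rw [hs, Complex.zero_im] at h
    rcases mul_eq_zero.mp h.symm with h3 | h3
    · rw [hY] at hs
      simp only [h3, Complex.ofReal_zero, zero_mul, add_zero] at hs
      exact one_ne_zero hs
    · exact h1 h3
  have key := const_path (Ψ := fun s => F5 x (Y s)) ?_ ?_ ?_
  · simp only [hY, Complex.ofReal_one, one_mul, add_sub_cancel] at key
    exact key
  · intro s _
    exact ((F5_cont hx0 hx1 (hY0 s)).comp hYc.continuousAt).continuousWithinAt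
  · intro t ht
    refine F5_deriv hx0 hx1 (hYd t) (hY0 t) ?_ ?_
    · intro h
      have h3 := him t
      have h4 : Y t = 1 := (sub_eq_zero.mp h).symm
      rw [h4, Complex.one_im] at h3
      rcases mul_eq_zero.mp h3.symm with h5 | h5
      · exact ht.1.ne' h5
      · exact h1 h5
    · intro h
      have h3 : x * Y t = 1 := (sub_eq_zero.mp h).symm
      have h4 : Y t = x⁻¹ := by
        exact eq_inv_of_mul_eq_one_right h3
      have h5 : (t : ℂ) * (y - 1) = x⁻¹ - 1 := by
        rw [← h4, hY]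
        ring
      have h6 : (t : ℂ) * ((y - 1) * (x⁻¹ - 1)⁻¹) = 1 := by
        rw [← mul_assoc, h5, mul_inv_cancel₀ hk]
      have h7 := congrArg Complex.im h6
      rw [Complex.im_ofReal_mul, Complex.one_im] at h7
      rcases mul_eq_zero.mp h7 with h8 | h8
      · exact ht.1.ne' h8
      · rw [sub_mul, one_mul, Complex.sub_im] at h8
        exact h2 (sub_eq_zero.mp h8)
  · simp only [hY, Complex.ofReal_zero, zero_mul, add_zero, F5, BW_one, mul_one, inv_one, sub_self,
      zero_div, div_zero, BW_zero, one_div, BW_inv]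
    ring

end BWAux

open BWAux in
/-- the five-term relation -/
theorem BW_five {x y : ℂ} (hx0 : x ≠ 0) (hy0 : y ≠ 0) :
    BW x + BW y + BW (1 / (x * y)) = BW ((1 - y⁻¹) / (1 - x)) + BW ((1 - x⁻¹) / (1 - y)) := by
  rcases eq_or_ne x 1 with rfl | hx1
  · rw [sub_self, div_zero, inv_one, sub_self, zero_div, BW_zero, one_mul, one_div, BW_inv, BW_one]
    ring
  · have hk : x⁻¹ - 1 ≠ 0 := sub_ne_zero.mpr fun h => hx1 (by rw [← inv_inv x, h, inv_one])
    have hD := (dense_im (c := 1) one_ne_zero 0).inter_of_isOpen_left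
      (dense_im (inv_ne_zero hk) ((x⁻¹ - 1)⁻¹).im) (open_im 1 0)
    have := eq_zero_of_dense hD (fun y hy => F5_good hx0 hx1 hy.1 hy.2) (F5_cont hx0 hx1 hy0)
    exact sub_eq_zero.mp this

theorem gZ_inv (Z : ℂ) (X : ℂ) : gZ Z X⁻¹ = -gZ Z X := by
  have e1 : -(Z / X⁻¹) = -(Z * X) := by rw [div_inv_eq_mul]
  have e2 : -(1 / (Z * X⁻¹)) = -(X / Z) := by rw [one_div, mul_inv, inv_inv, mul_comm, div_eq_mul_inv]
  have e3 : -(Z / X) = (-(X / Z))⁻¹ := by rw [inv_neg, inv_div]
  have e4 : -(1 / (Z * X)) = (-(Z * X))⁻¹ := by rw [inv_neg, one_div]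
  rw [gZ, gZ, e1, e2, e3, e4, BW_inv, BW_inv, BW_inv]
  ring

namespace BWAux

/-- the seven-term relation: the difference of the two sides -/
noncomputable def F7 (Z X : ℂ) : ℝ := gZ Z X - gZ Z (mob Z X) - BW (mob Z X / X)

lemma gmob (Z X : ℂ) : gZ Z (mob Z X) =
    BW (-((1 + Z + Z⁻¹) * X + 1) / (X - 1)) + BW (Z * (X - 1) / ((1 + Z + Z⁻¹) * X + 1)) +
      BW ((X - 1) / (Z * ((1 + Z + Z⁻¹) * X + 1))) := by
  have e1 : mob Z X = -((1 + Z + Z⁻¹) * X + 1) / (X - 1) := by rw [mob, neg_div]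
  have e2 : -(Z / mob Z X) = Z * (X - 1) / ((1 + Z + Z⁻¹) * X + 1) := by
    rw [mob, div_neg, neg_neg, div_div_eq_mul_div]
  have e3 : -(1 / (Z * mob Z X)) = (X - 1) / (Z * ((1 + Z + Z⁻¹) * X + 1)) := by
    rw [mob, mul_neg, div_neg, neg_neg, mul_div_assoc', one_div_div]
  rw [gZ, e2, e3, ← e1]

lemma rmob (Z X : ℂ) : mob Z X / X = -((1 + Z + Z⁻¹) * X + 1) / ((X - 1) * X) := by
  rw [mob, ← neg_div, div_div]

lemma F7_cont {Z : ℂ} (hZ : Z ≠ 0) (hZ1 : 1 + Z ≠ 0) (X : ℂ) : ContinuousAt (F7 Z) X := by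
  have cI : ContinuousAt (fun Y : ℂ => Y) X := continuousAt_id
  have cA : ContinuousAt (fun Y : ℂ => (1 + Z + Z⁻¹) * Y + 1) X :=
    (continuousAt_const.mul cI).add continuousAt_const
  have cM : ContinuousAt (fun Y : ℂ => Y - 1) X := cI.sub continuousAt_const
  -- the two polynomials have no common zero
  have hne : X - 1 ≠ 0 ∨ (1 + Z + Z⁻¹) * X + 1 ≠ 0 := by
    by_cases h : X - 1 = 0
    · right
      rw [sub_eq_zero.mp h]
      have : (1 + Z + Z⁻¹) * 1 + 1 = (1 + Z) ^ 2 / Z := by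
        field_simp
        ring
      rw [this]
      exact div_ne_zero (pow_ne_zero 2 hZ1) hZ
    · exact Or.inl h
  have c1 : ContinuousAt (fun Y => BW Y) X := continuous_BW.continuousAt
  have c2 : ContinuousAt (fun Y : ℂ => BW (-(Z / Y))) X := by
    have := cont_div (N := fun _ => -Z) (X := X) continuousAt_const cI (Or.inl (neg_ne_zero.mpr hZ))
    simpa only [neg_div] using this
  have c3 : ContinuousAt (fun Y : ℂ => BW (-(1 / (Z * Y)))) X := by
    have := cont_div (N := fun _ => (-1 : ℂ)) (D := fun Y => Z * Y) (X := X) continuousAt_const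
      (continuousAt_const.mul cI) (Or.inl (neg_ne_zero.mpr one_ne_zero))
    simpa only [neg_div] using this
  have c4 : ContinuousAt (fun Y : ℂ => BW (-((1 + Z + Z⁻¹) * Y + 1) / (Y - 1))) X :=
    cont_div cA.neg cM (hne.symm.imp neg_ne_zero.mpr id)
  have c5 : ContinuousAt (fun Y : ℂ => BW (Z * (Y - 1) / ((1 + Z + Z⁻¹) * Y + 1))) X :=
    cont_div (continuousAt_const.mul cM) cA (hne.imp (mul_ne_zero hZ) id)
  have c6 : ContinuousAt (fun Y : ℂ => BW ((Y - 1) / (Z * ((1 + Z + Z⁻¹) * Y + 1)))) X :=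
    cont_div cM (continuousAt_const.mul cA) (hne.imp id (mul_ne_zero hZ))
  have c7 : ContinuousAt (fun Y : ℂ => BW (-((1 + Z + Z⁻¹) * Y + 1) / ((Y - 1) * Y))) X := by
    refine cont_div cA.neg (cM.mul cI) ?_
    by_cases h : X = 0
    · left
      rw [h]
      simp
    · exact (hne.imp (fun h1 => mul_ne_zero h1 h) neg_ne_zero.mpr).symm
  have e : F7 Z = fun Y => (BW Y + BW (-(Z / Y)) + BW (-(1 / (Z * Y)))) -
      (BW (-((1 + Z + Z⁻¹) * Y + 1) / (Y - 1)) + BW (Z * (Y - 1) / ((1 + Z + Z⁻¹) * Y + 1)) +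
      BW ((Y - 1) / (Z * ((1 + Z + Z⁻¹) * Y + 1)))) -
      BW (-((1 + Z + Z⁻¹) * Y + 1) / ((Y - 1) * Y)) := by
    funext Y
    rw [F7, gmob, rmob, gZ]
  rw [e]
  exact (((c1.add c2).add c3).sub ((c4.add c5).add c6)).sub c7

lemma F7_deriv {Z : ℂ} (hZ : Z ≠ 0) (hZ1 : 1 + Z ≠ 0) {X : ℝ → ℂ} {X' : ℂ} {t : ℝ}
    (hX : HasDerivAt X X' t) (h0 : X t ≠ 0) (h1 : X t - 1 ≠ 0) (h2 : X t + Z ≠ 0)
    (h3 : 1 + Z * X t ≠ 0) (h4 : (1 + Z + Z⁻¹) * X t + 1 ≠ 0) :
    HasDerivAt (fun s => F7 Z (X s)) 0 t := by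
  have x : HD X t _ _ := HD.of hX h0
  have u : HD (fun s => X s - 1) t _ _ := HD.of (hX.sub_const 1) h1
  have v : HD (fun s => X s + Z) t _ _ := HD.of (hX.add_const Z) h2
  have w : HD (fun s => 1 + Z * X s) t _ _ := HD.of ((hX.const_mul Z).const_add 1) h3
  have a : HD (fun s => (1 + Z + Z⁻¹) * X s + 1) t _ _ :=
    HD.of ((hX.const_mul (1 + Z + Z⁻¹)).add_const 1) h4
  have z : HD (fun _ => Z) t _ _ := HD.const hZ t
  have e : HD (fun _ => 1 + Z) t _ _ := HD.const hZ1 t
  have nx := x.eventually_ne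
  have nu := u.eventually_ne
  have na := a.eventually_ne
  have d1 := HD.bw x (u.neg.congr (Eventually.of_forall fun s => (neg_sub _ _).symm))
  have d2 := HD.bw (f := fun s => -(Z / X s))
    ((z.mul x.inv).neg.congr (Eventually.of_forall fun s => by simp only [div_eq_mul_inv]))
    ((v.mul x.inv).congr (by
      filter_upwards [nx] with s hs
      field_simp
      ring))
  have d3 := HD.bw (f := fun s => -(1 / (Z * X s)))
    ((z.mul x).inv.neg.congr (Eventually.of_forall fun s => by simp only [one_div]))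
    ((w.mul (z.mul x).inv).congr (by
      filter_upwards [nx] with s hs
      field_simp
      ring))
  have d4 := HD.bw (f := fun s => -((1 + Z + Z⁻¹) * X s + 1) / (X s - 1))
    ((a.neg.mul u.inv).congr (Eventually.of_forall fun s => by simp only [div_eq_mul_inv]))
    (((x.mul (e.mul e)).mul (z.mul u).inv).congr (by
      filter_upwards [nu] with s hs
      field_simp
      ring))
  have d5 := HD.bw (f := fun s => Z * (X s - 1) / ((1 + Z + Z⁻¹) * X s + 1))
    (((z.mul u).mul a.inv).congr (Eventually.of_forall fun s => by simp only [div_eq_mul_inv]))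
    (((e.mul v).mul (z.mul a).inv).congr (by
      filter_upwards [na] with s hs
      have hs' : Z * ((1 + Z + Z⁻¹) * X s + 1) ≠ 0 := mul_ne_zero hZ hs
      rw [← div_eq_mul_inv, eq_div_iff hs', sub_mul, div_mul_eq_mul_div, sub_eq_iff_eq_add]
      rw [eq_comm, ← eq_sub_iff_add_eq']
      rw [div_eq_iff hs]
      field_simp
      ring))
  have d6 := HD.bw (f := fun s => (X s - 1) / (Z * ((1 + Z + Z⁻¹) * X s + 1)))
    ((u.mul (z.mul a).inv).congr (Eventually.of_forall fun s => by simp only [div_eq_mul_inv]))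
    (((e.mul w).mul (z.mul a).inv).congr (by
      filter_upwards [na] with s hs
      have hs' : Z * ((1 + Z + Z⁻¹) * X s + 1) ≠ 0 := mul_ne_zero hZ hs
      rw [← div_eq_mul_inv, eq_div_iff hs', sub_mul, div_mul_cancel₀ _ hs']
      field_simp
      ring))
  have d7 := HD.bw (f := fun s => -((1 + Z + Z⁻¹) * X s + 1) / ((X s - 1) * X s))
    ((a.neg.mul (u.mul x).inv).congr (Eventually.of_forall fun s => by simp only [div_eq_mul_inv]))
    (((v.mul w).mul (z.mul (u.mul x)).inv).congr (by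
      filter_upwards [nu, nx] with s hs hs'
      field_simp
      ring))
  have d := (((d1.add d2).add d3).sub ((d4.add d5).add d6)).sub d7
  have e0 : (fun s => F7 Z (X s)) = fun s => (BW (X s) + BW (-(Z / X s)) +
      BW (-(1 / (Z * X s)))) - (BW (-((1 + Z + Z⁻¹) * X s + 1) / (X s - 1)) +
      BW (Z * (X s - 1) / ((1 + Z + Z⁻¹) * X s + 1)) +
      BW ((X s - 1) / (Z * ((1 + Z + Z⁻¹) * X s + 1)))) -
      BW (-((1 + Z + Z⁻¹) * X s + 1) / ((X s - 1) * X s)) := by
    funext s
    rw [F7, gmob, rmob, gZ]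
  rw [e0]
  refine (d.congr_deriv ?_)
  ring

lemma F7_good {Z : ℂ} (hZ : Z ≠ 0) (hZ1 : 1 + Z ≠ 0) {X : ℂ} (h1 : (X * 1).im ≠ 0)
    (h2 : (X * Z).im ≠ 0) (h3 : (X * Z⁻¹).im ≠ 0)
    (h4 : 1 + Z + Z⁻¹ = 0 ∨ (X * (1 + Z + Z⁻¹)).im ≠ 0) : F7 Z X = 0 := by
  rw [mul_one] at h1
  set Y : ℝ → ℂ := fun s => s * X with hY
  have hYc : Continuous Y := by
    rw [hY]
    fun_prop
  have hYd : ∀ t : ℝ, HasDerivAt Y X t := by
    intro t
    have := (Complex.ofRealCLM.hasDerivAt (x := t)).mul_const X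
    simpa [hY] using this
  -- a multiple `c Y t` is not real
  have hr : ∀ (c : ℂ) (t : ℝ), 0 < t → (X * c).im ≠ 0 → ∀ r : ℝ, c * Y t ≠ r := by
    intro c t ht hc r h
    have h5 : (t : ℂ) * (X * c) = r := by
      rw [← h, hY]
      ring
    have h6 := congrArg Complex.im h5
    rw [Complex.im_ofReal_mul, Complex.ofReal_im] at h6
    rcases mul_eq_zero.mp h6 with h7 | h7
    · exact ht.ne' h7
    · exact hc h7
  have key := const_path (Ψ := fun s => F7 Z (Y s)) ?_ ?_ ?_
  · simp only [hY, Complex.ofReal_one, one_mul] at key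
    exact key
  · intro s _
    exact ((F7_cont hZ hZ1 (Y s)).comp hYc.continuousAt).continuousWithinAt
  · intro t ht
    refine F7_deriv hZ hZ1 (hYd t) ?_ ?_ ?_ ?_ ?_
    · intro h
      exact hr 1 t ht.1 (by rwa [mul_one]) 0 (by rw [h, mul_zero, Complex.ofReal_zero])
    · intro h
      exact hr 1 t ht.1 (by rwa [mul_one]) 1 (by
        rw [sub_eq_zero.mp h, mul_one, Complex.ofReal_one])
    · intro h
      refine hr Z⁻¹ t ht.1 h3 (-1) ?_
      rw [eq_neg_of_add_eq_zero_left h, mul_neg, inv_mul_cancel₀ hZ, Complex.ofReal_neg,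
        Complex.ofReal_one]
    · intro h
      refine hr Z t ht.1 h2 (-1) ?_
      rw [eq_neg_of_add_eq_zero_right h, Complex.ofReal_neg, Complex.ofReal_one]
    · intro h
      rcases h4 with h4 | h4
      · rw [h4, zero_mul, zero_add] at h
        exact one_ne_zero h
      · refine hr (1 + Z + Z⁻¹) t ht.1 h4 (-1) ?_
        rw [eq_neg_of_add_eq_zero_left h, Complex.ofReal_neg, Complex.ofReal_one]
  · simp only [hY, Complex.ofReal_zero, zero_mul, F7, gZ, mob, mul_zero, zero_add, zero_sub,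
      div_zero, neg_zero, BW_zero, div_neg, div_one, neg_neg, BW_one, mul_one, one_div,
      sub_zero, add_zero]
    have : -Z⁻¹ = (-Z)⁻¹ := by rw [inv_neg]
    rw [this, BW_inv]
    ring

end BWAux

open BWAux in
theorem BW_seven {Z : ℂ} (hZ : Z ≠ 0) (X : ℂ) :
    gZ Z X - gZ Z (mob Z X) = BW (mob Z X / X) := by
  by_cases hZ1 : 1 + Z = 0
  · -- `Z = -1`
    have hZ2 : Z = -1 := eq_neg_of_add_eq_zero_right hZ1
    subst hZ2
    have h1 : gZ (-1) X = BW X⁻¹ := by
      have e1 : -((-1 : ℂ) / X) = X⁻¹ := by rw [neg_div, neg_neg, one_div]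
      have e2 : -(1 / ((-1 : ℂ) * X)) = X⁻¹ := by rw [neg_one_mul, div_neg, neg_neg, one_div]
      rw [gZ, e1, e2, BW_inv]
      ring
    have h2 : gZ (-1) (1 : ℂ) = 0 := by
      rw [gZ]
      norm_num
      rw [BW_one]
      norm_num
    have h3 : gZ (-1) (0 : ℂ) = 0 := by
      rw [gZ]
      norm_num
      rw [BW_zero]
      norm_num
    by_cases hX : X = 1
    · subst hX
      have h4 : mob (-1) 1 = 0 := by
        rw [mob]
        norm_num
      rw [h4, h2, h3, zero_div, BW_zero, sub_zero]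
    · have h4 : mob (-1) X = 1 := by
        have h5 : X - 1 ≠ 0 := sub_ne_zero.mpr hX
        rw [mob]
        have h6 : (1 + (-1 : ℂ) + (-1)⁻¹) * X + 1 = -(X - 1) := by
          rw [inv_neg, inv_one]
          ring
        rw [h6, neg_div, neg_neg, div_self h5]
      rw [h4, h1, h2, sub_zero, one_div]
  · have hd1 := dense_im (c := 1) one_ne_zero 0
    have hd2 := dense_im hZ 0
    have hd3 := dense_im (inv_ne_zero hZ) 0
    have h12 := hd1.inter_of_isOpen_left hd2 (open_im 1 0)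
    have h123 := h12.inter_of_isOpen_left hd3 ((open_im 1 0).inter (open_im Z 0))
    have ho := ((open_im 1 0).inter (open_im Z 0)).inter (open_im Z⁻¹ 0)
    by_cases hκ : 1 + Z + Z⁻¹ = 0
    · have := eq_zero_of_dense h123
        (fun y hy => F7_good hZ hZ1 hy.1.1 hy.1.2 hy.2 (Or.inl hκ)) (F7_cont hZ hZ1 X)
      exact sub_eq_zero.mp this
    · have hd := h123.inter_of_isOpen_left (dense_im hκ 0) ho
      have := eq_zero_of_dense hd
        (fun y hy => F7_good hZ hZ1 hy.1.1.1 hy.1.1.2 hy.1.2 (Or.inr hy.2)) (F7_cont hZ hZ1 X)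
      exact sub_eq_zero.mp this

end Pool.Agent.Work.MP_b30479_gtS.G2

end

section

/-!
# Sums over lattice points and integrals over products of paths

`itS n N G` is the sum of `G` over the points `(y_0/n, ..., y_{N-1}/n)`, `0 ≤ y_j < n`, and
`itR N P F` is an iterated integral over a product of weighted paths.  If in every single coordinate
the sum is equal to the path integral up to an error that is controlled by the values of the
(holomorphic) function on an error set, then the same is true for the multiple sum (`tensor`).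
-/

namespace Pool.Agent.Work.MP_b30479_gtS.G2

open Finset MeasureTheory

/-- the sum over the lattice points -/
noncomputable def itS (n : ℕ) : (N : ℕ) → ((Fin N → ℂ) → ℂ) → ℂ
  | 0, G => G Fin.elim0
  | N + 1, G => ∑ y ∈ range n, itS n N (fun v => G (Fin.cons ((y : ℂ) / n) v))

/-- a path `x ↦ γ x`, `a ≤ x ≤ b`, with a weight `ω` -/
structure PathW where
  a : ℝ
  b : ℝ
  hab : a ≤ b
  γ : ℝ → ℂ
  ω : ℝ → ℂ
  cont : Continuous γ
  int : IntervalIntegrable ω volume a b

/-- the iterated integral -/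
noncomputable def itR : (N : ℕ) → (Fin N → PathW) → ((Fin N → ℝ) → ℂ) → ℂ
  | 0, _, F => F Fin.elim0
  | N + 1, P, F => ∫ x in (P 0).a..(P 0).b,
      itR N (Fin.tail P) (fun t => F (Fin.cons x t)) * (P 0).ω x

/-- the point on the product of the paths -/
def pos {N : ℕ} (P : Fin N → PathW) (x : Fin N → ℝ) : Fin N → ℂ := fun j => (P j).γ (x j)

/-- the parameter box -/
def bx {N : ℕ} (P : Fin N → PathW) : Set (Fin N → ℝ) :=
  Set.univ.pi fun j => Set.Icc (P j).a (P j).b

/-- the lattice points of one coordinate -/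
def pts (n : ℕ) : Set ℂ := {w | ∃ y < n, w = (y : ℂ) / n}

/-- separate holomorphy of `G` in the coordinate `j` when the other coordinates are in `R` -/
def Sep {N : ℕ} (R U : Fin N → Set ℂ) (G : (Fin N → ℂ) → ℂ) : Prop :=
  ∀ v : Fin N → ℂ, (∀ i, v i ∈ R i) → ∀ j,
    DifferentiableOn ℂ (fun w => G (Function.update v j w)) (U j)

/-- the sum over one coordinate is bounded by the values on `S` with the penalty `p` -/
def Bound1 (n : ℕ) (K : ℝ) (U S : Set ℂ) (p : ℂ → ℝ) : Prop :=
  ∀ g : ℂ → ℂ, DifferentiableOn ℂ g U → ∀ B, 0 ≤ B → (∀ w ∈ S, p w * ‖g w‖ ≤ B) →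
    ‖∑ y ∈ range n, g ((y : ℂ) / n)‖ ≤ K * B

/-- the sum over one coordinate is the path integral up to the values on `E` with penalty `q` -/
def Main1 (n : ℕ) (K : ℝ) (U : Set ℂ) (P : PathW) (E : Set ℂ) (q : ℂ → ℝ) : Prop :=
  ∀ g : ℂ → ℂ, DifferentiableOn ℂ g U → ∀ B, 0 ≤ B → (∀ w ∈ E, q w * ‖g w‖ ≤ B) →
    ‖∑ y ∈ range n, g ((y : ℂ) / n) - ∫ x in P.a..P.b, g (P.γ x) * P.ω x‖ ≤ K * B

theorem itS_diff (n : ℕ) {U : Set ℂ} : ∀ (N : ℕ) (H : ℂ → (Fin N → ℂ) → ℂ),
    (∀ v : Fin N → ℂ, (∀ i, v i ∈ pts n) → DifferentiableOn ℂ (fun w => H w v) U) →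
    DifferentiableOn ℂ (fun w => itS n N (H w)) U
  | 0, H, h => by simpa [itS] using h Fin.elim0 (fun i => i.elim0)
  | N + 1, H, h => by
      simp only [itS]
      apply DifferentiableOn.fun_sum
      intro y hy
      apply itS_diff n N (fun w v => H w (Fin.cons ((y : ℂ) / n) v))
      intro v hv
      apply h
      intro i
      refine Fin.cases ?_ ?_ i
      · exact ⟨y, mem_range.mp hy, by simp⟩
      · intro i
        simpa using hv i

theorem itS_smul (n : ℕ) (c : ℂ) : ∀ (N : ℕ) (G : (Fin N → ℂ) → ℂ),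
    itS n N (fun v => c * G v) = c * itS n N G
  | 0, G => rfl
  | N + 1, G => by
      simp only [itS]
      rw [mul_sum]
      apply sum_congr rfl
      intro y _
      exact itS_smul n c N _

theorem Sep.cons {N : ℕ} {R U : Fin (N + 1) → Set ℂ} {G : (Fin (N + 1) → ℂ) → ℂ} (h : Sep R U G)
    {w : ℂ} (hw : w ∈ R 0) : Sep (Fin.tail R) (Fin.tail U) (fun v => G (Fin.cons w v)) := by
  intro v hv j
  have h1 := h (Fin.cons w v) (fun i => by
    refine Fin.cases ?_ ?_ i
    · simpa using hw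
    · intro i
      rw [Fin.cons_succ]
      exact hv i) j.succ
  have h2 : (fun u => G (Function.update (Fin.cons w v) j.succ u)) =
      fun u => G (Fin.cons w (Function.update v j u)) := by
    funext u
    rw [Fin.cons_update]
  rw [h2] at h1
  exact h1

theorem Sep.head {N : ℕ} {R U : Fin (N + 1) → Set ℂ} {G : (Fin (N + 1) → ℂ) → ℂ} (h : Sep R U G)
    {x : ℂ} (hx : x ∈ R 0) {v : Fin N → ℂ} (hv : ∀ i, v i ∈ R i.succ) :
    DifferentiableOn ℂ (fun w => G (Fin.cons w v)) (U 0) := by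
  have h1 := h (Fin.cons x v) (fun i => by
    refine Fin.cases ?_ ?_ i
    · simpa using hx
    · intro i
      simpa using hv i) 0
  have h2 : (fun u => G (Function.update (Fin.cons x v : Fin (N + 1) → ℂ) 0 u)) =
      fun u => G (Fin.cons u v) := by
    funext u
    rw [Fin.update_cons_zero]
  rw [h2] at h1
  exact h1

/-- the multiple sum is bounded by the values on the product of the sets -/
theorem itS_bound {n : ℕ} (hn : 0 < n) {K : ℝ} (hK : 0 ≤ K) : ∀ (N : ℕ)
    (S : Fin N → (Fin N → ℂ) → Set ℂ) (p : Fin N → (Fin N → ℂ) → ℂ → ℝ)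
    (_ : ∀ j v v', (∀ i < j, v i = v' i) → S j v = S j v')
    (_ : ∀ j v v', (∀ i < j, v i = v' i) → p j v = p j v')
    (_ : ∀ j v, ∀ w ∈ S j v, 0 ≤ p j v w)
    (R U : Fin N → Set ℂ) (_ : ∀ j v, S j v ⊆ R j) (_ : ∀ j, pts n ⊆ R j)
    (_ : ∀ j v, Bound1 n K (U j) (S j v) (p j v))
    (G : (Fin N → ℂ) → ℂ) (_ : Sep R U G) (c B : ℝ) (_ : 0 ≤ c) (_ : 0 ≤ B)
    (_ : ∀ v, (∀ j, v j ∈ S j v) → c * (∏ j, p j v (v j)) * ‖G v‖ ≤ B),
    c * ‖itS n N G‖ ≤ K ^ N * B
  | 0, S, p, _, _, _, R, U, _, _, _, G, _, c, B, _, _, hB => by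
      have := hB Fin.elim0 (fun i => i.elim0)
      simpa [itS] using this
  | N + 1, S, p, hS, hp, hp0, R, U, hSR, hpt, h1, G, hG, c, B, hc, hB0, hB => by
      set v0 : Fin (N + 1) → ℂ := fun _ => 0 with hv0
      have e0 : ∀ v, S 0 v = S 0 v0 := fun v => hS 0 v v0 (fun i hi => absurd hi (Fin.not_lt_zero i))
      have e0' : ∀ v, p 0 v = p 0 v0 := fun v =>
        hp 0 v v0 (fun i hi => absurd hi (Fin.not_lt_zero i))
      have hpt0 : ((0 : ℕ) : ℂ) / n ∈ R 0 := hpt 0 ⟨0, hn, rfl⟩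
      have hd : DifferentiableOn ℂ (fun w => itS n N (fun v => G (Fin.cons w v))) (U 0) := by
        apply itS_diff
        intro v hv
        exact hG.head hpt0 (fun i => hpt _ (hv i))
      have hd' : DifferentiableOn ℂ (fun w => (c : ℂ) * itS n N (fun v => G (Fin.cons w v))) (U 0) :=
        hd.const_mul _
      have h2 := h1 0 v0 _ hd' (K ^ N * B) (by positivity) (by
        intro w hw
        have hw' : w ∈ S 0 v0 := hw
        have hpw := hp0 0 v0 w hw'
        have ih := itS_bound hn hK N (fun j v => S j.succ (Fin.cons w v))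
          (fun j v => p j.succ (Fin.cons w v))
          (fun j v v' h => hS _ _ _ (by
            intro i
            refine Fin.cases ?_ ?_ i
            · intro _; simp
            · intro i hi
              simpa using h i (Fin.succ_lt_succ_iff.mp hi)))
          (fun j v v' h => hp _ _ _ (by
            intro i
            refine Fin.cases ?_ ?_ i
            · intro _; simp
            · intro i hi
              simpa using h i (Fin.succ_lt_succ_iff.mp hi)))
          (fun j v u hu => hp0 _ _ u hu) (Fin.tail R) (Fin.tail U)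
          (fun j v => hSR _ _) (fun j => hpt _) (fun j v => h1 _ _) (fun v => G (Fin.cons w v))
          (hG.cons (hSR 0 v0 hw')) (c * p 0 v0 w) B (by positivity) hB0 (by
            intro v hv
            have h3 := hB (Fin.cons w v) (by
              intro j
              refine Fin.cases ?_ ?_ j
              · rw [e0]
                simpa using hw'
              · intro j
                simpa using hv j)
            rw [Fin.prod_univ_succ, e0'] at h3
            simp only [Fin.cons_zero, Fin.cons_succ] at h3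
            calc c * p 0 v0 w * (∏ j, p j.succ (Fin.cons w v) (v j)) * ‖G (Fin.cons w v)‖
                = c * (p 0 v0 w * ∏ j : Fin N, p j.succ (Fin.cons w v) (v j)) *
                  ‖G (Fin.cons w v)‖ := by ring
              _ ≤ B := h3)
        rw [norm_mul, Complex.norm_real, Real.norm_of_nonneg hc]
        calc p 0 v0 w * (c * ‖itS n N (fun v => G (Fin.cons w v))‖)
            = c * p 0 v0 w * ‖itS n N (fun v => G (Fin.cons w v))‖ := by ring
          _ ≤ K ^ N * B := ih)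
      have h4 : ∑ y ∈ range n, (c : ℂ) * itS n N (fun v => G (Fin.cons ((y : ℂ) / n) v)) =
          (c : ℂ) * itS n (N + 1) G := by
        simp only [itS]
        rw [mul_sum]
      rw [h4, norm_mul, Complex.norm_real, Real.norm_of_nonneg hc] at h2
      calc c * ‖itS n (N + 1) G‖ ≤ K * (K ^ N * B) := h2
        _ = K ^ (N + 1) * B := by ring

/-! ### the iterated integral -/

theorem itR_congr : ∀ (N : ℕ) (P : Fin N → PathW) (F F' : (Fin N → ℝ) → ℂ),
    (∀ x ∈ bx P, F x = F' x) → itR N P F = itR N P F'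
  | 0, P, F, F', h => h _ (by simp [bx])
  | N + 1, P, F, F', h => by
      simp only [itR]
      apply intervalIntegral.integral_congr
      intro x hx
      rw [Set.uIcc_of_le (P 0).hab] at hx
      simp only
      rw [itR_congr N (Fin.tail P) (fun t => F (Fin.cons x t)) (fun t => F' (Fin.cons x t))]
      intro t ht
      apply h
      intro j _
      refine Fin.cases ?_ ?_ j
      · simpa using hx
      · intro j
        have := ht j (Set.mem_univ j)
        simpa [Fin.tail] using this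

theorem itR_cont {X : Type} [TopologicalSpace X] [FirstCountableTopology X]
    [LocallyCompactSpace X] : ∀ (N : ℕ) (P : Fin N → PathW) (H : X → (Fin N → ℝ) → ℂ),
    Continuous (fun q : X × (Fin N → ℝ) => H q.1 q.2) → Continuous fun x => itR N P (H x)
  | 0, P, H, h => by
      simp only [itR]
      exact h.comp (by fun_prop : Continuous fun x : X => (x, (Fin.elim0 : Fin 0 → ℝ)))
  | N + 1, P, H, h => by
      have ih : Continuous (fun q : X × ℝ => itR N (Fin.tail P)
          ((fun (q : X × ℝ) (t : Fin N → ℝ) => H q.1 (Fin.cons q.2 t)) q)) :=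
        itR_cont (X := X × ℝ) N (Fin.tail P) (fun q t => H q.1 (Fin.cons q.2 t)) (by
          have : Continuous fun r : (X × ℝ) × (Fin N → ℝ) =>
              (r.1.1, (Fin.cons r.1.2 r.2 : Fin (N + 1) → ℝ)) := by
            refine Continuous.prodMk (by fun_prop) ?_
            exact Continuous.finCons (by fun_prop) (by fun_prop)
          exact h.comp this)
      simp only [itR]
      rw [continuous_iff_continuousAt]
      intro x0
      obtain ⟨W, hW, hWx⟩ := exists_compact_mem_nhds x0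
      obtain ⟨C, hC⟩ := (hW.prod (isCompact_Icc (a := (P 0).a) (b := (P 0).b))).exists_bound_of_continuousOn
        ih.continuousOn
      apply intervalIntegral.continuousAt_of_dominated_interval
        (bound := fun x => C * ‖(P 0).ω x‖)
      · refine Filter.Eventually.of_forall fun x => ?_
        apply AEStronglyMeasurable.mul
        · exact (ih.comp (by fun_prop : Continuous fun t : ℝ => (x, t))).aestronglyMeasurable
        · rw [Set.uIoc_of_le (P 0).hab]
          exact (P 0).int.1.aestronglyMeasurable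
      · filter_upwards [hWx] with x hx
        refine Filter.Eventually.of_forall fun t ht => ?_
        rw [Set.uIoc_of_le (P 0).hab] at ht
        rw [norm_mul]
        exact mul_le_mul_of_nonneg_right (hC (x, t) ⟨hx, ht.1.le, ht.2⟩) (norm_nonneg _)
      · exact ((P 0).int.norm).const_mul C
      · refine Filter.Eventually.of_forall fun t _ => ?_
        exact ((ih.comp (by fun_prop : Continuous fun x : X => (x, t))).continuousAt).mul
          continuousAt_const


theorem bx_compact {N : ℕ} (P : Fin N → PathW) : IsCompact (bx P) :=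
  isCompact_univ_pi fun _ => isCompact_Icc

theorem bx_cons {N : ℕ} {P : Fin (N + 1) → PathW} {x : ℝ} {t : Fin N → ℝ}
    (hx : x ∈ Set.Icc (P 0).a (P 0).b) (ht : t ∈ bx (Fin.tail P)) : Fin.cons x t ∈ bx P := by
  intro j _
  refine Fin.cases ?_ ?_ j
  · simpa using hx
  · intro j
    have := ht j (Set.mem_univ j)
    simpa [Fin.tail] using this

/-- the measure on the parameter box -/
noncomputable def mu {N : ℕ} (P : Fin N → PathW) : Measure (Fin N → ℝ) :=
  Measure.pi fun j => volume.restrict (Set.Icc (P j).a (P j).b)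

theorem mu_eq {N : ℕ} (P : Fin N → PathW) : mu P = volume.restrict (bx P) := by
  unfold mu bx
  rw [volume_pi, Measure.restrict_pi_pi]

theorem integrable_om {N : ℕ} (P : Fin N → PathW) :
    Integrable (fun x : Fin N → ℝ => ∏ j, (P j).ω (x j)) (mu P) := by
  apply Integrable.fintype_prod
  intro j
  have h := (P j).int
  rw [intervalIntegrable_iff_integrableOn_Icc_of_le (P j).hab] at h
  exact h

theorem integrable_F {N : ℕ} (P : Fin N → PathW) {F : (Fin N → ℝ) → ℂ}
    (hF : ContinuousOn F (bx P)) :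
    Integrable (fun x : Fin N → ℝ => F x * ∏ j, (P j).ω (x j)) (mu P) := by
  obtain ⟨C, hC⟩ := (bx_compact P).exists_bound_of_continuousOn hF
  have hm : MeasurableSet (bx P) := (bx_compact P).isClosed.measurableSet
  apply (integrable_om P).bdd_mul (c := C)
  · rw [mu_eq]
    exact hF.aestronglyMeasurable hm
  · rw [mu_eq]
    exact (ae_restrict_iff' hm).mpr (Filter.Eventually.of_forall hC)

instance mu_sfin {N : ℕ} (P : Fin N → PathW) : SFinite (mu P) := by
  unfold mu
  infer_instance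

theorem pi_symm {N : ℕ} (z : ℝ × (Fin N → ℝ)) :
    (MeasurableEquiv.piFinSuccAbove (fun _ : Fin (N + 1) => ℝ) 0).symm z = Fin.cons z.1 z.2 := by
  simp [MeasurableEquiv.piFinSuccAbove_symm_apply, Fin.insertNthEquiv]

theorem mu_mp {N : ℕ} (P : Fin (N + 1) → PathW) :
    MeasurePreserving (MeasurableEquiv.piFinSuccAbove (fun _ : Fin (N + 1) => ℝ) 0) (mu P)
      ((volume.restrict (Set.Icc (P 0).a (P 0).b)).prod (mu (Fin.tail P))) :=
  measurePreserving_piFinSuccAbove
    (fun j : Fin (N + 1) => volume.restrict (Set.Icc (P j).a (P j).b)) 0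

theorem itR_eq_mu : ∀ (N : ℕ) (P : Fin N → PathW) (F : (Fin N → ℝ) → ℂ),
    ContinuousOn F (bx P) → itR N P F = ∫ x, F x * ∏ j, (P j).ω (x j) ∂(mu P)
  | 0, P, F, hF => by
      simp only [itR, mu]
      rw [Measure.pi_of_empty, integral_dirac]
      simp only [univ_eq_empty, prod_empty, mul_one]
      congr 1
  | N + 1, P, F, hF => by
      have hmp := (mu_mp P).symm
      have hI := integrable_F P hF
      have h1 : ∫ x, F x * ∏ j, (P j).ω (x j) ∂(mu P) =
          ∫ z : ℝ × (Fin N → ℝ), (F (Fin.cons z.1 z.2) *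
            ∏ j, (P j).ω ((Fin.cons z.1 z.2 : Fin (N + 1) → ℝ) j))
            ∂((volume.restrict (Set.Icc (P 0).a (P 0).b)).prod (mu (Fin.tail P))) := by
        rw [← hmp.integral_comp' (g := fun x => F x * ∏ j, (P j).ω (x j))]
        simp only [pi_symm]
      have hI2 : Integrable (fun z : ℝ × (Fin N → ℝ) => F (Fin.cons z.1 z.2) *
            ∏ j, (P j).ω ((Fin.cons z.1 z.2 : Fin (N + 1) → ℝ) j))
            ((volume.restrict (Set.Icc (P 0).a (P 0).b)).prod (mu (Fin.tail P))) := by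
        have := (hmp.integrable_comp_emb (MeasurableEquiv.measurableEmbedding _)
          (g := fun x => F x * ∏ j, (P j).ω (x j))).mpr hI
        simpa only [Function.comp_def, pi_symm] using this
      rw [h1, integral_prod _ hI2]
      simp only [itR]
      rw [intervalIntegral.integral_of_le (P 0).hab, ← integral_Icc_eq_integral_Ioc]
      apply setIntegral_congr_fun measurableSet_Icc
      intro x hx
      simp only
      rw [itR_eq_mu N (Fin.tail P) (fun t => F (Fin.cons x t)), ← integral_mul_const]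
      · apply integral_congr_ae
        refine Filter.Eventually.of_forall fun t => ?_
        simp only
        rw [Fin.prod_univ_succ]
        simp only [Fin.cons_zero, Fin.cons_succ, Fin.tail]
        ring
      · apply hF.comp (g := F) (f := fun t => (Fin.cons x t : Fin (N + 1) → ℝ))
        · have h3 : Continuous fun t : Fin N → ℝ => (Fin.cons x t : Fin (N + 1) → ℝ) :=
            Continuous.finCons (by fun_prop) (by fun_prop)
          exact h3.continuousOn
        · intro t ht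
          exact bx_cons hx ht

/-- the iterated integral is an integral over the box -/
theorem itR_eq_integral {N : ℕ} (P : Fin N → PathW) (F : (Fin N → ℝ) → ℂ)
    (hF : ContinuousOn F (bx P)) : itR N P F = ∫ x in bx P, F x * ∏ j, (P j).ω (x j) := by
  rw [itR_eq_mu N P F hF, mu_eq]


theorem pos_cons {N : ℕ} (P : Fin (N + 1) → PathW) (x : ℝ) (t : Fin N → ℝ) :
    pos P (Fin.cons x t) = Fin.cons ((P 0).γ x) (pos (Fin.tail P) t) := by
  funext j
  refine Fin.cases ?_ ?_ j
  · simp [pos]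
  · intro j
    simp [pos, Fin.tail]

/-- a continuous function on the box is the restriction of a continuous function -/
theorem exists_ext {N : ℕ} (P : Fin N → PathW) {F : (Fin N → ℝ) → ℂ} (hF : ContinuousOn F (bx P)) :
    ∃ F' : (Fin N → ℝ) → ℂ, Continuous F' ∧ ∀ x ∈ bx P, F' x = F x := by
  set c : (Fin N → ℝ) → (Fin N → ℝ) := fun x j => max (P j).a (min (P j).b (x j)) with hc'
  have hc : Continuous c := by fun_prop
  refine ⟨fun x => F (c x), ?_, ?_⟩
  · apply hF.comp_continuous hc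
    intro x j _
    exact ⟨le_max_left _ _, max_le (P j).hab (min_le_left _ _)⟩
  · intro x hx
    have h1 : c x = x := by
      funext j
      have := hx j (Set.mem_univ j)
      simp [c, this.1, this.2]
    simp only [h1]

theorem itR_tail_cont {N : ℕ} (P : Fin (N + 1) → PathW) {F : (Fin (N + 1) → ℝ) → ℂ}
    (hF : ContinuousOn F (bx P)) :
    ContinuousOn (fun x => itR N (Fin.tail P) (fun t => F (Fin.cons x t)))
      (Set.Icc (P 0).a (P 0).b) := by
  obtain ⟨F', hF', he⟩ := exists_ext P hF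
  have h1 : Continuous fun x : ℝ => itR N (Fin.tail P) (fun t => F' (Fin.cons x t)) := by
    apply itR_cont N (Fin.tail P) (fun (x : ℝ) t => F' (Fin.cons x t))
    exact hF'.comp (Continuous.finCons (by fun_prop) (by fun_prop))
  apply h1.continuousOn.congr
  intro x hx
  apply itR_congr
  intro t ht
  exact (he _ (bx_cons hx ht)).symm

/-- the multiple sum is the iterated path integral up to the values on the error sets -/
theorem tensor {n : ℕ} (hn : 0 < n) {K : ℝ} (hK : 0 ≤ K) : ∀ (N : ℕ) (P : Fin N → PathW)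
    (E : Fin N → (Fin N → ℂ) → Set ℂ) (q : Fin N → (Fin N → ℂ) → ℂ → ℝ)
    (S : Fin N → (Fin N → ℂ) → Set ℂ) (p : Fin N → (Fin N → ℂ) → ℂ → ℝ)
    (_ : ∀ j v v', (∀ i < j, v i = v' i) → E j v = E j v')
    (_ : ∀ j v v', (∀ i < j, v i = v' i) → q j v = q j v')
    (_ : ∀ j v, ∀ w ∈ E j v, 0 ≤ q j v w)
    (_ : ∀ j v v', (∀ i < j, v i = v' i) → S j v = S j v')
    (_ : ∀ j v v', (∀ i < j, v i = v' i) → p j v = p j v')
    (_ : ∀ j v, ∀ w ∈ S j v, 0 ≤ p j v w)
    (R U : Fin N → Set ℂ) (_ : ∀ j v, E j v ⊆ R j) (_ : ∀ j v, S j v ⊆ R j) (_ : ∀ j, pts n ⊆ R j)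
    (_ : ∀ j, ∀ x ∈ Set.Icc (P j).a (P j).b, (P j).γ x ∈ R j)
    (_ : ∀ j, ∀ x ∈ Set.Icc (P j).a (P j).b, (P j).γ x ∈ U j)
    (_ : ∀ j v, Bound1 n K (U j) (S j v) (p j v))
    (_ : ∀ j v, Main1 n K (U j) (P j) (E j v) (q j v))
    (_ : ∀ j, ∫ x in (P j).a..(P j).b, ‖(P j).ω x‖ ≤ K)
    (G : (Fin N → ℂ) → ℂ) (_ : Sep R U G) (_ : ContinuousOn (fun x => G (pos P x)) (bx P))
    (B : ℝ) (_ : 0 ≤ B)
    (_ : ∀ j v, (∀ i < j, ∃ x ∈ Set.Icc (P i).a (P i).b, v i = (P i).γ x) → v j ∈ E j v →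
      (∀ i, j < i → v i ∈ S i v) →
      q j v (v j) * (∏ i ∈ Finset.Ioi j, p i v (v i)) * ‖G v‖ ≤ B),
    ‖itS n N G - itR N P (fun x => G (pos P x))‖ ≤ N * K ^ N * B
  | 0, P, E, q, S, p, _, _, _, _, _, _, R, U, _, _, _, _, _, _, _, _, G, _, _, B, hB0, hB => by
      simp only [itS, itR]
      have : (pos P Fin.elim0 : Fin 0 → ℂ) = Fin.elim0 := Subsingleton.elim _ _
      rw [this]
      simp
  | N + 1, P, E, q, S, p, hE, hq, hq0, hS, hp, hp0, R, U, hER, hSR, hpt, hPR, hPU, h1, h2, h3, G,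
      hG, hGc, B, hB0, hB => by
      set v0 : Fin (N + 1) → ℂ := fun _ => 0 with hv0
      have e0 : ∀ v, E 0 v = E 0 v0 := fun v => hE 0 v v0 (fun i hi => absurd hi (Fin.not_lt_zero i))
      have e0' : ∀ v, q 0 v = q 0 v0 := fun v =>
        hq 0 v v0 (fun i hi => absurd hi (Fin.not_lt_zero i))
      have hpt0 : ((0 : ℕ) : ℂ) / n ∈ R 0 := hpt 0 ⟨0, hn, rfl⟩
      have hsh : ∀ {α : Type} (f : Fin (N + 1) → (Fin (N + 1) → ℂ) → α),
          (∀ j v v', (∀ i < j, v i = v' i) → f j v = f j v') → ∀ (w : ℂ) (j : Fin N)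
          (v v' : Fin N → ℂ), (∀ i < j, v i = v' i) →
          f j.succ (Fin.cons w v) = f j.succ (Fin.cons w v') := by
        intro α f hf w j v v' h
        apply hf
        intro i
        refine Fin.cases ?_ ?_ i
        · intro _; simp
        · intro i hi
          simpa using h i (Fin.succ_lt_succ_iff.mp hi)
      set g : ℂ → ℂ := fun w => itS n N (fun v => G (Fin.cons w v)) with hg
      have hd : DifferentiableOn ℂ g (U 0) := by
        apply itS_diff
        intro v hv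
        exact hG.head hpt0 (fun i => hpt _ (hv i))
      have hb1 := h2 0 v0 g hd (K ^ N * B) (by positivity) (by
        intro w hw
        apply itS_bound hn hK N (fun j v => S j.succ (Fin.cons w v))
          (fun j v => p j.succ (Fin.cons w v)) (hsh S hS w) (hsh p hp w)
          (fun j v u hu => hp0 _ _ u hu) (Fin.tail R) (Fin.tail U)
          (fun j v => hSR _ _) (fun j => hpt _) (fun j v => h1 _ _) (fun v => G (Fin.cons w v))
          (hG.cons (hER 0 v0 hw)) (q 0 v0 w) B (hq0 0 v0 w hw) hB0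
        intro v hv
        have h4 := hB 0 (Fin.cons w v) (fun i hi => absurd hi (Fin.not_lt_zero i))
          (by rw [e0]; simpa using hw) (by
            intro i
            refine Fin.cases ?_ ?_ i
            · intro h; exact absurd h (lt_irrefl _)
            · intro i _
              simpa using hv i)
        rw [Fin.prod_Ioi_zero, e0'] at h4
        simpa using h4)
      have hI1 : IntervalIntegrable (fun x => g ((P 0).γ x) * (P 0).ω x) volume (P 0).a (P 0).b := by
        apply (P 0).int.continuousOn_mul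
        rw [Set.uIcc_of_le (P 0).hab]
        exact hd.continuousOn.comp (P 0).cont.continuousOn (fun x hx => hPU 0 x hx)
      have hI2 : IntervalIntegrable (fun x => itR N (Fin.tail P)
          (fun t => G (pos P (Fin.cons x t))) * (P 0).ω x) volume (P 0).a (P 0).b := by
        apply (P 0).int.continuousOn_mul
        rw [Set.uIcc_of_le (P 0).hab]
        exact itR_tail_cont P hGc
      have hb2 : ‖(∫ x in (P 0).a..(P 0).b, g ((P 0).γ x) * (P 0).ω x) -
          itR (N + 1) P (fun x => G (pos P x))‖ ≤ N * K ^ N * B * K := by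
        simp only [itR]
        rw [← intervalIntegral.integral_sub hI1 hI2]
        calc ‖∫ x in (P 0).a..(P 0).b, (g ((P 0).γ x) * (P 0).ω x -
              itR N (Fin.tail P) (fun t => G (pos P (Fin.cons x t))) * (P 0).ω x)‖
            ≤ ∫ x in (P 0).a..(P 0).b, N * K ^ N * B * ‖(P 0).ω x‖ := by
              apply intervalIntegral.norm_integral_le_of_norm_le (P 0).hab
              · refine Filter.Eventually.of_forall fun x hx => ?_
                have hx' : x ∈ Set.Icc (P 0).a (P 0).b := ⟨hx.1.le, hx.2⟩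
                rw [← sub_mul, norm_mul]
                apply mul_le_mul_of_nonneg_right _ (norm_nonneg _)
                have ih := tensor hn hK N (Fin.tail P)
                  (fun j v => E j.succ (Fin.cons ((P 0).γ x) v))
                  (fun j v => q j.succ (Fin.cons ((P 0).γ x) v))
                  (fun j v => S j.succ (Fin.cons ((P 0).γ x) v))
                  (fun j v => p j.succ (Fin.cons ((P 0).γ x) v))
                  (hsh E hE _) (hsh q hq _) (fun j v u hu => hq0 _ _ u hu)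
                  (hsh S hS _) (hsh p hp _) (fun j v u hu => hp0 _ _ u hu)
                  (Fin.tail R) (Fin.tail U) (fun j v => hER _ _) (fun j v => hSR _ _)
                  (fun j => hpt _) (fun j => hPR _) (fun j => hPU _) (fun j v => h1 _ _)
                  (fun j v => h2 _ _) (fun j => h3 _)
                  (fun v => G (Fin.cons ((P 0).γ x) v)) (hG.cons (hPR 0 x hx'))
                  (by
                    have h5 : ContinuousOn (fun t : Fin N → ℝ => G (pos P (Fin.cons x t)))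
                        (bx (Fin.tail P)) := by
                      apply hGc.comp (f := fun t => (Fin.cons x t : Fin (N + 1) → ℝ))
                      · have h3 : Continuous fun t : Fin N → ℝ =>
                            (Fin.cons x t : Fin (N + 1) → ℝ) :=
                          Continuous.finCons (by fun_prop) (by fun_prop)
                        exact h3.continuousOn
                      · intro t ht
                        exact bx_cons hx' ht
                    simpa only [pos_cons] using h5) B hB0 (by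
                    intro j v hv1 hv2 hv3
                    have h4 := hB j.succ (Fin.cons ((P 0).γ x) v) (by
                      intro i
                      refine Fin.cases ?_ ?_ i
                      · intro _
                        exact ⟨x, hx', by simp⟩
                      · intro i hi
                        obtain ⟨y, hy, he⟩ := hv1 i (Fin.succ_lt_succ_iff.mp hi)
                        exact ⟨y, hy, by simpa [Fin.tail] using he⟩)
                      (by simpa using hv2) (by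
                        intro i
                        refine Fin.cases ?_ ?_ i
                        · intro h; exact absurd h (Fin.not_lt_zero _)
                        · intro i hi
                          simpa using hv3 i (Fin.succ_lt_succ_iff.mp hi))
                    rw [Fin.prod_Ioi_succ] at h4
                    simpa using h4)
                simp only [pos_cons]
                exact ih
              · exact ((P 0).int.norm).const_mul _
          _ = N * K ^ N * B * ∫ x in (P 0).a..(P 0).b, ‖(P 0).ω x‖ := by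
              rw [intervalIntegral.integral_const_mul]
          _ ≤ N * K ^ N * B * K := mul_le_mul_of_nonneg_left (h3 0) (by positivity)
      have hb1' : ‖itS n (N + 1) G - ∫ x in (P 0).a..(P 0).b, g ((P 0).γ x) * (P 0).ω x‖ ≤
          K * (K ^ N * B) := hb1
      calc ‖itS n (N + 1) G - itR (N + 1) P (fun x => G (pos P x))‖
          = ‖(itS n (N + 1) G - ∫ x in (P 0).a..(P 0).b, g ((P 0).γ x) * (P 0).ω x) +
            ((∫ x in (P 0).a..(P 0).b, g ((P 0).γ x) * (P 0).ω x) -
            itR (N + 1) P (fun x => G (pos P x)))‖ := by congr 1; ring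
        _ ≤ K * (K ^ N * B) + N * K ^ N * B * K := (norm_add_le _ _).trans (add_le_add hb1' hb2)
        _ = ((N + 1 : ℕ) : ℝ) * K ^ (N + 1) * B := by push_cast; ring

end Pool.Agent.Work.MP_b30479_gtS.G2

end

section

/-!
# The midpoint Abel-Plana formula along graphs

The sum over the integers of a window is a main integral along a graph over the window and two
integrals, along a graph above and a graph below the real axis, with the exponentially small
weights `ww (± z)`.  All graphs start and end at the (half integer) ends of the window; there are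
no vertical sides.
-/

namespace Pool.Agent.Work.MP_b30479_gtS.VC

open MeasureTheory Complex Set Filter Topology

/-- primitive on a convex set -/
theorem exists_prim_convex {F : ℂ → ℂ} {S : Set ℂ} (hS : Convex ℝ S)
    (hF : ∀ z ∈ S, DifferentiableAt ℂ F z) :
    ∃ P : ℂ → ℂ, ∀ z ∈ S, HasDerivWithinAt P (F z) S z := by
  have h1 : ∀ z ∈ S, HasFDerivWithinAt (fun z : ℂ => ContinuousLinearMap.toSpanSingleton ℂ (F z))
      (((ContinuousLinearMap.toSpanSingletonCLE (𝕜 := ℂ) (E := ℂ)).toContinuousLinearMap.comp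
        (ContinuousLinearMap.toSpanSingleton ℂ (deriv F z))).restrictScalars ℝ) S z := by
    intro z hz
    have h2 := (hF z hz).hasDerivAt.hasFDerivAt
    have h3 := ((ContinuousLinearMap.toSpanSingletonCLE (𝕜 := ℂ)
      (E := ℂ)).toContinuousLinearMap.hasFDerivAt (x := F z)).comp z h2
    exact (h3.restrictScalars ℝ).hasFDerivWithinAt
  obtain ⟨P, hP⟩ := hS.exists_forall_hasFDerivWithinAt_of_hasFDerivWithinAt_symmetric h1 (by
    intro a _ x _ y _
    simp [mul_left_comm])
  refine ⟨P, fun z hz => ?_⟩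
  have := (hP z hz).hasDerivWithinAt
  simpa using this

/-- the integral along a path in a set with a primitive -/
theorem path_prim_set {F P : ℂ → ℂ} {S : Set ℂ} (hP : ∀ z ∈ S, HasDerivWithinAt P (F z) S z)
    {γ γ' : ℝ → ℂ} {u v : ℝ} (huv : u ≤ v) (hγ : ContinuousOn γ (Icc u v))
    (hγS : ∀ x ∈ Icc u v, γ x ∈ S) {s : Set ℝ} (hs : s.Countable)
    (hγ' : ∀ x ∈ Ioo u v \ s, HasDerivAt γ (γ' x) x)
    (hint : IntervalIntegrable (fun x => F (γ x) * γ' x) volume u v) :
    ∫ x in u..v, F (γ x) * γ' x = P (γ v) - P (γ u) := by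
  have hPc : ContinuousOn P S := fun z hz => (hP z hz).continuousWithinAt
  refine MeasureTheory.integral_eq_of_hasDerivAt_off_countable_of_le (fun x => P (γ x)) _ huv hs
    (hPc.comp hγ hγS) ?_ hint
  intro x hx
  have h1 : HasDerivWithinAt (fun x => P (γ x)) (F (γ x) * γ' x) (Ioo u v) x :=
    (hP (γ x) (hγS x (Ioo_subset_Icc_self hx.1))).comp x (hγ' x hx).hasDerivWithinAt
      fun y hy => hγS y (Ioo_subset_Icc_self hy)
  exact h1.hasDerivAt (Ioo_mem_nhds hx.1.1 hx.1.2)

/-- two paths with the same ends in a convex set of holomorphy have the same integral -/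
theorem path_indep {F : ℂ → ℂ} {S : Set ℂ} (hS : Convex ℝ S)
    (hF : ∀ z ∈ S, DifferentiableAt ℂ F z) {γ γ' δ δ' : ℝ → ℂ} {u v u₁ v₁ : ℝ} (huv : u ≤ v)
    (huv₁ : u₁ ≤ v₁) (hγ : ContinuousOn γ (Icc u v)) (hγS : ∀ x ∈ Icc u v, γ x ∈ S)
    (hδ : ContinuousOn δ (Icc u₁ v₁)) (hδS : ∀ x ∈ Icc u₁ v₁, δ x ∈ S)
    {s s₁ : Set ℝ} (hs : s.Countable) (hs₁ : s₁.Countable)
    (hγ' : ∀ x ∈ Ioo u v \ s, HasDerivAt γ (γ' x) x)
    (hδ' : ∀ x ∈ Ioo u₁ v₁ \ s₁, HasDerivAt δ (δ' x) x)
    (hi : IntervalIntegrable (fun x => F (γ x) * γ' x) volume u v)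
    (hi₁ : IntervalIntegrable (fun x => F (δ x) * δ' x) volume u₁ v₁)
    (he : γ u = δ u₁) (he' : γ v = δ v₁) :
    ∫ x in u..v, F (γ x) * γ' x = ∫ x in u₁..v₁, F (δ x) * δ' x := by
  obtain ⟨P, hP⟩ := exists_prim_convex hS hF
  rw [path_prim_set hP huv hγ hγS hs hγ' hi, path_prim_set hP huv₁ hδ hδS hs₁ hδ' hi₁, he, he']

theorem convex_strip (a b : ℝ) : Convex ℝ (strip a b) :=
  (convex_halfSpace_re_ge a).inter (convex_halfSpace_re_le b)

/-- the open upper half of a closed strip -/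
def ustrip (a b : ℝ) : Set ℂ := {z | a ≤ z.re ∧ z.re ≤ b ∧ 0 < z.im}

theorem convex_ustrip (a b : ℝ) : Convex ℝ (ustrip a b) := by
  have : ustrip a b = {z : ℂ | a ≤ z.re} ∩ ({z : ℂ | z.re ≤ b} ∩ {z : ℂ | 0 < z.im}) := rfl
  rw [this]
  exact (convex_halfSpace_re_ge a).inter ((convex_halfSpace_re_le b).inter
    (convex_halfSpace_im_gt 0))

/-- adding one real point of the closed strip keeps convexity -/
theorem convex_ustrip_pt {a b c : ℝ} (h1 : a ≤ c) (h2 : c ≤ b) :
    Convex ℝ (ustrip a b ∪ {(c : ℂ)}) := by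
  have key : ∀ {x : ℂ} {p q : ℝ}, x ∈ ustrip a b → 0 ≤ p → 0 ≤ q → p + q = 1 →
      p • x + q • (c : ℂ) ∈ ustrip a b ∪ {(c : ℂ)} := by
    intro x p q hx hp hq hpq
    rcases hp.eq_or_lt with h0 | h0
    · right
      rw [← h0, zero_add] at hpq
      rw [← h0, hpq, zero_smul, zero_add, one_smul]
      rfl
    · left
      have hre : (p • x + q • (c : ℂ)).re = p * x.re + q * c := by simp
      have him : (p • x + q • (c : ℂ)).im = p * x.im := by simp
      have hcc : q * c = c - p * c := by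
        have : q = 1 - p := by linarith only [hpq]
        rw [this]
        ring
      refine ⟨?_, ?_, ?_⟩
      · rw [hre]
        have e1 := mul_le_mul_of_nonneg_left hx.1 hp
        have e2 := mul_le_mul_of_nonneg_left h1 hq
        have : a = p * a + q * a := by rw [← add_mul, hpq, one_mul]
        linarith only [e1, e2, this]
      · rw [hre]
        have e1 := mul_le_mul_of_nonneg_left hx.2.1 hp
        have e2 := mul_le_mul_of_nonneg_left h2 hq
        have : b = p * b + q * b := by rw [← add_mul, hpq, one_mul]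
        linarith only [e1, e2, this]
      · rw [him]
        exact mul_pos h0 hx.2.2
  intro x hx y hy p q hp hq hpq
  rcases hx with hx | hx
  · rcases hy with hy | hy
    · left
      exact convex_ustrip a b hx hy hp hq hpq
    · rw [mem_singleton_iff] at hy
      rw [hy]
      exact key hx hp hq hpq
  · rw [mem_singleton_iff] at hx
    rcases hy with hy | hy
    · rw [hx, add_comm]
      exact key hy hq hp (by linarith only [hpq])
    · rw [mem_singleton_iff] at hy
      right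
      rw [hx, hy, ← add_smul, hpq, one_smul]
      rfl

theorem differentiableAt_ww {z : ℂ} (hz : 1 - e1 z ≠ 0) : DifferentiableAt ℂ ww z := by
  unfold ww
  exact (differentiable_e1 z).div ((differentiableAt_const _).sub (differentiable_e1 z)) hz

/-- on the vertical line over a half integer -/
theorem ww_vert {a : ℝ} (ha : e1 a = -1) (y : ℝ) : ww (a + y * I) = -(rho y : ℂ) := by
  have h1 : e1 (a + y * I) = -(Real.exp (-(2 * Real.pi * y)) : ℂ) := by
    have h2 : e1 (a + y * I) = e1 a * e1 (y * I) := by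
      unfold e1
      rw [← Complex.exp_add]
      congr 1
      ring
    rw [h2, ha]
    have h3 : e1 (y * I) = (Real.exp (-(2 * Real.pi * y)) : ℂ) := by
      unfold e1
      rw [Complex.ofReal_exp]
      congr 1
      push_cast
      ring_nf
      rw [Complex.I_sq]
      ring
    rw [h3]
    ring
  unfold ww rho
  rw [h1]
  have h4 : Real.exp (-(2 * Real.pi * y)) * Real.exp (2 * Real.pi * y) = 1 := by
    rw [← Real.exp_add]
    simp
  have h4' : (Real.exp (-(2 * Real.pi * y)) : ℂ) * (Real.exp (2 * Real.pi * y) : ℂ) = 1 := by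
    exact_mod_cast h4
  have h5 : (1 - -(Real.exp (-(2 * Real.pi * y)) : ℂ)) ≠ 0 := by
    have : (0 : ℝ) < 1 + Real.exp (-(2 * Real.pi * y)) := by positivity
    have h6 : ((1 + Real.exp (-(2 * Real.pi * y)) : ℝ) : ℂ) ≠ 0 := by exact_mod_cast this.ne'
    rw [sub_neg_eq_add]
    push_cast at h6 ⊢
    exact h6
  have h7 : (1 + (Real.exp (2 * Real.pi * y) : ℂ)) ≠ 0 := by
    have : (0 : ℝ) < 1 + Real.exp (2 * Real.pi * y) := by positivity
    have h6 : ((1 + Real.exp (2 * Real.pi * y) : ℝ) : ℂ) ≠ 0 := by exact_mod_cast this.ne'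
    push_cast at h6 ⊢
    exact h6
  have h8 : (((1 / (1 + Real.exp (2 * Real.pi * y)) : ℝ)) : ℂ) =
      1 / (1 + (Real.exp (2 * Real.pi * y) : ℂ)) := by push_cast; rfl
  rw [h8, div_eq_iff h5, eq_comm]
  field_simp
  linear_combination h4'

/-- the derivative data of a graph -/
structure GraphD (h h' : ℝ → ℝ) (a b : ℝ) (s : Set ℝ) : Prop where
  cont : ContinuousOn h (Icc a b)
  cnt : s.Countable
  der : ∀ x ∈ Ioo a b \ s, HasDerivAt h (h' x) x
  int : IntervalIntegrable h' volume a b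
  left : h a = 0
  right : h b = 0

/-- the point of the graph -/
noncomputable def gpt (h : ℝ → ℝ) (x : ℝ) : ℂ := x + h x * I

theorem gpt_re (h : ℝ → ℝ) (x : ℝ) : (gpt h x).re = x := by simp [gpt]

theorem gpt_im (h : ℝ → ℝ) (x : ℝ) : (gpt h x).im = h x := by simp [gpt]

theorem gpt_of_zero {h : ℝ → ℝ} {x : ℝ} (h0 : h x = 0) : gpt h x = x := by simp [gpt, h0]

theorem GraphD.contg {h h' : ℝ → ℝ} {a b : ℝ} {s : Set ℝ} (H : GraphD h h' a b s) :
    ContinuousOn (gpt h) (Icc a b) := by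
  unfold gpt
  have := H.cont
  fun_prop

theorem GraphD.derg {h h' : ℝ → ℝ} {a b : ℝ} {s : Set ℝ} (H : GraphD h h' a b s) :
    ∀ x ∈ Ioo a b \ s, HasDerivAt (gpt h) (1 + h' x * I) x := by
  intro x hx
  have h1 : HasDerivAt (fun x : ℝ => (x : ℂ)) 1 x := Complex.ofRealCLM.hasDerivAt (x := x)
  have h2 : HasDerivAt (fun x : ℝ => (h x : ℂ)) (h' x : ℂ) x := (H.der x hx).ofReal_comp
  exact h1.add (h2.mul_const I)

theorem GraphD.intg {h h' : ℝ → ℝ} {a b : ℝ} {s : Set ℝ} (H : GraphD h h' a b s) (hab : a ≤ b)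
    {f : ℝ → ℂ} (hf : ContinuousOn f (Icc a b)) :
    IntervalIntegrable (fun x => f x * (1 + h' x * I)) volume a b := by
  have h1 : IntervalIntegrable (fun x => (1 + h' x * I : ℂ)) volume a b := by
    refine IntervalIntegrable.add (by simp) ?_
    have h2 : IntervalIntegrable (fun x => ((h' x : ℝ) : ℂ)) volume a b := by
      constructor
      · exact H.int.1.ofReal
      · exact H.int.2.ofReal
    exact h2.mul_const I
  exact h1.continuousOn_mul (by rwa [uIcc_of_le hab])

theorem vertContG (a : ℝ) : Continuous fun y : ℝ => ((a : ℂ) + y * I) := by fun_prop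

theorem vert_der (a y : ℝ) : HasDerivAt (fun y : ℝ => ((a : ℂ) + y * I)) I y := by
  have h1 : HasDerivAt (fun x : ℝ => (x : ℂ)) 1 y := Complex.ofRealCLM.hasDerivAt (x := y)
  simpa using (h1.mul_const I).const_add (a : ℂ)

theorem horiz_der (T x : ℝ) : HasDerivAt (fun x : ℝ => ((x : ℂ) + T * I)) 1 x := by
  have h1 : HasDerivAt (fun x : ℝ => (x : ℂ)) 1 x := Complex.ofRealCLM.hasDerivAt (x := x)
  exact h1.add_const _

/-- **the upper mode along a graph** -/
theorem up_graph {g : ℂ → ℂ} {a b : ℝ} (hab : a < b) (ha : e1 a = -1) (hb : e1 b = -1)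
    (hg : ∀ z ∈ strip a b, DifferentiableAt ℂ g z) {h h' : ℝ → ℝ} {s : Set ℝ}
    (H : GraphD h h' a b s) (hpos : ∀ x ∈ Ioo a b, 0 < h x) {T : ℝ} (hT : T = h ((a + b) / 2)) :
    (∫ x : ℝ in a..b, ww (gpt h x) * g (gpt h x) * (1 + h' x * I)) =
      (∫ x : ℝ in a..b, ww (x + T * I) * g (x + T * I)) +
      I * ((∫ y : ℝ in (0 : ℝ)..T, rho y * g (b + y * I)) -
        ∫ y : ℝ in (0 : ℝ)..T, rho y * g (a + y * I)) := by
  set m := (a + b) / 2 with hm
  have ham : a < m := by rw [hm]; linarith only [hab]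
  have hmb : m < b := by rw [hm]; linarith only [hab]
  have hT0 : 0 < T := hT ▸ hpos m ⟨ham, hmb⟩
  have hda : 1 - e1 a ≠ 0 := by rw [ha]; norm_num
  have hdb : 1 - e1 b ≠ 0 := by rw [hb]; norm_num
  have hFU : ∀ z ∈ ustrip a b, DifferentiableAt ℂ (fun z => ww z * g z) z := fun z hz =>
    (differentiableAt_ww (one_sub_e1_neF hz.2.2)).mul (hg z ⟨hz.1, hz.2.1⟩)
  have hFa : DifferentiableAt ℂ (fun z => ww z * g z) (a : ℂ) :=
    (differentiableAt_ww hda).mul (hg _ ⟨by simp, by simpa using hab.le⟩)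
  have hFb : DifferentiableAt ℂ (fun z => ww z * g z) (b : ℂ) :=
    (differentiableAt_ww hdb).mul (hg _ ⟨by simpa using hab.le, by simp⟩)
  obtain ⟨P, hP⟩ := exists_prim_convex (F := fun z => ww z * g z)
    (convex_ustrip_pt le_rfl hab.le) (by
      rintro z (hz | hz)
      · exact hFU z hz
      · rw [mem_singleton_iff] at hz; rw [hz]; exact hFa)
  obtain ⟨Q, hQ⟩ := exists_prim_convex (F := fun z => ww z * g z)
    (convex_ustrip_pt hab.le le_rfl) (by
      rintro z (hz | hz)
      · exact hFU z hz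
      · rw [mem_singleton_iff] at hz; rw [hz]; exact hFb)
  have contF : ∀ z, z ∈ ustrip a b ∨ z = (a : ℂ) ∨ z = (b : ℂ) →
      ContinuousAt (fun z => ww z * g z) z := by
    rintro z (hz | hz | hz)
    · exact (hFU z hz).continuousAt
    · rw [hz]; exact hFa.continuousAt
    · rw [hz]; exact hFb.continuousAt
  have hcurve : ∀ x ∈ Icc a b, gpt h x ∈ ustrip a b ∨ gpt h x = (a : ℂ) ∨ gpt h x = (b : ℂ) := by
    intro x hx
    rcases hx.1.eq_or_lt with e | e
    · right; left; rw [← e]; exact gpt_of_zero H.left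
    rcases hx.2.eq_or_lt with e' | e'
    · right; right; rw [e']; exact gpt_of_zero H.right
    · left
      exact ⟨by rw [gpt_re]; exact hx.1, by rw [gpt_re]; exact hx.2,
        by rw [gpt_im]; exact hpos x ⟨e, e'⟩⟩
  have hcc : ContinuousOn (fun x => (fun z => ww z * g z) (gpt h x)) (Icc a b) := fun x hx =>
    (contF _ (hcurve x hx)).comp_continuousWithinAt (H.contg x hx)
  have hint := H.intg hab.le hcc
  have sub1 : uIcc a m ⊆ uIcc a b := by
    rw [uIcc_of_le ham.le, uIcc_of_le hab.le]; exact Icc_subset_Icc le_rfl hmb.le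
  have sub2 : uIcc m b ⊆ uIcc a b := by
    rw [uIcc_of_le hmb.le, uIcc_of_le hab.le]; exact Icc_subset_Icc ham.le le_rfl
  -- the graph
  have G1 : ∫ x : ℝ in a..m, ww (gpt h x) * g (gpt h x) * (1 + h' x * I) =
      P (m + T * I) - P a := by
    have := path_prim_set hP (γ := gpt h) (γ' := fun x => 1 + h' x * I) ham.le
      (H.contg.mono (Icc_subset_Icc le_rfl hmb.le)) (fun x hx => ?_) H.cnt
      (fun x hx => H.derg x ⟨⟨hx.1.1, hx.1.2.trans hmb⟩, hx.2⟩) (hint.mono_set sub1)
    · rw [this, gpt_of_zero H.left]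
      simp only [gpt, hT]
    · rcases hcurve x ⟨hx.1, hx.2.trans hmb.le⟩ with e | e | e
      · exact Or.inl e
      · exact Or.inr e
      · exfalso
        have := congrArg Complex.re e
        rw [gpt_re, ofReal_re] at this
        linarith only [hm, ham, this, hx, hx.2]
  have G2 : ∫ x : ℝ in m..b, ww (gpt h x) * g (gpt h x) * (1 + h' x * I) =
      Q b - Q (m + T * I) := by
    have := path_prim_set hQ (γ := gpt h) (γ' := fun x => 1 + h' x * I) hmb.le
      (H.contg.mono (Icc_subset_Icc ham.le le_rfl)) (fun x hx => ?_) H.cnt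
      (fun x hx => H.derg x ⟨⟨ham.trans hx.1.1, hx.1.2⟩, hx.2⟩) (hint.mono_set sub2)
    · rw [this, gpt_of_zero H.right]
      simp only [gpt, hT]
    · rcases hcurve x ⟨ham.le.trans hx.1, hx.2⟩ with e | e | e
      · exact Or.inl e
      · exfalso
        have := congrArg Complex.re e
        rw [gpt_re, ofReal_re] at this
        linarith only [ham, this, hx, hx.1]
      · exact Or.inr e
  -- the vertical sides
  have V : ∀ c : ℝ, e1 c = -1 → (c = a ∨ c = b) →
      ∀ R : ℂ → ℂ, (∀ z ∈ ustrip a b ∪ {(c : ℂ)},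
        HasDerivWithinAt R (ww z * g z) (ustrip a b ∪ {(c : ℂ)}) z) →
      I * (∫ y : ℝ in (0 : ℝ)..T, rho y * g (c + y * I)) = -(R (c + T * I) - R c) := by
    intro c hc hcab R hR
    have hcm : a ≤ c ∧ c ≤ b := by rcases hcab with e | e <;> subst e <;> constructor <;> linarith only [hab]
    have hSV : ∀ y ∈ Icc (0 : ℝ) T, ((c : ℂ) + y * I) ∈ ustrip a b ∪ {(c : ℂ)} := by
      intro y hy
      rcases hy.1.eq_or_lt with e | e
      · right; rw [← e]; simp
      · left; exact ⟨by simpa using hcm.1, by simpa using hcm.2, by simpa using e⟩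
    have hcV : ContinuousOn (fun y : ℝ => (fun z => ww z * g z) ((c : ℂ) + y * I)) (Icc 0 T) := by
      intro y hy
      refine (contF _ ?_).comp_continuousWithinAt (vertContG c).continuousWithinAt
      rcases hSV y hy with e | e
      · exact Or.inl e
      · rw [mem_singleton_iff] at e
        rcases hcab with e' | e' <;> rw [e, e'] <;> simp
    have h1 := path_prim_set hR (γ := fun y : ℝ => (c : ℂ) + y * I) (γ' := fun _ => I) hT0.le
      (vertContG c).continuousOn hSV countable_empty (fun y _ => vert_der c y)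
      ((hcV.mul continuousOn_const).intervalIntegrable_of_Icc hT0.le)
    have h2 : (∫ y : ℝ in (0 : ℝ)..T, (fun z => ww z * g z) ((c : ℂ) + y * I) * I) =
        -(I * ∫ y : ℝ in (0 : ℝ)..T, rho y * g (c + y * I)) := by
      rw [← intervalIntegral.integral_const_mul, ← intervalIntegral.integral_neg]
      refine intervalIntegral.integral_congr fun y _ => ?_
      simp only [ww_vert hc]
      ring
    rw [h2] at h1
    rw [neg_eq_iff_eq_neg] at h1
    rw [h1]
    simp
  have hor : ∀ u v : ℝ, a ≤ u → u ≤ v → v ≤ b → ∀ R : ℂ → ℂ, ∀ S : Set ℂ, ustrip a b ⊆ S →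
      (∀ z ∈ S, HasDerivWithinAt R (ww z * g z) S z) →
      (∫ x : ℝ in u..v, ww (x + T * I) * g (x + T * I)) = R (v + T * I) - R (u + T * I) := by
    intro u v hu huv hv R S hS hR
    have hmem : ∀ x ∈ Icc u v, ((x : ℂ) + T * I) ∈ ustrip a b := fun x hx =>
      ⟨by simpa using hu.trans hx.1, by simpa using hx.2.trans hv, by simpa using hT0⟩
    have h1 := path_prim_set hR (γ := fun x : ℝ => (x : ℂ) + T * I) (γ' := fun _ => 1) huv
      (by fun_prop) (fun x hx => hS (hmem x hx)) countable_empty (fun x _ => horiz_der T x) (by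
        refine (ContinuousOn.mul (fun x hx => ?_) continuousOn_const).intervalIntegrable_of_Icc huv
        exact ContinuousAt.comp_continuousWithinAt (g := fun z => ww z * g z)
          (f := fun x : ℝ => (x : ℂ) + T * I) (contF _ (Or.inl (hmem x hx)))
          (by fun_prop : Continuous fun x : ℝ => (x : ℂ) + T * I).continuousWithinAt)
    simpa using h1
  have H1 := hor a m le_rfl ham.le hmb.le P _ subset_union_left hP
  have H2 := hor m b ham.le hmb.le le_rfl Q _ subset_union_left hQ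
  have V1 := V a ha (Or.inl rfl) P hP
  have V2 := V b hb (Or.inr rfl) Q hQ
  rw [← intervalIntegral.integral_add_adjacent_intervals (hint.mono_set sub1) (hint.mono_set sub2),
    G1, G2]
  have hTc : ContinuousOn (fun x : ℝ => ww (x + T * I) * g (x + T * I)) (Icc a b) := by
    intro x hx
    exact ContinuousAt.comp_continuousWithinAt (g := fun z => ww z * g z)
      (f := fun x : ℝ => (x : ℂ) + T * I) (contF _ (Or.inl ⟨by simpa using hx.1,
        by simpa using hx.2, by simpa using hT0⟩))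
      (by fun_prop : Continuous fun x : ℝ => (x : ℂ) + T * I).continuousWithinAt
  have hTi := hTc.intervalIntegrable_of_Icc (μ := volume) hab.le
  rw [← intervalIntegral.integral_add_adjacent_intervals (hTi.mono_set sub1) (hTi.mono_set sub2),
    H1, H2, mul_sub, V1, V2]
  ring

theorem e1_half_int (k : ℤ) : e1 (((k : ℝ) - 1 / 2 : ℝ) : ℂ) = -1 := by
  have h1 : (((k : ℝ) - 1 / 2 : ℝ) : ℂ) = -(1 / 2) + (k : ℤ) := by push_cast; ring
  rw [h1, e1_add_int]
  unfold e1
  rw [show 2 * Real.pi * I * -(1 / 2) = -(Real.pi * I) by ring, Complex.exp_neg, Complex.exp_pi_mul_I]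
  norm_num

theorem GraphD.neg {h h' : ℝ → ℝ} {a b : ℝ} {s : Set ℝ} (H : GraphD h h' a b s) :
    GraphD (fun x => -h x) (fun x => -h' x) a b s where
  cont := H.cont.neg
  cnt := H.cnt
  der := fun x hx => (H.der x hx).neg
  int := H.int.neg
  left := by rw [H.left, neg_zero]
  right := by rw [H.right, neg_zero]

theorem GraphD.reflect {h h' : ℝ → ℝ} {a b : ℝ} {s : Set ℝ} (H : GraphD h h' a b s) :
    GraphD (fun x => h (-x)) (fun x => -h' (-x)) (-b) (-a) ((fun x => -x) '' s) where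
  cont := by
    refine H.cont.comp continuous_neg.continuousOn fun x hx => ?_
    exact ⟨by linarith only [hx, hx.2], by linarith only [hx, hx.1]⟩
  cnt := H.cnt.image _
  der := by
    intro x hx
    have h1 : HasDerivAt h (h' (-x)) (-x) := by
      refine H.der (-x) ⟨⟨by linarith only [hx, hx.1.2], by linarith only [hx, hx.1.1]⟩, fun hm => hx.2 ?_⟩
      exact ⟨-x, hm, by simp⟩
    have h2 : HasDerivAt (fun x => h (-x)) (h' (-x) * -1) x := h1.comp x (hasDerivAt_neg x)
    exact h2.congr_deriv (by ring)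
  int := by
    have h1 := (H.int.symm.comp_sub_left 0).neg
    simp only [zero_sub] at h1
    exact h1
  left := by
    show h (- -b) = 0
    rw [neg_neg, H.right]
  right := by
    show h (- -a) = 0
    rw [neg_neg, H.left]

/-- **the lower mode along a graph** -/
theorem down_graph {g : ℂ → ℂ} {a b : ℝ} (hab : a < b) (ha : e1 (-a : ℝ) = -1)
    (hb : e1 (-b : ℝ) = -1)
    (hg : ∀ z ∈ strip a b, DifferentiableAt ℂ g z) {q q' : ℝ → ℝ} {s : Set ℝ}
    (H : GraphD q q' a b s) (hpos : ∀ x ∈ Ioo a b, 0 < q x) {T : ℝ} (hT : T = q ((a + b) / 2)) :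
    (∫ x : ℝ in a..b, ww (-gpt (fun x => -q x) x) * g (gpt (fun x => -q x) x) *
        (1 + (-q' x : ℝ) * I)) =
      (∫ x : ℝ in a..b, ww (-(x - T * I)) * g (x - T * I)) +
      I * ((∫ y : ℝ in (0 : ℝ)..T, rho y * g (a - y * I)) -
        ∫ y : ℝ in (0 : ℝ)..T, rho y * g (b - y * I)) := by
  have h1 := up_graph (g := fun z => g (-z)) (a := -b) (b := -a) (by linarith only [hab]) hb ha (by
    intro z hz
    have h2 : DifferentiableAt ℂ g (-z) := hg _ ⟨by simpa using neg_le_neg hz.2,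
      by simpa using neg_le_neg hz.1⟩
    exact h2.comp z differentiableAt_id.neg) H.reflect (fun x hx => hpos (-x)
      ⟨by linarith only [hx, hx.2], by linarith only [hx, hx.1]⟩) (T := T) (by
      rw [hT]
      congr 1
      ring)
  have e1 : (∫ x : ℝ in a..b, ww (-gpt (fun x => -q x) x) * g (gpt (fun x => -q x) x) *
        (1 + (-q' x : ℝ) * I)) =
      ∫ x : ℝ in (-b)..(-a), ww (gpt (fun x => q (-x)) x) * g (-gpt (fun x => q (-x)) x) *
        (1 + ((-q' (-x) : ℝ) : ℂ) * I) := by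
    rw [← intervalIntegral.integral_comp_neg]
    refine intervalIntegral.integral_congr fun x _ => ?_
    have e2 : gpt (fun x => q (-x)) (-x) = -gpt (fun x => -q x) x := by
      show ((-x : ℝ) : ℂ) + (q (- -x) : ℂ) * I = -((x : ℂ) + ((-q x : ℝ) : ℂ) * I)
      rw [neg_neg]
      push_cast
      ring
    simp only [e2, neg_neg]
  have e2 : (∫ x : ℝ in a..b, ww (-(x - T * I)) * g (x - T * I)) =
      ∫ x : ℝ in (-b)..(-a), ww (x + T * I) * g (-(x + T * I)) := by
    rw [← intervalIntegral.integral_comp_neg]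
    refine intervalIntegral.integral_congr fun x _ => ?_
    have e3 : ((-x : ℝ) : ℂ) + T * I = -(x - T * I) := by
      push_cast
      ring
    simp only [e3, neg_neg]
  have e3 : ∀ (c y : ℝ), -(((-c : ℝ) : ℂ) + y * I) = (c : ℂ) - y * I := by
    intro c y
    push_cast
    ring
  rw [e1, e2, h1]
  simp only [e3]

/-- **The midpoint Abel-Plana formula along graphs.** -/
theorem abel_graph {g : ℂ → ℂ} (a : ℤ) {N : ℕ} (hN : 0 < N)
    (hg : ∀ z ∈ strip (a - 1 / 2) (a + N - 1 / 2), DifferentiableAt ℂ g z)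
    {h h' p p' q q' : ℝ → ℝ} {s s₁ s₂ : Set ℝ}
    (H : GraphD h h' (a - 1 / 2) (a + N - 1 / 2) s)
    (Hp : GraphD p p' (a - 1 / 2) (a + N - 1 / 2) s₁)
    (Hq : GraphD q q' (a - 1 / 2) (a + N - 1 / 2) s₂)
    (hp : ∀ x ∈ Ioo ((a : ℝ) - 1 / 2) (a + N - 1 / 2), 0 < p x)
    (hq : ∀ x ∈ Ioo ((a : ℝ) - 1 / 2) (a + N - 1 / 2), 0 < q x) :
    ∑ j ∈ Finset.range N, g (a + j) =
      (∫ x : ℝ in ((a : ℝ) - 1 / 2)..(a + N - 1 / 2), g (gpt h x) * (1 + h' x * I)) +
      (∫ x : ℝ in ((a : ℝ) - 1 / 2)..(a + N - 1 / 2),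
        ww (gpt p x) * g (gpt p x) * (1 + p' x * I)) +
      ∫ x : ℝ in ((a : ℝ) - 1 / 2)..(a + N - 1 / 2),
        ww (-gpt (fun x => -q x) x) * g (gpt (fun x => -q x) x) * (1 + (-q' x : ℝ) * I) := by
  have hN' : (1 : ℝ) ≤ N := by exact_mod_cast hN
  have hab : (a : ℝ) - 1 / 2 < a + N - 1 / 2 := by linarith only [hN']
  have E1 : e1 (((a : ℝ) - 1 / 2 : ℝ) : ℂ) = -1 := e1_half_int a
  have E2 : e1 (((a : ℝ) + N - 1 / 2 : ℝ) : ℂ) = -1 := by
    have := e1_half_int (a + N)
    push_cast at this ⊢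
    exact this
  have E3 : e1 ((-((a : ℝ) - 1 / 2) : ℝ) : ℂ) = -1 := by
    have := e1_half_int (1 - a)
    push_cast at this ⊢
    rw [← this]
    congr 1
    ring
  have E4 : e1 ((-((a : ℝ) + N - 1 / 2) : ℝ) : ℂ) = -1 := by
    have := e1_half_int (1 - a - N)
    push_cast at this ⊢
    rw [← this]
    congr 1
    ring
  have hAdm : AdmF g ((a : ℝ) - 1 / 2) (a + N - 1 / 2) :=
    ⟨fun z hz => (hg z hz).continuousAt.continuousWithinAt,
      fun z hz => (hg z (ostrip_subset_strip _ _ hz)).differentiableWithinAt⟩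
  have hmid : ((a : ℝ) - 1 / 2 + (a + N - 1 / 2)) / 2 ∈ Ioo ((a : ℝ) - 1 / 2) (a + N - 1 / 2) :=
    ⟨by linarith only [hN'], by linarith only [hN']⟩
  have hU := up_graph hab E1 E2 hg Hp hp rfl
  have hD := down_graph hab E3 E4 hg Hq hq rfl
  have hR := abel_planaF_zero a N hAdm (hp _ hmid) (hq _ hmid)
  have hM : (∫ x : ℝ in ((a : ℝ) - 1 / 2)..(a + N - 1 / 2), g x) =
      ∫ x : ℝ in ((a : ℝ) - 1 / 2)..(a + N - 1 / 2), g (gpt h x) * (1 + h' x * I) := by
    have hgc : ContinuousOn (fun x => g (gpt h x)) (Icc ((a : ℝ) - 1 / 2) (a + N - 1 / 2)) :=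
      fun x hx => (hg _ ⟨by rw [gpt_re]; exact hx.1, by
        rw [gpt_re]; exact hx.2⟩).continuousAt.comp_continuousWithinAt (H.contg x hx)
    have h1 := path_indep (convex_strip ((a : ℝ) - 1 / 2) (a + N - 1 / 2)) hg
      (γ := fun x : ℝ => (x : ℂ)) (γ' := fun _ => 1) (δ := gpt h) (δ' := fun x => 1 + h' x * I)
      hab.le hab.le (by fun_prop) (fun x hx => ⟨by simpa using hx.1, by simpa using hx.2⟩)
      H.contg (fun x hx => ⟨by rw [gpt_re]; exact hx.1, by rw [gpt_re]; exact hx.2⟩)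
      countable_empty H.cnt
      (fun x _ => Complex.ofRealCLM.hasDerivAt (x := x)) H.derg (by
        refine (ContinuousOn.mul (fun x hx => ?_)
          continuousOn_const).intervalIntegrable_of_Icc hab.le
        exact ContinuousAt.comp_continuousWithinAt (g := g) (f := fun x : ℝ => (x : ℂ))
          (hg _ ⟨by simpa using hx.1, by simpa using hx.2⟩).continuousAt
          (Complex.continuous_ofReal.continuousWithinAt))
      (H.intg hab.le hgc) (gpt_of_zero H.left).symm (gpt_of_zero H.right).symm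
    simpa using h1
  rw [hU, hD, ← hM, hR, sideF_zero, sideF_zero]
  unfold modeF
  simp only [smul_eq_mul, Complex.real_smul]
  ring

/-! ### Bounds of the weights -/

theorem e1_re (z : ℂ) : (e1 z).re = Real.exp (-(2 * Real.pi * z.im)) * Real.cos (2 * Real.pi * z.re) := by
  unfold e1
  rw [Complex.exp_re]
  congr 2 <;> simp

theorem one_le_norm_one_sub {w : ℂ} (hw : w.re ≤ 0) : 1 ≤ ‖1 - w‖ := by
  have := Complex.re_le_norm (1 - w)
  rw [Complex.sub_re, Complex.one_re] at this
  linarith only [hw, this]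

/-- the weight on a graph that leaves the half integers `a`, `b` with slope at least `κ` -/
theorem norm_ww_ramp {a b κ : ℝ} (ha : e1 a = -1) (hb : e1 b = -1) (hκ : 0 < κ) {x P : ℝ}
    (hP : κ * min (1 / 4) (min (x - a) (b - x)) ≤ P) (hxa : a ≤ x) (hxb : x ≤ b) :
    ‖ww (x + P * I)‖ ≤ Real.exp (-(2 * Real.pi * P)) / (1 - Real.exp (-(Real.pi * κ / 2))) := by
  have hpi := Real.pi_pos
  have hden : 0 < 1 - Real.exp (-(Real.pi * κ / 2)) := by
    have : Real.exp (-(Real.pi * κ / 2)) < 1 := by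
      rw [Real.exp_lt_one_iff]
      have : 0 < Real.pi * κ / 2 := by positivity
      linarith only [this]
    linarith only [this]
  have hden1 : 1 - Real.exp (-(Real.pi * κ / 2)) ≤ 1 := by
    have := Real.exp_pos (-(Real.pi * κ / 2))
    linarith only [this]
  have hnum : ‖e1 ((x : ℂ) + P * I)‖ = Real.exp (-(2 * Real.pi * P)) := by
    rw [norm_e1]
    congr 1
    simp
  have hP0 : 0 ≤ P := by
    refine le_trans ?_ hP
    apply mul_nonneg hκ.le
    apply le_min (by norm_num)
    apply le_min <;> linarith only [hxa, hxb]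
  unfold ww
  rw [norm_div, hnum]
  apply div_le_div_of_nonneg_left (Real.exp_pos _).le hden
  -- near the ends
  have near : ∀ c : ℝ, e1 c = -1 → |x - c| ≤ 1 / 4 →
      1 - Real.exp (-(Real.pi * κ / 2)) ≤ ‖1 - e1 ((x : ℂ) + P * I)‖ := by
    intro c hc hx
    refine hden1.trans (one_le_norm_one_sub ?_)
    have h1 : e1 ((x : ℂ) + P * I) = -e1 (((x - c : ℝ) : ℂ) + P * I) := by
      have : e1 ((x : ℂ) + P * I) = e1 c * e1 (((x - c : ℝ) : ℂ) + P * I) := by
        unfold e1
        rw [← Complex.exp_add]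
        congr 1
        push_cast
        ring
      rw [this, hc]
      ring
    rw [h1, Complex.neg_re, e1_re]
    have h2 : 0 ≤ Real.cos (2 * Real.pi * (((x - c : ℝ) : ℂ) + P * I).re) := by
      have h3 : (((x - c : ℝ) : ℂ) + P * I).re = x - c := by simp
      rw [h3]
      obtain ⟨h4, h5⟩ := abs_le.mp hx
      apply Real.cos_nonneg_of_neg_pi_div_two_le_of_le
      · nlinarith only [hpi, h4]
      · nlinarith only [hpi, h5]
    have := mul_nonneg (Real.exp_pos (-(2 * Real.pi * (((x - c : ℝ) : ℂ) + P * I).im))).le h2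
    linarith only [this]
  rcases le_total (x - a) (1 / 4) with h1 | h1
  · exact near a ha (abs_le.mpr ⟨by linarith only [hxa], h1⟩)
  rcases le_total (b - x) (1 / 4) with h2 | h2
  · exact near b hb (abs_le.mpr ⟨by linarith only [h2], by linarith only [hxb]⟩)
  rw [min_eq_left (le_min h1 h2)] at hP
  have h3 : ‖e1 ((x : ℂ) + P * I)‖ ≤ Real.exp (-(Real.pi * κ / 2)) := by
    rw [hnum]
    apply Real.exp_le_exp.mpr
    nlinarith only [hP, hpi]
  have h4 := norm_sub_norm_le (1 : ℂ) (e1 ((x : ℂ) + P * I))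
  rw [norm_one] at h4
  linarith only [h3, h4]

/-! ### The scaled formula -/

/-- scaling of a graph -/
theorem GraphD.scale {h h' : ℝ → ℝ} {a b : ℝ} {s : Set ℝ} {n : ℝ} (hn : 0 < n)
    (H : GraphD h h' (a / n) (b / n) s) :
    GraphD (fun x => n * h (x / n)) (fun x => h' (x / n)) a b ((fun x => n * x) '' s) where
  cont := by
    refine continuousOn_const.mul (H.cont.comp (by fun_prop) fun x hx => ?_)
    exact ⟨div_le_div_of_nonneg_right hx.1 hn.le, div_le_div_of_nonneg_right hx.2 hn.le⟩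
  cnt := H.cnt.image _
  der := by
    intro x hx
    have h1 : HasDerivAt h (h' (x / n)) (x / n) := by
      refine H.der (x / n) ⟨⟨div_lt_div_of_pos_right hx.1.1 hn,
        div_lt_div_of_pos_right hx.1.2 hn⟩, fun hm => hx.2 ⟨x / n, hm, ?_⟩⟩
      field_simp
    have h2 : HasDerivAt (fun x : ℝ => x / n) (1 / n) x := by
      simpa using (hasDerivAt_id x).div_const n
    have h3 := (h1.comp x h2).const_mul n
    refine h3.congr_deriv ?_
    field_simp
  int := by
    have h1 := H.int.comp_mul_right (c := n⁻¹) 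
    have h2 : (fun x => h' (x * n⁻¹)) = fun x => h' (x / n) := by
      funext x
      rw [div_eq_mul_inv]
    rw [h2] at h1
    convert h1 using 1
    · field_simp
    · field_simp
  left := by rw [H.left, mul_zero]
  right := by rw [H.right, mul_zero]

theorem gpt_scale {h : ℝ → ℝ} {n : ℝ} (hn : 0 < n) (x : ℝ) :
    gpt (fun x => n * h (x / n)) x / n = gpt h (x / n) := by
  have hn' : (n : ℂ) ≠ 0 := by exact_mod_cast hn.ne'
  unfold gpt
  push_cast
  field_simp

theorem integral_scale {F : ℂ → ℂ} {h h' : ℝ → ℝ} {n : ℝ} (hn : 0 < n) (a b : ℝ) :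
    (∫ x : ℝ in a..b, F (gpt (fun x => n * h (x / n)) x / n) * (1 + h' (x / n) * I)) =
      n * ∫ x : ℝ in (a / n)..(b / n), F (gpt h x) * (1 + h' x * I) := by
  have h1 := intervalIntegral.integral_comp_div (a := a) (b := b) (c := n)
    (fun x : ℝ => F (gpt h x) * (1 + h' x * I)) hn.ne'
  rw [Complex.real_smul] at h1
  rw [← h1]
  refine intervalIntegral.integral_congr fun x _ => ?_
  simp only [gpt_scale hn]

/-- **Sum over a window = main integral along a graph + mode integrals**, scaled variables. -/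
theorem sum_graph_eq {n : ℕ} (hn : 0 < n) (a : ℤ) {N : ℕ} (hN : 0 < N) {g : ℂ → ℂ}
    (hg : ∀ w ∈ strip (((a : ℝ) - 1 / 2) / n) (((a : ℝ) + N - 1 / 2) / n), DifferentiableAt ℂ g w)
    {h h' p p' q q' : ℝ → ℝ} {s s₁ s₂ : Set ℝ}
    (H : GraphD h h' (((a : ℝ) - 1 / 2) / n) (((a : ℝ) + N - 1 / 2) / n) s)
    (Hp : GraphD p p' (((a : ℝ) - 1 / 2) / n) (((a : ℝ) + N - 1 / 2) / n) s₁)
    (Hq : GraphD q q' (((a : ℝ) - 1 / 2) / n) (((a : ℝ) + N - 1 / 2) / n) s₂)
    (hp : ∀ x ∈ Ioo (((a : ℝ) - 1 / 2) / n) (((a : ℝ) + N - 1 / 2) / n), 0 < p x)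
    (hq : ∀ x ∈ Ioo (((a : ℝ) - 1 / 2) / n) (((a : ℝ) + N - 1 / 2) / n), 0 < q x) :
    ∑ j ∈ Finset.range N, g ((a + j) / n) =
      n * (∫ x : ℝ in (((a : ℝ) - 1 / 2) / n)..(((a : ℝ) + N - 1 / 2) / n),
        g (gpt h x) * (1 + h' x * I)) +
      n * (∫ x : ℝ in (((a : ℝ) - 1 / 2) / n)..(((a : ℝ) + N - 1 / 2) / n),
        ww (n * gpt p x) * g (gpt p x) * (1 + p' x * I)) +
      n * ∫ x : ℝ in (((a : ℝ) - 1 / 2) / n)..(((a : ℝ) + N - 1 / 2) / n),
        ww (-(n * gpt (fun x => -q x) x)) * g (gpt (fun x => -q x) x) *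
          (1 + (-q' x : ℝ) * I) := by
  have hn0 : (0 : ℝ) < n := by exact_mod_cast hn
  have hnc : (n : ℂ) ≠ 0 := by exact_mod_cast hn.ne'
  have hcast : ((n : ℝ) : ℂ) = (n : ℂ) := by push_cast; rfl
  have h1 := abel_graph (g := fun z => g (z / n)) a hN (by
    intro z hz
    have h2 : DifferentiableAt ℂ g (z / n) := by
      apply hg
      have h3 : (z / (n : ℂ)).re = z.re / n := by
        rw [← hcast, Complex.div_ofReal_re]
      constructor
      · rw [h3]; exact div_le_div_of_nonneg_right hz.1 hn0.le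
      · rw [h3]; exact div_le_div_of_nonneg_right hz.2 hn0.le
    exact h2.comp z (differentiableAt_id.div_const _)) (H.scale hn0) (Hp.scale hn0)
    (Hq.scale hn0) (fun x hx => mul_pos hn0 (hp _ ⟨div_lt_div_of_pos_right hx.1 hn0,
      div_lt_div_of_pos_right hx.2 hn0⟩)) (fun x hx => mul_pos hn0 (hq _
      ⟨div_lt_div_of_pos_right hx.1 hn0, div_lt_div_of_pos_right hx.2 hn0⟩))
  have e1 := integral_scale (F := g) (h := h) (h' := h') hn0 ((a : ℝ) - 1 / 2)
    ((a : ℝ) + N - 1 / 2)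
  have e2 := integral_scale (F := fun w => ww (n * w) * g w) (h := p) (h' := p') hn0
    ((a : ℝ) - 1 / 2) ((a : ℝ) + N - 1 / 2)
  have e3 := integral_scale (F := fun w => ww (-(n * w)) * g w) (h := fun x => -q x)
    (h' := fun x => -q' x) hn0 ((a : ℝ) - 1 / 2) ((a : ℝ) + N - 1 / 2)
  have k2 : ∀ z : ℂ, (n : ℂ) * (z / ((n : ℝ) : ℂ)) = z := by
    intro z
    rw [hcast]
    field_simp
  have k3 : (fun x => -(n * q (x / n))) = fun x => n * -q (x / n) := by
    funext x
    ring
  simp only [k2] at e2 e3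
  simp only [hcast] at e1 e2 e3
  rw [e1, e2] at h1
  simp only [k3] at h1
  rw [e3] at h1
  exact h1

/-- the error of the main integral -/
theorem norm_sum_sub_le {n : ℕ} (hn : 0 < n) (a : ℤ) {N : ℕ} (hN : 0 < N) {g : ℂ → ℂ}
    (hg : ∀ w ∈ strip (((a : ℝ) - 1 / 2) / n) (((a : ℝ) + N - 1 / 2) / n), DifferentiableAt ℂ g w)
    {h h' p p' q q' : ℝ → ℝ} {s s₁ s₂ : Set ℝ}
    (H : GraphD h h' (((a : ℝ) - 1 / 2) / n) (((a : ℝ) + N - 1 / 2) / n) s)
    (Hp : GraphD p p' (((a : ℝ) - 1 / 2) / n) (((a : ℝ) + N - 1 / 2) / n) s₁)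
    (Hq : GraphD q q' (((a : ℝ) - 1 / 2) / n) (((a : ℝ) + N - 1 / 2) / n) s₂)
    (hp : ∀ x ∈ Ioo (((a : ℝ) - 1 / 2) / n) (((a : ℝ) + N - 1 / 2) / n), 0 < p x)
    (hq : ∀ x ∈ Ioo (((a : ℝ) - 1 / 2) / n) (((a : ℝ) + N - 1 / 2) / n), 0 < q x)
    {κ : ℝ} (hκ : 0 < κ)
    (hpκ : ∀ x, κ * min (1 / (4 * (n : ℝ))) (min (x - ((a : ℝ) - 1 / 2) / n)
      (((a : ℝ) + N - 1 / 2) / n - x)) ≤ p x)
    (hqκ : ∀ x, κ * min (1 / (4 * (n : ℝ))) (min (x - ((a : ℝ) - 1 / 2) / n)
      (((a : ℝ) + N - 1 / 2) / n - x)) ≤ q x)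
    {L : ℝ} (hp' : ∀ x, |p' x| ≤ L) (hq' : ∀ x, |q' x| ≤ L) {M : ℝ}
    (hMp : ∀ x, ((a : ℝ) - 1 / 2) / n ≤ x → x ≤ ((a : ℝ) + N - 1 / 2) / n →
      Real.exp (-(2 * Real.pi * (n * p x))) * ‖g (gpt p x)‖ ≤ M)
    (hMq : ∀ x, ((a : ℝ) - 1 / 2) / n ≤ x → x ≤ ((a : ℝ) + N - 1 / 2) / n →
      Real.exp (-(2 * Real.pi * (n * q x))) * ‖g (gpt (fun x => -q x) x)‖ ≤ M) :
    ‖∑ j ∈ Finset.range N, g ((a + j) / n) -
      n * (∫ x : ℝ in (((a : ℝ) - 1 / 2) / n)..(((a : ℝ) + N - 1 / 2) / n),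
        g (gpt h x) * (1 + h' x * I))‖ ≤
      2 * N * (1 + L) / (1 - Real.exp (-(Real.pi * κ / 2))) * M := by
  have hn0 : (0 : ℝ) < n := by exact_mod_cast hn
  have hN0 : (0 : ℝ) < N := by exact_mod_cast hN
  have hnc : (n : ℂ) ≠ 0 := by exact_mod_cast hn.ne'
  set A : ℝ := ((a : ℝ) - 1 / 2) / n with hA
  set B : ℝ := ((a : ℝ) + N - 1 / 2) / n with hB
  have hAB : A ≤ B := by
    rw [hA, hB]
    apply div_le_div_of_nonneg_right _ hn0.le
    linarith only [hN0]
  have hBA : B - A = N / n := by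
    rw [hA, hB, ← sub_div]
    congr 1
    ring
  have hden : 0 < 1 - Real.exp (-(Real.pi * κ / 2)) := by
    have : Real.exp (-(Real.pi * κ / 2)) < 1 := by
      rw [Real.exp_lt_one_iff]
      have : 0 < Real.pi * κ / 2 := by positivity
      linarith only [this]
    linarith only [this]
  have hL0 : 0 ≤ L := (abs_nonneg _).trans (hp' 0)
  have hM0 : 0 ≤ M := le_trans (by positivity) (hMp A le_rfl hAB)
  have hw1 : ∀ (c : ℝ) (k : ℤ), c = ((k : ℝ) - 1 / 2) → e1 (c : ℂ) = -1 := by
    intro c k hc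
    rw [hc]
    exact e1_half_int k
  have nA : n * A = (a : ℝ) - 1 / 2 := by rw [hA]; field_simp
  have nB : n * B = (a : ℝ) + N - 1 / 2 := by rw [hB]; field_simp
  -- bound of one mode
  have key : ∀ (r r' : ℝ → ℝ) (σ : ℝ), (σ = 1 ∨ σ = -1) →
      (∀ x, κ * min (1 / (4 * (n : ℝ))) (min (x - A) (B - x)) ≤ r x) →
      (∀ x, |r' x| ≤ L) →
      (∀ x, A ≤ x → x ≤ B → Real.exp (-(2 * Real.pi * (n * r x))) *
        ‖g (gpt (fun x => σ * r x) x)‖ ≤ M) →
      ‖∫ x : ℝ in A..B, ww (σ * (n * gpt (fun x => σ * r x) x)) *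
        g (gpt (fun x => σ * r x) x) * (1 + ((σ * r' x : ℝ) : ℂ) * I)‖ ≤
        N / n * ((1 + L) / (1 - Real.exp (-(Real.pi * κ / 2))) * M) := by
    intro r r' σ hσ hr hr' hMr
    have h1 : ∀ x ∈ uIoc A B, ‖ww (σ * (n * gpt (fun x => σ * r x) x)) *
        g (gpt (fun x => σ * r x) x) * (1 + ((σ * r' x : ℝ) : ℂ) * I)‖ ≤
        (1 + L) / (1 - Real.exp (-(Real.pi * κ / 2))) * M := by
      intro x hx
      rw [uIoc_of_le hAB] at hx
      have h2 : ‖ww (σ * (n * gpt (fun x => σ * r x) x))‖ ≤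
          Real.exp (-(2 * Real.pi * (n * r x))) / (1 - Real.exp (-(Real.pi * κ / 2))) := by
        have hr2 : κ * min (1 / 4) (min (n * x - n * A) (n * B - n * x)) ≤ n * r x := by
          have e : min (1 / 4) (min (n * x - n * A) (n * B - n * x)) =
              n * min (1 / (4 * (n : ℝ))) (min (x - A) (B - x)) := by
            rw [mul_min_of_nonneg _ _ hn0.le, mul_min_of_nonneg _ _ hn0.le]
            congr 1
            · field_simp
            · congr 1 <;> ring
          rw [e]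
          have := mul_le_mul_of_nonneg_left (hr x) hn0.le
          linarith only [this]
        rcases hσ with e | e
        · have := norm_ww_ramp (a := n * A) (b := n * B) (x := n * x) (P := n * r x)
            (hw1 _ a nA) (hw1 _ (a + N) (by rw [nB]; push_cast; ring)) hκ hr2
            (mul_le_mul_of_nonneg_left hx.1.le hn0.le) (mul_le_mul_of_nonneg_left hx.2 hn0.le)
          convert this using 3
          rw [e]
          unfold gpt
          push_cast
          ring
        · have := norm_ww_ramp (a := -(n * B)) (b := -(n * A)) (x := -(n * x)) (P := n * r x)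
            (hw1 _ (1 - a - N) (by rw [nB]; push_cast; ring))
            (hw1 _ (1 - a) (by rw [nA]; push_cast; ring)) hκ (by
              convert hr2 using 2
              rw [min_comm (-(n * x) - -(n * B))]
              congr 2 <;> ring)
            (neg_le_neg (mul_le_mul_of_nonneg_left hx.2 hn0.le))
            (neg_le_neg (mul_le_mul_of_nonneg_left hx.1.le hn0.le))
          convert this using 3
          rw [e]
          unfold gpt
          push_cast
          ring
      have h3 : ‖(1 + ((σ * r' x : ℝ) : ℂ) * I)‖ ≤ 1 + L := by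
        refine (norm_add_le _ _).trans ?_
        rw [norm_one, norm_mul, norm_I, mul_one, Complex.norm_real, Real.norm_eq_abs, abs_mul]
        have : |σ| = 1 := by rcases hσ with e | e <;> rw [e] <;> norm_num
        rw [this, one_mul]
        linarith only [hr', hr' x]
      rw [norm_mul, norm_mul]
      calc ‖ww (σ * (n * gpt (fun x => σ * r x) x))‖ * ‖g (gpt (fun x => σ * r x) x)‖ *
            ‖(1 + ((σ * r' x : ℝ) : ℂ) * I)‖
          ≤ (Real.exp (-(2 * Real.pi * (n * r x))) / (1 - Real.exp (-(Real.pi * κ / 2)))) *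
            ‖g (gpt (fun x => σ * r x) x)‖ * (1 + L) := by
            gcongr
        _ = (Real.exp (-(2 * Real.pi * (n * r x))) * ‖g (gpt (fun x => σ * r x) x)‖) *
            ((1 + L) / (1 - Real.exp (-(Real.pi * κ / 2)))) := by ring
        _ ≤ M * ((1 + L) / (1 - Real.exp (-(Real.pi * κ / 2)))) :=
            mul_le_mul_of_nonneg_right (hMr x hx.1.le hx.2) (by positivity)
        _ = _ := by ring
    have h4 := intervalIntegral.norm_integral_le_of_norm_le_const h1
    rw [abs_of_nonneg (by linarith only [hAB] : 0 ≤ B - A), hBA] at h4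
    linarith only [h4]
  rw [sum_graph_eq hn a hN hg H Hp Hq hp hq]
  have h1 := key p p' 1 (Or.inl rfl) hpκ hp' (by simpa using hMp)
  have h2 := key q q' (-1) (Or.inr rfl) hqκ hq' (by simpa using hMq)
  have e1 : (∫ x : ℝ in A..B, ww (((1 : ℝ) : ℂ) * (n * gpt (fun x => 1 * p x) x)) *
        g (gpt (fun x => 1 * p x) x) * (1 + ((1 * p' x : ℝ) : ℂ) * I)) =
      ∫ x : ℝ in A..B, ww (n * gpt p x) * g (gpt p x) * (1 + p' x * I) := by simp
  have e2 : (∫ x : ℝ in A..B, ww (((-1 : ℝ) : ℂ) * (n * gpt (fun x => -1 * q x) x)) *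
        g (gpt (fun x => -1 * q x) x) * (1 + ((-1 * q' x : ℝ) : ℂ) * I)) =
      ∫ x : ℝ in A..B, ww (-(n * gpt (fun x => -q x) x)) * g (gpt (fun x => -q x) x) *
          (1 + (-q' x : ℝ) * I) := by simp
  rw [e1] at h1
  rw [e2] at h2
  have h5 : ∀ u v w : ℂ, u + v + w - u = v + w := fun u v w => by ring
  rw [h5]
  refine (norm_add_le _ _).trans ?_
  rw [norm_mul, norm_mul, Complex.norm_natCast]
  have h6 := mul_le_mul_of_nonneg_left h1 hn0.le
  have h7 := mul_le_mul_of_nonneg_left h2 hn0.le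
  have h8 : (n : ℝ) * (N / n * ((1 + L) / (1 - Real.exp (-(Real.pi * κ / 2))) * M)) =
      N * (1 + L) / (1 - Real.exp (-(Real.pi * κ / 2))) * M := by
    field_simp
  rw [h8] at h6 h7
  have h9 : 2 * N * (1 + L) / (1 - Real.exp (-(Real.pi * κ / 2))) * M =
      N * (1 + L) / (1 - Real.exp (-(Real.pi * κ / 2))) * M +
      N * (1 + L) / (1 - Real.exp (-(Real.pi * κ / 2))) * M := by ring
  rw [h9]
  exact add_le_add h6 h7

/-! ### The standard heights -/

/-- trapezoidal height: `0` outside `(A,B)`, slopes `1/d₁` and `-1/d₂`, top `1` -/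
noncomputable def trap (A B d₁ d₂ x : ℝ) : ℝ := max 0 (min 1 (min ((x - A) / d₁) ((B - x) / d₂)))

theorem trap_nonneg (A B d₁ d₂ x : ℝ) : 0 ≤ trap A B d₁ d₂ x := le_max_left _ _

theorem trap_le_one (A B d₁ d₂ x : ℝ) : trap A B d₁ d₂ x ≤ 1 :=
  max_le zero_le_one (min_le_left _ _)

theorem trap_of_le {A B d₁ d₂ x : ℝ} (h1 : 0 < d₁) (hx : x ≤ A) : trap A B d₁ d₂ x = 0 := by
  unfold trap
  apply max_eq_left
  refine (min_le_right _ _).trans ((min_le_left _ _).trans ?_)
  exact div_nonpos_of_nonpos_of_nonneg (by linarith only [hx]) h1.le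

theorem trap_of_ge {A B d₁ d₂ x : ℝ} (h2 : 0 < d₂) (hx : B ≤ x) : trap A B d₁ d₂ x = 0 := by
  unfold trap
  apply max_eq_left
  refine (min_le_right _ _).trans ((min_le_right _ _).trans ?_)
  exact div_nonpos_of_nonpos_of_nonneg (by linarith only [hx]) h2.le

theorem trap_pos {A B d₁ d₂ x : ℝ} (h1 : 0 < d₁) (h2 : 0 < d₂) (hA : A < x) (hB : x < B) :
    0 < trap A B d₁ d₂ x := by
  unfold trap
  refine lt_max_of_lt_right (lt_min zero_lt_one (lt_min ?_ ?_))
  · exact div_pos (by linarith only [hA]) h1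
  · exact div_pos (by linarith only [hB]) h2

theorem trap_eq_one {A B d₁ d₂ x : ℝ} (h1 : 0 < d₁) (h2 : 0 < d₂) (hA : A + d₁ ≤ x)
    (hB : x ≤ B - d₂) : trap A B d₁ d₂ x = 1 := by
  unfold trap
  have e1 : 1 ≤ (x - A) / d₁ := by rw [le_div_iff₀ h1]; linarith only [hA]
  have e2 : 1 ≤ (B - x) / d₂ := by rw [le_div_iff₀ h2]; linarith only [hB]
  rw [min_eq_left (le_min e1 e2)]
  exact max_eq_right zero_le_one

theorem lip_min {f g : ℝ → ℝ} {K : ℝ} (hf : ∀ x y, |f x - f y| ≤ K * |x - y|)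
    (hg : ∀ x y, |g x - g y| ≤ K * |x - y|) (x y : ℝ) :
    |min (f x) (g x) - min (f y) (g y)| ≤ K * |x - y| :=
  (abs_min_sub_min_le_max _ _ _ _).trans (max_le (hf x y) (hg x y))

theorem lip_max {f g : ℝ → ℝ} {K : ℝ} (hf : ∀ x y, |f x - f y| ≤ K * |x - y|)
    (hg : ∀ x y, |g x - g y| ≤ K * |x - y|) (x y : ℝ) :
    |max (f x) (g x) - max (f y) (g y)| ≤ K * |x - y| :=
  (abs_max_sub_max_le_max _ _ _ _).trans (max_le (hf x y) (hg x y))

theorem trap_lip {A B d₁ d₂ K : ℝ} (h1 : 0 < d₁) (h2 : 0 < d₂) (hK1 : 1 / d₁ ≤ K)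
    (hK2 : 1 / d₂ ≤ K) (x y : ℝ) :
    |trap A B d₁ d₂ x - trap A B d₁ d₂ y| ≤ K * |x - y| := by
  have hK : 0 ≤ K := le_trans (by positivity) hK1
  have c : ∀ c : ℝ, ∀ x y : ℝ, |c - c| ≤ K * |x - y| := by
    intro c x y
    rw [sub_self, abs_zero]
    positivity
  have e1 : ∀ x y : ℝ, |(x - A) / d₁ - (y - A) / d₁| ≤ K * |x - y| := by
    intro x y
    have : (x - A) / d₁ - (y - A) / d₁ = 1 / d₁ * (x - y) := by field_simp; ring
    rw [this, abs_mul, abs_of_pos (by positivity : 0 < 1 / d₁)]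
    exact mul_le_mul_of_nonneg_right hK1 (abs_nonneg _)
  have e2 : ∀ x y : ℝ, |(B - x) / d₂ - (B - y) / d₂| ≤ K * |x - y| := by
    intro x y
    have : (B - x) / d₂ - (B - y) / d₂ = -(1 / d₂ * (x - y)) := by field_simp; ring
    rw [this, abs_neg, abs_mul, abs_of_pos (by positivity : 0 < 1 / d₂)]
    exact mul_le_mul_of_nonneg_right hK2 (abs_nonneg _)
  unfold trap
  exact lip_max (f := fun _ => 0) (g := fun x => min 1 (min ((x - A) / d₁) ((B - x) / d₂)))
    (c 0) (lip_min (f := fun _ => 1) (g := fun x => min ((x - A) / d₁) ((B - x) / d₂)) (c 1)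
      (lip_min e1 e2)) x y

theorem continuous_of_lip {f : ℝ → ℝ} {K : ℝ} (hf : ∀ x y, |f x - f y| ≤ K * |x - y|) :
    Continuous f := by
  have hK : 0 ≤ K := by
    have := (abs_nonneg _).trans (hf 0 1)
    simpa using this
  have h : LipschitzWith ⟨K, hK⟩ f := LipschitzWith.of_dist_le_mul fun x y => by
    rw [Real.dist_eq, Real.dist_eq]
    exact hf x y
  exact h.continuous

theorem abs_deriv_of_lip {f : ℝ → ℝ} {K : ℝ} (hf : ∀ x y, |f x - f y| ≤ K * |x - y|) (x : ℝ) :
    |deriv f x| ≤ K := by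
  have hK : 0 ≤ K := by
    have := (abs_nonneg _).trans (hf 0 1)
    simpa using this
  have h : LipschitzWith ⟨K, hK⟩ f := LipschitzWith.of_dist_le_mul fun x y => by
    rw [Real.dist_eq, Real.dist_eq]
    exact hf x y
  have := norm_deriv_le_of_lipschitz (x₀ := x) h
  rw [Real.norm_eq_abs] at this
  exact this

theorem diff_min {f g : ℝ → ℝ} {x : ℝ} (hf : DifferentiableAt ℝ f x)
    (hg : DifferentiableAt ℝ g x) (hne : f x ≠ g x) :
    DifferentiableAt ℝ (fun y => min (f y) (g y)) x := by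
  rcases lt_or_gt_of_ne hne with h | h
  · refine hf.congr_of_eventuallyEq ?_
    filter_upwards [hf.continuousAt.eventually_lt hg.continuousAt h] with y hy
    exact min_eq_left hy.le
  · refine hg.congr_of_eventuallyEq ?_
    filter_upwards [hg.continuousAt.eventually_lt hf.continuousAt h] with y hy
    exact min_eq_right hy.le

theorem diff_max {f g : ℝ → ℝ} {x : ℝ} (hf : DifferentiableAt ℝ f x)
    (hg : DifferentiableAt ℝ g x) (hne : f x ≠ g x) :
    DifferentiableAt ℝ (fun y => max (f y) (g y)) x := by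
  rcases lt_or_gt_of_ne hne with h | h
  · refine hg.congr_of_eventuallyEq ?_
    filter_upwards [hf.continuousAt.eventually_lt hg.continuousAt h] with y hy
    exact max_eq_right hy.le
  · refine hf.congr_of_eventuallyEq ?_
    filter_upwards [hg.continuousAt.eventually_lt hf.continuousAt h] with y hy
    exact max_eq_left hy.le

/-- the corners -/
noncomputable def trapS (A B d₁ d₂ : ℝ) : Set ℝ :=
  {A, A + d₁, B, B - d₂, (A * d₂ + B * d₁) / (d₁ + d₂)}

theorem trapS_countable (A B d₁ d₂ : ℝ) : (trapS A B d₁ d₂).Countable :=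
  Set.Finite.countable (by unfold trapS; exact Set.toFinite _)

theorem trap_diff {A B d₁ d₂ : ℝ} (h1 : 0 < d₁) (h2 : 0 < d₂) {x : ℝ}
    (hx : x ∉ trapS A B d₁ d₂) : DifferentiableAt ℝ (trap A B d₁ d₂) x := by
  unfold trapS at hx
  simp only [mem_insert_iff, mem_singleton_iff, not_or] at hx
  obtain ⟨x1, x2, x3, x4, x5⟩ := hx
  have d1 : DifferentiableAt ℝ (fun x : ℝ => (x - A) / d₁) x := by fun_prop
  have d2 : DifferentiableAt ℝ (fun x : ℝ => (B - x) / d₂) x := by fun_prop
  have ne12 : (x - A) / d₁ ≠ (B - x) / d₂ := by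
    intro h
    apply x5
    rw [div_eq_div_iff h1.ne' h2.ne'] at h
    rw [eq_div_iff (by positivity)]
    linarith only [h]
  have n1 : (x - A) / d₁ ≠ 1 := by
    intro h
    rw [div_eq_one_iff_eq h1.ne'] at h
    apply x2
    linarith only [h]
  have n2 : (B - x) / d₂ ≠ 1 := by
    intro h
    rw [div_eq_one_iff_eq h2.ne'] at h
    apply x4
    linarith only [h]
  have n3 : (x - A) / d₁ ≠ 0 := by
    intro h
    rw [div_eq_zero_iff] at h
    rcases h with h | h
    · apply x1; linarith only [h]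
    · exact h1.ne' h
  have n4 : (B - x) / d₂ ≠ 0 := by
    intro h
    rw [div_eq_zero_iff] at h
    rcases h with h | h
    · apply x3; linarith only [h]
    · exact h2.ne' h
  have m1 : min ((x - A) / d₁) ((B - x) / d₂) ≠ 1 := by
    rcases min_choice ((x - A) / d₁) ((B - x) / d₂) with h | h <;> rw [h] <;> assumption
  have m2 : min ((x - A) / d₁) ((B - x) / d₂) ≠ 0 := by
    rcases min_choice ((x - A) / d₁) ((B - x) / d₂) with h | h <;> rw [h] <;> assumption
  have m3 : min 1 (min ((x - A) / d₁) ((B - x) / d₂)) ≠ 0 := by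
    rcases min_choice 1 (min ((x - A) / d₁) ((B - x) / d₂)) with h | h
    · rw [h]; norm_num
    · rw [h]; exact m2
  unfold trap
  exact diff_max (f := fun _ => 0) (differentiableAt_const _)
    (diff_min (f := fun _ => 1) (differentiableAt_const _) (diff_min d1 d2 ne12) m1.symm) m3.symm

/-- a scaled trapezoid is the height of a graph over every interval containing its base -/
theorem graphD_trap {A B d₁ d₂ : ℝ} (h1 : 0 < d₁) (h2 : 0 < d₂) (t : ℝ) {a b : ℝ} (ha : a ≤ A)
    (hb : B ≤ b) :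
    GraphD (fun x => t * trap A B d₁ d₂ x) (fun x => t * deriv (trap A B d₁ d₂) x) a b
      (trapS A B d₁ d₂) where
  cont := (continuous_const.mul (continuous_of_lip (trap_lip h1 h2 (le_max_left _ _)
    (le_max_right _ _)))).continuousOn
  cnt := trapS_countable A B d₁ d₂
  der := fun x hx => (trap_diff h1 h2 hx.2).hasDerivAt.const_mul t
  int := by
    have hb : ∀ x, ‖t * deriv (trap A B d₁ d₂) x‖ ≤ |t| * max (1 / d₁) (1 / d₂) := by
      intro x
      rw [Real.norm_eq_abs, abs_mul]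
      exact mul_le_mul_of_nonneg_left (abs_deriv_of_lip (trap_lip h1 h2 (le_max_left _ _)
        (le_max_right _ _)) x) (abs_nonneg _)
    have hm : Measurable fun x => t * deriv (trap A B d₁ d₂) x :=
      (measurable_deriv _).const_mul t
    refine ⟨?_, ?_⟩
    · exact Measure.integrableOn_of_bounded (by simp) hm.aestronglyMeasurable
        (ae_of_all _ hb)
    · exact Measure.integrableOn_of_bounded (by simp) hm.aestronglyMeasurable
        (ae_of_all _ hb)
  left := by rw [trap_of_le h1 ha, mul_zero]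
  right := by rw [trap_of_ge h2 hb, mul_zero]

theorem trap_ge {A B d κ t : ℝ} (hd : 0 < d) (ht : 0 ≤ t) (hκ : κ * d ≤ t) {u : ℝ} (hu : κ * u ≤ t)
    (hκ0 : 0 ≤ κ) (x : ℝ) :
    κ * min u (min (x - A) (B - x)) ≤ t * trap A B d d x := by
  rcases le_total 0 (min (x - A) (B - x)) with h | h
  · have h1 : κ * min u (min (x - A) (B - x)) ≤
        t * min 1 (min ((x - A) / d) ((B - x) / d)) := by
      rw [mul_min_of_nonneg _ _ hκ0, mul_min_of_nonneg _ _ hκ0, mul_min_of_nonneg _ _ ht,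
        mul_min_of_nonneg _ _ ht, mul_one]
      have h2 := le_min_iff.mp h
      refine le_min ((min_le_left _ _).trans hu) (le_min ?_ ?_)
      · refine (min_le_right _ _).trans ((min_le_left _ _).trans ?_)
        rw [mul_div_assoc', le_div_iff₀ hd]
        nlinarith only [hκ, h2, mul_le_mul_of_nonneg_right hκ h2.1]
      · refine (min_le_right _ _).trans ((min_le_right _ _).trans ?_)
        rw [mul_div_assoc', le_div_iff₀ hd]
        nlinarith only [hκ, h2, mul_le_mul_of_nonneg_right hκ h2.2]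
    exact h1.trans (mul_le_mul_of_nonneg_left (le_max_right _ _) ht)
  · have h1 : κ * min u (min (x - A) (B - x)) ≤ 0 :=
      mul_nonpos_of_nonneg_of_nonpos hκ0 ((min_le_right _ _).trans h)
    exact h1.trans (mul_nonneg ht (trap_nonneg _ _ _ _ _))

/-! ### The one-variable lemma in the form used for sums over many variables -/

/-- the points over `[a,b]` at the trapezoidal height `s` -/
def pathE (a b s A B d₁ d₂ : ℝ) : Set ℂ :=
  {w | a ≤ w.re ∧ w.re ≤ b ∧ w.im = s * trap A B d₁ d₂ w.re}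

/-- **One-variable lemma.** The sum over `0 ≤ k < n` of `g (k/n)` is the integral of `g` along the
trapezoidal path over `[-1/(2n), (N-1/2)/n]`, up to `C n` times the supremum of
`e^{-2πn|Im w|} |g w|` over an upper mode path, a lower mode path and the tail `k ≥ N`. -/
theorem one_var {n N : ℕ} (hN : 0 < N) (hNn : N ≤ n) {g : ℂ → ℂ}
    (hg : ∀ w ∈ strip (-(1 / (2 * (n : ℝ)))) (((N : ℝ) - 1 / 2) / n), DifferentiableAt ℂ g w)
    {t A B d₁ d₂ : ℝ} (h1 : 0 < d₁) (h2 : 0 < d₂) (hA : -(1 / (2 * (n : ℝ))) ≤ A)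
    (hB : B ≤ ((N : ℝ) - 1 / 2) / n)
    {s₁ s₂ d : ℝ} (hs₁ : 0 < s₁) (hs₂ : 0 < s₂) (hd : 0 < d) (hdn : 1 / (4 * (n : ℝ)) ≤ d)
    {κ : ℝ} (hκ : 0 < κ) (hκ₁ : κ * d ≤ s₁) (hκ₂ : κ * d ≤ s₂)
    {L : ℝ} (hL₁ : s₁ / d ≤ L) (hL₂ : s₂ / d ≤ L) {M : ℝ}
    (hM₁ : ∀ w ∈ pathE (-(1 / (2 * (n : ℝ)))) (((N : ℝ) - 1 / 2) / n) s₁
      (-(1 / (2 * (n : ℝ)))) (((N : ℝ) - 1 / 2) / n) d d,
      Real.exp (-(2 * Real.pi * n * |w.im|)) * ‖g w‖ ≤ M)
    (hM₂ : ∀ w ∈ pathE (-(1 / (2 * (n : ℝ)))) (((N : ℝ) - 1 / 2) / n) (-s₂)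
      (-(1 / (2 * (n : ℝ)))) (((N : ℝ) - 1 / 2) / n) d d,
      Real.exp (-(2 * Real.pi * n * |w.im|)) * ‖g w‖ ≤ M)
    (hM₃ : ∀ k : ℕ, N ≤ k → k < n → ‖g ((k : ℂ) / n)‖ ≤ M) :
    ‖∑ k ∈ Finset.range n, g ((k : ℂ) / n) -
      n * (∫ x : ℝ in (-(1 / (2 * (n : ℝ))))..(((N : ℝ) - 1 / 2) / n),
        g (gpt (fun x => t * trap A B d₁ d₂ x) x) *
          (1 + ((t * deriv (trap A B d₁ d₂) x : ℝ) : ℂ) * I))‖ ≤
      (2 * (1 + L) / (1 - Real.exp (-(Real.pi * κ / 2))) + 1) * n * M := by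
  have hn : 0 < n := hN.trans_le hNn
  have hn0 : (0 : ℝ) < n := by exact_mod_cast hn
  have hNn' : (N : ℝ) ≤ n := by exact_mod_cast hNn
  have hN0 : (0 : ℝ) < N := by exact_mod_cast hN
  have hN1 : (1 : ℝ) ≤ N := by exact_mod_cast hN
  have eA : -(1 / (2 * (n : ℝ))) = (((0 : ℤ) : ℝ) - 1 / 2) / n := by
    push_cast
    field_simp
    ring
  have eB : ((N : ℝ) - 1 / 2) / n = (((0 : ℤ) : ℝ) + N - 1 / 2) / n := by
    push_cast
    ring
  set a' : ℝ := -(1 / (2 * (n : ℝ))) with ha'
  set b' : ℝ := ((N : ℝ) - 1 / 2) / n with hb'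
  have hab : a' < b' := by
    rw [eA, eB]
    apply div_lt_div_of_pos_right _ hn0
    push_cast
    linarith only [hN0]
  have hM0 : 0 ≤ M := by
    refine le_trans ?_ (hM₁ ((a' : ℝ) : ℂ) ⟨by simp, by simpa using hab.le, ?_⟩)
    · positivity
    · rw [ofReal_re, trap_of_le hd le_rfl, mul_zero, ofReal_im]
  have hden : 0 < 1 - Real.exp (-(Real.pi * κ / 2)) := by
    have : Real.exp (-(Real.pi * κ / 2)) < 1 := by
      rw [Real.exp_lt_one_iff]
      have := Real.pi_pos
      have : 0 < Real.pi * κ / 2 := by positivity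
      linarith only [this]
    linarith only [this]
  have hL0 : 0 ≤ L := le_trans (by positivity) hL₁
  have hlip : ∀ s : ℝ, 0 < s → s / d ≤ L → ∀ x, |s * deriv (trap a' b' d d) x| ≤ L := by
    intro s hs hsL x
    rw [abs_mul, abs_of_pos hs]
    have h3 := abs_deriv_of_lip (trap_lip (A := a') (B := b') hd hd le_rfl le_rfl) x
    have h4 := mul_le_mul_of_nonneg_left h3 hs.le
    have h5 : s * (1 / d) = s / d := by ring
    linarith only [hsL, h4, h5]
  have hge : ∀ s : ℝ, 0 < s → κ * d ≤ s → ∀ x,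
      κ * min (1 / (4 * (n : ℝ))) (min (x - a') (b' - x)) ≤ s * trap a' b' d d x := by
    intro s hs hsd x
    exact trap_ge hd hs.le hsd ((mul_le_mul_of_nonneg_left hdn hκ.le).trans hsd) hκ.le x
  have hE : ∀ s : ℝ, ∀ x : ℝ, a' ≤ x → x ≤ b' →
      gpt (fun x => s * trap a' b' d d x) x ∈ pathE a' b' s a' b' d d := by
    intro s x hx hx'
    exact ⟨by rw [gpt_re]; exact hx, by rw [gpt_re]; exact hx', by rw [gpt_im, gpt_re]⟩
  have hMp : ∀ x, a' ≤ x → x ≤ b' →
      Real.exp (-(2 * Real.pi * (n * (s₁ * trap a' b' d d x)))) *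
        ‖g (gpt (fun x => s₁ * trap a' b' d d x) x)‖ ≤ M := by
    intro x hx hx'
    have h3 := hM₁ _ (hE s₁ x hx hx')
    rw [gpt_im, abs_of_nonneg (mul_nonneg hs₁.le (trap_nonneg _ _ _ _ _))] at h3
    convert h3 using 3
    ring
  have hMq : ∀ x, a' ≤ x → x ≤ b' →
      Real.exp (-(2 * Real.pi * (n * (s₂ * trap a' b' d d x)))) *
        ‖g (gpt (fun x => -(s₂ * trap a' b' d d x)) x)‖ ≤ M := by
    intro x hx hx'
    have h3 := hM₂ _ (hE (-s₂) x hx hx')
    have h4 : (fun x => -s₂ * trap a' b' d d x) = fun x => -(s₂ * trap a' b' d d x) := by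
      funext x
      ring
    rw [h4, gpt_im, abs_neg, abs_of_nonneg (mul_nonneg hs₂.le (trap_nonneg _ _ _ _ _))] at h3
    convert h3 using 3
    ring
  have key := norm_sum_sub_le hn (0 : ℤ) hN (g := g) (by rw [← eA, ← eB]; exact hg)
    (h := fun x => t * trap A B d₁ d₂ x) (h' := fun x => t * deriv (trap A B d₁ d₂) x)
    (p := fun x => s₁ * trap a' b' d d x) (p' := fun x => s₁ * deriv (trap a' b' d d) x)
    (q := fun x => s₂ * trap a' b' d d x) (q' := fun x => s₂ * deriv (trap a' b' d d) x)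
    (by rw [← eA, ← eB]; exact graphD_trap h1 h2 t hA hB)
    (by rw [← eA, ← eB]; exact graphD_trap hd hd s₁ le_rfl le_rfl)
    (by rw [← eA, ← eB]; exact graphD_trap hd hd s₂ le_rfl le_rfl)
    (by rw [← eA, ← eB]; exact fun x hx => mul_pos hs₁ (trap_pos hd hd hx.1 hx.2))
    (by rw [← eA, ← eB]; exact fun x hx => mul_pos hs₂ (trap_pos hd hd hx.1 hx.2)) hκ
    (by rw [← eA, ← eB]; exact hge s₁ hs₁ hκ₁)
    (by rw [← eA, ← eB]; exact hge s₂ hs₂ hκ₂)
    (hlip s₁ hs₁ hL₁) (hlip s₂ hs₂ hL₂) (M := M)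
    (by rw [← eA, ← eB]; exact hMp) (by rw [← eA, ← eB]; exact hMq)
  rw [← eA, ← eB] at key
  have hsplit : ∑ k ∈ Finset.range n, g ((k : ℂ) / n) =
      ∑ j ∈ Finset.range N, g ((((0 : ℤ) : ℂ) + j) / n) +
      ∑ k ∈ Finset.Ico N n, g ((k : ℂ) / n) := by
    rw [Finset.range_eq_Ico, ← Finset.sum_Ico_consecutive _ (Nat.zero_le N) hNn,
      ← Finset.range_eq_Ico]
    congr 1
    refine Finset.sum_congr rfl fun k _ => ?_
    push_cast
    rw [zero_add]
  have htail : ‖∑ k ∈ Finset.Ico N n, g ((k : ℂ) / n)‖ ≤ ((n : ℝ) - N) * M := by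
    have h3 : ‖∑ k ∈ Finset.Ico N n, g ((k : ℂ) / n)‖ ≤ ∑ k ∈ Finset.Ico N n, M :=
      norm_sum_le_of_le _ fun k hk => hM₃ k (Finset.mem_Ico.mp hk).1 (Finset.mem_Ico.mp hk).2
    rw [Finset.sum_const, Nat.card_Ico, nsmul_eq_mul, Nat.cast_sub hNn] at h3
    exact h3
  rw [hsplit]
  have h5 : ∀ u v w : ℂ, u + v - w = (u - w) + v := fun u v w => by ring
  rw [h5]
  refine (norm_add_le _ _).trans ((add_le_add key htail).trans ?_)
  have h6 : (2 * (1 + L) / (1 - Real.exp (-(Real.pi * κ / 2))) + 1) * n * M -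
      (2 * N * (1 + L) / (1 - Real.exp (-(Real.pi * κ / 2))) * M + ((n : ℝ) - N) * M) =
      ((n : ℝ) - N) * (2 * (1 + L) / (1 - Real.exp (-(Real.pi * κ / 2))) * M) + N * M := by
    ring
  have h7 : 0 ≤ ((n : ℝ) - N) * (2 * (1 + L) / (1 - Real.exp (-(Real.pi * κ / 2))) * M) + N * M := by
    have : 0 ≤ (n : ℝ) - N := by linarith only [hNn']
    positivity
  linarith only [h6, h7]

/-- the bound of the main integral -/
theorem norm_main_le {n N : ℕ} (hN : 0 < N) (hNn : N ≤ n) {g : ℂ → ℂ}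
    {t A B d₁ d₂ : ℝ} (h1 : 0 < d₁) (h2 : 0 < d₂) {L : ℝ} (hL₁ : |t| / d₁ ≤ L)
    (hL₂ : |t| / d₂ ≤ L) {M : ℝ}
    (hM : ∀ w ∈ pathE (-(1 / (2 * (n : ℝ)))) (((N : ℝ) - 1 / 2) / n) t A B d₁ d₂, ‖g w‖ ≤ M) :
    ‖n * (∫ x : ℝ in (-(1 / (2 * (n : ℝ))))..(((N : ℝ) - 1 / 2) / n),
        g (gpt (fun x => t * trap A B d₁ d₂ x) x) *
          (1 + ((t * deriv (trap A B d₁ d₂) x : ℝ) : ℂ) * I))‖ ≤ (1 + L) * n * M := by
  have hn : 0 < n := hN.trans_le hNn
  have hn0 : (0 : ℝ) < n := by exact_mod_cast hn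
  have hNn' : (N : ℝ) ≤ n := by exact_mod_cast hNn
  have hN1 : (1 : ℝ) ≤ N := by exact_mod_cast hN
  set a' : ℝ := -(1 / (2 * (n : ℝ))) with ha'
  set b' : ℝ := ((N : ℝ) - 1 / 2) / n with hb'
  have hba : b' - a' = N / n := by
    rw [ha', hb']
    field_simp
    ring
  have hab : a' ≤ b' := by
    have : 0 ≤ (N : ℝ) / n := by positivity
    linarith only [hba, this]
  have hL0 : 0 ≤ L := le_trans (by positivity) hL₁
  have hM0 : 0 ≤ M := (norm_nonneg _).trans (hM (gpt (fun x => t * trap A B d₁ d₂ x) a')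
    ⟨by rw [gpt_re], by rw [gpt_re]; exact hab, by rw [gpt_im, gpt_re]⟩)
  have hl : ∀ x, |t * deriv (trap A B d₁ d₂) x| ≤ L := by
    intro x
    rw [abs_mul]
    have h3 := abs_deriv_of_lip (trap_lip (A := A) (B := B) h1 h2 (le_max_left (1 / d₁) (1 / d₂))
      (le_max_right _ _)) x
    refine (mul_le_mul_of_nonneg_left h3 (abs_nonneg t)).trans ?_
    rw [mul_max_of_nonneg _ _ (abs_nonneg t)]
    apply max_le
    · calc |t| * (1 / d₁) = |t| / d₁ := by ring
        _ ≤ L := hL₁
    · calc |t| * (1 / d₂) = |t| / d₂ := by ring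
        _ ≤ L := hL₂
  have h3 : ∀ x ∈ uIoc a' b', ‖g (gpt (fun x => t * trap A B d₁ d₂ x) x) *
      (1 + ((t * deriv (trap A B d₁ d₂) x : ℝ) : ℂ) * I)‖ ≤ M * (1 + L) := by
    intro x hx
    rw [uIoc_of_le hab] at hx
    rw [norm_mul]
    refine mul_le_mul (hM _ ⟨by rw [gpt_re]; exact hx.1.le, by rw [gpt_re]; exact hx.2,
      by rw [gpt_im, gpt_re]⟩) ?_ (norm_nonneg _) hM0
    refine (norm_add_le _ _).trans ?_
    rw [norm_one, norm_mul, norm_I, mul_one, Complex.norm_real, Real.norm_eq_abs]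
    linarith only [hl, hl x]
  have h4 := intervalIntegral.norm_integral_le_of_norm_le_const h3
  rw [abs_of_nonneg (by linarith only [hab] : 0 ≤ b' - a'), hba] at h4
  rw [norm_mul, Complex.norm_natCast]
  calc (n : ℝ) * _ ≤ n * (M * (1 + L) * (N / n)) := mul_le_mul_of_nonneg_left h4 hn0.le
    _ = M * (1 + L) * N := by field_simp
    _ ≤ M * (1 + L) * n := mul_le_mul_of_nonneg_left hNn' (by positivity)
    _ = (1 + L) * n * M := by ring

/-- **a continuous variable**: the integral over `[a,b]` along a trapezoidal path -/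
theorem integral_graph {g : ℂ → ℂ} {a b : ℝ} (hab : a ≤ b)
    (hg : ∀ w ∈ strip a b, DifferentiableAt ℂ g w) {h h' : ℝ → ℝ} {s : Set ℝ}
    (H : GraphD h h' a b s) :
    ∫ x : ℝ in a..b, g x = ∫ x : ℝ in a..b, g (gpt h x) * (1 + h' x * I) := by
  have hgc : ContinuousOn (fun x => g (gpt h x)) (Icc a b) :=
    fun x hx => (hg _ ⟨by rw [gpt_re]; exact hx.1, by
      rw [gpt_re]; exact hx.2⟩).continuousAt.comp_continuousWithinAt (H.contg x hx)
  have h1 := path_indep (convex_strip a b) hg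
    (γ := fun x : ℝ => (x : ℂ)) (γ' := fun _ => 1) (δ := gpt h) (δ' := fun x => 1 + h' x * I)
    hab hab (by fun_prop) (fun x hx => ⟨by simpa using hx.1, by simpa using hx.2⟩)
    H.contg (fun x hx => ⟨by rw [gpt_re]; exact hx.1, by rw [gpt_re]; exact hx.2⟩)
    countable_empty H.cnt
    (fun x _ => Complex.ofRealCLM.hasDerivAt (x := x)) H.derg (by
      refine (ContinuousOn.mul (fun x hx => ?_)
        continuousOn_const).intervalIntegrable_of_Icc hab
      exact ContinuousAt.comp_continuousWithinAt (g := g) (f := fun x : ℝ => (x : ℂ))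
        (hg _ ⟨by simpa using hx.1, by simpa using hx.2⟩).continuousAt
        (Complex.continuous_ofReal.continuousWithinAt))
    (H.intg hab hgc) (gpt_of_zero H.left).symm (gpt_of_zero H.right).symm
  simpa using h1

end Pool.Agent.Work.MP_b30479_gtS.VC

end

section

/-!
# One discrete variable: sum over lattice points = integral along a trapezoidal path

The window `A < k ≤ B` of the sum over `0 ≤ k < n` becomes an integral along `pt a b c c' h` over
`[a, b]`, `a = (A + 1/2)/n`, `b = (B + 1/2)/n`; the error is controlled by the two mode paths and by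
the other lattice points.
-/

namespace Pool.Agent.Work.MP_b30479_gtS.G2

open Finset MeasureTheory Filter Topology

theorem tr_eq (a b c c' x : ℝ) : tr a b c c' x = VC.trap a b c c' x := rfl

theorem pt_eq (a b c c' h x : ℝ) : pt a b c c' h x = VC.gpt (fun x => h * tr a b c c' x) x := rfl

theorem pt_re (a b c c' h x : ℝ) : (pt a b c c' h x).re = x := by
  rw [pt_eq, VC.gpt_re]

theorem pt_im (a b c c' h x : ℝ) : (pt a b c c' h x).im = h * tr a b c c' x := by
  rw [pt_eq, VC.gpt_im]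

theorem tr_nonneg (a b c c' x : ℝ) : 0 ≤ tr a b c c' x := VC.trap_nonneg a b c c' x

theorem tr_le_one (a b c c' x : ℝ) : tr a b c c' x ≤ 1 := VC.trap_le_one a b c c' x

theorem continuous_tr {c c' : ℝ} (hc : 0 < c) (hc' : 0 < c') (a b : ℝ) :
    Continuous (tr a b c c') :=
  VC.continuous_of_lip (VC.trap_lip hc hc' (le_max_left _ _) (le_max_right _ _))

theorem continuous_pt {c c' : ℝ} (hc : 0 < c) (hc' : 0 < c') (a b h : ℝ) :
    Continuous (pt a b c c' h) := by
  have := continuous_tr hc hc' a b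
  unfold pt
  fun_prop

/-- the path of the window `A < k ≤ B` with height `h` and ramps `c`, `c'` -/
noncomputable def gP (n A B : ℕ) (h c c' : ℝ) (hAB : A ≤ B) (hc : 0 < c) (hc' : 0 < c') :
    PathW where
  a := ((A : ℝ) + 1 / 2) / n
  b := ((B : ℝ) + 1 / 2) / n
  hab := by
    apply div_le_div_of_nonneg_right _ (Nat.cast_nonneg n)
    have : (A : ℝ) ≤ B := by exact_mod_cast hAB
    linarith only [this]
  γ := pt (((A : ℝ) + 1 / 2) / n) (((B : ℝ) + 1 / 2) / n) c c' h
  ω := fun x => n * (1 + ((h * deriv (tr (((A : ℝ) + 1 / 2) / n) (((B : ℝ) + 1 / 2) / n) c c') x :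
    ℝ) : ℂ) * Complex.I)
  cont := continuous_pt hc hc' _ _ _
  int := by
    have h1 := (VC.graphD_trap (A := ((A : ℝ) + 1 / 2) / n) (B := ((B : ℝ) + 1 / 2) / n) hc hc' h
      (le_refl (((A : ℝ) + 1 / 2) / n)) (le_refl (((B : ℝ) + 1 / 2) / n))).intg (by
        apply div_le_div_of_nonneg_right _ (Nat.cast_nonneg n)
        have : (A : ℝ) ≤ B := by exact_mod_cast hAB
        linarith only [this]) (f := fun _ => (n : ℂ)) continuousOn_const
    exact h1

/-- the error set of the window: mode paths and lattice points outside the window -/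
def gE (n A B : ℕ) (hu hd c c' : ℝ) : Set ℂ :=
  {w | ∃ x : ℝ, ((A : ℝ) + 1 / 2) / n ≤ x ∧ x ≤ ((B : ℝ) + 1 / 2) / n ∧
    (w = pt (((A : ℝ) + 1 / 2) / n) (((B : ℝ) + 1 / 2) / n) c c' hu x ∨
      w = pt (((A : ℝ) + 1 / 2) / n) (((B : ℝ) + 1 / 2) / n) c c' (-hd) x)} ∪
  {w | ∃ k : ℕ, k < n ∧ (k ≤ A ∨ B < k) ∧ w = (k : ℂ) / n}

/-- the penalty -/
noncomputable def gq (n : ℕ) (w : ℂ) : ℝ := Real.exp (-(2 * Real.pi * n * |w.im|))

theorem gq_pos (n : ℕ) (w : ℂ) : 0 < gq n w := Real.exp_pos _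

theorem gq_real (n : ℕ) (x : ℝ) : gq n (x : ℂ) = 1 := by simp [gq]

theorem trap_ge2 {A B c c' κ t u : ℝ} (hc : 0 < c) (hc' : 0 < c') (ht : 0 ≤ t) (hκ : κ * c ≤ t)
    (hκ' : κ * c' ≤ t) (hu : κ * u ≤ t) (hκ0 : 0 ≤ κ) (x : ℝ) :
    κ * min u (min (x - A) (B - x)) ≤ t * VC.trap A B c c' x := by
  rcases le_total 0 (min (x - A) (B - x)) with h | h
  · have h1 : κ * min u (min (x - A) (B - x)) ≤
        t * min 1 (min ((x - A) / c) ((B - x) / c')) := by
      rw [mul_min_of_nonneg _ _ hκ0, mul_min_of_nonneg _ _ hκ0, mul_min_of_nonneg _ _ ht,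
        mul_min_of_nonneg _ _ ht, mul_one]
      have h2 := le_min_iff.mp h
      refine le_min ((min_le_left _ _).trans hu) (le_min ?_ ?_)
      · refine (min_le_right _ _).trans ((min_le_left _ _).trans ?_)
        rw [mul_div_assoc', le_div_iff₀ hc]
        nlinarith only [hκ, h2, mul_le_mul_of_nonneg_right hκ h2.1]
      · refine (min_le_right _ _).trans ((min_le_right _ _).trans ?_)
        rw [mul_div_assoc', le_div_iff₀ hc']
        nlinarith only [hκ', h2, mul_le_mul_of_nonneg_right hκ' h2.2]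
    exact h1.trans (mul_le_mul_of_nonneg_left (le_max_right _ _) ht)
  · have h1 : κ * min u (min (x - A) (B - x)) ≤ 0 :=
      mul_nonpos_of_nonneg_of_nonpos hκ0 ((min_le_right _ _).trans h)
    exact h1.trans (mul_nonneg ht (VC.trap_nonneg _ _ _ _ _))

theorem slope_le {a b c c' t L : ℝ} (hc : 0 < c) (hc' : 0 < c') (h1 : |t| / c ≤ L)
    (h2 : |t| / c' ≤ L) (x : ℝ) : |t * deriv (VC.trap a b c c') x| ≤ L := by
  rw [abs_mul]
  have h3 := VC.abs_deriv_of_lip (VC.trap_lip (A := a) (B := b) hc hc'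
    (le_max_left (1 / c) (1 / c')) (le_max_right _ _)) x
  refine (mul_le_mul_of_nonneg_left h3 (abs_nonneg t)).trans ?_
  rw [mul_max_of_nonneg _ _ (abs_nonneg t)]
  apply max_le
  · calc |t| * (1 / c) = |t| / c := by ring
      _ ≤ L := h1
  · calc |t| * (1 / c') = |t| / c' := by ring
      _ ≤ L := h2

/-- **One discrete variable, main term.** -/
theorem main1_graph {n A B : ℕ} (hAB : A < B) (hBn : B < n) {h hu hd c c' : ℝ} (hc : 0 < c)
    (hc' : 0 < c') (hu0 : 0 < hu) (hd0 : 0 < hd) {κ : ℝ} (hκ : 0 < κ)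
    (k1 : κ * c ≤ hu) (k2 : κ * c' ≤ hu) (k3 : κ * (1 / (4 * (n : ℝ))) ≤ hu)
    (k4 : κ * c ≤ hd) (k5 : κ * c' ≤ hd) (k6 : κ * (1 / (4 * (n : ℝ))) ≤ hd) {L : ℝ}
    (l1 : hu / c ≤ L) (l2 : hu / c' ≤ L) (l3 : hd / c ≤ L) (l4 : hd / c' ≤ L) {U : Set ℂ}
    (hU : ∀ w : ℂ, ((A : ℝ) + 1 / 2) / n ≤ w.re → w.re ≤ ((B : ℝ) + 1 / 2) / n → U ∈ 𝓝 w) :
    Main1 n ((2 * (1 + L) / (1 - Real.exp (-(Real.pi * κ / 2))) + 1) * n) U
      (gP n A B h c c' hAB.le hc hc') (gE n A B hu hd c c') (gq n) := by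
  intro g hg M hM0 hM
  have hn : 0 < n := (Nat.zero_le B).trans_lt hBn
  have hn0 : (0 : ℝ) < n := by exact_mod_cast hn
  have hL0 : 0 ≤ L := le_trans (by positivity) l1
  have hden : 0 < 1 - Real.exp (-(Real.pi * κ / 2)) := by
    have : Real.exp (-(Real.pi * κ / 2)) < 1 := by
      rw [Real.exp_lt_one_iff]
      have := Real.pi_pos
      have : 0 < Real.pi * κ / 2 := by positivity
      linarith only [this]
    linarith only [this]
  have hBA : ((B - A : ℕ) : ℝ) = (B : ℝ) - A := by rw [Nat.cast_sub hAB.le]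
  have eA : ((((A : ℤ) + 1 : ℤ) : ℝ) - 1 / 2) / n = ((A : ℝ) + 1 / 2) / n := by
    push_cast
    ring
  have eB : ((((A : ℤ) + 1 : ℤ) : ℝ) + ((B - A : ℕ) : ℝ) - 1 / 2) / n = ((B : ℝ) + 1 / 2) / n := by
    rw [hBA]
    push_cast
    ring
  set a : ℝ := ((A : ℝ) + 1 / 2) / n with ha
  set b : ℝ := ((B : ℝ) + 1 / 2) / n with hb
  have hmode : ∀ s : ℝ, (s = hu ∨ s = -hd) → ∀ x, a ≤ x → x ≤ b →
      Real.exp (-(2 * Real.pi * n * |s * VC.trap a b c c' x|)) *
        ‖g (VC.gpt (fun x => s * VC.trap a b c c' x) x)‖ ≤ M := by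
    intro s hs x hx hx'
    have h1 := hM (pt a b c c' s x) (Or.inl ⟨x, hx, hx', by
      rcases hs with e | e
      · left; rw [e]
      · right; rw [e]⟩)
    unfold gq at h1
    rw [pt_im] at h1
    exact h1
  have key := VC.norm_sum_sub_le hn ((A : ℤ) + 1) (N := B - A) (by omega) (g := g)
    (by
      rw [eA, eB]
      intro w hw
      exact (hg w (mem_of_mem_nhds (hU w hw.1 hw.2))).differentiableAt (hU w hw.1 hw.2))
    (h := fun x => h * VC.trap a b c c' x) (h' := fun x => h * deriv (VC.trap a b c c') x)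
    (p := fun x => hu * VC.trap a b c c' x) (p' := fun x => hu * deriv (VC.trap a b c c') x)
    (q := fun x => hd * VC.trap a b c c' x) (q' := fun x => hd * deriv (VC.trap a b c c') x)
    (by rw [eA, eB]; exact VC.graphD_trap hc hc' h le_rfl le_rfl)
    (by rw [eA, eB]; exact VC.graphD_trap hc hc' hu le_rfl le_rfl)
    (by rw [eA, eB]; exact VC.graphD_trap hc hc' hd le_rfl le_rfl)
    (by rw [eA, eB]; exact fun x hx => mul_pos hu0 (VC.trap_pos hc hc' hx.1 hx.2))
    (by rw [eA, eB]; exact fun x hx => mul_pos hd0 (VC.trap_pos hc hc' hx.1 hx.2)) hκ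
    (by rw [eA, eB]; exact trap_ge2 hc hc' hu0.le k1 k2 k3 hκ.le)
    (by rw [eA, eB]; exact trap_ge2 hc hc' hd0.le k4 k5 k6 hκ.le)
    (L := L) (slope_le hc hc' (by rwa [abs_of_pos hu0]) (by rwa [abs_of_pos hu0]))
    (slope_le hc hc' (by rwa [abs_of_pos hd0]) (by rwa [abs_of_pos hd0])) (M := M)
    (by
      rw [eA, eB]
      intro x hx hx'
      have h1 := hmode hu (Or.inl rfl) x hx hx'
      rw [abs_of_nonneg (mul_nonneg hu0.le (VC.trap_nonneg _ _ _ _ _))] at h1
      convert h1 using 3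
      ring)
    (by
      rw [eA, eB]
      intro x hx hx'
      have h1 := hmode (-hd) (Or.inr rfl) x hx hx'
      have h2 : (fun x => -hd * VC.trap a b c c' x) = fun x => -(hd * VC.trap a b c c' x) := by
        funext x
        ring
      rw [h2, neg_mul, abs_neg, abs_of_nonneg (mul_nonneg hd0.le (VC.trap_nonneg _ _ _ _ _))] at h1
      convert h1 using 3
      ring)
  rw [eA, eB] at key
  have hsum : ∑ j ∈ Finset.range (B - A), g (((((A : ℤ) + 1 : ℤ) : ℂ) + j) / n) =
      ∑ k ∈ Finset.Ioc A B, g ((k : ℂ) / n) := by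
    have h1 : Finset.Ioc A B = Finset.Ico (A + 1) (B + 1) := by
      ext k
      simp only [Finset.mem_Ioc, Finset.mem_Ico]
      omega
    rw [h1, Finset.sum_Ico_eq_sum_range]
    have : B + 1 - (A + 1) = B - A := by omega
    rw [this]
    refine Finset.sum_congr rfl fun k _ => ?_
    push_cast
    rfl
  rw [hsum] at key
  have hsplit : ∑ k ∈ Finset.range n, g ((k : ℂ) / n) =
      ∑ k ∈ Finset.Ioc A B, g ((k : ℂ) / n) +
      ∑ k ∈ Finset.range n \ Finset.Ioc A B, g ((k : ℂ) / n) := by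
    rw [add_comm, Finset.sum_sdiff]
    intro k hk
    rw [Finset.mem_Ioc] at hk
    rw [Finset.mem_range]
    omega
  have hcard : ((Finset.range n \ Finset.Ioc A B).card : ℝ) = n - (B - A) := by
    have h1 : (Finset.range n \ Finset.Ioc A B).card = n - (B - A) := by
      rw [Finset.card_sdiff_of_subset, Finset.card_range, Nat.card_Ioc]
      intro k hk
      rw [Finset.mem_Ioc] at hk
      rw [Finset.mem_range]
      omega
    rw [h1, Nat.cast_sub (by omega), hBA]
  have htail : ‖∑ k ∈ Finset.range n \ Finset.Ioc A B, g ((k : ℂ) / n)‖ ≤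
      ((n : ℝ) - (B - A)) * M := by
    have h3 : ‖∑ k ∈ Finset.range n \ Finset.Ioc A B, g ((k : ℂ) / n)‖ ≤
        ∑ k ∈ Finset.range n \ Finset.Ioc A B, M := by
      refine norm_sum_le_of_le _ fun k hk => ?_
      rw [Finset.mem_sdiff, Finset.mem_range, Finset.mem_Ioc] at hk
      have h4 := hM ((k : ℂ) / n) (Or.inr ⟨k, hk.1, by omega, rfl⟩)
      have h5 : ((k : ℂ) / n) = (((k : ℝ) / n : ℝ) : ℂ) := by push_cast; rfl
      rw [h5, gq_real, one_mul, ← h5] at h4
      exact h4
    rw [Finset.sum_const, nsmul_eq_mul, hcard] at h3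
    exact h3
  have hint : (∫ x in (gP n A B h c c' hAB.le hc hc').a..(gP n A B h c c' hAB.le hc hc').b,
      g ((gP n A B h c c' hAB.le hc hc').γ x) * (gP n A B h c c' hAB.le hc hc').ω x) =
      n * ∫ x : ℝ in a..b, g (VC.gpt (fun x => h * VC.trap a b c c' x) x) *
        (1 + ((h * deriv (VC.trap a b c c') x : ℝ) : ℂ) * Complex.I) := by
    rw [← intervalIntegral.integral_const_mul]
    refine intervalIntegral.integral_congr fun x _ => ?_
    show g (pt a b c c' h x) * (n * (1 + ((h * deriv (tr a b c c') x : ℝ) : ℂ) * Complex.I)) = _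
    rw [pt_eq]
    have e1 : deriv (tr a b c c') x = deriv (VC.trap a b c c') x := rfl
    rw [e1]
    simp only [tr_eq]
    ring
  rw [hint, hsplit]
  have h5 : ∀ u v w : ℂ, u + v - w = (u - w) + v := fun u v w => by ring
  rw [h5]
  refine (norm_add_le _ _).trans ((add_le_add key htail).trans ?_)
  rw [hBA]
  have h6 : (2 * (1 + L) / (1 - Real.exp (-(Real.pi * κ / 2))) + 1) * n * M -
      (2 * ((B : ℝ) - A) * (1 + L) / (1 - Real.exp (-(Real.pi * κ / 2))) * M +
        ((n : ℝ) - (B - A)) * M) =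
      ((n : ℝ) - (B - A)) * (2 * (1 + L) / (1 - Real.exp (-(Real.pi * κ / 2))) * M) +
        ((B : ℝ) - A) * M := by
    ring
  have h7 : (0 : ℝ) ≤ (n : ℝ) - (B - A) := by
    rw [← hcard]
    positivity
  have h8 : (0 : ℝ) ≤ (B : ℝ) - A := by
    rw [← hBA]
    positivity
  have h9 : 0 ≤ ((n : ℝ) - (B - A)) * (2 * (1 + L) / (1 - Real.exp (-(Real.pi * κ / 2))) * M) +
        ((B : ℝ) - A) * M := by positivity
  linarith only [h6, h9]

/-- the total weight of the path -/
theorem integral_norm_gP_le {n A B : ℕ} (hAB : A ≤ B) (hBn : B < n) {h c c' : ℝ} (hc : 0 < c)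
    (hc' : 0 < c') {L : ℝ} (l1 : |h| / c ≤ L) (l2 : |h| / c' ≤ L) :
    ∫ x in (gP n A B h c c' hAB hc hc').a..(gP n A B h c c' hAB hc hc').b,
      ‖(gP n A B h c c' hAB hc hc').ω x‖ ≤ (1 + L) * n := by
  have hn : 0 < n := (Nat.zero_le B).trans_lt hBn
  have hn0 : (0 : ℝ) < n := by exact_mod_cast hn
  have hL0 : 0 ≤ L := le_trans (by positivity) l1
  set P := gP n A B h c c' hAB hc hc' with hP
  have h1 : ∀ x, ‖P.ω x‖ ≤ n * (1 + L) := by
    intro x
    show ‖(n : ℂ) * (1 + ((h * deriv (VC.trap (((A : ℝ) + 1 / 2) / n) (((B : ℝ) + 1 / 2) / n) c c')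
      x : ℝ) : ℂ) * Complex.I)‖ ≤ _
    rw [norm_mul, Complex.norm_natCast]
    apply mul_le_mul_of_nonneg_left _ hn0.le
    refine (norm_add_le _ _).trans ?_
    rw [norm_one, norm_mul, Complex.norm_I, mul_one, Complex.norm_real, Real.norm_eq_abs]
    linarith only [hc, hc', l1, l2, slope_le (a := ((A : ℝ) + 1 / 2) / n) (b := ((B : ℝ) + 1 / 2) / n) hc hc' l1 l2 x]
  have hab := P.hab
  have h2 : ∫ x in P.a..P.b, ‖P.ω x‖ ≤ ∫ x in P.a..P.b, (n * (1 + L) : ℝ) :=
    intervalIntegral.integral_mono_on hab P.int.norm (by simp) fun x _ => h1 x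
  rw [intervalIntegral.integral_const, smul_eq_mul] at h2
  have h3 : P.b - P.a ≤ 1 := by
    show ((B : ℝ) + 1 / 2) / n - ((A : ℝ) + 1 / 2) / n ≤ 1
    rw [← sub_div, div_le_one hn0]
    have h4 : (B : ℝ) < n := by exact_mod_cast hBn
    have h5 : (0 : ℝ) ≤ A := Nat.cast_nonneg A
    linarith only [h4]
  have h6 : (P.b - P.a) * (n * (1 + L)) ≤ 1 * (n * (1 + L)) :=
    mul_le_mul_of_nonneg_right h3 (by positivity)
  linarith only [h2, h6]

/-- from the main term to a bound -/
theorem bound1_of_main1 {n : ℕ} {K K' : ℝ} {U : Set ℂ} {P : PathW} {E : Set ℂ}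
    {q : ℂ → ℝ} (hm : Main1 n K U P E q) (hP : ∫ x in P.a..P.b, ‖P.ω x‖ ≤ K')
    {S : Set ℂ} {p : ℂ → ℝ}
    (h1 : ∀ x, P.a ≤ x → x ≤ P.b → P.γ x ∈ S ∧ 1 ≤ p (P.γ x))
    (h2 : ∀ w ∈ E, w ∈ S ∧ q w ≤ p w) : Bound1 n (K + K') U S p := by
  intro g hg B hB0 hB
  have h3 := hm g hg B hB0 fun w hw => by
    have h4 := h2 w hw
    exact (mul_le_mul_of_nonneg_right h4.2 (norm_nonneg _)).trans (hB w h4.1)
  have h5 : ‖∫ x in P.a..P.b, g (P.γ x) * P.ω x‖ ≤ K' * B := by
    have h6 : ‖∫ x in P.a..P.b, g (P.γ x) * P.ω x‖ ≤ ∫ x in P.a..P.b, B * ‖P.ω x‖ := by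
      refine intervalIntegral.norm_integral_le_of_norm_le P.hab ?_ (P.int.norm.const_mul B)
      refine ae_of_all _ fun x hx => ?_
      rw [norm_mul]
      apply mul_le_mul_of_nonneg_right _ (norm_nonneg _)
      have h7 := h1 x hx.1.le hx.2
      have h8 := hB _ h7.1
      have h9 := mul_le_mul_of_nonneg_right h7.2 (norm_nonneg (g (P.γ x)))
      linarith only [h8, h9]
    rw [intervalIntegral.integral_const_mul] at h6
    have h7 := mul_le_mul_of_nonneg_left hP hB0
    linarith only [h6, h7]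
  have h6 : ∑ y ∈ range n, g ((y : ℂ) / n) = (∑ y ∈ range n, g ((y : ℂ) / n) -
      ∫ x in P.a..P.b, g (P.γ x) * P.ω x) + ∫ x in P.a..P.b, g (P.γ x) * P.ω x := by ring
  rw [h6]
  refine (norm_add_le _ _).trans ?_
  linarith only [h3, h5]

end Pool.Agent.Work.MP_b30479_gtS.G2

end

section

/-!
# Tensor products of one variable functionals

`Lam` is a functional of one complex variable: a sum over lattice points or a path integral, and
`itL N L G` is the tensor product of the functionals `L j`, applied to a holomorphic function `G` of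
`N` variables.  `tensorL`: if every `L j` is a path integral up to the values on an error set, then
the same is true for the tensor product.  `tensor_split`: the same, when every `L j` is a sum of two
functionals (core and tail).
-/

namespace Pool.Agent.Work.MP_b30479_gtS.G2

open Finset MeasureTheory

/-- a functional of one coordinate: a sum over lattice points, or a path integral -/
inductive Lam
  | disc (A : Finset ℕ) (n : ℕ)
  | path (P : PathW)

/-- the value of the functional -/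
noncomputable def Lam.ap : Lam → (ℂ → ℂ) → ℂ
  | .disc A n, g => ∑ y ∈ A, g ((y : ℂ) / n)
  | .path P, g => ∫ x in P.a..P.b, g (P.γ x) * P.ω x

/-- the functional uses values at points of `V` only -/
def Lam.In (V : Set ℂ) : Lam → Prop
  | .disc A n => ∀ y ∈ A, (y : ℂ) / n ∈ V
  | .path P => ∀ x ∈ Set.Icc P.a P.b, P.γ x ∈ V

/-- the tensor product of the functionals -/
noncomputable def itL : (N : ℕ) → (Fin N → Lam) → ((Fin N → ℂ) → ℂ) → ℂ
  | 0, _, G => G Fin.elim0
  | N + 1, L, G => (L 0).ap (fun w => itL N (Fin.tail L) (fun v => G (Fin.cons w v)))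

/-- a functional is bounded by the values on `S` with the penalty `p` -/
def BoundL (K : ℝ) (V : Set ℂ) (L : Lam) (S : Set ℂ) (p : ℂ → ℝ) : Prop :=
  ∀ g : ℂ → ℂ, DifferentiableOn ℂ g V → ∀ B, 0 ≤ B → (∀ w ∈ S, p w * ‖g w‖ ≤ B) →
    ‖L.ap g‖ ≤ K * B

/-- a functional is the path integral up to the values on `E` with the penalty `q` -/
def MainL (K : ℝ) (V : Set ℂ) (L : Lam) (P : PathW) (E : Set ℂ) (q : ℂ → ℝ) : Prop :=
  ∀ g : ℂ → ℂ, DifferentiableOn ℂ g V → ∀ B, 0 ≤ B → (∀ w ∈ E, q w * ‖g w‖ ≤ B) →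
    ‖L.ap g - (Lam.path P).ap g‖ ≤ K * B

/-- parametrised path integrals of a continuous function are continuous -/
theorem cont_int {X : Type} [TopologicalSpace X] [FirstCountableTopology X]
    [LocallyCompactSpace X] {W : Set X} (hW : IsOpen W) (P : PathW) {V : Set ℂ}
    (hP : ∀ x ∈ Set.Icc P.a P.b, P.γ x ∈ V) {F : X → ℂ → ℂ}
    (hF : ContinuousOn (fun q : X × ℂ => F q.1 q.2) (W ×ˢ V)) :
    ContinuousOn (fun x => ∫ t in P.a..P.b, F x (P.γ t) * P.ω t) W := by
  intro x0 hx0
  apply ContinuousAt.continuousWithinAt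
  obtain ⟨M, hM, hxM, hMW⟩ := exists_compact_subset hW hx0
  have hc : ContinuousOn (fun q : X × ℝ => F q.1 (P.γ q.2)) (W ×ˢ Set.Icc P.a P.b) := by
    apply hF.comp (f := fun q : X × ℝ => (q.1, P.γ q.2))
    · exact (continuous_fst.prodMk (P.cont.comp continuous_snd)).continuousOn
    · intro q hq
      exact ⟨hq.1, hP _ hq.2⟩
  obtain ⟨C, hC⟩ := (hM.prod (isCompact_Icc (a := P.a) (b := P.b))).exists_bound_of_continuousOn
    (hc.mono (Set.prod_mono hMW le_rfl))
  have hMn : M ∈ nhds x0 := mem_interior_iff_mem_nhds.mp hxM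
  apply intervalIntegral.continuousAt_of_dominated_interval (bound := fun x => C * ‖P.ω x‖)
  · filter_upwards [hMn] with x hx
    apply AEStronglyMeasurable.mul
    · rw [Set.uIoc_of_le P.hab]
      have h1 : ContinuousOn (fun t => F x (P.γ t)) (Set.Ioc P.a P.b) := by
        apply hc.comp (f := fun t : ℝ => (x, t)) (by fun_prop)
        intro t ht
        exact ⟨hMW hx, ht.1.le, ht.2⟩
      exact h1.aestronglyMeasurable measurableSet_Ioc
    · rw [Set.uIoc_of_le P.hab]
      exact P.int.1.aestronglyMeasurable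
  · filter_upwards [hMn] with x hx
    refine Filter.Eventually.of_forall fun t ht => ?_
    rw [Set.uIoc_of_le P.hab] at ht
    rw [norm_mul]
    exact mul_le_mul_of_nonneg_right (hC (x, t) ⟨hx, ht.1.le, ht.2⟩) (norm_nonneg _)
  · exact (P.int.norm).const_mul C
  · refine Filter.Eventually.of_forall fun t ht => ?_
    rw [Set.uIoc_of_le P.hab] at ht
    have h1 : ContinuousOn (fun x => F x (P.γ t)) W := by
      apply hc.comp (f := fun x : X => (x, t)) (by fun_prop)
      intro x hx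
      exact ⟨hx, ht.1.le, ht.2⟩
    exact (h1.continuousAt (hW.mem_nhds hx0)).mul continuousAt_const

/-- path integrals of holomorphic functions are holomorphic in the parameter -/
theorem diff_int {U : Set ℂ} (hU : IsOpen U) (P : PathW) {V : Set ℂ}
    (hP : ∀ x ∈ Set.Icc P.a P.b, P.γ x ∈ V) {F : ℂ → ℂ → ℂ}
    (hF : ContinuousOn (fun q : ℂ × ℂ => F q.1 q.2) (U ×ˢ V))
    (hd : ∀ z ∈ V, DifferentiableOn ℂ (fun w => F w z) U) :
    DifferentiableOn ℂ (fun w => ∫ t in P.a..P.b, F w (P.γ t) * P.ω t) U := by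
  intro w0 hw0
  apply DifferentiableAt.differentiableWithinAt
  obtain ⟨r, hr, hrU⟩ := Metric.nhds_basis_closedBall.mem_iff.mp (hU.mem_nhds hw0)
  have hc : ContinuousOn (fun q : ℂ × ℝ => F q.1 (P.γ q.2)) (U ×ˢ Set.Icc P.a P.b) := by
    apply hF.comp (f := fun q : ℂ × ℝ => (q.1, P.γ q.2))
    · exact (continuous_fst.prodMk (P.cont.comp continuous_snd)).continuousOn
    · intro q hq
      exact ⟨hq.1, hP _ hq.2⟩
  obtain ⟨C, hC⟩ := ((isCompact_closedBall w0 r).prod
    (isCompact_Icc (a := P.a) (b := P.b))).exists_bound_of_continuousOn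
    (hc.mono (Set.prod_mono hrU le_rfl))
  have hct : ∀ w ∈ U, ContinuousOn (fun t => F w (P.γ t)) (Set.Ioc P.a P.b) := by
    intro w hw
    apply hc.comp (f := fun t : ℝ => (w, t)) (by fun_prop)
    intro t ht
    exact ⟨hw, ht.1.le, ht.2⟩
  have hdw : ∀ t ∈ Set.Ioc P.a P.b, ∀ w ∈ U,
      HasDerivAt (fun w => F w (P.γ t)) (deriv (fun w => F w (P.γ t)) w) w := by
    intro t ht w hw
    exact ((hd _ (hP t ⟨ht.1.le, ht.2⟩)).differentiableAt (hU.mem_nhds hw)).hasDerivAt
  have hr2 : 0 < r / 2 := by positivity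
  have hbU : Metric.ball w0 (r / 2) ⊆ U := fun w hw => hrU (by
    rw [Metric.mem_ball] at hw
    rw [Metric.mem_closedBall]
    linarith)
  have hωm : AEStronglyMeasurable P.ω (volume.restrict (Set.Ioc P.a P.b)) :=
    P.int.1.aestronglyMeasurable
  have hdm : AEStronglyMeasurable (fun t => deriv (fun w => F w (P.γ t)) w0)
      (volume.restrict (Set.Ioc P.a P.b)) := by
    have hseq : Filter.Tendsto (fun k : ℕ => w0 + ((r / (k + 1) : ℝ) : ℂ)) Filter.atTop
        (nhdsWithin w0 {w0}ᶜ) := by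
      apply tendsto_nhdsWithin_iff.mpr
      constructor
      · have h1 : Filter.Tendsto (fun k : ℕ => r / ((k : ℝ) + 1)) Filter.atTop (nhds 0) :=
          tendsto_const_nhds.div_atTop
            (Filter.tendsto_atTop_add_const_right _ _ tendsto_natCast_atTop_atTop)
        have h2 := (Complex.continuous_ofReal.tendsto 0).comp h1
        simpa using h2.const_add w0
      · refine Filter.Eventually.of_forall fun k => ?_
        have : r / ((k : ℝ) + 1) ≠ 0 := by positivity
        simp only [Set.mem_compl_iff, Set.mem_singleton_iff, add_eq_left]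
        exact_mod_cast this
    apply aestronglyMeasurable_of_tendsto_ae (u := Filter.atTop)
      (f := fun k : ℕ => fun t => slope (fun w => F w (P.γ t)) w0 (w0 + ((r / (k + 1) : ℝ) : ℂ)))
    · intro k
      have hk : w0 + ((r / (k + 1) : ℝ) : ℂ) ∈ U := by
        apply hrU
        rw [Metric.mem_closedBall, dist_eq_norm, add_sub_cancel_left, Complex.norm_real,
          Real.norm_of_nonneg (by positivity)]
        apply div_le_self hr.le
        have : (0 : ℝ) ≤ k := Nat.cast_nonneg k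
        linarith
      simp only [slope_def_field]
      apply ContinuousOn.aestronglyMeasurable _ measurableSet_Ioc
      exact ((hct _ hk).sub (hct _ hw0)).div_const _
    · apply (ae_restrict_iff' measurableSet_Ioc).mpr
      refine Filter.Eventually.of_forall fun t ht => ?_
      exact (hasDerivAt_iff_tendsto_slope.mp (hdw t ht w0 hw0)).comp hseq
  have key := intervalIntegral.hasDerivAt_integral_of_dominated_loc_of_deriv_le
    (μ := volume) (a := P.a) (b := P.b)
    (F := fun w t => F w (P.γ t) * P.ω t)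
    (F' := fun w t => deriv (fun w => F w (P.γ t)) w * P.ω t) (x₀ := w0)
    (s := Metric.ball w0 (r / 2)) (bound := fun t => C / (r / 2) * ‖P.ω t‖)
    (Metric.ball_mem_nhds _ hr2) (by
      filter_upwards [hU.mem_nhds hw0] with w hw
      rw [Set.uIoc_of_le P.hab]
      exact ((hct w hw).aestronglyMeasurable measurableSet_Ioc).mul hωm) (by
      apply P.int.continuousOn_mul
      rw [Set.uIcc_of_le P.hab]
      apply hc.comp (f := fun t : ℝ => (w0, t)) (by fun_prop)
      intro t ht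
      exact ⟨hw0, ht⟩) (by
      rw [Set.uIoc_of_le P.hab]
      exact hdm.mul hωm) (by
      refine Filter.Eventually.of_forall fun t ht w hw => ?_
      rw [Set.uIoc_of_le P.hab] at ht
      rw [norm_mul]
      apply mul_le_mul_of_nonneg_right _ (norm_nonneg _)
      apply Complex.norm_deriv_le_of_forall_mem_sphere_norm_le hr2
      · apply DifferentiableOn.diffContOnCl
        apply (hd _ (hP t ⟨ht.1.le, ht.2⟩)).mono
        intro z hz
        have hz' := Metric.closure_ball_subset_closedBall hz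
        apply hrU
        rw [Metric.mem_closedBall] at hz' ⊢
        rw [Metric.mem_ball] at hw
        linarith [dist_triangle z w w0]
      · intro z hz
        apply hC (z, t)
        refine ⟨?_, ht.1.le, ht.2⟩
        rw [Metric.mem_sphere] at hz
        rw [Metric.mem_closedBall]
        rw [Metric.mem_ball] at hw
        linarith [dist_triangle z w w0]) (by
      exact (P.int.norm).const_mul _) (by
      refine Filter.Eventually.of_forall fun t ht w hw => ?_
      rw [Set.uIoc_of_le P.hab] at ht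
      exact (hdw t ht w (hbU hw)).mul_const _)
  exact key.2.differentiableAt

theorem differentiable_cons_left {N : ℕ} (v : Fin N → ℂ) :
    Differentiable ℂ (fun w : ℂ => (Fin.cons w v : Fin (N + 1) → ℂ)) := by
  rw [differentiable_pi]
  intro j
  refine Fin.cases ?_ ?_ j
  · simp only [Fin.cons_zero]
    exact differentiable_id
  · intro j
    simp only [Fin.cons_succ]
    exact differentiable_const _

theorem differentiable_cons_right {N : ℕ} (w : ℂ) :
    Differentiable ℂ (fun v : Fin N → ℂ => (Fin.cons w v : Fin (N + 1) → ℂ)) := by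
  rw [differentiable_pi]
  intro j
  refine Fin.cases ?_ ?_ j
  · simp only [Fin.cons_zero]
    exact differentiable_const _
  · intro j
    simp only [Fin.cons_succ]
    exact differentiable_apply j

theorem cons_mem {N : ℕ} {V : Fin (N + 1) → Set ℂ} {w : ℂ} {v : Fin N → ℂ} (hw : w ∈ V 0)
    (hv : v ∈ Set.univ.pi (Fin.tail V)) : (Fin.cons w v : Fin (N + 1) → ℂ) ∈ Set.univ.pi V := by
  intro j _
  refine Fin.cases ?_ ?_ j
  · simpa using hw
  · intro j
    have := hv j (Set.mem_univ j)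
    simpa [Fin.tail] using this

/-- iterated functionals of a continuous function are continuous in the parameter -/
theorem itL_contOn {X : Type} [TopologicalSpace X] [FirstCountableTopology X]
    [LocallyCompactSpace X] : ∀ (N : ℕ) (L : Fin N → Lam) (V : Fin N → Set ℂ)
    (_ : ∀ j, IsOpen (V j)) (_ : ∀ j, (L j).In (V j)) (W : Set X) (_ : IsOpen W)
    (H : X → (Fin N → ℂ) → ℂ)
    (_ : ContinuousOn (fun q : X × (Fin N → ℂ) => H q.1 q.2) (W ×ˢ Set.univ.pi V)),
    ContinuousOn (fun x => itL N L (H x)) W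
  | 0, L, V, _, _, W, _, H, hH => by
      simp only [itL]
      apply hH.comp (f := fun x : X => (x, (Fin.elim0 : Fin 0 → ℂ))) (by fun_prop)
      intro x hx
      exact ⟨hx, fun j => j.elim0⟩
  | N + 1, L, V, hV, hL, W, hW, H, hH => by
      have ih : ContinuousOn (fun q : X × ℂ => itL N (Fin.tail L)
          ((fun (q : X × ℂ) (v : Fin N → ℂ) => H q.1 (Fin.cons q.2 v)) q)) (W ×ˢ V 0) := by
        apply itL_contOn (X := X × ℂ) N (Fin.tail L) (Fin.tail V) (fun j => hV _) (fun j => hL _)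
          (W ×ˢ V 0) (hW.prod (hV 0)) (fun q v => H q.1 (Fin.cons q.2 v))
        apply hH.comp (f := fun r : (X × ℂ) × (Fin N → ℂ) =>
          (r.1.1, (Fin.cons r.1.2 r.2 : Fin (N + 1) → ℂ)))
        · have : Continuous fun r : (X × ℂ) × (Fin N → ℂ) =>
              (r.1.1, (Fin.cons r.1.2 r.2 : Fin (N + 1) → ℂ)) := by
            refine Continuous.prodMk (by fun_prop) ?_
            exact Continuous.finCons (by fun_prop) (by fun_prop)
          exact this.continuousOn
        · intro r hr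
          exact ⟨hr.1.1, cons_mem hr.1.2 hr.2⟩
      simp only [itL]
      have hL0 := hL 0
      cases hLc : L 0 with
      | disc A n =>
        rw [hLc] at hL0
        simp only [Lam.ap]
        apply continuousOn_finsetSum
        intro y hy
        apply ih.comp (f := fun x : X => (x, (y : ℂ) / n)) (by fun_prop)
        intro x hx
        exact ⟨hx, hL0 y hy⟩
      | path P =>
        rw [hLc] at hL0
        simp only [Lam.ap]
        exact cont_int hW P hL0 (F := fun x z => itL N (Fin.tail L) (fun v => H x (Fin.cons z v))) ih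

/-- iterated functionals of a holomorphic function are holomorphic in the parameter -/
theorem itL_diff : ∀ (N : ℕ) (L : Fin N → Lam) (V : Fin N → Set ℂ)
    (_ : ∀ j, IsOpen (V j)) (_ : ∀ j, (L j).In (V j)) (U : Set ℂ) (_ : IsOpen U)
    (H : ℂ → (Fin N → ℂ) → ℂ)
    (_ : ContinuousOn (fun q : ℂ × (Fin N → ℂ) => H q.1 q.2) (U ×ˢ Set.univ.pi V))
    (_ : ∀ v ∈ Set.univ.pi V, DifferentiableOn ℂ (fun w => H w v) U),
    DifferentiableOn ℂ (fun w => itL N L (H w)) U
  | 0, L, V, _, _, U, _, H, _, hd => hd _ (fun j => j.elim0)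
  | N + 1, L, V, hV, hL, U, hU, H, hH, hd => by
      have hc : ContinuousOn (fun q : ℂ × ℂ => itL N (Fin.tail L)
          ((fun (q : ℂ × ℂ) (v : Fin N → ℂ) => H q.1 (Fin.cons q.2 v)) q)) (U ×ˢ V 0) := by
        apply itL_contOn (X := ℂ × ℂ) N (Fin.tail L) (Fin.tail V) (fun j => hV _) (fun j => hL _)
          (U ×ˢ V 0) (hU.prod (hV 0)) (fun q v => H q.1 (Fin.cons q.2 v))
        apply hH.comp (f := fun r : (ℂ × ℂ) × (Fin N → ℂ) =>
          (r.1.1, (Fin.cons r.1.2 r.2 : Fin (N + 1) → ℂ)))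
        · have : Continuous fun r : (ℂ × ℂ) × (Fin N → ℂ) =>
              (r.1.1, (Fin.cons r.1.2 r.2 : Fin (N + 1) → ℂ)) := by
            refine Continuous.prodMk (by fun_prop) ?_
            exact Continuous.finCons (by fun_prop) (by fun_prop)
          exact this.continuousOn
        · intro r hr
          exact ⟨hr.1.1, cons_mem hr.1.2 hr.2⟩
      have ih : ∀ z ∈ V 0, DifferentiableOn ℂ
          (fun w => itL N (Fin.tail L) (fun v => H w (Fin.cons z v))) U := by
        intro z hz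
        apply itL_diff N (Fin.tail L) (Fin.tail V) (fun j => hV _) (fun j => hL _) U hU
          (fun w v => H w (Fin.cons z v))
        · apply hH.comp (f := fun r : ℂ × (Fin N → ℂ) =>
            (r.1, (Fin.cons z r.2 : Fin (N + 1) → ℂ)))
          · have : Continuous fun r : ℂ × (Fin N → ℂ) =>
                (r.1, (Fin.cons z r.2 : Fin (N + 1) → ℂ)) := by
              refine Continuous.prodMk (by fun_prop) ?_
              exact Continuous.finCons (by fun_prop) (by fun_prop)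
            exact this.continuousOn
          · intro r hr
            exact ⟨hr.1, cons_mem hz hr.2⟩
        · intro v hv
          exact hd _ (cons_mem hz hv)
      simp only [itL]
      have hL0 := hL 0
      cases hLc : L 0 with
      | disc A n =>
        rw [hLc] at hL0
        simp only [Lam.ap]
        apply DifferentiableOn.fun_sum
        intro y hy
        exact ih _ (hL0 y hy)
      | path P =>
        rw [hLc] at hL0
        simp only [Lam.ap]
        exact diff_int hU P hL0 (F := fun w z => itL N (Fin.tail L) (fun v => H w (Fin.cons z v)))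
          hc ih

/-- one coordinate is left -/
theorem head_diff {N : ℕ} {L : Fin (N + 1) → Lam} {V : Fin (N + 1) → Set ℂ}
    (hV : ∀ j, IsOpen (V j)) (hL : ∀ j : Fin N, (L j.succ).In (V j.succ))
    {G : (Fin (N + 1) → ℂ) → ℂ} (hG : DifferentiableOn ℂ G (Set.univ.pi V)) :
    DifferentiableOn ℂ (fun w => itL N (Fin.tail L) (fun v => G (Fin.cons w v))) (V 0) := by
  apply itL_diff N (Fin.tail L) (Fin.tail V) (fun j => hV _) (fun j => hL _) (V 0) (hV 0)
    (fun w v => G (Fin.cons w v))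
  · apply hG.continuousOn.comp (f := fun r : ℂ × (Fin N → ℂ) =>
      (Fin.cons r.1 r.2 : Fin (N + 1) → ℂ))
    · have : Continuous fun r : ℂ × (Fin N → ℂ) => (Fin.cons r.1 r.2 : Fin (N + 1) → ℂ) :=
        Continuous.finCons (by fun_prop) (by fun_prop)
      exact this.continuousOn
    · intro r hr
      exact cons_mem hr.1 hr.2
  · intro v hv
    apply hG.comp (differentiable_cons_left v).differentiableOn
    intro w hw
    exact cons_mem hw hv

theorem tail_diff {N : ℕ} {V : Fin (N + 1) → Set ℂ}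
    {G : (Fin (N + 1) → ℂ) → ℂ} (hG : DifferentiableOn ℂ G (Set.univ.pi V)) {w : ℂ}
    (hw : w ∈ V 0) : DifferentiableOn ℂ (fun v => G (Fin.cons w v)) (Set.univ.pi (Fin.tail V)) := by
  apply hG.comp (differentiable_cons_right w).differentiableOn
  intro v hv
  exact cons_mem hw hv

theorem shift_dep {N : ℕ} {α : Type} (f : Fin (N + 1) → (Fin (N + 1) → ℂ) → α)
    (hf : ∀ j v v', (∀ i < j, v i = v' i) → f j v = f j v') (w : ℂ) (j : Fin N)
    (v v' : Fin N → ℂ) (h : ∀ i < j, v i = v' i) :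
    f j.succ (Fin.cons w v) = f j.succ (Fin.cons w v') := by
  apply hf
  intro i
  refine Fin.cases ?_ ?_ i
  · intro _; simp
  · intro i hi
    simpa using h i (Fin.succ_lt_succ_iff.mp hi)

/-- the tensor product is bounded by the values on the product of the sets -/
theorem itL_bound {K : ℝ} (hK : 0 ≤ K) : ∀ (N : ℕ) (L : Fin N → Lam) (V : Fin N → Set ℂ)
    (_ : ∀ j, IsOpen (V j)) (_ : ∀ j, (L j).In (V j))
    (S : Fin N → (Fin N → ℂ) → Set ℂ) (p : Fin N → (Fin N → ℂ) → ℂ → ℝ)
    (_ : ∀ j v v', (∀ i < j, v i = v' i) → S j v = S j v')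
    (_ : ∀ j v v', (∀ i < j, v i = v' i) → p j v = p j v')
    (_ : ∀ j v, ∀ w ∈ S j v, 0 ≤ p j v w) (_ : ∀ j v, S j v ⊆ V j)
    (_ : ∀ j v, BoundL K (V j) (L j) (S j v) (p j v))
    (G : (Fin N → ℂ) → ℂ) (_ : DifferentiableOn ℂ G (Set.univ.pi V))
    (c B : ℝ) (_ : 0 ≤ c) (_ : 0 ≤ B)
    (_ : ∀ v, (∀ j, v j ∈ S j v) → c * (∏ j, p j v (v j)) * ‖G v‖ ≤ B),
    c * ‖itL N L G‖ ≤ K ^ N * B
  | 0, L, V, _, _, S, p, _, _, _, _, _, G, _, c, B, _, _, hB => by
      have := hB Fin.elim0 (fun i => i.elim0)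
      simpa [itL] using this
  | N + 1, L, V, hV, hL, S, p, hS, hp, hp0, hSV, h1, G, hG, c, B, hc, hB0, hB => by
      set v0 : Fin (N + 1) → ℂ := fun _ => 0 with hv0
      have e0 : ∀ v, S 0 v = S 0 v0 := fun v => hS 0 v v0 (fun i hi => absurd hi (Fin.not_lt_zero i))
      have e0' : ∀ v, p 0 v = p 0 v0 := fun v =>
        hp 0 v v0 (fun i hi => absurd hi (Fin.not_lt_zero i))
      have hd := head_diff hV (L := L) (fun j => hL _) hG
      have hd' : DifferentiableOn ℂ
          (fun w => (c : ℂ) * itL N (Fin.tail L) (fun v => G (Fin.cons w v))) (V 0) :=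
        hd.const_mul _
      have h2 := h1 0 v0 _ hd' (K ^ N * B) (by positivity) (by
        intro w hw
        have hw' : w ∈ S 0 v0 := hw
        have hpw := hp0 0 v0 w hw'
        have ih := itL_bound hK N (Fin.tail L) (Fin.tail V) (fun j => hV _) (fun j => hL _)
          (fun j v => S j.succ (Fin.cons w v))
          (fun j v => p j.succ (Fin.cons w v)) (shift_dep S hS w) (shift_dep p hp w)
          (fun j v u hu => hp0 _ _ u hu) (fun j v => hSV _ _) (fun j v => h1 _ _)
          (fun v => G (Fin.cons w v)) (tail_diff hG (hSV 0 v0 hw')) (c * p 0 v0 w) B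
          (by positivity) hB0 (by
            intro v hv
            have h3 := hB (Fin.cons w v) (by
              intro j
              refine Fin.cases ?_ ?_ j
              · rw [e0]
                simpa using hw'
              · intro j
                simpa using hv j)
            rw [Fin.prod_univ_succ, e0'] at h3
            simp only [Fin.cons_zero, Fin.cons_succ] at h3
            calc c * p 0 v0 w * (∏ j, p j.succ (Fin.cons w v) (v j)) * ‖G (Fin.cons w v)‖
                = c * (p 0 v0 w * ∏ j : Fin N, p j.succ (Fin.cons w v) (v j)) *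
                  ‖G (Fin.cons w v)‖ := by ring
              _ ≤ B := h3)
        rw [norm_mul, Complex.norm_real, Real.norm_of_nonneg hc]
        calc p 0 v0 w * (c * ‖itL N (Fin.tail L) (fun v => G (Fin.cons w v))‖)
            = c * p 0 v0 w * ‖itL N (Fin.tail L) (fun v => G (Fin.cons w v))‖ := by ring
          _ ≤ K ^ N * B := ih)
      have h4 : (L 0).ap (fun w => (c : ℂ) * itL N (Fin.tail L) (fun v => G (Fin.cons w v))) =
          (c : ℂ) * itL (N + 1) L G := by
        simp only [itL]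
        cases L 0 with
        | disc A n =>
          simp only [Lam.ap]
          rw [mul_sum]
        | path P =>
          simp only [Lam.ap]
          rw [← intervalIntegral.integral_const_mul]
          simp only [mul_assoc]
      rw [h4, norm_mul, Complex.norm_real, Real.norm_of_nonneg hc] at h2
      calc c * ‖itL (N + 1) L G‖ ≤ K * (K ^ N * B) := h2
        _ = K ^ (N + 1) * B := by ring

theorem itL_path : ∀ (N : ℕ) (P : Fin N → PathW) (G : (Fin N → ℂ) → ℂ),
    itL N (fun j => .path (P j)) G = itR N P (fun x => G (pos P x))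
  | 0, P, G => by
      simp only [itL, itR]
      congr 1
      exact Subsingleton.elim _ _
  | N + 1, P, G => by
      simp only [itL, itR, Lam.ap]
      congr 1
      funext x
      have : (Fin.tail fun j => Lam.path (P j)) = fun j => Lam.path (Fin.tail P j) := rfl
      rw [this, itL_path N (Fin.tail P)]
      simp only [pos_cons]

/-- the tensor product of the functionals is the iterated path integral up to the values on the
error sets -/
theorem tensorL {K : ℝ} (hK : 0 ≤ K) : ∀ (N : ℕ) (L : Fin N → Lam) (P : Fin N → PathW)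
    (V : Fin N → Set ℂ) (_ : ∀ j, IsOpen (V j)) (_ : ∀ j, (L j).In (V j))
    (_ : ∀ j, ∀ x ∈ Set.Icc (P j).a (P j).b, (P j).γ x ∈ V j)
    (E : Fin N → (Fin N → ℂ) → Set ℂ) (q : Fin N → (Fin N → ℂ) → ℂ → ℝ)
    (S : Fin N → (Fin N → ℂ) → Set ℂ) (p : Fin N → (Fin N → ℂ) → ℂ → ℝ)
    (_ : ∀ j v v', (∀ i < j, v i = v' i) → E j v = E j v')
    (_ : ∀ j v v', (∀ i < j, v i = v' i) → q j v = q j v')
    (_ : ∀ j v, ∀ w ∈ E j v, 0 ≤ q j v w) (_ : ∀ j v, E j v ⊆ V j)
    (_ : ∀ j v v', (∀ i < j, v i = v' i) → S j v = S j v')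
    (_ : ∀ j v v', (∀ i < j, v i = v' i) → p j v = p j v')
    (_ : ∀ j v, ∀ w ∈ S j v, 0 ≤ p j v w) (_ : ∀ j v, S j v ⊆ V j)
    (_ : ∀ j v, BoundL K (V j) (L j) (S j v) (p j v))
    (_ : ∀ j v, MainL K (V j) (L j) (P j) (E j v) (q j v))
    (_ : ∀ j, ∫ x in (P j).a..(P j).b, ‖(P j).ω x‖ ≤ K)
    (G : (Fin N → ℂ) → ℂ) (_ : DifferentiableOn ℂ G (Set.univ.pi V))
    (B : ℝ) (_ : 0 ≤ B)
    (_ : ∀ j v, (∀ i < j, ∃ x ∈ Set.Icc (P i).a (P i).b, v i = (P i).γ x) → v j ∈ E j v →
      (∀ i, j < i → v i ∈ S i v) →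
      q j v (v j) * (∏ i ∈ Finset.Ioi j, p i v (v i)) * ‖G v‖ ≤ B),
    ‖itL N L G - itL N (fun j => .path (P j)) G‖ ≤ N * K ^ N * B
  | 0, L, P, V, _, _, _, E, q, S, p, _, _, _, _, _, _, _, _, _, _, _, G, _, B, hB0, hB => by
      simp [itL]
  | N + 1, L, P, V, hV, hL, hPV, E, q, S, p, hE, hq, hq0, hEV, hS, hp, hp0, hSV, h1, h2, h3, G,
      hG, B, hB0, hB => by
      set v0 : Fin (N + 1) → ℂ := fun _ => 0 with hv0
      have e0 : ∀ v, E 0 v = E 0 v0 := fun v => hE 0 v v0 (fun i hi => absurd hi (Fin.not_lt_zero i))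
      have e0' : ∀ v, q 0 v = q 0 v0 := fun v =>
        hq 0 v v0 (fun i hi => absurd hi (Fin.not_lt_zero i))
      set g : ℂ → ℂ := fun w => itL N (Fin.tail L) (fun v => G (Fin.cons w v)) with hg
      have hd : DifferentiableOn ℂ g (V 0) := head_diff hV (fun j => hL _) hG
      have hb1 := h2 0 v0 g hd (K ^ N * B) (by positivity) (by
        intro w hw
        apply itL_bound hK N (Fin.tail L) (Fin.tail V) (fun j => hV _) (fun j => hL _)
          (fun j v => S j.succ (Fin.cons w v))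
          (fun j v => p j.succ (Fin.cons w v)) (shift_dep S hS w) (shift_dep p hp w)
          (fun j v u hu => hp0 _ _ u hu) (fun j v => hSV _ _) (fun j v => h1 _ _)
          (fun v => G (Fin.cons w v)) (tail_diff hG (hEV 0 v0 hw)) (q 0 v0 w) B
          (hq0 0 v0 w hw) hB0
        intro v hv
        have h4 := hB 0 (Fin.cons w v) (fun i hi => absurd hi (Fin.not_lt_zero i))
          (by rw [e0]; simpa using hw) (by
            intro i
            refine Fin.cases ?_ ?_ i
            · intro h; exact absurd h (lt_irrefl _)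
            · intro i _
              simpa using hv i)
        rw [Fin.prod_Ioi_zero, e0'] at h4
        simpa using h4)
      set g' : ℂ → ℂ := fun w => itL N (fun j => .path (Fin.tail P j)) (fun v => G (Fin.cons w v))
        with hg'
      have hd' : DifferentiableOn ℂ g' (V 0) :=
        head_diff (L := fun j => .path (P j)) hV (fun j => hPV _) hG
      have hI : ∀ f : ℂ → ℂ, DifferentiableOn ℂ f (V 0) →
          IntervalIntegrable (fun x => f ((P 0).γ x) * (P 0).ω x) volume (P 0).a (P 0).b := by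
        intro f hf
        apply (P 0).int.continuousOn_mul
        rw [Set.uIcc_of_le (P 0).hab]
        exact hf.continuousOn.comp (P 0).cont.continuousOn (fun x hx => hPV 0 x hx)
      have hb2 : ‖(Lam.path (P 0)).ap g - itL (N + 1) (fun j => .path (P j)) G‖ ≤
          N * K ^ N * B * K := by
        have e1 : itL (N + 1) (fun j => .path (P j)) G = (Lam.path (P 0)).ap g' := rfl
        rw [e1]
        simp only [Lam.ap]
        rw [← intervalIntegral.integral_sub (hI g hd) (hI g' hd')]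
        calc ‖∫ x in (P 0).a..(P 0).b, (g ((P 0).γ x) * (P 0).ω x -
              g' ((P 0).γ x) * (P 0).ω x)‖
            ≤ ∫ x in (P 0).a..(P 0).b, N * K ^ N * B * ‖(P 0).ω x‖ := by
              apply intervalIntegral.norm_integral_le_of_norm_le (P 0).hab
              · refine Filter.Eventually.of_forall fun x hx => ?_
                have hx' : x ∈ Set.Icc (P 0).a (P 0).b := ⟨hx.1.le, hx.2⟩
                rw [← sub_mul, norm_mul]
                apply mul_le_mul_of_nonneg_right _ (norm_nonneg _)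
                exact tensorL hK N (Fin.tail L) (Fin.tail P) (Fin.tail V) (fun j => hV _)
                  (fun j => hL _) (fun j => hPV _)
                  (fun j v => E j.succ (Fin.cons ((P 0).γ x) v))
                  (fun j v => q j.succ (Fin.cons ((P 0).γ x) v))
                  (fun j v => S j.succ (Fin.cons ((P 0).γ x) v))
                  (fun j v => p j.succ (Fin.cons ((P 0).γ x) v))
                  (shift_dep E hE _) (shift_dep q hq _) (fun j v u hu => hq0 _ _ u hu)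
                  (fun j v => hEV _ _)
                  (shift_dep S hS _) (shift_dep p hp _) (fun j v u hu => hp0 _ _ u hu)
                  (fun j v => hSV _ _) (fun j v => h1 _ _) (fun j v => h2 _ _) (fun j => h3 _)
                  (fun v => G (Fin.cons ((P 0).γ x) v)) (tail_diff hG (hPV 0 x hx')) B hB0 (by
                    intro j v hv1 hv2 hv3
                    have h4 := hB j.succ (Fin.cons ((P 0).γ x) v) (by
                      intro i
                      refine Fin.cases ?_ ?_ i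
                      · intro _
                        exact ⟨x, hx', by simp⟩
                      · intro i hi
                        obtain ⟨y, hy, he⟩ := hv1 i (Fin.succ_lt_succ_iff.mp hi)
                        exact ⟨y, hy, by simpa [Fin.tail] using he⟩)
                      (by simpa using hv2) (by
                        intro i
                        refine Fin.cases ?_ ?_ i
                        · intro h; exact absurd h (Fin.not_lt_zero _)
                        · intro i hi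
                          simpa using hv3 i (Fin.succ_lt_succ_iff.mp hi))
                    rw [Fin.prod_Ioi_succ] at h4
                    simpa using h4)
              · exact ((P 0).int.norm).const_mul _
          _ = N * K ^ N * B * ∫ x in (P 0).a..(P 0).b, ‖(P 0).ω x‖ := by
              rw [intervalIntegral.integral_const_mul]
          _ ≤ N * K ^ N * B * K := mul_le_mul_of_nonneg_left (h3 0) (by positivity)
      have e2 : itL (N + 1) L G = (L 0).ap g := rfl
      calc ‖itL (N + 1) L G - itL (N + 1) (fun j => .path (P j)) G‖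
          = ‖((L 0).ap g - (Lam.path (P 0)).ap g) +
            ((Lam.path (P 0)).ap g - itL (N + 1) (fun j => .path (P j)) G)‖ := by
              rw [e2]; congr 1; ring
        _ ≤ K * (K ^ N * B) + N * K ^ N * B * K := (norm_add_le _ _).trans (add_le_add hb1 hb2)
        _ = ((N + 1 : ℕ) : ℝ) * K ^ (N + 1) * B := by push_cast; ring

/-! ### splitting the functionals into core and tail -/

theorem Lam.ap_congr {V : Set ℂ} {L : Lam} (hL : L.In V) {f g : ℂ → ℂ} (h : ∀ w ∈ V, f w = g w) :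
    L.ap f = L.ap g := by
  cases L with
  | disc A n =>
    simp only [Lam.ap]
    exact sum_congr rfl fun y hy => h _ (hL y hy)
  | path P =>
    simp only [Lam.ap]
    apply intervalIntegral.integral_congr
    intro x hx
    rw [Set.uIcc_of_le P.hab] at hx
    simp only [h _ (hL x hx)]

theorem Lam.ap_sum {V : Set ℂ} {L : Lam} (hL : L.In V) {ι : Type} (s : Finset ι)
    {f : ι → ℂ → ℂ} (h : ∀ i ∈ s, ContinuousOn (f i) V) :
    L.ap (fun w => ∑ i ∈ s, f i w) = ∑ i ∈ s, L.ap (f i) := by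
  cases L with
  | disc A n =>
    simp only [Lam.ap]
    exact sum_comm
  | path P =>
    simp only [Lam.ap]
    simp only [sum_mul]
    apply intervalIntegral.integral_finsetSum
    intro i hi
    apply P.int.continuousOn_mul
    rw [Set.uIcc_of_le P.hab]
    exact (h i hi).comp P.cont.continuousOn (fun x hx => hL x hx)

theorem sum_cons {N : ℕ} {α : Type} [AddCommMonoid α] (F : (Fin (N + 1) → Bool) → α) :
    ∑ T, F T = ∑ T : Fin N → Bool, F (Fin.cons true T) + ∑ T : Fin N → Bool, F (Fin.cons false T) := by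
  rw [← Fintype.sum_equiv (Fin.consEquiv (fun _ => Bool)) (fun z => F (Fin.cons z.1 z.2)) F
    (fun z => rfl), Fintype.sum_prod_type, Fintype.sum_bool]

/-- the choice of the core (`false`) or tail (`true`) functional in every coordinate -/
def sel {N : ℕ} (L0 L1 : Fin N → Lam) (T : Fin N → Bool) : Fin N → Lam :=
  fun j => if T j then L1 j else L0 j

theorem sel_tail {N : ℕ} (L0 L1 : Fin (N + 1) → Lam) (b : Bool) (T : Fin N → Bool) :
    Fin.tail (sel L0 L1 (Fin.cons b T)) = sel (Fin.tail L0) (Fin.tail L1) T := by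
  funext j
  simp [Fin.tail, sel]

theorem itL_split : ∀ (N : ℕ) (L L0 L1 : Fin N → Lam) (V : Fin N → Set ℂ)
    (_ : ∀ j, IsOpen (V j)) (_ : ∀ j, (L j).In (V j)) (_ : ∀ j, (L0 j).In (V j))
    (_ : ∀ j, (L1 j).In (V j))
    (_ : ∀ j, ∀ g : ℂ → ℂ, DifferentiableOn ℂ g (V j) → (L j).ap g = (L0 j).ap g + (L1 j).ap g)
    (G : (Fin N → ℂ) → ℂ) (_ : DifferentiableOn ℂ G (Set.univ.pi V)),
    itL N L G = ∑ T : Fin N → Bool, itL N (sel L0 L1 T) G
  | 0, L, L0, L1, V, _, _, _, _, _, G, _ => by simp [itL]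
  | N + 1, L, L0, L1, V, hV, hL, hL0, hL1, hs, G, hG => by
      set g : ℂ → ℂ := fun w => itL N (Fin.tail L) (fun v => G (Fin.cons w v)) with hg
      have hd : DifferentiableOn ℂ g (V 0) := head_diff hV (fun j => hL _) hG
      set gT : (Fin N → Bool) → ℂ → ℂ := fun T w =>
        itL N (sel (Fin.tail L0) (Fin.tail L1) T) (fun v => G (Fin.cons w v)) with hgT
      have hsel : ∀ T : Fin N → Bool, ∀ j, (sel (Fin.tail L0) (Fin.tail L1) T j).In (V j.succ) := by
        intro T j
        unfold sel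
        split_ifs
        · exact hL1 _
        · exact hL0 _
      have hdT : ∀ T, DifferentiableOn ℂ (gT T) (V 0) := fun T =>
        head_diff (L := Fin.cons (L0 0) (sel (Fin.tail L0) (Fin.tail L1) T)) hV
          (fun j => by simpa using hsel T j) hG
      have ih : ∀ w ∈ V 0, g w = ∑ T, gT T w := by
        intro w hw
        exact itL_split N (Fin.tail L) (Fin.tail L0) (Fin.tail L1) (Fin.tail V) (fun j => hV _)
          (fun j => hL _) (fun j => hL0 _) (fun j => hL1 _) (fun j => hs _)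
          (fun v => G (Fin.cons w v)) (tail_diff hG hw)
      have e1 : ∀ (L' : Lam), L'.In (V 0) → L'.ap g = ∑ T, L'.ap (gT T) := by
        intro L' hL'
        rw [Lam.ap_congr hL' ih, Lam.ap_sum hL' _ (fun T _ => (hdT T).continuousOn)]
      have e2 : itL (N + 1) L G = (L 0).ap g := rfl
      rw [e2, hs 0 g hd, e1 _ (hL0 0), e1 _ (hL1 0), sum_cons, add_comm]
      congr 1

/-- the tensor product of sums of core and tail functionals is the iterated path integral up to the
values on error sets -/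
theorem tensor_split {K : ℝ} (hK : 0 ≤ K) (N : ℕ) (L L0 L1 : Fin N → Lam) (P : Fin N → PathW)
    (V : Fin N → Set ℂ) (hV : ∀ j, IsOpen (V j)) (hL : ∀ j, (L j).In (V j))
    (hL0 : ∀ j, (L0 j).In (V j)) (hL1 : ∀ j, (L1 j).In (V j))
    (hs : ∀ j, ∀ g : ℂ → ℂ, DifferentiableOn ℂ g (V j) → (L j).ap g = (L0 j).ap g + (L1 j).ap g)
    (hPV : ∀ j, ∀ x ∈ Set.Icc (P j).a (P j).b, (P j).γ x ∈ V j)
    (E : Fin N → Set ℂ) (q : Fin N → ℂ → ℝ) (hq0 : ∀ j, ∀ w ∈ E j, 0 ≤ q j w)
    (hEV : ∀ j, E j ⊆ V j)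
    (S : Fin N → Set ℂ) (p : Fin N → ℂ → ℝ) (hp0 : ∀ j, ∀ w ∈ S j, 0 ≤ p j w)
    (hSV : ∀ j, S j ⊆ V j)
    (h1 : ∀ j, BoundL K (V j) (L0 j) (S j) (p j))
    (h2 : ∀ j, MainL K (V j) (L0 j) (P j) (E j) (q j))
    (h3 : ∀ j, ∫ x in (P j).a..(P j).b, ‖(P j).ω x‖ ≤ K)
    (ST : (Fin N → Bool) → Fin N → Set ℂ) (pT : (Fin N → Bool) → Fin N → ℂ → ℝ)
    (hpT0 : ∀ T, (∃ j, T j = true) → ∀ j, ∀ w ∈ ST T j, 0 ≤ pT T j w)
    (hSTV : ∀ T, (∃ j, T j = true) → ∀ j, ST T j ⊆ V j)
    (h4 : ∀ T, (∃ j, T j = true) → ∀ j, BoundL K (V j) (sel L0 L1 T j) (ST T j) (pT T j))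
    (G : (Fin N → ℂ) → ℂ) (hG : DifferentiableOn ℂ G (Set.univ.pi V)) (B : ℝ) (hB0 : 0 ≤ B)
    (hB : ∀ j v, (∀ i < j, ∃ x ∈ Set.Icc (P i).a (P i).b, v i = (P i).γ x) → v j ∈ E j →
      (∀ i, j < i → v i ∈ S i) →
      q j (v j) * (∏ i ∈ Finset.Ioi j, p i (v i)) * ‖G v‖ ≤ B)
    (hBT : ∀ T, (∃ j, T j = true) → ∀ v, (∀ j, v j ∈ ST T j) →
      (∏ j, pT T j (v j)) * ‖G v‖ ≤ B) :
    ‖itL N L G - itL N (fun j => .path (P j)) G‖ ≤ (N + 2 ^ N) * K ^ N * B := by
  classical
  have hsel : ∀ T j, (sel L0 L1 T j).In (V j) := by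
    intro T j
    unfold sel
    split_ifs
    · exact hL1 _
    · exact hL0 _
  set T0 : Fin N → Bool := fun _ => false with hT0
  have e0 : sel L0 L1 T0 = L0 := by
    funext j
    simp [sel, T0]
  have hne : ∀ T ≠ T0, ∃ j, T j = true := by
    intro T hT
    by_contra h
    push Not at h
    apply hT
    funext j
    simpa using h j
  have hT : ∀ T ∈ univ.erase T0, ‖itL N (sel L0 L1 T) G‖ ≤ K ^ N * B := by
    intro T hT
    have hT1 := hne T (ne_of_mem_erase hT)
    have := itL_bound hK N (sel L0 L1 T) V hV (hsel T) (fun j _ => ST T j) (fun j _ => pT T j)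
      (fun _ _ _ _ => rfl) (fun _ _ _ _ => rfl) (fun j _ => hpT0 T hT1 j)
      (fun j _ => hSTV T hT1 j) (fun j _ => h4 T hT1 j) G hG 1 B zero_le_one hB0 (by
        intro v hv
        rw [one_mul]
        exact hBT T hT1 v hv)
    rwa [one_mul] at this
  have h5 := tensorL hK N L0 P V hV hL0 hPV (fun j _ => E j) (fun j _ => q j) (fun j _ => S j)
    (fun j _ => p j) (fun _ _ _ _ => rfl) (fun _ _ _ _ => rfl) (fun j _ => hq0 j)
    (fun j _ => hEV j) (fun _ _ _ _ => rfl) (fun _ _ _ _ => rfl) (fun j _ => hp0 j)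
    (fun j _ => hSV j) (fun j _ => h1 j) (fun j _ => h2 j) h3 G hG B hB0 hB
  have hcard : ((univ.erase T0 : Finset (Fin N → Bool)).card : ℝ) ≤ 2 ^ N := by
    have : (univ.erase T0 : Finset (Fin N → Bool)).card ≤ (univ : Finset (Fin N → Bool)).card :=
      card_le_card (erase_subset _ _)
    calc ((univ.erase T0 : Finset (Fin N → Bool)).card : ℝ)
        ≤ ((univ : Finset (Fin N → Bool)).card : ℝ) := by exact_mod_cast this
      _ = 2 ^ N := by simp
  rw [itL_split N L L0 L1 V hV hL hL0 hL1 hs G hG, ← add_sum_erase _ _ (mem_univ T0), e0]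
  calc ‖itL N L0 G + ∑ T ∈ univ.erase T0, itL N (sel L0 L1 T) G -
        itL N (fun j => .path (P j)) G‖
      = ‖(itL N L0 G - itL N (fun j => .path (P j)) G) +
        ∑ T ∈ univ.erase T0, itL N (sel L0 L1 T) G‖ := by congr 1; ring
    _ ≤ N * K ^ N * B + ∑ T ∈ univ.erase T0, ‖itL N (sel L0 L1 T) G‖ :=
        (norm_add_le _ _).trans (add_le_add h5 (norm_sum_le _ _))
    _ ≤ N * K ^ N * B + ∑ T ∈ univ.erase T0, K ^ N * B :=
        add_le_add le_rfl (sum_le_sum hT)
    _ = N * K ^ N * B + (univ.erase T0 : Finset (Fin N → Bool)).card * (K ^ N * B) := by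
        rw [sum_const, nsmul_eq_mul]
    _ ≤ N * K ^ N * B + 2 ^ N * (K ^ N * B) :=
        add_le_add le_rfl (mul_le_mul_of_nonneg_right hcard (by positivity))
    _ = (N + 2 ^ N) * K ^ N * B := by ring

/-! ### simple one variable bounds -/

theorem BoundL.mono {K K' : ℝ} {V S S' : Set ℂ} {L : Lam} {p p' : ℂ → ℝ}
    (h : BoundL K V L S p) (hK : K ≤ K') (hS : ∀ w ∈ S, w ∈ S' ∧ p w ≤ p' w) :
    BoundL K' V L S' p' := by
  intro g hg B hB hw
  refine (h g hg B hB fun w hw' => ?_).trans (mul_le_mul_of_nonneg_right hK hB)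
  exact (mul_le_mul_of_nonneg_right (hS w hw').2 (norm_nonneg _)).trans (hw w (hS w hw').1)

theorem boundL_disc {K : ℝ} (V : Set ℂ) (A : Finset ℕ) (n : ℕ) (hK : (A.card : ℝ) ≤ K) :
    BoundL K V (.disc A n) {w | ∃ y ∈ A, w = (y : ℂ) / n} (fun _ => 1) := by
  intro g _ B hB hw
  calc ‖(Lam.disc A n).ap g‖ ≤ ∑ y ∈ A, ‖g ((y : ℂ) / n)‖ := norm_sum_le _ _
    _ ≤ ∑ y ∈ A, B := sum_le_sum fun y hy => by
        simpa using hw _ ⟨y, hy, rfl⟩
    _ = A.card * B := by rw [sum_const, nsmul_eq_mul]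
    _ ≤ K * B := mul_le_mul_of_nonneg_right hK hB

theorem boundL_path {K : ℝ} (V : Set ℂ) (P : PathW) (hK : ∫ x in P.a..P.b, ‖P.ω x‖ ≤ K) :
    BoundL K V (.path P) (P.γ '' Set.Icc P.a P.b) (fun _ => 1) := by
  intro g _ B hB hw
  calc ‖(Lam.path P).ap g‖ ≤ ∫ x in P.a..P.b, B * ‖P.ω x‖ := by
        apply intervalIntegral.norm_integral_le_of_norm_le P.hab
        · refine Filter.Eventually.of_forall fun x hx => ?_
          rw [norm_mul]
          apply mul_le_mul_of_nonneg_right _ (norm_nonneg _)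
          simpa using hw _ ⟨x, ⟨hx.1.le, hx.2⟩, rfl⟩
        · exact (P.int.norm).const_mul _
    _ = B * ∫ x in P.a..P.b, ‖P.ω x‖ := by rw [intervalIntegral.integral_const_mul]
    _ ≤ B * K := mul_le_mul_of_nonneg_left hK hB
    _ = K * B := mul_comm _ _

theorem mainL_self (K : ℝ) (hK : 0 ≤ K) (V : Set ℂ) (P : PathW) :
    MainL K V (.path P) P ∅ (fun _ => 0) := by
  intro g _ B hB _
  simpa using mul_nonneg hK hB

theorem MainL.bound {K : ℝ} {V E S : Set ℂ} {L : Lam} {P : PathW} {q p : ℂ → ℝ}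
    (h : MainL K V L P E q) (hK : ∫ x in P.a..P.b, ‖P.ω x‖ ≤ K)
    (hE : ∀ w ∈ E, w ∈ S ∧ q w ≤ p w) (hP : ∀ x ∈ Set.Icc P.a P.b, P.γ x ∈ S ∧ 1 ≤ p (P.γ x)) :
    BoundL (2 * K) V L S p := by
  intro g hg B hB hw
  have h1 := h g hg B hB (fun w hw' =>
    (mul_le_mul_of_nonneg_right (hE w hw').2 (norm_nonneg _)).trans (hw w (hE w hw').1))
  have h2 := boundL_path V P hK g hg B hB (by
    rintro _ ⟨x, hx, rfl⟩
    exact (mul_le_mul_of_nonneg_right (hP x hx).2 (norm_nonneg _)).trans (hw _ (hP x hx).1))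
  calc ‖L.ap g‖ = ‖(L.ap g - (Lam.path P).ap g) + (Lam.path P).ap g‖ := by rw [sub_add_cancel]
    _ ≤ K * B + K * B := (norm_add_le _ _).trans (add_le_add h1 h2)
    _ = 2 * K * B := by ring

end Pool.Agent.Work.MP_b30479_gtS.G2

end

section

/-!
# One variable lemmas in the form `MainL`
-/

namespace Pool.Agent.Work.MP_b30479_gtS.G2

open Finset MeasureTheory Filter Topology

/-- **The window**: sum over `A < k ≤ B` and integral along the path. -/
theorem window_graph {n A B : ℕ} (hAB : A < B) (hBn : B < n) {h hu hd c c' : ℝ} (hc : 0 < c)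
    (hc' : 0 < c') (hu0 : 0 < hu) (hd0 : 0 < hd) {κ : ℝ} (hκ : 0 < κ)
    (k1 : κ * c ≤ hu) (k2 : κ * c' ≤ hu) (k3 : κ * (1 / (4 * (n : ℝ))) ≤ hu)
    (k4 : κ * c ≤ hd) (k5 : κ * c' ≤ hd) (k6 : κ * (1 / (4 * (n : ℝ))) ≤ hd) {L : ℝ}
    (l1 : hu / c ≤ L) (l2 : hu / c' ≤ L) (l3 : hd / c ≤ L) (l4 : hd / c' ≤ L) {U : Set ℂ}
    (hU : ∀ w : ℂ, ((A : ℝ) + 1 / 2) / n ≤ w.re → w.re ≤ ((B : ℝ) + 1 / 2) / n → U ∈ 𝓝 w)
    {g : ℂ → ℂ} (hg : DifferentiableOn ℂ g U) {M : ℝ} (hM0 : 0 ≤ M)
    (hM : ∀ x : ℝ, ((A : ℝ) + 1 / 2) / n ≤ x → x ≤ ((B : ℝ) + 1 / 2) / n → ∀ s, s = hu ∨ s = -hd →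
      gq n (pt (((A : ℝ) + 1 / 2) / n) (((B : ℝ) + 1 / 2) / n) c c' s x) *
        ‖g (pt (((A : ℝ) + 1 / 2) / n) (((B : ℝ) + 1 / 2) / n) c c' s x)‖ ≤ M) :
    ‖∑ k ∈ Finset.Ioc A B, g ((k : ℂ) / n) -
      ∫ x in (gP n A B h c c' hAB.le hc hc').a..(gP n A B h c c' hAB.le hc hc').b,
        g ((gP n A B h c c' hAB.le hc hc').γ x) * (gP n A B h c c' hAB.le hc hc').ω x‖ ≤
      2 * (1 + L) / (1 - Real.exp (-(Real.pi * κ / 2))) * n * M := by
  have hn : 0 < n := (Nat.zero_le B).trans_lt hBn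
  have hn0 : (0 : ℝ) < n := by exact_mod_cast hn
  have hL0 : 0 ≤ L := le_trans (by positivity) l1
  have hden : 0 < 1 - Real.exp (-(Real.pi * κ / 2)) := by
    have : Real.exp (-(Real.pi * κ / 2)) < 1 := by
      rw [Real.exp_lt_one_iff]
      have := Real.pi_pos
      have : 0 < Real.pi * κ / 2 := by positivity
      linarith
    linarith
  have hBA : ((B - A : ℕ) : ℝ) = (B : ℝ) - A := by rw [Nat.cast_sub hAB.le]
  have eA : ((((A : ℤ) + 1 : ℤ) : ℝ) - 1 / 2) / n = ((A : ℝ) + 1 / 2) / n := by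
    push_cast
    ring
  have eB : ((((A : ℤ) + 1 : ℤ) : ℝ) + ((B - A : ℕ) : ℝ) - 1 / 2) / n = ((B : ℝ) + 1 / 2) / n := by
    rw [hBA]
    push_cast
    ring
  set a : ℝ := ((A : ℝ) + 1 / 2) / n with ha
  set b : ℝ := ((B : ℝ) + 1 / 2) / n with hb
  have hmode : ∀ s : ℝ, (s = hu ∨ s = -hd) → ∀ x, a ≤ x → x ≤ b →
      Real.exp (-(2 * Real.pi * n * |s * VC.trap a b c c' x|)) *
        ‖g (VC.gpt (fun x => s * VC.trap a b c c' x) x)‖ ≤ M := by
    intro s hs x hx hx'
    have h1 := hM x hx hx' s hs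
    unfold gq at h1
    rw [pt_im] at h1
    exact h1
  have key := VC.norm_sum_sub_le hn ((A : ℤ) + 1) (N := B - A) (by omega) (g := g)
    (by
      rw [eA, eB]
      intro w hw
      exact (hg w (mem_of_mem_nhds (hU w hw.1 hw.2))).differentiableAt (hU w hw.1 hw.2))
    (h := fun x => h * VC.trap a b c c' x) (h' := fun x => h * deriv (VC.trap a b c c') x)
    (p := fun x => hu * VC.trap a b c c' x) (p' := fun x => hu * deriv (VC.trap a b c c') x)
    (q := fun x => hd * VC.trap a b c c' x) (q' := fun x => hd * deriv (VC.trap a b c c') x)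
    (by rw [eA, eB]; exact VC.graphD_trap hc hc' h le_rfl le_rfl)
    (by rw [eA, eB]; exact VC.graphD_trap hc hc' hu le_rfl le_rfl)
    (by rw [eA, eB]; exact VC.graphD_trap hc hc' hd le_rfl le_rfl)
    (by rw [eA, eB]; exact fun x hx => mul_pos hu0 (VC.trap_pos hc hc' hx.1 hx.2))
    (by rw [eA, eB]; exact fun x hx => mul_pos hd0 (VC.trap_pos hc hc' hx.1 hx.2)) hκ
    (by rw [eA, eB]; exact trap_ge2 hc hc' hu0.le k1 k2 k3 hκ.le)
    (by rw [eA, eB]; exact trap_ge2 hc hc' hd0.le k4 k5 k6 hκ.le)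
    (L := L) (slope_le hc hc' (by rwa [abs_of_pos hu0]) (by rwa [abs_of_pos hu0]))
    (slope_le hc hc' (by rwa [abs_of_pos hd0]) (by rwa [abs_of_pos hd0])) (M := M)
    (by
      rw [eA, eB]
      intro x hx hx'
      have h1 := hmode hu (Or.inl rfl) x hx hx'
      rw [abs_of_nonneg (mul_nonneg hu0.le (VC.trap_nonneg _ _ _ _ _))] at h1
      convert h1 using 3
      ring)
    (by
      rw [eA, eB]
      intro x hx hx'
      have h1 := hmode (-hd) (Or.inr rfl) x hx hx'
      have h2 : (fun x => -hd * VC.trap a b c c' x) = fun x => -(hd * VC.trap a b c c' x) := by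
        funext x
        ring
      rw [h2, neg_mul, abs_neg, abs_of_nonneg (mul_nonneg hd0.le (VC.trap_nonneg _ _ _ _ _))] at h1
      convert h1 using 3
      ring)
  rw [eA, eB] at key
  have hsum : ∑ j ∈ Finset.range (B - A), g (((((A : ℤ) + 1 : ℤ) : ℂ) + j) / n) =
      ∑ k ∈ Finset.Ioc A B, g ((k : ℂ) / n) := by
    have h1 : Finset.Ioc A B = Finset.Ico (A + 1) (B + 1) := by
      ext k
      simp only [Finset.mem_Ioc, Finset.mem_Ico]
      omega
    rw [h1, Finset.sum_Ico_eq_sum_range]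
    have : B + 1 - (A + 1) = B - A := by omega
    rw [this]
    refine Finset.sum_congr rfl fun k _ => ?_
    push_cast
    rfl
  rw [hsum] at key
  have hint : (∫ x in (gP n A B h c c' hAB.le hc hc').a..(gP n A B h c c' hAB.le hc hc').b,
      g ((gP n A B h c c' hAB.le hc hc').γ x) * (gP n A B h c c' hAB.le hc hc').ω x) =
      n * ∫ x : ℝ in a..b, g (VC.gpt (fun x => h * VC.trap a b c c' x) x) *
        (1 + ((h * deriv (VC.trap a b c c') x : ℝ) : ℂ) * Complex.I) := by
    rw [← intervalIntegral.integral_const_mul]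
    refine intervalIntegral.integral_congr fun x _ => ?_
    show g (pt a b c c' h x) * (n * (1 + ((h * deriv (tr a b c c') x : ℝ) : ℂ) * Complex.I)) = _
    rw [pt_eq]
    have e1 : deriv (tr a b c c') x = deriv (VC.trap a b c c') x := rfl
    rw [e1]
    simp only [tr_eq]
    ring
  rw [hint]
  refine key.trans ?_
  rw [hBA]
  have h7 : ((B : ℝ) - A) ≤ n := by
    have h1 : (B : ℝ) < n := by exact_mod_cast hBn
    have h2 : (0 : ℝ) ≤ A := Nat.cast_nonneg A
    linarith
  have h6 : 2 * ((B : ℝ) - A) * (1 + L) / (1 - Real.exp (-(Real.pi * κ / 2))) * M =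
      ((B : ℝ) - A) * (2 * (1 + L) / (1 - Real.exp (-(Real.pi * κ / 2))) * M) := by ring
  rw [h6]
  calc ((B : ℝ) - A) * (2 * (1 + L) / (1 - Real.exp (-(Real.pi * κ / 2))) * M) ≤
      n * (2 * (1 + L) / (1 - Real.exp (-(Real.pi * κ / 2))) * M) :=
        mul_le_mul_of_nonneg_right h7 (by positivity)
    _ = _ := by ring

/-- the error set of a finset of lattice points: mode paths of the window and lattice points of the
finset outside the window -/
def gEL (n A B : ℕ) (F : Finset ℕ) (hu hd c c' : ℝ) : Set ℂ :=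
  {w | ∃ x : ℝ, ((A : ℝ) + 1 / 2) / n ≤ x ∧ x ≤ ((B : ℝ) + 1 / 2) / n ∧
    (w = pt (((A : ℝ) + 1 / 2) / n) (((B : ℝ) + 1 / 2) / n) c c' hu x ∨
      w = pt (((A : ℝ) + 1 / 2) / n) (((B : ℝ) + 1 / 2) / n) c c' (-hd) x)} ∪
  {w | ∃ k ∈ F, (k ≤ A ∨ B < k) ∧ w = (k : ℂ) / n}

/-- **One discrete variable over a finset of lattice points containing the window.** -/
theorem mainL_graph {n A B : ℕ} (hAB : A < B) (hBn : B < n) {F : Finset ℕ}
    (hF : Finset.Ioc A B ⊆ F) {h hu hd c c' : ℝ} (hc : 0 < c)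
    (hc' : 0 < c') (hu0 : 0 < hu) (hd0 : 0 < hd) {κ : ℝ} (hκ : 0 < κ)
    (k1 : κ * c ≤ hu) (k2 : κ * c' ≤ hu) (k3 : κ * (1 / (4 * (n : ℝ))) ≤ hu)
    (k4 : κ * c ≤ hd) (k5 : κ * c' ≤ hd) (k6 : κ * (1 / (4 * (n : ℝ))) ≤ hd) {L : ℝ}
    (l1 : hu / c ≤ L) (l2 : hu / c' ≤ L) (l3 : hd / c ≤ L) (l4 : hd / c' ≤ L) {V : Set ℂ}
    (hV : ∀ w : ℂ, ((A : ℝ) + 1 / 2) / n ≤ w.re → w.re ≤ ((B : ℝ) + 1 / 2) / n → V ∈ 𝓝 w) :
    MainL (2 * (1 + L) / (1 - Real.exp (-(Real.pi * κ / 2))) * n + F.card) V (.disc F n)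
      (gP n A B h c c' hAB.le hc hc') (gEL n A B F hu hd c c') (gq n) := by
  intro g hg M hM0 hM
  have key := window_graph (h := h) hAB hBn hc hc' hu0 hd0 hκ k1 k2 k3 k4 k5 k6 l1 l2 l3 l4 hV hg
    hM0 (by
      intro x hx hx' s hs
      refine hM _ (Or.inl ⟨x, hx, hx', ?_⟩)
      rcases hs with e | e
      · left; rw [e]
      · right; rw [e])
  have hsplit : ∑ k ∈ F, g ((k : ℂ) / n) = ∑ k ∈ Finset.Ioc A B, g ((k : ℂ) / n) +
      ∑ k ∈ F \ Finset.Ioc A B, g ((k : ℂ) / n) := by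
    rw [add_comm, Finset.sum_sdiff hF]
  have htail : ‖∑ k ∈ F \ Finset.Ioc A B, g ((k : ℂ) / n)‖ ≤ F.card * M := by
    have h3 : ‖∑ k ∈ F \ Finset.Ioc A B, g ((k : ℂ) / n)‖ ≤
        ∑ k ∈ F \ Finset.Ioc A B, M := by
      refine norm_sum_le_of_le _ fun k hk => ?_
      rw [Finset.mem_sdiff, Finset.mem_Ioc] at hk
      have h4 := hM ((k : ℂ) / n) (Or.inr ⟨k, hk.1, by omega, rfl⟩)
      have h5 : ((k : ℂ) / n) = (((k : ℝ) / n : ℝ) : ℂ) := by push_cast; rfl
      rw [h5, gq_real, one_mul, ← h5] at h4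
      exact h4
    rw [Finset.sum_const, nsmul_eq_mul] at h3
    refine h3.trans (mul_le_mul_of_nonneg_right ?_ hM0)
    exact_mod_cast Finset.card_le_card Finset.sdiff_subset
  show ‖∑ k ∈ F, g ((k : ℂ) / n) - ∫ x in (gP n A B h c c' hAB.le hc hc').a..(gP n A B h c c'
    hAB.le hc hc').b, g ((gP n A B h c c' hAB.le hc hc').γ x) *
      (gP n A B h c c' hAB.le hc hc').ω x‖ ≤ _
  rw [hsplit]
  have h5 : ∀ u v w : ℂ, u + v - w = (u - w) + v := fun u v w => by ring
  rw [h5]
  refine (norm_add_le _ _).trans ((add_le_add key htail).trans ?_)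
  linarith

/-- **A continuous variable**: contour shift from the real interval to a trapezoidal path. -/
theorem zeta_graph {g : ℂ → ℂ} {a b : ℝ} (hab : a ≤ b) {V : Set ℂ}
    (hV : ∀ w : ℂ, a ≤ w.re → w.re ≤ b → V ∈ 𝓝 w) (hg : DifferentiableOn ℂ g V) {h c c' : ℝ}
    (hc : 0 < c) (hc' : 0 < c') :
    ∫ x : ℝ in a..b, g x = ∫ x : ℝ in a..b, g (pt a b c c' h x) *
      (1 + ((h * deriv (tr a b c c') x : ℝ) : ℂ) * Complex.I) :=
  VC.integral_graph hab (fun w hw => (hg w (mem_of_mem_nhds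
    (hV w hw.1 hw.2))).differentiableAt (hV w hw.1 hw.2))
    (VC.graphD_trap hc hc' h le_rfl le_rfl)

end Pool.Agent.Work.MP_b30479_gtS.G2

end

section

/-!
# Coordinates of error points of level `n` are near coordinates of admissible points
-/

namespace Pool.Agent.Work.MP_b30479_gtS.G2

open Finset VOL MeasureTheory Filter Topology

variable {D : Type} [Fintype D] [DecidableEq D]

theorem pt_at_zero {X c c' t : ℝ} : pt 0 X c c' t 0 = 0 := by
  unfold pt tr
  have h1 : min (1 : ℝ) (min ((0 - 0) / c) ((X - 0) / c')) ≤ 0 :=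
    (min_le_right _ _).trans ((min_le_left _ _).trans (by simp))
  rw [max_eq_left h1]
  simp

theorem pt_at_end {X c c' t : ℝ} : pt 0 X c c' t X = (X : ℂ) := by
  unfold pt tr
  have h1 : min (1 : ℝ) (min ((X - 0) / c) ((X - X) / c')) ≤ 0 :=
    (min_le_right _ _).trans ((min_le_right _ _).trans (by simp))
  rw [max_eq_left h1]
  simp

/-- outside the flat part or height one -/
theorem tr_flat {X c c' x : ℝ} (hc : 0 < c) (hc' : 0 < c') (h1 : c ≤ x) (h2 : x ≤ X - c') :
    tr 0 X c c' x = 1 := by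
  unfold tr
  have h3 : (1 : ℝ) ≤ (x - 0) / c := by rw [le_div_iff₀ hc]; linarith only [h1]
  have h4 : (1 : ℝ) ≤ (X - x) / c' := by rw [le_div_iff₀ hc']; linarith only [h2]
  rw [min_eq_left (le_min h3 h4), max_eq_right zero_le_one]

/-- the lattice points of the core -/
noncomputable def cor (P : Par D) (n : ℕ) (i : D) : Finset ℕ :=
  (range n).filter fun k => ((k : ℝ) ≤ P.XM i * n)

omit [Fintype D] [DecidableEq D] in
theorem mem_cor {P : Par D} {n : ℕ} {i : D} {k : ℕ} :
    k ∈ cor P n i ↔ k < n ∧ (k : ℝ) ≤ P.XM i * n := by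
  unfold cor
  rw [mem_filter, mem_range]

omit [Fintype D] [DecidableEq D] in
theorem Ioc_subset_cor {P : Par D} {n : ℕ} {i : D} (hX : 0 ≤ P.XM i) (hn : 2 ≤ n) :
    Ioc 0 (P.m n i) ⊆ cor P n i := by
  intro k hk
  rw [mem_Ioc] at hk
  rw [mem_cor]
  have h1 : k ≤ n - 2 := hk.2.trans (min_le_right _ _)
  have h2 : k ≤ ⌊P.XM i * n⌋₊ := hk.2.trans (min_le_left _ _)
  refine ⟨by omega, ?_⟩
  exact (Nat.cast_le.mpr h2).trans (Nat.floor_le (by positivity))

/-- points of the error set of one coordinate -/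
theorem coord_err {P : Par D} {i : D}
    (hX : 0 < P.XM i ∧ P.XM i ≤ 1 ∧ 0 < P.cl i ∧ 0 < P.cr i ∧ P.cl i + P.cr i < P.XM i ∧
      0 < P.hu i ∧ 0 < P.hd i) {z0 : ℂ} (h0 : P.cl i < z0.re ∧ z0.re < P.XM i - P.cr i) :
    ∃ r : ℝ, 0 < r ∧ ∀ η : ℝ, 0 < η → ∀ᶠ n : ℕ in atTop, ∀ w ∈ gEL n 0 (P.m n i) (cor P n i)
      (P.hu i) (P.hd i) (P.cl i) (P.cr i), ∃ (z : ℂ) (p : ℝ), P.On z0.im i z p ∧ ‖w - z‖ ≤ η ∧
        |(|w.im|) - p| ≤ η ∧ (r ≤ ‖z - z0‖ ∨ r ≤ |p|) := by
  obtain ⟨hX0, hX1, hcl, hcr, hcc, hhu, hhd⟩ := hX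
  obtain ⟨C, hC⟩ := On_near (P := P) (i := i) ⟨hX0, hX1, hcl, hcr⟩
  set r := min (min (P.hu i) (P.hd i)) (min (z0.re - P.cl i) (P.XM i - P.cr i - z0.re)) with hr
  have hr0 : 0 < r := by
    rw [hr]
    refine lt_min (lt_min hhu hhd) (lt_min ?_ ?_) <;> linarith only [h0, h0.1, h0.2]
  have r1 : r ≤ P.hu i := (min_le_left _ _).trans (min_le_left _ _)
  have r2 : r ≤ P.hd i := (min_le_left _ _).trans (min_le_right _ _)
  have r3 : r ≤ z0.re - P.cl i := (min_le_right _ _).trans (min_le_left _ _)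
  have r4 : r ≤ P.XM i - P.cr i - z0.re := (min_le_right _ _).trans (min_le_right _ _)
  have hre : ∀ z : ℂ, (z.re ≤ P.cl i ∨ P.XM i - P.cr i ≤ z.re) → r ≤ ‖z - z0‖ := by
    intro z hz
    have h1 := Complex.abs_re_le_norm (z - z0)
    rw [Complex.sub_re] at h1
    refine le_trans ?_ h1
    rcases hz with h | h
    · rw [abs_sub_comm]
      exact le_trans (by linarith only [r3, h]) (le_abs_self _)
    · exact le_trans (by linarith only [r4, h]) (le_abs_self _)
  refine ⟨r, hr0, ?_⟩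
  intro η hη
  set M := |C| * (1 + max |P.hu i| |P.hd i|) * (1 + max |P.hu i| |P.hd i|) + 1 with hM
  have hM0 : 0 < M := by positivity
  have hev : ∀ᶠ n : ℕ in atTop, M / (n : ℝ) < η :=
    (tendsto_natCast_atTop_atTop.const_div_atTop M).eventually_lt_const hη
  filter_upwards [hev, eventually_ge_atTop 8] with n hn1 hn8
  have hn0 : (0 : ℝ) < n := by
    have : 0 < n := by omega
    exact_mod_cast this
  have h1n : 1 / (n : ℝ) ≤ η := by
    refine le_trans ?_ hn1.le
    apply div_le_div_of_nonneg_right _ hn0.le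
    have : 0 ≤ |C| * (1 + max |P.hu i| |P.hd i|) * (1 + max |P.hu i| |P.hd i|) := by positivity
    linarith only [this]
  -- mode paths
  have hmode : ∀ t : ℝ, |t| ≤ max |P.hu i| |P.hd i| → ∀ x, ea n ≤ x → x ≤ P.eb n i →
      ∃ x' : ℝ, 0 ≤ x' ∧ x' ≤ P.XM i ∧
        ‖P.ga n t i x - pt 0 (P.XM i) (P.cl i) (P.cr i) t x'‖ ≤ η ∧
        |(|(P.ga n t i x).im|) - |t| * tr 0 (P.XM i) (P.cl i) (P.cr i) x'| ≤ η := by
    intro t ht x hx hx'
    obtain ⟨x', h1, h2, h3, h4⟩ := hC n t x hn8 hx hx'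
    have hmx : (0 : ℝ) ≤ max |P.hu i| |P.hd i| := le_max_of_le_left (abs_nonneg _)
    refine ⟨x', h1, h2, h3.trans ?_, ?_⟩
    · refine le_trans ?_ hn1.le
      apply div_le_div_of_nonneg_right _ hn0.le
      have e1 : C * (1 + |t|) ≤ |C| * (1 + max |P.hu i| |P.hd i|) :=
        mul_le_mul (le_abs_self C) (by linarith only [ht]) (by positivity) (abs_nonneg _)
      have e2 : |C| * (1 + max |P.hu i| |P.hd i|) * 1 ≤
          |C| * (1 + max |P.hu i| |P.hd i|) * (1 + max |P.hu i| |P.hd i|) :=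
        mul_le_mul_of_nonneg_left (by linarith only [hmx]) (by positivity)
      linarith only [h0, hX1, hcl, hcr, e1, e2]
    · have e0 : (P.ga n t i x).im = t * tr (ea n) (P.eb n i) (P.cl i) (P.cr i) x := pt_im _ _ _ _ _ _
      rw [e0, abs_mul, abs_of_nonneg (tr_nonneg _ _ _ _ _), ← mul_sub, abs_mul, abs_abs]
      refine (mul_le_mul ht h4 (abs_nonneg _) hmx).trans ?_
      refine le_trans ?_ hn1.le
      rw [mul_div_assoc']
      apply div_le_div_of_nonneg_right _ hn0.le
      have e1 : max |P.hu i| |P.hd i| * C ≤ max |P.hu i| |P.hd i| * |C| :=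
        mul_le_mul_of_nonneg_left (le_abs_self C) hmx
      have e2 : 0 ≤ |C| * (max |P.hu i| |P.hd i|) := by positivity
      have e3 : 0 ≤ |C| := abs_nonneg C
      have e4 : 0 ≤ |C| * (max |P.hu i| |P.hd i|) ^ 2 := by positivity
      have e5 : M = |C| + 2 * (|C| * max |P.hu i| |P.hd i|) +
        |C| * (max |P.hu i| |P.hd i|) ^ 2 + 1 := by rw [hM]; ring
      linarith only [h0, hX1, hcl, hcr, e1, e2, e3, e4]
  intro w hw
  rcases hw with ⟨x, hx, hx', hw | hw⟩ | ⟨k, hk, hk', hw⟩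
  · obtain ⟨x', h1, h2, h3, h4⟩ := hmode (P.hu i) (le_max_left _ _) x hx hx'
    have ew : w = P.ga n (P.hu i) i x := hw
    rw [← ew, abs_of_pos hhu] at h4
    rw [← ew] at h3
    refine ⟨_, P.hu i * tr 0 (P.XM i) (P.cl i) (P.cr i) x', ⟨x', h1, h2, Or.inr (Or.inl ⟨rfl, rfl⟩)⟩,
      h3, h4, ?_⟩
    by_cases hfl : P.cl i ≤ x' ∧ x' ≤ P.XM i - P.cr i
    · right
      rw [tr_flat hcl hcr hfl.1 hfl.2, mul_one, abs_of_pos hhu]
      exact r1
    · left
      apply hre
      rw [pt_re]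
      by_contra hcon
      push Not at hcon
      exact hfl ⟨hcon.1.le, hcon.2.le⟩
  · obtain ⟨x', h1, h2, h3, h4⟩ := hmode (-P.hd i) (by rw [abs_neg]; exact le_max_right _ _) x hx hx'
    have ew : w = P.ga n (-P.hd i) i x := hw
    rw [← ew, abs_neg, abs_of_pos hhd] at h4
    rw [← ew] at h3
    refine ⟨_, P.hd i * tr 0 (P.XM i) (P.cl i) (P.cr i) x', ⟨x', h1, h2, Or.inr (Or.inr ⟨rfl, rfl⟩)⟩,
      h3, h4, ?_⟩
    by_cases hfl : P.cl i ≤ x' ∧ x' ≤ P.XM i - P.cr i
    · right
      rw [tr_flat hcl hcr hfl.1 hfl.2, mul_one, abs_of_pos hhd]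
      exact r2
    · left
      apply hre
      rw [pt_re]
      by_contra hcon
      push Not at hcon
      exact hfl ⟨hcon.1.le, hcon.2.le⟩
  · rw [mem_cor] at hk
    rcases hk' with hk' | hk'
    · have hk0 : k = 0 := by omega
      subst hk0
      have hw0 : w = 0 := by rw [hw]; simp
      subst hw0
      refine ⟨0, 0, ⟨0, le_rfl, hX0.le, Or.inl ⟨pt_at_zero.symm, rfl⟩⟩, by simpa using hη.le,
        by simpa using hη.le, Or.inl (hre _ (Or.inl ?_))⟩
      simpa using hcl.le
    · -- the point `(n - 1) / n`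
      have h2 : k ≤ ⌊P.XM i * n⌋₊ := Nat.le_floor hk.2
      have h3 : n - 2 < k := by
        by_contra hcon
        push Not at hcon
        exact absurd (le_min h2 hcon) (not_le.mpr hk')
      have h4 : k = n - 1 := by omega
      have h5 : (k : ℝ) = n - 1 := by
        rw [h4, Nat.cast_sub (by omega)]
        simp
      have h6 : 1 - 1 / (n : ℝ) ≤ P.XM i := by
        rw [← mul_le_mul_iff_left₀ hn0]
        have : (1 - 1 / (n : ℝ)) * n = n - 1 := by field_simp
        rw [this, ← h5]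
        exact hk.2
      have hwr : w = ((1 - 1 / (n : ℝ) : ℝ) : ℂ) := by
        rw [hw]
        have : (k : ℂ) = ((k : ℝ) : ℂ) := by simp
        have hnc : (n : ℂ) ≠ 0 := by exact_mod_cast hn0.ne'
        rw [this, h5]
        push_cast
        rw [sub_div, div_self hnc]
      refine ⟨(P.XM i : ℂ), 0, ⟨P.XM i, hX0.le, le_rfl, Or.inl ⟨pt_at_end.symm, rfl⟩⟩, ?_, ?_,
        Or.inl (hre _ (Or.inr ?_))⟩
      · rw [hwr, ← Complex.ofReal_sub, Complex.norm_real, Real.norm_eq_abs, abs_le]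
        constructor <;> linarith only [hX1, h1n, hη, h6]
      · rw [hwr, Complex.ofReal_im]
        simpa using hη.le
      · simp only [Complex.ofReal_re]
        linarith only [hcr]

/-- points of the main path of one coordinate -/
theorem coord_main {P : Par D} {i : D}
    (hX : 0 < P.XM i ∧ P.XM i ≤ 1 ∧ 0 < P.cl i ∧ 0 < P.cr i ∧ P.cl i + P.cr i < P.XM i ∧
      0 < P.hu i ∧ 0 < P.hd i) (t : ℝ) {η : ℝ} (hη : 0 < η) :
    ∀ᶠ n : ℕ in atTop, ∀ x, ea n ≤ x → x ≤ P.eb n i → ∃ z : ℂ, P.On t i z 0 ∧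
      ‖P.ga n t i x - z‖ ≤ η := by
  obtain ⟨hX0, hX1, hcl, hcr, hcc, hhu, hhd⟩ := hX
  obtain ⟨C, hC⟩ := On_near (P := P) (i := i) ⟨hX0, hX1, hcl, hcr⟩
  have hev : ∀ᶠ n : ℕ in atTop, C * (1 + |t|) / (n : ℝ) < η :=
    (tendsto_natCast_atTop_atTop.const_div_atTop _).eventually_lt_const hη
  filter_upwards [hev, eventually_ge_atTop 8] with n hn1 hn8 x hx hx'
  obtain ⟨x', h1, h2, h3, h4⟩ := hC n t x hn8 hx hx'
  exact ⟨_, ⟨x', h1, h2, Or.inl ⟨rfl, rfl⟩⟩, h3.trans hn1.le⟩

end Pool.Agent.Work.MP_b30479_gtS.G2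

end

section

/-!
# Ideal triangulations of two-bridge link complements: the gluing equations

The word `b : Fin (M + 2) → ℤ` has `M + 1` turning points `j` (between the twist regions `j` and
`j + 1`).  A twist region with `|b|` crossings is a chain `U 0, ..., U |b|`; its tetrahedra have the
shapes `U (l + 1) / U l` (`b > 0`) or `U l / U (l + 1)` (`b < 0`), and every turning point gives two
tetrahedra of shape `Y j`, one for each of the two neighbouring twist regions.  At the two ends of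
the word the chain has only `|b| - 2` tetrahedra.
-/

namespace Pool.Agent.Work.MP_b30479_gtS.G2

open Finset

/-- `Y` or `1 / Y` -/
noncomputable def hat (b : ℤ) (Y : ℂ) : ℂ := if 0 < b then Y else Y⁻¹

/-- shape of a tetrahedron of a twist region -/
noncomputable def shp (b : ℤ) (U : ℕ → ℂ) (l : ℕ) : ℂ :=
  if 0 < b then U (l + 1) / U l else U l / U (l + 1)

/-- an inner twist region, between the turning points `Y` and `Y'`; `edge`: the edges inside the
twist region -/
structure Run (b : ℤ) (Y Y' : ℂ) (U : ℕ → ℂ) : Prop where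
  left : U 0 = hat b Y
  right : U b.natAbs * hat b Y' = 1
  edge : ∀ l, l + 2 ≤ b.natAbs → (U (l + 2) - U (l + 1)) * U l = -(U (l + 1) - U l)

/-- a twist region at an end of the word -/
structure EndRun (b : ℤ) (Y : ℂ) (U : ℕ → ℂ) : Prop where
  left : U 0 = hat b Y
  right : U (b.natAbs - 1) = 0
  edge : ∀ l, l + 2 ≤ b.natAbs - 1 → (U (l + 2) - U (l + 1)) * U l = -(U (l + 1) - U l)

/-- contribution of a twist region to the edge equation of the turning point `Y`; `u` is the
neighbour of `hat b Y` in the chain -/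
noncomputable def hf (b : ℤ) (Y u : ℂ) : ℂ := (u - hat b Y) / (hat b Y - 1)

section
variable {M : ℕ} (b : Fin (M + 2) → ℤ) (Y : Fin (M + 1) → ℂ) (U : Fin (M + 2) → ℕ → ℂ)

/-- the neighbour of the turning point `j` in the twist region `j` -/
noncomputable def nbr (j : Fin (M + 1)) : ℂ :=
  if j = 0 then U 0 1 else (U j.castSucc ((b j.castSucc).natAbs - 1))⁻¹

/-- number of tetrahedra in the chain of the twist region `i` -/
def nlet (i : Fin (M + 2)) : ℕ := if i = 0 ∨ i = Fin.last (M + 1) then (b i).natAbs - 2 else (b i).natAbs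

/-- the gluing equations -/
structure Glue : Prop where
  first : EndRun (b 0) (Y 0) (U 0)
  last : EndRun (b (Fin.last (M + 1))) (Y (Fin.last M)) (U (Fin.last (M + 1)))
  mid : ∀ j : Fin M, Run (b j.castSucc.succ) (Y j.castSucc) (Y j.succ) (U j.castSucc.succ)
  turn : ∀ j, hf (b j.castSucc) (Y j) (nbr b U j) * hf (b j.succ) (Y j) (U j.succ 1) = 1

/-- All tetrahedra are positively oriented.  In a twist region with one crossing the three
tetrahedra `Y`, `Y'`, `1 / (Y Y')` are replaced by the two tetrahedra `(1 - 1 / Y') / (1 - Y)`,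
`(1 - 1 / Y) / (1 - Y')` (a 3-2 move). -/
structure PosOr : Prop where
  hinge : ∀ j, 0 < (Y j).im
  two : ∀ i, 2 ≤ (b i).natAbs → ∀ l < nlet b i, 0 < (shp (b i) (U i) l).im
  one : ∀ j : Fin M, (b j.castSucc.succ).natAbs = 1 →
    0 < ((1 - (Y j.succ)⁻¹) / (1 - Y j.castSucc)).im ∧
    0 < ((1 - (Y j.castSucc)⁻¹) / (1 - Y j.succ)).im

/-- the volume -/
noncomputable def swVol : ℝ :=
  ∑ j, 2 * LT.BW (Y j) + ∑ i, ∑ l ∈ range (nlet b i), LT.BW (shp (b i) (U i) l)

end

end Pool.Agent.Work.MP_b30479_gtS.G2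

end

section

/-!
# The tetrahedra of a twist region with a ring variable

`Z = e^{2πiζ}`, `u = -πζ`, `φ_l = φ_0 + l u`, `U_l = -sin φ_{l+1} / sin φ_{l-1}`; all identities come
from `sin φ_l sin φ_{l+1} - sin φ_{l-1} sin φ_{l+2} = 2 sin² u cos u` and
`e^{2P} = cos π(w - ζ) / cos π(w + ζ)`, `φ_0 = ∓ i P`.  The chain read from the other end is
`1 / U_{|b| - l}` (`rU_refl`).
-/

namespace Pool.Agent.Work.MP_b30479_gtS.G2

open Finset VOL
open Pool.Agent.Work.MP_b30479_gtS.LT (ee BW)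

/-- the chain of a ring -/
noncomputable def rU (φ0 u : ℂ) (l : ℕ) : ℂ :=
  -(Complex.sin (φ0 + (l + 1) * u) / Complex.sin (φ0 + (l - 1) * u))

lemma sin_four (φ u : ℂ) : Complex.sin φ * Complex.sin (φ + u) -
    Complex.sin (φ - u) * Complex.sin (φ + 2 * u) = 2 * Complex.sin u ^ 2 * Complex.cos u := by
  rw [Complex.sin_add, Complex.sin_sub, Complex.sin_add, Complex.sin_two_mul, Complex.cos_two_mul]
  linear_combination (-2 * Complex.sin φ ^ 2 * Complex.cos u) * (Complex.sin_sq_add_cos_sq u) +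
    (2 * Complex.sin u ^ 2 * Complex.cos u) * (Complex.sin_sq_add_cos_sq φ)

/-- `sin (φ + u) + sin (φ - u) = 2 sin φ cos u` -/
lemma rg_sin_three (φ u : ℂ) : Complex.sin (φ + u) + Complex.sin (φ - u) =
    2 * Complex.sin φ * Complex.cos u := by
  rw [Complex.sin_add, Complex.sin_sub]; ring

lemma rU_sub_one {φ0 u : ℂ} {l : ℕ} (h : Complex.sin (φ0 + (l - 1) * u) ≠ 0) :
    rU φ0 u l - 1 = -(2 * Complex.sin (φ0 + l * u) * Complex.cos u /
      Complex.sin (φ0 + (l - 1) * u)) := by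
  have h3 := rg_sin_three (φ0 + l * u) u
  rw [show φ0 + (l : ℂ) * u + u = φ0 + (l + 1) * u by ring,
    show φ0 + (l : ℂ) * u - u = φ0 + (l - 1) * u by ring] at h3
  unfold rU
  generalize Complex.sin (φ0 + (l + 1) * u) = A at *
  generalize Complex.sin (φ0 + (l - 1) * u) = B at *
  generalize Complex.sin (φ0 + l * u) = C at *
  field_simp
  linear_combination -h3

lemma rU_sub {φ0 u : ℂ} {l : ℕ} (h0 : Complex.sin (φ0 + (l - 1) * u) ≠ 0)
    (h1 : Complex.sin (φ0 + l * u) ≠ 0) :
    rU φ0 u (l + 1) - rU φ0 u l = 2 * Complex.sin u ^ 2 * Complex.cos u /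
      (Complex.sin (φ0 + l * u) * Complex.sin (φ0 + (l - 1) * u)) := by
  have h3 := sin_four (φ0 + l * u) u
  rw [show φ0 + (l : ℂ) * u + u = φ0 + (l + 1) * u by ring,
    show φ0 + (l : ℂ) * u - u = φ0 + (l - 1) * u by ring,
    show φ0 + (l : ℂ) * u + 2 * u = φ0 + (l + 1 + 1) * u by ring] at h3
  unfold rU
  push_cast
  rw [show (l : ℂ) + 1 - 1 = l by ring, ← h3]
  generalize Complex.sin (φ0 + (l + 1) * u) = A at *
  generalize Complex.sin (φ0 + (l - 1) * u) = B at *
  generalize Complex.sin (φ0 + l * u) = C at *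
  generalize Complex.sin (φ0 + (l + 1 + 1) * u) = D at *
  field_simp
  ring

lemma rU_mob {φ0 u : ℂ} {l : ℕ} (hc : Complex.cos u ≠ 0)
    (h : Complex.sin (φ0 + (l - 1) * u) ≠ 0) :
    mob (Complex.exp (-(2 * Complex.I * u))) (rU φ0 u l) = rU φ0 u (l + 1) := by
  have hZ : 1 + Complex.exp (-(2 * Complex.I * u)) + (Complex.exp (-(2 * Complex.I * u)))⁻¹ =
      1 + 2 * Complex.cos (2 * u) := by
    rw [← Complex.exp_neg, neg_neg, Complex.cos]
    rw [show 2 * u * Complex.I = 2 * Complex.I * u by ring,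
      show -(2 * u) * Complex.I = -(2 * Complex.I * u) by ring]
    ring
  have h1 := rg_sin_three (φ0 + (l + 1) * u) (2 * u)
  have h2 := rg_sin_three (φ0 + (l + 1 + 1) * u) u
  rw [show φ0 + ((l : ℂ) + 1) * u - 2 * u = φ0 + (l - 1) * u by ring] at h1
  rw [show φ0 + ((l : ℂ) + 1 + 1) * u + u = φ0 + (l + 1) * u + 2 * u by ring,
    show φ0 + ((l : ℂ) + 1 + 1) * u - u = φ0 + (l + 1) * u by ring] at h2
  unfold mob
  rw [rU_sub_one h, hZ]
  unfold rU
  push_cast
  rw [show (l : ℂ) + 1 - 1 = l by ring]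
  generalize Complex.sin (φ0 + (l + 1) * u + 2 * u) = E at *
  generalize Complex.sin (φ0 + (l + 1) * u) = A at *
  generalize Complex.sin (φ0 + (l - 1) * u) = B at *
  generalize Complex.sin (φ0 + l * u) = C at *
  generalize Complex.sin (φ0 + (l + 1 + 1) * u) = D at *
  generalize Complex.cos (2 * u) = c2 at *
  generalize Complex.cos u = c at *
  have hn : (1 + 2 * c2) * -(A / B) + 1 = -(2 * D * c / B) := by
    field_simp
    linear_combination h1 - h2
  rw [hn]
  by_cases hC : C = 0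
  · simp [hC]
  · field_simp

lemma rU_edge {φ0 u : ℂ} {l : ℕ} (h0 : Complex.sin (φ0 + (l - 1) * u) ≠ 0)
    (h1 : Complex.sin (φ0 + l * u) ≠ 0) (h2 : Complex.sin (φ0 + (l + 1) * u) ≠ 0) :
    (rU φ0 u (l + 2) - rU φ0 u (l + 1)) * rU φ0 u l = -(rU φ0 u (l + 1) - rU φ0 u l) := by
  have e1 : ((l + 1 : ℕ) : ℂ) - 1 = l := by push_cast; ring
  have e2 : ((l + 1 : ℕ) : ℂ) = l + 1 := by push_cast; ring
  rw [rU_sub h0 h1, rU_sub (l := l + 1) (by rw [e1]; exact h1) (by rw [e2]; exact h2), e1, e2]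
  unfold rU
  generalize Complex.sin (φ0 + (l + 1) * u) = A at *
  generalize Complex.sin (φ0 + (l - 1) * u) = B at *
  generalize Complex.sin (φ0 + l * u) = C at *
  field_simp

lemma rU_shape {φ0 u : ℂ} {l : ℕ} (h1 : Complex.sin (φ0 + l * u) ≠ 0)
    (h2 : Complex.sin (φ0 + (l + 1) * u) ≠ 0) :
    rU φ0 u (l + 1) / rU φ0 u l = 1 - 2 * Complex.sin u ^ 2 * Complex.cos u /
      (Complex.sin (φ0 + l * u) * Complex.sin (φ0 + (l + 1) * u)) := by
  have h3 := sin_four (φ0 + l * u) u
  rw [show φ0 + (l : ℂ) * u + u = φ0 + (l + 1) * u by ring,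
    show φ0 + (l : ℂ) * u - u = φ0 + (l - 1) * u by ring,
    show φ0 + (l : ℂ) * u + 2 * u = φ0 + (l + 1 + 1) * u by ring] at h3
  unfold rU
  push_cast
  rw [show (l : ℂ) + 1 - 1 = l by ring, ← h3]
  generalize Complex.sin (φ0 + (l + 1) * u) = A at *
  generalize Complex.sin (φ0 + (l - 1) * u) = B at *
  generalize Complex.sin (φ0 + l * u) = C at *
  generalize Complex.sin (φ0 + (l + 1 + 1) * u) = D at *
  by_cases hB : B = 0
  · simp [hB, h1, h2]
  · field_simp
    ring

/-- the phase of a hinge -/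
noncomputable def rP (w ζ : ℂ) : ℂ := (ph (w - ζ + 1 / 2) - ph (w + ζ + 1 / 2)) / 2

/-- the initial phase -/
noncomputable def rr0 (b : ℤ) (w ζ : ℂ) : ℂ :=
  if 0 < b then -(Complex.I * rP w ζ) else Complex.I * rP w ζ

/-- the chain of the twist region -/
noncomputable def rC (b : ℤ) (w ζ : ℂ) : ℕ → ℂ := rU (rr0 b w ζ) (-(Real.pi * ζ))

/-- a hinge of a ring -/
structure RHg (w ζ : ℂ) : Prop where
  hw : w ∈ strip
  hp : w + ζ + 1 / 2 ∈ strip
  hm : w - ζ + 1 / 2 ∈ strip
  sz : Complex.sin (2 * Real.pi * ζ) ≠ 0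

/-- no degenerate tetrahedra -/
def Nv (b : ℤ) (w ζ : ℂ) : Prop :=
  ∀ k : ℕ, k < b.natAbs → Complex.sin (rr0 b w ζ + k * -(Real.pi * ζ)) ≠ 0

variable {b : ℤ} {w w' ζ : ℂ}

/-- `a = e^{iπw}`, `z = e^{iπζ}`, `p = e^P` -/
structure AZP (w ζ a z p : ℂ) : Prop where
  a0 : a ≠ 0
  z0 : z ≠ 0
  p0 : p ≠ 0
  z4 : z ^ 4 ≠ 1
  a2 : a ^ 2 = ee w
  aa : a ^ 2 ≠ 1
  rel : p ^ 2 * (a ^ 2 * z ^ 2 + 1) = a ^ 2 + z ^ 2
  s1 : Complex.sin (Real.pi * ζ - Complex.I * rP w ζ) = (z * p - (z * p)⁻¹) / (2 * Complex.I)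
  s2 : Complex.sin (Real.pi * ζ + Complex.I * rP w ζ) = (z / p - (z / p)⁻¹) / (2 * Complex.I)
  s3 : Complex.sin (Complex.I * rP w ζ) = (p⁻¹ - p) / (2 * Complex.I)
  s4 : Complex.sin (Real.pi * ζ) = (z - z⁻¹) / (2 * Complex.I)
  rhs : Complex.exp (ph (w + ζ + 1 / 2) + ph (w - ζ + 1 / 2) - 2 * ph w) =
    -((a * z + (a * z)⁻¹) * (a / z + z / a) / (a - a⁻¹) ^ 2)

lemma rg_sin_exp (x : ℂ) : Complex.sin x = (Complex.exp (x * Complex.I) -
    (Complex.exp (x * Complex.I))⁻¹) / (2 * Complex.I) := by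
  rw [← Complex.exp_neg, Complex.sin]
  have hI := Complex.I_ne_zero
  field_simp
  rw [Complex.I_sq]
  ring

lemma exp_ph_half {v : ℂ} (hv : v + 1 / 2 ∈ strip) : Complex.exp (ph (v + 1 / 2)) =
    Complex.exp (Real.pi * v * Complex.I) + (Complex.exp (Real.pi * v * Complex.I))⁻¹ := by
  rw [exp_ph hv, mul_add, show (Real.pi : ℂ) * (1 / 2) = Real.pi / 2 by ring,
    Complex.sin_add_pi_div_two, Complex.cos, ← Complex.exp_neg, neg_mul]
  ring

lemma azp (h : RHg w ζ) : ∃ a z p, AZP w ζ a z p := by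
  have hp := exp_ph_half (v := w + ζ) h.hp
  have hm := exp_ph_half (v := w - ζ) h.hm
  have hC := exp_ph h.hw
  have ep : Complex.exp (Real.pi * (w + ζ) * Complex.I) =
      Complex.exp (Real.pi * w * Complex.I) * Complex.exp (Real.pi * ζ * Complex.I) := by
    rw [← Complex.exp_add]; congr 1; ring
  have em : Complex.exp (Real.pi * (w - ζ) * Complex.I) =
      Complex.exp (Real.pi * w * Complex.I) / Complex.exp (Real.pi * ζ * Complex.I) := by
    rw [← Complex.exp_sub]; congr 1; ring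
  have hw0 := sin_pi_ne h.hw
  have ha0 : Complex.exp (Real.pi * w * Complex.I) ≠ 0 := Complex.exp_ne_zero _
  have hz0 : Complex.exp (Real.pi * ζ * Complex.I) ≠ 0 := Complex.exp_ne_zero _
  have hI := Complex.I_ne_zero
  rw [rg_sin_exp] at hC hw0
  have hsz := h.sz
  rw [rg_sin_exp, show 2 * (Real.pi : ℂ) * ζ * Complex.I = (2 : ℕ) * (Real.pi * ζ * Complex.I) by
    push_cast; ring, Complex.exp_nat_mul] at hsz
  have hp2 : Complex.exp (rP w ζ) ^ 2 * Complex.exp (ph (w + ζ + 1 / 2)) =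
      Complex.exp (ph (w - ζ + 1 / 2)) := by
    rw [← Complex.exp_nat_mul, ← Complex.exp_add]
    congr 1
    unfold rP
    push_cast
    ring
  have hR : Complex.exp (ph (w + ζ + 1 / 2) + ph (w - ζ + 1 / 2) - 2 * ph w) =
      Complex.exp (ph (w + ζ + 1 / 2)) * Complex.exp (ph (w - ζ + 1 / 2)) /
        Complex.exp (ph w) ^ 2 := by
    rw [Complex.exp_sub, Complex.exp_add, ← Complex.exp_nat_mul]
    push_cast
    rfl
  refine ⟨Complex.exp (Real.pi * w * Complex.I), Complex.exp (Real.pi * ζ * Complex.I),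
    Complex.exp (rP w ζ), Complex.exp_ne_zero _, Complex.exp_ne_zero _, Complex.exp_ne_zero _,
    ?_, ?_, ?_, ?_, ?_, ?_, ?_, ?_, ?_⟩
  · intro h4
    apply hsz
    generalize Complex.exp (Real.pi * ζ * Complex.I) = z at *
    have : z ^ 2 - (z ^ 2)⁻¹ = 0 := by
      field_simp
      linear_combination h4
    rw [this, zero_div]
  · rw [← Complex.exp_nat_mul]
    unfold ee
    congr 1
    push_cast
    ring
  · intro h2
    apply hw0
    generalize Complex.exp (Real.pi * w * Complex.I) = a at *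
    have : a - a⁻¹ = 0 := by
      field_simp
      linear_combination h2
    rw [this, zero_div]
  · rw [hp, hm, ep, em] at hp2
    generalize Complex.exp (Real.pi * w * Complex.I) = a at *
    generalize Complex.exp (Real.pi * ζ * Complex.I) = z at *
    generalize Complex.exp (rP w ζ) = p at *
    field_simp at hp2
    linear_combination hp2
  · rw [rg_sin_exp, ← Complex.exp_add]
    have : (Real.pi * ζ - Complex.I * rP w ζ) * Complex.I = Real.pi * ζ * Complex.I + rP w ζ := by
      linear_combination (-rP w ζ) * Complex.I_mul_I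
    rw [this]
  · rw [rg_sin_exp, ← Complex.exp_sub]
    have : (Real.pi * ζ + Complex.I * rP w ζ) * Complex.I = Real.pi * ζ * Complex.I - rP w ζ := by
      linear_combination (rP w ζ) * Complex.I_mul_I
    rw [this]
  · rw [rg_sin_exp]
    have : Complex.I * rP w ζ * Complex.I = - rP w ζ := by
      linear_combination (rP w ζ) * Complex.I_mul_I
    rw [this, Complex.exp_neg, inv_inv]
  · rw [rg_sin_exp]
  · rw [hR, hp, hm, hC, ep, em]
    generalize Complex.exp (Real.pi * w * Complex.I) = a at *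
    generalize Complex.exp (Real.pi * ζ * Complex.I) = z at *
    have h1 : (2 * ((a - a⁻¹) / (2 * Complex.I))) ^ 2 = -(a - a⁻¹) ^ 2 := by
      rw [mul_pow, div_pow, mul_pow, Complex.I_sq]
      ring
    rw [h1, inv_div, div_neg]

namespace AZP

variable {a z p : ℂ}

lemma sm (h : AZP w ζ a z p) : Complex.sin (Real.pi * ζ - Complex.I * rP w ζ) ≠ 0 := by
  obtain ⟨a0, z0, p0, z4, a2, aa, rel, s1, s2, s3, s4, rhs⟩ := h
  rw [s1]
  refine div_ne_zero ?_ (mul_ne_zero two_ne_zero Complex.I_ne_zero)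
  intro h
  apply z4
  have h1 : z ^ 2 * p ^ 2 = 1 := by
    field_simp at h
    linear_combination h
  linear_combination (a ^ 2 * z ^ 2 + 1) * h1 - z ^ 2 * rel

lemma sp (h : AZP w ζ a z p) : Complex.sin (Real.pi * ζ + Complex.I * rP w ζ) ≠ 0 := by
  obtain ⟨a0, z0, p0, z4, a2, aa, rel, s1, s2, s3, s4, rhs⟩ := h
  rw [s2]
  refine div_ne_zero ?_ (mul_ne_zero two_ne_zero Complex.I_ne_zero)
  intro h
  apply z4
  have h1 : z ^ 2 = p ^ 2 := by
    rw [inv_div] at h
    field_simp at h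
    linear_combination h
  have h2 : a ^ 2 * (z ^ 4 - 1) = 0 := by
    linear_combination rel + (a ^ 2 * z ^ 2 + 1) * h1
  have h3 := (mul_eq_zero.1 h2).resolve_left (pow_ne_zero 2 a0)
  linear_combination h3

lemma quot (h : AZP w ζ a z p) : Complex.sin (Real.pi * ζ + Complex.I * rP w ζ) =
    ee w * Complex.sin (Real.pi * ζ - Complex.I * rP w ζ) := by
  obtain ⟨a0, z0, p0, z4, a2, aa, rel, s1, s2, s3, s4, rhs⟩ := h
  rw [s2, s1, ← a2, ← mul_div_assoc]
  congr 1
  rw [inv_div]
  field_simp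
  linear_combination -rel

lemma s30 (h : AZP w ζ a z p) : Complex.sin (Complex.I * rP w ζ) ≠ 0 := by
  obtain ⟨a0, z0, p0, z4, a2, aa, rel, s1, s2, s3, s4, rhs⟩ := h
  rw [s3]
  refine div_ne_zero ?_ (mul_ne_zero two_ne_zero Complex.I_ne_zero)
  intro h
  have h1 : p ^ 2 = 1 := by
    field_simp at h
    linear_combination -h
  have h2 : (a ^ 2 - 1) * (z ^ 2 - 1) = 0 := by
    linear_combination rel - (a ^ 2 * z ^ 2 + 1) * h1
  rcases mul_eq_zero.1 h2 with h3 | h3
  · exact aa (by linear_combination h3)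
  · exact z4 (by linear_combination (z ^ 2 + 1) * h3)

lemma main (h : AZP w ζ a z p) :
    Complex.exp (ph (w + ζ + 1 / 2) + ph (w - ζ + 1 / 2) - 2 * ph w) =
      -(Complex.sin (Real.pi * ζ) ^ 2 / Complex.sin (Complex.I * rP w ζ) ^ 2) := by
  have h30 := h.s30
  obtain ⟨a0, z0, p0, z4, a2, aa, rel, s1, s2, s3, s4, rhs⟩ := h
  rw [s3] at h30
  have hI := Complex.I_ne_zero
  have hp : p⁻¹ - p ≠ 0 := fun h => h30 (by rw [h, zero_div])
  have ha : a - a⁻¹ ≠ 0 := by
    intro h
    apply aa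
    field_simp at h
    linear_combination h
  rw [rhs, s3, s4, div_pow, div_pow, div_div_div_cancel_right₀ (pow_ne_zero 2 (mul_ne_zero two_ne_zero hI))]
  rw [neg_inj, div_eq_div_iff (pow_ne_zero 2 ha) (pow_ne_zero 2 hp)]
  field_simp
  linear_combination (-(1 - p ^ 2) ^ 2 * (a ^ 2 * z ^ 2 + 1) - p ^ 2 * (2 * (a ^ 2 * z ^ 2 + 1) -
    p ^ 2 * (a ^ 2 * z ^ 2 + 1) - (a ^ 2 + z ^ 2))) * rel

end AZP

lemma rr0_pos (hb : 0 < b) : rr0 b w ζ = -(Complex.I * rP w ζ) := if_pos hb

lemma r0_neg (hb : ¬ 0 < b) : rr0 b w ζ = Complex.I * rP w ζ := if_neg hb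

lemma sin_r0_pred (h : RHg w ζ) : Complex.sin (rr0 b w ζ - -(Real.pi * ζ)) ≠ 0 := by
  obtain ⟨a, z, p, hz⟩ := azp h
  by_cases hb : 0 < b
  · rw [rr0_pos hb, show -(Complex.I * rP w ζ) - -(Real.pi * ζ) = Real.pi * ζ - Complex.I * rP w ζ by
      ring]
    exact hz.sm
  · rw [r0_neg hb, show Complex.I * rP w ζ - -(Real.pi * ζ) = Real.pi * ζ + Complex.I * rP w ζ by
      ring]
    exact hz.sp

lemma sin_r0_pred' (h : RHg w ζ) :
    Complex.sin (rr0 b w ζ + (((0 : ℕ) : ℂ) - 1) * -(Real.pi * ζ)) ≠ 0 := by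
  have := sin_r0_pred (b := b) h
  rwa [show rr0 b w ζ - -(Real.pi * ζ) = rr0 b w ζ + (((0 : ℕ) : ℂ) - 1) * -(Real.pi * ζ) by
    push_cast; ring] at this

lemma rg_ee_ne (w : ℂ) : ee w ≠ 0 := Complex.exp_ne_zero _

lemma rC_zero (h : RHg w ζ) : rC b w ζ 0 = hat b (ee w) := by
  obtain ⟨a, z, p, hz⟩ := azp h
  unfold rC rU hat
  by_cases hb : 0 < b
  · rw [if_pos hb, rr0_pos hb]
    rw [show -(Complex.I * rP w ζ) + (((0 : ℕ) : ℂ) + 1) * -(Real.pi * ζ) =
      -(Real.pi * ζ + Complex.I * rP w ζ) by push_cast; ring,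
      show -(Complex.I * rP w ζ) + (((0 : ℕ) : ℂ) - 1) * -(Real.pi * ζ) =
      Real.pi * ζ - Complex.I * rP w ζ by push_cast; ring, Complex.sin_neg, neg_div, neg_neg,
      hz.quot, mul_div_assoc, div_self hz.sm, mul_one]
  · rw [if_neg hb, r0_neg hb]
    rw [show Complex.I * rP w ζ + (((0 : ℕ) : ℂ) + 1) * -(Real.pi * ζ) =
      -(Real.pi * ζ - Complex.I * rP w ζ) by push_cast; ring,
      show Complex.I * rP w ζ + (((0 : ℕ) : ℂ) - 1) * -(Real.pi * ζ) =
      Real.pi * ζ + Complex.I * rP w ζ by push_cast; ring, Complex.sin_neg, neg_div, neg_neg,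
      hz.quot]
    have := hz.sm
    have := rg_ee_ne w
    rw [div_mul_eq_div_div_swap, div_self hz.sm, one_div]

lemma hat_ee_ne (b : ℤ) (w : ℂ) : hat b (ee w) ≠ 0 := by
  unfold hat
  split_ifs
  · exact rg_ee_ne w
  · exact inv_ne_zero (rg_ee_ne w)

lemma natAbs_cast_pos (h : 0 < b) : ((b.natAbs : ℕ) : ℂ) = b := by
  rw [← Int.cast_natCast, Int.natAbs_of_nonneg h.le]

lemma natAbs_cast_neg (h : ¬ 0 < b) : ((b.natAbs : ℕ) : ℂ) = -b := by
  rw [← Int.cast_natCast, Int.ofNat_natAbs_of_nonpos (not_lt.1 h), Int.cast_neg]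

/-- reflection of the phases -/
lemma phase_refl (hb : b ≠ 0) (he : rP w ζ + rP w' ζ = Real.pi * Complex.I * (b * ζ + 1)) (k : ℂ) :
    Complex.sin (rr0 b w ζ + ((b.natAbs : ℂ) - k) * -(Real.pi * ζ)) =
      Complex.sin (rr0 b w' ζ + k * -(Real.pi * ζ)) := by
  by_cases h : 0 < b
  · have hn := natAbs_cast_pos h
    rw [rr0_pos h, rr0_pos h, hn, ← Complex.sin_pi_sub]
    congr 1
    linear_combination (Complex.I) * he + (Real.pi * (b * ζ + 1)) * Complex.I_mul_I
  · have hn := natAbs_cast_neg h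
    rw [r0_neg h, r0_neg h, hn]
    have h1 : Complex.I * rP w ζ + (-(b : ℂ) - k) * -(Real.pi * ζ) =
        -((Complex.I * rP w' ζ + k * -(Real.pi * ζ)) + Real.pi) := by
      linear_combination (Complex.I) * he + (Real.pi * (b * ζ + 1)) * Complex.I_mul_I
    rw [h1, Complex.sin_neg, Complex.sin_add_pi, neg_neg]

lemma rC_refl (hb : b ≠ 0) (he : rP w ζ + rP w' ζ = Real.pi * Complex.I * (b * ζ + 1)) {l : ℕ}
    (hl : l ≤ b.natAbs) : rC b w ζ (b.natAbs - l) = (rC b w' ζ l)⁻¹ := by
  unfold rC rU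
  rw [Nat.cast_sub hl, show (b.natAbs : ℂ) - l + 1 = b.natAbs - (l - 1) by ring,
    show (b.natAbs : ℂ) - l - 1 = b.natAbs - (l + 1) by ring, phase_refl hb he, phase_refl hb he,
    inv_neg, inv_div]

/-- the phases do not vanish -/
lemma rC_sin_ne (h : RHg w ζ) (hn : Nv b w ζ) {l : ℕ} (hl : l ≤ b.natAbs) :
    Complex.sin (rr0 b w ζ + ((l : ℂ) - 1) * -(Real.pi * ζ)) ≠ 0 := by
  rcases Nat.eq_zero_or_pos l with rfl | hl0
  · exact sin_r0_pred' h
  · have h1 := hn (l - 1) (by omega)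
    rwa [Nat.cast_sub hl0, Nat.cast_one] at h1

lemma rC_edge (h : RHg w ζ) (hn : Nv b w ζ) {l : ℕ} (hl : l + 2 ≤ b.natAbs) :
    (rC b w ζ (l + 2) - rC b w ζ (l + 1)) * rC b w ζ l = -(rC b w ζ (l + 1) - rC b w ζ l) := by
  refine rU_edge (rC_sin_ne h hn (by omega)) (hn l (by omega)) ?_
  have := hn (l + 1) (by omega)
  rwa [Nat.cast_add, Nat.cast_one] at this

theorem ring_run (hb : b ≠ 0) (h : RHg w ζ) (h' : RHg w' ζ)
    (he : rP w ζ + rP w' ζ = Real.pi * Complex.I * (b * ζ + 1)) (hn : Nv b w ζ) :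
    Run b (ee w) (ee w') (rC b w ζ) := by
  refine ⟨rC_zero h, ?_, fun l hl => rC_edge h hn hl⟩
  have h1 := rC_refl hb he (l := 0) (Nat.zero_le _)
  rw [Nat.sub_zero, rC_zero h'] at h1
  rw [h1, inv_mul_cancel₀ (hat_ee_ne b w')]

/-- the phase at the end -/
lemma rC_sin_end (hb : b ≠ 0) (he : rP w ζ = Real.pi * Complex.I * (b * ζ + 1)) :
    Complex.sin (rr0 b w ζ + (b.natAbs : ℂ) * -(Real.pi * ζ)) = 0 := by
  by_cases h : 0 < b
  · have hn := natAbs_cast_pos h
    rw [rr0_pos h, hn, he]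
    have : -(Complex.I * (Real.pi * Complex.I * (b * ζ + 1))) + (b : ℂ) * -(Real.pi * ζ) =
        Real.pi := by
      linear_combination (-Real.pi * (b * ζ + 1)) * Complex.I_mul_I
    rw [this, Complex.sin_pi]
  · have hn := natAbs_cast_neg h
    rw [r0_neg h, hn, he]
    have : Complex.I * (Real.pi * Complex.I * (b * ζ + 1)) + (-b : ℂ) * -(Real.pi * ζ) =
        -Real.pi := by
      linear_combination (Real.pi * (b * ζ + 1)) * Complex.I_mul_I
    rw [this, Complex.sin_neg, Complex.sin_pi, neg_zero]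

lemma rC_end (hb : 2 ≤ b.natAbs) (he : rP w ζ = Real.pi * Complex.I * (b * ζ + 1)) :
    rC b w ζ (b.natAbs - 1) = 0 := by
  have hb0 : b ≠ 0 := by rintro rfl; simp at hb
  unfold rC rU
  rw [Nat.cast_sub (by omega), Nat.cast_one, sub_add_cancel, rC_sin_end hb0 he, zero_div, neg_zero]

theorem ring_end (hb : 2 ≤ b.natAbs) (h : RHg w ζ)
    (he : rP w ζ = Real.pi * Complex.I * (b * ζ + 1)) (hn : Nv b w ζ) :
    EndRun b (ee w) (rC b w ζ) :=
  ⟨rC_zero h, rC_end hb he, fun l hl => rC_edge h hn (by omega)⟩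

lemma rg_cos_ne (h : RHg w ζ) : Complex.cos (-(Real.pi * ζ)) ≠ 0 := by
  have hs := h.sz
  rw [show 2 * (Real.pi : ℂ) * ζ = 2 * (Real.pi * ζ) by ring, Complex.sin_two_mul] at hs
  rw [Complex.cos_neg]
  exact right_ne_zero_of_mul hs

lemma rg_sin_u_ne (h : RHg w ζ) : Complex.sin (Real.pi * ζ) ≠ 0 := by
  have hs := h.sz
  rw [show 2 * (Real.pi : ℂ) * ζ = 2 * (Real.pi * ζ) by ring, Complex.sin_two_mul] at hs
  exact right_ne_zero_of_mul (left_ne_zero_of_mul hs)

lemma sin_r0_sq : Complex.sin (rr0 b w ζ) ^ 2 = Complex.sin (Complex.I * rP w ζ) ^ 2 := by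
  unfold rr0
  split_ifs
  · rw [Complex.sin_neg, neg_sq]
  · rfl

theorem ring_hf (h : RHg w ζ) : hf b (ee w) (rC b w ζ 1) =
    Complex.exp (ph (w + ζ + 1 / 2) + ph (w - ζ + 1 / 2) - 2 * ph w) := by
  obtain ⟨a, z, p, hz⟩ := azp h
  have hc := rg_cos_ne h
  have hs := rg_sin_u_ne h
  have h0 : Complex.sin (rr0 b w ζ + ((0 : ℕ) : ℂ) * -(Real.pi * ζ)) ≠ 0 := by
    rw [Nat.cast_zero, zero_mul, add_zero]
    intro h0
    have := sin_r0_sq (b := b) (w := w) (ζ := ζ)
    rw [h0] at this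
    exact hz.s30 (pow_eq_zero_iff two_ne_zero |>.1 (by rw [← this]; simp))
  have hp := sin_r0_pred' (b := b) h
  rw [hz.main]
  unfold hf
  rw [← rC_zero h]
  unfold rC
  rw [rU_sub_one hp]
  have h1 := rU_sub (l := 0) hp h0
  rw [zero_add] at h1
  rw [h1, ← sin_r0_sq (b := b)]
  rw [Nat.cast_zero, zero_mul, add_zero] at h0 ⊢
  rw [Nat.cast_zero] at hp
  rw [Complex.sin_neg, neg_sq]
  generalize Complex.sin (rr0 b w ζ) = A at *
  generalize Complex.sin (rr0 b w ζ + (0 - 1) * -(Real.pi * ζ)) = B at *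
  generalize Complex.cos (-(Real.pi * ζ)) = C at *
  generalize Complex.sin (Real.pi * ζ) = D at *
  field_simp

theorem ring_hf' (hb : b ≠ 0) (h : RHg w' ζ)
    (he : rP w ζ + rP w' ζ = Real.pi * Complex.I * (b * ζ + 1)) :
    hf b (ee w') (rC b w ζ (b.natAbs - 1))⁻¹ =
      Complex.exp (ph (w' + ζ + 1 / 2) + ph (w' - ζ + 1 / 2) - 2 * ph w') := by
  have : 1 ≤ b.natAbs := Nat.one_le_iff_ne_zero.2 (Int.natAbs_ne_zero.2 hb)
  rw [rC_refl hb he this, inv_inv, ring_hf h]

lemma rC_mob (h : RHg w ζ) (hn : Nv b w ζ) {l : ℕ} (hl : l ≤ b.natAbs) :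
    mob (ee ζ) (rC b w ζ l) = rC b w ζ (l + 1) := by
  have h1 := rU_mob (rg_cos_ne h) (rC_sin_ne h hn hl)
  have h2 : Complex.exp (-(2 * Complex.I * -(Real.pi * ζ))) = ee ζ := by
    unfold ee
    congr 1
    ring
  rw [h2] at h1
  exact h1

/-- telescoping -/
lemma shp_vol (h : RHg w ζ) (hn : Nv b w ζ) {n : ℕ} (hm : n ≤ b.natAbs) :
    ∑ l ∈ range n, BW (shp b (rC b w ζ) l) =
      (if 0 < b then 1 else -1) * (gZ (ee ζ) (rC b w ζ 0) - gZ (ee ζ) (rC b w ζ n)) := by
  have h1 : ∀ l, l < n → BW (shp b (rC b w ζ) l) = (if 0 < b then 1 else -1) *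
      (gZ (ee ζ) (rC b w ζ l) - gZ (ee ζ) (rC b w ζ (l + 1))) := by
    intro l hl
    have h2 := rC_mob h hn (l := l) (by omega)
    have h3 := BW_seven (rg_ee_ne ζ) (rC b w ζ l)
    rw [h2] at h3
    unfold shp
    split_ifs with hb'
    · rw [h3, one_mul]
    · rw [h3, ← inv_div, BW_inv]
      ring
  rw [Finset.sum_congr rfl (fun l hl => h1 l (mem_range.1 hl)), ← Finset.mul_sum,
    Finset.sum_range_sub']

theorem ring_vol (hb : b ≠ 0) (h : RHg w ζ) (h' : RHg w' ζ)
    (he : rP w ζ + rP w' ζ = Real.pi * Complex.I * (b * ζ + 1)) (hn : Nv b w ζ) :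
    ∑ l ∈ range b.natAbs, BW (shp b (rC b w ζ) l) = gZ (ee ζ) (ee w) + gZ (ee ζ) (ee w') := by
  have h1 := rC_refl hb he (l := 0) (Nat.zero_le _)
  rw [Nat.sub_zero, rC_zero h'] at h1
  rw [shp_vol h hn le_rfl, h1, rC_zero h, gZ_inv]
  unfold hat
  split_ifs
  · ring
  · rw [gZ_inv, gZ_inv]; ring

theorem ring_vol_end (hb : 2 ≤ b.natAbs) (h : RHg w ζ)
    (he : rP w ζ = Real.pi * Complex.I * (b * ζ + 1)) (hn : Nv b w ζ) :
    ∑ l ∈ range (b.natAbs - 2), BW (shp b (rC b w ζ) l) = gZ (ee ζ) (ee w) := by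
  have hb0 : b ≠ 0 := by rintro rfl; simp at hb
  have h0 : BW 0 = 0 := by
    have := BW_real 0
    simpa using this
  have h1 : gZ (ee ζ) (rC b w ζ (b.natAbs - 2)) = 0 := by
    have h2 := rC_mob h hn (l := b.natAbs - 2) (by omega)
    rw [show b.natAbs - 2 + 1 = b.natAbs - 1 by omega, rC_end hb he] at h2
    have h3 := BW_seven (rg_ee_ne ζ) (rC b w ζ (b.natAbs - 2))
    rw [h2, zero_div, h0] at h3
    have h4 : gZ (ee ζ) 0 = 0 := by
      unfold gZ
      simp [h0]
    linarith
  rw [shp_vol h hn (by omega), h1, rC_zero h, sub_zero]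
  unfold hat
  split_ifs
  · ring
  · rw [gZ_inv]; ring

end Pool.Agent.Work.MP_b30479_gtS.G2

end

section

/-!
# Local computations for `GeoRun`: exponentials of the local derivatives, chains of length `≤ 3`
-/

namespace Pool.Agent.Work.MP_b30479_gtS.G2

open Finset VOL
open Pool.Agent.Work.MP_b30479_gtS.LT (ee BW)

/-- the sign of `b` -/
noncomputable def sgB (b : ℤ) : ℂ := if 0 < b then 1 else -1

/-- `e^{±πiw}` -/
noncomputable def aa (b : ℤ) (w : ℂ) : ℂ := Complex.exp (sgB b * (Real.pi * Complex.I * w))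

lemma sgB_sq (b : ℤ) : sgB b * sgB b = 1 := by
  unfold sgB
  split_ifs <;> norm_num

lemma aa_ne (b : ℤ) (w : ℂ) : aa b w ≠ 0 := Complex.exp_ne_zero _

lemma aa_add (b : ℤ) (w w' : ℂ) : aa b (w + w') = aa b w * aa b w' := by
  unfold aa
  rw [← Complex.exp_add]
  congr 1
  ring

lemma aa_sub (b : ℤ) (w w' : ℂ) : aa b (w - w') = aa b w / aa b w' := by
  unfold aa
  rw [← Complex.exp_sub]
  congr 1
  ring

lemma aa_zero (b : ℤ) : aa b 0 = 1 := by
  unfold aa
  simp

lemma hat_ee (b : ℤ) (w : ℂ) : hat b (ee w) = aa b w * aa b w := by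
  unfold hat aa ee sgB
  rw [← Complex.exp_add]
  split_ifs with h
  · congr 1
    ring
  · rw [← Complex.exp_neg]
    congr 1
    ring

lemma un_sgB (b : ℤ) : un b = sgB b * (Real.pi * Complex.I / 2) := by
  unfold un sgB
  rfl

lemma exp_un (b : ℤ) (w : ℂ) : Complex.exp (un b * (2 * w)) = aa b w := by
  rw [un_sgB, aa]
  congr 1
  ring

lemma exp_un_one (b : ℤ) : Complex.exp (un b) = sgB b * Complex.I := by
  rw [un_sgB, sgB]
  split_ifs
  · rw [show (1 : ℂ) * (Real.pi * Complex.I / 2) = Real.pi / 2 * Complex.I by ring,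
      Complex.exp_pi_div_two_mul_I, one_mul]
  · rw [show (-1 : ℂ) * (Real.pi * Complex.I / 2) = -(Real.pi / 2 * Complex.I) by ring,
      Complex.exp_neg, Complex.exp_pi_div_two_mul_I, Complex.inv_I]
    ring

lemma two_sin (b : ℤ) (w : ℂ) : 2 * Complex.sin (Real.pi * w) =
    sgB b * Complex.I * (1 - aa b w * aa b w) / aa b w := by
  have h0 := aa_ne b w
  rw [eq_div_iff h0, Complex.sin]
  unfold aa sgB
  split_ifs
  · have e1 : Complex.exp (-(Real.pi * w) * Complex.I) * Complex.exp (1 * (Real.pi * Complex.I * w)) = 1 := by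
      rw [← Complex.exp_add, show -(Real.pi * w) * Complex.I + 1 * (Real.pi * Complex.I * w) = 0 by ring,
        Complex.exp_zero]
    have e2 : Complex.exp (Real.pi * w * Complex.I) = Complex.exp (1 * (Real.pi * Complex.I * w)) := by
      congr 1
      ring
    rw [e2]
    linear_combination Complex.I * e1
  · have e1 : Complex.exp (Real.pi * w * Complex.I) * Complex.exp (-1 * (Real.pi * Complex.I * w)) = 1 := by
      rw [← Complex.exp_add, show Real.pi * w * Complex.I + -1 * (Real.pi * Complex.I * w) = 0 by ring,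
        Complex.exp_zero]
    have e2 : Complex.exp (-(Real.pi * w) * Complex.I) = Complex.exp (-1 * (Real.pi * Complex.I * w)) := by
      congr 1
      ring
    rw [e2]
    linear_combination -Complex.I * e1

lemma exp_ph' (b : ℤ) {w : ℂ} (h : w ∈ strip) : Complex.exp (ph w) =
    sgB b * Complex.I * (1 - aa b w * aa b w) / aa b w := by
  rw [exp_ph h, two_sin]

lemma one_sub_aa (b : ℤ) {w : ℂ} (h : w ∈ strip) : 1 - aa b w * aa b w ≠ 0 := by
  intro h0
  have := two_sin b w
  rw [h0, mul_zero, zero_div] at this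
  exact sin_pi_ne h (by simpa using this)

lemma strip_one_sub' {w : ℂ} : 1 - w ∈ strip ↔ w ∈ strip := by
  constructor
  · intro h
    simpa using strip_one_sub h
  · exact fun h => strip_one_sub h

/-- the middle of a chain of length two -/
noncomputable def u2 (Y Y' : ℂ) : ℂ := Y * (Y' - 1) / (Y' * (1 - Y))

/-! ### local derivatives -/

section
variable (b : ℤ) (r l : Bool) (x : Fin 3 → ℂ)

lemma ldT_one_0 : ldT .one b true r x 0 = un b * (2 * (1 - x 2)) + ph (x 0 + x 2) - ph (x 0) := by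
  rw [← ph_one_sub (x 0)]
  cases r <;> simp [ldT, facs, Fac.form, Fin.sum_univ_three, qq2, rr1] <;> ring_nf

lemma ldT_one_2 : ldT .one b l true x 2 = un b * (2 * (1 - x 0)) + ph (x 0 + x 2) - ph (x 2) := by
  rw [← ph_one_sub (x 2)]
  cases l <;> simp [ldT, facs, Fac.form, Fin.sum_univ_three, qq2, rr1] <;> ring_nf

lemma ldT_two_0 : ldT .two b true r x 0 =
    un b * (2 * (x 0 - x 2)) + un b + ph (x 0 + x 2) - 2 * ph (x 0) := by
  rw [← ph_one_sub (x 0)]
  cases r <;> simp [ldT, facs, hL, hR, Fac.form, Fin.sum_univ_three, qq2, rr1] <;> ring_nf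

lemma ldT_two_2 : ldT .two b l true x 2 =
    un b * (2 * (x 2 - x 0)) + un b + ph (x 0 + x 2) - 2 * ph (x 2) := by
  rw [← ph_one_sub (x 2)]
  cases l <;> simp [ldT, facs, hL, hR, Fac.form, Fin.sum_univ_three, qq2, rr1] <;> ring_nf

lemma ldT_threeL_0 : ldT .threeL b true r x 0 =
    un b * (2 * x 1) + ph (x 1 - x 0) - ph (x 0) := by
  rw [← ph_one_sub (x 0), ← ph_one_sub (x 1 - x 0)]
  cases r <;> simp [ldT, facs, hL, hR, Fac.form, Fin.sum_univ_three, qq2, rr1] <;> ring_nf

lemma ldT_threeL_1 : ldT .threeL b l r x 1 =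
    un b * (2 * (x 0 + x 1 - x 2)) - un b + ph (x 1 + x 2) - ph (x 1 - x 0) - ph (x 1) := by
  rw [← ph_one_sub (x 1), ← ph_one_sub (x 1 - x 0)]
  cases r <;> cases l <;> simp [ldT, facs, hL, hR, Fac.form, Fin.sum_univ_three, qq2, rr1] <;> ring_nf

lemma ldT_threeL_2 : ldT .threeL b l true x 2 =
    un b * (2 * (x 2 - x 1)) + un b + ph (x 1 + x 2) - 2 * ph (x 2) := by
  rw [← ph_one_sub (x 2)]
  cases l <;> simp [ldT, facs, hL, hR, Fac.form, Fin.sum_univ_three, qq2, rr1] <;> ring_nf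

lemma ldT_threeR_2 : ldT .threeR b l true x 2 =
    un b * (2 * x 1) + ph (x 1 - x 2) - ph (x 2) := by
  rw [← ph_one_sub (x 2), ← ph_one_sub (x 1 - x 2)]
  cases l <;> simp [ldT, facs, hL, hR, Fac.form, Fin.sum_univ_three, qq2, rr1] <;> ring_nf

lemma ldT_threeR_1 : ldT .threeR b l r x 1 =
    un b * (2 * (x 2 + x 1 - x 0)) - un b + ph (x 0 + x 1) - ph (x 1 - x 2) - ph (x 1) := by
  rw [← ph_one_sub (x 1), ← ph_one_sub (x 1 - x 2)]
  cases r <;> cases l <;> simp [ldT, facs, hL, hR, Fac.form, Fin.sum_univ_three, qq2, rr1] <;> ring_nf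

lemma ldT_threeR_0 : ldT .threeR b true r x 0 =
    un b * (2 * (x 0 - x 1)) + un b + ph (x 0 + x 1) - 2 * ph (x 0) := by
  rw [← ph_one_sub (x 0)]
  cases r <;> simp [ldT, facs, hL, hR, Fac.form, Fin.sum_univ_three, qq2, rr1] <;> ring_nf

lemma ldT_ring_0 : ldT .ring b true r x 0 =
    ph (x 0 + x 1 + 1 / 2) + ph (x 0 - x 1 + 1 / 2) - 2 * ph (x 0) := by
  rw [← ph_one_sub (x 0)]
  cases r <;> simp [ldT, facs, hL, hR, Fac.form, Fin.sum_univ_three, qq2, rr1] <;> ring_nf

lemma ldT_ring_2 : ldT .ring b l true x 2 =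
    ph (x 2 + x 1 + 1 / 2) + ph (x 2 - x 1 + 1 / 2) - 2 * ph (x 2) := by
  rw [← ph_one_sub (x 2)]
  cases l <;> simp [ldT, facs, hL, hR, Fac.form, Fin.sum_univ_three, qq2, rr1] <;> ring_nf

lemma ldT_ring_1 : ldT .ring b l r x 1 =
    (if l then -(2 * rP (x 0) (x 1)) else 0) + (if r then -(2 * rP (x 2) (x 1)) else 0) := by
  unfold rP
  cases r <;> cases l <;> simp [ldT, facs, hL, hR, Fac.form, Fin.sum_univ_three, qq2, rr1] <;> ring_nf

end

/-! ### their exponentials -/

section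
variable {b : ℤ}

lemma sgB_I_sq : sgB b * Complex.I * (sgB b * Complex.I) = -1 := by
  linear_combination Complex.I ^ 2 * sgB_sq b + Complex.I_sq

lemma sgB_I_ne : sgB b * Complex.I ≠ 0 := fun h => by
  have := sgB_I_sq (b := b)
  rw [h] at this
  norm_num at this

lemma aa_one : aa b 1 = -1 := by
  unfold aa sgB
  split_ifs
  · rw [show (1 : ℂ) * (Real.pi * Complex.I * 1) = Real.pi * Complex.I by ring, Complex.exp_pi_mul_I]
  · rw [show (-1 : ℂ) * (Real.pi * Complex.I * 1) = -(Real.pi * Complex.I) by ring, Complex.exp_neg,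
      Complex.exp_pi_mul_I]
    norm_num

lemma e_one {w w' : ℂ} (h : w ∈ strip) (h2 : w + w' ∈ strip) :
    Complex.exp (un b * (2 * (1 - w')) + ph (w + w') - ph w) =
      hf b (ee w) (hat b (ee w'))⁻¹ := by
  have h0 := one_sub_aa b h
  have hs := sgB_I_ne (b := b)
  have hne := aa_ne b w
  have hne' := aa_ne b w'
  rw [Complex.exp_sub, Complex.exp_add, exp_un, exp_ph' b h, exp_ph' b h2, hf, hat_ee, hat_ee, aa_sub,
    aa_add, aa_one]
  generalize sgB b * Complex.I = σ at *
  generalize aa b w = A at *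
  generalize aa b w' = B at *
  have h1 : A * A - 1 ≠ 0 := fun h => h0 (by linear_combination -h)
  rw [div_eq_div_iff (div_ne_zero (mul_ne_zero hs h0) hne) h1]
  field_simp
  ring

lemma e_two {w w' : ℂ} (h : w ∈ strip) (h2 : w + w' ∈ strip) :
    Complex.exp (un b * (2 * (w - w')) + un b + ph (w + w') - 2 * ph w) =
      hf b (ee w) (u2 (hat b (ee w)) (hat b (ee w'))) := by
  have h0 := one_sub_aa b h
  have hs := sgB_I_ne (b := b)
  have hq := sgB_I_sq (b := b)
  have hne := aa_ne b w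
  have hne' := aa_ne b w'
  rw [Complex.exp_sub, Complex.exp_add, Complex.exp_add, two_mul (ph w), Complex.exp_add, exp_un,
    exp_un_one, exp_ph' b h, exp_ph' b h2, hf, u2, hat_ee, hat_ee, aa_sub, aa_add]
  generalize sgB b * Complex.I = σ at *
  generalize aa b w = A at *
  generalize aa b w' = B at *
  have h1 : A * A - 1 ≠ 0 := fun h => h0 (by linear_combination -h)
  have h2' : A * A * (B * B - 1) / (B * B * (1 - A * A)) - A * A =
      A * A * (A * A * (B * B) - 1) / (B * B * (1 - A * A)) := by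
    rw [eq_div_iff (mul_ne_zero (mul_ne_zero hne' hne') h0), sub_mul, div_mul_cancel₀ _
      (mul_ne_zero (mul_ne_zero hne' hne') h0)]
    ring
  rw [h2', div_div, div_eq_div_iff (mul_ne_zero (div_ne_zero (mul_ne_zero hs h0) hne)
    (div_ne_zero (mul_ne_zero hs h0) hne)) (mul_ne_zero (mul_ne_zero (mul_ne_zero hne' hne') h0) h1)]
  field_simp
  ring

lemma e_three0 {w m : ℂ} (h : w ∈ strip) (h2 : m - w ∈ strip) :
    Complex.exp (un b * (2 * m) + ph (m - w) - ph w) = hf b (ee w) (hat b (ee m)) := by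
  have h0 := one_sub_aa b h
  have hs := sgB_I_ne (b := b)
  have hne := aa_ne b w
  have hne' := aa_ne b m
  rw [Complex.exp_sub, Complex.exp_add, exp_un, exp_ph' b h, exp_ph' b h2, hf, hat_ee, hat_ee, aa_sub]
  generalize sgB b * Complex.I = σ at *
  generalize aa b w = A at *
  generalize aa b m = B at *
  have h1 : A * A - 1 ≠ 0 := fun h => h0 (by linear_combination -h)
  rw [div_eq_div_iff (div_ne_zero (mul_ne_zero hs h0) hne) h1]
  field_simp
  ring

/-- the equation of the inner variable is the missing edge equation -/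
lemma e_three1 {w m w' : ℂ} (hm : m ∈ strip) (h1 : m + w' ∈ strip) (h2 : m - w ∈ strip)
    (he : Complex.exp (un b * (2 * (w + m - w')) - un b + ph (m + w') - ph (m - w) - ph m) = 1) :
    (u2 (hat b (ee m)) (hat b (ee w')) - hat b (ee m)) * hat b (ee w) =
      -(hat b (ee m) - hat b (ee w)) := by
  have h0 := one_sub_aa b hm
  have h3 := one_sub_aa b h2
  have hs := sgB_I_ne (b := b)
  have hq := sgB_I_sq (b := b)
  have hA := aa_ne b w
  have hB := aa_ne b m
  have hC := aa_ne b w'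
  rw [Complex.exp_sub, Complex.exp_sub, Complex.exp_add, Complex.exp_sub, exp_un,
    exp_un_one, exp_ph' b hm, exp_ph' b h1, exp_ph' b h2, aa_sub, aa_sub, aa_add, aa_add] at he
  rw [aa_sub] at h3
  rw [u2, hat_ee, hat_ee, hat_ee]
  generalize sgB b * Complex.I = σ at *
  generalize aa b w = A at *
  generalize aa b m = B at *
  generalize aa b w' = C at *
  have h4 : A * A - B * B ≠ 0 := by
    intro h
    apply h3
    field_simp
    linear_combination h
  have e1 : A * B / C / σ * (σ * (1 - B * C * (B * C)) / (B * C)) / (σ * (1 - B / A * (B / A)) / (B / A)) /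
      (σ * (1 - B * B) / B) = -(B * B * A * A * (1 - B * B * (C * C)) / (C * C * (A * A - B * B) * (1 - B * B))) := by
    have e2 : 1 - B / A * (B / A) = (A * A - B * B) / (A * A) := by
      field_simp
    rw [e2]
    field_simp
    rw [show σ ^ 2 = -1 by rw [sq]; exact hq]
    ring
  rw [e1, neg_eq_iff_eq_neg, div_eq_iff (mul_ne_zero (mul_ne_zero (mul_ne_zero hC hC) h4) h0)] at he
  rw [show B * B * (C * C - 1) / (C * C * (1 - B * B)) - B * B =
    B * B * (B * B * (C * C) - 1) / (C * C * (1 - B * B)) by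
      rw [eq_div_iff (mul_ne_zero (mul_ne_zero hC hC) h0), sub_mul, div_mul_cancel₀ _
        (mul_ne_zero (mul_ne_zero hC hC) h0)]
      ring, div_mul_eq_mul_div, div_eq_iff (mul_ne_zero (mul_ne_zero hC hC) h0)]
  linear_combination -he

/-! ### short chains -/

lemma hat_ne (b : ℤ) (w : ℂ) : hat b (ee w) ≠ 0 := by
  rw [hat_ee]
  exact mul_ne_zero (aa_ne b w) (aa_ne b w)

lemma one_sub_hat (b : ℤ) {w : ℂ} (h : w ∈ strip) : 1 - hat b (ee w) ≠ 0 := by
  rw [hat_ee]
  exact one_sub_aa b h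

lemma u2_inv (Y Y' : ℂ) : (u2 Y Y')⁻¹ = u2 Y' Y := by
  unfold u2
  rw [inv_div, show Y' * (1 - Y) = -(Y' * (Y - 1)) by ring, show Y * (Y' - 1) = -(Y * (1 - Y')) by ring,
    neg_div_neg_eq]

lemma u2_one (Y : ℂ) : u2 Y 1 = 0 := by
  unfold u2
  simp

lemma u2_edge {Y Y' : ℂ} (h : 1 - Y ≠ 0) (h' : Y' ≠ 0) : (Y'⁻¹ - u2 Y Y') * Y = -(u2 Y Y' - Y) := by
  have e : u2 Y Y' = Y * (Y' - 1) / (Y' * (1 - Y)) := rfl
  have h3 : u2 Y Y' * (Y' * (1 - Y)) = Y * (Y' - 1) := by
    rw [e, div_mul_cancel₀ _ (mul_ne_zero h' h)]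
  have h4 : Y' * Y'⁻¹ = 1 := mul_inv_cancel₀ h'
  have : Y' * ((Y'⁻¹ - u2 Y Y') * Y) = Y' * -(u2 Y Y' - Y) := by
    linear_combination Y * h4 + h3
  exact mul_left_cancel₀ h' this

end

end Pool.Agent.Work.MP_b30479_gtS.G2

end
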