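import Pool.Agent.Work.MP_b30479_gt.TBS.G2.Words
import Pool.Agent.Work.MP_b30479_gt.TBS.G2.Tensor
import Pool.Agent.Work.MP_b30479_gt.TBS.G2.SWDefs

section

/-!
# Markoff maps of words: invariance under the merging of digits `±1`
-/

namespace Pool.Agent.Work.MP_b30479_gtS.G2

open Finset
open Pool.Agent.Work.MP_b30479_gtS.LT

/-- the values in a fan -/
noncomputable def fan (p q0 q1 : ℂ) : ℕ → ℂ
  | 0 => q0
  | 1 => q1
  | l + 2 => p * fan p q0 q1 (l + 1) - fan p q0 q1 l

/-- a layer: the values at the edge `{p, q}` and at the third vertices of the two triangles -/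
structure Lay where
  p : ℂ
  q : ℂ
  t : ℂ
  u : ℂ

/-- the layer `l` of a fan -/
noncomputable def lay (b : ℤ) (p q0 q1 : ℂ) (l : ℕ) : Lay :=
  if 0 < b then ⟨p, fan p q0 q1 l, fan p q0 q1 (l - 1), fan p q0 q1 (l + 1)⟩
  else ⟨fan p q0 q1 l, p, fan p q0 q1 (l - 1), fan p q0 q1 (l + 1)⟩

/-- the value `q 1` of the next fan; between digits of equal signs the path turns back -/
noncomputable def nq (b c : ℤ) (p q0 q1 : ℂ) : ℂ :=
  if b * c < 0 then fan p q0 q1 (b.natAbs + 1) else fan p q0 q1 (b.natAbs - 1)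

/-- the value at the end of the path -/
noncomputable def fin : ℂ → ℂ → ℂ → List ℤ → ℂ
  | _, _, _, [] => 1
  | p, q0, q1, [b] => fan p q0 q1 b.natAbs
  | p, q0, q1, b :: c :: w => fin (fan p q0 q1 b.natAbs) p (nq b c p q0 q1) (c :: w)

/-- the layers of the path -/
noncomputable def Lys : ℕ → ℂ → ℂ → ℂ → List ℤ → List Lay
  | _, _, _, _, [] => []
  | k, p, q0, q1, [b] => (List.range' k (b.natAbs - 1 - k)).map (lay b p q0 q1)
  | k, p, q0, q1, b :: c :: w => (List.range' k (b.natAbs - k)).map (lay b p q0 q1) ++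
      (if b * c < 0 then [lay b p q0 q1 b.natAbs] else []) ++
      Lys 1 (fan p q0 q1 b.natAbs) p (nq b c p q0 q1) (c :: w)

lemma fan_shift (p a b : ℂ) : ∀ l, fan p b (p * b - a) l = fan p a b (l + 1) := by
  intro l
  induction l using Nat.twoStepInduction with
  | zero => rfl
  | one => rfl
  | more l ih1 ih2 =>
    show p * fan p b (p * b - a) (l + 1) - fan p b (p * b - a) l =
      p * fan p a b (l + 2) - fan p a b (l + 1)
    rw [ih1, ih2]

lemma lay_shift (z : ℤ) (p a b : ℂ) {l : ℕ} (hl : 1 ≤ l) :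
    lay z p b (p * b - a) l = lay z p a b (l + 1) := by
  obtain ⟨m, rfl⟩ : ∃ m, l = m + 1 := ⟨l - 1, by omega⟩
  unfold lay
  simp only [fan_shift, Nat.add_sub_cancel]

lemma sign_pos_iff {z : ℤ} (hz : z ≠ 0) : 0 < z + z.sign ↔ 0 < z := by
  rcases lt_trichotomy z 0 with h | h | h
  · rw [Int.sign_eq_neg_one_of_neg h]
    constructor <;> intro <;> omega
  · exact absurd h hz
  · rw [Int.sign_eq_one_of_pos h]
    constructor <;> intro <;> omega

lemma sign_mul_iff {z c : ℤ} (hz : z ≠ 0) : (z + z.sign) * c < 0 ↔ z * c < 0 := by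
  rw [mul_neg_iff', mul_neg_iff']
  rcases lt_trichotomy z 0 with h | h | h
  · rw [Int.sign_eq_neg_one_of_neg h]
    constructor <;> (rintro (⟨a, b⟩ | ⟨a, b⟩) <;> omega)
  · exact absurd h hz
  · rw [Int.sign_eq_one_of_pos h]
    constructor <;> (rintro (⟨a, b⟩ | ⟨a, b⟩) <;> omega)

lemma lay_sign {z : ℤ} (hz : z ≠ 0) (p a b : ℂ) (l : ℕ) : lay (z + z.sign) p a b l = lay z p a b l := by
  unfold lay
  simp only [sign_pos_iff hz]

lemma nq_sign {z c : ℤ} (hz : z ≠ 0) (p a b : ℂ) :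
    nq (z + z.sign) c p a b = nq z c p b (p * b - a) := by
  unfold nq
  simp only [sign_mul_iff hz, fan_shift, (sign_abs hz).1]
  have : 1 ≤ z.natAbs := by omega
  rw [show z.natAbs + 1 - 1 = z.natAbs - 1 + 1 by omega]

/-- one more triangle in the first fan -/
lemma Lys_shift {z : ℤ} (w : List ℤ) (hz : 2 ≤ z.natAbs) (p a b : ℂ) :
    Lys 1 p a b ((z + z.sign) :: w) = lay z p a b 1 :: Lys 1 p b (p * b - a) (z :: w) ∧
    fin p a b ((z + z.sign) :: w) = fin p b (p * b - a) (z :: w) := by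
  have hz0 : z ≠ 0 := by omega
  have ha := (sign_abs hz0).1
  have h1 : ∀ n, (List.range' 1 (n + 1)).map (lay (z + z.sign) p a b) =
      lay z p a b 1 :: (List.range' 1 n).map (lay z p b (p * b - a)) := by
    intro n
    rw [List.range'_succ, List.map_cons, lay_sign hz0]
    congr 1
    apply List.ext_getElem
    · simp
    · intro i h1 h2
      simp only [List.getElem_map, List.getElem_range', lay_sign hz0]
      rw [lay_shift _ _ _ _ (by omega)]
      congr 1
      omega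
  cases w with
  | nil =>
    refine ⟨?_, ?_⟩
    · show (List.range' 1 ((z + z.sign).natAbs - 1 - 1)).map _ =
        _ :: (List.range' 1 (z.natAbs - 1 - 1)).map _
      rw [ha, show z.natAbs + 1 - 1 - 1 = z.natAbs - 1 - 1 + 1 by omega]
      exact h1 _
    · show fan p a b (z + z.sign).natAbs = fan p b (p * b - a) z.natAbs
      rw [ha, fan_shift]
  | cons c w =>
    refine ⟨?_, ?_⟩
    · show (List.range' 1 ((z + z.sign).natAbs - 1)).map _ ++
        (if (z + z.sign) * c < 0 then [lay (z + z.sign) p a b (z + z.sign).natAbs] else []) ++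
        Lys 1 (fan p a b (z + z.sign).natAbs) p (nq (z + z.sign) c p a b) (c :: w) =
        _ :: ((List.range' 1 (z.natAbs - 1)).map _ ++
        (if z * c < 0 then [lay z p b (p * b - a) z.natAbs] else []) ++
        Lys 1 (fan p b (p * b - a) z.natAbs) p (nq z c p b (p * b - a)) (c :: w))
      rw [nq_sign hz0, fan_shift, ha, lay_sign hz0, lay_shift _ _ _ _ (by omega)]
      simp only [sign_mul_iff hz0]
      rw [show z.natAbs + 1 - 1 = z.natAbs - 1 + 1 by omega, h1]
      simp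
    · show fin (fan p a b (z + z.sign).natAbs) p (nq (z + z.sign) c p a b) (c :: w) =
        fin (fan p b (p * b - a) z.natAbs) p (nq z c p b (p * b - a)) (c :: w)
      rw [nq_sign hz0, fan_shift, ha]

/-- merging a digit `±1` -/
lemma Lys_merge {x y z : ℤ} (w : List ℤ) (hxy : x * y < 0) (hyz : y * z < 0) (hy : y.natAbs = 1)
    (hz : 2 ≤ z.natAbs) {k : ℕ} (hk : k ≤ x.natAbs) (p q0 q1 : ℂ) :
    Lys k p q0 q1 (x :: y :: z :: w) = Lys k p q0 q1 ((x + x.sign) :: (z + z.sign) :: w) ∧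
    fin p q0 q1 (x :: y :: z :: w) = fin p q0 q1 ((x + x.sign) :: (z + z.sign) :: w) := by
  have hx0 : x ≠ 0 := by rintro rfl; simp at hxy
  have hz0 : z ≠ 0 := by omega
  have hxa := (sign_abs hx0).1
  have hsame : ¬ (x + x.sign) * (z + z.sign) < 0 := by
    rw [sign_mul_iff hx0, mul_comm, sign_mul_iff hz0, mul_neg_iff']
    rw [mul_neg_iff'] at hxy hyz
    omega
  set F := fan p q0 q1 with hF
  have e1 : nq x y p q0 q1 = F (x.natAbs + 1) := if_pos hxy
  have e2 : nq (x + x.sign) (z + z.sign) p q0 q1 = F x.natAbs := by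
    rw [nq, if_neg hsame, hxa, Nat.add_sub_cancel]
  have e3 : nq y z (F x.natAbs) p (F (x.natAbs + 1)) = F (x.natAbs + 1) * F x.natAbs - p := by
    rw [nq, if_pos hyz, hy]
    show F x.natAbs * F (x.natAbs + 1) - p = _
    rw [mul_comm]
  have e4 : fan (F x.natAbs) p (F (x.natAbs + 1)) y.natAbs = F (x.natAbs + 1) := by
    rw [hy]
    rfl
  have e5 : lay y (F x.natAbs) p (F (x.natAbs + 1)) y.natAbs = lay z (F (x.natAbs + 1)) p (F x.natAbs) 1 := by
    rw [hy]
    unfold lay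
    rw [mul_neg_iff'] at hyz
    rcases hyz with ⟨h1, h2⟩ | ⟨h1, h2⟩
    · rw [if_pos h1, if_neg (by omega)]
      show Lay.mk (F x.natAbs) (F (x.natAbs + 1)) p (F x.natAbs * F (x.natAbs + 1) - p) =
        Lay.mk (F x.natAbs) (F (x.natAbs + 1)) p (F (x.natAbs + 1) * F x.natAbs - p)
      rw [mul_comm]
    · rw [if_neg (by omega), if_pos h2]
      show Lay.mk (F (x.natAbs + 1)) (F x.natAbs) p (F x.natAbs * F (x.natAbs + 1) - p) =
        Lay.mk (F (x.natAbs + 1)) (F x.natAbs) p (F (x.natAbs + 1) * F x.natAbs - p)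
      rw [mul_comm]
  have hs := Lys_shift w hz (F (x.natAbs + 1)) p (F x.natAbs)
  refine ⟨?_, ?_⟩
  · show (List.range' k (x.natAbs - k)).map (lay x p q0 q1) ++
      (if x * y < 0 then [lay x p q0 q1 x.natAbs] else []) ++
      ((List.range' 1 (y.natAbs - 1)).map (lay y (F x.natAbs) p (nq x y p q0 q1)) ++
      (if y * z < 0 then [lay y (F x.natAbs) p (nq x y p q0 q1) y.natAbs] else []) ++
      Lys 1 (fan (F x.natAbs) p (nq x y p q0 q1) y.natAbs) (F x.natAbs)
        (nq y z (F x.natAbs) p (nq x y p q0 q1)) (z :: w)) =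
      (List.range' k ((x + x.sign).natAbs - k)).map (lay (x + x.sign) p q0 q1) ++
      (if (x + x.sign) * (z + z.sign) < 0 then [lay (x + x.sign) p q0 q1 (x + x.sign).natAbs] else []) ++
      Lys 1 (F (x + x.sign).natAbs) p (nq (x + x.sign) (z + z.sign) p q0 q1) ((z + z.sign) :: w)
    rw [if_pos hxy, if_pos hyz, if_neg hsame, e1, e2, e3, e4, e5, hxa, hs.1, hy, Nat.sub_self]
    rw [show x.natAbs + 1 - k = (x.natAbs - k) + 1 by omega, List.range'_1_concat, List.map_append]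
    have e6 : (List.range' k (x.natAbs - k)).map (lay (x + x.sign) p q0 q1) =
        (List.range' k (x.natAbs - k)).map (lay x p q0 q1) :=
      List.map_congr_left fun l _ => lay_sign hx0 _ _ _ _
    rw [e6]
    simp [lay_sign hx0, show k + (x.natAbs - k) = x.natAbs by omega]
  · show fin (fan (F x.natAbs) p (nq x y p q0 q1) y.natAbs) (F x.natAbs)
        (nq y z (F x.natAbs) p (nq x y p q0 q1)) (z :: w) =
      fin (F (x + x.sign).natAbs) p (nq (x + x.sign) (z + z.sign) p q0 q1) ((z + z.sign) :: w)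
    rw [e1, e2, e3, e4, hxa, hs.2]

/-- only the sign of the next digit matters -/
lemma Lys_congr {x c c' : ℤ} {w w' : List ℤ} (hc : x * c < 0 ↔ x * c' < 0)
    (h : ∀ p q0 q1, Lys 1 p q0 q1 (c :: w) = Lys 1 p q0 q1 (c' :: w') ∧
      fin p q0 q1 (c :: w) = fin p q0 q1 (c' :: w')) (k : ℕ) (p q0 q1 : ℂ) :
    Lys k p q0 q1 (x :: c :: w) = Lys k p q0 q1 (x :: c' :: w') ∧
      fin p q0 q1 (x :: c :: w) = fin p q0 q1 (x :: c' :: w') := by
  have e : nq x c p q0 q1 = nq x c' p q0 q1 := by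
    unfold nq
    simp only [hc]
  refine ⟨?_, ?_⟩
  · show (List.range' k (x.natAbs - k)).map (lay x p q0 q1) ++
      (if x * c < 0 then [lay x p q0 q1 x.natAbs] else []) ++
      Lys 1 (fan p q0 q1 x.natAbs) p (nq x c p q0 q1) (c :: w) =
      (List.range' k (x.natAbs - k)).map (lay x p q0 q1) ++
      (if x * c' < 0 then [lay x p q0 q1 x.natAbs] else []) ++
      Lys 1 (fan p q0 q1 x.natAbs) p (nq x c' p q0 q1) (c' :: w')
    rw [e, (h _ _ _).1]
    simp only [hc]
  · show fin (fan p q0 q1 x.natAbs) p (nq x c p q0 q1) (c :: w) =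
      fin (fan p q0 q1 x.natAbs) p (nq x c' p q0 q1) (c' :: w')
    rw [e, (h _ _ _).2]

lemma mg_head {x : ℤ} {l : List ℤ} (h : AL (x :: l)) : ∃ c r, mg (x :: l) = c :: r ∧
    ∀ b : ℤ, b * c < 0 ↔ b * x < 0 := by
  obtain ⟨r, h1 | h1⟩ := (mg_spec l.length x l le_rfl h).head
  · exact ⟨x, r, h1, fun b => Iff.rfl⟩
  · refine ⟨x + x.sign, r, h1.2, fun b => ?_⟩
    rw [mul_comm b, mul_comm b, sign_mul_iff h.head]

/-- The layers of the path of an alternating word and of the merged word are the same. -/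
theorem Lys_mg : ∀ (n : ℕ) (x : ℤ) (l : List ℤ), l.length ≤ n → AL (x :: l) → ∀ (k : ℕ), k ≤ x.natAbs →
    ∀ p q0 q1, Lys k p q0 q1 (mg (x :: l)) = Lys k p q0 q1 (x :: l) ∧
      fin p q0 q1 (mg (x :: l)) = fin p q0 q1 (x :: l) := by
  intro n
  induction n with
  | zero =>
    intro x l hl h k hk p q0 q1
    have : l = [] := List.length_eq_zero_iff.mp (by omega)
    subst this
    rw [mg]
    exact ⟨rfl, rfl⟩
  | succ n ih =>
    intro x l hl h k hk p q0 q1
    match l, hl, h with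
    | [], _, h => rw [mg]; exact ⟨rfl, rfl⟩
    | [y], _, h => rw [mg]; exact ⟨rfl, rfl⟩
    | y :: z :: l, hl, h =>
      simp only [List.length_cons] at hl
      by_cases hc : y.natAbs = 1 ∧ 3 ≤ x.natAbs ∧ 3 ≤ z.natAbs
      · have hz : AL (z :: l) := h.tail.tail
        rw [mg_pos hc]
        have h1 := Lys_merge l h.1 h.2.1 hc.1 (by omega) hk p q0 q1
        rw [h1.1, h1.2]
        obtain ⟨c, r, h2, h3⟩ := mg_head (AL_sign hz)
        rw [h2]
        have ha := (sign_abs hz.head).1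
        refine Lys_congr (h3 _) (fun p q0 q1 => ?_) k p q0 q1
        rw [← h2]
        exact ih (z + z.sign) l (by omega) (AL_sign hz) 1 (by omega) p q0 q1
      · have hyz : AL (y :: z :: l) := h.2
        rw [mg_neg hc]
        obtain ⟨c, r, h2, h3⟩ := mg_head hyz
        rw [h2]
        have := hyz.head
        refine Lys_congr (h3 _) (fun p q0 q1 => ?_) k p q0 q1
        rw [← h2]
        exact ih y (z :: l) (by simpa using (by omega : l.length + 1 ≤ n)) hyz 1 (by omega) p q0 q1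

end Pool.Agent.Work.MP_b30479_gtS.G2

end

section

/-!
# Chains of twist regions and fans of Markoff maps
-/

namespace Pool.Agent.Work.MP_b30479_gtS.G2

open Finset
open Pool.Agent.Work.MP_b30479_gtS.LT (BW)

/-- the sign of `b` -/
noncomputable def sI (b : ℤ) : ℝ := if 0 < b then 1 else -1

/-- the shape of a layer -/
noncomputable def zL (x : Lay) : ℂ := -(x.q / x.p) ^ 2

/-! ### the constant of a chain -/

section
variable {U : ℕ → ℂ} {n : ℕ} {κ : ℂ}

lemma chain_const (h0 : ∀ l, l < n → U l ≠ 0)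
    (he : ∀ l, l + 2 ≤ n → (U (l + 2) - U (l + 1)) * U l = -(U (l + 1) - U l)) :
    ∀ l, l + 1 ≤ n → (1 - U (l + 1)) * (1 - (U l)⁻¹) = (1 - U 1) * (1 - (U 0)⁻¹) := by
  intro l
  induction l with
  | zero => intro _; rfl
  | succ l ih =>
    intro hl
    rw [← ih (by omega)]
    have a := h0 l (by omega)
    have b := h0 (l + 1) (by omega)
    have e := he l (by omega)
    have e1 : 1 - U (l + 2) = U (l + 1) * ((U l)⁻¹ - 1) := by
      have : U l * (1 - U (l + 2)) = U l * (U (l + 1) * ((U l)⁻¹ - 1)) := by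
        linear_combination -e - U (l + 1) * mul_inv_cancel₀ a
      exact mul_left_cancel₀ a this
    show (1 - U (l + 2)) * (1 - (U (l + 1))⁻¹) = (1 - U (l + 1)) * (1 - (U l)⁻¹)
    rw [e1]
    field_simp
    ring

/-- `1 + p² / q²` in terms of the chain -/
noncomputable def sgm (κ u : ℂ) : ℂ := -(κ * u) / (1 - u) ^ 2

lemma sgm_left {u v : ℂ} (hu : u ≠ 0) (hu1 : u ≠ 1) (h : (1 - v) * (1 - u⁻¹) = κ) :
    (1 - v) / (1 - u) = sgm κ u := by
  have h1 : 1 - u ≠ 0 := fun h => hu1 (by linear_combination -h)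
  rw [sgm, div_eq_div_iff h1 (pow_ne_zero 2 h1), ← h]
  field_simp
  ring

lemma sgm_right {u v : ℂ} (hu : u ≠ 0) (hv : v ≠ 0) (hu1 : u ≠ 1) (hv1 : v ≠ 1)
    (h : (1 - v) * (1 - u⁻¹) = κ) :
    (1 - u⁻¹) / (1 - v⁻¹) = sgm κ v := by
  have h1 : 1 - v ≠ 0 := fun h => hv1 (by linear_combination -h)
  have h2 : v - 1 ≠ 0 := fun h => hv1 (by linear_combination h)
  rw [sgm, ← h]
  have e : (1 : ℂ) - v⁻¹ = (v - 1) / v := by field_simp
  rw [e]
  field_simp
  ring

lemma BW_one_sub {z : ℂ} (h0 : z ≠ 0) (h1 : z ≠ 1) : BW (1 - z) = -BW z := by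
  have h := BW_three (z := z⁻¹) (inv_ne_zero h0) (by simpa using h1)
  rw [inv_inv, BW_inv] at h
  exact h

lemma BW_zero : BW 0 = 0 := by
  simpa using BW_real 0

/-- one letter -/
lemma letter_vol {u v : ℂ} (hu : u ≠ 0) (hv : v ≠ 0) (hu1 : u ≠ 1) (hv1 : v ≠ 1)
    (h : (1 - v) * (1 - u⁻¹) = κ) :
    BW u - BW v + BW (v / u) = BW (sgm κ u) + BW (sgm κ v) := by
  have h1 := BW_five hu (inv_ne_zero hv)
  rw [BW_inv, inv_inv, sgm_left hu hu1 h, sgm_right hu hv hu1 hv1 h,
    show 1 / (u * v⁻¹) = v / u by field_simp] at h1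
  linarith

/-- the volume of an inner chain -/
lemma chain_vol (h0 : ∀ l, l ≤ n → U l ≠ 0) (h1 : ∀ l, l ≤ n → U l ≠ 1)
    (hκ : ∀ l, l + 1 ≤ n → (1 - U (l + 1)) * (1 - (U l)⁻¹) = κ) :
    BW (U 0) - BW (U n) + ∑ l ∈ range n, BW (U (l + 1) / U l) =
      ∑ l ∈ range n, (BW (sgm κ (U l)) + BW (sgm κ (U (l + 1)))) := by
  induction n with
  | zero => simp
  | succ n ih =>
    have h2 := ih (fun l hl => h0 l (by omega)) (fun l hl => h1 l (by omega))
      (fun l hl => hκ l (by omega))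
    have h3 := letter_vol (h0 n (by omega)) (h0 (n + 1) le_rfl) (h1 n (by omega)) (h1 (n + 1) le_rfl)
      (hκ n le_rfl)
    rw [sum_range_succ, sum_range_succ]
    linarith

/-- the last tetrahedron before the end of the word -/
lemma end_vol {u : ℂ} (hu : u ≠ 0) (hu1 : u ≠ 1) (h : (1 - 0) * (1 - u⁻¹) = κ) :
    BW u = BW (sgm κ u) := by
  rw [← sgm_left hu hu1 h]
  have h1 : 1 - u ≠ 0 := fun h => hu1 (by linear_combination -h)
  have h2 : (1 : ℂ) - u ≠ 1 := fun h => hu (by linear_combination -h)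
  rw [show ((1 : ℂ) - 0) / (1 - u) = (1 - u)⁻¹ by rw [sub_zero, one_div], BW_inv,
    BW_one_sub hu hu1, neg_neg]

end

/-! ### fans -/

section
variable {p q0 q1 κ : ℂ}

/-- the Markoff equation -/
def Mkf (p q0 q1 : ℂ) : Prop := q1 * (p * q0 - q1) = p ^ 2 + q0 ^ 2

lemma Mkf.fan (h : Mkf p q0 q1) (l : ℕ) :
    Mkf p (G2.fan p q0 q1 l) (G2.fan p q0 q1 (l + 1)) := by
  induction l with
  | zero => exact h
  | succ l ih =>
    unfold Mkf at ih ⊢
    show (p * G2.fan p q0 q1 (l + 1) - G2.fan p q0 q1 l) * (p * G2.fan p q0 q1 (l + 1) -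
      (p * G2.fan p q0 q1 (l + 1) - G2.fan p q0 q1 l)) = _
    linear_combination ih

lemma Mkf.nq (h : Mkf p q0 q1) {b c : ℤ} (hb : b ≠ 0) :
    Mkf (G2.fan p q0 q1 b.natAbs) p (G2.nq b c p q0 q1) := by
  have h1 := h.fan b.natAbs
  have h2 := h.fan (b.natAbs - 1)
  rw [show b.natAbs - 1 + 1 = b.natAbs by omega] at h2
  unfold Mkf G2.nq at *
  split_ifs
  · linear_combination h1
  · linear_combination h2

/-- the chain `U` belongs to the fan -/
def Str (u p x y : ℂ) : Prop := (1 - u) * y = -(u * p * x)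

lemma star {U : ℕ → ℂ} {n : ℕ} (h0 : ∀ l, l < n → U l ≠ 0)
    (hκ : ∀ l, l + 1 ≤ n → (1 - U (l + 1)) * (1 - (U l)⁻¹) = p ^ 2) (hp : p ≠ 0) (hq : q0 ≠ 0)
    (hs : Str (U 0) p q0 q1) (l : ℕ) (hl : l ≤ n) :
    fan p q0 q1 l ≠ 0 ∧ Str (U l) p (fan p q0 q1 l) (fan p q0 q1 (l + 1)) := by
  induction l with
  | zero => exact ⟨hq, hs⟩
  | succ l ih =>
    obtain ⟨h1, h2⟩ := ih (by omega)
    have a := h0 l (by omega)
    have k := hκ l hl
    have e1 : (1 - U (l + 1)) * (U l - 1) = p ^ 2 * U l := by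
      rw [← k]
      field_simp
    have h3 : fan p q0 q1 (l + 1) ≠ 0 := by
      intro h
      unfold Str at h2
      rw [h, mul_zero] at h2
      have : U l * p * fan p q0 q1 l = 0 := by linear_combination h2
      exact mul_ne_zero (mul_ne_zero a hp) h1 this
    refine ⟨h3, ?_⟩
    unfold Str at h2 ⊢
    show (1 - U (l + 1)) * (p * fan p q0 q1 (l + 1) - fan p q0 q1 l) =
      -(U (l + 1) * p * fan p q0 q1 (l + 1))
    have h4 : U l * p * ((1 - U (l + 1)) * (p * fan p q0 q1 (l + 1) - fan p q0 q1 l)) =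
        U l * p * -(U (l + 1) * p * fan p q0 q1 (l + 1)) := by
      linear_combination -(1 - U (l + 1)) * h2 - fan p q0 q1 (l + 1) * e1
    exact mul_left_cancel₀ (mul_ne_zero a hp) h4

/-- the first fan; its chain is read from the turning point -/
lemma star_first {U : ℕ → ℂ} {n : ℕ} (h0 : ∀ l, l < n → U l ≠ 0) (hn : U n = 0)
    (hκ : ∀ l, l + 1 ≤ n → (1 - U (l + 1)) * (1 - (U l)⁻¹) = p ^ 2) (hp : p ≠ 0) (hq : q1 ≠ 0)
    (m : ℕ) (hm : m ≤ n) :
    fan p 0 q1 (m + 1) ≠ 0 ∧ (1 - U (n - m)) * fan p 0 q1 (m + 2) = p * fan p 0 q1 (m + 1) := by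
  induction m with
  | zero =>
    refine ⟨hq, ?_⟩
    rw [Nat.sub_zero, hn]
    show (1 - 0) * (p * q1 - 0) = p * q1
    ring
  | succ m ih =>
    obtain ⟨h1, h2⟩ := ih (by omega)
    have a := h0 (n - (m + 1)) (by omega)
    have k := hκ (n - (m + 1)) (by omega)
    rw [show n - (m + 1) + 1 = n - m by omega] at k
    have e1 : (1 - U (n - m)) * (U (n - (m + 1)) - 1) = p ^ 2 * U (n - (m + 1)) := by
      rw [← k]
      field_simp
    have h3 : fan p 0 q1 (m + 2) ≠ 0 := by
      intro h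
      rw [h, mul_zero] at h2
      exact mul_ne_zero hp h1 h2.symm
    refine ⟨h3, ?_⟩
    show (1 - U (n - (m + 1))) * (p * fan p 0 q1 (m + 2) - fan p 0 q1 (m + 1)) =
      p * fan p 0 q1 (m + 2)
    have h4 : p * ((1 - U (n - (m + 1))) * (p * fan p 0 q1 (m + 2) - fan p 0 q1 (m + 1))) =
        p * (p * fan p 0 q1 (m + 2)) := by
      linear_combination (1 - U (n - (m + 1))) * h2 + fan p 0 q1 (m + 2) * e1
    exact mul_left_cancel₀ hp h4

/-- `sgm` in terms of the fan -/
lemma sgm_fan {u x y : ℂ} (hM : Mkf p x y) (hs : Str u p x y) (hu : u ≠ 1) (hx : x ≠ 0) :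
    sgm (p ^ 2) u = 1 + (p / x) ^ 2 := by
  have h1 : 1 - u ≠ 0 := fun h => hu (by linear_combination -h)
  unfold Mkf at hM
  unfold Str at hs
  rw [sgm, div_eq_iff (pow_ne_zero 2 h1)]
  have e1 : (1 + (p / x) ^ 2) * x ^ 2 = p ^ 2 + x ^ 2 := by
    field_simp
    ring
  have h2 : x ^ 2 * -(p ^ 2 * u) = x ^ 2 * ((1 + (p / x) ^ 2) * (1 - u) ^ 2) := by
    linear_combination (-(1 - u) ^ 2) * e1 + (1 - u) ^ 2 * hM - (p * x - (1 - u) * y) * hs
  exact mul_left_cancel₀ (pow_ne_zero 2 hx) h2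

end

end Pool.Agent.Work.MP_b30479_gtS.G2

end

section

/-!
# From the gluing equations of a signed word to the Markoff map of the word
-/

namespace Pool.Agent.Work.MP_b30479_gtS.G2

open Finset
open Pool.Agent.Work.MP_b30479_gtS.LT (BW)

/-! ### algebra -/

lemma hinge_alg {p x y g nb v u : ℂ} (hg0 : g ≠ 0) (hg1 : g ≠ 1) (h1 : (1 - g) * y = p * x)
    (hM : Mkf p x y) (hκ : (1 - nb) * (1 - g⁻¹) = p ^ 2) (hu : u = g ∨ u = g⁻¹)
    (ht : (nb - g) / (g - 1) * ((v - u) / (u - 1)) = 1) : (1 - v) * (1 - u⁻¹) = x ^ 2 := by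
  have g1 : g - 1 ≠ 0 := fun h => hg1 (by linear_combination h)
  have g2 : (1 : ℂ) - g ≠ 0 := fun h => hg1 (by linear_combination -h)
  have e1 : (1 - nb) * (g - 1) = p ^ 2 * g := by
    rw [← hκ]
    field_simp
  have e2 : -(g * p ^ 2 * x ^ 2) = (1 - g) ^ 2 * (p ^ 2 + x ^ 2) := by
    unfold Mkf at hM
    rw [← hM]
    linear_combination (-(1 - g) * (p * x - y) + p * x) * h1
  set K := (1 - v) * (1 - u⁻¹) with hK
  have hu0 : u ≠ 0 := by
    rcases hu with rfl | rfl
    · exact hg0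
    · exact inv_ne_zero hg0
  have hu1 : u - 1 ≠ 0 := by
    rcases hu with rfl | rfl
    · exact g1
    · intro h
      apply hg1
      have : g⁻¹ = 1 := by linear_combination h
      simpa using this
  have e3 : (1 - v) * (u - 1) = K * u := by
    rw [hK]
    field_simp
  have e4 : (nb - g) * (v - u) = (g - 1) * (u - 1) := by
    rw [div_mul_div_comm, div_eq_one_iff_eq (mul_ne_zero g1 hu1)] at ht
    exact ht
  -- the product
  have e5 : ((g - 1) ^ 2 + p ^ 2 * g) * ((u - 1) ^ 2 + K * u) = (g - 1) ^ 2 * (u - 1) ^ 2 := by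
    have a1 : (nb - g) * (g - 1) = -((g - 1) ^ 2 + p ^ 2 * g) := by linear_combination -e1
    have a2 : (v - u) * (u - 1) = -((u - 1) ^ 2 + K * u) := by linear_combination -e3
    have : ((nb - g) * (g - 1)) * ((v - u) * (u - 1)) = ((g - 1) ^ 2 + p ^ 2 * g) * ((u - 1) ^ 2 + K * u) := by
      rw [a1, a2]
      ring
    rw [← this]
    linear_combination (g - 1) * (u - 1) * e4
  have e6 : ((g - 1) ^ 2 + p ^ 2 * g) * ((g - 1) ^ 2 + K * g) = (g - 1) ^ 4 := by
    rcases hu with rfl | hu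
    · linear_combination e5
    · rw [hu] at e5
      have a1 : g ^ 2 * (((g - 1) ^ 2 + p ^ 2 * g) * ((g⁻¹ - 1) ^ 2 + K * g⁻¹)) =
          g ^ 2 * ((g - 1) ^ 2 * (g⁻¹ - 1) ^ 2) := by rw [e5]
      have a2 : g ^ 2 * (g⁻¹ - 1) ^ 2 = (g - 1) ^ 2 := by
        field_simp
        ring
      have a3 : g ^ 2 * g⁻¹ = g := by field_simp
      linear_combination a1 + ((g - 1) ^ 2 - ((g - 1) ^ 2 + p ^ 2 * g)) * a2 - ((g - 1) ^ 2 + p ^ 2 * g) * K * a3
  have e7 : (g - 1) ^ 2 + p ^ 2 * g ≠ 0 := by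
    intro h
    rw [h, zero_mul] at e6
    exact pow_ne_zero 4 g1 e6.symm
  have e8 : ((g - 1) ^ 2 + p ^ 2 * g) * (g * (K - x ^ 2)) = 0 := by
    linear_combination e6 + g * e2
  have e9 := (mul_eq_zero.mp e8).resolve_left e7
  have e10 := (mul_eq_zero.mp e9).resolve_left hg0
  linear_combination e10

lemma chain_nd {U : ℕ → ℂ} {n : ℕ} {s : ℝ} (h00 : U 0 ≠ 0) (h01 : U 0 ≠ 1) (hn1 : U n ≠ 1)
    (he : ∀ l, l + 2 ≤ n → (U (l + 2) - U (l + 1)) * U l = -(U (l + 1) - U l))
    (hp : ∀ l, 1 ≤ l → l + 1 ≤ n → 0 < s * ((1 - U (l + 1)) / (1 - U l)).im) :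
    (∀ l ≤ n, U l ≠ 1) ∧ (∀ l < n, U l ≠ 0) := by
  have h1 : ∀ l ≤ n, U l ≠ 1 := by
    intro l hl
    rcases Nat.eq_zero_or_pos l with rfl | h
    · exact h01
    · rcases Nat.lt_or_ge l n with h2 | h2
      · intro h3
        have := hp l h (by omega)
        rw [h3] at this
        simp at this
      · rw [show l = n by omega]
        exact hn1
  refine ⟨h1, fun l => ?_⟩
  induction l with
  | zero => exact fun _ => h00
  | succ l ih =>
    intro hl h
    have h2 := he l (by omega)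
    rw [h] at h2
    have h3 := ih (by omega)
    exact h1 (l + 2) (by omega) (mul_right_cancel₀ h3 (by linear_combination h2))

lemma hat_opp {b c : ℤ} (h : b * c < 0) (Y : ℂ) : hat c Y = (hat b Y)⁻¹ := by
  rw [mul_neg_iff'] at h
  unfold hat
  rcases h with ⟨h1, h2⟩ | ⟨h1, h2⟩
  · simp only [if_pos h1, if_neg (show ¬ 0 < c by omega)]
  · simp only [if_neg (show ¬ 0 < b by omega), if_pos h2, inv_inv]

lemma hat_same {b c : ℤ} (hb : b ≠ 0) (hc : c ≠ 0) (h : ¬ b * c < 0) (Y : ℂ) : hat c Y = hat b Y := by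
  rw [mul_neg_iff'] at h
  unfold hat
  split_ifs <;> first | rfl | omega

lemma hat_ne_zero {b : ℤ} {Y : ℂ} (h : Y ≠ 0) : hat b Y ≠ 0 := by
  unfold hat
  split_ifs
  · exact h
  · exact inv_ne_zero h

lemma hat_ne_one {b : ℤ} {Y : ℂ} (h : Y ≠ 1) : hat b Y ≠ 1 := by
  unfold hat
  split_ifs
  · exact h
  · simpa using h

lemma BW_three0 {z : ℂ} (h0 : z ≠ 0) : BW (1 - z⁻¹) = BW z := by
  by_cases h1 : z = 1
  · subst h1
    have a := BW_real 1
    have b := BW_real 0
    push_cast at a b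
    rw [inv_one, sub_self, a, b]
  · exact BW_three h0 h1

lemma BW_one_sub' (z : ℂ) : BW (1 - z) = -BW z := by
  by_cases h0 : z = 0
  · subst h0
    have a := BW_real 1
    have b := BW_real 0
    push_cast at a b
    rw [sub_zero, a, b, neg_zero]
  · by_cases h1 : z = 1
    · subst h1
      have a := BW_real 1
      have b := BW_real 0
      push_cast at a b
      rw [sub_self, a, b, neg_zero]
    · exact BW_one_sub h0 h1

lemma BW_hat (b : ℤ) (Y : ℂ) : BW (hat b Y) = sI b * BW Y := by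
  unfold hat sI
  split_ifs
  · rw [one_mul]
  · rw [BW_inv, neg_one_mul]

lemma BW_shp (b : ℤ) (U : ℕ → ℂ) (l : ℕ) : BW (shp b U l) = sI b * BW (U (l + 1) / U l) := by
  unfold shp sI
  split_ifs
  · rw [one_mul]
  · rw [← inv_div, BW_inv, neg_one_mul]

lemma sI_sq (b : ℤ) : sI b * sI b = 1 := by
  unfold sI
  split_ifs <;> norm_num

/-- the shape of a layer and `1 + p² / q²` -/
lemma BW_zL (b : ℤ) {p q0 q1 : ℂ} {l : ℕ} (hp : p ≠ 0) (hF : fan p q0 q1 l ≠ 0) :
    BW (zL (lay b p q0 q1 l)) = sI b * BW (1 + (p / fan p q0 q1 l) ^ 2) := by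
  unfold zL lay sI
  split_ifs with hb
  · rw [one_mul, ← BW_three0 (neg_ne_zero.mpr (pow_ne_zero 2 (div_ne_zero hF hp)))]
    congr 1
    show 1 - (-(fan p q0 q1 l / p) ^ 2)⁻¹ = 1 + (p / fan p q0 q1 l) ^ 2
    rw [inv_neg, ← inv_pow, inv_div]
    ring
  · show BW (-(p / fan p q0 q1 l) ^ 2) = _
    have := BW_one_sub' (-(p / fan p q0 q1 l) ^ 2)
    rw [sub_neg_eq_add] at this
    rw [this]
    ring

lemma zL_pos (b : ℤ) {p q0 q1 : ℂ} {l : ℕ} (hp : p ≠ 0) (hF : fan p q0 q1 l ≠ 0)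
    (h : 0 < sI b * (1 + (p / fan p q0 q1 l) ^ 2).im) : 0 < (zL (lay b p q0 q1 l)).im := by
  unfold zL lay
  unfold sI at h
  split_ifs at h ⊢ with hb
  · show 0 < (-(fan p q0 q1 l / p) ^ 2).im
    set z := -(fan p q0 q1 l / p) ^ 2 with hz
    have hz0 : z ≠ 0 := neg_ne_zero.mpr (pow_ne_zero 2 (div_ne_zero hF hp))
    have e : 1 + (p / fan p q0 q1 l) ^ 2 = 1 - z⁻¹ := by
      rw [hz, inv_neg, ← inv_pow, inv_div]
      ring
    rw [e, one_mul, Complex.sub_im, Complex.one_im, Complex.inv_im, zero_sub, neg_div, neg_neg] at h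
    exact (div_pos_iff_of_pos_right (Complex.normSq_pos.mpr hz0)).mp h
  · show 0 < (-(p / fan p q0 q1 l) ^ 2).im
    rw [Complex.neg_im]
    rw [Complex.add_im, Complex.one_im, zero_add] at h
    linarith

/-! ### gluing equations indexed by natural numbers -/

/-- the gluing equations and positivity, indexed by natural numbers -/
structure GlueN (N : ℕ) (b : ℕ → ℤ) (Y : ℕ → ℂ) (U : ℕ → ℕ → ℂ) : Prop where
  hN : 1 ≤ N
  b0 : ∀ j ≤ N, b j ≠ 0
  first2 : 2 ≤ (b 0).natAbs
  last2 : 2 ≤ (b N).natAbs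
  Y0 : ∀ j < N, Y j ≠ 0
  Y1 : ∀ j < N, Y j ≠ 1
  first : EndRun (b 0) (Y 0) (U 0)
  last : EndRun (b N) (Y (N - 1)) (U N)
  mid : ∀ j, 1 ≤ j → j < N → Run (b j) (Y (j - 1)) (Y j) (U j)
  turn : ∀ j < N, hf (b j) (Y j) (if j = 0 then U 0 1 else (U j ((b j).natAbs - 1))⁻¹) *
    hf (b (j + 1)) (Y j) (U (j + 1) 1) = 1
  pos : ∀ i ≤ N, ∀ l, 1 ≤ l → l + (if i = 0 ∨ i = N then 2 else 1) ≤ (b i).natAbs →
    0 < sI (b i) * ((1 - U i (l + 1)) / (1 - U i l)).im
  posT : ∀ j < N, b j * b (j + 1) < 0 →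
    0 < sI (b (j + 1)) * ((1 - U (j + 1) 1) / (1 - U (j + 1) 0)).im

section
variable {N : ℕ} {b : ℕ → ℤ} {Y : ℕ → ℂ} {U : ℕ → ℕ → ℂ}

/-- the last index of the chain -/
def topN (N : ℕ) (b : ℕ → ℤ) (i : ℕ) : ℕ := if i = 0 ∨ i = N then (b i).natAbs - 1 else (b i).natAbs

namespace GlueN

variable (h : GlueN N b Y U)
include h

lemma nd (i : ℕ) (hi : i ≤ N) : (∀ l ≤ topN N b i, U i l ≠ 1) ∧ (∀ l < topN N b i, U i l ≠ 0) := by
  have hN := h.hN
  have hb := h.b0 i hi
  have hp := h.pos i hi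
  by_cases h0 : i = 0 ∨ i = N
  · have hE : ∃ y, y ≠ 0 ∧ y ≠ 1 ∧ EndRun (b i) y (U i) := by
      rcases h0 with rfl | rfl
      · exact ⟨_, h.Y0 0 (by omega), h.Y1 0 (by omega), h.first⟩
      · exact ⟨_, h.Y0 _ (by omega), h.Y1 _ (by omega), h.last⟩
    obtain ⟨y, y0, y1, hE⟩ := hE
    have h2 : 2 ≤ (b i).natAbs := by
      rcases h0 with rfl | rfl
      · exact h.first2
      · exact h.last2
    unfold topN
    rw [if_pos h0]
    simp only [if_pos h0] at hp
    refine chain_nd (s := sI (b i)) ?_ ?_ ?_ hE.edge (fun l h1 h2 => hp l h1 (by omega))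
    · rw [hE.left]
      exact hat_ne_zero y0
    · rw [hE.left]
      exact hat_ne_one y1
    · rw [hE.right]
      norm_num
  · push Not at h0
    have hE := h.mid i (by omega) (by omega)
    unfold topN
    rw [if_neg (by tauto)]
    simp only [if_neg (show ¬ (i = 0 ∨ i = N) by tauto)] at hp
    refine chain_nd (s := sI (b i)) ?_ ?_ ?_ hE.edge (fun l h1 h2 => hp l h1 (by omega))
    · rw [hE.left]
      exact hat_ne_zero (h.Y0 _ (by omega))
    · rw [hE.left]
      exact hat_ne_one (h.Y1 _ (by omega))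
    · intro h1
      have h2 := hE.right
      rw [h1, one_mul] at h2
      exact hat_ne_one (h.Y1 i (by omega)) h2

lemma edge (i : ℕ) (hi : i ≤ N) (l : ℕ) (hl : l + 2 ≤ topN N b i) :
    (U i (l + 2) - U i (l + 1)) * U i l = -(U i (l + 1) - U i l) := by
  unfold topN at hl
  by_cases h0 : i = 0 ∨ i = N
  · rw [if_pos h0] at hl
    rcases h0 with rfl | rfl
    · exact h.first.edge l hl
    · exact h.last.edge l hl
  · rw [if_neg h0] at hl
    push Not at h0
    exact (h.mid i (by omega) (by omega)).edge l hl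

lemma kap (i : ℕ) (hi : i ≤ N) (l : ℕ) (hl : l + 1 ≤ topN N b i) :
    (1 - U i (l + 1)) * (1 - (U i l)⁻¹) = (1 - U i 1) * (1 - (U i 0)⁻¹) :=
  chain_const (h.nd i hi).2 (h.edge i hi) l hl

end GlueN

/-- the triangle at the beginning of the fan `k` -/
noncomputable def St (b : ℕ → ℤ) (y : ℂ) : ℕ → ℂ × ℂ × ℂ
  | 0 => (y, 0, Complex.I * y)
  | k + 1 => (fan (St b y k).1 (St b y k).2.1 (St b y k).2.2 (b k).natAbs, (St b y k).1,
      nq (b k) (b (k + 1)) (St b y k).1 (St b y k).2.1 (St b y k).2.2)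

/-- the fan of the run `k` -/
noncomputable def Fk (b : ℕ → ℤ) (y : ℂ) (k : ℕ) : ℕ → ℂ :=
  fan (St b y k).1 (St b y k).2.1 (St b y k).2.2

/-- the properties of the triangle at the beginning of the fan `k` -/
structure Inv (s : ℂ × ℂ × ℂ) (U : ℕ → ℂ) : Prop where
  p0 : s.1 ≠ 0
  q0 : s.2.1 ≠ 0
  str : Str (U 0) s.1 s.2.1 s.2.2
  mkf : Mkf s.1 s.2.1 s.2.2
  kap : (1 - U 1) * (1 - (U 0)⁻¹) = s.1 ^ 2

/-- the step at a turning point -/
lemma inv_step {p q0 q1 g nb : ℂ} {bb c : ℤ} {U' : ℕ → ℂ} {Yy : ℂ} (hb : bb ≠ 0) (hc : c ≠ 0)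
    (hp : p ≠ 0) (hF : fan p q0 q1 bb.natAbs ≠ 0) (hg : g = hat bb Yy) (hY0 : Yy ≠ 0) (hY1 : Yy ≠ 1)
    (h1 : (1 - g) * fan p q0 q1 (bb.natAbs + 1) = p * fan p q0 q1 bb.natAbs)
    (hM : Mkf p q0 q1) (hκ : (1 - nb) * (1 - g⁻¹) = p ^ 2) (hU : U' 0 = hat c Yy)
    (ht : hf bb Yy nb * hf c Yy (U' 1) = 1) :
    Inv (fan p q0 q1 bb.natAbs, p, nq bb c p q0 q1) U' := by
  have hg0 : g ≠ 0 := by rw [hg]; exact hat_ne_zero hY0
  have hg1 : g ≠ 1 := by rw [hg]; exact hat_ne_one hY1
  have hMA := hM.fan bb.natAbs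
  have hMA' := hM.fan (bb.natAbs - 1)
  rw [show bb.natAbs - 1 + 1 = bb.natAbs by omega] at hMA'
  have hrec : fan p q0 q1 (bb.natAbs + 1) = p * fan p q0 q1 bb.natAbs - fan p q0 q1 (bb.natAbs - 1) := by
    conv_lhs => rw [show bb.natAbs + 1 = bb.natAbs - 1 + 2 by omega]
    show p * fan p q0 q1 (bb.natAbs - 1 + 1) - fan p q0 q1 (bb.natAbs - 1) = _
    rw [show bb.natAbs - 1 + 1 = bb.natAbs by omega]
  refine ⟨hF, hp, ?_, hM.nq hb, ?_⟩
  · show Str (U' 0) (fan p q0 q1 bb.natAbs) p (nq bb c p q0 q1)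
    unfold Str nq
    split_ifs with hs
    · rw [hU, hat_opp hs, ← hg]
      have : g * ((1 - g⁻¹) * fan p q0 q1 (bb.natAbs + 1)) =
          g * -(g⁻¹ * fan p q0 q1 bb.natAbs * p) := by
        have e : g * g⁻¹ = 1 := mul_inv_cancel₀ hg0
        linear_combination -h1 + (-fan p q0 q1 (bb.natAbs + 1) + fan p q0 q1 bb.natAbs * p) * e
      exact mul_left_cancel₀ hg0 this
    · rw [hU, hat_same hb hc hs, ← hg]
      linear_combination (1 - g) * hrec - h1
  · show (1 - U' 1) * (1 - (U' 0)⁻¹) = (fan p q0 q1 bb.natAbs) ^ 2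
    refine hinge_alg hg0 hg1 h1 hMA hκ ?_ ?_
    · by_cases hs : bb * c < 0
      · right
        rw [hU, hat_opp hs, hg]
      · left
        rw [hU, hat_same hb hc hs, hg]
    · unfold hf at ht
      rw [hg, hU]
      exact ht

theorem GlueN.inv (h : GlueN N b Y U) {y : ℂ} (hy : (1 - U 0 1) * (1 - (U 0 0)⁻¹) = y ^ 2) :
    ∀ k, 1 ≤ k → k ≤ N → Inv (St b y k) (U k) := by
  have hN := h.hN
  have nd := h.nd
  have hkap := h.kap
  have hy0 : y ≠ 0 := by
    rintro rfl
    have h1 := nd 0 (by omega)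
    have h2 := h.first2
    have ht : 1 ≤ topN N b 0 := by
      unfold topN
      rw [if_pos (Or.inl rfl)]
      omega
    have a := h1.1 0 (by omega)
    have c := h1.1 1 ht
    have d := h1.2 0 (by omega)
    rw [zero_pow two_ne_zero, mul_eq_zero] at hy
    rcases hy with hy | hy
    · exact c (by linear_combination -hy)
    · apply a
      have : (U 0 0)⁻¹ = 1 := by linear_combination -hy
      simpa using this
  intro k
  induction k with
  | zero => intro h; omega
  | succ k ih =>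
    intro _ hk
    have hb := h.b0 k (by omega)
    have hc := h.b0 (k + 1) hk
    have hY0 := h.Y0 k (by omega)
    have hY1 := h.Y1 k (by omega)
    have ht := h.turn k (by omega)
    have hU : U (k + 1) 0 = hat (b (k + 1)) (Y k) := by
      rcases Nat.lt_or_ge (k + 1) N with h1 | h1
      · exact (h.mid (k + 1) (by omega) h1).left
      · have : k + 1 = N := by omega
        subst this
        exact h.last.left
    rcases Nat.eq_zero_or_pos k with rfl | hk0
    · -- the first run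
      have h2 := h.first2
      have ht0 : topN N b 0 = (b 0).natAbs - 1 := by
        unfold topN
        rw [if_pos (Or.inl rfl)]
      have hk := hkap 0 (by omega)
      have h1 := nd 0 (by omega)
      rw [ht0] at hk h1
      have hs := star_first (p := y) (q1 := Complex.I * y) (U := U 0) (n := (b 0).natAbs - 1) h1.2
        h.first.right (fun l hl => by rw [hk l hl, hy]) hy0 (mul_ne_zero Complex.I_ne_zero hy0)
        ((b 0).natAbs - 1) le_rfl
      rw [Nat.sub_self, show (b 0).natAbs - 1 + 1 = (b 0).natAbs by omega,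
        show (b 0).natAbs - 1 + 2 = (b 0).natAbs + 1 by omega] at hs
      rw [if_pos rfl] at ht
      exact inv_step hb hc hy0 hs.1 h.first.left hY0 hY1 hs.2
        (by
          show Complex.I * y * (y * 0 - Complex.I * y) = y ^ 2 + 0 ^ 2
          linear_combination (-y ^ 2) * Complex.I_sq) hy hU ht
    · -- an inner run
      have hI := ih hk0 (by omega)
      have hR := h.mid k hk0 (by omega)
      have ht0 : topN N b k = (b k).natAbs := by
        unfold topN
        rw [if_neg (by omega)]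
      have hk := hkap k (by omega)
      have h1 := nd k (by omega)
      rw [ht0] at hk h1
      have hs := star (U := U k) (n := (b k).natAbs) h1.2 (fun l hl => by rw [hk l hl, hI.kap])
        hI.p0 hI.q0 hI.str (b k).natAbs le_rfl
      rw [if_neg (by omega)] at ht
      have hr := hR.right
      have hUA : U k (b k).natAbs ≠ 0 := left_ne_zero_of_mul_eq_one hr
      have hg : hat (b k) (Y k) = (U k (b k).natAbs)⁻¹ := eq_inv_of_mul_eq_one_right hr
      refine inv_step hb hc hI.p0 hs.1 rfl hY0 hY1 ?_ hI.mkf ?_ hU ht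
      · have hs2 := hs.2
        unfold Str at hs2
        rw [hg]
        have e := mul_inv_cancel₀ hUA
        have : U k (b k).natAbs * ((1 - (U k (b k).natAbs)⁻¹) *
            fan (St b y k).1 (St b y k).2.1 (St b y k).2.2 ((b k).natAbs + 1)) =
            U k (b k).natAbs * ((St b y k).1 *
              fan (St b y k).1 (St b y k).2.1 (St b y k).2.2 (b k).natAbs) := by
          linear_combination -hs2 -
            fan (St b y k).1 (St b y k).2.1 (St b y k).2.2 ((b k).natAbs + 1) * e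
        exact mul_left_cancel₀ hUA this
      · rw [hg, inv_inv]
        have := hk ((b k).natAbs - 1) (by omega)
        rw [show (b k).natAbs - 1 + 1 = (b k).natAbs by omega, hI.kap] at this
        rw [mul_comm]
        exact this

end

/-! ### the end of the path -/

section
variable {N : ℕ} {b : ℕ → ℤ} {Y : ℕ → ℂ} {U : ℕ → ℕ → ℂ} {y : ℂ}

/-- the digits `k, ..., k + n` -/
def dig (b : ℕ → ℤ) (k n : ℕ) : List ℤ := (List.range' k (n + 1)).map b

lemma dig_zero (b : ℕ → ℤ) (k : ℕ) : dig b k 0 = [b k] := rfl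

lemma dig_succ (b : ℕ → ℤ) (k n : ℕ) : dig b k (n + 1) = b k :: b (k + 1) :: (List.range' (k + 2) n).map b := rfl

lemma dig_succ' (b : ℕ → ℤ) (k n : ℕ) : dig b (k + 1) n = b (k + 1) :: (List.range' (k + 2) n).map b := rfl

/-- the layers of the path from the run `k` on -/
noncomputable def LS' (b : ℕ → ℤ) (y : ℂ) (kk k n : ℕ) : List Lay :=
  Lys kk (St b y k).1 (St b y k).2.1 (St b y k).2.2 (dig b k n)

/-- a layer of the run `k` -/
noncomputable def LK (b : ℕ → ℤ) (y : ℂ) (k l : ℕ) : Lay :=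
  lay (b k) (St b y k).1 (St b y k).2.1 (St b y k).2.2 l

lemma LS_zero (kk k : ℕ) : LS' b y kk k 0 = (List.range' kk ((b k).natAbs - 1 - kk)).map (LK b y k) := rfl

lemma LS_succ (kk k n : ℕ) : LS' b y kk k (n + 1) = (List.range' kk ((b k).natAbs - kk)).map (LK b y k) ++
    (if b k * b (k + 1) < 0 then [LK b y k (b k).natAbs] else []) ++ LS' b y 1 (k + 1) n := rfl

lemma fin_St : ∀ n k, fin (St b y k).1 (St b y k).2.1 (St b y k).2.2 (dig b k n) =
    Fk b y (k + n) (b (k + n)).natAbs := by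
  intro n
  induction n with
  | zero => intro k; rfl
  | succ n ih =>
    intro k
    have := ih (k + 1)
    rw [show k + 1 + n = k + (n + 1) by omega] at this
    rw [← this]
    rfl

lemma sgm_fan' {u p x y : ℂ} (hM : Mkf p x y) (hs : (1 - u) * y = p * x) (hu : u ≠ 1) (hx : x ≠ 0) :
    sgm (p ^ 2) u = 1 + (p / x) ^ 2 := by
  refine sgm_fan (y := p * x - y) ?_ ?_ hu hx
  · unfold Mkf at hM ⊢
    linear_combination hM
  · unfold Str
    linear_combination -hs

/-- the run `k ≥ 1` -/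
structure RunF (b : ℕ → ℤ) (y : ℂ) (U : ℕ → ℂ) (k n : ℕ) : Prop where
  p0 : (St b y k).1 ≠ 0
  F0 : ∀ l ≤ n, Fk b y k l ≠ 0
  sg : ∀ l ≤ n, sgm ((St b y k).1 ^ 2) (U l) = 1 + ((St b y k).1 / Fk b y k l) ^ 2
  kap : ∀ l, l + 1 ≤ n → (1 - U (l + 1)) * (1 - (U l)⁻¹) = (St b y k).1 ^ 2
  end0 : U n = 0 → Fk b y k (n + 1) = 0

lemma GlueN.run (h : GlueN N b Y U) (hy : (1 - U 0 1) * (1 - (U 0 0)⁻¹) = y ^ 2) {k : ℕ} (hk0 : 1 ≤ k)
    (hk : k ≤ N) : RunF b y (U k) k (topN N b k) := by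
  have hI := h.inv hy k hk0 hk
  have h1 := h.nd k hk
  have h2 := h.kap k hk
  have hs := star (U := U k) (n := topN N b k) h1.2 (fun l hl => by rw [h2 l hl, hI.kap])
        hI.p0 hI.q0 hI.str
  refine ⟨hI.p0, fun l hl => (hs l hl).1, fun l hl => ?_, fun l hl => ?_, fun h0 => ?_⟩
  · exact sgm_fan (hI.mkf.fan l) (hs l hl).2 (h1.1 l hl) (hs l hl).1
  · rw [h2 l hl, hI.kap]
  · have := (hs _ le_rfl).2
    rw [h0] at this
    unfold Str at this
    show fan _ _ _ _ = 0
    linear_combination this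

theorem GlueN.fin_eq (h : GlueN N b Y U) (hy : (1 - U 0 1) * (1 - (U 0 0)⁻¹) = y ^ 2) :
    fin y 0 (Complex.I * y) (dig b 0 N) = 0 := by
  have h1 := fin_St (b := b) (y := y) N 0
  have hr := h.run hy h.hN le_rfl
  have h2 := h.last2
  have ht : topN N b N = (b N).natAbs - 1 := by
    unfold topN
    rw [if_pos (Or.inr rfl)]
  rw [ht] at hr
  have h3 := hr.end0 h.last.right
  rw [show (b N).natAbs - 1 + 1 = (b N).natAbs by omega] at h3
  rw [show (St b y 0).1 = y from rfl, show (St b y 0).2.1 = 0 from rfl,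
    show (St b y 0).2.2 = Complex.I * y from rfl, zero_add, h3] at h1
  exact h1

/-! ### positivity -/

lemma zL_opp {b c : ℤ} (hbc : b * c < 0) (p q0 q1 : ℂ) :
    zL (lay c (fan p q0 q1 b.natAbs) p (nq b c p q0 q1) 0) = zL (lay b p q0 q1 b.natAbs) := by
  rw [mul_neg_iff'] at hbc
  rcases hbc with ⟨h1, h2⟩ | ⟨h1, h2⟩
  · unfold lay
    rw [if_pos h1, if_neg (by omega)]
    rfl
  · unfold lay
    rw [if_neg (by omega : ¬ 0 < b), if_pos h2]
    rfl

lemma zL_same {b c : ℤ} (hb : b ≠ 0) (hc : c ≠ 0) (hbc : ¬ b * c < 0) (p q0 q1 : ℂ) :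
    zL (lay c (fan p q0 q1 b.natAbs) p (nq b c p q0 q1) 0) = (zL (lay b p q0 q1 b.natAbs))⁻¹ := by
  rw [mul_neg_iff'] at hbc
  rcases lt_or_gt_of_ne hb with h1 | h1
  · unfold lay
    rw [if_neg (by omega), if_neg (by omega)]
    show -(fan p q0 q1 b.natAbs / p) ^ 2 = (-(p / fan p q0 q1 b.natAbs) ^ 2)⁻¹
    rw [inv_neg, ← inv_pow, inv_div]
  · unfold lay
    rw [if_pos (by omega), if_pos (by omega)]
    show -(p / fan p q0 q1 b.natAbs) ^ 2 = (-(fan p q0 q1 b.natAbs / p) ^ 2)⁻¹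
    rw [inv_neg, ← inv_pow, inv_div]

lemma GlueN.pos_turn (h : GlueN N b Y U) (hy : (1 - U 0 1) * (1 - (U 0 0)⁻¹) = y ^ 2) {k : ℕ}
    (hk : k < N) (hs : b k * b (k + 1) < 0) : 0 < (zL (LK b y k (b k).natAbs)).im := by
  have hr := h.run hy (k := k + 1) (by omega) (by omega)
  have h1 := h.posT k hk hs
  have hnd := h.nd (k + 1) (by omega)
  have ht : 1 ≤ topN N b (k + 1) := by
    have a := h.b0 (k + 1) (by omega)
    have c := h.last2
    unfold topN
    by_cases h2 : k + 1 = N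
    · rw [if_pos (Or.inr h2), h2]
      omega
    · rw [if_neg (by omega)]
      omega
  rw [sgm_left (hnd.2 0 (by omega)) (hnd.1 0 (by omega)) (hr.kap 0 (by omega)), hr.sg 0 (by omega)] at h1
  have h2 := zL_pos (b (k + 1)) (p := (St b y (k + 1)).1) (q0 := (St b y (k + 1)).2.1)
    (q1 := (St b y (k + 1)).2.2) (l := 0) hr.p0 (hr.F0 0 (by omega)) h1
  have h3 := zL_opp hs (St b y k).1 (St b y k).2.1 (St b y k).2.2
  show 0 < (zL (lay (b k) (St b y k).1 (St b y k).2.1 (St b y k).2.2 (b k).natAbs)).im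
  rw [← h3]
  exact h2

lemma GlueN.pos_run (h : GlueN N b Y U) (hy : (1 - U 0 1) * (1 - (U 0 0)⁻¹) = y ^ 2) {k l : ℕ}
    (hk0 : 1 ≤ k) (hk : k ≤ N) (hl : 1 ≤ l) (hl' : l + 1 ≤ topN N b k) :
    0 < (zL (LK b y k l)).im := by
  have hr := h.run hy hk0 hk
  have hnd := h.nd k hk
  have h1 : 0 < sI (b k) * ((1 - U k (l + 1)) / (1 - U k l)).im := by
    refine h.pos k hk l hl ?_
    unfold topN at hl'
    split_ifs at hl' ⊢ <;> omega
  rw [sgm_left (hnd.2 l (by omega)) (hnd.1 l (by omega)) (hr.kap l hl'), hr.sg l (by omega)] at h1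
  exact zL_pos (b k) hr.p0 (hr.F0 l (by omega)) h1

/-- the first run -/
structure FirstF (b : ℕ → ℤ) (y : ℂ) (U : ℕ → ℂ) (n : ℕ) : Prop where
  p0 : y ≠ 0
  F0 : ∀ l ≤ n, Fk b y 0 (n + 1 - l) ≠ 0
  sg : ∀ l ≤ n, sgm (y ^ 2) (U l) = 1 + (y / Fk b y 0 (n + 1 - l)) ^ 2
  kap : ∀ l, l + 1 ≤ n → (1 - U (l + 1)) * (1 - (U l)⁻¹) = y ^ 2

lemma GlueN.run_first (h : GlueN N b Y U) (hy : (1 - U 0 1) * (1 - (U 0 0)⁻¹) = y ^ 2) :
    FirstF b y (U 0) ((b 0).natAbs - 1) := by
  have hI := h.inv hy 1 le_rfl h.hN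
  have hy0 : y ≠ 0 := hI.q0
  have h2 := h.first2
  have ht0 : topN N b 0 = (b 0).natAbs - 1 := by
    unfold topN
    rw [if_pos (Or.inl rfl)]
  have hk := h.kap 0 (by omega)
  have h1 := h.nd 0 (by omega)
  rw [ht0] at hk h1
  have hs := star_first (p := y) (q1 := Complex.I * y) (U := U 0) (n := (b 0).natAbs - 1) h1.2
        h.first.right (fun l hl => by rw [hk l hl, hy]) hy0 (mul_ne_zero Complex.I_ne_zero hy0)
  have hM : Mkf y 0 (Complex.I * y) := by
    show Complex.I * y * (y * 0 - Complex.I * y) = y ^ 2 + 0 ^ 2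
    linear_combination (-y ^ 2) * Complex.I_sq
  refine ⟨hy0, fun l hl => ?_, fun l hl => ?_, fun l hl => by rw [hk l hl, hy]⟩
  · have := (hs ((b 0).natAbs - 1 - l) (by omega)).1
    rw [show (b 0).natAbs - 1 - l + 1 = (b 0).natAbs - 1 + 1 - l by omega] at this
    exact this
  · have h3 := hs ((b 0).natAbs - 1 - l) (by omega)
    rw [show (b 0).natAbs - 1 - ((b 0).natAbs - 1 - l) = l by omega,
      show (b 0).natAbs - 1 - l + 1 = (b 0).natAbs - 1 + 1 - l by omega,
      show (b 0).natAbs - 1 - l + 2 = (b 0).natAbs - 1 + 1 - l + 1 by omega] at h3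
    exact sgm_fan' (hM.fan _) h3.2 (h1.1 l hl) h3.1

lemma GlueN.pos_first (h : GlueN N b Y U) (hy : (1 - U 0 1) * (1 - (U 0 0)⁻¹) = y ^ 2) {l : ℕ}
    (hl : 2 ≤ l) (hl' : l < (b 0).natAbs) : 0 < (zL (LK b y 0 l)).im := by
  have hr := h.run_first hy
  have hnd := h.nd 0 (by omega)
  have ht0 : topN N b 0 = (b 0).natAbs - 1 := by
    unfold topN
    rw [if_pos (Or.inl rfl)]
  rw [ht0] at hnd
  have h1 : 0 < sI (b 0) * ((1 - U 0 ((b 0).natAbs - l + 1)) / (1 - U 0 ((b 0).natAbs - l))).im := by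
    refine h.pos 0 (by omega) ((b 0).natAbs - l) (by omega) ?_
    rw [if_pos (Or.inl rfl)]
    omega
  rw [sgm_left (hnd.2 _ (by omega)) (hnd.1 _ (by omega)) (hr.kap _ (by omega)), hr.sg _ (by omega)] at h1
  have h2 := hr.F0 ((b 0).natAbs - l) (by omega)
  rw [show (b 0).natAbs - 1 + 1 - ((b 0).natAbs - l) = l by omega] at h1 h2
  exact zL_pos (b 0) (p := y) (q0 := 0) (q1 := Complex.I * y) hr.p0 h2 h1

lemma GlueN.pos_list (h : GlueN N b Y U) (hy : (1 - U 0 1) * (1 - (U 0 0)⁻¹) = y ^ 2) :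
    ∀ n k, 1 ≤ k → k + n = N → ∀ x ∈ LS' b y 1 k n, 0 < (zL x).im := by
  intro n
  induction n with
  | zero =>
    intro k hk hn x hx
    rw [LS_zero, List.mem_map] at hx
    obtain ⟨l, hl, rfl⟩ := hx
    rw [List.mem_range'_1] at hl
    refine h.pos_run hy hk (by omega) (by omega) ?_
    unfold topN
    rw [if_pos (Or.inr (by omega))]
    omega
  | succ n ih =>
    intro k hk hn x hx
    rw [LS_succ, List.mem_append, List.mem_append] at hx
    rcases hx with (hx | hx) | hx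
    · rw [List.mem_map] at hx
      obtain ⟨l, hl, rfl⟩ := hx
      rw [List.mem_range'_1] at hl
      refine h.pos_run hy hk (by omega) (by omega) ?_
      unfold topN
      rw [if_neg (by omega)]
      omega
    · split_ifs at hx with hs
      · rw [List.mem_singleton] at hx
        subst hx
        exact h.pos_turn hy (by omega) hs
      · simp at hx
    · exact ih (k + 1) (by omega) (by omega) x hx

theorem GlueN.pos_all (h : GlueN N b Y U) (hy : (1 - U 0 1) * (1 - (U 0 0)⁻¹) = y ^ 2) :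
    ∀ x ∈ LS' b y 2 0 N, 0 < (zL x).im := by
  intro x hx
  obtain ⟨n, rfl⟩ : ∃ n, N = n + 1 := ⟨N - 1, by have := h.hN; omega⟩
  rw [LS_succ, List.mem_append, List.mem_append] at hx
  rcases hx with (hx | hx) | hx
  · rw [List.mem_map] at hx
    obtain ⟨l, hl, rfl⟩ := hx
    rw [List.mem_range'_1] at hl
    exact h.pos_first hy (by omega) (by omega)
  · split_ifs at hx with hs
    · rw [List.mem_singleton] at hx
      subst hx
      exact h.pos_turn hy (by omega) hs
    · simp at hx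
  · exact h.pos_list hy n 1 le_rfl (by omega) x hx

/-! ### the volume -/

lemma sum_map_range' (f : ℕ → ℝ) (k : ℕ) : ∀ n, ((List.range' k n).map f).sum = ∑ l ∈ range n, f (k + l) := by
  intro n
  induction n with
  | zero => simp
  | succ n ih =>
    rw [List.range'_1_concat, List.map_append, List.sum_append, ih, sum_range_succ]
    simp

lemma tele (B : ℕ → ℝ) (m : ℕ) : ∑ l ∈ range m, (B l + B (l + 1)) + B m =
    B 0 + ∑ l ∈ range m, 2 * B (l + 1) := by
  have h1 := sum_range_succ B m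
  have h2 := sum_range_succ' B m
  rw [sum_add_distrib, ← mul_sum]
  linarith

/-- number of letters -/
def nlN (N : ℕ) (b : ℕ → ℤ) (i : ℕ) : ℕ := if i = 0 ∨ i = N then (b i).natAbs - 2 else (b i).natAbs

/-- the sum over the letters of a run -/
noncomputable def lett (N : ℕ) (b : ℕ → ℤ) (U : ℕ → ℕ → ℂ) (i : ℕ) : ℝ :=
  ∑ l ∈ range (nlN N b i), BW (shp (b i) (U i) l)

/-- the volume of a layer of the run `k` -/
noncomputable def BK (b : ℕ → ℤ) (y : ℂ) (k l : ℕ) : ℝ := BW (zL (LK b y k l))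

lemma BK_eq {k n l : ℕ} {V : ℕ → ℂ} (hr : RunF b y V k n) (hl : l ≤ n) :
    BK b y k l = sI (b k) * BW (sgm ((St b y k).1 ^ 2) (V l)) := by
  rw [hr.sg l hl]
  exact BW_zL (b k) hr.p0 (hr.F0 l hl)

lemma GlueN.vol_mid (h : GlueN N b Y U) (hy : (1 - U 0 1) * (1 - (U 0 0)⁻¹) = y ^ 2) {k : ℕ}
    (hk0 : 1 ≤ k) (hk : k < N) : BW (Y (k - 1)) + BW (Y k) + lett N b U k =
      ∑ l ∈ range (b k).natAbs, (BK b y k l + BK b y k (l + 1)) := by
  have hr := h.run hy hk0 hk.le
  have hnd := h.nd k hk.le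
  have hR := h.mid k hk0 hk
  have ht : topN N b k = (b k).natAbs := by
    unfold topN
    rw [if_neg (by omega)]
  have hn : nlN N b k = (b k).natAbs := by
    unfold nlN
    rw [if_neg (by omega)]
  rw [ht] at hr hnd
  have hUA : U k (b k).natAbs ≠ 0 := left_ne_zero_of_mul_eq_one hR.right
  have hv := chain_vol (U := U k) (n := (b k).natAbs) (κ := (St b y k).1 ^ 2)
    (fun l hl => by
      rcases Nat.lt_or_ge l (b k).natAbs with h1 | h1
      · exact hnd.2 l h1
      · rw [show l = (b k).natAbs by omega]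
        exact hUA) hnd.1 hr.kap
  have hg : U k (b k).natAbs = (hat (b k) (Y k))⁻¹ := eq_inv_of_mul_eq_one_left hR.right
  rw [hR.left, hg, BW_inv, BW_hat, BW_hat] at hv
  have e1 : lett N b U k = sI (b k) * ∑ l ∈ range (b k).natAbs, BW (U k (l + 1) / U k l) := by
    unfold lett
    rw [hn, mul_sum]
    exact sum_congr rfl fun l _ => BW_shp _ _ _
  have e2 : ∑ l ∈ range (b k).natAbs, (BK b y k l + BK b y k (l + 1)) =
      sI (b k) * ∑ l ∈ range (b k).natAbs, (BW (sgm ((St b y k).1 ^ 2) (U k l)) +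
        BW (sgm ((St b y k).1 ^ 2) (U k (l + 1)))) := by
    rw [mul_sum]
    refine sum_congr rfl fun l hl => ?_
    rw [mem_range] at hl
    rw [BK_eq hr (by omega), BK_eq hr (by omega)]
    ring
  rw [e1, e2, ← hv]
  have := sI_sq (b k)
  linear_combination (-(BW (Y (k - 1)) + BW (Y k))) * this

/-- a chain which ends at `0` -/
lemma chain_vol_end {V : ℕ → ℂ} {n : ℕ} {κ : ℂ} (hn : 1 ≤ n) (h1 : ∀ l ≤ n, V l ≠ 1)
    (h0 : ∀ l < n, V l ≠ 0) (he : V n = 0)
    (hκ : ∀ l, l + 1 ≤ n → (1 - V (l + 1)) * (1 - (V l)⁻¹) = κ) :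
    BW (V 0) + ∑ l ∈ range (n - 1), BW (V (l + 1) / V l) =
      ∑ l ∈ range (n - 1), (BW (sgm κ (V l)) + BW (sgm κ (V (l + 1)))) + BW (sgm κ (V (n - 1))) := by
  have hv := chain_vol (U := V) (n := n - 1) (κ := κ) (fun l hl => h0 l (by omega))
    (fun l hl => h1 l (by omega)) (fun l hl => hκ l (by omega))
  have h2 := hκ (n - 1) (by omega)
  rw [show n - 1 + 1 = n by omega, he] at h2
  have h3 := end_vol (h0 (n - 1) (by omega)) (h1 (n - 1) (by omega)) h2
  linarith

lemma GlueN.vol_last (h : GlueN N b Y U) (hy : (1 - U 0 1) * (1 - (U 0 0)⁻¹) = y ^ 2) :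
    BW (Y (N - 1)) + lett N b U N = ∑ l ∈ range ((b N).natAbs - 2), (BK b y N l + BK b y N (l + 1)) +
      BK b y N ((b N).natAbs - 2) := by
  have hN := h.hN
  have hr := h.run hy hN le_rfl
  have hnd := h.nd N le_rfl
  have h2 := h.last2
  have ht : topN N b N = (b N).natAbs - 1 := by
    unfold topN
    rw [if_pos (Or.inr rfl)]
  have hn : nlN N b N = (b N).natAbs - 2 := by
    unfold nlN
    rw [if_pos (Or.inr rfl)]
  rw [ht] at hr hnd
  have hv := chain_vol_end (V := U N) (n := (b N).natAbs - 1) (κ := (St b y N).1 ^ 2) (by omega)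
    hnd.1 hnd.2 h.last.right hr.kap
  rw [h.last.left, BW_hat, show (b N).natAbs - 1 - 1 = (b N).natAbs - 2 by omega] at hv
  have e1 : lett N b U N = sI (b N) * ∑ l ∈ range ((b N).natAbs - 2), BW (U N (l + 1) / U N l) := by
    unfold lett
    rw [hn, mul_sum]
    exact sum_congr rfl fun l _ => BW_shp _ _ _
  have e2 : ∑ l ∈ range ((b N).natAbs - 2), (BK b y N l + BK b y N (l + 1)) =
      sI (b N) * ∑ l ∈ range ((b N).natAbs - 2), (BW (sgm ((St b y N).1 ^ 2) (U N l)) +
        BW (sgm ((St b y N).1 ^ 2) (U N (l + 1)))) := by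
    rw [mul_sum]
    refine sum_congr rfl fun l hl => ?_
    rw [mem_range] at hl
    rw [BK_eq hr (by omega), BK_eq hr (by omega)]
    ring
  rw [e1, e2, BK_eq hr (by omega)]
  have := sI_sq (b N)
  linear_combination sI (b N) * hv + (-(BW (Y (N - 1)))) * this

lemma GlueN.vol_first (h : GlueN N b Y U) (hy : (1 - U 0 1) * (1 - (U 0 0)⁻¹) = y ^ 2) :
    BW (Y 0) + lett N b U 0 = BK b y 0 (b 0).natAbs +
      ∑ l ∈ range ((b 0).natAbs - 2), 2 * BK b y 0 (2 + l) := by
  have hr := h.run_first hy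
  have hnd := h.nd 0 (by omega)
  have h2 := h.first2
  have ht : topN N b 0 = (b 0).natAbs - 1 := by
    unfold topN
    rw [if_pos (Or.inl rfl)]
  have hn : nlN N b 0 = (b 0).natAbs - 2 := by
    unfold nlN
    rw [if_pos (Or.inl rfl)]
  rw [ht] at hnd
  have hv := chain_vol_end (V := U 0) (n := (b 0).natAbs - 1) (κ := y ^ 2) (by omega)
    hnd.1 hnd.2 h.first.right hr.kap
  rw [h.first.left, BW_hat, show (b 0).natAbs - 1 - 1 = (b 0).natAbs - 2 by omega] at hv
  have e0 : ∀ l, l ≤ (b 0).natAbs - 1 → BW (sgm (y ^ 2) (U 0 l)) =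
      sI (b 0) * BK b y 0 ((b 0).natAbs - l) := by
    intro l hl
    rw [hr.sg l hl]
    have h3 := hr.F0 l hl
    rw [show (b 0).natAbs - 1 + 1 - l = (b 0).natAbs - l by omega] at h3 ⊢
    have h4 := BW_zL (b 0) (p := y) (q0 := 0) (q1 := Complex.I * y) hr.p0 h3
    have h5 : BK b y 0 ((b 0).natAbs - l) = sI (b 0) * BW (1 + (y / Fk b y 0 ((b 0).natAbs - l)) ^ 2) := h4
    rw [h5, ← mul_assoc, sI_sq, one_mul]
  have e1 : lett N b U 0 = sI (b 0) * ∑ l ∈ range ((b 0).natAbs - 2), BW (U 0 (l + 1) / U 0 l) := by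
    unfold lett
    rw [hn, mul_sum]
    exact sum_congr rfl fun l _ => BW_shp _ _ _
  set C : ℕ → ℝ := fun l => BK b y 0 ((b 0).natAbs - l) with hC
  have e2 : ∑ l ∈ range ((b 0).natAbs - 2), (BW (sgm (y ^ 2) (U 0 l)) +
        BW (sgm (y ^ 2) (U 0 (l + 1)))) + BW (sgm (y ^ 2) (U 0 ((b 0).natAbs - 2))) =
      sI (b 0) * (C 0 + ∑ l ∈ range ((b 0).natAbs - 2), 2 * C (l + 1)) := by
    rw [← tele, mul_add, mul_sum, e0 _ (by omega)]
    congr 1
    refine sum_congr rfl fun l hl => ?_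
    rw [mem_range] at hl
    rw [e0 _ (by omega), e0 _ (by omega)]
    ring
  have e3 : ∑ l ∈ range ((b 0).natAbs - 2), 2 * C (l + 1) =
      ∑ l ∈ range ((b 0).natAbs - 2), 2 * BK b y 0 (2 + l) := by
    rw [← sum_range_reflect]
    refine sum_congr rfl fun l hl => ?_
    rw [mem_range] at hl
    show 2 * BK b y 0 _ = _
    congr 2
    omega
  rw [e2] at hv
  rw [← e3, e1]
  have := sI_sq (b 0)
  have e4 : BK b y 0 (b 0).natAbs = C 0 := rfl
  rw [e4]
  linear_combination sI (b 0) * hv + (-(BW (Y 0)) + (C 0 + ∑ l ∈ range ((b 0).natAbs - 2), 2 * C (l + 1))) * this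

lemma BK_turn {k : ℕ} (hb : b k ≠ 0) (hc : b (k + 1) ≠ 0) :
    BK b y k (b k).natAbs + BK b y (k + 1) 0 =
      if b k * b (k + 1) < 0 then 2 * BK b y k (b k).natAbs else 0 := by
  have e : BK b y (k + 1) 0 = BW (zL (lay (b (k + 1)) (fan (St b y k).1 (St b y k).2.1 (St b y k).2.2
    (b k).natAbs) (St b y k).1 (nq (b k) (b (k + 1)) (St b y k).1 (St b y k).2.1 (St b y k).2.2) 0)) := rfl
  have e' : BK b y k (b k).natAbs = BW (zL (lay (b k) (St b y k).1 (St b y k).2.1 (St b y k).2.2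
    (b k).natAbs)) := rfl
  split_ifs with hs
  · rw [e, zL_opp hs, e']
    ring
  · rw [e, zL_same hb hc hs, BW_inv, e']
    ring

/-- the sum over the layers -/
noncomputable def vsum (L : List Lay) : ℝ := (L.map fun x => 2 * BW (zL x)).sum

lemma vsum_append (L L' : List Lay) : vsum (L ++ L') = vsum L + vsum L' := by
  unfold vsum
  rw [List.map_append, List.sum_append]

lemma vsum_run (k kk n : ℕ) : vsum ((List.range' kk n).map (LK b y k)) =
    ∑ l ∈ range n, 2 * BK b y k (kk + l) := by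
  unfold vsum
  rw [List.map_map, ← sum_map_range' (fun l => 2 * BK b y k l)]
  rfl

lemma vsum_if (k : ℕ) : vsum (if b k * b (k + 1) < 0 then [LK b y k (b k).natAbs] else []) =
    if b k * b (k + 1) < 0 then 2 * BK b y k (b k).natAbs else 0 := by
  split_ifs
  · simp [vsum, BK]
  · simp [vsum]

lemma GlueN.vol_list (h : GlueN N b Y U) (hy : (1 - U 0 1) * (1 - (U 0 0)⁻¹) = y ^ 2) :
    ∀ n k, 1 ≤ k → k + n = N → vsum (LS' b y 1 k n) + BK b y k 0 = BW (Y (k - 1)) +
      ∑ i ∈ range (n + 1), lett N b U (k + i) + ∑ j ∈ range n, 2 * BW (Y (k + j)) := by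
  intro n
  induction n with
  | zero =>
    intro k hk hn
    rw [add_zero] at hn
    subst hn
    have h1 := h.vol_last hy
    rw [tele] at h1
    rw [LS_zero, vsum_run, sum_range_one, sum_range_zero, add_zero, add_zero, h1, add_comm,
      show (b k).natAbs - 1 - 1 = (b k).natAbs - 2 by omega]
    congr 1
    exact sum_congr rfl fun l _ => by rw [add_comm 1 l]
  | succ n ih =>
    intro k hk hn
    have h1 := h.vol_mid hy hk (by omega)
    have h2 := ih (k + 1) (by omega) (by omega)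
    have h3 := BK_turn (b := b) (y := y) (h.b0 k (by omega)) (h.b0 (k + 1) (by omega))
    have hb := h.b0 k (by omega)
    obtain ⟨m, hm⟩ : ∃ m, (b k).natAbs = m + 1 := ⟨(b k).natAbs - 1, by omega⟩
    rw [hm, sum_range_succ] at h1
    have h4 := tele (BK b y k) m
    rw [LS_succ, vsum_append, vsum_append, vsum_run, vsum_if, ← h3,
      sum_range_succ' (fun i => lett N b U (k + i)) (n + 1),
      sum_range_succ' (fun j => 2 * BW (Y (k + j))) n, hm, Nat.add_sub_cancel]
    rw [hm] at h3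
    simp only [add_zero]
    rw [Nat.add_sub_cancel] at h2
    have e1 : ∑ i ∈ range (n + 1), lett N b U (k + (i + 1)) = ∑ i ∈ range (n + 1), lett N b U (k + 1 + i) :=
      sum_congr rfl fun i _ => by rw [add_assoc, add_comm i 1]
    have e2 : ∑ j ∈ range n, 2 * BW (Y (k + (j + 1))) = ∑ j ∈ range n, 2 * BW (Y (k + 1 + j)) :=
      sum_congr rfl fun i _ => by rw [add_assoc, add_comm i 1]
    have e3 : ∑ l ∈ range m, 2 * BK b y k (1 + l) = ∑ l ∈ range m, 2 * BK b y k (l + 1) :=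
      sum_congr rfl fun l _ => by rw [add_comm 1 l]
    rw [e1, e2, e3]
    linarith

/-- The volume is the sum over the layers of the Markoff map. -/
theorem GlueN.vol (h : GlueN N b Y U) (hy : (1 - U 0 1) * (1 - (U 0 0)⁻¹) = y ^ 2) :
    vsum (LS' b y 2 0 N) = ∑ j ∈ range N, 2 * BW (Y j) + ∑ i ∈ range (N + 1), lett N b U i := by
  obtain ⟨n, rfl⟩ : ∃ n, N = n + 1 := ⟨N - 1, by have := h.hN; omega⟩
  have h1 := h.vol_first hy
  have h2 := h.vol_list hy n 1 le_rfl (by omega)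
  have h3 := BK_turn (b := b) (y := y) (h.b0 0 (by omega)) (h.b0 1 (by omega))
  rw [LS_succ, vsum_append, vsum_append, vsum_run, vsum_if, ← h3, sum_range_succ' _ (n + 1),
    sum_range_succ' _ n]
  have e1 : ∑ i ∈ range (n + 1), lett (n + 1) b U (i + 1) = ∑ i ∈ range (n + 1), lett (n + 1) b U (1 + i) :=
    sum_congr rfl fun i _ => by rw [add_comm i 1]
  have e2 : ∑ j ∈ range n, 2 * BW (Y (j + 1)) = ∑ j ∈ range n, 2 * BW (Y (1 + j)) :=
    sum_congr rfl fun i _ => by rw [add_comm i 1]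
  rw [e1, e2]
  simp only [Nat.sub_self, zero_add] at h2 h3 ⊢
  linarith

end

end Pool.Agent.Work.MP_b30479_gtS.G2

end

section

/-!
# The Sakuma-Weeks triangulation of the original word

From a solution of the gluing equations of the merged word to the Markoff map of the alternating
word `a`.
-/

namespace Pool.Agent.Work.MP_b30479_gtS.G2

open Finset
open Pool.Agent.Work.MP_b30479_gtS.LT (BW)

/-- positivity of the Sakuma-Weeks tetrahedra in terms of the chains: inner layers, and turning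
points between digits of opposite signs -/
structure UPos {M : ℕ} (b : Fin (M + 2) → ℤ) (U : Fin (M + 2) → ℕ → ℂ) : Prop where
  run : ∀ i, ∀ l, 1 ≤ l → l + (if i = 0 ∨ i = Fin.last (M + 1) then 2 else 1) ≤ (b i).natAbs →
    0 < sI (b i) * ((1 - U i (l + 1)) / (1 - U i l)).im
  turn : ∀ j : Fin (M + 1), b j.castSucc * b j.succ < 0 →
    0 < sI (b j.succ) * ((1 - U j.succ 1) / (1 - U j.succ 0)).im

/-- extension to the natural numbers -/
def xt {α : Type} {n : ℕ} (d : α) (f : Fin n → α) (k : ℕ) : α := if h : k < n then f ⟨k, h⟩ else d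

lemma xt_eq {α : Type} {n : ℕ} (d : α) (f : Fin n → α) (i : Fin n) : xt d f i = f i := by
  unfold xt
  rw [dif_pos i.2]

lemma xt_of {α : Type} {n : ℕ} (d : α) (f : Fin n → α) {k : ℕ} (h : k < n) : xt d f k = f ⟨k, h⟩ := by
  unfold xt
  rw [dif_pos h]

lemma ite_zero {α : Type} {M : ℕ} (i : Fin (M + 2)) (x y : α) :
    (if (i : ℕ) = 0 then x else y) = if i = 0 then x else y := by
  by_cases h : i = 0
  · rw [if_pos h, if_pos (by rw [h]; rfl)]
  · rw [if_neg h, if_neg (fun h' : (i : ℕ) = 0 => h (Fin.ext h'))]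

lemma ite_last {α : Type} {M : ℕ} (i : Fin (M + 2)) (x y : α) :
    (if (i : ℕ) = M + 1 then x else y) = if i = Fin.last (M + 1) then x else y := by
  by_cases h : i = Fin.last (M + 1)
  · rw [if_pos h, if_pos (by rw [h]; rfl)]
  · rw [if_neg h, if_neg (fun h' : (i : ℕ) = M + 1 => h (Fin.ext h'))]

lemma ofFn_dig {M : ℕ} (b : Fin (M + 2) → ℤ) : List.ofFn b = dig (xt 1 b) 0 (M + 1) := by
  unfold dig
  apply List.ext_getElem
  · simp
  · intro i h1 h2
    simp only [List.length_ofFn] at h1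
    simp only [List.getElem_ofFn, List.getElem_map, List.getElem_range', zero_add, one_mul]
    rw [xt_of 1 b h1]

section
variable {M : ℕ} {b : Fin (M + 2) → ℤ} {Y : Fin (M + 1) → ℂ} {U : Fin (M + 2) → ℕ → ℂ}

lemma glueN_of (hG : Glue b Y U) (hb : ∀ i, b i ≠ 0) (h0 : 2 ≤ (b 0).natAbs)
    (hl : 2 ≤ (b (Fin.last (M + 1))).natAbs) (hY0 : ∀ j, Y j ≠ 0) (hY1 : ∀ j, Y j ≠ 1)
    (hU : UPos b U) : GlueN (M + 1) (xt 1 b) (xt 1 Y) (xt (fun _ => 1) U) where
  hN := by omega
  b0 := fun j hj => by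
    rw [xt_of 1 b (by omega : j < M + 2)]
    exact hb _
  first2 := by
    rw [xt_of 1 b (by omega : 0 < M + 2)]
    exact h0
  last2 := by
    rw [xt_of 1 b (by omega : M + 1 < M + 2)]
    exact hl
  Y0 := fun j hj => by
    rw [xt_of 1 Y hj]
    exact hY0 _
  Y1 := fun j hj => by
    rw [xt_of 1 Y hj]
    exact hY1 _
  first := by
    rw [xt_of 1 b (by omega : 0 < M + 2), xt_of 1 Y (by omega : 0 < M + 1),
      xt_of (fun _ => 1) U (by omega : 0 < M + 2)]
    exact hG.first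
  last := by
    rw [xt_of 1 b (by omega : M + 1 < M + 2), Nat.add_sub_cancel, xt_of 1 Y (by omega : M < M + 1),
      xt_of (fun _ => 1) U (by omega : M + 1 < M + 2)]
    exact hG.last
  mid := fun j hj hj' => by
    obtain ⟨m, rfl⟩ : ∃ m, j = m + 1 := ⟨j - 1, by omega⟩
    rw [xt_of 1 b (by omega : m + 1 < M + 2), Nat.add_sub_cancel, xt_of 1 Y (by omega : m < M + 1),
      xt_of 1 Y (by omega : m + 1 < M + 1), xt_of (fun _ => 1) U (by omega : m + 1 < M + 2)]
    exact hG.mid ⟨m, by omega⟩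
  turn := fun j hj => by
    have h := hG.turn ⟨j, hj⟩
    rw [xt_of 1 b (by omega : j < M + 2), xt_of 1 Y hj, xt_of 1 b (by omega : j + 1 < M + 2),
      xt_of (fun _ => 1) U (by omega : j + 1 < M + 2), xt_of (fun _ => 1) U (by omega : j < M + 2),
      xt_of (fun _ => 1) U (by omega : 0 < M + 2)]
    unfold nbr at h
    by_cases hj0 : j = 0
    · subst hj0
      simpa using h
    · rw [if_neg hj0]
      rw [if_neg (fun h => hj0 (by simpa using congrArg Fin.val h))] at h
      exact h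
  pos := fun i hi l hl1 hl2 => by
    rw [xt_of 1 b (by omega : i < M + 2)] at hl2 ⊢
    rw [xt_of (fun _ => 1) U (by omega : i < M + 2)]
    refine hU.run ⟨i, by omega⟩ l hl1 ?_
    have e : ((⟨i, by omega⟩ : Fin (M + 2)) = 0 ∨ (⟨i, by omega⟩ : Fin (M + 2)) = Fin.last (M + 1)) ↔
        (i = 0 ∨ i = M + 1) := by
      simp [Fin.ext_iff]
    by_cases hc : i = 0 ∨ i = M + 1
    · rw [if_pos hc] at hl2
      rw [if_pos (e.mpr hc)]
      exact hl2
    · rw [if_neg hc] at hl2
      rw [if_neg (fun h => hc (e.mp h))]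
      exact hl2
  posT := fun j hj hs => by
    rw [xt_of 1 b (by omega : j < M + 2), xt_of 1 b (by omega : j + 1 < M + 2)] at hs
    rw [xt_of 1 b (by omega : j + 1 < M + 2), xt_of (fun _ => 1) U (by omega : j + 1 < M + 2)]
    exact hU.turn ⟨j, hj⟩ hs

/-- the Markoff map of the signed word -/
theorem glue_sw (hG : Glue b Y U) (hb : ∀ i, b i ≠ 0) (h0 : 2 ≤ (b 0).natAbs)
    (hl : 2 ≤ (b (Fin.last (M + 1))).natAbs) (hY0 : ∀ j, Y j ≠ 0) (hY1 : ∀ j, Y j ≠ 1)
    (hU : UPos b U) : ∃ y : ℂ, y ≠ 0 ∧ fin y 0 (Complex.I * y) (List.ofFn b) = 0 ∧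
      (∀ x ∈ Lys 2 y 0 (Complex.I * y) (List.ofFn b), 0 < (zL x).im) ∧
      vsum (Lys 2 y 0 (Complex.I * y) (List.ofFn b)) = swVol b Y U := by
  have h := glueN_of hG hb h0 hl hY0 hY1 hU
  obtain ⟨y, hy⟩ := IsAlgClosed.exists_pow_nat_eq
    ((1 - xt (fun _ => 1) U 0 1) * (1 - (xt (fun _ => 1) U 0 0)⁻¹)) (n := 2) (by norm_num)
  have hy' := hy.symm
  have hI := h.inv hy' 1 le_rfl h.hN
  refine ⟨y, hI.q0, ?_, ?_, ?_⟩
  · rw [ofFn_dig]
    exact h.fin_eq hy'
  · rw [ofFn_dig]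
    exact h.pos_all hy'
  · rw [ofFn_dig]
    have h1 := h.vol hy'
    have h2 : vsum (Lys 2 y 0 (Complex.I * y) (dig (xt 1 b) 0 (M + 1))) = vsum (LS' (xt 1 b) y 2 0 (M + 1)) := rfl
    rw [h2, h1, swVol]
    congr 1
    · rw [sum_range]
      exact sum_congr rfl fun j _ => by rw [xt_eq]
    · rw [sum_range]
      refine sum_congr rfl fun i _ => ?_
      unfold lett
      rw [xt_eq, xt_eq]
      have e : nlN (M + 1) (xt 1 b) i = nlet b i := by
        unfold nlN nlet
        rw [xt_eq]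
        have e : ((i : ℕ) = 0 ∨ (i : ℕ) = M + 1) ↔ (i = 0 ∨ i = Fin.last (M + 1)) := by
          rw [Fin.ext_iff, Fin.ext_iff]
          rfl
        by_cases hc : (i : ℕ) = 0 ∨ (i : ℕ) = M + 1
        · rw [if_pos hc, if_pos (e.mp hc)]
        · rw [if_neg hc, if_neg (fun h => hc (e.mpr h))]
      rw [e]

end

/-! ### from lists to the Markoff map of the word `a` -/

section
variable {b : ℕ → ℤ} {y : ℂ}

lemma all_LS {P : Lay → Prop} : ∀ n k kk, (∀ j, k ≤ j → j < k + n → b j * b (j + 1) < 0) →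
    (∀ x ∈ LS' b y kk k n, P x) → ∀ i ≤ n, ∀ l, (if i = 0 then kk else 1) ≤ l →
      l ≤ (if i = n then (b (k + i)).natAbs - 2 else (b (k + i)).natAbs) →
      (i = n → 2 ≤ (b (k + n)).natAbs) → 1 ≤ l → P (LK b y (k + i) l) := by
  intro n
  induction n with
  | zero =>
    intro k kk _ hP i hi l h1 h2 h3 h4
    have hi0 : i = 0 := by omega
    subst hi0
    rw [if_pos rfl] at h1 h2
    have := h3 rfl
    rw [add_zero] at *
    refine hP _ ?_
    rw [LS_zero, List.mem_map]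
    exact ⟨l, by rw [List.mem_range'_1]; omega, rfl⟩
  | succ n ih =>
    intro k kk hs hP i hi l h1 h2 h3 h4
    rw [LS_succ] at hP
    rcases Nat.eq_zero_or_pos i with rfl | hi0
    · rw [if_pos rfl] at h1
      rw [if_neg (by omega), add_zero] at h2
      rw [add_zero]
      refine hP _ ?_
      rw [List.mem_append, List.mem_append]
      left
      rcases Nat.lt_or_ge l (b k).natAbs with h5 | h5
      · left
        rw [List.mem_map]
        exact ⟨l, by rw [List.mem_range'_1]; omega, rfl⟩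
      · right
        rw [if_pos (hs k le_rfl (by omega)), List.mem_singleton, show l = (b k).natAbs by omega]
    · obtain ⟨m, rfl⟩ : ∃ m, i = m + 1 := ⟨i - 1, by omega⟩
      have h6 := ih (k + 1) 1 (fun j hj hj' => hs j (by omega) (by omega))
        (fun x hx => hP x (by rw [List.mem_append]; right; exact hx)) m (by omega) l
        (by split_ifs <;> exact h4) (by
          rw [show k + 1 + m = k + (m + 1) by omega]
          by_cases hm : m = n
          · subst hm
            rw [if_pos rfl] at h2 ⊢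
            exact h2
          · rw [if_neg (by omega)] at h2
            rw [if_neg hm]
            exact h2) (fun hm => by
          rw [show k + 1 + n = k + (n + 1) by omega]
          exact h3 (by omega)) h4
      rw [show k + 1 + m = k + (m + 1) by omega] at h6
      exact h6

lemma sum_LS : ∀ n k kk, (∀ j, k ≤ j → j < k + n → b j * b (j + 1) < 0) →
    (∀ j, k ≤ j → j ≤ k + n → b j ≠ 0) → kk ≤ (b k).natAbs → 2 ≤ (b (k + n)).natAbs →
    vsum (LS' b y kk k n) = ∑ i ∈ range (n + 1), ∑ l ∈ Icc (if i = 0 then kk else 1)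
      (if i = n then (b (k + i)).natAbs - 2 else (b (k + i)).natAbs), 2 * BK b y (k + i) l := by
  intro n
  induction n with
  | zero =>
    intro k kk _ _ hkk h2
    rw [add_zero] at h2
    rw [LS_zero, vsum_run, sum_range_one, if_pos rfl, if_pos rfl, add_zero,
      ← Finset.Ico_add_one_right_eq_Icc, sum_Ico_eq_sum_range,
      show (b k).natAbs - 1 - kk = (b k).natAbs - 2 + 1 - kk by omega]
  | succ n ih =>
    intro k kk hs hb hkk h2
    have hb1 := hb (k + 1) (by omega) (by omega)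
    have h3 := ih (k + 1) 1 (fun j hj hj' => hs j (by omega) (by omega))
      (fun j hj hj' => hb j (by omega) (by omega)) (by omega)
      (by rw [show k + 1 + n = k + (n + 1) by omega]; exact h2)
    rw [LS_succ, vsum_append, vsum_append, vsum_run, vsum_if, if_pos (hs k le_rfl (by omega)), h3,
      sum_range_succ' _ (n + 1), if_pos rfl, if_neg (by omega : ¬ 0 = n + 1), add_zero, add_comm]
    congr 1
    · refine sum_congr rfl fun i hi => ?_
      rw [mem_range] at hi
      rw [show k + 1 + i = k + (i + 1) by omega, if_neg (by omega : ¬ i + 1 = 0)]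
      have e1 : (if i = 0 then 1 else 1) = 1 := by split_ifs <;> rfl
      have e2 : (i = n) ↔ (i + 1 = n + 1) := by omega
      rw [e1]
      simp only [e2]
    · rw [← Finset.Ico_add_one_right_eq_Icc, sum_Ico_eq_sum_range,
        show (b k).natAbs + 1 - kk = ((b k).natAbs - kk) + 1 by omega, sum_range_succ,
        show kk + ((b k).natAbs - kk) = (b k).natAbs by omega]

end

section
variable {M : ℕ} (a : Fin (M + 2) → ℕ)

lemma altf_natAbs (i : Fin (M + 2)) : (altf (M := M + 1) a i).natAbs = a i := by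
  unfold altf
  rw [Int.natAbs_mul, Int.natAbs_pow]
  simp

lemma altf_pos_iff (ha : ∀ i, 1 ≤ a i) (i : Fin (M + 2)) :
    0 < altf (M := M + 1) a i ↔ Even (i : ℕ) := by
  have h := ha i
  unfold altf
  rcases Nat.even_or_odd (i : ℕ) with h1 | h1
  · rw [h1.neg_one_pow]
    simp only [one_mul]
    constructor
    · intro _; exact h1
    · intro _; omega
  · rw [h1.neg_one_pow]
    constructor
    · intro h2; omega
    · intro h2
      exact absurd h1 (Nat.not_odd_iff_even.mpr h2)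

lemma altf_opp (ha : ∀ i, 1 ≤ a i) (j : Fin (M + 1)) :
    altf (M := M + 1) a j.castSucc * altf (M := M + 1) a j.succ < 0 := by
  have h1 : (0 : ℤ) < a j.castSucc := by exact_mod_cast ha _
  have h2 : (0 : ℤ) < a j.succ := by exact_mod_cast ha _
  unfold altf
  rw [Fin.val_castSucc, Fin.val_succ, pow_succ]
  have h3 : ((-1 : ℤ) ^ (j : ℕ)) * (-1) ^ (j : ℕ) = 1 := by rw [← mul_pow]; simp
  have h4 : (-1 : ℤ) ^ (j : ℕ) * a j.castSucc * ((-1) ^ (j : ℕ) * -1 * a j.succ) =
      -(a j.castSucc * a j.succ) := by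
    linear_combination -(a j.castSucc * a j.succ : ℤ) * h3
  rw [h4]
  have := mul_pos h1 h2
  omega

/-- from the layers of the alternating word to the Markoff map -/
theorem markoff_of {y : ℂ} (ha : ∀ i, 1 ≤ a i) (h0 : 2 ≤ a 0) (hl : 2 ≤ a (Fin.last (M + 1)))
    (h1 : fin y 0 (Complex.I * y) (List.ofFn (altf (M := M + 1) a)) = 0)
    (h2 : ∀ x ∈ Lys 2 y 0 (Complex.I * y) (List.ofFn (altf (M := M + 1) a)), 0 < (zL x).im) :
    ∃ (p : Fin (M + 2) → ℂ) (q : Fin (M + 2) → ℕ → ℂ), p 0 = y ∧ Markoff a p q ∧ SWPos a p q ∧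
      swVolume a p q = vsum (Lys 2 y 0 (Complex.I * y) (List.ofFn (altf (M := M + 1) a))) := by
  set b := xt 1 (altf (M := M + 1) a) with hb
  have hbn : ∀ i : Fin (M + 2), (b i).natAbs = a i := fun i => by rw [hb, xt_eq, altf_natAbs]
  have hbo : ∀ j, j < M + 1 → b j * b (j + 1) < 0 := by
    intro j hj
    rw [hb, xt_of _ _ (by omega : j < M + 2), xt_of _ _ (by omega : j + 1 < M + 2)]
    exact altf_opp a ha ⟨j, hj⟩
  have hb0 : ∀ j, j ≤ M + 1 → b j ≠ 0 := by
    intro j hj h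
    have := hbn ⟨j, by omega⟩
    have h3 := ha ⟨j, by omega⟩
    simp only at this
    rw [h] at this
    simp at this
    omega
  have hbl : (b (M + 1)).natAbs = a (Fin.last (M + 1)) := hbn (Fin.last (M + 1))
  have hshape : ∀ (i : Fin (M + 2)) (l : ℕ), swShape (fun i => (St b y i).1) (fun i l => Fk b y i l) i l =
      zL (LK b y i l) := by
    intro i l
    have h3 := altf_pos_iff a ha i
    have h4 : b i = altf (M := M + 1) a i := by rw [hb, xt_eq]
    unfold swShape LK lay zL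
    rw [h4]
    by_cases h5 : Even (i : ℕ)
    · rw [if_pos h5, if_pos (h3.mpr h5)]
      rfl
    · rw [if_neg h5, if_neg (fun h => h5 (h3.mp h))]
      rfl
  rw [ofFn_dig, ← hb] at h1 h2 ⊢
  refine ⟨fun i => (St b y i).1, fun i l => Fk b y i l, rfl, ⟨?_, ?_, ?_, ?_⟩, ?_, ?_⟩
  · exact ⟨rfl, rfl⟩
  · intro i l
    show (St b y i).1 * fan (St b y i).1 (St b y i).2.1 (St b y i).2.2 (l + 1) -
      fan (St b y i).1 (St b y i).2.1 (St b y i).2.2 l + fan (St b y i).1 (St b y i).2.1 (St b y i).2.2 l = _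
    exact sub_add_cancel _ _
  · intro j
    have h3 : b j * b (j + 1) < 0 := hbo j j.2
    have h4 := hbn j.castSucc
    rw [Fin.val_castSucc] at h4
    refine ⟨?_, rfl, ?_⟩
    · show Fk b y j (b j).natAbs = _
      rw [h4]
      rfl
    · show nq (b j) (b (j + 1)) _ _ _ = _
      rw [nq, if_pos h3, h4]
      rfl
  · have h3 := fin_St (b := b) (y := y) (M + 1) 0
    rw [zero_add] at h3
    have h4 : Fk b y (M + 1) (b (M + 1)).natAbs = 0 := h3.symm.trans h1
    rw [hbl] at h4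
    exact h4
  · intro i l hil
    rw [hshape]
    unfold lays at hil
    rw [mem_Icc] at hil
    have h3 := all_LS (b := b) (y := y) (P := fun x => 0 < (zL x).im) (M + 1) 0 2
      (fun j _ hj => hbo j (by omega)) h2 i (by omega) l
      (by
        rw [ite_zero]
        exact hil.1)
      (by
        rw [ite_last, zero_add, hbn]
        exact hil.2)
      (fun _ => by
        rw [zero_add, hbl]
        exact hl)
      (by
        have := hil.1
        split_ifs at this <;> omega)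
    rw [zero_add] at h3
    exact h3
  · have h3 := sum_LS (b := b) (y := y) (M + 1) 0 2 (fun j _ hj => hbo j (by omega))
      (fun j _ hj => hb0 j (by omega)) (by
        have := hbn 0
        rw [Fin.val_zero] at this
        omega) (by
        rw [zero_add]
        omega)
    have h4 : vsum (Lys 2 y 0 (Complex.I * y) (dig b 0 (M + 1))) = vsum (LS' b y 2 0 (M + 1)) := rfl
    rw [h4, h3, sum_range, swVolume]
    refine sum_congr rfl fun i _ => ?_
    rw [ite_zero, ite_last, zero_add, hbn]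
    exact sum_congr rfl fun l _ => by rw [hshape, BK]

end

end Pool.Agent.Work.MP_b30479_gtS.G2

end
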