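import Pool.Agent.Work.MP_b30479_gt.TBS.LT.Rogers

section

/-!
# The dilogarithm: derivative, reflection

`li2 z = ∑ z^k/k²` on the unit disc, `li2' z = -Log (1-z) / z` off `[1,∞)`, and Euler's reflection
`li2 z + li2 (1-z) + Log z Log (1-z) = π²/6` for ALL `z ≠ 0, 1` (on `(1,∞)` with the value of the
integral, that is with `Log (1-z) = log (z-1) + πi`).
-/

namespace Pool.Agent.Work.MP_b30479_gtS.G2

open Filter Topology MeasureTheory
open Pool.Agent.Work.MP_b30479_gtS.LT (li2 li2_ee ee log_one_sub_ee)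

namespace XR

private lemma summable_inv2 : Summable fun k : ℕ => (1 : ℝ) / ((k : ℝ) + 1) ^ 2 := by
  have := (summable_nat_add_iff 1).2 (Real.summable_one_div_nat_pow.2 one_lt_two)
  simpa using this

private lemma norm_kp (k : ℕ) : ‖(k : ℂ) + 1‖ = (k : ℝ) + 1 := by
  have := Complex.norm_natCast (k + 1)
  push_cast at this
  exact this

/-- the dilogarithm series -/
noncomputable def dl (z : ℂ) : ℂ := ∑' k : ℕ, z ^ (k + 1) / ((k : ℂ) + 1) ^ 2

/-- the series of `-log (1-z) / z` -/
noncomputable def S (z : ℂ) : ℂ := ∑' k : ℕ, z ^ k / ((k : ℂ) + 1)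

private lemma norm_dl_le {z : ℂ} (hz : ‖z‖ ≤ 1) (k : ℕ) :
    ‖z ^ (k + 1) / ((k : ℂ) + 1) ^ 2‖ ≤ 1 / ((k : ℝ) + 1) ^ 2 := by
  rw [norm_div, norm_pow, norm_pow, norm_kp]
  gcongr
  exact pow_le_one₀ (norm_nonneg _) hz

private lemma norm_S_le {z : ℂ} {r : ℝ} (hz : ‖z‖ ≤ r) (k : ℕ) :
    ‖z ^ k / ((k : ℂ) + 1)‖ ≤ r ^ k := by
  rw [norm_div, norm_pow, norm_kp]
  have h1 : (1 : ℝ) ≤ (k : ℝ) + 1 := by
    have : (0 : ℝ) ≤ k := Nat.cast_nonneg k
    linarith only []
  exact (div_le_self (by positivity) h1).trans (pow_le_pow_left₀ (norm_nonneg _) hz k)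

lemma continuousOn_dl : ContinuousOn dl {z | ‖z‖ ≤ 1} := by
  unfold dl
  refine continuousOn_tsum (u := fun k : ℕ => (1 : ℝ) / ((k : ℝ) + 1) ^ 2) ?_ summable_inv2 ?_
  · intro k
    apply Continuous.continuousOn
    fun_prop
  · intro k z hz
    exact norm_dl_le hz k

lemma continuousOn_S {r : ℝ} (hr0 : 0 ≤ r) (hr : r < 1) : ContinuousOn S {z | ‖z‖ ≤ r} := by
  unfold S
  refine continuousOn_tsum (u := fun k : ℕ => r ^ k) ?_ (summable_geometric_of_lt_one hr0 hr) ?_
  · intro k
    apply Continuous.continuousOn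
    fun_prop
  · intro k z hz
    exact norm_S_le hz k

lemma mul_S {z : ℂ} (hz : ‖z‖ < 1) : z * S z = -Complex.log (1 - z) := by
  have h := Complex.hasSum_taylorSeries_neg_log hz
  have h2 := (hasSum_nat_add_iff' 1).2 h
  simp only [Finset.sum_range_one, CharP.cast_eq_zero, div_zero, sub_zero, Nat.cast_add,
    Nat.cast_one] at h2
  rw [← h2.tsum_eq]
  unfold S
  rw [← tsum_mul_left]
  congr 1
  ext k
  rw [pow_succ]
  ring

lemma hasDerivAt_dl {z : ℂ} (hz : ‖z‖ < 1) : HasDerivAt dl (S z) z := by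
  obtain ⟨r, hr1, hr2⟩ := exists_between hz
  have hr0 : 0 ≤ r := (norm_nonneg z).trans hr1.le
  set D : Set ℂ := Metric.ball 0 r with hD
  have hs : Summable fun k : ℕ => r ^ k := summable_geometric_of_lt_one hr0 hr2
  have hd : ∀ (k : ℕ), ∀ y ∈ D, HasDerivAt (fun y : ℂ => y ^ (k + 1) / ((k : ℂ) + 1) ^ 2)
      (y ^ k / ((k : ℂ) + 1)) y := by
    intro k y _
    have h1 := ((hasDerivAt_id y).pow (k + 1)).div_const (((k : ℂ) + 1) ^ 2)
    refine h1.congr_deriv ?_
    have hk : ((k : ℂ) + 1) ≠ 0 := by exact_mod_cast Nat.succ_ne_zero k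
    simp only [Nat.add_sub_cancel, Nat.cast_add, Nat.cast_one, id]
    field_simp
  have hb : ∀ (k : ℕ), ∀ y ∈ D, ‖y ^ k / ((k : ℂ) + 1)‖ ≤ r ^ k := by
    intro k y hy
    exact norm_S_le (mem_ball_zero_iff.1 hy).le k
  have hzD : z ∈ D := mem_ball_zero_iff.2 hr1
  exact hasDerivAt_tsum_of_isPreconnected hs Metric.isOpen_ball
    (convex_ball (0 : ℂ) r).isPreconnected hd hb hzD
    (Summable.of_norm_bounded summable_inv2 (norm_dl_le hz.le)) hzD

lemma dl_zero : dl 0 = 0 := by
  unfold dl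
  simp

lemma dl_one : dl 1 = (Real.pi ^ 2 / 6 : ℂ) := by
  have h0 : HasSum (fun k : ℕ => (1 : ℝ) / ((k : ℝ) + 1) ^ 2) (Real.pi ^ 2 / 6) := by
    have h1 := (hasSum_nat_add_iff' 1).2 hasSum_zeta_two
    simpa using h1
  have h9 := (Complex.hasSum_ofReal.mpr h0).tsum_eq
  unfold dl
  push_cast at h9
  simpa using h9

private lemma hasDerivAt_ofReal' (t : ℝ) : HasDerivAt (fun t : ℝ => ((t : ℝ) : ℂ)) 1 t :=
  Complex.ofRealCLM.hasDerivAt

/-- the dilogarithm on the disc -/
lemma li2_eq_dl {z : ℂ} (hz : ‖z‖ < 1) : li2 z = dl z := by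
  have hd : ∀ t ∈ Set.uIcc (0 : ℝ) 1, HasDerivAt (fun t : ℝ => dl (t * z)) (S (t * z) * z) t := by
    intro t ht
    rw [Set.uIcc_of_le zero_le_one] at ht
    have h1 : ‖(t : ℂ) * z‖ < 1 := by
      rw [norm_mul, Complex.norm_real, Real.norm_of_nonneg ht.1]
      calc t * ‖z‖ ≤ 1 * ‖z‖ := mul_le_mul_of_nonneg_right ht.2 (norm_nonneg _)
        _ < 1 := by rwa [one_mul]
    have h2 := (hasDerivAt_dl h1).comp_of_eq t ((hasDerivAt_ofReal' t).mul_const z) rfl
    rw [one_mul] at h2
    exact h2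
  have hc : ContinuousOn (fun t : ℝ => S (t * z) * z) (Set.uIcc (0 : ℝ) 1) := by
    rw [Set.uIcc_of_le zero_le_one]
    apply ContinuousOn.mul _ continuousOn_const
    refine (continuousOn_S (norm_nonneg z) hz).comp (Continuous.continuousOn (by fun_prop)) ?_
    intro t ht
    show ‖(t : ℂ) * z‖ ≤ ‖z‖
    rw [norm_mul, Complex.norm_real, Real.norm_of_nonneg ht.1]
    exact mul_le_of_le_one_left (norm_nonneg _) ht.2
  have h := intervalIntegral.integral_eq_sub_of_hasDerivAt hd hc.intervalIntegrable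
  rw [Complex.ofReal_one, one_mul, Complex.ofReal_zero, zero_mul, dl_zero, sub_zero] at h
  rw [← h]
  unfold li2
  rw [← intervalIntegral.integral_neg]
  refine intervalIntegral.integral_congr_ae ?_
  filter_upwards with t ht
  rw [Set.uIoc_of_le zero_le_one] at ht
  have h1 : ‖(t : ℂ) * z‖ < 1 := by
    rw [norm_mul, Complex.norm_real, Real.norm_of_nonneg ht.1.le]
    calc t * ‖z‖ ≤ 1 * ‖z‖ := mul_le_mul_of_nonneg_right ht.2 (norm_nonneg _)
      _ < 1 := by rwa [one_mul]
  have h2 := mul_S h1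
  have ht0 : (t : ℂ) ≠ 0 := by exact_mod_cast ht.1.ne'
  rw [neg_eq_iff_eq_neg, div_eq_iff ht0]
  linear_combination h2

lemma li2_zero : li2 0 = 0 := by
  rw [li2_eq_dl (by simp), dl_zero]

lemma continuousAt_li2_zero : ContinuousAt li2 0 := by
  have h1 : ContinuousAt dl 0 := (hasDerivAt_dl (by simp : ‖(0 : ℂ)‖ < 1)).continuousAt
  refine h1.congr ?_
  filter_upwards [Metric.ball_mem_nhds (0 : ℂ) one_pos] with x hx
  exact (li2_eq_dl (mem_ball_zero_iff.1 hx)).symm

/-! ### the strip -/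

/-- the inverse of `ee` on `ℂ ∖ [0, ∞)` -/
noncomputable def wl (z : ℂ) : ℂ := 1 / 2 + Complex.log (-z) / (2 * Real.pi * Complex.I)

lemma two_pi_I_ne : (2 * Real.pi * Complex.I : ℂ) ≠ 0 := by
  have := Real.pi_ne_zero
  simp [this]

lemma wl_re (z : ℂ) : (wl z).re = 1 / 2 + (-z).arg / (2 * Real.pi) := by
  unfold wl
  have e : Complex.log (-z) / (2 * Real.pi * Complex.I) =
      ((1 / (2 * Real.pi) : ℝ) : ℂ) * (-(Complex.log (-z) * Complex.I)) := by
    have := Real.pi_ne_zero
    push_cast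
    rw [div_eq_mul_inv, mul_inv, mul_inv, Complex.inv_I]
    field_simp
  rw [Complex.add_re, e, Complex.re_ofReal_mul, Complex.neg_re, Complex.mul_re, Complex.log_im]
  simp
  ring

lemma wl_mem {z : ℂ} (h : -z ∈ Complex.slitPlane) : wl z ∈ VOL.strip := by
  have hpi := Real.pi_pos
  have h1 := Complex.neg_pi_lt_arg (-z)
  have h2 := (Complex.arg_le_pi (-z)).lt_of_ne (Complex.slitPlane_arg_ne_pi h)
  constructor
  · rw [wl_re]
    have : -(1 / 2) < (-z).arg / (2 * Real.pi) := by
      rw [lt_div_iff₀ (by positivity)]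
      linarith only [h1]
    linarith only [this]
  · rw [wl_re]
    have : (-z).arg / (2 * Real.pi) < 1 / 2 := by
      rw [div_lt_iff₀ (by positivity)]
      linarith only [h2]
    linarith only [this]

lemma ee_wl {z : ℂ} (h : -z ∈ Complex.slitPlane) : ee (wl z) = z := by
  have h0 := Complex.slitPlane_ne_zero h
  unfold ee wl
  have e : 2 * Real.pi * Complex.I * (1 / 2 + Complex.log (-z) / (2 * Real.pi * Complex.I)) =
      Real.pi * Complex.I + Complex.log (-z) := by
    have := two_pi_I_ne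
    field_simp
  rw [e, Complex.exp_add, Complex.exp_pi_mul_I, Complex.exp_log h0]
  ring

lemma slit_mem {z : ℂ} (h : -z ∈ Complex.slitPlane) : ∀ᶠ x in 𝓝 z, -x ∈ Complex.slitPlane :=
  (continuous_neg.tendsto z).eventually (Complex.isOpen_slitPlane.mem_nhds h)

lemma slit_mem' {z : ℂ} (h : 1 - z ∈ Complex.slitPlane) :
    ∀ᶠ x in 𝓝 z, 1 - x ∈ Complex.slitPlane :=
  ((continuous_const.sub continuous_id).tendsto z).eventually
    (Complex.isOpen_slitPlane.mem_nhds h)

lemma hasDerivAt_wl {z : ℂ} (h : -z ∈ Complex.slitPlane) :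
    HasDerivAt wl (1 / z / (2 * Real.pi * Complex.I)) z := by
  have h1 : HasDerivAt (fun z : ℂ => Complex.log (-z)) (-1 / -z) z :=
    (hasDerivAt_neg z).clog h
  rw [neg_div_neg_eq] at h1
  exact (h1.div_const _).const_add _

/-- the two cases -/
lemma cases_slit {z : ℂ} (h1 : 1 - z ∈ Complex.slitPlane) (h0 : z ≠ 0) :
    -z ∈ Complex.slitPlane ∨ ‖z‖ < 1 := by
  by_cases hs : -z ∈ Complex.slitPlane
  · exact Or.inl hs
  · right
    have hx : 0 ≤ z.re ∧ z.im = 0 := by
      rw [Complex.mem_slitPlane_iff, not_or, not_lt, not_not] at hs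
      simpa using hs
    have e : z = ((z.re : ℝ) : ℂ) := by
      apply Complex.ext
      · simp
      · simpa using hx.2
    have h2 : z.re < 1 := by
      rw [Complex.mem_slitPlane_iff] at h1
      rcases h1 with h | h
      · simpa using h
      · exact absurd (by simpa using hx.2) h
    rw [e, Complex.norm_real, Real.norm_of_nonneg hx.1]
    exact h2

/-- the derivative of the dilogarithm -/
theorem hasDerivAt_li2 {z : ℂ} (h1 : 1 - z ∈ Complex.slitPlane) (h0 : z ≠ 0) :
    HasDerivAt li2 (-Complex.log (1 - z) / z) z := by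
  rcases cases_slit h1 h0 with hs | hs
  · have hw := hasDerivAt_wl hs
    have hm := wl_mem hs
    have e0 : li2 =ᶠ[𝓝 z] fun z => -(2 * Real.pi * Complex.I) * VOL.Fh (wl z) +
        Real.pi ^ 2 * (wl z - 1 / 2) ^ 2 - Real.pi ^ 2 / 12 := by
      filter_upwards [slit_mem hs] with x hx
      rw [← li2_ee (wl_mem hx), ee_wl hx]
    have d1 : HasDerivAt (fun z => VOL.Fh (wl z)) (VOL.ph (wl z) *
        (1 / z / (2 * Real.pi * Complex.I))) z := (VOL.hasDerivAt_Fh hm).comp z hw
    have d2 := ((d1.const_mul (-(2 * Real.pi * Complex.I) : ℂ)).add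
      (((hw.sub_const (1 / 2 : ℂ)).pow 2).const_mul (Real.pi ^ 2 : ℂ))).sub_const
      ((Real.pi : ℂ) ^ 2 / 12)
    refine (d2.congr_of_eventuallyEq e0).congr_deriv ?_
    have h3 := log_one_sub_ee hm
    rw [ee_wl hs] at h3
    rw [h3]
    have hp : (Real.pi : ℂ) ≠ 0 := by exact_mod_cast Real.pi_ne_zero
    have hI := Complex.I_sq
    have hI0 := Complex.I_ne_zero
    simp only [Nat.add_one_sub_one, pow_one, Nat.cast_ofNat]
    field_simp
    linear_combination ((2 * Real.pi * (wl z - 1 / 2)) : ℂ) * hI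
  · have h2 := hasDerivAt_dl hs
    have e0 : li2 =ᶠ[𝓝 z] dl := by
      filter_upwards [Metric.isOpen_ball.mem_nhds (mem_ball_zero_iff.2 hs)] with x hx
      exact li2_eq_dl (mem_ball_zero_iff.1 hx)
    refine (h2.congr_of_eventuallyEq e0).congr_deriv ?_
    rw [← mul_S hs]
    field_simp

/-! ### reflection -/

/-- `Log z Log (1-z) → 0` as `z → 1` -/
lemma tendsto_loglog : Tendsto (fun z : ℂ => Complex.log z * Complex.log (1 - z)) (𝓝 1) (𝓝 0) := by
  have hpi := Real.pi_pos
  have h1 : Tendsto (fun z : ℂ => 3 / 2 * (|‖1 - z‖ * Real.log ‖1 - z‖| + Real.pi * ‖1 - z‖))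
      (𝓝 1) (𝓝 0) := by
    have hc : Continuous fun z : ℂ => 3 / 2 * (|‖1 - z‖ * Real.log ‖1 - z‖| + Real.pi * ‖1 - z‖) := by
      have h2 : Continuous fun z : ℂ => ‖1 - z‖ := (continuous_const.sub continuous_id).norm
      exact continuous_const.mul (((Real.continuous_mul_log.comp h2).abs).add
        (continuous_const.mul h2))
    have h3 := hc.tendsto 1
    simpa using h3
  refine squeeze_zero_norm' ?_ h1
  filter_upwards [Metric.closedBall_mem_nhds (1 : ℂ) (by norm_num : (0 : ℝ) < 1 / 2)] with z hz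
  have h4 : ‖z - 1‖ ≤ 1 / 2 := by
    rwa [mem_closedBall_iff_norm] at hz
  have h5 : ‖Complex.log z‖ ≤ 3 / 2 * ‖1 - z‖ := by
    have := Complex.norm_log_one_add_half_le_self (z := z - 1) h4
    rwa [add_sub_cancel, ← norm_sub_rev] at this
  have h6 : ‖Complex.log (1 - z)‖ ≤ |Real.log ‖1 - z‖| + Real.pi := by
    refine (Complex.norm_le_abs_re_add_abs_im _).trans ?_
    rw [Complex.log_re, Complex.log_im]
    exact add_le_add le_rfl (Complex.abs_arg_le_pi _)
  rw [norm_mul]
  calc ‖Complex.log z‖ * ‖Complex.log (1 - z)‖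
      ≤ (3 / 2 * ‖1 - z‖) * (|Real.log ‖1 - z‖| + Real.pi) :=
        mul_le_mul h5 h6 (norm_nonneg _) (by positivity)
    _ = _ := by
        rw [abs_mul, abs_norm]
        ring

lemma tendsto_loglog' : Tendsto (fun z : ℂ => Complex.log z * Complex.log (1 - z)) (𝓝 0) (𝓝 0) := by
  have h1 : Tendsto (fun z : ℂ => 1 - z) (𝓝 0) (𝓝 1) := by
    have : Continuous fun z : ℂ => 1 - z := continuous_const.sub continuous_id
    have h2 := this.tendsto 0
    rwa [sub_zero] at h2
  refine (tendsto_loglog.comp h1).congr fun z => ?_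
  simp only [Function.comp]
  rw [sub_sub_cancel, mul_comm]

/-- the reflected sum -/
private noncomputable def R (z : ℂ) : ℂ := li2 z + li2 (1 - z) + Complex.log z * Complex.log (1 - z)

private lemma hasDerivAt_R {z : ℂ} (h0 : z ∈ Complex.slitPlane) (h1 : 1 - z ∈ Complex.slitPlane) :
    HasDerivAt R 0 z := by
  have hz : z ≠ 0 := Complex.slitPlane_ne_zero h0
  have hz1 : 1 - z ≠ 0 := Complex.slitPlane_ne_zero h1
  have d0 : HasDerivAt (fun z : ℂ => 1 - z) (-1) z := (hasDerivAt_id z).const_sub 1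
  have d1 := hasDerivAt_li2 h1 hz
  have d2 : HasDerivAt (fun z : ℂ => li2 (1 - z)) (-Complex.log (1 - (1 - z)) / (1 - z) * (-1)) z :=
    (hasDerivAt_li2 (z := 1 - z) (by rwa [sub_sub_cancel]) hz1).comp z d0
  have d3 := (Complex.hasDerivAt_log h0).mul (d0.clog h1)
  have d4 := (d1.add d2).add d3
  refine d4.congr_deriv ?_
  rw [sub_sub_cancel]
  field_simp
  ring

private lemma R_eq_half {z : ℂ} (h0 : z ∈ Complex.slitPlane) (h1 : 1 - z ∈ Complex.slitPlane) :
    R z = R (1 / 2) := by
  set g : ℝ → ℂ := fun t => 1 / 2 + t * (z - 1 / 2) with hg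
  have hgd : ∀ t, HasDerivAt g (z - 1 / 2) t := by
    intro t
    have h4 := ((hasDerivAt_ofReal' t).mul_const (z - 1 / 2)).const_add (1 / 2 : ℂ)
    rwa [one_mul] at h4
  have hre : ∀ t, (g t).re = (1 - t) * (1 / 2) + t * z.re := by
    intro t
    simp [hg]
    ring
  have him : ∀ t, (g t).im = t * z.im := by
    intro t
    simp [hg]
  have hmem : ∀ t ∈ Set.Icc (0 : ℝ) 1, g t ∈ Complex.slitPlane ∧ 1 - g t ∈ Complex.slitPlane := by
    intro t ht
    rw [Complex.mem_slitPlane_iff, Complex.mem_slitPlane_iff, Complex.sub_re, Complex.sub_im,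
      Complex.one_re, Complex.one_im, hre, him]
    by_cases hz : z.im = 0
    · have h2 : 0 < z.re := by
        rw [Complex.mem_slitPlane_iff] at h0
        rcases h0 with h | h
        · exact h
        · exact absurd hz h
      have h3 : z.re < 1 := by
        rw [Complex.mem_slitPlane_iff] at h1
        rcases h1 with h | h
        · simpa using h
        · exact absurd (by simpa using hz) h
      rcases ht.1.eq_or_lt with h4 | h4
      · constructor
        · left
          rw [← h4]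
          norm_num
        · left
          rw [← h4]
          norm_num
      · have h5 := ht.2
        constructor
        · left
          nlinarith only [h5, h2, h4]
        · left
          nlinarith only [h2, h3, h5, h4]
    · rcases ht.1.eq_or_lt with h4 | h4
      · constructor
        · left
          rw [← h4]
          norm_num
        · left
          rw [← h4]
          norm_num
      · have h5 : t * z.im ≠ 0 := mul_ne_zero h4.ne' hz
        exact ⟨Or.inr h5, Or.inr (by simpa using h5)⟩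
  have hder : ∀ t ∈ Set.Icc (0 : ℝ) 1, HasDerivAt (fun t => R (g t)) 0 t := by
    intro t ht
    have := (hasDerivAt_R (hmem t ht).1 (hmem t ht).2).comp_of_eq t (hgd t) rfl
    rwa [zero_mul] at this
  have hconst := constant_of_derivWithin_zero (f := fun t => R (g t)) (a := 0) (b := 1)
    (fun t ht => (hder t ht).differentiableAt.differentiableWithinAt)
    (fun t ht => (hder t ⟨ht.1, ht.2.le⟩).hasDerivWithinAt.derivWithin
      (uniqueDiffOn_Icc zero_lt_one t ⟨ht.1, ht.2.le⟩)) 1 ⟨zero_le_one, le_rfl⟩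
  have g0 : g 0 = 1 / 2 := by simp [hg]
  have g1 : g 1 = z := by simp [hg]
  simp only [g0, g1] at hconst
  exact hconst

private lemma R_half : R (1 / 2) = Real.pi ^ 2 / 6 := by
  have h1 : Tendsto (fun x : ℝ => R x) (𝓝[>] 0) (𝓝 (Real.pi ^ 2 / 6 : ℂ)) := by
    have hc : Tendsto (fun x : ℝ => (x : ℂ)) (𝓝[>] 0) (𝓝 0) := by
      have := Complex.continuous_ofReal.tendsto 0
      rw [Complex.ofReal_zero] at this
      exact this.mono_left nhdsWithin_le_nhds
    have t1 : Tendsto (fun x : ℝ => li2 x) (𝓝[>] 0) (𝓝 0) := by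
      have := continuousAt_li2_zero.tendsto.comp hc
      rwa [li2_zero] at this
    have t3 := tendsto_loglog'.comp hc
    have hev : ∀ᶠ x : ℝ in 𝓝[>] 0, 0 < x ∧ x < 1 := by
      have := Ioo_mem_nhdsGT (zero_lt_one (α := ℝ))
      filter_upwards [this] with x hx
      exact hx
    have t2 : Tendsto (fun x : ℝ => li2 (1 - x)) (𝓝[>] 0) (𝓝 (Real.pi ^ 2 / 6 : ℂ)) := by
      have h2 : ContinuousWithinAt dl {z | ‖z‖ ≤ 1} 1 := continuousOn_dl 1 (by simp)
      rw [ContinuousWithinAt, dl_one] at h2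
      have h3 : Tendsto (fun x : ℝ => (1 : ℂ) - x) (𝓝[>] 0) (𝓝[{z | ‖z‖ ≤ 1}] 1) := by
        rw [tendsto_nhdsWithin_iff]
        constructor
        · have := (tendsto_const_nhds (x := (1 : ℂ))).sub hc
          rwa [sub_zero] at this
        · filter_upwards [hev] with x hx
          show ‖(1 : ℂ) - x‖ ≤ 1
          rw [← Complex.ofReal_one, ← Complex.ofReal_sub, Complex.norm_real,
            Real.norm_of_nonneg (by linarith only [hx, hx.2])]
          linarith only [hx, hx.1]
      refine (h2.comp h3).congr' ?_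
      filter_upwards [hev] with x hx
      refine (li2_eq_dl ?_).symm
      show ‖(1 : ℂ) - x‖ < 1
      rw [← Complex.ofReal_one, ← Complex.ofReal_sub, Complex.norm_real,
        Real.norm_of_nonneg (by linarith only [hx, hx.2])]
      linarith only [hx, hx.1]
    have := (t1.add t2).add t3
    simpa [R] using this
  have h2 : Tendsto (fun x : ℝ => R x) (𝓝[>] 0) (𝓝 (R (1 / 2))) := by
    apply tendsto_const_nhds.congr'
    have := Ioo_mem_nhdsGT (zero_lt_one (α := ℝ))
    filter_upwards [this] with x hx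
    refine (R_eq_half ?_ ?_).symm
    · rw [Complex.mem_slitPlane_iff]
      left
      simpa using hx.1
    · rw [Complex.mem_slitPlane_iff]
      left
      simpa using hx.2
  exact tendsto_nhds_unique h2 h1

/-! ### the cut -/

/-- the integrand on the real line -/
private noncomputable def hh (u : ℝ) : ℂ := -(Complex.log (1 - u) / u)

private lemma li2_real {x : ℝ} (hx : x ≠ 0) : li2 x = ∫ u in (0 : ℝ)..x, hh u := by
  unfold li2
  have h1 := intervalIntegral.integral_comp_mul_left (a := 0) (b := 1) hh hx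
  rw [mul_zero, mul_one] at h1
  have h2 : ∫ u in (0 : ℝ)..x, hh u = x • ∫ t in (0 : ℝ)..1, hh (x * t) := by
    rw [h1, smul_smul, mul_inv_cancel₀ hx, one_smul]
  rw [h2, ← intervalIntegral.integral_neg, ← intervalIntegral.integral_smul]
  refine intervalIntegral.integral_congr_ae ?_
  filter_upwards with t ht
  rw [Set.uIoc_of_le zero_le_one] at ht
  have ht0 : (t : ℂ) ≠ 0 := by exact_mod_cast ht.1.ne'
  have hx0 : (x : ℂ) ≠ 0 := by exact_mod_cast hx
  unfold hh
  push_cast
  rw [Complex.real_smul, mul_comm (x : ℂ) (t : ℂ)]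
  field_simp

private lemma log_one_sub_lt {u : ℝ} (hu : u < 1) :
    Complex.log (1 - u) = ((Real.log (1 - u) : ℝ) : ℂ) := by
  rw [Complex.ofReal_log (by linarith only [hu])]
  push_cast
  rfl

private lemma log_one_sub_gt {u : ℝ} (hu : 1 < u) :
    Complex.log (1 - u) = ((Real.log (u - 1) : ℝ) : ℂ) + Real.pi * Complex.I := by
  have e : (1 : ℂ) - u = ((1 - u : ℝ) : ℂ) := by push_cast; ring
  rw [e]
  apply Complex.ext
  · rw [Complex.log_re, Complex.norm_real, Real.norm_eq_abs, abs_of_neg (by linarith only [hu])]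
    simp
  · rw [Complex.log_im, Complex.arg_ofReal_of_neg (by linarith only [hu])]
    simp

private lemma int01 : IntervalIntegrable hh volume 0 1 ∧ ∫ u in (0 : ℝ)..1, hh u = Real.pi ^ 2 / 6 := by
  have hd : ∀ u ∈ Set.Ioo (0 : ℝ) 1, HasDerivAt (fun u : ℝ => dl u) (hh u) u := by
    intro u hu
    have h1 : ‖(u : ℂ)‖ < 1 := by
      rw [Complex.norm_real, Real.norm_of_nonneg hu.1.le]
      exact hu.2
    have h2 := (hasDerivAt_dl h1).comp_of_eq u (hasDerivAt_ofReal' u) rfl
    rw [mul_one] at h2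
    refine h2.congr_deriv ?_
    have hu0 : (u : ℂ) ≠ 0 := by exact_mod_cast hu.1.ne'
    unfold hh
    have h3 := mul_S h1
    rw [← neg_div, ← h3]
    field_simp
  have hc : ContinuousOn (fun u : ℝ => dl u) (Set.Icc 0 1) := by
    refine continuousOn_dl.comp Complex.continuous_ofReal.continuousOn ?_
    intro u hu
    show ‖(u : ℂ)‖ ≤ 1
    rw [Complex.norm_real, Real.norm_of_nonneg hu.1]
    exact hu.2
  have hreal : ∀ u ∈ Set.Ioo (0 : ℝ) 1, hh u = ((-(Real.log (1 - u) / u) : ℝ) : ℂ) := by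
    intro u hu
    unfold hh
    rw [log_one_sub_lt hu.2]
    push_cast
    rfl
  have hint : IntervalIntegrable (fun u : ℝ => -(Real.log (1 - u) / u)) volume 0 1 := by
    apply intervalIntegral.intervalIntegrable_deriv_of_nonneg (g := fun u : ℝ => (dl u).re)
    · rw [Set.uIcc_of_le zero_le_one]
      exact Complex.continuous_re.comp_continuousOn hc
    · intro u hu
      rw [min_eq_left zero_le_one, max_eq_right zero_le_one] at hu
      have h1 := Complex.reCLM.hasFDerivAt.comp_hasDerivAt u (hd u hu)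
      rw [hreal u hu] at h1
      exact h1
    · intro u hu
      rw [min_eq_left zero_le_one, max_eq_right zero_le_one] at hu
      have h1 : Real.log (1 - u) ≤ 0 := Real.log_nonpos (by linarith only [hu, hu.2]) (by linarith only [hu, hu.1])
      rw [neg_nonneg]
      exact div_nonpos_of_nonpos_of_nonneg h1 hu.1.le
  have hintc : IntervalIntegrable hh volume 0 1 := by
    have h1 : IntervalIntegrable (fun u : ℝ => ((-(Real.log (1 - u) / u) : ℝ) : ℂ)) volume 0 1 := by
      rw [intervalIntegrable_iff] at hint ⊢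
      exact hint.ofReal
    refine h1.congr_ae ?_
    rw [Set.uIoc_of_le zero_le_one]
    have h2 : ∀ᵐ u : ℝ ∂(volume.restrict (Set.Ioc 0 1)), u ≠ 1 := by
      apply ae_restrict_of_ae
      exact Measure.ae_ne volume 1
    filter_upwards [h2, ae_restrict_mem measurableSet_Ioc] with u hu hu'
    exact (hreal u ⟨hu'.1, lt_of_le_of_ne hu'.2 hu⟩).symm
  refine ⟨hintc, ?_⟩
  have h := intervalIntegral.integral_eq_sub_of_hasDerivAt_of_le zero_le_one hc hd hintc
  rw [h, Complex.ofReal_one, Complex.ofReal_zero, dl_one, dl_zero, sub_zero]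

private lemma int1x {x : ℝ} (hx : 1 < x) : IntervalIntegrable hh volume 1 x ∧
    ∫ u in (1 : ℝ)..x, hh u = -li2 (1 - x) - Complex.log x * Complex.log (1 - x) := by
  set P : ℝ → ℂ := fun u => -li2 (1 - u) - Complex.log u * Complex.log (1 - u) with hP
  have hd : ∀ u : ℝ, 1 < u → HasDerivAt P (hh u) u := by
    intro u hu
    have hu0 : (u : ℂ) ≠ 0 := by
      have : u ≠ 0 := by linarith only [hu]
      exact_mod_cast this
    have hu1 : (1 : ℂ) - u ≠ 0 := by
      have : (1 : ℝ) - u ≠ 0 := by linarith only [hu]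
      exact_mod_cast this
    have hus : (u : ℂ) ∈ Complex.slitPlane := by
      rw [Complex.mem_slitPlane_iff]
      left
      rw [Complex.ofReal_re]
      linarith only [hu]
    have d0 : HasDerivAt (fun u : ℝ => (1 : ℂ) - u) (-1) u := (hasDerivAt_ofReal' u).const_sub 1
    have d1 : HasDerivAt (fun u : ℝ => li2 (1 - u)) (-Complex.log (1 - (1 - u)) / (1 - u) * (-1)) u :=
      (hasDerivAt_li2 (z := 1 - u) (by rwa [sub_sub_cancel]) hu1).comp_of_eq u d0 rfl
    have d2 : HasDerivAt (fun u : ℝ => Complex.log u) (1 / u) u :=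
      (hasDerivAt_ofReal' u).clog_real hus
    have d3 : HasDerivAt (fun u : ℝ => Complex.log (1 - u)) (-1 / (1 - u)) u := by
      have e : (fun u : ℝ => Complex.log (1 - u)) =ᶠ[𝓝 u]
          fun u => ((Real.log (u - 1) : ℝ) : ℂ) + Real.pi * Complex.I := by
        filter_upwards [lt_mem_nhds hu] with v hv
        exact log_one_sub_gt hv
      have d4 : HasDerivAt (fun u : ℝ => Real.log (u - 1)) (1 / (u - 1)) u :=
        ((hasDerivAt_id u).sub_const 1).log (by simp only [id]; linarith only [hu])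
      refine ((d4.ofReal_comp.add_const _).congr_of_eventuallyEq e).congr_deriv ?_
      have : (u : ℂ) - 1 ≠ 0 := by
        have : (u : ℝ) - 1 ≠ 0 := by linarith only [hu]
        exact_mod_cast this
      push_cast
      rw [show (1 : ℂ) - u = -(u - 1) by ring, neg_div_neg_eq]
    have d5 := d1.neg.sub (d2.mul d3)
    refine d5.congr_deriv ?_
    unfold hh
    rw [sub_sub_cancel]
    field_simp
    ring
  have hint : IntervalIntegrable hh volume 1 x := by
    have i1 : IntervalIntegrable (fun u : ℝ => Real.log (u - 1)) volume 1 x := by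
      have := (intervalIntegral.intervalIntegrable_log' (a := 0) (b := x - 1)).comp_sub_right 1
      simpa using this
    have i2 : IntervalIntegrable (fun u : ℝ => ((Real.log (u - 1) : ℝ) : ℂ)) volume 1 x := by
      rw [intervalIntegrable_iff] at i1 ⊢
      exact i1.ofReal
    have i3 : IntervalIntegrable (fun u : ℝ => (((Real.log (u - 1) : ℝ) : ℂ) +
        Real.pi * Complex.I) * (-((u : ℂ)⁻¹))) volume 1 x := by
      refine (i2.add intervalIntegrable_const).mul_continuousOn ?_
      rw [Set.uIcc_of_le hx.le]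
      intro u hu
      have hu0 : (u : ℂ) ≠ 0 := by
        have : u ≠ 0 := by linarith only [hu, hu.1]
        exact_mod_cast this
      exact ((Complex.continuous_ofReal.continuousAt.inv₀ hu0).neg).continuousWithinAt
    refine i3.congr_ae ?_
    rw [Set.uIoc_of_le hx.le]
    filter_upwards [ae_restrict_mem measurableSet_Ioc] with u hu
    unfold hh
    rw [log_one_sub_gt hu.1]
    ring
  refine ⟨hint, ?_⟩
  have ha : Tendsto P (𝓝[>] 1) (𝓝 0) := by
    have hc : Tendsto (fun x : ℝ => (x : ℂ)) (𝓝[>] 1) (𝓝 1) := by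
      have := Complex.continuous_ofReal.tendsto 1
      rw [Complex.ofReal_one] at this
      exact this.mono_left nhdsWithin_le_nhds
    have t1 : Tendsto (fun x : ℝ => li2 (1 - x)) (𝓝[>] 1) (𝓝 0) := by
      have h1 : Tendsto (fun x : ℝ => (1 : ℂ) - x) (𝓝[>] 1) (𝓝 0) := by
        have := (tendsto_const_nhds (x := (1 : ℂ))).sub hc
        rwa [sub_self] at this
      have := continuousAt_li2_zero.tendsto.comp h1
      rwa [li2_zero] at this
    have t2 := tendsto_loglog.comp hc
    have := t1.neg.sub t2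
    simpa [hP] using this
  have hb : Tendsto P (𝓝[<] x) (𝓝 (P x)) :=
    (hd x hx).continuousAt.tendsto.mono_left nhdsWithin_le_nhds
  have h := intervalIntegral.integral_eq_sub_of_hasDerivAt_of_tendsto hx
    (fun u hu => hd u hu.1) hint ha hb
  rw [h, sub_zero]

/-- **Euler's reflection formula**, for all `z ≠ 0, 1` -/
theorem li2_refl {z : ℂ} (h0 : z ≠ 0) (h1 : z ≠ 1) :
    li2 z + li2 (1 - z) + Complex.log z * Complex.log (1 - z) = Real.pi ^ 2 / 6 := by
  have key : ∀ x : ℝ, 1 < x →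
      li2 x + li2 (1 - x) + Complex.log x * Complex.log (1 - x) = Real.pi ^ 2 / 6 := by
    intro x hx
    rw [li2_real (by linarith only [hx]), ← intervalIntegral.integral_add_adjacent_intervals int01.1
      (int1x hx).1, int01.2, (int1x hx).2]
    ring
  by_cases hs : z ∈ Complex.slitPlane
  · by_cases hs1 : 1 - z ∈ Complex.slitPlane
    · exact (R_eq_half hs hs1).trans R_half
    · -- `z > 1`
      have hx : 1 ≤ z.re ∧ z.im = 0 := by
        rw [Complex.mem_slitPlane_iff, not_or, not_lt, not_not] at hs1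
        simpa using hs1
      have e : z = ((z.re : ℝ) : ℂ) := by
        apply Complex.ext
        · simp
        · simpa using hx.2
      have h2 : 1 < z.re := by
        rcases hx.1.eq_or_lt with h3 | h3
        · exfalso
          apply h1
          rw [e, ← h3, Complex.ofReal_one]
        · exact h3
      rw [e]
      exact key _ h2
  · -- `z < 0`
    have hx : z.re ≤ 0 ∧ z.im = 0 := by
      rw [Complex.mem_slitPlane_iff, not_or, not_lt, not_not] at hs
      exact hs
    have e : z = ((z.re : ℝ) : ℂ) := by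
      apply Complex.ext
      · simp
      · simpa using hx.2
    have h2 : z.re < 0 := by
      rcases hx.1.eq_or_lt with h3 | h3
      · exfalso
        apply h0
        rw [e, h3, Complex.ofReal_zero]
      · exact h3
    have h3 := key (1 - z.re) (by linarith only [h2])
    rw [e]
    push_cast at h3
    rw [sub_sub_cancel] at h3
    linear_combination h3

/-- `li2 z → π²/6` as `z → 1` -/
lemma tendsto_li2_one : Tendsto li2 (𝓝[≠] 1) (𝓝 (Real.pi ^ 2 / 6 : ℂ)) := by
  have h1 : Tendsto (fun z : ℂ => 1 - z) (𝓝[≠] 1) (𝓝 0) := by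
    have : Continuous fun z : ℂ => 1 - z := continuous_const.sub continuous_id
    have h2 := this.tendsto 1
    rw [sub_self] at h2
    exact h2.mono_left nhdsWithin_le_nhds
  have h2 := continuousAt_li2_zero.tendsto.comp h1
  rw [li2_zero] at h2
  have h3 := tendsto_loglog.mono_left (nhdsWithin_le_nhds (a := (1 : ℂ)) (s := {1}ᶜ))
  have h4 := (tendsto_const_nhds (x := (Real.pi ^ 2 / 6 : ℂ))).sub (h2.add h3)
  rw [add_zero, sub_zero] at h4
  refine h4.congr' ?_
  have h5 : ∀ᶠ z : ℂ in 𝓝[≠] 1, z ≠ 0 :=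
    (isOpen_ne.mem_nhds (one_ne_zero (α := ℂ))) |> fun h => nhdsWithin_le_nhds h
  filter_upwards [h5, self_mem_nhdsWithin] with z hz hz1
  have := li2_refl hz hz1
  simp only [Function.comp]
  linear_combination -this

end XR

end Pool.Agent.Work.MP_b30479_gtS.G2

end

section

/-!
# The extended Rogers dilogarithm modulo `2π²`

`rl α β` for `e^α + e^β = 1`: `z = e^α`, `α` and `β` are arbitrary logarithms of `z` and `1 - z`.
`d rl = (α dβ - β dα) / 2`.

With `a = α - Log z`, `b = β - Log (1 - z)` in `2πiℤ`: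
`rl = li2 z + Log z Log (1-z) / 2 - π²/6 + (a Log (1-z) - b Log z) / 2`.  Derivative: for
`z ∉ [0,∞)` replace `Log z` by the logarithm with imaginary part in `(0, 2π)` (the difference is
`2π² n`), for `z ∈ (0,1)` directly, for `z > 1` by `rl_symm` (Euler's reflection).  Inversion: for
`z ∉ [0,∞)` from `li2_ee`, then by continuity.
-/

namespace Pool.Agent.Work.MP_b30479_gtS.G2

open Filter Topology
open Pool.Agent.Work.MP_b30479_gtS.LT (li2)

/-- the extended Rogers dilogarithm -/
noncomputable def rl (α β : ℂ) : ℂ :=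
  li2 (Complex.exp α) + (α * Complex.log (1 - Complex.exp α) - β * Complex.log (Complex.exp α) +
    Complex.log (Complex.exp α) * Complex.log (1 - Complex.exp α)) / 2 - Real.pi ^ 2 / 6

/-- congruence modulo `2π²` -/
def Cg (x y : ℂ) : Prop := ∃ k : ℤ, x - y = 2 * Real.pi ^ 2 * k

lemma Cg.refl (x : ℂ) : Cg x x := ⟨0, by simp⟩

lemma Cg.symm {x y : ℂ} (h : Cg x y) : Cg y x := by
  obtain ⟨k, hk⟩ := h
  exact ⟨-k, by push_cast; linear_combination -hk⟩

lemma Cg.trans {x y z : ℂ} (h : Cg x y) (h' : Cg y z) : Cg x z := by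
  obtain ⟨k, hk⟩ := h
  obtain ⟨l, hl⟩ := h'
  exact ⟨k + l, by push_cast; linear_combination hk + hl⟩

lemma Cg.add {x y x' y' : ℂ} (h : Cg x y) (h' : Cg x' y') : Cg (x + x') (y + y') := by
  obtain ⟨k, hk⟩ := h
  obtain ⟨l, hl⟩ := h'
  exact ⟨k + l, by push_cast; linear_combination hk + hl⟩

lemma Cg.neg {x y : ℂ} (h : Cg x y) : Cg (-x) (-y) := by
  obtain ⟨k, hk⟩ := h
  exact ⟨-k, by push_cast; linear_combination -hk⟩

lemma Cg.of_eq {x y : ℂ} (h : x = y) : Cg x y := ⟨0, by simp [h]⟩

private lemma pi_ne : (Real.pi : ℂ) ≠ 0 := by exact_mod_cast Real.pi_ne_zero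

lemma cg_iff {x y : ℂ} : Cg x y ↔ Complex.exp (Complex.I / Real.pi * (x - y)) = 1 := by
  have hp := pi_ne
  have hI := Complex.I_ne_zero
  rw [Complex.exp_eq_one_iff]
  constructor
  · rintro ⟨k, hk⟩
    refine ⟨k, ?_⟩
    rw [hk]
    field_simp
  · rintro ⟨k, hk⟩
    refine ⟨k, ?_⟩
    have h2 : x - y = (k * (2 * Real.pi * Complex.I)) * (Real.pi / Complex.I) := by
      rw [← hk]
      field_simp
    rw [h2]
    field_simp

lemma Cg.exp_eq {x y : ℂ} (h : Cg x y) :
    Complex.exp (Complex.I / Real.pi * x) = Complex.exp (Complex.I / Real.pi * y) := by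
  have h1 := cg_iff.1 h
  have h2 : Complex.I / Real.pi * x = Complex.I / Real.pi * (x - y) + Complex.I / Real.pi * y := by
    ring
  rw [h2, Complex.exp_add, h1, one_mul]

variable {α β : ℂ}

/-- the integers of a pair of logarithms -/
private lemma exists_ints (h : Complex.exp α + Complex.exp β = 1) : ∃ m n : ℤ,
    α = Complex.log (Complex.exp α) + 2 * Real.pi * Complex.I * m ∧
    β = Complex.log (1 - Complex.exp α) + 2 * Real.pi * Complex.I * n := by
  have h0 : Complex.exp (Complex.log (Complex.exp α)) = Complex.exp α :=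
    Complex.exp_log (Complex.exp_ne_zero _)
  have h1 : 1 - Complex.exp α = Complex.exp β := by linear_combination -h
  have h2 : Complex.exp (Complex.log (1 - Complex.exp α)) = Complex.exp β := by
    rw [h1]
    exact Complex.exp_log (Complex.exp_ne_zero _)
  obtain ⟨m, hm⟩ := Complex.exp_eq_exp_iff_exists_int.1 h0.symm
  obtain ⟨n, hn⟩ := Complex.exp_eq_exp_iff_exists_int.1 h2.symm
  exact ⟨m, n, by linear_combination hm, by linear_combination hn⟩

theorem rl_shift (h : Complex.exp α + Complex.exp β = 1) (m n : ℤ) :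
    Cg (rl (α + 2 * Real.pi * Complex.I * m) (β + 2 * Real.pi * Complex.I * n))
      (rl α β + Real.pi * Complex.I * (m * β - n * α)) := by
  obtain ⟨p, q, hp, hq⟩ := exists_ints h
  have he : Complex.exp (α + 2 * Real.pi * Complex.I * m) = Complex.exp α := by
    rw [show α + 2 * Real.pi * Complex.I * m = α + m * (2 * Real.pi * Complex.I) by ring,
      Complex.exp_add, Complex.exp_int_mul_two_pi_mul_I, mul_one]
  refine ⟨m * q - n * p, ?_⟩
  unfold rl
  rw [he]
  set L0 := Complex.log (Complex.exp α)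
  set L1 := Complex.log (1 - Complex.exp α)
  rw [hp, hq]
  push_cast
  have hI := Complex.I_sq
  linear_combination (2 * (Real.pi : ℂ) ^ 2 * (n * p - m * q)) * hI

theorem rl_symm (h : Complex.exp α + Complex.exp β = 1) :
    Cg (rl β α) (-rl α β - Real.pi ^ 2 / 6) := by
  apply Cg.of_eq
  have h1 : Complex.exp β = 1 - Complex.exp α := by linear_combination h
  have h0 : Complex.exp α ≠ 0 := Complex.exp_ne_zero _
  have h2 : Complex.exp α ≠ 1 := by
    intro h3
    have : Complex.exp β = 0 := by rw [h1, h3]; ring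
    exact Complex.exp_ne_zero _ this
  have key := XR.li2_refl h0 h2
  unfold rl
  rw [h1, sub_sub_cancel]
  linear_combination key

/-! ### derivative -/

private lemma ints_const {u v : ℝ → ℂ} {t : ℝ} (hu : ContinuousAt u t) (hv : ContinuousAt v t)
    (h : ∀ᶠ s in 𝓝 t, ∃ m : ℤ, u s = v s + 2 * Real.pi * Complex.I * m) :
    ∃ m : ℤ, ∀ᶠ s in 𝓝 t, u s = v s + 2 * Real.pi * Complex.I * m := by
  have hp := Real.pi_pos
  obtain ⟨m, hm⟩ := h.self_of_nhds
  refine ⟨m, ?_⟩
  have hc : ContinuousAt (fun s => u s - v s) t := hu.sub hv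
  have h1 : ∀ᶠ s in 𝓝 t, ‖(u s - v s) - (u t - v t)‖ < 1 := by
    have := hc.eventually (Metric.ball_mem_nhds (u t - v t) one_pos)
    filter_upwards [this] with s hs
    rwa [dist_eq_norm] at hs
  filter_upwards [h, h1] with s hs1 hs2
  obtain ⟨k, hk⟩ := hs1
  have h3 : (u s - v s) - (u t - v t) = ((2 * Real.pi * (k - m) : ℝ) : ℂ) * Complex.I := by
    rw [hk, hm]
    push_cast
    ring
  rw [h3, norm_mul, Complex.norm_I, mul_one, Complex.norm_real, Real.norm_eq_abs, abs_mul,
    abs_of_pos (by positivity : 0 < 2 * Real.pi)] at hs2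
  have h4 : |((k : ℝ) - m)| < 1 := by
    have h5 : (1 : ℝ) ≤ 2 * Real.pi := by linarith only [hp, Real.pi_gt_three]
    have h6 := abs_nonneg ((k : ℝ) - m)
    nlinarith only [hs2, h5, hp]
  have h7 : k = m := by
    have h8 : |k - m| < 1 := by exact_mod_cast h4
    have h9 := abs_lt.1 h8
    omega
  rw [hk, h7]

/-- the common part of the derivative -/
private lemma deriv_core {f g l0 l1 : ℝ → ℂ} {f' g' : ℂ} {t : ℝ} (hf : HasDerivAt f f' t)
    (hg : HasDerivAt g g' t) (h1 : 1 - Complex.exp (f t) ∈ Complex.slitPlane)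
    (h0' : HasDerivAt l0 f' t) (h1' : HasDerivAt l1 g' t)
    (hl1 : l1 t = Complex.log (1 - Complex.exp (f t))) {m n : ℤ}
    (hm : ∀ᶠ s in 𝓝 t, f s = l0 s + 2 * Real.pi * Complex.I * m)
    (hn : ∀ᶠ s in 𝓝 t, g s = l1 s + 2 * Real.pi * Complex.I * n)
    (hr : ∀ᶠ s in 𝓝 t, Cg (rl (f s) (g s)) (li2 (Complex.exp (f s)) + (l0 s * l1 s +
      2 * Real.pi * Complex.I * m * l1 s - 2 * Real.pi * Complex.I * n * l0 s) / 2 -
        Real.pi ^ 2 / 6)) :
    HasDerivAt (fun s => Complex.exp (Complex.I / Real.pi * rl (f s) (g s)))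
      (Complex.exp (Complex.I / Real.pi * rl (f t) (g t)) *
        (Complex.I / Real.pi * ((f t * g' - g t * f') / 2))) t := by
  have d1 : HasDerivAt (fun s => li2 (Complex.exp (f s)))
      (-Complex.log (1 - Complex.exp (f t)) / Complex.exp (f t) * (Complex.exp (f t) * f')) t :=
    (XR.hasDerivAt_li2 h1 (Complex.exp_ne_zero _)).comp_of_eq t hf.cexp rfl
  have d2 := ((d1.add ((((h0'.mul h1').add (h1'.const_mul (2 * Real.pi * Complex.I * m))).sub
    (h0'.const_mul (2 * Real.pi * Complex.I * n))).div_const 2)).sub_const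
      ((Real.pi : ℂ) ^ 2 / 6)).const_mul (Complex.I / Real.pi)
  have d3 := d2.cexp
  have e0 : (fun s => Complex.exp (Complex.I / Real.pi * rl (f s) (g s))) =ᶠ[𝓝 t] fun s =>
      Complex.exp (Complex.I / Real.pi * (li2 (Complex.exp (f s)) + (l0 s * l1 s +
      2 * Real.pi * Complex.I * m * l1 s - 2 * Real.pi * Complex.I * n * l0 s) / 2 -
        Real.pi ^ 2 / 6)) := by
    filter_upwards [hr] with s hs
    exact hs.exp_eq
  refine (d3.congr_of_eventuallyEq e0).congr_deriv ?_
  rw [hr.self_of_nhds.exp_eq]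
  have hft := hm.self_of_nhds
  have hgt := hn.self_of_nhds
  have he := Complex.exp_ne_zero (f t)
  simp only [Pi.add_apply, Pi.sub_apply, Pi.mul_apply]
  congr 1
  rw [← hl1]
  have e1 : -l1 t / Complex.exp (f t) * (Complex.exp (f t) * f') = -l1 t * f' := by
    field_simp
  rw [e1, hft, hgt]
  ring

private lemma rl_deriv_slit {f g : ℝ → ℂ} {f' g' : ℂ} {t : ℝ} (hf : HasDerivAt f f' t)
    (hg : HasDerivAt g g' t) (h : ∀ᶠ s in 𝓝 t, Complex.exp (f s) + Complex.exp (g s) = 1)
    (h1 : 1 - Complex.exp (f t) ∈ Complex.slitPlane) :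
    HasDerivAt (fun s => Complex.exp (Complex.I / Real.pi * rl (f s) (g s)))
      (Complex.exp (Complex.I / Real.pi * rl (f t) (g t)) *
        (Complex.I / Real.pi * ((f t * g' - g t * f') / 2))) t := by
  have hI := Complex.I_sq
  -- `l1`
  have dl1 : HasDerivAt (fun s => Complex.log (1 - Complex.exp (f s)))
      (-(Complex.exp (f t) * f') / (1 - Complex.exp (f t))) t :=
    (hf.cexp.const_sub 1).clog_real h1
  obtain ⟨n, hn⟩ : ∃ n : ℤ, ∀ᶠ s in 𝓝 t, g s = Complex.log (1 - Complex.exp (f s)) +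
      2 * Real.pi * Complex.I * n := by
    refine ints_const hg.continuousAt dl1.continuousAt ?_
    filter_upwards [h] with s hs
    obtain ⟨p, q, -, hq⟩ := exists_ints hs
    exact ⟨q, hq⟩
  have dl1' : HasDerivAt (fun s => Complex.log (1 - Complex.exp (f s))) g' t := by
    have e : (fun s => Complex.log (1 - Complex.exp (f s))) =ᶠ[𝓝 t] fun s => g s -
        2 * Real.pi * Complex.I * n := by
      filter_upwards [hn] with s hs
      rw [hs]
      ring
    exact (hg.sub_const _).congr_of_eventuallyEq e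
  by_cases hs : -Complex.exp (f t) ∈ Complex.slitPlane
  · -- off `[0, ∞)`
    have dw : HasDerivAt (fun s => Complex.log (-Complex.exp (f s)))
        (-(Complex.exp (f t) * f') / -Complex.exp (f t)) t := hf.cexp.neg.clog_real hs
    set l0 : ℝ → ℂ := fun s => Real.pi * Complex.I + Complex.log (-Complex.exp (f s)) with hl0
    have hle : ∀ s, Complex.exp (l0 s) = Complex.exp (f s) := by
      intro s
      rw [hl0]
      simp only
      rw [Complex.exp_add, Complex.exp_pi_mul_I, Complex.exp_log (neg_ne_zero.2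
        (Complex.exp_ne_zero _))]
      ring
    obtain ⟨m, hm⟩ : ∃ m : ℤ, ∀ᶠ s in 𝓝 t, f s = l0 s + 2 * Real.pi * Complex.I * m := by
      refine ints_const hf.continuousAt (dw.const_add _).continuousAt ?_
      filter_upwards with s
      obtain ⟨m, hm⟩ := Complex.exp_eq_exp_iff_exists_int.1 (hle s).symm
      exact ⟨m, by rw [hm]; ring⟩
    have dl0 : HasDerivAt l0 f' t := by
      have e : l0 =ᶠ[𝓝 t] fun s => f s - 2 * Real.pi * Complex.I * m := by
        filter_upwards [hm] with s hs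
        rw [hs]
        ring
      exact (hf.sub_const _).congr_of_eventuallyEq e
    refine deriv_core hf hg h1 dl0 dl1' rfl hm hn ?_
    filter_upwards [hm, hn] with s hs1 hs2
    -- the principal logarithm
    obtain ⟨k, hk⟩ : ∃ k : ℤ, l0 s = Complex.log (Complex.exp (f s)) +
        2 * Real.pi * Complex.I * k := by
      have h5 : Complex.exp (l0 s) = Complex.exp (Complex.log (Complex.exp (f s))) := by
        rw [hle, Complex.exp_log (Complex.exp_ne_zero _)]
      obtain ⟨k, hk⟩ := Complex.exp_eq_exp_iff_exists_int.1 h5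
      exact ⟨k, by rw [hk]; ring⟩
    refine ⟨-(n * k), ?_⟩
    unfold rl
    set L0 := Complex.log (Complex.exp (f s))
    set L1 := Complex.log (1 - Complex.exp (f s))
    set Z := li2 (Complex.exp (f s))
    rw [hs1, hs2, hk]
    push_cast
    linear_combination (2 * (Real.pi : ℂ) ^ 2 * n * k) * hI
  · -- `z ∈ (0,1)`
    have hs0 : Complex.exp (f t) ∈ Complex.slitPlane := by
      rw [Complex.mem_slitPlane_iff, not_or, not_lt, not_not, Complex.neg_re, Complex.neg_im] at hs
      rw [Complex.mem_slitPlane_iff]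
      left
      have h2 : 0 ≤ (Complex.exp (f t)).re := by linarith only [hs, hs.1]
      rcases h2.eq_or_lt with h3 | h3
      · exfalso
        apply Complex.exp_ne_zero (f t)
        apply Complex.ext
        · rw [← h3, Complex.zero_re]
        · rw [Complex.zero_im]
          linarith only [hs, hs.2]
      · exact h3
    have dl0 : HasDerivAt (fun s => Complex.log (Complex.exp (f s)))
        (Complex.exp (f t) * f' / Complex.exp (f t)) t := hf.cexp.clog_real hs0
    obtain ⟨m, hm⟩ : ∃ m : ℤ, ∀ᶠ s in 𝓝 t, f s = Complex.log (Complex.exp (f s)) +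
        2 * Real.pi * Complex.I * m := by
      refine ints_const hf.continuousAt dl0.continuousAt ?_
      filter_upwards [h] with s hs
      obtain ⟨p, q, hp, -⟩ := exists_ints hs
      exact ⟨p, hp⟩
    have dl0' : HasDerivAt (fun s => Complex.log (Complex.exp (f s))) f' t := by
      refine dl0.congr_deriv ?_
      have := Complex.exp_ne_zero (f t)
      field_simp
    refine deriv_core hf hg h1 dl0' dl1' rfl hm hn ?_
    filter_upwards [hm, hn] with s hs1 hs2
    apply Cg.of_eq
    unfold rl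
    set L0 := Complex.log (Complex.exp (f s))
    set L1 := Complex.log (1 - Complex.exp (f s))
    set Z := li2 (Complex.exp (f s))
    rw [hs1, hs2]
    ring

/-- the derivative along a curve -/
theorem rl_deriv {f g : ℝ → ℂ} {f' g' : ℂ} {t : ℝ} (hf : HasDerivAt f f' t)
    (hg : HasDerivAt g g' t) (h : ∀ᶠ s in 𝓝 t, Complex.exp (f s) + Complex.exp (g s) = 1) :
    HasDerivAt (fun s => Complex.exp (Complex.I / Real.pi * rl (f s) (g s)))
      (Complex.exp (Complex.I / Real.pi * rl (f t) (g t)) *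
        (Complex.I / Real.pi * ((f t * g' - g t * f') / 2))) t := by
  by_cases h1 : 1 - Complex.exp (f t) ∈ Complex.slitPlane
  · exact rl_deriv_slit hf hg h h1
  · -- `z > 1`
    have ht := h.self_of_nhds
    have e1 : 1 - Complex.exp (g t) = Complex.exp (f t) := by linear_combination -ht
    have h2 : 1 - Complex.exp (g t) ∈ Complex.slitPlane := by
      rw [e1, Complex.mem_slitPlane_iff]
      left
      rw [Complex.mem_slitPlane_iff, not_or, not_lt, Complex.sub_re, Complex.one_re] at h1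
      linarith only [h1, h1.1]
    have h' : ∀ᶠ s in 𝓝 t, Complex.exp (g s) + Complex.exp (f s) = 1 := by
      filter_upwards [h] with s hs
      rw [← hs]
      ring
    have d1 := rl_deriv_slit hg hf h' h2
    have e0 : (fun s => Complex.exp (Complex.I / Real.pi * rl (f s) (g s))) =ᶠ[𝓝 t] fun s =>
        (Complex.exp (Complex.I / Real.pi * rl (g s) (f s)))⁻¹ *
          Complex.exp (Complex.I / Real.pi * (-(Real.pi ^ 2 / 6))) := by
      filter_upwards [h'] with s hs
      rw [(rl_symm hs).exp_eq, ← Complex.exp_neg, ← Complex.exp_add]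
      congr 1
      ring
    have d2 := (d1.inv (Complex.exp_ne_zero _)).mul_const
      (Complex.exp (Complex.I / Real.pi * (-(Real.pi ^ 2 / 6))))
    refine (d2.congr_of_eventuallyEq e0).congr_deriv ?_
    have e2 := e0.self_of_nhds
    simp only at e2
    rw [e2]
    have := Complex.exp_ne_zero (Complex.I / Real.pi * rl (g t) (f t))
    field_simp
    ring

/-! ### inversion -/

/-- the values at the exponentials of the strip -/
theorem rl_ee {w : ℂ} (hw : w ∈ VOL.strip) :
    rl (2 * Real.pi * Complex.I * w) (VOL.ph w + Real.pi * Complex.I * (w - 1 / 2)) =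
      -(2 * Real.pi * Complex.I * VOL.Fh w) + Real.pi * Complex.I * w * VOL.ph w -
        Real.pi ^ 2 * w / 2 := by
  have h1 := LT.log_one_sub_ee hw
  have h2 := LT.li2_ee hw
  have hI := Complex.I_sq
  unfold rl
  unfold LT.ee at h1 h2
  rw [h1, h2]
  linear_combination ((Real.pi : ℂ) ^ 2 * w * (w - 1 / 2)) * hI

/-- the inversion relation -/
private def Inv (α β : ℂ) (s : ℤ) : Prop :=
  Cg (rl (-α) (β - α + Real.pi * Complex.I * s)) (-rl α β + Real.pi * Complex.I * s * α / 2)

private lemma inv_rel (h : Complex.exp α + Complex.exp β = 1) {s : ℤ} (hs : Odd s) :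
    Complex.exp (-α) + Complex.exp (β - α + Real.pi * Complex.I * s) = 1 := by
  have h1 : Complex.exp (Real.pi * Complex.I * s) = -1 := by
    obtain ⟨k, hk⟩ := hs
    rw [show (Real.pi * Complex.I * s : ℂ) = k * (2 * Real.pi * Complex.I) + Real.pi * Complex.I by
      rw [hk]; push_cast; ring, Complex.exp_add, Complex.exp_int_mul_two_pi_mul_I,
      Complex.exp_pi_mul_I]
    ring
  rw [Complex.exp_add, h1, Complex.exp_sub, Complex.exp_neg]
  have h2 := Complex.exp_ne_zero α
  field_simp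
  linear_combination -h

private lemma inv_shift (h : Complex.exp α + Complex.exp β = 1) {s : ℤ} (hs : Odd s)
    (hi : Inv α β s) (m n k : ℤ) :
    Inv (α + 2 * Real.pi * Complex.I * m) (β + 2 * Real.pi * Complex.I * n) (s + 2 * k) := by
  unfold Inv at hi ⊢
  have h1 := rl_shift (inv_rel h hs) (-m) (n - m + k)
  have h2 := rl_shift h m n
  have e1 : -(α + 2 * Real.pi * Complex.I * m) = -α + 2 * Real.pi * Complex.I * ((-m : ℤ) : ℂ) := by
    push_cast
    ring
  have e2 : β + 2 * Real.pi * Complex.I * n - (α + 2 * Real.pi * Complex.I * m) +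
      Real.pi * Complex.I * ((s + 2 * k : ℤ) : ℂ) = β - α + Real.pi * Complex.I * s +
        2 * Real.pi * Complex.I * ((n - m + k : ℤ) : ℂ) := by
    push_cast
    ring
  rw [e1, e2]
  refine h1.trans ?_
  obtain ⟨a, ha⟩ := hi
  obtain ⟨b, hb⟩ := h2
  refine ⟨a + b + m * (s + k), ?_⟩
  push_cast at ha hb ⊢
  have hI := Complex.I_sq
  linear_combination ha + hb - ((Real.pi : ℂ) ^ 2 * m * (2 * s + 2 * k)) * hI

private lemma inv_slit (h : Complex.exp α + Complex.exp β = 1)
    (h0 : -Complex.exp α ∈ Complex.slitPlane) {s : ℤ} (hs : Odd s) : Inv α β s := by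
  have hI := Complex.I_sq
  obtain ⟨w, hw⟩ : ∃ w, w = XR.wl (Complex.exp α) := ⟨_, rfl⟩
  have hm : w ∈ VOL.strip := hw ▸ XR.wl_mem h0
  have he : Complex.exp (2 * Real.pi * Complex.I * w) = Complex.exp α := by
    have := XR.ee_wl h0
    unfold LT.ee at this
    rw [hw, this]
  set B : ℂ := VOL.ph w + Real.pi * Complex.I * (w - 1 / 2) with hB
  have hBe : Complex.exp B = 1 - Complex.exp α := by
    have h1 := LT.one_sub_ee' hm
    unfold LT.ee at h1
    rw [he] at h1
    rw [h1, hB]
    congr 1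
    ring
  have h2 : Complex.exp (2 * Real.pi * Complex.I * w) + Complex.exp B = 1 := by
    rw [he, hBe]
    ring
  -- the base point, `s = 1`
  have hbase : Inv (2 * Real.pi * Complex.I * w) B 1 := by
    unfold Inv
    have hm' := VOL.strip_one_sub hm
    have h3 := rl_ee hm
    have h4 := rl_ee hm'
    have h5 := rl_shift (inv_rel h2 (by decide : Odd (1 : ℤ))) 1 0
    have e1 : -(2 * Real.pi * Complex.I * w) + 2 * Real.pi * Complex.I * ((1 : ℤ) : ℂ) =
        2 * Real.pi * Complex.I * (1 - w) := by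
      push_cast
      ring
    have e2 : B - 2 * Real.pi * Complex.I * w + Real.pi * Complex.I * ((1 : ℤ) : ℂ) +
        2 * Real.pi * Complex.I * ((0 : ℤ) : ℂ) =
        VOL.ph (1 - w) + Real.pi * Complex.I * (1 - w - 1 / 2) := by
      rw [VOL.ph_one_sub, hB]
      push_cast
      ring
    rw [e1, e2, h4] at h5
    obtain ⟨k, hk⟩ := h5
    refine ⟨-k, ?_⟩
    rw [← hB] at h3
    rw [h3]
    rw [VOL.ph_one_sub, VOL.Fh_one_sub, hB] at hk
    push_cast at hk ⊢
    rw [hB]
    linear_combination -hk + (-(Real.pi : ℂ) ^ 2 / 2) * hI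
  have h6 : Complex.exp β = Complex.exp B := by
    rw [hBe]
    linear_combination h
  obtain ⟨m, hm1⟩ := Complex.exp_eq_exp_iff_exists_int.1 he.symm
  obtain ⟨n, hn1⟩ := Complex.exp_eq_exp_iff_exists_int.1 h6
  obtain ⟨k, hk⟩ := hs
  have h7 := inv_shift h2 odd_one hbase m n k
  have e1 : 2 * Real.pi * Complex.I * w + 2 * Real.pi * Complex.I * m = α := by
    rw [hm1]
    ring
  have e2 : B + 2 * Real.pi * Complex.I * n = β := by
    rw [hn1]
    ring
  rw [e1, e2] at h7
  rw [hk, show 2 * k + 1 = 1 + 2 * k by ring]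
  exact h7

/-- inversion, for odd `s` -/
theorem rl_inv (h : Complex.exp α + Complex.exp β = 1) {s : ℤ} (hs : Odd s) :
    Cg (rl (-α) (β - α + Real.pi * Complex.I * s)) (-rl α β + Real.pi * Complex.I * s * α / 2) := by
  by_cases h0 : -Complex.exp α ∈ Complex.slitPlane
  · exact inv_slit h h0 hs
  -- `z > 0`: rotate
  have hx : 0 ≤ (Complex.exp α).re ∧ (Complex.exp α).im = 0 := by
    rw [Complex.mem_slitPlane_iff, not_or, not_lt, not_not] at h0
    simpa using h0
  have hpos : 0 < (Complex.exp α).re := by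
    rcases hx.1.eq_or_lt with h3 | h3
    · exfalso
      apply Complex.exp_ne_zero α
      apply Complex.ext
      · rw [← h3, Complex.zero_re]
      · rw [Complex.zero_im]
        exact hx.2
    · exact h3
  have hz1 : 1 - Complex.exp α ≠ 0 := by
    have : 1 - Complex.exp α = Complex.exp β := by linear_combination -h
    rw [this]
    exact Complex.exp_ne_zero _
  set f : ℝ → ℂ := fun t => α + t * Complex.I with hf
  set q : ℝ → ℂ := fun t => (1 - Complex.exp (f t)) / (1 - Complex.exp α) with hq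
  set g : ℝ → ℂ := fun t => β + Complex.log (q t) with hg
  have f0 : f 0 = α := by simp [hf]
  have q0 : q 0 = 1 := by
    rw [hq]
    simp only [f0]
    exact div_self hz1
  have g0 : g 0 = β := by
    rw [hg]
    simp only [q0, Complex.log_one, add_zero]
  have df : ∀ t, HasDerivAt f Complex.I t := by
    intro t
    have h3 : HasDerivAt (fun t : ℝ => ((t : ℝ) : ℂ)) 1 t := Complex.ofRealCLM.hasDerivAt
    have h4 := (h3.mul_const Complex.I).const_add α
    rwa [one_mul] at h4
  have dq : ∀ t, HasDerivAt q (-(Complex.exp (f t) * Complex.I) / (1 - Complex.exp α)) t := by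
    intro t
    exact ((df t).cexp.const_sub 1).div_const _
  have hqs : ∀ᶠ t in 𝓝 (0 : ℝ), q t ∈ Complex.slitPlane := by
    have h4 := (dq 0).continuousAt.eventually (Complex.isOpen_slitPlane.mem_nhds
      (show q 0 ∈ Complex.slitPlane by rw [q0]; exact Complex.one_mem_slitPlane))
    exact h4
  have dg : HasDerivAt g (-(Complex.exp (f 0) * Complex.I) / (1 - Complex.exp α) / q 0) 0 :=
    ((dq 0).clog_real hqs.self_of_nhds).const_add β
  have hrel : ∀ᶠ t in 𝓝 (0 : ℝ), Complex.exp (f t) + Complex.exp (g t) = 1 := by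
    filter_upwards [hqs] with t ht
    have h5 : Complex.exp β = 1 - Complex.exp α := by linear_combination h
    show Complex.exp (f t) + Complex.exp (β + Complex.log (q t)) = 1
    rw [Complex.exp_add β, Complex.exp_log (Complex.slitPlane_ne_zero ht), h5]
    show Complex.exp (f t) + (1 - Complex.exp α) *
      ((1 - Complex.exp (f t)) / (1 - Complex.exp α)) = 1
    rw [mul_div_cancel₀ _ hz1]
    ring
  have hrel' : ∀ᶠ t in 𝓝 (0 : ℝ), Complex.exp (-f t) +
      Complex.exp (g t - f t + Real.pi * Complex.I * s) = 1 := by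
    filter_upwards [hrel] with t ht
    exact inv_rel ht hs
  have d1 := rl_deriv (df 0) dg hrel
  have d2 := rl_deriv (df 0).neg ((dg.sub (df 0)).add_const (Real.pi * Complex.I * s)) hrel'
  have d3 : ContinuousAt (fun t : ℝ => Complex.exp (Complex.I / Real.pi *
      (-(Real.pi * Complex.I * s * f t / 2)))) 0 := by
    have := (df 0).continuousAt
    fun_prop
  -- the product
  have hQ : ContinuousAt (fun t : ℝ => Complex.exp (Complex.I / Real.pi *
      rl (-f t) (g t - f t + Real.pi * Complex.I * s)) *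
        Complex.exp (Complex.I / Real.pi * rl (f t) (g t)) *
        Complex.exp (Complex.I / Real.pi * (-(Real.pi * Complex.I * s * f t / 2)))) 0 :=
    (d2.continuousAt.mul d1.continuousAt).mul d3
  have hone : ∀ᶠ t in 𝓝[>] (0 : ℝ), Complex.exp (Complex.I / Real.pi *
      rl (-f t) (g t - f t + Real.pi * Complex.I * s)) *
        Complex.exp (Complex.I / Real.pi * rl (f t) (g t)) *
        Complex.exp (Complex.I / Real.pi * (-(Real.pi * Complex.I * s * f t / 2))) = 1 := by
    have h5 := Ioo_mem_nhdsGT (show (0 : ℝ) < 1 by norm_num)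
    filter_upwards [hrel.filter_mono nhdsWithin_le_nhds, h5] with t ht ht'
    have h6 : -Complex.exp (f t) ∈ Complex.slitPlane := by
      rw [Complex.mem_slitPlane_iff]
      right
      have h7 : Complex.exp (f t) = ((Complex.exp α).re : ℂ) * Complex.exp (t * Complex.I) := by
        rw [hf]
        simp only
        rw [Complex.exp_add]
        congr 1
        apply Complex.ext
        · simp
        · simpa using hx.2
      rw [h7, Complex.neg_im, Complex.im_ofReal_mul, Complex.exp_ofReal_mul_I_im]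
      have h8 : 0 < Real.sin t := Real.sin_pos_of_pos_of_lt_pi ht'.1
        (by linarith only [ht', ht'.2, Real.pi_gt_three])
      have := mul_pos hpos h8
      exact (neg_neg_of_pos this).ne
    have h9 := cg_iff.1 (inv_slit ht h6 hs)
    rw [← Complex.exp_add, ← Complex.exp_add, ← h9]
    congr 1
    ring
  have hlim := tendsto_nhds_unique (hQ.tendsto.mono_left nhdsWithin_le_nhds)
    (tendsto_const_nhds.congr' (hone.mono fun t ht => ht.symm))
  rw [cg_iff, ← hlim, f0, g0, ← Complex.exp_add, ← Complex.exp_add]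
  congr 1
  ring

/-! ### the limit `z → 1` -/

/-- the limit `z → 1` -/
theorem rl_lim {ι : Type*} {l : Filter ι} {f g : ι → ℂ} (m : ℤ)
    (h : ∀ i, Complex.exp (f i) + Complex.exp (g i) = 1)
    (hf : Tendsto f l (𝓝 (2 * Real.pi * Complex.I * m))) (hg : ∃ C, ∀ i, |(g i).im| ≤ C) :
    Tendsto (fun i => Complex.exp (Complex.I / Real.pi *
      (rl (f i) (g i) - Real.pi * Complex.I * m * g i))) l (𝓝 1) := by
  have hpi := Real.pi_pos
  have hI := Complex.I_sq
  obtain ⟨C, hC⟩ := hg
  choose M N hM hN using fun i => exists_ints (h i)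
  -- `z → 1`
  have hz : Tendsto (fun i => Complex.exp (f i)) l (𝓝[≠] 1) := by
    rw [tendsto_nhdsWithin_iff]
    constructor
    · have h1 := (Complex.continuous_exp.tendsto (2 * Real.pi * Complex.I * m)).comp hf
      have h2 : Complex.exp (2 * Real.pi * Complex.I * m) = 1 := by
        rw [show (2 * Real.pi * Complex.I * m : ℂ) = m * (2 * Real.pi * Complex.I) by ring]
        exact Complex.exp_int_mul_two_pi_mul_I m
      rw [h2] at h1
      exact h1
    · filter_upwards with i
      intro h1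
      have h2 : Complex.exp (f i) = 1 := h1
      have h3 := h i
      rw [h2] at h3
      have : Complex.exp (g i) = 0 := by linear_combination h3
      exact Complex.exp_ne_zero _ this
  have hz' := hz.mono_right nhdsWithin_le_nhds
  -- `L0 → 0`
  have hL0 : Tendsto (fun i => Complex.log (Complex.exp (f i))) l (𝓝 0) := by
    have := (continuousAt_clog Complex.one_mem_slitPlane).tendsto.comp hz'
    rwa [Complex.log_one] at this
  have hLL := XR.tendsto_loglog.comp hz'
  have hli := XR.tendsto_li2_one.comp hz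
  -- `M i = m` eventually
  have hMm : ∀ᶠ i in l, M i = m := by
    have h1 : Tendsto (fun i => f i - Complex.log (Complex.exp (f i))) l
        (𝓝 (2 * Real.pi * Complex.I * m)) := by
      have := hf.sub hL0
      rwa [sub_zero] at this
    have h2 := h1.eventually (Metric.ball_mem_nhds _ one_pos)
    filter_upwards [h2] with i hi
    rw [dist_eq_norm] at hi
    have h3 : f i - Complex.log (Complex.exp (f i)) - 2 * Real.pi * Complex.I * m =
        ((2 * Real.pi * (M i - m) : ℝ) : ℂ) * Complex.I := by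
      push_cast
      linear_combination hM i
    rw [h3, norm_mul, Complex.norm_I, mul_one, Complex.norm_real, Real.norm_eq_abs, abs_mul,
      abs_of_pos (by positivity : 0 < 2 * Real.pi)] at hi
    have h4 : |((M i : ℝ) - m)| < 1 := by
      have h5 : (1 : ℝ) ≤ 2 * Real.pi := by linarith only [hpi, Real.pi_gt_three]
      have h6 := abs_nonneg ((M i : ℝ) - m)
      nlinarith only [hi, h5, hpi]
    have h8 : |M i - m| < 1 := by exact_mod_cast h4
    have h9 := abs_lt.1 h8
    omega
  -- `N i` is bounded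
  have hNb : ∀ i, |(N i : ℝ)| ≤ C + Real.pi := by
    intro i
    have h1 := congrArg Complex.im (hN i)
    have h2 : (2 * Real.pi * Complex.I * (N i : ℂ)).im = 2 * Real.pi * N i := by
      simp [Complex.mul_re, Complex.mul_im]
    rw [Complex.add_im, h2, Complex.log_im] at h1
    have h3 := Complex.abs_arg_le_pi (1 - Complex.exp (f i))
    have h4 := hC i
    have h5 : |2 * Real.pi * (N i : ℝ)| ≤ C + Real.pi := by
      have : 2 * Real.pi * (N i : ℝ) = (g i).im - (1 - Complex.exp (f i)).arg := by linarith only [h1]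
      rw [this]
      exact (abs_sub _ _).trans (add_le_add h4 h3)
    rw [abs_mul, abs_of_pos (by positivity : 0 < 2 * Real.pi)] at h5
    have h6 : (1 : ℝ) ≤ 2 * Real.pi := by linarith only [hpi, Real.pi_gt_three]
    have h7 := abs_nonneg (N i : ℝ)
    nlinarith only [h5, h6, h7]
  have hNL : Tendsto (fun i => (N i : ℂ) * Complex.log (Complex.exp (f i))) l (𝓝 0) := by
    have h1 : Tendsto (fun i => (C + Real.pi) * ‖Complex.log (Complex.exp (f i))‖) l (𝓝 0) := by
      have := (hL0.norm).const_mul (C + Real.pi)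
      rwa [norm_zero, mul_zero] at this
    refine squeeze_zero_norm (fun i => ?_) h1
    rw [norm_mul, Complex.norm_intCast]
    exact mul_le_mul_of_nonneg_right (hNb i) (norm_nonneg _)
  -- the limit of the exponent
  have hE : Tendsto (fun i => Complex.exp (Complex.I / Real.pi * ((li2 (Complex.exp (f i)) -
      Real.pi ^ 2 / 6) + (Complex.log (Complex.exp (f i)) * Complex.log (1 - Complex.exp (f i))) / 2 -
        Real.pi * Complex.I * (N i * Complex.log (Complex.exp (f i)))))) l (𝓝 1) := by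
    have h1 := ((hli.sub_const ((Real.pi : ℂ) ^ 2 / 6)).add (hLL.div_const 2)).sub
      (hNL.const_mul (Real.pi * Complex.I))
    rw [sub_self, zero_div, add_zero, mul_zero, sub_zero] at h1
    have h2 := h1.const_mul (Complex.I / Real.pi)
    rw [mul_zero] at h2
    have h3 := (Complex.continuous_exp.tendsto 0).comp h2
    rwa [Complex.exp_zero] at h3
  refine hE.congr' ?_
  filter_upwards [hMm] with i hi
  have h1 : Cg ((li2 (Complex.exp (f i)) - Real.pi ^ 2 / 6) +
      (Complex.log (Complex.exp (f i)) * Complex.log (1 - Complex.exp (f i))) / 2 -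
        Real.pi * Complex.I * (N i * Complex.log (Complex.exp (f i))))
      (rl (f i) (g i) - Real.pi * Complex.I * m * g i) := by
    refine ⟨-(m * N i), ?_⟩
    have h2 := hM i
    have h3 := hN i
    rw [hi] at h2
    unfold rl
    set L0 := Complex.log (Complex.exp (f i))
    set L1 := Complex.log (1 - Complex.exp (f i))
    set Z := li2 (Complex.exp (f i))
    rw [h2, h3]
    push_cast
    linear_combination (2 * (Real.pi : ℂ) ^ 2 * m * N i) * hI
  exact h1.exp_eq

end Pool.Agent.Work.MP_b30479_gtS.G2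

end

section

/-!
# The lifted five-term relation

`C i j` are logarithms of the Ptolemy coordinates `c i j` of five points.  Numerically tested with
random logarithms.

Proof.  Choose `θ` such that `r i = c i 4 e^{-iθ} / c i 3` (`i = 0, 1, 2`) is not in `(-∞, 0]`
(three conditions, so one of four angles works).  For `τ ≥ 0` let
`c i 4 (τ) = c i 4 + τ e^{iθ} c i 3 = c i 3 e^{iθ} (τ + r i)` (`i < 3`), all other `c i j` constant:
the Ptolemy relations remain true.  Logarithms: `C i 4 (τ) = C i 4 - Log (r i) + Log (τ + r i)`.  By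
`rl_deriv` the function `exp (i/π · sum)` is constant (`∑ (-1)^i (α_i dβ_i - β_i dα_i) = 0`
identically).  As `τ → ∞`, `C i 4 (τ) - C i 3 - iθ - log τ → 2πi N i`, the faces `0134`, `0234`,
`1234` degenerate (`rl_lim`, `z → 1`, `m = N 0 - N 1`, `N 0 - N 2`, `N 1 - N 2`), and the face `0124`
tends to the face `0123` with logarithms shifted by `2πi (N 0 - N 1)`, `2πi (N 2 - N 1)`
(`rl_shift`); all the terms with `N` cancel.
-/

namespace Pool.Agent.Work.MP_b30479_gtS.G2

open Filter Topology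

/-- the contribution of the face `i j k l` -/
noncomputable def fc {n : ℕ} (C : Fin n → Fin n → ℂ) (i j k l : Fin n) : ℂ :=
  rl (C i l + C j k - C i k - C j l) (C i j + C k l - C i k - C j l)

/-- the Ptolemy relation -/
def Pt {n : ℕ} (C : Fin n → Fin n → ℂ) (i j k l : Fin n) : Prop :=
  Complex.exp (C i l + C j k) + Complex.exp (C i j + C k l) = Complex.exp (C i k + C j l)

namespace LFiveAux

/-- the exponential -/
noncomputable def E (z : ℂ) : ℂ := Complex.exp (Complex.I / Real.pi * z)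

lemma E_add (x y : ℂ) : E (x + y) = E x * E y := by
  unfold E
  rw [mul_add, Complex.exp_add]

lemma E_sub (x y : ℂ) : E (x - y) = E x * (E y)⁻¹ := by
  unfold E
  rw [mul_sub, Complex.exp_sub, div_eq_mul_inv]

lemma E_ne (x : ℂ) : E x ≠ 0 := Complex.exp_ne_zero _

lemma cg_E {x y : ℂ} (h : Cg x y) : E x = E y := by
  have h1 := cg_iff.1 h
  have h2 : E (x - y) = 1 := h1
  rw [E_sub, mul_inv_eq_one₀ (E_ne y)] at h2
  exact h2

lemma E_int (n : ℤ) : E (Real.pi * Complex.I * (2 * Real.pi * Complex.I * n)) = 1 := by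
  unfold E
  have hpi : (Real.pi : ℂ) ≠ 0 := by exact_mod_cast Real.pi_ne_zero
  have e : Complex.I / Real.pi * (Real.pi * Complex.I * (2 * Real.pi * Complex.I * n)) =
      ((-n : ℤ) : ℂ) * (2 * Real.pi * Complex.I) := by
    push_cast
    field_simp
    rw [Complex.I_sq]
    ring
  rw [e]
  exact Complex.exp_int_mul_two_pi_mul_I (-n)

lemma E_cont : Continuous E := by
  unfold E
  fun_prop

/-- the direction -/
lemma dir (ζ : Fin 3 → ℂ) (hζ : ∀ i, ζ i ≠ 0) :
    ∃ w : ℂ, w ≠ 0 ∧ ∀ i, ζ i * w ∈ Complex.slitPlane := by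
  set W : Fin 4 → ℂ := ![1, Complex.I, -1, -Complex.I] with hW
  by_contra hcon
  push Not at hcon
  have hW0 : ∀ a, W a ≠ 0 := by
    intro a
    fin_cases a <;> simp [hW]
  have h1 : ∀ a : Fin 4, ∃ i : Fin 3, ζ i * W a ∉ Complex.slitPlane := fun a => hcon (W a) (hW0 a)
  choose f hf using h1
  obtain ⟨a, b, hab, hfab⟩ := Fintype.exists_ne_map_eq_of_card_lt f (by simp)
  have ha := hf a
  have hb := hf b
  rw [← hfab] at hb
  set z := ζ (f a) with hz
  have hz0 : z ≠ 0 := hζ _
  have hz1 : z.re ≠ 0 ∨ z.im ≠ 0 := by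
    by_contra h
    push Not at h
    exact hz0 (Complex.ext h.1 h.2)
  rw [Complex.mem_slitPlane_iff, not_or, not_lt, not_not] at ha hb
  obtain ⟨ha1, ha2⟩ := ha
  obtain ⟨hb1, hb2⟩ := hb
  fin_cases a <;> fin_cases b <;> simp [hW] at hab ha1 ha2 hb1 hb2 <;>
    rcases hz1 with h | h <;> apply h <;> linarith

/-- `F` has the logarithmic derivative `d` at `t` -/
def LogD (F : ℝ → ℂ) (d : ℂ) (t : ℝ) : Prop := HasDerivAt F (F t * d) t

lemma LogD.mul {F G : ℝ → ℂ} {d e : ℂ} {t : ℝ} (hF : LogD F d t) (hG : LogD G e t) :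
    LogD (fun s => F s * G s) (d + e) t := by
  unfold LogD at *
  refine (HasDerivAt.mul hF hG).congr_deriv ?_
  ring

lemma LogD.inv {F : ℝ → ℂ} {d : ℂ} {t : ℝ} (hF : LogD F d t) (h0 : F t ≠ 0) :
    LogD (fun s => (F s)⁻¹) (-d) t := by
  unfold LogD at *
  refine (HasDerivAt.inv hF h0).congr_deriv ?_
  field_simp

lemma hasDerivAt_ell {r : ℂ} {t : ℝ} (h : (t : ℂ) + r ∈ Complex.slitPlane) :
    HasDerivAt (fun s : ℝ => Complex.log (s + r)) (1 / (t + r)) t :=
  HasDerivAt.clog_real ((Complex.ofRealCLM.hasDerivAt (x := t)).add_const r) h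

lemma slit_add {r : ℂ} (hr : r ∈ Complex.slitPlane) {t : ℝ} (ht : 0 ≤ t) :
    (t : ℂ) + r ∈ Complex.slitPlane := by
  rw [Complex.mem_slitPlane_iff] at *
  simp only [Complex.add_re, Complex.ofReal_re, Complex.add_im, Complex.ofReal_im, zero_add]
  rcases hr with h | h
  · exact Or.inl (by linarith)
  · exact Or.inr h

/-- the difference of the logarithms -/
lemma ell_sub {r s : ℂ} (hr : r ∈ Complex.slitPlane) (hs : s ∈ Complex.slitPlane) {t : ℝ}
    (ht : 0 < t) : Complex.log (t + r) - Complex.log (t + s) =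
      Complex.log (1 + r * (t⁻¹ : ℝ)) - Complex.log (1 + s * (t⁻¹ : ℝ)) := by
  have key : ∀ r : ℂ, r ∈ Complex.slitPlane →
      Complex.log (t + r) = Real.log t + Complex.log (1 + r * (t⁻¹ : ℝ)) := by
    intro r hr
    have ht0 : (t : ℂ) ≠ 0 := by exact_mod_cast ht.ne'
    have e : (t : ℂ) + r = t * (1 + r * (t⁻¹ : ℝ)) := by
      push_cast
      field_simp
    have h0 : (1 + r * (t⁻¹ : ℝ)) ≠ 0 := by
      intro h
      have := Complex.slitPlane_ne_zero (slit_add hr ht.le)
      rw [e, h, mul_zero] at this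
      exact this rfl
    rw [e, Complex.log_ofReal_mul ht h0]
  rw [key r hr, key s hs]
  ring

lemma rel {a b c : ℂ} (h : Complex.exp a + Complex.exp b = Complex.exp c) :
    Complex.exp (a - c) + Complex.exp (b - c) = 1 := by
  rw [Complex.exp_sub, Complex.exp_sub, ← add_div, h, div_self (Complex.exp_ne_zero c)]

/-- the moving logarithm -/
noncomputable def A (C3 Θ r : ℂ) (N : ℤ) (t : ℝ) : ℂ :=
  C3 + Θ + N * (2 * Real.pi * Complex.I) + Complex.log (t + r)

lemma exp_A (C3 Θ : ℂ) {r : ℂ} (N : ℤ) {t : ℝ} (h : (t : ℂ) + r ≠ 0) :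
    Complex.exp (A C3 Θ r N t) = Complex.exp C3 * Complex.exp Θ * (t + r) := by
  unfold A
  rw [Complex.exp_add, Complex.exp_add, Complex.exp_add, Complex.exp_int_mul_two_pi_mul_I,
    Complex.exp_log h]
  ring

lemma deriv_A (C3 Θ : ℂ) {r : ℂ} (N : ℤ) {t : ℝ} (h : (t : ℂ) + r ∈ Complex.slitPlane) :
    HasDerivAt (A C3 Θ r N) (1 / (t + r)) t :=
  (hasDerivAt_ell h).const_add (C3 + Θ + N * (2 * Real.pi * Complex.I))

lemma im_A (C3 Θ r : ℂ) (N : ℤ) (t : ℝ) :
    |(A C3 Θ r N t).im| ≤ |(C3 + Θ + N * (2 * Real.pi * Complex.I)).im| + Real.pi := by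
  unfold A
  rw [Complex.add_im]
  refine (abs_add_le _ _).trans (add_le_add_right ?_ _)
  rw [Complex.log_im]
  exact Complex.abs_arg_le_pi _

lemma lim_ell {r s : ℂ} (hr : r ∈ Complex.slitPlane) (hs : s ∈ Complex.slitPlane) :
    Tendsto (fun n : ℕ => Complex.log (((n : ℝ) : ℂ) + r) - Complex.log (((n : ℝ) : ℂ) + s))
      atTop (𝓝 0) := by
  have h1 : Tendsto (fun n : ℕ => Complex.log (1 + r * (((n : ℝ))⁻¹ : ℝ)) -
      Complex.log (1 + s * (((n : ℝ))⁻¹ : ℝ))) atTop (𝓝 0) := by
    have h2 : ∀ r : ℂ, Tendsto (fun n : ℕ => Complex.log (1 + r * (((n : ℝ))⁻¹ : ℝ))) atTop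
        (𝓝 0) := by
      intro r
      have h3 : Tendsto (fun n : ℕ => 1 + r * ((((n : ℝ))⁻¹ : ℝ) : ℂ)) atTop (𝓝 1) := by
        have h4 : Tendsto (fun n : ℕ => ((((n : ℝ))⁻¹ : ℝ) : ℂ)) atTop (𝓝 ((0 : ℝ) : ℂ)) :=
          (Complex.continuous_ofReal.tendsto 0).comp tendsto_inv_atTop_nhds_zero_nat
        have := (h4.const_mul r).const_add 1
        simpa using this
      have h5 : ContinuousAt Complex.log 1 := continuousAt_clog (by simp)
      have := h5.tendsto.comp h3
      rw [Complex.log_one] at this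
      exact this
    simpa using (h2 r).sub (h2 s)
  refine h1.congr' ?_
  filter_upwards [eventually_gt_atTop 0] with n hn
  exact (ell_sub hr hs (by exact_mod_cast hn)).symm

end LFiveAux

open LFiveAux

namespace LFiveAux

variable {C01 C02 C03 C04 C12 C13 C14 C23 C24 C34 : ℂ}

theorem five_exp
    (h0 : Complex.exp (C14 + C23) + Complex.exp (C12 + C34) = Complex.exp (C13 + C24))
    (h1 : Complex.exp (C04 + C23) + Complex.exp (C02 + C34) = Complex.exp (C03 + C24))
    (h2 : Complex.exp (C04 + C13) + Complex.exp (C01 + C34) = Complex.exp (C03 + C14))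
    (h3 : Complex.exp (C04 + C12) + Complex.exp (C01 + C24) = Complex.exp (C02 + C14))
    (h4 : Complex.exp (C03 + C12) + Complex.exp (C01 + C23) = Complex.exp (C02 + C13)) :
    E (rl (C14 + C23 - C13 - C24) (C12 + C34 - C13 - C24)) *
      (E (rl (C04 + C23 - C03 - C24) (C02 + C34 - C03 - C24)))⁻¹ *
      E (rl (C04 + C13 - C03 - C14) (C01 + C34 - C03 - C14)) *
      (E (rl (C04 + C12 - C02 - C14) (C01 + C24 - C02 - C14)))⁻¹ *
      E (rl (C03 + C12 - C02 - C13) (C01 + C23 - C02 - C13)) = 1 := by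
  have hpi : (Real.pi : ℂ) ≠ 0 := by exact_mod_cast Real.pi_ne_zero
  obtain ⟨w, hw0, hw⟩ := dir ![Complex.exp (C04 - C03), Complex.exp (C14 - C13),
    Complex.exp (C24 - C23)] (by intro i; fin_cases i <;> simp)
  obtain ⟨Θ, hΘ⟩ : ∃ Θ : ℂ, Complex.exp (-Θ) = w := ⟨-Complex.log w, by
    rw [neg_neg, Complex.exp_log hw0]⟩
  have hr : ∀ X Y : ℂ, Complex.exp (X - Y) * w = Complex.exp (X - Y - Θ) := fun X Y => by
    rw [sub_eq_add_neg (X - Y) Θ, Complex.exp_add, hΘ]
  obtain ⟨r0, hr0⟩ : ∃ r, r = Complex.exp (C04 - C03) * w := ⟨_, rfl⟩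
  obtain ⟨r1, hr1⟩ : ∃ r, r = Complex.exp (C14 - C13) * w := ⟨_, rfl⟩
  obtain ⟨r2, hr2⟩ : ∃ r, r = Complex.exp (C24 - C23) * w := ⟨_, rfl⟩
  have s0 : r0 ∈ Complex.slitPlane := by
    have := hw 0
    simpa [← hr0] using this
  have s1 : r1 ∈ Complex.slitPlane := by
    have := hw 1
    simpa [← hr1] using this
  have s2 : r2 ∈ Complex.slitPlane := by
    have := hw 2
    simpa [← hr2] using this
  have hN : ∀ X Y r : ℂ, r = Complex.exp (X - Y) * w → r ∈ Complex.slitPlane →
      ∃ N : ℤ, A Y Θ r N 0 = X := by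
    intro X Y r h hs
    rw [hr] at h
    have h5 : Complex.exp (X - Y - Θ) = Complex.exp (Complex.log r) := by
      rw [Complex.exp_log (Complex.slitPlane_ne_zero hs), h]
    obtain ⟨N, hN⟩ := Complex.exp_eq_exp_iff_exists_int.1 h5
    refine ⟨N, ?_⟩
    unfold A
    rw [Complex.ofReal_zero, zero_add]
    linear_combination -hN
  obtain ⟨N0, hN0⟩ := hN C04 C03 r0 hr0 s0
  obtain ⟨N1, hN1⟩ := hN C14 C13 r1 hr1 s1
  obtain ⟨N2, hN2⟩ := hN C24 C23 r2 hr2 s2
  set A0 := A C03 Θ r0 N0 with hA0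
  set A1 := A C13 Θ r1 N1 with hA1
  set A2 := A C23 Θ r2 N2 with hA2
  -- the values of the exponentials
  have q0 : Complex.exp C04 = Complex.exp C03 * Complex.exp Θ * r0 := by
    rw [← hN0, exp_A C03 Θ N0 (by simpa using Complex.slitPlane_ne_zero s0)]
    simp
  have q1 : Complex.exp C14 = Complex.exp C13 * Complex.exp Θ * r1 := by
    rw [← hN1, exp_A C13 Θ N1 (by simpa using Complex.slitPlane_ne_zero s1)]
    simp
  have q2 : Complex.exp C24 = Complex.exp C23 * Complex.exp Θ * r2 := by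
    rw [← hN2, exp_A C23 Θ N2 (by simpa using Complex.slitPlane_ne_zero s2)]
    simp
  simp only [Complex.exp_add, q0, q1, q2] at h0 h1 h2 h3 h4
  -- the relations for all times
  have R0 : ∀ t : ℝ, (t : ℂ) + r1 ≠ 0 → (t : ℂ) + r2 ≠ 0 →
      Complex.exp (A1 t + C23 - C13 - A2 t) + Complex.exp (C12 + C34 - C13 - A2 t) = 1 := by
    intro t g1 g2
    have e : Complex.exp (A1 t + C23) + Complex.exp (C12 + C34) = Complex.exp (C13 + A2 t) := by
      rw [Complex.exp_add, Complex.exp_add, Complex.exp_add, hA1, hA2, exp_A _ _ _ g1,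
        exp_A _ _ _ g2]
      linear_combination h0
    have := rel e
    rwa [show A1 t + C23 - (C13 + A2 t) = A1 t + C23 - C13 - A2 t by ring,
      show C12 + C34 - (C13 + A2 t) = C12 + C34 - C13 - A2 t by ring] at this
  have R1 : ∀ t : ℝ, (t : ℂ) + r0 ≠ 0 → (t : ℂ) + r2 ≠ 0 →
      Complex.exp (A0 t + C23 - C03 - A2 t) + Complex.exp (C02 + C34 - C03 - A2 t) = 1 := by
    intro t g1 g2
    have e : Complex.exp (A0 t + C23) + Complex.exp (C02 + C34) = Complex.exp (C03 + A2 t) := by
      rw [Complex.exp_add, Complex.exp_add, Complex.exp_add, hA0, hA2, exp_A _ _ _ g1,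
        exp_A _ _ _ g2]
      linear_combination h1
    have := rel e
    rwa [show A0 t + C23 - (C03 + A2 t) = A0 t + C23 - C03 - A2 t by ring,
      show C02 + C34 - (C03 + A2 t) = C02 + C34 - C03 - A2 t by ring] at this
  have R2 : ∀ t : ℝ, (t : ℂ) + r0 ≠ 0 → (t : ℂ) + r1 ≠ 0 →
      Complex.exp (A0 t + C13 - C03 - A1 t) + Complex.exp (C01 + C34 - C03 - A1 t) = 1 := by
    intro t g1 g2
    have e : Complex.exp (A0 t + C13) + Complex.exp (C01 + C34) = Complex.exp (C03 + A1 t) := by
      rw [Complex.exp_add, Complex.exp_add, Complex.exp_add, hA0, hA1, exp_A _ _ _ g1,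
        exp_A _ _ _ g2]
      linear_combination h2
    have := rel e
    rwa [show A0 t + C13 - (C03 + A1 t) = A0 t + C13 - C03 - A1 t by ring,
      show C01 + C34 - (C03 + A1 t) = C01 + C34 - C03 - A1 t by ring] at this
  have R3 : ∀ t : ℝ, (t : ℂ) + r0 ≠ 0 → (t : ℂ) + r1 ≠ 0 → (t : ℂ) + r2 ≠ 0 →
      Complex.exp (A0 t + C12 - C02 - A1 t) + Complex.exp (C01 + A2 t - C02 - A1 t) = 1 := by
    intro t g0 g1 g2
    have e : Complex.exp (A0 t + C12) + Complex.exp (C01 + A2 t) = Complex.exp (C02 + A1 t) := by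
      rw [Complex.exp_add, Complex.exp_add, Complex.exp_add, hA0, hA1, hA2, exp_A _ _ _ g0,
        exp_A _ _ _ g1, exp_A _ _ _ g2]
      linear_combination h3 + Complex.exp Θ * t * h4
    have := rel e
    rwa [show A0 t + C12 - (C02 + A1 t) = A0 t + C12 - C02 - A1 t by ring,
      show C01 + A2 t - (C02 + A1 t) = C01 + A2 t - C02 - A1 t by ring] at this
  -- the function is constant
  set F : ℝ → ℂ := fun t => E (rl (A1 t + C23 - C13 - A2 t) (C12 + C34 - C13 - A2 t)) *
      (E (rl (A0 t + C23 - C03 - A2 t) (C02 + C34 - C03 - A2 t)))⁻¹ *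
      E (rl (A0 t + C13 - C03 - A1 t) (C01 + C34 - C03 - A1 t)) *
      (E (rl (A0 t + C12 - C02 - A1 t) (C01 + A2 t - C02 - A1 t)))⁻¹ with hF
  have hd : ∀ t : ℝ, 0 ≤ t → HasDerivAt F 0 t := by
    intro t ht
    have d0 := deriv_A C03 Θ N0 (slit_add s0 ht)
    have d1 := deriv_A C13 Θ N1 (slit_add s1 ht)
    have d2 := deriv_A C23 Θ N2 (slit_add s2 ht)
    rw [← hA0] at d0
    rw [← hA1] at d1
    rw [← hA2] at d2
    have ev : ∀ r : ℂ, r ∈ Complex.slitPlane → ∀ᶠ s : ℝ in 𝓝 t, (s : ℂ) + r ≠ 0 := by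
      intro r hr
      have h5 : ContinuousAt (fun s : ℝ => (s : ℂ) + r) t := by fun_prop
      exact h5.eventually_ne (Complex.slitPlane_ne_zero (slit_add hr ht))
    have l0 := rl_deriv (((d1.add_const C23).sub_const C13).sub d2) (d2.const_sub (C12 + C34 - C13))
      (by filter_upwards [ev r1 s1, ev r2 s2] with s g1 g2 using R0 s g1 g2)
    have l1 := rl_deriv (((d0.add_const C23).sub_const C03).sub d2) (d2.const_sub (C02 + C34 - C03))
      (by filter_upwards [ev r0 s0, ev r2 s2] with s g1 g2 using R1 s g1 g2)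
    have l2 := rl_deriv (((d0.add_const C13).sub_const C03).sub d1) (d1.const_sub (C01 + C34 - C03))
      (by filter_upwards [ev r0 s0, ev r1 s1] with s g1 g2 using R2 s g1 g2)
    have l3 := rl_deriv (((d0.add_const C12).sub_const C02).sub d1)
      (((d2.const_add C01).sub_const C02).sub d1)
      (by filter_upwards [ev r0 s0, ev r1 s1, ev r2 s2] with s g0 g1 g2 using R3 s g0 g1 g2)
    have L0 : LogD (fun t => E (rl (A1 t + C23 - C13 - A2 t) (C12 + C34 - C13 - A2 t))) _ t := l0
    have L1 : LogD (fun t => E (rl (A0 t + C23 - C03 - A2 t) (C02 + C34 - C03 - A2 t))) _ t := l1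
    have L2 : LogD (fun t => E (rl (A0 t + C13 - C03 - A1 t) (C01 + C34 - C03 - A1 t))) _ t := l2
    have L3 : LogD (fun t => E (rl (A0 t + C12 - C02 - A1 t) (C01 + A2 t - C02 - A1 t))) _ t := l3
    have L := ((L0.mul (L1.inv (E_ne _))).mul L2).mul (L3.inv (E_ne _))
    unfold LogD at L
    refine L.congr_deriv ?_
    rw [mul_eq_zero]
    right
    simp only [Pi.sub_apply]
    ring
  have hconst : ∀ t : ℝ, 0 ≤ t → F t = F 0 := by
    intro t ht
    refine constant_of_has_deriv_right_zero (a := 0) (b := t) ?_ ?_ t ⟨ht, le_rfl⟩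
    · intro s hs
      exact (hd s hs.1).continuousAt.continuousWithinAt
    · intro s hs
      exact (hd s hs.1).hasDerivWithinAt
  -- the limits
  have gs : ∀ r : ℂ, r ∈ Complex.slitPlane → ∀ n : ℕ, ((n : ℝ) : ℂ) + r ≠ 0 := fun r hr n =>
    Complex.slitPlane_ne_zero (slit_add hr (Nat.cast_nonneg n))
  have T0 := rl_lim (l := atTop) (N1 - N2) (f := fun n : ℕ => A1 n + C23 - C13 - A2 n)
    (g := fun n : ℕ => C12 + C34 - C13 - A2 n)
    (fun n => R0 n (gs r1 s1 n) (gs r2 s2 n)) (by
      have := (lim_ell s1 s2).const_add (2 * Real.pi * Complex.I * ((N1 - N2 : ℤ) : ℂ))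
      rw [add_zero] at this
      refine this.congr fun n => ?_
      rw [hA1, hA2]
      unfold A
      push_cast
      ring) ⟨|(C12 + C34 - C13).im| + (|(C23 + Θ + N2 * (2 * Real.pi * Complex.I)).im| + Real.pi),
      fun n => by
        rw [Complex.sub_im]
        exact (abs_sub _ _).trans (add_le_add_right (im_A _ _ _ _ _) _)⟩
  have T1 := rl_lim (l := atTop) (N0 - N2) (f := fun n : ℕ => A0 n + C23 - C03 - A2 n)
    (g := fun n : ℕ => C02 + C34 - C03 - A2 n)
    (fun n => R1 n (gs r0 s0 n) (gs r2 s2 n)) (by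
      have := (lim_ell s0 s2).const_add (2 * Real.pi * Complex.I * ((N0 - N2 : ℤ) : ℂ))
      rw [add_zero] at this
      refine this.congr fun n => ?_
      rw [hA0, hA2]
      unfold A
      push_cast
      ring) ⟨|(C02 + C34 - C03).im| + (|(C23 + Θ + N2 * (2 * Real.pi * Complex.I)).im| + Real.pi),
      fun n => by
        rw [Complex.sub_im]
        exact (abs_sub _ _).trans (add_le_add_right (im_A _ _ _ _ _) _)⟩
  have T2 := rl_lim (l := atTop) (N0 - N1) (f := fun n : ℕ => A0 n + C13 - C03 - A1 n)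
    (g := fun n : ℕ => C01 + C34 - C03 - A1 n)
    (fun n => R2 n (gs r0 s0 n) (gs r1 s1 n)) (by
      have := (lim_ell s0 s1).const_add (2 * Real.pi * Complex.I * ((N0 - N1 : ℤ) : ℂ))
      rw [add_zero] at this
      refine this.congr fun n => ?_
      rw [hA0, hA1]
      unfold A
      push_cast
      ring) ⟨|(C01 + C34 - C03).im| + (|(C13 + Θ + N1 * (2 * Real.pi * Complex.I)).im| + Real.pi),
      fun n => by
        rw [Complex.sub_im]
        exact (abs_sub _ _).trans (add_le_add_right (im_A _ _ _ _ _) _)⟩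
  -- the face which stays
  have hlog : ∀ r : ℂ, HasDerivAt (fun u : ℝ => Complex.log (1 + r * u)) (r * 1 / (1 + r * (0 : ℝ))) 0 := by
    intro r
    exact HasDerivAt.clog_real (((Complex.ofRealCLM.hasDerivAt (x := 0)).const_mul r).const_add 1)
      (by simp)
  have ev0 : ∀ r : ℂ, ∀ᶠ u : ℝ in 𝓝 0, 1 + r * (u : ℂ) ≠ 0 := by
    intro r
    have h5 : ContinuousAt (fun u : ℝ => 1 + r * (u : ℂ)) 0 := by fun_prop
    exact h5.eventually_ne (by simp)
  have hT0 : Complex.exp Θ ≠ 0 := Complex.exp_ne_zero Θ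
  have h3' : Complex.exp C03 * r0 * Complex.exp C12 + Complex.exp C01 * (Complex.exp C23 * r2) =
      Complex.exp C02 * (Complex.exp C13 * r1) := by
    have : Complex.exp Θ * (Complex.exp C03 * r0 * Complex.exp C12 +
        Complex.exp C01 * (Complex.exp C23 * r2)) =
      Complex.exp Θ * (Complex.exp C02 * (Complex.exp C13 * r1)) := by linear_combination h3
    exact mul_left_cancel₀ hT0 this
  set f : ℝ → ℂ := fun u => (C03 + C12 - C02 - C13 + 2 * Real.pi * Complex.I * ((N0 - N1 : ℤ) : ℂ)) +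
    (Complex.log (1 + r0 * u) - Complex.log (1 + r1 * u)) with hf
  set g : ℝ → ℂ := fun u => (C01 + C23 - C02 - C13 + 2 * Real.pi * Complex.I * ((N2 - N1 : ℤ) : ℂ)) +
    (Complex.log (1 + r2 * u) - Complex.log (1 + r1 * u)) with hg
  have hint : ∀ n : ℤ, Complex.exp (2 * Real.pi * Complex.I * n) = 1 := fun n => by
    rw [mul_comm]
    exact Complex.exp_int_mul_two_pi_mul_I n
  have hfg : ∀ᶠ u : ℝ in 𝓝 0, Complex.exp (f u) + Complex.exp (g u) = 1 := by
    filter_upwards [ev0 r0, ev0 r1, ev0 r2] with u g0 g1 g2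
    have e : Complex.exp (C03 + C12 + Complex.log (1 + r0 * u)) +
        Complex.exp (C01 + C23 + Complex.log (1 + r2 * u)) =
        Complex.exp (C02 + C13 + Complex.log (1 + r1 * u)) := by
      simp only [Complex.exp_add]
      rw [Complex.exp_log g0, Complex.exp_log g1, Complex.exp_log g2]
      linear_combination h4 + u * h3'
    have e1 := rel e
    have e2 : f u = (C03 + C12 + Complex.log (1 + r0 * u) -
        (C02 + C13 + Complex.log (1 + r1 * u))) + 2 * Real.pi * Complex.I * ((N0 - N1 : ℤ) : ℂ) := by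
      rw [hf]
      ring
    have e3 : g u = (C01 + C23 + Complex.log (1 + r2 * u) -
        (C02 + C13 + Complex.log (1 + r1 * u))) + 2 * Real.pi * Complex.I * ((N2 - N1 : ℤ) : ℂ) := by
      rw [hg]
      ring
    rw [e2, e3, Complex.exp_add, Complex.exp_add, hint, hint, mul_one, mul_one]
    exact e1
  have dR := rl_deriv (f := f) (g := g) (((hlog r0).sub (hlog r1)).const_add _)
    (((hlog r2).sub (hlog r1)).const_add _) hfg
  have T3 : Tendsto (fun n : ℕ => E (rl (A0 n + C12 - C02 - A1 n) (C01 + A2 n - C02 - A1 n))) atTop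
      (𝓝 (E (rl (C03 + C12 - C02 - C13 + 2 * Real.pi * Complex.I * ((N0 - N1 : ℤ) : ℂ))
        (C01 + C23 - C02 - C13 + 2 * Real.pi * Complex.I * ((N2 - N1 : ℤ) : ℂ))))) := by
    have c1 := dR.continuousAt.tendsto.comp (tendsto_inv_atTop_nhds_zero_nat (𝕜 := ℝ))
    have e0 : f 0 = C03 + C12 - C02 - C13 + 2 * Real.pi * Complex.I * ((N0 - N1 : ℤ) : ℂ) := by
      simp [hf]
    have e1 : g 0 = C01 + C23 - C02 - C13 + 2 * Real.pi * Complex.I * ((N2 - N1 : ℤ) : ℂ) := by
      simp [hg]
    rw [e0, e1] at c1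
    refine c1.congr' ?_
    filter_upwards [eventually_gt_atTop 0] with n hn
    have hn' : (0 : ℝ) < n := by exact_mod_cast hn
    have e2 : f ((n : ℝ)⁻¹) = A0 n + C12 - C02 - A1 n := by
      have := ell_sub s0 s1 hn'
      rw [hf, hA0, hA1]
      unfold A
      simp only
      rw [← this]
      push_cast
      ring
    have e3 : g ((n : ℝ)⁻¹) = C01 + A2 n - C02 - A1 n := by
      have := ell_sub s2 s1 hn'
      rw [hg, hA2, hA1]
      unfold A
      simp only
      rw [← this]
      push_cast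
      ring
    simp only [Function.comp, E]
    rw [e2, e3]
  have hrel : Complex.exp (C03 + C12 - C02 - C13) + Complex.exp (C01 + C23 - C02 - C13) = 1 := by
    have e : Complex.exp (C03 + C12) + Complex.exp (C01 + C23) = Complex.exp (C02 + C13) := by
      rw [Complex.exp_add, Complex.exp_add, Complex.exp_add]
      exact h4
    have := rel e
    rwa [show C03 + C12 - (C02 + C13) = C03 + C12 - C02 - C13 by ring,
      show C01 + C23 - (C02 + C13) = C01 + C23 - C02 - C13 by ring] at this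
  rw [cg_E (rl_shift hrel (N0 - N1) (N2 - N1))] at T3
  -- the remaining linear terms
  set K : ℂ := ((N1 - N2 : ℤ) : ℂ) * (C12 + C34 - C13) - ((N0 - N2 : ℤ) : ℂ) * (C02 + C34 - C03) +
    ((N0 - N1 : ℤ) : ℂ) * (C01 + C34 - C03) + ((N0 - N1 : ℤ) : ℂ) *
      (C23 - C13 + 2 * Real.pi * Complex.I * ((N2 - N1 : ℤ) : ℂ)) with hK
  have T4 : Tendsto (fun n : ℕ => Real.pi * Complex.I * (((N1 - N2 : ℤ) : ℂ) *
      (C12 + C34 - C13 - A2 n) - ((N0 - N2 : ℤ) : ℂ) * (C02 + C34 - C03 - A2 n) +
      ((N0 - N1 : ℤ) : ℂ) * (C01 + C34 - C03 - A1 n))) atTop (𝓝 (Real.pi * Complex.I * K)) := by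
    have := ((((lim_ell s2 s1).const_mul ((N0 - N1 : ℤ) : ℂ)).const_add K).const_mul
      (Real.pi * Complex.I))
    rw [mul_zero, add_zero] at this
    refine this.congr fun n => ?_
    rw [hK, hA1, hA2]
    unfold A
    push_cast
    ring
  have T5 := (E_cont.tendsto _).comp T4
  have T6 := ((((T0.mul (T1.inv₀ one_ne_zero)).mul T2).mul (T3.inv₀ (E_ne _))).mul T5)
  have e1 : ∀ n : ℕ, F n = F 0 := fun n => hconst n (Nat.cast_nonneg n)
  have e2 : F 0 = E (rl (C14 + C23 - C13 - C24) (C12 + C34 - C13 - C24)) *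
      (E (rl (C04 + C23 - C03 - C24) (C02 + C34 - C03 - C24)))⁻¹ *
      E (rl (C04 + C13 - C03 - C14) (C01 + C34 - C03 - C14)) *
      (E (rl (C04 + C12 - C02 - C14) (C01 + C24 - C02 - C14)))⁻¹ := by
    rw [hF]
    simp only [hN0, hN1, hN2]
  rw [← e2]
  have T7 : Tendsto (fun _ : ℕ => F 0) atTop (𝓝 (1 * 1⁻¹ * 1 *
      (E (rl (C03 + C12 - C02 - C13) (C01 + C23 - C02 - C13) + Real.pi * Complex.I *
        (((N0 - N1 : ℤ) : ℂ) * (C01 + C23 - C02 - C13) -
          ((N2 - N1 : ℤ) : ℂ) * (C03 + C12 - C02 - C13))))⁻¹ * E (Real.pi * Complex.I * K))) := by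
    refine T6.congr fun n => ?_
    rw [← e1 n, hF]
    simp only [Function.comp]
    have c0 : ∀ (x y : ℂ) (m : ℤ), Complex.exp (Complex.I / Real.pi * (x - Real.pi * Complex.I * m * y)) =
        E x * (E (Real.pi * Complex.I * (m * y)))⁻¹ := by
      intro x y m
      rw [← E_sub]
      unfold E
      congr 1
      ring
    rw [c0, c0, c0]
    rw [mul_add (Real.pi * Complex.I : ℂ), mul_sub (Real.pi * Complex.I : ℂ), E_add, E_sub]
    have n0 := E_ne (Real.pi * Complex.I * (((N1 - N2 : ℤ) : ℂ) * (C12 + C34 - C13 - A2 n)))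
    have n1 := E_ne (Real.pi * Complex.I * (((N0 - N2 : ℤ) : ℂ) * (C02 + C34 - C03 - A2 n)))
    have n2 := E_ne (Real.pi * Complex.I * (((N0 - N1 : ℤ) : ℂ) * (C01 + C34 - C03 - A1 n)))
    generalize E (Real.pi * Complex.I * (((N1 - N2 : ℤ) : ℂ) * (C12 + C34 - C13 - A2 n))) = X0 at n0 ⊢
    generalize E (Real.pi * Complex.I * (((N0 - N2 : ℤ) : ℂ) * (C02 + C34 - C03 - A2 n))) = X1 at n1 ⊢
    generalize E (Real.pi * Complex.I * (((N0 - N1 : ℤ) : ℂ) * (C01 + C34 - C03 - A1 n))) = X2 at n2 ⊢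
    have n3 := E_ne (rl (A0 n + C23 - C03 - A2 n) (C02 + C34 - C03 - A2 n))
    have n4 := E_ne (rl (A0 n + C12 - C02 - A1 n) (C01 + A2 n - C02 - A1 n))
    generalize E (rl (A0 n + C23 - C03 - A2 n) (C02 + C34 - C03 - A2 n)) = Y1 at n3 ⊢
    generalize E (rl (A0 n + C12 - C02 - A1 n) (C01 + A2 n - C02 - A1 n)) = Y3 at n4 ⊢
    generalize E (rl (A1 n + C23 - C13 - A2 n) (C12 + C34 - C13 - A2 n)) = Y0
    generalize E (rl (A0 n + C13 - C03 - A1 n) (C01 + C34 - C03 - A1 n)) = Y2
    field_simp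
  have e3 := tendsto_nhds_unique T7 tendsto_const_nhds
  rw [← e3]
  rw [one_mul, inv_one, one_mul, one_mul, mul_assoc, mul_comm (E (Real.pi * Complex.I * K)),
    ← mul_assoc]
  rw [mul_comm (E _)⁻¹, ← E_sub, ← E_add]
  have e4 : rl (C03 + C12 - C02 - C13) (C01 + C23 - C02 - C13) -
      (rl (C03 + C12 - C02 - C13) (C01 + C23 - C02 - C13) + Real.pi * Complex.I *
        (((N0 - N1 : ℤ) : ℂ) * (C01 + C23 - C02 - C13) -
          ((N2 - N1 : ℤ) : ℂ) * (C03 + C12 - C02 - C13))) + Real.pi * Complex.I * K =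
      Real.pi * Complex.I * (2 * Real.pi * Complex.I * (((N0 - N1) * (N2 - N1) : ℤ) : ℂ)) := by
    rw [hK]
    push_cast
    ring
  rw [e4]
  exact E_int _

end LFiveAux

theorem rl_five (C : Fin 5 → Fin 5 → ℂ) (h0 : Pt C 1 2 3 4) (h1 : Pt C 0 2 3 4) (h2 : Pt C 0 1 3 4)
    (h3 : Pt C 0 1 2 4) (h4 : Pt C 0 1 2 3) :
    Cg (fc C 1 2 3 4 - fc C 0 2 3 4 + fc C 0 1 3 4 - fc C 0 1 2 4 + fc C 0 1 2 3) 0 := by
  have key := five_exp h0 h1 h2 h3 h4
  rw [cg_iff, sub_zero]
  change E _ = 1
  rw [E_add, E_sub, E_add, E_sub]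
  exact key

end Pool.Agent.Work.MP_b30479_gtS.G2

end

section

/-!
# Five-term relations in a fan

Logarithms of the values of a Markoff map on a fan: `P` for the pivot `p`, `Q l` for `q (l - 1)`,
`q (l - 1) + q (l + 1) = p q l`, `q (l - 1) q (l + 1) = q l ^ 2 + p ^ 2`.
-/

namespace Pool.Agent.Work.MP_b30479_gtS.G2

open Finset

/-- half a layer: the edge `p, q l`, third vertices `q (l - 1)`, `q (l + 1)` -/
noncomputable def hly (P : ℂ) (Q : ℕ → ℂ) (l : ℕ) : ℂ :=
  rl (2 * Q (l + 1) - Q l - Q (l + 2)) (2 * P - Q l - Q (l + 2))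

/-- logarithms of the values on a fan -/
structure Fan (P : ℂ) (Q : ℕ → ℂ) (b : ℕ) : Prop where
  lin : ∀ l ≤ b, Complex.exp (P + Q (l + 1)) = Complex.exp (Q l) + Complex.exp (Q (l + 2))
  sqr : ∀ l ≤ b, Complex.exp (Q l + Q (l + 2)) = Complex.exp (2 * Q (l + 1)) + Complex.exp (2 * P)

/-- `1 / (1 - Y)` -/
noncomputable def lamc (P : ℂ) (Q : ℕ → ℂ) (l : ℕ) : ℂ :=
  rl (Q l - P - Q (l + 1)) (Q (l + 2) - P - Q (l + 1))

/-- a letter -/
noncomputable def ltr (P : ℂ) (Q : ℕ → ℂ) (l : ℕ) : ℂ :=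
  rl (Q (l + 1) + Q (l + 2) - Q l - Q (l + 3)) (3 * P - Q l - Q (l + 3))

/-- the product of two hinges -/
noncomputable def ltt (P : ℂ) (Q : ℕ → ℂ) (l : ℕ) : ℂ :=
  rl (2 * Q (l + 2) - Q l - Q (l + 4)) (4 * P - Q l - Q (l + 4))

/-- twice the layers of an inner twist region and one half of its two hinges -/
noncomputable def rs (b : ℕ) (P : ℂ) (Q : ℕ → ℂ) : ℂ :=
  ∑ l ∈ range b, (hly P Q l + hly P Q (l + 1))

variable {P : ℂ} {Q : ℕ → ℂ} {b : ℕ}

theorem five (c01 c02 c03 c04 c12 c13 c14 c23 c24 c34 : ℂ)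
    (h0 : Complex.exp (c14 + c23) + Complex.exp (c12 + c34) = Complex.exp (c13 + c24))
    (h1 : Complex.exp (c04 + c23) + Complex.exp (c02 + c34) = Complex.exp (c03 + c24))
    (h2 : Complex.exp (c04 + c13) + Complex.exp (c01 + c34) = Complex.exp (c03 + c14))
    (h3 : Complex.exp (c04 + c12) + Complex.exp (c01 + c24) = Complex.exp (c02 + c14))
    (h4 : Complex.exp (c03 + c12) + Complex.exp (c01 + c23) = Complex.exp (c02 + c13)) :
    Cg (rl (c14 + c23 - c13 - c24) (c12 + c34 - c13 - c24) -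
      rl (c04 + c23 - c03 - c24) (c02 + c34 - c03 - c24) +
      rl (c04 + c13 - c03 - c14) (c01 + c34 - c03 - c14) -
      rl (c04 + c12 - c02 - c14) (c01 + c24 - c02 - c14) +
      rl (c03 + c12 - c02 - c13) (c01 + c23 - c02 - c13)) 0 := by
  have h := rl_five (![![0, c01, c02, c03, c04], ![0, 0, c12, c13, c14], ![0, 0, 0, c23, c24],
    ![0, 0, 0, 0, c34], ![0, 0, 0, 0, 0]] : Fin 5 → Fin 5 → ℂ) h0 h1 h2 h3 h4
  exact h

lemma exp_two (x : ℂ) : Complex.exp (2 * x) = Complex.exp x ^ 2 := by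
  rw [← Complex.exp_nat_mul]; norm_num

lemma exp_three (x : ℂ) : Complex.exp (3 * x) = Complex.exp x ^ 3 := by
  rw [← Complex.exp_nat_mul]; norm_num

lemma exp_four (x : ℂ) : Complex.exp (4 * x) = Complex.exp x ^ 4 := by
  rw [← Complex.exp_nat_mul]; norm_num

lemma exp_one_of {x y z : ℂ} (h : Complex.exp x + Complex.exp y = Complex.exp z) :
    Complex.exp (x - z) + Complex.exp (y - z) = 1 := by
  rw [Complex.exp_sub, Complex.exp_sub, ← add_div, h, div_self (Complex.exp_ne_zero z)]

lemma Cg.sub {x y x' y' : ℂ} (h : Cg x y) (h' : Cg x' y') : Cg (x - x') (y - y') := by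
  rw [sub_eq_add_neg, sub_eq_add_neg]
  exact h.add h'.neg

lemma Cg.sum {ι : Type*} {s : Finset ι} {f g : ι → ℂ} (h : ∀ i ∈ s, Cg (f i) (g i)) :
    Cg (∑ i ∈ s, f i) (∑ i ∈ s, g i) := by
  classical
  induction s using Finset.induction_on with
  | empty => simpa using Cg.refl 0
  | insert a s ha ih =>
    rw [sum_insert ha, sum_insert ha]
    exact (h a (mem_insert_self a s)).add (ih fun i hi => h i (mem_insert_of_mem hi))

/-- `q (l - 1) q (l + 2) = q l q (l + 1) + p ^ 3` -/
lemma Fan.three (F : Fan P Q b) {l : ℕ} (hl : l + 1 ≤ b) :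
    Complex.exp (Q (l + 1) + Q (l + 2)) + Complex.exp (3 * P) = Complex.exp (Q l + Q (l + 3)) := by
  have a1 := F.lin l (by omega)
  have a2 := F.lin (l + 1) hl
  have m1 := F.sqr l (by omega)
  rw [show l + 1 + 1 = l + 2 by ring, show l + 1 + 2 = l + 3 by ring] at a2
  simp only [Complex.exp_add, exp_two, exp_three] at *
  have e2 : Complex.exp (Q (l + 3)) = Complex.exp P * Complex.exp (Q (l + 2)) -
      Complex.exp (Q (l + 1)) := by rw [a2]; ring
  rw [e2]
  linear_combination -(Complex.exp P) * m1 - Complex.exp (Q (l + 1)) * a1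

/-- `q (l - 1) q (l + 3) = q (l + 1) ^ 2 + p ^ 4` -/
lemma Fan.four (F : Fan P Q b) {l : ℕ} (hl : l + 2 ≤ b) :
    Complex.exp (2 * Q (l + 2)) + Complex.exp (4 * P) = Complex.exp (Q l + Q (l + 4)) := by
  have a1 := F.lin l (by omega)
  have a3 := F.lin (l + 2) hl
  have m3 := F.three (l := l) (by omega)
  rw [show l + 2 + 1 = l + 3 by ring, show l + 2 + 2 = l + 4 by ring] at a3
  simp only [Complex.exp_add, exp_two, exp_three, exp_four] at *
  have e2 : Complex.exp (Q (l + 4)) = Complex.exp P * Complex.exp (Q (l + 3)) -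
      Complex.exp (Q (l + 2)) := by rw [a3]; ring
  rw [e2]
  linear_combination (Complex.exp P) * m3 - Complex.exp (Q (l + 2)) * a1

/-- two half layers -/
theorem hly_add (F : Fan P Q b) {l : ℕ} (hl : l + 1 ≤ b) :
    Cg (hly P Q l + hly P Q (l + 1)) (ltr P Q l + lamc P Q (l + 1) - lamc P Q l) := by
  have a1 := F.lin l (by omega)
  have a2 := F.lin (l + 1) hl
  have m1 := F.sqr l (by omega)
  have m2 := F.sqr (l + 1) hl
  have m3 := F.three hl
  rw [show l + 1 + 1 = l + 2 by ring, show l + 1 + 2 = l + 3 by ring] at a2 m2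
  obtain ⟨k, hk⟩ := five P (2 * P) (Q l) (Q (l + 1)) P (Q (l + 1)) (Q (l + 2)) (Q (l + 2)) (Q (l + 3)) P
    (by rw [m2, ← two_mul, ← two_mul]) (by rw [show 2 * P + P = 3 * P by ring]; exact m3)
    (by rw [m1, ← two_mul, ← two_mul])
    (by rw [show 2 * P + Q (l + 2) = P + (P + Q (l + 2)) by ring, Complex.exp_add P (P + Q (l + 2)),
          a2]; simp only [Complex.exp_add]; ring)
    (by rw [show 2 * P + Q (l + 1) = P + (P + Q (l + 1)) by ring, Complex.exp_add P (P + Q (l + 1)),
          a1]; simp only [Complex.exp_add]; ring)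
  refine ⟨k, ?_⟩
  rw [← hk]
  unfold hly lamc ltr
  rw [show l + 1 + 1 = l + 2 by ring, show l + 1 + 2 = l + 3 by ring]
  ring_nf

lemma lam_one (F : Fan P Q b) {l : ℕ} (hl : l ≤ b) :
    Complex.exp (Q l - P - Q (l + 1)) + Complex.exp (Q (l + 2) - P - Q (l + 1)) = 1 := by
  have h := exp_one_of (F.lin l hl).symm
  rwa [sub_add_eq_sub_sub, sub_add_eq_sub_sub] at h

lemma ltr_one (F : Fan P Q b) {l : ℕ} (hl : l + 1 ≤ b) :
    Complex.exp (Q (l + 1) + Q (l + 2) - Q l - Q (l + 3)) +
      Complex.exp (3 * P - Q l - Q (l + 3)) = 1 := by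
  have h := exp_one_of (F.three hl)
  rwa [sub_add_eq_sub_sub, sub_add_eq_sub_sub] at h

lemma ltt_one (F : Fan P Q b) {l : ℕ} (hl : l + 2 ≤ b) :
    Complex.exp (2 * Q (l + 2) - Q l - Q (l + 4)) + Complex.exp (4 * P - Q l - Q (l + 4)) = 1 := by
  have h := exp_one_of (F.four hl)
  rwa [sub_add_eq_sub_sub, sub_add_eq_sub_sub] at h

lemma hly_one (F : Fan P Q b) {l : ℕ} (hl : l ≤ b) :
    Complex.exp (2 * Q (l + 1) - Q l - Q (l + 2)) + Complex.exp (2 * P - Q l - Q (l + 2)) = 1 := by
  have h := exp_one_of (F.sqr l hl).symm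
  rwa [sub_add_eq_sub_sub, sub_add_eq_sub_sub] at h

/-- two letters -/
theorem ltr_add (F : Fan P Q b) {l : ℕ} (hl : l + 2 ≤ b) :
    Cg (ltr P Q l + ltr P Q (l + 1)) (ltt P Q l + lamc P Q (l + 2) - lamc P Q l) := by
  have a1 := F.lin l (by omega)
  have a3 := F.lin (l + 2) (by omega)
  have m3 := F.three (l := l) (by omega)
  have m3' := F.three (l := l + 1) (by omega)
  have m4 := F.four hl
  rw [show l + 2 + 1 = l + 3 by ring, show l + 2 + 2 = l + 4 by ring] at a3
  rw [show l + 1 + 1 = l + 2 by ring, show l + 1 + 2 = l + 3 by ring,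
    show l + 1 + 3 = l + 4 by ring] at m3'
  obtain ⟨k, hk⟩ := five (Q (l + 2)) (Q l) (2 * P) P (2 * P) (Q (l + 4)) (Q (l + 3)) (Q (l + 2))
    (Q (l + 1)) P
    (by rw [show 2 * P + P = 3 * P by ring, add_comm (Q (l + 3)), m3', add_comm (Q (l + 4))])
    (by rw [show 2 * P + Q (l + 1) = P + (P + Q (l + 1)) by ring, Complex.exp_add P (P + Q (l + 1)),
          a1]; simp only [Complex.exp_add]; ring)
    (by rw [show 2 * P + Q (l + 3) = P + (P + Q (l + 3)) by ring, Complex.exp_add P (P + Q (l + 3)),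
          a3]; simp only [Complex.exp_add]; ring)
    (by rw [show P + 2 * P = 3 * P by ring, ← m3]; ring_nf)
    (by rw [show 2 * P + 2 * P = 4 * P by ring, ← m4]; ring_nf)
  obtain ⟨k1, h1⟩ := rl_symm (lam_one F (l := l) (by omega))
  obtain ⟨k2, h2⟩ := rl_symm (lam_one F (l := l + 2) (by omega))
  obtain ⟨k3, h3⟩ := rl_symm (ltr_one F (l := l) (by omega))
  obtain ⟨k4, h4⟩ := rl_symm (ltt_one F (l := l) hl)
  refine ⟨k + k1 - k2 + k3 - k4, ?_⟩
  unfold ltt lamc ltr
  rw [show l + 1 + 1 = l + 2 by ring, show l + 1 + 2 = l + 3 by ring,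
    show l + 1 + 3 = l + 4 by ring, show l + 2 + 1 = l + 3 by ring, show l + 2 + 2 = l + 4 by ring]
  rw [show l + 2 + 1 = l + 3 by ring, show l + 2 + 2 = l + 4 by ring] at h2
  rw [show Q (l + 3) + Q (l + 2) - Q (l + 4) - Q (l + 1) = Q (l + 2) + Q (l + 3) - Q (l + 1) - Q (l + 4)
      by ring, show 2 * P + P - Q (l + 4) - Q (l + 1) = 3 * P - Q (l + 1) - Q (l + 4) by ring,
    show P + Q (l + 2) - 2 * P - Q (l + 1) = Q (l + 2) - P - Q (l + 1) by ring,
    show Q l + P - 2 * P - Q (l + 1) = Q l - P - Q (l + 1) by ring,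
    show P + Q (l + 4) - 2 * P - Q (l + 3) = Q (l + 4) - P - Q (l + 3) by ring,
    show Q (l + 2) + P - 2 * P - Q (l + 3) = Q (l + 2) - P - Q (l + 3) by ring,
    show P + 2 * P - Q l - Q (l + 3) = 3 * P - Q l - Q (l + 3) by ring,
    show Q (l + 2) + Q (l + 1) - Q l - Q (l + 3) = Q (l + 1) + Q (l + 2) - Q l - Q (l + 3) by ring,
    show 2 * P + 2 * P - Q l - Q (l + 4) = 4 * P - Q l - Q (l + 4) by ring,
    show Q (l + 2) + Q (l + 2) - Q l - Q (l + 4) = 2 * Q (l + 2) - Q l - Q (l + 4) by ring] at hk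
  push_cast
  linear_combination hk + h1 - h2 + h3 - h4

/-- an inner twist region in letters -/
theorem rs_ltr (F : Fan P Q b) :
    Cg (rs b P Q) (∑ l ∈ range b, ltr P Q l + lamc P Q b - lamc P Q 0) := by
  have h : ∀ k ≤ b, Cg (∑ l ∈ range k, (hly P Q l + hly P Q (l + 1)))
      (∑ l ∈ range k, ltr P Q l + lamc P Q k - lamc P Q 0) := by
    intro k
    induction k with
    | zero => intro _; simpa using Cg.refl 0
    | succ k ih =>
      intro hk
      obtain ⟨m, hm⟩ := ih (by omega)
      obtain ⟨n, hn⟩ := hly_add F (l := k) (by omega)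
      refine ⟨m + n, ?_⟩
      rw [sum_range_succ, sum_range_succ]
      push_cast
      linear_combination hm + hn
  exact h b le_rfl

end Pool.Agent.Work.MP_b30479_gtS.G2

end
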