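import Pool.Agent.Work.MP_b30479_gt.TBS.G2.CSDefs
import Pool.Agent.Work.MP_b30479_gt.TBS.G2.SWList
import Pool.Agent.Work.MP_b30479_gt.TBS.G2.Tensor
import Pool.Agent.Work.MP_b30479_gt.TBS.G2.XRogA
import Pool.Agent.Work.MP_b30479_gt.TBS.LT.Cube
import Pool.Agent.Work.MP_b30479_gt.TBS.VC.FStrip
import Pool.Agent.Work.MP_b30479_gt.TBS.VC.GaussND

section

/-!
# Layers and Neumann's function
-/

namespace Pool.Agent.Work.MP_b30479_gtS.G2

open Finset

/-- one tetrahedron of a layer, principal logarithms -/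
noncomputable def RL (L : Lay) : ℂ := RN (zL L) (2 * Complex.log L.q - 2 * Complex.log L.p)
  (2 * Complex.log L.p - Complex.log L.t - Complex.log L.u)

/-- the sum over a list of layers -/
noncomputable def rsum (S : List Lay) : ℂ := (S.map fun x => 2 * RL x).sum

/-- the layer at the value `V (l + 1)` -/
def layV (b : ℤ) (p : ℂ) (V : ℕ → ℂ) (l : ℕ) : Lay :=
  if 0 < b then ⟨p, V (l + 1), V l, V (l + 2)⟩ else ⟨V (l + 1), p, V l, V (l + 2)⟩

/-- the layer seen from the other side -/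
def Lay.swap (L : Lay) : Lay := ⟨L.q, L.p, L.u, L.t⟩

end Pool.Agent.Work.MP_b30479_gtS.G2

end

section

/-!
# The formula for a signed word, and the merging of digits `±1`
-/

namespace Pool.Agent.Work.MP_b30479_gtS.G2

open Finset

/-- the last pivot and the value before the last one -/
noncomputable def fpe : ℂ → ℂ → ℂ → List ℤ → ℂ × ℂ
  | _, _, _, [] => (1, 1)
  | p, q0, q1, [b] => (p, fan p q0 q1 (b.natAbs - 1))
  | p, q0, q1, b :: c :: w => fpe (fan p q0 q1 b.natAbs) p (nq b c p q0 q1) (c :: w)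

/-- six times the constant -/
def kapL : List ℤ → ℤ
  | [] => 0
  | [b] => -b
  | b :: c :: w => -b + (if b * c < 0 then 0 else 3) + kapL (c :: w)

/-- the correction at the end of the path -/
noncomputable def cend (s : ℤ) (x : ℂ × ℂ) : ℂ :=
  (Complex.log x.2 - Complex.log x.1) * Complex.log (if 0 < s then x.1 ^ 2 else (x.1 ^ 2)⁻¹)

/-- The formula for a signed word whose first digit is positive: `-i` times the sum over the layers
with principal logarithms, corrected at the two ends of the path (`log (i y)` is replaced by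
`log y`), and a constant -/
noncomputable def cvL (y : ℂ) (w : List ℤ) : ℂ :=
  -(Complex.I * (rsum (Lys 2 y 0 (Complex.I * y) w) +
    (Complex.log (Complex.I * y) - Complex.log y) * Complex.log (y ^ 2) +
    cend (lst w) (fpe y 0 (Complex.I * y) w))) +
  Real.pi ^ 2 * Complex.I * (kapL w / 6 + 2 / 3 + if 0 < lst w then 2 / 3 else 5 / 6)

/-- congruence modulo `π² i` -/
def Ci (x y : ℂ) : Prop := ∃ k : ℤ, x - y = Real.pi ^ 2 * Complex.I * k

/-! ### invariance -/

lemma fpe_shift {z : ℤ} (w : List ℤ) (hz : z ≠ 0) (p a b : ℂ) :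
    fpe p a b ((z + z.sign) :: w) = fpe p b (p * b - a) (z :: w) := by
  have ha := (sign_abs hz).1
  have h1 : 1 ≤ z.natAbs := by omega
  cases w with
  | nil =>
    show (p, fan p a b ((z + z.sign).natAbs - 1)) = (p, fan p b (p * b - a) (z.natAbs - 1))
    rw [ha, fan_shift, show z.natAbs + 1 - 1 = z.natAbs - 1 + 1 by omega]
  | cons c w =>
    show fpe (fan p a b (z + z.sign).natAbs) p (nq (z + z.sign) c p a b) (c :: w) =
      fpe (fan p b (p * b - a) z.natAbs) p (nq z c p b (p * b - a)) (c :: w)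
    rw [nq_sign hz, fan_shift, ha]

lemma fpe_merge {x y z : ℤ} (w : List ℤ) (hxy : x * y < 0) (hyz : y * z < 0) (hy : y.natAbs = 1)
    (p q0 q1 : ℂ) :
    fpe p q0 q1 (x :: y :: z :: w) = fpe p q0 q1 ((x + x.sign) :: (z + z.sign) :: w) := by
  have hx0 : x ≠ 0 := by rintro rfl; simp at hxy
  have hz0 : z ≠ 0 := by rintro rfl; simp at hyz
  have hxa := (sign_abs hx0).1
  have hsame : ¬ (x + x.sign) * (z + z.sign) < 0 := by
    rw [sign_mul_iff hx0, mul_comm, sign_mul_iff hz0, mul_neg_iff']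
    rw [mul_neg_iff'] at hxy hyz
    omega
  set F := fan p q0 q1 with hF
  have e1 : nq x y p q0 q1 = F (x.natAbs + 1) := if_pos hxy
  have e2 : nq (x + x.sign) (z + z.sign) p q0 q1 = F x.natAbs := by
    rw [nq, if_neg hsame, hxa, Nat.add_sub_cancel]
  have e3 : nq y z (F x.natAbs) p (F (x.natAbs + 1)) = F (x.natAbs + 1) * F x.natAbs - p := by
    rw [nq, if_pos hyz, hy]
    show F x.natAbs * F (x.natAbs + 1) - p = _
    rw [mul_comm]
  have e4 : fan (F x.natAbs) p (F (x.natAbs + 1)) y.natAbs = F (x.natAbs + 1) := by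
    rw [hy]
    rfl
  show fpe (fan (F x.natAbs) p (nq x y p q0 q1) y.natAbs) (F x.natAbs)
      (nq y z (F x.natAbs) p (nq x y p q0 q1)) (z :: w) =
    fpe (F (x + x.sign).natAbs) p (nq (x + x.sign) (z + z.sign) p q0 q1) ((z + z.sign) :: w)
  rw [e1, e2, e3, e4, hxa, fpe_shift w hz0]

lemma fpe_congr {x c c' : ℤ} {w w' : List ℤ} (hc : x * c < 0 ↔ x * c' < 0)
    (h : ∀ p q0 q1, fpe p q0 q1 (c :: w) = fpe p q0 q1 (c' :: w')) (p q0 q1 : ℂ) :
    fpe p q0 q1 (x :: c :: w) = fpe p q0 q1 (x :: c' :: w') := by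
  have e : nq x c p q0 q1 = nq x c' p q0 q1 := by
    unfold nq
    simp only [hc]
  show fpe (fan p q0 q1 x.natAbs) p (nq x c p q0 q1) (c :: w) =
    fpe (fan p q0 q1 x.natAbs) p (nq x c' p q0 q1) (c' :: w')
  rw [e, h]

lemma kapL_cons (b c : ℤ) (w : List ℤ) :
    kapL (b :: c :: w) = -b + (if b * c < 0 then 0 else 3) + kapL (c :: w) := rfl

lemma kapL_sign {z : ℤ} (w : List ℤ) (hz : z ≠ 0) : kapL ((z + z.sign) :: w) = kapL (z :: w) - z.sign := by
  cases w with
  | nil =>
    show -(z + z.sign) = -z - z.sign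
    ring
  | cons c w =>
    rw [kapL_cons, kapL_cons]
    simp only [sign_mul_iff hz]
    ring

lemma lst_cons (x y : ℤ) (l : List ℤ) : lst (x :: y :: l) = lst (y :: l) := rfl

lemma lst_sign {z : ℤ} (w : List ℤ) (hz : z ≠ 0) : 0 < lst ((z + z.sign) :: w) ↔ 0 < lst (z :: w) := by
  cases w with
  | nil => exact sign_pos_iff hz
  | cons c w => exact Iff.rfl

/-- what the merging preserves -/
structure MgI (m l : List ℤ) : Prop where
  fpe : ∀ p q0 q1, fpe p q0 q1 m = G2.fpe p q0 q1 l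
  lst : 0 < lst m ↔ 0 < G2.lst l
  kapL : ∃ k : ℤ, kapL m = G2.kapL l + 6 * k

theorem mg_inv : ∀ (n : ℕ) (x : ℤ) (l : List ℤ), l.length ≤ n → AL (x :: l) →
    MgI (mg (x :: l)) (x :: l) := by
  intro n
  induction n with
  | zero =>
    intro x l hl h
    have : l = [] := List.length_eq_zero_iff.mp (by omega)
    subst this
    rw [mg]
    exact ⟨fun _ _ _ => rfl, Iff.rfl, 0, by simp⟩
  | succ n ih =>
    intro x l hl h
    match l, hl, h with
    | [], _, h => rw [mg]; exact ⟨fun _ _ _ => rfl, Iff.rfl, 0, by simp⟩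
    | [y], _, h => rw [mg]; exact ⟨fun _ _ _ => rfl, Iff.rfl, 0, by simp⟩
    | y :: z :: l, hl, h =>
      simp only [List.length_cons] at hl
      by_cases hc : y.natAbs = 1 ∧ 3 ≤ x.natAbs ∧ 3 ≤ z.natAbs
      · have hz : AL (z :: l) := h.tail.tail
        have hz0 := hz.head
        have hx0 := h.head
        rw [mg_pos hc]
        have hI := ih (z + z.sign) l (by omega) (AL_sign hz)
        obtain ⟨c, r, h2, h3⟩ := mg_head (AL_sign hz)
        rw [h2] at hI ⊢
        refine ⟨fun p q0 q1 => ?_, ?_, ?_⟩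
        · rw [fpe_merge l h.1 h.2.1 hc.1]
          exact fpe_congr (h3 _) hI.fpe p q0 q1
        · rw [lst_cons, lst_cons, lst_cons, hI.lst, lst_sign l hz0]
        · obtain ⟨k, hk⟩ := hI.kapL
          have hxy := h.1
          have hyz := h.2.1
          have hs : ¬ (x + x.sign) * c < 0 := by
            rw [h3, sign_mul_iff hx0, mul_comm, sign_mul_iff hz0, mul_neg_iff']
            rw [mul_neg_iff'] at hxy hyz
            omega
          rw [kapL_cons, kapL_cons, kapL_cons, if_neg hs, if_pos hxy, if_pos hyz, hk, kapL_sign l hz0]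
          rw [mul_neg_iff'] at hxy hyz
          rcases hxy with ⟨a1, a2⟩ | ⟨a1, a2⟩
          · have : y = -1 := by omega
            subst this
            rw [Int.sign_eq_one_of_pos a1, Int.sign_eq_one_of_pos (by omega : 0 < z)]
            exact ⟨k, by ring⟩
          · have : y = 1 := by omega
            subst this
            rw [Int.sign_eq_neg_one_of_neg a1, Int.sign_eq_neg_one_of_neg (by omega : z < 0)]
            exact ⟨k + 1, by ring⟩
      · have hyz : AL (y :: z :: l) := h.2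
        rw [mg_neg hc]
        have hI := ih y (z :: l) (by simpa using (by omega : l.length + 1 ≤ n)) hyz
        obtain ⟨c, r, h2, h3⟩ := mg_head hyz
        rw [h2] at hI ⊢
        refine ⟨fun p q0 q1 => fpe_congr (h3 _) hI.fpe p q0 q1, ?_, ?_⟩
        · rw [lst_cons, lst_cons, hI.lst]
        · obtain ⟨k, hk⟩ := hI.kapL
          refine ⟨k, ?_⟩
          rw [kapL_cons, kapL_cons x y]
          simp only [h3]
          rw [hk]
          ring

/-- The formula is invariant under the merging. -/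
theorem cvL_mg {x : ℤ} {l : List ℤ} (h : AL (x :: l)) (h1 : 2 ≤ x.natAbs) (h2 : 2 ≤ (lst (x :: l)).natAbs)
    (y : ℂ) : Ci (cvL y (mg (x :: l))) (cvL y (x :: l)) := by
  have hI := mg_inv l.length x l le_rfl h
  have hL := (Lys_mg l.length x l le_rfl h 2 h1 y 0 (Complex.I * y)).1
  obtain ⟨k, hk⟩ := hI.kapL
  have hs := hI.lst
  refine ⟨k, ?_⟩
  unfold cvL cend
  rw [hL, hI.fpe, hk]
  simp only [hs]
  push_cast
  ring

end Pool.Agent.Work.MP_b30479_gtS.G2

end

section

/-!
# The formula for an alternating word, principal logarithms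
-/

namespace Pool.Agent.Work.MP_b30479_gtS.G2

open Finset

/-! ### words indexed by natural numbers -/

section
variable {b : ℕ → ℤ} {y : ℂ}

lemma sum_LSg (f : Lay → ℂ) : ∀ n k kk, (∀ j, k ≤ j → j < k + n → b j * b (j + 1) < 0) →
    (∀ j, k ≤ j → j ≤ k + n → b j ≠ 0) → kk ≤ (b k).natAbs → 2 ≤ (b (k + n)).natAbs →
    ((LS' b y kk k n).map f).sum = ∑ i ∈ range (n + 1), ∑ l ∈ Icc (if i = 0 then kk else 1)
      (if i = n then (b (k + i)).natAbs - 2 else (b (k + i)).natAbs), f (LK b y (k + i) l) := by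
  have hrun : ∀ (g : ℕ → Lay) (s m : ℕ), (((List.range' s m).map g).map f).sum =
      ∑ i ∈ range m, f (g (s + i)) := by
    intro g s m
    induction m with
    | zero => simp
    | succ m ih =>
      rw [List.range'_1_concat, List.map_append, List.map_append, List.sum_append, ih,
        sum_range_succ]
      simp
  intro n
  induction n with
  | zero =>
    intro k kk _ _ hkk h2
    rw [add_zero] at h2
    rw [LS_zero, hrun, sum_range_one, if_pos rfl, if_pos rfl, add_zero,
      ← Finset.Ico_add_one_right_eq_Icc, sum_Ico_eq_sum_range,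
      show (b k).natAbs - 1 - kk = (b k).natAbs - 2 + 1 - kk by omega]
  | succ n ih =>
    intro k kk hs hb hkk h2
    have hb1 := hb (k + 1) (by omega) (by omega)
    have h3 := ih (k + 1) 1 (fun j hj hj' => hs j (by omega) (by omega))
      (fun j hj hj' => hb j (by omega) (by omega)) (by omega)
      (by rw [show k + 1 + n = k + (n + 1) by omega]; exact h2)
    rw [LS_succ, List.map_append, List.sum_append, List.map_append, List.sum_append, hrun,
      if_pos (hs k le_rfl (by omega)), h3,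
      sum_range_succ' _ (n + 1), if_pos rfl, if_neg (by omega : ¬ 0 = n + 1), add_zero, add_comm]
    congr 1
    · refine sum_congr rfl fun i hi => ?_
      rw [mem_range] at hi
      rw [show k + 1 + i = k + (i + 1) by omega, if_neg (by omega : ¬ i + 1 = 0)]
      have e1 : (if i = 0 then 1 else 1) = 1 := by split_ifs <;> rfl
      have e2 : (i = n) ↔ (i + 1 = n + 1) := by omega
      rw [e1]
      simp only [e2]
    · rw [← Finset.Ico_add_one_right_eq_Icc, sum_Ico_eq_sum_range,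
        show (b k).natAbs + 1 - kk = ((b k).natAbs - kk) + 1 by omega, sum_range_succ,
        show kk + ((b k).natAbs - kk) = (b k).natAbs by omega]
      simp

lemma fpe_St : ∀ n k, fpe (St b y k).1 (St b y k).2.1 (St b y k).2.2 (dig b k n) =
    ((St b y (k + n)).1, Fk b y (k + n) ((b (k + n)).natAbs - 1)) := by
  intro n
  induction n with
  | zero => intro k; rfl
  | succ n ih =>
    intro k
    have := ih (k + 1)
    rw [show k + 1 + n = k + (n + 1) by omega] at this
    rw [← this]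
    rfl

lemma kapL_dig : ∀ n k, (∀ j, k ≤ j → j < k + n → b j * b (j + 1) < 0) →
    kapL (dig b k n) = -∑ i ∈ range (n + 1), b (k + i) := by
  intro n
  induction n with
  | zero =>
    intro k _
    show -b k = _
    simp
  | succ n ih =>
    intro k hs
    have h3 := ih (k + 1) (fun j hj hj' => hs j (by omega) (by omega))
    rw [dig_succ, kapL_cons, ← dig_succ', h3, if_pos (hs k le_rfl (by omega)),
      sum_range_succ' _ (n + 1)]
    have e : ∑ i ∈ range (n + 1), b (k + 1 + i) = ∑ i ∈ range (n + 1), b (k + (i + 1)) :=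
      sum_congr rfl fun i _ => by rw [show k + 1 + i = k + (i + 1) by omega]
    rw [e]
    simp only [add_zero]
    ring

lemma ca_lst_dig : ∀ n k, lst (dig b k n) = b (k + n) := by
  intro n
  induction n with
  | zero => intro k; rfl
  | succ n ih =>
    intro k
    have := ih (k + 1)
    rw [show k + 1 + n = k + (n + 1) by omega] at this
    rw [← this, dig_succ, lst_cons, ← dig_succ']

end

/-! ### the Markoff map -/

variable {M : ℕ} {a : Fin (M + 2) → ℕ} {p : Fin (M + 2) → ℂ} {q : Fin (M + 2) → ℕ → ℂ}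

lemma ca_fan_eq {p : ℂ} {q : ℕ → ℂ} (h : ∀ l, q (l + 2) + q l = p * q (l + 1)) :
    ∀ l, q l = fan p (q 0) (q 1) l := by
  intro l
  induction l using Nat.twoStepInduction with
  | zero => rfl
  | one => rfl
  | more l ih1 ih2 =>
    show q (l + 2) = p * fan p (q 0) (q 1) (l + 1) - fan p (q 0) (q 1) l
    rw [← ih1, ← ih2, ← h l]
    ring

/-- the Markoff map is the one of the signed word -/
lemma Markoff.St_eq (ha : ∀ i, 1 ≤ a i) (hM : Markoff a p q) :
    ∀ (k : ℕ) (hk : k < M + 2), St (xt 1 (altf (M := M + 1) a)) (p 0) k =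
      (p ⟨k, hk⟩, q ⟨k, hk⟩ 0, q ⟨k, hk⟩ 1) := by
  intro k
  induction k with
  | zero =>
    intro hk
    have h := hM.first
    show (p 0, (0 : ℂ), Complex.I * p 0) = (p 0, q 0 0, q 0 1)
    rw [h.1, h.2]
  | succ k ih =>
    intro hk
    have h := ih (by omega)
    have ht := hM.turn ⟨k, by omega⟩
    have hf := ca_fan_eq (hM.fan ⟨k, by omega⟩)
    have hb : (xt 1 (altf (M := M + 1) a) k).natAbs = a ⟨k, by omega⟩ := by
      rw [xt_of _ _ (by omega : k < M + 2), altf_natAbs]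
    have hs : xt 1 (altf (M := M + 1) a) k * xt 1 (altf (M := M + 1) a) (k + 1) < 0 := by
      rw [xt_of _ _ (by omega : k < M + 2), xt_of _ _ (by omega : k + 1 < M + 2)]
      exact altf_opp a ha ⟨k, by omega⟩
    show (G2.fan (St _ (p 0) k).1 (St _ (p 0) k).2.1 (St _ (p 0) k).2.2 _, (St _ (p 0) k).1,
      nq _ _ (St _ (p 0) k).1 (St _ (p 0) k).2.1 (St _ (p 0) k).2.2) = _
    rw [h]
    unfold nq
    rw [if_pos hs, hb]
    simp only
    rw [← hf, ← hf]
    have e1 : (⟨k, by omega⟩ : Fin (M + 1)).castSucc = (⟨k, by omega⟩ : Fin (M + 2)) := rfl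
    have e2 : (⟨k, by omega⟩ : Fin (M + 1)).succ = (⟨k + 1, hk⟩ : Fin (M + 2)) := rfl
    rw [e1, e2] at ht
    rw [ht.1, ht.2.1, ht.2.2]

lemma Markoff.Fk_eq (ha : ∀ i, 1 ≤ a i) (hM : Markoff a p q) (i : Fin (M + 2)) (l : ℕ) :
    Fk (xt 1 (altf (M := M + 1) a)) (p 0) i l = q i l := by
  have h := hM.St_eq ha i i.2
  rw [ca_fan_eq (hM.fan i) l]
  unfold Fk
  rw [h]

lemma Markoff.mkf (hM : Markoff a p q) :
    ∀ (k : ℕ) (hk : k < M + 2), Mkf (p ⟨k, hk⟩) (q ⟨k, hk⟩ 0) (q ⟨k, hk⟩ 1) := by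
  intro k
  induction k with
  | zero =>
    intro hk
    have h := hM.first
    show q 0 1 * (p 0 * q 0 0 - q 0 1) = p 0 ^ 2 + q 0 0 ^ 2
    rw [h.1, h.2]
    linear_combination (-(p 0) ^ 2) * Complex.I_sq
  | succ k ih =>
    intro hk
    have h := ih (by omega)
    have ht := hM.turn ⟨k, by omega⟩
    have hf := ca_fan_eq (hM.fan ⟨k, by omega⟩)
    have e1 : (⟨k, by omega⟩ : Fin (M + 1)).castSucc = (⟨k, by omega⟩ : Fin (M + 2)) := rfl
    have e2 : (⟨k, by omega⟩ : Fin (M + 1)).succ = (⟨k + 1, hk⟩ : Fin (M + 2)) := rfl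
    rw [e1, e2] at ht
    rw [ht.1, ht.2.1, ht.2.2]
    have h1 := h.fan (a ⟨k, by omega⟩)
    rw [← hf, ← hf] at h1
    unfold Mkf at h1 ⊢
    linear_combination h1

/-- the values at the end of the path -/
lemma Markoff.end_eq (hM : Markoff a p q) (hl : 2 ≤ a (Fin.last (M + 1))) :
    q (Fin.last (M + 1)) (a (Fin.last (M + 1)) - 2) =
      p (Fin.last (M + 1)) * q (Fin.last (M + 1)) (a (Fin.last (M + 1)) - 1) ∧
    q (Fin.last (M + 1)) (a (Fin.last (M + 1)) - 1) ^ 2 = -p (Fin.last (M + 1)) ^ 2 := by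
  have h1 := hM.fan (Fin.last (M + 1)) (a (Fin.last (M + 1)) - 2)
  rw [show a (Fin.last (M + 1)) - 2 + 2 = a (Fin.last (M + 1)) by omega,
    show a (Fin.last (M + 1)) - 2 + 1 = a (Fin.last (M + 1)) - 1 by omega, hM.last, zero_add] at h1
  refine ⟨h1, ?_⟩
  have h2 := (hM.mkf (M + 1) (by omega)).fan (a (Fin.last (M + 1)) - 1)
  have e : (⟨M + 1, by omega⟩ : Fin (M + 2)) = Fin.last (M + 1) := rfl
  rw [e, ← ca_fan_eq (hM.fan (Fin.last (M + 1))), ← ca_fan_eq (hM.fan (Fin.last (M + 1))),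
    show a (Fin.last (M + 1)) - 1 + 1 = a (Fin.last (M + 1)) by omega, hM.last] at h2
  unfold Mkf at h2
  linear_combination -h2

/-! ### logarithms -/

/-- the folded edges at the end -/
def Fold2 (a : Fin (M + 2) → ℕ) (i : Fin (M + 2)) (l : ℕ) : Prop :=
  (i = Fin.last (M + 1) ∧ l + 1 = a (Fin.last (M + 1))) ∨
    (i = (Fin.last M).castSucc ∧ l = a i + 1 ∧ a (Fin.last (M + 1)) = 2)

open Classical in
/-- principal logarithms except for the folded edges -/
noncomputable def logQ (a : Fin (M + 2) → ℕ) (p : Fin (M + 2) → ℂ) (q : Fin (M + 2) → ℕ → ℂ)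
    (i : Fin (M + 2)) (l : ℕ) : ℂ :=
  Complex.log (q i l) +
    (if i = 0 ∧ l = 1 then Complex.log (p 0) - Complex.log (Complex.I * p 0) else 0) +
    (if Fold2 a i l then Complex.log (p (Fin.last (M + 1))) -
      Complex.log (q (Fin.last (M + 1)) (a (Fin.last (M + 1)) - 1)) else 0)

lemma ca_last_ne_zero : Fin.last (M + 1) ≠ 0 := by
  intro h
  have := congrArg Fin.val h
  simp at this

lemma ca_castSucc_ne_last (j : Fin (M + 1)) : j.castSucc ≠ Fin.last (M + 1) := by
  intro h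
  have := congrArg Fin.val h
  simp at this
  omega

lemma ca_succ_ne (j : Fin (M + 1)) : j.succ ≠ 0 := Fin.succ_ne_zero j

lemma logQ_log {i : Fin (M + 2)} {l : ℕ} (h1 : ¬ (i = 0 ∧ l = 1)) (h2 : ¬ Fold2 a i l) :
    logQ a p q i l = Complex.log (q i l) := by
  unfold logQ
  rw [if_neg h1, if_neg h2, add_zero, add_zero]

/-- the values at the edges of the path do not vanish -/
lemma SWPos.ne (hpos : SWPos a p q) {i : Fin (M + 2)} {l : ℕ} (hl : l ∈ lays a i) :
    p i ≠ 0 ∧ q i l ≠ 0 := by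
  have h := hpos i l hl
  unfold swShape at h
  constructor
  · intro h0
    rw [h0] at h
    split_ifs at h <;> simp at h
  · intro h0
    rw [h0] at h
    split_ifs at h <;> simp at h

lemma ca_top_mem (ha : ∀ i, 1 ≤ a i) (h0 : 2 ≤ a 0) (j : Fin (M + 1)) :
    a j.castSucc ∈ lays a j.castSucc := by
  unfold lays
  rw [mem_Icc, if_neg (ca_castSucc_ne_last j)]
  refine ⟨?_, le_rfl⟩
  split_ifs with h
  · rw [h]
    exact h0
  · exact ha _

lemma ca_p_ne (ha : ∀ i, 1 ≤ a i) (h0 : 2 ≤ a 0) (hM : Markoff a p q) (hpos : SWPos a p q)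
    (i : Fin (M + 2)) : p i ≠ 0 := by
  refine Fin.cases ?_ (fun j => ?_) i
  · have := hpos.ne (ca_top_mem ha h0 0)
    exact this.1
  · rw [(hM.turn j).1]
    exact (hpos.ne (ca_top_mem ha h0 j)).2

theorem swLog_alt (ha : ∀ i, 1 ≤ a i) (h0 : 2 ≤ a 0) (hl : 2 ≤ a (Fin.last (M + 1)))
    (hM : Markoff a p q) (hpos : SWPos a p q) :
    SWLog a p q (fun i => Complex.log (p i)) (logQ a p q) := by
  have hz := ca_last_ne_zero (M := M)
  refine ⟨fun i => Complex.exp_log (ca_p_ne ha h0 hM hpos i), fun i l hil => ?_, fun j => ⟨?_, ?_, ?_⟩, ?_, ?_⟩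
  · rw [logQ_log, Complex.exp_log (hpos.ne hil).2]
    · rintro ⟨rfl, rfl⟩
      unfold lays at hil
      rw [mem_Icc, if_pos rfl] at hil
      omega
    · unfold lays at hil
      rw [mem_Icc] at hil
      rintro (⟨rfl, h1⟩ | ⟨rfl, h1, h2⟩)
      · rw [if_pos rfl] at hil
        omega
      · rw [if_neg (ca_castSucc_ne_last _)] at hil
        omega
  · rw [logQ_log, (hM.turn j).1]
    · rintro ⟨h1, h2⟩
      rw [h1] at h2
      omega
    · rintro (⟨h1, h2⟩ | ⟨h1, h2, h3⟩)
      · exact ca_castSucc_ne_last _ h1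
      · omega
  · rw [logQ_log, (hM.turn j).2.1]
    · rintro ⟨h1, h2⟩
      omega
    · rintro (⟨h1, h2⟩ | ⟨h1, h2, h3⟩) <;> omega
  · have c1 : ¬ (j.succ = 0 ∧ 1 = 1) := fun h => ca_succ_ne j h.1
    have c2 : ¬ (j.castSucc = 0 ∧ a j.castSucc + 1 = 1) := by
      rintro ⟨h1, h2⟩
      rw [h1] at h2
      omega
    have hiff : Fold2 a j.succ 1 ↔ Fold2 a j.castSucc (a j.castSucc + 1) := by
      constructor
      · rintro (⟨h1, h2⟩ | ⟨h1, h2, h3⟩)
        · right
          have : j = Fin.last M := by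
            apply Fin.ext
            have := congrArg Fin.val h1
            simpa using this
          subst this
          exact ⟨rfl, rfl, by omega⟩
        · have := ha j.succ
          omega
      · rintro (⟨h1, h2⟩ | ⟨h1, h2, h3⟩)
        · exact absurd h1 (ca_castSucc_ne_last _)
        · left
          have : j = Fin.last M := Fin.castSucc_injective _ h1
          subst this
          exact ⟨rfl, by omega⟩
    unfold logQ
    rw [(hM.turn j).2.2, if_neg c1, if_neg c2]
    by_cases h : Fold2 a j.succ 1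
    · rw [if_pos h, if_pos (hiff.mp h)]
    · rw [if_neg h, if_neg (fun h' => h (hiff.mpr h'))]
  · unfold logQ
    rw [if_pos ⟨rfl, rfl⟩, if_neg, hM.first.2]
    · ring
    · rintro (⟨h1, h2⟩ | ⟨h1, h2, h3⟩)
      · exact hz h1.symm
      · omega
  · have c3 : Fold2 a (Fin.last (M + 1)) (a (Fin.last (M + 1)) - 1) := Or.inl ⟨rfl, by omega⟩
    unfold logQ
    rw [if_neg (fun h => hz h.1), if_pos c3]
    ring

/-- Neumann's function is affine in `w1` -/
lemma RN_w1 (z w0 w1 w1' : ℂ) : 2 * RN z w0 w1 = 2 * RN z w0 w1' + (w1 - w1') * Complex.log z := by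
  unfold RN
  ring

/-- the special layer at the end -/
def ca_last2 (a : Fin (M + 2) → ℕ) : (_ : Fin (M + 2)) × ℕ :=
  if a (Fin.last (M + 1)) = 2 then ⟨(Fin.last M).castSucc, a (Fin.last M).castSucc⟩
  else ⟨Fin.last (M + 1), a (Fin.last (M + 1)) - 2⟩

lemma ca_last2_mem (ha : ∀ i, 1 ≤ a i) (h0 : 2 ≤ a 0) (hl : 2 ≤ a (Fin.last (M + 1))) :
    ca_last2 a ∈ univ.sigma (lays a) := by
  unfold ca_last2
  rw [mem_sigma]
  refine ⟨mem_univ _, ?_⟩
  split_ifs with h
  · exact ca_top_mem ha h0 (Fin.last M)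
  · show a (Fin.last (M + 1)) - 2 ∈ lays a (Fin.last (M + 1))
    unfold lays
    rw [mem_Icc, if_neg ca_last_ne_zero, if_pos rfl]
    omega

lemma ca_first_mem (h0 : 2 ≤ a 0) : (⟨0, 2⟩ : (_ : Fin (M + 2)) × ℕ) ∈ univ.sigma (lays a) := by
  rw [mem_sigma]
  refine ⟨mem_univ _, ?_⟩
  show 2 ∈ lays a 0
  unfold lays
  rw [mem_Icc, if_pos rfl, if_neg ca_last_ne_zero.symm]
  exact ⟨le_rfl, h0⟩

open Classical in
/-- a layer with the logarithms `logQ` and with principal logarithms -/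
lemma ca_layer_eq (hl : 2 ≤ a (Fin.last (M + 1))) (hp0 : p (Fin.last (M + 1)) ≠ 0)
    (hM : Markoff a p q) (hpos : SWPos a p q) {i : Fin (M + 2)} {l : ℕ} (hil : l ∈ lays a i) :
    2 * RN (swShape p q i l) (swW0 (fun i => Complex.log (p i)) (logQ a p q) i l)
      (swW1 (fun i => Complex.log (p i)) (logQ a p q) i l) =
    2 * RN (swShape p q i l)
      (swW0 (fun i => Complex.log (p i)) (fun i l => Complex.log (q i l)) i l)
      (swW1 (fun i => Complex.log (p i)) (fun i l => Complex.log (q i l)) i l) +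
    (if (⟨i, l⟩ : (_ : Fin (M + 2)) × ℕ) = ⟨0, 2⟩ then
      (Complex.log (Complex.I * p 0) - Complex.log (p 0)) * Complex.log (p 0 ^ 2) else 0) +
    (if (⟨i, l⟩ : (_ : Fin (M + 2)) × ℕ) = ca_last2 a then
      (Complex.log (q (Fin.last (M + 1)) (a (Fin.last (M + 1)) - 1)) -
        Complex.log (p (Fin.last (M + 1)))) * Complex.log (if Even (M + 1) then
          p (Fin.last (M + 1)) ^ 2 else (p (Fin.last (M + 1)) ^ 2)⁻¹) else 0) := by
  have hz := ca_last_ne_zero (M := M)
  have hb := hil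
  unfold lays at hb
  rw [mem_Icc] at hb
  have hl1 : 1 ≤ l := by
    split_ifs at hb <;> omega
  -- the middle value
  have hmid : logQ a p q i l = Complex.log (q i l) := by
    apply logQ_log
    · rintro ⟨rfl, rfl⟩
      rw [if_pos rfl] at hb
      omega
    · rintro (⟨rfl, h1⟩ | ⟨rfl, h1, h2⟩)
      · rw [if_pos rfl] at hb
        omega
      · rw [if_neg (ca_castSucc_ne_last _)] at hb
        omega
  have h1a : (⟨i, l⟩ : (_ : Fin (M + 2)) × ℕ) = ⟨0, 2⟩ ↔ i = 0 ∧ l - 1 = 1 := by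
    constructor
    · intro h
      injection h with h1 h2
      exact ⟨h1, by omega⟩
    · rintro ⟨rfl, h⟩
      rw [show l = 2 by omega]
  have h1b : ¬ (i = 0 ∧ l + 1 = 1) := by omega
  have h2a : ¬ Fold2 a i (l - 1) := by
    rintro (⟨rfl, h1⟩ | ⟨rfl, h1, h2⟩)
    · rw [if_pos rfl] at hb
      omega
    · rw [if_neg (ca_castSucc_ne_last _)] at hb
      omega
  have h2b : (⟨i, l⟩ : (_ : Fin (M + 2)) × ℕ) = ca_last2 a ↔ Fold2 a i (l + 1) := by
    unfold ca_last2 Fold2
    split_ifs with h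
    · constructor
      · intro h'
        injection h' with h1 h2
        right
        subst h1
        exact ⟨rfl, by omega, h⟩
      · rintro (⟨rfl, h1⟩ | ⟨rfl, h1, h2⟩)
        · omega
        · rw [show l = a (Fin.last M).castSucc by omega]
    · constructor
      · intro h'
        injection h' with h1 h2
        left
        subst h1
        exact ⟨rfl, by omega⟩
      · rintro (⟨rfl, h1⟩ | ⟨rfl, h1, h2⟩)
        · rw [show l = a (Fin.last (M + 1)) - 2 by omega]
        · exact absurd h2 h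
  have e0 : swW0 (fun i => Complex.log (p i)) (logQ a p q) i l =
      swW0 (fun i => Complex.log (p i)) (fun i l => Complex.log (q i l)) i l := by
    unfold swW0
    rw [hmid]
  have e1 : swW1 (fun i => Complex.log (p i)) (logQ a p q) i l -
      swW1 (fun i => Complex.log (p i)) (fun i l => Complex.log (q i l)) i l =
      (if i = 0 ∧ l - 1 = 1 then Complex.log (Complex.I * p 0) - Complex.log (p 0) else 0) +
      (if Fold2 a i (l + 1) then Complex.log (q (Fin.last (M + 1)) (a (Fin.last (M + 1)) - 1)) -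
        Complex.log (p (Fin.last (M + 1))) else 0) := by
    unfold swW1
    rw [hmid]
    unfold logQ
    rw [if_neg h1b, if_neg h2a]
    split_ifs <;> ring
  rw [RN_w1 _ _ _ (swW1 (fun i => Complex.log (p i)) (fun i l => Complex.log (q i l)) i l), e0, e1]
  simp only [h1a, h2b]
  rw [add_assoc]
  congr 1
  rw [add_mul, ite_mul, ite_mul]
  congr 1
  · split_ifs with h
    · obtain ⟨rfl, h⟩ := h
      have : l = 2 := by omega
      subst this
      congr 2
      unfold swShape
      rw [if_pos (by simp)]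
      have hf := hM.fan 0 0
      rw [zero_add, zero_add, hM.first.1, hM.first.2, add_zero] at hf
      have hp := (hpos.ne hil).1
      rw [hf]
      field_simp
      linear_combination (-1 : ℂ) * Complex.I_sq
    · exact zero_mul _
  · by_cases h : Fold2 a i (l + 1)
    · rw [if_pos h, if_pos h]
      congr 2
      obtain ⟨f1, f2⟩ := hM.end_eq hl
      have hpl : p (Fin.last (M + 1)) ≠ 0 := hp0
      have hql : q (Fin.last (M + 1)) (a (Fin.last (M + 1)) - 1) ≠ 0 := by
        intro h0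
        rw [h0] at f2
        have : p (Fin.last (M + 1)) ^ 2 = 0 := by linear_combination f2
        exact hpl (pow_eq_zero_iff two_ne_zero |>.mp this)
      have g1 : -(q (Fin.last (M + 1)) (a (Fin.last (M + 1)) - 2) / p (Fin.last (M + 1))) ^ 2 =
          p (Fin.last (M + 1)) ^ 2 := by
        rw [f1]
        field_simp
        linear_combination -f2
      have g2 : -(p (Fin.last (M + 1)) / q (Fin.last (M + 1)) (a (Fin.last (M + 1)) - 2)) ^ 2 =
          (p (Fin.last (M + 1)) ^ 2)⁻¹ := by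
        rw [← g1, inv_neg, ← inv_pow, inv_div]
      rcases h with ⟨rfl, h1⟩ | ⟨rfl, h1, h2⟩
      · rw [show l = a (Fin.last (M + 1)) - 2 by omega]
        unfold swShape
        rw [Fin.val_last]
        split_ifs
        · exact g1
        · exact g2
      · have hl' : l = a (Fin.last M).castSucc := by omega
        subst hl'
        have ht := hM.turn (Fin.last M)
        have e : (Fin.last M).succ = Fin.last (M + 1) := rfl
        rw [e] at ht
        rw [h2, Nat.sub_self, ht.2.1] at g1 g2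
        unfold swShape
        rw [Fin.val_castSucc, Fin.val_last, ← ht.1]
        by_cases hM2 : Even M
        · rw [if_pos hM2, if_neg (by rw [Nat.even_add_one]; simpa using hM2)]
          exact g2
        · rw [if_neg hM2, if_pos (by rw [Nat.even_add_one]; exact hM2)]
          exact g1
    · rw [if_neg h, if_neg h, zero_mul]

/-- the layers of the signed word -/
lemma RL_LK (ha : ∀ i, 1 ≤ a i) (hM : Markoff a p q) (i : Fin (M + 2)) (l : ℕ) :
    RL (LK (xt 1 (altf (M := M + 1) a)) (p 0) i l) = RN (swShape p q i l)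
      (swW0 (fun i => Complex.log (p i)) (fun i l => Complex.log (q i l)) i l)
      (swW1 (fun i => Complex.log (p i)) (fun i l => Complex.log (q i l)) i l) := by
  have h := hM.St_eq ha i i.2
  have hf := ca_fan_eq (hM.fan i)
  have h3 := altf_pos_iff a ha i
  unfold RL LK lay swShape swW0 swW1 zL
  rw [xt_eq, h]
  simp only
  rw [show (⟨(i : ℕ), i.2⟩ : Fin (M + 2)) = i from rfl, ← hf, ← hf, ← hf]
  by_cases h5 : Even (i : ℕ)
  · simp only [if_pos h5, if_pos (h3.mpr h5)]
  · simp only [if_neg h5, if_neg (fun h => h5 (h3.mp h))]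

/-- There are logarithms with which the formula is the one of the signed word. -/
theorem swCV_alt (ha : ∀ i, 1 ≤ a i) (h0 : 2 ≤ a 0) (hl : 2 ≤ a (Fin.last (M + 1)))
    (hM : Markoff a p q) (hpos : SWPos a p q) : ∃ P Q, SWLog a p q P Q ∧
      Ci (swCV a p q P Q) (cvL (p 0) (List.ofFn (altf (M := M + 1) a))) := by
  classical
  refine ⟨fun i => Complex.log (p i), logQ a p q, swLog_alt ha h0 hl hM hpos, ?_⟩
  have hp0 := ca_p_ne ha h0 hM hpos (Fin.last (M + 1))
  set b := xt 1 (altf (M := M + 1) a) with hb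
  have hbn : ∀ i : Fin (M + 2), (b i).natAbs = a i := fun i => by rw [hb, xt_eq, altf_natAbs]
  have hbo : ∀ j, j < M + 1 → b j * b (j + 1) < 0 := by
    intro j hj
    rw [hb, xt_of _ _ (by omega : j < M + 2), xt_of _ _ (by omega : j + 1 < M + 2)]
    exact altf_opp a ha ⟨j, hj⟩
  have hb0 : ∀ j, j ≤ M + 1 → b j ≠ 0 := by
    intro j hj h
    have := hbn ⟨j, by omega⟩
    have h3 := ha ⟨j, by omega⟩
    simp only at this
    rw [h] at this
    simp at this
    omega
  have hbl : (b (M + 1)).natAbs = a (Fin.last (M + 1)) := hbn (Fin.last (M + 1))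
  -- the sum over the layers
  have hS : ∑ i, ∑ l ∈ lays a i, 2 * RN (swShape p q i l)
      (swW0 (fun i => Complex.log (p i)) (logQ a p q) i l)
      (swW1 (fun i => Complex.log (p i)) (logQ a p q) i l) =
      rsum (LS' b (p 0) 2 0 (M + 1)) +
      (Complex.log (Complex.I * p 0) - Complex.log (p 0)) * Complex.log (p 0 ^ 2) +
      (Complex.log (q (Fin.last (M + 1)) (a (Fin.last (M + 1)) - 1)) -
        Complex.log (p (Fin.last (M + 1)))) * Complex.log (if Even (M + 1) then
          p (Fin.last (M + 1)) ^ 2 else (p (Fin.last (M + 1)) ^ 2)⁻¹) := by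
    have h3 := sum_LSg (b := b) (y := p 0) (fun x => 2 * RL x) (M + 1) 0 2
      (fun j _ hj => hbo j (by omega)) (fun j _ hj => hb0 j (by omega)) (by
        have := hbn 0
        rw [Fin.val_zero] at this
        omega) (by
        rw [zero_add]
        omega)
    have h4 : rsum (LS' b (p 0) 2 0 (M + 1)) = ∑ i : Fin (M + 2), ∑ l ∈ lays a i, 2 *
        RN (swShape p q i l)
      (swW0 (fun i => Complex.log (p i)) (fun i l => Complex.log (q i l)) i l)
      (swW1 (fun i => Complex.log (p i)) (fun i l => Complex.log (q i l)) i l) := by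
      unfold rsum
      rw [h3, sum_range]
      refine sum_congr rfl fun i _ => ?_
      rw [ite_zero, ite_last, zero_add, hbn]
      refine sum_congr rfl fun l _ => ?_
      rw [RL_LK ha hM i l]
    have h5 := sum_sigma univ (lays a) (fun x : (_ : Fin (M + 2)) × ℕ => if x = ⟨0, 2⟩ then
      (Complex.log (Complex.I * p 0) - Complex.log (p 0)) * Complex.log (p 0 ^ 2) else 0)
    rw [sum_ite_eq' _ _ _, if_pos (ca_first_mem h0)] at h5
    have h6 := sum_sigma univ (lays a) (fun x : (_ : Fin (M + 2)) × ℕ => if x = ca_last2 a then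
      (Complex.log (q (Fin.last (M + 1)) (a (Fin.last (M + 1)) - 1)) -
        Complex.log (p (Fin.last (M + 1)))) * Complex.log (if Even (M + 1) then
          p (Fin.last (M + 1)) ^ 2 else (p (Fin.last (M + 1)) ^ 2)⁻¹) else 0)
    rw [sum_ite_eq' _ _ _, if_pos (ca_last2_mem ha h0 hl)] at h6
    rw [h4, h5, h6, ← sum_add_distrib, ← sum_add_distrib]
    refine sum_congr rfl fun i _ => ?_
    rw [← sum_add_distrib, ← sum_add_distrib]
    exact sum_congr rfl fun l hil => ca_layer_eq hl hp0 hM hpos hil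
  have hF := fpe_St (b := b) (y := p 0) (M + 1) 0
  have hK := kapL_dig (b := b) (M + 1) 0 (fun j _ hj => hbo j (by omega))
  have hL := ca_lst_dig (b := b) (M + 1) 0
  rw [zero_add] at hF hL
  have hSt := hM.St_eq ha (M + 1) (by omega)
  have hFk := hM.Fk_eq ha (Fin.last (M + 1)) (a (Fin.last (M + 1)) - 1)
  rw [Fin.val_last] at hFk
  rw [← hb] at hSt hFk
  rw [hbl, hFk, hSt] at hF
  have hF' : fpe (p 0) 0 (Complex.I * p 0) (dig b 0 (M + 1)) =
      (p (Fin.last (M + 1)), q (Fin.last (M + 1)) (a (Fin.last (M + 1)) - 1)) := hF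
  have hpos' : 0 < b (M + 1) ↔ Even (M + 1) := by
    rw [hb, xt_of _ _ (by omega : M + 1 < M + 2)]
    exact altf_pos_iff a ha (Fin.last (M + 1))
  have hKs : (kapL (dig b 0 (M + 1)) : ℂ) = -∑ i : Fin (M + 2), (-1) ^ (i : ℕ) * (a i : ℂ) := by
    rw [hK, sum_range]
    push_cast
    congr 1
    refine sum_congr rfl fun i _ => ?_
    rw [zero_add, hb, xt_eq]
    unfold altf
    push_cast
    rfl
  have hE : Even (M + 1) ↔ ¬ Even M := Nat.even_add_one
  unfold swCV cvL cend swK
  rw [ofFn_dig, ← hb, hF', hS, hL, hKs]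
  have hR : rsum (LS' b (p 0) 2 0 (M + 1)) = rsum (Lys 2 (p 0) 0 (Complex.I * p 0) (dig b 0 (M + 1))) := rfl
  rw [hR]
  simp only [hpos', hE]
  by_cases hm : Even M
  · simp only [hm, not_true_eq_false, if_false, if_true]
    refine ⟨-1, ?_⟩
    push_cast
    ring
  · simp only [hm, not_false_eq_true, if_false, if_true]
    refine ⟨-1, ?_⟩
    push_cast
    ring

end Pool.Agent.Work.MP_b30479_gtS.G2

end

section

/-!
# Congruences modulo `π²` and the values of the dilogarithm at the exponentials of the strip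
-/

namespace Pool.Agent.Work.MP_b30479_gtS.G2

open Finset

/-- congruence modulo `π²` -/
def Cq (x y : ℂ) : Prop := ∃ k : ℤ, x - y = Real.pi ^ 2 * k

lemma Cq.refl (x : ℂ) : Cq x x := ⟨0, by simp⟩

lemma Cq.symm {x y : ℂ} (h : Cq x y) : Cq y x := by
  obtain ⟨k, hk⟩ := h
  exact ⟨-k, by push_cast; linear_combination -hk⟩

lemma Cq.trans {x y z : ℂ} (h : Cq x y) (h' : Cq y z) : Cq x z := by
  obtain ⟨k, hk⟩ := h
  obtain ⟨l, hl⟩ := h'
  exact ⟨k + l, by push_cast; linear_combination hk + hl⟩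

lemma Cq.add {x y x' y' : ℂ} (h : Cq x y) (h' : Cq x' y') : Cq (x + x') (y + y') := by
  obtain ⟨k, hk⟩ := h
  obtain ⟨l, hl⟩ := h'
  exact ⟨k + l, by push_cast; linear_combination hk + hl⟩

lemma Cq.neg {x y : ℂ} (h : Cq x y) : Cq (-x) (-y) := by
  obtain ⟨k, hk⟩ := h
  exact ⟨-k, by push_cast; linear_combination -hk⟩

lemma Cq.sub {x y x' y' : ℂ} (h : Cq x y) (h' : Cq x' y') : Cq (x - x') (y - y') := by
  rw [sub_eq_add_neg, sub_eq_add_neg]
  exact h.add h'.neg

lemma Cg.cq {x y : ℂ} (h : Cg x y) : Cq x y := by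
  obtain ⟨k, hk⟩ := h
  exact ⟨2 * k, by push_cast; linear_combination hk⟩

lemma cq_conj {x y : ℂ} (h : Cq x y) : Cq ((starRingEnd ℂ) x) ((starRingEnd ℂ) y) := by
  obtain ⟨k, hk⟩ := h
  refine ⟨k, ?_⟩
  rw [← map_sub, hk]
  simp

lemma cq_of_eq {x y : ℂ} (k : ℤ) (h : x - y = Real.pi ^ 2 * k) : Cq x y := ⟨k, h⟩

/-- two logarithms of the same number -/
lemma exp_eq_int {x y : ℂ} (h : Complex.exp x = Complex.exp y) :
    ∃ n : ℤ, x = y + 2 * Real.pi * Complex.I * n := by
  obtain ⟨n, hn⟩ := Complex.exp_eq_exp_iff_exists_int.mp h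
  exact ⟨n, by rw [hn]; ring⟩

/-- change of the logarithms -/
theorem rl_shift' {α β α' β' : ℂ} (h : Complex.exp α' + Complex.exp β' = 1)
    (h1 : Complex.exp α = Complex.exp α') (h2 : Complex.exp β = Complex.exp β') :
    Cg (rl α β) (rl α' β' + (α * β' - β * α') / 2) := by
  obtain ⟨m, rfl⟩ := exp_eq_int h1
  obtain ⟨n, rfl⟩ := exp_eq_int h2
  obtain ⟨k, hk⟩ := rl_shift h m n
  exact ⟨k, by rw [← hk]; ring⟩

/-- inversion, all logarithms -/
theorem rl_inv' {α β α' β' : ℂ} (h : Complex.exp α + Complex.exp β = 1)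
    (h1 : Complex.exp α' * Complex.exp α = 1)
    (h2 : Complex.exp β' * Complex.exp α = -Complex.exp β) :
    Cq (rl α' β') (-rl α β + (α' * β + β' * α - α * α') / 2) := by
  have e1 : Complex.exp α' = Complex.exp (-α) := by
    rw [Complex.exp_neg]
    exact eq_inv_of_mul_eq_one_left h1
  have e2 : Complex.exp β' = Complex.exp (β - α + Real.pi * Complex.I * (1 : ℤ)) := by
    rw [Complex.exp_add, Complex.exp_sub]
    push_cast
    rw [mul_one, Complex.exp_pi_mul_I, mul_neg_one, ← neg_div, ← h2,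
      mul_div_cancel_right₀ _ (Complex.exp_ne_zero α)]
  have h3 : Complex.exp (-α) + Complex.exp (β - α + Real.pi * Complex.I * (1 : ℤ)) = 1 := by
    rw [← e1, ← e2]
    apply mul_right_cancel₀ (Complex.exp_ne_zero α)
    rw [add_mul, h1, h2, one_mul]
    linear_combination -h
  obtain ⟨k, hk⟩ := rl_shift' h3 e1 e2
  obtain ⟨l, hl⟩ := rl_inv h (s := 1) ⟨0, by norm_num⟩
  obtain ⟨m, hm⟩ := exp_eq_int e1
  refine ⟨2 * k + 2 * l - m, ?_⟩
  subst hm
  push_cast at *
  linear_combination hk + hl + Real.pi ^ 2 * m * Complex.I_sq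

/-- logarithm of `1 - e^{±2πiw}` -/
noncomputable def Bs (b : ℤ) (w : ℂ) : ℂ := VOL.ph w + sgB b * (Real.pi * Complex.I * (w - 1 / 2))

/-- the dilogarithm at `e^{±2πiw}` -/
noncomputable def fs (b : ℤ) (w : ℂ) : ℂ := rl (sgB b * (2 * Real.pi * Complex.I * w)) (Bs b w)

variable {b : ℤ}

lemma exp_sg (b : ℤ) (w : ℂ) : Complex.exp (sgB b * (2 * Real.pi * Complex.I * w)) = aa b w * aa b w := by
  unfold aa
  rw [← Complex.exp_add]
  congr 1
  ring

lemma exp_Bs {w : ℂ} (hw : w ∈ VOL.strip) : Complex.exp (Bs b w) = 1 - aa b w * aa b w := by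
  unfold Bs
  rw [show VOL.ph w + sgB b * (Real.pi * Complex.I * (w - 1 / 2)) =
    VOL.ph w + sgB b * (Real.pi * Complex.I * w) - un b by rw [un_sgB]; ring, Complex.exp_sub,
    Complex.exp_add, exp_un_one, exp_ph' b hw]
  have h1 := sgB_I_ne (b := b)
  have h2 := aa_ne b w
  have h3 : sgB b ≠ 0 := left_ne_zero_of_mul h1
  rw [show Complex.exp (sgB b * (Real.pi * Complex.I * w)) = aa b w from rfl]
  field_simp

lemma fs_one {w : ℂ} (hw : w ∈ VOL.strip) :
    Complex.exp (sgB b * (2 * Real.pi * Complex.I * w)) + Complex.exp (Bs b w) = 1 := by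
  rw [exp_Bs hw, exp_sg]; ring

lemma sg_cases (b : ℤ) : sgB b = 1 ∨ sgB b = -1 := by
  unfold sgB
  split_ifs
  · exact Or.inl rfl
  · exact Or.inr rfl

/-- the function `Fh` -/
theorem Fh_fs {w : ℂ} (hw : w ∈ VOL.strip) : Cq (-(2 * Real.pi * Complex.I * VOL.Fh w))
    (sgB b * fs b w - Real.pi * Complex.I * w * VOL.ph w + sgB b * (Real.pi ^ 2 * w / 2)) := by
  have h := rl_ee hw
  have h1 : Complex.exp (2 * Real.pi * Complex.I * w) +
      Complex.exp (VOL.ph w + Real.pi * Complex.I * (w - 1 / 2)) = 1 := by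
    have e := fs_one (b := 1) hw
    unfold Bs at e
    simpa [sgB] using e
  unfold fs Bs
  rcases sg_cases b with hs | hs
  · refine ⟨0, ?_⟩
    rw [hs]
    push_cast
    rw [one_mul, one_mul, one_mul, one_mul, h]
    ring
  · obtain ⟨k, hk⟩ := rl_inv h1 (s := 1) ⟨0, by norm_num⟩
    refine ⟨2 * k, ?_⟩
    rw [hs]
    rw [show -(2 * Real.pi * Complex.I * w) = -1 * (2 * Real.pi * Complex.I * w) by ring,
      show VOL.ph w + Real.pi * Complex.I * (w - 1 / 2) - 2 * Real.pi * Complex.I * w +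
        Real.pi * Complex.I * (1 : ℤ) = VOL.ph w + -1 * (Real.pi * Complex.I * (w - 1 / 2)) by
          push_cast; ring] at hk
    push_cast at hk ⊢
    linear_combination hk - h + Real.pi ^ 2 * w * Complex.I_sq

/-- the hinge: `α = log (1 / (1 - Y))`, `β = log (-Y / (1 - Y))` -/
theorem lam_fs {w α β : ℂ} (hw : w ∈ VOL.strip) (h : Complex.exp α + Complex.exp β = 1)
    (h1 : Complex.exp β = -Complex.exp (sgB b * (2 * Real.pi * Complex.I * w) + α)) :
    Cq (rl α β) (fs b w + Real.pi ^ 2 / 6 + (β - α) * Bs b w / 2 +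
      sgB b * (Real.pi * Complex.I * w * α)) := by
  have hf := fs_one (b := b) hw
  obtain ⟨k, hk⟩ := rl_symm hf
  have h1' : Complex.exp β = -(Complex.exp (sgB b * (2 * Real.pi * Complex.I * w)) * Complex.exp α) := by
    rw [h1, Complex.exp_add]
  have e1 : Complex.exp α * Complex.exp (Bs b w) = 1 := by
    have h2 : Complex.exp (Bs b w) = 1 - Complex.exp (sgB b * (2 * Real.pi * Complex.I * w)) := by
      rw [← hf]; ring
    rw [h2]
    rw [h1'] at h
    linear_combination h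
  have e2 : Complex.exp β * Complex.exp (Bs b w) =
      -Complex.exp (sgB b * (2 * Real.pi * Complex.I * w)) := by
    rw [h1']
    linear_combination -Complex.exp (sgB b * (2 * Real.pi * Complex.I * w)) * e1
  obtain ⟨l, hl⟩ := rl_inv' (by rw [add_comm]; exact hf) e1 e2
  refine ⟨l - 2 * k, ?_⟩
  unfold fs
  push_cast
  linear_combination hl - hk

end Pool.Agent.Work.MP_b30479_gtS.G2

end

section

/-!
# The formula does not depend on the logarithms
-/

namespace Pool.Agent.Work.MP_b30479_gtS.G2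

open Finset

variable {M : ℕ} {a : Fin (M + 2) → ℕ} {p : Fin (M + 2) → ℂ} {q : Fin (M + 2) → ℕ → ℂ}
  {P P' : Fin (M + 2) → ℂ} {Q Q' : Fin (M + 2) → ℕ → ℂ}

/-! ### two systems of logarithms -/

/-- `x` and `x'` are logarithms of the same number, which is `v` up to a fourth root of unity -/
def cvGood (x x' v : ℂ) : Prop := Complex.exp x' = Complex.exp x ∧ Complex.exp x ^ 4 = v ^ 4

lemma cvGood_of {x x' v : ℂ} (h : Complex.exp x = v) (h' : Complex.exp x' = v) : cvGood x x' v :=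
  ⟨by rw [h, h'], by rw [h]⟩

lemma cvGood_mid (hL : SWLog a p q P Q) (hL' : SWLog a p q P' Q') {i : Fin (M + 2)} {l : ℕ}
    (hl : l ∈ lays a i) : cvGood (Q i l) (Q' i l) (q i l) :=
  cvGood_of (hL.exp_q i l hl) (hL'.exp_q i l hl)

lemma cvGood_end (hl : 2 ≤ a (Fin.last (M + 1))) (hM : Markoff a p q) (hL : SWLog a p q P Q)
    (hL' : SWLog a p q P' Q') :
    cvGood (Q (Fin.last (M + 1)) (a (Fin.last (M + 1)) - 1))
      (Q' (Fin.last (M + 1)) (a (Fin.last (M + 1)) - 1))
      (q (Fin.last (M + 1)) (a (Fin.last (M + 1)) - 1)) := by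
  refine ⟨?_, ?_⟩
  · rw [hL.last, hL'.last, hL.exp_p, hL'.exp_p]
  · rw [hL.last, hL.exp_p]
    have h := (hM.end_eq hl).2
    linear_combination (p (Fin.last (M + 1)) ^ 2 -
      q (Fin.last (M + 1)) (a (Fin.last (M + 1)) - 1) ^ 2) * h

lemma cvGood_pred (hM : Markoff a p q) (hL : SWLog a p q P Q)
    (hL' : SWLog a p q P' Q') {i : Fin (M + 2)} {l : ℕ} (hil : l ∈ lays a i) :
    cvGood (Q i (l - 1)) (Q' i (l - 1)) (q i (l - 1)) := by
  have hb := hil
  unfold lays at hb
  rw [mem_Icc] at hb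
  by_cases hi : i = 0
  · subst hi
    rw [if_pos rfl] at hb
    by_cases h2 : l = 2
    · subst h2
      refine ⟨?_, ?_⟩
      · rw [show 2 - 1 = 1 from rfl, hL.first, hL'.first, hL.exp_p, hL'.exp_p]
      · rw [show 2 - 1 = 1 from rfl, hL.first, hL.exp_p, hM.first.2, mul_pow, Complex.I_pow_four,
          one_mul]
    · apply cvGood_mid hL hL'
      unfold lays
      rw [mem_Icc, if_pos rfl]
      omega
  · obtain ⟨j, rfl⟩ := Fin.exists_succ_eq.mpr hi
    rw [if_neg hi] at hb
    by_cases h2 : l = 1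
    · subst h2
      apply cvGood_of
      · rw [Nat.sub_self, (hL.turn j).2.1, (hM.turn j).2.1, hL.exp_p]
      · rw [Nat.sub_self, (hL'.turn j).2.1, (hM.turn j).2.1, hL'.exp_p]
    · apply cvGood_mid hL hL'
      unfold lays
      rw [mem_Icc, if_neg hi]
      omega

lemma cvGood_succ (ha : ∀ i, 1 ≤ a i) (hl : 2 ≤ a (Fin.last (M + 1)))
    (hM : Markoff a p q) (hL : SWLog a p q P Q)
    (hL' : SWLog a p q P' Q') {i : Fin (M + 2)} {l : ℕ} (hil : l ∈ lays a i) :
    cvGood (Q i (l + 1)) (Q' i (l + 1)) (q i (l + 1)) := by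
  have hb := hil
  unfold lays at hb
  rw [mem_Icc] at hb
  have hb1 : 1 ≤ l := by
    split_ifs at hb <;> omega
  by_cases hi : i = Fin.last (M + 1)
  · subst hi
    rw [if_pos rfl] at hb
    by_cases h2 : l = a (Fin.last (M + 1)) - 2
    · rw [show l + 1 = a (Fin.last (M + 1)) - 1 by omega]
      exact cvGood_end hl hM hL hL'
    · apply cvGood_mid hL hL'
      unfold lays
      rw [mem_Icc, if_pos rfl]
      omega
  · obtain ⟨j, rfl⟩ := Fin.exists_castSucc_eq.mpr hi
    rw [if_neg hi] at hb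
    by_cases h2 : l = a j.castSucc
    · subst h2
      rw [← (hL.turn j).2.2, ← (hL'.turn j).2.2, ← (hM.turn j).2.2]
      by_cases h3 : 1 ∈ lays a j.succ
      · exact cvGood_mid hL hL' h3
      · have h4 : j.succ = Fin.last (M + 1) ∧ a (Fin.last (M + 1)) - 1 = 1 := by
          unfold lays at h3
          rw [mem_Icc, if_neg (Fin.succ_ne_zero j)] at h3
          by_cases h5 : j.succ = Fin.last (M + 1)
          · rw [if_pos h5, h5] at h3
            exact ⟨h5, by omega⟩
          · rw [if_neg h5] at h3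
            exact absurd ⟨le_rfl, ha _⟩ h3
        have h5 := cvGood_end hl hM hL hL'
        rw [h4.2, ← h4.1] at h5
        exact h5
    · apply cvGood_mid hL hL'
      unfold lays
      rw [mem_Icc, if_neg hi]
      omega

/-! ### one layer -/

/-- the neighbours in the fan -/
lemma cv_nb (hM : Markoff a p q) (i : Fin (M + 2)) {l : ℕ} (hl : 1 ≤ l) :
    q i (l - 1) * q i (l + 1) = p i ^ 2 + q i l ^ 2 := by
  have h := (hM.mkf i i.2).fan l
  have e : (⟨(i : ℕ), i.2⟩ : Fin (M + 2)) = i := rfl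
  rw [e, ← ca_fan_eq (hM.fan i), ← ca_fan_eq (hM.fan i)] at h
  have h2 := hM.fan i (l - 1)
  rw [show l - 1 + 2 = l + 1 by omega, show l - 1 + 1 = l by omega] at h2
  unfold Mkf at h
  linear_combination h + q i (l + 1) * h2

/-- the values of Neumann's function for two systems of logarithms -/
lemma cv_layer {z w0 w1 w0' w1' : ℂ} (hz : z ≠ 0) (hz1 : 1 - z ≠ 0)
    (h0 : Complex.exp w0 = -z) (h1 : (Complex.exp w1 * (1 - z)) ^ 4 = 1)
    (k0 k1 : ℤ) (hk0 : w0' - w0 = 4 * Real.pi * Complex.I * k0)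
    (hk1 : w1' - w1 = 2 * Real.pi * Complex.I * k1) :
    2 * RN z w0' w1' - 2 * RN z w0 w1 - ((w1' - w1) * w0 - (w0' - w0) * w1) ∈
      AddSubgroup.zmultiples ((Real.pi : ℂ) ^ 2) := by
  have e0 : Complex.exp (Complex.log z) = Complex.exp (w0 + Real.pi * Complex.I) := by
    rw [Complex.exp_log hz, Complex.exp_add, h0, Complex.exp_pi_mul_I]
    ring
  have e1 : Complex.exp (4 * (Complex.log (1 - z) + w1)) = 1 := by
    rw [show (4 : ℂ) * (Complex.log (1 - z) + w1) = ((4 : ℕ) : ℂ) * (Complex.log (1 - z) + w1) by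
      norm_num, Complex.exp_nat_mul, Complex.exp_add, Complex.exp_log hz1, mul_comm (1 - z)]
    exact h1
  obtain ⟨n, hn⟩ := Complex.exp_eq_exp_iff_exists_int.mp e0
  obtain ⟨m, hm⟩ := Complex.exp_eq_one_iff.mp e1
  rw [AddSubgroup.mem_zmultiples_iff]
  refine ⟨-(2 * k0 * m) - 2 * k1 * (1 + 2 * n), ?_⟩
  rw [zsmul_eq_mul]
  push_cast
  unfold RN
  have hm' : Complex.log (1 - z) = -w1 + m * (Real.pi * Complex.I) / 2 := by
    linear_combination (1 / 4 : ℂ) * hm
  have hI := Complex.I_sq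
  have e : 2 * (LT.li2 z + (w0' * Complex.log (1 - z) + w1' * Complex.log z +
      Complex.log z * Complex.log (1 - z)) / 2 - (Real.pi : ℂ) ^ 2 / 6) -
      2 * (LT.li2 z + (w0 * Complex.log (1 - z) + w1 * Complex.log z +
      Complex.log z * Complex.log (1 - z)) / 2 - (Real.pi : ℂ) ^ 2 / 6) =
      (w0' - w0) * Complex.log (1 - z) + (w1' - w1) * Complex.log z := by ring
  rw [e, hk0, hk1, hn, hm']
  linear_combination (-(2 * k0 * m) - 2 * k1 * (1 + 2 * n) : ℂ) * (Real.pi : ℂ) ^ 2 * hI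

/-- the area form of the pair of the two systems -/
def cvArea (P P' : Fin (M + 2) → ℂ) (Q Q' : Fin (M + 2) → ℕ → ℂ) (i : Fin (M + 2)) (l : ℕ) : ℂ :=
  ((P' i - P i) * Q i l - (Q' i l - Q i l) * P i) +
  ((Q' i l - Q i l) * Q i (l + 1) - (Q' i (l + 1) - Q i (l + 1)) * Q i l) +
  ((Q' i (l + 1) - Q i (l + 1)) * P i - (P' i - P i) * Q i (l + 1))

lemma cv_wedge (i : Fin (M + 2)) {l : ℕ} (hl : 1 ≤ l) :
    (swW1 P' Q' i l - swW1 P Q i l) * swW0 P Q i l - (swW0 P' Q' i l - swW0 P Q i l) * swW1 P Q i l =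
      (if Even (i : ℕ) then 2 else -2) * (cvArea P P' Q Q' i l - cvArea P P' Q Q' i (l - 1)) := by
  unfold swW1 swW0 cvArea
  rw [show l - 1 + 1 = l by omega]
  split_ifs <;> ring

/-- the layers for two systems of logarithms -/
lemma cv_lay (ha : ∀ i, 1 ≤ a i) (hl : 2 ≤ a (Fin.last (M + 1)))
    (hM : Markoff a p q) (hpos : SWPos a p q) (hL : SWLog a p q P Q)
    (hL' : SWLog a p q P' Q') {i : Fin (M + 2)} {l : ℕ} (hil : l ∈ lays a i) :
    2 * RN (swShape p q i l) (swW0 P' Q' i l) (swW1 P' Q' i l) -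
      2 * RN (swShape p q i l) (swW0 P Q i l) (swW1 P Q i l) -
      (if Even (i : ℕ) then 2 else -2) * (cvArea P P' Q Q' i l - cvArea P P' Q Q' i (l - 1)) ∈
      AddSubgroup.zmultiples ((Real.pi : ℂ) ^ 2) := by
  have hb1 : 1 ≤ l := by
    have hb := hil
    unfold lays at hb
    rw [mem_Icc] at hb
    split_ifs at hb <;> omega
  obtain ⟨hp, hq⟩ := hpos.ne hil
  have him := hpos i l hil
  have hz : swShape p q i l ≠ 0 := by
    intro h
    rw [h] at him
    simp at him
  have hz1 : 1 - swShape p q i l ≠ 0 := by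
    intro h
    rw [← sub_eq_zero.mp h] at him
    simp at him
  have gP : Complex.exp (P i) = p i := hL.exp_p i
  have gP' : Complex.exp (P' i) = p i := hL'.exp_p i
  have gQ : Complex.exp (Q i l) = q i l := hL.exp_q i l hil
  have gQ' : Complex.exp (Q' i l) = q i l := hL'.exp_q i l hil
  have gA := cvGood_pred hM hL hL' hil
  have gB := cvGood_succ ha hl hM hL hL' hil
  have hnb := cv_nb hM i hb1
  obtain ⟨nP, hnP⟩ := Complex.exp_eq_exp_iff_exists_int.mp (gP'.trans gP.symm)
  obtain ⟨nQ, hnQ⟩ := Complex.exp_eq_exp_iff_exists_int.mp (gQ'.trans gQ.symm)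
  obtain ⟨nA, hnA⟩ := Complex.exp_eq_exp_iff_exists_int.mp gA.1
  obtain ⟨nB, hnB⟩ := Complex.exp_eq_exp_iff_exists_int.mp gB.1
  rw [← cv_wedge i hb1]
  have hs : p i ^ 2 + q i l ^ 2 ≠ 0 := by
    intro h
    apply hz1
    unfold swShape
    split_ifs
    · field_simp
      linear_combination h
    · field_simp
      linear_combination h
  have hexpAB : (Complex.exp (Q i (l - 1)) * Complex.exp (Q i (l + 1))) ^ 4 =
      (p i ^ 2 + q i l ^ 2) ^ 4 := by
    rw [mul_pow, gA.2, gB.2, ← mul_pow, hnb]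
  have hAB0 : Complex.exp (Q i (l - 1)) * Complex.exp (Q i (l + 1)) ≠ 0 :=
    mul_ne_zero (Complex.exp_ne_zero _) (Complex.exp_ne_zero _)
  by_cases hi : Even (i : ℕ)
  · refine cv_layer hz hz1 ?_ ?_ (nQ - nP) (2 * nP - nA - nB) ?_ ?_
    · unfold swW0 swShape
      rw [if_pos hi, if_pos hi, Complex.exp_sub, two_mul, two_mul, Complex.exp_add,
        Complex.exp_add, gP, gQ]
      field_simp
    · unfold swW1 swShape
      rw [if_pos hi, if_pos hi, Complex.exp_sub, Complex.exp_sub, two_mul, Complex.exp_add, gP,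
        div_div]
      have : p i * p i / (Complex.exp (Q i (l - 1)) * Complex.exp (Q i (l + 1))) *
          (1 - -(q i l / p i) ^ 2) =
          (p i ^ 2 + q i l ^ 2) / (Complex.exp (Q i (l - 1)) * Complex.exp (Q i (l + 1))) := by
        field_simp
        ring
      rw [this, div_pow, hexpAB, div_self (pow_ne_zero _ hs)]
    · unfold swW0
      rw [if_pos hi, if_pos hi, hnP, hnQ]
      push_cast
      ring
    · unfold swW1
      rw [if_pos hi, if_pos hi, hnP, hnA, hnB]
      push_cast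
      ring
  · refine cv_layer hz hz1 ?_ ?_ (nP - nQ) (2 * nQ - nA - nB) ?_ ?_
    · unfold swW0 swShape
      rw [if_neg hi, if_neg hi, Complex.exp_sub, two_mul, two_mul, Complex.exp_add,
        Complex.exp_add, gP, gQ]
      field_simp
    · unfold swW1 swShape
      rw [if_neg hi, if_neg hi, Complex.exp_sub, Complex.exp_sub, two_mul, Complex.exp_add, gQ,
        div_div]
      have : q i l * q i l / (Complex.exp (Q i (l - 1)) * Complex.exp (Q i (l + 1))) *
          (1 - -(p i / q i l) ^ 2) =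
          (p i ^ 2 + q i l ^ 2) / (Complex.exp (Q i (l - 1)) * Complex.exp (Q i (l + 1))) := by
        field_simp
        ring
      rw [this, div_pow, hexpAB, div_self (pow_ne_zero _ hs)]
    · unfold swW0
      rw [if_neg hi, if_neg hi, hnP, hnQ]
      push_cast
      ring
    · unfold swW1
      rw [if_neg hi, if_neg hi, hnQ, hnA, hnB]
      push_cast
      ring

/-! ### the telescoping sum -/

lemma cv_tele (T : ℕ → ℂ) {s e : ℕ} (hs : 1 ≤ s) (h : s ≤ e + 1) :
    ∑ l ∈ Icc s e, (T l - T (l - 1)) = T e - T (s - 1) := by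
  obtain ⟨n, hn⟩ := Nat.exists_eq_add_of_le h
  rw [← Finset.Ico_add_one_right_eq_Icc, sum_Ico_eq_sum_range, hn, Nat.add_sub_cancel_left]
  have e2 : e = s + n - 1 := by omega
  rw [e2]
  clear hn e2 h
  induction n with
  | zero => simp
  | succ n ih =>
    rw [sum_range_succ, ih, show s + (n + 1) - 1 = s + n by omega]
    ring

lemma cvArea_turn (hL : SWLog a p q P Q) (hL' : SWLog a p q P' Q') (j : Fin (M + 1)) :
    cvArea P P' Q Q' j.castSucc (a j.castSucc) = -cvArea P P' Q Q' j.succ 0 := by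
  unfold cvArea
  rw [zero_add, (hL.turn j).1, (hL.turn j).2.1, (hL.turn j).2.2, (hL'.turn j).1, (hL'.turn j).2.1,
    (hL'.turn j).2.2]
  ring

lemma cvArea_first (hL : SWLog a p q P Q) (hL' : SWLog a p q P' Q') : cvArea P P' Q Q' 0 1 = 0 := by
  unfold cvArea
  rw [hL.first, hL'.first]
  ring

lemma cvArea_last (hl : 2 ≤ a (Fin.last (M + 1))) (hL : SWLog a p q P Q)
    (hL' : SWLog a p q P' Q') :
    cvArea P P' Q Q' (Fin.last (M + 1)) (a (Fin.last (M + 1)) - 2) = 0 := by
  unfold cvArea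
  rw [show a (Fin.last (M + 1)) - 2 + 1 = a (Fin.last (M + 1)) - 1 by omega, hL.last, hL'.last]
  ring

lemma cv_zero (ha : ∀ i, 1 ≤ a i) (h0 : 2 ≤ a 0) (hl : 2 ≤ a (Fin.last (M + 1)))
    (hL : SWLog a p q P Q) (hL' : SWLog a p q P' Q') :
    ∑ i, ∑ l ∈ lays a i, (if Even (i : ℕ) then (2 : ℂ) else -2) *
      (cvArea P P' Q Q' i l - cvArea P P' Q Q' i (l - 1)) = 0 := by
  have h1 : ∀ i, ∑ l ∈ lays a i, (if Even (i : ℕ) then (2 : ℂ) else -2) *
      (cvArea P P' Q Q' i l - cvArea P P' Q Q' i (l - 1)) =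
      (if Even (i : ℕ) then (2 : ℂ) else -2) *
        cvArea P P' Q Q' i (if i = Fin.last (M + 1) then a i - 2 else a i) -
      (if Even (i : ℕ) then (2 : ℂ) else -2) * cvArea P P' Q Q' i ((if i = 0 then 2 else 1) - 1) := by
    intro i
    rw [← mul_sum, lays, cv_tele, mul_sub]
    · split_ifs <;> omega
    · by_cases hi0 : i = 0
      · subst hi0
        rw [if_pos rfl, if_neg ca_last_ne_zero.symm]
        omega
      · rw [if_neg hi0]
        omega
  rw [sum_congr rfl fun i _ => h1 i, sum_sub_distrib, Fin.sum_univ_castSucc,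
    Fin.sum_univ_succ (fun i => (if Even (i : ℕ) then (2 : ℂ) else -2) *
      cvArea P P' Q Q' i ((if i = 0 then 2 else 1) - 1)), if_pos rfl, if_pos rfl, cvArea_last hl hL hL',
    show 2 - 1 = 1 from rfl, cvArea_first hL hL', mul_zero, mul_zero, add_zero, zero_add,
    ← sum_sub_distrib]
  refine sum_eq_zero fun j _ => ?_
  rw [if_neg (ca_castSucc_ne_last j), if_neg (ca_succ_ne j), Nat.sub_self, cvArea_turn hL hL',
    Fin.val_castSucc, Fin.val_succ]
  by_cases h : Even (j : ℕ)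
  · rw [if_pos h, if_neg (by rw [Nat.even_add_one]; simpa using h)]
    ring
  · rw [if_neg h, if_pos (by rw [Nat.even_add_one]; exact h)]
    ring

/-- The formula does not depend on the logarithms modulo `π² i`. -/
theorem swCV_indep (ha : ∀ i, 1 ≤ a i) (h0 : 2 ≤ a 0) (hl : 2 ≤ a (Fin.last (M + 1)))
    (hM : Markoff a p q) (hpos : SWPos a p q) (hL : SWLog a p q P Q) (hL' : SWLog a p q P' Q') :
    Ci (swCV a p q P Q) (swCV a p q P' Q') := by
  have h1 : (∑ i, ∑ l ∈ lays a i,
      2 * RN (swShape p q i l) (swW0 P' Q' i l) (swW1 P' Q' i l)) -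
      (∑ i, ∑ l ∈ lays a i, 2 * RN (swShape p q i l) (swW0 P Q i l) (swW1 P Q i l)) ∈
      AddSubgroup.zmultiples ((Real.pi : ℂ) ^ 2) := by
    have h2 := sum_mem (S := AddSubgroup.zmultiples ((Real.pi : ℂ) ^ 2)) (t := univ.sigma (lays a))
      (f := fun x : (_ : Fin (M + 2)) × ℕ =>
      2 * RN (swShape p q x.1 x.2) (swW0 P' Q' x.1 x.2) (swW1 P' Q' x.1 x.2) -
      2 * RN (swShape p q x.1 x.2) (swW0 P Q x.1 x.2) (swW1 P Q x.1 x.2) -
      (if Even (x.1 : ℕ) then 2 else -2) *
        (cvArea P P' Q Q' x.1 x.2 - cvArea P P' Q Q' x.1 (x.2 - 1)))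
      (fun x hx => cv_lay ha hl hM hpos hL hL' (mem_sigma.mp hx).2)
    rw [sum_sub_distrib, sum_sub_distrib, sum_sigma, sum_sigma, sum_sigma] at h2
    rw [cv_zero ha h0 hl hL hL', sub_zero] at h2
    exact h2
  obtain ⟨k, hk⟩ := AddSubgroup.mem_zmultiples_iff.mp h1
  rw [zsmul_eq_mul] at hk
  refine ⟨k, ?_⟩
  unfold swCV
  linear_combination (-Complex.I) * hk

end Pool.Agent.Work.MP_b30479_gtS.G2

end

section

/-!
# The sum over the halves of the layers
-/

namespace Pool.Agent.Work.MP_b30479_gtS.G2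

open Finset

/-- The values of the fan `k ≥ 1` from `q (-1)` on; the first fan is read from the turning point. -/
noncomputable def Vk (b : ℕ → ℤ) (y : ℂ) : ℕ → ℕ → ℂ
  | 0, l => Fk b y 0 ((b 0).natAbs + 1 - l)
  | k + 1, l => fan (St b y (k + 1)).1
      ((St b y (k + 1)).1 * (St b y (k + 1)).2.1 - (St b y (k + 1)).2.2) (St b y (k + 1)).2.1 l

/-- half a layer of the run `k` -/
noncomputable def RKc (b : ℕ → ℤ) (y : ℂ) (k l : ℕ) : ℂ := RL (layV (b k) (St b y k).1 (Vk b y k) l)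

/-- the halves of the layers of the run `k` -/
noncomputable def HS (N : ℕ) (b : ℕ → ℤ) (y : ℂ) (k : ℕ) : ℂ :=
  ∑ l ∈ range (nlN N b k), (RKc b y k l + RKc b y k (l + 1)) +
    if k = 0 ∨ k = N then RKc b y k ((b k).natAbs - 2) else 0

variable {N : ℕ} {b : ℕ → ℤ} {Y : ℕ → ℂ} {U : ℕ → ℕ → ℂ} {y : ℂ}

private lemma exp_two_log {x : ℂ} (hx : x ≠ 0) : Complex.exp (2 * Complex.log x) = x ^ 2 := by
  rw [two_mul, Complex.exp_add, Complex.exp_log hx, sq]

/-- `RN` and the extended Rogers dilogarithm -/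
lemma RN_rlp {z w0 w1 : ℂ} (h0 : Complex.exp w0 = -z) (h1 : Complex.exp (-w1) = 1 - z) :
    Cq (RN z w0 w1) (rl (w0 + Real.pi * Complex.I) (-w1) + Real.pi * Complex.I * w1 / 2) := by
  have e0 : Complex.exp (w0 + Real.pi * Complex.I) = z := by
    rw [Complex.exp_add, Complex.exp_pi_mul_I, h0]
    ring
  have hz : 1 - z ≠ 0 := by rw [← h1]; exact Complex.exp_ne_zero _
  have e1 : Complex.exp (-w1) = Complex.exp (Complex.log (1 - z)) := by
    rw [Complex.exp_log hz, h1]
  obtain ⟨n, hn⟩ := exp_eq_int e1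
  refine ⟨-n, ?_⟩
  unfold rl RN
  rw [e0]
  have hw : w1 = -(Complex.log (1 - z) + 2 * Real.pi * Complex.I * n) := by
    linear_combination -hn
  rw [hw]
  generalize Complex.log (1 - z) = A
  generalize Complex.log z = B
  generalize LT.li2 z = C
  push_cast
  linear_combination (Real.pi : ℂ) ^ 2 * n * Complex.I_sq

/-- the two sides of an edge which the path does not cross -/
theorem RL_swap {L : Lay} (hp : L.p ≠ 0) (hq : L.q ≠ 0) (ht : L.t * L.u = L.p ^ 2 + L.q ^ 2)
    (h0 : L.t * L.u ≠ 0) : Cq (RL L + RL L.swap) (Real.pi ^ 2 / 2) := by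
  have ht0 : L.t ≠ 0 := left_ne_zero_of_mul h0
  have hu0 : L.u ≠ 0 := right_ne_zero_of_mul h0
  obtain ⟨p, q, t, u⟩ := L
  simp only at hp hq ht h0 ht0 hu0
  have a1 : Complex.exp (2 * Complex.log q - 2 * Complex.log p) = -zL ⟨p, q, t, u⟩ := by
    rw [Complex.exp_sub, exp_two_log hp, exp_two_log hq]
    simp only [zL]
    field_simp
  have a2 : Complex.exp (-(2 * Complex.log p - Complex.log t - Complex.log u)) =
      1 - zL ⟨p, q, t, u⟩ := by
    rw [Complex.exp_neg, Complex.exp_sub, Complex.exp_sub, exp_two_log hp, Complex.exp_log ht0,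
      Complex.exp_log hu0]
    simp only [zL]
    field_simp
    linear_combination ht
  have b1 : Complex.exp (2 * Complex.log p - 2 * Complex.log q) = -zL (Lay.swap ⟨p, q, t, u⟩) := by
    rw [Complex.exp_sub, exp_two_log hp, exp_two_log hq]
    simp only [zL, Lay.swap]
    field_simp
  have b2 : Complex.exp (-(2 * Complex.log q - Complex.log u - Complex.log t)) =
      1 - zL (Lay.swap ⟨p, q, t, u⟩) := by
    rw [Complex.exp_neg, Complex.exp_sub, Complex.exp_sub, exp_two_log hq, Complex.exp_log ht0,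
      Complex.exp_log hu0]
    simp only [zL, Lay.swap]
    field_simp
    linear_combination ht
  have A := RN_rlp a1 a2
  have B := RN_rlp b1 b2
  set w0 := 2 * Complex.log q - 2 * Complex.log p with hw0
  set w1 := 2 * Complex.log p - Complex.log t - Complex.log u with hw1
  have c0 : 2 * Complex.log p - 2 * Complex.log q = -w0 := by rw [hw0]; ring
  have c1 : 2 * Complex.log q - Complex.log u - Complex.log t = w1 + w0 := by rw [hw0, hw1]; ring
  rw [c0, c1] at B
  have ez : Complex.exp (w0 + Real.pi * Complex.I) = zL ⟨p, q, t, u⟩ := by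
    rw [Complex.exp_add, Complex.exp_pi_mul_I, a1]
    ring
  have C := rl_inv' (α := w0 + Real.pi * Complex.I) (β := -w1) (α' := -w0 + Real.pi * Complex.I)
    (β' := -(w1 + w0)) (by rw [ez, a2]; ring)
    (by
      rw [← Complex.exp_add, show -w0 + Real.pi * Complex.I + (w0 + Real.pi * Complex.I) =
        2 * Real.pi * Complex.I by ring, Complex.exp_two_pi_mul_I])
    (by
      rw [← Complex.exp_add, show -(w1 + w0) + (w0 + Real.pi * Complex.I) =
        -w1 + Real.pi * Complex.I by ring, Complex.exp_add, Complex.exp_pi_mul_I]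
      ring)
  obtain ⟨k, hk⟩ := A
  obtain ⟨l, hl⟩ := B
  obtain ⟨m, hm⟩ := C
  have eA : RL ⟨p, q, t, u⟩ = RN (zL ⟨p, q, t, u⟩) w0 w1 := rfl
  have eB : RL (Lay.swap ⟨p, q, t, u⟩) = RN (zL (Lay.swap ⟨p, q, t, u⟩)) (-w0) (w1 + w0) := by
    rw [← c0, ← c1]
    rfl
  refine ⟨k + l + m, ?_⟩
  rw [eA, eB]
  push_cast
  linear_combination hk + hl + hm - (Real.pi : ℂ) ^ 2 / 2 * Complex.I_sq

lemma Vk_succ (b : ℕ → ℤ) (y : ℂ) {k : ℕ} (hk : 1 ≤ k) (l : ℕ) : Vk b y k (l + 1) = Fk b y k l := by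
  obtain ⟨k, rfl⟩ : ∃ j, k = j + 1 := ⟨k - 1, by omega⟩
  have h := fan_shift (St b y (k + 1)).1
    ((St b y (k + 1)).1 * (St b y (k + 1)).2.1 - (St b y (k + 1)).2.2) (St b y (k + 1)).2.1 l
  rw [sub_sub_cancel] at h
  exact h.symm

lemma RK_eq (b : ℕ → ℤ) (y : ℂ) {k : ℕ} (hk : 1 ≤ k) (l : ℕ) :
    RKc b y k (l + 1) = RL (LK b y k (l + 1)) := by
  unfold RKc LK layV lay
  rw [Vk_succ b y hk l, Vk_succ b y hk (l + 1), show l + 1 + 2 = l + 2 + 1 by ring,
    Vk_succ b y hk (l + 2), Nat.add_sub_cancel]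
  rfl

/-- `RL` does not depend on the order of the third vertices -/
lemma RL_comm (p q t u : ℂ) : RL ⟨p, q, t, u⟩ = RL ⟨p, q, u, t⟩ := by
  unfold RL zL
  simp only
  congr 1
  ring

lemma RK_first (b : ℕ → ℤ) (y : ℂ) {l : ℕ} (hl : l < (b 0).natAbs) :
    RKc b y 0 l = RL (LK b y 0 ((b 0).natAbs - l)) := by
  have e0 : Vk b y 0 l = Fk b y 0 ((b 0).natAbs - l + 1) := by
    show Fk b y 0 _ = _
    rw [show (b 0).natAbs + 1 - l = (b 0).natAbs - l + 1 by omega]
  have e1 : Vk b y 0 (l + 1) = Fk b y 0 ((b 0).natAbs - l) := by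
    show Fk b y 0 _ = _
    rw [show (b 0).natAbs + 1 - (l + 1) = (b 0).natAbs - l by omega]
  have e2 : Vk b y 0 (l + 2) = Fk b y 0 ((b 0).natAbs - l - 1) := by
    show Fk b y 0 _ = _
    rw [show (b 0).natAbs + 1 - (l + 2) = (b 0).natAbs - l - 1 by omega]
  unfold RKc LK layV lay
  rw [e0, e1, e2]
  split_ifs
  · exact RL_comm _ _ _ _
  · exact RL_comm _ _ _ _

lemma rsum_append (S T : List Lay) : rsum (S ++ T) = rsum S + rsum T := by
  unfold rsum
  rw [List.map_append, List.sum_append]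

lemma rsum_run (k kk n : ℕ) : rsum ((List.range' kk n).map (LK b y k)) =
    ∑ l ∈ range n, 2 * RL (LK b y k (kk + l)) := by
  unfold rsum
  induction n generalizing kk with
  | zero => simp
  | succ n ih =>
    rw [List.range'_succ, List.map_cons, List.map_cons, List.sum_cons, ih, sum_range_succ', add_comm,
      add_zero]
    congr 1
    exact sum_congr rfl fun l _ => by rw [show kk + 1 + l = kk + (l + 1) by ring]

lemma rsum_if (k : ℕ) : rsum (if b k * b (k + 1) < 0 then [LK b y k (b k).natAbs] else []) =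
    if b k * b (k + 1) < 0 then 2 * RL (LK b y k (b k).natAbs) else 0 := by
  split_ifs
  · simp [rsum]
  · simp [rsum]

lemma tele_c (B : ℕ → ℂ) (m : ℕ) : ∑ l ∈ range (m + 1), (B l + B (l + 1)) =
    B 0 + ∑ l ∈ range m, 2 * B (l + 1) + B (m + 1) := by
  induction m with
  | zero => simp
  | succ m ih =>
    rw [sum_range_succ, ih, sum_range_succ _ m]
    ring

/-- the halves at a turning point -/
lemma turn_halves (h : GlueN N b Y U) (hy : (1 - U 0 1) * (1 - (U 0 0)⁻¹) = y ^ 2) {k : ℕ}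
    (hk : k < N) : Cq (RL (LK b y k (b k).natAbs) + RKc b y (k + 1) 0)
      ((if b k * b (k + 1) < 0 then 2 * RL (LK b y k (b k).natAbs) else 0) +
        if b k * b (k + 1) < 0 then 0 else (Real.pi : ℂ) ^ 2 / 2) := by
  have hb := h.b0 k (by omega)
  have hc := h.b0 (k + 1) (by omega)
  obtain ⟨m, hm⟩ : ∃ m, (b k).natAbs = m + 1 := ⟨(b k).natAbs - 1, by omega⟩
  have hrec : Fk b y k (m + 2) = (St b y k).1 * Fk b y k (m + 1) - Fk b y k m := rfl
  have v1 : Vk b y (k + 1) 1 = (St b y k).1 := Vk_succ b y (by omega) 0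
  have v2 : Vk b y (k + 1) 2 = nq (b k) (b (k + 1)) (St b y k).1 (St b y k).2.1 (St b y k).2.2 :=
    Vk_succ b y (by omega) 1
  have v0 : Vk b y (k + 1) 0 = (St b y (k + 1)).1 * (St b y k).1 -
    nq (b k) (b (k + 1)) (St b y k).1 (St b y k).2.1 (St b y k).2.2 := rfl
  have s1 : (St b y (k + 1)).1 = Fk b y k (m + 1) := by
    show fan _ _ _ (b k).natAbs = _
    rw [hm]
    rfl
  have n1 : b k * b (k + 1) < 0 → nq (b k) (b (k + 1)) (St b y k).1 (St b y k).2.1 (St b y k).2.2 =
      Fk b y k (m + 2) := by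
    intro hs
    unfold nq
    rw [if_pos hs, hm]
    rfl
  have n2 : ¬ b k * b (k + 1) < 0 →
      nq (b k) (b (k + 1)) (St b y k).1 (St b y k).2.1 (St b y k).2.2 = Fk b y k m := by
    intro hs
    unfold nq
    rw [if_neg hs, hm]
    rfl
  by_cases hs : b k * b (k + 1) < 0
  · rw [if_pos hs, if_pos hs, add_zero]
    have e : RKc b y (k + 1) 0 = RL (LK b y k (b k).natAbs) := by
      unfold RKc LK
      congr 1
      unfold layV lay
      rw [v0, v1, v2, s1, n1 hs, hrec, hm]
      have e1 : fan (St b y k).1 (St b y k).2.1 (St b y k).2.2 (m + 1) = Fk b y k (m + 1) := rfl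
      have e2 : fan (St b y k).1 (St b y k).2.1 (St b y k).2.2 (m + 1 - 1) = Fk b y k m := rfl
      have e3 : fan (St b y k).1 (St b y k).2.1 (St b y k).2.2 (m + 1 + 1) = Fk b y k (m + 2) := rfl
      rw [e1, e2, e3, hrec]
      rw [mul_neg_iff'] at hs
      rcases hs with ⟨h1, h2⟩ | ⟨h1, h2⟩
      · rw [if_neg (by omega), if_pos h1]
        congr 1
        ring
      · rw [if_pos h2, if_neg (by omega)]
        congr 1
        ring
    rw [e, two_mul]
    exact Cq.refl _
  · rw [if_neg hs, if_neg hs, zero_add]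
    have e : RKc b y (k + 1) 0 = RL (LK b y k (b k).natAbs).swap := by
      unfold RKc LK
      congr 1
      unfold layV lay
      rw [v0, v1, v2, s1, n2 hs, hm]
      have e1 : fan (St b y k).1 (St b y k).2.1 (St b y k).2.2 (m + 1) = Fk b y k (m + 1) := rfl
      have e2 : fan (St b y k).1 (St b y k).2.1 (St b y k).2.2 (m + 1 - 1) = Fk b y k m := rfl
      have e3 : fan (St b y k).1 (St b y k).2.1 (St b y k).2.2 (m + 1 + 1) = Fk b y k (m + 2) := rfl
      rw [e1, e2, e3, hrec]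
      rw [mul_neg_iff'] at hs
      rcases lt_or_gt_of_ne hb with h1 | h1
      · rw [if_neg (by omega), if_neg (by omega)]
        unfold Lay.swap
        congr 1
        ring
      · rw [if_pos (by omega), if_pos (by omega)]
        unfold Lay.swap
        congr 1
        ring
    rw [e]
    have hN := h.hN
    have hr := h.run hy (k := k + 1) (by omega) (by omega)
    have hnd := h.nd (k + 1) (by omega)
    have ht : 1 ≤ topN N b (k + 1) := by
      have h6 := h.last2
      unfold topN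
      by_cases h5 : k + 1 = N
      · rw [if_pos (Or.inr h5), h5]
        omega
      · rw [if_neg (by omega)]
        omega
    have hp' : (St b y (k + 1)).1 ≠ 0 := hr.p0
    have hq' : Fk b y (k + 1) 0 ≠ 0 := hr.F0 0 (by omega)
    have hsg := hr.sg 0 (by omega)
    have hq : (St b y k).1 ≠ 0 := hq'
    have hF : Fk b y k (m + 1) ≠ 0 := by rw [← s1]; exact hp'
    have hsum : (St b y k).1 ^ 2 + Fk b y k (m + 1) ^ 2 ≠ 0 := by
      intro h0
      have h1 : sgm ((St b y (k + 1)).1 ^ 2) (U (k + 1) 0) ≠ 0 := by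
        unfold sgm
        have hu1 : 1 - U (k + 1) 0 ≠ 0 := fun h => hnd.1 0 (by omega) (by linear_combination -h)
        exact div_ne_zero (neg_ne_zero.2 (mul_ne_zero (pow_ne_zero 2 hp') (hnd.2 0 (by omega))))
          (pow_ne_zero 2 hu1)
      apply h1
      rw [hsg, s1, show Fk b y (k + 1) 0 = (St b y k).1 from rfl]
      field_simp
      linear_combination h0
    have hM : Fk b y k m * Fk b y k (m + 2) = (St b y k).1 ^ 2 + Fk b y k (m + 1) ^ 2 := by
      have hMk : Mkf (St b y k).1 (St b y k).2.1 (St b y k).2.2 := by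
        rcases Nat.eq_zero_or_pos k with rfl | hk0
        · show Complex.I * y * (y * 0 - Complex.I * y) = y ^ 2 + 0 ^ 2
          linear_combination (-y ^ 2) * Complex.I_sq
        · exact (h.inv hy k hk0 (by omega)).mkf
      have h3 := hMk.fan m
      have h4 := hMk.fan (m + 1)
      unfold Mkf at h3 h4
      change Fk b y k (m + 1) * ((St b y k).1 * Fk b y k m - Fk b y k (m + 1)) =
        (St b y k).1 ^ 2 + Fk b y k m ^ 2 at h3
      rw [hrec]
      linear_combination h3
    apply RL_swap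
    · unfold LK lay
      rw [hm]
      split_ifs
      · exact hq
      · exact hF
    · unfold LK lay
      rw [hm]
      split_ifs
      · exact hF
      · exact hq
    · unfold LK lay
      rw [hm]
      split_ifs
      · exact hM
      · exact hM.trans (add_comm _ _)
    · unfold LK lay
      rw [hm]
      split_ifs
      · show Fk b y k m * Fk b y k (m + 2) ≠ 0
        rw [hM]
        exact hsum
      · show Fk b y k m * Fk b y k (m + 2) ≠ 0
        rw [hM]
        exact hsum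

/-- the constants of the turning points -/
noncomputable def tc (b : ℕ → ℤ) (j : ℕ) : ℂ := if b j * b (j + 1) < 0 then 0 else Real.pi ^ 2 / 2

lemma HS_list (h : GlueN N b Y U) (hy : (1 - U 0 1) * (1 - (U 0 0)⁻¹) = y ^ 2) :
    ∀ n k, 1 ≤ k → k + n = N → Cq (∑ i ∈ range (n + 1), HS N b y (k + i))
      (RKc b y k 0 + rsum (LS' b y 1 k n) + ∑ j ∈ range n, tc b (k + j)) := by
  intro n
  induction n with
  | zero =>
    intro k hk hn
    rw [add_zero] at hn
    subst hn
    have h2 := h.last2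
    rw [sum_range_one, sum_range_zero, add_zero, add_zero, LS_zero, rsum_run]
    unfold HS nlN
    rw [if_pos (Or.inr rfl), if_pos (Or.inr rfl)]
    obtain ⟨m, hm⟩ : ∃ m, (b k).natAbs = m + 2 := ⟨(b k).natAbs - 2, by omega⟩
    rw [hm, Nat.add_sub_cancel, show m + 2 - 1 - 1 = m by omega]
    rcases m with _ | m
    · simpa using Cq.refl (RKc b y k 0)
    · rw [tele_c, sum_range_succ _ m, RK_eq b y hk m]
      have e : ∑ l ∈ range m, 2 * RKc b y k (l + 1) = ∑ l ∈ range m, 2 * RL (LK b y k (1 + l)) :=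
        sum_congr rfl fun l _ => by rw [RK_eq b y hk l, add_comm 1 l]
      rw [e, add_comm 1 m]
      refine ⟨0, ?_⟩
      push_cast
      ring
  | succ n ih =>
    intro k hk hn
    have h2 := ih (k + 1) (by omega) (by omega)
    have h3 := turn_halves h hy (k := k) (by omega)
    have hb := h.b0 k (by omega)
    obtain ⟨m, hm⟩ : ∃ m, (b k).natAbs = m + 1 := ⟨(b k).natAbs - 1, by omega⟩
    have h1 : HS N b y k = RKc b y k 0 + ∑ l ∈ range m, 2 * RL (LK b y k (1 + l)) +
        RL (LK b y k (b k).natAbs) := by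
      unfold HS nlN
      rw [if_neg (by omega), if_neg (by omega), hm, tele_c, RK_eq b y hk m, add_zero]
      have e : ∑ l ∈ range m, 2 * RKc b y k (l + 1) = ∑ l ∈ range m, 2 * RL (LK b y k (1 + l)) :=
        sum_congr rfl fun l _ => by rw [RK_eq b y hk l, add_comm 1 l]
      rw [e]
    rw [sum_range_succ', add_zero, LS_succ, rsum_append, rsum_append, rsum_run, rsum_if, hm,
      Nat.add_sub_cancel, sum_range_succ' (fun j => tc b (k + j)), add_zero]
    have e1 : ∑ i ∈ range (n + 1), HS N b y (k + (i + 1)) = ∑ i ∈ range (n + 1), HS N b y (k + 1 + i) :=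
      sum_congr rfl fun i _ => by rw [show k + (i + 1) = k + 1 + i by ring]
    have e2 : ∑ j ∈ range n, tc b (k + (j + 1)) = ∑ j ∈ range n, tc b (k + 1 + j) :=
      sum_congr rfl fun i _ => by rw [show k + (i + 1) = k + 1 + i by ring]
    rw [e1, e2, h1, ← hm]
    obtain ⟨u, hu⟩ := h2
    obtain ⟨v, hv⟩ := h3
    refine ⟨u + v, ?_⟩
    have e3 : tc b k = if b k * b (k + 1) < 0 then 0 else (Real.pi : ℂ) ^ 2 / 2 := rfl
    rw [e3]
    push_cast
    linear_combination hu + hv

/-- The sum over the halves is the sum over the layers up to the turning points between digits of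
equal signs. -/
theorem HS_sum (h : GlueN N b Y U) (hy : (1 - U 0 1) * (1 - (U 0 0)⁻¹) = y ^ 2) :
    Cq (∑ k ∈ range (N + 1), HS N b y k) (rsum (LS' b y 2 0 N) +
      Real.pi ^ 2 / 2 * (((range N).filter fun j => ¬ b j * b (j + 1) < 0).card : ℂ)) := by
  obtain ⟨n, rfl⟩ : ∃ n, N = n + 1 := ⟨N - 1, by have := h.hN; omega⟩
  have hc : (Real.pi : ℂ) ^ 2 / 2 *
      (((range (n + 1)).filter fun j => ¬ b j * b (j + 1) < 0).card : ℂ) =
      ∑ j ∈ range (n + 1), tc b j := by
    rw [card_filter, Nat.cast_sum, mul_sum]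
    refine sum_congr rfl fun j _ => ?_
    unfold tc
    by_cases hs : b j * b (j + 1) < 0
    · rw [if_neg (not_not.2 hs), if_pos hs]
      simp
    · rw [if_pos hs, if_neg hs]
      simp
  have h2 := HS_list h hy n 1 le_rfl (by omega)
  have h3 := turn_halves h hy (k := 0) (by omega)
  have hf := h.first2
  obtain ⟨m, hm⟩ : ∃ m, (b 0).natAbs = m + 2 := ⟨(b 0).natAbs - 2, by omega⟩
  have h1 : HS (n + 1) b y 0 = ∑ l ∈ range m, 2 * RL (LK b y 0 (2 + l)) +
      RL (LK b y 0 (b 0).natAbs) := by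
    unfold HS nlN
    rw [if_pos (Or.inl rfl), if_pos (Or.inl rfl), hm, Nat.add_sub_cancel, RK_first b y (by omega), hm,
      show m + 2 - m = 2 by omega]
    rcases m with _ | m
    · simp
    · rw [tele_c, RK_first b y (by omega), RK_first b y (by omega), hm, Nat.sub_zero,
        show m + 1 + 2 - (m + 1) = 2 by omega]
      have e : ∑ l ∈ range m, 2 * RKc b y 0 (l + 1) = ∑ l ∈ range m, 2 * RL (LK b y 0 (2 + (l + 1))) := by
        rw [← sum_range_reflect]
        refine sum_congr rfl fun l hl => ?_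
        rw [mem_range] at hl
        rw [RK_first b y (by omega), hm]
        congr 3
        omega
      rw [e, sum_range_succ' _ m]
      ring
  rw [hc, LS_succ, rsum_append, rsum_append, rsum_run, rsum_if,
    sum_range_succ' (fun k => HS (n + 1) b y k) (n + 1), sum_range_succ' (fun j => tc b j) n, h1]
  have e1 : ∑ i ∈ range (n + 1), HS (n + 1) b y (i + 1) = ∑ i ∈ range (n + 1), HS (n + 1) b y (1 + i) :=
    sum_congr rfl fun i _ => by rw [add_comm i 1]
  have e2 : ∑ j ∈ range n, tc b (j + 1) = ∑ j ∈ range n, tc b (1 + j) :=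
    sum_congr rfl fun i _ => by rw [add_comm i 1]
  rw [e1, e2, show (b 0).natAbs - 2 = m by omega]
  obtain ⟨u, hu⟩ := h2
  obtain ⟨v, hv⟩ := h3
  refine ⟨u + v, ?_⟩
  have e3 : tc b 0 = if b 0 * b (0 + 1) < 0 then 0 else (Real.pi : ℂ) ^ 2 / 2 := rfl
  rw [e3]
  push_cast
  simp only [zero_add] at *
  linear_combination hu + hv

end Pool.Agent.Work.MP_b30479_gtS.G2

end

section

/-!
# The complexified volume: the fan and the fixed points of its translation

`Z = log z`, `p = z + 1 / z`, `z q - q' = p e^{B}`.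
-/

namespace Pool.Agent.Work.MP_b30479_gtS.G2

open Finset VOL

/-- a fan with `z`, `p = z + 1 / z` -/
structure RFan (P Z B : ℂ) (Q : ℕ → ℂ) (b : ℕ) : Prop where
  fan : Fan P Q b
  pz : Complex.exp P = Complex.exp Z + Complex.exp (-Z)
  base : Complex.exp (Q 0 + Z) = Complex.exp (Q 1) + Complex.exp (P + B)

variable {P Z B : ℂ} {Q : ℕ → ℂ} {b : ℕ}

lemma RFan.e1 (F : RFan P Z B Q b) {k : ℕ} (hk : k ≤ b + 1) :
    Complex.exp (Q k + Z) = Complex.exp (Q (k + 1)) + Complex.exp (P + B - k * Z) := by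
  induction k with
  | zero => simpa using F.base
  | succ k ih =>
    have h := ih (by omega)
    have hl := F.fan.lin k (by omega)
    have hp := F.pz
    have e : Complex.exp (P + B - (k + 1 : ℕ) * Z) =
        Complex.exp (P + B - k * Z) * Complex.exp (-Z) := by
      rw [← Complex.exp_add]; congr 1; push_cast; ring
    have hz : Complex.exp Z * Complex.exp (-Z) = 1 := by
      rw [← Complex.exp_add, add_neg_cancel, Complex.exp_zero]
    rw [e, Complex.exp_add (Q (k + 1)) Z]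
    rw [Complex.exp_add (Q k) Z] at h
    rw [Complex.exp_add P (Q (k + 1)), hp] at hl
    linear_combination hl + Complex.exp (-Z) * h - Complex.exp (Q k) * hz

/-- `q² + q'² - p q q' = - p²` -/
lemma Fan.quad (F : Fan P Q b) {k : ℕ} (hk : k ≤ b + 1) :
    Complex.exp P * Complex.exp (Q k) * Complex.exp (Q (k + 1)) =
      Complex.exp (Q k) ^ 2 + Complex.exp (Q (k + 1)) ^ 2 + Complex.exp P ^ 2 := by
  rcases Nat.lt_or_ge b k with h | h
  · have hkb : k = b + 1 := by omega
    subst hkb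
    have h1 := F.lin b le_rfl
    have h2 := F.sqr b le_rfl
    simp only [Complex.exp_add, exp_two] at h1 h2
    rw [show b + 1 + 1 = b + 2 by ring]
    linear_combination h2 + Complex.exp (Q (b + 2)) * h1
  · have h1 := F.lin k h
    have h2 := F.sqr k h
    simp only [Complex.exp_add, exp_two] at h1 h2
    linear_combination h2 + Complex.exp (Q k) * h1

lemma RFan.e2 (F : RFan P Z B Q b) {k : ℕ} (hk : k ≤ b + 1) :
    Complex.exp (Q (k + 1) + B - k * Z) =
      Complex.exp P + Complex.exp (Q k + B - (k + 1) * Z) := by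
  have h := F.e1 hk
  have hq := F.fan.quad hk
  have hp := F.pz
  have hz : Complex.exp Z * Complex.exp (-Z) = 1 := by
    rw [← Complex.exp_add, add_neg_cancel, Complex.exp_zero]
  have e0 : Complex.exp (P + B - k * Z) = Complex.exp P * Complex.exp (B - k * Z) := by
    rw [← Complex.exp_add]; congr 1; ring
  have e1 : Complex.exp (Q (k + 1) + B - k * Z) = Complex.exp (Q (k + 1)) * Complex.exp (B - k * Z) := by
    rw [← Complex.exp_add]; congr 1; ring
  have e2 : Complex.exp (Q k + B - (k + 1) * Z) =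
      Complex.exp (Q k) * Complex.exp (B - k * Z) * Complex.exp (-Z) := by
    rw [← Complex.exp_add, ← Complex.exp_add]; congr 1; ring
  rw [e1, e2]
  rw [e0, Complex.exp_add (Q k) Z] at h
  apply mul_left_cancel₀ (Complex.exp_ne_zero P)
  generalize Complex.exp (B - k * Z) = E at *
  generalize Complex.exp (Q k) = q at *
  generalize Complex.exp (Q (k + 1)) = q' at *
  generalize Complex.exp P = p at *
  generalize Complex.exp Z = z at *
  generalize Complex.exp (-Z) = y at *
  have hE : p * E = q * z - q' := by rw [h]; ring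
  linear_combination (q' - q * y) * hE + hq - q * q' * hp - q ^ 2 * hz

/-- the value at `q' / (z q)` -/
noncomputable def cnn (P Z B : ℂ) (Q : ℕ → ℂ) (k : ℕ) : ℂ :=
  rl (Q (k + 1) - Q k - Z) (P + B - (k + 1) * Z - Q k)

/-- the value at `q / (z q')`, exchanged -/
noncomputable def cmm (P Z B : ℂ) (Q : ℕ → ℂ) (k : ℕ) : ℂ :=
  rl (P - Q (k + 1) - B + k * Z) (Q k - Q (k + 1) - Z)

/-- the sum of the two -/
noncomputable def cNN (P Z B : ℂ) (Q : ℕ → ℂ) (k : ℕ) : ℂ := cnn P Z B Q k + cmm P Z B Q k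

/-- the first face of a hinge -/
noncomputable def cmu (P Z B : ℂ) (Q : ℕ → ℂ) (l : ℕ) : ℂ :=
  rl (Q (l + 2) - Q l - 2 * Z) (2 * P + B - (l + 2) * Z - Q l)

/-- the second face of a hinge -/
noncomputable def cmv (P Z B : ℂ) (Q : ℕ → ℂ) (l : ℕ) : ℂ :=
  rl (Q l - Q (l + 2) - 2 * Z) (2 * P - B + l * Z - Q (l + 2))

lemma nn_one (F : RFan P Z B Q b) {k : ℕ} (hk : k ≤ b + 1) :
    Complex.exp (Q (k + 1) - Q k - Z) + Complex.exp (P + B - (k + 1) * Z - Q k) = 1 := by
  have h := exp_one_of (F.e1 hk).symm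
  rwa [show Q (k + 1) - (Q k + Z) = Q (k + 1) - Q k - Z by ring,
    show P + B - k * Z - (Q k + Z) = P + B - (k + 1) * Z - Q k by ring] at h

lemma mm_one (F : RFan P Z B Q b) {k : ℕ} (hk : k ≤ b + 1) :
    Complex.exp (P - Q (k + 1) - B + k * Z) + Complex.exp (Q k - Q (k + 1) - Z) = 1 := by
  have h := exp_one_of (F.e2 hk).symm
  rwa [show P - (Q (k + 1) + B - k * Z) = P - Q (k + 1) - B + k * Z by ring,
    show Q k + B - (k + 1) * Z - (Q (k + 1) + B - k * Z) = Q k - Q (k + 1) - Z by ring] at h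

lemma mu_one (F : RFan P Z B Q b) {l : ℕ} (hl : l ≤ b) :
    Complex.exp (Q (l + 2) - Q l - 2 * Z) + Complex.exp (2 * P + B - (l + 2) * Z - Q l) = 1 := by
  have a0 := F.e1 (k := l) (by omega)
  have a1 := F.e1 (k := l + 1) (by omega)
  rw [show l + 1 + 1 = l + 2 by ring] at a1
  have hp := F.pz
  have hz : Complex.exp Z * Complex.exp (-Z) = 1 := by
    rw [← Complex.exp_add, add_neg_cancel, Complex.exp_zero]
  have key : Complex.exp (Q (l + 2)) + Complex.exp (2 * P + B - l * Z) = Complex.exp (Q l + 2 * Z) := by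
    have e1 : Complex.exp (2 * P + B - l * Z) = Complex.exp P * Complex.exp (P + B - l * Z) := by
      rw [← Complex.exp_add]; ring_nf
    have e2 : Complex.exp (P + B - (l + 1 : ℕ) * Z) = Complex.exp (P + B - l * Z) * Complex.exp (-Z) := by
      rw [← Complex.exp_add]; congr 1; push_cast; ring
    have e3 : Complex.exp (Q l + 2 * Z) = Complex.exp (Q l + Z) * Complex.exp Z := by
      rw [← Complex.exp_add]; ring_nf
    rw [e2, Complex.exp_add (Q (l + 1)) Z] at a1
    rw [e1, e3, a0, hp]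
    linear_combination -a1
  have h := exp_one_of key
  rwa [show Q (l + 2) - (Q l + 2 * Z) = Q (l + 2) - Q l - 2 * Z by ring,
    show 2 * P + B - l * Z - (Q l + 2 * Z) = 2 * P + B - (l + 2) * Z - Q l by ring] at h

lemma mv_one (F : RFan P Z B Q b) {l : ℕ} (hl : l ≤ b) :
    Complex.exp (Q l - Q (l + 2) - 2 * Z) + Complex.exp (2 * P - B + l * Z - Q (l + 2)) = 1 := by
  have c0 := F.e2 (k := l) (by omega)
  have c1 := F.e2 (k := l + 1) (by omega)
  rw [show l + 1 + 1 = l + 2 by ring] at c1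
  have hp := F.pz
  have hz : Complex.exp Z * Complex.exp (-Z) = 1 := by
    rw [← Complex.exp_add, add_neg_cancel, Complex.exp_zero]
  have key : Complex.exp (Q l - 2 * Z) + Complex.exp (2 * P - B + l * Z) = Complex.exp (Q (l + 2)) := by
    have e1 : Complex.exp (Q (l + 2)) = Complex.exp (Q (l + 2) + B - (l + 1 : ℕ) * Z) *
        (Complex.exp (-B + l * Z) * Complex.exp Z) := by
      rw [← Complex.exp_add, ← Complex.exp_add]; congr 1; push_cast; ring
    have e2 : Complex.exp (Q (l + 1) + B - ((l + 1 : ℕ) + 1) * Z) =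
        Complex.exp (Q (l + 1) + B - l * Z) * (Complex.exp (-Z) * Complex.exp (-Z)) := by
      rw [← Complex.exp_add, ← Complex.exp_add]; congr 1; push_cast; ring
    have e3 : Complex.exp (2 * P - B + l * Z) = Complex.exp P * Complex.exp P * Complex.exp (-B + l * Z) := by
      rw [← Complex.exp_add, ← Complex.exp_add]; congr 1; ring
    have e4 : Complex.exp (Q l - 2 * Z) = Complex.exp (Q l + B - (l + 1) * Z) *
        Complex.exp (-B + l * Z) * Complex.exp (-Z) := by
      rw [← Complex.exp_add, ← Complex.exp_add]; congr 1; ring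
    rw [e1, c1, e2, c0, e3, e4]
    generalize Complex.exp (Q l + B - (l + 1) * Z) = q at *
    generalize Complex.exp (-B + l * Z) = g at *
    generalize Complex.exp P = p at *
    generalize Complex.exp Z = z at *
    generalize Complex.exp (-Z) = y at *
    linear_combination p * g * hp - (p * g * y + q * g * y) * hz
  have h := exp_one_of key
  rwa [show Q l - 2 * Z - Q (l + 2) = Q l - Q (l + 2) - 2 * Z by ring] at h

/-- half a layer telescopes -/
theorem hly_NN (F : RFan P Z B Q b) {l : ℕ} (hl : l ≤ b) :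
    Cg (hly P Q l) (cNN P Z B Q l - cNN P Z B Q (l + 1)) := by
  have s := F.fan.sqr l hl
  have a0 := F.e1 (k := l) (by omega)
  have a1 := F.e1 (k := l + 1) (by omega)
  have c0 := F.e2 (k := l) (by omega)
  have c1 := F.e2 (k := l + 1) (by omega)
  rw [show l + 1 + 1 = l + 2 by ring] at a1 c1
  obtain ⟨k, hk⟩ := five P (Q l) (Q (l + 1)) 0 (Q (l + 1)) (Q (l + 2)) Z P (B - l * Z)
    (B - (l + 1) * Z)
    (by
      have e0 : Complex.exp (Q (l + 2) + (B - l * Z)) =
          Complex.exp (Q (l + 2) + B - (l + 1 : ℕ) * Z) * Complex.exp Z := by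
        rw [← Complex.exp_add]; congr 1; push_cast; ring
      have e3 : Complex.exp (Z + P) = Complex.exp P * Complex.exp Z := by
        rw [add_comm, Complex.exp_add]
      have e4 : Complex.exp (Q (l + 1) + (B - (l + 1) * Z)) =
          Complex.exp (Q (l + 1) + B - ((l + 1 : ℕ) + 1) * Z) * Complex.exp Z := by
        rw [← Complex.exp_add]; congr 1; push_cast; ring
      rw [e0, c1, e3, e4]
      ring)
    (by
      rw [zero_add, show Q (l + 1) + (B - l * Z) = Q (l + 1) + B - l * Z by ring, c0]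
      ring_nf)
    (by
      rw [zero_add, a1]
      push_cast
      ring_nf)
    (by
      rw [zero_add, a0]
      ring_nf)
    (by rw [s, ← two_mul, ← two_mul])
  refine ⟨k, ?_⟩
  rw [← hk]
  unfold hly cNN cnn cmm
  rw [show l + 1 + 1 = l + 2 by ring]
  push_cast
  ring_nf

theorem rs_NN (F : RFan P Z B Q b) {c : ℕ} (hc : c ≤ b) :
    Cg (rs c P Q) (cNN P Z B Q 0 + cNN P Z B Q 1 - cNN P Z B Q c - cNN P Z B Q (c + 1)) := by
  induction c with
  | zero => simpa [rs] using Cg.refl 0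
  | succ c ih =>
    obtain ⟨k, hk⟩ := ih (by omega)
    obtain ⟨l, hl⟩ := hly_NN F (l := c) (by omega)
    obtain ⟨m, hm⟩ := hly_NN F (l := c + 1) (by omega)
    refine ⟨k + l + m, ?_⟩
    have e : rs (c + 1) P Q = rs c P Q + (hly P Q c + hly P Q (c + 1)) := by
      unfold rs
      rw [sum_range_succ]
    rw [e]
    push_cast
    linear_combination hk + hl + hm

/-- the constant face -/
noncomputable def kk (P Z : ℂ) : ℂ := rl (Z - P) (-Z - P)

theorem nn_add (F : RFan P Z B Q b) {l : ℕ} (hl : l ≤ b) :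
    Cg (cnn P Z B Q l + cnn P Z B Q (l + 1))
      (cmu P Z B Q l - lamc P Q l - kk P Z - Real.pi ^ 2 / 6) := by
  have s := F.fan.lin l hl
  have a0 := F.e1 (k := l) (by omega)
  have a1 := F.e1 (k := l + 1) (by omega)
  rw [show l + 1 + 1 = l + 2 by ring] at a1
  have hp := F.pz
  have hz : Complex.exp Z * Complex.exp (-Z) = 1 := by
    rw [← Complex.exp_add, add_neg_cancel, Complex.exp_zero]
  have f1 : Complex.exp (Q (l + 2) - Z) + Complex.exp (P + B - (l + 2) * Z) = Complex.exp (Q (l + 1)) := by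
    have e0 : Complex.exp (Q (l + 2) - Z) = Complex.exp (Q (l + 2)) * Complex.exp (-Z) := by
      rw [← Complex.exp_add]; ring_nf
    have e1 : Complex.exp (P + B - (l + 2) * Z) = Complex.exp (P + B - (l + 1 : ℕ) * Z) * Complex.exp (-Z) := by
      rw [← Complex.exp_add]; congr 1; push_cast; ring
    rw [Complex.exp_add] at a1
    rw [e0, e1]
    linear_combination -Complex.exp (-Z) * a1 + Complex.exp (Q (l + 1)) * hz
  have f2 : Complex.exp (Z + (P + B - (l + 2) * Z)) + Complex.exp (-Z + Q (l + 1)) = Complex.exp (Q l) := by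
    have e0 : Complex.exp (-Z + Q (l + 1)) = Complex.exp (Q (l + 1)) * Complex.exp (-Z) := by
      rw [← Complex.exp_add]; ring_nf
    have e1 : Complex.exp (Z + (P + B - (l + 2) * Z)) = Complex.exp (P + B - l * Z) * Complex.exp (-Z) := by
      rw [← Complex.exp_add]; congr 1; ring
    rw [Complex.exp_add] at a0
    rw [e0, e1]
    linear_combination -Complex.exp (-Z) * a0 + Complex.exp (Q l) * hz
  have f3 : Complex.exp (P + (P + B - (l + 2) * Z)) + Complex.exp (-Z + (Q (l + 2) - Z)) =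
      Complex.exp (Q l) := by
    have e1 : Complex.exp (P + (P + B - (l + 2) * Z)) = Complex.exp P * Complex.exp (P + B - (l + 2) * Z) :=
      Complex.exp_add _ _
    have e2 : Complex.exp (-Z + (Q (l + 2) - Z)) = Complex.exp (-Z) * Complex.exp (Q (l + 2) - Z) :=
      Complex.exp_add _ _
    have e3 : Complex.exp (Z + (P + B - (l + 2) * Z)) = Complex.exp Z * Complex.exp (P + B - (l + 2) * Z) :=
      Complex.exp_add _ _
    rw [e3, Complex.exp_add] at f2
    rw [e1, e2, hp]
    linear_combination f2 + Complex.exp (-Z) * f1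
  obtain ⟨k, hk⟩ := five (-Z) (Q l) P Z (P + B - (l + 2) * Z) 0 0 (Q (l + 2) - Z) (Q (l + 1)) 0
    (by rw [zero_add, zero_add, add_zero, f1])
    (by rw [add_zero, show Z + (Q (l + 2) - Z) = Q (l + 2) by ring, s, add_comm])
    (by rw [add_zero, add_zero, add_zero, hp])
    (by rw [add_zero, f2])
    (by rw [add_zero, f3])
  obtain ⟨k1, h1⟩ := rl_symm (lam_one F.fan (l := l) hl)
  obtain ⟨k2, h2⟩ := rl_symm (nn_one F (k := l) (by omega))
  obtain ⟨k3, h3⟩ := rl_symm (α := Q (l + 2) - Q l - 2 * Z) (β := 2 * P + B - (l + 2) * Z - Q l) (by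
    have h := exp_one_of f3
    rw [add_comm, show -Z + (Q (l + 2) - Z) - Q l = Q (l + 2) - Q l - 2 * Z by ring,
      show P + (P + B - (l + 2) * Z) - Q l = 2 * P + B - (l + 2) * Z - Q l by ring] at h
    exact h)
  refine ⟨k + k1 + k2 - k3, ?_⟩
  unfold cnn cmu lamc kk
  rw [show l + 1 + 1 = l + 2 by ring]
  rw [show (0 : ℂ) + (Q (l + 2) - Z) - 0 - Q (l + 1) = Q (l + 2) - Q (l + 1) - Z by ring,
    show P + B - (l + 2) * Z + 0 - 0 - Q (l + 1) = P + B - (((l + 1 : ℕ) : ℂ) + 1) * Z - Q (l + 1) by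
      push_cast; ring,
    show Z + (Q (l + 2) - Z) - P - Q (l + 1) = Q (l + 2) - P - Q (l + 1) by ring,
    show Q l + 0 - P - Q (l + 1) = Q l - P - Q (l + 1) by ring,
    show Z + 0 - P - 0 = Z - P by ring, show -Z + 0 - P - 0 = -Z - P by ring,
    show Z + (P + B - (l + 2) * Z) - Q l - 0 = P + B - (l + 1) * Z - Q l by ring,
    show -Z + Q (l + 1) - Q l - 0 = Q (l + 1) - Q l - Z by ring,
    show P + (P + B - (l + 2) * Z) - Q l - 0 = 2 * P + B - (l + 2) * Z - Q l by ring,
    show -Z + (Q (l + 2) - Z) - Q l - 0 = Q (l + 2) - Q l - 2 * Z by ring] at hk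
  push_cast at hk ⊢
  linear_combination hk + h1 + h2 - h3

theorem mm_add (F : RFan P Z B Q b) {l : ℕ} (hl : l ≤ b) :
    Cg (cmm P Z B Q l + cmm P Z B Q (l + 1))
      (-cmv P Z B Q l - lamc P Q l + kk P Z - Real.pi ^ 2 / 3) := by
  have s := F.fan.lin l hl
  have c0 := F.e2 (k := l) (by omega)
  have c1 := F.e2 (k := l + 1) (by omega)
  rw [show l + 1 + 1 = l + 2 by ring] at c1
  have hp := F.pz
  have hz : Complex.exp Z * Complex.exp (-Z) = 1 := by
    rw [← Complex.exp_add, add_neg_cancel, Complex.exp_zero]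
  -- `q (l + 1)` from `q l`
  have f1 : Complex.exp (Q l - Z) + Complex.exp (P - B + l * Z) = Complex.exp (Q (l + 1)) := by
    have e0 : Complex.exp (Q l - Z) = Complex.exp (Q l + B - (l + 1) * Z) * Complex.exp (-B + l * Z) := by
      rw [← Complex.exp_add]; ring_nf
    have e1 : Complex.exp (P - B + l * Z) = Complex.exp P * Complex.exp (-B + l * Z) := by
      rw [← Complex.exp_add]; ring_nf
    have e2 : Complex.exp (Q (l + 1)) = Complex.exp (Q (l + 1) + B - l * Z) * Complex.exp (-B + l * Z) := by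
      rw [← Complex.exp_add]; ring_nf
    rw [e0, e1, e2, c0]
    ring
  have f2 : Complex.exp (Z + (P - B + l * Z)) + Complex.exp (-Z + Q (l + 1)) = Complex.exp (Q (l + 2)) := by
    have e0 : Complex.exp (-Z + Q (l + 1)) = Complex.exp (Q (l + 1) + B - ((l + 1 : ℕ) + 1) * Z) *
        Complex.exp (-B + (l + 1) * Z) := by
      rw [← Complex.exp_add]; congr 1; push_cast; ring
    have e1 : Complex.exp (Z + (P - B + l * Z)) = Complex.exp P * Complex.exp (-B + (l + 1) * Z) := by
      rw [← Complex.exp_add]; ring_nf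
    have e2 : Complex.exp (Q (l + 2)) = Complex.exp (Q (l + 2) + B - (l + 1 : ℕ) * Z) *
        Complex.exp (-B + (l + 1) * Z) := by
      rw [← Complex.exp_add]; congr 1; push_cast; ring
    rw [e0, e1, e2, c1]
    ring
  have f3 : Complex.exp (P + (P - B + l * Z)) + Complex.exp (-Z + (Q l - Z)) =
      Complex.exp (Q (l + 2)) := by
    have e1 : Complex.exp (P + (P - B + l * Z)) = Complex.exp P * Complex.exp (P - B + l * Z) :=
      Complex.exp_add _ _
    have e2 : Complex.exp (-Z + (Q l - Z)) = Complex.exp (-Z) * Complex.exp (Q l - Z) :=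
      Complex.exp_add _ _
    have e3 : Complex.exp (Z + (P - B + l * Z)) = Complex.exp Z * Complex.exp (P - B + l * Z) :=
      Complex.exp_add _ _
    have e4 : Complex.exp (-Z + Q (l + 1)) = Complex.exp (-Z) * Complex.exp (Q (l + 1)) :=
      Complex.exp_add _ _
    rw [e3, e4] at f2
    rw [e1, e2, hp]
    linear_combination f2 + Complex.exp (-Z) * f1
  obtain ⟨k, hk⟩ := five (-Z) (Q (l + 2)) P Z (P - B + l * Z) 0 0 (Q l - Z) (Q (l + 1)) 0
    (by rw [zero_add, zero_add, add_zero, f1])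
    (by rw [add_zero, show Z + (Q l - Z) = Q l by ring, s])
    (by rw [add_zero, add_zero, add_zero, hp])
    (by rw [add_zero, f2])
    (by rw [add_zero, f3])
  obtain ⟨k2, h2⟩ := rl_symm (mm_one F (k := l) (by omega))
  obtain ⟨k3, h3⟩ := rl_symm (α := Q l - Q (l + 2) - 2 * Z) (β := 2 * P - B + l * Z - Q (l + 2)) (by
    have h := exp_one_of f3
    rw [add_comm, show -Z + (Q l - Z) - Q (l + 2) = Q l - Q (l + 2) - 2 * Z by ring,
      show P + (P - B + l * Z) - Q (l + 2) = 2 * P - B + l * Z - Q (l + 2) by ring] at h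
    exact h)
  refine ⟨-k + k2 + k3, ?_⟩
  unfold cmm cmv lamc kk
  rw [show l + 1 + 1 = l + 2 by ring]
  rw [show (0 : ℂ) + (Q l - Z) - 0 - Q (l + 1) = Q l - Q (l + 1) - Z by ring,
    show P - B + l * Z + 0 - 0 - Q (l + 1) = P - Q (l + 1) - B + l * Z by ring,
    show Z + (Q l - Z) - P - Q (l + 1) = Q l - P - Q (l + 1) by ring,
    show Q (l + 2) + 0 - P - Q (l + 1) = Q (l + 2) - P - Q (l + 1) by ring,
    show Z + 0 - P - 0 = Z - P by ring, show -Z + 0 - P - 0 = -Z - P by ring,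
    show Z + (P - B + l * Z) - Q (l + 2) - 0 = P - Q (l + 2) - B + ((l + 1 : ℕ) : ℂ) * Z by
      push_cast; ring,
    show -Z + Q (l + 1) - Q (l + 2) - 0 = Q (l + 1) - Q (l + 2) - Z by ring,
    show P + (P - B + l * Z) - Q (l + 2) - 0 = 2 * P - B + l * Z - Q (l + 2) by ring,
    show -Z + (Q l - Z) - Q (l + 2) - 0 = Q l - Q (l + 2) - 2 * Z by ring] at hk
  push_cast at hk ⊢
  linear_combination -hk + h2 + h3

theorem NN_add (F : RFan P Z B Q b) {l : ℕ} (hl : l ≤ b) :
    Cg (cNN P Z B Q l + cNN P Z B Q (l + 1))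
      (cmu P Z B Q l - cmv P Z B Q l - 2 * lamc P Q l - Real.pi ^ 2 / 2) := by
  obtain ⟨k, hk⟩ := nn_add F hl
  obtain ⟨m, hm⟩ := mm_add F hl
  refine ⟨k + m, ?_⟩
  unfold cNN
  push_cast
  linear_combination hk + hm

end Pool.Agent.Work.MP_b30479_gtS.G2

end

section

/-!
# The complexified volume, twist regions with one, two and three crossings
-/

namespace Pool.Agent.Work.MP_b30479_gtS.G2

open Finset VOL

/-- the contribution of a twist region to `-2πi T - (π²/2) ∑ b` (sum over the rings) -/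
noncomputable def lW (t : Typ) (b : ℤ) (l r : Bool) (x : Fin 3 → ℂ) : ℂ :=
  -(2 * Real.pi * Complex.I * lT t b l r x) -
    if t = .ring then 2 * Real.pi * Complex.I * (Real.pi * Complex.I * b * x 1 ^ 2 +
      2 * Real.pi * Complex.I * x 1) + Real.pi ^ 2 * b / 2 else 0

/-- the contribution of a hinge; it changes its sign with `E` and `D` -/
noncomputable def hng (X E w D : ℂ) : ℂ := X * D / 2 + Real.pi * Complex.I * w * (D - E)

lemma hng_neg (X E w D : ℂ) : hng X (-E) w (-D) = -hng X E w D := by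
  unfold hng
  ring

/-- the formula for an inner twist region -/
def RunCS (t : Typ) (b : ℤ) (x : Fin 3 → ℂ) (P : ℂ) (Q : ℕ → ℂ) : Prop :=
  Cq (sgB b * rs b.natAbs P Q)
    (lW t b true true x +
      hng (sgB b * (Q 2 - Q 0)) (2 * P - 2 * Q 1) (x 0) (ldT t b true true x 0) +
      hng (sgB b * (Q b.natAbs - Q (b.natAbs + 2))) (2 * P - 2 * Q (b.natAbs + 1)) (x 2)
        (ldT t b true true x 2) + Real.pi ^ 2 * b / 2)

/-- twice the layers of a twist region at an end and one half of its hinge -/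
noncomputable def rsE (b : ℕ) (P : ℂ) (Q : ℕ → ℂ) : ℂ :=
  rs (b - 2) P Q + hly P Q (b - 2) + 2 * (Q b - P) * (P - Q (b - 1))

/-- the formula for a twist region at an end, hinge `w` -/
def EndCS (t : Typ) (b : ℤ) (l r : Bool) (x : Fin 3 → ℂ) (w D : ℂ) (P : ℂ) (Q : ℕ → ℂ) : Prop :=
  Cq (sgB b * rsE b.natAbs P Q)
    (lW t b l r x + hng (sgB b * (Q 2 - Q 0)) (2 * P - 2 * Q 1) w D +
      Real.pi ^ 2 * (b / 2 - sgB b / 6))

variable {b : ℤ} {x : Fin 3 → ℂ} {P : ℂ} {Q : ℕ → ℂ}

lemma lT_one : lT .one b true true x = un b * (2 * (x 0 + x 2 - x 0 * x 2)) +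
    Fh (x 0 + x 2) - Fh (x 0) - Fh (x 2) := by
  rw [sub_eq_add_neg _ (Fh (x 2)), sub_eq_add_neg _ (Fh (x 0)), ← Fh_one_sub (x 0), ← Fh_one_sub (x 2)]
  simp [lT, lquad, facs, Fac.form, Fin.sum_univ_three, qq2, rr1]
  ring_nf

/-- the logarithm of a hinge -/
lemma hinge_int {a q q' : ℂ} (h : Complex.exp (a + q) = -Complex.exp q') :
    ∃ k : ℤ, q' = a + q + Real.pi * Complex.I * (2 * k + 1) := by
  have h1 : Complex.exp q' = Complex.exp (a + q + Real.pi * Complex.I) := by
    rw [Complex.exp_add _ (Real.pi * Complex.I), Complex.exp_pi_mul_I, h]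
    ring
  obtain ⟨n, hn⟩ := exp_eq_int h1
  exact ⟨n, by rw [hn]; ring⟩

lemma exp_hinge {a q q' : ℂ} (h : Complex.exp (a + q) = -Complex.exp q') (c : ℂ) :
    Complex.exp (q' - c) = -Complex.exp (a + (q - c)) := by
  rw [← add_sub_assoc, Complex.exp_sub, Complex.exp_sub, h]
  ring

theorem run_one' (hb : b.natAbs = 1) (h0 : x 0 ∈ strip) (h2 : x 2 ∈ strip) (h02 : x 0 + x 2 ∈ strip)
    (F : Fan P Q 1) (hl : Complex.exp (sgB b * (2 * Real.pi * Complex.I * x 0) + Q 0) = -Complex.exp (Q 2))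
    (hr : Complex.exp (sgB b * (2 * Real.pi * Complex.I * x 2) + Q 3) = -Complex.exp (Q 1)) :
    RunCS .one b x P Q := by
  obtain ⟨k1, e1⟩ := rs_ltr F
  have hlam0 := lam_one F (l := 0) (by omega)
  have hlam1 := lam_one F (l := 1) (by omega)
  obtain ⟨k4, e4⟩ := rl_symm hlam1
  obtain ⟨k3, e3⟩ := lam_fs h0 hlam0 (by
    have := exp_hinge hl (P + Q 1)
    rw [sub_add_eq_sub_sub, sub_add_eq_sub_sub] at this
    exact this)
  obtain ⟨k5, e5⟩ := lam_fs h2 (by rw [add_comm]; exact hlam1) (by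
    have := exp_hinge hr (P + Q 2)
    rw [sub_add_eq_sub_sub, sub_add_eq_sub_sub] at this
    exact this)
  obtain ⟨m, hm⟩ := hinge_int hl
  obtain ⟨n, hn⟩ := hinge_int hr
  have hf := fs_one (b := b) h02
  have hL := ltr_one F (l := 0) (by omega)
  have hA : Complex.exp (Q (0 + 1) + Q (0 + 2) - Q 0 - Q (0 + 3)) =
      Complex.exp (sgB b * (2 * Real.pi * Complex.I * (x 0 + x 2))) := by
    have : Q (0 + 1) + Q (0 + 2) - Q 0 - Q (0 + 3) =
        sgB b * (2 * Real.pi * Complex.I * (x 0 + x 2)) + (m + n + 1 : ℤ) * (2 * Real.pi * Complex.I) := by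
      simp only [zero_add]
      rw [hm, hn]; push_cast; ring
    rw [this, Complex.exp_add, Complex.exp_int_mul_two_pi_mul_I, mul_one]
  obtain ⟨k2, e2⟩ := rl_shift' hf hA (by
    have : Complex.exp (3 * P - Q 0 - Q (0 + 3)) = 1 - Complex.exp (Q (0 + 1) + Q (0 + 2) - Q 0 - Q (0 + 3)) := by
      rw [← hL]; ring
    rw [this, hA, ← hf]; ring)
  obtain ⟨k6, e6⟩ := Fh_fs (b := b) h02
  obtain ⟨k7, e7⟩ := Fh_fs (b := b) h0
  obtain ⟨k8, e8⟩ := Fh_fs (b := b) h2
  change ltr P Q 0 - (fs b (x 0 + x 2) + _) = _ at e2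
  change lamc P Q 0 - _ = _ at e3
  change _ - (-lamc P Q 1 - _) = _ at e4
  rw [sum_range_one] at e1
  simp only [zero_add] at *
  unfold RunCS lW hng
  rw [hb, lT_one, if_neg (by decide), ldT_one_0, ldT_one_2, un_sgB]
  simp only [show 1 + 2 = 3 from rfl, show 1 + 1 = 2 from rfl] at *
  unfold Bs at *
  generalize rl (Q 3 - P - Q 2) (Q 1 - P - Q 2) = R at *
  generalize ltr P Q 0 = L0 at *
  generalize lamc P Q 0 = M0 at *
  generalize lamc P Q 1 = M1 at *
  generalize rs 1 P Q = RR at *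
  generalize fs b (x 0 + x 2) = f02 at *
  generalize fs b (x 0) = f0 at *
  generalize fs b (x 2) = f2 at *
  clear F hl hr hlam0 hlam1 hf hL hA
  generalize Q 0 = q0 at *
  generalize Q 1 = q1 at *
  generalize Q 2 = q2 at *
  generalize Q 3 = q3 at *
  subst hm hn
  have hb' : b = 1 ∨ b = -1 := by omega
  rcases hb' with rfl | rfl
  · have hs : sgB 1 = 1 := by simp [sgB]
    rw [hs] at e2 e3 e5 e6 e7 e8 ⊢
    refine ⟨2 * k1 + 2 * k2 + 2 * k4 - k5 - k3 - 1 - k6 + k7 + k8 + (m + n + 1), ?_⟩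
    push_cast
    linear_combination e1 + e2 - e3 + e4 - e5 - e6 + e7 + e8 -
      Real.pi ^ 2 * (m + n + 1) * Complex.I_sq
  · have hs : sgB (-1) = -1 := by simp [sgB]
    rw [hs] at e2 e3 e5 e6 e7 e8 ⊢
    refine ⟨-(2 * k1 + 2 * k2 + 2 * k4 - k5 - k3 - 1) - k6 + k7 + k8 + (m + n + 1), ?_⟩
    push_cast
    linear_combination -e1 - e2 + e3 - e4 + e5 - e6 + e7 + e8 -
      Real.pi ^ 2 * (m + n + 1) * Complex.I_sq

lemma lT_two : lT .two b true true x = un b * ((x 0 - x 2) ^ 2 + x 0 + x 2) +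
    Fh (x 0 + x 2) - 2 * Fh (x 0) - 2 * Fh (x 2) := by
  rw [show un b * ((x 0 - x 2) ^ 2 + x 0 + x 2) + Fh (x 0 + x 2) - 2 * Fh (x 0) - 2 * Fh (x 2) =
    un b * ((x 0 - x 2) ^ 2 + x 0 + x 2) + (Fh (x 0 + x 2) + 2 * (-Fh (x 0)) + 2 * (-Fh (x 2))) by ring,
    ← Fh_one_sub (x 0), ← Fh_one_sub (x 2)]
  simp [lT, lquad, facs, hL, hR, Fac.form, Fin.sum_univ_three, qq2, rr1]
  ring_nf

theorem run_two' (hb : b.natAbs = 2) (h0 : x 0 ∈ strip) (h2 : x 2 ∈ strip) (h02 : x 0 + x 2 ∈ strip)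
    (F : Fan P Q 2) (hl : Complex.exp (sgB b * (2 * Real.pi * Complex.I * x 0) + Q 0) = -Complex.exp (Q 2))
    (hr : Complex.exp (sgB b * (2 * Real.pi * Complex.I * x 2) + Q 4) = -Complex.exp (Q 2)) :
    RunCS .two b x P Q := by
  obtain ⟨k1, e1⟩ := rs_ltr F
  obtain ⟨k9, e9⟩ := ltr_add F (l := 0) (by omega)
  have hlam0 := lam_one F (l := 0) (by omega)
  have hlam1 := lam_one F (l := 2) (by omega)
  obtain ⟨k4, e4⟩ := rl_symm hlam1
  obtain ⟨k3, e3⟩ := lam_fs h0 hlam0 (by
    have := exp_hinge hl (P + Q 1)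
    rw [sub_add_eq_sub_sub, sub_add_eq_sub_sub] at this
    exact this)
  obtain ⟨k5, e5⟩ := lam_fs h2 (by rw [add_comm]; exact hlam1) (by
    have := exp_hinge hr (P + Q 3)
    rw [sub_add_eq_sub_sub, sub_add_eq_sub_sub] at this
    exact this)
  obtain ⟨m, hm⟩ := hinge_int hl
  obtain ⟨n, hn⟩ := hinge_int hr
  have hf := fs_one (b := b) h02
  have hL := ltt_one F (l := 0) (by omega)
  have hn' : Q 4 = Q 2 - sgB b * (2 * Real.pi * Complex.I * x 2) - Real.pi * Complex.I * (2 * n + 1) := by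
    rw [hn]; ring
  have hA : Complex.exp (2 * Q (0 + 2) - Q 0 - Q (0 + 4)) =
      Complex.exp (sgB b * (2 * Real.pi * Complex.I * (x 0 + x 2))) := by
    have : 2 * Q (0 + 2) - Q 0 - Q (0 + 4) =
        sgB b * (2 * Real.pi * Complex.I * (x 0 + x 2)) + (m + n + 1 : ℤ) * (2 * Real.pi * Complex.I) := by
      simp only [zero_add]
      rw [hn', hm]; push_cast; ring
    rw [this, Complex.exp_add, Complex.exp_int_mul_two_pi_mul_I, mul_one]
  obtain ⟨k2, e2⟩ := rl_shift' hf hA (by
    have : Complex.exp (4 * P - Q 0 - Q (0 + 4)) = 1 - Complex.exp (2 * Q (0 + 2) - Q 0 - Q (0 + 4)) := by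
      rw [← hL]; ring
    rw [this, hA, ← hf]; ring)
  obtain ⟨k6, e6⟩ := Fh_fs (b := b) h02
  obtain ⟨k7, e7⟩ := Fh_fs (b := b) h0
  obtain ⟨k8, e8⟩ := Fh_fs (b := b) h2
  change ltt P Q 0 - (fs b (x 0 + x 2) + _) = _ at e2
  change lamc P Q 0 - _ = _ at e3
  change _ - (-lamc P Q 2 - _) = _ at e4
  rw [sum_range_succ, sum_range_one] at e1
  simp only [zero_add] at *
  unfold RunCS lW hng
  rw [hb, lT_two, if_neg (by decide), ldT_two_0, ldT_two_2, un_sgB]
  simp only [show 2 + 2 = 4 from rfl, show 2 + 1 = 3 from rfl] at *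
  unfold Bs at *
  generalize rl (Q 4 - P - Q 3) (Q 2 - P - Q 3) = R at *
  generalize ltt P Q 0 = LL at *
  generalize ltr P Q 0 = L0 at *
  generalize ltr P Q 1 = L1 at *
  generalize lamc P Q 0 = M0 at *
  generalize lamc P Q 2 = M1 at *
  generalize rs 2 P Q = RR at *
  generalize fs b (x 0 + x 2) = f02 at *
  generalize fs b (x 0) = f0 at *
  generalize fs b (x 2) = f2 at *
  clear F hl hr hlam0 hlam1 hf hL hA hn
  generalize Q 0 = q0 at *
  generalize Q 1 = q1 at *
  generalize Q 2 = q2 at *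
  generalize Q 3 = q3 at *
  generalize Q 4 = q4 at *
  subst hn' hm
  have hb' : b = 2 ∨ b = -2 := by omega
  rcases hb' with rfl | rfl
  · have hs : sgB 2 = 1 := by simp [sgB]
    rw [hs] at e2 e3 e5 e6 e7 e8 ⊢
    refine ⟨2 * k1 + 2 * k9 + 2 * k2 + 4 * k4 - 2 * k5 - 2 * k3 - k6 + 2 * k7 + 2 * k8 - 2, ?_⟩
    push_cast
    linear_combination e1 + e9 + e2 - 2 * e3 + 2 * e4 - 2 * e5 - e6 + 2 * e7 + 2 * e8 +
      Real.pi ^ 2 * (x 0 + x 2) / 2 * Complex.I_sq
  · have hs : sgB (-2) = -1 := by simp [sgB]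
    rw [hs] at e2 e3 e5 e6 e7 e8 ⊢
    refine ⟨-(2 * k1 + 2 * k9 + 2 * k2 + 4 * k4 - 2 * k5 - 2 * k3) - k6 + 2 * k7 + 2 * k8 + 2, ?_⟩
    push_cast
    linear_combination -e1 - e9 - e2 + 2 * e3 - 2 * e4 + 2 * e5 - e6 + 2 * e7 + 2 * e8 -
      Real.pi ^ 2 * (x 0 + x 2) / 2 * Complex.I_sq

lemma lT_threeL : lT .threeL b true true x =
    un b * (2 * x 0 * x 1 + x 1 ^ 2 - 2 * x 1 * x 2 + x 2 ^ 2 - x 1 + x 2) +
    Fh (x 1 + x 2) - Fh (x 1 - x 0) - Fh (x 1) - Fh (x 0) - 2 * Fh (x 2) := by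
  rw [show un b * (2 * x 0 * x 1 + x 1 ^ 2 - 2 * x 1 * x 2 + x 2 ^ 2 - x 1 + x 2) +
    Fh (x 1 + x 2) - Fh (x 1 - x 0) - Fh (x 1) - Fh (x 0) - 2 * Fh (x 2) =
    un b * (2 * x 0 * x 1 + x 1 ^ 2 - 2 * x 1 * x 2 + x 2 ^ 2 - x 1 + x 2) +
    (Fh (x 1 + x 2) + -Fh (x 1 - x 0) + -Fh (x 1) + -Fh (x 0) + 2 * (-Fh (x 2))) by ring,
    ← Fh_one_sub (x 0), ← Fh_one_sub (x 2), ← Fh_one_sub (x 1), ← Fh_one_sub (x 1 - x 0)]
  simp [lT, lquad, facs, hL, hR, Fac.form, Fin.sum_univ_three, qq2, rr1]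
  ring_nf

theorem run_threeL' (hb : b.natAbs = 3) (h0 : x 0 ∈ strip) (h1 : x 1 ∈ strip) (h2 : x 2 ∈ strip)
    (h12 : x 1 + x 2 ∈ strip) (h10 : x 1 - x 0 ∈ strip) (F : Fan P Q 3)
    (hl : Complex.exp (sgB b * (2 * Real.pi * Complex.I * x 0) + Q 0) = -Complex.exp (Q 2))
    (hr : Complex.exp (sgB b * (2 * Real.pi * Complex.I * x 2) + Q 5) = -Complex.exp (Q 3))
    (hi : Complex.exp (sgB b * (2 * Real.pi * Complex.I * x 1) + Q 1) = -Complex.exp (Q 3))
    (hc : ldT .threeL b true true x 1 = 0) : RunCS .threeL b x P Q := by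
  obtain ⟨k1, e1⟩ := rs_ltr F
  obtain ⟨k9, e9⟩ := ltr_add F (l := 1) (by omega)
  have hlam0 := lam_one F (l := 0) (by omega)
  have hlam1 := lam_one F (l := 1) (by omega)
  have hlam3 := lam_one F (l := 3) (by omega)
  obtain ⟨k4, e4⟩ := rl_symm hlam3
  obtain ⟨k3, e3⟩ := lam_fs h0 hlam0 (by
    have := exp_hinge hl (P + Q 1)
    rw [sub_add_eq_sub_sub, sub_add_eq_sub_sub] at this
    exact this)
  obtain ⟨k11, e11⟩ := lam_fs h1 hlam1 (by
    have := exp_hinge hi (P + Q 2)
    rw [sub_add_eq_sub_sub, sub_add_eq_sub_sub] at this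
    exact this)
  obtain ⟨k5, e5⟩ := lam_fs h2 (by rw [add_comm]; exact hlam3) (by
    have := exp_hinge hr (P + Q 4)
    rw [sub_add_eq_sub_sub, sub_add_eq_sub_sub] at this
    exact this)
  obtain ⟨m, hm⟩ := hinge_int hl
  obtain ⟨n, hn⟩ := hinge_int hr
  obtain ⟨j, hj⟩ := hinge_int hi
  have hf := fs_one (b := b) h12
  have hg := fs_one (b := b) h10
  have hL := ltt_one F (l := 1) (by omega)
  have hK := ltr_one F (l := 0) (by omega)
  have hn' : Q 5 = Q 3 - sgB b * (2 * Real.pi * Complex.I * x 2) - Real.pi * Complex.I * (2 * n + 1) := by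
    rw [hn]; ring
  have hA : Complex.exp (2 * Q (1 + 2) - Q 1 - Q (1 + 4)) =
      Complex.exp (sgB b * (2 * Real.pi * Complex.I * (x 1 + x 2))) := by
    have : 2 * Q (1 + 2) - Q 1 - Q (1 + 4) =
        sgB b * (2 * Real.pi * Complex.I * (x 1 + x 2)) + (j + n + 1 : ℤ) * (2 * Real.pi * Complex.I) := by
      simp only [show 1 + 2 = 3 from rfl, show 1 + 4 = 5 from rfl]
      rw [hn', hj]; push_cast; ring
    rw [this, Complex.exp_add, Complex.exp_int_mul_two_pi_mul_I, mul_one]
  obtain ⟨k2, e2⟩ := rl_shift' hf hA (by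
    have : Complex.exp (4 * P - Q 1 - Q (1 + 4)) = 1 - Complex.exp (2 * Q (1 + 2) - Q 1 - Q (1 + 4)) := by
      rw [← hL]; ring
    rw [this, hA, ← hf]; ring)
  have hB : Complex.exp (Q (0 + 1) + Q (0 + 2) - Q 0 - Q (0 + 3)) *
      Complex.exp (sgB b * (2 * Real.pi * Complex.I * (x 1 - x 0))) = 1 := by
    rw [← Complex.exp_add]
    have : Q (0 + 1) + Q (0 + 2) - Q 0 - Q (0 + 3) +
        sgB b * (2 * Real.pi * Complex.I * (x 1 - x 0)) = (m - j : ℤ) * (2 * Real.pi * Complex.I) := by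
      simp only [zero_add]
      rw [hm, hj]; push_cast; ring
    rw [this, Complex.exp_int_mul_two_pi_mul_I]
  obtain ⟨k10, e10⟩ := rl_inv' hg hB (by
    have : Complex.exp (3 * P - Q 0 - Q (0 + 3)) = 1 - Complex.exp (Q (0 + 1) + Q (0 + 2) - Q 0 - Q (0 + 3)) := by
      rw [← hK]; ring
    rw [this, sub_mul, hB, one_mul]; linear_combination hg)
  obtain ⟨k6, e6⟩ := Fh_fs (b := b) h12
  obtain ⟨k7, e7⟩ := Fh_fs (b := b) h0
  obtain ⟨k8, e8⟩ := Fh_fs (b := b) h2
  obtain ⟨k12, e12⟩ := Fh_fs (b := b) h10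
  obtain ⟨k13, e13⟩ := Fh_fs (b := b) h1
  change ltt P Q 1 - (fs b (x 1 + x 2) + _) = _ at e2
  change ltr P Q 0 - (-fs b (x 1 - x 0) + _) = _ at e10
  change lamc P Q 0 - _ = _ at e3
  change lamc P Q 1 - _ = _ at e11
  change _ - (-lamc P Q 3 - _) = _ at e4
  rw [sum_range_succ, sum_range_succ, sum_range_one] at e1
  rw [ldT_threeL_1, un_sgB] at hc
  simp only [zero_add] at *
  unfold RunCS lW hng
  rw [hb, lT_threeL, if_neg (by decide), ldT_threeL_0, ldT_threeL_2, un_sgB]
  simp only [show 3 + 2 = 5 from rfl, show 3 + 1 = 4 from rfl, show 1 + 1 = 2 from rfl,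
    show 1 + 2 = 3 from rfl] at *
  unfold Bs at *
  generalize rl (Q 5 - P - Q 4) (Q 3 - P - Q 4) = R at *
  generalize ltt P Q 1 = LL at *
  generalize ltr P Q 0 = L0 at *
  generalize ltr P Q 1 = L1 at *
  generalize ltr P Q 2 = L2 at *
  generalize lamc P Q 0 = M0 at *
  generalize lamc P Q 1 = M1 at *
  generalize lamc P Q 3 = M3 at *
  generalize rs 3 P Q = RR at *
  generalize fs b (x 1 + x 2) = f12 at *
  generalize fs b (x 1 - x 0) = f10 at *
  generalize fs b (x 0) = f0 at *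
  generalize fs b (x 1) = f1 at *
  generalize fs b (x 2) = f2 at *
  clear F hl hr hi hlam0 hlam1 hlam3 hf hg hL hK hA hB hn
  generalize Q 0 = q0 at *
  generalize Q 1 = q1 at *
  generalize Q 2 = q2 at *
  generalize Q 3 = q3 at *
  generalize Q 4 = q4 at *
  generalize Q 5 = q5 at *
  subst hn' hm hj
  have hb' : b = 3 ∨ b = -3 := by omega
  rcases hb' with rfl | rfl
  · have hs : sgB 3 = 1 := by simp [sgB]
    rw [hs] at e2 e3 e5 e6 e7 e8 e10 e11 e12 e13 hc ⊢
    refine ⟨2 * k1 + 2 * k9 + 2 * k2 + k10 + 4 * k4 - 2 * k5 - k3 - k11 - k6 + k7 + 2 * k8 + k12 +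
      k13 - 3 - j, ?_⟩
    push_cast
    linear_combination e1 + e9 + e2 + e10 - e3 - e11 + 2 * e4 - 2 * e5 - e6 + e7 + 2 * e8 + e12 + e13 +
      Real.pi * Complex.I * (2 * x 1 + j + 1 / 2) * hc +
      Real.pi ^ 2 * (1 / 2 + x 1 / 2 + x 2 / 2 + j) * Complex.I_sq
  · have hs : sgB (-3) = -1 := by simp [sgB]
    rw [hs] at e2 e3 e5 e6 e7 e8 e10 e11 e12 e13 hc ⊢
    refine ⟨-(2 * k1 + 2 * k9 + 2 * k2 + k10 + 4 * k4 - 2 * k5 - k3 - k11) - k6 + k7 + 2 * k8 + k12 +
      k13 + 2 - j, ?_⟩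
    push_cast
    linear_combination -e1 - e9 - e2 - e10 + e3 + e11 - 2 * e4 + 2 * e5 - e6 + e7 + 2 * e8 + e12 + e13 +
      Real.pi * Complex.I * (2 * x 1 - j - 1 / 2) * hc +
      Real.pi ^ 2 * (1 / 2 - x 1 / 2 - x 2 / 2 + j) * Complex.I_sq

end Pool.Agent.Work.MP_b30479_gtS.G2

end

section

/-!
# The complexified volume, twist regions with a continuous variable
-/

namespace Pool.Agent.Work.MP_b30479_gtS.G2

open Finset VOL

variable {P Z B : ℂ} {Q : ℕ → ℂ}

lemma exists_RFan {b : ℕ} (F : Fan P Q b) (hz : Complex.exp P = Complex.exp Z + Complex.exp (-Z)) :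
    ∃ B, RFan P Z B Q b := by
  have hne : Complex.exp (Q 0 + Z) - Complex.exp (Q 1) ≠ 0 := by
    intro h
    have hq := F.quad (k := 0) (by omega)
    have hy : Complex.exp Z * Complex.exp (-Z) = 1 := by
      rw [← Complex.exp_add, add_neg_cancel, Complex.exp_zero]
    have hp : Complex.exp P ≠ 0 := Complex.exp_ne_zero _
    rw [Complex.exp_add, sub_eq_zero] at h
    rw [zero_add, ← h] at hq
    apply pow_ne_zero 2 hp
    linear_combination -hq + Complex.exp (Q 0) ^ 2 * Complex.exp Z * hz + Complex.exp (Q 0) ^ 2 * hy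
  refine ⟨Complex.log (Complex.exp (Q 0 + Z) - Complex.exp (Q 1)) - P, F, hz, ?_⟩
  rw [add_sub_cancel, Complex.exp_log hne]
  ring

/-- the sign of `p = ± 2 cos πζ` -/
lemma exists_Z {b : ℤ} {ζ : ℂ} (hP : Complex.exp (2 * P) = (2 * Complex.cos (Real.pi * ζ)) ^ 2) :
    ∃ δ : ℤ, Complex.exp P = Complex.exp (sgB b * (Real.pi * Complex.I * ζ) + Real.pi * Complex.I * δ) +
      Complex.exp (-(sgB b * (Real.pi * Complex.I * ζ) + Real.pi * Complex.I * δ)) := by
  have hc : 2 * Complex.cos (Real.pi * ζ) = Complex.exp (sgB b * (Real.pi * Complex.I * ζ)) +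
      Complex.exp (-(sgB b * (Real.pi * Complex.I * ζ))) := by
    rw [Complex.cos]
    rcases sg_cases b with h | h <;> rw [h]
    · rw [show Real.pi * ζ * Complex.I = 1 * (Real.pi * Complex.I * ζ) by ring,
        show -(Real.pi * ζ) * Complex.I = -(1 * (Real.pi * Complex.I * ζ)) by ring]
      ring
    · rw [show Real.pi * ζ * Complex.I = -(-1 * (Real.pi * Complex.I * ζ)) by ring,
        show -(Real.pi * ζ) * Complex.I = -1 * (Real.pi * Complex.I * ζ) by ring]
      ring
  rw [exp_two] at hP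
  rcases sq_eq_sq_iff_eq_or_eq_neg.mp hP with h | h
  · exact ⟨0, by rw [h, hc]; simp⟩
  · refine ⟨1, ?_⟩
    have e : Complex.exp (-(sgB b * (Real.pi * Complex.I * ζ) + Real.pi * Complex.I)) =
        -Complex.exp (-(sgB b * (Real.pi * Complex.I * ζ))) := by
      rw [neg_add, Complex.exp_add _ (-(Real.pi * Complex.I)), Complex.exp_neg (Real.pi * Complex.I),
        Complex.exp_pi_mul_I]
      norm_num
    rw [h, hc, Int.cast_one, mul_one, e, Complex.exp_add _ (Real.pi * Complex.I), Complex.exp_pi_mul_I]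
    ring

variable {b : ℤ} {w ζ : ℂ} {δ : ℤ}

/-- the left hinge of a ring -/
lemma side_left {n : ℕ} (hZ : Z = sgB b * (Real.pi * Complex.I * ζ) + Real.pi * Complex.I * δ)
    (F : RFan P Z B Q n) {l : ℕ} (hln : l ≤ n) (hw : w ∈ strip) (hu : w - ζ + 1 / 2 ∈ strip)
    (hv : w + ζ + 1 / 2 ∈ strip)
    (hl : Complex.exp (sgB b * (2 * Real.pi * Complex.I * w) + Q l) = -Complex.exp (Q (l + 2))) :
    Cq (cmu P Z B Q l - cmv P Z B Q l - 2 * lamc P Q l)
      (fs b (w - ζ + 1 / 2) + fs b (w + ζ + 1 / 2) - 2 * fs b w - Real.pi ^ 2 / 3 +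
        ((Q (l + 2) - Q l - 2 * Z) * Bs b (w - ζ + 1 / 2) - (2 * P + B - (l + 2) * Z - Q l) *
          (sgB b * (2 * Real.pi * Complex.I * (w - ζ + 1 / 2)))) / 2 -
        ((Q l - Q (l + 2) - 2 * Z) * Bs b (w + ζ + 1 / 2) + (2 * P - B + l * Z - Q (l + 2)) *
          (sgB b * (2 * Real.pi * Complex.I * (w + ζ + 1 / 2))) -
          sgB b * (2 * Real.pi * Complex.I * (w + ζ + 1 / 2)) * (Q l - Q (l + 2) - 2 * Z)) / 2 -
        (Q (l + 2) - Q l) * Bs b w - 2 * sgB b * (Real.pi * Complex.I * w * (Q l - P - Q (l + 1)))) ∧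
    (∃ m : ℤ, Q (l + 2) = sgB b * (2 * Real.pi * Complex.I * w) + Q l + Real.pi * Complex.I * (2 * m + 1)) ∧
    (∃ a : ℤ, 2 * P + B - (l + 2) * Z - Q l = Bs b (w - ζ + 1 / 2) + 2 * Real.pi * Complex.I * a) ∧
    (∃ k : ℤ, 2 * P - B + l * Z + 2 * Z - Q l = Bs b (w + ζ + 1 / 2) + Real.pi * Complex.I * (2 * k + 1)) := by
  obtain ⟨m, hm⟩ := hinge_int hl
  have hsI : sgB b * (Real.pi * Complex.I) = Real.pi * Complex.I ∨
      sgB b * (Real.pi * Complex.I) = -(Real.pi * Complex.I) := by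
    rcases sg_cases b with h | h <;> rw [h]
    · left; ring
    · right; ring
  have m1 := mu_one F hln
  have v1 := mv_one F hln
  have fu := fs_one (b := b) hu
  have fv := fs_one (b := b) hv
  -- the first face
  have a1 : Complex.exp (Q (l + 2) - Q l - 2 * Z) =
      Complex.exp (sgB b * (2 * Real.pi * Complex.I * (w - ζ + 1 / 2))) := by
    rcases hsI with h | h
    · have e : Q (l + 2) - Q l - 2 * Z = sgB b * (2 * Real.pi * Complex.I * (w - ζ + 1 / 2)) +
          (m - δ : ℤ) * (2 * Real.pi * Complex.I) := by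
        rw [hm, hZ]; push_cast; linear_combination -h
      rw [e, Complex.exp_add, Complex.exp_int_mul_two_pi_mul_I, mul_one]
    · have e : Q (l + 2) - Q l - 2 * Z = sgB b * (2 * Real.pi * Complex.I * (w - ζ + 1 / 2)) +
          (m + 1 - δ : ℤ) * (2 * Real.pi * Complex.I) := by
        rw [hm, hZ]; push_cast; linear_combination -h
      rw [e, Complex.exp_add, Complex.exp_int_mul_two_pi_mul_I, mul_one]
  have a2 : Complex.exp (2 * P + B - (l + 2) * Z - Q l) = Complex.exp (Bs b (w - ζ + 1 / 2)) := by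
    linear_combination m1 - fu - a1
  obtain ⟨k1, e1⟩ := rl_shift' fu a1 a2
  obtain ⟨a, ha⟩ := exp_eq_int a2
  -- the second face
  have b1 : Complex.exp (Q l - Q (l + 2) - 2 * Z) *
      Complex.exp (sgB b * (2 * Real.pi * Complex.I * (w + ζ + 1 / 2))) = 1 := by
    rw [← Complex.exp_add]
    rcases hsI with h | h
    · have e : Q l - Q (l + 2) - 2 * Z + sgB b * (2 * Real.pi * Complex.I * (w + ζ + 1 / 2)) =
          (-m - δ : ℤ) * (2 * Real.pi * Complex.I) := by
        rw [hm, hZ]; push_cast; linear_combination h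
      rw [e, Complex.exp_int_mul_two_pi_mul_I]
    · have e : Q l - Q (l + 2) - 2 * Z + sgB b * (2 * Real.pi * Complex.I * (w + ζ + 1 / 2)) =
          (-m - 1 - δ : ℤ) * (2 * Real.pi * Complex.I) := by
        rw [hm, hZ]; push_cast; linear_combination h
      rw [e, Complex.exp_int_mul_two_pi_mul_I]
  have b2 : Complex.exp (2 * P - B + l * Z - Q (l + 2)) *
      Complex.exp (sgB b * (2 * Real.pi * Complex.I * (w + ζ + 1 / 2))) =
      -Complex.exp (Bs b (w + ζ + 1 / 2)) := by
    have : Complex.exp (2 * P - B + l * Z - Q (l + 2)) = 1 - Complex.exp (Q l - Q (l + 2) - 2 * Z) := by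
      rw [← v1]; ring
    rw [this, sub_mul, b1, one_mul]
    linear_combination fv
  obtain ⟨k2, e2⟩ := rl_inv' fv b1 b2
  have b3 : Complex.exp (Bs b (w + ζ + 1 / 2) + 0) = -Complex.exp (2 * P - B + l * Z + 2 * Z - Q l) := by
    have : Complex.exp (2 * P - B + l * Z + 2 * Z - Q l) =
        Complex.exp (2 * P - B + l * Z - Q (l + 2)) *
        Complex.exp (sgB b * (2 * Real.pi * Complex.I * (w + ζ + 1 / 2))) := by
      have h3 : Complex.exp (sgB b * (2 * Real.pi * Complex.I * (w + ζ + 1 / 2))) =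
          Complex.exp (-(Q l - Q (l + 2) - 2 * Z)) := by
        rw [Complex.exp_neg]
        exact eq_inv_of_mul_eq_one_right b1
      rw [h3, ← Complex.exp_add]
      congr 1
      ring
    rw [this, b2, neg_neg, add_zero]
  obtain ⟨k, hk⟩ := hinge_int b3
  obtain ⟨k3, e3⟩ := lam_fs (b := b) hw (lam_one F.fan hln) (by
    have := exp_hinge hl (P + Q (l + 1))
    rw [sub_add_eq_sub_sub, sub_add_eq_sub_sub] at this
    exact this)
  refine ⟨⟨2 * k1 - k2 - 2 * k3, ?_⟩, ⟨m, hm⟩, ⟨a, ha⟩, ⟨k, by rw [hk]; ring⟩⟩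
  change cmu P Z B Q l - (fs b (w - ζ + 1 / 2) + _) = _ at e1
  change cmv P Z B Q l - (-fs b (w + ζ + 1 / 2) + _) = _ at e2
  change lamc P Q l - _ = _ at e3
  push_cast
  linear_combination e1 - e2 - 2 * e3

/-- the right hinge of a ring -/
lemma side_right {n : ℕ} (hZ : Z = sgB b * (Real.pi * Complex.I * ζ) + Real.pi * Complex.I * δ)
    (F : RFan P Z B Q n) {l : ℕ} (hln : l ≤ n) (hw : w ∈ strip) (hu : w - ζ + 1 / 2 ∈ strip)
    (hv : w + ζ + 1 / 2 ∈ strip)
    (hl : Complex.exp (sgB b * (2 * Real.pi * Complex.I * w) + Q (l + 2)) = -Complex.exp (Q l)) :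
    Cq (cmv P Z B Q l - cmu P Z B Q l + 2 * lamc P Q l)
      (fs b (w - ζ + 1 / 2) + fs b (w + ζ + 1 / 2) - 2 * fs b w - 2 * Real.pi ^ 2 / 3 +
        ((Q l - Q (l + 2) - 2 * Z) * Bs b (w - ζ + 1 / 2) - (2 * P - B + l * Z - Q (l + 2)) *
          (sgB b * (2 * Real.pi * Complex.I * (w - ζ + 1 / 2)))) / 2 -
        ((Q (l + 2) - Q l - 2 * Z) * Bs b (w + ζ + 1 / 2) + (2 * P + B - (l + 2) * Z - Q l) *
          (sgB b * (2 * Real.pi * Complex.I * (w + ζ + 1 / 2))) -
          sgB b * (2 * Real.pi * Complex.I * (w + ζ + 1 / 2)) * (Q (l + 2) - Q l - 2 * Z)) / 2 -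
        (Q l - Q (l + 2)) * Bs b w - 2 * sgB b * (Real.pi * Complex.I * w * (Q (l + 2) - P - Q (l + 1)))) ∧
    (∃ m : ℤ, Q l = sgB b * (2 * Real.pi * Complex.I * w) + Q (l + 2) + Real.pi * Complex.I * (2 * m + 1)) ∧
    (∃ a : ℤ, 2 * P - B + l * Z - Q (l + 2) = Bs b (w - ζ + 1 / 2) + 2 * Real.pi * Complex.I * a) ∧
    (∃ k : ℤ, 2 * P + B - l * Z - Q (l + 2) = Bs b (w + ζ + 1 / 2) + Real.pi * Complex.I * (2 * k + 1)) := by
  obtain ⟨m, hm⟩ := hinge_int hl
  have hsI : sgB b * (Real.pi * Complex.I) = Real.pi * Complex.I ∨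
      sgB b * (Real.pi * Complex.I) = -(Real.pi * Complex.I) := by
    rcases sg_cases b with h | h <;> rw [h]
    · left; ring
    · right; ring
  have m1 := mu_one F hln
  have v1 := mv_one F hln
  have fu := fs_one (b := b) hu
  have fv := fs_one (b := b) hv
  -- the first face
  have a1 : Complex.exp (Q l - Q (l + 2) - 2 * Z) =
      Complex.exp (sgB b * (2 * Real.pi * Complex.I * (w - ζ + 1 / 2))) := by
    rcases hsI with h | h
    · have e : Q l - Q (l + 2) - 2 * Z = sgB b * (2 * Real.pi * Complex.I * (w - ζ + 1 / 2)) +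
          (m - δ : ℤ) * (2 * Real.pi * Complex.I) := by
        rw [hm, hZ]; push_cast; linear_combination -h
      rw [e, Complex.exp_add, Complex.exp_int_mul_two_pi_mul_I, mul_one]
    · have e : Q l - Q (l + 2) - 2 * Z = sgB b * (2 * Real.pi * Complex.I * (w - ζ + 1 / 2)) +
          (m + 1 - δ : ℤ) * (2 * Real.pi * Complex.I) := by
        rw [hm, hZ]; push_cast; linear_combination -h
      rw [e, Complex.exp_add, Complex.exp_int_mul_two_pi_mul_I, mul_one]
  have a2 : Complex.exp (2 * P - B + l * Z - Q (l + 2)) = Complex.exp (Bs b (w - ζ + 1 / 2)) := by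
    linear_combination v1 - fu - a1
  obtain ⟨k1, e1⟩ := rl_shift' fu a1 a2
  obtain ⟨a, ha⟩ := exp_eq_int a2
  -- the second face
  have b1 : Complex.exp (Q (l + 2) - Q l - 2 * Z) *
      Complex.exp (sgB b * (2 * Real.pi * Complex.I * (w + ζ + 1 / 2))) = 1 := by
    rw [← Complex.exp_add]
    rcases hsI with h | h
    · have e : Q (l + 2) - Q l - 2 * Z + sgB b * (2 * Real.pi * Complex.I * (w + ζ + 1 / 2)) =
          (-m - δ : ℤ) * (2 * Real.pi * Complex.I) := by
        rw [hm, hZ]; push_cast; linear_combination h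
      rw [e, Complex.exp_int_mul_two_pi_mul_I]
    · have e : Q (l + 2) - Q l - 2 * Z + sgB b * (2 * Real.pi * Complex.I * (w + ζ + 1 / 2)) =
          (-m - 1 - δ : ℤ) * (2 * Real.pi * Complex.I) := by
        rw [hm, hZ]; push_cast; linear_combination h
      rw [e, Complex.exp_int_mul_two_pi_mul_I]
  have b2 : Complex.exp (2 * P + B - (l + 2) * Z - Q l) *
      Complex.exp (sgB b * (2 * Real.pi * Complex.I * (w + ζ + 1 / 2))) =
      -Complex.exp (Bs b (w + ζ + 1 / 2)) := by
    have : Complex.exp (2 * P + B - (l + 2) * Z - Q l) = 1 - Complex.exp (Q (l + 2) - Q l - 2 * Z) := by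
      rw [← m1]; ring
    rw [this, sub_mul, b1, one_mul]
    linear_combination fv
  obtain ⟨k2, e2⟩ := rl_inv' fv b1 b2
  have b3 : Complex.exp (Bs b (w + ζ + 1 / 2) + 0) = -Complex.exp (2 * P + B - l * Z - Q (l + 2)) := by
    have : Complex.exp (2 * P + B - l * Z - Q (l + 2)) =
        Complex.exp (2 * P + B - (l + 2) * Z - Q l) *
        Complex.exp (sgB b * (2 * Real.pi * Complex.I * (w + ζ + 1 / 2))) := by
      have h3 : Complex.exp (sgB b * (2 * Real.pi * Complex.I * (w + ζ + 1 / 2))) =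
          Complex.exp (-(Q (l + 2) - Q l - 2 * Z)) := by
        rw [Complex.exp_neg]
        exact eq_inv_of_mul_eq_one_right b1
      rw [h3, ← Complex.exp_add]
      congr 1
      ring
    rw [this, b2, neg_neg, add_zero]
  obtain ⟨k, hk⟩ := hinge_int b3
  have hlam := lam_one F.fan hln
  obtain ⟨k4, e4⟩ := rl_symm hlam
  obtain ⟨k3, e3⟩ := lam_fs (b := b) hw (by rw [add_comm]; exact hlam) (by
    have := exp_hinge hl (P + Q (l + 1))
    rw [sub_add_eq_sub_sub, sub_add_eq_sub_sub] at this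
    exact this)
  refine ⟨⟨2 * k1 - k2 - 2 * k3 + 4 * k4, ?_⟩, ⟨m, hm⟩, ⟨a, ha⟩, ⟨k, by rw [hk]; ring⟩⟩
  change cmv P Z B Q l - (fs b (w - ζ + 1 / 2) + _) = _ at e1
  change cmu P Z B Q l - (-fs b (w + ζ + 1 / 2) + _) = _ at e2
  change _ - (-lamc P Q l - _) = _ at e4
  push_cast
  linear_combination e1 - e2 - 2 * e3 + 2 * e4

end Pool.Agent.Work.MP_b30479_gtS.G2

end

section

/-!
# The complexified volume, twist regions with two and three crossings at an end
-/

namespace Pool.Agent.Work.MP_b30479_gtS.G2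

open Finset VOL

/-- logarithms of the values on the fan at an end -/
structure FanE (P : ℂ) (Q : ℕ → ℂ) (b : ℕ) : Prop where
  fan : Fan P Q (b - 2)
  top : Complex.exp (Q (b - 1)) = Complex.exp (P + Q b)
  fold : Complex.exp (2 * Q b) = -Complex.exp (2 * P)

variable {b : ℤ} {P : ℂ} {Q : ℕ → ℂ}

lemma fold_exp {w : ℂ} (hw : w ∈ strip) {q0 q1 q2 : ℂ}
    (hf : Complex.exp (2 * q2) = -Complex.exp (2 * P))
    (h1 : Complex.exp (2 * q1 - q0 - q2) + Complex.exp (2 * P - q0 - q2) = 1)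
    (hl : Complex.exp (sgB b * (2 * Real.pi * Complex.I * w) + q0) = -Complex.exp q2) :
    Complex.exp (2 * q1 - q0 - q2) = Complex.exp (Bs b w) ∧
    Complex.exp (2 * P - q0 - q2) = Complex.exp (sgB b * (2 * Real.pi * Complex.I * w)) := by
  have hs := fs_one (b := b) hw
  have e2 : Complex.exp (2 * P - q0 - q2) = Complex.exp (sgB b * (2 * Real.pi * Complex.I * w)) := by
    have h3 := exp_hinge hl q0
    rw [sub_self, add_zero] at h3
    rw [sub_right_comm, Complex.exp_sub, Complex.exp_sub]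
    have h4 : Complex.exp (2 * P) = -Complex.exp (2 * q2) := by rw [hf]; ring
    rw [h4, exp_two]
    rw [Complex.exp_sub] at h3
    have := Complex.exp_ne_zero q2
    have := Complex.exp_ne_zero q0
    rw [← neg_eq_iff_eq_neg] at h3
    rw [← h3]
    field_simp
  exact ⟨by linear_combination h1 - hs - e2, e2⟩

/-- the last layer -/
lemma fold_fs {w : ℂ} (hw : w ∈ strip) {q0 q1 q2 : ℂ}
    (hf : Complex.exp (2 * q2) = -Complex.exp (2 * P))
    (h1 : Complex.exp (2 * q1 - q0 - q2) + Complex.exp (2 * P - q0 - q2) = 1)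
    (hl : Complex.exp (sgB b * (2 * Real.pi * Complex.I * w) + q0) = -Complex.exp q2) :
    Cq (rl (2 * q1 - q0 - q2) (2 * P - q0 - q2)) (-fs b w - Real.pi ^ 2 / 6 +
      ((2 * q1 - q0 - q2) * (sgB b * (2 * Real.pi * Complex.I * w)) - (2 * P - q0 - q2) * Bs b w) / 2) := by
  have hs := fs_one (b := b) hw
  obtain ⟨e1, e2⟩ := fold_exp hw hf h1 hl
  obtain ⟨k, hk⟩ := rl_shift' (by rw [add_comm]; exact hs) e1 e2
  obtain ⟨l, hl'⟩ := rl_symm hs
  refine ⟨2 * k + 2 * l, ?_⟩
  unfold fs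
  push_cast
  linear_combination hk + hl'

theorem end_two' (hb : b.natAbs = 2) {w : ℂ} (hw : w ∈ strip) (F : FanE P Q 2)
    (hl : Complex.exp (sgB b * (2 * Real.pi * Complex.I * w) + Q 0) = -Complex.exp (Q 2)) :
    Cq (sgB b * rsE b.natAbs P Q)
      (-(2 * Real.pi * Complex.I * (un b * (w ^ 2 + w) - Fh w)) +
        hng (sgB b * (Q 2 - Q 0)) (2 * P - 2 * Q 1) w (un b * (2 * w + 1) - ph w) +
        Real.pi ^ 2 * (b / 2 - sgB b / 6)) := by
  have hh := hly_one F.fan (l := 0) (by omega)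
  obtain ⟨k1, e1⟩ := fold_fs hw F.fold hh hl
  obtain ⟨e, he⟩ := exp_eq_int (fold_exp hw F.fold hh hl).1
  obtain ⟨k7, e7⟩ := Fh_fs (b := b) hw
  obtain ⟨m, hm⟩ := hinge_int hl
  have h2 := F.top
  have h3 := F.fold
  have h4 : Complex.exp (2 * Q 2) = Complex.exp (2 * P + Real.pi * Complex.I) := by
    rw [Complex.exp_add, Complex.exp_pi_mul_I, h3]; ring
  obtain ⟨c, hc⟩ := exp_eq_int h4
  obtain ⟨d, hd⟩ := exp_eq_int h2
  simp only [show 2 - 1 = 1 from rfl] at hd
  rw [hb]
  unfold rsE rs hng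
  rw [un_sgB]
  change hly P Q 0 - _ = _ at e1
  simp only [show 2 - 2 = 0 from rfl, show 2 - 1 = 1 from rfl, range_zero, sum_empty, zero_add] at *
  have hP : P = Q 2 - Real.pi * Complex.I / 2 - Real.pi * Complex.I * c := by
    linear_combination -hc / 2
  unfold Bs at *
  generalize hly P Q 0 = H0 at *
  generalize fs b w = f0 at *
  clear F hl h2 h3 h4 hc hh
  generalize Q 0 = q0 at *
  generalize Q 1 = q1 at *
  generalize Q 2 = q2 at *
  subst hm hd hP
  have hb' : b = 2 ∨ b = -2 := by omega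
  rcases hb' with rfl | rfl
  · have hs : sgB 2 = 1 := by simp [sgB]
    rw [hs] at e1 e7 he ⊢
    refine ⟨k1 + k7 - 1 - (m + 2 * m * c - c - 2 * c * e - 2 * c ^ 2 - e), ?_⟩
    push_cast
    linear_combination e1 + e7 - Real.pi * Complex.I * (c + 1 / 2) * he +
      Real.pi ^ 2 * (w / 2 + m + 2 * m * c - c - 2 * c * e - 2 * c ^ 2 - e) * Complex.I_sq
  · have hs : sgB (-2) = -1 := by simp [sgB]
    rw [hs] at e1 e7 he ⊢
    refine ⟨-k1 + k7 + 1 + (m + 2 * m * c - c - 2 * c * e - 2 * c ^ 2 - e), ?_⟩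
    push_cast
    linear_combination -e1 + e7 + Real.pi * Complex.I * (c + 1 / 2) * he -
      Real.pi ^ 2 * (w / 2 + m + 2 * m * c - c - 2 * c * e - 2 * c ^ 2 - e) * Complex.I_sq

theorem end_three' (hb : b.natAbs = 3) {w m : ℂ} (hw : w ∈ strip) (hmm : m ∈ strip)
    (hmw : m - w ∈ strip) (F : FanE P Q 3)
    (hl : Complex.exp (sgB b * (2 * Real.pi * Complex.I * w) + Q 0) = -Complex.exp (Q 2))
    (hi : Complex.exp (sgB b * (2 * Real.pi * Complex.I * m) + Q 1) = -Complex.exp (Q 3))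
    (hcr : un b * (2 * (w + m)) - un b - ph (m - w) = 0) :
    Cq (sgB b * rsE b.natAbs P Q)
      (-(2 * Real.pi * Complex.I * (un b * (2 * w * m + m ^ 2 - m) - Fh (m - w) - Fh w)) +
        hng (sgB b * (Q 2 - Q 0)) (2 * P - 2 * Q 1) w (un b * (2 * m) + ph (m - w) - ph w) +
        Real.pi ^ 2 * (b / 2 - sgB b / 6)) := by
  have hh := hly_one F.fan (l := 1) (by omega)
  obtain ⟨k1, e1⟩ := fold_fs hmm F.fold hh hi
  obtain ⟨e, he⟩ := exp_eq_int (fold_exp hmm F.fold hh hi).1
  obtain ⟨k2, e2⟩ := rs_ltr F.fan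
  have hlam0 := lam_one F.fan (l := 0) (by omega)
  have hlam1 := lam_one F.fan (l := 1) (by omega)
  obtain ⟨k3, e3⟩ := lam_fs hw hlam0 (by
    have := exp_hinge hl (P + Q 1)
    rw [sub_add_eq_sub_sub, sub_add_eq_sub_sub] at this
    exact this)
  obtain ⟨k4, e4⟩ := lam_fs hmm hlam1 (by
    have := exp_hinge hi (P + Q 2)
    rw [sub_add_eq_sub_sub, sub_add_eq_sub_sub] at this
    exact this)
  obtain ⟨m', hm⟩ := hinge_int hl
  obtain ⟨j, hj⟩ := hinge_int hi
  have hg := fs_one (b := b) hmw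
  have hK := ltr_one F.fan (l := 0) (by omega)
  have hB : Complex.exp (Q (0 + 1) + Q (0 + 2) - Q 0 - Q (0 + 3)) *
      Complex.exp (sgB b * (2 * Real.pi * Complex.I * (m - w))) = 1 := by
    rw [← Complex.exp_add]
    have : Q (0 + 1) + Q (0 + 2) - Q 0 - Q (0 + 3) +
        sgB b * (2 * Real.pi * Complex.I * (m - w)) = (m' - j : ℤ) * (2 * Real.pi * Complex.I) := by
      simp only [zero_add]
      rw [hm, hj]; push_cast; ring
    rw [this, Complex.exp_int_mul_two_pi_mul_I]
  obtain ⟨k10, e10⟩ := rl_inv' hg hB (by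
    have : Complex.exp (3 * P - Q 0 - Q (0 + 3)) = 1 - Complex.exp (Q (0 + 1) + Q (0 + 2) - Q 0 - Q (0 + 3)) := by
      rw [← hK]; ring
    rw [this, sub_mul, hB, one_mul]; linear_combination hg)
  obtain ⟨k7, e7⟩ := Fh_fs (b := b) hw
  obtain ⟨k8, e8⟩ := Fh_fs (b := b) hmw
  have h2 := F.top
  have h3 := F.fold
  have h4 : Complex.exp (2 * Q 3) = Complex.exp (2 * P + Real.pi * Complex.I) := by
    rw [Complex.exp_add, Complex.exp_pi_mul_I, h3]; ring
  obtain ⟨c, hc⟩ := exp_eq_int h4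
  obtain ⟨d, hd⟩ := exp_eq_int h2
  simp only [show 3 - 1 = 2 from rfl, show 3 - 2 = 1 from rfl, sum_range_one] at hd e2
  rw [hb]
  unfold rsE hng
  rw [un_sgB] at hcr ⊢
  change hly P Q 1 - _ = _ at e1
  change lamc P Q 0 - _ = _ at e3
  change lamc P Q 1 - _ = _ at e4
  change ltr P Q 0 - (-fs b (m - w) + _) = _ at e10
  simp only [show 3 - 2 = 1 from rfl, show 3 - 1 = 2 from rfl, show 1 + 1 = 2 from rfl, zero_add,
    show 1 + 2 = 3 from rfl] at *
  have hP : P = Q 3 - Real.pi * Complex.I / 2 - Real.pi * Complex.I * c := by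
    linear_combination -hc / 2
  unfold Bs at *
  generalize hly P Q 1 = H1 at *
  generalize ltr P Q 0 = L0 at *
  generalize lamc P Q 0 = M0 at *
  generalize lamc P Q 1 = M1 at *
  generalize rs 1 P Q = RR at *
  generalize fs b w = f0 at *
  generalize fs b m = f1 at *
  generalize fs b (m - w) = f2 at *
  clear F hl hi h2 h3 h4 hc hh hlam0 hlam1 hg hK hB
  generalize Q 0 = q0 at *
  generalize Q 1 = q1 at *
  generalize Q 2 = q2 at *
  generalize Q 3 = q3 at *
  have hj' : q1 = q3 - sgB b * (2 * Real.pi * Complex.I * m) - Real.pi * Complex.I * (2 * j + 1) := by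
    rw [hj]; ring
  have hm' : q0 = q2 - sgB b * (2 * Real.pi * Complex.I * w) - Real.pi * Complex.I * (2 * m' + 1) := by
    rw [hm]; ring
  clear hj hm
  subst hm' hd hP hj'
  have hb' : b = 3 ∨ b = -3 := by omega
  rcases hb' with rfl | rfl
  · have hs : sgB 3 = 1 := by simp [sgB]
    rw [hs] at e1 e3 e4 e7 e8 e10 hcr he ⊢
    refine ⟨k1 + 2 * k2 + k10 + k4 - k3 + k7 + k8 - 2 -
      (2 * j - c + 2 * c * j - 2 * c * e - 2 * c ^ 2 - e), ?_⟩
    push_cast
    linear_combination e1 + e2 + e10 + e4 - e3 + e7 + e8 - Real.pi * Complex.I * (c + 1 / 2) * he +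
      Real.pi * Complex.I * (2 * m + j + 1 / 2) * hcr + Real.pi ^ 2 *
        (1 / 2 + m / 2 + 2 * j - c + 2 * c * j - 2 * c * e - 2 * c ^ 2 - e) * Complex.I_sq
  · have hs : sgB (-3) = -1 := by simp [sgB]
    rw [hs] at e1 e3 e4 e7 e8 e10 hcr he ⊢
    refine ⟨-(k1 + 2 * k2 + k10 + k4 - k3) + k7 + k8 + 1 +
      (-c + 2 * c * j - 2 * c * e - 2 * c ^ 2 - e), ?_⟩
    push_cast
    linear_combination -e1 - e2 - e10 - e4 + e3 + e7 + e8 + Real.pi * Complex.I * (c + 1 / 2) * he +
      Real.pi * Complex.I * (2 * m - j - 1 / 2) * hcr + Real.pi ^ 2 *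
        (1 / 2 - m / 2 + c - 2 * c * j + 2 * c * e + 2 * c ^ 2 + e) * Complex.I_sq

end Pool.Agent.Work.MP_b30479_gtS.G2

end

section

/-!
# The complexified volume, twist regions with a continuous variable: the formulas
-/

namespace Pool.Agent.Work.MP_b30479_gtS.G2

open Finset VOL

variable {b : ℤ} {x : Fin 3 → ℂ} {P : ℂ} {Q : ℕ → ℂ}

lemma lT_ring : lT .ring b true true x =
    Fh (x 0 - x 1 + 1 / 2) + Fh (x 0 + x 1 + 1 / 2) - 2 * Fh (x 0) +
    (Fh (x 2 - x 1 + 1 / 2) + Fh (x 2 + x 1 + 1 / 2) - 2 * Fh (x 2)) := by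
  have e0 : -Fh (x 0) = Fh (1 - x 0) := (Fh_one_sub _).symm
  have e2 : -Fh (x 2) = Fh (1 - x 2) := (Fh_one_sub _).symm
  rw [show Fh (x 0 - x 1 + 1 / 2) + Fh (x 0 + x 1 + 1 / 2) - 2 * Fh (x 0) +
    (Fh (x 2 - x 1 + 1 / 2) + Fh (x 2 + x 1 + 1 / 2) - 2 * Fh (x 2)) =
    Fh (x 0 - x 1 + 1 / 2) + Fh (x 0 + x 1 + 1 / 2) + 2 * (-Fh (x 0)) +
    (Fh (x 2 - x 1 + 1 / 2) + Fh (x 2 + x 1 + 1 / 2) + 2 * (-Fh (x 2))) by ring, e0, e2]
  simp [lT, lquad, facs, hL, hR, Fac.form, Fin.sum_univ_three, qq2, rr1]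
  ring_nf

lemma natAbs_sg (b : ℤ) (hb : b ≠ 0) : (b.natAbs : ℂ) = sgB b * b := by
  unfold sgB
  split_ifs with h
  · rw [natAbs_cast_pos h, one_mul]
  · rw [natAbs_cast_neg h, neg_one_mul]

theorem run_ring' (hb : b ≠ 0) (h0 : x 0 ∈ strip) (hu0 : x 0 - x 1 + 1 / 2 ∈ strip)
    (hv0 : x 0 + x 1 + 1 / 2 ∈ strip) (h2 : x 2 ∈ strip) (hu2 : x 2 - x 1 + 1 / 2 ∈ strip)
    (hv2 : x 2 + x 1 + 1 / 2 ∈ strip) (F : Fan P Q b.natAbs)
    (hl : Complex.exp (sgB b * (2 * Real.pi * Complex.I * x 0) + Q 0) = -Complex.exp (Q 2))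
    (hr : Complex.exp (sgB b * (2 * Real.pi * Complex.I * x 2) + Q (b.natAbs + 2)) =
      -Complex.exp (Q b.natAbs))
    (hP : Complex.exp (2 * P) = (2 * Complex.cos (Real.pi * x 1)) ^ 2)
    (hcr : rP (x 0) (x 1) + rP (x 2) (x 1) = Real.pi * Complex.I * (b * x 1 + 1)) :
    RunCS .ring b x P Q := by
  obtain ⟨δ, hδ⟩ := exists_Z (b := b) hP
  obtain ⟨Z, hZ⟩ : ∃ Z, Z = sgB b * (Real.pi * Complex.I * x 1) + Real.pi * Complex.I * δ := ⟨_, rfl⟩
  rw [← hZ] at hδ
  obtain ⟨B, FR⟩ := exists_RFan F hδ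
  obtain ⟨⟨k1, e1⟩, ⟨m1, hm1⟩, ⟨a1, ha1⟩, ⟨c1, hc1⟩⟩ := side_left hZ FR (l := 0) (by omega) h0 hu0 hv0
    (by simpa using hl)
  obtain ⟨⟨k2, e2⟩, ⟨m2, hm2⟩, ⟨a2, ha2⟩, ⟨c2, hc2⟩⟩ := side_right hZ FR (l := b.natAbs) le_rfl h2 hu2 hv2 hr
  obtain ⟨k3, e3⟩ := NN_add FR (l := 0) (by omega)
  obtain ⟨k4, e4⟩ := NN_add FR (l := b.natAbs) le_rfl
  obtain ⟨k5, e5⟩ := rs_NN FR (c := b.natAbs) le_rfl
  obtain ⟨k6, e6⟩ := Fh_fs (b := b) h0
  obtain ⟨k7, e7⟩ := Fh_fs (b := b) hu0
  obtain ⟨k8, e8⟩ := Fh_fs (b := b) hv0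
  obtain ⟨k9, e9⟩ := Fh_fs (b := b) h2
  obtain ⟨k10, e10⟩ := Fh_fs (b := b) hu2
  obtain ⟨k11, e11⟩ := Fh_fs (b := b) hv2
  have hn := natAbs_sg b hb
  have hs := sg_cases b
  unfold rP at hcr
  -- the relation of the integers
  have hint : (a1 + a2 - c1 - c2 : ℂ) = ((b.natAbs : ℂ) - 2) * δ := by
    have hpI : (2 * Real.pi * Complex.I : ℂ) ≠ 0 := Complex.two_pi_I_ne_zero
    apply mul_left_cancel₀ hpI
    unfold Bs at ha1 hc1 ha2 hc2
    push_cast at ha1 hc1 ha2 hc2 ⊢
    rw [hn] at ha2 hc2 ⊢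
    rcases hs with hs | hs <;> rw [hs] at ha1 hc1 ha2 hc2 hZ ⊢
    · subst hZ
      linear_combination -ha1 + hc1 - ha2 + hc2 - 2 * hcr
    · subst hZ
      linear_combination -ha1 + hc1 - ha2 + hc2 - 2 * hcr
  unfold RunCS lW hng
  rw [lT_ring, if_pos rfl, ldT_ring_0, ldT_ring_2]
  rw [zero_add] at e1 e3 hm1
  rw [show 0 + 1 = 1 from rfl] at e1
  unfold Bs at *
  rw [show x 0 + x 1 + 1 / 2 = x 0 + x 1 + 1 / 2 from rfl]
  generalize cmu P Z B Q 0 = U0 at *
  generalize cmv P Z B Q 0 = V0 at *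
  generalize lamc P Q 0 = M0 at *
  generalize cmu P Z B Q b.natAbs = U1 at *
  generalize cmv P Z B Q b.natAbs = V1 at *
  generalize lamc P Q b.natAbs = M1 at *
  generalize cNN P Z B Q 0 = N0 at *
  generalize cNN P Z B Q 1 = N1 at *
  generalize cNN P Z B Q b.natAbs = N2 at *
  generalize cNN P Z B Q (b.natAbs + 1) = N3 at *
  generalize rs b.natAbs P Q = RR at *
  generalize fs b (x 0) = f0 at *
  generalize fs b (x 0 - x 1 + 1 / 2) = f1 at *
  generalize fs b (x 0 + x 1 + 1 / 2) = f2 at *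
  generalize fs b (x 2) = f3 at *
  generalize fs b (x 2 - x 1 + 1 / 2) = f4 at *
  generalize fs b (x 2 + x 1 + 1 / 2) = f5 at *
  clear F FR hl hr hδ hP
  generalize Q 0 = q0 at *
  generalize Q 1 = q1 at *
  generalize Q 2 = q2 at *
  generalize Q b.natAbs = q3 at *
  generalize Q (b.natAbs + 1) = q4 at *
  generalize Q (b.natAbs + 2) = q5 at *
  subst hm1 hm2
  push_cast at e1 e2 e3 e4 e5 e6 e7 e8 e9 e10 e11 ha1 hc1 ha2 hc2 hint ⊢
  rw [hn] at e2 ha2 hc2 hint
  generalize ((b.natAbs : ℕ) : ℂ) = cnn at *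
  rcases hs with hs | hs
  · rw [hs] at e1 e2 e6 e7 e8 e9 e10 e11 ha1 hc1 ha2 hc2 hZ hint ⊢
    subst hZ
    refine ⟨2 * k5 + 2 * k3 - 2 * k4 + k1 + k2 + 2 * k6 - k7 - k8 + 2 * k9 - k10 - k11 +
      a1 + c1 - m1 + a2 + c2 - m2 + 2 * δ - 2, ?_⟩
    push_cast
    linear_combination e5 + e3 - e4 + e1 + e2 + 2 * e6 - e7 - e8 + 2 * e9 - e10 - e11 -
      Real.pi * Complex.I * (1 / 2 - x 1) * (ha1 + ha2) - Real.pi * Complex.I * (1 / 2 + x 1) * (hc1 + hc2) -
      2 * (Real.pi * Complex.I * x 1 + Real.pi * Complex.I * δ) * hcr +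
      2 * Real.pi ^ 2 * Complex.I ^ 2 * x 1 * hint +
      Real.pi ^ 2 * (m1 + m2 - 2 * δ - a1 - c1 - a2 - c2) * Complex.I_sq
  · rw [hs] at e1 e2 e6 e7 e8 e9 e10 e11 ha1 hc1 ha2 hc2 hZ hint ⊢
    subst hZ
    refine ⟨-(2 * k5 + 2 * k3 - 2 * k4 + k1 + k2) + 2 * k6 - k7 - k8 + 2 * k9 - k10 - k11 +
      a1 + c1 - m1 + a2 + c2 - m2 - 2 * δ + 2, ?_⟩
    push_cast
    linear_combination -e5 - e3 + e4 - e1 - e2 + 2 * e6 - e7 - e8 + 2 * e9 - e10 - e11 -
      Real.pi * Complex.I * (1 / 2 - x 1) * (ha1 + ha2) - Real.pi * Complex.I * (1 / 2 + x 1) * (hc1 + hc2) +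
      2 * (-Real.pi * Complex.I * x 1 + Real.pi * Complex.I * δ) * hcr +
      2 * Real.pi ^ 2 * Complex.I ^ 2 * x 1 * hint +
      Real.pi ^ 2 * (m1 + m2 + 2 * δ - a1 - c1 - a2 - c2) * Complex.I_sq

theorem end_ring' (hb : 2 ≤ b.natAbs) {w ζ : ℂ} (h0 : w ∈ strip) (hu0 : w - ζ + 1 / 2 ∈ strip)
    (hv0 : w + ζ + 1 / 2 ∈ strip) (F : FanE P Q b.natAbs)
    (hl : Complex.exp (sgB b * (2 * Real.pi * Complex.I * w) + Q 0) = -Complex.exp (Q 2))
    (hP : Complex.exp (2 * P) = (2 * Complex.cos (Real.pi * ζ)) ^ 2)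
    (hcr : rP w ζ = Real.pi * Complex.I * (b * ζ + 1)) :
    Cq (sgB b * rsE b.natAbs P Q)
      (-(2 * Real.pi * Complex.I * (Fh (w - ζ + 1 / 2) + Fh (w + ζ + 1 / 2) - 2 * Fh w)) -
        (2 * Real.pi * Complex.I * (Real.pi * Complex.I * b * ζ ^ 2 + 2 * Real.pi * Complex.I * ζ) +
          Real.pi ^ 2 * b / 2) +
        hng (sgB b * (Q 2 - Q 0)) (2 * P - 2 * Q 1) w
          (ph (w + ζ + 1 / 2) + ph (w - ζ + 1 / 2) - 2 * ph w) +
        Real.pi ^ 2 * (b / 2 - sgB b / 6)) := by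
  have hb0 : b ≠ 0 := by
    rintro rfl
    simp at hb
  obtain ⟨δ, hδ⟩ := exists_Z (b := b) hP
  obtain ⟨Z, hZ⟩ : ∃ Z, Z = sgB b * (Real.pi * Complex.I * ζ) + Real.pi * Complex.I * δ := ⟨_, rfl⟩
  rw [← hZ] at hδ
  obtain ⟨B, FR⟩ := exists_RFan F.fan hδ
  obtain ⟨⟨k1, e1⟩, ⟨m1, hm1⟩, ⟨a1, ha1⟩, ⟨c1, hc1⟩⟩ := side_left hZ FR (l := 0) (by omega) h0 hu0 hv0
    (by simpa using hl)
  obtain ⟨k3, e3⟩ := NN_add FR (l := 0) (by omega)
  obtain ⟨k5, e5⟩ := rs_NN FR (c := b.natAbs - 2) le_rfl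
  obtain ⟨k4, e4⟩ := hly_NN FR (l := b.natAbs - 2) le_rfl
  obtain ⟨k6, e6⟩ := Fh_fs (b := b) h0
  obtain ⟨k7, e7⟩ := Fh_fs (b := b) hu0
  obtain ⟨k8, e8⟩ := Fh_fs (b := b) hv0
  have hn := natAbs_sg b hb0
  have hs := sg_cases b
  -- the top of the chain
  have hn1 : ((b.natAbs - 1 : ℕ) : ℂ) = (b.natAbs : ℂ) - 1 := by
    rw [Nat.cast_sub (by omega), Nat.cast_one]
  have n1 := nn_one FR (k := b.natAbs - 1) (by omega)
  have o1 := mm_one FR (k := b.natAbs - 1) (by omega)
  rw [show b.natAbs - 1 + 1 = b.natAbs by omega] at n1 o1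
  have hz : Complex.exp Z * Complex.exp (-Z) = 1 := by
    rw [← Complex.exp_add, add_neg_cancel, Complex.exp_zero]
  have t1 : Complex.exp (Q b.natAbs - Q (b.natAbs - 1) - Z) * (Complex.exp P * Complex.exp Z) = 1 := by
    rw [← Complex.exp_add, ← Complex.exp_add]
    have h := F.top
    have : Q b.natAbs - Q (b.natAbs - 1) - Z + (P + Z) = (P + Q b.natAbs) - Q (b.natAbs - 1) := by ring
    rw [this, Complex.exp_sub, ← h, div_self (Complex.exp_ne_zero _)]
  have t2 : Complex.exp (P + B - (((b.natAbs - 1 : ℕ) : ℂ) + 1) * Z - Q (b.natAbs - 1)) * Complex.exp P =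
      Complex.exp Z := by
    have hzne := Complex.exp_ne_zero Z
    apply mul_right_cancel₀ hzne
    have h3 : Complex.exp (P + B - (((b.natAbs - 1 : ℕ) : ℂ) + 1) * Z - Q (b.natAbs - 1)) =
        1 - Complex.exp (Q b.natAbs - Q (b.natAbs - 1) - Z) := by linear_combination n1
    rw [h3]
    linear_combination Complex.exp Z * hδ - t1 + hz
  have t3 : Complex.exp (P + B - (((b.natAbs - 1 : ℕ) : ℂ) + 1) * Z - Q (b.natAbs - 1)) =
      Complex.exp (Z - P) := by
    rw [Complex.exp_sub Z P, eq_div_iff (Complex.exp_ne_zero P), t2]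
  obtain ⟨g, hg⟩ := exp_eq_int t3
  have t4 : Complex.exp (Q (b.natAbs - 1) - Q b.natAbs - Z) *
      Complex.exp (P + B - (((b.natAbs - 1 : ℕ) : ℂ) + 1) * Z - Q (b.natAbs - 1)) = 1 := by
    rw [t3, ← Complex.exp_add]
    have h := F.top
    have : Q (b.natAbs - 1) - Q b.natAbs - Z + (Z - P) = Q (b.natAbs - 1) - (P + Q b.natAbs) := by ring
    rw [this, Complex.exp_sub, h, div_self (Complex.exp_ne_zero _)]
  have t5 : Complex.exp (P - Q b.natAbs - B + ((b.natAbs - 1 : ℕ) : ℂ) * Z) *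
      Complex.exp (P + B - (((b.natAbs - 1 : ℕ) : ℂ) + 1) * Z - Q (b.natAbs - 1)) =
      -Complex.exp (Q b.natAbs - Q (b.natAbs - 1) - Z) := by
    linear_combination Complex.exp (P + B - (((b.natAbs - 1 : ℕ) : ℂ) + 1) * Z - Q (b.natAbs - 1)) * o1 -
      t4 + n1
  obtain ⟨k9, e9⟩ := rl_inv' (by rw [add_comm]; exact n1) t4 t5
  obtain ⟨k10, e10⟩ := rl_symm n1
  obtain ⟨k11, e11⟩ := rl_symm o1
  have h4 : Complex.exp (2 * Q b.natAbs) = Complex.exp (2 * P + Real.pi * Complex.I) := by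
    rw [Complex.exp_add, Complex.exp_pi_mul_I, F.fold]; ring
  obtain ⟨c, hc⟩ := exp_eq_int h4
  obtain ⟨d, hd⟩ := exp_eq_int F.top
  unfold rP at hcr
  have hy : Q b.natAbs = P + Real.pi * Complex.I / 2 + Real.pi * Complex.I * c := by
    linear_combination hc / 2
  have hB : B = ((b.natAbs : ℂ) + 1) * Z - P + Q b.natAbs + 2 * Real.pi * Complex.I * (g + d) := by
    rw [hn1, hd] at hg
    linear_combination hg
  -- the relation of the integers
  have hint : ((b.natAbs : ℂ) - 1) * δ + c + 2 * g + 2 * d = a1 - c1 := by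
    have hpI : (2 * Real.pi * Complex.I : ℂ) ≠ 0 := Complex.two_pi_I_ne_zero
    apply mul_left_cancel₀ hpI
    unfold Bs at ha1 hc1
    push_cast at ha1 hc1 ⊢
    rw [hB, hy] at ha1 hc1
    rw [hn] at ha1 hc1 ⊢
    rcases hs with hs | hs <;> rw [hs] at ha1 hc1 hZ ⊢
    · subst hZ
      linear_combination ha1 - hc1 + 2 * hcr
    · subst hZ
      linear_combination ha1 - hc1 + 2 * hcr
  unfold rsE hng
  have hNN : cNN P Z B Q (b.natAbs - 1) = cnn P Z B Q (b.natAbs - 1) + cmm P Z B Q (b.natAbs - 1) := rfl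
  have en : rl (Q b.natAbs - Q (b.natAbs - 1) - Z)
      (P + B - (((b.natAbs - 1 : ℕ) : ℂ) + 1) * Z - Q (b.natAbs - 1)) = cnn P Z B Q (b.natAbs - 1) := by
    unfold cnn
    rw [show b.natAbs - 1 + 1 = b.natAbs by omega]
  have em : rl (P - Q b.natAbs - B + ((b.natAbs - 1 : ℕ) : ℂ) * Z) (Q (b.natAbs - 1) - Q b.natAbs - Z) =
      cmm P Z B Q (b.natAbs - 1) := by
    unfold cmm
    rw [show b.natAbs - 1 + 1 = b.natAbs by omega]
  rw [en] at e10
  rw [em] at e11
  rw [zero_add] at e1 e3 hm1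
  rw [show 0 + 1 = 1 from rfl] at e1
  rw [show b.natAbs - 2 + 1 = b.natAbs - 1 by omega] at e4 e5
  unfold Bs at *
  generalize rl (P + B - (((b.natAbs - 1 : ℕ) : ℂ) + 1) * Z - Q (b.natAbs - 1))
    (Q b.natAbs - Q (b.natAbs - 1) - Z) = R1 at *
  generalize rl (Q (b.natAbs - 1) - Q b.natAbs - Z)
    (P - Q b.natAbs - B + ((b.natAbs - 1 : ℕ) : ℂ) * Z) = R2 at *
  generalize cnn P Z B Q (b.natAbs - 1) = nn1 at *
  generalize cmm P Z B Q (b.natAbs - 1) = mm1 at *
  generalize cmu P Z B Q 0 = U0 at *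
  generalize cmv P Z B Q 0 = V0 at *
  generalize lamc P Q 0 = M0 at *
  generalize cNN P Z B Q 0 = N0 at *
  generalize cNN P Z B Q 1 = N1 at *
  generalize cNN P Z B Q (b.natAbs - 2) = N2 at *
  generalize cNN P Z B Q (b.natAbs - 1) = N3 at *
  generalize rs (b.natAbs - 2) P Q = RR at *
  generalize hly P Q (b.natAbs - 2) = HH at *
  generalize fs b w = f0 at *
  generalize fs b (w - ζ + 1 / 2) = f1 at *
  generalize fs b (w + ζ + 1 / 2) = f2 at *
  clear F FR hl hδ hP en em h4 t1 t2 t3 t4 t5 n1 o1 hc hg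
  rw [hn1] at e9
  generalize Q 0 = q0 at *
  generalize Q 1 = q1 at *
  generalize Q 2 = q2 at *
  generalize Q (b.natAbs - 1) = q4 at *
  generalize Q b.natAbs = q3 at *
  subst hm1 hd hy
  push_cast at e1 e3 e4 e5 e6 e7 e8 e9 e10 e11 ha1 hc1 hint ⊢
  rw [hn] at e9 hB hint
  generalize ((b.natAbs : ℕ) : ℂ) = cnn at *
  rcases hs with hs | hs
  · rw [hs] at e1 e6 e7 e8 e9 ha1 hc1 hZ hint hB ⊢
    subst hZ hB
    refine ⟨2 * k5 + 2 * k3 + 2 * k4 + k1 + 2 * k6 - k7 - k8 + 2 * k9 - 4 * k10 - 4 * k11 -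
      (-2 * c - 4 * c * d - 2 * c * δ - 4 * c * g - 2 * c ^ 2 - 2 * d - 4 * d * δ - 8 * d * g - 4 * d ^ 2 +
        m1 - 3 * δ - 4 * δ * g - 2 * g - 4 * g ^ 2 - a1 - c1), ?_⟩
    push_cast
    linear_combination e5 + e3 + e4 + e1 + 2 * e6 - e7 - e8 - 2 * hNN - 2 * e10 - 2 * e11 +
      2 * e9 -
      Real.pi * Complex.I * (1 / 2 - ζ) * ha1 - Real.pi * Complex.I * (1 / 2 + ζ) * hc1 -
      2 * (Real.pi * Complex.I * ζ + Real.pi * Complex.I * δ) * hcr -
      2 * Real.pi ^ 2 * Complex.I ^ 2 * ζ * hint + Real.pi ^ 2 *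
      (-2 * c - 4 * c * d - 2 * c * δ - 4 * c * g - 2 * c ^ 2 - 2 * d - 4 * d * δ - 8 * d * g - 4 * d ^ 2 +
        m1 - 3 * δ - 4 * δ * g - 2 * g - 4 * g ^ 2 - a1 - c1 - 1 / 2) * Complex.I_sq
  · rw [hs] at e1 e6 e7 e8 e9 ha1 hc1 hZ hint hB ⊢
    subst hZ hB
    refine ⟨-(2 * k5 + 2 * k3 + 2 * k4 + k1 + 2 * k9 - 4 * k10 - 4 * k11) + 2 * k6 - k7 - k8 -
      (2 * c + 4 * c * d + 2 * c * δ + 4 * c * g + 2 * c ^ 2 + 2 * d + 4 * d * δ + 8 * d * g + 4 * d ^ 2 +
        m1 + 3 * δ + 4 * δ * g + 2 * g + 4 * g ^ 2 - a1 - c1), ?_⟩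
    push_cast
    linear_combination -e5 - e3 - e4 - e1 + 2 * e6 - e7 - e8 + 2 * hNN + 2 * e10 + 2 * e11 -
      2 * e9 -
      Real.pi * Complex.I * (1 / 2 - ζ) * ha1 - Real.pi * Complex.I * (1 / 2 + ζ) * hc1 +
      2 * (-Real.pi * Complex.I * ζ + Real.pi * Complex.I * δ) * hcr -
      2 * Real.pi ^ 2 * Complex.I ^ 2 * ζ * hint + Real.pi ^ 2 *
      (2 * c + 4 * c * d + 2 * c * δ + 4 * c * g + 2 * c ^ 2 + 2 * d + 4 * d * δ + 8 * d * g + 4 * d ^ 2 +
        m1 + 3 * δ + 4 * δ * g + 2 * g + 4 * g ^ 2 - a1 - c1 + 1 / 2) * Complex.I_sq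

end Pool.Agent.Work.MP_b30479_gtS.G2

end

section

/-!
# At a critical point the real part of the potential is a sum of Bloch-Wigner values
-/

namespace Pool.Agent.Work.MP_b30479_gtS.G2

open Finset VOL
open Pool.Agent.Work.MP_b30479_gtS.LT (BW BW_ee)

variable {D Z K : Type} [Fintype D] [Fintype Z] [Fintype K] [DecidableEq D]

theorem vol_dat (S : Dat D Z K) (hq : ∀ i j, (S.q i j).re = 0) (hr : ∀ i, (S.r i).re = 0)
    {z : D ⊕ Z → ℂ} (hin : ∀ k, 0 < (S.form k z).re ∧ (S.form k z).re < 1)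
    (hc : ∀ i, S.dT z i = 0) :
    2 * Real.pi * (S.T z).re = -∑ k, BW (LT.ee (S.form k z)) := by
  have hB : ∀ k, BW (LT.ee (S.form k z)) =
      -(2 * Real.pi * ((Fh (S.form k z)).re + (S.form k z).im * (ph (S.form k z)).im)) :=
    fun k => BW_ee (hin k)
  rw [sum_congr rfl fun k _ => hB k, sum_neg_distrib, neg_neg, ← mul_sum]
  congr 1
  rw [sum_add_distrib]
  unfold Dat.T
  rw [Complex.add_re, Complex.re_sum, add_comm]
  congr 1
  -- the imaginary part of a form
  have e1 : ∀ k, (S.form k z).im = ∑ i, S.A k i * (z i).im := by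
    intro k
    unfold Dat.form
    rw [Complex.add_im, Complex.ofReal_im, zero_add, Complex.im_sum]
    refine sum_congr rfl fun i _ => ?_
    rw [show ((S.A k i : ℤ) : ℂ) = ((S.A k i : ℝ) : ℂ) by push_cast; rfl, Complex.im_ofReal_mul]
  have e2 : ∑ k, (S.form k z).im * (ph (S.form k z)).im =
      ∑ i, (z i).im * (∑ k, S.A k i * ph (S.form k z)).im := by
    simp_rw [e1, sum_mul]
    rw [sum_comm]
    refine sum_congr rfl fun i _ => ?_
    rw [Complex.im_sum, mul_sum]
    refine sum_congr rfl fun k _ => ?_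
    rw [show ((S.A k i : ℤ) : ℂ) = ((S.A k i : ℝ) : ℂ) by push_cast; rfl, Complex.im_ofReal_mul]
    ring
  have e3 : ∀ i, (∑ k, S.A k i * ph (S.form k z)).im =
      -((∑ j, (S.q i j + S.q j i) * z j).im + (S.r i).im +
        (Sum.elim (fun _ => 0) (fun v => 2 * Real.pi * Complex.I * (S.b v * z (.inr v) + 1)) i).im) := by
    intro i
    have h := congrArg Complex.im (hc i)
    unfold Dat.dT at h
    simp only [Complex.add_im, Complex.zero_im] at h
    linarith
  rw [e2]
  simp_rw [e3]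
  -- the quadratic part
  have q1 : ∀ i j, ((S.q i j + S.q j i) * z j).im = ((S.q i j).im + (S.q j i).im) * (z j).re := by
    intro i j
    rw [Complex.mul_im, Complex.add_re, Complex.add_im, hq, hq]
    ring
  have q2 : S.quad z = S.quad z := rfl
  have q3 : (S.quad z).re = -∑ i, ((z i).im * ∑ j, ((S.q i j).im + (S.q j i).im) * (z j).re) -
      ∑ i, (S.r i).im * (z i).im := by
    unfold Dat.quad
    rw [Complex.add_re, Complex.re_sum, Complex.re_sum]
    have a1 : ∀ i, (S.r i * z i).re = -((S.r i).im * (z i).im) := by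
      intro i
      rw [Complex.mul_re, hr]
      ring
    rw [sum_congr rfl fun i _ => a1 i, sum_neg_distrib, sub_eq_add_neg]
    congr 1
    have a2 : ∀ i j, (S.q i j * z i * z j).re =
        -((z i).im * ((S.q i j).im * (z j).re)) - (z j).im * ((S.q i j).im * (z i).re) := by
      intro i j
      rw [Complex.mul_re, Complex.mul_re, Complex.mul_im, hq]
      ring
    have a3 : ∑ i, (∑ j, S.q i j * z i * z j).re =
        -∑ i, ∑ j, (z i).im * ((S.q i j).im * (z j).re) -
          ∑ i, ∑ j, (z j).im * ((S.q i j).im * (z i).re) := by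
      rw [← sum_neg_distrib, ← sum_sub_distrib]
      refine sum_congr rfl fun i _ => ?_
      rw [Complex.re_sum, ← sum_neg_distrib, ← sum_sub_distrib]
      exact sum_congr rfl fun j _ => a2 i j
    rw [a3, sum_comm (s := univ) (t := univ) (f := fun i j => (z j).im * ((S.q i j).im * (z i).re)),
      neg_sub_left, ← sum_add_distrib]
    congr 1
    refine sum_congr rfl fun i _ => ?_
    rw [← sum_add_distrib, mul_sum]
    refine sum_congr rfl fun j _ => ?_
    ring
  have q4 : (∑ v, (Real.pi * Complex.I * S.b v * z (.inr v) ^ 2 +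
      2 * Real.pi * Complex.I * z (.inr v))).re =
      -∑ i, (z i).im * (Sum.elim (fun _ => 0)
        (fun v => 2 * Real.pi * Complex.I * (S.b v * z (.inr v) + 1)) i).im := by
    rw [Complex.re_sum, Fintype.sum_sum_type]
    simp only [Sum.elim_inl, Sum.elim_inr, Complex.zero_im, mul_zero, sum_const_zero, zero_add]
    rw [← sum_neg_distrib]
    refine sum_congr rfl fun v _ => ?_
    have a1 : (2 * Real.pi * Complex.I * (S.b v * z (.inr v) + 1) : ℂ).im =
        2 * Real.pi * (S.b v * (z (.inr v)).re + 1) := by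
      simp [Complex.mul_re, Complex.mul_im]
    rw [a1, sq]
    simp [Complex.mul_re, Complex.mul_im]
    ring
  rw [Complex.add_re, q3, q4]
  have q5 : ∀ i, (z i).im * -((∑ j, (S.q i j + S.q j i) * z j).im + (S.r i).im +
        (Sum.elim (fun _ => 0) (fun v => 2 * Real.pi * Complex.I * (S.b v * z (.inr v) + 1)) i).im) =
      -((z i).im * ∑ j, ((S.q i j).im + (S.q j i).im) * (z j).re) - (S.r i).im * (z i).im -
        (z i).im * (Sum.elim (fun _ => 0)
          (fun v => 2 * Real.pi * Complex.I * (S.b v * z (.inr v) + 1)) i).im := by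
    intro i
    rw [Complex.im_sum, sum_congr rfl fun j _ => q1 i j]
    ring
  rw [sum_congr rfl fun i _ => q5 i, sum_sub_distrib, sum_sub_distrib, sum_neg_distrib]
  ring

end Pool.Agent.Work.MP_b30479_gtS.G2

end

section

/-!
# From the saddle point to the gluing equations and the volume

`Y_j = e^{2πi w_j}`.  For every twist region `exp (ldT ..)` at a hinge is `hf` of the chain, so that
`dT = 0` at the hinge `j` is the equation `turn`; the equation of the inner variable gives the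
missing edge equation.  The volume: `vol_dat` and, for every twist region, the five-term or the
seven-term relation.
-/

namespace Pool.Agent.Work.MP_b30479_gtS.G2

open Finset VOL
open Pool.Agent.Work.MP_b30479_gtS.LT (ee BW)

/-- the types which are used: `threeR` at the left end, `threeL` at the right end -/
structure GTyp {M : ℕ} (b : Fin (M + 2) → ℤ) (t : Fin (M + 2) → Typ) : Prop where
  ok : ∀ i, (t i).IsOk (b i)
  four : ∀ i, t i ≠ .fourL ∧ t i ≠ .fourR
  ring : ∀ i, 2 ≤ (b i).natAbs ∨ t i = .one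
  first : t 0 ≠ .one ∧ t 0 ≠ .threeL
  last : t (Fin.last (M + 1)) ≠ .one ∧ t (Fin.last (M + 1)) ≠ .threeR

/-- the chain of an inner twist region; local variables `x` -/
noncomputable def lU (t : Typ) (b : ℤ) (x : Fin 3 → ℂ) (l : ℕ) : ℂ :=
  match t with
  | .one => if l = 0 then hat b (ee (x 0)) else (hat b (ee (x 2)))⁻¹
  | .two => if l = 0 then hat b (ee (x 0)) else if l = 1 then u2 (hat b (ee (x 0))) (hat b (ee (x 2)))
      else (hat b (ee (x 2)))⁻¹
  | .threeL => if l = 0 then hat b (ee (x 0)) else if l = 1 then hat b (ee (x 1)) else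
      if l = 2 then u2 (hat b (ee (x 1))) (hat b (ee (x 2))) else (hat b (ee (x 2)))⁻¹
  | .threeR => if l = 0 then hat b (ee (x 0)) else
      if l = 1 then u2 (hat b (ee (x 0))) (hat b (ee (x 1))) else
      if l = 2 then (hat b (ee (x 1)))⁻¹ else (hat b (ee (x 2)))⁻¹
  | .fourL => 0
  | .fourR => 0
  | .ring => rC b (x 0) (x 1) l

/-- the chain of a twist region at an end of the word; `w` is the hinge and `m` the inner variable -/
noncomputable def lE (t : Typ) (b : ℤ) (w m : ℂ) (l : ℕ) : ℂ :=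
  match t with
  | .one => 0
  | .two => if l = 0 then hat b (ee w) else 0
  | .threeL => if l = 0 then hat b (ee w) else if l = 1 then hat b (ee m) else 0
  | .threeR => if l = 0 then hat b (ee w) else if l = 1 then hat b (ee m) else 0
  | .fourL => 0
  | .fourR => 0
  | .ring => rC b w m l

section
variable {M : ℕ} (b : Fin (M + 2) → ℤ) (t : Fin (M + 2) → Typ)
  (z : DD (M := M + 1) t ⊕ ZZ (M := M + 1) t → ℂ)

/-- the shapes of the turning points -/
noncomputable def gY (j : Fin (M + 1)) : ℂ := ee (z (.inl (.inl j)))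

/-- the chains -/
noncomputable def gU (i : Fin (M + 2)) : ℕ → ℂ :=
  if i = 0 then lE (t i) (b i) (xx t i z 2) (xx t i z 1)
  else if i = Fin.last (M + 1) then lE (t i) (b i) (xx t i z 0) (xx t i z 1)
  else lU (t i) (b i) (xx t i z)

/-- nondegeneracy of the rings -/
structure GNv : Prop where
  sz : ∀ i, t i = .ring → Complex.sin (2 * Real.pi * xx t i z 1) ≠ 0
  first : t 0 = .ring → Nv (b 0) (xx t 0 z 2) (xx t 0 z 1)
  nv : ∀ i, i ≠ 0 → t i = .ring → Nv (b i) (xx t i z 0) (xx t i z 1)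

end

/-! ### local variables -/

section
variable {M : ℕ} {b : Fin (M + 2) → ℤ} {t : Fin (M + 2) → Typ}
  {z : DD (M := M + 1) t ⊕ ZZ (M := M + 1) t → ℂ}

lemma fac_strip (hin : ∀ k, 0 < ((wdat (M := M + 1) t b).form k z).re ∧
    ((wdat (M := M + 1) t b).form k z).re < 1) (i : Fin (M + 2)) {f : Fac}
    (hf : f ∈ facs (t i) (decide (i ≠ 0)) (decide (i ≠ Fin.last (M + 1)))) :
    f.form (xx t i z) ∈ strip := by
  obtain ⟨n, hn⟩ := List.get_of_mem hf
  have h := hin ⟨i, n⟩
  rw [wdat_form] at h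
  have e : fac t ⟨i, n⟩ = f := hn
  rw [e] at h
  exact h

lemma cf_hinge (h : Fin (M + 1)) (F : Fin (M + 2) → Fin 3 → ℂ) :
    ∑ i, ∑ p, (cf (M := M + 1) t i p (.inl (.inl h)) : ℂ) * F i p = F h.castSucc 2 + F h.succ 0 := by
  have e : ∀ i, ∑ p, (cf (M := M + 1) t i p (.inl (.inl h)) : ℂ) * F i p =
      (if h.succ = i then F i 0 else 0) + (if h.castSucc = i then F i 2 else 0) := by
    intro i
    rw [Fin.sum_univ_three]
    by_cases h1 : h.succ = i <;> by_cases h2 : h.castSucc = i <;> simp [cf, h1, h2]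
  rw [Finset.sum_congr rfl fun i _ => e i, Finset.sum_add_distrib]
  simp [add_comm]

lemma cf_mid (m : {i : Fin (M + 2) // (t i).isMid = true}) (F : Fin (M + 2) → Fin 3 → ℂ) :
    ∑ i, ∑ p, (cf (M := M + 1) t i p (.inl (.inr m)) : ℂ) * F i p = F m.1 1 := by
  have e : ∀ i, ∑ p, (cf (M := M + 1) t i p (.inl (.inr m)) : ℂ) * F i p =
      (if m.1 = i then F i 1 else 0) := by
    intro i
    rw [Fin.sum_univ_three]
    by_cases h1 : m.1 = i <;> simp [cf, h1]
  rw [Finset.sum_congr rfl fun i _ => e i]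
  simp

lemma cf_ring (v : ZZ (M := M + 1) t) (F : Fin (M + 2) → Fin 3 → ℂ) :
    ∑ i, ∑ p, (cf (M := M + 1) t i p (.inr v) : ℂ) * F i p = F v.1 1 := by
  have e : ∀ i, ∑ p, (cf (M := M + 1) t i p (.inr v) : ℂ) * F i p =
      (if v.1 = i then F i 1 else 0) := by
    intro i
    rw [Fin.sum_univ_three]
    by_cases h1 : v.1 = i <;> simp [cf, h1]
  rw [Finset.sum_congr rfl fun i _ => e i]
  simp

/-- the equation of a hinge -/
lemma grT_hinge (hc : ∀ i, (wdat (M := M + 1) t b).dT z i = 0) (h : Fin (M + 1)) :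
    ldT (t h.castSucc) (b h.castSucc) (decide (h.castSucc ≠ 0)) true (xx t h.castSucc z) 2 +
      ldT (t h.succ) (b h.succ) true (decide (h.succ ≠ Fin.last (M + 1))) (xx t h.succ z) 0 = 0 := by
  have h1 := hc (.inl (.inl h))
  rw [wdat_dT, cf_hinge] at h1
  simpa [Fin.castSucc_ne_last, Fin.succ_ne_zero] using h1

/-- the equation of an inner variable -/
lemma grT_mid (hc : ∀ i, (wdat (M := M + 1) t b).dT z i = 0) {i : Fin (M + 2)}
    (hi : (t i).isMid = true) :
    ldT (t i) (b i) (decide (i ≠ 0)) (decide (i ≠ Fin.last (M + 1))) (xx t i z) 1 = 0 := by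
  have h1 := hc (.inl (.inr ⟨i, hi⟩))
  rw [wdat_dT, cf_mid] at h1
  simpa using h1

/-- the equation of a ring variable -/
lemma grT_ring (hc : ∀ i, (wdat (M := M + 1) t b).dT z i = 0) {i : Fin (M + 2)}
    (hi : t i = .ring) :
    ((if i ≠ 0 then rP (xx t i z 0) (xx t i z 1) else 0) +
      if i ≠ Fin.last (M + 1) then rP (xx t i z 2) (xx t i z 1) else 0) =
      Real.pi * Complex.I * (b i * xx t i z 1 + 1) := by
  have hi' : (t i).isRing = true := by rw [hi]; rfl
  have h1 := hc (.inr ⟨i, hi'⟩)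
  rw [wdat_dT, cf_ring] at h1
  simp only [Sum.elim_inr] at h1
  rw [hi, ldT_ring_1, ← xx_ring t hi' z] at h1
  simp only [decide_eq_true_eq] at h1
  split_ifs at h1 ⊢ <;> linear_combination -h1 / 2

end

/-! ### the chain of a twist region -/

/-- the arguments of all factors are in the strip -/
def LS (t : Typ) (l r : Bool) (x : Fin 3 → ℂ) : Prop := ∀ f ∈ facs t l r, f.form x ∈ strip

/-- the chain of a twist region; `l`, `r`: there is a left (right) hinge -/
noncomputable def lC (t : Typ) (b : ℤ) (l r : Bool) (x : Fin 3 → ℂ) : ℕ → ℂ :=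
  if l = false then lE t b (x 2) (x 1) else if r = false then lE t b (x 0) (x 1) else lU t b x

lemma lC_false (t : Typ) (b : ℤ) (r : Bool) (x : Fin 3 → ℂ) :
    lC t b false r x = lE t b (x 2) (x 1) := rfl

lemma lC_tf (t : Typ) (b : ℤ) (x : Fin 3 → ℂ) : lC t b true false x = lE t b (x 0) (x 1) := rfl

lemma lC_tt (t : Typ) (b : ℤ) (x : Fin 3 → ℂ) : lC t b true true x = lU t b x := rfl

section
variable {b : ℤ} {l r : Bool} {x : Fin 3 → ℂ}

lemma LS_one_l (h : LS .one true r x) : x 0 ∈ strip ∧ x 0 + x 2 ∈ strip := by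
  have h1 := h ⟨![1, 0, 1], 0, 1 / 2⟩ (by simp [facs])
  have h2 := h ⟨![-1, 0, 0], 1, -(1 / 2)⟩ (by simp [facs])
  simp only [Fac.form, Fin.sum_univ_three] at h1 h2
  simp at h1 h2
  exact ⟨strip_one_sub'.mp (by rwa [sub_eq_add_neg]), h1⟩

lemma LS_one_r (h : LS .one l true x) : x 2 ∈ strip ∧ x 0 + x 2 ∈ strip := by
  have h1 := h ⟨![1, 0, 1], 0, 1 / 2⟩ (by simp [facs])
  have h2 := h ⟨![0, 0, -1], 1, -(1 / 2)⟩ (by simp [facs])
  simp only [Fac.form, Fin.sum_univ_three] at h1 h2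
  simp at h1 h2
  exact ⟨strip_one_sub'.mp (by rwa [sub_eq_add_neg]), h1⟩

lemma LS_two_l (h : LS .two true r x) : x 0 ∈ strip ∧ x 0 + x 2 ∈ strip := by
  have h1 := h ⟨![1, 0, 1], 0, 1 / 2⟩ (by simp [facs])
  have h2 := h ⟨![-1, 0, 0], 1, -(1 / 2)⟩ (by simp [facs, hL])
  simp only [Fac.form, Fin.sum_univ_three] at h1 h2
  simp at h1 h2
  exact ⟨strip_one_sub'.mp (by rwa [sub_eq_add_neg]), h1⟩

lemma LS_two_r (h : LS .two l true x) : x 2 ∈ strip ∧ x 0 + x 2 ∈ strip := by
  have h1 := h ⟨![1, 0, 1], 0, 1 / 2⟩ (by simp [facs])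
  have h2 := h ⟨![0, 0, -1], 1, -(1 / 2)⟩ (by simp [facs, hR])
  simp only [Fac.form, Fin.sum_univ_three] at h1 h2
  simp at h1 h2
  exact ⟨strip_one_sub'.mp (by rwa [sub_eq_add_neg]), h1⟩

lemma LS_threeL (h : LS .threeL l r x) : x 1 ∈ strip ∧ x 1 + x 2 ∈ strip ∧ x 1 - x 0 ∈ strip := by
  have h1 := h ⟨![0, 1, 1], 0, 1 / 2⟩ (by simp [facs])
  have h2 := h ⟨![1, -1, 0], 1, -(1 / 2)⟩ (by simp [facs])
  have h3 := h ⟨![0, -1, 0], 1, -(1 / 2)⟩ (by simp [facs])
  simp only [Fac.form, Fin.sum_univ_three] at h1 h2 h3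
  simp at h1 h2 h3
  exact ⟨strip_one_sub'.mp (by rwa [sub_eq_add_neg]), h1,
    strip_one_sub'.mp (by rwa [show 1 - (x 1 - x 0) = 1 + (x 0 + -x 1) by ring])⟩

lemma LS_threeL_l (h : LS .threeL true r x) : x 0 ∈ strip := by
  have h2 := h ⟨![-1, 0, 0], 1, -(1 / 2)⟩ (by simp [facs])
  simp only [Fac.form, Fin.sum_univ_three] at h2
  simp at h2
  exact strip_one_sub'.mp (by rwa [sub_eq_add_neg])

lemma LS_threeL_r (h : LS .threeL l true x) : x 2 ∈ strip := by
  have h2 := h ⟨![0, 0, -1], 1, -(1 / 2)⟩ (by simp [facs, hR])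
  simp only [Fac.form, Fin.sum_univ_three] at h2
  simp at h2
  exact strip_one_sub'.mp (by rwa [sub_eq_add_neg])

lemma LS_threeR (h : LS .threeR l r x) : x 1 ∈ strip ∧ x 0 + x 1 ∈ strip ∧ x 1 - x 2 ∈ strip := by
  have h1 := h ⟨![1, 1, 0], 0, 1 / 2⟩ (by simp [facs])
  have h2 := h ⟨![0, -1, 1], 1, -(1 / 2)⟩ (by simp [facs])
  have h3 := h ⟨![0, -1, 0], 1, -(1 / 2)⟩ (by simp [facs])
  simp only [Fac.form, Fin.sum_univ_three] at h1 h2 h3
  simp at h1 h2 h3
  exact ⟨strip_one_sub'.mp (by rwa [sub_eq_add_neg]), h1,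
    strip_one_sub'.mp (by rwa [show 1 - (x 1 - x 2) = 1 + (-x 1 + x 2) by ring])⟩

lemma LS_threeR_l (h : LS .threeR true r x) : x 0 ∈ strip := by
  have h2 := h ⟨![-1, 0, 0], 1, -(1 / 2)⟩ (by simp [facs, hL])
  simp only [Fac.form, Fin.sum_univ_three] at h2
  simp at h2
  exact strip_one_sub'.mp (by rwa [sub_eq_add_neg])

lemma LS_threeR_r (h : LS .threeR l true x) : x 2 ∈ strip := by
  have h2 := h ⟨![0, 0, -1], 1, -(1 / 2)⟩ (by simp [facs])
  simp only [Fac.form, Fin.sum_univ_three] at h2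
  simp at h2
  exact strip_one_sub'.mp (by rwa [sub_eq_add_neg])

lemma LS_ring_l (h : LS .ring true r x) (hs : Complex.sin (2 * Real.pi * x 1) ≠ 0) :
    RHg (x 0) (x 1) := by
  have h1 := h ⟨![1, 1, 0], 1 / 2, 0⟩ (by simp [facs])
  have h2 := h ⟨![1, -1, 0], 1 / 2, 0⟩ (by simp [facs])
  have h3 := h ⟨![-1, 0, 0], 1, -(1 / 2)⟩ (by simp [facs, hL])
  simp only [Fac.form, Fin.sum_univ_three] at h1 h2 h3
  simp at h1 h2 h3
  exact ⟨strip_one_sub'.mp (by rwa [sub_eq_add_neg]),
    by rwa [show x 0 + x 1 + 1 / 2 = 2⁻¹ + (x 0 + x 1) by ring],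
    by rwa [show x 0 - x 1 + 1 / 2 = 2⁻¹ + (x 0 + -x 1) by ring], hs⟩

lemma LS_ring_r (h : LS .ring l true x) (hs : Complex.sin (2 * Real.pi * x 1) ≠ 0) :
    RHg (x 2) (x 1) := by
  have h1 := h ⟨![0, 1, 1], 1 / 2, 0⟩ (by simp [facs])
  have h2 := h ⟨![0, -1, 1], 1 / 2, 0⟩ (by simp [facs])
  have h3 := h ⟨![0, 0, -1], 1, -(1 / 2)⟩ (by simp [facs, hR])
  simp only [Fac.form, Fin.sum_univ_three] at h1 h2 h3
  simp at h1 h2 h3
  exact ⟨strip_one_sub'.mp (by rwa [sub_eq_add_neg]),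
    by rwa [show x 2 + x 1 + 1 / 2 = 2⁻¹ + (x 1 + x 2) by ring],
    by rwa [show x 2 - x 1 + 1 / 2 = 2⁻¹ + (-x 1 + x 2) by ring], hs⟩

/-- the local hypotheses of a twist region -/
structure LH (t : Typ) (b : ℤ) (l r : Bool) (x : Fin 3 → ℂ) : Prop where
  ls : LS t l r x
  ok : t.IsOk b
  big : 2 ≤ b.natAbs ∨ t = .one
  four : t ≠ .fourL ∧ t ≠ .fourR
  lr : l = true ∨ r = true
  l0 : l = false → x 0 = 0 ∧ t ≠ .one ∧ t ≠ .threeL
  rr0 : r = false → x 2 = 0 ∧ t ≠ .one ∧ t ≠ .threeR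
  mid : t.isMid = true → ldT t b l r x 1 = 0
  ring : t = .ring → Complex.sin (2 * Real.pi * x 1) ≠ 0 ∧
    ((if l = true then rP (x 0) (x 1) else 0) + if r = true then rP (x 2) (x 1) else 0) =
      Real.pi * Complex.I * (b * x 1 + 1) ∧
    (l = false → Nv b (x 2) (x 1)) ∧ (l = true → Nv b (x 0) (x 1))

lemma ee_zero : ee 0 = 1 := by
  unfold ee
  simp

lemma hat_zero (b : ℤ) : hat b (ee 0) = 1 := by
  unfold hat
  rw [ee_zero]
  split_ifs <;> simp

variable {t : Typ}

lemma hf_l (h : LH t b true r x) : Complex.exp (ldT t b true r x 0) = hf b (ee (x 0)) (lC t b true r x 1) := by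
  cases t with
  | one =>
    obtain ⟨h1, h2⟩ := LS_one_l h.ls
    rw [ldT_one_0, e_one h1 h2]
    cases r with
    | true => rfl
    | false => exact absurd rfl (h.rr0 rfl).2.1
  | two =>
    obtain ⟨h1, h2⟩ := LS_two_l h.ls
    rw [ldT_two_0, e_two h1 h2]
    cases r with
    | true => rfl
    | false =>
      rw [(h.rr0 rfl).1, hat_zero, u2_one]
      rfl
  | threeL =>
    obtain ⟨h1, h2, h3⟩ := LS_threeL h.ls
    rw [ldT_threeL_0, e_three0 (LS_threeL_l h.ls) h3]
    cases r <;> rfl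
  | threeR =>
    obtain ⟨h1, h2, h3⟩ := LS_threeR h.ls
    rw [ldT_threeR_0, e_two (LS_threeR_l h.ls) h2]
    cases r with
    | true => rfl
    | false => exact absurd rfl (h.rr0 rfl).2.2
  | fourL => exact absurd rfl h.four.1
  | fourR => exact absurd rfl h.four.2
  | ring =>
    have h1 := LS_ring_l h.ls (h.ring rfl).1
    rw [ldT_ring_0, ← ring_hf (b := b) h1]
    cases r <;> rfl

lemma hf_r (h : LH t b l true x) : Complex.exp (ldT t b l true x 2) =
    hf b (ee (x 2)) (if l = false then lC t b l true x 1 else (lC t b l true x (b.natAbs - 1))⁻¹) := by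
  have hok := h.ok
  cases t with
  | one =>
    obtain ⟨h1, h2⟩ := LS_one_r h.ls
    have hb : b.natAbs = 1 := hok
    rw [ldT_one_2, add_comm (x 0), e_one h1 (by rwa [add_comm])]
    cases l with
    | true =>
      rw [if_neg (by simp), hb]
      rfl
    | false => exact absurd rfl (h.l0 rfl).2.1
  | two =>
    obtain ⟨h1, h2⟩ := LS_two_r h.ls
    have hb : b.natAbs = 2 := hok
    rw [ldT_two_2, add_comm (x 0), e_two h1 (by rwa [add_comm])]
    cases l with
    | true =>
      rw [if_neg (by simp), hb, ← u2_inv]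
      rfl
    | false =>
      rw [(h.l0 rfl).1, hat_zero, u2_one, if_pos rfl]
      rfl
  | threeL =>
    obtain ⟨h1, h2, h3⟩ := LS_threeL h.ls
    have hb : b.natAbs = 3 := hok
    rw [ldT_threeL_2, add_comm (x 1), e_two (LS_threeL_r h.ls) (by rwa [add_comm])]
    cases l with
    | true =>
      rw [if_neg (by simp), hb, ← u2_inv]
      rfl
    | false => exact absurd rfl (h.l0 rfl).2.2
  | threeR =>
    obtain ⟨h1, h2, h3⟩ := LS_threeR h.ls
    have hb : b.natAbs = 3 := hok
    rw [ldT_threeR_2, e_three0 (LS_threeR_r h.ls) h3]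
    cases l with
    | true =>
      rw [if_neg (by simp), hb, ← inv_inv (hat b (ee (x 1)))]
      rfl
    | false => rfl
  | fourL => exact absurd rfl h.four.1
  | fourR => exact absurd rfl h.four.2
  | ring =>
    have h1 := LS_ring_r h.ls (h.ring rfl).1
    cases l with
    | true =>
      have h2 := (h.ring rfl).2.1
      simp only [if_true] at h2
      rw [ldT_ring_2, if_neg (by simp)]
      exact (ring_hf' hok h1 h2).symm
    | false =>
      rw [ldT_ring_2, if_pos rfl]
      exact (ring_hf (b := b) h1).symm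

lemma ring_eq_tt (h : LH .ring b true true x) :
    rP (x 0) (x 1) + rP (x 2) (x 1) = Real.pi * Complex.I * (b * x 1 + 1) := by
  have h2 := (h.ring rfl).2.1
  simpa using h2

lemma run_tt (h : LH t b true true x) : Run b (ee (x 0)) (ee (x 2)) (lC t b true true x) := by
  have hok := h.ok
  cases t with
  | one =>
    have hb : b.natAbs = 1 := hok
    refine ⟨rfl, ?_, fun l hl => absurd hl (by omega)⟩
    rw [hb]
    exact inv_mul_cancel₀ (hat_ne b (x 2))
  | two =>
    obtain ⟨h1, h2⟩ := LS_two_l h.ls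
    have hb : b.natAbs = 2 := hok
    refine ⟨rfl, ?_, fun l hl => ?_⟩
    · rw [hb]
      exact inv_mul_cancel₀ (hat_ne b (x 2))
    · obtain rfl : l = 0 := by omega
      exact u2_edge (one_sub_hat b h1) (hat_ne b (x 2))
  | threeL =>
    obtain ⟨h1, h2, h3⟩ := LS_threeL h.ls
    have hb : b.natAbs = 3 := hok
    refine ⟨rfl, ?_, fun l hl => ?_⟩
    · rw [hb]
      exact inv_mul_cancel₀ (hat_ne b (x 2))
    · have hm := h.mid rfl
      rw [ldT_threeL_1] at hm
      have hm' := e_three1 (b := b) h1 h2 h3 (by rw [hm, Complex.exp_zero])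
      rcases (by omega : l = 0 ∨ l = 1) with rfl | rfl
      · exact hm'
      · exact u2_edge (one_sub_hat b h1) (hat_ne b (x 2))
  | threeR =>
    obtain ⟨h1, h2, h3⟩ := LS_threeR h.ls
    have hb : b.natAbs = 3 := hok
    refine ⟨rfl, ?_, fun l hl => ?_⟩
    · rw [hb]
      exact inv_mul_cancel₀ (hat_ne b (x 2))
    · have hm := h.mid rfl
      rw [ldT_threeR_1, add_comm (x 0)] at hm
      have hm' := e_three1 (b := b) h1 (by rwa [add_comm]) h3 (by rw [hm, Complex.exp_zero])
      rcases (by omega : l = 0 ∨ l = 1) with rfl | rfl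
      · exact u2_edge (one_sub_hat b (LS_threeR_l h.ls)) (hat_ne b (x 1))
      · show ((hat b (ee (x 2)))⁻¹ - (hat b (ee (x 1)))⁻¹) * u2 (hat b (ee (x 0))) (hat b (ee (x 1))) =
          -((hat b (ee (x 1)))⁻¹ - u2 (hat b (ee (x 0))) (hat b (ee (x 1))))
        have n0 := hat_ne b (x 0)
        have n1 := hat_ne b (x 1)
        have n2 := hat_ne b (x 2)
        have o0 := one_sub_hat b (LS_threeR_l h.ls)
        have o1 := one_sub_hat b h1
        unfold u2 at hm' ⊢
        generalize hat b (ee (x 0)) = A at *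
        generalize hat b (ee (x 1)) = B at *
        generalize hat b (ee (x 2)) = C at *
        have e1 : (B * (A - 1) / (A * (1 - B)) - B) * C * (A * (1 - B)) = (B * (A - 1) - B * (A * (1 - B))) * C := by
          field_simp
        rw [hm'] at e1
        have e2 : (C⁻¹ - B⁻¹) * (A * (B - 1) / (B * (1 - A))) + (B⁻¹ - A * (B - 1) / (B * (1 - A))) =
            ((B - C) * (A * (B - 1)) + C * B * (1 - A) - C * (A * (B - 1)) * B) / (C * B * (B * (1 - A))) := by
          field_simp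
          ring
        rw [eq_neg_iff_add_eq_zero, e2, div_eq_zero_iff]
        left
        linear_combination e1
  | fourL => exact absurd rfl h.four.1
  | fourR => exact absurd rfl h.four.2
  | ring =>
    obtain ⟨hs, _, _, hn⟩ := h.ring rfl
    exact ring_run hok (LS_ring_l h.ls hs) (LS_ring_r h.ls hs) (ring_eq_tt h) (hn rfl)

lemma run_f (h : LH t b false true x) : EndRun b (ee (x 2)) (lC t b false true x) := by
  have hok := h.ok
  have hl := h.l0 rfl
  cases t with
  | one => exact absurd rfl hl.2.1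
  | two =>
    have hb : b.natAbs = 2 := hok
    refine ⟨rfl, ?_, fun l hl => absurd hl (by omega)⟩
    rw [hb]
    rfl
  | threeL => exact absurd rfl hl.2.2
  | threeR =>
    obtain ⟨h1, h2, h3⟩ := LS_threeR h.ls
    have hb : b.natAbs = 3 := hok
    refine ⟨rfl, ?_, fun l hl' => ?_⟩
    · rw [hb]
      rfl
    · have hm := h.mid rfl
      rw [ldT_threeR_1, add_comm (x 0)] at hm
      have hm' := e_three1 (b := b) h1 (by rwa [add_comm]) h3 (by rw [hm, Complex.exp_zero])
      rw [hl.1, hat_zero, u2_one] at hm'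
      obtain rfl : l = 0 := by omega
      exact hm'
  | fourL => exact absurd rfl h.four.1
  | fourR => exact absurd rfl h.four.2
  | ring =>
    obtain ⟨hs, he, hn, _⟩ := h.ring rfl
    have hb : 2 ≤ b.natAbs := h.big.resolve_right (by simp)
    exact ring_end hb (LS_ring_r h.ls hs) (by simpa using he) (hn rfl)

lemma run_tf (h : LH t b true false x) : EndRun b (ee (x 0)) (lC t b true false x) := by
  have hok := h.ok
  have hl := h.rr0 rfl
  cases t with
  | one => exact absurd rfl hl.2.1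
  | two =>
    have hb : b.natAbs = 2 := hok
    refine ⟨rfl, ?_, fun l hl => absurd hl (by omega)⟩
    rw [hb]
    rfl
  | threeR => exact absurd rfl hl.2.2
  | threeL =>
    obtain ⟨h1, h2, h3⟩ := LS_threeL h.ls
    have hb : b.natAbs = 3 := hok
    refine ⟨rfl, ?_, fun l hl' => ?_⟩
    · rw [hb]
      rfl
    · have hm := h.mid rfl
      rw [ldT_threeL_1] at hm
      have hm' := e_three1 (b := b) h1 h2 h3 (by rw [hm, Complex.exp_zero])
      rw [hl.1, hat_zero, u2_one] at hm'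
      obtain rfl : l = 0 := by omega
      exact hm'
  | fourL => exact absurd rfl h.four.1
  | fourR => exact absurd rfl h.four.2
  | ring =>
    obtain ⟨hs, he, _, hn⟩ := h.ring rfl
    have hb : 2 ≤ b.natAbs := h.big.resolve_right (by simp)
    exact ring_end hb (LS_ring_l h.ls hs) (by simpa using he) (hn rfl)

/-! ### the volume of a twist region -/

lemma ee_one_sub (w : ℂ) : ee (1 - w) = (ee w)⁻¹ := by
  unfold ee
  rw [← Complex.exp_neg, mul_sub, mul_one, sub_eq_neg_add, Complex.exp_add, Complex.exp_two_pi_mul_I,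
    mul_one]

lemma ee_add (w w' : ℂ) : ee (w + w') = ee w * ee w' := by
  unfold ee
  rw [← Complex.exp_add]
  congr 1
  ring

lemma ee_sub (w w' : ℂ) : ee (w - w') = ee w / ee w' := by
  unfold ee
  rw [← Complex.exp_sub]
  congr 1
  ring

lemma ee_ne0 (w : ℂ) : ee w ≠ 0 := Complex.exp_ne_zero _

lemma ee_half (w : ℂ) : ee (w + 1 / 2) = -ee w := by
  unfold ee
  rw [show (2 * Real.pi * Complex.I * (w + 1 / 2) : ℂ) = 2 * Real.pi * Complex.I * w + Real.pi * Complex.I by
    ring, Complex.exp_add, Complex.exp_pi_mul_I]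
  ring

lemma one_sub_ee_ne0 {w : ℂ} (h : w ∈ strip) : 1 - ee w ≠ 0 := by
  have := one_sub_hat 1 h
  simpa [hat] using this

lemma BW_ee_one_sub (w : ℂ) : BW (ee (1 - w)) = -BW (ee w) := by
  rw [ee_one_sub, BW_inv]

lemma BW_ee_add (w w' : ℂ) : -BW (ee (w + w')) = BW (1 / (ee w * ee w')) := by
  rw [ee_add, one_div, BW_inv]

/-- the letters of a chain of length two -/
lemma two_letters (b : ℤ) {Y Y' : ℂ} (hY : Y ≠ 0) (hY' : Y' ≠ 0) (h1 : 1 - Y ≠ 0) (h1' : 1 - Y' ≠ 0)
    {U : ℕ → ℂ} {k : ℕ} (h0 : U k = hat b Y) (hm : U (k + 1) = u2 (hat b Y) (hat b Y'))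
    (h2 : U (k + 2) = (hat b Y')⁻¹) :
    BW (shp b U k) + BW (shp b U (k + 1)) = BW Y + BW Y' + BW (1 / (Y * Y')) := by
  rw [BW_five hY hY', shp, shp, h0, h2, hm]
  unfold u2 hat
  have h3 : Y' - 1 ≠ 0 := fun h => h1' (by linear_combination -h)
  have h4 : Y - 1 ≠ 0 := fun h => h1 (by linear_combination -h)
  split_ifs with hb
  · congr 1
    · congr 1
      field_simp
    · congr 1
      rw [div_eq_div_iff (div_ne_zero (mul_ne_zero hY h3) (mul_ne_zero hY' h1)) h1']
      field_simp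
      ring
  · have e1 : 1 - Y⁻¹ ≠ 0 := by
      rw [show 1 - Y⁻¹ = (Y - 1) / Y by field_simp]
      exact div_ne_zero h4 hY
    have e2 : Y'⁻¹ - 1 ≠ 0 := by
      rw [show Y'⁻¹ - 1 = (1 - Y') / Y' by field_simp]
      exact div_ne_zero h1' hY'
    rw [add_comm]
    congr 1
    · congr 1
      rw [inv_inv, div_div, div_eq_div_iff (mul_ne_zero (mul_ne_zero (inv_ne_zero hY') e1) hY') h1]
      field_simp
      ring
    · congr 1
      rw [div_eq_div_iff (div_ne_zero (mul_ne_zero (inv_ne_zero hY) e2)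
        (mul_ne_zero (inv_ne_zero hY') e1)) h1']
      field_simp

lemma shp_hat (b : ℤ) (Y M : ℂ) {U : ℕ → ℂ} {k : ℕ} (h0 : U k = hat b Y) (h1 : U (k + 1) = hat b M) :
    shp b U k = M / Y := by
  rw [shp, h0, h1]
  unfold hat
  split_ifs
  · rfl
  · rw [div_eq_mul_inv, inv_inv, mul_comm, div_eq_mul_inv]

lemma shp_hat' (b : ℤ) (Y M : ℂ) {U : ℕ → ℂ} {k : ℕ} (h0 : U k = (hat b M)⁻¹)
    (h1 : U (k + 1) = (hat b Y)⁻¹) : shp b U k = M / Y := by
  rw [shp, h0, h1]
  unfold hat
  split_ifs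
  · rw [div_eq_mul_inv, inv_inv, mul_comm, div_eq_mul_inv]
  · rw [inv_inv, inv_inv]

lemma lvol (h : LH t b l r x) : -(((facs t l r).map fun f => BW (ee (f.form x))).sum) =
    (if l = true then BW (ee (x 0)) else 0) + (if r = true then BW (ee (x 2)) else 0) +
    ∑ k ∈ range (if l = true ∧ r = true then b.natAbs else b.natAbs - 2),
      BW (shp b (lC t b l r x) k) := by
  have hok := h.ok
  have f1 : ∀ w : ℂ, BW (ee (1 + -w)) = -BW (ee w) := fun w => by
    rw [← sub_eq_add_neg, BW_ee_one_sub]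
  cases t with
  | one =>
    have hb : b.natAbs = 1 := hok
    cases l with
    | false => exact absurd rfl (h.l0 rfl).2.1
    | true =>
      cases r with
      | false => exact absurd rfl (h.rr0 rfl).2.1
      | true =>
        have e : shp b (lC .one b true true x) 0 = 1 / (ee (x 0) * ee (x 2)) := by
          show (if 0 < b then (hat b (ee (x 2)))⁻¹ / hat b (ee (x 0)) else
            hat b (ee (x 0)) / (hat b (ee (x 2)))⁻¹) = _
          unfold hat
          split_ifs
          · rw [div_eq_mul_inv, ← mul_inv, mul_comm, one_div]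
          · rw [inv_inv, div_eq_mul_inv, ← mul_inv, one_div]
        rw [hb]
        simp only [and_self, if_true, sum_range_one, e, ← BW_ee_add]
        simp [facs, Fac.form, Fin.sum_univ_three, f1]
        ring
  | two =>
    have hb : b.natAbs = 2 := hok
    cases l with
    | false =>
      have hx := (h.l0 rfl).1
      rw [hb]
      cases r with
      | false => exact absurd h.lr (by simp)
      | true =>
        simp [facs, hL, hR, Fac.form, Fin.sum_univ_three, f1, hx]
    | true =>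
      cases r with
      | false =>
        have hx := (h.rr0 rfl).1
        rw [hb]
        simp [facs, hL, hR, Fac.form, Fin.sum_univ_three, f1, hx]
      | true =>
        obtain ⟨h1, h2⟩ := LS_two_l h.ls
        obtain ⟨h1', h2'⟩ := LS_two_r h.ls
        have e := two_letters b (ee_ne0 (x 0)) (ee_ne0 (x 2)) (one_sub_ee_ne0 h1) (one_sub_ee_ne0 h1')
          (U := lC .two b true true x) (k := 0) rfl rfl rfl
        rw [hb]
        simp only [and_self, if_true, sum_range_succ, sum_range_zero, zero_add]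
        rw [zero_add] at e
        rw [e, ← BW_ee_add]
        simp [facs, hL, hR, Fac.form, Fin.sum_univ_three, f1]
        ring
  | threeL =>
    have hb : b.natAbs = 3 := hok
    obtain ⟨h1, h2, h3⟩ := LS_threeL h.ls
    have f2 : BW (ee (1 + (x 0 + -x 1))) = -BW (ee (x 1) / ee (x 0)) := by
      rw [show 1 + (x 0 + -x 1) = 1 - (x 1 - x 0) by ring, BW_ee_one_sub, ee_sub]
    cases l with
    | false => exact absurd rfl (h.l0 rfl).2.2
    | true =>
      have e0 : ∀ r, shp b (lC .threeL b true r x) 0 = ee (x 1) / ee (x 0) := fun r =>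
        shp_hat b _ _ (by cases r <;> rfl) (by cases r <;> rfl)
      cases r with
      | false =>
        have hx := (h.rr0 rfl).1
        rw [hb]
        simp only [Bool.false_eq_true, and_false, if_false, if_true, Nat.reduceSub, sum_range_one, e0]
        simp [facs, hL, hR, Fac.form, Fin.sum_univ_three, f1, f2, hx]
        ring
      | true =>
        have h4 := LS_threeL_r h.ls
        have e := two_letters b (ee_ne0 (x 1)) (ee_ne0 (x 2)) (one_sub_ee_ne0 h1) (one_sub_ee_ne0 h4)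
          (U := lC .threeL b true true x) (k := 1) rfl rfl rfl
        rw [hb]
        simp only [and_self, if_true, sum_range_succ, sum_range_zero, zero_add, e0]
        rw [add_assoc (BW (ee (x 1) / ee (x 0))), e, ← BW_ee_add]
        simp [facs, hL, hR, Fac.form, Fin.sum_univ_three, f1, f2]
        ring
  | threeR =>
    have hb : b.natAbs = 3 := hok
    obtain ⟨h1, h2, h3⟩ := LS_threeR h.ls
    have f2 : BW (ee (1 + (-x 1 + x 2))) = -BW (ee (x 1) / ee (x 2)) := by
      rw [show 1 + (-x 1 + x 2) = 1 - (x 1 - x 2) by ring, BW_ee_one_sub, ee_sub]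
    cases r with
    | false => exact absurd rfl (h.rr0 rfl).2.2
    | true =>
      cases l with
      | false =>
        have hx := (h.l0 rfl).1
        have e0 : shp b (lC .threeR b false true x) 0 = ee (x 1) / ee (x 2) :=
          shp_hat b _ _ rfl rfl
        rw [hb]
        simp only [Bool.false_eq_true, false_and, if_false, if_true, Nat.reduceSub, sum_range_one, e0]
        simp [facs, hL, hR, Fac.form, Fin.sum_univ_three, f1, f2, hx]
        ring
      | true =>
        have h4 := LS_threeR_l h.ls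
        have e0 : shp b (lC .threeR b true true x) 2 = ee (x 1) / ee (x 2) :=
          shp_hat' b _ _ rfl rfl
        have e := two_letters b (ee_ne0 (x 0)) (ee_ne0 (x 1)) (one_sub_ee_ne0 h4) (one_sub_ee_ne0 h1)
          (U := lC .threeR b true true x) (k := 0) rfl rfl rfl
        rw [hb]
        simp only [and_self, if_true, sum_range_succ, sum_range_zero, zero_add, e0]
        rw [zero_add] at e
        rw [e, ← BW_ee_add]
        simp [facs, hL, hR, Fac.form, Fin.sum_univ_three, f1, f2]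
        ring
  | fourL => exact absurd rfl h.four.1
  | fourR => exact absurd rfl h.four.2
  | ring =>
    obtain ⟨hs, he, hn0, hn1⟩ := h.ring rfl
    have hb : 2 ≤ b.natAbs := h.big.resolve_right (by simp)
    have g1 : ∀ w : ℂ, BW (ee (2⁻¹ + (w + x 1))) + BW (ee (2⁻¹ + (w + -x 1))) =
        BW (ee w) - gZ (ee (x 1)) (ee w) := by
      intro w
      rw [show 2⁻¹ + (w + x 1) = (w + x 1) + 1 / 2 by ring, ee_half, ee_add,
        show 2⁻¹ + (w + -x 1) = (w - x 1) + 1 / 2 by ring, ee_half, ee_sub, gZ,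
        show -(ee (x 1) / ee w) = (-(ee w / ee (x 1)))⁻¹ by rw [← inv_div, inv_neg], BW_inv,
        show -(1 / (ee (x 1) * ee w)) = (-(ee w * ee (x 1)))⁻¹ by
          rw [one_div, inv_neg, mul_comm], BW_inv]
      ring
    cases l with
    | false =>
      cases r with
      | false => exact absurd h.lr (by simp)
      | true =>
        have hv := ring_vol_end hb (LS_ring_r h.ls hs) (by simpa using he) (hn0 rfl)
        have g2 := g1 (x 2)
        simp only [Bool.false_eq_true, false_and, if_false, if_true, lC_false]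
        show _ = _ + ∑ k ∈ range (b.natAbs - 2), BW (shp b (rC b (x 2) (x 1)) k)
        rw [hv]
        simp [facs, hL, hR, Fac.form, Fin.sum_univ_three, f1]
        rw [add_comm (x 1), add_comm (-x 1)]
        linear_combination -g2
    | true =>
      cases r with
      | false =>
        have hv := ring_vol_end hb (LS_ring_l h.ls hs) (by simpa using he) (hn1 rfl)
        have g2 := g1 (x 0)
        simp only [Bool.false_eq_true, and_false, if_false, if_true, lC_tf]
        show _ = _ + ∑ k ∈ range (b.natAbs - 2), BW (shp b (rC b (x 0) (x 1)) k)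
        rw [hv]
        simp [facs, hL, hR, Fac.form, Fin.sum_univ_three, f1]
        linear_combination -g2
      | true =>
        have hv := ring_vol hok (LS_ring_l h.ls hs) (LS_ring_r h.ls hs) (ring_eq_tt h) (hn1 rfl)
        have g2 := g1 (x 0)
        have g3 := g1 (x 2)
        simp only [and_self, if_true, lC_tt]
        show _ = _ + ∑ k ∈ range b.natAbs, BW (shp b (rC b (x 0) (x 1)) k)
        rw [hv]
        simp [facs, hL, hR, Fac.form, Fin.sum_univ_three, f1]
        rw [add_comm (x 1), add_comm (-x 1)]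
        linear_combination -g2 - g3

end

/-! ### the theorems -/

section
variable {M : ℕ} {b : Fin (M + 2) → ℤ} {t : Fin (M + 2) → Typ}
  {z : DD (M := M + 1) t ⊕ ZZ (M := M + 1) t → ℂ}

lemma gU_eq (i : Fin (M + 2)) : gU b t z i =
    lC (t i) (b i) (decide (i ≠ 0)) (decide (i ≠ Fin.last (M + 1))) (xx t i z) := by
  unfold gU lC
  by_cases h0 : i = 0
  · simp [h0]
  · by_cases h1 : i = Fin.last (M + 1)
    · rw [if_neg h0, if_pos h1]
      simp [h0, h1]
    · rw [if_neg h0, if_neg h1]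
      simp [h0, h1]

lemma geo_LH (ht : GTyp b t)
    (hin : ∀ k, 0 < ((wdat (M := M + 1) t b).form k z).re ∧ ((wdat (M := M + 1) t b).form k z).re < 1)
    (hc : ∀ i, (wdat (M := M + 1) t b).dT z i = 0) (hn : GNv b t z) (i : Fin (M + 2)) :
    LH (t i) (b i) (decide (i ≠ 0)) (decide (i ≠ Fin.last (M + 1))) (xx t i z) where
  ls := fun _ hf => fac_strip hin i hf
  ok := ht.ok i
  big := ht.ring i
  four := ht.four i
  lr := by
    by_cases h : i = 0
    · right
      rw [h]
      simpa using (Fin.last_pos' (n := M + 1)).ne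
    · left
      simpa using h
  l0 := by
    intro h
    have h0 : i = 0 := by simpa using h
    subst h0
    exact ⟨xx_left_zero t z, ht.first⟩
  rr0 := by
    intro h
    have h0 : i = Fin.last (M + 1) := by simpa using h
    subst h0
    exact ⟨xx_right_last t z, ht.last⟩
  mid := fun h => grT_mid hc h
  ring := by
    intro h
    refine ⟨hn.sz i h, ?_, ?_, ?_⟩
    · have h1 := grT_ring hc h
      simpa using h1
    · intro h0
      have h0 : i = 0 := by simpa using h0
      subst h0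
      exact hn.first h
    · intro h0
      exact hn.nv i (by simpa using h0) h

theorem geo_glue (ht : GTyp b t)
    (hin : ∀ k, 0 < ((wdat (M := M + 1) t b).form k z).re ∧ ((wdat (M := M + 1) t b).form k z).re < 1)
    (hc : ∀ i, (wdat (M := M + 1) t b).dT z i = 0) (hn : GNv b t z) :
    Glue b (gY t z) (gU b t z) := by
  have H := geo_LH ht hin hc hn
  have hl0 : (0 : Fin (M + 2)) ≠ Fin.last (M + 1) := (Fin.last_pos' (n := M + 1)).ne
  refine ⟨?_, ?_, ?_, ?_⟩
  · have h := H 0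
    have e : xx t 0 z 2 = z (.inl (.inl 0)) := xx_right (M := M + 1) t 0 z
    rw [gU_eq]
    simp only [ne_eq, not_true_eq_false, decide_false, hl0, not_false_eq_true, decide_true] at h ⊢
    have := run_f h
    rwa [e] at this
  · have h := H (Fin.last (M + 1))
    have e : xx t (Fin.last (M + 1)) z 0 = z (.inl (.inl (Fin.last M))) :=
      xx_left (M := M + 1) t (Fin.last M) z
    rw [gU_eq]
    simp only [ne_eq, not_true_eq_false, decide_false, hl0.symm, not_false_eq_true, decide_true] at h ⊢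
    have := run_tf h
    rwa [e] at this
  · intro j
    have h := H j.castSucc.succ
    have e : xx t j.castSucc.succ z 0 = z (.inl (.inl j.castSucc)) := xx_left (M := M + 1) t j.castSucc z
    have e' : xx t j.castSucc.succ z 2 = z (.inl (.inl j.succ)) := by
      rw [← Fin.castSucc_succ]
      exact xx_right (M := M + 1) t j.succ z
    have n1 : j.castSucc.succ ≠ 0 := Fin.succ_ne_zero _
    have n2 : j.castSucc.succ ≠ Fin.last (M + 1) := by
      rw [← Fin.castSucc_succ]
      exact (Fin.castSucc_lt_last _).ne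
    rw [gU_eq]
    simp only [ne_eq, n1, n2, not_false_eq_true, decide_true] at h ⊢
    have := run_tt h
    rwa [e, e'] at this
  · intro j
    have n1 : j.castSucc ≠ Fin.last (M + 1) := (Fin.castSucc_lt_last _).ne
    have n2 : j.succ ≠ 0 := Fin.succ_ne_zero _
    have e : xx t j.castSucc z 2 = z (.inl (.inl j)) := xx_right (M := M + 1) t j z
    have e' : xx t j.succ z 0 = z (.inl (.inl j)) := xx_left (M := M + 1) t j z
    have h := H j.castSucc
    have h' := H j.succ
    have hd := grT_hinge hc j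
    simp only [ne_eq, n1, n2, not_false_eq_true, decide_true] at h h' hd
    have k1 := hf_r h
    have k2 := hf_l h'
    rw [e] at k1
    rw [e'] at k2
    have k3 : nbr b (gU b t z) j = if decide (¬j.castSucc = 0) = false then
        lC (t j.castSucc) (b j.castSucc) (decide (¬j.castSucc = 0)) true (xx t j.castSucc z) 1 else
        (lC (t j.castSucc) (b j.castSucc) (decide (¬j.castSucc = 0)) true (xx t j.castSucc z)
          ((b j.castSucc).natAbs - 1))⁻¹ := by
      unfold nbr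
      by_cases hj : j = 0
      · subst hj
        rw [gU_eq]
        simp [hl0]
      · have hj' : j.castSucc ≠ 0 := by
          intro h
          exact hj (Fin.castSucc_injective _ h)
        rw [if_neg hj, gU_eq]
        simp [hj', n1, hj]
    have k4 : gU b t z j.succ 1 = lC (t j.succ) (b j.succ) true
        (decide (¬j.succ = Fin.last (M + 1))) (xx t j.succ z) 1 := by
      rw [gU_eq]
      simp [n2]
    unfold gY
    rw [k3, k4, ← k1, ← k2, ← Complex.exp_add, hd, Complex.exp_zero]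

theorem geo_vol (ht : GTyp b t)
    (hin : ∀ k, 0 < ((wdat (M := M + 1) t b).form k z).re ∧ ((wdat (M := M + 1) t b).form k z).re < 1)
    (hc : ∀ i, (wdat (M := M + 1) t b).dT z i = 0) (hn : GNv b t z) :
    2 * Real.pi * ((wdat (M := M + 1) t b).T z).re = swVol b (gY t z) (gU b t z) := by
  have H := geo_LH ht hin hc hn
  have hl0 : (0 : Fin (M + 2)) ≠ Fin.last (M + 1) := (Fin.last_pos' (n := M + 1)).ne
  have hun : ∀ b : ℤ, ∀ n : ℤ, (un b * (n : ℂ)).re = 0 := by
    intro b n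
    unfold un
    split_ifs <;> simp
  have hq : ∀ i j, ((wdat (M := M + 1) t b).q i j).re = 0 := by
    intro i j
    show (∑ i', ∑ p, ∑ p', un (b i') * ((qq2 (t i') p p' * cf (M := M + 1) t i' p i *
      cf (M := M + 1) t i' p' j : ℤ) : ℂ)).re = 0
    simp only [Complex.re_sum, hun, sum_const_zero]
  have hr : ∀ i, ((wdat (M := M + 1) t b).r i).re = 0 := by
    intro i
    show (∑ i', ∑ p, un (b i') * ((rr1 (t i') p * cf (M := M + 1) t i' p i : ℤ) : ℂ)).re = 0
    simp only [Complex.re_sum, hun, sum_const_zero]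
  rw [vol_dat _ hq hr hin hc, Fintype.sum_sigma, ← sum_neg_distrib]
  have e1 : ∀ i : Fin (M + 2), -∑ k : Fin (facs (t i) (decide (i ≠ 0))
      (decide (i ≠ Fin.last (M + 1)))).length, BW (ee ((wdat (M := M + 1) t b).form ⟨i, k⟩ z)) =
      (if i ≠ 0 then BW (ee (xx t i z 0)) else 0) +
      (if i ≠ Fin.last (M + 1) then BW (ee (xx t i z 2)) else 0) +
      ∑ l ∈ range (nlet b i), BW (shp (b i) (gU b t z i) l) := by
    intro i
    have h := lvol (H i)
    have e2 : (∑ k : Fin (facs (t i) (decide (i ≠ 0))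
        (decide (i ≠ Fin.last (M + 1)))).length, BW (ee ((wdat (M := M + 1) t b).form ⟨i, k⟩ z))) =
        (((facs (t i) (decide (i ≠ 0)) (decide (i ≠ Fin.last (M + 1)))).map
          fun f => BW (ee (f.form (xx t i z)))).sum) := by
      rw [← sum_listR]
      refine sum_congr rfl fun k _ => ?_
      rw [wdat_form]
      rfl
    rw [e2, h, gU_eq]
    have e3 : (if decide (i ≠ 0) = true ∧ decide (i ≠ Fin.last (M + 1)) = true then (b i).natAbs
        else (b i).natAbs - 2) = nlet b i := by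
      unfold nlet
      by_cases h0 : i = 0 <;> by_cases h1 : i = Fin.last (M + 1) <;> simp [h0, h1]
    rw [e3]
    simp only [decide_eq_true_eq]
  rw [sum_congr rfl fun i _ => e1 i, sum_add_distrib, swVol]
  congr 1
  rw [sum_add_distrib]
  have e4 : ∑ i : Fin (M + 2), (if i ≠ 0 then BW (ee (xx t i z 0)) else 0) = ∑ j, BW (gY t z j) := by
    rw [Fin.sum_univ_succ]
    simp only [ne_eq, not_true_eq_false, if_false, zero_add, Fin.succ_ne_zero, not_false_eq_true, if_true]
    refine sum_congr rfl fun j _ => ?_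
    rw [gY, show xx t j.succ z 0 = z (.inl (.inl j)) from xx_left (M := M + 1) t j z]
  have e5 : ∑ i : Fin (M + 2), (if i ≠ Fin.last (M + 1) then BW (ee (xx t i z 2)) else 0) =
      ∑ j, BW (gY t z j) := by
    rw [Fin.sum_univ_castSucc]
    simp only [ne_eq, not_true_eq_false, if_false, add_zero, Fin.castSucc_ne_last, not_false_eq_true, if_true]
    refine sum_congr rfl fun j _ => ?_
    rw [gY, show xx t j.castSucc z 2 = z (.inl (.inl j)) from xx_right (M := M + 1) t j z]
  rw [e4, e5, ← sum_add_distrib]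
  exact sum_congr rfl fun j _ => (two_mul _).symm

end

end Pool.Agent.Work.MP_b30479_gtS.G2

end

section

/-!
# The complexified volume of a twist region, all types
-/

namespace Pool.Agent.Work.MP_b30479_gtS.G2

open Finset VOL
open Pool.Agent.Work.MP_b30479_gtS.LT (ee)

/-- the logarithms `Q` belong to the chain `U` -/
def ChQ (U Q : ℕ → ℂ) (n : ℕ) : Prop :=
  ∀ l ≤ n, U l * Complex.exp (Q l) = -Complex.exp (Q (l + 2))

variable {b : ℤ} {x : Fin 3 → ℂ} {P : ℂ} {Q : ℕ → ℂ}

lemma hat_exp (b : ℤ) (w q : ℂ) : hat b (ee w) * Complex.exp q =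
    Complex.exp (sgB b * (2 * Real.pi * Complex.I * w) + q) := by
  rw [hat_ee, ← exp_sg, ← Complex.exp_add]

/-! ### the pivot of a ring -/

lemma rC_kap {w ζ : ℂ} (hn : Complex.sin (rr0 b w ζ) ≠ 0) (h1 : rC b w ζ 0 ≠ 0) :
    (1 - rC b w ζ 1) * (1 - (rC b w ζ 0)⁻¹) = (2 * Complex.cos (Real.pi * ζ)) ^ 2 := by
  unfold rC rU at *
  set φ := rr0 b w ζ
  set u := -(Real.pi * ζ) with hu
  have hc : Complex.cos (Real.pi * ζ) = Complex.cos u := by rw [hu, Complex.cos_neg]
  rw [hc]
  push_cast at h1 ⊢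
  simp only [zero_add, zero_sub, one_mul, neg_mul, sub_self, zero_mul, add_zero] at h1 ⊢
  have h2 : Complex.sin (φ + u) ≠ 0 := by
    intro h
    rw [h] at h1
    simp at h1
  have h3 : Complex.sin (φ + -u) ≠ 0 := by
    intro h
    rw [h] at h1
    simp at h1
  have e1 := rg_sin_three (φ + u) u
  have e2 := rg_sin_three φ u
  rw [show φ + u + u = φ + (1 + 1) * u by ring, show φ + u - u = φ by ring] at e1
  rw [sub_eq_add_neg] at e2
  generalize Complex.sin (φ + (1 + 1) * u) = A at *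
  generalize Complex.sin (φ + -u) = B at *
  generalize Complex.sin (φ + u) = C at *
  generalize Complex.sin φ = D at *
  field_simp
  linear_combination (C + B) * e1 + 2 * C * Complex.cos u * e2

lemma Fan.kap (F : Fan P Q b.natAbs) (hb : 1 ≤ b.natAbs) {U : ℕ → ℂ} (h0 : U 0 * Complex.exp (Q 0) = -Complex.exp (Q 2))
    (h1 : U 1 * Complex.exp (Q 1) = -Complex.exp (Q 3)) :
    (1 - U 1) * (1 - (U 0)⁻¹) = Complex.exp (2 * P) := by
  have a0 := F.lin 0 (by omega)
  have a1 := F.lin 1 (by omega)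
  simp only [zero_add, Complex.exp_add, Nat.reduceAdd] at a0 a1
  have b0 := Complex.exp_ne_zero (Q 0)
  have b1 := Complex.exp_ne_zero (Q 1)
  have b2 := Complex.exp_ne_zero (Q 2)
  have hU0 : U 0 ≠ 0 := by
    intro h
    rw [h, zero_mul] at h0
    exact b2 (by linear_combination h0)
  have e0 : (U 0)⁻¹ = -(Complex.exp (Q 0) / Complex.exp (Q 2)) := by
    rw [inv_eq_iff_eq_inv, ← neg_inv, inv_div, eq_neg_iff_add_eq_zero]
    field_simp
    linear_combination h0
  have e1 : U 1 = -(Complex.exp (Q 3) / Complex.exp (Q 1)) := by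
    field_simp
    linear_combination h1
  rw [e0, e1, exp_two]
  field_simp
  linear_combination (-(Complex.exp (Q 1) + Complex.exp (Q 3))) * a0 - Complex.exp P * Complex.exp (Q 1) * a1

/-! ### reversal -/

lemma Fan.rev {n : ℕ} (F : Fan P Q n) : Fan P (fun l => Q (n + 2 - l)) n := by
  refine ⟨fun l hl => ?_, fun l hl => ?_⟩
  · have h := F.lin (n - l) (by omega)
    show Complex.exp (P + Q (n + 2 - (l + 1))) = Complex.exp (Q (n + 2 - l)) + Complex.exp (Q (n + 2 - (l + 2)))
    rw [show n + 2 - (l + 1) = n - l + 1 by omega, show n + 2 - l = n - l + 2 by omega,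
      show n + 2 - (l + 2) = n - l by omega, h, add_comm]
  · have h := F.sqr (n - l) (by omega)
    show Complex.exp (Q (n + 2 - l) + Q (n + 2 - (l + 2))) = Complex.exp (2 * Q (n + 2 - (l + 1))) + _
    rw [show n + 2 - (l + 1) = n - l + 1 by omega, show n + 2 - l = n - l + 2 by omega,
      show n + 2 - (l + 2) = n - l by omega, ← h, add_comm]

lemma hly_rev {n l : ℕ} (hl : l ≤ n) : hly P (fun l => Q (n + 2 - l)) l = hly P Q (n - l) := by
  unfold hly
  simp only
  rw [show n + 2 - (l + 1) = n - l + 1 by omega, show n + 2 - l = n - l + 2 by omega,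
    show n + 2 - (l + 2) = n - l by omega]
  congr 1 <;> ring

lemma rs_rev (n : ℕ) : rs n P (fun l => Q (n + 2 - l)) = rs n P Q := by
  unfold rs
  rw [← sum_range_reflect]
  refine sum_congr rfl fun l hl => ?_
  rw [mem_range] at hl
  rw [hly_rev (by omega), hly_rev (by omega), show n - (n - 1 - l) = l + 1 by omega,
    show n - (n - 1 - l + 1) = l by omega, add_comm]

/-- the reversed local variables -/
def xrev (x : Fin 3 → ℂ) : Fin 3 → ℂ := ![x 2, x 1, x 0]

lemma lT_threeR (l r : Bool) : lT .threeR b l r x = lT .threeL b r l (xrev x) := by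
  cases l <;> cases r <;>
    simp [lT, lquad, facs, hL, hR, Fac.form, Fin.sum_univ_three, qq2, rr1, xrev] <;> ring_nf

lemma ldT_threeR (l r : Bool) : ldT .threeR b l r x 0 = ldT .threeL b r l (xrev x) 2 ∧
    ldT .threeR b l r x 1 = ldT .threeL b r l (xrev x) 1 ∧
    ldT .threeR b l r x 2 = ldT .threeL b r l (xrev x) 0 := by
  refine ⟨?_, ?_, ?_⟩ <;> cases l <;> cases r <;>
    simp [ldT, facs, hL, hR, Fac.form, Fin.sum_univ_three, qq2, rr1, xrev] <;> ring_nf

/-- The formula for an inner twist region. -/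
theorem run_cs {t : Typ} (h : LH t b true true x) (F : Fan P Q b.natAbs)
    (hc : ChQ (lC t b true true x) Q b.natAbs) : RunCS t b x P Q := by
  rw [lC_tt] at hc
  have hok := h.ok
  have hfour := h.four
  have hbig := h.big
  have hls := h.ls
  have hR := run_tt h
  rw [lC_tt] at hR
  have hb : b ≠ 0 := by
    rintro rfl
    rcases hbig with h1 | rfl
    · simp at h1
    · simp [Typ.IsOk] at hok
  have hn : 1 ≤ b.natAbs := by omega
  have hl : Complex.exp (sgB b * (2 * Real.pi * Complex.I * x 0) + Q 0) = -Complex.exp (Q 2) := by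
    rw [← hat_exp, ← hR.left]
    exact hc 0 (by omega)
  have hr : Complex.exp (sgB b * (2 * Real.pi * Complex.I * x 2) + Q (b.natAbs + 2)) =
      -Complex.exp (Q b.natAbs) := by
    have h1 := hc b.natAbs le_rfl
    have h2 := hR.right
    rw [← hat_exp]
    have : hat b (ee (x 2)) * (lU t b x b.natAbs * Complex.exp (Q b.natAbs)) =
        hat b (ee (x 2)) * -Complex.exp (Q (b.natAbs + 2)) := by rw [h1]
    linear_combination this - Complex.exp (Q b.natAbs) * h2
  cases t with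
  | one =>
    have hb1 : b.natAbs = 1 := hok
    rw [hb1] at F hr
    exact run_one' hb1 (LS_one_l hls).1 (LS_one_r hls).1 (LS_one_l hls).2 F hl hr
  | two =>
    have hb1 : b.natAbs = 2 := hok
    rw [hb1] at F hr
    exact run_two' hb1 (LS_two_l hls).1 (LS_two_r hls).1 (LS_two_l hls).2 F hl hr
  | threeL =>
    have hb1 : b.natAbs = 3 := hok
    rw [hb1] at F hr
    refine run_threeL' hb1 (LS_threeL_l hls) (LS_threeL hls).1 (LS_threeL_r hls) (LS_threeL hls).2.1
      (LS_threeL hls).2.2 F hl hr ?_ (h.mid rfl)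
    rw [← hat_exp]
    exact hc 1 (by omega)
  | threeR =>
    have hb1 : b.natAbs = 3 := hok
    have hrev : RunCS .threeL b (xrev x) P (fun l => Q (b.natAbs + 2 - l)) := by
      have F' := F.rev
      rw [hb1] at F' hr ⊢
      refine run_threeL' hb1 (LS_threeR_r hls) (LS_threeR hls).1 (LS_threeR_l hls)
        (by
          have := (LS_threeR hls).2.1
          rwa [add_comm] at this) (LS_threeR hls).2.2 F' hr hl ?_ ?_
      · have h1 := hc 2 (by omega)
        show Complex.exp (sgB b * (2 * Real.pi * Complex.I * x 1) + Q 4) = -Complex.exp (Q 2)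
        rw [← hat_exp]
        have h2 : lU .threeR b x 2 = (hat b (ee (x 1)))⁻¹ := rfl
        rw [h2] at h1
        have h3 := mul_inv_cancel₀ (hat_ne b (x 1))
        have : hat b (ee (x 1)) * ((hat b (ee (x 1)))⁻¹ * Complex.exp (Q 2)) =
          hat b (ee (x 1)) * -Complex.exp (Q 4) := by rw [h1]
        linear_combination this - Complex.exp (Q 2) * h3
      · rw [← (ldT_threeR true true).2.1]
        exact h.mid rfl
    unfold RunCS at hrev ⊢
    rw [rs_rev] at hrev
    unfold lW at hrev ⊢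
    rw [lT_threeR, (ldT_threeR true true).1, (ldT_threeR true true).2.2]
    rw [if_neg (by decide)] at hrev ⊢
    simp only [xrev, Matrix.cons_val_zero, Matrix.cons_val] at hrev ⊢
    rw [hb1] at hrev ⊢
    simp only [Nat.reduceAdd, Nat.reduceSub] at hrev ⊢
    obtain ⟨k, hk⟩ := hrev
    refine ⟨k, ?_⟩
    rw [← hk]
    ring
  | fourL => exact absurd rfl hfour.1
  | fourR => exact absurd rfl hfour.2
  | ring =>
    have hb2 : 2 ≤ b.natAbs := by
      rcases hbig with h1 | h1
      · exact h1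
      · cases h1
    obtain ⟨hs, hcr, -, hnv⟩ := h.ring rfl
    have hl' := LS_ring_l hls hs
    have hr' := LS_ring_r hls hs
    have hP : Complex.exp (2 * P) = (2 * Complex.cos (Real.pi * x 1)) ^ 2 := by
      rw [← F.kap hn (hc 0 (by omega)) (hc 1 (by omega))]
      have h1 := hnv rfl 0 (by omega)
      rw [Nat.cast_zero, zero_mul, add_zero] at h1
      exact rC_kap h1 (by
        intro h2
        have h3 := hc 0 (by omega)
        have h4 : lU .ring b x 0 = rC b (x 0) (x 1) 0 := rfl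
        rw [h4, h2, zero_mul] at h3
        exact Complex.exp_ne_zero (Q 2) (by linear_combination h3))
    exact run_ring' hb hl'.hw hl'.hm hl'.hp hr'.hw hr'.hm hr'.hp F hl hr hP (by simpa using hcr)

/-! ### the ends of the word -/

lemma FanE.kap (F : FanE P Q b.natAbs) (hb : 2 ≤ b.natAbs) {U : ℕ → ℂ}
    (h0 : U 0 * Complex.exp (Q 0) = -Complex.exp (Q 2))
    (h1 : b.natAbs = 2 → U 1 = 0) (h1' : 3 ≤ b.natAbs → U 1 * Complex.exp (Q 1) = -Complex.exp (Q 3)) :
    (1 - U 1) * (1 - (U 0)⁻¹) = Complex.exp (2 * P) := by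
  rcases Nat.lt_or_ge 2 b.natAbs with h3 | h3
  · refine Fan.kap (b := (b.natAbs - 2 : ℕ)) ?_ ?_ h0 (h1' h3)
    · rw [Int.natAbs_natCast]
      exact F.fan
    · rw [Int.natAbs_natCast]
      omega
  · have hb2 : b.natAbs = 2 := by omega
    have a0 := F.fan.lin 0 (by omega)
    have a1 := F.top
    have a2 := F.fold
    rw [hb2] at a1 a2
    simp only [zero_add, Complex.exp_add, Nat.reduceAdd, Nat.reduceSub, exp_two] at a0 a1 a2
    have b0 := Complex.exp_ne_zero (Q 0)
    have b1 := Complex.exp_ne_zero (Q 1)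
    have b2 := Complex.exp_ne_zero (Q 2)
    have e0 : (U 0)⁻¹ = -(Complex.exp (Q 0) / Complex.exp (Q 2)) := by
      rw [inv_eq_iff_eq_inv, ← neg_inv, inv_div, eq_neg_iff_add_eq_zero]
      field_simp
      linear_combination h0
    rw [h1 hb2, e0, exp_two]
    field_simp
    rw [a1] at a0
    linear_combination -a0

/-- The formula for the first twist region. -/
theorem first_cs {t : Typ} (h : LH t b false true x) (F : FanE P Q b.natAbs)
    (hc : ChQ (lC t b false true x) Q (b.natAbs - 2)) :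
    EndCS t b false true x (x 2) (ldT t b false true x 2) P Q := by
  rw [lC_false] at hc
  have hok := h.ok
  have hfour := h.four
  have hls := h.ls
  have hRn := run_f h
  rw [lC_false] at hRn
  obtain ⟨hx, h1, h2⟩ := h.l0 rfl
  have hl : Complex.exp (sgB b * (2 * Real.pi * Complex.I * x 2) + Q 0) = -Complex.exp (Q 2) := by
    rw [← hat_exp, ← hRn.left]
    exact hc 0 (by omega)
  cases t with
  | one => exact absurd rfl h1
  | threeL => exact absurd rfl h2
  | fourL => exact absurd rfl hfour.1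
  | fourR => exact absurd rfl hfour.2
  | two =>
    have hb1 : b.natAbs = 2 := hok
    rw [hb1] at F
    obtain ⟨k, hk⟩ := end_two' hb1 (LS_two_r hls).1 F hl
    refine ⟨k, ?_⟩
    rw [← hk, lW, if_neg (by decide), ldT_two_2, hx]
    have e : lT .two b false true x = un b * (x 2 ^ 2 + x 2) - Fh (x 2) := by
      have e2 : Fh (1 - x 2) = -Fh (x 2) := Fh_one_sub _
      rw [sub_eq_add_neg _ (x 2)] at e2
      simp [lT, lquad, facs, hL, hR, Fac.form, Fin.sum_univ_three, qq2, rr1, hx, e2]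
      ring_nf
    rw [e]
    ring_nf
  | threeR =>
    have hb1 : b.natAbs = 3 := hok
    rw [hb1] at F
    have hm := h.mid rfl
    rw [ldT_threeR_1, hx] at hm
    obtain ⟨k, hk⟩ := end_three' hb1 (LS_threeR_r hls) (LS_threeR hls).1 (LS_threeR hls).2.2 F hl
      (by
        rw [← hat_exp]
        exact hc 1 (by omega)) (by
        rw [zero_add] at hm
        linear_combination hm)
    refine ⟨k, ?_⟩
    rw [← hk, lW, if_neg (by decide), ldT_threeR_2]
    have e : lT .threeR b false true x = un b * (2 * x 2 * x 1 + x 1 ^ 2 - x 1) - Fh (x 1 - x 2) -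
        Fh (x 2) := by
      have e2 : Fh (1 - x 2) = -Fh (x 2) := Fh_one_sub _
      have e1 : Fh (1 - x 1) = -Fh (x 1) := Fh_one_sub _
      have e12 : Fh (1 - (x 1 - x 2)) = -Fh (x 1 - x 2) := Fh_one_sub _
      rw [sub_eq_add_neg _ (x 2)] at e2
      rw [sub_eq_add_neg _ (x 1)] at e1
      rw [show 1 - (x 1 - x 2) = 1 + (-x 1 + x 2) by ring] at e12
      simp [lT, lquad, facs, hL, hR, Fac.form, Fin.sum_univ_three, qq2, rr1, hx, e2, e1, e12]
      ring_nf
    rw [e]
    ring_nf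
  | ring =>
    have hb2 : 2 ≤ b.natAbs := by
      rcases h.big with h1 | h1
      · exact h1
      · cases h1
    obtain ⟨hs, hcr, hnv, -⟩ := h.ring rfl
    have hr' := LS_ring_r hls hs
    have hP : Complex.exp (2 * P) = (2 * Complex.cos (Real.pi * x 1)) ^ 2 := by
      have h1 := hnv rfl 0 (by omega)
      rw [Nat.cast_zero, zero_mul, add_zero] at h1
      have e : lE .ring b (x 2) (x 1) = rC b (x 2) (x 1) := rfl
      rw [e] at hc hRn
      rw [← F.kap hb2 (hc 0 (by omega)) (fun h2 => by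
        have := hRn.right
        rwa [h2] at this) (fun h3 => hc 1 (by omega))]
      exact rC_kap h1 (by
        intro h2
        have h3 := hc 0 (by omega)
        rw [h2, zero_mul] at h3
        exact Complex.exp_ne_zero (Q 2) (by linear_combination h3))
    obtain ⟨k, hk⟩ := end_ring' hb2 hr'.hw hr'.hm hr'.hp F hl hP (by simpa using hcr)
    refine ⟨k, ?_⟩
    rw [← hk, lW, if_pos rfl, ldT_ring_2]
    have e : lT .ring b false true x = Fh (x 2 - x 1 + 1 / 2) + Fh (x 2 + x 1 + 1 / 2) - 2 * Fh (x 2) := by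
      have e2 : Fh (1 - x 2) = -Fh (x 2) := Fh_one_sub _
      rw [sub_eq_add_neg _ (x 2)] at e2
      simp [lT, lquad, facs, hL, hR, Fac.form, Fin.sum_univ_three, qq2, rr1, hx, e2]
      ring_nf
    rw [e]

/-- The formula for the last twist region. -/
theorem last_cs {t : Typ} (h : LH t b true false x) (F : FanE P Q b.natAbs)
    (hc : ChQ (lC t b true false x) Q (b.natAbs - 2)) :
    EndCS t b true false x (x 0) (ldT t b true false x 0) P Q := by
  rw [lC_tf] at hc
  have hok := h.ok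
  have hfour := h.four
  have hls := h.ls
  have hRn := run_tf h
  rw [lC_tf] at hRn
  obtain ⟨hx, h1, h2⟩ := h.rr0 rfl
  have hl : Complex.exp (sgB b * (2 * Real.pi * Complex.I * x 0) + Q 0) = -Complex.exp (Q 2) := by
    rw [← hat_exp, ← hRn.left]
    exact hc 0 (by omega)
  cases t with
  | one => exact absurd rfl h1
  | threeR => exact absurd rfl h2
  | fourL => exact absurd rfl hfour.1
  | fourR => exact absurd rfl hfour.2
  | two =>
    have hb1 : b.natAbs = 2 := hok
    rw [hb1] at F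
    obtain ⟨k, hk⟩ := end_two' hb1 (LS_two_l hls).1 F hl
    refine ⟨k, ?_⟩
    rw [← hk, lW, if_neg (by decide), ldT_two_0, hx]
    have e : lT .two b true false x = un b * (x 0 ^ 2 + x 0) - Fh (x 0) := by
      have e2 : Fh (1 - x 0) = -Fh (x 0) := Fh_one_sub _
      rw [sub_eq_add_neg _ (x 0)] at e2
      simp [lT, lquad, facs, hL, hR, Fac.form, Fin.sum_univ_three, qq2, rr1, hx, e2]
      ring_nf
    rw [e]
    ring_nf
  | threeL =>
    have hb1 : b.natAbs = 3 := hok
    rw [hb1] at F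
    have hm := h.mid rfl
    rw [ldT_threeL_1, hx] at hm
    obtain ⟨k, hk⟩ := end_three' hb1 (LS_threeL_l hls) (LS_threeL hls).1 (LS_threeL hls).2.2 F hl
      (by
        rw [← hat_exp]
        exact hc 1 (by omega)) (by
        rw [add_zero] at hm
        linear_combination hm)
    refine ⟨k, ?_⟩
    rw [← hk, lW, if_neg (by decide), ldT_threeL_0]
    have e : lT .threeL b true false x = un b * (2 * x 0 * x 1 + x 1 ^ 2 - x 1) - Fh (x 1 - x 0) -
        Fh (x 0) := by
      have e2 : Fh (1 - x 0) = -Fh (x 0) := Fh_one_sub _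
      have e1 : Fh (1 - x 1) = -Fh (x 1) := Fh_one_sub _
      have e12 : Fh (1 - (x 1 - x 0)) = -Fh (x 1 - x 0) := Fh_one_sub _
      rw [sub_eq_add_neg _ (x 0)] at e2
      rw [sub_eq_add_neg _ (x 1)] at e1
      rw [show 1 - (x 1 - x 0) = 1 + (x 0 + -x 1) by ring] at e12
      simp [lT, lquad, facs, hL, hR, Fac.form, Fin.sum_univ_three, qq2, rr1, hx, e2, e1, e12]
      ring_nf
    rw [e]
    ring_nf
  | ring =>
    have hb2 : 2 ≤ b.natAbs := by
      rcases h.big with h1 | h1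
      · exact h1
      · cases h1
    obtain ⟨hs, hcr, -, hnv⟩ := h.ring rfl
    have hr' := LS_ring_l hls hs
    have hP : Complex.exp (2 * P) = (2 * Complex.cos (Real.pi * x 1)) ^ 2 := by
      have h1 := hnv rfl 0 (by omega)
      rw [Nat.cast_zero, zero_mul, add_zero] at h1
      have e : lE .ring b (x 0) (x 1) = rC b (x 0) (x 1) := rfl
      rw [e] at hc hRn
      rw [← F.kap hb2 (hc 0 (by omega)) (fun h2 => by
        have := hRn.right
        rwa [h2] at this) (fun h3 => hc 1 (by omega))]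
      exact rC_kap h1 (by
        intro h2
        have h3 := hc 0 (by omega)
        rw [h2, zero_mul] at h3
        exact Complex.exp_ne_zero (Q 2) (by linear_combination h3))
    obtain ⟨k, hk⟩ := end_ring' hb2 hr'.hw hr'.hm hr'.hp F hl hP (by simpa using hcr)
    refine ⟨k, ?_⟩
    rw [← hk, lW, if_pos rfl, ldT_ring_0]
    have e : lT .ring b true false x = Fh (x 0 - x 1 + 1 / 2) + Fh (x 0 + x 1 + 1 / 2) - 2 * Fh (x 0) := by
      have e2 : Fh (1 - x 0) = -Fh (x 0) := Fh_one_sub _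
      rw [sub_eq_add_neg _ (x 0)] at e2
      simp [lT, lquad, facs, hL, hR, Fac.form, Fin.sum_univ_three, qq2, rr1, hx, e2]
      ring_nf
    rw [e]

end Pool.Agent.Work.MP_b30479_gtS.G2

end

section

/-!
# Neumann's function and the halves of the layers
-/

namespace Pool.Agent.Work.MP_b30479_gtS.G2

open Finset

/-- Neumann's function in terms of the extended Rogers dilogarithm -/
theorem RN_rl {z w0 w1 : ℂ} (h0 : Complex.exp w0 = -z) (h1 : Complex.exp w1 * (1 - z) = 1) :
    Cq (RN z w0 w1) (-rl (w0 + w1) w1 - Real.pi ^ 2 / 3) := by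
  have eA : Complex.exp (w0 + Real.pi * Complex.I) = z := by
    rw [Complex.exp_add, Complex.exp_pi_mul_I, h0]
    ring
  have hz : (1 : ℂ) - z ≠ 0 := right_ne_zero_of_mul_eq_one h1
  have eB : Complex.exp (-w1) = 1 - z := by
    rw [Complex.exp_neg]
    exact (eq_inv_of_mul_eq_one_right h1).symm
  have hAB : Complex.exp (w0 + Real.pi * Complex.I) + Complex.exp (-w1) = 1 := by
    rw [eA, eB]
    ring
  have hlog : Complex.exp (Complex.log (1 - z)) = Complex.exp (-w1) := by
    rw [Complex.exp_log hz, eB]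
  obtain ⟨k, hk⟩ := exp_eq_int hlog
  have e1 : rl (w0 + Real.pi * Complex.I) (-w1) = RN z w0 w1 +
      Real.pi * Complex.I / 2 * Complex.log (1 - z) := by
    unfold rl RN
    rw [eA]
    ring
  obtain ⟨l, hl⟩ := rl_symm hAB
  obtain ⟨m, hm⟩ := rl_inv' (α' := w1) (β' := w0 + w1) (by rw [add_comm]; exact hAB)
    (by rw [← Complex.exp_add, add_neg_cancel, Complex.exp_zero])
    (by rw [← Complex.exp_add, eA, show w0 + w1 + -w1 = w0 by ring, h0])
  have h3 : Complex.exp w1 + Complex.exp (w0 + w1) = 1 := by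
    rw [Complex.exp_add, h0]
    linear_combination h1
  obtain ⟨n, hn⟩ := rl_symm h3
  refine ⟨k + 2 * l - m + 2 * n, ?_⟩
  push_cast
  linear_combination -e1 - Real.pi * Complex.I / 2 * hk + hl - hm + hn - Real.pi ^ 2 * k * Complex.I_sq

section
variable {b : ℤ} {p : ℂ} {V : ℕ → ℂ} {l : ℕ}

/-- one half of a layer -/
theorem hly_RL (hp : p ≠ 0) (h0 : V l ≠ 0) (h1 : V (l + 1) ≠ 0) (h2 : V (l + 2) ≠ 0)
    (hs : V l * V (l + 2) = V (l + 1) ^ 2 + p ^ 2) :
    Cq (sgB b * hly (Complex.log p) (fun l => Complex.log (V l)) l)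
      (-RL (layV b p V l) - Real.pi ^ 2 / 3 + if 0 < b then (0 : ℂ) else Real.pi ^ 2 / 6) := by
  have hV : V (l + 1) ^ 2 + p ^ 2 ≠ 0 := by rw [← hs]; exact mul_ne_zero h0 h2
  unfold hly RL layV sgB zL
  by_cases hb : 0 < b
  · simp only [if_pos hb, one_mul, add_zero]
    obtain ⟨k, hk⟩ := RN_rl (z := -(V (l + 1) / p) ^ 2)
      (w0 := 2 * Complex.log (V (l + 1)) - 2 * Complex.log p)
      (w1 := 2 * Complex.log p - Complex.log (V l) - Complex.log (V (l + 2)))
      (by
        rw [Complex.exp_sub, exp_two, exp_two, Complex.exp_log h1, Complex.exp_log hp, neg_neg, div_pow])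
      (by
        rw [Complex.exp_sub, Complex.exp_sub, exp_two, Complex.exp_log hp, Complex.exp_log h0,
          Complex.exp_log h2]
        field_simp
        rw [mul_comm] at hs
        linear_combination -hs)
    refine ⟨k, ?_⟩
    rw [show 2 * Complex.log (V (l + 1)) - 2 * Complex.log p +
      (2 * Complex.log p - Complex.log (V l) - Complex.log (V (l + 2))) =
      2 * Complex.log (V (l + 1)) - Complex.log (V l) - Complex.log (V (l + 2)) by ring] at hk
    linear_combination hk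
  · simp only [if_neg hb]
    obtain ⟨k, hk⟩ := RN_rl (z := -(p / V (l + 1)) ^ 2)
      (w0 := 2 * Complex.log p - 2 * Complex.log (V (l + 1)))
      (w1 := 2 * Complex.log (V (l + 1)) - Complex.log (V l) - Complex.log (V (l + 2)))
      (by
        rw [Complex.exp_sub, exp_two, exp_two, Complex.exp_log h1, Complex.exp_log hp, neg_neg, div_pow])
      (by
        rw [Complex.exp_sub, Complex.exp_sub, exp_two, Complex.exp_log h1, Complex.exp_log h0,
          Complex.exp_log h2]
        field_simp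
        linear_combination -hs)
    rw [show 2 * Complex.log p - 2 * Complex.log (V (l + 1)) +
      (2 * Complex.log (V (l + 1)) - Complex.log (V l) - Complex.log (V (l + 2))) =
      2 * Complex.log p - Complex.log (V l) - Complex.log (V (l + 2)) by ring] at hk
    have h3 : Complex.exp (2 * Complex.log p - Complex.log (V l) - Complex.log (V (l + 2))) +
        Complex.exp (2 * Complex.log (V (l + 1)) - Complex.log (V l) - Complex.log (V (l + 2))) = 1 := by
      rw [Complex.exp_sub, Complex.exp_sub, Complex.exp_sub, Complex.exp_sub, exp_two, exp_two,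
        Complex.exp_log h1, Complex.exp_log h0, Complex.exp_log h2, Complex.exp_log hp]
      field_simp
      linear_combination -hs
    obtain ⟨n, hn⟩ := rl_symm h3
    refine ⟨k - 2 * n, ?_⟩
    push_cast
    linear_combination hk - hn

end

end Pool.Agent.Work.MP_b30479_gtS.G2

end

section

/-!
# The complexified volume of a twist region in terms of Neumann's function
-/

namespace Pool.Agent.Work.MP_b30479_gtS.G2

open Finset VOL

/-- the values of a Markoff map on a fan and the chain of a twist region -/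
structure VF (p : ℂ) (V U : ℕ → ℂ) (n : ℕ) : Prop where
  p0 : p ≠ 0
  V0 : ∀ l ≤ n + 2, V l ≠ 0
  lin : ∀ l ≤ n, p * V (l + 1) = V l + V (l + 2)
  sqr : ∀ l ≤ n, V l * V (l + 2) = V (l + 1) ^ 2 + p ^ 2
  ch : ∀ l ≤ n, U l * V l = -V (l + 2)

variable {b : ℤ} {x : Fin 3 → ℂ} {p : ℂ} {V U : ℕ → ℂ} {n : ℕ}

lemma VF.fan (F : VF p V U n) : Fan (Complex.log p) (fun l => Complex.log (V l)) n := by
  refine ⟨fun l hl => ?_, fun l hl => ?_⟩
  · rw [Complex.exp_add, Complex.exp_log F.p0, Complex.exp_log (F.V0 _ (by omega)),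
      Complex.exp_log (F.V0 _ (by omega)), Complex.exp_log (F.V0 _ (by omega))]
    exact F.lin l hl
  · rw [Complex.exp_add, exp_two, exp_two, Complex.exp_log F.p0, Complex.exp_log (F.V0 _ (by omega)),
      Complex.exp_log (F.V0 _ (by omega)), Complex.exp_log (F.V0 _ (by omega))]
    exact F.sqr l hl

lemma VF.chQ (F : VF p V U n) : ChQ U (fun l => Complex.log (V l)) n := by
  intro l hl
  rw [Complex.exp_log (F.V0 _ (by omega)), Complex.exp_log (F.V0 _ (by omega))]
  exact F.ch l hl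

lemma VF.hly (F : VF p V U n) {l : ℕ} (hl : l ≤ n) :
    Cq (sgB b * hly (Complex.log p) (fun l => Complex.log (V l)) l)
      (-RL (layV b p V l) - Real.pi ^ 2 / 3 + if 0 < b then (0 : ℂ) else Real.pi ^ 2 / 6) :=
  hly_RL F.p0 (F.V0 _ (by omega)) (F.V0 _ (by omega)) (F.V0 _ (by omega)) (F.sqr l hl)

lemma Cq.sum {ι : Type*} {s : Finset ι} {f g : ι → ℂ} (h : ∀ i ∈ s, Cq (f i) (g i)) :
    Cq (∑ i ∈ s, f i) (∑ i ∈ s, g i) := by
  classical
  induction s using Finset.induction_on with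
  | empty => simpa using Cq.refl 0
  | insert a s ha ih =>
    rw [sum_insert ha, sum_insert ha]
    exact (h a (mem_insert_self a s)).add (ih fun i hi => h i (mem_insert_of_mem hi))

/-- the halves of the layers of `m` letters -/
lemma VF.rs (F : VF p V U n) {m : ℕ} (hm : m ≤ n) :
    Cq (sgB b * G2.rs m (Complex.log p) (fun l => Complex.log (V l)))
      (-(∑ l ∈ range m, (RL (layV b p V l) + RL (layV b p V (l + 1)))) +
        (m : ℂ) * (if 0 < b then -(2 * (Real.pi : ℂ) ^ 2 / 3) else -((Real.pi : ℂ) ^ 2 / 3))) := by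
  have h : Cq (∑ l ∈ range m, (sgB b * G2.hly (Complex.log p) (fun l => Complex.log (V l)) l +
      sgB b * G2.hly (Complex.log p) (fun l => Complex.log (V l)) (l + 1)))
      (∑ l ∈ range m, ((-RL (layV b p V l) - Real.pi ^ 2 / 3 +
        if 0 < b then (0 : ℂ) else Real.pi ^ 2 / 6) + (-RL (layV b p V (l + 1)) - Real.pi ^ 2 / 3 +
        if 0 < b then (0 : ℂ) else Real.pi ^ 2 / 6))) := by
    refine Cq.sum fun l hl => ?_
    rw [mem_range] at hl
    rcases Nat.lt_or_ge (l + 1) (n + 1) with h1 | h1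
    · exact (F.hly (by omega)).add (F.hly (by omega))
    · omega
  obtain ⟨k, hk⟩ := h
  refine ⟨k, ?_⟩
  rw [← hk, G2.rs, mul_sum, ← sum_sub_distrib]
  have e : ∀ c : ℂ, (m : ℂ) * c = ∑ l ∈ range m, c := fun c => by
    rw [sum_const, card_range, nsmul_eq_mul]
  rw [e, ← sum_neg_distrib, ← sum_add_distrib, ← sum_sub_distrib]
  refine sum_congr rfl fun l _ => ?_
  split_ifs <;> ring

/-- the hinge terms of an inner twist region -/
noncomputable def hgL (b : ℤ) (P : ℂ) (Q : ℕ → ℂ) (w D : ℂ) : ℂ :=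
  hng (sgB b * (Q 2 - Q 0)) (2 * P - 2 * Q 1) w D

noncomputable def hgR (b : ℤ) (P : ℂ) (Q : ℕ → ℂ) (w D : ℂ) : ℂ :=
  hng (sgB b * (Q b.natAbs - Q (b.natAbs + 2))) (2 * P - 2 * Q (b.natAbs + 1)) w D

/-- an inner twist region -/
theorem run_RL {t : Typ} (h : LH t b true true x) (F : VF p V (lC t b true true x) b.natAbs) :
    Cq (lW t b true true x +
      hgL b (Complex.log p) (fun l => Complex.log (V l)) (x 0) (ldT t b true true x 0) +
      hgR b (Complex.log p) (fun l => Complex.log (V l)) (x 2) (ldT t b true true x 2))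
      (-(∑ l ∈ range b.natAbs, (RL (layV b p V l) + RL (layV b p V (l + 1)))) -
        Real.pi ^ 2 * b / 6) := by
  obtain ⟨k, hk⟩ := run_cs h F.fan F.chQ
  obtain ⟨m, hm⟩ := F.rs (b := b) le_rfl
  by_cases hb : 0 < b
  · have e := natAbs_cast_pos hb
    rw [if_pos hb] at hm
    rw [e] at hm
    refine ⟨m - k - b, ?_⟩
    unfold hgL hgR
    push_cast
    linear_combination hm - hk
  · have e := natAbs_cast_neg hb
    rw [if_neg hb] at hm
    rw [e] at hm
    refine ⟨m - k, ?_⟩
    unfold hgL hgR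
    push_cast
    linear_combination hm - hk

/-- two logarithms -/
lemma exp_odd {x y : ℂ} (h : Complex.exp x = -Complex.exp y) :
    ∃ k : ℤ, x = y + Real.pi * Complex.I * (2 * k + 1) := by
  obtain ⟨k, hk⟩ := hinge_int (a := 0) (q := y) (q' := x) (by rw [zero_add, h, neg_neg])
  exact ⟨k, by rw [hk]; ring⟩

/-- the correction at an end -/
lemma corr_end (hp : p ≠ 0) {e q : ℂ} (he : e ≠ 0) (hq : q = p * e) (h2 : e ^ 2 = -p ^ 2) :
    Cq (sgB b * (2 * (Complex.log e - Complex.log p) * (Complex.log p - Complex.log q)))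
      (-cend b (p, e) + Real.pi ^ 2 / 2) := by
  obtain ⟨m, hm⟩ := exp_odd (x := 2 * Complex.log e) (y := 2 * Complex.log p) (by
    rw [exp_two, exp_two, Complex.exp_log he, Complex.exp_log hp, h2])
  obtain ⟨k, hk⟩ := exp_eq_int (x := Complex.log q) (y := Complex.log p + Complex.log e) (by
    rw [Complex.exp_add, Complex.exp_log he, Complex.exp_log hp, hq,
      Complex.exp_log (mul_ne_zero hp he)])
  obtain ⟨j, hj⟩ := exp_eq_int (x := Complex.log (p ^ 2)) (y := 2 * Complex.log p) (by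
    rw [exp_two, Complex.exp_log hp, Complex.exp_log (pow_ne_zero 2 hp)])
  have hE : Complex.log e = Complex.log p + Real.pi * Complex.I * (2 * m + 1) / 2 := by
    linear_combination hm / 2
  unfold cend sgB
  simp only
  by_cases hb : 0 < b
  · simp only [if_pos hb]
    rw [hk, hj, hE]
    refine ⟨2 * (m * m + m) + 2 * k * (2 * m + 1) - (2 * m + 1) * j, ?_⟩
    push_cast
    linear_combination (-Real.pi ^ 2 * (2 * m + 1) * ((2 * m + 1) / 2 + 2 * k - j)) * Complex.I_sq
  · simp only [if_neg hb]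
    obtain ⟨i, hi⟩ := exp_eq_int (x := Complex.log ((p ^ 2)⁻¹)) (y := -Complex.log (p ^ 2)) (by
      rw [Complex.exp_neg, Complex.exp_log (pow_ne_zero 2 hp),
        Complex.exp_log (inv_ne_zero (pow_ne_zero 2 hp))])
    rw [hi, hk, hj, hE]
    refine ⟨-(2 * (m * m + m)) - 2 * k * (2 * m + 1) + (2 * m + 1) * (j - i) - 1, ?_⟩
    push_cast
    linear_combination (Real.pi ^ 2 * (2 * m + 1) * ((2 * m + 1) / 2 + 2 * k - j + i)) * Complex.I_sq

/-- the values on the fan at an end -/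
structure VE (b : ℤ) (p : ℂ) (V U : ℕ → ℂ) : Prop where
  vf : VF p V U (b.natAbs - 2)
  top : V (b.natAbs - 1) = p * V b.natAbs
  fold : V b.natAbs ^ 2 = -p ^ 2

lemma VE.fanE (F : VE b p V U) (hb : 2 ≤ b.natAbs) :
    FanE (Complex.log p) (fun l => Complex.log (V l)) b.natAbs := by
  have h1 := F.vf.V0 b.natAbs (by omega)
  have h2 := F.vf.V0 (b.natAbs - 1) (by omega)
  refine ⟨F.vf.fan, ?_, ?_⟩
  · rw [Complex.exp_add, Complex.exp_log h1, Complex.exp_log h2, Complex.exp_log F.vf.p0]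
    exact F.top
  · rw [exp_two, exp_two, Complex.exp_log h1, Complex.exp_log F.vf.p0]
    exact F.fold

/-- a twist region at an end -/
theorem end_RL {t : Typ} {l r : Bool} {w D : ℂ} (hb2 : 2 ≤ b.natAbs) (F : VE b p V U)
    (h : EndCS t b l r x w D (Complex.log p) (fun l => Complex.log (V l))) :
    Cq (lW t b l r x + hgL b (Complex.log p) (fun l => Complex.log (V l)) w D)
      (-(∑ l ∈ range (b.natAbs - 2), (RL (layV b p V l) + RL (layV b p V (l + 1))) +
        RL (layV b p V (b.natAbs - 2))) - cend b (p, V b.natAbs) - Real.pi ^ 2 * b / 6 +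
        Real.pi ^ 2 * (if 0 < b then 2 / 3 else 5 / 6)) := by
  have h1 := F.vf.V0 b.natAbs (by omega)
  obtain ⟨k, hk⟩ := h
  obtain ⟨m, hm⟩ := F.vf.rs (b := b) le_rfl
  obtain ⟨n, hn⟩ := F.vf.hly (b := b) le_rfl
  obtain ⟨j, hj⟩ := corr_end (b := b) F.vf.p0 h1 F.top F.fold
  unfold rsE at hk
  unfold hgL
  by_cases hb : 0 < b
  · have e := natAbs_cast_pos hb
    have e2 : ((b.natAbs - 2 : ℕ) : ℂ) = b - 2 := by
      rw [Nat.cast_sub hb2, e]
      norm_num
    have e3 : sgB b = 1 := if_pos hb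
    rw [if_pos hb, e2] at hm
    rw [if_pos hb] at hn
    rw [e3] at hk hm hn hj ⊢
    rw [if_pos hb]
    refine ⟨m + n + j - k - b + 1, ?_⟩
    push_cast
    linear_combination hm + hn + hj - hk
  · have e := natAbs_cast_neg hb
    have e2 : ((b.natAbs - 2 : ℕ) : ℂ) = -b - 2 := by
      rw [Nat.cast_sub hb2, e]
      norm_num
    have e3 : sgB b = -1 := if_neg hb
    rw [if_neg hb, e2] at hm
    rw [if_neg hb] at hn
    rw [e3] at hk hm hn hj ⊢
    rw [if_neg hb]
    refine ⟨m + n + j - k, ?_⟩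
    push_cast
    linear_combination hm + hn + hj - hk

end Pool.Agent.Work.MP_b30479_gtS.G2

end

section

/-!
# The complexified volume of a signed word
-/

namespace Pool.Agent.Work.MP_b30479_gtS.G2

open Finset VOL
open Pool.Agent.Work.MP_b30479_gtS.LT (ee)

section
variable {N : ℕ} {b : ℕ → ℤ} {Y : ℕ → ℂ} {U : ℕ → ℕ → ℂ} {y : ℂ}

lemma Vk_suc {k : ℕ} (hk : 1 ≤ k) (l : ℕ) : Vk b y k (l + 1) = Fk b y k l := by
  obtain ⟨m, rfl⟩ : ∃ m, k = m + 1 := ⟨k - 1, by omega⟩
  show fan _ _ _ (l + 1) = _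
  rw [← fan_shift]
  show _ = fan _ _ _ l
  congr 1
  ring

lemma Vk_zero {k : ℕ} (hk : 1 ≤ k) : Vk b y k 0 = (St b y k).1 * (St b y k).2.1 - (St b y k).2.2 := by
  obtain ⟨m, rfl⟩ : ∃ m, k = m + 1 := ⟨k - 1, by omega⟩
  rfl

lemma Fk_rec (k l : ℕ) : (St b y k).1 * Fk b y k (l + 1) = Fk b y k l + Fk b y k (l + 2) := by
  show _ = Fk b y k l + ((St b y k).1 * fan _ _ _ (l + 1) - fan _ _ _ l)
  show (St b y k).1 * fan (St b y k).1 (St b y k).2.1 (St b y k).2.2 (l + 1) =
    fan (St b y k).1 (St b y k).2.1 (St b y k).2.2 l + _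
  ring

/-- a fan with nonzero values -/
lemma vf_of {k n : ℕ} (hk : 1 ≤ k) (hI : Inv (St b y k) (U k))
    (hF : ∀ l ≤ n + 1, Fk b y k l ≠ 0) (hS : ∀ l ≤ n, Str (U k l) (St b y k).1 (Fk b y k l) (Fk b y k (l + 1))) :
    VF (St b y k).1 (Vk b y k) (U k) n := by
  have hch : ∀ l ≤ n, U k l * Vk b y k l = -Vk b y k (l + 2) := by
    intro l hl
    have hs := hS l hl
    unfold Str at hs
    rw [show l + 2 = l + 1 + 1 by ring, Vk_suc hk]
    rcases Nat.eq_zero_or_pos l with rfl | h0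
    · rw [Vk_zero hk]
      have e : Fk b y k 0 = (St b y k).2.1 := rfl
      have e1 : Fk b y k (0 + 1) = (St b y k).2.2 := rfl
      rw [e, e1] at hs
      rw [e1]
      linear_combination hs
    · obtain ⟨m, rfl⟩ : ∃ m, l = m + 1 := ⟨l - 1, by omega⟩
      rw [Vk_suc hk]
      have h1 := Fk_rec (b := b) (y := y) k m
      rw [show m + 1 + 1 = m + 2 by ring] at hs ⊢
      linear_combination hs - U k (m + 1) * h1
  have hV : ∀ l ≤ n + 2, Vk b y k l ≠ 0 := by
    intro l hl
    rcases Nat.eq_zero_or_pos l with rfl | h0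
    · intro h
      have := hch 0 (by omega)
      rw [h, mul_zero, zero_add, show (2 : ℕ) = 1 + 1 by rfl, Vk_suc hk] at this
      exact hF 1 (by omega) (by linear_combination this)
    · obtain ⟨m, rfl⟩ : ∃ m, l = m + 1 := ⟨l - 1, by omega⟩
      rw [Vk_suc hk]
      exact hF m (by omega)
  refine ⟨hI.p0, hV, fun l hl => ?_, fun l hl => ?_, hch⟩
  · rw [Vk_suc hk, show l + 2 = l + 1 + 1 by ring, Vk_suc hk]
    rcases Nat.eq_zero_or_pos l with rfl | h0
    · rw [Vk_zero hk]
      show (St b y k).1 * (St b y k).2.1 = _ - _ + (St b y k).2.2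
      ring
    · obtain ⟨m, rfl⟩ : ∃ m, l = m + 1 := ⟨l - 1, by omega⟩
      rw [Vk_suc hk]
      exact Fk_rec k m
  · rw [Vk_suc hk (l + 1), Vk_suc hk l]
    have hM := hI.mkf.fan l
    have h2 : Vk b y k l = (St b y k).1 * Fk b y k l - Fk b y k (l + 1) := by
      rcases Nat.eq_zero_or_pos l with rfl | h0
      · rw [Vk_zero hk]
        rfl
      · obtain ⟨m, rfl⟩ : ∃ m, l = m + 1 := ⟨l - 1, by omega⟩
        rw [Vk_suc hk, Fk_rec k m]
        ring
    rw [h2]
    unfold Mkf at hM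
    have e : fan (St b y k).1 (St b y k).2.1 (St b y k).2.2 l = Fk b y k l := rfl
    have e' : fan (St b y k).1 (St b y k).2.1 (St b y k).2.2 (l + 1) = Fk b y k (l + 1) := rfl
    rw [e, e'] at hM
    linear_combination hM

variable (h : GlueN N b Y U) (hy : (1 - U 0 1) * (1 - (U 0 0)⁻¹) = y ^ 2)
include h hy

lemma GlueN.str {k : ℕ} (hk0 : 1 ≤ k) (hk : k ≤ N) : ∀ l ≤ topN N b k, Fk b y k l ≠ 0 ∧
    Str (U k l) (St b y k).1 (Fk b y k l) (Fk b y k (l + 1)) := by
  have hI := h.inv hy k hk0 hk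
  exact fun l hl => star (h.nd k hk).2 (fun l hl => by rw [h.kap k hk l hl, hI.kap]) hI.p0 hI.q0 hI.str l hl

/-- the values on the fan of an inner twist region -/
lemma GlueN.vf_mid {k : ℕ} (hk0 : 1 ≤ k) (hk : k < N) :
    VF (St b y k).1 (Vk b y k) (U k) (b k).natAbs := by
  have hI := h.inv hy k hk0 hk.le
  have hs := h.str hy hk0 hk.le
  have hR := h.mid k hk0 hk
  have ht : topN N b k = (b k).natAbs := by
    unfold topN
    rw [if_neg (by omega)]
  rw [ht] at hs
  have hnd := h.nd k hk.le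
  rw [ht] at hnd
  have hUA : U k (b k).natAbs ≠ 0 := left_ne_zero_of_mul_eq_one hR.right
  refine vf_of hk0 hI (fun l hl => ?_) fun l hl => (hs l hl).2
  · rcases Nat.lt_or_ge (b k).natAbs l with h1 | h1
    · obtain rfl : l = (b k).natAbs + 1 := by omega
      intro h2
      have h3 := (hs _ le_rfl).2
      unfold Str at h3
      rw [h2, mul_zero] at h3
      exact mul_ne_zero (mul_ne_zero hUA hI.p0) (hs _ le_rfl).1 (by linear_combination h3)
    · exact (hs l h1).1

/-- the values on the last fan -/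
lemma GlueN.ve_last : VE (b N) (St b y N).1 (Vk b y N) (U N) := by
  have hN := h.hN
  have hI := h.inv hy N hN le_rfl
  have hs := h.str hy hN le_rfl
  have h2 := h.last2
  have ht : topN N b N = (b N).natAbs - 1 := by
    unfold topN
    rw [if_pos (Or.inr rfl)]
  have hnd := h.nd N le_rfl
  have hr := (h.run hy hN le_rfl).end0
  rw [ht] at hs hnd hr
  have h3 := hr h.last.right
  rw [show (b N).natAbs - 1 + 1 = (b N).natAbs by omega] at h3
  obtain ⟨m, hm⟩ : ∃ m, (b N).natAbs = m + 2 := ⟨(b N).natAbs - 2, by omega⟩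
  refine ⟨vf_of hN hI (fun l hl => (hs l (by omega)).1)
    (fun l hl => (hs l (by omega)).2), ?_, ?_⟩
  · rw [hm, show m + 2 - 1 = m + 1 by omega, Vk_suc hN (m + 1), Vk_suc hN m, Fk_rec,
      ← hm, h3, add_zero]
  · have hM := hI.mkf.fan (m + 1)
    unfold Mkf at hM
    have e : fan (St b y N).1 (St b y N).2.1 (St b y N).2.2 (m + 1 + 1) = 0 := by
      rw [← h3, hm]
      rfl
    rw [hm, Vk_suc hN (m + 1)]
    rw [e] at hM
    have e' : fan (St b y N).1 (St b y N).2.1 (St b y N).2.2 (m + 1) = Fk b y N (m + 1) := rfl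
    rw [e'] at hM
    linear_combination -hM

/-- the values on the first fan -/
lemma GlueN.ve_first : VE (b 0) y (Vk b y 0) (U 0) := by
  have hN := h.hN
  have h2 := h.first2
  have hI := h.inv hy 1 le_rfl hN
  have hy0 : y ≠ 0 := hI.q0
  have ht0 : topN N b 0 = (b 0).natAbs - 1 := by
    unfold topN
    rw [if_pos (Or.inl rfl)]
  have hk := h.kap 0 (by omega)
  have h1 := h.nd 0 (by omega)
  rw [ht0] at hk h1
  have hs := star_first (p := y) (q1 := Complex.I * y) (U := U 0) (n := (b 0).natAbs - 1) h1.2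
        h.first.right (fun l hl => by rw [hk l hl, hy]) hy0 (mul_ne_zero Complex.I_ne_zero hy0)
  have hF : ∀ m, fan y 0 (Complex.I * y) m = Fk b y 0 m := fun _ => rfl
  simp only [hF] at hs
  obtain ⟨A, hA⟩ : ∃ A, (b 0).natAbs = A + 2 := ⟨(b 0).natAbs - 2, by omega⟩
  have hrec := Fk_rec (b := b) (y := y) 0
  have e0 : (St b y 0).1 = y := rfl
  rw [e0] at hrec
  have hV : ∀ l, Vk b y 0 l = Fk b y 0 ((b 0).natAbs + 1 - l) := fun _ => rfl
  have hMk : Mkf y 0 (Complex.I * y) := by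
    show Complex.I * y * (y * 0 - Complex.I * y) = y ^ 2 + 0 ^ 2
    linear_combination (-y ^ 2) * Complex.I_sq
  have hne : ∀ l ≤ (b 0).natAbs, Vk b y 0 l ≠ 0 := by
    intro l hl
    rw [hV]
    rcases Nat.eq_zero_or_pos l with rfl | h0
    · rw [Nat.sub_zero]
      have h3 := hs ((b 0).natAbs - 1) le_rfl
      rw [show (b 0).natAbs - 1 + 2 = (b 0).natAbs + 1 by omega] at h3
      intro h4
      rw [h4, mul_zero] at h3
      exact mul_ne_zero hy0 h3.1 h3.2.symm
    · have h3 := (hs ((b 0).natAbs - l) (by omega)).1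
      rw [show (b 0).natAbs - l + 1 = (b 0).natAbs + 1 - l by omega] at h3
      exact h3
  refine ⟨⟨hy0, fun l hl => hne l (by omega), fun l hl => ?_, fun l hl => ?_, fun l hl => ?_⟩, ?_, ?_⟩
  · have := hrec ((b 0).natAbs - 1 - l)
    rw [hV, hV, hV, show (b 0).natAbs + 1 - (l + 1) = (b 0).natAbs - 1 - l + 1 by omega, this,
      show (b 0).natAbs + 1 - l = (b 0).natAbs - 1 - l + 2 by omega,
      show (b 0).natAbs + 1 - (l + 2) = (b 0).natAbs - 1 - l by omega, add_comm]
  · have hM := hMk.fan ((b 0).natAbs - 1 - l)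
    have := hrec ((b 0).natAbs - 1 - l)
    unfold Mkf at hM
    rw [hF, hF] at hM
    have hM2 := hMk.fan ((b 0).natAbs - 1 - l + 1)
    unfold Mkf at hM2
    rw [hF, hF, show (b 0).natAbs - 1 - l + 1 + 1 = (b 0).natAbs - 1 - l + 2 by ring, this] at hM2
    rw [hV, hV, hV, show (b 0).natAbs + 1 - (l + 1) = (b 0).natAbs - 1 - l + 1 by omega,
      show (b 0).natAbs + 1 - l = (b 0).natAbs - 1 - l + 2 by omega,
      show (b 0).natAbs + 1 - (l + 2) = (b 0).natAbs - 1 - l by omega]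
    linear_combination hM2
  · have h3 := hs ((b 0).natAbs - 1 - l) (by omega)
    rw [show (b 0).natAbs - 1 - ((b 0).natAbs - 1 - l) = l by omega] at h3
    have := hrec ((b 0).natAbs - 1 - l)
    rw [hV, hV, show (b 0).natAbs + 1 - l = (b 0).natAbs - 1 - l + 2 by omega,
      show (b 0).natAbs + 1 - (l + 2) = (b 0).natAbs - 1 - l by omega]
    linear_combination -h3.2 - this
  · rw [hV, hV, show (b 0).natAbs + 1 - ((b 0).natAbs - 1) = 2 by omega,
      show (b 0).natAbs + 1 - (b 0).natAbs = 1 by omega]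
    show y * (Complex.I * y) - 0 = y * (Complex.I * y)
    ring
  · rw [hV, show (b 0).natAbs + 1 - (b 0).natAbs = 1 by omega]
    show (Complex.I * y) ^ 2 = _
    linear_combination (y ^ 2) * Complex.I_sq

end

end Pool.Agent.Work.MP_b30479_gtS.G2

end

section

/-!
# The complexified volume of a signed word, part B
-/

namespace Pool.Agent.Work.MP_b30479_gtS.G2

open Finset VOL
open Pool.Agent.Work.MP_b30479_gtS.LT (ee)

/-! ### hinges -/

section
variable {b : ℕ → ℤ} {y : ℂ}

/-- the term of a hinge -/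
noncomputable def hgT (b : ℕ → ℤ) (y : ℂ) (k : ℕ) (w D : ℂ) : ℂ :=
  hng (sgB (b k) * (Complex.log (Fk b y k ((b k).natAbs - 1)) - Complex.log (Fk b y k ((b k).natAbs + 1))))
    (2 * Complex.log (St b y k).1 - 2 * Complex.log (Fk b y k (b k).natAbs)) w D

/-- the hinge seen from the left -/
lemma hgT_right {k : ℕ} (hk : 1 ≤ k) (hb : b k ≠ 0) (w D : ℂ) :
    hgR (b k) (Complex.log (St b y k).1) (fun l => Complex.log (Vk b y k l)) w D = hgT b y k w D := by
  unfold hgR hgT
  simp only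
  obtain ⟨m, hm⟩ : ∃ m, (b k).natAbs = m + 1 := ⟨(b k).natAbs - 1, by omega⟩
  rw [hm, Vk_suc hk m, show m + 1 + 2 = m + 2 + 1 by ring, Vk_suc hk (m + 2), Vk_suc hk (m + 1),
    Nat.add_sub_cancel]

lemma hgT_first (w D : ℂ) :
    hgL (b 0) (Complex.log y) (fun l => Complex.log (Vk b y 0 l)) w D = hgT b y 0 w D := by
  unfold hgL hgT
  have hV : ∀ l, Vk b y 0 l = Fk b y 0 ((b 0).natAbs + 1 - l) := fun _ => rfl
  simp only [hV]
  rw [show (b 0).natAbs + 1 - 2 = (b 0).natAbs - 1 by omega, Nat.sub_zero, Nat.add_sub_cancel]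
  rfl

/-- the hinge seen from the right -/
lemma hgT_left {k : ℕ} (hb : b k ≠ 0) (hb' : b (k + 1) ≠ 0) {w D D' : ℂ} (hD : D + D' = 0) :
    hgL (b (k + 1)) (Complex.log (St b y (k + 1)).1) (fun l => Complex.log (Vk b y (k + 1) l)) w D' =
      -hgT b y k w D := by
  unfold hgL hgT
  simp only
  obtain ⟨m, hm⟩ : ∃ m, (b k).natAbs = m + 1 := ⟨(b k).natAbs - 1, by omega⟩
  have hrec := Fk_rec (b := b) (y := y) k m
  have e1 : (St b y (k + 1)).1 = Fk b y k (b k).natAbs := rfl
  have e2 : (St b y (k + 1)).2.1 = (St b y k).1 := rfl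
  have e3 : (St b y (k + 1)).2.2 = nq (b k) (b (k + 1)) (St b y k).1 (St b y k).2.1 (St b y k).2.2 := rfl
  have e4 : Vk b y (k + 1) 1 = (St b y (k + 1)).2.1 := Vk_suc (by omega) 0
  have e5 : Vk b y (k + 1) 2 = (St b y (k + 1)).2.2 := Vk_suc (by omega) 1
  have e6 : Vk b y (k + 1) 0 = _ := Vk_zero (by omega)
  rw [← hng_neg, show -D = D' by linear_combination -hD, e4, e5, e6, e1, e2, e3, hm, Nat.add_sub_cancel]
  unfold nq
  by_cases hs : b k * b (k + 1) < 0
  · rw [if_pos hs, hm]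
    have e7 : Fk b y k (m + 1) * (St b y k).1 - fan (St b y k).1 (St b y k).2.1 (St b y k).2.2 (m + 1 + 1) =
        Fk b y k m := by
      have : fan (St b y k).1 (St b y k).2.1 (St b y k).2.2 (m + 1 + 1) = Fk b y k (m + 2) := rfl
      rw [this]
      linear_combination hrec
    have e8 : sgB (b (k + 1)) = -sgB (b k) := by
      rw [mul_neg_iff'] at hs
      unfold sgB
      rcases hs with ⟨h1, h2⟩ | ⟨h1, h2⟩
      · rw [if_pos h1, if_neg (by omega)]
      · rw [if_pos h2, if_neg (by omega : ¬ 0 < b k), neg_neg]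
    have e9 : fan (St b y k).1 (St b y k).2.1 (St b y k).2.2 (m + 1 + 1) = Fk b y k (m + 1 + 1) := rfl
    rw [e7, e8, e9]
    congr 1 <;> ring
  · rw [if_neg hs, hm, Nat.add_sub_cancel]
    have e9 : fan (St b y k).1 (St b y k).2.1 (St b y k).2.2 m = Fk b y k m := rfl
    have e7 : Fk b y k (m + 1) * (St b y k).1 - Fk b y k m = Fk b y k (m + 1 + 1) := by
      have : Fk b y k (m + 1 + 1) = Fk b y k (m + 2) := rfl
      rw [this]
      linear_combination hrec
    have e8 : sgB (b (k + 1)) = sgB (b k) := by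
      rw [mul_neg_iff'] at hs
      unfold sgB
      split_ifs <;> first | rfl | omega
    rw [e9, e7, e8]
    congr 1
    ring

end

/-! ### the sum -/

section
variable {M : ℕ} {b : Fin (M + 2) → ℤ} {t : Fin (M + 2) → Typ}
  {z : DD (M := M + 1) t ⊕ ZZ (M := M + 1) t → ℂ}

/-- the term of a twist region -/
noncomputable def WL (b : Fin (M + 2) → ℤ) (t : Fin (M + 2) → Typ)
    (z : DD (M := M + 1) t ⊕ ZZ (M := M + 1) t → ℂ) (i : Fin (M + 2)) : ℂ :=
  lW (t i) (b i) (decide (i ≠ 0)) (decide (i ≠ Fin.last (M + 1))) (xx t i z)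

/-- the complexified volume of a critical point -/
noncomputable def cvT (b : Fin (M + 2) → ℤ) (t : Fin (M + 2) → Typ)
    (z : DD (M := M + 1) t ⊕ ZZ (M := M + 1) t → ℂ) : ℂ :=
  2 * Real.pi * (wdat (M := M + 1) t b).T z -
    Real.pi ^ 2 * Complex.I / 2 * ∑ v : ZZ (M := M + 1) t, (b v.1 : ℂ)

lemma sum_ZZ (f : Fin (M + 2) → ℂ) : ∑ v : ZZ (M := M + 1) t, f v.1 =
    ∑ i, if t i = .ring then f i else 0 := by
  have h : ∀ i, (t i).isRing = true ↔ t i = .ring := by
    intro i
    cases t i <;> simp [Typ.isRing]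
  rw [← Finset.sum_subtype (Finset.univ.filter fun i => (t i).isRing = true) (by simp) f,
    Finset.sum_filter]
  refine sum_congr rfl fun i _ => ?_
  by_cases h1 : t i = .ring
  · rw [if_pos ((h i).mpr h1), if_pos h1]
  · rw [if_neg fun h2 => h1 ((h i).mp h2), if_neg h1]

lemma cvT_eq : cvT b t z = Complex.I * ∑ i, WL b t z i := by
  unfold cvT WL lW
  have h1 : ∑ v : ZZ (M := M + 1) t, (Real.pi * Complex.I * b v.1 * z (.inr v) ^ 2 +
      2 * Real.pi * Complex.I * z (.inr v)) = ∑ i, if t i = .ring then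
        (Real.pi * Complex.I * b i * xx t i z 1 ^ 2 + 2 * Real.pi * Complex.I * xx t i z 1) else 0 := by
    rw [← sum_ZZ (t := t) (fun i => Real.pi * Complex.I * b i * xx t i z 1 ^ 2 +
      2 * Real.pi * Complex.I * xx t i z 1)]
    refine sum_congr rfl fun v _ => ?_
    rw [xx_ring t v.2 z]
  rw [wdat_T, h1, sum_ZZ (t := t) (fun i => (b i : ℂ)), mul_add, mul_sum, mul_sum, mul_sum, mul_sum,
    ← sum_add_distrib, ← sum_sub_distrib]
  refine sum_congr rfl fun i _ => ?_
  split_ifs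
  · linear_combination (2 * Real.pi * lT (t i) (b i) (decide (i ≠ 0)) (decide (i ≠ Fin.last (M + 1)))
      (xx t i z) + 2 * Real.pi * (Real.pi * Complex.I * b i * xx t i z 1 ^ 2 +
      2 * Real.pi * Complex.I * xx t i z 1)) * Complex.I_sq
  · linear_combination (2 * Real.pi * lT (t i) (b i) (decide (i ≠ 0)) (decide (i ≠ Fin.last (M + 1)))
      (xx t i z)) * Complex.I_sq

/-- the derivative at the turning point `j`, left twist region -/
noncomputable def DR (b : Fin (M + 2) → ℤ) (t : Fin (M + 2) → Typ)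
    (z : DD (M := M + 1) t ⊕ ZZ (M := M + 1) t → ℂ) (j : Fin (M + 1)) : ℂ :=
  ldT (t j.castSucc) (b j.castSucc) (decide (j.castSucc ≠ 0)) true (xx t j.castSucc z) 2

/-- the term of the turning point `j` -/
noncomputable def HgW (b : Fin (M + 2) → ℤ) (t : Fin (M + 2) → Typ)
    (z : DD (M := M + 1) t ⊕ ZZ (M := M + 1) t → ℂ) (y : ℂ) (j : Fin (M + 1)) : ℂ :=
  hgT (xt 1 b) y j (z (.inl (.inl j))) (DR b t z j)

/-- the constants of a twist region -/
noncomputable def cK (b : ℤ) : ℂ := if 0 < b then 2 / 3 else 5 / 6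

section
variable {y : ℂ} (ht : GTyp b t)
    (hin : ∀ k, 0 < ((wdat (M := M + 1) t b).form k z).re ∧ ((wdat (M := M + 1) t b).form k z).re < 1)
    (hc : ∀ i, (wdat (M := M + 1) t b).dT z i = 0) (hn : GNv b t z)
    (hG : GlueN (M + 1) (xt 1 b) (xt 1 (gY t z)) (xt (fun _ => 1) (gU b t z)))
    (hy : (1 - xt (fun _ => 1) (gU b t z) 0 1) * (1 - (xt (fun _ => 1) (gU b t z) 0 0)⁻¹) = y ^ 2)
include ht hin hc hn hG hy

lemma reg_first : Cq (WL b t z 0 + HgW b t z y 0) (-HS (M + 1) (xt 1 b) y 0 -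
    cend (b 0) (y, Complex.I * y) - Real.pi ^ 2 * b 0 / 6 + Real.pi ^ 2 * cK (b 0)) := by
  have hl0 : (0 : Fin (M + 2)) ≠ Fin.last (M + 1) := (Fin.last_pos' (n := M + 1)).ne
  have h := geo_LH ht hin hc hn 0
  have e : xx t 0 z 2 = z (.inl (.inl 0)) := xx_right (M := M + 1) t 0 z
  have hb : xt 1 b 0 = b 0 := xt_eq 1 b 0
  have h2 : 2 ≤ (b 0).natAbs := by
    have := hG.first2
    rwa [hb] at this
  have hV := hG.ve_first hy
  have hU : xt (fun _ => 1) (gU b t z) 0 = gU b t z 0 := xt_eq _ _ 0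
  rw [hU, gU_eq, hb] at hV
  simp only [ne_eq, not_true_eq_false, decide_false, hl0, not_false_eq_true, decide_true] at h hV
  have h1 := end_RL h2 hV (first_cs h (hV.fanE h2) hV.vf.chQ)
  have h3 := hgT_first (b := xt 1 b) (y := y) (xx t 0 z 2) (ldT (t 0) (b 0) false true (xx t 0 z) 2)
  rw [hb] at h3
  rw [h3] at h1
  have e1 : Vk (xt 1 b) y 0 (b 0).natAbs = Complex.I * y := by
    show Fk (xt 1 b) y 0 ((xt 1 b 0).natAbs + 1 - (b 0).natAbs) = _
    rw [hb, Nat.add_sub_cancel_left]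
    rfl
  have e2 : WL b t z 0 = lW (t 0) (b 0) false true (xx t 0 z) := by
    unfold WL
    simp [hl0]
  have e3 : HgW b t z y 0 = hgT (xt 1 b) y 0 (xx t 0 z 2) (ldT (t 0) (b 0) false true (xx t 0 z) 2) := by
    unfold HgW DR
    rw [e]
    simp
  have e4 : HS (M + 1) (xt 1 b) y 0 = ∑ l ∈ range ((b 0).natAbs - 2),
      (RL (layV (b 0) y (Vk (xt 1 b) y 0) l) + RL (layV (b 0) y (Vk (xt 1 b) y 0) (l + 1))) +
      RL (layV (b 0) y (Vk (xt 1 b) y 0) ((b 0).natAbs - 2)) := by
    unfold HS RKc nlN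
    rw [if_pos (Or.inl rfl), if_pos (Or.inl rfl), hb]
    rfl
  rw [e1] at h1
  rw [e2, e3, e4, cK]
  exact h1

lemma reg_last : Cq (WL b t z (Fin.last (M + 1)) - HgW b t z y (Fin.last M))
    (-HS (M + 1) (xt 1 b) y (M + 1 : ℕ) - cend (b (Fin.last (M + 1))) ((St (xt 1 b) y (M + 1)).1,
      Fk (xt 1 b) y (M + 1) ((b (Fin.last (M + 1))).natAbs - 1)) -
      Real.pi ^ 2 * b (Fin.last (M + 1)) / 6 + Real.pi ^ 2 * cK (b (Fin.last (M + 1)))) := by
  have hl0 : (Fin.last (M + 1) : Fin (M + 2)) ≠ 0 := (Fin.last_pos' (n := M + 1)).ne'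
  have h := geo_LH ht hin hc hn (Fin.last (M + 1))
  have e : xx t (Fin.last (M + 1)) z 0 = z (.inl (.inl (Fin.last M))) :=
    xx_left (M := M + 1) t (Fin.last M) z
  have hb : xt 1 b (M + 1) = b (Fin.last (M + 1)) := xt_eq 1 b (Fin.last (M + 1))
  have h2 : 2 ≤ (b (Fin.last (M + 1))).natAbs := by
    have := hG.last2
    rwa [hb] at this
  have hV := hG.ve_last hy
  have hU : xt (fun _ => 1) (gU b t z) (M + 1) = gU b t z (Fin.last (M + 1)) :=
    xt_eq _ _ (Fin.last (M + 1))
  rw [hU, gU_eq, hb] at hV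
  simp only [ne_eq, not_true_eq_false, decide_false, hl0, not_false_eq_true, decide_true] at h hV
  have h1 := end_RL h2 hV (last_cs h (hV.fanE h2) hV.vf.chQ)
  have hD : DR b t z (Fin.last M) + ldT (t (Fin.last (M + 1))) (b (Fin.last (M + 1))) true false
      (xx t (Fin.last (M + 1)) z) 0 = 0 := by
    have := grT_hinge hc (Fin.last M)
    simpa [DR] using this
  have h3 := hgT_left (b := xt 1 b) (y := y) (k := M) (w := xx t (Fin.last (M + 1)) z 0)
    (hG.b0 M (by omega)) (hG.b0 (M + 1) le_rfl) hD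
  rw [hb] at h3
  rw [h3] at h1
  have e1 : Vk (xt 1 b) y (M + 1) (b (Fin.last (M + 1))).natAbs =
      Fk (xt 1 b) y (M + 1) ((b (Fin.last (M + 1))).natAbs - 1) := by
    obtain ⟨m, hm⟩ : ∃ m, (b (Fin.last (M + 1))).natAbs = m + 1 :=
      ⟨(b (Fin.last (M + 1))).natAbs - 1, by omega⟩
    rw [hm, Vk_suc (by omega), Nat.add_sub_cancel]
  have e2 : WL b t z (Fin.last (M + 1)) = lW (t (Fin.last (M + 1))) (b (Fin.last (M + 1))) true false
      (xx t (Fin.last (M + 1)) z) := by
    unfold WL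
    simp [hl0]
  have e3 : HgW b t z y (Fin.last M) = hgT (xt 1 b) y M (xx t (Fin.last (M + 1)) z 0)
      (DR b t z (Fin.last M)) := by
    unfold HgW
    rw [e]
    rfl
  have e4 : HS (M + 1) (xt 1 b) y (M + 1) = ∑ l ∈ range ((b (Fin.last (M + 1))).natAbs - 2),
      (RL (layV (b (Fin.last (M + 1))) (St (xt 1 b) y (M + 1)).1 (Vk (xt 1 b) y (M + 1)) l) +
        RL (layV (b (Fin.last (M + 1))) (St (xt 1 b) y (M + 1)).1 (Vk (xt 1 b) y (M + 1)) (l + 1))) +
      RL (layV (b (Fin.last (M + 1))) (St (xt 1 b) y (M + 1)).1 (Vk (xt 1 b) y (M + 1))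
        ((b (Fin.last (M + 1))).natAbs - 2)) := by
    unfold HS RKc nlN
    rw [if_pos (Or.inr rfl), if_pos (Or.inr rfl), hb]
  rw [e1] at h1
  rw [e2, e3, e4, cK]
  exact h1

lemma reg_mid (j : Fin M) : Cq (WL b t z j.castSucc.succ - HgW b t z y j.castSucc + HgW b t z y j.succ)
    (-HS (M + 1) (xt 1 b) y (j + 1 : ℕ) - Real.pi ^ 2 * b j.castSucc.succ / 6) := by
  have hj0 : j.castSucc.succ ≠ 0 := Fin.succ_ne_zero _
  have hjl : j.castSucc.succ ≠ Fin.last (M + 1) := by
    rw [← Fin.castSucc_succ]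
    exact Fin.castSucc_ne_last _
  have h := geo_LH ht hin hc hn j.castSucc.succ
  have e : xx t j.castSucc.succ z 0 = z (.inl (.inl j.castSucc)) := xx_left (M := M + 1) t j.castSucc z
  have e' : xx t j.castSucc.succ z 2 = z (.inl (.inl j.succ)) := by
    rw [← Fin.castSucc_succ]
    exact xx_right (M := M + 1) t j.succ z
  have hb : xt 1 b (j + 1) = b j.castSucc.succ := xt_eq 1 b j.castSucc.succ
  have hV := hG.vf_mid hy (k := j + 1) (by omega) (by omega)
  have hU : xt (fun _ => 1) (gU b t z) (j + 1) = gU b t z j.castSucc.succ :=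
    xt_eq _ _ j.castSucc.succ
  rw [hU, gU_eq, hb] at hV
  simp only [ne_eq, hj0, hjl, not_false_eq_true, decide_true] at h hV
  have h1 := run_RL h hV
  have hD : DR b t z j.castSucc + ldT (t j.castSucc.succ) (b j.castSucc.succ) true true
      (xx t j.castSucc.succ z) 0 = 0 := by
    have := grT_hinge hc j.castSucc
    simpa only [DR, ne_eq, hjl, not_false_eq_true, decide_true] using this
  have h3 := hgT_left (b := xt 1 b) (y := y) (k := j) (w := xx t j.castSucc.succ z 0)
    (hG.b0 j (by omega)) (hG.b0 (j + 1) (by omega)) hD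
  have h4 := hgT_right (b := xt 1 b) (y := y) (k := j + 1) (by omega) (hG.b0 (j + 1) (by omega))
    (xx t j.castSucc.succ z 2) (ldT (t j.castSucc.succ) (b j.castSucc.succ) true true
      (xx t j.castSucc.succ z) 2)
  rw [hb] at h3 h4
  rw [h3, h4] at h1
  have e2 : WL b t z j.castSucc.succ = lW (t j.castSucc.succ) (b j.castSucc.succ) true true
      (xx t j.castSucc.succ z) := by
    unfold WL
    simp only [ne_eq, hj0, hjl, not_false_eq_true, decide_true]
  have e3 : HgW b t z y j.castSucc = hgT (xt 1 b) y j (xx t j.castSucc.succ z 0)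
      (DR b t z j.castSucc) := by
    unfold HgW
    rw [e]
    rfl
  have e5 : HgW b t z y j.succ = hgT (xt 1 b) y (j + 1) (xx t j.castSucc.succ z 2)
      (ldT (t j.castSucc.succ) (b j.castSucc.succ) true true (xx t j.castSucc.succ z) 2) := by
    unfold HgW DR
    rw [e']
    simp only [Fin.castSucc_succ, ne_eq, hj0, not_false_eq_true, decide_true, Fin.val_succ]
  have e4 : HS (M + 1) (xt 1 b) y (j + 1) = ∑ l ∈ range (b j.castSucc.succ).natAbs,
      (RL (layV (b j.castSucc.succ) (St (xt 1 b) y (j + 1)).1 (Vk (xt 1 b) y (j + 1)) l) +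
        RL (layV (b j.castSucc.succ) (St (xt 1 b) y (j + 1)).1 (Vk (xt 1 b) y (j + 1)) (l + 1))) := by
    unfold HS RKc nlN
    rw [if_neg (by omega), if_neg (by omega), hb, add_zero]
  rw [e2, e3, e5, e4, sub_eq_add_neg _ (hgT _ _ _ _ _)]
  exact h1

end

end

end Pool.Agent.Work.MP_b30479_gtS.G2

end

section

/-!
# The complexified volume of a signed word, part C
-/

namespace Pool.Agent.Work.MP_b30479_gtS.G2

open Finset VOL

section
variable {b : ℕ → ℤ} {y : ℂ}

lemma kap_dig : ∀ n k, (kapL (dig b k n) : ℤ) = -∑ i ∈ range (n + 1), b (k + i) +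
    3 * (((range n).filter fun j => ¬ b (k + j) * b (k + j + 1) < 0).card : ℤ) := by
  intro n
  induction n with
  | zero =>
    intro k
    simp [dig_zero, kapL]
  | succ n ih =>
    intro k
    have h := ih (k + 1)
    rw [dig_succ' b k n] at h
    rw [dig_succ, kapL, h, sum_range_succ' _ (n + 1), add_zero]
    have e1 : ∑ i ∈ range (n + 1), b (k + 1 + i) = ∑ i ∈ range (n + 1), b (k + (i + 1)) :=
      sum_congr rfl fun i _ => by rw [add_assoc, add_comm 1 i]
    have e2 : ((range (n + 1)).filter fun j => ¬ b (k + j) * b (k + j + 1) < 0).card =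
        (if b k * b (k + 1) < 0 then 0 else 1) +
        ((range n).filter fun j => ¬ b (k + 1 + j) * b (k + 1 + j + 1) < 0).card := by
      rw [card_filter, card_filter, sum_range_succ', add_zero, add_comm]
      congr 1
      · split_ifs <;> rfl
      · refine sum_congr rfl fun j _ => ?_
        rw [show k + (j + 1) = k + 1 + j by ring]
    rw [e1, e2]
    push_cast
    split_ifs <;> ring

lemma fpe_dig : ∀ n k, fpe (St b y k).1 (St b y k).2.1 (St b y k).2.2 (dig b k n) =
    ((St b y (k + n)).1, Fk b y (k + n) ((b (k + n)).natAbs - 1)) := by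
  intro n
  induction n with
  | zero => intro k; rfl
  | succ n ih =>
    intro k
    have := ih (k + 1)
    rw [show k + 1 + n = k + (n + 1) by omega] at this
    rw [← this]
    rfl

lemma lst_dig : ∀ n k, lst (dig b k n) = b (k + n) := by
  intro n
  induction n with
  | zero => intro k; rfl
  | succ n ih =>
    intro k
    have := ih (k + 1)
    rw [show k + 1 + n = k + (n + 1) by omega] at this
    rw [← this]
    rfl

end

section
variable {M : ℕ} {b : Fin (M + 2) → ℤ} {t : Fin (M + 2) → Typ}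
  {z : DD (M := M + 1) t ⊕ ZZ (M := M + 1) t → ℂ} {y : ℂ}

/-- The complexified volume of a critical point. -/
theorem cvT_cvL (ht : GTyp b t)
    (hin : ∀ k, 0 < ((wdat (M := M + 1) t b).form k z).re ∧ ((wdat (M := M + 1) t b).form k z).re < 1)
    (hc : ∀ i, (wdat (M := M + 1) t b).dT z i = 0) (hn : GNv b t z)
    (hG : GlueN (M + 1) (xt 1 b) (xt 1 (gY t z)) (xt (fun _ => 1) (gU b t z)))
    (hy : (1 - xt (fun _ => 1) (gU b t z) 0 1) * (1 - (xt (fun _ => 1) (gU b t z) 0 0)⁻¹) = y ^ 2)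
    (hb0 : 0 < b 0) : Ci (cvT b t z) (cvL y (List.ofFn b)) := by
  obtain ⟨k0, h0⟩ := reg_first ht hin hc hn hG hy
  obtain ⟨k1, h1⟩ := reg_last ht hin hc hn hG hy
  obtain ⟨k2, h2⟩ : Cq (∑ j : Fin M, (WL b t z j.castSucc.succ - HgW b t z y j.castSucc + HgW b t z y j.succ))
      (∑ j : Fin M, (-HS (M + 1) (xt 1 b) y (j + 1 : ℕ) - Real.pi ^ 2 * b j.castSucc.succ / 6)) :=
    Cq.sum fun j _ => reg_mid ht hin hc hn hG hy j
  obtain ⟨k3, h3⟩ := HS_sum hG hy
  have hW : ∑ i, WL b t z i = WL b t z 0 + (∑ j : Fin M, WL b t z j.castSucc.succ +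
      WL b t z (Fin.last (M + 1))) := by
    rw [Fin.sum_univ_succ, Fin.sum_univ_castSucc]
    rfl
  have hH : HgW b t z y 0 + ∑ j : Fin M, HgW b t z y j.succ =
      ∑ j : Fin M, HgW b t z y j.castSucc + HgW b t z y (Fin.last M) := by
    rw [← Fin.sum_univ_succ (fun j => HgW b t z y j), ← Fin.sum_univ_castSucc (fun j => HgW b t z y j)]
  have hB : ∑ i ∈ range (M + 1 + 1), (xt 1 b i : ℤ) = b 0 + (∑ j : Fin M, b j.castSucc.succ +
      b (Fin.last (M + 1))) := by
    rw [sum_range]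
    rw [Fin.sum_univ_succ, Fin.sum_univ_castSucc]
    simp only [xt_eq]
    rfl
  have hS : ∑ k ∈ range (M + 1 + 1), HS (M + 1) (xt 1 b) y k = HS (M + 1) (xt 1 b) y 0 +
      (∑ j : Fin M, HS (M + 1) (xt 1 b) y (j + 1 : ℕ) + HS (M + 1) (xt 1 b) y (M + 1 : ℕ)) := by
    rw [sum_range, Fin.sum_univ_succ, Fin.sum_univ_castSucc]
    rfl
  have hk := kap_dig (b := xt 1 b) (M + 1) 0
  have hf := fpe_dig (b := xt 1 b) (y := y) (M + 1) 0
  have hl := lst_dig (b := xt 1 b) (M + 1) 0
  have hbl : xt 1 b (M + 1) = b (Fin.last (M + 1)) := xt_eq 1 b (Fin.last (M + 1))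
  simp only [zero_add] at hk hf hl
  rw [hbl] at hl hf
  rw [hB] at hk
  have hkc := congrArg (fun n : ℤ => (n : ℂ)) hk
  push_cast at hkc
  rw [sum_add_distrib, sum_sub_distrib, sum_sub_distrib, sum_neg_distrib, ← sum_div, ← mul_sum] at h2
  rw [hS] at h3
  rw [cvT_eq, hW]
  have hc0 : cend (b 0) (y, Complex.I * y) = (Complex.log (Complex.I * y) - Complex.log y) *
      Complex.log (y ^ 2) := by
    unfold cend
    rw [if_pos hb0]
  rw [hc0, cK, if_pos hb0] at h0
  unfold cvL
  rw [ofFn_dig]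
  have e1 : fpe y 0 (Complex.I * y) (dig (xt 1 b) 0 (M + 1)) = _ := hf
  have e2 : rsum (Lys 2 y 0 (Complex.I * y) (dig (xt 1 b) 0 (M + 1))) = rsum (LS' (xt 1 b) y 2 0 (M + 1)) := rfl
  rw [e1, e2, hl, hkc]
  unfold cK at h1
  set ns : ℂ := (((range (M + 1)).filter fun j => ¬ xt 1 b j * xt 1 b (j + 1) < 0).card : ℂ) with hns
  refine ⟨k0 + k1 + k2 - k3 - (((range (M + 1)).filter fun j => ¬ xt 1 b j * xt 1 b (j + 1) < 0).card : ℤ), ?_⟩
  push_cast
  rw [← hns]
  linear_combination Complex.I * (h0 + h1 + h2 - h3 - hH)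

end

end Pool.Agent.Work.MP_b30479_gtS.G2

end
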