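import Pool.Agent.Work.MP_b30479_gt.TBS.G2.SPosA
import Pool.Agent.Work.MP_b30479_gt.TBS.G2.SWList
import Pool.Agent.Work.MP_b30479_gt.TBS.LT.Rigid
import Pool.Agent.Work.MP_b30479_gt.TBS.G2.CSHat

section

/-!
# Positivity of the layers of a word: all rings
-/

namespace Pool.Agent.Work.MP_b30479_gtS.G2

open Complex

/-! ### the own frame -/

/-- identity or conjugation -/
noncomputable def cjz (s : ℤ) : ℂ →+* ℂ := if 0 < s then RingHom.id ℂ else starRingEnd ℂ

lemma cjz_pos {s : ℤ} (h : 0 < s) (z : ℂ) : cjz s z = z := by simp [cjz, h]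

lemma cjz_neg {s : ℤ} (h : ¬0 < s) (z : ℂ) : cjz s z = (starRingEnd ℂ) z := by simp [cjz, h]

lemma cjz_re (s : ℤ) (z : ℂ) : (cjz s z).re = z.re := by
  by_cases h : 0 < s
  · rw [cjz_pos h]
  · rw [cjz_neg h, conj_re]

lemma cjz_im (s : ℤ) (z : ℂ) : (cjz s z).im = sI s * z.im := by
  by_cases h : 0 < s
  · rw [cjz_pos h, sI, if_pos h, one_mul]
  · rw [cjz_neg h, conj_im, sI, if_neg h, neg_one_mul]

lemma cjz_cj (s : ℤ) (z : ℂ) : cjz s (cjz s z) = z := by
  by_cases h : 0 < s
  · rw [cjz_pos h, cjz_pos h]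
  · rw [cjz_neg h, cjz_neg h, conj_conj]

lemma cjz_I (s : ℤ) : cjz s I = sI s * I := by
  by_cases h : 0 < s
  · rw [cjz_pos h, sI, if_pos h]; simp
  · rw [cjz_neg h, conj_I, sI, if_neg h]; simp

lemma cjz_ofReal (s : ℤ) (x : ℝ) : cjz s (x : ℂ) = x := by
  by_cases h : 0 < s
  · rw [cjz_pos h]
  · rw [cjz_neg h, conj_ofReal]

lemma cjz_cos (s : ℤ) (z : ℂ) : cjz s (Complex.cos z) = Complex.cos (cjz s z) := by
  by_cases h : 0 < s
  · rw [cjz_pos h, cjz_pos h]
  · rw [cjz_neg h, cjz_neg h, Complex.cos_conj]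

lemma cjz_sin (s : ℤ) (z : ℂ) : cjz s (Complex.sin z) = Complex.sin (cjz s z) := by
  by_cases h : 0 < s
  · rw [cjz_pos h, cjz_pos h]
  · rw [cjz_neg h, cjz_neg h, Complex.sin_conj]

lemma cjz_tan (s : ℤ) (z : ℂ) : cjz s (Complex.tan z) = Complex.tan (cjz s z) := by
  by_cases h : 0 < s
  · rw [cjz_pos h, cjz_pos h]
  · rw [cjz_neg h, cjz_neg h, Complex.tan_conj]

lemma cjz_RR (s : ℤ) {w k : ℂ} (h : 0 < (RR w k).re) : cjz s (RR w k) = RR (cjz s w) (cjz s k) := by
  by_cases h' : 0 < s
  · rw [cjz_pos h', cjz_pos h', cjz_pos h']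
  · rw [cjz_neg h', cjz_neg h', cjz_neg h', RR_conj h]

lemma cjz_QQ (s : ℤ) {w k : ℂ} (h : 0 < (RR w k).re) (h0 : 0 ≤ w.re) (h1 : w.re ≤ 3 / 2)
    (hk : 0 < k.re) : cjz s (QQ w k) = QQ (cjz s w) (cjz s k) := by
  by_cases h' : 0 < s
  · rw [cjz_pos h', cjz_pos h', cjz_pos h']
  · rw [cjz_neg h', cjz_neg h', cjz_neg h', QQ_conj h h0 h1 hk]

lemma sp_r0 : 0 < r0 := by unfold r0; norm_num

lemma sI_sg {M : ℕ} {b : Fin (M + 1) → ℤ} (n : ℕ) : SR.sg b n = sI (SR.bb b n) := rfl

lemma sI_mul_self (s : ℤ) : (sI s : ℂ) * sI s = 1 := by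
  unfold sI
  split_ifs <;> norm_num

namespace SR

set_option linter.unusedSectionVars false

variable {M : ℕ} (b : Fin (M + 1) → ℤ) (w : ℕ → ℂ)

/-- the ring `n` in its own frame -/
noncomputable def qW (n : ℕ) : ℂ := cjz (bb b n) (w n)

/-- the neighbours of the ring `n` in the frame of the ring `n` -/
noncomputable def qR (n : ℕ) : ℂ := cjz (bb b n) (Complex.cos (w (rn b n)))

noncomputable def qL (n : ℕ) : ℂ := cjz (bb b n) (Complex.cos (w (ln b n)))

variable {b w} (hb : ClassW b) (F : RingFacts) (hw : Sol b w)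

section
include hw

lemma qW_cos (n : ℕ) : Complex.cos (qW b w n) = cjz (bb b n) (Complex.cos (w n)) :=
  (cjz_cos _ _).symm

lemma qW_mem {n : ℕ} (hn : n ≤ M) (hu : us b n = false) :
    Complex.cos (qW b w n) ∈ PolyU (vt (ty b n)) := by
  rw [qW_cos hw]
  have h := hw.mem n hn hu
  by_cases h' : 0 < bb b n
  · have e : sg b n = 1 := if_pos h'
    rw [e, frS_one] at h
    rwa [cjz_pos h']
  · have e : sg b n = -1 := if_neg h'
    rw [e, frS_neg] at h
    rwa [cjz_neg h']

lemma qW_facts {n : ℕ} (hn : n ≤ M) (hu : us b n = false) :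
    0 < (Complex.cos (qW b w n)).re ∧ 0 < (Complex.cos (qW b w n)).im ∧
    (Complex.cos (qW b w n)).re ≤ 1 ∧ (Complex.cos (qW b w n)).im ≤ 68 / 100 ∧
    (ty b n ≠ .t2e → (Complex.cos (qW b w n)).im < (Complex.cos (qW b w n)).re) :=
  vt_facts _ (qW_mem hw hn hu)

include hb

lemma ownR {n : ℕ} (hn : n < M) (hu : us b n = false) : OwnP (qW b w n) (qR b w n) := by
  have h1 := rn_spec hb hn hu
  have h2 := qW_facts hw hn.le hu
  have h3 := qW_facts hw h1.2.1 h1.2.2.1
  have hR : 0 < (RR (w n) (Complex.cos (w (rn b n)))).re := by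
    have := hw.hingeR n hn hu
    have := sp_r0
    linarith
  refine ⟨?_, ?_, h2.1, h2.2.1, ?_, ?_⟩
  · rw [qW, cjz_re]
    exact hw.re0 n hn.le hu
  · rw [qW, cjz_re]
    exact hw.re1 n hn.le hu
  · rw [qR, cjz_re]
    have := h3.1
    rwa [qW_cos hw, cjz_re] at this
  · rw [qW, qR, ← cjz_RR _ hR, cjz_re]
    exact hR

lemma ownL {n : ℕ} (h0 : 0 < n) (hn : n ≤ M) (hu : us b n = false) :
    OwnP (qW b w n) (qL b w n) := by
  have h1 := ln_spec hb h0 hu
  have h2 := qW_facts hw hn hu
  have h3 := qW_facts hw (by omega : ln b n ≤ M) h1.2.1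
  have hR : 0 < (RR (w n) (Complex.cos (w (ln b n)))).re := by
    have h4 := hw.hingeL (ln b n) (by omega) h1.2.1
    rw [h1.2.2] at h4
    have := sp_r0
    linarith only [h4, this]
  refine ⟨?_, ?_, h2.1, h2.2.1, ?_, ?_⟩
  · rw [qW, cjz_re]
    exact hw.re0 n hn hu
  · rw [qW, cjz_re]
    exact hw.re1 n hn hu
  · rw [qL, cjz_re]
    have := h3.1
    rwa [qW_cos hw, cjz_re] at this
  · rw [qW, qL, ← cjz_RR _ hR, cjz_re]
    exact hR

lemma QQ_cjR {n : ℕ} (hn : n < M) (hu : us b n = false) :
    QQ (qW b w n) (qR b w n) = cjz (bb b n) (QQ (w n) (Complex.cos (w (rn b n)))) := by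
  have h := ownR hb hw hn hu
  have hR : 0 < (RR (w n) (Complex.cos (w (rn b n)))).re := by
    have := hw.hingeR n hn hu
    have := sp_r0
    linarith
  have h0 := h.w0
  have h1 := h.w1
  have h2 := h.k0
  rw [qW, cjz_re] at h0 h1
  rw [qR, cjz_re] at h2
  exact (cjz_QQ _ hR h0.le h1.le h2).symm

lemma QQ_cjL {n : ℕ} (h0 : 0 < n) (hn : n ≤ M) (hu : us b n = false) :
    QQ (qW b w n) (qL b w n) = cjz (bb b n) (QQ (w n) (Complex.cos (w (ln b n)))) := by
  have h := ownL hb hw h0 hn hu
  have h1 := ln_spec hb h0 hu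
  have hR : 0 < (RR (w n) (Complex.cos (w (ln b n)))).re := by
    have h4 := hw.hingeL (ln b n) (by omega) h1.2.1
    rw [h1.2.2] at h4
    have := sp_r0
    linarith only [h4, this]
  have h0 := h.w0
  have h1 := h.w1
  have h2 := h.k0
  rw [qW, cjz_re] at h0 h1
  rw [qL, cjz_re] at h2
  exact (cjz_QQ _ hR h0.le h1.le h2).symm

/-! ### the ring equations in the own frame -/

lemma eqF (hM : 1 ≤ M) : (BB b 0 : ℂ) * qW b w 0 - Real.pi + I * QQ (qW b w 0) (qR b w 0) = 0 := by
  have h := congrArg (cjz (bb b 0)) hw.first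
  rw [map_add, map_sub, map_mul, map_mul, map_mul, map_natCast, cjz_ofReal, map_zero, sI_sg, cjz_ofReal,
    cjz_I, ← QQ_cjR hb hw (by omega) rfl] at h
  unfold qW at h ⊢
  linear_combination h - (I * QQ (cjz (bb b 0) (w 0)) (qR b w 0)) * sI_mul_self (bb b 0)

lemma eqM (hM : 1 ≤ M) : (BB b M : ℂ) * qW b w M - Real.pi + I * QQ (qW b w M) (qL b w M) = 0 := by
  have h := congrArg (cjz (bb b M)) hw.last
  have hu : us b M = false := us_of_ge hb le_rfl
  rw [map_add, map_sub, map_mul, map_mul, map_mul, map_natCast, cjz_ofReal, map_zero, sI_sg, cjz_ofReal,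
    cjz_I, ← QQ_cjL hb hw (by omega) le_rfl hu] at h
  unfold qW at h ⊢
  linear_combination h - (I * QQ (cjz (bb b M) (w M)) (qL b w M)) * sI_mul_self (bb b M)

lemma eqM' {n : ℕ} (h : n = M) (hM : 1 ≤ M) :
    (BB b n : ℂ) * qW b w n - Real.pi + I * QQ (qW b w n) (qL b w n) = 0 := by
  subst h
  exact eqM hb hw hM

lemma eqI {n : ℕ} (h0 : 0 < n) (hn : n < M) (hu : us b n = false) :
    (BB b n : ℂ) * qW b w n - Real.pi + I * (QQ (qW b w n) (qL b w n) + QQ (qW b w n) (qR b w n)) = 0 := by
  have h := congrArg (cjz (bb b n)) (hw.inner n h0 hn hu)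
  rw [map_add, map_sub, map_mul, map_mul, map_mul, map_natCast, cjz_ofReal, map_zero, sI_sg, cjz_ofReal,
    cjz_I, map_add, ← QQ_cjL hb hw h0 hn.le hu, ← QQ_cjR hb hw hn hu] at h
  unfold qW at h ⊢
  linear_combination h - (I * (QQ (cjz (bb b n) (w n)) (qL b w n) +
    QQ (cjz (bb b n) (w n)) (qR b w n))) * sI_mul_self (bb b n)

/-! ### types -/

lemma na_ns_inner {n : ℕ} (h0 : 0 < n) (hn : n < M) : na b n + ns b n = 2 := by
  have h1 := lr_ne_e (b := b) h0
  have h2 := rr_ne_e (b := b) hn
  unfold na ns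
  cases h3 : lr b n <;> cases h4 : rr b n <;> simp_all

lemma ty_t2e {n : ℕ} (hn : n ≤ M) (hu : us b n = false) (h : ty b n = .t2e) :
    BB b n = 2 ∧ (n = 0 ∨ n = M) := by
  have h2 := BB_ge hb hn hu
  unfold ty rtype at h
  by_cases h3 : BB b n ≤ 2
  · refine ⟨by omega, ?_⟩
    by_contra hc
    have h4 := na_ns_inner hb hw (by omega : 0 < n) (by omega : n < M)
    rw [if_pos h3] at h
    by_cases h5 : na b n = 2
    · rw [if_pos h5] at h
      exact absurd h (by decide)
    · rw [if_neg h5] at h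
      by_cases h6 : ns b n = 1
      · rw [if_pos h6] at h
        exact absurd h (by decide)
      · -- `ns = 2`
        have h7 : ns b n = 2 := by
          unfold ns na at *
          split_ifs at * <;> omega
        have h8 := BB_two hb hn hu h3 (by omega)
        omega
  · rw [if_neg h3] at h
    split_ifs at h

lemma typQ_of {n : ℕ} (h3 : 3 ≤ BB b n) (h : 4 ≤ BB b n ∨ (na b n + ns b n = 2 ∧ 1 ≤ ns b n)) :
    typQ (ty b n) = true := by
  unfold ty rtype
  rw [if_neg (by omega)]
  by_cases h4 : BB b n = 3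
  · rw [if_pos h4]
    have h5 : na b n + ns b n = 2 ∧ 1 ≤ ns b n := by
      rcases h with h | h
      · omega
      · exact h
    rw [if_neg (by omega : ¬ na b n = 2)]
    by_cases h6 : na b n = 1
    · rw [if_pos h6, if_pos (by omega : ns b n = 1)]
      rfl
    · rw [if_neg h6, if_pos (by omega : ns b n = 2)]
      rfl
  · rw [if_neg h4]
    split_ifs <;> rfl

/-! ### neighbours -/

omit hb hw in
lemma cjz_opp {s s' : ℤ} (h : s * s' < 0) (z : ℂ) : cjz s z = (starRingEnd ℂ) (cjz s' z) := by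
  rcases lt_or_ge 0 s with h1 | h1
  · have h2 : ¬0 < s' := fun h2 => by
      have := mul_pos h1 h2
      omega
    rw [cjz_pos h1, cjz_neg h2, conj_conj]
  · have h2 : 0 < s' := by
      by_contra hc
      have := mul_nonneg_of_nonpos_of_nonpos h1 (not_lt.1 hc)
      omega
    rw [cjz_neg (by omega), cjz_pos h2]

omit hb hw in
lemma cjz_same {s s' : ℤ} (h : 0 < s * s') (z : ℂ) : cjz s z = cjz s' z := by
  rcases lt_or_ge 0 s with h1 | h1
  · have h2 : 0 < s' := (mul_pos_iff_of_pos_left h1).1 h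
    rw [cjz_pos h1, cjz_pos h2]
  · have h2 : ¬0 < s' := fun h2 => by
      have := mul_nonpos_of_nonpos_of_nonneg h1 h2.le
      omega
    rw [cjz_neg (by omega), cjz_neg h2]

lemma qR_opp {n : ℕ} (h : bb b n * bb b (rn b n) < 0) :
    qR b w n = (starRingEnd ℂ) (Complex.cos (qW b w (rn b n))) := by
  rw [qW_cos hw, qR, cjz_opp h]

lemma qR_same {n : ℕ} (h : 0 < bb b n * bb b (rn b n)) :
    qR b w n = Complex.cos (qW b w (rn b n)) := by
  rw [qW_cos hw, qR, cjz_same h]

lemma qL_opp {n : ℕ} (h : bb b n * bb b (ln b n) < 0) :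
    qL b w n = (starRingEnd ℂ) (Complex.cos (qW b w (ln b n))) := by
  rw [qW_cos hw, qL, cjz_opp h]

lemma qL_same {n : ℕ} (h : 0 < bb b n * bb b (ln b n)) :
    qL b w n = Complex.cos (qW b w (ln b n)) := by
  rw [qW_cos hw, qL, cjz_same h]

omit hb hw in
/-- a two-crossing end ring -/
lemma two_end {W K : ℂ} (h : OwnP W K) (he : ((2 : ℕ) : ℂ) * W - Real.pi + I * QQ W K = 0) :
    0 < (Complex.cos W * (starRingEnd ℂ) K).re := by
  obtain ⟨h1, h2⟩ := vv_end h he
  have h3 := vv_add W K 0
  rw [zero_add, h1, h2 1 rfl, h.v0, zero_add, mul_one] at h3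
  have hc := h.cne
  have hK : K = -(2 * I * Complex.cos W ^ 2) := by
    field_simp at h3
    linear_combination (-I) * h3 + K * Complex.I_sq
  have hi := h.ci
  have hn : 0 < normSq (Complex.cos W) := normSq_pos.2 hc
  rw [normSq_apply] at hn
  have e : (Complex.cos W * (starRingEnd ℂ) K).re =
      2 * ((Complex.cos W).re * (Complex.cos W).re + (Complex.cos W).im * (Complex.cos W).im) *
        (Complex.cos W).im := by
    rw [hK]
    generalize Complex.cos W = c
    simp [pow_two, mul_re, mul_im]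
    ring
  rw [e]
  positivity

/-- **the angle at a turn** -/
theorem turn_re {n : ℕ} (hn : n < M) (hu : us b n = false) (h : bb b n * bb b (rn b n) < 0) :
    0 < (Complex.cos (qW b w n) * Complex.cos (qW b w (rn b n))).re := by
  have h1 := rn_spec hb hn hu
  obtain ⟨a1, a2, -, -, a5⟩ := qW_facts hw hn.le hu
  obtain ⟨b1, b2, -, -, b5⟩ := qW_facts hw h1.2.1 h1.2.2.1
  by_cases t1 : ty b n = .t2e
  · obtain ⟨h2, h3⟩ := ty_t2e hb hw hn.le hu t1
    have h4 : n = 0 := by omega
    subst h4
    have h5 := eqF hb hw (by omega)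
    rw [h2] at h5
    have h6 := two_end (ownR hb hw hn hu) h5
    rwa [qR_opp hb hw h, conj_conj] at h6
  · by_cases t2 : ty b (rn b n) = .t2e
    · obtain ⟨h2, h3⟩ := ty_t2e hb hw h1.2.1 h1.2.2.1 t2
      have h4 : rn b n = M := by omega
      have h5 := eqM' hb hw h4 (by omega : 1 ≤ M)
      rw [h2] at h5
      have h6 := two_end (ownL hb hw (by omega) h1.2.1 h1.2.2.1) h5
      have h7 : bb b (rn b n) * bb b (ln b (rn b n)) < 0 := by rw [h1.2.2.2, mul_comm]; exact h
      rw [qL_opp hb hw h7, conj_conj, h1.2.2.2, mul_comm] at h6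
      exact h6
    · have c1 := a5 t1
      have c2 := b5 t2
      rw [mul_re]
      nlinarith only [a2, c2, b1, c1]

lemma portRA {n : ℕ} (hn : n < M) (hu : us b n = false) (h : bb b n * bb b (rn b n) < 0) :
    Port (qW b w n).re (-(qW b w n).im) (-(QQ (qW b w n) (qR b w n)).im)
      (QQ (qW b w n) (qR b w n)).re 1 := by
  have h1 := rn_spec hb hn hu
  obtain ⟨b1, b2, -, -, b5⟩ := qW_facts hw h1.2.1 h1.2.2.1
  refine (ownR hb hw hn hu).portA ?_ ?_
  · rw [qR_opp hb hw h, conj_im]
    linarith only [b2]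
  · rw [qR_opp hb hw h, ← map_mul, conj_re, mul_comm]
    exact (turn_re hb hw hn hu h).le

lemma turn_re' {n : ℕ} (h0 : 0 < n) (hn : n ≤ M) (hu : us b n = false)
    (h : bb b n * bb b (ln b n) < 0) :
    0 < (Complex.cos (qW b w n) * Complex.cos (qW b w (ln b n))).re := by
  have h1 := ln_spec hb h0 hu
  have h2 := turn_re hb hw (by omega : ln b n < M) h1.2.1 (by rw [h1.2.2, mul_comm]; exact h)
  rwa [h1.2.2, mul_comm] at h2

lemma portLA {n : ℕ} (h0 : 0 < n) (hn : n ≤ M) (hu : us b n = false)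
    (h : bb b n * bb b (ln b n) < 0) :
    Port (qW b w n).re (-(qW b w n).im) (-(QQ (qW b w n) (qL b w n)).im)
      (QQ (qW b w n) (qL b w n)).re 1 := by
  have h1 := ln_spec hb h0 hu
  obtain ⟨b1, b2, -, -, b5⟩ := qW_facts hw (by omega : ln b n ≤ M) h1.2.1
  refine (ownL hb hw h0 hn hu).portA ?_ ?_
  · rw [qL_opp hb hw h, conj_im]
    linarith only [b2]
  · rw [qL_opp hb hw h, ← map_mul, conj_re, mul_comm]
    exact (turn_re' hb hw h0 hn hu h).le

lemma portRS {n : ℕ} (hn : n < M) (hu : us b n = false) (h : 0 < bb b n * bb b (rn b n))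
    (ht : typQ (ty b n) = true) :
    Port (qW b w n).re (-(qW b w n).im) (-(QQ (qW b w n) (qR b w n)).im)
      (QQ (qW b w n) (qR b w n)).re 1 := by
  have h1 := rn_spec hb hn hu
  obtain ⟨b1, b2, b3, b4, b5⟩ := qW_facts hw h1.2.1 h1.2.2.1
  obtain ⟨q1, q2, q3⟩ := vt_q _ ht (KB.polyU_sub _ (qW_mem hw hn.le hu))
  have h2 : ty b (rn b n) ≠ .t2e := fun t2 => by
    obtain ⟨h2, h3⟩ := ty_t2e hb hw h1.2.1 h1.2.2.1 t2
    have h4 : lr b (rn b n) = .s := by rw [lr_rn hb hn hu, rr_eq hn, if_pos h]
    have h5 : 1 ≤ ns b (rn b n) := by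
      unfold ns
      rw [h4]
      simp
    have h6 := BB_two hb h1.2.1 h1.2.2.1 (by omega) h5
    have h7 : rn b n = M := by omega
    have h8 := rr_last (b := b)
    rw [h7] at h6 h4
    unfold na at h6
    rw [h4, h8] at h6
    exact absurd h6.2 (by decide)
  have h3 := (ownR hb hw hn hu).sport q1 q2 q3 (by rw [qR_same hb hw h]; exact b2.le)
    (by rw [qR_same hb hw h]; exact (b5 h2).le) (by rw [qR_same hb hw h]; exact b3)
    (by rw [qR_same hb hw h]; exact b4)
  exact (ownR hb hw hn hu).portS h3.1 h3.2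

lemma portLS {n : ℕ} (h0 : 0 < n) (hn : n ≤ M) (hu : us b n = false)
    (h : 0 < bb b n * bb b (ln b n)) (ht : typQ (ty b n) = true) :
    Port (qW b w n).re (-(qW b w n).im) (-(QQ (qW b w n) (qL b w n)).im)
      (QQ (qW b w n) (qL b w n)).re 1 := by
  have h1 := ln_spec hb h0 hu
  obtain ⟨b1, b2, b3, b4, b5⟩ := qW_facts hw (by omega : ln b n ≤ M) h1.2.1
  obtain ⟨q1, q2, q3⟩ := vt_q _ ht (KB.polyU_sub _ (qW_mem hw hn hu))
  have h4 : rr b (ln b n) = .s := by
    rw [rr_ln hb h0 hn hu, lr_eq h0, if_pos h]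
  have h2 : ty b (ln b n) ≠ .t2e := fun t2 => by
    obtain ⟨h2, h3⟩ := ty_t2e hb hw (by omega : ln b n ≤ M) h1.2.1 t2
    have := BB_of_rr hb h1.2.1 h4
    omega
  have h3 := (ownL hb hw h0 hn hu).sport q1 q2 q3 (by rw [qL_same hb hw h]; exact b2.le)
    (by rw [qL_same hb hw h]; exact (b5 h2).le) (by rw [qL_same hb hw h]; exact b3)
    (by rw [qL_same hb hw h]; exact b4)
  exact (ownL hb hw h0 hn hu).portS h3.1 h3.2

/-! ### the layers -/

lemma opp_or {n : ℕ} (hn : n ≤ M) {m : ℕ} (hm : m ≤ M) :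
    bb b n * bb b m < 0 ∨ 0 < bb b n * bb b m := by
  have := mul_ne_zero (bb_ne hb hn) (bb_ne hb hm)
  omega

lemma portR {n : ℕ} (hn : n < M) (hu : us b n = false) (h3 : 3 ≤ BB b n)
    (h : 4 ≤ BB b n ∨ 0 < n) :
    Port (qW b w n).re (-(qW b w n).im) (-(QQ (qW b w n) (qR b w n)).im)
      (QQ (qW b w n) (qR b w n)).re 1 := by
  have h1 := rn_spec hb hn hu
  rcases opp_or hb hw hn.le h1.2.1 with h2 | h2
  · exact portRA hb hw hn hu h2
  · refine portRS hb hw hn hu h2 (typQ_of hb hw h3 ?_)
    rcases h with h | h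
    · exact Or.inl h
    · right
      refine ⟨na_ns_inner hb hw h hn, ?_⟩
      unfold ns
      rw [rr_eq hn, if_pos h2]
      simp

lemma portL {n : ℕ} (h0 : 0 < n) (hn : n ≤ M) (hu : us b n = false) (h3 : 3 ≤ BB b n)
    (h : 4 ≤ BB b n ∨ n < M) :
    Port (qW b w n).re (-(qW b w n).im) (-(QQ (qW b w n) (qL b w n)).im)
      (QQ (qW b w n) (qL b w n)).re 1 := by
  have h1 := ln_spec hb h0 hu
  rcases opp_or hb hw hn (by omega : ln b n ≤ M) with h2 | h2
  · exact portLA hb hw h0 hn hu h2
  · refine portLS hb hw h0 hn hu h2 (typQ_of hb hw h3 ?_)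
    rcases h with h | h
    · exact Or.inl h
    · right
      refine ⟨na_ns_inner hb hw h0 h, ?_⟩
      unfold ns
      rw [lr_eq h0, if_pos h2]
      simp

omit hb hw in
lemma three_end {W K : ℂ} (h : OwnP W K) (he : ((3 : ℕ) : ℂ) * W - Real.pi + I * QQ W K = 0) :
    Lp (vv W K 1) := by
  obtain ⟨h1, h2⟩ := vv_end h he
  have h3 := vv_add W K 1
  rw [show 1 + 2 = 3 from rfl, h1, show 1 + 1 = 2 from rfl, h2 2 rfl, zero_add, mul_one] at h3
  rw [h3]
  apply lp_of
  · have := h.cr
    rw [mul_re]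
    simp
    exact this
  · have := h.ci
    rw [mul_im]
    simp
    exact this

/-- the first ring, read from its neighbour -/
theorem lay_first (hM : 1 ≤ M) {l : ℕ} (hl : 1 ≤ l) (hl' : l + 2 ≤ BB b 0) :
    Lp (vv (qW b w 0) (qR b w 0) l) := by
  have he := eqF hb hw hM
  have ho := ownR hb hw (by omega : 0 < M) rfl
  by_cases h3 : BB b 0 = 3
  · have : l = 1 := by omega
    subst this
    rw [h3] at he
    exact three_end ho he
  · have hp := portR hb hw (by omega : 0 < M) rfl (by omega) (Or.inl (by omega))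
    have := ring_layers_end ho hp he hl hl'
    exact lp_of this.1 this.2

theorem lay_last (hM : 1 ≤ M) {l : ℕ} (hl : 1 ≤ l) (hl' : l + 2 ≤ BB b M) :
    Lp (vv (qW b w M) (qL b w M) l) := by
  have he := eqM hb hw hM
  have hu : us b M = false := us_of_ge hb le_rfl
  have ho := ownL hb hw (by omega : 0 < M) le_rfl hu
  by_cases h3 : BB b M = 3
  · have : l = 1 := by omega
    subst this
    rw [h3] at he
    exact three_end ho he
  · have hp := portL hb hw (by omega : 0 < M) le_rfl hu (by omega) (Or.inl (by omega))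
    have := ring_layers_end ho hp he hl hl'
    exact lp_of this.1 this.2

theorem lay_inner {n : ℕ} (h0 : 0 < n) (hn : n < M) (hu : us b n = false) {l : ℕ} (hl : 1 ≤ l)
    (hl' : l + 1 ≤ BB b n) : Lp (vv (qW b w n) (qL b w n) l) := by
  have he := eqI hb hw h0 hn hu
  have ho := ownL hb hw h0 hn.le hu
  have ho' := ownR hb hw hn hu
  by_cases h2 : BB b n = 2
  · have : l = 1 := by omega
    subst this
    rw [h2] at he
    exact layer_two ho ho' he
  · have hp := portL hb hw h0 hn.le hu (by omega) (Or.inr hn)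
    have hp' := portR hb hw hn hu (by omega) (Or.inr h0)
    have := ring_layers ho hp hp' he hl hl'
    exact lp_of this.1 this.2

/-- a turn between rings of opposite sign -/
theorem lay_turnR {n : ℕ} (hn : n < M) (hu : us b n = false) (h : bb b n * bb b (rn b n) < 0) :
    Lp (vv (qW b w n) (qR b w n) 0) := by
  have ho := ownR hb hw hn hu
  have h1 := rn_spec hb hn hu
  obtain ⟨a1, a2, -, -, -⟩ := qW_facts hw hn.le hu
  obtain ⟨b1, b2, -, -, -⟩ := qW_facts hw h1.2.1 h1.2.2.1
  have ht := turn_re hb hw hn hu h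
  rw [ho.v0, qR_opp hb hw h]
  have hn2 : 0 < normSq (Complex.cos (qW b w n)) := normSq_pos.2 ho.cne
  generalize Complex.cos (qW b w n) = c at *
  generalize Complex.cos (qW b w (rn b n)) = d at *
  rw [mul_re] at ht
  apply lp_of
  · rw [div_re, ← add_div]
    apply div_pos _ hn2
    simp only [mul_re, mul_im, I_re, I_im, conj_re, conj_im]
    nlinarith only [a1, b2, a2, b1]
  · rw [div_im, ← sub_div]
    apply div_pos _ hn2
    simp only [mul_re, mul_im, I_re, I_im, conj_re, conj_im]
    nlinarith only [ht]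

theorem lay_turnL {n : ℕ} (h0 : 0 < n) (hn : n ≤ M) (hu : us b n = false)
    (h : bb b n * bb b (ln b n) < 0) : Lp (vv (qW b w n) (qL b w n) 0) := by
  have ho := ownL hb hw h0 hn hu
  have h1 := ln_spec hb h0 hu
  obtain ⟨a1, a2, -, -, -⟩ := qW_facts hw hn hu
  obtain ⟨b1, b2, -, -, -⟩ := qW_facts hw (by omega : ln b n ≤ M) h1.2.1
  have ht := turn_re' hb hw h0 hn hu h
  rw [ho.v0, qL_opp hb hw h]
  have hn2 : 0 < normSq (Complex.cos (qW b w n)) := normSq_pos.2 ho.cne
  generalize Complex.cos (qW b w n) = c at *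
  generalize Complex.cos (qW b w (ln b n)) = d at *
  rw [mul_re] at ht
  apply lp_of
  · rw [div_re, ← add_div]
    apply div_pos _ hn2
    simp only [mul_re, mul_im, I_re, I_im, conj_re, conj_im]
    nlinarith only [a1, b2, a2, b1]
  · rw [div_im, ← sub_div]
    apply div_pos _ hn2
    simp only [mul_re, mul_im, I_re, I_im, conj_re, conj_im]
    nlinarith only [ht]

end

end SR

end Pool.Agent.Work.MP_b30479_gtS.G2

end

section

/-!
# The saddle point structure of a word
-/

namespace Pool.Agent.Work.MP_b30479_gtS.G2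

open Complex Set Filter Topology VOL
open scoped ComplexConjugate

lemma sinh_cosh_of {P R τ c : ℂ} (h1 : cexp P = (R + τ) * c) (h2 : cexp (-P) = (R - τ) * c) :
    Complex.sinh P * R = Complex.cosh P * τ := by
  rw [Complex.sinh, Complex.cosh, h1, h2]
  ring

lemma exp_P {s : ℝ} (hs : s = 1 ∨ s = -1) {w k : ℂ} (hR : 0 < (RR w k).re) (h0 : 0 ≤ w.re)
    (h1 : w.re ≤ 3 / 2) (hk : 0 < k.re) :
    cexp (-(s : ℂ) * QQ w k) = (RR w k + -(s : ℂ) * Complex.tan w) * k ∧
      cexp (-(-(s : ℂ) * QQ w k)) = (RR w k - -(s : ℂ) * Complex.tan w) * k := by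
  obtain ⟨e1, e2⟩ := exp_QQ hR h0 h1 hk
  rcases hs with rfl | rfl
  · rw [show -((1 : ℝ) : ℂ) * QQ w k = -QQ w k by push_cast; ring, neg_neg, e1, e2]
    push_cast
    constructor <;> ring
  · rw [show -((-1 : ℝ) : ℂ) * QQ w k = QQ w k by push_cast; ring, e1, e2]
    push_cast
    constructor <;> ring

lemma P_unsplit {s : ℝ} (hs : s = 1 ∨ s = -1) {w k : ℂ} (hR : 0 < (RR w k).re) (h0 : 0 ≤ w.re)
    (h1 : w.re ≤ 3 / 2) (hk : 0 < k.re) :
    Complex.sinh (-(s : ℂ) * QQ w k) * RR w k =
      Complex.cosh (-(s : ℂ) * QQ w k) * (-(s : ℂ) * Complex.tan w) := by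
  obtain ⟨e1, e2⟩ := exp_P hs hR h0 h1 hk
  exact sinh_cosh_of e1 e2

lemma P_split {s : ℝ} (hs : s = 1 ∨ s = -1) {w k : ℂ} (hR : 0 < (RR w k).re) (h0 : 0 ≤ w.re)
    (h1 : w.re ≤ 3 / 2) (hk : 0 < k.re) (hc : Complex.cos w ≠ 0)
    (hj : RR w k + s * I ≠ 0) :
    Complex.sinh (-(s : ℂ) * QQ w k + I * w) * Rs (s * I) (RR w k) (-(s : ℂ) * Complex.tan w) =
      Complex.cosh (-(s : ℂ) * QQ w k + I * w) * (-(s : ℂ) * Complex.tan w) := by
  obtain ⟨e1, e2⟩ := exp_P hs hR h0 h1 hk
  obtain ⟨f1, f2⟩ := exp_I_mul hc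
  have hj2 : ((s : ℂ) * I) * (s * I) = -1 := by
    rcases hs with rfl | rfl
    · push_cast
      linear_combination Complex.I_sq
    · push_cast
      linear_combination Complex.I_sq
  have hj0 : (s : ℂ) * I ≠ 0 := by
    intro h
    rw [h, zero_mul] at hj2
    norm_num at hj2
  have hs2 : (s : ℂ) * s = 1 := by
    rcases hs with rfl | rfl <;> norm_num
  have a1 := Rs_add (τ := -(s : ℂ) * Complex.tan w) hj2 hj
  have a2 := Rs_sub (τ := -(s : ℂ) * Complex.tan w) hj2 hj
  have h5 : (s * I / (RR w k + s * I)) * ((RR w k + s * I) / (s * I)) = 1 := by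
    rw [div_mul_div_cancel₀ hj, div_self hj0]
  refine sinh_cosh_of (c := k * Complex.cos w * ((RR w k + s * I) / (s * I))) ?_ ?_
  · rw [Complex.exp_add, e1, f1, a1]
    linear_combination (-(RR w k + -(s : ℂ) * Complex.tan w) * k * Complex.cos w *
      (1 - s * I * (-(s : ℂ) * Complex.tan w))) * h5 -
      ((RR w k + -(s : ℂ) * Complex.tan w) * k * Complex.cos w * I * Complex.tan w) * hs2
  · rw [neg_add, Complex.exp_add, e2, f2, a2]
    linear_combination (-(RR w k - -(s : ℂ) * Complex.tan w) * k * Complex.cos w *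
      (1 + s * I * (-(s : ℂ) * Complex.tan w))) * h5 +
      ((RR w k - -(s : ℂ) * Complex.tan w) * k * Complex.cos w * I * Complex.tan w) * hs2

namespace SR

variable {M : ℕ} {b : Fin (M + 1) → ℤ} {w : ℕ → ℂ}

variable (hb : ClassW b) (F : RingFacts) (hw : Sol b w)
include hb F hw

lemma pR {n : ℕ} (hn : n < M) (hu : us b n = false) :
    Complex.sinh (PR b w n) * Rh b w n = Complex.cosh (PR b w n) * tau b w n := by
  have h1' := rn_spec hb hn hu
  have hR : 0 < (RR (w n) (Complex.cos (w (rn b n)))).re := R0_re hw hn hu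
  have hk := cos_re F hw h1'.2.1 h1'.2.2.1
  have hc := cos_ne F hw hn.le hu
  unfold PR
  by_cases h3 : us b (n + 1) = true
  · rw [Rh_true h3, if_pos h3]
    have := P_split (sg_or (b := b) n) hR (hw.re0 n hn.le hu).le (hw.re1 n hn.le hu).le hk hc
      (by rw [← jj_sg]; exact R0_add_ne hw hn hu _)
    rw [← jj_sg] at this
    exact this
  · rw [if_neg h3]
    rw [Bool.not_eq_true] at h3
    rw [Rh_false h3 hu, add_zero]
    exact P_unsplit (sg_or (b := b) n) hR (hw.re0 n hn.le hu).le (hw.re1 n hn.le hu).le hk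

lemma pL {n : ℕ} (h0 : 0 < n) (hn : n ≤ M) (hu : us b n = false) :
    Complex.sinh (PL b w n) * Rh b w (n - 1) = Complex.cosh (PL b w n) * tau b w n := by
  have h1 := ln_spec hb h0 hu
  have hlh := left_hinge hb F hw h0 hn hu
  have hR : 0 < (RR (w n) (Complex.cos (w (ln b n)))).re := by
    rw [hlh]
    exact R0_re hw (by omega) h1.2.1
  have hk := cos_re F hw (by omega : ln b n ≤ M) h1.2.1
  have hc := cos_ne F hw hn hu
  unfold PL
  by_cases h3 : us b (n - 1) = true
  · obtain ⟨m, rfl⟩ : ∃ m, n = m + 2 := ⟨n - 2, by have := us_lt hb h3; omega⟩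
    have h3' := h3
    rw [show m + 2 - 1 = m + 1 by omega] at h3'
    have hl : ln b (m + 2) = m := by
      unfold ln
      rw [show m + 2 - 1 = m + 1 by omega, h3']
      simp
    rw [if_pos h3, show m + 2 - 1 = m + 1 by omega, Rh_left h3']
    have := P_split (sg_or (b := b) (m + 2)) hR (hw.re0 _ hn hu).le (hw.re1 _ hn hu).le hk hc
      (by rw [← jj_sg, hlh]; exact R0_add_ne hw (by omega) h1.2.1 _)
    rw [← jj_sg, hlh] at this
    rw [hl] at this ⊢
    exact this
  · rw [if_neg h3]
    rw [Bool.not_eq_true] at h3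
    have hl : ln b n = n - 1 := by
      unfold ln
      rw [h3]
      simp
    have := P_unsplit (sg_or (b := b) n) hR (hw.re0 n hn hu).le (hw.re1 n hn hu).le hk
    rw [hlh] at this
    rw [hl] at this ⊢
    rw [Rh_false (n := n - 1) (by rwa [show n - 1 + 1 = n by omega]) h3, add_zero]
    exact this

variable (L : LocOK b w)
include L

/-- the inner variables -/
theorem mid_all (hM : 1 ≤ M) (i : Fin (M + 1)) (hm : (tyW b i).isMid = true) :
    ldT (tyW b i) (b i) (fl i) (fr i) (xx (tyW b) i (zsW b w)) 1 = 0 := by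
  have hstr : ∀ z : ℂ, 0 < z.re → z.re < 1 → z ∈ strip := fun z h1 h2 => ⟨h1, h2⟩
  obtain ⟨_, s1, s2⟩ := side_all hb F hw L hM i
  have hrun := L.run i
  have h3 : (b i).natAbs = 3 := by
    unfold tyW at hm
    split_ifs at hm with h1 h2 h3 h4
    · exact absurd hm (by decide)
    · exact absurd hm (by decide)
    · exact h3
    · exact h3
    · exact absurd hm (by decide)
  have hm1 := (ctg_mid L h3).2
  by_cases ht : tyW b i = .threeL
  · have m1 := L.midL i ht
    have s3 := s1 ht
    rw [ht] at hrun ⊢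
    cases hl : fl i <;> cases hr : fr i <;> rw [hl, hr] at hrun s3 <;>
      simp only [RunOk] at hrun
    · obtain ⟨r0', r1, r2, r3, r4⟩ := hrun
      have r5 : (xx (tyW b) i (zsW b w) 2).re = 0 := by rw [r0']; simp
      refine mid_zeroL (hstr _ (by linarith only [r1, r3]) hm1) (hstr _ (by rw [Complex.sub_re]; linarith only [r3])
        (by rw [Complex.sub_re]; linarith only [hm1, r1])) (hstr _ (by rw [Complex.add_re]; linarith only [r1, r3, r5])
        (by rw [Complex.add_re]; linarith only [hm1, r5])) s3 m1.1 m1.2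
    · obtain ⟨g1, g2, g3, g4, g5, g6, g7⟩ := hrun
      refine mid_zeroL (hstr _ (by linarith only [g4, g5, g1.1, g1.2.2.1]) hm1)
        (hstr _ (by rw [Complex.sub_re]; exact g1.2.2.1)
          (by rw [Complex.sub_re]; linarith only [g3, g4, g1, g1.2.2.2.1])) (hstr _ (by rw [Complex.add_re]; linarith only [g3, g4, g5])
        (by rw [Complex.add_re]; linarith only [g6])) s3 m1.1 m1.2
  · have ht' : tyW b i = .threeR := by
      unfold tyW at ht ⊢
      rw [h3] at ht ⊢
      norm_num at ht ⊢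
      exact fun h => absurd ht.1 h
    have m1 := L.midR i ht'
    have s3 := s2 ht'
    rw [ht'] at hrun ⊢
    cases hl : fl i <;> cases hr : fr i <;> rw [hl, hr] at hrun s3 <;>
      simp only [RunOk] at hrun
    · obtain ⟨r0', r1, r2, r3, r4⟩ := hrun
      have r5 : (xx (tyW b) i (zsW b w) 0).re = 0 := by rw [r0']; simp
      refine mid_zeroR (hstr _ (by linarith only [r1, r3]) hm1) (hstr _ (by rw [Complex.sub_re]; linarith only [r3])
        (by rw [Complex.sub_re]; linarith only [hm1, r1])) (hstr _ (by rw [Complex.add_re]; linarith only [r1, r3, r5])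
        (by rw [Complex.add_re]; linarith only [hm1, r5])) s3 m1.1 m1.2
    · obtain ⟨g1, g2, g3, g4, g5, g6, g7⟩ := hrun
      refine mid_zeroR (hstr _ (by linarith only [g4, g5, g1.1, g1.2.2.1]) hm1)
        (hstr _ (by rw [Complex.sub_re]; exact g1.2.2.1)
          (by rw [Complex.sub_re]; linarith only [g3, g4, g1, g1.2.2.2.1])) (hstr _ (by rw [Complex.add_re]; linarith only [g3, g4, g5])
        (by rw [Complex.add_re]; linarith only [g6])) s3 m1.1 m1.2

/-- the ring variables -/
theorem ring_all (i : Fin (M + 1)) (hm : (tyW b i).isRing = true) :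
    ldT (tyW b i) (b i) (fl i) (fr i) (xx (tyW b) i (zsW b w)) 1 +
      2 * Real.pi * Complex.I * (b i * xx (tyW b) i (zsW b w) 1 + 1) = 0 := by
  have hpi' : (Real.pi : ℂ) ≠ 0 := by exact_mod_cast Real.pi_pos.ne'
  have hstr : ∀ z : ℂ, 0 < z.re → z.re < 1 → z ∈ strip := fun z h1 h2 => ⟨h1, h2⟩
  have hiM' := i.2
  have hrun := L.run i
  have h4 : 4 ≤ (b i).natAbs := by
    have h0 := hb.ne i
    unfold tyW at hm
    split_ifs at hm with h1 h2 h3 h4
    · exact absurd hm (by decide)
    · exact absurd hm (by decide)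
    · exact absurd hm (by decide)
    · exact absurd hm (by decide)
    · omega
  have h4' : 4 ≤ (bb b i.val).natAbs := by rw [bb_val]; exact h4
  have hu : us b i.val = false := us_of_abs (by omega)
  have ht : tyW b i = .ring := by
    unfold tyW
    rw [if_neg (by omega), if_neg (by omega), if_neg (by omega)]
  have hx1 := x_ring (w := w) hm
  have hc := cos_ne F hw (n := i.val) (by omega) hu
  have hbs : (b i : ℂ) * sg b i.val = ((b i).natAbs : ℂ) := by
    have h0 := hb.ne i
    unfold sg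
    rw [bb_val]
    rcases lt_or_gt_of_ne h0 with h5 | h5
    · rw [if_neg (by omega)]
      have h6 : ((b i).natAbs : ℤ) = -(b i) := by omega
      have h7 : ((b i).natAbs : ℂ) = (((b i).natAbs : ℤ) : ℂ) := (Int.cast_natCast _).symm
      rw [h7, h6]
      push_cast
      ring
    · rw [if_pos h5]
      have h6 : ((b i).natAbs : ℤ) = b i := by omega
      have h7 : ((b i).natAbs : ℂ) = (((b i).natAbs : ℤ) : ℂ) := (Int.cast_natCast _).symm
      rw [h7, h6]
      push_cast
      ring
  have hz : (b i : ℂ) * (-(sg b i.val : ℂ) * w i.val / Real.pi) =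
      -((b i).natAbs : ℂ) * w i.val / Real.pi := by
    rw [← hbs]
    ring
  have hkz : ∀ {x : ℂ}, KZ x (xx (tyW b) i (zsW b w) 1) → x ∈ strip ∧
      1 / 2 + x + xx (tyW b) i (zsW b w) 1 ∈ strip ∧
      1 / 2 + x - xx (tyW b) i (zsW b w) 1 ∈ strip := by
    rintro x ⟨k1, k2, _⟩
    have := abs_le.1 (le_refl |(xx (tyW b) i (zsW b w) 1).re|)
    refine ⟨hstr _ k1 (by linarith only [k1, k2, this, abs_nonneg (xx (tyW b) i (zsW b w) 1).re]), hstr _ ?_ ?_,
      hstr _ ?_ ?_⟩
    · simp only [Complex.add_re, Complex.one_re, Complex.div_ofNat_re]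
      linarith only [k1, k2, this, this.1]
    · simp only [Complex.add_re, Complex.one_re, Complex.div_ofNat_re]
      linarith only [k2, this, this.2]
    · simp only [Complex.add_re, Complex.sub_re, Complex.one_re, Complex.div_ofNat_re]
      linarith only [k1, k2, this, this.2]
    · simp only [Complex.add_re, Complex.sub_re, Complex.one_re, Complex.div_ofNat_re]
      linarith only [k2, this, this.1]
  have hsin : Complex.sin (Real.pi * xx (tyW b) i (zsW b w) 1) =
      tau b w i.val * Complex.cos (w i.val) := by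
    rw [hx1, sin_ring]
    unfold tau
    rw [mul_assoc, Complex.tan_mul_cos hc]
  have hcos : Complex.cos (Real.pi * xx (tyW b) i (zsW b w) 1) = Complex.cos (w i.val) := by
    rw [hx1, cos_ring]
  rw [ht] at hrun ⊢
  rw [ldT_ring_one]
  simp only [RunOk] at hrun
  obtain ⟨h00, hl, hr⟩ := hrun
  -- the two sides
  have eL : 0 < i.val → ph (1 / 2 + xx (tyW b) i (zsW b w) 0 + xx (tyW b) i (zsW b w) 1) -
      ph (1 / 2 + xx (tyW b) i (zsW b w) 0 - xx (tyW b) i (zsW b w) 1) = -2 * PL b w i.val := by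
    intro h
    have hfl : fl i = true := by
      have : i ≠ 0 := fun h2 => by rw [h2] at h; simp at h
      simp [fl, this]
    obtain ⟨k1, k2, k3⟩ := hkz (hl hfl).1
    refine ring_mid k1 k2 k3 ?_ (L.pl i.val h (by omega) h4')
    rw [hcos, hsin, ctg_left L h]
    linear_combination Complex.cos (w i.val) * pL hb F hw h (by omega) hu
  have eR : i.val < M → ph (1 / 2 + xx (tyW b) i (zsW b w) 2 + xx (tyW b) i (zsW b w) 1) -
      ph (1 / 2 + xx (tyW b) i (zsW b w) 2 - xx (tyW b) i (zsW b w) 1) = -2 * PR b w i.val := by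
    intro h
    have hfr : fr i = true := by
      have : i ≠ Fin.last M := fun h2 => by rw [h2] at h; simp at h
      simp [fr, this]
    obtain ⟨k1, k2, k3⟩ := hkz (hr hfr).1
    refine ring_mid k1 k2 k3 ?_ (L.pr i.val h h4')
    rw [hcos, hsin, ctg_right L h]
    linear_combination Complex.cos (w i.val) * pR hb F hw h hu
  have hBB : (BB b i.val : ℂ) = ((b i).natAbs : ℂ) + (if us b (i.val - 1) then 1 else 0) +
      (if us b (i.val + 1) then 1 else 0) := by
    unfold BB
    rw [bb_val]
    cases us b (i.val - 1) <;> cases us b (i.val + 1) <;> push_cast <;> simp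
  by_cases hi0 : i.val = 0
  · have hfl : fl i = false := by
      have : i = 0 := Fin.ext hi0
      simp [fl, this]
    by_cases hiM : i.val = M
    · have hfr : fr i = false := by
        have : i = Fin.last M := Fin.ext hiM
        simp [fr, this]
      exfalso
      rw [hfl, hfr] at h00
      rcases h00 with h | h <;> exact absurd h (by decide)
    · have hfr : fr i = true := by
        have : i ≠ Fin.last M := fun h2 => hiM (by rw [h2]; simp)
        simp [fr, this]
      have hf := hw.first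
      rw [hfl, hfr, if_neg (by simp), if_pos rfl, eR (by omega), hx1, hz]
      have hu0 : us b (i.val - 1) = false := by
        rw [hi0]
        rfl
      rw [hu0] at hBB
      unfold PR
      rw [← hi0] at hf
      rw [hBB] at hf
      cases h5 : us b (i.val + 1) <;> rw [h5] at hf <;> simp at hf ⊢ <;> field_simp <;>
        linear_combination (-2 * I) * hf +
          (2 * sg b i.val * QQ (w i.val) (Complex.cos (w (rn b i.val)))) * Complex.I_sq
  · have hfl : fl i = true := by
      have : i ≠ 0 := fun h2 => hi0 (by rw [h2]; simp)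
      simp [fl, this]
    by_cases hiM : i.val = M
    · have hfr : fr i = false := by
        have : i = Fin.last M := Fin.ext hiM
        simp [fr, this]
      have hf := hw.last
      have hf2 : (BB b i.val : ℂ) * w i.val - Real.pi + I * sg b i.val *
          QQ (w i.val) (Complex.cos (w (ln b i.val))) = 0 := by
        rw [hiM]
        exact hf
      have hu0 : us b (i.val + 1) = false := by
        by_contra hc
        rw [Bool.not_eq_false] at hc
        have := us_lt hb hc
        omega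
      rw [hfl, hfr, if_pos rfl, if_neg (by simp), eL (by omega), hx1, hz]
      rw [hu0] at hBB
      unfold PL
      rw [hBB] at hf2
      cases h5 : us b (i.val - 1) <;> rw [h5] at hf2 <;> simp at hf2 ⊢ <;> field_simp <;>
        linear_combination (-2 * I) * hf2 +
          (2 * sg b i.val * QQ (w i.val) (Complex.cos (w (ln b i.val)))) * Complex.I_sq
    · have hfr : fr i = true := by
        have : i ≠ Fin.last M := fun h2 => hiM (by rw [h2]; simp)
        simp [fr, this]
      have hf := hw.inner i.val (by omega) (by omega) hu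
      rw [hfl, hfr, if_pos rfl, if_pos rfl, eL (by omega), eR (by omega), hx1, hz]
      unfold PL PR
      rw [hBB] at hf
      cases h5 : us b (i.val - 1) <;> cases h6 : us b (i.val + 1) <;> rw [h5, h6] at hf <;>
        simp at hf ⊢ <;> field_simp <;> linear_combination (-2 * I) * hf +
          (2 * sg b i.val * (QQ (w i.val) (Complex.cos (w (ln b i.val))) +
            QQ (w i.val) (Complex.cos (w (rn b i.val))))) * Complex.I_sq

/-- **The saddle point structure of a word** from the location of the saddle point. -/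
theorem sadl_word (hM : 1 ≤ M) {P : Par (DD (tyW b))}
    {nb : Finset (DD (tyW b)) → Finset (DD (tyW b) ⊕ ZZ (tyW b))}
    (hpar : ∀ i, 0 < P.XM i ∧ P.XM i ≤ 1 ∧ 0 < P.cl i ∧ 0 < P.cr i ∧ P.cl i + P.cr i < P.XM i ∧
      0 < P.hu i ∧ 0 < P.hd i)
    (hnb : nb ∅ = ∅) (hnb' : ∀ R : Finset (DD (tyW b)), ∀ i ∈ R, .inl i ∈ nb R)
    (hD : ∀ i, P.cl i < (zsW b w (.inl i)).re ∧ (zsW b w (.inl i)).re < P.XM i - P.cr i)
    (hZ : ∀ v, |(zsW b w (.inr v)).re| < 1 / 4 ∧ 0 < (zsW b w (.inr v)).im)
    (hdom : (∀ k, 0 < ((wdat (tyW b) b).form k (zsW b w)).re ∧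
        ((wdat (tyW b) b).form k (zsW b w)).re < 1) →
      (∀ i, (wdat (tyW b) b).dT (zsW b w) i = 0) →
      (∀ X : DD (tyW b) ⊕ ZZ (tyW b) → ℝ, X ≠ 0 →
        ((wdat (tyW b) b).Q2 (zsW b w) X).re < 0) →
      ∀ R : Finset (DD (tyW b)), (∀ i ∈ R, P.XM i < 1) →
      ∀ (y : DD (tyW b) ⊕ ZZ (tyW b) → ℂ) (p : DD (tyW b) → ℝ),
      Adm (wdat (tyW b) b) P (zsW b w) R (nb R) y p → (R = ∅ → p = 0 → y ≠ zsW b w) →
      (wdat (tyW b) b).V y - 2 * Real.pi * ∑ i, p i < ((wdat (tyW b) b).T (zsW b w)).re) :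
    Sadl (wdat (tyW b) b) P nb (zsW b w) := by
  refine sadl_of (q := fun i => qv b w i.val) (fun i => qv_ne hb F hw L (by have := i.2; omega))
    L.run (fun i => (side_all hb F hw L hM i).1) ?_ ?_ ?_ hpar hnb hnb' hD hZ hdom
  · intro h
    obtain ⟨h1, h2⟩ := L.hinge h.val h.2
    have e : ctg (zsW b w (.inl (.inl h))) = Rh b w h.val := (acot2_spec h1 h2).1
    rw [e]
    exact hinge_rel hb F hw h.2
  · intro m
    exact mid_all hb F hw L hM m.1 m.2
  · intro v
    have e : zsW b w (.inr v) = xx (tyW b) v.1 (zsW b w) 1 := (xx_ring (tyW b) v.2 _).symm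
    rw [e]
    exact ring_all hb F hw L v.1 v.2

end SR

end Pool.Agent.Work.MP_b30479_gtS.G2

end

section

/-!
# From the layers of the rings to the chains of the gluing equations
-/

namespace Pool.Agent.Work.MP_b30479_gtS.G2

open Complex

/-! ### the chain of a ring -/

/-- `U_l = - v_(l+1) / v_(l-1)` -/
theorem chain_v {κ R : ℂ} {v U : ℕ → ℂ} (hκ : κ ≠ 0)
    (hadd : ∀ l, v (l + 2) + v l = 2 * κ * v (l + 1))
    (hmul : ∀ l, v (l + 2) * v l = v (l + 1) ^ 2 - 1) (hR1 : R ≠ I) (hR2 : R ≠ -I)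
    (h0 : U 0 = (R + I) / (R - I)) (h1 : 1 - U 1 = κ ^ 2 * (1 + R ^ 2) * (1 - U 0))
    (hrel : v 1 = -(I * κ * v 0 * (R + I))) {d : ℕ} (hv : ∀ l < d, v l ≠ 0)
    (hv2 : ∀ l, 1 ≤ l → l + 1 < d → v l ^ 2 ≠ 1)
    (edge : ∀ l, l + 2 ≤ d → (U (l + 2) - U (l + 1)) * U l = -(U (l + 1) - U l)) :
    ∀ l, l + 1 ≤ d → (1 - U (l + 1)) * v l = 2 * κ * v (l + 1) ∧
      1 - U (l + 1) = (1 - (v l ^ 2)⁻¹) * (1 - U l) ∧ 1 - U l ≠ 0 := by
  have hR1' : R - I ≠ 0 := sub_ne_zero.2 hR1
  have hR2' : R + I ≠ 0 := fun h => hR2 (by linear_combination h)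
  have hI := Complex.I_sq
  have hR : 1 + R ^ 2 ≠ 0 := by
    have : 1 + R ^ 2 = (R - I) * (R + I) := by linear_combination hI
    rw [this]
    exact mul_ne_zero hR1' hR2'
  have quad : ∀ l, v (l + 1) ^ 2 + v l ^ 2 - 2 * κ * v l * v (l + 1) = 1 := by
    intro l
    linear_combination (v l) * hadd l - hmul l
  have hq0 : v 0 ^ 2 * (1 - κ ^ 2 * (1 + R ^ 2)) = 1 := by
    have h := quad 0
    rw [zero_add, hrel] at h
    linear_combination h - (v 0 ^ 2 * κ ^ 2 * (R ^ 2 + 2 * R * I + 1 + I ^ 2)) * hI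
  have hs0 : ∀ l, l + 1 < d → v l ^ 2 - 1 ≠ 0 := by
    intro l hl h
    rcases Nat.eq_zero_or_pos l with rfl | hl0
    · have h2 : v 0 ^ 2 = 1 := by linear_combination h
      rw [h2, one_mul] at hq0
      have h3 : κ ^ 2 * (1 + R ^ 2) = 0 := by linear_combination -hq0
      exact mul_ne_zero (pow_ne_zero 2 hκ) hR h3
    · exact hv2 l hl0 hl (by linear_combination h)
  intro l
  induction l with
  | zero =>
    intro hl
    have hv0 := hv 0 (by omega)
    have e0 : 1 - U 0 = -(2 * I) / (R - I) := by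
      rw [h0]
      field_simp
      ring
    refine ⟨?_, ?_, ?_⟩
    · rw [zero_add, h1, e0, hrel]
      field_simp
      linear_combination (-1 : ℂ) * hI
    · rw [zero_add, h1]
      congr 1
      field_simp
      linear_combination -hq0
    · rw [e0]
      exact div_ne_zero (by simp) hR1'
  | succ l ih =>
    intro hl
    obtain ⟨i1, i2, i3⟩ := ih (by omega)
    have a0 := hv l (by omega)
    have c0 := hv (l + 1) (by omega)
    have s0 := hs0 l (by omega)
    have he := edge l (by omega)
    have hq := quad l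
    have hm := hmul l
    have ha := hadd l
    -- `U_l = - c² / (a² - 1)`
    have x1 : 1 - U (l + 1) = 2 * κ * v (l + 1) / v l := by
      rw [eq_div_iff a0]
      exact i1
    have x0 : 1 - U l = 2 * κ * v (l + 1) * v l / (v l ^ 2 - 1) := by
      rw [eq_div_iff s0]
      have h3 : (1 - U (l + 1)) * v l ^ 2 = (v l ^ 2 - 1) * (1 - U l) := by
        rw [i2]
        field_simp
      linear_combination -h3 + (v l) * i1
    have u0 : U l = -(v (l + 1) ^ 2 / (v l ^ 2 - 1)) := by
      have : U l = 1 - (1 - U l) := by ring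
      rw [this, x0]
      field_simp
      linear_combination hq
    have u0' : U l ≠ 0 := by
      rw [u0]
      exact neg_ne_zero.2 (div_ne_zero (pow_ne_zero 2 c0) s0)
    have x2 : 1 - U (l + 2) = 2 * κ * v (l + 2) / v (l + 1) := by
      have h4 : U (l + 2) - U (l + 1) = -(U (l + 1) - U l) / U l := by
        rw [eq_div_iff u0']
        exact he
      have h5 : 1 - U (l + 2) = (1 - U (l + 1)) + ((1 - U l) - (1 - U (l + 1))) / U l := by
        have : 1 - U (l + 2) = (1 - U (l + 1)) - (U (l + 2) - U (l + 1)) := by ring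
        rw [this, h4]
        ring
      rw [h5, x1, x0, u0]
      have h6 : v (l + 2) = (v (l + 1) ^ 2 - 1) / v l := by
        rw [eq_div_iff a0]
        exact hm
      rw [h6]
      field_simp
      ring
    have y1 : 1 - U (l + 1) ≠ 0 := by
      rw [x1]
      exact div_ne_zero (mul_ne_zero (mul_ne_zero two_ne_zero hκ) c0) a0
    refine ⟨?_, ?_, y1⟩
    · rw [show l + 1 + 1 = l + 2 by ring, x2]
      field_simp
    · rw [show l + 1 + 1 = l + 2 by ring, x2, x1]
      field_simp
      linear_combination hm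

/-! ### the hinges -/

/-- the hinge between two rings -/
lemma OwnP.hrel0 {W K : ℂ} (h : OwnP W K) :
    vv W K 1 = -(I * Complex.cos W * vv W K 0 * (RR W K + I)) := by
  have hc := h.cne
  rw [h.v1, h.v0]
  field_simp
  linear_combination (K * (RR W K + I)) * Complex.I_sq

/-- the hinge next to an absorbed digit -/
lemma OwnP.hrel1 {W K : ℂ} (h : OwnP W K) (hR : RR W K + I ≠ 0) :
    vv W K 2 = -(I * Complex.cos W * vv W K 1 * (Rs I (RR W K) (Complex.tan W) + I)) := by
  have hc := h.cne
  have h2 := vv_add W K 0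
  rw [zero_add, zero_add] at h2
  have h3 : vv W K 2 = 2 * Complex.cos W * vv W K 1 - vv W K 0 := by linear_combination h2
  have hT := one_add_tan_sq hc
  have h4 : I * K / Complex.cos W = I * K * Complex.cos W * (1 + Complex.tan W ^ 2) := by
    rw [hT]
    field_simp
  rw [h3, h.v1, h.v0, h4]
  unfold Rs
  field_simp
  ring_nf
  simp only [show I ^ 3 = -I by rw [pow_succ, I_sq]; ring, I_sq]
  ring

/-- the shape of the layer at the hinge -/
lemma sig_v {κ R v0 v1 v2 : ℂ} (hadd : v2 + v0 = 2 * κ * v1) (hmul : v2 * v0 = v1 ^ 2 - 1)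
    (hrel : v1 = -(I * κ * v0 * (R + I))) : κ ^ 2 * (1 + R ^ 2) = 1 - (v0 ^ 2)⁻¹ := by
  have hI := Complex.I_sq
  have h : v0 ^ 2 * (1 - κ ^ 2 * (1 + R ^ 2)) = 1 := by
    have h : v1 ^ 2 + v0 ^ 2 - 2 * κ * v0 * v1 = 1 := by
      linear_combination v0 * hadd - hmul
    rw [hrel] at h
    linear_combination h - (v0 ^ 2 * κ ^ 2 * (R ^ 2 + 2 * R * I + 1 + I ^ 2)) * hI
  have h1 := eq_inv_of_mul_eq_one_right h
  linear_combination -h1

lemma cjz_jj (s : ℤ) : cjz s (jj s) = I := by
  by_cases h : 0 < s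
  · rw [cjz_pos h, jj, if_pos h, one_mul]
  · rw [cjz_neg h, jj, if_neg h, neg_one_mul, map_neg, conj_I, neg_neg]

lemma cjz_hat {s : ℤ} {R : ℂ} : cjz s (hat s ((R + I) / (R - I))) = (cjz s R + I) / (cjz s R - I) := by
  by_cases h : 0 < s
  · rw [cjz_pos h, cjz_pos h, hat, if_pos h]
  · rw [cjz_neg h, cjz_neg h, hat, if_neg h, inv_div, map_div₀, map_add, map_sub, conj_I, sub_neg_eq_add, ← sub_eq_add_neg]

/-- the chain in the own frame, first step -/
lemma base_own {s : ℤ} {R κ u : ℂ} (hκ : κ ≠ 0) (h1 : R ≠ I) (h2 : R ≠ -I)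
    (hu : hf s ((R + I) / (R - I)) u = (1 + R ^ 2) / (1 / κ ^ 2) - 1) :
    1 - cjz s u = (cjz s κ) ^ 2 * (1 + (cjz s R) ^ 2) * (1 - cjz s (hat s ((R + I) / (R - I)))) := by
  have h1' : R - I ≠ 0 := sub_ne_zero.2 h1
  have h2' : R + I ≠ 0 := fun h => h2 (by linear_combination h)
  have hn : hat s ((R + I) / (R - I)) - 1 ≠ 0 := by
    by_cases h : 0 < s
    · rw [hat, if_pos h, div_sub_one h1']
      refine div_ne_zero ?_ h1'
      rw [show R + I - (R - I) = 2 * I by ring]
      simp
    · rw [hat, if_neg h, inv_div, div_sub_one h2']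
      refine div_ne_zero ?_ h2'
      rw [show R - I - (R + I) = -(2 * I) by ring]
      simp
  unfold hf at hu
  rw [div_eq_iff hn] at hu
  have h3 : 1 - u = κ ^ 2 * (1 + R ^ 2) * (1 - hat s ((R + I) / (R - I))) := by
    have h4 : (1 + R ^ 2) / (1 / κ ^ 2) = κ ^ 2 * (1 + R ^ 2) := by field_simp
    rw [h4] at hu
    linear_combination -hu
  have h5 := congrArg (cjz s) h3
  simp only [map_mul, map_sub, map_add, map_one, map_pow] at h5
  exact h5

namespace SR

set_option linter.unusedSectionVars false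

variable {M : ℕ} {b : Fin (M + 1) → ℤ} {w : ℕ → ℂ} (hb : ClassW b) (F : RingFacts) (hw : Sol b w)

section
include hb F hw

/-- the left hinge in the own frame -/
lemma hinge_ownL {n : ℕ} (h0 : 0 < n) (hn : n ≤ M) (hu : us b n = false) :
    vv (qW b w n) (qL b w n) ((us b (n - 1)).toNat + 1) =
      -(I * Complex.cos (qW b w n) * vv (qW b w n) (qL b w n) (us b (n - 1)).toNat *
        (cjz (bb b n) (Rh b w (n - 1)) + I)) := by
  have ho := ownL hb hw h0 hn hu
  have h1 := ln_spec hb h0 hu
  have hlh := left_hinge hb F hw h0 hn hu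
  have hR0 : 0 < (RR (w n) (Complex.cos (w (ln b n)))).re := by
    rw [hlh]
    exact R0_re hw (by omega) h1.2.1
  have hRR : cjz (bb b n) (R0 b w (ln b n)) = RR (qW b w n) (qL b w n) := by
    rw [← hlh, cjz_RR _ hR0]
    rfl
  by_cases h3 : us b (n - 1) = true
  · obtain ⟨m, rfl⟩ : ∃ m, n = m + 2 := ⟨n - 2, by have := us_lt hb h3; omega⟩
    have h3' := h3
    rw [show m + 2 - 1 = m + 1 by omega] at h3'
    have hl : ln b (m + 2) = m := by
      unfold ln
      rw [show m + 2 - 1 = m + 1 by omega, h3']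
      simp
    have hR1 : RR (qW b w (m + 2)) (qL b w (m + 2)) + I ≠ 0 := fun h => by
      have h4 := congrArg Complex.re h
      rw [add_re, I_re, zero_re, ← hRR, cjz_re, ← hlh] at h4
      linarith only [hR0, h4]
    have h5 := ho.hrel1 hR1
    have h6 : cjz (bb b (m + 2)) (Rh b w (m + 1)) =
        Rs I (RR (qW b w (m + 2)) (qL b w (m + 2))) (Complex.tan (qW b w (m + 2))) := by
      rw [Rh_left h3', ← hRR, hl, Rs, Rs, map_div₀, map_add, map_add, map_mul, cjz_jj, map_pow, tau,
        map_mul, map_neg, cjz_ofReal, cjz_tan]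
      have h7 : (-(sg b (m + 2) : ℂ) * Complex.tan (cjz (bb b (m + 2)) (w (m + 2)))) ^ 2 =
          Complex.tan (qW b w (m + 2)) ^ 2 := by
        rw [mul_pow, neg_sq, sg_sq, one_mul]
        rfl
      rw [h7]
    rw [h3, show m + 2 - 1 = m + 1 by omega, h6]
    exact h5
  · rw [Bool.not_eq_true] at h3
    have hl : ln b n = n - 1 := by
      unfold ln
      rw [h3]
      simp
    have h6 : cjz (bb b n) (Rh b w (n - 1)) = RR (qW b w n) (qL b w n) := by
      rw [Rh_false (n := n - 1) (by rwa [show n - 1 + 1 = n by omega]) h3, ← hRR, hl]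
    rw [h3, h6]
    exact ho.hrel0

/-- the right hinge in the own frame -/
lemma hinge_ownR {n : ℕ} (hn : n < M) (hu : us b n = false) :
    vv (qW b w n) (qR b w n) ((us b (n + 1)).toNat + 1) =
      -(I * Complex.cos (qW b w n) * vv (qW b w n) (qR b w n) (us b (n + 1)).toNat *
        (cjz (bb b n) (Rh b w n) + I)) := by
  have ho := ownR hb hw hn hu
  have hR0 : 0 < (R0 b w n).re := R0_re hw hn hu
  have hRR : cjz (bb b n) (R0 b w n) = RR (qW b w n) (qR b w n) := cjz_RR _ hR0
  by_cases h3 : us b (n + 1) = true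
  · have hR1 : RR (qW b w n) (qR b w n) + I ≠ 0 := fun h => by
      have h4 := congrArg Complex.re h
      rw [add_re, I_re, zero_re, ← hRR, cjz_re] at h4
      linarith only [hR0, h4]
    have h5 := ho.hrel1 hR1
    have h6 : cjz (bb b n) (Rh b w n) =
        Rs I (RR (qW b w n) (qR b w n)) (Complex.tan (qW b w n)) := by
      rw [Rh_true h3, ← hRR, Rs, Rs, map_div₀, map_add, map_add, map_mul, cjz_jj, map_pow, tau,
        map_mul, map_neg, cjz_ofReal, cjz_tan]
      have h7 : (-(sg b n : ℂ) * Complex.tan (cjz (bb b n) (w n))) ^ 2 =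
          Complex.tan (qW b w n) ^ 2 := by
        rw [mul_pow, neg_sq, sg_sq, one_mul]
        rfl
      rw [h7]
    rw [h3, h6]
    exact h5
  · rw [Bool.not_eq_true] at h3
    rw [h3, Rh_false h3 hu, hRR]
    exact ho.hrel0

end

/-! ### the layers do not vanish -/

omit hb F hw in
lemma lp_ne {v : ℂ} (h : Lp v) : v ≠ 0 ∧ v ^ 2 ≠ 1 := by
  unfold Lp at h
  constructor
  · rintro rfl
    simp at h
  · intro h2
    rw [h2] at h
    simp at h

include hb hw

lemma vvL_ne {n : ℕ} (h0 : 0 < n) (hn : n ≤ M) (hu : us b n = false) {j : ℕ} (hj : j < BB b n) :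
    vv (qW b w n) (qL b w n) j ≠ 0 := by
  have ho := ownL hb hw h0 hn hu
  rcases Nat.eq_zero_or_pos j with rfl | hj0
  · rw [ho.v0]
    exact div_ne_zero (mul_ne_zero I_ne_zero ho.kne) ho.cne
  · rcases Nat.lt_or_ge n M with h | h
    · exact (lp_ne (lay_inner hb hw h0 h hu hj0 hj)).1
    · have : n = M := by omega
      by_cases h2 : j + 1 = BB b n
      · have he := eqM' hb hw this (by omega)
        rw [(vv_end ho he).2 j h2]
        exact one_ne_zero
      · subst this
        exact (lp_ne (lay_last hb hw (by omega) hj0 (by omega))).1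

omit F in
lemma lay_last' {n : ℕ} (h : n = M) (hM : 1 ≤ M) {l : ℕ} (hl : 1 ≤ l) (hl' : l + 2 ≤ BB b n) :
    Lp (vv (qW b w n) (qL b w n) l) := by
  subst h
  exact lay_last hb hw hM hl hl'

lemma vvR_ne (hM : 1 ≤ M) {j : ℕ} (hj : j < BB b 0) : vv (qW b w 0) (qR b w 0) j ≠ 0 := by
  have ho := ownR hb hw (by omega : 0 < M) rfl
  rcases Nat.eq_zero_or_pos j with rfl | hj0
  · rw [ho.v0]
    exact div_ne_zero (mul_ne_zero I_ne_zero ho.kne) ho.cne
  · by_cases h2 : j + 1 = BB b 0
    · have he := eqF hb hw hM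
      rw [(vv_end ho he).2 j h2]
      exact one_ne_zero
    · exact (lp_ne (lay_first hb hw hM hj0 (by omega))).1

end SR

/-! ### the word -/

lemma edges_all {M : ℕ} {b : Fin (M + 2) → ℤ} {Y : Fin (M + 1) → ℂ} {U : Fin (M + 2) → ℕ → ℂ}
    (hG : Glue b Y U) (i : Fin (M + 2)) (l : ℕ)
    (hl : l + (if i = 0 ∨ i = Fin.last (M + 1) then 3 else 2) ≤ (b i).natAbs) :
    (U i (l + 2) - U i (l + 1)) * U i l = -(U i (l + 1) - U i l) := by
  by_cases h0 : i = 0
  · rw [if_pos (Or.inl h0)] at hl
    subst h0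
    exact hG.first.edge l (by omega)
  · by_cases h1 : i = Fin.last (M + 1)
    · rw [if_pos (Or.inr h1)] at hl
      subst h1
      exact hG.last.edge l (by omega)
    · rw [if_neg (by tauto)] at hl
      obtain ⟨j, rfl⟩ := Fin.exists_succ_eq.2 h0
      have hj : j ≠ Fin.last M := fun h2 => h1 (by rw [h2]; rfl)
      obtain ⟨j', rfl⟩ := Fin.exists_castSucc_eq.2 hj
      exact (hG.mid j').edge l hl

lemma left_all {M : ℕ} {b : Fin (M + 2) → ℤ} {Y : Fin (M + 1) → ℂ} {U : Fin (M + 2) → ℕ → ℂ}
    (hG : Glue b Y U) (j : Fin (M + 1)) : U j.succ 0 = hat (b j.succ) (Y j) := by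
  by_cases h1 : j = Fin.last M
  · subst h1
    exact hG.last.left
  · obtain ⟨j', rfl⟩ := Fin.exists_castSucc_eq.2 h1
    exact (hG.mid j').left

lemma ee_ctg {z : ℂ} (h : Complex.sin (Real.pi * z) ≠ 0) :
    Pool.Agent.Work.MP_b30479_gtS.LT.ee z = (ctg z + I) / (ctg z - I) := by
  have e1 : Complex.exp (2 * Real.pi * I * z) = Complex.exp (Real.pi * z * I) * Complex.exp (Real.pi * z * I) := by
    rw [← Complex.exp_add]
    congr 1
    ring
  have e2 : Complex.exp (Real.pi * z * I) = Complex.cos (Real.pi * z) + Complex.sin (Real.pi * z) * I :=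
    Complex.exp_mul_I _
  have e3 := Complex.sin_sq_add_cos_sq (Real.pi * z)
  unfold Pool.Agent.Work.MP_b30479_gtS.LT.ee ctg
  rw [e1, e2]
  set S := Complex.sin (Real.pi * z)
  set C := Complex.cos (Real.pi * z)
  have h4 : C - S * I ≠ 0 := by
    intro h5
    have h6 : (C - S * I) * (C + S * I) = 1 := by
      linear_combination e3 - S ^ 2 * I_sq
    rw [h5, zero_mul] at h6
    exact zero_ne_one h6
  have h5 : C / S - I = (C - S * I) / S := by field_simp
  have h6 : C / S + I = (C + S * I) / S := by field_simp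
  rw [h5, h6, div_div_div_cancel_right₀ h, eq_div_iff h4]
  linear_combination (C + S * I) * (e3 - S ^ 2 * I_sq)

section
set_option linter.unusedSectionVars false
open SR VOL

variable {M : ℕ} {b : Fin (M + 2) → ℤ} {w : ℕ → ℂ} (hb : ClassW b) (F : RingFacts) (hw : Sol b w)
  (L : LocOK b w)

include L

/-- the shape at a turning point -/
lemma gY_word (j : Fin (M + 1)) :
    gY (tyW b) (zsW b w) j = (Rh b w j.val + I) / (Rh b w j.val - I) := by
  obtain ⟨h1, h2⟩ := L.hinge j.val j.2
  obtain ⟨h3, h4⟩ := acot2_spec h1 h2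
  have e : gY (tyW b) (zsW b w) j = Pool.Agent.Work.MP_b30479_gtS.LT.ee (acot2 (Rh b w j.val)) := rfl
  rw [e, ee_ctg ?_, h3]
  intro h5
  have h6 : ctg (acot2 (Rh b w j.val)) = 0 := by
    unfold ctg
    rw [h5, div_zero]
  rw [h3] at h6
  rw [h6] at h5
  have hpi' : (Real.pi : ℂ) ≠ 0 := by exact_mod_cast Real.pi_pos.ne'
  have e2 : (Real.pi : ℂ) * acot2 0 = Real.pi / 2 := by
    have e3 : Complex.arctan 0 = 0 := by simp [Complex.arctan]
    unfold acot2
    rw [e3]
    field_simp
    ring
  rw [e2, Complex.sin_pi_div_two] at h5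
  exact one_ne_zero h5

lemma gtyp_word (hb : ClassW b) : GTyp b (tyW b) := by
  have h0 := hb.first
  have hl := hb.last
  have hl0 : Fin.last (M + 1) ≠ 0 := (Fin.last_pos' (n := M + 1)).ne'
  refine ⟨fun i => tyW_ok hb i, fun i => ?_, fun i => ?_, ?_, ?_⟩
  · unfold tyW
    split_ifs <;> simp
  · by_cases h : (b i).natAbs = 1
    · right
      unfold tyW
      rw [if_pos h]
    · left
      have := hb.ne i
      omega
  · unfold tyW
    rw [if_neg (by omega), if_pos rfl]
    split_ifs <;> simp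
  · unfold tyW
    rw [if_neg (by omega), if_neg hl0]
    split_ifs <;> simp

omit L in
/-- the phase of a ring in the own frame -/
lemma phase_own (i : Fin (M + 2)) (Q : ℂ) (e : Bool) (k : ℕ) :
    Complex.sin ((if 0 < b i then -(I * (-(sg b i.val : ℂ) * Q + if e then I * w i.val else 0)) else
      I * (-(sg b i.val : ℂ) * Q + if e then I * w i.val else 0)) +
      k * -(Real.pi * (-(sg b i.val : ℂ) * w i.val / Real.pi))) =
    sI (b i) * cjz (b i) (Complex.sin (I * cjz (b i) Q + (k + e.toNat : ℕ) * cjz (b i) (w i.val))) := by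
  have hpi' : (Real.pi : ℂ) ≠ 0 := by exact_mod_cast Real.pi_pos.ne'
  have hbv : bb b i.val = b i := bb_val i
  by_cases h : 0 < b i
  · have e1 : sg b i.val = 1 := by
      unfold sg
      rw [hbv, if_pos h]
    rw [if_pos h, e1, cjz_pos h, cjz_pos h, cjz_pos h, sI, if_pos h]
    push_cast
    rw [one_mul]
    congr 1
    cases e
    · simp
      field_simp
    · simp
      field_simp
      linear_combination (-(w i.val)) * I_sq
  · have e1 : sg b i.val = -1 := by
      unfold sg
      rw [hbv, if_neg h]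
    rw [if_neg h, e1, cjz_neg h, cjz_neg h, cjz_neg h, sI, if_neg h, ← Complex.sin_conj]
    push_cast
    rw [neg_one_mul, ← Complex.sin_neg]
    congr 1
    rw [map_add, map_mul, map_mul, conj_conj, conj_conj, conj_I, map_add, map_natCast, map_natCast]
    cases e
    · simp
      field_simp
      ring
    · simp
      field_simp
      linear_combination (w i.val) * I_sq

omit L in
lemma kz_strip {x ζ : ℂ} (h : KZ x ζ) : x ∈ strip ∧ 1 / 2 + x + ζ ∈ strip ∧ 1 / 2 + x - ζ ∈ strip := by
  obtain ⟨k1, k2, _⟩ := h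
  have hstr : ∀ z : ℂ, 0 < z.re → z.re < 1 → z ∈ strip := fun z h1 h2 => ⟨h1, h2⟩
  have := abs_le.1 (le_refl |ζ.re|)
  refine ⟨hstr _ k1 (by linarith only [k1, k2, this, abs_nonneg ζ.re]), hstr _ ?_ ?_, hstr _ ?_ ?_⟩
  · simp only [Complex.add_re, Complex.one_re, Complex.div_ofNat_re]
    linarith only [k1, k2, this, this.1]
  · simp only [Complex.add_re, Complex.one_re, Complex.div_ofNat_re]
    linarith only [k2, this, this.2]
  · simp only [Complex.add_re, Complex.sub_re, Complex.one_re, Complex.div_ofNat_re]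
    linarith only [k1, k2, this, this.2]
  · simp only [Complex.add_re, Complex.sub_re, Complex.one_re, Complex.div_ofNat_re]
    linarith only [k2, this, this.1]

include hb F hw

lemma ring_data (i : Fin (M + 2)) (ht : tyW b i = .ring) : 4 ≤ (b i).natAbs ∧
    us b i.val = false ∧
    xx (tyW b) i (zsW b w) 1 = -(sg b i.val : ℂ) * w i.val / Real.pi ∧
    Complex.cos (w i.val) ≠ 0 ∧
    Complex.sin (Real.pi * xx (tyW b) i (zsW b w) 1) = tau b w i.val * Complex.cos (w i.val) ∧
    Complex.cos (Real.pi * xx (tyW b) i (zsW b w) 1) = Complex.cos (w i.val) := by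
  have h4 : 4 ≤ (b i).natAbs := by
    have h0 := hb.ne i
    unfold tyW at ht
    split_ifs at ht with h1 h2 h3 h4
    omega
  have hu : us b i.val = false := us_of_abs (by omega)
  have hx1 := x_ring (b := b) (w := w) (i := i) (by rw [ht]; rfl)
  have hc := cos_ne F hw (n := i.val) (by have := i.2; omega) hu
  refine ⟨h4, hu, hx1, hc, ?_, ?_⟩
  · rw [hx1, sin_ring]
    unfold tau
    rw [mul_assoc, Complex.tan_mul_cos hc]
  · rw [hx1, cos_ring]

lemma rP_left (i : Fin (M + 2)) (ht : tyW b i = .ring) (h : 0 < i.val) :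
    rP (xx (tyW b) i (zsW b w) 0) (xx (tyW b) i (zsW b w) 1) = PL b w i.val := by
  obtain ⟨h4, hu, hx1, hc, hsin, hcos⟩ := ring_data hb F hw L i ht
  have h4' : 4 ≤ (bb b i.val).natAbs := by rw [bb_val]; exact h4
  have hrun := L.run i
  rw [ht] at hrun
  simp only [RunOk] at hrun
  obtain ⟨h00, hl, hr⟩ := hrun
  have hfl : fl i = true := by
    have : i ≠ 0 := fun h2 => by rw [h2] at h; simp at h
    simp [fl, this]
  obtain ⟨k1, k2, k3⟩ := kz_strip (hl hfl).1
  have hi := i.2
  have e := ring_mid (P := PL b w i.val) k1 k2 k3 (by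
    rw [hcos, hsin, ctg_left L h]
    linear_combination Complex.cos (w i.val) * pL hb F hw h (by omega) hu)
    (L.pl i.val h (by omega) h4')
  rw [rP, show xx (tyW b) i (zsW b w) 0 - xx (tyW b) i (zsW b w) 1 + 1 / 2 =
    1 / 2 + xx (tyW b) i (zsW b w) 0 - xx (tyW b) i (zsW b w) 1 by ring,
    show xx (tyW b) i (zsW b w) 0 + xx (tyW b) i (zsW b w) 1 + 1 / 2 =
    1 / 2 + xx (tyW b) i (zsW b w) 0 + xx (tyW b) i (zsW b w) 1 by ring]
  linear_combination -e / 2

lemma rP_right (i : Fin (M + 2)) (ht : tyW b i = .ring) (h : i.val < M + 1) :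
    rP (xx (tyW b) i (zsW b w) 2) (xx (tyW b) i (zsW b w) 1) = PR b w i.val := by
  obtain ⟨h4, hu, hx1, hc, hsin, hcos⟩ := ring_data hb F hw L i ht
  have h4' : 4 ≤ (bb b i.val).natAbs := by rw [bb_val]; exact h4
  have hrun := L.run i
  rw [ht] at hrun
  simp only [RunOk] at hrun
  obtain ⟨h00, hl, hr⟩ := hrun
  have hfr : fr i = true := by
    have : i ≠ Fin.last (M + 1) := fun h2 => by rw [h2] at h; simp at h
    simp [fr, this]
  obtain ⟨k1, k2, k3⟩ := kz_strip (hr hfr).1
  have e := ring_mid (P := PR b w i.val) k1 k2 k3 (by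
    rw [hcos, hsin, ctg_right L h]
    linear_combination Complex.cos (w i.val) * pR hb F hw h hu)
    (L.pr i.val h h4')
  rw [rP, show xx (tyW b) i (zsW b w) 2 - xx (tyW b) i (zsW b w) 1 + 1 / 2 =
    1 / 2 + xx (tyW b) i (zsW b w) 2 - xx (tyW b) i (zsW b w) 1 by ring,
    show xx (tyW b) i (zsW b w) 2 + xx (tyW b) i (zsW b w) 1 + 1 / 2 =
    1 / 2 + xx (tyW b) i (zsW b w) 2 + xx (tyW b) i (zsW b w) 1 by ring]
  linear_combination -e / 2

/-- the rings are nondegenerate -/
theorem gnv_word : GNv b (tyW b) (zsW b w) := by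
  have hsI : ∀ s : ℤ, (sI s : ℂ) ≠ 0 := by
    intro s
    unfold sI
    split_ifs <;> norm_num
  refine ⟨fun i hi => ?_, fun hi k hk => ?_, fun i hi0 hi k hk => ?_⟩
  · obtain ⟨h4, hu, hx1, hc, hsin, hcos⟩ := ring_data hb F hw L i hi
    have hs : Complex.sin (w i.val) ≠ 0 := by
      intro h
      have h1 := hw.re0 i.val (by have := i.2; omega) hu
      have h2 := hw.re1 i.val (by have := i.2; omega) hu
      have h3 := congrArg Complex.re h
      rw [sp_sin_re, zero_re] at h3
      have h5 : 0 < Real.sin (w i.val).re :=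
        Real.sin_pos_of_pos_of_lt_pi h1 (by linarith only [h2, Real.pi_gt_three])
      have := mul_pos h5 (Real.cosh_pos (w i.val).im)
      linarith only [h3, this]
    rw [show (2 * Real.pi * xx (tyW b) i (zsW b w) 1 : ℂ) =
      2 * (Real.pi * xx (tyW b) i (zsW b w) 1) by ring, Complex.sin_two_mul, hsin, hcos]
    refine mul_ne_zero (mul_ne_zero two_ne_zero (mul_ne_zero ?_ hc)) hc
    unfold tau
    have : Complex.tan (w i.val) ≠ 0 := by
      intro h
      apply hs
      rw [← Complex.tan_mul_cos hc, h, zero_mul]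
    refine mul_ne_zero (neg_ne_zero.2 ?_) this
    rcases sg_or (b := b) i.val with h | h <;> rw [h] <;> norm_num
  · obtain ⟨h4, hu, hx1, hc, hsin, hcos⟩ := ring_data hb F hw L 0 hi
    have h0v : ((0 : Fin (M + 2)) : ℕ) = 0 := rfl
    have e := phase_own (b := b) (w := w) 0 (QQ (w 0) (Complex.cos (w (rn b 0)))) (us b 1) k
    rw [rr0, rP_right hb F hw L 0 hi (by simp), hx1]
    unfold PR
    rw [h0v] at e ⊢
    rw [zero_add, e]
    refine mul_ne_zero (hsI _) ?_
    rw [map_ne_zero]
    have h5 : k + (us b 1).toNat < BB b 0 := by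
      unfold BB
      have : bb b 0 = b 0 := bb_val 0
      rw [this, zero_add]
      omega
    have h6 := vvR_ne hb hw (by omega : 1 ≤ M + 1) h5
    unfold vv at h6
    have h7 := (div_ne_zero_iff.1 h6).1
    rw [QQ_cjR hb hw (by omega) rfl] at h7
    unfold qW at h7
    have h8 : bb b 0 = b 0 := bb_val 0
    rw [h8] at h7
    exact h7
  · obtain ⟨h4, hu, hx1, hc, hsin, hcos⟩ := ring_data hb F hw L i hi
    have hi1 : 0 < i.val := by
      rcases Nat.eq_zero_or_pos i.val with h | h
      · exact absurd (Fin.ext h) hi0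
      · exact h
    have hiM : i.val ≤ M + 1 := by have := i.2; omega
    have e := phase_own (b := b) (w := w) i (QQ (w i.val) (Complex.cos (w (ln b i.val))))
      (us b (i.val - 1)) k
    rw [rr0, rP_left hb F hw L i hi hi1, hx1]
    unfold PL
    rw [e]
    refine mul_ne_zero (hsI _) ?_
    rw [map_ne_zero]
    have h5 : k + (us b (i.val - 1)).toNat < BB b i.val := by
      unfold BB
      rw [bb_val i]
      omega
    have h6 := vvL_ne hb hw hi1 hiM hu h5
    unfold vv at h6
    have h7 := (div_ne_zero_iff.1 h6).1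
    rw [QQ_cjL hb hw hi1 hiM hu] at h7
    unfold qW at h7
    rw [bb_val i] at h7
    exact h7

/-! ### the derivatives at the hinges -/

variable (hin : ∀ k, 0 < ((wdat (M := M + 1) (tyW b) b).form k (zsW b w)).re ∧
    ((wdat (M := M + 1) (tyW b) b).form k (zsW b w)).re < 1)
  (hc : ∀ i, (wdat (M := M + 1) (tyW b) b).dT (zsW b w) i = 0)
include hin hc

lemma hf_left (j : Fin (M + 1)) : hf (b j.castSucc) (gY (tyW b) (zsW b w) j)
    (nbr b (gU b (tyW b) (zsW b w)) j) = (1 + Rh b w j.val ^ 2) / qv b w j.val - 1 := by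
  have H := geo_LH (gtyp_word L hb) hin hc (gnv_word hb F hw L)
  have hl0 : (0 : Fin (M + 2)) ≠ Fin.last (M + 1) := (Fin.last_pos' (n := M + 1)).ne
  have n1 : j.castSucc ≠ Fin.last (M + 1) := (Fin.castSucc_lt_last _).ne
  have e : xx (tyW b) j.castSucc (zsW b w) 2 = zsW b w (.inl (.inl j)) := xx_right (M := M + 1) (tyW b) j (zsW b w)
  have h := H j.castSucc
  simp only [ne_eq, n1, not_false_eq_true, decide_true] at h
  have k1 := hf_r h
  rw [e] at k1
  have k3 : nbr b (gU b (tyW b) (zsW b w)) j = if decide (¬j.castSucc = 0) = false then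
      lC (tyW b j.castSucc) (b j.castSucc) (decide (¬j.castSucc = 0)) true
        (xx (tyW b) j.castSucc (zsW b w)) 1 else
      (lC (tyW b j.castSucc) (b j.castSucc) (decide (¬j.castSucc = 0)) true
        (xx (tyW b) j.castSucc (zsW b w)) ((b j.castSucc).natAbs - 1))⁻¹ := by
    unfold nbr
    by_cases hj : j = 0
    · subst hj
      rw [gU_eq]
      simp [hl0]
    · have hj' : j.castSucc ≠ 0 := by
        intro h
        exact hj (Fin.castSucc_injective _ h)
      rw [if_neg hj, gU_eq]
      simp [hj', n1]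
  unfold gY
  rw [k3, ← k1]
  have hs := (side_all hb F hw L (by omega : 1 ≤ M + 1) j.castSucc).1.2
  have hfr : fr j.castSucc = true := by simp [fr, n1]
  have hs2 := hs hfr
  rw [ctg_right L (by have := j.2; simp; omega)] at hs2
  rw [hfr] at hs2
  exact hs2

lemma hf_right (j : Fin (M + 1)) : hf (b j.succ) (gY (tyW b) (zsW b w) j)
    (gU b (tyW b) (zsW b w) j.succ 1) = (1 + Rh b w j.val ^ 2) / qv b w (j.val + 1) - 1 := by
  have H := geo_LH (gtyp_word L hb) hin hc (gnv_word hb F hw L)
  have n2 : j.succ ≠ 0 := Fin.succ_ne_zero _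
  have e' : xx (tyW b) j.succ (zsW b w) 0 = zsW b w (.inl (.inl j)) := xx_left (M := M + 1) (tyW b) j (zsW b w)
  have h' := H j.succ
  simp only [ne_eq, n2, not_false_eq_true, decide_true] at h'
  have k2 := hf_l h'
  rw [e'] at k2
  have k4 : gU b (tyW b) (zsW b w) j.succ 1 = lC (tyW b j.succ) (b j.succ) true
      (decide (¬j.succ = Fin.last (M + 1))) (xx (tyW b) j.succ (zsW b w)) 1 := by
    rw [gU_eq]
    simp [n2]
  unfold gY
  rw [k4, ← k2]
  have hs := (side_all hb F hw L (by omega : 1 ≤ M + 1) j.succ).1.1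
  have hfl : fl j.succ = true := by simp [fl, n2]
  have hs2 := hs hfl
  rw [ctg_left L (by simp)] at hs2
  rw [hfl] at hs2
  simpa using hs2

/-- the chain of an inner or the last digit -/
lemma chain_left (j : Fin (M + 1)) (hu : us b (j.val + 1) = false) (l : ℕ)
    (hl : l + (if j.succ = Fin.last (M + 1) then 2 else 1) ≤ (b j.succ).natAbs) :
    1 - cjz (b j.succ) (gU b (tyW b) (zsW b w) j.succ (l + 1)) =
      (1 - (vv (qW b w (j.val + 1)) (qL b w (j.val + 1)) (l + (us b j.val).toNat) ^ 2)⁻¹) *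
        (1 - cjz (b j.succ) (gU b (tyW b) (zsW b w) j.succ l)) ∧
      1 - cjz (b j.succ) (gU b (tyW b) (zsW b w) j.succ l) ≠ 0 := by
  have hG := geo_glue (gtyp_word L hb) hin hc (gnv_word hb F hw L)
  have hjM := j.2
  obtain ⟨R1, R2⟩ := L.hinge j.val j.2
  have hv : (j.succ).val = j.val + 1 := Fin.val_succ j
  have hbv : bb b (j.val + 1) = b j.succ := by rw [← hv]; exact bb_val _
  have hBB : BB b (j.val + 1) = (b j.succ).natAbs + (us b j.val).toNat + (us b (j.val + 2)).toNat := by
    unfold BB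
    rw [hbv]
    rfl
  have ho := ownL hb hw (by omega : 0 < j.val + 1) (by omega) hu
  have hR1 : cjz (b j.succ) (Rh b w j.val) ≠ I ∧ cjz (b j.succ) (Rh b w j.val) ≠ -I := by
    by_cases h : 0 < b j.succ
    · rw [cjz_pos h]
      exact ⟨R1, R2⟩
    · rw [cjz_neg h]
      constructor
      · intro h2
        apply R2
        have := congrArg (starRingEnd ℂ) h2
        rwa [conj_conj, conj_I] at this
      · intro h2
        apply R1
        have := congrArg (starRingEnd ℂ) h2
        rwa [conj_conj, map_neg, conj_I, neg_neg] at this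
  have hhin := hinge_ownL hb F hw (by omega : 0 < j.val + 1) (by omega) hu
  rw [hbv, Nat.add_sub_cancel] at hhin
  have hleft := left_all hG j
  have hend : ∀ l, l + (if j.succ = Fin.last (M + 1) then 3 else 2) ≤ (b j.succ).natAbs →
      (gU b (tyW b) (zsW b w) j.succ (l + 2) - gU b (tyW b) (zsW b w) j.succ (l + 1)) *
        gU b (tyW b) (zsW b w) j.succ l = -(gU b (tyW b) (zsW b w) j.succ (l + 1) -
        gU b (tyW b) (zsW b w) j.succ l) := by
    intro l hl
    refine edges_all hG j.succ l ?_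
    have h0 : ¬ j.succ = 0 := Fin.succ_ne_zero _
    simpa [h0] using hl
  set W := qW b w (j.val + 1) with hW
  set K := qL b w (j.val + 1) with hK
  set δ := (us b j.val).toNat with hδ
  have key := chain_v (κ := Complex.cos W) (R := cjz (b j.succ) (Rh b w j.val))
    (v := fun l => vv W K (l + δ)) (U := fun l => cjz (b j.succ) (gU b (tyW b) (zsW b w) j.succ l))
    (d := (b j.succ).natAbs - (if j.succ = Fin.last (M + 1) then 1 else 0)) ho.cne
    (fun l => by
      have := vv_add W K (l + δ)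
      rw [show l + δ + 2 = l + 2 + δ by ring, show l + δ + 1 = l + 1 + δ by ring] at this
      exact this)
    (fun l => by
      have := ho.mul (l + δ)
      rw [show l + δ + 2 = l + 2 + δ by ring, show l + δ + 1 = l + 1 + δ by ring] at this
      exact this)
    hR1.1 hR1.2
    (by
      show cjz (b j.succ) (gU b (tyW b) (zsW b w) j.succ 0) = _
      rw [hleft, gY_word L j, cjz_hat])
    (by
      have h2 := hf_right hb F hw L hin hc j
      rw [qv_ring hu, gY_word L j] at h2
      have h3 := base_own (cos_ne F hw (by omega) hu) R1 R2 h2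
      rw [← hbv, ← qW_cos hw, hbv, ← hW] at h3
      show 1 - cjz (b j.succ) (gU b (tyW b) (zsW b w) j.succ 1) =
        _ * _ * (1 - cjz (b j.succ) (gU b (tyW b) (zsW b w) j.succ 0))
      rw [hleft, gY_word L j]
      exact h3)
    (by
      show vv W K (1 + δ) = -(I * Complex.cos W * vv W K (0 + δ) * _)
      rw [zero_add, add_comm 1 δ]
      exact hhin)
    (fun l hl => by
      show vv W K (l + δ) ≠ 0
      apply vvL_ne hb hw (by omega : 0 < j.val + 1) (by omega) hu
      rw [hBB]
      split_ifs at hl <;> omega)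
    (fun l hl1 hl2 => by
      show vv W K (l + δ) ^ 2 ≠ 1
      refine (lp_ne ?_).2
      by_cases h : j.succ = Fin.last (M + 1)
      · rw [if_pos h] at hl2
        have h2 := congrArg Fin.val h
        rw [hv] at h2
        exact lay_last' hb hw h2 (by omega) (by omega) (by rw [hBB]; omega)
      · rw [if_neg h] at hl2
        refine lay_inner hb hw (by omega : 0 < j.val + 1) ?_ hu (by omega) (by rw [hBB]; omega)
        by_contra hc
        exact h (Fin.ext (by rw [hv]; simp; omega)))
    (fun l hl => by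
      have h3 := hend l (by split_ifs at hl ⊢ <;> omega)
      have h4 := congrArg (cjz (b j.succ)) h3
      rw [map_mul, map_sub, map_neg, map_sub] at h4
      exact h4)
    l (by split_ifs at hl ⊢ <;> omega)
  exact key.2

/-- the chain of the first digit -/
lemma chain_first (l : ℕ) (hl : l + 2 ≤ (b 0).natAbs) :
    1 - cjz (b 0) (gU b (tyW b) (zsW b w) 0 (l + 1)) =
      (1 - (vv (qW b w 0) (qR b w 0) (l + (us b 1).toNat) ^ 2)⁻¹) *
        (1 - cjz (b 0) (gU b (tyW b) (zsW b w) 0 l)) ∧
      1 - cjz (b 0) (gU b (tyW b) (zsW b w) 0 l) ≠ 0 := by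
  have hG := geo_glue (gtyp_word L hb) hin hc (gnv_word hb F hw L)
  have hu : us b 0 = false := rfl
  obtain ⟨R1, R2⟩ := L.hinge 0 (by omega)
  have hbv : bb b 0 = b 0 := bb_val 0
  have hBB : BB b 0 = (b 0).natAbs + (us b 1).toNat := by
    unfold BB
    rw [hbv]
    rfl
  have ho := ownR hb hw (by omega : 0 < M + 1) hu
  have hR1 : cjz (b 0) (Rh b w 0) ≠ I ∧ cjz (b 0) (Rh b w 0) ≠ -I := by
    by_cases h : 0 < b 0
    · rw [cjz_pos h]
      exact ⟨R1, R2⟩
    · rw [cjz_neg h]
      constructor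
      · intro h2
        apply R2
        have := congrArg (starRingEnd ℂ) h2
        rwa [conj_conj, conj_I] at this
      · intro h2
        apply R1
        have := congrArg (starRingEnd ℂ) h2
        rwa [conj_conj, map_neg, conj_I, neg_neg] at this
  have hhin := hinge_ownR hb F hw (by omega : 0 < M + 1) hu
  rw [hbv, zero_add] at hhin
  have hgY : gY (tyW b) (zsW b w) 0 = (Rh b w 0 + I) / (Rh b w 0 - I) := gY_word L 0
  have hleft : gU b (tyW b) (zsW b w) 0 0 = hat (b 0) (gY (tyW b) (zsW b w) 0) := hG.first.left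
  set W := qW b w 0 with hW
  set K := qR b w 0 with hK
  set δ := (us b 1).toNat with hδ
  have key := chain_v (κ := Complex.cos W) (R := cjz (b 0) (Rh b w 0))
    (v := fun l => vv W K (l + δ)) (U := fun l => cjz (b 0) (gU b (tyW b) (zsW b w) 0 l))
    (d := (b 0).natAbs - 1) ho.cne
    (fun l => by
      have := vv_add W K (l + δ)
      rw [show l + δ + 2 = l + 2 + δ by ring, show l + δ + 1 = l + 1 + δ by ring] at this
      exact this)
    (fun l => by
      have := ho.mul (l + δ)
      rw [show l + δ + 2 = l + 2 + δ by ring, show l + δ + 1 = l + 1 + δ by ring] at this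
      exact this)
    hR1.1 hR1.2
    (by
      show cjz (b 0) (gU b (tyW b) (zsW b w) 0 0) = _
      rw [hleft, hgY, cjz_hat])
    (by
      have h2 := hf_left hb F hw L hin hc 0
      have h0 : (0 : Fin (M + 1)).castSucc = 0 := rfl
      have h1 : ((0 : Fin (M + 1)) : ℕ) = 0 := rfl
      have h3 : nbr b (gU b (tyW b) (zsW b w)) 0 = gU b (tyW b) (zsW b w) 0 1 := by
        unfold nbr
        rw [if_pos rfl]
      rw [h3, h0, h1, qv_ring hu, hgY] at h2
      have h3 := base_own (cos_ne F hw (by omega) hu) R1 R2 h2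
      rw [← hbv, ← qW_cos hw, hbv, ← hW] at h3
      show 1 - cjz (b 0) (gU b (tyW b) (zsW b w) 0 1) =
        _ * _ * (1 - cjz (b 0) (gU b (tyW b) (zsW b w) 0 0))
      rw [hleft, hgY]
      exact h3)
    (by
      show vv W K (1 + δ) = -(I * Complex.cos W * vv W K (0 + δ) * _)
      rw [zero_add, add_comm 1 δ]
      exact hhin)
    (fun l hl => by
      show vv W K (l + δ) ≠ 0
      exact vvR_ne hb hw (by omega) (by rw [hBB]; omega))
    (fun l hl1 hl2 => by
      show vv W K (l + δ) ^ 2 ≠ 1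
      exact (lp_ne (lay_first hb hw (by omega) (by omega) (by rw [hBB]; omega))).2)
    (fun l hl => by
      have h3 := edges_all hG 0 l (by simp; omega)
      have h4 := congrArg (cjz (b 0)) h3
      rw [map_mul, map_sub, map_neg, map_sub] at h4
      exact h4)
    l (by omega)
  exact key.2

omit hb F hw L hin hc in
lemma im_of_chain {s : ℤ} {u u' : ℂ} {v : ℂ} (h : 1 - cjz s u' = (1 - (v ^ 2)⁻¹) * (1 - cjz s u))
    (h0 : 1 - cjz s u ≠ 0) (hv : Lp v) : 0 < sI s * ((1 - u') / (1 - u)).im := by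
  have e : cjz s ((1 - u') / (1 - u)) = 1 - (v ^ 2)⁻¹ := by
    rw [map_div₀, map_sub, map_sub, map_one, h, mul_div_cancel_right₀ _ h0]
  rw [← cjz_im, e]
  exact hv

/-- **Positivity of the Sakuma-Weeks tetrahedra of a word.** -/
theorem upos_word : UPos b (gU b (tyW b) (zsW b w)) := by
  have hM1 : 1 ≤ M + 1 := by omega
  constructor
  · intro i l hl hl'
    by_cases hi0 : i = 0
    · subst hi0
      rw [if_pos (Or.inl rfl)] at hl'
      obtain ⟨k1, k2⟩ := chain_first hb F hw L hin hc l hl'
      have hBB : BB b 0 = (b 0).natAbs + (us b 1).toNat := by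
        have e0 : bb b 0 = b 0 := bb_val 0
        unfold BB
        rw [e0]
        rfl
      exact im_of_chain k1 k2 (lay_first hb hw hM1 (by omega) (by rw [hBB]; omega))
    · obtain ⟨j, rfl⟩ := Fin.exists_succ_eq.2 hi0
      have hv : (j.succ).val = j.val + 1 := Fin.val_succ j
      have h2 : (b j.succ).natAbs ≠ 1 := by split_ifs at hl' <;> omega
      have hu : us b (j.val + 1) = false := by
        rw [← hv]
        exact us_of_abs h2
      have hBB : BB b (j.val + 1) = (b j.succ).natAbs + (us b j.val).toNat +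
          (us b (j.val + 2)).toNat := by
        unfold BB
        rw [← hv, bb_val j.succ]
        rfl
      have hc' : (if j.succ = 0 ∨ j.succ = Fin.last (M + 1) then 2 else 1) =
          (if j.succ = Fin.last (M + 1) then 2 else 1) := by
        simp [hi0]
      rw [hc'] at hl'
      obtain ⟨k1, k2⟩ := chain_left hb F hw L hin hc j hu l hl'
      refine im_of_chain k1 k2 ?_
      by_cases h : j.succ = Fin.last (M + 1)
      · rw [if_pos h] at hl'
        have h2 := congrArg Fin.val h
        rw [hv] at h2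
        exact lay_last' hb hw h2 (by omega) (by omega) (by rw [hBB]; omega)
      · rw [if_neg h] at hl'
        refine lay_inner hb hw (by omega : 0 < j.val + 1) ?_ hu (by omega) (by rw [hBB]; omega)
        have := j.2
        by_contra hcc
        exact h (Fin.ext (by rw [hv]; simp; omega))
  · intro j hj
    have hv : (j.succ).val = j.val + 1 := Fin.val_succ j
    have hv' : (j.castSucc).val = j.val := Fin.val_castSucc j
    have hjM := j.2
    have hbj : bb b j.val = b j.castSucc := by rw [← hv']; exact bb_val _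
    have hbj' : bb b (j.val + 1) = b j.succ := by rw [← hv]; exact bb_val _
    by_cases hu : us b (j.val + 1) = false
    · -- the right digit is a ring
      have hpos : 0 < (b j.succ).natAbs := Int.natAbs_pos.2 (hb.ne _)
      have hl2 : (if j.succ = Fin.last (M + 1) then 2 else 1) ≤ (b j.succ).natAbs := by
        split_ifs with h
        · rw [h]
          exact hb.last
        · omega
      obtain ⟨k1, k2⟩ := chain_left hb F hw L hin hc j hu 0 (by omega)
      refine im_of_chain k1 k2 ?_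
      rw [zero_add]
      have hBB : BB b (j.val + 1) = (b j.succ).natAbs + (us b j.val).toNat +
          (us b (j.val + 2)).toNat := by
        unfold BB
        rw [← hv, bb_val j.succ]
        rfl
      by_cases h3 : us b j.val = true
      · rw [h3] at hBB ⊢
        rw [Bool.toNat_true] at hBB ⊢
        by_cases h : j.succ = Fin.last (M + 1)
        · have h2 := congrArg Fin.val h
          rw [hv] at h2
          rw [if_pos h] at hl2
          exact lay_last' hb hw h2 (by omega) le_rfl (by rw [hBB]; omega)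
        · refine lay_inner hb hw (by omega : 0 < j.val + 1) ?_ hu le_rfl (by rw [hBB]; omega)
          by_contra hcc
          exact h (Fin.ext (by rw [hv]; simp; omega))
      · rw [Bool.not_eq_true] at h3
        rw [h3, Bool.toNat_false]
        have hl : ln b (j.val + 1) = j.val := by
          unfold ln
          rw [Nat.add_sub_cancel, h3]
          simp
        refine lay_turnL hb hw (by omega : 0 < j.val + 1) (by omega) hu ?_
        rw [hl, hbj, hbj', mul_comm]
        exact hj
    · -- the right digit is absorbed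
      rw [Bool.not_eq_false] at hu
      have hu' : us b j.val = false := by
        have := (us_true hu).2.2.1
        rwa [Nat.add_sub_cancel] at this
      have h1 := us_lt hb hu
      have ho := ownR hb hw (by omega : j.val < M + 1) hu'
      have hG := geo_glue (gtyp_word L hb) hin hc (gnv_word hb F hw L)
      have hturn := hG.turn j
      have hfl := hf_left hb F hw L hin hc j
      rw [hfl] at hturn
      -- the layer of the left digit
      have hLp : Lp (vv (qW b w j.val) (qR b w j.val) 1) := by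
        rcases Nat.eq_zero_or_pos j.val with h0 | h0
        · have hBB : BB b 0 = (b 0).natAbs + (us b 1).toNat := by
            have e0 : bb b 0 = b 0 := bb_val 0
            unfold BB
            rw [e0]
            rfl
          rw [h0] at hu ⊢
          rw [hu, Bool.toNat_true] at hBB
          have := hb.first
          exact lay_first hb hw hM1 le_rfl (by rw [hBB]; omega)
        · have hBB := BB_ge hb (n := j.val) (by omega) hu'
          have he := eqI hb hw h0 (by omega) hu'
          rw [add_comm (QQ (qW b w j.val) (qL b w j.val))] at he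
          rw [vv_mirror he (l := 1) (m := BB b j.val - 1) (by omega)]
          exact lay_inner hb hw h0 (by omega) hu' (by omega) (by omega)
      have hhin := hinge_ownR hb F hw (by omega : j.val < M + 1) hu'
      rw [hu, Bool.toNat_true, hbj] at hhin
      have hsig := sig_v (vv_add (qW b w j.val) (qR b w j.val) 1) (ho.mul 1) hhin
      have hA : cjz (b j.castSucc) ((1 + Rh b w j.val ^ 2) / qv b w j.val - 1) =
          -(vv (qW b w j.val) (qR b w j.val) 1 ^ 2)⁻¹ := by
        rw [qv_ring hu']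
        have h5 : (1 + Rh b w j.val ^ 2) / (1 / Complex.cos (w j.val) ^ 2) =
            Complex.cos (w j.val) ^ 2 * (1 + Rh b w j.val ^ 2) := by
          rw [div_div_eq_mul_div, div_one, mul_comm]
        rw [h5]
        simp only [map_mul, map_sub, map_add, map_one, map_pow]
        rw [← hbj, ← qW_cos hw, hbj, hsig]
        ring
      set A := (1 + Rh b w j.val ^ 2) / qv b w j.val - 1 with hAd
      set H := hf (b j.succ) (gY (tyW b) (zsW b w) j) (gU b (tyW b) (zsW b w) j.succ 1) with hH
      have hA0 : A ≠ 0 := fun h => by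
        rw [h, zero_mul] at hturn
        exact zero_ne_one hturn
      have hH2 : H = A⁻¹ := eq_inv_of_mul_eq_one_right hturn
      have hH3 : cjz (b j.castSucc) H = -(vv (qW b w j.val) (qR b w j.val) 1 ^ 2) := by
        rw [hH2, map_inv₀, hA, inv_neg, inv_inv]
      have hvim : 0 < (vv (qW b w j.val) (qR b w j.val) 1 ^ 2).im := by
        have h6 := hLp
        unfold Lp at h6
        have h7 := (lp_ne hLp).1
        rw [sub_im, Complex.one_im, inv_im, zero_sub, neg_div, neg_neg] at h6
        have h8 : 0 < normSq (vv (qW b w j.val) (qR b w j.val) 1 ^ 2) :=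
          normSq_pos.2 (pow_ne_zero 2 h7)
        exact (div_pos_iff_of_pos_right h8).1 h6
      have hq : (1 - gU b (tyW b) (zsW b w) j.succ 1) / (1 - gU b (tyW b) (zsW b w) j.succ 0) = 1 + H := by
        have hn : hat (b j.succ) (gY (tyW b) (zsW b w) j) - 1 ≠ 0 := by
          intro h9
          rw [hH, hf, h9, div_zero] at hH2
          exact (inv_ne_zero hA0) hH2.symm
        have hn' : 1 - hat (b j.succ) (gY (tyW b) (zsW b w) j) ≠ 0 := by
          intro h9
          apply hn
          linear_combination -h9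
        rw [left_all hG j, hH, hf, div_eq_iff hn', add_mul, one_mul]
        have h10 : ∀ u h : ℂ, h - 1 ≠ 0 → (u - h) / (h - 1) * (1 - h) = -(u - h) := by
          intro u h h11
          rw [div_mul_eq_mul_div, div_eq_iff h11]
          ring
        rw [h10 _ _ hn]
        ring
      rw [hq, add_im, Complex.one_im, zero_add]
      have h12 := congrArg Complex.im hH3
      rw [cjz_im, neg_im] at h12
      have h13 : sI (b j.succ) = -sI (b j.castSucc) := by
        rcases lt_or_ge 0 (b j.castSucc) with h | h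
        · have : ¬0 < b j.succ := fun h' => by
            have := mul_pos h h'
            omega
          rw [sI, sI, if_neg this, if_pos h]
        · have h' : 0 < b j.succ := by
            by_contra hcc
            have := mul_nonneg_of_nonpos_of_nonpos h (not_lt.1 hcc)
            omega
          rw [sI, sI, if_pos h', if_neg (by omega), neg_neg]
      rw [h13, neg_mul, h12, neg_neg]
      exact hvim

end

end Pool.Agent.Work.MP_b30479_gtS.G2

end
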