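import Pool.Agent.Work.MP_b30479_gt.TBS.G2.WVal

/-!
# Slots of a region, words all of whose regions are rings
-/

namespace Pool.Agent.Work.MP_b30479_gtS.G2

open Finset VOL Filter Topology

namespace SR

variable {M : ℕ} {b : Fin (M + 1) → ℤ} {zs : DD (tyW b) ⊕ ZZ (tyW b) → ℂ}
variable {h h' : Fin M} {i j j' : Fin (M + 1)} {p : Fin 3}

/-! ### local variables of a point -/

theorem Ow_adj (z : DD (tyW b) ⊕ ZZ (tyW b) → ℂ) (A : Adj h i p j) :
    Ow b z i p = ofr (b i) (z (.inl (.inl h))) := by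
  unfold Ow
  cases A
  · rw [own_two, xx_right]
  · rw [own_zero, xx_left]

theorem Ow_ring (z : DD (tyW b) ⊕ ZZ (tyW b) → ℂ) (v : ZZ (tyW b)) :
    Ow b z v.1 1 = ofz (b v.1) (z (.inr v)) := by
  unfold Ow
  rw [tyW_ring v.2, own_ring]
  exact congrArg _ (xx_ring (tyW b) v.2 z)

/-- a slot is empty or it carries a hinge -/
theorem slot_cases (b : Fin (M + 1) → ℤ) (i : Fin (M + 1)) (hp : p = 0 ∨ p = 2) :
    ((∀ z : DD (tyW b) ⊕ ZZ (tyW b) → ℂ, Ow b z i p = 0) ∧ ¬ ∃ h j, Adj h i p j) ∨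
      ∃ h j, Adj h i p j := by
  rcases hp with rfl | rfl
  · by_cases h0 : i = 0
    · left
      refine ⟨fun z => (Ow_endOk z i).1 h0, ?_⟩
      rintro ⟨h, j, A⟩
      generalize hi : i = i' at A
      cases A
      exact Fin.succ_ne_zero _ (hi.symm.trans h0)
    · right
      obtain ⟨k, rfl⟩ := Fin.eq_succ_of_ne_zero h0
      exact ⟨k, _, .r⟩
  · by_cases h0 : i = Fin.last M
    · left
      refine ⟨fun z => (Ow_endOk z i).2 h0, ?_⟩
      rintro ⟨h, j, A⟩
      generalize hi : i = i' at A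
      cases A
      exact (Fin.castSucc_lt_last _).ne (hi.symm.trans h0)
    · right
      obtain ⟨k, rfl⟩ := Fin.eq_castSucc_of_ne_last h0
      exact ⟨k, _, .l⟩

/-! ### location of rings -/

theorem Adj.rr_height (A : Adj h i p j) (hL : Loc b zs) (hi : clsW b i = .ring)
    (hj : clsW b j = .ring) : |(zs (.inl (.inl h))).im| ≤ 59 / 1000 := by
  have h1 := (hL.hinge h).2.2
  have e : clsW b h.castSucc = .ring ∧ clsW b h.succ = .ring := by
    cases A
    · exact ⟨hi, hj⟩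
    · exact ⟨hj, hi⟩
  rw [e.1, e.2, ofr_im] at h1
  have h2 : |ofs (b h.castSucc) (zs (.inl (.inl h))).im| ≤ 59 / 1000 := by
    rw [abs_le]
    cases hs : ssW b h <;> rw [hs] at h1 <;> simp only [hbox] at h1 <;> constructor <;> linarith [h1.1, h1.2]
  rwa [abs_ofs] at h2

theorem zbox_t1 {n : ℕ} (hn : 4 ≤ n) (e : Bool) : (zbox n e).t1 ≤ 1045 / 10000 := by
  unfold zbox
  split_ifs with h4 h5 h6 h7 h8 h9 h10 h11 h12
  all_goals try norm_num
  all_goals
    have h8 : (8 : ℝ) ≤ n := by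
      have : 8 ≤ n := by omega
      exact_mod_cast this
    have h9 : (64 : ℝ) ≤ (n : ℝ) ^ 2 := by nlinarith
    rw [div_le_iff₀ (by positivity)]
    linarith

theorem Loc.ring_height (hb : ClassW b) (hL : Loc b zs) (v : ZZ (tyW b)) :
    (zs (.inr v)).im ≤ 1045 / 10000 := by
  have h1 := (hL.ring v).2.2.2
  rw [ofz_im] at h1
  exact h1.trans (zbox_t1 (ring_four hb (tyW_ring v.2)) _)

/-! ### the step -/

open Classical in
/-- the hinges in the tail and the ring variables next to them -/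
noncomputable def nbR (b : Fin (M + 1) → ℤ) (R : Finset (DD (tyW b))) :
    Finset (DD (tyW b) ⊕ ZZ (tyW b)) :=
  univ.filter fun x => Sum.elim (fun i => i ∈ R)
    (fun v => ∃ h p j, Adj h v.1 p j ∧ .inl h ∈ R) x

theorem mem_nbR_inl (R : Finset (DD (tyW b))) (i : DD (tyW b)) : .inl i ∈ nbR b R ↔ i ∈ R := by
  unfold nbR
  simp

theorem mem_nbR_inr (R : Finset (DD (tyW b))) (v : ZZ (tyW b)) :
    .inr v ∈ nbR b R ↔ ∃ h p j, Adj h v.1 p j ∧ .inl h ∈ R := by
  unfold nbR
  simp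

theorem nbR_empty : nbR b ∅ = ∅ := by
  ext x
  rcases x with i | v
  · simp [mem_nbR_inl]
  · simp [mem_nbR_inr]

/-- all regions are rings -/
def AllRing (b : Fin (M + 1) → ℤ) : Prop := ∀ i, clsW b i = .ring

theorem AllRing.inl (hA : AllRing b) (i : DD (tyW b)) : ∃ h : Fin M, i = .inl h := by
  rcases i with h | m
  · exact ⟨h, rfl⟩
  · exfalso
    have h1 := clsW_mid m.2
    rw [hA] at h1
    split_ifs at h1

theorem AllRing.par (hA : AllRing b) (h : Fin M) : par1 b (.inl h) = ⟨1 / 2, 1 / 10, 2 / 100⟩ := by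
  show hp (outL b h) (clsW b h.castSucc) (clsW b h.succ) (outR b h) = _
  rw [hA, hA]
  simp only [hp]
  norm_num

theorem AllRing.height (hA : AllRing b) (hL : Loc b zs) (h : Fin M) :
    |(zs (.inl (.inl h))).im| ≤ 59 / 1000 :=
  (Adj.l (h := h)).rr_height hL (hA _) (hA _)

theorem tr_mem (a b' c c' x : ℝ) : 0 ≤ tr a b' c c' x ∧ tr a b' c c' x ≤ 1 := by
  unfold tr
  constructor
  · exact le_max_left _ _
  · apply max_le (by norm_num) (min_le_left _ _)

theorem pt_im_le {a b' c c' t x B : ℝ} (ht : |t| ≤ B) : |(pt a b' c c' t x).im| ≤ B := by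
  unfold pt
  obtain ⟨h0, h1⟩ := tr_mem a b' c c' x
  have e : (((x : ℂ) + ((t * tr a b' c c' x : ℝ) : ℂ) * Complex.I)).im = t * tr a b' c c' x := by simp
  rw [e, abs_mul, abs_of_nonneg h0]
  have := abs_nonneg t
  nlinarith

theorem pt_re (a b' c c' t x : ℝ) : (pt a b' c c' t x).re = x := by
  unfold pt
  simp

end SR

end Pool.Agent.Work.MP_b30479_gtS.G2
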