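import Pool.Agent.Work.MP_b30479_gt.TBS.TwoBridgeTwist
import Pool.Agent.Work.MP_b30479_gt.TBS.G2.SWordE
import Pool.Agent.Work.MP_b30479_gt.TBS.G2.WMid
import Pool.Agent.Work.MP_b30479_gt.TBS.G2.MPFocD
import Pool.Agent.Work.MP_b30479_gt.TBS.G2.TRd
import Pool.Agent.Work.MP_b30479_gt.TBS.G2.MPWallD

section

/-!
# The saddle point of a word: assembly
-/

namespace Pool.Agent.Work.MP_b30479_gtS.G2

open SR

/-- the saddle point data of a word, from a solution of the ring equations in the polygons -/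
theorem hsad_of {M : ℕ} {b : Fin (M + 2) → ℤ} (hb : ClassW (M := M + 1) b) (F : RingFacts)
    {w : ℕ → ℂ} (hw : Sol (M := M + 1) b w) (L : LocOK (M := M + 1) b w)
    {P : Par (DD (M := M + 1) (tyW b))}
    {nb : Finset (DD (M := M + 1) (tyW b)) →
      Finset (DD (M := M + 1) (tyW b) ⊕ ZZ (M := M + 1) (tyW b))}
    (hS : Sadl (wdat (M := M + 1) (tyW b) b) P nb (zsW b w)) : HSad b :=
  ⟨tyW b, P, nb, zsW b w, hS, gtyp_word L hb, gnv_word hb F hw L,
    upos_word hb F hw L hS.inner hS.crit⟩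

end Pool.Agent.Work.MP_b30479_gtS.G2

end

section

/-!
# Domination on the main paths from its parts, sum form of the push-back
-/

namespace Pool.Agent.Work.MP_b30479_gtS.G2

open Finset VOL Filter Topology

namespace SR

variable {M : ℕ} {b : Fin (M + 1) → ℤ} {zs : DD (tyW b) ⊕ ZZ (tyW b) → ℂ}

/-- **The parts of the argument on the main paths**, sum form of the push-back. -/
structure MainPartsS (b : Fin (M + 1) → ℤ) (zs : DD (tyW b) ⊕ ZZ (tyW b) → ℂ) : Prop where
  /-- the ring variables are not at the ends of their paths -/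
  ring : ∀ y, Mx b zs y → ∀ v : ZZ (tyW b), |y (.inr v)| < 1 / 2
  /-- the left rounds -/
  left : ∀ y, Mx b zs y → (∀ h : Fin M, 0 < y (.inl (.inl h))) → ∀ h : Fin M,
    wcl b h ≤ y (.inl (.inl h))
  /-- the right rounds -/
  right : ∀ y, Mx b zs y → (∀ h : Fin M, wcl b h ≤ y (.inl (.inl h))) → ∀ h : Fin M,
    y (.inl (.inl h)) ≤ wXM b h - wcr b h
  /-- uniqueness of the inner variables -/
  mid : ∀ y, Mx b zs y → (∀ h : Fin M, y (.inl (.inl h)) = (zs (.inl (.inl h))).re) →
    ∀ m : {i : Fin (M + 1) // (tyW b i).isMid = true}, y (.inl (.inr m)) = (zs (.inl (.inr m))).re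
  rin : ∀ y, Mx b zs y → (∀ h : Fin M, y (.inl (.inl h)) = (zs (.inl (.inl h))).re) →
    ∀ v : ZZ (tyW b), y (.inr v) = (zs (.inr v)).re
  /-- push-back, sum form -/
  push : ∀ y, Mx b zs y → Flat b y → ∀ h : Fin M, PushS (tyW b) b (wpar b zs) zs y h

/-- the sum form follows from the push-back of both runs -/
theorem MainParts.toS (hC : Crit b zs) (hP : MainParts b zs) : MainPartsS b zs where
  ring := hP.ring
  left := hP.left
  right := hP.right
  mid := hP.mid
  rin := hP.rin
  push y hy hf h := by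
    obtain ⟨h1, h2⟩ := push_hinge h fun i p j A => hP.push y hy hf A
    exact PushS.of_push hC.inn hC.dT h1 h2

/-- **Domination on the main paths.** -/
theorem MainPartsS.dom (hb : ClassW b) (hL : Loc b zs) (hC : Crit b zs) (hP : MainPartsS b zs)
    (z : DD (tyW b) ⊕ ZZ (tyW b) → ℂ)
    (hz : Adm (wdat (tyW b) b) (wpar b zs) zs ∅ ∅ z 0) (hne : z ≠ zs) :
    (wdat (tyW b) b).V z < ((wdat (tyW b) b).T zs).re := by
  refine dom_paths (wpar_hu b zs) hC.inn ?_ hz hne
  intro x hx hx'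
  refine dom_of_pushS (std_wpar b zs) ?_ hL.flatD hL.flatZ hP.ring ?_ ?_ ?_ hx hx'
  · intro h h1 h2
    exact tyW_one b hb h h1 h2
  · intro y hy hpos h
    exact ⟨hP.left y hy hpos h, hP.right y hy (hP.left y hy hpos) h⟩
  · intro y hy hh j
    rcases j with (h | m) | v
    · exact hh h
    · exact hP.mid y hy hh m
    · exact hP.rin y hy hh v
  · intro y hy hf h
    exact hP.push y hy hf h

/-- **The domination.** -/
theorem MainPartsS.all {nb : Finset (DD (tyW b)) → Finset (DD (tyW b) ⊕ ZZ (tyW b))}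
    (hb : ClassW b) (hL : Loc b zs) (hC : Crit b zs) (hP : MainPartsS b zs) (hnb : nb ∅ = ∅)
    (hmode : ∀ z p, Adm (wdat (tyW b) b) (wpar b zs) zs ∅ ∅ z p → p ≠ 0 → ∃ z',
      Adm (wdat (tyW b) b) (wpar b zs) zs ∅ ∅ z' 0 ∧
      (wdat (tyW b) b).V z - 2 * Real.pi * ∑ i, p i < (wdat (tyW b) b).V z')
    (htail : ∀ R : Finset (DD (tyW b)), R ≠ ∅ → ∀ z p,
      Adm (wdat (tyW b) b) (wpar b zs) zs R (nb R) z p →
      ∃ (R' : Finset (DD (tyW b))) (z' : DD (tyW b) ⊕ ZZ (tyW b) → ℂ) (p' : DD (tyW b) → ℝ),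
        R' ⊂ R ∧ Adm (wdat (tyW b) b) (wpar b zs) zs R' (nb R') z' p' ∧
        (wdat (tyW b) b).V z - 2 * Real.pi * ∑ i, p i <
          (wdat (tyW b) b).V z' - 2 * Real.pi * ∑ i, p' i) :
    ∀ R : Finset (DD (tyW b)), (∀ i ∈ R, (wpar b zs).XM i < 1) →
      ∀ (z : DD (tyW b) ⊕ ZZ (tyW b) → ℂ) (p : DD (tyW b) → ℝ),
      Adm (wdat (tyW b) b) (wpar b zs) zs R (nb R) z p → (R = ∅ → p = 0 → z ≠ zs) →
      (wdat (tyW b) b).V z - 2 * Real.pi * ∑ i, p i < ((wdat (tyW b) b).T zs).re :=
  dom_of_parts hnb (hP.dom hb hL hC) (V_eq_re_T _ hC.inn).le hmode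
    fun R _ hR z p hz => htail R hR z p hz

end SR

end Pool.Agent.Work.MP_b30479_gtS.G2

end

section

/-!
# The saddle point data of a word from the parts of the domination: arbitrary heights of the modes

The modes are removed strictly for the empty set of tail variables and with `≤` for the other sets.
-/

namespace Pool.Agent.Work.MP_b30479_gtS.G2

open Finset VOL Filter Topology

/-- the domination from its three parts, the modes removed first for every set of tail variables
(`≤` if the set is not empty) -/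
theorem dom_of_partsQ {D Z K : Type} [Fintype D] [Fintype Z] [Fintype K]
    {S : Dat D Z K} {P : Par D} {nb : Finset D → Finset (D ⊕ Z)} {zs : D ⊕ Z → ℂ} {v : ℝ}
    (hnb : nb ∅ = ∅)
    (hmain : ∀ z, Adm S P zs ∅ ∅ z 0 → z ≠ zs → S.V z < v)
    (hle : S.V zs ≤ v)
    (hmode0 : ∀ z p, Adm S P zs ∅ ∅ z p → p ≠ 0 →
      ∃ z', Adm S P zs ∅ ∅ z' 0 ∧ S.V z - 2 * Real.pi * ∑ i, p i < S.V z')
    (hmode : ∀ R : Finset D, R ≠ ∅ → ∀ z p, Adm S P zs R (nb R) z p → p ≠ 0 →
      ∃ z', Adm S P zs R (nb R) z' 0 ∧ S.V z - 2 * Real.pi * ∑ i, p i ≤ S.V z')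
    (htail : ∀ R : Finset D, R ≠ ∅ → ∀ z, Adm S P zs R (nb R) z 0 →
      ∃ (R' : Finset D) (z' : D ⊕ Z → ℂ) (p' : D → ℝ), R' ⊂ R ∧ Adm S P zs R' (nb R') z' p' ∧
        S.V z < S.V z' - 2 * Real.pi * ∑ i, p' i) :
    ∀ R : Finset D, (∀ i ∈ R, P.XM i < 1) → ∀ (z : D ⊕ Z → ℂ) (p : D → ℝ),
      Adm S P zs R (nb R) z p → (R = ∅ → p = 0 → z ≠ zs) →
      S.V z - 2 * Real.pi * ∑ i, p i < v := by
  refine dom_of_parts hnb hmain hle hmode0 ?_
  intro R _ hR0 z p hz
  by_cases hp : p = 0
  · subst hp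
    obtain ⟨R', z', p', h1, h2, h3⟩ := htail R hR0 z hz
    refine ⟨R', z', p', h1, h2, ?_⟩
    simpa using h3
  · obtain ⟨z1, hz1, hle⟩ := hmode R hR0 z p hz hp
    obtain ⟨R', z', p', h1, h2, h3⟩ := htail R hR0 z1 hz1
    exact ⟨R', z', p', h1, h2, hle.trans_lt h3⟩

namespace SR

/-- the parameters with given heights of the mirrored paths -/
noncomputable def wparQ {M : ℕ} (b : Fin (M + 1) → ℤ) (hu hd : DD (tyW b) → ℝ)
    (zs : DD (tyW b) ⊕ ZZ (tyW b) → ℂ) : Par (DD (tyW b)) :=
  { wpar b zs with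
    hu := hu
    hd := hd }

/-- removal of the mirrored paths, no tails -/
def ModeOk0 {M : ℕ} (b : Fin (M + 1) → ℤ) (zs : DD (tyW b) ⊕ ZZ (tyW b) → ℂ)
    (P : Par (DD (tyW b))) : Prop :=
  ∀ z p, Adm (wdat (tyW b) b) P zs ∅ ∅ z p → p ≠ 0 → ∃ z',
      Adm (wdat (tyW b) b) P zs ∅ ∅ z' 0 ∧
      (wdat (tyW b) b).V z - 2 * Real.pi * ∑ i, p i < (wdat (tyW b) b).V z'

/-- removal of the mirrored paths if there are tails -/
def ModeOkR {M : ℕ} (b : Fin (M + 1) → ℤ) (zs : DD (tyW b) ⊕ ZZ (tyW b) → ℂ)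
    (P : Par (DD (tyW b))) (nb : Finset (DD (tyW b)) → Finset (DD (tyW b) ⊕ ZZ (tyW b))) : Prop :=
  ∀ R : Finset (DD (tyW b)), R ≠ ∅ → ∀ z p,
    Adm (wdat (tyW b) b) P zs R (nb R) z p → p ≠ 0 → ∃ z',
      Adm (wdat (tyW b) b) P zs R (nb R) z' 0 ∧
      (wdat (tyW b) b).V z - 2 * Real.pi * ∑ i, p i ≤ (wdat (tyW b) b).V z'

/-- removal of the tails -/
def TailOkQ {M : ℕ} (b : Fin (M + 1) → ℤ) (zs : DD (tyW b) ⊕ ZZ (tyW b) → ℂ)
    (P : Par (DD (tyW b))) (nb : Finset (DD (tyW b)) → Finset (DD (tyW b) ⊕ ZZ (tyW b))) : Prop :=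
  ∀ R : Finset (DD (tyW b)), R ≠ ∅ → ∀ z,
    Adm (wdat (tyW b) b) P zs R (nb R) z 0 →
      ∃ (R' : Finset (DD (tyW b))) (z' : DD (tyW b) ⊕ ZZ (tyW b) → ℂ) (p' : DD (tyW b) → ℝ),
        R' ⊂ R ∧ Adm (wdat (tyW b) b) P zs R' (nb R') z' p' ∧
        (wdat (tyW b) b).V z < (wdat (tyW b) b).V z' - 2 * Real.pi * ∑ i, p' i

/-- removal of the tails, mirrored paths allowed -/
def TailOkM {M : ℕ} (b : Fin (M + 1) → ℤ) (zs : DD (tyW b) ⊕ ZZ (tyW b) → ℂ)
    (P : Par (DD (tyW b))) (nb : Finset (DD (tyW b)) → Finset (DD (tyW b) ⊕ ZZ (tyW b))) : Prop :=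
  ∀ R : Finset (DD (tyW b)), R ≠ ∅ → ∀ z p,
    Adm (wdat (tyW b) b) P zs R (nb R) z p →
      ∃ (R' : Finset (DD (tyW b))) (z' : DD (tyW b) ⊕ ZZ (tyW b) → ℂ) (p' : DD (tyW b) → ℝ),
        R' ⊂ R ∧ Adm (wdat (tyW b) b) P zs R' (nb R') z' p' ∧
        (wdat (tyW b) b).V z - 2 * Real.pi * ∑ i, p i <
          (wdat (tyW b) b).V z' - 2 * Real.pi * ∑ i, p' i

/-- the parts of the domination -/
structure DomQ {M : ℕ} (b : Fin (M + 1) → ℤ) (zs : DD (tyW b) ⊕ ZZ (tyW b) → ℂ) : Prop where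
  main : MainPartsS b zs
  rest : ∃ (hu hd : DD (tyW b) → ℝ)
    (nb : Finset (DD (tyW b)) → Finset (DD (tyW b) ⊕ ZZ (tyW b))),
    (∀ i, 0 < hu i ∧ 0 < hd i) ∧ nb ∅ = ∅ ∧
    (∀ R : Finset (DD (tyW b)), ∀ i ∈ R, .inl i ∈ nb R) ∧ ModeOk0 b zs (wparQ b hu hd zs) ∧
    ((ModeOkR b zs (wparQ b hu hd zs) nb ∧ TailOkQ b zs (wparQ b hu hd zs) nb) ∨
      TailOkM b zs (wparQ b hu hd zs) nb)

/-- **The saddle point structure of a word** from its location and the parts of the domination. -/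
theorem sadl_of_domQ {M : ℕ} {b : Fin (M + 1) → ℤ} (hM : 1 ≤ M) (hb : ClassW b) (F : RingFacts)
    {w : ℕ → ℂ} (hw : Sol b w) (L : LocOK b w) (hL : Loc b (zsW b w))
    (hD : Crit b (zsW b w) → DomQ b (zsW b w)) :
    ∃ (P : Par (DD (tyW b))) (nb : Finset (DD (tyW b)) → Finset (DD (tyW b) ⊕ ZZ (tyW b))),
      Sadl (wdat (tyW b) b) P nb (zsW b w) := by
  have hpar : ∀ hu hd : DD (tyW b) → ℝ, (∀ i, 0 < hu i ∧ 0 < hd i) → ∀ i,
      0 < (wparQ b hu hd (zsW b w)).XM i ∧
      (wparQ b hu hd (zsW b w)).XM i ≤ 1 ∧ 0 < (wparQ b hu hd (zsW b w)).cl i ∧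
      0 < (wparQ b hu hd (zsW b w)).cr i ∧
      (wparQ b hu hd (zsW b w)).cl i + (wparQ b hu hd (zsW b w)).cr i <
        (wparQ b hu hd (zsW b w)).XM i ∧
      0 < (wparQ b hu hd (zsW b w)).hu i ∧ 0 < (wparQ b hu hd (zsW b w)).hd i := by
    intro hu hd hh i
    have g := par1_good b i
    refine ⟨?_, (g.2.2.2).le, g.1, g.2.1, g.2.2.1, (hh i).1, (hh i).2⟩
    show 0 < (par1 b i).XM
    linarith [g.1, g.2.1, g.2.2.1]
  have hC : Crit b (zsW b w) := by
    by_contra hC
    have hS : Sadl (wdat (tyW b) b) (wparQ b (fun _ => 1) (fun _ => 1) (zsW b w))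
        (fun R => R.image Sum.inl) (zsW b w) :=
      sadl_word hb F hw L hM (hpar _ _ (fun _ => ⟨one_pos, one_pos⟩)) (by simp)
        (fun R i hi => Finset.mem_image_of_mem _ hi) (hL.flatD ·)
        (fun v => ⟨hL.flatZ v, hL.rpos v⟩) (fun h1 h2 _ => absurd ⟨fun k => h1 k, h2⟩ hC)
    exact hC ⟨fun k => hS.inner k, hS.crit⟩
  obtain ⟨h1, hu, hd, nb, hh, h2, h3, h4, h5⟩ := hD hC
  refine ⟨wparQ b hu hd (zsW b w), nb, sadl_word hb F hw L hM (hpar hu hd hh) h2 h3 (hL.flatD ·)
    (fun v => ⟨hL.flatZ v, hL.rpos v⟩) ?_⟩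
  intro _ _ _
  have hmain : ∀ z, Adm (wdat (tyW b) b) (wparQ b hu hd (zsW b w)) (zsW b w) ∅ ∅ z 0 →
      z ≠ zsW b w → (wdat (tyW b) b).V z < ((wdat (tyW b) b).T (zsW b w)).re := by
    intro z hz hne
    exact h1.dom hb hL hC z (Adm.main_congr (P := wparQ b hu hd (zsW b w))
      (P' := wpar b (zsW b w)) (fun i => hh i) rfl rfl rfl hz) hne
  rcases h5 with ⟨h5, h6⟩ | h5
  · exact dom_of_partsQ h2 hmain (V_eq_re_T _ hC.inn).le h4 h5 h6
  · exact dom_of_parts h2 hmain (V_eq_re_T _ hC.inn).le h4 fun R _ hR z p hz => h5 R hR z p hz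

/-- **The saddle point data of a word.** -/
theorem hsad_of_domQ {M : ℕ} {b : Fin (M + 2) → ℤ} (hb : ClassW (M := M + 1) b) (F : RingFacts)
    {w : ℕ → ℂ} (hw : Sol (M := M + 1) b w) (L : LocOK (M := M + 1) b w)
    (hL : Loc (M := M + 1) b (zsW (M := M + 1) b w))
    (hD : Crit (M := M + 1) b (zsW (M := M + 1) b w) →
      DomQ (M := M + 1) b (zsW (M := M + 1) b w)) : HSad b := by
  obtain ⟨P, nb, hS⟩ := sadl_of_domQ (M := M + 1) (by omega) hb F hw L hL hD
  exact hsad_of hb F hw L hS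

end SR

end Pool.Agent.Work.MP_b30479_gtS.G2

end

section

/-!
# Mirrored paths: maximisers over all paths, and star moves

The mirrored path of a variable which is on the side of the saddle point has the height of the main
path; the ones on the other side have the heights `mhs`.  `MM`: a maximiser of the penalised value over
all paths.  `SideG`: what is gained on one side of a hinge if the hinge is moved (other variables of
this side may respond); `MM.star`: at a maximiser the sum of the gains of both sides and of the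
penalty is not positive.
-/

namespace Pool.Agent.Work.MP_b30479_gtS.G2

open Finset VOL Filter Topology

namespace SR

variable {M : ℕ} {b : Fin (M + 1) → ℤ} {zs : DD (tyW b) ⊕ ZZ (tyW b) → ℂ}
variable {R : Finset (DD (tyW b))} {nb : Finset (DD (tyW b) ⊕ ZZ (tyW b))}
variable {z : DD (tyW b) ⊕ ZZ (tyW b) → ℂ} {p : DD (tyW b) → ℝ}
variable {h h' : Fin M} {i j j' : Fin (M + 1)} {s : Fin 3}

/-! ### heights -/

/-- height of the mirrored path of the hinge `h` which is the lower one in the frame of the region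
with the hinge in the slot `s` (`s = 2`: the left region, `s = 0`: the right one), on the side
opposite to the saddle point (no ring involved) -/
noncomputable def mhs (b : Fin (M + 1) → ℤ) (h : Fin M) (s : Fin 3) : ℝ :=
  if clsW b h.castSucc = .one ∧ clsW b h.succ = .three then 1 / 2 else
    if clsW b h.castSucc = .two ∧ clsW b h.succ = .three ∧ s = 2 then 3 / 10 else 16 / 100

/-- heights of the upper mirrored paths on the side opposite to the saddle point -/
noncomputable def mtu (b : Fin (M + 1) → ℤ) : DD (tyW b) → ℝ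
  | .inl h => if 0 < b h.castSucc then mhs b h 0 else mhs b h 2
  | .inr _ => 16 / 100

/-- heights of the lower mirrored paths on the side opposite to the saddle point -/
noncomputable def mtd (b : Fin (M + 1) → ℤ) : DD (tyW b) → ℝ
  | .inl h => if 0 < b h.castSucc then mhs b h 2 else mhs b h 0
  | .inr _ => 16 / 100

/-- height of the upper mirrored path of a hinge of a ring, in the frame of the other region -/
noncomputable def rnear (T : ℝ) : ℝ := if 0 < T then T else 16 / 100

/-- height of the lower mirrored path of a hinge of a ring, in the frame of the other region -/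
noncomputable def rfar (T : ℝ) : ℝ := if T < 0 then -T else 10000

/-- heights of the upper mirrored paths of the hinges of rings -/
noncomputable def rhu (b : Fin (M + 1) → ℤ) (zs : DD (tyW b) ⊕ ZZ (tyW b) → ℂ) (h : Fin M) : ℝ :=
  if clsW b h.castSucc = .ring then
    (if clsW b h.succ = .ring then
      (if 0 < (zs (.inl (.inl h))).im then (zs (.inl (.inl h))).im else 100)
    else (if 0 < b h.succ then rnear (ofs (b h.succ) (zs (.inl (.inl h))).im)
      else rfar (ofs (b h.succ) (zs (.inl (.inl h))).im)))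
  else (if 0 < b h.castSucc then rnear (ofs (b h.castSucc) (zs (.inl (.inl h))).im)
    else rfar (ofs (b h.castSucc) (zs (.inl (.inl h))).im))

/-- heights of the lower mirrored paths of the hinges of rings -/
noncomputable def rhd (b : Fin (M + 1) → ℤ) (zs : DD (tyW b) ⊕ ZZ (tyW b) → ℂ) (h : Fin M) : ℝ :=
  if clsW b h.castSucc = .ring then
    (if clsW b h.succ = .ring then
      (if (zs (.inl (.inl h))).im < 0 then -(zs (.inl (.inl h))).im else 100)
    else (if 0 < b h.succ then rfar (ofs (b h.succ) (zs (.inl (.inl h))).im)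
      else rnear (ofs (b h.succ) (zs (.inl (.inl h))).im)))
  else (if 0 < b h.castSucc then rfar (ofs (b h.castSucc) (zs (.inl (.inl h))).im)
    else rnear (ofs (b h.castSucc) (zs (.inl (.inl h))).im))

/-- hinges of rings -/
def RH1 (b : Fin (M + 1) → ℤ) : DD (tyW b) → Prop
  | .inl h => clsW b h.castSucc = .ring ∨ clsW b h.succ = .ring
  | .inr _ => False

open Classical in
/-- heights of the upper mirrored paths -/
noncomputable def mhu (b : Fin (M + 1) → ℤ) (zs : DD (tyW b) ⊕ ZZ (tyW b) → ℂ) :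
    DD (tyW b) → ℝ
  | .inl h => if clsW b h.castSucc = .ring ∨ clsW b h.succ = .ring then rhu b zs h
      else if 0 < (zs (.inl (.inl h))).im then (zs (.inl (.inl h))).im else mtu b (.inl h)
  | .inr m => if 0 < (zs (.inl (.inr m))).im then (zs (.inl (.inr m))).im else mtu b (.inr m)

open Classical in
/-- heights of the lower mirrored paths -/
noncomputable def mhd (b : Fin (M + 1) → ℤ) (zs : DD (tyW b) ⊕ ZZ (tyW b) → ℂ) :
    DD (tyW b) → ℝ
  | .inl h => if clsW b h.castSucc = .ring ∨ clsW b h.succ = .ring then rhd b zs h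
      else if (zs (.inl (.inl h))).im < 0 then -(zs (.inl (.inl h))).im else mtd b (.inl h)
  | .inr m => if (zs (.inl (.inr m))).im < 0 then -(zs (.inl (.inr m))).im else mtd b (.inr m)

/-- the parameters of the word with mirrored paths -/
noncomputable def wparM (b : Fin (M + 1) → ℤ) (zs : DD (tyW b) ⊕ ZZ (tyW b) → ℂ) :
    Par (DD (tyW b)) := wparQ b (mhu b zs) (mhd b zs) zs

theorem mhs_pos (h : Fin M) (s : Fin 3) : 0 < mhs b h s := by
  unfold mhs
  split_ifs <;> norm_num

theorem mtu_pos (i : DD (tyW b)) : 0 < mtu b i := by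
  rcases i with h | m
  · simp only [mtu]
    split_ifs <;> exact mhs_pos _ _
  · simp only [mtu]
    norm_num

theorem mtd_pos (i : DD (tyW b)) : 0 < mtd b i := by
  rcases i with h | m
  · simp only [mtd]
    split_ifs <;> exact mhs_pos _ _
  · simp only [mtd]
    norm_num

theorem rnear_pos (T : ℝ) : 0 < rnear T := by
  unfold rnear
  split_ifs with h
  · exact h
  · norm_num

theorem rfar_pos (T : ℝ) : 0 < rfar T := by
  unfold rfar
  split_ifs with h
  · linarith only [h]
  · norm_num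

theorem rh_pos (h : Fin M) : 0 < rhu b zs h ∧ 0 < rhd b zs h := by
  unfold rhu rhd
  constructor
  · split_ifs <;> first | assumption | exact rnear_pos _ | exact rfar_pos _ | norm_num
  · split_ifs <;> first | linarith | exact rnear_pos _ | exact rfar_pos _ | norm_num

theorem mh_pos (i : DD (tyW b)) : 0 < mhu b zs i ∧ 0 < mhd b zs i := by
  rcases i with h | m
  · have h1 := rh_pos (b := b) (zs := zs) h
    have h2 := mtu_pos (b := b) (.inl h)
    have h3 := mtd_pos (b := b) (.inl h)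
    constructor
    · simp only [mhu]
      split_ifs <;> first | exact h1.1 | exact h2 | assumption
    · simp only [mhd]
      split_ifs <;> first | exact h1.2 | exact h3 | linarith
  · have h2 := mtu_pos (b := b) (.inr m)
    have h3 := mtd_pos (b := b) (.inr m)
    constructor
    · simp only [mhu]
      split_ifs <;> first | exact h2 | assumption
    · simp only [mhd]
      split_ifs <;> first | exact h3 | linarith

theorem wparM_XM (i : DD (tyW b)) : (wparM b zs).XM i = (wpar b zs).XM i := rfl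
theorem wparM_cl (i : DD (tyW b)) : (wparM b zs).cl i = (wpar b zs).cl i := rfl
theorem wparM_cr (i : DD (tyW b)) : (wparM b zs).cr i = (wpar b zs).cr i := rfl

/-! ### maximisers -/

/-- value with penalties -/
noncomputable def Ph (b : Fin (M + 1) → ℤ) (z : DD (tyW b) ⊕ ZZ (tyW b) → ℂ)
    (p : DD (tyW b) → ℝ) : ℝ := (wdat (tyW b) b).V z - 2 * Real.pi * ∑ i, p i

/-- **A maximiser of the penalised value over all paths** (main paths and mirrored paths; tails of
the variables of `R`, variables of `nb` real). -/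
structure MM (b : Fin (M + 1) → ℤ) (zs : DD (tyW b) ⊕ ZZ (tyW b) → ℂ) (R : Finset (DD (tyW b)))
    (nb : Finset (DD (tyW b) ⊕ ZZ (tyW b))) (z : DD (tyW b) ⊕ ZZ (tyW b) → ℂ)
    (p : DD (tyW b) → ℝ) : Prop where
  adm : Adm (wdat (tyW b) b) (wparM b zs) zs R nb z p
  max : ∀ z' p', Adm (wdat (tyW b) b) (wparM b zs) zs R nb z' p' → Ph b z' p' ≤ Ph b z p

theorem exists_MM (hnb : ∀ i ∈ R, Sum.inl i ∈ nb)
    (h : Adm (wdat (tyW b) b) (wparM b zs) zs R nb z p) :
    ∃ z' p', MM b zs R nb z' p' ∧ Ph b z p ≤ Ph b z' p' := by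
  have hX : ∀ i, 0 ≤ (wparM b zs).XM i ∧ (wparM b zs).XM i ≤ 1 := by
    intro i
    have g := par1_good b i
    refine ⟨?_, (g.2.2.2).le⟩
    show 0 ≤ (par1 b i).XM
    linarith only [g, g.1, g.2.1, g.2.2.1]
  obtain ⟨q, hq, hm⟩ := (isCompact_AdmSet (wdat (tyW b) b) (wparM b zs) hX zs R nb
    hnb).exists_isMaxOn ⟨(z, p), h⟩ (continuous_pen (wdat (tyW b) b)).continuousOn
  exact ⟨q.1, q.2, ⟨hq, fun z' p' h' => hm (a := (z', p')) h'⟩, hm (a := (z, p)) h⟩

/-- the real variables: if a region is touched by a tail then all its variables are real -/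
def NbOk (b : Fin (M + 1) → ℤ) (R : Finset (DD (tyW b)))
    (nb : Finset (DD (tyW b) ⊕ ZZ (tyW b))) : Prop :=
  (∀ i ∈ R, Sum.inl i ∈ nb) ∧
    ∀ d ∈ R, ∀ (m : Fin (M + 1)) (q : Fin 3), cf (tyW b) m q (.inl d) ≠ 0 →
      ∀ v q', cf (tyW b) m q' v ≠ 0 → v ∈ nb

theorem NbOk.empty : NbOk b ∅ ∅ := by
  refine ⟨?_, ?_⟩ <;> simp

/-- **No mirrored paths at the maximisers**: the removal of the mirrored paths. -/
theorem modeOk0_of (h : ∀ z p, MM b zs ∅ ∅ z p → p = 0) : ModeOk0 b zs (wparM b zs) := by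
  intro z p hz hp
  obtain ⟨z', p', hM, hle⟩ := exists_MM (R := ∅) (nb := ∅) (by simp) hz
  have h0 := h z' p' hM
  subst h0
  have h1 : Ph b z p ≠ Ph b z' 0 := by
    intro he
    exact hp (h z p ⟨hz, fun z1 p1 h1 => (hM.max z1 p1 h1).trans_eq he.symm⟩)
  refine ⟨z', hM.adm, ?_⟩
  have h2 := lt_of_le_of_ne hle h1
  unfold Ph at h2
  simpa using h2

theorem modeOkR_of {nb : Finset (DD (tyW b)) → Finset (DD (tyW b) ⊕ ZZ (tyW b))}
    (hnb : ∀ R, NbOk b R (nb R)) (h : ∀ R z p, MM b zs R (nb R) z p → p = 0) :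
    ModeOkR b zs (wparM b zs) nb := by
  intro R _ z p hz _
  obtain ⟨z', p', hM, hle⟩ := exists_MM (hnb R).1 hz
  have h0 := h R z' p' hM
  subst h0
  refine ⟨z', hM.adm, ?_⟩
  unfold Ph at hle
  simpa using hle

/-! ### moves -/

/-- a variable may take the position `ζ` with the penalty `π'` -/
def OnP (b : Fin (M + 1) → ℤ) (zs : DD (tyW b) ⊕ ZZ (tyW b) → ℂ) :
    DD (tyW b) ⊕ ZZ (tyW b) → ℂ → ℝ → Prop
  | .inl i, ζ, q => (wparM b zs).On (zs (.inl i)).im i ζ q
  | .inr v, ζ, _ => ∃ σ : ℝ, |σ| ≤ 1 / 2 ∧ ζ = LT.zt (zs (.inr v)).im σ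

/-- extension of penalties by zero -/
def pe (p : DD (tyW b) → ℝ) : DD (tyW b) ⊕ ZZ (tyW b) → ℝ
  | .inl i => p i
  | .inr _ => 0

/-- a point with some variables which are not real moved on their paths -/
structure Mv (b : Fin (M + 1) → ℤ) (zs : DD (tyW b) ⊕ ZZ (tyW b) → ℂ)
    (nb : Finset (DD (tyW b) ⊕ ZZ (tyW b))) (z : DD (tyW b) ⊕ ZZ (tyW b) → ℂ)
    (p : DD (tyW b) → ℝ) (z' : DD (tyW b) ⊕ ZZ (tyW b) → ℂ) (p' : DD (tyW b) → ℝ) : Prop where
  out : ∀ v, (z' v ≠ z v ∨ pe p' v ≠ pe p v) → v ∉ nb ∧ OnP b zs v (z' v) (pe p' v)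

theorem Mv.adm {z' : DD (tyW b) ⊕ ZZ (tyW b) → ℂ} {p' : DD (tyW b) → ℝ}
    (hR : ∀ i ∈ R, Sum.inl i ∈ nb) (h : Adm (wdat (tyW b) b) (wparM b zs) zs R nb z p)
    (hm : Mv b zs nb z p z' p') : Adm (wdat (tyW b) b) (wparM b zs) zs R nb z' p' := by
  have key : ∀ v ∈ nb, z' v = z v ∧ pe p' v = pe p v := by
    intro v hv
    by_contra hc
    rw [not_and_or] at hc
    exact (hm.out v hc).1 hv
  refine ⟨?_, ?_, ?_, ?_, ?_, ?_⟩
  · intro i hi
    obtain ⟨e1, e2⟩ := key _ (hR i hi)
    have e3 : p' i = p i := e2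
    rw [e1, e3]
    exact h.tail i hi
  · intro i hi hn
    obtain ⟨e1, e2⟩ := key _ hn
    have e3 : p' i = p i := e2
    rw [e1, e3]
    exact h.reD i hi hn
  · intro v hv
    rw [(key _ hv).1]
    exact h.reZ v hv
  · intro i hi
    by_cases hc : z' (.inl i) ≠ z (.inl i) ∨ pe p' (.inl i) ≠ pe p (.inl i)
    · exact (hm.out _ hc).2
    · rw [not_or, not_not, not_not] at hc
      have e3 : p' i = p i := hc.2
      rw [hc.1, e3]
      exact h.onD i hi
  · intro v hv
    by_cases hc : z' (.inr v) ≠ z (.inr v) ∨ pe p' (.inr v) ≠ pe p (.inr v)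
    · exact (hm.out _ hc).2
    · rw [not_or, not_not, not_not] at hc
      rw [hc.1]
      exact h.onZ v hv
  · intro k h1 h2
    have : (wdat (tyW b) b).form k z' = (wdat (tyW b) b).form k z := by
      unfold Dat.form
      congr 1
      refine Finset.sum_congr rfl fun v _ => ?_
      by_cases h0 : (wdat (tyW b) b).A k v = 0
      · rw [h0]; simp
      · rcases v with i | v
        · rw [(key _ (h2 i h0)).1]
        · exact absurd (h1 v) h0
    rw [this]
    exact h.wall k h1 h2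

/-- value step at a maximiser -/
theorem MM.step {z' : DD (tyW b) ⊕ ZZ (tyW b) → ℂ} {p' : DD (tyW b) → ℝ} (hb : ClassW b)
    (hR : ∀ i ∈ R, Sum.inl i ∈ nb) (hM : MM b zs R nb z p)
    (hm : Mv b zs nb z p z' p') (S : Finset (Fin (M + 1)))
    (hz : ∀ i, i ∉ S → ∀ j, z j ≠ z' j → ∀ q, cf (tyW b) i q j = 0) :
    ∑ i ∈ S, (OV b i (Ow b z' i) - OV b i (Ow b z i)) ≤ 2 * Real.pi * ∑ i, (p' i - p i) := by
  rw [← V_move hb S hz, Finset.sum_sub_distrib]
  have h1 := hM.max z' p' (hm.adm hR hM.adm)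
  unfold Ph at h1
  linarith only [h1]

/-! ### sides -/

/-- the regions on the side of the region `i` of the hinge `h` -/
def sideR (h : Fin M) (i : Fin (M + 1)) : Finset (Fin (M + 1)) :=
  if i ≤ h.castSucc then univ.filter (· ≤ h.castSucc) else univ.filter (h.castSucc < ·)

open Classical in
/-- the sum of the penalties except that of the hinge `h` -/
noncomputable def pex (h : Fin M) (p : DD (tyW b) → ℝ) : ℝ := ∑ i ∈ univ.erase (Sum.inl h), p i

/-- **Gain on one side.**  If the hinge `h` is moved to `u` (main path) then the variables on the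
side of the region `i` can be moved such that the sum of the values of the regions of this side
minus the penalties grows by at least `g`. -/
def SideG (b : Fin (M + 1) → ℤ) (zs : DD (tyW b) ⊕ ZZ (tyW b) → ℂ)
    (nb : Finset (DD (tyW b) ⊕ ZZ (tyW b))) (z : DD (tyW b) ⊕ ZZ (tyW b) → ℂ)
    (p : DD (tyW b) → ℝ) (h : Fin M) (i : Fin (M + 1)) (u : ℂ) (g : ℝ) : Prop :=
  ∃ (z' : DD (tyW b) ⊕ ZZ (tyW b) → ℂ) (p' : DD (tyW b) → ℝ), z' (.inl (.inl h)) = u ∧
    (∀ v, v ≠ .inl (.inl h) → (z' v ≠ z v ∨ pe p' v ≠ pe p v) →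
      v ∉ nb ∧ OnP b zs v (z' v) (pe p' v) ∧ ∀ m, m ∉ sideR h i → ∀ q, cf (tyW b) m q v = 0) ∧
    g ≤ ∑ m ∈ sideR h i, (OV b m (Ow b z' m) - OV b m (Ow b z m)) -
      2 * Real.pi * (pex h p' - pex h p)

theorem Ow_congr {z z' : DD (tyW b) ⊕ ZZ (tyW b) → ℂ} (m : Fin (M + 1))
    (hz : ∀ v, z v ≠ z' v → ∀ q, cf (tyW b) m q v = 0) : Ow b z m = Ow b z' m := by
  unfold Ow
  rw [xx_congr' m hz]

/-! ### the star move -/

theorem cf_hinge_ne {m : Fin (M + 1)} {q : Fin 3} (h0 : cf (tyW b) m q (.inl (.inl h)) ≠ 0) :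
    (m = h.castSucc ∧ q = 2) ∨ (m = h.succ ∧ q = 0) := by
  simp only [cf] at h0
  split_ifs at h0 with h1
  · rcases h1 with ⟨h2, h3⟩ | ⟨h2, h3⟩
    · exact Or.inr ⟨h3.symm, h2⟩
    · exact Or.inl ⟨h3.symm, h2⟩
  · exact absurd rfl h0

theorem cf_hinge_zero {m : Fin (M + 1)} (h1 : m ≠ h.castSucc) (h2 : m ≠ h.succ) (q : Fin 3) :
    cf (tyW b) m q (.inl (.inl h)) = 0 := by
  by_contra h0
  rcases cf_hinge_ne h0 with h3 | h3
  · exact h1 h3.1
  · exact h2 h3.1

theorem exists_cf (v : DD (tyW b) ⊕ ZZ (tyW b)) : ∃ m q, cf (tyW b) m q v ≠ 0 := by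
  rcases v with (h | m) | v
  · exact ⟨h.castSucc, 2, by simp [cf]⟩
  · exact ⟨m.1, 1, by simp [cf]⟩
  · exact ⟨v.1, 1, by simp [cf]⟩

theorem sideR_l (h : Fin M) : sideR h h.castSucc = univ.filter (· ≤ h.castSucc) := by
  unfold sideR
  rw [if_pos le_rfl]

theorem sideR_r (h : Fin M) : sideR h h.succ = univ.filter (h.castSucc < ·) := by
  unfold sideR
  rw [if_neg (not_le.2 Fin.castSucc_lt_succ)]

theorem Adj.mem_side (A : Adj h i s j) : i ∈ sideR h i ∧ j ∉ sideR h i := by
  cases A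
  · rw [sideR_l]
    simp
  · rw [sideR_r]
    simp

/-- **The star move.** -/
theorem MM.star0 (hb : ClassW b) (hR : ∀ i ∈ R, Sum.inl i ∈ nb) (hM : MM b zs R nb z p)
    (hn : Sum.inl (Sum.inl h) ∉ nb) {u : ℂ} (hu : OnP b zs (.inl (.inl h)) u 0) {g1 g2 : ℝ}
    (h1 : SideG b zs nb z p h h.castSucc u g1) (h2 : SideG b zs nb z p h h.succ u g2) :
    g1 + g2 + 2 * Real.pi * p (.inl h) ≤ 0 := by
  classical
  obtain ⟨z1, p1, e1, c1, k1⟩ := h1
  obtain ⟨z2, p2, e2, c2, k2⟩ := h2
  set C1 : DD (tyW b) ⊕ ZZ (tyW b) → Prop := fun v => z1 v ≠ z v ∨ pe p1 v ≠ pe p v with hC1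
  set C2 : DD (tyW b) ⊕ ZZ (tyW b) → Prop := fun v => z2 v ≠ z v ∨ pe p2 v ≠ pe p v with hC2
  set z3 : DD (tyW b) ⊕ ZZ (tyW b) → ℂ := fun v => if v = .inl (.inl h) then u else
    if C1 v then z1 v else z2 v with hz3
  set p3 : DD (tyW b) → ℝ := fun i => if i = .inl h then 0 else
    if C1 (.inl i) then p1 i else p2 i with hp3
  have n1 : ∀ v, ¬ C1 v → z1 v = z v ∧ pe p1 v = pe p v := by
    intro v hv
    rw [hC1] at hv
    simp only [not_or, not_not] at hv
    exact hv
  have n2 : ∀ v, ¬ C2 v → z2 v = z v ∧ pe p2 v = pe p v := by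
    intro v hv
    rw [hC2] at hv
    simp only [not_or, not_not] at hv
    exact hv
  have hpe : ∀ v, pe p3 v = if v = .inl (.inl h) then 0 else if C1 v then pe p1 v else pe p2 v := by
    intro v
    rcases v with i | v
    · have e0 : pe p3 (.inl i) = if i = Sum.inl h then (0 : ℝ) else if C1 (.inl i) then p1 i else p2 i := rfl
      rw [e0]
      by_cases hi : i = Sum.inl h
      · rw [if_pos hi, if_pos (by rw [hi])]
      · have hi' : ¬ (Sum.inl i : DD (tyW b) ⊕ ZZ (tyW b)) = .inl (.inl h) := by simpa using hi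
        rw [if_neg hi, if_neg hi']
        rfl
    · show (0 : ℝ) = _
      rw [if_neg (by simp)]
      split_ifs <;> rfl
  have hmv : Mv b zs nb z p z3 p3 := by
    refine ⟨fun v hv => ?_⟩
    by_cases hvh : v = .inl (.inl h)
    · subst hvh
      refine ⟨hn, ?_⟩
      rw [hpe, if_pos rfl, hz3]
      simp only [if_true]
      exact hu
    · rw [hpe, if_neg hvh] at hv ⊢
      have hzv : z3 v = if C1 v then z1 v else z2 v := by
        rw [hz3]
        simp only [if_neg hvh]
      rw [hzv] at hv ⊢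
      by_cases hc : C1 v
      · rw [if_pos hc, if_pos hc]
        obtain ⟨a1, a2, -⟩ := c1 v hvh hc
        exact ⟨a1, a2⟩
      · rw [if_neg hc, if_neg hc] at hv ⊢
        obtain ⟨a1, a2, -⟩ := c2 v hvh hv
        exact ⟨a1, a2⟩
  have hL : ∀ m ∈ sideR h h.castSucc, Ow b z3 m = Ow b z1 m := by
    intro m hm
    refine Ow_congr m fun v hv q => ?_
    have hvh : v ≠ .inl (.inl h) := by
      rintro rfl
      apply hv
      rw [hz3, e1]
      simp
    have hzv : z3 v = if C1 v then z1 v else z2 v := by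
      rw [hz3]
      simp only [if_neg hvh]
    by_cases hc : C1 v
    · exact absurd (by rw [hzv, if_pos hc]) hv
    · have hc2 : C2 v := by
        left
        intro h0
        apply hv
        rw [hzv, if_neg hc, h0, (n1 v hc).1]
      refine (c2 v hvh hc2).2.2 m ?_ q
      rw [sideR_l] at hm
      rw [sideR_r]
      simpa using hm
  have hRr : ∀ m ∈ sideR h h.succ, Ow b z3 m = Ow b z2 m := by
    intro m hm
    refine Ow_congr m fun v hv q => ?_
    have hvh : v ≠ .inl (.inl h) := by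
      rintro rfl
      apply hv
      rw [hz3, e2]
      simp
    have hzv : z3 v = if C1 v then z1 v else z2 v := by
      rw [hz3]
      simp only [if_neg hvh]
    by_cases hc : C1 v
    · refine (c1 v hvh hc).2.2 m ?_ q
      rw [sideR_r] at hm
      rw [sideR_l]
      simpa using hm
    · exact absurd (by rw [hzv, if_neg hc]) hv
  have hstep := hM.max z3 p3 (hmv.adm hR hM.adm)
  unfold Ph at hstep
  rw [V_eq_OV hb, V_eq_OV hb] at hstep
  have hsplit : ∀ f : Fin (M + 1) → ℝ, ∑ m, f m =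
      ∑ m ∈ sideR h h.castSucc, f m + ∑ m ∈ sideR h h.succ, f m := by
    intro f
    rw [sideR_l, sideR_r, ← Finset.sum_filter_add_sum_filter_not univ (· ≤ h.castSucc)]
    congr 2
    ext m
    simp
  rw [hsplit, hsplit fun m => OV b m (Ow b z m)] at hstep
  have s1 : ∑ m ∈ sideR h h.castSucc, OV b m (Ow b z3 m) =
      ∑ m ∈ sideR h h.castSucc, OV b m (Ow b z1 m) :=
    Finset.sum_congr rfl fun m hm => by rw [hL m hm]
  have s2 : ∑ m ∈ sideR h h.succ, OV b m (Ow b z3 m) =
      ∑ m ∈ sideR h h.succ, OV b m (Ow b z2 m) :=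
    Finset.sum_congr rfl fun m hm => by rw [hRr m hm]
  rw [s1, s2] at hstep
  rw [Finset.sum_sub_distrib] at k1 k2
  -- penalties
  have hp : ∀ i, i ≠ Sum.inl h → p3 i - p i = (p1 i - p i) + (p2 i - p i) := by
    intro i hi
    have hvh : (Sum.inl i : DD (tyW b) ⊕ ZZ (tyW b)) ≠ .inl (.inl h) := by simpa using hi
    have h3 : p3 i = if C1 (.inl i) then p1 i else p2 i := by
      rw [hp3]
      simp only [if_neg hi]
    rw [h3]
    by_cases hc : C1 (.inl i)
    · rw [if_pos hc]
      have hc2 : ¬ C2 (.inl i) := by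
        intro hc2
        obtain ⟨m, q, hmq⟩ := exists_cf (b := b) (Sum.inl i)
        apply hmq
        by_cases hm : m ∈ sideR h h.castSucc
        · refine (c2 _ hvh hc2).2.2 m ?_ q
          rw [sideR_l] at hm
          rw [sideR_r]
          simpa using hm
        · exact (c1 _ hvh hc).2.2 m hm q
      have h4 : p2 i = p i := (n2 _ hc2).2
      rw [h4]
      ring
    · rw [if_neg hc]
      have h4 : p1 i = p i := (n1 _ hc).2
      rw [h4]
      ring
  have hpsum : ∀ q : DD (tyW b) → ℝ, ∑ i, q i = q (.inl h) + pex h q := by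
    intro q
    unfold pex
    exact (Finset.add_sum_erase univ q (Finset.mem_univ _)).symm
  have hpx : pex h p3 - pex h p = (pex h p1 - pex h p) + (pex h p2 - pex h p) := by
    unfold pex
    rw [← Finset.sum_sub_distrib, ← Finset.sum_sub_distrib, ← Finset.sum_sub_distrib,
      ← Finset.sum_add_distrib]
    exact Finset.sum_congr rfl fun i hi => hp i (Finset.ne_of_mem_erase hi)
  have h30 : p3 (.inl h) = 0 := by
    rw [hp3]
    simp
  rw [hpsum p3, hpsum p, h30] at hstep
  have e5 : pex h p3 = pex h p + ((pex h p1 - pex h p) + (pex h p2 - pex h p)) := by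
    rw [← hpx]; ring
  rw [e5] at hstep
  nlinarith only [k1, k2, hstep, k1, k2, hstep]

/-- **The star move**, left and right at once. -/
theorem MM.star (hb : ClassW b) (hR : ∀ i ∈ R, Sum.inl i ∈ nb) (hM : MM b zs R nb z p)
    (A : Adj h i s j) (hn : Sum.inl (Sum.inl h) ∉ nb) {u : ℂ}
    (hu : OnP b zs (.inl (.inl h)) u 0) {g1 g2 : ℝ}
    (h1 : SideG b zs nb z p h i u g1) (h2 : SideG b zs nb z p h j u g2) :
    g1 + g2 + 2 * Real.pi * p (.inl h) ≤ 0 := by
  cases A
  · exact hM.star0 hb hR hn hu h1 h2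
  · linarith only [hb, hR, hM, hn, hu, h2, h1, hM.star0 hb hR hn hu h2 h1]

theorem SideG.mono {u : ℂ} {g g' : ℝ} (hg : SideG b zs nb z p h i u g) (h' : g' ≤ g) :
    SideG b zs nb z p h i u g' := by
  obtain ⟨z1, p1, e1, c1, k1⟩ := hg
  exact ⟨z1, p1, e1, c1, h'.trans k1⟩

/-! ### gains -/

theorem sideR_hinge (A : Adj h i s j) {m : Fin (M + 1)} (hm : m ∈ sideR h i) (hmi : m ≠ i)
    (q : Fin 3) : cf (tyW b) m q (.inl (.inl h)) = 0 := by
  cases A
  · refine cf_hinge_zero hmi ?_ q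
    rintro rfl
    rw [sideR_l] at hm
    simp at hm
  · refine cf_hinge_zero ?_ hmi q
    rintro rfl
    rw [sideR_r] at hm
    simp at hm

theorem Ow_upd_hinge (A : Adj h i s j) (z : DD (tyW b) ⊕ ZZ (tyW b) → ℂ) (u : ℂ) :
    Ow b (Function.update z (.inl (.inl h)) u) i = Function.update (Ow b z i) s (ofr (b i) u) := by
  unfold Ow
  cases A
  · rw [xx_upd_hinge_left, own_update_two]
  · rw [xx_upd_hinge_right, own_update_zero]

open Classical in
/-- **The other variables are kept.** -/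
theorem SideG.keep (A : Adj h i s j) (u : ℂ) : SideG b zs nb z p h i u
    (OV b i (Function.update (Ow b z i) s (ofr (b i) u)) - OV b i (Ow b z i)) := by
  refine ⟨Function.update z (.inl (.inl h)) u, p, Function.update_self .., ?_, ?_⟩
  · intro v hv hc
    rw [Function.update_of_ne hv] at hc
    simp at hc
  · rw [sub_self, mul_zero, sub_zero, Finset.sum_eq_single i]
    · rw [Ow_upd_hinge A]
    · intro m hm hmi
      rw [Ow_congr (z := z) (z' := Function.update z (.inl (.inl h)) u) m]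
      · ring
      · intro v hv q
        by_cases hvh : v = .inl (.inl h)
        · subst hvh
          exact sideR_hinge A hm hmi q
        · exact absurd (by rw [Function.update_of_ne hvh]) hv
    · intro h0
      exact absurd A.mem_side.1 h0

/-- penalties with a new value at one variable -/
noncomputable def pup (p : DD (tyW b) → ℝ) (v : DD (tyW b) ⊕ ZZ (tyW b)) (q : ℝ) :
    DD (tyW b) → ℝ :=
  match v with
  | .inl i => Function.update p i q
  | .inr _ => p

/-- the penalty of a variable, `0` for ring variables -/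
def qe (v : DD (tyW b) ⊕ ZZ (tyW b)) (q : ℝ) : ℝ :=
  match v with
  | .inl _ => q
  | .inr _ => 0

theorem pe_pup (p : DD (tyW b) → ℝ) (v w : DD (tyW b) ⊕ ZZ (tyW b)) (q : ℝ) :
    pe (pup p v q) w = if w = v then qe v q else pe p w := by
  rcases v with i | v
  · rcases w with i' | w
    · show Function.update p i q i' = _
      by_cases hi : i' = i
      · subst hi
        simp [qe]
      · rw [Function.update_of_ne hi, if_neg (by simpa using hi)]
        rfl
    · show (0 : ℝ) = _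
      rw [if_neg (by simp)]
      rfl
  · show pe p w = _
    by_cases hw : w = .inr v
    · subst hw
      simp [qe, pe]
    · rw [if_neg hw]

open Classical in
theorem pex_pup (h : Fin M) (p : DD (tyW b) → ℝ) {v : DD (tyW b) ⊕ ZZ (tyW b)}
    (hv : v ≠ .inl (.inl h)) (q : ℝ) : pex h (pup p v q) - pex h p = qe v q - pe p v := by
  rcases v with i | v
  · have hi : i ≠ Sum.inl h := by simpa using hv
    have hm : i ∈ univ.erase (Sum.inl h : DD (tyW b)) := Finset.mem_erase.2 ⟨hi, Finset.mem_univ _⟩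
    unfold pex
    show ∑ k ∈ univ.erase (Sum.inl h), Function.update p i q k - _ = q - p i
    rw [← Finset.sum_sub_distrib, Finset.sum_eq_single i]
    · rw [Function.update_self]
    · intro k _ hk
      rw [Function.update_of_ne hk, sub_self]
    · intro h0
      exact absurd hm h0
  · show pex h p - pex h p = 0 - 0
    ring

open Classical in
/-- **One variable of the side responds.** -/
theorem SideG.resp (A : Adj h i s j) (u ζ : ℂ) (q : ℝ) {v0 : DD (tyW b) ⊕ ZZ (tyW b)}
    (hv : v0 ≠ .inl (.inl h)) (hn : v0 ∉ nb) (ho : OnP b zs v0 ζ (qe v0 q))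
    (hs : ∀ m, m ∉ sideR h i → ∀ q', cf (tyW b) m q' v0 = 0) {S : Finset (Fin (M + 1))}
    (hS : S ⊆ sideR h i) (hi : i ∈ S) (hS' : ∀ m, m ∉ S → ∀ q', cf (tyW b) m q' v0 = 0) :
    SideG b zs nb z p h i u
      (∑ m ∈ S, (OV b m (Ow b (Function.update (Function.update z (.inl (.inl h)) u) v0 ζ) m) -
        OV b m (Ow b z m)) - 2 * Real.pi * (qe v0 q - pe p v0)) := by
  refine ⟨Function.update (Function.update z (.inl (.inl h)) u) v0 ζ, pup p v0 q, ?_, ?_, ?_⟩
  · rw [Function.update_of_ne hv.symm, Function.update_self]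
  · intro v hvh hc
    by_cases h0 : v = v0
    · subst h0
      rw [pe_pup, if_pos rfl, Function.update_self]
      exact ⟨hn, ho, hs⟩
    · rw [pe_pup, if_neg h0, Function.update_of_ne h0, Function.update_of_ne hvh] at hc
      simp at hc
  · rw [pex_pup h p hv]
    have : ∑ m ∈ sideR h i, (OV b m (Ow b (Function.update (Function.update z (.inl (.inl h)) u) v0 ζ) m) -
        OV b m (Ow b z m)) = ∑ m ∈ S, (OV b m (Ow b (Function.update (Function.update z
          (.inl (.inl h)) u) v0 ζ) m) - OV b m (Ow b z m)) := by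
      symm
      refine Finset.sum_subset hS fun m hm hmS => ?_
      rw [Ow_congr (z := z) (z' := Function.update (Function.update z (.inl (.inl h)) u) v0 ζ) m]
      · ring
      · intro v hv' q'
        by_cases h0 : v = v0
        · subst h0
          exact hS' m hmS q'
        · rw [Function.update_of_ne h0] at hv'
          by_cases hvh : v = .inl (.inl h)
          · subst hvh
            exact sideR_hinge A hm (fun e => hmS (e ▸ hi)) q'
          · exact absurd (by rw [Function.update_of_ne hvh]) hv'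
    rw [this]

theorem Ow_upd_mid (m : {i : Fin (M + 1) // (tyW b i).isMid = true})
    (z : DD (tyW b) ⊕ ZZ (tyW b) → ℂ) (c : ℂ) :
    Ow b (Function.update z (.inl (.inr m)) c) m.1 =
      Function.update (Ow b z m.1) 1 (ofr (b m.1) c) := by
  unfold Ow
  rw [xx_upd_mid, own_update_one]
  intro h0
  have := m.2
  rw [h0] at this
  simp [Typ.isMid] at this

theorem Ow_upd_ring (v : ZZ (tyW b)) (z : DD (tyW b) ⊕ ZZ (tyW b) → ℂ) (c : ℂ) :
    Ow b (Function.update z (.inr v) c) v.1 =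
      Function.update (Ow b z v.1) 1 (ofz (b v.1) c) := by
  unfold Ow
  rw [xx_upd_ring, tyW_ring v.2, own_update_ring]

/-- **The inner variable of the region responds.** -/
theorem SideG.inner (m : {i : Fin (M + 1) // (tyW b i).isMid = true}) (A : Adj h m.1 s j)
    (u ζ : ℂ) (q : ℝ) (hn : Sum.inl (Sum.inr m) ∉ nb)
    (ho : (wparM b zs).On (zs (.inl (.inr m))).im (.inr m) ζ q) :
    SideG b zs nb z p h m.1 u
      (OV b m.1 (Function.update (Function.update (Ow b z m.1) s (ofr (b m.1) u)) 1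
        (ofr (b m.1) ζ)) - OV b m.1 (Ow b z m.1) - 2 * Real.pi * (q - p (.inr m))) := by
  have h1 := SideG.resp (b := b) (zs := zs) (nb := nb) (z := z) (p := p) A u ζ q
    (v0 := .inl (.inr m)) (by simp) hn ho (S := {m.1}) ?_ ?_ (by simp) ?_
  · rw [Finset.sum_singleton, Ow_upd_mid, Ow_upd_hinge A] at h1
    exact h1
  · intro m' hm' q'
    have : m.1 ≠ m' := fun e => hm' (e ▸ A.mem_side.1)
    simp [cf, this]
  · intro m' hm'
    rw [Finset.mem_singleton] at hm'
    rw [hm']
    exact A.mem_side.1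
  · intro m' hm' q'
    have : m.1 ≠ m' := fun e => hm' (by rw [e]; exact Finset.mem_singleton_self _)
    simp [cf, this]

/-- **The ring variable of the region responds.** -/
theorem SideG.rvar (v : ZZ (tyW b)) (A : Adj h v.1 s j) (u ζ : ℂ)
    (hn : Sum.inr v ∉ nb) (ho : ∃ σ : ℝ, |σ| ≤ 1 / 2 ∧ ζ = LT.zt (zs (.inr v)).im σ) :
    SideG b zs nb z p h v.1 u
      (OV b v.1 (Function.update (Function.update (Ow b z v.1) s (ofr (b v.1) u)) 1
        (ofz (b v.1) ζ)) - OV b v.1 (Ow b z v.1)) := by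
  have h1 := SideG.resp (b := b) (zs := zs) (nb := nb) (z := z) (p := p) A u ζ 0
    (v0 := .inr v) (by simp) hn ho (S := {v.1}) ?_ ?_ (by simp) ?_
  · rw [Finset.sum_singleton, Ow_upd_ring, Ow_upd_hinge A] at h1
    simpa [qe, pe] using h1
  · intro m' hm' q'
    have : v.1 ≠ m' := fun e => hm' (e ▸ A.mem_side.1)
    simp [cf, this]
  · intro m' hm'
    rw [Finset.mem_singleton] at hm'
    rw [hm']
    exact A.mem_side.1
  · intro m' hm' q'
    have : v.1 ≠ m' := fun e => hm' (by rw [e]; exact Finset.mem_singleton_self _)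
    simp [cf, this]

/-- the hinge in the other slot of the region `i` touches only regions on the side of `i` -/
theorem Adj.side2 (A : Adj h i s j) (A' : Adj h' i s.rev j') :
    j' ∈ sideR h i ∧ h' ≠ h ∧ j' ≠ i ∧
      ∀ m, m ∉ ({i, j'} : Finset (Fin (M + 1))) → ∀ q, cf (tyW b) m q (.inl (.inl h')) = 0 := by
  have key : ∀ {k k' : Fin M}, k.castSucc = k'.succ → k' ≠ k ∧ k'.castSucc ≤ k.castSucc ∧
      k'.castSucc ≠ k.castSucc := by
    intro k k' e
    have e1 : k.val = k'.val + 1 := by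
      have := congrArg Fin.val e
      simpa using this
    refine ⟨fun e2 => ?_, ?_, ?_⟩
    · rw [e2] at e1; omega
    · rw [Fin.le_def]; simp; omega
    · intro e2
      have := congrArg Fin.val e2
      simp at this
      omega
  cases A with
  | l =>
    generalize hi' : h.castSucc = i' at A'
    generalize hs' : (2 : Fin 3).rev = s' at A'
    cases A' with
    | l => exact absurd hs' (by decide)
    | r =>
      obtain ⟨k1, k2, k3⟩ := key hi'
      refine ⟨?_, k1, ?_, ?_⟩
      · rw [hi'.symm, sideR_l]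
        simpa using k2
      · rw [← hi']
        exact k3
      · intro m hm q
        simp only [Finset.mem_insert, Finset.mem_singleton, not_or] at hm
        exact cf_hinge_zero hm.2 hm.1 q
  | r =>
    generalize hi' : h.succ = i' at A'
    generalize hs' : (0 : Fin 3).rev = s' at A'
    cases A' with
    | r => exact absurd hs' (by decide)
    | l =>
      obtain ⟨k1, k2, k3⟩ := key hi'.symm
      refine ⟨?_, fun e => k1 e.symm, ?_, ?_⟩
      · rw [← hi', sideR_r]
        simp only [Finset.mem_filter, Finset.mem_univ, true_and]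
        have e1 : h'.val = h.val + 1 := by
          have := congrArg Fin.val hi'
          simpa using this.symm
        rw [Fin.lt_def]
        simp
        omega
      · exact (Fin.castSucc_lt_succ).ne'
      · intro m hm q
        simp only [Finset.mem_insert, Finset.mem_singleton, not_or] at hm
        exact cf_hinge_zero hm.1 hm.2 q

/-- **The hinge in the other slot responds.** -/
theorem SideG.hinge (A : Adj h i s j) (A' : Adj h' i s.rev j') (u ζ : ℂ) (q : ℝ)
    (hn : Sum.inl (Sum.inl h') ∉ nb)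
    (ho : (wparM b zs).On (zs (.inl (.inl h'))).im (.inl h') ζ q) :
    SideG b zs nb z p h i u
      (OV b i (Function.update (Function.update (Ow b z i) s (ofr (b i) u)) s.rev
        (ofr (b i) ζ)) - OV b i (Ow b z i) +
      (OV b j' (Function.update (Ow b z j') s (ofr (b j') ζ)) - OV b j' (Ow b z j')) -
      2 * Real.pi * (q - p (.inl h'))) := by
  obtain ⟨m1, m2, m3, m4⟩ := A.side2 (b := b) A'
  have hv0 : (Sum.inl (Sum.inl h') : DD (tyW b) ⊕ ZZ (tyW b)) ≠ .inl (.inl h) := by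
    simpa using m2
  have h1 := SideG.resp (b := b) (zs := zs) (nb := nb) (z := z) (p := p) A u ζ q
    (v0 := .inl (.inl h')) hv0 hn ho (S := {i, j'}) ?_ ?_ (by simp) m4
  · rw [Finset.sum_pair m3.symm, Ow_upd_hinge A', Ow_upd_hinge A] at h1
    have A'' : Adj h' j' s i := by
      have := A'.symm
      rwa [Fin.rev_rev] at this
    rw [Ow_upd_hinge A''] at h1
    have e1 : Ow b (Function.update z (.inl (.inl h)) u) j' = Ow b z j' := by
      refine (Ow_congr j' fun v hv q' => ?_).symm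
      by_cases hvh : v = .inl (.inl h)
      · subst hvh
        exact sideR_hinge A m1 m3 q'
      · exact absurd (by rw [Function.update_of_ne hvh]) hv
    rw [e1] at h1
    exact h1
  · intro m hm q'
    refine m4 m ?_ q'
    simp only [Finset.mem_insert, Finset.mem_singleton, not_or]
    exact ⟨fun e => hm (e ▸ A.mem_side.1), fun e => hm (e ▸ m1)⟩
  · intro m hm
    simp only [Finset.mem_insert, Finset.mem_singleton] at hm
    rcases hm with rfl | rfl
    · exact A.mem_side.1
    · exact m1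

/-! ### positions of the variables at a maximiser -/

/-- the penalty of a point which is on the main path vanishes -/
theorem MM.pen_zero (hR : ∀ i ∈ R, Sum.inl i ∈ nb) (hM : MM b zs R nb z p) {i : DD (tyW b)}
    (hn : Sum.inl i ∉ nb) (h0 : (wparM b zs).On (zs (.inl i)).im i (z (.inl i)) 0) :
    p i ≤ 0 := by
  have hmv : Mv b zs nb z p z (Function.update p i 0) := by
    refine ⟨fun v hv => ?_⟩
    rcases v with i' | v
    · by_cases hi : i' = i
      · subst hi
        refine ⟨hn, ?_⟩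
        have : pe (Function.update p i' 0) (.inl i') = 0 := by simp [pe]
        rw [this]
        exact h0
      · exfalso
        have : pe (Function.update p i 0) (.inl i') = pe p (.inl i') := by
          simp [pe, Function.update_of_ne hi]
        rw [this] at hv
        simp at hv
    · exfalso
      simp [pe] at hv
  have h1 := hM.max z _ (hmv.adm hR hM.adm)
  unfold Ph at h1
  have h2 : ∑ k, p k ≤ ∑ k, Function.update p i 0 k := by
    have := Real.pi_pos
    nlinarith only [h1, this]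
  have h3 : ∑ k, Function.update p i 0 k - ∑ k, p k = -p i := by
    rw [← Finset.sum_sub_distrib, Finset.sum_eq_single i]
    · rw [Function.update_self]; ring
    · intro k _ hk
      rw [Function.update_of_ne hk, sub_self]
    · intro h
      exact absurd (Finset.mem_univ i) h
  linarith only [h2, h3]

/-- position of a variable: real, on the main path of height `T`, on the mirrored path on the other
side (of height `Hu` if this is the upper side, `Hd` if it is the lower one) -/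
def Pst (T Hu Hd XM cl cr : ℝ) (X : ℂ) (q : ℝ) : Prop :=
  ∃ x : ℝ, 0 ≤ x ∧ x ≤ XM ∧ X.re = x ∧
    ((X.im = 0 ∧ q = 0) ∨ (X.im = T * tr 0 XM cl cr x ∧ q = 0) ∨
      (T ≤ 0 ∧ X.im = Hu * tr 0 XM cl cr x ∧ q = Hu * tr 0 XM cl cr x) ∨
      (0 ≤ T ∧ X.im = -(Hd * tr 0 XM cl cr x) ∧ q = Hd * tr 0 XM cl cr x))

theorem ptm_re (a b' c c' t x : ℝ) : (pt a b' c c' t x).re = x := by
  unfold pt
  simp

theorem ptm_im (a b' c c' t x : ℝ) : (pt a b' c c' t x).im = t * tr a b' c c' x := by
  unfold pt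
  simp

/-- positions of a variable which is no hinge of a ring -/
theorem MM.pst (hR : ∀ i ∈ R, Sum.inl i ∈ nb) (hM : MM b zs R nb z p) {i : DD (tyW b)}
    (hn : Sum.inl i ∉ nb) (hr : ¬ RH1 b i) :
    Pst (zs (.inl i)).im (mtu b i) (mtd b i) ((wpar b zs).XM i) ((wpar b zs).cl i) ((wpar b zs).cr i)
      (z (.inl i)) (p i) := by
  have hhu : (wparM b zs).hu i = if 0 < (zs (.inl i)).im then (zs (.inl i)).im else mtu b i := by
    show mhu b zs i = _
    rcases i with h | m
    · simp only [RH1] at hr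
      simp only [mhu, if_neg hr]
    · rfl
  have hhd : (wparM b zs).hd i = if (zs (.inl i)).im < 0 then -(zs (.inl i)).im else mtd b i := by
    show mhd b zs i = _
    rcases i with h | m
    · simp only [RH1] at hr
      simp only [mhd, if_neg hr]
    · rfl
  obtain ⟨x, h0, h1, h2⟩ := hM.adm.onD i hn
  refine ⟨x, h0, h1, ?_, ?_⟩
  · rcases h2 with h2 | h2 | h2 <;> rw [h2.1, ptm_re]
  · have ht := tr_mem 0 ((wpar b zs).XM i) ((wpar b zs).cl i) ((wpar b zs).cr i) x
    rcases h2 with ⟨e1, e2⟩ | ⟨e1, e2⟩ | ⟨e1, e2⟩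
    · right; left
      rw [e1, ptm_im]
      exact ⟨rfl, e2⟩
    · rw [hhu] at e1 e2
      by_cases hT : 0 < (zs (.inl i)).im
      · right; left
        rw [if_pos hT] at e1 e2
        have h3 : p i ≤ 0 := hM.pen_zero hR hn ⟨x, h0, h1, Or.inl ⟨e1, rfl⟩⟩
        refine ⟨by rw [e1, ptm_im]; rfl, le_antisymm h3 ?_⟩
        rw [e2]
        exact mul_nonneg hT.le ht.1
      · right; right; left
        rw [if_neg hT] at e1 e2
        exact ⟨not_lt.1 hT, by rw [e1, ptm_im]; rfl, e2⟩
    · rw [hhd] at e1 e2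
      by_cases hT : (zs (.inl i)).im < 0
      · right; left
        rw [if_pos hT] at e1 e2
        have e1' : z (.inl i) = pt 0 ((wparM b zs).XM i) ((wparM b zs).cl i)
            ((wparM b zs).cr i) (zs (.inl i)).im x := by
          rw [e1, neg_neg]
        have h3 : p i ≤ 0 := hM.pen_zero hR hn ⟨x, h0, h1, Or.inl ⟨e1', rfl⟩⟩
        refine ⟨by rw [e1', ptm_im]; rfl, le_antisymm h3 ?_⟩
        rw [e2]
        exact mul_nonneg (by linarith only [hT]) ht.1
      · right; right; right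
        rw [if_neg hT] at e1 e2
        refine ⟨not_lt.1 hT, ?_, e2⟩
        rw [e1, ptm_im, neg_mul]
        rfl

theorem Pst.ofr {T Hu Hd XM cl cr : ℝ} {X : ℂ} {q : ℝ} (hX : Pst T Hu Hd XM cl cr X q) (c : ℤ) :
    Pst (ofs c T) (if 0 < c then Hu else Hd) (if 0 < c then Hd else Hu) XM cl cr (ofr c X) q := by
  obtain ⟨x, h0, h1, h2, h3⟩ := hX
  refine ⟨x, h0, h1, by rw [ofr_re]; exact h2, ?_⟩
  rw [ofr_im]
  by_cases hc : 0 < c
  · rw [ofs_pos hc, ofs_pos hc, if_pos hc, if_pos hc]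
    exact h3
  · have e : ∀ m : ℝ, ofs c m = -m := fun m => by unfold ofs; rw [if_neg hc]
    rw [e, e, if_neg hc, if_neg hc]
    rcases h3 with ⟨a1, a2⟩ | ⟨a1, a2⟩ | ⟨a1, a2, a3⟩ | ⟨a1, a2, a3⟩
    · left
      exact ⟨by rw [a1, neg_zero], a2⟩
    · right; left
      exact ⟨by rw [a1]; ring, a2⟩
    · right; right; right
      exact ⟨by linarith only [a1], by rw [a2], a3⟩
    · right; right; left
      exact ⟨by linarith only [a1], by rw [a2, neg_neg], a3⟩

theorem Pst.abs_im {T Hu Hd H XM cl cr : ℝ} {X : ℂ} {q : ℝ} (hX : Pst T Hu Hd XM cl cr X q)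
    (hT : |T| ≤ H) (hu : Hu ≤ H) (hd : Hd ≤ H) (hu0 : 0 ≤ Hu) (hd0 : 0 ≤ Hd) :
    0 ≤ X.re ∧ X.re ≤ XM ∧ |X.im| ≤ H * tr 0 XM cl cr X.re ∧ 0 ≤ q := by
  obtain ⟨x, h0, h1, h2, h3⟩ := hX
  have ht := tr_mem 0 XM cl cr x
  have hH : 0 ≤ H := (abs_nonneg _).trans hT
  have hp := mul_nonneg hH ht.1
  have hpu := mul_nonneg hu0 ht.1
  have hpd := mul_nonneg hd0 ht.1
  have gu := mul_le_mul_of_nonneg_right hu ht.1
  have gd := mul_le_mul_of_nonneg_right hd ht.1
  rw [h2]
  refine ⟨h0, h1, ?_, ?_⟩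
  · rcases h3 with ⟨a1, -⟩ | ⟨a1, -⟩ | ⟨-, a1, -⟩ | ⟨-, a1, -⟩
    · rw [a1, abs_zero]; exact hp
    · rw [a1, abs_mul, abs_of_nonneg ht.1]
      exact mul_le_mul_of_nonneg_right hT ht.1
    · rw [a1, abs_of_nonneg hpu]
      exact gu
    · rw [a1, abs_neg, abs_of_nonneg hpd]
      exact gd
  · rcases h3 with ⟨-, a1⟩ | ⟨-, a1⟩ | ⟨-, -, a1⟩ | ⟨-, -, a1⟩
    · rw [a1]
    · rw [a1]
    · rw [a1]; exact hpu
    · rw [a1]; exact hpd

theorem ofs_opp' {d d' : ℤ} (hd : d * d' < 0) : (0 < d ↔ ¬ 0 < d') := by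
  constructor
  · intro h1 h2
    nlinarith only [hd, h1, h2]
  · intro h1
    rcases lt_trichotomy d 0 with h2 | h2 | h2
    · nlinarith only [hd, h1, h2]
    · rw [h2, zero_mul] at hd
      exact absurd hd (lt_irrefl 0)
    · exact h2

theorem mt_frame (hb : ClassW b) (A : Adj h i s j) (hi : clsW b i ≠ .ring) :
    (if 0 < b i then mtu b (.inl h) else mtd b (.inl h)) = mhs b h s.rev ∧
      (if 0 < b i then mtd b (.inl h) else mtu b (.inl h)) = mhs b h s := by
  have hs : b h.castSucc * b h.succ < 0 := by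
    rcases sign_cases hb h with h1 | ⟨-, h2, h3⟩
    · exact h1
    · cases A
      · exact absurd h2 hi
      · exact absurd h3 hi
  have ho := ofs_opp' hs
  cases A with
  | l =>
    show (if 0 < b h.castSucc then mtu b (.inl h) else mtd b (.inl h)) = mhs b h 0 ∧
      (if 0 < b h.castSucc then mtd b (.inl h) else mtu b (.inl h)) = mhs b h 2
    simp only [mtu, mtd]
    constructor <;> split_ifs <;> rfl
  | r =>
    show (if 0 < b h.succ then mtu b (.inl h) else mtd b (.inl h)) = mhs b h 2 ∧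
      (if 0 < b h.succ then mtd b (.inl h) else mtu b (.inl h)) = mhs b h 0
    simp only [mtu, mtd]
    by_cases h1 : 0 < b h.castSucc
    · have h2 := ho.1 h1
      rw [if_pos h1, if_pos h1, if_neg h2, if_neg h2]
      exact ⟨rfl, rfl⟩
    · have h2 : 0 < b h.succ := by
        by_contra h3
        exact h1 (ho.2 h3)
      rw [if_neg h1, if_neg h1, if_pos h2, if_pos h2]
      exact ⟨rfl, rfl⟩

/-- the hinge in a slot of a region: position in the own frame -/
theorem MM.slot (hb : ClassW b) (hR : ∀ i ∈ R, Sum.inl i ∈ nb) (hM : MM b zs R nb z p)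
    (A : Adj h i s j)
    (hn : Sum.inl (Sum.inl h) ∉ nb) (hi : clsW b i ≠ .ring) (hj : clsW b j ≠ .ring) :
    Pst (ofs (b i) (zs (.inl (.inl h))).im) (mhs b h s.rev) (mhs b h s) (wXM b h) (wcl b h)
      (wcr b h) (Ow b z i s) (p (.inl h)) := by
  obtain ⟨e1, e2⟩ := mt_frame hb A hi
  rw [Ow_adj z A, ← e1, ← e2]
  refine Pst.ofr (hM.pst hR hn ?_) (b i)
  simp only [RH1]
  cases A
  · exact fun h0 => h0.elim hi hj
  · exact fun h0 => h0.elim hj hi

/-- a region with a hinge which is not real is not touched -/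
theorem NbOk.untouched (hN : NbOk b R nb) (A : Adj h i s j) (hn : Sum.inl (Sum.inl h) ∉ nb)
    {d : DD (tyW b)} {q : Fin 3} (hd : cf (tyW b) i q (.inl d) ≠ 0) : d ∉ R := by
  intro hR
  refine hn (hN.2 d hR i q hd (.inl (.inl h)) s ?_)
  cases A <;> simp [cf]

/-- **the other hinge of the region of a hinge which is not real**: real, or on its paths -/
theorem MM.other (hb : ClassW b) (hN : NbOk b R nb) (hM : MM b zs R nb z p) (A : Adj h i s j)
    (hn : Sum.inl (Sum.inl h) ∉ nb) (A' : Adj h' i s.rev j') (hi : clsW b i ≠ .ring)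
    (hj' : clsW b j' ≠ .ring) :
    Pst (ofs (b i) (zs (.inl (.inl h'))).im) (mhs b h' s) (mhs b h' s.rev) (wXM b h') (wcl b h')
      (wcr b h') (Ow b z i s.rev) (p (.inl h')) := by
  by_cases hn' : Sum.inl (Sum.inl h') ∈ nb
  · have hd : (Sum.inl h' : DD (tyW b)) ∉ R := by
      refine hN.untouched A hn (q := s.rev) ?_
      generalize s.rev = s' at A'
      cases A' <;> simp [cf]
    obtain ⟨e1, e2, e3, e4⟩ := hM.adm.reD _ hd hn'
    rw [Ow_adj z A']
    refine ⟨(z (.inl (.inl h'))).re, e2, e3, ofr_re _ _, Or.inl ⟨?_, e4⟩⟩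
    rw [ofr_im, e1, ofs_zero]
  · have := hM.slot hb hN.1 A' hn' hi hj'
    rwa [Fin.rev_rev] at this

/-- **the inner variable of the region of a hinge which is not real** -/
theorem MM.innerv (hN : NbOk b R nb) (hM : MM b zs R nb z p)
    (m : {i : Fin (M + 1) // (tyW b i).isMid = true}) (A : Adj h m.1 s j)
    (hn : Sum.inl (Sum.inl h) ∉ nb) :
    Pst (ofs (b m.1) (zs (.inl (.inr m))).im) (16 / 100) (16 / 100) (mp (clsW b m.1)).XM
      (mp (clsW b m.1)).cl (mp (clsW b m.1)).cr (Ow b z m.1 1) (p (.inr m)) := by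
  have e0 : Ow b z m.1 1 = ofr (b m.1) (z (.inl (.inr m))) := by
    unfold Ow
    rw [own_one]
    · exact congrArg _ (xx_mid (tyW b) m.2 z)
    · intro h0
      have := m.2
      rw [h0] at this
      simp [Typ.isMid] at this
  rw [e0]
  by_cases hn' : Sum.inl (Sum.inr m) ∈ nb
  · have hd : (Sum.inr m : DD (tyW b)) ∉ R :=
      hN.untouched A hn (q := 1) (by simp [cf])
    obtain ⟨e1, e2, e3, e4⟩ := hM.adm.reD _ hd hn'
    refine ⟨(z (.inl (.inr m))).re, e2, e3, ofr_re _ _, Or.inl ⟨?_, e4⟩⟩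
    rw [ofr_im, e1, ofs_zero]
  · have := Pst.ofr (hM.pst hN.1 hn' (by simp [RH1])) (b m.1)
    simp only [mtu, mtd, ite_self] at this
    exact this

/-- targets of the star moves: points of the main path -/
theorem onP_main (i : DD (tyW b)) {x : ℝ} (h0 : 0 ≤ x) (h1 : x ≤ (wpar b zs).XM i) :
    (wparM b zs).On (zs (.inl i)).im i (pt 0 ((wpar b zs).XM i) ((wpar b zs).cl i)
      ((wpar b zs).cr i) (zs (.inl i)).im x) 0 := ⟨x, h0, h1, Or.inl ⟨rfl, rfl⟩⟩

end SR

end Pool.Agent.Work.MP_b30479_gtS.G2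

end

section

/-!
# Mirrored paths: the kinds of hinges

`Md`: a hinge `h` between the regions `i` and `j` (no rings) is on its mirrored path, which is the
lower one in the frame of the region `i`.  `MM.md`: every hinge of a maximiser which is on no
mirrored path has no penalty.  The star moves for the classes of regions.
-/

namespace Pool.Agent.Work.MP_b30479_gtS.G2

open Finset VOL Filter Topology

namespace SR

variable {M : ℕ} {b : Fin (M + 1) → ℤ} {zs : DD (tyW b) ⊕ ZZ (tyW b) → ℂ}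
variable {R : Finset (DD (tyW b))} {nb : Finset (DD (tyW b) ⊕ ZZ (tyW b))}
variable {z : DD (tyW b) ⊕ ZZ (tyW b) → ℂ} {p : DD (tyW b) → ℝ}
variable {h h' : Fin M} {i j j' : Fin (M + 1)} {s : Fin 3} {x c : ℝ}

/-- ramp function of the hinge `h` -/
noncomputable def trh (b : Fin (M + 1) → ℤ) (h : Fin M) (x : ℝ) : ℝ :=
  tr 0 (wXM b h) (wcl b h) (wcr b h) x

/-- height of the saddle point at the hinge `h` in the frame of the region `i` -/
noncomputable def Th (b : Fin (M + 1) → ℤ) (zs : DD (tyW b) ⊕ ZZ (tyW b) → ℂ) (h : Fin M)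
    (i : Fin (M + 1)) : ℝ := ofs (b i) (zs (.inl (.inl h))).im

/-- the target `c` of a star move: the point of the main path -/
noncomputable def tg (b : Fin (M + 1) → ℤ) (zs : DD (tyW b) ⊕ ZZ (tyW b) → ℂ) (h : Fin M)
    (c : ℝ) : ℂ := pt 0 (wXM b h) (wcl b h) (wcr b h) (zs (.inl (.inl h))).im c

/-- the target of a star move in the frame of the region `i` -/
noncomputable def tgo (b : Fin (M + 1) → ℤ) (zs : DD (tyW b) ⊕ ZZ (tyW b) → ℂ) (h : Fin M)
    (i : Fin (M + 1)) (c : ℝ) : ℂ := ⟨c, Th b zs h i * trh b h c⟩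

theorem ofs_mulR (d : ℤ) (T t : ℝ) : ofs d (T * t) = ofs d T * t := by
  unfold ofs
  split_ifs <;> ring

theorem ofr_tg (i : Fin (M + 1)) : ofr (b i) (tg b zs h c) = tgo b zs h i c := by
  apply Complex.ext
  · rw [ofr_re]
    unfold tg tgo
    rw [ptm_re]
  · rw [ofr_im]
    unfold tg tgo
    rw [ptm_im, ofs_mulR]
    rfl

/-- **Mode**: the hinge `h` is at `x` on its mirrored path, the lower one in the frame of `i`; the
main path is the upper one (`0 ≤ Th b zs h i`). -/
structure Md (b : Fin (M + 1) → ℤ) (zs : DD (tyW b) ⊕ ZZ (tyW b) → ℂ)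
    (nb : Finset (DD (tyW b) ⊕ ZZ (tyW b))) (z : DD (tyW b) ⊕ ZZ (tyW b) → ℂ)
    (p : DD (tyW b) → ℝ) (h : Fin M) (i : Fin (M + 1)) (s : Fin 3) (j : Fin (M + 1)) (x : ℝ) :
    Prop where
  adj : Adj h i s j
  ri : clsW b i ≠ .ring
  rj : clsW b j ≠ .ring
  nn : Sum.inl (Sum.inl h) ∉ nb
  x0 : 0 < x
  x1 : x < wXM b h
  T0 : 0 ≤ Th b zs h i
  Tj : Th b zs h j = -Th b zs h i
  own : Ow b z i s = ⟨x, -(mhs b h s * trh b h x)⟩
  opp : Ow b z j s.rev = ⟨x, mhs b h s * trh b h x⟩
  pen : p (.inl h) = mhs b h s * trh b h x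
  tp : 0 < trh b h x

theorem ofs_neg_of_opp {d d' : ℤ} (hd : d * d' < 0) (m : ℝ) : ofs d' m = -ofs d m := by
  unfold ofs
  rcases lt_trichotomy d 0 with h1 | h1 | h1
  · have h2 : 0 < d' := by nlinarith
    rw [if_pos h2, if_neg (not_lt.2 h1.le), neg_neg]
  · rw [h1, zero_mul] at hd
    exact absurd hd (lt_irrefl 0)
  · have h2 : d' < 0 := by nlinarith
    rw [if_neg (not_lt.2 h2.le), if_pos h1]

theorem sign_adj (hb : ClassW b) (A : Adj h i s j) (hi : clsW b i ≠ .ring) : b i * b j < 0 := by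
  rcases sign_cases hb h with h1 | ⟨-, h2, h3⟩
  · cases A
    · exact h1
    · rw [mul_comm]; exact h1
  · cases A
    · exact absurd h2 hi
    · exact absurd h3 hi

theorem trh_zero_of (h0 : x ≤ 0 ∨ wXM b h ≤ x) : trh b h x = 0 := by
  have h1 := wcl_pos (b := b) h
  have h2 := wcr_pos (b := b) h
  unfold trh tr
  apply max_eq_left
  rcases h0 with h0 | h0
  · refine (min_le_right _ _).trans ((min_le_left _ _).trans ?_)
    rw [sub_zero]
    exact div_nonpos_of_nonpos_of_nonneg h0 h1.le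
  · refine (min_le_right _ _).trans ((min_le_right _ _).trans ?_)
    exact div_nonpos_of_nonpos_of_nonneg (by linarith) h2.le

/-- **The position of a hinge at a maximiser**: no penalty, or a mode seen from one of its two
regions. -/
theorem MM.md (hb : ClassW b) (hR : ∀ i ∈ R, Sum.inl i ∈ nb) (hM : MM b zs R nb z p) (h : Fin M)
    (h1 : clsW b h.castSucc ≠ .ring) (h2 : clsW b h.succ ≠ .ring) :
    p (.inl h) = 0 ∨ ∃ i s j x, Md b zs nb z p h i s j x := by
  by_cases hn : Sum.inl (Sum.inl h) ∈ nb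
  · left
    by_cases hr : (Sum.inl h : DD (tyW b)) ∈ R
    · exact (hM.adm.tail _ hr).2.2.2
    · exact (hM.adm.reD _ hr hn).2.2.2
  have key : ∀ {i s j}, Adj h i s j → clsW b i ≠ .ring → clsW b j ≠ .ring → ∀ x, 0 ≤ Th b zs h i →
      (Ow b z i s).re = x → (Ow b z i s).im = -(mhs b h s * trh b h x) →
      p (.inl h) = mhs b h s * trh b h x → p (.inl h) = 0 ∨ ∃ i s j x,
        Md b zs nb z p h i s j x := by
    intro i s j A hi hj x T0 e1 e2 e3
    by_cases ht : trh b h x = 0
    · left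
      rw [e3, ht, mul_zero]
    · right
      have hs := sign_adj hb A hi
      have htp : 0 < trh b h x := lt_of_le_of_ne (tr_mem _ _ _ _ _).1 (Ne.symm ht)
      refine ⟨i, s, j, x, A, hi, hj, hn, ?_, ?_, T0, ofs_neg_of_opp hs _, ?_, ?_, e3, htp⟩
      · by_contra hc
        exact ht (trh_zero_of (Or.inl (not_lt.1 hc)))
      · by_contra hc
        exact ht (trh_zero_of (Or.inr (not_lt.1 hc)))
      · exact Complex.ext e1 e2
      · rw [Ow_adj z A.symm]
        rw [Ow_adj z A] at e1 e2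
        apply Complex.ext
        · rw [ofr_re] at e1 ⊢
          exact e1
        · rw [ofr_im] at e2 ⊢
          rw [ofs_neg_of_opp hs, e2, neg_neg]
  have hp := hM.slot hb hR (Adj.l (h := h)) hn h1 h2
  obtain ⟨x, x0, x1, e1, e2⟩ := hp
  rcases e2 with ⟨-, e3⟩ | ⟨-, e3⟩ | ⟨T0, e3, e4⟩ | ⟨T0, e3, e4⟩
  · exact Or.inl e3
  · exact Or.inl e3
  · -- upper mirrored path in the frame of the left region
    have hs := sign_adj hb (Adj.l (h := h)) h1
    refine key (Adj.r (h := h)) h2 h1 x ?_ ?_ ?_ e4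
    · unfold Th
      rw [ofs_neg_of_opp hs]
      linarith
    · rw [Ow_adj z (Adj.r (h := h))]
      rw [Ow_adj z (Adj.l (h := h))] at e1
      rw [ofr_re] at e1 ⊢
      exact e1
    · rw [Ow_adj z (Adj.r (h := h))]
      rw [Ow_adj z (Adj.l (h := h))] at e3
      rw [ofr_im] at e3 ⊢
      rw [ofs_neg_of_opp hs, e3]
      rfl
  · exact key (Adj.l (h := h)) h1 h2 x T0 e1 e3 e4

/-! ### the star move -/

theorem onP_tg (h0 : 0 ≤ c) (h1 : c ≤ wXM b h) : OnP b zs (.inl (.inl h)) (tg b zs h c) 0 :=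
  onP_main (.inl h) h0 h1

/-- **The star move at a mode.** -/
theorem Md.star (hb : ClassW b) (hR : ∀ i ∈ R, Sum.inl i ∈ nb) (hM : MM b zs R nb z p)
    (D : Md b zs nb z p h i s j x) (h0 : 0 ≤ c) (h1 : c ≤ wXM b h) {g1 g2 : ℝ}
    (k1 : SideG b zs nb z p h i (tg b zs h c) g1) (k2 : SideG b zs nb z p h j (tg b zs h c) g2) :
    g1 + g2 + 2 * Real.pi * (mhs b h s * trh b h x) ≤ 0 := by
  rw [← D.pen]
  exact hM.star hb hR D.adj D.nn (onP_tg h0 h1) k1 k2

/-! ### gains of the classes of regions, other variables kept -/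

theorem endOk_upd {X : Fin 3 → ℂ} (A : Adj h i s j) (hX : EndOk i X) (u : ℂ) :
    EndOk i (Function.update X s u) := by
  cases A
  · refine ⟨fun h0 => ?_, fun h0 => ?_⟩
    · rw [Function.update_of_ne (by decide)]
      exact hX.1 h0
    · exact absurd h0 (Fin.castSucc_lt_last h).ne
  · refine ⟨fun h0 => ?_, fun h0 => ?_⟩
    · exact absurd h0 (Fin.succ_ne_zero h)
    · rw [Function.update_of_ne (by decide)]
      exact hX.2 h0

theorem endOk_upd1 {X : Fin 3 → ℂ} (hX : EndOk i X) (u : ℂ) :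
    EndOk i (Function.update X 1 u) :=
  ⟨fun h0 => by rw [Function.update_of_ne (by decide)]; exact hX.1 h0,
    fun h0 => by rw [Function.update_of_ne (by decide)]; exact hX.2 h0⟩

/-- digit `1` -/
theorem keep_one (hb : ClassW b) (A : Adj h i s j) (hc : clsW b i = .one) :
    SideG b zs nb z p h i (tg b zs h c)
      (V1 (tgo b zs h i c) (Ow b z i s.rev) - V1 (Ow b z i s) (Ow b z i s.rev)) := by
  have h1 := SideG.keep (b := b) (zs := zs) (nb := nb) (z := z) (p := p) A (tg b zs h c)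
  rw [ofr_tg, OV_one hb hc, OV_one hb hc] at h1
  cases A
  · rw [Function.update_self, Function.update_of_ne (by decide), V1_comm, V1_comm (Ow b z _ 0)] at h1
    exact h1
  · rw [Function.update_self, Function.update_of_ne (by decide)] at h1
    exact h1

/-- digit `2`, also at an end -/
theorem keep_two (hb : ClassW b) (A : Adj h i s j) (hc : clsW b i = .two ∨ clsW b i = .twoE) :
    SideG b zs nb z p h i (tg b zs h c)
      (V2 (tgo b zs h i c) (Ow b z i s.rev) - V2 (Ow b z i s) (Ow b z i s.rev)) := by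
  have h1 := SideG.keep (b := b) (zs := zs) (nb := nb) (z := z) (p := p) A (tg b zs h c)
  rw [ofr_tg, OV_two hb hc (endOk_upd A (Ow_endOk z i) _), OV_two hb hc (Ow_endOk z i)] at h1
  cases A
  · rw [Function.update_self, Function.update_of_ne (by decide), V2_comm, V2_comm (Ow b z _ 0)] at h1
    exact h1
  · rw [Function.update_self, Function.update_of_ne (by decide)] at h1
    exact h1

/-- the empty slot of an end -/
theorem Ow_end (A : Adj h i s j) (he : isEnd i = true) (z : DD (tyW b) ⊕ ZZ (tyW b) → ℂ) :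
    Ow b z i s.rev = 0 := by
  have h1 := Ow_endOk z i
  unfold isEnd at he
  have he' := of_decide_eq_true he
  cases A
  · rcases he' with h2 | h2
    · exact h1.1 h2
    · exact absurd h2 (Fin.castSucc_lt_last h).ne
  · rcases he' with h2 | h2
    · exact absurd h2 (Fin.succ_ne_zero h)
    · exact h1.2 h2

/-- digit `2` at an end -/
theorem keep_twoE (hb : ClassW b) (A : Adj h i s j) (hc : clsW b i = .twoE) :
    SideG b zs nb z p h i (tg b zs h c) (V2 (tgo b zs h i c) 0 - V2 (Ow b z i s) 0) := by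
  have h1 := keep_two (zs := zs) (nb := nb) (z := z) (p := p) (c := c) hb A (Or.inr hc)
  rwa [Ow_end A (clsW_end (Or.inl hc))] at h1

/-- digit `3`, the hinge at the side `S3` (slot `0`) -/
theorem keep_three0 (hb : ClassW b) (A : Adj h i 0 j) (hc : clsW b i = .three) :
    SideG b zs nb z p h i (tg b zs h c)
      (V3 (tgo b zs h i c) (Ow b z i 1) (Ow b z i 2) - V3 (Ow b z i 0) (Ow b z i 1) (Ow b z i 2)) := by
  have h1 := SideG.keep (b := b) (zs := zs) (nb := nb) (z := z) (p := p) A (tg b zs h c)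
  rw [ofr_tg, OV_three hb hc, OV_three hb hc, Function.update_self, Function.update_of_ne (by decide),
    Function.update_of_ne (by decide)] at h1
  exact h1

/-- digit `3`, the hinge at the side `S2` (slot `2`) -/
theorem keep_three2 (hb : ClassW b) (A : Adj h i 2 j) (hc : clsW b i = .three) :
    SideG b zs nb z p h i (tg b zs h c)
      (V3 (Ow b z i 0) (Ow b z i 1) (tgo b zs h i c) - V3 (Ow b z i 0) (Ow b z i 1) (Ow b z i 2)) := by
  have h1 := SideG.keep (b := b) (zs := zs) (nb := nb) (z := z) (p := p) A (tg b zs h c)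
  rw [ofr_tg, OV_three hb hc, OV_three hb hc, Function.update_self, Function.update_of_ne (by decide),
    Function.update_of_ne (by decide)] at h1
  exact h1

/-- digit `3` at an end -/
theorem keep_threeE (A : Adj h i s j) (hc : clsW b i = .threeE) :
    SideG b zs nb z p h i (tg b zs h c)
      (V3 (tgo b zs h i c) (Ow b z i 1) 0 - V3 (Ow b z i s) (Ow b z i 1) 0) := by
  have h1 := SideG.keep (b := b) (zs := zs) (nb := nb) (z := z) (p := p) A (tg b zs h c)
  rw [ofr_tg, A.OV_threeE hc (endOk_upd A (Ow_endOk z i) _), A.OV_threeE hc (Ow_endOk z i),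
    Function.update_self, Function.update_of_ne (by cases A <;> decide)] at h1
  exact h1

/-! ### gains, the inner variable moved to `c'` on its main path -/

/-- position `c'` of the main path of the inner variable, own frame -/
noncomputable def tgi (b : Fin (M + 1) → ℤ) (zs : DD (tyW b) ⊕ ZZ (tyW b) → ℂ)
    (m : {i : Fin (M + 1) // (tyW b i).isMid = true}) (c : ℝ) : ℂ :=
  ⟨c, ofs (b m.1) (zs (.inl (.inr m))).im *
    tr 0 (mp (clsW b m.1)).XM (mp (clsW b m.1)).cl (mp (clsW b m.1)).cr c⟩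

theorem SideG.inner' (m : {i : Fin (M + 1) // (tyW b i).isMid = true}) (A : Adj h m.1 s j)
    (hn : Sum.inl (Sum.inr m) ∉ nb) {c' : ℝ} (h0 : 0 ≤ c') (h1 : c' ≤ (mp (clsW b m.1)).XM) :
    SideG b zs nb z p h m.1 (tg b zs h c)
      (OV b m.1 (Function.update (Function.update (Ow b z m.1) s (tgo b zs h m.1 c)) 1
        (tgi b zs m c')) - OV b m.1 (Ow b z m.1) + 2 * Real.pi * p (.inr m)) := by
  have h2 := SideG.inner (b := b) (zs := zs) (nb := nb) (z := z) (p := p) m A (tg b zs h c)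
    (pt 0 ((wpar b zs).XM (.inr m)) ((wpar b zs).cl (.inr m)) ((wpar b zs).cr (.inr m))
      (zs (.inl (.inr m))).im c') 0 hn (onP_main (.inr m) h0 h1)
  have e : ofr (b m.1) (pt 0 ((wpar b zs).XM (.inr m)) ((wpar b zs).cl (.inr m))
      ((wpar b zs).cr (.inr m)) (zs (.inl (.inr m))).im c') = tgi b zs m c' := by
    apply Complex.ext
    · rw [ofr_re, ptm_re]
      rfl
    · rw [ofr_im, ptm_im, ofs_mulR]
      rfl
  rw [ofr_tg, e] at h2
  refine h2.mono (le_of_eq ?_)
  ring

theorem inner_three0 (hb : ClassW b) (m : {i : Fin (M + 1) // (tyW b i).isMid = true})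
    (A : Adj h m.1 0 j) (hc : clsW b m.1 = .three) (hn : Sum.inl (Sum.inr m) ∉ nb) {c' : ℝ}
    (h0 : 0 ≤ c') (h1 : c' ≤ 8 / 10) :
    SideG b zs nb z p h m.1 (tg b zs h c)
      (V3 (tgo b zs h m.1 c) (tgi b zs m c') (Ow b z m.1 2) -
        V3 (Ow b z m.1 0) (Ow b z m.1 1) (Ow b z m.1 2) + 2 * Real.pi * p (.inr m)) := by
  have h2 := SideG.inner' (b := b) (zs := zs) (nb := nb) (z := z) (p := p) (c := c) m A hn h0
    (by rw [hc]; exact h1)
  rw [OV_three hb hc, OV_three hb hc, Function.update_self,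
    Function.update_of_ne (show (0 : Fin 3) ≠ 1 by decide), Function.update_self,
    Function.update_of_ne (show (2 : Fin 3) ≠ 1 by decide),
    Function.update_of_ne (show (2 : Fin 3) ≠ 0 by decide)] at h2
  exact h2

theorem inner_three2 (hb : ClassW b) (m : {i : Fin (M + 1) // (tyW b i).isMid = true})
    (A : Adj h m.1 2 j) (hc : clsW b m.1 = .three) (hn : Sum.inl (Sum.inr m) ∉ nb) {c' : ℝ}
    (h0 : 0 ≤ c') (h1 : c' ≤ 8 / 10) :
    SideG b zs nb z p h m.1 (tg b zs h c)
      (V3 (Ow b z m.1 0) (tgi b zs m c') (tgo b zs h m.1 c) -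
        V3 (Ow b z m.1 0) (Ow b z m.1 1) (Ow b z m.1 2) + 2 * Real.pi * p (.inr m)) := by
  have h2 := SideG.inner' (b := b) (zs := zs) (nb := nb) (z := z) (p := p) (c := c) m A hn h0
    (by rw [hc]; exact h1)
  rw [OV_three hb hc, OV_three hb hc, Function.update_self,
    Function.update_of_ne (show (2 : Fin 3) ≠ 1 by decide), Function.update_self,
    Function.update_of_ne (show (0 : Fin 3) ≠ 1 by decide),
    Function.update_of_ne (show (0 : Fin 3) ≠ 2 by decide)] at h2
  exact h2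

theorem inner_threeE (m : {i : Fin (M + 1) // (tyW b i).isMid = true})
    (A : Adj h m.1 s j) (hc : clsW b m.1 = .threeE) (hn : Sum.inl (Sum.inr m) ∉ nb) {c' : ℝ}
    (h0 : 0 ≤ c') (h1 : c' ≤ 77 / 100) :
    SideG b zs nb z p h m.1 (tg b zs h c)
      (V3 (tgo b zs h m.1 c) (tgi b zs m c') 0 -
        V3 (Ow b z m.1 s) (Ow b z m.1 1) 0 + 2 * Real.pi * p (.inr m)) := by
  have h2 := SideG.inner' (b := b) (zs := zs) (nb := nb) (z := z) (p := p) (c := c) m A hn h0
    (by rw [hc]; exact h1)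
  rw [A.OV_threeE hc (endOk_upd1 (endOk_upd A (Ow_endOk z m.1) _) _), A.OV_threeE hc (Ow_endOk z m.1),
    Function.update_self, Function.update_of_ne (show s ≠ 1 by rcases A.slot with hs | hs <;> rw [hs] <;> decide),
    Function.update_self] at h2
  exact h2

end SR

end Pool.Agent.Work.MP_b30479_gtS.G2

end

section

/-!
# Mirrored paths: the positions of the neighbours

`NbT`: the real variables are the variables of the regions touched by the tails.  `NPos`: position
of the other hinge of a region, `IPos`: position of the inner variable; the walls.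
-/

namespace Pool.Agent.Work.MP_b30479_gtS.G2

open Finset VOL Filter Topology

namespace SR

variable {M : ℕ} {b : Fin (M + 1) → ℤ} {zs : DD (tyW b) ⊕ ZZ (tyW b) → ℂ}
variable {R : Finset (DD (tyW b))} {nb : Finset (DD (tyW b) ⊕ ZZ (tyW b))}
variable {z : DD (tyW b) ⊕ ZZ (tyW b) → ℂ} {p : DD (tyW b) → ℝ}
variable {h h' : Fin M} {i j j' : Fin (M + 1)} {s : Fin 3} {x c : ℝ}

/-- the region `m` is touched by a tail -/
def Tch (b : Fin (M + 1) → ℤ) (R : Finset (DD (tyW b))) (m : Fin (M + 1)) : Prop :=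
  ∃ d ∈ R, ∃ q : Fin 3, cf (tyW b) m q (.inl d) ≠ 0

/-- the inner variable of a region at an end with three crossings, the region behind its hinge is
touched -/
def EndM (b : Fin (M + 1) → ℤ) (R : Finset (DD (tyW b))) (v : DD (tyW b) ⊕ ZZ (tyW b)) : Prop :=
  ∃ m : {i : Fin (M + 1) // (tyW b i).isMid = true}, v = .inl (.inr m) ∧
    clsW b m.1 = .threeE ∧ ∃ (h : Fin M) (s : Fin 3) (j : Fin (M + 1)), Adj h m.1 s j ∧ Tch b R j

/-- the real variables: all variables of all touched regions, and the inner variables of the ends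
behind touched regions -/
structure NbT (b : Fin (M + 1) → ℤ) (R : Finset (DD (tyW b)))
    (nb : Finset (DD (tyW b) ⊕ ZZ (tyW b))) : Prop where
  ok : NbOk b R nb
  endM : ∀ v, EndM b R v → v ∈ nb
  conv : ∀ v ∈ nb, (∃ m, Tch b R m ∧ ∃ q, cf (tyW b) m q v ≠ 0) ∨ EndM b R v

open Classical in
/-- all variables of all touched regions, and the inner variables of the ends behind touched
regions -/
noncomputable def nbT (b : Fin (M + 1) → ℤ) (R : Finset (DD (tyW b))) :
    Finset (DD (tyW b) ⊕ ZZ (tyW b)) :=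
  univ.filter fun v => (∃ m, Tch b R m ∧ ∃ q, cf (tyW b) m q v ≠ 0) ∨ EndM b R v

theorem nbT_ok (b : Fin (M + 1) → ℤ) (R : Finset (DD (tyW b))) : NbT b R (nbT b R) := by
  classical
  refine ⟨⟨?_, ?_⟩, ?_, ?_⟩
  · intro i hi
    obtain ⟨m, q, hm⟩ := exists_cf (b := b) (.inl i)
    unfold nbT
    rw [Finset.mem_filter]
    exact ⟨Finset.mem_univ _, Or.inl ⟨m, ⟨i, hi, q, hm⟩, q, hm⟩⟩
  · intro d hd m q hq v q' hq'
    unfold nbT
    rw [Finset.mem_filter]
    exact ⟨Finset.mem_univ _, Or.inl ⟨m, ⟨d, hd, q, hq⟩, q', hq'⟩⟩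
  · intro v hv
    unfold nbT
    rw [Finset.mem_filter]
    exact ⟨Finset.mem_univ _, Or.inr hv⟩
  · intro v hv
    unfold nbT at hv
    rw [Finset.mem_filter] at hv
    exact hv.2

theorem EndM.empty {v : DD (tyW b) ⊕ ZZ (tyW b)} (h0 : EndM b ∅ v) : False := by
  obtain ⟨m, -, -, h, s, j, -, d, hd, -⟩ := h0
  exact absurd hd (Finset.notMem_empty d)

theorem NbT.empty : NbT b ∅ ∅ := ⟨NbOk.empty, fun _ h0 => h0.empty.elim, by simp⟩

theorem nbT_empty : nbT b ∅ = ∅ := by
  classical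
  unfold nbT
  rw [Finset.filter_eq_empty_iff]
  rintro v - (⟨m, ⟨d, hd, -⟩, -⟩ | h0)
  · exact absurd hd (Finset.notMem_empty d)
  · exact h0.empty

theorem Adj.cf_ne (A : Adj h i s j) : cf (tyW b) i s (.inl (.inl h)) ≠ 0 := by
  cases A <;> simp [cf]

/-- a region with a hinge which is not real is not touched -/
theorem NbT.not_tch (hN : NbT b R nb) (A : Adj h i s j) (hn : Sum.inl (Sum.inl h) ∉ nb) :
    ¬ Tch b R i := by
  rintro ⟨d, hd, q, hq⟩
  exact hn (hN.ok.2 d hd i q hq _ s A.cf_ne)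

/-- all variables of a touched region are real -/
theorem NbT.mem (hN : NbT b R nb) {m : Fin (M + 1)} (hm : Tch b R m)
    {v : DD (tyW b) ⊕ ZZ (tyW b)} {q : Fin 3} (hq : cf (tyW b) m q v ≠ 0) : v ∈ nb := by
  obtain ⟨d, hd, q', hq'⟩ := hm
  exact hN.ok.2 d hd m q' hq' v q hq

theorem NbT.conv_hinge (hN : NbT b R nb) (hn : Sum.inl (Sum.inl h') ∈ nb) :
    ∃ m, Tch b R m ∧ ∃ q, cf (tyW b) m q (.inl (.inl h')) ≠ 0 := by
  rcases hN.conv _ hn with h1 | ⟨m, e, -⟩
  · exact h1
  · simp at e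

theorem NbT.conv_ring (hN : NbT b R nb) {v : ZZ (tyW b)} (hn : Sum.inr v ∈ nb) :
    ∃ m, Tch b R m ∧ ∃ q, cf (tyW b) m q (.inr v) ≠ 0 := by
  rcases hN.conv _ hn with h1 | ⟨m, e, -⟩
  · exact h1
  · simp at e

/-- two hinges in the same slot of a region are equal -/
theorem Adj.eq_of_slot {k k' : Fin (M + 1)} (A : Adj h i s k) (A' : Adj h' i s k') : h = h' := by
  generalize hi : i = i' at A'
  generalize hs : s = s' at A'
  cases A with
  | l =>
    cases A' with
    | l => exact Fin.castSucc_injective _ hi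
    | r => exact absurd hs (by decide)
  | r =>
    cases A' with
    | l => exact absurd hs (by decide)
    | r => exact Fin.succ_injective _ hi

/-- an end has one hinge -/
theorem Adj.slot_end {s' : Fin 3} (A : Adj h i s j) (A' : Adj h' i s' j') (he : isEnd i = true) :
    s = s' := by
  unfold isEnd at he
  have he' := of_decide_eq_true he
  cases A with
  | l =>
    have h0 : h.castSucc = 0 := he'.resolve_right (Fin.castSucc_lt_last h).ne
    generalize hi : h.castSucc = i' at A' h0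
    cases A' with
    | l => rfl
    | r => exact absurd h0 (Fin.succ_ne_zero _)
  | r =>
    have h0 : h.succ = Fin.last M := he'.resolve_left (Fin.succ_ne_zero h)
    generalize hi : h.succ = i' at A' h0
    cases A' with
    | l => exact absurd h0 (Fin.castSucc_lt_last _).ne
    | r => rfl

/-- the region behind a real hinge of an untouched region is touched -/
theorem NbT.beyond (hN : NbT b R nb) (A' : Adj h' i s j') (hi : ¬ Tch b R i)
    (hn : Sum.inl (Sum.inl h') ∈ nb) : Tch b R j' ∧ (Sum.inl h' : DD (tyW b)) ∉ R := by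
  constructor
  · obtain ⟨m, hm, q, hq⟩ := hN.conv_hinge hn
    have h1 := cf_hinge_ne hq
    rcases h1 with ⟨e, -⟩ | ⟨e, -⟩
    · cases A'
      · exact absurd (e ▸ hm) hi
      · exact e ▸ hm
    · cases A'
      · exact e ▸ hm
      · exact absurd (e ▸ hm) hi
  · intro hR
    exact hi ⟨_, hR, s, A'.cf_ne⟩

/-! ### the other hinge -/

/-- position of the hinge `h'` (in the slot `s` of the region `i`) in the frame of the region `i` -/
inductive NPos (b : Fin (M + 1) → ℤ) (zs : DD (tyW b) ⊕ ZZ (tyW b) → ℂ)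
    (nb : Finset (DD (tyW b) ⊕ ZZ (tyW b))) (p : DD (tyW b) → ℝ) (h' : Fin M) (i : Fin (M + 1))
    (s : Fin 3) (X : ℂ) : Prop
  | main (y : ℝ) (y0 : 0 ≤ y) (y1 : y ≤ wXM b h') (hn : Sum.inl (Sum.inl h') ∉ nb)
      (e : X = ⟨y, Th b zs h' i * trh b h' y⟩) (hp : p (.inl h') = 0)
  | real (y : ℝ) (y0 : 0 ≤ y) (y1 : y ≤ wXM b h') (hn : Sum.inl (Sum.inl h') ∈ nb)
      (e : X = ⟨y, 0⟩) (hp : p (.inl h') = 0)
  | up (y : ℝ) (y0 : 0 ≤ y) (y1 : y ≤ wXM b h') (hn : Sum.inl (Sum.inl h') ∉ nb)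
      (hr : ¬ RH1 b (.inl h')) (hT : Th b zs h' i ≤ 0)
      (e : X = ⟨y, mhs b h' s.rev * trh b h' y⟩) (hp : p (.inl h') = mhs b h' s.rev * trh b h' y)
  | dn (y : ℝ) (y0 : 0 ≤ y) (y1 : y ≤ wXM b h') (hn : Sum.inl (Sum.inl h') ∉ nb)
      (hr : ¬ RH1 b (.inl h')) (hT : 0 ≤ Th b zs h' i)
      (e : X = ⟨y, -(mhs b h' s * trh b h' y)⟩) (hp : p (.inl h') = mhs b h' s * trh b h' y)

theorem MM.pstN (hR : ∀ i ∈ R, Sum.inl i ∈ nb) (hM : MM b zs R nb z p) {i : DD (tyW b)}
    (hn : Sum.inl i ∉ nb) (hr : ¬ RH1 b i) :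
    ∃ x : ℝ, 0 ≤ x ∧ x ≤ (wpar b zs).XM i ∧ (z (.inl i)).re = x ∧
      (((z (.inl i)).im = (zs (.inl i)).im *
          tr 0 ((wpar b zs).XM i) ((wpar b zs).cl i) ((wpar b zs).cr i) x ∧ p i = 0) ∨
        ((zs (.inl i)).im ≤ 0 ∧ (z (.inl i)).im = mtu b i *
          tr 0 ((wpar b zs).XM i) ((wpar b zs).cl i) ((wpar b zs).cr i) x ∧ p i = mtu b i *
          tr 0 ((wpar b zs).XM i) ((wpar b zs).cl i) ((wpar b zs).cr i) x) ∨
        (0 ≤ (zs (.inl i)).im ∧ (z (.inl i)).im = -(mtd b i *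
          tr 0 ((wpar b zs).XM i) ((wpar b zs).cl i) ((wpar b zs).cr i) x) ∧ p i = mtd b i *
          tr 0 ((wpar b zs).XM i) ((wpar b zs).cl i) ((wpar b zs).cr i) x)) := by
  have hhu : (wparM b zs).hu i = if 0 < (zs (.inl i)).im then (zs (.inl i)).im else mtu b i := by
    show mhu b zs i = _
    rcases i with h | m
    · simp only [RH1] at hr
      simp only [mhu, if_neg hr]
    · rfl
  have hhd : (wparM b zs).hd i = if (zs (.inl i)).im < 0 then -(zs (.inl i)).im else mtd b i := by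
    show mhd b zs i = _
    rcases i with h | m
    · simp only [RH1] at hr
      simp only [mhd, if_neg hr]
    · rfl
  obtain ⟨x, h0, h1, h2⟩ := hM.adm.onD i hn
  refine ⟨x, h0, h1, ?_, ?_⟩
  · rcases h2 with h2 | h2 | h2 <;> rw [h2.1, ptm_re]
  · have ht := tr_mem 0 ((wpar b zs).XM i) ((wpar b zs).cl i) ((wpar b zs).cr i) x
    rcases h2 with ⟨e1, e2⟩ | ⟨e1, e2⟩ | ⟨e1, e2⟩
    · left
      rw [e1, ptm_im]
      exact ⟨rfl, e2⟩
    · rw [hhu] at e1 e2
      by_cases hT : 0 < (zs (.inl i)).im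
      · left
        rw [if_pos hT] at e1 e2
        have h3 : p i ≤ 0 := hM.pen_zero hR hn ⟨x, h0, h1, Or.inl ⟨e1, rfl⟩⟩
        refine ⟨by rw [e1, ptm_im]; rfl, le_antisymm h3 ?_⟩
        rw [e2]
        exact mul_nonneg hT.le ht.1
      · right; left
        rw [if_neg hT] at e1 e2
        exact ⟨not_lt.1 hT, by rw [e1, ptm_im]; rfl, e2⟩
    · rw [hhd] at e1 e2
      by_cases hT : (zs (.inl i)).im < 0
      · left
        rw [if_pos hT] at e1 e2
        have e1' : z (.inl i) = pt 0 ((wparM b zs).XM i) ((wparM b zs).cl i)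
            ((wparM b zs).cr i) (zs (.inl i)).im x := by
          rw [e1, neg_neg]
        have h3 : p i ≤ 0 := hM.pen_zero hR hn ⟨x, h0, h1, Or.inl ⟨e1', rfl⟩⟩
        refine ⟨by rw [e1', ptm_im]; rfl, le_antisymm h3 ?_⟩
        rw [e2]
        exact mul_nonneg (by linarith only [hT]) ht.1
      · right; right
        rw [if_neg hT] at e1 e2
        refine ⟨not_lt.1 hT, ?_, e2⟩
        rw [e1, ptm_im, neg_mul]
        rfl

/-- **Position of a hinge** in the frame of one of its regions. -/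
theorem MM.npos0 (hb : ClassW b) (hR : ∀ i ∈ R, Sum.inl i ∈ nb) (hM : MM b zs R nb z p)
    (hq : ∀ h : Fin M, RH1 b (.inl h) → p (.inl h) = 0) (A' : Adj h' i s j')
    (hnR : (Sum.inl h' : DD (tyW b)) ∉ R) : NPos b zs nb p h' i s (Ow b z i s) := by
  have hcx : ∀ {X Y : ℂ}, X.re = Y.re → X.im = Y.im → X = Y := fun h1 h2 => Complex.ext h1 h2
  rw [Ow_adj z A']
  by_cases hn : Sum.inl (Sum.inl h') ∈ nb
  · obtain ⟨e1, e2, e3, e4⟩ := hM.adm.reD _ hnR hn
    refine .real (z (.inl (.inl h'))).re e2 e3 hn (hcx (ofr_re _ _) ?_) e4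
    rw [ofr_im, e1, ofs_zero]
  by_cases hr : RH1 b (.inl h')
  · have hp0 := hq h' hr
    obtain ⟨x, h0, h1, h2⟩ := hM.adm.onD (.inl h') hn
    have hu : 0 < (wparM b zs).hu (.inl h') := (mh_pos (b := b) (zs := zs) (.inl h')).1
    have hd : 0 < (wparM b zs).hd (.inl h') := (mh_pos (b := b) (zs := zs) (.inl h')).2
    refine .main x h0 h1 hn ?_ hp0
    have e : ∀ H : ℝ, H * trh b h' x = 0 → H ≠ 0 → trh b h' x = 0 := by
      intro H h3 h4
      rcases mul_eq_zero.1 h3 with h5 | h5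
      · exact absurd h5 h4
      · exact h5
    rcases h2 with ⟨e1, e2⟩ | ⟨e1, e2⟩ | ⟨e1, e2⟩
    · apply hcx
      · rw [ofr_re, e1, ptm_re]
      · rw [ofr_im, e1, ptm_im, ofs_mulR]
        rfl
    · have h3 : trh b h' x = 0 := e _ (by rw [hp0] at e2; exact e2.symm) hu.ne'
      apply hcx
      · rw [ofr_re, e1, ptm_re]
      · rw [ofr_im, e1, ptm_im, ofs_mulR]
        show _ * trh b h' x = _
        rw [h3]
        simp
    · have h3 : trh b h' x = 0 := e _ (by rw [hp0] at e2; exact e2.symm) hd.ne'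
      apply hcx
      · rw [ofr_re, e1, ptm_re]
      · rw [ofr_im, e1, ptm_im, ofs_mulR]
        show _ * trh b h' x = _
        rw [h3]
        simp
  · have hnr : clsW b i ≠ .ring := by
      intro hc
      apply hr
      cases A'
      · exact Or.inl hc
      · exact Or.inr hc
    obtain ⟨m1, m2⟩ := mt_frame hb A' hnr
    obtain ⟨x, h0, h1, h2, h3⟩ := hM.pstN hR hn hr
    rcases h3 with ⟨e1, e2⟩ | ⟨T0, e1, e2⟩ | ⟨T0, e1, e2⟩
    · refine .main x h0 h1 hn (hcx ?_ ?_) e2
      · rw [ofr_re, h2]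
      · rw [ofr_im, e1, ofs_mulR]
        rfl
    · by_cases hb : 0 < b i
      · rw [if_pos hb] at m1 m2
        rw [m1] at e1 e2
        refine .up x h0 h1 hn hr ?_ (hcx ?_ ?_) e2
        · unfold Th
          rw [ofs_pos hb]
          exact T0
        · rw [ofr_re, h2]
        · rw [ofr_im, e1, ofs_pos hb]
          rfl
      · have ho : ∀ m : ℝ, ofs (b i) m = -m := fun m => by unfold ofs; rw [if_neg hb]
        rw [if_neg hb] at m1 m2
        rw [m2] at e1 e2
        refine .dn x h0 h1 hn hr ?_ (hcx ?_ ?_) e2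
        · unfold Th
          rw [ho]
          linarith only [T0]
        · rw [ofr_re, h2]
        · rw [ofr_im, e1, ho]
          rfl
    · by_cases hb : 0 < b i
      · rw [if_pos hb] at m1 m2
        rw [m2] at e1 e2
        refine .dn x h0 h1 hn hr ?_ (hcx ?_ ?_) e2
        · unfold Th
          rw [ofs_pos hb]
          exact T0
        · rw [ofr_re, h2]
        · rw [ofr_im, e1, ofs_pos hb]
          rfl
      · have ho : ∀ m : ℝ, ofs (b i) m = -m := fun m => by unfold ofs; rw [if_neg hb]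
        rw [if_neg hb] at m1 m2
        rw [m1] at e1 e2
        refine .up x h0 h1 hn hr ?_ (hcx ?_ ?_) e2
        · unfold Th
          rw [ho]
          linarith only [T0]
        · rw [ofr_re, h2]
        · rw [ofr_im, e1, ho, neg_neg]
          rfl

/-- **The other hinge** of a region of a hinge which is not real. -/
theorem MM.npos (hb : ClassW b) (hN : NbT b R nb) (hM : MM b zs R nb z p)
    (hq : ∀ h : Fin M, RH1 b (.inl h) → p (.inl h) = 0) (A : Adj h i s j)
    (hn : Sum.inl (Sum.inl h) ∉ nb) (A' : Adj h' i s.rev j') :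
    NPos b zs nb p h' i s.rev (Ow b z i s.rev) :=
  hM.npos0 hb hN.ok.1 hq A' fun hR => hN.not_tch A hn ⟨_, hR, s.rev, A'.cf_ne⟩

theorem NPos.re {X : ℂ} (h0 : NPos b zs nb p h' i s X) : 0 ≤ X.re ∧ X.re ≤ wXM b h' := by
  cases h0 with
  | main y y0 y1 hn e hp => rw [e]; exact ⟨y0, y1⟩
  | real y y0 y1 hn e hp => rw [e]; exact ⟨y0, y1⟩
  | up y y0 y1 hn hr hT e hp => rw [e]; exact ⟨y0, y1⟩
  | dn y y0 y1 hn hr hT e hp => rw [e]; exact ⟨y0, y1⟩

theorem trh_mem (h : Fin M) (x : ℝ) : 0 ≤ trh b h x ∧ trh b h x ≤ 1 := tr_mem _ _ _ _ _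

/-- all positions are in the trapezoid of height `H` -/
theorem NPos.abs_im {X : ℂ} (h0 : NPos b zs nb p h' i s X) {H : ℝ}
    (h1 : |Th b zs h' i| ≤ H) (h2 : ¬ RH1 b (.inl h') → mhs b h' s.rev ≤ H ∧ mhs b h' s ≤ H) :
    |X.im| ≤ H * trh b h' X.re := by
  have ht := trh_mem (b := b) h' X.re
  have hH : 0 ≤ H := (abs_nonneg _).trans h1
  cases h0 with
  | main y y0 y1 hn e hp =>
    rw [e] at ht ⊢
    show |Th b zs h' i * trh b h' y| ≤ H * trh b h' y
    rw [abs_mul, abs_of_nonneg ht.1]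
    exact mul_le_mul_of_nonneg_right h1 ht.1
  | real y y0 y1 hn e hp =>
    rw [e] at ht ⊢
    show |(0 : ℝ)| ≤ H * trh b h' y
    rw [abs_zero]
    exact mul_nonneg hH ht.1
  | up y y0 y1 hn hr hT e hp =>
    rw [e] at ht ⊢
    have h3 := mul_le_mul_of_nonneg_right (h2 hr).1 ht.1
    have h4 := mul_nonneg (mhs_pos (b := b) h' s.rev).le ht.1
    show |mhs b h' s.rev * trh b h' y| ≤ H * trh b h' y
    rw [abs_of_nonneg h4]
    exact h3
  | dn y y0 y1 hn hr hT e hp =>
    rw [e] at ht ⊢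
    have h3 := mul_le_mul_of_nonneg_right (h2 hr).2 ht.1
    have h4 := mul_nonneg (mhs_pos (b := b) h' s).le ht.1
    show |-(mhs b h' s * trh b h' y)| ≤ H * trh b h' y
    rw [abs_neg, abs_of_nonneg h4]
    exact h3

/-- the hinge `h'` moved to `c'` on its main path -/
theorem SideG.hinge' (A : Adj h i s j) (A' : Adj h' i s.rev j') (hn : Sum.inl (Sum.inl h') ∉ nb)
    {c' : ℝ} (h0 : 0 ≤ c') (h1 : c' ≤ wXM b h') :
    SideG b zs nb z p h i (tg b zs h c)
      (OV b i (Function.update (Function.update (Ow b z i) s (tgo b zs h i c)) s.rev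
        (tgo b zs h' i c')) - OV b i (Ow b z i) +
      (OV b j' (Function.update (Ow b z j') s (tgo b zs h' j' c')) - OV b j' (Ow b z j')) +
      2 * Real.pi * p (.inl h')) := by
  have h2 := SideG.hinge (b := b) (zs := zs) (nb := nb) (z := z) (p := p) A A' (tg b zs h c)
    (tg b zs h' c') 0 hn (onP_tg h0 h1)
  rw [ofr_tg, ofr_tg, ofr_tg] at h2
  refine h2.mono (le_of_eq ?_)
  ring

/-! ### the inner variable -/

/-- height of the saddle point at the inner variable in the own frame -/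
noncomputable def Tm (b : Fin (M + 1) → ℤ) (zs : DD (tyW b) ⊕ ZZ (tyW b) → ℂ)
    (m : {i : Fin (M + 1) // (tyW b i).isMid = true}) : ℝ := ofs (b m.1) (zs (.inl (.inr m))).im

/-- ramp function of the inner variable -/
noncomputable def trm (b : Fin (M + 1) → ℤ) (m : {i : Fin (M + 1) // (tyW b i).isMid = true})
    (x : ℝ) : ℝ := tr 0 (mp (clsW b m.1)).XM (mp (clsW b m.1)).cl (mp (clsW b m.1)).cr x

/-- position of the inner variable in the own frame -/
inductive IPos (b : Fin (M + 1) → ℤ) (zs : DD (tyW b) ⊕ ZZ (tyW b) → ℂ) (p : DD (tyW b) → ℝ)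
    (m : {i : Fin (M + 1) // (tyW b i).isMid = true}) (X : ℂ) : Prop
  | main (y : ℝ) (y0 : 0 ≤ y) (y1 : y ≤ (mp (clsW b m.1)).XM) (e : X = ⟨y, Tm b zs m * trm b m y⟩)
      (hp : p (.inr m) = 0)
  | up (y : ℝ) (y0 : 0 ≤ y) (y1 : y ≤ (mp (clsW b m.1)).XM) (hT : Tm b zs m ≤ 0)
      (e : X = ⟨y, 16 / 100 * trm b m y⟩) (hp : p (.inr m) = 16 / 100 * trm b m y)
  | dn (y : ℝ) (y0 : 0 ≤ y) (y1 : y ≤ (mp (clsW b m.1)).XM) (hT : 0 ≤ Tm b zs m)
      (e : X = ⟨y, -(16 / 100 * trm b m y)⟩) (hp : p (.inr m) = 16 / 100 * trm b m y)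

theorem cf_inner_ne {m : {i : Fin (M + 1) // (tyW b i).isMid = true}} {k : Fin (M + 1)}
    {q : Fin 3} (h0 : cf (tyW b) k q (.inl (.inr m)) ≠ 0) : m.1 = k := by
  by_contra hc
  simp [cf, hc] at h0

/-- the inner variable of an untouched interior region is not real -/
theorem NbT.inner_nn (hN : NbT b R nb) (m : {i : Fin (M + 1) // (tyW b i).isMid = true})
    (ht : ¬ Tch b R m.1) (hc : clsW b m.1 ≠ .threeE) : Sum.inl (Sum.inr m) ∉ nb := by
  intro hn
  rcases hN.conv _ hn with ⟨k, hk, q, hq⟩ | ⟨m', e, h2, -⟩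
  · exact ht (cf_inner_ne hq ▸ hk)
  · obtain rfl : m = m' := by simpa using e
    exact hc h2

/-- the inner variable of a region with a hinge which is not real is not real -/
theorem NbT.inner_nnA (hN : NbT b R nb) (m : {i : Fin (M + 1) // (tyW b i).isMid = true})
    (A : Adj h m.1 s j) (hn : Sum.inl (Sum.inl h) ∉ nb) : Sum.inl (Sum.inr m) ∉ nb := by
  intro hm
  rcases hN.conv _ hm with ⟨k, hk, q, hq⟩ | ⟨m', e, h2, h', s', j', A', ht⟩
  · exact hN.not_tch A hn (cf_inner_ne hq ▸ hk)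
  · obtain rfl : m = m' := by simpa using e
    have e2 : s = s' := A.slot_end A' (clsW_end (Or.inr h2))
    subst e2
    have e3 : h = h' := A.eq_of_slot A'
    subst e3
    exact hn (hN.mem ht A'.symm.cf_ne)

/-- the hinge of an end whose inner variable is not real is not real -/
theorem NbT.end_nn (hN : NbT b R nb) (m : {i : Fin (M + 1) // (tyW b i).isMid = true})
    (A : Adj h m.1 s j) (hc : clsW b m.1 = .threeE) (hn : Sum.inl (Sum.inr m) ∉ nb) :
    Sum.inl (Sum.inl h) ∉ nb := by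
  intro hh
  have h0 : ¬ Tch b R m.1 := fun h1 => hn (hN.mem h1 (q := 1) (by simp [cf]))
  exact hn (hN.endM _ ⟨m, rfl, hc, h, s, j, A, (hN.beyond A h0 hh).1⟩)

theorem Ow_inner (m : {i : Fin (M + 1) // (tyW b i).isMid = true})
    (z : DD (tyW b) ⊕ ZZ (tyW b) → ℂ) : Ow b z m.1 1 = ofr (b m.1) (z (.inl (.inr m))) := by
  unfold Ow
  rw [own_one]
  · exact congrArg _ (xx_mid (tyW b) m.2 z)
  · intro h0
    have := m.2
    rw [h0] at this
    simp [Typ.isMid] at this

theorem MM.ipos0 (hR : ∀ i ∈ R, Sum.inl i ∈ nb) (hM : MM b zs R nb z p)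
    (m : {i : Fin (M + 1) // (tyW b i).isMid = true}) (hn : Sum.inl (Sum.inr m) ∉ nb) :
    IPos b zs p m (Ow b z m.1 1) := by
  have hcx : ∀ {X Y : ℂ}, X.re = Y.re → X.im = Y.im → X = Y := fun h1 h2 => Complex.ext h1 h2
  rw [Ow_inner]
  obtain ⟨x, h0, h1, h2, h3⟩ := hM.pstN hR (i := .inr m) hn (by simp [RH1])
  have hm1 : mtu b (.inr m) = 16 / 100 := rfl
  have hm2 : mtd b (.inr m) = 16 / 100 := rfl
  rw [hm1, hm2] at h3
  rcases h3 with ⟨e1, e2⟩ | ⟨T0, e1, e2⟩ | ⟨T0, e1, e2⟩
  · refine .main x h0 h1 (hcx ?_ ?_) e2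
    · rw [ofr_re, h2]
    · rw [ofr_im, e1, ofs_mulR]
      rfl
  · by_cases hb : 0 < b m.1
    · refine .up x h0 h1 ?_ (hcx ?_ ?_) e2
      · unfold Tm
        rw [ofs_pos hb]
        exact T0
      · rw [ofr_re, h2]
      · rw [ofr_im, e1, ofs_pos hb]
        rfl
    · have ho : ∀ t : ℝ, ofs (b m.1) t = -t := fun t => by unfold ofs; rw [if_neg hb]
      refine .dn x h0 h1 ?_ (hcx ?_ ?_) e2
      · unfold Tm
        rw [ho]
        linarith only [T0]
      · rw [ofr_re, h2]
      · rw [ofr_im, e1, ho]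
        rfl
  · by_cases hb : 0 < b m.1
    · refine .dn x h0 h1 ?_ (hcx ?_ ?_) e2
      · unfold Tm
        rw [ofs_pos hb]
        exact T0
      · rw [ofr_re, h2]
      · rw [ofr_im, e1, ofs_pos hb]
        rfl
    · have ho : ∀ t : ℝ, ofs (b m.1) t = -t := fun t => by unfold ofs; rw [if_neg hb]
      refine .up x h0 h1 ?_ (hcx ?_ ?_) e2
      · unfold Tm
        rw [ho]
        linarith only [T0]
      · rw [ofr_re, h2]
      · rw [ofr_im, e1, ho, neg_neg]
        rfl

/-- **The inner variable** of a region with a hinge which is not real. -/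
theorem MM.ipos (hN : NbT b R nb) (hM : MM b zs R nb z p)
    (m : {i : Fin (M + 1) // (tyW b i).isMid = true}) (A : Adj h m.1 s j)
    (hn : Sum.inl (Sum.inl h) ∉ nb) :
    Sum.inl (Sum.inr m) ∉ nb ∧ IPos b zs p m (Ow b z m.1 1) :=
  ⟨hN.inner_nnA m A hn, hM.ipos0 hN.ok.1 m (hN.inner_nnA m A hn)⟩

/-! ### walls -/

/-- the walls of a touched region -/
theorem MM.wallR (hN : NbT b R nb) (hM : MM b zs R nb z p) (ht : Tch b R i)
    (hr : ∀ v : ZZ (tyW b), v.1 ≠ i) {f : Fac}
    (hf : f ∈ facs (tyW b i) (decide (i ≠ 0)) (decide (i ≠ Fin.last M))) :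
    (f.form (xx (tyW b) i z)).re ≤ 1 := by
  obtain ⟨n, hn, rfl⟩ := List.mem_iff_getElem.1 hf
  have h1 := hM.adm.wall ⟨i, ⟨n, hn⟩⟩ ?_ ?_
  · rw [wdat_form] at h1
    exact h1
  · intro v
    simp only [wdat]
    refine Finset.sum_eq_zero fun q _ => ?_
    have : cf (tyW b) i q (.inr v) = 0 := by
      simp [cf, hr v]
    rw [this]
    simp
  · intro d hd
    simp only [wdat] at hd
    obtain ⟨q, -, hq⟩ := Finset.exists_ne_zero_of_sum_ne_zero hd
    refine hN.mem ht (q := q) ?_
    intro h0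
    apply hq
    rw [h0]
    simp

theorem ring_ne (hc : clsW b i ≠ .ring) (v : ZZ (tyW b)) : v.1 ≠ i := by
  intro e
  have h1 := tyW_ring v.2
  rw [e] at h1
  apply hc
  by_contra h2
  have : clsW b i = .one ∨ clsW b i = .two ∨ clsW b i = .twoE ∨ clsW b i = .three ∨
      clsW b i = .threeE := by
    rcases hcl : clsW b i <;> simp_all
  rcases this with h3 | h3 | h3 | h3 | h3
  · rw [tyW_of_one h3] at h1; exact absurd h1 (by decide)
  · rw [tyW_of_two (Or.inl h3)] at h1; exact absurd h1 (by decide)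
  · rw [tyW_of_two (Or.inr h3)] at h1; exact absurd h1 (by decide)
  · rw [tyW_of_three h3] at h1; exact absurd h1 (by decide)
  · have h4 := clsW_nat3 (Or.inr h3)
    unfold tyW at h1
    rw [if_neg (by omega), if_neg (by omega), if_pos h4] at h1
    split_ifs at h1

theorem Ow_re0 (z : DD (tyW b) ⊕ ZZ (tyW b) → ℂ) (i : Fin (M + 1)) :
    (Ow b z i 0).re = (xx (tyW b) i z 0).re := by
  unfold Ow
  rw [own_zero, ofr_re]

theorem Ow_re2 (z : DD (tyW b) ⊕ ZZ (tyW b) → ℂ) (i : Fin (M + 1)) :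
    (Ow b z i 2).re = (xx (tyW b) i z 2).re := by
  unfold Ow
  rw [own_two, ofr_re]

theorem Ow_re1 (z : DD (tyW b) ⊕ ZZ (tyW b) → ℂ) (h : tyW b i ≠ .ring) :
    (Ow b z i 1).re = (xx (tyW b) i z 1).re := by
  unfold Ow
  rw [own_one h, ofr_re]

/-- wall of a touched region with one crossing or with two crossings -/
theorem MM.wall12 (hb : ClassW b) (hN : NbT b R nb) (hM : MM b zs R nb z p) (ht : Tch b R i)
    (hc : clsW b i = .one ∨ clsW b i = .two) :
    (Ow b z i 0).re + (Ow b z i 2).re ≤ 1 := by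
  rw [Ow_re0, Ow_re2]
  have hr : clsW b i ≠ .ring := by
    rcases hc with h | h <;> rw [h] <;> decide
  have he : isEnd i = false := by
    rcases hc with h | h
    · exact clsW_inner hb (Or.inl h)
    · exact clsW_inner hb (Or.inr (Or.inl h))
  unfold isEnd at he
  have he' := of_decide_eq_false he
  rw [not_or] at he'
  have e0 : decide (i ≠ 0) = true := by simpa using he'.1
  have e2 : decide (i ≠ Fin.last M) = true := by simpa using he'.2
  have h1 := hM.wallR hN ht (ring_ne hr) (f := ⟨![1, 0, 1], 0, 1 / 2⟩) (by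
    rw [e0, e2]
    rcases hc with h | h
    · rw [tyW_of_one h]; simp [facs]
    · rw [tyW_of_two (Or.inl h)]; simp [facs])
  simp only [Fac.form, Fin.sum_univ_three] at h1
  simpa using h1

/-- walls of a touched interior region with three crossings -/
theorem MM.wall3 (hN : NbT b R nb) (hM : MM b zs R nb z p) (ht : Tch b R i)
    (hc : clsW b i = .three) :
    (Ow b z i 1).re + (Ow b z i 2).re ≤ 1 ∧ (Ow b z i 0).re ≤ (Ow b z i 1).re := by
  have hty := tyW_of_three hc
  have hr : clsW b i ≠ .ring := by rw [hc]; decide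
  rw [Ow_re0, Ow_re1 z (by rw [hty]; decide), Ow_re2]
  have h1 := hM.wallR hN ht (ring_ne hr) (f := ⟨![0, 1, 1], 0, 1 / 2⟩) (by
    rw [hty]; simp [facs])
  have h2 := hM.wallR hN ht (ring_ne hr) (f := ⟨![1, -1, 0], 1, -(1 / 2)⟩) (by
    rw [hty]; simp [facs])
  simp only [Fac.form, Fin.sum_univ_three] at h1 h2
  constructor
  · simpa using h1
  · simp at h2
    linarith only [h2]

/-- the tail -/
theorem MM.tail_re (hM : MM b zs R nb z p) {d : DD (tyW b)} (hd : d ∈ R) :
    (wpar b zs).XM d ≤ (z (.inl d)).re := (hM.adm.tail d hd).2.1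

theorem adj_of_cf {m : Fin (M + 1)} {q : Fin 3} (h0 : cf (tyW b) m q (.inl (.inl h)) ≠ 0) :
    ∃ k, Adj h m q k := by
  rcases cf_hinge_ne h0 with ⟨rfl, rfl⟩ | ⟨rfl, rfl⟩
  · exact ⟨_, .l⟩
  · exact ⟨_, .r⟩

theorem wXM_ge (A : Adj h i s j) (hi : clsW b i ≠ .ring) : 6 / 10 ≤ wXM b h := by
  have key : ∀ P A B Q : Cl, (A ≠ .ring ∨ B ≠ .ring) → (6 : ℝ) / 10 ≤ (hp P A B Q).XM := by
    intro P A B Q hAB
    rcases A <;> rcases B <;> simp only [hp, hp1] <;> first
      | (split_ifs <;> norm_num; done)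
      | (norm_num; done)
      | (rcases hAB with hAB | hAB <;> exact absurd rfl hAB)
  unfold wXM
  apply key
  cases A
  · exact Or.inl hi
  · exact Or.inr hi

/-- **A real hinge** of an untouched region: the walls of the region behind. -/
theorem MM.real_le (hb : ClassW b) (hN : NbT b R nb) (hM : MM b zs R nb z p)
    (A' : Adj h' i s j') (hi : ¬ Tch b R i) (hn : Sum.inl (Sum.inl h') ∈ nb)
    (hc : clsW b j' = .one ∨ clsW b j' = .two ∨ (clsW b j' = .three ∧ s = 0)) :
    (Ow b z i s).re ≤ 2 / 5 := by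
  obtain ⟨ht, hR⟩ := hN.beyond A' hi hn
  have e1 : (Ow b z i s).re = (Ow b z j' s.rev).re := by
    rw [Ow_adj z A', Ow_adj z A'.symm, ofr_re, ofr_re]
  rw [e1]
  have hnr : clsW b j' ≠ .ring := by
    rcases hc with h | h | ⟨h, -⟩ <;> rw [h] <;> decide
  have hslot := A'.slot
  have key : ∀ {h2 : Fin M} {q : Fin 3} {k}, (Sum.inl h2 : DD (tyW b)) ∈ R → Adj h2 j' q k →
      q = s ∧ 6 / 10 ≤ (Ow b z j' q).re := by
    intro h2 q k h2R A2
    constructor
    · by_contra hq
      have h3 : q = s.rev := by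
        rcases A2.slot with rfl | rfl <;> rcases hslot with rfl | rfl
        · exact absurd rfl hq
        · rfl
        · rfl
        · exact absurd rfl hq
      subst h3
      exact hR (A2.eq_of_slot A'.symm ▸ h2R)
    · rw [Ow_adj z A2, ofr_re]
      exact (wXM_ge A2 hnr).trans (hM.tail_re h2R)
  have ht' := ht
  obtain ⟨d, hd, q, hq⟩ := ht
  rcases hc with hc | hc
  · have h1 := hM.wall12 hb hN ht' (Or.inl hc)
    rcases d with h2 | m
    · obtain ⟨k, A2⟩ := adj_of_cf hq
      obtain ⟨rfl, h3⟩ := key hd A2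
      rcases hslot with rfl | rfl
      · show (Ow b z j' 2).re ≤ 2 / 5
        linarith only [h1, h3]
      · show (Ow b z j' 0).re ≤ 2 / 5
        linarith only [h1, h3]
    · exfalso
      have h2 := m.2
      rw [cf_inner_ne hq, tyW_of_one hc] at h2
      exact absurd h2 (by decide)
  rcases hc with hc | ⟨hc, rfl⟩
  · have h1 := hM.wall12 hb hN ht' (Or.inr hc)
    rcases d with h2 | m
    · obtain ⟨k, A2⟩ := adj_of_cf hq
      obtain ⟨rfl, h3⟩ := key hd A2
      rcases hslot with rfl | rfl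
      · show (Ow b z j' 2).re ≤ 2 / 5
        linarith only [h1, h3]
      · show (Ow b z j' 0).re ≤ 2 / 5
        linarith only [h1, h3]
    · exfalso
      have h2 := m.2
      rw [cf_inner_ne hq, tyW_of_two (Or.inl hc)] at h2
      exact absurd h2 (by decide)
  · obtain ⟨h1, h2⟩ := hM.wall3 hN ht' hc
    show (Ow b z j' 2).re ≤ 2 / 5
    rcases d with h2' | m
    · obtain ⟨k, A2⟩ := adj_of_cf hq
      obtain ⟨rfl, h3⟩ := key hd A2
      linarith only [h1, h2, h3]
    · have e : m.1 = j' := cf_inner_ne hq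
      subst e
      have h3 := hM.tail_re hd
      have h4 : (wpar b zs).XM (.inr m) = 8 / 10 := by
        show (mp (clsW b m.1)).XM = 8 / 10
        rw [hc]
        rfl
      rw [h4] at h3
      rw [Ow_inner, ofr_re] at h1
      linarith only [h1, h3]

/-- no real hinge before an end with two crossings -/
theorem MM.real_twoE (hN : NbT b R nb) (A' : Adj h' i s j') (hi : ¬ Tch b R i)
    (hn : Sum.inl (Sum.inl h') ∈ nb) (hc : clsW b j' = .twoE) : False := by
  obtain ⟨⟨d, hd, q, hq⟩, hR⟩ := hN.beyond A' hi hn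
  rcases d with h2 | m
  · obtain ⟨k, A2⟩ := adj_of_cf hq
    have he := clsW_end (Or.inl hc)
    have hs : q = s.rev := by
      by_contra hq'
      have h3 : q = s := by
        rcases A2.slot with rfl | rfl <;> rcases A'.slot with rfl | rfl
        · rfl
        · exact absurd rfl hq'
        · exact absurd rfl hq'
        · rfl
      subst h3
      -- the end has only one hinge
      unfold isEnd at he
      have he' := of_decide_eq_true he
      cases A' with
      | l =>
        rcases he' with h4 | h4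
        · exact Fin.succ_ne_zero _ h4
        · generalize hj : h'.succ = j2 at A2
          generalize hs2 : (2 : Fin 3) = s2 at A2
          cases A2 with
          | l =>
            rw [h4] at hj
            exact (Fin.castSucc_lt_last h2).ne hj.symm
          | r => exact absurd hs2 (by decide)
      | r =>
        rcases he' with h4 | h4
        · generalize hj : h'.castSucc = j2 at A2
          generalize hs2 : (0 : Fin 3) = s2 at A2
          cases A2 with
          | l => exact absurd hs2 (by decide)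
          | r =>
            rw [h4] at hj
            exact Fin.succ_ne_zero _ hj.symm
        · exact (Fin.castSucc_lt_last h').ne h4
    subst hs
    exact hR (A2.eq_of_slot A'.symm ▸ hd)
  · have h2 := m.2
    rw [cf_inner_ne hq, tyW_of_two (Or.inr hc)] at h2
    exact absurd h2 (by decide)

end SR

end Pool.Agent.Work.MP_b30479_gtS.G2

end

section

/-!
# Mirrored paths: assembly of the kinds of hinges
-/

namespace Pool.Agent.Work.MP_b30479_gtS.G2

open Finset VOL Filter Topology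

namespace SR

variable {M : ℕ} {b : Fin (M + 1) → ℤ} {zs : DD (tyW b) ⊕ ZZ (tyW b) → ℂ}
variable {R : Finset (DD (tyW b))} {nb : Finset (DD (tyW b) ⊕ ZZ (tyW b))}
variable {z : DD (tyW b) ⊕ ZZ (tyW b) → ℂ} {p : DD (tyW b) → ℝ}
variable {h h' : Fin M} {i j j' : Fin (M + 1)} {s : Fin 3} {x c : ℝ}

/-- **Window of the height** of the saddle point at a hinge in the frame of a region which is no
ring. -/
theorem Th_mem (hb : ClassW b) (hL : Loc b zs) (A : Adj h i s j) (hi : clsW b i ≠ .ring) :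
    (hbox (clsW b i) (clsW b j) false).t0 ≤ Th b zs h i ∧
      Th b zs h i ≤ (hbox (clsW b i) (clsW b j) false).t1 := by
  have hs := sign_adj hb A hi
  have hss : ssW b h = false := by
    unfold ssW
    cases A
    · exact decide_eq_false (by linarith)
    · rw [mul_comm] at hs
      exact decide_eq_false (by linarith)
  have h1 := hL.hinge h
  rw [hss] at h1
  obtain ⟨-, -, h3, h4⟩ := h1
  rw [ofr_im] at h3 h4
  cases A with
  | l => exact ⟨h3, h4⟩
  | r =>
    have e : Th b zs h h.succ = -ofs (b h.castSucc) (zs (.inl (.inl h))).im := by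
      unfold Th
      rw [mul_comm] at hs
      exact ofs_neg_of_opp hs _
    rw [e, hbox_swap]
    simp only [Box.neg]
    constructor <;> linarith

/-- a kind of modes does not occur -/
def Kd (b : Fin (M + 1) → ℤ) (zs : DD (tyW b) ⊕ ZZ (tyW b) → ℂ) (A B : Cl) (s : Fin 3) : Prop :=
  ∀ {R : Finset (DD (tyW b))} {nb : Finset (DD (tyW b) ⊕ ZZ (tyW b))}
    {z : DD (tyW b) ⊕ ZZ (tyW b) → ℂ} {p : DD (tyW b) → ℝ} {h : Fin M} {i j : Fin (M + 1)} {x : ℝ},
    NbT b R nb → MM b zs R nb z p → (∀ h : Fin M, RH1 b (.inl h) → p (.inl h) = 0) →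
    Md b zs nb z p h i s j x → clsW b i = A → clsW b j = B → False

/-- **The kinds of hinges.** -/
structure Kinds (b : Fin (M + 1) → ℤ) (zs : DD (tyW b) ⊕ ZZ (tyW b) → ℂ) : Prop where
  one_one : ∀ s, Kd b zs .one .one s
  one_two : ∀ s, Kd b zs .one .two s
  two_one : ∀ s, Kd b zs .two .one s
  one_twoE : ∀ s, Kd b zs .one .twoE s
  twoE_one : ∀ s, Kd b zs .twoE .one s
  /-- the `3` at its slot `0` -/
  one_three : Kd b zs .one .three 2
  /-- the `3` at its slot `2` -/
  one_three' : Kd b zs .one .three 0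
  one_threeE : ∀ s, Kd b zs .one .threeE s
  two_two : ∀ s, Kd b zs .two .two s
  twoE_two : ∀ s, Kd b zs .twoE .two s
  /-- the `3` at its slot `0` -/
  two_three : Kd b zs .two .three 2
  /-- the `3` at its slot `2` -/
  two_three' : Kd b zs .two .three 0
  /-- the `3` at its slot `0` -/
  three_two : Kd b zs .three .two 0
  /-- the `3` at its slot `2` -/
  three_two' : Kd b zs .three .two 2
  two_threeE : ∀ s, Kd b zs .two .threeE s
  threeE_two : ∀ s, Kd b zs .threeE .two s
  twoE_twoE : ∀ s, Kd b zs .twoE .twoE s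
  twoE_three : ∀ s, Kd b zs .twoE .three s
  twoE_threeE : ∀ s, Kd b zs .twoE .threeE s
  threeE_three : ∀ s, Kd b zs .threeE .three s
  threeE_threeE : ∀ s, Kd b zs .threeE .threeE s
  three_three : ∀ s, Kd b zs .three .three s

/-- **The inner variables.** -/
structure Inners (b : Fin (M + 1) → ℤ) (zs : DD (tyW b) ⊕ ZZ (tyW b) → ℂ) : Prop where
  three : ∀ {R : Finset (DD (tyW b))} {nb : Finset (DD (tyW b) ⊕ ZZ (tyW b))}
    {z : DD (tyW b) ⊕ ZZ (tyW b) → ℂ} {p : DD (tyW b) → ℝ}
    (m : {i : Fin (M + 1) // (tyW b i).isMid = true}),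
    NbT b R nb → MM b zs R nb z p → (∀ h : Fin M, p (.inl h) = 0) → clsW b m.1 = .three →
    Sum.inl (Sum.inr m) ∉ nb → p (.inr m) = 0
  threeE : ∀ {R : Finset (DD (tyW b))} {nb : Finset (DD (tyW b) ⊕ ZZ (tyW b))}
    {z : DD (tyW b) ⊕ ZZ (tyW b) → ℂ} {p : DD (tyW b) → ℝ}
    (m : {i : Fin (M + 1) // (tyW b i).isMid = true}),
    NbT b R nb → MM b zs R nb z p → (∀ h : Fin M, p (.inl h) = 0) → clsW b m.1 = .threeE →
    Sum.inl (Sum.inr m) ∉ nb → p (.inr m) = 0

/-- **No modes at the hinges.** -/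
theorem Kinds.hinge (hb : ClassW b) (hL : Loc b zs) (K : Kinds b zs) (hN : NbT b R nb)
    (hM : MM b zs R nb z p) (hq : ∀ h : Fin M, RH1 b (.inl h) → p (.inl h) = 0) (h : Fin M) :
    p (.inl h) = 0 := by
  by_cases hr : RH1 b (.inl h)
  · exact hq h hr
  simp only [RH1, not_or] at hr
  rcases hM.md hb hN.ok.1 h hr.1 hr.2 with h0 | ⟨i, s, j, x, D⟩
  · exact h0
  exfalso
  have hT := Th_mem hb hL D.adj D.ri
  have hT0 := D.T0
  have hri := D.ri
  have hrj := D.rj
  have hs := D.adj.slot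
  rcases hi : clsW b i <;> rcases hj : clsW b j <;> first
    | exact hri hi
    | exact hrj hj
    | exact K.one_one _ hN hM hq D hi hj
    | exact K.one_two _ hN hM hq D hi hj
    | exact K.two_one _ hN hM hq D hi hj
    | exact K.one_twoE _ hN hM hq D hi hj
    | exact K.twoE_one _ hN hM hq D hi hj
    | exact K.one_threeE _ hN hM hq D hi hj
    | exact K.two_two _ hN hM hq D hi hj
    | exact K.twoE_two _ hN hM hq D hi hj
    | exact K.two_threeE _ hN hM hq D hi hj
    | exact K.threeE_two _ hN hM hq D hi hj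
    | exact K.twoE_twoE _ hN hM hq D hi hj
    | exact K.twoE_three _ hN hM hq D hi hj
    | exact K.twoE_threeE _ hN hM hq D hi hj
    | exact K.threeE_three _ hN hM hq D hi hj
    | exact K.threeE_threeE _ hN hM hq D hi hj
    | exact K.three_three _ hN hM hq D hi hj
    | (rcases hs with rfl | rfl
       · exact K.one_three' hN hM hq D hi hj
       · exact K.one_three hN hM hq D hi hj)
    | (rcases hs with rfl | rfl
       · exact K.two_three' hN hM hq D hi hj
       · exact K.two_three hN hM hq D hi hj)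
    | (rcases hs with rfl | rfl
       · exact K.three_two hN hM hq D hi hj
       · exact K.three_two' hN hM hq D hi hj)
    | (rw [hi, hj] at hT
       simp only [hbox] at hT
       linarith [hT.2])

/-- **No modes.** -/
theorem Kinds.none (hb : ClassW b) (hL : Loc b zs) (K : Kinds b zs) (I : Inners b zs)
    (hN : NbT b R nb) (hM : MM b zs R nb z p)
    (hq : ∀ h : Fin M, RH1 b (.inl h) → p (.inl h) = 0) : p = 0 := by
  have hh := K.hinge hb hL hN hM hq
  funext k
  rcases k with h | m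
  · exact hh h
  · show p (.inr m) = 0
    by_cases hn : Sum.inl (Sum.inr m) ∈ nb
    · by_cases hr : (Sum.inr m : DD (tyW b)) ∈ R
      · exact (hM.adm.tail _ hr).2.2.2
      · exact (hM.adm.reD _ hr hn).2.2.2
    · have hmid := m.2
      rcases hc : clsW b m.1
      · rw [tyW_of_one hc] at hmid; exact absurd hmid (by decide)
      · rw [tyW_of_two (Or.inl hc)] at hmid; exact absurd hmid (by decide)
      · rw [tyW_of_two (Or.inr hc)] at hmid; exact absurd hmid (by decide)
      · exact I.three m hN hM hh hc hn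
      · exact I.threeE m hN hM hh hc hn
      · rw [tyW_of_ring hb hc] at hmid; exact absurd hmid (by decide)

/-- **Removal of the modes**, all sets of tails. -/
theorem modes_of (hb : ClassW b) (hL : Loc b zs) (K : Kinds b zs) (I : Inners b zs)
    (hq : ∀ {R : Finset (DD (tyW b))} {nb : Finset (DD (tyW b) ⊕ ZZ (tyW b))}
      {z : DD (tyW b) ⊕ ZZ (tyW b) → ℂ} {p : DD (tyW b) → ℝ}, NbT b R nb → MM b zs R nb z p →
      ∀ h : Fin M, RH1 b (.inl h) → p (.inl h) = 0) :
    ModeOk0 b zs (wparM b zs) ∧ ModeOkR b zs (wparM b zs) (nbT b) :=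
  ⟨modeOk0_of fun _ _ hM => K.none hb hL I NbT.empty hM (hq NbT.empty hM),
    modeOkR_of (fun R => (nbT_ok b R).ok) fun R _ _ hM =>
      K.none hb hL I (nbT_ok b R) hM (hq (nbT_ok b R) hM)⟩

end SR

end Pool.Agent.Work.MP_b30479_gtS.G2

end

section

/-!
# Mirrored paths: responses of the far sides

`FarG`: what is gained behind the hinge `h'` of a region if this hinge is kept or moved.  The star
moves with responses in several regions, the star move of the inner variable.
-/

namespace Pool.Agent.Work.MP_b30479_gtS.G2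

open Finset VOL Filter Topology

namespace SR

variable {M : ℕ} {b : Fin (M + 1) → ℤ} {zs : DD (tyW b) ⊕ ZZ (tyW b) → ℂ}
variable {R : Finset (DD (tyW b))} {nb : Finset (DD (tyW b) ⊕ ZZ (tyW b))}
variable {z : DD (tyW b) ⊕ ZZ (tyW b) → ℂ} {p : DD (tyW b) → ℝ}
variable {h h' h0 h2 : Fin M} {i j j' j0 j2 : Fin (M + 1)} {s : Fin 3} {x c : ℝ}

/-- **Gain behind the hinge `h'`** (the regions on the side of `j'`), the hinge at `X`; the penalty
of `h'` is included. -/
def FarG (b : Fin (M + 1) → ℤ) (zs : DD (tyW b) ⊕ ZZ (tyW b) → ℂ)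
    (nb : Finset (DD (tyW b) ⊕ ZZ (tyW b))) (z : DD (tyW b) ⊕ ZZ (tyW b) → ℂ)
    (p : DD (tyW b) → ℝ) (h' : Fin M) (j' : Fin (M + 1)) (X : ℂ) (f : ℝ) : Prop :=
  ∃ (z' : DD (tyW b) ⊕ ZZ (tyW b) → ℂ) (p' : DD (tyW b) → ℝ), z' (.inl (.inl h')) = X ∧
    (∀ v, (z' v ≠ z v ∨ pe p' v ≠ pe p v) → v ∉ nb ∧ OnP b zs v (z' v) (pe p' v) ∧
      (v = .inl (.inl h') ∨ ∀ m, m ∉ sideR h' j' → ∀ q, cf (tyW b) m q v = 0)) ∧
    f ≤ ∑ m ∈ sideR h' j', (OV b m (Ow b z' m) - OV b m (Ow b z m)) -
      2 * Real.pi * (∑ k, p' k - ∑ k, p k)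

/-- the hinge is kept -/
theorem FarG.keep (h' : Fin M) (j' : Fin (M + 1)) :
    FarG b zs nb z p h' j' (z (.inl (.inl h'))) 0 := by
  refine ⟨z, p, rfl, ?_, ?_⟩
  · intro v hv
    simp at hv
  · simp

theorem FarG.mono {X : ℂ} {f f' : ℝ} (hg : FarG b zs nb z p h' j' X f) (h1 : f' ≤ f) :
    FarG b zs nb z p h' j' X f' := by
  obtain ⟨z1, p1, e1, c1, k1⟩ := hg
  exact ⟨z1, p1, e1, c1, h1.trans k1⟩

open Classical in
/-- the hinge is moved to a point of the main path -/
theorem FarG.move (hn : Sum.inl (Sum.inl h') ∉ nb) {X : ℂ}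
    (hX : OnP b zs (.inl (.inl h')) X 0) {g : ℝ} (k : SideG b zs nb z p h' j' X g) :
    FarG b zs nb z p h' j' X (g + 2 * Real.pi * p (.inl h')) := by
  obtain ⟨z1, p1, e1, c1, k1⟩ := k
  refine ⟨z1, Function.update p1 (.inl h') 0, e1, ?_, ?_⟩
  · intro v hv
    by_cases hvh : v = .inl (.inl h')
    · subst hvh
      refine ⟨hn, ?_, Or.inl rfl⟩
      have : pe (Function.update p1 (.inl h') 0) (.inl (.inl h')) = 0 := by simp [pe]
      rw [this, e1]
      exact hX
    · have e : pe (Function.update p1 (.inl h') 0) v = pe p1 v := by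
        rcases v with k | v
        · have : k ≠ Sum.inl h' := by simpa using hvh
          simp [pe, Function.update_of_ne this]
        · rfl
      rw [e] at hv ⊢
      obtain ⟨a1, a2, a3⟩ := c1 v hvh hv
      exact ⟨a1, a2, Or.inr a3⟩
  · have hs : ∀ q : DD (tyW b) → ℝ, ∑ k, q k = q (.inl h') + pex h' q := fun q =>
      (Finset.add_sum_erase univ q (Finset.mem_univ _)).symm
    have e : pex h' (Function.update p1 (.inl h') 0) = pex h' p1 := by
      unfold pex
      refine Finset.sum_congr rfl fun k hk => ?_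
      rw [Function.update_of_ne (Finset.ne_of_mem_erase hk)]
    rw [hs (Function.update p1 (.inl h') 0), hs p, e, Function.update_self]
    linarith

/-! ### sides -/

theorem Adj.sideR_eq (A : Adj h i s j) (A' : Adj h' i s.rev j') :
    sideR h i = insert i (sideR h' j') ∧ i ∉ sideR h' j' := by
  cases A with
  | l =>
    generalize hi' : h.castSucc = i' at A'
    generalize hs' : (2 : Fin 3).rev = s' at A'
    cases A' with
    | l => exact absurd hs' (by decide)
    | r =>
      have e1 : h.val = h'.val + 1 := by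
        have := congrArg Fin.val hi'
        simpa using this
      rw [← hi', sideR_l, sideR_l]
      constructor
      · ext m
        simp only [Finset.mem_filter, Finset.mem_univ, true_and, Finset.mem_insert]
        rw [Fin.le_def, Fin.le_def, Fin.ext_iff]
        simp
        omega
      · simp only [Finset.mem_filter, Finset.mem_univ, true_and]
        rw [Fin.le_def]
        simp
        omega
  | r =>
    generalize hi' : h.succ = i' at A'
    generalize hs' : (0 : Fin 3).rev = s' at A'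
    cases A' with
    | r => exact absurd hs' (by decide)
    | l =>
      have e1 : h'.val = h.val + 1 := by
        have := congrArg Fin.val hi'
        simpa using this.symm
      rw [← hi', sideR_r, sideR_r]
      constructor
      · ext m
        simp only [Finset.mem_filter, Finset.mem_univ, true_and, Finset.mem_insert]
        rw [Fin.lt_def, Fin.lt_def, Fin.ext_iff]
        simp
        omega
      · simp only [Finset.mem_filter, Finset.mem_univ, true_and]
        rw [Fin.lt_def]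
        simp
        omega

/-- the regions around the hinge `h'` -/
theorem cf_hinge_side (A' : Adj h' i s j') {m : Fin (M + 1)} (h1 : m ≠ i) (h2 : m ≠ j')
    (q : Fin 3) : cf (tyW b) m q (.inl (.inl h')) = 0 := by
  cases A'
  · exact cf_hinge_zero h1 h2 q
  · exact cf_hinge_zero h2 h1 q

theorem Adj.mem_far (A' : Adj h' i s j') : j' ∈ sideR h' j' ∧ i ∉ sideR h' j' := by
  have := A'.symm.mem_side
  exact this

/-- **One side, the other hinge of the region responds** together with everything behind it, and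
one more variable `v0` of the region. -/
theorem SideG.far (A : Adj h i s j) (A' : Adj h' i s.rev j') (u : ℂ) {X : ℂ} {f : ℝ}
    (F : FarG b zs nb z p h' j' X f) (v0 : Option (DD (tyW b) ⊕ ZZ (tyW b))) (ζ : ℂ) (q : ℝ)
    (hv : ∀ v ∈ v0, v ∉ nb ∧ OnP b zs v ζ (qe v q) ∧ cf (tyW b) i 1 v ≠ 0 ∧
      (∀ m, m ≠ i → ∀ q', cf (tyW b) m q' v = 0)) :
    ∃ z' : DD (tyW b) ⊕ ZZ (tyW b) → ℂ, z' (.inl (.inl h)) = u ∧ z' (.inl (.inl h')) = X ∧
      (∀ v ∈ v0, z' v = ζ) ∧
      (∀ v, v ≠ .inl (.inl h) → v ≠ .inl (.inl h') → v ∉ v0 → ∀ q', cf (tyW b) i q' v ≠ 0 →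
        z' v = z v) ∧
      SideG b zs nb z p h i u (OV b i (Ow b z' i) - OV b i (Ow b z i) + f -
        2 * Real.pi * (v0.elim 0 fun v => qe v q - pe p v)) := by
  classical
  obtain ⟨z1, p1, e1, c1, k1⟩ := F
  obtain ⟨hsd, hnot⟩ := A.sideR_eq A'
  have hne : (Sum.inl (Sum.inl h') : DD (tyW b) ⊕ ZZ (tyW b)) ≠ .inl (.inl h) := by
    simpa using (A.side2 (b := b) A').2.1
  -- the variables
  have hv0h : ∀ v ∈ v0, v ≠ .inl (.inl h) ∧ v ≠ .inl (.inl h') := by
    intro v hv'
    obtain ⟨-, -, a3, -⟩ := hv v hv'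
    constructor
    · rintro rfl
      simp [cf] at a3
    · rintro rfl
      simp [cf] at a3
  have hc1 : ∀ v, (z1 v ≠ z v ∨ pe p1 v ≠ pe p v) → v ≠ .inl (.inl h') → ∀ q', cf (tyW b) i q' v = 0 := by
    intro v hv' hvh q'
    rcases (c1 v hv').2.2 with h3 | h3
    · exact absurd h3 hvh
    · exact h3 i hnot q'
  set z2 : DD (tyW b) ⊕ ZZ (tyW b) → ℂ := fun v => if v = .inl (.inl h) then u else
    if v ∈ v0 then ζ else z1 v with hz2
  set p2 : DD (tyW b) → ℝ := fun k => if (Sum.inl k : DD (tyW b) ⊕ ZZ (tyW b)) ∈ v0 then q else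
    if k = Sum.inl h then p k else p1 k with hp2
  have hzh : z2 (.inl (.inl h)) = u := by simp [hz2]
  have hzh' : z2 (.inl (.inl h')) = X := by
    rw [hz2]
    simp only
    rw [if_neg hne, if_neg (fun hh => (hv0h _ hh).2 rfl), e1]
  have hzv : ∀ v ∈ v0, z2 v = ζ := by
    intro v hv'
    rw [hz2]
    simp only
    rw [if_neg (hv0h v hv').1, if_pos hv']
  have hzo : ∀ v, v ≠ .inl (.inl h) → v ∉ v0 → z2 v = z1 v := by
    intro v h3 h4
    rw [hz2]
    simp only
    rw [if_neg h3, if_neg h4]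
  have hpe : ∀ v, v ≠ .inl (.inl h) → v ∉ v0 → pe p2 v = pe p1 v := by
    intro v h3 h4
    rcases v with k | v
    · show p2 k = p1 k
      rw [hp2]
      simp only
      rw [if_neg h4, if_neg (by simpa using h3)]
    · rfl
  have hz1i : ∀ v, v ≠ .inl (.inl h') → ∀ q', cf (tyW b) i q' v ≠ 0 → z1 v = z v := by
    intro v h3 q' h4
    by_contra h5
    exact h4 (hc1 v (Or.inl h5) h3 q')
  refine ⟨z2, hzh, hzh', hzv, ?_, ?_⟩
  · intro v h3 h4 h5 q' h6
    rw [hzo v h3 h5]
    exact hz1i v h4 q' h6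
  refine ⟨z2, p2, hzh, ?_, ?_⟩
  · intro v hvh hch
    by_cases hv' : v ∈ v0
    · obtain ⟨a1, a2, a3, a4⟩ := hv v hv'
      refine ⟨a1, ?_, fun m hm q' => a4 m ?_ q'⟩
      · rw [hzv v hv']
        have : pe p2 v = qe v q := by
          rcases v with k | v
          · show p2 k = q
            rw [hp2]
            simp only
            rw [if_pos hv']
          · rfl
        rw [this]
        exact a2
      · rintro rfl
        exact hm (by rw [hsd]; exact Finset.mem_insert_self _ _)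
    · rw [hzo v hvh hv', hpe v hvh hv'] at hch ⊢
      obtain ⟨a1, a2, a3⟩ := c1 v hch
      refine ⟨a1, a2, fun m hm q' => ?_⟩
      rw [hsd, Finset.mem_insert, not_or] at hm
      rcases a3 with h3 | h3
      · subst h3
        refine cf_hinge_side A' hm.1 ?_ q'
        rintro rfl
        exact hm.2 A'.mem_far.1
      · exact h3 m hm.2 q'
  · -- the sum
    rw [hsd, Finset.sum_insert hnot]
    have hfar : ∀ m ∈ sideR h' j', Ow b z2 m = Ow b z1 m := by
      intro m hm
      refine Ow_congr m fun v hv' q' => ?_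
      have hmi : m ≠ i := fun e => hnot (e ▸ hm)
      by_cases h3 : v = .inl (.inl h)
      · subst h3
        refine sideR_hinge A ?_ hmi q'
        rw [hsd]
        exact Finset.mem_insert_of_mem hm
      · by_cases h4 : v ∈ v0
        · exact (hv v h4).2.2.2 m hmi q'
        · exact absurd (hzo v h3 h4) hv'
    have s1 : ∑ m ∈ sideR h' j', (OV b m (Ow b z2 m) - OV b m (Ow b z m)) =
        ∑ m ∈ sideR h' j', (OV b m (Ow b z1 m) - OV b m (Ow b z m)) :=
      Finset.sum_congr rfl fun m hm => by rw [hfar m hm]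
    rw [s1]
    -- penalties
    have hp1h : p1 (.inl h) = p (.inl h) := by
      by_contra h3
      have h4 := (c1 (.inl (.inl h)) (Or.inr h3)).2.2
      rcases h4 with h5 | h5
      · exact hne h5.symm
      · have h6 := h5 i hnot s
        exact A.cf_ne h6
    have hpen : pex h p2 - pex h p = (∑ k, p1 k - ∑ k, p k) +
        (v0.elim 0 fun v => qe v q - pe p v) := by
      have hs : ∀ q : DD (tyW b) → ℝ, ∑ k, q k = q (.inl h) + pex h q := fun q =>
        (Finset.add_sum_erase univ q (Finset.mem_univ _)).symm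
      rw [hs p1, hs p, hp1h]
      have : pex h p2 - pex h p1 = (v0.elim 0 fun v => qe v q - pe p v) := by
        unfold pex
        rw [← Finset.sum_sub_distrib]
        rcases v0 with _ | v
        · rw [Finset.sum_eq_zero]
          · rfl
          · intro k hk
            rw [hp2]
            simp only
            rw [if_neg (by simp), if_neg (Finset.ne_of_mem_erase hk), sub_self]
        · rcases v with k0 | v
          · have hk0 : k0 ≠ Sum.inl h := by
              have := (hv0h _ (Option.mem_some_self _)).1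
              simpa using this
            rw [Finset.sum_eq_single k0]
            · show p2 k0 - p1 k0 = q - p k0
              have h7 : p1 k0 = p k0 := by
                by_contra h3
                have h4 := (hv _ (Option.mem_some_self _)).2.2.1
                exact h4 (hc1 (.inl k0) (Or.inr h3) (hv0h _ (Option.mem_some_self _)).2 1)
              rw [hp2, h7]
              simp
            · intro k hk hkk
              rw [hp2]
              simp only
              rw [if_neg, if_neg (Finset.ne_of_mem_erase hk), sub_self]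
              simpa using fun e : k0 = k => hkk e.symm
            · intro h3
              exact absurd (Finset.mem_erase.2 ⟨hk0, Finset.mem_univ _⟩) h3
          · rw [Finset.sum_eq_zero]
            · show (0 : ℝ) = 0 - 0
              ring
            · intro k hk
              rw [hp2]
              simp only
              rw [if_neg (by simp), if_neg (Finset.ne_of_mem_erase hk), sub_self]
      linarith
    rw [hpen]
    linarith

/-! ### classes of regions -/

theorem ofr_z (A : Adj h i s j) : ofr (b i) (z (.inl (.inl h))) = Ow b z i s := (Ow_adj z A).symm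

/-- digit `1`, the other hinge responds (or is kept: `FarG.keep`) -/
theorem far_one (hb : ClassW b) (A : Adj h i s j) (A' : Adj h' i s.rev j') (hc : clsW b i = .one)
    {X : ℂ} {f : ℝ} (F : FarG b zs nb z p h' j' X f) :
    SideG b zs nb z p h i (tg b zs h c)
      (V1 (tgo b zs h i c) (ofr (b i) X) - V1 (Ow b z i s) (Ow b z i s.rev) + f) := by
  obtain ⟨z', e1, e2, -, -, S⟩ := SideG.far A A' (tg b zs h c) F none 0 0 (by simp)
  refine S.mono (le_of_eq ?_)
  have a1 : Ow b z' i s = tgo b zs h i c := by rw [Ow_adj z' A, e1, ofr_tg]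
  have a2 : Ow b z' i s.rev = ofr (b i) X := by rw [Ow_adj z' A', e2]
  rw [OV_one hb hc, OV_one hb hc, ← a1, ← a2]
  simp only [Option.elim]
  rcases A.slot with rfl | rfl
  · show V1 (Ow b z' i 0) (Ow b z' i 2) - V1 (Ow b z i 0) (Ow b z i 2) + f = _
    ring
  · show V1 (Ow b z' i 2) (Ow b z' i 0) - V1 (Ow b z i 2) (Ow b z i 0) + f = _
    rw [V1_comm, V1_comm (Ow b z i 2)]
    ring

/-- digit `2` -/
theorem far_two (hb : ClassW b) (A : Adj h i s j) (A' : Adj h' i s.rev j') (hc : clsW b i = .two)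
    {X : ℂ} {f : ℝ} (F : FarG b zs nb z p h' j' X f) :
    SideG b zs nb z p h i (tg b zs h c)
      (V2 (tgo b zs h i c) (ofr (b i) X) - V2 (Ow b z i s) (Ow b z i s.rev) + f) := by
  obtain ⟨z', e1, e2, -, -, S⟩ := SideG.far A A' (tg b zs h c) F none 0 0 (by simp)
  refine S.mono (le_of_eq ?_)
  have a1 : Ow b z' i s = tgo b zs h i c := by rw [Ow_adj z' A, e1, ofr_tg]
  have a2 : Ow b z' i s.rev = ofr (b i) X := by rw [Ow_adj z' A', e2]
  rw [OV_two hb (Or.inl hc) (Ow_endOk _ _), OV_two hb (Or.inl hc) (Ow_endOk _ _), ← a1, ← a2]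
  simp only [Option.elim]
  rcases A.slot with rfl | rfl
  · show V2 (Ow b z' i 0) (Ow b z' i 2) - V2 (Ow b z i 0) (Ow b z i 2) + f = _
    ring
  · show V2 (Ow b z' i 2) (Ow b z' i 0) - V2 (Ow b z i 2) (Ow b z i 0) + f = _
    rw [V2_comm, V2_comm (Ow b z i 2)]
    ring

theorem ofr_ptm (m : {i : Fin (M + 1) // (tyW b i).isMid = true}) (c' : ℝ) :
    ofr (b m.1) (pt 0 ((wpar b zs).XM (.inr m)) ((wpar b zs).cl (.inr m))
      ((wpar b zs).cr (.inr m)) (zs (.inl (.inr m))).im c') = tgi b zs m c' := by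
  apply Complex.ext
  · rw [ofr_re, ptm_re]
    rfl
  · rw [ofr_im, ptm_im, ofs_mulR]
    rfl

theorem inner_cond (m : {i : Fin (M + 1) // (tyW b i).isMid = true})
    (hn : Sum.inl (Sum.inr m) ∉ nb) {c' : ℝ} (h0 : 0 ≤ c') (h1 : c' ≤ (mp (clsW b m.1)).XM) :
    ∀ v ∈ (some (.inl (.inr m)) : Option (DD (tyW b) ⊕ ZZ (tyW b))), v ∉ nb ∧
      OnP b zs v (pt 0 ((wpar b zs).XM (.inr m)) ((wpar b zs).cl (.inr m))
      ((wpar b zs).cr (.inr m)) (zs (.inl (.inr m))).im c') (qe v 0) ∧ cf (tyW b) m.1 1 v ≠ 0 ∧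
      (∀ k, k ≠ m.1 → ∀ q', cf (tyW b) k q' v = 0) := by
  intro v hv
  obtain rfl : .inl (.inr m) = v := by simpa using hv
  refine ⟨hn, onP_main (.inr m) h0 h1, by simp [cf], ?_⟩
  intro k hk q'
  simp [cf, hk.symm]

/-- digit `3`, the hinge in the slot `0` is moved, the inner variable to `c'`, the hinge in the slot
`2` responds -/
theorem far_three0i (hb : ClassW b) (m : {i : Fin (M + 1) // (tyW b i).isMid = true})
    (A : Adj h m.1 0 j) (A' : Adj h' m.1 2 j') (hc : clsW b m.1 = .three)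
    (hn : Sum.inl (Sum.inr m) ∉ nb) {c' : ℝ} (h0 : 0 ≤ c') (h1 : c' ≤ 8 / 10) (u : ℂ)
    {X : ℂ} {f : ℝ} (F : FarG b zs nb z p h' j' X f) :
    SideG b zs nb z p h m.1 u
      (V3 (ofr (b m.1) u) (tgi b zs m c') (ofr (b m.1) X) -
        V3 (Ow b z m.1 0) (Ow b z m.1 1) (Ow b z m.1 2) + f + 2 * Real.pi * p (.inr m)) := by
  obtain ⟨z', e1, e2, e3, -, S⟩ := SideG.far A A' u F (some (.inl (.inr m)))
    (pt 0 ((wpar b zs).XM (.inr m)) ((wpar b zs).cl (.inr m))
      ((wpar b zs).cr (.inr m)) (zs (.inl (.inr m))).im c') 0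
    (inner_cond m hn h0 (by rw [hc]; exact h1))
  refine S.mono (le_of_eq ?_)
  have a1 : Ow b z' m.1 0 = ofr (b m.1) u := by rw [Ow_adj z' A, e1]
  have a2 : Ow b z' m.1 2 = ofr (b m.1) X := by rw [Ow_adj z' A', e2]
  have a3 : Ow b z' m.1 1 = tgi b zs m c' := by
    rw [Ow_inner, e3 _ rfl, ofr_ptm]
  rw [OV_three hb hc, OV_three hb hc, ← a1, ← a2, ← a3]
  simp only [Option.elim, qe, pe]
  ring

/-- digit `3`, the hinge in the slot `2` is moved, the inner variable to `c'`, the hinge in the slot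
`0` responds -/
theorem far_three2i (hb : ClassW b) (m : {i : Fin (M + 1) // (tyW b i).isMid = true})
    (A : Adj h m.1 2 j) (A' : Adj h' m.1 0 j') (hc : clsW b m.1 = .three)
    (hn : Sum.inl (Sum.inr m) ∉ nb) {c' : ℝ} (h0 : 0 ≤ c') (h1 : c' ≤ 8 / 10) (u : ℂ)
    {X : ℂ} {f : ℝ} (F : FarG b zs nb z p h' j' X f) :
    SideG b zs nb z p h m.1 u
      (V3 (ofr (b m.1) X) (tgi b zs m c') (ofr (b m.1) u) -
        V3 (Ow b z m.1 0) (Ow b z m.1 1) (Ow b z m.1 2) + f + 2 * Real.pi * p (.inr m)) := by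
  obtain ⟨z', e1, e2, e3, -, S⟩ := SideG.far A A' u F (some (.inl (.inr m)))
    (pt 0 ((wpar b zs).XM (.inr m)) ((wpar b zs).cl (.inr m))
      ((wpar b zs).cr (.inr m)) (zs (.inl (.inr m))).im c') 0
    (inner_cond m hn h0 (by rw [hc]; exact h1))
  refine S.mono (le_of_eq ?_)
  have a1 : Ow b z' m.1 2 = ofr (b m.1) u := by rw [Ow_adj z' A, e1]
  have a2 : Ow b z' m.1 0 = ofr (b m.1) X := by rw [Ow_adj z' A', e2]
  have a3 : Ow b z' m.1 1 = tgi b zs m c' := by
    rw [Ow_inner, e3 _ rfl, ofr_ptm]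
  rw [OV_three hb hc, OV_three hb hc, ← a1, ← a2, ← a3]
  simp only [Option.elim, qe, pe]
  ring

/-- digit `3`, the hinge in the slot `0` is moved, the inner variable is kept, the hinge in the slot
`2` responds -/
theorem far_three0 (hb : ClassW b) (A : Adj h i 0 j) (A' : Adj h' i 2 j') (hc : clsW b i = .three)
    (u : ℂ) {X : ℂ} {f : ℝ} (F : FarG b zs nb z p h' j' X f) :
    SideG b zs nb z p h i u
      (V3 (ofr (b i) u) (Ow b z i 1) (ofr (b i) X) -
        V3 (Ow b z i 0) (Ow b z i 1) (Ow b z i 2) + f) := by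
  obtain ⟨z', e1, e2, -, e4, S⟩ := SideG.far A A' u F none 0 0 (by simp)
  refine S.mono (le_of_eq ?_)
  have hm : (tyW b i).isMid = true := by rw [tyW_of_three hc]; rfl
  have a1 : Ow b z' i 0 = ofr (b i) u := by rw [Ow_adj z' A, e1]
  have a2 : Ow b z' i 2 = ofr (b i) X := by rw [Ow_adj z' A', e2]
  have a3 : Ow b z' i 1 = Ow b z i 1 := by
    have h3 := Ow_inner (b := b) ⟨i, hm⟩ z'
    have h4 := Ow_inner (b := b) ⟨i, hm⟩ z
    simp only at h3 h4
    rw [h3, h4, e4 _ (by simp) (by simp) (by simp) 1 (by simp [cf])]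
  rw [OV_three hb hc, OV_three hb hc, a1, a2, a3]
  simp only [Option.elim]
  ring

/-- digit `3`, the hinge in the slot `2` is moved, the inner variable is kept, the hinge in the slot
`0` responds -/
theorem far_three2 (hb : ClassW b) (A : Adj h i 2 j) (A' : Adj h' i 0 j') (hc : clsW b i = .three)
    (u : ℂ) {X : ℂ} {f : ℝ} (F : FarG b zs nb z p h' j' X f) :
    SideG b zs nb z p h i u
      (V3 (ofr (b i) X) (Ow b z i 1) (ofr (b i) u) -
        V3 (Ow b z i 0) (Ow b z i 1) (Ow b z i 2) + f) := by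
  obtain ⟨z', e1, e2, -, e4, S⟩ := SideG.far A A' u F none 0 0 (by simp)
  refine S.mono (le_of_eq ?_)
  have hm : (tyW b i).isMid = true := by rw [tyW_of_three hc]; rfl
  have a1 : Ow b z' i 2 = ofr (b i) u := by rw [Ow_adj z' A, e1]
  have a2 : Ow b z' i 0 = ofr (b i) X := by rw [Ow_adj z' A', e2]
  have a3 : Ow b z' i 1 = Ow b z i 1 := by
    have h3 := Ow_inner (b := b) ⟨i, hm⟩ z'
    have h4 := Ow_inner (b := b) ⟨i, hm⟩ z
    simp only at h3 h4
    rw [h3, h4, e4 _ (by simp) (by simp) (by simp) 1 (by simp [cf])]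
  rw [OV_three hb hc, OV_three hb hc, a1, a2, a3]
  simp only [Option.elim]
  ring

/-! ### star moves of other variables -/

/-- **A move on one side of a hinge which is kept.** -/
theorem MM.star_keep (hb : ClassW b) (hR : ∀ i ∈ R, Sum.inl i ∈ nb) (hM : MM b zs R nb z p)
    {g : ℝ} (k : SideG b zs nb z p h i (z (.inl (.inl h))) g) : g ≤ 0 := by
  classical
  obtain ⟨z1, p1, e1, c1, k1⟩ := k
  set p3 : DD (tyW b) → ℝ := Function.update p1 (.inl h) (p (.inl h)) with hp3
  have hpe : ∀ v, v ≠ .inl (.inl h) → pe p3 v = pe p1 v := by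
    intro v hv
    rcases v with k | v
    · have : k ≠ Sum.inl h := by simpa using hv
      simp [pe, hp3, Function.update_of_ne this]
    · rfl
  have hmv : Mv b zs nb z p z1 p3 := by
    refine ⟨fun v hv => ?_⟩
    have hvh : v ≠ .inl (.inl h) := by
      rintro rfl
      rw [e1] at hv
      simp [pe, hp3] at hv
    rw [hpe v hvh] at hv ⊢
    obtain ⟨a1, a2, -⟩ := c1 v hvh hv
    exact ⟨a1, a2⟩
  have h1 := hM.step hb hR hmv (sideR h i) (by
    intro m hm v hv q
    have hvh : v ≠ .inl (.inl h) := by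
      rintro rfl
      exact hv e1.symm
    exact (c1 v hvh (Or.inl fun e => hv e.symm)).2.2 m hm q)
  have hs : ∀ q : DD (tyW b) → ℝ, ∑ k, q k = q (.inl h) + pex h q := fun q =>
    (Finset.add_sum_erase univ q (Finset.mem_univ _)).symm
  have e : pex h p3 = pex h p1 := by
    unfold pex
    refine Finset.sum_congr rfl fun k hk => ?_
    rw [hp3, Function.update_of_ne (Finset.ne_of_mem_erase hk)]
  have h4 : ∑ k, (p3 k - p k) = pex h p1 - pex h p := by
    rw [Finset.sum_sub_distrib, hs p3, hs p, e, hp3, Function.update_self]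
    ring
  rw [h4] at h1
  linarith

/-- the inner variable of an interior `3` is moved to `c'`; the hinge in the slot `0` is kept, the
hinge in the slot `2` responds (or is kept) -/
theorem MM.inner3 (hb : ClassW b) (hR : ∀ i ∈ R, Sum.inl i ∈ nb) (hM : MM b zs R nb z p)
    (m : {i : Fin (M + 1) // (tyW b i).isMid = true})
    (A0 : Adj h0 m.1 0 j0) (A2 : Adj h2 m.1 2 j2) (hc : clsW b m.1 = .three)
    (hn : Sum.inl (Sum.inr m) ∉ nb) {c' : ℝ} (k0 : 0 ≤ c') (k1 : c' ≤ 8 / 10)
    {X2 : ℂ} {f2 : ℝ} (F2 : FarG b zs nb z p h2 j2 X2 f2) :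
    V3 (Ow b z m.1 0) (tgi b zs m c') (ofr (b m.1) X2) -
        V3 (Ow b z m.1 0) (Ow b z m.1 1) (Ow b z m.1 2) + f2 + 2 * Real.pi * p (.inr m) ≤ 0 := by
  have h1 := hM.star_keep hb hR (far_three0i hb m A0 A2 hc hn k0 k1 (z (.inl (.inl h0))) F2)
  rwa [ofr_z A0] at h1

/-- the inner variable of an interior `3` is moved to `c'`; the hinge in the slot `2` is kept, the
hinge in the slot `0` responds (or is kept) -/
theorem MM.inner3' (hb : ClassW b) (hR : ∀ i ∈ R, Sum.inl i ∈ nb) (hM : MM b zs R nb z p)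
    (m : {i : Fin (M + 1) // (tyW b i).isMid = true})
    (A0 : Adj h0 m.1 0 j0) (A2 : Adj h2 m.1 2 j2) (hc : clsW b m.1 = .three)
    (hn : Sum.inl (Sum.inr m) ∉ nb) {c' : ℝ} (k0 : 0 ≤ c') (k1 : c' ≤ 8 / 10)
    {X0 : ℂ} {f0 : ℝ} (F0 : FarG b zs nb z p h0 j0 X0 f0) :
    V3 (ofr (b m.1) X0) (tgi b zs m c') (Ow b z m.1 2) -
        V3 (Ow b z m.1 0) (Ow b z m.1 1) (Ow b z m.1 2) + f0 + 2 * Real.pi * p (.inr m) ≤ 0 := by
  have h1 := hM.star_keep hb hR (far_three2i hb m A2 A0 hc hn k0 k1 (z (.inl (.inl h2))) F0)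
  rwa [ofr_z A2] at h1

/-- the inner variable of an interior `3` is moved to `c'`, the hinge in the slot `0` to `c0`; the
hinge in the slot `2` responds (or is kept) -/
theorem MM.inner3b (hb : ClassW b) (hR : ∀ i ∈ R, Sum.inl i ∈ nb) (hM : MM b zs R nb z p)
    (m : {i : Fin (M + 1) // (tyW b i).isMid = true})
    (A0 : Adj h0 m.1 0 j0) (A2 : Adj h2 m.1 2 j2) (hc : clsW b m.1 = .three)
    (hn : Sum.inl (Sum.inr m) ∉ nb) {c' : ℝ} (k0 : 0 ≤ c') (k1 : c' ≤ 8 / 10)
    (hn0 : Sum.inl (Sum.inl h0) ∉ nb) {c0 : ℝ} (l0 : 0 ≤ c0) (l1 : c0 ≤ wXM b h0) {g : ℝ}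
    (G : SideG b zs nb z p h0 j0 (tg b zs h0 c0) g)
    {X2 : ℂ} {f2 : ℝ} (F2 : FarG b zs nb z p h2 j2 X2 f2) :
    V3 (tgo b zs h0 m.1 c0) (tgi b zs m c') (ofr (b m.1) X2) -
        V3 (Ow b z m.1 0) (Ow b z m.1 1) (Ow b z m.1 2) + f2 + 2 * Real.pi * p (.inr m) +
      g + 2 * Real.pi * p (.inl h0) ≤ 0 := by
  have h1 := hM.star hb hR A0 hn0 (onP_tg l0 l1)
    (far_three0i hb m A0 A2 hc hn k0 k1 (tg b zs h0 c0) F2) G
  rwa [ofr_tg] at h1

/-- the inner variable of an end `3` is moved to `c'`, the hinge is kept -/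
theorem MM.inner3E (hb : ClassW b) (hR : ∀ i ∈ R, Sum.inl i ∈ nb) (hM : MM b zs R nb z p)
    (m : {i : Fin (M + 1) // (tyW b i).isMid = true}) (A : Adj h m.1 s j)
    (hc : clsW b m.1 = .threeE) (hn : Sum.inl (Sum.inr m) ∉ nb) {c' : ℝ} (k0 : 0 ≤ c')
    (k1 : c' ≤ 77 / 100) :
    V3 (Ow b z m.1 s) (tgi b zs m c') 0 - V3 (Ow b z m.1 s) (Ow b z m.1 1) 0 +
      2 * Real.pi * p (.inr m) ≤ 0 := by
  have h1 := SideG.inner (b := b) (zs := zs) (nb := nb) (z := z) (p := p) m A (z (.inl (.inl h)))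
    (pt 0 ((wpar b zs).XM (.inr m)) ((wpar b zs).cl (.inr m)) ((wpar b zs).cr (.inr m))
      (zs (.inl (.inr m))).im c') 0 hn (onP_main (.inr m) k0 (by
        show c' ≤ (mp (clsW b m.1)).XM
        rw [hc]; exact k1))
  rw [ofr_ptm, ofr_z A, Function.update_eq_self, A.OV_threeE hc (endOk_upd1 (Ow_endOk z m.1) _),
    A.OV_threeE hc (Ow_endOk z m.1), Function.update_self,
    Function.update_of_ne (show s ≠ 1 by rcases A.slot with hs | hs <;> rw [hs] <;> decide)] at h1
  have h2 := hM.star_keep hb hR h1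
  linarith

/-- the inner variable of an end `3` is moved to `c'`, the hinge to `c` -/
theorem MM.inner3Eb (hb : ClassW b) (hR : ∀ i ∈ R, Sum.inl i ∈ nb) (hM : MM b zs R nb z p)
    (m : {i : Fin (M + 1) // (tyW b i).isMid = true}) (A : Adj h m.1 s j)
    (hc : clsW b m.1 = .threeE) (hn : Sum.inl (Sum.inr m) ∉ nb) {c' : ℝ} (k0 : 0 ≤ c')
    (k1 : c' ≤ 77 / 100) (hnh : Sum.inl (Sum.inl h) ∉ nb) (l0 : 0 ≤ c) (l1 : c ≤ wXM b h) {g : ℝ}
    (G : SideG b zs nb z p h j (tg b zs h c) g) :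
    V3 (tgo b zs h m.1 c) (tgi b zs m c') 0 - V3 (Ow b z m.1 s) (Ow b z m.1 1) 0 +
      2 * Real.pi * p (.inr m) + g + 2 * Real.pi * p (.inl h) ≤ 0 :=
  hM.star hb hR A hnh (onP_tg l0 l1) (inner_threeE m A hc hn k0 k1) G

/-! ### gains of a region behind a hinge (all other variables kept) -/

/-- the hinge `h'` is moved to `c'`, the region behind it is a `1` -/
theorem FarG.one (hb : ClassW b) (A : Adj h' j' s i) (hc : clsW b j' = .one)
    (hn : Sum.inl (Sum.inl h') ∉ nb) (l0 : 0 ≤ c) (l1 : c ≤ wXM b h') :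
    FarG b zs nb z p h' j' (tg b zs h' c) (V1 (tgo b zs h' j' c) (Ow b z j' s.rev) -
      V1 (Ow b z j' s) (Ow b z j' s.rev) + 2 * Real.pi * p (.inl h')) :=
  FarG.move hn (onP_tg l0 l1) (keep_one hb A hc)

/-- the region behind is a `2` -/
theorem FarG.two (hb : ClassW b) (A : Adj h' j' s i) (hc : clsW b j' = .two ∨ clsW b j' = .twoE)
    (hn : Sum.inl (Sum.inl h') ∉ nb) (l0 : 0 ≤ c) (l1 : c ≤ wXM b h') :
    FarG b zs nb z p h' j' (tg b zs h' c) (V2 (tgo b zs h' j' c) (Ow b z j' s.rev) -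
      V2 (Ow b z j' s) (Ow b z j' s.rev) + 2 * Real.pi * p (.inl h')) :=
  FarG.move hn (onP_tg l0 l1) (keep_two hb A hc)

/-- the region behind is a `2` at an end -/
theorem FarG.twoE (hb : ClassW b) (A : Adj h' j' s i) (hc : clsW b j' = .twoE)
    (hn : Sum.inl (Sum.inl h') ∉ nb) (l0 : 0 ≤ c) (l1 : c ≤ wXM b h') :
    FarG b zs nb z p h' j' (tg b zs h' c) (V2 (tgo b zs h' j' c) 0 - V2 (Ow b z j' s) 0 +
      2 * Real.pi * p (.inl h')) :=
  FarG.move hn (onP_tg l0 l1) (keep_twoE hb A hc)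

/-- the region behind is a `3`, the hinge in its slot `0` -/
theorem FarG.three0 (hb : ClassW b) (A : Adj h' j' 0 i) (hc : clsW b j' = .three)
    (hn : Sum.inl (Sum.inl h') ∉ nb) (l0 : 0 ≤ c) (l1 : c ≤ wXM b h') :
    FarG b zs nb z p h' j' (tg b zs h' c)
      (V3 (tgo b zs h' j' c) (Ow b z j' 1) (Ow b z j' 2) -
        V3 (Ow b z j' 0) (Ow b z j' 1) (Ow b z j' 2) + 2 * Real.pi * p (.inl h')) :=
  FarG.move hn (onP_tg l0 l1) (keep_three0 hb A hc)

/-- the region behind is a `3`, the hinge in its slot `2` -/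
theorem FarG.three2 (hb : ClassW b) (A : Adj h' j' 2 i) (hc : clsW b j' = .three)
    (hn : Sum.inl (Sum.inl h') ∉ nb) (l0 : 0 ≤ c) (l1 : c ≤ wXM b h') :
    FarG b zs nb z p h' j' (tg b zs h' c)
      (V3 (Ow b z j' 0) (Ow b z j' 1) (tgo b zs h' j' c) -
        V3 (Ow b z j' 0) (Ow b z j' 1) (Ow b z j' 2) + 2 * Real.pi * p (.inl h')) :=
  FarG.move hn (onP_tg l0 l1) (keep_three2 hb A hc)

/-- the region behind is a `3` at an end -/
theorem FarG.threeE (A : Adj h' j' s i) (hc : clsW b j' = .threeE)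
    (hn : Sum.inl (Sum.inl h') ∉ nb) (l0 : 0 ≤ c) (l1 : c ≤ wXM b h') :
    FarG b zs nb z p h' j' (tg b zs h' c) (V3 (tgo b zs h' j' c) (Ow b z j' 1) 0 -
      V3 (Ow b z j' s) (Ow b z j' 1) 0 + 2 * Real.pi * p (.inl h')) :=
  FarG.move hn (onP_tg l0 l1) (keep_threeE A hc)

end SR

end Pool.Agent.Work.MP_b30479_gtS.G2

end
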