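import Pool.Agent.Work.MP_b30479_gt.TBS.G2.ZRows
import Pool.Agent.Work.MP_b30479_gt.TBS.G2.TE4a
import Pool.Agent.Work.MP_b30479_gt.TBS.G2.TRc
import Pool.Agent.Work.MP_b30479_gt.TBS.G2.ZDa
import Pool.Agent.Work.MP_b30479_gt.TBS.G2.TRb

section

/-!
# Modes at rings, rows `C`: tools
-/

namespace Pool.Agent.Work.MP_b30479_gtS.G2

open VOL NumUs

namespace ZD

namespace RC

/-! ### expressions, variables `T, k1, k2` -/

def U5 : E := .add (.uu (.q 425 1000) (.var 0)) (.uu (.q 975 1000) (.var 0))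
def RT (c θ : ℤ) : E := .sub (.sub U5 (.mul (.q c 1) (.uu (.q 2 10) (.var 0)))) (.q θ 1000)
/-- `gD1 + gR`, `u`: value of `uu` at the sum -/
def S1 (u : E) (θ : ℤ) : E := .add (.sub (RT 3 θ) (.mul .pi (.var 0)))
  (.add (.mul .pi (.add (.mul (.q 2 10) (.var 2)) (.mul (.var 0) (.var 1)))) u)
/-- `gD2 + gR` -/
def S2 (u : E) : E := .add (.sub (RT 4 112) (.mul (.mul .pi (.q 1 2)) (.var 0)))
  (.sub u (.mul .pi (.mul (.sub (.q 2 10) (.var 1)) (.sub (.var 0) (.var 2)))))
def u0 : E := .uu (.add (.q 2 10) (.var 1)) (.add (.var 0) (.var 2))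
def uk : E := .uu (.var 1) (.var 2)
def g1 (u : E) (θ : ℤ) (m : E) : E :=
  .sub (.sub (S1 u θ) (.mul .pi (.mul (.var 2) (.sub (.q 1 2) (.var 1))))) m
def g3 (u : E) (θ : ℤ) (o : E) : E := .sub (S1 u θ) (.add o (.q 1 1000))
def g2 (u m : E) : E :=
  .sub (.sub (S2 u) (.mul .pi (.mul (.var 2) (.sub (.q 1 2) (.mul (.q 2 1) (.var 1)))))) m
def g4 (u o : E) : E :=
  .add (S2 u) (.sub (.mul .pi (.mul (.var 1) (.var 2))) (.add o (.q 1 1000)))
/-- `± π/2 y - 16/1000`, `y` the height of the sum -/
def up : E := .sub (.mul (.mul .pi (.q 1 2)) (.add (.var 0) (.var 2))) (.q 16 1000)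
def um : E := .sub (.neg (.mul (.mul .pi (.q 1 2)) (.add (.var 0) (.var 2)))) (.q 16 1000)
def op : E := .add (.mul (.mul .pi (.q 1 2)) (.var 2)) (.q 16 1000)
def om : E := .add (.neg (.mul (.mul .pi (.q 1 2)) (.var 2))) (.q 16 1000)
/-- `± π/2 y - 62/1000` -/
def sp : E := .sub (.mul (.mul .pi (.q 1 2)) (.add (.var 0) (.var 2))) (.q 62 1000)
def sm : E := .sub (.neg (.mul (.mul .pi (.q 1 2)) (.add (.var 0) (.var 2)))) (.q 62 1000)
def u1p : E := .add (.uu (.sub (.var 1) (.q 8 10)) (.add (.var 0) (.var 2)))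
  (.mul .pi (.add (.var 0) (.var 2)))
def u1m : E := .sub (.uu (.sub (.var 1) (.q 8 10)) (.add (.var 0) (.var 2)))
  (.mul .pi (.add (.var 0) (.var 2)))
def qp : E := .add (.mul (.mul .pi (.q 1 2)) (.var 2)) (.q 62 1000)
def qm : E := .add (.neg (.mul (.mul .pi (.q 1 2)) (.var 2))) (.q 62 1000)
def vi32 : E := .sub (.var 2) (.mul (.q 32 10) (.var 1))
def w1 : E := .sub (.neg (.var 2)) (.mul (.q 32 10) (.sub (.var 1) (.q 2 10)))
def w2 : E := .sub (.var 2) (.mul (.q 32 10) (.sub (.var 1) (.q 2 10)))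
def v1 : E := .sub (.neg (.var 2)) (.mul (.q 32 10) (.sub (.q 1 1) (.var 1)))
def v2 : E := .sub (.var 2) (.mul (.q 32 10) (.sub (.q 1 1) (.var 1)))
def t34 : E := .mul (.q 3 4) (.var 0)
def g12 : E := .sub (.sub (.add (.sub (.sub (.add (.uu (.q 345 1000) t34) (.uu (.q 895 1000) t34))
  (.mul (.q 3 1) (.uu (.q 12 100) t34))) (.add (.mul .pi t34) (.q 108 1000)))
  (.add (.mul .pi (.add (.mul (.q 12 100) (.var 2)) (.mul t34 (.var 1))))
    (.uu (.add (.q 12 100) (.var 1)) (.add t34 (.var 2)))))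
  (.mul .pi (.mul (.var 2) (.sub (.q 1 2) (.var 1)))))
  (.add (.q 965 100000) (.mul (.q 2 10) (.var 1)))
def gc0 : E := .sub (.sub U5 (.mul (.q 3 1) (.uu (.q 2 10) (.var 0))))
  (.add (.mul (.mul .pi (.q 7 10)) (.var 0)) (.q 158 1000))
def gH : E := .sub (.sub U5 (.mul (.q 4 1) (.uu (.q 2 10) (.var 0))))
  (.add (.mul (.mul .pi (.q 4 10)) (.var 0)) (.q 600 1000))

/-! ### values -/

variable {T k1 k2 θ x t a : ℝ}

theorem gR_eq (θ x t : ℝ) : gR θ x t = uu (x + 9 / 40) t + uu (x + 31 / 40) t - 2 * uu x t - θ := by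
  unfold gR
  rw [fR_uu]
  simp only [add_zero, sub_zero, uu_neg]
  rw [show x + 1 / 2 + -(11 / 40) = x + 9 / 40 by ring,
    show x + 1 / 2 - -(11 / 40) = x + 31 / 40 by ring]

/-- `gD1 + gR`, `u` the value at the sum -/
noncomputable def s1 (T k1 k2 u θ : ℝ) : ℝ :=
  uu (425 / 1000) T + uu (975 / 1000) T - 3 * uu (2 / 10) T - θ - Real.pi * T +
    (Real.pi * (2 / 10 * k2 + T * k1) + u)
/-- `gD2 + gR` -/
noncomputable def s2 (T k1 k2 u : ℝ) : ℝ :=
  uu (425 / 1000) T + uu (975 / 1000) T - 4 * uu (2 / 10) T - 112 / 1000 - Real.pi / 2 * T +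
    (u - Real.pi * ((2 / 10 - k1) * (T - k2)))

theorem gD1_eq (θ T k1 k2 : ℝ) : gD1 (2 / 10) T k1 k2 + gR θ (2 / 10) T =
    s1 T k1 k2 (uu (2 / 10 + k1) (T + k2)) θ := by
  rw [gR_eq]
  unfold gD1 s1
  rw [show (2 : ℝ) / 10 + 9 / 40 = 425 / 1000 by norm_num,
    show (2 : ℝ) / 10 + 31 / 40 = 975 / 1000 by norm_num]
  ring

theorem gD2_eq (T k1 k2 : ℝ) : gD2 (2 / 10) T k1 k2 + gR (112 / 1000) (2 / 10) T =
    s2 T k1 k2 (uu (2 / 10 + k1) (T + k2)) := by
  rw [gR_eq]
  unfold gD2 s2
  rw [show (2 : ℝ) / 10 + 9 / 40 = 425 / 1000 by norm_num,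
    show (2 : ℝ) / 10 + 31 / 40 = 975 / 1000 by norm_num]
  ring

theorem S1_val (u : E) (θ : ℤ) : (S1 u θ).val [T, k1, k2] =
    s1 T k1 k2 (u.val [T, k1, k2]) ((θ : ℝ) / 1000) := by
  simp only [S1, RT, U5, E.val, NumIs.lkR]
  unfold s1
  push_cast
  ring_nf

theorem S2_val (u : E) : (S2 u).val [T, k1, k2] = s2 T k1 k2 (u.val [T, k1, k2]) := by
  simp only [S2, RT, U5, E.val, NumIs.lkR]
  unfold s2
  push_cast
  ring_nf

theorem g1_val (u m : E) (θ : ℤ) : (g1 u θ m).val [T, k1, k2] =
    s1 T k1 k2 (u.val [T, k1, k2]) ((θ : ℝ) / 1000) - cA1 k1 k2 - m.val [T, k1, k2] := by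
  show (S1 u θ).val [T, k1, k2] - _ - _ = _
  rw [S1_val]
  unfold cA1
  simp only [E.val, NumIs.lkR]
  push_cast
  ring_nf

theorem g3_val (u o : E) (θ : ℤ) : (g3 u θ o).val [T, k1, k2] =
    s1 T k1 k2 (u.val [T, k1, k2]) ((θ : ℝ) / 1000) - o.val [T, k1, k2] - 1 / 1000 := by
  show (S1 u θ).val [T, k1, k2] - _ = _
  rw [S1_val]
  simp only [E.val, NumIs.lkR]
  push_cast
  ring

theorem g2_val (u m : E) : (g2 u m).val [T, k1, k2] =
    s2 T k1 k2 (u.val [T, k1, k2]) - cA2 k1 k2 - m.val [T, k1, k2] := by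
  show (S2 u).val [T, k1, k2] - _ - _ = _
  rw [S2_val]
  unfold cA2
  simp only [E.val, NumIs.lkR]
  push_cast
  ring_nf

theorem g4_val (u o : E) : (g4 u o).val [T, k1, k2] =
    s2 T k1 k2 (u.val [T, k1, k2]) + Real.pi * k1 * k2 - o.val [T, k1, k2] - 1 / 1000 := by
  show (S2 u).val [T, k1, k2] + _ = _
  rw [S2_val]
  simp only [E.val, NumIs.lkR]
  push_cast
  ring

theorem u0_val : u0.val [T, k1, k2] = uu (2 / 10 + k1) (T + k2) := by
  simp only [u0, E.val, NumIs.lkR]
  push_cast
  rfl

theorem uk_val : uk.val [T, k1, k2] = uu k1 k2 := by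
  simp only [uk, E.val, NumIs.lkR]

theorem s1_mono {u u' : ℝ} (h : u ≤ u') : s1 T k1 k2 u θ ≤ s1 T k1 k2 u' θ := by
  unfold s1
  linarith only [h]

theorem s2_mono {u u' : ℝ} (h : u ≤ u') : s2 T k1 k2 u ≤ s2 T k1 k2 u' := by
  unfold s2
  linarith only [h]

/-! ### slopes and asymptotics -/

theorem exp16 : 2 * Real.cosh (2 * Real.pi * (46 / 100)) + 2 ≤ Real.exp (2 * (16 / 10)) := by
  have h : NumIs.chk [NumIs.E.sub (NumIs.E.exp (NumIs.E.q 32 10)) (NumIs.E.add (NumIs.E.q 2 1)
      (NumIs.E.mul (NumIs.E.q 2 1) (NumIs.E.cosh (NumIs.E.mul NumIs.E.pi (NumIs.E.q 92 100)))))] 1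
      [NumIs.V.of 1 0 0] = true := by
    decide +kernel
  have hp := NumIs.pos_of_chk (NumIs.chk1 h (by norm_num) (x := 0) (by norm_num) (by norm_num))
  simp only [NumIs.E.val] at hp
  rw [show 2 * Real.pi * (46 / 100) = Real.pi * (((92 : ℤ) : ℝ) / ((100 : ℕ) : ℝ)) by
    push_cast; ring, show (2 : ℝ) * (16 / 10) = ((32 : ℤ) : ℝ) / ((10 : ℕ) : ℝ) by norm_num]
  have e2 : (((2 : ℤ) : ℝ) / ((1 : ℕ) : ℝ)) = 2 := by norm_num
  rw [e2] at hp
  linarith only [hp]

theorem uu_slope16 {u v : ℝ} (huv : u ≤ v) (ht : |t| ≤ 46 / 100) :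
    uu v t - uu u t ≤ 16 / 10 * (v - u) := TL.uu_slope huv (by norm_num) ht exp16

theorem exp11 : 1 + Real.exp (-(Real.pi * (708 / 1000))) ≤ Real.exp (11 / 100) := by
  have h : NumIs.chk [NumIs.E.sub (NumIs.E.exp (NumIs.E.q 11 100)) (NumIs.E.add (NumIs.E.q 1 1)
      (NumIs.E.exp (NumIs.E.neg (NumIs.E.mul NumIs.E.pi (NumIs.E.q 708 1000)))))] 1
      [NumIs.V.of 1 0 0] = true := by
    decide +kernel
  have hp := NumIs.pos_of_chk (NumIs.chk1 h (by norm_num) (x := 0) (by norm_num) (by norm_num))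
  simp only [NumIs.E.val] at hp
  push_cast at hp
  norm_num at hp ⊢
  linarith only [hp]

theorem exp_big {s : ℝ} (hs : 354 / 1000 ≤ s) :
    2 * Real.cosh (2 * Real.pi * s) + 2 ≤ Real.exp (2 * (Real.pi * s + 11 / 100)) := by
  have hp := Real.pi_pos
  have h1 : Real.exp (-(2 * Real.pi * s)) ≤ Real.exp (-(Real.pi * (708 / 1000))) := by
    apply Real.exp_le_exp.2
    nlinarith only [hs, hp]
  have h2 : 1 + Real.exp (-(2 * Real.pi * s)) ≤ Real.exp (11 / 100) := by linarith only [h1, exp11]
  have h3 : Real.exp (2 * (Real.pi * s + 11 / 100)) =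
      Real.exp (2 * Real.pi * s) * (Real.exp (11 / 100)) ^ 2 := by
    rw [pow_two, ← Real.exp_add, ← Real.exp_add]
    ring_nf
  have h4 : Real.exp (2 * Real.pi * s) * Real.exp (-(2 * Real.pi * s)) = 1 := by
    rw [← Real.exp_add]
    simp
  have h5 := Real.exp_pos (2 * Real.pi * s)
  have h6 := Real.exp_pos (-(2 * Real.pi * s))
  rw [h3, Real.cosh_eq]
  have h7 : (1 + Real.exp (-(2 * Real.pi * s))) ^ 2 ≤ (Real.exp (11 / 100)) ^ 2 :=
    pow_le_pow_left₀ (by positivity) h2 2
  have h8 := mul_le_mul_of_nonneg_left h7 h5.le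
  nlinarith only [h4, h8, h6]

theorem uu_up (ha : 0 ≤ a) (ht : 354 / 1000 ≤ |t|) :
    uu a t ≤ Real.pi * (a - 1 / 2) * |t| + 11 / 100 * a := by
  have h := TL.uu_slope (u := 0) (v := a) (t := t) (T := |t|) ha (by linarith only [ht]) le_rfl (exp_big ht)
  rw [TL.uu_zero] at h
  linarith only [h]

theorem uu_lo (ha : a ≤ 1) (ht : 354 / 1000 ≤ |t|) :
    Real.pi * (a - 1 / 2) * |t| - 11 / 100 * (1 - a) ≤ uu a t := by
  have h := uu_up (a := 1 - a) (t := t) (by linarith only [ha]) ht
  rw [uu_one_sub] at h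
  linarith only [h]

theorem uu_oneV (t : ℝ) : uu 1 t = Real.pi / 2 * |t| := by
  have h := uu_one_sub 0 t
  rw [sub_zero, TL.uu_zero, neg_neg] at h
  exact h

/-- to the left of `1` -/
theorem uu_left_one (ha : a ≤ 1) (ht : |t| ≤ 46 / 100) :
    Real.pi / 2 * |t| - 16 / 10 * (1 - a) ≤ uu a t := by
  have h := uu_slope16 ha ht
  rw [uu_oneV] at h
  linarith only [h]

/-- to the right of `0` -/
theorem uu_right_zero (ha : 0 ≤ a) (ht : |t| ≤ 46 / 100) :
    uu a t ≤ -(Real.pi / 2 * |t|) + 16 / 10 * a := by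
  have h := uu_slope16 ha ht
  rw [TL.uu_zero] at h
  linarith only [h]

theorem uu002 : -(62 / 1000) ≤ uu (2 / 100) 0 := by
  have h : chk [.add (.q 62 1000) (.uu (.q 2 100) (.var 0))] 3 [NumIs.V.of 1 0 0] = true := by
    decide +kernel
  have hp := pos_of_chk (chk1 h (by norm_num) (x := 0) (by norm_num) (by norm_num))
  simp only [E.val, NumIs.lkR] at hp
  push_cast at hp
  linarith only [hp]

end RC

end ZD

end Pool.Agent.Work.MP_b30479_gtS.G2

end

section

/-!
# Modes at rings: the side of the digit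

`far1`, `far3`, `far2`, `far0`: the point on the far path is worse than the target; `near1`, `near2`
the same for the near path.
-/

set_option deprecated.oldSectionVars true

namespace Pool.Agent.Work.MP_b30479_gtS.G2

open NumUs

namespace ZD

open NumIs (V) in
private theorem c0cert : chk [E.sub (E.sub RC.U5 (E.mul (E.q 3 1) (E.uu (E.q 2 10) (E.var 0))))
    (E.add (E.mul (E.mul E.pi (E.q 7 10)) (E.var 0)) (E.q 172 1000))] 20 [V.of 1000 88 131 0] = true := by
  decide +kernel

/-- stronger form of `RowsC.c0` -/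
theorem c0s (T : ℝ) (T0 : 88 / 1000 ≤ T) (T1 : T ≤ 131 / 1000) :
    60 / 1000 < gD0 (2 / 10) T + gR (112 / 1000) (2 / 10) T := by
  have hp := pos_of_chk (chk1 c0cert (by norm_num) (x := T) (by push_cast; linarith only [T0])
    (by push_cast; linarith only [T1]))
  simp only [RC.U5, E.val, NumIs.lkR] at hp
  push_cast at hp
  rw [RC.gR_eq]
  unfold gD0
  rw [show (2 : ℝ) / 10 + 9 / 40 = 425 / 1000 by norm_num,
    show (2 : ℝ) / 10 + 31 / 40 = 975 / 1000 by norm_num]
  linarith only [hp]

theorem uu_even (x y : ℝ) : uu x (-y) = uu x y := by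
  rw [uu_Lr, uu_Lr, abs_neg]

theorem dA1_eq (x Y k1 k2 : ℝ) : dA1 x Y k1 k2 = gD1 x (-Y) k1 k2 - Real.pi * Y := by
  unfold dA1 gD1
  rw [uu_even, show -Y + k2 = k2 - Y by ring]
  ring

theorem dA2_eq (x Y k1 k2 : ℝ) : dA2 x Y k1 k2 = gD2 x (-Y) k1 k2 - Real.pi * Y := by
  unfold dA2 gD2
  rw [uu_even, show -Y + k2 = k2 - Y by ring]
  ring

theorem dA0_eq (x Y : ℝ) : dA0 x Y = gD0 x (-Y) - Real.pi * Y := by
  unfold dA0 gD0
  rw [uu_even]
  ring

theorem dA1_zero (x k1 k2 : ℝ) : dA1 x 0 k1 k2 = gD1 x 0 k1 k2 := by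
  rw [dA1_eq, neg_zero, mul_zero, sub_zero]
theorem dA2_zero (x k1 k2 : ℝ) : dA2 x 0 k1 k2 = gD2 x 0 k1 k2 := by
  rw [dA2_eq, neg_zero, mul_zero, sub_zero]
theorem dA0_zero (x : ℝ) : dA0 x 0 = gD0 x 0 := by
  rw [dA0_eq, neg_zero, mul_zero, sub_zero]

/-- a point of the far path -/
structure FarIn (XM x Y t cl cr T σ η : ℝ) : Prop where
  hcl : 0 < cl
  hcl' : cl ≤ 16 / 100
  hcr : 0 < cr
  hcr' : cr ≤ 34 / 100
  ht : t = tr 0 XM cl cr x
  h0 : 0 < t
  hY : Y = 10000 * t
  x0 : 0 ≤ x
  x1 : x ≤ XM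
  XM1 : XM ≤ 1
  hσ : |σ| ≤ 1 / 2
  η0 : 0 ≤ η
  η1 : η ≤ 1045 / 10000 * LT.th σ
  T0 : -(1 / 1000) ≤ T
  T1 : T ≤ 158 / 1000

theorem th_le_one' (σ : ℝ) : LT.th σ ≤ 1 := by
  unfold LT.th
  exact min_le_left _ _

theorem FarIn.η2 {XM x Y t cl cr T σ η : ℝ} (F : FarIn XM x Y t cl cr T σ η) :
    η ≤ 1045 / 10000 := by
  have := F.η1
  have := th_le_one' σ
  linarith

theorem FarIn.Yp {XM x Y t cl cr T σ η : ℝ} (F : FarIn XM x Y t cl cr T σ η) : 0 < Y := by
  have := F.h0
  rw [F.hY]
  linarith only [this]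

/-- the hinge next to a digit `1` -/
theorem far1 (Z : ZRows) {x Y t cl cr T σ η k1 k2 θ c t' : ℝ}
    (F : FarIn (65 / 100) x Y t cl cr T σ η) (hd : dom1 k1 k2) (hG : Goal1 θ c t' k1 k2)
    (hM : gD1 x (T * t) k1 k2 + fR ⟨x, -(T * t)⟩ ⟨σ, η⟩ ≤ dA1 x Y k1 k2 + fA x Y σ η) :
    dA1 x Y k1 k2 + fA x Y σ η < bR σ η + (gD1 c t' k1 k2 + gR θ c t') := by
  have x0 := F.x0
  have x1 := F.x1
  have Yp := F.Yp
  have η2 := F.η2
  obtain ⟨g1, g2⟩ := hG
  have hm : 0 < mA1 k1 k2 := by
    unfold mA1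
    split_ifs
    · have := le_max_right k2 0
      have := hd.1
      positivity
    · norm_num
  have hk2 : k2 ≤ 16 / 100 := by
    rcases hd.2.2.2 with h | h
    · linarith only [h, h.2]
    · exact h.2.1
  have hk2' : |k2| ≤ 16 / 100 := abs_le.mpr ⟨hd.2.2.1, hk2⟩
  have hk1 := hd.1
  have hk1' := hd.2.1
  refine far_gen (d0 := dA1 x 0 k1 k2) (f0 := fR ⟨x, 0⟩ ⟨σ, η⟩) (Ym := 1 / 4)
    (C := cA1 k1 k2) (m := mA1 k1 k2) (c := 5 / 1000) F.hcl F.hcl' F.hcr F.hcr' F.ht F.h0 F.hY ?_ ?_
    ?_ ?_ ?_ (by linarith only [g1]) ?_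
  · intro h
    have a1 := Z.Z.wf x Y σ η x0 (by linarith only [x1]) h F.hσ F.η0 η2
    have a2 := Z.Z.w1 x Y k1 k2 x0 (by linarith only [x1]) h hk1 (by linarith only [hk1']) hk2
    linarith only [g1, hm, a1, a2]
  · intro h h'
    have a1 := Z.Z.zf x Y σ η x0 h Yp.le h' F.hσ F.η0 η2
    have a2 := Z.Z.z1 x Y k1 k2 x0 h Yp.le h' hk1 (by linarith only [hk1']) hk2'
    split_ifs at a2 with h3
    · linarith only [g1, hm, a1, a2]
    · have a3 := g2 (not_lt.1 h3)
      rcases max_cases (cA1 k1 k2) (oD1 k1 k2) with ⟨e, -⟩ | ⟨e, -⟩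
      · rw [e] at a2
        linarith only [g1, hm, a1, a2]
      · rw [e] at a2
        linarith only [a1, a2, a3]
  · intro h h' h''
    have a1 := Z.A.a65d x Y σ η (by linarith only [h]) x1 h' h'' F.hσ F.η0 F.η1
    have a2 := Z.B.b1d x Y k1 k2 (by linarith only [h]) x1 h' h'' hd
    linarith only [g1, a1, a2]
  · intro h h'
    exact Z.A.a65 x Y σ η (by linarith only [h]) x1 Yp h' F.hσ F.η0 F.η1
  · intro h h'
    exact Z.B.b1 x Y k1 k2 (by linarith only [h]) x1 Yp h' hd
  · rw [dA1_zero]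
    exact (pert x0 (by linarith only [x1]) F.hσ F.hY F.h0 F.T0 F.T1
      (by nlinarith only [Real.pi_pos] : 4 * Real.pi ≤ 6 * Real.pi)
      (gD1_lip x0 (by linarith only [x1]) hk1 (by linarith only [hk1']))).trans hM

/-- the hinge next to a region with three crossings (slot `0` or at an end) -/
theorem far3 (Z : ZRows) {x Y t cl cr T σ η k1 k2 t' : ℝ}
    (F : FarIn (60 / 100) x Y t cl cr T σ η) (hd : dom3 k1 k2) (hG : Goal3 t' k1 k2)
    (hM : gD1 x (T * t) k1 k2 + fR ⟨x, -(T * t)⟩ ⟨σ, η⟩ ≤ dA1 x Y k1 k2 + fA x Y σ η) :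
    dA1 x Y k1 k2 + fA x Y σ η <
      bR σ η + (gD1 (2 / 10) t' k1 k2 + gR (112 / 1000) (2 / 10) t') := by
  have x0 := F.x0
  have x1 := F.x1
  have Yp := F.Yp
  have η2 := F.η2
  obtain ⟨g1, g2⟩ := hG
  obtain ⟨d1, d2, d3, -, -⟩ := id hd
  have hk2 : k2 ≤ 16 / 100 := (abs_le.mp d3).2
  have hm : 0 < mA3 k1 k2 := by
    unfold mA3
    have := le_max_right k2 0
    split_ifs
    · positivity
    · norm_num
    · positivity
  refine far_gen (d0 := dA1 x 0 k1 k2) (f0 := fR ⟨x, 0⟩ ⟨σ, η⟩) (Ym := 13 / 100)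
    (C := cA1 k1 k2) (m := mA3 k1 k2) (c := 45 / 1000) F.hcl F.hcl' F.hcr F.hcr' F.ht F.h0 F.hY ?_ ?_
    ?_ ?_ ?_ (by linarith only [g1]) ?_
  · intro h
    have a1 := Z.Z.wf x Y σ η x0 (by linarith only [x1]) h F.hσ F.η0 η2
    have a2 := Z.Z.w1 x Y k1 k2 x0 (by linarith only [x1]) h (by linarith only [d1]) d2 hk2
    linarith only [g1, hm, a1, a2]
  · intro h h'
    have a1 := Z.Z.zf x Y σ η x0 h Yp.le h' F.hσ F.η0 η2
    have a2 := Z.Z.z1 x Y k1 k2 x0 h Yp.le h' (by linarith only [d1]) d2 d3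
    split_ifs at a2 with h3
    · linarith only [g1, d1, hm, a1, h3, a2]
    · have a3 := g2 (not_lt.1 h3)
      rcases max_cases (cA1 k1 k2) (oD1 k1 k2) with ⟨e, -⟩ | ⟨e, -⟩
      · rw [e] at a2
        linarith only [g1, hm, a1, a2]
      · rw [e] at a2
        linarith only [a1, a2, a3]
  · intro h h' h''
    have a1 := Z.A.a60d x Y σ η (by linarith only [h]) x1 h' h'' F.hσ F.η0 F.η1
    have a2 := Z.B.b3d x Y k1 k2 (by linarith only [h]) x1 h' h'' hd
    linarith only [g1, a1, a2]
  · intro h h'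
    exact Z.A.a60 x Y σ η (by linarith only [h]) x1 Yp h' F.hσ F.η0 F.η1
  · intro h h'
    exact Z.B.b3 x Y k1 k2 (by linarith only [h]) x1 Yp h' hd
  · rw [dA1_zero]
    exact (pert x0 (by linarith only [x1]) F.hσ F.hY F.h0 F.T0 F.T1
      (by nlinarith only [Real.pi_pos] : 4 * Real.pi ≤ 6 * Real.pi)
      (gD1_lip x0 (by linarith only [x1]) (by linarith only [d1]) d2)).trans hM

/-- the hinge next to a digit `2` or a digit `3` (slot `2`) -/
theorem far2 (Z : ZRows) {x Y t cl cr T σ η k1 k2 t' : ℝ}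
    (F : FarIn (60 / 100) x Y t cl cr T σ η) (hd : dom2 k1 k2) (hG : Goal2 t' k1 k2)
    (hM : gD2 x (T * t) k1 k2 + fR ⟨x, -(T * t)⟩ ⟨σ, η⟩ ≤ dA2 x Y k1 k2 + fA x Y σ η) :
    dA2 x Y k1 k2 + fA x Y σ η <
      bR σ η + (gD2 (2 / 10) t' k1 k2 + gR (112 / 1000) (2 / 10) t') := by
  have x0 := F.x0
  have x1 := F.x1
  have Yp := F.Yp
  have η2 := F.η2
  obtain ⟨g1, g2⟩ := hG
  obtain ⟨d1, d2, d3, -⟩ := id hd
  have hm : 0 < mA2 k1 := by
    unfold mA2
    exact lt_min (by linarith only [d1]) (by norm_num)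
  refine far_gen (d0 := dA2 x 0 k1 k2) (f0 := fR ⟨x, 0⟩ ⟨σ, η⟩) (Ym := 13 / 100)
    (C := cA2 k1 k2) (m := mA2 k1) (c := 45 / 1000) F.hcl F.hcl' F.hcr F.hcr' F.ht F.h0 F.hY ?_ ?_
    ?_ ?_ ?_ (by linarith only [g1]) ?_
  · intro h
    have a1 := Z.Z.wf x Y σ η x0 (by linarith only [x1]) h F.hσ F.η0 η2
    have a2 := Z.Z.w2 x Y k1 k2 x0 (by linarith only [x1]) h (by linarith only [d1]) (by linarith only [d2]) d3
    linarith only [g1, hm, a1, a2]
  · intro h h'
    have a1 := Z.Z.zf x Y σ η x0 h Yp.le h' F.hσ F.η0 η2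
    have a2 := Z.Z.z2 x Y k1 k2 x0 h Yp.le h' (by linarith only [d1]) (by linarith only [d2]) d3
    rcases max_cases (cA2 k1 k2) (oD2 k1 k2) with ⟨e, -⟩ | ⟨e, -⟩
    · rw [e] at a2
      linarith only [g1, hm, a1, a2]
    · rw [e] at a2
      linarith only [g2, a1, a2]
  · intro h h' h''
    have a1 := Z.A.a60d x Y σ η (by linarith only [h]) x1 h' h'' F.hσ F.η0 F.η1
    have a2 := Z.B.b2d x Y k1 k2 (by linarith only [h]) x1 h' h'' hd
    linarith only [g1, a1, a2]
  · intro h h'
    exact Z.A.a60 x Y σ η (by linarith only [h]) x1 Yp h' F.hσ F.η0 F.η1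
  · intro h h'
    exact Z.B.b2 x Y k1 k2 (by linarith only [h]) x1 Yp h' hd
  · rw [dA2_zero]
    exact (pert x0 (by linarith only [x1]) F.hσ F.hY F.h0 F.T0 F.T1 le_rfl
      (gD2_lip x0 (by linarith only [x1]) d1 (by linarith only [d2]))).trans hM

/-- the hinge next to a digit `2` at an end -/
theorem far0 (Z : ZRows) {x Y t cl cr T σ η t' : ℝ}
    (F : FarIn (60 / 100) x Y t cl cr T σ η) (T0 : 88 / 1000 ≤ t') (T1 : t' ≤ 131 / 1000)
    (hM : gD0 x (T * t) + fR ⟨x, -(T * t)⟩ ⟨σ, η⟩ ≤ dA0 x Y + fA x Y σ η) :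
    dA0 x Y + fA x Y σ η <
      bR σ η + (gD0 (2 / 10) t' + gR (112 / 1000) (2 / 10) t') := by
  have x0 := F.x0
  have x1 := F.x1
  have Yp := F.Yp
  have η2 := F.η2
  have g1 := c0s t' T0 T1
  refine far_gen (d0 := dA0 x 0) (f0 := fR ⟨x, 0⟩ ⟨σ, η⟩) (Ym := 13 / 100)
    (C := 0) (m := 0) (c := 45 / 1000) F.hcl F.hcl' F.hcr F.hcr' F.ht F.h0 F.hY ?_ ?_
    ?_ ?_ ?_ (by linarith only [g1]) ?_
  · intro h
    have a1 := Z.Z.wf x Y σ η x0 (by linarith only [x1]) h F.hσ F.η0 η2
    have a2 := Z.Z.w0 x Y x0 (by linarith only [x1]) h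
    linarith only [g1, a1, a2]
  · intro h h'
    have a1 := Z.Z.zf x Y σ η x0 h Yp.le h' F.hσ F.η0 η2
    have a2 := Z.Z.z0 x Y x0 h Yp.le h'
    linarith only [g1, a1, a2]
  · intro h h' h''
    have a1 := Z.A.a60d x Y σ η (by linarith only [h]) x1 h' h'' F.hσ F.η0 F.η1
    have a2 := Z.B.b0d x Y (by linarith only [h]) x1 h' h''
    linarith only [g1, a1, a2]
  · intro h h'
    exact Z.A.a60 x Y σ η (by linarith only [h]) x1 Yp h' F.hσ F.η0 F.η1
  · intro h h'
    have := Z.B.b0 x Y (by linarith only [h]) x1 Yp h'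
    linarith only [this]
  · rw [dA0_zero]
    exact (pert x0 (by linarith only [x1]) F.hσ F.hY F.h0 F.T0 F.T1 le_rfl
      (gD0_lip x0 (by linarith only [x1]))).trans hM

/-! ### the near path -/

theorem PN_pos {x : ℝ} (h0 : 0 < x) (h1 : x < 60 / 100) : 0 < PN x := by
  unfold PN
  have : (25 : ℝ) / 10 < 22 / 10 / (x + 15 / 100) := by
    rw [lt_div_iff₀ (by linarith only [h0, h1])]
    linarith only [h0, h1]
  linarith only [this]

theorem near_gen {x y A A' B B' P c d : ℝ} (hy : 0 < y) (hP : 0 < P)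
    (h1 : 0 ≤ A + y * (P * B + c)) (h2 : 0 ≤ B + d) (h3 : d < B' ∨ 0 < A' + y * (P * B' - c))
    (hM : A + A' ≤ 0) : 0 < B + B' := by
  rcases h3 with h | h
  · linarith only [h2, h]
  · by_contra hc
    have a1 : B + B' ≤ 0 := not_lt.1 hc
    have a2 : y * (P * (B + B')) ≤ 0 :=
      mul_nonpos_of_nonneg_of_nonpos hy.le (mul_nonpos_of_nonneg_of_nonpos hP.le a1)
    nlinarith only [h1, hM, h, a2]

theorem NT.tp {a x t T : ℝ} (h : NT a x t T) (ha : 0 < a) : 0 < t := by
  rw [h.t]
  unfold tN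
  have := h.x0
  have := h.x1
  refine lt_min (by norm_num) (lt_min (by positivity) (div_pos (by linarith only [this]) (by norm_num)))

theorem near1 (N : RowsN) {x t T σ η k1 k2 : ℝ} (h : NT (12 / 100) x t T) (hd : dom3 k1 k2)
    (hσ : |σ| ≤ 1 / 2) (η0 : 0 ≤ η) (η1 : η ≤ 1045 / 10000 * LT.th σ)
    (hM : nA1 x t T k1 k2 + nAR x t T σ η ≤ 0) : 0 < nB1 x t T k1 k2 + nBR x t T σ η :=
  near_gen (x := x) (y := 16 / 100 * t) (by have := h.tp (by norm_num); positivity)
    (PN_pos h.x0 h.x1) (N.nD1 x t T k1 k2 h hd) (N.nd1 x t T k1 k2 h hd)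
    (N.nR _ x t T σ η (Or.inl rfl) h hσ η0 η1) hM

theorem near2 (N : RowsN) {x t T σ η k1 k2 : ℝ} (h : NT (13 / 100) x t T) (d0 : 0 ≤ k1)
    (d1 : |k2| ≤ 16 / 100) (d2 : |k2| ≤ 32 / 10 * k1) (d3 : |k2| ≤ 32 / 10 * (80 / 100 - k1))
    (hσ : |σ| ≤ 1 / 2) (η0 : 0 ≤ η) (η1 : η ≤ 1045 / 10000 * LT.th σ)
    (hM : nA2 x t T k1 k2 + nAR x t T σ η ≤ 0) : 0 < nB2 x t T k1 k2 + nBR x t T σ η :=
  near_gen (x := x) (y := 16 / 100 * t) (by have := h.tp (by norm_num); positivity)
    (PN_pos h.x0 h.x1) (N.nD2 x t T k1 k2 h d0 d1 d2 d3) (N.nd2 x t T k1 k2 h d0 d1 d2 d3)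
    (N.nR _ x t T σ η (Or.inr rfl) h hσ η0 η1) hM

end ZD

end Pool.Agent.Work.MP_b30479_gtS.G2

end

section

/-!
# Modes at rings, rows `C`: a digit `1` next to an end with two crossings, an end with two crossings
-/

set_option deprecated.oldSectionVars true

namespace Pool.Agent.Work.MP_b30479_gtS.G2

open VOL NumUs

namespace ZD

namespace RC

open NumIs (V) in
theorem rE1 : chkT [g1 u0 108 (.add (.q 965 100000) (.mul (.q 2 10) (.var 1)))] 40
    2177
    [V.of 1000 100 158 0, V.of 1000 50 250 0, V.of 1000 (-160) 1 0] = true := by decide +kernel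

open NumIs (V) in
theorem rE2 : chkT [g1 u0 108 (.q 185 1000)] 40
    9380519510545
    [V.of 1000 100 158 0, V.of 1000 250 700 0, V.of 1000 (-160) 160 0] = true := by decide +kernel

open NumIs (V) in
theorem rE3 : chkT [g3 u0 108 uk] 40
    2178
    [V.of 1000 100 158 0, V.of 1000 500 700 0, V.of 1000 (-160) 160 0] = true := by decide +kernel

open NumIs (V) in
theorem rE0 : chkT [g12] 40
    2176
    [V.of 1000 100 158 0, V.of 1000 0 50 0, V.of 1000 (-58) 1 0] = true := by decide +kernel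

open NumIs (V) in
theorem rc0 : chk [gc0] 20 [V.of 1000 88 131 0] = true := by decide +kernel

set_option deprecated.oldSectionVars false
variable {T k1 k2 u t : ℝ}

theorem goal1_e (T0 : 100 / 1000 ≤ T) (T1 : T ≤ 158 / 1000) (h0 : 5 / 100 ≤ k1)
    (h1 : k1 ≤ 70 / 100) (h2 : -(16 / 100) ≤ k2) (h3 : k2 ≤ 16 / 100)
    (h4 : k1 < 1 / 4 → k2 ≤ 1 / 1000) : Goal1 (108 / 1000) (2 / 10) T k1 k2 := by
  unfold Goal1
  rw [gD1_eq]
  constructor
  · rcases lt_or_ge k1 (1 / 4) with h | h
    · obtain ⟨e, he, hp⟩ := chkT3 rE1 (by norm_num) (x := T) (y := k1) (z := k2)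
        (by push_cast; linarith only [T0]) (by push_cast; linarith only [T1]) (by push_cast; linarith only [h0])
        (by push_cast; linarith only [h]) (by push_cast; linarith only [h2]) (by push_cast; linarith only [h4, h, h4 h])
      rw [List.mem_singleton.1 he, g1_val, u0_val] at hp
      simp only [E.val, NumIs.lkR] at hp
      push_cast at hp
      unfold mA1
      rw [if_pos h]
      have h5 : max k2 0 ≤ 1 / 1000 := max_le (h4 h) (by norm_num)
      linarith only [hp, h5]
    · obtain ⟨e, he, hp⟩ := chkT3 rE2 (by norm_num) (x := T) (y := k1) (z := k2)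
        (by push_cast; linarith only [T0]) (by push_cast; linarith only [T1]) (by push_cast; linarith only [h])
        (by push_cast; linarith only [h1]) (by push_cast; linarith only [h2]) (by push_cast; linarith only [h3])
      rw [List.mem_singleton.1 he, g1_val, u0_val] at hp
      simp only [E.val] at hp
      push_cast at hp
      unfold mA1
      rw [if_neg (not_lt.2 h)]
      linarith only [hp]
  · intro h
    obtain ⟨e, he, hp⟩ := chkT3 rE3 (by norm_num) (x := T) (y := k1) (z := k2)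
      (by push_cast; linarith only [T0]) (by push_cast; linarith only [T1]) (by push_cast; linarith only [h])
      (by push_cast; linarith only [h1]) (by push_cast; linarith only [h2]) (by push_cast; linarith only [h3])
    rw [List.mem_singleton.1 he, g3_val, u0_val, uk_val] at hp
    push_cast at hp
    unfold oD1
    linarith only [hp]

theorem g12_val : g12.val [T, k1, k2] = gD1 (12 / 100) (3 / 4 * T) k1 k2 +
    gR (108 / 1000) (12 / 100) (3 / 4 * T) - cA1 k1 k2 - (965 / 100000 + 2 / 10 * k1) := by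
  rw [gR_eq]
  unfold gD1 cA1
  simp only [g12, t34, E.val, NumIs.lkR]
  rw [show (12 : ℝ) / 100 + 9 / 40 = 345 / 1000 by norm_num,
    show (12 : ℝ) / 100 + 31 / 40 = 895 / 1000 by norm_num]
  push_cast
  ring_nf

theorem goal1_e0 (T0 : 100 / 1000 ≤ T) (T1 : T ≤ 158 / 1000) (h0 : 0 ≤ k1)
    (h1 : k1 ≤ 5 / 100) (h2 : -(58 / 1000) ≤ k2) (h3 : k2 ≤ 1 / 1000) :
    Goal1 (108 / 1000) (12 / 100) (3 / 4 * T) k1 k2 := by
  unfold Goal1
  constructor
  · obtain ⟨e, he, hp⟩ := chkT3 rE0 (by norm_num) (x := T) (y := k1) (z := k2)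
      (by push_cast; linarith only [T0]) (by push_cast; linarith only [T1]) (by push_cast; linarith only [h0])
      (by push_cast; linarith only [h1]) (by push_cast; linarith only [h2]) (by push_cast; linarith only [h3])
    rw [List.mem_singleton.1 he, g12_val] at hp
    unfold mA1
    rw [if_pos (by linarith only [h1])]
    have h5 : max k2 0 ≤ 1 / 1000 := max_le h3 (by norm_num)
    linarith only [hp, h5]
  · intro h
    exfalso
    linarith only [h1, h]

end RC

open RC

theorem cem : ∀ T u k1 t : ℝ, 100 / 1000 ≤ T → T ≤ 158 / 1000 → -(66 / 1000) ≤ u → u ≤ 1 / 1000 →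
    5 / 100 ≤ k1 → k1 ≤ 70 / 100 → Rmp (14 / 100) (35 / 100) k1 t →
    Goal1 (108 / 1000) (2 / 10) T k1 (u * t) := by
  intro T u k1 t T0 T1 u0 u1 h0 h1 hr
  obtain ⟨t0, t1, -⟩ := hr
  exact goal1_e T0 T1 h0 h1 (by nlinarith only [t1, u0, t0]) (by nlinarith only [u1, t0, u0, t1]) (fun _ => by nlinarith only [u1, u0, t1, t0])

theorem ced : ∀ T k1 t : ℝ, 100 / 1000 ≤ T → T ≤ 158 / 1000 → 5 / 100 ≤ k1 → k1 ≤ 70 / 100 →
    Rmp (14 / 100) (35 / 100) k1 t → Goal1 (108 / 1000) (2 / 10) T k1 (-(16 / 100) * t) := by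
  intro T k1 t T0 T1 h0 h1 hr
  obtain ⟨t0, t1, -⟩ := hr
  exact goal1_e T0 T1 h0 h1 (by linarith only [t1]) (by linarith only [t0]) (fun _ => by linarith)

theorem ceu : ∀ T k1 t : ℝ, 100 / 1000 ≤ T → T ≤ 158 / 1000 → 1 / 4 ≤ k1 → k1 ≤ 70 / 100 →
    Rmp (14 / 100) (35 / 100) k1 t → Goal1 (108 / 1000) (2 / 10) T k1 (16 / 100 * t) := by
  intro T k1 t T0 T1 h0 h1 hr
  obtain ⟨t0, t1, -⟩ := hr
  exact goal1_e T0 T1 (by linarith only [h0]) h1 (by linarith only [t0]) (by linarith only [t1])
    (fun h => absurd h (not_lt.2 h0))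

theorem cem0 : ∀ T u k1 : ℝ, 100 / 1000 ≤ T → T ≤ 158 / 1000 → -(66 / 1000) ≤ u → u ≤ 1 / 1000 →
    0 ≤ k1 → k1 ≤ 5 / 100 →
    Goal1 (108 / 1000) (12 / 100) (3 / 4 * T) k1 (u * (k1 / (14 / 100))) := by
  intro T u k1 T0 T1 u0 u1 h0 h1
  have h2 : 0 ≤ k1 / (14 / 100) := by positivity
  have h3 : k1 / (14 / 100) ≤ 1 := by rw [div_le_one (by norm_num)]; linarith only [h1]
  have h4 : k1 / (14 / 100) ≤ 5 / 14 := by rw [div_le_div_iff₀ (by norm_num) (by norm_num)]; linarith only [h1]
  exact goal1_e0 T0 T1 h0 h1 (by nlinarith only [h1, u0, h0]) (by nlinarith only [u1, u0, h1, h0])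

theorem ced0 : ∀ T k1 : ℝ, 100 / 1000 ≤ T → T ≤ 158 / 1000 → 0 ≤ k1 → k1 ≤ 5 / 100 →
    Goal1 (108 / 1000) (12 / 100) (3 / 4 * T) k1 (-(16 / 100) * (k1 / (14 / 100))) := by
  intro T k1 T0 T1 h0 h1
  have h2 : 0 ≤ k1 / (14 / 100) := by positivity
  have h4 : k1 / (14 / 100) ≤ 5 / 14 := by rw [div_le_div_iff₀ (by norm_num) (by norm_num)]; linarith only [h1]
  exact goal1_e0 T0 T1 h0 h1 (by nlinarith only [h1]) (by nlinarith only [h0])

theorem c0 : ∀ T : ℝ, 88 / 1000 ≤ T → T ≤ 131 / 1000 →
    46 / 1000 < gD0 (2 / 10) T + gR (112 / 1000) (2 / 10) T := by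
  intro T T0 T1
  have hp := pos_of_chk (chk1 RC.rc0 (by norm_num) (x := T) (by push_cast; linarith only [T0])
    (by push_cast; linarith only [T1]))
  simp only [gc0, U5, E.val, NumIs.lkR] at hp
  push_cast at hp
  rw [gR_eq]
  unfold gD0
  rw [show (2 : ℝ) / 10 + 9 / 40 = 425 / 1000 by norm_num,
    show (2 : ℝ) / 10 + 31 / 40 = 975 / 1000 by norm_num]
  linarith only [hp]

end ZD

end Pool.Agent.Work.MP_b30479_gtS.G2

end

section

/-!
# Modes at rings, rows `C`: the other variable of the second kind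
-/

set_option deprecated.oldSectionVars true

namespace Pool.Agent.Work.MP_b30479_gtS.G2

open VOL NumUs

namespace ZD

namespace RC

open NumIs (V) in
theorem r2a : chkT [g2 u0 (.add (.q 65 1000) (.mul (.q 7 10) (.var 1))), g2 u0 (.q 295 1000), vi32] 40
    125802453366054162635503397192282295150932369350823106237132497267532713274325734714076542290027366892656179772070765056710665492095740865801312622124385608862731346449
    [V.of 1000 (-1) 96 0, V.of 1000 0 790 0, V.of 1000 (-450) 160 0] = true := by decide +kernel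

open NumIs (V) in
theorem r2b : chkT [g2 up (.q 295 1000), g2 um (.q 295 1000)] 40
    9
    [V.of 1000 (-1) 96 0, V.of 1000 790 800 0, V.of 1000 (-450) 160 0] = true := by decide +kernel

open NumIs (V) in
theorem r2c : chkT [g4 u0 op, g4 u0 om] 40
    623234
    [V.of 1000 (-1) 96 0, V.of 1000 0 10 0, V.of 1000 (-450) 160 0] = true := by decide +kernel

open NumIs (V) in
theorem r2d : chkT [g4 u0 uk] 40
    22035178254622853280364593878592529389970877316281186043795090844610002335458423158795053323363037657656209568354458013969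
    [V.of 1000 (-1) 96 0, V.of 1000 10 790 0, V.of 1000 (-450) 160 0] = true := by decide +kernel

open NumIs (V) in
theorem r2e : chkT [g4 up uk, g4 um uk] 40
    2450
    [V.of 1000 (-1) 96 0, V.of 1000 790 800 0, V.of 1000 (-450) 160 0] = true := by decide +kernel

open NumIs (V) in
theorem rH : chk [gH] 20 [V.of 1000 (-1) 96 0] = true := by decide +kernel

set_option deprecated.oldSectionVars false
variable {T k1 k2 u t : ℝ}

theorem gH_pos (T0 : -(1 / 1000) ≤ T) (T1 : T ≤ 96 / 1000) :
    Real.pi * (4 / 10) * T + 600 / 1000 <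
      uu (425 / 1000) T + uu (975 / 1000) T - 4 * uu (2 / 10) T := by
  have hp := pos_of_chk (chk1 rH (by norm_num) (x := T) (by push_cast; linarith only [T0])
    (by push_cast; linarith only [T1]))
  simp only [gH, U5, E.val, NumIs.lkR] at hp
  push_cast at hp
  linarith only [hp]

/-- both goals as differences -/
theorem Goal2_of (h1 : 0 < s2 T k1 k2 (uu (2 / 10 + k1) (T + k2)) - cA2 k1 k2 -
      (65 / 1000 + 7 / 10 * k1) ∨
      0 < s2 T k1 k2 (uu (2 / 10 + k1) (T + k2)) - cA2 k1 k2 - 295 / 1000)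
    (h2 : 0 < s2 T k1 k2 (uu (2 / 10 + k1) (T + k2)) + Real.pi * k1 * k2 - uu k1 k2 - 1 / 1000) :
    Goal2 T k1 k2 := by
  unfold Goal2
  rw [gD2_eq]
  constructor
  · have m1 : mA2 k1 ≤ 2 / 100 + 7 / 10 * k1 := min_le_left _ _
    have m2 : mA2 k1 ≤ 1 / 4 := min_le_right _ _
    rcases h1 with h1 | h1 <;> linarith only [m1, h1, m2]
  · unfold oD2
    linarith only [h2]

theorem lo16 (h0 : 79 / 100 ≤ k1) (h1 : k1 ≤ 80 / 100) (hy : |T + k2| ≤ 46 / 100) :
    up.val [T, k1, k2] ≤ uu (2 / 10 + k1) (T + k2) ∧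
      um.val [T, k1, k2] ≤ uu (2 / 10 + k1) (T + k2) := by
  have hp := Real.pi_pos
  have h := uu_left_one (a := 2 / 10 + k1) (t := T + k2) (by linarith only [h1]) hy
  have a1 := mul_le_mul_of_nonneg_left (le_abs_self (T + k2)) (by positivity : 0 ≤ Real.pi / 2)
  have a2 := mul_le_mul_of_nonneg_left (neg_le_abs (T + k2)) (by positivity : 0 ≤ Real.pi / 2)
  simp only [up, um, E.val, NumIs.lkR]
  push_cast
  constructor <;> linarith only [h0, h, a1, a2]

theorem hi16 (h0 : 0 ≤ k1) (h1 : k1 ≤ 10 / 1000) (hy : |k2| ≤ 46 / 100) :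
    uu k1 k2 ≤ op.val [T, k1, k2] ∧ uu k1 k2 ≤ om.val [T, k1, k2] := by
  have hp := Real.pi_pos
  have h := uu_right_zero (a := k1) (t := k2) h0 hy
  have a1 := mul_le_mul_of_nonneg_left (le_abs_self k2) (by positivity : 0 ≤ Real.pi / 2)
  have a2 := mul_le_mul_of_nonneg_left (neg_le_abs k2) (by positivity : 0 ≤ Real.pi / 2)
  simp only [op, om, E.val, NumIs.lkR]
  push_cast
  constructor <;> linarith only [h1, h, a2, a1]

/-- moderate heights -/
theorem goal2_near (T0 : -(1 / 1000) ≤ T) (T1 : T ≤ 96 / 1000) (hd : dom2 k1 k2)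
    (hk : -(450 / 1000) ≤ k2) : Goal2 T k1 k2 := by
  obtain ⟨d0, d1, d2, d3⟩ := hd
  have hy : |T + k2| ≤ 46 / 100 := by rw [abs_le]; constructor <;> linarith only [T0, hk, T1, d2]
  have hk' : |k2| ≤ 46 / 100 := by rw [abs_le]; constructor <;> linarith only [hk, d2]
  apply Goal2_of
  · rcases le_total k1 (79 / 100) with h | h
    · obtain ⟨e, he, hp⟩ := chkT3 r2a (by norm_num) (x := T) (y := k1) (z := k2)
        (by push_cast; linarith only [T0]) (by push_cast; linarith only [T1]) (by push_cast; linarith only [d0])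
        (by push_cast; linarith only [h]) (by push_cast; linarith only [hk]) (by push_cast; linarith only [d2])
      simp only [List.mem_cons, List.not_mem_nil, or_false] at he
      rcases he with rfl | rfl | rfl
      · left
        rw [g2_val, u0_val] at hp
        simp only [E.val, NumIs.lkR] at hp
        push_cast at hp
        linarith only [hp]
      · right
        rw [g2_val, u0_val] at hp
        simp only [E.val] at hp
        push_cast at hp
        linarith only [hp]
      · exfalso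
        simp only [vi32, E.val, NumIs.lkR] at hp
        push_cast at hp
        linarith only [d3, hp]
    · right
      obtain ⟨b1, b2⟩ := lo16 h (by linarith only [d1]) hy
      obtain ⟨e, he, hp⟩ := chkT3 r2b (by norm_num) (x := T) (y := k1) (z := k2)
        (by push_cast; linarith only [T0]) (by push_cast; linarith only [T1]) (by push_cast; linarith only [h])
        (by push_cast; linarith only [d1]) (by push_cast; linarith only [hk]) (by push_cast; linarith only [d2])
      simp only [List.mem_cons, List.not_mem_nil, or_false] at he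
      rcases he with rfl | rfl
      · rw [g2_val] at hp
        have := s2_mono (T := T) (k1 := k1) (k2 := k2) b1
        generalize up.val [T, k1, k2] = q at *
        simp only [E.val] at hp
        push_cast at hp
        linarith only [this, hp]
      · rw [g2_val] at hp
        have := s2_mono (T := T) (k1 := k1) (k2 := k2) b2
        generalize um.val [T, k1, k2] = q at *
        simp only [E.val] at hp
        push_cast at hp
        linarith only [this, hp]
  · rcases le_total k1 (10 / 1000) with h | h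
    · obtain ⟨b1, b2⟩ := hi16 (T := T) d0 h hk'
      obtain ⟨e, he, hp⟩ := chkT3 r2c (by norm_num) (x := T) (y := k1) (z := k2)
        (by push_cast; linarith only [T0]) (by push_cast; linarith only [T1]) (by push_cast; linarith only [d0])
        (by push_cast; linarith only [h]) (by push_cast; linarith only [hk]) (by push_cast; linarith only [d2])
      simp only [List.mem_cons, List.not_mem_nil, or_false] at he
      rcases he with rfl | rfl
      · rw [g4_val, u0_val] at hp
        linarith only [b1, hp]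
      · rw [g4_val, u0_val] at hp
        linarith only [b2, hp]
    · rcases le_total k1 (79 / 100) with h' | h'
      · obtain ⟨e, he, hp⟩ := chkT3 r2d (by norm_num) (x := T) (y := k1) (z := k2)
          (by push_cast; linarith only [T0]) (by push_cast; linarith only [T1]) (by push_cast; linarith only [h])
          (by push_cast; linarith only [h']) (by push_cast; linarith only [hk]) (by push_cast; linarith only [d2])
        rw [List.mem_singleton.1 he, g4_val, u0_val, uk_val] at hp
        exact hp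
      · obtain ⟨b1, b2⟩ := lo16 h' (by linarith only [d1]) hy
        obtain ⟨e, he, hp⟩ := chkT3 r2e (by norm_num) (x := T) (y := k1) (z := k2)
          (by push_cast; linarith only [T0]) (by push_cast; linarith only [T1]) (by push_cast; linarith only [h'])
          (by push_cast; linarith only [d1]) (by push_cast; linarith only [hk]) (by push_cast; linarith only [d2])
        simp only [List.mem_cons, List.not_mem_nil, or_false] at he
        rcases he with rfl | rfl
        · rw [g4_val, uk_val] at hp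
          have := s2_mono (T := T) (k1 := k1) (k2 := k2) b1
          linarith only [hp, this]
        · rw [g4_val, uk_val] at hp
          have := s2_mono (T := T) (k1 := k1) (k2 := k2) b2
          linarith only [hp, this]

/-- large heights -/
theorem goal2_far (T0 : -(1 / 1000) ≤ T) (T1 : T ≤ 96 / 1000) (hd : dom2 k1 k2)
    (hk : k2 ≤ -(450 / 1000)) : Goal2 T k1 k2 := by
  obtain ⟨d0, d1, d2, d3⟩ := hd
  have hH := gH_pos T0 T1
  have e1 : |T + k2| = -(T + k2) := abs_of_nonpos (by linarith only [T1, hk])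
  have e2 : |k2| = -k2 := abs_of_nonpos (by linarith only [hk])
  have h1 := uu_lo (a := 2 / 10 + k1) (t := T + k2) (by linarith only [d1]) (by rw [e1]; linarith only [T1, hk])
  have h2 := uu_up (a := k1) (t := k2) d0 (by rw [e2]; linarith only [hk])
  rw [e1] at h1
  rw [e2] at h2
  apply Goal2_of
  · right
    unfold s2 cA2
    linarith only [d0, hH, h1]
  · unfold s2
    linarith only [hH, h1, h2]

theorem goal2 (T0 : -(1 / 1000) ≤ T) (T1 : T ≤ 96 / 1000) (hd : dom2 k1 k2) : Goal2 T k1 k2 := by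
  rcases le_total (-(450 / 1000)) k2 with h | h
  · exact goal2_near T0 T1 hd h
  · exact goal2_far T0 T1 hd h

end RC

theorem c2 : ∀ T k1 k2 : ℝ, 10 / 1000 ≤ T → T ≤ 96 / 1000 → dom2 k1 k2 → Goal2 T k1 k2 :=
  fun _ _ _ T0 T1 hd => RC.goal2 (by linarith only [T0]) T1 hd

theorem c32 : ∀ T k1 k2 : ℝ, -(1 / 1000) ≤ T → T ≤ 58 / 1000 → dom2 k1 k2 → -(16 / 100) ≤ k2 →
    Goal2 T k1 k2 :=
  fun _ _ _ T0 T1 hd _ => RC.goal2 T0 (by linarith only [T1]) hd

end ZD

end Pool.Agent.Work.MP_b30479_gtS.G2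

end

section

/-!
# Modes at rings, rows `C`: the other variable of a region with three crossings
-/

set_option deprecated.oldSectionVars true

namespace Pool.Agent.Work.MP_b30479_gtS.G2

open VOL NumUs

namespace ZD

namespace RC

open NumIs (V) in
theorem r3a : chkT [g1 u0 112 (.q 95 1000), w1] 40
    8
    [V.of 1000 (-1) 58 0, V.of 1000 200 300 0, V.of 1000 (-160) 0 0] = true := by decide +kernel

open NumIs (V) in
theorem r3b : chkT [g1 u0 112 (.add (.q 95 1000) (.mul (.q 85 100) (.var 2))), w2] 40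
    898460102371886855910908305770498595513897829819167268469177716866
    [V.of 1000 (-1) 58 0, V.of 1000 200 300 0, V.of 1000 0 160 0] = true := by decide +kernel

open NumIs (V) in
theorem r3c : chkT [g1 u0 112 (.q 245 1000)] 40
    156907706877460644369
    [V.of 1000 (-1) 58 0, V.of 1000 300 700 0, V.of 1000 (-160) 160 0] = true := by decide +kernel

open NumIs (V) in
theorem r3d : chkT [g1 u0 112 (.q 145 1000)] 40
    44185873214980796802350699595794465
    [V.of 1000 (-1) 58 0, V.of 1000 700 790 0, V.of 1000 (-160) 0 0] = true := by decide +kernel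

open NumIs (V) in
theorem r3e : chkT [g1 u0 112 (.add (.q 145 1000) (.mul (.q 19 10) (.var 2)))] 40
    2401883730223489
    [V.of 1000 (-1) 58 0, V.of 1000 700 790 0, V.of 1000 0 160 0] = true := by decide +kernel

open NumIs (V) in
theorem r3f : chkT [g1 sp 112 (.q 145 1000), g1 sm 112 (.q 145 1000)] 40
    9
    [V.of 1000 (-1) 58 0, V.of 1000 790 810 0, V.of 1000 (-160) 0 0] = true := by decide +kernel

open NumIs (V) in
theorem r3g : chkT [g1 sp 112 (.add (.q 145 1000) (.mul (.q 19 10) (.var 2))), g1 sm 112 (.add (.q 145 1000) (.mul (.q 19 10) (.var 2)))] 40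
    8
    [V.of 1000 (-1) 58 0, V.of 1000 790 810 0, V.of 1000 0 160 0] = true := by decide +kernel

open NumIs (V) in
theorem r3h : chkT [g1 u1p 112 (.q 145 1000), g1 u1m 112 (.q 145 1000), v1] 40
    1587850374609687333215328946200646580546224453661808474844952123002220514147054658178528656377260098195819522706075961675556311325589250321
    [V.of 1000 (-1) 58 0, V.of 1000 810 1000 0, V.of 1000 (-160) 0 0] = true := by decide +kernel

open NumIs (V) in
theorem r3i : chkT [g1 u1p 112 (.add (.q 145 1000) (.mul (.q 19 10) (.var 2))), g1 u1m 112 (.add (.q 145 1000) (.mul (.q 19 10) (.var 2))), v2] 40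
    2640381504311281424038764817
    [V.of 1000 (-1) 58 0, V.of 1000 810 1000 0, V.of 1000 0 160 0] = true := by decide +kernel

open NumIs (V) in
theorem r3j : chkT [g3 u0 112 uk] 40
    743347038606525448610396125091659914944897
    [V.of 1000 (-1) 58 0, V.of 1000 500 790 0, V.of 1000 (-160) 160 0] = true := by decide +kernel

open NumIs (V) in
theorem r3k : chkT [g3 sp 112 uk, g3 sm 112 uk] 40
    2194
    [V.of 1000 (-1) 58 0, V.of 1000 790 810 0, V.of 1000 (-160) 160 0] = true := by decide +kernel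

open NumIs (V) in
theorem r3l : chkT [g3 u1p 112 uk, g3 u1m 112 uk, v1, v2] 40
    369621863801656197181777185364940701299084449122435176353993131728382032008567506081417788854184352167942130915277691784488165649
    [V.of 1000 (-1) 58 0, V.of 1000 810 980 0, V.of 1000 (-160) 160 0] = true := by decide +kernel

open NumIs (V) in
theorem r3m : chkT [g3 u1p 112 qm, g3 u1m 112 qm, v1] 40
    2448
    [V.of 1000 (-1) 58 0, V.of 1000 980 1000 0, V.of 1000 (-160) 0 0] = true := by decide +kernel

open NumIs (V) in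
theorem r3n : chkT [g3 u1p 112 qp, g3 u1m 112 qp, v2] 40
    8
    [V.of 1000 (-1) 58 0, V.of 1000 980 1000 0, V.of 1000 0 160 0] = true := by decide +kernel

set_option deprecated.oldSectionVars false
variable {T k1 k2 u t : ℝ}

/-- the value at the sum from below, near `1` -/
theorem lo62 (h0 : 79 / 100 ≤ k1) (h1 : k1 ≤ 81 / 100) (hy : |T + k2| ≤ 46 / 100) :
    sp.val [T, k1, k2] ≤ uu (2 / 10 + k1) (T + k2) ∧
      sm.val [T, k1, k2] ≤ uu (2 / 10 + k1) (T + k2) := by
  have hp := Real.pi_pos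
  have h : Real.pi / 2 * |T + k2| - 62 / 1000 ≤ uu (2 / 10 + k1) (T + k2) := by
    rcases le_total k1 (80 / 100) with h2 | h2
    · have := uu_left_one (a := 2 / 10 + k1) (t := T + k2) (by linarith only [h2]) hy
      linarith only [h0, this]
    · have a1 := TL.uu_near_zero (x := 2 / 10 + k1 - 1) (Y := T + k2) (by linarith only [h2]) (by linarith only [h1])
      have a2 := uu_add_one (2 / 10 + k1 - 1) (T + k2)
      rw [sub_add_cancel] at a2
      have a3 := uu002
      rw [a2]
      linarith only [a1, a3]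
  have a1 := mul_le_mul_of_nonneg_left (le_abs_self (T + k2)) (by positivity : 0 ≤ Real.pi / 2)
  have a2 := mul_le_mul_of_nonneg_left (neg_le_abs (T + k2)) (by positivity : 0 ≤ Real.pi / 2)
  simp only [sp, sm, E.val, NumIs.lkR]
  push_cast
  constructor <;> linarith only [h, a1, a2]

/-- to the right of `1` -/
theorem lo_right : u1p.val [T, k1, k2] ≤ uu (2 / 10 + k1) (T + k2) ∧
    u1m.val [T, k1, k2] ≤ uu (2 / 10 + k1) (T + k2) := by
  have hp := Real.pi_pos
  have a := uu_add_one (k1 - 8 / 10) (T + k2)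
  rw [show k1 - 8 / 10 + 1 = 2 / 10 + k1 by ring] at a
  have a1 := mul_le_mul_of_nonneg_left (le_abs_self (T + k2)) hp.le
  have a2 := mul_le_mul_of_nonneg_left (neg_le_abs (T + k2)) hp.le
  simp only [u1p, u1m, E.val, NumIs.lkR]
  push_cast
  rw [a]
  constructor <;> linarith only [a1, a2]

/-- the value at `k` from above, near `1` -/
theorem hi62 (h0 : 98 / 100 ≤ k1) (h1 : k1 ≤ 1) :
    (0 ≤ k2 → uu k1 k2 ≤ qp.val [T, k1, k2]) ∧ (k2 ≤ 0 → uu k1 k2 ≤ qm.val [T, k1, k2]) := by
  have h := TL.uu_near_one (x := k1) (Y := k2) h0 h1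
  have a3 := uu002
  simp only [qp, qm, E.val, NumIs.lkR]
  push_cast
  constructor
  · intro h2
    rw [abs_of_nonneg h2] at h
    linarith only [h, a3]
  · intro h2
    rw [abs_of_nonpos h2] at h
    linarith only [h, a3]

/-- both goals as differences -/
theorem Goal3_of {m : ℝ} (hm : mA3 k1 k2 ≤ m)
    (h1 : 0 < s1 T k1 k2 (uu (2 / 10 + k1) (T + k2)) (112 / 1000) - cA1 k1 k2 -
      (45 / 1000 + m))
    (h2 : 1 / 2 ≤ k1 →
      0 < s1 T k1 k2 (uu (2 / 10 + k1) (T + k2)) (112 / 1000) - uu k1 k2 - 1 / 1000) :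
    Goal3 T k1 k2 := by
  unfold Goal3
  rw [gD1_eq]
  constructor
  · linarith only [hm, h1]
  · intro h
    have := h2 h
    unfold oD1
    linarith only [this]

/-- the second goal -/
theorem goal3b (T0 : -(1 / 1000) ≤ T) (T1 : T ≤ 58 / 1000) (hd : dom3 k1 k2) (hk : 1 / 2 ≤ k1) :
    0 < s1 T k1 k2 (uu (2 / 10 + k1) (T + k2)) (112 / 1000) - uu k1 k2 - 1 / 1000 := by
  obtain ⟨d0, d1, d2, d3, d4⟩ := hd
  rw [abs_le] at d2 d3 d4
  obtain ⟨f1, f2⟩ := d2
  obtain ⟨f5, f6⟩ := d4
  have hy : |T + k2| ≤ 46 / 100 := by rw [abs_le]; constructor <;> linarith only [T0, f1, T1, f2]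
  rcases le_total k1 (79 / 100) with h | h
  · obtain ⟨e, he, hp⟩ := chkT3 r3j (by norm_num) (x := T) (y := k1) (z := k2)
      (by push_cast; linarith only [T0]) (by push_cast; linarith only [T1]) (by push_cast; linarith only [hk])
      (by push_cast; linarith only [h]) (by push_cast; linarith only [f1]) (by push_cast; linarith only [f2])
    rw [List.mem_singleton.1 he, g3_val, u0_val, uk_val] at hp
    push_cast at hp
    exact hp
  rcases le_total k1 (81 / 100) with h' | h'
  · obtain ⟨b1, b2⟩ := lo62 (T := T) (k2 := k2) h h' hy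
    obtain ⟨e, he, hp⟩ := chkT3 r3k (by norm_num) (x := T) (y := k1) (z := k2)
      (by push_cast; linarith only [T0]) (by push_cast; linarith only [T1]) (by push_cast; linarith only [h])
      (by push_cast; linarith only [h']) (by push_cast; linarith only [f1]) (by push_cast; linarith only [f2])
    simp only [List.mem_cons, List.not_mem_nil, or_false] at he
    rcases he with rfl | rfl
    · rw [g3_val, uk_val] at hp
      have := s1_mono (T := T) (k1 := k1) (k2 := k2) (θ := 112 / 1000) b1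
      push_cast at hp
      linarith only [this, hp]
    · rw [g3_val, uk_val] at hp
      have := s1_mono (T := T) (k1 := k1) (k2 := k2) (θ := 112 / 1000) b2
      push_cast at hp
      linarith only [this, hp]
  obtain ⟨b1, b2⟩ := lo_right (T := T) (k1 := k1) (k2 := k2)
  have c1 := s1_mono (T := T) (k1 := k1) (k2 := k2) (θ := 112 / 1000) b1
  have c2 := s1_mono (T := T) (k1 := k1) (k2 := k2) (θ := 112 / 1000) b2
  rcases le_total k1 (98 / 100) with h'' | h''
  · obtain ⟨e, he, hp⟩ := chkT3 r3l (by norm_num) (x := T) (y := k1) (z := k2)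
      (by push_cast; linarith only [T0]) (by push_cast; linarith only [T1]) (by push_cast; linarith only [h'])
      (by push_cast; linarith only [h'']) (by push_cast; linarith only [f1]) (by push_cast; linarith only [f2])
    simp only [List.mem_cons, List.not_mem_nil, or_false] at he
    rcases he with rfl | rfl | rfl | rfl
    · rw [g3_val, uk_val] at hp
      push_cast at hp
      linarith only [c1, hp]
    · rw [g3_val, uk_val] at hp
      push_cast at hp
      linarith only [c2, hp]
    · exfalso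
      simp only [v1, E.val, NumIs.lkR] at hp
      push_cast at hp
      linarith only [f5, hp]
    · exfalso
      simp only [v2, E.val, NumIs.lkR] at hp
      push_cast at hp
      linarith only [f6, hp]
  · obtain ⟨q1, q2⟩ := hi62 (T := T) (k2 := k2) h'' d1
    rcases le_total k2 0 with hz | hz
    · have q := q2 hz
      obtain ⟨e, he, hp⟩ := chkT3 r3m (by norm_num) (x := T) (y := k1) (z := k2)
        (by push_cast; linarith only [T0]) (by push_cast; linarith only [T1]) (by push_cast; linarith only [h''])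
        (by push_cast; linarith only [d1]) (by push_cast; linarith only [f5, h'']) (by push_cast; linarith only [hz])
      simp only [List.mem_cons, List.not_mem_nil, or_false] at he
      rcases he with rfl | rfl | rfl
      · rw [g3_val] at hp
        push_cast at hp
        linarith only [c1, q, hp]
      · rw [g3_val] at hp
        push_cast at hp
        linarith only [c2, q, hp]
      · exfalso
        simp only [v1, E.val, NumIs.lkR] at hp
        push_cast at hp
        linarith only [f5, hp]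
    · have q := q1 hz
      obtain ⟨e, he, hp⟩ := chkT3 r3n (by norm_num) (x := T) (y := k1) (z := k2)
        (by push_cast; linarith only [T0]) (by push_cast; linarith only [T1]) (by push_cast; linarith only [h''])
        (by push_cast; linarith only [d1]) (by push_cast; linarith only [hz]) (by push_cast; linarith only [f2])
      simp only [List.mem_cons, List.not_mem_nil, or_false] at he
      rcases he with rfl | rfl | rfl
      · rw [g3_val] at hp
        push_cast at hp
        linarith only [c1, q, hp]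
      · rw [g3_val] at hp
        push_cast at hp
        linarith only [c2, q, hp]
      · exfalso
        simp only [v2, E.val, NumIs.lkR] at hp
        push_cast at hp
        linarith only [f6, hp]

theorem goal3 (T0 : -(1 / 1000) ≤ T) (T1 : T ≤ 58 / 1000) (hd : dom3 k1 k2) : Goal3 T k1 k2 := by
  have hb := goal3b T0 T1 hd
  obtain ⟨d0, d1, d2, d3, d4⟩ := hd
  rw [abs_le] at d2 d3 d4
  obtain ⟨f1, f2⟩ := d2
  obtain ⟨f3, f4⟩ := d3
  obtain ⟨f5, f6⟩ := d4
  have hy : |T + k2| ≤ 46 / 100 := by rw [abs_le]; constructor <;> linarith only [T0, f1, T1, f2]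
  rcases le_or_gt k1 (3 / 10) with h | h
  · rcases le_total k2 0 with hz | hz
    · have hm : mA3 k1 k2 ≤ 50 / 1000 := by
        unfold mA3
        rw [if_pos h, max_eq_right hz]
        norm_num
      refine Goal3_of hm ?_ hb
      obtain ⟨e, he, hp⟩ := chkT3 r3a (by norm_num) (x := T) (y := k1) (z := k2)
        (by push_cast; linarith only [T0]) (by push_cast; linarith only [T1]) (by push_cast; linarith only [d0])
        (by push_cast; linarith only [h]) (by push_cast; linarith only [f1]) (by push_cast; linarith only [hz])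
      simp only [List.mem_cons, List.not_mem_nil, or_false] at he
      rcases he with rfl | rfl
      · rw [g1_val, u0_val] at hp
        simp only [E.val] at hp
        push_cast at hp
        linarith only [hp]
      · exfalso
        simp only [w1, E.val, NumIs.lkR] at hp
        push_cast at hp
        linarith only [f3, hp]
    · have hm : mA3 k1 k2 ≤ 50 / 1000 + 85 / 100 * k2 := by
        unfold mA3
        rw [if_pos h, max_eq_left hz]
        linarith only []
      refine Goal3_of hm ?_ hb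
      obtain ⟨e, he, hp⟩ := chkT3 r3b (by norm_num) (x := T) (y := k1) (z := k2)
        (by push_cast; linarith only [T0]) (by push_cast; linarith only [T1]) (by push_cast; linarith only [d0])
        (by push_cast; linarith only [h]) (by push_cast; linarith only [hz]) (by push_cast; linarith only [f2])
      simp only [List.mem_cons, List.not_mem_nil, or_false] at he
      rcases he with rfl | rfl
      · rw [g1_val, u0_val] at hp
        simp only [E.val, NumIs.lkR] at hp
        push_cast at hp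
        linarith only [hp]
      · exfalso
        simp only [w2, E.val, NumIs.lkR] at hp
        push_cast at hp
        linarith only [f4, hp]
  rcases le_or_gt k1 (7 / 10) with h' | h'
  · have hm : mA3 k1 k2 ≤ 200 / 1000 := by
      unfold mA3
      rw [if_neg (not_le.2 h), if_pos h']
      norm_num
    refine Goal3_of hm ?_ hb
    obtain ⟨e, he, hp⟩ := chkT3 r3c (by norm_num) (x := T) (y := k1) (z := k2)
      (by push_cast; linarith only [T0]) (by push_cast; linarith only [T1]) (by push_cast; linarith only [h])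
      (by push_cast; linarith only [h']) (by push_cast; linarith only [f1]) (by push_cast; linarith only [f2])
    rw [List.mem_singleton.1 he, g1_val, u0_val] at hp
    simp only [E.val] at hp
    push_cast at hp
    linarith only [hp]
  have hmz : k2 ≤ 0 → mA3 k1 k2 ≤ 100 / 1000 := by
    intro hz
    unfold mA3
    rw [if_neg (not_le.2 h), if_neg (not_le.2 h'), max_eq_right hz]
    norm_num
  have hmp : 0 ≤ k2 → mA3 k1 k2 ≤ 100 / 1000 + 19 / 10 * k2 := by
    intro hz
    unfold mA3
    rw [if_neg (not_le.2 h), if_neg (not_le.2 h'), max_eq_left hz]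
    linarith only []
  rcases le_total k1 (79 / 100) with g | g
  · rcases le_total k2 0 with hz | hz
    · refine Goal3_of (hmz hz) ?_ hb
      obtain ⟨e, he, hp⟩ := chkT3 r3d (by norm_num) (x := T) (y := k1) (z := k2)
        (by push_cast; linarith only [T0]) (by push_cast; linarith only [T1]) (by push_cast; linarith only [h'])
        (by push_cast; linarith only [g]) (by push_cast; linarith only [f1]) (by push_cast; linarith only [hz])
      rw [List.mem_singleton.1 he, g1_val, u0_val] at hp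
      simp only [E.val] at hp
      push_cast at hp
      linarith only [hp]
    · refine Goal3_of (hmp hz) ?_ hb
      obtain ⟨e, he, hp⟩ := chkT3 r3e (by norm_num) (x := T) (y := k1) (z := k2)
        (by push_cast; linarith only [T0]) (by push_cast; linarith only [T1]) (by push_cast; linarith only [h'])
        (by push_cast; linarith only [g]) (by push_cast; linarith only [hz]) (by push_cast; linarith only [f2])
      rw [List.mem_singleton.1 he, g1_val, u0_val] at hp
      simp only [E.val, NumIs.lkR] at hp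
      push_cast at hp
      linarith only [hp]
  rcases le_total k1 (81 / 100) with g' | g'
  · obtain ⟨b1, b2⟩ := lo62 (T := T) (k2 := k2) g g' hy
    have c1 := s1_mono (T := T) (k1 := k1) (k2 := k2) (θ := 112 / 1000) b1
    have c2 := s1_mono (T := T) (k1 := k1) (k2 := k2) (θ := 112 / 1000) b2
    rcases le_total k2 0 with hz | hz
    · refine Goal3_of (hmz hz) ?_ hb
      obtain ⟨e, he, hp⟩ := chkT3 r3f (by norm_num) (x := T) (y := k1) (z := k2)
        (by push_cast; linarith only [T0]) (by push_cast; linarith only [T1]) (by push_cast; linarith only [g])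
        (by push_cast; linarith only [g']) (by push_cast; linarith only [f1]) (by push_cast; linarith only [hz])
      simp only [List.mem_cons, List.not_mem_nil, or_false] at he
      rcases he with rfl | rfl
      · rw [g1_val] at hp
        generalize sp.val [T, k1, k2] = q at *
        simp only [E.val] at hp
        push_cast at hp
        linarith only [c1, hp]
      · rw [g1_val] at hp
        generalize sm.val [T, k1, k2] = q at *
        simp only [E.val] at hp
        push_cast at hp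
        linarith only [c2, hp]
    · refine Goal3_of (hmp hz) ?_ hb
      obtain ⟨e, he, hp⟩ := chkT3 r3g (by norm_num) (x := T) (y := k1) (z := k2)
        (by push_cast; linarith only [T0]) (by push_cast; linarith only [T1]) (by push_cast; linarith only [g])
        (by push_cast; linarith only [g']) (by push_cast; linarith only [hz]) (by push_cast; linarith only [f2])
      simp only [List.mem_cons, List.not_mem_nil, or_false] at he
      rcases he with rfl | rfl
      · rw [g1_val] at hp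
        generalize sp.val [T, k1, k2] = q at *
        simp only [E.val, NumIs.lkR] at hp
        push_cast at hp
        linarith only [c1, hp]
      · rw [g1_val] at hp
        generalize sm.val [T, k1, k2] = q at *
        simp only [E.val, NumIs.lkR] at hp
        push_cast at hp
        linarith only [c2, hp]
  obtain ⟨b1, b2⟩ := lo_right (T := T) (k1 := k1) (k2 := k2)
  have c1 := s1_mono (T := T) (k1 := k1) (k2 := k2) (θ := 112 / 1000) b1
  have c2 := s1_mono (T := T) (k1 := k1) (k2 := k2) (θ := 112 / 1000) b2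
  rcases le_total k2 0 with hz | hz
  · refine Goal3_of (hmz hz) ?_ hb
    obtain ⟨e, he, hp⟩ := chkT3 r3h (by norm_num) (x := T) (y := k1) (z := k2)
      (by push_cast; linarith only [T0]) (by push_cast; linarith only [T1]) (by push_cast; linarith only [g'])
      (by push_cast; linarith only [d1]) (by push_cast; linarith only [f1]) (by push_cast; linarith only [hz])
    simp only [List.mem_cons, List.not_mem_nil, or_false] at he
    rcases he with rfl | rfl | rfl
    · rw [g1_val] at hp
      generalize u1p.val [T, k1, k2] = q at *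
      simp only [E.val] at hp
      push_cast at hp
      linarith only [c1, hp]
    · rw [g1_val] at hp
      generalize u1m.val [T, k1, k2] = q at *
      simp only [E.val] at hp
      push_cast at hp
      linarith only [c2, hp]
    · exfalso
      simp only [v1, E.val, NumIs.lkR] at hp
      push_cast at hp
      linarith only [f5, hp]
  · refine Goal3_of (hmp hz) ?_ hb
    obtain ⟨e, he, hp⟩ := chkT3 r3i (by norm_num) (x := T) (y := k1) (z := k2)
      (by push_cast; linarith only [T0]) (by push_cast; linarith only [T1]) (by push_cast; linarith only [g'])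
      (by push_cast; linarith only [d1]) (by push_cast; linarith only [hz]) (by push_cast; linarith only [f2])
    simp only [List.mem_cons, List.not_mem_nil, or_false] at he
    rcases he with rfl | rfl | rfl
    · rw [g1_val] at hp
      generalize u1p.val [T, k1, k2] = q at *
      simp only [E.val, NumIs.lkR] at hp
      push_cast at hp
      linarith only [c1, hp]
    · rw [g1_val] at hp
      generalize u1m.val [T, k1, k2] = q at *
      simp only [E.val, NumIs.lkR] at hp
      push_cast at hp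
      linarith only [c2, hp]
    · exfalso
      simp only [v2, E.val, NumIs.lkR] at hp
      push_cast at hp
      linarith only [f6, hp]

end RC

theorem c3 : ∀ T k1 k2 : ℝ, -(1 / 1000) ≤ T → T ≤ 58 / 1000 → dom3 k1 k2 → Goal3 T k1 k2 :=
  fun _ _ _ T0 T1 hd => RC.goal3 T0 T1 hd

end ZD

end Pool.Agent.Work.MP_b30479_gtS.G2

end
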