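import Pool.Agent.Work.MP_b30479_gt.TBS.G2.TRd
import Pool.Agent.Work.MP_b30479_gt.TBS.G2.MDd
import Pool.Agent.Work.MP_b30479_gt.TBS.G2.WMainS
import Pool.Agent.Work.MP_b30479_gt.TBS.G2.WMid
import Pool.Agent.Work.MP_b30479_gt.TBS.G2.ZRows
import Pool.Agent.Work.MP_b30479_gt.TBS.G2.M3N
import Pool.Agent.Work.MP_b30479_gt.TBS.G2.TRc
import Pool.Agent.Work.MP_b30479_gt.TBS.G2.WLocF
import Pool.Agent.Work.MP_b30479_gt.TBS.G2.ZRcT

section

/-!
# Words all of whose regions are rings: modes and tails together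

`clean_rings`: one step from an admissible point with tails or modes to a point on the main paths.
The heights of the mode paths are `100`.
-/

namespace Pool.Agent.Work.MP_b30479_gtS.G2

open Finset VOL Filter Topology

/-! ### paths -/

theorem tr_le_l {b' c c' x : ℝ} (hc : 0 < c) (hx : 0 ≤ x) : tr 0 b' c c' x ≤ x / c := by
  unfold tr
  apply max_le (by positivity)
  refine (min_le_right _ _).trans ((min_le_left _ _).trans ?_)
  rw [sub_zero]

/-- the value of the mode path of height `100` -/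
theorem mode_path {x : ℝ} (h0 : 0 ≤ x) (h1 : x ≤ 1 / 2)
    (ht : 0 < tr 0 (1 / 2) (1 / 10) (2 / 100) x) :
    fR ⟨x, 100 * tr 0 (1 / 2) (1 / 10) (2 / 100) x⟩ 0 ≤
      Real.pi * (100 * tr 0 (1 / 2) (1 / 10) (2 / 100) x) + 2 / 1000 := by
  have hpi := Real.pi_pos
  have hpi3 : 3.14 < Real.pi := Real.pi_gt_d2
  set t := tr 0 (1 / 2) (1 / 10) (2 / 100) x with htdef
  have ht' : t = min 1 (min ((x - 0) / (1 / 10)) ((1 / 2 - x) / (2 / 100))) := by
    rw [htdef] at ht ⊢
    unfold tr at ht ⊢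
    rcases le_total 0 (min 1 (min ((x - 0) / (1 / 10)) ((1 / 2 - x) / (2 / 100)))) with h | h
    · exact max_eq_right h
    · rw [max_eq_left h] at ht
      exact absurd ht (lt_irrefl _)
  have hY : 0 < 100 * t := by linarith only [ht]
  have key : x ≤ t / 4 ∨ 1 / 2 - x ≤ t / 4 := by
    rcases min_choice 1 (min ((x - 0) / (1 / 10)) ((1 / 2 - x) / (2 / 100))) with e | e
    · rw [e] at ht'
      rcases le_total x (1 / 4) with h | h
      · left
        linarith only [ht', h]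
      · right
        linarith only [ht', h]
    · rw [e] at ht'
      rcases min_choice ((x - 0) / (1 / 10)) ((1 / 2 - x) / (2 / 100)) with e' | e'
      · rw [e'] at ht'
        left
        linarith only [ht, ht']
      · rw [e'] at ht'
        right
        linarith only [ht, ht']
  have hb : ∀ a : ℝ, a ≤ t / 4 → 2 * (a / (Real.pi * (100 * t))) ≤ 2 / 1000 := by
    intro a ha
    rw [mul_div_assoc', div_le_iff₀ (by positivity)]
    nlinarith only [ht, ha, hpi3]
  rcases key with h | h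
  · exact (fR_zero_le hY h0 h1).trans (by linarith only [hb, h, hb _ h])
  · exact (fR_zero_le' hY h0 h1).trans (by linarith only [hb, h, hb _ h])

namespace SR

variable {M : ℕ} {b : Fin (M + 1) → ℤ} {zs : DD (tyW b) ⊕ ZZ (tyW b) → ℂ}
variable {h h' : Fin M} {i j j' : Fin (M + 1)} {p : Fin 3}

/-! ### penalties of slots -/

/-- penalty of the hinge in a slot -/
def pen (q : Fin M → ℝ) (i : Fin (M + 1)) (p : Fin 3) : ℝ :=
  if p = 0 then Fin.cases (motive := fun _ => ℝ) 0 q i else Fin.lastCases (motive := fun _ => ℝ) 0 q i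

theorem pen_adj (q : Fin M → ℝ) (A : Adj h i p j) : pen q i p = q h := by
  cases A
  · unfold pen
    rw [if_neg (by decide)]
    exact Fin.lastCases_castSucc ..
  · unfold pen
    rw [if_pos rfl]
    rfl

theorem pen_none (q : Fin M → ℝ) (hp : p = 0 ∨ p = 2) (hn : ¬ ∃ h j, Adj h i p j) : pen q i p = 0 := by
  rcases hp with rfl | rfl
  · by_cases h0 : i = 0
    · subst h0
      rfl
    · obtain ⟨k, rfl⟩ := Fin.eq_succ_of_ne_zero h0
      exact absurd ⟨k, _, .r⟩ hn
  · by_cases h0 : i = Fin.last M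
    · subst h0
      unfold pen
      rw [if_neg (by decide)]
      exact Fin.lastCases_last ..
    · obtain ⟨k, rfl⟩ := Fin.eq_castSucc_of_ne_last h0
      exact absurd ⟨k, _, .l⟩ hn

theorem sum_pen (q : Fin M → ℝ) : ∑ i, (pen q i 0 + pen q i 2) = 2 * ∑ h, q h := by
  rw [Finset.sum_add_distrib]
  have e0 : ∑ i, pen q i 0 = ∑ h, q h := by
    rw [Fin.sum_univ_succ]
    have : pen q 0 0 = 0 := rfl
    rw [this, zero_add]
    exact Finset.sum_congr rfl fun h _ => pen_adj q .r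
  have e2 : ∑ i, pen q i 2 = ∑ h, q h := by
    rw [Fin.sum_univ_castSucc]
    have : pen q (Fin.last M) 2 = 0 := by
      unfold pen
      rw [if_neg (by decide)]
      exact Fin.lastCases_last ..
    rw [this, add_zero]
    exact Finset.sum_congr rfl fun h _ => pen_adj q .l
  rw [e0, e2]
  ring

/-! ### the new point -/

open Classical in
/-- the target point -/
noncomputable def tzM (zs : DD (tyW b) ⊕ ZZ (tyW b) → ℂ) (R : Finset (DD (tyW b)))
    (z : DD (tyW b) ⊕ ZZ (tyW b) → ℂ) (q : DD (tyW b) → ℝ) : DD (tyW b) ⊕ ZZ (tyW b) → ℂ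
  | .inl i => if i ∈ R then wT (zs (.inl i)).im else if q i = 0 then z (.inl i) else
      wM (zs (.inl i)).im
  | .inr v => if .inr v ∈ nbR b R then ofz (b v.1) (zT (zs (.inr v)).im) else
      if (∃ h p j, Adj h v.1 p j ∧ q (.inl h) ≠ 0) ∧ 3 / 10 < |(z (.inr v)).re| then
        ofz (b v.1) (zM (zs (.inr v)).im) else z (.inr v)

theorem tzM_tail {R : Finset (DD (tyW b))} {i : DD (tyW b)} (h : i ∈ R)
    (z : DD (tyW b) ⊕ ZZ (tyW b) → ℂ) (q : DD (tyW b) → ℝ) :
    tzM zs R z q (.inl i) = wT (zs (.inl i)).im := by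
  show (if i ∈ R then wT (zs (.inl i)).im else _) = _
  rw [if_pos h]

theorem tzM_main {R : Finset (DD (tyW b))} {i : DD (tyW b)} (h : i ∉ R)
    (z : DD (tyW b) ⊕ ZZ (tyW b) → ℂ) {q : DD (tyW b) → ℝ} (hq : q i = 0) :
    tzM zs R z q (.inl i) = z (.inl i) := by
  show (if i ∈ R then _ else if q i = 0 then z (.inl i) else _) = _
  rw [if_neg h, if_pos hq]

theorem tzM_mode {R : Finset (DD (tyW b))} {i : DD (tyW b)} (h : i ∉ R)
    (z : DD (tyW b) ⊕ ZZ (tyW b) → ℂ) {q : DD (tyW b) → ℝ} (hq : q i ≠ 0) :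
    tzM zs R z q (.inl i) = wM (zs (.inl i)).im := by
  show (if i ∈ R then _ else if q i = 0 then _ else wM (zs (.inl i)).im) = _
  rw [if_neg h, if_neg hq]

open Classical in
theorem tzM_tailZ {R : Finset (DD (tyW b))} {v : ZZ (tyW b)} (h : .inr v ∈ nbR b R)
    (z : DD (tyW b) ⊕ ZZ (tyW b) → ℂ) (q : DD (tyW b) → ℝ) :
    tzM zs R z q (.inr v) = ofz (b v.1) (zT (zs (.inr v)).im) := by
  show (if .inr v ∈ nbR b R then ofz (b v.1) (zT (zs (.inr v)).im) else _) = _
  rw [if_pos h]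

open Classical in
theorem tzM_modeZ {R : Finset (DD (tyW b))} {v : ZZ (tyW b)} (h : .inr v ∉ nbR b R)
    {z : DD (tyW b) ⊕ ZZ (tyW b) → ℂ} {q : DD (tyW b) → ℝ}
    (hm : (∃ h p j, Adj h v.1 p j ∧ q (.inl h) ≠ 0) ∧ 3 / 10 < |(z (.inr v)).re|) :
    tzM zs R z q (.inr v) = ofz (b v.1) (zM (zs (.inr v)).im) := by
  show (if .inr v ∈ nbR b R then _ else
      if (∃ h p j, Adj h v.1 p j ∧ q (.inl h) ≠ 0) ∧ 3 / 10 < |(z (.inr v)).re| then
        ofz (b v.1) (zM (zs (.inr v)).im) else z (.inr v)) = _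
  rw [if_neg h, if_pos hm]

open Classical in
theorem tzM_mainZ {R : Finset (DD (tyW b))} {v : ZZ (tyW b)} (h : .inr v ∉ nbR b R)
    {z : DD (tyW b) ⊕ ZZ (tyW b) → ℂ} {q : DD (tyW b) → ℝ}
    (hm : ¬ ((∃ h p j, Adj h v.1 p j ∧ q (.inl h) ≠ 0) ∧ 3 / 10 < |(z (.inr v)).re|)) :
    tzM zs R z q (.inr v) = z (.inr v) := by
  show (if .inr v ∈ nbR b R then _ else
      if (∃ h p j, Adj h v.1 p j ∧ q (.inl h) ≠ 0) ∧ 3 / 10 < |(z (.inr v)).re| then
        ofz (b v.1) (zM (zs (.inr v)).im) else z (.inr v)) = _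
  rw [if_neg h, if_neg hm]

theorem ofr_wT (b' : ℤ) (t : ℝ) : ofr b' (wT t) = wT (ofs b' t) := by
  unfold ofr ofs wT
  split_ifs
  · rfl
  · apply Complex.ext <;> simp

theorem ofr_wM (b' : ℤ) (t : ℝ) : ofr b' (wM t) = wM (ofs b' t) := by
  unfold ofr ofs wM
  split_ifs
  · rfl
  · apply Complex.ext <;> simp

/-- the parameters: mode paths of height `100` -/
noncomputable abbrev wpar100 (b : Fin (M + 1) → ℤ) (zs : DD (tyW b) ⊕ ZZ (tyW b) → ℂ) :
    Par (DD (tyW b)) := wparQ b (fun _ => 100) (fun _ => 100) zs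

theorem AllRing.parQ (hA : AllRing b) (h : Fin M) : (wpar100 b zs).XM (.inl h) = 1 / 2 ∧
    (wpar100 b zs).cl (.inl h) = 1 / 10 ∧ (wpar100 b zs).cr (.inl h) = 2 / 100 := by
  show (par1 b (.inl h)).XM = 1 / 2 ∧ (par1 b (.inl h)).cl = 1 / 10 ∧ (par1 b (.inl h)).cr = 2 / 100
  rw [hA.par]
  exact ⟨rfl, rfl, rfl⟩

/-- a hinge on one of its paths, in the frame of a region -/
theorem On_slot (hA : AllRing b) (hL : Loc b zs) (h : Fin M) (b' : ℤ) {z : ℂ} {q : ℝ}
    (hz : (wpar100 b zs).On (zs (.inl (.inl h))).im (.inl h) z q) :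
    (q = 0 → 0 ≤ (ofr b' z).re ∧ (ofr b' z).re ≤ 1 / 2 ∧ |(ofr b' z).im| ≤ 6 / 100 ∧
      |(ofr b' z).im| ≤ 6 / 10 * (ofr b' z).re) ∧
    (q ≠ 0 → 0 ≤ (ofr b' z).re ∧ (ofr b' z).re ≤ 1 / 2 ∧ q = |(ofr b' z).im| ∧
      fR ⟨(ofr b' z).re, |(ofr b' z).im|⟩ 0 ≤ Real.pi * |(ofr b' z).im| + 2 / 1000) := by
  have ht := hA.height hL h
  obtain ⟨hX, hcl, hcr⟩ := hA.parQ (zs := zs) h
  obtain ⟨x, h0, h1, h2⟩ := hz
  rw [hX, hcl, hcr] at h2
  rw [hX] at h1
  rw [ofr_re, ofr_im, abs_ofs]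
  have hu : (wpar100 b zs).hu (.inl h) = 100 := rfl
  have hd : (wpar100 b zs).hd (.inl h) = 100 := rfl
  rw [hu, hd] at h2
  set t := tr 0 (1 / 2) (1 / 10) (2 / 100) x with htdef
  obtain ⟨t0, t1⟩ := tr_mem 0 (1 / 2) (1 / 10) (2 / 100) x
  rw [← htdef] at t0 t1
  have t2 : t ≤ x / (1 / 10) := tr_le_l (by norm_num) h0
  have him : ∀ c : ℝ, (pt 0 (1 / 2) (1 / 10) (2 / 100) c x).im = c * t := by
    intro c
    unfold pt
    simp [htdef]
  have hzero : t = 0 → ∀ c : ℝ, |(pt 0 (1 / 2) (1 / 10) (2 / 100) c x).im| = 0 := by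
    intro e c
    rw [him, e, mul_zero, abs_zero]
  have hmode : ∀ c : ℝ, |c| = 100 → 100 * t ≠ 0 → 0 ≤ x ∧ x ≤ 1 / 2 ∧
      100 * t = |(pt 0 (1 / 2) (1 / 10) (2 / 100) c x).im| ∧
      fR ⟨x, |(pt 0 (1 / 2) (1 / 10) (2 / 100) c x).im|⟩ 0 ≤
        Real.pi * |(pt 0 (1 / 2) (1 / 10) (2 / 100) c x).im| + 2 / 1000 := by
    intro c hc hne
    have e : |(pt 0 (1 / 2) (1 / 10) (2 / 100) c x).im| = 100 * t := by
      rw [him, abs_mul, hc, abs_of_nonneg t0]
    rw [e]
    have tp : 0 < t := lt_of_le_of_ne t0 fun h => hne (by rw [← h, mul_zero])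
    exact ⟨h0, h1, rfl, mode_path h0 h1 tp⟩
  rcases h2 with ⟨rfl, rfl⟩ | ⟨rfl, rfl⟩ | ⟨rfl, rfl⟩
  · rw [pt_re]
    refine ⟨fun _ => ⟨h0, h1, ?_, ?_⟩, fun h => absurd rfl h⟩
    · rw [him, abs_mul, abs_of_nonneg t0]
      have := abs_nonneg (zs (.inl (.inl h))).im
      nlinarith only [t1, ht, t0]
    · rw [him, abs_mul, abs_of_nonneg t0]
      have := abs_nonneg (zs (.inl (.inl h))).im
      have : |(zs (.inl (.inl h))).im| * t ≤ 59 / 1000 * (x / (1 / 10)) :=
        mul_le_mul ht t2 t0 (by norm_num)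
      linarith only [h0, this]
  · rw [pt_re]
    refine ⟨fun e => ⟨h0, h1, ?_⟩, fun e => hmode 100 (by norm_num) e⟩
    rw [hzero (by linarith only [t0, e])]
    constructor
    · norm_num
    · linarith only [h0]
  · rw [pt_re]
    refine ⟨fun e => ⟨h0, h1, ?_⟩, fun e => hmode (-100) (by norm_num) e⟩
    rw [hzero (by linarith only [t0, e])]
    constructor
    · norm_num
    · linarith only [h0]

/-- one slot of one region -/
theorem slot_M (hA : AllRing b) (hL : Loc b zs)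
    {R : Finset (DD (tyW b))} {z : DD (tyW b) ⊕ ZZ (tyW b) → ℂ} {q : DD (tyW b) → ℝ}
    (hz : Adm (wdat (tyW b) b) (wpar100 b zs) zs R (nbR b R) z q) (i : Fin (M + 1))
    (hp : p = 0 ∨ p = 2) :
    ∃ g : SlK, MSlot g (Ow b z i p) (Ow b (tzM zs R z q) i p) (pen (fun h => q (.inl h)) i p) ∧
      ((∃ h j, Adj h i p j ∧ .inl h ∈ R) ↔ g = .tail) ∧
      ((∃ h j, Adj h i p j ∧ q (.inl h) ≠ 0) ↔ g = .mode) ∧
      (g = .main → Ow b (tzM zs R z q) i p = Ow b z i p) := by
  rcases slot_cases b i hp with ⟨h0, hn⟩ | ⟨h, j, A⟩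
  · refine ⟨.main, ⟨fun _ => ?_, fun h => absurd h (by decide), fun h => absurd h (by decide)⟩,
      ⟨?_, fun h => absurd h (by decide)⟩, ⟨?_, fun h => absurd h (by decide)⟩,
      fun _ => by rw [h0, h0]⟩
    · rw [h0, h0]
      refine ⟨rfl, pen_none _ hp hn, ?_⟩
      norm_num
    · rintro ⟨h, j, A, -⟩
      exact absurd ⟨h, j, A⟩ hn
    · rintro ⟨h, j, A, -⟩
      exact absurd ⟨h, j, A⟩ hn
  · have e0 : (∃ h j, Adj h i p j ∧ (.inl h : DD (tyW b)) ∈ R) ↔ (.inl h : DD (tyW b)) ∈ R := by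
      constructor
      · rintro ⟨h', j', A', hR⟩
        rw [(A.eq_of A').1]
        exact hR
      · exact fun hR => ⟨h, j, A, hR⟩
    have e1 : (∃ h j, Adj h i p j ∧ q (.inl h) ≠ 0) ↔ q (.inl h) ≠ 0 := by
      constructor
      · rintro ⟨h', j', A', hR⟩
        rw [(A.eq_of A').1]
        exact hR
      · exact fun hR => ⟨h, j, A, hR⟩
    rw [Ow_adj _ A, Ow_adj _ A, e0, e1, pen_adj _ A]
    have hT : |ofs (b i) (zs (.inl (.inl h))).im| ≤ 6 / 100 := by
      rw [abs_ofs]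
      linarith only [hA, hL, hA.height hL h]
    by_cases hR : (.inl h : DD (tyW b)) ∈ R
    · obtain ⟨t1, t2, t3, t4⟩ := hz.tail _ hR
      rw [(hA.parQ (zs := zs) h).1] at t2
      rw [tzM_tail hR, ofr_wT]
      refine ⟨.tail, ⟨fun h => absurd h (by decide), fun h => absurd h (by decide),
        fun _ => ⟨?_, ?_, ?_, t4, _, hT, rfl⟩⟩, ⟨fun _ => rfl, fun _ => hR⟩,
        ⟨fun h => absurd t4 h, fun h => absurd h (by decide)⟩, fun h => absurd h (by decide)⟩
      · rw [ofr_im, t1]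
        unfold ofs
        split_ifs <;> simp
      · rw [ofr_re]; exact t2
      · rw [ofr_re]; exact t3
    · have hon := On_slot hA hL h (b i) (hz.onD (.inl h) (by rw [mem_nbR_inl]; exact hR))
      by_cases hq : q (.inl h) = 0
      · obtain ⟨a1, a2, a3, a4⟩ := hon.1 hq
        rw [tzM_main hR z hq]
        exact ⟨.main, ⟨fun _ => ⟨rfl, hq, a1, a2, a3, a4⟩, fun h => absurd h (by decide),
          fun h => absurd h (by decide)⟩, ⟨fun h => absurd h hR, fun h => absurd h (by decide)⟩,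
          ⟨fun h => absurd hq h, fun h => absurd h (by decide)⟩, fun _ => rfl⟩
      · obtain ⟨a1, a2, a3, a4⟩ := hon.2 hq
        rw [tzM_mode hR z hq, ofr_wM]
        exact ⟨.mode, ⟨fun h => absurd h (by decide), fun _ => ⟨a1, a2, a3, a4, _, hT, rfl⟩,
          fun h => absurd h (by decide)⟩, ⟨fun h => absurd h hR, fun h => absurd h (by decide)⟩,
          ⟨fun _ => rfl, fun _ => hq⟩, fun h => absurd h (by decide)⟩

end SR

end Pool.Agent.Work.MP_b30479_gtS.G2

end

section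

/-!
# Modes at rings: the side of the ring

Kinds of the slots of a ring: `md`: kept, a hinge to a region which is no ring (or no hinge); `mr`:
kept, a hinge to a ring; `rr`: a moved hinge to a ring; `dd`: a moved hinge to a region which is no
ring.
-/

namespace Pool.Agent.Work.MP_b30479_gtS.G2

open NumUs

namespace ZD

inductive ZK where
  | md : ZK
  | mr : ZK
  | rr : ZK
  | dd : ZK
deriving DecidableEq

/-- the new ring variable (own frame) -/
noncomputable def nz (σ ρ : ℝ) : ℂ :=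
  if 3 / 10 < |σ| then zM ρ else
    if 15 / 100 < σ then ⟨-σ, ρ * LT.th σ⟩ else ⟨σ, ρ * LT.th σ⟩

/-- the slot `w` of a ring, moved to `w1`, with the weight `a` -/
structure ZSl (g : ZK) (w w1 : ℂ) (a σ η : ℝ) : Prop where
  md : g = .md → w1 = w ∧ a = 0 ∧ 0 ≤ w.re ∧ w.re ≤ 65 / 100 ∧ -(158 / 1000) ≤ w.im ∧
    w.im ≤ 1 / 1000 ∧ (w.im ≤ 0 ∨ w.re ≤ 60 / 100) ∧ -w.im ≤ 545 / 1000 * (65 / 100 - w.re) ∧
    -w.im ≤ 158 / 100 * w.re
  mr : g = .mr → w1 = w ∧ a = 0 ∧ 0 ≤ w.re ∧ w.re ≤ 1 / 2 ∧ |w.im| ≤ 56 / 1000 ∧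
    |w.im| ≤ 56 / 100 * w.re ∧ |w.im| ≤ 28 / 10 * (1 / 2 - w.re)
  rr : g = .rr → ∃ q, MSlot .mode w w1 q ∧ a = Real.pi * q
  dd : g = .dd → ∃ θ x t, Tgt θ x t ∧ w1 = ⟨x, -t⟩ ∧ a = fR w ⟨σ, η⟩ - gR θ x t - bR σ η

/-- the gain of a slot -/
noncomputable def gs (w w1 : ℂ) (a : ℝ) (ζ ζ' : ℂ) : ℝ := fR w1 ζ' - fR w ζ + a

theorem bR_nonneg {σ η : ℝ} (h : 0 ≤ η) : 0 ≤ bR σ η := by
  unfold bR
  have := le_max_right σ 0
  have := Real.pi_pos
  positivity

/-! ### the ring variable stays -/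

theorem keep_slot (E : RowsE) {g : ZK} {w w1 : ℂ} {a σ ρ : ℝ} (h : ZSl g w w1 a σ (ρ * LT.th σ))
    (hρ : 0 ≤ ρ) (hρ' : ρ ≤ 1045 / 10000) (h0 : -(3 / 10) ≤ σ) (h1 : σ ≤ 15 / 100) :
    0 ≤ gs w w1 a ⟨σ, ρ * LT.th σ⟩ ⟨σ, ρ * LT.th σ⟩ ∧
      (g = .rr → 0 < gs w w1 a ⟨σ, ρ * LT.th σ⟩ ⟨σ, ρ * LT.th σ⟩) := by
  have hσ : |σ| ≤ 3 / 10 := abs_le.mpr ⟨by linarith only [h0], by linarith only [h1]⟩
  unfold gs
  cases g
  · obtain ⟨e1, e2, -⟩ := h.md rfl
    rw [e1, e2]
    exact ⟨by linarith only [], fun h => absurd h (by decide)⟩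
  · obtain ⟨e1, e2, -⟩ := h.mr rfl
    rw [e1, e2]
    exact ⟨by linarith only [], fun h => absurd h (by decide)⟩
  · obtain ⟨q, e1, e2⟩ := h.rr rfl
    have := (e1.near (by decide) hρ hρ' hσ).2 rfl
    rw [e2]
    exact ⟨by linarith only [this], fun _ => by linarith only [this]⟩
  · obtain ⟨θ, x, t, e1, e2, e3⟩ := h.dd rfl
    have := E.e2 θ x t σ ρ e1 h0 h1 hρ hρ'
    rw [e2, e3]
    exact ⟨by linarith only [this], fun h => absurd h (by decide)⟩

/-! ### the ring variable is reflected -/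

theorem flip_slot (E : RowsE) {g : ZK} {w w1 : ℂ} {a σ ρ : ℝ} (h : ZSl g w w1 a σ (ρ * LT.th σ))
    (hρ : 0 ≤ ρ) (hρ' : ρ ≤ 1045 / 10000) (h0 : 15 / 100 < σ) (h1 : σ ≤ 3 / 10) :
    -(2 * Real.pi * (ρ * LT.th σ)) ≤ gs w w1 a ⟨σ, ρ * LT.th σ⟩ ⟨-σ, ρ * LT.th σ⟩ ∧
      (g = .dd → -(2 * Real.pi * (ρ * LT.th σ) * σ) ≤
        gs w w1 a ⟨σ, ρ * LT.th σ⟩ ⟨-σ, ρ * LT.th σ⟩) ∧
      (g = .rr → 0 < gs w w1 a ⟨σ, ρ * LT.th σ⟩ ⟨-σ, ρ * LT.th σ⟩) := by
  have hpi := Real.pi_pos
  have hσ : |σ| ≤ 3 / 10 := abs_le.mpr ⟨by linarith only [h0], by linarith only [h1]⟩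
  have hth : 0 ≤ LT.th σ := th_nonneg (by linarith only [hσ])
  have hη : 0 ≤ ρ * LT.th σ := mul_nonneg hρ hth
  unfold gs
  cases g
  · obtain ⟨e1, e2, -⟩ := h.md rfl
    have := flip_both (u := w.re) (Y := w.im) (s := σ) hη (by linarith only [h0]) (by linarith only [h1])
    have e : w = ⟨w.re, w.im⟩ := rfl
    rw [← e] at this
    rw [e1, e2]
    exact ⟨by linarith only [this], fun h => absurd h (by decide), fun h => absurd h (by decide)⟩
  · obtain ⟨e1, e2, -⟩ := h.mr rfl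
    have := flip_both (u := w.re) (Y := w.im) (s := σ) hη (by linarith only [h0]) (by linarith only [h1])
    have e : w = ⟨w.re, w.im⟩ := rfl
    rw [← e] at this
    rw [e1, e2]
    exact ⟨by linarith only [this], fun h => absurd h (by decide), fun h => absurd h (by decide)⟩
  · obtain ⟨q, e1, e2⟩ := h.rr rfl
    have b1 := e1.mode_le (show |σ| ≤ 1 / 2 by linarith only [hσ]) hη
    obtain ⟨-, -, -, -, T, hT, e3⟩ := e1.mode rfl
    have b2 := row_K (T := T) (σ := -σ) hT (by rw [abs_neg]; exact hσ) hρ hρ'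
    rw [th_neg] at b2
    rw [e2, e3]
    have b3 : 0 ≤ Real.pi * (ρ * LT.th σ) := mul_nonneg hpi.le hη
    exact ⟨by linarith only [b1, b2, b3], fun h => absurd h (by decide), fun _ => by linarith only [b1, b2]⟩
  · obtain ⟨θ, x, t, e1, e2, e3⟩ := h.dd rfl
    have b1 := E.e2 θ x t (-σ) ρ e1 (by linarith only [h1]) (by linarith only [h0]) hρ hρ'
    rw [th_neg] at b1
    have b2 : bR (-σ) (ρ * LT.th σ) = 0 := by
      unfold bR
      rw [max_eq_right (by linarith only [h0]), mul_zero]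
    have b3 : bR σ (ρ * LT.th σ) = 2 * Real.pi * (ρ * LT.th σ) * σ := by
      unfold bR
      rw [max_eq_left (by linarith only [h0])]
    rw [b2] at b1
    rw [e2, e3, b3]
    have b4 : 0 ≤ 2 * Real.pi * (ρ * LT.th σ) := by positivity
    refine ⟨?_, fun _ => by linarith only [b1], fun h => absurd h (by decide)⟩
    nlinarith only [b1, b4, h1]

/-! ### the ring variable moves to `-11/40` -/

theorem dd_low (E : RowsE) {θ x t ρ : ℝ} (hT : Tgt θ x t) (hρ : 0 ≤ ρ) (hρ' : ρ ≤ 1045 / 10000) :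
    (995 / 10000 + 94 / 100 * ρ ≤ fR ⟨x, -t⟩ (zM ρ) - gR θ x t) ∨
    (107 / 1000 + 64 / 100 * ρ ≤ fR ⟨x, -t⟩ (zM ρ) - gR θ x t) ∨
    (111 / 1000 ≤ fR ⟨x, -t⟩ (zM ρ) - gR θ x t ∧
      92 / 1000 + 94 / 100 * ρ ≤ fR ⟨x, -t⟩ (zM ρ) - gR θ x t) := by
  unfold gR zM
  rcases hT.or with ⟨rfl, h1, h2, rfl⟩ | ⟨rfl, h1, h2, rfl⟩ | ⟨rfl, h1, h2, rfl⟩ | ⟨rfl, h1, h2, rfl⟩
  · left
    have := E.e5a t ρ h1 h2 hρ hρ'
    linarith only [this]
  · left
    have := E.e5a t ρ (by linarith only [h1]) h2 hρ hρ'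
    linarith only [this]
  · right; left
    have := E.e5b t ρ h1 h2 hρ hρ'
    linarith only [this]
  · right; right
    have a1 := E.e5c t ρ h1 h2 hρ hρ'
    have a2 := E.e5d t ρ h1 h2 hρ hρ'
    constructor <;> linarith only [a2, a1]

/-- lower bounds for the quadratic part -/
theorem q4_low {σ ρ : ℝ} (hρ : 0 ≤ ρ) (h0 : 3 / 10 < |σ|) (h1 : |σ| ≤ 1 / 2) :
    -(101 / 100 * ρ) ≤ q4 σ ρ - bR σ (ρ * LT.th σ) ∧
    -(101 / 100 * ρ) ≤ q4 σ ρ - 2 * bR σ (ρ * LT.th σ) ∧
    -(298 / 100 * ρ) ≤ q4 σ ρ - Real.pi * (ρ * LT.th σ) ∧ -(101 / 100 * ρ) ≤ q4 σ ρ := by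
  have hpi := Real.pi_pos
  have hpi4 : Real.pi < 3.1416 := Real.pi_lt_d4
  have hpr : 0 ≤ Real.pi * ρ := by positivity
  have hpr2 : Real.pi * ρ ≤ 3.1416 * ρ := mul_le_mul_of_nonneg_right hpi4.le hρ
  unfold q4 bR
  rw [th_of_ge (by linarith only [h0])]
  rcases le_or_gt 0 σ with h | h
  · rw [abs_of_nonneg h] at h0 h1 ⊢
    rw [max_eq_left h]
    have k1 : 0 ≤ 2 - 4 * σ := by linarith only [h1]
    have k2 : 0 ≤ Real.pi * ρ * ((2 - 4 * σ) * (4 * σ + 1 - 2 * σ)) := by
      have : 0 ≤ 4 * σ + 1 - 2 * σ := by linarith only [h0]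
      positivity
    have k3 : 0 ≤ Real.pi * ρ * ((2 - 4 * σ) * σ) := by positivity
    have k4 : 0 ≤ Real.pi * ρ * (2 - 4 * σ) := by positivity
    refine ⟨?_, ?_, ?_, ?_⟩ <;> nlinarith only [hρ, hpr, k2, k3]
  · have hσ : |σ| = -σ := abs_of_neg h
    rw [hσ] at h0 h1 ⊢
    rw [max_eq_right h.le]
    have k1 : 0 ≤ Real.pi * ρ * ((2 - 4 * -σ) * (4 * σ + 1) + 1 / 4) := by
      have : 0 ≤ (2 - 4 * -σ) * (4 * σ + 1) + 1 / 4 := by nlinarith only [sq_nonneg (σ + 3 / 8)]
      positivity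
    have k2 : 0 ≤ Real.pi * ρ * ((2 - 4 * -σ) * (8 * σ + 1) + 9 / 8) := by
      have : 0 ≤ (2 - 4 * -σ) * (8 * σ + 1) + 9 / 8 := by nlinarith only [sq_nonneg (σ + 5 / 16)]
      positivity
    refine ⟨?_, ?_, ?_, ?_⟩ <;> nlinarith only [hρ, hpr2, k1, k2]

/-- the change of the quadratic part, `n ≥ 4` -/
theorem quad_ge {n σ ρ : ℝ} (hn : 4 ≤ n) (hρ : 0 ≤ ρ) (h0 : 3 / 10 < |σ|) (h1 : |σ| ≤ 1 / 2) :
    q4 σ ρ ≤ (Real.pi * Complex.I * n * zM ρ ^ 2 + 2 * Real.pi * Complex.I * zM ρ).re -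
      (Real.pi * Complex.I * n * (⟨σ, ρ * LT.th σ⟩ : ℂ) ^ 2 +
      2 * Real.pi * Complex.I * (⟨σ, ρ * LT.th σ⟩ : ℂ)).re := by
  have hpi := Real.pi_pos
  rw [quad_diff]
  unfold q4
  have hth : LT.th σ = 2 - 4 * |σ| := th_of_ge (by linarith only [h0])
  have k : 0 ≤ 99 / 400 + LT.th σ * σ := by
    rw [hth]
    rcases le_or_gt 0 σ with h | h
    · rw [abs_of_nonneg h] at h0 h1 ⊢
      nlinarith only [h1, h0]
    · rw [abs_of_neg h] at h0 h1 ⊢
      nlinarith only [h0, h]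
  have k2 : 0 ≤ 2 * Real.pi * ρ * ((n - 4) * (99 / 400 + LT.th σ * σ)) := by
    have : 0 ≤ n - 4 := by linarith only [hn]
    positivity
  nlinarith only [k2]

theorem move_md (E : RowsE) {w w1 : ℂ} {a σ η ρ : ℝ} (h : ZSl .md w w1 a σ η)
    (hη : η = ρ * LT.th σ) (hρ : 0 ≤ ρ) (hρ' : ρ ≤ 1045 / 10000) (h0 : 3 / 10 < |σ|)
    (h1 : |σ| ≤ 1 / 2) : -(958 / 10000 - 85 / 100 * ρ) ≤ gs w w1 a ⟨σ, η⟩ (zM ρ) := by
  subst hη
  obtain ⟨e1, e2, a1, a2, a3, a4, a5, a6, a7⟩ := h.md rfl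
  have := E.e1 w.re w.im σ ρ a1 a2 a3 a4 a5 a6 a7 h0.le h1 hρ hρ'
  have e : w = ⟨w.re, w.im⟩ := rfl
  rw [← e] at this
  unfold gs
  rw [e1, e2]
  unfold zM
  linarith only [this]

/-- **The side of the ring.** -/
theorem ring_ok0 (E : RowsE) {g g' : ZK} {w w1 w' w1' : ℂ} {a a' σ ρ n : ℝ}
    (h : ZSl g w w1 a σ (ρ * LT.th σ)) (h' : ZSl g' w' w1' a' σ (ρ * LT.th σ)) (hn : 4 ≤ n)
    (hρ : 0 ≤ ρ) (hρ' : ρ ≤ 1045 / 10000) (hσ : |σ| ≤ 1 / 2) (hg : g = .rr ∨ g = .dd) :
    0 ≤ VR n w1 w1' (nz σ ρ) - VR n w w' ⟨σ, ρ * LT.th σ⟩ + a + a' ∧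
      (g = .rr ∨ g' = .rr → 0 < VR n w1 w1' (nz σ ρ) - VR n w w' ⟨σ, ρ * LT.th σ⟩ + a + a') := by
  have hpi := Real.pi_pos
  have hpi4 : Real.pi < 3.15 := Real.pi_lt_d2
  have hth : 0 ≤ LT.th σ := th_nonneg hσ
  have hη : 0 ≤ ρ * LT.th σ := mul_nonneg hρ hth
  by_cases c1 : 3 / 10 < |σ|
  · -- move
    have ez : nz σ ρ = zM ρ := by
      unfold nz
      rw [if_pos c1]
    rw [ez]
    have hq := quad_ge hn hρ c1 hσ
    obtain ⟨q1, q2, q3, q0⟩ := q4_low hρ c1 hσ
    have hth2 : LT.th σ ≤ 8 / 10 := by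
      rw [th_of_ge (by linarith only [c1])]
      linarith only [c1]
    have hη2 : Real.pi * (ρ * LT.th σ) ≤ 2634 / 10000 := by
      have b1 : ρ * LT.th σ ≤ 1045 / 10000 * (8 / 10) :=
        mul_le_mul hρ' hth2 hth (by norm_num)
      nlinarith only [hpi4, hpi, b1]
    have rrlow : ∀ {w w1 : ℂ} {a : ℝ}, ZSl .rr w w1 a σ (ρ * LT.th σ) →
        354 / 1000 + 18 / 100 * ρ - Real.pi * (ρ * LT.th σ) <
          gs w w1 a ⟨σ, ρ * LT.th σ⟩ (zM ρ) := by
      intro w w1 a h
      obtain ⟨q, e1, e2⟩ := h.rr rfl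
      have b1 := e1.mode_le hσ hη
      obtain ⟨-, -, -, -, T, hT, e3⟩ := e1.mode rfl
      have b2 := row_g hT hρ hρ'
      unfold gs
      rw [e2, e3]
      linarith only [b1, b2]
    have key : ∀ {Q : ℝ}, VR n w1 w1' (zM ρ) - VR n w w' ⟨σ, ρ * LT.th σ⟩ + a + a' =
        ((Real.pi * Complex.I * n * zM ρ ^ 2 + 2 * Real.pi * Complex.I * zM ρ).re -
      (Real.pi * Complex.I * n * (⟨σ, ρ * LT.th σ⟩ : ℂ) ^ 2 +
      2 * Real.pi * Complex.I * (⟨σ, ρ * LT.th σ⟩ : ℂ)).re) +
        gs w w1 a ⟨σ, ρ * LT.th σ⟩ (zM ρ) + gs w' w1' a' ⟨σ, ρ * LT.th σ⟩ (zM ρ) := by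
      intro Q
      rw [VR_fR, VR_fR]
      unfold gs
      ring
    rw [key (Q := 0)]
    rcases hg with rfl | rfl
    · -- `rr`
      have g1 := rrlow h
      have main : 0 < q4 σ ρ + gs w w1 a ⟨σ, ρ * LT.th σ⟩ (zM ρ) +
          gs w' w1' a' ⟨σ, ρ * LT.th σ⟩ (zM ρ) := by
        cases g'
        · have g2 := move_md E h' rfl hρ hρ' c1 hσ
          linarith only [hρ', q3, g1, g2]
        · -- by `ring_far`
          obtain ⟨q, e1, e2⟩ := h.rr rfl
          obtain ⟨f1, f2, f3, f4, f5, f6, f7⟩ := h'.mr rfl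
          have h'' : MSlot .main w' w1' 0 :=
            ⟨fun _ => ⟨f1, rfl, f3, f4, by linarith only [f5], by linarith only [f3, f6]⟩, fun h => absurd h (by decide),
              fun h => absurd h (by decide)⟩
          have b := ring_far e1 h'' (by decide) (n := 4) le_rfl hρ hρ' c1 hσ
          rw [VR_fR, VR_fR] at b
          have b2 := quad_diff 4 ρ σ
          unfold gs q4
          rw [e2, f2]
          have e4 : ((4 : ℝ) : ℂ) = (4 : ℂ) := by norm_num
          linarith only [b, b2]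
        · have g2 := rrlow h'
          linarith only [hρ', q3, hη2, g1, g2]
        · obtain ⟨θ, x, t, e1, e2, e3⟩ := h'.dd rfl
          have g2 : 92 / 1000 - bR σ (ρ * LT.th σ) ≤ gs w' w1' a' ⟨σ, ρ * LT.th σ⟩ (zM ρ) := by
            unfold gs
            rw [e2, e3]
            rcases dd_low E e1 hρ hρ' with b | b | b
            · linarith only [hρ, b]
            · linarith only [hρ, b]
            · linarith only [b, b.1]
          linarith only [hρ', q2, q3, hη2, g1, g2]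
      exact ⟨by linarith only [hq, main], fun _ => by linarith only [hq, main]⟩
    · -- `dd`
      obtain ⟨θ, x, t, e1, e2, e3⟩ := h.dd rfl
      have G := dd_low E e1 hρ hρ'
      have g1 : gs w w1 a ⟨σ, ρ * LT.th σ⟩ (zM ρ) =
          (fR ⟨x, -t⟩ (zM ρ) - gR θ x t) - bR σ (ρ * LT.th σ) := by
        unfold gs
        rw [e2, e3]
        ring
      cases g'
      · have g2 := move_md E h' rfl hρ hρ' c1 hσ
        refine ⟨?_, fun h => by rcases h with h | h <;> exact absurd h (by decide)⟩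
        rcases G with G | G | G
        · linarith only [hρ, hq, q1, g1, g2, G]
        · linarith only [hρ, hq, q1, g1, g2, G]
        · rcases le_total ρ (5 / 100) with c | c
          · linarith only [hρ', hq, q1, g1, g2, G, G.1]
          · linarith only [hq, q1, g1, g2, G, c, G.2]
      · obtain ⟨f1, f2, f3, f4, f5, f6, f7⟩ := h'.mr rfl
        refine ⟨?_, fun h => by rcases h with h | h <;> exact absurd h (by decide)⟩
        have e : w' = ⟨w'.re, w'.im⟩ := rfl
        have g2 : gs w' w1' a' ⟨σ, ρ * LT.th σ⟩ (zM ρ) =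
            -(fR w' ⟨σ, ρ * LT.th σ⟩ - fR w' ⟨-(11 / 40), 9 / 10 * ρ⟩) := by
          unfold gs zM
          rw [f1, f2]
          ring
        rcases G with G | G | G
        · have b := E.e4b w'.re w'.im σ ρ f3 f4 f5 f6 f7 c1.le hσ hρ hρ'
          rw [← e] at b
          linarith only [hq, g1, g2, G, b]
        · have b := E.e4a w'.re w'.im σ ρ f3 f4 f5 f6 f7 c1.le hσ hρ hρ'
          rw [← e] at b
          linarith only [hq, g1, g2, G, b]
        · have b := E.e4b w'.re w'.im σ ρ f3 f4 f5 f6 f7 c1.le hσ hρ hρ'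
          rw [← e] at b
          linarith only [hq, g1, g2, G, b, G.2]
      · have g2 := rrlow h'
        have : 92 / 1000 ≤ fR ⟨x, -t⟩ (zM ρ) - gR θ x t := by
          rcases G with G | G | G
          · linarith only [hρ, G]
          · linarith only [hρ, G]
          · linarith only [G, G.1]
        exact ⟨by linarith only [hρ', hq, q2, q3, hη2, g1, g2, this], fun _ => by linarith only [hρ', hq, q2, q3, hη2, g1, g2, this]⟩
      · obtain ⟨θ', x', t', e1', e2', e3'⟩ := h'.dd rfl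
        have G' := dd_low E e1' hρ hρ'
        have g2 : gs w' w1' a' ⟨σ, ρ * LT.th σ⟩ (zM ρ) =
            (fR ⟨x', -t'⟩ (zM ρ) - gR θ' x' t') - bR σ (ρ * LT.th σ) := by
          unfold gs
          rw [e2', e3']
          ring
        have c : 92 / 1000 ≤ fR ⟨x, -t⟩ (zM ρ) - gR θ x t := by
          rcases G with G | G | G
          · linarith only [hρ, G]
          · linarith only [hρ, G]
          · linarith only [G, G.1]
        have c' : 92 / 1000 ≤ fR ⟨x', -t'⟩ (zM ρ) - gR θ' x' t' := by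
          rcases G' with G | G | G
          · linarith only [hρ, G]
          · linarith only [hρ, G]
          · linarith only [G, G.1]
        exact ⟨by linarith only [hρ', hq, q2, g1, g2, c, c'], fun h => by rcases h with h | h <;> exact absurd h (by decide)⟩
  have hσ3 : |σ| ≤ 3 / 10 := not_lt.1 c1
  obtain ⟨s0, s1⟩ := abs_le.mp hσ3
  by_cases c2 : 15 / 100 < σ
  · -- reflected
    have ez : nz σ ρ = ⟨-σ, ρ * LT.th σ⟩ := by
      unfold nz
      rw [if_neg c1, if_pos c2]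
    rw [ez]
    obtain ⟨k1, k2, k3⟩ := flip_slot E h hρ hρ' c2 s1
    obtain ⟨l1, l2, l3⟩ := flip_slot E h' hρ hρ' c2 s1
    have hQ : (Real.pi * Complex.I * n * (⟨-σ, ρ * LT.th σ⟩ : ℂ) ^ 2 +
      2 * Real.pi * Complex.I * (⟨-σ, ρ * LT.th σ⟩ : ℂ)).re -
      (Real.pi * Complex.I * n * (⟨σ, ρ * LT.th σ⟩ : ℂ) ^ 2 +
      2 * Real.pi * Complex.I * (⟨σ, ρ * LT.th σ⟩ : ℂ)).re = 4 * Real.pi * n * σ * (ρ * LT.th σ) := by
      simp [pow_two]
      ring
    have key : VR n w1 w1' ⟨-σ, ρ * LT.th σ⟩ - VR n w w' ⟨σ, ρ * LT.th σ⟩ + a + a' =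
        4 * Real.pi * n * σ * (ρ * LT.th σ) + gs w w1 a ⟨σ, ρ * LT.th σ⟩ ⟨-σ, ρ * LT.th σ⟩ +
          gs w' w1' a' ⟨σ, ρ * LT.th σ⟩ ⟨-σ, ρ * LT.th σ⟩ := by
      rw [← hQ, VR_fR, VR_fR]
      unfold gs
      ring
    rw [key]
    have hpη : 0 ≤ Real.pi * (ρ * LT.th σ) := mul_nonneg hpi.le hη
    have hQ2 : 16 * σ * (Real.pi * (ρ * LT.th σ)) ≤ 4 * Real.pi * n * σ * (ρ * LT.th σ) := by
      have : 0 ≤ (n - 4) * σ * (Real.pi * (ρ * LT.th σ)) := by
        have : 0 ≤ n - 4 := by linarith only [hn]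
        have : 0 ≤ σ := by linarith only [c2]
        positivity
      nlinarith only [this]
    have hQ3 : 2 * (Real.pi * (ρ * LT.th σ)) + 2 * σ * (Real.pi * (ρ * LT.th σ)) ≤
        16 * σ * (Real.pi * (ρ * LT.th σ)) := by nlinarith only [s0, hpη, c2]
    have hQ4 : 0 ≤ σ * (Real.pi * (ρ * LT.th σ)) := by
      have : 0 ≤ σ := by linarith only [c2]
      positivity
    rcases hg with rfl | rfl
    · have := k3 rfl
      exact ⟨by linarith only [l1, hpη, hQ2, hQ3, this], fun _ => by linarith only [l1, hpη, hQ2, hQ3, this]⟩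
    · have k := k2 rfl
      refine ⟨by linarith only [l1, hQ2, hQ3, k], fun hr => ?_⟩
      rcases hr with hr | hr
      · exact absurd hr (by decide)
      · have := l3 hr
        linarith only [k1, hpη, hQ2, hQ3, this]
  · -- kept
    have ez : nz σ ρ = ⟨σ, ρ * LT.th σ⟩ := by
      unfold nz
      rw [if_neg c1, if_neg c2]
    rw [ez]
    obtain ⟨k1, k2⟩ := keep_slot E h hρ hρ' s0 (not_lt.1 c2)
    obtain ⟨l1, l2⟩ := keep_slot E h' hρ hρ' s0 (not_lt.1 c2)
    have key : VR n w1 w1' ⟨σ, ρ * LT.th σ⟩ - VR n w w' ⟨σ, ρ * LT.th σ⟩ + a + a' =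
        gs w w1 a ⟨σ, ρ * LT.th σ⟩ ⟨σ, ρ * LT.th σ⟩ +
          gs w' w1' a' ⟨σ, ρ * LT.th σ⟩ ⟨σ, ρ * LT.th σ⟩ := by
      rw [VR_fR, VR_fR]
      unfold gs
      ring
    rw [key]
    refine ⟨by linarith only [k1, l1], fun hr => ?_⟩
    rcases hr with hr | hr
    · have := k2 hr
      linarith only [l1, this]
    · have := l2 hr
      linarith only [k1, this]

/-- **The side of the ring**, both slots. -/
theorem ring_ok (E : RowsE) {g g' : ZK} {w w1 w' w1' : ℂ} {a a' σ ρ n : ℝ}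
    (h : ZSl g w w1 a σ (ρ * LT.th σ)) (h' : ZSl g' w' w1' a' σ (ρ * LT.th σ)) (hn : 4 ≤ n)
    (hρ : 0 ≤ ρ) (hρ' : ρ ≤ 1045 / 10000) (hσ : |σ| ≤ 1 / 2)
    (hg : (g = .rr ∨ g = .dd) ∨ g' = .rr ∨ g' = .dd) :
    0 ≤ VR n w1 w1' (nz σ ρ) - VR n w w' ⟨σ, ρ * LT.th σ⟩ + a + a' ∧
      (g = .rr ∨ g' = .rr → 0 < VR n w1 w1' (nz σ ρ) - VR n w w' ⟨σ, ρ * LT.th σ⟩ + a + a') := by
  rcases hg with hg | hg
  · exact ring_ok0 E h h' hn hρ hρ' hσ hg
  · have k := ring_ok0 E h' h hn hρ hρ' hσ hg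
    rw [VR_comm n w1 w1', VR_comm n w w']
    exact ⟨by linarith only [k, k.1], fun hr => by linarith only [k, hr, k.2 hr.symm]⟩

end ZD

end Pool.Agent.Work.MP_b30479_gtS.G2

end

section

/-!
# Modes at rings: positions and changes of the values in a word
-/

namespace Pool.Agent.Work.MP_b30479_gtS.G2

open Finset VOL Filter Topology NumUs

namespace SR

variable {M : ℕ} {b : Fin (M + 1) → ℤ} {zs : DD (tyW b) ⊕ ZZ (tyW b) → ℂ}
variable {R : Finset (DD (tyW b))} {nb : Finset (DD (tyW b) ⊕ ZZ (tyW b))}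
variable {z : DD (tyW b) ⊕ ZZ (tyW b) → ℂ} {p : DD (tyW b) → ℝ}
variable {h h' : Fin M} {i j j' : Fin (M + 1)} {s : Fin 3} {x c : ℝ}

/-! ### heights of the mirrored paths at rings -/

theorem rh_frame (A : Adj h i s j) (hi : clsW b i ≠ .ring) (hj : clsW b j = .ring) :
    (if 0 < b i then rhu b zs h else rhd b zs h) = rnear (Th b zs h i) ∧
      (if 0 < b i then rhd b zs h else rhu b zs h) = rfar (Th b zs h i) := by
  cases A with
  | l =>
    unfold rhu rhd Th
    rw [if_neg hi, if_neg hi]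
    by_cases h0 : 0 < b h.castSucc
    · simp only [if_pos h0]
      constructor <;> trivial
    · simp only [if_neg h0]
      constructor <;> trivial
  | r =>
    unfold rhu rhd Th
    rw [if_pos hj, if_pos hj, if_neg hi, if_neg hi]
    by_cases h0 : 0 < b h.succ
    · simp only [if_pos h0]
      constructor <;> trivial
    · simp only [if_neg h0]
      constructor <;> trivial

theorem mhu_ring (hr : RH1 b (.inl h)) : mhu b zs (.inl h) = rhu b zs h := by
  simp only [RH1] at hr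
  simp only [mhu, if_pos hr]

theorem mhd_ring (hr : RH1 b (.inl h)) : mhd b zs (.inl h) = rhd b zs h := by
  simp only [RH1] at hr
  simp only [mhd, if_pos hr]

theorem Adj.rh1 (A : Adj h i s j) (hj : clsW b j = .ring) : RH1 b (.inl h) := by
  cases A
  · exact Or.inr hj
  · exact Or.inl hj

/-- heights of the mirrored paths in the frame of the region `i` with the hinge in its slot `s`,
the region behind is `j` -/
noncomputable def Hup (b : Fin (M + 1) → ℤ) (h : Fin M) (s : Fin 3) (j : Fin (M + 1)) : ℝ :=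
  if clsW b j = .ring then 16 / 100 else mhs b h s.rev

noncomputable def Hdn (b : Fin (M + 1) → ℤ) (h : Fin M) (s : Fin 3) (j : Fin (M + 1)) : ℝ :=
  if clsW b j = .ring then 10000 else mhs b h s

/-- **Position of any hinge in the frame of a region which is no ring.** -/
theorem MM.pstA (hb : ClassW b) (hR : ∀ i ∈ R, Sum.inl i ∈ nb) (hM : MM b zs R nb z p)
    (A : Adj h i s j) (hi : clsW b i ≠ .ring) (hnR : (Sum.inl h : DD (tyW b)) ∉ R) :
    Pst (Th b zs h i) (Hup b h s j) (Hdn b h s j) (wXM b h) (wcl b h) (wcr b h) (Ow b z i s)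
      (p (.inl h)) := by
  by_cases hn : Sum.inl (Sum.inl h) ∈ nb
  · obtain ⟨e1, e2, e3, e4⟩ := hM.adm.reD _ hnR hn
    rw [Ow_adj z A]
    refine ⟨(z (.inl (.inl h))).re, e2, e3, ofr_re _ _, Or.inl ⟨?_, e4⟩⟩
    rw [ofr_im, e1, ofs_zero]
  by_cases hj : clsW b j = .ring
  · have hr := A.rh1 hj
    unfold Hup Hdn
    rw [if_pos hj, if_pos hj, Ow_adj z A]
    obtain ⟨f1, f2⟩ := rh_frame (zs := zs) A hi hj
    obtain ⟨x, h0, h1, h2⟩ := hM.adm.onD (.inl h) hn
    have hu : (wparM b zs).hu (.inl h) = rhu b zs h := mhu_ring hr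
    have hd : (wparM b zs).hd (.inl h) = rhd b zs h := mhd_ring hr
    rw [hu, hd] at h2
    have ht := trh_mem (b := b) h x
    refine ⟨x, h0, h1, ?_, ?_⟩
    · rw [ofr_re]
      rcases h2 with h2 | h2 | h2 <;> rw [h2.1, ptm_re]
    rw [ofr_im]
    have him : ∀ H : ℝ, (pt 0 ((wparM b zs).XM (.inl h)) ((wparM b zs).cl (.inl h))
        ((wparM b zs).cr (.inl h)) H x).im = H * trh b h x := fun H => ptm_im _ _ _ _ _ _
    have htr : tr 0 ((wparM b zs).XM (.inl h)) ((wparM b zs).cl (.inl h))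
        ((wparM b zs).cr (.inl h)) x = trh b h x := rfl
    rw [htr] at h2
    -- the two mirrored paths in the frame of `i`
    have up : (z (.inl (.inl h)) = pt 0 ((wparM b zs).XM (.inl h)) ((wparM b zs).cl (.inl h))
        ((wparM b zs).cr (.inl h)) (rhu b zs h) x ∧ p (.inl h) = rhu b zs h * trh b h x) ∨
        (z (.inl (.inl h)) = pt 0 ((wparM b zs).XM (.inl h)) ((wparM b zs).cl (.inl h))
        ((wparM b zs).cr (.inl h)) (-rhd b zs h) x ∧ p (.inl h) = rhd b zs h * trh b h x) →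
        (ofs (b i) (z (.inl (.inl h))).im = rnear (Th b zs h i) * trh b h x ∧
          p (.inl h) = rnear (Th b zs h i) * trh b h x) ∨
        (ofs (b i) (z (.inl (.inl h))).im = -(rfar (Th b zs h i) * trh b h x) ∧
          p (.inl h) = rfar (Th b zs h i) * trh b h x) := by
      intro h3
      by_cases hbi : 0 < b i
      · rw [if_pos hbi] at f1 f2
        rw [f1, f2] at h3
        rcases h3 with ⟨e1, e2⟩ | ⟨e1, e2⟩
        · left
          refine ⟨?_, e2⟩
          rw [e1, him, ofs_pos hbi]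
        · right
          refine ⟨?_, e2⟩
          rw [e1, him, ofs_pos hbi]
          ring
      · have ho : ∀ m : ℝ, ofs (b i) m = -m := fun m => by unfold ofs; rw [if_neg hbi]
        rw [if_neg hbi] at f1 f2
        rw [f1, f2] at h3
        rcases h3 with ⟨e1, e2⟩ | ⟨e1, e2⟩
        · right
          refine ⟨?_, e2⟩
          rw [e1, him, ho]
        · left
          refine ⟨?_, e2⟩
          rw [e1, him, ho]
          ring
    have pz : ofs (b i) (z (.inl (.inl h))).im = Th b zs h i * trh b h x → 0 ≤ p (.inl h) →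
        p (.inl h) = 0 := by
      intro e1 e2
      refine le_antisymm (hM.pen_zero hR hn ⟨x, h0, h1, Or.inl ⟨?_, rfl⟩⟩) e2
      have hre : (z (.inl (.inl h))).re = x := by
        rcases h2 with h2 | h2 | h2 <;> rw [h2.1, ptm_re]
      apply Complex.ext
      · rw [hre, ptm_re]
      · have e3 := him (zs (.inl (.inl h))).im
        rw [e3]
        unfold Th at e1
        rw [← ofs_mulR] at e1
        unfold ofs at e1
        split_ifs at e1 <;> linarith
    rcases h2 with ⟨e1, e2⟩ | h2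
    · right; left
      refine ⟨?_, e2⟩
      rw [e1, him, ofs_mulR]
      rfl
    · rcases up h2 with ⟨e1, e2⟩ | ⟨e1, e2⟩
      · unfold rnear at e1 e2
        by_cases hT : 0 < Th b zs h i
        · rw [if_pos hT] at e1 e2
          right; left
          refine ⟨e1, pz e1 ?_⟩
          rw [e2]
          exact mul_nonneg hT.le ht.1
        · rw [if_neg hT] at e1 e2
          right; right; left
          exact ⟨not_lt.1 hT, e1, e2⟩
      · unfold rfar at e1 e2
        by_cases hT : Th b zs h i < 0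
        · rw [if_pos hT] at e1 e2
          right; left
          have e1' : ofs (b i) (z (.inl (.inl h))).im = Th b zs h i * trh b h x := by
            rw [e1]; ring
          refine ⟨e1', pz e1' ?_⟩
          rw [e2]
          exact mul_nonneg (by linarith) ht.1
        · rw [if_neg hT] at e1 e2
          right; right; right
          exact ⟨not_lt.1 hT, e1, e2⟩
  · unfold Hup Hdn
    rw [if_neg hj, if_neg hj]
    exact hM.slot hb hR A hn hi hj

/-- the coordinate in the frame of the region behind -/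
theorem Ow_opp (hb : ClassW b) (A : Adj h i s j) (hi : clsW b i ≠ .ring) :
    Ow b z j s.rev = ⟨(Ow b z i s).re, -(Ow b z i s).im⟩ := by
  have hs := sign_adj hb A hi
  rw [Ow_adj z A, Ow_adj z A.symm]
  apply Complex.ext
  · rw [ofr_re, ofr_re]
  · rw [ofr_im, ofr_im, ofs_neg_of_opp hs]

theorem Th_opp (hb : ClassW b) (A : Adj h i s j) (hi : clsW b i ≠ .ring) :
    Th b zs h j = -Th b zs h i := ofs_neg_of_opp (sign_adj hb A hi) _

/-! ### changes of the values -/

theorem sl_ne (A : Adj h i s j) : s ≠ 1 ∧ s.rev ≠ 1 ∧ s.rev ≠ s := by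
  cases A <;> decide

/-- digit `1` -/
theorem dv_one (hb : ClassW b) (A : Adj h i s j) (hc : clsW b i = .one) (u : ℂ) :
    OV b i (Function.update (Ow b z i) s u) - OV b i (Ow b z i) =
      ZD.gD1 u.re u.im (Ow b z i s.rev).re (Ow b z i s.rev).im -
        ZD.gD1 (Ow b z i s).re (Ow b z i s).im (Ow b z i s.rev).re (Ow b z i s.rev).im := by
  have e : ∀ w : ℂ, OV b i (Function.update (Ow b z i) s w) = V1 w (Ow b z i s.rev) := by
    intro w
    rw [OV_one hb hc]
    cases A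
    · rw [Function.update_self, Function.update_of_ne (by decide), V1_comm]
      rfl
    · rw [Function.update_self, Function.update_of_ne (by decide)]
      rfl
  have e2 := e (Ow b z i s)
  rw [Function.update_eq_self] at e2
  rw [e, e2]
  unfold V1 ZD.gD1
  simp only [UU_uu, Complex.add_re, Complex.add_im, Complex.sub_im, Complex.mul_im]
  ring

/-- digit `2` -/
theorem dv_two (hb : ClassW b) (A : Adj h i s j) (hc : clsW b i = .two ∨ clsW b i = .twoE) (u : ℂ) :
    OV b i (Function.update (Ow b z i) s u) - OV b i (Ow b z i) =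
      ZD.gD2 u.re u.im (Ow b z i s.rev).re (Ow b z i s.rev).im -
        ZD.gD2 (Ow b z i s).re (Ow b z i s).im (Ow b z i s.rev).re (Ow b z i s.rev).im := by
  have e : ∀ w : ℂ, OV b i (Function.update (Ow b z i) s w) = V2 w (Ow b z i s.rev) := by
    intro w
    rw [OV_two hb hc (endOk_upd A (Ow_endOk z i) _)]
    cases A
    · rw [Function.update_self, Function.update_of_ne (by decide), V2_comm]
      rfl
    · rw [Function.update_self, Function.update_of_ne (by decide)]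
      rfl
  have e2 := e (Ow b z i s)
  rw [Function.update_eq_self] at e2
  rw [e, e2]
  unfold V2 ZD.gD2
  simp only [UU_uu, Complex.add_re, Complex.add_im, Complex.sub_im, Complex.sub_re, pow_two,
    Complex.mul_im]
  ring

/-- digit `2` at an end -/
theorem dv_twoE (hb : ClassW b) (A : Adj h i s j) (hc : clsW b i = .twoE) (u : ℂ) :
    OV b i (Function.update (Ow b z i) s u) - OV b i (Ow b z i) =
      ZD.gD0 u.re u.im - ZD.gD0 (Ow b z i s).re (Ow b z i s).im := by
  rw [dv_two hb A (Or.inr hc), Ow_end A (clsW_end (Or.inl hc))]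
  unfold ZD.gD2 ZD.gD0
  simp only [Complex.zero_re, Complex.zero_im, add_zero, sub_zero]
  ring

/-- the function of the slot `0` of a digit `3` -/
theorem V3_sub0 (u u' v w : ℂ) : V3 u v w - V3 u' v w =
    ZD.gD1 u.re u.im (1 - v.re) (-v.im) - ZD.gD1 u'.re u'.im (1 - v.re) (-v.im) := by
  have e : ∀ u : ℂ, UU (v - u) = -uu (u.re + (1 - v.re)) (u.im + -v.im) := by
    intro u
    have := UU_one_sub (1 - (v - u))
    rw [sub_sub_cancel] at this
    rw [this, UU_uu]
    congr 2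
    · simp only [Complex.sub_re, Complex.one_re]
      ring
    · simp only [Complex.sub_im, Complex.one_im]
      ring
  unfold V3 ZD.gD1
  rw [e u, e u']
  simp only [UU_uu, Complex.add_im, Complex.sub_im, Complex.mul_im, Complex.mul_re,
    pow_two, Complex.re_ofNat, Complex.im_ofNat]
  ring

/-- the function of the slot `2` of a digit `3` -/
theorem V3_two (u v w w' : ℂ) : V3 u v w - V3 u v w' =
    ZD.gD2 w.re w.im v.re v.im - ZD.gD2 w'.re w'.im v.re v.im := by
  unfold V3 ZD.gD2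
  simp only [UU_uu, Complex.add_re, Complex.add_im, Complex.sub_re, Complex.sub_im, Complex.mul_im,
    pow_two]
  rw [add_comm v.re w.re, add_comm v.im w.im, add_comm v.re w'.re, add_comm v.im w'.im]
  ring

theorem dv_three0 (hb : ClassW b) (hc : clsW b i = .three) (u : ℂ) :
    OV b i (Function.update (Ow b z i) 0 u) - OV b i (Ow b z i) =
      ZD.gD1 u.re u.im (1 - (Ow b z i 1).re) (-(Ow b z i 1).im) -
        ZD.gD1 (Ow b z i 0).re (Ow b z i 0).im (1 - (Ow b z i 1).re) (-(Ow b z i 1).im) := by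
  rw [OV_three hb hc, OV_three hb hc, Function.update_self, Function.update_of_ne (by decide),
    Function.update_of_ne (by decide), V3_sub0]

theorem dv_three2 (hb : ClassW b) (hc : clsW b i = .three) (u : ℂ) :
    OV b i (Function.update (Ow b z i) 2 u) - OV b i (Ow b z i) =
      ZD.gD2 u.re u.im (Ow b z i 1).re (Ow b z i 1).im -
        ZD.gD2 (Ow b z i 2).re (Ow b z i 2).im (Ow b z i 1).re (Ow b z i 1).im := by
  rw [OV_three hb hc, OV_three hb hc, Function.update_self, Function.update_of_ne (by decide),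
    Function.update_of_ne (by decide), V3_two]

theorem dv_threeE (A : Adj h i s j) (hc : clsW b i = .threeE) (u : ℂ) :
    OV b i (Function.update (Ow b z i) s u) - OV b i (Ow b z i) =
      ZD.gD1 u.re u.im (1 - (Ow b z i 1).re) (-(Ow b z i 1).im) -
        ZD.gD1 (Ow b z i s).re (Ow b z i s).im (1 - (Ow b z i 1).re) (-(Ow b z i 1).im) := by
  rw [A.OV_threeE hc (endOk_upd A (Ow_endOk z i) _), A.OV_threeE hc (Ow_endOk z i),
    Function.update_self, Function.update_of_ne (by cases A <;> decide), V3_sub0]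

/-- ring, one slot -/
theorem dv_ring (hb : ClassW b) (A : Adj h i s j) (hc : clsW b i = .ring) (u : ℂ) :
    OV b i (Function.update (Ow b z i) s u) - OV b i (Ow b z i) =
      fR u (Ow b z i 1) - fR (Ow b z i s) (Ow b z i 1) := by
  have e : ∀ w : ℂ, OV b i (Function.update (Ow b z i) s w) =
      VR ((b i).natAbs : ℝ) w (Ow b z i s.rev) (Ow b z i 1) := by
    intro w
    rw [OV_ring hb hc (endOk_upd A (Ow_endOk z i) _)]
    cases A
    · rw [Function.update_self, Function.update_of_ne (by decide),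
        Function.update_of_ne (by decide), VR_comm]
      rfl
    · rw [Function.update_self, Function.update_of_ne (by decide),
        Function.update_of_ne (by decide)]
      rfl
  have e2 := e (Ow b z i s)
  rw [Function.update_eq_self] at e2
  rw [e, e2, VR_fR, VR_fR]
  ring

/-- **Comparison with the main path at a maximiser**: one hinge is moved. -/
theorem MM.one_move (hb : ClassW b) (hR : ∀ i ∈ R, Sum.inl i ∈ nb) (hM : MM b zs R nb z p)
    (A : Adj h i s j) (hn : Sum.inl (Sum.inl h) ∉ nb) (h0 : 0 ≤ c) (h1 : c ≤ wXM b h) :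
    (OV b i (Function.update (Ow b z i) s (tgo b zs h i c)) - OV b i (Ow b z i)) +
      (OV b j (Function.update (Ow b z j) s.rev (tgo b zs h j c)) - OV b j (Ow b z j)) +
      2 * Real.pi * p (.inl h) ≤ 0 := by
  have k1 := SideG.keep (b := b) (zs := zs) (nb := nb) (z := z) (p := p) A (tg b zs h c)
  have k2 := SideG.keep (b := b) (zs := zs) (nb := nb) (z := z) (p := p) A.symm (tg b zs h c)
  rw [ofr_tg] at k1 k2
  exact hM.star hb hR A hn (onP_tg h0 h1) k1 k2

end SR

end Pool.Agent.Work.MP_b30479_gtS.G2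

end

section

/-!
# Modes at rings: windows and neighbours in a word
-/

namespace Pool.Agent.Work.MP_b30479_gtS.G2

open Finset VOL Filter Topology NumUs

namespace SR

variable {M : ℕ} {b : Fin (M + 1) → ℤ} {zs : DD (tyW b) ⊕ ZZ (tyW b) → ℂ}
variable {R : Finset (DD (tyW b))} {nb : Finset (DD (tyW b) ⊕ ZZ (tyW b))}
variable {z : DD (tyW b) ⊕ ZZ (tyW b) → ℂ} {p : DD (tyW b) → ℝ}
variable {h h' : Fin M} {i j j' : Fin (M + 1)} {s : Fin 3} {x c : ℝ}

/-! ### trapezoids -/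

theorem tr_le_cl {b' c c' x : ℝ} (hc : 0 < c) (hx : 0 ≤ x) : tr 0 b' c c' x ≤ x / c := tr_le_l hc hx

theorem tr_le_cr {b' c c' x : ℝ} (hc : 0 < c') (hx : x ≤ b') : tr 0 b' c c' x ≤ (b' - x) / c' := by
  unfold tr
  apply max_le
  · apply div_nonneg (by linarith only [hx]) hc.le
  · exact (min_le_right _ _).trans (min_le_right _ _)

theorem tr_flat {b' c c' x : ℝ} (hc : 0 < c) (hc' : 0 < c') (h0 : c ≤ x) (h1 : x ≤ b' - c') :
    tr 0 b' c c' x = 1 := by
  unfold tr
  rw [min_eq_left, max_eq_right zero_le_one]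
  apply le_min
  · rw [sub_zero, le_div_iff₀ hc]
    linarith only [h0]
  · rw [le_div_iff₀ hc']
    linarith only [h1]

theorem tr_left {b' c c' x : ℝ} (hc : 0 < c) (hc' : 0 < c') (h0 : 0 ≤ x) (h1 : x ≤ b' - c') :
    tr 0 b' c c' x = min 1 (x / c) := by
  unfold tr
  rw [sub_zero, ← min_assoc]
  have h2 : 1 ≤ (b' - x) / c' := by
    rw [le_div_iff₀ hc']
    linarith only [h1]
  rw [min_eq_left ((min_le_left _ _).trans h2)]
  apply max_eq_right
  apply le_min zero_le_one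
  positivity

/-- parameters at a digit `1` -/
theorem Adj.par_one (A : Adj h i s j) (hc : clsW b i = .one) :
    (clsW b j = .one → (wXM b h = 80 / 100 ∨ wXM b h = 86 / 100) ∧ wcl b h = 15 / 100 ∧
      wcr b h = 20 / 100) ∧
    (clsW b j = .two → wXM b h = 80 / 100 ∧ wcl b h = 16 / 100 ∧ wcr b h = 29 / 100) ∧
    (clsW b j = .twoE → wXM b h = 70 / 100 ∧ wcl b h = 14 / 100 ∧ wcr b h = 35 / 100) ∧
    (clsW b j = .three → wXM b h = 65 / 100 ∧ 13 / 100 ≤ wcl b h) ∧
    (clsW b j = .threeE → wXM b h = 60 / 100 ∧ wcl b h = 14 / 100) ∧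
    (clsW b j = .ring → wXM b h = 65 / 100 ∧ wcl b h = 16 / 100 ∧ wcr b h = 29 / 100) := by
  rw [A.XM_eq b, A.cl_eq b, A.cr_eq b, hc]
  generalize oc b i s.rev = P
  generalize oc b j s = Q
  generalize clsW b j = B
  refine ⟨?_, ?_, ?_, ?_, ?_, ?_⟩
  · rintro rfl
    unfold hpp
    split_ifs <;> (simp only [hp]; split_ifs <;> norm_num)
  · rintro rfl
    unfold hpp
    split_ifs <;> simp [hp, hp1]
  · rintro rfl
    unfold hpp
    split_ifs <;> simp [hp, hp1]
  · rintro rfl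
    unfold hpp
    split_ifs <;> simp only [hp, hp1] <;> norm_num
  · rintro rfl
    unfold hpp
    split_ifs <;> simp [hp, hp1]
  · rintro rfl
    unfold hpp
    split_ifs <;> simp [hp, hp1]

/-- parameters at a digit `2` inside -/
theorem Adj.par_two (A : Adj h i s j) (hc : clsW b i = .two) :
    wXM b h ≤ 80 / 100 ∧ 10 / 100 ≤ wcl b h := by
  rw [A.XM_eq b, A.cl_eq b, hc]
  generalize oc b i s.rev = P
  generalize oc b j s = Q
  generalize clsW b j = B
  unfold hpp
  split_ifs <;> cases B <;> simp only [hp, hp1] <;> norm_num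

/-- parameters of the hinge between a region which is no ring and a ring -/
theorem Adj.par_ring (A : Adj h i s j) (hi : clsW b i ≠ .ring) (hj : clsW b j = .ring) :
    (clsW b i = .one → wXM b h = 65 / 100 ∧ wcl b h = 16 / 100 ∧ wcr b h = 29 / 100) ∧
    (clsW b i ≠ .one → wXM b h = 60 / 100) ∧
    (clsW b i = .three → s = 0 → wcl b h = 12 / 100 ∧ wcr b h = 30 / 100) ∧
    (clsW b i = .three → s = 2 → wcl b h = 13 / 100 ∧ wcr b h = 30 / 100) ∧
    (10 / 100 ≤ wcl b h ∧ wcl b h ≤ 16 / 100) ∧ (29 / 100 ≤ wcr b h ∧ wcr b h ≤ 34 / 100) ∧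
    (clsW b i ≠ .one → 30 / 100 ≤ wcr b h) := by
  have hs := A.slot
  rw [A.XM_eq b, A.cl_eq b, A.cr_eq b, hj]
  generalize oc b i s.rev = P
  generalize oc b j s = Q
  generalize clsW b i = B at hi
  unfold hpp
  rcases hs with rfl | rfl
  · rw [if_neg (by decide)]
    cases B <;> first | exact absurd rfl hi | (simp [hp, hp1]; try norm_num)
  · rw [if_pos rfl]
    cases B <;> first | exact absurd rfl hi | (simp [hp, hp1]; try norm_num)

/-- heights at rings -/
theorem Th_ring (hb : ClassW b) (L : LocA b zs) (A : Adj h i s j) (hi : clsW b i ≠ .ring)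
    (hj : clsW b j = .ring) :
    -(1 / 1000) ≤ Th b zs h i ∧ Th b zs h i ≤ 158 / 1000 ∧
      (clsW b i = .one → 38 / 1000 ≤ Th b zs h i) ∧
      (clsW b i = .two → 10 / 1000 ≤ Th b zs h i ∧ Th b zs h i ≤ 96 / 1000) ∧
      (clsW b i = .twoE → 88 / 1000 ≤ Th b zs h i) ∧
      (clsW b i = .threeE → 18 / 1000 ≤ Th b zs h i) ∧
      (clsW b i ≠ .one → Th b zs h i ≤ 131 / 1000) ∧
      (clsW b i = .three ∨ clsW b i = .threeE → Th b zs h i ≤ 58 / 1000) := by
  have h1 := Th_mem hb L.L A hi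
  have h2 := L.X.three A
  rw [hj] at h1
  generalize clsW b i = B at hi h1 h2
  unfold Th at h1 ⊢
  cases B
  all_goals first
    | exact absurd rfl hi
    | (simp only [hbox] at h1
       obtain ⟨a, c⟩ := h1
       refine ⟨?_, ?_, ?_, ?_, ?_, ?_, ?_, ?_⟩ <;> first
         | (intro h0; cases h0; done)
         | (intro h0; exact absurd rfl h0)
         | (rintro (h0 | h0) <;> cases h0 <;> linarith only [c])
         | (intro _; constructor <;> linarith only [a, c])
         | (intro _; linarith only [a, c])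
         | linarith only [a, c]
         | (linarith only [h2, hj, h2 rfl hj]))

/-! ### other hinges -/

/-- upper bounds in the frame of the region -/
theorem Pst.up_le {T Hu Hd XM cl cr c : ℝ} {X : ℂ} {q : ℝ} (hX : Pst T Hu Hd XM cl cr X q)
    (hcl : 0 < cl) (hHd : 0 ≤ Hd) (hc : 0 ≤ c) (h1 : T ≤ c * cl) (h2 : T ≤ 0 → Hu ≤ c * cl) :
    0 ≤ X.re ∧ X.re ≤ XM ∧ X.im ≤ c * X.re := by
  obtain ⟨x, h0, h3, h4, h5⟩ := hX
  have ht := tr_mem 0 XM cl cr x
  have hl := tr_le_cl (b' := XM) (c' := cr) hcl h0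
  rw [h4]
  refine ⟨h0, h3, ?_⟩
  have key : ∀ H : ℝ, H ≤ c * cl → H * tr 0 XM cl cr x ≤ c * x := by
    intro H hH
    have a1 : H * tr 0 XM cl cr x ≤ c * cl * tr 0 XM cl cr x :=
      mul_le_mul_of_nonneg_right hH ht.1
    have a2 : c * cl * tr 0 XM cl cr x ≤ c * cl * (x / cl) :=
      mul_le_mul_of_nonneg_left hl (by positivity)
    have a3 : c * cl * (x / cl) = c * x := by
      field_simp
    linarith only [a1, a2, a3]
  rcases h5 with ⟨e, -⟩ | ⟨e, -⟩ | ⟨hT, e, -⟩ | ⟨hT, e, -⟩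
  · rw [e]
    positivity
  · rw [e]
    exact key T h1
  · rw [e]
    exact key Hu (h2 hT)
  · rw [e]
    have := mul_nonneg hHd ht.1
    have := mul_nonneg hc h0
    linarith

theorem Pst.im_le {T Hu Hd XM cl cr c : ℝ} {X : ℂ} {q : ℝ} (hX : Pst T Hu Hd XM cl cr X q)
    (hHd : 0 ≤ Hd) (hc : 0 ≤ c) (h1 : T ≤ c) (h2 : T ≤ 0 → Hu ≤ c) : X.im ≤ c := by
  obtain ⟨x, h0, h3, h4, h5⟩ := hX
  have ht := tr_mem 0 XM cl cr x
  have key : ∀ H : ℝ, H ≤ c → H * tr 0 XM cl cr x ≤ c := by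
    intro H hH
    have a1 : H * tr 0 XM cl cr x ≤ c * tr 0 XM cl cr x := mul_le_mul_of_nonneg_right hH ht.1
    have a2 : c * tr 0 XM cl cr x ≤ c * 1 := mul_le_mul_of_nonneg_left ht.2 hc
    linarith only [a1, a2]
  rcases h5 with ⟨e, -⟩ | ⟨e, -⟩ | ⟨hT, e, -⟩ | ⟨hT, e, -⟩
  · rw [e]
    exact hc
  · rw [e]
    exact key T h1
  · rw [e]
    exact key Hu (h2 hT)
  · rw [e]
    have := mul_nonneg hHd ht.1
    linarith only [hc, this]

theorem Hdn_pos (b : Fin (M + 1) → ℤ) (h : Fin M) (s : Fin 3) (j : Fin (M + 1)) :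
    0 < Hdn b h s j := by
  unfold Hdn
  split_ifs
  · norm_num
  · exact mhs_pos _ _

/-- the upper mirrored path is low except next to a `3` seen from a `1` -/
theorem Hup_le (A : Adj h i s j) (hc : clsW b i = .one ∨ clsW b i = .two)
    (h3 : clsW b i = .one → clsW b j ≠ .three) : Hup b h s j = 16 / 100 := by
  unfold Hup
  split_ifs with hj
  · rfl
  · unfold mhs
    cases A with
    | l =>
      have e : (2 : Fin 3).rev = 0 := by decide
      rw [e]
      rcases hc with hc | hc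
      · rw [if_neg (fun h0 => h3 hc h0.2), if_neg (fun h0 => by rw [hc] at h0; exact absurd h0.1 (by decide))]
      · rw [if_neg (fun h0 => by rw [hc] at h0; exact absurd h0.1 (by decide)),
          if_neg (fun h0 => absurd h0.2.2 (by decide))]
    | r =>
      rcases hc with hc | hc
      · rw [if_neg (fun h0 => by rw [hc] at h0; exact absurd h0.2 (by decide)),
          if_neg (fun h0 => by rw [hc] at h0; exact absurd h0.2.1 (by decide))]
      · rw [if_neg (fun h0 => by rw [hc] at h0; exact absurd h0.2 (by decide)),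
          if_neg (fun h0 => by rw [hc] at h0; exact absurd h0.2.1 (by decide))]

/-- **a hinge of a digit `1`** -/
theorem MM.up_one (hb : ClassW b) (L : LocA b zs) (hR : ∀ i ∈ R, Sum.inl i ∈ nb)
    (hM : MM b zs R nb z p) (A : Adj h i s j) (hc : clsW b i = .one)
    (hnR : (Sum.inl h : DD (tyW b)) ∉ R) :
    0 ≤ (Ow b z i s).re ∧ (Ow b z i s).re ≤ 86 / 100 ∧
      (Ow b z i s).im ≤ 125 / 100 * (Ow b z i s).re := by
  have hi : clsW b i ≠ .ring := by rw [hc]; decide
  have hP := hM.pstA hb hR A hi hnR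
  have hT := Th_mem hb L.L A hi
  rw [hc] at hT
  obtain ⟨p1, p2, p3, p4, p5, p6⟩ := A.par_one hc
  have hd := (Hdn_pos b h s j).le
  have fin : wXM b h ≤ 86 / 100 → (0 < wcl b h) → (Th b zs h i ≤ 125 / 100 * wcl b h) →
      (Th b zs h i ≤ 0 → Hup b h s j ≤ 125 / 100 * wcl b h) →
      0 ≤ (Ow b z i s).re ∧ (Ow b z i s).re ≤ 86 / 100 ∧
      (Ow b z i s).im ≤ 125 / 100 * (Ow b z i s).re := by
    intro a1 a2 a3 a4
    obtain ⟨b1, b2, b3⟩ := hP.up_le a2 hd (by norm_num) a3 a4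
    exact ⟨b1, b2.trans a1, b3⟩
  rcases hj : clsW b j
  · rw [hj] at hT
    simp only [hbox] at hT
    obtain ⟨q1, q2, q3⟩ := p1 hj
    have hu := Hup_le (b := b) A (Or.inl hc) (fun _ => by rw [hj]; decide)
    refine fin (by rcases q1 with q1 | q1 <;> linarith only [q1]) (by rw [q2]; norm_num) (by rw [q2]; linarith only [hT]) ?_
    rw [hu, q2]
    intro _; norm_num
  · rw [hj] at hT
    simp only [hbox] at hT
    obtain ⟨q1, q2, q3⟩ := p2 hj
    have hu := Hup_le (b := b) A (Or.inl hc) (fun _ => by rw [hj]; decide)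
    refine fin (by linarith only [q1]) (by rw [q2]; norm_num) (by rw [q2]; linarith only [hT]) ?_
    rw [hu, q2]
    intro _; norm_num
  · rw [hj] at hT
    simp only [hbox] at hT
    obtain ⟨q1, q2, q3⟩ := p3 hj
    have hu := Hup_le (b := b) A (Or.inl hc) (fun _ => by rw [hj]; decide)
    refine fin (by linarith only [q1]) (by rw [q2]; norm_num) (by rw [q2]; linarith only [hT]) ?_
    rw [hu, q2]
    intro _; norm_num
  · rw [hj] at hT
    simp only [hbox] at hT
    obtain ⟨q1, q2⟩ := p4 hj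
    exact fin (by linarith only [q1]) (by linarith only [q2]) (by linarith only [hT, q2]) (fun h0 => by linarith only [hT, h0])
  · rw [hj] at hT
    simp only [hbox] at hT
    obtain ⟨q1, q2⟩ := p5 hj
    exact fin (by linarith only [q1]) (by linarith only [q2]) (by linarith only [hT, q2]) (fun h0 => by linarith only [hT, h0])
  · rw [hj] at hT
    simp only [hbox] at hT
    obtain ⟨q1, q2, q3⟩ := p6 hj
    exact fin (by linarith only [q1]) (by linarith only [q2]) (by linarith only [hT, q2]) (fun h0 => by linarith only [hT, h0])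

/-- **a hinge of a digit `2` inside** -/
theorem MM.up_two (hb : ClassW b) (L : LocA b zs) (hR : ∀ i ∈ R, Sum.inl i ∈ nb)
    (hM : MM b zs R nb z p) (A : Adj h i s j) (hc : clsW b i = .two)
    (hnR : (Sum.inl h : DD (tyW b)) ∉ R) :
    0 ≤ (Ow b z i s).re ∧ (Ow b z i s).re ≤ 80 / 100 ∧
      (Ow b z i s).im ≤ 16 / 10 * (Ow b z i s).re ∧ (Ow b z i s).im ≤ 16 / 100 := by
  have hi : clsW b i ≠ .ring := by rw [hc]; decide
  have hP := hM.pstA hb hR A hi hnR
  have hT := Th_mem hb L.L A hi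
  rw [hc] at hT
  obtain ⟨p1, p2⟩ := A.par_two hc
  have hd := (Hdn_pos b h s j).le
  have hu := Hup_le (b := b) A (Or.inr hc) (fun h0 => by rw [hc] at h0; exact absurd h0 (by decide))
  have hT' : Th b zs h i ≤ 16 / 100 := by
    rcases hj : clsW b j <;> rw [hj] at hT <;> simp only [hbox] at hT <;> linarith only [hT]
  obtain ⟨b1, b2, b3⟩ := hP.up_le (c := 16 / 10) (by linarith only [p2]) hd (by norm_num) (by linarith only [p2, hT'])
    (fun _ => by rw [hu]; linarith only [p2])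
  have b4 := hP.im_le (c := 16 / 100) hd (by norm_num) hT' (fun _ => by rw [hu])
  exact ⟨b1, b2.trans p1, b3, b4⟩

theorem Adj.exists_rev (A : Adj h i s j) (he : isEnd i = false) : ∃ h' j', Adj h' i s.rev j' := by
  have h0 : i ≠ 0 ∧ i ≠ Fin.last M := by
    unfold isEnd at he
    simpa using he
  cases A with
  | l =>
    obtain ⟨k, hk⟩ := Fin.eq_succ_of_ne_zero h0.1
    have e : (2 : Fin 3).rev = 0 := by decide
    rw [e, hk]
    exact ⟨k, _, .r⟩
  | r =>
    obtain ⟨k, hk⟩ := Fin.eq_castSucc_of_ne_last h0.2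
    have e : (0 : Fin 3).rev = 2 := by decide
    rw [e, ← hk]
    exact ⟨k, _, .l⟩

end SR

end Pool.Agent.Work.MP_b30479_gtS.G2

end

section

/-!
# Modes at rings: the side of the digit in a word
-/

namespace Pool.Agent.Work.MP_b30479_gtS.G2

open Finset VOL Filter Topology NumUs

namespace ZD

theorem kD_eq (k τ Yk x1 Y : ℝ) : gD1 k (-τ) x1 (-Y) - gD1 k Yk x1 (-Y) =
    kD k τ Yk x1 Y - Real.pi * Yk := by
  unfold gD1 kD
  rw [show -τ + -Y = -(Y + τ) by ring, show Yk + -Y = -(Y - Yk) by ring, uu_even, uu_even, uu_even,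
    add_comm k x1]
  ring

theorem kP1_eq (k τ Yk m1 m2 : ℝ) : gD1 k τ m1 m2 - gD1 k (-Yk) m1 m2 =
    kP1 k τ Yk m1 m2 - Real.pi * Yk := by
  unfold gD1 kP1
  rw [show τ + m2 = m2 + τ by ring, show -Yk + m2 = m2 - Yk by ring, uu_even k Yk]
  ring

theorem kP2_eq (k τ Yk m1 m2 : ℝ) : gD2 k τ m1 m2 - gD2 k (-Yk) m1 m2 =
    kP2 k τ Yk m1 m2 - Real.pi * Yk := by
  unfold gD2 kP2
  rw [show τ + m2 = m2 + τ by ring, show -Yk + m2 = m2 - Yk by ring, uu_even k Yk]
  ring

theorem kPe_eq (k τ Yk : ℝ) : gD0 k τ - gD0 k (-Yk) = kPe k τ Yk - Real.pi * Yk := by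
  unfold gD0 kPe
  rw [uu_even k Yk]
  ring

end ZD

namespace SR

variable {M : ℕ} {b : Fin (M + 1) → ℤ} {zs : DD (tyW b) ⊕ ZZ (tyW b) → ℂ}
variable {R : Finset (DD (tyW b))} {nb : Finset (DD (tyW b) ⊕ ZZ (tyW b))}
variable {z : DD (tyW b) ⊕ ZZ (tyW b) → ℂ} {p : DD (tyW b) → ℝ}
variable {h h' : Fin M} {i j j' : Fin (M + 1)} {s : Fin 3} {x c : ℝ}

theorem pen_nn (hM : MM b zs R nb z p) (h0 : p (.inl h) ≠ 0) : Sum.inl (Sum.inl h) ∉ nb := by
  intro hn
  by_cases hr : (Sum.inl h : DD (tyW b)) ∈ R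
  · exact h0 (hM.adm.tail _ hr).2.2.2
  · exact h0 (hM.adm.reD _ hr hn).2.2.2

/-- slot of an untouched region: any hinge is not in the tail -/
theorem NbT.nR (hN : NbT b R nb) (A : Adj h i s j) (hn : Sum.inl (Sum.inl h) ∉ nb) {s' : Fin 3}
    (A' : Adj h' i s' j') : (Sum.inl h' : DD (tyW b)) ∉ R :=
  fun hR => hN.not_tch A hn ⟨_, hR, s', A'.cf_ne⟩

/-- bounds for the hinge in a slot of a digit `1` (or no hinge) -/
theorem MM.slot_one (hb : ClassW b) (L : LocA b zs) (hN : NbT b R nb) (hM : MM b zs R nb z p)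
    (A : Adj h i s j) (hn : Sum.inl (Sum.inl h) ∉ nb) (hc : clsW b i = .one) :
    0 ≤ (Ow b z i s.rev).re ∧ (Ow b z i s.rev).re ≤ 86 / 100 ∧
      (Ow b z i s.rev).im ≤ 125 / 100 * (Ow b z i s.rev).re := by
  rcases slot_cases b i (p := s.rev) (by cases A <;> decide) with ⟨h0, -⟩ | ⟨h', j', A'⟩
  · rw [h0]
    simp
    norm_num
  · exact hM.up_one hb L hN.ok.1 A' hc (hN.nR A hn A')

theorem MM.slot_two (hb : ClassW b) (L : LocA b zs) (hN : NbT b R nb) (hM : MM b zs R nb z p)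
    (A : Adj h i s j) (hn : Sum.inl (Sum.inl h) ∉ nb) (hc : clsW b i = .two) :
    0 ≤ (Ow b z i s.rev).re ∧ (Ow b z i s.rev).re ≤ 80 / 100 ∧
      (Ow b z i s.rev).im ≤ 16 / 10 * (Ow b z i s.rev).re ∧ (Ow b z i s.rev).im ≤ 16 / 100 := by
  rcases slot_cases b i (p := s.rev) (by cases A <;> decide) with ⟨h0, -⟩ | ⟨h', j', A'⟩
  · rw [h0]
    simp
    norm_num
  · exact hM.up_two hb L hN.ok.1 A' hc (hN.nR A hn A')

/-- **The other hinge of a digit `1` is on its upper path only for `k ≥ 1/4`.** -/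
theorem one_up_ge (K : ZD.RowsK) (hb : ClassW b) (L : LocA b zs) (hN : NbT b R nb)
    (hM : MM b zs R nb z p) (A : Adj h i s j) (hi : clsW b i = .one) (hj : clsW b j = .ring)
    (A' : Adj h' i s.rev j') {x1 Y y : ℝ} (hX : Ow b z i s = ⟨x1, -Y⟩) (hY : 0 ≤ Y) (x10 : 0 ≤ x1)
    (x11 : x1 ≤ 65 / 100) (hT : Th b zs h' i ≤ 0) (y0 : 0 ≤ y) (y1 : y ≤ wXM b h')
    (ht : 0 < trh b h' y) (hK : Ow b z i s.rev = ⟨y, 16 / 100 * trh b h' y⟩)
    (hp : p (.inl h') = 16 / 100 * trh b h' y) : 1 / 4 ≤ y := by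
  by_contra hc
  have hc : y < 1 / 4 := not_le.1 hc
  have hir : clsW b i ≠ .ring := by rw [hi]; decide
  have hn' : Sum.inl (Sum.inl h') ∉ nb := pen_nn hM (by rw [hp]; positivity)
  have ht1 : trh b h' y ≤ 1 := (trh_mem (b := b) h' y).2
  have hy : 0 < y := by
    by_contra h0
    have : trh b h' y = 0 := trh_zero_of (Or.inl (not_lt.1 h0))
    linarith only [ht, this]
  have hsm := okp_of hb A A' hi
  have hP : clsW b j' = .one ∨ clsW b j' = .two ∨ clsW b j' = .twoE := by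
    rcases hsm with h0 | h0
    · rw [hj] at h0
      rcases h0 with h0 | h0 | h0 <;> exact absurd h0 (by decide)
    · exact h0
  have mv := hM.one_move hb hN.ok.1 A' hn' y0 y1
  have hTo := Th_opp (zs := zs) hb A' hir
  have hKo := Ow_opp (z := z) hb A' hir
  rw [hK] at hKo
  rw [dv_one hb A' hi, Fin.rev_rev, hK, hX] at mv
  obtain ⟨τ, hτ⟩ : ∃ τ, τ = -(Th b zs h' i * trh b h' y) := ⟨_, rfl⟩
  obtain ⟨Yk, hYk⟩ : ∃ Yk, Yk = 16 / 100 * trh b h' y := ⟨_, rfl⟩
  have τ0 : 0 ≤ τ := by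
    rw [hτ]
    have := mul_nonneg (neg_nonneg.2 hT) ht.le
    linarith only [this]
  have Yk0 : 0 < Yk := by rw [hYk]; positivity
  have Yk1 : Yk ≤ 16 / 100 := by rw [hYk]; linarith only [ht1]
  have e1 : tgo b zs h' i y = ⟨y, -τ⟩ := by
    unfold tgo
    rw [hτ, neg_neg]
  have e2 : tgo b zs h' j' y = ⟨y, τ⟩ := by
    unfold tgo
    rw [hTo, hτ, neg_mul]
  rw [← hYk] at hp hKo mv
  rw [e1, e2, hp] at mv
  simp only at mv hKo
  rw [ZD.kD_eq] at mv
  obtain ⟨p1, p2, p3, -, -, -⟩ := A'.par_one hi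
  have hTm := Th_mem hb L.L A' hir
  rw [hi] at hTm
  have yk : ∀ cl : ℝ, 0 < cl → wcl b h' = cl → 16 / 100 ≤ 115 / 100 * cl → Yk ≤ 115 / 100 * y := by
    intro cl h0 h1 h2
    have a1 : trh b h' y ≤ y / cl := by
      have := tr_le_cl (b' := wXM b h') (c' := wcr b h') (wcl_pos (b := b) h') y0
      unfold trh
      rw [h1] at this ⊢
      exact this
    have a2 : 16 / 100 * (y / cl) ≤ 115 / 100 * y := by
      rw [mul_div_assoc', div_le_iff₀ h0]
      nlinarith only [y0, h2]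
    rw [hYk]
    linarith only [a1, a2]
  have tk : -(118 / 1000) ≤ Th b zs h' i → τ ≤ 74 / 100 * Yk := by
    intro h0
    rw [hτ, hYk]
    have := mul_le_mul_of_nonneg_right h0 ht.le
    linarith only [hYk, Yk0, this]
  have As : Adj h' j' s i := by
    have := A'.symm
    rwa [Fin.rev_rev] at this
  rw [Fin.rev_rev] at hKo
  rcases hP with hP | hP | hP
  · rw [hP] at hTm
    simp only [hbox] at hTm
    obtain ⟨m0, m1, m2⟩ := hM.slot_one hb L hN As hn' hP
    rw [dv_one hb As hP, hKo] at mv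
    simp only at mv
    have q := K.k1 y τ Yk x1 Y (Ow b z j' s.rev).re
      (Ow b z j' s.rev).im hy hc.le Yk0 Yk1
      (yk _ (by norm_num) (p1 hP).2.1 (by norm_num)) τ0 (tk (by linarith only [hTm])) x10 x11 hY m0 m1 m2
    rw [ZD.kP1_eq] at mv
    linarith only [mv, q]
  · rw [hP] at hTm
    simp only [hbox] at hTm
    obtain ⟨m0, m1, m2, m3⟩ := hM.slot_two hb L hN As hn' hP
    rw [dv_two hb As (Or.inl hP), hKo] at mv
    simp only at mv
    have q := K.k2 y τ Yk x1 Y (Ow b z j' s.rev).re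
      (Ow b z j' s.rev).im hy hc.le Yk0 Yk1
      (yk _ (by norm_num) (p2 hP).2.1 (by norm_num)) τ0 (tk (by linarith only [hTm])) x10 x11 hY m0 m1
      (by linarith only [m0, m2])
    rw [ZD.kP2_eq] at mv
    linarith only [mv, q]
  · rw [hP] at hTm
    simp only [hbox] at hTm
    rw [dv_twoE hb As hP, hKo] at mv
    simp only at mv
    have q := K.ke y τ Yk x1 Y hy hc.le Yk0 Yk1
      (yk _ (by norm_num) (p3 hP).2.1 (by norm_num)) τ0 (tk (by linarith only [hTm])) x10 x11 hY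
    rw [ZD.kPe_eq] at mv
    linarith only [mv, q]

/-! ### the side of the digit -/

/-- the side of the digit: there is a good target -/
def DOk (b : Fin (M + 1) → ℤ) (zs : DD (tyW b) ⊕ ZZ (tyW b) → ℂ)
    (z : DD (tyW b) ⊕ ZZ (tyW b) → ℂ) (p : DD (tyW b) → ℝ) (h : Fin M) (i : Fin (M + 1))
    (s : Fin 3) (j : Fin (M + 1)) (σ η : ℝ) : Prop :=
  ∃ c θ : ℝ, 0 ≤ c ∧ c ≤ wXM b h ∧ ZD.Tgt θ c (Th b zs h i * trh b h c) ∧
    0 < (OV b i (Function.update (Ow b z i) s (tgo b zs h i c)) - OV b i (Ow b z i)) +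
      (ZD.gR θ c (Th b zs h i * trh b h c) + ZD.bR σ η - fR (Ow b z j s.rev) ⟨σ, η⟩) +
      2 * Real.pi * p (.inl h)

/-- far path -/
theorem dok_far (hb : ClassW b) (hN : NbT b R nb) (hM : MM b zs R nb z p) (A : Adj h i s j)
    (hi : clsW b i ≠ .ring) (hj : clsW b j = .ring) (hn : Sum.inl (Sum.inl h) ∉ nb)
    {σ η θ x : ℝ} (hζ : Ow b z j 1 = ⟨σ, η⟩) (x0 : 0 ≤ x) (x1 : x ≤ wXM b h)
    (hX : Ow b z i s = ⟨x, -(10000 * trh b h x)⟩) (hp : p (.inl h) = 10000 * trh b h x)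
    {g : ℝ → ℝ → ℝ} {dA : ℝ}
    (hg : ∀ u, OV b i (Function.update (Ow b z i) s u) - OV b i (Ow b z i) =
      g u.re u.im - g (Ow b z i s).re (Ow b z i s).im)
    (hdA : dA = g x (-(10000 * trh b h x)) - Real.pi * (10000 * trh b h x))
    (h0 : 0 ≤ c) (h1 : c ≤ wXM b h) (hT : ZD.Tgt θ c (Th b zs h i * trh b h c))
    (hrow : g x (Th b zs h i * trh b h x) + fR ⟨x, -(Th b zs h i * trh b h x)⟩ ⟨σ, η⟩ ≤
      dA + ZD.fA x (10000 * trh b h x) σ η → dA + ZD.fA x (10000 * trh b h x) σ η <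
      ZD.bR σ η + (g c (Th b zs h i * trh b h c) + ZD.gR θ c (Th b zs h i * trh b h c))) :
    DOk b zs z p h i s j σ η := by
  have mv := hM.one_move hb hN.ok.1 A hn x0 x1
  have hTo := Th_opp (zs := zs) hb A hi
  have hXo := Ow_opp (z := z) hb A hi
  rw [hX] at hXo
  simp only [neg_neg] at hXo
  rw [hg, dv_ring hb A.symm hj, hζ, hX, hXo, hp] at mv
  have e1 : tgo b zs h j x = ⟨x, -(Th b zs h i * trh b h x)⟩ := by
    unfold tgo
    rw [hTo, neg_mul]
  have e2 : tgo b zs h i x = ⟨x, Th b zs h i * trh b h x⟩ := rfl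
  rw [e1, e2] at mv
  simp only at mv
  have q := hrow (by
    rw [hdA]
    unfold ZD.fA
    linarith only [mv])
  refine ⟨c, θ, h0, h1, hT, ?_⟩
  rw [hg, hX, hXo, hp]
  have e3 : tgo b zs h i c = ⟨c, Th b zs h i * trh b h c⟩ := rfl
  rw [e3]
  simp only
  rw [hdA] at q
  unfold ZD.fA at q
  linarith only [q]

/-- near path -/
theorem dok_near (hb : ClassW b) (hN : NbT b R nb) (hM : MM b zs R nb z p) (A : Adj h i s j)
    (hi : clsW b i ≠ .ring) (hj : clsW b j = .ring) (hn : Sum.inl (Sum.inl h) ∉ nb)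
    {σ η θ x : ℝ} (hζ : Ow b z j 1 = ⟨σ, η⟩) (x0 : 0 ≤ x) (x1 : x ≤ wXM b h)
    (hX : Ow b z i s = ⟨x, 16 / 100 * trh b h x⟩) (hp : p (.inl h) = 16 / 100 * trh b h x)
    {g : ℝ → ℝ → ℝ}
    (hg : ∀ u, OV b i (Function.update (Ow b z i) s u) - OV b i (Ow b z i) =
      g u.re u.im - g (Ow b z i s).re (Ow b z i s).im)
    (h0 : 0 ≤ c) (h1 : c ≤ wXM b h) (hT : ZD.Tgt θ c (Th b zs h i * trh b h c))
    (hrow : (g x (Th b zs h i * trh b h x) - g x (16 / 100 * trh b h x) +
        Real.pi * (16 / 100 * trh b h x)) +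
      (fR ⟨x, -(Th b zs h i * trh b h x)⟩ ⟨σ, η⟩ - fR ⟨x, -(16 / 100 * trh b h x)⟩ ⟨σ, η⟩ +
        Real.pi * (16 / 100 * trh b h x)) ≤ 0 →
      0 < (g c (Th b zs h i * trh b h c) - g x (16 / 100 * trh b h x) +
        Real.pi * (16 / 100 * trh b h x)) +
      (ZD.gR θ c (Th b zs h i * trh b h c) + ZD.bR σ η - fR ⟨x, -(16 / 100 * trh b h x)⟩ ⟨σ, η⟩ +
        Real.pi * (16 / 100 * trh b h x))) :
    DOk b zs z p h i s j σ η := by
  have mv := hM.one_move hb hN.ok.1 A hn x0 x1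
  have hTo := Th_opp (zs := zs) hb A hi
  have hXo := Ow_opp (z := z) hb A hi
  rw [hX] at hXo
  simp only at hXo
  rw [hg, dv_ring hb A.symm hj, hζ, hX, hXo, hp] at mv
  have e1 : tgo b zs h j x = ⟨x, -(Th b zs h i * trh b h x)⟩ := by
    unfold tgo
    rw [hTo, neg_mul]
  have e2 : tgo b zs h i x = ⟨x, Th b zs h i * trh b h x⟩ := rfl
  rw [e1, e2] at mv
  simp only at mv
  have q := hrow (by linarith only [mv])
  refine ⟨c, θ, h0, h1, hT, ?_⟩
  rw [hg, hX, hXo, hp]
  have e3 : tgo b zs h i c = ⟨c, Th b zs h i * trh b h c⟩ := rfl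
  rw [e3]
  simp only
  linarith only [q]

end SR

end Pool.Agent.Work.MP_b30479_gtS.G2

end

section

/-!
# Modes at rings: the side of the digit, all classes
-/

namespace Pool.Agent.Work.MP_b30479_gtS.G2

open Finset VOL Filter Topology NumUs

namespace SR

variable {M : ℕ} {b : Fin (M + 1) → ℤ} {zs : DD (tyW b) ⊕ ZZ (tyW b) → ℂ}
variable {R : Finset (DD (tyW b))} {nb : Finset (DD (tyW b) ⊕ ZZ (tyW b))}
variable {z : DD (tyW b) ⊕ ZZ (tyW b) → ℂ} {p : DD (tyW b) → ℝ}
variable {h h' : Fin M} {i j j' : Fin (M + 1)} {s : Fin 3} {x c : ℝ}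

/-- the row `c2r` -/
def ZC2r : Prop := ∀ T k1 : ℝ, 63 / 1000 ≤ T → T ≤ 145 / 1000 → 0 ≤ k1 → k1 ≤ 80 / 100 →
    ZD.Goal1 (1 / 10) (2 / 10) T k1 0

theorem Hdn_le (A : Adj h i s j) (hc : clsW b i = .one)
    (h3 : clsW b j ≠ .three) (hj : clsW b j ≠ .ring) : Hdn b h s j = 16 / 100 := by
  unfold Hdn
  rw [if_neg hj]
  unfold mhs
  cases A with
  | l =>
    rw [if_neg (fun h0 => h3 h0.2), if_neg (fun h0 => by rw [hc] at h0; exact absurd h0.1 (by decide))]
  | r =>
    rw [if_neg (fun h0 => by rw [hc] at h0; exact absurd h0.2 (by decide)),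
      if_neg (fun h0 => by rw [hc] at h0; exact absurd h0.2.1 (by decide))]

/-- the other hinge of a digit `1` next to a ring: domain and target -/
theorem goal_one (Z : ZD.ZRows) (C2 : ZC2r) (hb : ClassW b) (L : LocA b zs) (hN : NbT b R nb)
    (hM : MM b zs R nb z p) (A : Adj h i s j) (hi : clsW b i = .one) (hj : clsW b j = .ring)
    (hn : Sum.inl (Sum.inl h) ∉ nb) {x1 Y : ℝ} (hX : Ow b z i s = ⟨x1, -Y⟩) (hY : 0 ≤ Y)
    (x10 : 0 ≤ x1) (x11 : x1 ≤ 65 / 100) :
    ZD.dom1 (Ow b z i s.rev).re (Ow b z i s.rev).im ∧ ∃ c θ : ℝ, 0 ≤ c ∧ c ≤ wXM b h ∧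
      ZD.Tgt θ c (Th b zs h i * trh b h c) ∧
      ZD.Goal1 θ c (Th b zs h i * trh b h c) (Ow b z i s.rev).re (Ow b z i s.rev).im := by
  have hir : clsW b i ≠ .ring := by rw [hi]; decide
  obtain ⟨h', j', A'⟩ := A.exists_rev (clsW_inner hb (Or.inl hi))
  have Ar : Adj h i s.rev.rev j := by rwa [Fin.rev_rev]
  have hw := L.X.win A A' hi
  have hw' := L.X.win A' Ar hi
  have hsm := okp_of hb A A' hi
  have hP : clsW b j' = .one ∨ clsW b j' = .two ∨ clsW b j' = .twoE := by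
    rcases hsm with h0 | h0
    · rw [hj] at h0
      rcases h0 with h0 | h0 | h0 <;> exact absurd h0 (by decide)
    · exact h0
  have hP3 : clsW b j' ≠ .three := by rcases hP with h0 | h0 | h0 <;> rw [h0] <;> decide
  have hPr : clsW b j' ≠ .ring := by rcases hP with h0 | h0 | h0 <;> rw [h0] <;> decide
  have hpos := hM.pstA hb hN.ok.1 A' hir (hN.nR A hn A')
  have hu := Hup_le (b := b) A' (Or.inl hi) (fun _ => hP3)
  have hd := Hdn_le (b := b) A' hi hP3 hPr
  rw [hu, hd] at hpos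
  obtain ⟨y, y0, y1, e1, e2⟩ := hpos
  obtain ⟨q1, q2, q3⟩ := (A.par_ring hir hj).1 hi
  have t2 : trh b h (2 / 10) = 1 := by
    unfold trh
    rw [q1, q2, q3]
    exact tr_flat (by norm_num) (by norm_num) (by norm_num) (by norm_num)
  have t12 : trh b h (12 / 100) = 3 / 4 := by
    unfold trh
    rw [q1, q2, q3, tr_left (by norm_num) (by norm_num) (by norm_num) (by norm_num)]
    rw [min_eq_right (by norm_num)]
    norm_num
  obtain ⟨T, hT⟩ : ∃ T, T = Th b zs h i := ⟨_, rfl⟩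
  obtain ⟨u, hu'⟩ : ∃ u, u = Th b zs h' i := ⟨_, rfl⟩
  obtain ⟨K, hK⟩ : ∃ K, K = Ow b z i s.rev := ⟨_, rfl⟩
  obtain ⟨t, ht⟩ : ∃ t, t = tr 0 (wXM b h') (wcl b h') (wcr b h') y := ⟨_, rfl⟩
  have htm := tr_mem 0 (wXM b h') (wcl b h') (wcr b h') y
  have hw2 : (cw (clsW b j') (clsW b j)).t0 ≤ T ∧ T ≤ (cw (clsW b j') (clsW b j)).t1 ∧
      (cw (clsW b j') (clsW b j)).s0 ≤ T + u ∧ T + u ≤ (cw (clsW b j') (clsW b j)).s1 := by
    rw [hT, hu']
    exact hw
  have hw3 : (cw (clsW b j) (clsW b j')).t0 ≤ u ∧ u ≤ (cw (clsW b j) (clsW b j')).t1 := by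
    rw [hu']
    exact ⟨hw'.1, hw'.2.1⟩
  rw [← hT, ← hK]
  rw [← hK] at e1
  have e2 : K.im = 0 ∧ p (.inl h') = 0 ∨ K.im = u * t ∧ p (.inl h') = 0 ∨
      (u ≤ 0 ∧ K.im = 16 / 100 * t ∧ p (.inl h') = 16 / 100 * t) ∨
      (0 ≤ u ∧ K.im = -(16 / 100 * t) ∧ p (.inl h') = 16 / 100 * t) := by
    rw [hK, hu', ht]
    exact e2
  rw [← ht] at htm
  clear hw hw'
  -- the upper path
  have up : u ≤ 0 → K.im = 16 / 100 * t → p (.inl h') = 16 / 100 * t → 0 < t → 1 / 4 ≤ y := by
    intro a1 a2 a3 a4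
    refine one_up_ge Z.K hb L hN hM A hi hj A' hX hY x10 x11 (by rw [← hu']; exact a1) y0 y1
      (by unfold trh; rw [← ht]; exact a4) ?_ (by unfold trh; rw [← ht]; exact a3)
    rw [← hK]
    apply Complex.ext
    · exact e1
    · unfold trh
      rw [← ht]
      exact a2
  have e2' : (K.im = 0) ∨ (K.im = u * t) ∨ (0 ≤ u ∧ K.im = -(16 / 100) * t) ∨
      (u ≤ 0 ∧ K.im = 16 / 100 * t ∧ 1 / 4 ≤ y) := by
    rcases e2 with ⟨a, -⟩ | ⟨a, -⟩ | ⟨a1, a2, a3⟩ | ⟨a1, a2, -⟩
    · exact Or.inl a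
    · exact Or.inr (Or.inl a)
    · rcases htm.1.eq_or_lt with h0 | h0
      · left
        rw [a2, ← h0, mul_zero]
      · exact Or.inr (Or.inr (Or.inr ⟨a1, a2, up a1 a2 a3 h0⟩))
    · right; right; left
      exact ⟨a1, by rw [a2]; ring⟩
  clear e2 up
  rw [e1]
  obtain ⟨p1, p2, p3, -, -, -⟩ := A'.par_one hi
  rw [hj] at hw2 hw3
  rcases hP with hP | hP | hP
  · -- `1`
    rw [hP] at hw2 hw3
    simp only [cw] at hw2 hw3
    obtain ⟨r1, r2, r3⟩ := p1 hP
    have y86 : y ≤ 86 / 100 := by rcases r1 with r1 | r1 <;> linarith only [y1, r1]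
    have hcl : t ≤ y / (15 / 100) := by
      rw [ht, r2]
      exact tr_le_cl (by norm_num) y0
    have hcr : t ≤ (86 / 100 - y) / (20 / 100) := by
      have := tr_le_cr (b' := wXM b h') (c := wcl b h') (c' := wcr b h') (x := y)
        (by rw [r3]; norm_num) y1
      rw [← ht, r3] at this
      rcases r1 with r1 | r1 <;> rw [r1] at this <;> linarith only [this]
    have hR : ZD.Rmp (15 / 100) (60 / 100) y t := by
      refine ⟨htm.1, htm.2, fun hy => ?_⟩
      rw [ht, r2, r3]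
      rcases r1 with r1 | r1 <;> rw [r1] <;>
        exact tr_left (by norm_num) (by norm_num) y0 (by linarith only [hy])
    constructor
    · rcases e2' with a | a | ⟨a1, a⟩ | ⟨a1, a, a2⟩
      · rw [a]
        exact ⟨y0, y86, by norm_num, Or.inl ⟨by linarith only [y0], by norm_num⟩⟩
      · rw [a]
        have b1 : u * t ≤ 51 / 1000 * t := mul_le_mul_of_nonneg_right (by linarith only [hw3]) htm.1
        have b2 : -(117 / 1000) * t ≤ u * t := mul_le_mul_of_nonneg_right (by linarith only [hw3]) htm.1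
        exact ⟨y0, y86, by linarith only [htm, b2], Or.inl ⟨by linarith only [y0, hcl, b1], by linarith only [htm, b1]⟩⟩
      · rw [a]
        exact ⟨y0, y86, by linarith only [htm], Or.inl ⟨by linarith only [y0, htm], by linarith only [htm]⟩⟩
      · rw [a]
        exact ⟨y0, y86, by linarith only [htm], Or.inr ⟨a2, by linarith only [htm], by linarith only [hcr]⟩⟩
    · refine ⟨2 / 10, 1 / 10, by norm_num, by rw [q1]; norm_num, ?_, ?_⟩
      · rw [t2, mul_one]
        exact ⟨Or.inl ⟨rfl, by linarith only [hw2], by linarith only [hw2], rfl⟩⟩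
      · rw [t2, mul_one]
        rcases e2' with a | a | ⟨a1, a⟩ | ⟨a1, a, a2⟩
        · rw [a]
          have := Z.C.c1m T 0 y t (by linarith only [hw2]) (by linarith only [hw2]) (by norm_num) (by linarith only [hw2])
            (by linarith only [hw2]) y0 y86 hR
          rwa [zero_mul] at this
        · rw [a]
          exact Z.C.c1m T u y t (by linarith only [hw2]) (by linarith only [hw2]) (abs_le.mpr ⟨by linarith only [hw3], by linarith only [hw2]⟩)
            (by linarith only [hw2]) (by linarith only [hw2]) y0 y86 hR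
        · rw [a]
          exact Z.C.c1d T y t (by linarith only [hw2]) (by linarith only [hw2]) y0 y86 hR
        · rw [a]
          exact Z.C.c1u T y t (by linarith only [hw2]) (by linarith only [hw2]) a2 y86 hR
  · -- `2`
    rw [hP] at hw2 hw3
    simp only [cw] at hw2 hw3
    obtain ⟨r1, r2, r3⟩ := p2 hP
    rw [r1] at y1
    have hcl : t ≤ y / (16 / 100) := by
      rw [ht, r2]
      exact tr_le_cl (by norm_num) y0
    have hcr : t ≤ (80 / 100 - y) / (29 / 100) := by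
      rw [ht, r1, r3]
      exact tr_le_cr (by norm_num) y1
    have hR : ZD.Rmp (16 / 100) (50 / 100) y t := by
      refine ⟨htm.1, htm.2, fun hy => ?_⟩
      rw [ht, r1, r2, r3]
      exact tr_left (by norm_num) (by norm_num) y0 (by linarith only [hy])
    constructor
    · rcases e2' with a | a | ⟨a1, a⟩ | ⟨a1, a, a2⟩
      · rw [a]
        exact ⟨y0, by linarith only [y1], by norm_num, Or.inl ⟨by linarith only [y0], by norm_num⟩⟩
      · rw [a]
        have b1 : u * t ≤ 80 / 1000 * t := mul_le_mul_of_nonneg_right (by linarith only [hw3]) htm.1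
        have b2 : -(18 / 1000) * t ≤ u * t := mul_le_mul_of_nonneg_right (by linarith only [hw3]) htm.1
        exact ⟨y0, by linarith only [y1], by linarith only [htm, b2], Or.inl ⟨by linarith only [y0, hcl, b1], by linarith only [htm, b1]⟩⟩
      · rw [a]
        exact ⟨y0, by linarith only [y1], by linarith only [htm], Or.inl ⟨by linarith only [y0, htm], by linarith only [htm]⟩⟩
      · rw [a]
        exact ⟨y0, by linarith only [y1], by linarith only [htm], Or.inr ⟨a2, by linarith only [htm], by linarith only [y1, hcr]⟩⟩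
    · refine ⟨2 / 10, 1 / 10, by norm_num, by rw [q1]; norm_num, ?_, ?_⟩
      · rw [t2, mul_one]
        exact ⟨Or.inl ⟨rfl, by linarith only [hw2], by linarith only [hw2], rfl⟩⟩
      · rw [t2, mul_one]
        rcases e2' with a | a | ⟨a1, a⟩ | ⟨a1, a, a2⟩
        · rw [a]
          exact C2 T y (by linarith only [hw2]) (by linarith only [hw2]) y0 y1
        · rw [a]
          exact Z.C.c2m T u y t (by linarith only [hw2]) (by linarith only [hw2]) (by linarith only [hw3]) (by linarith only [hw3])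
            (by linarith only [hw2]) (by linarith only [hw2]) y0 y1 hR
        · rw [a]
          exact Z.C.c2d T y t (by linarith only [hw2]) (by linarith only [hw2]) y0 y1 hR
        · rw [a]
          exact Z.C.c2u T y t (by linarith only [hw2, a1]) (by linarith only [hw2]) a2 y1 hR
  · -- `2` at an end
    rw [hP] at hw2 hw3
    simp only [cw] at hw2 hw3
    obtain ⟨r1, r2, r3⟩ := p3 hP
    rw [r1] at y1
    have hcl : t ≤ y / (14 / 100) := by
      rw [ht, r2]
      exact tr_le_cl (by norm_num) y0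
    have hcr : t ≤ (70 / 100 - y) / (35 / 100) := by
      rw [ht, r1, r3]
      exact tr_le_cr (by norm_num) y1
    have hR : ZD.Rmp (14 / 100) (35 / 100) y t := by
      refine ⟨htm.1, htm.2, fun hy => ?_⟩
      rw [ht, r1, r2, r3]
      exact tr_left (by norm_num) (by norm_num) y0 (by linarith only [hy])
    constructor
    · rcases e2' with a | a | ⟨a1, a⟩ | ⟨a1, a, a2⟩
      · rw [a]
        exact ⟨y0, by linarith only [y1], by norm_num, Or.inl ⟨by linarith only [y0], by norm_num⟩⟩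
      · rw [a]
        have b1 : u * t ≤ 0 * t := mul_le_mul_of_nonneg_right (by linarith only [hw2, hw3]) htm.1
        have b2 : -(61 / 1000) * t ≤ u * t := mul_le_mul_of_nonneg_right (by linarith only [hw3]) htm.1
        exact ⟨y0, by linarith only [y1], by linarith only [htm, b2], Or.inl ⟨by linarith only [y0, b1], by linarith only [b1]⟩⟩
      · rw [a]
        exact ⟨y0, by linarith only [hw3, a1], by linarith only [hw3, a1], Or.inl ⟨by linarith only [hw3, a1], by linarith only [hw3, a1]⟩⟩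
      · rw [a]
        exact ⟨y0, by linarith only [y1], by linarith only [htm], Or.inr ⟨a2, by linarith only [htm], by linarith only [y1, hcr]⟩⟩
    · rcases le_total y (5 / 100) with hy | hy
      · have ht' : t = y / (14 / 100) := by
          rw [hR.2.2 (by linarith only [hy])]
          apply min_eq_right
          rw [div_le_one (by norm_num)]
          linarith only [hy]
        refine ⟨12 / 100, 108 / 1000, by norm_num, by rw [q1]; norm_num, ?_, ?_⟩
        · rw [t12]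
          exact ⟨Or.inr (Or.inr (Or.inl ⟨rfl, by linarith only [hw2], by linarith only [hw2], rfl⟩))⟩
        · rw [t12, mul_comm]
          rcases e2' with a | a | ⟨a1, a⟩ | ⟨a1, a, a2⟩
          · rw [a]
            have := Z.C.cem0 T 0 y (by linarith only [hw2]) (by linarith only [hw2]) (by norm_num) (by norm_num) y0 hy
            rwa [zero_mul] at this
          · rw [a, ht']
            exact Z.C.cem0 T u y (by linarith only [hw2]) (by linarith only [hw2]) (by linarith only [hw3]) (by linarith only [hw3]) y0 hy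
          · rw [a, ht']
            exact Z.C.ced0 T y (by linarith only [hw3, a1]) (by linarith only [hw3, a1]) y0 hy
          · linarith only [hy, a2]
      · refine ⟨2 / 10, 108 / 1000, by norm_num, by rw [q1]; norm_num, ?_, ?_⟩
        · rw [t2, mul_one]
          exact ⟨Or.inr (Or.inl ⟨rfl, by linarith only [hw2], by linarith only [hw2], rfl⟩)⟩
        · rw [t2, mul_one]
          rcases e2' with a | a | ⟨a1, a⟩ | ⟨a1, a, a2⟩
          · rw [a]
            have := Z.C.cem T 0 y t (by linarith only [hw2]) (by linarith only [hw2]) (by norm_num) (by norm_num) hy y1 hR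
            rwa [zero_mul] at this
          · rw [a]
            exact Z.C.cem T u y t (by linarith only [hw2]) (by linarith only [hw2]) (by linarith only [hw3]) (by linarith only [hw3]) hy y1 hR
          · rw [a]
            exact Z.C.ced T y t (by linarith only [hw3, a1]) (by linarith only [hw3, a1]) hy y1 hR
          · rw [a]
            exact Z.C.ceu T y t (by linarith only [hw2]) (by linarith only [hw2]) a2 y1 hR

end SR

end Pool.Agent.Work.MP_b30479_gtS.G2

end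

section

/-!
# Modes at rings: the side of the digit, final form
-/

namespace Pool.Agent.Work.MP_b30479_gtS.G2

open Finset VOL Filter Topology NumUs

namespace SR

variable {M : ℕ} {b : Fin (M + 1) → ℤ} {zs : DD (tyW b) ⊕ ZZ (tyW b) → ℂ}
variable {R : Finset (DD (tyW b))} {nb : Finset (DD (tyW b) ⊕ ZZ (tyW b))}
variable {z : DD (tyW b) ⊕ ZZ (tyW b) → ℂ} {p : DD (tyW b) → ℝ}
variable {h h' : Fin M} {i j j' : Fin (M + 1)} {s : Fin 3} {x c : ℝ}

theorem farIn_of (hb : ClassW b) (L : LocA b zs) (A : Adj h i s j) (hi : clsW b i ≠ .ring)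
    (hj : clsW b j = .ring) {σ η : ℝ} (hσ : |σ| ≤ 1 / 2) (η0 : 0 ≤ η)
    (η1 : η ≤ 1045 / 10000 * LT.th σ) (x0 : 0 ≤ x) (x1 : x ≤ wXM b h) (ht : 0 < trh b h x) :
    ZD.FarIn (wXM b h) x (10000 * trh b h x) (trh b h x) (wcl b h) (wcr b h) (Th b zs h i) σ η := by
  obtain ⟨p1, p2, -, -, p5, p6, -⟩ := A.par_ring hi hj
  obtain ⟨t1, t2, -⟩ := Th_ring (zs := zs) hb L A hi hj
  have hX : wXM b h ≤ 65 / 100 := by
    by_cases hc : clsW b i = .one
    · rw [(p1 hc).1]
    · rw [p2 hc]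
      norm_num
  exact ⟨by linarith only [p5, p5.1], p5.2, by linarith only [p6, p6.1], p6.2, rfl, ht, rfl, x0, x1, by linarith only [hX], hσ,
    η0, η1, t1, t2⟩

theorem trh_two (A : Adj h i s j) (hi : clsW b i ≠ .ring) (hj : clsW b j = .ring) :
    trh b h (2 / 10) = 1 := by
  obtain ⟨p1, p2, -, -, p5, p6, -⟩ := A.par_ring hi hj
  unfold trh
  apply tr_flat (by linarith only [p5, p5.1]) (by linarith only [p6, p6.1]) (by linarith only [p5, p5.2])
  by_cases hc : clsW b i = .one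
  · rw [(p1 hc).1, (p1 hc).2.2]
    norm_num
  · rw [p2 hc]
    linarith only [p6, p6.2]

theorem wXM_two (A : Adj h i s j) (hi : clsW b i ≠ .ring) (hj : clsW b j = .ring) :
    (2 : ℝ) / 10 ≤ wXM b h := by
  obtain ⟨p1, p2, -⟩ := A.par_ring hi hj
  by_cases hc : clsW b i = .one
  · rw [(p1 hc).1]
    norm_num
  · rw [p2 hc]
    norm_num

/-! ### the inner variable -/

/-- bounds for the inner variable of a region with three crossings -/
theorem MM.inner_bd (hb : ClassW b) (L : LocA b zs) (hN : NbT b R nb) (hM : MM b zs R nb z p)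
    (A : Adj h i s j) (hn : Sum.inl (Sum.inl h) ∉ nb) (hc : clsW b i = .three ∨ clsW b i = .threeE) :
    0 ≤ (Ow b z i 1).re ∧ (Ow b z i 1).re ≤ 80 / 100 ∧ |(Ow b z i 1).im| ≤ 16 / 100 ∧
      |(Ow b z i 1).im| ≤ 32 / 10 * (Ow b z i 1).re ∧
      |(Ow b z i 1).im| ≤ 32 / 10 * (80 / 100 - (Ow b z i 1).re) := by
  have hm := tyW_isMid hc
  have hP := hM.innerv hN.ok ⟨i, hm⟩ A hn
  have hT : |ofs (b i) (zs (.inl (.inr ⟨i, hm⟩))).im| ≤ 16 / 100 := by
    rcases hc with hc | hc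
    · have he := clsW_inner hb (Or.inr (Or.inr hc))
      have h0 : i ≠ 0 := by
        unfold isEnd at he
        have := of_decide_eq_false he
        rw [not_or] at this
        exact this.1
      obtain ⟨k, hk⟩ := Fin.eq_succ_of_ne_zero h0
      have h1 := L.L.mid ⟨i, hm⟩ he k hk.symm
      obtain ⟨-, -, h2, h3⟩ := h1
      rw [ofr_im] at h2 h3
      simp only [mbox] at h2 h3
      exact abs_le.mpr ⟨by linarith only [hm, h2], by linarith only [hm, h3]⟩
    · have he := clsW_end (Or.inr hc)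
      have h1 := L.L.midE ⟨i, hm⟩ he
      obtain ⟨-, -, h2, h3⟩ := h1
      rw [ofr_im] at h2 h3
      simp only [mboxE] at h2 h3
      exact abs_le.mpr ⟨by linarith only [hm, h2], by linarith only [hm, h3]⟩
  obtain ⟨y, y0, y1, e1, e2⟩ := hP
  have ht := tr_mem 0 (mp (clsW b i)).XM (mp (clsW b i)).cl (mp (clsW b i)).cr y
  obtain ⟨t, htt⟩ : ∃ t, t = tr 0 (mp (clsW b i)).XM (mp (clsW b i)).cl (mp (clsW b i)).cr y :=
    ⟨_, rfl⟩
  have hX : (mp (clsW b i)).XM ≤ 80 / 100 ∧ t ≤ 20 * y ∧ t ≤ 20 * (80 / 100 - y) := by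
    rcases hc with hc | hc
    · rw [hc] at htt y1 ⊢
      simp only [mp] at htt y1 ⊢
      refine ⟨by norm_num, ?_, ?_⟩
      · rw [htt]
        have := tr_le_cl (b' := 8 / 10) (c' := 5 / 100) (c := 5 / 100) (by norm_num) y0
        linarith only [this]
      · rw [htt]
        have := tr_le_cr (b' := 8 / 10) (c' := 5 / 100) (c := 5 / 100) (x := y) (by norm_num)
          (by linarith only [y1])
        linarith only [this]
    · rw [hc] at htt y1 ⊢
      simp only [mp] at htt y1 ⊢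
      refine ⟨by norm_num, ?_, ?_⟩
      · rw [htt]
        have := tr_le_cl (b' := 77 / 100) (c' := 2 / 10) (c := 1 / 10) (by norm_num) y0
        linarith only [y0, this]
      · rw [htt]
        have := tr_le_cr (b' := 77 / 100) (c' := 2 / 10) (c := 1 / 10) (x := y) (by norm_num)
          (by linarith only [y1])
        linarith only [y1, this]
  have him : |(Ow b z i 1).im| ≤ 16 / 100 * t := by
    have h16 : |(16 / 100 * t : ℝ)| = 16 / 100 * t := by
      rw [abs_of_nonneg]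
      rw [htt]
      have := ht.1
      positivity
    have ht0 : 0 ≤ t := by
      rw [htt]
      exact ht.1
    rcases e2 with ⟨a, -⟩ | ⟨a, -⟩ | ⟨-, a, -⟩ | ⟨-, a, -⟩
    · rw [a, abs_zero]
      positivity
    · rw [a, ← htt, abs_mul, abs_of_nonneg ht0]
      exact mul_le_mul_of_nonneg_right hT ht0
    · rw [a, ← htt, h16]
    · rw [a, ← htt, abs_neg, h16]
  rw [← htt] at ht
  have e1' : (Ow b z i 1).re = y := e1
  rw [e1']
  refine ⟨y0, y1.trans hX.1, ?_, ?_, ?_⟩
  · linarith only [ht, him]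
  · linarith only [hX, him]
  · linarith only [hX, him]

/-! ### the classes -/

/-- **The side of the digit.** -/
theorem dside (Z : ZD.ZRows) (C2 : ZC2r) (N : ZD.RowsN) (hb : ClassW b) (L : LocA b zs)
    (hN : NbT b R nb) (hM : MM b zs R nb z p) (A : Adj h i s j) (hi : clsW b i ≠ .ring)
    (hj : clsW b j = .ring) (hp : p (.inl h) ≠ 0) {σ η : ℝ} (hζ : Ow b z j 1 = ⟨σ, η⟩)
    (hσ : |σ| ≤ 1 / 2) (η0 : 0 ≤ η) (η1 : η ≤ 1045 / 10000 * LT.th σ) :
    DOk b zs z p h i s j σ η := by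
  have hn := pen_nn hM hp
  have hpos := hM.pstA hb hN.ok.1 A hi (hN.nR A hn A)
  obtain ⟨x, x0, x1, e1, e2⟩ := hpos
  have hu : Hup b h s j = 16 / 100 := by
    unfold Hup
    rw [if_pos hj]
  have hd : Hdn b h s j = 10000 := by
    unfold Hdn
    rw [if_pos hj]
  rw [hu, hd] at e2
  have ht0 : 0 ≤ trh b h x := (trh_mem (b := b) h x).1
  obtain ⟨w1, w2, w3, w4, w5, w6, w7, w8⟩ := Th_ring (zs := zs) hb L A hi hj
  have t2 := trh_two A hi hj
  have X2 := wXM_two A hi hj
  obtain ⟨q1, q2, q3, q4, q5, q6, q7⟩ := A.par_ring hi hj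
  have hreg : clsW b i = .one ∨ clsW b i = .two ∨ clsW b i = .twoE ∨ clsW b i = .three ∨
      clsW b i = .threeE := by
    rcases hc : clsW b i
    · simp
    · simp
    · simp
    · simp
    · simp
    · exact absurd hc hi
  rcases e2 with ⟨-, a⟩ | ⟨-, a⟩ | ⟨aT, a, ap⟩ | ⟨aT, a, ap⟩
  · exact absurd a hp
  · exact absurd a hp
  · -- near path
    have htp : 0 < trh b h x := by
      rcases ht0.eq_or_lt with h0 | h0
      · exfalso
        apply hp
        rw [ap]
        show 16 / 100 * trh b h x = 0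
        rw [← h0, mul_zero]
      · exact h0
    have hc : clsW b i = .three := by
      rcases hreg with h0 | h0 | h0 | h0 | h0
      · linarith only [aT, w3, h0, w3 h0]
      · linarith only [aT, w4, h0, w4 h0]
      · linarith only [aT, w5, h0, w5 h0]
      · exact h0
      · linarith only [aT, w6, h0, w6 h0]
    have hc1 : clsW b i ≠ .one := by rw [hc]; decide
    have T0 : -(7 / 10000) ≤ Th b zs h i := by
      rcases L.E.three A hc hj with h0 | h0
      · unfold Th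
        linarith only [h0]
      · exact h0.lo
    have hX : Ow b z i s = ⟨x, 16 / 100 * trh b h x⟩ := Complex.ext e1 a
    obtain ⟨v0, v1, v2, v3, v4⟩ := hM.inner_bd hb L hN A hn (Or.inl hc)
    have x60 := x1
    rw [q2 hc1] at x60
    have xpos : 0 < x := by
      by_contra h0
      exact htp.ne' (trh_zero_of (Or.inl (not_lt.1 h0)))
    have xlt : x < 60 / 100 := by
      by_contra h0
      exact htp.ne' (trh_zero_of (Or.inr (by rw [q2 hc1]; exact not_lt.1 h0)))
    have hTgt : ZD.Tgt (112 / 1000) (2 / 10) (Th b zs h i * trh b h (2 / 10)) := by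
      rw [t2, mul_one]
      exact ⟨Or.inr (Or.inr (Or.inr ⟨rfl, w1, by linarith only [aT], rfl⟩))⟩
    have trN : ∀ a : ℝ, 0 < a → wcl b h = a → wcr b h = 30 / 100 → trh b h x = ZD.tN a x := by
      intro a ha h1 h2
      unfold trh ZD.tN tr
      rw [q2 hc1, h1, h2, sub_zero]
      apply max_eq_right
      refine le_min zero_le_one (le_min ?_ ?_)
      · positivity
      · apply div_nonneg (by linarith only [x60]) (by norm_num)
    rcases A.slot with hs | hs
    · subst hs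
      obtain ⟨r1, r2⟩ := q3 hc rfl
      have hNT : ZD.NT (12 / 100) x (trh b h x) (Th b zs h i) :=
        ⟨xpos, xlt, trN _ (by norm_num) r1 r2, T0, aT⟩
      have hd3 : ZD.dom3 (1 - (Ow b z i 1).re) (-(Ow b z i 1).im) := by
        refine ⟨by linarith only [v1], by linarith only [v0], ?_, ?_, ?_⟩ <;> rw [abs_neg] <;> linarith only [v2, v4, v3]
      refine dok_near hb hN hM A hi hj hn (g := fun X t => ZD.gD1 X t (1 - (Ow b z i 1).re)
        (-(Ow b z i 1).im)) (c := 2 / 10) hζ x0 x1 hX ap (dv_three0 hb hc) (by norm_num) X2 hTgt ?_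
      intro hrow
      have k := ZD.near1 N hNT hd3 hσ η0 η1 (by
        unfold ZD.nA1 ZD.nAR
        exact hrow)
      unfold ZD.nB1 ZD.nBR at k
      simp only [t2, mul_one]
      exact k
    · subst hs
      obtain ⟨r1, r2⟩ := q4 hc rfl
      have hNT : ZD.NT (13 / 100) x (trh b h x) (Th b zs h i) :=
        ⟨xpos, xlt, trN _ (by norm_num) r1 r2, T0, aT⟩
      refine dok_near hb hN hM A hi hj hn (g := fun X t => ZD.gD2 X t (Ow b z i 1).re
        (Ow b z i 1).im) (c := 2 / 10) hζ x0 x1 hX ap (dv_three2 hb hc) (by norm_num) X2 hTgt ?_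
      intro hrow
      have k := ZD.near2 N hNT v0 v2 v3 v4 hσ η0 η1 (by
        unfold ZD.nA2 ZD.nAR
        exact hrow)
      unfold ZD.nB2 ZD.nBR at k
      simp only [t2, mul_one]
      exact k
  · -- far path
    have htp : 0 < trh b h x := by
      rcases ht0.eq_or_lt with h0 | h0
      · exfalso
        apply hp
        rw [ap]
        show 10000 * trh b h x = 0
        rw [← h0, mul_zero]
      · exact h0
    have hX : Ow b z i s = ⟨x, -(10000 * trh b h x)⟩ := Complex.ext e1 a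
    have F := farIn_of (zs := zs) hb L A hi hj hσ η0 η1 x0 x1 htp
    rcases hreg with hc | hc | hc | hc | hc
    · -- `1`
      rw [(q1 hc).1] at F
      obtain ⟨hd, c, θ, c0, c1, hT, hG⟩ := goal_one Z C2 hb L hN hM A hc hj hn
        (x1 := x) (Y := 10000 * trh b h x) hX (by positivity) x0 F.x1
      refine dok_far hb hN hM A hi hj hn (g := fun X t => ZD.gD1 X t (Ow b z i s.rev).re
        (Ow b z i s.rev).im) hζ x0 x1 hX ap (dv_one hb A hc) rfl c0 c1 hT ?_
      intro hrow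
      have e := ZD.dA1_eq x (10000 * trh b h x) (Ow b z i s.rev).re (Ow b z i s.rev).im
      rw [← e] at hrow ⊢
      exact ZD.far1 Z F hd hG hrow
    · -- `2`
      have hc1 : clsW b i ≠ .one := by rw [hc]; decide
      rw [q2 hc1] at F
      obtain ⟨k0, k1, k2, k3⟩ := hM.slot_two hb L hN A hn hc
      have hd : ZD.dom2 (Ow b z i s.rev).re (Ow b z i s.rev).im :=
        ⟨k0, k1, k3, by linarith only [k0, k2]⟩
      have hG := Z.C.c2 (Th b zs h i) _ _ (w4 hc).1 (w4 hc).2 hd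
      refine dok_far hb hN hM A hi hj hn (g := fun X t => ZD.gD2 X t (Ow b z i s.rev).re
        (Ow b z i s.rev).im) (θ := 112 / 1000) (c := 2 / 10) hζ x0 x1 hX ap (dv_two hb A (Or.inl hc)) rfl
        (by norm_num) X2 ?_ ?_
      · rw [t2, mul_one]
        exact ⟨Or.inr (Or.inr (Or.inr ⟨rfl, w1, w7 hc1, rfl⟩))⟩
      · intro hrow
        have e := ZD.dA2_eq x (10000 * trh b h x) (Ow b z i s.rev).re (Ow b z i s.rev).im
        simp only [t2, mul_one]
        rw [← e] at hrow ⊢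
        exact ZD.far2 Z F hd hG hrow
    · -- `2` at an end
      have hc1 : clsW b i ≠ .one := by rw [hc]; decide
      rw [q2 hc1] at F
      refine dok_far hb hN hM A hi hj hn (g := fun X t => ZD.gD0 X t) (θ := 112 / 1000)
        (c := 2 / 10) hζ x0 x1 hX ap (dv_twoE hb A hc) rfl (by norm_num) X2 ?_ ?_
      · rw [t2, mul_one]
        exact ⟨Or.inr (Or.inr (Or.inr ⟨rfl, w1, w7 hc1, rfl⟩))⟩
      · intro hrow
        have e := ZD.dA0_eq x (10000 * trh b h x)
        simp only [t2, mul_one]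
        rw [← e] at hrow ⊢
        exact ZD.far0 Z F (w5 hc) (w7 hc1) hrow
    · -- `3`
      have hc1 : clsW b i ≠ .one := by rw [hc]; decide
      rw [q2 hc1] at F
      obtain ⟨v0, v1, v2, v3, v4⟩ := hM.inner_bd hb L hN A hn (Or.inl hc)
      rcases A.slot with hs | hs
      · subst hs
        have hd3 : ZD.dom3 (1 - (Ow b z i 1).re) (-(Ow b z i 1).im) := by
          refine ⟨by linarith only [v1], by linarith only [v0], ?_, ?_, ?_⟩ <;> rw [abs_neg] <;> linarith only [v2, v4, v3]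
        have hG := Z.C.c3 (Th b zs h i) _ _ w1 (w8 (Or.inl hc)) hd3
        refine dok_far hb hN hM A hi hj hn (g := fun X t => ZD.gD1 X t (1 - (Ow b z i 1).re)
          (-(Ow b z i 1).im)) (θ := 112 / 1000) (c := 2 / 10) hζ x0 x1 hX ap (dv_three0 hb hc) rfl
          (by norm_num) X2 ?_ ?_
        · rw [t2, mul_one]
          exact ⟨Or.inr (Or.inr (Or.inr ⟨rfl, w1, w7 hc1, rfl⟩))⟩
        · intro hrow
          have e := ZD.dA1_eq x (10000 * trh b h x) (1 - (Ow b z i 1).re) (-(Ow b z i 1).im)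
          simp only [t2, mul_one]
          rw [← e] at hrow ⊢
          exact ZD.far3 Z F hd3 hG hrow
      · subst hs
        have hd : ZD.dom2 (Ow b z i 1).re (Ow b z i 1).im := by
          have := abs_le.mp v2
          have := abs_le.mp v3
          exact ⟨v0, v1, by linarith, by linarith only [this]⟩
        have hG := Z.C.c32 (Th b zs h i) _ _ w1 (w8 (Or.inl hc)) hd (by linarith only [v2, (abs_le.mp v2).1])
        refine dok_far hb hN hM A hi hj hn (g := fun X t => ZD.gD2 X t (Ow b z i 1).re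
          (Ow b z i 1).im) (θ := 112 / 1000) (c := 2 / 10) hζ x0 x1 hX ap (dv_three2 hb hc) rfl
          (by norm_num) X2 ?_ ?_
        · rw [t2, mul_one]
          exact ⟨Or.inr (Or.inr (Or.inr ⟨rfl, w1, w7 hc1, rfl⟩))⟩
        · intro hrow
          have e := ZD.dA2_eq x (10000 * trh b h x) (Ow b z i 1).re (Ow b z i 1).im
          simp only [t2, mul_one]
          rw [← e] at hrow ⊢
          exact ZD.far2 Z F hd hG hrow
    · -- `3` at an end
      have hc1 : clsW b i ≠ .one := by rw [hc]; decide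
      rw [q2 hc1] at F
      obtain ⟨v0, v1, v2, v3, v4⟩ := hM.inner_bd hb L hN A hn (Or.inr hc)
      have hd3 : ZD.dom3 (1 - (Ow b z i 1).re) (-(Ow b z i 1).im) := by
        refine ⟨by linarith only [v1], by linarith only [v0], ?_, ?_, ?_⟩ <;> rw [abs_neg] <;> linarith only [v2, v4, v3]
      have hG := Z.C.c3 (Th b zs h i) _ _ w1 (w8 (Or.inr hc)) hd3
      refine dok_far hb hN hM A hi hj hn (g := fun X t => ZD.gD1 X t (1 - (Ow b z i 1).re)
        (-(Ow b z i 1).im)) (θ := 112 / 1000) (c := 2 / 10) hζ x0 x1 hX ap (dv_threeE A hc) rfl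
        (by norm_num) X2 ?_ ?_
      · rw [t2, mul_one]
        exact ⟨Or.inr (Or.inr (Or.inr ⟨rfl, w1, w7 hc1, rfl⟩))⟩
      · intro hrow
        have e := ZD.dA1_eq x (10000 * trh b h x) (1 - (Ow b z i 1).re) (-(Ow b z i 1).im)
        simp only [t2, mul_one]
        rw [← e] at hrow ⊢
        exact ZD.far3 Z F hd3 hG hrow

end SR

end Pool.Agent.Work.MP_b30479_gtS.G2

end

section

/-!
# Modes at the hinges of rings: the slots of a ring
-/

namespace Pool.Agent.Work.MP_b30479_gtS.G2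

open Finset NumUs

namespace SR

variable {M : ℕ} {b : Fin (M + 1) → ℤ} {zs : DD (tyW b) ⊕ ZZ (tyW b) → ℂ}
variable {R : Finset (DD (tyW b))} {nb : Finset (DD (tyW b) ⊕ ZZ (tyW b))}
variable {z : DD (tyW b) ⊕ ZZ (tyW b) → ℂ} {p : DD (tyW b) → ℝ}
variable {h h' : Fin M} {i j j' : Fin (M + 1)} {s : Fin 3} {x c : ℝ}

theorem Th_rr (hb : ClassW b) (L : LocA b zs) (A : Adj h i s j) (hi : clsW b i = .ring)
    (hj : clsW b j = .ring) : |Th b zs h i| ≤ 56 / 1000 := by
  unfold Th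
  obtain ⟨r1, -⟩ := L.R.rr A hi hj
  obtain ⟨-, -, t0, -⟩ := A.box hb L.L
  rw [hi, hj] at t0
  rw [abs_le]
  refine ⟨le_trans ?_ t0, r1⟩
  cases ssW b h <;> norm_num [hbox]

/-- position of a hinge between two rings -/
theorem MM.pst_rr (hR : ∀ i ∈ R, Sum.inl i ∈ nb) (hM : MM b zs R nb z p)
    (A : Adj h i s j) (hi : clsW b i = .ring) (hj : clsW b j = .ring)
    (hnR : (Sum.inl h : DD (tyW b)) ∉ R) :
    ∃ x : ℝ, 0 ≤ x ∧ x ≤ 1 / 2 ∧ (Ow b z i s).re = x ∧
      ((∃ τ : ℝ, (τ = 0 ∨ τ = Th b zs h i) ∧ (Ow b z i s).im = τ * trh b h x ∧ p (.inl h) = 0) ∨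
        (|(Ow b z i s).im| = 100 * trh b h x ∧ p (.inl h) = 100 * trh b h x)) := by
  have hX := (A.par_rr hi hj).1
  have hc : clsW b h.castSucc = .ring ∧ clsW b h.succ = .ring := by
    cases A
    · exact ⟨hi, hj⟩
    · exact ⟨hj, hi⟩
  rw [Ow_adj z A, ofr_re, ofr_im, abs_ofs]
  by_cases hn : Sum.inl (Sum.inl h) ∈ nb
  · obtain ⟨e1, e2, e3, e4⟩ := hM.adm.reD _ hnR hn
    refine ⟨_, e2, e3.trans_eq hX, rfl, Or.inl ⟨0, Or.inl rfl, ?_, e4⟩⟩
    rw [e1, ofs_zero, zero_mul]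
  have hhu : (wparM b zs).hu (.inl h) =
      if 0 < (zs (.inl (.inl h))).im then (zs (.inl (.inl h))).im else 100 := by
    show mhu b zs (.inl h) = _
    rw [mhu_ring (A.rh1 hj)]
    unfold rhu
    rw [if_pos hc.1, if_pos hc.2]
  have hhd : (wparM b zs).hd (.inl h) =
      if (zs (.inl (.inl h))).im < 0 then -(zs (.inl (.inl h))).im else 100 := by
    show mhd b zs (.inl h) = _
    rw [mhd_ring (A.rh1 hj)]
    unfold rhd
    rw [if_pos hc.1, if_pos hc.2]
  obtain ⟨x, h0, h1, h2⟩ := hM.adm.onD (.inl h) hn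
  have ht := trh_mem (b := b) h x
  have main : z (.inl (.inl h)) = pt 0 ((wparM b zs).XM (.inl h)) ((wparM b zs).cl (.inl h))
      ((wparM b zs).cr (.inl h)) (zs (.inl (.inl h))).im x → p (.inl h) = 0 →
      ofs (b i) (z (.inl (.inl h))).im = Th b zs h i * trh b h x ∧ p (.inl h) = 0 := by
    intro e1 e2
    refine ⟨?_, e2⟩
    rw [e1, ptm_im, ofs_mulR]
    rfl
  refine ⟨x, h0, h1.trans_eq hX, ?_, ?_⟩
  · rcases h2 with h2 | h2 | h2 <;> rw [h2.1, ptm_re]
  rcases h2 with ⟨e1, e2⟩ | ⟨e1, e2⟩ | ⟨e1, e2⟩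
  · exact Or.inl ⟨_, Or.inr rfl, main e1 e2⟩
  · rw [hhu] at e1 e2
    by_cases hT : 0 < (zs (.inl (.inl h))).im
    · rw [if_pos hT] at e1 e2
      have h3 : p (.inl h) ≤ 0 := hM.pen_zero hR hn ⟨x, h0, h1, Or.inl ⟨e1, rfl⟩⟩
      refine Or.inl ⟨_, Or.inr rfl, main e1 (le_antisymm h3 ?_)⟩
      rw [e2]
      exact mul_nonneg hT.le ht.1
    · rw [if_neg hT] at e1 e2
      right
      refine ⟨?_, e2⟩
      rw [e1, ptm_im]
      show |100 * trh b h x| = _
      exact abs_of_nonneg (mul_nonneg (by norm_num) ht.1)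
  · rw [hhd] at e1 e2
    by_cases hT : (zs (.inl (.inl h))).im < 0
    · rw [if_pos hT] at e1 e2
      rw [neg_neg] at e1
      have h3 : p (.inl h) ≤ 0 := hM.pen_zero hR hn ⟨x, h0, h1, Or.inl ⟨e1, rfl⟩⟩
      refine Or.inl ⟨_, Or.inr rfl, main e1 (le_antisymm h3 ?_)⟩
      rw [e2]
      exact mul_nonneg (by linarith only [hT]) ht.1
    · rw [if_neg hT] at e1 e2
      right
      refine ⟨?_, e2⟩
      rw [e1, ptm_im]
      show |-100 * trh b h x| = _
      rw [neg_mul, abs_neg]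
      exact abs_of_nonneg (mul_nonneg (by norm_num) ht.1)

/-- kept hinge between two rings -/
theorem mr_slot (hb : ClassW b) (L : LocA b zs) (hR : ∀ i ∈ R, Sum.inl i ∈ nb)
    (hM : MM b zs R nb z p) (A : Adj h i s j) (hi : clsW b i = .ring) (hj : clsW b j = .ring)
    (hnR : (Sum.inl h : DD (tyW b)) ∉ R) (hp : p (.inl h) = 0) (σ η : ℝ) :
    ZD.ZSl .mr (Ow b z i s) (Ow b z i s) 0 σ η := by
  obtain ⟨e1, e2, e3⟩ := A.par_rr (b := b) hi hj
  have hT := Th_rr hb L A hi hj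
  obtain ⟨x, x0, x1, ex, hx⟩ := hM.pst_rr hR A hi hj hnR
  have ht := trh_mem (b := b) h x
  have key : ∃ τ : ℝ, |τ| ≤ 56 / 1000 ∧ (Ow b z i s).im = τ * trh b h x := by
    rcases hx with ⟨τ, hτ, a, -⟩ | ⟨a, a'⟩
    · refine ⟨τ, ?_, a⟩
      rcases hτ with h0 | h0
      · rw [h0, abs_zero]
        norm_num
      · rw [h0]
        exact hT
    · refine ⟨0, by norm_num, ?_⟩
      rw [hp] at a'
      rw [← a'] at a
      rw [abs_eq_zero.1 a, zero_mul]
  obtain ⟨τ, hτ, e⟩ := key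
  have t1 : trh b h x ≤ x / (1 / 10) := by
    unfold trh
    rw [e1, e2, e3]
    exact tr_le_l (by norm_num) x0
  have t2 : trh b h x ≤ (1 / 2 - x) / (2 / 100) := by
    unfold trh
    rw [e1, e2, e3]
    exact tr_le_cr (by norm_num) x1
  refine ⟨fun h0 => absurd h0 (by decide), fun _ => ⟨rfl, rfl, ?_, ?_, ?_, ?_, ?_⟩,
    fun h0 => absurd h0 (by decide), fun h0 => absurd h0 (by decide)⟩
  · rw [ex]
    exact x0
  · rw [ex]
    exact x1
  · rw [e, abs_mul, abs_of_nonneg ht.1]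
    calc |τ| * trh b h x ≤ 56 / 1000 * 1 := mul_le_mul hτ ht.2 ht.1 (by norm_num)
      _ = _ := by norm_num
  · rw [e, abs_mul, abs_of_nonneg ht.1, ex]
    calc |τ| * trh b h x ≤ 56 / 1000 * (x / (1 / 10)) := mul_le_mul hτ t1 ht.1 (by norm_num)
      _ = _ := by ring
  · rw [e, abs_mul, abs_of_nonneg ht.1, ex]
    calc |τ| * trh b h x ≤ 56 / 1000 * ((1 / 2 - x) / (2 / 100)) :=
          mul_le_mul hτ t2 ht.1 (by norm_num)
      _ = _ := by ring

/-- moved hinge between two rings -/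
theorem rr_slot (hb : ClassW b) (L : LocA b zs) (hR : ∀ i ∈ R, Sum.inl i ∈ nb)
    (hM : MM b zs R nb z p) (A : Adj h i s j) (hi : clsW b i = .ring) (hj : clsW b j = .ring)
    (hp : p (.inl h) ≠ 0) (σ η : ℝ) :
    ZD.ZSl .rr (Ow b z i s) (tgo b zs h i (17 / 100)) (Real.pi * p (.inl h)) σ η := by
  obtain ⟨e1, e2, e3⟩ := A.par_rr (b := b) hi hj
  have hT := Th_rr hb L A hi hj
  have hn := pen_nn hM hp
  obtain ⟨x, x0, x1, ex, hx⟩ := hM.pst_rr hR A hi hj (fun h0 => hn (hR _ h0))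
  rcases hx with ⟨τ, -, -, a⟩ | ⟨a, a'⟩
  · exact absurd a hp
  have ht := trh_mem (b := b) h x
  have htp : 0 < trh b h x := by
    rcases ht.1.eq_or_lt with h0 | h0
    · exfalso
      apply hp
      rw [a', ← h0, mul_zero]
    · exact h0
  have t17 : trh b h (17 / 100) = 1 := by
    unfold trh
    rw [e1, e2, e3]
    unfold tr
    norm_num
  refine ⟨fun h0 => absurd h0 (by decide), fun h0 => absurd h0 (by decide),
    fun _ => ⟨p (.inl h), ⟨fun h0 => absurd h0 (by decide), fun _ => ?_,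
      fun h0 => absurd h0 (by decide)⟩, rfl⟩, fun h0 => absurd h0 (by decide)⟩
  refine ⟨by rw [ex]; exact x0, by rw [ex]; exact x1, by rw [a, a'], ?_, Th b zs h i,
    by linarith only [hT], ?_⟩
  · rw [ex, a]
    have hd : trh b h x = tr 0 (1 / 2) (1 / 10) (2 / 100) x := by
      unfold trh
      rw [e1, e2, e3]
    rw [hd] at htp ⊢
    exact mode_path x0 x1 htp
  · unfold tgo wM
    rw [t17, mul_one]

/-- kept hinge between a ring and a region which is no ring -/
theorem md_slot (hb : ClassW b) (L : LocA b zs) (hR : ∀ i ∈ R, Sum.inl i ∈ nb)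
    (hM : MM b zs R nb z p) (A : Adj h i s j) (hi : clsW b i ≠ .ring) (hj : clsW b j = .ring)
    (hnR : (Sum.inl h : DD (tyW b)) ∉ R) (hp : p (.inl h) = 0) (σ η : ℝ) :
    ZD.ZSl .md (Ow b z j s.rev) (Ow b z j s.rev) 0 σ η := by
  obtain ⟨w1, w2, w3, w4, w5, w6, w7, w8⟩ := Th_ring (zs := zs) hb L A hi hj
  obtain ⟨q1, q2, q3, q4, q5, q6, q7⟩ := A.par_ring hi hj
  obtain ⟨x, x0, x1, e1, e2⟩ := hM.pstA hb hR A hi hnR
  have ht := trh_mem (b := b) h x
  have hu : Hup b h s j = 16 / 100 := by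
    unfold Hup
    rw [if_pos hj]
  have hd : Hdn b h s j = 10000 := by
    unfold Hdn
    rw [if_pos hj]
  rw [hu, hd, hp] at e2
  have hX1 : wXM b h ≤ 65 / 100 := by
    by_cases hc : clsW b i = .one
    · exact (q1 hc).1.le
    · rw [q2 hc]
      norm_num
  have key : ∃ τ : ℝ, (τ = 0 ∨ τ = Th b zs h i) ∧ (Ow b z i s).im = τ * trh b h x := by
    rcases e2 with ⟨a, -⟩ | ⟨a, -⟩ | ⟨-, a, a'⟩ | ⟨-, a, a'⟩
    · exact ⟨0, Or.inl rfl, by rw [a, zero_mul]⟩
    · exact ⟨_, Or.inr rfl, a⟩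
    · refine ⟨0, Or.inl rfl, ?_⟩
      rw [a, ← a', zero_mul]
    · refine ⟨0, Or.inl rfl, ?_⟩
      rw [a, ← a', neg_zero, zero_mul]
  obtain ⟨τ, hτ, e⟩ := key
  have τ0 : -(1 / 1000) ≤ τ := by rcases hτ with h0 | h0 <;> rw [h0] <;> first | exact w1 | norm_num
  have τ1 : τ ≤ 158 / 1000 := by rcases hτ with h0 | h0 <;> rw [h0] <;> first | exact w2 | norm_num
  have l1 : 0 < wcl b h := wcl_pos h
  have r1 : 0 < wcr b h := wcr_pos h
  have t1 : trh b h x ≤ x / wcl b h := tr_le_l l1 x0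
  have t2 : trh b h x ≤ (wXM b h - x) / wcr b h := tr_le_cr r1 x1
  rw [le_div_iff₀ l1] at t1
  rw [le_div_iff₀ r1] at t2
  have t3 : trh b h x * (10 / 100) ≤ x :=
    (mul_le_mul_of_nonneg_left q5.1 ht.1).trans t1
  have hop := Ow_opp (z := z) hb A hi
  rw [e, e1] at hop
  rw [hop]
  have b1 : τ * trh b h x ≤ 158 / 1000 * trh b h x := mul_le_mul_of_nonneg_right τ1 ht.1
  have b0 : -(1 / 1000) * trh b h x ≤ τ * trh b h x := mul_le_mul_of_nonneg_right τ0 ht.1
  refine ⟨fun _ => ⟨rfl, rfl, x0, x1.trans hX1, ?_, ?_, ?_, ?_, ?_⟩, fun h0 => absurd h0 (by decide),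
    fun h0 => absurd h0 (by decide), fun h0 => absurd h0 (by decide)⟩
  · show -(158 / 1000) ≤ -(τ * trh b h x)
    linarith only [ht, b1, ht.2]
  · show -(τ * trh b h x) ≤ 1 / 1000
    linarith only [ht, b0, ht.2]
  · show -(τ * trh b h x) ≤ 0 ∨ x ≤ 60 / 100
    by_cases hc : clsW b i = .one
    · left
      have : 0 ≤ τ := by
        rcases hτ with h0 | h0
        · rw [h0]
        · rw [h0]
          linarith only [w1, w3, hc, w3 hc]
      have := mul_nonneg this ht.1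
      linarith only [this]
    · right
      rw [← q2 hc]
      exact x1
  · show - -(τ * trh b h x) ≤ 545 / 1000 * (65 / 100 - x)
    rw [neg_neg]
    by_cases hc : clsW b i = .one
    · obtain ⟨a1, -, a3⟩ := q1 hc
      rw [a1, a3] at t2
      linarith only [ht, t2, b1]
    · have a1 := q2 hc
      have a2 := mul_le_mul_of_nonneg_left (q7 hc) ht.1
      have a3 := w7 hc
      have a4 : τ ≤ 131 / 1000 := by rcases hτ with h0 | h0 <;> rw [h0] <;> first | exact a3 | norm_num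
      have a5 : τ * trh b h x ≤ 131 / 1000 * trh b h x := mul_le_mul_of_nonneg_right a4 ht.1
      rw [a1] at t2 x1
      linarith only [q5, x1, l1, t2, b1, a2]
  · show - -(τ * trh b h x) ≤ 158 / 100 * x
    rw [neg_neg]
    linarith only [t3, b1]

end SR

end Pool.Agent.Work.MP_b30479_gtS.G2

end
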