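import Pool.Agent.Work.MP_b30479_gt.TBS.G2.ZRAe

section

/-!
# Frontier of the rings with 2 crossings

Generated certificates (see `S2Cert`).
-/

set_option linter.style.longLine false

set_option deprecated.oldSectionVars true

namespace Pool.Agent.Work.MP_b30479_gtS.G2.SC

open scoped ComplexConjugate

/-- edges -/
def L2aa : List ((ℕ × ℕ) × (ℕ × ℕ)) :=
  [((9568, 3792), (10752, 2960)), ((10752, 2960), (13488, 2960)), ((13488, 2960), (13984, 8064)),
    ((13984, 8064), (11968, 8128)), ((11968, 8128), (9568, 6080)), ((9568, 6080), (9568, 3792))]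

/-- tree -/
def T2aa_0 : CT := .rel1 [(6720, 0), (16000, 0), (12874, 12505), (6720, 7120)] (.rel2 [(6720,
    3936), (12256, 0), (16000, 0), (12874, 12505), (6720, 7120)] (.leaf ⟨17, 0, 25, 0⟩))

theorem ok2aa_0 : chkT cF2mm cF2mm T2aa_0 (9568, 3792) (10752, 2960) dum nA nA = true := by
  decide +kernel

/-- tree -/
def T2aa_1 : CT := .rel1 [(6720, 0), (16000, 0), (13055, 11780), (6720, 7344)] (.rel2 [(6720, 0),
    (16000, 0), (13055, 11780), (6720, 7344)] (.leaf ⟨9, 0, 4, 0⟩))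

theorem ok2aa_1 : chkT cF2mm cF2mm T2aa_1 (10752, 2960) (13488, 2960) dum nA nA = true := by
  decide +kernel

/-- tree -/
def T2aa_2 : CT := .seg (13736, 5512) (.rel1 [(6720, 0), (16000, 0), (13296, 10816), (6720,
    10816)] (.rel2 [(6720, 0), (16000, 0), (13296, 10816), (6720, 10816)] (.leaf ⟨2, 0, 0, 10⟩)))
    (.rel1 [(6720, 0), (16000, 0), (13296, 10816), (6720, 10816)] (.rel2 [(6720, 0), (16000, 0),
    (13296, 10816), (6720, 10816)] (.leaf ⟨0, 3, 0, 10⟩)))

theorem ok2aa_2 : chkT cF2mm cF2mm T2aa_2 (13488, 2960) (13984, 8064) dum nA nA = true := by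
  decide +kernel

/-- tree -/
def T2aa_3 : CT := .seg (12976, 8096) (.rel1 [(6720, 3936), (12256, 0), (16000, 0), (6720, 37123)]
    (.rel2 [(6720, 3936), (12256, 0), (16000, 0), (6720, 37123)] (.leaf ⟨0, 9, 5, 0⟩))) (.rel1
    [(6720, 3936), (12256, 0), (16000, 0), (6720, 37123)] (.rel2 [(6720, 3936), (12256, 0),
    (16000, 0), (6720, 37123)] (.leaf ⟨0, 8, 6, 0⟩)))

theorem ok2aa_3 : chkT cF2mm cF2mm T2aa_3 (13984, 8064) (11968, 8128) dum nA nA = true := by
  decide +kernel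

/-- tree -/
def T2aa_4 : CT := .seg (10768, 7104) (.cut1 false 11360 [(6720, 3936), (11360, 637), (11360,
    10592), (8000, 8240), (6720, 7120)] [(11360, 637), (12256, 0), (16000, 0), (13296, 10816),
    (11680, 10816), (11360, 10592)] (.rel1 [(6720, 3936), (11360, 637), (11360, 11180), (6720,
    7120)] (.rel2 [(6720, 3936), (12256, 0), (16000, 0), (6720, 37123)] (.leaf ⟨0, 12, 28, 0⟩)))
    (.cut2 false 11360 [(6720, 3936), (11360, 637), (11360, 10592), (8000, 8240), (6720, 7120)]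
    [(11360, 637), (12256, 0), (16000, 0), (13296, 10816), (11680, 10816), (11360, 10592)] (.rel1
    [(11360, 637), (12256, 0), (16000, 0), (11360, 18560)] (.rel2 [(11360, 637), (11360, 11180),
    (4712, 5363)] (.leaf ⟨0, 11, 28, 0⟩))) (.rel1 [(11360, 637), (12256, 0), (16000, 0), (11360,
    18560)] (.rel2 [(11360, 637), (12256, 0), (16000, 0), (11360, 18560)] (.leaf ⟨0, 7, 29,
    0⟩))))) (.cut1 false 11360 [(6720, 3936), (11360, 637), (11360, 10592), (8000, 8240), (6720,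
    7120)] [(11360, 637), (12256, 0), (16000, 0), (13296, 10816), (11680, 10816), (11360, 10592)]
    (.rel1 [(6720, 3936), (11360, 637), (11360, 11180), (6720, 7120)] (.rel2 [(6720, 3936),
    (12256, 0), (16000, 0), (6720, 37123)] (.leaf ⟨0, 3, 10, 0⟩))) (.rel1 [(11360, 637), (12256,
    0), (16000, 0), (11360, 18560)] (.rel2 [(6720, 3936), (12256, 0), (16000, 0), (6720, 37123)]
    (.leaf ⟨0, 2, 10, 0⟩))))

theorem ok2aa_4 : chkT cF2mm cF2mm T2aa_4 (11968, 8128) (9568, 6080) dum nA nA = true := by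
  decide +kernel

/-- tree -/
def T2aa_5 : CT := .cut1 false 11360 [(6720, 3936), (11360, 637), (11360, 10592), (8000, 8240),
    (6720, 7120)] [(11360, 637), (12256, 0), (16000, 0), (13296, 10816), (11680, 10816), (11360,
    10592)] (.cut2 false 11360 [(6720, 3936), (11360, 637), (11360, 10592), (8000, 8240), (6720,
    7120)] [(11360, 637), (12256, 0), (16000, 0), (13296, 10816), (11680, 10816), (11360, 10592)]
    (.seg (9568, 4936) (.rel1 [(6720, 3936), (11360, 637), (11360, 11180), (6720, 7120)] (.rel2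
    [(6720, 3936), (11360, 637), (11360, 11180), (6720, 7120)] (.leaf ⟨0, 0, 10, 0⟩))) (.rel1
    [(6720, 3936), (11360, 637), (11360, 11180), (6720, 7120)] (.rel2 [(6720, 3936), (11360, 637),
    (11360, 11180), (6720, 7120)] (.leaf ⟨0, 2, 100, 0⟩)))) (.rel1 [(6720, 3936), (11360, 637),
    (11360, 11180), (6720, 7120)] (.rel2 [(11360, 0), (16000, 0), (11360, 18560)] (.leaf ⟨3, 0,
    10, 0⟩)))) (.rel1 [(11360, 0), (16000, 0), (11360, 18560)] (.rel2 [(6720, 3936), (12256, 0),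
    (16000, 0), (6720, 37123)] (.leaf ⟨2, 0, 30, 0⟩)))

theorem ok2aa_5 : chkT cF2mm cF2mm T2aa_5 (9568, 6080) (9568, 3792) dum nA nA = true := by
  decide +kernel

theorem fr2aa {z k l : ℂ} (hz : OnE (vt .t2aa) z) (hk : conj k ∈ Poly pA) (hl : conj l ∈ Poly pA) :
    k ^ 2 + l ^ 2 - 2 * k * l * (2 * z ^ 2 - 1) + (z * (2 * z)) ^ 2 ≠ 0 := by
  have h := edge_use rpF2mm (E := L2aa) (V0 := dum) (V1 := nA) (V2 := nA) (fun e he => by
    simp only [L2aa, List.mem_cons, List.not_mem_nil, or_false] at he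
    rcases he with rfl | rfl | rfl | rfl | rfl | rfl
    exacts [⟨_, ok2aa_0⟩, ⟨_, ok2aa_1⟩, ⟨_, ok2aa_2⟩, ⟨_, ok2aa_3⟩, ⟨_, ok2aa_4⟩, ⟨_, ok2aa_5⟩]) (V := vt .t2aa) (by decide) hz zero_dum (rgA hk) (rgA hl)
  rw [evF2mm (mr_true k) (mr_true l)] at h
  exact fun h0 => h (by rw [h0, mul_zero])

/-- edges -/
def L2as : List ((ℕ × ℕ) × (ℕ × ℕ)) :=
  [((8448, 5712), (10240, 4432)), ((10240, 4432), (13632, 4432)), ((13632, 4432), (13984, 8064)),
    ((13984, 8064), (13296, 10800)), ((13296, 10800), (11728, 10800)), ((11728, 10800), (8448,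
    8048)), ((8448, 8048), (8448, 5712))]

/-- tree -/
def T2as_0 : CT := .seg (9344, 5072) (.rel1 [(6720, 0), (16000, 0), (12874, 12505), (6720, 7120)]
    (.rel2 [(8000, 3520), (12800, 0), (16000, 0), (12390, 9238), (8000, 5440)] (.leaf ⟨9, 0, 4,
    0⟩))) (.rel1 [(6720, 0), (16000, 0), (12874, 12505), (6720, 7120)] (.rel2 [(8000, 3520),
    (12800, 0), (16000, 0), (12390, 9238), (8000, 5440)] (.leaf ⟨95, 0, 31, 0⟩)))

theorem ok2as_0 : chkT cF2mn cF2mn T2as_0 (8448, 5712) (10240, 4432) dum nA nT = true := by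
  decide +kernel

/-- tree -/
def T2as_1 : CT := .rel1 [(6720, 0), (16000, 0), (13055, 11780), (6720, 7344)] (.rel2 [(12800, 0),
    (16000, 0), (12390, 9238), (6798, 4401)] (.leaf ⟨10, 0, 0, 0⟩))

theorem ok2as_1 : chkT cF2mn cF2mn T2as_1 (10240, 4432) (13632, 4432) dum nA nT = true := by
  decide +kernel

/-- tree -/
def T2as_2 : CT := .seg (13808, 6248) (.rel1 [(6720, 0), (16000, 0), (13296, 10816), (6720,
    10816)] (.rel2 [(16000, 0), (12390, 9238), (1712, 0)] (.leaf ⟨0, 1, 0, 10⟩))) (.rel1 [(6720,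
    0), (16000, 0), (13296, 10816), (6720, 10816)] (.rel2 [(16000, 0), (12390, 9238), (1712, 0)]
    (.leaf ⟨0, 3, 0, 10⟩)))

theorem ok2as_2 : chkT cF2mn cF2mn T2as_2 (13632, 4432) (13984, 8064) dum nA nT = true := by
  decide +kernel

/-- tree -/
def T2as_3 : CT := .rel1 [(6720, 0), (16000, 0), (6720, 37123)] (.rel2 [(8000, 0), (16000, 0),
    (12592, 8720), (8000, 8720)] (.leaf ⟨0, 24, 0, 17⟩))

theorem ok2as_3 : chkT cF2mn cF2mn T2as_3 (13984, 8064) (13296, 10800) dum nA nT = true := by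
  decide +kernel

/-- tree -/
def T2as_4 : CT := .rel1 [(6720, 0), (16000, 0), (6720, 37123)] (.rel2 [(16000, 0), (12592, 8720),
    (11792, 8720), (1710, 0)] (.leaf ⟨0, 17, 25, 0⟩))

theorem ok2as_4 : chkT cF2mn cF2mn T2as_4 (13296, 10800) (11728, 10800) dum nA nT = true := by
  decide +kernel

/-- tree -/
def T2as_5 : CT := .seg (10088, 9424) (.cut1 true 5408 [(6720, 3936), (12256, 0), (16000, 0),
    (14648, 5408), (6720, 5408)] [(14648, 5408), (13296, 10816), (11680, 10816), (8000, 8240),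
    (6720, 7120), (6720, 5408)] (.cut2 true 4360 [(8000, 3520), (12800, 0), (16000, 0), (14296,
    4360), (8000, 4360)] [(14296, 4360), (12592, 8720), (11792, 8720), (8000, 5440), (8000, 4360)]
    (.rel1 [(6720, 0), (16000, 0), (6720, 37120)] (.rel2 [(8000, 0), (16000, 0), (14296, 4360),
    (8000, 4360)] (.leaf ⟨0, 3, 9, 0⟩))) (.cut1 true 2704 [(8452, 2704), (12256, 0), (16000, 0),
    (15324, 2704)] [(6720, 3936), (8452, 2704), (15324, 2704), (14648, 5408), (6720, 5408)] (.seg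
    (10908, 10112) (.cut2 false 11148 [(11148, 8163), (8000, 5440), (8000, 4360), (11148, 4360)]
    [(14296, 4360), (12592, 8720), (11792, 8720), (11148, 8163), (11148, 4360)] (.leaf ⟨1, 0, 30,
    0⟩) (.leaf ⟨4, 0, 30, 0⟩)) (.cut2 true 6540 [(14296, 4360), (13444, 6540), (9271, 6540),
    (8000, 5440), (8000, 4360)] [(13444, 6540), (12592, 8720), (11792, 8720), (9271, 6540)] (.leaf
    ⟨1, 0, 10, 0⟩) (.cut2 true 7630 [(13444, 6540), (13018, 7630), (10531, 7630), (9271, 6540)]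
    [(13018, 7630), (12592, 8720), (11792, 8720), (10531, 7630)] (.leaf ⟨5, 0, 30, 0⟩) (.rel2
    [(13018, 7630), (12390, 9237), (10531, 7630)] (.leaf ⟨7, 0, 29, 0⟩))))) (.rel1 [(6720, 2704),
    (15324, 2704), (6720, 37120)] (.rel2 [(14296, 4360), (12390, 9238), (6751, 4360)] (.leaf ⟨0,
    2, 10, 0⟩))))) (.rel1 [(14648, 5408), (6720, 37125), (6720, 5408)] (.rel2 [(8000, 0), (16000,
    0), (12592, 8720), (8000, 8720)] (.leaf ⟨0, 4, 9, 0⟩)))) (.cut1 true 5408 [(6720, 3936),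
    (12256, 0), (16000, 0), (14648, 5408), (6720, 5408)] [(14648, 5408), (13296, 10816), (11680,
    10816), (8000, 8240), (6720, 7120), (6720, 5408)] (.seg (9268, 8736) (.rel1 [(6720, 3936),
    (12256, 0), (16000, 0), (6720, 37120)] (.rel2 [(8000, 0), (16000, 0), (12390, 9238), (8000,
    5440)] (.leaf ⟨8, 0, 29, 0⟩))) (.rel1 [(6720, 3936), (12256, 0), (16000, 0), (6720, 37120)]
    (.rel2 [(8000, 0), (16000, 0), (12390, 9238), (8000, 5440)] (.leaf ⟨4, 0, 9, 0⟩)))) (.rel1
    [(14648, 5408), (6720, 37125), (6720, 5408)] (.rel2 [(16000, 0), (12390, 9238), (1712, 0)]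
    (.leaf ⟨0, 2, 10, 0⟩))))

theorem ok2as_5 : chkT cF2mn cF2mn T2as_5 (11728, 10800) (8448, 8048) dum nA nT = true := by
  decide +kernel

/-- tree -/
def T2as_6 : CT := .seg (8448, 6880) (.rel1 [(6720, 3936), (12256, 0), (16000, 0), (12874, 12505),
    (6720, 7120)] (.rel2 [(8000, 0), (16000, 0), (12390, 9238), (8000, 5440)] (.leaf ⟨6, 0, 8,
    0⟩))) (.cut1 false 11360 [(6720, 3936), (11360, 637), (11360, 10592), (8000, 8240), (6720,
    7120)] [(11360, 637), (12256, 0), (16000, 0), (13296, 10816), (11680, 10816), (11360, 10592)]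
    (.cut1 false 9040 [(6720, 3936), (9040, 2286), (9040, 8968), (8000, 8240), (6720, 7120)]
    [(9040, 2286), (11360, 637), (11360, 10592), (9040, 8968)] (.cut1 true 5627 [(6720, 3936),
    (9040, 2286), (9040, 5627), (6720, 5627)] [(9040, 5627), (9040, 8968), (8000, 8240), (6720,
    7120), (6720, 5627)] (.cut1 false 7880 [(6720, 3936), (7880, 3111), (7880, 5627), (6720,
    5627)] [(7880, 3111), (9040, 2286), (9040, 5627), (7880, 5627)] (.cut2 false 12000 [(8000,
    3520), (12000, 586), (12000, 8720), (11792, 8720), (8000, 5440)] [(12000, 586), (12800, 0),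
    (16000, 0), (12592, 8720), (12000, 8720)] (.cut2 false 10000 [(8000, 3520), (10000, 2053),
    (10000, 7170), (8000, 5440)] [(10000, 2053), (12000, 586), (12000, 8720), (11792, 8720),
    (10000, 7170)] (.cut1 false 7300 [(6720, 3936), (7300, 3523), (7300, 5627), (6720, 5627)]
    [(7300, 3523), (7880, 3111), (7880, 5627), (7300, 5627)] (.cut1 true 4575 [(6720, 3936),
    (7300, 3523), (7300, 4575), (6720, 4575)] [(7300, 4575), (7300, 5627), (6720, 5627), (6720,
    4575)] (.cut2 false 9000 [(8000, 3520), (9000, 2786), (9000, 6305), (8000, 5440)] [(9000,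
    2786), (10000, 2053), (10000, 7170), (9000, 6305)] (.cut1 false 7010 [(6720, 3936), (7010,
    3729), (7010, 4575), (6720, 4575)] [(7010, 3729), (7300, 3523), (7300, 4575), (7010, 4575)]
    (.cut2 true 4545 [(8000, 3520), (9000, 2786), (9000, 4545), (8000, 4545)] [(9000, 4545),
    (9000, 6305), (8000, 5440), (8000, 4545)] (.leaf ⟨7, 0, 7, 0⟩) (.seg (8448, 6296) (.seg (8448,
    6588) (.seg (8448, 6734) (.leaf ⟨7, 0, 7, 0⟩) (.leaf ⟨8, 0, 6, 0⟩)) (.leaf ⟨9, 0, 5, 0⟩))
    (.leaf ⟨10, 0, 2, 0⟩))) (.leaf ⟨8, 0, 6, 0⟩)) (.leaf ⟨8, 0, 6, 0⟩)) (.leaf ⟨7, 0, 7, 0⟩))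
    (.leaf ⟨8, 0, 6, 0⟩)) (.rel2 [(10000, 2053), (12000, 586), (12000, 8900), (10000, 7170)]
    (.leaf ⟨8, 0, 5, 0⟩))) (.rel2 [(12000, 0), (16000, 0), (12000, 10235)] (.leaf ⟨9, 0, 4, 0⟩)))
    (.rel2 [(12800, 0), (16000, 0), (12390, 9238), (6798, 4401)] (.leaf ⟨8, 0, 6, 0⟩))) (.rel1
    [(9040, 5627), (9040, 9150), (6720, 7120), (6720, 5627)] (.rel2 [(8000, 0), (16000, 0),
    (12390, 9238), (8000, 5440)] (.leaf ⟨6, 0, 8, 0⟩)))) (.rel2 [(12800, 0), (16000, 0), (12390,
    9238), (6798, 4401)] (.leaf ⟨8, 0, 6, 0⟩))) (.rel1 [(11360, 0), (16000, 0), (11360, 18560)]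
    (.rel2 [(12800, 0), (16000, 0), (12390, 9238), (6798, 4401)] (.leaf ⟨8, 0, 7, 0⟩))))

theorem ok2as_6 : chkT cF2mn cF2mn T2as_6 (8448, 8048) (8448, 5712) dum nA nT = true := by
  decide +kernel

theorem fr2as {z k l : ℂ} (hz : OnE (vt .t2as) z) (hk : conj k ∈ Poly pA) (hl : l ∈ Poly pT) :
    k ^ 2 + l ^ 2 - 2 * k * l * (2 * z ^ 2 - 1) + (z * (2 * z)) ^ 2 ≠ 0 := by
  have h := edge_use rpF2mn (E := L2as) (V0 := dum) (V1 := nA) (V2 := nT) (fun e he => by
    simp only [L2as, List.mem_cons, List.not_mem_nil, or_false] at he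
    rcases he with rfl | rfl | rfl | rfl | rfl | rfl | rfl
    exacts [⟨_, ok2as_0⟩, ⟨_, ok2as_1⟩, ⟨_, ok2as_2⟩, ⟨_, ok2as_3⟩, ⟨_, ok2as_4⟩, ⟨_, ok2as_5⟩, ⟨_, ok2as_6⟩]) (V := vt .t2as) (by decide) hz zero_dum (rgA hk) (rgT hl)
  rw [evF2mn (mr_true k) (mr_false l)] at h
  exact fun h0 => h (by rw [h0, mul_zero])

/-- edges -/
def L2e : List ((ℕ × ℕ) × (ℕ × ℕ)) :=
  [((6720, 3952), (7760, 3200)), ((7760, 3200), (10448, 3200)), ((10448, 3200), (10624, 5008)),
    ((10624, 5008), (9376, 8128)), ((9376, 8128), (7952, 8128)), ((7952, 8128), (6720, 7104)),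
    ((6720, 7104), (6720, 3952))]

/-- tree -/
def T2e_0 : CT := .rel2 [(6720, 0), (16000, 0), (6720, 37123)] (.leaf ⟨10, 0, 0, 0⟩)

theorem ok2e_0 : chkT cG2m cG2m T2e_0 (6720, 3952) (7760, 3200) dum dum nA = true := by
  decide +kernel

/-- tree -/
def T2e_1 : CT := .rel2 [(6720, 0), (16000, 0), (12874, 12505), (6720, 7120)] (.leaf ⟨9, 0, 0, 4⟩)

theorem ok2e_1 : chkT cG2m cG2m T2e_1 (7760, 3200) (10448, 3200) dum dum nA = true := by
  decide +kernel

/-- tree -/
def T2e_2 : CT := .rel2 [(6720, 0), (16000, 0), (13296, 10816), (6720, 10816)] (.leaf ⟨0, 1, 0,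
    10⟩)

theorem ok2e_2 : chkT cG2m cG2m T2e_2 (10448, 3200) (10624, 5008) dum dum nA = true := by
  decide +kernel

/-- tree -/
def T2e_3 : CT := .rel2 [(6720, 0), (16000, 0), (13296, 10816), (6720, 10816)] (.leaf ⟨0, 9, 0,
    4⟩)

theorem ok2e_3 : chkT cG2m cG2m T2e_3 (10624, 5008) (9376, 8128) dum dum nA = true := by
  decide +kernel

/-- tree -/
def T2e_4 : CT := .rel2 [(6720, 0), (16000, 0), (6720, 37120)] (.leaf ⟨0, 10, 3, 0⟩)

theorem ok2e_4 : chkT cG2m cG2m T2e_4 (9376, 8128) (7952, 8128) dum dum nA = true := by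
  decide +kernel

/-- tree -/
def T2e_5 : CT := .rel2 [(6720, 0), (16000, 0), (6720, 37123)] (.leaf ⟨0, 1, 10, 0⟩)

theorem ok2e_5 : chkT cG2m cG2m T2e_5 (7952, 8128) (6720, 7104) dum dum nA = true := by
  decide +kernel

/-- tree -/
def T2e_6 : CT := .seg (6720, 5528) (.rel2 [(6720, 3936), (12256, 0), (16000, 0), (6720, 37123)]
    (.leaf ⟨6, 0, 8, 0⟩)) (.rel2 [(6720, 3936), (12256, 0), (16000, 0), (6720, 37123)] (.leaf ⟨6,
    0, 8, 0⟩))

theorem ok2e_6 : chkT cG2m cG2m T2e_6 (6720, 7104) (6720, 3952) dum dum nA = true := by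
  decide +kernel

theorem fr2e {z k : ℂ} (hz : OnE (vt .t2e) z) (hk : conj k ∈ Poly pA) :
    k + Complex.I * z * (2 * z) ≠ 0 := by
  have h := edge_use rpG2m (E := L2e) (V0 := dum) (V1 := dum) (V2 := nA) (fun e he => by
    simp only [L2e, List.mem_cons, List.not_mem_nil, or_false] at he
    rcases he with rfl | rfl | rfl | rfl | rfl | rfl | rfl
    exacts [⟨_, ok2e_0⟩, ⟨_, ok2e_1⟩, ⟨_, ok2e_2⟩, ⟨_, ok2e_3⟩, ⟨_, ok2e_4⟩, ⟨_, ok2e_5⟩, ⟨_, ok2e_6⟩]) (V := vt .t2e) (by decide) hz zero_dum zero_dum (rgA hk)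
  rw [evG2m (mr_true k)] at h
  exact fun h0 => h (by rw [h0, mul_zero])

end Pool.Agent.Work.MP_b30479_gtS.G2.SC

end

section

/-!
# Frontier of the rings with 6 crossings

Generated certificates (see `S2Cert`).
-/

set_option linter.style.longLine false

set_option deprecated.oldSectionVars true

namespace Pool.Agent.Work.MP_b30479_gtS.G2.SC

open scoped ComplexConjugate

/-- edges -/
def L6aa : List ((ℕ × ℕ) × (ℕ × ℕ)) :=
  [((12640, 720), (13600, 64)), ((13600, 64), (15360, 64)), ((15360, 64), (15408, 1440)), ((15408,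
    1440), (14720, 3200)), ((14720, 3200), (13280, 3200)), ((13280, 3200), (12640, 2400)),
    ((12640, 2400), (12640, 720))]

/-- tree -/
def T6aa_0 : CT := .rel1 [(6720, 0), (16000, 0), (13280, 11040), (6720, 10400)] (.rel2 [(6720, 0),
    (16000, 0), (13280, 11040), (6720, 10400)] (.rel1 [(6720, 0), (16000, 0), (6720, 37666)]
    (.rel2 [(6720, 0), (16000, 0), (6720, 37666)] (.leaf ⟨2, 0, 10, 0⟩))))

theorem ok6aa_0 : chkT cF6mm cF6mm T6aa_0 (12640, 720) (13600, 64) dum nA nA = true := by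
  decide +kernel

/-- tree -/
def T6aa_1 : CT := .rel1 [(6720, 0), (16000, 0), (13280, 11040), (6720, 10400)] (.rel2 [(6720, 0),
    (16000, 0), (13280, 11040), (6720, 10400)] (.rel1 [(6720, 0), (16000, 0), (6720, 37666)]
    (.rel2 [(6720, 0), (16000, 0), (6720, 37666)] (.leaf ⟨2, 0, 10, 0⟩))))

theorem ok6aa_1 : chkT cF6mm cF6mm T6aa_1 (13600, 64) (15360, 64) dum nA nA = true := by
  decide +kernel

/-- tree -/
def T6aa_2 : CT := .rel1 [(6720, 0), (16000, 0), (13280, 11040), (6720, 10400)] (.rel2 [(6720, 0),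
    (16000, 0), (13280, 11040), (6720, 10400)] (.leaf ⟨2, 0, 0, 10⟩))

theorem ok6aa_2 : chkT cF6mm cF6mm T6aa_2 (15360, 64) (15408, 1440) dum nA nA = true := by
  decide +kernel

/-- tree -/
def T6aa_3 : CT := .rel1 [(6720, 0), (16000, 0), (13280, 11040), (6720, 10400)] (.rel2 [(6720, 0),
    (16000, 0), (13280, 11040), (6720, 10400)] (.rel1 [(6720, 0), (16000, 0), (6720, 37666)]
    (.rel2 [(6720, 0), (16000, 0), (6720, 37666)] (.leaf ⟨0, 8, 6, 0⟩))))

theorem ok6aa_3 : chkT cF6mm cF6mm T6aa_3 (15408, 1440) (14720, 3200) dum nA nA = true := by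
  decide +kernel

/-- tree -/
def T6aa_4 : CT := .rel1 [(6720, 0), (16000, 0), (13280, 11040), (6720, 10400)] (.rel2 [(6720, 0),
    (16000, 0), (13280, 11040), (6720, 10400)] (.rel1 [(6720, 0), (16000, 0), (6720, 37666)]
    (.rel2 [(6720, 0), (16000, 0), (6720, 37666)] (.leaf ⟨5, 0, 9, 0⟩))))

theorem ok6aa_4 : chkT cF6mm cF6mm T6aa_4 (14720, 3200) (13280, 3200) dum nA nA = true := by
  decide +kernel

/-- tree -/
def T6aa_5 : CT := .rel1 [(6720, 0), (16000, 0), (13280, 11040), (6720, 10400)] (.rel2 [(6720, 0),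
    (16000, 0), (13280, 11040), (6720, 10400)] (.rel1 [(6720, 0), (16000, 0), (6720, 37666)]
    (.rel2 [(6720, 0), (16000, 0), (6720, 37666)] (.leaf ⟨7, 0, 7, 0⟩))))

theorem ok6aa_5 : chkT cF6mm cF6mm T6aa_5 (13280, 3200) (12640, 2400) dum nA nA = true := by
  decide +kernel

/-- tree -/
def T6aa_6 : CT := .rel1 [(6720, 0), (16000, 0), (13280, 11040), (6720, 10400)] (.rel2 [(6720, 0),
    (16000, 0), (13280, 11040), (6720, 10400)] (.rel1 [(6720, 0), (16000, 0), (6720, 37666)]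
    (.rel2 [(6720, 0), (16000, 0), (6720, 37666)] (.leaf ⟨4, 0, 9, 0⟩))))

theorem ok6aa_6 : chkT cF6mm cF6mm T6aa_6 (12640, 2400) (12640, 720) dum nA nA = true := by
  decide +kernel

theorem fr6aa {z k l : ℂ} (hz : OnE (vt .t6) z) (hk : conj k ∈ Poly pA) (hl : conj l ∈ Poly pA) :
    k ^ 2 + l ^ 2 - 2 * k * l * (32 * z ^ 6 - 48 * z ^ 4 + 18 * z ^ 2 - 1) + (z * (32 * z ^ 5 - 32 * z ^ 3 + 6 * z)) ^ 2 ≠ 0 := by
  have h := edge_use rpF6mm (E := L6aa) (V0 := dum) (V1 := nA) (V2 := nA) (fun e he => by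
    simp only [L6aa, List.mem_cons, List.not_mem_nil, or_false] at he
    rcases he with rfl | rfl | rfl | rfl | rfl | rfl | rfl
    exacts [⟨_, ok6aa_0⟩, ⟨_, ok6aa_1⟩, ⟨_, ok6aa_2⟩, ⟨_, ok6aa_3⟩, ⟨_, ok6aa_4⟩, ⟨_, ok6aa_5⟩, ⟨_, ok6aa_6⟩]) (V := vt .t6) (by decide) hz zero_dum (rgA hk) (rgA hl)
  rw [evF6mm (mr_true k) (mr_true l)] at h
  exact fun h0 => h (by rw [h0, mul_zero])

/-- edges -/
def L6as : List ((ℕ × ℕ) × (ℕ × ℕ)) :=
  [((12640, 720), (13600, 64)), ((13600, 64), (15360, 64)), ((15360, 64), (15408, 1440)), ((15408,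
    1440), (14720, 3200)), ((14720, 3200), (13280, 3200)), ((13280, 3200), (12640, 2400)),
    ((12640, 2400), (12640, 720))]

/-- tree -/
def T6as_0 : CT := .rel1 [(6720, 0), (16000, 0), (13280, 11040), (6720, 10400)] (.rel2 [(8000, 0),
    (16000, 0), (13280, 11040), (8000, 10400)] (.leaf ⟨10, 0, 0, 0⟩))

theorem ok6as_0 : chkT cF6mn cF6mn T6as_0 (12640, 720) (13600, 64) dum nA nS = true := by
  decide +kernel

/-- tree -/
def T6as_1 : CT := .rel1 [(6720, 0), (16000, 0), (13280, 11040), (6720, 10400)] (.rel2 [(8000, 0),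
    (16000, 0), (13280, 11040), (8000, 10400)] (.leaf ⟨10, 0, 0, 0⟩))

theorem ok6as_1 : chkT cF6mn cF6mn T6as_1 (13600, 64) (15360, 64) dum nA nS = true := by
  decide +kernel

/-- tree -/
def T6as_2 : CT := .rel1 [(6720, 0), (16000, 0), (13280, 11040), (6720, 10400)] (.rel2 [(8000, 0),
    (16000, 0), (13280, 11040), (8000, 10400)] (.rel2 [(8000, 0), (16000, 0), (8000, 32471)]
    (.leaf ⟨2, 0, 0, 10⟩)))

theorem ok6as_2 : chkT cF6mn cF6mn T6as_2 (15360, 64) (15408, 1440) dum nA nS = true := by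
  decide +kernel

/-- tree -/
def T6as_3 : CT := .rel1 [(6720, 0), (16000, 0), (13280, 11040), (6720, 10400)] (.rel2 [(8000, 0),
    (16000, 0), (13280, 11040), (8000, 10400)] (.rel1 [(6720, 0), (16000, 0), (6720, 37666)]
    (.leaf ⟨0, 8, 5, 0⟩)))

theorem ok6as_3 : chkT cF6mn cF6mn T6as_3 (15408, 1440) (14720, 3200) dum nA nS = true := by
  decide +kernel

/-- tree -/
def T6as_4 : CT := .rel1 [(6720, 0), (16000, 0), (13280, 11040), (6720, 10400)] (.rel2 [(8000, 0),
    (16000, 0), (13280, 11040), (8000, 10400)] (.rel1 [(6720, 0), (16000, 0), (6720, 37666)]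
    (.rel2 [(8000, 0), (16000, 0), (8000, 32471)] (.leaf ⟨10, 0, 2, 0⟩))))

theorem ok6as_4 : chkT cF6mn cF6mn T6as_4 (14720, 3200) (13280, 3200) dum nA nS = true := by
  decide +kernel

/-- tree -/
def T6as_5 : CT := .rel1 [(6720, 0), (16000, 0), (13280, 11040), (6720, 10400)] (.rel2 [(8000, 0),
    (16000, 0), (13280, 11040), (8000, 10400)] (.rel1 [(6720, 0), (16000, 0), (6720, 37666)]
    (.rel2 [(8000, 0), (16000, 0), (8000, 32471)] (.leaf ⟨8, 0, 0, 5⟩))))

theorem ok6as_5 : chkT cF6mn cF6mn T6as_5 (13280, 3200) (12640, 2400) dum nA nS = true := by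
  decide +kernel

/-- tree -/
def T6as_6 : CT := .rel1 [(6720, 0), (16000, 0), (13280, 11040), (6720, 10400)] (.rel2 [(8000, 0),
    (16000, 0), (13280, 11040), (8000, 10400)] (.rel1 [(6720, 0), (16000, 0), (6720, 37666)]
    (.leaf ⟨7, 0, 7, 0⟩)))

theorem ok6as_6 : chkT cF6mn cF6mn T6as_6 (12640, 2400) (12640, 720) dum nA nS = true := by
  decide +kernel

theorem fr6as {z k l : ℂ} (hz : OnE (vt .t6) z) (hk : conj k ∈ Poly pA) (hl : l ∈ Poly pS) :
    k ^ 2 + l ^ 2 - 2 * k * l * (32 * z ^ 6 - 48 * z ^ 4 + 18 * z ^ 2 - 1) + (z * (32 * z ^ 5 - 32 * z ^ 3 + 6 * z)) ^ 2 ≠ 0 := by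
  have h := edge_use rpF6mn (E := L6as) (V0 := dum) (V1 := nA) (V2 := nS) (fun e he => by
    simp only [L6as, List.mem_cons, List.not_mem_nil, or_false] at he
    rcases he with rfl | rfl | rfl | rfl | rfl | rfl | rfl
    exacts [⟨_, ok6as_0⟩, ⟨_, ok6as_1⟩, ⟨_, ok6as_2⟩, ⟨_, ok6as_3⟩, ⟨_, ok6as_4⟩, ⟨_, ok6as_5⟩, ⟨_, ok6as_6⟩]) (V := vt .t6) (by decide) hz zero_dum (rgA hk) (rgS hl)
  rw [evF6mn (mr_true k) (mr_false l)] at h
  exact fun h0 => h (by rw [h0, mul_zero])

/-- edges -/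
def L6ss : List ((ℕ × ℕ) × (ℕ × ℕ)) :=
  [((12640, 720), (13600, 64)), ((13600, 64), (15360, 64)), ((15360, 64), (15408, 1440)), ((15408,
    1440), (14720, 3200)), ((14720, 3200), (13280, 3200)), ((13280, 3200), (12640, 2400)),
    ((12640, 2400), (12640, 720))]

/-- tree -/
def T6ss_0 : CT := .rel1 [(8000, 0), (16000, 0), (13280, 11040), (8000, 10400)] (.rel2 [(8000, 0),
    (16000, 0), (13280, 11040), (8000, 10400)] (.rel1 [(8000, 0), (16000, 0), (8000, 32471)]
    (.rel2 [(8000, 0), (16000, 0), (8000, 32471)] (.leaf ⟨8, 0, 0, 29⟩))))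

theorem ok6ss_0 : chkT cF6nn cF6nn T6ss_0 (12640, 720) (13600, 64) dum nS nS = true := by
  decide +kernel

/-- tree -/
def T6ss_1 : CT := .rel1 [(8000, 0), (16000, 0), (13280, 11040), (8000, 10400)] (.rel2 [(8000, 0),
    (16000, 0), (13280, 11040), (8000, 10400)] (.rel1 [(8000, 0), (16000, 0), (8000, 32471)]
    (.rel2 [(8000, 0), (16000, 0), (8000, 32471)] (.leaf ⟨3, 0, 0, 10⟩))))

theorem ok6ss_1 : chkT cF6nn cF6nn T6ss_1 (13600, 64) (15360, 64) dum nS nS = true := by
  decide +kernel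

/-- tree -/
def T6ss_2 : CT := .rel1 [(8000, 0), (16000, 0), (13280, 11040), (8000, 10400)] (.rel2 [(8000, 0),
    (16000, 0), (13280, 11040), (8000, 10400)] (.rel1 [(8000, 0), (16000, 0), (8000, 32471)]
    (.rel2 [(8000, 0), (16000, 0), (8000, 32471)] (.leaf ⟨3, 0, 0, 10⟩))))

theorem ok6ss_2 : chkT cF6nn cF6nn T6ss_2 (15360, 64) (15408, 1440) dum nS nS = true := by
  decide +kernel

/-- tree -/
def T6ss_3 : CT := .rel1 [(8000, 0), (16000, 0), (13280, 11040), (8000, 10400)] (.rel2 [(8000, 0),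
    (16000, 0), (13280, 11040), (8000, 10400)] (.rel1 [(8000, 0), (16000, 0), (8000, 32471)]
    (.rel2 [(8000, 0), (16000, 0), (8000, 32471)] (.leaf ⟨0, 9, 4, 0⟩))))

theorem ok6ss_3 : chkT cF6nn cF6nn T6ss_3 (15408, 1440) (14720, 3200) dum nS nS = true := by
  decide +kernel

/-- tree -/
def T6ss_4 : CT := .rel1 [(8000, 0), (16000, 0), (13280, 11040), (8000, 10400)] (.rel2 [(8000, 0),
    (16000, 0), (13280, 11040), (8000, 10400)] (.leaf ⟨9, 0, 5, 0⟩))

theorem ok6ss_4 : chkT cF6nn cF6nn T6ss_4 (14720, 3200) (13280, 3200) dum nS nS = true := by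
  decide +kernel

/-- tree -/
def T6ss_5 : CT := .rel1 [(8000, 0), (16000, 0), (13280, 11040), (8000, 10400)] (.rel2 [(8000, 0),
    (16000, 0), (13280, 11040), (8000, 10400)] (.rel1 [(8000, 0), (16000, 0), (8000, 32471)]
    (.leaf ⟨2, 0, 0, 10⟩)))

theorem ok6ss_5 : chkT cF6nn cF6nn T6ss_5 (13280, 3200) (12640, 2400) dum nS nS = true := by
  decide +kernel

/-- tree -/
def T6ss_6 : CT := .rel1 [(8000, 0), (16000, 0), (13280, 11040), (8000, 10400)] (.rel2 [(8000, 0),
    (16000, 0), (13280, 11040), (8000, 10400)] (.rel1 [(8000, 0), (16000, 0), (8000, 32471)]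
    (.leaf ⟨3, 0, 0, 10⟩)))

theorem ok6ss_6 : chkT cF6nn cF6nn T6ss_6 (12640, 2400) (12640, 720) dum nS nS = true := by
  decide +kernel

theorem fr6ss {z k l : ℂ} (hz : OnE (vt .t6) z) (hk : k ∈ Poly pS) (hl : l ∈ Poly pS) :
    k ^ 2 + l ^ 2 - 2 * k * l * (32 * z ^ 6 - 48 * z ^ 4 + 18 * z ^ 2 - 1) + (z * (32 * z ^ 5 - 32 * z ^ 3 + 6 * z)) ^ 2 ≠ 0 := by
  have h := edge_use rpF6nn (E := L6ss) (V0 := dum) (V1 := nS) (V2 := nS) (fun e he => by
    simp only [L6ss, List.mem_cons, List.not_mem_nil, or_false] at he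
    rcases he with rfl | rfl | rfl | rfl | rfl | rfl | rfl
    exacts [⟨_, ok6ss_0⟩, ⟨_, ok6ss_1⟩, ⟨_, ok6ss_2⟩, ⟨_, ok6ss_3⟩, ⟨_, ok6ss_4⟩, ⟨_, ok6ss_5⟩, ⟨_, ok6ss_6⟩]) (V := vt .t6) (by decide) hz zero_dum (rgS hk) (rgS hl)
  rw [evF6nn (mr_false k) (mr_false l)] at h
  exact fun h0 => h (by rw [h0, mul_zero])

/-- edges -/
def L6ae : List ((ℕ × ℕ) × (ℕ × ℕ)) :=
  [((12640, 720), (13600, 64)), ((13600, 64), (15360, 64)), ((15360, 64), (15408, 1440)), ((15408,
    1440), (14720, 3200)), ((14720, 3200), (13280, 3200)), ((13280, 3200), (12640, 2400)),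
    ((12640, 2400), (12640, 720))]

/-- tree -/
def T6ae_0 : CT := .rel2 [(6720, 0), (16000, 0), (6720, 37123)] (.leaf ⟨6, 0, 8, 0⟩)

theorem ok6ae_0 : chkT cG6m cG6m T6ae_0 (12640, 720) (13600, 64) dum dum nA = true := by
  decide +kernel

/-- tree -/
def T6ae_1 : CT := .rel2 [(6720, 0), (16000, 0), (6720, 37123)] (.leaf ⟨10, 0, 0, 0⟩)

theorem ok6ae_1 : chkT cG6m cG6m T6ae_1 (13600, 64) (15360, 64) dum dum nA = true := by
  decide +kernel

/-- tree -/
def T6ae_2 : CT := .rel2 [(6720, 0), (16000, 0), (6720, 37120)] (.leaf ⟨0, 7, 0, 7⟩)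

theorem ok6ae_2 : chkT cG6m cG6m T6ae_2 (15360, 64) (15408, 1440) dum dum nA = true := by
  decide +kernel

/-- tree -/
def T6ae_3 : CT := .rel2 [(6720, 0), (16000, 0), (6720, 37120)] (.leaf ⟨0, 9, 3, 0⟩)

theorem ok6ae_3 : chkT cG6m cG6m T6ae_3 (15408, 1440) (14720, 3200) dum dum nA = true := by
  decide +kernel

/-- tree -/
def T6ae_4 : CT := .rel2 [(6720, 0), (16000, 0), (6720, 37123)] (.leaf ⟨0, 3, 10, 0⟩)

theorem ok6ae_4 : chkT cG6m cG6m T6ae_4 (14720, 3200) (13280, 3200) dum dum nA = true := by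
  decide +kernel

/-- tree -/
def T6ae_5 : CT := .rel2 [(6720, 0), (16000, 0), (6720, 37123)] (.leaf ⟨2, 0, 10, 0⟩)

theorem ok6ae_5 : chkT cG6m cG6m T6ae_5 (13280, 3200) (12640, 2400) dum dum nA = true := by
  decide +kernel

/-- tree -/
def T6ae_6 : CT := .rel2 [(6720, 0), (16000, 0), (6720, 37123)] (.leaf ⟨3, 0, 10, 0⟩)

theorem ok6ae_6 : chkT cG6m cG6m T6ae_6 (12640, 2400) (12640, 720) dum dum nA = true := by
  decide +kernel

theorem fr6ae {z k : ℂ} (hz : OnE (vt .t6) z) (hk : conj k ∈ Poly pA) :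
    k + Complex.I * z * (32 * z ^ 5 - 32 * z ^ 3 + 6 * z) ≠ 0 := by
  have h := edge_use rpG6m (E := L6ae) (V0 := dum) (V1 := dum) (V2 := nA) (fun e he => by
    simp only [L6ae, List.mem_cons, List.not_mem_nil, or_false] at he
    rcases he with rfl | rfl | rfl | rfl | rfl | rfl | rfl
    exacts [⟨_, ok6ae_0⟩, ⟨_, ok6ae_1⟩, ⟨_, ok6ae_2⟩, ⟨_, ok6ae_3⟩, ⟨_, ok6ae_4⟩, ⟨_, ok6ae_5⟩, ⟨_, ok6ae_6⟩]) (V := vt .t6) (by decide) hz zero_dum zero_dum (rgA hk)
  rw [evG6m (mr_true k)] at h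
  exact fun h0 => h (by rw [h0, mul_zero])

/-- edges -/
def L6se : List ((ℕ × ℕ) × (ℕ × ℕ)) :=
  [((12640, 720), (13600, 64)), ((13600, 64), (15360, 64)), ((15360, 64), (15408, 1440)), ((15408,
    1440), (14720, 3200)), ((14720, 3200), (13280, 3200)), ((13280, 3200), (12640, 2400)),
    ((12640, 2400), (12640, 720))]

/-- tree -/
def T6se_0 : CT := .rel2 [(8000, 0), (16000, 0), (8000, 32006)] (.leaf ⟨10, 0, 0, 0⟩)

theorem ok6se_0 : chkT cG6n cG6n T6se_0 (12640, 720) (13600, 64) dum dum nS = true := by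
  decide +kernel

/-- tree -/
def T6se_1 : CT := .rel2 [(8000, 0), (16000, 0), (8000, 32006)] (.leaf ⟨9, 0, 0, 4⟩)

theorem ok6se_1 : chkT cG6n cG6n T6se_1 (13600, 64) (15360, 64) dum dum nS = true := by
  decide +kernel

/-- tree -/
def T6se_2 : CT := .rel2 [(8000, 0), (16000, 0), (8000, 32006)] (.leaf ⟨0, 5, 0, 9⟩)

theorem ok6se_2 : chkT cG6n cG6n T6se_2 (15360, 64) (15408, 1440) dum dum nS = true := by
  decide +kernel

/-- tree -/
def T6se_3 : CT := .rel2 [(8000, 0), (16000, 0), (8000, 32000)] (.leaf ⟨0, 10, 1, 0⟩)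

theorem ok6se_3 : chkT cG6n cG6n T6se_3 (15408, 1440) (14720, 3200) dum dum nS = true := by
  decide +kernel

/-- tree -/
def T6se_4 : CT := .rel2 [(8000, 0), (16000, 0), (8000, 32006)] (.leaf ⟨0, 4, 9, 0⟩)

theorem ok6se_4 : chkT cG6n cG6n T6se_4 (14720, 3200) (13280, 3200) dum dum nS = true := by
  decide +kernel

/-- tree -/
def T6se_5 : CT := .rel2 [(8000, 0), (16000, 0), (8000, 32000)] (.leaf ⟨4, 0, 9, 0⟩)

theorem ok6se_5 : chkT cG6n cG6n T6se_5 (13280, 3200) (12640, 2400) dum dum nS = true := by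
  decide +kernel

/-- tree -/
def T6se_6 : CT := .rel2 [(8000, 0), (16000, 0), (8000, 32000)] (.leaf ⟨10, 0, 1, 0⟩)

theorem ok6se_6 : chkT cG6n cG6n T6se_6 (12640, 2400) (12640, 720) dum dum nS = true := by
  decide +kernel

theorem fr6se {z k : ℂ} (hz : OnE (vt .t6) z) (hk : k ∈ Poly pS) :
    k + Complex.I * z * (32 * z ^ 5 - 32 * z ^ 3 + 6 * z) ≠ 0 := by
  have h := edge_use rpG6n (E := L6se) (V0 := dum) (V1 := dum) (V2 := nS) (fun e he => by
    simp only [L6se, List.mem_cons, List.not_mem_nil, or_false] at he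
    rcases he with rfl | rfl | rfl | rfl | rfl | rfl | rfl
    exacts [⟨_, ok6se_0⟩, ⟨_, ok6se_1⟩, ⟨_, ok6se_2⟩, ⟨_, ok6se_3⟩, ⟨_, ok6se_4⟩, ⟨_, ok6se_5⟩, ⟨_, ok6se_6⟩]) (V := vt .t6) (by decide) hz zero_dum zero_dum (rgS hk)
  rw [evG6n (mr_false k)] at h
  exact fun h0 => h (by rw [h0, mul_zero])

end Pool.Agent.Work.MP_b30479_gtS.G2.SC

end

section

/-!
# Frontier of the rings with 7 crossings

Generated certificates (see `S2Cert`).
-/

set_option linter.style.longLine false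

set_option deprecated.oldSectionVars true

namespace Pool.Agent.Work.MP_b30479_gtS.G2.SC

open scoped ComplexConjugate

/-- edges -/
def L7aa : List ((ℕ × ℕ) × (ℕ × ℕ)) :=
  [((13280, 480), (13920, 16)), ((13920, 16), (15280, 16)), ((15280, 16), (15440, 800)), ((15440,
    800), (14960, 2080)), ((14960, 2080), (13760, 2080)), ((13760, 2080), (13280, 1760)), ((13280,
    1760), (13280, 480))]

/-- tree -/
def T7aa_0 : CT := .rel1 [(6720, 0), (16000, 0), (13280, 11040), (6720, 10400)] (.rel2 [(6720, 0),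
    (16000, 0), (13280, 11040), (6720, 10400)] (.rel1 [(6720, 0), (16000, 0), (6720, 37666)]
    (.rel2 [(6720, 0), (16000, 0), (6720, 37666)] (.leaf ⟨2, 0, 10, 0⟩))))

theorem ok7aa_0 : chkT cF7mm cF7mm T7aa_0 (13280, 480) (13920, 16) dum nA nA = true := by
  decide +kernel

/-- tree -/
def T7aa_1 : CT := .rel1 [(6720, 0), (16000, 0), (13280, 11040), (6720, 10400)] (.rel2 [(6720, 0),
    (16000, 0), (13280, 11040), (6720, 10400)] (.rel1 [(6720, 0), (16000, 0), (6720, 37666)]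
    (.rel2 [(6720, 0), (16000, 0), (6720, 37666)] (.leaf ⟨2, 0, 10, 0⟩))))

theorem ok7aa_1 : chkT cF7mm cF7mm T7aa_1 (13920, 16) (15280, 16) dum nA nA = true := by
  decide +kernel

/-- tree -/
def T7aa_2 : CT := .rel1 [(6720, 0), (16000, 0), (13280, 11040), (6720, 10400)] (.rel2 [(6720, 0),
    (16000, 0), (13280, 11040), (6720, 10400)] (.leaf ⟨6, 0, 0, 8⟩))

theorem ok7aa_2 : chkT cF7mm cF7mm T7aa_2 (15280, 16) (15440, 800) dum nA nA = true := by
  decide +kernel

/-- tree -/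
def T7aa_3 : CT := .rel1 [(6720, 0), (16000, 0), (13280, 11040), (6720, 10400)] (.rel2 [(6720, 0),
    (16000, 0), (13280, 11040), (6720, 10400)] (.rel1 [(6720, 0), (16000, 0), (6720, 37666)]
    (.rel2 [(6720, 0), (16000, 0), (6720, 37666)] (.leaf ⟨0, 10, 2, 0⟩))))

theorem ok7aa_3 : chkT cF7mm cF7mm T7aa_3 (15440, 800) (14960, 2080) dum nA nA = true := by
  decide +kernel

/-- tree -/
def T7aa_4 : CT := .rel1 [(6720, 0), (16000, 0), (13280, 11040), (6720, 10400)] (.rel2 [(6720, 0),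
    (16000, 0), (13280, 11040), (6720, 10400)] (.rel1 [(6720, 0), (16000, 0), (6720, 37666)]
    (.rel2 [(6720, 0), (16000, 0), (6720, 37666)] (.leaf ⟨4, 0, 9, 0⟩))))

theorem ok7aa_4 : chkT cF7mm cF7mm T7aa_4 (14960, 2080) (13760, 2080) dum nA nA = true := by
  decide +kernel

/-- tree -/
def T7aa_5 : CT := .rel1 [(6720, 0), (16000, 0), (13280, 11040), (6720, 10400)] (.rel2 [(6720, 0),
    (16000, 0), (13280, 11040), (6720, 10400)] (.rel1 [(6720, 0), (16000, 0), (6720, 37666)]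
    (.rel2 [(6720, 0), (16000, 0), (6720, 37666)] (.leaf ⟨8, 0, 7, 0⟩))))

theorem ok7aa_5 : chkT cF7mm cF7mm T7aa_5 (13760, 2080) (13280, 1760) dum nA nA = true := by
  decide +kernel

/-- tree -/
def T7aa_6 : CT := .rel1 [(6720, 0), (16000, 0), (13280, 11040), (6720, 10400)] (.rel2 [(6720, 0),
    (16000, 0), (13280, 11040), (6720, 10400)] (.rel1 [(6720, 0), (16000, 0), (6720, 37666)]
    (.rel2 [(6720, 0), (16000, 0), (6720, 37666)] (.leaf ⟨5, 0, 9, 0⟩))))

theorem ok7aa_6 : chkT cF7mm cF7mm T7aa_6 (13280, 1760) (13280, 480) dum nA nA = true := by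
  decide +kernel

theorem fr7aa {z k l : ℂ} (hz : OnE (vt .t7) z) (hk : conj k ∈ Poly pA) (hl : conj l ∈ Poly pA) :
    k ^ 2 + l ^ 2 - 2 * k * l * (64 * z ^ 7 - 112 * z ^ 5 + 56 * z ^ 3 - 7 * z) + (z * (64 * z ^ 6 - 80 * z ^ 4 + 24 * z ^ 2 - 1)) ^ 2 ≠ 0 := by
  have h := edge_use rpF7mm (E := L7aa) (V0 := dum) (V1 := nA) (V2 := nA) (fun e he => by
    simp only [L7aa, List.mem_cons, List.not_mem_nil, or_false] at he
    rcases he with rfl | rfl | rfl | rfl | rfl | rfl | rfl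
    exacts [⟨_, ok7aa_0⟩, ⟨_, ok7aa_1⟩, ⟨_, ok7aa_2⟩, ⟨_, ok7aa_3⟩, ⟨_, ok7aa_4⟩, ⟨_, ok7aa_5⟩, ⟨_, ok7aa_6⟩]) (V := vt .t7) (by decide) hz zero_dum (rgA hk) (rgA hl)
  rw [evF7mm (mr_true k) (mr_true l)] at h
  exact fun h0 => h (by rw [h0, mul_zero])

/-- edges -/
def L7as : List ((ℕ × ℕ) × (ℕ × ℕ)) :=
  [((13280, 480), (13920, 16)), ((13920, 16), (15280, 16)), ((15280, 16), (15440, 800)), ((15440,
    800), (14960, 2080)), ((14960, 2080), (13760, 2080)), ((13760, 2080), (13280, 1760)), ((13280,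
    1760), (13280, 480))]

/-- tree -/
def T7as_0 : CT := .rel1 [(6720, 0), (16000, 0), (13280, 11040), (6720, 10400)] (.rel2 [(8000, 0),
    (16000, 0), (13280, 11040), (8000, 10400)] (.rel2 [(8000, 0), (16000, 0), (8000, 32471)]
    (.leaf ⟨23, 0, 0, 19⟩)))

theorem ok7as_0 : chkT cF7mn cF7mn T7as_0 (13280, 480) (13920, 16) dum nA nS = true := by
  decide +kernel

/-- tree -/
def T7as_1 : CT := .rel1 [(6720, 0), (16000, 0), (13280, 11040), (6720, 10400)] (.rel2 [(8000, 0),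
    (16000, 0), (13280, 11040), (8000, 10400)] (.leaf ⟨10, 0, 0, 0⟩))

theorem ok7as_1 : chkT cF7mn cF7mn T7as_1 (13920, 16) (15280, 16) dum nA nS = true := by
  decide +kernel

/-- tree -/
def T7as_2 : CT := .rel1 [(6720, 0), (16000, 0), (13280, 11040), (6720, 10400)] (.rel2 [(8000, 0),
    (16000, 0), (13280, 11040), (8000, 10400)] (.rel2 [(8000, 0), (16000, 0), (8000, 32471)]
    (.leaf ⟨6, 0, 0, 8⟩)))

theorem ok7as_2 : chkT cF7mn cF7mn T7as_2 (15280, 16) (15440, 800) dum nA nS = true := by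
  decide +kernel

/-- tree -/
def T7as_3 : CT := .rel1 [(6720, 0), (16000, 0), (13280, 11040), (6720, 10400)] (.rel2 [(8000, 0),
    (16000, 0), (13280, 11040), (8000, 10400)] (.rel1 [(6720, 0), (16000, 0), (6720, 37666)]
    (.leaf ⟨0, 10, 2, 0⟩)))

theorem ok7as_3 : chkT cF7mn cF7mn T7as_3 (15440, 800) (14960, 2080) dum nA nS = true := by
  decide +kernel

/-- tree -/
def T7as_4 : CT := .rel1 [(6720, 0), (16000, 0), (13280, 11040), (6720, 10400)] (.rel2 [(8000, 0),
    (16000, 0), (13280, 11040), (8000, 10400)] (.rel1 [(6720, 0), (16000, 0), (6720, 37666)]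
    (.rel2 [(8000, 0), (16000, 0), (8000, 32471)] (.leaf ⟨9, 0, 4, 0⟩))))

theorem ok7as_4 : chkT cF7mn cF7mn T7as_4 (14960, 2080) (13760, 2080) dum nA nS = true := by
  decide +kernel

/-- tree -/
def T7as_5 : CT := .rel1 [(6720, 0), (16000, 0), (13280, 11040), (6720, 10400)] (.rel2 [(8000, 0),
    (16000, 0), (13280, 11040), (8000, 10400)] (.rel1 [(6720, 0), (16000, 0), (6720, 37666)]
    (.rel2 [(8000, 0), (16000, 0), (8000, 32471)] (.leaf ⟨8, 0, 0, 6⟩))))

theorem ok7as_5 : chkT cF7mn cF7mn T7as_5 (13760, 2080) (13280, 1760) dum nA nS = true := by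
  decide +kernel

/-- tree -/
def T7as_6 : CT := .rel1 [(6720, 0), (16000, 0), (13280, 11040), (6720, 10400)] (.rel2 [(8000, 0),
    (16000, 0), (13280, 11040), (8000, 10400)] (.rel2 [(8000, 0), (16000, 0), (8000, 32471)]
    (.leaf ⟨6, 0, 0, 8⟩)))

theorem ok7as_6 : chkT cF7mn cF7mn T7as_6 (13280, 1760) (13280, 480) dum nA nS = true := by
  decide +kernel

theorem fr7as {z k l : ℂ} (hz : OnE (vt .t7) z) (hk : conj k ∈ Poly pA) (hl : l ∈ Poly pS) :
    k ^ 2 + l ^ 2 - 2 * k * l * (64 * z ^ 7 - 112 * z ^ 5 + 56 * z ^ 3 - 7 * z) + (z * (64 * z ^ 6 - 80 * z ^ 4 + 24 * z ^ 2 - 1)) ^ 2 ≠ 0 := by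
  have h := edge_use rpF7mn (E := L7as) (V0 := dum) (V1 := nA) (V2 := nS) (fun e he => by
    simp only [L7as, List.mem_cons, List.not_mem_nil, or_false] at he
    rcases he with rfl | rfl | rfl | rfl | rfl | rfl | rfl
    exacts [⟨_, ok7as_0⟩, ⟨_, ok7as_1⟩, ⟨_, ok7as_2⟩, ⟨_, ok7as_3⟩, ⟨_, ok7as_4⟩, ⟨_, ok7as_5⟩, ⟨_, ok7as_6⟩]) (V := vt .t7) (by decide) hz zero_dum (rgA hk) (rgS hl)
  rw [evF7mn (mr_true k) (mr_false l)] at h
  exact fun h0 => h (by rw [h0, mul_zero])

/-- edges -/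
def L7ss : List ((ℕ × ℕ) × (ℕ × ℕ)) :=
  [((13280, 480), (13920, 16)), ((13920, 16), (15280, 16)), ((15280, 16), (15440, 800)), ((15440,
    800), (14960, 2080)), ((14960, 2080), (13760, 2080)), ((13760, 2080), (13280, 1760)), ((13280,
    1760), (13280, 480))]

/-- tree -/
def T7ss_0 : CT := .rel1 [(8000, 0), (16000, 0), (13280, 11040), (8000, 10400)] (.rel2 [(8000, 0),
    (16000, 0), (13280, 11040), (8000, 10400)] (.rel1 [(8000, 0), (16000, 0), (8000, 32471)]
    (.rel2 [(8000, 0), (16000, 0), (8000, 32471)] (.leaf ⟨2, 0, 0, 10⟩))))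

theorem ok7ss_0 : chkT cF7nn cF7nn T7ss_0 (13280, 480) (13920, 16) dum nS nS = true := by
  decide +kernel

/-- tree -/
def T7ss_1 : CT := .rel1 [(8000, 0), (16000, 0), (13280, 11040), (8000, 10400)] (.rel2 [(8000, 0),
    (16000, 0), (13280, 11040), (8000, 10400)] (.rel1 [(8000, 0), (16000, 0), (8000, 32471)]
    (.rel2 [(8000, 0), (16000, 0), (8000, 32471)] (.leaf ⟨2, 0, 0, 10⟩))))

theorem ok7ss_1 : chkT cF7nn cF7nn T7ss_1 (13920, 16) (15280, 16) dum nS nS = true := by
  decide +kernel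

/-- tree -/
def T7ss_2 : CT := .rel1 [(8000, 0), (16000, 0), (13280, 11040), (8000, 10400)] (.rel2 [(8000, 0),
    (16000, 0), (13280, 11040), (8000, 10400)] (.rel1 [(8000, 0), (16000, 0), (8000, 32471)]
    (.rel2 [(8000, 0), (16000, 0), (8000, 32471)] (.leaf ⟨5, 0, 0, 9⟩))))

theorem ok7ss_2 : chkT cF7nn cF7nn T7ss_2 (15280, 16) (15440, 800) dum nS nS = true := by
  decide +kernel

/-- tree -/
def T7ss_3 : CT := .rel1 [(8000, 0), (16000, 0), (13280, 11040), (8000, 10400)] (.rel2 [(8000, 0),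
    (16000, 0), (13280, 11040), (8000, 10400)] (.rel1 [(8000, 0), (16000, 0), (8000, 32471)]
    (.rel2 [(8000, 0), (16000, 0), (8000, 32471)] (.leaf ⟨0, 10, 2, 0⟩))))

theorem ok7ss_3 : chkT cF7nn cF7nn T7ss_3 (15440, 800) (14960, 2080) dum nS nS = true := by
  decide +kernel

/-- tree -/
def T7ss_4 : CT := .rel1 [(8000, 0), (16000, 0), (13280, 11040), (8000, 10400)] (.rel2 [(8000, 0),
    (16000, 0), (13280, 11040), (8000, 10400)] (.leaf ⟨7, 0, 7, 0⟩))

theorem ok7ss_4 : chkT cF7nn cF7nn T7ss_4 (14960, 2080) (13760, 2080) dum nS nS = true := by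
  decide +kernel

/-- tree -/
def T7ss_5 : CT := .rel1 [(8000, 0), (16000, 0), (13280, 11040), (8000, 10400)] (.rel2 [(8000, 0),
    (16000, 0), (13280, 11040), (8000, 10400)] (.leaf ⟨9, 0, 0, 3⟩))

theorem ok7ss_5 : chkT cF7nn cF7nn T7ss_5 (13760, 2080) (13280, 1760) dum nS nS = true := by
  decide +kernel

/-- tree -/
def T7ss_6 : CT := .rel1 [(8000, 0), (16000, 0), (13280, 11040), (8000, 10400)] (.rel2 [(8000, 0),
    (16000, 0), (13280, 11040), (8000, 10400)] (.rel1 [(8000, 0), (16000, 0), (8000, 32471)]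
    (.leaf ⟨2, 0, 0, 10⟩)))

theorem ok7ss_6 : chkT cF7nn cF7nn T7ss_6 (13280, 1760) (13280, 480) dum nS nS = true := by
  decide +kernel

theorem fr7ss {z k l : ℂ} (hz : OnE (vt .t7) z) (hk : k ∈ Poly pS) (hl : l ∈ Poly pS) :
    k ^ 2 + l ^ 2 - 2 * k * l * (64 * z ^ 7 - 112 * z ^ 5 + 56 * z ^ 3 - 7 * z) + (z * (64 * z ^ 6 - 80 * z ^ 4 + 24 * z ^ 2 - 1)) ^ 2 ≠ 0 := by
  have h := edge_use rpF7nn (E := L7ss) (V0 := dum) (V1 := nS) (V2 := nS) (fun e he => by
    simp only [L7ss, List.mem_cons, List.not_mem_nil, or_false] at he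
    rcases he with rfl | rfl | rfl | rfl | rfl | rfl | rfl
    exacts [⟨_, ok7ss_0⟩, ⟨_, ok7ss_1⟩, ⟨_, ok7ss_2⟩, ⟨_, ok7ss_3⟩, ⟨_, ok7ss_4⟩, ⟨_, ok7ss_5⟩, ⟨_, ok7ss_6⟩]) (V := vt .t7) (by decide) hz zero_dum (rgS hk) (rgS hl)
  rw [evF7nn (mr_false k) (mr_false l)] at h
  exact fun h0 => h (by rw [h0, mul_zero])

/-- edges -/
def L7ae : List ((ℕ × ℕ) × (ℕ × ℕ)) :=
  [((13280, 480), (13920, 16)), ((13920, 16), (15280, 16)), ((15280, 16), (15440, 800)), ((15440,
    800), (14960, 2080)), ((14960, 2080), (13760, 2080)), ((13760, 2080), (13280, 1760)), ((13280,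
    1760), (13280, 480))]

/-- tree -/
def T7ae_0 : CT := .rel2 [(6720, 0), (16000, 0), (6720, 37123)] (.leaf ⟨5, 0, 9, 0⟩)

theorem ok7ae_0 : chkT cG7m cG7m T7ae_0 (13280, 480) (13920, 16) dum dum nA = true := by
  decide +kernel

/-- tree -/
def T7ae_1 : CT := .rel2 [(6720, 0), (16000, 0), (6720, 37123)] (.leaf ⟨10, 0, 0, 0⟩)

theorem ok7ae_1 : chkT cG7m cG7m T7ae_1 (13920, 16) (15280, 16) dum dum nA = true := by
  decide +kernel

/-- tree -/
def T7ae_2 : CT := .rel2 [(6720, 0), (16000, 0), (6720, 37120)] (.leaf ⟨0, 4, 0, 9⟩)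

theorem ok7ae_2 : chkT cG7m cG7m T7ae_2 (15280, 16) (15440, 800) dum dum nA = true := by
  decide +kernel

/-- tree -/
def T7ae_3 : CT := .rel2 [(6720, 0), (16000, 0), (6720, 37120)] (.leaf ⟨0, 10, 1, 0⟩)

theorem ok7ae_3 : chkT cG7m cG7m T7ae_3 (15440, 800) (14960, 2080) dum dum nA = true := by
  decide +kernel

/-- tree -/
def T7ae_4 : CT := .rel2 [(6720, 0), (16000, 0), (6720, 37123)] (.leaf ⟨0, 3, 9, 0⟩)

theorem ok7ae_4 : chkT cG7m cG7m T7ae_4 (14960, 2080) (13760, 2080) dum dum nA = true := by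
  decide +kernel

/-- tree -/
def T7ae_5 : CT := .rel2 [(6720, 0), (16000, 0), (6720, 37123)] (.leaf ⟨2, 0, 10, 0⟩)

theorem ok7ae_5 : chkT cG7m cG7m T7ae_5 (13760, 2080) (13280, 1760) dum dum nA = true := by
  decide +kernel

/-- tree -/
def T7ae_6 : CT := .rel2 [(6720, 0), (16000, 0), (6720, 37123)] (.leaf ⟨3, 0, 10, 0⟩)

theorem ok7ae_6 : chkT cG7m cG7m T7ae_6 (13280, 1760) (13280, 480) dum dum nA = true := by
  decide +kernel

theorem fr7ae {z k : ℂ} (hz : OnE (vt .t7) z) (hk : conj k ∈ Poly pA) :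
    k + Complex.I * z * (64 * z ^ 6 - 80 * z ^ 4 + 24 * z ^ 2 - 1) ≠ 0 := by
  have h := edge_use rpG7m (E := L7ae) (V0 := dum) (V1 := dum) (V2 := nA) (fun e he => by
    simp only [L7ae, List.mem_cons, List.not_mem_nil, or_false] at he
    rcases he with rfl | rfl | rfl | rfl | rfl | rfl | rfl
    exacts [⟨_, ok7ae_0⟩, ⟨_, ok7ae_1⟩, ⟨_, ok7ae_2⟩, ⟨_, ok7ae_3⟩, ⟨_, ok7ae_4⟩, ⟨_, ok7ae_5⟩, ⟨_, ok7ae_6⟩]) (V := vt .t7) (by decide) hz zero_dum zero_dum (rgA hk)
  rw [evG7m (mr_true k)] at h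
  exact fun h0 => h (by rw [h0, mul_zero])

/-- edges -/
def L7se : List ((ℕ × ℕ) × (ℕ × ℕ)) :=
  [((13280, 480), (13920, 16)), ((13920, 16), (15280, 16)), ((15280, 16), (15440, 800)), ((15440,
    800), (14960, 2080)), ((14960, 2080), (13760, 2080)), ((13760, 2080), (13280, 1760)), ((13280,
    1760), (13280, 480))]

/-- tree -/
def T7se_0 : CT := .rel2 [(8000, 0), (16000, 0), (8000, 32000)] (.leaf ⟨10, 0, 0, 0⟩)

theorem ok7se_0 : chkT cG7n cG7n T7se_0 (13280, 480) (13920, 16) dum dum nS = true := by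
  decide +kernel

/-- tree -/
def T7se_1 : CT := .rel2 [(8000, 0), (16000, 0), (8000, 32006)] (.leaf ⟨10, 0, 0, 2⟩)

theorem ok7se_1 : chkT cG7n cG7n T7se_1 (13920, 16) (15280, 16) dum dum nS = true := by
  decide +kernel

/-- tree -/
def T7se_2 : CT := .rel2 [(8000, 0), (16000, 0), (8000, 32006)] (.leaf ⟨0, 3, 0, 9⟩)

theorem ok7se_2 : chkT cG7n cG7n T7se_2 (15280, 16) (15440, 800) dum dum nS = true := by
  decide +kernel

/-- tree -/
def T7se_3 : CT := .rel2 [(8000, 0), (16000, 0), (8000, 32000)] (.leaf ⟨0, 10, 0, 0⟩)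

theorem ok7se_3 : chkT cG7n cG7n T7se_3 (15440, 800) (14960, 2080) dum dum nS = true := by
  decide +kernel

/-- tree -/
def T7se_4 : CT := .rel2 [(8000, 0), (16000, 0), (8000, 32006)] (.leaf ⟨0, 5, 9, 0⟩)

theorem ok7se_4 : chkT cG7n cG7n T7se_4 (14960, 2080) (13760, 2080) dum dum nS = true := by
  decide +kernel

/-- tree -/
def T7se_5 : CT := .rel2 [(8000, 0), (16000, 0), (8000, 32000)] (.leaf ⟨4, 0, 9, 0⟩)

theorem ok7se_5 : chkT cG7n cG7n T7se_5 (13760, 2080) (13280, 1760) dum dum nS = true := by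
  decide +kernel

/-- tree -/
def T7se_6 : CT := .rel2 [(8000, 0), (16000, 0), (8000, 32000)] (.leaf ⟨10, 0, 2, 0⟩)

theorem ok7se_6 : chkT cG7n cG7n T7se_6 (13280, 1760) (13280, 480) dum dum nS = true := by
  decide +kernel

theorem fr7se {z k : ℂ} (hz : OnE (vt .t7) z) (hk : k ∈ Poly pS) :
    k + Complex.I * z * (64 * z ^ 6 - 80 * z ^ 4 + 24 * z ^ 2 - 1) ≠ 0 := by
  have h := edge_use rpG7n (E := L7se) (V0 := dum) (V1 := dum) (V2 := nS) (fun e he => by
    simp only [L7se, List.mem_cons, List.not_mem_nil, or_false] at he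
    rcases he with rfl | rfl | rfl | rfl | rfl | rfl | rfl
    exacts [⟨_, ok7se_0⟩, ⟨_, ok7se_1⟩, ⟨_, ok7se_2⟩, ⟨_, ok7se_3⟩, ⟨_, ok7se_4⟩, ⟨_, ok7se_5⟩, ⟨_, ok7se_6⟩]) (V := vt .t7) (by decide) hz zero_dum zero_dum (rgS hk)
  rw [evG7n (mr_false k)] at h
  exact fun h0 => h (by rw [h0, mul_zero])

end Pool.Agent.Work.MP_b30479_gtS.G2.SC

end

section

/-!
# Refined rings, round 2, 4 crossings

Generated certificates (see `S2Cert`).
-/

set_option linter.style.longLine false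

set_option deprecated.oldSectionVars true

namespace Pool.Agent.Work.MP_b30479_gtS.G2.SC

open scoped ComplexConjugate

/-- edges -/
def L2_4ea : List ((ℕ × ℕ) × (ℕ × ℕ)) :=
  [((12064, 864), (12448, 784)), ((12448, 784), (12928, 1120)), ((12928, 1120), (13008, 1248)),
      ((13008, 1248), (12224, 2080)), ((12224, 2080), (12128, 1968)), ((12128, 1968), (11968,
      1456)), ((11968, 1456), (12064, 864))]

/-- tree -/
def T2_4ea_0 : CT :=
  .cut2 false 11376 [(6752, 3952), (10704, 1360), (11376, 1120), (11376, 10384), (11312, 10368),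
      (8000, 8016), (6912, 6928)] [(11376, 1120), (14512, 0), (16000, 0), (13136, 10800), (11376,
      10384)] (.cut2 false 9056 [(6752, 3952), (9056, 2440), (9056, 8766), (8000, 8016), (6912,
      6928)] [(9056, 2440), (10704, 1360), (11376, 1120), (11376, 10384), (11312, 10368), (9056,
      8766)] (.cut2 false 7904 [(6752, 3952), (7904, 3196), (7904, 7920), (6912, 6928)] [(7904,
      3196), (9056, 2440), (9056, 8766), (8000, 8016), (7904, 7920)] (.cut2 false 7328 [(6752,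
      3952), (7328, 3574), (7328, 7344), (6912, 6928)] [(7328, 3574), (7904, 3196), (7904, 7920),
      (7328, 7344)] (.cut2 false 7040 [(6752, 3952), (7040, 3763), (7040, 7056), (6912, 6928)]
      [(7040, 3763), (7328, 3574), (7328, 7344), (7040, 7056)] (.cut2 true 5408 [(6752, 3952),
      (7040, 3763), (7040, 5408), (6830, 5408)] [(7040, 5408), (7040, 7056), (6912, 6928), (6830,
      5408)] (.seg (12256, 824) (.seg (12160, 844) (.rel2 [(6752, 3952), (7040, 3763), (7040, 9328)]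
      (.leaf ⟨1, 0, 0, 0⟩)) (.leaf ⟨79, 0, 0, 13⟩)) (.rel2 [(7040, 3763), (7040, 5408), (4532,
      5408)] (.leaf ⟨0, 1, 0, 5⟩))) (.seg (12256, 824) (.rel2 [(6830, 5408), (7040, 5408), (7040,
      9301)] (.leaf ⟨4, 0, 3, 0⟩)) (.seg (12352, 804) (.cut2 true 6224 [(7040, 5408), (7040, 6224),
      (6874, 6224), (6830, 5408)] [(7040, 6224), (7040, 7056), (6912, 6928), (6874, 6224)] (.seg
      (12304, 814) (.rel2 [(6830, 5408), (7040, 5408), (7040, 9303)] (.leaf ⟨1, 0, 0, 0⟩)) (.leaf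
      ⟨39, 0, 0, 9⟩)) (.rel2 [(6874, 6224), (7040, 6224), (7040, 9300)] (.leaf ⟨19, 0, 6, 0⟩)))
      (.cut2 true 6224 [(7040, 5408), (7040, 6224), (6874, 6224), (6830, 5408)] [(7040, 6224),
      (7040, 7056), (6912, 6928), (6874, 6224)] (.leaf ⟨0, 0, 0, 1⟩) (.seg (12400, 794) (.rel2
      [(6874, 6224), (7040, 6224), (7040, 9300)] (.leaf ⟨1, 0, 0, 0⟩)) (.leaf ⟨39, 0, 0, 9⟩))))))
      (.leaf ⟨1, 0, 0, 0⟩)) (.leaf ⟨1, 0, 0, 0⟩)) (.rel2 [(7904, 7920), (7904, 3196), (9056, 2440),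
      (9056, 9072)] (.leaf ⟨1, 0, 0, 0⟩))) (.rel2 [(9056, 8766), (9056, 2440), (11376, 918), (11376,
      10414)] (.leaf ⟨1, 0, 0, 0⟩))) (.rel2 [(16000, 0), (13136, 10800), (11376, 10384), (11375, 0)]
      (.leaf ⟨1, 0, 0, 0⟩))

theorem ok2_4ea_0 :
    chkT cG4m cG4m T2_4ea_0 (12064, 864) (12448, 784) dum dum n2_A2 = true := by
  decide +kernel

/-- tree -/
def T2_4ea_1 : CT :=
  .cut2 true 5392 [(6752, 3952), (10704, 1360), (14512, 0), (16000, 0), (14571, 5392), (6829, 5392)]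
      [(14571, 5392), (13136, 10800), (11312, 10368), (8000, 8016), (6912, 6928), (6829, 5392)]
      (.rel2 [(16000, 0), (14571, 5392), (6829, 5392), (6537, 0)] (.leaf ⟨0, 0, 0, 1⟩)) (.seg
      (12688, 952) (.rel2 [(14571, 5392), (12943, 11528), (8000, 8016), (5375, 5391)] (.leaf ⟨3, 0,
      0, 4⟩)) (.rel2 [(4302, 5390), (14571, 5392), (12943, 11528)] (.leaf ⟨7, 0, 0, 10⟩)))

theorem ok2_4ea_1 :
    chkT cG4m cG4m T2_4ea_1 (12448, 784) (12928, 1120) dum dum n2_A2 = true := by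
  decide +kernel

/-- tree -/
def T2_4ea_2 : CT :=
  .rel2 [(6536, 0), (16000, 0), (13136, 10800), (7040, 9357)] (.leaf ⟨1, 0, 0, 5⟩)

theorem ok2_4ea_2 :
    chkT cG4m cG4m T2_4ea_2 (12928, 1120) (13008, 1248) dum dum n2_A2 = true := by
  decide +kernel

/-- tree -/
def T2_4ea_3 : CT :=
  .cut2 false 11376 [(6752, 3952), (10704, 1360), (11376, 1120), (11376, 10384), (11312, 10368),
      (8000, 8016), (6912, 6928)] [(11376, 1120), (14512, 0), (16000, 0), (13136, 10800), (11376,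
      10384)] (.rel2 [(3806, 3822), (11376, 1120), (11376, 11394)] (.leaf ⟨0, 1, 0, 0⟩)) (.seg
      (12616, 1664) (.rel2 [(16000, 0), (13136, 10800), (11376, 10384), (11375, 0)] (.leaf ⟨0, 19,
      0, 6⟩)) (.rel2 [(16000, 0), (13136, 10800), (11376, 10384), (11375, 0)] (.leaf ⟨0, 39, 0,
      9⟩)))

theorem ok2_4ea_3 :
    chkT cG4m cG4m T2_4ea_3 (13008, 1248) (12224, 2080) dum dum n2_A2 = true := by
  decide +kernel

/-- tree -/
def T2_4ea_4 : CT :=
  .rel2 [(16000, 0), (8133, 29667), (6536, 0)] (.leaf ⟨0, 1, 8, 0⟩)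

theorem ok2_4ea_4 :
    chkT cG4m cG4m T2_4ea_4 (12224, 2080) (12128, 1968) dum dum n2_A2 = true := by
  decide +kernel

/-- tree -/
def T2_4ea_5 : CT :=
  .cut2 true 5392 [(6752, 3952), (10704, 1360), (14512, 0), (16000, 0), (14571, 5392), (6829, 5392)]
      [(14571, 5392), (13136, 10800), (11312, 10368), (8000, 8016), (6912, 6928), (6829, 5392)]
      (.cut2 true 2688 [(8679, 2688), (10704, 1360), (14512, 0), (16000, 0), (15288, 2688)] [(6752,
      3952), (8679, 2688), (15288, 2688), (14571, 5392), (6829, 5392)] (.cut2 true 1344 [(10748,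
      1344), (14512, 0), (16000, 0), (15644, 1344)] [(8679, 2688), (10704, 1360), (10748, 1344),
      (15644, 1344), (15288, 2688)] (.cut2 true 672 [(12630, 672), (14512, 0), (16000, 0), (15822,
      672)] [(10748, 1344), (12630, 672), (15822, 672), (15644, 1344)] (.leaf ⟨4, 0, 11, 0⟩) (.leaf
      ⟨1, 0, 3, 0⟩)) (.rel2 [(10748, 1344), (15644, 1344), (15288, 2688), (7051, 2688)] (.leaf ⟨1,
      0, 5, 0⟩))) (.rel2 [(15288, 2688), (8128, 29691), (6683, 2687)] (.leaf ⟨0, 0, 1, 0⟩))) (.rel2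
      [(14571, 5392), (12943, 11528), (4304, 5391)] (.leaf ⟨0, 0, 1, 0⟩))

theorem ok2_4ea_5 :
    chkT cG4m cG4m T2_4ea_5 (12128, 1968) (11968, 1456) dum dum n2_A2 = true := by
  decide +kernel

/-- tree -/
def T2_4ea_6 : CT :=
  .cut2 false 11376 [(6752, 3952), (10704, 1360), (11376, 1120), (11376, 10384), (11312, 10368),
      (8000, 8016), (6912, 6928)] [(11376, 1120), (14512, 0), (16000, 0), (13136, 10800), (11376,
      10384)] (.cut2 true 5744 [(6752, 3952), (10704, 1360), (11376, 1120), (11376, 5744), (6848,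
      5744)] [(11376, 5744), (11376, 10384), (11312, 10368), (8000, 8016), (6912, 6928), (6848,
      5744)] (.seg (12016, 1160) (.rel2 [(11376, 918), (11376, 5744), (4019, 5744)] (.leaf ⟨11, 0,
      17, 0⟩)) (.rel2 [(11376, 5744), (6848, 5744), (6752, 3952), (11376, 918)] (.leaf ⟨22, 0, 33,
      0⟩))) (.rel2 [(11376, 5744), (11376, 10414), (4799, 5743)] (.leaf ⟨0, 0, 1, 0⟩))) (.rel2
      [(16000, 0), (11376, 17437), (11375, 0)] (.leaf ⟨11, 0, 5, 0⟩))

theorem ok2_4ea_6 :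
    chkT cG4m cG4m T2_4ea_6 (11968, 1456) (12064, 864) dum dum n2_A2 = true := by
  decide +kernel

theorem fr2_4ea {z k : ℂ} (hz : OnE v2_4ea z) (hk : conj k ∈ Poly p2_A2) :
    k + Complex.I * z * (8 * z ^ 3 - 4 * z) ≠ 0 := by
  have h := edge_use rpG4m (E := L2_4ea) (V0 := dum) (V1 := dum) (V2 := n2_A2) (fun e he => by
    simp only [L2_4ea, List.mem_cons, List.not_mem_nil, or_false] at he
    rcases he with rfl | rfl | rfl | rfl | rfl | rfl | rfl
    exacts [⟨_, ok2_4ea_0⟩, ⟨_, ok2_4ea_1⟩, ⟨_, ok2_4ea_2⟩, ⟨_, ok2_4ea_3⟩, ⟨_, ok2_4ea_4⟩, ⟨_,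
        ok2_4ea_5⟩, ⟨_, ok2_4ea_6⟩]) (V := v2_4ea) (by decide) hz zero_dum zero_dum (rg2_A2 hk)
  rw [evG4m (mr_true k)] at h
  exact fun h0 => h (by rw [h0, mul_zero])

/-- edges -/
def L2_4ez : List ((ℕ × ℕ) × (ℕ × ℕ)) :=
  [((11664, 1856), (11680, 1760)), ((11680, 1760), (12112, 1904)), ((12112, 1904), (12240, 2048)),
      ((12240, 2048), (12240, 2064)), ((12240, 2064), (11648, 2128)), ((11648, 2128), (11664,
      1856))]

/-- tree -/
def T2_4ez_0 : CT :=
  .rel2 [(17760, 0), (12892, 3787), (9446, 0)] (.leaf ⟨59, 0, 54, 0⟩)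

theorem ok2_4ez_0 :
    chkT cG4n cG4n T2_4ez_0 (11664, 1856) (11680, 1760) dum dum n2_Z = true := by
  decide +kernel

/-- tree -/
def T2_4ez_1 : CT :=
  .rel2 [(14352, 0), (17760, 0), (12892, 3787), (11203, 1931)] (.leaf ⟨21, 0, 0, 34⟩)

theorem ok2_4ez_1 :
    chkT cG4n cG4n T2_4ez_1 (11680, 1760) (12112, 1904) dum dum n2_Z = true := by
  decide +kernel

/-- tree -/
def T2_4ez_2 : CT :=
  .rel2 [(16000, 0), (12977, 3882), (9447, 0)] (.leaf ⟨0, 0, 0, 1⟩)

theorem ok2_4ez_2 :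
    chkT cG4n cG4n T2_4ez_2 (12112, 1904) (12240, 2048) dum dum n2_Z = true := by
  decide +kernel

/-- tree -/
def T2_4ez_3 : CT :=
  .rel2 [(16000, 0), (11768, 5435), (11240, 0)] (.leaf ⟨0, 1, 0, 2⟩)

theorem ok2_4ez_3 :
    chkT cG4n cG4n T2_4ez_3 (12240, 2048) (12240, 2064) dum dum n2_Z = true := by
  decide +kernel

/-- tree -/
def T2_4ez_4 : CT :=
  .rel2 [(9446, 0), (16000, 0), (12977, 3882)] (.leaf ⟨0, 63, 49, 0⟩)

theorem ok2_4ez_4 :
    chkT cG4n cG4n T2_4ez_4 (12240, 2064) (11648, 2128) dum dum n2_Z = true := by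
  decide +kernel

/-- tree -/
def T2_4ez_5 : CT :=
  .rel2 [(17760, 0), (12892, 3787), (9446, 0)] (.leaf ⟨59, 0, 54, 0⟩)

theorem ok2_4ez_5 :
    chkT cG4n cG4n T2_4ez_5 (11648, 2128) (11664, 1856) dum dum n2_Z = true := by
  decide +kernel

theorem fr2_4ez {z k : ℂ} (hz : OnE v2_4ez z) (hk : k ∈ Poly p2_Z) :
    k + Complex.I * z * (8 * z ^ 3 - 4 * z) ≠ 0 := by
  have h := edge_use rpG4n (E := L2_4ez) (V0 := dum) (V1 := dum) (V2 := n2_Z) (fun e he => by
    simp only [L2_4ez, List.mem_cons, List.not_mem_nil, or_false] at he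
    rcases he with rfl | rfl | rfl | rfl | rfl | rfl
    exacts [⟨_, ok2_4ez_0⟩, ⟨_, ok2_4ez_1⟩, ⟨_, ok2_4ez_2⟩, ⟨_, ok2_4ez_3⟩, ⟨_, ok2_4ez_4⟩, ⟨_,
        ok2_4ez_5⟩]) (V := v2_4ez) (by decide) hz zero_dum zero_dum (rg2_Z hk)
  rw [evG4n (mr_false k)] at h
  exact fun h0 => h (by rw [h0, mul_zero])

/-- edges -/
def L2_4es : List ((ℕ × ℕ) × (ℕ × ℕ)) :=
  [((10864, 1968), (11104, 1632)), ((11104, 1632), (11248, 1600)), ((11248, 1600), (11872, 2064)),
      ((11872, 2064), (11184, 2912)), ((11184, 2912), (10928, 2720)), ((10928, 2720), (10800,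
      2208)), ((10800, 2208), (10864, 1968))]

/-- tree -/
def T2_4es_0 : CT :=
  .rel2 [(15532, 2124), (11689, 15695), (8464, 6576), (7997, 3658)] (.leaf ⟨79, 0, 13, 0⟩)

theorem ok2_4es_0 :
    chkT cG4n cG4n T2_4es_0 (10864, 1968) (11104, 1632) dum dum n2_S3 = true := by
  decide +kernel

/-- tree -/
def T2_4es_1 : CT :=
  .rel2 [(8448, 3568), (15532, 2124), (11689, 15695), (8002, 5272)] (.leaf ⟨11, 0, 0, 5⟩)

theorem ok2_4es_1 :
    chkT cG4n cG4n T2_4es_1 (11104, 1632) (11248, 1600) dum dum n2_S3 = true := by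
  decide +kernel

/-- tree -/
def T2_4es_2 : CT :=
  .rel2 [(13792, 2480), (13947, 13110), (5374, 4192)] (.leaf ⟨1, 0, 0, 5⟩)

theorem ok2_4es_2 :
    chkT cG4n cG4n T2_4es_2 (11248, 1600) (11872, 2064) dum dum n2_S3 = true := by
  decide +kernel

/-- tree -/
def T2_4es_3 : CT :=
  .cut2 false 11008 [(8160, 4672), (8448, 3568), (11008, 3046), (11008, 10052), (8928, 7888), (8464,
      6576)] [(11008, 3046), (13792, 2480), (13872, 7984), (13088, 10752), (11312, 10368), (11008,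
      10052)] (.rel2 [(11008, 3046), (11008, 10052), (5372, 4190)] (.leaf ⟨0, 1, 0, 0⟩)) (.seg
      (11528, 2488) (.cut2 true 6608 [(11008, 3046), (13792, 2480), (13852, 6608), (11008, 6608)]
      [(13852, 6608), (13872, 7984), (13088, 10752), (11312, 10368), (11008, 10052), (11008, 6608)]
      (.leaf ⟨0, 1, 0, 0⟩) (.rel2 [(7694, 6607), (13852, 6608), (13947, 13108)] (.leaf ⟨0, 2, 0,
      2⟩))) (.cut2 true 6608 [(11008, 3046), (13792, 2480), (13852, 6608), (11008, 6608)] [(13852,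
      6608), (13872, 7984), (13088, 10752), (11312, 10368), (11008, 10052), (11008, 6608)] (.leaf
      ⟨0, 1, 2, 0⟩) (.cut2 false 12432 [(12432, 10611), (11312, 10368), (11008, 10052), (11008,
      6608), (12432, 6608)] [(13852, 6608), (13872, 7984), (13088, 10752), (12432, 10611), (12432,
      6608)] (.rel2 [(11008, 6608), (12432, 6608), (12432, 10611), (11007, 10302)] (.leaf ⟨0, 1, 0,
      0⟩)) (.seg (11356, 2700) (.cut2 true 8672 [(13852, 6608), (13872, 7984), (13678, 8672),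
      (12432, 8672), (12432, 6608)] [(13678, 8672), (13088, 10752), (12432, 10611), (12432, 8672)]
      (.seg (11442, 2594) (.rel2 [(12432, 6608), (13852, 6608), (13872, 7984), (12432, 13091)]
      (.leaf ⟨0, 1, 0, 0⟩)) (.rel2 [(12432, 6608), (13852, 6608), (13872, 7984), (12432, 13091)]
      (.leaf ⟨0, 39, 9, 0⟩))) (.rel2 [(12432, 8672), (13678, 8672), (12432, 13065)] (.leaf ⟨0, 1, 0,
      0⟩))) (.rel2 [(12432, 6608), (14262, 6608), (12432, 13068)] (.leaf ⟨0, 39, 9, 0⟩))))))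

theorem ok2_4es_3 :
    chkT cG4n cG4n T2_4es_3 (11872, 2064) (11184, 2912) dum dum n2_S3 = true := by
  decide +kernel

/-- tree -/
def T2_4es_4 : CT :=
  .rel2 [(15532, 2125), (13088, 10752), (11312, 10368), (5373, 4191)] (.leaf ⟨1, 0, 5, 0⟩)

theorem ok2_4es_4 :
    chkT cG4n cG4n T2_4es_4 (11184, 2912) (10928, 2720) dum dum n2_S3 = true := by
  decide +kernel

/-- tree -/
def T2_4es_5 : CT :=
  .rel2 [(8928, 7888), (7468, 3766), (15532, 2124), (12768, 11883)] (.leaf ⟨29, 0, 28, 0⟩)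

theorem ok2_4es_5 :
    chkT cG4n cG4n T2_4es_5 (10928, 2720) (10800, 2208) dum dum n2_S3 = true := by
  decide +kernel

/-- tree -/
def T2_4es_6 : CT :=
  .rel2 [(15532, 2125), (12768, 11883), (8928, 7888), (7468, 3764)] (.leaf ⟨37, 0, 15, 0⟩)

theorem ok2_4es_6 :
    chkT cG4n cG4n T2_4es_6 (10800, 2208) (10864, 1968) dum dum n2_S3 = true := by
  decide +kernel

theorem fr2_4es {z k : ℂ} (hz : OnE v2_4es z) (hk : k ∈ Poly p2_S3) :
    k + Complex.I * z * (8 * z ^ 3 - 4 * z) ≠ 0 := by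
  have h := edge_use rpG4n (E := L2_4es) (V0 := dum) (V1 := dum) (V2 := n2_S3) (fun e he => by
    simp only [L2_4es, List.mem_cons, List.not_mem_nil, or_false] at he
    rcases he with rfl | rfl | rfl | rfl | rfl | rfl | rfl
    exacts [⟨_, ok2_4es_0⟩, ⟨_, ok2_4es_1⟩, ⟨_, ok2_4es_2⟩, ⟨_, ok2_4es_3⟩, ⟨_, ok2_4es_4⟩, ⟨_,
        ok2_4es_5⟩, ⟨_, ok2_4es_6⟩]) (V := v2_4es) (by decide) hz zero_dum zero_dum (rg2_S3 hk)
  rw [evG4n (mr_false k)] at h
  exact fun h0 => h (by rw [h0, mul_zero])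

/-- edges -/
def L2_4az : List ((ℕ × ℕ) × (ℕ × ℕ)) :=
  [((12944, 1776), (13360, 1776)), ((13360, 1776), (13952, 1856)), ((13952, 1856), (13776, 2832)),
      ((13776, 2832), (13376, 3120)), ((13376, 3120), (12960, 2736)), ((12960, 2736), (12736,
      2304)), ((12736, 2304), (12688, 2048)), ((12688, 2048), (12944, 1776))]

/-- tree -/
def T2_4az_0 : CT :=
  .rel1 [(8000, 8016), (6912, 6928), (6752, 3952), (10704, 1360), (14512, 0), (16000, 0), (12943,
      11528)] (.rel2 [(13008, 3696), (12768, 3648), (11456, 2208), (11424, 1872), (11616, 1680),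
      (14352, 0), (17760, 0)] (.rel1 [(14512, 0), (16000, 0), (12943, 11528), (8000, 8016), (6912,
      6928), (6688, 2792)] (.rel2 [(11456, 2208), (11424, 1872), (11616, 1680), (14352, 0), (17760,
      0), (12892, 3787)] (.rel1 [(16000, 0), (12943, 11528), (8000, 8016), (6912, 6928), (6535, 0)]
      (.rel2 [(14352, 0), (17760, 0), (11694, 4719), (11416, 1800)] (.leaf ⟨19, 0, 0, 6⟩))))))

theorem ok2_4az_0 :
    chkT cF4mn cF4mn T2_4az_0 (12944, 1776) (13360, 1776) dum n2_A2 n2_Z = true := by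
  decide +kernel

/-- tree -/
def T2_4az_1 : CT :=
  .rel1 [(14512, 0), (16000, 0), (13136, 10800), (11312, 10368), (8000, 8016), (6912, 6928), (6688,
      2792)] (.rel2 [(14352, 0), (16000, 0), (13296, 3472), (13008, 3696), (12768, 3648), (11456,
      2208), (11416, 1800)] (.rel1 [(6688, 2792), (14512, 0), (16000, 0), (13136, 10800), (11312,
      10368), (6928, 7255)] (.rel2 [(13008, 3696), (12768, 3648), (11456, 2208), (11416, 1800),
      (14352, 0), (17760, 0)] (.rel1 [(16000, 0), (13136, 10800), (11312, 10368), (6928, 7255),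
      (6536, 0)] (.rel2 [(14352, 0), (17760, 0), (12892, 3787), (11202, 1929)] (.leaf ⟨37, 0, 0,
      15⟩))))))

theorem ok2_4az_1 :
    chkT cF4mn cF4mn T2_4az_1 (13360, 1776) (13952, 1856) dum n2_A2 n2_Z = true := by
  decide +kernel

/-- tree -/
def T2_4az_2 : CT :=
  .seg (13864, 2344) (.cut1 true 5392 [(6752, 3952), (10704, 1360), (14512, 0), (16000, 0), (14571,
      5392), (6829, 5392)] [(14571, 5392), (13136, 10800), (11312, 10368), (8000, 8016), (6912,
      6928), (6829, 5392)] (.rel1 [(14512, 0), (16000, 0), (14571, 5392), (6829, 5392), (6689,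
      2792)] (.rel2 [(14352, 0), (16000, 0), (13296, 3472), (13008, 3696), (12768, 3648), (11456,
      2208), (11416, 1800)] (.rel1 [(16000, 0), (14571, 5392), (6829, 5392), (6537, 0)] (.rel2
      [(16000, 0), (11768, 5435), (11240, 0)] (.leaf ⟨0, 0, 0, 1⟩))))) (.cut1 false 10688 [(10688,
      9925), (8000, 8016), (6912, 6928), (6829, 5392), (10688, 5392)] [(14571, 5392), (13136,
      10800), (11312, 10368), (10688, 9925), (10688, 5392)] (.rel1 [(10688, 5392), (10688, 9925),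
      (8000, 8016), (5375, 5391)] (.rel2 [(14352, 0), (16000, 0), (13296, 3472), (13008, 3696),
      (12768, 3648), (11456, 2208), (11416, 1800)] (.rel1 [(10688, 5392), (10688, 9925), (4302,
      5390)] (.rel2 [(16000, 0), (12978, 3881), (9444, 0)] (.leaf ⟨0, 1, 0, 2⟩))))) (.cut2 false
      13712 [(11424, 1872), (11616, 1680), (13712, 392), (13712, 2938), (13296, 3472), (13008,
      3696), (12768, 3648), (11456, 2208)] [(13712, 392), (14352, 0), (16000, 0), (13712, 2938)]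
      (.rel1 [(14571, 5392), (13136, 10800), (11312, 10368), (4301, 5391)] (.rel2 [(13712, 392),
      (13712, 2938), (13296, 3472), (13008, 3696), (12768, 3648), (11456, 2208), (11416, 1801)]
      (.rel1 [(4301, 5391), (14571, 5392), (12943, 11528)] (.rel2 [(11203, 1930), (13712, 392),
      (13712, 4689)] (.leaf ⟨0, 1, 0, 2⟩))))) (.seg (13908, 2100) (.rel1 [(14571, 5392), (13136,
      10800), (11312, 10368), (4301, 5391)] (.rel2 [(16000, 0), (13712, 2938), (13711, 0)] (.leaf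
      ⟨0, 19, 0, 35⟩))) (.rel1 [(10688, 5392), (14571, 5392), (13136, 10800), (10687, 10220)] (.rel2
      [(16000, 0), (13712, 2938), (13711, 0)] (.leaf ⟨0, 3, 0, 4⟩))))))) (.cut1 false 11376 [(6752,
      3952), (10704, 1360), (11376, 1120), (11376, 10384), (11312, 10368), (8000, 8016), (6912,
      6928)] [(11376, 1120), (14512, 0), (16000, 0), (13136, 10800), (11376, 10384)] (.rel1 [(6912,
      6928), (6752, 3952), (10704, 1360), (11376, 1120), (11376, 10384), (10031, 10048)] (.rel2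
      [(16000, 0), (13296, 3472), (13008, 3696), (12768, 3648), (11456, 2208), (11424, 1872),
      (13295, 0)] (.rel1 [(11376, 1120), (11376, 10384), (10031, 10048), (6912, 6928), (6688, 2792)]
      (.rel2 [(13295, 0), (16000, 0), (13296, 3472), (13008, 3696), (12768, 3648), (11279, 2014)]
      (.rel1 [(6688, 2792), (11376, 1120), (11376, 10384), (7039, 9301)] (.rel2 [(16000, 0), (12977,
      3882), (9447, 0)] (.leaf ⟨0, 2, 0, 2⟩))))))) (.cut1 true 5392 [(11376, 1120), (14512, 0),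
      (16000, 0), (14571, 5392), (11376, 5392)] [(14571, 5392), (13136, 10800), (11376, 10384),
      (11376, 5392)] (.cut2 false 13712 [(11424, 1872), (11616, 1680), (13712, 392), (13712, 2938),
      (13296, 3472), (13008, 3696), (12768, 3648), (11456, 2208)] [(13712, 392), (14352, 0), (16000,
      0), (13712, 2938)] (.rel1 [(16000, 0), (14571, 5392), (11376, 5392), (11375, 0)] (.rel2
      [(13712, 392), (13712, 2938), (13296, 3472), (13008, 3696), (12768, 3648), (11456, 2208),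
      (11416, 1801)] (.rel1 [(11375, 0), (16000, 0), (11378, 17441)] (.rel2 [(9477, 2986), (13712,
      392), (13712, 3838)] (.leaf ⟨0, 2, 0, 2⟩))))) (.cut1 false 13680 [(11376, 1120), (13680, 297),
      (13680, 5392), (11376, 5392)] [(13680, 297), (14512, 0), (16000, 0), (14571, 5392), (13680,
      5392)] (.rel2 [(16000, 0), (13712, 2938), (13711, 0)] (.leaf ⟨0, 2, 0, 2⟩)) (.seg (13820,
      2588) (.rel1 [(16000, 0), (14571, 5392), (13680, 5392), (13679, 0)] (.rel2 [(16000, 0),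
      (13712, 2938), (13711, 0)] (.leaf ⟨0, 2, 0, 2⟩))) (.rel1 [(16000, 0), (14571, 5392), (13680,
      5392), (13679, 0)] (.rel2 [(16000, 0), (13712, 2938), (13711, 0)] (.leaf ⟨0, 4, 0, 3⟩))))))
      (.rel1 [(11376, 5392), (14571, 5392), (11376, 17433)] (.rel2 [(9446, 0), (16000, 0), (12977,
      3882)] (.leaf ⟨0, 7, 0, 4⟩)))))

theorem ok2_4az_2 :
    chkT cF4mn cF4mn T2_4az_2 (13952, 1856) (13776, 2832) dum n2_A2 n2_Z = true := by
  decide +kernel

/-- tree -/
def T2_4az_3 : CT :=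
  .cut1 true 5392 [(6752, 3952), (10704, 1360), (14512, 0), (16000, 0), (14571, 5392), (6829, 5392)]
      [(14571, 5392), (13136, 10800), (11312, 10368), (8000, 8016), (6912, 6928), (6829, 5392)]
      (.cut1 false 11376 [(6752, 3952), (10704, 1360), (11376, 1120), (11376, 5392), (6829, 5392)]
      [(11376, 1120), (14512, 0), (16000, 0), (14571, 5392), (11376, 5392)] (.rel1 [(11376, 1120),
      (11376, 5392), (6829, 5392), (6689, 2792)] (.rel2 [(9441, 0), (16000, 0), (12978, 3881)]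
      (.leaf ⟨0, 1, 0, 0⟩))) (.cut1 true 2688 [(11376, 1120), (14512, 0), (16000, 0), (15288, 2688),
      (11376, 2688)] [(15288, 2688), (14571, 5392), (11376, 5392), (11376, 2688)] (.cut1 false 13680
      [(11376, 1120), (13680, 297), (13680, 2688), (11376, 2688)] [(13680, 297), (14512, 0), (16000,
      0), (15288, 2688), (13680, 2688)] (.rel1 [(13680, 297), (13680, 2688), (6985, 2688)] (.rel2
      [(11240, 0), (16000, 0), (11769, 5433)] (.leaf ⟨0, 11, 5, 0⟩))) (.seg (13576, 2976) (.rel1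
      [(16000, 0), (15288, 2688), (13680, 2688), (13679, 0)] (.rel2 [(14352, 0), (16000, 0), (13296,
      3472), (13008, 3696), (12768, 3648), (11456, 2208), (11416, 1800)] (.rel1 [(13679, 0), (16000,
      0), (13682, 8752)] (.rel2 [(9446, 0), (16000, 0), (12977, 3882)] (.leaf ⟨0, 19, 6, 0⟩)))))
      (.rel1 [(16000, 0), (15288, 2688), (13680, 2688), (13679, 0)] (.rel2 [(14352, 0), (16000, 0),
      (13296, 3472), (13008, 3696), (12768, 3648), (11456, 2208), (11416, 1800)] (.rel1 [(13679, 0),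
      (16000, 0), (13682, 8752)] (.rel2 [(16000, 0), (13296, 3472), (12892, 3787), (9446, 0)] (.leaf
      ⟨0, 36, 17, 0⟩))))))) (.rel1 [(11376, 2688), (15288, 2688), (11376, 17442)] (.rel2 [(11240,
      0), (16000, 0), (11769, 5433)] (.leaf ⟨0, 7, 4, 0⟩))))) (.rel1 [(8000, 8016), (6912, 6928),
      (6829, 5392), (14571, 5392), (12943, 11528)] (.rel2 [(16000, 0), (13296, 3472), (13008, 3696),
      (12768, 3648), (11456, 2208), (11424, 1872), (13295, 0)] (.rel1 [(6829, 5392), (14571, 5392),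
      (12943, 11528), (6928, 7255)] (.rel2 [(12768, 3648), (11456, 2208), (11424, 1872), (13295, 0),
      (16000, 0), (13106, 3716)] (.rel1 [(14571, 5392), (12943, 11528), (4304, 5391)] (.rel2 [(9442,
      0), (16000, 0), (12978, 3881)] (.leaf ⟨0, 2, 2, 0⟩)))))))

theorem ok2_4az_3 :
    chkT cF4mn cF4mn T2_4az_3 (13776, 2832) (13376, 3120) dum n2_A2 n2_Z = true := by
  decide +kernel

/-- tree -/
def T2_4az_4 : CT :=
  .cut1 true 5392 [(6752, 3952), (10704, 1360), (14512, 0), (16000, 0), (14571, 5392), (6829, 5392)]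
      [(14571, 5392), (13136, 10800), (11312, 10368), (8000, 8016), (6912, 6928), (6829, 5392)]
      (.cut1 true 2688 [(8679, 2688), (10704, 1360), (14512, 0), (16000, 0), (15288, 2688)] [(6752,
      3952), (8679, 2688), (15288, 2688), (14571, 5392), (6829, 5392)] (.cut2 true 1840 [(11456,
      1840), (11616, 1680), (14352, 0), (16000, 0), (14568, 1840)] [(11424, 1872), (11456, 1840),
      (14568, 1840), (13296, 3472), (13008, 3696), (12768, 3648), (11456, 2208)] (.rel1 [(16000, 0),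
      (15288, 2688), (8679, 2688), (12776, 0)] (.rel2 [(16000, 0), (14568, 1840), (11456, 1840),
      (13295, 0)] (.leaf ⟨0, 0, 1, 0⟩))) (.cut1 true 1344 [(10748, 1344), (14512, 0), (16000, 0),
      (15644, 1344)] [(8679, 2688), (10704, 1360), (10748, 1344), (15644, 1344), (15288, 2688)]
      (.cut2 true 2768 [(11424, 1872), (11456, 1840), (14568, 1840), (13845, 2768), (11966, 2768),
      (11456, 2208)] [(13845, 2768), (13296, 3472), (13008, 3696), (12768, 3648), (11966, 2768)]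
      (.rel2 [(14568, 1840), (13845, 2768), (11966, 2768), (11119, 1839)] (.leaf ⟨1, 0, 5, 0⟩))
      (.cut1 true 672 [(12630, 672), (14512, 0), (16000, 0), (15822, 672)] [(10748, 1344), (12630,
      672), (15822, 672), (15644, 1344)] (.rel2 [(13008, 3696), (12768, 3648), (11966, 2768),
      (14202, 2768)] (.leaf ⟨2, 0, 8, 0⟩)) (.rel2 [(13008, 3696), (12768, 3648), (11966, 2768),
      (14202, 2768)] (.leaf ⟨1, 0, 5, 0⟩)))) (.rel1 [(15644, 1344), (15288, 2688), (8679, 2688),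
      (10727, 1343)] (.rel2 [(11118, 1838), (15395, 1840), (12892, 3787)] (.leaf ⟨0, 0, 1, 0⟩)))))
      (.rel1 [(6752, 3952), (8679, 2688), (15288, 2688), (8128, 29691)] (.rel2 [(14352, 0), (16000,
      0), (13296, 3472), (13008, 3696), (12768, 3648), (11456, 2208), (11416, 1800)] (.rel1 [(15288,
      2688), (8128, 29691), (6683, 2687)] (.rel2 [(9443, 0), (17760, 0), (12892, 3787)] (.leaf ⟨0,
      0, 1, 0⟩)))))) (.rel1 [(8000, 8016), (6912, 6928), (6829, 5392), (14571, 5392), (12943,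
      11528)] (.rel2 [(14352, 0), (16000, 0), (13296, 3472), (13008, 3696), (12768, 3648), (11456,
      2208), (11416, 1800)] (.rel1 [(6829, 5392), (14571, 5392), (12943, 11528), (6928, 7255)]
      (.rel2 [(13008, 3696), (12768, 3648), (11456, 2208), (11416, 1800), (14352, 0), (17760, 0)]
      (.rel1 [(14571, 5392), (12943, 11528), (4304, 5391)] (.rel2 [(17760, 0), (12892, 3787), (9446,
      0)] (.leaf ⟨0, 0, 1, 0⟩)))))))

theorem ok2_4az_4 :
    chkT cF4mn cF4mn T2_4az_4 (13376, 3120) (12960, 2736) dum n2_A2 n2_Z = true := by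
  decide +kernel

/-- tree -/
def T2_4az_5 : CT :=
  .cut1 true 5392 [(6752, 3952), (10704, 1360), (14512, 0), (16000, 0), (14571, 5392), (6829, 5392)]
      [(14571, 5392), (13136, 10800), (11312, 10368), (8000, 8016), (6912, 6928), (6829, 5392)]
      (.cut1 false 11376 [(6752, 3952), (10704, 1360), (11376, 1120), (11376, 5392), (6829, 5392)]
      [(11376, 1120), (14512, 0), (16000, 0), (14571, 5392), (11376, 5392)] (.cut2 false 13712
      [(11424, 1872), (11616, 1680), (13712, 392), (13712, 2938), (13296, 3472), (13008, 3696),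
      (12768, 3648), (11456, 2208)] [(13712, 392), (14352, 0), (16000, 0), (13712, 2938)] (.cut1
      true 3248 [(7825, 3248), (10704, 1360), (11376, 1120), (11376, 3248)] [(6752, 3952), (7825,
      3248), (11376, 3248), (11376, 5392), (6829, 5392)] (.cut2 true 2032 [(11424, 1872), (11616,
      1680), (13712, 392), (13712, 2032), (11439, 2032)] [(13712, 2032), (13712, 2938), (13296,
      3472), (13008, 3696), (12768, 3648), (11456, 2208), (11439, 2032)] (.rel1 [(11376, 3248),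
      (7825, 3248), (11376, 918)] (.rel2 [(13712, 392), (13712, 2032), (11038, 2032)] (.leaf ⟨1, 0,
      3, 0⟩))) (.cut1 true 2176 [(9459, 2176), (10704, 1360), (11376, 1120), (11376, 2176)] [(7825,
      3248), (9459, 2176), (11376, 2176), (11376, 3248)] (.rel1 [(11376, 2176), (9459, 2176),
      (11376, 918)] (.rel2 [(11294, 2031), (15150, 2032), (12892, 3787)] (.leaf ⟨19, 0, 35, 0⟩)))
      (.rel2 [(14418, 2032), (13106, 3716), (12768, 3648), (11294, 2031)] (.leaf ⟨5, 0, 11, 0⟩))))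
      (.rel1 [(7825, 3248), (11376, 3248), (11376, 5392), (4556, 5392)] (.rel2 [(12768, 3648),
      (11202, 1930), (13712, 392), (13712, 3837)] (.leaf ⟨1, 0, 3, 0⟩)))) (.rel1 [(11376, 5392),
      (6829, 5392), (6752, 3952), (11376, 918)] (.rel2 [(16000, 0), (13712, 2938), (13711, 0)]
      (.rel1 [(11376, 918), (11376, 5392), (4556, 5392)] (.leaf ⟨1, 0, 2, 0⟩))))) (.rel1 [(11376,
      1120), (14512, 0), (16000, 0), (11376, 17448)] (.rel2 [(17760, 0), (12892, 3787), (9446, 0)]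
      (.leaf ⟨3, 0, 4, 0⟩)))) (.rel1 [(8000, 8016), (6912, 6928), (6829, 5392), (14571, 5392),
      (12943, 11528)] (.rel2 [(14352, 0), (16000, 0), (13296, 3472), (13008, 3696), (12768, 3648),
      (11456, 2208), (11416, 1800)] (.rel1 [(6829, 5392), (14571, 5392), (12943, 11528), (6928,
      7255)] (.rel2 [(13008, 3696), (12768, 3648), (11456, 2208), (11416, 1800), (14352, 0), (17760,
      0)] (.rel1 [(14571, 5392), (12943, 11528), (4304, 5391)] (.rel2 [(9441, 0), (17760, 0),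
      (12892, 3787)] (.leaf ⟨0, 0, 1, 0⟩)))))))

theorem ok2_4az_5 :
    chkT cF4mn cF4mn T2_4az_5 (12960, 2736) (12736, 2304) dum n2_A2 n2_Z = true := by
  decide +kernel

/-- tree -/
def T2_4az_6 : CT :=
  .rel1 [(8000, 8016), (6912, 6928), (6752, 3952), (10704, 1360), (14512, 0), (16000, 0), (12943,
      11528)] (.rel2 [(14352, 0), (16000, 0), (13296, 3472), (13008, 3696), (12768, 3648), (11456,
      2208), (11416, 1800)] (.rel1 [(6752, 3952), (10704, 1360), (14512, 0), (16000, 0), (12943,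
      11528), (6928, 7255)] (.rel2 [(13008, 3696), (12768, 3648), (11456, 2208), (11416, 1800),
      (14352, 0), (17760, 0)] (.rel1 [(6752, 3952), (10704, 1360), (14512, 0), (16000, 0), (8124,
      29701)] (.rel2 [(11456, 2208), (11238, 0), (17760, 0), (12892, 3787)] (.leaf ⟨11, 0, 17,
      0⟩))))))

theorem ok2_4az_6 :
    chkT cF4mn cF4mn T2_4az_6 (12736, 2304) (12688, 2048) dum n2_A2 n2_Z = true := by
  decide +kernel

/-- tree -/
def T2_4az_7 : CT :=
  .cut1 false 11376 [(6752, 3952), (10704, 1360), (11376, 1120), (11376, 10384), (11312, 10368),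
      (8000, 8016), (6912, 6928)] [(11376, 1120), (14512, 0), (16000, 0), (13136, 10800), (11376,
      10384)] (.cut2 false 13712 [(11424, 1872), (11616, 1680), (13712, 392), (13712, 2938), (13296,
      3472), (13008, 3696), (12768, 3648), (11456, 2208)] [(13712, 392), (14352, 0), (16000, 0),
      (13712, 2938)] (.cut1 false 9056 [(6752, 3952), (9056, 2440), (9056, 8766), (8000, 8016),
      (6912, 6928)] [(9056, 2440), (10704, 1360), (11376, 1120), (11376, 10384), (11312, 10368),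
      (9056, 8766)] (.cut1 false 7904 [(6752, 3952), (7904, 3196), (7904, 7920), (6912, 6928)]
      [(7904, 3196), (9056, 2440), (9056, 8766), (8000, 8016), (7904, 7920)] (.cut2 false 12560
      [(11424, 1872), (11616, 1680), (12560, 1099), (12560, 3420), (11456, 2208)] [(12560, 1099),
      (13712, 392), (13712, 2938), (13296, 3472), (13008, 3696), (12768, 3648), (12560, 3420)]
      (.cut1 true 5552 [(6752, 3952), (7904, 3196), (7904, 5552), (6838, 5552)] [(7904, 5552),
      (7904, 7920), (6912, 6928), (6838, 5552)] (.rel2 [(12560, 3420), (11456, 2208), (11424, 1872),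
      (12560, 735)] (.leaf ⟨77, 0, 22, 0⟩)) (.rel2 [(12560, 3420), (11456, 2208), (11424, 1872),
      (12560, 735)] (.leaf ⟨11, 0, 5, 0⟩))) (.rel2 [(12560, 3420), (12560, 1099), (13712, 392),
      (13712, 4694)] (.leaf ⟨11, 0, 5, 0⟩))) (.rel1 [(7904, 7920), (7904, 3196), (9056, 2440),
      (9056, 9072)] (.rel2 [(13712, 392), (13712, 4689), (11203, 1930)] (.leaf ⟨7, 0, 4, 0⟩))))
      (.rel1 [(11376, 10384), (11312, 10368), (9056, 8766), (9056, 2440), (11376, 918)] (.rel2
      [(11456, 2208), (11424, 1872), (11616, 1680), (13712, 392), (13712, 2938), (13296, 3472),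
      (12892, 3787)] (.rel1 [(9056, 8766), (9056, 2440), (11376, 918), (11376, 10414)] (.rel2
      [(13712, 392), (13712, 4689), (11203, 1930)] (.leaf ⟨7, 0, 4, 0⟩)))))) (.rel1 [(11376, 10384),
      (11312, 10368), (8000, 8016), (6912, 6928), (6752, 3952), (11376, 918)] (.rel2 [(16000, 0),
      (13712, 2938), (13711, 0)] (.rel1 [(11376, 918), (11376, 11392), (5050, 5066)] (.leaf ⟨19, 0,
      6, 0⟩))))) (.rel1 [(16000, 0), (13136, 10800), (11376, 10384), (11375, 0)] (.rel2 [(17760, 0),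
      (12892, 3787), (9444, 0)] (.leaf ⟨4, 0, 3, 0⟩)))

theorem ok2_4az_7 :
    chkT cF4mn cF4mn T2_4az_7 (12688, 2048) (12944, 1776) dum n2_A2 n2_Z = true := by
  decide +kernel

theorem fr2_4az {z k l : ℂ} (hz : OnE v2_4az z) (hk : conj k ∈ Poly p2_A2)
    (hl : l ∈ Poly p2_Z) :
    k ^ 2 + l ^ 2 - 2 * k * l * (8 * z ^ 4 - 8 * z ^ 2 + 1) + (z * (8 * z ^ 3 - 4 * z)) ^ 2 ≠ 0 :=
        by
  have h := edge_use rpF4mn (E := L2_4az) (V0 := dum) (V1 := n2_A2) (V2 := n2_Z) (fun e he => by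
    simp only [L2_4az, List.mem_cons, List.not_mem_nil, or_false] at he
    rcases he with rfl | rfl | rfl | rfl | rfl | rfl | rfl | rfl
    exacts [⟨_, ok2_4az_0⟩, ⟨_, ok2_4az_1⟩, ⟨_, ok2_4az_2⟩, ⟨_, ok2_4az_3⟩, ⟨_, ok2_4az_4⟩, ⟨_,
        ok2_4az_5⟩, ⟨_, ok2_4az_6⟩, ⟨_, ok2_4az_7⟩]) (V := v2_4az) (by decide) hz zero_dum (rg2_A2
        hk) (rg2_Z hl)
  rw [evF4mn (mr_true k) (mr_false l)] at h
  exact fun h0 => h (by rw [h0, mul_zero])

/-- edges -/
def L2_4as : List ((ℕ × ℕ) × (ℕ × ℕ)) :=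
  [((12208, 2080), (12656, 1696)), ((12656, 1696), (13280, 1824)), ((13280, 1824), (13760, 1984)),
      ((13760, 1984), (13392, 3776)), ((13392, 3776), (13024, 3680)), ((13024, 3680), (12544,
      3280)), ((12544, 3280), (12128, 2464)), ((12128, 2464), (12208, 2080))]

/-- tree -/
def T2_4as_0 : CT :=
  .cut1 false 11376 [(6752, 3952), (10704, 1360), (11376, 1120), (11376, 10384), (11312, 10368),
      (8000, 8016), (6912, 6928)] [(11376, 1120), (14512, 0), (16000, 0), (13136, 10800), (11376,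
      10384)] (.cut2 false 11008 [(8160, 4672), (8448, 3568), (11008, 3046), (11008, 10052), (8928,
      7888), (8464, 6576)] [(11008, 3046), (13792, 2480), (13872, 7984), (13088, 10752), (11312,
      10368), (11008, 10052)] (.cut1 false 9056 [(6752, 3952), (9056, 2440), (9056, 8766), (8000,
      8016), (6912, 6928)] [(9056, 2440), (10704, 1360), (11376, 1120), (11376, 10384), (11312,
      10368), (9056, 8766)] (.cut2 true 6544 [(8160, 4672), (8448, 3568), (11008, 3046), (11008,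
      6544), (8458, 6544)] [(11008, 6544), (11008, 10052), (8928, 7888), (8464, 6576), (8458, 6544)]
      (.cut2 false 9584 [(8160, 4672), (8448, 3568), (9584, 3336), (9584, 6544), (8458, 6544)]
      [(9584, 3336), (11008, 3046), (11008, 6544), (9584, 6544)] (.cut1 false 7904 [(6752, 3952),
      (7904, 3196), (7904, 7920), (6912, 6928)] [(7904, 3196), (9056, 2440), (9056, 8766), (8000,
      8016), (7904, 7920)] (.cut1 true 5552 [(6752, 3952), (7904, 3196), (7904, 5552), (6838, 5552)]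
      [(7904, 5552), (7904, 7920), (6912, 6928), (6838, 5552)] (.cut1 false 7328 [(6752, 3952),
      (7328, 3574), (7328, 5552), (6838, 5552)] [(7328, 3574), (7904, 3196), (7904, 5552), (7328,
      5552)] (.cut2 false 8864 [(8160, 4672), (8448, 3568), (8864, 3483), (8864, 6544), (8458,
      6544)] [(8864, 3483), (9584, 3336), (9584, 6544), (8864, 6544)] (.seg (12432, 1888) (.rel2
      [(8160, 4672), (8448, 3568), (8864, 3483), (8864, 9095)] (.leaf ⟨1, 0, 0, 0⟩)) (.rel2 [(8160,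
      4672), (8448, 3568), (8864, 3483), (8864, 9095)] (.leaf ⟨1, 0, 0, 0⟩))) (.leaf ⟨1, 0, 0, 0⟩))
      (.rel2 [(7997, 3658), (9584, 3336), (9584, 13594)] (.leaf ⟨1, 0, 0, 0⟩))) (.seg (12432, 1888)
      (.leaf ⟨19, 0, 6, 0⟩) (.cut1 false 7360 [(7360, 7376), (6912, 6928), (6838, 5552), (7360,
      5552)] [(7904, 5552), (7904, 7920), (7360, 7376), (7360, 5552)] (.cut2 false 8864 [(8160,
      4672), (8448, 3568), (8864, 3483), (8864, 6544), (8458, 6544)] [(8864, 3483), (9584, 3336),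
      (9584, 6544), (8864, 6544)] (.cut1 false 7088 [(7088, 7104), (6912, 6928), (6838, 5552),
      (7088, 5552)] [(7360, 7376), (7088, 7104), (7088, 5552), (7360, 5552)] (.cut1 true 6320
      [(6879, 6320), (6838, 5552), (7088, 5552), (7088, 6320)] [(7088, 7104), (6912, 6928), (6879,
      6320), (7088, 6320)] (.cut2 true 5008 [(8160, 4672), (8448, 3568), (8864, 3483), (8864, 5008),
      (8213, 5008)] [(8864, 5008), (8864, 6544), (8458, 6544), (8213, 5008)] (.seg (12544, 1792)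
      (.cut2 false 8512 [(8160, 4672), (8448, 3568), (8512, 3554), (8512, 5008), (8213, 5008)]
      [(8512, 3554), (8864, 3483), (8864, 5008), (8512, 5008)] (.cut2 false 8336 [(8160, 4672),
      (8336, 3997), (8336, 5008), (8213, 5008)] [(8336, 3997), (8448, 3568), (8512, 3554), (8512,
      5008), (8336, 5008)] (.cut1 true 5936 [(6858, 5936), (6838, 5552), (7088, 5552), (7088, 5936)]
      [(6879, 6320), (6858, 5936), (7088, 5936), (7088, 6320)] (.seg (12488, 1840) (.cut1 false 6960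
      [(6858, 5936), (6838, 5552), (6960, 5552), (6960, 5936)] [(6960, 5552), (7088, 5552), (7088,
      5936), (6960, 5936)] (.cut2 false 8240 [(8160, 4672), (8240, 4365), (8240, 5008), (8213,
      5008)] [(8240, 4365), (8336, 3997), (8336, 5008), (8240, 5008)] (.rel1 [(6838, 5552), (6960,
      5552), (6960, 7895)] (.rel2 [(8160, 4672), (8240, 4365), (8240, 5180)] (.leaf ⟨79, 0, 13,
      0⟩))) (.rel1 [(6838, 5552), (6960, 5552), (6960, 7895)] (.leaf ⟨39, 0, 9, 0⟩))) (.rel2 [(8160,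
      4672), (8336, 3997), (8336, 5788)] (.leaf ⟨1, 0, 0, 0⟩))) (.rel2 [(8160, 4672), (8336, 3997),
      (8336, 5788)] (.leaf ⟨1, 0, 0, 0⟩))) (.rel2 [(8160, 4672), (8336, 3997), (8336, 5788)] (.leaf
      ⟨79, 0, 13, 0⟩))) (.rel2 [(8512, 5008), (8336, 5008), (8336, 3997), (8512, 3321)] (.leaf ⟨39,
      0, 9, 0⟩))) (.rel1 [(6838, 5552), (7088, 5552), (7088, 10235)] (.leaf ⟨19, 0, 6, 0⟩))) (.rel2
      [(8160, 4672), (8448, 3568), (8864, 3483), (8864, 9136)] (.leaf ⟨1, 0, 0, 0⟩))) (.rel2 [(8213,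
      5008), (8864, 5008), (8864, 9090)] (.leaf ⟨1, 0, 0, 0⟩))) (.rel2 [(8160, 4672), (8448, 3568),
      (8864, 3483), (8864, 9095)] (.leaf ⟨79, 0, 13, 0⟩))) (.rel2 [(8864, 9095), (8160, 4672),
      (8864, 1972)] (.leaf ⟨39, 0, 9, 0⟩))) (.leaf ⟨39, 0, 9, 0⟩)) (.rel2 [(7997, 3658), (9584,
      3336), (9584, 13594)] (.leaf ⟨79, 0, 13, 0⟩))))) (.rel1 [(7904, 7920), (7904, 3196), (9056,
      2440), (9056, 9072)] (.rel2 [(7997, 3658), (9584, 3336), (9584, 13594)] (.leaf ⟨1, 0, 0,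
      0⟩)))) (.rel1 [(6912, 6928), (6752, 3952), (9056, 2440), (9056, 9072)] (.leaf ⟨1, 0, 0, 0⟩)))
      (.rel1 [(6912, 6928), (6752, 3952), (9056, 2440), (9056, 9072)] (.rel2 [(11008, 6544), (11008,
      13770), (8451, 6542)] (.leaf ⟨1, 0, 0, 0⟩)))) (.rel1 [(11376, 10384), (11312, 10368), (9056,
      8766), (9056, 2440), (11376, 918)] (.rel2 [(8448, 3568), (11008, 3046), (11008, 10052), (8928,
      7888), (8002, 5272)] (.rel1 [(9056, 8766), (9056, 2440), (11376, 918), (11376, 10414)] (.rel2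
      [(8448, 3568), (11008, 3046), (11008, 10052), (7661, 6570)] (.leaf ⟨1, 0, 0, 0⟩)))))) (.rel1
      [(8000, 8016), (6912, 6928), (6752, 3952), (10704, 1360), (11376, 1120), (11376, 10414)]
      (.rel2 [(13088, 10752), (11312, 10368), (11008, 10052), (11008, 3046), (15532, 2125)] (.rel1
      [(11376, 10414), (8000, 8016), (6912, 6928), (6752, 3952), (11376, 918)] (.rel2 [(11008,
      10052), (11008, 3046), (15532, 2125), (12768, 11882)] (.rel1 [(6912, 6928), (6752, 3952),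
      (11376, 918), (11376, 11392)] (.rel2 [(11008, 3046), (15532, 2125), (11008, 18095)] (.leaf
      ⟨19, 0, 0, 6⟩)))))))) (.rel1 [(16000, 0), (13136, 10800), (11376, 10384), (11375, 0)] (.rel2
      [(15532, 2124), (12768, 11883), (5376, 4193)] (.leaf ⟨1, 0, 0, 0⟩)))

theorem ok2_4as_0 :
    chkT cF4mn cF4mn T2_4as_0 (12208, 2080) (12656, 1696) dum n2_A2 n2_S3 = true := by
  decide +kernel

/-- tree -/
def T2_4as_1 : CT :=
  .rel1 [(14512, 0), (16000, 0), (13136, 10800), (11312, 10368), (8000, 8016), (6912, 6928), (6688,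
      2792)] (.rel2 [(13088, 10752), (11312, 10368), (8928, 7888), (8464, 6576), (8160, 4672),
      (8448, 3568), (15532, 2124)] (.rel1 [(14512, 0), (16000, 0), (13136, 10800), (11312, 10368),
      (8000, 8016), (3803, 3819)] (.rel2 [(8448, 3568), (15532, 2124), (12768, 11883), (7662, 6572)]
      (.leaf ⟨7, 0, 0, 4⟩))))

theorem ok2_4as_1 :
    chkT cF4mn cF4mn T2_4as_1 (12656, 1696) (13280, 1824) dum n2_A2 n2_S3 = true := by
  decide +kernel

/-- tree -/
def T2_4as_2 : CT :=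
  .rel1 [(14512, 0), (16000, 0), (13136, 10800), (11312, 10368), (8000, 8016), (6912, 6928), (6688,
      2792)] (.rel2 [(11312, 10368), (8928, 7888), (8464, 6576), (8160, 4672), (8448, 3568), (13792,
      2480), (13915, 10931)] (.rel1 [(6688, 2792), (14512, 0), (16000, 0), (13136, 10800), (11312,
      10368), (6928, 7255)] (.rel2 [(8464, 6576), (8160, 4672), (8448, 3568), (13792, 2480), (13915,
      10931), (9679, 10015)] (.rel1 [(16000, 0), (13136, 10800), (11312, 10368), (6928, 7255),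
      (6536, 0)] (.rel2 [(8448, 3568), (13792, 2480), (13915, 10931), (6915, 9418)] (.leaf ⟨4, 0, 0,
      3⟩))))))

theorem ok2_4as_2 :
    chkT cF4mn cF4mn T2_4as_2 (13280, 1824) (13760, 1984) dum n2_A2 n2_S3 = true := by
  decide +kernel

/-- tree -/
def T2_4as_3 : CT :=
  .seg (13576, 2880) (.seg (13668, 2432) (.rel1 [(10704, 1360), (14512, 0), (16000, 0), (13136,
      10800), (11312, 10368), (8000, 8016), (5050, 5066)] (.rel2 [(8464, 6576), (8160, 4672), (8448,
      3568), (13792, 2480), (13872, 7984), (13088, 10752), (9679, 10015)] (.rel1 [(5050, 5066),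
      (10704, 1360), (14512, 0), (16000, 0), (13136, 10800), (10053, 10070)] (.rel2 [(8464, 6576),
      (8160, 4672), (8448, 3568), (13792, 2480), (13872, 7984), (11687, 15699)] (.rel1 [(10704,
      1360), (14512, 0), (16000, 0), (13136, 10800), (768, 7872)] (.rel2 [(8448, 3568), (13792,
      2480), (13872, 7984), (11687, 15699), (8002, 5271)] (.rel1 [(16000, 0), (13136, 10800), (768,
      7872), (12778, 0)] (.rel2 [(7469, 3766), (13792, 2480), (14083, 22478)] (.leaf ⟨0, 13, 0,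
      15⟩))))))))) (.rel1 [(14512, 0), (16000, 0), (13136, 10800), (11312, 10368), (8000, 8016),
      (6912, 6928), (6688, 2792)] (.rel2 [(13792, 2480), (13872, 7984), (13088, 10752), (11312,
      10368), (8928, 7888), (8464, 6576), (7997, 3658)] (.rel1 [(6912, 6928), (6688, 2792), (14512,
      0), (16000, 0), (13136, 10800), (10053, 10070)] (.rel2 [(8928, 7888), (8464, 6576), (7997,
      3658), (13792, 2480), (13872, 7984), (12768, 11883)] (.rel1 [(14512, 0), (16000, 0), (13136,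
      10800), (10053, 10070), (3804, 3820)] (.rel2 [(7997, 3658), (13792, 2480), (13872, 7984),
      (10558, 19689)] (.leaf ⟨0, 17, 0, 11⟩)))))))) (.cut1 false 11376 [(6752, 3952), (10704, 1360),
      (11376, 1120), (11376, 10384), (11312, 10368), (8000, 8016), (6912, 6928)] [(11376, 1120),
      (14512, 0), (16000, 0), (13136, 10800), (11376, 10384)] (.rel1 [(11376, 1120), (11376, 10384),
      (11312, 10368), (8000, 8016), (6912, 6928), (6688, 2792)] (.rel2 [(8464, 6576), (8160, 4672),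
      (8448, 3568), (13792, 2480), (13872, 7984), (13088, 10752), (9679, 10015)] (.rel1 [(6688,
      2792), (11376, 1120), (11376, 10384), (11312, 10368), (6928, 7255)] (.rel2 [(13792, 2480),
      (13872, 7984), (13088, 10752), (9679, 10015), (8464, 6576), (7997, 3658)] (.rel1 [(6688,
      2792), (11376, 1120), (11376, 10384), (7036, 9299)] (.rel2 [(15532, 2125), (13088, 10752),
      (9679, 10015), (7469, 3764)] (.leaf ⟨0, 1, 0, 0⟩))))))) (.seg (13484, 3328) (.rel1 [(16000,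
      0), (13136, 10800), (11376, 10384), (11375, 0)] (.rel2 [(7468, 3764), (13792, 2480), (13872,
      7984), (11690, 15691)] (.leaf ⟨0, 77, 0, 22⟩))) (.cut1 true 5392 [(11376, 1120), (14512, 0),
      (16000, 0), (14571, 5392), (11376, 5392)] [(14571, 5392), (13136, 10800), (11376, 10384),
      (11376, 5392)] (.cut2 false 11008 [(8160, 4672), (8448, 3568), (11008, 3046), (11008, 10052),
      (8928, 7888), (8464, 6576)] [(11008, 3046), (13792, 2480), (13872, 7984), (13088, 10752),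
      (11312, 10368), (11008, 10052)] (.rel1 [(16000, 0), (14571, 5392), (11376, 5392), (11375, 0)]
      (.rel2 [(11008, 3046), (11008, 10052), (8928, 7888), (8464, 6576), (7997, 3658)] (.rel1
      [(11375, 0), (16000, 0), (11378, 17441)] (.rel2 [(11008, 3046), (11008, 10052), (5372, 4190)]
      (.leaf ⟨0, 1, 0, 0⟩))))) (.cut1 false 13680 [(11376, 1120), (13680, 297), (13680, 5392),
      (11376, 5392)] [(13680, 297), (14512, 0), (16000, 0), (14571, 5392), (13680, 5392)] (.rel2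
      [(13088, 10752), (11007, 10303), (11008, 3046), (15532, 2125)] (.leaf ⟨0, 1, 0, 0⟩)) (.seg
      (13438, 3552) (.cut1 true 2688 [(13680, 297), (14512, 0), (16000, 0), (15288, 2688), (13680,
      2688)] [(15288, 2688), (14571, 5392), (13680, 5392), (13680, 2688)] (.cut1 false 14832
      [(13680, 297), (14512, 0), (14832, 0), (14832, 2688), (13680, 2688)] [(14832, 0), (16000, 0),
      (15288, 2688), (14832, 2688)] (.rel1 [(14832, 0), (14832, 2688), (13680, 2688), (13679, 0)]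
      (.rel2 [(13088, 10752), (11007, 10303), (11008, 3046), (15532, 2125)] (.leaf ⟨0, 1, 0, 0⟩)))
      (.cut2 true 6608 [(11008, 3046), (13792, 2480), (13852, 6608), (11008, 6608)] [(13852, 6608),
      (13872, 7984), (13088, 10752), (11312, 10368), (11008, 10052), (11008, 6608)] (.rel1 [(14832,
      0), (16000, 0), (14832, 4410)] (.leaf ⟨0, 1, 0, 0⟩)) (.seg (13461, 3440) (.rel1 [(14832, 0),
      (16000, 0), (14832, 4410)] (.rel2 [(13852, 6608), (13872, 7984), (12768, 11882), (7694, 6607)]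
      (.leaf ⟨0, 39, 0, 9⟩))) (.rel1 [(14832, 0), (16000, 0), (14832, 4410)] (.rel2 [(11008, 6608),
      (13852, 6608), (13872, 7984), (13088, 10752), (11007, 10303)] (.leaf ⟨0, 1, 0, 0⟩)))))) (.rel1
      [(13680, 2688), (15288, 2688), (13680, 8753)] (.rel2 [(13088, 10752), (11007, 10303), (11008,
      3046), (15532, 2125)] (.leaf ⟨0, 1, 0, 0⟩)))) (.rel1 [(16000, 0), (14571, 5392), (13680,
      5392), (13679, 0)] (.rel2 [(13088, 10752), (11007, 10303), (11008, 3046), (15532, 2125)]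
      (.leaf ⟨0, 79, 13, 0⟩)))))) (.rel1 [(11376, 5392), (14571, 5392), (11376, 17433)] (.rel2
      [(5372, 4190), (15532, 2125), (12768, 11883)] (.leaf ⟨0, 1, 2, 0⟩))))))

theorem ok2_4as_3 :
    chkT cF4mn cF4mn T2_4as_3 (13760, 1984) (13392, 3776) dum n2_A2 n2_S3 = true := by
  decide +kernel

/-- tree -/
def T2_4as_4 : CT :=
  .rel1 [(14512, 0), (16000, 0), (13136, 10800), (11312, 10368), (8000, 8016), (6912, 6928), (6688,
      2792)] (.rel2 [(13792, 2480), (13872, 7984), (13088, 10752), (11312, 10368), (8928, 7888),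
      (8464, 6576), (7997, 3658)] (.rel1 [(8000, 8016), (6912, 6928), (6688, 2792), (14512, 0),
      (16000, 0), (12943, 11528)] (.rel2 [(7997, 3658), (13792, 2480), (13872, 7984), (13088,
      10752), (11312, 10368), (8622, 7570)] (.rel1 [(6688, 2792), (14512, 0), (16000, 0), (12943,
      11528), (6928, 7255)] (.rel2 [(13088, 10752), (11312, 10368), (8622, 7570), (7997, 3658),
      (15532, 2125)] (.rel1 [(6688, 2792), (14512, 0), (16000, 0), (8133, 29667)] (.rel2 [(15532,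
      2125), (13088, 10752), (11312, 10368), (5373, 4191)] (.rel1 [(16000, 0), (8133, 29667), (6536,
      0)] (.leaf ⟨8, 0, 39, 0⟩)))))))))

theorem ok2_4as_4 :
    chkT cF4mn cF4mn T2_4as_4 (13392, 3776) (13024, 3680) dum n2_A2 n2_S3 = true := by
  decide +kernel

/-- tree -/
def T2_4as_5 : CT :=
  .cut1 true 5392 [(6752, 3952), (10704, 1360), (14512, 0), (16000, 0), (14571, 5392), (6829, 5392)]
      [(14571, 5392), (13136, 10800), (11312, 10368), (8000, 8016), (6912, 6928), (6829, 5392)]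
      (.cut2 true 6608 [(8160, 4672), (8448, 3568), (13792, 2480), (13852, 6608), (8475, 6608),
      (8464, 6576)] [(13852, 6608), (13872, 7984), (13088, 10752), (11312, 10368), (8928, 7888),
      (8475, 6608)] (.rel1 [(10704, 1360), (14512, 0), (16000, 0), (14571, 5392), (4555, 5392)]
      (.rel2 [(13792, 2480), (13852, 6608), (8475, 6608), (8464, 6576), (7997, 3658)] (.rel1
      [(16000, 0), (14571, 5392), (4555, 5392), (12777, 0)] (.rel2 [(7997, 3658), (13792, 2480),
      (13852, 6608), (8468, 6608)] (.leaf ⟨1, 0, 2, 0⟩))))) (.cut1 true 2688 [(8679, 2688), (10704,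
      1360), (14512, 0), (16000, 0), (15288, 2688)] [(6752, 3952), (8679, 2688), (15288, 2688),
      (14571, 5392), (6829, 5392)] (.cut2 true 8672 [(13852, 6608), (13872, 7984), (13678, 8672),
      (9681, 8672), (8928, 7888), (8475, 6608)] [(13678, 8672), (13088, 10752), (11312, 10368),
      (9681, 8672)] (.rel1 [(14512, 0), (16000, 0), (15288, 2688), (6984, 2688)] (.rel2 [(14260,
      6608), (13678, 8672), (9681, 8672), (7697, 6607)] (.leaf ⟨4, 0, 7, 0⟩))) (.seg (12784, 3480)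
      (.leaf ⟨49, 0, 63, 0⟩) (.leaf ⟨5, 0, 6, 0⟩))) (.rel1 [(6752, 3952), (8679, 2688), (15288,
      2688), (8128, 29691)] (.rel2 [(13088, 10752), (11312, 10368), (8928, 7888), (8475, 6608),
      (14262, 6608)] (.rel1 [(15288, 2688), (8128, 29691), (6683, 2687)] (.rel2 [(7696, 6607),
      (14262, 6608), (12768, 11883)] (.leaf ⟨1, 0, 2, 0⟩))))))) (.rel1 [(8000, 8016), (6912, 6928),
      (6829, 5392), (14571, 5392), (12943, 11528)] (.rel2 [(13792, 2480), (13872, 7984), (13088,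
      10752), (11312, 10368), (8928, 7888), (8464, 6576), (7997, 3658)] (.rel1 [(6829, 5392),
      (14571, 5392), (12943, 11528), (6928, 7255)] (.rel2 [(13088, 10752), (11312, 10368), (8928,
      7888), (8464, 6576), (7997, 3658), (15532, 2125)] (.rel1 [(14571, 5392), (12943, 11528),
      (4304, 5391)] (.rel2 [(7997, 3658), (15532, 2125), (13088, 10752), (8987, 9866)] (.leaf ⟨0, 0,
      1, 0⟩)))))))

theorem ok2_4as_5 :
    chkT cF4mn cF4mn T2_4as_5 (13024, 3680) (12544, 3280) dum n2_A2 n2_S3 = true := by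
  decide +kernel

/-- tree -/
def T2_4as_6 : CT :=
  .cut1 true 5392 [(6752, 3952), (10704, 1360), (14512, 0), (16000, 0), (14571, 5392), (6829, 5392)]
      [(14571, 5392), (13136, 10800), (11312, 10368), (8000, 8016), (6912, 6928), (6829, 5392)]
      (.cut2 true 6608 [(8160, 4672), (8448, 3568), (13792, 2480), (13852, 6608), (8475, 6608),
      (8464, 6576)] [(13852, 6608), (13872, 7984), (13088, 10752), (11312, 10368), (8928, 7888),
      (8475, 6608)] (.rel1 [(10704, 1360), (14512, 0), (16000, 0), (14571, 5392), (4555, 5392)]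
      (.rel2 [(13792, 2480), (13852, 6608), (8475, 6608), (8464, 6576), (7997, 3658)] (.rel1
      [(16000, 0), (14571, 5392), (4555, 5392), (12777, 0)] (.rel2 [(13792, 2480), (13852, 6608),
      (8475, 6608), (7494, 3758)] (.leaf ⟨2, 0, 2, 0⟩))))) (.cut1 false 11376 [(6752, 3952), (10704,
      1360), (11376, 1120), (11376, 5392), (6829, 5392)] [(11376, 1120), (14512, 0), (16000, 0),
      (14571, 5392), (11376, 5392)] (.cut2 true 8672 [(13852, 6608), (13872, 7984), (13678, 8672),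
      (9681, 8672), (8928, 7888), (8475, 6608)] [(13678, 8672), (13088, 10752), (11312, 10368),
      (9681, 8672)] (.cut2 false 11168 [(11168, 8672), (9681, 8672), (8928, 7888), (8475, 6608),
      (11168, 6608)] [(13852, 6608), (13872, 7984), (13678, 8672), (11168, 8672), (11168, 6608)]
      (.cut1 false 9056 [(6752, 3952), (9056, 2440), (9056, 5392), (6829, 5392)] [(9056, 2440),
      (10704, 1360), (11376, 1120), (11376, 5392), (9056, 5392)] (.rel1 [(6752, 3952), (9056, 2440),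
      (9056, 47040)] (.rel2 [(11168, 6608), (11168, 8672), (9681, 8672), (7697, 6607)] (.leaf ⟨9, 0,
      8, 0⟩))) (.rel1 [(11376, 5392), (9056, 5392), (9056, 2440), (11376, 918)] (.leaf ⟨31, 0, 25,
      0⟩))) (.rel1 [(11376, 5392), (6829, 5392), (6752, 3952), (11376, 918)] (.rel2 [(13678, 8672),
      (11168, 8672), (11168, 6608), (14260, 6608)] (.rel1 [(11376, 918), (11376, 5392), (4556,
      5392)] (.leaf ⟨2, 0, 2, 0⟩))))) (.cut2 false 11664 [(11664, 10445), (11312, 10368), (9681,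
      8672), (11664, 8672)] [(13678, 8672), (13088, 10752), (11664, 10445), (11664, 8672)] (.cut1
      false 9056 [(6752, 3952), (9056, 2440), (9056, 5392), (6829, 5392)] [(9056, 2440), (10704,
      1360), (11376, 1120), (11376, 5392), (9056, 5392)] (.cut2 true 9552 [(10527, 9552), (9681,
      8672), (11664, 8672), (11664, 9552)] [(11664, 10445), (11312, 10368), (10527, 9552), (11664,
      9552)] (.rel1 [(6752, 3952), (9056, 2440), (9056, 47040)] (.leaf ⟨31, 0, 25, 0⟩)) (.rel1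
      [(6752, 3952), (9056, 2440), (9056, 47040)] (.leaf ⟨63, 0, 49, 0⟩))) (.rel1 [(11376, 5392),
      (9056, 5392), (9056, 2440), (11376, 918)] (.rel2 [(9681, 8672), (11664, 8672), (11664, 10735)]
      (.leaf ⟨10, 0, 7, 0⟩)))) (.rel1 [(11376, 918), (11376, 5392), (4556, 5392)] (.leaf ⟨4, 0, 3,
      0⟩)))) (.rel1 [(11376, 1120), (14512, 0), (16000, 0), (11376, 17448)] (.rel2 [(14262, 6608),
      (12768, 11883), (7696, 6607)] (.leaf ⟨10, 0, 7, 0⟩))))) (.rel1 [(6912, 6928), (6829, 5392),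
      (14571, 5392), (13136, 10800), (10053, 10070)] (.rel2 [(13088, 10752), (11312, 10368), (8928,
      7888), (8464, 6576), (8160, 4672), (8448, 3568), (15532, 2124)] (.rel1 [(6829, 5392), (14571,
      5392), (13136, 10800), (7042, 9358)] (.rel2 [(15532, 2124), (13088, 10752), (11312, 10368),
      (8928, 7888), (8464, 6576), (7997, 3658)] (.rel1 [(6829, 5392), (14571, 5392), (8132, 29659)]
      (.rel2 [(15532, 2124), (13088, 10752), (9679, 10015), (7469, 3764)] (.leaf ⟨1, 0, 2, 0⟩)))))))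

theorem ok2_4as_6 :
    chkT cF4mn cF4mn T2_4as_6 (12544, 3280) (12128, 2464) dum n2_A2 n2_S3 = true := by
  decide +kernel

/-- tree -/
def T2_4as_7 : CT :=
  .rel1 [(6752, 3952), (10704, 1360), (14512, 0), (16000, 0), (13136, 10800), (11312, 10368), (6928,
      7255)] (.rel2 [(13088, 10752), (11312, 10368), (8928, 7888), (8464, 6576), (8160, 4672),
      (8448, 3568), (15532, 2124)] (.rel1 [(6928, 7255), (6752, 3952), (10704, 1360), (14512, 0),
      (16000, 0), (12943, 11528)] (.rel2 [(15532, 2124), (12768, 11883), (8928, 7888), (8464, 6576),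
      (7997, 3658)] (.leaf ⟨19, 0, 6, 0⟩))))

theorem ok2_4as_7 :
    chkT cF4mn cF4mn T2_4as_7 (12128, 2464) (12208, 2080) dum n2_A2 n2_S3 = true := by
  decide +kernel

theorem fr2_4as {z k l : ℂ} (hz : OnE v2_4as z) (hk : conj k ∈ Poly p2_A2)
    (hl : l ∈ Poly p2_S3) :
    k ^ 2 + l ^ 2 - 2 * k * l * (8 * z ^ 4 - 8 * z ^ 2 + 1) + (z * (8 * z ^ 3 - 4 * z)) ^ 2 ≠ 0 :=
        by
  have h := edge_use rpF4mn (E := L2_4as) (V0 := dum) (V1 := n2_A2) (V2 := n2_S3) (fun e he => by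
    simp only [L2_4as, List.mem_cons, List.not_mem_nil, or_false] at he
    rcases he with rfl | rfl | rfl | rfl | rfl | rfl | rfl | rfl
    exacts [⟨_, ok2_4as_0⟩, ⟨_, ok2_4as_1⟩, ⟨_, ok2_4as_2⟩, ⟨_, ok2_4as_3⟩, ⟨_, ok2_4as_4⟩, ⟨_,
        ok2_4as_5⟩, ⟨_, ok2_4as_6⟩, ⟨_, ok2_4as_7⟩]) (V := v2_4as) (by decide) hz zero_dum (rg2_A2
        hk) (rg2_S3 hl)
  rw [evF4mn (mr_true k) (mr_false l)] at h
  exact fun h0 => h (by rw [h0, mul_zero])

/-- edges -/
def L2_4zz : List ((ℕ × ℕ) × (ℕ × ℕ)) :=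
  [((12784, 2832), (13584, 2704)), ((13584, 2704), (13792, 2816)), ((13792, 2816), (13440, 3072)),
      ((13440, 3072), (13024, 3360)), ((13024, 3360), (12960, 3312)), ((12960, 3312), (12800,
      2928)), ((12800, 2928), (12784, 2832))]

/-- tree -/
def T2_4zz_0 : CT :=
  .seg (13184, 2768) (.cut1 false 13712 [(11424, 1872), (11616, 1680), (13712, 392), (13712, 2938),
      (13296, 3472), (13008, 3696), (12768, 3648), (11456, 2208)] [(13712, 392), (14352, 0), (16000,
      0), (13712, 2938)] (.cut2 false 13712 [(11424, 1872), (11616, 1680), (13712, 392), (13712,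
      2938), (13296, 3472), (13008, 3696), (12768, 3648), (11456, 2208)] [(13712, 392), (14352, 0),
      (16000, 0), (13712, 2938)] (.cut1 true 2032 [(11424, 1872), (11616, 1680), (13712, 392),
      (13712, 2032), (11439, 2032)] [(13712, 2032), (13712, 2938), (13296, 3472), (13008, 3696),
      (12768, 3648), (11456, 2208), (11439, 2032)] (.cut2 true 2032 [(11424, 1872), (11616, 1680),
      (13712, 392), (13712, 2032), (11439, 2032)] [(13712, 2032), (13712, 2938), (13296, 3472),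
      (13008, 3696), (12768, 3648), (11456, 2208), (11439, 2032)] (.cut2 true 1200 [(12397, 1200),
      (13712, 392), (13712, 1200)] [(11424, 1872), (11616, 1680), (12397, 1200), (13712, 1200),
      (13712, 2032), (11439, 2032)] (.rel1 [(13712, 392), (13712, 26278), (11416, 1801)] (.leaf ⟨8,
      0, 0, 9⟩)) (.rel1 [(11424, 1872), (11616, 1680), (13712, 392), (13712, 26278)] (.rel2 [(11616,
      1680), (12397, 1200), (13712, 1200), (13712, 2032), (11263, 2032)] (.rel1 [(13712, 392),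
      (13712, 26278), (11416, 1801)] (.leaf ⟨25, 0, 0, 31⟩))))) (.rel1 [(11424, 1872), (11616,
      1680), (13712, 392), (13712, 26278)] (.rel2 [(12768, 3648), (11456, 2208), (11439, 2032),
      (13712, 2032), (13712, 2938), (13106, 3716)] (.rel1 [(13712, 392), (13712, 26278), (11416,
      1801)] (.rel2 [(11439, 2032), (14418, 2032), (11767, 5436)] (.leaf ⟨3, 0, 0, 4⟩)))))) (.rel1
      [(13296, 3472), (13008, 3696), (12768, 3648), (11456, 2208), (11439, 2032), (14418, 2032)]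
      (.rel2 [(13008, 3696), (12768, 3648), (11456, 2208), (11424, 1872), (11616, 1680), (13712,
      392), (13712, 3149)] (.rel1 [(12768, 3648), (11456, 2208), (11439, 2032), (14418, 2032),
      (13106, 3716)] (.rel2 [(11456, 2208), (11424, 1872), (11616, 1680), (13712, 392), (13712,
      3149), (12892, 3787)] (.rel1 [(11439, 2032), (14418, 2032), (13106, 3716), (11570, 3407)]
      (.rel2 [(11456, 2208), (11424, 1872), (11616, 1680), (13712, 392), (13712, 4689)] (.rel1
      [(11439, 2032), (14418, 2032), (11763, 5440)] (.rel2 [(13712, 392), (13712, 25896), (11416,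
      1801)] (.leaf ⟨3, 0, 0, 4⟩)))))))))) (.rel1 [(13712, 392), (13712, 25896), (11416, 1801)]
      (.leaf ⟨2, 0, 0, 2⟩))) (.rel2 [(14352, 0), (17749, 0), (11694, 4722), (11416, 1800)] (.leaf
      ⟨2, 0, 0, 2⟩))) (.cut1 true 1840 [(11456, 1840), (11616, 1680), (14352, 0), (16000, 0),
      (14568, 1840)] [(11424, 1872), (11456, 1840), (14568, 1840), (13296, 3472), (13008, 3696),
      (12768, 3648), (11456, 2208)] (.cut2 true 1840 [(11456, 1840), (11616, 1680), (14352, 0),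
      (16000, 0), (14568, 1840)] [(11424, 1872), (11456, 1840), (14568, 1840), (13296, 3472),
      (13008, 3696), (12768, 3648), (11456, 2208)] (.cut1 true 912 [(12866, 912), (14352, 0),
      (16000, 0), (15291, 912)] [(11456, 1840), (11616, 1680), (12866, 912), (15291, 912), (14568,
      1840)] (.cut2 true 912 [(12866, 912), (14352, 0), (16000, 0), (15291, 912)] [(11456, 1840),
      (11616, 1680), (12866, 912), (15291, 912), (14568, 1840)] (.leaf ⟨29, 0, 0, 28⟩) (.rel2
      [(12866, 912), (15291, 912), (14568, 1840), (11354, 1840)] (.leaf ⟨8, 0, 0, 9⟩))) (.rel1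
      [(12866, 912), (15291, 912), (14568, 1840), (11354, 1840)] (.rel2 [(14352, 0), (16000, 0),
      (14568, 1840), (11354, 1840)] (.leaf ⟨8, 0, 0, 9⟩)))) (.rel1 [(14352, 0), (16000, 0), (14568,
      1840), (11354, 1840)] (.rel2 [(14568, 1840), (11761, 5442), (11419, 1839)] (.leaf ⟨1, 0, 0,
      2⟩)))) (.rel1 [(12768, 3648), (11456, 2208), (11424, 1872), (11456, 1840), (14568, 1840),
      (13106, 3716)] (.rel2 [(12768, 3648), (11456, 2208), (11424, 1872), (11616, 1680), (14352, 0),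
      (16000, 0), (13106, 3716)] (.rel1 [(11424, 1872), (11456, 1840), (14568, 1840), (13106, 3716),
      (11569, 3407)] (.rel2 [(11424, 1872), (11616, 1680), (14352, 0), (16000, 0), (13106, 3716),
      (11569, 3407)] (.rel1 [(11424, 1872), (11456, 1840), (14568, 1840), (11761, 5442)] (.rel2
      [(11424, 1872), (11616, 1680), (14352, 0), (16000, 0), (11761, 5444)] (.rel1 [(14568, 1840),
      (11761, 5442), (11419, 1839)] (.rel2 [(16000, 0), (11761, 5444), (11244, 0)] (.leaf ⟨1, 0, 0,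
      5⟩))))))))))

theorem ok2_4zz_0 :
    chkT cF4nn cF4nn T2_4zz_0 (12784, 2832) (13584, 2704) dum n2_Z n2_Z = true := by
  decide +kernel

/-- tree -/
def T2_4zz_1 : CT :=
  .rel1 [(14352, 0), (16000, 0), (13296, 3472), (13008, 3696), (12768, 3648), (11456, 2208), (11416,
      1800)] (.rel2 [(14352, 0), (16000, 0), (13296, 3472), (13008, 3696), (12768, 3648), (11456,
      2208), (11416, 1800)] (.rel1 [(14352, 0), (16000, 0), (13296, 3472), (13008, 3696), (12768,
      3648), (11202, 1930)] (.rel2 [(12768, 3648), (11456, 2208), (11416, 1800), (14352, 0), (16000,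
      0), (13106, 3716)] (.rel1 [(12768, 3648), (11202, 1930), (14352, 0), (16000, 0), (13106,
      3716)] (.rel2 [(11416, 1800), (14352, 0), (16000, 0), (13106, 3716), (11572, 3408)] (.rel1
      [(14352, 0), (16000, 0), (13106, 3716), (9477, 2986)] (.rel2 [(16000, 0), (11768, 5435),
      (11240, 0)] (.leaf ⟨1, 0, 0, 3⟩))))))))

theorem ok2_4zz_1 :
    chkT cF4nn cF4nn T2_4zz_1 (13584, 2704) (13792, 2816) dum n2_Z n2_Z = true := by
  decide +kernel

/-- tree -/
def T2_4zz_2 : CT :=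
  .seg (13616, 2944) (.rel1 [(14352, 0), (16000, 0), (13296, 3472), (13008, 3696), (12768, 3648),
      (11456, 2208), (11416, 1800)] (.rel2 [(16000, 0), (13296, 3472), (13008, 3696), (12768, 3648),
      (11456, 2208), (11424, 1872), (13295, 0)] (.rel1 [(11456, 2208), (11416, 1800), (14352, 0),
      (16000, 0), (13296, 3472), (12892, 3787)] (.rel2 [(11456, 2208), (11424, 1872), (13295, 0),
      (16000, 0), (13296, 3472), (12892, 3787)] (.rel1 [(14352, 0), (16000, 0), (13296, 3472),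
      (12892, 3787), (11202, 1929)] (.rel2 [(13295, 0), (16000, 0), (13296, 3472), (12892, 3787),
      (11279, 2014)] (.rel1 [(16000, 0), (13296, 3472), (12892, 3787), (9446, 0)] (.rel2 [(11279,
      2014), (13295, 0), (16000, 0), (12977, 3882)] (.rel1 [(9446, 0), (16000, 0), (12977, 3882)]
      (.rel2 [(16000, 0), (12977, 3882), (9447, 0)] (.leaf ⟨0, 77, 22, 0⟩))))))))))) (.seg (13528,
      3008) (.rel1 [(14352, 0), (16000, 0), (13296, 3472), (13008, 3696), (12768, 3648), (11456,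
      2208), (11416, 1800)] (.rel2 [(14352, 0), (16000, 0), (13296, 3472), (13008, 3696), (12768,
      3648), (11456, 2208), (11416, 1800)] (.rel1 [(11456, 2208), (11416, 1800), (14352, 0), (16000,
      0), (13296, 3472), (12892, 3787)] (.rel2 [(11456, 2208), (11416, 1800), (14352, 0), (16000,
      0), (13296, 3472), (12892, 3787)] (.rel1 [(14352, 0), (16000, 0), (13296, 3472), (12892,
      3787), (11202, 1929)] (.rel2 [(14352, 0), (16000, 0), (13296, 3472), (12892, 3787), (11202,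
      1929)] (.rel1 [(16000, 0), (13296, 3472), (12892, 3787), (9446, 0)] (.rel2 [(16000, 0),
      (13296, 3472), (12892, 3787), (9446, 0)] (.rel1 [(9446, 0), (16000, 0), (12977, 3882)] (.rel2
      [(9446, 0), (16000, 0), (12977, 3882)] (.leaf ⟨0, 75, 28, 0⟩))))))))))) (.rel1 [(14352, 0),
      (16000, 0), (13296, 3472), (13008, 3696), (12768, 3648), (11456, 2208), (11416, 1800)] (.rel2
      [(14352, 0), (16000, 0), (13296, 3472), (13008, 3696), (12768, 3648), (11456, 2208), (11416,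
      1800)] (.rel1 [(11456, 2208), (11416, 1800), (14352, 0), (16000, 0), (13296, 3472), (12892,
      3787)] (.rel2 [(11456, 2208), (11416, 1800), (14352, 0), (16000, 0), (13296, 3472), (12892,
      3787)] (.rel1 [(14352, 0), (16000, 0), (13296, 3472), (12892, 3787), (11202, 1929)] (.rel2
      [(14352, 0), (16000, 0), (13296, 3472), (12892, 3787), (11202, 1929)] (.rel1 [(16000, 0),
      (13296, 3472), (12892, 3787), (9446, 0)] (.rel2 [(16000, 0), (13296, 3472), (12892, 3787),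
      (9446, 0)] (.rel1 [(9446, 0), (16000, 0), (12977, 3882)] (.rel2 [(9446, 0), (16000, 0),
      (12977, 3882)] (.leaf ⟨0, 11, 5, 0⟩))))))))))))

theorem ok2_4zz_2 :
    chkT cF4nn cF4nn T2_4zz_2 (13792, 2816) (13440, 3072) dum n2_Z n2_Z = true := by
  decide +kernel

/-- tree -/
def T2_4zz_3 : CT :=
  .seg (13232, 3216) (.seg (13336, 3144) (.rel1 [(14352, 0), (16000, 0), (13296, 3472), (13008,
      3696), (12768, 3648), (11456, 2208), (11416, 1800)] (.rel2 [(11456, 2208), (11424, 1872),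
      (11616, 1680), (14352, 0), (16000, 0), (13296, 3472), (12892, 3787)] (.rel1 [(11456, 2208),
      (11416, 1800), (14352, 0), (16000, 0), (13296, 3472), (12892, 3787)] (.rel2 [(11616, 1680),
      (14352, 0), (16000, 0), (13296, 3472), (12892, 3787), (11279, 2014)] (.rel1 [(14352, 0),
      (16000, 0), (13296, 3472), (12892, 3787), (11202, 1929)] (.rel2 [(16000, 0), (13296, 3472),
      (12892, 3787), (11279, 2014), (13310, 0)] (.rel1 [(16000, 0), (13296, 3472), (12892, 3787),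
      (9446, 0)] (.rel2 [(11279, 2014), (13310, 0), (16000, 0), (12977, 3882)] (.rel1 [(9446, 0),
      (16000, 0), (12977, 3882)] (.rel2 [(16000, 0), (12977, 3882), (9447, 0)] (.leaf ⟨0, 7, 4,
      0⟩))))))))))) (.rel1 [(14352, 0), (16000, 0), (13296, 3472), (13008, 3696), (12768, 3648),
      (11456, 2208), (11416, 1800)] (.rel2 [(14352, 0), (16000, 0), (13296, 3472), (13008, 3696),
      (12768, 3648), (11456, 2208), (11416, 1800)] (.rel1 [(11456, 2208), (11416, 1800), (14352, 0),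
      (16000, 0), (13296, 3472), (12892, 3787)] (.rel2 [(11456, 2208), (11416, 1800), (14352, 0),
      (16000, 0), (13296, 3472), (12892, 3787)] (.rel1 [(14352, 0), (16000, 0), (13296, 3472),
      (12892, 3787), (11202, 1929)] (.rel2 [(14352, 0), (16000, 0), (13296, 3472), (12892, 3787),
      (11202, 1929)] (.rel1 [(16000, 0), (13296, 3472), (12892, 3787), (9446, 0)] (.rel2 [(16000,
      0), (13296, 3472), (12892, 3787), (9446, 0)] (.rel1 [(9446, 0), (16000, 0), (12977, 3882)]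
      (.rel2 [(9446, 0), (16000, 0), (12977, 3882)] (.leaf ⟨0, 67, 44, 0⟩)))))))))))) (.cut1 true
      1840 [(11456, 1840), (11616, 1680), (14352, 0), (16000, 0), (14568, 1840)] [(11424, 1872),
      (11456, 1840), (14568, 1840), (13296, 3472), (13008, 3696), (12768, 3648), (11456, 2208)]
      (.rel1 [(16000, 0), (14568, 1840), (11456, 1840), (13295, 0)] (.rel2 [(11572, 3409), (11240,
      0), (16000, 0), (13106, 3716)] (.leaf ⟨0, 1, 2, 0⟩))) (.cut2 true 1840 [(11456, 1840), (11616,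
      1680), (14352, 0), (16000, 0), (14568, 1840)] [(11424, 1872), (11456, 1840), (14568, 1840),
      (13296, 3472), (13008, 3696), (12768, 3648), (11456, 2208)] (.rel1 [(14568, 1840), (13296,
      3472), (13008, 3696), (12768, 3648), (11456, 2208), (11419, 1839)] (.rel2 [(16000, 0), (14568,
      1840), (11456, 1840), (13295, 0)] (.rel1 [(11118, 1838), (14568, 1840), (12978, 3881)] (.leaf
      ⟨0, 1, 2, 0⟩)))) (.seg (13128, 3288) (.rel1 [(14568, 1840), (13296, 3472), (13008, 3696),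
      (12768, 3648), (11456, 2208), (11419, 1839)] (.rel2 [(14568, 1840), (13296, 3472), (13008,
      3696), (12768, 3648), (11456, 2208), (11419, 1839)] (.rel1 [(11456, 2208), (11419, 1839),
      (14568, 1840), (13296, 3472), (12892, 3787)] (.rel2 [(11456, 2208), (11419, 1839), (14568,
      1840), (13296, 3472), (12892, 3787)] (.rel1 [(14568, 1840), (13296, 3472), (12892, 3787),
      (11119, 1838)] (.rel2 [(14568, 1840), (13296, 3472), (12892, 3787), (11119, 1838)] (.rel1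
      [(11119, 1838), (14568, 1840), (12977, 3882)] (.rel2 [(11119, 1838), (14568, 1840), (12977,
      3882)] (.leaf ⟨0, 4, 3, 0⟩))))))))) (.rel1 [(14568, 1840), (13296, 3472), (13008, 3696),
      (12768, 3648), (11456, 2208), (11419, 1839)] (.rel2 [(14568, 1840), (13296, 3472), (13008,
      3696), (12768, 3648), (11456, 2208), (11419, 1839)] (.rel1 [(11456, 2208), (11419, 1839),
      (14568, 1840), (13296, 3472), (12892, 3787)] (.rel2 [(11456, 2208), (11419, 1839), (14568,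
      1840), (13296, 3472), (12892, 3787)] (.rel1 [(14568, 1840), (13296, 3472), (12892, 3787),
      (11119, 1838)] (.rel2 [(14568, 1840), (13296, 3472), (12892, 3787), (11119, 1838)] (.rel1
      [(11119, 1838), (14568, 1840), (12977, 3882)] (.rel2 [(11119, 1838), (14568, 1840), (12977,
      3882)] (.leaf ⟨0, 9, 8, 0⟩))))))))))))

theorem ok2_4zz_3 :
    chkT cF4nn cF4nn T2_4zz_3 (13440, 3072) (13024, 3360) dum n2_Z n2_Z = true := by
  decide +kernel

/-- tree -/
def T2_4zz_4 : CT :=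
  .rel1 [(14352, 0), (16000, 0), (13296, 3472), (13008, 3696), (12768, 3648), (11456, 2208), (11416,
      1800)] (.rel2 [(14352, 0), (16000, 0), (13296, 3472), (13008, 3696), (12768, 3648), (11456,
      2208), (11416, 1800)] (.rel1 [(13008, 3696), (12768, 3648), (11456, 2208), (11416, 1800),
      (14352, 0), (17760, 0)] (.rel2 [(13008, 3696), (12768, 3648), (11456, 2208), (11416, 1800),
      (14352, 0), (17760, 0)] (.rel1 [(14352, 0), (17760, 0), (13008, 3696), (12768, 3648), (11202,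
      1930)] (.rel2 [(14352, 0), (17760, 0), (13008, 3696), (12768, 3648), (11202, 1930)] (.rel1
      [(17760, 0), (13008, 3696), (12768, 3648), (9441, 0)] (.rel2 [(17760, 0), (13008, 3696),
      (12768, 3648), (9441, 0)] (.rel1 [(9441, 0), (17760, 0), (12892, 3787)] (.leaf ⟨3, 0, 7,
      0⟩)))))))))

theorem ok2_4zz_4 :
    chkT cF4nn cF4nn T2_4zz_4 (13024, 3360) (12960, 3312) dum n2_Z n2_Z = true := by
  decide +kernel

/-- tree -/
def T2_4zz_5 : CT :=
  .cut1 false 13712 [(11424, 1872), (11616, 1680), (13712, 392), (13712, 2938), (13296, 3472),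
      (13008, 3696), (12768, 3648), (11456, 2208)] [(13712, 392), (14352, 0), (16000, 0), (13712,
      2938)] (.cut2 false 13712 [(11424, 1872), (11616, 1680), (13712, 392), (13712, 2938), (13296,
      3472), (13008, 3696), (12768, 3648), (11456, 2208)] [(13712, 392), (14352, 0), (16000, 0),
      (13712, 2938)] (.cut1 true 2032 [(11424, 1872), (11616, 1680), (13712, 392), (13712, 2032),
      (11439, 2032)] [(13712, 2032), (13712, 2938), (13296, 3472), (13008, 3696), (12768, 3648),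
      (11456, 2208), (11439, 2032)] (.rel1 [(13712, 392), (13712, 2032), (11439, 2032), (11416,
      1801)] (.rel2 [(11202, 1930), (13712, 392), (13712, 4684)] (.leaf ⟨6, 0, 5, 0⟩))) (.cut2 true
      2032 [(11424, 1872), (11616, 1680), (13712, 392), (13712, 2032), (11439, 2032)] [(13712,
      2032), (13712, 2938), (13296, 3472), (13008, 3696), (12768, 3648), (11456, 2208), (11439,
      2032)] (.rel1 [(13296, 3472), (13008, 3696), (12768, 3648), (11456, 2208), (11439, 2032),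
      (14418, 2032)] (.rel2 [(13712, 392), (13712, 2032), (11439, 2032), (11416, 1801)] (.rel1
      [(11294, 2031), (14418, 2032), (12978, 3881)] (.leaf ⟨2, 0, 2, 0⟩)))) (.cut1 true 2864
      [(13712, 2032), (13712, 2864), (12053, 2864), (11456, 2208), (11439, 2032)] [(13712, 2864),
      (13712, 2938), (13296, 3472), (13008, 3696), (12768, 3648), (12053, 2864)] (.cut1 false 12560
      [(12560, 2864), (12053, 2864), (11456, 2208), (11439, 2032), (12560, 2032)] [(13712, 2032),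
      (13712, 2864), (12560, 2864), (12560, 2032)] (.cut2 true 2864 [(13712, 2032), (13712, 2864),
      (12053, 2864), (11456, 2208), (11439, 2032)] [(13712, 2864), (13712, 2938), (13296, 3472),
      (13008, 3696), (12768, 3648), (12053, 2864)] (.rel1 [(12560, 2032), (12560, 2864), (12053,
      2864), (11294, 2031)] (.rel2 [(13712, 2032), (13712, 2864), (12053, 2864), (11294, 2031)]
      (.leaf ⟨9, 0, 8, 0⟩))) (.rel1 [(12560, 2032), (12560, 2864), (12053, 2864), (11294, 2031)]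
      (.rel2 [(12053, 2864), (13770, 2864), (12978, 3881)] (.leaf ⟨6, 0, 5, 0⟩)))) (.rel2 [(14418,
      2032), (12978, 3881), (11294, 2031)] (.leaf ⟨2, 0, 2, 0⟩))) (.cut1 false 12880 [(12880, 3671),
      (12768, 3648), (12053, 2864), (12880, 2864)] [(13712, 2864), (13712, 2938), (13296, 3472),
      (13008, 3696), (12880, 3671), (12880, 2864)] (.cut2 true 2864 [(13712, 2032), (13712, 2864),
      (12053, 2864), (11456, 2208), (11439, 2032)] [(13712, 2864), (13712, 2938), (13296, 3472),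
      (13008, 3696), (12768, 3648), (12053, 2864)] (.rel1 [(12053, 2864), (12880, 2864), (12880,
      3771)] (.rel2 [(13712, 2032), (13712, 2864), (12053, 2864), (11294, 2031)] (.leaf ⟨6, 0, 5,
      0⟩))) (.rel1 [(12053, 2864), (12880, 2864), (12880, 3771)] (.rel2 [(12053, 2864), (13770,
      2864), (12978, 3880)] (.leaf ⟨31, 0, 25, 0⟩)))) (.rel1 [(12880, 3671), (12880, 2864), (13712,
      2864), (13712, 2938), (13106, 3716)] (.rel2 [(12768, 3648), (11456, 2208), (11439, 2032),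
      (13712, 2032), (13712, 2938), (13106, 3716)] (.rel1 [(13106, 3716), (12880, 3671), (12880,
      2864), (13770, 2864)] (.rel2 [(14418, 2032), (12978, 3881), (11294, 2031)] (.leaf ⟨4, 0, 3,
      0⟩))))))))) (.rel1 [(13008, 3696), (12768, 3648), (11456, 2208), (11424, 1872), (11616, 1680),
      (13712, 392), (13712, 3149)] (.rel2 [(16000, 0), (13712, 2938), (13711, 0)] (.rel1 [(11202,
      1930), (13712, 392), (13712, 4684)] (.leaf ⟨2, 0, 2, 0⟩))))) (.rel1 [(16000, 0), (13712,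
      2938), (13711, 0)] (.rel2 [(17760, 0), (12892, 3787), (9446, 0)] (.leaf ⟨2, 0, 2, 0⟩)))

theorem ok2_4zz_5 :
    chkT cF4nn cF4nn T2_4zz_5 (12960, 3312) (12800, 2928) dum n2_Z n2_Z = true := by
  decide +kernel

/-- tree -/
def T2_4zz_6 : CT :=
  .rel1 [(16000, 0), (13296, 3472), (13008, 3696), (12768, 3648), (11456, 2208), (11424, 1872),
      (13295, 0)] (.rel2 [(16000, 0), (13296, 3472), (13008, 3696), (12768, 3648), (11456, 2208),
      (11424, 1872), (13295, 0)] (.rel1 [(13008, 3696), (12768, 3648), (11456, 2208), (11424, 1872),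
      (13295, 0), (17760, 0)] (.rel2 [(13008, 3696), (12768, 3648), (11456, 2208), (11424, 1872),
      (13295, 0), (17760, 0)] (.rel1 [(11456, 2208), (11424, 1872), (13295, 0), (17760, 0), (12892,
      3787)] (.rel2 [(11456, 2208), (11424, 1872), (13295, 0), (17760, 0), (12892, 3787)] (.rel1
      [(17760, 0), (12892, 3787), (11456, 2208), (11244, 0)] (.rel2 [(17760, 0), (12892, 3787),
      (11456, 2208), (11244, 0)] (.leaf ⟨7, 0, 4, 0⟩))))))))

theorem ok2_4zz_6 :
    chkT cF4nn cF4nn T2_4zz_6 (12800, 2928) (12784, 2832) dum n2_Z n2_Z = true := by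
  decide +kernel

theorem fr2_4zz {z k l : ℂ} (hz : OnE v2_4zz z) (hk : k ∈ Poly p2_Z)
    (hl : l ∈ Poly p2_Z) :
    k ^ 2 + l ^ 2 - 2 * k * l * (8 * z ^ 4 - 8 * z ^ 2 + 1) + (z * (8 * z ^ 3 - 4 * z)) ^ 2 ≠ 0 :=
        by
  have h := edge_use rpF4nn (E := L2_4zz) (V0 := dum) (V1 := n2_Z) (V2 := n2_Z) (fun e he => by
    simp only [L2_4zz, List.mem_cons, List.not_mem_nil, or_false] at he
    rcases he with rfl | rfl | rfl | rfl | rfl | rfl | rfl
    exacts [⟨_, ok2_4zz_0⟩, ⟨_, ok2_4zz_1⟩, ⟨_, ok2_4zz_2⟩, ⟨_, ok2_4zz_3⟩, ⟨_, ok2_4zz_4⟩, ⟨_,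
        ok2_4zz_5⟩, ⟨_, ok2_4zz_6⟩]) (V := v2_4zz) (by decide) hz zero_dum (rg2_Z hk) (rg2_Z hl)
  rw [evF4nn (mr_false k) (mr_false l)] at h
  exact fun h0 => h (by rw [h0, mul_zero])

end Pool.Agent.Work.MP_b30479_gtS.G2.SC

end
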