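import Pool.Agent.Work.MP_b30479_gt.TBS.G2.ZRAe

section

/-!
# Frontier of the rings with 3 crossings

Generated certificates (see `S2Cert`).
-/

set_option linter.style.longLine false

set_option deprecated.oldSectionVars true

namespace Pool.Agent.Work.MP_b30479_gtS.G2.SC

open scoped ComplexConjugate

/-- edges -/
def L3aa : List ((ℕ × ℕ) × (ℕ × ℕ)) :=
  [((11424, 2224), (12192, 1680)), ((12192, 1680), (13792, 1680)), ((13792, 1680), (13968, 3504)),
    ((13968, 3504), (13632, 4784)), ((13632, 4784), (12704, 4784)), ((12704, 4784), (11424,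
    3696)), ((11424, 3696), (11424, 2224))]

/-- tree -/
def T3aa_0 : CT := .rel1 [(6720, 0), (16000, 0), (12874, 12505), (6720, 7120)] (.rel2 [(6720,
    3936), (12256, 0), (16000, 0), (12874, 12505), (6720, 7120)] (.leaf ⟨20, 0, 22, 0⟩))

theorem ok3aa_0 : chkT cF3mm cF3mm T3aa_0 (11424, 2224) (12192, 1680) dum nA nA = true := by
  decide +kernel

/-- tree -/
def T3aa_1 : CT := .rel1 [(6720, 0), (16000, 0), (13055, 11780), (6720, 7344)] (.rel2 [(6720, 0),
    (16000, 0), (13055, 11780), (6720, 7344)] (.leaf ⟨9, 0, 3, 0⟩))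

theorem ok3aa_1 : chkT cF3mm cF3mm T3aa_1 (12192, 1680) (13792, 1680) dum nA nA = true := by
  decide +kernel

/-- tree -/
def T3aa_2 : CT := .rel1 [(6720, 0), (16000, 0), (13280, 11040), (6720, 10400)] (.rel2 [(6720, 0),
    (16000, 0), (13280, 11040), (6720, 10400)] (.seg (13880, 2592) (.leaf ⟨3, 0, 0, 9⟩) (.leaf ⟨0,
    2, 0, 10⟩)))

theorem ok3aa_2 : chkT cF3mm cF3mm T3aa_2 (13792, 1680) (13968, 3504) dum nA nA = true := by
  decide +kernel

/-- tree -/
def T3aa_3 : CT := .rel1 [(6720, 0), (16000, 0), (13280, 11040), (6720, 10400)] (.rel2 [(6720, 0),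
    (16000, 0), (13280, 11040), (6720, 10400)] (.rel1 [(6720, 0), (16000, 0), (6720, 37666)]
    (.rel2 [(6720, 0), (16000, 0), (6720, 37666)] (.leaf ⟨0, 7, 0, 7⟩))))

theorem ok3aa_3 : chkT cF3mm cF3mm T3aa_3 (13968, 3504) (13632, 4784) dum nA nA = true := by
  decide +kernel

/-- tree -/
def T3aa_4 : CT := .rel1 [(6720, 0), (16000, 0), (13280, 11040), (6720, 10400)] (.rel2 [(6720, 0),
    (16000, 0), (13280, 11040), (6720, 10400)] (.rel1 [(6720, 0), (16000, 0), (6720, 37666)]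
    (.rel2 [(6720, 0), (16000, 0), (6720, 37666)] (.leaf ⟨0, 7, 7, 0⟩))))

theorem ok3aa_4 : chkT cF3mm cF3mm T3aa_4 (13632, 4784) (12704, 4784) dum nA nA = true := by
  decide +kernel

/-- tree -/
def T3aa_5 : CT := .rel1 [(6720, 3936), (12256, 0), (16000, 0), (6720, 37123)] (.rel2 [(12256, 0),
    (16000, 0), (12874, 12505), (4712, 5363)] (.leaf ⟨0, 1, 10, 0⟩))

theorem ok3aa_5 : chkT cF3mm cF3mm T3aa_5 (12704, 4784) (11424, 3696) dum nA nA = true := by
  decide +kernel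

/-- tree -/
def T3aa_6 : CT := .rel1 [(6720, 3936), (12256, 0), (16000, 0), (6720, 37123)] (.rel2 [(6720,
    3936), (12256, 0), (16000, 0), (12874, 12505), (6720, 7120)] (.leaf ⟨2, 0, 10, 0⟩))

theorem ok3aa_6 : chkT cF3mm cF3mm T3aa_6 (11424, 3696) (11424, 2224) dum nA nA = true := by
  decide +kernel

theorem fr3aa {z k l : ℂ} (hz : OnE (vt .t3aa) z) (hk : conj k ∈ Poly pA) (hl : conj l ∈ Poly pA) :
    k ^ 2 + l ^ 2 - 2 * k * l * (4 * z ^ 3 - 3 * z) + (z * (4 * z ^ 2 - 1)) ^ 2 ≠ 0 := by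
  have h := edge_use rpF3mm (E := L3aa) (V0 := dum) (V1 := nA) (V2 := nA) (fun e he => by
    simp only [L3aa, List.mem_cons, List.not_mem_nil, or_false] at he
    rcases he with rfl | rfl | rfl | rfl | rfl | rfl | rfl
    exacts [⟨_, ok3aa_0⟩, ⟨_, ok3aa_1⟩, ⟨_, ok3aa_2⟩, ⟨_, ok3aa_3⟩, ⟨_, ok3aa_4⟩, ⟨_, ok3aa_5⟩, ⟨_, ok3aa_6⟩]) (V := vt .t3aa) (by decide) hz zero_dum (rgA hk) (rgA hl)
  rw [evF3mm (mr_true k) (mr_true l)] at h
  exact fun h0 => h (by rw [h0, mul_zero])

/-- edges -/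
def L3as : List ((ℕ × ℕ) × (ℕ × ℕ)) :=
  [((10544, 3472), (11552, 2752)), ((11552, 2752), (13648, 2752)), ((13648, 2752), (13792, 4224)),
    ((13792, 4224), (13216, 6416)), ((13216, 6416), (12256, 6416)), ((12256, 6416), (10544,
    4960)), ((10544, 4960), (10544, 3472))]

/-- tree -/
def T3as_0 : CT := .rel1 [(6720, 0), (16000, 0), (12874, 12505), (6720, 7120)] (.rel2 [(8000,
    3520), (12800, 0), (16000, 0), (13020, 11922), (8000, 7680)] (.leaf ⟨10, 0, 0, 0⟩))

theorem ok3as_0 : chkT cF3mn cF3mn T3as_0 (10544, 3472) (11552, 2752) dum nA nS = true := by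
  decide +kernel

/-- tree -/
def T3as_1 : CT := .rel1 [(6720, 0), (16000, 0), (13055, 11780), (6720, 7344)] (.rel2 [(12800, 0),
    (16000, 0), (13020, 11922), (5364, 5453)] (.leaf ⟨10, 0, 0, 2⟩))

theorem ok3as_1 : chkT cF3mn cF3mn T3as_1 (11552, 2752) (13648, 2752) dum nA nS = true := by
  decide +kernel

/-- tree -/
def T3as_2 : CT := .rel1 [(6720, 0), (16000, 0), (13280, 11040), (6720, 10400)] (.rel2 [(8000, 0),
    (16000, 0), (13280, 11040), (8000, 10400)] (.rel2 [(8000, 0), (16000, 0), (8000, 32471)]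
    (.leaf ⟨0, 3, 0, 10⟩)))

theorem ok3as_2 : chkT cF3mn cF3mn T3as_2 (13648, 2752) (13792, 4224) dum nA nS = true := by
  decide +kernel

/-- tree -/
def T3as_3 : CT := .rel1 [(6720, 0), (16000, 0), (13280, 11040), (6720, 10400)] (.rel2 [(8000, 0),
    (16000, 0), (13280, 11040), (8000, 10400)] (.seg (13504, 5320) (.rel1 [(6720, 0), (16000, 0),
    (6720, 37666)] (.leaf ⟨0, 9, 0, 5⟩)) (.rel1 [(6720, 0), (16000, 0), (6720, 37666)] (.leaf ⟨0,
    30, 0, 5⟩))))

theorem ok3as_3 : chkT cF3mn cF3mn T3as_3 (13792, 4224) (13216, 6416) dum nA nS = true := by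
  decide +kernel

/-- tree -/
def T3as_4 : CT := .rel1 [(6720, 0), (16000, 0), (6720, 37123)] (.rel2 [(8000, 0), (16000, 0),
    (13296, 10816), (11712, 10816), (8000, 7680)] (.leaf ⟨0, 1, 10, 0⟩))

theorem ok3as_4 : chkT cF3mn cF3mn T3as_4 (13216, 6416) (12256, 6416) dum nA nS = true := by
  decide +kernel

/-- tree -/
def T3as_5 : CT := .seg (11400, 5688) (.rel1 [(6720, 3936), (12256, 0), (16000, 0), (6720, 37123)]
    (.rel2 [(8000, 0), (16000, 0), (13020, 11922), (8000, 7680)] (.leaf ⟨6, 0, 8, 0⟩))) (.rel1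
    [(6720, 3936), (12256, 0), (16000, 0), (6720, 37123)] (.rel2 [(8000, 3520), (12800, 0),
    (16000, 0), (13020, 11922), (8000, 7680)] (.leaf ⟨7, 0, 7, 0⟩)))

theorem ok3as_5 : chkT cF3mn cF3mn T3as_5 (12256, 6416) (10544, 4960) dum nA nS = true := by
  decide +kernel

/-- tree -/
def T3as_6 : CT := .rel1 [(6720, 3936), (12256, 0), (16000, 0), (12874, 12505), (6720, 7120)]
    (.rel2 [(8000, 0), (16000, 0), (13020, 11922), (8000, 7680)] (.leaf ⟨9, 0, 4, 0⟩))

theorem ok3as_6 : chkT cF3mn cF3mn T3as_6 (10544, 4960) (10544, 3472) dum nA nS = true := by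
  decide +kernel

theorem fr3as {z k l : ℂ} (hz : OnE (vt .t3as) z) (hk : conj k ∈ Poly pA) (hl : l ∈ Poly pS) :
    k ^ 2 + l ^ 2 - 2 * k * l * (4 * z ^ 3 - 3 * z) + (z * (4 * z ^ 2 - 1)) ^ 2 ≠ 0 := by
  have h := edge_use rpF3mn (E := L3as) (V0 := dum) (V1 := nA) (V2 := nS) (fun e he => by
    simp only [L3as, List.mem_cons, List.not_mem_nil, or_false] at he
    rcases he with rfl | rfl | rfl | rfl | rfl | rfl | rfl
    exacts [⟨_, ok3as_0⟩, ⟨_, ok3as_1⟩, ⟨_, ok3as_2⟩, ⟨_, ok3as_3⟩, ⟨_, ok3as_4⟩, ⟨_, ok3as_5⟩, ⟨_, ok3as_6⟩]) (V := vt .t3as) (by decide) hz zero_dum (rgA hk) (rgS hl)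
  rw [evF3mn (mr_true k) (mr_false l)] at h
  exact fun h0 => h (by rw [h0, mul_zero])

/-- edges -/
def L3ss : List ((ℕ × ℕ) × (ℕ × ℕ)) :=
  [((10192, 5472), (11728, 4384)), ((11728, 4384), (13680, 4384)), ((13680, 4384), (13696, 4704)),
    ((13696, 4704), (12928, 7792)), ((12928, 7792), (12624, 8624)), ((12624, 8624), (11728,
    8624)), ((11728, 8624), (10192, 7280)), ((10192, 7280), (10192, 5472))]

/-- tree -/
def T3ss_0 : CT := .seg (10960, 4928) (.seg (10576, 5200) (.rel1 [(8000, 3520), (12800, 0),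
    (16000, 0), (8000, 32006)] (.rel2 [(8000, 3520), (12800, 0), (16000, 0), (13020, 11922),
    (8000, 7680)] (.leaf ⟨7, 0, 0, 8⟩))) (.rel1 [(8000, 3520), (12800, 0), (16000, 0), (8000,
    32006)] (.rel2 [(8000, 3520), (12800, 0), (16000, 0), (13020, 11922), (8000, 7680)] (.leaf ⟨7,
    0, 0, 8⟩)))) (.rel1 [(8000, 3520), (12800, 0), (16000, 0), (8000, 32006)] (.rel2 [(8000,
    3520), (12800, 0), (16000, 0), (13020, 11922), (8000, 7680)] (.leaf ⟨7, 0, 0, 7⟩)))

theorem ok3ss_0 : chkT cF3nn cF3nn T3ss_0 (10192, 5472) (11728, 4384) dum nS nS = true := by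
  decide +kernel

/-- tree -/
def T3ss_1 : CT := .rel1 [(12800, 0), (16000, 0), (13020, 11922), (5364, 5453)] (.rel2 [(8000,
    3520), (12800, 0), (16000, 0), (8000, 32006)] (.leaf ⟨6, 0, 0, 8⟩))

theorem ok3ss_1 : chkT cF3nn cF3nn T3ss_1 (11728, 4384) (13680, 4384) dum nS nS = true := by
  decide +kernel

/-- tree -/
def T3ss_2 : CT := .rel1 [(8000, 0), (16000, 0), (13280, 11040), (8000, 10400)] (.rel2 [(8000, 0),
    (16000, 0), (13280, 11040), (8000, 10400)] (.rel1 [(8000, 0), (16000, 0), (8000, 32471)]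
    (.rel2 [(8000, 0), (16000, 0), (8000, 32471)] (.leaf ⟨0, 3, 0, 9⟩))))

theorem ok3ss_2 : chkT cF3nn cF3nn T3ss_2 (13680, 4384) (13696, 4704) dum nS nS = true := by
  decide +kernel

/-- tree -/
def T3ss_3 : CT := .seg (13312, 6248) (.rel1 [(8000, 0), (16000, 0), (13296, 10816), (8000,
    10816)] (.rel2 [(8000, 0), (16000, 0), (13296, 10816), (8000, 10816)] (.leaf ⟨0, 10, 0, 3⟩)))
    (.rel1 [(8000, 0), (16000, 0), (13296, 10816), (8000, 10816)] (.rel2 [(8000, 0), (16000, 0),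
    (13296, 10816), (8000, 10816)] (.leaf ⟨0, 29, 7, 0⟩)))

theorem ok3ss_3 : chkT cF3nn cF3nn T3ss_3 (13696, 4704) (12928, 7792) dum nS nS = true := by
  decide +kernel

/-- tree -/
def T3ss_4 : CT := .rel1 [(8000, 0), (16000, 0), (13280, 11040), (8000, 10400)] (.rel2 [(8000, 0),
    (16000, 0), (13280, 11040), (8000, 10400)] (.leaf ⟨0, 8, 6, 0⟩))

theorem ok3ss_4 : chkT cF3nn cF3nn T3ss_4 (12928, 7792) (12624, 8624) dum nS nS = true := by
  decide +kernel

/-- tree -/
def T3ss_5 : CT := .rel1 [(8000, 0), (16000, 0), (13280, 11040), (8000, 10400)] (.rel2 [(8000, 0),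
    (16000, 0), (13280, 11040), (8000, 10400)] (.leaf ⟨5, 0, 9, 0⟩))

theorem ok3ss_5 : chkT cF3nn cF3nn T3ss_5 (12624, 8624) (11728, 8624) dum nS nS = true := by
  decide +kernel

/-- tree -/
def T3ss_6 : CT := .seg (10960, 7952) (.rel1 [(8000, 0), (16000, 0), (13020, 11922), (8000, 7680)]
    (.rel2 [(8000, 0), (16000, 0), (13020, 11922), (8000, 7680)] (.leaf ⟨9, 0, 3, 0⟩))) (.rel1
    [(8000, 0), (16000, 0), (13020, 11922), (8000, 7680)] (.rel2 [(8000, 0), (16000, 0), (13020,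
    11922), (8000, 7680)] (.leaf ⟨10, 0, 2, 0⟩)))

theorem ok3ss_6 : chkT cF3nn cF3nn T3ss_6 (11728, 8624) (10192, 7280) dum nS nS = true := by
  decide +kernel

/-- tree -/
def T3ss_7 : CT := .cut1 false 12000 [(8000, 3520), (12000, 586), (12000, 10816), (11712, 10816),
    (8000, 7680)] [(12000, 586), (12800, 0), (16000, 0), (13296, 10816), (12000, 10816)] (.cut2
    false 12000 [(8000, 3520), (12000, 586), (12000, 10816), (11712, 10816), (8000, 7680)]
    [(12000, 586), (12800, 0), (16000, 0), (13296, 10816), (12000, 10816)] (.cut1 true 5701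
    [(8000, 3520), (12000, 586), (12000, 5701), (8000, 5701)] [(12000, 5701), (12000, 10816),
    (11712, 10816), (8000, 7680), (8000, 5701)] (.rel2 [(8000, 3520), (12000, 586), (12000,
    11060), (8000, 7680)] (.leaf ⟨9, 0, 0, 4⟩)) (.rel1 [(12000, 5701), (12000, 11060), (8000,
    7680), (8000, 5701)] (.rel2 [(8000, 3520), (12000, 586), (12000, 11060), (8000, 7680)] (.leaf
    ⟨9, 0, 0, 5⟩)))) (.rel1 [(12000, 586), (12000, 11060), (5364, 5453)] (.rel2 [(12000, 0),
    (16000, 0), (12000, 16000)] (.leaf ⟨25, 0, 0, 17⟩)))) (.rel1 [(12000, 0), (16000, 0), (12000,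
    16000)] (.rel2 [(8000, 0), (16000, 0), (13020, 11922), (8000, 7680)] (.leaf ⟨9, 0, 0, 4⟩)))

theorem ok3ss_7 : chkT cF3nn cF3nn T3ss_7 (10192, 7280) (10192, 5472) dum nS nS = true := by
  decide +kernel

theorem fr3ss {z k l : ℂ} (hz : OnE (vt .t3ss) z) (hk : k ∈ Poly pS) (hl : l ∈ Poly pS) :
    k ^ 2 + l ^ 2 - 2 * k * l * (4 * z ^ 3 - 3 * z) + (z * (4 * z ^ 2 - 1)) ^ 2 ≠ 0 := by
  have h := edge_use rpF3nn (E := L3ss) (V0 := dum) (V1 := nS) (V2 := nS) (fun e he => by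
    simp only [L3ss, List.mem_cons, List.not_mem_nil, or_false] at he
    rcases he with rfl | rfl | rfl | rfl | rfl | rfl | rfl | rfl
    exacts [⟨_, ok3ss_0⟩, ⟨_, ok3ss_1⟩, ⟨_, ok3ss_2⟩, ⟨_, ok3ss_3⟩, ⟨_, ok3ss_4⟩, ⟨_, ok3ss_5⟩, ⟨_, ok3ss_6⟩, ⟨_, ok3ss_7⟩]) (V := vt .t3ss) (by decide) hz zero_dum (rgS hk) (rgS hl)
  rw [evF3nn (mr_false k) (mr_false l)] at h
  exact fun h0 => h (by rw [h0, mul_zero])

/-- edges -/
def L3ae : List ((ℕ × ℕ) × (ℕ × ℕ)) :=
  [((9824, 1872), (10384, 1456)), ((10384, 1456), (11824, 1456)), ((11824, 1456), (11920, 2448)),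
    ((11920, 2448), (11248, 4128)), ((11248, 4128), (10528, 4128)), ((10528, 4128), (9824, 3520)),
    ((9824, 3520), (9824, 1872))]

/-- tree -/
def T3ae_0 : CT := .rel2 [(6720, 0), (16000, 0), (6720, 37123)] (.leaf ⟨10, 0, 0, 0⟩)

theorem ok3ae_0 : chkT cG3m cG3m T3ae_0 (9824, 1872) (10384, 1456) dum dum nA = true := by
  decide +kernel

/-- tree -/
def T3ae_1 : CT := .rel2 [(6720, 0), (16000, 0), (12874, 12505), (6720, 7120)] (.leaf ⟨9, 0, 0,
    4⟩)

theorem ok3ae_1 : chkT cG3m cG3m T3ae_1 (10384, 1456) (11824, 1456) dum dum nA = true := by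
  decide +kernel

/-- tree -/
def T3ae_2 : CT := .rel2 [(6720, 0), (16000, 0), (13296, 10816), (6720, 10816)] (.leaf ⟨0, 2, 0,
    10⟩)

theorem ok3ae_2 : chkT cG3m cG3m T3ae_2 (11824, 1456) (11920, 2448) dum dum nA = true := by
  decide +kernel

/-- tree -/
def T3ae_3 : CT := .rel2 [(6720, 0), (16000, 0), (6720, 37120)] (.leaf ⟨0, 29, 0, 7⟩)

theorem ok3ae_3 : chkT cG3m cG3m T3ae_3 (11920, 2448) (11248, 4128) dum dum nA = true := by
  decide +kernel

/-- tree -/
def T3ae_4 : CT := .rel2 [(6720, 0), (16000, 0), (6720, 37120)] (.leaf ⟨0, 9, 4, 0⟩)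

theorem ok3ae_4 : chkT cG3m cG3m T3ae_4 (11248, 4128) (10528, 4128) dum dum nA = true := by
  decide +kernel

/-- tree -/
def T3ae_5 : CT := .rel2 [(6720, 0), (16000, 0), (6720, 37123)] (.leaf ⟨0, 0, 10, 0⟩)

theorem ok3ae_5 : chkT cG3m cG3m T3ae_5 (10528, 4128) (9824, 3520) dum dum nA = true := by
  decide +kernel

/-- tree -/
def T3ae_6 : CT := .rel2 [(6720, 3936), (12256, 0), (16000, 0), (6720, 37123)] (.leaf ⟨6, 0, 8,
    0⟩)

theorem ok3ae_6 : chkT cG3m cG3m T3ae_6 (9824, 3520) (9824, 1872) dum dum nA = true := by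
  decide +kernel

theorem fr3ae {z k : ℂ} (hz : OnE (vt .t3ae) z) (hk : conj k ∈ Poly pA) :
    k + Complex.I * z * (4 * z ^ 2 - 1) ≠ 0 := by
  have h := edge_use rpG3m (E := L3ae) (V0 := dum) (V1 := dum) (V2 := nA) (fun e he => by
    simp only [L3ae, List.mem_cons, List.not_mem_nil, or_false] at he
    rcases he with rfl | rfl | rfl | rfl | rfl | rfl | rfl
    exacts [⟨_, ok3ae_0⟩, ⟨_, ok3ae_1⟩, ⟨_, ok3ae_2⟩, ⟨_, ok3ae_3⟩, ⟨_, ok3ae_4⟩, ⟨_, ok3ae_5⟩, ⟨_, ok3ae_6⟩]) (V := vt .t3ae) (by decide) hz zero_dum zero_dum (rgA hk)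
  rw [evG3m (mr_true k)] at h
  exact fun h0 => h (by rw [h0, mul_zero])

/-- edges -/
def L3se : List ((ℕ × ℕ) × (ℕ × ℕ)) :=
  [((8016, 3840), (8576, 3440)), ((8576, 3440), (10656, 3440)), ((10656, 3440), (10704, 4032)),
    ((10704, 4032), (10048, 5696)), ((10048, 5696), (8800, 5696)), ((8800, 5696), (8016, 5024)),
    ((8016, 5024), (8016, 3840))]

/-- tree -/
def T3se_0 : CT := .rel2 [(8000, 0), (16000, 0), (8000, 32006)] (.leaf ⟨10, 0, 0, 0⟩)

theorem ok3se_0 : chkT cG3n cG3n T3se_0 (8016, 3840) (8576, 3440) dum dum nS = true := by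
  decide +kernel

/-- tree -/
def T3se_1 : CT := .rel2 [(8000, 3520), (12800, 0), (16000, 0), (8000, 32006)] (.leaf ⟨6, 0, 0,
    8⟩)

theorem ok3se_1 : chkT cG3n cG3n T3se_1 (8576, 3440) (10656, 3440) dum dum nS = true := by
  decide +kernel

/-- tree -/
def T3se_2 : CT := .rel2 [(8000, 0), (16000, 0), (8000, 32006)] (.leaf ⟨0, 4, 0, 9⟩)

theorem ok3se_2 : chkT cG3n cG3n T3se_2 (10656, 3440) (10704, 4032) dum dum nS = true := by
  decide +kernel

/-- tree -/
def T3se_3 : CT := .rel2 [(8000, 0), (16000, 0), (8000, 32000)] (.leaf ⟨0, 10, 0, 0⟩)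

theorem ok3se_3 : chkT cG3n cG3n T3se_3 (10704, 4032) (10048, 5696) dum dum nS = true := by
  decide +kernel

/-- tree -/
def T3se_4 : CT := .rel2 [(8000, 0), (16000, 0), (13296, 10816), (8000, 10816)] (.leaf ⟨0, 4, 9,
    0⟩)

theorem ok3se_4 : chkT cG3n cG3n T3se_4 (10048, 5696) (8800, 5696) dum dum nS = true := by
  decide +kernel

/-- tree -/
def T3se_5 : CT := .rel2 [(8000, 0), (16000, 0), (13020, 11922), (8000, 7680)] (.leaf ⟨6, 0, 8,
    0⟩)

theorem ok3se_5 : chkT cG3n cG3n T3se_5 (8800, 5696) (8016, 5024) dum dum nS = true := by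
  decide +kernel

/-- tree -/
def T3se_6 : CT := .rel2 [(8000, 0), (16000, 0), (13020, 11922), (8000, 7680)] (.leaf ⟨10, 0, 3,
    0⟩)

theorem ok3se_6 : chkT cG3n cG3n T3se_6 (8016, 5024) (8016, 3840) dum dum nS = true := by
  decide +kernel

theorem fr3se {z k : ℂ} (hz : OnE (vt .t3se) z) (hk : k ∈ Poly pS) :
    k + Complex.I * z * (4 * z ^ 2 - 1) ≠ 0 := by
  have h := edge_use rpG3n (E := L3se) (V0 := dum) (V1 := dum) (V2 := nS) (fun e he => by
    simp only [L3se, List.mem_cons, List.not_mem_nil, or_false] at he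
    rcases he with rfl | rfl | rfl | rfl | rfl | rfl | rfl
    exacts [⟨_, ok3se_0⟩, ⟨_, ok3se_1⟩, ⟨_, ok3se_2⟩, ⟨_, ok3se_3⟩, ⟨_, ok3se_4⟩, ⟨_, ok3se_5⟩, ⟨_, ok3se_6⟩]) (V := vt .t3se) (by decide) hz zero_dum zero_dum (rgS hk)
  rw [evG3n (mr_false k)] at h
  exact fun h0 => h (by rw [h0, mul_zero])

end Pool.Agent.Work.MP_b30479_gtS.G2.SC

end

section

/-!
# Frontier of the rings with 4 crossings

Generated certificates (see `S2Cert`).
-/

set_option linter.style.longLine false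

set_option deprecated.oldSectionVars true

namespace Pool.Agent.Work.MP_b30479_gtS.G2.SC

open scoped ComplexConjugate

/-- edges -/
def L4aa : List ((ℕ × ℕ) × (ℕ × ℕ)) :=
  [((10560, 1840), (12160, 608)), ((12160, 608), (14400, 608)), ((14400, 608), (14720, 1920)),
    ((14720, 1920), (13280, 5280)), ((13280, 5280), (12320, 5280)), ((12320, 5280), (10560,
    3680)), ((10560, 3680), (10560, 1840))]

/-- tree -/
def T4aa_0 : CT := .rel1 [(6720, 0), (16000, 0), (13280, 11040), (6720, 10400)] (.rel2 [(6720, 0),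
    (16000, 0), (13280, 11040), (6720, 10400)] (.rel1 [(6720, 0), (16000, 0), (6720, 37666)]
    (.rel2 [(6720, 0), (16000, 0), (6720, 37666)] (.leaf ⟨3, 0, 10, 0⟩))))

theorem ok4aa_0 : chkT cF4mm cF4mm T4aa_0 (10560, 1840) (12160, 608) dum nA nA = true := by
  decide +kernel

/-- tree -/
def T4aa_1 : CT := .rel1 [(6720, 0), (16000, 0), (13280, 11040), (6720, 10400)] (.rel2 [(6720, 0),
    (16000, 0), (13280, 11040), (6720, 10400)] (.leaf ⟨7, 0, 7, 0⟩))

theorem ok4aa_1 : chkT cF4mm cF4mm T4aa_1 (12160, 608) (14400, 608) dum nA nA = true := by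
  decide +kernel

/-- tree -/
def T4aa_2 : CT := .rel1 [(6720, 0), (16000, 0), (13280, 11040), (6720, 10400)] (.rel2 [(6720, 0),
    (16000, 0), (13280, 11040), (6720, 10400)] (.leaf ⟨5, 0, 0, 9⟩))

theorem ok4aa_2 : chkT cF4mm cF4mm T4aa_2 (14400, 608) (14720, 1920) dum nA nA = true := by
  decide +kernel

/-- tree -/
def T4aa_3 : CT := .rel1 [(6720, 0), (16000, 0), (13280, 11040), (6720, 10400)] (.rel2 [(6720, 0),
    (16000, 0), (13280, 11040), (6720, 10400)] (.seg (14000, 3600) (.rel1 [(6720, 0), (16000, 0),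
    (6720, 37666)] (.rel2 [(6720, 0), (16000, 0), (6720, 37666)] (.leaf ⟨0, 8, 0, 5⟩))) (.rel1
    [(6720, 0), (16000, 0), (6720, 37666)] (.rel2 [(6720, 0), (16000, 0), (6720, 37666)] (.leaf
    ⟨0, 6, 8, 0⟩)))))

theorem ok4aa_3 : chkT cF4mm cF4mm T4aa_3 (14720, 1920) (13280, 5280) dum nA nA = true := by
  decide +kernel

/-- tree -/
def T4aa_4 : CT := .rel1 [(6720, 0), (16000, 0), (13280, 11040), (6720, 10400)] (.rel2 [(6720, 0),
    (16000, 0), (13280, 11040), (6720, 10400)] (.rel1 [(6720, 0), (16000, 0), (6720, 37666)]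
    (.rel2 [(6720, 0), (16000, 0), (6720, 37666)] (.leaf ⟨0, 2, 10, 0⟩))))

theorem ok4aa_4 : chkT cF4mm cF4mm T4aa_4 (13280, 5280) (12320, 5280) dum nA nA = true := by
  decide +kernel

/-- tree -/
def T4aa_5 : CT := .rel1 [(6720, 0), (16000, 0), (13280, 11040), (6720, 10400)] (.rel2 [(6720, 0),
    (16000, 0), (13280, 11040), (6720, 10400)] (.rel1 [(6720, 0), (16000, 0), (6720, 37666)]
    (.rel2 [(6720, 0), (16000, 0), (6720, 37666)] (.leaf ⟨2, 0, 10, 0⟩))))

theorem ok4aa_5 : chkT cF4mm cF4mm T4aa_5 (12320, 5280) (10560, 3680) dum nA nA = true := by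
  decide +kernel

/-- tree -/
def T4aa_6 : CT := .rel1 [(6720, 0), (16000, 0), (13280, 11040), (6720, 10400)] (.rel2 [(6720, 0),
    (16000, 0), (13280, 11040), (6720, 10400)] (.rel1 [(6720, 0), (16000, 0), (6720, 37666)]
    (.rel2 [(6720, 0), (16000, 0), (6720, 37666)] (.leaf ⟨2, 0, 10, 0⟩))))

theorem ok4aa_6 : chkT cF4mm cF4mm T4aa_6 (10560, 3680) (10560, 1840) dum nA nA = true := by
  decide +kernel

theorem fr4aa {z k l : ℂ} (hz : OnE (vt .t4) z) (hk : conj k ∈ Poly pA) (hl : conj l ∈ Poly pA) :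
    k ^ 2 + l ^ 2 - 2 * k * l * (8 * z ^ 4 - 8 * z ^ 2 + 1) + (z * (8 * z ^ 3 - 4 * z)) ^ 2 ≠ 0 := by
  have h := edge_use rpF4mm (E := L4aa) (V0 := dum) (V1 := nA) (V2 := nA) (fun e he => by
    simp only [L4aa, List.mem_cons, List.not_mem_nil, or_false] at he
    rcases he with rfl | rfl | rfl | rfl | rfl | rfl | rfl
    exacts [⟨_, ok4aa_0⟩, ⟨_, ok4aa_1⟩, ⟨_, ok4aa_2⟩, ⟨_, ok4aa_3⟩, ⟨_, ok4aa_4⟩, ⟨_, ok4aa_5⟩, ⟨_, ok4aa_6⟩]) (V := vt .t4) (by decide) hz zero_dum (rgA hk) (rgA hl)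
  rw [evF4mm (mr_true k) (mr_true l)] at h
  exact fun h0 => h (by rw [h0, mul_zero])

/-- edges -/
def L4as : List ((ℕ × ℕ) × (ℕ × ℕ)) :=
  [((10560, 1840), (12160, 608)), ((12160, 608), (14400, 608)), ((14400, 608), (14720, 1920)),
    ((14720, 1920), (13280, 5280)), ((13280, 5280), (12320, 5280)), ((12320, 5280), (10560,
    3680)), ((10560, 3680), (10560, 1840))]

/-- tree -/
def T4as_0 : CT := .rel1 [(6720, 0), (16000, 0), (13280, 11040), (6720, 10400)] (.rel2 [(8000, 0),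
    (16000, 0), (13280, 11040), (8000, 10400)] (.leaf ⟨10, 0, 0, 0⟩))

theorem ok4as_0 : chkT cF4mn cF4mn T4as_0 (10560, 1840) (12160, 608) dum nA nS = true := by
  decide +kernel

/-- tree -/
def T4as_1 : CT := .rel1 [(6720, 0), (16000, 0), (13280, 11040), (6720, 10400)] (.rel2 [(8000, 0),
    (16000, 0), (13280, 11040), (8000, 10400)] (.leaf ⟨10, 0, 0, 0⟩))

theorem ok4as_1 : chkT cF4mn cF4mn T4as_1 (12160, 608) (14400, 608) dum nA nS = true := by
  decide +kernel

/-- tree -/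
def T4as_2 : CT := .rel1 [(6720, 0), (16000, 0), (13280, 11040), (6720, 10400)] (.rel2 [(8000, 0),
    (16000, 0), (13280, 11040), (8000, 10400)] (.rel2 [(8000, 0), (16000, 0), (8000, 32471)]
    (.leaf ⟨5, 0, 0, 8⟩)))

theorem ok4as_2 : chkT cF4mn cF4mn T4as_2 (14400, 608) (14720, 1920) dum nA nS = true := by
  decide +kernel

/-- tree -/
def T4as_3 : CT := .rel1 [(6720, 0), (16000, 0), (13280, 11040), (6720, 10400)] (.rel2 [(8000, 0),
    (16000, 0), (13280, 11040), (8000, 10400)] (.seg (14000, 3600) (.rel2 [(8000, 0), (16000, 0),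
    (8000, 32471)] (.leaf ⟨0, 8, 0, 5⟩)) (.rel1 [(6720, 0), (16000, 0), (6720, 37666)] (.leaf ⟨0,
    7, 7, 0⟩))))

theorem ok4as_3 : chkT cF4mn cF4mn T4as_3 (14720, 1920) (13280, 5280) dum nA nS = true := by
  decide +kernel

/-- tree -/
def T4as_4 : CT := .rel1 [(6720, 0), (16000, 0), (13280, 11040), (6720, 10400)] (.rel2 [(8000, 0),
    (16000, 0), (13280, 11040), (8000, 10400)] (.rel1 [(6720, 0), (16000, 0), (6720, 37666)]
    (.leaf ⟨4, 0, 9, 0⟩)))

theorem ok4as_4 : chkT cF4mn cF4mn T4as_4 (13280, 5280) (12320, 5280) dum nA nS = true := by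
  decide +kernel

/-- tree -/
def T4as_5 : CT := .rel1 [(6720, 0), (16000, 0), (13280, 11040), (6720, 10400)] (.rel2 [(8000, 0),
    (16000, 0), (13280, 11040), (8000, 10400)] (.rel1 [(6720, 0), (16000, 0), (6720, 37666)]
    (.leaf ⟨8, 0, 6, 0⟩)))

theorem ok4as_5 : chkT cF4mn cF4mn T4as_5 (12320, 5280) (10560, 3680) dum nA nS = true := by
  decide +kernel

/-- tree -/
def T4as_6 : CT := .rel1 [(6720, 0), (16000, 0), (13280, 11040), (6720, 10400)] (.rel2 [(8000, 0),
    (16000, 0), (13280, 11040), (8000, 10400)] (.leaf ⟨10, 0, 0, 0⟩))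

theorem ok4as_6 : chkT cF4mn cF4mn T4as_6 (10560, 3680) (10560, 1840) dum nA nS = true := by
  decide +kernel

theorem fr4as {z k l : ℂ} (hz : OnE (vt .t4) z) (hk : conj k ∈ Poly pA) (hl : l ∈ Poly pS) :
    k ^ 2 + l ^ 2 - 2 * k * l * (8 * z ^ 4 - 8 * z ^ 2 + 1) + (z * (8 * z ^ 3 - 4 * z)) ^ 2 ≠ 0 := by
  have h := edge_use rpF4mn (E := L4as) (V0 := dum) (V1 := nA) (V2 := nS) (fun e he => by
    simp only [L4as, List.mem_cons, List.not_mem_nil, or_false] at he
    rcases he with rfl | rfl | rfl | rfl | rfl | rfl | rfl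
    exacts [⟨_, ok4as_0⟩, ⟨_, ok4as_1⟩, ⟨_, ok4as_2⟩, ⟨_, ok4as_3⟩, ⟨_, ok4as_4⟩, ⟨_, ok4as_5⟩, ⟨_, ok4as_6⟩]) (V := vt .t4) (by decide) hz zero_dum (rgA hk) (rgS hl)
  rw [evF4mn (mr_true k) (mr_false l)] at h
  exact fun h0 => h (by rw [h0, mul_zero])

/-- edges -/
def L4ss : List ((ℕ × ℕ) × (ℕ × ℕ)) :=
  [((10560, 1840), (12160, 608)), ((12160, 608), (14400, 608)), ((14400, 608), (14720, 1920)),
    ((14720, 1920), (13280, 5280)), ((13280, 5280), (12320, 5280)), ((12320, 5280), (10560,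
    3680)), ((10560, 3680), (10560, 1840))]

/-- tree -/
def T4ss_0 : CT := .rel1 [(8000, 0), (16000, 0), (13280, 11040), (8000, 10400)] (.rel2 [(8000, 0),
    (16000, 0), (13280, 11040), (8000, 10400)] (.rel1 [(8000, 0), (16000, 0), (8000, 32471)]
    (.rel2 [(8000, 0), (16000, 0), (8000, 32471)] (.leaf ⟨3, 0, 0, 10⟩))))

theorem ok4ss_0 : chkT cF4nn cF4nn T4ss_0 (10560, 1840) (12160, 608) dum nS nS = true := by
  decide +kernel

/-- tree -/
def T4ss_1 : CT := .rel1 [(8000, 0), (16000, 0), (13280, 11040), (8000, 10400)] (.rel2 [(8000, 0),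
    (16000, 0), (13280, 11040), (8000, 10400)] (.rel1 [(8000, 0), (16000, 0), (8000, 32471)]
    (.rel2 [(8000, 0), (16000, 0), (8000, 32471)] (.leaf ⟨3, 0, 0, 10⟩))))

theorem ok4ss_1 : chkT cF4nn cF4nn T4ss_1 (12160, 608) (14400, 608) dum nS nS = true := by
  decide +kernel

/-- tree -/
def T4ss_2 : CT := .rel1 [(8000, 0), (16000, 0), (13280, 11040), (8000, 10400)] (.rel2 [(8000, 0),
    (16000, 0), (13280, 11040), (8000, 10400)] (.rel1 [(8000, 0), (16000, 0), (8000, 32471)]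
    (.rel2 [(8000, 0), (16000, 0), (8000, 32471)] (.leaf ⟨4, 0, 0, 9⟩))))

theorem ok4ss_2 : chkT cF4nn cF4nn T4ss_2 (14400, 608) (14720, 1920) dum nS nS = true := by
  decide +kernel

/-- tree -/
def T4ss_3 : CT := .rel1 [(8000, 0), (16000, 0), (13280, 11040), (8000, 10400)] (.rel2 [(8000, 0),
    (16000, 0), (13280, 11040), (8000, 10400)] (.seg (14000, 3600) (.rel1 [(8000, 0), (16000, 0),
    (8000, 32471)] (.rel2 [(8000, 0), (16000, 0), (8000, 32471)] (.leaf ⟨0, 8, 0, 6⟩))) (.leaf ⟨0,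
    9, 5, 0⟩)))

theorem ok4ss_3 : chkT cF4nn cF4nn T4ss_3 (14720, 1920) (13280, 5280) dum nS nS = true := by
  decide +kernel

/-- tree -/
def T4ss_4 : CT := .rel1 [(8000, 0), (16000, 0), (13280, 11040), (8000, 10400)] (.rel2 [(8000, 0),
    (16000, 0), (13280, 11040), (8000, 10400)] (.leaf ⟨6, 0, 8, 0⟩))

theorem ok4ss_4 : chkT cF4nn cF4nn T4ss_4 (13280, 5280) (12320, 5280) dum nS nS = true := by
  decide +kernel

/-- tree -/
def T4ss_5 : CT := .rel1 [(8000, 0), (16000, 0), (13020, 11922), (8000, 7680)] (.rel2 [(8000, 0),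
    (16000, 0), (13020, 11922), (8000, 7680)] (.leaf ⟨10, 0, 0, 1⟩))

theorem ok4ss_5 : chkT cF4nn cF4nn T4ss_5 (12320, 5280) (10560, 3680) dum nS nS = true := by
  decide +kernel

/-- tree -/
def T4ss_6 : CT := .rel1 [(12800, 0), (16000, 0), (13020, 11922), (5364, 5453)] (.rel2 [(8000, 0),
    (16000, 0), (8000, 32006)] (.leaf ⟨4, 0, 0, 9⟩))

theorem ok4ss_6 : chkT cF4nn cF4nn T4ss_6 (10560, 3680) (10560, 1840) dum nS nS = true := by
  decide +kernel

theorem fr4ss {z k l : ℂ} (hz : OnE (vt .t4) z) (hk : k ∈ Poly pS) (hl : l ∈ Poly pS) :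
    k ^ 2 + l ^ 2 - 2 * k * l * (8 * z ^ 4 - 8 * z ^ 2 + 1) + (z * (8 * z ^ 3 - 4 * z)) ^ 2 ≠ 0 := by
  have h := edge_use rpF4nn (E := L4ss) (V0 := dum) (V1 := nS) (V2 := nS) (fun e he => by
    simp only [L4ss, List.mem_cons, List.not_mem_nil, or_false] at he
    rcases he with rfl | rfl | rfl | rfl | rfl | rfl | rfl
    exacts [⟨_, ok4ss_0⟩, ⟨_, ok4ss_1⟩, ⟨_, ok4ss_2⟩, ⟨_, ok4ss_3⟩, ⟨_, ok4ss_4⟩, ⟨_, ok4ss_5⟩, ⟨_, ok4ss_6⟩]) (V := vt .t4) (by decide) hz zero_dum (rgS hk) (rgS hl)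
  rw [evF4nn (mr_false k) (mr_false l)] at h
  exact fun h0 => h (by rw [h0, mul_zero])

/-- edges -/
def L4ae : List ((ℕ × ℕ) × (ℕ × ℕ)) :=
  [((10560, 1840), (12160, 608)), ((12160, 608), (14400, 608)), ((14400, 608), (14720, 1920)),
    ((14720, 1920), (13280, 5280)), ((13280, 5280), (12320, 5280)), ((12320, 5280), (10560,
    3680)), ((10560, 3680), (10560, 1840))]

/-- tree -/
def T4ae_0 : CT := .rel2 [(6720, 3936), (12256, 0), (16000, 0), (6720, 37123)] (.leaf ⟨9, 0, 5,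
    0⟩)

theorem ok4ae_0 : chkT cG4m cG4m T4ae_0 (10560, 1840) (12160, 608) dum dum nA = true := by
  decide +kernel

/-- tree -/
def T4ae_1 : CT := .rel2 [(6720, 0), (16000, 0), (12874, 12505), (6720, 7120)] (.leaf ⟨9, 0, 0,
    4⟩)

theorem ok4ae_1 : chkT cG4m cG4m T4ae_1 (12160, 608) (14400, 608) dum dum nA = true := by
  decide +kernel

/-- tree -/
def T4ae_2 : CT := .rel2 [(6720, 0), (16000, 0), (6720, 37120)] (.leaf ⟨0, 9, 0, 3⟩)

theorem ok4ae_2 : chkT cG4m cG4m T4ae_2 (14400, 608) (14720, 1920) dum dum nA = true := by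
  decide +kernel

/-- tree -/
def T4ae_3 : CT := .rel2 [(6720, 0), (16000, 0), (6720, 37120)] (.leaf ⟨0, 10, 0, 0⟩)

theorem ok4ae_3 : chkT cG4m cG4m T4ae_3 (14720, 1920) (13280, 5280) dum dum nA = true := by
  decide +kernel

/-- tree -/
def T4ae_4 : CT := .rel2 [(6720, 0), (16000, 0), (6720, 37120)] (.leaf ⟨0, 6, 8, 0⟩)

theorem ok4ae_4 : chkT cG4m cG4m T4ae_4 (13280, 5280) (12320, 5280) dum dum nA = true := by
  decide +kernel

/-- tree -/
def T4ae_5 : CT := .rel2 [(6720, 0), (16000, 0), (6720, 37123)] (.leaf ⟨0, 1, 10, 0⟩)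

theorem ok4ae_5 : chkT cG4m cG4m T4ae_5 (12320, 5280) (10560, 3680) dum dum nA = true := by
  decide +kernel

/-- tree -/
def T4ae_6 : CT := .rel2 [(6720, 0), (16000, 0), (6720, 37123)] (.leaf ⟨3, 0, 9, 0⟩)

theorem ok4ae_6 : chkT cG4m cG4m T4ae_6 (10560, 3680) (10560, 1840) dum dum nA = true := by
  decide +kernel

theorem fr4ae {z k : ℂ} (hz : OnE (vt .t4) z) (hk : conj k ∈ Poly pA) :
    k + Complex.I * z * (8 * z ^ 3 - 4 * z) ≠ 0 := by
  have h := edge_use rpG4m (E := L4ae) (V0 := dum) (V1 := dum) (V2 := nA) (fun e he => by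
    simp only [L4ae, List.mem_cons, List.not_mem_nil, or_false] at he
    rcases he with rfl | rfl | rfl | rfl | rfl | rfl | rfl
    exacts [⟨_, ok4ae_0⟩, ⟨_, ok4ae_1⟩, ⟨_, ok4ae_2⟩, ⟨_, ok4ae_3⟩, ⟨_, ok4ae_4⟩, ⟨_, ok4ae_5⟩, ⟨_, ok4ae_6⟩]) (V := vt .t4) (by decide) hz zero_dum zero_dum (rgA hk)
  rw [evG4m (mr_true k)] at h
  exact fun h0 => h (by rw [h0, mul_zero])

/-- edges -/
def L4se : List ((ℕ × ℕ) × (ℕ × ℕ)) :=
  [((10560, 1840), (12160, 608)), ((12160, 608), (14400, 608)), ((14400, 608), (14720, 1920)),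
    ((14720, 1920), (13280, 5280)), ((13280, 5280), (12320, 5280)), ((12320, 5280), (10560,
    3680)), ((10560, 3680), (10560, 1840))]

/-- tree -/
def T4se_0 : CT := .rel2 [(8000, 0), (16000, 0), (8000, 32006)] (.leaf ⟨10, 0, 0, 1⟩)

theorem ok4se_0 : chkT cG4n cG4n T4se_0 (10560, 1840) (12160, 608) dum dum nS = true := by
  decide +kernel

/-- tree -/
def T4se_1 : CT := .rel2 [(8000, 0), (16000, 0), (8000, 32006)] (.leaf ⟨5, 0, 0, 9⟩)

theorem ok4se_1 : chkT cG4n cG4n T4se_1 (12160, 608) (14400, 608) dum dum nS = true := by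
  decide +kernel

/-- tree -/
def T4se_2 : CT := .rel2 [(8000, 0), (16000, 0), (8000, 32006)] (.leaf ⟨0, 3, 0, 10⟩)

theorem ok4se_2 : chkT cG4n cG4n T4se_2 (14400, 608) (14720, 1920) dum dum nS = true := by
  decide +kernel

/-- tree -/
def T4se_3 : CT := .rel2 [(8000, 0), (16000, 0), (8000, 32000)] (.leaf ⟨0, 10, 0, 2⟩)

theorem ok4se_3 : chkT cG4n cG4n T4se_3 (14720, 1920) (13280, 5280) dum dum nS = true := by
  decide +kernel

/-- tree -/
def T4se_4 : CT := .rel2 [(8000, 0), (16000, 0), (8000, 32006)] (.leaf ⟨0, 8, 6, 0⟩)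

theorem ok4se_4 : chkT cG4n cG4n T4se_4 (13280, 5280) (12320, 5280) dum dum nS = true := by
  decide +kernel

/-- tree -/
def T4se_5 : CT := .rel2 [(8000, 0), (16000, 0), (13020, 11922), (8000, 7680)] (.leaf ⟨0, 1, 10,
    0⟩)

theorem ok4se_5 : chkT cG4n cG4n T4se_5 (12320, 5280) (10560, 3680) dum dum nS = true := by
  decide +kernel

/-- tree -/
def T4se_6 : CT := .rel2 [(8000, 0), (16000, 0), (13020, 11922), (8000, 7680)] (.leaf ⟨8, 0, 6,
    0⟩)

theorem ok4se_6 : chkT cG4n cG4n T4se_6 (10560, 3680) (10560, 1840) dum dum nS = true := by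
  decide +kernel

theorem fr4se {z k : ℂ} (hz : OnE (vt .t4) z) (hk : k ∈ Poly pS) :
    k + Complex.I * z * (8 * z ^ 3 - 4 * z) ≠ 0 := by
  have h := edge_use rpG4n (E := L4se) (V0 := dum) (V1 := dum) (V2 := nS) (fun e he => by
    simp only [L4se, List.mem_cons, List.not_mem_nil, or_false] at he
    rcases he with rfl | rfl | rfl | rfl | rfl | rfl | rfl
    exacts [⟨_, ok4se_0⟩, ⟨_, ok4se_1⟩, ⟨_, ok4se_2⟩, ⟨_, ok4se_3⟩, ⟨_, ok4se_4⟩, ⟨_, ok4se_5⟩, ⟨_, ok4se_6⟩]) (V := vt .t4) (by decide) hz zero_dum zero_dum (rgS hk)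
  rw [evG4n (mr_false k)] at h
  exact fun h0 => h (by rw [h0, mul_zero])

end Pool.Agent.Work.MP_b30479_gtS.G2.SC

end

section

/-!
# Frontier of the rings with 5 crossings

Generated certificates (see `S2Cert`).
-/

set_option linter.style.longLine false

set_option deprecated.oldSectionVars true

namespace Pool.Agent.Work.MP_b30479_gtS.G2.SC

open scoped ComplexConjugate

/-- edges -/
def L5aa : List ((ℕ × ℕ) × (ℕ × ℕ)) :=
  [((11520, 1120), (12800, 160)), ((12800, 160), (15040, 160)), ((15040, 160), (15280, 1760)),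
    ((15280, 1760), (14400, 4000)), ((14400, 4000), (12800, 4000)), ((12800, 4000), (11520,
    3040)), ((11520, 3040), (11520, 1120))]

/-- tree -/
def T5aa_0 : CT := .rel1 [(6720, 0), (16000, 0), (13280, 11040), (6720, 10400)] (.rel2 [(6720, 0),
    (16000, 0), (13280, 11040), (6720, 10400)] (.rel1 [(6720, 0), (16000, 0), (6720, 37666)]
    (.rel2 [(6720, 0), (16000, 0), (6720, 37666)] (.leaf ⟨2, 0, 10, 0⟩))))

theorem ok5aa_0 : chkT cF5mm cF5mm T5aa_0 (11520, 1120) (12800, 160) dum nA nA = true := by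
  decide +kernel

/-- tree -/
def T5aa_1 : CT := .rel1 [(6720, 0), (16000, 0), (13280, 11040), (6720, 10400)] (.rel2 [(6720, 0),
    (16000, 0), (13280, 11040), (6720, 10400)] (.rel1 [(6720, 0), (16000, 0), (6720, 37666)]
    (.leaf ⟨4, 0, 9, 0⟩)))

theorem ok5aa_1 : chkT cF5mm cF5mm T5aa_1 (12800, 160) (15040, 160) dum nA nA = true := by
  decide +kernel

/-- tree -/
def T5aa_2 : CT := .rel1 [(6720, 0), (16000, 0), (13280, 11040), (6720, 10400)] (.rel2 [(6720, 0),
    (16000, 0), (13280, 11040), (6720, 10400)] (.leaf ⟨4, 0, 0, 9⟩))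

theorem ok5aa_2 : chkT cF5mm cF5mm T5aa_2 (15040, 160) (15280, 1760) dum nA nA = true := by
  decide +kernel

/-- tree -/
def T5aa_3 : CT := .rel1 [(6720, 0), (16000, 0), (13280, 11040), (6720, 10400)] (.rel2 [(6720, 0),
    (16000, 0), (13280, 11040), (6720, 10400)] (.rel1 [(6720, 0), (16000, 0), (6720, 37666)]
    (.rel2 [(6720, 0), (16000, 0), (6720, 37666)] (.leaf ⟨0, 10, 3, 0⟩))))

theorem ok5aa_3 : chkT cF5mm cF5mm T5aa_3 (15280, 1760) (14400, 4000) dum nA nA = true := by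
  decide +kernel

/-- tree -/
def T5aa_4 : CT := .rel1 [(6720, 0), (16000, 0), (13280, 11040), (6720, 10400)] (.rel2 [(6720, 0),
    (16000, 0), (13280, 11040), (6720, 10400)] (.rel1 [(6720, 0), (16000, 0), (6720, 37666)]
    (.rel2 [(6720, 0), (16000, 0), (6720, 37666)] (.leaf ⟨1, 0, 10, 0⟩))))

theorem ok5aa_4 : chkT cF5mm cF5mm T5aa_4 (14400, 4000) (12800, 4000) dum nA nA = true := by
  decide +kernel

/-- tree -/
def T5aa_5 : CT := .rel1 [(6720, 0), (16000, 0), (13280, 11040), (6720, 10400)] (.rel2 [(6720, 0),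
    (16000, 0), (13280, 11040), (6720, 10400)] (.rel1 [(6720, 0), (16000, 0), (6720, 37666)]
    (.rel2 [(6720, 0), (16000, 0), (6720, 37666)] (.leaf ⟨6, 0, 8, 0⟩))))

theorem ok5aa_5 : chkT cF5mm cF5mm T5aa_5 (12800, 4000) (11520, 3040) dum nA nA = true := by
  decide +kernel

/-- tree -/
def T5aa_6 : CT := .rel1 [(6720, 0), (16000, 0), (13280, 11040), (6720, 10400)] (.rel2 [(6720, 0),
    (16000, 0), (13280, 11040), (6720, 10400)] (.rel1 [(6720, 0), (16000, 0), (6720, 37666)]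
    (.rel2 [(6720, 0), (16000, 0), (6720, 37666)] (.leaf ⟨4, 0, 9, 0⟩))))

theorem ok5aa_6 : chkT cF5mm cF5mm T5aa_6 (11520, 3040) (11520, 1120) dum nA nA = true := by
  decide +kernel

theorem fr5aa {z k l : ℂ} (hz : OnE (vt .t5) z) (hk : conj k ∈ Poly pA) (hl : conj l ∈ Poly pA) :
    k ^ 2 + l ^ 2 - 2 * k * l * (16 * z ^ 5 - 20 * z ^ 3 + 5 * z) + (z * (16 * z ^ 4 - 12 * z ^ 2 + 1)) ^ 2 ≠ 0 := by
  have h := edge_use rpF5mm (E := L5aa) (V0 := dum) (V1 := nA) (V2 := nA) (fun e he => by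
    simp only [L5aa, List.mem_cons, List.not_mem_nil, or_false] at he
    rcases he with rfl | rfl | rfl | rfl | rfl | rfl | rfl
    exacts [⟨_, ok5aa_0⟩, ⟨_, ok5aa_1⟩, ⟨_, ok5aa_2⟩, ⟨_, ok5aa_3⟩, ⟨_, ok5aa_4⟩, ⟨_, ok5aa_5⟩, ⟨_, ok5aa_6⟩]) (V := vt .t5) (by decide) hz zero_dum (rgA hk) (rgA hl)
  rw [evF5mm (mr_true k) (mr_true l)] at h
  exact fun h0 => h (by rw [h0, mul_zero])

/-- edges -/
def L5as : List ((ℕ × ℕ) × (ℕ × ℕ)) :=
  [((11520, 1120), (12800, 160)), ((12800, 160), (15040, 160)), ((15040, 160), (15280, 1760)),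
    ((15280, 1760), (14400, 4000)), ((14400, 4000), (12800, 4000)), ((12800, 4000), (11520,
    3040)), ((11520, 3040), (11520, 1120))]

/-- tree -/
def T5as_0 : CT := .rel1 [(6720, 0), (16000, 0), (13280, 11040), (6720, 10400)] (.rel2 [(8000, 0),
    (16000, 0), (13280, 11040), (8000, 10400)] (.leaf ⟨10, 0, 0, 0⟩))

theorem ok5as_0 : chkT cF5mn cF5mn T5as_0 (11520, 1120) (12800, 160) dum nA nS = true := by
  decide +kernel

/-- tree -/
def T5as_1 : CT := .rel1 [(6720, 0), (16000, 0), (13280, 11040), (6720, 10400)] (.rel2 [(8000, 0),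
    (16000, 0), (13280, 11040), (8000, 10400)] (.leaf ⟨10, 0, 0, 0⟩))

theorem ok5as_1 : chkT cF5mn cF5mn T5as_1 (12800, 160) (15040, 160) dum nA nS = true := by
  decide +kernel

/-- tree -/
def T5as_2 : CT := .rel1 [(6720, 0), (16000, 0), (13280, 11040), (6720, 10400)] (.rel2 [(8000, 0),
    (16000, 0), (13280, 11040), (8000, 10400)] (.rel2 [(8000, 0), (16000, 0), (8000, 32471)]
    (.leaf ⟨4, 0, 0, 9⟩)))

theorem ok5as_2 : chkT cF5mn cF5mn T5as_2 (15040, 160) (15280, 1760) dum nA nS = true := by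
  decide +kernel

/-- tree -/
def T5as_3 : CT := .rel1 [(6720, 0), (16000, 0), (13280, 11040), (6720, 10400)] (.rel2 [(8000, 0),
    (16000, 0), (13280, 11040), (8000, 10400)] (.rel1 [(6720, 0), (16000, 0), (6720, 37666)]
    (.leaf ⟨0, 10, 2, 0⟩)))

theorem ok5as_3 : chkT cF5mn cF5mn T5as_3 (15280, 1760) (14400, 4000) dum nA nS = true := by
  decide +kernel

/-- tree -/
def T5as_4 : CT := .rel1 [(6720, 0), (16000, 0), (13280, 11040), (6720, 10400)] (.rel2 [(8000, 0),
    (16000, 0), (13280, 11040), (8000, 10400)] (.rel1 [(6720, 0), (16000, 0), (6720, 37666)]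
    (.leaf ⟨6, 0, 8, 0⟩)))

theorem ok5as_4 : chkT cF5mn cF5mn T5as_4 (14400, 4000) (12800, 4000) dum nA nS = true := by
  decide +kernel

/-- tree -/
def T5as_5 : CT := .rel1 [(6720, 0), (16000, 0), (13280, 11040), (6720, 10400)] (.rel2 [(8000, 0),
    (16000, 0), (13280, 11040), (8000, 10400)] (.rel1 [(6720, 0), (16000, 0), (6720, 37666)]
    (.leaf ⟨10, 0, 3, 0⟩)))

theorem ok5as_5 : chkT cF5mn cF5mn T5as_5 (12800, 4000) (11520, 3040) dum nA nS = true := by
  decide +kernel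

/-- tree -/
def T5as_6 : CT := .rel1 [(6720, 0), (16000, 0), (13280, 11040), (6720, 10400)] (.rel2 [(8000, 0),
    (16000, 0), (13280, 11040), (8000, 10400)] (.rel1 [(6720, 0), (16000, 0), (6720, 37666)]
    (.leaf ⟨23, 0, 19, 0⟩)))

theorem ok5as_6 : chkT cF5mn cF5mn T5as_6 (11520, 3040) (11520, 1120) dum nA nS = true := by
  decide +kernel

theorem fr5as {z k l : ℂ} (hz : OnE (vt .t5) z) (hk : conj k ∈ Poly pA) (hl : l ∈ Poly pS) :
    k ^ 2 + l ^ 2 - 2 * k * l * (16 * z ^ 5 - 20 * z ^ 3 + 5 * z) + (z * (16 * z ^ 4 - 12 * z ^ 2 + 1)) ^ 2 ≠ 0 := by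
  have h := edge_use rpF5mn (E := L5as) (V0 := dum) (V1 := nA) (V2 := nS) (fun e he => by
    simp only [L5as, List.mem_cons, List.not_mem_nil, or_false] at he
    rcases he with rfl | rfl | rfl | rfl | rfl | rfl | rfl
    exacts [⟨_, ok5as_0⟩, ⟨_, ok5as_1⟩, ⟨_, ok5as_2⟩, ⟨_, ok5as_3⟩, ⟨_, ok5as_4⟩, ⟨_, ok5as_5⟩, ⟨_, ok5as_6⟩]) (V := vt .t5) (by decide) hz zero_dum (rgA hk) (rgS hl)
  rw [evF5mn (mr_true k) (mr_false l)] at h
  exact fun h0 => h (by rw [h0, mul_zero])

/-- edges -/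
def L5ss : List ((ℕ × ℕ) × (ℕ × ℕ)) :=
  [((11520, 1120), (12800, 160)), ((12800, 160), (15040, 160)), ((15040, 160), (15280, 1760)),
    ((15280, 1760), (14400, 4000)), ((14400, 4000), (12800, 4000)), ((12800, 4000), (11520,
    3040)), ((11520, 3040), (11520, 1120))]

/-- tree -/
def T5ss_0 : CT := .rel1 [(8000, 0), (16000, 0), (13280, 11040), (8000, 10400)] (.rel2 [(8000, 0),
    (16000, 0), (13280, 11040), (8000, 10400)] (.rel1 [(8000, 0), (16000, 0), (8000, 32471)]
    (.rel2 [(8000, 0), (16000, 0), (8000, 32471)] (.leaf ⟨7, 0, 0, 29⟩))))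

theorem ok5ss_0 : chkT cF5nn cF5nn T5ss_0 (11520, 1120) (12800, 160) dum nS nS = true := by
  decide +kernel

/-- tree -/
def T5ss_1 : CT := .rel1 [(8000, 0), (16000, 0), (13280, 11040), (8000, 10400)] (.rel2 [(8000, 0),
    (16000, 0), (13280, 11040), (8000, 10400)] (.rel1 [(8000, 0), (16000, 0), (8000, 32471)]
    (.rel2 [(8000, 0), (16000, 0), (8000, 32471)] (.leaf ⟨2, 0, 0, 10⟩))))

theorem ok5ss_1 : chkT cF5nn cF5nn T5ss_1 (12800, 160) (15040, 160) dum nS nS = true := by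
  decide +kernel

/-- tree -/
def T5ss_2 : CT := .rel1 [(8000, 0), (16000, 0), (13280, 11040), (8000, 10400)] (.rel2 [(8000, 0),
    (16000, 0), (13280, 11040), (8000, 10400)] (.rel1 [(8000, 0), (16000, 0), (8000, 32471)]
    (.rel2 [(8000, 0), (16000, 0), (8000, 32471)] (.leaf ⟨4, 0, 0, 9⟩))))

theorem ok5ss_2 : chkT cF5nn cF5nn T5ss_2 (15040, 160) (15280, 1760) dum nS nS = true := by
  decide +kernel

/-- tree -/
def T5ss_3 : CT := .rel1 [(8000, 0), (16000, 0), (13280, 11040), (8000, 10400)] (.rel2 [(8000, 0),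
    (16000, 0), (13280, 11040), (8000, 10400)] (.rel1 [(8000, 0), (16000, 0), (8000, 32471)]
    (.rel2 [(8000, 0), (16000, 0), (8000, 32471)] (.leaf ⟨0, 30, 5, 0⟩))))

theorem ok5ss_3 : chkT cF5nn cF5nn T5ss_3 (15280, 1760) (14400, 4000) dum nS nS = true := by
  decide +kernel

/-- tree -/
def T5ss_4 : CT := .rel1 [(8000, 0), (16000, 0), (13280, 11040), (8000, 10400)] (.rel2 [(8000, 0),
    (16000, 0), (13280, 11040), (8000, 10400)] (.leaf ⟨7, 0, 8, 0⟩))

theorem ok5ss_4 : chkT cF5nn cF5nn T5ss_4 (14400, 4000) (12800, 4000) dum nS nS = true := by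
  decide +kernel

/-- tree -/
def T5ss_5 : CT := .rel1 [(8000, 0), (16000, 0), (13280, 11040), (8000, 10400)] (.rel2 [(8000, 0),
    (16000, 0), (13280, 11040), (8000, 10400)] (.leaf ⟨9, 0, 0, 3⟩))

theorem ok5ss_5 : chkT cF5nn cF5nn T5ss_5 (12800, 4000) (11520, 3040) dum nS nS = true := by
  decide +kernel

/-- tree -/
def T5ss_6 : CT := .rel1 [(8000, 0), (16000, 0), (13280, 11040), (8000, 10400)] (.rel2 [(8000, 0),
    (16000, 0), (13280, 11040), (8000, 10400)] (.rel1 [(8000, 0), (16000, 0), (8000, 32471)]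
    (.leaf ⟨3, 0, 0, 10⟩)))

theorem ok5ss_6 : chkT cF5nn cF5nn T5ss_6 (11520, 3040) (11520, 1120) dum nS nS = true := by
  decide +kernel

theorem fr5ss {z k l : ℂ} (hz : OnE (vt .t5) z) (hk : k ∈ Poly pS) (hl : l ∈ Poly pS) :
    k ^ 2 + l ^ 2 - 2 * k * l * (16 * z ^ 5 - 20 * z ^ 3 + 5 * z) + (z * (16 * z ^ 4 - 12 * z ^ 2 + 1)) ^ 2 ≠ 0 := by
  have h := edge_use rpF5nn (E := L5ss) (V0 := dum) (V1 := nS) (V2 := nS) (fun e he => by
    simp only [L5ss, List.mem_cons, List.not_mem_nil, or_false] at he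
    rcases he with rfl | rfl | rfl | rfl | rfl | rfl | rfl
    exacts [⟨_, ok5ss_0⟩, ⟨_, ok5ss_1⟩, ⟨_, ok5ss_2⟩, ⟨_, ok5ss_3⟩, ⟨_, ok5ss_4⟩, ⟨_, ok5ss_5⟩, ⟨_, ok5ss_6⟩]) (V := vt .t5) (by decide) hz zero_dum (rgS hk) (rgS hl)
  rw [evF5nn (mr_false k) (mr_false l)] at h
  exact fun h0 => h (by rw [h0, mul_zero])

/-- edges -/
def L5ae : List ((ℕ × ℕ) × (ℕ × ℕ)) :=
  [((11520, 1120), (12800, 160)), ((12800, 160), (15040, 160)), ((15040, 160), (15280, 1760)),
    ((15280, 1760), (14400, 4000)), ((14400, 4000), (12800, 4000)), ((12800, 4000), (11520,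
    3040)), ((11520, 3040), (11520, 1120))]

/-- tree -/
def T5ae_0 : CT := .rel2 [(6720, 0), (16000, 0), (6720, 37123)] (.leaf ⟨7, 0, 7, 0⟩)

theorem ok5ae_0 : chkT cG5m cG5m T5ae_0 (11520, 1120) (12800, 160) dum dum nA = true := by
  decide +kernel

/-- tree -/
def T5ae_1 : CT := .rel2 [(6720, 0), (16000, 0), (6720, 37123)] (.leaf ⟨10, 0, 0, 0⟩)

theorem ok5ae_1 : chkT cG5m cG5m T5ae_1 (12800, 160) (15040, 160) dum dum nA = true := by
  decide +kernel

/-- tree -/
def T5ae_2 : CT := .rel2 [(6720, 0), (16000, 0), (6720, 37120)] (.leaf ⟨0, 7, 0, 8⟩)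

theorem ok5ae_2 : chkT cG5m cG5m T5ae_2 (15040, 160) (15280, 1760) dum dum nA = true := by
  decide +kernel

/-- tree -/
def T5ae_3 : CT := .rel2 [(6720, 0), (16000, 0), (6720, 37120)] (.leaf ⟨0, 10, 2, 0⟩)

theorem ok5ae_3 : chkT cG5m cG5m T5ae_3 (15280, 1760) (14400, 4000) dum dum nA = true := by
  decide +kernel

/-- tree -/
def T5ae_4 : CT := .rel2 [(6720, 0), (16000, 0), (6720, 37123)] (.leaf ⟨0, 5, 9, 0⟩)

theorem ok5ae_4 : chkT cG5m cG5m T5ae_4 (14400, 4000) (12800, 4000) dum dum nA = true := by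
  decide +kernel

/-- tree -/
def T5ae_5 : CT := .rel2 [(6720, 0), (16000, 0), (6720, 37123)] (.leaf ⟨1, 0, 10, 0⟩)

theorem ok5ae_5 : chkT cG5m cG5m T5ae_5 (12800, 4000) (11520, 3040) dum dum nA = true := by
  decide +kernel

/-- tree -/
def T5ae_6 : CT := .rel2 [(6720, 0), (16000, 0), (6720, 37123)] (.leaf ⟨4, 0, 9, 0⟩)

theorem ok5ae_6 : chkT cG5m cG5m T5ae_6 (11520, 3040) (11520, 1120) dum dum nA = true := by
  decide +kernel

theorem fr5ae {z k : ℂ} (hz : OnE (vt .t5) z) (hk : conj k ∈ Poly pA) :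
    k + Complex.I * z * (16 * z ^ 4 - 12 * z ^ 2 + 1) ≠ 0 := by
  have h := edge_use rpG5m (E := L5ae) (V0 := dum) (V1 := dum) (V2 := nA) (fun e he => by
    simp only [L5ae, List.mem_cons, List.not_mem_nil, or_false] at he
    rcases he with rfl | rfl | rfl | rfl | rfl | rfl | rfl
    exacts [⟨_, ok5ae_0⟩, ⟨_, ok5ae_1⟩, ⟨_, ok5ae_2⟩, ⟨_, ok5ae_3⟩, ⟨_, ok5ae_4⟩, ⟨_, ok5ae_5⟩, ⟨_, ok5ae_6⟩]) (V := vt .t5) (by decide) hz zero_dum zero_dum (rgA hk)
  rw [evG5m (mr_true k)] at h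
  exact fun h0 => h (by rw [h0, mul_zero])

/-- edges -/
def L5se : List ((ℕ × ℕ) × (ℕ × ℕ)) :=
  [((11520, 1120), (12800, 160)), ((12800, 160), (15040, 160)), ((15040, 160), (15280, 1760)),
    ((15280, 1760), (14400, 4000)), ((14400, 4000), (12800, 4000)), ((12800, 4000), (11520,
    3040)), ((11520, 3040), (11520, 1120))]

/-- tree -/
def T5se_0 : CT := .rel2 [(8000, 0), (16000, 0), (8000, 32006)] (.leaf ⟨10, 0, 0, 1⟩)

theorem ok5se_0 : chkT cG5n cG5n T5se_0 (11520, 1120) (12800, 160) dum dum nS = true := by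
  decide +kernel

/-- tree -/
def T5se_1 : CT := .rel2 [(8000, 0), (16000, 0), (8000, 32006)] (.leaf ⟨8, 0, 0, 6⟩)

theorem ok5se_1 : chkT cG5n cG5n T5se_1 (12800, 160) (15040, 160) dum dum nS = true := by
  decide +kernel

/-- tree -/
def T5se_2 : CT := .rel2 [(8000, 0), (16000, 0), (8000, 32006)] (.leaf ⟨0, 4, 0, 9⟩)

theorem ok5se_2 : chkT cG5n cG5n T5se_2 (15040, 160) (15280, 1760) dum dum nS = true := by
  decide +kernel

/-- tree -/
def T5se_3 : CT := .rel2 [(8000, 0), (16000, 0), (8000, 32000)] (.leaf ⟨0, 10, 0, 0⟩)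

theorem ok5se_3 : chkT cG5n cG5n T5se_3 (15280, 1760) (14400, 4000) dum dum nS = true := by
  decide +kernel

/-- tree -/
def T5se_4 : CT := .rel2 [(8000, 0), (16000, 0), (8000, 32006)] (.leaf ⟨0, 6, 8, 0⟩)

theorem ok5se_4 : chkT cG5n cG5n T5se_4 (14400, 4000) (12800, 4000) dum dum nS = true := by
  decide +kernel

/-- tree -/
def T5se_5 : CT := .rel2 [(8000, 0), (16000, 0), (8000, 32006)] (.leaf ⟨7, 0, 7, 0⟩)

theorem ok5se_5 : chkT cG5n cG5n T5se_5 (12800, 4000) (11520, 3040) dum dum nS = true := by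
  decide +kernel

/-- tree -/
def T5se_6 : CT := .rel2 [(8000, 0), (16000, 0), (8000, 32000)] (.leaf ⟨10, 0, 0, 0⟩)

theorem ok5se_6 : chkT cG5n cG5n T5se_6 (11520, 3040) (11520, 1120) dum dum nS = true := by
  decide +kernel

theorem fr5se {z k : ℂ} (hz : OnE (vt .t5) z) (hk : k ∈ Poly pS) :
    k + Complex.I * z * (16 * z ^ 4 - 12 * z ^ 2 + 1) ≠ 0 := by
  have h := edge_use rpG5n (E := L5se) (V0 := dum) (V1 := dum) (V2 := nS) (fun e he => by
    simp only [L5se, List.mem_cons, List.not_mem_nil, or_false] at he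
    rcases he with rfl | rfl | rfl | rfl | rfl | rfl | rfl
    exacts [⟨_, ok5se_0⟩, ⟨_, ok5se_1⟩, ⟨_, ok5se_2⟩, ⟨_, ok5se_3⟩, ⟨_, ok5se_4⟩, ⟨_, ok5se_5⟩, ⟨_, ok5se_6⟩]) (V := vt .t5) (by decide) hz zero_dum zero_dum (rgS hk)
  rw [evG5n (mr_false k)] at h
  exact fun h0 => h (by rw [h0, mul_zero])

end Pool.Agent.Work.MP_b30479_gtS.G2.SC

end

section

/-!
# The hinges

Generated certificates (see `S2Cert`).
-/

set_option linter.style.longLine false

set_option deprecated.oldSectionVars true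

namespace Pool.Agent.Work.MP_b30479_gtS.G2.SC

open scoped ComplexConjugate

/-- tree -/
def TPaa : CT := .seg (160, 64000) (.seg (160, 32000) (.rel1 [(6720, 0), (16000, 0), (12874,
    12505), (6720, 7120)] (.rel2 [(6720, 0), (16000, 0), (6720, 37123)] (.leaf ⟨2, 0, 10, 0⟩)))
    (.seg (160, 48000) (.rel1 [(6720, 0), (16000, 0), (13055, 11780), (6720, 7344)] (.rel2 [(6720,
    0), (16000, 0), (6720, 37120)] (.leaf ⟨4, 0, 9, 0⟩))) (.rel1 [(6720, 0), (16000, 0), (13296,
    10816), (6720, 10816)] (.rel2 [(12256, 0), (16000, 0), (12874, 12505), (4712, 5363)] (.leaf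
    ⟨9, 0, 4, 0⟩))))) (.rel1 [(12256, 0), (16000, 0), (12874, 12505), (4712, 5363)] (.rel2 [(6720,
    0), (16000, 0), (6720, 37123)] (.leaf ⟨2, 0, 10, 0⟩)))

theorem okPaa : chkT cPmm cPmm TPaa (160, 0) (160, 128000)
    dum nA nA = true := by
  decide +kernel

theorem hiPaa {R k l : ℂ} (hR : R.re = r0) (hi : |R.im| ≤ 4) (hk : conj k ∈ Poly pA) (hl : conj l ∈ Poly pA) :
    (k + l) * (k ^ 2 * (1 - Complex.I * R) ^ 2 + 1) - 2 * (1 - Complex.I * R) * k ^ 2 * l ≠ 0 := by
  have h := hinge_use rpPmm rpPmm okPaa hR hi zero_dum (rgA hk) (rgA hl)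
  rw [or_self, evPmm (mr_true k) (mr_true l)] at h
  exact fun h0 => h (by rw [h0, mul_zero])

/-- tree -/
def TPas : CT := .seg (160, 64000) (.seg (160, 32000) (.rel1 [(12256, 0), (16000, 0), (13055,
    11780), (4304, 5653)] (.rel2 [(16000, 0), (12390, 9238), (1710, 0)] (.leaf ⟨7, 0, 7, 0⟩)))
    (.seg (160, 48000) (.rel1 [(12256, 0), (16000, 0), (13055, 11780), (4304, 5653)] (.rel2
    [(16000, 0), (12390, 9238), (1710, 0)] (.leaf ⟨9, 0, 5, 0⟩))) (.rel1 [(6720, 0), (16000, 0),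
    (13296, 10816), (6720, 10816)] (.rel2 [(16000, 0), (12390, 9238), (1712, 0)] (.leaf ⟨9, 0, 4,
    0⟩))))) (.rel1 [(6720, 0), (16000, 0), (13055, 11780), (6720, 7344)] (.rel2 [(8000, 0),
    (16000, 0), (12592, 8720), (8000, 8720)] (.leaf ⟨6, 0, 8, 0⟩)))

theorem okPas : chkT cPmn cPmn TPas (160, 0) (160, 128000)
    dum nA nT = true := by
  decide +kernel

theorem hiPas {R k l : ℂ} (hR : R.re = r0) (hi : |R.im| ≤ 4) (hk : conj k ∈ Poly pA) (hl : l ∈ Poly pT) :
    (k + l) * (k ^ 2 * (1 - Complex.I * R) ^ 2 + 1) - 2 * (1 - Complex.I * R) * k ^ 2 * l ≠ 0 := by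
  have h := hinge_use rpPmn rpPmn okPas hR hi zero_dum (rgA hk) (rgT hl)
  rw [or_self, evPmn (mr_true k) (mr_false l)] at h
  exact fun h0 => h (by rw [h0, mul_zero])

/-- tree -/
def TPsa : CT := .seg (160, 64000) (.seg (160, 32000) (.rel1 [(16000, 0), (12390, 9238), (1710,
    0)] (.rel2 [(12256, 0), (16000, 0), (13055, 11780), (4304, 5653)] (.leaf ⟨9, 0, 0, 4⟩))) (.seg
    (160, 48000) (.rel1 [(16000, 0), (12390, 9238), (1710, 0)] (.rel2 [(12256, 0), (16000, 0),
    (13055, 11780), (4304, 5653)] (.leaf ⟨10, 0, 0, 2⟩))) (.rel1 [(8000, 0), (16000, 0), (12592,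
    8720), (8000, 8720)] (.rel2 [(6720, 0), (16000, 0), (12874, 12505), (6720, 7120)] (.leaf ⟨10,
    0, 0, 1⟩))))) (.rel1 [(16000, 0), (12390, 9238), (1710, 0)] (.rel2 [(6720, 0), (16000, 0),
    (13055, 11780), (6720, 7344)] (.leaf ⟨9, 0, 0, 5⟩)))

theorem okPsa : chkT cPnm cPnm TPsa (160, 0) (160, 128000)
    dum nT nA = true := by
  decide +kernel

theorem hiPsa {R k l : ℂ} (hR : R.re = r0) (hi : |R.im| ≤ 4) (hk : k ∈ Poly pT) (hl : conj l ∈ Poly pA) :
    (k + l) * (k ^ 2 * (1 - Complex.I * R) ^ 2 + 1) - 2 * (1 - Complex.I * R) * k ^ 2 * l ≠ 0 := by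
  have h := hinge_use rpPnm rpPnm okPsa hR hi zero_dum (rgT hk) (rgA hl)
  rw [or_self, evPnm (mr_false k) (mr_true l)] at h
  exact fun h0 => h (by rw [h0, mul_zero])

/-- scaled vertices -/
def nt3aa : List (ℕ × ℕ) :=
  [(11424, 2224), (12192, 1680), (13792, 1680), (13968, 3504), (13632, 4784), (12704, 4784), (11424, 3696)]

lemma rgt3aa {z : ℂ} (h : z ∈ Poly (vt .t3aa)) : 16000 * z ∈ Rg nt3aa := rg_of_poly (by decide) h

/-- scaled vertices -/
def nt3ae : List (ℕ × ℕ) :=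
  [(9824, 1872), (10384, 1456), (11824, 1456), (11920, 2448), (11248, 4128), (10528, 4128), (9824, 3520)]

lemma rgt3ae {z : ℂ} (h : z ∈ Poly (vt .t3ae)) : 16000 * z ∈ Rg nt3ae := rg_of_poly (by decide) h

/-- scaled vertices -/
def nt3as : List (ℕ × ℕ) :=
  [(10544, 3472), (11552, 2752), (13648, 2752), (13792, 4224), (13216, 6416), (12256, 6416), (10544, 4960)]

lemma rgt3as {z : ℂ} (h : z ∈ Poly (vt .t3as)) : 16000 * z ∈ Rg nt3as := rg_of_poly (by decide) h

/-- scaled vertices -/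
def nt3se : List (ℕ × ℕ) :=
  [(8016, 3840), (8576, 3440), (10656, 3440), (10704, 4032), (10048, 5696), (8800, 5696), (8016, 5024)]

lemma rgt3se {z : ℂ} (h : z ∈ Poly (vt .t3se)) : 16000 * z ∈ Rg nt3se := rg_of_poly (by decide) h

/-- scaled vertices -/
def nt3ss : List (ℕ × ℕ) :=
  [(10192, 5472), (11728, 4384), (13680, 4384), (13696, 4704), (12928, 7792), (12624, 8624), (11728, 8624), (10192, 7280)]

lemma rgt3ss {z : ℂ} (h : z ∈ Poly (vt .t3ss)) : 16000 * z ∈ Rg nt3ss := rg_of_poly (by decide) h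

/-- scaled vertices -/
def nt4 : List (ℕ × ℕ) :=
  [(10560, 1840), (12160, 608), (14400, 608), (14720, 1920), (13280, 5280), (12320, 5280), (10560, 3680)]

lemma rgt4 {z : ℂ} (h : z ∈ Poly (vt .t4)) : 16000 * z ∈ Rg nt4 := rg_of_poly (by decide) h

/-- scaled vertices -/
def nt5 : List (ℕ × ℕ) :=
  [(11520, 1120), (12800, 160), (15040, 160), (15280, 1760), (14400, 4000), (12800, 4000), (11520, 3040)]

lemma rgt5 {z : ℂ} (h : z ∈ Poly (vt .t5)) : 16000 * z ∈ Rg nt5 := rg_of_poly (by decide) h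

/-- scaled vertices -/
def nt6 : List (ℕ × ℕ) :=
  [(12640, 720), (13600, 64), (15360, 64), (15408, 1440), (14720, 3200), (13280, 3200), (12640, 2400)]

lemma rgt6 {z : ℂ} (h : z ∈ Poly (vt .t6)) : 16000 * z ∈ Rg nt6 := rg_of_poly (by decide) h

/-- scaled vertices -/
def nt7 : List (ℕ × ℕ) :=
  [(13280, 480), (13920, 16), (15280, 16), (15440, 800), (14960, 2080), (13760, 2080), (13280, 1760)]

lemma rgt7 {z : ℂ} (h : z ∈ Poly (vt .t7)) : 16000 * z ∈ Rg nt7 := rg_of_poly (by decide) h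

/-- scaled vertices -/
def nt8 : List (ℕ × ℕ) :=
  [(12800, 0), (16000, 0), (14400, 4000), (12800, 4000)]

lemma rgt8 {z : ℂ} (h : z ∈ Poly (vt .t8)) : 16000 * z ∈ Rg nt8 := rg_of_poly (by decide) h

/-- tree -/
def TE3aaA : CT := .seg (160, 64000) (.rel1 [(14447, 1680), (13632, 4784), (12704, 4784), (9052,
    1680)] (.rel2 [(6720, 0), (16000, 0), (13055, 11780), (6720, 7344)] (.leaf ⟨0, 10, 0, 3⟩)))
    (.rel1 [(14447, 1680), (13632, 4784), (12704, 4784), (9052, 1680)] (.rel2 [(6720, 0), (16000,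
    0), (13055, 11780), (6720, 7344)] (.leaf ⟨0, 9, 0, 4⟩)))

theorem okE3aaA : chkT cEm cEm TE3aaA (160, 0) (160, 128000)
    dum nt3aa nA = true := by
  decide +kernel

theorem hiE3aaA {R z k : ℂ} (hR : R.re = r0) (hi : |R.im| ≤ 4) (hz : z ∈ Poly (vt .t3aa))
    (hk : conj k ∈ Poly pA) : k ^ 2 * (z ^ 2 * (R ^ 2 + 1) - 1) - z ^ 2 ≠ 0 := by
  have h := hinge_use rpEm rpEm okE3aaA hR hi zero_dum (rgt3aa hz) (rgA hk)
  rw [or_self, evEm (mr_false z) (mr_true k)] at h
  exact fun h0 => h (by rw [h0, mul_zero])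

/-- tree -/
def TE3asS : CT := .seg (160, 64000) (.rel1 [(14179, 2752), (13041, 7084), (7947, 2752)] (.rel2
    [(8000, 0), (16000, 0), (13020, 11922), (8000, 7680)] (.leaf ⟨0, 4, 9, 0⟩))) (.rel1 [(13648,
    2752), (14167, 8041), (7947, 2752)] (.rel2 [(8000, 0), (16000, 0), (13020, 11922), (8000,
    7680)] (.leaf ⟨0, 4, 9, 0⟩)))

theorem okE3asS : chkT cEn cEn TE3asS (160, 0) (160, 128000)
    dum nt3as nS = true := by
  decide +kernel

theorem hiE3asS {R z k : ℂ} (hR : R.re = r0) (hi : |R.im| ≤ 4) (hz : z ∈ Poly (vt .t3as))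
    (hk : k ∈ Poly pS) : k ^ 2 * (z ^ 2 * (R ^ 2 + 1) - 1) - z ^ 2 ≠ 0 := by
  have h := hinge_use rpEn rpEn okE3asS hR hi zero_dum (rgt3as hz) (rgS hk)
  rw [or_self, evEn (mr_false z) (mr_false k)] at h
  exact fun h0 => h (by rw [h0, mul_zero])

/-- tree -/
def TE3ssS : CT := .seg (160, 64000) (.rel1 [(14174, 4384), (12407, 9219), (6882, 4384)] (.rel2
    [(8000, 0), (16000, 0), (13020, 11922), (8000, 7680)] (.leaf ⟨0, 2, 10, 0⟩))) (.rel1 [(13680,
    4384), (13996, 10609), (6882, 4384)] (.rel2 [(8000, 0), (16000, 0), (13020, 11922), (8000,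
    7680)] (.leaf ⟨0, 2, 10, 0⟩)))

theorem okE3ssS : chkT cEn cEn TE3ssS (160, 0) (160, 128000)
    dum nt3ss nS = true := by
  decide +kernel

theorem hiE3ssS {R z k : ℂ} (hR : R.re = r0) (hi : |R.im| ≤ 4) (hz : z ∈ Poly (vt .t3ss))
    (hk : k ∈ Poly pS) : k ^ 2 * (z ^ 2 * (R ^ 2 + 1) - 1) - z ^ 2 ≠ 0 := by
  have h := hinge_use rpEn rpEn okE3ssS hR hi zero_dum (rgt3ss hz) (rgS hk)
  rw [or_self, evEn (mr_false z) (mr_false k)] at h
  exact fun h0 => h (by rw [h0, mul_zero])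

/-- tree -/
def TE3aeA : CT := .seg (160, 64000) (.rel1 [(12317, 1456), (11063, 4591), (7434, 1456)] (.rel2
    [(6720, 0), (16000, 0), (13055, 11780), (6720, 7344)] (.leaf ⟨0, 9, 0, 4⟩))) (.rel1 [(12317,
    1456), (11063, 4591), (7434, 1456)] (.rel2 [(6720, 0), (16000, 0), (13055, 11780), (6720,
    7344)] (.leaf ⟨0, 9, 0, 4⟩)))

theorem okE3aeA : chkT cEm cEm TE3aeA (160, 0) (160, 128000)
    dum nt3ae nA = true := by
  decide +kernel

theorem hiE3aeA {R z k : ℂ} (hR : R.re = r0) (hi : |R.im| ≤ 4) (hz : z ∈ Poly (vt .t3ae))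
    (hk : conj k ∈ Poly pA) : k ^ 2 * (z ^ 2 * (R ^ 2 + 1) - 1) - z ^ 2 ≠ 0 := by
  have h := hinge_use rpEm rpEm okE3aeA hR hi zero_dum (rgt3ae hz) (rgA hk)
  rw [or_self, evEm (mr_false z) (mr_true k)] at h
  exact fun h0 => h (by rw [h0, mul_zero])

/-- tree -/
def TE3seS : CT := .seg (160, 64000) (.rel1 [(10938, 3440), (9733, 6496), (6168, 3440)] (.rel2
    [(8000, 0), (16000, 0), (13020, 11922), (8000, 7680)] (.leaf ⟨0, 3, 9, 0⟩))) (.rel1 [(10656,
    3440), (10992, 7575), (6168, 3440)] (.rel2 [(8000, 0), (16000, 0), (13020, 11922), (8000,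
    7680)] (.leaf ⟨0, 3, 10, 0⟩)))

theorem okE3seS : chkT cEn cEn TE3seS (160, 0) (160, 128000)
    dum nt3se nS = true := by
  decide +kernel

theorem hiE3seS {R z k : ℂ} (hR : R.re = r0) (hi : |R.im| ≤ 4) (hz : z ∈ Poly (vt .t3se))
    (hk : k ∈ Poly pS) : k ^ 2 * (z ^ 2 * (R ^ 2 + 1) - 1) - z ^ 2 ≠ 0 := by
  have h := hinge_use rpEn rpEn okE3seS hR hi zero_dum (rgt3se hz) (rgS hk)
  rw [or_self, evEn (mr_false z) (mr_false k)] at h
  exact fun h0 => h (by rw [h0, mul_zero])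

/-- tree -/
def TE4A : CT := .seg (160, 64000) (.rel1 [(15283, 608), (13280, 5280), (12320, 5280), (7180,
    608)] (.rel2 [(6720, 0), (16000, 0), (13296, 10816), (11680, 10816), (6720, 7344)] (.leaf ⟨0,
    10, 0, 3⟩))) (.rel1 [(15283, 608), (13280, 5280), (12320, 5280), (7180, 608)] (.rel2 [(6720,
    0), (16000, 0), (13296, 10816), (11680, 10816), (6720, 7344)] (.leaf ⟨0, 10, 0, 3⟩)))

theorem okE4A : chkT cEm cEm TE4A (160, 0) (160, 128000)
    dum nt4 nA = true := by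
  decide +kernel

theorem hiE4A {R z k : ℂ} (hR : R.re = r0) (hi : |R.im| ≤ 4) (hz : z ∈ Poly (vt .t4))
    (hk : conj k ∈ Poly pA) : k ^ 2 * (z ^ 2 * (R ^ 2 + 1) - 1) - z ^ 2 ≠ 0 := by
  have h := hinge_use rpEm rpEm okE4A hR hi zero_dum (rgt4 hz) (rgA hk)
  rw [or_self, evEm (mr_false z) (mr_true k)] at h
  exact fun h0 => h (by rw [h0, mul_zero])

/-- tree -/
def TE4S : CT := .seg (160, 64000) (.rel1 [(15283, 608), (13011, 5909), (7180, 608)] (.rel2
    [(8000, 0), (16000, 0), (13020, 11922), (8000, 7680)] (.leaf ⟨0, 4, 9, 0⟩))) (.rel1 [(14400,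
    608), (16458, 9042), (7180, 608)] (.rel2 [(8000, 0), (16000, 0), (13020, 11922), (8000, 7680)]
    (.leaf ⟨0, 4, 9, 0⟩)))

theorem okE4S : chkT cEn cEn TE4S (160, 0) (160, 128000)
    dum nt4 nS = true := by
  decide +kernel

theorem hiE4S {R z k : ℂ} (hR : R.re = r0) (hi : |R.im| ≤ 4) (hz : z ∈ Poly (vt .t4))
    (hk : k ∈ Poly pS) : k ^ 2 * (z ^ 2 * (R ^ 2 + 1) - 1) - z ^ 2 ≠ 0 := by
  have h := hinge_use rpEn rpEn okE4S hR hi zero_dum (rgt4 hz) (rgS hk)
  rw [or_self, evEn (mr_false z) (mr_false k)] at h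
  exact fun h0 => h (by rw [h0, mul_zero])

/-- tree -/
def TE5A : CT := .seg (160, 64000) (.rel1 [(15909, 160), (14036, 4927), (7680, 160)] (.rel2
    [(6720, 0), (16000, 0), (12874, 12505), (6720, 7120)] (.leaf ⟨0, 10, 0, 0⟩))) (.rel1 [(15909,
    160), (14400, 4000), (12800, 4000), (7680, 160)] (.rel2 [(6720, 0), (16000, 0), (12874,
    12505), (6720, 7120)] (.leaf ⟨0, 9, 0, 4⟩)))

theorem okE5A : chkT cEm cEm TE5A (160, 0) (160, 128000)
    dum nt5 nA = true := by
  decide +kernel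

theorem hiE5A {R z k : ℂ} (hR : R.re = r0) (hi : |R.im| ≤ 4) (hz : z ∈ Poly (vt .t5))
    (hk : conj k ∈ Poly pA) : k ^ 2 * (z ^ 2 * (R ^ 2 + 1) - 1) - z ^ 2 ≠ 0 := by
  have h := hinge_use rpEm rpEm okE5A hR hi zero_dum (rgt5 hz) (rgA hk)
  rw [or_self, evEm (mr_false z) (mr_true k)] at h
  exact fun h0 => h (by rw [h0, mul_zero])

/-- tree -/
def TE5S : CT := .seg (160, 64000) (.rel1 [(15909, 160), (14036, 4927), (7680, 160)] (.rel2
    [(8000, 0), (16000, 0), (13020, 11922), (8000, 7680)] (.leaf ⟨0, 5, 9, 0⟩))) (.rel1 [(15040,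
    160), (15973, 6380), (7680, 160)] (.rel2 [(8000, 0), (16000, 0), (13020, 11922), (8000, 7680)]
    (.leaf ⟨0, 5, 9, 0⟩)))

theorem okE5S : chkT cEn cEn TE5S (160, 0) (160, 128000)
    dum nt5 nS = true := by
  decide +kernel

theorem hiE5S {R z k : ℂ} (hR : R.re = r0) (hi : |R.im| ≤ 4) (hz : z ∈ Poly (vt .t5))
    (hk : k ∈ Poly pS) : k ^ 2 * (z ^ 2 * (R ^ 2 + 1) - 1) - z ^ 2 ≠ 0 := by
  have h := hinge_use rpEn rpEn okE5S hR hi zero_dum (rgt5 hz) (rgS hk)
  rw [or_self, evEn (mr_false z) (mr_false k)] at h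
  exact fun h0 => h (by rw [h0, mul_zero])

/-- tree -/
def TE6A : CT := .seg (160, 64000) (.rel1 [(15946, 64), (14248, 4409), (10769, 64)] (.rel2
    [(12256, 0), (16000, 0), (12874, 12505), (4712, 5363)] (.leaf ⟨0, 9, 0, 3⟩))) (.rel1 [(15946,
    64), (14248, 4409), (10769, 64)] (.rel2 [(6720, 0), (16000, 0), (12874, 12505), (6720, 7120)]
    (.leaf ⟨0, 10, 0, 3⟩)))

theorem okE6A : chkT cEm cEm TE6A (160, 0) (160, 128000)
    dum nt6 nA = true := by
  decide +kernel

theorem hiE6A {R z k : ℂ} (hR : R.re = r0) (hi : |R.im| ≤ 4) (hz : z ∈ Poly (vt .t6))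
    (hk : conj k ∈ Poly pA) : k ^ 2 * (z ^ 2 * (R ^ 2 + 1) - 1) - z ^ 2 ≠ 0 := by
  have h := hinge_use rpEm rpEm okE6A hR hi zero_dum (rgt6 hz) (rgA hk)
  rw [or_self, evEm (mr_false z) (mr_true k)] at h
  exact fun h0 => h (by rw [h0, mul_zero])

/-- tree -/
def TE6S : CT := .seg (160, 64000) (.rel1 [(15946, 64), (14247, 4410), (10771, 64)] (.rel2 [(8000,
    0), (16000, 0), (13020, 11922), (8000, 7680)] (.leaf ⟨0, 5, 8, 0⟩))) (.rel1 [(15360, 64),
    (15571, 6064), (10771, 64)] (.rel2 [(8000, 0), (16000, 0), (13020, 11922), (8000, 7680)]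
    (.leaf ⟨0, 5, 9, 0⟩)))

theorem okE6S : chkT cEn cEn TE6S (160, 0) (160, 128000)
    dum nt6 nS = true := by
  decide +kernel

theorem hiE6S {R z k : ℂ} (hR : R.re = r0) (hi : |R.im| ≤ 4) (hz : z ∈ Poly (vt .t6))
    (hk : k ∈ Poly pS) : k ^ 2 * (z ^ 2 * (R ^ 2 + 1) - 1) - z ^ 2 ≠ 0 := by
  have h := hinge_use rpEn rpEn okE6S hR hi zero_dum (rgt6 hz) (rgS hk)
  rw [or_self, evEn (mr_false z) (mr_false k)] at h
  exact fun h0 => h (by rw [h0, mul_zero])

/-- tree -/
def TE7A : CT := .seg (160, 64000) (.rel1 [(15734, 16), (14720, 2720), (10662, 16)] (.rel2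
    [(12256, 0), (16000, 0), (12874, 12505), (4712, 5363)] (.leaf ⟨0, 8, 0, 5⟩))) (.rel1 [(15734,
    16), (14720, 2720), (10662, 16)] (.rel2 [(12256, 0), (16000, 0), (12874, 12505), (4712, 5363)]
    (.leaf ⟨0, 8, 0, 5⟩)))

theorem okE7A : chkT cEm cEm TE7A (160, 0) (160, 128000)
    dum nt7 nA = true := by
  decide +kernel

theorem hiE7A {R z k : ℂ} (hR : R.re = r0) (hi : |R.im| ≤ 4) (hz : z ∈ Poly (vt .t7))
    (hk : conj k ∈ Poly pA) : k ^ 2 * (z ^ 2 * (R ^ 2 + 1) - 1) - z ^ 2 ≠ 0 := by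
  have h := hinge_use rpEm rpEm okE7A hR hi zero_dum (rgt7 hz) (rgA hk)
  rw [or_self, evEm (mr_false z) (mr_true k)] at h
  exact fun h0 => h (by rw [h0, mul_zero])

/-- tree -/
def TE7S : CT := .seg (160, 64000) (.rel1 [(15734, 16), (14720, 2720), (10664, 16)] (.rel2 [(8000,
    0), (16000, 0), (8000, 32006)] (.leaf ⟨0, 1, 10, 0⟩))) (.rel1 [(15280, 16), (16009, 3580),
    (10664, 16)] (.rel2 [(8000, 0), (16000, 0), (8000, 32006)] (.leaf ⟨0, 2, 30, 0⟩)))

theorem okE7S : chkT cEn cEn TE7S (160, 0) (160, 128000)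
    dum nt7 nS = true := by
  decide +kernel

theorem hiE7S {R z k : ℂ} (hR : R.re = r0) (hi : |R.im| ≤ 4) (hz : z ∈ Poly (vt .t7))
    (hk : k ∈ Poly pS) : k ^ 2 * (z ^ 2 * (R ^ 2 + 1) - 1) - z ^ 2 ≠ 0 := by
  have h := hinge_use rpEn rpEn okE7S hR hi zero_dum (rgt7 hz) (rgS hk)
  rw [or_self, evEn (mr_false z) (mr_false k)] at h
  exact fun h0 => h (by rw [h0, mul_zero])

/-- tree -/
def TE8A : CT := .seg (160, 64000) (.rel2 [(6720, 0), (16000, 0), (12874, 12505), (6720, 7120)]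
    (.leaf ⟨0, 9, 0, 4⟩)) (.rel2 [(6720, 0), (16000, 0), (12874, 12505), (6720, 7120)] (.leaf ⟨0,
    9, 0, 4⟩))

theorem okE8A : chkT cEm cEm TE8A (160, 0) (160, 128000)
    dum nt8 nA = true := by
  decide +kernel

theorem hiE8A {R z k : ℂ} (hR : R.re = r0) (hi : |R.im| ≤ 4) (hz : z ∈ Poly (vt .t8))
    (hk : conj k ∈ Poly pA) : k ^ 2 * (z ^ 2 * (R ^ 2 + 1) - 1) - z ^ 2 ≠ 0 := by
  have h := hinge_use rpEm rpEm okE8A hR hi zero_dum (rgt8 hz) (rgA hk)
  rw [or_self, evEm (mr_false z) (mr_true k)] at h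
  exact fun h0 => h (by rw [h0, mul_zero])

/-- tree -/
def TE8S : CT := .seg (160, 64000) (.rel1 [(12800, 0), (16000, 0), (12800, 8000)] (.rel2 [(8000,
    0), (16000, 0), (13020, 11922), (8000, 7680)] (.leaf ⟨0, 3, 9, 0⟩))) (.rel1 [(12800, 0),
    (16000, 0), (12800, 8000)] (.rel2 [(8000, 0), (16000, 0), (13020, 11922), (8000, 7680)] (.leaf
    ⟨0, 3, 9, 0⟩)))

theorem okE8S : chkT cEn cEn TE8S (160, 0) (160, 128000)
    dum nt8 nS = true := by
  decide +kernel

theorem hiE8S {R z k : ℂ} (hR : R.re = r0) (hi : |R.im| ≤ 4) (hz : z ∈ Poly (vt .t8))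
    (hk : k ∈ Poly pS) : k ^ 2 * (z ^ 2 * (R ^ 2 + 1) - 1) - z ^ 2 ≠ 0 := by
  have h := hinge_use rpEn rpEn okE8S hR hi zero_dum (rgt8 hz) (rgS hk)
  rw [or_self, evEn (mr_false z) (mr_false k)] at h
  exact fun h0 => h (by rw [h0, mul_zero])

/-- tree -/
def TH : CT := .seg (160, 64000) (.rel0 [(13648, 2752), (14007, 6416), (12256, 6416), (7947,
    2752)] (.rel1 [(6720, 0), (16000, 0), (13055, 11780), (6720, 7344)] (.rel2 [(8000, 0), (16000,
    0), (13020, 11922), (8000, 7680)] (.leaf ⟨30, 0, 2, 0⟩)))) (.cut0 true 4584 [(10544, 3472),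
    (11552, 2752), (13648, 2752), (13792, 4224), (13698, 4584), (10544, 4584)] [(13698, 4584),
    (13216, 6416), (12256, 6416), (10544, 4960), (10544, 4584)] (.rel0 [(10544, 2752), (14177,
    2752), (13698, 4584), (10544, 4584)] (.rel1 [(6720, 0), (16000, 0), (13055, 11780), (6720,
    7344)] (.rel2 [(8000, 0), (16000, 0), (8000, 32006)] (.leaf2 ⟨0, 9, 0, 4⟩)))) (.rel0 [(13698,
    4584), (13041, 7084), (10101, 4584)] (.rel1 [(12256, 0), (16000, 0), (12874, 12505), (4712,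
    5363)] (.rel2 [(8000, 0), (16000, 0), (13020, 11922), (8000, 7680)] (.leaf ⟨3, 0, 10, 0⟩)))))

theorem okH : chkT cH1 cH2 TH (160, 0) (160, 128000)
    nt3as nA nS = true := by
  decide +kernel

theorem hiH {R z k l : ℂ} (hR : R.re = r0) (hi : |R.im| ≤ 4) (hz : z ∈ Poly (vt .t3as))
    (hk : conj k ∈ Poly pA) (hl : l ∈ Poly pS) :
    l - k * (4 * z ^ 3 - 3 * z - Complex.I * R * (z * (4 * z ^ 2 - 1))) ≠ 0 ∨
      k ^ 2 * (z ^ 2 * (R ^ 2 + 1) - 1) - z ^ 2 ≠ 0 := by
  have h := hinge_use rpH1 rpH2 okH hR hi (rgt3as hz) (rgA hk) (rgS hl)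
  rw [evH1 (mr_false z) (mr_true k) (mr_false l), evH2 (mr_false z) (mr_true k)] at h
  exact h.imp (fun h h0 => h (by rw [h0, mul_zero])) (fun h h0 => h (by rw [h0, mul_zero]))

end Pool.Agent.Work.MP_b30479_gtS.G2.SC

end

section

/-!
# Refined rings, round 1, 4 crossings

Generated certificates (see `S2Cert`).
-/

set_option linter.style.longLine false

set_option deprecated.oldSectionVars true

namespace Pool.Agent.Work.MP_b30479_gtS.G2.SC

open scoped ComplexConjugate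

/-- edges -/
def L1_4ea : List ((ℕ × ℕ) × (ℕ × ℕ)) :=
  [((12048, 880), (12432, 752)), ((12432, 752), (13008, 1168)), ((13008, 1168), (13024, 1264)),
      ((13024, 1264), (12224, 2080)), ((12224, 2080), (11968, 1744)), ((11968, 1744), (11968,
      1408)), ((11968, 1408), (12048, 880))]

/-- tree -/
def T1_4ea_0 : CT :=
  .rel2 [(16000, 0), (12934, 12269), (6720, 7104), (6719, 0)] (.leaf ⟨1, 0, 0, 0⟩)

theorem ok1_4ea_0 :
    chkT cG4m cG4m T1_4ea_0 (12048, 880) (12432, 752) dum dum n1_A2 = true := by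
  decide +kernel

/-- tree -/
def T1_4ea_1 : CT :=
  .cut2 true 5408 [(6720, 3952), (7760, 3200), (12560, 0), (16000, 0), (14648, 5408), (6720, 5408)]
      [(14648, 5408), (13296, 10816), (11728, 10800), (7952, 8128), (6720, 7104), (6720, 5408)]
      (.rel2 [(16000, 0), (14648, 5408), (6720, 5408), (6715, 0)] (.leaf ⟨0, 0, 0, 1⟩)) (.seg
      (12720, 960) (.rel2 [(14648, 5408), (13064, 11746), (7952, 8128), (4678, 5407)] (.leaf ⟨3, 0,
      0, 4⟩)) (.rel2 [(4105, 5406), (14648, 5408), (13064, 11746)] (.leaf ⟨7, 0, 0, 10⟩)))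

theorem ok1_4ea_1 :
    chkT cG4m cG4m T1_4ea_1 (12432, 752) (13008, 1168) dum dum n1_A2 = true := by
  decide +kernel

/-- tree -/
def T1_4ea_2 : CT :=
  .rel2 [(6718, 0), (16000, 0), (13296, 10816), (6718, 10749)] (.leaf ⟨0, 1, 0, 3⟩)

theorem ok1_4ea_2 :
    chkT cG4m cG4m T1_4ea_2 (13008, 1168) (13024, 1264) dum dum n1_A2 = true := by
  decide +kernel

/-- tree -/
def T1_4ea_3 : CT :=
  .cut2 false 11360 [(6720, 3952), (7760, 3200), (11360, 800), (11360, 10540), (7952, 8128), (6720,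
      7104)] [(11360, 800), (12560, 0), (16000, 0), (13296, 10816), (11728, 10800), (11360, 10540)]
      (.rel2 [(11360, 800), (11360, 10540), (4269, 5523)] (.leaf ⟨0, 1, 0, 0⟩)) (.seg (12624, 1672)
      (.rel2 [(11360, 800), (12560, 0), (16000, 0), (13296, 10816), (11359, 10797)] (.leaf ⟨0, 19,
      0, 6⟩)) (.rel2 [(16000, 0), (11358, 18568), (11359, 0)] (.leaf ⟨0, 39, 0, 9⟩)))

theorem ok1_4ea_3 :
    chkT cG4m cG4m T1_4ea_3 (13024, 1264) (12224, 2080) dum dum n1_A2 = true := by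
  decide +kernel

/-- tree -/
def T1_4ea_4 : CT :=
  .rel2 [(16000, 0), (6719, 37131), (6718, 0)] (.leaf ⟨0, 0, 1, 0⟩)

theorem ok1_4ea_4 :
    chkT cG4m cG4m T1_4ea_4 (12224, 2080) (11968, 1744) dum dum n1_A2 = true := by
  decide +kernel

/-- tree -/
def T1_4ea_5 : CT :=
  .rel2 [(12560, 0), (16000, 0), (13064, 11746), (4271, 5525)] (.leaf ⟨11, 0, 17, 0⟩)

theorem ok1_4ea_5 :
    chkT cG4m cG4m T1_4ea_5 (11968, 1744) (11968, 1408) dum dum n1_A2 = true := by
  decide +kernel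

/-- tree -/
def T1_4ea_6 : CT :=
  .cut2 false 11360 [(6720, 3952), (7760, 3200), (11360, 800), (11360, 10540), (7952, 8128), (6720,
      7104)] [(11360, 800), (12560, 0), (16000, 0), (13296, 10816), (11728, 10800), (11360, 10540)]
      (.cut2 true 5664 [(6720, 3952), (7760, 3200), (11360, 800), (11360, 5664), (6720, 5664)]
      [(11360, 5664), (11360, 10540), (7952, 8128), (6720, 7104), (6720, 5664)] (.cut2 true 3232
      [(7715, 3232), (7760, 3200), (11360, 800), (11360, 3232)] [(6720, 3952), (7715, 3232), (11360,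
      3232), (11360, 5664), (6720, 5664)] (.cut2 false 9536 [(7715, 3232), (7760, 3200), (9536,
      2016), (9536, 3232)] [(9536, 2016), (11360, 800), (11360, 3232), (9536, 3232)] (.seg (12008,
      1144) (.rel2 [(9536, 2016), (9536, 3232), (7711, 3232)] (.leaf ⟨11, 0, 17, 0⟩)) (.rel2 [(9536,
      2016), (9536, 3232), (7711, 3232)] (.leaf ⟨7, 0, 10, 0⟩))) (.leaf ⟨3, 0, 4, 0⟩)) (.rel2
      [(7715, 3232), (11360, 3232), (11360, 5664), (4353, 5664)] (.leaf ⟨4, 0, 7, 0⟩))) (.rel2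
      [(11360, 5664), (11360, 10961), (4986, 5663)] (.leaf ⟨0, 0, 1, 0⟩))) (.rel2 [(16000, 0),
      (11360, 18560), (11359, 0)] (.leaf ⟨7, 0, 4, 0⟩))

theorem ok1_4ea_6 :
    chkT cG4m cG4m T1_4ea_6 (11968, 1408) (12048, 880) dum dum n1_A2 = true := by
  decide +kernel

theorem fr1_4ea {z k : ℂ} (hz : OnE v1_4ea z) (hk : conj k ∈ Poly p1_A2) :
    k + Complex.I * z * (8 * z ^ 3 - 4 * z) ≠ 0 := by
  have h := edge_use rpG4m (E := L1_4ea) (V0 := dum) (V1 := dum) (V2 := n1_A2) (fun e he => by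
    simp only [L1_4ea, List.mem_cons, List.not_mem_nil, or_false] at he
    rcases he with rfl | rfl | rfl | rfl | rfl | rfl | rfl
    exacts [⟨_, ok1_4ea_0⟩, ⟨_, ok1_4ea_1⟩, ⟨_, ok1_4ea_2⟩, ⟨_, ok1_4ea_3⟩, ⟨_, ok1_4ea_4⟩, ⟨_,
        ok1_4ea_5⟩, ⟨_, ok1_4ea_6⟩]) (V := v1_4ea) (by decide) hz zero_dum zero_dum (rg1_A2 hk)
  rw [evG4m (mr_true k)] at h
  exact fun h0 => h (by rw [h0, mul_zero])

/-- edges -/
def L1_4ez : List ((ℕ × ℕ) × (ℕ × ℕ)) :=
  [((11424, 1872), (11616, 1680)), ((11616, 1680), (12000, 1760)), ((12000, 1760), (12256, 2064)),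
      ((12256, 2064), (11616, 2320)), ((11616, 2320), (11456, 2208)), ((11456, 2208), (11424,
      1872))]

/-- tree -/
def T1_4ez_0 : CT :=
  .rel2 [(10560, 1840), (12800, 0), (17900, 0), (10559, 8390)] (.leaf ⟨1, 0, 0, 0⟩)

theorem ok1_4ez_0 :
    chkT cG4n cG4n T1_4ez_0 (11424, 1872) (11616, 1680) dum dum n1_Z = true := by
  decide +kernel

/-- tree -/
def T1_4ez_1 : CT :=
  .rel2 [(10560, 1840), (12800, 0), (17900, 0), (10559, 8390)] (.leaf ⟨5, 0, 0, 6⟩)

theorem ok1_4ez_1 :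
    chkT cG4n cG4n T1_4ez_1 (11616, 1680) (12000, 1760) dum dum n1_Z = true := by
  decide +kernel

/-- tree -/
def T1_4ez_2 : CT :=
  .rel2 [(16000, 0), (10556, 13610), (10559, 0)] (.leaf ⟨0, 0, 0, 1⟩)

theorem ok1_4ez_2 :
    chkT cG4n cG4n T1_4ez_2 (12000, 1760) (12256, 2064) dum dum n1_Z = true := by
  decide +kernel

/-- tree -/
def T1_4ez_3 : CT :=
  .cut2 false 13280 [(10560, 1840), (12800, 0), (13280, 0), (13280, 5280), (12320, 5280), (10560,
      3680)] [(13280, 0), (16000, 0), (14400, 4000), (13280, 5280)] (.rel2 [(13280, 0), (13280,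
      5280), (10559, 5280), (10559, 0)] (.leaf ⟨0, 1, 0, 0⟩)) (.seg (11936, 2192) (.rel2 [(13280,
      0), (16000, 0), (13280, 6800)] (.leaf ⟨0, 37, 15, 0⟩)) (.leaf ⟨0, 18, 9, 0⟩))

theorem ok1_4ez_3 :
    chkT cG4n cG4n T1_4ez_3 (12256, 2064) (11616, 2320) dum dum n1_Z = true := by
  decide +kernel

/-- tree -/
def T1_4ez_4 : CT :=
  .rel2 [(17900, 0), (13280, 5280), (12320, 5280), (6511, 0)] (.leaf ⟨0, 1, 12, 0⟩)

theorem ok1_4ez_4 :
    chkT cG4n cG4n T1_4ez_4 (11616, 2320) (11456, 2208) dum dum n1_Z = true := by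
  decide +kernel

/-- tree -/
def T1_4ez_5 : CT :=
  .rel2 [(17900, 0), (12853, 5768), (6517, 0)] (.leaf ⟨8, 0, 9, 0⟩)

theorem ok1_4ez_5 :
    chkT cG4n cG4n T1_4ez_5 (11456, 2208) (11424, 1872) dum dum n1_Z = true := by
  decide +kernel

theorem fr1_4ez {z k : ℂ} (hz : OnE v1_4ez z) (hk : k ∈ Poly p1_Z) :
    k + Complex.I * z * (8 * z ^ 3 - 4 * z) ≠ 0 := by
  have h := edge_use rpG4n (E := L1_4ez) (V0 := dum) (V1 := dum) (V2 := n1_Z) (fun e he => by
    simp only [L1_4ez, List.mem_cons, List.not_mem_nil, or_false] at he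
    rcases he with rfl | rfl | rfl | rfl | rfl | rfl
    exacts [⟨_, ok1_4ez_0⟩, ⟨_, ok1_4ez_1⟩, ⟨_, ok1_4ez_2⟩, ⟨_, ok1_4ez_3⟩, ⟨_, ok1_4ez_4⟩, ⟨_,
        ok1_4ez_5⟩]) (V := v1_4ez) (by decide) hz zero_dum zero_dum (rg1_Z hk)
  rw [evG4n (mr_false k)] at h
  exact fun h0 => h (by rw [h0, mul_zero])

/-- edges -/
def L1_4es : List ((ℕ × ℕ) × (ℕ × ℕ)) :=
  [((10928, 1792), (11136, 1568)), ((11136, 1568), (11904, 1744)), ((11904, 1744), (12128, 2000)),
      ((12128, 2000), (11184, 2912)), ((11184, 2912), (10976, 2832)), ((10976, 2832), (10704,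
      2192)), ((10704, 2192), (10928, 1792))]

/-- tree -/
def T1_4es_0 : CT :=
  .cut2 true 5696 [(8016, 3840), (12112, 608), (14880, 608), (14269, 5696), (8112, 5696), (8016,
      5024)] [(14269, 5696), (13984, 8064), (13296, 10800), (11728, 10800), (8448, 8048), (8112,
      5696)] (.cut2 true 3152 [(8887, 3152), (12112, 608), (14880, 608), (14575, 3152)] [(8016,
      3840), (8887, 3152), (14575, 3152), (14269, 5696), (8112, 5696), (8016, 5024)] (.leaf ⟨1, 0,
      0, 0⟩) (.cut2 false 11280 [(8016, 3840), (8887, 3152), (11280, 3152), (11280, 5696), (8112,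
      5696), (8016, 5024)] [(11280, 3152), (14575, 3152), (14269, 5696), (11280, 5696)] (.cut2 false
      9648 [(8016, 3840), (8887, 3152), (9648, 3152), (9648, 5696), (8112, 5696), (8016, 5024)]
      [(9648, 3152), (11280, 3152), (11280, 5696), (9648, 5696)] (.cut2 false 8832 [(8016, 3840),
      (8832, 3195), (8832, 5696), (8112, 5696), (8016, 5024)] [(8832, 3195), (8887, 3152), (9648,
      3152), (9648, 5696), (8832, 5696)] (.cut2 false 8416 [(8016, 3840), (8416, 3523), (8416,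
      5696), (8112, 5696), (8016, 5024)] [(8416, 3523), (8832, 3195), (8832, 5696), (8416, 5696)]
      (.seg (11032, 1680) (.cut2 true 4608 [(8016, 3840), (8416, 3523), (8416, 4608), (8016, 4608)]
      [(8416, 4608), (8416, 5696), (8112, 5696), (8016, 5024), (8016, 4608)] (.rel2 [(8416, 3523),
      (8416, 4608), (7045, 4608)] (.leaf ⟨0, 0, 1, 0⟩)) (.cut2 false 8208 [(8208, 5696), (8112,
      5696), (8016, 5024), (8016, 4608), (8208, 4608)] [(8416, 4608), (8416, 5696), (8208, 5696),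
      (8208, 4608)] (.cut2 true 5152 [(8034, 5152), (8016, 5024), (8016, 4608), (8208, 4608), (8208,
      5152)] [(8208, 5696), (8112, 5696), (8034, 5152), (8208, 5152)] (.rel2 [(8208, 4608), (8208,
      5152), (8034, 5152), (7956, 4607)] (.leaf ⟨79, 0, 13, 0⟩)) (.rel2 [(8034, 5152), (8208, 5152),
      (8208, 6366)] (.leaf ⟨1, 0, 0, 0⟩))) (.leaf ⟨1, 0, 0, 0⟩))) (.rel2 [(8016, 5024), (8016,
      3840), (8416, 3523), (8416, 7824)] (.leaf ⟨1, 0, 0, 0⟩))) (.leaf ⟨1, 0, 0, 0⟩)) (.rel2 [(9648,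
      5696), (8832, 5696), (8832, 3195), (9648, 2556)] (.leaf ⟨1, 0, 0, 0⟩))) (.leaf ⟨1, 0, 0, 0⟩))
      (.rel2 [(11280, 3152), (14575, 3152), (11280, 30546)] (.leaf ⟨4, 0, 0, 3⟩)))) (.rel2 [(8112,
      5696), (14269, 5696), (11456, 29105)] (.leaf ⟨1, 0, 0, 2⟩))

theorem ok1_4es_0 :
    chkT cG4n cG4n T1_4es_0 (10928, 1792) (11136, 1568) dum dum n1_S3 = true := by
  decide +kernel

/-- tree -/
def T1_4es_1 : CT :=
  .rel2 [(8016, 3840), (12112, 608), (15859, 608), (13023, 11887), (8015, 7685)] (.leaf ⟨25, 0, 0,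
      31⟩)

theorem ok1_4es_1 :
    chkT cG4n cG4n T1_4es_1 (11136, 1568) (11904, 1744) dum dum n1_S3 = true := by
  decide +kernel

/-- tree -/
def T1_4es_2 : CT :=
  .rel2 [(7383, 607), (14880, 608), (11455, 29110)] (.leaf ⟨0, 0, 0, 1⟩)

theorem ok1_4es_2 :
    chkT cG4n cG4n T1_4es_2 (11904, 1744) (12128, 2000) dum dum n1_S3 = true := by
  decide +kernel

/-- tree -/
def T1_4es_3 : CT :=
  .seg (11656, 2456) (.cut2 true 5696 [(8016, 3840), (12112, 608), (14880, 608), (14269, 5696),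
      (8112, 5696), (8016, 5024)] [(14269, 5696), (13984, 8064), (13296, 10800), (11728, 10800),
      (8448, 8048), (8112, 5696)] (.cut2 false 11440 [(8016, 3840), (11440, 1138), (11440, 5696),
      (8112, 5696), (8016, 5024)] [(11440, 1138), (12112, 608), (14880, 608), (14269, 5696), (11440,
      5696)] (.rel2 [(11440, 1138), (11440, 5696), (5663, 5696)] (.leaf ⟨0, 1, 0, 0⟩)) (.cut2 false
      13152 [(11440, 1138), (12112, 608), (13152, 608), (13152, 5696), (11440, 5696)] [(13152, 608),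
      (14880, 608), (14269, 5696), (13152, 5696)] (.rel2 [(13152, 608), (13152, 5696), (11440,
      5696), (11439, 607)] (.leaf ⟨0, 1, 0, 0⟩)) (.seg (11892, 2228) (.rel2 [(13152, 608), (14880,
      608), (13152, 14998)] (.leaf ⟨0, 1, 0, 0⟩)) (.leaf ⟨0, 39, 9, 0⟩)))) (.rel2 [(5644, 5696),
      (14269, 5696), (13478, 12269)] (.leaf ⟨0, 2, 0, 2⟩))) (.rel2 [(7384, 605), (14880, 608),
      (13984, 8064), (10454, 22102)] (.leaf ⟨0, 39, 9, 0⟩))

theorem ok1_4es_3 :
    chkT cG4n cG4n T1_4es_3 (12128, 2000) (11184, 2912) dum dum n1_S3 = true := by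
  decide +kernel

/-- tree -/
def T1_4es_4 : CT :=
  .rel2 [(8015, 607), (15859, 608), (13296, 10800), (8014, 10800)] (.leaf ⟨0, 1, 12, 0⟩)

theorem ok1_4es_4 :
    chkT cG4n cG4n T1_4es_4 (11184, 2912) (10976, 2832) dum dum n1_S3 = true := by
  decide +kernel

/-- tree -/
def T1_4es_5 : CT :=
  .cut2 true 5696 [(8016, 3840), (12112, 608), (14880, 608), (14269, 5696), (8112, 5696), (8016,
      5024)] [(14269, 5696), (13984, 8064), (13296, 10800), (11728, 10800), (8448, 8048), (8112,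
      5696)] (.rel2 [(14880, 608), (14269, 5696), (8112, 5696), (7383, 605)] (.leaf ⟨0, 0, 1, 0⟩))
      (.cut2 true 8240 [(14269, 5696), (13984, 8064), (13940, 8240), (8676, 8240), (8448, 8048),
      (8112, 5696)] [(13940, 8240), (13296, 10800), (11728, 10800), (8676, 8240)] (.rel2 [(14576,
      5696), (13940, 8240), (8676, 8240), (5654, 5696)] (.leaf ⟨1, 0, 2, 0⟩)) (.cut2 false 11296
      [(11296, 10438), (8676, 8240), (11296, 8240)] [(13940, 8240), (13296, 10800), (11728, 10800),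
      (11296, 10438), (11296, 8240)] (.seg (10840, 2512) (.leaf ⟨5, 0, 6, 0⟩) (.leaf ⟨5, 0, 6, 0⟩))
      (.rel2 [(11296, 10438), (11296, 8240), (13940, 8240), (13023, 11886)] (.leaf ⟨2, 0, 2, 0⟩))))

theorem ok1_4es_5 :
    chkT cG4n cG4n T1_4es_5 (10976, 2832) (10704, 2192) dum dum n1_S3 = true := by
  decide +kernel

/-- tree -/
def T1_4es_6 : CT :=
  .cut2 true 5696 [(8016, 3840), (12112, 608), (14880, 608), (14269, 5696), (8112, 5696), (8016,
      5024)] [(14269, 5696), (13984, 8064), (13296, 10800), (11728, 10800), (8448, 8048), (8112,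
      5696)] (.rel2 [(14880, 608), (14269, 5696), (8112, 5696), (7383, 605)] (.leaf ⟨1, 0, 2, 0⟩))
      (.cut2 true 8240 [(14269, 5696), (13984, 8064), (13940, 8240), (8676, 8240), (8448, 8048),
      (8112, 5696)] [(13940, 8240), (13296, 10800), (11728, 10800), (8676, 8240)] (.cut2 false 11184
      [(11184, 8240), (8676, 8240), (8448, 8048), (8112, 5696), (11184, 5696)] [(14269, 5696),
      (13984, 8064), (13940, 8240), (11184, 8240), (11184, 5696)] (.cut2 false 9648 [(9648, 8240),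
      (8676, 8240), (8448, 8048), (8112, 5696), (9648, 5696)] [(11184, 8240), (9648, 8240), (9648,
      5696), (11184, 5696)] (.cut2 false 8880 [(8880, 8240), (8676, 8240), (8448, 8048), (8112,
      5696), (8880, 5696)] [(9648, 8240), (8880, 8240), (8880, 5696), (9648, 5696)] (.cut2 false
      8496 [(8496, 8089), (8448, 8048), (8112, 5696), (8496, 5696)] [(8880, 8240), (8676, 8240),
      (8496, 8089), (8496, 5696), (8880, 5696)] (.cut2 false 8304 [(8304, 7040), (8112, 5696),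
      (8304, 5696)] [(8496, 8089), (8448, 8048), (8304, 7040), (8304, 5696), (8496, 5696)] (.leaf
      ⟨79, 0, 13, 0⟩) (.seg (10816, 1992) (.cut2 true 6880 [(8304, 6880), (8304, 5696), (8496,
      5696), (8496, 6880)] [(8496, 8089), (8448, 8048), (8304, 7040), (8304, 6880), (8496, 6880)]
      (.leaf ⟨1, 0, 2, 0⟩) (.cut2 true 7472 [(8365, 7472), (8304, 7040), (8304, 6880), (8496, 6880),
      (8496, 7472)] [(8496, 8089), (8448, 8048), (8365, 7472), (8496, 7472)] (.rel2 [(8496, 6880),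
      (8496, 7472), (8365, 7472), (8280, 6879)] (.leaf ⟨79, 0, 13, 0⟩)) (.seg (10760, 2092) (.rel2
      [(8365, 7472), (8496, 7472), (8496, 8382)] (.leaf ⟨79, 0, 13, 0⟩)) (.rel2 [(8365, 7472),
      (8496, 7472), (8496, 8382)] (.leaf ⟨1, 0, 0, 0⟩))))) (.rel2 [(8304, 7040), (8304, 5696),
      (8496, 5696), (8496, 8384)] (.leaf ⟨1, 0, 0, 0⟩)))) (.rel2 [(8496, 8089), (8496, 5696), (8880,
      5696), (8880, 8412)] (.leaf ⟨1, 0, 0, 0⟩))) (.leaf ⟨1, 0, 0, 0⟩)) (.leaf ⟨1, 0, 0, 0⟩)) (.rel2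
      [(11184, 5696), (14269, 5696), (11184, 31344)] (.leaf ⟨4, 0, 0, 3⟩))) (.rel2 [(8676, 8240),
      (13940, 8240), (13023, 11887)] (.leaf ⟨1, 0, 0, 2⟩)))

theorem ok1_4es_6 :
    chkT cG4n cG4n T1_4es_6 (10704, 2192) (10928, 1792) dum dum n1_S3 = true := by
  decide +kernel

theorem fr1_4es {z k : ℂ} (hz : OnE v1_4es z) (hk : k ∈ Poly p1_S3) :
    k + Complex.I * z * (8 * z ^ 3 - 4 * z) ≠ 0 := by
  have h := edge_use rpG4n (E := L1_4es) (V0 := dum) (V1 := dum) (V2 := n1_S3) (fun e he => by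
    simp only [L1_4es, List.mem_cons, List.not_mem_nil, or_false] at he
    rcases he with rfl | rfl | rfl | rfl | rfl | rfl | rfl
    exacts [⟨_, ok1_4es_0⟩, ⟨_, ok1_4es_1⟩, ⟨_, ok1_4es_2⟩, ⟨_, ok1_4es_3⟩, ⟨_, ok1_4es_4⟩, ⟨_,
        ok1_4es_5⟩, ⟨_, ok1_4es_6⟩]) (V := v1_4es) (by decide) hz zero_dum zero_dum (rg1_S3 hk)
  rw [evG4n (mr_false k)] at h
  exact fun h0 => h (by rw [h0, mul_zero])

/-- edges -/
def L1_4az : List ((ℕ × ℕ) × (ℕ × ℕ)) :=
  [((12896, 1696), (13712, 1760)), ((13712, 1760), (13952, 1936)), ((13952, 1936), (13776, 2832)),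
      ((13776, 2832), (13456, 3264)), ((13456, 3264), (12944, 3072)), ((12944, 3072), (12624,
      2432)), ((12624, 2432), (12528, 2080)), ((12528, 2080), (12896, 1696))]

/-- tree -/
def T1_4az_0 : CT :=
  .rel1 [(12560, 0), (16000, 0), (13296, 10816), (11728, 10800), (7952, 8128), (6720, 7104), (6719,
      3892)] (.rel2 [(13280, 5280), (12320, 5280), (10560, 3680), (10560, 1840), (12800, 0), (17900,
      0)] (.rel1 [(16000, 0), (13296, 10816), (11728, 10800), (7952, 8128), (6720, 7104), (6716, 0)]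
      (.rel2 [(10560, 3680), (10560, 1840), (12800, 0), (17900, 0), (12853, 5768)] (.rel1 [(7952,
      8128), (6720, 7104), (6716, 0), (16000, 0), (13064, 11746)] (.rel2 [(10560, 1840), (12800, 0),
      (17900, 0), (10559, 8390)] (.leaf ⟨19, 0, 0, 6⟩))))))

theorem ok1_4az_0 :
    chkT cF4mn cF4mn T1_4az_0 (12896, 1696) (13712, 1760) dum n1_A2 n1_Z = true := by
  decide +kernel

/-- tree -/
def T1_4az_1 : CT :=
  .rel1 [(16000, 0), (13296, 10816), (11728, 10800), (7952, 8128), (6720, 7104), (6720, 3952),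
      (12184, 0)] (.rel2 [(16000, 0), (14400, 4000), (13280, 5280), (12320, 5280), (10560, 3680),
      (10559, 0)] (.rel1 [(16000, 0), (13296, 10816), (11728, 10800), (7952, 8128), (6720, 7104),
      (6719, 0)] (.rel2 [(10560, 3680), (10559, 0), (16000, 0), (14400, 4000), (12853, 5768)] (.rel1
      [(6719, 0), (16000, 0), (13296, 10816), (11728, 10800), (6719, 7256)] (.rel2 [(16000, 0),
      (14400, 4000), (12853, 5768), (6517, 0)] (.rel1 [(6719, 0), (16000, 0), (13296, 10816), (6718,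
      10749)] (.rel2 [(6517, 0), (16000, 0), (13468, 6330)] (.leaf ⟨5, 0, 0, 6⟩))))))))

theorem ok1_4az_1 :
    chkT cF4mn cF4mn T1_4az_1 (13712, 1760) (13952, 1936) dum n1_A2 n1_Z = true := by
  decide +kernel

/-- tree -/
def T1_4az_2 : CT :=
  .seg (13864, 2384) (.cut1 true 5408 [(6720, 3952), (7760, 3200), (12560, 0), (16000, 0), (14648,
      5408), (6720, 5408)] [(14648, 5408), (13296, 10816), (11728, 10800), (7952, 8128), (6720,
      7104), (6720, 5408)] (.rel1 [(12560, 0), (16000, 0), (14648, 5408), (6720, 5408), (6719,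
      3892)] (.rel2 [(16000, 0), (14400, 4000), (13280, 5280), (12320, 5280), (10560, 3680), (10559,
      0)] (.rel1 [(12560, 0), (16000, 0), (14648, 5408), (4442, 5408)] (.rel2 [(10559, 0), (16000,
      0), (10559, 13603)] (.leaf ⟨0, 0, 0, 1⟩))))) (.rel1 [(6720, 7104), (6720, 5408), (14648,
      5408), (13296, 10816), (11158, 10795)] (.rel2 [(16000, 0), (14400, 4000), (13280, 5280),
      (12320, 5280), (10560, 3680), (10559, 0)] (.rel1 [(14648, 5408), (13296, 10816), (11158,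
      10795), (4679, 5407)] (.rel2 [(10559, 0), (16000, 0), (10559, 13603)] (.leaf ⟨0, 47, 0,
      65⟩)))))) (.cut1 false 11360 [(6720, 3952), (7760, 3200), (11360, 800), (11360, 10540), (7952,
      8128), (6720, 7104)] [(11360, 800), (12560, 0), (16000, 0), (13296, 10816), (11728, 10800),
      (11360, 10540)] (.rel1 [(7760, 3200), (11360, 800), (11360, 10540), (7952, 8128), (4691,
      5418)] (.rel2 [(16000, 0), (14400, 4000), (13280, 5280), (12320, 5280), (10560, 3680), (10559,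
      0)] (.rel1 [(7760, 3200), (11360, 800), (11360, 10540), (4408, 5620)] (.rel2 [(10560, 3680),
      (10559, 0), (16000, 0), (14400, 4000), (12853, 5768)] (.rel1 [(11360, 800), (11360, 10540),
      (4272, 5524)] (.rel2 [(6517, 0), (16000, 0), (13468, 6330)] (.leaf ⟨0, 2, 0, 2⟩))))))) (.cut2
      false 13280 [(10560, 1840), (12800, 0), (13280, 0), (13280, 5280), (12320, 5280), (10560,
      3680)] [(13280, 0), (16000, 0), (14400, 4000), (13280, 5280)] (.rel1 [(11360, 800), (12560,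
      0), (16000, 0), (13296, 10816), (11359, 10797)] (.rel2 [(13280, 0), (13280, 5280), (12320,
      5280), (10560, 3680), (10559, 0)] (.rel1 [(11360, 800), (12560, 0), (16000, 0), (11358,
      18568)] (.rel2 [(10559, 0), (13280, 0), (13280, 5280), (10559, 5280)] (.rel1 [(16000, 0),
      (11358, 18568), (11359, 0)] (.leaf ⟨0, 2, 0, 2⟩)))))) (.cut1 true 5408 [(11360, 800), (12560,
      0), (16000, 0), (14648, 5408), (11360, 5408)] [(14648, 5408), (13296, 10816), (11728, 10800),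
      (11360, 10540), (11360, 5408)] (.rel1 [(16000, 0), (14648, 5408), (11360, 5408), (11359, 0)]
      (.rel2 [(13280, 0), (16000, 0), (13280, 6800)] (.leaf ⟨0, 63, 0, 49⟩))) (.rel1 [(11360, 5408),
      (14648, 5408), (13296, 10816), (11359, 10797)] (.rel2 [(13280, 0), (16000, 0), (13280, 6800)]
      (.leaf ⟨0, 7, 0, 4⟩))))))

theorem ok1_4az_2 :
    chkT cF4mn cF4mn T1_4az_2 (13952, 1936) (13776, 2832) dum n1_A2 n1_Z = true := by
  decide +kernel

/-- tree -/
def T1_4az_3 : CT :=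
  .cut1 true 5408 [(6720, 3952), (7760, 3200), (12560, 0), (16000, 0), (14648, 5408), (6720, 5408)]
      [(14648, 5408), (13296, 10816), (11728, 10800), (7952, 8128), (6720, 7104), (6720, 5408)]
      (.cut1 false 11360 [(6720, 3952), (7760, 3200), (11360, 800), (11360, 5408), (6720, 5408)]
      [(11360, 800), (12560, 0), (16000, 0), (14648, 5408), (11360, 5408)] (.rel1 [(11360, 800),
      (11360, 5408), (6720, 5408), (6719, 3892)] (.rel2 [(16000, 0), (14400, 4000), (13280, 5280),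
      (12320, 5280), (10560, 3680), (10559, 0)] (.rel1 [(11360, 800), (11360, 5408), (4442, 5408)]
      (.rel2 [(10559, 0), (16000, 0), (10559, 13603)] (.leaf ⟨0, 1, 0, 0⟩))))) (.cut1 false 13680
      [(11360, 800), (12560, 0), (13680, 0), (13680, 5408), (11360, 5408)] [(13680, 0), (16000, 0),
      (14648, 5408), (13680, 5408)] (.rel1 [(13680, 0), (13680, 5408), (11360, 5408), (11359, 0)]
      (.rel2 [(10559, 0), (16000, 0), (10557, 13608)] (.leaf ⟨0, 1, 0, 0⟩))) (.cut1 true 2704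
      [(13680, 0), (16000, 0), (15324, 2704), (13680, 2704)] [(15324, 2704), (14648, 5408), (13680,
      5408), (13680, 2704)] (.seg (13616, 3048) (.cut2 false 13280 [(10560, 1840), (12800, 0),
      (13280, 0), (13280, 5280), (12320, 5280), (10560, 3680)] [(13280, 0), (16000, 0), (14400,
      4000), (13280, 5280)] (.rel1 [(13680, 0), (16000, 0), (13680, 9280)] (.rel2 [(13280, 0),
      (13280, 5280), (10559, 5280), (10559, 0)] (.leaf ⟨0, 1, 0, 0⟩))) (.cut1 false 14832 [(13680,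
      0), (14832, 0), (14832, 2704), (13680, 2704)] [(14832, 0), (16000, 0), (15324, 2704), (14832,
      2704)] (.rel2 [(13280, 0), (16000, 0), (13280, 6800)] (.leaf ⟨0, 1, 0, 0⟩)) (.cut2 false 14640
      [(13280, 0), (14640, 0), (14640, 3400), (14400, 4000), (13280, 5280)] [(14640, 0), (16000, 0),
      (14640, 3400)] (.rel1 [(14832, 0), (16000, 0), (14832, 4672)] (.rel2 [(13280, 6800), (13280,
      0), (16000, 0)] (.leaf ⟨0, 1, 0, 0⟩))) (.cut1 true 1344 [(14832, 0), (16000, 0), (15664,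
      1344), (14832, 1344)] [(15664, 1344), (15324, 2704), (14832, 2704), (14832, 1344)] (.seg
      (13696, 2940) (.rel1 [(14832, 0), (16000, 0), (14832, 4672)] (.leaf ⟨0, 1, 0, 0⟩)) (.cut2 true
      1696 [(14640, 0), (16000, 0), (15322, 1696), (14640, 1696)] [(15322, 1696), (14640, 3400),
      (14640, 1696)] (.rel1 [(14832, 0), (16000, 0), (14832, 4672)] (.leaf ⟨0, 4, 3, 0⟩)) (.rel1
      [(14832, 0), (16000, 0), (14832, 4672)] (.leaf ⟨0, 1, 0, 0⟩)))) (.rel1 [(14832, 1344), (15664,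
      1344), (14832, 4672)] (.leaf ⟨0, 1, 0, 0⟩)))))) (.cut2 true 2640 [(10560, 1840), (12800, 0),
      (16000, 0), (14944, 2640), (10560, 2640)] [(14944, 2640), (14400, 4000), (13280, 5280),
      (12320, 5280), (10560, 3680), (10560, 2640)] (.rel1 [(13680, 0), (16000, 0), (13680, 9280)]
      (.rel2 [(16000, 0), (14944, 2640), (10560, 2640), (10559, 0)] (.leaf ⟨0, 1, 2, 0⟩))) (.cut2
      false 12752 [(12752, 5280), (12320, 5280), (10560, 3680), (10560, 2640), (12752, 2640)]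
      [(14944, 2640), (14400, 4000), (13280, 5280), (12752, 5280), (12752, 2640)] (.rel1 [(13680,
      0), (16000, 0), (13680, 9280)] (.rel2 [(10560, 2640), (12752, 2640), (12752, 5280), (10559,
      5280)] (.leaf ⟨0, 1, 0, 0⟩))) (.cut1 true 1344 [(13680, 0), (16000, 0), (15664, 1344), (13680,
      1344)] [(15664, 1344), (15324, 2704), (13680, 2704), (13680, 1344)] (.cut1 false 14832
      [(13680, 0), (14832, 0), (14832, 1344), (13680, 1344)] [(14832, 0), (16000, 0), (15664, 1344),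
      (14832, 1344)] (.rel2 [(12751, 5885), (12752, 2640), (15590, 2640)] (.leaf ⟨0, 7, 4, 0⟩))
      (.seg (13536, 3156) (.rel1 [(14832, 0), (16000, 0), (14832, 4672)] (.rel2 [(12752, 2640),
      (14944, 2640), (14400, 4000), (12751, 5885)] (.leaf ⟨0, 79, 13, 0⟩))) (.rel1 [(14832, 0),
      (16000, 0), (14832, 4672)] (.rel2 [(12751, 5885), (12752, 2640), (15590, 2640)] (.leaf ⟨0, 7,
      4, 0⟩))))) (.rel1 [(13680, 1344), (15664, 1344), (13680, 9280)] (.rel2 [(12751, 5885), (12752,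
      2640), (15590, 2640)] (.leaf ⟨0, 7, 4, 0⟩))))))) (.rel1 [(13680, 2704), (15324, 2704), (13680,
      9280)] (.rel2 [(10559, 0), (16000, 0), (10559, 13603)] (.leaf ⟨0, 1, 0, 0⟩)))))) (.rel1
      [(7952, 8128), (6720, 7104), (6720, 5408), (14648, 5408), (13064, 11746)] (.rel2 [(16000, 0),
      (14400, 4000), (13280, 5280), (12320, 5280), (10560, 3680), (10559, 0)] (.rel1 [(6720, 5408),
      (14648, 5408), (13064, 11746), (6719, 7256)] (.rel2 [(12320, 5280), (10560, 3680), (10559, 0),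
      (16000, 0), (13888, 5280)] (.rel1 [(14648, 5408), (13064, 11746), (4106, 5407)] (.rel2 [(6511,
      0), (16000, 0), (13470, 6326)] (.leaf ⟨0, 1, 0, 0⟩)))))))

theorem ok1_4az_3 :
    chkT cF4mn cF4mn T1_4az_3 (13776, 2832) (13456, 3264) dum n1_A2 n1_Z = true := by
  decide +kernel

/-- tree -/
def T1_4az_4 : CT :=
  .cut1 true 5408 [(6720, 3952), (7760, 3200), (12560, 0), (16000, 0), (14648, 5408), (6720, 5408)]
      [(14648, 5408), (13296, 10816), (11728, 10800), (7952, 8128), (6720, 7104), (6720, 5408)]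
      (.cut1 false 11360 [(6720, 3952), (7760, 3200), (11360, 800), (11360, 5408), (6720, 5408)]
      [(11360, 800), (12560, 0), (16000, 0), (14648, 5408), (11360, 5408)] (.rel1 [(11360, 800),
      (11360, 5408), (6720, 5408), (6719, 3892)] (.rel2 [(16000, 0), (14400, 4000), (13280, 5280),
      (12320, 5280), (10560, 3680), (10559, 0)] (.rel1 [(11360, 800), (11360, 5408), (4442, 5408)]
      (.rel2 [(12853, 5768), (6511, 0), (17900, 0)] (.leaf ⟨0, 1, 2, 0⟩))))) (.cut1 true 2704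
      [(11360, 800), (12560, 0), (16000, 0), (15324, 2704), (11360, 2704)] [(15324, 2704), (14648,
      5408), (11360, 5408), (11360, 2704)] (.cut2 true 2640 [(10560, 1840), (12800, 0), (16000, 0),
      (14944, 2640), (10560, 2640)] [(14944, 2640), (14400, 4000), (13280, 5280), (12320, 5280),
      (10560, 3680), (10560, 2640)] (.rel1 [(11360, 800), (12560, 0), (16000, 0), (11360, 18560)]
      (.rel2 [(16000, 0), (14944, 2640), (10560, 2640), (10559, 0)] (.rel1 [(16000, 0), (11360,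
      18560), (11359, 0)] (.leaf ⟨0, 0, 1, 0⟩)))) (.cut1 true 1344 [(11360, 800), (12560, 0),
      (16000, 0), (15664, 1344), (11360, 1344)] [(15664, 1344), (15324, 2704), (11360, 2704),
      (11360, 1344)] (.cut2 true 3952 [(14944, 2640), (14420, 3952), (10859, 3952), (10560, 3680),
      (10560, 2640)] [(14420, 3952), (14400, 4000), (13280, 5280), (12320, 5280), (10859, 3952)]
      (.rel1 [(11360, 800), (12560, 0), (16000, 0), (11360, 18560)] (.rel2 [(14944, 2640), (14420,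
      3952), (10859, 3952), (9415, 2639)] (.rel1 [(16000, 0), (11360, 18560), (11359, 0)] (.leaf ⟨0,
      0, 1, 0⟩)))) (.seg (13200, 3168) (.rel1 [(11360, 800), (12560, 0), (16000, 0), (11360, 18560)]
      (.rel2 [(13280, 5280), (12320, 5280), (10859, 3952), (14442, 3952)] (.rel1 [(16000, 0),
      (11360, 18560), (11359, 0)] (.leaf ⟨0, 1, 20, 0⟩)))) (.rel1 [(11360, 800), (12560, 0), (16000,
      0), (11360, 18560)] (.rel2 [(13280, 5280), (12320, 5280), (10859, 3952), (14442, 3952)] (.rel1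
      [(16000, 0), (11360, 18560), (11359, 0)] (.leaf ⟨1, 0, 40, 0⟩)))))) (.rel1 [(11360, 1344),
      (15664, 1344), (11360, 18560)] (.rel2 [(9415, 2640), (15590, 2640), (12854, 5767)] (.leaf ⟨0,
      0, 1, 0⟩))))) (.rel1 [(11360, 2704), (15324, 2704), (11360, 18560)] (.rel2 [(6511, 0), (17900,
      0), (12853, 5768)] (.leaf ⟨0, 0, 1, 0⟩))))) (.rel1 [(7952, 8128), (6720, 7104), (6720, 5408),
      (14648, 5408), (13064, 11746)] (.rel2 [(16000, 0), (14400, 4000), (13280, 5280), (12320,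
      5280), (10560, 3680), (10559, 0)] (.rel1 [(6720, 5408), (14648, 5408), (13064, 11746), (6719,
      7256)] (.rel2 [(13280, 5280), (12320, 5280), (10560, 3680), (10559, 0), (17900, 0)] (.rel1
      [(14648, 5408), (13064, 11746), (4106, 5407)] (.rel2 [(17900, 0), (12853, 5768), (6517, 0)]
      (.leaf ⟨0, 0, 1, 0⟩)))))))

theorem ok1_4az_4 :
    chkT cF4mn cF4mn T1_4az_4 (13456, 3264) (12944, 3072) dum n1_A2 n1_Z = true := by
  decide +kernel

/-- tree -/
def T1_4az_5 : CT :=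
  .cut1 true 5408 [(6720, 3952), (7760, 3200), (12560, 0), (16000, 0), (14648, 5408), (6720, 5408)]
      [(14648, 5408), (13296, 10816), (11728, 10800), (7952, 8128), (6720, 7104), (6720, 5408)]
      (.cut2 true 2640 [(10560, 1840), (12800, 0), (16000, 0), (14944, 2640), (10560, 2640)]
      [(14944, 2640), (14400, 4000), (13280, 5280), (12320, 5280), (10560, 3680), (10560, 2640)]
      (.rel1 [(6720, 3952), (7760, 3200), (12560, 0), (16000, 0), (6720, 37120)] (.rel2 [(16000, 0),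
      (14944, 2640), (10560, 2640), (10559, 0)] (.rel1 [(12560, 0), (16000, 0), (6720, 37120),
      (6719, 3892)] (.leaf ⟨1, 0, 2, 0⟩)))) (.cut1 true 2704 [(8504, 2704), (12560, 0), (16000, 0),
      (15324, 2704)] [(6720, 3952), (7760, 3200), (8504, 2704), (15324, 2704), (14648, 5408), (6720,
      5408)] (.cut1 false 12240 [(8504, 2704), (12240, 213), (12240, 2704)] [(12240, 213), (12560,
      0), (16000, 0), (15324, 2704), (12240, 2704)] (.cut2 false 12752 [(12752, 5280), (12320,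
      5280), (10560, 3680), (10560, 2640), (12752, 2640)] [(14944, 2640), (14400, 4000), (13280,
      5280), (12752, 5280), (12752, 2640)] (.cut1 false 10368 [(8504, 2704), (10368, 1461), (10368,
      2704)] [(10368, 1461), (12240, 213), (12240, 2704), (10368, 2704)] (.cut2 true 3952 [(10859,
      3952), (10560, 3680), (10560, 2640), (12752, 2640), (12752, 3952)] [(12752, 5280), (12320,
      5280), (10859, 3952), (12752, 3952)] (.rel2 [(12752, 2640), (12752, 3952), (10859, 3952),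
      (9415, 2639)] (.leaf ⟨4, 0, 7, 0⟩)) (.seg (12784, 2752) (.rel2 [(10859, 3952), (12752, 3952),
      (12752, 5673)] (.leaf ⟨22, 0, 33, 0⟩)) (.leaf ⟨22, 0, 33, 0⟩))) (.rel2 [(10560, 3680), (10560,
      2640), (12752, 2640), (12752, 5673)] (.leaf ⟨3, 0, 4, 0⟩))) (.rel2 [(13280, 5280), (12752,
      5280), (12752, 2640), (15590, 2640)] (.leaf ⟨3, 0, 4, 0⟩))) (.rel1 [(12240, 213), (12560, 0),
      (16000, 0), (12240, 15040)] (.rel2 [(13280, 5280), (12320, 5280), (10560, 3680), (10560,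
      2640), (15590, 2640)] (.rel1 [(16000, 0), (12240, 15040), (12239, 0)] (.rel2 [(10560, 3680),
      (10560, 2640), (15590, 2640), (12853, 5768)] (.leaf ⟨5, 0, 6, 0⟩)))))) (.rel1 [(6720, 3952),
      (7760, 3200), (8504, 2704), (15324, 2704), (6720, 37120)] (.rel2 [(13280, 5280), (12320,
      5280), (10560, 3680), (10560, 2640), (15590, 2640)] (.rel1 [(8504, 2704), (15324, 2704),
      (6720, 37120), (6719, 3892)] (.rel2 [(15590, 2640), (13280, 5280), (12320, 5280), (9415,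
      2640)] (.leaf ⟨4, 0, 7, 0⟩))))))) (.rel1 [(7952, 8128), (6720, 7104), (6720, 5408), (14648,
      5408), (13064, 11746)] (.rel2 [(16000, 0), (14400, 4000), (13280, 5280), (12320, 5280),
      (10560, 3680), (10559, 0)] (.rel1 [(6720, 5408), (14648, 5408), (13064, 11746), (6719, 7256)]
      (.rel2 [(13280, 5280), (12320, 5280), (10560, 3680), (10559, 0), (17900, 0)] (.rel1 [(14648,
      5408), (13064, 11746), (4106, 5407)] (.rel2 [(17900, 0), (12853, 5768), (6517, 0)] (.leaf ⟨0,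
      0, 1, 0⟩)))))))

theorem ok1_4az_5 :
    chkT cF4mn cF4mn T1_4az_5 (12944, 3072) (12624, 2432) dum n1_A2 n1_Z = true := by
  decide +kernel

/-- tree -/
def T1_4az_6 : CT :=
  .cut1 true 5408 [(6720, 3952), (7760, 3200), (12560, 0), (16000, 0), (14648, 5408), (6720, 5408)]
      [(14648, 5408), (13296, 10816), (11728, 10800), (7952, 8128), (6720, 7104), (6720, 5408)]
      (.cut1 false 11360 [(6720, 3952), (7760, 3200), (11360, 800), (11360, 5408), (6720, 5408)]
      [(11360, 800), (12560, 0), (16000, 0), (14648, 5408), (11360, 5408)] (.cut1 false 9040 [(6720,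
      3952), (7760, 3200), (9040, 2346), (9040, 5408), (6720, 5408)] [(9040, 2346), (11360, 800),
      (11360, 5408), (9040, 5408)] (.cut2 false 13280 [(10560, 1840), (12800, 0), (13280, 0),
      (13280, 5280), (12320, 5280), (10560, 3680)] [(13280, 0), (16000, 0), (14400, 4000), (13280,
      5280)] (.cut2 true 2640 [(10560, 1840), (12800, 0), (13280, 0), (13280, 2640), (10560, 2640)]
      [(13280, 2640), (13280, 5280), (12320, 5280), (10560, 3680), (10560, 2640)] (.rel1 [(9040,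
      2346), (9040, 5408), (6720, 5408), (6719, 3892)] (.rel2 [(13280, 0), (13280, 2640), (10560,
      2640), (10559, 0)] (.rel1 [(9040, 2346), (9040, 5408), (4442, 5408)] (.leaf ⟨1, 0, 2, 0⟩))))
      (.cut2 false 11920 [(11920, 4917), (10560, 3680), (10560, 2640), (11920, 2640)] [(13280,
      2640), (13280, 5280), (12320, 5280), (11920, 4917), (11920, 2640)] (.cut2 false 11232 [(11232,
      4292), (10560, 3680), (10560, 2640), (11232, 2640)] [(11920, 4917), (11232, 4292), (11232,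
      2640), (11920, 2640)] (.rel1 [(9040, 5408), (6720, 5408), (6720, 3952), (9040, 2273)] (.leaf
      ⟨11, 0, 17, 0⟩)) (.rel1 [(9040, 5408), (6720, 5408), (6720, 3952), (9040, 2273)] (.leaf ⟨7, 0,
      10, 0⟩))) (.rel1 [(9040, 5408), (6720, 5408), (6720, 3952), (9040, 2273)] (.rel2 [(11920,
      4917), (11920, 2640), (13280, 2640), (13280, 6152)] (.leaf ⟨3, 0, 4, 0⟩))))) (.rel1 [(9040,
      2346), (9040, 5408), (6720, 5408), (6719, 3892)] (.rel2 [(13280, 5280), (13280, 0), (17900,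
      0)] (.rel1 [(9040, 2346), (9040, 5408), (4442, 5408)] (.leaf ⟨3, 0, 4, 0⟩))))) (.rel2 [(17900,
      0), (12853, 5768), (10560, 3680), (10559, 0)] (.leaf ⟨2, 0, 2, 0⟩))) (.rel1 [(16000, 0),
      (14648, 5408), (11360, 5408), (11359, 0)] (.rel2 [(13280, 5280), (12320, 5280), (10560, 3680),
      (10560, 1840), (12800, 0), (17900, 0)] (.rel1 [(11359, 0), (16000, 0), (11362, 18552)] (.rel2
      [(12800, 0), (17900, 0), (12853, 5768), (9496, 2712)] (.leaf ⟨4, 0, 3, 0⟩)))))) (.rel1 [(7952,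
      8128), (6720, 7104), (6720, 5408), (14648, 5408), (13064, 11746)] (.rel2 [(13280, 5280),
      (12320, 5280), (10560, 3680), (10560, 1840), (12800, 0), (17900, 0)] (.rel1 [(6720, 5408),
      (14648, 5408), (13064, 11746), (6719, 7256)] (.rel2 [(17900, 0), (13280, 5280), (12320, 5280),
      (10560, 3680), (10559, 0)] (.rel1 [(14648, 5408), (13064, 11746), (4106, 5407)] (.rel2
      [(17900, 0), (13280, 5280), (12320, 5280), (6511, 0)] (.leaf ⟨0, 0, 1, 0⟩)))))))

theorem ok1_4az_6 :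
    chkT cF4mn cF4mn T1_4az_6 (12624, 2432) (12528, 2080) dum n1_A2 n1_Z = true := by
  decide +kernel

/-- tree -/
def T1_4az_7 : CT :=
  .cut1 false 11360 [(6720, 3952), (7760, 3200), (11360, 800), (11360, 10540), (7952, 8128), (6720,
      7104)] [(11360, 800), (12560, 0), (16000, 0), (13296, 10816), (11728, 10800), (11360, 10540)]
      (.cut1 false 9040 [(6720, 3952), (7760, 3200), (9040, 2346), (9040, 8899), (7952, 8128),
      (6720, 7104)] [(9040, 2346), (11360, 800), (11360, 10540), (9040, 8899)] (.cut2 false 13280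
      [(10560, 1840), (12800, 0), (13280, 0), (13280, 5280), (12320, 5280), (10560, 3680)] [(13280,
      0), (16000, 0), (14400, 4000), (13280, 5280)] (.cut1 false 7872 [(6720, 3952), (7760, 3200),
      (7872, 3125), (7872, 8062), (6720, 7104)] [(7872, 3125), (9040, 2346), (9040, 8899), (7952,
      8128), (7872, 8062)] (.cut2 false 11920 [(10560, 1840), (11920, 722), (11920, 4917), (10560,
      3680)] [(11920, 722), (12800, 0), (13280, 0), (13280, 5280), (12320, 5280), (11920, 4917)]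
      (.cut1 true 5584 [(6720, 3952), (7760, 3200), (7872, 3125), (7872, 5584), (6720, 5584)]
      [(7872, 5584), (7872, 8062), (6720, 7104), (6720, 5584)] (.cut1 false 7296 [(6720, 3952),
      (7296, 3535), (7296, 5584), (6720, 5584)] [(7296, 3535), (7760, 3200), (7872, 3125), (7872,
      5584), (7296, 5584)] (.cut2 false 11232 [(10560, 1840), (11232, 1287), (11232, 4292), (10560,
      3680)] [(11232, 1287), (11920, 722), (11920, 4917), (11232, 4292)] (.cut1 false 7008 [(6720,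
      3952), (7008, 3743), (7008, 5584), (6720, 5584)] [(7008, 3743), (7296, 3535), (7296, 5584),
      (7008, 5584)] (.cut2 false 10896 [(10560, 1840), (10896, 1563), (10896, 3986), (10560, 3680)]
      [(10896, 1563), (11232, 1287), (11232, 4292), (10896, 3986)] (.seg (12712, 1888) (.leaf ⟨77,
      0, 22, 0⟩) (.leaf ⟨77, 0, 22, 0⟩)) (.leaf ⟨19, 0, 6, 0⟩)) (.leaf ⟨19, 0, 6, 0⟩)) (.leaf ⟨19,
      0, 6, 0⟩)) (.rel1 [(7872, 5584), (7296, 5584), (7296, 3535), (7872, 3118)] (.leaf ⟨19, 0, 6,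
      0⟩))) (.cut1 false 7296 [(7296, 7583), (6720, 7104), (6720, 5584), (7296, 5584)] [(7872,
      5584), (7872, 8062), (7296, 7583), (7296, 5584)] (.cut2 false 11232 [(10560, 1840), (11232,
      1287), (11232, 4292), (10560, 3680)] [(11232, 1287), (11920, 722), (11920, 4917), (11232,
      4292)] (.cut1 false 7008 [(7008, 7344), (6720, 7104), (6720, 5584), (7008, 5584)] [(7296,
      7583), (7008, 7344), (7008, 5584), (7296, 5584)] (.seg (12712, 1888) (.leaf ⟨11, 0, 5, 0⟩)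
      (.leaf ⟨37, 0, 15, 0⟩)) (.leaf ⟨11, 0, 5, 0⟩)) (.leaf ⟨11, 0, 5, 0⟩)) (.leaf ⟨7, 0, 4, 0⟩)))
      (.rel1 [(7872, 8062), (6720, 7104), (6720, 3952), (7872, 3118)] (.rel2 [(13280, 0), (13280,
      6152), (11920, 4917), (11919, 0)] (.leaf ⟨11, 0, 5, 0⟩)))) (.rel1 [(7872, 8062), (7872, 3125),
      (9040, 2346), (9040, 9026)] (.rel2 [(13280, 0), (13280, 6153), (10560, 3680), (10559, 0)]
      (.leaf ⟨11, 0, 5, 0⟩)))) (.rel1 [(9040, 8899), (7952, 8128), (6720, 7104), (6720, 3952),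
      (9040, 2273)] (.rel2 [(13280, 5280), (13280, 0), (17900, 0)] (.rel1 [(9040, 2273), (9040,
      9033), (4692, 5418)] (.leaf ⟨19, 0, 6, 0⟩))))) (.rel2 [(12800, 0), (16000, 0), (13470, 6326),
      (9495, 2712)] (.leaf ⟨11, 0, 5, 0⟩))) (.rel1 [(11360, 10540), (11360, 800), (12560, 0),
      (16000, 0), (13064, 11744)] (.rel2 [(13280, 5280), (12320, 5280), (10560, 3680), (10560,
      1840), (12800, 0), (17900, 0)] (.rel1 [(11360, 800), (12560, 0), (16000, 0), (11360, 18560)]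
      (.rel2 [(10560, 3680), (10560, 1840), (12800, 0), (17900, 0), (12853, 5768)] (.rel1 [(16000,
      0), (11360, 18560), (11359, 0)] (.rel2 [(12800, 0), (17900, 0), (12853, 5768), (9496, 2712)]
      (.leaf ⟨7, 0, 4, 0⟩)))))))

theorem ok1_4az_7 :
    chkT cF4mn cF4mn T1_4az_7 (12528, 2080) (12896, 1696) dum n1_A2 n1_Z = true := by
  decide +kernel

theorem fr1_4az {z k l : ℂ} (hz : OnE v1_4az z) (hk : conj k ∈ Poly p1_A2)
    (hl : l ∈ Poly p1_Z) :
    k ^ 2 + l ^ 2 - 2 * k * l * (8 * z ^ 4 - 8 * z ^ 2 + 1) + (z * (8 * z ^ 3 - 4 * z)) ^ 2 ≠ 0 :=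
        by
  have h := edge_use rpF4mn (E := L1_4az) (V0 := dum) (V1 := n1_A2) (V2 := n1_Z) (fun e he => by
    simp only [L1_4az, List.mem_cons, List.not_mem_nil, or_false] at he
    rcases he with rfl | rfl | rfl | rfl | rfl | rfl | rfl | rfl
    exacts [⟨_, ok1_4az_0⟩, ⟨_, ok1_4az_1⟩, ⟨_, ok1_4az_2⟩, ⟨_, ok1_4az_3⟩, ⟨_, ok1_4az_4⟩, ⟨_,
        ok1_4az_5⟩, ⟨_, ok1_4az_6⟩, ⟨_, ok1_4az_7⟩]) (V := v1_4az) (by decide) hz zero_dum (rg1_A2
        hk) (rg1_Z hl)
  rw [evF4mn (mr_true k) (mr_false l)] at h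
  exact fun h0 => h (by rw [h0, mul_zero])

/-- edges -/
def L1_4as : List ((ℕ × ℕ) × (ℕ × ℕ)) :=
  [((12240, 2016), (12576, 1680)), ((12576, 1680), (13696, 1760)), ((13696, 1760), (13936, 1984)),
      ((13936, 1984), (13376, 3808)), ((13376, 3808), (12832, 3648)), ((12832, 3648), (12480,
      3280)), ((12480, 3280), (12048, 2448)), ((12048, 2448), (12240, 2016))]

/-- tree -/
def T1_4as_0 : CT :=
  .cut1 false 11360 [(6720, 3952), (7760, 3200), (11360, 800), (11360, 10540), (7952, 8128), (6720,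
      7104)] [(11360, 800), (12560, 0), (16000, 0), (13296, 10816), (11728, 10800), (11360, 10540)]
      (.cut1 false 9040 [(6720, 3952), (7760, 3200), (9040, 2346), (9040, 8899), (7952, 8128),
      (6720, 7104)] [(9040, 2346), (11360, 800), (11360, 10540), (9040, 8899)] (.cut2 false 11440
      [(8016, 3840), (11440, 1138), (11440, 10559), (8448, 8048), (8016, 5024)] [(11440, 1138),
      (12112, 608), (14880, 608), (13984, 8064), (13296, 10800), (11728, 10800), (11440, 10559)]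
      (.cut1 false 7872 [(6720, 3952), (7760, 3200), (7872, 3125), (7872, 8062), (6720, 7104)]
      [(7872, 3125), (9040, 2346), (9040, 8899), (7952, 8128), (7872, 8062)] (.cut1 true 5584
      [(6720, 3952), (7760, 3200), (7872, 3125), (7872, 5584), (6720, 5584)] [(7872, 5584), (7872,
      8062), (6720, 7104), (6720, 5584)] (.cut2 true 5840 [(8016, 3840), (11440, 1138), (11440,
      5840), (8132, 5840), (8016, 5024)] [(11440, 5840), (11440, 10559), (8448, 8048), (8132, 5840)]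
      (.cut2 false 9728 [(8016, 3840), (9728, 2489), (9728, 5840), (8132, 5840), (8016, 5024)]
      [(9728, 2489), (11440, 1138), (11440, 5840), (9728, 5840)] (.cut2 false 8864 [(8016, 3840),
      (8864, 3170), (8864, 5840), (8132, 5840), (8016, 5024)] [(8864, 3170), (9728, 2489), (9728,
      5840), (8864, 5840)] (.cut1 false 7296 [(6720, 3952), (7296, 3535), (7296, 5584), (6720,
      5584)] [(7296, 3535), (7760, 3200), (7872, 3125), (7872, 5584), (7296, 5584)] (.cut1 true 4544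
      [(6720, 3952), (7296, 3535), (7296, 4544), (6720, 4544)] [(7296, 4544), (7296, 5584), (6720,
      5584), (6720, 4544)] (.seg (12408, 1848) (.cut1 false 7008 [(6720, 3952), (7008, 3743), (7008,
      4544), (6720, 4544)] [(7008, 3743), (7296, 3535), (7296, 4544), (7008, 4544)] (.cut2 false
      8432 [(8016, 3840), (8432, 3511), (8432, 5840), (8132, 5840), (8016, 5024)] [(8432, 3511),
      (8864, 3170), (8864, 5840), (8432, 5840)] (.cut2 true 4672 [(8016, 3840), (8432, 3511), (8432,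
      4672), (8016, 4672)] [(8432, 4672), (8432, 5840), (8132, 5840), (8016, 5024), (8016, 4672)]
      (.cut2 false 8224 [(8016, 3840), (8224, 3675), (8224, 4672), (8016, 4672)] [(8224, 3675),
      (8432, 3511), (8432, 4672), (8224, 4672)] (.seg (12324, 1932) (.leaf ⟨79, 0, 13, 0⟩) (.leaf
      ⟨1, 0, 0, 0⟩)) (.leaf ⟨1, 0, 0, 0⟩)) (.rel2 [(8432, 4672), (8432, 7951), (7964, 4671)] (.leaf
      ⟨1, 0, 0, 0⟩))) (.leaf ⟨1, 0, 0, 0⟩)) (.rel2 [(8016, 3840), (8864, 3170), (8864, 5840), (8015,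
      5840)] (.leaf ⟨1, 0, 0, 0⟩))) (.rel2 [(8864, 3170), (8864, 5840), (5483, 5840)] (.leaf ⟨1, 0,
      0, 2⟩))) (.leaf ⟨79, 0, 13, 0⟩)) (.rel1 [(7872, 5584), (7296, 5584), (7296, 3535), (7872,
      3118)] (.rel2 [(8016, 3840), (8864, 3170), (8864, 5840), (8015, 5840)] (.leaf ⟨1, 0, 0, 0⟩))))
      (.rel1 [(7872, 5584), (6720, 5584), (6720, 3952), (7872, 3118)] (.leaf ⟨1, 0, 0, 0⟩))) (.rel1
      [(7872, 5584), (6720, 5584), (6720, 3952), (7872, 3118)] (.leaf ⟨1, 0, 0, 0⟩))) (.rel1 [(7872,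
      5584), (6720, 5584), (6720, 3952), (7872, 3118)] (.rel2 [(8132, 5840), (11440, 5840), (11440,
      28955)] (.leaf ⟨7, 0, 0, 4⟩)))) (.leaf ⟨39, 0, 9, 0⟩)) (.rel1 [(7872, 8062), (7872, 3125),
      (9040, 2346), (9040, 9026)] (.rel2 [(11440, 1138), (11440, 10559), (8448, 8048), (7862, 3958)]
      (.leaf ⟨1, 0, 0, 0⟩)))) (.rel1 [(9040, 8899), (7952, 8128), (6720, 7104), (6720, 3952), (9040,
      2273)] (.rel2 [(13296, 10800), (11728, 10800), (11440, 10559), (11440, 1138), (12112, 608),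
      (15859, 608)] (.rel1 [(6720, 7104), (6720, 3952), (9040, 2273), (9040, 9033)] (.rel2 [(15859,
      608), (13023, 11886), (11440, 10559), (11439, 607)] (.rel1 [(9040, 2273), (9040, 9033), (4692,
      5418)] (.leaf ⟨79, 0, 13, 0⟩))))))) (.rel2 [(15859, 608), (13023, 11887), (8448, 8048), (7381,
      607)] (.leaf ⟨19, 0, 6, 0⟩))) (.rel1 [(11360, 10540), (11360, 800), (12560, 0), (16000, 0),
      (13064, 11744)] (.rel2 [(12112, 608), (14880, 608), (13984, 8064), (13296, 10800), (11728,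
      10800), (8448, 8048), (7862, 3958)] (.rel1 [(11360, 800), (12560, 0), (16000, 0), (11360,
      18560)] (.rel2 [(13296, 10800), (11728, 10800), (8448, 8048), (7862, 3958), (12112, 608),
      (15859, 608)] (.rel1 [(16000, 0), (11360, 18560), (11359, 0)] (.rel2 [(12112, 608), (15859,
      608), (13023, 11887), (5649, 5700)] (.leaf ⟨39, 0, 9, 0⟩)))))))

theorem ok1_4as_0 :
    chkT cF4mn cF4mn T1_4as_0 (12240, 2016) (12576, 1680) dum n1_A2 n1_S3 = true := by
  decide +kernel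

/-- tree -/
def T1_4as_1 : CT :=
  .cut2 true 5696 [(8016, 3840), (12112, 608), (14880, 608), (14269, 5696), (8112, 5696), (8016,
      5024)] [(14269, 5696), (13984, 8064), (13296, 10800), (11728, 10800), (8448, 8048), (8112,
      5696)] (.cut1 true 5408 [(6720, 3952), (7760, 3200), (12560, 0), (16000, 0), (14648, 5408),
      (6720, 5408)] [(14648, 5408), (13296, 10816), (11728, 10800), (7952, 8128), (6720, 7104),
      (6720, 5408)] (.rel1 [(12560, 0), (16000, 0), (14648, 5408), (6720, 5408), (6719, 3892)]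
      (.rel2 [(8016, 3840), (12112, 608), (14880, 608), (14269, 5696), (8015, 5696)] (.rel1 [(16000,
      0), (14648, 5408), (6720, 5408), (6715, 0)] (.rel2 [(12112, 608), (14880, 608), (14269, 5696),
      (5662, 5696)] (.leaf ⟨4, 0, 0, 3⟩))))) (.seg (13136, 1720) (.cut1 false 10672 [(10672, 10053),
      (7952, 8128), (6720, 7104), (6720, 5408), (10672, 5408)] [(14648, 5408), (13296, 10816),
      (11728, 10800), (10672, 10053), (10672, 5408)] (.cut2 true 3152 [(8887, 3152), (12112, 608),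
      (14880, 608), (14575, 3152)] [(8016, 3840), (8887, 3152), (14575, 3152), (14269, 5696), (8112,
      5696), (8016, 5024)] (.cut2 true 1872 [(10509, 1872), (12112, 608), (14880, 608), (14729,
      1872)] [(8887, 3152), (10509, 1872), (14729, 1872), (14575, 3152)] (.leaf ⟨75, 0, 0, 28⟩)
      (.leaf ⟨11, 0, 0, 5⟩)) (.rel1 [(6720, 7104), (6720, 5408), (10672, 5408), (10672, 10389)]
      (.rel2 [(8016, 3840), (8887, 3152), (14575, 3152), (14269, 5696), (8015, 5696)] (.leaf ⟨11, 0,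
      0, 5⟩)))) (.rel1 [(10672, 10053), (10672, 5408), (14648, 5408), (13064, 11746)] (.rel2
      [(12112, 608), (14880, 608), (14269, 5696), (5656, 5696)] (.leaf ⟨1, 0, 0, 0⟩)))) (.rel1
      [(7952, 8128), (6720, 7104), (6720, 5408), (14648, 5408), (13064, 11746)] (.rel2 [(8016,
      3840), (12112, 608), (14880, 608), (14269, 5696), (8015, 5696)] (.leaf ⟨75, 0, 0, 28⟩)))))
      (.rel1 [(12560, 0), (16000, 0), (13296, 10816), (11728, 10800), (7952, 8128), (6720, 7104),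
      (6719, 3892)] (.rel2 [(13296, 10800), (11728, 10800), (8448, 8048), (8112, 5696), (14580,
      5695)] (.rel1 [(16000, 0), (13296, 10816), (11728, 10800), (7952, 8128), (6720, 7104), (6716,
      0)] (.rel2 [(8448, 8048), (8112, 5696), (14580, 5695), (13023, 11887)] (.rel1 [(6716, 0),
      (16000, 0), (13296, 10816), (11728, 10800), (6719, 7256)] (.rel2 [(8112, 5696), (14580, 5695),
      (10455, 22100)] (.rel1 [(6719, 7256), (6716, 0), (16000, 0), (13064, 11746)] (.leaf ⟨4, 0, 0,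
      3⟩))))))))

theorem ok1_4as_1 :
    chkT cF4mn cF4mn T1_4as_1 (12576, 1680) (13696, 1760) dum n1_A2 n1_S3 = true := by
  decide +kernel

/-- tree -/
def T1_4as_2 : CT :=
  .rel1 [(12560, 0), (16000, 0), (13296, 10816), (11728, 10800), (7952, 8128), (6720, 7104), (6719,
      3892)] (.rel2 [(14880, 608), (13984, 8064), (13296, 10800), (11728, 10800), (8448, 8048),
      (8016, 5024), (8015, 607)] (.rel1 [(6720, 7104), (6719, 3892), (12560, 0), (16000, 0), (13296,
      10816), (11158, 10795)] (.rel2 [(11728, 10800), (8448, 8048), (8016, 5024), (8015, 607),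
      (14880, 608), (13655, 10802)] (.rel1 [(12560, 0), (16000, 0), (13296, 10816), (11158, 10795),
      (4574, 5320)] (.rel2 [(14880, 608), (13655, 10802), (8839, 10798), (7385, 605)] (.leaf ⟨3, 0,
      0, 4⟩))))))

theorem ok1_4as_2 :
    chkT cF4mn cF4mn T1_4as_2 (13696, 1760) (13936, 1984) dum n1_A2 n1_S3 = true := by
  decide +kernel

/-- tree -/
def T1_4as_3 : CT :=
  .seg (13656, 2896) (.seg (13796, 2440) (.rel1 [(12560, 0), (16000, 0), (13296, 10816), (11728,
      10800), (7952, 8128), (6720, 7104), (6719, 3892)] (.rel2 [(14880, 608), (13984, 8064), (13296,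
      10800), (11728, 10800), (8448, 8048), (8016, 5024), (8015, 607)] (.rel1 [(6720, 7104), (6719,
      3892), (12560, 0), (16000, 0), (13296, 10816), (11158, 10795)] (.rel2 [(11728, 10800), (8448,
      8048), (8016, 5024), (8015, 607), (14880, 608), (13655, 10802)] (.rel1 [(12560, 0), (16000,
      0), (13296, 10816), (11158, 10795), (4574, 5320)] (.rel2 [(8016, 5024), (8015, 607), (14880,
      608), (13655, 10802), (8839, 10798)] (.rel1 [(4574, 5320), (12560, 0), (16000, 0), (12932,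
      12272)] (.rel2 [(14880, 608), (13655, 10802), (8839, 10798), (7385, 605)] (.leaf ⟨0, 5, 0,
      6⟩))))))))) (.cut1 false 11360 [(6720, 3952), (7760, 3200), (11360, 800), (11360, 10540),
      (7952, 8128), (6720, 7104)] [(11360, 800), (12560, 0), (16000, 0), (13296, 10816), (11728,
      10800), (11360, 10540)] (.rel1 [(11360, 800), (11360, 10540), (7952, 8128), (6720, 7104),
      (6719, 3892)] (.rel2 [(14880, 608), (13984, 8064), (13296, 10800), (11728, 10800), (8448,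
      8048), (8016, 5024), (8015, 607)] (.rel1 [(11360, 800), (11360, 10540), (7952, 8128), (4573,
      5320)] (.rel2 [(8016, 5024), (8015, 607), (14880, 608), (13984, 8064), (13296, 10800), (8840,
      10800)] (.rel1 [(11360, 800), (11360, 10540), (4268, 5521)] (.rel2 [(7384, 605), (14880, 608),
      (11455, 29111)] (.leaf ⟨0, 4, 0, 3⟩))))))) (.cut2 false 11440 [(8016, 3840), (11440, 1138),
      (11440, 10559), (8448, 8048), (8016, 5024)] [(11440, 1138), (12112, 608), (14880, 608),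
      (13984, 8064), (13296, 10800), (11728, 10800), (11440, 10559)] (.rel1 [(11360, 800), (12560,
      0), (16000, 0), (13296, 10816), (11359, 10797)] (.rel2 [(8016, 3840), (11440, 1138), (11440,
      10559), (8015, 7685)] (.rel1 [(11360, 800), (12560, 0), (16000, 0), (11358, 18568)] (.rel2
      [(11440, 1138), (11440, 10559), (5653, 5703)] (.rel1 [(16000, 0), (11358, 18568), (11359, 0)]
      (.leaf ⟨0, 7, 0, 4⟩)))))) (.seg (13726, 2668) (.rel1 [(11360, 800), (12560, 0), (16000, 0),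
      (13296, 10816), (11359, 10797)] (.rel2 [(14880, 608), (13984, 8064), (13296, 10800), (11728,
      10800), (11440, 10559), (11439, 607)] (.rel1 [(11360, 800), (12560, 0), (16000, 0), (11358,
      18568)] (.rel2 [(11440, 10559), (11439, 607), (14880, 608), (13984, 8064), (13023, 11886)]
      (.rel1 [(16000, 0), (11358, 18568), (11359, 0)] (.rel2 [(11440, 10559), (11439, 607), (14880,
      608), (13479, 12269)] (.leaf ⟨0, 17, 0, 11⟩))))))) (.rel1 [(11360, 10540), (11360, 800),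
      (12560, 0), (16000, 0), (13064, 11744)] (.rel2 [(11728, 10800), (11440, 10559), (11440, 1138),
      (12112, 608), (14880, 608), (13655, 10802)] (.rel1 [(12560, 0), (16000, 0), (13064, 11744),
      (4266, 5528)] (.rel2 [(14880, 608), (13655, 10802), (11439, 10800), (11439, 607)] (.leaf ⟨0,
      11, 0, 5⟩))))))))) (.seg (13516, 3352) (.cut1 false 11360 [(6720, 3952), (7760, 3200), (11360,
      800), (11360, 10540), (7952, 8128), (6720, 7104)] [(11360, 800), (12560, 0), (16000, 0),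
      (13296, 10816), (11728, 10800), (11360, 10540)] (.rel1 [(6720, 3952), (7760, 3200), (11360,
      800), (11360, 10540), (6719, 7256)] (.rel2 [(14880, 608), (13984, 8064), (13296, 10800),
      (11728, 10800), (8448, 8048), (8016, 5024), (8015, 607)] (.rel1 [(7760, 3200), (11360, 800),
      (11360, 10540), (4409, 5622)] (.rel2 [(8015, 607), (14880, 608), (13984, 8064), (13296,
      10800), (11728, 10800), (8015, 7685)] (.rel1 [(11360, 800), (11360, 10540), (4271, 5525)]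
      (.rel2 [(13296, 10800), (8014, 10800), (8015, 607), (15859, 608)] (.leaf ⟨0, 1, 0, 0⟩)))))))
      (.cut2 false 11440 [(8016, 3840), (11440, 1138), (11440, 10559), (8448, 8048), (8016, 5024)]
      [(11440, 1138), (12112, 608), (14880, 608), (13984, 8064), (13296, 10800), (11728, 10800),
      (11440, 10559)] (.rel1 [(11360, 800), (12560, 0), (16000, 0), (13296, 10816), (11359, 10797)]
      (.rel2 [(8016, 3840), (11440, 1138), (11440, 10559), (8015, 7685)] (.rel1 [(11360, 800),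
      (12560, 0), (16000, 0), (11358, 18568)] (.rel2 [(11440, 1138), (11440, 10559), (5653, 5703)]
      (.rel1 [(16000, 0), (11358, 18568), (11359, 0)] (.leaf ⟨0, 1, 0, 0⟩)))))) (.cut1 true 5408
      [(11360, 800), (12560, 0), (16000, 0), (14648, 5408), (11360, 5408)] [(14648, 5408), (13296,
      10816), (11728, 10800), (11360, 10540), (11360, 5408)] (.cut1 false 13680 [(11360, 800),
      (12560, 0), (13680, 0), (13680, 5408), (11360, 5408)] [(13680, 0), (16000, 0), (14648, 5408),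
      (13680, 5408)] (.rel1 [(13680, 0), (13680, 5408), (11360, 5408), (11359, 0)] (.rel2 [(11439,
      607), (14880, 608), (11439, 29243)] (.leaf ⟨0, 11, 0, 5⟩))) (.seg (13586, 3124) (.rel1
      [(13680, 0), (16000, 0), (13680, 9280)] (.rel2 [(11440, 10559), (11439, 607), (14880, 608),
      (13479, 12269)] (.leaf ⟨0, 77, 0, 22⟩))) (.cut2 true 5696 [(11440, 1138), (12112, 608),
      (14880, 608), (14269, 5696), (11440, 5696)] [(14269, 5696), (13984, 8064), (13296, 10800),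
      (11728, 10800), (11440, 10559), (11440, 5696)] (.rel1 [(13680, 0), (16000, 0), (13680, 9280)]
      (.rel2 [(14880, 608), (14269, 5696), (11440, 5696), (11439, 607)] (.leaf ⟨0, 1, 0, 0⟩)))
      (.rel1 [(13680, 0), (16000, 0), (13680, 9280)] (.rel2 [(5637, 5695), (14269, 5696), (13478,
      12269)] (.leaf ⟨0, 39, 0, 9⟩)))))) (.rel1 [(11360, 10540), (11360, 5408), (14648, 5408),
      (13064, 11744)] (.rel2 [(14880, 608), (13984, 8064), (13296, 10800), (11728, 10800), (11440,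
      10559), (11439, 607)] (.rel1 [(14648, 5408), (13064, 11744), (4095, 5407)] (.rel2 [(11439,
      607), (15859, 608), (11439, 18185)] (.leaf ⟨0, 39, 0, 9⟩)))))))) (.cut1 true 5408 [(6720,
      3952), (7760, 3200), (12560, 0), (16000, 0), (14648, 5408), (6720, 5408)] [(14648, 5408),
      (13296, 10816), (11728, 10800), (7952, 8128), (6720, 7104), (6720, 5408)] (.cut1 false 11360
      [(6720, 3952), (7760, 3200), (11360, 800), (11360, 5408), (6720, 5408)] [(11360, 800), (12560,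
      0), (16000, 0), (14648, 5408), (11360, 5408)] (.rel1 [(11360, 800), (11360, 5408), (6720,
      5408), (6719, 3892)] (.rel2 [(14880, 608), (13984, 8064), (13296, 10800), (11728, 10800),
      (8448, 8048), (8016, 5024), (8015, 607)] (.rel1 [(11360, 800), (11360, 5408), (4442, 5408)]
      (.rel2 [(8016, 10800), (8015, 607), (14880, 608), (13655, 10802)] (.leaf ⟨0, 1, 0, 0⟩)))))
      (.cut2 true 5696 [(8016, 3840), (12112, 608), (14880, 608), (14269, 5696), (8112, 5696),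
      (8016, 5024)] [(14269, 5696), (13984, 8064), (13296, 10800), (11728, 10800), (8448, 8048),
      (8112, 5696)] (.rel1 [(12560, 0), (16000, 0), (14648, 5408), (4447, 5408)] (.rel2 [(14880,
      608), (14269, 5696), (8112, 5696), (7383, 605)] (.leaf ⟨0, 1, 2, 0⟩))) (.cut2 false 11184
      [(11184, 10344), (8448, 8048), (8112, 5696), (11184, 5696)] [(14269, 5696), (13984, 8064),
      (13296, 10800), (11728, 10800), (11184, 10344), (11184, 5696)] (.rel1 [(12560, 0), (16000, 0),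
      (14648, 5408), (4447, 5408)] (.rel2 [(11184, 5696), (11184, 10344), (5644, 5695)] (.leaf ⟨0,
      1, 0, 0⟩))) (.cut1 false 13680 [(11360, 800), (12560, 0), (13680, 0), (13680, 5408), (11360,
      5408)] [(13680, 0), (16000, 0), (14648, 5408), (13680, 5408)] (.rel1 [(13680, 0), (13680,
      5408), (11360, 5408), (11359, 0)] (.rel2 [(11184, 5696), (14580, 5695), (11181, 19209)] (.leaf
      ⟨0, 1, 0, 0⟩))) (.cut1 true 2704 [(13680, 0), (16000, 0), (15324, 2704), (13680, 2704)]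
      [(15324, 2704), (14648, 5408), (13680, 5408), (13680, 2704)] (.seg (13446, 3580) (.rel1
      [(13680, 0), (16000, 0), (13680, 9280)] (.rel2 [(11184, 5696), (14269, 5696), (13984, 8064),
      (11181, 19211)] (.leaf ⟨0, 1, 0, 0⟩))) (.rel1 [(13680, 0), (16000, 0), (13680, 9280)] (.rel2
      [(13296, 10800), (11728, 10800), (5638, 5696), (14580, 5695)] (.leaf ⟨0, 79, 13, 0⟩)))) (.rel1
      [(13680, 2704), (15324, 2704), (13680, 9280)] (.rel2 [(13296, 10800), (11183, 10800), (11184,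
      5696), (14580, 5695)] (.leaf ⟨0, 7, 4, 0⟩)))))))) (.rel1 [(7952, 8128), (6720, 7104), (6720,
      5408), (14648, 5408), (13064, 11746)] (.rel2 [(12112, 608), (14880, 608), (13984, 8064),
      (13296, 10800), (11728, 10800), (8448, 8048), (7862, 3958)] (.rel1 [(6720, 5408), (14648,
      5408), (13064, 11746), (6719, 7256)] (.rel2 [(13296, 10800), (11728, 10800), (8448, 8048),
      (7862, 3958), (12112, 608), (15859, 608)] (.rel1 [(14648, 5408), (13064, 11746), (4106, 5407)]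
      (.rel2 [(5649, 5700), (12112, 608), (15859, 608), (13023, 11887)] (.leaf ⟨0, 1, 2, 0⟩)))))))))

theorem ok1_4as_3 :
    chkT cF4mn cF4mn T1_4as_3 (13936, 1984) (13376, 3808) dum n1_A2 n1_S3 = true := by
  decide +kernel

/-- tree -/
def T1_4as_4 : CT :=
  .cut1 false 11360 [(6720, 3952), (7760, 3200), (11360, 800), (11360, 10540), (7952, 8128), (6720,
      7104)] [(11360, 800), (12560, 0), (16000, 0), (13296, 10816), (11728, 10800), (11360, 10540)]
      (.rel1 [(11360, 800), (11360, 10540), (7952, 8128), (6720, 7104), (6719, 3892)] (.rel2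
      [(14880, 608), (13984, 8064), (13296, 10800), (11728, 10800), (8448, 8048), (8016, 5024),
      (8015, 607)] (.rel1 [(6720, 7104), (6719, 3892), (11360, 800), (11360, 10961)] (.rel2 [(8015,
      607), (14880, 608), (13984, 8064), (13296, 10800), (11728, 10800), (8015, 7685)] (.rel1
      [(11360, 800), (11360, 10961), (4573, 5320)] (.rel2 [(8015, 7685), (8015, 607), (15859, 608),
      (13023, 11887)] (.leaf ⟨0, 0, 1, 0⟩))))))) (.cut1 true 5408 [(11360, 800), (12560, 0), (16000,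
      0), (14648, 5408), (11360, 5408)] [(14648, 5408), (13296, 10816), (11728, 10800), (11360,
      10540), (11360, 5408)] (.cut2 true 5696 [(8016, 3840), (12112, 608), (14880, 608), (14269,
      5696), (8112, 5696), (8016, 5024)] [(14269, 5696), (13984, 8064), (13296, 10800), (11728,
      10800), (8448, 8048), (8112, 5696)] (.rel1 [(11360, 800), (12560, 0), (16000, 0), (11360,
      18560)] (.rel2 [(14880, 608), (14269, 5696), (8112, 5696), (8016, 5024), (8015, 607)] (.rel1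
      [(16000, 0), (11360, 18560), (11359, 0)] (.rel2 [(14880, 608), (14269, 5696), (8112, 5696),
      (7383, 605)] (.leaf ⟨0, 0, 1, 0⟩))))) (.cut1 true 2704 [(11360, 800), (12560, 0), (16000, 0),
      (15324, 2704), (11360, 2704)] [(15324, 2704), (14648, 5408), (11360, 5408), (11360, 2704)]
      (.cut2 true 8240 [(14269, 5696), (13984, 8064), (13940, 8240), (8676, 8240), (8448, 8048),
      (8112, 5696)] [(13940, 8240), (13296, 10800), (11728, 10800), (8676, 8240)] (.rel1 [(11360,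
      800), (12560, 0), (16000, 0), (11360, 18560)] (.rel2 [(13940, 8240), (8676, 8240), (8448,
      8048), (8112, 5696), (14576, 5696)] (.rel1 [(16000, 0), (11360, 18560), (11359, 0)] (.rel2
      [(14576, 5696), (13940, 8240), (8676, 8240), (5654, 5696)] (.leaf ⟨0, 0, 1, 0⟩))))) (.cut1
      true 1344 [(11360, 800), (12560, 0), (16000, 0), (15664, 1344), (11360, 1344)] [(15664, 1344),
      (15324, 2704), (11360, 2704), (11360, 1344)] (.cut2 true 9520 [(13940, 8240), (13618, 9520),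
      (10202, 9520), (8676, 8240)] [(13618, 9520), (13296, 10800), (11728, 10800), (10202, 9520)]
      (.rel1 [(16000, 0), (11360, 18560), (11359, 0)] (.leaf ⟨1, 0, 5, 0⟩)) (.seg (13104, 3728)
      (.rel1 [(16000, 0), (11360, 18560), (11359, 0)] (.leaf ⟨2, 0, 8, 0⟩)) (.rel1 [(16000, 0),
      (11360, 18560), (11359, 0)] (.leaf ⟨1, 0, 3, 0⟩)))) (.rel1 [(11360, 1344), (15664, 1344),
      (11360, 18560)] (.rel2 [(8676, 8240), (13940, 8240), (13023, 11887)] (.leaf ⟨1, 0, 3, 0⟩)))))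
      (.rel1 [(11360, 2704), (15324, 2704), (11360, 18560)] (.rel2 [(5644, 5696), (14580, 5695),
      (13023, 11887)] (.leaf ⟨0, 0, 1, 0⟩))))) (.rel1 [(11360, 10540), (11360, 5408), (14648, 5408),
      (13064, 11744)] (.rel2 [(14880, 608), (13984, 8064), (13296, 10800), (11728, 10800), (8448,
      8048), (8016, 5024), (8015, 607)] (.rel1 [(11360, 5408), (14648, 5408), (11360, 18560)] (.rel2
      [(7383, 605), (15859, 608), (13296, 10800), (8840, 10800)] (.leaf ⟨0, 0, 1, 0⟩))))))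

theorem ok1_4as_4 :
    chkT cF4mn cF4mn T1_4as_4 (13376, 3808) (12832, 3648) dum n1_A2 n1_S3 = true := by
  decide +kernel

/-- tree -/
def T1_4as_5 : CT :=
  .cut1 true 5408 [(6720, 3952), (7760, 3200), (12560, 0), (16000, 0), (14648, 5408), (6720, 5408)]
      [(14648, 5408), (13296, 10816), (11728, 10800), (7952, 8128), (6720, 7104), (6720, 5408)]
      (.cut2 true 5696 [(8016, 3840), (12112, 608), (14880, 608), (14269, 5696), (8112, 5696),
      (8016, 5024)] [(14269, 5696), (13984, 8064), (13296, 10800), (11728, 10800), (8448, 8048),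
      (8112, 5696)] (.rel1 [(16000, 0), (14648, 5408), (6720, 5408), (6720, 3952), (12184, 0)]
      (.rel2 [(14880, 608), (14269, 5696), (8112, 5696), (8016, 5024), (8015, 607)] (.rel1 [(12184,
      0), (16000, 0), (14648, 5408), (4705, 5408)] (.rel2 [(8015, 607), (14880, 608), (14269, 5696),
      (8015, 5696)] (.leaf ⟨1, 0, 2, 0⟩))))) (.cut1 true 2704 [(8504, 2704), (12560, 0), (16000, 0),
      (15324, 2704)] [(6720, 3952), (7760, 3200), (8504, 2704), (15324, 2704), (14648, 5408), (6720,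
      5408)] (.cut2 true 8240 [(14269, 5696), (13984, 8064), (13940, 8240), (8676, 8240), (8448,
      8048), (8112, 5696)] [(13940, 8240), (13296, 10800), (11728, 10800), (8676, 8240)] (.rel2
      [(14576, 5696), (13940, 8240), (8676, 8240), (5654, 5696)] (.leaf ⟨1, 0, 2, 0⟩)) (.cut1 true
      1344 [(10544, 1344), (12560, 0), (16000, 0), (15664, 1344)] [(8504, 2704), (10544, 1344),
      (15664, 1344), (15324, 2704)] (.cut2 true 9520 [(13940, 8240), (13618, 9520), (10202, 9520),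
      (8676, 8240)] [(13618, 9520), (13296, 10800), (11728, 10800), (10202, 9520)] (.leaf ⟨2, 0, 2,
      0⟩) (.leaf ⟨59, 0, 54, 0⟩)) (.rel2 [(8676, 8240), (13940, 8240), (13023, 11887)] (.leaf ⟨2, 0,
      2, 0⟩)))) (.rel1 [(8504, 2704), (15324, 2704), (14648, 5408), (6720, 5408), (6719, 3892)]
      (.rel2 [(13296, 10800), (11728, 10800), (8448, 8048), (8112, 5696), (14580, 5695)] (.rel1
      [(8504, 2704), (15324, 2704), (14648, 5408), (4440, 5408)] (.rel2 [(5644, 5696), (14580,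
      5695), (13023, 11887)] (.leaf ⟨1, 0, 2, 0⟩))))))) (.rel1 [(7952, 8128), (6720, 7104), (6720,
      5408), (14648, 5408), (13064, 11746)] (.rel2 [(13296, 10800), (11728, 10800), (8448, 8048),
      (8016, 5024), (8016, 3840), (12112, 608), (15859, 608)] (.rel1 [(6720, 5408), (14648, 5408),
      (13064, 11746), (6719, 7256)] (.rel2 [(12112, 608), (15859, 608), (13296, 10800), (11728,
      10800), (8448, 8048), (7862, 3958)] (.rel1 [(14648, 5408), (13064, 11746), (4106, 5407)]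
      (.rel2 [(7381, 607), (15859, 608), (13296, 10800), (8841, 10800)] (.leaf ⟨0, 0, 1, 0⟩)))))))

theorem ok1_4as_5 :
    chkT cF4mn cF4mn T1_4as_5 (12832, 3648) (12480, 3280) dum n1_A2 n1_S3 = true := by
  decide +kernel

/-- tree -/
def T1_4as_6 : CT :=
  .cut1 true 5408 [(6720, 3952), (7760, 3200), (12560, 0), (16000, 0), (14648, 5408), (6720, 5408)]
      [(14648, 5408), (13296, 10816), (11728, 10800), (7952, 8128), (6720, 7104), (6720, 5408)]
      (.cut2 true 5696 [(8016, 3840), (12112, 608), (14880, 608), (14269, 5696), (8112, 5696),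
      (8016, 5024)] [(14269, 5696), (13984, 8064), (13296, 10800), (11728, 10800), (8448, 8048),
      (8112, 5696)] (.rel1 [(12560, 0), (16000, 0), (14648, 5408), (6720, 5408), (6719, 3892)]
      (.rel2 [(12112, 608), (14880, 608), (14269, 5696), (8112, 5696), (7862, 3958)] (.rel1 [(12560,
      0), (16000, 0), (14648, 5408), (4442, 5408)] (.rel2 [(14880, 608), (14269, 5696), (8112,
      5696), (7379, 607)] (.leaf ⟨2, 0, 2, 0⟩))))) (.cut2 false 11184 [(11184, 10344), (8448, 8048),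
      (8112, 5696), (11184, 5696)] [(14269, 5696), (13984, 8064), (13296, 10800), (11728, 10800),
      (11184, 10344), (11184, 5696)] (.cut1 false 11360 [(6720, 3952), (7760, 3200), (11360, 800),
      (11360, 5408), (6720, 5408)] [(11360, 800), (12560, 0), (16000, 0), (14648, 5408), (11360,
      5408)] (.seg (12264, 2864) (.cut1 true 3104 [(7904, 3104), (11360, 800), (11360, 3104)]
      [(6720, 3952), (7760, 3200), (7904, 3104), (11360, 3104), (11360, 5408), (6720, 5408)] (.leaf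
      ⟨4, 0, 3, 0⟩) (.rel1 [(11360, 3104), (11360, 5408), (6720, 5408), (6720, 3952), (7891, 3103)]
      (.rel2 [(11184, 5696), (11184, 10344), (5644, 5695)] (.rel1 [(7891, 3103), (11360, 3104),
      (11360, 5408), (4710, 5408)] (.leaf ⟨3, 0, 4, 0⟩))))) (.leaf ⟨4, 0, 3, 0⟩)) (.rel1 [(11360,
      800), (12560, 0), (16000, 0), (11360, 18560)] (.leaf ⟨10, 0, 7, 0⟩))) (.rel1 [(6720, 3952),
      (7760, 3200), (12560, 0), (16000, 0), (6720, 37120)] (.rel2 [(13296, 10800), (11728, 10800),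
      (11184, 10344), (11184, 5696), (14580, 5695)] (.rel1 [(12560, 0), (16000, 0), (6720, 37120),
      (6719, 3892)] (.rel2 [(11184, 10344), (11184, 5696), (14580, 5695), (13023, 11886)] (.leaf ⟨7,
      0, 4, 0⟩))))))) (.rel1 [(7952, 8128), (6720, 7104), (6720, 5408), (14648, 5408), (13064,
      11746)] (.rel2 [(14880, 608), (13984, 8064), (13296, 10800), (11728, 10800), (8448, 8048),
      (8016, 5024), (8015, 607)] (.rel1 [(6720, 5408), (14648, 5408), (13064, 11746), (6719, 7256)]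
      (.rel2 [(13296, 10800), (11728, 10800), (8448, 8048), (8016, 5024), (8015, 607), (15859, 608)]
      (.rel1 [(14648, 5408), (13064, 11746), (4106, 5407)] (.rel2 [(8448, 8048), (7383, 605),
      (15859, 608), (13023, 11887)] (.leaf ⟨2, 0, 2, 0⟩)))))))

theorem ok1_4as_6 :
    chkT cF4mn cF4mn T1_4as_6 (12480, 3280) (12048, 2448) dum n1_A2 n1_S3 = true := by
  decide +kernel

/-- tree -/
def T1_4as_7 : CT :=
  .cut1 false 11360 [(6720, 3952), (7760, 3200), (11360, 800), (11360, 10540), (7952, 8128), (6720,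
      7104)] [(11360, 800), (12560, 0), (16000, 0), (13296, 10816), (11728, 10800), (11360, 10540)]
      (.cut1 false 9040 [(6720, 3952), (7760, 3200), (9040, 2346), (9040, 8899), (7952, 8128),
      (6720, 7104)] [(9040, 2346), (11360, 800), (11360, 10540), (9040, 8899)] (.cut2 false 11440
      [(8016, 3840), (11440, 1138), (11440, 10559), (8448, 8048), (8016, 5024)] [(11440, 1138),
      (12112, 608), (14880, 608), (13984, 8064), (13296, 10800), (11728, 10800), (11440, 10559)]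
      (.cut1 true 5616 [(6720, 3952), (7760, 3200), (9040, 2346), (9040, 5616), (6720, 5616)]
      [(9040, 5616), (9040, 8899), (7952, 8128), (6720, 7104), (6720, 5616)] (.cut1 false 7872
      [(6720, 3952), (7760, 3200), (7872, 3125), (7872, 5616), (6720, 5616)] [(7872, 3125), (9040,
      2346), (9040, 5616), (7872, 5616)] (.cut2 false 9728 [(8016, 3840), (9728, 2489), (9728,
      9123), (8448, 8048), (8016, 5024)] [(9728, 2489), (11440, 1138), (11440, 10559), (9728, 9123)]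
      (.cut2 true 5792 [(8016, 3840), (9728, 2489), (9728, 5792), (8125, 5792), (8016, 5024)]
      [(9728, 5792), (9728, 9123), (8448, 8048), (8125, 5792)] (.rel1 [(7872, 5616), (6720, 5616),
      (6720, 3952), (7872, 3118)] (.rel2 [(9728, 2489), (9728, 5792), (8125, 5792), (7863, 3958)]
      (.leaf ⟨19, 0, 6, 0⟩))) (.cut1 false 7296 [(6720, 3952), (7296, 3535), (7296, 5616), (6720,
      5616)] [(7296, 3535), (7760, 3200), (7872, 3125), (7872, 5616), (7296, 5616)] (.cut2 false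
      8912 [(8912, 8438), (8448, 8048), (8125, 5792), (8912, 5792)] [(9728, 5792), (9728, 9123),
      (8912, 8438), (8912, 5792)] (.cut2 true 7104 [(8312, 7104), (8125, 5792), (8912, 5792), (8912,
      7104)] [(8912, 8438), (8448, 8048), (8312, 7104), (8912, 7104)] (.leaf ⟨79, 0, 13, 0⟩) (.leaf
      ⟨1, 0, 0, 0⟩)) (.leaf ⟨1, 0, 0, 0⟩)) (.rel1 [(7872, 5616), (7296, 5616), (7296, 3535), (7872,
      3118)] (.leaf ⟨1, 0, 0, 0⟩)))) (.rel1 [(7872, 5616), (6720, 5616), (6720, 3952), (7872, 3118)]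
      (.leaf ⟨1, 0, 0, 0⟩))) (.rel2 [(11440, 1138), (11440, 10559), (8448, 8048), (7862, 3958)]
      (.leaf ⟨1, 0, 0, 0⟩))) (.rel1 [(6720, 7104), (6720, 5616), (9040, 5616), (9040, 9033)] (.rel2
      [(11440, 1138), (11440, 10559), (8448, 8048), (7862, 3958)] (.leaf ⟨7, 0, 4, 0⟩)))) (.rel1
      [(9040, 8899), (7952, 8128), (6720, 7104), (6720, 3952), (9040, 2273)] (.rel2 [(13296, 10800),
      (11728, 10800), (11440, 10559), (11440, 1138), (12112, 608), (15859, 608)] (.rel1 [(6720,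
      7104), (6720, 3952), (9040, 2273), (9040, 9033)] (.rel2 [(11440, 10559), (11440, 1138),
      (12112, 608), (15859, 608), (13023, 11886)] (.rel1 [(9040, 2273), (9040, 9033), (4692, 5418)]
      (.rel2 [(15859, 608), (13023, 11886), (11440, 10559), (11439, 607)] (.leaf ⟨39, 0, 9,
      0⟩)))))))) (.rel2 [(15859, 608), (13023, 11887), (8448, 8048), (7381, 607)] (.leaf ⟨19, 0, 6,
      0⟩))) (.rel1 [(11360, 10540), (11360, 800), (12560, 0), (16000, 0), (13064, 11744)] (.rel2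
      [(13296, 10800), (11728, 10800), (8448, 8048), (8016, 5024), (8016, 3840), (12112, 608),
      (15859, 608)] (.rel1 [(11360, 800), (12560, 0), (16000, 0), (11360, 18560)] (.rel2 [(8448,
      8048), (8016, 5024), (8016, 3840), (12112, 608), (15859, 608), (13023, 11887)] (.rel1 [(16000,
      0), (11360, 18560), (11359, 0)] (.rel2 [(12112, 608), (15859, 608), (13023, 11887), (5649,
      5700)] (.leaf ⟨39, 0, 9, 0⟩)))))))

theorem ok1_4as_7 :
    chkT cF4mn cF4mn T1_4as_7 (12048, 2448) (12240, 2016) dum n1_A2 n1_S3 = true := by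
  decide +kernel

theorem fr1_4as {z k l : ℂ} (hz : OnE v1_4as z) (hk : conj k ∈ Poly p1_A2)
    (hl : l ∈ Poly p1_S3) :
    k ^ 2 + l ^ 2 - 2 * k * l * (8 * z ^ 4 - 8 * z ^ 2 + 1) + (z * (8 * z ^ 3 - 4 * z)) ^ 2 ≠ 0 :=
        by
  have h := edge_use rpF4mn (E := L1_4as) (V0 := dum) (V1 := n1_A2) (V2 := n1_S3) (fun e he => by
    simp only [L1_4as, List.mem_cons, List.not_mem_nil, or_false] at he
    rcases he with rfl | rfl | rfl | rfl | rfl | rfl | rfl | rfl
    exacts [⟨_, ok1_4as_0⟩, ⟨_, ok1_4as_1⟩, ⟨_, ok1_4as_2⟩, ⟨_, ok1_4as_3⟩, ⟨_, ok1_4as_4⟩, ⟨_,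
        ok1_4as_5⟩, ⟨_, ok1_4as_6⟩, ⟨_, ok1_4as_7⟩]) (V := v1_4as) (by decide) hz zero_dum (rg1_A2
        hk) (rg1_S3 hl)
  rw [evF4mn (mr_true k) (mr_false l)] at h
  exact fun h0 => h (by rw [h0, mul_zero])

/-- edges -/
def L1_4zz : List ((ℕ × ℕ) × (ℕ × ℕ)) :=
  [((12464, 3152), (12640, 2752)), ((12640, 2752), (13200, 2592)), ((13200, 2592), (13792, 2816)),
      ((13792, 2816), (13296, 3472)), ((13296, 3472), (13008, 3696)), ((13008, 3696), (12768,
      3648)), ((12768, 3648), (12464, 3152))]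

/-- tree -/
def T1_4zz_0 : CT :=
  .cut1 false 13280 [(10560, 1840), (12800, 0), (13280, 0), (13280, 5280), (12320, 5280), (10560,
      3680)] [(13280, 0), (16000, 0), (14400, 4000), (13280, 5280)] (.cut2 false 13280 [(10560,
      1840), (12800, 0), (13280, 0), (13280, 5280), (12320, 5280), (10560, 3680)] [(13280, 0),
      (16000, 0), (14400, 4000), (13280, 5280)] (.cut2 false 11920 [(10560, 1840), (11920, 722),
      (11920, 4917), (10560, 3680)] [(11920, 722), (12800, 0), (13280, 0), (13280, 5280), (12320,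
      5280), (11920, 4917)] (.cut1 false 11920 [(10560, 1840), (11920, 722), (11920, 4917), (10560,
      3680)] [(11920, 722), (12800, 0), (13280, 0), (13280, 5280), (12320, 5280), (11920, 4917)]
      (.cut1 false 11232 [(10560, 1840), (11232, 1287), (11232, 4292), (10560, 3680)] [(11232,
      1287), (11920, 722), (11920, 4917), (11232, 4292)] (.cut2 false 11232 [(10560, 1840), (11232,
      1287), (11232, 4292), (10560, 3680)] [(11232, 1287), (11920, 722), (11920, 4917), (11232,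
      4292)] (.cut2 false 10896 [(10560, 1840), (10896, 1563), (10896, 3986), (10560, 3680)]
      [(10896, 1563), (11232, 1287), (11232, 4292), (10896, 3986)] (.cut1 false 10896 [(10560,
      1840), (10896, 1563), (10896, 3986), (10560, 3680)] [(10896, 1563), (11232, 1287), (11232,
      4292), (10896, 3986)] (.cut1 true 2768 [(10560, 1840), (10896, 1563), (10896, 2768), (10560,
      2768)] [(10896, 2768), (10896, 3986), (10560, 3680), (10560, 2768)] (.cut2 true 2768 [(10560,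
      1840), (10896, 1563), (10896, 2768), (10560, 2768)] [(10896, 2768), (10896, 3986), (10560,
      3680), (10560, 2768)] (.seg (12552, 2952) (.rel1 [(10896, 1563), (10896, 2768), (9433, 2768)]
      (.rel2 [(10896, 1563), (10896, 2768), (9433, 2768)] (.leaf ⟨1, 0, 8, 0⟩))) (.cut1 false 10720
      [(10560, 1840), (10720, 1708), (10720, 2768), (10560, 2768)] [(10720, 1708), (10896, 1563),
      (10896, 2768), (10720, 2768)] (.cut2 false 10720 [(10560, 1840), (10720, 1708), (10720, 2768),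
      (10560, 2768)] [(10720, 1708), (10896, 1563), (10896, 2768), (10720, 2768)] (.cut1 true 2224
      [(10560, 1840), (10720, 1708), (10720, 2224), (10560, 2224)] [(10720, 2224), (10720, 2768),
      (10560, 2768), (10560, 2224)] (.leaf ⟨1, 0, 0, 0⟩) (.seg (12596, 2852) (.leaf ⟨1, 0, 0, 0⟩)
      (.leaf ⟨79, 0, 0, 13⟩))) (.leaf ⟨1, 0, 0, 0⟩)) (.leaf ⟨1, 0, 0, 0⟩))) (.seg (12552, 2952)
      (.seg (12508, 3052) (.rel2 [(10896, 2768), (10896, 3986), (9557, 2767)] (.leaf ⟨2, 0, 2, 0⟩))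
      (.leaf ⟨79, 0, 0, 13⟩)) (.leaf ⟨79, 0, 0, 13⟩))) (.leaf ⟨79, 0, 0, 13⟩)) (.leaf ⟨79, 0, 0,
      13⟩)) (.leaf ⟨79, 0, 0, 13⟩)) (.leaf ⟨1, 0, 0, 0⟩)) (.leaf ⟨1, 0, 0, 0⟩)) (.rel1 [(11920,
      4917), (11920, 722), (12800, 0), (13280, 0), (13280, 6152)] (.rel2 [(11920, 722), (11920,
      4917), (9496, 2713)] (.rel1 [(13280, 0), (13280, 6152), (11920, 4917), (11919, 0)] (.leaf ⟨79,
      0, 0, 13⟩))))) (.rel1 [(10560, 3680), (10560, 1840), (12800, 0), (13280, 0), (13280, 6153)]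
      (.rel2 [(11920, 4917), (11920, 722), (12800, 0), (13280, 0), (13280, 6152)] (.rel1 [(13280,
      0), (13280, 6153), (10560, 3680), (10559, 0)] (.rel2 [(13280, 0), (13280, 6152), (11920,
      4917), (11919, 0)] (.leaf ⟨1, 0, 0, 0⟩)))))) (.rel1 [(10560, 3680), (10560, 1840), (12800, 0),
      (13280, 0), (13280, 6153)] (.rel2 [(13280, 5280), (13280, 0), (17900, 0)] (.rel1 [(13280, 0),
      (13280, 6153), (10560, 3680), (10559, 0)] (.leaf ⟨1, 0, 0, 0⟩))))) (.rel1 [(13280, 5280),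
      (13280, 0), (17900, 0)] (.rel2 [(10559, 0), (17900, 0), (10560, 8389)] (.leaf ⟨1, 0, 0, 0⟩)))

theorem ok1_4zz_0 :
    chkT cF4nn cF4nn T1_4zz_0 (12464, 3152) (12640, 2752) dum n1_Z n1_Z = true := by
  decide +kernel

/-- tree -/
def T1_4zz_1 : CT :=
  .cut1 true 2640 [(10560, 1840), (12800, 0), (16000, 0), (14944, 2640), (10560, 2640)] [(14944,
      2640), (14400, 4000), (13280, 5280), (12320, 5280), (10560, 3680), (10560, 2640)] (.cut2 true
      2640 [(10560, 1840), (12800, 0), (16000, 0), (14944, 2640), (10560, 2640)] [(14944, 2640),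
      (14400, 4000), (13280, 5280), (12320, 5280), (10560, 3680), (10560, 2640)] (.cut1 false 13280
      [(10560, 1840), (12800, 0), (13280, 0), (13280, 2640), (10560, 2640)] [(13280, 0), (16000, 0),
      (14944, 2640), (13280, 2640)] (.cut2 false 13280 [(10560, 1840), (12800, 0), (13280, 0),
      (13280, 2640), (10560, 2640)] [(13280, 0), (16000, 0), (14944, 2640), (13280, 2640)] (.cut1
      true 1312 [(11202, 1312), (12800, 0), (13280, 0), (13280, 1312)] [(10560, 1840), (11202,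
      1312), (13280, 1312), (13280, 2640), (10560, 2640)] (.leaf ⟨9, 0, 0, 8⟩) (.leaf ⟨2, 0, 0, 2⟩))
      (.rel1 [(12800, 0), (13280, 0), (13280, 2640), (9585, 2640)] (.rel2 [(13280, 0), (16000, 0),
      (13280, 6800)] (.leaf ⟨4, 0, 0, 3⟩)))) (.rel1 [(13280, 0), (16000, 0), (13280, 6800)] (.rel2
      [(10560, 1840), (12800, 0), (16000, 0), (10560, 13600)] (.leaf ⟨4, 0, 0, 3⟩)))) (.rel1
      [(10560, 1840), (12800, 0), (16000, 0), (10560, 13600)] (.rel2 [(10560, 2640), (15590, 2640),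
      (10559, 8390)] (.leaf ⟨2, 0, 0, 2⟩)))) (.rel1 [(13280, 5280), (12320, 5280), (10560, 3680),
      (10560, 2640), (15590, 2640)] (.rel2 [(13280, 5280), (12320, 5280), (10560, 3680), (10560,
      1840), (12800, 0), (17900, 0)] (.rel1 [(10560, 3680), (10560, 2640), (15590, 2640), (12853,
      5768)] (.rel2 [(10560, 3680), (10560, 1840), (12800, 0), (17900, 0), (12853, 5768)] (.rel1
      [(10560, 2640), (15590, 2640), (10559, 8390)] (.rel2 [(10560, 1840), (12800, 0), (17900, 0),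
      (10559, 8390)] (.leaf ⟨2, 0, 0, 2⟩)))))))

theorem ok1_4zz_1 :
    chkT cF4nn cF4nn T1_4zz_1 (12640, 2752) (13200, 2592) dum n1_Z n1_Z = true := by
  decide +kernel

/-- tree -/
def T1_4zz_2 : CT :=
  .rel1 [(12320, 5280), (10560, 3680), (10560, 1840), (12800, 0), (16000, 0), (13888, 5280)] (.rel2
      [(12320, 5280), (10560, 3680), (10560, 1840), (12800, 0), (16000, 0), (13888, 5280)] (.rel1
      [(10560, 1840), (12800, 0), (16000, 0), (13888, 5280), (10559, 5280)] (.rel2 [(10560, 1840),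
      (12800, 0), (16000, 0), (13888, 5280), (10559, 5280)] (.rel1 [(10560, 1840), (12800, 0),
      (16000, 0), (10556, 13610)] (.rel2 [(10560, 1840), (12800, 0), (16000, 0), (10556, 13610)]
      (.leaf ⟨1, 0, 0, 3⟩))))))

theorem ok1_4zz_2 :
    chkT cF4nn cF4nn T1_4zz_2 (13200, 2592) (13792, 2816) dum n1_Z n1_Z = true := by
  decide +kernel

/-- tree -/
def T1_4zz_3 : CT :=
  .seg (13544, 3144) (.cut1 false 13280 [(10560, 1840), (12800, 0), (13280, 0), (13280, 5280),
      (12320, 5280), (10560, 3680)] [(13280, 0), (16000, 0), (14400, 4000), (13280, 5280)] (.rel1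
      [(13280, 0), (13280, 5280), (12320, 5280), (10560, 3680), (10559, 0)] (.rel2 [(16000, 0),
      (14400, 4000), (13280, 5280), (12320, 5280), (10560, 3680), (10559, 0)] (.rel1 [(10559, 0),
      (13280, 0), (13280, 5280), (10559, 5280)] (.rel2 [(6517, 0), (16000, 0), (13468, 6330)] (.leaf
      ⟨0, 1, 0, 0⟩))))) (.cut2 false 13280 [(10560, 1840), (12800, 0), (13280, 0), (13280, 5280),
      (12320, 5280), (10560, 3680)] [(13280, 0), (16000, 0), (14400, 4000), (13280, 5280)] (.rel1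
      [(13280, 0), (16000, 0), (13280, 6800)] (.rel2 [(10559, 0), (13280, 0), (13280, 5280), (10559,
      5280)] (.leaf ⟨0, 1, 0, 0⟩))) (.seg (13668, 2980) (.rel1 [(13280, 0), (16000, 0), (13280,
      6800)] (.rel2 [(13280, 0), (16000, 0), (13280, 6800)] (.leaf ⟨0, 1, 0, 0⟩))) (.seg (13606,
      3062) (.cut1 false 14640 [(13280, 0), (14640, 0), (14640, 3400), (14400, 4000), (13280, 5280)]
      [(14640, 0), (16000, 0), (14640, 3400)] (.rel1 [(13280, 0), (14640, 0), (14640, 3400), (13280,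
      6800)] (.rel2 [(13280, 0), (16000, 0), (13280, 6800)] (.leaf ⟨0, 1, 0, 0⟩))) (.cut2 false
      14640 [(13280, 0), (14640, 0), (14640, 3400), (14400, 4000), (13280, 5280)] [(14640, 0),
      (16000, 0), (14640, 3400)] (.rel2 [(13280, 0), (14640, 0), (14640, 3400), (13280, 6800)]
      (.leaf ⟨0, 1, 0, 0⟩)) (.seg (13637, 3021) (.cut1 false 15312 [(14640, 0), (15312, 0), (15312,
      1720), (14640, 3400)] [(15312, 0), (16000, 0), (15312, 1720)] (.leaf ⟨0, 1, 0, 0⟩) (.cut2 true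
      1696 [(14640, 0), (16000, 0), (15322, 1696), (14640, 1696)] [(15322, 1696), (14640, 3400),
      (14640, 1696)] (.leaf ⟨0, 79, 13, 0⟩) (.leaf ⟨0, 1, 0, 0⟩))) (.leaf ⟨0, 79, 13, 0⟩)))) (.leaf
      ⟨0, 79, 13, 0⟩))))) (.seg (13420, 3308) (.rel1 [(16000, 0), (14400, 4000), (13280, 5280),
      (12320, 5280), (10560, 3680), (10559, 0)] (.rel2 [(16000, 0), (14400, 4000), (13280, 5280),
      (12320, 5280), (10560, 3680), (10559, 0)] (.rel1 [(10560, 3680), (10559, 0), (16000, 0),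
      (14400, 4000), (12853, 5768)] (.rel2 [(10560, 3680), (10559, 0), (16000, 0), (14400, 4000),
      (12853, 5768)] (.rel1 [(16000, 0), (14400, 4000), (12853, 5768), (6517, 0)] (.rel2 [(16000,
      0), (14400, 4000), (12853, 5768), (6517, 0)] (.leaf ⟨0, 39, 9, 0⟩))))))) (.rel1 [(16000, 0),
      (14400, 4000), (13280, 5280), (12320, 5280), (10560, 3680), (10559, 0)] (.rel2 [(16000, 0),
      (14400, 4000), (13280, 5280), (12320, 5280), (10560, 3680), (10559, 0)] (.rel1 [(10560, 3680),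
      (10559, 0), (16000, 0), (14400, 4000), (12853, 5768)] (.rel2 [(10560, 3680), (10559, 0),
      (16000, 0), (14400, 4000), (12853, 5768)] (.rel1 [(16000, 0), (14400, 4000), (12853, 5768),
      (6517, 0)] (.rel2 [(16000, 0), (14400, 4000), (12853, 5768), (6517, 0)] (.leaf ⟨0, 75, 28,
      0⟩))))))))

theorem ok1_4zz_3 :
    chkT cF4nn cF4nn T1_4zz_3 (13792, 2816) (13296, 3472) dum n1_Z n1_Z = true := by
  decide +kernel

/-- tree -/
def T1_4zz_4 : CT :=
  .cut1 true 2640 [(10560, 1840), (12800, 0), (16000, 0), (14944, 2640), (10560, 2640)] [(14944,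
      2640), (14400, 4000), (13280, 5280), (12320, 5280), (10560, 3680), (10560, 2640)] (.rel1
      [(16000, 0), (14944, 2640), (10560, 2640), (10559, 0)] (.rel2 [(6511, 0), (17900, 0), (12853,
      5768)] (.leaf ⟨0, 1, 2, 0⟩))) (.cut2 true 2640 [(10560, 1840), (12800, 0), (16000, 0), (14944,
      2640), (10560, 2640)] [(14944, 2640), (14400, 4000), (13280, 5280), (12320, 5280), (10560,
      3680), (10560, 2640)] (.rel1 [(14944, 2640), (14400, 4000), (13280, 5280), (12320, 5280),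
      (9415, 2640)] (.rel2 [(16000, 0), (14944, 2640), (10560, 2640), (10559, 0)] (.rel1 [(9415,
      2640), (15590, 2640), (12854, 5767)] (.leaf ⟨0, 1, 2, 0⟩)))) (.seg (13152, 3584) (.rel1
      [(10560, 2640), (14944, 2640), (14400, 4000), (13280, 5280), (10559, 5280)] (.rel2 [(14944,
      2640), (14400, 4000), (13280, 5280), (12320, 5280), (9415, 2640)] (.rel1 [(10560, 2640),
      (14944, 2640), (14400, 4000), (10557, 8392)] (.rel2 [(9415, 2640), (14944, 2640), (14400,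
      4000), (12854, 5767)] (.leaf ⟨0, 9, 8, 0⟩))))) (.rel1 [(10560, 2640), (14944, 2640), (14400,
      4000), (13280, 5280), (10559, 5280)] (.rel2 [(10560, 2640), (14944, 2640), (14400, 4000),
      (13280, 5280), (10559, 5280)] (.rel1 [(13280, 5280), (10559, 5280), (10560, 2640), (15590,
      2640)] (.rel2 [(13280, 5280), (10559, 5280), (10560, 2640), (15590, 2640)] (.leaf ⟨0, 5, 6,
      0⟩)))))))

theorem ok1_4zz_4 :
    chkT cF4nn cF4nn T1_4zz_4 (13296, 3472) (13008, 3696) dum n1_Z n1_Z = true := by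
  decide +kernel

/-- tree -/
def T1_4zz_5 : CT :=
  .cut1 true 2640 [(10560, 1840), (12800, 0), (16000, 0), (14944, 2640), (10560, 2640)] [(14944,
      2640), (14400, 4000), (13280, 5280), (12320, 5280), (10560, 3680), (10560, 2640)] (.rel1
      [(16000, 0), (14944, 2640), (10560, 2640), (10559, 0)] (.rel2 [(6511, 0), (17900, 0), (12853,
      5768)] (.leaf ⟨0, 0, 1, 0⟩))) (.cut2 true 2640 [(10560, 1840), (12800, 0), (16000, 0), (14944,
      2640), (10560, 2640)] [(14944, 2640), (14400, 4000), (13280, 5280), (12320, 5280), (10560,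
      3680), (10560, 2640)] (.rel1 [(14944, 2640), (14400, 4000), (13280, 5280), (12320, 5280),
      (9415, 2640)] (.rel2 [(16000, 0), (14944, 2640), (10560, 2640), (10559, 0)] (.rel1 [(9415,
      2640), (15590, 2640), (12854, 5767)] (.leaf ⟨0, 0, 1, 0⟩)))) (.cut1 true 3952 [(14944, 2640),
      (14420, 3952), (10859, 3952), (10560, 3680), (10560, 2640)] [(14420, 3952), (14400, 4000),
      (13280, 5280), (12320, 5280), (10859, 3952)] (.rel1 [(14944, 2640), (14420, 3952), (10859,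
      3952), (9415, 2639)] (.rel2 [(9415, 2640), (15590, 2640), (12854, 5767)] (.leaf ⟨0, 0, 1,
      0⟩))) (.cut2 true 3952 [(14944, 2640), (14420, 3952), (10859, 3952), (10560, 3680), (10560,
      2640)] [(14420, 3952), (14400, 4000), (13280, 5280), (12320, 5280), (10859, 3952)] (.rel1
      [(13280, 5280), (12320, 5280), (10859, 3952), (14442, 3952)] (.rel2 [(14944, 2640), (14420,
      3952), (10859, 3952), (9415, 2639)] (.rel1 [(10859, 3952), (14442, 3952), (12853, 5768)]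
      (.leaf ⟨0, 0, 1, 0⟩)))) (.cut1 true 4608 [(14420, 3952), (14400, 4000), (13868, 4608), (11580,
      4608), (10859, 3952)] [(13868, 4608), (13280, 5280), (12320, 5280), (11580, 4608)] (.rel1
      [(13868, 4608), (11580, 4608), (10859, 3952), (14442, 3952)] (.rel2 [(10859, 3952), (14442,
      3952), (12853, 5768)] (.leaf ⟨1, 0, 5, 0⟩))) (.cut2 true 4608 [(14420, 3952), (14400, 4000),
      (13868, 4608), (11580, 4608), (10859, 3952)] [(13868, 4608), (13280, 5280), (12320, 5280),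
      (11580, 4608)] (.rel1 [(11580, 4608), (13868, 4608), (12854, 5767)] (.rel2 [(13868, 4608),
      (11580, 4608), (10859, 3952), (14442, 3952)] (.leaf ⟨1, 0, 5, 0⟩))) (.cut1 true 4944 [(13868,
      4608), (13574, 4944), (11950, 4944), (11580, 4608)] [(13574, 4944), (13280, 5280), (12320,
      5280), (11950, 4944)] (.leaf ⟨1, 0, 5, 0⟩) (.cut2 true 4944 [(13868, 4608), (13574, 4944),
      (11950, 4944), (11580, 4608)] [(13574, 4944), (13280, 5280), (12320, 5280), (11950, 4944)]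
      (.leaf ⟨1, 0, 5, 0⟩) (.seg (12888, 3672) (.leaf ⟨1, 0, 5, 0⟩) (.leaf ⟨2, 0, 8, 0⟩)))))))))

theorem ok1_4zz_5 :
    chkT cF4nn cF4nn T1_4zz_5 (13008, 3696) (12768, 3648) dum n1_Z n1_Z = true := by
  decide +kernel

/-- tree -/
def T1_4zz_6 : CT :=
  .cut1 true 2640 [(10560, 1840), (12800, 0), (16000, 0), (14944, 2640), (10560, 2640)] [(14944,
      2640), (14400, 4000), (13280, 5280), (12320, 5280), (10560, 3680), (10560, 2640)] (.rel1
      [(16000, 0), (14944, 2640), (10560, 2640), (10559, 0)] (.rel2 [(17900, 0), (12853, 5768),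
      (6517, 0)] (.leaf ⟨2, 0, 2, 0⟩))) (.cut2 true 2640 [(10560, 1840), (12800, 0), (16000, 0),
      (14944, 2640), (10560, 2640)] [(14944, 2640), (14400, 4000), (13280, 5280), (12320, 5280),
      (10560, 3680), (10560, 2640)] (.rel1 [(12320, 5280), (10560, 3680), (10560, 2640), (14944,
      2640), (13888, 5280)] (.rel2 [(16000, 0), (14944, 2640), (10560, 2640), (10559, 0)] (.rel1
      [(9415, 2640), (14944, 2640), (13470, 6326)] (.leaf ⟨2, 0, 2, 0⟩)))) (.cut1 false 12752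
      [(12752, 5280), (12320, 5280), (10560, 3680), (10560, 2640), (12752, 2640)] [(14944, 2640),
      (14400, 4000), (13280, 5280), (12752, 5280), (12752, 2640)] (.cut2 false 12752 [(12752, 5280),
      (12320, 5280), (10560, 3680), (10560, 2640), (12752, 2640)] [(14944, 2640), (14400, 4000),
      (13280, 5280), (12752, 5280), (12752, 2640)] (.cut1 false 11648 [(11648, 4670), (10560, 3680),
      (10560, 2640), (11648, 2640)] [(12752, 5280), (12320, 5280), (11648, 4670), (11648, 2640),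
      (12752, 2640)] (.cut2 false 11648 [(11648, 4670), (10560, 3680), (10560, 2640), (11648, 2640)]
      [(12752, 5280), (12320, 5280), (11648, 4670), (11648, 2640), (12752, 2640)] (.cut1 true 3648
      [(10560, 3648), (10560, 2640), (11648, 2640), (11648, 3648)] [(11648, 4670), (10560, 3680),
      (10560, 3648), (11648, 3648)] (.rel2 [(11648, 2640), (11648, 4670), (9416, 2640)] (.leaf ⟨4,
      0, 3, 0⟩)) (.cut2 true 3648 [(10560, 3648), (10560, 2640), (11648, 2640), (11648, 3648)]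
      [(11648, 4670), (10560, 3680), (10560, 3648), (11648, 3648)] (.rel1 [(11648, 3648), (11648,
      4670), (10523, 3647)] (.leaf ⟨4, 0, 3, 0⟩)) (.seg (12616, 3400) (.rel1 [(11648, 3648), (11648,
      4670), (10523, 3647)] (.rel2 [(11648, 3648), (11648, 4670), (10523, 3647)] (.leaf ⟨4, 0, 3,
      0⟩))) (.rel1 [(11648, 3648), (11648, 4670), (10523, 3647)] (.rel2 [(11648, 3648), (11648,
      4670), (10523, 3647)] (.leaf ⟨10, 0, 7, 0⟩)))))) (.leaf ⟨66, 0, 45, 0⟩)) (.cut1 true 3952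
      [(11648, 3952), (11648, 2640), (12752, 2640), (12752, 3952)] [(12752, 5280), (12320, 5280),
      (11648, 4670), (11648, 3952), (12752, 3952)] (.rel2 [(12752, 2640), (12752, 5673), (9415,
      2639)] (.leaf ⟨4, 0, 3, 0⟩)) (.cut2 false 11648 [(11648, 4670), (10560, 3680), (10560, 2640),
      (11648, 2640)] [(12752, 5280), (12320, 5280), (11648, 4670), (11648, 2640), (12752, 2640)]
      (.leaf ⟨66, 0, 45, 0⟩) (.rel1 [(11648, 4670), (11648, 3952), (12752, 3952), (12752, 5673)]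
      (.rel2 [(11648, 4670), (11648, 2640), (12752, 2640), (12752, 5673)] (.leaf ⟨17, 0, 11,
      0⟩)))))) (.rel1 [(10560, 3680), (10560, 2640), (12752, 2640), (12752, 5673)] (.rel2 [(13280,
      5280), (12752, 5280), (12752, 2640), (15590, 2640)] (.rel1 [(12752, 2640), (12752, 5673),
      (9415, 2639)] (.leaf ⟨10, 0, 7, 0⟩))))) (.rel1 [(13280, 5280), (12752, 5280), (12752, 2640),
      (15590, 2640)] (.rel2 [(15590, 2640), (12853, 5768), (9416, 2639)] (.leaf ⟨10, 0, 7, 0⟩)))))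

theorem ok1_4zz_6 :
    chkT cF4nn cF4nn T1_4zz_6 (12768, 3648) (12464, 3152) dum n1_Z n1_Z = true := by
  decide +kernel

theorem fr1_4zz {z k l : ℂ} (hz : OnE v1_4zz z) (hk : k ∈ Poly p1_Z)
    (hl : l ∈ Poly p1_Z) :
    k ^ 2 + l ^ 2 - 2 * k * l * (8 * z ^ 4 - 8 * z ^ 2 + 1) + (z * (8 * z ^ 3 - 4 * z)) ^ 2 ≠ 0 :=
        by
  have h := edge_use rpF4nn (E := L1_4zz) (V0 := dum) (V1 := n1_Z) (V2 := n1_Z) (fun e he => by
    simp only [L1_4zz, List.mem_cons, List.not_mem_nil, or_false] at he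
    rcases he with rfl | rfl | rfl | rfl | rfl | rfl | rfl
    exacts [⟨_, ok1_4zz_0⟩, ⟨_, ok1_4zz_1⟩, ⟨_, ok1_4zz_2⟩, ⟨_, ok1_4zz_3⟩, ⟨_, ok1_4zz_4⟩, ⟨_,
        ok1_4zz_5⟩, ⟨_, ok1_4zz_6⟩]) (V := v1_4zz) (by decide) hz zero_dum (rg1_Z hk) (rg1_Z hl)
  rw [evF4nn (mr_false k) (mr_false l)] at h
  exact fun h0 => h (by rw [h0, mul_zero])

end Pool.Agent.Work.MP_b30479_gtS.G2.SC

end
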