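import Pool.Agent.Work.MP_b30479_gt.TBS.G2.SRefD1E_0
import Pool.Agent.Work.MP_b30479_gt.TBS.G2.SRefD1F_0

section

/-!
# Part of `SRefD1E`
-/
set_option linter.style.longLine false

set_option deprecated.oldSectionVars true

namespace Pool.Agent.Work.MP_b30479_gtS.G2.SC

open scoped ComplexConjugate

theorem fr1_5ea {z k : ℂ} (hz : OnE v1_5ea z) (hk : conj k ∈ Poly p1_A2) :
    k + Complex.I * z * (16 * z ^ 4 - 12 * z ^ 2 + 1) ≠ 0 := by
  have h := edge_use rpG5m (E := L1_5ea) (V0 := dum) (V1 := dum) (V2 := n1_A2) (fun e he => by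
    simp only [L1_5ea, List.mem_cons, List.not_mem_nil, or_false] at he
    rcases he with rfl | rfl | rfl | rfl | rfl | rfl
    exacts [⟨_, ok1_5ea_0⟩, ⟨_, ok1_5ea_1⟩, ⟨_, ok1_5ea_2⟩, ⟨_, ok1_5ea_3⟩, ⟨_, ok1_5ea_4⟩, ⟨_,
        ok1_5ea_5⟩]) (V := v1_5ea) (by decide) hz zero_dum zero_dum (rg1_A2 hk)
  rw [evG5m (mr_true k)] at h
  exact fun h0 => h (by rw [h0, mul_zero])

theorem fr1_5ez {z k : ℂ} (hz : OnE v1_5ez z) (hk : k ∈ Poly p1_Z) :
    k + Complex.I * z * (16 * z ^ 4 - 12 * z ^ 2 + 1) ≠ 0 := by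
  have h := edge_use rpG5n (E := L1_5ez) (V0 := dum) (V1 := dum) (V2 := n1_Z) (fun e he => by
    simp only [L1_5ez, List.mem_cons, List.not_mem_nil, or_false] at he
    rcases he with rfl | rfl | rfl | rfl | rfl | rfl | rfl
    exacts [⟨_, ok1_5ez_0⟩, ⟨_, ok1_5ez_1⟩, ⟨_, ok1_5ez_2⟩, ⟨_, ok1_5ez_3⟩, ⟨_, ok1_5ez_4⟩, ⟨_,
        ok1_5ez_5⟩, ⟨_, ok1_5ez_6⟩]) (V := v1_5ez) (by decide) hz zero_dum zero_dum (rg1_Z hk)
  rw [evG5n (mr_false k)] at h
  exact fun h0 => h (by rw [h0, mul_zero])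

theorem fr1_5es {z k : ℂ} (hz : OnE v1_5es z) (hk : k ∈ Poly p1_S3) :
    k + Complex.I * z * (16 * z ^ 4 - 12 * z ^ 2 + 1) ≠ 0 := by
  have h := edge_use rpG5n (E := L1_5es) (V0 := dum) (V1 := dum) (V2 := n1_S3) (fun e he => by
    simp only [L1_5es, List.mem_cons, List.not_mem_nil, or_false] at he
    rcases he with rfl | rfl | rfl | rfl | rfl | rfl | rfl
    exacts [⟨_, ok1_5es_0⟩, ⟨_, ok1_5es_1⟩, ⟨_, ok1_5es_2⟩, ⟨_, ok1_5es_3⟩, ⟨_, ok1_5es_4⟩, ⟨_,
        ok1_5es_5⟩, ⟨_, ok1_5es_6⟩]) (V := v1_5es) (by decide) hz zero_dum zero_dum (rg1_S3 hk)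
  rw [evG5n (mr_false k)] at h
  exact fun h0 => h (by rw [h0, mul_zero])

theorem ok1_5aa_0 :
    chkT cF5mm cF5mm T1_5aa_0 (13696, 752) (13984, 608) dum n1_A2 n1_A2 = true := by
  decide +kernel

theorem ok1_5aa_1 :
    chkT cF5mm cF5mm T1_5aa_1 (13984, 608) (14528, 832) dum n1_A2 n1_A2 = true := by
  decide +kernel

theorem ok1_5aa_3 :
    chkT cF5mm cF5mm T1_5aa_3 (14528, 864) (14128, 1792) dum n1_A2 n1_A2 = true := by
  decide +kernel

theorem ok1_5aa_4 :
    chkT cF5mm cF5mm T1_5aa_4 (14128, 1792) (13776, 1552) dum n1_A2 n1_A2 = true := by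
  decide +kernel

theorem ok1_5aa_5 :
    chkT cF5mm cF5mm T1_5aa_5 (13776, 1552) (13696, 1168) dum n1_A2 n1_A2 = true := by
  decide +kernel

end Pool.Agent.Work.MP_b30479_gtS.G2.SC

end

section

/-!
# Part of `SRefD1E`
-/
set_option linter.style.longLine false

set_option deprecated.oldSectionVars true

namespace Pool.Agent.Work.MP_b30479_gtS.G2.SC

open scoped ComplexConjugate

theorem ok1_5aa_6 :
    chkT cF5mm cF5mm T1_5aa_6 (13696, 1168) (13680, 912) dum n1_A2 n1_A2 = true := by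
  decide +kernel

theorem ok1_5aa_7 :
    chkT cF5mm cF5mm T1_5aa_7 (13680, 912) (13696, 752) dum n1_A2 n1_A2 = true := by
  decide +kernel

theorem ok1_5az_0 :
    chkT cF5mn cF5mn T1_5az_0 (13456, 1200) (13712, 992) dum n1_A2 n1_Z = true := by
  decide +kernel

theorem ok1_5az_4 :
    chkT cF5mn cF5mn T1_5az_4 (14144, 1760) (13888, 2000) dum n1_A2 n1_Z = true := by
  decide +kernel

theorem ok1_5as_0 :
    chkT cF5mn cF5mn T1_5as_0 (13136, 1264) (13504, 944) dum n1_A2 n1_S3 = true := by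
  decide +kernel

end Pool.Agent.Work.MP_b30479_gtS.G2.SC

end

section

/-!
# Part of `SRefD1E`
-/
set_option linter.style.longLine false

set_option deprecated.oldSectionVars true

namespace Pool.Agent.Work.MP_b30479_gtS.G2.SC

open scoped ComplexConjugate

theorem ok1_5as_3 :
    chkT cF5mn cF5mn T1_5as_3 (14288, 1216) (14048, 1824) dum n1_A2 n1_S3 = true := by
  decide +kernel

theorem ok1_5as_4 :
    chkT cF5mn cF5mn T1_5as_4 (14048, 1824) (13760, 2336) dum n1_A2 n1_S3 = true := by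
  decide +kernel

theorem ok1_5zz_2 :
    chkT cF5nn cF5nn T1_5zz_2 (14144, 1760) (13632, 2240) dum n1_Z n1_Z = true := by
  decide +kernel

theorem ok1_5zz_6 :
    chkT cF5nn cF5nn T1_5zz_6 (13296, 1808) (13456, 1584) dum n1_Z n1_Z = true := by
  decide +kernel

theorem ok1_5zs_3 :
    chkT cF5nn cF5nn T1_5zs_3 (14080, 1760) (13696, 2448) dum n1_Z n1_S3 = true := by
  decide +kernel

theorem ok1_5zs_5 :
    chkT cF5nn cF5nn T1_5zs_5 (13456, 2608) (13216, 2560) dum n1_Z n1_S3 = true := by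
  decide +kernel

theorem ok1_5ss_0 :
    chkT cF5nn cF5nn T1_5ss_0 (12704, 1984) (12896, 1584) dum n1_S3 n1_S3 = true := by
  decide +kernel

end Pool.Agent.Work.MP_b30479_gtS.G2.SC

end

section

/-!
# Part of `SRefD1E`
-/
set_option linter.style.longLine false

set_option deprecated.oldSectionVars true

namespace Pool.Agent.Work.MP_b30479_gtS.G2.SC

open scoped ComplexConjugate

theorem ok1_5ss_1 :
    chkT cF5nn cF5nn T1_5ss_1 (12896, 1584) (13696, 1568) dum n1_S3 n1_S3 = true := by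
  decide +kernel

theorem ok1_5ss_3 :
    chkT cF5nn cF5nn T1_5ss_3 (14016, 1744) (13344, 3072) dum n1_S3 n1_S3 = true := by
  decide +kernel

theorem ok1_5ss_5_q0 :
    chkT cF5nn cF5nn T1_5ss_5_1 (13072, 3008) (12800, 2672) dum n1_S3 [(8016, 3840), (12112, 608),
        (14880, 608), (14269, 5696), (8112, 5696), (8016, 5024)] = true := by
  decide +kernel

theorem ok1_5ss_5_q1 :
    chkT cF5nn cF5nn T1_5ss_5_3 (13072, 3008) (12800, 2672) dum [(8016, 3840), (12112, 608),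
        (14880, 608), (14269, 5696), (8112, 5696), (8016, 5024)] [(14269, 5696), (13984, 8064),
        (13296, 10800), (11728, 10800), (8448, 8048), (8112, 5696)] = true := by
  decide +kernel

theorem ok1_5ss_5_q2 :
    chkT cF5nn cF5nn T1_5ss_5_5 (13072, 3008) (12800, 2672) dum [(14269, 5696), (13984, 8064),
        (13940, 8240), (8676, 8240), (8448, 8048), (8112, 5696)] [(14269, 5696), (13984, 8064),
        (13296, 10800), (11728, 10800), (8448, 8048), (8112, 5696)] = true := by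
  decide +kernel

theorem ok1_5ss_5_q3 :
    chkT cF5nn cF5nn T1_5ss_5_7 (13072, 3008) (12800, 2672) dum [(13940, 8240), (13296, 10800),
        (11728, 10800), (8676, 8240)] [(14269, 5696), (13984, 8064), (13940, 8240), (8676, 8240),
        (8448, 8048), (8112, 5696)] = true := by
  decide +kernel

theorem ok1_5ss_5_q4 :
    chkT cF5nn cF5nn T1_5ss_5_9 (13072, 3008) (12936, 2840) dum [(13940, 8240), (13296, 10800),
        (11728, 10800), (8676, 8240)] [(13940, 8240), (13296, 10800), (11728, 10800), (8676, 8240)]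
        = true := by
  decide +kernel

end Pool.Agent.Work.MP_b30479_gtS.G2.SC

end

section

/-!
# Part of `SRefD1E`
-/
set_option linter.style.longLine false

set_option deprecated.oldSectionVars true

namespace Pool.Agent.Work.MP_b30479_gtS.G2.SC

open scoped ComplexConjugate

theorem ok1_5ss_5_q5 :
    chkT cF5nn cF5nn T1_5ss_5_11 (12936, 2840) (12800, 2672) dum [(13940, 8240), (13296, 10800),
        (11728, 10800), (8676, 8240)] [(13940, 8240), (13618, 9520), (10202, 9520), (8676, 8240)] =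
        true := by
  decide +kernel

theorem ok1_5ss_5_q6 :
    chkT cF5nn cF5nn T1_5ss_5_12 (12936, 2840) (12800, 2672) dum [(13940, 8240), (13296, 10800),
        (11728, 10800), (8676, 8240)] [(13618, 9520), (13296, 10800), (11728, 10800), (10202,
        9520)] = true := by
  decide +kernel

theorem ok1_5ss_6_q0 :
    chkT cF5nn cF5nn T1_5ss_6_1 (12800, 2672) (12592, 2336) dum [(8016, 3840), (12112, 608),
        (14880, 608), (14269, 5696), (8112, 5696), (8016, 5024)] n1_S3 = true := by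
  decide +kernel

theorem ok1_5ss_6_q1 :
    chkT cF5nn cF5nn T1_5ss_6_3 (12800, 2672) (12592, 2336) dum [(14269, 5696), (13984, 8064),
        (13296, 10800), (11728, 10800), (8448, 8048), (8112, 5696)] [(8016, 3840), (12112, 608),
        (14880, 608), (14269, 5696), (8112, 5696), (8016, 5024)] = true := by
  decide +kernel

theorem ok1_5ss_6_q2 :
    chkT cF5nn cF5nn T1_5ss_6_11 (12800, 2672) (12592, 2336) dum [(8352, 7376), (8112, 5696),
        (9648, 5696), (9648, 7376)] [(11184, 10344), (8448, 8048), (8112, 5696), (11184, 5696)] =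
        true := by
  decide +kernel

theorem ok1_5ss_6_q3 :
    chkT cF5nn cF5nn T1_5ss_6_13 (12800, 2672) (12592, 2336) dum [(9648, 9056), (8448, 8048),
        (8352, 7376), (9648, 7376)] [(8443, 8016), (8112, 5696), (11184, 5696), (11184, 8016)] =
        true := by
  decide +kernel

theorem ok1_5ss_6_q4 :
    chkT cF5nn cF5nn T1_5ss_6_19 (12800, 2672) (12592, 2336) dum [(9648, 9056), (8448, 8048),
        (8352, 7376), (9648, 7376)] [(9120, 8613), (8448, 8048), (8443, 8016), (9120, 8016)] = true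
        := by
  decide +kernel

theorem ok1_5ss_6_q5 :
    chkT cF5nn cF5nn T1_5ss_6_20 (12800, 2672) (12592, 2336) dum [(9648, 9056), (8448, 8048),
        (8352, 7376), (9648, 7376)] [(9782, 9168), (9120, 8613), (9120, 8016), (9808, 8016), (9808,
        9168)] = true := by
  decide +kernel

end Pool.Agent.Work.MP_b30479_gtS.G2.SC

end

section

/-!
# Part of `SRefD1E`
-/
set_option linter.style.longLine false

set_option deprecated.oldSectionVars true

namespace Pool.Agent.Work.MP_b30479_gtS.G2.SC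

open scoped ComplexConjugate

theorem ok1_5ss_6_q7 :
    chkT cF5nn cF5nn T1_5ss_6_18 (12800, 2672) (12592, 2336) dum [(9648, 9056), (8448, 8048),
        (8352, 7376), (9648, 7376)] [(9808, 8016), (11184, 8016), (11184, 9168), (9808, 9168)] =
        true := by
  decide +kernel

theorem ok1_5ss_6_q9 :
    chkT cF5nn cF5nn T1_5ss_6_16 (12800, 2672) (12592, 2336) dum [(9648, 9056), (8448, 8048),
        (8352, 7376), (9648, 7376)] [(11184, 10344), (9782, 9168), (11184, 9168)] = true := by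
  decide +kernel

theorem ok1_5ss_6_q13 :
    chkT cF5nn cF5nn T1_5ss_6_10 (12800, 2672) (12592, 2336) dum [(11184, 10344), (9648, 9056),
        (9648, 5696), (11184, 5696)] [(11184, 10344), (8448, 8048), (8112, 5696), (11184, 5696)] =
        true := by
  decide +kernel

theorem ok1_5ss_6_q15 :
    chkT cF5nn cF5nn T1_5ss_6_8 (12800, 2672) (12592, 2336) dum [(11184, 10344), (8448, 8048),
        (8112, 5696), (11184, 5696)] [(14269, 5696), (13984, 8064), (13296, 10800), (11728, 10800),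
        (11184, 10344), (11184, 5696)] = true := by
  decide +kernel

theorem ok1_5ss_6_q17 :
    chkT cF5nn cF5nn T1_5ss_6_6 (12800, 2672) (12592, 2336) dum [(14269, 5696), (13984, 8064),
        (13296, 10800), (11728, 10800), (11184, 10344), (11184, 5696)] [(14269, 5696), (13984,
        8064), (13296, 10800), (11728, 10800), (8448, 8048), (8112, 5696)] = true := by
  decide +kernel

theorem ok1_5ss_7 :
    chkT cF5nn cF5nn T1_5ss_7 (12592, 2336) (12704, 1984) dum n1_S3 n1_S3 = true := by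
  decide +kernel

end Pool.Agent.Work.MP_b30479_gtS.G2.SC

end

section

/-!
# Refined rings, round 1, 5 crossings

Generated certificates (see `S2Cert`).
-/

set_option linter.style.longLine false

set_option deprecated.oldSectionVars true

namespace Pool.Agent.Work.MP_b30479_gtS.G2.SC

open scoped ComplexConjugate

theorem fr1_5aa {z k l : ℂ} (hz : OnE v1_5aa z) (hk : conj k ∈ Poly p1_A2)
    (hl : conj l ∈ Poly p1_A2) :
    k ^ 2 + l ^ 2 - 2 * k * l * (16 * z ^ 5 - 20 * z ^ 3 + 5 * z) + (z * (16 * z ^ 4 - 12 * z ^ 2 +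
        1)) ^ 2 ≠ 0 := by
  have h := edge_use rpF5mm (E := L1_5aa) (V0 := dum) (V1 := n1_A2) (V2 := n1_A2) (fun e he => by
    simp only [L1_5aa, List.mem_cons, List.not_mem_nil, or_false] at he
    rcases he with rfl | rfl | rfl | rfl | rfl | rfl | rfl | rfl
    exacts [⟨_, ok1_5aa_0⟩, ⟨_, ok1_5aa_1⟩, ⟨_, ok1_5aa_2⟩, ⟨_, ok1_5aa_3⟩, ⟨_, ok1_5aa_4⟩, ⟨_,
        ok1_5aa_5⟩, ⟨_, ok1_5aa_6⟩, ⟨_, ok1_5aa_7⟩]) (V := v1_5aa) (by decide) hz zero_dum (rg1_A2
        hk) (rg1_A2 hl)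
  rw [evF5mm (mr_true k) (mr_true l)] at h
  exact fun h0 => h (by rw [h0, mul_zero])

theorem fr1_5az {z k l : ℂ} (hz : OnE v1_5az z) (hk : conj k ∈ Poly p1_A2)
    (hl : l ∈ Poly p1_Z) :
    k ^ 2 + l ^ 2 - 2 * k * l * (16 * z ^ 5 - 20 * z ^ 3 + 5 * z) + (z * (16 * z ^ 4 - 12 * z ^ 2 +
        1)) ^ 2 ≠ 0 := by
  have h := edge_use rpF5mn (E := L1_5az) (V0 := dum) (V1 := n1_A2) (V2 := n1_Z) (fun e he => by
    simp only [L1_5az, List.mem_cons, List.not_mem_nil, or_false] at he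
    rcases he with rfl | rfl | rfl | rfl | rfl | rfl | rfl | rfl
    exacts [⟨_, ok1_5az_0⟩, ⟨_, ok1_5az_1⟩, ⟨_, ok1_5az_2⟩, ⟨_, ok1_5az_3⟩, ⟨_, ok1_5az_4⟩, ⟨_,
        ok1_5az_5⟩, ⟨_, ok1_5az_6⟩, ⟨_, ok1_5az_7⟩]) (V := v1_5az) (by decide) hz zero_dum (rg1_A2
        hk) (rg1_Z hl)
  rw [evF5mn (mr_true k) (mr_false l)] at h
  exact fun h0 => h (by rw [h0, mul_zero])

theorem fr1_5as {z k l : ℂ} (hz : OnE v1_5as z) (hk : conj k ∈ Poly p1_A2)
    (hl : l ∈ Poly p1_S3) :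
    k ^ 2 + l ^ 2 - 2 * k * l * (16 * z ^ 5 - 20 * z ^ 3 + 5 * z) + (z * (16 * z ^ 4 - 12 * z ^ 2 +
        1)) ^ 2 ≠ 0 := by
  have h := edge_use rpF5mn (E := L1_5as) (V0 := dum) (V1 := n1_A2) (V2 := n1_S3) (fun e he => by
    simp only [L1_5as, List.mem_cons, List.not_mem_nil, or_false] at he
    rcases he with rfl | rfl | rfl | rfl | rfl | rfl | rfl | rfl
    exacts [⟨_, ok1_5as_0⟩, ⟨_, ok1_5as_1⟩, ⟨_, ok1_5as_2⟩, ⟨_, ok1_5as_3⟩, ⟨_, ok1_5as_4⟩, ⟨_,
        ok1_5as_5⟩, ⟨_, ok1_5as_6⟩, ⟨_, ok1_5as_7⟩]) (V := v1_5as) (by decide) hz zero_dum (rg1_A2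
        hk) (rg1_S3 hl)
  rw [evF5mn (mr_true k) (mr_false l)] at h
  exact fun h0 => h (by rw [h0, mul_zero])

theorem fr1_5zz {z k l : ℂ} (hz : OnE v1_5zz z) (hk : k ∈ Poly p1_Z)
    (hl : l ∈ Poly p1_Z) :
    k ^ 2 + l ^ 2 - 2 * k * l * (16 * z ^ 5 - 20 * z ^ 3 + 5 * z) + (z * (16 * z ^ 4 - 12 * z ^ 2 +
        1)) ^ 2 ≠ 0 := by
  have h := edge_use rpF5nn (E := L1_5zz) (V0 := dum) (V1 := n1_Z) (V2 := n1_Z) (fun e he => by
    simp only [L1_5zz, List.mem_cons, List.not_mem_nil, or_false] at he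
    rcases he with rfl | rfl | rfl | rfl | rfl | rfl | rfl
    exacts [⟨_, ok1_5zz_0⟩, ⟨_, ok1_5zz_1⟩, ⟨_, ok1_5zz_2⟩, ⟨_, ok1_5zz_3⟩, ⟨_, ok1_5zz_4⟩, ⟨_,
        ok1_5zz_5⟩, ⟨_, ok1_5zz_6⟩]) (V := v1_5zz) (by decide) hz zero_dum (rg1_Z hk) (rg1_Z hl)
  rw [evF5nn (mr_false k) (mr_false l)] at h
  exact fun h0 => h (by rw [h0, mul_zero])

theorem fr1_5zs {z k l : ℂ} (hz : OnE v1_5zs z) (hk : k ∈ Poly p1_Z)
    (hl : l ∈ Poly p1_S3) :
    k ^ 2 + l ^ 2 - 2 * k * l * (16 * z ^ 5 - 20 * z ^ 3 + 5 * z) + (z * (16 * z ^ 4 - 12 * z ^ 2 +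
        1)) ^ 2 ≠ 0 := by
  have h := edge_use rpF5nn (E := L1_5zs) (V0 := dum) (V1 := n1_Z) (V2 := n1_S3) (fun e he => by
    simp only [L1_5zs, List.mem_cons, List.not_mem_nil, or_false] at he
    rcases he with rfl | rfl | rfl | rfl | rfl | rfl | rfl | rfl
    exacts [⟨_, ok1_5zs_0⟩, ⟨_, ok1_5zs_1⟩, ⟨_, ok1_5zs_2⟩, ⟨_, ok1_5zs_3⟩, ⟨_, ok1_5zs_4⟩, ⟨_,
        ok1_5zs_5⟩, ⟨_, ok1_5zs_6⟩, ⟨_, ok1_5zs_7⟩]) (V := v1_5zs) (by decide) hz zero_dum (rg1_Z
        hk) (rg1_S3 hl)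
  rw [evF5nn (mr_false k) (mr_false l)] at h
  exact fun h0 => h (by rw [h0, mul_zero])

theorem ok1_5ss_5_r7 :
    chkT cF5nn cF5nn T1_5ss_5_10 (12936, 2840) (12800, 2672) dum [(13940, 8240), (13296, 10800),
        (11728, 10800), (8676, 8240)] [(13940, 8240), (13296, 10800), (11728, 10800), (8676, 8240)]
        = true :=
  chkT_cut2 (by decide +kernel)
    ok1_5ss_5_q5
    ok1_5ss_5_q6

theorem ok1_5ss_5_r8 :
    chkT cF5nn cF5nn T1_5ss_5_8 (13072, 3008) (12800, 2672) dum [(13940, 8240), (13296, 10800),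
        (11728, 10800), (8676, 8240)] [(13940, 8240), (13296, 10800), (11728, 10800), (8676, 8240)]
        = true :=
  chkT_seg (by decide +kernel)
    ok1_5ss_5_q4
    ok1_5ss_5_r7

theorem ok1_5ss_5_r9 :
    chkT cF5nn cF5nn T1_5ss_5_6 (13072, 3008) (12800, 2672) dum [(13940, 8240), (13296, 10800),
        (11728, 10800), (8676, 8240)] [(14269, 5696), (13984, 8064), (13296, 10800), (11728,
        10800), (8448, 8048), (8112, 5696)] = true :=
  chkT_cut2 (by decide +kernel)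
    ok1_5ss_5_q3
    ok1_5ss_5_r8

theorem ok1_5ss_5_r10 :
    chkT cF5nn cF5nn T1_5ss_5_4 (13072, 3008) (12800, 2672) dum [(14269, 5696), (13984, 8064),
        (13296, 10800), (11728, 10800), (8448, 8048), (8112, 5696)] [(14269, 5696), (13984, 8064),
        (13296, 10800), (11728, 10800), (8448, 8048), (8112, 5696)] = true :=
  chkT_cut1 (by decide +kernel)
    ok1_5ss_5_q2
    ok1_5ss_5_r9

theorem ok1_5ss_5_r11 :
    chkT cF5nn cF5nn T1_5ss_5_2 (13072, 3008) (12800, 2672) dum n1_S3 [(14269, 5696), (13984,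
        8064), (13296, 10800), (11728, 10800), (8448, 8048), (8112, 5696)] = true :=
  chkT_cut1 (by decide +kernel)
    ok1_5ss_5_q1
    ok1_5ss_5_r10

theorem ok1_5ss_5 :
    chkT cF5nn cF5nn T1_5ss_5 (13072, 3008) (12800, 2672) dum n1_S3 n1_S3 = true :=
  chkT_cut2 (by decide +kernel)
    ok1_5ss_5_q0
    ok1_5ss_5_r11

theorem ok1_5ss_6_r6 :
    chkT cF5nn cF5nn T1_5ss_6_17 (12800, 2672) (12592, 2336) dum [(9648, 9056), (8448, 8048),
        (8352, 7376), (9648, 7376)] [(9782, 9168), (8448, 8048), (8443, 8016), (9808, 8016), (9808,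
        9168)] = true :=
  chkT_cut2 (by decide +kernel)
    ok1_5ss_6_q4
    ok1_5ss_6_q5

theorem ok1_5ss_6_r8 :
    chkT cF5nn cF5nn T1_5ss_6_15 (12800, 2672) (12592, 2336) dum [(9648, 9056), (8448, 8048),
        (8352, 7376), (9648, 7376)] [(9782, 9168), (8448, 8048), (8443, 8016), (11184, 8016),
        (11184, 9168)] = true :=
  chkT_cut2 (by decide +kernel)
    ok1_5ss_6_r6
    ok1_5ss_6_q7

theorem ok1_5ss_6_r10 :
    chkT cF5nn cF5nn T1_5ss_6_14 (12800, 2672) (12592, 2336) dum [(9648, 9056), (8448, 8048),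
        (8352, 7376), (9648, 7376)] [(11184, 10344), (8448, 8048), (8443, 8016), (11184, 8016)] =
        true :=
  chkT_cut2 (by decide +kernel)
    ok1_5ss_6_r8
    ok1_5ss_6_q9

theorem ok1_5ss_6_r11 :
    chkT cF5nn cF5nn T1_5ss_6_12 (12800, 2672) (12592, 2336) dum [(9648, 9056), (8448, 8048),
        (8352, 7376), (9648, 7376)] [(11184, 10344), (8448, 8048), (8112, 5696), (11184, 5696)] =
        true :=
  chkT_cut2 (by decide +kernel)
    ok1_5ss_6_q3
    ok1_5ss_6_r10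

theorem ok1_5ss_6_r12 :
    chkT cF5nn cF5nn T1_5ss_6_9 (12800, 2672) (12592, 2336) dum [(9648, 9056), (8448, 8048), (8112,
        5696), (9648, 5696)] [(11184, 10344), (8448, 8048), (8112, 5696), (11184, 5696)] = true :=
  chkT_cut1 (by decide +kernel)
    ok1_5ss_6_q2
    ok1_5ss_6_r11

theorem ok1_5ss_6_r14 :
    chkT cF5nn cF5nn T1_5ss_6_7 (12800, 2672) (12592, 2336) dum [(11184, 10344), (8448, 8048),
        (8112, 5696), (11184, 5696)] [(11184, 10344), (8448, 8048), (8112, 5696), (11184, 5696)] =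
        true :=
  chkT_cut1 (by decide +kernel)
    ok1_5ss_6_r12
    ok1_5ss_6_q13

theorem ok1_5ss_6_r16 :
    chkT cF5nn cF5nn T1_5ss_6_5 (12800, 2672) (12592, 2336) dum [(11184, 10344), (8448, 8048),
        (8112, 5696), (11184, 5696)] [(14269, 5696), (13984, 8064), (13296, 10800), (11728, 10800),
        (8448, 8048), (8112, 5696)] = true :=
  chkT_cut2 (by decide +kernel)
    ok1_5ss_6_r14
    ok1_5ss_6_q15

theorem ok1_5ss_6_r18 :
    chkT cF5nn cF5nn T1_5ss_6_4 (12800, 2672) (12592, 2336) dum [(14269, 5696), (13984, 8064),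
        (13296, 10800), (11728, 10800), (8448, 8048), (8112, 5696)] [(14269, 5696), (13984, 8064),
        (13296, 10800), (11728, 10800), (8448, 8048), (8112, 5696)] = true :=
  chkT_cut1 (by decide +kernel)
    ok1_5ss_6_r16
    ok1_5ss_6_q17

theorem ok1_5ss_6_r19 :
    chkT cF5nn cF5nn T1_5ss_6_2 (12800, 2672) (12592, 2336) dum [(14269, 5696), (13984, 8064),
        (13296, 10800), (11728, 10800), (8448, 8048), (8112, 5696)] n1_S3 = true :=
  chkT_cut2 (by decide +kernel)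
    ok1_5ss_6_q1
    ok1_5ss_6_r18

theorem ok1_5ss_6 :
    chkT cF5nn cF5nn T1_5ss_6 (12800, 2672) (12592, 2336) dum n1_S3 n1_S3 = true :=
  chkT_cut1 (by decide +kernel)
    ok1_5ss_6_q0
    ok1_5ss_6_r19

theorem fr1_5ss {z k l : ℂ} (hz : OnE v1_5ss z) (hk : k ∈ Poly p1_S3)
    (hl : l ∈ Poly p1_S3) :
    k ^ 2 + l ^ 2 - 2 * k * l * (16 * z ^ 5 - 20 * z ^ 3 + 5 * z) + (z * (16 * z ^ 4 - 12 * z ^ 2 +
        1)) ^ 2 ≠ 0 := by
  have h := edge_use rpF5nn (E := L1_5ss) (V0 := dum) (V1 := n1_S3) (V2 := n1_S3) (fun e he => by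
    simp only [L1_5ss, List.mem_cons, List.not_mem_nil, or_false] at he
    rcases he with rfl | rfl | rfl | rfl | rfl | rfl | rfl | rfl
    exacts [⟨_, ok1_5ss_0⟩, ⟨_, ok1_5ss_1⟩, ⟨_, ok1_5ss_2⟩, ⟨_, ok1_5ss_3⟩, ⟨_, ok1_5ss_4⟩, ⟨_,
        ok1_5ss_5⟩, ⟨_, ok1_5ss_6⟩, ⟨_, ok1_5ss_7⟩]) (V := v1_5ss) (by decide) hz zero_dum (rg1_S3
        hk) (rg1_S3 hl)
  rw [evF5nn (mr_false k) (mr_false l)] at h
  exact fun h0 => h (by rw [h0, mul_zero])

end Pool.Agent.Work.MP_b30479_gtS.G2.SC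

end

section

/-!
# Part of `SRefD1F`
-/
set_option linter.style.longLine false

set_option deprecated.oldSectionVars true

namespace Pool.Agent.Work.MP_b30479_gtS.G2.SC

open scoped ComplexConjugate

theorem fr1_6ea {z k : ℂ} (hz : OnE v1_6ea z) (hk : conj k ∈ Poly p1_A2) :
    k + Complex.I * z * (32 * z ^ 5 - 32 * z ^ 3 + 6 * z) ≠ 0 := by
  have h := edge_use rpG6m (E := L1_6ea) (V0 := dum) (V1 := dum) (V2 := n1_A2) (fun e he => by
    simp only [L1_6ea, List.mem_cons, List.not_mem_nil, or_false] at he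
    rcases he with rfl | rfl | rfl | rfl | rfl | rfl
    exacts [⟨_, ok1_6ea_0⟩, ⟨_, ok1_6ea_1⟩, ⟨_, ok1_6ea_2⟩, ⟨_, ok1_6ea_3⟩, ⟨_, ok1_6ea_4⟩, ⟨_,
        ok1_6ea_5⟩]) (V := v1_6ea) (by decide) hz zero_dum zero_dum (rg1_A2 hk)
  rw [evG6m (mr_true k)] at h
  exact fun h0 => h (by rw [h0, mul_zero])

theorem fr1_6ez {z k : ℂ} (hz : OnE v1_6ez z) (hk : k ∈ Poly p1_Z) :
    k + Complex.I * z * (32 * z ^ 5 - 32 * z ^ 3 + 6 * z) ≠ 0 := by
  have h := edge_use rpG6n (E := L1_6ez) (V0 := dum) (V1 := dum) (V2 := n1_Z) (fun e he => by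
    simp only [L1_6ez, List.mem_cons, List.not_mem_nil, or_false] at he
    rcases he with rfl | rfl | rfl | rfl | rfl | rfl
    exacts [⟨_, ok1_6ez_0⟩, ⟨_, ok1_6ez_1⟩, ⟨_, ok1_6ez_2⟩, ⟨_, ok1_6ez_3⟩, ⟨_, ok1_6ez_4⟩, ⟨_,
        ok1_6ez_5⟩]) (V := v1_6ez) (by decide) hz zero_dum zero_dum (rg1_Z hk)
  rw [evG6n (mr_false k)] at h
  exact fun h0 => h (by rw [h0, mul_zero])

theorem fr1_6es {z k : ℂ} (hz : OnE v1_6es z) (hk : k ∈ Poly p1_S3) :
    k + Complex.I * z * (32 * z ^ 5 - 32 * z ^ 3 + 6 * z) ≠ 0 := by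
  have h := edge_use rpG6n (E := L1_6es) (V0 := dum) (V1 := dum) (V2 := n1_S3) (fun e he => by
    simp only [L1_6es, List.mem_cons, List.not_mem_nil, or_false] at he
    rcases he with rfl | rfl | rfl | rfl | rfl | rfl
    exacts [⟨_, ok1_6es_0⟩, ⟨_, ok1_6es_1⟩, ⟨_, ok1_6es_2⟩, ⟨_, ok1_6es_3⟩, ⟨_, ok1_6es_4⟩, ⟨_,
        ok1_6es_5⟩]) (V := v1_6es) (by decide) hz zero_dum zero_dum (rg1_S3 hk)
  rw [evG6n (mr_false k)] at h
  exact fun h0 => h (by rw [h0, mul_zero])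

theorem ok1_6aa_0 :
    chkT cF6mm cF6mm T1_6aa_0 (14256, 640) (14272, 464) dum n1_A2 n1_A2 = true := by
  decide +kernel

theorem ok1_6aa_3 :
    chkT cF6mm cF6mm T1_6aa_3 (14832, 560) (14480, 1168) dum n1_A2 n1_A2 = true := by
  decide +kernel

theorem ok1_6aa_5 :
    chkT cF6mm cF6mm T1_6aa_5 (14256, 960) (14256, 640) dum n1_A2 n1_A2 = true := by
  decide +kernel

theorem ok1_6az_0 :
    chkT cF6mn cF6mn T1_6az_0 (14080, 736) (14272, 624) dum n1_A2 n1_Z = true := by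
  decide +kernel

end Pool.Agent.Work.MP_b30479_gtS.G2.SC

end

section

/-!
# Part of `SRefD1F`
-/
set_option linter.style.longLine false

set_option deprecated.oldSectionVars true

namespace Pool.Agent.Work.MP_b30479_gtS.G2.SC

open scoped ComplexConjugate

theorem ok1_6az_3 :
    chkT cF6mn cF6mn T1_6az_3 (14672, 800) (14448, 1216) dum n1_A2 n1_Z = true := by
  decide +kernel

theorem ok1_6as_0 :
    chkT cF6mn cF6mn T1_6as_0 (13904, 736) (14144, 576) dum n1_A2 n1_S3 = true := by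
  decide +kernel

theorem ok1_6as_3 :
    chkT cF6mn cF6mn T1_6as_3 (14656, 848) (14192, 1488) dum n1_A2 n1_S3 = true := by
  decide +kernel

theorem ok1_6as_5 :
    chkT cF6mn cF6mn T1_6as_5 (13952, 1312) (13872, 832) dum n1_A2 n1_S3 = true := by
  decide +kernel

theorem fr1_6zz {z k l : ℂ} (hz : OnE v1_6zz z) (hk : k ∈ Poly p1_Z)
    (hl : l ∈ Poly p1_Z) :
    k ^ 2 + l ^ 2 - 2 * k * l * (32 * z ^ 6 - 48 * z ^ 4 + 18 * z ^ 2 - 1) + (z * (32 * z ^ 5 - 32 *
        z ^ 3 + 6 * z)) ^ 2 ≠ 0 := by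
  have h := edge_use rpF6nn (E := L1_6zz) (V0 := dum) (V1 := n1_Z) (V2 := n1_Z) (fun e he => by
    simp only [L1_6zz, List.mem_cons, List.not_mem_nil, or_false] at he
    rcases he with rfl | rfl | rfl | rfl | rfl | rfl | rfl
    exacts [⟨_, ok1_6zz_0⟩, ⟨_, ok1_6zz_1⟩, ⟨_, ok1_6zz_2⟩, ⟨_, ok1_6zz_3⟩, ⟨_, ok1_6zz_4⟩, ⟨_,
        ok1_6zz_5⟩, ⟨_, ok1_6zz_6⟩]) (V := v1_6zz) (by decide) hz zero_dum (rg1_Z hk) (rg1_Z hl)
  rw [evF6nn (mr_false k) (mr_false l)] at h
  exact fun h0 => h (by rw [h0, mul_zero])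

theorem ok1_6zs_3 :
    chkT cF6nn cF6nn T1_6zs_3 (14448, 1136) (14176, 1472) dum n1_Z n1_S3 = true := by
  decide +kernel

end Pool.Agent.Work.MP_b30479_gtS.G2.SC

end

section

/-!
# Part of `SRefD1F`
-/
set_option linter.style.longLine false

set_option deprecated.oldSectionVars true

namespace Pool.Agent.Work.MP_b30479_gtS.G2.SC

open scoped ComplexConjugate

theorem ok1_6ss_0 :
    chkT cF6nn cF6nn T1_6ss_0 (13616, 1040) (13744, 896) dum n1_S3 n1_S3 = true := by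
  decide +kernel

theorem ok1_6ss_1 :
    chkT cF6nn cF6nn T1_6ss_1 (13744, 896) (14272, 992) dum n1_S3 n1_S3 = true := by
  decide +kernel

theorem ok1_6ss_3 :
    chkT cF6nn cF6nn T1_6ss_3 (14416, 1120) (13824, 1904) dum n1_S3 n1_S3 = true := by
  decide +kernel

theorem ok1_6ss_5_q0 :
    chkT cF6nn cF6nn T1_6ss_5_1 (13616, 1824) (13424, 1312) dum [(8016, 3840), (12112, 608),
        (14880, 608), (14269, 5696), (8112, 5696), (8016, 5024)] n1_S3 = true := by
  decide +kernel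

theorem ok1_6ss_5_q1 :
    chkT cF6nn cF6nn T1_6ss_5_3 (13616, 1824) (13424, 1312) dum [(14269, 5696), (13984, 8064),
        (13296, 10800), (11728, 10800), (8448, 8048), (8112, 5696)] [(8016, 3840), (12112, 608),
        (14880, 608), (14269, 5696), (8112, 5696), (8016, 5024)] = true := by
  decide +kernel

theorem ok1_6ss_5_q2 :
    chkT cF6nn cF6nn T1_6ss_5_7 (13616, 1824) (13424, 1312) dum [(8443, 8016), (8112, 5696),
        (11184, 5696), (11184, 8016)] [(14269, 5696), (13984, 8064), (13296, 10800), (11728,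
        10800), (8448, 8048), (8112, 5696)] = true := by
  decide +kernel

theorem ok1_6ss_5_q3 :
    chkT cF6nn cF6nn T1_6ss_5_11 (13616, 1824) (13424, 1312) dum [(11184, 10344), (8448, 8048),
        (8443, 8016), (11184, 8016)] [(8443, 8016), (8112, 5696), (11184, 5696), (11184, 8016)] =
        true := by
  decide +kernel

end Pool.Agent.Work.MP_b30479_gtS.G2.SC

end

section

/-!
# Part of `SRefD1F`
-/
set_option linter.style.longLine false

set_option deprecated.oldSectionVars true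

namespace Pool.Agent.Work.MP_b30479_gtS.G2.SC

open scoped ComplexConjugate

theorem ok1_6ss_5_q4 :
    chkT cF6nn cF6nn T1_6ss_5_15 (13616, 1824) (13568, 1696) dum [(11184, 10344), (8448, 8048),
        (8443, 8016), (11184, 8016)] [(11184, 10344), (8448, 8048), (8443, 8016), (11184, 8016)] =
        true := by
  decide +kernel

theorem ok1_6ss_5_q5 :
    chkT cF6nn cF6nn T1_6ss_5_17 (13568, 1696) (13520, 1568) dum [(9782, 9168), (8448, 8048),
        (8443, 8016), (11184, 8016), (11184, 9168)] [(11184, 10344), (8448, 8048), (8443, 8016),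
        (11184, 8016)] = true := by
  decide +kernel

theorem ok1_6ss_5_q6 :
    chkT cF6nn cF6nn T1_6ss_5_18 (13568, 1696) (13520, 1568) dum [(11184, 10344), (9782, 9168),
        (11184, 9168)] [(11184, 10344), (8448, 8048), (8443, 8016), (11184, 8016)] = true := by
  decide +kernel

theorem ok1_6ss_5_q9 :
    chkT cF6nn cF6nn T1_6ss_5_21 (13520, 1568) (13424, 1312) dum [(9782, 9168), (8448, 8048),
        (8443, 8016), (11184, 8016), (11184, 9168)] [(9808, 9190), (8448, 8048), (8443, 8016),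
        (9808, 8016)] = true := by
  decide +kernel

theorem ok1_6ss_5_q10 :
    chkT cF6nn cF6nn T1_6ss_5_27 (13520, 1568) (13472, 1440) dum [(9120, 8613), (8448, 8048),
        (8443, 8016), (9120, 8016)] [(11184, 10344), (9808, 9190), (9808, 8016), (11184, 8016)] =
        true := by
  decide +kernel

theorem ok1_6ss_5_q11 :
    chkT cF6nn cF6nn T1_6ss_5_28 (13520, 1568) (13472, 1440) dum [(9782, 9168), (9120, 8613),
        (9120, 8016), (9808, 8016), (9808, 9168)] [(11184, 10344), (9808, 9190), (9808, 8016),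
        (11184, 8016)] = true := by
  decide +kernel

theorem ok1_6ss_5_q13 :
    chkT cF6nn cF6nn T1_6ss_5_26 (13520, 1568) (13472, 1440) dum [(9808, 8016), (11184, 8016),
        (11184, 9168), (9808, 9168)] [(11184, 10344), (9808, 9190), (9808, 8016), (11184, 8016)] =
        true := by
  decide +kernel

end Pool.Agent.Work.MP_b30479_gtS.G2.SC

end

section

/-!
# Part of `SRefD1F`
-/
set_option linter.style.longLine false

set_option deprecated.oldSectionVars true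

namespace Pool.Agent.Work.MP_b30479_gtS.G2.SC

open scoped ComplexConjugate

theorem ok1_6ss_5_q15 :
    chkT cF6nn cF6nn T1_6ss_5_24 (13472, 1440) (13424, 1312) dum [(9782, 9168), (8448, 8048),
        (8443, 8016), (11184, 8016), (11184, 9168)] [(11184, 10344), (9808, 9190), (9808, 8016),
        (11184, 8016)] = true := by
  decide +kernel

theorem ok1_6ss_5_q18 :
    chkT cF6nn cF6nn T1_6ss_5_20 (13520, 1568) (13424, 1312) dum [(11184, 10344), (9782, 9168),
        (11184, 9168)] [(11184, 10344), (8448, 8048), (8443, 8016), (11184, 8016)] = true := by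
  decide +kernel

theorem ok1_6ss_5_q22 :
    chkT cF6nn cF6nn T1_6ss_5_10 (13616, 1824) (13424, 1312) dum [(11184, 10344), (8448, 8048),
        (8443, 8016), (11184, 8016)] [(14269, 5696), (13984, 8064), (13296, 10800), (11728, 10800),
        (11184, 10344), (11184, 5696)] = true := by
  decide +kernel

theorem ok1_6ss_5_q25 :
    chkT cF6nn cF6nn T1_6ss_5_6 (13616, 1824) (13424, 1312) dum [(14269, 5696), (13984, 8064),
        (13296, 10800), (11728, 10800), (11184, 10344), (11184, 5696)] [(14269, 5696), (13984,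
        8064), (13296, 10800), (11728, 10800), (8448, 8048), (8112, 5696)] = true := by
  decide +kernel

theorem ok1_6ss_6 :
    chkT cF6nn cF6nn T1_6ss_6 (13424, 1312) (13616, 1040) dum n1_S3 n1_S3 = true := by
  decide +kernel

end Pool.Agent.Work.MP_b30479_gtS.G2.SC

end

section

/-!
# Refined rings, round 1, 6 crossings

Generated certificates (see `S2Cert`).
-/

set_option linter.style.longLine false

set_option deprecated.oldSectionVars true

namespace Pool.Agent.Work.MP_b30479_gtS.G2.SC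

open scoped ComplexConjugate

theorem fr1_6aa {z k l : ℂ} (hz : OnE v1_6aa z) (hk : conj k ∈ Poly p1_A2)
    (hl : conj l ∈ Poly p1_A2) :
    k ^ 2 + l ^ 2 - 2 * k * l * (32 * z ^ 6 - 48 * z ^ 4 + 18 * z ^ 2 - 1) + (z * (32 * z ^ 5 - 32 *
        z ^ 3 + 6 * z)) ^ 2 ≠ 0 := by
  have h := edge_use rpF6mm (E := L1_6aa) (V0 := dum) (V1 := n1_A2) (V2 := n1_A2) (fun e he => by
    simp only [L1_6aa, List.mem_cons, List.not_mem_nil, or_false] at he
    rcases he with rfl | rfl | rfl | rfl | rfl | rfl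
    exacts [⟨_, ok1_6aa_0⟩, ⟨_, ok1_6aa_1⟩, ⟨_, ok1_6aa_2⟩, ⟨_, ok1_6aa_3⟩, ⟨_, ok1_6aa_4⟩, ⟨_,
        ok1_6aa_5⟩]) (V := v1_6aa) (by decide) hz zero_dum (rg1_A2 hk) (rg1_A2 hl)
  rw [evF6mm (mr_true k) (mr_true l)] at h
  exact fun h0 => h (by rw [h0, mul_zero])

theorem fr1_6az {z k l : ℂ} (hz : OnE v1_6az z) (hk : conj k ∈ Poly p1_A2)
    (hl : l ∈ Poly p1_Z) :
    k ^ 2 + l ^ 2 - 2 * k * l * (32 * z ^ 6 - 48 * z ^ 4 + 18 * z ^ 2 - 1) + (z * (32 * z ^ 5 - 32 *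
        z ^ 3 + 6 * z)) ^ 2 ≠ 0 := by
  have h := edge_use rpF6mn (E := L1_6az) (V0 := dum) (V1 := n1_A2) (V2 := n1_Z) (fun e he => by
    simp only [L1_6az, List.mem_cons, List.not_mem_nil, or_false] at he
    rcases he with rfl | rfl | rfl | rfl | rfl | rfl | rfl
    exacts [⟨_, ok1_6az_0⟩, ⟨_, ok1_6az_1⟩, ⟨_, ok1_6az_2⟩, ⟨_, ok1_6az_3⟩, ⟨_, ok1_6az_4⟩, ⟨_,
        ok1_6az_5⟩, ⟨_, ok1_6az_6⟩]) (V := v1_6az) (by decide) hz zero_dum (rg1_A2 hk) (rg1_Z hl)
  rw [evF6mn (mr_true k) (mr_false l)] at h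
  exact fun h0 => h (by rw [h0, mul_zero])

theorem fr1_6as {z k l : ℂ} (hz : OnE v1_6as z) (hk : conj k ∈ Poly p1_A2)
    (hl : l ∈ Poly p1_S3) :
    k ^ 2 + l ^ 2 - 2 * k * l * (32 * z ^ 6 - 48 * z ^ 4 + 18 * z ^ 2 - 1) + (z * (32 * z ^ 5 - 32 *
        z ^ 3 + 6 * z)) ^ 2 ≠ 0 := by
  have h := edge_use rpF6mn (E := L1_6as) (V0 := dum) (V1 := n1_A2) (V2 := n1_S3) (fun e he => by
    simp only [L1_6as, List.mem_cons, List.not_mem_nil, or_false] at he
    rcases he with rfl | rfl | rfl | rfl | rfl | rfl | rfl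
    exacts [⟨_, ok1_6as_0⟩, ⟨_, ok1_6as_1⟩, ⟨_, ok1_6as_2⟩, ⟨_, ok1_6as_3⟩, ⟨_, ok1_6as_4⟩, ⟨_,
        ok1_6as_5⟩, ⟨_, ok1_6as_6⟩]) (V := v1_6as) (by decide) hz zero_dum (rg1_A2 hk) (rg1_S3 hl)
  rw [evF6mn (mr_true k) (mr_false l)] at h
  exact fun h0 => h (by rw [h0, mul_zero])

theorem fr1_6zs {z k l : ℂ} (hz : OnE v1_6zs z) (hk : k ∈ Poly p1_Z)
    (hl : l ∈ Poly p1_S3) :
    k ^ 2 + l ^ 2 - 2 * k * l * (32 * z ^ 6 - 48 * z ^ 4 + 18 * z ^ 2 - 1) + (z * (32 * z ^ 5 - 32 *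
        z ^ 3 + 6 * z)) ^ 2 ≠ 0 := by
  have h := edge_use rpF6nn (E := L1_6zs) (V0 := dum) (V1 := n1_Z) (V2 := n1_S3) (fun e he => by
    simp only [L1_6zs, List.mem_cons, List.not_mem_nil, or_false] at he
    rcases he with rfl | rfl | rfl | rfl | rfl | rfl | rfl
    exacts [⟨_, ok1_6zs_0⟩, ⟨_, ok1_6zs_1⟩, ⟨_, ok1_6zs_2⟩, ⟨_, ok1_6zs_3⟩, ⟨_, ok1_6zs_4⟩, ⟨_,
        ok1_6zs_5⟩, ⟨_, ok1_6zs_6⟩]) (V := v1_6zs) (by decide) hz zero_dum (rg1_Z hk) (rg1_S3 hl)
  rw [evF6nn (mr_false k) (mr_false l)] at h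
  exact fun h0 => h (by rw [h0, mul_zero])

theorem ok1_6ss_5_r7 :
    chkT cF6nn cF6nn T1_6ss_5_16 (13568, 1696) (13520, 1568) dum [(11184, 10344), (8448, 8048),
        (8443, 8016), (11184, 8016)] [(11184, 10344), (8448, 8048), (8443, 8016), (11184, 8016)] =
        true :=
  chkT_cut1 (by decide +kernel)
    ok1_6ss_5_q5
    ok1_6ss_5_q6

theorem ok1_6ss_5_r8 :
    chkT cF6nn cF6nn T1_6ss_5_13 (13616, 1824) (13520, 1568) dum [(11184, 10344), (8448, 8048),
        (8443, 8016), (11184, 8016)] [(11184, 10344), (8448, 8048), (8443, 8016), (11184, 8016)] =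
        true :=
  chkT_seg (by decide +kernel)
    ok1_6ss_5_q4
    ok1_6ss_5_r7

theorem ok1_6ss_5_r12 :
    chkT cF6nn cF6nn T1_6ss_5_25 (13520, 1568) (13472, 1440) dum [(9782, 9168), (8448, 8048),
        (8443, 8016), (9808, 8016), (9808, 9168)] [(11184, 10344), (9808, 9190), (9808, 8016),
        (11184, 8016)] = true :=
  chkT_cut1 (by decide +kernel)
    ok1_6ss_5_q10
    ok1_6ss_5_q11

theorem ok1_6ss_5_r14 :
    chkT cF6nn cF6nn T1_6ss_5_23 (13520, 1568) (13472, 1440) dum [(9782, 9168), (8448, 8048),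
        (8443, 8016), (11184, 8016), (11184, 9168)] [(11184, 10344), (9808, 9190), (9808, 8016),
        (11184, 8016)] = true :=
  chkT_cut1 (by decide +kernel)
    ok1_6ss_5_r12
    ok1_6ss_5_q13

theorem ok1_6ss_5_r16 :
    chkT cF6nn cF6nn T1_6ss_5_22 (13520, 1568) (13424, 1312) dum [(9782, 9168), (8448, 8048),
        (8443, 8016), (11184, 8016), (11184, 9168)] [(11184, 10344), (9808, 9190), (9808, 8016),
        (11184, 8016)] = true :=
  chkT_seg (by decide +kernel)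
    ok1_6ss_5_r14
    ok1_6ss_5_q15

theorem ok1_6ss_5_r17 :
    chkT cF6nn cF6nn T1_6ss_5_19 (13520, 1568) (13424, 1312) dum [(9782, 9168), (8448, 8048),
        (8443, 8016), (11184, 8016), (11184, 9168)] [(11184, 10344), (8448, 8048), (8443, 8016),
        (11184, 8016)] = true :=
  chkT_cut2 (by decide +kernel)
    ok1_6ss_5_q9
    ok1_6ss_5_r16

theorem ok1_6ss_5_r19 :
    chkT cF6nn cF6nn T1_6ss_5_14 (13520, 1568) (13424, 1312) dum [(11184, 10344), (8448, 8048),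
        (8443, 8016), (11184, 8016)] [(11184, 10344), (8448, 8048), (8443, 8016), (11184, 8016)] =
        true :=
  chkT_cut1 (by decide +kernel)
    ok1_6ss_5_r17
    ok1_6ss_5_q18

theorem ok1_6ss_5_r20 :
    chkT cF6nn cF6nn T1_6ss_5_12 (13616, 1824) (13424, 1312) dum [(11184, 10344), (8448, 8048),
        (8443, 8016), (11184, 8016)] [(11184, 10344), (8448, 8048), (8443, 8016), (11184, 8016)] =
        true :=
  chkT_seg (by decide +kernel)
    ok1_6ss_5_r8
    ok1_6ss_5_r19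

theorem ok1_6ss_5_r21 :
    chkT cF6nn cF6nn T1_6ss_5_9 (13616, 1824) (13424, 1312) dum [(11184, 10344), (8448, 8048),
        (8443, 8016), (11184, 8016)] [(11184, 10344), (8448, 8048), (8112, 5696), (11184, 5696)] =
        true :=
  chkT_cut2 (by decide +kernel)
    ok1_6ss_5_q3
    ok1_6ss_5_r20

theorem ok1_6ss_5_r23 :
    chkT cF6nn cF6nn T1_6ss_5_8 (13616, 1824) (13424, 1312) dum [(11184, 10344), (8448, 8048),
        (8443, 8016), (11184, 8016)] [(14269, 5696), (13984, 8064), (13296, 10800), (11728, 10800),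
        (8448, 8048), (8112, 5696)] = true :=
  chkT_cut2 (by decide +kernel)
    ok1_6ss_5_r21
    ok1_6ss_5_q22

theorem ok1_6ss_5_r24 :
    chkT cF6nn cF6nn T1_6ss_5_5 (13616, 1824) (13424, 1312) dum [(11184, 10344), (8448, 8048),
        (8112, 5696), (11184, 5696)] [(14269, 5696), (13984, 8064), (13296, 10800), (11728, 10800),
        (8448, 8048), (8112, 5696)] = true :=
  chkT_cut1 (by decide +kernel)
    ok1_6ss_5_q2
    ok1_6ss_5_r23

theorem ok1_6ss_5_r26 :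
    chkT cF6nn cF6nn T1_6ss_5_4 (13616, 1824) (13424, 1312) dum [(14269, 5696), (13984, 8064),
        (13296, 10800), (11728, 10800), (8448, 8048), (8112, 5696)] [(14269, 5696), (13984, 8064),
        (13296, 10800), (11728, 10800), (8448, 8048), (8112, 5696)] = true :=
  chkT_cut1 (by decide +kernel)
    ok1_6ss_5_r24
    ok1_6ss_5_q25

theorem ok1_6ss_5_r27 :
    chkT cF6nn cF6nn T1_6ss_5_2 (13616, 1824) (13424, 1312) dum [(14269, 5696), (13984, 8064),
        (13296, 10800), (11728, 10800), (8448, 8048), (8112, 5696)] n1_S3 = true :=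
  chkT_cut2 (by decide +kernel)
    ok1_6ss_5_q1
    ok1_6ss_5_r26

theorem ok1_6ss_5 :
    chkT cF6nn cF6nn T1_6ss_5 (13616, 1824) (13424, 1312) dum n1_S3 n1_S3 = true :=
  chkT_cut1 (by decide +kernel)
    ok1_6ss_5_q0
    ok1_6ss_5_r27

theorem fr1_6ss {z k l : ℂ} (hz : OnE v1_6ss z) (hk : k ∈ Poly p1_S3)
    (hl : l ∈ Poly p1_S3) :
    k ^ 2 + l ^ 2 - 2 * k * l * (32 * z ^ 6 - 48 * z ^ 4 + 18 * z ^ 2 - 1) + (z * (32 * z ^ 5 - 32 *
        z ^ 3 + 6 * z)) ^ 2 ≠ 0 := by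
  have h := edge_use rpF6nn (E := L1_6ss) (V0 := dum) (V1 := n1_S3) (V2 := n1_S3) (fun e he => by
    simp only [L1_6ss, List.mem_cons, List.not_mem_nil, or_false] at he
    rcases he with rfl | rfl | rfl | rfl | rfl | rfl | rfl
    exacts [⟨_, ok1_6ss_0⟩, ⟨_, ok1_6ss_1⟩, ⟨_, ok1_6ss_2⟩, ⟨_, ok1_6ss_3⟩, ⟨_, ok1_6ss_4⟩, ⟨_,
        ok1_6ss_5⟩, ⟨_, ok1_6ss_6⟩]) (V := v1_6ss) (by decide) hz zero_dum (rg1_S3 hk) (rg1_S3 hl)
  rw [evF6nn (mr_false k) (mr_false l)] at h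
  exact fun h0 => h (by rw [h0, mul_zero])

end Pool.Agent.Work.MP_b30479_gtS.G2.SC

end
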