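import Pool.Agent.Work.MP_b30479_gt.TBS.G2.ZRAe

/-!
# Refined rings, round 2, 6 crossings

Generated certificates (see `S2Cert`).
-/

set_option linter.style.longLine false

set_option deprecated.oldSectionVars true

namespace Pool.Agent.Work.MP_b30479_gtS.G2.SC

open scoped ComplexConjugate

/-- edges -/
def L2_6ea : List ((ℕ × ℕ) × (ℕ × ℕ)) :=
  [((13984, 480), (14064, 256)), ((14064, 256), (14192, 256)), ((14192, 256), (14336, 384)),
      ((14336, 384), (14384, 432)), ((14384, 432), (14016, 720)), ((14016, 720), (13984, 480))]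

/-- tree -/
def T2_6ea_0 : CT :=
  .rel2 [(6752, 3952), (10704, 1360), (14512, 0), (16000, 0), (8124, 29701)] (.leaf ⟨7, 0, 10, 0⟩)

theorem ok2_6ea_0 :
    chkT cG6m cG6m T2_6ea_0 (13984, 480) (14064, 256) dum dum n2_A2 = true := by
  decide +kernel

/-- tree -/
def T2_6ea_1 : CT :=
  .rel2 [(16000, 0), (12643, 12660), (6912, 6928), (6535, 0)] (.leaf ⟨79, 0, 0, 13⟩)

theorem ok2_6ea_1 :
    chkT cG6m cG6m T2_6ea_1 (14064, 256) (14192, 256) dum dum n2_A2 = true := by
  decide +kernel

/-- tree -/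
def T2_6ea_2 : CT :=
  .rel2 [(14512, 0), (16000, 0), (12943, 11528), (2663, 4225)] (.leaf ⟨7, 0, 0, 10⟩)

theorem ok2_6ea_2 :
    chkT cG6m cG6m T2_6ea_2 (14192, 256) (14336, 384) dum dum n2_A2 = true := by
  decide +kernel

/-- tree -/
def T2_6ea_3 : CT :=
  .rel2 [(14512, 0), (16000, 0), (13136, 10800), (11312, 10368), (2664, 4228)] (.leaf ⟨1, 0, 0, 2⟩)

theorem ok2_6ea_3 :
    chkT cG6m cG6m T2_6ea_3 (14336, 384) (14384, 432) dum dum n2_A2 = true := by
  decide +kernel

/-- tree -/
def T2_6ea_4 : CT :=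
  .cut2 false 11376 [(6752, 3952), (10704, 1360), (11376, 1120), (11376, 10384), (11312, 10368),
      (8000, 8016), (6912, 6928)] [(11376, 1120), (14512, 0), (16000, 0), (13136, 10800), (11376,
      10384)] (.rel2 [(3804, 3820), (11376, 1120), (11376, 11394)] (.leaf ⟨0, 1, 0, 0⟩)) (.seg
      (14200, 576) (.rel2 [(16000, 0), (13136, 10800), (11376, 10384), (11375, 0)] (.leaf ⟨0, 19, 0,
      6⟩)) (.rel2 [(16000, 0), (13136, 10800), (11376, 10384), (11375, 0)] (.leaf ⟨0, 39, 0, 9⟩)))

theorem ok2_6ea_4 :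
    chkT cG6m cG6m T2_6ea_4 (14384, 432) (14016, 720) dum dum n2_A2 = true := by
  decide +kernel

/-- tree -/
def T2_6ea_5 : CT :=
  .rel2 [(14512, 0), (16000, 0), (8124, 29701), (6689, 2792)] (.leaf ⟨1, 0, 3, 0⟩)

theorem ok2_6ea_5 :
    chkT cG6m cG6m T2_6ea_5 (14016, 720) (13984, 480) dum dum n2_A2 = true := by
  decide +kernel

theorem fr2_6ea {z k : ℂ} (hz : OnE v2_6ea z) (hk : conj k ∈ Poly p2_A2) :
    k + Complex.I * z * (32 * z ^ 5 - 32 * z ^ 3 + 6 * z) ≠ 0 := by
  have h := edge_use rpG6m (E := L2_6ea) (V0 := dum) (V1 := dum) (V2 := n2_A2) (fun e he => by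
    simp only [L2_6ea, List.mem_cons, List.not_mem_nil, or_false] at he
    rcases he with rfl | rfl | rfl | rfl | rfl | rfl
    exacts [⟨_, ok2_6ea_0⟩, ⟨_, ok2_6ea_1⟩, ⟨_, ok2_6ea_2⟩, ⟨_, ok2_6ea_3⟩, ⟨_, ok2_6ea_4⟩, ⟨_,
        ok2_6ea_5⟩]) (V := v2_6ea) (by decide) hz zero_dum zero_dum (rg2_A2 hk)
  rw [evG6m (mr_true k)] at h
  exact fun h0 => h (by rw [h0, mul_zero])

/-- edges -/
def L2_6ez : List ((ℕ × ℕ) × (ℕ × ℕ)) :=
  [((13824, 640), (13872, 528)), ((13872, 528), (14048, 640)), ((14048, 640), (14048, 704)),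
      ((14048, 704), (13840, 656)), ((13840, 656), (13824, 640))]

/-- tree -/
def T2_6ez_0 : CT :=
  .rel2 [(17760, 0), (12892, 3787), (9446, 0)] (.leaf ⟨2, 0, 2, 0⟩)

theorem ok2_6ez_0 :
    chkT cG6n cG6n T2_6ez_0 (13824, 640) (13872, 528) dum dum n2_Z = true := by
  decide +kernel

/-- tree -/
def T2_6ez_1 : CT :=
  .rel2 [(14352, 0), (17760, 0), (12892, 3787), (11203, 1931)] (.leaf ⟨6, 0, 0, 10⟩)

theorem ok2_6ez_1 :
    chkT cG6n cG6n T2_6ez_1 (13872, 528) (14048, 640) dum dum n2_Z = true := by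
  decide +kernel

/-- tree -/
def T2_6ez_2 : CT :=
  .rel2 [(16000, 0), (12977, 3882), (9448, 0)] (.leaf ⟨0, 1, 0, 2⟩)

theorem ok2_6ez_2 :
    chkT cG6n cG6n T2_6ez_2 (14048, 640) (14048, 704) dum dum n2_Z = true := by
  decide +kernel

/-- tree -/
def T2_6ez_3 : CT :=
  .rel2 [(9446, 0), (16000, 0), (12977, 3882)] (.leaf ⟨0, 6, 5, 0⟩)

theorem ok2_6ez_3 :
    chkT cG6n cG6n T2_6ez_3 (14048, 704) (13840, 656) dum dum n2_Z = true := by
  decide +kernel

/-- tree -/
def T2_6ez_4 : CT :=
  .rel2 [(9441, 0), (17760, 0), (12892, 3787)] (.leaf ⟨0, 0, 1, 0⟩)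

theorem ok2_6ez_4 :
    chkT cG6n cG6n T2_6ez_4 (13840, 656) (13824, 640) dum dum n2_Z = true := by
  decide +kernel

theorem fr2_6ez {z k : ℂ} (hz : OnE v2_6ez z) (hk : k ∈ Poly p2_Z) :
    k + Complex.I * z * (32 * z ^ 5 - 32 * z ^ 3 + 6 * z) ≠ 0 := by
  have h := edge_use rpG6n (E := L2_6ez) (V0 := dum) (V1 := dum) (V2 := n2_Z) (fun e he => by
    simp only [L2_6ez, List.mem_cons, List.not_mem_nil, or_false] at he
    rcases he with rfl | rfl | rfl | rfl | rfl
    exacts [⟨_, ok2_6ez_0⟩, ⟨_, ok2_6ez_1⟩, ⟨_, ok2_6ez_2⟩, ⟨_, ok2_6ez_3⟩, ⟨_, ok2_6ez_4⟩]) (V :=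
        v2_6ez) (by decide) hz zero_dum zero_dum (rg2_Z hk)
  rw [evG6n (mr_false k)] at h
  exact fun h0 => h (by rw [h0, mul_zero])

/-- edges -/
def L2_6es : List ((ℕ × ℕ) × (ℕ × ℕ)) :=
  [((13552, 544), (13680, 448)), ((13680, 448), (13760, 432)), ((13760, 432), (13920, 656)),
      ((13920, 656), (13568, 880)), ((13568, 880), (13488, 768)), ((13488, 768), (13552, 544))]

/-- tree -/
def T2_6es_0 : CT :=
  .rel2 [(15532, 2124), (11687, 15699), (8464, 6576), (7997, 3658)] (.leaf ⟨39, 0, 9, 0⟩)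

theorem ok2_6es_0 :
    chkT cG6n cG6n T2_6es_0 (13552, 544) (13680, 448) dum dum n2_S3 = true := by
  decide +kernel

/-- tree -/
def T2_6es_1 : CT :=
  .rel2 [(8448, 3568), (15532, 2124), (12768, 11883), (7662, 6572)] (.leaf ⟨19, 0, 0, 6⟩)

theorem ok2_6es_1 :
    chkT cG6n cG6n T2_6es_1 (13680, 448) (13760, 432) dum dum n2_S3 = true := by
  decide +kernel

/-- tree -/
def T2_6es_2 : CT :=
  .rel2 [(8448, 3568), (13792, 2480), (13915, 10931), (6915, 9418)] (.leaf ⟨1, 0, 0, 5⟩)

theorem ok2_6es_2 :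
    chkT cG6n cG6n T2_6es_2 (13760, 432) (13920, 656) dum dum n2_S3 = true := by
  decide +kernel

/-- tree -/
def T2_6es_3 : CT :=
  .cut2 false 11008 [(8160, 4672), (8448, 3568), (11008, 3046), (11008, 10052), (8928, 7888), (8464,
      6576)] [(11008, 3046), (13792, 2480), (13872, 7984), (13088, 10752), (11312, 10368), (11008,
      10052)] (.rel2 [(11008, 3046), (11008, 10052), (5372, 4190)] (.leaf ⟨0, 1, 0, 0⟩)) (.seg
      (13744, 768) (.rel2 [(13792, 2480), (13872, 7984), (12768, 11882), (5370, 4190)] (.leaf ⟨0, 1,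
      0, 0⟩)) (.cut2 true 6608 [(11008, 3046), (13792, 2480), (13852, 6608), (11008, 6608)] [(13852,
      6608), (13872, 7984), (13088, 10752), (11312, 10368), (11008, 10052), (11008, 6608)] (.leaf
      ⟨0, 1, 2, 0⟩) (.seg (13656, 824) (.cut2 false 12432 [(12432, 10611), (11312, 10368), (11008,
      10052), (11008, 6608), (12432, 6608)] [(13852, 6608), (13872, 7984), (13088, 10752), (12432,
      10611), (12432, 6608)] (.rel2 [(11008, 6608), (12432, 6608), (12432, 10611), (11007, 10302)]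
      (.leaf ⟨0, 1, 0, 0⟩)) (.cut2 true 8672 [(13852, 6608), (13872, 7984), (13678, 8672), (12432,
      8672), (12432, 6608)] [(13678, 8672), (13088, 10752), (12432, 10611), (12432, 8672)] (.cut2
      false 13152 [(13152, 8672), (12432, 8672), (12432, 6608), (13152, 6608)] [(13852, 6608),
      (13872, 7984), (13678, 8672), (13152, 8672), (13152, 6608)] (.leaf ⟨0, 1, 0, 0⟩) (.seg (13700,
      796) (.rel2 [(13152, 6608), (13852, 6608), (13872, 7984), (13152, 10538)] (.leaf ⟨0, 1, 0,
      0⟩)) (.rel2 [(13152, 10538), (13152, 6608), (14260, 6608)] (.leaf ⟨0, 39, 9, 0⟩)))) (.rel2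
      [(12432, 8672), (13678, 8672), (12432, 13065)] (.leaf ⟨0, 1, 0, 0⟩)))) (.rel2 [(13088, 10752),
      (11007, 10303), (11008, 6608), (14262, 6608)] (.leaf ⟨0, 19, 6, 0⟩)))))

theorem ok2_6es_3 :
    chkT cG6n cG6n T2_6es_3 (13920, 656) (13568, 880) dum dum n2_S3 = true := by
  decide +kernel

/-- tree -/
def T2_6es_4 : CT :=
  .rel2 [(15532, 2125), (13088, 10752), (11312, 10368), (5373, 4191)] (.leaf ⟨1, 0, 5, 0⟩)

theorem ok2_6es_4 :
    chkT cG6n cG6n T2_6es_4 (13568, 880) (13488, 768) dum dum n2_S3 = true := by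
  decide +kernel

/-- tree -/
def T2_6es_5 : CT :=
  .rel2 [(15532, 2125), (12768, 11883), (5372, 4189)] (.leaf ⟨29, 0, 28, 0⟩)

theorem ok2_6es_5 :
    chkT cG6n cG6n T2_6es_5 (13488, 768) (13552, 544) dum dum n2_S3 = true := by
  decide +kernel

theorem fr2_6es {z k : ℂ} (hz : OnE v2_6es z) (hk : k ∈ Poly p2_S3) :
    k + Complex.I * z * (32 * z ^ 5 - 32 * z ^ 3 + 6 * z) ≠ 0 := by
  have h := edge_use rpG6n (E := L2_6es) (V0 := dum) (V1 := dum) (V2 := n2_S3) (fun e he => by
    simp only [L2_6es, List.mem_cons, List.not_mem_nil, or_false] at he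
    rcases he with rfl | rfl | rfl | rfl | rfl | rfl
    exacts [⟨_, ok2_6es_0⟩, ⟨_, ok2_6es_1⟩, ⟨_, ok2_6es_2⟩, ⟨_, ok2_6es_3⟩, ⟨_, ok2_6es_4⟩, ⟨_,
        ok2_6es_5⟩]) (V := v2_6es) (by decide) hz zero_dum zero_dum (rg2_S3 hk)
  rw [evG6n (mr_false k)] at h
  exact fun h0 => h (by rw [h0, mul_zero])

/-- edges -/
def L2_6aa : List ((ℕ × ℕ) × (ℕ × ℕ)) :=
  [((14272, 464), (14464, 400)), ((14464, 400), (14624, 464)), ((14624, 464), (14816, 576)),
      ((14816, 576), (14464, 1184)), ((14464, 1184), (14384, 1072)), ((14384, 1072), (14256, 816)),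
      ((14256, 816), (14272, 464))]

/-- tree -/
def T2_6aa_0 : CT :=
  .rel1 [(8000, 8016), (6912, 6928), (6752, 3952), (10704, 1360), (14512, 0), (16000, 0), (12943,
      11528)] (.rel2 [(8000, 8016), (6912, 6928), (6752, 3952), (10704, 1360), (14512, 0), (16000,
      0), (12943, 11528)] (.rel1 [(6912, 6928), (6752, 3952), (10704, 1360), (14512, 0), (16000, 0),
      (12643, 12660)] (.rel2 [(6912, 6928), (6752, 3952), (10704, 1360), (14512, 0), (16000, 0),
      (12643, 12660)] (.leaf ⟨6, 0, 5, 0⟩))))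

theorem ok2_6aa_0 :
    chkT cF6mm cF6mm T2_6aa_0 (14272, 464) (14464, 400) dum n2_A2 n2_A2 = true := by
  decide +kernel

/-- tree -/
def T2_6aa_1 : CT :=
  .cut1 false 11376 [(6752, 3952), (10704, 1360), (11376, 1120), (11376, 10384), (11312, 10368),
      (8000, 8016), (6912, 6928)] [(11376, 1120), (14512, 0), (16000, 0), (13136, 10800), (11376,
      10384)] (.cut2 false 11376 [(6752, 3952), (10704, 1360), (11376, 1120), (11376, 10384),
      (11312, 10368), (8000, 8016), (6912, 6928)] [(11376, 1120), (14512, 0), (16000, 0), (13136,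
      10800), (11376, 10384)] (.cut1 true 5744 [(6752, 3952), (10704, 1360), (11376, 1120), (11376,
      5744), (6848, 5744)] [(11376, 5744), (11376, 10384), (11312, 10368), (8000, 8016), (6912,
      6928), (6848, 5744)] (.rel1 [(11376, 1120), (11376, 5744), (6848, 5744), (6688, 2792)] (.rel2
      [(11376, 1120), (11376, 10414), (2663, 4226)] (.leaf ⟨1, 0, 0, 0⟩))) (.cut2 true 5744 [(6752,
      3952), (10704, 1360), (11376, 1120), (11376, 5744), (6848, 5744)] [(11376, 5744), (11376,
      10384), (11312, 10368), (8000, 8016), (6912, 6928), (6848, 5744)] (.rel1 [(8000, 8016), (6912,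
      6928), (6848, 5744), (11376, 5744), (11376, 10414)] (.rel2 [(11376, 1120), (11376, 5744),
      (6848, 5744), (6688, 2792)] (.rel1 [(11376, 5744), (11376, 10414), (4799, 5743)] (.leaf ⟨1, 0,
      0, 0⟩)))) (.seg (14544, 432) (.rel1 [(8000, 8016), (6912, 6928), (6848, 5744), (11376, 5744),
      (11376, 10414)] (.rel2 [(8000, 8016), (6912, 6928), (6848, 5744), (11376, 5744), (11376,
      10414)] (.rel1 [(6912, 6928), (6848, 5744), (11376, 5744), (11376, 11392)] (.rel2 [(6912,
      6928), (6848, 5744), (11376, 5744), (11376, 11392)] (.leaf ⟨79, 0, 13, 0⟩))))) (.rel1 [(8000,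
      8016), (6912, 6928), (6848, 5744), (11376, 5744), (11376, 10414)] (.rel2 [(8000, 8016), (6912,
      6928), (6848, 5744), (11376, 5744), (11376, 10414)] (.rel1 [(11376, 5744), (11376, 10414),
      (8000, 8016), (5727, 5743)] (.rel2 [(11376, 5744), (11376, 10414), (8000, 8016), (5727, 5743)]
      (.rel1 [(11376, 5744), (11376, 10414), (4798, 5742)] (.leaf ⟨1, 0, 0, 0⟩))))))))) (.rel1
      [(11376, 10384), (11312, 10368), (8000, 8016), (6912, 6928), (6752, 3952), (11376, 918)]
      (.rel2 [(16000, 0), (13136, 10800), (11376, 10384), (11375, 0)] (.rel1 [(11376, 918), (11376,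
      10414), (4425, 5478)] (.leaf ⟨79, 0, 13, 0⟩))))) (.rel1 [(16000, 0), (13136, 10800), (11376,
      10384), (11375, 0)] (.rel2 [(16000, 0), (12943, 11528), (6928, 7255), (6538, 0)] (.leaf ⟨11,
      0, 5, 0⟩)))

theorem ok2_6aa_1 :
    chkT cF6mm cF6mm T2_6aa_1 (14464, 400) (14624, 464) dum n2_A2 n2_A2 = true := by
  decide +kernel

/-- tree -/
def T2_6aa_2 : CT :=
  .rel1 [(10704, 1360), (14512, 0), (16000, 0), (13136, 10800), (11312, 10368), (8000, 8016), (5050,
      5066)] (.rel2 [(14512, 0), (16000, 0), (13136, 10800), (11312, 10368), (8000, 8016), (6912,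
      6928), (6688, 2792)] (.rel1 [(16000, 0), (13136, 10800), (11312, 10368), (8000, 8016), (5050,
      5066), (12777, 0)] (.rel2 [(6688, 2792), (14512, 0), (16000, 0), (13136, 10800), (11312,
      10368), (6928, 7255)] (.rel1 [(12777, 0), (16000, 0), (13136, 10800), (11312, 10368), (4422,
      5476)] (.rel2 [(16000, 0), (13136, 10800), (11312, 10368), (6928, 7255), (6536, 0)] (.leaf
      ⟨79, 0, 0, 13⟩))))))

theorem ok2_6aa_2 :
    chkT cF6mm cF6mm T2_6aa_2 (14624, 464) (14816, 576) dum n2_A2 n2_A2 = true := by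
  decide +kernel

/-- tree -/
def T2_6aa_3 : CT :=
  .seg (14640, 880) (.seg (14728, 728) (.rel1 [(6752, 3952), (10704, 1360), (14512, 0), (16000, 0),
      (13136, 10800), (11312, 10368), (6928, 7255)] (.rel2 [(14512, 0), (16000, 0), (13136, 10800),
      (11312, 10368), (8000, 8016), (6912, 6928), (6688, 2792)] (.rel1 [(14512, 0), (16000, 0),
      (13136, 10800), (11312, 10368), (6928, 7255), (6689, 2792)] (.rel2 [(6912, 6928), (6688,
      2792), (14512, 0), (16000, 0), (13136, 10800), (10053, 10070)] (.rel1 [(14512, 0), (16000, 0),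
      (13136, 10800), (11312, 10368), (2664, 4228)] (.rel2 [(16000, 0), (13136, 10800), (10053,
      10070), (6912, 6928), (6535, 0)] (.rel1 [(2664, 4228), (14512, 0), (16000, 0), (12943, 11528)]
      (.rel2 [(6535, 0), (16000, 0), (13136, 10800), (7043, 9358)] (.leaf ⟨0, 2, 0, 5⟩)))))))))
      (.rel1 [(14512, 0), (16000, 0), (13136, 10800), (11312, 10368), (8000, 8016), (6912, 6928),
      (6688, 2792)] (.rel2 [(14512, 0), (16000, 0), (13136, 10800), (11312, 10368), (8000, 8016),
      (6912, 6928), (6688, 2792)] (.rel1 [(6912, 6928), (6688, 2792), (14512, 0), (16000, 0),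
      (13136, 10800), (10053, 10070)] (.rel2 [(6912, 6928), (6688, 2792), (14512, 0), (16000, 0),
      (13136, 10800), (10053, 10070)] (.rel1 [(14512, 0), (16000, 0), (13136, 10800), (10053,
      10070), (3804, 3820)] (.rel2 [(14512, 0), (16000, 0), (13136, 10800), (10053, 10070), (3804,
      3820)] (.leaf ⟨0, 3, 0, 4⟩)))))))) (.seg (14552, 1032) (.rel1 [(14512, 0), (16000, 0), (13136,
      10800), (11312, 10368), (8000, 8016), (6912, 6928), (6688, 2792)] (.rel2 [(10704, 1360),
      (14512, 0), (16000, 0), (13136, 10800), (11312, 10368), (8000, 8016), (5050, 5066)] (.rel1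
      [(6912, 6928), (6688, 2792), (14512, 0), (16000, 0), (13136, 10800), (10053, 10070)] (.rel2
      [(16000, 0), (13136, 10800), (11312, 10368), (8000, 8016), (5050, 5066), (12777, 0)] (.rel1
      [(14512, 0), (16000, 0), (13136, 10800), (10053, 10070), (3804, 3820)] (.rel2 [(12777, 0),
      (16000, 0), (13136, 10800), (769, 7872)] (.leaf ⟨0, 10, 0, 7⟩))))))) (.cut2 true 5392 [(6752,
      3952), (10704, 1360), (14512, 0), (16000, 0), (14571, 5392), (6829, 5392)] [(14571, 5392),
      (13136, 10800), (11312, 10368), (8000, 8016), (6912, 6928), (6829, 5392)] (.cut1 true 5392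
      [(6752, 3952), (10704, 1360), (14512, 0), (16000, 0), (14571, 5392), (6829, 5392)] [(14571,
      5392), (13136, 10800), (11312, 10368), (8000, 8016), (6912, 6928), (6829, 5392)] (.cut1 false
      11376 [(6752, 3952), (10704, 1360), (11376, 1120), (11376, 5392), (6829, 5392)] [(11376,
      1120), (14512, 0), (16000, 0), (14571, 5392), (11376, 5392)] (.rel1 [(11376, 1120), (11376,
      5392), (6829, 5392), (6689, 2792)] (.rel2 [(16000, 0), (14571, 5392), (6829, 5392), (6537, 0)]
      (.leaf ⟨0, 1, 0, 0⟩))) (.cut2 false 11376 [(6752, 3952), (10704, 1360), (11376, 1120), (11376,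
      5392), (6829, 5392)] [(11376, 1120), (14512, 0), (16000, 0), (14571, 5392), (11376, 5392)]
      (.rel1 [(16000, 0), (14571, 5392), (11376, 5392), (11375, 0)] (.rel2 [(11376, 1120), (11376,
      5392), (6829, 5392), (6689, 2792)] (.rel1 [(11375, 0), (16000, 0), (11378, 17441)] (.leaf ⟨0,
      1, 0, 0⟩)))) (.cut1 false 13680 [(11376, 1120), (13680, 297), (13680, 5392), (11376, 5392)]
      [(13680, 297), (14512, 0), (16000, 0), (14571, 5392), (13680, 5392)] (.rel2 [(11375, 0),
      (16000, 0), (11378, 17441)] (.leaf ⟨0, 1, 0, 0⟩)) (.cut2 false 13680 [(11376, 1120), (13680,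
      297), (13680, 5392), (11376, 5392)] [(13680, 297), (14512, 0), (16000, 0), (14571, 5392),
      (13680, 5392)] (.rel1 [(16000, 0), (14571, 5392), (13680, 5392), (13679, 0)] (.leaf ⟨0, 1, 0,
      0⟩)) (.seg (14508, 1108) (.rel1 [(16000, 0), (14571, 5392), (13680, 5392), (13679, 0)] (.rel2
      [(16000, 0), (14571, 5392), (13680, 5392), (13679, 0)] (.leaf ⟨0, 7, 0, 4⟩))) (.rel1 [(16000,
      0), (14571, 5392), (13680, 5392), (13679, 0)] (.rel2 [(16000, 0), (14571, 5392), (13680,
      5392), (13679, 0)] (.leaf ⟨0, 39, 0, 9⟩)))))))) (.rel1 [(8000, 8016), (6912, 6928), (6829,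
      5392), (14571, 5392), (12943, 11528)] (.rel2 [(10704, 1360), (14512, 0), (16000, 0), (14571,
      5392), (4555, 5392)] (.rel1 [(6829, 5392), (14571, 5392), (12943, 11528), (6928, 7255)] (.rel2
      [(16000, 0), (14571, 5392), (4555, 5392), (12777, 0)] (.rel1 [(14571, 5392), (12943, 11528),
      (4304, 5391)] (.leaf ⟨0, 1, 0, 0⟩))))))) (.rel1 [(6912, 6928), (6752, 3952), (10704, 1360),
      (14512, 0), (16000, 0), (13136, 10800), (10053, 10070)] (.rel2 [(6912, 6928), (6829, 5392),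
      (14571, 5392), (13136, 10800), (10053, 10070)] (.rel1 [(6912, 6928), (6752, 3952), (10704,
      1360), (14512, 0), (16000, 0), (12643, 12661)] (.rel2 [(6912, 6928), (6829, 5392), (14571,
      5392), (12642, 12662)] (.rel1 [(10704, 1360), (14512, 0), (16000, 0), (12643, 12661), (5050,
      5066)] (.rel2 [(6829, 5392), (14571, 5392), (8139, 29635)] (.rel1 [(16000, 0), (12643, 12661),
      (5050, 5066), (12777, 0)] (.leaf ⟨0, 1, 0, 0⟩))))))))))

theorem ok2_6aa_3 :
    chkT cF6mm cF6mm T2_6aa_3 (14816, 576) (14464, 1184) dum n2_A2 n2_A2 = true := by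
  decide +kernel

/-- tree -/
def T2_6aa_4 : CT :=
  .rel1 [(8000, 8016), (6912, 6928), (6752, 3952), (10704, 1360), (14512, 0), (16000, 0), (12943,
      11528)] (.rel2 [(8000, 8016), (6912, 6928), (6752, 3952), (10704, 1360), (14512, 0), (16000,
      0), (12943, 11528)] (.rel1 [(6752, 3952), (10704, 1360), (14512, 0), (16000, 0), (12943,
      11528), (6928, 7255)] (.rel2 [(6752, 3952), (10704, 1360), (14512, 0), (16000, 0), (12943,
      11528), (6928, 7255)] (.rel1 [(6752, 3952), (10704, 1360), (14512, 0), (16000, 0), (8124,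
      29701)] (.rel2 [(6752, 3952), (10704, 1360), (14512, 0), (16000, 0), (8124, 29701)] (.rel1
      [(14512, 0), (16000, 0), (8124, 29701), (6689, 2792)] (.rel2 [(14512, 0), (16000, 0), (8124,
      29701), (6689, 2792)] (.rel1 [(16000, 0), (8124, 29701), (6539, 0)] (.rel2 [(16000, 0), (8124,
      29701), (6539, 0)] (.leaf ⟨0, 3, 20, 0⟩))))))))))

theorem ok2_6aa_4 :
    chkT cF6mm cF6mm T2_6aa_4 (14464, 1184) (14384, 1072) dum n2_A2 n2_A2 = true := by
  decide +kernel

/-- tree -/
def T2_6aa_5 : CT :=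
  .cut1 true 5392 [(6752, 3952), (10704, 1360), (14512, 0), (16000, 0), (14571, 5392), (6829, 5392)]
      [(14571, 5392), (13136, 10800), (11312, 10368), (8000, 8016), (6912, 6928), (6829, 5392)]
      (.cut2 true 5392 [(6752, 3952), (10704, 1360), (14512, 0), (16000, 0), (14571, 5392), (6829,
      5392)] [(14571, 5392), (13136, 10800), (11312, 10368), (8000, 8016), (6912, 6928), (6829,
      5392)] (.cut1 true 2688 [(8679, 2688), (10704, 1360), (14512, 0), (16000, 0), (15288, 2688)]
      [(6752, 3952), (8679, 2688), (15288, 2688), (14571, 5392), (6829, 5392)] (.cut2 true 2688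
      [(8679, 2688), (10704, 1360), (14512, 0), (16000, 0), (15288, 2688)] [(6752, 3952), (8679,
      2688), (15288, 2688), (14571, 5392), (6829, 5392)] (.cut1 false 12336 [(8679, 2688), (10704,
      1360), (12336, 777), (12336, 2688)] [(12336, 777), (14512, 0), (16000, 0), (15288, 2688),
      (12336, 2688)] (.leaf ⟨2, 0, 12, 0⟩) (.rel1 [(12336, 777), (14512, 0), (16000, 0), (12336,
      13833)] (.leaf ⟨1, 0, 5, 0⟩))) (.rel1 [(16000, 0), (15288, 2688), (8679, 2688), (12776, 0)]
      (.rel2 [(15288, 2688), (8128, 29691), (6683, 2687)] (.leaf ⟨0, 1, 8, 0⟩)))) (.rel1 [(6752,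
      3952), (8679, 2688), (15288, 2688), (8128, 29691)] (.rel2 [(10704, 1360), (14512, 0), (16000,
      0), (14571, 5392), (4555, 5392)] (.rel1 [(15288, 2688), (8128, 29691), (6683, 2687)] (.rel2
      [(16000, 0), (14571, 5392), (4555, 5392), (12777, 0)] (.leaf ⟨0, 1, 8, 0⟩)))))) (.rel1
      [(14512, 0), (16000, 0), (14571, 5392), (6829, 5392), (6689, 2792)] (.rel2 [(6912, 6928),
      (6829, 5392), (14571, 5392), (13136, 10800), (10053, 10070)] (.rel1 [(6689, 2792), (14512, 0),
      (16000, 0), (8136, 29673)] (.rel2 [(6829, 5392), (14571, 5392), (8132, 29659)] (.leaf ⟨0, 0,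
      1, 0⟩)))))) (.rel1 [(8000, 8016), (6912, 6928), (6829, 5392), (14571, 5392), (12943, 11528)]
      (.rel2 [(8000, 8016), (6912, 6928), (6752, 3952), (10704, 1360), (14512, 0), (16000, 0),
      (12943, 11528)] (.rel1 [(6829, 5392), (14571, 5392), (12943, 11528), (6928, 7255)] (.rel2
      [(6752, 3952), (10704, 1360), (14512, 0), (16000, 0), (12943, 11528), (6928, 7255)] (.rel1
      [(14571, 5392), (12943, 11528), (4304, 5391)] (.rel2 [(16000, 0), (8124, 29701), (6539, 0)]
      (.leaf ⟨0, 1, 2, 0⟩)))))))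

theorem ok2_6aa_5 :
    chkT cF6mm cF6mm T2_6aa_5 (14384, 1072) (14256, 816) dum n2_A2 n2_A2 = true := by
  decide +kernel

/-- tree -/
def T2_6aa_6_7 : CT :=
  .cut2 false 9056 [(6752, 3952), (9056, 2440), (9056, 5392), (6829, 5392)] [(9056, 2440), (10704,
      1360), (11376, 1120), (11376, 5392), (9056, 5392)] (.cut1 false 9056 [(6752, 3952), (9056,
      2440), (9056, 5392), (6829, 5392)] [(9056, 2440), (10704, 1360), (11376, 1120), (11376,
      5392), (9056, 5392)] (.seg (14264, 640) (.rel1 [(6752, 3952), (9056, 2440), (9056, 47040)]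
      (.rel2 [(6752, 3952), (9056, 2440), (9056, 47040)] (.leaf ⟨1, 0, 8, 0⟩))) (.cut1 false 7904
      [(6752, 3952), (7904, 3196), (7904, 5392), (6829, 5392)] [(7904, 3196), (9056, 2440), (9056,
      5392), (7904, 5392)] (.rel1 [(6752, 3952), (7904, 3196), (7904, 25496)] (.rel2 [(6752, 3952),
      (9056, 2440), (9056, 47040)] (.leaf ⟨1, 0, 12, 0⟩))) (.rel2 [(6752, 3952), (9056, 2440),
      (9056, 47040)] (.leaf ⟨2, 0, 12, 0⟩)))) (.cut1 true 3248 [(9056, 2440), (10704, 1360),
      (11376, 1120), (11376, 3248), (9056, 3248)] [(11376, 3248), (11376, 5392), (9056, 5392),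
      (9056, 3248)] (.seg (14264, 640) (.cut2 true 3904 [(6825, 3904), (9056, 2440), (9056, 3904)]
      [(6752, 3952), (6825, 3904), (9056, 3904), (9056, 5392), (6829, 5392)] (.leaf ⟨9, 0, 39, 0⟩)
      (.rel1 [(10704, 1360), (11376, 1120), (11376, 3248), (7822, 3248)] (.rel2 [(6752, 3952),
      (6825, 3904), (9056, 3904), (9056, 47040)] (.rel1 [(11376, 3248), (7822, 3248), (11376, 918)]
      (.rel2 [(9056, 3904), (9056, 47040), (6748, 3903)] (.leaf ⟨1, 0, 8, 0⟩)))))) (.seg (14268,
      552) (.cut2 false 7904 [(6752, 3952), (7904, 3196), (7904, 5392), (6829, 5392)] [(7904,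
      3196), (9056, 2440), (9056, 5392), (7904, 5392)] (.rel1 [(11376, 3248), (9056, 3248), (9056,
      2440), (11376, 918)] (.rel2 [(6752, 3952), (7904, 3196), (7904, 25496)] (.leaf ⟨9, 0, 39,
      0⟩))) (.rel1 [(11376, 3248), (9056, 3248), (9056, 2440), (11376, 918)] (.leaf ⟨1, 0, 3, 0⟩)))
      (.rel1 [(11376, 3248), (9056, 3248), (9056, 2440), (11376, 918)] (.rel2 [(6752, 3952), (9056,
      2440), (9056, 47040)] (.rel1 [(11376, 918), (11376, 3248), (7823, 3248)] (.leaf ⟨2, 0, 8,
      0⟩)))))) (.rel2 [(6752, 3952), (9056, 2440), (9056, 47040)] (.leaf ⟨0, 0, 1, 0⟩)))) (.cut2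
      true 3248 [(9056, 2440), (10704, 1360), (11376, 1120), (11376, 3248), (9056, 3248)] [(11376,
      3248), (11376, 5392), (9056, 5392), (9056, 3248)] (.cut1 false 9056 [(6752, 3952), (9056,
      2440), (9056, 5392), (6829, 5392)] [(9056, 2440), (10704, 1360), (11376, 1120), (11376,
      5392), (9056, 5392)] (.seg (14264, 640) (.cut1 true 3904 [(6825, 3904), (9056, 2440), (9056,
      3904)] [(6752, 3952), (6825, 3904), (9056, 3904), (9056, 5392), (6829, 5392)] (.leaf ⟨9, 0,
      39, 0⟩) (.rel1 [(6752, 3952), (6825, 3904), (9056, 3904), (9056, 47040)] (.rel2 [(10704,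
      1360), (11376, 1120), (11376, 3248), (7822, 3248)] (.rel1 [(9056, 3904), (9056, 47040),
      (6748, 3903)] (.rel2 [(11376, 1120), (11376, 3248), (5416, 3248)] (.leaf ⟨0, 1, 8, 0⟩))))))
      (.seg (14268, 552) (.cut1 false 7904 [(6752, 3952), (7904, 3196), (7904, 5392), (6829, 5392)]
      [(7904, 3196), (9056, 2440), (9056, 5392), (7904, 5392)] (.rel1 [(6752, 3952), (7904, 3196),
      (7904, 25496)] (.rel2 [(11376, 3248), (9056, 3248), (9056, 2440), (11376, 918)] (.leaf ⟨9, 0,
      39, 0⟩))) (.rel2 [(11376, 3248), (9056, 3248), (9056, 2440), (11376, 918)] (.leaf ⟨1, 0, 3,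
      0⟩))) (.rel1 [(6752, 3952), (9056, 2440), (9056, 47040)] (.rel2 [(11376, 918), (11376, 3248),
      (7823, 3248)] (.leaf ⟨2, 0, 8, 0⟩))))) (.rel1 [(11376, 5392), (9056, 5392), (9056, 2440),
      (11376, 918)] (.rel2 [(11376, 3248), (9056, 3248), (9056, 2440), (11376, 918)] (.leaf ⟨4, 0,
      11, 0⟩)))) (.rel1 [(11376, 918), (11376, 5392), (4556, 5392)] (.leaf ⟨1, 0, 5, 0⟩)))

theorem ok2_6aa_6_q0 :
    chkT cF6mm cF6mm T2_6aa_6_7 (14256, 816) (14272, 464) dum [(6752, 3952), (10704, 1360), (11376,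
        1120), (11376, 5392), (6829, 5392)] [(6752, 3952), (10704, 1360), (11376, 1120), (11376,
        5392), (6829, 5392)] = true := by
  decide +kernel

/-- tree -/
def T2_6aa_6_8 : CT :=
  .rel1 [(11376, 5392), (6829, 5392), (6752, 3952), (11376, 918)] (.rel2 [(11376, 1120), (14512,
      0), (16000, 0), (11376, 17448)] (.leaf ⟨1, 0, 3, 0⟩))

theorem ok2_6aa_6_q1 :
    chkT cF6mm cF6mm T2_6aa_6_8 (14256, 816) (14272, 464) dum [(6752, 3952), (10704, 1360), (11376,
        1120), (11376, 5392), (6829, 5392)] [(11376, 1120), (14512, 0), (16000, 0), (14571, 5392),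
        (11376, 5392)] = true := by
  decide +kernel

/-- tree -/
def T2_6aa_6_5 : CT := .cut2 false 11376 [(6752, 3952), (10704, 1360), (11376, 1120), (11376,
    5392), (6829, 5392)] [(11376, 1120), (14512, 0), (16000, 0), (14571, 5392), (11376, 5392)]
    T2_6aa_6_7 T2_6aa_6_8

theorem ok2_6aa_6_r2 :
    chkT cF6mm cF6mm T2_6aa_6_5 (14256, 816) (14272, 464) dum [(6752, 3952), (10704, 1360), (11376,
        1120), (11376, 5392), (6829, 5392)] [(6752, 3952), (10704, 1360), (14512, 0), (16000, 0),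
        (14571, 5392), (6829, 5392)] = true :=
  chkT_cut2 (by decide +kernel)
    ok2_6aa_6_q0
    ok2_6aa_6_q1

/-- tree -/
def T2_6aa_6_6 : CT :=
  .rel1 [(11376, 1120), (14512, 0), (16000, 0), (11376, 17448)] (.leaf ⟨1, 0, 3, 0⟩)

theorem ok2_6aa_6_q3 :
    chkT cF6mm cF6mm T2_6aa_6_6 (14256, 816) (14272, 464) dum [(11376, 1120), (14512, 0), (16000,
        0), (14571, 5392), (11376, 5392)] [(6752, 3952), (10704, 1360), (14512, 0), (16000, 0),
        (14571, 5392), (6829, 5392)] = true := by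
  decide +kernel

/-- tree -/
def T2_6aa_6_3 : CT := .cut1 false 11376 [(6752, 3952), (10704, 1360), (11376, 1120), (11376,
    5392), (6829, 5392)] [(11376, 1120), (14512, 0), (16000, 0), (14571, 5392), (11376, 5392)]
    T2_6aa_6_5 T2_6aa_6_6

theorem ok2_6aa_6_r4 :
    chkT cF6mm cF6mm T2_6aa_6_3 (14256, 816) (14272, 464) dum [(6752, 3952), (10704, 1360), (14512,
        0), (16000, 0), (14571, 5392), (6829, 5392)] [(6752, 3952), (10704, 1360), (14512, 0),
        (16000, 0), (14571, 5392), (6829, 5392)] = true :=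
  chkT_cut1 (by decide +kernel)
    ok2_6aa_6_r2
    ok2_6aa_6_q3

/-- tree -/
def T2_6aa_6_4 : CT :=
  .rel1 [(8000, 8016), (6912, 6928), (6829, 5392), (14571, 5392), (12943, 11528)] (.rel2 [(14512,
      0), (16000, 0), (14571, 5392), (6829, 5392), (6689, 2792)] (.rel1 [(6829, 5392), (14571,
      5392), (12943, 11528), (6928, 7255)] (.rel2 [(6689, 2792), (14512, 0), (16000, 0), (8136,
      29673)] (.leaf ⟨0, 0, 1, 0⟩))))

theorem ok2_6aa_6_q5 :
    chkT cF6mm cF6mm T2_6aa_6_4 (14256, 816) (14272, 464) dum [(14571, 5392), (13136, 10800),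
        (11312, 10368), (8000, 8016), (6912, 6928), (6829, 5392)] [(6752, 3952), (10704, 1360),
        (14512, 0), (16000, 0), (14571, 5392), (6829, 5392)] = true := by
  decide +kernel

/-- tree -/
def T2_6aa_6_1 : CT := .cut1 true 5392 [(6752, 3952), (10704, 1360), (14512, 0), (16000, 0),
    (14571, 5392), (6829, 5392)] [(14571, 5392), (13136, 10800), (11312, 10368), (8000, 8016),
    (6912, 6928), (6829, 5392)] T2_6aa_6_3 T2_6aa_6_4

theorem ok2_6aa_6_r6 :
    chkT cF6mm cF6mm T2_6aa_6_1 (14256, 816) (14272, 464) dum n2_A2 [(6752, 3952), (10704, 1360),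
        (14512, 0), (16000, 0), (14571, 5392), (6829, 5392)] = true :=
  chkT_cut1 (by decide +kernel)
    ok2_6aa_6_r4
    ok2_6aa_6_q5

/-- tree -/
def T2_6aa_6_2 : CT :=
  .rel1 [(8000, 8016), (6912, 6928), (6752, 3952), (10704, 1360), (14512, 0), (16000, 0), (12943,
      11528)] (.rel2 [(8000, 8016), (6912, 6928), (6829, 5392), (14571, 5392), (12943, 11528)]
      (.rel1 [(6752, 3952), (10704, 1360), (14512, 0), (16000, 0), (12943, 11528), (6928, 7255)]
      (.rel2 [(6829, 5392), (14571, 5392), (12943, 11528), (6928, 7255)] (.rel1 [(6752, 3952),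
      (10704, 1360), (14512, 0), (16000, 0), (8124, 29701)] (.rel2 [(14571, 5392), (12943, 11528),
      (4304, 5391)] (.leaf ⟨0, 1, 20, 0⟩))))))

theorem ok2_6aa_6_q7 :
    chkT cF6mm cF6mm T2_6aa_6_2 (14256, 816) (14272, 464) dum n2_A2 [(14571, 5392), (13136, 10800),
        (11312, 10368), (8000, 8016), (6912, 6928), (6829, 5392)] = true := by
  decide +kernel

/-- tree -/
def T2_6aa_6 : CT := .cut2 true 5392 [(6752, 3952), (10704, 1360), (14512, 0), (16000, 0), (14571,
    5392), (6829, 5392)] [(14571, 5392), (13136, 10800), (11312, 10368), (8000, 8016), (6912,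
    6928), (6829, 5392)] T2_6aa_6_1 T2_6aa_6_2

theorem ok2_6aa_6 :
    chkT cF6mm cF6mm T2_6aa_6 (14256, 816) (14272, 464) dum n2_A2 n2_A2 = true :=
  chkT_cut2 (by decide +kernel)
    ok2_6aa_6_r6
    ok2_6aa_6_q7

theorem fr2_6aa {z k l : ℂ} (hz : OnE v2_6aa z) (hk : conj k ∈ Poly p2_A2)
    (hl : conj l ∈ Poly p2_A2) :
    k ^ 2 + l ^ 2 - 2 * k * l * (32 * z ^ 6 - 48 * z ^ 4 + 18 * z ^ 2 - 1) + (z * (32 * z ^ 5 - 32 *
        z ^ 3 + 6 * z)) ^ 2 ≠ 0 := by
  have h := edge_use rpF6mm (E := L2_6aa) (V0 := dum) (V1 := n2_A2) (V2 := n2_A2) (fun e he => by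
    simp only [L2_6aa, List.mem_cons, List.not_mem_nil, or_false] at he
    rcases he with rfl | rfl | rfl | rfl | rfl | rfl | rfl
    exacts [⟨_, ok2_6aa_0⟩, ⟨_, ok2_6aa_1⟩, ⟨_, ok2_6aa_2⟩, ⟨_, ok2_6aa_3⟩, ⟨_, ok2_6aa_4⟩, ⟨_,
        ok2_6aa_5⟩, ⟨_, ok2_6aa_6⟩]) (V := v2_6aa) (by decide) hz zero_dum (rg2_A2 hk) (rg2_A2 hl)
  rw [evF6mm (mr_true k) (mr_true l)] at h
  exact fun h0 => h (by rw [h0, mul_zero])

/-- edges -/
def L2_6az : List ((ℕ × ℕ) × (ℕ × ℕ)) :=
  [((14144, 752), (14256, 640)), ((14256, 640), (14672, 784)), ((14672, 784), (14480, 1168)),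
      ((14480, 1168), (14304, 1200)), ((14304, 1200), (14240, 1136)), ((14240, 1136), (14176, 992)),
      ((14176, 992), (14144, 752))]

/-- tree -/
def T2_6az_0 : CT :=
  .rel1 [(8000, 8016), (6912, 6928), (6752, 3952), (10704, 1360), (14512, 0), (16000, 0), (12943,
      11528)] (.rel2 [(16000, 0), (13296, 3472), (13008, 3696), (12768, 3648), (11456, 2208),
      (11424, 1872), (13295, 0)] (.rel1 [(6912, 6928), (6752, 3952), (10704, 1360), (14512, 0),
      (16000, 0), (12643, 12660)] (.rel2 [(17760, 0), (12892, 3787), (11456, 2208), (11244, 0)]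
      (.leaf ⟨11, 0, 5, 0⟩))))

theorem ok2_6az_0 :
    chkT cF6mn cF6mn T2_6az_0 (14144, 752) (14256, 640) dum n2_A2 n2_Z = true := by
  decide +kernel

/-- tree -/
def T2_6az_1 : CT :=
  .rel1 [(14512, 0), (16000, 0), (13136, 10800), (11312, 10368), (8000, 8016), (6912, 6928), (6688,
      2792)] (.rel2 [(13008, 3696), (12768, 3648), (11456, 2208), (11424, 1872), (11616, 1680),
      (14352, 0), (17760, 0)] (.rel1 [(14512, 0), (16000, 0), (13136, 10800), (11312, 10368), (8000,
      8016), (3803, 3819)] (.rel2 [(11456, 2208), (11424, 1872), (11616, 1680), (14352, 0), (17760,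
      0), (12892, 3787)] (.rel1 [(8000, 8016), (3803, 3819), (14512, 0), (16000, 0), (12943, 11528)]
      (.rel2 [(14352, 0), (17760, 0), (11694, 4719), (11416, 1800)] (.leaf ⟨18, 0, 0, 9⟩))))))

theorem ok2_6az_1 :
    chkT cF6mn cF6mn T2_6az_1 (14256, 640) (14672, 784) dum n2_A2 n2_Z = true := by
  decide +kernel

/-- tree -/
def T2_6az_2 : CT :=
  .seg (14576, 976) (.cut1 true 5392 [(6752, 3952), (10704, 1360), (14512, 0), (16000, 0), (14571,
      5392), (6829, 5392)] [(14571, 5392), (13136, 10800), (11312, 10368), (8000, 8016), (6912,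
      6928), (6829, 5392)] (.rel1 [(14512, 0), (16000, 0), (14571, 5392), (6829, 5392), (6689,
      2792)] (.rel2 [(14352, 0), (16000, 0), (13296, 3472), (13008, 3696), (12768, 3648), (11456,
      2208), (11416, 1800)] (.rel1 [(16000, 0), (14571, 5392), (6829, 5392), (6537, 0)] (.rel2
      [(16000, 0), (12978, 3881), (9444, 0)] (.leaf ⟨0, 0, 0, 1⟩))))) (.cut1 false 10688 [(10688,
      9925), (8000, 8016), (6912, 6928), (6829, 5392), (10688, 5392)] [(14571, 5392), (13136,
      10800), (11312, 10368), (10688, 9925), (10688, 5392)] (.rel1 [(6829, 5392), (10688, 5392),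
      (10688, 9925), (6928, 7255)] (.rel2 [(14352, 0), (16000, 0), (13296, 3472), (13008, 3696),
      (12768, 3648), (11456, 2208), (11416, 1800)] (.rel1 [(10688, 5392), (10688, 9925), (4303,
      5391)] (.rel2 [(11238, 0), (16000, 0), (11771, 5431)] (.leaf ⟨0, 2, 0, 2⟩))))) (.seg (14624,
      880) (.rel1 [(10688, 5392), (14571, 5392), (13136, 10800), (10687, 10220)] (.rel2 [(16000, 0),
      (12977, 3882), (9447, 0)] (.leaf ⟨0, 5, 0, 6⟩))) (.rel1 [(10688, 5392), (14571, 5392), (13136,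
      10800), (10687, 10220)] (.rel2 [(11240, 0), (16000, 0), (11769, 5433)] (.leaf ⟨0, 4, 0,
      3⟩)))))) (.cut1 false 11376 [(6752, 3952), (10704, 1360), (11376, 1120), (11376, 10384),
      (11312, 10368), (8000, 8016), (6912, 6928)] [(11376, 1120), (14512, 0), (16000, 0), (13136,
      10800), (11376, 10384)] (.rel1 [(11376, 1120), (11376, 10384), (11312, 10368), (8000, 8016),
      (6912, 6928), (6688, 2792)] (.rel2 [(14352, 0), (16000, 0), (13296, 3472), (13008, 3696),
      (12768, 3648), (11456, 2208), (11416, 1800)] (.rel1 [(6912, 6928), (6688, 2792), (11376,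
      1120), (11376, 10384), (10031, 10048)] (.rel2 [(12768, 3648), (11456, 2208), (11416, 1800),
      (14352, 0), (16000, 0), (13106, 3716)] (.rel1 [(11376, 1120), (11376, 10384), (10031, 10048),
      (3804, 3820)] (.rel2 [(11416, 1800), (14352, 0), (16000, 0), (13106, 3716), (11572, 3408)]
      (.rel1 [(3804, 3820), (11376, 1120), (11376, 11394)] (.rel2 [(11240, 0), (16000, 0), (11769,
      5433)] (.leaf ⟨0, 1, 0, 0⟩))))))))) (.cut1 true 5392 [(11376, 1120), (14512, 0), (16000, 0),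
      (14571, 5392), (11376, 5392)] [(14571, 5392), (13136, 10800), (11376, 10384), (11376, 5392)]
      (.rel1 [(16000, 0), (14571, 5392), (11376, 5392), (11375, 0)] (.rel2 [(16000, 0), (11768,
      5435), (11240, 0)] (.leaf ⟨0, 18, 0, 9⟩))) (.rel1 [(11376, 5392), (14571, 5392), (11376,
      17433)] (.rel2 [(9446, 0), (16000, 0), (12977, 3882)] (.leaf ⟨0, 1, 0, 0⟩)))))

theorem ok2_6az_2 :
    chkT cF6mn cF6mn T2_6az_2 (14672, 784) (14480, 1168) dum n2_A2 n2_Z = true := by
  decide +kernel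

/-- tree -/
def T2_6az_3 : CT :=
  .rel1 [(14512, 0), (16000, 0), (13136, 10800), (11312, 10368), (8000, 8016), (6912, 6928), (6688,
      2792)] (.rel2 [(14352, 0), (16000, 0), (13296, 3472), (13008, 3696), (12768, 3648), (11456,
      2208), (11416, 1800)] (.rel1 [(8000, 8016), (6912, 6928), (6688, 2792), (14512, 0), (16000,
      0), (12943, 11528)] (.rel2 [(11456, 2208), (11416, 1800), (14352, 0), (16000, 0), (13296,
      3472), (12892, 3787)] (.rel1 [(6912, 6928), (6688, 2792), (14512, 0), (16000, 0), (12643,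
      12660)] (.rel2 [(14352, 0), (16000, 0), (13296, 3472), (12892, 3787), (11202, 1929)] (.rel1
      [(16000, 0), (12643, 12660), (6912, 6928), (6535, 0)] (.rel2 [(9446, 0), (16000, 0), (12977,
      3882)] (.leaf ⟨0, 6, 5, 0⟩))))))))

theorem ok2_6az_3 :
    chkT cF6mn cF6mn T2_6az_3 (14480, 1168) (14304, 1200) dum n2_A2 n2_Z = true := by
  decide +kernel

/-- tree -/
def T2_6az_4 : CT :=
  .rel1 [(14512, 0), (16000, 0), (13136, 10800), (11312, 10368), (8000, 8016), (6912, 6928), (6688,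
      2792)] (.rel2 [(14352, 0), (16000, 0), (13296, 3472), (13008, 3696), (12768, 3648), (11456,
      2208), (11416, 1800)] (.rel1 [(8000, 8016), (6912, 6928), (6688, 2792), (14512, 0), (16000,
      0), (12943, 11528)] (.rel2 [(13008, 3696), (12768, 3648), (11456, 2208), (11416, 1800),
      (14352, 0), (17760, 0)] (.rel1 [(6688, 2792), (14512, 0), (16000, 0), (12943, 11528), (6928,
      7255)] (.rel2 [(14352, 0), (17760, 0), (13008, 3696), (12768, 3648), (11202, 1930)] (.rel1
      [(6688, 2792), (14512, 0), (16000, 0), (8133, 29667)] (.rel2 [(17760, 0), (13008, 3696),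
      (12768, 3648), (9441, 0)] (.rel1 [(16000, 0), (8133, 29667), (6536, 0)] (.leaf ⟨1, 0, 12,
      0⟩)))))))))

theorem ok2_6az_4 :
    chkT cF6mn cF6mn T2_6az_4 (14304, 1200) (14240, 1136) dum n2_A2 n2_Z = true := by
  decide +kernel

/-- tree -/
def T2_6az_5 : CT :=
  .rel1 [(10704, 1360), (14512, 0), (16000, 0), (13136, 10800), (11312, 10368), (8000, 8016), (5050,
      5066)] (.rel2 [(14352, 0), (16000, 0), (13296, 3472), (13008, 3696), (12768, 3648), (11456,
      2208), (11416, 1800)] (.rel1 [(8000, 8016), (5050, 5066), (10704, 1360), (14512, 0), (16000,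
      0), (12943, 11528)] (.rel2 [(13008, 3696), (12768, 3648), (11456, 2208), (11416, 1800),
      (14352, 0), (17760, 0)] (.rel1 [(10704, 1360), (14512, 0), (16000, 0), (12943, 11528), (4423,
      5475)] (.rel2 [(9441, 0), (17760, 0), (12892, 3787)] (.leaf ⟨1, 0, 2, 0⟩))))))

theorem ok2_6az_5 :
    chkT cF6mn cF6mn T2_6az_5 (14240, 1136) (14176, 992) dum n2_A2 n2_Z = true := by
  decide +kernel

/-- tree -/
def T2_6az_6 : CT :=
  .rel1 [(8000, 8016), (6912, 6928), (6752, 3952), (10704, 1360), (14512, 0), (16000, 0), (12943,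
      11528)] (.rel2 [(14352, 0), (16000, 0), (13296, 3472), (13008, 3696), (12768, 3648), (11456,
      2208), (11416, 1800)] (.rel1 [(6752, 3952), (10704, 1360), (14512, 0), (16000, 0), (12943,
      11528), (6928, 7255)] (.rel2 [(13008, 3696), (12768, 3648), (11456, 2208), (11416, 1800),
      (14352, 0), (17760, 0)] (.rel1 [(6752, 3952), (10704, 1360), (14512, 0), (16000, 0), (8124,
      29701)] (.rel2 [(9441, 0), (17760, 0), (12892, 3787)] (.leaf ⟨23, 0, 33, 0⟩))))))

theorem ok2_6az_6 :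
    chkT cF6mn cF6mn T2_6az_6 (14176, 992) (14144, 752) dum n2_A2 n2_Z = true := by
  decide +kernel

theorem fr2_6az {z k l : ℂ} (hz : OnE v2_6az z) (hk : conj k ∈ Poly p2_A2)
    (hl : l ∈ Poly p2_Z) :
    k ^ 2 + l ^ 2 - 2 * k * l * (32 * z ^ 6 - 48 * z ^ 4 + 18 * z ^ 2 - 1) + (z * (32 * z ^ 5 - 32 *
        z ^ 3 + 6 * z)) ^ 2 ≠ 0 := by
  have h := edge_use rpF6mn (E := L2_6az) (V0 := dum) (V1 := n2_A2) (V2 := n2_Z) (fun e he => by
    simp only [L2_6az, List.mem_cons, List.not_mem_nil, or_false] at he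
    rcases he with rfl | rfl | rfl | rfl | rfl | rfl | rfl
    exacts [⟨_, ok2_6az_0⟩, ⟨_, ok2_6az_1⟩, ⟨_, ok2_6az_2⟩, ⟨_, ok2_6az_3⟩, ⟨_, ok2_6az_4⟩, ⟨_,
        ok2_6az_5⟩, ⟨_, ok2_6az_6⟩]) (V := v2_6az) (by decide) hz zero_dum (rg2_A2 hk) (rg2_Z hl)
  rw [evF6mn (mr_true k) (mr_false l)] at h
  exact fun h0 => h (by rw [h0, mul_zero])

/-- edges -/
def L2_6as : List ((ℕ × ℕ) × (ℕ × ℕ)) :=
  [((14048, 640), (14208, 592)), ((14208, 592), (14576, 800)), ((14576, 800), (14208, 1472)),
      ((14208, 1472), (14064, 1392)), ((14064, 1392), (13936, 1184)), ((13936, 1184), (13888, 784)),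
      ((13888, 784), (14048, 640))]

/-- tree -/
def T2_6as_0 : CT :=
  .rel1 [(8000, 8016), (6912, 6928), (6752, 3952), (10704, 1360), (14512, 0), (16000, 0), (12943,
      11528)] (.rel2 [(13088, 10752), (11312, 10368), (8928, 7888), (8464, 6576), (8160, 4672),
      (8448, 3568), (15532, 2124)] (.rel1 [(6912, 6928), (6752, 3952), (10704, 1360), (14512, 0),
      (16000, 0), (12643, 12660)] (.rel2 [(8160, 4672), (8448, 3568), (15532, 2124), (12768, 11883),
      (8621, 7569)] (.leaf ⟨1, 0, 0, 0⟩))))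

theorem ok2_6as_0 :
    chkT cF6mn cF6mn T2_6as_0 (14048, 640) (14208, 592) dum n2_A2 n2_S3 = true := by
  decide +kernel

/-- tree -/
def T2_6as_1 : CT :=
  .rel1 [(14512, 0), (16000, 0), (13136, 10800), (11312, 10368), (8000, 8016), (6912, 6928), (6688,
      2792)] (.rel2 [(13088, 10752), (11312, 10368), (8928, 7888), (8464, 6576), (8160, 4672),
      (8448, 3568), (15532, 2124)] (.rel1 [(16000, 0), (13136, 10800), (11312, 10368), (8000, 8016),
      (6912, 6928), (6535, 0)] (.rel2 [(8448, 3568), (15532, 2124), (13088, 10752), (11312, 10368),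
      (8928, 7888), (8002, 5272)] (.rel1 [(6535, 0), (16000, 0), (13136, 10800), (11312, 10368),
      (6928, 7255)] (.rel2 [(8448, 3568), (15532, 2124), (12768, 11883), (7661, 6570)] (.leaf ⟨6, 0,
      0, 5⟩))))))

theorem ok2_6as_1 :
    chkT cF6mn cF6mn T2_6as_1 (14208, 592) (14576, 800) dum n2_A2 n2_S3 = true := by
  decide +kernel

/-- tree -/
def T2_6as_2 : CT :=
  .seg (14392, 1136) (.seg (14484, 968) (.cut1 true 5392 [(6752, 3952), (10704, 1360), (14512, 0),
      (16000, 0), (14571, 5392), (6829, 5392)] [(14571, 5392), (13136, 10800), (11312, 10368),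
      (8000, 8016), (6912, 6928), (6829, 5392)] (.rel1 [(14512, 0), (16000, 0), (14571, 5392),
      (6829, 5392), (6689, 2792)] (.rel2 [(13792, 2480), (13872, 7984), (13088, 10752), (11312,
      10368), (8928, 7888), (8464, 6576), (7997, 3658)] (.rel1 [(16000, 0), (14571, 5392), (6829,
      5392), (6537, 0)] (.rel2 [(13792, 2480), (13915, 10931), (9679, 10015), (7469, 3763)] (.leaf
      ⟨0, 0, 0, 1⟩))))) (.cut1 false 10688 [(10688, 9925), (8000, 8016), (6912, 6928), (6829, 5392),
      (10688, 5392)] [(14571, 5392), (13136, 10800), (11312, 10368), (10688, 9925), (10688, 5392)]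
      (.rel1 [(6829, 5392), (10688, 5392), (10688, 9925), (6928, 7255)] (.rel2 [(13792, 2480),
      (13872, 7984), (13088, 10752), (11312, 10368), (8928, 7888), (8464, 6576), (7997, 3658)]
      (.rel1 [(10688, 5392), (10688, 9925), (4303, 5391)] (.rel2 [(7997, 3658), (13792, 2480),
      (14391, 43683)] (.leaf ⟨0, 2, 0, 2⟩))))) (.cut2 false 11008 [(8160, 4672), (8448, 3568),
      (11008, 3046), (11008, 10052), (8928, 7888), (8464, 6576)] [(11008, 3046), (13792, 2480),
      (13872, 7984), (13088, 10752), (11312, 10368), (11008, 10052)] (.rel1 [(10688, 5392), (14571,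
      5392), (13136, 10800), (10687, 10220)] (.rel2 [(11008, 3046), (11008, 10052), (5372, 4190)]
      (.leaf ⟨0, 2, 0, 2⟩))) (.cut2 true 6608 [(11008, 3046), (13792, 2480), (13852, 6608), (11008,
      6608)] [(13852, 6608), (13872, 7984), (13088, 10752), (11312, 10368), (11008, 10052), (11008,
      6608)] (.seg (14530, 884) (.rel1 [(10688, 5392), (14571, 5392), (13136, 10800), (10687,
      10220)] (.leaf ⟨0, 2, 0, 2⟩)) (.rel1 [(10688, 5392), (14571, 5392), (13136, 10800), (10687,
      10220)] (.leaf ⟨0, 7, 0, 4⟩))) (.rel1 [(10688, 5392), (14571, 5392), (13136, 10800), (10687,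
      10220)] (.rel2 [(11008, 6608), (13852, 6608), (13915, 10931), (11007, 10303)] (.leaf ⟨0, 2, 0,
      2⟩))))))) (.cut1 true 5392 [(6752, 3952), (10704, 1360), (14512, 0), (16000, 0), (14571,
      5392), (6829, 5392)] [(14571, 5392), (13136, 10800), (11312, 10368), (8000, 8016), (6912,
      6928), (6829, 5392)] (.rel1 [(14512, 0), (16000, 0), (14571, 5392), (6829, 5392), (6689,
      2792)] (.rel2 [(13792, 2480), (13872, 7984), (13088, 10752), (11312, 10368), (8928, 7888),
      (8464, 6576), (7997, 3658)] (.rel1 [(16000, 0), (14571, 5392), (6829, 5392), (6537, 0)] (.rel2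
      [(13792, 2480), (13915, 10931), (9679, 10015), (7469, 3763)] (.leaf ⟨0, 37, 0, 15⟩))))) (.rel1
      [(6912, 6928), (6829, 5392), (14571, 5392), (13136, 10800), (10053, 10070)] (.rel2 [(13792,
      2480), (13872, 7984), (13088, 10752), (11312, 10368), (8928, 7888), (8464, 6576), (7997,
      3658)] (.rel1 [(14571, 5392), (13136, 10800), (10053, 10070), (5375, 5391)] (.rel2 [(8928,
      7888), (8464, 6576), (7997, 3658), (13792, 2480), (13872, 7984), (12768, 11883)] (.rel1
      [(5375, 5391), (14571, 5392), (12642, 12662)] (.rel2 [(7997, 3658), (13792, 2480), (13872,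
      7984), (10558, 19689)] (.leaf ⟨0, 19, 0, 6⟩))))))))) (.seg (14300, 1304) (.cut1 false 11376
      [(6752, 3952), (10704, 1360), (11376, 1120), (11376, 10384), (11312, 10368), (8000, 8016),
      (6912, 6928)] [(11376, 1120), (14512, 0), (16000, 0), (13136, 10800), (11376, 10384)] (.rel1
      [(11376, 1120), (11376, 10384), (11312, 10368), (8000, 8016), (6912, 6928), (6688, 2792)]
      (.rel2 [(8464, 6576), (8160, 4672), (8448, 3568), (13792, 2480), (13872, 7984), (13088,
      10752), (9679, 10015)] (.rel1 [(11376, 1120), (11376, 10384), (11312, 10368), (8000, 8016),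
      (3803, 3819)] (.rel2 [(8448, 3568), (13792, 2480), (13872, 7984), (13088, 10752), (9679,
      10015), (8002, 5271)] (.rel1 [(3803, 3819), (11376, 1120), (11376, 10384), (10031, 10048)]
      (.rel2 [(8448, 3568), (13792, 2480), (13872, 7984), (13088, 10752), (6915, 9418)] (.rel1
      [(3803, 3819), (11376, 1120), (11376, 11394)] (.rel2 [(13088, 10752), (6915, 9418), (8448,
      3568), (15532, 2124)] (.leaf ⟨0, 1, 0, 0⟩))))))))) (.cut2 false 11008 [(8160, 4672), (8448,
      3568), (11008, 3046), (11008, 10052), (8928, 7888), (8464, 6576)] [(11008, 3046), (13792,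
      2480), (13872, 7984), (13088, 10752), (11312, 10368), (11008, 10052)] (.rel1 [(16000, 0),
      (13136, 10800), (11376, 10384), (11375, 0)] (.rel2 [(11008, 3046), (11008, 10052), (5376,
      4193)] (.leaf ⟨0, 1, 0, 0⟩))) (.seg (14346, 1220) (.rel1 [(16000, 0), (13136, 10800), (11376,
      10384), (11375, 0)] (.rel2 [(11007, 10303), (11008, 3046), (13792, 2480), (13915, 10931)]
      (.leaf ⟨0, 79, 0, 13⟩))) (.rel1 [(16000, 0), (13136, 10800), (11376, 10384), (11375, 0)]
      (.rel2 [(13792, 2480), (13872, 7984), (12768, 11882), (5370, 4190)] (.leaf ⟨0, 1, 0, 0⟩))))))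
      (.rel1 [(8000, 8016), (6912, 6928), (6752, 3952), (10704, 1360), (14512, 0), (16000, 0),
      (12943, 11528)] (.rel2 [(8448, 3568), (13792, 2480), (13872, 7984), (13088, 10752), (11312,
      10368), (8928, 7888), (8002, 5272)] (.rel1 [(10704, 1360), (14512, 0), (16000, 0), (12943,
      11528), (8000, 8016), (5050, 5066)] (.rel2 [(8928, 7888), (8002, 5272), (8448, 3568), (13792,
      2480), (13872, 7984), (12768, 11883)] (.rel1 [(16000, 0), (12943, 11528), (8000, 8016), (5050,
      5066), (12777, 0)] (.rel2 [(8448, 3568), (13792, 2480), (13872, 7984), (12768, 11883), (7661,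
      6570)] (.rel1 [(12777, 0), (16000, 0), (12943, 11528), (4423, 5475)] (.rel2 [(13792, 2480),
      (13872, 7984), (12768, 11883), (5375, 4192)] (.leaf ⟨0, 39, 9, 0⟩))))))))))

theorem ok2_6as_2 :
    chkT cF6mn cF6mn T2_6as_2 (14576, 800) (14208, 1472) dum n2_A2 n2_S3 = true := by
  decide +kernel

/-- tree -/
def T2_6as_3 : CT :=
  .rel1 [(14512, 0), (16000, 0), (13136, 10800), (11312, 10368), (8000, 8016), (6912, 6928), (6688,
      2792)] (.rel2 [(13792, 2480), (13872, 7984), (13088, 10752), (11312, 10368), (8928, 7888),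
      (8464, 6576), (7997, 3658)] (.rel1 [(8000, 8016), (6912, 6928), (6688, 2792), (14512, 0),
      (16000, 0), (12943, 11528)] (.rel2 [(8464, 6576), (7997, 3658), (13792, 2480), (13872, 7984),
      (13088, 10752), (9679, 10015)] (.rel1 [(6688, 2792), (14512, 0), (16000, 0), (12943, 11528),
      (6928, 7255)] (.rel2 [(13088, 10752), (9679, 10015), (8464, 6576), (7997, 3658), (15532,
      2125)] (.rel1 [(14512, 0), (16000, 0), (12943, 11528), (2664, 4226)] (.rel2 [(7997, 3658),
      (15532, 2125), (13088, 10752), (8989, 9866)] (.leaf ⟨2, 0, 5, 0⟩))))))))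

theorem ok2_6as_3 :
    chkT cF6mn cF6mn T2_6as_3 (14208, 1472) (14064, 1392) dum n2_A2 n2_S3 = true := by
  decide +kernel

/-- tree -/
def T2_6as_4 : CT :=
  .rel1 [(8000, 8016), (6912, 6928), (6752, 3952), (10704, 1360), (14512, 0), (16000, 0), (12943,
      11528)] (.rel2 [(13088, 10752), (11312, 10368), (8928, 7888), (8464, 6576), (8160, 4672),
      (8448, 3568), (15532, 2124)] (.rel1 [(6752, 3952), (10704, 1360), (14512, 0), (16000, 0),
      (12943, 11528), (6928, 7255)] (.rel2 [(8448, 3568), (15532, 2124), (13088, 10752), (11312,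
      10368), (8928, 7888), (8002, 5272)] (.rel1 [(6752, 3952), (10704, 1360), (14512, 0), (16000,
      0), (8124, 29701)] (.rel2 [(15532, 2124), (13088, 10752), (11312, 10368), (8928, 7888), (7468,
      3766)] (.rel1 [(14512, 0), (16000, 0), (8124, 29701), (6689, 2792)] (.rel2 [(15532, 2124),
      (13088, 10752), (11312, 10368), (5374, 4191)] (.leaf ⟨2, 0, 2, 0⟩))))))))

theorem ok2_6as_4 :
    chkT cF6mn cF6mn T2_6as_4 (14064, 1392) (13936, 1184) dum n2_A2 n2_S3 = true := by
  decide +kernel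

/-- tree -/
def T2_6as_5 : CT :=
  .cut1 true 5392 [(6752, 3952), (10704, 1360), (14512, 0), (16000, 0), (14571, 5392), (6829, 5392)]
      [(14571, 5392), (13136, 10800), (11312, 10368), (8000, 8016), (6912, 6928), (6829, 5392)]
      (.cut2 true 6608 [(8160, 4672), (8448, 3568), (13792, 2480), (13852, 6608), (8475, 6608),
      (8464, 6576)] [(13852, 6608), (13872, 7984), (13088, 10752), (11312, 10368), (8928, 7888),
      (8475, 6608)] (.rel1 [(10704, 1360), (14512, 0), (16000, 0), (14571, 5392), (4555, 5392)]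
      (.rel2 [(13792, 2480), (13852, 6608), (8475, 6608), (8464, 6576), (7997, 3658)] (.rel1
      [(16000, 0), (14571, 5392), (4555, 5392), (12777, 0)] (.rel2 [(13792, 2480), (13852, 6608),
      (8475, 6608), (7494, 3758)] (.leaf ⟨2, 0, 2, 0⟩))))) (.cut1 false 11376 [(6752, 3952), (10704,
      1360), (11376, 1120), (11376, 5392), (6829, 5392)] [(11376, 1120), (14512, 0), (16000, 0),
      (14571, 5392), (11376, 5392)] (.cut2 true 8672 [(13852, 6608), (13872, 7984), (13678, 8672),
      (9681, 8672), (8928, 7888), (8475, 6608)] [(13678, 8672), (13088, 10752), (11312, 10368),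
      (9681, 8672)] (.rel1 [(11376, 5392), (6829, 5392), (6752, 3952), (11376, 918)] (.rel2 [(13678,
      8672), (9681, 8672), (8928, 7888), (8475, 6608), (14260, 6608)] (.rel1 [(11376, 918), (11376,
      5392), (4556, 5392)] (.rel2 [(14260, 6608), (13678, 8672), (9681, 8672), (7697, 6607)] (.leaf
      ⟨4, 0, 3, 0⟩))))) (.rel1 [(11376, 5392), (6829, 5392), (6752, 3952), (11376, 918)] (.leaf ⟨69,
      0, 40, 0⟩))) (.rel1 [(11376, 1120), (14512, 0), (16000, 0), (11376, 17448)] (.rel2 [(14262,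
      6608), (12768, 11883), (7696, 6607)] (.leaf ⟨11, 0, 5, 0⟩))))) (.rel1 [(8000, 8016), (6912,
      6928), (6829, 5392), (14571, 5392), (12943, 11528)] (.rel2 [(13792, 2480), (13872, 7984),
      (13088, 10752), (11312, 10368), (8928, 7888), (8464, 6576), (7997, 3658)] (.rel1 [(6829,
      5392), (14571, 5392), (12943, 11528), (6928, 7255)] (.rel2 [(13088, 10752), (11312, 10368),
      (8928, 7888), (8464, 6576), (7997, 3658), (15532, 2125)] (.rel1 [(14571, 5392), (12943,
      11528), (4304, 5391)] (.rel2 [(15532, 2125), (13088, 10752), (11312, 10368), (5371, 4188)]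
      (.leaf ⟨2, 0, 2, 0⟩)))))))

theorem ok2_6as_5 :
    chkT cF6mn cF6mn T2_6as_5 (13936, 1184) (13888, 784) dum n2_A2 n2_S3 = true := by
  decide +kernel

/-- tree -/
def T2_6as_6 : CT :=
  .cut1 false 11376 [(6752, 3952), (10704, 1360), (11376, 1120), (11376, 10384), (11312, 10368),
      (8000, 8016), (6912, 6928)] [(11376, 1120), (14512, 0), (16000, 0), (13136, 10800), (11376,
      10384)] (.cut2 false 11008 [(8160, 4672), (8448, 3568), (11008, 3046), (11008, 10052), (8928,
      7888), (8464, 6576)] [(11008, 3046), (13792, 2480), (13872, 7984), (13088, 10752), (11312,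
      10368), (11008, 10052)] (.cut1 false 9056 [(6752, 3952), (9056, 2440), (9056, 8766), (8000,
      8016), (6912, 6928)] [(9056, 2440), (10704, 1360), (11376, 1120), (11376, 10384), (11312,
      10368), (9056, 8766)] (.cut1 true 5600 [(6752, 3952), (9056, 2440), (9056, 5600), (6840,
      5600)] [(9056, 5600), (9056, 8766), (8000, 8016), (6912, 6928), (6840, 5600)] (.cut1 false
      7904 [(6752, 3952), (7904, 3196), (7904, 5600), (6840, 5600)] [(7904, 3196), (9056, 2440),
      (9056, 5600), (7904, 5600)] (.cut2 false 9584 [(8160, 4672), (8448, 3568), (9584, 3336),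
      (9584, 8571), (8928, 7888), (8464, 6576)] [(9584, 3336), (11008, 3046), (11008, 10052), (9584,
      8571)] (.cut2 true 5952 [(8160, 4672), (8448, 3568), (9584, 3336), (9584, 5952), (8364, 5952)]
      [(9584, 5952), (9584, 8571), (8928, 7888), (8464, 6576), (8364, 5952)] (.rel2 [(9584, 3336),
      (9584, 5952), (8364, 5952), (7997, 3658)] (.leaf ⟨79, 0, 13, 0⟩)) (.rel2 [(9584, 5952), (9584,
      9743), (8242, 5951)] (.leaf ⟨1, 0, 0, 0⟩))) (.leaf ⟨1, 0, 0, 0⟩)) (.rel2 [(8448, 3568),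
      (11008, 3046), (11008, 10052), (7661, 6570)] (.leaf ⟨1, 0, 0, 0⟩))) (.rel1 [(6912, 6928),
      (6840, 5600), (9056, 5600), (9056, 9072)] (.rel2 [(11008, 3046), (11008, 10052), (8928, 7888),
      (7468, 3766)] (.leaf ⟨11, 0, 5, 0⟩)))) (.rel1 [(11376, 10384), (11312, 10368), (9056, 8766),
      (9056, 2440), (11376, 918)] (.rel2 [(8448, 3568), (11008, 3046), (11008, 10052), (8928, 7888),
      (8002, 5272)] (.rel1 [(9056, 8766), (9056, 2440), (11376, 918), (11376, 10414)] (.rel2 [(8448,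
      3568), (11008, 3046), (11008, 10052), (7661, 6570)] (.leaf ⟨1, 0, 0, 0⟩)))))) (.rel1 [(8000,
      8016), (6912, 6928), (6752, 3952), (10704, 1360), (11376, 1120), (11376, 10414)] (.rel2
      [(13088, 10752), (11312, 10368), (11008, 10052), (11008, 3046), (15532, 2125)] (.rel1 [(11376,
      10414), (8000, 8016), (6912, 6928), (6752, 3952), (11376, 918)] (.rel2 [(11008, 10052),
      (11008, 3046), (15532, 2125), (12768, 11882)] (.rel1 [(6912, 6928), (6752, 3952), (11376,
      918), (11376, 11392)] (.rel2 [(11008, 3046), (15532, 2125), (11008, 18095)] (.leaf ⟨19, 0, 0,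
      6⟩)))))))) (.rel1 [(16000, 0), (13136, 10800), (11376, 10384), (11375, 0)] (.rel2 [(15532,
      2124), (12768, 11883), (5374, 4193)] (.leaf ⟨1, 0, 0, 0⟩)))

theorem ok2_6as_6 :
    chkT cF6mn cF6mn T2_6as_6 (13888, 784) (14048, 640) dum n2_A2 n2_S3 = true := by
  decide +kernel

theorem fr2_6as {z k l : ℂ} (hz : OnE v2_6as z) (hk : conj k ∈ Poly p2_A2)
    (hl : l ∈ Poly p2_S3) :
    k ^ 2 + l ^ 2 - 2 * k * l * (32 * z ^ 6 - 48 * z ^ 4 + 18 * z ^ 2 - 1) + (z * (32 * z ^ 5 - 32 *
        z ^ 3 + 6 * z)) ^ 2 ≠ 0 := by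
  have h := edge_use rpF6mn (E := L2_6as) (V0 := dum) (V1 := n2_A2) (V2 := n2_S3) (fun e he => by
    simp only [L2_6as, List.mem_cons, List.not_mem_nil, or_false] at he
    rcases he with rfl | rfl | rfl | rfl | rfl | rfl | rfl
    exacts [⟨_, ok2_6as_0⟩, ⟨_, ok2_6as_1⟩, ⟨_, ok2_6as_2⟩, ⟨_, ok2_6as_3⟩, ⟨_, ok2_6as_4⟩, ⟨_,
        ok2_6as_5⟩, ⟨_, ok2_6as_6⟩]) (V := v2_6as) (by decide) hz zero_dum (rg2_A2 hk) (rg2_S3 hl)
  rw [evF6mn (mr_true k) (mr_false l)] at h
  exact fun h0 => h (by rw [h0, mul_zero])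

/-- edges -/
def L2_6zz : List ((ℕ × ℕ) × (ℕ × ℕ)) :=
  [((14096, 1008), (14384, 1056)), ((14384, 1056), (14496, 1136)), ((14496, 1136), (14480, 1152)),
      ((14480, 1152), (14096, 1264)), ((14096, 1264), (14096, 1008))]

/-- tree -/
def T2_6zz_0 : CT :=
  .rel1 [(13008, 3696), (12768, 3648), (11456, 2208), (11424, 1872), (11616, 1680), (14352, 0),
      (17760, 0)] (.rel2 [(13008, 3696), (12768, 3648), (11456, 2208), (11424, 1872), (11616, 1680),
      (14352, 0), (17760, 0)] (.rel1 [(11456, 2208), (11424, 1872), (11616, 1680), (14352, 0),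
      (17760, 0), (12892, 3787)] (.rel2 [(11456, 2208), (11424, 1872), (11616, 1680), (14352, 0),
      (17760, 0), (12892, 3787)] (.rel1 [(11616, 1680), (14352, 0), (17760, 0), (12892, 3787),
      (11279, 2014)] (.rel2 [(11616, 1680), (14352, 0), (17760, 0), (12892, 3787), (11279, 2014)]
      (.rel1 [(14352, 0), (17760, 0), (12892, 3787), (11203, 1931)] (.rel2 [(14352, 0), (17760, 0),
      (12892, 3787), (11203, 1931)] (.leaf ⟨6, 0, 0, 10⟩))))))))

theorem ok2_6zz_0 :
    chkT cF6nn cF6nn T2_6zz_0 (14096, 1008) (14384, 1056) dum n2_Z n2_Z = true := by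
  decide +kernel

/-- tree -/
def T2_6zz_1 : CT :=
  .rel1 [(14352, 0), (16000, 0), (13296, 3472), (13008, 3696), (12768, 3648), (11456, 2208), (11416,
      1800)] (.rel2 [(14352, 0), (16000, 0), (13296, 3472), (13008, 3696), (12768, 3648), (11456,
      2208), (11416, 1800)] (.rel1 [(12768, 3648), (11456, 2208), (11416, 1800), (14352, 0), (16000,
      0), (13106, 3716)] (.rel2 [(11456, 2208), (11416, 1800), (14352, 0), (16000, 0), (13296,
      3472), (12892, 3787)] (.rel1 [(11416, 1800), (14352, 0), (16000, 0), (13106, 3716), (11572,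
      3408)] (.rel2 [(11456, 2208), (11416, 1800), (14352, 0), (16000, 0), (12977, 3882)] (.rel1
      [(11416, 1800), (14352, 0), (16000, 0), (11768, 5435)] (.rel2 [(14352, 0), (16000, 0), (12977,
      3882), (11202, 1929)] (.rel1 [(16000, 0), (11768, 5435), (11240, 0)] (.rel2 [(16000, 0),
      (12977, 3882), (9447, 0)] (.leaf ⟨1, 0, 0, 8⟩))))))))))

theorem ok2_6zz_1 :
    chkT cF6nn cF6nn T2_6zz_1 (14384, 1056) (14496, 1136) dum n2_Z n2_Z = true := by
  decide +kernel

/-- tree -/
def T2_6zz_2 : CT :=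
  .rel1 [(14352, 0), (16000, 0), (13296, 3472), (13008, 3696), (12768, 3648), (11456, 2208), (11416,
      1800)] (.rel2 [(14352, 0), (16000, 0), (13296, 3472), (13008, 3696), (12768, 3648), (11456,
      2208), (11416, 1800)] (.rel1 [(12768, 3648), (11456, 2208), (11416, 1800), (14352, 0), (16000,
      0), (13106, 3716)] (.rel2 [(12768, 3648), (11456, 2208), (11416, 1800), (14352, 0), (16000,
      0), (13106, 3716)] (.rel1 [(11416, 1800), (14352, 0), (16000, 0), (13106, 3716), (11572,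
      3408)] (.rel2 [(11416, 1800), (14352, 0), (16000, 0), (13106, 3716), (11572, 3408)] (.rel1
      [(16000, 0), (13106, 3716), (11572, 3408), (11240, 0)] (.rel2 [(16000, 0), (13106, 3716),
      (11572, 3408), (11240, 0)] (.rel1 [(11240, 0), (16000, 0), (11769, 5433)] (.rel2 [(11240, 0),
      (16000, 0), (11769, 5433)] (.leaf ⟨0, 1, 0, 0⟩))))))))))

theorem ok2_6zz_2 :
    chkT cF6nn cF6nn T2_6zz_2 (14496, 1136) (14480, 1152) dum n2_Z n2_Z = true := by
  decide +kernel

/-- tree -/
def T2_6zz_3 : CT :=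
  .seg (14288, 1208) (.seg (14384, 1180) (.rel1 [(14352, 0), (16000, 0), (13296, 3472), (13008,
      3696), (12768, 3648), (11456, 2208), (11416, 1800)] (.rel2 [(16000, 0), (13296, 3472), (13008,
      3696), (12768, 3648), (11456, 2208), (11424, 1872), (13295, 0)] (.rel1 [(11456, 2208), (11416,
      1800), (14352, 0), (16000, 0), (13296, 3472), (12892, 3787)] (.rel2 [(11456, 2208), (11424,
      1872), (13295, 0), (16000, 0), (13296, 3472), (12892, 3787)] (.rel1 [(14352, 0), (16000, 0),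
      (13296, 3472), (12892, 3787), (11202, 1929)] (.rel2 [(13295, 0), (16000, 0), (13296, 3472),
      (12892, 3787), (11279, 2014)] (.rel1 [(16000, 0), (13296, 3472), (12892, 3787), (9446, 0)]
      (.rel2 [(11279, 2014), (13295, 0), (16000, 0), (12977, 3882)] (.rel1 [(9446, 0), (16000, 0),
      (12977, 3882)] (.rel2 [(16000, 0), (12977, 3882), (9447, 0)] (.leaf ⟨0, 7, 4, 0⟩)))))))))))
      (.rel1 [(14352, 0), (16000, 0), (13296, 3472), (13008, 3696), (12768, 3648), (11456, 2208),
      (11416, 1800)] (.rel2 [(14352, 0), (16000, 0), (13296, 3472), (13008, 3696), (12768, 3648),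
      (11456, 2208), (11416, 1800)] (.rel1 [(11456, 2208), (11416, 1800), (14352, 0), (16000, 0),
      (13296, 3472), (12892, 3787)] (.rel2 [(11456, 2208), (11416, 1800), (14352, 0), (16000, 0),
      (13296, 3472), (12892, 3787)] (.rel1 [(14352, 0), (16000, 0), (13296, 3472), (12892, 3787),
      (11202, 1929)] (.rel2 [(14352, 0), (16000, 0), (13296, 3472), (12892, 3787), (11202, 1929)]
      (.rel1 [(16000, 0), (13296, 3472), (12892, 3787), (9446, 0)] (.rel2 [(16000, 0), (13296,
      3472), (12892, 3787), (9446, 0)] (.rel1 [(9446, 0), (16000, 0), (12977, 3882)] (.rel2 [(9446,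
      0), (16000, 0), (12977, 3882)] (.leaf ⟨0, 31, 25, 0⟩)))))))))))) (.seg (14192, 1236) (.rel1
      [(14352, 0), (16000, 0), (13296, 3472), (13008, 3696), (12768, 3648), (11456, 2208), (11416,
      1800)] (.rel2 [(14352, 0), (16000, 0), (13296, 3472), (13008, 3696), (12768, 3648), (11456,
      2208), (11416, 1800)] (.rel1 [(11456, 2208), (11416, 1800), (14352, 0), (16000, 0), (13296,
      3472), (12892, 3787)] (.rel2 [(11456, 2208), (11416, 1800), (14352, 0), (16000, 0), (13296,
      3472), (12892, 3787)] (.rel1 [(14352, 0), (16000, 0), (13296, 3472), (12892, 3787), (11202,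
      1929)] (.rel2 [(14352, 0), (16000, 0), (13296, 3472), (12892, 3787), (11202, 1929)] (.rel1
      [(16000, 0), (13296, 3472), (12892, 3787), (9446, 0)] (.rel2 [(16000, 0), (13296, 3472),
      (12892, 3787), (9446, 0)] (.rel1 [(9446, 0), (16000, 0), (12977, 3882)] (.rel2 [(9446, 0),
      (16000, 0), (12977, 3882)] (.leaf ⟨0, 2, 2, 0⟩))))))))))) (.rel1 [(14352, 0), (16000, 0),
      (13296, 3472), (13008, 3696), (12768, 3648), (11456, 2208), (11416, 1800)] (.rel2 [(14352, 0),
      (16000, 0), (13296, 3472), (13008, 3696), (12768, 3648), (11456, 2208), (11416, 1800)] (.rel1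
      [(14352, 0), (16000, 0), (13296, 3472), (13008, 3696), (12768, 3648), (11202, 1930)] (.rel2
      [(11416, 1800), (14352, 0), (16000, 0), (13296, 3472), (13008, 3696), (11572, 3409)] (.rel1
      [(14352, 0), (16000, 0), (13296, 3472), (13008, 3696), (9472, 2989)] (.rel2 [(14352, 0),
      (16000, 0), (13296, 3472), (13008, 3696), (9474, 2990)] (.rel1 [(9472, 2989), (14352, 0),
      (16000, 0), (13106, 3716)] (.rel2 [(9474, 2990), (14352, 0), (16000, 0), (13106, 3716)] (.leaf
      ⟨0, 3, 4, 0⟩))))))))))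

theorem ok2_6zz_3 :
    chkT cF6nn cF6nn T2_6zz_3 (14480, 1152) (14096, 1264) dum n2_Z n2_Z = true := by
  decide +kernel

/-- tree -/
def T2_6zz_4 : CT :=
  .rel1 [(14352, 0), (16000, 0), (13296, 3472), (13008, 3696), (12768, 3648), (11456, 2208), (11416,
      1800)] (.rel2 [(14352, 0), (16000, 0), (13296, 3472), (13008, 3696), (12768, 3648), (11456,
      2208), (11416, 1800)] (.rel1 [(13008, 3696), (12768, 3648), (11456, 2208), (11416, 1800),
      (14352, 0), (17760, 0)] (.rel2 [(13008, 3696), (12768, 3648), (11456, 2208), (11416, 1800),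
      (14352, 0), (17760, 0)] (.rel1 [(17760, 0), (13008, 3696), (12768, 3648), (11456, 2208),
      (11238, 0)] (.rel2 [(17760, 0), (13008, 3696), (12768, 3648), (11456, 2208), (11238, 0)]
      (.rel1 [(11456, 2208), (11238, 0), (17760, 0), (12892, 3787)] (.rel2 [(11456, 2208), (11238,
      0), (17760, 0), (12892, 3787)] (.leaf ⟨7, 0, 4, 0⟩))))))))

theorem ok2_6zz_4 :
    chkT cF6nn cF6nn T2_6zz_4 (14096, 1264) (14096, 1008) dum n2_Z n2_Z = true := by
  decide +kernel

theorem fr2_6zz {z k l : ℂ} (hz : OnE v2_6zz z) (hk : k ∈ Poly p2_Z)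
    (hl : l ∈ Poly p2_Z) :
    k ^ 2 + l ^ 2 - 2 * k * l * (32 * z ^ 6 - 48 * z ^ 4 + 18 * z ^ 2 - 1) + (z * (32 * z ^ 5 - 32 *
        z ^ 3 + 6 * z)) ^ 2 ≠ 0 := by
  have h := edge_use rpF6nn (E := L2_6zz) (V0 := dum) (V1 := n2_Z) (V2 := n2_Z) (fun e he => by
    simp only [L2_6zz, List.mem_cons, List.not_mem_nil, or_false] at he
    rcases he with rfl | rfl | rfl | rfl | rfl
    exacts [⟨_, ok2_6zz_0⟩, ⟨_, ok2_6zz_1⟩, ⟨_, ok2_6zz_2⟩, ⟨_, ok2_6zz_3⟩, ⟨_, ok2_6zz_4⟩]) (V :=
        v2_6zz) (by decide) hz zero_dum (rg2_Z hk) (rg2_Z hl)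
  rw [evF6nn (mr_false k) (mr_false l)] at h
  exact fun h0 => h (by rw [h0, mul_zero])

/-- edges -/
def L2_6zs : List ((ℕ × ℕ) × (ℕ × ℕ)) :=
  [((13920, 960), (14192, 1040)), ((14192, 1040), (14384, 1168)), ((14384, 1168), (14208, 1440)),
      ((14208, 1440), (14064, 1504)), ((14064, 1504), (13888, 1552)), ((13888, 1552), (13808,
      1200)), ((13808, 1200), (13920, 960))]

/-- tree -/
def T2_6zs_0 : CT :=
  .rel1 [(13008, 3696), (12768, 3648), (11456, 2208), (11424, 1872), (11616, 1680), (14352, 0),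
      (17760, 0)] (.rel2 [(11312, 10368), (8928, 7888), (8464, 6576), (8160, 4672), (8448, 3568),
      (13792, 2480), (13915, 10931)] (.rel1 [(11424, 1872), (11616, 1680), (14352, 0), (17760, 0),
      (13008, 3696), (11569, 3409)] (.rel2 [(8464, 6576), (8160, 4672), (8448, 3568), (13792, 2480),
      (13915, 10931), (9679, 10015)] (.rel1 [(11424, 1872), (11616, 1680), (14352, 0), (17760, 0),
      (11691, 4721)] (.rel2 [(8448, 3568), (13792, 2480), (13915, 10931), (9679, 10015), (8002,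
      5271)] (.rel1 [(14352, 0), (17760, 0), (11691, 4721), (11416, 1800)] (.rel2 [(8448, 3568),
      (13792, 2480), (13915, 10931), (6915, 9418)] (.leaf ⟨1, 0, 0, 3⟩))))))))

theorem ok2_6zs_0 :
    chkT cF6nn cF6nn T2_6zs_0 (13920, 960) (14192, 1040) dum n2_Z n2_S3 = true := by
  decide +kernel

/-- tree -/
def T2_6zs_1 : CT :=
  .rel1 [(14352, 0), (16000, 0), (13296, 3472), (13008, 3696), (12768, 3648), (11456, 2208), (11416,
      1800)] (.rel2 [(13792, 2480), (13872, 7984), (13088, 10752), (11312, 10368), (8928, 7888),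
      (8464, 6576), (7997, 3658)] (.rel1 [(13008, 3696), (12768, 3648), (11456, 2208), (11416,
      1800), (14352, 0), (17760, 0)] (.rel2 [(11312, 10368), (8928, 7888), (8464, 6576), (7997,
      3658), (13792, 2480), (13915, 10931)] (.rel1 [(11456, 2208), (11416, 1800), (14352, 0),
      (17760, 0), (12892, 3787)] (.rel2 [(8464, 6576), (7997, 3658), (13792, 2480), (13915, 10931),
      (9679, 10015)] (.rel1 [(14352, 0), (17760, 0), (12892, 3787), (11202, 1929)] (.rel2 [(13792,
      2480), (13915, 10931), (9679, 10015), (7469, 3763)] (.leaf ⟨1, 0, 0, 8⟩))))))))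

theorem ok2_6zs_1 :
    chkT cF6nn cF6nn T2_6zs_1 (14192, 1040) (14384, 1168) dum n2_Z n2_S3 = true := by
  decide +kernel

/-- tree -/
def T2_6zs_2 : CT :=
  .seg (14296, 1304) (.rel1 [(14352, 0), (16000, 0), (13296, 3472), (13008, 3696), (12768, 3648),
      (11456, 2208), (11416, 1800)] (.rel2 [(13792, 2480), (13872, 7984), (13088, 10752), (11312,
      10368), (8928, 7888), (8464, 6576), (7997, 3658)] (.rel1 [(12768, 3648), (11456, 2208),
      (11416, 1800), (14352, 0), (16000, 0), (13106, 3716)] (.rel2 [(8928, 7888), (8464, 6576),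
      (7997, 3658), (13792, 2480), (13872, 7984), (12768, 11883)] (.rel1 [(11416, 1800), (14352, 0),
      (16000, 0), (13106, 3716), (11572, 3408)] (.rel2 [(7997, 3658), (13792, 2480), (13872, 7984),
      (12768, 11883), (8622, 7570)] (.rel1 [(16000, 0), (13106, 3716), (11572, 3408), (11240, 0)]
      (.rel2 [(7997, 3658), (13792, 2480), (13872, 7984), (10558, 19689)] (.rel1 [(11240, 0),
      (16000, 0), (11769, 5433)] (.leaf ⟨0, 1, 0, 0⟩)))))))))) (.cut2 false 11008 [(8160, 4672),
      (8448, 3568), (11008, 3046), (11008, 10052), (8928, 7888), (8464, 6576)] [(11008, 3046),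
      (13792, 2480), (13872, 7984), (13088, 10752), (11312, 10368), (11008, 10052)] (.rel1 [(14352,
      0), (16000, 0), (13296, 3472), (13008, 3696), (12768, 3648), (11456, 2208), (11416, 1800)]
      (.rel2 [(11008, 3046), (11008, 10052), (8928, 7888), (8464, 6576), (7997, 3658)] (.rel1
      [(12768, 3648), (11456, 2208), (11416, 1800), (14352, 0), (16000, 0), (13106, 3716)] (.rel2
      [(7997, 3658), (11008, 3046), (11008, 10052), (8622, 7570)] (.rel1 [(11416, 1800), (14352, 0),
      (16000, 0), (13106, 3716), (11572, 3408)] (.rel2 [(11008, 3046), (11008, 10052), (5372, 4190)]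
      (.rel1 [(11240, 0), (16000, 0), (11769, 5433)] (.leaf ⟨0, 1, 0, 0⟩)))))))) (.cut1 false 13712
      [(11424, 1872), (11616, 1680), (13712, 392), (13712, 2938), (13296, 3472), (13008, 3696),
      (12768, 3648), (11456, 2208)] [(13712, 392), (14352, 0), (16000, 0), (13712, 2938)] (.rel1
      [(13712, 392), (13712, 2938), (13296, 3472), (13008, 3696), (12768, 3648), (11456, 2208),
      (11416, 1801)] (.rel2 [(11008, 3046), (13792, 2480), (13872, 7984), (13088, 10752), (11007,
      10303)] (.rel1 [(12768, 3648), (11456, 2208), (11416, 1801), (13712, 392), (13712, 2938),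
      (13106, 3716)] (.rel2 [(11007, 10303), (11008, 3046), (13792, 2480), (13915, 10931)] (.rel1
      [(11416, 1801), (13712, 392), (13712, 25499)] (.leaf ⟨0, 1, 0, 0⟩)))))) (.seg (14252, 1372)
      (.rel1 [(16000, 0), (13712, 2938), (13711, 0)] (.rel2 [(13792, 2480), (13872, 7984), (12768,
      11882), (5370, 4190)] (.leaf ⟨0, 39, 9, 0⟩))) (.rel1 [(16000, 0), (13712, 2938), (13711, 0)]
      (.rel2 [(13088, 10752), (11007, 10303), (11008, 3046), (15532, 2125)] (.leaf ⟨0, 18, 9,
      0⟩))))))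

theorem ok2_6zs_2 :
    chkT cF6nn cF6nn T2_6zs_2 (14384, 1168) (14208, 1440) dum n2_Z n2_S3 = true := by
  decide +kernel

/-- tree -/
def T2_6zs_3 : CT :=
  .rel1 [(14352, 0), (16000, 0), (13296, 3472), (13008, 3696), (12768, 3648), (11456, 2208), (11416,
      1800)] (.rel2 [(13792, 2480), (13872, 7984), (13088, 10752), (11312, 10368), (8928, 7888),
      (8464, 6576), (7997, 3658)] (.rel1 [(11456, 2208), (11416, 1800), (14352, 0), (16000, 0),
      (13296, 3472), (12892, 3787)] (.rel2 [(13088, 10752), (11312, 10368), (8928, 7888), (8464,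
      6576), (7997, 3658), (15532, 2125)] (.rel1 [(14352, 0), (16000, 0), (13296, 3472), (12892,
      3787), (11202, 1929)] (.rel2 [(8464, 6576), (7997, 3658), (15532, 2125), (13088, 10752),
      (9679, 10015)] (.rel1 [(16000, 0), (13296, 3472), (12892, 3787), (9446, 0)] (.rel2 [(15532,
      2125), (13088, 10752), (9679, 10015), (7469, 3764)] (.rel1 [(9446, 0), (16000, 0), (12977,
      3882)] (.leaf ⟨0, 4, 7, 0⟩)))))))))

theorem ok2_6zs_3 :
    chkT cF6nn cF6nn T2_6zs_3 (14208, 1440) (14064, 1504) dum n2_Z n2_S3 = true := by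
  decide +kernel

/-- tree -/
def T2_6zs_4 : CT :=
  .rel1 [(14352, 0), (16000, 0), (13296, 3472), (13008, 3696), (12768, 3648), (11456, 2208), (11416,
      1800)] (.rel2 [(13792, 2480), (13872, 7984), (13088, 10752), (11312, 10368), (8928, 7888),
      (8464, 6576), (7997, 3658)] (.rel1 [(11456, 2208), (11416, 1800), (14352, 0), (16000, 0),
      (13296, 3472), (12892, 3787)] (.rel2 [(13088, 10752), (11312, 10368), (8928, 7888), (8464,
      6576), (7997, 3658), (15532, 2125)] (.rel1 [(14352, 0), (16000, 0), (13296, 3472), (12892,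
      3787), (11202, 1929)] (.rel2 [(8464, 6576), (7997, 3658), (15532, 2125), (13088, 10752),
      (9679, 10015)] (.rel1 [(16000, 0), (13296, 3472), (12892, 3787), (9446, 0)] (.rel2 [(15532,
      2125), (13088, 10752), (9679, 10015), (7469, 3764)] (.leaf ⟨0, 1, 5, 0⟩))))))))

theorem ok2_6zs_4 :
    chkT cF6nn cF6nn T2_6zs_4 (14064, 1504) (13888, 1552) dum n2_Z n2_S3 = true := by
  decide +kernel

/-- tree -/
def T2_6zs_5 : CT :=
  .rel1 [(14352, 0), (16000, 0), (13296, 3472), (13008, 3696), (12768, 3648), (11456, 2208), (11416,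
      1800)] (.rel2 [(11312, 10368), (8928, 7888), (8464, 6576), (8160, 4672), (8448, 3568), (13792,
      2480), (13915, 10931)] (.rel1 [(14352, 0), (16000, 0), (13296, 3472), (13008, 3696), (12768,
      3648), (11202, 1930)] (.rel2 [(8448, 3568), (13792, 2480), (13915, 10931), (11312, 10368),
      (8928, 7888), (8002, 5272)] (.rel1 [(13008, 3696), (12768, 3648), (11202, 1930), (14352, 0),
      (17760, 0)] (.rel2 [(13792, 2480), (13915, 10931), (11312, 10368), (8928, 7888), (7468, 3766)]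
      (.rel1 [(17760, 0), (13008, 3696), (12768, 3648), (9441, 0)] (.rel2 [(8928, 7888), (7468,
      3766), (13792, 2480), (13947, 13110)] (.leaf ⟨39, 0, 9, 0⟩))))))))

theorem ok2_6zs_5 :
    chkT cF6nn cF6nn T2_6zs_5 (13888, 1552) (13808, 1200) dum n2_Z n2_S3 = true := by
  decide +kernel

/-- tree -/
def T2_6zs_6 : CT :=
  .rel1 [(14352, 0), (16000, 0), (13296, 3472), (13008, 3696), (12768, 3648), (11456, 2208), (11416,
      1800)] (.rel2 [(13088, 10752), (11312, 10368), (8928, 7888), (8464, 6576), (8160, 4672),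
      (8448, 3568), (15532, 2124)] (.rel1 [(13008, 3696), (12768, 3648), (11456, 2208), (11416,
      1800), (14352, 0), (17760, 0)] (.rel2 [(8928, 7888), (8464, 6576), (8160, 4672), (8448, 3568),
      (15532, 2124), (12768, 11883)] (.rel1 [(11456, 2208), (11416, 1800), (14352, 0), (17760, 0),
      (12892, 3787)] (.rel2 [(15532, 2124), (12768, 11883), (8928, 7888), (8464, 6576), (7997,
      3658)] (.rel1 [(17760, 0), (12892, 3787), (11456, 2208), (11238, 0)] (.leaf ⟨79, 0, 0,
      13⟩)))))))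

theorem ok2_6zs_6 :
    chkT cF6nn cF6nn T2_6zs_6 (13808, 1200) (13920, 960) dum n2_Z n2_S3 = true := by
  decide +kernel

theorem fr2_6zs {z k l : ℂ} (hz : OnE v2_6zs z) (hk : k ∈ Poly p2_Z)
    (hl : l ∈ Poly p2_S3) :
    k ^ 2 + l ^ 2 - 2 * k * l * (32 * z ^ 6 - 48 * z ^ 4 + 18 * z ^ 2 - 1) + (z * (32 * z ^ 5 - 32 *
        z ^ 3 + 6 * z)) ^ 2 ≠ 0 := by
  have h := edge_use rpF6nn (E := L2_6zs) (V0 := dum) (V1 := n2_Z) (V2 := n2_S3) (fun e he => by
    simp only [L2_6zs, List.mem_cons, List.not_mem_nil, or_false] at he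
    rcases he with rfl | rfl | rfl | rfl | rfl | rfl | rfl
    exacts [⟨_, ok2_6zs_0⟩, ⟨_, ok2_6zs_1⟩, ⟨_, ok2_6zs_2⟩, ⟨_, ok2_6zs_3⟩, ⟨_, ok2_6zs_4⟩, ⟨_,
        ok2_6zs_5⟩, ⟨_, ok2_6zs_6⟩]) (V := v2_6zs) (by decide) hz zero_dum (rg2_Z hk) (rg2_S3 hl)
  rw [evF6nn (mr_false k) (mr_false l)] at h
  exact fun h0 => h (by rw [h0, mul_zero])

/-- edges -/
def L2_6ss : List ((ℕ × ℕ) × (ℕ × ℕ)) :=
  [((13552, 1184), (13680, 992)), ((13680, 992), (13808, 912)), ((13808, 912), (14256, 1184)),
      ((14256, 1184), (13840, 1904)), ((13840, 1904), (13616, 1776)), ((13616, 1776), (13488,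
      1376)), ((13488, 1376), (13552, 1184))]

/-- tree -/
def T2_6ss_0 : CT :=
  .cut2 false 11008 [(8160, 4672), (8448, 3568), (11008, 3046), (11008, 10052), (8928, 7888), (8464,
      6576)] [(11008, 3046), (13792, 2480), (13872, 7984), (13088, 10752), (11312, 10368), (11008,
      10052)] (.cut1 false 11008 [(8160, 4672), (8448, 3568), (11008, 3046), (11008, 10052), (8928,
      7888), (8464, 6576)] [(11008, 3046), (13792, 2480), (13872, 7984), (13088, 10752), (11312,
      10368), (11008, 10052)] (.cut1 false 9584 [(8160, 4672), (8448, 3568), (9584, 3336), (9584,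
      8571), (8928, 7888), (8464, 6576)] [(9584, 3336), (11008, 3046), (11008, 10052), (9584, 8571)]
      (.cut2 false 9584 [(8160, 4672), (8448, 3568), (9584, 3336), (9584, 8571), (8928, 7888),
      (8464, 6576)] [(9584, 3336), (11008, 3046), (11008, 10052), (9584, 8571)] (.cut1 false 8864
      [(8160, 4672), (8448, 3568), (8864, 3483), (8864, 7708), (8464, 6576)] [(8864, 3483), (9584,
      3336), (9584, 8571), (8928, 7888), (8864, 7708)] (.cut2 false 8864 [(8160, 4672), (8448,
      3568), (8864, 3483), (8864, 7708), (8464, 6576)] [(8864, 3483), (9584, 3336), (9584, 8571),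
      (8928, 7888), (8864, 7708)] (.cut1 true 5584 [(8160, 4672), (8448, 3568), (8864, 3483), (8864,
      5584), (8305, 5584)] [(8864, 5584), (8864, 7708), (8464, 6576), (8305, 5584)] (.rel1 [(8864,
      5584), (8305, 5584), (8160, 4672), (8864, 1972)] (.rel2 [(8864, 7708), (8464, 6576), (8160,
      4672), (8864, 1972)] (.leaf ⟨7, 0, 0, 4⟩))) (.rel2 [(8864, 7708), (8464, 6576), (8160, 4672),
      (8864, 1972)] (.leaf ⟨34, 0, 0, 21⟩))) (.rel1 [(8864, 7708), (8464, 6576), (8160, 4672),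
      (8864, 1972)] (.rel2 [(8864, 7708), (8864, 3483), (9584, 3336), (9584, 9733)] (.rel1 [(8864,
      1972), (8864, 7708), (8002, 5271)] (.leaf ⟨4, 0, 0, 3⟩))))) (.rel1 [(8864, 7708), (8864,
      3483), (9584, 3336), (9584, 9733)] (.rel2 [(8448, 3568), (9584, 3336), (9584, 9743), (8002,
      5272)] (.leaf ⟨4, 0, 0, 3⟩)))) (.rel1 [(9584, 3336), (9584, 9742), (7468, 3766)] (.leaf ⟨7, 0,
      0, 4⟩))) (.rel2 [(11008, 3046), (11008, 13765), (7468, 3766)] (.leaf ⟨4, 0, 0, 3⟩))) (.rel1
      [(13088, 10752), (11312, 10368), (11008, 10052), (11008, 3046), (15532, 2125)] (.rel2 [(8448,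
      3568), (11008, 3046), (11008, 10052), (8928, 7888), (8002, 5272)] (.rel1 [(11008, 10052),
      (11008, 3046), (15532, 2125), (12768, 11882)] (.rel2 [(8448, 3568), (11008, 3046), (11008,
      10052), (7661, 6570)] (.rel1 [(11008, 3046), (15532, 2125), (11008, 18095)] (.leaf ⟨2, 0, 0,
      2⟩))))))) (.rel1 [(13088, 10752), (11312, 10368), (8928, 7888), (8464, 6576), (8160, 4672),
      (8448, 3568), (15532, 2124)] (.rel2 [(13088, 10752), (11312, 10368), (11008, 10052), (11008,
      3046), (15532, 2125)] (.rel1 [(8928, 7888), (8464, 6576), (8160, 4672), (8448, 3568), (15532,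
      2124), (12768, 11883)] (.rel2 [(11008, 10052), (11008, 3046), (15532, 2125), (12768, 11882)]
      (.rel1 [(8448, 3568), (15532, 2124), (12768, 11883), (8928, 7888), (8002, 5272)] (.rel2
      [(11008, 3046), (15532, 2125), (11008, 18095)] (.rel1 [(15532, 2124), (11690, 15691), (7468,
      3766)] (.leaf ⟨2, 0, 0, 2⟩))))))))

theorem ok2_6ss_0 :
    chkT cF6nn cF6nn T2_6ss_0 (13552, 1184) (13680, 992) dum n2_S3 n2_S3 = true := by
  decide +kernel

/-- tree -/
def T2_6ss_1 : CT :=
  .rel1 [(8928, 7888), (8464, 6576), (8160, 4672), (8448, 3568), (13792, 2480), (13872, 7984),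
      (12768, 11883)] (.rel2 [(13088, 10752), (11312, 10368), (8928, 7888), (8464, 6576), (8160,
      4672), (8448, 3568), (15532, 2124)] (.rel1 [(8160, 4672), (8448, 3568), (13792, 2480), (13872,
      7984), (12768, 11883), (8621, 7569)] (.rel2 [(8928, 7888), (8464, 6576), (8160, 4672), (8448,
      3568), (15532, 2124), (12768, 11883)] (.rel1 [(8621, 7569), (8160, 4672), (8448, 3568),
      (13792, 2480), (13947, 13110)] (.rel2 [(8160, 4672), (8448, 3568), (15532, 2124), (12768,
      11883), (8621, 7569)] (.leaf ⟨2, 0, 0, 2⟩))))))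

theorem ok2_6ss_1 :
    chkT cF6nn cF6nn T2_6ss_1 (13680, 992) (13808, 912) dum n2_S3 n2_S3 = true := by
  decide +kernel

/-- tree -/
def T2_6ss_2 : CT :=
  .rel1 [(11312, 10368), (8928, 7888), (8464, 6576), (8160, 4672), (8448, 3568), (13792, 2480),
      (13915, 10931)] (.rel2 [(11312, 10368), (8928, 7888), (8464, 6576), (8160, 4672), (8448,
      3568), (13792, 2480), (13915, 10931)] (.rel1 [(8464, 6576), (8160, 4672), (8448, 3568),
      (13792, 2480), (13915, 10931), (9679, 10015)] (.rel2 [(8464, 6576), (8160, 4672), (8448,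
      3568), (13792, 2480), (13915, 10931), (9679, 10015)] (.rel1 [(8448, 3568), (13792, 2480),
      (13915, 10931), (9679, 10015), (8002, 5271)] (.rel2 [(8160, 4672), (8448, 3568), (13792,
      2480), (13915, 10931), (8988, 9866)] (.rel1 [(8448, 3568), (13792, 2480), (13915, 10931),
      (6915, 9418)] (.rel2 [(13792, 2480), (14393, 43772), (7997, 3658)] (.leaf ⟨0, 1, 0,
      20⟩))))))))

theorem ok2_6ss_2 :
    chkT cF6nn cF6nn T2_6ss_2 (13808, 912) (14256, 1184) dum n2_S3 n2_S3 = true := by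
  decide +kernel

/-- tree -/
def T2_6ss_3 : CT :=
  .seg (14048, 1544) (.seg (14152, 1364) (.cut1 false 11008 [(8160, 4672), (8448, 3568), (11008,
      3046), (11008, 10052), (8928, 7888), (8464, 6576)] [(11008, 3046), (13792, 2480), (13872,
      7984), (13088, 10752), (11312, 10368), (11008, 10052)] (.rel1 [(11008, 3046), (11008, 10052),
      (8928, 7888), (8464, 6576), (7997, 3658)] (.rel2 [(8464, 6576), (8160, 4672), (8448, 3568),
      (13792, 2480), (13872, 7984), (13088, 10752), (9679, 10015)] (.rel1 [(7997, 3658), (11008,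
      3046), (11008, 10052), (8622, 7570)] (.rel2 [(8448, 3568), (13792, 2480), (13872, 7984),
      (13088, 10752), (9679, 10015), (8002, 5271)] (.rel1 [(11008, 3046), (11008, 10052), (5372,
      4190)] (.rel2 [(6915, 9418), (8448, 3568), (13792, 2480), (13915, 10931)] (.leaf ⟨0, 1, 0,
      0⟩))))))) (.cut2 false 11008 [(8160, 4672), (8448, 3568), (11008, 3046), (11008, 10052),
      (8928, 7888), (8464, 6576)] [(11008, 3046), (13792, 2480), (13872, 7984), (13088, 10752),
      (11312, 10368), (11008, 10052)] (.rel1 [(11008, 10052), (11008, 3046), (13792, 2480), (13872,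
      7984), (12768, 11882)] (.rel2 [(11008, 3046), (11008, 10052), (8928, 7888), (8464, 6576),
      (7997, 3658)] (.rel1 [(13792, 2480), (13872, 7984), (12768, 11882), (5370, 4190)] (.rel2
      [(7997, 3658), (11008, 3046), (11008, 10052), (8622, 7570)] (.rel1 [(5370, 4190), (13792,
      2480), (13947, 13108)] (.rel2 [(11008, 3046), (11008, 10052), (5372, 4190)] (.leaf ⟨0, 1, 0,
      0⟩))))))) (.cut1 true 6608 [(11008, 3046), (13792, 2480), (13852, 6608), (11008, 6608)]
      [(13852, 6608), (13872, 7984), (13088, 10752), (11312, 10368), (11008, 10052), (11008, 6608)]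
      (.cut2 true 6608 [(11008, 3046), (13792, 2480), (13852, 6608), (11008, 6608)] [(13852, 6608),
      (13872, 7984), (13088, 10752), (11312, 10368), (11008, 10052), (11008, 6608)] (.seg (14204,
      1274) (.leaf ⟨0, 1, 0, 0⟩) (.leaf ⟨0, 39, 9, 0⟩)) (.rel2 [(11008, 6608), (13852, 6608),
      (13915, 10931), (11007, 10303)] (.leaf ⟨0, 1, 0, 0⟩))) (.rel1 [(11312, 10368), (11008, 10052),
      (11008, 6608), (13852, 6608), (13915, 10931)] (.rel2 [(11008, 10052), (11008, 3046), (13792,
      2480), (13872, 7984), (12768, 11882)] (.rel1 [(11008, 6608), (13852, 6608), (13915, 10931),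
      (11007, 10303)] (.rel2 [(5370, 4190), (13792, 2480), (13947, 13108)] (.leaf ⟨0, 1, 0,
      0⟩)))))))) (.rel1 [(13792, 2480), (13872, 7984), (13088, 10752), (11312, 10368), (8928, 7888),
      (8464, 6576), (7997, 3658)] (.rel2 [(13792, 2480), (13872, 7984), (13088, 10752), (11312,
      10368), (8928, 7888), (8464, 6576), (7997, 3658)] (.rel1 [(8928, 7888), (8464, 6576), (7997,
      3658), (13792, 2480), (13872, 7984), (12768, 11883)] (.rel2 [(8928, 7888), (8464, 6576),
      (7997, 3658), (13792, 2480), (13872, 7984), (12768, 11883)] (.rel1 [(7997, 3658), (13792,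
      2480), (13872, 7984), (12768, 11883), (8622, 7570)] (.rel2 [(7997, 3658), (13792, 2480),
      (13872, 7984), (12768, 11883), (8622, 7570)] (.rel1 [(7997, 3658), (13792, 2480), (13872,
      7984), (10558, 19689)] (.rel2 [(7997, 3658), (13792, 2480), (13872, 7984), (10558, 19689)]
      (.leaf ⟨0, 11, 5, 0⟩)))))))))) (.seg (13944, 1724) (.rel1 [(8928, 7888), (8464, 6576), (8160,
      4672), (8448, 3568), (13792, 2480), (13872, 7984), (12768, 11883)] (.rel2 [(13792, 2480),
      (13872, 7984), (13088, 10752), (11312, 10368), (8928, 7888), (8464, 6576), (7997, 3658)]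
      (.rel1 [(8448, 3568), (13792, 2480), (13872, 7984), (12768, 11883), (8928, 7888), (8002,
      5272)] (.rel2 [(8928, 7888), (8464, 6576), (7997, 3658), (13792, 2480), (13872, 7984), (12768,
      11883)] (.rel1 [(8002, 5272), (8448, 3568), (13792, 2480), (13872, 7984), (11690, 15691)]
      (.rel2 [(8464, 6576), (7997, 3658), (13792, 2480), (13872, 7984), (11689, 15695)] (.rel1
      [(13792, 2480), (13872, 7984), (11690, 15691), (7468, 3766)] (.rel2 [(13792, 2480), (13872,
      7984), (11689, 15695), (7468, 3764)] (.leaf ⟨0, 31, 25, 0⟩))))))))) (.rel1 [(13792, 2480),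
      (13872, 7984), (13088, 10752), (11312, 10368), (8928, 7888), (8464, 6576), (7997, 3658)]
      (.rel2 [(8464, 6576), (8160, 4672), (8448, 3568), (13792, 2480), (13872, 7984), (13088,
      10752), (9679, 10015)] (.rel1 [(8464, 6576), (7997, 3658), (13792, 2480), (13872, 7984),
      (13088, 10752), (9679, 10015)] (.rel2 [(8448, 3568), (13792, 2480), (13872, 7984), (13088,
      10752), (9679, 10015), (8002, 5271)] (.rel1 [(7997, 3658), (13792, 2480), (13872, 7984),
      (13088, 10752), (8989, 9866)] (.rel2 [(8448, 3568), (13792, 2480), (13872, 7984), (13088,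
      10752), (6915, 9418)] (.rel1 [(13088, 10752), (8989, 9866), (7997, 3658), (15532, 2125)]
      (.rel2 [(13088, 10752), (6915, 9418), (8448, 3568), (15532, 2124)] (.leaf ⟨0, 4, 7,
      0⟩))))))))))

theorem ok2_6ss_3 :
    chkT cF6nn cF6nn T2_6ss_3 (14256, 1184) (13840, 1904) dum n2_S3 n2_S3 = true := by
  decide +kernel

/-- tree -/
def T2_6ss_4 : CT :=
  .rel1 [(13088, 10752), (11312, 10368), (8928, 7888), (8464, 6576), (8160, 4672), (8448, 3568),
      (15532, 2124)] (.rel2 [(8160, 4672), (8448, 3568), (13792, 2480), (13872, 7984), (13088,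
      10752), (11312, 10368), (8621, 7569)] (.rel1 [(8160, 4672), (8448, 3568), (15532, 2124),
      (13088, 10752), (11312, 10368), (8621, 7569)] (.rel2 [(13792, 2480), (13872, 7984), (13088,
      10752), (11312, 10368), (8621, 7569), (7997, 3658)] (.rel1 [(15532, 2124), (13088, 10752),
      (11312, 10368), (8621, 7569), (7997, 3658)] (.rel2 [(13792, 2480), (13872, 7984), (13088,
      10752), (11312, 10368), (5372, 4190)] (.rel1 [(15532, 2124), (13088, 10752), (11312, 10368),
      (5373, 4191)] (.rel2 [(13088, 10752), (11312, 10368), (5372, 4190), (15532, 2125)] (.leaf ⟨7,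
      0, 4, 0⟩))))))))

theorem ok2_6ss_4 :
    chkT cF6nn cF6nn T2_6ss_4 (13840, 1904) (13616, 1776) dum n2_S3 n2_S3 = true := by
  decide +kernel

/-- tree -/
def T2_6ss_5 : CT :=
  .cut1 true 6608 [(8160, 4672), (8448, 3568), (13792, 2480), (13852, 6608), (8475, 6608), (8464,
      6576)] [(13852, 6608), (13872, 7984), (13088, 10752), (11312, 10368), (8928, 7888), (8475,
      6608)] (.rel1 [(13792, 2480), (13852, 6608), (8475, 6608), (8464, 6576), (7997, 3658)] (.rel2
      [(13792, 2480), (13872, 7984), (13088, 10752), (11312, 10368), (8928, 7888), (8464, 6576),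
      (7997, 3658)] (.rel1 [(13792, 2480), (13852, 6608), (8475, 6608), (7494, 3758)] (.rel2 [(5371,
      4188), (15532, 2125), (12768, 11883)] (.leaf ⟨1, 0, 0, 0⟩))))) (.cut2 true 6608 [(8160, 4672),
      (8448, 3568), (13792, 2480), (13852, 6608), (8475, 6608), (8464, 6576)] [(13852, 6608),
      (13872, 7984), (13088, 10752), (11312, 10368), (8928, 7888), (8475, 6608)] (.rel1 [(13088,
      10752), (11312, 10368), (8928, 7888), (8475, 6608), (14262, 6608)] (.rel2 [(13792, 2480),
      (13852, 6608), (8475, 6608), (8464, 6576), (7997, 3658)] (.rel1 [(14262, 6608), (13088,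
      10752), (11312, 10368), (7696, 6607)] (.rel2 [(13792, 2480), (13852, 6608), (8475, 6608),
      (7494, 3758)] (.rel1 [(7696, 6607), (14262, 6608), (12768, 11883)] (.leaf ⟨1, 0, 0, 0⟩))))))
      (.cut1 true 8672 [(13852, 6608), (13872, 7984), (13678, 8672), (9681, 8672), (8928, 7888),
      (8475, 6608)] [(13678, 8672), (13088, 10752), (11312, 10368), (9681, 8672)] (.cut1 false 11168
      [(11168, 8672), (9681, 8672), (8928, 7888), (8475, 6608), (11168, 6608)] [(13852, 6608),
      (13872, 7984), (13678, 8672), (11168, 8672), (11168, 6608)] (.cut2 true 8672 [(13852, 6608),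
      (13872, 7984), (13678, 8672), (9681, 8672), (8928, 7888), (8475, 6608)] [(13678, 8672),
      (13088, 10752), (11312, 10368), (9681, 8672)] (.rel1 [(11168, 6608), (11168, 8672), (9681,
      8672), (7697, 6607)] (.rel2 [(13852, 6608), (13882, 8672), (9681, 8672), (7697, 6607)] (.leaf
      ⟨1, 0, 0, 0⟩))) (.cut2 false 11664 [(11664, 10445), (11312, 10368), (9681, 8672), (11664,
      8672)] [(13678, 8672), (13088, 10752), (11664, 10445), (11664, 8672)] (.seg (13552, 1576)
      (.rel1 [(7697, 6607), (11168, 6608), (11168, 10220)] (.rel2 [(9681, 8672), (11664, 8672),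
      (11664, 10735)] (.leaf ⟨79, 0, 0, 13⟩))) (.rel1 [(8928, 7888), (8475, 6608), (11168, 6608),
      (11168, 10221)] (.rel2 [(9681, 8672), (11664, 8672), (11664, 10735)] (.rel1 [(11168, 6608),
      (11168, 10221), (7698, 6607)] (.leaf ⟨79, 0, 0, 13⟩))))) (.rel1 [(7697, 6607), (11168, 6608),
      (11168, 10220)] (.leaf ⟨79, 0, 0, 13⟩)))) (.rel1 [(11168, 8672), (11168, 6608), (13852, 6608),
      (13882, 8672)] (.rel2 [(7696, 6607), (14262, 6608), (12768, 11883)] (.leaf ⟨1, 0, 0, 0⟩))))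
      (.rel1 [(9681, 8672), (13678, 8672), (12768, 11883)] (.rel2 [(14262, 6608), (13088, 10752),
      (11312, 10368), (7696, 6607)] (.leaf ⟨79, 0, 0, 13⟩)))))

theorem ok2_6ss_5 :
    chkT cF6nn cF6nn T2_6ss_5 (13616, 1776) (13488, 1376) dum n2_S3 n2_S3 = true := by
  decide +kernel

/-- tree -/
def T2_6ss_6 : CT :=
  .rel1 [(11312, 10368), (8928, 7888), (8464, 6576), (8160, 4672), (8448, 3568), (13792, 2480),
      (13915, 10931)] (.rel2 [(8928, 7888), (8464, 6576), (8160, 4672), (8448, 3568), (13792, 2480),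
      (13872, 7984), (12768, 11883)] (.rel1 [(13792, 2480), (13915, 10931), (11312, 10368), (8928,
      7888), (8464, 6576), (7997, 3658)] (.rel2 [(12768, 11883), (8928, 7888), (8464, 6576), (8160,
      4672), (8448, 3568), (15531, 2125)] (.rel1 [(8928, 7888), (8464, 6576), (7997, 3658), (13792,
      2480), (13947, 13110)] (.rel2 [(15531, 2125), (12768, 11883), (8928, 7888), (8464, 6576),
      (7997, 3658)] (.rel1 [(13792, 2480), (13947, 13110), (8928, 7888), (7468, 3764)] (.leaf ⟨36,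
      0, 0, 17⟩)))))))

theorem ok2_6ss_6 :
    chkT cF6nn cF6nn T2_6ss_6 (13488, 1376) (13552, 1184) dum n2_S3 n2_S3 = true := by
  decide +kernel

theorem fr2_6ss {z k l : ℂ} (hz : OnE v2_6ss z) (hk : k ∈ Poly p2_S3)
    (hl : l ∈ Poly p2_S3) :
    k ^ 2 + l ^ 2 - 2 * k * l * (32 * z ^ 6 - 48 * z ^ 4 + 18 * z ^ 2 - 1) + (z * (32 * z ^ 5 - 32 *
        z ^ 3 + 6 * z)) ^ 2 ≠ 0 := by
  have h := edge_use rpF6nn (E := L2_6ss) (V0 := dum) (V1 := n2_S3) (V2 := n2_S3) (fun e he => by
    simp only [L2_6ss, List.mem_cons, List.not_mem_nil, or_false] at he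
    rcases he with rfl | rfl | rfl | rfl | rfl | rfl | rfl
    exacts [⟨_, ok2_6ss_0⟩, ⟨_, ok2_6ss_1⟩, ⟨_, ok2_6ss_2⟩, ⟨_, ok2_6ss_3⟩, ⟨_, ok2_6ss_4⟩, ⟨_,
        ok2_6ss_5⟩, ⟨_, ok2_6ss_6⟩]) (V := v2_6ss) (by decide) hz zero_dum (rg2_S3 hk) (rg2_S3 hl)
  rw [evF6nn (mr_false k) (mr_false l)] at h
  exact fun h0 => h (by rw [h0, mul_zero])

end Pool.Agent.Work.MP_b30479_gtS.G2.SC
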