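import Pool.Agent.Work.MP_b30479_gt.TBS.G2.SRefD1D_0
import Pool.Agent.Work.MP_b30479_gt.TBS.G2.SRefD3D_0
import Pool.Agent.Work.MP_b30479_gt.TBS.G2.SRefD3G_0

section

/-!
# Part of `SRefD1D`
-/
set_option linter.style.longLine false

set_option deprecated.oldSectionVars true

namespace Pool.Agent.Work.MP_b30479_gtS.G2.SC

open scoped ComplexConjugate

theorem ok1_4aa_0 :
    chkT cF4mm cF4mm T1_4aa_0 (12784, 1312) (13264, 1008) dum n1_A2 n1_A2 = true := by
  decide +kernel

theorem ok1_4aa_1 :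
    chkT cF4mm cF4mm T1_4aa_1 (13264, 1008) (14176, 1280) dum n1_A2 n1_A2 = true := by
  decide +kernel

theorem ok1_4aa_2 :
    chkT cF4mm cF4mm T1_4aa_2 (14176, 1280) (13776, 2864) dum n1_A2 n1_A2 = true := by
  decide +kernel

theorem ok1_4aa_3 :
    chkT cF4mm cF4mm T1_4aa_3 (13776, 2864) (13200, 2608) dum n1_A2 n1_A2 = true := by
  decide +kernel

theorem ok1_4aa_5 :
    chkT cF4mm cF4mm T1_4aa_5 (13120, 2480) (12896, 1984) dum n1_A2 n1_A2 = true := by
  decide +kernel

end Pool.Agent.Work.MP_b30479_gtS.G2.SC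

end

section

/-!
# Part of `SRefD1D`
-/
set_option linter.style.longLine false

set_option deprecated.oldSectionVars true

namespace Pool.Agent.Work.MP_b30479_gtS.G2.SC

open scoped ComplexConjugate

theorem ok1_4aa_6 :
    chkT cF4mm cF4mm T1_4aa_6 (12896, 1984) (12784, 1312) dum n1_A2 n1_A2 = true := by
  decide +kernel

theorem ok1_4ss_1_q0 :
    chkT cF4nn cF4nn T1_4ss_1_5 (11824, 2928) (12560, 2760) dum [(8016, 3840), (12800, 0), (16000,
        0), (14652, 5392), (8068, 5392), (8016, 5024)] [(8016, 3840), (12800, 0), (16000, 0),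
        (14652, 5392), (8068, 5392), (8016, 5024)] = true := by
  decide +kernel

theorem ok1_4ss_1_q1 :
    chkT cF4nn cF4nn T1_4ss_1_6 (12560, 2760) (13296, 2592) dum [(8016, 3840), (12800, 0), (16000,
        0), (14652, 5392), (8068, 5392), (8016, 5024)] [(8016, 3840), (12800, 0), (16000, 0),
        (14652, 5392), (8068, 5392), (8016, 5024)] = true := by
  decide +kernel

theorem ok1_4ss_1_q3 :
    chkT cF4nn cF4nn T1_4ss_1_4 (11824, 2928) (13296, 2592) dum [(8016, 3840), (12800, 0), (16000,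
        0), (14652, 5392), (8068, 5392), (8016, 5024)] [(14652, 5392), (13984, 8064), (13296,
        10800), (11728, 10800), (8448, 8048), (8068, 5392)] = true := by
  decide +kernel

end Pool.Agent.Work.MP_b30479_gtS.G2.SC

end

section

/-!
# Part of `SRefD1D`
-/
set_option linter.style.longLine false

set_option deprecated.oldSectionVars true

namespace Pool.Agent.Work.MP_b30479_gtS.G2.SC

open scoped ComplexConjugate

theorem ok1_4ss_1_q5 :
    chkT cF4nn cF4nn T1_4ss_1_2 (11824, 2928) (13296, 2592) dum [(14652, 5392), (13984, 8064),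
        (13296, 10800), (11728, 10800), (8448, 8048), (8068, 5392)] n1_S2 = true := by
  decide +kernel

theorem ok1_4ss_3 :
    chkT cF4nn cF4nn T1_4ss_3 (13792, 2784) (12928, 5008) dum n1_S2 n1_S2 = true := by
  decide +kernel

theorem ok1_4ss_5_q0 :
    chkT cF4nn cF4nn T1_4ss_5_1 (12480, 5024) (11616, 4224) dum [(8016, 3840), (12800, 0), (16000,
        0), (14652, 5392), (8068, 5392), (8016, 5024)] n1_S2 = true := by
  decide +kernel

theorem ok1_4ss_5_q1 :
    chkT cF4nn cF4nn T1_4ss_5_3 (12480, 5024) (11616, 4224) dum [(14652, 5392), (13984, 8064),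
        (13296, 10800), (11728, 10800), (8448, 8048), (8068, 5392)] [(8016, 3840), (12800, 0),
        (16000, 0), (14652, 5392), (8068, 5392), (8016, 5024)] = true := by
  decide +kernel

theorem ok1_4ss_5_q2 :
    chkT cF4nn cF4nn T1_4ss_5_7 (12480, 5024) (12048, 4624) dum [(14652, 5392), (13976, 8096),
        (8505, 8096), (8448, 8048), (8068, 5392)] [(14652, 5392), (13984, 8064), (13296, 10800),
        (11728, 10800), (8448, 8048), (8068, 5392)] = true := by
  decide +kernel

theorem ok1_4ss_5_q3 :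
    chkT cF4nn cF4nn T1_4ss_5_9 (12480, 5024) (12048, 4624) dum [(13976, 8096), (13296, 10800),
        (11728, 10800), (8505, 8096)] [(14652, 5392), (13976, 8096), (8505, 8096), (8448, 8048),
        (8068, 5392)] = true := by
  decide +kernel

end Pool.Agent.Work.MP_b30479_gtS.G2.SC

end

section

/-!
# Part of `SRefD1D`
-/
set_option linter.style.longLine false

set_option deprecated.oldSectionVars true

namespace Pool.Agent.Work.MP_b30479_gtS.G2.SC

open scoped ComplexConjugate

theorem ok1_4ss_5_q4 :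
    chkT cF4nn cF4nn T1_4ss_5_11 (12480, 5024) (12264, 4824) dum [(13976, 8096), (13296, 10800),
        (11728, 10800), (8505, 8096)] [(13976, 8096), (13296, 10800), (11728, 10800), (8505, 8096)]
        = true := by
  decide +kernel

theorem ok1_4ss_5_q5 :
    chkT cF4nn cF4nn T1_4ss_5_13 (12264, 4824) (12156, 4724) dum [(13976, 8096), (13296, 10800),
        (11728, 10800), (8505, 8096)] [(13976, 8096), (13296, 10800), (11728, 10800), (8505, 8096)]
        = true := by
  decide +kernel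

theorem ok1_4ss_5_q6 :
    chkT cF4nn cF4nn T1_4ss_5_15 (12156, 4724) (12048, 4624) dum [(13976, 8096), (13296, 10800),
        (11728, 10800), (8505, 8096)] [(13976, 8096), (13639, 9440), (10106, 9440), (8505, 8096)] =
        true := by
  decide +kernel

theorem ok1_4ss_5_q7 :
    chkT cF4nn cF4nn T1_4ss_5_16 (12156, 4724) (12048, 4624) dum [(13976, 8096), (13296, 10800),
        (11728, 10800), (8505, 8096)] [(13639, 9440), (13296, 10800), (11728, 10800), (10106,
        9440)] = true := by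
  decide +kernel

theorem ok1_4ss_5_q13 :
    chkT cF4nn cF4nn T1_4ss_5_23 (12048, 4624) (11832, 4424) dum [(8431, 7936), (8068, 5392),
        (11360, 5392), (11360, 7936)] [(11360, 10492), (8448, 8048), (8068, 5392), (11360, 5392)] =
        true := by
  decide +kernel

theorem ok1_4ss_5_q14 :
    chkT cF4nn cF4nn T1_4ss_5_25 (12048, 4624) (11832, 4424) dum [(11360, 10492), (8448, 8048),
        (8431, 7936), (11360, 7936)] [(8431, 7936), (8068, 5392), (11360, 5392), (11360, 7936)] =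
        true := by
  decide +kernel

theorem ok1_4ss_5_q15 :
    chkT cF4nn cF4nn T1_4ss_5_31 (12048, 4624) (11940, 4524) dum [(9820, 9200), (8448, 8048),
        (8431, 7936), (11360, 7936), (11360, 9200)] [(9820, 9200), (8448, 8048), (8431, 7936),
        (11360, 7936), (11360, 9200)] = true := by
  decide +kernel

end Pool.Agent.Work.MP_b30479_gtS.G2.SC

end

section

/-!
# Part of `SRefD1D`
-/
set_option linter.style.longLine false

set_option deprecated.oldSectionVars true

namespace Pool.Agent.Work.MP_b30479_gtS.G2.SC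

open scoped ComplexConjugate

theorem ok1_4ss_5_q16 :
    chkT cF4nn cF4nn T1_4ss_5_33 (12048, 4624) (11940, 4524) dum [(9820, 9200), (8448, 8048),
        (8431, 7936), (9888, 7936), (9888, 9200)] [(11360, 10492), (9820, 9200), (11360, 9200)] =
        true := by
  decide +kernel

theorem ok1_4ss_5_q17 :
    chkT cF4nn cF4nn T1_4ss_5_34 (12048, 4624) (11940, 4524) dum [(9888, 7936), (11360, 7936),
        (11360, 9200), (9888, 9200)] [(11360, 10492), (9820, 9200), (11360, 9200)] = true := by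
  decide +kernel

theorem ok1_4ss_5_q20 :
    chkT cF4nn cF4nn T1_4ss_5_37 (12048, 4624) (11940, 4524) dum [(11360, 10492), (9820, 9200),
        (11360, 9200)] [(9095, 8592), (8448, 8048), (8431, 7936), (9888, 7936), (9888, 8592)] =
        true := by
  decide +kernel

theorem ok1_4ss_5_q21 :
    chkT cF4nn cF4nn T1_4ss_5_38 (12048, 4624) (11940, 4524) dum [(11360, 10492), (9820, 9200),
        (11360, 9200)] [(9888, 9257), (9095, 8592), (9888, 8592)] = true := by
  decide +kernel

theorem ok1_4ss_5_q23 :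
    chkT cF4nn cF4nn T1_4ss_5_36 (12048, 4624) (11940, 4524) dum [(11360, 10492), (9820, 9200),
        (11360, 9200)] [(11360, 10492), (9888, 9257), (9888, 7936), (11360, 7936)] = true := by
  decide +kernel

theorem ok1_4ss_5_q26 :
    chkT cF4nn cF4nn T1_4ss_5_41 (11940, 4524) (11832, 4424) dum [(9888, 9257), (8448, 8048),
        (8431, 7936), (9888, 7936)] [(9820, 9200), (8448, 8048), (8431, 7936), (11360, 7936),
        (11360, 9200)] = true := by
  decide +kernel

theorem ok1_4ss_5_q27 :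
    chkT cF4nn cF4nn T1_4ss_5_42 (11940, 4524) (11832, 4424) dum [(9888, 9257), (8448, 8048),
        (8431, 7936), (9888, 7936)] [(11360, 10492), (9820, 9200), (11360, 9200)] = true := by
  decide +kernel

end Pool.Agent.Work.MP_b30479_gtS.G2.SC

end

section

/-!
# Part of `SRefD1D`
-/
set_option linter.style.longLine false

set_option deprecated.oldSectionVars true

namespace Pool.Agent.Work.MP_b30479_gtS.G2.SC

open scoped ComplexConjugate

theorem ok1_4ss_5_q29 :
    chkT cF4nn cF4nn T1_4ss_5_40 (11940, 4524) (11832, 4424) dum [(11360, 10492), (9888, 9257),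
        (9888, 7936), (11360, 7936)] [(11360, 10492), (8448, 8048), (8431, 7936), (11360, 7936)] =
        true := by
  decide +kernel

theorem ok1_4ss_5_q34 :
    chkT cF4nn cF4nn T1_4ss_5_22 (11832, 4424) (11616, 4224) dum [(11360, 10492), (8448, 8048),
        (8068, 5392), (11360, 5392)] [(11360, 10492), (8448, 8048), (8068, 5392), (11360, 5392)] =
        true := by
  decide +kernel

theorem ok1_4ss_5_q36 :
    chkT cF4nn cF4nn T1_4ss_5_20 (12048, 4624) (11616, 4224) dum [(14652, 5392), (13984, 8064),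
        (13296, 10800), (11728, 10800), (11360, 10492), (11360, 5392)] [(11360, 10492), (8448,
        8048), (8068, 5392), (11360, 5392)] = true := by
  decide +kernel

theorem ok1_4ss_5_q38 :
    chkT cF4nn cF4nn T1_4ss_5_18 (12048, 4624) (11616, 4224) dum [(14652, 5392), (13984, 8064),
        (13296, 10800), (11728, 10800), (8448, 8048), (8068, 5392)] [(14652, 5392), (13984, 8064),
        (13296, 10800), (11728, 10800), (11360, 10492), (11360, 5392)] = true := by
  decide +kernel

theorem ok1_4ss_6 :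
    chkT cF4nn cF4nn T1_4ss_6 (11616, 4224) (11616, 3840) dum n1_S2 n1_S2 = true := by
  decide +kernel

theorem ok1_4ss_7 :
    chkT cF4nn cF4nn T1_4ss_7 (11616, 3840) (11680, 3296) dum n1_S2 n1_S2 = true := by
  decide +kernel

end Pool.Agent.Work.MP_b30479_gtS.G2.SC

end

section

/-!
# Refined rings, round 1, 4 crossings

Generated certificates (see `S2Cert`).
-/

set_option linter.style.longLine false

set_option deprecated.oldSectionVars true

namespace Pool.Agent.Work.MP_b30479_gtS.G2.SC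

open scoped ComplexConjugate

theorem fr1_4aa {z k l : ℂ} (hz : OnE v1_4aa z) (hk : conj k ∈ Poly p1_A2)
    (hl : conj l ∈ Poly p1_A2) :
    k ^ 2 + l ^ 2 - 2 * k * l * (8 * z ^ 4 - 8 * z ^ 2 + 1) + (z * (8 * z ^ 3 - 4 * z)) ^ 2 ≠ 0 :=
        by
  have h := edge_use rpF4mm (E := L1_4aa) (V0 := dum) (V1 := n1_A2) (V2 := n1_A2) (fun e he => by
    simp only [L1_4aa, List.mem_cons, List.not_mem_nil, or_false] at he
    rcases he with rfl | rfl | rfl | rfl | rfl | rfl | rfl
    exacts [⟨_, ok1_4aa_0⟩, ⟨_, ok1_4aa_1⟩, ⟨_, ok1_4aa_2⟩, ⟨_, ok1_4aa_3⟩, ⟨_, ok1_4aa_4⟩, ⟨_,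
        ok1_4aa_5⟩, ⟨_, ok1_4aa_6⟩]) (V := v1_4aa) (by decide) hz zero_dum (rg1_A2 hk) (rg1_A2 hl)
  rw [evF4mm (mr_true k) (mr_true l)] at h
  exact fun h0 => h (by rw [h0, mul_zero])

theorem ok1_4ss_1_r2 :
    chkT cF4nn cF4nn T1_4ss_1_3 (11824, 2928) (13296, 2592) dum [(8016, 3840), (12800, 0), (16000,
        0), (14652, 5392), (8068, 5392), (8016, 5024)] [(8016, 3840), (12800, 0), (16000, 0),
        (14652, 5392), (8068, 5392), (8016, 5024)] = true :=
  chkT_seg (by decide +kernel)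
    ok1_4ss_1_q0
    ok1_4ss_1_q1

theorem ok1_4ss_1_r4 :
    chkT cF4nn cF4nn T1_4ss_1_1 (11824, 2928) (13296, 2592) dum [(8016, 3840), (12800, 0), (16000,
        0), (14652, 5392), (8068, 5392), (8016, 5024)] n1_S2 = true :=
  chkT_cut2 (by decide +kernel)
    ok1_4ss_1_r2
    ok1_4ss_1_q3

theorem ok1_4ss_1 :
    chkT cF4nn cF4nn T1_4ss_1 (11824, 2928) (13296, 2592) dum n1_S2 n1_S2 = true :=
  chkT_cut1 (by decide +kernel)
    ok1_4ss_1_r4
    ok1_4ss_1_q5

theorem ok1_4ss_5_r8 :
    chkT cF4nn cF4nn T1_4ss_5_14 (12156, 4724) (12048, 4624) dum [(13976, 8096), (13296, 10800),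
        (11728, 10800), (8505, 8096)] [(13976, 8096), (13296, 10800), (11728, 10800), (8505, 8096)]
        = true :=
  chkT_cut2 (by decide +kernel)
    ok1_4ss_5_q6
    ok1_4ss_5_q7

theorem ok1_4ss_5_r9 :
    chkT cF4nn cF4nn T1_4ss_5_12 (12264, 4824) (12048, 4624) dum [(13976, 8096), (13296, 10800),
        (11728, 10800), (8505, 8096)] [(13976, 8096), (13296, 10800), (11728, 10800), (8505, 8096)]
        = true :=
  chkT_seg (by decide +kernel)
    ok1_4ss_5_q5
    ok1_4ss_5_r8

theorem ok1_4ss_5_r10 :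
    chkT cF4nn cF4nn T1_4ss_5_10 (12480, 5024) (12048, 4624) dum [(13976, 8096), (13296, 10800),
        (11728, 10800), (8505, 8096)] [(13976, 8096), (13296, 10800), (11728, 10800), (8505, 8096)]
        = true :=
  chkT_seg (by decide +kernel)
    ok1_4ss_5_q4
    ok1_4ss_5_r9

theorem ok1_4ss_5_r11 :
    chkT cF4nn cF4nn T1_4ss_5_8 (12480, 5024) (12048, 4624) dum [(13976, 8096), (13296, 10800),
        (11728, 10800), (8505, 8096)] [(14652, 5392), (13984, 8064), (13296, 10800), (11728,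
        10800), (8448, 8048), (8068, 5392)] = true :=
  chkT_cut2 (by decide +kernel)
    ok1_4ss_5_q3
    ok1_4ss_5_r10

theorem ok1_4ss_5_r12 :
    chkT cF4nn cF4nn T1_4ss_5_5 (12480, 5024) (12048, 4624) dum [(14652, 5392), (13984, 8064),
        (13296, 10800), (11728, 10800), (8448, 8048), (8068, 5392)] [(14652, 5392), (13984, 8064),
        (13296, 10800), (11728, 10800), (8448, 8048), (8068, 5392)] = true :=
  chkT_cut1 (by decide +kernel)
    ok1_4ss_5_q2
    ok1_4ss_5_r11

theorem ok1_4ss_5_r18 :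
    chkT cF4nn cF4nn T1_4ss_5_32 (12048, 4624) (11940, 4524) dum [(9820, 9200), (8448, 8048),
        (8431, 7936), (11360, 7936), (11360, 9200)] [(11360, 10492), (9820, 9200), (11360, 9200)] =
        true :=
  chkT_cut1 (by decide +kernel)
    ok1_4ss_5_q16
    ok1_4ss_5_q17

theorem ok1_4ss_5_r19 :
    chkT cF4nn cF4nn T1_4ss_5_29 (12048, 4624) (11940, 4524) dum [(9820, 9200), (8448, 8048),
        (8431, 7936), (11360, 7936), (11360, 9200)] [(11360, 10492), (8448, 8048), (8431, 7936),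
        (11360, 7936)] = true :=
  chkT_cut2 (by decide +kernel)
    ok1_4ss_5_q15
    ok1_4ss_5_r18

theorem ok1_4ss_5_r22 :
    chkT cF4nn cF4nn T1_4ss_5_35 (12048, 4624) (11940, 4524) dum [(11360, 10492), (9820, 9200),
        (11360, 9200)] [(9888, 9257), (8448, 8048), (8431, 7936), (9888, 7936)] = true :=
  chkT_cut2 (by decide +kernel)
    ok1_4ss_5_q20
    ok1_4ss_5_q21

theorem ok1_4ss_5_r24 :
    chkT cF4nn cF4nn T1_4ss_5_30 (12048, 4624) (11940, 4524) dum [(11360, 10492), (9820, 9200),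
        (11360, 9200)] [(11360, 10492), (8448, 8048), (8431, 7936), (11360, 7936)] = true :=
  chkT_cut2 (by decide +kernel)
    ok1_4ss_5_r22
    ok1_4ss_5_q23

theorem ok1_4ss_5_r25 :
    chkT cF4nn cF4nn T1_4ss_5_27 (12048, 4624) (11940, 4524) dum [(11360, 10492), (8448, 8048),
        (8431, 7936), (11360, 7936)] [(11360, 10492), (8448, 8048), (8431, 7936), (11360, 7936)] =
        true :=
  chkT_cut1 (by decide +kernel)
    ok1_4ss_5_r19
    ok1_4ss_5_r24

theorem ok1_4ss_5_r28 :
    chkT cF4nn cF4nn T1_4ss_5_39 (11940, 4524) (11832, 4424) dum [(9888, 9257), (8448, 8048),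
        (8431, 7936), (9888, 7936)] [(11360, 10492), (8448, 8048), (8431, 7936), (11360, 7936)] =
        true :=
  chkT_cut2 (by decide +kernel)
    ok1_4ss_5_q26
    ok1_4ss_5_q27

theorem ok1_4ss_5_r30 :
    chkT cF4nn cF4nn T1_4ss_5_28 (11940, 4524) (11832, 4424) dum [(11360, 10492), (8448, 8048),
        (8431, 7936), (11360, 7936)] [(11360, 10492), (8448, 8048), (8431, 7936), (11360, 7936)] =
        true :=
  chkT_cut1 (by decide +kernel)
    ok1_4ss_5_r28
    ok1_4ss_5_q29

theorem ok1_4ss_5_r31 :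
    chkT cF4nn cF4nn T1_4ss_5_26 (12048, 4624) (11832, 4424) dum [(11360, 10492), (8448, 8048),
        (8431, 7936), (11360, 7936)] [(11360, 10492), (8448, 8048), (8431, 7936), (11360, 7936)] =
        true :=
  chkT_seg (by decide +kernel)
    ok1_4ss_5_r25
    ok1_4ss_5_r30

theorem ok1_4ss_5_r32 :
    chkT cF4nn cF4nn T1_4ss_5_24 (12048, 4624) (11832, 4424) dum [(11360, 10492), (8448, 8048),
        (8431, 7936), (11360, 7936)] [(11360, 10492), (8448, 8048), (8068, 5392), (11360, 5392)] =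
        true :=
  chkT_cut2 (by decide +kernel)
    ok1_4ss_5_q14
    ok1_4ss_5_r31

theorem ok1_4ss_5_r33 :
    chkT cF4nn cF4nn T1_4ss_5_21 (12048, 4624) (11832, 4424) dum [(11360, 10492), (8448, 8048),
        (8068, 5392), (11360, 5392)] [(11360, 10492), (8448, 8048), (8068, 5392), (11360, 5392)] =
        true :=
  chkT_cut1 (by decide +kernel)
    ok1_4ss_5_q13
    ok1_4ss_5_r32

theorem ok1_4ss_5_r35 :
    chkT cF4nn cF4nn T1_4ss_5_19 (12048, 4624) (11616, 4224) dum [(11360, 10492), (8448, 8048),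
        (8068, 5392), (11360, 5392)] [(11360, 10492), (8448, 8048), (8068, 5392), (11360, 5392)] =
        true :=
  chkT_seg (by decide +kernel)
    ok1_4ss_5_r33
    ok1_4ss_5_q34

theorem ok1_4ss_5_r37 :
    chkT cF4nn cF4nn T1_4ss_5_17 (12048, 4624) (11616, 4224) dum [(14652, 5392), (13984, 8064),
        (13296, 10800), (11728, 10800), (8448, 8048), (8068, 5392)] [(11360, 10492), (8448, 8048),
        (8068, 5392), (11360, 5392)] = true :=
  chkT_cut1 (by decide +kernel)
    ok1_4ss_5_r35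
    ok1_4ss_5_q36

theorem ok1_4ss_5_r39 :
    chkT cF4nn cF4nn T1_4ss_5_6 (12048, 4624) (11616, 4224) dum [(14652, 5392), (13984, 8064),
        (13296, 10800), (11728, 10800), (8448, 8048), (8068, 5392)] [(14652, 5392), (13984, 8064),
        (13296, 10800), (11728, 10800), (8448, 8048), (8068, 5392)] = true :=
  chkT_cut2 (by decide +kernel)
    ok1_4ss_5_r37
    ok1_4ss_5_q38

theorem ok1_4ss_5_r40 :
    chkT cF4nn cF4nn T1_4ss_5_4 (12480, 5024) (11616, 4224) dum [(14652, 5392), (13984, 8064),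
        (13296, 10800), (11728, 10800), (8448, 8048), (8068, 5392)] [(14652, 5392), (13984, 8064),
        (13296, 10800), (11728, 10800), (8448, 8048), (8068, 5392)] = true :=
  chkT_seg (by decide +kernel)
    ok1_4ss_5_r12
    ok1_4ss_5_r39

theorem ok1_4ss_5_r41 :
    chkT cF4nn cF4nn T1_4ss_5_2 (12480, 5024) (11616, 4224) dum [(14652, 5392), (13984, 8064),
        (13296, 10800), (11728, 10800), (8448, 8048), (8068, 5392)] n1_S2 = true :=
  chkT_cut2 (by decide +kernel)
    ok1_4ss_5_q1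
    ok1_4ss_5_r40

theorem ok1_4ss_5 :
    chkT cF4nn cF4nn T1_4ss_5 (12480, 5024) (11616, 4224) dum n1_S2 n1_S2 = true :=
  chkT_cut1 (by decide +kernel)
    ok1_4ss_5_q0
    ok1_4ss_5_r41

theorem fr1_4ss {z k l : ℂ} (hz : OnE v1_4ss z) (hk : k ∈ Poly p1_S2)
    (hl : l ∈ Poly p1_S2) :
    k ^ 2 + l ^ 2 - 2 * k * l * (8 * z ^ 4 - 8 * z ^ 2 + 1) + (z * (8 * z ^ 3 - 4 * z)) ^ 2 ≠ 0 :=
        by
  have h := edge_use rpF4nn (E := L1_4ss) (V0 := dum) (V1 := n1_S2) (V2 := n1_S2) (fun e he => by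
    simp only [L1_4ss, List.mem_cons, List.not_mem_nil, or_false] at he
    rcases he with rfl | rfl | rfl | rfl | rfl | rfl | rfl | rfl
    exacts [⟨_, ok1_4ss_0⟩, ⟨_, ok1_4ss_1⟩, ⟨_, ok1_4ss_2⟩, ⟨_, ok1_4ss_3⟩, ⟨_, ok1_4ss_4⟩, ⟨_,
        ok1_4ss_5⟩, ⟨_, ok1_4ss_6⟩, ⟨_, ok1_4ss_7⟩]) (V := v1_4ss) (by decide) hz zero_dum (rg1_S2
        hk) (rg1_S2 hl)
  rw [evF4nn (mr_false k) (mr_false l)] at h
  exact fun h0 => h (by rw [h0, mul_zero])

end Pool.Agent.Work.MP_b30479_gtS.G2.SC

end

section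

/-!
# Part of `SRefD3D`
-/
set_option linter.style.longLine false

set_option deprecated.oldSectionVars true

namespace Pool.Agent.Work.MP_b30479_gtS.G2.SC

open scoped ComplexConjugate

theorem ok3_4aa_4 :
    chkT cF4mm cF4mm T3_4aa_4 (13456, 2720) (13024, 2224) dum n3_A2 n3_A2 = true := by
  decide +kernel

theorem ok3_4aa_5 :
    chkT cF4mm cF4mm T3_4aa_5 (13024, 2224) (12896, 1888) dum n3_A2 n3_A2 = true := by
  decide +kernel

theorem ok3_4aa_6 :
    chkT cF4mm cF4mm T3_4aa_6 (12896, 1888) (12800, 1328) dum n3_A2 n3_A2 = true := by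
  decide +kernel

end Pool.Agent.Work.MP_b30479_gtS.G2.SC

end

section

/-!
# Part of `SRefD3D`
-/
set_option linter.style.longLine false

set_option deprecated.oldSectionVars true

namespace Pool.Agent.Work.MP_b30479_gtS.G2.SC

open scoped ComplexConjugate

theorem ok3_4aa_7 :
    chkT cF4mm cF4mm T3_4aa_7 (12800, 1328) (13120, 1120) dum n3_A2 n3_A2 = true := by
  decide +kernel

theorem ok3_4ss_0 :
    chkT cF4nn cF4nn T3_4ss_0 (11744, 3456) (11840, 2992) dum n3_S2 n3_S2 = true := by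
  decide +kernel

theorem ok3_4ss_1_q0 :
    chkT cF4nn cF4nn T3_4ss_1_5 (11840, 2992) (12360, 2864) dum [(8144, 4016), (11104, 1632),
        (14128, 0), (16000, 0), (14572, 5360), (8349, 5360)] [(8144, 4016), (11104, 1632), (14128,
        0), (16000, 0), (14572, 5360), (8349, 5360)] = true := by
  decide +kernel

theorem ok3_4ss_1_q1 :
    chkT cF4nn cF4nn T3_4ss_1_6 (12360, 2864) (12880, 2736) dum [(8144, 4016), (11104, 1632),
        (14128, 0), (16000, 0), (14572, 5360), (8349, 5360)] [(8144, 4016), (11104, 1632), (14128,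
        0), (16000, 0), (14572, 5360), (8349, 5360)] = true := by
  decide +kernel

theorem ok3_4ss_1_q3 :
    chkT cF4nn cF4nn T3_4ss_1_4 (11840, 2992) (12880, 2736) dum [(8144, 4016), (11104, 1632),
        (14128, 0), (16000, 0), (14572, 5360), (8349, 5360)] [(14572, 5360), (13872, 7984), (13072,
        10736), (11424, 10304), (8688, 7568), (8349, 5360)] = true := by
  decide +kernel

end Pool.Agent.Work.MP_b30479_gtS.G2.SC

end

section

/-!
# Part of `SRefD3D`
-/
set_option linter.style.longLine false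

set_option deprecated.oldSectionVars true

namespace Pool.Agent.Work.MP_b30479_gtS.G2.SC

open scoped ComplexConjugate

theorem ok3_4ss_1_q5 :
    chkT cF4nn cF4nn T3_4ss_1_2 (11840, 2992) (12880, 2736) dum [(14572, 5360), (13872, 7984),
        (13072, 10736), (11424, 10304), (8688, 7568), (8349, 5360)] n3_S2 = true := by
  decide +kernel

theorem ok3_4ss_4 :
    chkT cF4nn cF4nn T3_4ss_4 (13792, 2784) (12864, 5008) dum n3_S2 n3_S2 = true := by
  decide +kernel

theorem ok3_4ss_6_q0 :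
    chkT cF4nn cF4nn T3_4ss_6_1 (12416, 4880) (11696, 4096) dum n3_S2 [(8144, 4016), (11104, 1632),
        (14128, 0), (16000, 0), (14572, 5360), (8349, 5360)] = true := by
  decide +kernel

theorem ok3_4ss_6_q1 :
    chkT cF4nn cF4nn T3_4ss_6_3 (12416, 4880) (11696, 4096) dum [(8144, 4016), (11104, 1632),
        (14128, 0), (16000, 0), (14572, 5360), (8349, 5360)] [(14572, 5360), (13872, 7984), (13072,
        10736), (11424, 10304), (8688, 7568), (8349, 5360)] = true := by
  decide +kernel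

theorem ok3_4ss_6_q2 :
    chkT cF4nn cF4nn T3_4ss_6_7 (12416, 4880) (12056, 4488) dum [(14572, 5360), (13872, 7984),
        (13072, 10736), (11424, 10304), (8688, 7568), (8349, 5360)] [(14572, 5360), (13872, 7984),
        (13854, 8048), (9168, 8048), (8688, 7568), (8349, 5360)] = true := by
  decide +kernel

end Pool.Agent.Work.MP_b30479_gtS.G2.SC

end

section

/-!
# Part of `SRefD3D`
-/
set_option linter.style.longLine false

set_option deprecated.oldSectionVars true

namespace Pool.Agent.Work.MP_b30479_gtS.G2.SC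

open scoped ComplexConjugate

theorem ok3_4ss_6_q3 :
    chkT cF4nn cF4nn T3_4ss_6_9 (12416, 4880) (12056, 4488) dum [(14572, 5360), (13872, 7984),
        (13854, 8048), (9168, 8048), (8688, 7568), (8349, 5360)] [(13854, 8048), (13072, 10736),
        (11424, 10304), (9168, 8048)] = true := by
  decide +kernel

theorem ok3_4ss_6_q4 :
    chkT cF4nn cF4nn T3_4ss_6_11 (12416, 4880) (12236, 4684) dum [(13854, 8048), (13072, 10736),
        (11424, 10304), (9168, 8048)] [(13854, 8048), (13072, 10736), (11424, 10304), (9168, 8048)]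
        = true := by
  decide +kernel

theorem ok3_4ss_6_q5 :
    chkT cF4nn cF4nn T3_4ss_6_19 (12236, 4684) (12056, 4488) dum [(10304, 9184), (9168, 8048),
        (11504, 8048), (11504, 9184)] [(10304, 9184), (9168, 8048), (11504, 8048), (11504, 9184)] =
        true := by
  decide +kernel

theorem ok3_4ss_6_q6 :
    chkT cF4nn cF4nn T3_4ss_6_23 (12236, 4684) (12146, 4586) dum [(10304, 9184), (9168, 8048),
        (10336, 8048), (10336, 9184)] [(11504, 10325), (11424, 10304), (10304, 9184), (11504,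
        9184)] = true := by
  decide +kernel

theorem ok3_4ss_6_q7 :
    chkT cF4nn cF4nn T3_4ss_6_24 (12146, 4586) (12056, 4488) dum [(10304, 9184), (9168, 8048),
        (10336, 8048), (10336, 9184)] [(11504, 10325), (11424, 10304), (10304, 9184), (11504,
        9184)] = true := by
  decide +kernel

end Pool.Agent.Work.MP_b30479_gtS.G2.SC

end

section

/-!
# Part of `SRefD3D`
-/
set_option linter.style.longLine false

set_option deprecated.oldSectionVars true

namespace Pool.Agent.Work.MP_b30479_gtS.G2.SC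

open scoped ComplexConjugate

theorem ok3_4ss_6_q9 :
    chkT cF4nn cF4nn T3_4ss_6_22 (12236, 4684) (12056, 4488) dum [(10336, 8048), (11504, 8048),
        (11504, 9184), (10336, 9184)] [(11504, 10325), (11424, 10304), (10304, 9184), (11504,
        9184)] = true := by
  decide +kernel

theorem ok3_4ss_6_q12 :
    chkT cF4nn cF4nn T3_4ss_6_27 (12236, 4684) (12146, 4586) dum [(11504, 10325), (11424, 10304),
        (10304, 9184), (11504, 9184)] [(10336, 9216), (9168, 8048), (10336, 8048)] = true := by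
  decide +kernel

theorem ok3_4ss_6_q13 :
    chkT cF4nn cF4nn T3_4ss_6_28 (12146, 4586) (12056, 4488) dum [(11504, 10325), (11424, 10304),
        (10304, 9184), (11504, 9184)] [(10336, 9216), (9168, 8048), (10336, 8048)] = true := by
  decide +kernel

theorem ok3_4ss_6_q15 :
    chkT cF4nn cF4nn T3_4ss_6_26 (12236, 4684) (12056, 4488) dum [(11504, 10325), (11424, 10304),
        (10304, 9184), (11504, 9184)] [(11504, 10325), (11424, 10304), (10336, 9216), (10336,
        8048), (11504, 8048)] = true := by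
  decide +kernel

theorem ok3_4ss_6_q18 :
    chkT cF4nn cF4nn T3_4ss_6_16 (12236, 4684) (12056, 4488) dum [(11504, 10325), (11424, 10304),
        (9168, 8048), (11504, 8048)] [(13854, 8048), (13072, 10736), (11504, 10325), (11504, 8048)]
        = true := by
  decide +kernel

end Pool.Agent.Work.MP_b30479_gtS.G2.SC

end

section

/-!
# Part of `SRefD3D`
-/
set_option linter.style.longLine false

set_option deprecated.oldSectionVars true

namespace Pool.Agent.Work.MP_b30479_gtS.G2.SC

open scoped ComplexConjugate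

theorem ok3_4ss_6_q20 :
    chkT cF4nn cF4nn T3_4ss_6_14 (12236, 4684) (12056, 4488) dum [(13854, 8048), (13072, 10736),
        (11504, 10325), (11504, 8048)] [(13854, 8048), (13072, 10736), (11424, 10304), (9168,
        8048)] = true := by
  decide +kernel

theorem ok3_4ss_6_q25 :
    chkT cF4nn cF4nn T3_4ss_6_37 (12056, 4488) (11876, 4292) dum [(9888, 8768), (8688, 7568),
        (8349, 5360), (9888, 5360)] [(8944, 7824), (8688, 7568), (8349, 5360), (11456, 5360),
        (11456, 7824)] = true := by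
  decide +kernel

theorem ok3_4ss_6_q26 :
    chkT cF4nn cF4nn T3_4ss_6_39 (12056, 4488) (11876, 4292) dum [(8609, 7056), (8349, 5360),
        (9888, 5360), (9888, 7056)] [(11456, 10313), (11424, 10304), (8944, 7824), (11456, 7824)] =
        true := by
  decide +kernel

theorem ok3_4ss_6_q27 :
    chkT cF4nn cF4nn T3_4ss_6_41 (12056, 4488) (11876, 4292) dum [(9888, 8768), (8688, 7568),
        (8609, 7056), (9888, 7056)] [(10192, 9072), (8944, 7824), (10192, 7824)] = true := by
  decide +kernel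

theorem ok3_4ss_6_q28 :
    chkT cF4nn cF4nn T3_4ss_6_42 (12056, 4488) (11876, 4292) dum [(9888, 8768), (8688, 7568),
        (8609, 7056), (9888, 7056)] [(11456, 10313), (11424, 10304), (10192, 9072), (10192, 7824),
        (11456, 7824)] = true := by
  decide +kernel

end Pool.Agent.Work.MP_b30479_gtS.G2.SC

end

section

/-!
# Part of `SRefD3D`
-/
set_option linter.style.longLine false

set_option deprecated.oldSectionVars true

namespace Pool.Agent.Work.MP_b30479_gtS.G2.SC

open scoped ComplexConjugate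

theorem ok3_4ss_6_q32 :
    chkT cF4nn cF4nn T3_4ss_6_36 (12056, 4488) (11876, 4292) dum [(11456, 10313), (11424, 10304),
        (9888, 8768), (9888, 5360), (11456, 5360)] [(11456, 10313), (11424, 10304), (8688, 7568),
        (8349, 5360), (11456, 5360)] = true := by
  decide +kernel

theorem ok3_4ss_6_q34 :
    chkT cF4nn cF4nn T3_4ss_6_34 (11876, 4292) (11696, 4096) dum [(11456, 10313), (11424, 10304),
        (8688, 7568), (8349, 5360), (11456, 5360)] [(11456, 10313), (11424, 10304), (8688, 7568),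
        (8349, 5360), (11456, 5360)] = true := by
  decide +kernel

theorem ok3_4ss_6_q36 :
    chkT cF4nn cF4nn T3_4ss_6_32 (12056, 4488) (11696, 4096) dum [(11456, 10313), (11424, 10304),
        (8688, 7568), (8349, 5360), (11456, 5360)] [(14572, 5360), (13872, 7984), (13072, 10736),
        (11456, 10313), (11456, 5360)] = true := by
  decide +kernel

theorem ok3_4ss_6_q38 :
    chkT cF4nn cF4nn T3_4ss_6_30 (12056, 4488) (11696, 4096) dum [(14572, 5360), (13872, 7984),
        (13072, 10736), (11456, 10313), (11456, 5360)] [(14572, 5360), (13872, 7984), (13072,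
        10736), (11424, 10304), (8688, 7568), (8349, 5360)] = true := by
  decide +kernel

theorem ok3_4ss_7 :
    chkT cF4nn cF4nn T3_4ss_7 (11696, 4096) (11744, 3456) dum n3_S2 n3_S2 = true := by
  decide +kernel

end Pool.Agent.Work.MP_b30479_gtS.G2.SC

end

section

/-!
# Refined rings, round 3, 4 crossings

Generated certificates (see `S2Cert`).
-/

set_option linter.style.longLine false

set_option deprecated.oldSectionVars true

namespace Pool.Agent.Work.MP_b30479_gtS.G2.SC

open scoped ComplexConjugate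

theorem fr3_4aa {z k l : ℂ} (hz : OnE v3_4aa z) (hk : conj k ∈ Poly p3_A2)
    (hl : conj l ∈ Poly p3_A2) :
    k ^ 2 + l ^ 2 - 2 * k * l * (8 * z ^ 4 - 8 * z ^ 2 + 1) + (z * (8 * z ^ 3 - 4 * z)) ^ 2 ≠ 0 :=
        by
  have h := edge_use rpF4mm (E := L3_4aa) (V0 := dum) (V1 := n3_A2) (V2 := n3_A2) (fun e he => by
    simp only [L3_4aa, List.mem_cons, List.not_mem_nil, or_false] at he
    rcases he with rfl | rfl | rfl | rfl | rfl | rfl | rfl | rfl
    exacts [⟨_, ok3_4aa_0⟩, ⟨_, ok3_4aa_1⟩, ⟨_, ok3_4aa_2⟩, ⟨_, ok3_4aa_3⟩, ⟨_, ok3_4aa_4⟩, ⟨_,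
        ok3_4aa_5⟩, ⟨_, ok3_4aa_6⟩, ⟨_, ok3_4aa_7⟩]) (V := v3_4aa) (by decide) hz zero_dum (rg3_A2
        hk) (rg3_A2 hl)
  rw [evF4mm (mr_true k) (mr_true l)] at h
  exact fun h0 => h (by rw [h0, mul_zero])

theorem ok3_4ss_1_r2 :
    chkT cF4nn cF4nn T3_4ss_1_3 (11840, 2992) (12880, 2736) dum [(8144, 4016), (11104, 1632),
        (14128, 0), (16000, 0), (14572, 5360), (8349, 5360)] [(8144, 4016), (11104, 1632), (14128,
        0), (16000, 0), (14572, 5360), (8349, 5360)] = true :=
  chkT_seg (by decide +kernel)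
    ok3_4ss_1_q0
    ok3_4ss_1_q1

theorem ok3_4ss_1_r4 :
    chkT cF4nn cF4nn T3_4ss_1_1 (11840, 2992) (12880, 2736) dum [(8144, 4016), (11104, 1632),
        (14128, 0), (16000, 0), (14572, 5360), (8349, 5360)] n3_S2 = true :=
  chkT_cut2 (by decide +kernel)
    ok3_4ss_1_r2
    ok3_4ss_1_q3

theorem ok3_4ss_1 :
    chkT cF4nn cF4nn T3_4ss_1 (11840, 2992) (12880, 2736) dum n3_S2 n3_S2 = true :=
  chkT_cut1 (by decide +kernel)
    ok3_4ss_1_r4
    ok3_4ss_1_q5

theorem ok3_4ss_6_r8 :
    chkT cF4nn cF4nn T3_4ss_6_21 (12236, 4684) (12056, 4488) dum [(10304, 9184), (9168, 8048),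
        (10336, 8048), (10336, 9184)] [(11504, 10325), (11424, 10304), (10304, 9184), (11504,
        9184)] = true :=
  chkT_seg (by decide +kernel)
    ok3_4ss_6_q6
    ok3_4ss_6_q7

theorem ok3_4ss_6_r10 :
    chkT cF4nn cF4nn T3_4ss_6_20 (12236, 4684) (12056, 4488) dum [(10304, 9184), (9168, 8048),
        (11504, 8048), (11504, 9184)] [(11504, 10325), (11424, 10304), (10304, 9184), (11504,
        9184)] = true :=
  chkT_cut1 (by decide +kernel)
    ok3_4ss_6_r8
    ok3_4ss_6_q9

theorem ok3_4ss_6_r11 :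
    chkT cF4nn cF4nn T3_4ss_6_17 (12236, 4684) (12056, 4488) dum [(10304, 9184), (9168, 8048),
        (11504, 8048), (11504, 9184)] [(11504, 10325), (11424, 10304), (9168, 8048), (11504, 8048)]
        = true :=
  chkT_cut2 (by decide +kernel)
    ok3_4ss_6_q5
    ok3_4ss_6_r10

theorem ok3_4ss_6_r14 :
    chkT cF4nn cF4nn T3_4ss_6_25 (12236, 4684) (12056, 4488) dum [(11504, 10325), (11424, 10304),
        (10304, 9184), (11504, 9184)] [(10336, 9216), (9168, 8048), (10336, 8048)] = true :=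
  chkT_seg (by decide +kernel)
    ok3_4ss_6_q12
    ok3_4ss_6_q13

theorem ok3_4ss_6_r16 :
    chkT cF4nn cF4nn T3_4ss_6_18 (12236, 4684) (12056, 4488) dum [(11504, 10325), (11424, 10304),
        (10304, 9184), (11504, 9184)] [(11504, 10325), (11424, 10304), (9168, 8048), (11504, 8048)]
        = true :=
  chkT_cut2 (by decide +kernel)
    ok3_4ss_6_r14
    ok3_4ss_6_q15

theorem ok3_4ss_6_r17 :
    chkT cF4nn cF4nn T3_4ss_6_15 (12236, 4684) (12056, 4488) dum [(11504, 10325), (11424, 10304),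
        (9168, 8048), (11504, 8048)] [(11504, 10325), (11424, 10304), (9168, 8048), (11504, 8048)]
        = true :=
  chkT_cut1 (by decide +kernel)
    ok3_4ss_6_r11
    ok3_4ss_6_r16

theorem ok3_4ss_6_r19 :
    chkT cF4nn cF4nn T3_4ss_6_13 (12236, 4684) (12056, 4488) dum [(11504, 10325), (11424, 10304),
        (9168, 8048), (11504, 8048)] [(13854, 8048), (13072, 10736), (11424, 10304), (9168, 8048)]
        = true :=
  chkT_cut2 (by decide +kernel)
    ok3_4ss_6_r17
    ok3_4ss_6_q18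

theorem ok3_4ss_6_r21 :
    chkT cF4nn cF4nn T3_4ss_6_12 (12236, 4684) (12056, 4488) dum [(13854, 8048), (13072, 10736),
        (11424, 10304), (9168, 8048)] [(13854, 8048), (13072, 10736), (11424, 10304), (9168, 8048)]
        = true :=
  chkT_cut1 (by decide +kernel)
    ok3_4ss_6_r19
    ok3_4ss_6_q20

theorem ok3_4ss_6_r22 :
    chkT cF4nn cF4nn T3_4ss_6_10 (12416, 4880) (12056, 4488) dum [(13854, 8048), (13072, 10736),
        (11424, 10304), (9168, 8048)] [(13854, 8048), (13072, 10736), (11424, 10304), (9168, 8048)]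
        = true :=
  chkT_seg (by decide +kernel)
    ok3_4ss_6_q4
    ok3_4ss_6_r21

theorem ok3_4ss_6_r23 :
    chkT cF4nn cF4nn T3_4ss_6_8 (12416, 4880) (12056, 4488) dum [(14572, 5360), (13872, 7984),
        (13072, 10736), (11424, 10304), (8688, 7568), (8349, 5360)] [(13854, 8048), (13072, 10736),
        (11424, 10304), (9168, 8048)] = true :=
  chkT_cut1 (by decide +kernel)
    ok3_4ss_6_q3
    ok3_4ss_6_r22

theorem ok3_4ss_6_r24 :
    chkT cF4nn cF4nn T3_4ss_6_5 (12416, 4880) (12056, 4488) dum [(14572, 5360), (13872, 7984),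
        (13072, 10736), (11424, 10304), (8688, 7568), (8349, 5360)] [(14572, 5360), (13872, 7984),
        (13072, 10736), (11424, 10304), (8688, 7568), (8349, 5360)] = true :=
  chkT_cut2 (by decide +kernel)
    ok3_4ss_6_q2
    ok3_4ss_6_r23

theorem ok3_4ss_6_r29 :
    chkT cF4nn cF4nn T3_4ss_6_40 (12056, 4488) (11876, 4292) dum [(9888, 8768), (8688, 7568),
        (8609, 7056), (9888, 7056)] [(11456, 10313), (11424, 10304), (8944, 7824), (11456, 7824)] =
        true :=
  chkT_cut2 (by decide +kernel)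
    ok3_4ss_6_q27
    ok3_4ss_6_q28

theorem ok3_4ss_6_r30 :
    chkT cF4nn cF4nn T3_4ss_6_38 (12056, 4488) (11876, 4292) dum [(9888, 8768), (8688, 7568),
        (8349, 5360), (9888, 5360)] [(11456, 10313), (11424, 10304), (8944, 7824), (11456, 7824)] =
        true :=
  chkT_cut1 (by decide +kernel)
    ok3_4ss_6_q26
    ok3_4ss_6_r29

theorem ok3_4ss_6_r31 :
    chkT cF4nn cF4nn T3_4ss_6_35 (12056, 4488) (11876, 4292) dum [(9888, 8768), (8688, 7568),
        (8349, 5360), (9888, 5360)] [(11456, 10313), (11424, 10304), (8688, 7568), (8349, 5360),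
        (11456, 5360)] = true :=
  chkT_cut2 (by decide +kernel)
    ok3_4ss_6_q25
    ok3_4ss_6_r30

theorem ok3_4ss_6_r33 :
    chkT cF4nn cF4nn T3_4ss_6_33 (12056, 4488) (11876, 4292) dum [(11456, 10313), (11424, 10304),
        (8688, 7568), (8349, 5360), (11456, 5360)] [(11456, 10313), (11424, 10304), (8688, 7568),
        (8349, 5360), (11456, 5360)] = true :=
  chkT_cut1 (by decide +kernel)
    ok3_4ss_6_r31
    ok3_4ss_6_q32

theorem ok3_4ss_6_r35 :
    chkT cF4nn cF4nn T3_4ss_6_31 (12056, 4488) (11696, 4096) dum [(11456, 10313), (11424, 10304),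
        (8688, 7568), (8349, 5360), (11456, 5360)] [(11456, 10313), (11424, 10304), (8688, 7568),
        (8349, 5360), (11456, 5360)] = true :=
  chkT_seg (by decide +kernel)
    ok3_4ss_6_r33
    ok3_4ss_6_q34

theorem ok3_4ss_6_r37 :
    chkT cF4nn cF4nn T3_4ss_6_29 (12056, 4488) (11696, 4096) dum [(11456, 10313), (11424, 10304),
        (8688, 7568), (8349, 5360), (11456, 5360)] [(14572, 5360), (13872, 7984), (13072, 10736),
        (11424, 10304), (8688, 7568), (8349, 5360)] = true :=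
  chkT_cut2 (by decide +kernel)
    ok3_4ss_6_r35
    ok3_4ss_6_q36

theorem ok3_4ss_6_r39 :
    chkT cF4nn cF4nn T3_4ss_6_6 (12056, 4488) (11696, 4096) dum [(14572, 5360), (13872, 7984),
        (13072, 10736), (11424, 10304), (8688, 7568), (8349, 5360)] [(14572, 5360), (13872, 7984),
        (13072, 10736), (11424, 10304), (8688, 7568), (8349, 5360)] = true :=
  chkT_cut1 (by decide +kernel)
    ok3_4ss_6_r37
    ok3_4ss_6_q38

theorem ok3_4ss_6_r40 :
    chkT cF4nn cF4nn T3_4ss_6_4 (12416, 4880) (11696, 4096) dum [(14572, 5360), (13872, 7984),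
        (13072, 10736), (11424, 10304), (8688, 7568), (8349, 5360)] [(14572, 5360), (13872, 7984),
        (13072, 10736), (11424, 10304), (8688, 7568), (8349, 5360)] = true :=
  chkT_seg (by decide +kernel)
    ok3_4ss_6_r24
    ok3_4ss_6_r39

theorem ok3_4ss_6_r41 :
    chkT cF4nn cF4nn T3_4ss_6_2 (12416, 4880) (11696, 4096) dum n3_S2 [(14572, 5360), (13872,
        7984), (13072, 10736), (11424, 10304), (8688, 7568), (8349, 5360)] = true :=
  chkT_cut1 (by decide +kernel)
    ok3_4ss_6_q1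
    ok3_4ss_6_r40

theorem ok3_4ss_6 :
    chkT cF4nn cF4nn T3_4ss_6 (12416, 4880) (11696, 4096) dum n3_S2 n3_S2 = true :=
  chkT_cut2 (by decide +kernel)
    ok3_4ss_6_q0
    ok3_4ss_6_r41

theorem fr3_4ss {z k l : ℂ} (hz : OnE v3_4ss z) (hk : k ∈ Poly p3_S2)
    (hl : l ∈ Poly p3_S2) :
    k ^ 2 + l ^ 2 - 2 * k * l * (8 * z ^ 4 - 8 * z ^ 2 + 1) + (z * (8 * z ^ 3 - 4 * z)) ^ 2 ≠ 0 :=
        by
  have h := edge_use rpF4nn (E := L3_4ss) (V0 := dum) (V1 := n3_S2) (V2 := n3_S2) (fun e he => by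
    simp only [L3_4ss, List.mem_cons, List.not_mem_nil, or_false] at he
    rcases he with rfl | rfl | rfl | rfl | rfl | rfl | rfl | rfl
    exacts [⟨_, ok3_4ss_0⟩, ⟨_, ok3_4ss_1⟩, ⟨_, ok3_4ss_2⟩, ⟨_, ok3_4ss_3⟩, ⟨_, ok3_4ss_4⟩, ⟨_,
        ok3_4ss_5⟩, ⟨_, ok3_4ss_6⟩, ⟨_, ok3_4ss_7⟩]) (V := v3_4ss) (by decide) hz zero_dum (rg3_S2
        hk) (rg3_S2 hl)
  rw [evF4nn (mr_false k) (mr_false l)] at h
  exact fun h0 => h (by rw [h0, mul_zero])

end Pool.Agent.Work.MP_b30479_gtS.G2.SC

end

section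

/-!
# Part of `SRefD3G`
-/
set_option linter.style.longLine false

set_option deprecated.oldSectionVars true

namespace Pool.Agent.Work.MP_b30479_gtS.G2.SC

open scoped ComplexConjugate

theorem fr3_7ea {z k : ℂ} (hz : OnE v3_7ea z) (hk : conj k ∈ Poly p3_A2) :
    k + Complex.I * z * (64 * z ^ 6 - 80 * z ^ 4 + 24 * z ^ 2 - 1) ≠ 0 := by
  have h := edge_use rpG7m (E := L3_7ea) (V0 := dum) (V1 := dum) (V2 := n3_A2) (fun e he => by
    simp only [L3_7ea, List.mem_cons, List.not_mem_nil, or_false] at he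
    rcases he with rfl | rfl | rfl | rfl | rfl | rfl
    exacts [⟨_, ok3_7ea_0⟩, ⟨_, ok3_7ea_1⟩, ⟨_, ok3_7ea_2⟩, ⟨_, ok3_7ea_3⟩, ⟨_, ok3_7ea_4⟩, ⟨_,
        ok3_7ea_5⟩]) (V := v3_7ea) (by decide) hz zero_dum zero_dum (rg3_A2 hk)
  rw [evG7m (mr_true k)] at h
  exact fun h0 => h (by rw [h0, mul_zero])

theorem fr3_7ez {z k : ℂ} (hz : OnE v3_7ez z) (hk : k ∈ Poly p3_Z) :
    k + Complex.I * z * (64 * z ^ 6 - 80 * z ^ 4 + 24 * z ^ 2 - 1) ≠ 0 := by
  have h := edge_use rpG7n (E := L3_7ez) (V0 := dum) (V1 := dum) (V2 := n3_Z) (fun e he => by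
    simp only [L3_7ez, List.mem_cons, List.not_mem_nil, or_false] at he
    rcases he with rfl | rfl | rfl | rfl | rfl
    exacts [⟨_, ok3_7ez_0⟩, ⟨_, ok3_7ez_1⟩, ⟨_, ok3_7ez_2⟩, ⟨_, ok3_7ez_3⟩, ⟨_, ok3_7ez_4⟩]) (V :=
        v3_7ez) (by decide) hz zero_dum zero_dum (rg3_Z hk)
  rw [evG7n (mr_false k)] at h
  exact fun h0 => h (by rw [h0, mul_zero])

theorem fr3_7es {z k : ℂ} (hz : OnE v3_7es z) (hk : k ∈ Poly p3_S3) :
    k + Complex.I * z * (64 * z ^ 6 - 80 * z ^ 4 + 24 * z ^ 2 - 1) ≠ 0 := by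
  have h := edge_use rpG7n (E := L3_7es) (V0 := dum) (V1 := dum) (V2 := n3_S3) (fun e he => by
    simp only [L3_7es, List.mem_cons, List.not_mem_nil, or_false] at he
    rcases he with rfl | rfl | rfl | rfl | rfl | rfl
    exacts [⟨_, ok3_7es_0⟩, ⟨_, ok3_7es_1⟩, ⟨_, ok3_7es_2⟩, ⟨_, ok3_7es_3⟩, ⟨_, ok3_7es_4⟩, ⟨_,
        ok3_7es_5⟩]) (V := v3_7es) (by decide) hz zero_dum zero_dum (rg3_S3 hk)
  rw [evG7n (mr_false k)] at h
  exact fun h0 => h (by rw [h0, mul_zero])

theorem ok3_7aa_2 :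
    chkT cF7mm cF7mm T3_7aa_2 (14848, 288) (15040, 400) dum n3_A2 n3_A2 = true := by
  decide +kernel

theorem ok3_7aa_3 :
    chkT cF7mm cF7mm T3_7aa_3 (15040, 400) (14768, 784) dum n3_A2 n3_A2 = true := by
  decide +kernel

theorem ok3_7aa_6 :
    chkT cF7mm cF7mm T3_7aa_6 (14640, 544) (14672, 304) dum n3_A2 n3_A2 = true := by
  decide +kernel

end Pool.Agent.Work.MP_b30479_gtS.G2.SC

end

section

/-!
# Part of `SRefD3G`
-/
set_option linter.style.longLine false

set_option deprecated.oldSectionVars true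

namespace Pool.Agent.Work.MP_b30479_gtS.G2.SC

open scoped ComplexConjugate

theorem ok3_7az_3 :
    chkT cF7mn cF7mn T3_7az_3 (14912, 560) (14768, 784) dum n3_A2 n3_Z = true := by
  decide +kernel

theorem ok3_7as_3_q0 :
    chkT cF7mn cF7mn T3_7as_3_3 (14848, 560) (14696, 776) dum [(6848, 3888), (10720, 1344), (11408,
        1098), (11408, 10283), (7680, 7808), (6816, 5856)] n3_S3 = true := by
  decide +kernel

theorem ok3_7as_3_q1 :
    chkT cF7mn cF7mn T3_7as_3_5 (14848, 560) (14696, 776) dum [(11408, 1098), (14480, 0), (16000,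
        0), (13152, 10768), (11440, 10304), (11408, 10283)] [(8240, 4576), (8512, 3600), (11056,
        3091), (11056, 9923), (8912, 7792), (8544, 6592)] = true := by
  decide +kernel

theorem ok3_7as_3_q2 :
    chkT cF7mn cF7mn T3_7as_3_7 (14848, 560) (14696, 776) dum [(11408, 1098), (14480, 0), (16000,
        0), (14579, 5376), (11408, 5376)] [(11056, 3091), (13792, 2544), (13872, 7984), (13072,
        10736), (11440, 10304), (11056, 9923)] = true := by
  decide +kernel

theorem ok3_7as_3_q3 :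
    chkT cF7mn cF7mn T3_7as_3_8 (14848, 560) (14696, 776) dum [(14579, 5376), (13152, 10768),
        (11440, 10304), (11408, 10283), (11408, 5376)] [(11056, 3091), (13792, 2544), (13872,
        7984), (13072, 10736), (11440, 10304), (11056, 9923)] = true := by
  decide +kernel

theorem ok3_7as_3_q7 :
    chkT cF7mn cF7mn T3_7as_3_2 (14696, 776) (14544, 992) dum n3_A2 n3_S3 = true := by
  decide +kernel

end Pool.Agent.Work.MP_b30479_gtS.G2.SC

end

section

/-!
# Part of `SRefD3G`
-/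
set_option linter.style.longLine false

set_option deprecated.oldSectionVars true

namespace Pool.Agent.Work.MP_b30479_gtS.G2.SC

open scoped ComplexConjugate

theorem ok3_7zz_2 :
    chkT cF7nn cF7nn T3_7zz_2 (14816, 768) (14528, 816) dum n3_Z n3_Z = true := by
  decide +kernel

theorem fr3_7zs {z k l : ℂ} (hz : OnE v3_7zs z) (hk : k ∈ Poly p3_Z)
    (hl : l ∈ Poly p3_S3) :
    k ^ 2 + l ^ 2 - 2 * k * l * (64 * z ^ 7 - 112 * z ^ 5 + 56 * z ^ 3 - 7 * z) + (z * (64 * z ^ 6 -
        80 * z ^ 4 + 24 * z ^ 2 - 1)) ^ 2 ≠ 0 := by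
  have h := edge_use rpF7nn (E := L3_7zs) (V0 := dum) (V1 := n3_Z) (V2 := n3_S3) (fun e he => by
    simp only [L3_7zs, List.mem_cons, List.not_mem_nil, or_false] at he
    rcases he with rfl | rfl | rfl | rfl | rfl | rfl | rfl
    exacts [⟨_, ok3_7zs_0⟩, ⟨_, ok3_7zs_1⟩, ⟨_, ok3_7zs_2⟩, ⟨_, ok3_7zs_3⟩, ⟨_, ok3_7zs_4⟩, ⟨_,
        ok3_7zs_5⟩, ⟨_, ok3_7zs_6⟩]) (V := v3_7zs) (by decide) hz zero_dum (rg3_Z hk) (rg3_S3 hl)
  rw [evF7nn (mr_false k) (mr_false l)] at h
  exact fun h0 => h (by rw [h0, mul_zero])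

theorem ok3_7ss_3 :
    chkT cF7nn cF7nn T3_7ss_3 (14608, 784) (14256, 1232) dum n3_S3 n3_S3 = true := by
  decide +kernel

theorem ok3_7ss_5_q0 :
    chkT cF7nn cF7nn T3_7ss_5_1 (14128, 1088) (14112, 784) dum [(8240, 4576), (8512, 3600), (13792,
        2544), (13853, 6640), (8558, 6640), (8544, 6592)] n3_S3 = true := by
  decide +kernel

theorem ok3_7ss_5_q1 :
    chkT cF7nn cF7nn T3_7ss_5_3 (14128, 1088) (14112, 784) dum [(13853, 6640), (13872, 7984),
        (13072, 10736), (11440, 10304), (8912, 7792), (8558, 6640)] [(8240, 4576), (8512, 3600),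
        (13792, 2544), (13853, 6640), (8558, 6640), (8544, 6592)] = true := by
  decide +kernel

end Pool.Agent.Work.MP_b30479_gtS.G2.SC

end

section

/-!
# Part of `SRefD3G`
-/
set_option linter.style.longLine false

set_option deprecated.oldSectionVars true

namespace Pool.Agent.Work.MP_b30479_gtS.G2.SC

open scoped ComplexConjugate

theorem ok3_7ss_5_q2 :
    chkT cF7nn cF7nn T3_7ss_5_11 (14128, 1088) (14112, 784) dum [(9872, 8747), (8912, 7792), (8558,
        6640), (9872, 6640)] [(9872, 8747), (8912, 7792), (8558, 6640), (9872, 6640)] = true := by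
  decide +kernel

theorem ok3_7ss_5_q3 :
    chkT cF7nn cF7nn T3_7ss_5_13 (14128, 1088) (14112, 784) dum [(9872, 8352), (9872, 6640),
        (11200, 6640), (11200, 8352)] [(9872, 8747), (8912, 7792), (8558, 6640), (9872, 6640)] =
        true := by
  decide +kernel

theorem ok3_7ss_5_q4 :
    chkT cF7nn cF7nn T3_7ss_5_15 (14128, 1088) (14120, 936) dum [(11200, 10066), (9872, 8747),
        (9872, 8352), (11200, 8352)] [(9872, 8747), (8912, 7792), (8558, 6640), (9872, 6640)] =
        true := by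
  decide +kernel

theorem ok3_7ss_5_q5 :
    chkT cF7nn cF7nn T3_7ss_5_19 (14120, 936) (14116, 860) dum [(10328, 9200), (9872, 8747), (9872,
        8352), (11200, 8352), (11200, 9200)] [(9872, 8747), (8912, 7792), (8558, 6640), (9872,
        6640)] = true := by
  decide +kernel

theorem ok3_7ss_5_q6 :
    chkT cF7nn cF7nn T3_7ss_5_20 (14120, 936) (14116, 860) dum [(11200, 10066), (10328, 9200),
        (11200, 9200)] [(9872, 8747), (8912, 7792), (8558, 6640), (9872, 6640)] = true := by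
  decide +kernel

theorem ok3_7ss_5_q8 :
    chkT cF7nn cF7nn T3_7ss_5_18 (14116, 860) (14112, 784) dum [(11200, 10066), (9872, 8747),
        (9872, 8352), (11200, 8352)] [(9872, 8747), (8912, 7792), (8558, 6640), (9872, 6640)] =
        true := by
  decide +kernel

theorem ok3_7ss_5_q13 :
    chkT cF7nn cF7nn T3_7ss_5_21 (14128, 1088) (14112, 784) dum [(11200, 10066), (8912, 7792),
        (8558, 6640), (11200, 6640)] [(9872, 8352), (9872, 6640), (11200, 6640), (11200, 8352)] =
        true := by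
  decide +kernel

end Pool.Agent.Work.MP_b30479_gtS.G2.SC

end

section

/-!
# Part of `SRefD3G`
-/
set_option linter.style.longLine false

set_option deprecated.oldSectionVars true

namespace Pool.Agent.Work.MP_b30479_gtS.G2.SC

open scoped ComplexConjugate

theorem ok3_7ss_5_q14 :
    chkT cF7nn cF7nn T3_7ss_5_25 (14128, 1088) (14120, 936) dum [(9872, 8747), (8912, 7792), (8558,
        6640), (9872, 6640)] [(11200, 10066), (9872, 8747), (9872, 8352), (11200, 8352)] = true :=
        by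
  decide +kernel

theorem ok3_7ss_5_q15 :
    chkT cF7nn cF7nn T3_7ss_5_29 (14120, 936) (14116, 860) dum [(9872, 8747), (8912, 7792), (8558,
        6640), (9872, 6640)] [(10328, 9200), (9872, 8747), (9872, 8352), (11200, 8352), (11200,
        9200)] = true := by
  decide +kernel

theorem ok3_7ss_5_q16 :
    chkT cF7nn cF7nn T3_7ss_5_30 (14120, 936) (14116, 860) dum [(9872, 8747), (8912, 7792), (8558,
        6640), (9872, 6640)] [(11200, 10066), (10328, 9200), (11200, 9200)] = true := by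
  decide +kernel

theorem ok3_7ss_5_q18 :
    chkT cF7nn cF7nn T3_7ss_5_28 (14116, 860) (14112, 784) dum [(9872, 8747), (8912, 7792), (8558,
        6640), (9872, 6640)] [(11200, 10066), (9872, 8747), (9872, 8352), (11200, 8352)] = true :=
        by
  decide +kernel

theorem ok3_7ss_5_q21 :
    chkT cF7nn cF7nn T3_7ss_5_24 (14128, 1088) (14112, 784) dum [(11200, 10066), (9872, 8747),
        (9872, 6640), (11200, 6640)] [(11200, 10066), (9872, 8747), (9872, 8352), (11200, 8352)] =
        true := by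
  decide +kernel

theorem ok3_7ss_5_q25 :
    chkT cF7nn cF7nn T3_7ss_5_8 (14128, 1088) (14112, 784) dum [(11200, 10066), (8912, 7792),
        (8558, 6640), (11200, 6640)] [(13853, 6640), (13872, 7984), (13072, 10736), (11440, 10304),
        (11200, 10066), (11200, 6640)] = true := by
  decide +kernel

theorem ok3_7ss_5_q27 :
    chkT cF7nn cF7nn T3_7ss_5_6 (14128, 1088) (14112, 784) dum [(13853, 6640), (13872, 7984),
        (13072, 10736), (11440, 10304), (11200, 10066), (11200, 6640)] [(13853, 6640), (13872,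
        7984), (13072, 10736), (11440, 10304), (8912, 7792), (8558, 6640)] = true := by
  decide +kernel

end Pool.Agent.Work.MP_b30479_gtS.G2.SC

end

section

/-!
# Refined rings, round 3, 7 crossings

Generated certificates (see `S2Cert`).
-/

set_option linter.style.longLine false

set_option deprecated.oldSectionVars true

namespace Pool.Agent.Work.MP_b30479_gtS.G2.SC

open scoped ComplexConjugate

theorem fr3_7aa {z k l : ℂ} (hz : OnE v3_7aa z) (hk : conj k ∈ Poly p3_A2)
    (hl : conj l ∈ Poly p3_A2) :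
    k ^ 2 + l ^ 2 - 2 * k * l * (64 * z ^ 7 - 112 * z ^ 5 + 56 * z ^ 3 - 7 * z) + (z * (64 * z ^ 6 -
        80 * z ^ 4 + 24 * z ^ 2 - 1)) ^ 2 ≠ 0 := by
  have h := edge_use rpF7mm (E := L3_7aa) (V0 := dum) (V1 := n3_A2) (V2 := n3_A2) (fun e he => by
    simp only [L3_7aa, List.mem_cons, List.not_mem_nil, or_false] at he
    rcases he with rfl | rfl | rfl | rfl | rfl | rfl | rfl
    exacts [⟨_, ok3_7aa_0⟩, ⟨_, ok3_7aa_1⟩, ⟨_, ok3_7aa_2⟩, ⟨_, ok3_7aa_3⟩, ⟨_, ok3_7aa_4⟩, ⟨_,
        ok3_7aa_5⟩, ⟨_, ok3_7aa_6⟩]) (V := v3_7aa) (by decide) hz zero_dum (rg3_A2 hk) (rg3_A2 hl)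
  rw [evF7mm (mr_true k) (mr_true l)] at h
  exact fun h0 => h (by rw [h0, mul_zero])

theorem fr3_7az {z k l : ℂ} (hz : OnE v3_7az z) (hk : conj k ∈ Poly p3_A2)
    (hl : l ∈ Poly p3_Z) :
    k ^ 2 + l ^ 2 - 2 * k * l * (64 * z ^ 7 - 112 * z ^ 5 + 56 * z ^ 3 - 7 * z) + (z * (64 * z ^ 6 -
        80 * z ^ 4 + 24 * z ^ 2 - 1)) ^ 2 ≠ 0 := by
  have h := edge_use rpF7mn (E := L3_7az) (V0 := dum) (V1 := n3_A2) (V2 := n3_Z) (fun e he => by
    simp only [L3_7az, List.mem_cons, List.not_mem_nil, or_false] at he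
    rcases he with rfl | rfl | rfl | rfl | rfl | rfl | rfl
    exacts [⟨_, ok3_7az_0⟩, ⟨_, ok3_7az_1⟩, ⟨_, ok3_7az_2⟩, ⟨_, ok3_7az_3⟩, ⟨_, ok3_7az_4⟩, ⟨_,
        ok3_7az_5⟩, ⟨_, ok3_7az_6⟩]) (V := v3_7az) (by decide) hz zero_dum (rg3_A2 hk) (rg3_Z hl)
  rw [evF7mn (mr_true k) (mr_false l)] at h
  exact fun h0 => h (by rw [h0, mul_zero])

theorem ok3_7as_3_r4 :
    chkT cF7mn cF7mn T3_7as_3_6 (14848, 560) (14696, 776) dum [(11408, 1098), (14480, 0), (16000,
        0), (13152, 10768), (11440, 10304), (11408, 10283)] [(11056, 3091), (13792, 2544), (13872,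
        7984), (13072, 10736), (11440, 10304), (11056, 9923)] = true :=
  chkT_cut1 (by decide +kernel)
    ok3_7as_3_q2
    ok3_7as_3_q3

theorem ok3_7as_3_r5 :
    chkT cF7mn cF7mn T3_7as_3_4 (14848, 560) (14696, 776) dum [(11408, 1098), (14480, 0), (16000,
        0), (13152, 10768), (11440, 10304), (11408, 10283)] n3_S3 = true :=
  chkT_cut2 (by decide +kernel)
    ok3_7as_3_q1
    ok3_7as_3_r4

theorem ok3_7as_3_r6 :
    chkT cF7mn cF7mn T3_7as_3_1 (14848, 560) (14696, 776) dum n3_A2 n3_S3 = true :=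
  chkT_cut1 (by decide +kernel)
    ok3_7as_3_q0
    ok3_7as_3_r5

theorem ok3_7as_3 :
    chkT cF7mn cF7mn T3_7as_3 (14848, 560) (14544, 992) dum n3_A2 n3_S3 = true :=
  chkT_seg (by decide +kernel)
    ok3_7as_3_r6
    ok3_7as_3_q7

theorem fr3_7as {z k l : ℂ} (hz : OnE v3_7as z) (hk : conj k ∈ Poly p3_A2)
    (hl : l ∈ Poly p3_S3) :
    k ^ 2 + l ^ 2 - 2 * k * l * (64 * z ^ 7 - 112 * z ^ 5 + 56 * z ^ 3 - 7 * z) + (z * (64 * z ^ 6 -
        80 * z ^ 4 + 24 * z ^ 2 - 1)) ^ 2 ≠ 0 := by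
  have h := edge_use rpF7mn (E := L3_7as) (V0 := dum) (V1 := n3_A2) (V2 := n3_S3) (fun e he => by
    simp only [L3_7as, List.mem_cons, List.not_mem_nil, or_false] at he
    rcases he with rfl | rfl | rfl | rfl | rfl | rfl | rfl
    exacts [⟨_, ok3_7as_0⟩, ⟨_, ok3_7as_1⟩, ⟨_, ok3_7as_2⟩, ⟨_, ok3_7as_3⟩, ⟨_, ok3_7as_4⟩, ⟨_,
        ok3_7as_5⟩, ⟨_, ok3_7as_6⟩]) (V := v3_7as) (by decide) hz zero_dum (rg3_A2 hk) (rg3_S3 hl)
  rw [evF7mn (mr_true k) (mr_false l)] at h
  exact fun h0 => h (by rw [h0, mul_zero])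

theorem fr3_7zz {z k l : ℂ} (hz : OnE v3_7zz z) (hk : k ∈ Poly p3_Z)
    (hl : l ∈ Poly p3_Z) :
    k ^ 2 + l ^ 2 - 2 * k * l * (64 * z ^ 7 - 112 * z ^ 5 + 56 * z ^ 3 - 7 * z) + (z * (64 * z ^ 6 -
        80 * z ^ 4 + 24 * z ^ 2 - 1)) ^ 2 ≠ 0 := by
  have h := edge_use rpF7nn (E := L3_7zz) (V0 := dum) (V1 := n3_Z) (V2 := n3_Z) (fun e he => by
    simp only [L3_7zz, List.mem_cons, List.not_mem_nil, or_false] at he
    rcases he with rfl | rfl | rfl | rfl
    exacts [⟨_, ok3_7zz_0⟩, ⟨_, ok3_7zz_1⟩, ⟨_, ok3_7zz_2⟩, ⟨_, ok3_7zz_3⟩]) (V := v3_7zz) (by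
        decide) hz zero_dum (rg3_Z hk) (rg3_Z hl)
  rw [evF7nn (mr_false k) (mr_false l)] at h
  exact fun h0 => h (by rw [h0, mul_zero])

theorem ok3_7ss_5_r7 :
    chkT cF7nn cF7nn T3_7ss_5_17 (14120, 936) (14116, 860) dum [(11200, 10066), (9872, 8747),
        (9872, 8352), (11200, 8352)] [(9872, 8747), (8912, 7792), (8558, 6640), (9872, 6640)] =
        true :=
  chkT_cut1 (by decide +kernel)
    ok3_7ss_5_q5
    ok3_7ss_5_q6

theorem ok3_7ss_5_r9 :
    chkT cF7nn cF7nn T3_7ss_5_16 (14120, 936) (14112, 784) dum [(11200, 10066), (9872, 8747),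
        (9872, 8352), (11200, 8352)] [(9872, 8747), (8912, 7792), (8558, 6640), (9872, 6640)] =
        true :=
  chkT_seg (by decide +kernel)
    ok3_7ss_5_r7
    ok3_7ss_5_q8

theorem ok3_7ss_5_r10 :
    chkT cF7nn cF7nn T3_7ss_5_14 (14128, 1088) (14112, 784) dum [(11200, 10066), (9872, 8747),
        (9872, 8352), (11200, 8352)] [(9872, 8747), (8912, 7792), (8558, 6640), (9872, 6640)] =
        true :=
  chkT_seg (by decide +kernel)
    ok3_7ss_5_q4
    ok3_7ss_5_r9

theorem ok3_7ss_5_r11 :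
    chkT cF7nn cF7nn T3_7ss_5_12 (14128, 1088) (14112, 784) dum [(11200, 10066), (9872, 8747),
        (9872, 6640), (11200, 6640)] [(9872, 8747), (8912, 7792), (8558, 6640), (9872, 6640)] =
        true :=
  chkT_cut1 (by decide +kernel)
    ok3_7ss_5_q3
    ok3_7ss_5_r10

theorem ok3_7ss_5_r12 :
    chkT cF7nn cF7nn T3_7ss_5_9 (14128, 1088) (14112, 784) dum [(11200, 10066), (8912, 7792),
        (8558, 6640), (11200, 6640)] [(9872, 8747), (8912, 7792), (8558, 6640), (9872, 6640)] =
        true :=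
  chkT_cut1 (by decide +kernel)
    ok3_7ss_5_q2
    ok3_7ss_5_r11

theorem ok3_7ss_5_r17 :
    chkT cF7nn cF7nn T3_7ss_5_27 (14120, 936) (14116, 860) dum [(9872, 8747), (8912, 7792), (8558,
        6640), (9872, 6640)] [(11200, 10066), (9872, 8747), (9872, 8352), (11200, 8352)] = true :=
  chkT_cut2 (by decide +kernel)
    ok3_7ss_5_q15
    ok3_7ss_5_q16

theorem ok3_7ss_5_r19 :
    chkT cF7nn cF7nn T3_7ss_5_26 (14120, 936) (14112, 784) dum [(9872, 8747), (8912, 7792), (8558,
        6640), (9872, 6640)] [(11200, 10066), (9872, 8747), (9872, 8352), (11200, 8352)] = true :=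
  chkT_seg (by decide +kernel)
    ok3_7ss_5_r17
    ok3_7ss_5_q18

theorem ok3_7ss_5_r20 :
    chkT cF7nn cF7nn T3_7ss_5_23 (14128, 1088) (14112, 784) dum [(9872, 8747), (8912, 7792), (8558,
        6640), (9872, 6640)] [(11200, 10066), (9872, 8747), (9872, 8352), (11200, 8352)] = true :=
  chkT_seg (by decide +kernel)
    ok3_7ss_5_q14
    ok3_7ss_5_r19

theorem ok3_7ss_5_r22 :
    chkT cF7nn cF7nn T3_7ss_5_22 (14128, 1088) (14112, 784) dum [(11200, 10066), (8912, 7792),
        (8558, 6640), (11200, 6640)] [(11200, 10066), (9872, 8747), (9872, 8352), (11200, 8352)] =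
        true :=
  chkT_cut1 (by decide +kernel)
    ok3_7ss_5_r20
    ok3_7ss_5_q21

theorem ok3_7ss_5_r23 :
    chkT cF7nn cF7nn T3_7ss_5_10 (14128, 1088) (14112, 784) dum [(11200, 10066), (8912, 7792),
        (8558, 6640), (11200, 6640)] [(11200, 10066), (9872, 8747), (9872, 6640), (11200, 6640)] =
        true :=
  chkT_cut2 (by decide +kernel)
    ok3_7ss_5_q13
    ok3_7ss_5_r22

theorem ok3_7ss_5_r24 :
    chkT cF7nn cF7nn T3_7ss_5_7 (14128, 1088) (14112, 784) dum [(11200, 10066), (8912, 7792),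
        (8558, 6640), (11200, 6640)] [(11200, 10066), (8912, 7792), (8558, 6640), (11200, 6640)] =
        true :=
  chkT_cut2 (by decide +kernel)
    ok3_7ss_5_r12
    ok3_7ss_5_r23

theorem ok3_7ss_5_r26 :
    chkT cF7nn cF7nn T3_7ss_5_5 (14128, 1088) (14112, 784) dum [(11200, 10066), (8912, 7792),
        (8558, 6640), (11200, 6640)] [(13853, 6640), (13872, 7984), (13072, 10736), (11440, 10304),
        (8912, 7792), (8558, 6640)] = true :=
  chkT_cut2 (by decide +kernel)
    ok3_7ss_5_r24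
    ok3_7ss_5_q25

theorem ok3_7ss_5_r28 :
    chkT cF7nn cF7nn T3_7ss_5_4 (14128, 1088) (14112, 784) dum [(13853, 6640), (13872, 7984),
        (13072, 10736), (11440, 10304), (8912, 7792), (8558, 6640)] [(13853, 6640), (13872, 7984),
        (13072, 10736), (11440, 10304), (8912, 7792), (8558, 6640)] = true :=
  chkT_cut1 (by decide +kernel)
    ok3_7ss_5_r26
    ok3_7ss_5_q27

theorem ok3_7ss_5_r29 :
    chkT cF7nn cF7nn T3_7ss_5_2 (14128, 1088) (14112, 784) dum [(13853, 6640), (13872, 7984),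
        (13072, 10736), (11440, 10304), (8912, 7792), (8558, 6640)] n3_S3 = true :=
  chkT_cut2 (by decide +kernel)
    ok3_7ss_5_q1
    ok3_7ss_5_r28

theorem ok3_7ss_5 :
    chkT cF7nn cF7nn T3_7ss_5 (14128, 1088) (14112, 784) dum n3_S3 n3_S3 = true :=
  chkT_cut1 (by decide +kernel)
    ok3_7ss_5_q0
    ok3_7ss_5_r29

theorem fr3_7ss {z k l : ℂ} (hz : OnE v3_7ss z) (hk : k ∈ Poly p3_S3)
    (hl : l ∈ Poly p3_S3) :
    k ^ 2 + l ^ 2 - 2 * k * l * (64 * z ^ 7 - 112 * z ^ 5 + 56 * z ^ 3 - 7 * z) + (z * (64 * z ^ 6 -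
        80 * z ^ 4 + 24 * z ^ 2 - 1)) ^ 2 ≠ 0 := by
  have h := edge_use rpF7nn (E := L3_7ss) (V0 := dum) (V1 := n3_S3) (V2 := n3_S3) (fun e he => by
    simp only [L3_7ss, List.mem_cons, List.not_mem_nil, or_false] at he
    rcases he with rfl | rfl | rfl | rfl | rfl | rfl
    exacts [⟨_, ok3_7ss_0⟩, ⟨_, ok3_7ss_1⟩, ⟨_, ok3_7ss_2⟩, ⟨_, ok3_7ss_3⟩, ⟨_, ok3_7ss_4⟩, ⟨_,
        ok3_7ss_5⟩]) (V := v3_7ss) (by decide) hz zero_dum (rg3_S3 hk) (rg3_S3 hl)
  rw [evF7nn (mr_false k) (mr_false l)] at h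
  exact fun h0 => h (by rw [h0, mul_zero])

end Pool.Agent.Work.MP_b30479_gtS.G2.SC

end
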