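import Pool.Agent.Work.MP_b30479_gt.TBS.G2.SRefD1G_0
import Pool.Agent.Work.MP_b30479_gt.TBS.G2.SRefD3F_0

section

/-!
# Part of `SRefD1G`
-/
set_option linter.style.longLine false

set_option deprecated.oldSectionVars true

namespace Pool.Agent.Work.MP_b30479_gtS.G2.SC

open scoped ComplexConjugate

theorem fr1_7ea {z k : ℂ} (hz : OnE v1_7ea z) (hk : conj k ∈ Poly p1_A2) :
    k + Complex.I * z * (64 * z ^ 6 - 80 * z ^ 4 + 24 * z ^ 2 - 1) ≠ 0 := by
  have h := edge_use rpG7m (E := L1_7ea) (V0 := dum) (V1 := dum) (V2 := n1_A2) (fun e he => by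
    simp only [L1_7ea, List.mem_cons, List.not_mem_nil, or_false] at he
    rcases he with rfl | rfl | rfl | rfl | rfl | rfl
    exacts [⟨_, ok1_7ea_0⟩, ⟨_, ok1_7ea_1⟩, ⟨_, ok1_7ea_2⟩, ⟨_, ok1_7ea_3⟩, ⟨_, ok1_7ea_4⟩, ⟨_,
        ok1_7ea_5⟩]) (V := v1_7ea) (by decide) hz zero_dum zero_dum (rg1_A2 hk)
  rw [evG7m (mr_true k)] at h
  exact fun h0 => h (by rw [h0, mul_zero])

theorem fr1_7ez {z k : ℂ} (hz : OnE v1_7ez z) (hk : k ∈ Poly p1_Z) :
    k + Complex.I * z * (64 * z ^ 6 - 80 * z ^ 4 + 24 * z ^ 2 - 1) ≠ 0 := by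
  have h := edge_use rpG7n (E := L1_7ez) (V0 := dum) (V1 := dum) (V2 := n1_Z) (fun e he => by
    simp only [L1_7ez, List.mem_cons, List.not_mem_nil, or_false] at he
    rcases he with rfl | rfl | rfl | rfl | rfl | rfl
    exacts [⟨_, ok1_7ez_0⟩, ⟨_, ok1_7ez_1⟩, ⟨_, ok1_7ez_2⟩, ⟨_, ok1_7ez_3⟩, ⟨_, ok1_7ez_4⟩, ⟨_,
        ok1_7ez_5⟩]) (V := v1_7ez) (by decide) hz zero_dum zero_dum (rg1_Z hk)
  rw [evG7n (mr_false k)] at h
  exact fun h0 => h (by rw [h0, mul_zero])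

theorem fr1_7es {z k : ℂ} (hz : OnE v1_7es z) (hk : k ∈ Poly p1_S3) :
    k + Complex.I * z * (64 * z ^ 6 - 80 * z ^ 4 + 24 * z ^ 2 - 1) ≠ 0 := by
  have h := edge_use rpG7n (E := L1_7es) (V0 := dum) (V1 := dum) (V2 := n1_S3) (fun e he => by
    simp only [L1_7es, List.mem_cons, List.not_mem_nil, or_false] at he
    rcases he with rfl | rfl | rfl | rfl | rfl | rfl
    exacts [⟨_, ok1_7es_0⟩, ⟨_, ok1_7es_1⟩, ⟨_, ok1_7es_2⟩, ⟨_, ok1_7es_3⟩, ⟨_, ok1_7es_4⟩, ⟨_,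
        ok1_7es_5⟩]) (V := v1_7es) (by decide) hz zero_dum zero_dum (rg1_S3 hk)
  rw [evG7n (mr_false k)] at h
  exact fun h0 => h (by rw [h0, mul_zero])

theorem ok1_7aa_0 :
    chkT cF7mm cF7mm T1_7aa_0 (14640, 480) (14672, 304) dum n1_A2 n1_A2 = true := by
  decide +kernel

theorem ok1_7aa_3 :
    chkT cF7mm cF7mm T1_7aa_3 (15056, 400) (14768, 784) dum n1_A2 n1_A2 = true := by
  decide +kernel

end Pool.Agent.Work.MP_b30479_gtS.G2.SC

end

section

/-!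
# Part of `SRefD1G`
-/
set_option linter.style.longLine false

set_option deprecated.oldSectionVars true

namespace Pool.Agent.Work.MP_b30479_gtS.G2.SC

open scoped ComplexConjugate

theorem ok1_7aa_6 :
    chkT cF7mm cF7mm T1_7aa_6 (14640, 640) (14640, 480) dum n1_A2 n1_A2 = true := by
  decide +kernel

theorem ok1_7az_0 :
    chkT cF7mn cF7mn T1_7az_0 (14528, 480) (14672, 400) dum n1_A2 n1_Z = true := by
  decide +kernel

theorem ok1_7az_3 :
    chkT cF7mn cF7mn T1_7az_3 (14928, 544) (14768, 784) dum n1_A2 n1_Z = true := by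
  decide +kernel

end Pool.Agent.Work.MP_b30479_gtS.G2.SC

end

section

/-!
# Part of `SRefD1G`
-/
set_option linter.style.longLine false

set_option deprecated.oldSectionVars true

namespace Pool.Agent.Work.MP_b30479_gtS.G2.SC

open scoped ComplexConjugate

theorem ok1_7as_0 :
    chkT cF7mn cF7mn T1_7as_0 (14384, 480) (14576, 368) dum n1_A2 n1_S3 = true := by
  decide +kernel

theorem ok1_7as_3 :
    chkT cF7mn cF7mn T1_7as_3 (14912, 592) (14544, 976) dum n1_A2 n1_S3 = true := by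
  decide +kernel

theorem ok1_7as_6 :
    chkT cF7mn cF7mn T1_7as_6 (14400, 752) (14384, 480) dum n1_A2 n1_S3 = true := by
  decide +kernel

end Pool.Agent.Work.MP_b30479_gtS.G2.SC

end

section

/-!
# Part of `SRefD1G`
-/
set_option linter.style.longLine false

set_option deprecated.oldSectionVars true

namespace Pool.Agent.Work.MP_b30479_gtS.G2.SC

open scoped ComplexConjugate

theorem fr1_7zz {z k l : ℂ} (hz : OnE v1_7zz z) (hk : k ∈ Poly p1_Z)
    (hl : l ∈ Poly p1_Z) :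
    k ^ 2 + l ^ 2 - 2 * k * l * (64 * z ^ 7 - 112 * z ^ 5 + 56 * z ^ 3 - 7 * z) + (z * (64 * z ^ 6 -
        80 * z ^ 4 + 24 * z ^ 2 - 1)) ^ 2 ≠ 0 := by
  have h := edge_use rpF7nn (E := L1_7zz) (V0 := dum) (V1 := n1_Z) (V2 := n1_Z) (fun e he => by
    simp only [L1_7zz, List.mem_cons, List.not_mem_nil, or_false] at he
    rcases he with rfl | rfl | rfl | rfl | rfl | rfl | rfl
    exacts [⟨_, ok1_7zz_0⟩, ⟨_, ok1_7zz_1⟩, ⟨_, ok1_7zz_2⟩, ⟨_, ok1_7zz_3⟩, ⟨_, ok1_7zz_4⟩, ⟨_,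
        ok1_7zz_5⟩, ⟨_, ok1_7zz_6⟩]) (V := v1_7zz) (by decide) hz zero_dum (rg1_Z hk) (rg1_Z hl)
  rw [evF7nn (mr_false k) (mr_false l)] at h
  exact fun h0 => h (by rw [h0, mul_zero])

theorem fr1_7zs {z k l : ℂ} (hz : OnE v1_7zs z) (hk : k ∈ Poly p1_Z)
    (hl : l ∈ Poly p1_S3) :
    k ^ 2 + l ^ 2 - 2 * k * l * (64 * z ^ 7 - 112 * z ^ 5 + 56 * z ^ 3 - 7 * z) + (z * (64 * z ^ 6 -
        80 * z ^ 4 + 24 * z ^ 2 - 1)) ^ 2 ≠ 0 := by
  have h := edge_use rpF7nn (E := L1_7zs) (V0 := dum) (V1 := n1_Z) (V2 := n1_S3) (fun e he => by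
    simp only [L1_7zs, List.mem_cons, List.not_mem_nil, or_false] at he
    rcases he with rfl | rfl | rfl | rfl | rfl | rfl | rfl
    exacts [⟨_, ok1_7zs_0⟩, ⟨_, ok1_7zs_1⟩, ⟨_, ok1_7zs_2⟩, ⟨_, ok1_7zs_3⟩, ⟨_, ok1_7zs_4⟩, ⟨_,
        ok1_7zs_5⟩, ⟨_, ok1_7zs_6⟩]) (V := v1_7zs) (by decide) hz zero_dum (rg1_Z hk) (rg1_S3 hl)
  rw [evF7nn (mr_false k) (mr_false l)] at h
  exact fun h0 => h (by rw [h0, mul_zero])

theorem ok1_7ss_0 :
    chkT cF7nn cF7nn T1_7ss_0 (14288, 544) (14656, 656) dum n1_S3 n1_S3 = true := by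
  decide +kernel

theorem ok1_7ss_2 :
    chkT cF7nn cF7nn T1_7ss_2 (14736, 752) (14240, 1216) dum n1_S3 n1_S3 = true := by
  decide +kernel

end Pool.Agent.Work.MP_b30479_gtS.G2.SC

end

section

/-!
# Part of `SRefD1G`
-/
set_option linter.style.longLine false

set_option deprecated.oldSectionVars true

namespace Pool.Agent.Work.MP_b30479_gtS.G2.SC

open scoped ComplexConjugate

theorem ok1_7ss_5_q0 :
    chkT cF7nn cF7nn T1_7ss_5_1 (14112, 1072) (14064, 784) dum [(8016, 3840), (12112, 608), (14880,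
        608), (14269, 5696), (8112, 5696), (8016, 5024)] n1_S3 = true := by
  decide +kernel

theorem ok1_7ss_5_q1 :
    chkT cF7nn cF7nn T1_7ss_5_3 (14112, 1072) (14064, 784) dum [(14269, 5696), (13984, 8064),
        (13296, 10800), (11728, 10800), (8448, 8048), (8112, 5696)] [(8016, 3840), (12112, 608),
        (14880, 608), (14269, 5696), (8112, 5696), (8016, 5024)] = true := by
  decide +kernel

theorem ok1_7ss_5_q2 :
    chkT cF7nn cF7nn T1_7ss_5_7 (14112, 1072) (14064, 784) dum [(8443, 8016), (8112, 5696), (11184,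
        5696), (11184, 8016)] [(14269, 5696), (13984, 8064), (13296, 10800), (11728, 10800), (8448,
        8048), (8112, 5696)] = true := by
  decide +kernel

theorem ok1_7ss_5_q3 :
    chkT cF7nn cF7nn T1_7ss_5_11 (14112, 1072) (14064, 784) dum [(11184, 10344), (8448, 8048),
        (8443, 8016), (11184, 8016)] [(8443, 8016), (8112, 5696), (11184, 5696), (11184, 8016)] =
        true := by
  decide +kernel

theorem ok1_7ss_5_q4 :
    chkT cF7nn cF7nn T1_7ss_5_13 (14112, 1072) (14064, 784) dum [(9808, 9190), (8448, 8048), (8443,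
        8016), (9808, 8016)] [(11184, 10344), (8448, 8048), (8443, 8016), (11184, 8016)] = true :=
        by
  decide +kernel

end Pool.Agent.Work.MP_b30479_gtS.G2.SC

end

section

/-!
# Part of `SRefD1G`
-/
set_option linter.style.longLine false

set_option deprecated.oldSectionVars true

namespace Pool.Agent.Work.MP_b30479_gtS.G2.SC

open scoped ComplexConjugate

theorem ok1_7ss_5_q5 :
    chkT cF7nn cF7nn T1_7ss_5_14 (14112, 1072) (14064, 784) dum [(11184, 10344), (9808, 9190),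
        (9808, 8016), (11184, 8016)] [(11184, 10344), (8448, 8048), (8443, 8016), (11184, 8016)] =
        true := by
  decide +kernel

theorem ok1_7ss_5_q8 :
    chkT cF7nn cF7nn T1_7ss_5_10 (14112, 1072) (14064, 784) dum [(11184, 10344), (8448, 8048),
        (8443, 8016), (11184, 8016)] [(14269, 5696), (13984, 8064), (13296, 10800), (11728, 10800),
        (11184, 10344), (11184, 5696)] = true := by
  decide +kernel

theorem ok1_7ss_5_q11 :
    chkT cF7nn cF7nn T1_7ss_5_6 (14112, 1072) (14064, 784) dum [(14269, 5696), (13984, 8064),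
        (13296, 10800), (11728, 10800), (11184, 10344), (11184, 5696)] [(14269, 5696), (13984,
        8064), (13296, 10800), (11728, 10800), (8448, 8048), (8112, 5696)] = true := by
  decide +kernel

theorem ok1_7ss_6 :
    chkT cF7nn cF7nn T1_7ss_6 (14064, 784) (14288, 544) dum n1_S3 n1_S3 = true := by
  decide +kernel

end Pool.Agent.Work.MP_b30479_gtS.G2.SC

end

section

/-!
# Refined rings, round 1, 7 crossings

Generated certificates (see `S2Cert`).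
-/

set_option linter.style.longLine false

set_option deprecated.oldSectionVars true

namespace Pool.Agent.Work.MP_b30479_gtS.G2.SC

open scoped ComplexConjugate

theorem fr1_7aa {z k l : ℂ} (hz : OnE v1_7aa z) (hk : conj k ∈ Poly p1_A2)
    (hl : conj l ∈ Poly p1_A2) :
    k ^ 2 + l ^ 2 - 2 * k * l * (64 * z ^ 7 - 112 * z ^ 5 + 56 * z ^ 3 - 7 * z) + (z * (64 * z ^ 6 -
        80 * z ^ 4 + 24 * z ^ 2 - 1)) ^ 2 ≠ 0 := by
  have h := edge_use rpF7mm (E := L1_7aa) (V0 := dum) (V1 := n1_A2) (V2 := n1_A2) (fun e he => by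
    simp only [L1_7aa, List.mem_cons, List.not_mem_nil, or_false] at he
    rcases he with rfl | rfl | rfl | rfl | rfl | rfl | rfl
    exacts [⟨_, ok1_7aa_0⟩, ⟨_, ok1_7aa_1⟩, ⟨_, ok1_7aa_2⟩, ⟨_, ok1_7aa_3⟩, ⟨_, ok1_7aa_4⟩, ⟨_,
        ok1_7aa_5⟩, ⟨_, ok1_7aa_6⟩]) (V := v1_7aa) (by decide) hz zero_dum (rg1_A2 hk) (rg1_A2 hl)
  rw [evF7mm (mr_true k) (mr_true l)] at h
  exact fun h0 => h (by rw [h0, mul_zero])

theorem fr1_7az {z k l : ℂ} (hz : OnE v1_7az z) (hk : conj k ∈ Poly p1_A2)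
    (hl : l ∈ Poly p1_Z) :
    k ^ 2 + l ^ 2 - 2 * k * l * (64 * z ^ 7 - 112 * z ^ 5 + 56 * z ^ 3 - 7 * z) + (z * (64 * z ^ 6 -
        80 * z ^ 4 + 24 * z ^ 2 - 1)) ^ 2 ≠ 0 := by
  have h := edge_use rpF7mn (E := L1_7az) (V0 := dum) (V1 := n1_A2) (V2 := n1_Z) (fun e he => by
    simp only [L1_7az, List.mem_cons, List.not_mem_nil, or_false] at he
    rcases he with rfl | rfl | rfl | rfl | rfl | rfl | rfl
    exacts [⟨_, ok1_7az_0⟩, ⟨_, ok1_7az_1⟩, ⟨_, ok1_7az_2⟩, ⟨_, ok1_7az_3⟩, ⟨_, ok1_7az_4⟩, ⟨_,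
        ok1_7az_5⟩, ⟨_, ok1_7az_6⟩]) (V := v1_7az) (by decide) hz zero_dum (rg1_A2 hk) (rg1_Z hl)
  rw [evF7mn (mr_true k) (mr_false l)] at h
  exact fun h0 => h (by rw [h0, mul_zero])

theorem fr1_7as {z k l : ℂ} (hz : OnE v1_7as z) (hk : conj k ∈ Poly p1_A2)
    (hl : l ∈ Poly p1_S3) :
    k ^ 2 + l ^ 2 - 2 * k * l * (64 * z ^ 7 - 112 * z ^ 5 + 56 * z ^ 3 - 7 * z) + (z * (64 * z ^ 6 -
        80 * z ^ 4 + 24 * z ^ 2 - 1)) ^ 2 ≠ 0 := by
  have h := edge_use rpF7mn (E := L1_7as) (V0 := dum) (V1 := n1_A2) (V2 := n1_S3) (fun e he => by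
    simp only [L1_7as, List.mem_cons, List.not_mem_nil, or_false] at he
    rcases he with rfl | rfl | rfl | rfl | rfl | rfl | rfl
    exacts [⟨_, ok1_7as_0⟩, ⟨_, ok1_7as_1⟩, ⟨_, ok1_7as_2⟩, ⟨_, ok1_7as_3⟩, ⟨_, ok1_7as_4⟩, ⟨_,
        ok1_7as_5⟩, ⟨_, ok1_7as_6⟩]) (V := v1_7as) (by decide) hz zero_dum (rg1_A2 hk) (rg1_S3 hl)
  rw [evF7mn (mr_true k) (mr_false l)] at h
  exact fun h0 => h (by rw [h0, mul_zero])

theorem ok1_7ss_5_r6 :
    chkT cF7nn cF7nn T1_7ss_5_12 (14112, 1072) (14064, 784) dum [(11184, 10344), (8448, 8048),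
        (8443, 8016), (11184, 8016)] [(11184, 10344), (8448, 8048), (8443, 8016), (11184, 8016)] =
        true :=
  chkT_cut1 (by decide +kernel)
    ok1_7ss_5_q4
    ok1_7ss_5_q5

theorem ok1_7ss_5_r7 :
    chkT cF7nn cF7nn T1_7ss_5_9 (14112, 1072) (14064, 784) dum [(11184, 10344), (8448, 8048),
        (8443, 8016), (11184, 8016)] [(11184, 10344), (8448, 8048), (8112, 5696), (11184, 5696)] =
        true :=
  chkT_cut2 (by decide +kernel)
    ok1_7ss_5_q3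
    ok1_7ss_5_r6

theorem ok1_7ss_5_r9 :
    chkT cF7nn cF7nn T1_7ss_5_8 (14112, 1072) (14064, 784) dum [(11184, 10344), (8448, 8048),
        (8443, 8016), (11184, 8016)] [(14269, 5696), (13984, 8064), (13296, 10800), (11728, 10800),
        (8448, 8048), (8112, 5696)] = true :=
  chkT_cut2 (by decide +kernel)
    ok1_7ss_5_r7
    ok1_7ss_5_q8

theorem ok1_7ss_5_r10 :
    chkT cF7nn cF7nn T1_7ss_5_5 (14112, 1072) (14064, 784) dum [(11184, 10344), (8448, 8048),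
        (8112, 5696), (11184, 5696)] [(14269, 5696), (13984, 8064), (13296, 10800), (11728, 10800),
        (8448, 8048), (8112, 5696)] = true :=
  chkT_cut1 (by decide +kernel)
    ok1_7ss_5_q2
    ok1_7ss_5_r9

theorem ok1_7ss_5_r12 :
    chkT cF7nn cF7nn T1_7ss_5_4 (14112, 1072) (14064, 784) dum [(14269, 5696), (13984, 8064),
        (13296, 10800), (11728, 10800), (8448, 8048), (8112, 5696)] [(14269, 5696), (13984, 8064),
        (13296, 10800), (11728, 10800), (8448, 8048), (8112, 5696)] = true :=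
  chkT_cut1 (by decide +kernel)
    ok1_7ss_5_r10
    ok1_7ss_5_q11

theorem ok1_7ss_5_r13 :
    chkT cF7nn cF7nn T1_7ss_5_2 (14112, 1072) (14064, 784) dum [(14269, 5696), (13984, 8064),
        (13296, 10800), (11728, 10800), (8448, 8048), (8112, 5696)] n1_S3 = true :=
  chkT_cut2 (by decide +kernel)
    ok1_7ss_5_q1
    ok1_7ss_5_r12

theorem ok1_7ss_5 :
    chkT cF7nn cF7nn T1_7ss_5 (14112, 1072) (14064, 784) dum n1_S3 n1_S3 = true :=
  chkT_cut1 (by decide +kernel)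
    ok1_7ss_5_q0
    ok1_7ss_5_r13

theorem fr1_7ss {z k l : ℂ} (hz : OnE v1_7ss z) (hk : k ∈ Poly p1_S3)
    (hl : l ∈ Poly p1_S3) :
    k ^ 2 + l ^ 2 - 2 * k * l * (64 * z ^ 7 - 112 * z ^ 5 + 56 * z ^ 3 - 7 * z) + (z * (64 * z ^ 6 -
        80 * z ^ 4 + 24 * z ^ 2 - 1)) ^ 2 ≠ 0 := by
  have h := edge_use rpF7nn (E := L1_7ss) (V0 := dum) (V1 := n1_S3) (V2 := n1_S3) (fun e he => by
    simp only [L1_7ss, List.mem_cons, List.not_mem_nil, or_false] at he
    rcases he with rfl | rfl | rfl | rfl | rfl | rfl | rfl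
    exacts [⟨_, ok1_7ss_0⟩, ⟨_, ok1_7ss_1⟩, ⟨_, ok1_7ss_2⟩, ⟨_, ok1_7ss_3⟩, ⟨_, ok1_7ss_4⟩, ⟨_,
        ok1_7ss_5⟩, ⟨_, ok1_7ss_6⟩]) (V := v1_7ss) (by decide) hz zero_dum (rg1_S3 hk) (rg1_S3 hl)
  rw [evF7nn (mr_false k) (mr_false l)] at h
  exact fun h0 => h (by rw [h0, mul_zero])

end Pool.Agent.Work.MP_b30479_gtS.G2.SC

end

section

/-!
# Part of `SRefD3F`
-/
set_option linter.style.longLine false

set_option deprecated.oldSectionVars true

namespace Pool.Agent.Work.MP_b30479_gtS.G2.SC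

open scoped ComplexConjugate

theorem fr3_6ea {z k : ℂ} (hz : OnE v3_6ea z) (hk : conj k ∈ Poly p3_A2) :
    k + Complex.I * z * (32 * z ^ 5 - 32 * z ^ 3 + 6 * z) ≠ 0 := by
  have h := edge_use rpG6m (E := L3_6ea) (V0 := dum) (V1 := dum) (V2 := n3_A2) (fun e he => by
    simp only [L3_6ea, List.mem_cons, List.not_mem_nil, or_false] at he
    rcases he with rfl | rfl | rfl | rfl | rfl | rfl
    exacts [⟨_, ok3_6ea_0⟩, ⟨_, ok3_6ea_1⟩, ⟨_, ok3_6ea_2⟩, ⟨_, ok3_6ea_3⟩, ⟨_, ok3_6ea_4⟩, ⟨_,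
        ok3_6ea_5⟩]) (V := v3_6ea) (by decide) hz zero_dum zero_dum (rg3_A2 hk)
  rw [evG6m (mr_true k)] at h
  exact fun h0 => h (by rw [h0, mul_zero])

theorem fr3_6ez {z k : ℂ} (hz : OnE v3_6ez z) (hk : k ∈ Poly p3_Z) :
    k + Complex.I * z * (32 * z ^ 5 - 32 * z ^ 3 + 6 * z) ≠ 0 := by
  have h := edge_use rpG6n (E := L3_6ez) (V0 := dum) (V1 := dum) (V2 := n3_Z) (fun e he => by
    simp only [L3_6ez, List.mem_cons, List.not_mem_nil, or_false] at he
    rcases he with rfl | rfl | rfl | rfl | rfl | rfl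
    exacts [⟨_, ok3_6ez_0⟩, ⟨_, ok3_6ez_1⟩, ⟨_, ok3_6ez_2⟩, ⟨_, ok3_6ez_3⟩, ⟨_, ok3_6ez_4⟩, ⟨_,
        ok3_6ez_5⟩]) (V := v3_6ez) (by decide) hz zero_dum zero_dum (rg3_Z hk)
  rw [evG6n (mr_false k)] at h
  exact fun h0 => h (by rw [h0, mul_zero])

theorem fr3_6es {z k : ℂ} (hz : OnE v3_6es z) (hk : k ∈ Poly p3_S3) :
    k + Complex.I * z * (32 * z ^ 5 - 32 * z ^ 3 + 6 * z) ≠ 0 := by
  have h := edge_use rpG6n (E := L3_6es) (V0 := dum) (V1 := dum) (V2 := n3_S3) (fun e he => by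
    simp only [L3_6es, List.mem_cons, List.not_mem_nil, or_false] at he
    rcases he with rfl | rfl | rfl | rfl | rfl | rfl
    exacts [⟨_, ok3_6es_0⟩, ⟨_, ok3_6es_1⟩, ⟨_, ok3_6es_2⟩, ⟨_, ok3_6es_3⟩, ⟨_, ok3_6es_4⟩, ⟨_,
        ok3_6es_5⟩]) (V := v3_6es) (by decide) hz zero_dum zero_dum (rg3_S3 hk)
  rw [evG6n (mr_false k)] at h
  exact fun h0 => h (by rw [h0, mul_zero])

theorem ok3_6aa_3 :
    chkT cF6mm cF6mm T3_6aa_3 (14816, 576) (14464, 1184) dum n3_A2 n3_A2 = true := by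
  decide +kernel

theorem ok3_6aa_5 :
    chkT cF6mm cF6mm T3_6aa_5 (14336, 992) (14256, 784) dum n3_A2 n3_A2 = true := by
  decide +kernel

theorem ok3_6aa_6 :
    chkT cF6mm cF6mm T3_6aa_6 (14256, 784) (14272, 480) dum n3_A2 n3_A2 = true := by
  decide +kernel

end Pool.Agent.Work.MP_b30479_gtS.G2.SC

end

section

/-!
# Part of `SRefD3F`
-/
set_option linter.style.longLine false

set_option deprecated.oldSectionVars true

namespace Pool.Agent.Work.MP_b30479_gtS.G2.SC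

open scoped ComplexConjugate

theorem ok3_6az_1 :
    chkT cF6mn cF6mn T3_6az_1 (14240, 688) (14336, 672) dum n3_A2 n3_Z = true := by
  decide +kernel

theorem ok3_6az_3 :
    chkT cF6mn cF6mn T3_6az_3 (14672, 784) (14480, 1168) dum n3_A2 n3_Z = true := by
  decide +kernel

theorem ok3_6as_0 :
    chkT cF6mn cF6mn T3_6as_0 (13920, 768) (14064, 640) dum n3_A2 n3_S3 = true := by
  decide +kernel

theorem ok3_6as_3_q0 :
    chkT cF6mn cF6mn T3_6as_3_1 (14576, 800) (14384, 1144) dum n3_A2 n3_S3 = true := by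
  decide +kernel

end Pool.Agent.Work.MP_b30479_gtS.G2.SC

end

section

/-!
# Part of `SRefD3F`
-/
set_option linter.style.longLine false

set_option deprecated.oldSectionVars true

namespace Pool.Agent.Work.MP_b30479_gtS.G2.SC

open scoped ComplexConjugate

theorem ok3_6as_3_q1 :
    chkT cF6mn cF6mn T3_6as_3_3 (14384, 1144) (14288, 1316) dum n3_A2 n3_S3 = true := by
  decide +kernel

theorem ok3_6as_3_q2 :
    chkT cF6mn cF6mn T3_6as_3_4 (14288, 1316) (14192, 1488) dum n3_A2 n3_S3 = true := by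
  decide +kernel

theorem ok3_6as_5 :
    chkT cF6mn cF6mn T3_6as_5 (13968, 1280) (13904, 912) dum n3_A2 n3_S3 = true := by
  decide +kernel

theorem fr3_6zz {z k l : ℂ} (hz : OnE v3_6zz z) (hk : k ∈ Poly p3_Z)
    (hl : l ∈ Poly p3_Z) :
    k ^ 2 + l ^ 2 - 2 * k * l * (32 * z ^ 6 - 48 * z ^ 4 + 18 * z ^ 2 - 1) + (z * (32 * z ^ 5 - 32 *
        z ^ 3 + 6 * z)) ^ 2 ≠ 0 := by
  have h := edge_use rpF6nn (E := L3_6zz) (V0 := dum) (V1 := n3_Z) (V2 := n3_Z) (fun e he => by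
    simp only [L3_6zz, List.mem_cons, List.not_mem_nil, or_false] at he
    rcases he with rfl | rfl | rfl | rfl | rfl
    exacts [⟨_, ok3_6zz_0⟩, ⟨_, ok3_6zz_1⟩, ⟨_, ok3_6zz_2⟩, ⟨_, ok3_6zz_3⟩, ⟨_, ok3_6zz_4⟩]) (V :=
        v3_6zz) (by decide) hz zero_dum (rg3_Z hk) (rg3_Z hl)
  rw [evF6nn (mr_false k) (mr_false l)] at h
  exact fun h0 => h (by rw [h0, mul_zero])

theorem ok3_6zs_3 :
    chkT cF6nn cF6nn T3_6zs_3 (14208, 1440) (13984, 1520) dum n3_Z n3_S3 = true := by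
  decide +kernel

end Pool.Agent.Work.MP_b30479_gtS.G2.SC

end

section

/-!
# Part of `SRefD3F`
-/
set_option linter.style.longLine false

set_option deprecated.oldSectionVars true

namespace Pool.Agent.Work.MP_b30479_gtS.G2.SC

open scoped ComplexConjugate

theorem ok3_6ss_0 :
    chkT cF6nn cF6nn T3_6ss_0 (13504, 1280) (13696, 976) dum n3_S3 n3_S3 = true := by
  decide +kernel

theorem ok3_6ss_3 :
    chkT cF6nn cF6nn T3_6ss_3 (14256, 1200) (13824, 1904) dum n3_S3 n3_S3 = true := by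
  decide +kernel

theorem ok3_6ss_5_q0 :
    chkT cF6nn cF6nn T3_6ss_5_1 (13632, 1760) (13536, 1488) dum n3_S3 [(8240, 4576), (8512, 3600),
        (13792, 2544), (13853, 6640), (8558, 6640), (8544, 6592)] = true := by
  decide +kernel

theorem ok3_6ss_5_q1 :
    chkT cF6nn cF6nn T3_6ss_5_3 (13632, 1760) (13536, 1488) dum [(8240, 4576), (8512, 3600),
        (13792, 2544), (13853, 6640), (8558, 6640), (8544, 6592)] [(13853, 6640), (13872, 7984),
        (13072, 10736), (11440, 10304), (8912, 7792), (8558, 6640)] = true := by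
  decide +kernel

theorem ok3_6ss_5_q2 :
    chkT cF6nn cF6nn T3_6ss_5_5 (13632, 1760) (13536, 1488) dum [(13853, 6640), (13872, 7984),
        (13668, 8688), (9813, 8688), (8912, 7792), (8558, 6640)] [(13853, 6640), (13872, 7984),
        (13072, 10736), (11440, 10304), (8912, 7792), (8558, 6640)] = true := by
  decide +kernel

theorem ok3_6ss_5_q3 :
    chkT cF6nn cF6nn T3_6ss_5_9 (13632, 1760) (13536, 1488) dum [(11728, 10381), (11440, 10304),
        (9813, 8688), (11728, 8688)] [(13853, 6640), (13872, 7984), (13668, 8688), (9813, 8688),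
        (8912, 7792), (8558, 6640)] = true := by
  decide +kernel

theorem ok3_6ss_5_q4 :
    chkT cF6nn cF6nn T3_6ss_5_13 (13632, 1760) (13536, 1488) dum [(10768, 9637), (9813, 8688),
        (10768, 8688)] [(11728, 10381), (11440, 10304), (9813, 8688), (11728, 8688)] = true := by
  decide +kernel

end Pool.Agent.Work.MP_b30479_gtS.G2.SC

end

section

/-!
# Part of `SRefD3F`
-/
set_option linter.style.longLine false

set_option deprecated.oldSectionVars true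

namespace Pool.Agent.Work.MP_b30479_gtS.G2.SC

open scoped ComplexConjugate

theorem ok3_6ss_5_q5 :
    chkT cF6nn cF6nn T3_6ss_5_14 (13632, 1760) (13536, 1488) dum [(11728, 10381), (11440, 10304),
        (10768, 9637), (10768, 8688), (11728, 8688)] [(11728, 10381), (11440, 10304), (9813, 8688),
        (11728, 8688)] = true := by
  decide +kernel

theorem ok3_6ss_5_q7 :
    chkT cF6nn cF6nn T3_6ss_5_12 (13632, 1760) (13536, 1488) dum [(11728, 10381), (11440, 10304),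
        (9813, 8688), (11728, 8688)] [(13668, 8688), (13072, 10736), (11728, 10381), (11728, 8688)]
        = true := by
  decide +kernel

theorem ok3_6ss_5_q10 :
    chkT cF6nn cF6nn T3_6ss_5_8 (13632, 1760) (13536, 1488) dum [(13668, 8688), (13072, 10736),
        (11728, 10381), (11728, 8688)] [(13853, 6640), (13872, 7984), (13072, 10736), (11440,
        10304), (8912, 7792), (8558, 6640)] = true := by
  decide +kernel

theorem ok3_6ss_6 :
    chkT cF6nn cF6nn T3_6ss_6 (13536, 1488) (13504, 1280) dum n3_S3 n3_S3 = true := by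
  decide +kernel

end Pool.Agent.Work.MP_b30479_gtS.G2.SC

end

section

/-!
# Refined rings, round 3, 6 crossings

Generated certificates (see `S2Cert`).
-/

set_option linter.style.longLine false

set_option deprecated.oldSectionVars true

namespace Pool.Agent.Work.MP_b30479_gtS.G2.SC

open scoped ComplexConjugate

theorem fr3_6aa {z k l : ℂ} (hz : OnE v3_6aa z) (hk : conj k ∈ Poly p3_A2)
    (hl : conj l ∈ Poly p3_A2) :
    k ^ 2 + l ^ 2 - 2 * k * l * (32 * z ^ 6 - 48 * z ^ 4 + 18 * z ^ 2 - 1) + (z * (32 * z ^ 5 - 32 *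
        z ^ 3 + 6 * z)) ^ 2 ≠ 0 := by
  have h := edge_use rpF6mm (E := L3_6aa) (V0 := dum) (V1 := n3_A2) (V2 := n3_A2) (fun e he => by
    simp only [L3_6aa, List.mem_cons, List.not_mem_nil, or_false] at he
    rcases he with rfl | rfl | rfl | rfl | rfl | rfl | rfl
    exacts [⟨_, ok3_6aa_0⟩, ⟨_, ok3_6aa_1⟩, ⟨_, ok3_6aa_2⟩, ⟨_, ok3_6aa_3⟩, ⟨_, ok3_6aa_4⟩, ⟨_,
        ok3_6aa_5⟩, ⟨_, ok3_6aa_6⟩]) (V := v3_6aa) (by decide) hz zero_dum (rg3_A2 hk) (rg3_A2 hl)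
  rw [evF6mm (mr_true k) (mr_true l)] at h
  exact fun h0 => h (by rw [h0, mul_zero])

theorem fr3_6az {z k l : ℂ} (hz : OnE v3_6az z) (hk : conj k ∈ Poly p3_A2)
    (hl : l ∈ Poly p3_Z) :
    k ^ 2 + l ^ 2 - 2 * k * l * (32 * z ^ 6 - 48 * z ^ 4 + 18 * z ^ 2 - 1) + (z * (32 * z ^ 5 - 32 *
        z ^ 3 + 6 * z)) ^ 2 ≠ 0 := by
  have h := edge_use rpF6mn (E := L3_6az) (V0 := dum) (V1 := n3_A2) (V2 := n3_Z) (fun e he => by
    simp only [L3_6az, List.mem_cons, List.not_mem_nil, or_false] at he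
    rcases he with rfl | rfl | rfl | rfl | rfl | rfl | rfl
    exacts [⟨_, ok3_6az_0⟩, ⟨_, ok3_6az_1⟩, ⟨_, ok3_6az_2⟩, ⟨_, ok3_6az_3⟩, ⟨_, ok3_6az_4⟩, ⟨_,
        ok3_6az_5⟩, ⟨_, ok3_6az_6⟩]) (V := v3_6az) (by decide) hz zero_dum (rg3_A2 hk) (rg3_Z hl)
  rw [evF6mn (mr_true k) (mr_false l)] at h
  exact fun h0 => h (by rw [h0, mul_zero])

theorem ok3_6as_3_r3 :
    chkT cF6mn cF6mn T3_6as_3_2 (14384, 1144) (14192, 1488) dum n3_A2 n3_S3 = true :=
  chkT_seg (by decide +kernel)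
    ok3_6as_3_q1
    ok3_6as_3_q2

theorem ok3_6as_3 :
    chkT cF6mn cF6mn T3_6as_3 (14576, 800) (14192, 1488) dum n3_A2 n3_S3 = true :=
  chkT_seg (by decide +kernel)
    ok3_6as_3_q0
    ok3_6as_3_r3

theorem fr3_6as {z k l : ℂ} (hz : OnE v3_6as z) (hk : conj k ∈ Poly p3_A2)
    (hl : l ∈ Poly p3_S3) :
    k ^ 2 + l ^ 2 - 2 * k * l * (32 * z ^ 6 - 48 * z ^ 4 + 18 * z ^ 2 - 1) + (z * (32 * z ^ 5 - 32 *
        z ^ 3 + 6 * z)) ^ 2 ≠ 0 := by
  have h := edge_use rpF6mn (E := L3_6as) (V0 := dum) (V1 := n3_A2) (V2 := n3_S3) (fun e he => by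
    simp only [L3_6as, List.mem_cons, List.not_mem_nil, or_false] at he
    rcases he with rfl | rfl | rfl | rfl | rfl | rfl | rfl
    exacts [⟨_, ok3_6as_0⟩, ⟨_, ok3_6as_1⟩, ⟨_, ok3_6as_2⟩, ⟨_, ok3_6as_3⟩, ⟨_, ok3_6as_4⟩, ⟨_,
        ok3_6as_5⟩, ⟨_, ok3_6as_6⟩]) (V := v3_6as) (by decide) hz zero_dum (rg3_A2 hk) (rg3_S3 hl)
  rw [evF6mn (mr_true k) (mr_false l)] at h
  exact fun h0 => h (by rw [h0, mul_zero])

theorem fr3_6zs {z k l : ℂ} (hz : OnE v3_6zs z) (hk : k ∈ Poly p3_Z)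
    (hl : l ∈ Poly p3_S3) :
    k ^ 2 + l ^ 2 - 2 * k * l * (32 * z ^ 6 - 48 * z ^ 4 + 18 * z ^ 2 - 1) + (z * (32 * z ^ 5 - 32 *
        z ^ 3 + 6 * z)) ^ 2 ≠ 0 := by
  have h := edge_use rpF6nn (E := L3_6zs) (V0 := dum) (V1 := n3_Z) (V2 := n3_S3) (fun e he => by
    simp only [L3_6zs, List.mem_cons, List.not_mem_nil, or_false] at he
    rcases he with rfl | rfl | rfl | rfl | rfl | rfl | rfl
    exacts [⟨_, ok3_6zs_0⟩, ⟨_, ok3_6zs_1⟩, ⟨_, ok3_6zs_2⟩, ⟨_, ok3_6zs_3⟩, ⟨_, ok3_6zs_4⟩, ⟨_,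
        ok3_6zs_5⟩, ⟨_, ok3_6zs_6⟩]) (V := v3_6zs) (by decide) hz zero_dum (rg3_Z hk) (rg3_S3 hl)
  rw [evF6nn (mr_false k) (mr_false l)] at h
  exact fun h0 => h (by rw [h0, mul_zero])

theorem ok3_6ss_5_r6 :
    chkT cF6nn cF6nn T3_6ss_5_11 (13632, 1760) (13536, 1488) dum [(11728, 10381), (11440, 10304),
        (9813, 8688), (11728, 8688)] [(11728, 10381), (11440, 10304), (9813, 8688), (11728, 8688)]
        = true :=
  chkT_cut1 (by decide +kernel)
    ok3_6ss_5_q4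
    ok3_6ss_5_q5

theorem ok3_6ss_5_r8 :
    chkT cF6nn cF6nn T3_6ss_5_10 (13632, 1760) (13536, 1488) dum [(11728, 10381), (11440, 10304),
        (9813, 8688), (11728, 8688)] [(13668, 8688), (13072, 10736), (11440, 10304), (9813, 8688)]
        = true :=
  chkT_cut2 (by decide +kernel)
    ok3_6ss_5_r6
    ok3_6ss_5_q7

theorem ok3_6ss_5_r9 :
    chkT cF6nn cF6nn T3_6ss_5_7 (13632, 1760) (13536, 1488) dum [(11728, 10381), (11440, 10304),
        (9813, 8688), (11728, 8688)] [(13853, 6640), (13872, 7984), (13072, 10736), (11440, 10304),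
        (8912, 7792), (8558, 6640)] = true :=
  chkT_cut2 (by decide +kernel)
    ok3_6ss_5_q3
    ok3_6ss_5_r8

theorem ok3_6ss_5_r11 :
    chkT cF6nn cF6nn T3_6ss_5_6 (13632, 1760) (13536, 1488) dum [(13668, 8688), (13072, 10736),
        (11440, 10304), (9813, 8688)] [(13853, 6640), (13872, 7984), (13072, 10736), (11440,
        10304), (8912, 7792), (8558, 6640)] = true :=
  chkT_cut1 (by decide +kernel)
    ok3_6ss_5_r9
    ok3_6ss_5_q10

theorem ok3_6ss_5_r12 :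
    chkT cF6nn cF6nn T3_6ss_5_4 (13632, 1760) (13536, 1488) dum [(13853, 6640), (13872, 7984),
        (13072, 10736), (11440, 10304), (8912, 7792), (8558, 6640)] [(13853, 6640), (13872, 7984),
        (13072, 10736), (11440, 10304), (8912, 7792), (8558, 6640)] = true :=
  chkT_cut1 (by decide +kernel)
    ok3_6ss_5_q2
    ok3_6ss_5_r11

theorem ok3_6ss_5_r13 :
    chkT cF6nn cF6nn T3_6ss_5_2 (13632, 1760) (13536, 1488) dum n3_S3 [(13853, 6640), (13872,
        7984), (13072, 10736), (11440, 10304), (8912, 7792), (8558, 6640)] = true :=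
  chkT_cut1 (by decide +kernel)
    ok3_6ss_5_q1
    ok3_6ss_5_r12

theorem ok3_6ss_5 :
    chkT cF6nn cF6nn T3_6ss_5 (13632, 1760) (13536, 1488) dum n3_S3 n3_S3 = true :=
  chkT_cut2 (by decide +kernel)
    ok3_6ss_5_q0
    ok3_6ss_5_r13

theorem fr3_6ss {z k l : ℂ} (hz : OnE v3_6ss z) (hk : k ∈ Poly p3_S3)
    (hl : l ∈ Poly p3_S3) :
    k ^ 2 + l ^ 2 - 2 * k * l * (32 * z ^ 6 - 48 * z ^ 4 + 18 * z ^ 2 - 1) + (z * (32 * z ^ 5 - 32 *
        z ^ 3 + 6 * z)) ^ 2 ≠ 0 := by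
  have h := edge_use rpF6nn (E := L3_6ss) (V0 := dum) (V1 := n3_S3) (V2 := n3_S3) (fun e he => by
    simp only [L3_6ss, List.mem_cons, List.not_mem_nil, or_false] at he
    rcases he with rfl | rfl | rfl | rfl | rfl | rfl | rfl
    exacts [⟨_, ok3_6ss_0⟩, ⟨_, ok3_6ss_1⟩, ⟨_, ok3_6ss_2⟩, ⟨_, ok3_6ss_3⟩, ⟨_, ok3_6ss_4⟩, ⟨_,
        ok3_6ss_5⟩, ⟨_, ok3_6ss_6⟩]) (V := v3_6ss) (by decide) hz zero_dum (rg3_S3 hk) (rg3_S3 hl)
  rw [evF6nn (mr_false k) (mr_false l)] at h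
  exact fun h0 => h (by rw [h0, mul_zero])

end Pool.Agent.Work.MP_b30479_gtS.G2.SC

end
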