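import Pool.Agent.Work.MP_b30479_gt.TBS.G2.ZRAe
import Pool.Agent.Work.MP_b30479_gt.TBS.G2.S2DatA
import Pool.Agent.Work.MP_b30479_gt.TBS.G2.S2DatH
import Pool.Agent.Work.MP_b30479_gt.TBS.G2.RDw
import Pool.Agent.Work.MP_b30479_gt.TBS.G2.SKapTwo
import Pool.Agent.Work.MP_b30479_gt.TBS.G2.SStart3
import Pool.Agent.Work.MP_b30479_gt.TBS.G2.SWordL
import Pool.Agent.Work.MP_b30479_gt.TBS.G2.SRefS
import Pool.Agent.Work.MP_b30479_gt.TBS.G2.SRefD2A
import Pool.Agent.Work.MP_b30479_gt.TBS.G2.SRefD1B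
import Pool.Agent.Work.MP_b30479_gt.TBS.G2.SRefD3D_7
import Pool.Agent.Work.MP_b30479_gt.TBS.G2.SRefD1F_5
import Pool.Agent.Work.MP_b30479_gt.TBS.G2.SRefD3F_5
import Pool.Agent.Work.MP_b30479_gt.TBS.G2.SRefD2B
import Pool.Agent.Work.MP_b30479_gt.TBS.G2.SRefD2D
import Pool.Agent.Work.MP_b30479_gt.TBS.G2.SRefD2E
import Pool.Agent.Work.MP_b30479_gt.TBS.G2.SRefD2F
import Pool.Agent.Work.MP_b30479_gt.TBS.G2.SRefD2G
import Pool.Agent.Work.MP_b30479_gt.TBS.G2.SRefD3A
import Pool.Agent.Work.MP_b30479_gt.TBS.G2.SRefD3B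
import Pool.Agent.Work.MP_b30479_gt.TBS.G2.SRefD3E

section

/-!
# Location of all rings
-/

namespace Pool.Agent.Work.MP_b30479_gtS.G2.SL

open Complex SC
open scoped ComplexConjugate

lemma memA {k : ℂ} (h : k ∈ frS (-1) (Poly pA)) : conj k ∈ Poly pA := by
  rw [frS_neg] at h
  exact h

lemma PA : ∀ k ∈ frS (-1) (Poly pA), Port k := fun _ h => port_a (memA h)

lemma PS : ∀ k ∈ Poly pS, Port k := fun _ h => port_s h

lemma PT : ∀ k ∈ Poly pT, Port k := fun _ h => port_t h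

/-- the hinge relation of a ring with two crossings -/
lemma P_of {z k l R : ℂ} (h1 : l = k * (2 * z ^ 2 - 1 - I * R * (z * (2 * z))))
    (h2 : k ^ 2 * (z ^ 2 * (R ^ 2 + 1) - 1) - z ^ 2 = 0) :
    (k + l) * (k ^ 2 * (1 - I * R) ^ 2 + 1) - 2 * (1 - I * R) * k ^ 2 * l = 0 := by
  have e : (k + l) * (k ^ 2 * (1 - I * R) ^ 2 + 1) - 2 * (1 - I * R) * k ^ 2 * l =
      (-2 * (1 - I * R) * k) * (k ^ 2 * (z ^ 2 * (R ^ 2 + 1) - 1) - z ^ 2) := by
    rw [h1]
    linear_combination (2 * (1 - I * R) * k ^ 3 * z ^ 2 * R ^ 2) * I_sq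
  rw [e, h2, mul_zero]

theorem loc_2aa : Loc2 2 (Poly (vt .t2aa)) (PolyU (vt .t2aa)) (frS (-1) (Poly pA))
    (frS (-1) (Poly pA)) r0 :=
  loc2_of (C := fun z => 2 * z ^ 2 - 1) (U := fun z => 2 * z) cs2 (by decide) PA PA
    (fun _ _ _ hz hk hl => fr2aa hz (memA hk) (memA hl))
    (fun _ _ _ _ _ hk hl hR hi h1 h2 => hiPaa hR hi (memA hk) (memA hl) (P_of h1 h2))
    (fun _ _ _ _ _ hk hl hR hi h1 h2 => hiPaa hR hi (memA hk) (memA hl) (P_of h1 h2))

theorem loc_2as : Loc2 2 (Poly (vt .t2as)) (PolyU (vt .t2as)) (frS (-1) (Poly pA))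
    (Poly pT) r0 :=
  loc2_of (C := fun z => 2 * z ^ 2 - 1) (U := fun z => 2 * z) cs2 (by decide) PA PT
    (fun _ _ _ hz hk hl => fr2as hz (memA hk) hl)
    (fun _ _ _ _ _ hk hl hR hi h1 h2 => hiPas hR hi (memA hk) hl (P_of h1 h2))
    (fun _ _ _ _ _ hk hl hR hi h1 h2 => hiPsa hR hi hk (memA hl) (P_of h1 h2))

theorem loc_2e : Loc1 2 (Poly (vt .t2e)) (PolyU (vt .t2e)) (frS (-1) (Poly pA)) r0 := by
  refine loc1_of (C := fun z => 2 * z ^ 2 - 1) (U := fun z => 2 * z) cs2 (by decide) PA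
    (fun _ _ hz hk => fr2e hz (memA hk)) ?_
  intro z k R hz _ hR _ h1 h2 _
  have a1 := vt_re hz
  have a2 := poly_lin (vt_shape .t2e) (a := 0) (b := 1) (c := -200) (by decide) hz
  have a3 := poly_lin (vt_shape .t2e) (a := 0) (b := -1) (c := 508) (by decide) hz
  have a4 := poly_lin (vt_shape .t2e) (a := -1) (b := 0) (c := 664) (by decide) hz
  push_cast at a2 a3 a4
  have e1 : 2 * z ^ 2 * R = I * (1 - 2 * z ^ 2) := by
    have : k = -(I * z * (2 * z)) := by linear_combination h1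
    rw [this] at h2
    linear_combination I * h2 + (2 * z ^ 2 * R) * I_sq
  have e2 : 2 * (z ^ 2 * conj (z ^ 2)) * R = I * conj (z ^ 2) - 2 * I * (z ^ 2 * conj (z ^ 2)) := by
    linear_combination conj (z ^ 2) * e1
  rw [Complex.mul_conj] at e2
  have e3 := congrArg Complex.re e2
  have e4 : (z ^ 2).im = 2 * (z.re * z.im) := by rw [pow_two, Complex.mul_im]; ring
  have e5 : normSq (z ^ 2) = (z.re ^ 2 + z.im ^ 2) ^ 2 := by
    rw [map_pow, Complex.normSq_apply]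
    ring
  simp only [Complex.mul_re, Complex.sub_re, Complex.ofReal_re, Complex.ofReal_im, Complex.I_re,
    Complex.I_im, Complex.conj_re, Complex.conj_im, Complex.re_ofNat, Complex.im_ofNat,
    Complex.mul_im, hR, e4, e5, r0] at e3
  have e6 : z.re ^ 2 + z.im ^ 2 ≤ 1 := by nlinarith
  have e7 : (z.re ^ 2 + z.im ^ 2) ^ 2 ≤ 1 := by
    have : 0 ≤ z.re ^ 2 + z.im ^ 2 := by positivity
    nlinarith
  nlinarith

theorem loc_3aa : Loc2 3 (Poly (vt .t3aa)) (PolyU (vt .t3aa)) (frS (-1) (Poly pA))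
    (frS (-1) (Poly pA)) r0 :=
  loc2_of (C := fun z => 4 * z ^ 3 - 3 * z)
    (U := fun z => 4 * z ^ 2 - 1) cs3 (by decide) PA PA
    (fun _ _ _ hz hk hl => fr3aa hz (memA hk) (memA hl))
    (fun _ _ _ _ hz hk hl hR hi h1 h2 => hiE3aaA hR hi hz (memA hk) h2)
    (fun _ _ _ _ hz hk hl hR hi h1 h2 => hiE3aaA hR hi hz (memA hk) h2)

theorem loc_3as : Loc2 3 (Poly (vt .t3as)) (PolyU (vt .t3as)) (frS (-1) (Poly pA))
    (Poly pS) r0 :=
  loc2_of (C := fun z => 4 * z ^ 3 - 3 * z)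
    (U := fun z => 4 * z ^ 2 - 1) cs3 (by decide) PA PS
    (fun _ _ _ hz hk hl => fr3as hz (memA hk) hl)
    (fun _ _ _ _ hz hk hl hR hi h1 h2 => (hiH hR hi hz (memA hk) hl).elim
      (fun h => h (sub_eq_zero.2 h1)) (fun h => h h2))
    (fun _ _ _ _ hz hk hl hR hi h1 h2 => hiE3asS hR hi hz hk h2)

theorem loc_3ss : Loc2 3 (Poly (vt .t3ss)) (PolyU (vt .t3ss)) (Poly pS)
    (Poly pS) r0 :=
  loc2_of (C := fun z => 4 * z ^ 3 - 3 * z)
    (U := fun z => 4 * z ^ 2 - 1) cs3 (by decide) PS PS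
    (fun _ _ _ hz hk hl => fr3ss hz hk hl)
    (fun _ _ _ _ hz hk hl hR hi h1 h2 => hiE3ssS hR hi hz hk h2)
    (fun _ _ _ _ hz hk hl hR hi h1 h2 => hiE3ssS hR hi hz hk h2)

theorem loc_3ae : Loc1 3 (Poly (vt .t3ae)) (PolyU (vt .t3ae)) (frS (-1) (Poly pA)) r0 :=
  loc1_of (C := fun z => 4 * z ^ 3 - 3 * z)
    (U := fun z => 4 * z ^ 2 - 1) cs3 (by decide) PA
    (fun _ _ hz hk => fr3ae hz (memA hk))
    (fun _ _ _ hz hk hR hi _ _ h2 => hiE3aeA hR hi hz (memA hk) h2)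

theorem loc_3se : Loc1 3 (Poly (vt .t3se)) (PolyU (vt .t3se)) (Poly pS) r0 :=
  loc1_of (C := fun z => 4 * z ^ 3 - 3 * z)
    (U := fun z => 4 * z ^ 2 - 1) cs3 (by decide) PS
    (fun _ _ hz hk => fr3se hz hk)
    (fun _ _ _ hz hk hR hi _ _ h2 => hiE3seS hR hi hz hk h2)

theorem loc_4aa : Loc2 4 (Poly (vt .t4)) (PolyU (vt .t4)) (frS (-1) (Poly pA))
    (frS (-1) (Poly pA)) r0 :=
  loc2_of (C := fun z => 8 * z ^ 4 - 8 * z ^ 2 + 1)
    (U := fun z => 8 * z ^ 3 - 4 * z) cs4 (by decide) PA PA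
    (fun _ _ _ hz hk hl => fr4aa hz (memA hk) (memA hl))
    (fun _ _ _ _ hz hk hl hR hi h1 h2 => hiE4A hR hi hz (memA hk) h2)
    (fun _ _ _ _ hz hk hl hR hi h1 h2 => hiE4A hR hi hz (memA hk) h2)

theorem loc_4as : Loc2 4 (Poly (vt .t4)) (PolyU (vt .t4)) (frS (-1) (Poly pA))
    (Poly pS) r0 :=
  loc2_of (C := fun z => 8 * z ^ 4 - 8 * z ^ 2 + 1)
    (U := fun z => 8 * z ^ 3 - 4 * z) cs4 (by decide) PA PS
    (fun _ _ _ hz hk hl => fr4as hz (memA hk) hl)
    (fun _ _ _ _ hz hk hl hR hi h1 h2 => hiE4A hR hi hz (memA hk) h2)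
    (fun _ _ _ _ hz hk hl hR hi h1 h2 => hiE4S hR hi hz hk h2)

theorem loc_4ss : Loc2 4 (Poly (vt .t4)) (PolyU (vt .t4)) (Poly pS)
    (Poly pS) r0 :=
  loc2_of (C := fun z => 8 * z ^ 4 - 8 * z ^ 2 + 1)
    (U := fun z => 8 * z ^ 3 - 4 * z) cs4 (by decide) PS PS
    (fun _ _ _ hz hk hl => fr4ss hz hk hl)
    (fun _ _ _ _ hz hk hl hR hi h1 h2 => hiE4S hR hi hz hk h2)
    (fun _ _ _ _ hz hk hl hR hi h1 h2 => hiE4S hR hi hz hk h2)

theorem loc_4ae : Loc1 4 (Poly (vt .t4)) (PolyU (vt .t4)) (frS (-1) (Poly pA)) r0 :=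
  loc1_of (C := fun z => 8 * z ^ 4 - 8 * z ^ 2 + 1)
    (U := fun z => 8 * z ^ 3 - 4 * z) cs4 (by decide) PA
    (fun _ _ hz hk => fr4ae hz (memA hk))
    (fun _ _ _ hz hk hR hi _ _ h2 => hiE4A hR hi hz (memA hk) h2)

theorem loc_4se : Loc1 4 (Poly (vt .t4)) (PolyU (vt .t4)) (Poly pS) r0 :=
  loc1_of (C := fun z => 8 * z ^ 4 - 8 * z ^ 2 + 1)
    (U := fun z => 8 * z ^ 3 - 4 * z) cs4 (by decide) PS
    (fun _ _ hz hk => fr4se hz hk)
    (fun _ _ _ hz hk hR hi _ _ h2 => hiE4S hR hi hz hk h2)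

theorem loc_5aa : Loc2 5 (Poly (vt .t5)) (PolyU (vt .t5)) (frS (-1) (Poly pA))
    (frS (-1) (Poly pA)) r0 :=
  loc2_of (C := fun z => 16 * z ^ 5 - 20 * z ^ 3 + 5 * z)
    (U := fun z => 16 * z ^ 4 - 12 * z ^ 2 + 1) cs5 (by decide) PA PA
    (fun _ _ _ hz hk hl => fr5aa hz (memA hk) (memA hl))
    (fun _ _ _ _ hz hk hl hR hi h1 h2 => hiE5A hR hi hz (memA hk) h2)
    (fun _ _ _ _ hz hk hl hR hi h1 h2 => hiE5A hR hi hz (memA hk) h2)

theorem loc_5as : Loc2 5 (Poly (vt .t5)) (PolyU (vt .t5)) (frS (-1) (Poly pA))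
    (Poly pS) r0 :=
  loc2_of (C := fun z => 16 * z ^ 5 - 20 * z ^ 3 + 5 * z)
    (U := fun z => 16 * z ^ 4 - 12 * z ^ 2 + 1) cs5 (by decide) PA PS
    (fun _ _ _ hz hk hl => fr5as hz (memA hk) hl)
    (fun _ _ _ _ hz hk hl hR hi h1 h2 => hiE5A hR hi hz (memA hk) h2)
    (fun _ _ _ _ hz hk hl hR hi h1 h2 => hiE5S hR hi hz hk h2)

theorem loc_5ss : Loc2 5 (Poly (vt .t5)) (PolyU (vt .t5)) (Poly pS)
    (Poly pS) r0 :=
  loc2_of (C := fun z => 16 * z ^ 5 - 20 * z ^ 3 + 5 * z)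
    (U := fun z => 16 * z ^ 4 - 12 * z ^ 2 + 1) cs5 (by decide) PS PS
    (fun _ _ _ hz hk hl => fr5ss hz hk hl)
    (fun _ _ _ _ hz hk hl hR hi h1 h2 => hiE5S hR hi hz hk h2)
    (fun _ _ _ _ hz hk hl hR hi h1 h2 => hiE5S hR hi hz hk h2)

theorem loc_5ae : Loc1 5 (Poly (vt .t5)) (PolyU (vt .t5)) (frS (-1) (Poly pA)) r0 :=
  loc1_of (C := fun z => 16 * z ^ 5 - 20 * z ^ 3 + 5 * z)
    (U := fun z => 16 * z ^ 4 - 12 * z ^ 2 + 1) cs5 (by decide) PA
    (fun _ _ hz hk => fr5ae hz (memA hk))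
    (fun _ _ _ hz hk hR hi _ _ h2 => hiE5A hR hi hz (memA hk) h2)

theorem loc_5se : Loc1 5 (Poly (vt .t5)) (PolyU (vt .t5)) (Poly pS) r0 :=
  loc1_of (C := fun z => 16 * z ^ 5 - 20 * z ^ 3 + 5 * z)
    (U := fun z => 16 * z ^ 4 - 12 * z ^ 2 + 1) cs5 (by decide) PS
    (fun _ _ hz hk => fr5se hz hk)
    (fun _ _ _ hz hk hR hi _ _ h2 => hiE5S hR hi hz hk h2)

theorem loc_6aa : Loc2 6 (Poly (vt .t6)) (PolyU (vt .t6)) (frS (-1) (Poly pA))
    (frS (-1) (Poly pA)) r0 :=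
  loc2_of (C := fun z => 32 * z ^ 6 - 48 * z ^ 4 + 18 * z ^ 2 - 1)
    (U := fun z => 32 * z ^ 5 - 32 * z ^ 3 + 6 * z) cs6 (by decide) PA PA
    (fun _ _ _ hz hk hl => fr6aa hz (memA hk) (memA hl))
    (fun _ _ _ _ hz hk hl hR hi h1 h2 => hiE6A hR hi hz (memA hk) h2)
    (fun _ _ _ _ hz hk hl hR hi h1 h2 => hiE6A hR hi hz (memA hk) h2)

theorem loc_6as : Loc2 6 (Poly (vt .t6)) (PolyU (vt .t6)) (frS (-1) (Poly pA))
    (Poly pS) r0 :=
  loc2_of (C := fun z => 32 * z ^ 6 - 48 * z ^ 4 + 18 * z ^ 2 - 1)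
    (U := fun z => 32 * z ^ 5 - 32 * z ^ 3 + 6 * z) cs6 (by decide) PA PS
    (fun _ _ _ hz hk hl => fr6as hz (memA hk) hl)
    (fun _ _ _ _ hz hk hl hR hi h1 h2 => hiE6A hR hi hz (memA hk) h2)
    (fun _ _ _ _ hz hk hl hR hi h1 h2 => hiE6S hR hi hz hk h2)

theorem loc_6ss : Loc2 6 (Poly (vt .t6)) (PolyU (vt .t6)) (Poly pS)
    (Poly pS) r0 :=
  loc2_of (C := fun z => 32 * z ^ 6 - 48 * z ^ 4 + 18 * z ^ 2 - 1)
    (U := fun z => 32 * z ^ 5 - 32 * z ^ 3 + 6 * z) cs6 (by decide) PS PS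
    (fun _ _ _ hz hk hl => fr6ss hz hk hl)
    (fun _ _ _ _ hz hk hl hR hi h1 h2 => hiE6S hR hi hz hk h2)
    (fun _ _ _ _ hz hk hl hR hi h1 h2 => hiE6S hR hi hz hk h2)

theorem loc_6ae : Loc1 6 (Poly (vt .t6)) (PolyU (vt .t6)) (frS (-1) (Poly pA)) r0 :=
  loc1_of (C := fun z => 32 * z ^ 6 - 48 * z ^ 4 + 18 * z ^ 2 - 1)
    (U := fun z => 32 * z ^ 5 - 32 * z ^ 3 + 6 * z) cs6 (by decide) PA
    (fun _ _ hz hk => fr6ae hz (memA hk))
    (fun _ _ _ hz hk hR hi _ _ h2 => hiE6A hR hi hz (memA hk) h2)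

theorem loc_6se : Loc1 6 (Poly (vt .t6)) (PolyU (vt .t6)) (Poly pS) r0 :=
  loc1_of (C := fun z => 32 * z ^ 6 - 48 * z ^ 4 + 18 * z ^ 2 - 1)
    (U := fun z => 32 * z ^ 5 - 32 * z ^ 3 + 6 * z) cs6 (by decide) PS
    (fun _ _ hz hk => fr6se hz hk)
    (fun _ _ _ hz hk hR hi _ _ h2 => hiE6S hR hi hz hk h2)

theorem loc_7aa : Loc2 7 (Poly (vt .t7)) (PolyU (vt .t7)) (frS (-1) (Poly pA))
    (frS (-1) (Poly pA)) r0 :=
  loc2_of (C := fun z => 64 * z ^ 7 - 112 * z ^ 5 + 56 * z ^ 3 - 7 * z)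
    (U := fun z => 64 * z ^ 6 - 80 * z ^ 4 + 24 * z ^ 2 - 1) cs7 (by decide) PA PA
    (fun _ _ _ hz hk hl => fr7aa hz (memA hk) (memA hl))
    (fun _ _ _ _ hz hk hl hR hi h1 h2 => hiE7A hR hi hz (memA hk) h2)
    (fun _ _ _ _ hz hk hl hR hi h1 h2 => hiE7A hR hi hz (memA hk) h2)

theorem loc_7as : Loc2 7 (Poly (vt .t7)) (PolyU (vt .t7)) (frS (-1) (Poly pA))
    (Poly pS) r0 :=
  loc2_of (C := fun z => 64 * z ^ 7 - 112 * z ^ 5 + 56 * z ^ 3 - 7 * z)
    (U := fun z => 64 * z ^ 6 - 80 * z ^ 4 + 24 * z ^ 2 - 1) cs7 (by decide) PA PS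
    (fun _ _ _ hz hk hl => fr7as hz (memA hk) hl)
    (fun _ _ _ _ hz hk hl hR hi h1 h2 => hiE7A hR hi hz (memA hk) h2)
    (fun _ _ _ _ hz hk hl hR hi h1 h2 => hiE7S hR hi hz hk h2)

theorem loc_7ss : Loc2 7 (Poly (vt .t7)) (PolyU (vt .t7)) (Poly pS)
    (Poly pS) r0 :=
  loc2_of (C := fun z => 64 * z ^ 7 - 112 * z ^ 5 + 56 * z ^ 3 - 7 * z)
    (U := fun z => 64 * z ^ 6 - 80 * z ^ 4 + 24 * z ^ 2 - 1) cs7 (by decide) PS PS
    (fun _ _ _ hz hk hl => fr7ss hz hk hl)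
    (fun _ _ _ _ hz hk hl hR hi h1 h2 => hiE7S hR hi hz hk h2)
    (fun _ _ _ _ hz hk hl hR hi h1 h2 => hiE7S hR hi hz hk h2)

theorem loc_7ae : Loc1 7 (Poly (vt .t7)) (PolyU (vt .t7)) (frS (-1) (Poly pA)) r0 :=
  loc1_of (C := fun z => 64 * z ^ 7 - 112 * z ^ 5 + 56 * z ^ 3 - 7 * z)
    (U := fun z => 64 * z ^ 6 - 80 * z ^ 4 + 24 * z ^ 2 - 1) cs7 (by decide) PA
    (fun _ _ hz hk => fr7ae hz (memA hk))
    (fun _ _ _ hz hk hR hi _ _ h2 => hiE7A hR hi hz (memA hk) h2)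

theorem loc_7se : Loc1 7 (Poly (vt .t7)) (PolyU (vt .t7)) (Poly pS) r0 :=
  loc1_of (C := fun z => 64 * z ^ 7 - 112 * z ^ 5 + 56 * z ^ 3 - 7 * z)
    (U := fun z => 64 * z ^ 6 - 80 * z ^ 4 + 24 * z ^ 2 - 1) cs7 (by decide) PS
    (fun _ _ hz hk => fr7se hz hk)
    (fun _ _ _ hz hk hR hi _ _ h2 => hiE7S hR hi hz hk h2)

lemma rtype_eight {B : ℕ} (h : 8 ≤ B) (na ns : ℕ) : rtype B na ns = .t8 := by
  unfold rtype
  rw [if_neg (by omega), if_neg (by omega), if_neg (by omega), if_neg (by omega), if_neg (by omega),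
    if_neg (by omega)]

theorem loc_end_a {B : ℕ} (hB : 2 ≤ B) : Loc1 B (Poly (vt (rtype B 1 0)))
    (PolyU (vt (rtype B 1 0))) (frS (-1) (Poly pA)) r0 := by
  rcases Nat.lt_or_ge B 8 with h | h
  · interval_cases B
    · exact_mod_cast loc_2e
    · exact_mod_cast loc_3ae
    · exact_mod_cast loc_4ae
    · exact_mod_cast loc_5ae
    · exact_mod_cast loc_6ae
    · exact_mod_cast loc_7ae
  · rw [rtype_eight h]
    have hb : (8 : ℝ) ≤ B := by exact_mod_cast h
    exact loc1_8 hb PA (fun _ _ _ hz hk hR hi => hiE8A hR hi hz (memA hk))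

theorem loc_end_s {B : ℕ} (hB : 3 ≤ B) : Loc1 B (Poly (vt (rtype B 0 1)))
    (PolyU (vt (rtype B 0 1))) (Poly pS) r0 := by
  rcases Nat.lt_or_ge B 8 with h | h
  · interval_cases B
    · exact_mod_cast loc_3se
    · exact_mod_cast loc_4se
    · exact_mod_cast loc_5se
    · exact_mod_cast loc_6se
    · exact_mod_cast loc_7se
  · rw [rtype_eight h]
    have hb : (8 : ℝ) ≤ B := by exact_mod_cast h
    exact loc1_8 hb PS (fun _ _ _ hz hk hR hi => hiE8S hR hi hz hk)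

theorem loc_aa {B : ℕ} (hB : 2 ≤ B) : Loc2 B (Poly (vt (rtype B 2 0)))
    (PolyU (vt (rtype B 2 0))) (frS (-1) (Poly pA)) (frS (-1) (Poly pA)) r0 := by
  rcases Nat.lt_or_ge B 8 with h | h
  · interval_cases B
    · exact_mod_cast loc_2aa
    · exact_mod_cast loc_3aa
    · exact_mod_cast loc_4aa
    · exact_mod_cast loc_5aa
    · exact_mod_cast loc_6aa
    · exact_mod_cast loc_7aa
  · rw [rtype_eight h]
    have hb : (8 : ℝ) ≤ B := by exact_mod_cast h
    exact loc2_8 hb PA PA (fun _ _ _ hz hk hR hi => hiE8A hR hi hz (memA hk))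
      (fun _ _ _ hz hk hR hi => hiE8A hR hi hz (memA hk))

theorem loc_as2 : Loc2 2 (Poly (vt (rtype 2 1 1))) (PolyU (vt (rtype 2 1 1)))
    (frS (-1) (Poly pA)) (Poly pT) r0 := loc_2as

theorem loc_as3 {B : ℕ} (hB : 3 ≤ B) : Loc2 B (Poly (vt (rtype B 1 1)))
    (PolyU (vt (rtype B 1 1))) (frS (-1) (Poly pA)) (Poly pS) r0 := by
  rcases Nat.lt_or_ge B 8 with h | h
  · interval_cases B
    · exact_mod_cast loc_3as
    · exact_mod_cast loc_4as
    · exact_mod_cast loc_5as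
    · exact_mod_cast loc_6as
    · exact_mod_cast loc_7as
  · rw [rtype_eight h]
    have hb : (8 : ℝ) ≤ B := by exact_mod_cast h
    exact loc2_8 hb PA PS (fun _ _ _ hz hk hR hi => hiE8A hR hi hz (memA hk))
      (fun _ _ _ hz hk hR hi => hiE8S hR hi hz hk)

theorem loc_ss {B : ℕ} (hB : 3 ≤ B) : Loc2 B (Poly (vt (rtype B 0 2)))
    (PolyU (vt (rtype B 0 2))) (Poly pS) (Poly pS) r0 := by
  rcases Nat.lt_or_ge B 8 with h | h
  · interval_cases B
    · exact_mod_cast loc_3ss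
    · exact_mod_cast loc_4ss
    · exact_mod_cast loc_5ss
    · exact_mod_cast loc_6ss
    · exact_mod_cast loc_7ss
  · rw [rtype_eight h]
    have hb : (8 : ℝ) ≤ B := by exact_mod_cast h
    exact loc2_8 hb PS PS (fun _ _ _ hz hk hR hi => hiE8S hR hi hz hk)
      (fun _ _ _ hz hk hR hi => hiE8S hR hi hz hk)

end Pool.Agent.Work.MP_b30479_gtS.G2.SL

end

section

/-!
# The facts about single rings, from the location part
-/

namespace Pool.Agent.Work.MP_b30479_gtS.G2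

open Complex Set KB

/-- the location part of `Ring1` -/
def Loc1 (b : ℝ) (K U P : Set ℂ) (r : ℝ) : Prop :=
  ∀ k ∈ P, ∀ w : ℂ, 0 ≤ w.re → w.re ≤ 3 / 2 → |w.im| ≤ 2 → Complex.cos w ∈ K → r ≤ (RR w k).re →
    b * w - Real.pi + I * QQ w k = 0 →
    0 < w.re ∧ w.re < 3 / 2 ∧ |w.im| < 2 ∧ Complex.cos w ∈ U ∧ r < (RR w k).re

/-- the location part of `Ring2` -/
def Loc2 (b : ℝ) (K U P P' : Set ℂ) (r : ℝ) : Prop :=
  ∀ k ∈ P, ∀ k' ∈ P', ∀ w : ℂ, 0 ≤ w.re → w.re ≤ 3 / 2 → |w.im| ≤ 2 → Complex.cos w ∈ K →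
    r ≤ (RR w k).re → r ≤ (RR w k').re →
    b * w - Real.pi + I * (QQ w k + QQ w k') = 0 →
    0 < w.re ∧ w.re < 3 / 2 ∧ |w.im| < 2 ∧ Complex.cos w ∈ U ∧ r < (RR w k).re ∧
      r < (RR w k').re

/-- the location facts -/
structure LocFacts : Prop where
  end_a : ∀ B : ℕ, 2 ≤ B → Loc1 B (Poly (vt (rtype B 1 0))) (PolyU (vt (rtype B 1 0)))
    (frS (-1) (Poly pA)) r0
  end_s : ∀ B : ℕ, 3 ≤ B → Loc1 B (Poly (vt (rtype B 0 1))) (PolyU (vt (rtype B 0 1)))
    (Poly pS) r0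
  aa : ∀ B : ℕ, 2 ≤ B → Loc2 B (Poly (vt (rtype B 2 0))) (PolyU (vt (rtype B 2 0)))
    (frS (-1) (Poly pA)) (frS (-1) (Poly pA)) r0
  as2 : Loc2 2 (Poly (vt (rtype 2 1 1))) (PolyU (vt (rtype 2 1 1)))
    (frS (-1) (Poly pA)) (Poly pT) r0
  as3 : ∀ B : ℕ, 3 ≤ B → Loc2 B (Poly (vt (rtype B 1 1))) (PolyU (vt (rtype B 1 1)))
    (frS (-1) (Poly pA)) (Poly pS) r0
  ss : ∀ B : ℕ, 3 ≤ B → Loc2 B (Poly (vt (rtype B 0 2))) (PolyU (vt (rtype B 0 2)))
    (Poly pS) (Poly pS) r0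

lemma Loc1.ring {b : ℝ} {K U P : Set ℂ} {r : ℝ} (hr : 0 < r) (h : Loc1 b K U P r)
    (hk : ∀ k ∈ P, ∀ w : ℂ, Complex.cos w ∈ K → 0 < (RR w k).re →
      b * w - Real.pi + I * QQ w k = 0 → Kap1 b w k) : Ring1 b K U P r := by
  intro k hk0 w h0 h1 h2 h3 h4 h5
  obtain ⟨c1, c2, c3, c4, c5⟩ := h k hk0 w h0 h1 h2 h3 h4 h5
  exact ⟨c1, c2, c3, c4, c5, hk k hk0 w h3 (hr.trans_le h4) h5⟩

lemma Loc2.ring {b : ℝ} {K U P P' : Set ℂ} {r : ℝ} (hr : 0 < r) (h : Loc2 b K U P P' r)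
    (hk : ∀ k ∈ P, ∀ k' ∈ P', ∀ w : ℂ, Complex.cos w ∈ K → 0 < (RR w k).re → 0 < (RR w k').re →
      b * w - Real.pi + I * (QQ w k + QQ w k') = 0 → Kap2 b w k k') : Ring2 b K U P P' r := by
  intro k hk0 k' hk0' w h0 h1 h2 h3 h4 h5 h6
  obtain ⟨c1, c2, c3, c4, c5, c6⟩ := h k hk0 k' hk0' w h0 h1 h2 h3 h4 h5 h6
  exact ⟨c1, c2, c3, c4, c5, c6, hk k hk0 k' hk0' w h3 (hr.trans_le h4) (hr.trans_le h5) h6⟩

lemma r0_pos : 0 < r0 := by unfold r0; norm_num

/-- all facts about single rings from the location part and the start values -/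
theorem ringFacts_of (h : LocFacts)
    (start1 : ∀ B na ns : ℕ, 2 ≤ B → na + ns = 1 → (B = 2 → ns = 0) →
      ∃ w : ℂ, 0 ≤ w.re ∧ w.re ≤ 3 / 2 ∧ |w.im| ≤ 2 ∧ Complex.cos w ∈ Poly (vt (rtype B na ns)) ∧
        r0 ≤ (RR w 1).re ∧ ((B : ℝ) : ℂ) * w - Real.pi + I * QQ w 1 = 0)
    (start2 : ∀ B na ns : ℕ, 2 ≤ B → na + ns = 2 → (B = 2 → ns ≤ 1) →
      ∃ w : ℂ, 0 ≤ w.re ∧ w.re ≤ 3 / 2 ∧ |w.im| ≤ 2 ∧ Complex.cos w ∈ Poly (vt (rtype B na ns)) ∧
        r0 ≤ (RR w 1).re ∧ ((B : ℝ) : ℂ) * w - Real.pi + I * (2 * QQ w 1) = 0) : RingFacts where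
  closed t := poly_closed _
  re_pos := poly_re_pos
  isOpen t := polyU_open _
  sub t := polyU_sub _
  starA := KB.starA
  starS := KB.starS
  starT := KB.starT
  end_a B hB := by
    refine (h.end_a B hB).ring r0_pos fun k hk w hw hR he => ?_
    rcases Nat.lt_or_ge B 3 with h3 | h3
    · have h2 : B = 2 := by omega
      subst h2
      exact_mod_cast kap_end_a2 hw hk hR (by exact_mod_cast he)
    · exact kap_end_a h3 hw hk hR
  end_s B hB := (h.end_s B hB).ring r0_pos fun k hk w hw hR _ => kap_end_s hB hw hk hR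
  aa B hB := by
    refine (h.aa B hB).ring r0_pos fun k hk k' hk' w hw hR hR' he => ?_
    rcases Nat.lt_or_ge B 3 with h3 | h3
    · have h2 : B = 2 := by omega
      subst h2
      exact_mod_cast kap_aa2 hw hk hk' hR hR' (by exact_mod_cast he)
    · exact kap_int_aa h3 hw hk hk' hR hR'
  as2 := by
    refine h.as2.ring r0_pos fun k hk k' hk' w hw hR hR' he => ?_
    exact kap_as2 hw hk hk' hR hR' he
  as3 B hB := (h.as3 B hB).ring r0_pos fun k hk k' hk' w hw hR hR' he =>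
    kap_int_as hB hw hk hk' hR hR' he
  ss B hB := (h.ss B hB).ring r0_pos fun k hk k' hk' w hw hR hR' _ =>
    kap_int_ss hB hw hk hk' hR hR'
  start1 := start1
  start2 := start2

/-- all facts about single rings from the location part -/
theorem ringFacts_of_loc (h : LocFacts) : RingFacts := ringFacts_of h start_one start_two

end Pool.Agent.Work.MP_b30479_gtS.G2

end

section

/-!
# All facts about single rings
-/

namespace Pool.Agent.Work.MP_b30479_gtS.G2

/-- the location part -/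
theorem locFacts : LocFacts where
  end_a _ hB := SL.loc_end_a hB
  end_s _ hB := SL.loc_end_s hB
  aa _ hB := SL.loc_aa hB
  as2 := by exact_mod_cast SL.loc_as2
  as3 _ hB := SL.loc_as3 hB
  ss _ hB := SL.loc_ss hB

/-- all facts about single rings -/
theorem ringFacts : RingFacts := ringFacts_of_loc locFacts

end Pool.Agent.Work.MP_b30479_gtS.G2

end

section

/-!
# Refined location of the rings with `2, …, 7` crossings: all statements of the three rounds
-/

set_option linter.style.longLine false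

namespace Pool.Agent.Work.MP_b30479_gtS.G2

open Complex Set SC
open scoped ComplexConjugate

/-- the second center -/
noncomputable def kst : ℂ := ⟨3 / 4, 2 / 5⟩

lemma kst_eq : 20 * kst = 15 + 8 * I := by
  apply Complex.ext
  · simp only [kst, Complex.mul_re, Complex.re_ofNat, Complex.im_ofNat, Complex.add_re, Complex.I_re,
      Complex.I_im]
    norm_num
  · simp only [kst, Complex.mul_im, Complex.re_ofNat, Complex.im_ofNat, Complex.add_im, Complex.I_re,
      Complex.I_im]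
    norm_num

lemma one_in {V : List (ℤ × ℤ)} (h : ptIn (1000, 0) V = true) : (1 : ℂ) ∈ Poly V :=
  pt_mem h (by norm_num) (by norm_num)

lemma kst_in {V : List (ℤ × ℤ)} (h : ptIn (750, 400) V = true) : kst ∈ Poly V :=
  pt_mem h (by norm_num [kst]) (by norm_num [kst])

lemma one_inF {V : List (ℤ × ℤ)} (h : ptIn (1000, 0) V = true) : (1 : ℂ) ∈ frS (-1) (Poly V) := by
  rw [frS_neg]
  show conj (1 : ℂ) ∈ Poly V
  rw [map_one]
  exact one_in h

lemma memF {K : Set ℂ} {k : ℂ} (h : k ∈ frS (-1) K) : conj k ∈ K := by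
  rw [frS_neg] at h
  exact h

lemma rePS {V : List (ℤ × ℤ)} (h : inOK V pS = true) : ∀ k ∈ Poly V, 0 < k.re := fun k hk =>
  lt_of_lt_of_le (by norm_num) (SL.PS k (poly_in h hk)).re

lemma rePF {V : List (ℤ × ℤ)} (h : inOK V pA = true) : ∀ k ∈ frS (-1) (Poly V), 0 < k.re :=
  fun k hk => lt_of_lt_of_le (by norm_num) (SL.PA k (frS_mono (poly_in h) hk)).re

/-- algebra of the centers -/
lemma c_ok {x : ℂ} (h : kst + x = 0) : 15 + 8 * I + 20 * x = 0 := by
  linear_combination 20 * h - kst_eq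

lemma c_p1k {C X : ℂ} (h : (1 : ℂ) ^ 2 + kst ^ 2 - 2 * 1 * kst * C + X = 0) :
    561 + 240 * I - (600 + 320 * I) * C + 400 * X = 0 := by
  have e := kst_eq
  linear_combination 400 * h - (20 * kst + 15 + 8 * I - 40 * C) * e - 64 * I_sq

lemma c_pkk {C z : ℂ} (h : z ^ 2 * (1 + C) + 2 * kst ^ 2 * (1 - z ^ 2) = 0) :
    200 * (z ^ 2 * (1 + C)) + (161 + 240 * I) * (1 - z ^ 2) = 0 := by
  have e := kst_eq
  linear_combination 200 * h - (1 - z ^ 2) * (20 * kst + 15 + 8 * I) * e - 64 * (1 - z ^ 2) * I_sq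

lemma c_p11 {C z : ℂ} (h : z ^ 2 * (1 + C) + 2 * (1 : ℂ) ^ 2 * (1 - z ^ 2) = 0) :
    z ^ 2 * (1 + C) + 2 * (1 - z ^ 2) = 0 := by
  rw [one_pow, mul_one] at h
  exact h

lemma cB2 (w : ℂ) : Complex.cos (((2 : ℕ) : ℝ) * w) = (fun z : ℂ => 2 * z ^ 2 - 1) (Complex.cos w) ∧
    Complex.sin (((2 : ℕ) : ℝ) * w) = Complex.sin w * (fun z : ℂ => 2 * z) (Complex.cos w) := by
  exact_mod_cast SL.cs2 w

lemma cB3 (w : ℂ) : Complex.cos (((3 : ℕ) : ℝ) * w) = (fun z : ℂ => 4 * z ^ 3 - 3 * z) (Complex.cos w) ∧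
    Complex.sin (((3 : ℕ) : ℝ) * w) = Complex.sin w * (fun z : ℂ => 4 * z ^ 2 - 1) (Complex.cos w) := by
  exact_mod_cast SL.cs3 w

lemma cB4 (w : ℂ) : Complex.cos (((4 : ℕ) : ℝ) * w) = (fun z : ℂ => 8 * z ^ 4 - 8 * z ^ 2 + 1) (Complex.cos w) ∧
    Complex.sin (((4 : ℕ) : ℝ) * w) = Complex.sin w * (fun z : ℂ => 8 * z ^ 3 - 4 * z) (Complex.cos w) := by
  exact_mod_cast SL.cs4 w

lemma cB5 (w : ℂ) : Complex.cos (((5 : ℕ) : ℝ) * w) = (fun z : ℂ => 16 * z ^ 5 - 20 * z ^ 3 + 5 * z) (Complex.cos w) ∧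
    Complex.sin (((5 : ℕ) : ℝ) * w) = Complex.sin w * (fun z : ℂ => 16 * z ^ 4 - 12 * z ^ 2 + 1) (Complex.cos w) := by
  exact_mod_cast SL.cs5 w

lemma cB6 (w : ℂ) : Complex.cos (((6 : ℕ) : ℝ) * w) = (fun z : ℂ => 32 * z ^ 6 - 48 * z ^ 4 + 18 * z ^ 2 - 1) (Complex.cos w) ∧
    Complex.sin (((6 : ℕ) : ℝ) * w) = Complex.sin w * (fun z : ℂ => 32 * z ^ 5 - 32 * z ^ 3 + 6 * z) (Complex.cos w) := by
  exact_mod_cast SL.cs6 w

lemma cB7 (w : ℂ) : Complex.cos (((7 : ℕ) : ℝ) * w) = (fun z : ℂ => 64 * z ^ 7 - 112 * z ^ 5 + 56 * z ^ 3 - 7 * z) (Complex.cos w) ∧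
    Complex.sin (((7 : ℕ) : ℝ) * w) = Complex.sin w * (fun z : ℂ => 64 * z ^ 6 - 80 * z ^ 4 + 24 * z ^ 2 - 1) (Complex.cos w) := by
  exact_mod_cast SL.cs7 w

/-! ### round 1 -/

theorem rf1_2ea : Rf1 ((2 : ℕ) : ℝ) .t2e (frS (-1) (Poly p1_A2)) v1_2ea :=
  rf1_of (C := fun z => 2 * z ^ 2 - 1) (U := fun z => 2 * z) cB2
    (ringFacts.end_a 2 (by norm_num)) (frS_mono (poly_in (by decide))) (one_inF (by decide)) (starC_frS (starC_poly (one_in (by decide)))) (rePF (by decide)) (by decide)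
    (fun _ _ hz hk => fr1_2ea hz (memF hk))
    (fun _ hz h => box_polyU (x1 := 7999) (x2 := 8002) (y1 := 7999) (y2 := 8002)
      (by decide) (by exact_mod_cast stH2eo1 hz h))

theorem rf1_2aa : Rf2 ((2 : ℕ) : ℝ) .t2aa (frS (-1) (Poly p1_A2))
    (frS (-1) (Poly p1_A2)) v1_2aa :=
  rf2_of (C := fun z => 2 * z ^ 2 - 1) (U := fun z => 2 * z) cB2
    (ringFacts.aa 2 (by norm_num)) (frS_mono (poly_in (by decide))) (frS_mono (poly_in (by decide))) (one_inF (by decide)) (one_inF (by decide))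
    (starC_frS (starC_poly (one_in (by decide)))) (starC_frS (starC_poly (one_in (by decide)))) (rePF (by decide)) (rePF (by decide)) (by decide)
    (fun _ _ _ hz hk hl => fr1_2aa hz (memF hk) (memF hl))
    (fun _ hz h h2 => box_polyU (x1 := 13855) (x2 := 13858) (y1 := 7999) (y2 := 8002)
      (by decide) (by exact_mod_cast stH2aap11 hz (c_p11 (h2 rfl))))

theorem rf1_2as : Rf2 ((2 : ℕ) : ℝ) .t2as (frS (-1) (Poly p1_A1))
    (Poly p1_ST) v1_2as :=
  rf2_of (C := fun z => 2 * z ^ 2 - 1) (U := fun z => 2 * z) cB2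
    (by exact_mod_cast ringFacts.as2) (frS_mono (poly_in (by decide))) (poly_in (by decide)) (one_inF (by decide)) (one_in (by decide))
    (starC_frS (starC_poly (one_in (by decide)))) (starC_poly (one_in (by decide))) (rePF (by decide)) (rePS (by decide)) (by decide)
    (fun _ _ _ hz hk hl => fr1_2as hz (memF hk) hl)
    (fun _ hz h h2 => box_polyU (x1 := 13855) (x2 := 13858) (y1 := 7999) (y2 := 8002)
      (by decide) (by exact_mod_cast stH2asp11 hz (c_p11 (h2 rfl))))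

theorem rf1_3ea : Rf1 ((3 : ℕ) : ℝ) .t3ae (frS (-1) (Poly p1_A2)) v1_3ea :=
  rf1_of (C := fun z => 4 * z ^ 3 - 3 * z) (U := fun z => 4 * z ^ 2 - 1) cB3
    (ringFacts.end_a 3 (by norm_num)) (frS_mono (poly_in (by decide))) (one_inF (by decide)) (starC_frS (starC_poly (one_in (by decide)))) (rePF (by decide)) (by decide)
    (fun _ _ hz hk => fr1_3ea hz (memF hk))
    (fun _ hz h => box_polyU (x1 := 10582) (x2 := 10585) (y1 := 3999) (y2 := 4002)
      (by decide) (by exact_mod_cast stH3aeo1 hz h))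

theorem rf1_3es : Rf1 ((3 : ℕ) : ℝ) .t3se (Poly p1_S2) v1_3es :=
  rf1_of (C := fun z => 4 * z ^ 3 - 3 * z) (U := fun z => 4 * z ^ 2 - 1) cB3
    (ringFacts.end_s 3 (by norm_num)) (poly_in (by decide)) (one_in (by decide)) (starC_poly (one_in (by decide))) (rePS (by decide)) (by decide)
    (fun _ _ hz hk => fr1_3es hz hk)
    (fun _ hz h => box_polyU (x1 := 10582) (x2 := 10585) (y1 := 3999) (y2 := 4002)
      (by decide) (by exact_mod_cast stH3seo1 hz h))

theorem rf1_3aa : Rf2 ((3 : ℕ) : ℝ) .t3aa (frS (-1) (Poly p1_A2))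
    (frS (-1) (Poly p1_A2)) v1_3aa :=
  rf2_of (C := fun z => 4 * z ^ 3 - 3 * z) (U := fun z => 4 * z ^ 2 - 1) cB3
    (ringFacts.aa 3 (by norm_num)) (frS_mono (poly_in (by decide))) (frS_mono (poly_in (by decide))) (one_inF (by decide)) (one_inF (by decide))
    (starC_frS (starC_poly (one_in (by decide)))) (starC_frS (starC_poly (one_in (by decide)))) (rePF (by decide)) (rePF (by decide)) (by decide)
    (fun _ _ _ hz hk hl => fr1_3aa hz (memF hk) (memF hl))
    (fun _ hz h h2 => box_polyU (x1 := 13550) (x2 := 13553) (y1 := 4648) (y2 := 4651)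
      (by decide) (by exact_mod_cast stH3aap11 hz (c_p11 (h2 rfl))))

theorem rf1_3as : Rf2 ((3 : ℕ) : ℝ) .t3as (frS (-1) (Poly p1_A2))
    (Poly p1_S2) v1_3as :=
  rf2_of (C := fun z => 4 * z ^ 3 - 3 * z) (U := fun z => 4 * z ^ 2 - 1) cB3
    (ringFacts.as3 3 (by norm_num)) (frS_mono (poly_in (by decide))) (poly_in (by decide)) (one_inF (by decide)) (one_in (by decide))
    (starC_frS (starC_poly (one_in (by decide)))) (starC_poly (one_in (by decide))) (rePF (by decide)) (rePS (by decide)) (by decide)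
    (fun _ _ _ hz hk hl => fr1_3as hz (memF hk) hl)
    (fun _ hz h h2 => box_polyU (x1 := 13550) (x2 := 13553) (y1 := 4648) (y2 := 4651)
      (by decide) (by exact_mod_cast stH3asp11 hz (c_p11 (h2 rfl))))

theorem rf1_3ss : Rf2 ((3 : ℕ) : ℝ) .t3ss (Poly p1_S2)
    (Poly p1_S2) v1_3ss :=
  rf2_of (C := fun z => 4 * z ^ 3 - 3 * z) (U := fun z => 4 * z ^ 2 - 1) cB3
    (ringFacts.ss 3 (by norm_num)) (poly_in (by decide)) (poly_in (by decide)) (one_in (by decide)) (one_in (by decide))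
    (starC_poly (one_in (by decide))) (starC_poly (one_in (by decide))) (rePS (by decide)) (rePS (by decide)) (by decide)
    (fun _ _ _ hz hk hl => fr1_3ss hz hk hl)
    (fun _ hz h h2 => box_polyU (x1 := 13550) (x2 := 13553) (y1 := 4648) (y2 := 4651)
      (by decide) (by exact_mod_cast stH3ssp11 hz (c_p11 (h2 rfl))))

theorem rf1_4ea : Rf1 ((4 : ℕ) : ℝ) .t4 (frS (-1) (Poly p1_A2)) v1_4ea :=
  rf1_of (C := fun z => 8 * z ^ 4 - 8 * z ^ 2 + 1) (U := fun z => 8 * z ^ 3 - 4 * z) cB4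
    (ringFacts.end_a 4 (by norm_num)) (frS_mono (poly_in (by decide))) (one_inF (by decide)) (starC_frS (starC_poly (one_in (by decide)))) (rePF (by decide)) (by decide)
    (fun _ _ hz hk => fr1_4ea hz (memF hk))
    (fun _ hz h => box_polyU (x1 := 12231) (x2 := 12234) (y1 := 2055) (y2 := 2058)
      (by decide) (by exact_mod_cast stH4o1 hz h))

theorem rf1_4ez : Rf1 ((4 : ℕ) : ℝ) .t4 (Poly p1_Z) v1_4ez :=
  rf1_of (C := fun z => 8 * z ^ 4 - 8 * z ^ 2 + 1) (U := fun z => 8 * z ^ 3 - 4 * z) cB4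
    (ringFacts.end_s 4 (by norm_num)) (poly_in (by decide)) (one_in (by decide)) (starC_poly (one_in (by decide))) (rePS (by decide)) (by decide)
    (fun _ _ hz hk => fr1_4ez hz hk)
    (fun _ hz h => box_polyU (x1 := 12231) (x2 := 12234) (y1 := 2055) (y2 := 2058)
      (by decide) (by exact_mod_cast stH4o1 hz h))

theorem rf1_4es : Rf1 ((4 : ℕ) : ℝ) .t4 (Poly p1_S3) v1_4es :=
  rf1_of (C := fun z => 8 * z ^ 4 - 8 * z ^ 2 + 1) (U := fun z => 8 * z ^ 3 - 4 * z) cB4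
    (ringFacts.end_s 4 (by norm_num)) (poly_in (by decide)) (kst_in (by decide)) (starC_poly (kst_in (by decide))) (rePS (by decide)) (by decide)
    (fun _ _ hz hk => fr1_4es hz hk)
    (fun _ hz h => box_polyU (x1 := 11333) (x2 := 11336) (y1 := 2286) (y2 := 2289)
      (by decide) (by exact_mod_cast stH4ok hz (c_ok h)))

theorem rf1_4aa : Rf2 ((4 : ℕ) : ℝ) .t4 (frS (-1) (Poly p1_A2))
    (frS (-1) (Poly p1_A2)) v1_4aa :=
  rf2_of (C := fun z => 8 * z ^ 4 - 8 * z ^ 2 + 1) (U := fun z => 8 * z ^ 3 - 4 * z) cB4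
    (ringFacts.aa 4 (by norm_num)) (frS_mono (poly_in (by decide))) (frS_mono (poly_in (by decide))) (one_inF (by decide)) (one_inF (by decide))
    (starC_frS (starC_poly (one_in (by decide)))) (starC_frS (starC_poly (one_in (by decide)))) (rePF (by decide)) (rePF (by decide)) (by decide)
    (fun _ _ _ hz hk hl => fr1_4aa hz (memF hk) (memF hl))
    (fun _ hz h h2 => box_polyU (x1 := 13770) (x2 := 13773) (y1 := 2816) (y2 := 2819)
      (by decide) (by exact_mod_cast stH4p11 hz (c_p11 (h2 rfl))))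

theorem rf1_4az : Rf2 ((4 : ℕ) : ℝ) .t4 (frS (-1) (Poly p1_A2))
    (Poly p1_Z) v1_4az :=
  rf2_of (C := fun z => 8 * z ^ 4 - 8 * z ^ 2 + 1) (U := fun z => 8 * z ^ 3 - 4 * z) cB4
    (ringFacts.as3 4 (by norm_num)) (frS_mono (poly_in (by decide))) (poly_in (by decide)) (one_inF (by decide)) (one_in (by decide))
    (starC_frS (starC_poly (one_in (by decide)))) (starC_poly (one_in (by decide))) (rePF (by decide)) (rePS (by decide)) (by decide)
    (fun _ _ _ hz hk hl => fr1_4az hz (memF hk) hl)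
    (fun _ hz h h2 => box_polyU (x1 := 13770) (x2 := 13773) (y1 := 2816) (y2 := 2819)
      (by decide) (by exact_mod_cast stH4p11 hz (c_p11 (h2 rfl))))

theorem rf1_4as : Rf2 ((4 : ℕ) : ℝ) .t4 (frS (-1) (Poly p1_A2))
    (Poly p1_S3) v1_4as :=
  rf2_of (C := fun z => 8 * z ^ 4 - 8 * z ^ 2 + 1) (U := fun z => 8 * z ^ 3 - 4 * z) cB4
    (ringFacts.as3 4 (by norm_num)) (frS_mono (poly_in (by decide))) (poly_in (by decide)) (one_inF (by decide)) (kst_in (by decide))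
    (starC_frS (starC_poly (one_in (by decide)))) (starC_poly (kst_in (by decide))) (rePF (by decide)) (rePS (by decide)) (by decide)
    (fun _ _ _ hz hk hl => fr1_4as hz (memF hk) hl)
    (fun _ hz h h2 => box_polyU (x1 := 13280) (x2 := 13283) (y1 := 3307) (y2 := 3310)
      (by decide) (by exact_mod_cast stH4p1k hz (c_p1k h)))

theorem rf1_4zz : Rf2 ((4 : ℕ) : ℝ) .t4 (Poly p1_Z)
    (Poly p1_Z) v1_4zz :=
  rf2_of (C := fun z => 8 * z ^ 4 - 8 * z ^ 2 + 1) (U := fun z => 8 * z ^ 3 - 4 * z) cB4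
    (ringFacts.ss 4 (by norm_num)) (poly_in (by decide)) (poly_in (by decide)) (one_in (by decide)) (one_in (by decide))
    (starC_poly (one_in (by decide))) (starC_poly (one_in (by decide))) (rePS (by decide)) (rePS (by decide)) (by decide)
    (fun _ _ _ hz hk hl => fr1_4zz hz hk hl)
    (fun _ hz h h2 => box_polyU (x1 := 13770) (x2 := 13773) (y1 := 2816) (y2 := 2819)
      (by decide) (by exact_mod_cast stH4p11 hz (c_p11 (h2 rfl))))

theorem rf1_4ss : Rf2 ((4 : ℕ) : ℝ) .t4 (Poly p1_S2)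
    (Poly p1_S2) v1_4ss :=
  rf2_of (C := fun z => 8 * z ^ 4 - 8 * z ^ 2 + 1) (U := fun z => 8 * z ^ 3 - 4 * z) cB4
    (ringFacts.ss 4 (by norm_num)) (poly_in (by decide)) (poly_in (by decide)) (one_in (by decide)) (one_in (by decide))
    (starC_poly (one_in (by decide))) (starC_poly (one_in (by decide))) (rePS (by decide)) (rePS (by decide)) (by decide)
    (fun _ _ _ hz hk hl => fr1_4ss hz hk hl)
    (fun _ hz h h2 => box_polyU (x1 := 13770) (x2 := 13773) (y1 := 2816) (y2 := 2819)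
      (by decide) (by exact_mod_cast stH4p11 hz (c_p11 (h2 rfl))))

theorem rf1_5ea : Rf1 ((5 : ℕ) : ℝ) .t5 (frS (-1) (Poly p1_A2)) v1_5ea :=
  rf1_of (C := fun z => 16 * z ^ 5 - 20 * z ^ 3 + 5 * z) (U := fun z => 16 * z ^ 4 - 12 * z ^ 2 + 1) cB5
    (ringFacts.end_a 5 (by norm_num)) (frS_mono (poly_in (by decide))) (one_inF (by decide)) (starC_frS (starC_poly (one_in (by decide)))) (rePF (by decide)) (by decide)
    (fun _ _ hz hk => fr1_5ea hz (memF hk))
    (fun _ hz h => box_polyU (x1 := 13328) (x2 := 13331) (y1 := 1138) (y2 := 1141)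
      (by decide) (by exact_mod_cast stH5o1 hz h))

theorem rf1_5ez : Rf1 ((5 : ℕ) : ℝ) .t5 (Poly p1_Z) v1_5ez :=
  rf1_of (C := fun z => 16 * z ^ 5 - 20 * z ^ 3 + 5 * z) (U := fun z => 16 * z ^ 4 - 12 * z ^ 2 + 1) cB5
    (ringFacts.end_s 5 (by norm_num)) (poly_in (by decide)) (one_in (by decide)) (starC_poly (one_in (by decide))) (rePS (by decide)) (by decide)
    (fun _ _ hz hk => fr1_5ez hz hk)
    (fun _ hz h => box_polyU (x1 := 13328) (x2 := 13331) (y1 := 1138) (y2 := 1141)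
      (by decide) (by exact_mod_cast stH5o1 hz h))

theorem rf1_5es : Rf1 ((5 : ℕ) : ℝ) .t5 (Poly p1_S3) v1_5es :=
  rf1_of (C := fun z => 16 * z ^ 5 - 20 * z ^ 3 + 5 * z) (U := fun z => 16 * z ^ 4 - 12 * z ^ 2 + 1) cB5
    (ringFacts.end_s 5 (by norm_num)) (poly_in (by decide)) (kst_in (by decide)) (starC_poly (kst_in (by decide))) (rePS (by decide)) (by decide)
    (fun _ _ hz hk => fr1_5es hz hk)
    (fun _ hz h => box_polyU (x1 := 12782) (x2 := 12785) (y1 := 1184) (y2 := 1187)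
      (by decide) (by exact_mod_cast stH5ok hz (c_ok h)))

theorem rf1_5aa : Rf2 ((5 : ℕ) : ℝ) .t5 (frS (-1) (Poly p1_A2))
    (frS (-1) (Poly p1_A2)) v1_5aa :=
  rf2_of (C := fun z => 16 * z ^ 5 - 20 * z ^ 3 + 5 * z) (U := fun z => 16 * z ^ 4 - 12 * z ^ 2 + 1) cB5
    (ringFacts.aa 5 (by norm_num)) (frS_mono (poly_in (by decide))) (frS_mono (poly_in (by decide))) (one_inF (by decide)) (one_inF (by decide))
    (starC_frS (starC_poly (one_in (by decide)))) (starC_frS (starC_poly (one_in (by decide)))) (rePF (by decide)) (rePF (by decide)) (by decide)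
    (fun _ _ _ hz hk hl => fr1_5aa hz (memF hk) (memF hl))
    (fun _ hz h h2 => box_polyU (x1 := 14132) (x2 := 14135) (y1 := 1759) (y2 := 1762)
      (by decide) (by exact_mod_cast stH5p11 hz (c_p11 (h2 rfl))))

theorem rf1_5az : Rf2 ((5 : ℕ) : ℝ) .t5 (frS (-1) (Poly p1_A2))
    (Poly p1_Z) v1_5az :=
  rf2_of (C := fun z => 16 * z ^ 5 - 20 * z ^ 3 + 5 * z) (U := fun z => 16 * z ^ 4 - 12 * z ^ 2 + 1) cB5
    (ringFacts.as3 5 (by norm_num)) (frS_mono (poly_in (by decide))) (poly_in (by decide)) (one_inF (by decide)) (one_in (by decide))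
    (starC_frS (starC_poly (one_in (by decide)))) (starC_poly (one_in (by decide))) (rePF (by decide)) (rePS (by decide)) (by decide)
    (fun _ _ _ hz hk hl => fr1_5az hz (memF hk) hl)
    (fun _ hz h h2 => box_polyU (x1 := 14132) (x2 := 14135) (y1 := 1759) (y2 := 1762)
      (by decide) (by exact_mod_cast stH5p11 hz (c_p11 (h2 rfl))))

theorem rf1_5as : Rf2 ((5 : ℕ) : ℝ) .t5 (frS (-1) (Poly p1_A2))
    (Poly p1_S3) v1_5as :=
  rf2_of (C := fun z => 16 * z ^ 5 - 20 * z ^ 3 + 5 * z) (U := fun z => 16 * z ^ 4 - 12 * z ^ 2 + 1) cB5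
    (ringFacts.as3 5 (by norm_num)) (frS_mono (poly_in (by decide))) (poly_in (by decide)) (one_inF (by decide)) (kst_in (by decide))
    (starC_frS (starC_poly (one_in (by decide)))) (starC_poly (kst_in (by decide))) (rePF (by decide)) (rePS (by decide)) (by decide)
    (fun _ _ _ hz hk hl => fr1_5as hz (memF hk) hl)
    (fun _ hz h h2 => box_polyU (x1 := 13768) (x2 := 13771) (y1 := 2005) (y2 := 2008)
      (by decide) (by exact_mod_cast stH5p1k hz (c_p1k h)))

theorem rf1_5zz : Rf2 ((5 : ℕ) : ℝ) .t5 (Poly p1_Z)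
    (Poly p1_Z) v1_5zz :=
  rf2_of (C := fun z => 16 * z ^ 5 - 20 * z ^ 3 + 5 * z) (U := fun z => 16 * z ^ 4 - 12 * z ^ 2 + 1) cB5
    (ringFacts.ss 5 (by norm_num)) (poly_in (by decide)) (poly_in (by decide)) (one_in (by decide)) (one_in (by decide))
    (starC_poly (one_in (by decide))) (starC_poly (one_in (by decide))) (rePS (by decide)) (rePS (by decide)) (by decide)
    (fun _ _ _ hz hk hl => fr1_5zz hz hk hl)
    (fun _ hz h h2 => box_polyU (x1 := 14132) (x2 := 14135) (y1 := 1759) (y2 := 1762)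
      (by decide) (by exact_mod_cast stH5p11 hz (c_p11 (h2 rfl))))

theorem rf1_5zs : Rf2 ((5 : ℕ) : ℝ) .t5 (Poly p1_Z)
    (Poly p1_S3) v1_5zs :=
  rf2_of (C := fun z => 16 * z ^ 5 - 20 * z ^ 3 + 5 * z) (U := fun z => 16 * z ^ 4 - 12 * z ^ 2 + 1) cB5
    (ringFacts.ss 5 (by norm_num)) (poly_in (by decide)) (poly_in (by decide)) (one_in (by decide)) (kst_in (by decide))
    (starC_poly (one_in (by decide))) (starC_poly (kst_in (by decide))) (rePS (by decide)) (rePS (by decide)) (by decide)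
    (fun _ _ _ hz hk hl => fr1_5zs hz hk hl)
    (fun _ hz h h2 => box_polyU (x1 := 13768) (x2 := 13771) (y1 := 2005) (y2 := 2008)
      (by decide) (by exact_mod_cast stH5p1k hz (c_p1k h)))

theorem rf1_5ss : Rf2 ((5 : ℕ) : ℝ) .t5 (Poly p1_S3)
    (Poly p1_S3) v1_5ss :=
  rf2_of (C := fun z => 16 * z ^ 5 - 20 * z ^ 3 + 5 * z) (U := fun z => 16 * z ^ 4 - 12 * z ^ 2 + 1) cB5
    (ringFacts.ss 5 (by norm_num)) (poly_in (by decide)) (poly_in (by decide)) (kst_in (by decide)) (kst_in (by decide))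
    (starC_poly (kst_in (by decide))) (starC_poly (kst_in (by decide))) (rePS (by decide)) (rePS (by decide)) (by decide)
    (fun _ _ _ hz hk hl => fr1_5ss hz hk hl)
    (fun _ hz h h2 => box_polyU (x1 := 13313) (x2 := 13316) (y1 := 2295) (y2 := 2298)
      (by decide) (by exact_mod_cast stH5pkk hz (c_pkk (h2 rfl))))

theorem rf1_6ea : Rf1 ((6 : ℕ) : ℝ) .t6 (frS (-1) (Poly p1_A2)) v1_6ea :=
  rf1_of (C := fun z => 32 * z ^ 6 - 48 * z ^ 4 + 18 * z ^ 2 - 1) (U := fun z => 32 * z ^ 5 - 32 * z ^ 3 + 6 * z) cB6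
    (ringFacts.end_a 6 (by norm_num)) (frS_mono (poly_in (by decide))) (one_inF (by decide)) (starC_frS (starC_poly (one_in (by decide)))) (rePF (by decide)) (by decide)
    (fun _ _ hz hk => fr1_6ea hz (memF hk))
    (fun _ hz h => box_polyU (x1 := 14041) (x2 := 14044) (y1 := 682) (y2 := 685)
      (by decide) (by exact_mod_cast stH6o1 hz h))

theorem rf1_6ez : Rf1 ((6 : ℕ) : ℝ) .t6 (Poly p1_Z) v1_6ez :=
  rf1_of (C := fun z => 32 * z ^ 6 - 48 * z ^ 4 + 18 * z ^ 2 - 1) (U := fun z => 32 * z ^ 5 - 32 * z ^ 3 + 6 * z) cB6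
    (ringFacts.end_s 6 (by norm_num)) (poly_in (by decide)) (one_in (by decide)) (starC_poly (one_in (by decide))) (rePS (by decide)) (by decide)
    (fun _ _ hz hk => fr1_6ez hz hk)
    (fun _ hz h => box_polyU (x1 := 14041) (x2 := 14044) (y1 := 682) (y2 := 685)
      (by decide) (by exact_mod_cast stH6o1 hz h))

theorem rf1_6es : Rf1 ((6 : ℕ) : ℝ) .t6 (Poly p1_S3) v1_6es :=
  rf1_of (C := fun z => 32 * z ^ 6 - 48 * z ^ 4 + 18 * z ^ 2 - 1) (U := fun z => 32 * z ^ 5 - 32 * z ^ 3 + 6 * z) cB6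
    (ringFacts.end_s 6 (by norm_num)) (poly_in (by decide)) (kst_in (by decide)) (starC_poly (kst_in (by decide))) (rePS (by decide)) (by decide)
    (fun _ _ hz hk => fr1_6es hz hk)
    (fun _ hz h => box_polyU (x1 := 13705) (x2 := 13708) (y1 := 670) (y2 := 673)
      (by decide) (by exact_mod_cast stH6ok hz (c_ok h)))

theorem rf1_6aa : Rf2 ((6 : ℕ) : ℝ) .t6 (frS (-1) (Poly p1_A2))
    (frS (-1) (Poly p1_A2)) v1_6aa :=
  rf2_of (C := fun z => 32 * z ^ 6 - 48 * z ^ 4 + 18 * z ^ 2 - 1) (U := fun z => 32 * z ^ 5 - 32 * z ^ 3 + 6 * z) cB6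
    (ringFacts.aa 6 (by norm_num)) (frS_mono (poly_in (by decide))) (frS_mono (poly_in (by decide))) (one_inF (by decide)) (one_inF (by decide))
    (starC_frS (starC_poly (one_in (by decide)))) (starC_frS (starC_poly (one_in (by decide)))) (rePF (by decide)) (rePF (by decide)) (by decide)
    (fun _ _ _ hz hk hl => fr1_6aa hz (memF hk) (memF hl))
    (fun _ hz h h2 => box_polyU (x1 := 14481) (x2 := 14484) (y1 := 1140) (y2 := 1143)
      (by decide) (by exact_mod_cast stH6p11 hz (c_p11 (h2 rfl))))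

theorem rf1_6az : Rf2 ((6 : ℕ) : ℝ) .t6 (frS (-1) (Poly p1_A2))
    (Poly p1_Z) v1_6az :=
  rf2_of (C := fun z => 32 * z ^ 6 - 48 * z ^ 4 + 18 * z ^ 2 - 1) (U := fun z => 32 * z ^ 5 - 32 * z ^ 3 + 6 * z) cB6
    (ringFacts.as3 6 (by norm_num)) (frS_mono (poly_in (by decide))) (poly_in (by decide)) (one_inF (by decide)) (one_in (by decide))
    (starC_frS (starC_poly (one_in (by decide)))) (starC_poly (one_in (by decide))) (rePF (by decide)) (rePS (by decide)) (by decide)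
    (fun _ _ _ hz hk hl => fr1_6az hz (memF hk) hl)
    (fun _ hz h h2 => box_polyU (x1 := 14481) (x2 := 14484) (y1 := 1140) (y2 := 1143)
      (by decide) (by exact_mod_cast stH6p11 hz (c_p11 (h2 rfl))))

theorem rf1_6as : Rf2 ((6 : ℕ) : ℝ) .t6 (frS (-1) (Poly p1_A2))
    (Poly p1_S3) v1_6as :=
  rf2_of (C := fun z => 32 * z ^ 6 - 48 * z ^ 4 + 18 * z ^ 2 - 1) (U := fun z => 32 * z ^ 5 - 32 * z ^ 3 + 6 * z) cB6
    (ringFacts.as3 6 (by norm_num)) (frS_mono (poly_in (by decide))) (poly_in (by decide)) (one_inF (by decide)) (kst_in (by decide))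
    (starC_frS (starC_poly (one_in (by decide)))) (starC_poly (kst_in (by decide))) (rePF (by decide)) (rePS (by decide)) (by decide)
    (fun _ _ _ hz hk hl => fr1_6as hz (memF hk) hl)
    (fun _ hz h h2 => box_polyU (x1 := 14219) (x2 := 14222) (y1 := 1259) (y2 := 1262)
      (by decide) (by exact_mod_cast stH6p1k hz (c_p1k h)))

theorem rf1_6zz : Rf2 ((6 : ℕ) : ℝ) .t6 (Poly p1_Z)
    (Poly p1_Z) v1_6zz :=
  rf2_of (C := fun z => 32 * z ^ 6 - 48 * z ^ 4 + 18 * z ^ 2 - 1) (U := fun z => 32 * z ^ 5 - 32 * z ^ 3 + 6 * z) cB6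
    (ringFacts.ss 6 (by norm_num)) (poly_in (by decide)) (poly_in (by decide)) (one_in (by decide)) (one_in (by decide))
    (starC_poly (one_in (by decide))) (starC_poly (one_in (by decide))) (rePS (by decide)) (rePS (by decide)) (by decide)
    (fun _ _ _ hz hk hl => fr1_6zz hz hk hl)
    (fun _ hz h h2 => box_polyU (x1 := 14481) (x2 := 14484) (y1 := 1140) (y2 := 1143)
      (by decide) (by exact_mod_cast stH6p11 hz (c_p11 (h2 rfl))))

theorem rf1_6zs : Rf2 ((6 : ℕ) : ℝ) .t6 (Poly p1_Z)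
    (Poly p1_S3) v1_6zs :=
  rf2_of (C := fun z => 32 * z ^ 6 - 48 * z ^ 4 + 18 * z ^ 2 - 1) (U := fun z => 32 * z ^ 5 - 32 * z ^ 3 + 6 * z) cB6
    (ringFacts.ss 6 (by norm_num)) (poly_in (by decide)) (poly_in (by decide)) (one_in (by decide)) (kst_in (by decide))
    (starC_poly (one_in (by decide))) (starC_poly (kst_in (by decide))) (rePS (by decide)) (rePS (by decide)) (by decide)
    (fun _ _ _ hz hk hl => fr1_6zs hz hk hl)
    (fun _ hz h h2 => box_polyU (x1 := 14219) (x2 := 14222) (y1 := 1259) (y2 := 1262)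
      (by decide) (by exact_mod_cast stH6p1k hz (c_p1k h)))

theorem rf1_6ss : Rf2 ((6 : ℕ) : ℝ) .t6 (Poly p1_S3)
    (Poly p1_S3) v1_6ss :=
  rf2_of (C := fun z => 32 * z ^ 6 - 48 * z ^ 4 + 18 * z ^ 2 - 1) (U := fun z => 32 * z ^ 5 - 32 * z ^ 3 + 6 * z) cB6
    (ringFacts.ss 6 (by norm_num)) (poly_in (by decide)) (poly_in (by decide)) (kst_in (by decide)) (kst_in (by decide))
    (starC_poly (kst_in (by decide))) (starC_poly (kst_in (by decide))) (rePS (by decide)) (rePS (by decide)) (by decide)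
    (fun _ _ _ hz hk hl => fr1_6ss hz hk hl)
    (fun _ hz h h2 => box_polyU (x1 := 13896) (x2 := 13899) (y1 := 1393) (y2 := 1396)
      (by decide) (by exact_mod_cast stH6pkk hz (c_pkk (h2 rfl))))

theorem rf1_7ea : Rf1 ((7 : ℕ) : ℝ) .t7 (frS (-1) (Poly p1_A2)) v1_7ea :=
  rf1_of (C := fun z => 64 * z ^ 7 - 112 * z ^ 5 + 56 * z ^ 3 - 7 * z) (U := fun z => 64 * z ^ 6 - 80 * z ^ 4 + 24 * z ^ 2 - 1) cB7
    (ringFacts.end_a 7 (by norm_num)) (frS_mono (poly_in (by decide))) (one_inF (by decide)) (starC_frS (starC_poly (one_in (by decide)))) (rePF (by decide)) (by decide)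
    (fun _ _ hz hk => fr1_7ea hz (memF hk))
    (fun _ hz h => box_polyU (x1 := 14514) (x2 := 14517) (y1 := 438) (y2 := 441)
      (by decide) (by exact_mod_cast stH7o1 hz h))

theorem rf1_7ez : Rf1 ((7 : ℕ) : ℝ) .t7 (Poly p1_Z) v1_7ez :=
  rf1_of (C := fun z => 64 * z ^ 7 - 112 * z ^ 5 + 56 * z ^ 3 - 7 * z) (U := fun z => 64 * z ^ 6 - 80 * z ^ 4 + 24 * z ^ 2 - 1) cB7
    (ringFacts.end_s 7 (by norm_num)) (poly_in (by decide)) (one_in (by decide)) (starC_poly (one_in (by decide))) (rePS (by decide)) (by decide)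
    (fun _ _ hz hk => fr1_7ez hz hk)
    (fun _ hz h => box_polyU (x1 := 14514) (x2 := 14517) (y1 := 438) (y2 := 441)
      (by decide) (by exact_mod_cast stH7o1 hz h))

theorem rf1_7es : Rf1 ((7 : ℕ) : ℝ) .t7 (Poly p1_S3) v1_7es :=
  rf1_of (C := fun z => 64 * z ^ 7 - 112 * z ^ 5 + 56 * z ^ 3 - 7 * z) (U := fun z => 64 * z ^ 6 - 80 * z ^ 4 + 24 * z ^ 2 - 1) cB7
    (ringFacts.end_s 7 (by norm_num)) (poly_in (by decide)) (kst_in (by decide)) (starC_poly (kst_in (by decide))) (rePS (by decide)) (by decide)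
    (fun _ _ hz hk => fr1_7es hz hk)
    (fun _ hz h => box_polyU (x1 := 14298) (x2 := 14301) (y1 := 411) (y2 := 414)
      (by decide) (by exact_mod_cast stH7ok hz (c_ok h)))

theorem rf1_7aa : Rf2 ((7 : ℕ) : ℝ) .t7 (frS (-1) (Poly p1_A2))
    (frS (-1) (Poly p1_A2)) v1_7aa :=
  rf2_of (C := fun z => 64 * z ^ 7 - 112 * z ^ 5 + 56 * z ^ 3 - 7 * z) (U := fun z => 64 * z ^ 6 - 80 * z ^ 4 + 24 * z ^ 2 - 1) cB7
    (ringFacts.aa 7 (by norm_num)) (frS_mono (poly_in (by decide))) (frS_mono (poly_in (by decide))) (one_inF (by decide)) (one_inF (by decide))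
    (starC_frS (starC_poly (one_in (by decide)))) (starC_frS (starC_poly (one_in (by decide)))) (rePF (by decide)) (rePF (by decide)) (by decide)
    (fun _ _ _ hz hk hl => fr1_7aa hz (memF hk) (memF hl))
    (fun _ hz h h2 => box_polyU (x1 := 14769) (x2 := 14772) (y1 := 769) (y2 := 772)
      (by decide) (by exact_mod_cast stH7p11 hz (c_p11 (h2 rfl))))

theorem rf1_7az : Rf2 ((7 : ℕ) : ℝ) .t7 (frS (-1) (Poly p1_A2))
    (Poly p1_Z) v1_7az :=
  rf2_of (C := fun z => 64 * z ^ 7 - 112 * z ^ 5 + 56 * z ^ 3 - 7 * z) (U := fun z => 64 * z ^ 6 - 80 * z ^ 4 + 24 * z ^ 2 - 1) cB7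
    (ringFacts.as3 7 (by norm_num)) (frS_mono (poly_in (by decide))) (poly_in (by decide)) (one_inF (by decide)) (one_in (by decide))
    (starC_frS (starC_poly (one_in (by decide)))) (starC_poly (one_in (by decide))) (rePF (by decide)) (rePS (by decide)) (by decide)
    (fun _ _ _ hz hk hl => fr1_7az hz (memF hk) hl)
    (fun _ hz h h2 => box_polyU (x1 := 14769) (x2 := 14772) (y1 := 769) (y2 := 772)
      (by decide) (by exact_mod_cast stH7p11 hz (c_p11 (h2 rfl))))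

theorem rf1_7as : Rf2 ((7 : ℕ) : ℝ) .t7 (frS (-1) (Poly p1_A2))
    (Poly p1_S3) v1_7as :=
  rf2_of (C := fun z => 64 * z ^ 7 - 112 * z ^ 5 + 56 * z ^ 3 - 7 * z) (U := fun z => 64 * z ^ 6 - 80 * z ^ 4 + 24 * z ^ 2 - 1) cB7
    (ringFacts.as3 7 (by norm_num)) (frS_mono (poly_in (by decide))) (poly_in (by decide)) (one_inF (by decide)) (kst_in (by decide))
    (starC_frS (starC_poly (one_in (by decide)))) (starC_poly (kst_in (by decide))) (rePF (by decide)) (rePS (by decide)) (by decide)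
    (fun _ _ _ hz hk hl => fr1_7as hz (memF hk) hl)
    (fun _ hz h h2 => box_polyU (x1 := 14583) (x2 := 14586) (y1 := 824) (y2 := 827)
      (by decide) (by exact_mod_cast stH7p1k hz (c_p1k h)))

theorem rf1_7zz : Rf2 ((7 : ℕ) : ℝ) .t7 (Poly p1_Z)
    (Poly p1_Z) v1_7zz :=
  rf2_of (C := fun z => 64 * z ^ 7 - 112 * z ^ 5 + 56 * z ^ 3 - 7 * z) (U := fun z => 64 * z ^ 6 - 80 * z ^ 4 + 24 * z ^ 2 - 1) cB7
    (ringFacts.ss 7 (by norm_num)) (poly_in (by decide)) (poly_in (by decide)) (one_in (by decide)) (one_in (by decide))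
    (starC_poly (one_in (by decide))) (starC_poly (one_in (by decide))) (rePS (by decide)) (rePS (by decide)) (by decide)
    (fun _ _ _ hz hk hl => fr1_7zz hz hk hl)
    (fun _ hz h h2 => box_polyU (x1 := 14769) (x2 := 14772) (y1 := 769) (y2 := 772)
      (by decide) (by exact_mod_cast stH7p11 hz (c_p11 (h2 rfl))))

theorem rf1_7zs : Rf2 ((7 : ℕ) : ℝ) .t7 (Poly p1_Z)
    (Poly p1_S3) v1_7zs :=
  rf2_of (C := fun z => 64 * z ^ 7 - 112 * z ^ 5 + 56 * z ^ 3 - 7 * z) (U := fun z => 64 * z ^ 6 - 80 * z ^ 4 + 24 * z ^ 2 - 1) cB7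
    (ringFacts.ss 7 (by norm_num)) (poly_in (by decide)) (poly_in (by decide)) (one_in (by decide)) (kst_in (by decide))
    (starC_poly (one_in (by decide))) (starC_poly (kst_in (by decide))) (rePS (by decide)) (rePS (by decide)) (by decide)
    (fun _ _ _ hz hk hl => fr1_7zs hz hk hl)
    (fun _ hz h h2 => box_polyU (x1 := 14583) (x2 := 14586) (y1 := 824) (y2 := 827)
      (by decide) (by exact_mod_cast stH7p1k hz (c_p1k h)))

theorem rf1_7ss : Rf2 ((7 : ℕ) : ℝ) .t7 (Poly p1_S3)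
    (Poly p1_S3) v1_7ss :=
  rf2_of (C := fun z => 64 * z ^ 7 - 112 * z ^ 5 + 56 * z ^ 3 - 7 * z) (U := fun z => 64 * z ^ 6 - 80 * z ^ 4 + 24 * z ^ 2 - 1) cB7
    (ringFacts.ss 7 (by norm_num)) (poly_in (by decide)) (poly_in (by decide)) (kst_in (by decide)) (kst_in (by decide))
    (starC_poly (kst_in (by decide))) (starC_poly (kst_in (by decide))) (rePS (by decide)) (rePS (by decide)) (by decide)
    (fun _ _ _ hz hk hl => fr1_7ss hz hk hl)
    (fun _ hz h h2 => box_polyU (x1 := 14358) (x2 := 14361) (y1 := 882) (y2 := 885)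
      (by decide) (by exact_mod_cast stH7pkk hz (c_pkk (h2 rfl))))

/-! ### round 2 -/

theorem rf2_2ea : Rf1 ((2 : ℕ) : ℝ) .t2e (frS (-1) (Poly p2_A2)) v2_2ea :=
  rf1_of (C := fun z => 2 * z ^ 2 - 1) (U := fun z => 2 * z) cB2
    (ringFacts.end_a 2 (by norm_num)) (frS_mono (poly_in (by decide))) (one_inF (by decide)) (starC_frS (starC_poly (one_in (by decide)))) (rePF (by decide)) (by decide)
    (fun _ _ hz hk => fr2_2ea hz (memF hk))
    (fun _ hz h => box_polyU (x1 := 7999) (x2 := 8002) (y1 := 7999) (y2 := 8002)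
      (by decide) (by exact_mod_cast stH2eo1 hz h))

theorem rf2_2aa : Rf2 ((2 : ℕ) : ℝ) .t2aa (frS (-1) (Poly p2_A2))
    (frS (-1) (Poly p2_A2)) v2_2aa :=
  rf2_of (C := fun z => 2 * z ^ 2 - 1) (U := fun z => 2 * z) cB2
    (ringFacts.aa 2 (by norm_num)) (frS_mono (poly_in (by decide))) (frS_mono (poly_in (by decide))) (one_inF (by decide)) (one_inF (by decide))
    (starC_frS (starC_poly (one_in (by decide)))) (starC_frS (starC_poly (one_in (by decide)))) (rePF (by decide)) (rePF (by decide)) (by decide)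
    (fun _ _ _ hz hk hl => fr2_2aa hz (memF hk) (memF hl))
    (fun _ hz h h2 => box_polyU (x1 := 13855) (x2 := 13858) (y1 := 7999) (y2 := 8002)
      (by decide) (by exact_mod_cast stH2aap11 hz (c_p11 (h2 rfl))))

theorem rf2_2as : Rf2 ((2 : ℕ) : ℝ) .t2as (frS (-1) (Poly p2_A1))
    (Poly p2_ST) v2_2as :=
  rf2_of (C := fun z => 2 * z ^ 2 - 1) (U := fun z => 2 * z) cB2
    (by exact_mod_cast ringFacts.as2) (frS_mono (poly_in (by decide))) (poly_in (by decide)) (one_inF (by decide)) (one_in (by decide))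
    (starC_frS (starC_poly (one_in (by decide)))) (starC_poly (one_in (by decide))) (rePF (by decide)) (rePS (by decide)) (by decide)
    (fun _ _ _ hz hk hl => fr2_2as hz (memF hk) hl)
    (fun _ hz h h2 => box_polyU (x1 := 13855) (x2 := 13858) (y1 := 7999) (y2 := 8002)
      (by decide) (by exact_mod_cast stH2asp11 hz (c_p11 (h2 rfl))))

theorem rf2_3ea : Rf1 ((3 : ℕ) : ℝ) .t3ae (frS (-1) (Poly p2_A2)) v2_3ea :=
  rf1_of (C := fun z => 4 * z ^ 3 - 3 * z) (U := fun z => 4 * z ^ 2 - 1) cB3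
    (ringFacts.end_a 3 (by norm_num)) (frS_mono (poly_in (by decide))) (one_inF (by decide)) (starC_frS (starC_poly (one_in (by decide)))) (rePF (by decide)) (by decide)
    (fun _ _ hz hk => fr2_3ea hz (memF hk))
    (fun _ hz h => box_polyU (x1 := 10582) (x2 := 10585) (y1 := 3999) (y2 := 4002)
      (by decide) (by exact_mod_cast stH3aeo1 hz h))

theorem rf2_3es : Rf1 ((3 : ℕ) : ℝ) .t3se (Poly p2_S2) v2_3es :=
  rf1_of (C := fun z => 4 * z ^ 3 - 3 * z) (U := fun z => 4 * z ^ 2 - 1) cB3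
    (ringFacts.end_s 3 (by norm_num)) (poly_in (by decide)) (one_in (by decide)) (starC_poly (one_in (by decide))) (rePS (by decide)) (by decide)
    (fun _ _ hz hk => fr2_3es hz hk)
    (fun _ hz h => box_polyU (x1 := 10582) (x2 := 10585) (y1 := 3999) (y2 := 4002)
      (by decide) (by exact_mod_cast stH3seo1 hz h))

theorem rf2_3aa : Rf2 ((3 : ℕ) : ℝ) .t3aa (frS (-1) (Poly p2_A2))
    (frS (-1) (Poly p2_A2)) v2_3aa :=
  rf2_of (C := fun z => 4 * z ^ 3 - 3 * z) (U := fun z => 4 * z ^ 2 - 1) cB3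
    (ringFacts.aa 3 (by norm_num)) (frS_mono (poly_in (by decide))) (frS_mono (poly_in (by decide))) (one_inF (by decide)) (one_inF (by decide))
    (starC_frS (starC_poly (one_in (by decide)))) (starC_frS (starC_poly (one_in (by decide)))) (rePF (by decide)) (rePF (by decide)) (by decide)
    (fun _ _ _ hz hk hl => fr2_3aa hz (memF hk) (memF hl))
    (fun _ hz h h2 => box_polyU (x1 := 13550) (x2 := 13553) (y1 := 4648) (y2 := 4651)
      (by decide) (by exact_mod_cast stH3aap11 hz (c_p11 (h2 rfl))))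

theorem rf2_3as : Rf2 ((3 : ℕ) : ℝ) .t3as (frS (-1) (Poly p2_A2))
    (Poly p2_S2) v2_3as :=
  rf2_of (C := fun z => 4 * z ^ 3 - 3 * z) (U := fun z => 4 * z ^ 2 - 1) cB3
    (ringFacts.as3 3 (by norm_num)) (frS_mono (poly_in (by decide))) (poly_in (by decide)) (one_inF (by decide)) (one_in (by decide))
    (starC_frS (starC_poly (one_in (by decide)))) (starC_poly (one_in (by decide))) (rePF (by decide)) (rePS (by decide)) (by decide)
    (fun _ _ _ hz hk hl => fr2_3as hz (memF hk) hl)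
    (fun _ hz h h2 => box_polyU (x1 := 13550) (x2 := 13553) (y1 := 4648) (y2 := 4651)
      (by decide) (by exact_mod_cast stH3asp11 hz (c_p11 (h2 rfl))))

theorem rf2_3ss : Rf2 ((3 : ℕ) : ℝ) .t3ss (Poly p2_S2)
    (Poly p2_S2) v2_3ss :=
  rf2_of (C := fun z => 4 * z ^ 3 - 3 * z) (U := fun z => 4 * z ^ 2 - 1) cB3
    (ringFacts.ss 3 (by norm_num)) (poly_in (by decide)) (poly_in (by decide)) (one_in (by decide)) (one_in (by decide))
    (starC_poly (one_in (by decide))) (starC_poly (one_in (by decide))) (rePS (by decide)) (rePS (by decide)) (by decide)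
    (fun _ _ _ hz hk hl => fr2_3ss hz hk hl)
    (fun _ hz h h2 => box_polyU (x1 := 13550) (x2 := 13553) (y1 := 4648) (y2 := 4651)
      (by decide) (by exact_mod_cast stH3ssp11 hz (c_p11 (h2 rfl))))

theorem rf2_4ea : Rf1 ((4 : ℕ) : ℝ) .t4 (frS (-1) (Poly p2_A2)) v2_4ea :=
  rf1_of (C := fun z => 8 * z ^ 4 - 8 * z ^ 2 + 1) (U := fun z => 8 * z ^ 3 - 4 * z) cB4
    (ringFacts.end_a 4 (by norm_num)) (frS_mono (poly_in (by decide))) (one_inF (by decide)) (starC_frS (starC_poly (one_in (by decide)))) (rePF (by decide)) (by decide)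
    (fun _ _ hz hk => fr2_4ea hz (memF hk))
    (fun _ hz h => box_polyU (x1 := 12231) (x2 := 12234) (y1 := 2055) (y2 := 2058)
      (by decide) (by exact_mod_cast stH4o1 hz h))

theorem rf2_4ez : Rf1 ((4 : ℕ) : ℝ) .t4 (Poly p2_Z) v2_4ez :=
  rf1_of (C := fun z => 8 * z ^ 4 - 8 * z ^ 2 + 1) (U := fun z => 8 * z ^ 3 - 4 * z) cB4
    (ringFacts.end_s 4 (by norm_num)) (poly_in (by decide)) (one_in (by decide)) (starC_poly (one_in (by decide))) (rePS (by decide)) (by decide)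
    (fun _ _ hz hk => fr2_4ez hz hk)
    (fun _ hz h => box_polyU (x1 := 12231) (x2 := 12234) (y1 := 2055) (y2 := 2058)
      (by decide) (by exact_mod_cast stH4o1 hz h))

theorem rf2_4es : Rf1 ((4 : ℕ) : ℝ) .t4 (Poly p2_S3) v2_4es :=
  rf1_of (C := fun z => 8 * z ^ 4 - 8 * z ^ 2 + 1) (U := fun z => 8 * z ^ 3 - 4 * z) cB4
    (ringFacts.end_s 4 (by norm_num)) (poly_in (by decide)) (kst_in (by decide)) (starC_poly (kst_in (by decide))) (rePS (by decide)) (by decide)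
    (fun _ _ hz hk => fr2_4es hz hk)
    (fun _ hz h => box_polyU (x1 := 11333) (x2 := 11336) (y1 := 2286) (y2 := 2289)
      (by decide) (by exact_mod_cast stH4ok hz (c_ok h)))

theorem rf2_4aa : Rf2 ((4 : ℕ) : ℝ) .t4 (frS (-1) (Poly p2_A2))
    (frS (-1) (Poly p2_A2)) v2_4aa :=
  rf2_of (C := fun z => 8 * z ^ 4 - 8 * z ^ 2 + 1) (U := fun z => 8 * z ^ 3 - 4 * z) cB4
    (ringFacts.aa 4 (by norm_num)) (frS_mono (poly_in (by decide))) (frS_mono (poly_in (by decide))) (one_inF (by decide)) (one_inF (by decide))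
    (starC_frS (starC_poly (one_in (by decide)))) (starC_frS (starC_poly (one_in (by decide)))) (rePF (by decide)) (rePF (by decide)) (by decide)
    (fun _ _ _ hz hk hl => fr2_4aa hz (memF hk) (memF hl))
    (fun _ hz h h2 => box_polyU (x1 := 13770) (x2 := 13773) (y1 := 2816) (y2 := 2819)
      (by decide) (by exact_mod_cast stH4p11 hz (c_p11 (h2 rfl))))

theorem rf2_4az : Rf2 ((4 : ℕ) : ℝ) .t4 (frS (-1) (Poly p2_A2))
    (Poly p2_Z) v2_4az :=
  rf2_of (C := fun z => 8 * z ^ 4 - 8 * z ^ 2 + 1) (U := fun z => 8 * z ^ 3 - 4 * z) cB4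
    (ringFacts.as3 4 (by norm_num)) (frS_mono (poly_in (by decide))) (poly_in (by decide)) (one_inF (by decide)) (one_in (by decide))
    (starC_frS (starC_poly (one_in (by decide)))) (starC_poly (one_in (by decide))) (rePF (by decide)) (rePS (by decide)) (by decide)
    (fun _ _ _ hz hk hl => fr2_4az hz (memF hk) hl)
    (fun _ hz h h2 => box_polyU (x1 := 13770) (x2 := 13773) (y1 := 2816) (y2 := 2819)
      (by decide) (by exact_mod_cast stH4p11 hz (c_p11 (h2 rfl))))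

theorem rf2_4as : Rf2 ((4 : ℕ) : ℝ) .t4 (frS (-1) (Poly p2_A2))
    (Poly p2_S3) v2_4as :=
  rf2_of (C := fun z => 8 * z ^ 4 - 8 * z ^ 2 + 1) (U := fun z => 8 * z ^ 3 - 4 * z) cB4
    (ringFacts.as3 4 (by norm_num)) (frS_mono (poly_in (by decide))) (poly_in (by decide)) (one_inF (by decide)) (kst_in (by decide))
    (starC_frS (starC_poly (one_in (by decide)))) (starC_poly (kst_in (by decide))) (rePF (by decide)) (rePS (by decide)) (by decide)
    (fun _ _ _ hz hk hl => fr2_4as hz (memF hk) hl)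
    (fun _ hz h h2 => box_polyU (x1 := 13280) (x2 := 13283) (y1 := 3307) (y2 := 3310)
      (by decide) (by exact_mod_cast stH4p1k hz (c_p1k h)))

theorem rf2_4zz : Rf2 ((4 : ℕ) : ℝ) .t4 (Poly p2_Z)
    (Poly p2_Z) v2_4zz :=
  rf2_of (C := fun z => 8 * z ^ 4 - 8 * z ^ 2 + 1) (U := fun z => 8 * z ^ 3 - 4 * z) cB4
    (ringFacts.ss 4 (by norm_num)) (poly_in (by decide)) (poly_in (by decide)) (one_in (by decide)) (one_in (by decide))
    (starC_poly (one_in (by decide))) (starC_poly (one_in (by decide))) (rePS (by decide)) (rePS (by decide)) (by decide)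
    (fun _ _ _ hz hk hl => fr2_4zz hz hk hl)
    (fun _ hz h h2 => box_polyU (x1 := 13770) (x2 := 13773) (y1 := 2816) (y2 := 2819)
      (by decide) (by exact_mod_cast stH4p11 hz (c_p11 (h2 rfl))))

theorem rf2_4ss : Rf2 ((4 : ℕ) : ℝ) .t4 (Poly p2_S2)
    (Poly p2_S2) v2_4ss :=
  rf2_of (C := fun z => 8 * z ^ 4 - 8 * z ^ 2 + 1) (U := fun z => 8 * z ^ 3 - 4 * z) cB4
    (ringFacts.ss 4 (by norm_num)) (poly_in (by decide)) (poly_in (by decide)) (one_in (by decide)) (one_in (by decide))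
    (starC_poly (one_in (by decide))) (starC_poly (one_in (by decide))) (rePS (by decide)) (rePS (by decide)) (by decide)
    (fun _ _ _ hz hk hl => fr2_4ss hz hk hl)
    (fun _ hz h h2 => box_polyU (x1 := 13770) (x2 := 13773) (y1 := 2816) (y2 := 2819)
      (by decide) (by exact_mod_cast stH4p11 hz (c_p11 (h2 rfl))))

theorem rf2_5ea : Rf1 ((5 : ℕ) : ℝ) .t5 (frS (-1) (Poly p2_A2)) v2_5ea :=
  rf1_of (C := fun z => 16 * z ^ 5 - 20 * z ^ 3 + 5 * z) (U := fun z => 16 * z ^ 4 - 12 * z ^ 2 + 1) cB5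
    (ringFacts.end_a 5 (by norm_num)) (frS_mono (poly_in (by decide))) (one_inF (by decide)) (starC_frS (starC_poly (one_in (by decide)))) (rePF (by decide)) (by decide)
    (fun _ _ hz hk => fr2_5ea hz (memF hk))
    (fun _ hz h => box_polyU (x1 := 13328) (x2 := 13331) (y1 := 1138) (y2 := 1141)
      (by decide) (by exact_mod_cast stH5o1 hz h))

theorem rf2_5ez : Rf1 ((5 : ℕ) : ℝ) .t5 (Poly p2_Z) v2_5ez :=
  rf1_of (C := fun z => 16 * z ^ 5 - 20 * z ^ 3 + 5 * z) (U := fun z => 16 * z ^ 4 - 12 * z ^ 2 + 1) cB5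
    (ringFacts.end_s 5 (by norm_num)) (poly_in (by decide)) (one_in (by decide)) (starC_poly (one_in (by decide))) (rePS (by decide)) (by decide)
    (fun _ _ hz hk => fr2_5ez hz hk)
    (fun _ hz h => box_polyU (x1 := 13328) (x2 := 13331) (y1 := 1138) (y2 := 1141)
      (by decide) (by exact_mod_cast stH5o1 hz h))

theorem rf2_5es : Rf1 ((5 : ℕ) : ℝ) .t5 (Poly p2_S3) v2_5es :=
  rf1_of (C := fun z => 16 * z ^ 5 - 20 * z ^ 3 + 5 * z) (U := fun z => 16 * z ^ 4 - 12 * z ^ 2 + 1) cB5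
    (ringFacts.end_s 5 (by norm_num)) (poly_in (by decide)) (kst_in (by decide)) (starC_poly (kst_in (by decide))) (rePS (by decide)) (by decide)
    (fun _ _ hz hk => fr2_5es hz hk)
    (fun _ hz h => box_polyU (x1 := 12782) (x2 := 12785) (y1 := 1184) (y2 := 1187)
      (by decide) (by exact_mod_cast stH5ok hz (c_ok h)))

theorem rf2_5aa : Rf2 ((5 : ℕ) : ℝ) .t5 (frS (-1) (Poly p2_A2))
    (frS (-1) (Poly p2_A2)) v2_5aa :=
  rf2_of (C := fun z => 16 * z ^ 5 - 20 * z ^ 3 + 5 * z) (U := fun z => 16 * z ^ 4 - 12 * z ^ 2 + 1) cB5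
    (ringFacts.aa 5 (by norm_num)) (frS_mono (poly_in (by decide))) (frS_mono (poly_in (by decide))) (one_inF (by decide)) (one_inF (by decide))
    (starC_frS (starC_poly (one_in (by decide)))) (starC_frS (starC_poly (one_in (by decide)))) (rePF (by decide)) (rePF (by decide)) (by decide)
    (fun _ _ _ hz hk hl => fr2_5aa hz (memF hk) (memF hl))
    (fun _ hz h h2 => box_polyU (x1 := 14132) (x2 := 14135) (y1 := 1759) (y2 := 1762)
      (by decide) (by exact_mod_cast stH5p11 hz (c_p11 (h2 rfl))))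

theorem rf2_5az : Rf2 ((5 : ℕ) : ℝ) .t5 (frS (-1) (Poly p2_A2))
    (Poly p2_Z) v2_5az :=
  rf2_of (C := fun z => 16 * z ^ 5 - 20 * z ^ 3 + 5 * z) (U := fun z => 16 * z ^ 4 - 12 * z ^ 2 + 1) cB5
    (ringFacts.as3 5 (by norm_num)) (frS_mono (poly_in (by decide))) (poly_in (by decide)) (one_inF (by decide)) (one_in (by decide))
    (starC_frS (starC_poly (one_in (by decide)))) (starC_poly (one_in (by decide))) (rePF (by decide)) (rePS (by decide)) (by decide)
    (fun _ _ _ hz hk hl => fr2_5az hz (memF hk) hl)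
    (fun _ hz h h2 => box_polyU (x1 := 14132) (x2 := 14135) (y1 := 1759) (y2 := 1762)
      (by decide) (by exact_mod_cast stH5p11 hz (c_p11 (h2 rfl))))

theorem rf2_5as : Rf2 ((5 : ℕ) : ℝ) .t5 (frS (-1) (Poly p2_A2))
    (Poly p2_S3) v2_5as :=
  rf2_of (C := fun z => 16 * z ^ 5 - 20 * z ^ 3 + 5 * z) (U := fun z => 16 * z ^ 4 - 12 * z ^ 2 + 1) cB5
    (ringFacts.as3 5 (by norm_num)) (frS_mono (poly_in (by decide))) (poly_in (by decide)) (one_inF (by decide)) (kst_in (by decide))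
    (starC_frS (starC_poly (one_in (by decide)))) (starC_poly (kst_in (by decide))) (rePF (by decide)) (rePS (by decide)) (by decide)
    (fun _ _ _ hz hk hl => fr2_5as hz (memF hk) hl)
    (fun _ hz h h2 => box_polyU (x1 := 13768) (x2 := 13771) (y1 := 2005) (y2 := 2008)
      (by decide) (by exact_mod_cast stH5p1k hz (c_p1k h)))

theorem rf2_5zz : Rf2 ((5 : ℕ) : ℝ) .t5 (Poly p2_Z)
    (Poly p2_Z) v2_5zz :=
  rf2_of (C := fun z => 16 * z ^ 5 - 20 * z ^ 3 + 5 * z) (U := fun z => 16 * z ^ 4 - 12 * z ^ 2 + 1) cB5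
    (ringFacts.ss 5 (by norm_num)) (poly_in (by decide)) (poly_in (by decide)) (one_in (by decide)) (one_in (by decide))
    (starC_poly (one_in (by decide))) (starC_poly (one_in (by decide))) (rePS (by decide)) (rePS (by decide)) (by decide)
    (fun _ _ _ hz hk hl => fr2_5zz hz hk hl)
    (fun _ hz h h2 => box_polyU (x1 := 14132) (x2 := 14135) (y1 := 1759) (y2 := 1762)
      (by decide) (by exact_mod_cast stH5p11 hz (c_p11 (h2 rfl))))

theorem rf2_5zs : Rf2 ((5 : ℕ) : ℝ) .t5 (Poly p2_Z)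
    (Poly p2_S3) v2_5zs :=
  rf2_of (C := fun z => 16 * z ^ 5 - 20 * z ^ 3 + 5 * z) (U := fun z => 16 * z ^ 4 - 12 * z ^ 2 + 1) cB5
    (ringFacts.ss 5 (by norm_num)) (poly_in (by decide)) (poly_in (by decide)) (one_in (by decide)) (kst_in (by decide))
    (starC_poly (one_in (by decide))) (starC_poly (kst_in (by decide))) (rePS (by decide)) (rePS (by decide)) (by decide)
    (fun _ _ _ hz hk hl => fr2_5zs hz hk hl)
    (fun _ hz h h2 => box_polyU (x1 := 13768) (x2 := 13771) (y1 := 2005) (y2 := 2008)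
      (by decide) (by exact_mod_cast stH5p1k hz (c_p1k h)))

theorem rf2_5ss : Rf2 ((5 : ℕ) : ℝ) .t5 (Poly p2_S3)
    (Poly p2_S3) v2_5ss :=
  rf2_of (C := fun z => 16 * z ^ 5 - 20 * z ^ 3 + 5 * z) (U := fun z => 16 * z ^ 4 - 12 * z ^ 2 + 1) cB5
    (ringFacts.ss 5 (by norm_num)) (poly_in (by decide)) (poly_in (by decide)) (kst_in (by decide)) (kst_in (by decide))
    (starC_poly (kst_in (by decide))) (starC_poly (kst_in (by decide))) (rePS (by decide)) (rePS (by decide)) (by decide)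
    (fun _ _ _ hz hk hl => fr2_5ss hz hk hl)
    (fun _ hz h h2 => box_polyU (x1 := 13313) (x2 := 13316) (y1 := 2295) (y2 := 2298)
      (by decide) (by exact_mod_cast stH5pkk hz (c_pkk (h2 rfl))))

theorem rf2_6ea : Rf1 ((6 : ℕ) : ℝ) .t6 (frS (-1) (Poly p2_A2)) v2_6ea :=
  rf1_of (C := fun z => 32 * z ^ 6 - 48 * z ^ 4 + 18 * z ^ 2 - 1) (U := fun z => 32 * z ^ 5 - 32 * z ^ 3 + 6 * z) cB6
    (ringFacts.end_a 6 (by norm_num)) (frS_mono (poly_in (by decide))) (one_inF (by decide)) (starC_frS (starC_poly (one_in (by decide)))) (rePF (by decide)) (by decide)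
    (fun _ _ hz hk => fr2_6ea hz (memF hk))
    (fun _ hz h => box_polyU (x1 := 14041) (x2 := 14044) (y1 := 682) (y2 := 685)
      (by decide) (by exact_mod_cast stH6o1 hz h))

theorem rf2_6ez : Rf1 ((6 : ℕ) : ℝ) .t6 (Poly p2_Z) v2_6ez :=
  rf1_of (C := fun z => 32 * z ^ 6 - 48 * z ^ 4 + 18 * z ^ 2 - 1) (U := fun z => 32 * z ^ 5 - 32 * z ^ 3 + 6 * z) cB6
    (ringFacts.end_s 6 (by norm_num)) (poly_in (by decide)) (one_in (by decide)) (starC_poly (one_in (by decide))) (rePS (by decide)) (by decide)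
    (fun _ _ hz hk => fr2_6ez hz hk)
    (fun _ hz h => box_polyU (x1 := 14041) (x2 := 14044) (y1 := 682) (y2 := 685)
      (by decide) (by exact_mod_cast stH6o1 hz h))

theorem rf2_6es : Rf1 ((6 : ℕ) : ℝ) .t6 (Poly p2_S3) v2_6es :=
  rf1_of (C := fun z => 32 * z ^ 6 - 48 * z ^ 4 + 18 * z ^ 2 - 1) (U := fun z => 32 * z ^ 5 - 32 * z ^ 3 + 6 * z) cB6
    (ringFacts.end_s 6 (by norm_num)) (poly_in (by decide)) (kst_in (by decide)) (starC_poly (kst_in (by decide))) (rePS (by decide)) (by decide)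
    (fun _ _ hz hk => fr2_6es hz hk)
    (fun _ hz h => box_polyU (x1 := 13705) (x2 := 13708) (y1 := 670) (y2 := 673)
      (by decide) (by exact_mod_cast stH6ok hz (c_ok h)))

theorem rf2_6aa : Rf2 ((6 : ℕ) : ℝ) .t6 (frS (-1) (Poly p2_A2))
    (frS (-1) (Poly p2_A2)) v2_6aa :=
  rf2_of (C := fun z => 32 * z ^ 6 - 48 * z ^ 4 + 18 * z ^ 2 - 1) (U := fun z => 32 * z ^ 5 - 32 * z ^ 3 + 6 * z) cB6
    (ringFacts.aa 6 (by norm_num)) (frS_mono (poly_in (by decide))) (frS_mono (poly_in (by decide))) (one_inF (by decide)) (one_inF (by decide))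
    (starC_frS (starC_poly (one_in (by decide)))) (starC_frS (starC_poly (one_in (by decide)))) (rePF (by decide)) (rePF (by decide)) (by decide)
    (fun _ _ _ hz hk hl => fr2_6aa hz (memF hk) (memF hl))
    (fun _ hz h h2 => box_polyU (x1 := 14481) (x2 := 14484) (y1 := 1140) (y2 := 1143)
      (by decide) (by exact_mod_cast stH6p11 hz (c_p11 (h2 rfl))))

theorem rf2_6az : Rf2 ((6 : ℕ) : ℝ) .t6 (frS (-1) (Poly p2_A2))
    (Poly p2_Z) v2_6az :=
  rf2_of (C := fun z => 32 * z ^ 6 - 48 * z ^ 4 + 18 * z ^ 2 - 1) (U := fun z => 32 * z ^ 5 - 32 * z ^ 3 + 6 * z) cB6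
    (ringFacts.as3 6 (by norm_num)) (frS_mono (poly_in (by decide))) (poly_in (by decide)) (one_inF (by decide)) (one_in (by decide))
    (starC_frS (starC_poly (one_in (by decide)))) (starC_poly (one_in (by decide))) (rePF (by decide)) (rePS (by decide)) (by decide)
    (fun _ _ _ hz hk hl => fr2_6az hz (memF hk) hl)
    (fun _ hz h h2 => box_polyU (x1 := 14481) (x2 := 14484) (y1 := 1140) (y2 := 1143)
      (by decide) (by exact_mod_cast stH6p11 hz (c_p11 (h2 rfl))))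

theorem rf2_6as : Rf2 ((6 : ℕ) : ℝ) .t6 (frS (-1) (Poly p2_A2))
    (Poly p2_S3) v2_6as :=
  rf2_of (C := fun z => 32 * z ^ 6 - 48 * z ^ 4 + 18 * z ^ 2 - 1) (U := fun z => 32 * z ^ 5 - 32 * z ^ 3 + 6 * z) cB6
    (ringFacts.as3 6 (by norm_num)) (frS_mono (poly_in (by decide))) (poly_in (by decide)) (one_inF (by decide)) (kst_in (by decide))
    (starC_frS (starC_poly (one_in (by decide)))) (starC_poly (kst_in (by decide))) (rePF (by decide)) (rePS (by decide)) (by decide)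
    (fun _ _ _ hz hk hl => fr2_6as hz (memF hk) hl)
    (fun _ hz h h2 => box_polyU (x1 := 14219) (x2 := 14222) (y1 := 1259) (y2 := 1262)
      (by decide) (by exact_mod_cast stH6p1k hz (c_p1k h)))

theorem rf2_6zz : Rf2 ((6 : ℕ) : ℝ) .t6 (Poly p2_Z)
    (Poly p2_Z) v2_6zz :=
  rf2_of (C := fun z => 32 * z ^ 6 - 48 * z ^ 4 + 18 * z ^ 2 - 1) (U := fun z => 32 * z ^ 5 - 32 * z ^ 3 + 6 * z) cB6
    (ringFacts.ss 6 (by norm_num)) (poly_in (by decide)) (poly_in (by decide)) (one_in (by decide)) (one_in (by decide))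
    (starC_poly (one_in (by decide))) (starC_poly (one_in (by decide))) (rePS (by decide)) (rePS (by decide)) (by decide)
    (fun _ _ _ hz hk hl => fr2_6zz hz hk hl)
    (fun _ hz h h2 => box_polyU (x1 := 14481) (x2 := 14484) (y1 := 1140) (y2 := 1143)
      (by decide) (by exact_mod_cast stH6p11 hz (c_p11 (h2 rfl))))

theorem rf2_6zs : Rf2 ((6 : ℕ) : ℝ) .t6 (Poly p2_Z)
    (Poly p2_S3) v2_6zs :=
  rf2_of (C := fun z => 32 * z ^ 6 - 48 * z ^ 4 + 18 * z ^ 2 - 1) (U := fun z => 32 * z ^ 5 - 32 * z ^ 3 + 6 * z) cB6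
    (ringFacts.ss 6 (by norm_num)) (poly_in (by decide)) (poly_in (by decide)) (one_in (by decide)) (kst_in (by decide))
    (starC_poly (one_in (by decide))) (starC_poly (kst_in (by decide))) (rePS (by decide)) (rePS (by decide)) (by decide)
    (fun _ _ _ hz hk hl => fr2_6zs hz hk hl)
    (fun _ hz h h2 => box_polyU (x1 := 14219) (x2 := 14222) (y1 := 1259) (y2 := 1262)
      (by decide) (by exact_mod_cast stH6p1k hz (c_p1k h)))

theorem rf2_6ss : Rf2 ((6 : ℕ) : ℝ) .t6 (Poly p2_S3)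
    (Poly p2_S3) v2_6ss :=
  rf2_of (C := fun z => 32 * z ^ 6 - 48 * z ^ 4 + 18 * z ^ 2 - 1) (U := fun z => 32 * z ^ 5 - 32 * z ^ 3 + 6 * z) cB6
    (ringFacts.ss 6 (by norm_num)) (poly_in (by decide)) (poly_in (by decide)) (kst_in (by decide)) (kst_in (by decide))
    (starC_poly (kst_in (by decide))) (starC_poly (kst_in (by decide))) (rePS (by decide)) (rePS (by decide)) (by decide)
    (fun _ _ _ hz hk hl => fr2_6ss hz hk hl)
    (fun _ hz h h2 => box_polyU (x1 := 13896) (x2 := 13899) (y1 := 1393) (y2 := 1396)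
      (by decide) (by exact_mod_cast stH6pkk hz (c_pkk (h2 rfl))))

theorem rf2_7ea : Rf1 ((7 : ℕ) : ℝ) .t7 (frS (-1) (Poly p2_A2)) v2_7ea :=
  rf1_of (C := fun z => 64 * z ^ 7 - 112 * z ^ 5 + 56 * z ^ 3 - 7 * z) (U := fun z => 64 * z ^ 6 - 80 * z ^ 4 + 24 * z ^ 2 - 1) cB7
    (ringFacts.end_a 7 (by norm_num)) (frS_mono (poly_in (by decide))) (one_inF (by decide)) (starC_frS (starC_poly (one_in (by decide)))) (rePF (by decide)) (by decide)
    (fun _ _ hz hk => fr2_7ea hz (memF hk))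
    (fun _ hz h => box_polyU (x1 := 14514) (x2 := 14517) (y1 := 438) (y2 := 441)
      (by decide) (by exact_mod_cast stH7o1 hz h))

theorem rf2_7ez : Rf1 ((7 : ℕ) : ℝ) .t7 (Poly p2_Z) v2_7ez :=
  rf1_of (C := fun z => 64 * z ^ 7 - 112 * z ^ 5 + 56 * z ^ 3 - 7 * z) (U := fun z => 64 * z ^ 6 - 80 * z ^ 4 + 24 * z ^ 2 - 1) cB7
    (ringFacts.end_s 7 (by norm_num)) (poly_in (by decide)) (one_in (by decide)) (starC_poly (one_in (by decide))) (rePS (by decide)) (by decide)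
    (fun _ _ hz hk => fr2_7ez hz hk)
    (fun _ hz h => box_polyU (x1 := 14514) (x2 := 14517) (y1 := 438) (y2 := 441)
      (by decide) (by exact_mod_cast stH7o1 hz h))

theorem rf2_7es : Rf1 ((7 : ℕ) : ℝ) .t7 (Poly p2_S3) v2_7es :=
  rf1_of (C := fun z => 64 * z ^ 7 - 112 * z ^ 5 + 56 * z ^ 3 - 7 * z) (U := fun z => 64 * z ^ 6 - 80 * z ^ 4 + 24 * z ^ 2 - 1) cB7
    (ringFacts.end_s 7 (by norm_num)) (poly_in (by decide)) (kst_in (by decide)) (starC_poly (kst_in (by decide))) (rePS (by decide)) (by decide)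
    (fun _ _ hz hk => fr2_7es hz hk)
    (fun _ hz h => box_polyU (x1 := 14298) (x2 := 14301) (y1 := 411) (y2 := 414)
      (by decide) (by exact_mod_cast stH7ok hz (c_ok h)))

theorem rf2_7aa : Rf2 ((7 : ℕ) : ℝ) .t7 (frS (-1) (Poly p2_A2))
    (frS (-1) (Poly p2_A2)) v2_7aa :=
  rf2_of (C := fun z => 64 * z ^ 7 - 112 * z ^ 5 + 56 * z ^ 3 - 7 * z) (U := fun z => 64 * z ^ 6 - 80 * z ^ 4 + 24 * z ^ 2 - 1) cB7
    (ringFacts.aa 7 (by norm_num)) (frS_mono (poly_in (by decide))) (frS_mono (poly_in (by decide))) (one_inF (by decide)) (one_inF (by decide))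
    (starC_frS (starC_poly (one_in (by decide)))) (starC_frS (starC_poly (one_in (by decide)))) (rePF (by decide)) (rePF (by decide)) (by decide)
    (fun _ _ _ hz hk hl => fr2_7aa hz (memF hk) (memF hl))
    (fun _ hz h h2 => box_polyU (x1 := 14769) (x2 := 14772) (y1 := 769) (y2 := 772)
      (by decide) (by exact_mod_cast stH7p11 hz (c_p11 (h2 rfl))))

theorem rf2_7az : Rf2 ((7 : ℕ) : ℝ) .t7 (frS (-1) (Poly p2_A2))
    (Poly p2_Z) v2_7az :=
  rf2_of (C := fun z => 64 * z ^ 7 - 112 * z ^ 5 + 56 * z ^ 3 - 7 * z) (U := fun z => 64 * z ^ 6 - 80 * z ^ 4 + 24 * z ^ 2 - 1) cB7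
    (ringFacts.as3 7 (by norm_num)) (frS_mono (poly_in (by decide))) (poly_in (by decide)) (one_inF (by decide)) (one_in (by decide))
    (starC_frS (starC_poly (one_in (by decide)))) (starC_poly (one_in (by decide))) (rePF (by decide)) (rePS (by decide)) (by decide)
    (fun _ _ _ hz hk hl => fr2_7az hz (memF hk) hl)
    (fun _ hz h h2 => box_polyU (x1 := 14769) (x2 := 14772) (y1 := 769) (y2 := 772)
      (by decide) (by exact_mod_cast stH7p11 hz (c_p11 (h2 rfl))))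

theorem rf2_7as : Rf2 ((7 : ℕ) : ℝ) .t7 (frS (-1) (Poly p2_A2))
    (Poly p2_S3) v2_7as :=
  rf2_of (C := fun z => 64 * z ^ 7 - 112 * z ^ 5 + 56 * z ^ 3 - 7 * z) (U := fun z => 64 * z ^ 6 - 80 * z ^ 4 + 24 * z ^ 2 - 1) cB7
    (ringFacts.as3 7 (by norm_num)) (frS_mono (poly_in (by decide))) (poly_in (by decide)) (one_inF (by decide)) (kst_in (by decide))
    (starC_frS (starC_poly (one_in (by decide)))) (starC_poly (kst_in (by decide))) (rePF (by decide)) (rePS (by decide)) (by decide)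
    (fun _ _ _ hz hk hl => fr2_7as hz (memF hk) hl)
    (fun _ hz h h2 => box_polyU (x1 := 14583) (x2 := 14586) (y1 := 824) (y2 := 827)
      (by decide) (by exact_mod_cast stH7p1k hz (c_p1k h)))

theorem rf2_7zz : Rf2 ((7 : ℕ) : ℝ) .t7 (Poly p2_Z)
    (Poly p2_Z) v2_7zz :=
  rf2_of (C := fun z => 64 * z ^ 7 - 112 * z ^ 5 + 56 * z ^ 3 - 7 * z) (U := fun z => 64 * z ^ 6 - 80 * z ^ 4 + 24 * z ^ 2 - 1) cB7
    (ringFacts.ss 7 (by norm_num)) (poly_in (by decide)) (poly_in (by decide)) (one_in (by decide)) (one_in (by decide))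
    (starC_poly (one_in (by decide))) (starC_poly (one_in (by decide))) (rePS (by decide)) (rePS (by decide)) (by decide)
    (fun _ _ _ hz hk hl => fr2_7zz hz hk hl)
    (fun _ hz h h2 => box_polyU (x1 := 14769) (x2 := 14772) (y1 := 769) (y2 := 772)
      (by decide) (by exact_mod_cast stH7p11 hz (c_p11 (h2 rfl))))

theorem rf2_7zs : Rf2 ((7 : ℕ) : ℝ) .t7 (Poly p2_Z)
    (Poly p2_S3) v2_7zs :=
  rf2_of (C := fun z => 64 * z ^ 7 - 112 * z ^ 5 + 56 * z ^ 3 - 7 * z) (U := fun z => 64 * z ^ 6 - 80 * z ^ 4 + 24 * z ^ 2 - 1) cB7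
    (ringFacts.ss 7 (by norm_num)) (poly_in (by decide)) (poly_in (by decide)) (one_in (by decide)) (kst_in (by decide))
    (starC_poly (one_in (by decide))) (starC_poly (kst_in (by decide))) (rePS (by decide)) (rePS (by decide)) (by decide)
    (fun _ _ _ hz hk hl => fr2_7zs hz hk hl)
    (fun _ hz h h2 => box_polyU (x1 := 14583) (x2 := 14586) (y1 := 824) (y2 := 827)
      (by decide) (by exact_mod_cast stH7p1k hz (c_p1k h)))

theorem rf2_7ss : Rf2 ((7 : ℕ) : ℝ) .t7 (Poly p2_S3)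
    (Poly p2_S3) v2_7ss :=
  rf2_of (C := fun z => 64 * z ^ 7 - 112 * z ^ 5 + 56 * z ^ 3 - 7 * z) (U := fun z => 64 * z ^ 6 - 80 * z ^ 4 + 24 * z ^ 2 - 1) cB7
    (ringFacts.ss 7 (by norm_num)) (poly_in (by decide)) (poly_in (by decide)) (kst_in (by decide)) (kst_in (by decide))
    (starC_poly (kst_in (by decide))) (starC_poly (kst_in (by decide))) (rePS (by decide)) (rePS (by decide)) (by decide)
    (fun _ _ _ hz hk hl => fr2_7ss hz hk hl)
    (fun _ hz h h2 => box_polyU (x1 := 14358) (x2 := 14361) (y1 := 882) (y2 := 885)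
      (by decide) (by exact_mod_cast stH7pkk hz (c_pkk (h2 rfl))))

/-! ### round 3 -/

theorem rf3_2ea : Rf1 ((2 : ℕ) : ℝ) .t2e (frS (-1) (Poly p3_A2)) v3_2ea :=
  rf1_of (C := fun z => 2 * z ^ 2 - 1) (U := fun z => 2 * z) cB2
    (ringFacts.end_a 2 (by norm_num)) (frS_mono (poly_in (by decide))) (one_inF (by decide)) (starC_frS (starC_poly (one_in (by decide)))) (rePF (by decide)) (by decide)
    (fun _ _ hz hk => fr3_2ea hz (memF hk))
    (fun _ hz h => box_polyU (x1 := 7999) (x2 := 8002) (y1 := 7999) (y2 := 8002)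
      (by decide) (by exact_mod_cast stH2eo1 hz h))

theorem rf3_2aa : Rf2 ((2 : ℕ) : ℝ) .t2aa (frS (-1) (Poly p3_A2))
    (frS (-1) (Poly p3_A2)) v3_2aa :=
  rf2_of (C := fun z => 2 * z ^ 2 - 1) (U := fun z => 2 * z) cB2
    (ringFacts.aa 2 (by norm_num)) (frS_mono (poly_in (by decide))) (frS_mono (poly_in (by decide))) (one_inF (by decide)) (one_inF (by decide))
    (starC_frS (starC_poly (one_in (by decide)))) (starC_frS (starC_poly (one_in (by decide)))) (rePF (by decide)) (rePF (by decide)) (by decide)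
    (fun _ _ _ hz hk hl => fr3_2aa hz (memF hk) (memF hl))
    (fun _ hz h h2 => box_polyU (x1 := 13855) (x2 := 13858) (y1 := 7999) (y2 := 8002)
      (by decide) (by exact_mod_cast stH2aap11 hz (c_p11 (h2 rfl))))

theorem rf3_2as : Rf2 ((2 : ℕ) : ℝ) .t2as (frS (-1) (Poly p3_A1))
    (Poly p3_ST) v3_2as :=
  rf2_of (C := fun z => 2 * z ^ 2 - 1) (U := fun z => 2 * z) cB2
    (by exact_mod_cast ringFacts.as2) (frS_mono (poly_in (by decide))) (poly_in (by decide)) (one_inF (by decide)) (one_in (by decide))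
    (starC_frS (starC_poly (one_in (by decide)))) (starC_poly (one_in (by decide))) (rePF (by decide)) (rePS (by decide)) (by decide)
    (fun _ _ _ hz hk hl => fr3_2as hz (memF hk) hl)
    (fun _ hz h h2 => box_polyU (x1 := 13855) (x2 := 13858) (y1 := 7999) (y2 := 8002)
      (by decide) (by exact_mod_cast stH2asp11 hz (c_p11 (h2 rfl))))

theorem rf3_3ea : Rf1 ((3 : ℕ) : ℝ) .t3ae (frS (-1) (Poly p3_A2)) v3_3ea :=
  rf1_of (C := fun z => 4 * z ^ 3 - 3 * z) (U := fun z => 4 * z ^ 2 - 1) cB3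
    (ringFacts.end_a 3 (by norm_num)) (frS_mono (poly_in (by decide))) (one_inF (by decide)) (starC_frS (starC_poly (one_in (by decide)))) (rePF (by decide)) (by decide)
    (fun _ _ hz hk => fr3_3ea hz (memF hk))
    (fun _ hz h => box_polyU (x1 := 10582) (x2 := 10585) (y1 := 3999) (y2 := 4002)
      (by decide) (by exact_mod_cast stH3aeo1 hz h))

theorem rf3_3es : Rf1 ((3 : ℕ) : ℝ) .t3se (Poly p3_S2) v3_3es :=
  rf1_of (C := fun z => 4 * z ^ 3 - 3 * z) (U := fun z => 4 * z ^ 2 - 1) cB3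
    (ringFacts.end_s 3 (by norm_num)) (poly_in (by decide)) (one_in (by decide)) (starC_poly (one_in (by decide))) (rePS (by decide)) (by decide)
    (fun _ _ hz hk => fr3_3es hz hk)
    (fun _ hz h => box_polyU (x1 := 10582) (x2 := 10585) (y1 := 3999) (y2 := 4002)
      (by decide) (by exact_mod_cast stH3seo1 hz h))

theorem rf3_3aa : Rf2 ((3 : ℕ) : ℝ) .t3aa (frS (-1) (Poly p3_A2))
    (frS (-1) (Poly p3_A2)) v3_3aa :=
  rf2_of (C := fun z => 4 * z ^ 3 - 3 * z) (U := fun z => 4 * z ^ 2 - 1) cB3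
    (ringFacts.aa 3 (by norm_num)) (frS_mono (poly_in (by decide))) (frS_mono (poly_in (by decide))) (one_inF (by decide)) (one_inF (by decide))
    (starC_frS (starC_poly (one_in (by decide)))) (starC_frS (starC_poly (one_in (by decide)))) (rePF (by decide)) (rePF (by decide)) (by decide)
    (fun _ _ _ hz hk hl => fr3_3aa hz (memF hk) (memF hl))
    (fun _ hz h h2 => box_polyU (x1 := 13550) (x2 := 13553) (y1 := 4648) (y2 := 4651)
      (by decide) (by exact_mod_cast stH3aap11 hz (c_p11 (h2 rfl))))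

theorem rf3_3as : Rf2 ((3 : ℕ) : ℝ) .t3as (frS (-1) (Poly p3_A2))
    (Poly p3_S2) v3_3as :=
  rf2_of (C := fun z => 4 * z ^ 3 - 3 * z) (U := fun z => 4 * z ^ 2 - 1) cB3
    (ringFacts.as3 3 (by norm_num)) (frS_mono (poly_in (by decide))) (poly_in (by decide)) (one_inF (by decide)) (one_in (by decide))
    (starC_frS (starC_poly (one_in (by decide)))) (starC_poly (one_in (by decide))) (rePF (by decide)) (rePS (by decide)) (by decide)
    (fun _ _ _ hz hk hl => fr3_3as hz (memF hk) hl)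
    (fun _ hz h h2 => box_polyU (x1 := 13550) (x2 := 13553) (y1 := 4648) (y2 := 4651)
      (by decide) (by exact_mod_cast stH3asp11 hz (c_p11 (h2 rfl))))

theorem rf3_3ss : Rf2 ((3 : ℕ) : ℝ) .t3ss (Poly p3_S2)
    (Poly p3_S2) v3_3ss :=
  rf2_of (C := fun z => 4 * z ^ 3 - 3 * z) (U := fun z => 4 * z ^ 2 - 1) cB3
    (ringFacts.ss 3 (by norm_num)) (poly_in (by decide)) (poly_in (by decide)) (one_in (by decide)) (one_in (by decide))
    (starC_poly (one_in (by decide))) (starC_poly (one_in (by decide))) (rePS (by decide)) (rePS (by decide)) (by decide)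
    (fun _ _ _ hz hk hl => fr3_3ss hz hk hl)
    (fun _ hz h h2 => box_polyU (x1 := 13550) (x2 := 13553) (y1 := 4648) (y2 := 4651)
      (by decide) (by exact_mod_cast stH3ssp11 hz (c_p11 (h2 rfl))))

theorem rf3_4ea : Rf1 ((4 : ℕ) : ℝ) .t4 (frS (-1) (Poly p3_A2)) v3_4ea :=
  rf1_of (C := fun z => 8 * z ^ 4 - 8 * z ^ 2 + 1) (U := fun z => 8 * z ^ 3 - 4 * z) cB4
    (ringFacts.end_a 4 (by norm_num)) (frS_mono (poly_in (by decide))) (one_inF (by decide)) (starC_frS (starC_poly (one_in (by decide)))) (rePF (by decide)) (by decide)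
    (fun _ _ hz hk => fr3_4ea hz (memF hk))
    (fun _ hz h => box_polyU (x1 := 12231) (x2 := 12234) (y1 := 2055) (y2 := 2058)
      (by decide) (by exact_mod_cast stH4o1 hz h))

theorem rf3_4ez : Rf1 ((4 : ℕ) : ℝ) .t4 (Poly p3_Z) v3_4ez :=
  rf1_of (C := fun z => 8 * z ^ 4 - 8 * z ^ 2 + 1) (U := fun z => 8 * z ^ 3 - 4 * z) cB4
    (ringFacts.end_s 4 (by norm_num)) (poly_in (by decide)) (one_in (by decide)) (starC_poly (one_in (by decide))) (rePS (by decide)) (by decide)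
    (fun _ _ hz hk => fr3_4ez hz hk)
    (fun _ hz h => box_polyU (x1 := 12231) (x2 := 12234) (y1 := 2055) (y2 := 2058)
      (by decide) (by exact_mod_cast stH4o1 hz h))

theorem rf3_4es : Rf1 ((4 : ℕ) : ℝ) .t4 (Poly p3_S3) v3_4es :=
  rf1_of (C := fun z => 8 * z ^ 4 - 8 * z ^ 2 + 1) (U := fun z => 8 * z ^ 3 - 4 * z) cB4
    (ringFacts.end_s 4 (by norm_num)) (poly_in (by decide)) (kst_in (by decide)) (starC_poly (kst_in (by decide))) (rePS (by decide)) (by decide)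
    (fun _ _ hz hk => fr3_4es hz hk)
    (fun _ hz h => box_polyU (x1 := 11333) (x2 := 11336) (y1 := 2286) (y2 := 2289)
      (by decide) (by exact_mod_cast stH4ok hz (c_ok h)))

theorem rf3_4aa : Rf2 ((4 : ℕ) : ℝ) .t4 (frS (-1) (Poly p3_A2))
    (frS (-1) (Poly p3_A2)) v3_4aa :=
  rf2_of (C := fun z => 8 * z ^ 4 - 8 * z ^ 2 + 1) (U := fun z => 8 * z ^ 3 - 4 * z) cB4
    (ringFacts.aa 4 (by norm_num)) (frS_mono (poly_in (by decide))) (frS_mono (poly_in (by decide))) (one_inF (by decide)) (one_inF (by decide))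
    (starC_frS (starC_poly (one_in (by decide)))) (starC_frS (starC_poly (one_in (by decide)))) (rePF (by decide)) (rePF (by decide)) (by decide)
    (fun _ _ _ hz hk hl => fr3_4aa hz (memF hk) (memF hl))
    (fun _ hz h h2 => box_polyU (x1 := 13770) (x2 := 13773) (y1 := 2816) (y2 := 2819)
      (by decide) (by exact_mod_cast stH4p11 hz (c_p11 (h2 rfl))))

theorem rf3_4az : Rf2 ((4 : ℕ) : ℝ) .t4 (frS (-1) (Poly p3_A2))
    (Poly p3_Z) v3_4az :=
  rf2_of (C := fun z => 8 * z ^ 4 - 8 * z ^ 2 + 1) (U := fun z => 8 * z ^ 3 - 4 * z) cB4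
    (ringFacts.as3 4 (by norm_num)) (frS_mono (poly_in (by decide))) (poly_in (by decide)) (one_inF (by decide)) (one_in (by decide))
    (starC_frS (starC_poly (one_in (by decide)))) (starC_poly (one_in (by decide))) (rePF (by decide)) (rePS (by decide)) (by decide)
    (fun _ _ _ hz hk hl => fr3_4az hz (memF hk) hl)
    (fun _ hz h h2 => box_polyU (x1 := 13770) (x2 := 13773) (y1 := 2816) (y2 := 2819)
      (by decide) (by exact_mod_cast stH4p11 hz (c_p11 (h2 rfl))))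

theorem rf3_4as : Rf2 ((4 : ℕ) : ℝ) .t4 (frS (-1) (Poly p3_A2))
    (Poly p3_S3) v3_4as :=
  rf2_of (C := fun z => 8 * z ^ 4 - 8 * z ^ 2 + 1) (U := fun z => 8 * z ^ 3 - 4 * z) cB4
    (ringFacts.as3 4 (by norm_num)) (frS_mono (poly_in (by decide))) (poly_in (by decide)) (one_inF (by decide)) (kst_in (by decide))
    (starC_frS (starC_poly (one_in (by decide)))) (starC_poly (kst_in (by decide))) (rePF (by decide)) (rePS (by decide)) (by decide)
    (fun _ _ _ hz hk hl => fr3_4as hz (memF hk) hl)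
    (fun _ hz h h2 => box_polyU (x1 := 13280) (x2 := 13283) (y1 := 3307) (y2 := 3310)
      (by decide) (by exact_mod_cast stH4p1k hz (c_p1k h)))

theorem rf3_4zz : Rf2 ((4 : ℕ) : ℝ) .t4 (Poly p3_Z)
    (Poly p3_Z) v3_4zz :=
  rf2_of (C := fun z => 8 * z ^ 4 - 8 * z ^ 2 + 1) (U := fun z => 8 * z ^ 3 - 4 * z) cB4
    (ringFacts.ss 4 (by norm_num)) (poly_in (by decide)) (poly_in (by decide)) (one_in (by decide)) (one_in (by decide))
    (starC_poly (one_in (by decide))) (starC_poly (one_in (by decide))) (rePS (by decide)) (rePS (by decide)) (by decide)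
    (fun _ _ _ hz hk hl => fr3_4zz hz hk hl)
    (fun _ hz h h2 => box_polyU (x1 := 13770) (x2 := 13773) (y1 := 2816) (y2 := 2819)
      (by decide) (by exact_mod_cast stH4p11 hz (c_p11 (h2 rfl))))

theorem rf3_4ss : Rf2 ((4 : ℕ) : ℝ) .t4 (Poly p3_S2)
    (Poly p3_S2) v3_4ss :=
  rf2_of (C := fun z => 8 * z ^ 4 - 8 * z ^ 2 + 1) (U := fun z => 8 * z ^ 3 - 4 * z) cB4
    (ringFacts.ss 4 (by norm_num)) (poly_in (by decide)) (poly_in (by decide)) (one_in (by decide)) (one_in (by decide))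
    (starC_poly (one_in (by decide))) (starC_poly (one_in (by decide))) (rePS (by decide)) (rePS (by decide)) (by decide)
    (fun _ _ _ hz hk hl => fr3_4ss hz hk hl)
    (fun _ hz h h2 => box_polyU (x1 := 13770) (x2 := 13773) (y1 := 2816) (y2 := 2819)
      (by decide) (by exact_mod_cast stH4p11 hz (c_p11 (h2 rfl))))

theorem rf3_5ea : Rf1 ((5 : ℕ) : ℝ) .t5 (frS (-1) (Poly p3_A2)) v3_5ea :=
  rf1_of (C := fun z => 16 * z ^ 5 - 20 * z ^ 3 + 5 * z) (U := fun z => 16 * z ^ 4 - 12 * z ^ 2 + 1) cB5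
    (ringFacts.end_a 5 (by norm_num)) (frS_mono (poly_in (by decide))) (one_inF (by decide)) (starC_frS (starC_poly (one_in (by decide)))) (rePF (by decide)) (by decide)
    (fun _ _ hz hk => fr3_5ea hz (memF hk))
    (fun _ hz h => box_polyU (x1 := 13328) (x2 := 13331) (y1 := 1138) (y2 := 1141)
      (by decide) (by exact_mod_cast stH5o1 hz h))

theorem rf3_5ez : Rf1 ((5 : ℕ) : ℝ) .t5 (Poly p3_Z) v3_5ez :=
  rf1_of (C := fun z => 16 * z ^ 5 - 20 * z ^ 3 + 5 * z) (U := fun z => 16 * z ^ 4 - 12 * z ^ 2 + 1) cB5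
    (ringFacts.end_s 5 (by norm_num)) (poly_in (by decide)) (one_in (by decide)) (starC_poly (one_in (by decide))) (rePS (by decide)) (by decide)
    (fun _ _ hz hk => fr3_5ez hz hk)
    (fun _ hz h => box_polyU (x1 := 13328) (x2 := 13331) (y1 := 1138) (y2 := 1141)
      (by decide) (by exact_mod_cast stH5o1 hz h))

theorem rf3_5es : Rf1 ((5 : ℕ) : ℝ) .t5 (Poly p3_S3) v3_5es :=
  rf1_of (C := fun z => 16 * z ^ 5 - 20 * z ^ 3 + 5 * z) (U := fun z => 16 * z ^ 4 - 12 * z ^ 2 + 1) cB5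
    (ringFacts.end_s 5 (by norm_num)) (poly_in (by decide)) (kst_in (by decide)) (starC_poly (kst_in (by decide))) (rePS (by decide)) (by decide)
    (fun _ _ hz hk => fr3_5es hz hk)
    (fun _ hz h => box_polyU (x1 := 12782) (x2 := 12785) (y1 := 1184) (y2 := 1187)
      (by decide) (by exact_mod_cast stH5ok hz (c_ok h)))

theorem rf3_5aa : Rf2 ((5 : ℕ) : ℝ) .t5 (frS (-1) (Poly p3_A2))
    (frS (-1) (Poly p3_A2)) v3_5aa :=
  rf2_of (C := fun z => 16 * z ^ 5 - 20 * z ^ 3 + 5 * z) (U := fun z => 16 * z ^ 4 - 12 * z ^ 2 + 1) cB5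
    (ringFacts.aa 5 (by norm_num)) (frS_mono (poly_in (by decide))) (frS_mono (poly_in (by decide))) (one_inF (by decide)) (one_inF (by decide))
    (starC_frS (starC_poly (one_in (by decide)))) (starC_frS (starC_poly (one_in (by decide)))) (rePF (by decide)) (rePF (by decide)) (by decide)
    (fun _ _ _ hz hk hl => fr3_5aa hz (memF hk) (memF hl))
    (fun _ hz h h2 => box_polyU (x1 := 14132) (x2 := 14135) (y1 := 1759) (y2 := 1762)
      (by decide) (by exact_mod_cast stH5p11 hz (c_p11 (h2 rfl))))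

theorem rf3_5az : Rf2 ((5 : ℕ) : ℝ) .t5 (frS (-1) (Poly p3_A2))
    (Poly p3_Z) v3_5az :=
  rf2_of (C := fun z => 16 * z ^ 5 - 20 * z ^ 3 + 5 * z) (U := fun z => 16 * z ^ 4 - 12 * z ^ 2 + 1) cB5
    (ringFacts.as3 5 (by norm_num)) (frS_mono (poly_in (by decide))) (poly_in (by decide)) (one_inF (by decide)) (one_in (by decide))
    (starC_frS (starC_poly (one_in (by decide)))) (starC_poly (one_in (by decide))) (rePF (by decide)) (rePS (by decide)) (by decide)
    (fun _ _ _ hz hk hl => fr3_5az hz (memF hk) hl)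
    (fun _ hz h h2 => box_polyU (x1 := 14132) (x2 := 14135) (y1 := 1759) (y2 := 1762)
      (by decide) (by exact_mod_cast stH5p11 hz (c_p11 (h2 rfl))))

theorem rf3_5as : Rf2 ((5 : ℕ) : ℝ) .t5 (frS (-1) (Poly p3_A2))
    (Poly p3_S3) v3_5as :=
  rf2_of (C := fun z => 16 * z ^ 5 - 20 * z ^ 3 + 5 * z) (U := fun z => 16 * z ^ 4 - 12 * z ^ 2 + 1) cB5
    (ringFacts.as3 5 (by norm_num)) (frS_mono (poly_in (by decide))) (poly_in (by decide)) (one_inF (by decide)) (kst_in (by decide))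
    (starC_frS (starC_poly (one_in (by decide)))) (starC_poly (kst_in (by decide))) (rePF (by decide)) (rePS (by decide)) (by decide)
    (fun _ _ _ hz hk hl => fr3_5as hz (memF hk) hl)
    (fun _ hz h h2 => box_polyU (x1 := 13768) (x2 := 13771) (y1 := 2005) (y2 := 2008)
      (by decide) (by exact_mod_cast stH5p1k hz (c_p1k h)))

theorem rf3_5zz : Rf2 ((5 : ℕ) : ℝ) .t5 (Poly p3_Z)
    (Poly p3_Z) v3_5zz :=
  rf2_of (C := fun z => 16 * z ^ 5 - 20 * z ^ 3 + 5 * z) (U := fun z => 16 * z ^ 4 - 12 * z ^ 2 + 1) cB5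
    (ringFacts.ss 5 (by norm_num)) (poly_in (by decide)) (poly_in (by decide)) (one_in (by decide)) (one_in (by decide))
    (starC_poly (one_in (by decide))) (starC_poly (one_in (by decide))) (rePS (by decide)) (rePS (by decide)) (by decide)
    (fun _ _ _ hz hk hl => fr3_5zz hz hk hl)
    (fun _ hz h h2 => box_polyU (x1 := 14132) (x2 := 14135) (y1 := 1759) (y2 := 1762)
      (by decide) (by exact_mod_cast stH5p11 hz (c_p11 (h2 rfl))))

theorem rf3_5zs : Rf2 ((5 : ℕ) : ℝ) .t5 (Poly p3_Z)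
    (Poly p3_S3) v3_5zs :=
  rf2_of (C := fun z => 16 * z ^ 5 - 20 * z ^ 3 + 5 * z) (U := fun z => 16 * z ^ 4 - 12 * z ^ 2 + 1) cB5
    (ringFacts.ss 5 (by norm_num)) (poly_in (by decide)) (poly_in (by decide)) (one_in (by decide)) (kst_in (by decide))
    (starC_poly (one_in (by decide))) (starC_poly (kst_in (by decide))) (rePS (by decide)) (rePS (by decide)) (by decide)
    (fun _ _ _ hz hk hl => fr3_5zs hz hk hl)
    (fun _ hz h h2 => box_polyU (x1 := 13768) (x2 := 13771) (y1 := 2005) (y2 := 2008)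
      (by decide) (by exact_mod_cast stH5p1k hz (c_p1k h)))

theorem rf3_5ss : Rf2 ((5 : ℕ) : ℝ) .t5 (Poly p3_S3)
    (Poly p3_S3) v3_5ss :=
  rf2_of (C := fun z => 16 * z ^ 5 - 20 * z ^ 3 + 5 * z) (U := fun z => 16 * z ^ 4 - 12 * z ^ 2 + 1) cB5
    (ringFacts.ss 5 (by norm_num)) (poly_in (by decide)) (poly_in (by decide)) (kst_in (by decide)) (kst_in (by decide))
    (starC_poly (kst_in (by decide))) (starC_poly (kst_in (by decide))) (rePS (by decide)) (rePS (by decide)) (by decide)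
    (fun _ _ _ hz hk hl => fr3_5ss hz hk hl)
    (fun _ hz h h2 => box_polyU (x1 := 13313) (x2 := 13316) (y1 := 2295) (y2 := 2298)
      (by decide) (by exact_mod_cast stH5pkk hz (c_pkk (h2 rfl))))

theorem rf3_6ea : Rf1 ((6 : ℕ) : ℝ) .t6 (frS (-1) (Poly p3_A2)) v3_6ea :=
  rf1_of (C := fun z => 32 * z ^ 6 - 48 * z ^ 4 + 18 * z ^ 2 - 1) (U := fun z => 32 * z ^ 5 - 32 * z ^ 3 + 6 * z) cB6
    (ringFacts.end_a 6 (by norm_num)) (frS_mono (poly_in (by decide))) (one_inF (by decide)) (starC_frS (starC_poly (one_in (by decide)))) (rePF (by decide)) (by decide)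
    (fun _ _ hz hk => fr3_6ea hz (memF hk))
    (fun _ hz h => box_polyU (x1 := 14041) (x2 := 14044) (y1 := 682) (y2 := 685)
      (by decide) (by exact_mod_cast stH6o1 hz h))

theorem rf3_6ez : Rf1 ((6 : ℕ) : ℝ) .t6 (Poly p3_Z) v3_6ez :=
  rf1_of (C := fun z => 32 * z ^ 6 - 48 * z ^ 4 + 18 * z ^ 2 - 1) (U := fun z => 32 * z ^ 5 - 32 * z ^ 3 + 6 * z) cB6
    (ringFacts.end_s 6 (by norm_num)) (poly_in (by decide)) (one_in (by decide)) (starC_poly (one_in (by decide))) (rePS (by decide)) (by decide)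
    (fun _ _ hz hk => fr3_6ez hz hk)
    (fun _ hz h => box_polyU (x1 := 14041) (x2 := 14044) (y1 := 682) (y2 := 685)
      (by decide) (by exact_mod_cast stH6o1 hz h))

theorem rf3_6es : Rf1 ((6 : ℕ) : ℝ) .t6 (Poly p3_S3) v3_6es :=
  rf1_of (C := fun z => 32 * z ^ 6 - 48 * z ^ 4 + 18 * z ^ 2 - 1) (U := fun z => 32 * z ^ 5 - 32 * z ^ 3 + 6 * z) cB6
    (ringFacts.end_s 6 (by norm_num)) (poly_in (by decide)) (kst_in (by decide)) (starC_poly (kst_in (by decide))) (rePS (by decide)) (by decide)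
    (fun _ _ hz hk => fr3_6es hz hk)
    (fun _ hz h => box_polyU (x1 := 13705) (x2 := 13708) (y1 := 670) (y2 := 673)
      (by decide) (by exact_mod_cast stH6ok hz (c_ok h)))

theorem rf3_6aa : Rf2 ((6 : ℕ) : ℝ) .t6 (frS (-1) (Poly p3_A2))
    (frS (-1) (Poly p3_A2)) v3_6aa :=
  rf2_of (C := fun z => 32 * z ^ 6 - 48 * z ^ 4 + 18 * z ^ 2 - 1) (U := fun z => 32 * z ^ 5 - 32 * z ^ 3 + 6 * z) cB6
    (ringFacts.aa 6 (by norm_num)) (frS_mono (poly_in (by decide))) (frS_mono (poly_in (by decide))) (one_inF (by decide)) (one_inF (by decide))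
    (starC_frS (starC_poly (one_in (by decide)))) (starC_frS (starC_poly (one_in (by decide)))) (rePF (by decide)) (rePF (by decide)) (by decide)
    (fun _ _ _ hz hk hl => fr3_6aa hz (memF hk) (memF hl))
    (fun _ hz h h2 => box_polyU (x1 := 14481) (x2 := 14484) (y1 := 1140) (y2 := 1143)
      (by decide) (by exact_mod_cast stH6p11 hz (c_p11 (h2 rfl))))

theorem rf3_6az : Rf2 ((6 : ℕ) : ℝ) .t6 (frS (-1) (Poly p3_A2))
    (Poly p3_Z) v3_6az :=
  rf2_of (C := fun z => 32 * z ^ 6 - 48 * z ^ 4 + 18 * z ^ 2 - 1) (U := fun z => 32 * z ^ 5 - 32 * z ^ 3 + 6 * z) cB6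
    (ringFacts.as3 6 (by norm_num)) (frS_mono (poly_in (by decide))) (poly_in (by decide)) (one_inF (by decide)) (one_in (by decide))
    (starC_frS (starC_poly (one_in (by decide)))) (starC_poly (one_in (by decide))) (rePF (by decide)) (rePS (by decide)) (by decide)
    (fun _ _ _ hz hk hl => fr3_6az hz (memF hk) hl)
    (fun _ hz h h2 => box_polyU (x1 := 14481) (x2 := 14484) (y1 := 1140) (y2 := 1143)
      (by decide) (by exact_mod_cast stH6p11 hz (c_p11 (h2 rfl))))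

theorem rf3_6as : Rf2 ((6 : ℕ) : ℝ) .t6 (frS (-1) (Poly p3_A2))
    (Poly p3_S3) v3_6as :=
  rf2_of (C := fun z => 32 * z ^ 6 - 48 * z ^ 4 + 18 * z ^ 2 - 1) (U := fun z => 32 * z ^ 5 - 32 * z ^ 3 + 6 * z) cB6
    (ringFacts.as3 6 (by norm_num)) (frS_mono (poly_in (by decide))) (poly_in (by decide)) (one_inF (by decide)) (kst_in (by decide))
    (starC_frS (starC_poly (one_in (by decide)))) (starC_poly (kst_in (by decide))) (rePF (by decide)) (rePS (by decide)) (by decide)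
    (fun _ _ _ hz hk hl => fr3_6as hz (memF hk) hl)
    (fun _ hz h h2 => box_polyU (x1 := 14219) (x2 := 14222) (y1 := 1259) (y2 := 1262)
      (by decide) (by exact_mod_cast stH6p1k hz (c_p1k h)))

theorem rf3_6zz : Rf2 ((6 : ℕ) : ℝ) .t6 (Poly p3_Z)
    (Poly p3_Z) v3_6zz :=
  rf2_of (C := fun z => 32 * z ^ 6 - 48 * z ^ 4 + 18 * z ^ 2 - 1) (U := fun z => 32 * z ^ 5 - 32 * z ^ 3 + 6 * z) cB6
    (ringFacts.ss 6 (by norm_num)) (poly_in (by decide)) (poly_in (by decide)) (one_in (by decide)) (one_in (by decide))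
    (starC_poly (one_in (by decide))) (starC_poly (one_in (by decide))) (rePS (by decide)) (rePS (by decide)) (by decide)
    (fun _ _ _ hz hk hl => fr3_6zz hz hk hl)
    (fun _ hz h h2 => box_polyU (x1 := 14481) (x2 := 14484) (y1 := 1140) (y2 := 1143)
      (by decide) (by exact_mod_cast stH6p11 hz (c_p11 (h2 rfl))))

theorem rf3_6zs : Rf2 ((6 : ℕ) : ℝ) .t6 (Poly p3_Z)
    (Poly p3_S3) v3_6zs :=
  rf2_of (C := fun z => 32 * z ^ 6 - 48 * z ^ 4 + 18 * z ^ 2 - 1) (U := fun z => 32 * z ^ 5 - 32 * z ^ 3 + 6 * z) cB6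
    (ringFacts.ss 6 (by norm_num)) (poly_in (by decide)) (poly_in (by decide)) (one_in (by decide)) (kst_in (by decide))
    (starC_poly (one_in (by decide))) (starC_poly (kst_in (by decide))) (rePS (by decide)) (rePS (by decide)) (by decide)
    (fun _ _ _ hz hk hl => fr3_6zs hz hk hl)
    (fun _ hz h h2 => box_polyU (x1 := 14219) (x2 := 14222) (y1 := 1259) (y2 := 1262)
      (by decide) (by exact_mod_cast stH6p1k hz (c_p1k h)))

theorem rf3_6ss : Rf2 ((6 : ℕ) : ℝ) .t6 (Poly p3_S3)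
    (Poly p3_S3) v3_6ss :=
  rf2_of (C := fun z => 32 * z ^ 6 - 48 * z ^ 4 + 18 * z ^ 2 - 1) (U := fun z => 32 * z ^ 5 - 32 * z ^ 3 + 6 * z) cB6
    (ringFacts.ss 6 (by norm_num)) (poly_in (by decide)) (poly_in (by decide)) (kst_in (by decide)) (kst_in (by decide))
    (starC_poly (kst_in (by decide))) (starC_poly (kst_in (by decide))) (rePS (by decide)) (rePS (by decide)) (by decide)
    (fun _ _ _ hz hk hl => fr3_6ss hz hk hl)
    (fun _ hz h h2 => box_polyU (x1 := 13896) (x2 := 13899) (y1 := 1393) (y2 := 1396)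
      (by decide) (by exact_mod_cast stH6pkk hz (c_pkk (h2 rfl))))

theorem rf3_7ea : Rf1 ((7 : ℕ) : ℝ) .t7 (frS (-1) (Poly p3_A2)) v3_7ea :=
  rf1_of (C := fun z => 64 * z ^ 7 - 112 * z ^ 5 + 56 * z ^ 3 - 7 * z) (U := fun z => 64 * z ^ 6 - 80 * z ^ 4 + 24 * z ^ 2 - 1) cB7
    (ringFacts.end_a 7 (by norm_num)) (frS_mono (poly_in (by decide))) (one_inF (by decide)) (starC_frS (starC_poly (one_in (by decide)))) (rePF (by decide)) (by decide)
    (fun _ _ hz hk => fr3_7ea hz (memF hk))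
    (fun _ hz h => box_polyU (x1 := 14514) (x2 := 14517) (y1 := 438) (y2 := 441)
      (by decide) (by exact_mod_cast stH7o1 hz h))

theorem rf3_7ez : Rf1 ((7 : ℕ) : ℝ) .t7 (Poly p3_Z) v3_7ez :=
  rf1_of (C := fun z => 64 * z ^ 7 - 112 * z ^ 5 + 56 * z ^ 3 - 7 * z) (U := fun z => 64 * z ^ 6 - 80 * z ^ 4 + 24 * z ^ 2 - 1) cB7
    (ringFacts.end_s 7 (by norm_num)) (poly_in (by decide)) (one_in (by decide)) (starC_poly (one_in (by decide))) (rePS (by decide)) (by decide)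
    (fun _ _ hz hk => fr3_7ez hz hk)
    (fun _ hz h => box_polyU (x1 := 14514) (x2 := 14517) (y1 := 438) (y2 := 441)
      (by decide) (by exact_mod_cast stH7o1 hz h))

theorem rf3_7es : Rf1 ((7 : ℕ) : ℝ) .t7 (Poly p3_S3) v3_7es :=
  rf1_of (C := fun z => 64 * z ^ 7 - 112 * z ^ 5 + 56 * z ^ 3 - 7 * z) (U := fun z => 64 * z ^ 6 - 80 * z ^ 4 + 24 * z ^ 2 - 1) cB7
    (ringFacts.end_s 7 (by norm_num)) (poly_in (by decide)) (kst_in (by decide)) (starC_poly (kst_in (by decide))) (rePS (by decide)) (by decide)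
    (fun _ _ hz hk => fr3_7es hz hk)
    (fun _ hz h => box_polyU (x1 := 14298) (x2 := 14301) (y1 := 411) (y2 := 414)
      (by decide) (by exact_mod_cast stH7ok hz (c_ok h)))

theorem rf3_7aa : Rf2 ((7 : ℕ) : ℝ) .t7 (frS (-1) (Poly p3_A2))
    (frS (-1) (Poly p3_A2)) v3_7aa :=
  rf2_of (C := fun z => 64 * z ^ 7 - 112 * z ^ 5 + 56 * z ^ 3 - 7 * z) (U := fun z => 64 * z ^ 6 - 80 * z ^ 4 + 24 * z ^ 2 - 1) cB7
    (ringFacts.aa 7 (by norm_num)) (frS_mono (poly_in (by decide))) (frS_mono (poly_in (by decide))) (one_inF (by decide)) (one_inF (by decide))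
    (starC_frS (starC_poly (one_in (by decide)))) (starC_frS (starC_poly (one_in (by decide)))) (rePF (by decide)) (rePF (by decide)) (by decide)
    (fun _ _ _ hz hk hl => fr3_7aa hz (memF hk) (memF hl))
    (fun _ hz h h2 => box_polyU (x1 := 14769) (x2 := 14772) (y1 := 769) (y2 := 772)
      (by decide) (by exact_mod_cast stH7p11 hz (c_p11 (h2 rfl))))

theorem rf3_7az : Rf2 ((7 : ℕ) : ℝ) .t7 (frS (-1) (Poly p3_A2))
    (Poly p3_Z) v3_7az :=
  rf2_of (C := fun z => 64 * z ^ 7 - 112 * z ^ 5 + 56 * z ^ 3 - 7 * z) (U := fun z => 64 * z ^ 6 - 80 * z ^ 4 + 24 * z ^ 2 - 1) cB7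
    (ringFacts.as3 7 (by norm_num)) (frS_mono (poly_in (by decide))) (poly_in (by decide)) (one_inF (by decide)) (one_in (by decide))
    (starC_frS (starC_poly (one_in (by decide)))) (starC_poly (one_in (by decide))) (rePF (by decide)) (rePS (by decide)) (by decide)
    (fun _ _ _ hz hk hl => fr3_7az hz (memF hk) hl)
    (fun _ hz h h2 => box_polyU (x1 := 14769) (x2 := 14772) (y1 := 769) (y2 := 772)
      (by decide) (by exact_mod_cast stH7p11 hz (c_p11 (h2 rfl))))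

theorem rf3_7as : Rf2 ((7 : ℕ) : ℝ) .t7 (frS (-1) (Poly p3_A2))
    (Poly p3_S3) v3_7as :=
  rf2_of (C := fun z => 64 * z ^ 7 - 112 * z ^ 5 + 56 * z ^ 3 - 7 * z) (U := fun z => 64 * z ^ 6 - 80 * z ^ 4 + 24 * z ^ 2 - 1) cB7
    (ringFacts.as3 7 (by norm_num)) (frS_mono (poly_in (by decide))) (poly_in (by decide)) (one_inF (by decide)) (kst_in (by decide))
    (starC_frS (starC_poly (one_in (by decide)))) (starC_poly (kst_in (by decide))) (rePF (by decide)) (rePS (by decide)) (by decide)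
    (fun _ _ _ hz hk hl => fr3_7as hz (memF hk) hl)
    (fun _ hz h h2 => box_polyU (x1 := 14583) (x2 := 14586) (y1 := 824) (y2 := 827)
      (by decide) (by exact_mod_cast stH7p1k hz (c_p1k h)))

theorem rf3_7zz : Rf2 ((7 : ℕ) : ℝ) .t7 (Poly p3_Z)
    (Poly p3_Z) v3_7zz :=
  rf2_of (C := fun z => 64 * z ^ 7 - 112 * z ^ 5 + 56 * z ^ 3 - 7 * z) (U := fun z => 64 * z ^ 6 - 80 * z ^ 4 + 24 * z ^ 2 - 1) cB7
    (ringFacts.ss 7 (by norm_num)) (poly_in (by decide)) (poly_in (by decide)) (one_in (by decide)) (one_in (by decide))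
    (starC_poly (one_in (by decide))) (starC_poly (one_in (by decide))) (rePS (by decide)) (rePS (by decide)) (by decide)
    (fun _ _ _ hz hk hl => fr3_7zz hz hk hl)
    (fun _ hz h h2 => box_polyU (x1 := 14769) (x2 := 14772) (y1 := 769) (y2 := 772)
      (by decide) (by exact_mod_cast stH7p11 hz (c_p11 (h2 rfl))))

theorem rf3_7zs : Rf2 ((7 : ℕ) : ℝ) .t7 (Poly p3_Z)
    (Poly p3_S3) v3_7zs :=
  rf2_of (C := fun z => 64 * z ^ 7 - 112 * z ^ 5 + 56 * z ^ 3 - 7 * z) (U := fun z => 64 * z ^ 6 - 80 * z ^ 4 + 24 * z ^ 2 - 1) cB7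
    (ringFacts.ss 7 (by norm_num)) (poly_in (by decide)) (poly_in (by decide)) (one_in (by decide)) (kst_in (by decide))
    (starC_poly (one_in (by decide))) (starC_poly (kst_in (by decide))) (rePS (by decide)) (rePS (by decide)) (by decide)
    (fun _ _ _ hz hk hl => fr3_7zs hz hk hl)
    (fun _ hz h h2 => box_polyU (x1 := 14583) (x2 := 14586) (y1 := 824) (y2 := 827)
      (by decide) (by exact_mod_cast stH7p1k hz (c_p1k h)))

theorem rf3_7ss : Rf2 ((7 : ℕ) : ℝ) .t7 (Poly p3_S3)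
    (Poly p3_S3) v3_7ss :=
  rf2_of (C := fun z => 64 * z ^ 7 - 112 * z ^ 5 + 56 * z ^ 3 - 7 * z) (U := fun z => 64 * z ^ 6 - 80 * z ^ 4 + 24 * z ^ 2 - 1) cB7
    (ringFacts.ss 7 (by norm_num)) (poly_in (by decide)) (poly_in (by decide)) (kst_in (by decide)) (kst_in (by decide))
    (starC_poly (kst_in (by decide))) (starC_poly (kst_in (by decide))) (rePS (by decide)) (rePS (by decide)) (by decide)
    (fun _ _ _ hz hk hl => fr3_7ss hz hk hl)
    (fun _ hz h h2 => box_polyU (x1 := 14358) (x2 := 14361) (y1 := 882) (y2 := 885)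
      (by decide) (by exact_mod_cast stH7pkk hz (c_pkk (h2 rfl))))

end Pool.Agent.Work.MP_b30479_gtS.G2

end

section

/-!
# The three rounds of the refined location

`Refine K0 Kr1`, `Refine Kr1 Kr2`, `Refine Kr2 Kr3`, `Kr3.Le K0`, and `Snd Kr3 b w` for every
solution of a word.
-/

set_option linter.style.longLine false

set_option deprecated.oldSectionVars true

namespace Pool.Agent.Work.MP_b30479_gtS.G2

open Complex Set SC
open scoped ComplexConjugate

namespace SR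

/-- hulls of round 1 -/
def pt1 : PT := ⟨p1_A2, p1_A1, p1_Z, p1_S3, p1_S2, p1_ST⟩

/-- hulls of round 2 -/
def pt2 : PT := ⟨p2_A2, p2_A1, p2_Z, p2_S3, p2_S2, p2_ST⟩

/-- hulls of round 3 -/
def pt3 : PT := ⟨p3_A2, p3_A1, p3_Z, p3_S3, p3_S2, p3_ST⟩

theorem low1 : Low q1 pt1 := by
  constructor
  · intro d r h hB
    cases r
    · exact absurd rfl (h.ends rfl)
    · have h1 : 2 ≤ d := by
        rcases Nat.lt_or_ge 1 d with h2 | h2
        · exact h2
        · exact absurd rfl (h.one (le_antisymm h2 h.pos)).2.1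
      have h2 : d ≤ 7 := by
        simp only [crs, SK.u] at hB
        omega
      interval_cases d
      · exact ⟨_, rfl, rf1_2ea⟩
      · exact ⟨_, rfl, rf1_3ea⟩
      · exact ⟨_, rfl, rf1_4ea⟩
      · exact ⟨_, rfl, rf1_5ea⟩
      · exact ⟨_, rfl, rf1_6ea⟩
      · exact ⟨_, rfl, rf1_7ea⟩
    · have h1 : 4 ≤ d := by
        exact h.zr rfl
      have h2 : d ≤ 7 := by
        simp only [crs, SK.u] at hB
        omega
      interval_cases d
      · exact ⟨_, rfl, rf1_4ez⟩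
      · exact ⟨_, rfl, rf1_5ez⟩
      · exact ⟨_, rfl, rf1_6ez⟩
      · exact ⟨_, rfl, rf1_7ez⟩
    · have h1 : 2 ≤ d := by
        rcases Nat.lt_or_ge 1 d with h2 | h2
        · exact h2
        · exact absurd rfl (h.one (le_antisymm h2 h.pos)).2.1
      have h2 : d ≤ 6 := by
        simp only [crs, SK.u] at hB
        omega
      interval_cases d
      · exact ⟨_, rfl, rf1_3es⟩
      · exact ⟨_, rfl, rf1_4es⟩
      · exact ⟨_, rfl, rf1_5es⟩
      · exact ⟨_, rfl, rf1_6es⟩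
      · exact ⟨_, rfl, rf1_7es⟩
  · intro d l r h hl hr hB
    cases l <;> cases r
    · exact absurd rfl hl
    · exact absurd rfl hl
    · exact absurd rfl hl
    · exact absurd rfl hl
    · exact absurd rfl hr
    · have h1 : 2 ≤ d := by
        rcases Nat.lt_or_ge 1 d with h2 | h2
        · exact h2
        · exact absurd (h.one (le_antisymm h2 h.pos)).1 (by decide)
      have h2 : d ≤ 7 := by
        simp only [crs, SK.u] at hB
        omega
      interval_cases d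
      · exact ⟨_, rfl, rf1_2aa⟩
      · exact ⟨_, rfl, rf1_3aa⟩
      · exact ⟨_, rfl, rf1_4aa⟩
      · exact ⟨_, rfl, rf1_5aa⟩
      · exact ⟨_, rfl, rf1_6aa⟩
      · exact ⟨_, rfl, rf1_7aa⟩
    · have h1 : 4 ≤ d := by
        exact h.zr rfl
      have h2 : d ≤ 7 := by
        simp only [crs, SK.u] at hB
        omega
      interval_cases d
      · exact ⟨_, rfl, rf1_4az⟩
      · exact ⟨_, rfl, rf1_5az⟩
      · exact ⟨_, rfl, rf1_6az⟩
      · exact ⟨_, rfl, rf1_7az⟩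
    · have h1 : 1 ≤ d := by
        exact h.pos
      have h2 : d ≤ 6 := by
        simp only [crs, SK.u] at hB
        omega
      interval_cases d
      · exact ⟨_, rfl, rf1_2as⟩
      · exact ⟨_, rfl, rf1_3as⟩
      · exact ⟨_, rfl, rf1_4as⟩
      · exact ⟨_, rfl, rf1_5as⟩
      · exact ⟨_, rfl, rf1_6as⟩
      · exact ⟨_, rfl, rf1_7as⟩
    · exact absurd rfl hr
    · have h1 : 4 ≤ d := by
        exact h.zl rfl
      have h2 : d ≤ 7 := by
        simp only [crs, SK.u] at hB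
        omega
      interval_cases d
      · exact ⟨_, rfl, rf1_4az.symm⟩
      · exact ⟨_, rfl, rf1_5az.symm⟩
      · exact ⟨_, rfl, rf1_6az.symm⟩
      · exact ⟨_, rfl, rf1_7az.symm⟩
    · have h1 : 4 ≤ d := by
        exact h.zl rfl
      have h2 : d ≤ 7 := by
        simp only [crs, SK.u] at hB
        omega
      interval_cases d
      · exact ⟨_, rfl, rf1_4zz⟩
      · exact ⟨_, rfl, rf1_5zz⟩
      · exact ⟨_, rfl, rf1_6zz⟩
      · exact ⟨_, rfl, rf1_7zz⟩
    · have h1 : 4 ≤ d := by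
        exact h.zl rfl
      have h2 : d ≤ 6 := by
        simp only [crs, SK.u] at hB
        omega
      interval_cases d
      · exact ⟨_, rfl, rf1_5zs⟩
      · exact ⟨_, rfl, rf1_6zs⟩
      · exact ⟨_, rfl, rf1_7zs⟩
    · exact absurd rfl hr
    · have h1 : 1 ≤ d := by
        exact h.pos
      have h2 : d ≤ 6 := by
        simp only [crs, SK.u] at hB
        omega
      interval_cases d
      · exact ⟨_, rfl, rf1_2as.symm⟩
      · exact ⟨_, rfl, rf1_3as.symm⟩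
      · exact ⟨_, rfl, rf1_4as.symm⟩
      · exact ⟨_, rfl, rf1_5as.symm⟩
      · exact ⟨_, rfl, rf1_6as.symm⟩
      · exact ⟨_, rfl, rf1_7as.symm⟩
    · have h1 : 4 ≤ d := by
        exact h.zr rfl
      have h2 : d ≤ 6 := by
        simp only [crs, SK.u] at hB
        omega
      interval_cases d
      · exact ⟨_, rfl, rf1_5zs.symm⟩
      · exact ⟨_, rfl, rf1_6zs.symm⟩
      · exact ⟨_, rfl, rf1_7zs.symm⟩
    · have h1 : 1 ≤ d := by
        exact h.pos
      have h2 : d ≤ 5 := by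
        simp only [crs, SK.u] at hB
        omega
      interval_cases d
      · exact ⟨_, rfl, rf1_3ss⟩
      · exact ⟨_, rfl, rf1_4ss⟩
      · exact ⟨_, rfl, rf1_5ss⟩
      · exact ⟨_, rfl, rf1_6ss⟩
      · exact ⟨_, rfl, rf1_7ss⟩

theorem low2 : Low q2 pt2 := by
  constructor
  · intro d r h hB
    cases r
    · exact absurd rfl (h.ends rfl)
    · have h1 : 2 ≤ d := by
        rcases Nat.lt_or_ge 1 d with h2 | h2
        · exact h2
        · exact absurd rfl (h.one (le_antisymm h2 h.pos)).2.1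
      have h2 : d ≤ 7 := by
        simp only [crs, SK.u] at hB
        omega
      interval_cases d
      · exact ⟨_, rfl, rf2_2ea⟩
      · exact ⟨_, rfl, rf2_3ea⟩
      · exact ⟨_, rfl, rf2_4ea⟩
      · exact ⟨_, rfl, rf2_5ea⟩
      · exact ⟨_, rfl, rf2_6ea⟩
      · exact ⟨_, rfl, rf2_7ea⟩
    · have h1 : 4 ≤ d := by
        exact h.zr rfl
      have h2 : d ≤ 7 := by
        simp only [crs, SK.u] at hB
        omega
      interval_cases d
      · exact ⟨_, rfl, rf2_4ez⟩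
      · exact ⟨_, rfl, rf2_5ez⟩
      · exact ⟨_, rfl, rf2_6ez⟩
      · exact ⟨_, rfl, rf2_7ez⟩
    · have h1 : 2 ≤ d := by
        rcases Nat.lt_or_ge 1 d with h2 | h2
        · exact h2
        · exact absurd rfl (h.one (le_antisymm h2 h.pos)).2.1
      have h2 : d ≤ 6 := by
        simp only [crs, SK.u] at hB
        omega
      interval_cases d
      · exact ⟨_, rfl, rf2_3es⟩
      · exact ⟨_, rfl, rf2_4es⟩
      · exact ⟨_, rfl, rf2_5es⟩
      · exact ⟨_, rfl, rf2_6es⟩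
      · exact ⟨_, rfl, rf2_7es⟩
  · intro d l r h hl hr hB
    cases l <;> cases r
    · exact absurd rfl hl
    · exact absurd rfl hl
    · exact absurd rfl hl
    · exact absurd rfl hl
    · exact absurd rfl hr
    · have h1 : 2 ≤ d := by
        rcases Nat.lt_or_ge 1 d with h2 | h2
        · exact h2
        · exact absurd (h.one (le_antisymm h2 h.pos)).1 (by decide)
      have h2 : d ≤ 7 := by
        simp only [crs, SK.u] at hB
        omega
      interval_cases d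
      · exact ⟨_, rfl, rf2_2aa⟩
      · exact ⟨_, rfl, rf2_3aa⟩
      · exact ⟨_, rfl, rf2_4aa⟩
      · exact ⟨_, rfl, rf2_5aa⟩
      · exact ⟨_, rfl, rf2_6aa⟩
      · exact ⟨_, rfl, rf2_7aa⟩
    · have h1 : 4 ≤ d := by
        exact h.zr rfl
      have h2 : d ≤ 7 := by
        simp only [crs, SK.u] at hB
        omega
      interval_cases d
      · exact ⟨_, rfl, rf2_4az⟩
      · exact ⟨_, rfl, rf2_5az⟩
      · exact ⟨_, rfl, rf2_6az⟩
      · exact ⟨_, rfl, rf2_7az⟩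
    · have h1 : 1 ≤ d := by
        exact h.pos
      have h2 : d ≤ 6 := by
        simp only [crs, SK.u] at hB
        omega
      interval_cases d
      · exact ⟨_, rfl, rf2_2as⟩
      · exact ⟨_, rfl, rf2_3as⟩
      · exact ⟨_, rfl, rf2_4as⟩
      · exact ⟨_, rfl, rf2_5as⟩
      · exact ⟨_, rfl, rf2_6as⟩
      · exact ⟨_, rfl, rf2_7as⟩
    · exact absurd rfl hr
    · have h1 : 4 ≤ d := by
        exact h.zl rfl
      have h2 : d ≤ 7 := by
        simp only [crs, SK.u] at hB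
        omega
      interval_cases d
      · exact ⟨_, rfl, rf2_4az.symm⟩
      · exact ⟨_, rfl, rf2_5az.symm⟩
      · exact ⟨_, rfl, rf2_6az.symm⟩
      · exact ⟨_, rfl, rf2_7az.symm⟩
    · have h1 : 4 ≤ d := by
        exact h.zl rfl
      have h2 : d ≤ 7 := by
        simp only [crs, SK.u] at hB
        omega
      interval_cases d
      · exact ⟨_, rfl, rf2_4zz⟩
      · exact ⟨_, rfl, rf2_5zz⟩
      · exact ⟨_, rfl, rf2_6zz⟩
      · exact ⟨_, rfl, rf2_7zz⟩
    · have h1 : 4 ≤ d := by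
        exact h.zl rfl
      have h2 : d ≤ 6 := by
        simp only [crs, SK.u] at hB
        omega
      interval_cases d
      · exact ⟨_, rfl, rf2_5zs⟩
      · exact ⟨_, rfl, rf2_6zs⟩
      · exact ⟨_, rfl, rf2_7zs⟩
    · exact absurd rfl hr
    · have h1 : 1 ≤ d := by
        exact h.pos
      have h2 : d ≤ 6 := by
        simp only [crs, SK.u] at hB
        omega
      interval_cases d
      · exact ⟨_, rfl, rf2_2as.symm⟩
      · exact ⟨_, rfl, rf2_3as.symm⟩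
      · exact ⟨_, rfl, rf2_4as.symm⟩
      · exact ⟨_, rfl, rf2_5as.symm⟩
      · exact ⟨_, rfl, rf2_6as.symm⟩
      · exact ⟨_, rfl, rf2_7as.symm⟩
    · have h1 : 4 ≤ d := by
        exact h.zr rfl
      have h2 : d ≤ 6 := by
        simp only [crs, SK.u] at hB
        omega
      interval_cases d
      · exact ⟨_, rfl, rf2_5zs.symm⟩
      · exact ⟨_, rfl, rf2_6zs.symm⟩
      · exact ⟨_, rfl, rf2_7zs.symm⟩
    · have h1 : 1 ≤ d := by
        exact h.pos
      have h2 : d ≤ 5 := by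
        simp only [crs, SK.u] at hB
        omega
      interval_cases d
      · exact ⟨_, rfl, rf2_3ss⟩
      · exact ⟨_, rfl, rf2_4ss⟩
      · exact ⟨_, rfl, rf2_5ss⟩
      · exact ⟨_, rfl, rf2_6ss⟩
      · exact ⟨_, rfl, rf2_7ss⟩

theorem low3 : Low q3 pt3 := by
  constructor
  · intro d r h hB
    cases r
    · exact absurd rfl (h.ends rfl)
    · have h1 : 2 ≤ d := by
        rcases Nat.lt_or_ge 1 d with h2 | h2
        · exact h2
        · exact absurd rfl (h.one (le_antisymm h2 h.pos)).2.1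
      have h2 : d ≤ 7 := by
        simp only [crs, SK.u] at hB
        omega
      interval_cases d
      · exact ⟨_, rfl, rf3_2ea⟩
      · exact ⟨_, rfl, rf3_3ea⟩
      · exact ⟨_, rfl, rf3_4ea⟩
      · exact ⟨_, rfl, rf3_5ea⟩
      · exact ⟨_, rfl, rf3_6ea⟩
      · exact ⟨_, rfl, rf3_7ea⟩
    · have h1 : 4 ≤ d := by
        exact h.zr rfl
      have h2 : d ≤ 7 := by
        simp only [crs, SK.u] at hB
        omega
      interval_cases d
      · exact ⟨_, rfl, rf3_4ez⟩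
      · exact ⟨_, rfl, rf3_5ez⟩
      · exact ⟨_, rfl, rf3_6ez⟩
      · exact ⟨_, rfl, rf3_7ez⟩
    · have h1 : 2 ≤ d := by
        rcases Nat.lt_or_ge 1 d with h2 | h2
        · exact h2
        · exact absurd rfl (h.one (le_antisymm h2 h.pos)).2.1
      have h2 : d ≤ 6 := by
        simp only [crs, SK.u] at hB
        omega
      interval_cases d
      · exact ⟨_, rfl, rf3_3es⟩
      · exact ⟨_, rfl, rf3_4es⟩
      · exact ⟨_, rfl, rf3_5es⟩
      · exact ⟨_, rfl, rf3_6es⟩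
      · exact ⟨_, rfl, rf3_7es⟩
  · intro d l r h hl hr hB
    cases l <;> cases r
    · exact absurd rfl hl
    · exact absurd rfl hl
    · exact absurd rfl hl
    · exact absurd rfl hl
    · exact absurd rfl hr
    · have h1 : 2 ≤ d := by
        rcases Nat.lt_or_ge 1 d with h2 | h2
        · exact h2
        · exact absurd (h.one (le_antisymm h2 h.pos)).1 (by decide)
      have h2 : d ≤ 7 := by
        simp only [crs, SK.u] at hB
        omega
      interval_cases d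
      · exact ⟨_, rfl, rf3_2aa⟩
      · exact ⟨_, rfl, rf3_3aa⟩
      · exact ⟨_, rfl, rf3_4aa⟩
      · exact ⟨_, rfl, rf3_5aa⟩
      · exact ⟨_, rfl, rf3_6aa⟩
      · exact ⟨_, rfl, rf3_7aa⟩
    · have h1 : 4 ≤ d := by
        exact h.zr rfl
      have h2 : d ≤ 7 := by
        simp only [crs, SK.u] at hB
        omega
      interval_cases d
      · exact ⟨_, rfl, rf3_4az⟩
      · exact ⟨_, rfl, rf3_5az⟩
      · exact ⟨_, rfl, rf3_6az⟩
      · exact ⟨_, rfl, rf3_7az⟩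
    · have h1 : 1 ≤ d := by
        exact h.pos
      have h2 : d ≤ 6 := by
        simp only [crs, SK.u] at hB
        omega
      interval_cases d
      · exact ⟨_, rfl, rf3_2as⟩
      · exact ⟨_, rfl, rf3_3as⟩
      · exact ⟨_, rfl, rf3_4as⟩
      · exact ⟨_, rfl, rf3_5as⟩
      · exact ⟨_, rfl, rf3_6as⟩
      · exact ⟨_, rfl, rf3_7as⟩
    · exact absurd rfl hr
    · have h1 : 4 ≤ d := by
        exact h.zl rfl
      have h2 : d ≤ 7 := by
        simp only [crs, SK.u] at hB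
        omega
      interval_cases d
      · exact ⟨_, rfl, rf3_4az.symm⟩
      · exact ⟨_, rfl, rf3_5az.symm⟩
      · exact ⟨_, rfl, rf3_6az.symm⟩
      · exact ⟨_, rfl, rf3_7az.symm⟩
    · have h1 : 4 ≤ d := by
        exact h.zl rfl
      have h2 : d ≤ 7 := by
        simp only [crs, SK.u] at hB
        omega
      interval_cases d
      · exact ⟨_, rfl, rf3_4zz⟩
      · exact ⟨_, rfl, rf3_5zz⟩
      · exact ⟨_, rfl, rf3_6zz⟩
      · exact ⟨_, rfl, rf3_7zz⟩
    · have h1 : 4 ≤ d := by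
        exact h.zl rfl
      have h2 : d ≤ 6 := by
        simp only [crs, SK.u] at hB
        omega
      interval_cases d
      · exact ⟨_, rfl, rf3_5zs⟩
      · exact ⟨_, rfl, rf3_6zs⟩
      · exact ⟨_, rfl, rf3_7zs⟩
    · exact absurd rfl hr
    · have h1 : 1 ≤ d := by
        exact h.pos
      have h2 : d ≤ 6 := by
        simp only [crs, SK.u] at hB
        omega
      interval_cases d
      · exact ⟨_, rfl, rf3_2as.symm⟩
      · exact ⟨_, rfl, rf3_3as.symm⟩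
      · exact ⟨_, rfl, rf3_4as.symm⟩
      · exact ⟨_, rfl, rf3_5as.symm⟩
      · exact ⟨_, rfl, rf3_6as.symm⟩
      · exact ⟨_, rfl, rf3_7as.symm⟩
    · have h1 : 4 ≤ d := by
        exact h.zr rfl
      have h2 : d ≤ 6 := by
        simp only [crs, SK.u] at hB
        omega
      interval_cases d
      · exact ⟨_, rfl, rf3_5zs.symm⟩
      · exact ⟨_, rfl, rf3_6zs.symm⟩
      · exact ⟨_, rfl, rf3_7zs.symm⟩
    · have h1 : 1 ≤ d := by
        exact h.pos
      have h2 : d ≤ 5 := by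
        simp only [crs, SK.u] at hB
        omega
      interval_cases d
      · exact ⟨_, rfl, rf3_3ss⟩
      · exact ⟨_, rfl, rf3_4ss⟩
      · exact ⟨_, rfl, rf3_5ss⟩
      · exact ⟨_, rfl, rf3_6ss⟩
      · exact ⟨_, rfl, rf3_7ss⟩

theorem tab1 : tab q0 (fun _ _ => vt .t8) pt1 = true := by decide +kernel

theorem tab2 : tab q1 vr pt2 = true := by decide +kernel

theorem tab3 : tab q2 vr pt3 = true := by decide +kernel

theorem Kr1_le : Kr1.Le K0 := leb_spec (by decide +kernel)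

theorem Kr2_le : Kr2.Le K0 := leb_spec (by decide +kernel)

theorem Kr3_le : Kr3.Le K0 := leb_spec (by decide +kernel)

theorem ref1 : Refine K0 Kr1 := refine_of (fun _ _ _ => Subset.rfl) src_K0 tab1 low1

theorem ref2 : Refine Kr1 Kr2 := refine_of Kr1_le (src_Kq tab2) tab2 low2

theorem ref3 : Refine Kr2 Kr3 := refine_of Kr2_le (src_Kq tab3) tab3 low3

/-- the values of every solution of a word are in the refined sets -/
theorem snd3 {M : ℕ} {b : Fin (M + 1) → ℤ} {w : ℕ → ℂ} (hb : ClassW b) (hw : Sol b w)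
    (hM : 1 ≤ M) : Snd Kr3 b w :=
  Snd.refine hb ringFacts hw hM ref3 (Snd.refine hb ringFacts hw hM ref2
    (Snd.refine hb ringFacts hw hM ref1 (snd_K0 hb hw)))

end SR

end Pool.Agent.Work.MP_b30479_gtS.G2

end
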