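import Pool.Agent.Work.MP_b30479_gt.TBS.G2.TRb
import Pool.Agent.Work.MP_b30479_gt.TBS.G2.MRBase
import Pool.Agent.Work.MP_b30479_gt.TBS.NumU.Tree
import Pool.Agent.Work.MP_b30479_gt.TBS.G2.WVal
import Pool.Agent.Work.MP_b30479_gt.TBS.G2.TE4a
import Pool.Agent.Work.MP_b30479_gt.TBS.G2.ZRows

section

/-!
# Tails, rows `E1`, `E2`: tools

`uu` near `0` and near `1`, and the difference of the values of a region of class one.
-/

set_option deprecated.oldSectionVars true

namespace Pool.Agent.Work.MP_b30479_gtS.G2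

open VOL NumUs

namespace TL

namespace E1

theorem smallK : 2 * Real.cosh (Real.pi * (2 * (13 / 100))) - 2 * Real.cos (Real.pi * (2 * (5 / 100)))
    < 1 := by
  have h : NumIs.chk [NumIs.E.sub (NumIs.E.q 1 1) (NumIs.E.sub (NumIs.E.mul (NumIs.E.q 2 1)
      (NumIs.E.cosh (NumIs.E.mul NumIs.E.pi (NumIs.E.q 26 100))))
      (NumIs.E.mul (NumIs.E.q 2 1) (NumIs.E.cosPi (NumIs.E.q 1 10))))] 1 [NumIs.V.of 1 0 0] = true := by
    decide +kernel
  have hp := NumIs.pos_of_chk (NumIs.chk1 h (by norm_num) (x := 0) (by norm_num) (by norm_num))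
  simp only [NumIs.E.val] at hp
  norm_num at hp ⊢
  linarith

theorem anti0 {a b y : ℝ} (hab : a ≤ b) (h : ∀ s ∈ Set.Ioo a b, s ≠ 0 ∧ |s| ≤ 5 / 100)
    (hy : |y| ≤ 13 / 100) : uu b y ≤ uu a y := by
  have hp := Real.pi_pos
  have hpt : ∀ s : ℝ, (y : ℂ) * Complex.I + ((1 * s : ℝ) : ℂ) = ⟨s, y⟩ := by
    intro s
    apply Complex.ext <;> simp
  have hd : ∀ s ∈ Set.Ioo a b, HasDerivAt
      (fun s : ℝ => UU ((y : ℂ) * Complex.I + ((1 * s : ℝ) : ℂ))) (1 * LL ⟨s, y⟩) s := by
    intro s hs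
    have h2 := hasDerivAt_UU_level ((y : ℂ) * Complex.I) 1 s (by
      rw [hpt]
      intro hc
      rw [Complex.sin_eq_zero_iff] at hc
      obtain ⟨k, hk⟩ := hc
      have hk1 : (⟨s, y⟩ : ℂ) = k := by
        have : (Real.pi : ℂ) ≠ 0 := by exact_mod_cast hp.ne'
        apply mul_left_cancel₀ this
        rw [hk]
        ring
      have hk2 := congrArg Complex.re hk1
      simp only [Complex.intCast_re] at hk2
      obtain ⟨a1, a2⟩ := h s hs
      rw [hk2, abs_le] at a2
      have a3 : (-1 : ℤ) < k := by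
        have : (-1 : ℝ) < k := by linarith
        exact_mod_cast this
      have a4 : k < (1 : ℤ) := by
        have : (k : ℝ) < 1 := by linarith
        exact_mod_cast this
      apply a1
      rw [hk2]
      have : k = 0 := by omega
      simp [this])
    rw [hpt] at h2
    exact h2
  have hanti : AntitoneOn (fun s : ℝ => UU ((y : ℂ) * Complex.I + ((1 * s : ℝ) : ℂ)))
      (Set.Icc a b) := by
    apply antitoneOn_of_deriv_nonpos (convex_Icc _ _)
    · apply Continuous.continuousOn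
      exact continuous_UU.comp (by fun_prop)
    · rw [interior_Icc]
      exact fun s hs => (hd s hs).differentiableAt.differentiableWithinAt
    · rw [interior_Icc]
      intro s hs
      rw [(hd s hs).deriv, one_mul]
      have h3 : LL ⟨s, y⟩ ≤ Real.log 1 / 2 := by
        apply MR.LL_le_log le_rfl
        have h4 := MR.cosh_le_of (t := y) (r := 13 / 100) hy
        have h5 : Real.cos (Real.pi * (2 * (5 / 100))) ≤ Real.cos (2 * Real.pi * s) := by
          rw [← Real.cos_abs (2 * Real.pi * s), abs_mul, abs_of_pos (by positivity : 0 < 2 * Real.pi)]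
          have h6 := (h s hs).2
          apply Real.cos_le_cos_of_nonneg_of_le_pi
          · positivity
          · nlinarith
          · nlinarith
        have h6 := smallK
        simp only
        linarith
      rw [Real.log_one] at h3
      linarith
  have h2 := hanti (Set.left_mem_Icc.2 hab) (Set.right_mem_Icc.2 hab) hab
  simp only [hpt] at h2
  exact h2

/-- `uu` decreases near `0` -/
theorem anti {a b y : ℝ} (ha : -(5 / 100) ≤ a) (hab : a ≤ b) (hb : b ≤ 5 / 100)
    (hy : |y| ≤ 13 / 100) : uu b y ≤ uu a y := by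
  rcases le_or_gt 0 a with h | h
  · exact anti0 hab (fun s hs => ⟨(lt_of_le_of_lt h hs.1).ne', by
      rw [abs_le]; constructor <;> linarith [hs.1, hs.2]⟩) hy
  · rcases le_or_gt b 0 with h' | h'
    · exact anti0 hab (fun s hs => ⟨(lt_of_lt_of_le hs.2 h').ne, by
        rw [abs_le]; constructor <;> linarith [hs.1, hs.2]⟩) hy
    · exact (anti0 h'.le (fun s hs => ⟨hs.1.ne', by
        rw [abs_le]; constructor <;> linarith [hs.1, hs.2]⟩) hy).trans
        (anti0 h.le (fun s hs => ⟨hs.2.ne, by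
        rw [abs_le]; constructor <;> linarith [hs.1, hs.2]⟩) hy)

/-- `uu` decreases near `1` -/
theorem anti1 {a b y : ℝ} (ha : 95 / 100 ≤ a) (hab : a ≤ b) (hb : b ≤ 105 / 100)
    (hy : |y| ≤ 13 / 100) : uu b y ≤ uu a y := by
  have h1 := uu_add_one (a - 1) y
  have h2 := uu_add_one (b - 1) y
  rw [sub_add_cancel] at h1 h2
  rw [h1, h2]
  have := anti (a := a - 1) (b := b - 1) (y := y) (by linarith) (by linarith) (by linarith) hy
  linarith

/-- lower bound of `uu` near `1` by the value at the right end, left of `1` -/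
theorem U_b {x t : ℝ} (h0 : 95 / 100 ≤ x) (h1 : x ≤ 995 / 1000) (ht : |t| ≤ 13 / 100) :
    uu (995 / 1000) t ≤ uu x t := anti1 h0 h1 (by norm_num) ht

/-- the same, right end `1 + d` -/
theorem U_d {x t d : ℝ} (h0 : 95 / 100 ≤ x) (h1 : x ≤ 1 + d) (hd : d ≤ 5 / 100)
    (ht : |t| ≤ 13 / 100) :
    uu d t + Real.pi * t ≤ uu x t ∧ uu d t - Real.pi * t ≤ uu x t := by
  have h := anti1 h0 h1 (by linarith) ht
  rw [show (1 : ℝ) + d = d + 1 by ring, uu_add_one] at h
  have hp := Real.pi_pos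
  have h2 := mul_le_mul_of_nonneg_left (le_abs_self t) hp.le
  have h3 := mul_le_mul_of_nonneg_left (neg_le_abs t) hp.le
  constructor <;> linarith

/-- `-uu s Y` left of `1` -/
theorem S_b {s Y d : ℝ} (hd : d ≤ 5 / 100) (h0 : 1 - d ≤ s) (h1 : s ≤ 105 / 100)
    (hY : |Y| ≤ 13 / 100) : uu d Y ≤ -uu s Y := by
  have h := anti1 (a := 1 - d) (b := s) (by linarith) h0 h1 hY
  rw [uu_one_sub] at h
  linarith

section
open NumUs.E NumIs

theorem c_near {x y : ℝ} (h0 : 400 / 10000 ≤ x) (h1 : x ≤ 2600 / 10000)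
    (h2 : -1000 / 10000 ≤ y) (h3 : y ≤ 1000 / 10000) (h4 : y ≤ 48 / 100 * (26 / 100 - x))
    (h5 : -y ≤ 48 / 100 * (26 / 100 - x)) : uu x y < uu (5 / 1000) y := by
  have h : chkT [NumUs.E.sub (.uu (.q 5 1000) (.var 1)) (.uu (.var 0) (.var 1)),
      .sub (.var 1) (.mul (.q 48 100) (.sub (.q 26 100) (.var 0))),
      .sub (.neg (.var 1)) (.mul (.q 48 100) (.sub (.q 26 100) (.var 0)))] 20
      3555148795702544774738144749577034877926085102670096
      [NumIs.V.of 10000 400 2600, NumIs.V.of 10000 (-1000) 1000] = true := by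
    decide +kernel
  obtain ⟨e, he, hp⟩ := chkT2 h (by norm_num) (x := x) (y := y)
    (le_trans (by norm_num) h0) (le_trans h1 (by norm_num))
    (le_trans (by norm_num) h2) (le_trans h3 (by norm_num))
  simp only [List.mem_cons, List.not_mem_nil, or_false] at he
  rcases he with rfl | rfl | rfl
  all_goals
    simp only [NumUs.E.val, NumIs.lkR] at hp
    push_cast at hp
    linarith

end

/-- `-uu s Y` right of `1` -/
theorem S_p {s Y : ℝ} (h0 : 1005 / 1000 ≤ s) (h1 : s ≤ 126 / 100) (hY : |Y| ≤ 10 / 100)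
    (hY2 : |Y| ≤ 48 / 100 * (126 / 100 - s)) :
    -uu (5 / 1000) Y - Real.pi * |Y| ≤ -uu s Y := by
  have e := uu_add_one (s - 1) Y
  rw [sub_add_cancel] at e
  have h : uu (s - 1) Y ≤ uu (5 / 1000) Y := by
    rcases le_total (s - 1) (4 / 100) with h2 | h2
    · exact anti (by norm_num) (by linarith) (by linarith) (by linarith)
    · have h3 := abs_le.1 hY
      have h4 := abs_le.1 hY2
      exact (c_near (by linarith) (by linarith) (by linarith) (by linarith) (by linarith)
        (by linarith)).le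
  linarith

/-- `uu w 0` near `0` -/
theorem W_v {w : ℝ} (h0 : 0 ≤ w) (h1 : w ≤ 2 / 100) : uu (2 / 100) 0 ≤ uu w 0 :=
  anti (by linarith) h1 (by norm_num) (by norm_num)

/-- `uu x y ≤ uu x 0` for `x ≤ 1/2` -/
theorem uu_le_real {x y : ℝ} (h1 : x ≤ 1 / 2) : uu x y ≤ uu x 0 := by
  have a2 := Lr_diff_mono (a := 1 / 2) (b := x) (s := 0) (s' := |y|) h1 le_rfl (abs_nonneg y)
  have a3 := uu_one_sub (1 / 2) y
  have a4 := uu_one_sub (1 / 2) 0
  have e : (1 : ℝ) - 1 / 2 = 1 / 2 := by norm_num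
  rw [e] at a3 a4
  have b3 : uu (1 / 2) y = 0 := by linarith
  have b4 : uu (1 / 2) 0 = 0 := by linarith
  rw [uu_Lr] at b3 b4
  rw [uu_Lr, uu_Lr]
  rw [abs_zero] at b4 ⊢
  linarith

/-- `uu w 0 - uu s Y ≥ 0` for `0 ≤ w ≤ s ≤ 16/100` -/
theorem W_lo {w s Y : ℝ} (h0 : 0 ≤ w) (h1 : w ≤ s) (h2 : s ≤ 16 / 100) : 0 ≤ -uu s Y + uu w 0 := by
  have hpi := Real.pi_pos
  have a1 := uu_le_real (x := s) (y := Y) (by linarith)
  have hm : AntitoneOn (fun x => uu x 0) (Set.Icc 0 (16 / 100)) := by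
    apply antitoneOn_of_deriv_nonpos (convex_Icc _ _)
    · exact cont_uu_real.continuousOn
    · intro x hx
      rw [interior_Icc] at hx
      exact (uu_real_deriv hx.1 (by linarith [hx.2])).differentiableAt.differentiableWithinAt
    · intro x hx
      rw [interior_Icc] at hx
      rw [(uu_real_deriv hx.1 (by linarith [hx.2])).deriv]
      apply Real.log_nonpos
      · have := Real.sin_nonneg_of_nonneg_of_le_pi (x := Real.pi * x)
          (mul_nonneg hpi.le hx.1.le) (by nlinarith [hx.2])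
        linarith
      · have h3 : Real.sin (Real.pi * x) ≤ Real.sin (Real.pi / 6) := by
          apply Real.sin_le_sin_of_le_of_le_pi_div_two
          · nlinarith [hx.1]
          · linarith
          · nlinarith [hx.2]
        rw [Real.sin_pi_div_six] at h3
        linarith
  have := hm ⟨h0, by linarith⟩ ⟨by linarith, h2⟩ h1
  simp only at this
  linarith

/-- the difference of the values of a region of class one -/
theorem V1_diff (w τ X Y : ℝ) :
    V1 ⟨9 / 50, τ⟩ ⟨X, Y⟩ - V1 ⟨w, 0⟩ ⟨X, Y⟩ =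
      Real.pi * ((18 / 100 - w) * Y + τ * (w + X - w - 1)) + uu (18 / 100 + (w + X - w)) (τ + Y) -
        uu (18 / 100) τ - uu (w + X) Y + uu w 0 := by
  unfold V1
  rw [UU_uu, UU_uu, UU_uu, UU_uu, UU_uu]
  simp only [Complex.sub_im, Complex.mul_im, Complex.add_re, Complex.add_im]
  rw [show (18 : ℝ) / 100 + (w + X - w) = 9 / 50 + X by ring, show (18 : ℝ) / 100 = 9 / 50 by norm_num,
    zero_add]
  ring

end E1

end TL

end Pool.Agent.Work.MP_b30479_gtS.G2

end

section

/-!
# Mirrored paths: the engine for the rows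

`gg`: gain of a region with the value `V2` if a hinge on a mirrored path is moved.  `Pm`: a row (side
of a cell), `Pm.Side`: its statement, `side_of`: it follows from five certificates (`x + y` near `0`,
left of `1`, near `1`, right of `1`).
-/

set_option linter.unusedVariables false
set_option linter.unusedSimpArgs false

set_option deprecated.oldSectionVars true

namespace Pool.Agent.Work.MP_b30479_gtS.G2

open VOL NumUs

namespace KR

open NumIs (V)

/-! ### the gain -/

/-- the hinge `x + iα` moves to `c - iε`, the other variable of the region is `y + iβ` -/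
noncomputable def gg (c ε x α y β : ℝ) : ℝ :=
  uu (c + y) (β - ε) - uu (x + y) (β + α) - 2 * uu c ε + 2 * uu x α +
    Real.pi * ((c - y) * (ε + β) + (x - y) * (α - β) + 1 / 2 * (α + ε))

theorem V2_uu (x a y β : ℝ) : V2 ⟨x, a⟩ ⟨y, β⟩ =
    uu (x + y) (a + β) - 2 * uu x a - 2 * uu y β - Real.pi * ((x - y) * (a - β) + (a + β) / 2) := by
  unfold V2
  rw [UU_uu, UU_uu, UU_uu]
  simp only [Complex.add_re, Complex.add_im, Complex.sub_re, Complex.sub_im, pow_two,
    Complex.mul_im, Complex.mul_re, Complex.re_ofNat, Complex.im_ofNat]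
  ring

theorem gg_eq (c ε x α y β : ℝ) :
    V2 ⟨c, -ε⟩ ⟨y, β⟩ - V2 ⟨x, α⟩ ⟨y, β⟩ = gg c ε x α y β := by
  rw [V2_uu, V2_uu, uu_neg]
  unfold gg
  rw [show -ε + β = β - ε by ring, show α + β = β + α by ring]
  ring

/-- the same at an end of the word -/
noncomputable def g0 (c ε x α : ℝ) : ℝ :=
  -uu c ε + uu x α + Real.pi * ((c + 1 / 2) * ε + (x + 1 / 2) * α)

theorem g0_eq (c ε x α : ℝ) : V2 ⟨c, -ε⟩ 0 - V2 ⟨x, α⟩ 0 = g0 c ε x α := by
  have e0 : uu 0 0 = 0 := by
    have h3 := UU_uu (0 : ℂ)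
    rw [UU_zero] at h3
    simpa using h3.symm
  have h := gg_eq c ε x α 0 0
  unfold gg at h
  rw [show (⟨0, 0⟩ : ℂ) = 0 from rfl, zero_sub, zero_add, add_zero, add_zero, uu_neg] at h
  rw [h]
  unfold g0
  ring

/-! ### `uu` near `0` and near `1` -/

theorem exp3 : 2 * Real.cosh (2 * Real.pi * (46 / 100)) + 2 ≤ Real.exp (2 * (3 / 2)) := by
  have h : NumIs.chk [NumIs.E.sub (NumIs.E.exp (NumIs.E.q 3 1)) (NumIs.E.add (NumIs.E.q 2 1)
      (NumIs.E.mul (NumIs.E.q 2 1) (NumIs.E.cosh (NumIs.E.mul NumIs.E.pi (NumIs.E.q 92 100)))))] 1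
      [NumIs.V.of 1 0 0] = true := by
    decide +kernel
  have hp := NumIs.pos_of_chk (NumIs.chk1 h (by norm_num) (x := 0) (by norm_num) (by norm_num))
  simp only [NumIs.E.val] at hp
  rw [show 2 * Real.pi * (46 / 100) = Real.pi * (((92 : ℤ) : ℝ) / ((100 : ℕ) : ℝ)) by
    push_cast; ring, show (2 : ℝ) * (3 / 2) = ((3 : ℤ) : ℝ) / ((1 : ℕ) : ℝ) by norm_num]
  have e2 : (((2 : ℤ) : ℝ) / ((1 : ℕ) : ℝ)) = 2 := by norm_num
  rw [e2] at hp
  linarith only [hp]

theorem near_one {s Y : ℝ} (h0 : 995 / 1000 ≤ s) (h1 : s ≤ 1005 / 1000) (hY : |Y| ≤ 46 / 100) :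
    uu (5 / 1000) Y - 150 / 10000 ≤ -uu s Y := by
  have h2 := TL.uu_slope (u := 995 / 1000) (v := s) h0 (by norm_num : (0 : ℝ) < 46 / 100) hY exp3
  have h3 : uu (995 / 1000) Y = -uu (5 / 1000) Y := by
    rw [← uu_one_sub]
    norm_num
  linarith only [h1, h2, h3]

theorem near_zero {s Y : ℝ} (h0 : 0 ≤ s) (h1 : s ≤ 5 / 1000) : 0 ≤ -uu s Y := by
  have h2 := TL.E1.W_lo (w := 0) (s := s) (Y := Y) le_rfl h0 (by linarith only [h1])
  have e0 : uu 0 0 = 0 := by
    have h3 := UU_uu (0 : ℂ)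
    rw [UU_zero] at h3
    simpa using h3.symm
  linarith only [h2, e0]

theorem right_one (s Y : ℝ) : -uu s Y = -(uu (s - 1) Y + Real.pi * |Y|) := by
  have h := uu_add_one (s - 1) Y
  rw [sub_add_cancel] at h
  rw [h]

/-! ### rows -/

/-- a domain for the other variable `y + iβ`: `β ≤ k1 y`, `β ≤ k2 (8/10 - y)`, `-β ≤ k3 y`,
`-β ≤ k4 (8/10 - y)`, `b0 ≤ β ≤ b1` -/
structure Dm where
  n1 : ℤ
  d1 : ℕ
  n2 : ℤ
  d2 : ℕ
  n3 : ℤ
  d3 : ℕ
  n4 : ℤ
  d4 : ℕ
  b0 : ℤ
  b1 : ℤ

/-- other hinge of a region with two crossings -/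
def D2 : Dm := ⟨16, 10, 16, 29, 25, 10, 30, 47, -3000, 1600⟩
/-- inner variable of an interior region with three crossings -/
def DL : Dm := ⟨32, 10, 32, 10, 32, 10, 32, 10, -1600, 1600⟩

structure Dm.In (d : Dm) (y β : ℝ) : Prop where
  h1 : β ≤ (d.n1 : ℝ) / d.d1 * y
  h2 : β ≤ (d.n2 : ℝ) / d.d2 * (8 / 10 - y)
  h3 : -β ≤ (d.n3 : ℝ) / d.d3 * y
  h4 : -β ≤ (d.n4 : ℝ) / d.d4 * (8 / 10 - y)
  h5 : (d.b0 : ℝ) / 10000 ≤ β
  h6 : β ≤ (d.b1 : ℝ) / 10000

structure Pm where
  dm : Dm
  x0 : ℤ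
  x1 : ℤ
  t0 : ℤ
  t1 : ℤ
  c : ℤ
  en : ℤ
  ed : ℕ
  a0 : ℤ
  a1 : ℤ
  ad : ℕ
  sg : ℤ
  q0 : ℤ
  q1 : ℤ
  q2 : ℤ
  pen : ℤ
  ek : ℤ
  y0 : ℤ
  y1 : ℤ

namespace Pm

set_option deprecated.oldSectionVars false
variable (p : Pm)

/-- height of the target -/
noncomputable def e (T : ℝ) : ℝ := (p.en : ℝ) / p.ed * T
/-- height of the mirrored path -/
noncomputable def a (x : ℝ) : ℝ := (p.a0 : ℝ) / p.ad + (p.a1 : ℝ) / p.ad * x

noncomputable def F (x T y β W : ℝ) : ℝ :=
  uu ((p.c : ℝ) / 100 + y) (β - p.sg * p.e T) + W +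
    Real.pi * (((p.c : ℝ) / 100 - y) * (p.sg * p.e T + β) + (x - y) * (p.sg * p.a x - β) +
      1 / 2 * (p.sg * p.a x + p.sg * p.e T)) +
    ((p.q0 : ℝ) / 10000 + ((p.q1 : ℝ) / 10000 * x + (p.q2 : ℝ) / 10000 * T)) +
    Real.pi * (p.pen * p.a x - p.ek * (((p.c : ℝ) / 100 + 1 / 2) * p.e T + (x + 1 / 2) * p.a x))

/-- the statement of a row -/
def Side : Prop := ∀ x T y β : ℝ, (p.x0 : ℝ) / 10000 ≤ x → x ≤ (p.x1 : ℝ) / 10000 →
  (p.t0 : ℝ) / 10000 ≤ T → T ≤ (p.t1 : ℝ) / 10000 → (p.y0 : ℝ) / 100 ≤ y → y ≤ (p.y1 : ℝ) / 100 →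
  p.dm.In y β → 0 < p.F x T y β (-uu (x + y) (β + p.sg * p.a x))

/-! ### expressions -/

def eY : E := .sub (.var 2) (.var 0)
def eE : E := .mul (.q p.en p.ed) (.var 1)
def eA : E := .add (.q p.a0 p.ad) (.mul (.q p.a1 p.ad) (.var 0))
def eAl : E := .mul (.q p.sg 1) p.eA
def eEp : E := .mul (.q p.sg 1) p.eE
def eC : E := .q p.c 100

def main (W : E) : E :=
  .add (.add (.add (.add (.uu (.add p.eC eY) (.sub (.var 3) p.eEp)) W)
    (.mul .pi (.add (.add (.mul (.sub p.eC eY) (.add p.eEp (.var 3)))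
      (.mul (.sub (.var 0) eY) (.sub p.eAl (.var 3)))) (.mul (.q 1 2) (.add p.eAl p.eEp)))))
    (.add (.q p.q0 10000) (.add (.mul (.q p.q1 10000) (.var 0)) (.mul (.q p.q2 10000) (.var 1)))))
    (.mul .pi (.sub (.mul (.q p.pen 1) p.eA) (.mul (.q p.ek 1) (.add (.mul (.add p.eC (.q 1 2)) p.eE)
      (.mul (.add (.var 0) (.q 1 2)) p.eA)))))

def W1 : E := .neg (.uu (.var 2) (.add (.var 3) p.eAl))
def W2 : E := .sub (.uu (.q 5 1000) (.add (.var 3) p.eAl)) (.q 150 10000)
def W3 : E := .neg (.add (.uu (.sub (.var 2) (.q 1 1)) (.add (.var 3) p.eAl))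
  (.mul .pi (.add (.var 3) p.eAl)))
def W4 : E := .sub (.mul .pi (.add (.var 3) p.eAl))
  (.uu (.sub (.var 2) (.q 1 1)) (.add (.var 3) p.eAl))

/-- constraints -/
def exl : List E :=
  [.sub (.q p.y0 100) eY, .sub eY (.q p.y1 100),
    .sub (.var 3) (.mul (.q p.dm.n1 p.dm.d1) eY),
    .sub (.var 3) (.mul (.q p.dm.n2 p.dm.d2) (.sub (.q 8 10) eY)),
    .sub (.neg (.var 3)) (.mul (.q p.dm.n3 p.dm.d3) eY),
    .sub (.neg (.var 3)) (.mul (.q p.dm.n4 p.dm.d4) (.sub (.q 8 10) eY))]

def box (s0 s1 : ℤ) : List V :=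
  [V.of 10000 p.x0 p.x1, V.of 10000 p.t0 p.t1, V.of 10000 s0 s1, V.of 10000 p.dm.b0 p.dm.b1]

def smin : ℤ := p.x0 + 100 * p.y0
def smax : ℤ := p.x1 + 100 * p.y1

def okA (c : ℕ) : Bool := decide (50 ≤ p.smin) ||
  (decide (0 ≤ p.smin) && chkT (p.main (.q 0 1) :: p.exl) 60 c (p.box p.smin 50))
def okB (c : ℕ) : Bool := decide (9951 ≤ p.smin) ||
  chkT (p.main p.W1 :: p.exl) 60 c (p.box (max p.smin 50) (min p.smax 9950))
def okC (c : ℕ) : Bool := decide (p.smax ≤ 9950) || decide (10051 ≤ p.smin) ||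
  chkT (p.main p.W2 :: p.exl) 60 c (p.box (max p.smin 9950) (min p.smax 10050))
def okD (c : ℕ) : Bool := decide (p.smax ≤ 10050) ||
  chkT (p.main p.W3 :: (p.exl ++ [.neg (.add (.var 3) p.eAl)])) 60 c
    (p.box (max p.smin 10050) p.smax)
def okE (c : ℕ) : Bool := decide (p.smax ≤ 10050) ||
  chkT (p.main p.W4 :: (p.exl ++ [.add (.var 3) p.eAl])) 60 c (p.box (max p.smin 10050) p.smax)

set_option deprecated.oldSectionVars false
variable {p}

theorem main_val {x T y β : ℝ} {W : E} :
    (p.main W).val [x, T, x + y, β] = p.F x T y β (W.val [x, T, x + y, β]) := by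
  simp only [main, eY, eE, eA, eAl, eEp, eC, E.val, NumIs.lkR, F, Pm.e, Pm.a, add_sub_cancel_left]
  push_cast
  simp only [div_one]

theorem exl_false {x T y β : ℝ} (h0 : (p.y0 : ℝ) / 100 ≤ y) (h1 : y ≤ (p.y1 : ℝ) / 100)
    (hd : p.dm.In y β) {e : E} (he : e ∈ p.exl) (hp : 0 < e.val [x, T, x + y, β]) : False := by
  obtain ⟨g1, g2, g3, g4, -, -⟩ := hd
  simp only [exl, List.mem_cons, List.not_mem_nil, or_false] at he
  rcases he with rfl | rfl | rfl | rfl | rfl | rfl
  · simp only [eY, E.val, NumIs.lkR, add_sub_cancel_left] at hp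
    push_cast at hp
    linarith only [h0, hp]
  · simp only [eY, E.val, NumIs.lkR, add_sub_cancel_left] at hp
    push_cast at hp
    linarith only [h1, hp]
  · simp only [eY, E.val, NumIs.lkR, add_sub_cancel_left] at hp
    push_cast at hp
    linarith only [g1, hp]
  · simp only [eY, E.val, NumIs.lkR, add_sub_cancel_left] at hp
    push_cast at hp
    linarith only [g2, hp]
  · simp only [eY, E.val, NumIs.lkR, add_sub_cancel_left] at hp
    push_cast at hp
    linarith only [g3, hp]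
  · simp only [eY, E.val, NumIs.lkR, add_sub_cancel_left] at hp
    push_cast at hp
    linarith only [g4, hp]

theorem get {x T y β : ℝ} {W : E} {l : List E} {n c : ℕ} {s0 s1 : ℤ}
    (h : chkT (p.main W :: (p.exl ++ l)) n c (p.box s0 s1) = true)
    (hx0 : (p.x0 : ℝ) / 10000 ≤ x) (hx1 : x ≤ (p.x1 : ℝ) / 10000) (ht0 : (p.t0 : ℝ) / 10000 ≤ T)
    (ht1 : T ≤ (p.t1 : ℝ) / 10000) (hs0 : (s0 : ℝ) / 10000 ≤ x + y)
    (hs1 : x + y ≤ (s1 : ℝ) / 10000) (h0 : (p.y0 : ℝ) / 100 ≤ y) (h1 : y ≤ (p.y1 : ℝ) / 100)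
    (hd : p.dm.In y β) (hl : ∀ e ∈ l, 0 < e.val [x, T, x + y, β] → False) :
    0 < p.F x T y β (W.val [x, T, x + y, β]) := by
  have hc : ((10000 : ℕ) : ℝ) = 10000 := by norm_num
  obtain ⟨e, he, hp⟩ := chkT4 h (by norm_num) (x := x) (y := T) (z := x + y) (w := β)
    (by rw [hc]; exact hx0) (by rw [hc]; exact hx1) (by rw [hc]; exact ht0)
    (by rw [hc]; exact ht1) (by rw [hc]; exact hs0) (by rw [hc]; exact hs1)
    (by rw [hc]; exact hd.h5) (by rw [hc]; exact hd.h6)
  rcases List.mem_cons.1 he with rfl | he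
  · rwa [main_val] at hp
  · rcases List.mem_append.1 he with he | he
    · exact absurd (exl_false h0 h1 hd he hp) id
    · exact absurd (hl e he hp) id

theorem get' {x T y β : ℝ} {W : E} {n c : ℕ} {s0 s1 : ℤ}
    (h : chkT (p.main W :: p.exl) n c (p.box s0 s1) = true)
    (hx0 : (p.x0 : ℝ) / 10000 ≤ x) (hx1 : x ≤ (p.x1 : ℝ) / 10000) (ht0 : (p.t0 : ℝ) / 10000 ≤ T)
    (ht1 : T ≤ (p.t1 : ℝ) / 10000) (hs0 : (s0 : ℝ) / 10000 ≤ x + y)
    (hs1 : x + y ≤ (s1 : ℝ) / 10000) (h0 : (p.y0 : ℝ) / 100 ≤ y) (h1 : y ≤ (p.y1 : ℝ) / 100)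
    (hd : p.dm.In y β) : 0 < p.F x T y β (W.val [x, T, x + y, β]) :=
  get (l := []) (by rw [List.append_nil]; exact h) hx0 hx1 ht0 ht1 hs0 hs1 h0 h1 hd (by simp)

theorem F_mono {x T y β W W' : ℝ} (h : W ≤ W') (h' : 0 < p.F x T y β W) :
    0 < p.F x T y β W' := by
  unfold F at h' ⊢
  linarith only [h, h']

/-- **Soundness.** `hY`: the heights are at most `46/100`. -/
theorem side_of {ca cb cc cd ce : ℕ} (hA : p.okA ca = true) (hB : p.okB cb = true)
    (hC : p.okC cc = true) (hD : p.okD cd = true) (hE : p.okE ce = true)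
    (hY : ∀ x β : ℝ, (p.x0 : ℝ) / 10000 ≤ x → x ≤ (p.x1 : ℝ) / 10000 →
      (p.dm.b0 : ℝ) / 10000 ≤ β → β ≤ (p.dm.b1 : ℝ) / 10000 → |β + p.sg * p.a x| ≤ 46 / 100) :
    p.Side := by
  intro x T y β hx0 hx1 ht0 ht1 h0 h1 hd
  have hs0 : (p.smin : ℝ) / 10000 ≤ x + y := by
    unfold smin
    push_cast
    linarith only [hx0, h0]
  have hs1 : x + y ≤ (p.smax : ℝ) / 10000 := by
    unfold smax
    push_cast
    linarith only [hx1, h1]
  have hl : ∀ {s k : ℤ}, (s : ℝ) / 10000 ≤ x + y → (k : ℝ) / 10000 ≤ x + y →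
      ((max s k : ℤ) : ℝ) / 10000 ≤ x + y := by
    intro s k h2 h3
    rw [div_le_iff₀ (by norm_num)] at h2 h3 ⊢
    push_cast
    exact max_le h2 h3
  have hr : ∀ {s k : ℤ}, x + y ≤ (s : ℝ) / 10000 → x + y ≤ (k : ℝ) / 10000 →
      x + y ≤ ((min s k : ℤ) : ℝ) / 10000 := by
    intro s k h2 h3
    rw [le_div_iff₀ (by norm_num)] at h2 h3 ⊢
    push_cast
    exact le_min h2 h3
  unfold okA at hA
  unfold okB at hB
  unfold okC at hC
  unfold okD at hD
  unfold okE at hE
  simp only [Bool.or_eq_true, Bool.and_eq_true, decide_eq_true_eq] at hA hB hC hD hE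
  -- near `0`
  rcases lt_or_ge (x + y) (5 / 1000) with c1 | c1
  · obtain ⟨h2, h3⟩ := hA.resolve_left (by
      intro h2
      have : (50 : ℝ) ≤ p.smin := by exact_mod_cast h2
      linarith only [hs0, c1, this])
    have h4 : (0 : ℝ) ≤ p.smin := by exact_mod_cast h2
    have h5 := get' h3 hx0 hx1 ht0 ht1 hs0 (by push_cast; linarith only [c1]) h0 h1 hd
    refine F_mono ?_ h5
    simp only [E.val]
    push_cast
    rw [zero_div]
    exact near_zero (by linarith only [hs0, h4, div_nonneg h4 (by norm_num : (0 : ℝ) ≤ 10000)]) c1.le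
  rcases le_or_gt (x + y) (995 / 1000) with c2 | c2
  · have h3 := hB.resolve_left (by
      intro h2
      have : (9951 : ℝ) ≤ p.smin := by exact_mod_cast h2
      linarith only [hs0, c2, this])
    have h5 := get' h3 hx0 hx1 ht0 ht1 (hl hs0 (by push_cast; linarith only [c1]))
      (hr hs1 (by push_cast; linarith only [c2])) h0 h1 hd
    refine F_mono (le_of_eq ?_) h5
    simp only [W1, eAl, eA, E.val, NumIs.lkR, Pm.a]
    push_cast
    simp only [div_one]
  rcases le_or_gt (x + y) (1005 / 1000) with c3 | c3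
  · have h3 := hC.resolve_left (by
      rintro (h2 | h2)
      · have : (p.smax : ℝ) ≤ 9950 := by exact_mod_cast h2
        linarith only [hs1, c2, this]
      · have : (10051 : ℝ) ≤ p.smin := by exact_mod_cast h2
        linarith only [hs0, c3, this])
    have h5 := get' h3 hx0 hx1 ht0 ht1 (hl hs0 (by push_cast; linarith only [c2]))
      (hr hs1 (by push_cast; linarith only [c3])) h0 h1 hd
    refine F_mono ?_ h5
    simp only [W2, eAl, eA, E.val, NumIs.lkR]
    push_cast
    simp only [div_one]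
    exact near_one c2.le c3 (hY x β hx0 hx1 hd.h5 hd.h6)
  · have hn : ¬ p.smax ≤ 10050 := by
      intro h2
      have : (p.smax : ℝ) ≤ 10050 := by exact_mod_cast h2
      linarith only [hs1, c3, this]
    have h3 := hD.resolve_left hn
    have h3' := hE.resolve_left hn
    have hs : ((max p.smin 10050 : ℤ) : ℝ) / 10000 ≤ x + y := hl hs0 (by push_cast; linarith only [c3])
    rw [right_one]
    rcases le_total 0 (β + p.sg * p.a x) with c4 | c4
    · have h5 := get h3 hx0 hx1 ht0 ht1 hs hs1 h0 h1 hd (by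
        intro e he hp
        simp only [List.mem_cons, List.not_mem_nil, or_false] at he
        subst he
        simp only [eAl, eA, E.val, NumIs.lkR] at hp
        push_cast at hp
        simp only [div_one] at hp
        unfold Pm.a at c4
        linarith only [c4, hp])
      refine F_mono (le_of_eq ?_) h5
      rw [abs_of_nonneg c4]
      simp only [W3, eAl, eA, E.val, NumIs.lkR, Pm.a]
      push_cast
      simp only [div_one]
    · have h5 := get h3' hx0 hx1 ht0 ht1 hs hs1 h0 h1 hd (by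
        intro e he hp
        simp only [List.mem_cons, List.not_mem_nil, or_false] at he
        subst he
        simp only [eAl, eA, E.val, NumIs.lkR] at hp
        push_cast at hp
        simp only [div_one] at hp
        unfold Pm.a at c4
        linarith only [c4, hp])
      refine F_mono (le_of_eq ?_) h5
      rw [abs_of_nonpos c4]
      simp only [W4, eAl, eA, E.val, NumIs.lkR, Pm.a]
      push_cast
      simp only [div_one]
      ring

set_option deprecated.oldSectionVars false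
variable (p) in
/-- bounds of the heights -/
def yOK : Bool := decide (-3000 ≤ p.dm.b0) && (decide (p.dm.b1 ≤ 3000) &&
  ((decide (p.sg = 1) || decide (p.sg = -1)) && (decide (0 < p.ad) &&
  (decide (0 ≤ 10000 * p.a0 + p.a1 * p.x0) && (decide (0 ≤ 10000 * p.a0 + p.a1 * p.x1) &&
  (decide (10000 * p.a0 + p.a1 * p.x0 ≤ 1600 * (p.ad : ℤ)) &&
    decide (10000 * p.a0 + p.a1 * p.x1 ≤ 1600 * (p.ad : ℤ))))))))

theorem a_mem (h : p.yOK = true) {x : ℝ} (h0 : (p.x0 : ℝ) / 10000 ≤ x)
    (h1 : x ≤ (p.x1 : ℝ) / 10000) : 0 ≤ p.a x ∧ p.a x ≤ 16 / 100 := by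
  unfold yOK at h
  simp only [Bool.and_eq_true, decide_eq_true_eq] at h
  obtain ⟨-, -, -, k4, k5, k6, k7, k8⟩ := h
  have j4 : (0 : ℝ) < p.ad := by exact_mod_cast k4
  have j5 : (0 : ℝ) ≤ 10000 * p.a0 + p.a1 * p.x0 := by exact_mod_cast k5
  have j6 : (0 : ℝ) ≤ 10000 * p.a0 + p.a1 * p.x1 := by exact_mod_cast k6
  have j7 : (10000 : ℝ) * p.a0 + p.a1 * p.x0 ≤ 1600 * p.ad := by exact_mod_cast k7
  have j8 : (10000 : ℝ) * p.a0 + p.a1 * p.x1 ≤ 1600 * p.ad := by exact_mod_cast k8
  have ea : p.a x = (p.a0 + p.a1 * x) / p.ad := by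
    unfold Pm.a
    ring
  have key : 0 ≤ (p.a0 : ℝ) + p.a1 * x ∧ (p.a0 : ℝ) + p.a1 * x ≤ 16 / 100 * p.ad := by
    rcases le_total 0 (p.a1 : ℝ) with c | c
    · have m1 := mul_le_mul_of_nonneg_left h0 c
      have m2 := mul_le_mul_of_nonneg_left h1 c
      constructor <;> linarith only [j5, m1, j8, m2]
    · have m1 := mul_le_mul_of_nonpos_left h0 c
      have m2 := mul_le_mul_of_nonpos_left h1 c
      constructor <;> linarith only [j6, m2, j7, m1]
  rw [ea]
  exact ⟨div_nonneg key.1 j4.le, (div_le_iff₀ j4).2 key.2⟩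

theorem Y_le (h : p.yOK = true) (x β : ℝ) (h0 : (p.x0 : ℝ) / 10000 ≤ x)
    (h1 : x ≤ (p.x1 : ℝ) / 10000) (h2 : (p.dm.b0 : ℝ) / 10000 ≤ β)
    (h3 : β ≤ (p.dm.b1 : ℝ) / 10000) : |β + p.sg * p.a x| ≤ 46 / 100 := by
  have g := a_mem h h0 h1
  unfold yOK at h
  simp only [Bool.and_eq_true, Bool.or_eq_true, decide_eq_true_eq] at h
  obtain ⟨k1, k2, k3, -⟩ := h
  have j1 : (-3000 : ℝ) ≤ p.dm.b0 := by exact_mod_cast k1
  have j2 : (p.dm.b1 : ℝ) ≤ 3000 := by exact_mod_cast k2
  rcases k3 with k3 | k3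
  all_goals
    rw [k3, abs_le]
    push_cast
    constructor <;> linarith only [h2, g, j1, h3, j2, g.1, g.2]

set_option deprecated.oldSectionVars false
variable (p) in
def ok (ca cb cc cd ce : ℕ) : Bool :=
  p.yOK && (p.okA ca && (p.okB cb && (p.okC cc && (p.okD cd && p.okE ce))))

theorem side {ca cb cc cd ce : ℕ} (h : p.ok ca cb cc cd ce = true) : p.Side := by
  unfold ok at h
  simp only [Bool.and_eq_true] at h
  obtain ⟨k1, k2, k3, k4, k5, k6⟩ := h
  exact side_of k2 k3 k4 k5 k6 (Y_le k1)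

end Pm

end KR

end Pool.Agent.Work.MP_b30479_gtS.G2

end

section

/-!
# Modes at rings: the targets of a digit `1`, certificates

`goal1_hi`: `k1 ≥ 1/4`, all ramps at once; `goal1_neg`: `k1 ≤ 1/4`, `k2 ≤ 0`.
-/

set_option linter.unusedVariables false
set_option linter.unusedSimpArgs false

set_option deprecated.oldSectionVars true

namespace Pool.Agent.Work.MP_b30479_gtS.G2

open VOL NumUs
open NumUs.E
open NumIs (V)

namespace ZD

/-- the terms in the height `T` alone -/
noncomputable def GG (T : ℝ) : ℝ := uu (17 / 40) T + uu (39 / 40) T - 3 * uu (1 / 5) T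

/-- limit as goal -/
noncomputable def E1 (T k1 k2 U : ℝ) : ℝ :=
  Real.pi * (T * (k1 - 1) + k2 * (k1 - 3 / 10)) + U + GG T

/-- old value as goal -/
noncomputable def E2 (T k1 k2 U : ℝ) : ℝ :=
  Real.pi * (T * (k1 - 1) + 1 / 5 * k2) + U + GG T - uu k1 k2

theorem gR_val (θ x t : ℝ) :
    gR θ x t = uu (x + 9 / 40) t + uu (x + 31 / 40) t - 2 * uu x t - θ := by
  unfold gR fR
  rw [UU_uu, UU_uu, UU_uu]
  simp only [Complex.add_re, Complex.add_im, Complex.sub_re, Complex.sub_im, Complex.one_re,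
    Complex.one_im, Complex.div_ofNat_re, Complex.div_ofNat_im]
  rw [show x + 1 / 2 + -(11 / 40) = x + 9 / 40 by ring,
    show x + 1 / 2 - -(11 / 40) = x + 31 / 40 by ring,
    show -t + 0 / 2 + 0 = -t by ring, show -t + 0 / 2 - 0 = -t by ring, uu_neg, uu_neg, uu_neg]

theorem val_E1 (θ T k1 k2 : ℝ) : gD1 (2 / 10) T k1 k2 + gR θ (2 / 10) T - cA1 k1 k2 =
    E1 T k1 k2 (uu (1 / 5 + k1) (T + k2)) - θ := by
  rw [gR_val]
  unfold gD1 cA1 E1 GG
  rw [show (2 : ℝ) / 10 = 1 / 5 by norm_num, show (1 : ℝ) / 5 + 9 / 40 = 17 / 40 by norm_num,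
    show (1 : ℝ) / 5 + 31 / 40 = 39 / 40 by norm_num]
  ring

theorem val_E2 (θ T k1 k2 : ℝ) : gD1 (2 / 10) T k1 k2 + gR θ (2 / 10) T - oD1 k1 k2 =
    E2 T k1 k2 (uu (1 / 5 + k1) (T + k2)) - θ := by
  rw [gR_val]
  unfold gD1 oD1 E2 GG
  rw [show (2 : ℝ) / 10 = 1 / 5 by norm_num, show (1 : ℝ) / 5 + 9 / 40 = 17 / 40 by norm_num,
    show (1 : ℝ) / 5 + 31 / 40 = 39 / 40 by norm_num]
  ring

/-! ### near `1` -/

theorem smallK2 : 2 * Real.cosh (Real.pi * (2 * (13 / 100))) -
    2 * Real.cos (Real.pi * (2 * (5 / 1000))) < 1 := by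
  have h := TL.E1.smallK
  have h2 : Real.cos (Real.pi * (2 * (5 / 100))) ≤ Real.cos (Real.pi * (2 * (5 / 1000))) := by
    have hp := Real.pi_pos
    apply Real.cos_le_cos_of_nonneg_of_le_pi <;> nlinarith only [hp]
  linarith only [h, h2]

/-- the value near `1`, small heights -/
theorem nearc1 {x y : ℝ} (h0 : 95 / 100 ≤ x) (h1 : x ≤ 1 + 5 / 1000) (hy : |y| ≤ 13 / 100) :
    uu (5 / 1000) y + Real.pi * y ≤ uu x y ∧ uu (5 / 1000) y - Real.pi * y ≤ uu x y :=
  TL.E1.U_d h0 h1 (by norm_num) hy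

/-- `uu` increases with the height right of `1/2` -/
theorem uu_vert {x y y' : ℝ} (h : 1 / 2 ≤ x) (hy : |y| ≤ |y'|) : uu x y ≤ uu x y' := by
  have a2 := Lr_diff_mono (a := x) (b := 1 / 2) (s := |y|) (s' := |y'|) h (abs_nonneg y) hy
  have a3 := uu_one_sub (1 / 2) y
  have a4 := uu_one_sub (1 / 2) y'
  have e : (1 : ℝ) - 1 / 2 = 1 / 2 := by norm_num
  rw [e] at a3 a4
  have b3 : uu (1 / 2) y = 0 := by linarith only [a3]
  have b4 : uu (1 / 2) y' = 0 := by linarith only [a4]
  rw [uu_Lr] at b3 b4 ⊢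
  rw [uu_Lr]
  linarith only [a2, b3, b4]

/-- the value near `1`, large heights -/
theorem nearc1' {x y : ℝ} (h0 : 95 / 100 ≤ x) (h1 : x ≤ 1 + 5 / 1000) (hy : 13 / 100 ≤ y) :
    NumUs.uu (5 / 1000) (13 / 100) + Real.pi * (13 / 100) ≤ uu x y := by
  have a := (nearc1 h0 h1 (y := 13 / 100) (by rw [abs_of_nonneg] <;> norm_num)).1
  have b := uu_vert (x := x) (y := 13 / 100) (y' := y) (by linarith only [h0]) (by
    rw [abs_of_nonneg (by norm_num), abs_of_nonneg (by linarith only [hy])]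
    exact hy)
  linarith only [a, b]

/-- right of `1` -/
theorem shift1 (k1 y : ℝ) : uu (k1 - 8 / 10) y + Real.pi * y ≤ uu (1 / 5 + k1) y ∧
    uu (k1 - 8 / 10) y - Real.pi * y ≤ uu (1 / 5 + k1) y := by
  have e := uu_add_one (k1 - 8 / 10) y
  rw [show k1 - 8 / 10 + 1 = 1 / 5 + k1 by ring] at e
  have hp := Real.pi_pos
  have h2 := mul_le_mul_of_nonneg_left (le_abs_self y) hp.le
  have h3 := mul_le_mul_of_nonneg_left (neg_le_abs y) hp.le
  rw [e]
  constructor <;> linarith only [h2, h3]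

/-! ### rows -/

/-- 87 boxes -/
theorem r_h1 {T k1 k2 U : ℝ}
    (a0 : 380 / 10000 ≤ T) (b0 : T ≤ 1580 / 10000)
    (a1 : 2500 / 10000 ≤ k1) (b1 : k1 ≤ 7950 / 10000)
    (a2 : -(1600 / 10000) ≤ k2) (b2 : k2 ≤ 1600 / 10000)
    (hU : uu (1 / 5 + k1) (T + k2) ≤ U) :
    293 / 1000 < E1 T k1 k2 U := by
  have h : chkT [(.sub (.add (.add (.mul .pi (.add (.mul (.var 0) (.sub (.var 1) (.q 1 1))) (.mul (.var 2)
      (.sub (.var 1) (.q 3 10))))) (.uu (.add (.q 1 5) (.var 1)) (.add (.var 0) (.var 2)))) (.sub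
      (.add (.uu (.q 17 40) (.var 0)) (.uu (.q 39 40) (.var 0))) (.mul (.q 3 1) (.uu (.q 1 5)
      (.var 0))))) (.q 293 1000))] 40
      10955990657600439580905329836169207297371480123636465607082130480646943958819215695919981415446724120595678959335517428526145689713843780921988506453752452703386330151131066340129504233406830438192484410990609
      [V.of 10000 380 1580 0, V.of 10000 2500 7950 0, V.of 10000 (-1600) 1600 0] = true := by
    decide +kernel
  obtain ⟨e, he, hp⟩ := chkT3 h (by norm_num) (x := T) (y := k1) (z := k2)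
    (le_trans (by norm_num) a0) (le_trans b0 (by norm_num))
    (le_trans (by norm_num) a1) (le_trans b1 (by norm_num))
    (le_trans (by norm_num) a2) (le_trans b2 (by norm_num))
  simp only [List.mem_cons, List.not_mem_nil, or_false] at he
  subst he
  simp only [E.val, NumIs.lkR] at hp
  push_cast at hp
  try simp only [div_one] at hp
  try unfold E1 GG
  try unfold E2 GG
  linarith only [hU, hp]

/-- 32 boxes -/
theorem r_h1a {T k1 k2 U : ℝ}
    (a0 : 380 / 10000 ≤ T) (b0 : T ≤ 1580 / 10000)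
    (a1 : 7950 / 10000 ≤ k1) (b1 : k1 ≤ 8050 / 10000)
    (a2 : -(1600 / 10000) ≤ k2) (b2 : k2 ≤ 1600 / 10000)
    (hy : T + k2 ≤ 13 / 100)
    (hU : uu (5 / 1000) (T + k2) + Real.pi * (T + k2) ≤ U)
    (hV : uu (5 / 1000) (T + k2) - Real.pi * (T + k2) ≤ U) :
    293 / 1000 < E1 T k1 k2 U := by
  have h : chkT [(.sub (.add (.add (.mul .pi (.add (.mul (.var 0) (.sub (.var 1) (.q 1 1))) (.mul (.var 2)
      (.sub (.var 1) (.q 3 10))))) (.add (.uu (.q 1 200) (.add (.var 0) (.var 2))) (.mul .pi (.add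
      (.var 0) (.var 2))))) (.sub (.add (.uu (.q 17 40) (.var 0)) (.uu (.q 39 40) (.var 0))) (.mul
      (.q 3 1) (.uu (.q 1 5) (.var 0))))) (.q 293 1000)), (.sub (.add (.add (.mul .pi (.add (.mul
      (.var 0) (.sub (.var 1) (.q 1 1))) (.mul (.var 2) (.sub (.var 1) (.q 3 10))))) (.sub (.uu
      (.q 1 200) (.add (.var 0) (.var 2))) (.mul .pi (.add (.var 0) (.var 2))))) (.sub (.add (.uu
      (.q 17 40) (.var 0)) (.uu (.q 39 40) (.var 0))) (.mul (.q 3 1) (.uu (.q 1 5) (.var 0)))))
      (.q 293 1000)), (.sub (.add (.var 0) (.var 2)) (.q 13 100))] 40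
      3858811473018078816361300836972287118310838808210829812616107527540388667426
      [V.of 10000 380 1580 0, V.of 10000 7950 8050 0, V.of 10000 (-1600) 1600 0] = true := by
    decide +kernel
  obtain ⟨e, he, hp⟩ := chkT3 h (by norm_num) (x := T) (y := k1) (z := k2)
    (le_trans (by norm_num) a0) (le_trans b0 (by norm_num))
    (le_trans (by norm_num) a1) (le_trans b1 (by norm_num))
    (le_trans (by norm_num) a2) (le_trans b2 (by norm_num))
  simp only [List.mem_cons, List.not_mem_nil, or_false] at he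
  rcases he with rfl | rfl | rfl
  · simp only [E.val, NumIs.lkR] at hp
    push_cast at hp
    try simp only [div_one] at hp
    try unfold E1 GG
    try unfold E2 GG
    linarith only [hU, hp]
  · simp only [E.val, NumIs.lkR] at hp
    push_cast at hp
    try simp only [div_one] at hp
    try unfold E1 GG
    try unfold E2 GG
    linarith only [hV, hp]
  · simp only [E.val, NumIs.lkR] at hp
    push_cast at hp
    try simp only [div_one] at hp
    try unfold E1 GG
    try unfold E2 GG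
    linarith only [hy, hp]

/-- 1 boxes -/
theorem r_h1b {T k1 k2 U : ℝ}
    (a0 : 380 / 10000 ≤ T) (b0 : T ≤ 1580 / 10000)
    (a1 : 7950 / 10000 ≤ k1) (b1 : k1 ≤ 8050 / 10000)
    (a2 : -(1600 / 10000) ≤ k2) (b2 : k2 ≤ 1600 / 10000)
    (hy : 13 / 100 ≤ T + k2) (hU : NumUs.uu (5 / 1000) (13 / 100) + Real.pi * (13 / 100) ≤ U) :
    293 / 1000 < E1 T k1 k2 U := by
  have h : chkT [(.sub (.add (.add (.mul .pi (.add (.mul (.var 0) (.sub (.var 1) (.q 1 1))) (.mul (.var 2)
      (.sub (.var 1) (.q 3 10))))) (.add (.uu (.q 1 200) (.q 13 100)) (.mul .pi (.q 13 100))))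
      (.sub (.add (.uu (.q 17 40) (.var 0)) (.uu (.q 39 40) (.var 0))) (.mul (.q 3 1) (.uu (.q 1
      5) (.var 0))))) (.q 293 1000)), (.sub (.q 13 100) (.add (.var 0) (.var 2)))] 40
      8
      [V.of 10000 380 1580 0, V.of 10000 7950 8050 0, V.of 10000 (-1600) 1600 0] = true := by
    decide +kernel
  obtain ⟨e, he, hp⟩ := chkT3 h (by norm_num) (x := T) (y := k1) (z := k2)
    (le_trans (by norm_num) a0) (le_trans b0 (by norm_num))
    (le_trans (by norm_num) a1) (le_trans b1 (by norm_num))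
    (le_trans (by norm_num) a2) (le_trans b2 (by norm_num))
  simp only [List.mem_cons, List.not_mem_nil, or_false] at he
  rcases he with rfl | rfl
  · simp only [E.val, NumIs.lkR] at hp
    push_cast at hp
    try simp only [div_one] at hp
    try unfold E1 GG
    try unfold E2 GG
    linarith only [hU, hp]
  · simp only [E.val, NumIs.lkR] at hp
    push_cast at hp
    try simp only [div_one] at hp
    try unfold E1 GG
    try unfold E2 GG
    linarith only [hy, hp]

/-- 141 boxes -/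
theorem r_h1c {T k1 k2 U : ℝ}
    (a0 : 380 / 10000 ≤ T) (b0 : T ≤ 1580 / 10000)
    (a1 : 8050 / 10000 ≤ k1) (b1 : k1 ≤ 8600 / 10000)
    (a2 : -(1600 / 10000) ≤ k2) (b2 : k2 ≤ 1600 / 10000)
    (hU : uu (k1 - 8 / 10) (T + k2) + Real.pi * (T + k2) ≤ U)
    (hV : uu (k1 - 8 / 10) (T + k2) - Real.pi * (T + k2) ≤ U) :
    293 / 1000 < E1 T k1 k2 U := by
  have h : chkT [(.sub (.add (.add (.mul .pi (.add (.mul (.var 0) (.sub (.var 1) (.q 1 1))) (.mul (.var 2)
      (.sub (.var 1) (.q 3 10))))) (.add (.uu (.sub (.var 1) (.q 4 5)) (.add (.var 0) (.var 2)))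
      (.mul .pi (.add (.var 0) (.var 2))))) (.sub (.add (.uu (.q 17 40) (.var 0)) (.uu (.q 39 40)
      (.var 0))) (.mul (.q 3 1) (.uu (.q 1 5) (.var 0))))) (.q 293 1000)), (.sub (.add (.add (.mul
      .pi (.add (.mul (.var 0) (.sub (.var 1) (.q 1 1))) (.mul (.var 2) (.sub (.var 1) (.q 3
      10))))) (.sub (.uu (.sub (.var 1) (.q 4 5)) (.add (.var 0) (.var 2))) (.mul .pi (.add (.var
      0) (.var 2))))) (.sub (.add (.uu (.q 17 40) (.var 0)) (.uu (.q 39 40) (.var 0))) (.mul (.q 3
      1) (.uu (.q 1 5) (.var 0))))) (.q 293 1000))] 40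
      121509373062841627328253978131419798514480061713406499916212770931551539238656636863342484301620407847080564516734890324667314238723209856095959970161376159768241193589618147225276780835313812433205489892512025176652512943452944524070584078145037231052757677180727113605293095959860498798266113070952650833951554445742548853731500404904465
      [V.of 10000 380 1580 0, V.of 10000 8050 8600 0, V.of 10000 (-1600) 1600 0] = true := by
    decide +kernel
  obtain ⟨e, he, hp⟩ := chkT3 h (by norm_num) (x := T) (y := k1) (z := k2)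
    (le_trans (by norm_num) a0) (le_trans b0 (by norm_num))
    (le_trans (by norm_num) a1) (le_trans b1 (by norm_num))
    (le_trans (by norm_num) a2) (le_trans b2 (by norm_num))
  simp only [List.mem_cons, List.not_mem_nil, or_false] at he
  rcases he with rfl | rfl
  · simp only [E.val, NumIs.lkR] at hp
    push_cast at hp
    try simp only [div_one] at hp
    try unfold E1 GG
    try unfold E2 GG
    linarith only [hU, hp]
  · simp only [E.val, NumIs.lkR] at hp
    push_cast at hp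
    try simp only [div_one] at hp
    try unfold E1 GG
    try unfold E2 GG
    linarith only [hV, hp]

/-- 65 boxes -/
theorem r_h2 {T k1 k2 U : ℝ}
    (a0 : 380 / 10000 ≤ T) (b0 : T ≤ 1580 / 10000)
    (a1 : 5000 / 10000 ≤ k1) (b1 : k1 ≤ 7950 / 10000)
    (a2 : -(1600 / 10000) ≤ k2) (b2 : k2 ≤ 1600 / 10000)
    (hU : uu (1 / 5 + k1) (T + k2) ≤ U) :
    109 / 1000 < E2 T k1 k2 U := by
  have h : chkT [(.sub (.sub (.add (.add (.mul .pi (.add (.mul (.var 0) (.sub (.var 1) (.q 1 1))) (.mul (.q 1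
      5) (.var 2)))) (.uu (.add (.q 1 5) (.var 1)) (.add (.var 0) (.var 2)))) (.sub (.add (.uu (.q
      17 40) (.var 0)) (.uu (.q 39 40) (.var 0))) (.mul (.q 3 1) (.uu (.q 1 5) (.var 0))))) (.uu
      (.var 1) (.var 2))) (.q 109 1000))] 40
      114385879663024386055150190346556440833706815394492121116506360528880736121635605926745361498593220563709640878825466671849200874454583053764948111977973793
      [V.of 10000 380 1580 0, V.of 10000 5000 7950 0, V.of 10000 (-1600) 1600 0] = true := by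
    decide +kernel
  obtain ⟨e, he, hp⟩ := chkT3 h (by norm_num) (x := T) (y := k1) (z := k2)
    (le_trans (by norm_num) a0) (le_trans b0 (by norm_num))
    (le_trans (by norm_num) a1) (le_trans b1 (by norm_num))
    (le_trans (by norm_num) a2) (le_trans b2 (by norm_num))
  simp only [List.mem_cons, List.not_mem_nil, or_false] at he
  subst he
  simp only [E.val, NumIs.lkR] at hp
  push_cast at hp
  try simp only [div_one] at hp
  try unfold E1 GG
  try unfold E2 GG
  linarith only [hU, hp]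

/-- 28 boxes -/
theorem r_h2a {T k1 k2 U : ℝ}
    (a0 : 380 / 10000 ≤ T) (b0 : T ≤ 1580 / 10000)
    (a1 : 7950 / 10000 ≤ k1) (b1 : k1 ≤ 8050 / 10000)
    (a2 : -(1600 / 10000) ≤ k2) (b2 : k2 ≤ 1600 / 10000)
    (hy : T + k2 ≤ 13 / 100)
    (hU : uu (5 / 1000) (T + k2) + Real.pi * (T + k2) ≤ U)
    (hV : uu (5 / 1000) (T + k2) - Real.pi * (T + k2) ≤ U) :
    109 / 1000 < E2 T k1 k2 U := by
  have h : chkT [(.sub (.sub (.add (.add (.mul .pi (.add (.mul (.var 0) (.sub (.var 1) (.q 1 1))) (.mul (.q 1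
      5) (.var 2)))) (.add (.uu (.q 1 200) (.add (.var 0) (.var 2))) (.mul .pi (.add (.var 0)
      (.var 2))))) (.sub (.add (.uu (.q 17 40) (.var 0)) (.uu (.q 39 40) (.var 0))) (.mul (.q 3 1)
      (.uu (.q 1 5) (.var 0))))) (.uu (.var 1) (.var 2))) (.q 109 1000)), (.sub (.sub (.add (.add
      (.mul .pi (.add (.mul (.var 0) (.sub (.var 1) (.q 1 1))) (.mul (.q 1 5) (.var 2)))) (.sub
      (.uu (.q 1 200) (.add (.var 0) (.var 2))) (.mul .pi (.add (.var 0) (.var 2))))) (.sub (.add
      (.uu (.q 17 40) (.var 0)) (.uu (.q 39 40) (.var 0))) (.mul (.q 3 1) (.uu (.q 1 5) (.var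
      0))))) (.uu (.var 1) (.var 2))) (.q 109 1000)), (.sub (.add (.var 0) (.var 2)) (.q 13 100))] 40
      898449559001736067317636925333054633403140513626629582858077872162
      [V.of 10000 380 1580 0, V.of 10000 7950 8050 0, V.of 10000 (-1600) 1600 0] = true := by
    decide +kernel
  obtain ⟨e, he, hp⟩ := chkT3 h (by norm_num) (x := T) (y := k1) (z := k2)
    (le_trans (by norm_num) a0) (le_trans b0 (by norm_num))
    (le_trans (by norm_num) a1) (le_trans b1 (by norm_num))
    (le_trans (by norm_num) a2) (le_trans b2 (by norm_num))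
  simp only [List.mem_cons, List.not_mem_nil, or_false] at he
  rcases he with rfl | rfl | rfl
  · simp only [E.val, NumIs.lkR] at hp
    push_cast at hp
    try simp only [div_one] at hp
    try unfold E1 GG
    try unfold E2 GG
    linarith only [hU, hp]
  · simp only [E.val, NumIs.lkR] at hp
    push_cast at hp
    try simp only [div_one] at hp
    try unfold E1 GG
    try unfold E2 GG
    linarith only [hV, hp]
  · simp only [E.val, NumIs.lkR] at hp
    push_cast at hp
    try simp only [div_one] at hp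
    try unfold E1 GG
    try unfold E2 GG
    linarith only [hy, hp]

/-- 1 boxes -/
theorem r_h2b {T k1 k2 U : ℝ}
    (a0 : 380 / 10000 ≤ T) (b0 : T ≤ 1580 / 10000)
    (a1 : 7950 / 10000 ≤ k1) (b1 : k1 ≤ 8050 / 10000)
    (a2 : -(1600 / 10000) ≤ k2) (b2 : k2 ≤ 1600 / 10000)
    (hy : 13 / 100 ≤ T + k2) (hU : NumUs.uu (5 / 1000) (13 / 100) + Real.pi * (13 / 100) ≤ U) :
    109 / 1000 < E2 T k1 k2 U := by
  have h : chkT [(.sub (.sub (.add (.add (.mul .pi (.add (.mul (.var 0) (.sub (.var 1) (.q 1 1))) (.mul (.q 1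
      5) (.var 2)))) (.add (.uu (.q 1 200) (.q 13 100)) (.mul .pi (.q 13 100)))) (.sub (.add (.uu
      (.q 17 40) (.var 0)) (.uu (.q 39 40) (.var 0))) (.mul (.q 3 1) (.uu (.q 1 5) (.var 0)))))
      (.uu (.var 1) (.var 2))) (.q 109 1000)), (.sub (.q 13 100) (.add (.var 0) (.var 2)))] 40
      8
      [V.of 10000 380 1580 0, V.of 10000 7950 8050 0, V.of 10000 (-1600) 1600 0] = true := by
    decide +kernel
  obtain ⟨e, he, hp⟩ := chkT3 h (by norm_num) (x := T) (y := k1) (z := k2)
    (le_trans (by norm_num) a0) (le_trans b0 (by norm_num))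
    (le_trans (by norm_num) a1) (le_trans b1 (by norm_num))
    (le_trans (by norm_num) a2) (le_trans b2 (by norm_num))
  simp only [List.mem_cons, List.not_mem_nil, or_false] at he
  rcases he with rfl | rfl
  · simp only [E.val, NumIs.lkR] at hp
    push_cast at hp
    try simp only [div_one] at hp
    try unfold E1 GG
    try unfold E2 GG
    linarith only [hU, hp]
  · simp only [E.val, NumIs.lkR] at hp
    push_cast at hp
    try simp only [div_one] at hp
    try unfold E1 GG
    try unfold E2 GG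
    linarith only [hy, hp]

/-- 72 boxes -/
theorem r_h2c {T k1 k2 U : ℝ}
    (a0 : 380 / 10000 ≤ T) (b0 : T ≤ 1580 / 10000)
    (a1 : 8050 / 10000 ≤ k1) (b1 : k1 ≤ 8600 / 10000)
    (a2 : -(1600 / 10000) ≤ k2) (b2 : k2 ≤ 1600 / 10000)
    (hU : uu (k1 - 8 / 10) (T + k2) + Real.pi * (T + k2) ≤ U)
    (hV : uu (k1 - 8 / 10) (T + k2) - Real.pi * (T + k2) ≤ U) :
    109 / 1000 < E2 T k1 k2 U := by
  have h : chkT [(.sub (.sub (.add (.add (.mul .pi (.add (.mul (.var 0) (.sub (.var 1) (.q 1 1))) (.mul (.q 1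
      5) (.var 2)))) (.add (.uu (.sub (.var 1) (.q 4 5)) (.add (.var 0) (.var 2))) (.mul .pi (.add
      (.var 0) (.var 2))))) (.sub (.add (.uu (.q 17 40) (.var 0)) (.uu (.q 39 40) (.var 0))) (.mul
      (.q 3 1) (.uu (.q 1 5) (.var 0))))) (.uu (.var 1) (.var 2))) (.q 109 1000)), (.sub (.sub
      (.add (.add (.mul .pi (.add (.mul (.var 0) (.sub (.var 1) (.q 1 1))) (.mul (.q 1 5) (.var
      2)))) (.sub (.uu (.sub (.var 1) (.q 4 5)) (.add (.var 0) (.var 2))) (.mul .pi (.add (.var 0)
      (.var 2))))) (.sub (.add (.uu (.q 17 40) (.var 0)) (.uu (.q 39 40) (.var 0))) (.mul (.q 3 1)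
      (.uu (.q 1 5) (.var 0))))) (.uu (.var 1) (.var 2))) (.q 109 1000))] 40
      8242371282420169836273544940940993010235339703405430360368783301759601903865706171653559530448209978635998196797806753476063122624168943558921672616788564820478195239358993
      [V.of 10000 380 1580 0, V.of 10000 8050 8600 0, V.of 10000 (-1600) 1600 0] = true := by
    decide +kernel
  obtain ⟨e, he, hp⟩ := chkT3 h (by norm_num) (x := T) (y := k1) (z := k2)
    (le_trans (by norm_num) a0) (le_trans b0 (by norm_num))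
    (le_trans (by norm_num) a1) (le_trans b1 (by norm_num))
    (le_trans (by norm_num) a2) (le_trans b2 (by norm_num))
  simp only [List.mem_cons, List.not_mem_nil, or_false] at he
  rcases he with rfl | rfl
  · simp only [E.val, NumIs.lkR] at hp
    push_cast at hp
    try simp only [div_one] at hp
    try unfold E1 GG
    try unfold E2 GG
    linarith only [hU, hp]
  · simp only [E.val, NumIs.lkR] at hp
    push_cast at hp
    try simp only [div_one] at hp
    try unfold E1 GG
    try unfold E2 GG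
    linarith only [hV, hp]

/-- 6 boxes -/
theorem r_n {T k1 k2 U : ℝ}
    (a0 : 380 / 10000 ≤ T) (b0 : T ≤ 1450 / 10000)
    (a1 : 0 ≤ k1) (b1 : k1 ≤ 2500 / 10000)
    (a2 : -(1600 / 10000) ≤ k2) (b2 : k2 ≤ 0)
    (hk : -(16 / 15 * k1) ≤ k2)
    (hU : uu (1 / 5 + k1) (T + k2) ≤ U) :
    109 / 1000 + 1 / 5 * k1 < E1 T k1 k2 U := by
  have h : chkT [(.sub (.add (.add (.mul .pi (.add (.mul (.var 0) (.sub (.var 1) (.q 1 1))) (.mul (.var 2)
      (.sub (.var 1) (.q 3 10))))) (.uu (.add (.q 1 5) (.var 1)) (.add (.var 0) (.var 2)))) (.sub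
      (.add (.uu (.q 17 40) (.var 0)) (.uu (.q 39 40) (.var 0))) (.mul (.q 3 1) (.uu (.q 1 5)
      (.var 0))))) (.add (.q 109 1000) (.mul (.q 1 5) (.var 1)))), (.sub (.neg (.mul (.q 16 15)
      (.var 1))) (.var 2))] 40
      9382391187457
      [V.of 10000 380 1450 0, V.of 10000 0 2500 0, V.of 10000 (-1600) 0 0] = true := by
    decide +kernel
  obtain ⟨e, he, hp⟩ := chkT3 h (by norm_num) (x := T) (y := k1) (z := k2)
    (le_trans (by norm_num) a0) (le_trans b0 (by norm_num))
    (le_trans (by norm_num) a1) (le_trans b1 (by norm_num))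
    (le_trans (by norm_num) a2) (le_trans b2 (by norm_num))
  simp only [List.mem_cons, List.not_mem_nil, or_false] at he
  rcases he with rfl | rfl
  · simp only [E.val, NumIs.lkR] at hp
    push_cast at hp
    try simp only [div_one] at hp
    try unfold E1 GG
    try unfold E2 GG
    linarith only [hU, hp]
  · simp only [E.val, NumIs.lkR] at hp
    push_cast at hp
    try simp only [div_one] at hp
    try unfold E1 GG
    try unfold E2 GG
    linarith only [hk, hp]

/-- 60 boxes -/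
theorem r_p1a {T k1 k2 U : ℝ}
    (a0 : 380 / 10000 ≤ T) (b0 : T ≤ 1360 / 10000)
    (a1 : 0 ≤ k1) (b1 : k1 ≤ 1500 / 10000)
    (a2 : 0 ≤ k2) (b2 : k2 ≤ 1180 / 10000)
    (hk : k2 ≤ 118 / 150 * k1)
    (hs : k1 * T + 15 / 100 * k2 ≤ 143 / 1000 * k1) (hU : uu (1 / 5 + k1) (T + k2) ≤ U) :
    109 / 1000 + 1 / 5 * k1 + 65 / 100 * k2 < E1 T k1 k2 U := by
  have h : chkT [(.sub (.add (.add (.mul .pi (.add (.mul (.var 0) (.sub (.var 1) (.q 1 1))) (.mul (.var 2)
      (.sub (.var 1) (.q 3 10))))) (.uu (.add (.q 1 5) (.var 1)) (.add (.var 0) (.var 2)))) (.sub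
      (.add (.uu (.q 17 40) (.var 0)) (.uu (.q 39 40) (.var 0))) (.mul (.q 3 1) (.uu (.q 1 5)
      (.var 0))))) (.add (.add (.q 109 1000) (.mul (.q 1 5) (.var 1))) (.mul (.q 13 20) (.var
      2)))), (.sub (.var 2) (.mul (.q 59 75) (.var 1))), (.sub (.add (.mul (.var 1) (.var 0))
      (.mul (.q 3 20) (.var 2))) (.mul (.q 143 1000) (.var 1)))] 40
      128423523527124194252340408095489690137686230287453963306819521221469479973729304868734527082644158670044906253976882620566835743233250420597024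
      [V.of 10000 380 1360 0, V.of 10000 0 1500 0, V.of 10000 0 1180 0] = true := by
    decide +kernel
  obtain ⟨e, he, hp⟩ := chkT3 h (by norm_num) (x := T) (y := k1) (z := k2)
    (le_trans (by norm_num) a0) (le_trans b0 (by norm_num))
    (le_trans (by norm_num) a1) (le_trans b1 (by norm_num))
    (le_trans (by norm_num) a2) (le_trans b2 (by norm_num))
  simp only [List.mem_cons, List.not_mem_nil, or_false] at he
  rcases he with rfl | rfl | rfl
  · simp only [E.val, NumIs.lkR] at hp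
    push_cast at hp
    try simp only [div_one] at hp
    try unfold E1 GG
    try unfold E2 GG
    linarith only [hU, hp]
  · simp only [E.val, NumIs.lkR] at hp
    push_cast at hp
    try simp only [div_one] at hp
    try unfold E1 GG
    try unfold E2 GG
    linarith only [hk, hp]
  · simp only [E.val, NumIs.lkR] at hp
    push_cast at hp
    try simp only [div_one] at hp
    try unfold E1 GG
    try unfold E2 GG
    linarith only [hs, hp]

/-- 7 boxes -/
theorem r_p1b {T k1 k2 U : ℝ}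
    (a0 : 380 / 10000 ≤ T) (b0 : T ≤ 1360 / 10000)
    (a1 : 1500 / 10000 ≤ k1) (b1 : k1 ≤ 2500 / 10000)
    (a2 : 0 ≤ k2) (b2 : k2 ≤ 1180 / 10000)
    (hs : T + k2 ≤ 143 / 1000)
    (hU : uu (1 / 5 + k1) (T + k2) ≤ U) :
    109 / 1000 + 1 / 5 * k1 + 65 / 100 * k2 < E1 T k1 k2 U := by
  have h : chkT [(.sub (.add (.add (.mul .pi (.add (.mul (.var 0) (.sub (.var 1) (.q 1 1))) (.mul (.var 2)
      (.sub (.var 1) (.q 3 10))))) (.uu (.add (.q 1 5) (.var 1)) (.add (.var 0) (.var 2)))) (.sub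
      (.add (.uu (.q 17 40) (.var 0)) (.uu (.q 39 40) (.var 0))) (.mul (.q 3 1) (.uu (.q 1 5)
      (.var 0))))) (.add (.add (.q 109 1000) (.mul (.q 1 5) (.var 1))) (.mul (.q 13 20) (.var
      2)))), (.sub (.add (.var 0) (.var 2)) (.q 143 1000))] 40
      2676801902090240
      [V.of 10000 380 1360 0, V.of 10000 1500 2500 0, V.of 10000 0 1180 0] = true := by
    decide +kernel
  obtain ⟨e, he, hp⟩ := chkT3 h (by norm_num) (x := T) (y := k1) (z := k2)
    (le_trans (by norm_num) a0) (le_trans b0 (by norm_num))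
    (le_trans (by norm_num) a1) (le_trans b1 (by norm_num))
    (le_trans (by norm_num) a2) (le_trans b2 (by norm_num))
  simp only [List.mem_cons, List.not_mem_nil, or_false] at he
  rcases he with rfl | rfl
  · simp only [E.val, NumIs.lkR] at hp
    push_cast at hp
    try simp only [div_one] at hp
    try unfold E1 GG
    try unfold E2 GG
    linarith only [hU, hp]
  · simp only [E.val, NumIs.lkR] at hp
    push_cast at hp
    try simp only [div_one] at hp
    try unfold E1 GG
    try unfold E2 GG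
    linarith only [hs, hp]

/-- 258 boxes -/
theorem r_p2a {T k1 k2 U : ℝ}
    (a0 : 630 / 10000 ≤ T) (b0 : T ≤ 1450 / 10000)
    (a1 : 0 ≤ k1) (b1 : k1 ≤ 1600 / 10000)
    (a2 : 0 ≤ k2) (b2 : k2 ≤ 985 / 10000)
    (hk : k2 ≤ 985 / 1600 * k1)
    (hs : k1 * T + 16 / 100 * k2 ≤ 187 / 1000 * k1) (hU : uu (1 / 5 + k1) (T + k2) ≤ U) :
    109 / 1000 + 1 / 5 * k1 + 65 / 100 * k2 < E1 T k1 k2 U := by
  have h : chkT [(.sub (.add (.add (.mul .pi (.add (.mul (.var 0) (.sub (.var 1) (.q 1 1))) (.mul (.var 2)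
      (.sub (.var 1) (.q 3 10))))) (.uu (.add (.q 1 5) (.var 1)) (.add (.var 0) (.var 2)))) (.sub
      (.add (.uu (.q 17 40) (.var 0)) (.uu (.q 39 40) (.var 0))) (.mul (.q 3 1) (.uu (.q 1 5)
      (.var 0))))) (.add (.add (.q 109 1000) (.mul (.q 1 5) (.var 1))) (.mul (.q 13 20) (.var
      2)))), (.sub (.var 2) (.mul (.q 197 320) (.var 1))), (.sub (.add (.mul (.var 1) (.var 0))
      (.mul (.q 4 25) (.var 2))) (.mul (.q 187 1000) (.var 1)))] 40
      88161124698066039848202927024145456594509328010871303050102877063253746855620778297535037684067750643516728981081697018747857299261387991471118043276704589125545984892709434443156046507007363618415121990786190827346210766016042322814264181553554281306048270054482548921628966137239299188266520410046368667040913953027124899249032878118341556182513480633138217009309799141353582961311719073566582173953317447692269071888210643597856203325414944330328550606715839395887784425031178959921794704611886527430808401467347443062977683749164014059166487249484374282043758399476216315281319959624026757995530159694034343196368929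
      [V.of 10000 630 1450 0, V.of 10000 0 1600 0, V.of 10000 0 985 0] = true := by
    decide +kernel
  obtain ⟨e, he, hp⟩ := chkT3 h (by norm_num) (x := T) (y := k1) (z := k2)
    (le_trans (by norm_num) a0) (le_trans b0 (by norm_num))
    (le_trans (by norm_num) a1) (le_trans b1 (by norm_num))
    (le_trans (by norm_num) a2) (le_trans b2 (by norm_num))
  simp only [List.mem_cons, List.not_mem_nil, or_false] at he
  rcases he with rfl | rfl | rfl
  · simp only [E.val, NumIs.lkR] at hp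
    push_cast at hp
    try simp only [div_one] at hp
    try unfold E1 GG
    try unfold E2 GG
    linarith only [hU, hp]
  · simp only [E.val, NumIs.lkR] at hp
    push_cast at hp
    try simp only [div_one] at hp
    try unfold E1 GG
    try unfold E2 GG
    linarith only [hk, hp]
  · simp only [E.val, NumIs.lkR] at hp
    push_cast at hp
    try simp only [div_one] at hp
    try unfold E1 GG
    try unfold E2 GG
    linarith only [hs, hp]

/-- 2 boxes -/
theorem r_p2b {T k1 k2 U : ℝ}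
    (a0 : 630 / 10000 ≤ T) (b0 : T ≤ 1450 / 10000)
    (a1 : 1600 / 10000 ≤ k1) (b1 : k1 ≤ 2500 / 10000)
    (a2 : 0 ≤ k2) (b2 : k2 ≤ 985 / 10000)
    (hs : T + k2 ≤ 187 / 1000)
    (hU : uu (1 / 5 + k1) (T + k2) ≤ U) :
    109 / 1000 + 1 / 5 * k1 + 65 / 100 * k2 < E1 T k1 k2 U := by
  have h : chkT [(.sub (.add (.add (.mul .pi (.add (.mul (.var 0) (.sub (.var 1) (.q 1 1))) (.mul (.var 2)
      (.sub (.var 1) (.q 3 10))))) (.uu (.add (.q 1 5) (.var 1)) (.add (.var 0) (.var 2)))) (.sub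
      (.add (.uu (.q 17 40) (.var 0)) (.uu (.q 39 40) (.var 0))) (.mul (.q 3 1) (.uu (.q 1 5)
      (.var 0))))) (.add (.add (.q 109 1000) (.mul (.q 1 5) (.var 1))) (.mul (.q 13 20) (.var
      2)))), (.sub (.add (.var 0) (.var 2)) (.q 187 1000))] 40
      2176
      [V.of 10000 630 1450 0, V.of 10000 1600 2500 0, V.of 10000 0 985 0] = true := by
    decide +kernel
  obtain ⟨e, he, hp⟩ := chkT3 h (by norm_num) (x := T) (y := k1) (z := k2)
    (le_trans (by norm_num) a0) (le_trans b0 (by norm_num))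
    (le_trans (by norm_num) a1) (le_trans b1 (by norm_num))
    (le_trans (by norm_num) a2) (le_trans b2 (by norm_num))
  simp only [List.mem_cons, List.not_mem_nil, or_false] at he
  rcases he with rfl | rfl
  · simp only [E.val, NumIs.lkR] at hp
    push_cast at hp
    try simp only [div_one] at hp
    try unfold E1 GG
    try unfold E2 GG
    linarith only [hU, hp]
  · simp only [E.val, NumIs.lkR] at hp
    push_cast at hp
    try simp only [div_one] at hp
    try unfold E1 GG
    try unfold E2 GG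
    linarith only [hs, hp]

/-- all ramps, `k1 ≥ 1/4` -/
theorem goal1_hi {θ T k1 k2 : ℝ} (hθ : θ ≤ 108 / 1000) (hT : 38 / 1000 ≤ T) (hT' : T ≤ 158 / 1000)
    (hk : 1 / 4 ≤ k1) (hk' : k1 ≤ 86 / 100) (h2 : |k2| ≤ 16 / 100) :
    Goal1 θ (2 / 10) T k1 k2 := by
  obtain ⟨l2, u2⟩ := abs_le.1 h2
  have hm : mA1 k1 k2 = 18 / 100 := if_neg (by linarith only [hk])
  constructor
  · have e := val_E1 θ T k1 k2
    have g : 293 / 1000 < E1 T k1 k2 (uu (1 / 5 + k1) (T + k2)) := by
      rcases le_total k1 (7950 / 10000) with c1 | c1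
      · exact r_h1 (by linarith only [hT]) (by linarith only [hT']) (by linarith only [hk]) (by linarith only [c1]) (by linarith only [l2])
          (by linarith only [u2]) le_rfl
      rcases le_total k1 (8050 / 10000) with c2 | c2
      · rcases le_total (T + k2) (13 / 100) with c3 | c3
        · obtain ⟨n1, n2⟩ := nearc1 (x := 1 / 5 + k1) (y := T + k2) (by linarith only [c1]) (by linarith only [c2])
            (abs_le.2 ⟨by linarith only [hT, l2], c3⟩)
          exact r_h1a (by linarith only [hT]) (by linarith only [hT']) (by linarith only [c1]) (by linarith only [c2]) (by linarith only [l2])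
            (by linarith only [u2]) c3 n1 n2
        · exact r_h1b (by linarith only [hT]) (by linarith only [hT']) (by linarith only [c1]) (by linarith only [c2]) (by linarith only [hT', c3])
            (by linarith only [u2]) c3 (nearc1' (by linarith only [c1]) (by linarith only [c2]) c3)
      · obtain ⟨n1, n2⟩ := shift1 k1 (T + k2)
        exact r_h1c (by linarith only [hT]) (by linarith only [hT']) (by linarith only [c2]) (by linarith only [hk']) (by linarith only [l2])
          (by linarith only [u2]) n1 n2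
    rw [hm]
    linarith only [hθ, e, g]
  · intro hh
    have e := val_E2 θ T k1 k2
    have g : 109 / 1000 < E2 T k1 k2 (uu (1 / 5 + k1) (T + k2)) := by
      rcases le_total k1 (7950 / 10000) with c1 | c1
      · exact r_h2 (by linarith only [hT]) (by linarith only [hT']) (by linarith only [hh]) (by linarith only [c1]) (by linarith only [l2])
          (by linarith only [u2]) le_rfl
      rcases le_total k1 (8050 / 10000) with c2 | c2
      · rcases le_total (T + k2) (13 / 100) with c3 | c3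
        · obtain ⟨n1, n2⟩ := nearc1 (x := 1 / 5 + k1) (y := T + k2) (by linarith only [c1]) (by linarith only [c2])
            (abs_le.2 ⟨by linarith only [hT, l2], c3⟩)
          exact r_h2a (by linarith only [hT]) (by linarith only [hT']) (by linarith only [c1]) (by linarith only [c2]) (by linarith only [l2])
            (by linarith only [u2]) c3 n1 n2
        · exact r_h2b (by linarith only [hT]) (by linarith only [hT']) (by linarith only [c1]) (by linarith only [c2]) (by linarith only [hT', c3])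
            (by linarith only [u2]) c3 (nearc1' (by linarith only [c1]) (by linarith only [c2]) c3)
      · obtain ⟨n1, n2⟩ := shift1 k1 (T + k2)
        exact r_h2c (by linarith only [hT]) (by linarith only [hT']) (by linarith only [c2]) (by linarith only [hk']) (by linarith only [l2])
          (by linarith only [u2]) n1 n2
    linarith only [hθ, e, g]

/-- `k1 < 1/4`, `k2 ≤ 0` -/
theorem goal1_neg {θ T k1 k2 : ℝ} (hθ : θ ≤ 1 / 10) (hT : 38 / 1000 ≤ T) (hT' : T ≤ 145 / 1000)
    (h0 : 0 ≤ k1) (hk : k1 < 1 / 4) (h1 : -(16 / 100) ≤ k2) (h2 : k2 ≤ 0)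
    (h3 : -(16 / 15 * k1) ≤ k2) : Goal1 θ (2 / 10) T k1 k2 := by
  have hm : mA1 k1 k2 = 4 / 1000 + 1 / 5 * k1 := by
    unfold mA1
    rw [if_pos hk, max_eq_right h2, mul_zero, add_zero]
  constructor
  · have e := val_E1 θ T k1 k2
    have g := r_n (T := T) (k1 := k1) (k2 := k2) (by linarith only [hT]) (by linarith only [hT']) (by linarith only [h0])
      (by linarith only [hk]) (by linarith only [h1]) (by linarith only [h2]) h3 le_rfl
    rw [hm]
    linarith only [hθ, e, g]
  · intro hh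
    linarith only [hk, hh]

theorem goal1_of_pos {θ T k1 k2 : ℝ} (hθ : θ ≤ 1 / 10) (hk : k1 < 1 / 4) (h2 : 0 ≤ k2)
    (g : 109 / 1000 + 1 / 5 * k1 + 65 / 100 * k2 < E1 T k1 k2 (uu (1 / 5 + k1) (T + k2))) :
    Goal1 θ (2 / 10) T k1 k2 := by
  have hm : mA1 k1 k2 = 4 / 1000 + 1 / 5 * k1 + 65 / 100 * k2 := by
    unfold mA1
    rw [if_pos hk, max_eq_left h2]
  constructor
  · have e := val_E1 θ T k1 k2
    rw [hm]
    linarith only [hθ, g, e]
  · intro hh
    linarith only [hk, hh]

/-- the ramp -/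
theorem Rmp.le {cl a x t : ℝ} (h : Rmp cl a x t) (hc : 0 < cl) (hx : x ≤ a) :
    t ≤ x / cl ∧ (x ≤ cl → t = x / cl) ∧ (cl ≤ x → t = 1) := by
  have e := h.2.2 hx
  refine ⟨e ▸ min_le_right _ _, fun h1 => ?_, fun h1 => ?_⟩
  · rw [e, min_eq_right]
    rw [div_le_one hc]
    exact h1
  · rw [e, min_eq_left]
    rw [one_le_div hc]
    exact h1

theorem c1m {T u k1 t : ℝ} (h1 : 38 / 1000 ≤ T) (h2 : T ≤ 136 / 1000) (h3 : |u| ≤ 118 / 1000)
    (h4 : T + u ≤ 143 / 1000) (h5 : 0 ≤ k1) (h6 : k1 ≤ 86 / 100)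
    (hR : Rmp (15 / 100) (60 / 100) k1 t) : Goal1 (1 / 10) (2 / 10) T k1 (u * t) := by
  obtain ⟨l3, u3⟩ := abs_le.1 h3
  have t0 := hR.1
  have t1 := hR.2.1
  rcases le_or_gt (1 / 4) k1 with c | c
  · apply goal1_hi (by norm_num) (by linarith only [h1]) (by linarith only [h2]) c h6
    rw [abs_mul, abs_of_nonneg t0]
    have := mul_le_mul h3 t1 t0 (by norm_num : (0 : ℝ) ≤ 118 / 1000)
    linarith only [this]
  obtain ⟨r1, r2, r3⟩ := hR.le (by norm_num) (by linarith only [c])
  have r1' : 15 / 100 * t ≤ k1 := by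
    rw [le_div_iff₀ (by norm_num)] at r1
    linarith only [r1]
  rcases le_total u 0 with hu | hu
  · have m1 := mul_le_mul_of_nonneg_right l3 t0
    have m2 := mul_nonpos_of_nonpos_of_nonneg hu t0
    exact goal1_neg le_rfl (by linarith only [h1]) (by linarith only [h2]) h5 c (by nlinarith only [t1, m1]) m2 (by nlinarith only [h5, r1, m1])
  · have m2 := mul_nonneg hu t0
    apply goal1_of_pos le_rfl c m2
    have m1 := mul_le_mul_of_nonneg_right u3 t0
    rcases le_total k1 (15 / 100) with c2 | c2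
    · have e := r2 c2
      have e2 : k1 = 15 / 100 * t := by
        rw [e]
        ring
      apply r_p1a (by linarith only [h1]) (by linarith only [h2]) (by linarith only [h5]) (by linarith only [c2]) (by linarith only [m2])
        (by nlinarith only [t1, m1]) (by linarith only [r1, m1]) ?_ le_rfl
      have := mul_le_mul_of_nonneg_right h4 t0
      rw [e2]
      linarith only [this]
    · have e := r3 c2
      rw [e, mul_one]
      exact r_p1b (by linarith only [h1]) (by linarith only [h2]) (by linarith only [c2]) (by linarith only [c]) (by linarith only [hu])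
        (by linarith only [h1, h4, c, c2]) h4 le_rfl

theorem c1d {T k1 t : ℝ} (h1 : 38 / 1000 ≤ T) (h2 : T ≤ 136 / 1000) (h5 : 0 ≤ k1)
    (h6 : k1 ≤ 86 / 100) (hR : Rmp (15 / 100) (60 / 100) k1 t) :
    Goal1 (1 / 10) (2 / 10) T k1 (-(16 / 100) * t) := by
  have t0 := hR.1
  have t1 := hR.2.1
  rcases le_or_gt (1 / 4) k1 with c | c
  · apply goal1_hi (by norm_num) (by linarith only [h1]) (by linarith only [h2]) c h6
    rw [abs_le]
    constructor <;> linarith only [t1, t0]
  obtain ⟨r1, -, -⟩ := hR.le (by norm_num) (by linarith only [c])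
  rw [le_div_iff₀ (by norm_num)] at r1
  exact goal1_neg le_rfl (by linarith only [h1]) (by linarith only [h2]) h5 c (by linarith only [t1]) (by linarith only [t0])
    (by linarith only [r1])

theorem c1u {T k1 t : ℝ} (h1 : 38 / 1000 ≤ T) (h2 : T ≤ 136 / 1000) (h5 : 1 / 4 ≤ k1)
    (h6 : k1 ≤ 86 / 100) (hR : Rmp (15 / 100) (60 / 100) k1 t) :
    Goal1 (1 / 10) (2 / 10) T k1 (16 / 100 * t) := by
  have t0 := hR.1
  have t1 := hR.2.1
  apply goal1_hi (by norm_num) (by linarith only [h1]) (by linarith only [h2]) h5 h6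
  rw [abs_le]
  constructor <;> linarith only [t0, t1]

theorem c2m {T u k1 t : ℝ} (h1 : 63 / 1000 ≤ T) (h2 : T ≤ 145 / 1000) (h3 : -(18 / 1000) ≤ u)
    (h3' : u ≤ 985 / 10000) (h4 : T + u ≤ 187 / 1000) (h5 : 0 ≤ k1) (h6 : k1 ≤ 80 / 100)
    (hR : Rmp (16 / 100) (50 / 100) k1 t) : Goal1 (1 / 10) (2 / 10) T k1 (u * t) := by
  have t0 := hR.1
  have t1 := hR.2.1
  have m1 := mul_le_mul_of_nonneg_right h3 t0
  have m3 := mul_le_mul_of_nonneg_right h3' t0
  rcases le_or_gt (1 / 4) k1 with c | c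
  · apply goal1_hi (by norm_num) (by linarith only [h1]) (by linarith only [h2]) c (by linarith only [h6])
    rw [abs_le]
    constructor <;> linarith only [t1, m1, m3]
  obtain ⟨r1, r2, r3⟩ := hR.le (by norm_num) (by linarith only [h6, c])
  have r1' : 16 / 100 * t ≤ k1 := by
    rw [le_div_iff₀ (by norm_num)] at r1
    linarith only [r1]
  rcases le_total u 0 with hu | hu
  · have m2 := mul_nonpos_of_nonpos_of_nonneg hu t0
    exact goal1_neg le_rfl (by linarith only [h1]) (by linarith only [h2]) h5 c (by linarith only [t1, m1]) m2 (by linarith only [h5, m1, r1])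
  · have m2 := mul_nonneg hu t0
    apply goal1_of_pos le_rfl c m2
    rcases le_total k1 (16 / 100) with c2 | c2
    · have e := r2 c2
      have e2 : k1 = 16 / 100 * t := by
        rw [e]
        ring
      apply r_p2a (by linarith only [h1]) (by linarith only [h2]) (by linarith only [h5]) (by linarith only [c2]) (by linarith only [m2])
        (by linarith only [t1, m3]) (by linarith only [m3, r1]) ?_ le_rfl
      have := mul_le_mul_of_nonneg_right h4 t0
      rw [e2]
      linarith only [this]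
    · have e := r3 c2
      rw [e, mul_one]
      exact r_p2b (by linarith only [h1]) (by linarith only [h2]) (by linarith only [c2]) (by linarith only [c]) (by linarith only [hu])
        (by linarith only [h3']) h4 le_rfl

theorem c2d {T k1 t : ℝ} (h1 : 63 / 1000 ≤ T) (h2 : T ≤ 145 / 1000) (h5 : 0 ≤ k1)
    (h6 : k1 ≤ 80 / 100) (hR : Rmp (16 / 100) (50 / 100) k1 t) :
    Goal1 (1 / 10) (2 / 10) T k1 (-(16 / 100) * t) := by
  have t0 := hR.1
  have t1 := hR.2.1
  rcases le_or_gt (1 / 4) k1 with c | c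
  · apply goal1_hi (by norm_num) (by linarith only [h1]) (by linarith only [h2]) c (by linarith only [h6])
    rw [abs_le]
    constructor <;> linarith only [t1, t0]
  obtain ⟨r1, -, -⟩ := hR.le (by norm_num) (by linarith only [h6, c])
  rw [le_div_iff₀ (by norm_num)] at r1
  exact goal1_neg le_rfl (by linarith only [h1]) (by linarith only [h2]) h5 c (by linarith only [t1]) (by linarith only [t0])
    (by linarith only [h5, r1])

theorem c2u {T k1 t : ℝ} (h1 : 63 / 1000 ≤ T) (h2 : T ≤ 145 / 1000) (h5 : 1 / 4 ≤ k1)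
    (h6 : k1 ≤ 80 / 100) (hR : Rmp (16 / 100) (50 / 100) k1 t) :
    Goal1 (1 / 10) (2 / 10) T k1 (16 / 100 * t) := by
  have t0 := hR.1
  have t1 := hR.2.1
  apply goal1_hi (by norm_num) (by linarith only [h1]) (by linarith only [h2]) h5 (by linarith only [h6])
  rw [abs_le]
  constructor <;> linarith only [t0, t1]

end ZD

end Pool.Agent.Work.MP_b30479_gtS.G2

end
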