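import Pool.Agent.Work.MP_b30479_gt.TBS.G2.TK2a
import Pool.Agent.Work.MP_b30479_gt.TBS.G2.RngKd
import Pool.Agent.Work.MP_b30479_gt.TBS.G2.WLocX
import Pool.Agent.Work.MP_b30479_gt.TBS.G2.WVal
import Pool.Agent.Work.MP_b30479_gt.TBS.NumU.Node

section

/-!
# Tails, sides of a digit `1` next to an interior three (`K1`, `B = three`)
-/

set_option deprecated.oldSectionVars true

namespace Pool.Agent.Work.MP_b30479_gtS.G2

open VOL SR NumUs

namespace TL

namespace K1c

theorem V1_uu (x t y k : ℝ) : V1 ⟨x, t⟩ ⟨y, k⟩ =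
    Real.pi * (x * k + t * y - t - k) + uu (x + y) (t + k) - uu x t - uu y k := by
  unfold V1
  simp only [UU_uu, Complex.add_re, Complex.add_im, Complex.sub_im, Complex.mul_im]

theorem V1_real (x y : ℝ) : V1 ⟨x, 0⟩ ⟨y, 0⟩ = uu (x + y) 0 - uu x 0 - uu y 0 := by
  rw [V1_uu]
  rw [show (0 : ℝ) + 0 = 0 by ring]
  ring

theorem V1_old {X x w : ℝ} (hX : 1 / 2 ≤ X) (hx : X ≤ x) (hw : 0 ≤ w)
    (hxw : x + w ≤ 1) : uu (x + w) 0 - uu x 0 ≤ uu (X + w) 0 - uu X 0 := by
  have h1 := uu_incr_real (w := 1 - x - w) (w0 := 1 - X - w) (X := w) (by linarith only [hxw]) (by linarith only [hx])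
    hw (by linarith only [hX, hw])
  rw [show 1 - X - w = 1 - (X + w) by ring, show 1 - x - w = 1 - (x + w) by ring,
    uu_one_sub, uu_one_sub, show 1 - (X + w) + w = 1 - X by ring,
    show 1 - (x + w) + w = 1 - x by ring, uu_one_sub, uu_one_sub] at h1
  linarith only [h1]

/-! ### rows -/

/-- old position, a hinge at `X / 10000` -/
def oE (X a0 a1 o e : ℤ) (xw w : E) : E :=
  .sub (.add (.q o 10000) (.add (.q a0 10000) (.mul (.q a1 1000) (.var 0))))
    (.sub (.sub (.uu xw (.q 0 1)) (.uu (.q X 10000) (.q 0 1)))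
      (.mul (.q e 1) (.uu w (.q 0 1))))

open NumIs (V) in
def oldOK (X a0 a1 o e wl wh d : ℤ) : Bool :=
  (decide (d < wl) || chk [oE X a0 a1 o e (.add (.q X 10000) (.var 0)) (.q d 10000)] 30
    [V.of 10000 wl d 0]) &&
  (chk [oE X a0 a1 o e (.add (.q X 10000) (.var 0)) (.var 0)] 30
    [V.of 10000 (max wl d) (min wh (10000 - X - d)) 0] &&
  (decide (wh < 10000 - X - d) || chk [oE X a0 a1 o e (.add (.q (X - d) 10000) (.var 0)) (.var 0)]
    30 [V.of 10000 (10000 - X - d) (10000 - X) 0]))

theorem old_sound {X a0 a1 o e wl wh d : ℤ} (h : oldOK X a0 a1 o e wl wh d = true)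
    (hX : 5000 ≤ X) (hd : 0 < d) (hd' : d ≤ 800) (he : 0 ≤ e) {x w : ℝ}
    (h0 : (X : ℝ) / 10000 ≤ x) (hw : 0 ≤ w) (hw0 : (wl : ℝ) / 10000 ≤ w)
    (hw1 : w ≤ (wh : ℝ) / 10000) (hxw : x + w ≤ 1) :
    V1 ⟨x, 0⟩ ⟨w, 0⟩ - (e - 1) * uu w 0 - ((a0 : ℝ) / 10000 + (a1 : ℝ) / 1000 * w) ≤
      (o : ℝ) / 10000 := by
  have hX' : (5000 : ℝ) ≤ X := by exact_mod_cast hX
  have hd1 : (0 : ℝ) < d := by exact_mod_cast hd
  have hd2 : (d : ℝ) ≤ 800 := by exact_mod_cast hd'
  have he' : (0 : ℝ) ≤ e := by exact_mod_cast he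
  unfold oldOK at h
  simp only [Bool.and_eq_true, Bool.or_eq_true, decide_eq_true_eq] at h
  obtain ⟨c1, c2, c3⟩ := h
  rw [V1_real]
  have hv := V1_old (X := (X : ℝ) / 10000) (by linarith only [hX']) h0 hw hxw
  rcases le_total w ((d : ℝ) / 10000) with hs | hs
  · have c1 : NumUs.chk _ _ _ = true := c1.resolve_left (by
      intro hc
      have : (d : ℝ) < wl := by exact_mod_cast hc
      linarith only [hw0, hs, this])
    have hp := pos_of_chk (chk1 c1 (by norm_num) (x := w) (by push_cast; linarith only [hw0])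
      (by push_cast; linarith only [hs]))
    have ha := uu_real_anti (a := w) (b := (d : ℝ) / 10000) hw hs (by linarith only [hd2])
    simp only [oE, E.val, NumIs.lkR] at hp
    push_cast at hp
    norm_num at hp
    have := mul_le_mul_of_nonneg_left ha he'
    linarith only [hv, hp, this]
  · rcases le_total w ((10000 - X - d : ℝ) / 10000) with hr | hr
    · have hp := pos_of_chk (chk1 c2 (by norm_num) (x := w)
        (by
          push_cast
          rw [div_le_iff₀ (by norm_num)]
          rw [div_le_iff₀ (by norm_num)] at hw0 hs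
          exact max_le hw0 hs)
        (by
          push_cast
          rw [le_div_iff₀ (by norm_num)]
          rw [le_div_iff₀ (by norm_num)] at hw1 hr
          exact le_min hw1 hr))
      simp only [oE, E.val, NumIs.lkR] at hp
      push_cast at hp
      norm_num at hp
      linarith only [hv, hp]
    · have c3 : NumUs.chk _ _ _ = true := c3.resolve_left (by
        intro hc
        have : (wh : ℝ) < 10000 - X - d := by exact_mod_cast hc
        linarith only [hw1, hr, this])
      have hp := pos_of_chk (chk1 c3 (by norm_num) (x := w) (by push_cast; linarith only [hr])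
        (by push_cast; linarith only [h0, hxw]))
      have ha := uu_real_anti1 (a := (X : ℝ) / 10000 + w - (d : ℝ) / 10000)
        (b := (X : ℝ) / 10000 + w) (by linarith only [hd2, hr]) (by linarith only [hd1]) (by linarith only [h0, hxw])
      simp only [oE, E.val, NumIs.lkR] at hp
      push_cast at hp
      norm_num at hp
      rw [show ((X : ℝ) - d) / 10000 + w = (X : ℝ) / 10000 + w - (d : ℝ) / 10000 by ring] at hp
      linarith only [hv, ha, hp]

/-- new position -/
def nE (c c' be ck n0 : ℤ) : E :=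
  .sub (.add (.sub (.sub (.uu (.q (c + c') 100) (.add (.var 0) (.var 1)))
    (.mul .pi (.add (.mul (.q (100 - c') 100) (.var 0)) (.mul (.q (100 - c) 100) (.var 1)))))
    (.add (.uu (.q c 100) (.var 0)) (.uu (.q c' 100) (.var 1))))
    (.add (.mul (.q be 100) (.var 0)) (.mul (.q ck 10000) (.var 1)))) (.q n0 10000)

def e0 (s0 : ℤ) : E := .sub (.q s0 10000) (.add (.var 0) (.var 1))
def e1 (s1 : ℤ) : E := .sub (.add (.var 0) (.var 1)) (.q s1 10000)

open NumIs (V) in
theorem new_sound {c c' be ck n0 t0 t1 k0 k1 s0 s1 : ℤ}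
    (h : chk [nE c c' be ck n0, e0 s0, e1 s1] 30 [V.of 10000 t0 t1 0, V.of 10000 k0 k1 0] = true)
    {t k : ℝ}
    (h0 : (t0 : ℝ) / 10000 ≤ t) (h1 : t ≤ (t1 : ℝ) / 10000) (h2 : (k0 : ℝ) / 10000 ≤ k)
    (h3 : k ≤ (k1 : ℝ) / 10000) (h4 : (s0 : ℝ) / 10000 ≤ t + k) (h5 : t + k ≤ (s1 : ℝ) / 10000) :
    (n0 : ℝ) / 10000 < V1 ⟨(c : ℝ) / 100, t⟩ ⟨(c' : ℝ) / 100, k⟩ + (be : ℝ) / 100 * t +
      (ck : ℝ) / 10000 * k := by
  obtain ⟨e, he, hp⟩ := chk2 h (by norm_num) (x := t) (y := k) (by push_cast; linarith only [h0])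
    (by push_cast; linarith only [h1]) (by push_cast; linarith only [h2]) (by push_cast; linarith only [h3])
  simp only [List.mem_cons, List.not_mem_nil, or_false] at he
  rcases he with rfl | rfl | rfl
  · simp only [nE, E.val, NumIs.lkR] at hp
    push_cast at hp
    rw [V1_uu]
    rw [show (c : ℝ) / 100 + (c' : ℝ) / 100 = ((c : ℝ) + c') / 100 by ring]
    linarith only [hp]
  · simp only [e0, E.val, NumIs.lkR] at hp
    push_cast at hp
    linarith only [h4, hp]
  · simp only [e1, E.val, NumIs.lkR] at hp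
    push_cast at hp
    linarith only [h5, hp]

open NumIs (V) in
/-- new position minus old position -/
theorem gen {X c c' be ck a0 a1 e wl wh n0 o t0 t1 k0 k1 s0 s1 : ℤ}
    (hn : chk [nE c c' be ck n0, e0 s0, e1 s1] 30 [V.of 10000 t0 t1 0, V.of 10000 k0 k1 0] = true)
    (ho : oldOK X a0 a1 o e wl wh 200 = true) (hX : 5000 ≤ X) (he : 0 ≤ e)
    {x w t k G C C' Be A : ℝ} (hC : C = (c : ℝ) / 100) (hC' : C' = (c' : ℝ) / 100)
    (hBe : Be = (be : ℝ) / 100) (hA : A = ((n0 : ℝ) - o) / 10000)
    (h0 : (X : ℝ) / 10000 ≤ x) (hw : 0 ≤ w) (hw0 : (wl : ℝ) / 10000 ≤ w)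
    (hw1 : w ≤ (wh : ℝ) / 10000) (hxw : x + w ≤ 1)
    (ht0 : (t0 : ℝ) / 10000 ≤ t) (ht1 : t ≤ (t1 : ℝ) / 10000) (hk0 : (k0 : ℝ) / 10000 ≤ k)
    (hk1 : k ≤ (k1 : ℝ) / 10000) (hs0 : (s0 : ℝ) / 10000 ≤ t + k) (hs1 : t + k ≤ (s1 : ℝ) / 10000)
    (hG : ((e : ℝ) - 1) * UU ⟨w, 0⟩ + ((a0 : ℝ) / 10000 + (a1 : ℝ) / 1000 * w) +
      (ck : ℝ) / 10000 * k ≤ G) :
    A ≤ V1 ⟨C, t⟩ ⟨C', k⟩ - V1 ⟨x, 0⟩ ⟨w, 0⟩ + G + Be * t := by
  have h1 := new_sound hn ht0 ht1 hk0 hk1 hs0 hs1
  have h2 := old_sound ho hX (by norm_num) (by norm_num) he h0 hw hw0 hw1 hxw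
  rw [UU_uu] at hG
  rw [hC, hC', hBe, hA, sub_div]
  linarith only [hG, h1, h2]

open NumIs (V) in
theorem n_one_i : chk [nE 28 18 190 31416 1400, e0 (-220), e1 1110] 30
    [V.of 10000 210 920 0, V.of 10000 (-800) 490 0] = true := by decide +kernel

theorem o_one_i : oldOK 6500 (-110) 0 2550 1 0 1800 200 = true := by decide +kernel

open NumIs (V) in
theorem n_one_ii : chk [nE 28 18 190 16420 1950, e0 (-220), e1 1110] 30
    [V.of 10000 210 920 0, V.of 10000 (-800) 490 0] = true := by decide +kernel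

theorem o_one_ii : oldOK 6500 (-326) 779 3100 2 0 1800 200 = true := by decide +kernel

open NumIs (V) in
theorem n_one_iii : chk [nE 28 18 190 18490 2010, e0 (-220), e1 1110] 30
    [V.of 10000 210 920 0, V.of 10000 (-800) 490 0] = true := by decide +kernel

theorem o_one_iii : oldOK 6500 2624 (-921) 3160 2 1800 10000 200 = true := by decide +kernel

open NumIs (V) in
theorem n_one_iv : chk [nE 28 18 190 26180 1970, e0 (-220), e1 1110] 30
    [V.of 10000 210 920 0, V.of 10000 (-800) 490 0] = true := by decide +kernel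

theorem o_one_iv : oldOK 6500 2902 (-1021) 3120 2 1800 10000 200 = true := by decide +kernel

open NumIs (V) in
theorem n_two : chk [nE 28 25 190 15710 2230, e0 780, e1 1480] 30
    [V.of 10000 460 940 0, V.of 10000 100 770 0] = true := by decide +kernel

theorem o_two : oldOK 6500 848 (-148) 3380 2 0 10000 200 = true := by decide +kernel

open NumIs (V) in
theorem n_twoE : chk [nE 28 22 190 22620 1800, e0 510, e1 770] 30
    [V.of 10000 870 1145 0, V.of 10000 (-450) (-250) 0] = true := by decide +kernel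

theorem o_twoE : oldOK 6500 1545 0 2950 2 0 10000 200 = true := by decide +kernel

open NumIs (V) in
theorem n_touched : chk [nE 28 20 190 23600 1700, e0 (-220), e1 1480] 30
    [V.of 10000 210 1145 0, V.of 10000 (-910) 770 0] = true := by decide +kernel

theorem o_touched : oldOK 6500 0 0 2850 1 0 10000 200 = true := by decide +kernel

end K1c

/-- K1, `B = three`. margins: C one .0144, .0116, .0117; two .0215; others >= .11 -/
theorem side_one_three {Cc : Cl} {C : Ct} (hC : C.ok Cc) {x w t k G : ℝ}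
    (hx : X0 .one .three ≤ x) (hw : 0 ≤ w) (hxw : x + w ≤ 1)
    (t0 : (cw Cc .three).t0 ≤ t) (t1 : t ≤ (cw Cc .three).t1)
    (s0 : (cw Cc .three).s0 ≤ t + k) (s1 : t + k ≤ (cw Cc .three).s1)
    (k0 : (cw .three Cc).t0 ≤ k) (k1 : k ≤ (cw .three Cc).t1)
    (hbig : ¬ (big .three ∧ big Cc)) (hCo : Cc = .one → -(2 / 25) ≤ k)
    (hE : EB .one C w (-k) G) :
    al .one .three Cc x ≤ V1 ⟨cT .one .three, t⟩ ⟨cN C, k⟩ - V1 ⟨x, 0⟩ ⟨w, 0⟩ + G +
      be .one .three * t := by
  have hX : X0 .one .three = 65 / 100 := rfl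
  have hT : cT .one .three = 28 / 100 := rfl
  have hB : be .one .three = 19 / 10 := rfl
  have hA : al .one .three Cc x = -(115 / 1000) := rfl
  have hb : big .three := Or.inl rfl
  rw [hX] at hx
  rw [hT, hB, hA]
  have hcc : Cc = .one ∨ Cc = .two ∨ Cc = .twoE := by
    cases Cc
    · exact Or.inl rfl
    · exact Or.inr (Or.inl rfl)
    · exact Or.inr (Or.inr rfl)
    · exact absurd ⟨hb, Or.inl rfl⟩ hbig
    · exact absurd ⟨hb, Or.inr (Or.inl rfl)⟩ hbig
    · exact absurd ⟨hb, Or.inr (Or.inr rfl)⟩ hbig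
  cases C
  case one =>
    have hc : Cc = .one := hC
    subst hc
    have hk := hCo rfl
    simp only [cw] at t0 t1 s0 s1 k0 k1
    obtain ⟨g1, g2⟩ : (w ≤ 9 / 50 → -(11 / 1000) - 3927 / 1250 * (-k) ≤ G ∨
          UU ⟨w, 0⟩ - 163 / 5000 + 779 / 1000 * w - 821 / 500 * (-k) ≤ G) ∧
        (9 / 50 ≤ w → UU ⟨w, 0⟩ + 164 / 625 - 921 / 1000 * w - 1849 / 1000 * (-k) ≤ G ∨
          UU ⟨w, 0⟩ + 1451 / 5000 - 1021 / 1000 * w - 1309 / 500 * (-k) ≤ G) := hE
    have hCN : cN .one = 9 / 50 := rfl
    rw [hCN]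
    rcases le_total w (9 / 50) with hw1 | hw1
    · rcases g1 hw1 with g | g
      · exact K1c.gen K1c.n_one_i K1c.o_one_i (by norm_num) (by norm_num) (by norm_num)
          (by norm_num) (by norm_num) (by norm_num) (by norm_num; linarith only [hx]) hw
          (by norm_num; linarith only [hw]) (by norm_num; linarith only [hw1]) hxw (by norm_num; linarith only [t0])
          (by norm_num; linarith only [t1]) (by norm_num; linarith only [hk]) (by norm_num; linarith only [k1])
          (by norm_num; linarith only [s0]) (by norm_num; linarith only [s1]) (by norm_num; linarith only [g])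
      · exact K1c.gen K1c.n_one_ii K1c.o_one_ii (by norm_num) (by norm_num) (by norm_num)
          (by norm_num) (by norm_num) (by norm_num) (by norm_num; linarith only [hx]) hw
          (by norm_num; linarith only [hw]) (by norm_num; linarith only [hw1]) hxw (by norm_num; linarith only [t0])
          (by norm_num; linarith only [t1]) (by norm_num; linarith only [hk]) (by norm_num; linarith only [k1])
          (by norm_num; linarith only [s0]) (by norm_num; linarith only [s1]) (by norm_num; linarith only [g])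
    · rcases g2 hw1 with g | g
      · exact K1c.gen K1c.n_one_iii K1c.o_one_iii (by norm_num) (by norm_num) (by norm_num)
          (by norm_num) (by norm_num) (by norm_num) (by norm_num; linarith only [hx]) hw
          (by norm_num; linarith only [hw1]) (by norm_num; linarith only [hx, hxw]) hxw (by norm_num; linarith only [t0])
          (by norm_num; linarith only [t1]) (by norm_num; linarith only [hk]) (by norm_num; linarith only [k1])
          (by norm_num; linarith only [s0]) (by norm_num; linarith only [s1]) (by norm_num; linarith only [g])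
      · exact K1c.gen K1c.n_one_iv K1c.o_one_iv (by norm_num) (by norm_num) (by norm_num)
          (by norm_num) (by norm_num) (by norm_num) (by norm_num; linarith only [hx]) hw
          (by norm_num; linarith only [hw1]) (by norm_num; linarith only [hx, hxw]) hxw (by norm_num; linarith only [t0])
          (by norm_num; linarith only [t1]) (by norm_num; linarith only [hk]) (by norm_num; linarith only [k1])
          (by norm_num; linarith only [s0]) (by norm_num; linarith only [s1]) (by norm_num; linarith only [g])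
  case two =>
    have hc : Cc = .two := hC
    subst hc
    simp only [cw] at t0 t1 s0 s1 k0 k1
    have g : UU ⟨w, 0⟩ + 53 / 625 - 37 / 250 * w - 1571 / 1000 * (-k) ≤ G := hE
    have hCN : cN .two = 1 / 4 := rfl
    rw [hCN]
    exact K1c.gen K1c.n_two K1c.o_two (by norm_num) (by norm_num) (by norm_num)
      (by norm_num) (by norm_num) (by norm_num) (by norm_num; linarith only [hx]) hw
      (by norm_num; linarith only [hw]) (by norm_num; linarith only [hx, hxw]) hxw (by norm_num; linarith only [t0])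
      (by norm_num; linarith only [t1]) (by norm_num; linarith only [k0]) (by norm_num; linarith only [k1])
      (by norm_num; linarith only [s0]) (by norm_num; linarith only [s1]) (by norm_num; linarith only [g])
  case twoE =>
    have hc : Cc = .twoE := hC
    subst hc
    simp only [cw] at t0 t1 s0 s1 k0 k1
    have g : UU ⟨w, 0⟩ + 1545 / 10000 - 2262 / 1000 * (-k) ≤ G := hE
    have hCN : cN .twoE = 11 / 50 := rfl
    rw [hCN]
    exact K1c.gen K1c.n_twoE K1c.o_twoE (by norm_num) (by norm_num) (by norm_num)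
      (by norm_num) (by norm_num) (by norm_num) (by norm_num; linarith only [hx]) hw
      (by norm_num; linarith only [hw]) (by norm_num; linarith only [hx, hxw]) hxw (by norm_num; linarith only [t0])
      (by norm_num; linarith only [t1]) (by norm_num; linarith only [k0]) (by norm_num; linarith only [k1])
      (by norm_num; linarith only [s0]) (by norm_num; linarith only [s1]) (by norm_num; linarith only [g])
  case threeA =>
    have hc : Cc = .three := hC
    subst hc
    exact absurd ⟨hb, hb⟩ hbig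
  case threeK =>
    have hc : Cc = .three := hC
    subst hc
    exact absurd ⟨hb, hb⟩ hbig
  case threeE =>
    have hc : Cc = .threeE := hC
    subst hc
    exact absurd ⟨hb, Or.inr (Or.inl rfl)⟩ hbig
  case ring =>
    have hc : Cc = .ring := hC
    subst hc
    exact absurd ⟨hb, Or.inr (Or.inr rfl)⟩ hbig
  case touched =>
    have g : -(59 / 25) * (-k) ≤ G := hE
    have hCN : cN .touched = 1 / 5 := rfl
    rw [hCN]
    have hh : 21 / 1000 ≤ t ∧ t ≤ 1145 / 10000 ∧ -(22 / 1000) ≤ t + k ∧ t + k ≤ 148 / 1000 ∧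
        -(91 / 1000) ≤ k ∧ k ≤ 77 / 1000 := by
      rcases hcc with rfl | rfl | rfl <;> simp only [cw] at t0 t1 s0 s1 k0 k1 <;>
        refine ⟨?_, ?_, ?_, ?_, ?_, ?_⟩ <;> linarith only [t0, t1, s0, s1, k0, k1]
    obtain ⟨h1, h2, h3, h4, h5, h6⟩ := hh
    exact K1c.gen K1c.n_touched K1c.o_touched (by norm_num) (by norm_num) (by norm_num)
      (by norm_num) (by norm_num) (by norm_num) (by norm_num; linarith only [hx]) hw
      (by norm_num; linarith only [hw]) (by norm_num; linarith only [hx, hxw]) hxw (by norm_num; linarith only [h1])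
      (by norm_num; linarith only [h2]) (by norm_num; linarith only [h5]) (by norm_num; linarith only [h6])
      (by norm_num; linarith only [h3]) (by norm_num; linarith only [h4]) (by norm_num; linarith only [g])

end TL

end Pool.Agent.Work.MP_b30479_gtS.G2

end

section

/-!
# Tails, part 6: a digit `1` with a real hinge next to a two at an end

`pre_twoE`: moving the hinge next to the two to `7/50` increases the value.
-/

set_option deprecated.oldSectionVars true

namespace Pool.Agent.Work.MP_b30479_gtS.G2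

open VOL SR NumUs

namespace TL

section
open NumIs (V)
open NumUs.E

/-- variables `w, X, T` -/
private def Y6 : E := mul (mul (var 2) (var 1)) (q 50 7)
private def P61 : E := add (sub (uu (add (var 0) (q 7 50)) (var 2)) (mul (q 2 1) (uu (q 7 50) (var 2))))
  (mul pi (mul (var 2) (sub (var 0) (q 36 100))))
private def P62 : E := sub (add (mul (q 2 1) (uu (var 1) Y6)) (mul pi (mul Y6
  (sub (q 1 2) (add (var 0) (var 1)))))) (uu (add (var 0) (var 1)) Y6)
private def P63 : E := sub (sub (sub (mul pi (mul Y6 (sub (q 1 2) (add (var 0) (var 1)))))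
  (uu (add (var 0) (var 1)) Y6)) (q 216 10000)) (mul (q (-4) 1) Y6)
private def P64 : E := sub (sub (mul pi (mul Y6 (sub (q 1 2) (add (var 0) (var 1)))))
  (q 216 10000)) (mul (q (-4) 1) Y6)

theorem k61_h1_q1 : chk [add P61 P62] 25
    (NumIs.setL 1 (NumIs.setL 0 (NumIs.setL 0 (NumIs.setL 0 (NumIs.setL 0 [V.of 100000 0 65000, V.of 100000 200 8000,
    V.of 100000 (-4500) (-1100)]))))) = true := by
  decide +kernel

theorem k61_h1_q2 : chk [add P61 P62] 25
    (NumIs.setR 1 (NumIs.setL 0 (NumIs.setL 0 (NumIs.setL 0 (NumIs.setL 0 [V.of 100000 0 65000, V.of 100000 200 8000,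
    V.of 100000 (-4500) (-1100)]))))) = true := by
  decide +kernel

theorem k61_h1_q3 : chk [add P61 P62] 26
    (NumIs.setR 0 (NumIs.setL 0 (NumIs.setL 0 (NumIs.setL 0 [V.of 100000 0 65000, V.of 100000 200 8000,
    V.of 100000 (-4500) (-1100)])))) = true := by
  decide +kernel

theorem k61_h1_q4 : chk [add P61 P62] 26
    (NumIs.setL 0 (NumIs.setR 0 (NumIs.setL 0 (NumIs.setL 0 [V.of 100000 0 65000, V.of 100000 200 8000,
    V.of 100000 (-4500) (-1100)])))) = true := by
  decide +kernel

theorem k61_h1_q5 : chk [add P61 P62] 26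
    (NumIs.setR 0 (NumIs.setR 0 (NumIs.setL 0 (NumIs.setL 0 [V.of 100000 0 65000, V.of 100000 200 8000,
    V.of 100000 (-4500) (-1100)])))) = true := by
  decide +kernel

theorem k61_h1_q6 : chk [add P61 P62] 26
    (NumIs.setL 0 (NumIs.setL 0 (NumIs.setR 0 (NumIs.setL 0 [V.of 100000 0 65000, V.of 100000 200 8000,
    V.of 100000 (-4500) (-1100)])))) = true := by
  decide +kernel

theorem k61_h1_q7 : chk [add P61 P62] 26
    (NumIs.setR 0 (NumIs.setL 0 (NumIs.setR 0 (NumIs.setL 0 [V.of 100000 0 65000, V.of 100000 200 8000,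
    V.of 100000 (-4500) (-1100)])))) = true := by
  decide +kernel

theorem k61_h1_q8 : chk [add P61 P62] 26
    (NumIs.setL 0 (NumIs.setR 0 (NumIs.setR 0 (NumIs.setL 0 [V.of 100000 0 65000, V.of 100000 200 8000,
    V.of 100000 (-4500) (-1100)])))) = true := by
  decide +kernel

theorem k61_h1_q9 : chk [add P61 P62] 26
    (NumIs.setR 0 (NumIs.setR 0 (NumIs.setR 0 (NumIs.setL 0 [V.of 100000 0 65000, V.of 100000 200 8000,
    V.of 100000 (-4500) (-1100)])))) = true := by
  decide +kernel

theorem k61_h1_q10 : chk [add P61 P62] 26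
    (NumIs.setL 0 (NumIs.setL 0 (NumIs.setL 0 (NumIs.setR 0 [V.of 100000 0 65000, V.of 100000 200 8000,
    V.of 100000 (-4500) (-1100)])))) = true := by
  decide +kernel

theorem k61_h1_q11 : chk [add P61 P62] 26
    (NumIs.setR 0 (NumIs.setL 0 (NumIs.setL 0 (NumIs.setR 0 [V.of 100000 0 65000, V.of 100000 200 8000,
    V.of 100000 (-4500) (-1100)])))) = true := by
  decide +kernel

theorem k61_h1_q12 : chk [add P61 P62] 26
    (NumIs.setL 0 (NumIs.setR 0 (NumIs.setL 0 (NumIs.setR 0 [V.of 100000 0 65000, V.of 100000 200 8000,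
    V.of 100000 (-4500) (-1100)])))) = true := by
  decide +kernel

theorem k61_h1_q13 : chk [add P61 P62] 26
    (NumIs.setR 0 (NumIs.setR 0 (NumIs.setL 0 (NumIs.setR 0 [V.of 100000 0 65000, V.of 100000 200 8000,
    V.of 100000 (-4500) (-1100)])))) = true := by
  decide +kernel

theorem k61_h1_q14 : chk [add P61 P62] 26
    (NumIs.setL 0 (NumIs.setL 0 (NumIs.setR 0 (NumIs.setR 0 [V.of 100000 0 65000, V.of 100000 200 8000,
    V.of 100000 (-4500) (-1100)])))) = true := by
  decide +kernel

theorem k61_h1_q15 : chk [add P61 P62] 26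
    (NumIs.setR 0 (NumIs.setL 0 (NumIs.setR 0 (NumIs.setR 0 [V.of 100000 0 65000, V.of 100000 200 8000,
    V.of 100000 (-4500) (-1100)])))) = true := by
  decide +kernel

theorem k61_h1_q16 : chk [add P61 P62] 26
    (NumIs.setL 0 (NumIs.setR 0 (NumIs.setR 0 (NumIs.setR 0 [V.of 100000 0 65000, V.of 100000 200 8000,
    V.of 100000 (-4500) (-1100)])))) = true := by
  decide +kernel

theorem k61_h1_q17 : chk [add P61 P62] 26
    (NumIs.setR 0 (NumIs.setR 0 (NumIs.setR 0 (NumIs.setR 0 [V.of 100000 0 65000, V.of 100000 200 8000,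
    V.of 100000 (-4500) (-1100)])))) = true := by
  decide +kernel

private theorem k61 : chk [add P61 P62] 30 [V.of 100000 0 65000, V.of 100000 200 8000,
    V.of 100000 (-4500) (-1100)] = true :=
  NumUs.chk_node (i := 0) (by decide +kernel)
    (NumUs.chk_node (i := 0) (by decide +kernel)
      (NumUs.chk_node (i := 0) (by decide +kernel)
        (NumUs.chk_node (i := 0) (by decide +kernel)
          (NumUs.chk_node (i := 1) (by decide +kernel)
            k61_h1_q1
            k61_h1_q2)
          k61_h1_q3)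
        (NumUs.chk_node (i := 0) (by decide +kernel)
          k61_h1_q4
          k61_h1_q5))
      (NumUs.chk_node (i := 0) (by decide +kernel)
        (NumUs.chk_node (i := 0) (by decide +kernel)
          k61_h1_q6
          k61_h1_q7)
        (NumUs.chk_node (i := 0) (by decide +kernel)
          k61_h1_q8
          k61_h1_q9)))
    (NumUs.chk_node (i := 0) (by decide +kernel)
      (NumUs.chk_node (i := 0) (by decide +kernel)
        (NumUs.chk_node (i := 0) (by decide +kernel)
          k61_h1_q10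
          k61_h1_q11)
        (NumUs.chk_node (i := 0) (by decide +kernel)
          k61_h1_q12
          k61_h1_q13))
      (NumUs.chk_node (i := 0) (by decide +kernel)
        (NumUs.chk_node (i := 0) (by decide +kernel)
          k61_h1_q14
          k61_h1_q15)
        (NumUs.chk_node (i := 0) (by decide +kernel)
          k61_h1_q16
          k61_h1_q17)))
private theorem k62 : chk [add P61 P63] 30 [V.of 100000 200 65000, V.of 100000 0 200,
    V.of 100000 (-4500) (-1100)] = true := by decide +kernel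
private theorem k63 : chk [add P61 P64] 30 [V.of 100000 0 200, V.of 100000 0 200,
    V.of 100000 (-4500) (-1100)] = true := by decide +kernel
private theorem k64 : chk [add (uu (q 2 1000) (q 0 1)) (q 1080 100000)] 30 [V.of 1 0 0] = true := by
  decide +kernel

end

private theorem core1 {w X T Y : ℝ} (hY : Y = T * X * (50 / 7)) (w0 : 0 ≤ w) (w1 : w ≤ 65 / 100)
    (x0 : 2 / 1000 ≤ X) (x1 : X ≤ 8 / 100) (t0 : -(45 / 1000) ≤ T) (t1 : T ≤ -(11 / 1000)) :
    0 < uu (w + 7 / 50) T - 2 * uu (7 / 50) T + Real.pi * (T * (w - 36 / 100)) +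
      (2 * uu X Y + Real.pi * (Y * (1 / 2 - (w + X))) - uu (w + X) Y) := by
  have h := pos_of_chk (chk3 k61 (by norm_num) (x := w) (y := X) (z := T) (by norm_num; linarith only [w0])
    (by norm_num; linarith only [w1]) (by norm_num; linarith only [x0]) (by norm_num; linarith only [x1])
    (by norm_num; linarith only [t0]) (by norm_num; linarith only [t1]))
  simp only [P61, P62, Y6, E.val, NumIs.lkR] at h
  push_cast at h
  rw [← hY] at h
  norm_num at h ⊢
  linarith only [h]

private theorem core2 {w X T Y : ℝ} (hY : Y = T * X * (50 / 7)) (w0 : 2 / 1000 ≤ w)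
    (w1 : w ≤ 65 / 100) (x0 : 0 ≤ X) (x1 : X ≤ 2 / 1000) (t0 : -(45 / 1000) ≤ T)
    (t1 : T ≤ -(11 / 1000)) :
    0 < uu (w + 7 / 50) T - 2 * uu (7 / 50) T + Real.pi * (T * (w - 36 / 100)) +
      (Real.pi * (Y * (1 / 2 - (w + X))) - uu (w + X) Y - 216 / 10000 + 4 * Y) := by
  have h := pos_of_chk (chk3 k62 (by norm_num) (x := w) (y := X) (z := T) (by norm_num; linarith only [w0])
    (by norm_num; linarith only [w1]) (by norm_num; linarith only [x0]) (by norm_num; linarith only [x1])
    (by norm_num; linarith only [t0]) (by norm_num; linarith only [t1]))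
  simp only [P61, P63, Y6, E.val, NumIs.lkR] at h
  push_cast at h
  rw [← hY] at h
  norm_num at h ⊢
  linarith only [h]

private theorem core3 {w X T Y : ℝ} (hY : Y = T * X * (50 / 7)) (w0 : 0 ≤ w)
    (w1 : w ≤ 2 / 1000) (x0 : 0 ≤ X) (x1 : X ≤ 2 / 1000) (t0 : -(45 / 1000) ≤ T)
    (t1 : T ≤ -(11 / 1000)) :
    0 < uu (w + 7 / 50) T - 2 * uu (7 / 50) T + Real.pi * (T * (w - 36 / 100)) +
      (Real.pi * (Y * (1 / 2 - (w + X))) - 216 / 10000 + 4 * Y) := by
  have h := pos_of_chk (chk3 k63 (by norm_num) (x := w) (y := X) (z := T) (by norm_num; linarith only [w0])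
    (by norm_num; linarith only [w1]) (by norm_num; linarith only [x0]) (by norm_num; linarith only [x1])
    (by norm_num; linarith only [t0]) (by norm_num; linarith only [t1]))
  simp only [P61, P64, Y6, E.val, NumIs.lkR] at h
  push_cast at h
  rw [← hY] at h
  norm_num at h ⊢
  linarith only [h]

private theorem uu_le_real6 {x y : ℝ} (h1 : x ≤ 1 / 2) : uu x y ≤ uu x 0 := by
  have a2 := Lr_diff_mono (a := 1 / 2) (b := x) (s := 0) (s' := |y|) h1 le_rfl (abs_nonneg y)
  have a3 := uu_one_sub (1 / 2) y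
  have a4 := uu_one_sub (1 / 2) 0
  have e : (1 : ℝ) - 1 / 2 = 1 / 2 := by norm_num
  rw [e] at a3 a4
  have b3 : uu (1 / 2) y = 0 := by linarith only [a3]
  have b4 : uu (1 / 2) 0 = 0 := by linarith only [a4]
  rw [uu_Lr] at b3 b4
  rw [uu_Lr, uu_Lr]
  rw [abs_zero] at b4 ⊢
  linarith only [a2, b3, b4]

private theorem near0 {X Y : ℝ} (x0 : 0 ≤ X) (x1 : X ≤ 2 / 1000) (y : X = 0 → Y = 0)
    (hY : Y ≤ 0) : -(216 / 10000) + 4 * Y ≤ 2 * uu X Y := by
  have h := pos_of_chk (chk1 k64 (by norm_num) (x := 0) (by norm_num) (by norm_num))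
  simp only [E.val] at h
  norm_num at h
  have h2 := uu_real_anti (a := X) (b := 1 / 500) x0 (by linarith only [x1]) (by norm_num)
  rcases x0.lt_or_eq with hX | hX
  · have h3 := abs_le.1 (uu_lip (x := X) (t := Y) (y := 0) hX (by linarith only [x1, hX]))
    rw [sub_zero, abs_of_nonpos hY] at h3
    linarith only [h, h2, h3, h3.1]
  · rw [y hX.symm]
    linarith only [h, h2]

/-- an untouched digit one with a real hinge `w` next to a two at an end: move the hinge next to
the two to `7/50` -/
theorem pre_twoE {K : Cl} (hK : K = .three ∨ K = .threeE) {w X T : ℝ} (hw : 0 ≤ w)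
    (hw1 : w ≤ 65 / 100) (h0 : 0 ≤ X) (h1 : X ≤ 8 / 100) (t0 : (cw K .twoE).t0 ≤ T)
    (t1 : T ≤ (cw K .twoE).t1) :
    V1 ⟨w, 0⟩ ⟨X, T * (X / (14 / 100))⟩ + V2 ⟨X, -(T * (X / (14 / 100)))⟩ 0 <
    V1 ⟨w, 0⟩ ⟨7 / 50, T⟩ + V2 ⟨7 / 50, -T⟩ 0 := by
  have T0 : -(45 / 1000) ≤ T ∧ T ≤ -(11 / 1000) := by
    rcases hK with rfl | rfl
    · simp only [cw] at t0 t1
      constructor <;> linarith only [t0, t1]
    · simp only [cw] at t0 t1
      constructor <;> linarith only [t0, t1]
  obtain ⟨a0, a1⟩ := T0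
  have e2 : ∀ x t : ℝ, V2 ⟨x, t⟩ 0 = -uu x t - Real.pi * t * (x + 1 / 2) := by
    intro x t
    have e := V2_uu x t 0 0
    have e0 : uu 0 0 = 0 := UU_zero
    rw [e0, add_zero, add_zero, sub_zero, sub_zero] at e
    rw [show (0 : ℂ) = ⟨0, 0⟩ from rfl, e]
    ring
  have e1 : ∀ y k : ℝ, V1 ⟨w, 0⟩ ⟨y, k⟩ = Real.pi * (w * k - k) + uu (w + y) k - uu w 0 - uu y k := by
    intro y k
    unfold V1
    simp only [UU_uu, Complex.add_re, Complex.add_im, Complex.sub_im, Complex.mul_im]
    rw [zero_add]
    ring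
  rw [e1, e1, e2, e2, uu_neg, uu_neg]
  set Y := T * (X / (14 / 100)) with hYd
  have hY : Y = T * X * (50 / 7) := by rw [hYd]; ring
  have hY0 : Y ≤ 0 := by
    rw [hYd]
    exact mul_nonpos_of_nonpos_of_nonneg (by linarith only [a1]) (by positivity)
  rcases le_total X (2 / 1000) with c | c
  · have n0 := near0 (Y := Y) h0 c (by intro hX; rw [hYd, hX]; ring) hY0
    rcases le_total w (2 / 1000) with d | d
    · have h := core3 hY hw d h0 c a0 a1
      have h2 : uu (w + X) Y ≤ 0 := by
        have h3 := uu_le_real6 (x := w + X) (y := Y) (by linarith only [h1, d])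
        have h4 := uu_real_anti (a := 0) (b := w + X) le_rfl (by linarith only [hw, h0]) (by linarith only [h1, d])
        have h5 : uu 0 0 = 0 := UU_zero
        linarith only [h3, h4, h5]
      linarith only [n0, h, h2]
    · have h := core2 hY d hw1 h0 c a0 a1
      linarith only [n0, h]
  · have h := core1 hY hw hw1 c h1 a0 a1
    linarith only [h]

end TL

end Pool.Agent.Work.MP_b30479_gtS.G2

end
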