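import Pool.Agent.Work.MP_b30479_gt.TBS.G2.TRb
import Pool.Agent.Work.MP_b30479_gt.TBS.G2.TE4a
import Pool.Agent.Work.MP_b30479_gt.TBS.G2.MRBase
import Pool.Agent.Work.MP_b30479_gt.TBS.G2.Num.RF

section

/-!
# Tails, sides of a digit `2`: tools
-/

namespace Pool.Agent.Work.MP_b30479_gtS.G2

open VOL NumUs

namespace TL

/-! ### real values -/

/-- on the real axis `uu` increases between `1/6` and `5/6` -/
theorem uu_real_mono {a b : ℝ} (h0 : 1 / 6 ≤ a) (h1 : a ≤ b) (h2 : b ≤ 5 / 6) :
    uu a 0 ≤ uu b 0 := by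
  have hpi := Real.pi_pos
  have hm : MonotoneOn (fun x => uu x 0) (Set.Icc (1 / 6) (5 / 6)) := by
    apply monotoneOn_of_deriv_nonneg (convex_Icc _ _) cont_uu_real.continuousOn
    · intro s hs
      rw [interior_Icc] at hs
      exact (uu_real_deriv (by linarith only [hs, hs.1])
        (by linarith only [hs, hs.2])).differentiableAt.differentiableWithinAt
    · intro s hs
      rw [interior_Icc] at hs
      rw [(uu_real_deriv (by linarith only [hs, hs.1]) (by linarith only [hs, hs.2])).deriv]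
      apply Real.log_nonneg
      have : 1 / 2 ≤ Real.sin (Real.pi * s) := by
        rw [← Real.sin_pi_div_six]
        rcases le_total s (1 / 2) with h | h
        · apply Real.sin_le_sin_of_le_of_le_pi_div_two <;> nlinarith only [hpi, h, hs, hs.1]
        · rw [← Real.sin_pi_sub (Real.pi * s)]
          apply Real.sin_le_sin_of_le_of_le_pi_div_two <;> nlinarith only [hpi, h, hs, hs.2]
      linarith only [this]
  exact hm ⟨h0, by linarith only [h1, h2]⟩ ⟨by linarith only [h0, h1], h2⟩ h1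

/-- on the real axis `uu` decreases between `0` and `1/6` -/
theorem uu_real_anti {a b : ℝ} (h0 : 0 ≤ a) (h1 : a ≤ b) (h2 : b ≤ 1 / 6) :
    uu b 0 ≤ uu a 0 := by
  have hpi := Real.pi_pos
  have hm : AntitoneOn (fun x => uu x 0) (Set.Icc 0 (1 / 6)) := by
    apply antitoneOn_of_deriv_nonpos (convex_Icc _ _) cont_uu_real.continuousOn
    · intro s hs
      rw [interior_Icc] at hs
      exact (uu_real_deriv (by linarith only [hs, hs.1])
        (by linarith only [hs, hs.2])).differentiableAt.differentiableWithinAt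
    · intro s hs
      rw [interior_Icc] at hs
      rw [(uu_real_deriv (by linarith only [hs, hs.1]) (by linarith only [hs, hs.2])).deriv]
      have h3 : Real.sin (Real.pi * s) ≤ 1 / 2 := by
        rw [← Real.sin_pi_div_six]
        apply Real.sin_le_sin_of_le_of_le_pi_div_two <;> nlinarith only [hpi, hs, hs.1, hs.2]
      have h4 : 0 ≤ Real.sin (Real.pi * s) := by
        apply Real.sin_nonneg_of_nonneg_of_le_pi <;> nlinarith only [hpi, hs, hs.1, hs.2]
      exact Real.log_nonpos (by linarith only [h4]) (by linarith only [h3])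
  exact hm ⟨h0, by linarith only [h1, h2]⟩ ⟨by linarith only [h0, h1], h2⟩ h1

/-- on the real axis `uu` decreases between `5/6` and `1` -/
theorem uu_real_anti1 {a b : ℝ} (h0 : 5 / 6 ≤ a) (h1 : a ≤ b) (h2 : b ≤ 1) :
    uu b 0 ≤ uu a 0 := by
  have h := uu_real_anti (a := 1 - b) (b := 1 - a) (by linarith only [h2]) (by linarith only [h1]) (by linarith only [h0])
  rw [uu_one_sub, uu_one_sub] at h
  linarith only [h]

theorem V2_uu (x t y k : ℝ) : V2 ⟨x, t⟩ ⟨y, k⟩ =
    uu (x + y) (t + k) - Real.pi * ((x - y) * (t - k) + 1 / 2 * (t + k)) -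
      2 * (uu x t + uu y k) := by
  unfold V2
  simp only [UU_uu, Complex.add_re, Complex.add_im, Complex.sub_re, Complex.sub_im, pow_two,
    Complex.mul_im]
  ring

theorem V2_real (x y : ℝ) : V2 ⟨x, 0⟩ ⟨y, 0⟩ = uu (x + y) 0 - 2 * uu x 0 - 2 * uu y 0 := by
  rw [V2_uu]
  rw [show (0 : ℝ) + 0 = 0 by ring]
  ring

/-- the real value of a digit `2` decreases in a hinge between `1/2` and `5/6` -/
theorem V2_old_left {X x w : ℝ} (hX : 1 / 2 ≤ X) (hx : X ≤ x) (h5 : x ≤ 5 / 6) (hw : 0 ≤ w)
    (hxw : x + w ≤ 1) : uu (x + w) 0 - 2 * uu x 0 ≤ uu (X + w) 0 - 2 * uu X 0 := by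
  have h1 := uu_incr_real (w := 1 - x - w) (w0 := 1 - X - w) (X := w) (by linarith only [hxw]) (by linarith only [hx])
    hw (by linarith only [hX, hw])
  have h2 := uu_real_mono (a := X) (b := x) (by linarith only [hX]) hx h5
  rw [show 1 - X - w = 1 - (X + w) by ring, show 1 - x - w = 1 - (x + w) by ring,
    uu_one_sub, uu_one_sub, show 1 - (X + w) + w = 1 - X by ring,
    show 1 - (x + w) + w = 1 - x by ring, uu_one_sub, uu_one_sub] at h1
  linarith only [h1, h2]

theorem V2_old_right {x w : ℝ} (h5 : 5 / 6 ≤ x) (hw : 0 ≤ w) (hxw : x + w ≤ 1) :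
    uu (x + w) 0 - 2 * uu x 0 - 2 * uu w 0 ≤ -uu w 0 := by
  have h1 := uu_real_anti1 (a := x) (b := x + w) h5 (by linarith only [hw]) hxw
  have h2 := uu_real_anti (a := w) (b := 1 - x) hw (by linarith only [hxw]) (by linarith only [h5])
  rw [uu_one_sub] at h2
  linarith only [h1, h2]

/-! ### rows -/

/-- old position, a hinge at `X / 10000` -/
def oE (X a0 a1 o e : ℤ) (xw w : E) : E :=
  .sub (.add (.q o 10000) (.add (.q a0 10000) (.mul (.q a1 1000) (.var 0))))
    (.sub (.sub (.uu xw (.q 0 1)) (.mul (.q 2 1) (.uu (.q X 10000) (.q 0 1))))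
      (.mul (.q e 1) (.uu w (.q 0 1))))

/-- old position, a hinge to the right of `5 / 6` -/
def pE (a0 a1 o e : ℤ) (w : E) : E :=
  .add (.add (.q o 10000) (.add (.q a0 10000) (.mul (.q a1 1000) (.var 0))))
    (.mul (.q e 1) (.uu w (.q 0 1)))

open NumIs (V) in
def oldOK (X a0 a1 o e wl wh d : ℤ) : Bool :=
  (decide (d < wl) || chk [oE X a0 a1 o e (.add (.q X 10000) (.var 0)) (.q d 10000)] 30
    [V.of 10000 wl d 0]) &&
  (chk [oE X a0 a1 o e (.add (.q X 10000) (.var 0)) (.var 0)] 30
    [V.of 10000 (max wl d) (min wh (10000 - X - d)) 0] &&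
  ((decide (wh < 10000 - X - d) || chk [oE X a0 a1 o e (.add (.q (X - d) 10000) (.var 0)) (.var 0)]
    30 [V.of 10000 (10000 - X - d) (10000 - X) 0]) &&
  ((decide (d < wl) || chk [pE a0 a1 o (e - 1) (.q d 10000)] 30 [V.of 10000 wl d 0]) &&
  (decide (1667 < wl) || chk [pE a0 a1 o (e - 1) (.var 0)] 30
    [V.of 10000 (max wl d) (min wh 1667) 0]))))

theorem old_sound {X a0 a1 o e wl wh d : ℤ} (h : oldOK X a0 a1 o e wl wh d = true)
    (hX : 5000 ≤ X) (hd : 0 < d) (hd' : d ≤ 800) (he : 1 ≤ e) {x w : ℝ}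
    (h0 : (X : ℝ) / 10000 ≤ x) (hw : 0 ≤ w) (hw0 : (wl : ℝ) / 10000 ≤ w)
    (hw1 : w ≤ (wh : ℝ) / 10000) (hxw : x + w ≤ 1) :
    V2 ⟨x, 0⟩ ⟨w, 0⟩ - (e - 2) * uu w 0 - ((a0 : ℝ) / 10000 + (a1 : ℝ) / 1000 * w) ≤
      (o : ℝ) / 10000 := by
  have hX' : (5000 : ℝ) ≤ X := by exact_mod_cast hX
  have hd1 : (0 : ℝ) < d := by exact_mod_cast hd
  have hd2 : (d : ℝ) ≤ 800 := by exact_mod_cast hd'
  have he' : (1 : ℝ) ≤ e := by exact_mod_cast he
  unfold oldOK at h
  simp only [Bool.and_eq_true, Bool.or_eq_true, decide_eq_true_eq] at h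
  obtain ⟨c1, c2, c3, c4, c5⟩ := h
  rw [V2_real]
  rcases le_total x (5 / 6) with h5 | h5
  · have hv := V2_old_left (X := (X : ℝ) / 10000) (by linarith only [hX']) h0 h5 hw hxw
    rcases le_total w ((d : ℝ) / 10000) with hs | hs
    · have c1 : NumUs.chk _ _ _ = true := c1.resolve_left (by
        intro hc
        have : (d : ℝ) < wl := by exact_mod_cast hc
        linarith only [hw0, hs, this])
      have hp := pos_of_chk (chk1 c1 (by norm_num) (x := w) (by push_cast; linarith only [hw0])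
        (by push_cast; linarith only [hs]))
      have ha := uu_real_anti (a := w) (b := (d : ℝ) / 10000) hw hs (by linarith only [hd2])
      simp only [oE, E.val, NumIs.lkR] at hp
      push_cast at hp
      norm_num at hp
      have := mul_le_mul_of_nonneg_left ha (by linarith only [he'] : (0 : ℝ) ≤ e)
      linarith only [hv, hp, this]
    · rcases le_total w ((10000 - X - d : ℝ) / 10000) with hr | hr
      · have hp := pos_of_chk (chk1 c2 (by norm_num) (x := w)
          (by
            push_cast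
            rw [div_le_iff₀ (by norm_num)]
            rw [div_le_iff₀ (by norm_num)] at hw0 hs
            exact max_le hw0 hs)
          (by
            push_cast
            rw [le_div_iff₀ (by norm_num)]
            rw [le_div_iff₀ (by norm_num)] at hw1 hr
            exact le_min hw1 hr))
        simp only [oE, E.val, NumIs.lkR] at hp
        push_cast at hp
        norm_num at hp
        linarith only [hv, hp]
      · have c3 : NumUs.chk _ _ _ = true := c3.resolve_left (by
          intro hc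
          have : (wh : ℝ) < 10000 - X - d := by exact_mod_cast hc
          linarith only [hw1, hr, this])
        have hp := pos_of_chk (chk1 c3 (by norm_num) (x := w) (by push_cast; linarith only [hr])
          (by push_cast; linarith only [h0, hxw]))
        have ha := uu_real_anti1 (a := (X : ℝ) / 10000 + w - (d : ℝ) / 10000)
          (b := (X : ℝ) / 10000 + w) (by linarith only [hd2, hr]) (by linarith only [hd1]) (by linarith only [h0, hxw])
        simp only [oE, E.val, NumIs.lkR] at hp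
        push_cast at hp
        norm_num at hp
        rw [show ((X : ℝ) - d) / 10000 + w = (X : ℝ) / 10000 + w - (d : ℝ) / 10000 by ring] at hp
        linarith only [hv, ha, hp]
  · have hv := V2_old_right h5 hw hxw
    rcases le_total w ((d : ℝ) / 10000) with hs | hs
    · have c4 : NumUs.chk _ _ _ = true := c4.resolve_left (by
        intro hc
        have : (d : ℝ) < wl := by exact_mod_cast hc
        linarith only [hw0, hs, this])
      have hp := pos_of_chk (chk1 c4 (by norm_num) (x := w) (by push_cast; linarith only [hw0])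
        (by push_cast; linarith only [hs]))
      have ha := uu_real_anti (a := w) (b := (d : ℝ) / 10000) hw hs (by linarith only [hd2])
      simp only [pE, E.val, NumIs.lkR] at hp
      push_cast at hp
      norm_num at hp
      have := mul_le_mul_of_nonneg_left ha (by linarith only [he'] : (0 : ℝ) ≤ (e : ℝ) - 1)
      linarith only [hv, hp, this]
    · have c5 : NumUs.chk _ _ _ = true := c5.resolve_left (by
        intro hc
        have : (1667 : ℝ) < wl := by exact_mod_cast hc
        linarith only [hw0, hxw, h5, this])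
      have hp := pos_of_chk (chk1 c5 (by norm_num) (x := w)
          (by
            push_cast
            rw [div_le_iff₀ (by norm_num)]
            rw [div_le_iff₀ (by norm_num)] at hw0 hs
            exact max_le hw0 hs)
          (by
            push_cast
            rw [le_div_iff₀ (by norm_num)]
            rw [le_div_iff₀ (by norm_num)] at hw1
            exact le_min hw1 (by linarith only [hxw, h5])))
      simp only [pE, E.val, NumIs.lkR] at hp
      push_cast at hp
      norm_num at hp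
      linarith only [hv, hp]

/-- new position -/
def nE (c c' be ck n0 : ℤ) : E :=
  .sub (.add (.sub (.sub (.uu (.q (c + c') 100) (.add (.var 0) (.var 1)))
    (.mul .pi (.add (.mul (.q (c - c') 100) (.sub (.var 0) (.var 1)))
      (.mul (.q 1 2) (.add (.var 0) (.var 1))))))
    (.mul (.q 2 1) (.add (.uu (.q c 100) (.var 0)) (.uu (.q c' 100) (.var 1)))))
    (.add (.mul (.q be 100) (.var 0)) (.mul (.q ck 10000) (.var 1)))) (.q n0 10000)

open NumIs (V) in
theorem new_sound {c c' be ck n0 t0 t1 k0 k1 : ℤ}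
    (h : chk [nE c c' be ck n0] 30 [V.of 10000 t0 t1 0, V.of 10000 k0 k1 0] = true) {t k : ℝ}
    (h0 : (t0 : ℝ) / 10000 ≤ t) (h1 : t ≤ (t1 : ℝ) / 10000) (h2 : (k0 : ℝ) / 10000 ≤ k)
    (h3 : k ≤ (k1 : ℝ) / 10000) :
    (n0 : ℝ) / 10000 < V2 ⟨(c : ℝ) / 100, t⟩ ⟨(c' : ℝ) / 100, k⟩ + (be : ℝ) / 100 * t +
      (ck : ℝ) / 10000 * k := by
  have hp := pos_of_chk (chk2 h (by norm_num) (x := t) (y := k) (by push_cast; linarith only [h0])
    (by push_cast; linarith only [h1]) (by push_cast; linarith only [h2]) (by push_cast; linarith only [h3]))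
  simp only [nE, E.val, NumIs.lkR] at hp
  push_cast at hp
  rw [V2_uu]
  rw [show (c : ℝ) / 100 + (c' : ℝ) / 100 = ((c : ℝ) + c') / 100 by ring,
    show (c : ℝ) / 100 - (c' : ℝ) / 100 = ((c : ℝ) - c') / 100 by ring]
  linarith only [hp]

end TL

end Pool.Agent.Work.MP_b30479_gtS.G2

end

section

/-!
# Numerics of `UU`: positive parts, and `UU` at every real part

* `reluA` : affine form of `max x 0`.
* `uwA` : affine form of `UU (x + i t)` for every real `x` and `|t| ≤ 1/2`.  The box is shifted by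
  integers; near an integer `n` the value `(n - 1/2) π |t|` with an explicit error is used.
-/

set_option deprecated.oldSectionVars true

namespace Pool.Agent.Work.NumGs

open MP_b30479_gtS MP_b30479_gtS.VOL MP_b30479_gtS.G2
open NumIs (A G V R3 DR DR_pos DN_cast ndiv_le lt_ndiv)
open NumUs (uu uu_one_sub uu_add_one uu_neg uuA uuA_spec nadd_eq nmul_eq nsub_eq ndiv_eq')

/-! ### `uu` near the integers -/

theorem uu_add_nat (x t : ℝ) (n : ℕ) : uu (x + n) t = uu x t + n * (Real.pi * |t|) := by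
  induction n with
  | zero => simp
  | succ n ih =>
    rw [Nat.cast_add, Nat.cast_one, ← add_assoc, uu_add_one, ih]
    ring

theorem exp162 : 2 * Real.cosh (2 * Real.pi * (1 / 2)) + 2 ≤ Real.exp (2 * (162 / 100)) := by
  have h : NumIs.chk [NumIs.E.sub (NumIs.E.exp (NumIs.E.q 324 100)) (NumIs.E.add (NumIs.E.q 2 1)
      (NumIs.E.mul (NumIs.E.q 2 1) (NumIs.E.cosh NumIs.E.pi)))] 1
      [NumIs.V.of 1 0 0] = true := by
    decide +kernel
  have hp := NumIs.pos_of_chk (NumIs.chk1 h (by norm_num) (x := 0) (by norm_num) (by norm_num))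
  simp only [NumIs.E.val] at hp
  rw [show 2 * Real.pi * (1 / 2) = Real.pi by ring, show (2 : ℝ) * (162 / 100) =
    ((324 : ℤ) : ℝ) / ((100 : ℕ) : ℝ) by norm_num]
  have e2 : (((2 : ℤ) : ℝ) / ((1 : ℕ) : ℝ)) = 2 := by norm_num
  rw [e2] at hp
  linarith only [hp]

/-- right of `0` -/
theorem uu_right {ε δ d Y : ℝ} (h0 : 0 ≤ d) (h1 : d ≤ ε) (h2 : ε ≤ 1 / 6) (hY : |Y| ≤ 1 / 2)
    (k1 : -uu ε 0 ≤ δ) (k2 : 162 / 100 * ε ≤ δ) : |uu d Y + Real.pi / 2 * abs Y| ≤ δ := by
  have a1 := Lr_diff_mono h0 le_rfl (abs_nonneg Y)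
  have a2 := TL.uu_real_anti h0 h1 h2
  have a3 := TL.uu_slope (u := 0) (v := d) (t := Y) h0 (show (0 : ℝ) < 1 / 2 by norm_num) hY exp162
  rw [TL.uu_zero] at a3
  rw [DT.Lr_zero_right, DT.Lr_zero_right] at a1
  have e1 := uu_Lr d Y
  have e2 := uu_Lr d 0
  rw [abs_zero] at e2
  rw [abs_le]
  constructor <;> linarith only [k1, a1, a2, e1, e2, h1, k2, a3]

theorem uu_both {ε δ d Y : ℝ} (h0 : |d| ≤ ε) (h2 : ε ≤ 1 / 6) (hY : |Y| ≤ 1 / 2)
    (k1 : -uu ε 0 ≤ δ) (k2 : 162 / 100 * ε ≤ δ) : |uu d Y + Real.pi / 2 * abs Y| ≤ δ := by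
  rcases le_total 0 d with h | h
  · rw [abs_of_nonneg h] at h0
    exact uu_right h h0 h2 hY k1 k2
  · rw [abs_of_nonpos h] at h0
    have h3 := uu_right (d := -d) (by linarith only [h]) h0 h2 hY k1 k2
    have e1 := uu_one_sub (-d) Y
    have e2 := uu_add_one d Y
    have e3 : (1 : ℝ) - -d = d + 1 := by ring
    rw [e3, e2] at e1
    have e4 : uu d Y + Real.pi / 2 * |Y| = -(uu (-d) Y + Real.pi / 2 * |Y|) := by linarith only [e1]
    rw [e4, abs_neg]
    exact h3

/-- an entry of the table: `|uu d Y + π / 2 |Y|| ≤ k.2 / D` for `|d| ≤ k.1 / D` -/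
def Ent (e k : ℕ) : Prop := ∀ d Y : ℝ, |d| * DR ≤ e → |Y| ≤ 1 / 2 →
  |uu d Y + Real.pi / 2 * abs Y| * DR ≤ k

theorem ent_of {e k n m : ℕ} (hm : 0 < m) (h6 : 6 * n ≤ m)
    (h2 : 162 * e ≤ 100 * k)
    (hc : NumUs.chk [NumUs.E.add (NumUs.E.uu (NumUs.E.q n m) (NumUs.E.q 0 1)) (NumUs.E.q k 68719476736)] 1
      [NumIs.V.of 1 0 0] = true) (he' : e * m = n * 68719476736) : Ent e k := by
  intro d Y hd hY
  have hD := DR_pos
  have hp := NumUs.pos_of_chk (NumUs.chk1 hc (by norm_num) (x := 0) (by norm_num) (by norm_num))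
  simp only [NumUs.E.val] at hp
  push_cast at hp
  have hm' : (0 : ℝ) < m := by exact_mod_cast hm
  have e1 : (e : ℝ) / DR = (n : ℝ) / m := by
    rw [div_eq_div_iff DR_pos.ne' hm'.ne']
    have : ((e * m : ℕ) : ℝ) = ((n * 68719476736 : ℕ) : ℝ) := by rw [he']
    rw [Nat.cast_mul, Nat.cast_mul, DN_cast] at this
    exact this
  have e2 : (68719476736 : ℝ) = DR := by unfold DR; norm_num
  rw [e2, zero_div] at hp
  rw [← le_div_iff₀ hD]
  refine uu_both (ε := (e : ℝ) / DR) ?_ ?_ hY ?_ ?_
  · rw [le_div_iff₀ hD]; exact hd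
  · rw [e1, div_le_div_iff₀ hm' (by norm_num)]
    have : ((6 * n : ℕ) : ℝ) ≤ m := by exact_mod_cast h6
    push_cast at this
    linarith only [this]
  · rw [e1]; linarith only [hp]
  · rw [mul_div_assoc', div_le_div_iff_of_pos_right hD]
    have : ((162 * e : ℕ) : ℝ) ≤ ((100 * k : ℕ) : ℝ) := by exact_mod_cast h2
    push_cast at this
    linarith only [this]

theorem ent0 : Ent 67108864 409934255 :=
  ent_of (n := 1) (m := 1024) (by norm_num) (by norm_num) (by norm_num)
    (by decide +kernel) (by norm_num)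
theorem ent1 : Ent 134217728 725836082 :=
  ent_of (n := 1) (m := 512) (by norm_num) (by norm_num) (by norm_num)
    (by decide +kernel) (by norm_num)
theorem ent2 : Ent 268435456 1264608569 :=
  ent_of (n := 1) (m := 256) (by norm_num) (by norm_num) (by norm_num)
    (by decide +kernel) (by norm_num)
theorem ent3 : Ent 402653184 1733155248 :=
  ent_of (n := 3) (m := 512) (by norm_num) (by norm_num) (by norm_num)
    (by decide +kernel) (by norm_num)
theorem ent4 : Ent 536870912 2156100055 :=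
  ent_of (n := 1) (m := 128) (by norm_num) (by norm_num) (by norm_num)
    (by decide +kernel) (by norm_num)
theorem ent5 : Ent 805306368 2907160139 :=
  ent_of (n := 3) (m := 256) (by norm_num) (by norm_num) (by norm_num)
    (by decide +kernel) (by norm_num)
theorem ent6 : Ent 1073741824 3567046801 :=
  ent_of (n := 1) (m := 64) (by norm_num) (by norm_num) (by norm_num)
    (by decide +kernel) (by norm_num)
theorem ent7 : Ent 1610612736 4697292483 :=
  ent_of (n := 3) (m := 128) (by norm_num) (by norm_num) (by norm_num)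
    (by decide +kernel) (by norm_num)
theorem ent8 : Ent 2147483648 5645433994 :=
  ent_of (n := 1) (m := 32) (by norm_num) (by norm_num) (by norm_num)
    (by decide +kernel) (by norm_num)
theorem ent9 : Ent 3221225472 7163713857 :=
  ent_of (n := 3) (m := 64) (by norm_num) (by norm_num) (by norm_num)
    (by decide +kernel) (by norm_num)
theorem ent10 : Ent 4294967296 8319729532 :=
  ent_of (n := 1) (m := 16) (by norm_num) (by norm_num) (by norm_num)
    (by decide +kernel) (by norm_num)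
theorem ent11 : Ent 6442450944 10437770529 :=
  ent_of (n := 3) (m := 32) (by norm_num) (by norm_num) (by norm_num)
    (by decide +kernel) (by norm_num)
theorem ent12 : Ent 8589934592 13916694039 :=
  ent_of (n := 1) (m := 8) (by norm_num) (by norm_num) (by norm_num)
    (by decide +kernel) (by norm_num)

/-- error near an integer, `none` if the distance is larger than `1/8` -/
def sErr (e : ℕ) : Option ℕ :=
  cond (Nat.ble e 67108864) (some 409934255) (
  cond (Nat.ble e 134217728) (some 725836082) (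
  cond (Nat.ble e 268435456) (some 1264608569) (
  cond (Nat.ble e 402653184) (some 1733155248) (
  cond (Nat.ble e 536870912) (some 2156100055) (
  cond (Nat.ble e 805306368) (some 2907160139) (
  cond (Nat.ble e 1073741824) (some 3567046801) (
  cond (Nat.ble e 1610612736) (some 4697292483) (
  cond (Nat.ble e 2147483648) (some 5645433994) (
  cond (Nat.ble e 3221225472) (some 7163713857) (
  cond (Nat.ble e 4294967296) (some 8319729532) (
  cond (Nat.ble e 6442450944) (some 10437770529) (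
  cond (Nat.ble e 8589934592) (some 13916694039) none))))))))))))

theorem Ent.mono {e e' k : ℕ} (h : Ent e k) (h' : e' ≤ e) : Ent e' k := fun d Y hd hY =>
  h d Y (hd.trans (by exact_mod_cast h')) hY

theorem sErr_spec {e k : ℕ} (h : sErr e = some k) : Ent e k := by
  unfold sErr at h
  rcases h0 : Nat.ble e 67108864 with _ | _
  swap
  · rw [h0, cond_true] at h
    obtain rfl := Option.some.inj h
    exact ent0.mono (Nat.le_of_ble_eq_true h0)
  rw [h0, cond_false] at h
  rcases h1 : Nat.ble e 134217728 with _ | _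
  swap
  · rw [h1, cond_true] at h
    obtain rfl := Option.some.inj h
    exact ent1.mono (Nat.le_of_ble_eq_true h1)
  rw [h1, cond_false] at h
  rcases h2 : Nat.ble e 268435456 with _ | _
  swap
  · rw [h2, cond_true] at h
    obtain rfl := Option.some.inj h
    exact ent2.mono (Nat.le_of_ble_eq_true h2)
  rw [h2, cond_false] at h
  rcases h3 : Nat.ble e 402653184 with _ | _
  swap
  · rw [h3, cond_true] at h
    obtain rfl := Option.some.inj h
    exact ent3.mono (Nat.le_of_ble_eq_true h3)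
  rw [h3, cond_false] at h
  rcases h4 : Nat.ble e 536870912 with _ | _
  swap
  · rw [h4, cond_true] at h
    obtain rfl := Option.some.inj h
    exact ent4.mono (Nat.le_of_ble_eq_true h4)
  rw [h4, cond_false] at h
  rcases h5 : Nat.ble e 805306368 with _ | _
  swap
  · rw [h5, cond_true] at h
    obtain rfl := Option.some.inj h
    exact ent5.mono (Nat.le_of_ble_eq_true h5)
  rw [h5, cond_false] at h
  rcases h6 : Nat.ble e 1073741824 with _ | _
  swap
  · rw [h6, cond_true] at h
    obtain rfl := Option.some.inj h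
    exact ent6.mono (Nat.le_of_ble_eq_true h6)
  rw [h6, cond_false] at h
  rcases h7 : Nat.ble e 1610612736 with _ | _
  swap
  · rw [h7, cond_true] at h
    obtain rfl := Option.some.inj h
    exact ent7.mono (Nat.le_of_ble_eq_true h7)
  rw [h7, cond_false] at h
  rcases h8 : Nat.ble e 2147483648 with _ | _
  swap
  · rw [h8, cond_true] at h
    obtain rfl := Option.some.inj h
    exact ent8.mono (Nat.le_of_ble_eq_true h8)
  rw [h8, cond_false] at h
  rcases h9 : Nat.ble e 3221225472 with _ | _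
  swap
  · rw [h9, cond_true] at h
    obtain rfl := Option.some.inj h
    exact ent9.mono (Nat.le_of_ble_eq_true h9)
  rw [h9, cond_false] at h
  rcases h10 : Nat.ble e 4294967296 with _ | _
  swap
  · rw [h10, cond_true] at h
    obtain rfl := Option.some.inj h
    exact ent10.mono (Nat.le_of_ble_eq_true h10)
  rw [h10, cond_false] at h
  rcases h11 : Nat.ble e 6442450944 with _ | _
  swap
  · rw [h11, cond_true] at h
    obtain rfl := Option.some.inj h
    exact ent11.mono (Nat.le_of_ble_eq_true h11)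
  rw [h11, cond_false] at h
  rcases h12 : Nat.ble e 8589934592 with _ | _
  · rw [h12, cond_false] at h
    exact absurd h (by simp)
  · rw [h12, cond_true] at h
    obtain rfl := Option.some.inj h
    exact ent12.mono (Nat.le_of_ble_eq_true h12)

/-! ### positive parts -/

/-- affine form of `max x 0` -/
def reluA (a : A) : A :=
  let t := a.tot
  cond (Nat.ble (Nat.add a.q t) a.p) a
    (cond (Nat.ble (Nat.add a.p t) a.q) ⟨0, 0, 0, G.nil⟩
      (let hi := Nat.sub (Nat.add a.p t) a.q
       let lo := Nat.sub (Nat.add a.q t) a.p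
       let S := Nat.div (Nat.mul hi 68719476736) (Nat.add hi lo)
       let h := Nat.div (Nat.add (Nat.div (Nat.mul (Nat.sub 68719476736 S) hi) 68719476736) 1) 2
       ⟨Nat.add (Nat.div (Nat.mul S a.p) 68719476736) h, Nat.div (Nat.mul S a.q) 68719476736,
        Nat.add (Nat.add h 3) (Nat.add (Nat.div (Nat.mul S a.r) 68719476736) a.g.len),
        G.scl S 0 a.g⟩))

theorem reluA_spec {a : A} {ε : ℕ → ℝ} {x : ℝ} (hε : ∀ i, |ε i| ≤ 1) (hx : a.Encl ε x) :
    (reluA a).Encl ε (max x 0) := by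
  have hD := DR_pos
  have tx := hx.tot hε
  unfold reluA
  simp only
  rcases h1 : Nat.ble (Nat.add a.q a.tot) a.p with _ | _
  swap
  · rw [cond_true]
    have h2 : ((a.q + a.tot : ℕ) : ℝ) ≤ a.p := by exact_mod_cast Nat.le_of_ble_eq_true h1
    push_cast at h2
    have h3 : 0 ≤ x * DR := by linarith only [h2, tx, (abs_le.1 tx).1]
    have h4 : 0 ≤ x := nonneg_of_mul_nonneg_left h3 hD
    rw [max_eq_left h4]
    exact hx
  rw [cond_false]
  rcases h2 : Nat.ble (Nat.add a.p a.tot) a.q with _ | _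
  swap
  · rw [cond_true]
    have h3 : ((a.p + a.tot : ℕ) : ℝ) ≤ a.q := by exact_mod_cast Nat.le_of_ble_eq_true h2
    push_cast at h3
    have h4 : x * DR ≤ 0 := by linarith only [h3, tx, (abs_le.1 tx).2]
    have h5 : x ≤ 0 := by
      by_contra h6
      have := mul_pos (not_le.1 h6) hD
      linarith only [h4, this]
    rw [max_eq_right h5]
    unfold A.Encl
    simp [G.ev]
  rw [cond_false]
  have n2 : ¬ (a.p + a.tot ≤ a.q) := fun h => by
    have := Nat.ble_eq_true_of_le h
    rw [show Nat.ble (a.p + a.tot) a.q = Nat.ble (Nat.add a.p a.tot) a.q from rfl, h2] at this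
    exact absurd this (by decide)
  have n1 : ¬ (a.q + a.tot ≤ a.p) := fun h => by
    have := Nat.ble_eq_true_of_le h
    rw [show Nat.ble (a.q + a.tot) a.p = Nat.ble (Nat.add a.q a.tot) a.p from rfl, h1] at this
    exact absurd this (by decide)
  change A.Encl ⟨Nat.div (Nat.mul (Nat.div (Nat.mul (a.p + a.tot - a.q) 68719476736) ((a.p + a.tot - a.q) + (a.q + a.tot - a.p))) a.p) 68719476736 +
      ((68719476736 - (a.p + a.tot - a.q) * 68719476736 / ((a.p + a.tot - a.q) + (a.q + a.tot - a.p))) * (a.p + a.tot - a.q) / 68719476736 + 1) / 2,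
    _, _, _⟩ ε (max x 0)
  set hi := a.p + a.tot - a.q with hhi
  set lo := a.q + a.tot - a.p with hlo
  have hi0 : 0 < hi := by omega
  have lo0 : 0 < lo := by omega
  have chi : (hi : ℝ) = a.p + a.tot - a.q := by
    rw [hhi, Nat.cast_sub (by omega)]; push_cast; ring
  have clo : (lo : ℝ) = a.q + a.tot - a.p := by
    rw [hlo, Nat.cast_sub (by omega)]; push_cast; ring
  set S := hi * 68719476736 / (hi + lo) with hS
  have hSle : S ≤ 68719476736 := by
    rw [hS]
    apply Nat.div_le_of_le_mul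
    nlinarith only [lo0]
  have hS1 : (S : ℝ) * (hi + lo) ≤ hi * DR := by
    have := Nat.div_mul_le_self (hi * 68719476736) (hi + lo)
    have h3 : ((S * (hi + lo) : ℕ) : ℝ) ≤ ((hi * 68719476736 : ℕ) : ℝ) := by exact_mod_cast this
    rw [Nat.cast_mul, Nat.cast_mul, DN_cast] at h3
    push_cast at h3
    exact h3
  set K := (68719476736 - S) * hi / 68719476736 + 1 with hK
  have cS : ((68719476736 - S : ℕ) : ℝ) = DR - S := by
    rw [Nat.cast_sub hSle, DN_cast]
  have hK1 : (DR - S) * hi / DR ≤ K := by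
    have := lt_ndiv ((68719476736 - S) * hi) (b := 68719476736) (by norm_num)
    rw [DN_cast, Nat.cast_mul, cS] at this
    rw [hK, Nat.cast_add, Nat.cast_one]
    exact this.le
  set h := K / 2 with hh
  have hh1 : (h : ℝ) ≤ (K : ℝ) / 2 := by
    have := ndiv_le K 2
    exact_mod_cast this
  have hh2 : (K : ℝ) ≤ 2 * h + 1 := by
    have : K ≤ 2 * h + 1 := by omega
    exact_mod_cast this
  set α : ℝ := (S : ℝ) / DR with hα
  have α0 : 0 ≤ α := by positivity
  have α1 : α ≤ 1 := by
    rw [hα, div_le_one hD, ← DN_cast]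
    exact_mod_cast hSle
  set X := x * DR with hX
  have hmax : max x 0 * DR = max X 0 := by
    rw [hX, max_mul_of_nonneg _ _ hD.le, zero_mul]
  have hXhi : X ≤ hi := by rw [chi]; linarith only [tx, (abs_le.1 tx).2]
  have hXlo : -X ≤ lo := by rw [clo]; linarith only [tx, (abs_le.1 tx).1]
  have k0 : (1 - α) * hi ≤ K := by
    have : (1 - α) * hi = (DR - S) * hi / DR := by rw [hα]; field_simp
    rw [this]; exact hK1
  have k1 : α * lo ≤ (1 - α) * hi := by
    have h5 : α * ((hi : ℝ) + lo) ≤ hi := by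
      rw [hα, div_mul_eq_mul_div, div_le_iff₀ hD]
      exact hS1
    nlinarith only [h5]
  have b1 : α * X ≤ max X 0 := by
    rcases le_total 0 X with h3 | h3
    · rw [max_eq_left h3]; nlinarith only [α1, h3]
    · rw [max_eq_right h3]; nlinarith only [α0, h3]
  have b2 : max X 0 ≤ α * X + K := by
    rcases le_total 0 X with h3 | h3
    · rw [max_eq_left h3]
      have : (1 - α) * X ≤ (1 - α) * hi := mul_le_mul_of_nonneg_left hXhi (by linarith only [α1])
      linarith only [k0, this]
    · rw [max_eq_right h3]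
      have : α * -X ≤ α * lo := mul_le_mul_of_nonneg_left hXlo α0
      linarith only [k0, k1, this]
  have b3 : |max X 0 - (α * X + h)| ≤ h + 1 := by
    rw [abs_le]; constructor <;> linarith only [b1, hh2, b2]
  have hl := G.scl_err S 0 a.g hε
  rw [Nat.cast_zero, sub_zero, ← hα] at hl
  have p1 := ndiv_le (S * a.p) 68719476736
  have p2 := lt_ndiv (S * a.p) (b := 68719476736) (by norm_num)
  have q1 := ndiv_le (S * a.q) 68719476736
  have q2 := lt_ndiv (S * a.q) (b := 68719476736) (by norm_num)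
  have r2 := lt_ndiv (S * a.r) (b := 68719476736) (by norm_num)
  rw [DN_cast, Nat.cast_mul] at p1 p2 q1 q2 r2
  have ep : (S : ℝ) * a.p / DR = α * a.p := by rw [hα]; ring
  have eq' : (S : ℝ) * a.q / DR = α * a.q := by rw [hα]; ring
  have er : (S : ℝ) * a.r / DR = α * a.r := by rw [hα]; ring
  rw [ep] at p1 p2
  rw [eq'] at q1 q2
  rw [er] at r2
  unfold A.Encl
  change |max x 0 * DR - ((((S * a.p / 68719476736 + h : ℕ) : ℝ)) - ((S * a.q / 68719476736 : ℕ) : ℝ) +
    (G.scl S 0 a.g).ev ε)| ≤ (((h + 3) + (S * a.r / 68719476736 + a.g.len) : ℕ) : ℝ)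
  rw [hmax]
  push_cast
  unfold A.Encl at hx
  have hx' : |α * (X - ((a.p : ℝ) - a.q + a.g.ev ε))| ≤ α * a.r := by
    rw [abs_mul, abs_of_nonneg α0]
    exact mul_le_mul_of_nonneg_left hx α0

  have a1 := abs_le.1 b3
  have a2 := abs_le.1 hl
  have a3 := abs_le.1 hx'
  rw [abs_le]
  constructor
  · nlinarith only [b1, p1, q2, r2, a2, a3, a1.1, a2.1, a2.2, a3.1, a3.2]
  · nlinarith only [hh2, b2, p2, q1, r2, a2, a3, a1.1, a2.1, a2.2, a3.1, a3.2]

end Pool.Agent.Work.NumGs

end

section

/-!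
# Numerics of `UU`: affine forms of `UU (x + i t)` at every real part
-/

namespace Pool.Agent.Work.NumGs

open NumIs (A G V R3 DR DR_pos DN_cast ndiv_le lt_ndiv)
open NumUs (uu uu_one_sub uu_add_one uu_neg uuA uuA_spec nadd_eq nmul_eq nsub_eq ndiv_eq')

/-- affine form of `|t|` -/
def absA (a : A) : A := A.add (reluA a) (reluA a.neg)

theorem absA_spec {a : A} {ε : ℕ → ℝ} {x : ℝ} (hε : ∀ i, |ε i| ≤ 1) (hx : a.Encl ε x) :
    (absA a).Encl ε |x| := by
  have h := (reluA_spec hε hx).add (reluA_spec hε hx.neg)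
  have e : max x 0 + max (-x) 0 = |x| := by
    rcases le_total 0 x with h0 | h0
    · rw [max_eq_left h0, max_eq_right (by linarith), abs_of_nonneg h0, add_zero]
    · rw [max_eq_right h0, max_eq_left (by linarith), abs_of_nonpos h0, zero_add]
  rw [e] at h
  exact h

/-- `u + n w` -/
def addK (n : ℕ) (u w : A) : A := cond (Nat.beq n 0) u (A.add u (A.mul (A.cst (Int.ofNat n) 1) w))

/-- `u - n w` -/
def subK (n : ℕ) (u w : A) : A := cond (Nat.beq n 0) u (A.sub u (A.mul (A.cst (Int.ofNat n) 1) w))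

theorem addK_spec {u w : A} {ε : ℕ → ℝ} {x y : ℝ} (hε : ∀ i, |ε i| ≤ 1) (hx : u.Encl ε x)
    (hy : w.Encl ε y) (n : ℕ) : (addK n u w).Encl ε (x + n * y) := by
  unfold addK
  rcases h : Nat.beq n 0 with _ | _
  · rw [cond_false]
    have h1 := A.Encl_cst (Int.ofNat n) 1 ε
    have e : (((Int.ofNat n : ℤ) : ℝ) / ((1 : ℕ) : ℝ)) = n := by simp
    rw [e] at h1
    exact hx.add (h1.mul hε hy)
  · have h0 : n = 0 := Nat.eq_of_beq_eq_true h
    subst h0
    rw [cond_true]
    simpa using hx

theorem subK_spec {u w : A} {ε : ℕ → ℝ} {x y : ℝ} (hε : ∀ i, |ε i| ≤ 1) (hx : u.Encl ε x)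
    (hy : w.Encl ε y) (n : ℕ) : (subK n u w).Encl ε (x - n * y) := by
  unfold subK
  rcases h : Nat.beq n 0 with _ | _
  · rw [cond_false]
    have h1 := A.Encl_cst (Int.ofNat n) 1 ε
    have e : (((Int.ofNat n : ℤ) : ℝ) / ((1 : ℕ) : ℝ)) = n := by simp
    rw [e] at h1
    exact hx.sub (h1.mul hε hy)
  · have h0 : n = 0 := Nat.eq_of_beq_eq_true h
    subst h0
    rw [cond_true]
    simpa using hx

/-- shift by an integer: `x - n` -/
def shD (n : ℕ) (a : A) : A := ⟨Nat.sub a.p (Nat.mul 68719476736 n), Nat.add a.q (Nat.sub (Nat.mul 68719476736 n) a.p), a.r, a.g⟩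

theorem shD_eq (n : ℕ) (a : A) : shD n a =
    ⟨a.p - n * 68719476736, a.q + (n * 68719476736 - a.p), a.r, a.g⟩ := by
  unfold shD
  simp only [nmul_eq, nsub_eq, nadd_eq, Nat.mul_comm n]

theorem shD_spec {a : A} {ε : ℕ → ℝ} {x : ℝ} (hx : a.Encl ε x) (n : ℕ) :
    (shD n a).Encl ε (x - n) := by
  rw [shD_eq]
  unfold A.Encl at *
  simp only
  have k := NumIs.sub_sub_cast a.p (n * 68719476736)
  rw [Nat.cast_mul, DN_cast] at k
  rw [Nat.cast_add]
  have e : (x - n) * DR - (((a.p - n * 68719476736 : ℕ) : ℝ) -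
    ((a.q : ℝ) + ((n * 68719476736 - a.p : ℕ) : ℝ)) + a.g.ev ε) =
    x * DR - ((a.p : ℝ) - a.q + a.g.ev ε) := by linarith
  rw [e]
  exact hx

/-- shift by an integer: `x + n` -/
def shU (n : ℕ) (a : A) : A := (shD n a.neg).neg

theorem shU_spec {a : A} {ε : ℕ → ℝ} {x : ℝ} (hx : a.Encl ε x) (n : ℕ) :
    (shU n a).Encl ε (x + n) := by
  have h := (shD_spec hx.neg n).neg
  have e : -(-x - (n : ℝ)) = x + n := by ring
  rw [e] at h
  exact h

/-- the value near `0`: `-π |t| / 2` with the error `k`; `w = π |t|` -/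
def strA (X T w : A) : Option A :=
  cond (Nat.ble (Nat.add (Nat.add T.p T.q) T.tot) 34359738368)
    (match sErr (Nat.add (Nat.add X.p X.q) X.tot) with
      | none => none
      | some k =>
        let v := A.mul (A.cst (Int.negSucc 0) 2) w
        some ⟨v.p, v.q, Nat.add v.r k, v.g⟩) none

theorem abs_of_tot {a : A} {ε : ℕ → ℝ} {x : ℝ} (hε : ∀ i, |ε i| ≤ 1) (hx : a.Encl ε x) :
    |x| * DR ≤ ((Nat.add (Nat.add a.p a.q) a.tot : ℕ) : ℝ) := by
  have h := hx.tot hε
  have h2 := A.abs_pq a.p a.q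
  have hD := DR_pos
  have e : |x| * DR = |x * DR| := by rw [abs_mul, abs_of_pos hD]
  rw [e]
  change |x * DR| ≤ ((a.p + a.q + a.tot : ℕ) : ℝ)
  push_cast
  have h3 := abs_add_le (x * DR - ((a.p : ℝ) - a.q)) ((a.p : ℝ) - a.q)
  rw [sub_add_cancel] at h3
  linarith

theorem strA_spec {X T w c : A} {ε : ℕ → ℝ} {x t : ℝ} (hε : ∀ i, |ε i| ≤ 1) (hx : X.Encl ε x)
    (ht : T.Encl ε t) (hw : w.Encl ε (Real.pi * |t|)) (h : strA X T w = some c) :
    c.Encl ε (uu x t) := by
  have hD := DR_pos
  unfold strA at h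
  obtain ⟨h1, h⟩ := NumUs.cond_some h
  have h2 : ((Nat.add (Nat.add T.p T.q) T.tot : ℕ) : ℝ) ≤ ((34359738368 : ℕ) : ℝ) := by
    exact_mod_cast Nat.le_of_ble_eq_true h1
  have h3 := abs_of_tot hε ht
  have h4 : |t| ≤ 1 / 2 := by
    have e : ((34359738368 : ℕ) : ℝ) = 1 / 2 * DR := by unfold DR; norm_num
    rw [e] at h2
    exact le_of_mul_le_mul_right (h3.trans h2) hD
  rcases h5 : sErr (Nat.add (Nat.add X.p X.q) X.tot) with _ | k
  · rw [h5] at h
    exact absurd h (by simp)
  rw [h5] at h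
  simp only [Option.some.injEq] at h
  have h6 := sErr_spec h5 x t (abs_of_tot hε hx) h4
  have h7 := (A.Encl_cst (Int.negSucc 0) 2 ε).mul hε hw
  rw [← h]
  unfold A.Encl at h7 ⊢
  set v := A.mul (A.cst (Int.negSucc 0) 2) w
  simp only
  change _ ≤ ((v.r + k : ℕ) : ℝ)
  push_cast
  have e1 : (((Int.negSucc 0 : ℤ) : ℝ) / ((2 : ℕ) : ℝ)) = -(1 / 2) := by
    rw [Int.cast_negSucc]; norm_num
  rw [e1] at h7
  have h8 : |uu x t + Real.pi / 2 * abs t| * DR = |(uu x t + Real.pi / 2 * abs t) * DR| := by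
    rw [abs_mul, abs_of_pos hD]
  rw [h8] at h6
  have e2 : uu x t * DR - ((v.p : ℝ) - v.q + v.g.ev ε) =
      (-(1 / 2) * (Real.pi * |t|) * DR - ((v.p : ℝ) - v.q + v.g.ev ε)) +
        (uu x t + Real.pi / 2 * |t|) * DR := by ring
  rw [e2]
  exact (abs_add_le _ _).trans (add_le_add h7 h6)

/-- the better one of two results -/
def pickA (s t : Option A) : Option A := match s with
  | none => t
  | some u => cond (Nat.ble u.r 1073741824) (some u) (match t with
    | none => some u
    | some v => cond (Nat.ble u.r v.r) (some u) (some v))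

theorem pickA_spec {s t : Option A} {c : A} (h : pickA s t = some c) : s = some c ∨ t = some c := by
  unfold pickA at h
  rcases s with _ | u
  · exact Or.inr h
  · simp only at h
    rcases hc : Nat.ble u.r 1073741824 with _ | _
    · rw [hc, cond_false] at h
      rcases t with _ | v
      · exact Or.inl h
      · simp only at h
        rcases hb : Nat.ble u.r v.r with _ | _
        · rw [hb, cond_false] at h; exact Or.inr h
        · rw [hb, cond_true] at h; exact Or.inl h
    · rw [hc, cond_true] at h; exact Or.inl h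

/-- map of options -/
def mapA (f : A → A) (x : Option A) : Option A := match x with
  | none => none
  | some a => some (f a)

theorem mapA_some {f : A → A} {x : Option A} {c : A} (h : mapA f x = some c) :
    ∃ a, x = some a ∧ c = f a := by
  unfold mapA at h
  rcases x with _ | a
  · exact absurd h (by simp)
  · exact ⟨a, rfl, (Option.some.inj h).symm⟩

/-- `UU (x + i t)` for every real `x` -/
def uwA (a b : A) : Option A :=
  let X := a.nf
  let T := b.nf
  let w := A.mul A.pi (absA T)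
  cond (Nat.beq X.q 0)
    (let n := Nat.div X.p 68719476736
     let m := Nat.div (Nat.add X.p 34359738368) 68719476736
     pickA (mapA (fun u => addK n u w) (uuA (shD n X) T))
      (mapA (fun u => addK m u w) (strA (shD m X).nf T w)))
    (let n := Nat.div (Nat.add X.q 68719476735) 68719476736
     let m := Nat.div (Nat.add X.q 34359738368) 68719476736
     pickA (mapA (fun u => subK n u w) (uuA (shU n X) T))
      (mapA (fun u => subK m u w) (strA (shU m X).nf T w)))

theorem uwA_spec {a b c : A} {ε : ℕ → ℝ} {x t : ℝ} (hε : ∀ i, |ε i| ≤ 1) (hx : a.Encl ε x)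
    (ht : b.Encl ε t) (h : uwA a b = some c) : c.Encl ε (uu x t) := by
  unfold uwA at h
  simp only at h
  have hX := hx.nf
  have hT := ht.nf
  have hw := (A.Encl_pi ε).mul hε (absA_spec hε hT)
  have eD : ∀ n : ℕ, uu x t = uu (x - n) t + n * (Real.pi * |t|) := by
    intro n
    rw [← uu_add_nat, sub_add_cancel]
  have eU : ∀ n : ℕ, uu x t = uu (x + n) t - n * (Real.pi * |t|) := by
    intro n
    rw [uu_add_nat]
    ring
  rcases h1 : Nat.beq a.nf.q 0 with _ | _
  · rw [h1, cond_false] at h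
    rcases pickA_spec h with h | h
    · obtain ⟨u, hu, rfl⟩ := mapA_some h
      rw [eU (Nat.div (Nat.add a.nf.q 68719476735) 68719476736)]
      exact subK_spec hε (uuA_spec hε (shU_spec hX _) hT hu) hw _
    · obtain ⟨u, hu, rfl⟩ := mapA_some h
      rw [eU (Nat.div (Nat.add a.nf.q 34359738368) 68719476736)]
      exact subK_spec hε (strA_spec hε (shU_spec hX _).nf hT hw hu) hw _
  · rw [h1, cond_true] at h
    rcases pickA_spec h with h | h
    · obtain ⟨u, hu, rfl⟩ := mapA_some h
      rw [eD (Nat.div a.nf.p 68719476736)]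
      exact addK_spec hε (uuA_spec hε (shD_spec hX _) hT hu) hw _
    · obtain ⟨u, hu, rfl⟩ := mapA_some h
      rw [eD (Nat.div (Nat.add a.nf.p 34359738368) 68719476736)]
      exact addK_spec hε (strA_spec hε (shD_spec hX _).nf hT hw hu) hw _

end Pool.Agent.Work.NumGs

end

section

/-!
# Numerics of `UU` on a wider strip: analytic part

`uu x t = UU (x + i t)`, `yy x t = YY (x + i t)` (vertical derivative) for all real `x`: symmetries,
expansion near `x = 0` for `t ≠ 0`, modulus near the singular point.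
-/

namespace Pool.Agent.Work.NumXs

open MP_b30479_gtS MP_b30479_gtS.VOL MP_b30479_gtS.G2 MP_b30479_gtS.G2.Num MP_b30479_gtS.G2.MR NumUs

/-- vertical derivative of `UU` -/
noncomputable def yy (x t : ℝ) : ℝ := YY ⟨x, t⟩

theorem YY_yy (w : ℂ) : YY w = yy w.re w.im := rfl

/-- sign -/
noncomputable def sg (t : ℝ) : ℝ := if 0 < t then 1 else if t < 0 then -1 else 0

theorem uu_neg_left (x t : ℝ) : uu (-x) t = -uu x t - Real.pi * |t| := by
  have h1 := uu_one_sub (-x) t
  have h2 := uu_add_one x t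
  rw [show (1 : ℝ) - -x = x + 1 by ring, h2] at h1
  linarith only [h1]

theorem uu_zero_left (t : ℝ) : uu 0 t = -(Real.pi * |t| / 2) := by
  have h1 := uu_neg_left 0 t
  rw [neg_zero] at h1
  linarith only [h1]

theorem uu_sub_one (x t : ℝ) : uu x t = uu (x - 1) t + Real.pi * |t| := by
  have h := uu_add_one (x - 1) t
  rwa [sub_add_cancel] at h

theorem continuous_uu (t : ℝ) : Continuous fun x => uu x t := by
  have h1 : Continuous fun x : ℝ => (x : ℂ) + t * Complex.I := by fun_prop
  have h2 := continuous_UU.comp h1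
  refine h2.congr fun x => ?_
  show UU ((x : ℂ) + t * Complex.I) = UU ⟨x, t⟩
  congr 1
  apply Complex.ext <;> simp

theorem hasDerivAt_uu {y t : ℝ} (h0 : 0 < y) (h1 : y < 1) :
    HasDerivAt (fun y => uu y t) (NumIs.lnA y t) y := by
  have h := uu_line (x := 0) (t := t) (a := 1) (b := 0) (τ := y) (by simpa using h0)
    (by simpa using h1)
  simpa using h

/-- mean value -/
theorem mvt {y t : ℝ} (h0 : 0 < y) (h1 : y < 1) :
    ∃ ξ, 0 < ξ ∧ ξ < y ∧ uu y t + Real.pi * |t| / 2 = y * NumIs.lnA ξ t := by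
  obtain ⟨ξ, hξ, he⟩ := exists_hasDerivAt_eq_slope (fun y => uu y t) (fun y => NumIs.lnA y t) h0
    (continuous_uu t).continuousOn fun ξ hξ => hasDerivAt_uu hξ.1 (hξ.2.trans h1)
  refine ⟨ξ, hξ.1, hξ.2, ?_⟩
  have he' : NumIs.lnA ξ t = (uu y t - uu 0 t) / (y - 0) := he
  rw [he', uu_zero_left, sub_zero]
  field_simp
  ring

theorem lnA_near {ξ t : ℝ} (ht : t ≠ 0) :
    Real.log (2 * Real.sinh (Real.pi * |t|)) ≤ NumIs.lnA ξ t ∧
      NumIs.lnA ξ t ≤ Real.log (2 * Real.sinh (Real.pi * |t|)) + ξ ^ 2 / (2 * t ^ 2) := by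
  have hp := Real.pi_pos
  have hat : 0 < |t| := abs_pos.2 ht
  have hs : 0 < Real.sinh (Real.pi * |t|) := Real.sinh_pos_iff.2 (by positivity)
  have e1 : Real.sinh (Real.pi * t) ^ 2 = Real.sinh (Real.pi * |t|) ^ 2 := by
    rcases abs_choice t with h | h <;> rw [h]
    rw [mul_neg, Real.sinh_neg, neg_sq]
  set S := Real.sinh (Real.pi * |t|) with hS
  have e2 : Real.log (2 * S) = Real.log (4 * S ^ 2) / 2 := by
    rw [show 4 * S ^ 2 = (2 * S) ^ 2 by ring, Real.log_pow]
    push_cast
    ring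
  have hS1 : Real.pi * |t| ≤ S := Real.self_le_sinh_iff.2 (by positivity)
  have hsin : Real.sin (Real.pi * ξ) ^ 2 ≤ (Real.pi * ξ) ^ 2 := by
    rw [sq_le_sq]
    exact Real.abs_sin_le_abs
  unfold NumIs.lnA
  rw [e1, e2]
  have hq : 0 < 4 * S ^ 2 := by positivity
  constructor
  · have := Real.log_le_log hq (show 4 * S ^ 2 ≤ 4 * (Real.sin (Real.pi * ξ) ^ 2 + S ^ 2) by
      nlinarith only [sq_nonneg (Real.sin (Real.pi * ξ))])
    linarith only [this]
  · have h1 : 4 * (Real.sin (Real.pi * ξ) ^ 2 + S ^ 2) =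
        4 * S ^ 2 * (1 + Real.sin (Real.pi * ξ) ^ 2 / S ^ 2) := by
      field_simp
      ring
    have h2 : 0 < 1 + Real.sin (Real.pi * ξ) ^ 2 / S ^ 2 := by positivity
    rw [h1, Real.log_mul hq.ne' h2.ne']
    have h3 : Real.log (1 + Real.sin (Real.pi * ξ) ^ 2 / S ^ 2) ≤
        Real.sin (Real.pi * ξ) ^ 2 / S ^ 2 := by
      have := Real.log_le_sub_one_of_pos h2
      linarith only [this]
    have h4 : Real.sin (Real.pi * ξ) ^ 2 / S ^ 2 ≤ ξ ^ 2 / t ^ 2 := by
      have h5 : (Real.pi * |t|) ^ 2 ≤ S ^ 2 := by gcongr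
      calc Real.sin (Real.pi * ξ) ^ 2 / S ^ 2 ≤ (Real.pi * ξ) ^ 2 / (Real.pi * |t|) ^ 2 := by
            gcongr
        _ = ξ ^ 2 / t ^ 2 := by
            rw [mul_pow, mul_pow, sq_abs]
            field_simp
    have e5 : ξ ^ 2 / (2 * t ^ 2) = ξ ^ 2 / t ^ 2 / 2 := by
      field_simp
    rw [e5]
    linarith only [h3, h4]

/-- expansion near `x = 0` -/
theorem near {y t : ℝ} (ht : t ≠ 0) (h1 : |y| < 1) :
    |uu y t + Real.pi * |t| / 2 - y * Real.log (2 * Real.sinh (Real.pi * |t|))| ≤
      |y| ^ 3 / (2 * t ^ 2) := by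
  have key : ∀ y : ℝ, 0 < y → y < 1 →
      |uu y t + Real.pi * |t| / 2 - y * Real.log (2 * Real.sinh (Real.pi * |t|))| ≤
      |y| ^ 3 / (2 * t ^ 2) := by
    intro y h0 h1
    obtain ⟨ξ, a1, a2, a3⟩ := mvt (t := t) h0 h1
    obtain ⟨b1, b2⟩ := lnA_near (ξ := ξ) ht
    have ht2 : 0 < t ^ 2 := by positivity
    have h3 : ξ ^ 2 / (2 * t ^ 2) ≤ y ^ 2 / (2 * t ^ 2) := by gcongr
    rw [a3, ← mul_sub, abs_mul, abs_of_pos h0, abs_of_nonneg (by linarith only [b1])]
    have e : y ^ 3 / (2 * t ^ 2) = y * (y ^ 2 / (2 * t ^ 2)) := by ring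
    rw [e]
    exact mul_le_mul_of_nonneg_left (by linarith only [b2, h3]) h0.le
  rcases lt_trichotomy y 0 with h0 | h0 | h0
  · have h2 := key (-y) (by linarith only [h0]) (by rw [abs_of_neg h0] at h1; exact h1)
    rw [uu_neg_left, abs_neg] at h2
    rw [← abs_neg]
    convert h2 using 2
    ring
  · rw [h0, uu_zero_left]
    simp
  · exact key y h0 (by rwa [abs_of_pos h0] at h1)

/-- `sin (π x) ≥ 3 x` on `[0, 1/6]` -/
theorem three_mul_le_sin {x : ℝ} (h0 : 0 ≤ x) (h1 : x ≤ 1 / 6) : 3 * x ≤ Real.sin (Real.pi * x) := by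
  have hp := Real.pi_pos
  have hc := strictConcaveOn_sin_Icc.concaveOn
  have h2 := hc.2 (show (0 : ℝ) ∈ Set.Icc 0 Real.pi from ⟨le_rfl, hp.le⟩)
    (show Real.pi / 6 ∈ Set.Icc 0 Real.pi from ⟨by positivity, by linarith only [hp]⟩)
    (show 0 ≤ 1 - 6 * x by linarith only [h1]) (show 0 ≤ 6 * x by linarith only [h0]) (by ring)
  simp only [smul_eq_mul, Real.sin_zero, mul_zero, zero_add, Real.sin_pi_div_six] at h2
  have e : 6 * x * (Real.pi / 6) = Real.pi * x := by ring
  rw [e] at h2
  linarith only [h2]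

theorem lnA_nonpos {ξ t : ℝ} (hξ : |ξ| ≤ 1 / 10) (ht : |t| ≤ 1 / 10) : NumIs.lnA ξ t ≤ 0 := by
  have hp := Real.pi_pos
  have hp2 := Real.pi_lt_d2
  have h1 : Real.sin (Real.pi * ξ) ^ 2 ≤ (Real.pi * ξ) ^ 2 := by
    rw [sq_le_sq]
    exact Real.abs_sin_le_abs
  have e1 : Real.sinh (Real.pi * t) ^ 2 = Real.sinh (Real.pi * |t|) ^ 2 := by
    rcases abs_choice t with h | h <;> rw [h]
    rw [mul_neg, Real.sinh_neg, neg_sq]
  have h2 : Real.sinh (Real.pi * |t|) ≤ 33 / 100 := by
    have h3 : Real.sinh (Real.pi * |t|) ≤ Real.sinh (315 / 1000) := by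
      rw [Real.sinh_le_sinh]
      nlinarith only [hp2, ht, hp, abs_nonneg t]
    refine h3.trans ?_
    rw [Real.sinh_eq]
    have e0 := Real.exp_one_gt_d9
    have h4 : Real.exp (315 / 1000) ≤ 13703 / 10000 := by
      have := Real.exp_bound' (x := 315 / 1000) (by norm_num) (by norm_num) (n := 5) (by norm_num)
      refine this.trans ?_
      norm_num [Finset.sum_range_succ, Nat.factorial]
    have h5 : 1 - 315 / 1000 ≤ Real.exp (-(315 / 1000)) := by
      have := Real.add_one_le_exp (-(315 / 1000) : ℝ)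
      linarith only [this]
    have h6 : 7297 / 10000 ≤ Real.exp (-(315 / 1000)) := by
      rw [Real.exp_neg, le_inv_comm₀ (by norm_num) (Real.exp_pos _)]
      refine h4.trans ?_
      norm_num
    linarith only [h4, h6]
  have hs0 : 0 ≤ Real.sinh (Real.pi * |t|) := Real.sinh_nonneg_iff.2 (by positivity)
  have hξ2 : ξ ^ 2 ≤ (1 / 10) ^ 2 := by
    rw [← sq_abs ξ]
    gcongr
  unfold NumIs.lnA
  rw [e1]
  have h7 : 4 * (Real.sin (Real.pi * ξ) ^ 2 + Real.sinh (Real.pi * |t|) ^ 2) ≤ 1 := by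
    have : (Real.pi * ξ) ^ 2 ≤ 10 / 100 := by
      rw [mul_pow]
      have : Real.pi ^ 2 ≤ 10 := by nlinarith only [hp2, hp]
      nlinarith only [hξ2, this, sq_nonneg ξ]
    nlinarith only [h1, h2, this, hs0]
  have h8 := Real.log_nonpos (by positivity) h7
  linarith only [h8]

theorem log_le_lnA {ξ t : ℝ} (h0 : 0 < ξ) (h1 : ξ ≤ 1 / 6) : Real.log (6 * ξ) ≤ NumIs.lnA ξ t := by
  have h2 := three_mul_le_sin h0.le h1
  have h3 : 0 < 3 * ξ := by linarith only [h0]
  unfold NumIs.lnA
  have e : Real.log (6 * ξ) = Real.log ((6 * ξ) ^ 2) / 2 := by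
    rw [Real.log_pow]
    push_cast
    ring
  rw [e]
  have h4 : (6 * ξ) ^ 2 ≤ 4 * (Real.sin (Real.pi * ξ) ^ 2 + Real.sinh (Real.pi * t) ^ 2) := by
    nlinarith only [h0, h2, h1, sq_nonneg (Real.sinh (Real.pi * t))]
  have := Real.log_le_log (by positivity) h4
  linarith only [this]

/-- near the singular point -/
theorem sing {y t : ℝ} (hy : |y| ≤ 1 / 10) (ht : |t| ≤ 1 / 10) :
    |uu y t + Real.pi * |t| / 2| ≤ |y| * (1 - Real.log (6 * |y|)) := by
  have key : ∀ y : ℝ, 0 < y → y ≤ 1 / 10 →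
      |uu y t + Real.pi * |t| / 2| ≤ |y| * (1 - Real.log (6 * |y|)) := by
    intro y h0 h1
    have hup : uu y t + Real.pi * |t| / 2 ≤ 0 := by
      obtain ⟨ξ, a1, a2, a3⟩ := mvt (t := t) h0 (by linarith only [h0, h1])
      rw [a3]
      exact mul_nonpos_of_nonneg_of_nonpos h0.le
        (lnA_nonpos (by rw [abs_of_pos a1]; linarith only [h1, a2]) ht)
    rw [abs_of_nonpos hup, abs_of_pos h0]
    -- comparison of derivatives
    have hm : MonotoneOn (fun s => uu s t - s * (Real.log (6 * s) - 1)) (Set.Icc 0 (1 / 10)) := by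
      have hc : ContinuousOn (fun s => uu s t - s * (Real.log (6 * s) - 1)) (Set.Icc 0 (1 / 10)) := by
        have h6 : Continuous fun s : ℝ => s * (Real.log (6 * s) - 1) := by
          have h7 : Continuous fun s : ℝ => (6 * s) * Real.log (6 * s) :=
            Real.continuous_mul_log.comp (continuous_const.mul continuous_id)
          refine ((h7.div_const 6).sub continuous_id).congr fun s => ?_
          show 6 * s * Real.log (6 * s) / 6 - s = s * (Real.log (6 * s) - 1)
          ring
        exact ((continuous_uu t).sub h6).continuousOn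
      have hd : ∀ s ∈ Set.Ioo (0 : ℝ) (1 / 10), HasDerivAt
          (fun s => uu s t - s * (Real.log (6 * s) - 1)) (NumIs.lnA s t - Real.log (6 * s)) s := by
        intro s hs
        have h8 : HasDerivAt (fun s : ℝ => Real.log (6 * s)) (1 / s) s := by
          have := ((hasDerivAt_id s).const_mul 6).log (by simp; exact hs.1.ne')
          refine this.congr_deriv ?_
          have := hs.1.ne'
          simp
          field_simp
        have h9 := (hasDerivAt_id s).mul (h8.sub_const 1)
        have h10 := (hasDerivAt_uu (t := t) hs.1 (by linarith only [h0, h1, hs, hs.2])).sub h9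
        refine h10.congr_deriv ?_
        have := hs.1.ne'
        show NumIs.lnA s t - (1 * (Real.log (6 * s) - 1) + s * (1 / s)) =
          NumIs.lnA s t - Real.log (6 * s)
        field_simp
        ring
      refine monotoneOn_of_deriv_nonneg (convex_Icc _ _) hc ?_ ?_
      · rw [interior_Icc]
        exact fun s hs => (hd s hs).differentiableAt.differentiableWithinAt
      · rw [interior_Icc]
        intro s hs
        rw [(hd s hs).deriv]
        have := log_le_lnA (ξ := s) (t := t) hs.1 (by linarith only [h0, h1, hs, hs.2])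
        linarith only [this]
    have h2 : uu 0 t - 0 * (Real.log (6 * 0) - 1) ≤ uu y t - y * (Real.log (6 * y) - 1) :=
      hm ⟨le_rfl, by norm_num⟩ ⟨h0.le, h1⟩ h0.le
    rw [uu_zero_left] at h2
    linarith only [h2]
  rcases lt_trichotomy y 0 with h0 | h0 | h0
  · have h2 := key (-y) (by linarith only [h0]) (by rw [abs_of_neg h0] at hy; exact hy)
    rw [uu_neg_left, abs_neg] at h2
    rw [← abs_neg]
    convert h2 using 2
    ring
  · rw [h0, uu_zero_left]
    simp
  · exact key y h0 (by rwa [abs_of_pos h0] at hy)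

/-- the modulus is monotone -/
theorem mod_mono {a e : ℝ} (h0 : 0 ≤ a) (h1 : a ≤ e) (h2 : e ≤ 1 / 6) :
    a * (1 - Real.log (6 * a)) ≤ e * (1 - Real.log (6 * e)) := by
  rcases h0.eq_or_lt with h0 | h0
  · rw [← h0, zero_mul]
    apply mul_nonneg (by linarith)
    rcases (h0.le.trans h1).eq_or_lt with h3 | h3
    · rw [← h3]; simp
    · have := Real.log_nonpos (by linarith only [h3]) (show 6 * e ≤ 1 by linarith only [h2])
      linarith only [h2, h3, this]
  · have he : 0 < e := h0.trans_le h1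
    -- log (6 e) - log (6 a) ≤ (e - a) / a
    have h3 : Real.log (6 * e) - Real.log (6 * a) ≤ e / a - 1 := by
      rw [← Real.log_div (by positivity) (by positivity)]
      have := Real.log_le_sub_one_of_pos (show 0 < 6 * e / (6 * a) by positivity)
      refine this.trans (le_of_eq ?_)
      field_simp
    have h4 := Real.log_nonpos (by linarith only [h1, h0]) (show 6 * e ≤ 1 by linarith only [h2])
    have h5 : a * (Real.log (6 * e) - Real.log (6 * a)) ≤ e - a := by
      calc a * (Real.log (6 * e) - Real.log (6 * a)) ≤ a * (e / a - 1) := by gcongr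
        _ = e - a := by field_simp
    nlinarith only [h5, h1, h4]

/-! ### large heights -/

theorem far {x t : ℝ} (ht : 3 / 10 ≤ |t|) :
    |uu x t - (-(Real.pi * |t| / 2) + Real.pi * |t| * x -
      Real.exp (-(2 * Real.pi * |t|)) * Real.sin (2 * Real.pi * x) / (2 * Real.pi))| ≤
      Real.exp (-(2 * Real.pi * |t|)) ^ 2 / 20 := by
  have hp := Real.pi_pos
  have hp3 := Real.pi_gt_d2
  have hρ : 0 ≤ |t| := abs_nonneg t
  have h1 := DT.Lr_series hρ x
  set q : ℂ := Complex.exp (2 * Real.pi * Complex.I * (x + |t| * Complex.I)) with hq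
  set r := Real.exp (-(2 * Real.pi * |t|)) with hr
  have hr0 : 0 < r := Real.exp_pos _
  have e1 : (2 * Real.pi * Complex.I * (x + |t| * Complex.I) : ℂ) =
      ((-(2 * Real.pi * |t|) : ℝ) : ℂ) + ((2 * Real.pi * x : ℝ) : ℂ) * Complex.I := by
    push_cast
    linear_combination (2 * Real.pi * |t| : ℂ) * Complex.I_mul_I
  have hqn : ‖q‖ = r := by
    rw [hq, e1, Complex.exp_add, norm_mul, Complex.norm_exp_ofReal_mul_I, mul_one,
      ← Complex.ofReal_exp, Complex.norm_real, Real.norm_of_nonneg (Real.exp_pos _).le]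
  have hqi : q.im = r * Real.sin (2 * Real.pi * x) := by
    have a1 : (((-(2 * Real.pi * |t|) : ℝ) : ℂ) + ((2 * Real.pi * x : ℝ) : ℂ) * Complex.I).re =
        -(2 * Real.pi * |t|) := by
      rw [Complex.add_re, Complex.mul_I_re, Complex.ofReal_im, neg_zero, add_zero, Complex.ofReal_re]
    have a2 : (((-(2 * Real.pi * |t|) : ℝ) : ℂ) + ((2 * Real.pi * x : ℝ) : ℂ) * Complex.I).im =
        2 * Real.pi * x := by
      rw [Complex.add_im, Complex.mul_I_im, Complex.ofReal_im, zero_add, Complex.ofReal_re]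
    rw [hq, e1, Complex.exp_im, a1, a2]
  have hr1 : r ≤ 1 / 6 := by
    have h2 : r ≤ Real.exp (-(94 / 50)) := by
      rw [hr]
      apply Real.exp_le_exp.2
      nlinarith only [hp3, ht, hp]
    refine h2.trans ?_
    rw [Real.exp_neg]
    have h3 : (6 : ℝ) ≤ Real.exp (94 / 50) := by
      have e0 := Real.exp_one_gt_d9
      have h4 : Real.exp (94 / 50) = Real.exp 1 * Real.exp (44 / 50) := by
        rw [← Real.exp_add]; norm_num
      have h5 : 1 + 44 / 50 + (44 / 50) ^ 2 / 2 + (44 / 50) ^ 3 / 6 ≤ Real.exp (44 / 50) := by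
        have := Real.sum_le_exp_of_nonneg (x := 44 / 50) (by norm_num) 4
        norm_num [Finset.sum_range_succ, Nat.factorial] at this ⊢
        linarith only [this]
      rw [h4]
      nlinarith only [e0, h5]
    rw [one_div]
    exact inv_anti₀ (by norm_num) h3
  have hsum : Summable fun k : ℕ => q ^ (k + 1) / ((k : ℂ) + 1) ^ 2 := by
    have h5 : Summable fun k : ℕ => r ^ k := summable_geometric_of_lt_one hr0.le (by linarith only [hr0, hr1])
    refine Summable.of_norm_bounded h5 fun k => ?_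
    rw [norm_div, norm_pow, norm_pow, hqn]
    have h6 : ‖(k : ℂ) + 1‖ = (k : ℝ) + 1 := by
      rw [show (k : ℂ) + 1 = ((k + 1 : ℕ) : ℂ) by push_cast; ring, Complex.norm_natCast]
      push_cast; ring
    rw [h6, div_le_iff₀ (by positivity), pow_succ]
    have h7 : (0 : ℝ) ≤ k := Nat.cast_nonneg k
    have h8 : 0 < r ^ k := by positivity
    nlinarith only [h8, h7, hr1, mul_nonneg h8.le h7, mul_nonneg h8.le (mul_nonneg h7 h7)]
  have h2 := hsum.sum_add_tsum_nat_add 1
  simp only [Finset.range_one, Finset.sum_singleton, Nat.cast_zero, zero_add, pow_one, one_pow,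
    div_one] at h2
  set s := ∑' k : ℕ, q ^ (k + 1 + 1) / (((k + 1 : ℕ) : ℂ) + 1) ^ 2 with hs
  have hsn : ‖s‖ ≤ r ^ 2 * (3 / 10) := by
    have h5 : HasSum (fun k : ℕ => r ^ 2 / 4 * r ^ k) (r ^ 2 / 4 * (1 - r)⁻¹) :=
      (hasSum_geometric_of_lt_one hr0.le (by linarith only [hr0, hr1])).mul_left _
    have h6 : ‖s‖ ≤ r ^ 2 / 4 * (1 - r)⁻¹ := by
      refine tsum_of_norm_bounded h5 fun k => ?_
      rw [norm_div, norm_pow, norm_pow, hqn]
      have h6 : ‖((k + 1 : ℕ) : ℂ) + 1‖ = (k : ℝ) + 2 := by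
        rw [show ((k + 1 : ℕ) : ℂ) + 1 = ((k + 2 : ℕ) : ℂ) by push_cast; ring, Complex.norm_natCast]
        push_cast; ring
      have h7 : (0 : ℝ) ≤ k := Nat.cast_nonneg k
      rw [h6, div_le_iff₀ (by positivity), pow_succ, pow_succ]
      have h8 : 0 < r ^ k := by positivity
      have h9 : (4 : ℝ) ≤ ((k : ℝ) + 2) ^ 2 := by nlinarith
      have h10 : 0 < r ^ k * r * r := by positivity
      have e : r ^ 2 / 4 * r ^ k * ((k : ℝ) + 2) ^ 2 = r ^ k * r * r * (((k : ℝ) + 2) ^ 2 / 4) := by
        ring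
      rw [e]
      nlinarith only [hr0, hr1, h9, h10]
    refine h6.trans ?_
    have h7 : (1 - r)⁻¹ ≤ 6 / 5 := by
      rw [inv_le_comm₀ (by linarith only [hr0, hr1]) (by norm_num)]
      norm_num
      linarith only [hr1]
    calc r ^ 2 / 4 * (1 - r)⁻¹ ≤ r ^ 2 / 4 * (6 / 5) := by gcongr
      _ = r ^ 2 * (3 / 10) := by ring
  have h3 : uu x t = DT.Lr |t| x - Real.pi * |t| / 2 := rfl
  rw [h3, h1]
  have e4 : (∑' k : ℕ, q ^ (k + 1) / ((k : ℂ) + 1) ^ 2) = q + s := by
    rw [← h2]
  rw [e4, Complex.add_im, hqi]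
  have e5 : Real.pi * |t| * x - (r * Real.sin (2 * Real.pi * x) + s.im) / (2 * Real.pi) -
      Real.pi * |t| / 2 - (-(Real.pi * |t| / 2) + Real.pi * |t| * x -
      r * Real.sin (2 * Real.pi * x) / (2 * Real.pi)) = -(s.im / (2 * Real.pi)) := by
    field_simp
    ring
  rw [e5, abs_neg, abs_div, abs_of_pos (by positivity : 0 < 2 * Real.pi), div_le_iff₀ (by positivity)]
  have h4 := (Complex.abs_im_le_norm s).trans hsn
  have : r ^ 2 * (3 / 10) ≤ r ^ 2 / 20 * (2 * Real.pi) := by
    have : 0 < r ^ 2 := by positivity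
    nlinarith only [this, hp3]
  linarith only [h4, this]

/-! ### the vertical derivative -/

theorem yy_add_one (x t : ℝ) : yy (x + 1) t = yy x t + Real.pi * sg t := by
  have h := YY_add_one ⟨x, t⟩
  have e : (⟨x, t⟩ : ℂ) + 1 = ⟨x + 1, t⟩ := by
    apply Complex.ext <;> simp
  rw [e] at h
  unfold yy sg
  rw [h]
  simp only
  split_ifs <;> ring

theorem yy_sub_one (x t : ℝ) : yy x t = yy (x - 1) t + Real.pi * sg t := by
  have h := yy_add_one (x - 1) t
  rwa [sub_add_cancel] at h

theorem yy_conj (x t : ℝ) : yy x (-t) = -yy x t := by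
  have h := YY_conj ⟨x, t⟩
  have e : starRingEnd ℂ (⟨x, t⟩ : ℂ) = ⟨x, -t⟩ := by
    apply Complex.ext <;> simp
  rw [e] at h
  exact h

theorem yy_one_sub (x t : ℝ) : yy (1 - x) t = -yy x t := by
  have h := YY_one_sub ⟨x, -t⟩
  have e : (1 : ℂ) - (⟨x, -t⟩ : ℂ) = ⟨1 - x, t⟩ := by
    apply Complex.ext <;> simp
  rw [e] at h
  have h2 : yy x (-t) = YY ⟨x, -t⟩ := rfl
  rw [← yy_conj, h2, ← h]
  rfl

theorem yy_lnB {x t : ℝ} (h0 : 0 < x) (h1 : x < 1) : yy x t = -NumIs.lnB x t :=
  YY_lnB (u := ⟨x, t⟩) ⟨h0, h1⟩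

theorem yy_zero_left {t : ℝ} (ht : 0 < t) : yy 0 t = -(Real.pi / 2) := by
  have h := YY_it ht
  have e : ((t : ℝ) : ℂ) * Complex.I = ⟨0, t⟩ := by
    apply Complex.ext <;> simp
  rw [e] at h
  exact h

theorem abs_yy_le {x t : ℝ} (h0 : 0 ≤ x) (h1 : x ≤ 1) : |yy x t| ≤ Real.pi / 2 :=
  YY_abs_le (u := ⟨x, t⟩) h0 h1

theorem sg_abs (t : ℝ) : |sg t| ≤ 1 := by
  unfold sg
  split_ifs <;> simp

theorem sg_neg (t : ℝ) : sg (-t) = -sg t := by
  unfold sg
  rcases lt_trichotomy t 0 with h | h | h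
  · rw [if_pos (by linarith only [h]), if_neg (by linarith only [h]), if_pos h]; ring
  · rw [h]; simp
  · rw [if_neg (by linarith only [h]), if_pos (by linarith only [h]), if_pos h]

/-- near `x = 0` -/
theorem yy_near {y t : ℝ} (ht : t ≠ 0) (hy : |y| ≤ 1 / 8) :
    |yy y t + Real.pi / 2 * sg t| ≤ |y| * (4 + 6 / (5 * |t|)) := by
  have hp := Real.pi_pos
  have hp2 := Real.pi_lt_d2
  have hp3 := Real.pi_gt_d2
  have key : ∀ y t : ℝ, 0 < y → y ≤ 1 / 8 → 0 < t →
      |yy y t + Real.pi / 2| ≤ y * (4 + 6 / (5 * t)) := by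
    intro y t h0 h1 ht
    rw [yy_lnB h0 (by linarith only [h0, h1])]
    unfold NumIs.lnB
    have hs : 0 < Real.sin (Real.pi * y) := by
      apply Real.sin_pos_of_pos_of_lt_pi (by positivity)
      nlinarith only [hp3, h0, h1, hp]
    have hs1 : Real.sin (Real.pi * y) ≤ Real.pi * y := Real.sin_le (by positivity)
    have hc : 9 / 10 ≤ Real.cos (Real.pi * y) := by
      have h2 := Real.one_sub_sq_div_two_le_cos (x := Real.pi * y)
      have h3 : Real.pi * y ≤ 4 / 10 := by nlinarith only [hp2, h0, h1, hp]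
      have h4 : 0 ≤ Real.pi * y := by positivity
      nlinarith only [h1, h2, h3, h0, hs, hs1]
    have hsh : 0 < Real.sinh (Real.pi * t) := Real.sinh_pos_iff.2 (by positivity)
    have hch : 0 < Real.cosh (Real.pi * t) := Real.cosh_pos _
    set z := Real.sin (Real.pi * y) * Real.cosh (Real.pi * t) /
      (Real.cos (Real.pi * y) * Real.sinh (Real.pi * t)) with hz
    have hc0 : 0 < Real.cos (Real.pi * y) := by linarith only [h0, h1, hc]
    have hz0 : 0 < z := by positivity
    have e1 : Real.cos (Real.pi * y) * Real.sinh (Real.pi * t) /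
        (Real.sin (Real.pi * y) * Real.cosh (Real.pi * t)) = z⁻¹ := by
      rw [hz, inv_div]
    rw [e1, Real.arctan_inv_of_pos hz0]
    have e2 : -(Real.pi / 2 - Real.arctan z) + Real.pi / 2 = Real.arctan z := by ring
    rw [e2, abs_of_nonneg (Real.arctan_nonneg.2 hz0.le)]
    have h5 : Real.arctan z ≤ z := by
      have h50 := Real.arctan_lt_pi_div_two z
      have h51 := Real.le_tan (Real.arctan_nonneg.2 hz0.le) h50
      rwa [Real.tan_arctan] at h51
    refine h5.trans ?_
    -- cosh ≤ sinh + sinh / (π t)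
    have h6 : Real.cosh (Real.pi * t) ≤ Real.sinh (Real.pi * t) * (1 + 1 / (Real.pi * t)) := by
      have h7 : Real.cosh (Real.pi * t) - Real.sinh (Real.pi * t) = Real.exp (-(Real.pi * t)) :=
        Real.cosh_sub_sinh _
      have h8 : Real.exp (-(Real.pi * t)) ≤ 1 := Real.exp_le_one_iff.2 (by
        have : 0 < Real.pi * t := by positivity
        linarith only [this])
      have h9 : Real.pi * t ≤ Real.sinh (Real.pi * t) := Real.self_le_sinh_iff.2 (by positivity)
      have h10 : 1 ≤ Real.sinh (Real.pi * t) * (1 / (Real.pi * t)) := by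
        rw [mul_one_div, le_div_iff₀ (by positivity)]
        linarith only [h9]
      nlinarith only [h7, h8, h10]
    rw [hz, div_le_iff₀ (by positivity)]
    calc Real.sin (Real.pi * y) * Real.cosh (Real.pi * t) ≤
        (Real.pi * y) * (Real.sinh (Real.pi * t) * (1 + 1 / (Real.pi * t))) := by gcongr
      _ = y * (Real.pi + 1 / t) * Real.sinh (Real.pi * t) := by
        field_simp
      _ ≤ y * (4 + 6 / (5 * t)) * (9 / 10 * Real.sinh (Real.pi * t)) := by
        have h11 : Real.pi + 1 / t ≤ (4 + 6 / (5 * t)) * (9 / 10) := by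
          have e3 : 6 / (5 * t) = 6 / 5 * (1 / t) := by field_simp
          rw [e3]
          have : 0 < 1 / t := by positivity
          linarith only [hp2, h0, h1, this]
        have h12 : y * (Real.pi + 1 / t) * Real.sinh (Real.pi * t) ≤
            y * ((4 + 6 / (5 * t)) * (9 / 10)) * Real.sinh (Real.pi * t) := by gcongr
        refine h12.trans (le_of_eq ?_)
        ring
      _ ≤ y * (4 + 6 / (5 * t)) * (Real.cos (Real.pi * y) * Real.sinh (Real.pi * t)) := by gcongr
  have key2 : ∀ y t : ℝ, |y| ≤ 1 / 8 → 0 < t →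
      |yy y t + Real.pi / 2| ≤ |y| * (4 + 6 / (5 * t)) := by
    intro y t h1 ht
    rcases lt_trichotomy y 0 with h0 | h0 | h0
    · have h2 := key (-y) t (by linarith only [h0]) (by rw [abs_of_neg h0] at h1; exact h1) ht
      have h3 := yy_one_sub (-y) t
      rw [show (1 : ℝ) - -y = y + 1 by ring, yy_add_one] at h3
      have h4 : sg t = 1 := if_pos ht
      rw [h4] at h3
      rw [abs_of_neg h0]
      rw [← abs_neg]
      convert h2 using 2
      linarith only [h3]
    · rw [h0, yy_zero_left ht]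
      simp
    · rw [abs_of_pos h0]
      exact key y t h0 (by rwa [abs_of_pos h0] at h1) ht
  rcases lt_or_gt_of_ne ht with h | h
  · have h2 := key2 y (-t) hy (by linarith only [h])
    rw [yy_conj] at h2
    have h3 : sg t = -1 := by unfold sg; rw [if_neg (by linarith only [h]), if_pos h]
    rw [h3, abs_of_neg h, ← abs_neg]
    convert h2 using 2
    ring
  · have h2 := key2 y t hy h
    have h3 : sg t = 1 := if_pos h
    rw [h3, abs_of_pos h]
    convert h2 using 2
    ring

theorem yy_nonpos {x t : ℝ} (h0 : 0 ≤ x) (h1 : x ≤ 1 / 2) (ht : 0 < t) : yy x t ≤ 0 := by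
  have hp := Real.pi_pos
  rcases h0.eq_or_lt with h0 | h0
  · rw [← h0, yy_zero_left ht]
    linarith only [hp]
  · rw [yy_lnB h0 (by linarith only [h1, h0])]
    unfold NumIs.lnB
    rw [neg_nonpos, Real.arctan_nonneg]
    have h2 : 0 ≤ Real.sinh (Real.pi * t) := Real.sinh_nonneg_iff.2 (by positivity)
    have h3 : 0 ≤ Real.cos (Real.pi * x) := by
      apply Real.cos_nonneg_of_neg_pi_div_two_le_of_le
      · have : 0 ≤ Real.pi * x := by positivity
        linarith only [hp, this]
      · nlinarith only [h1, hp]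
    have h4 : 0 ≤ Real.sin (Real.pi * x) := by
      apply Real.sin_nonneg_of_nonneg_of_le_pi (by positivity)
      nlinarith only [hp, h1]
    have h5 := Real.cosh_pos (Real.pi * t)
    positivity

/-- in `[-1/2, 3/2]` -/
theorem abs_yy_le_one_pi {x t : ℝ} (h0 : -(1 / 2) ≤ x) (h1 : x ≤ 3 / 2) : |yy x t| ≤ Real.pi := by
  have hp := Real.pi_pos
  have key : ∀ x t : ℝ, 0 < t → 0 ≤ x → x ≤ 1 / 2 → |yy x t + Real.pi| ≤ Real.pi := by
    intro x t ht h0 h1
    have h2 := abs_yy_le (x := x) (t := t) h0 (by linarith only [h1])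
    have h3 := yy_nonpos h0 h1 ht
    rw [abs_le] at h2 ⊢
    constructor <;> linarith only [hp, h2, h3, h2.1]
  have key2 : ∀ x t : ℝ, 0 < t → 0 ≤ x → x ≤ 3 / 2 → |yy x t| ≤ Real.pi := by
    intro x t ht h0 h1
    rcases le_or_gt x 1 with h4 | h4
    · have := abs_yy_le (x := x) (t := t) h0 h4
      linarith only [hp, this]
    · rw [yy_sub_one, show sg t = 1 from if_pos ht, mul_one]
      exact key _ _ ht (by linarith only [h4]) (by linarith only [h1])
  have key3 : ∀ x t : ℝ, 0 < t → -(1 / 2) ≤ x → x ≤ 3 / 2 → |yy x t| ≤ Real.pi := by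
    intro x t ht h0 h1
    rcases le_or_gt 0 x with h4 | h4
    · exact key2 x t ht h4 h1
    · have h5 := yy_one_sub (x := 1 - x) (t := t)
      rw [show 1 - (1 - x) = x by ring] at h5
      rw [h5, abs_neg]
      exact key2 _ _ ht (by linarith only [h0, h4]) (by linarith only [h0])
  rcases lt_trichotomy t 0 with h | h | h
  · have := key3 x (-t) (by linarith only [h]) h0 h1
    rwa [yy_conj, abs_neg] at this
  · have h2 : yy x t = 0 := by
      have h3 := yy_conj x t
      rw [h, neg_zero] at h3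
      rw [h]
      linarith only [h3]
    rw [h2, abs_zero]
    exact hp.le
  · exact key3 x t h h0 h1

/-- everywhere in `(-1, 2)` -/
theorem abs_yy_le_pi {x t : ℝ} (h0 : -1 ≤ x) (h1 : x ≤ 2) : |yy x t| ≤ 3 / 2 * Real.pi := by
  have hp := Real.pi_pos
  have hs := sg_abs t
  have hps : |Real.pi * sg t| ≤ Real.pi := by
    rw [abs_mul, abs_of_pos hp]
    nlinarith only [hp, hs]
  rcases le_or_gt x 0 with h2 | h2
  · have h3 := abs_yy_le (x := x + 1) (t := t) (by linarith only [h0]) (by linarith only [h2])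
    rw [yy_add_one] at h3
    rw [abs_le] at *
    constructor <;> linarith only [hps, h3, h3.1, h3.2, hps.1, hps.2]
  · rcases le_or_gt x 1 with h4 | h4
    · have := abs_yy_le (x := x) (t := t) h2.le h4
      linarith only [hp, this]
    · have h3 := abs_yy_le (x := x - 1) (t := t) (by linarith only [h4]) (by linarith only [h1])
      rw [yy_sub_one]
      rw [abs_le] at *
      constructor <;> linarith only [hps, h3, h3.1, h3.2, hps.1, hps.2]

end Pool.Agent.Work.NumXs

end

section

/-!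
# Numerics of `UU` and `YY` at every real part: affine forms

* `uxA` : affine form of `UU (x + i t)`; for `|t| ≥ 3/10` by the first term of the series (every
  real `x`), otherwise as `uwA` with a better value near the integers.
* `ywA` : affine form of the vertical derivative `YY (x + i t)`.
-/

namespace Pool.Agent.Work.NumGs

open NumIs (A G V R3 DR DR_pos DN_cast ndiv_le lt_ndiv)
open NumUs (uu uu_one_sub uu_add_one uu_neg uuA uuA_spec nadd_eq nmul_eq nsub_eq ndiv_eq')
open NumXs (yy sg)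

/-! ### bounds -/

/-- lower bound of `|t|` -/
def tLo (p q s : ℕ) : ℕ := Nat.add (Nat.sub p (Nat.add q s)) (Nat.sub q (Nat.add p s))

theorem tLo_spec {p q s : ℕ} {X : ℝ} (h : |X - ((p : ℝ) - q)| ≤ s) : ((tLo p q s : ℕ) : ℝ) ≤ |X| := by
  change ((p - (q + s) + (q - (p + s)) : ℕ) : ℝ) ≤ |X|
  rw [abs_le] at h
  rcases le_total p (q + s) with h1 | h1
  · rcases le_total q (p + s) with h2 | h2
    · rw [Nat.sub_eq_zero_of_le h1, Nat.sub_eq_zero_of_le h2]
      simpa using abs_nonneg X
    · rw [Nat.sub_eq_zero_of_le h1, zero_add, Nat.cast_sub h2]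
      push_cast
      have := neg_le_abs X
      linarith only [h, this, h.2]
  · have h2 : q ≤ p + s := by omega
    rw [Nat.sub_eq_zero_of_le h2, add_zero, Nat.cast_sub h1]
    push_cast
    have := le_abs_self X
    linarith only [h, this, h.1]

/-- the sign of `t` -/
def sgB (p q s : ℕ) : Option Bool :=
  cond (Nat.ble (Nat.add (Nat.add q s) 1) p) (some true)
    (cond (Nat.ble (Nat.add (Nat.add p s) 1) q) (some false) none)

theorem sgB_spec {p q s : ℕ} {t : ℝ} (h : |t * DR - ((p : ℝ) - q)| ≤ s) {b : Bool}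
    (hb : sgB p q s = some b) : sg t = cond b 1 (-1) := by
  have hD := DR_pos
  rw [abs_le] at h
  unfold sgB at hb
  rcases h1 : Nat.ble (Nat.add (Nat.add q s) 1) p with _ | _
  · rw [h1, cond_false] at hb
    rcases h2 : Nat.ble (Nat.add (Nat.add p s) 1) q with _ | _
    · rw [h2, cond_false] at hb
      exact absurd hb (by simp)
    · rw [h2, cond_true] at hb
      obtain rfl := Option.some.inj hb
      have h3 : ((p + s + 1 : ℕ) : ℝ) ≤ q := by exact_mod_cast Nat.le_of_ble_eq_true h2
      push_cast at h3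
      have h4 : t < 0 := by
        by_contra h5
        have := mul_nonneg (not_lt.1 h5) hD.le
        linarith only [h, h3, this, h.2]
      simp only [cond_false]
      unfold sg
      rw [if_neg (by linarith only [h4]), if_pos h4]
  · rw [h1, cond_true] at hb
    obtain rfl := Option.some.inj hb
    have h3 : ((q + s + 1 : ℕ) : ℝ) ≤ p := by exact_mod_cast Nat.le_of_ble_eq_true h1
    push_cast at h3
    have h4 : 0 < t := by
      by_contra h5
      have := mul_nonpos_of_nonpos_of_nonneg (not_lt.1 h5) hD.le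
      linarith only [h, h3, this, h.1]
    simp only [cond_true]
    unfold sg
    rw [if_pos h4]

/-- error of the series -/
def farE (h : ℕ) : ℕ := Nat.add (Nat.div (Nat.mul h h) 1374389534720) 1

theorem farE_spec {h : ℕ} {e : ℝ} (h0 : 0 ≤ e) (h1 : e * DR ≤ h) : e ^ 2 / 20 * DR ≤ farE h := by
  have hD := DR_pos
  have h2 := lt_ndiv (h * h) (b := 1374389534720) (by norm_num)
  change _ ≤ ((h * h / 1374389534720 + 1 : ℕ) : ℝ)
  rw [Nat.cast_mul] at h2
  have e1 : ((1374389534720 : ℕ) : ℝ) = 20 * DR := by unfold DR; norm_num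
  rw [e1] at h2
  push_cast
  refine le_trans ?_ h2.le
  rw [le_div_iff₀ (by positivity)]
  have h3 : (e * DR) * (e * DR) ≤ h * h := mul_le_mul h1 h1 (by positivity) (by positivity)
  calc e ^ 2 / 20 * DR * (20 * DR) = (e * DR) * (e * DR) := by ring
    _ ≤ _ := h3

/-- error near an integer -/
def nearE (y t : ℕ) : ℕ := Nat.add (Nat.div (Nat.mul (Nat.mul y y) y) (Nat.mul 2 (Nat.mul t t))) 1

theorem nearE_spec {ym tm : ℕ} {y t : ℝ} (h0 : 0 < tm) (h1 : |y| * DR ≤ ym) (h2 : tm ≤ |t| * DR) :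
    |y| ^ 3 / (2 * t ^ 2) * DR ≤ nearE ym tm := by
  have hD := DR_pos
  have h0' : (0 : ℝ) < tm := by exact_mod_cast h0
  have ht : 0 < |t| := by
    by_contra h3
    have := mul_nonpos_of_nonpos_of_nonneg (not_lt.1 h3) hD.le
    linarith only [h2, h0', this]
  have h3 := lt_ndiv (ym * ym * ym) (b := 2 * (tm * tm)) (by positivity)
  change _ ≤ ((ym * ym * ym / (2 * (tm * tm)) + 1 : ℕ) : ℝ)
  push_cast at h3 ⊢
  refine le_trans ?_ h3.le
  rw [← sq_abs t, div_mul_eq_mul_div, div_le_div_iff₀ (by positivity) (by positivity)]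
  have a1 : (|y| * DR) * (|y| * DR) ≤ ym * ym := mul_le_mul h1 h1 (by positivity) (by positivity)
  have a2 : (|y| * DR) * (|y| * DR) * (|y| * DR) ≤ ym * ym * ym :=
    mul_le_mul a1 h1 (by positivity) (by positivity)
  have a3 : (tm : ℝ) * tm ≤ (|t| * DR) * (|t| * DR) := mul_le_mul h2 h2 (by positivity) (by positivity)
  have a4 : (|y| * DR) * (|y| * DR) * (|y| * DR) * (2 * (tm * tm)) ≤
      ym * ym * ym * (2 * ((|t| * DR) * (|t| * DR))) :=
    mul_le_mul a2 (by linarith only [a3]) (by positivity) (by positivity)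
  have e1 : |y| ^ 3 * DR * (2 * (tm * tm)) * (DR * DR) =
      (|y| * DR) * (|y| * DR) * (|y| * DR) * (2 * (tm * tm)) := by ring
  have e2 : (ym : ℝ) * ym * ym * (2 * |t| ^ 2) * (DR * DR) =
      ym * ym * ym * (2 * ((|t| * DR) * (|t| * DR))) := by ring
  rw [← e1, ← e2] at a4
  exact le_of_mul_le_mul_right a4 (by positivity)

/-- error of the derivative near an integer -/
def ynE (y t : ℕ) : ℕ := Nat.add (Nat.mul 4 y) (Nat.add (Nat.div (Nat.mul (Nat.mul 6 y) 68719476736) (Nat.mul 5 t)) 1)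

theorem ynE_spec {ym tm : ℕ} {y t : ℝ} (h0 : 0 < tm) (h1 : |y| * DR ≤ ym) (h2 : tm ≤ |t| * DR) :
    |y| * (4 + 6 / (5 * |t|)) * DR ≤ ynE ym tm := by
  have hD := DR_pos
  have h0' : (0 : ℝ) < tm := by exact_mod_cast h0
  have ht : 0 < |t| := by
    by_contra h3
    have := mul_nonpos_of_nonpos_of_nonneg (not_lt.1 h3) hD.le
    linarith only [h2, h0', this]
  have h3 := lt_ndiv (6 * ym * 68719476736) (b := 5 * tm) (by positivity)
  change _ ≤ ((4 * ym + (6 * ym * 68719476736 / (5 * tm) + 1) : ℕ) : ℝ)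
  push_cast at h3 ⊢
  have e1 : (68719476736 : ℝ) = DR := by unfold DR; norm_num
  rw [e1] at h3
  have a1 : |y| * DR * (6 / (5 * |t|)) ≤ 6 * ym * DR / (5 * tm) := by
    rw [mul_div_assoc', div_le_div_iff₀ (by positivity) (by positivity)]
    have b1 : |y| * DR * (6 * (5 * tm)) ≤ ym * (6 * (5 * tm)) :=
      mul_le_mul_of_nonneg_right h1 (by positivity)
    have b2 : (ym : ℝ) * (6 * (5 * tm)) ≤ ym * (6 * (5 * (|t| * DR))) :=
      mul_le_mul_of_nonneg_left (by linarith only [h2]) (by positivity)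
    nlinarith only [b1, b2]
  have e2 : |y| * (4 + 6 / (5 * |t|)) * DR = 4 * (|y| * DR) + |y| * DR * (6 / (5 * |t|)) := by ring
  rw [e2]
  linarith only [h1, h3, a1]

/-- add an error -/
theorem Encl_err {v : A} {ε : ℕ → ℝ} {x y : ℝ} {k : ℕ} (h : v.Encl ε y)
    (hk : |x - y| * DR ≤ k) : A.Encl ⟨v.p, v.q, Nat.add v.r k, v.g⟩ ε x := by
  have hD := DR_pos
  unfold A.Encl at h ⊢
  simp only
  change _ ≤ ((v.r + k : ℕ) : ℝ)
  push_cast
  have e1 : |(x - y) * DR| ≤ k := by rw [abs_mul, abs_of_pos hD]; exact hk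
  have e2 : x * DR - ((v.p : ℝ) - v.q + v.g.ev ε) =
      (y * DR - ((v.p : ℝ) - v.q + v.g.ev ε)) + (x - y) * DR := by ring
  rw [e2]
  exact (abs_add_le _ _).trans (add_le_add h e1)

/-- `1 / (2 π)` -/
def ip2 : A := ⟨10937044409, 0, 2, G.nil⟩

theorem ip2_real : |1 / (2 * Real.pi) * DR - 10937044409| ≤ 2 := by
  have h3 := Real.pi_gt_d20
  have h4 := Real.pi_lt_d20
  have hp := Real.pi_pos
  have e : 1 / (2 * Real.pi) * DR = DR / (2 * Real.pi) := by ring
  rw [e, abs_le]
  unfold DR
  constructor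
  · rw [le_sub_iff_add_le, le_div_iff₀ (by positivity)]
    linarith only [h3, h4]
  · rw [sub_le_iff_le_add, div_le_iff₀ (by positivity)]
    linarith only [h3, h4]

theorem ip2_spec (ε : ℕ → ℝ) : ip2.Encl ε (1 / (2 * Real.pi)) := by
  change |1 / (2 * Real.pi) * DR - (((10937044409 : ℕ) : ℝ) - ((0 : ℕ) : ℝ) + 0)| ≤ ((2 : ℕ) : ℝ)
  have := ip2_real
  push_cast
  simpa using this

/-! ### `|t| ≥ 3/10` -/

/-- first term of the series; `w = π |t|` -/
def farA (X w : A) : Option A :=
  match A.exp (A.neg (A.add w w)) with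
  | none => none
  | some e =>
    let v := A.sub (A.mul w (A.sub X (A.cst (Int.ofNat 1) 2))) (A.mul (A.mul e (A.sinPi (A.add X X))) ip2)
    some ⟨v.p, v.q, Nat.add v.r (farE (Nat.sub (Nat.add e.p e.tot) e.q)), v.g⟩

theorem exp_hi {e : A} {ε : ℕ → ℝ} {x : ℝ} (hε : ∀ i, |ε i| ≤ 1) (h : e.Encl ε x) :
    x * DR ≤ ((Nat.sub (Nat.add e.p e.tot) e.q : ℕ) : ℝ) := by
  have h1 := (abs_le.1 (h.tot hε)).2
  change x * DR ≤ ((e.p + e.tot - e.q : ℕ) : ℝ)
  have h2 : ((e.p + e.tot : ℕ) : ℝ) ≤ ((e.p + e.tot - e.q : ℕ) : ℝ) + e.q := by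
    have h3 : e.p + e.tot ≤ (e.p + e.tot - e.q) + e.q := by omega
    exact_mod_cast h3
  push_cast at h2 ⊢
  linarith only [h1, h2]

theorem far_val {x t e : ℝ} (he : e = Real.exp (-(Real.pi * |t| + Real.pi * |t|)))
    (ht : 3 / 10 ≤ |t|) : |uu x t - (Real.pi * |t| * (x - 1 / 2) -
      e * Real.sin (Real.pi * (x + x)) * (1 / (2 * Real.pi)))| ≤ e ^ 2 / 20 := by
  have h := NumXs.far (x := x) ht
  have e1 : Real.exp (-(2 * Real.pi * |t|)) = e := by rw [he]; congr 1; ring
  rw [e1] at h
  have e2 : Real.sin (Real.pi * (x + x)) = Real.sin (2 * Real.pi * x) := by congr 1; ring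
  rw [e2]
  refine le_trans (le_of_eq ?_) h
  congr 1
  ring

theorem farA_spec {X w c : A} {ε : ℕ → ℝ} {x t : ℝ} (hε : ∀ i, |ε i| ≤ 1) (hx : X.Encl ε x)
    (hw : w.Encl ε (Real.pi * |t|)) (ht : 3 / 10 ≤ |t|) (h : farA X w = some c) :
    c.Encl ε (uu x t) := by
  have hD := DR_pos
  unfold farA at h
  rcases he : A.exp (A.neg (A.add w w)) with _ | e
  · rw [he] at h; exact absurd h (by simp)
  rw [he] at h
  simp only [Option.some.injEq] at h
  have h1 := (hw.add hw).neg.exp hε he
  have h2 := (hx.add hx).sinPi hε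
  have h3 := A.Encl_cst (Int.ofNat 1) 2 ε
  have e3 : (((Int.ofNat 1 : ℤ) : ℝ) / ((2 : ℕ) : ℝ)) = 1 / 2 := by simp
  rw [e3] at h3
  have h4 := (hw.mul hε (hx.sub h3)).sub ((h1.mul hε h2).mul hε (ip2_spec ε))
  rw [← h]
  refine Encl_err h4 ?_
  refine le_trans (mul_le_mul_of_nonneg_right (far_val rfl ht) hD.le) ?_
  exact farE_spec (Real.exp_pos _).le (exp_hi hε h1)

/-! ### near an integer, `t ≠ 0` -/

/-- `- w / 2 + x log (2 sinh w)`; `w = π |t|` -/
def nearA (X T w : A) : Option A :=
  let y := Nat.add (Nat.add X.p X.q) X.tot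
  let t := tLo T.p T.q T.tot
  cond (Nat.ble y 34359738368) (cond (Nat.ble 1 t)
    (match A.hyp false w with
      | none => none
      | some s => match A.log (A.add s s) with
        | none => none
        | some l =>
          let v := A.sub (A.mul X l) (A.mul (A.cst (Int.ofNat 1) 2) w)
          some ⟨v.p, v.q, Nat.add v.r (nearE y t), v.g⟩) none) none

theorem nearA_spec {X T w c : A} {ε : ℕ → ℝ} {x t : ℝ} (hε : ∀ i, |ε i| ≤ 1) (hx : X.Encl ε x)
    (ht : T.Encl ε t) (hw : w.Encl ε (Real.pi * |t|)) (h : nearA X T w = some c) :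
    c.Encl ε (uu x t) := by
  have hD := DR_pos
  unfold nearA at h
  simp only at h
  obtain ⟨h1, h⟩ := NumUs.cond_some h
  obtain ⟨h2, h⟩ := NumUs.cond_some h
  have a1 : ((Nat.add (Nat.add X.p X.q) X.tot : ℕ) : ℝ) ≤ ((34359738368 : ℕ) : ℝ) := by
    exact_mod_cast Nat.le_of_ble_eq_true h1
  have a2 := abs_of_tot hε hx
  have a3 : |x| ≤ 1 / 2 := by
    have e : ((34359738368 : ℕ) : ℝ) = 1 / 2 * DR := by unfold DR; norm_num
    rw [e] at a1
    exact le_of_mul_le_mul_right (a2.trans a1) hD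
  have a4 : 0 < tLo T.p T.q T.tot := Nat.le_of_ble_eq_true h2
  have a5 := tLo_spec (ht.tot hε)
  rw [abs_mul, abs_of_pos hD] at a5
  have a6 : t ≠ 0 := by
    rintro rfl
    have : (0 : ℝ) < ((tLo T.p T.q T.tot : ℕ) : ℝ) := by exact_mod_cast a4
    rw [abs_zero, zero_mul] at a5
    linarith only [a5, this]
  rcases hs : A.hyp false w with _ | s
  · rw [hs] at h; exact absurd h (by simp)
  rw [hs] at h
  simp only at h
  rcases hl : A.log (A.add s s) with _ | l
  · rw [hl] at h; exact absurd h (by simp)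
  rw [hl] at h
  simp only [Option.some.injEq] at h
  have b1 := hw.hyp hε hs
  have b2 := (b1.add b1).log hε hl
  have e3 : (((Int.ofNat 1 : ℤ) : ℝ) / ((2 : ℕ) : ℝ)) = 1 / 2 := by simp
  have b3 := A.Encl_cst (Int.ofNat 1) 2 ε
  rw [e3] at b3
  have b4 := (hx.mul hε b2).sub (b3.mul hε hw)
  rw [← h]
  refine Encl_err b4 ?_
  refine le_trans ?_ (nearE_spec a4 a2 a5)
  refine mul_le_mul_of_nonneg_right ?_ hD.le
  refine le_trans (le_of_eq ?_) (NumXs.near a6 (lt_of_le_of_lt a3 (by norm_num)))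
  congr 1
  simp only [Bool.cond_false]
  rw [← two_mul]
  ring

/-- the one with the smaller error -/
def minA (s t : Option A) : Option A := match s with
  | none => t
  | some u => match t with
    | none => some u
    | some v => cond (Nat.ble u.r v.r) (some u) (some v)

theorem minA_spec {s t : Option A} {c : A} (h : minA s t = some c) : s = some c ∨ t = some c := by
  unfold minA at h
  rcases s with _ | u
  · exact Or.inr h
  · simp only at h
    rcases t with _ | v
    · exact Or.inl h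
    · simp only at h
      rcases hb : Nat.ble u.r v.r with _ | _
      · rw [hb, cond_false] at h; exact Or.inr h
      · rw [hb, cond_true] at h; exact Or.inl h

/-- `UU (x + i t)` for every real `x` -/
def uxA (a b : A) : Option A :=
  let X := a.nf
  let T := b.nf
  let w := A.mul A.pi (absA T)
  cond (Nat.ble 20615843021 (tLo T.p T.q T.tot)) (farA X w)
    (cond (Nat.beq X.q 0)
      (let n := Nat.div X.p 68719476736
       let m := Nat.div (Nat.add X.p 34359738368) 68719476736
       pickA (mapA (fun u => addK n u w) (uuA (shD n X) T))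
        (mapA (fun u => addK m u w) (minA (nearA (shD m X).nf T w) (strA (shD m X).nf T w))))
      (let n := Nat.div (Nat.add X.q 68719476735) 68719476736
       let m := Nat.div (Nat.add X.q 34359738368) 68719476736
       pickA (mapA (fun u => subK n u w) (uuA (shU n X) T))
        (mapA (fun u => subK m u w) (minA (nearA (shU m X).nf T w) (strA (shU m X).nf T w)))))

theorem ns_spec {X T w c : A} {ε : ℕ → ℝ} {x t : ℝ} (hε : ∀ i, |ε i| ≤ 1) (hx : X.Encl ε x)
    (ht : T.Encl ε t) (hw : w.Encl ε (Real.pi * |t|))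
    (h : minA (nearA X T w) (strA X T w) = some c) : c.Encl ε (uu x t) := by
  rcases minA_spec h with h | h
  · exact nearA_spec hε hx ht hw h
  · exact strA_spec hε hx ht hw h

theorem far_ok {p q s : ℕ} {t : ℝ} (h : Nat.ble 20615843021 (tLo p q s) = true)
    (ht : |t * DR - ((p : ℝ) - q)| ≤ s) : 3 / 10 ≤ |t| := by
  have hD := DR_pos
  have h1 := tLo_spec ht
  rw [abs_mul, abs_of_pos hD] at h1
  have h2 : ((20615843021 : ℕ) : ℝ) ≤ ((tLo p q s : ℕ) : ℝ) := by
    exact_mod_cast Nat.le_of_ble_eq_true h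
  have h3 : 3 / 10 * DR ≤ |t| * DR := by
    refine le_trans ?_ (h2.trans h1)
    unfold DR
    norm_num
  exact le_of_mul_le_mul_right h3 hD

theorem uxA_spec {a b c : A} {ε : ℕ → ℝ} {x t : ℝ} (hε : ∀ i, |ε i| ≤ 1) (hx : a.Encl ε x)
    (ht : b.Encl ε t) (h : uxA a b = some c) : c.Encl ε (uu x t) := by
  unfold uxA at h
  simp only at h
  have hX := hx.nf
  have hT := ht.nf
  have hw := (A.Encl_pi ε).mul hε (absA_spec hε hT)
  rcases h0 : Nat.ble 20615843021 (tLo b.nf.p b.nf.q b.nf.tot) with _ | _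
  swap
  · rw [h0, cond_true] at h
    exact farA_spec hε hX hw (far_ok h0 (hT.tot hε)) h
  rw [h0, cond_false] at h
  have eD : ∀ n : ℕ, uu x t = uu (x - n) t + n * (Real.pi * |t|) := by
    intro n
    rw [← uu_add_nat, sub_add_cancel]
  have eU : ∀ n : ℕ, uu x t = uu (x + n) t - n * (Real.pi * |t|) := by
    intro n
    rw [uu_add_nat]
    ring
  rcases h1 : Nat.beq a.nf.q 0 with _ | _
  · rw [h1, cond_false] at h
    rcases pickA_spec h with h | h
    · obtain ⟨u, hu, rfl⟩ := mapA_some h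
      rw [eU (Nat.div (Nat.add a.nf.q 68719476735) 68719476736)]
      exact subK_spec hε (uuA_spec hε (shU_spec hX _) hT hu) hw _
    · obtain ⟨u, hu, rfl⟩ := mapA_some h
      rw [eU (Nat.div (Nat.add a.nf.q 34359738368) 68719476736)]
      exact subK_spec hε (ns_spec hε (shU_spec hX _).nf hT hw hu) hw _
  · rw [h1, cond_true] at h
    rcases pickA_spec h with h | h
    · obtain ⟨u, hu, rfl⟩ := mapA_some h
      rw [eD (Nat.div a.nf.p 68719476736)]
      exact addK_spec hε (uuA_spec hε (shD_spec hX _) hT hu) hw _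
    · obtain ⟨u, hu, rfl⟩ := mapA_some h
      rw [eD (Nat.div (Nat.add a.nf.p 34359738368) 68719476736)]
      exact addK_spec hε (ns_spec hε (shD_spec hX _).nf hT hw hu) hw _

/-! ### the vertical derivative -/

theorem yy_add_nat (x t : ℝ) (n : ℕ) : yy (x + n) t = yy x t + n * (Real.pi * sg t) := by
  induction n with
  | zero => simp
  | succ n ih =>
    rw [Nat.cast_add, Nat.cast_one, ← add_assoc, NumXs.yy_add_one, ih]
    ring

/-- `v + n π sign t` -/
def addS (n : ℕ) (s : Option Bool) (v : A) : Option A :=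
  cond (Nat.beq n 0) (some v) (match s with
    | none => none
    | some b => cond b (some (A.add v (A.mul (A.cst (Int.ofNat n) 1) A.pi)))
      (some (A.sub v (A.mul (A.cst (Int.ofNat n) 1) A.pi))))

theorem addS_spec {n : ℕ} {s : Option Bool} {v c : A} {ε : ℕ → ℝ} {y t : ℝ}
    (hε : ∀ i, |ε i| ≤ 1) (hs : ∀ b, s = some b → sg t = cond b 1 (-1)) (hv : v.Encl ε y)
    (h : addS n s v = some c) : c.Encl ε (y + n * (Real.pi * sg t)) := by
  unfold addS at h
  rcases h1 : Nat.beq n 0 with _ | _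
  · rw [h1, cond_false] at h
    rcases s with _ | b
    · exact absurd h (by simp)
    · simp only at h
      rw [hs b rfl]
      have h2 := A.Encl_cst (Int.ofNat n) 1 ε
      have e : (((Int.ofNat n : ℤ) : ℝ) / ((1 : ℕ) : ℝ)) = n := by simp
      rw [e] at h2
      have h3 := h2.mul hε (A.Encl_pi ε)
      rcases b with _ | _
      · rw [cond_false] at h ⊢
        obtain rfl := Option.some.inj h
        have := hv.sub h3
        have e2 : y + n * (Real.pi * -1) = y - n * Real.pi := by ring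
        rw [e2]
        exact this
      · rw [cond_true] at h ⊢
        obtain rfl := Option.some.inj h
        rw [mul_one]
        exact hv.add h3
  · have h0 : n = 0 := Nat.eq_of_beq_eq_true h1
    subst h0
    rw [h1, cond_true] at h
    obtain rfl := Option.some.inj h
    simpa using hv

/-- `v - n π sign t` -/
def subS (n : ℕ) (s : Option Bool) (v : A) : Option A :=
  cond (Nat.beq n 0) (some v) (match s with
    | none => none
    | some b => cond b (some (A.sub v (A.mul (A.cst (Int.ofNat n) 1) A.pi)))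
      (some (A.add v (A.mul (A.cst (Int.ofNat n) 1) A.pi))))

theorem subS_spec {n : ℕ} {s : Option Bool} {v c : A} {ε : ℕ → ℝ} {y t : ℝ}
    (hε : ∀ i, |ε i| ≤ 1) (hs : ∀ b, s = some b → sg t = cond b 1 (-1)) (hv : v.Encl ε y)
    (h : subS n s v = some c) : c.Encl ε (y - n * (Real.pi * sg t)) := by
  unfold subS at h
  rcases h1 : Nat.beq n 0 with _ | _
  · rw [h1, cond_false] at h
    rcases s with _ | b
    · exact absurd h (by simp)
    · simp only at h
      rw [hs b rfl]
      have h2 := A.Encl_cst (Int.ofNat n) 1 ε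
      have e : (((Int.ofNat n : ℤ) : ℝ) / ((1 : ℕ) : ℝ)) = n := by simp
      rw [e] at h2
      have h3 := h2.mul hε (A.Encl_pi ε)
      rcases b with _ | _
      · rw [cond_false] at h ⊢
        obtain rfl := Option.some.inj h
        have := hv.add h3
        have e2 : y - n * (Real.pi * -1) = y + n * Real.pi := by ring
        rw [e2]
        exact this
      · rw [cond_true] at h ⊢
        obtain rfl := Option.some.inj h
        rw [mul_one]
        exact hv.sub h3
  · have h0 : n = 0 := Nat.eq_of_beq_eq_true h1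
    subst h0
    rw [h1, cond_true] at h
    obtain rfl := Option.some.inj h
    simpa using hv

/-- inside `(0, 1)` -/
def ycA (X T : A) : Option A :=
  cond (Nat.ble (Nat.add (Nat.add X.q X.tot) 1) X.p)
    (cond (Nat.ble (Nat.add (Nat.add X.p X.tot) 1) (Nat.add 68719476736 X.q))
      (mapA A.neg (A.lnB X T)) none) none

theorem ycA_spec {X T c : A} {ε : ℕ → ℝ} {x t : ℝ} (hε : ∀ i, |ε i| ≤ 1) (hx : X.Encl ε x)
    (ht : T.Encl ε t) (h : ycA X T = some c) : c.Encl ε (yy x t) := by
  have hD := DR_pos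
  unfold ycA at h
  obtain ⟨h1, h⟩ := NumUs.cond_some h
  obtain ⟨h2, h⟩ := NumUs.cond_some h
  obtain ⟨u, hu, rfl⟩ := mapA_some h
  have a1 := abs_le.1 (hx.tot hε)
  have a2 : ((X.q + X.tot + 1 : ℕ) : ℝ) ≤ X.p := by exact_mod_cast Nat.le_of_ble_eq_true h1
  have a3 : ((X.p + X.tot + 1 : ℕ) : ℝ) ≤ ((68719476736 + X.q : ℕ) : ℝ) := by
    exact_mod_cast Nat.le_of_ble_eq_true h2
  rw [Nat.cast_add 68719476736, DN_cast] at a3
  push_cast at a2 a3
  have x0 : 0 < x := by
    have : 0 < x * DR := by linarith only [a1, a2, a1.1]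
    exact (mul_pos_iff_of_pos_right hD).1 this
  have x1 : x < 1 := by
    have : x * DR < 1 * DR := by linarith only [a1, a3, a1.2]
    exact lt_of_mul_lt_mul_right this hD.le
  rw [NumXs.yy_lnB x0 x1]
  exact (hx.lnB hε ht hu).neg

/-- near an integer: `- π / 2 sign t` -/
def ynA (X T : A) : Option A :=
  let y := Nat.add (Nat.add X.p X.q) X.tot
  let t := tLo T.p T.q T.tot
  cond (Nat.ble y 8589934592) (cond (Nat.ble 1 t)
    (match sgB T.p T.q T.tot with
      | none => none
      | some b => cond b (some ⟨0, 107944301636, Nat.add 2 (ynE y t), G.nil⟩)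
        (some ⟨107944301636, 0, Nat.add 2 (ynE y t), G.nil⟩)) none) none

theorem half_pi_real : |Real.pi / 2 * DR - 107944301636| ≤ 2 := by
  have h3 := Real.pi_gt_d20
  have h4 := Real.pi_lt_d20
  rw [abs_le]
  unfold DR
  constructor <;> linarith only [h3, h4]

theorem ynA_spec {X T c : A} {ε : ℕ → ℝ} {x t : ℝ} (hε : ∀ i, |ε i| ≤ 1) (hx : X.Encl ε x)
    (ht : T.Encl ε t) (h : ynA X T = some c) : c.Encl ε (yy x t) := by
  have hD := DR_pos
  unfold ynA at h
  simp only at h
  obtain ⟨h1, h⟩ := NumUs.cond_some h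
  obtain ⟨h2, h⟩ := NumUs.cond_some h
  have a1 : ((Nat.add (Nat.add X.p X.q) X.tot : ℕ) : ℝ) ≤ ((8589934592 : ℕ) : ℝ) := by
    exact_mod_cast Nat.le_of_ble_eq_true h1
  have a2 := abs_of_tot hε hx
  have a3 : |x| ≤ 1 / 8 := by
    have e : ((8589934592 : ℕ) : ℝ) = 1 / 8 * DR := by unfold DR; norm_num
    rw [e] at a1
    exact le_of_mul_le_mul_right (a2.trans a1) hD
  have a4 : 0 < tLo T.p T.q T.tot := Nat.le_of_ble_eq_true h2
  have a5 := tLo_spec (ht.tot hε)
  rw [abs_mul, abs_of_pos hD] at a5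
  have a6 : t ≠ 0 := by
    rintro rfl
    have : (0 : ℝ) < ((tLo T.p T.q T.tot : ℕ) : ℝ) := by exact_mod_cast a4
    rw [abs_zero, zero_mul] at a5
    linarith only [a5, this]
  rcases hb : sgB T.p T.q T.tot with _ | b
  · rw [hb] at h; exact absurd h (by simp)
  rw [hb] at h
  simp only at h
  have a7 := sgB_spec (ht.tot hε) hb
  have a8 := NumXs.yy_near a6 a3
  have a9 := ynE_spec a4 a2 a5
  have a10 := mul_le_mul_of_nonneg_right a8 hD.le
  have a11 := abs_le.1 half_pi_real
  have e1 : |yy x t + Real.pi / 2 * sg t| * DR = |(yy x t + Real.pi / 2 * sg t) * DR| := by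
    rw [abs_mul, abs_of_pos hD]
  rw [e1] at a10
  have a12 := abs_le.1 (a10.trans a9)
  rw [a7] at a12
  set E := ynE (Nat.add (Nat.add X.p X.q) X.tot) (tLo T.p T.q T.tot)
  rcases b with _ | _
  · rw [cond_false] at h a12
    obtain rfl := Option.some.inj h
    change |yy x t * DR - (((107944301636 : ℕ) : ℝ) - ((0 : ℕ) : ℝ) + 0)| ≤ ((2 + E : ℕ) : ℝ)
    push_cast
    rw [abs_le]
    constructor <;> nlinarith only [a11, a12, a12.1, a12.2, a11.1, a11.2]
  · rw [cond_true] at h a12
    obtain rfl := Option.some.inj h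
    change |yy x t * DR - (((0 : ℕ) : ℝ) - ((107944301636 : ℕ) : ℝ) + 0)| ≤ ((2 + E : ℕ) : ℝ)
    push_cast
    rw [abs_le]
    constructor <;> nlinarith only [a11, a12, a12.1, a12.2, a11.1, a11.2]

/-- the rough bound: `0` with the error `π` for `-1/2 ≤ x ≤ 3/2` or `3 π / 2` for `-1 ≤ x ≤ 2` -/
def yrE (p q s : ℕ) : Option ℕ :=
  cond (Nat.ble (Nat.add q s) (Nat.add p 68719476736))
    (cond (Nat.ble (Nat.add p s) (Nat.add q 137438953472))
      (cond (Nat.ble (Nat.add q s) (Nat.add p 34359738368))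
        (cond (Nat.ble (Nat.add p s) (Nat.add q 103079215104)) (some 215888603273)
          (some 323832904909)) (some 323832904909)) none) none

theorem yrE_spec {p q s k : ℕ} {x t : ℝ} (hx : |x * DR - ((p : ℝ) - q)| ≤ s)
    (h : yrE p q s = some k) : |yy x t| * DR ≤ k := by
  have hD := DR_pos
  have h3 := Real.pi_gt_d20
  have h4 := Real.pi_lt_d20
  have a1 := abs_le.1 hx
  unfold yrE at h
  obtain ⟨b1, h⟩ := NumUs.cond_some h
  obtain ⟨b2, h⟩ := NumUs.cond_some h
  have c1 : ((q + s : ℕ) : ℝ) ≤ ((p + 68719476736 : ℕ) : ℝ) := by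
    exact_mod_cast Nat.le_of_ble_eq_true b1
  have c2 : ((p + s : ℕ) : ℝ) ≤ ((q + 137438953472 : ℕ) : ℝ) := by
    exact_mod_cast Nat.le_of_ble_eq_true b2
  have e1 : ((68719476736 : ℕ) : ℝ) = DR := DN_cast
  have e2 : ((137438953472 : ℕ) : ℝ) = 2 * DR := by unfold DR; norm_num
  rw [Nat.cast_add, Nat.cast_add, e1] at c1
  rw [Nat.cast_add, Nat.cast_add, e2] at c2
  have d1 : -1 ≤ x := by
    have : -1 * DR ≤ x * DR := by linarith only [a1, c1, a1.1]
    exact le_of_mul_le_mul_right this hD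
  have d2 : x ≤ 2 := by
    have : x * DR ≤ 2 * DR := by linarith only [a1, c2, a1.2]
    exact le_of_mul_le_mul_right this hD
  have g0 : |yy x t| * DR ≤ ((323832904909 : ℕ) : ℝ) := by
    have := mul_le_mul_of_nonneg_right (NumXs.abs_yy_le_pi (t := t) d1 d2) hD.le
    refine this.trans ?_
    unfold DR
    push_cast
    linarith only [h3, h4]
  rcases b3 : Nat.ble (Nat.add q s) (Nat.add p 34359738368) with _ | _
  · rw [b3, cond_false] at h
    obtain rfl := Option.some.inj h
    exact g0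
  rw [b3, cond_true] at h
  rcases b4 : Nat.ble (Nat.add p s) (Nat.add q 103079215104) with _ | _
  · rw [b4, cond_false] at h
    obtain rfl := Option.some.inj h
    exact g0
  rw [b4, cond_true] at h
  obtain rfl := Option.some.inj h
  have c3 : ((q + s : ℕ) : ℝ) ≤ ((p + 34359738368 : ℕ) : ℝ) := by
    exact_mod_cast Nat.le_of_ble_eq_true b3
  have c4 : ((p + s : ℕ) : ℝ) ≤ ((q + 103079215104 : ℕ) : ℝ) := by
    exact_mod_cast Nat.le_of_ble_eq_true b4
  have e3 : ((34359738368 : ℕ) : ℝ) = 1 / 2 * DR := by unfold DR; norm_num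
  have e4 : ((103079215104 : ℕ) : ℝ) = 3 / 2 * DR := by unfold DR; norm_num
  rw [Nat.cast_add, Nat.cast_add, e3] at c3
  rw [Nat.cast_add, Nat.cast_add, e4] at c4
  have d3 : -(1 / 2) ≤ x := by
    have : -(1 / 2) * DR ≤ x * DR := by linarith only [a1, c3, a1.1]
    exact le_of_mul_le_mul_right this hD
  have d4 : x ≤ 3 / 2 := by
    have : x * DR ≤ 3 / 2 * DR := by linarith only [a1, c4, a1.2]
    exact le_of_mul_le_mul_right this hD
  have := mul_le_mul_of_nonneg_right (NumXs.abs_yy_le_one_pi (t := t) d3 d4) hD.le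
  refine this.trans ?_
  unfold DR
  push_cast
  linarith only [h3, h4]

def yrA (X : A) : Option A := match yrE X.p X.q X.tot with
  | none => none
  | some k => some ⟨0, 0, k, G.nil⟩

theorem yrA_spec {X c : A} {ε : ℕ → ℝ} {x : ℝ} (t : ℝ) (hε : ∀ i, |ε i| ≤ 1) (hx : X.Encl ε x)
    (h : yrA X = some c) : c.Encl ε (yy x t) := by
  have hD := DR_pos
  unfold yrA at h
  rcases hk : yrE X.p X.q X.tot with _ | k
  · rw [hk] at h; exact absurd h (by simp)
  rw [hk] at h
  obtain rfl := Option.some.inj h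
  have h1 := yrE_spec (t := t) (hx.tot hε) hk
  change |yy x t * DR - (((0 : ℕ) : ℝ) - ((0 : ℕ) : ℝ) + 0)| ≤ (k : ℝ)
  simpa [abs_mul, abs_of_pos hD] using h1

/-- bind -/
def bindA (x : Option A) (f : A → Option A) : Option A := match x with
  | none => none
  | some a => f a

theorem bindA_some {f : A → Option A} {x : Option A} {c : A} (h : bindA x f = some c) :
    ∃ a, x = some a ∧ f a = some c := by
  unfold bindA at h
  rcases x with _ | a
  · exact absurd h (by simp)
  · exact ⟨a, rfl, h⟩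

/-- `YY (x + i t)` for every real `x` -/
def ywA (a b : A) : Option A :=
  let X := a.nf
  let T := b.nf
  let s := sgB T.p T.q T.tot
  cond (Nat.beq X.q 0)
    (let n := Nat.div X.p 68719476736
     let m := Nat.div (Nat.add X.p 34359738368) 68719476736
     pickA (bindA (ycA (shD n X) T) (addS n s))
      (minA (bindA (ynA (shD m X).nf T) (addS m s)) (yrA X)))
    (let n := Nat.div (Nat.add X.q 68719476735) 68719476736
     let m := Nat.div (Nat.add X.q 34359738368) 68719476736
     pickA (bindA (ycA (shU n X) T) (subS n s))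
      (minA (bindA (ynA (shU m X).nf T) (subS m s)) (yrA X)))

theorem ywA_spec {a b c : A} {ε : ℕ → ℝ} {x t : ℝ} (hε : ∀ i, |ε i| ≤ 1) (hx : a.Encl ε x)
    (ht : b.Encl ε t) (h : ywA a b = some c) : c.Encl ε (yy x t) := by
  unfold ywA at h
  simp only at h
  have hX := hx.nf
  have hT := ht.nf
  have hs : ∀ c, sgB b.nf.p b.nf.q b.nf.tot = some c → sg t = cond c 1 (-1) := fun c hc =>
    sgB_spec (hT.tot hε) hc
  have eD : ∀ n : ℕ, yy x t = yy (x - n) t + n * (Real.pi * sg t) := by
    intro n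
    rw [← yy_add_nat, sub_add_cancel]
  have eU : ∀ n : ℕ, yy x t = yy (x + n) t - n * (Real.pi * sg t) := by
    intro n
    rw [yy_add_nat]
    ring
  rcases h1 : Nat.beq a.nf.q 0 with _ | _
  · rw [h1, cond_false] at h
    rcases pickA_spec h with h | h
    · obtain ⟨u, hu, h⟩ := bindA_some h
      rw [eU (Nat.div (Nat.add a.nf.q 68719476735) 68719476736)]
      exact subS_spec hε hs (ycA_spec hε (shU_spec hX _) hT hu) h
    · rcases minA_spec h with h | h
      · obtain ⟨u, hu, h⟩ := bindA_some h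
        rw [eU (Nat.div (Nat.add a.nf.q 34359738368) 68719476736)]
        exact subS_spec hε hs (ynA_spec hε (shU_spec hX _).nf hT hu) h
      · exact yrA_spec t hε hX h
  · rw [h1, cond_true] at h
    rcases pickA_spec h with h | h
    · obtain ⟨u, hu, h⟩ := bindA_some h
      rw [eD (Nat.div a.nf.p 68719476736)]
      exact addS_spec hε hs (ycA_spec hε (shD_spec hX _) hT hu) h
    · rcases minA_spec h with h | h
      · obtain ⟨u, hu, h⟩ := bindA_some h
        rw [eD (Nat.div (Nat.add a.nf.p 34359738368) 68719476736)]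
        exact addS_spec hε hs (ynA_spec hε (shD_spec hX _).nf hT hu) h
      · exact yrA_spec t hε hX h

end Pool.Agent.Work.NumGs

end
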