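import Pool.Agent.Work.MP_b30479_gt.TBS.G2.RngKd
import Pool.Agent.Work.MP_b30479_gt.TBS.G2.TE1T
import Pool.Agent.Work.MP_b30479_gt.TBS.G2.TK2a
import Pool.Agent.Work.MP_b30479_gt.TBS.G2.WLocX
import Pool.Agent.Work.MP_b30479_gt.TBS.G2.V2BLo_0

section

/-!
# Tails: the sides of the regions at an end of the word, positivity of the sums of the gauges
-/

set_option linter.unusedVariables false
set_option linter.unusedSimpArgs false

set_option deprecated.oldSectionVars true

namespace Pool.Agent.Work.MP_b30479_gtS.G2

open VOL SR NumUs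

namespace TL

namespace K4

open NumUs.E NumIs

theorem k2o {t : ℝ} (a0 : -(10 / 10000) ≤ t) (b0 : t ≤ 1310 / 10000) :
    5 / 100 < 17 / 10 * t - Real.pi * (3 / 4 * t) - uu (1 / 4) t := by
  have h : NumUs.chkT [(NumUs.E.sub (.sub (.sub (.mul (.q 17 10) (.var 0)) (.mul .pi (.mul (.q 6 8) (.var 0)))) (.uu
      (.q 1 4) (.var 0))) (.q 5 100))] 24 8
      [NumIs.V.of 10000 (-10) 1310, NumIs.V.of 10000 0 0] = true := by
    decide +kernel
  obtain ⟨e, he, hp⟩ := NumUs.chkT2 h (by norm_num) (x := t) (y := 0)
    (le_trans (by norm_num) a0) (le_trans b0 (by norm_num)) (by norm_num) (by norm_num)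
  simp only [List.mem_cons, List.not_mem_nil, or_false] at he
  subst he
  simp only [NumUs.E.val, NumIs.lkR] at hp
  push_cast at hp
  try simp only [zero_div, div_one] at hp
  linarith only [hp]

theorem k2x {x t : ℝ} (a0 : 7000 / 10000 ≤ x) (b0 : x ≤ 9500 / 10000) (a1 : -(10 / 10000) ≤ t) (b1 : t ≤ 660 /
    10000) :
    23 / 100 < 235 / 100 * t - Real.pi * (78 / 100 * t) - uu (28 / 100) t + uu x 0 := by
  have h : NumUs.chkT [(NumUs.E.sub (.add (.sub (.sub (.mul (.q 235 100) (.var 1)) (.mul .pi (.mul (.q 156 200)
      (.var 1)))) (.uu (.q 28 100) (.var 1))) (.uu (.var 0) (.q 0 1))) (.q 23 100))] 24 557184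
      [NumIs.V.of 10000 7000 9500, NumIs.V.of 10000 (-10) 660] = true := by
    decide +kernel
  obtain ⟨e, he, hp⟩ := NumUs.chkT2 h (by norm_num) (x := x) (y := t)
    (le_trans (by norm_num) a0) (le_trans b0 (by norm_num))
    (le_trans (by norm_num) a1) (le_trans b1 (by norm_num))
  simp only [List.mem_cons, List.not_mem_nil, or_false] at he
  subst he
  simp only [NumUs.E.val, NumIs.lkR] at hp
  push_cast at hp
  try simp only [zero_div, div_one] at hp
  linarith only [hp]

theorem k2y {t : ℝ} (a0 : -(10 / 10000) ≤ t) (b0 : t ≤ 660 / 10000) :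
    12 / 100 < 235 / 100 * t - Real.pi * (78 / 100 * t) - uu (28 / 100) t := by
  have h : NumUs.chkT [(NumUs.E.sub (.sub (.sub (.mul (.q 235 100) (.var 0)) (.mul .pi (.mul (.q 156 200) (.var
      0)))) (.uu (.q 28 100) (.var 0))) (.q 12 100))] 24 8
      [NumIs.V.of 10000 (-10) 660, NumIs.V.of 10000 0 0] = true := by
    decide +kernel
  obtain ⟨e, he, hp⟩ := NumUs.chkT2 h (by norm_num) (x := t) (y := 0)
    (le_trans (by norm_num) a0) (le_trans b0 (by norm_num)) (by norm_num) (by norm_num)
  simp only [List.mem_cons, List.not_mem_nil, or_false] at he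
  subst he
  simp only [NumUs.E.val, NumIs.lkR] at hp
  push_cast at hp
  try simp only [zero_div, div_one] at hp
  linarith only [hp]

theorem k3a {t m : ℝ} (a0 : -(780 / 10000) ≤ t) (b0 : t ≤ -(100 / 10000)) (a1 : -(450 / 10000) ≤ m) (b1 : m ≤ 590 /
    10000) :
    2515 / 10000 < 205 / 100 * t - Real.pi * (68 / 300 * m + 268 / 600 * t) - uu (1 / 6) (m - t) -
    uu (28 / 100) t := by
  have h : NumUs.chkT [(NumUs.E.sub (.sub (.sub (.sub (.mul (.q 205 100) (.var 0)) (.mul .pi (.add (.mul (.q 68 300)
      (.var 1)) (.mul (.q 268 600) (.var 0))))) (.uu (.q 1 6) (.sub (.var 1) (.var 0)))) (.uu (.q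
      28 100) (.var 0))) (.q 2515 10000))] 24 2393093635606529
      [NumIs.V.of 10000 (-780) (-100), NumIs.V.of 10000 (-450) 590] = true := by
    decide +kernel
  obtain ⟨e, he, hp⟩ := NumUs.chkT2 h (by norm_num) (x := t) (y := m)
    (le_trans (by norm_num) a0) (le_trans b0 (by norm_num))
    (le_trans (by norm_num) a1) (le_trans b1 (by norm_num))
  simp only [List.mem_cons, List.not_mem_nil, or_false] at he
  subst he
  simp only [NumUs.E.val, NumIs.lkR] at hp
  push_cast at hp
  try simp only [zero_div, div_one] at hp
  linarith only [hp]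

theorem k3b {t m : ℝ} (a0 : -(690 / 10000) ≤ t) (b0 : t ≤ 580 / 10000) (a1 : -(450 / 10000) ≤ m) (b1 : m ≤ 590 /
    10000) :
    264 / 1000 < 17 / 10 * t - Real.pi * (2 / 12 * m + 10 / 24 * t) - uu (1 / 6) (m - t) - uu (1 /
    4) t := by
  have h : NumUs.chkT [(NumUs.E.sub (.sub (.sub (.sub (.mul (.q 17 10) (.var 0)) (.mul .pi (.add (.mul (.q 2 12)
      (.var 1)) (.mul (.q 10 24) (.var 0))))) (.uu (.q 1 6) (.sub (.var 1) (.var 0)))) (.uu (.q 1
      4) (.var 0))) (.q 264 1000))] 24 36515710992
      [NumIs.V.of 10000 (-690) 580, NumIs.V.of 10000 (-450) 590] = true := by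
    decide +kernel
  obtain ⟨e, he, hp⟩ := NumUs.chkT2 h (by norm_num) (x := t) (y := m)
    (le_trans (by norm_num) a0) (le_trans b0 (by norm_num))
    (le_trans (by norm_num) a1) (le_trans b1 (by norm_num))
  simp only [List.mem_cons, List.not_mem_nil, or_false] at he
  subst he
  simp only [NumUs.E.val, NumIs.lkR] at hp
  push_cast at hp
  try simp only [zero_div, div_one] at hp
  linarith only [hp]

theorem k3y {x d : ℝ} (a0 : 6000 / 10000 ≤ x) (b0 : x ≤ 8400 / 10000) (a1 : 200 / 10000 ≤ d) (b1 : d ≤ 4000 / 10000) :
    -(965 / 10000) < uu x 0 + uu d 0 := by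
  have h : NumUs.chkT [(NumUs.E.add (.add (.uu (.var 0) (.q 0 1)) (.uu (.var 1) (.q 0 1))) (.q 965 10000))] 24 676071290956502566153220522257
      [NumIs.V.of 10000 6000 8400, NumIs.V.of 10000 200 4000] = true := by
    decide +kernel
  obtain ⟨e, he, hp⟩ := NumUs.chkT2 h (by norm_num) (x := x) (y := d)
    (le_trans (by norm_num) a0) (le_trans b0 (by norm_num))
    (le_trans (by norm_num) a1) (le_trans b1 (by norm_num))
  simp only [List.mem_cons, List.not_mem_nil, or_false] at he
  subst he
  simp only [NumUs.E.val, NumIs.lkR] at hp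
  push_cast at hp
  try simp only [zero_div, div_one] at hp
  linarith only [hp]

theorem k3z {x : ℝ} (a0 : 6000 / 10000 ≤ x) (b0 : x ≤ 8400 / 10000) :
    -(80 / 1000) < uu x 0 + uu (2 / 100) 0 := by
  have h : NumUs.chkT [(NumUs.E.add (.add (.uu (.var 0) (.q 0 1)) (.uu (.q 2 100) (.q 0 1))) (.q 80 1000))] 24 8
      [NumIs.V.of 10000 6000 8400, NumIs.V.of 10000 0 0] = true := by
    decide +kernel
  obtain ⟨e, he, hp⟩ := NumUs.chkT2 h (by norm_num) (x := x) (y := 0)
    (le_trans (by norm_num) a0) (le_trans b0 (by norm_num)) (by norm_num) (by norm_num)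
  simp only [List.mem_cons, List.not_mem_nil, or_false] at he
  subst he
  simp only [NumUs.E.val, NumIs.lkR] at hp
  push_cast at hp
  try simp only [zero_div, div_one] at hp
  linarith only [hp]

theorem ng {x : ℝ} (a0 : 1600 / 10000 ≤ x) (b0 : x ≤ 4000 / 10000) :
    uu x 0 < 0 := by
  have h : NumUs.chkT [(NumUs.E.neg (.uu (.var 0) (.q 0 1)))] 24 8
      [NumIs.V.of 10000 1600 4000, NumIs.V.of 10000 0 0] = true := by
    decide +kernel
  obtain ⟨e, he, hp⟩ := NumUs.chkT2 h (by norm_num) (x := x) (y := 0)
    (le_trans (by norm_num) a0) (le_trans b0 (by norm_num)) (by norm_num) (by norm_num)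
  simp only [List.mem_cons, List.not_mem_nil, or_false] at he
  subst he
  simp only [NumUs.E.val, NumIs.lkR] at hp
  push_cast at hp
  try simp only [zero_div, div_one] at hp
  linarith only [hp]

/-- `uu x 0 ≥ 0` right of `6/10` -/
theorem uu_nn {x : ℝ} (h0 : 60 / 100 ≤ x) (h1 : x ≤ 1) : 0 ≤ uu x 0 := by
  have e := uu_one_sub (1 - x) 0
  rw [sub_sub_cancel] at e
  rw [e]
  rcases le_total (1 - x) (16 / 100) with h | h
  · have := E1.W_lo (w := 0) (s := 1 - x) (Y := 0) le_rfl (by linarith only [h1]) h
    have e0 : uu 0 0 = 0 := by
      have h2 := uu_one_sub (1 / 2) 0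
      have h3 := UU_uu (0 : ℂ)
      rw [UU_zero] at h3
      simpa using h3.symm
    linarith only [this, e0]
  · have := ng (x := 1 - x) (by linarith only [h]) (by linarith only [h0])
    linarith only [this]

/-- the two real values, hinge and inner variable -/
theorem uu_two {x l : ℝ} (hx : 60 / 100 ≤ x) (hxl : x ≤ l) (hl : l ≤ 1) :
    -(965 / 10000) ≤ uu x 0 + uu (l - x) 0 := by
  rcases le_total (84 / 100) x with h | h
  · have h1 := E1.W_lo (w := l - x) (s := 1 - x) (Y := 0) (by linarith only [hxl]) (by linarith only [hl]) (by linarith only [h])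
    have h2 := uu_one_sub x 0
    linarith only [h1, h2]
  rcases le_total (l - x) (2 / 100) with h2 | h2
  · have h3 := E1.W_v (w := l - x) (by linarith only [hxl]) h2
    have h4 := k3z (x := x) (by linarith only [hx]) (by linarith only [h])
    linarith only [h3, h4]
  · have := k3y (x := x) (d := l - x) (by linarith only [hx]) (by linarith only [h]) (by linarith only [h2]) (by linarith only [hx, hl])
    linarith only [this]

theorem V2_val (c t x : ℝ) : V2 ⟨c, t⟩ 0 - V2 ⟨x, 0⟩ 0 =
    -(Real.pi * ((c + 1 / 2) * t)) - uu c t + uu x 0 := by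
  unfold V2
  rw [sub_zero, sub_zero, add_zero, add_zero, add_zero, add_zero, UU_zero, UU_uu, UU_uu]
  simp only [Complex.add_im, pow_two, Complex.mul_im]
  ring

theorem V3_val (c v t m x l : ℝ) : V3 ⟨c, t⟩ ⟨v, m⟩ 0 - V3 ⟨x, 0⟩ ⟨l, 0⟩ 0 =
    -(Real.pi * ((c + v - 1 / 2) * m + v * t)) - uu (v - c) (m - t) - uu c t +
      uu (l - x) 0 + uu x 0 := by
  unfold V3
  simp only [sub_zero, add_zero]
  rw [UU_zero, UU_uu, UU_uu, UU_uu, UU_uu, UU_uu, UU_uu]
  simp only [Complex.add_im, Complex.sub_im, Complex.sub_re, pow_two, Complex.mul_im, Complex.mul_re,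
    Complex.re_ofNat, Complex.im_ofNat]
  ring_nf

end K4

open K4

/-- K2e.  margins .010 (B = one), .035 -/
theorem side_twoE {B Cc : Cl} {x t : ℝ} (hx : X0 .twoE B ≤ x) (hx1 : x ≤ 1)
    (t0 : (hbox .twoE B false).t0 ≤ t) (t1 : t ≤ (hbox .twoE B false).t1) :
    al .twoE B Cc x ≤ V2 ⟨cT .twoE B, t⟩ 0 - V2 ⟨x, 0⟩ 0 + be .twoE B * t := by
  rw [V2_val]
  have key : B ≠ .one → 60 / 100 ≤ x → -(1 / 1000) ≤ t → t ≤ 131 / 1000 →
      5 / 100 ≤ -(Real.pi * ((1 / 4 + 1 / 2) * t)) - uu (1 / 4) t + uu x 0 + 17 / 10 * t := by
    intro _ h1 h2 h3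
    have a := k2o (t := t) (by linarith only [h2]) (by linarith only [h3])
    have b := uu_nn h1 hx1
    linarith only [a, b]
  cases B
  · simp only [X0, hbox, al, cT, be] at *
    split_ifs with h
    · have a := k2y (t := t) (by linarith only [t0]) (by linarith only [t1])
      have b := uu_nn (x := x) (by linarith only [hx]) hx1
      linarith only [a, b]
    · have a := k2x (x := x) (t := t) (by linarith only [hx]) (by linarith only [h]) (by linarith only [t0]) (by linarith only [t1])
      linarith only [a]
  all_goals
    have := key (by decide)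
    simp only [X0, hbox, al, cT, be] at *
    have := this (by linarith only [hx]) (by linarith only [t0]) (by linarith only [t1])
    linarith only [this]

/-- K3e.  margins .006 (B = one), .018 -/
theorem side_threeE {B Cc : Cl} {x l t m : ℝ} (hx : X0 .threeE B ≤ x) (hxl : x ≤ l) (hl1 : l ≤ 1)
    (t0 : (hbox .threeE B false).t0 ≤ t) (t1 : t ≤ (hbox .threeE B false).t1)
    (m0 : -(45 / 1000) ≤ m) (m1 : m ≤ 59 / 1000) :
    al .threeE B Cc x ≤ V3 ⟨cT .threeE B, t⟩ ⟨cT .threeE B + 1 / 6, m⟩ 0 -
      V3 ⟨x, 0⟩ ⟨l, 0⟩ 0 + be .threeE B * t := by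
  rw [V3_val]
  have key : B ≠ .one → 60 / 100 ≤ x → -(69 / 1000) ≤ t → t ≤ 58 / 1000 →
      15 / 100 ≤ -(Real.pi * ((1 / 4 + (1 / 4 + 1 / 6) - 1 / 2) * m + (1 / 4 + 1 / 6) * t)) -
        uu (1 / 4 + 1 / 6 - 1 / 4) (m - t) - uu (1 / 4) t + uu (l - x) 0 + uu x 0 + 17 / 10 * t := by
    intro _ h1 h2 h3
    have a := k3b (t := t) (m := m) (by linarith only [h2]) (by linarith only [h3]) (by linarith only [m0]) (by linarith only [m1])
    have b := uu_two h1 hxl hl1
    rw [show (1 : ℝ) / 4 + 1 / 6 - 1 / 4 = 1 / 6 by norm_num]
    linarith only [a, b]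
  cases B
  · simp only [X0, hbox, al, cT, be] at *
    have a := k3a (t := t) (m := m) (by linarith only [t0]) (by linarith only [t1]) (by linarith only [m0]) (by linarith only [m1])
    have b := uu_two hx hxl hl1
    rw [show (28 : ℝ) / 100 + 1 / 6 - 28 / 100 = 1 / 6 by norm_num]
    linarith only [a, b]
  all_goals
    have := key (by decide)
    simp only [X0, hbox, al, cT, be] at *
    have := this (by linarith only [hx]) (by linarith only [t0]) (by linarith only [t1])
    linarith only [this]

/-- the two sides of a hinge in the tail -/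
theorem al_pos {K B C D : Cl} {x : ℝ} (hx : K = .one → B = .one → C ≠ .one → D ≠ .one →
    86 / 100 ≤ x) : 0 < al K B C x + al B K D x := by
  by_cases h11 : K = .one ∧ B = .one
  · obtain ⟨rfl, rfl⟩ := h11
    have hx' := hx rfl rfl
    simp only [al]
    by_cases hC : C = .one
    · by_cases hD : D = .one <;> by_cases h : 86 / 100 ≤ x <;>
        simp only [hC, hD, h, if_true, if_false] <;> norm_num
    · by_cases hD : D = .one
      · by_cases h : 86 / 100 ≤ x <;> simp only [hC, hD, h, if_true, if_false] <;> norm_num
      · have h := hx' hC hD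
        simp only [hC, hD, h, if_true, if_false]
        norm_num
  · clear hx
    by_cases h : 95 / 100 ≤ x <;> cases K <;> cases B <;>
      first
        | exact absurd ⟨rfl, rfl⟩ h11
        | (simp only [al, h, if_true, if_false]; norm_num)

end TL

end Pool.Agent.Work.MP_b30479_gtS.G2

end

section

/-!
# Tails, sides of an interior digit `3`: tools
-/

set_option deprecated.oldSectionVars true

namespace Pool.Agent.Work.MP_b30479_gtS.G2

open VOL NumUs

namespace TL

namespace K3

/-! ### values -/

theorem V3_uu (u t v m w k : ℝ) : V3 ⟨u, t⟩ ⟨v, m⟩ ⟨w, k⟩ =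
    uu (v + w) (m + k) - Real.pi * (u * m + v * t + (v - w - 1 / 2) * (m - k)) -
      uu (v - u) (m - t) - uu v m - uu u t - 2 * uu w k := by
  unfold V3
  rw [UU_uu, UU_uu, UU_uu, UU_uu, UU_uu]
  simp only [Complex.add_re, Complex.add_im, Complex.sub_re, Complex.sub_im, pow_two,
    Complex.mul_im, Complex.mul_re, Complex.re_ofNat, Complex.im_ofNat]
  ring

theorem V3_real (u v w : ℝ) : V3 ⟨u, 0⟩ ⟨v, 0⟩ ⟨w, 0⟩ =
    uu (v + w) 0 - uu (v - u) 0 - uu v 0 - uu u 0 - 2 * uu w 0 := by
  rw [V3_uu, show (0 : ℝ) + 0 = 0 by ring, show (0 : ℝ) - 0 = 0 by ring]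
  ring

/-! ### constants -/

section
open NumIs (V)

theorem c_max : uu (5 / 6) 0 < 1616 / 10000 := by
  have h : chk [.sub (.q 1616 10000) (.uu (.q 5 6) (.q 0 1))] 2 [V.of 1 0 0 0] = true := by
    decide +kernel
  have hp := pos_of_chk (chk1 h (by norm_num) (x := 0) (by norm_num) (by norm_num))
  simp only [E.val] at hp
  push_cast at hp
  norm_num at hp
  linarith only [hp]

theorem c_X : 675 / 10000 < uu (6 / 10) 0 := by
  have h : chk [.sub (.uu (.q 6 10) (.q 0 1)) (.q 675 10000)] 2 [V.of 1 0 0 0] = true := by
    decide +kernel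
  have hp := pos_of_chk (chk1 h (by norm_num) (x := 0) (by norm_num) (by norm_num))
  simp only [E.val] at hp
  push_cast at hp
  norm_num at hp
  linarith only [hp]

theorem c_A1 {p : ℝ} (h0 : 200 / 10000 ≤ p) (h1 : p ≤ 3300 / 10000) :
    -uu p 0 - uu (6 / 10 + p) 0 < 238 / 10000 := by
  have h : chk [.add (.q 238 10000) (.add (.uu (.var 0) (.q 0 1))
      (.uu (.add (.q 6 10) (.var 0)) (.q 0 1)))] 30 [V.of 10000 200 3300 0] = true := by
    decide +kernel
  have hp := pos_of_chk (chk1 h (by norm_num) (x := p) (by push_cast; linarith only [h0])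
    (by push_cast; linarith only [h1]))
  simp only [E.val, NumIs.lkR] at hp
  push_cast at hp
  norm_num at hp
  linarith only [hp]

theorem c_A0 {p : ℝ} (h0 : 0 ≤ p) (h1 : p ≤ 200 / 10000) :
    -uu (2 / 100) 0 - uu (6 / 10 + p) 0 < 238 / 10000 := by
  have h : chk [.add (.q 238 10000) (.add (.uu (.q 2 100) (.q 0 1))
      (.uu (.add (.q 6 10) (.var 0)) (.q 0 1)))] 30 [V.of 10000 0 200 0] = true := by
    decide +kernel
  have hp := pos_of_chk (chk1 h (by norm_num) (x := p) (by push_cast; linarith only [h0])
    (by push_cast; linarith only [h1]))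
  simp only [E.val, NumIs.lkR] at hp
  push_cast at hp
  norm_num at hp
  linarith only [hp]

theorem c_A2 {p : ℝ} (h0 : 3300 / 10000 ≤ p) (h1 : p ≤ 3800 / 10000) :
    -uu p 0 - uu (6 / 10 + p) 0 < 850 / 10000 := by
  have h : chk [.add (.q 850 10000) (.add (.uu (.var 0) (.q 0 1))
      (.uu (.add (.q 6 10) (.var 0)) (.q 0 1)))] 30 [V.of 10000 3300 3800 0] = true := by
    decide +kernel
  have hp := pos_of_chk (chk1 h (by norm_num) (x := p) (by push_cast; linarith only [h0])
    (by push_cast; linarith only [h1]))
  simp only [E.val, NumIs.lkR] at hp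
  push_cast at hp
  norm_num at hp
  linarith only [hp]

theorem c_A3 : -uu (38 / 100) 0 < 850 / 10000 := by
  have h : chk [.add (.uu (.q 38 100) (.q 0 1)) (.q 850 10000)] 2 [V.of 1 0 0 0] = true := by
    decide +kernel
  have hp := pos_of_chk (chk1 h (by norm_num) (x := 0) (by norm_num) (by norm_num))
  simp only [E.val] at hp
  push_cast at hp
  norm_num at hp
  linarith only [hp]

theorem c_B1 {p : ℝ} (h0 : 200 / 10000 ≤ p) (h1 : p ≤ 2400 / 10000) :
    -uu p 0 - uu (16 / 100 + p) 0 < 2945 / 10000 := by
  have h : chk [.add (.q 2945 10000) (.add (.uu (.var 0) (.q 0 1))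
      (.uu (.add (.q 16 100) (.var 0)) (.q 0 1)))] 30 [V.of 10000 200 2400 0] = true := by
    decide +kernel
  have hp := pos_of_chk (chk1 h (by norm_num) (x := p) (by push_cast; linarith only [h0])
    (by push_cast; linarith only [h1]))
  simp only [E.val, NumIs.lkR] at hp
  push_cast at hp
  norm_num at hp
  linarith only [hp]

theorem c_B0 : -uu (2 / 100) 0 < 1300 / 10000 := by
  have h : chk [.add (.uu (.q 2 100) (.q 0 1)) (.q 1300 10000)] 2 [V.of 1 0 0 0] = true := by
    decide +kernel
  have hp := pos_of_chk (chk1 h (by norm_num) (x := 0) (by norm_num) (by norm_num))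
  simp only [E.val] at hp
  push_cast at hp
  norm_num at hp
  linarith only [hp]

end

/-! ### real values -/

theorem uu_max {x : ℝ} (h0 : 1 / 2 ≤ x) (h1 : x ≤ 1) : uu x 0 ≤ 1616 / 10000 := by
  have := c_max
  rcases le_total x (5 / 6) with h | h
  · have := uu_real_mono (a := x) (b := 5 / 6) (by linarith only [h0]) h le_rfl
    linarith
  · have := uu_real_anti1 (a := 5 / 6) (b := x) le_rfl h h1
    linarith

theorem uu_min {x : ℝ} (h0 : 0 ≤ x) (h1 : x ≤ 1 / 2) : -uu x 0 ≤ 1616 / 10000 := by
  have h := uu_one_sub x 0
  have := uu_max (x := 1 - x) (by linarith only [h1]) (by linarith only [h0])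
  linarith only [h, this]

/-- slot `0` in the tail: the real value decreases in the hinge of the slot `0` -/
theorem mono0 {X x l : ℝ} (hX : 1 / 2 ≤ X) (hx : X ≤ x) (hxl : x ≤ l) (hl : l ≤ 1) :
    -uu (l - x) 0 - uu x 0 ≤ -uu (l - X) 0 - uu X 0 := by
  have h := uu_incr_real (w := l - x) (w0 := l - X) (X := 1 - l) (by linarith only [hxl]) (by linarith only [hx])
    (by linarith only [hl]) (by linarith only [hX, hl])
  rw [show l - X + (1 - l) = 1 - X by ring, show l - x + (1 - l) = 1 - x by ring, uu_one_sub,
    uu_one_sub] at h
  linarith only [h]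

/-- old value, slot `0` in the tail -/
theorem old0 {x l w : ℝ} (hx : 60 / 100 ≤ x) (hxl : x ≤ l) (hw : 0 ≤ w) (hlw : l + w ≤ 1) :
    V3 ⟨x, 0⟩ ⟨l, 0⟩ ⟨w, 0⟩ ≤ 1179 / 10000 - 2 * uu w 0 ∨
    (w ≤ 700 / 10000 ∧ V3 ⟨x, 0⟩ ⟨l, 0⟩ ⟨w, 0⟩ ≤ 1791 / 10000 - 2 * uu w 0) := by
  have h1 := mono0 (X := 6 / 10) (x := x) (l := l) (by norm_num) (by linarith only [hx]) hxl (by linarith only [hw, hlw])
  have h2 := uu_max (x := l + w) (by linarith only [hx, hxl, hw]) hlw
  have h3 := c_X
  rw [V3_real]
  rcases le_total (l - 6 / 10) (3300 / 10000) with h4 | h4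
  · left
    rcases le_total (l - 6 / 10) (200 / 10000) with h5 | h5
    · have a := c_A0 (p := l - 6 / 10) (by linarith only [hx, hxl]) h5
      have b := uu_real_anti (a := l - 6 / 10) (b := 2 / 100) (by linarith only [hx, hxl]) (by linarith only [h5])
        (by norm_num)
      rw [show (6 : ℝ) / 10 + (l - 6 / 10) = l by ring] at a
      linarith only [h1, h2, h3, a, b]
    · have a := c_A1 (p := l - 6 / 10) h5 h4
      rw [show (6 : ℝ) / 10 + (l - 6 / 10) = l by ring] at a
      linarith only [h1, h2, h3, a]
  · right
    refine ⟨by linarith only [hlw, h4], ?_⟩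
    rcases le_total (l - 6 / 10) (3800 / 10000) with h5 | h5
    · have a := c_A2 (p := l - 6 / 10) h4 h5
      rw [show (6 : ℝ) / 10 + (l - 6 / 10) = l by ring] at a
      linarith only [h1, h2, h3, a]
    · have a := c_A3
      have b := uu_real_mono (a := 38 / 100) (b := l - 6 / 10) (by norm_num) (by linarith only [h5])
        (by linarith only [hw, hlw])
      have c := K4.uu_nn (x := l) (by linarith only [h5]) (by linarith only [hw, hlw])
      linarith only [h1, h2, h3, a, b, c]

/-- old value, slot `2` in the tail -/
theorem old2 {x l u : ℝ} (hx : 60 / 100 ≤ x) (hu : 0 ≤ u) (hul : u ≤ l) (hlx : l + x ≤ 1) :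
    V3 ⟨u, 0⟩ ⟨l, 0⟩ ⟨x, 0⟩ ≤ 3498 / 10000 - uu u 0 ∧
    (16 / 100 ≤ u → V3 ⟨u, 0⟩ ⟨l, 0⟩ ⟨x, 0⟩ ≤ 3211 / 10000 - uu u 0) := by
  rw [V3_real]
  have h3 := c_X
  have h4 := uu_min (x := l - u) (by linarith only [hul]) (by linarith only [hx, hu, hlx])
  have h5 := uu_min (x := l) (by linarith only [hu, hul]) (by linarith only [hx, hlx])
  rcases le_total x (5 / 6) with h | h
  · have h1 := V2_old_left (X := 6 / 10) (x := x) (w := l) (by norm_num) (by linarith only [hx]) h
      (by linarith only [hu, hul]) (by linarith only [hlx])
    rw [add_comm x l, add_comm (6 / 10) l] at h1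
    have h2 := uu_max (x := l + 6 / 10) (by linarith only [hu, hul]) (by linarith only [hx, hlx])
    constructor
    · linarith only [h3, h4, h5, h1, h2]
    · intro h6
      rcases le_total (l - u) (200 / 10000) with h7 | h7
      · have a := c_B0
        have b := uu_real_anti (a := l - u) (b := 2 / 100) (by linarith only [hul]) (by linarith only [h7])
          (by norm_num)
        linarith only [h3, h5, h1, h2, a, b]
      · have a := c_B1 (p := l - u) h7 (by linarith only [hx, hlx, h6])
        have b := uu_real_mono (a := 16 / 100 + (l - u)) (b := l) (by linarith only [h7]) (by linarith only [h6])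
          (by linarith only [hx, hlx])
        linarith only [h3, h1, h2, a, b]
  · have h1 := V2_old_right (x := x) (w := l) h (by linarith only [hu, hul]) (by linarith only [hlx])
    rw [add_comm x l] at h1
    constructor
    · linarith only [h4, h1]
    · intro _
      linarith only [h4, h1]

/-! ### rows -/

/-- new position: hinge `cu` in slot `0`, inner variable `cv`, hinge `cw` in slot `2`; the variables
are the three heights -/
def nE3 (cu cv cw bu bw n0 : ℤ) : E :=
  .sub (.add (.sub (.sub (.sub (.sub (.sub (.uu (.q (cv + cw) 100) (.add (.var 1) (.var 2)))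
    (.mul .pi (.add (.add (.mul (.q cu 100) (.var 1)) (.mul (.q cv 100) (.var 0)))
      (.mul (.q (2 * (cv - cw) - 100) 200) (.sub (.var 1) (.var 2))))))
    (.uu (.q (cv - cu) 100) (.sub (.var 1) (.var 0)))) (.uu (.q cv 100) (.var 1)))
    (.uu (.q cu 100) (.var 0))) (.mul (.q 2 1) (.uu (.q cw 100) (.var 2))))
    (.add (.mul (.q bu 10000) (.var 0)) (.mul (.q bw 10000) (.var 2)))) (.q n0 10000)

open NumIs (V) in
theorem new3 {cu cv cw bu bw n0 t0 t1 m0 m1 k0 k1 : ℤ} {fuel c : ℕ}
    (h : chkT [nE3 cu cv cw bu bw n0] fuel c
      [V.of 10000 t0 t1, V.of 10000 m0 m1, V.of 10000 k0 k1] = true) {t m k : ℝ}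
    (h0 : (t0 : ℝ) / 10000 ≤ t) (h1 : t ≤ (t1 : ℝ) / 10000) (h2 : (m0 : ℝ) / 10000 ≤ m)
    (h3 : m ≤ (m1 : ℝ) / 10000) (h4 : (k0 : ℝ) / 10000 ≤ k) (h5 : k ≤ (k1 : ℝ) / 10000) :
    (n0 : ℝ) / 10000 < V3 ⟨(cu : ℝ) / 100, t⟩ ⟨(cv : ℝ) / 100, m⟩ ⟨(cw : ℝ) / 100, k⟩ +
      (bu : ℝ) / 10000 * t + (bw : ℝ) / 10000 * k := by
  have hp := pos_of_chk (chkT3 h (by norm_num) (x := t) (y := m) (z := k) (by push_cast; linarith only [h0])
    (by push_cast; linarith only [h1]) (by push_cast; linarith only [h2]) (by push_cast; linarith only [h3])
    (by push_cast; linarith only [h4]) (by push_cast; linarith only [h5]))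
  simp only [nE3, E.val, NumIs.lkR] at hp
  push_cast at hp
  rw [V3_uu]
  rw [show (cv : ℝ) / 100 + (cw : ℝ) / 100 = ((cv : ℝ) + cw) / 100 by ring,
    show (cv : ℝ) / 100 - (cu : ℝ) / 100 = ((cv : ℝ) - cu) / 100 by ring,
    show ((cv : ℝ) / 100 - (cw : ℝ) / 100 - 1 / 2) = (2 * ((cv : ℝ) - cw) - 100) / 200 by ring]
  linarith only [hp]

/-- a real hinge `w` with `e` times `uu` -/
def wE (a0 a1 o e : ℤ) (w : E) : E :=
  .add (.add (.q o 10000) (.add (.q a0 10000) (.mul (.q a1 1000) (.var 0))))
    (.mul (.q e 1) (.uu w (.q 0 1)))

open NumIs (V) in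
def wOK (a0 a1 o e wl wh : ℤ) : Bool :=
  (decide (200 < wl) || chk [wE a0 a1 o e (.q 200 10000)] 30 [V.of 10000 wl (min wh 200) 0]) &&
  (decide (wh < 200) || chk [wE a0 a1 o e (.var 0)] 30 [V.of 10000 (max wl 200) wh 0])

theorem w_sound {a0 a1 o e wl wh : ℤ} (h : wOK a0 a1 o e wl wh = true) (he : 0 ≤ e) {w : ℝ}
    (hw : 0 ≤ w) (hw0 : (wl : ℝ) / 10000 ≤ w) (hw1 : w ≤ (wh : ℝ) / 10000) :
    0 < (o : ℝ) / 10000 + ((a0 : ℝ) / 10000 + (a1 : ℝ) / 1000 * w) + e * uu w 0 := by
  have he' : (0 : ℝ) ≤ e := by exact_mod_cast he
  unfold wOK at h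
  simp only [Bool.and_eq_true, Bool.or_eq_true, decide_eq_true_eq] at h
  obtain ⟨c1, c2⟩ := h
  rcases le_total w (200 / 10000) with hs | hs
  · have c1 : NumUs.chk _ _ _ = true := c1.resolve_left (by
      intro hc
      have : (200 : ℝ) < wl := by exact_mod_cast hc
      linarith only [hw0, hs, this])
    have hp := pos_of_chk (chk1 c1 (by norm_num) (x := w) (by push_cast; linarith only [hw0])
      (by
        push_cast
        rw [le_div_iff₀ (by norm_num)]
        rw [le_div_iff₀ (by norm_num)] at hw1 hs
        exact le_min hw1 hs))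
    have ha := uu_real_anti (a := w) (b := 200 / 10000) hw hs (by norm_num)
    simp only [wE, E.val, NumIs.lkR] at hp
    push_cast at hp
    rw [zero_div] at hp
    have := mul_le_mul_of_nonneg_left ha he'
    linarith only [hp, this]
  · have c2 : NumUs.chk _ _ _ = true := c2.resolve_left (by
      intro hc
      have : (wh : ℝ) < 200 := by exact_mod_cast hc
      linarith only [hw1, hs, this])
    have hp := pos_of_chk (chk1 c2 (by norm_num) (x := w)
      (by
        push_cast
        rw [div_le_iff₀ (by norm_num)]
        rw [div_le_iff₀ (by norm_num)] at hw0 hs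
        exact max_le hw0 hs) (by push_cast; linarith only [hw1]))
    simp only [wE, E.val, NumIs.lkR] at hp
    push_cast at hp
    rw [zero_div] at hp
    linarith only [hp]

end K3

end TL

end Pool.Agent.Work.MP_b30479_gtS.G2

end

section

/-!
# Tails, sides of an interior digit `3`, the hinge in the tail is not next to a digit `1`
-/

set_option deprecated.oldSectionVars true

namespace Pool.Agent.Work.MP_b30479_gtS.G2

open VOL SR NumUs

namespace TL

namespace K3

open NumIs (V) in
/-- slot `0` in the tail -/
theorem gen0 {c' ck a0 a1 e wl wh n0 k0 k1 : ℤ} {c : ℕ}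
    (hn : chkT [nE3 25 42 c' 17000 ck n0] 34 c
      [V.of 10000 (-980) 570, V.of 10000 (-1230) 50, V.of 10000 k0 k1] = true)
    (ho : (wOK a0 a1 (n0 - 200 - 1179) e wl wh &&
      (decide (700 < wl) || wOK a0 a1 (n0 - 200 - 1791) e wl 700)) = true) (he : 2 ≤ e)
    {x l w t m k G C' : ℝ} (hC' : C' = (c' : ℝ) / 100)
    (hx : 60 / 100 ≤ x) (hxl : x ≤ l) (hw : 0 ≤ w) (hlw : l + w ≤ 1)
    (hw0 : (wl : ℝ) / 10000 ≤ w) (hw1 : w ≤ (wh : ℝ) / 10000)
    (ht0 : -(98 / 1000) ≤ t) (ht1 : t ≤ 57 / 1000)
    (hm0 : -(123 / 1000) ≤ m) (hm1 : m ≤ 5 / 1000) (hk0 : (k0 : ℝ) / 10000 ≤ k)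
    (hk1 : k ≤ (k1 : ℝ) / 10000)
    (hG : ((e : ℝ) - 2) * UU ⟨w, 0⟩ + ((a0 : ℝ) / 10000 + (a1 : ℝ) / 1000 * w) +
      (ck : ℝ) / 10000 * k ≤ G) :
    2 / 100 ≤ V3 ⟨1 / 4, t⟩ ⟨42 / 100, m⟩ ⟨C', k⟩ - V3 ⟨x, 0⟩ ⟨l, 0⟩ ⟨w, 0⟩ + G + 17 / 10 * t := by
  have h1 := new3 hn (t := t) (m := m) (k := k) (by push_cast; linarith only [ht0]) (by push_cast; linarith only [ht1])
    (by push_cast; linarith only [hm0]) (by push_cast; linarith only [hm1]) hk0 hk1
  rw [Bool.and_eq_true, Bool.or_eq_true, decide_eq_true_eq] at ho
  obtain ⟨o1, o2⟩ := ho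
  push_cast at h1
  rw [← hC', show (25 : ℝ) / 100 = 1 / 4 by norm_num] at h1
  rw [UU_uu] at hG
  simp only at hG
  rcases old0 hx hxl hw hlw with h2 | ⟨h3, h2⟩
  · have h4 := w_sound o1 (by linarith only [he]) hw hw0 hw1
    push_cast at h4
    linarith only [hG, h1, h2, h4]
  · have o2 : wOK _ _ _ _ _ _ = true := o2.resolve_left (by
      intro hc
      have : (700 : ℝ) < wl := by exact_mod_cast hc
      linarith only [hw0, h3, this])
    have h4 := w_sound o2 (by linarith only [he]) hw hw0 (by push_cast; linarith only [h3])
    push_cast at h4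
    linarith only [hG, h1, h2, h4]

open NumIs (V) in
/-- slot `2` in the tail -/
theorem gen2 {c' ck a0 a1 e wl wh n0 k0 k1 : ℤ} {c : ℕ}
    (hn : chkT [nE3 c' 42 25 ck 17000 n0] 34 c
      [V.of 10000 k0 k1, V.of 10000 (-1230) 50, V.of 10000 (-980) 570] = true)
    (ho : wOK a0 a1 (n0 - 200 - if 1600 ≤ wl then 3211 else 3498) e wl wh = true) (he : 1 ≤ e)
    {x l w t m k G C' : ℝ} (hC' : C' = (c' : ℝ) / 100)
    (hx : 60 / 100 ≤ x) (hw : 0 ≤ w) (hwl : w ≤ l) (hlx : l + x ≤ 1)
    (hw0 : (wl : ℝ) / 10000 ≤ w) (hw1 : w ≤ (wh : ℝ) / 10000)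
    (ht0 : -(98 / 1000) ≤ t) (ht1 : t ≤ 57 / 1000)
    (hm0 : -(123 / 1000) ≤ m) (hm1 : m ≤ 5 / 1000) (hk0 : (k0 : ℝ) / 10000 ≤ k)
    (hk1 : k ≤ (k1 : ℝ) / 10000)
    (hG : ((e : ℝ) - 1) * UU ⟨w, 0⟩ + ((a0 : ℝ) / 10000 + (a1 : ℝ) / 1000 * w) +
      (ck : ℝ) / 10000 * k ≤ G) :
    2 / 100 ≤ V3 ⟨C', k⟩ ⟨42 / 100, m⟩ ⟨1 / 4, t⟩ - V3 ⟨w, 0⟩ ⟨l, 0⟩ ⟨x, 0⟩ + G + 17 / 10 * t := by
  have h1 := new3 hn (t := k) (m := m) (k := t) hk0 hk1 (by push_cast; linarith only [hm0])
    (by push_cast; linarith only [hm1]) (by push_cast; linarith only [ht0]) (by push_cast; linarith only [ht1])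
  push_cast at h1
  rw [← hC', show (25 : ℝ) / 100 = 1 / 4 by norm_num] at h1
  rw [UU_uu] at hG
  simp only at hG
  obtain ⟨h2, h3⟩ := old2 hx hw hwl hlx
  have h4 := w_sound ho (by linarith only [he]) hw hw0 hw1
  split_ifs at h4 with h5
  · have h6 : (1600 : ℝ) ≤ wl := by exact_mod_cast h5
    have h7 := h3 (by linarith only [hw0, h6])
    push_cast at h4
    linarith only [hG, h1, h7, h4]
  · push_cast at h4
    linarith only [hG, h1, h2, h4]

open NumIs (V) in
theorem n_one_a1_0 : chkT [nE3 25 42 18 17000 31416 5081] 34 142706704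
    [V.of 10000 (-980) 570, V.of 10000 (-1230) 50, V.of 10000 (-940) (-210)] = true := by decide +kernel

theorem o_one_a1_0 : (wOK (-90) 0 (5081 - 200 - 1179) 2 0 1600 &&
      (decide (700 < 0) || wOK (-90) 0 (5081 - 200 - 1791) 2 0 700)) = true := by decide +kernel

open NumIs (V) in
theorem n_one_a1_2 : chkT [nE3 18 42 25 31416 17000 5474] 34 614778217815351314
    [V.of 10000 (-940) (-210), V.of 10000 (-1230) 50, V.of 10000 (-980) 570] = true := by decide +kernel

theorem o_one_a1_2 : wOK (-90) 0 (5474 - 200 - if (1600 : ℤ) ≤ 0 then 3211 else 3498) 1 0 1600 = true := by decide +kernel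

open NumIs (V) in
theorem n_one_a2_0 : chkT [nE3 25 42 18 17000 16300 6429] 34 142706704
    [V.of 10000 (-980) 570, V.of 10000 (-1230) 50, V.of 10000 (-1145) (-210)] = true := by decide +kernel

theorem o_one_a2_0 : (wOK (-247) 293 (6429 - 200 - 1179) 3 0 1600 &&
      (decide (700 < 0) || wOK (-247) 293 (6429 - 200 - 1791) 3 0 700)) = true := by decide +kernel

open NumIs (V) in
theorem n_one_a2_2 : chkT [nE3 18 42 25 16300 17000 6861] 34 10278387456729175640514578
    [V.of 10000 (-1145) (-210), V.of 10000 (-1230) 50, V.of 10000 (-980) 570] = true := by decide +kernel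

theorem o_one_a2_2 : wOK (-247) 293 (6861 - 200 - if (1600 : ℤ) ≤ 0 then 3211 else 3498) 2 0 1600 = true := by decide +kernel

open NumIs (V) in
theorem n_one_b_0 : chkT [nE3 25 42 18 17000 17160 6587] 34 2395292660433424
    [V.of 10000 (-980) 570, V.of 10000 (-1230) 50, V.of 10000 (-1145) (-210)] = true := by decide +kernel

theorem o_one_b_0 : (wOK 1283 (-719) (6587 - 200 - 1179) 3 1600 4000 &&
      (decide (700 < 1600) || wOK 1283 (-719) (6587 - 200 - 1791) 3 1600 700)) = true := by decide +kernel

open NumIs (V) in
theorem n_one_b_2 : chkT [nE3 18 42 25 17160 17000 6882] 34 743178727334503208733927022199184547778578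
    [V.of 10000 (-1145) (-210), V.of 10000 (-1230) 50, V.of 10000 (-980) 570] = true := by decide +kernel

theorem o_one_b_2 : wOK 1283 (-719) (6882 - 200 - if (1600 : ℤ) ≤ 1600 then 3211 else 3498) 2 1600 4000 = true := by decide +kernel

open NumIs (V) in
theorem n_two_0 : chkT [nE3 25 42 25 17000 15710 6254] 34 2176
    [V.of 10000 (-980) 570, V.of 10000 (-1230) 50, V.of 10000 (-570) 50] = true := by decide +kernel

theorem o_two_0 : (wOK 848 (-148) (6254 - 200 - 1179) 3 0 4000 &&
      (decide (700 < 0) || wOK 848 (-148) (6254 - 200 - 1791) 3 0 700)) = true := by decide +kernel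

open NumIs (V) in
theorem n_two_2 : chkT [nE3 25 42 25 15710 17000 6695] 34 559122
    [V.of 10000 (-570) 50, V.of 10000 (-1230) 50, V.of 10000 (-980) 570] = true := by decide +kernel

theorem o_two_2 : wOK 848 (-148) (6695 - 200 - if (1600 : ℤ) ≤ 0 then 3211 else 3498) 2 0 4000 = true := by decide +kernel

open NumIs (V) in
theorem n_twoE_0 : chkT [nE3 25 42 22 17000 22620 5444] 34 2176
    [V.of 10000 (-980) 570, V.of 10000 (-1230) 50, V.of 10000 (-980) (-760)] = true := by decide +kernel

theorem o_twoE_0 : (wOK 1545 0 (5444 - 200 - 1179) 3 0 4000 &&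
      (decide (700 < 0) || wOK 1545 0 (5444 - 200 - 1791) 3 0 700)) = true := by decide +kernel

open NumIs (V) in
theorem n_twoE_2 : chkT [nE3 22 42 25 22620 17000 5859] 34 2178
    [V.of 10000 (-980) (-760), V.of 10000 (-1230) 50, V.of 10000 (-980) 570] = true := by decide +kernel

theorem o_twoE_2 : wOK 1545 0 (5859 - 200 - if (1600 : ℤ) ≤ 0 then 3211 else 3498) 2 0 4000 = true := by decide +kernel

open NumIs (V) in
theorem n_threeA_a_0 : chkT [nE3 25 42 15 17000 8510 6224] 34 2176
    [V.of 10000 (-980) 570, V.of 10000 (-1230) 50, V.of 10000 (-220) 220] = true := by decide +kernel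

theorem o_threeA_a_0 : (wOK 992 (-227) (6224 - 200 - 1179) 3 0 1600 &&
      (decide (700 < 0) || wOK 992 (-227) (6224 - 200 - 1791) 3 0 700)) = true := by decide +kernel

open NumIs (V) in
theorem n_threeA_b_0 : chkT [nE3 25 42 15 17000 5650 6429] 34 2176
    [V.of 10000 (-980) 570, V.of 10000 (-1230) 50, V.of 10000 (-220) 220] = true := by decide +kernel

theorem o_threeA_b_0 : (wOK 2578 (-1106) (6429 - 200 - 1179) 3 1600 4000 &&
      (decide (700 < 1600) || wOK 2578 (-1106) (6429 - 200 - 1791) 3 1600 700)) = true := by decide +kernel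

open NumIs (V) in
theorem n_threeK_2 : chkT [nE3 18 42 25 14120 17000 6890] 34 142706706
    [V.of 10000 (-220) 220, V.of 10000 (-1230) 50, V.of 10000 (-980) 570] = true := by decide +kernel

theorem o_threeK_2 : wOK 112 97 (6890 - 200 - if (1600 : ℤ) ≤ 0 then 3211 else 3498) 2 0 4000 = true := by decide +kernel

open NumIs (V) in
theorem n_threeE_0 : chkT [nE3 25 42 22 17000 12150 5866] 34 8
    [V.of 10000 (-980) 570, V.of 10000 (-1230) 50, V.of 10000 (-280) (-50)] = true := by decide +kernel

theorem o_threeE_0 : (wOK 1345 0 (5866 - 200 - 1179) 3 0 4000 &&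
      (decide (700 < 0) || wOK 1345 0 (5866 - 200 - 1791) 3 0 700)) = true := by decide +kernel

open NumIs (V) in
theorem n_threeE_2 : chkT [nE3 22 42 25 12150 17000 6302] 34 8
    [V.of 10000 (-280) (-50), V.of 10000 (-1230) 50, V.of 10000 (-980) 570] = true := by decide +kernel

theorem o_threeE_2 : wOK 1345 0 (6302 - 200 - if (1600 : ℤ) ≤ 0 then 3211 else 3498) 2 0 4000 = true := by decide +kernel

open NumIs (V) in
theorem n_ring_a_0 : chkT [nE3 25 42 18 17000 16780 6481] 34 2176
    [V.of 10000 (-980) 570, V.of 10000 (-1230) 50, V.of 10000 (-40) 570] = true := by decide +kernel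

theorem o_ring_a_0 : (wOK (-536) 543 (6481 - 200 - 1179) 3 0 1400 &&
      (decide (700 < 0) || wOK (-536) 543 (6481 - 200 - 1791) 3 0 700)) = true := by decide +kernel

open NumIs (V) in
theorem n_ring_a_2 : chkT [nE3 18 42 25 16780 17000 6912] 34 142706706
    [V.of 10000 (-40) 570, V.of 10000 (-1230) 50, V.of 10000 (-980) 570] = true := by decide +kernel

theorem o_ring_a_2 : wOK (-536) 543 (6912 - 200 - if (1600 : ℤ) ≤ 0 then 3211 else 3498) 2 0 1400 = true := by decide +kernel

open NumIs (V) in
theorem n_ring_b_0 : chkT [nE3 25 42 18 17000 13970 6710] 34 142706704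
    [V.of 10000 (-980) 570, V.of 10000 (-1230) 50, V.of 10000 (-40) 570] = true := by decide +kernel

theorem o_ring_b_0 : (wOK 1291 (-720) (6710 - 200 - 1179) 3 1400 4000 &&
      (decide (700 < 1400) || wOK 1291 (-720) (6710 - 200 - 1791) 3 1400 700)) = true := by decide +kernel

open NumIs (V) in
theorem n_ring_b_2 : chkT [nE3 18 42 25 13970 17000 7168] 34 2640903517192319662872334354
    [V.of 10000 (-40) 570, V.of 10000 (-1230) 50, V.of 10000 (-980) 570] = true := by decide +kernel

theorem o_ring_b_2 : wOK 1291 (-720) (7168 - 200 - if (1600 : ℤ) ≤ 1400 then 3211 else 3498) 2 1400 4000 = true := by decide +kernel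

open NumIs (V) in
theorem n_touched_0 : chkT [nE3 25 42 20 17000 23600 5314] 34 559106
    [V.of 10000 (-980) 570, V.of 10000 (-1230) 50, V.of 10000 (-1145) 570] = true := by decide +kernel

theorem o_touched_0 : (wOK 0 0 (5314 - 200 - 1179) 2 0 4000 &&
      (decide (700 < 0) || wOK 0 0 (5314 - 200 - 1791) 2 0 700)) = true := by decide +kernel

open NumIs (V) in
theorem n_touched_2 : chkT [nE3 20 42 25 23600 17000 5718] 34 143136800
    [V.of 10000 (-1145) 570, V.of 10000 (-1230) 50, V.of 10000 (-980) 570] = true := by decide +kernel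

theorem o_touched_2 : wOK 0 0 (5718 - 200 - if (1600 : ℤ) ≤ 0 then 3211 else 3498) 1 0 4000 = true := by decide +kernel

theorem lo_al {B : Cl} (hB : B ≠ .one) (Cc : Cl) (x : ℝ) : al .three B Cc x = 2 / 100 := by
  cases B <;> first | exact absurd rfl hB | rfl

theorem lo_cT {B : Cl} (hB : B ≠ .one) : cT .three B = 1 / 4 := by
  cases B <;> first | exact absurd rfl hB | rfl

theorem lo_be {B : Cl} (hB : B ≠ .one) : be .three B = 17 / 10 := by
  cases B <;> first | exact absurd rfl hB | rfl

theorem lo_X0 {B : Cl} (hB : B ≠ .one) : X0 .three B = 60 / 100 := by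
  cases B <;> first | exact absurd rfl hB | rfl

theorem lo_box {B : Cl} (hB : B ≠ .one) : -(98 / 1000) ≤ (hbox .three B false).t0 ∧
    (hbox .three B false).t1 ≤ 57 / 1000 := by
  cases B <;> first | exact absurd rfl hB | (simp only [hbox]; constructor <;> norm_num)

theorem all_box {B : Cl} : -(1145 / 10000) ≤ (hbox .three B false).t0 ∧
    (hbox .three B false).t1 ≤ 57 / 1000 := by
  cases B <;> simp only [hbox] <;> constructor <;> norm_num

theorem lo_mw {A K : Cl} : -(123 / 1000) ≤ (mw A K).t0 ∧ (mw A K).t1 ≤ 5 / 1000 := by
  cases A <;> cases K <;> simp only [mw] <;> constructor <;> norm_num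

end K3

open K3

/-- K3, slot `0` in the tail, not next to a digit `1` -/
theorem side_three0_lo {B Cc : Cl} (hB : B ≠ .one) {C : Ct} (hC : C.ok Cc) (hC2 : C ≠ .threeK)
    {x l w t m k G : ℝ}
    (hx : X0 .three B ≤ x) (hxl : x ≤ l) (hw : 0 ≤ w) (hlw : l + w ≤ 1)
    (t0 : (hbox .three B false).t0 ≤ t) (t1 : t ≤ (hbox .three B false).t1)
    (k0 : (hbox .three Cc false).t0 ≤ k) (k1 : k ≤ (hbox .three Cc false).t1)
    (m0 : (mw B Cc).t0 ≤ m) (m1 : m ≤ (mw B Cc).t1)
    (hE : EB .three C w (-k) G) :
    al .three B Cc x ≤ V3 ⟨cT .three B, t⟩ ⟨42 / 100, m⟩ ⟨cN C, k⟩ -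
      V3 ⟨x, 0⟩ ⟨l, 0⟩ ⟨w, 0⟩ + G + be .three B * t := by
  rw [lo_al hB, lo_cT hB, lo_be hB]
  rw [lo_X0 hB] at hx
  have T0 := (lo_box hB).1.trans t0
  have T1 := t1.trans (lo_box hB).2
  have M0 := lo_mw.1.trans m0
  have M1 := m1.trans lo_mw.2
  clear t0 t1 m0 m1
  cases C with
  | one =>
    have hC : Cc = .one := hC
    subst hC
    simp only [hbox] at k0 k1
    simp only [EB] at hE
    simp only [cN]
    rcases le_total w (4 / 25) with h | h
    · rcases hE.1 h with ⟨hτ, hE⟩ | hE
      · exact gen0 n_one_a1_0 o_one_a1_0 (by norm_num) (by norm_num) hx hxl hw hlw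
          (by norm_num; linarith only [hw]) (by norm_num; linarith only [h]) T0 T1 M0 M1 (by norm_num; linarith only [hτ])
          (by norm_num; linarith only [k1]) (by norm_num; linarith only [hE])
      · exact gen0 n_one_a2_0 o_one_a2_0 (by norm_num) (by norm_num) hx hxl hw hlw
          (by norm_num; linarith only [hw]) (by norm_num; linarith only [h]) T0 T1 M0 M1 (by norm_num; linarith only [k0])
          (by norm_num; linarith only [k1]) (by norm_num; linarith only [hE])
    · have hE := hE.2 h
      exact gen0 n_one_b_0 o_one_b_0 (by norm_num) (by norm_num) hx hxl hw hlw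
        (by norm_num; linarith only [h]) (by norm_num; linarith only [hx, hxl, hlw]) T0 T1 M0 M1 (by norm_num; linarith only [k0])
        (by norm_num; linarith only [k1]) (by norm_num; linarith only [hE])
  | two =>
    have hC : Cc = .two := hC
    subst hC
    simp only [hbox] at k0 k1
    simp only [EB] at hE
    simp only [cN]
    exact gen0 n_two_0 o_two_0 (by norm_num) (by norm_num) hx hxl hw hlw
      (by norm_num; linarith only [hw]) (by norm_num; linarith only [hx, hxl, hlw]) T0 T1 M0 M1 (by norm_num; linarith only [k0])
      (by norm_num; linarith only [k1]) (by norm_num; linarith only [hE])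
  | twoE =>
    have hC : Cc = .twoE := hC
    subst hC
    simp only [hbox] at k0 k1
    simp only [EB] at hE
    simp only [cN]
    exact gen0 n_twoE_0 o_twoE_0 (by norm_num) (by norm_num) hx hxl hw hlw
      (by norm_num; linarith only [hw]) (by norm_num; linarith only [hx, hxl, hlw]) T0 T1 M0 M1 (by norm_num; linarith only [k0])
      (by norm_num; linarith only [k1]) (by norm_num; linarith only [hE])
  | threeA =>
    have hC : Cc = .three := hC
    subst hC
    simp only [hbox] at k0 k1
    simp only [EB] at hE
    simp only [cN]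
    rcases le_total w (4 / 25) with h | h
    · have hE := hE.1 h
      exact gen0 n_threeA_a_0 o_threeA_a_0 (by norm_num) (by norm_num) hx hxl hw hlw
        (by norm_num; linarith only [hw]) (by norm_num; linarith only [h]) T0 T1 M0 M1 (by norm_num; linarith only [k0])
        (by norm_num; linarith only [k1]) (by norm_num; linarith only [hE])
    · have hE := hE.2 h
      exact gen0 n_threeA_b_0 o_threeA_b_0 (by norm_num) (by norm_num) hx hxl hw hlw
        (by norm_num; linarith only [h]) (by norm_num; linarith only [hx, hxl, hlw]) T0 T1 M0 M1 (by norm_num; linarith only [k0])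
        (by norm_num; linarith only [k1]) (by norm_num; linarith only [hE])
  | threeK => exact absurd rfl hC2
  | threeE =>
    have hC : Cc = .threeE := hC
    subst hC
    simp only [hbox] at k0 k1
    simp only [EB] at hE
    simp only [cN]
    exact gen0 n_threeE_0 o_threeE_0 (by norm_num) (by norm_num) hx hxl hw hlw
      (by norm_num; linarith only [hw]) (by norm_num; linarith only [hx, hxl, hlw]) T0 T1 M0 M1 (by norm_num; linarith only [k0])
      (by norm_num; linarith only [k1]) (by norm_num; linarith only [hE])
  | ring =>
    have hC : Cc = .ring := hC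
    subst hC
    simp only [hbox] at k0 k1
    simp only [EB] at hE
    simp only [cN]
    rcases le_total w (7 / 50) with h | h
    · have hE := hE.1 h
      exact gen0 n_ring_a_0 o_ring_a_0 (by norm_num) (by norm_num) hx hxl hw hlw
        (by norm_num; linarith only [hw]) (by norm_num; linarith only [h]) T0 T1 M0 M1 (by norm_num; linarith only [k0])
        (by norm_num; linarith only [k1]) (by norm_num; linarith only [hE])
    · have hE := hE.2 h
      exact gen0 n_ring_b_0 o_ring_b_0 (by norm_num) (by norm_num) hx hxl hw hlw
        (by norm_num; linarith only [h]) (by norm_num; linarith only [hx, hxl, hlw]) T0 T1 M0 M1 (by norm_num; linarith only [k0])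
        (by norm_num; linarith only [k1]) (by norm_num; linarith only [hE])
  | touched =>
    obtain ⟨b0, b1⟩ := all_box (B := Cc)
    simp only [EB] at hE
    simp only [cN]
    exact gen0 n_touched_0 o_touched_0 (by norm_num) (by norm_num) hx hxl hw hlw
      (by norm_num; linarith only [hw]) (by norm_num; linarith only [hx, hxl, hlw]) T0 T1 M0 M1 (by norm_num; linarith only [k0, b0])
      (by norm_num; linarith only [k1, b1]) (by norm_num; linarith only [hE])

/-- K3, slot `2` in the tail, not next to a digit `1` -/
theorem side_three2_lo {B Cc : Cl} (hB : B ≠ .one) {C : Ct} (hC : C.ok Cc) (hC2 : C ≠ .threeA)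
    {x l w t m k G : ℝ}
    (hx : X0 .three B ≤ x) (hw : 0 ≤ w) (hwl : w ≤ l) (hlx : l + x ≤ 1)
    (t0 : (hbox .three B false).t0 ≤ t) (t1 : t ≤ (hbox .three B false).t1)
    (k0 : (hbox .three Cc false).t0 ≤ k) (k1 : k ≤ (hbox .three Cc false).t1)
    (m0 : (mw Cc B).t0 ≤ m) (m1 : m ≤ (mw Cc B).t1)
    (hE : EB .three C w (-k) G) :
    al .three B Cc x ≤ V3 ⟨cN C, k⟩ ⟨42 / 100, m⟩ ⟨cT .three B, t⟩ -
      V3 ⟨w, 0⟩ ⟨l, 0⟩ ⟨x, 0⟩ + G + be .three B * t := by
  rw [lo_al hB, lo_cT hB, lo_be hB]
  rw [lo_X0 hB] at hx
  have T0 := (lo_box hB).1.trans t0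
  have T1 := t1.trans (lo_box hB).2
  have M0 := lo_mw.1.trans m0
  have M1 := m1.trans lo_mw.2
  clear t0 t1 m0 m1
  cases C with
  | one =>
    have hC : Cc = .one := hC
    subst hC
    simp only [hbox] at k0 k1
    simp only [EB] at hE
    simp only [cN]
    rcases le_total w (4 / 25) with h | h
    · rcases hE.1 h with ⟨hτ, hE⟩ | hE
      · exact gen2 n_one_a1_2 o_one_a1_2 (by norm_num) (by norm_num) hx hw hwl hlx
          (by norm_num; linarith only [hw]) (by norm_num; linarith only [h]) T0 T1 M0 M1 (by norm_num; linarith only [hτ])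
          (by norm_num; linarith only [k1]) (by norm_num; linarith only [hE])
      · exact gen2 n_one_a2_2 o_one_a2_2 (by norm_num) (by norm_num) hx hw hwl hlx
          (by norm_num; linarith only [hw]) (by norm_num; linarith only [h]) T0 T1 M0 M1 (by norm_num; linarith only [k0])
          (by norm_num; linarith only [k1]) (by norm_num; linarith only [hE])
    · have hE := hE.2 h
      exact gen2 n_one_b_2 o_one_b_2 (by norm_num) (by norm_num) hx hw hwl hlx
        (by norm_num; linarith only [h]) (by norm_num; linarith only [hx, hwl, hlx]) T0 T1 M0 M1 (by norm_num; linarith only [k0])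
        (by norm_num; linarith only [k1]) (by norm_num; linarith only [hE])
  | two =>
    have hC : Cc = .two := hC
    subst hC
    simp only [hbox] at k0 k1
    simp only [EB] at hE
    simp only [cN]
    exact gen2 n_two_2 o_two_2 (by norm_num) (by norm_num) hx hw hwl hlx
      (by norm_num; linarith only [hw]) (by norm_num; linarith only [hx, hwl, hlx]) T0 T1 M0 M1 (by norm_num; linarith only [k0])
      (by norm_num; linarith only [k1]) (by norm_num; linarith only [hE])
  | twoE =>
    have hC : Cc = .twoE := hC
    subst hC
    simp only [hbox] at k0 k1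
    simp only [EB] at hE
    simp only [cN]
    exact gen2 n_twoE_2 o_twoE_2 (by norm_num) (by norm_num) hx hw hwl hlx
      (by norm_num; linarith only [hw]) (by norm_num; linarith only [hx, hwl, hlx]) T0 T1 M0 M1 (by norm_num; linarith only [k0])
      (by norm_num; linarith only [k1]) (by norm_num; linarith only [hE])
  | threeA => exact absurd rfl hC2
  | threeK =>
    have hC : Cc = .three := hC
    subst hC
    simp only [hbox] at k0 k1
    simp only [EB] at hE
    simp only [cN]
    exact gen2 n_threeK_2 o_threeK_2 (by norm_num) (by norm_num) hx hw hwl hlx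
      (by norm_num; linarith only [hw]) (by norm_num; linarith only [hx, hwl, hlx]) T0 T1 M0 M1 (by norm_num; linarith only [k0])
      (by norm_num; linarith only [k1]) (by norm_num; linarith only [hE])
  | threeE =>
    have hC : Cc = .threeE := hC
    subst hC
    simp only [hbox] at k0 k1
    simp only [EB] at hE
    simp only [cN]
    exact gen2 n_threeE_2 o_threeE_2 (by norm_num) (by norm_num) hx hw hwl hlx
      (by norm_num; linarith only [hw]) (by norm_num; linarith only [hx, hwl, hlx]) T0 T1 M0 M1 (by norm_num; linarith only [k0])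
      (by norm_num; linarith only [k1]) (by norm_num; linarith only [hE])
  | ring =>
    have hC : Cc = .ring := hC
    subst hC
    simp only [hbox] at k0 k1
    simp only [EB] at hE
    simp only [cN]
    rcases le_total w (7 / 50) with h | h
    · have hE := hE.1 h
      exact gen2 n_ring_a_2 o_ring_a_2 (by norm_num) (by norm_num) hx hw hwl hlx
        (by norm_num; linarith only [hw]) (by norm_num; linarith only [h]) T0 T1 M0 M1 (by norm_num; linarith only [k0])
        (by norm_num; linarith only [k1]) (by norm_num; linarith only [hE])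
    · have hE := hE.2 h
      exact gen2 n_ring_b_2 o_ring_b_2 (by norm_num) (by norm_num) hx hw hwl hlx
        (by norm_num; linarith only [h]) (by norm_num; linarith only [hx, hwl, hlx]) T0 T1 M0 M1 (by norm_num; linarith only [k0])
        (by norm_num; linarith only [k1]) (by norm_num; linarith only [hE])
  | touched =>
    obtain ⟨b0, b1⟩ := all_box (B := Cc)
    simp only [EB] at hE
    simp only [cN]
    exact gen2 n_touched_2 o_touched_2 (by norm_num) (by norm_num) hx hw hwl hlx
      (by norm_num; linarith only [hw]) (by norm_num; linarith only [hx, hwl, hlx]) T0 T1 M0 M1 (by norm_num; linarith only [k0, b0])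
      (by norm_num; linarith only [k1, b1]) (by norm_num; linarith only [hE])

end TL

end Pool.Agent.Work.MP_b30479_gtS.G2

end

section

/-!
# Part of `V2BLo`
-/
set_option deprecated.oldSectionVars true

namespace Pool.Agent.Work.MP_b30479_gtS.G2

open VOL NumUs

namespace V2A.B

open NumUs.E

section
open NumIs (V)

theorem loA_1_q8 : Pool.Agent.Work.NumUs.runT (L1 (q 28 100) vT (q 42 100) ex65 (sub (eq (-18085) 150 (-1746) 9884 (-1863) (-6947) 620 60) (mul (q 32 10) (add vt (q 78 1000)))) eV) 51
    992442951490965150579593617894248714873208341859127054053281070451559700655734011403706028965586581615115335332795224576899073703812775163917032456594650812595292542541758186842639756204426001331409866127671327216779407323429366539432622874694108415468039186218571690469320552464994096857509373233776462538194373856944457059923454938365642737564514799935979736269705016389899335171368190136154738535445729376609409559069078988410269283103932553638737677536737934838600739484824276059047193903032558109030603485871639617637866825301205551361411562508465523117023242877606332765562529975182385632623394201989957370216811350745970472831910058983726055422288140031272495432885070890680535360522935569334446941422157256210136028409659103695859486556384116465285776300438291871812831265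
    (Pool.Agent.Work.NumIs.setL 0 (Pool.Agent.Work.NumIs.setL 5 (Pool.Agent.Work.NumIs.setR 4 (Pool.Agent.Work.NumIs.setR 0 (Pool.Agent.Work.NumIs.setR 2 (Pool.Agent.Work.NumIs.setL 5 (Pool.Agent.Work.NumIs.setL 2 (Pool.Agent.Work.NumIs.setR 4 (Pool.Agent.Work.NumIs.setL 2 ([V.of 10000 6000 6500, V.of 10000 (-940) (-210), V.of 10000 500 4600, V.of 10000 (-780) (-510), V.of 10000 1100 3900, V.of 10000 (-1145) 570])))))))))) =
    220366603074443368055400331394333138773246792276678152967157824460366844089461493584038105134756198392213052479958795743386417976553198797321949088744352976431193922866426812410853787450465635384990707141310856624189941604592261401459079655994279448687054131776579633077277742817522220710182295374263464213403368198594835427589145857211337439799273507631478471739884254263475001949538920639460823588483713159427026430996283454446575796460179875433102498213763883425331422279930099441324563325890774769584413369709983058805728278817516308265880634056014369529968464717663308497633274368783770221252503552109560074393892781407171648851297542700261823483362664262424356438981891879320803653402135584412501621325776669781978618003406090441100736788989448481431882309698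 := by
  decide +kernel

theorem loA_1_q9 : Pool.Agent.Work.NumUs.runT (L1 (q 28 100) vT (q 42 100) ex65 (sub (eq (-18085) 150 (-1746) 9884 (-1863) (-6947) 620 60) (mul (q 32 10) (add vt (q 78 1000)))) eV) 49
    860807043259544406466407544509113823332995282330774035027960251798307984724458959312648848182641399969582236249839045872603195220910932802038863627907628814184351261196979735979897607228381388222619949770745533688241959392938521099449529906227654096433805202252264191708116182880946174649149591305716657083606907025761075889020101004731786874215912139185462780233922868216699226365386408747893842142514504529011821996079232243931936704922577638410556633647515169630200868280976950942674075491760838943689114725429621323459876089130923079163596226781306130976439315303372298818879978003061602426767592000427969040601143677371764253325381026172897747981885407275095142339773015153596889271102092126611334458303815116335853976575805040785549753081990033130593290272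
    (Pool.Agent.Work.NumIs.setL 4 (Pool.Agent.Work.NumIs.setL 1 (Pool.Agent.Work.NumIs.setR 0 (Pool.Agent.Work.NumIs.setL 5 (Pool.Agent.Work.NumIs.setR 4 (Pool.Agent.Work.NumIs.setR 0 (Pool.Agent.Work.NumIs.setR 2 (Pool.Agent.Work.NumIs.setL 5 (Pool.Agent.Work.NumIs.setL 2 (Pool.Agent.Work.NumIs.setR 4 (Pool.Agent.Work.NumIs.setL 2 ([V.of 10000 6000 6500, V.of 10000 (-940) (-210), V.of 10000 500 4600, V.of 10000 (-780) (-510), V.of 10000 1100 3900, V.of 10000 (-1145) 570])))))))))))) =
    746631093114257313238947160347330960748937838468061406322455682801817592537644909759250069927958952360742686049851218430507822383753364916084540824695409145885265836739708621132888272827946529229727707653191335561636588797599611410032932878034056270831653539254514795078205588869368013399006176697526735826579864634262407350525585403241089483251859258693009288096744936240929691570975692365466152204777579752026912467895880743475684527511186705526488449665835329975387888828423358282786594350908421696419027124005265049159239193070118529412315169416664478535920163127803226790490923397860397621075480290391669161397962259870343196722035557730352956630035492972727961761223078972213384733090390492543769790978309197223989811753428123124133036321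 := by
  decide +kernel

theorem loA_1_q10 : Pool.Agent.Work.NumUs.runT (L1 (q 28 100) vT (q 42 100) ex65 (sub (eq (-18085) 150 (-1746) 9884 (-1863) (-6947) 620 60) (mul (q 32 10) (add vt (q 78 1000)))) eV) 49
    746631093114257313238947160347330960748937838468061406322455682801817592537644909759250069927958952360742686049851218430507822383753364916084540824695409145885265836739708621132888272827946529229727707653191335561636588797599611410032932878034056270831653539254514795078205588869368013399006176697526735826579864634262407350525585403241089483251859258693009288096744936240929691570975692365466152204777579752026912467895880743475684527511186705526488449665835329975387888828423358282786594350908421696419027124005265049159239193070118529412315169416664478535920163127803226790490923397860397621075480290391669161397962259870343196722035557730352956630035492972727961761223078972213384733090390492543769790978309197223989811753428123124133036320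
    (Pool.Agent.Work.NumIs.setR 4 (Pool.Agent.Work.NumIs.setL 1 (Pool.Agent.Work.NumIs.setR 0 (Pool.Agent.Work.NumIs.setL 5 (Pool.Agent.Work.NumIs.setR 4 (Pool.Agent.Work.NumIs.setR 0 (Pool.Agent.Work.NumIs.setR 2 (Pool.Agent.Work.NumIs.setL 5 (Pool.Agent.Work.NumIs.setL 2 (Pool.Agent.Work.NumIs.setR 4 (Pool.Agent.Work.NumIs.setL 2 ([V.of 10000 6000 6500, V.of 10000 (-940) (-210), V.of 10000 500 4600, V.of 10000 (-780) (-510), V.of 10000 1100 3900, V.of 10000 (-1145) 570])))))))))))) =
    333355439597225902301653120303686135464737849519710201258080637473600199044965963078538973236318885570846238884468209522344366034968581733630873763305355639302246769047671919647959970455091598349377121268557058965861401980739166264885512715246009723877298651776887558810833431997325820220193291511060537322678797420741597578104576681267110243188872818110810393587201253859214592647059290216432062346420081147932769290964942708606944009038576092043966446057324661481282451003018468590849012183345547154133140598441867109455613488301583258040204687326818694036873221502131166038024189395570906374669172176073442192976023414884668877017432199765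 := by
  decide +kernel

theorem loA_1_q11 : Pool.Agent.Work.NumUs.runT (L1 (q 28 100) vT (q 42 100) ex65 (sub (eq (-18085) 150 (-1746) 9884 (-1863) (-6947) 620 60) (mul (q 32 10) (add vt (q 78 1000)))) eV) 50
    333355439597225902301653120303686135464737849519710201258080637473600199044965963078538973236318885570846238884468209522344366034968581733630873763305355639302246769047671919647959970455091598349377121268557058965861401980739166264885512715246009723877298651776887558810833431997325820220193291511060537322678797420741597578104576681267110243188872818110810393587201253859214592647059290216432062346420081147932769290964942708606944009038576092043966446057324661481282451003018468590849012183345547154133140598441867109455613488301583258040204687326818694036873221502131166038024189395570906374669172176073442192976023414884668877017432199764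
    (Pool.Agent.Work.NumIs.setR 1 (Pool.Agent.Work.NumIs.setR 0 (Pool.Agent.Work.NumIs.setL 5 (Pool.Agent.Work.NumIs.setR 4 (Pool.Agent.Work.NumIs.setR 0 (Pool.Agent.Work.NumIs.setR 2 (Pool.Agent.Work.NumIs.setL 5 (Pool.Agent.Work.NumIs.setL 2 (Pool.Agent.Work.NumIs.setR 4 (Pool.Agent.Work.NumIs.setL 2 ([V.of 10000 6000 6500, V.of 10000 (-940) (-210), V.of 10000 500 4600, V.of 10000 (-780) (-510), V.of 10000 1100 3900, V.of 10000 (-1145) 570]))))))))))) =
    2271062518805201206762963792015483395355715679161572672623246542505483664439001966856035940851904435989196083318912472014264338520647707603529175057164794209417908538069664061053334130659308947001977848201965333720554206723068428438881942664771849013103047243723153552577616161185253267164289276312682700168141508294493978581577905191621729010305006248027257981769119709342677548630673351420525636640070591544675924724771421805166828890878174628596155805361287466630734721715282486178052559772294398812306352203729667142170358539503618 := by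
  decide +kernel

theorem loA_1_q12 : Pool.Agent.Work.NumUs.runT (L1 (q 28 100) vT (q 42 100) ex65 (sub (eq (-18085) 150 (-1746) 9884 (-1863) (-6947) 620 60) (mul (q 32 10) (add vt (q 78 1000)))) eV) 52
    2271062518805201206762963792015483395355715679161572672623246542505483664439001966856035940851904435989196083318912472014264338520647707603529175057164794209417908538069664061053334130659308947001977848201965333720554206723068428438881942664771849013103047243723153552577616161185253267164289276312682700168141508294493978581577905191621729010305006248027257981769119709342677548630673351420525636640070591544675924724771421805166828890878174628596155805361287466630734721715282486178052559772294398812306352203729667142170358539503617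
    (Pool.Agent.Work.NumIs.setR 5 (Pool.Agent.Work.NumIs.setR 4 (Pool.Agent.Work.NumIs.setR 0 (Pool.Agent.Work.NumIs.setR 2 (Pool.Agent.Work.NumIs.setL 5 (Pool.Agent.Work.NumIs.setL 2 (Pool.Agent.Work.NumIs.setR 4 (Pool.Agent.Work.NumIs.setL 2 ([V.of 10000 6000 6500, V.of 10000 (-940) (-210), V.of 10000 500 4600, V.of 10000 (-780) (-510), V.of 10000 1100 3900, V.of 10000 (-1145) 570]))))))))) =
    1791552434398182170158169012081603054537610955015992486509772273987139472271912241558310011574050572011216398404057561147552353352218126947136470503669509963500732594180476251888623966369250976800668618862754495171539642446353537815025721380056090745587979149061587701359760579801567333168644381402153578127249472393578140659889305265840889153117413107696196462314409938587559077433000034169800035918242056766446409001349898712817910676921446691336932094927333325193574977220503416050759691465901959840771 := by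
  decide +kernel

end

end V2A.B

end Pool.Agent.Work.MP_b30479_gtS.G2

end

section

/-!
# Part of `V2BLo`
-/
set_option deprecated.oldSectionVars true

namespace Pool.Agent.Work.MP_b30479_gtS.G2

open VOL NumUs

namespace V2A.B

open NumUs.E

section
open NumIs (V)

theorem loA_1_q13 : Pool.Agent.Work.NumUs.runT (L1 (q 28 100) vT (q 42 100) ex65 (sub (eq (-18085) 150 (-1746) 9884 (-1863) (-6947) 620 60) (mul (q 32 10) (add vt (q 78 1000)))) eV) 56
    1791552434398182170158169012081603054537610955015992486509772273987139472271912241558310011574050572011216398404057561147552353352218126947136470503669509963500732594180476251888623966369250976800668618862754495171539642446353537815025721380056090745587979149061587701359760579801567333168644381402153578127249472393578140659889305265840889153117413107696196462314409938587559077433000034169800035918242056766446409001349898712817910676921446691336932094927333325193574977220503416050759691465901959840770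
    (Pool.Agent.Work.NumIs.setR 5 (Pool.Agent.Work.NumIs.setL 2 (Pool.Agent.Work.NumIs.setR 4 (Pool.Agent.Work.NumIs.setL 2 ([V.of 10000 6000 6500, V.of 10000 (-940) (-210), V.of 10000 500 4600, V.of 10000 (-780) (-510), V.of 10000 1100 3900, V.of 10000 (-1145) 570]))))) =
    21565028002170674974395093438762968902918262196146911862290939457604867687061865122197489745190394497481955954454259499865323762813395571427671152028659120119180730987978111129973722744360046556877916180062920878207588366508217543309310646712585643139441250632626821224664436501029253144327014546618835185223479780053424947857909318351452756230402350184379912457399730423928515895906846173959032580438228312071198668375389940577504134498198914854888994548697461287949318 := by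
  decide +kernel

theorem loA_1_q14 : Pool.Agent.Work.NumUs.runT (L1 (q 28 100) vT (q 42 100) ex65 (sub (eq (-18085) 150 (-1746) 9884 (-1863) (-6947) 620 60) (mul (q 32 10) (add vt (q 78 1000)))) eV) 55
    84238390633479199118730833745167847277024461703698874462073982256269014402585410633583944317149978505788890447086951171348920948489826450889340437611949687965549730421789496601459854470156431862804360078370784680498392056672724778551994713721037668513442385283698520408845455082145520095027400572729824942279217890833691202569958274810362329025009180407734033036717696968470765218386117867027471017336829344028119798341366955380875525383589511151910134955849458156052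
    (Pool.Agent.Work.NumIs.setL 0 (Pool.Agent.Work.NumIs.setL 5 (Pool.Agent.Work.NumIs.setR 2 (Pool.Agent.Work.NumIs.setR 4 (Pool.Agent.Work.NumIs.setL 2 ([V.of 10000 6000 6500, V.of 10000 (-940) (-210), V.of 10000 500 4600, V.of 10000 (-780) (-510), V.of 10000 1100 3900, V.of 10000 (-1145) 570])))))) =
    4355022722792659557702755346288217079579567708369101927186542353400661225386600773418287722325022268033306935443506709354600315970904327166209368534037816313512398556797887365541352330660872945869042828841233411566191098074420703622757946190913650601193529721926086857338033611428136151003452949962140751117784528558718383696994475610473624446121415349369539627672306246489836676308858877149509148922806507504955654501600094980300282599133477 := by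
  decide +kernel

theorem loA_1_q15 : Pool.Agent.Work.NumUs.runT (L1 (q 28 100) vT (q 42 100) ex65 (sub (eq (-18085) 150 (-1746) 9884 (-1863) (-6947) 620 60) (mul (q 32 10) (add vt (q 78 1000)))) eV) 54
    272188920174541222356422209143013567473722981773068870449158897087541326586662548338642982645313891752081683465219169334662519748181520447888085533377363519594524909799867960346334520666304559116815176802577088222886943629651293976422371636932103162574595607620380428583627100714258509437715809372633796944861533034919898981062154725654601527882588459335596226729519140405614792269303679821844321807675406719059728406350005936268767662445842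
    (Pool.Agent.Work.NumIs.setL 4 (Pool.Agent.Work.NumIs.setR 0 (Pool.Agent.Work.NumIs.setL 5 (Pool.Agent.Work.NumIs.setR 2 (Pool.Agent.Work.NumIs.setR 4 (Pool.Agent.Work.NumIs.setL 2 ([V.of 10000 6000 6500, V.of 10000 (-940) (-210), V.of 10000 500 4600, V.of 10000 (-780) (-510), V.of 10000 1100 3900, V.of 10000 (-1145) 570]))))))) =
    214719197960018311288737680655890868558520108214341734414103435953010621625334776033222153808079574374633915042042272524919615708932651013669923150606692217098702384040315473404062453169024897880701018163864687551571956162688268747091078233654183467519599832332554409915237017294026891959701630709650336247344646608207563547007334414357567462328594315971839216959694270114373815816429146158402114410624850199827 := by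
  decide +kernel

theorem loA_1_q16 : Pool.Agent.Work.NumUs.runT (L1 (q 28 100) vT (q 42 100) ex65 (sub (eq (-18085) 150 (-1746) 9884 (-1863) (-6947) 620 60) (mul (q 32 10) (add vt (q 78 1000)))) eV) 51
    52421679189457595529476972816379606581669948294517025003443221668215483795247748054985877394550677337557108164561101690654203053938635501384258581691086967065112886728592644874038684855718969209155522012662277234270497110031315612082782771888228385624902302815565041483212162425299534169849030934973226622886876613331924694093587503505265493732566971672812308828050358914642044877057897011328641213531457568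
    (Pool.Agent.Work.NumIs.setL 5 (Pool.Agent.Work.NumIs.setL 1 (Pool.Agent.Work.NumIs.setL 2 (Pool.Agent.Work.NumIs.setR 4 (Pool.Agent.Work.NumIs.setR 0 (Pool.Agent.Work.NumIs.setL 5 (Pool.Agent.Work.NumIs.setR 2 (Pool.Agent.Work.NumIs.setR 4 (Pool.Agent.Work.NumIs.setL 2 ([V.of 10000 6000 6500, V.of 10000 (-940) (-210), V.of 10000 500 4600, V.of 10000 (-780) (-510), V.of 10000 1100 3900, V.of 10000 (-1145) 570])))))))))) =
    5991731834339446038029580206544345154223609083579563018446512953794803255800723747965192272222596396858273675608026134566721030907431801037292606872514768668496780769192197929198009278905289322932187215673312566198221919987485484195758155296436567415487179807134805242615699022125704180253167754429472052609 := by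
  decide +kernel

theorem loA_1_q17 : Pool.Agent.Work.NumUs.runT (L1 (q 28 100) vT (q 42 100) ex65 (sub (eq (-18085) 150 (-1746) 9884 (-1863) (-6947) 620 60) (mul (q 32 10) (add vt (q 78 1000)))) eV) 51
    5991731834339446038029580206544345154223609083579563018446512953794803255800723747965192272222596396858273675608026134566721030907431801037292606872514768668496780769192197929198009278905289322932187215673312566198221919987485484195758155296436567415487179807134805242615699022125704180253167754429472052608
    (Pool.Agent.Work.NumIs.setR 5 (Pool.Agent.Work.NumIs.setL 1 (Pool.Agent.Work.NumIs.setL 2 (Pool.Agent.Work.NumIs.setR 4 (Pool.Agent.Work.NumIs.setR 0 (Pool.Agent.Work.NumIs.setL 5 (Pool.Agent.Work.NumIs.setR 2 (Pool.Agent.Work.NumIs.setR 4 (Pool.Agent.Work.NumIs.setL 2 ([V.of 10000 6000 6500, V.of 10000 (-940) (-210), V.of 10000 500 4600, V.of 10000 (-780) (-510), V.of 10000 1100 3900, V.of 10000 (-1145) 570])))))))))) =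
    1330431727972635433505561632149115681538999807726933570439012511642485504692761943516020000593557436742891669913652327076718735667222715210409901692160065926561603071130379200947670810008036506684667091987187018941756626586033870162264082303335347971071018726071334468711459880136006401819142 := by
  decide +kernel

theorem loA_1_q18 : Pool.Agent.Work.NumUs.runT (L1 (q 28 100) vT (q 42 100) ex65 (sub (eq (-18085) 150 (-1746) 9884 (-1863) (-6947) 620 60) (mul (q 32 10) (add vt (q 78 1000)))) eV) 52
    1330431727972635433505561632149115681538999807726933570439012511642485504692761943516020000593557436742891669913652327076718735667222715210409901692160065926561603071130379200947670810008036506684667091987187018941756626586033870162264082303335347971071018726071334468711459880136006401819141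
    (Pool.Agent.Work.NumIs.setR 1 (Pool.Agent.Work.NumIs.setL 2 (Pool.Agent.Work.NumIs.setR 4 (Pool.Agent.Work.NumIs.setR 0 (Pool.Agent.Work.NumIs.setL 5 (Pool.Agent.Work.NumIs.setR 2 (Pool.Agent.Work.NumIs.setR 4 (Pool.Agent.Work.NumIs.setL 2 ([V.of 10000 6000 6500, V.of 10000 (-940) (-210), V.of 10000 500 4600, V.of 10000 (-780) (-510), V.of 10000 1100 3900, V.of 10000 (-1145) 570]))))))))) =
    2805134925248349647819828399753612620355879616753710385327794620552617173413675334285809481210083465954168170522648850246755484875972613904661389421769595153674863020664474068777893850941085130094987753331785810 := by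
  decide +kernel

theorem loA_1_q19 : Pool.Agent.Work.NumUs.runT (L1 (q 28 100) vT (q 42 100) ex65 (sub (eq (-18085) 150 (-1746) 9884 (-1863) (-6947) 620 60) (mul (q 32 10) (add vt (q 78 1000)))) eV) 53
    2805134925248349647819828399753612620355879616753710385327794620552617173413675334285809481210083465954168170522648850246755484875972613904661389421769595153674863020664474068777893850941085130094987753331785809
    (Pool.Agent.Work.NumIs.setR 2 (Pool.Agent.Work.NumIs.setR 4 (Pool.Agent.Work.NumIs.setR 0 (Pool.Agent.Work.NumIs.setL 5 (Pool.Agent.Work.NumIs.setR 2 (Pool.Agent.Work.NumIs.setR 4 (Pool.Agent.Work.NumIs.setL 2 ([V.of 10000 6000 6500, V.of 10000 (-940) (-210), V.of 10000 500 4600, V.of 10000 (-780) (-510), V.of 10000 1100 3900, V.of 10000 (-1145) 570])))))))) =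
    7150140414477251197222159236535539001001637490531245403261213758018813489512304074373063831085444100995298202366817506332613356388836964613248870774872129 := by
  decide +kernel

theorem loA_1_q20 : Pool.Agent.Work.NumUs.runT (L1 (q 28 100) vT (q 42 100) ex65 (sub (eq (-18085) 150 (-1746) 9884 (-1863) (-6947) 620 60) (mul (q 32 10) (add vt (q 78 1000)))) eV) 56
    7150140414477251197222159236535539001001637490531245403261213758018813489512304074373063831085444100995298202366817506332613356388836964613248870774872128
    (Pool.Agent.Work.NumIs.setR 5 (Pool.Agent.Work.NumIs.setR 2 (Pool.Agent.Work.NumIs.setR 4 (Pool.Agent.Work.NumIs.setL 2 ([V.of 10000 6000 6500, V.of 10000 (-940) (-210), V.of 10000 500 4600, V.of 10000 (-780) (-510), V.of 10000 1100 3900, V.of 10000 (-1145) 570]))))) =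
    336197986592165525156497269531917564265605217128355567398678249573695594034249995947155183856757078796966765189661989 := by
  decide +kernel

theorem loA_1_q21 : Pool.Agent.Work.NumUs.runT (L1 (q 28 100) vT (q 42 100) ex65 (sub (eq (-18085) 150 (-1746) 9884 (-1863) (-6947) 620 60) (mul (q 32 10) (add vt (q 78 1000)))) eV) 58
    21012374162010345322281079345744847766600326070522222962417390598355974627140624746697198991047317424810422824353874
    (Pool.Agent.Work.NumIs.setL 4 (Pool.Agent.Work.NumIs.setR 2 ([V.of 10000 6000 6500, V.of 10000 (-940) (-210), V.of 10000 500 4600, V.of 10000 (-780) (-510), V.of 10000 1100 3900, V.of 10000 (-1145) 570]))) =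
    4243415168585236577236437102674263969856949072068623799431508101882378312852159703614035 := by
  decide +kernel

theorem loA_1_q22 : Pool.Agent.Work.NumUs.runT (L1 (q 28 100) vT (q 42 100) ex65 (sub (eq (-18085) 150 (-1746) 9884 (-1863) (-6947) 620 60) (mul (q 32 10) (add vt (q 78 1000)))) eV) 58
    4243415168585236577236437102674263969856949072068623799431508101882378312852159703614034
    (Pool.Agent.Work.NumIs.setR 4 (Pool.Agent.Work.NumIs.setR 2 ([V.of 10000 6000 6500, V.of 10000 (-940) (-210), V.of 10000 500 4600, V.of 10000 (-780) (-510), V.of 10000 1100 3900, V.of 10000 (-1145) 570]))) =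
    1 := by
  decide +kernel

end

end V2A.B

end Pool.Agent.Work.MP_b30479_gtS.G2

end
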