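import Pool.Agent.Work.MP_b30479_gt.TBS.G2.WVal
import Pool.Agent.Work.MP_b30479_gt.TBS.G2.WMid
import Pool.Agent.Work.MP_b30479_gt.TBS.G2.WMainS
import Pool.Agent.Work.MP_b30479_gt.TBS.G2.TDef3
import Pool.Agent.Work.MP_b30479_gt.TBS.G2.WLocF
import Pool.Agent.Work.MP_b30479_gt.TBS.G2.TL6
import Pool.Agent.Work.MP_b30479_gt.TBS.G2.WLocX
import Pool.Agent.Work.MP_b30479_gt.TBS.G2.TK1c
import Pool.Agent.Work.MP_b30479_gt.TBS.G2.TK4

section

/-!
# The growth rate as the sum of the values of the regions, at arbitrary points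
-/

namespace Pool.Agent.Work.MP_b30479_gtS.G2

open Finset VOL Filter Topology

namespace SR

variable {M : ℕ} {b : Fin (M + 1) → ℤ} {z z' : DD (tyW b) ⊕ ZZ (tyW b) → ℂ}
variable {h h' : Fin M} {i j j' k : Fin (M + 1)} {p : Fin 3}

/-- value of the region `i` at the point `z` -/
noncomputable def Vr (b : Fin (M + 1) → ℤ) (z : DD (tyW b) ⊕ ZZ (tyW b) → ℂ)
    (i : Fin (M + 1)) : ℝ := OV b i (Ow b z i)

/-- the hinge variable `h` in the own frame of the region `i` -/
noncomputable def Oh (b : Fin (M + 1) → ℤ) (z : DD (tyW b) ⊕ ZZ (tyW b) → ℂ)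
    (i : Fin (M + 1)) (h : Fin M) : ℂ := ofr (b i) (z (.inl (.inl h)))

/-- the inner variable in the own frame -/
noncomputable def Om (b : Fin (M + 1) → ℤ) (z : DD (tyW b) ⊕ ZZ (tyW b) → ℂ)
    (m : {i : Fin (M + 1) // (tyW b i).isMid = true}) : ℂ := ofr (b m.1) (z (.inl (.inr m)))

/-- the ring variable in the own frame -/
noncomputable def Oz (b : Fin (M + 1) → ℤ) (z : DD (tyW b) ⊕ ZZ (tyW b) → ℂ)
    (v : ZZ (tyW b)) : ℂ := ofz (b v.1) (z (.inr v))

theorem V_eq_Vr (hb : ClassW b) (z : DD (tyW b) ⊕ ZZ (tyW b) → ℂ) :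
    (wdat (tyW b) b).V z = ∑ i, Vr b z i := V_eq_OV hb z

theorem Adj.Ow_slot (A : Adj h i p j) (z : DD (tyW b) ⊕ ZZ (tyW b) → ℂ) :
    Ow b z i p = Oh b z i h := by
  unfold Ow Oh
  cases A
  · rw [own_two, xx_right]
  · rw [own_zero, xx_left]

theorem Ow_end0 (z : DD (tyW b) ⊕ ZZ (tyW b) → ℂ) : Ow b z 0 0 = 0 := (Ow_endOk z 0).1 rfl

theorem Ow_end2 (z : DD (tyW b) ⊕ ZZ (tyW b) → ℂ) : Ow b z (Fin.last M) 2 = 0 :=
  (Ow_endOk z (Fin.last M)).2 rfl

/-- the missing hinge of an end -/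
theorem Adj.Ow_no (A : Adj h i p j) (he : isEnd i = true) (z : DD (tyW b) ⊕ ZZ (tyW b) → ℂ) :
    Ow b z i p.rev = 0 := by
  cases A
  · have h0 : h.castSucc = 0 := by
      unfold isEnd at he
      rcases of_decide_eq_true he with h1 | h1
      · exact h1
      · exact absurd h1 (Fin.castSucc_lt_last h).ne
    have : Ow b z h.castSucc 0 = 0 := (Ow_endOk z _).1 h0
    exact this
  · have h0 : h.succ = Fin.last M := by
      unfold isEnd at he
      rcases of_decide_eq_true he with h1 | h1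
      · exact absurd h1 (Fin.succ_ne_zero h)
      · exact h1
    have : Ow b z h.succ 2 = 0 := (Ow_endOk z _).2 h0
    exact this

theorem Ow_mid1 (hc : (tyW b i).isMid = true) (z : DD (tyW b) ⊕ ZZ (tyW b) → ℂ) :
    Ow b z i 1 = Om b z ⟨i, hc⟩ := by
  unfold Ow Om
  have hne : tyW b i ≠ .ring := by
    intro h0
    rw [h0] at hc
    exact absurd hc (by decide)
  rw [own_one hne, xx_mid _ hc]

theorem Ow_ring1 (v : ZZ (tyW b)) (z : DD (tyW b) ⊕ ZZ (tyW b) → ℂ) :
    Ow b z v.1 1 = Oz b z v := by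
  unfold Ow Oz
  have h := v.2
  have hr : tyW b v.1 = .ring := by
    cases h1 : tyW b v.1 <;> rw [h1] at h <;> first | rfl | exact absurd h (by decide)
  rw [hr, own_ring, xx_ring _ v.2]

/-! ### the values of the regions -/

theorem Adj.Vr_one (A : Adj h i p j) (A' : Adj h' i p.rev j') (hb : ClassW b)
    (hc : clsW b i = .one) (z : DD (tyW b) ⊕ ZZ (tyW b) → ℂ) :
    Vr b z i = V1 (Oh b z i h) (Oh b z i h') := by
  unfold Vr
  rw [OV_one hb hc, ← A.Ow_slot z, ← A'.Ow_slot z]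
  rcases A.slot with rfl | rfl
  · rfl
  · exact V1_comm _ _

theorem Adj.Vr_two (A : Adj h i p j) (A' : Adj h' i p.rev j') (hb : ClassW b)
    (hc : clsW b i = .two) (z : DD (tyW b) ⊕ ZZ (tyW b) → ℂ) :
    Vr b z i = V2 (Oh b z i h) (Oh b z i h') := by
  unfold Vr
  rw [OV_two hb (Or.inl hc) (Ow_endOk z i), ← A.Ow_slot z, ← A'.Ow_slot z]
  rcases A.slot with rfl | rfl
  · rfl
  · exact V2_comm _ _

theorem Adj.Vr_twoE (A : Adj h i p j) (hb : ClassW b) (hc : clsW b i = .twoE)
    (z : DD (tyW b) ⊕ ZZ (tyW b) → ℂ) : Vr b z i = V2 (Oh b z i h) 0 := by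
  unfold Vr
  rw [OV_two hb (Or.inr hc) (Ow_endOk z i), ← A.Ow_slot z, ← A.Ow_no (clsW_end (Or.inl hc)) z]
  rcases A.slot with rfl | rfl
  · rfl
  · exact V2_comm _ _

theorem Adj.Vr_three (A : Adj h i 0 j) (A' : Adj h' i 2 k) (hb : ClassW b)
    (hc : clsW b i = .three) (z : DD (tyW b) ⊕ ZZ (tyW b) → ℂ) :
    Vr b z i = V3 (Oh b z i h) (Om b z ⟨i, tyW_isMid (Or.inl hc)⟩) (Oh b z i h') := by
  unfold Vr
  rw [OV_three hb hc, A.Ow_slot z, A'.Ow_slot z, Ow_mid1 (tyW_isMid (Or.inl hc)) z]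

theorem Adj.Vr_threeE (A : Adj h i p j) (hc : clsW b i = .threeE)
    (z : DD (tyW b) ⊕ ZZ (tyW b) → ℂ) :
    Vr b z i = V3 (Oh b z i h) (Om b z ⟨i, tyW_isMid (Or.inr hc)⟩) 0 := by
  unfold Vr
  rw [A.OV_threeE hc (Ow_endOk z i), A.Ow_slot z, Ow_mid1 (tyW_isMid (Or.inr hc)) z]

theorem Adj.Vr_ring (v : ZZ (tyW b)) (A : Adj h v.1 p j) (A' : Adj h' v.1 p.rev j')
    (hb : ClassW b) (hc : clsW b v.1 = .ring) (z : DD (tyW b) ⊕ ZZ (tyW b) → ℂ) :
    Vr b z v.1 = VR ((b v.1).natAbs : ℝ) (Oh b z v.1 h) (Oh b z v.1 h') (Oz b z v) := by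
  unfold Vr
  rw [OV_ring hb hc (Ow_endOk z _), ← A.Ow_slot z, ← A'.Ow_slot z, Ow_ring1]
  rcases A.slot with hp | hp <;> subst hp
  · rfl
  · exact VR_comm _ _ _ _

theorem Adj.Vr_ringE (v : ZZ (tyW b)) (A : Adj h v.1 p j) (he : isEnd v.1 = true)
    (hb : ClassW b) (hc : clsW b v.1 = .ring) (z : DD (tyW b) ⊕ ZZ (tyW b) → ℂ) :
    Vr b z v.1 = VR ((b v.1).natAbs : ℝ) (Oh b z v.1 h) 0 (Oz b z v) := by
  unfold Vr
  rw [OV_ring hb hc (Ow_endOk z _), ← A.Ow_slot z, ← A.Ow_no he z, Ow_ring1]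
  rcases A.slot with hp | hp <;> subst hp
  · rfl
  · exact VR_comm _ _ _ _

/-- the value of a region depends only on its variables -/
theorem Vr_congr {z z' : DD (tyW b) ⊕ ZZ (tyW b) → ℂ} (i : Fin (M + 1))
    (hh : ∀ {h : Fin M} {p : Fin 3} {j : Fin (M + 1)}, Adj h i p j →
      z (.inl (.inl h)) = z' (.inl (.inl h)))
    (hm : ∀ hi : (tyW b i).isMid = true, z (.inl (.inr ⟨i, hi⟩)) = z' (.inl (.inr ⟨i, hi⟩)))
    (hz : ∀ hi : (tyW b i).isRing = true, z (.inr ⟨i, hi⟩) = z' (.inr ⟨i, hi⟩)) :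
    Vr b z i = Vr b z' i := by
  unfold Vr Ow
  rw [xx_congr' i]
  intro j hj p
  rcases j with (h | m) | v
  · by_contra hcf
    have : i = h.castSucc ∨ i = h.succ := by
      by_contra hcon
      push Not at hcon
      apply hcf
      unfold cf
      simp only
      rw [if_neg]
      rintro (⟨-, h1⟩ | ⟨-, h1⟩)
      · exact hcon.2 h1.symm
      · exact hcon.1 h1.symm
    rcases this with rfl | rfl
    · exact hj (hh .l)
    · exact hj (hh .r)
  · by_contra hcf
    have : m.1 = i := by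
      by_contra hcon
      apply hcf
      unfold cf
      simp only
      split_ifs <;> simp_all
    subst this
    exact hj (hm m.2)
  · by_contra hcf
    have : v.1 = i := by
      by_contra hcon
      apply hcf
      unfold cf
      simp only
      split_ifs <;> simp_all
    subst this
    exact hj (hz v.2)

/-! ### sums over the slots -/

/-- the sum over the regions of the contributions of their hinges -/
theorem sum_slots (f : Fin (M + 1) → Fin 3 → ℝ) (h0 : f 0 0 = 0) (h2 : f (Fin.last M) 2 = 0) :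
    ∑ i, (f i 0 + f i 2) = ∑ h : Fin M, (f h.castSucc 2 + f h.succ 0) := by
  rw [sum_add_distrib, sum_add_distrib, Fin.sum_univ_succ fun i => f i 0,
    Fin.sum_univ_castSucc fun i => f i 2, h0, h2]
  ring

/-- **The comparison of two points, region by region.** `f i p`: contribution of the slot `p` of
the region `i`. -/
theorem V_lt_of_slots (hb : ClassW b) {z z' : DD (tyW b) ⊕ ZZ (tyW b) → ℂ}
    (f : Fin (M + 1) → Fin 3 → ℝ) (h0 : f 0 0 = 0) (h2 : f (Fin.last M) 2 = 0)
    (hr : ∀ i, f i 0 + f i 2 ≤ Vr b z' i - Vr b z i)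
    (hh : ∀ h : Fin M, 0 ≤ f h.castSucc 2 + f h.succ 0)
    (hlt : (∃ i, f i 0 + f i 2 < Vr b z' i - Vr b z i) ∨
      ∃ h : Fin M, 0 < f h.castSucc 2 + f h.succ 0) :
    (wdat (tyW b) b).V z < (wdat (tyW b) b).V z' := by
  rw [V_eq_Vr hb, V_eq_Vr hb, ← sub_pos, ← sum_sub_distrib]
  have e := sum_slots f h0 h2
  have s1 : ∑ i, (f i 0 + f i 2) ≤ ∑ i, (Vr b z' i - Vr b z i) := sum_le_sum fun i _ => hr i
  have s2 : 0 ≤ ∑ h : Fin M, (f h.castSucc 2 + f h.succ 0) := sum_nonneg fun h _ => hh h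
  rcases hlt with ⟨i, hi⟩ | ⟨h, hh'⟩
  · have := sum_lt_sum (fun i _ => hr i) ⟨i, mem_univ i, hi⟩
    linarith
  · have := sum_pos' (fun h _ => hh h) ⟨h, mem_univ h, hh'⟩
    linarith

/-! ### heights -/

theorem Oh_re (b : Fin (M + 1) → ℤ) (z : DD (tyW b) ⊕ ZZ (tyW b) → ℂ) (i : Fin (M + 1))
    (h : Fin M) : (Oh b z i h).re = (z (.inl (.inl h))).re := ofr_re _ _

theorem Oh_im (b : Fin (M + 1) → ℤ) (z : DD (tyW b) ⊕ ZZ (tyW b) → ℂ) (i : Fin (M + 1))
    (h : Fin M) : (Oh b z i h).im = ofs (b i) (z (.inl (.inl h))).im := ofr_im _ _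

/-- a real hinge -/
theorem Oh_real {z : DD (tyW b) ⊕ ZZ (tyW b) → ℂ} (i : Fin (M + 1)) {h : Fin M}
    (hz : (z (.inl (.inl h))).im = 0) : Oh b z i h = ⟨(z (.inl (.inl h))).re, 0⟩ := by
  apply Complex.ext
  · exact Oh_re b z i h
  · rw [Oh_im, hz]
    unfold ofs
    split_ifs <;> simp

/-- a hinge on its main path -/
theorem Oh_path {z : DD (tyW b) ⊕ ZZ (tyW b) → ℂ} (i : Fin (M + 1)) {h : Fin M} {X c1 c2 t x : ℝ}
    (hz : z (.inl (.inl h)) = pt 0 X c1 c2 t x) :
    Oh b z i h = ⟨x, ofs (b i) t * tr 0 X c1 c2 x⟩ := by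
  apply Complex.ext
  · rw [Oh_re, hz]
    simp [pt]
  · rw [Oh_im, hz]
    unfold ofs
    split_ifs <;> simp [pt]

/-- the hinge seen from the other side, opposite signs -/
theorem Adj.Oh_opp (_ : Adj h i p j) (hop : b i * b j < 0)
    (z : DD (tyW b) ⊕ ZZ (tyW b) → ℂ) : Oh b z j h = starRingEnd ℂ (Oh b z i h) :=
  ofr_opp hop _

/-- the hinge seen from the other side, equal signs -/
theorem Adj.Oh_same (_ : Adj h i p j) (hs : 0 < b i * b j)
    (z : DD (tyW b) ⊕ ZZ (tyW b) → ℂ) : Oh b z j h = Oh b z i h := by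
  unfold Oh ofr
  rcases pos_and_pos_or_neg_and_neg_of_mul_pos hs with ⟨h1, h2⟩ | ⟨h1, h2⟩
  · rw [if_pos h1, if_pos h2]
  · rw [if_neg (by omega), if_neg (by omega)]

end SR

end Pool.Agent.Work.MP_b30479_gtS.G2

end

section

/-!
# Tails: maximisers over the main paths, the real variables fixed
-/

namespace Pool.Agent.Work.MP_b30479_gtS.G2

open Finset VOL Filter Topology SR

namespace TL

variable {M : ℕ} {b : Fin (M + 1) → ℤ} {zs z : DD (tyW b) ⊕ ZZ (tyW b) → ℂ}
variable {R : Finset (DD (tyW b))} {h h' : Fin M} {i j j' k : Fin (M + 1)} {s : Fin 3}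

/-- **A maximiser over the main paths**, the real variables fixed. -/
structure MX (b : Fin (M + 1) → ℤ) (zs : DD (tyW b) ⊕ ZZ (tyW b) → ℂ) (R : Finset (DD (tyW b)))
    (z : DD (tyW b) ⊕ ZZ (tyW b) → ℂ) : Prop where
  adm : Adm (wdat (tyW b) b) (wparM b zs) zs R (nbT b R) z 0
  max : ∀ z', Adm (wdat (tyW b) b) (wparM b zs) zs R (nbT b R) z' 0 →
    (∀ v ∈ nbT b R, z' v = z v) → (wdat (tyW b) b).V z' ≤ (wdat (tyW b) b).V z

/-- there is such a maximiser -/
theorem exists_MX (h : Adm (wdat (tyW b) b) (wparM b zs) zs R (nbT b R) z 0) :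
    ∃ z', MX b zs R z' ∧ (∀ v ∈ nbT b R, z' v = z v) ∧
      (wdat (tyW b) b).V z ≤ (wdat (tyW b) b).V z' := by
  have hX : ∀ i, 0 ≤ (wparM b zs).XM i ∧ (wparM b zs).XM i ≤ 1 := by
    intro i
    have g := par1_good b i
    refine ⟨?_, (g.2.2.2).le⟩
    show 0 ≤ (par1 b i).XM
    linarith only [g, g.1, g.2.1, g.2.2.1]
  have hK := isCompact_AdmSet (wdat (tyW b) b) (wparM b zs) hX zs R (nbT b R) (nbT_ok b R).ok.1
  have hC : IsClosed {q : (DD (tyW b) ⊕ ZZ (tyW b) → ℂ) × (DD (tyW b) → ℝ) |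
      q.2 = 0 ∧ ∀ v ∈ nbT b R, q.1 v = z v} := by
    have h1 : IsClosed {q : (DD (tyW b) ⊕ ZZ (tyW b) → ℂ) × (DD (tyW b) → ℝ) | q.2 = 0} :=
      isClosed_eq continuous_snd continuous_const
    have h2 : IsClosed {q : (DD (tyW b) ⊕ ZZ (tyW b) → ℂ) × (DD (tyW b) → ℝ) |
        ∀ v ∈ nbT b R, q.1 v = z v} := by
      simp only [Set.setOf_forall]
      refine isClosed_iInter fun v => isClosed_iInter fun _ => ?_
      exact isClosed_eq ((continuous_apply v).comp continuous_fst) continuous_const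
    exact h1.inter h2
  have hK2 := hK.inter_right hC
  obtain ⟨q, hq, hm⟩ := hK2.exists_isMaxOn ⟨(z, 0), h, rfl, fun v _ => rfl⟩
    (continuous_pen (wdat (tyW b) b)).continuousOn
  obtain ⟨h1, h2, h3⟩ := hq
  have e : ∀ z1 : DD (tyW b) ⊕ ZZ (tyW b) → ℂ,
      (wdat (tyW b) b).V z1 - 2 * Real.pi * ∑ i, (0 : DD (tyW b) → ℝ) i =
        (wdat (tyW b) b).V z1 := by
    intro z1
    simp
  have hV : ∀ z1, Adm (wdat (tyW b) b) (wparM b zs) zs R (nbT b R) z1 0 →
      (∀ v ∈ nbT b R, z1 v = z v) → (wdat (tyW b) b).V z1 ≤ (wdat (tyW b) b).V q.1 := by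
    intro z1 a1 a2
    have h4 := hm (a := (z1, 0)) ⟨a1, rfl, a2⟩
    have h5 : (wdat (tyW b) b).V z1 - 2 * Real.pi * ∑ i, (0 : DD (tyW b) → ℝ) i ≤
        (wdat (tyW b) b).V q.1 - 2 * Real.pi * ∑ i, q.2 i := h4
    rw [h2, e, e] at h5
    exact h5
  have h1' : Adm (wdat (tyW b) b) (wparM b zs) zs R (nbT b R) q.1 0 := by
    have : Adm (wdat (tyW b) b) (wparM b zs) zs R (nbT b R) q.1 q.2 := h1
    rwa [h2] at this
  exact ⟨q.1, ⟨h1', fun z1 a1 a2 => hV z1 a1 fun v hv => (a2 v hv).trans (h3 v hv)⟩, h3,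
    hV z h fun _ _ => rfl⟩

/-- value step -/
theorem MX.step {z' : DD (tyW b) ⊕ ZZ (tyW b) → ℂ} (hb : ClassW b)
    (hR : ∀ i ∈ R, Sum.inl i ∈ nbT b R) (hM : MX b zs R z)
    (hm : Mv b zs (nbT b R) z 0 z' 0) (S : Finset (Fin (M + 1)))
    (hz : ∀ i, i ∉ S → ∀ j, z j ≠ z' j → ∀ q, cf (tyW b) i q j = 0) :
    ∑ i ∈ S, (OV b i (Ow b z' i) - OV b i (Ow b z i)) ≤
      2 * Real.pi * ∑ i, ((0 : DD (tyW b) → ℝ) i - (0 : DD (tyW b) → ℝ) i) := by
  rw [← V_move hb S hz, Finset.sum_sub_distrib]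
  have h1 := hM.max z' (hm.adm hR hM.adm) fun v hv => by
    by_contra hc
    exact (hm.out v (Or.inl hc)).1 hv
  linarith only [h1]

/-- **The move of one hinge** which is not real to a point of its main path. -/
theorem MX.star (hb : ClassW b) (hM : MX b zs R z) (A : Adj h i s j)
    (hn : Sum.inl (Sum.inl h) ∉ nbT b R) {c : ℝ} (h0 : 0 ≤ c) (h1 : c ≤ wXM b h) :
    ∃ z' : DD (tyW b) ⊕ ZZ (tyW b) → ℂ, z' (.inl (.inl h)) = tg b zs h c ∧
      (∀ v, v ≠ .inl (.inl h) → z' v = z v) ∧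
      (Vr b z' i - Vr b z i) + (Vr b z' j - Vr b z j) ≤ 0 := by
  classical
  set z' := Function.update z (.inl (.inl h)) (tg b zs h c) with hz'
  have e1 : z' (.inl (.inl h)) = tg b zs h c := Function.update_self _ _ _
  have e2 : ∀ v, v ≠ .inl (.inl h) → z' v = z v := fun v hv => Function.update_of_ne hv _ _
  refine ⟨z', e1, e2, ?_⟩
  have hmv : Mv b zs (nbT b R) z 0 z' 0 := by
    refine ⟨fun v hv => ?_⟩
    by_cases hvh : v = .inl (.inl h)
    · subst hvh
      refine ⟨hn, ?_⟩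
      rw [e1]
      exact onP_tg h0 h1
    · exfalso
      rcases hv with hv | hv
      · exact hv (e2 v hvh)
      · exact hv rfl
  have hne : i ≠ j := by
    cases A
    · exact (Fin.castSucc_lt_succ (i := h)).ne
    · exact (Fin.castSucc_lt_succ (i := h)).ne'
  have key := hM.step hb (nbT_ok b R).ok.1 hmv {i, j} (fun k hk v hv q => by
    have hvh : v = .inl (.inl h) := by
      by_contra hc
      exact hv (e2 v hc).symm
    subst hvh
    rw [Finset.mem_insert, Finset.mem_singleton, not_or] at hk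
    cases A
    · exact cf_hinge_zero hk.1 hk.2 q
    · exact cf_hinge_zero hk.2 hk.1 q)
  rw [Finset.sum_pair hne] at key
  have hsum : ∑ i, ((0 : DD (tyW b) → ℝ) i - (0 : DD (tyW b) → ℝ) i) = 0 := by simp
  rw [hsum, mul_zero] at key
  exact key

/-- the other slot of a region does not depend on the hinge `h` -/
theorem Ow_other (A : Adj h i s j) {z z' : DD (tyW b) ⊕ ZZ (tyW b) → ℂ}
    (e : ∀ v, v ≠ .inl (.inl h) → z' v = z v) : Ow b z' i s.rev = Ow b z i s.rev := by
  rcases A.other b z (fun _ => 0) with ⟨he, -⟩ | ⟨-, h2, j2, A2⟩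
  · rw [A.Ow_no he, A.Ow_no he]
  · rw [Ow_adj z' A2, Ow_adj z A2, e]
    intro hc
    have h3 : h2 = h := by simpa using hc
    subst h3
    generalize hs : s.rev = s' at A2
    cases A with
    | l =>
      generalize hi : h2.castSucc = i' at A2
      cases A2 with
      | l => exact absurd hs (by decide)
      | r => exact absurd hi (Fin.castSucc_lt_succ (i := h2)).ne
    | r =>
      generalize hi : h2.succ = i' at A2
      cases A2 with
      | l => exact absurd hi (Fin.castSucc_lt_succ (i := h2)).ne'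
      | r => exact absurd hs (by decide)

theorem Ow_moved (A : Adj h i s j) {z' : DD (tyW b) ⊕ ZZ (tyW b) → ℂ} {c : ℝ}
    (e : z' (.inl (.inl h)) = tg b zs h c) : Ow b z' i s = tgo b zs h i c := by
  rw [Ow_adj z' A, e, ofr_tg]

theorem Vr_one_slot (A : Adj h i s j) (hb : ClassW b) (hc : clsW b i = .one)
    (z : DD (tyW b) ⊕ ZZ (tyW b) → ℂ) :
    Vr b z i = V1 (Ow b z i s) (Ow b z i s.rev) := by
  unfold Vr
  rw [OV_one hb hc]
  rcases A.slot with rfl | rfl
  · rfl
  · exact V1_comm _ _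

theorem Vr_two_slot (A : Adj h i s j) (hb : ClassW b) (hc : clsW b i = .two ∨ clsW b i = .twoE)
    (z : DD (tyW b) ⊕ ZZ (tyW b) → ℂ) :
    Vr b z i = V2 (Ow b z i s) (Ow b z i s.rev) := by
  unfold Vr
  rw [OV_two hb hc (Ow_endOk z i)]
  rcases A.slot with rfl | rfl
  · rfl
  · exact V2_comm _ _

/-- the move of a hinge between a two and a digit one -/
theorem MX.star_two_one (hb : ClassW b) (hM : MX b zs R z) (A : Adj h i s j)
    (hn : Sum.inl (Sum.inl h) ∉ nbT b R) {c : ℝ} (h0 : 0 ≤ c) (h1 : c ≤ wXM b h)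
    (hi : clsW b i = .two ∨ clsW b i = .twoE) (hj : clsW b j = .one) :
    (V2 (tgo b zs h i c) (Ow b z i s.rev) - V2 (Ow b z i s) (Ow b z i s.rev)) +
      (V1 (tgo b zs h j c) (Ow b z j s.rev.rev) - V1 (Ow b z j s.rev) (Ow b z j s.rev.rev)) ≤ 0 := by
  obtain ⟨z', e1, e2, st⟩ := hM.star hb A hn h0 h1
  rw [Vr_two_slot A hb hi, Vr_two_slot A hb hi, Vr_one_slot A.symm hb hj,
    Vr_one_slot A.symm hb hj, Ow_moved A e1, Ow_moved A.symm e1, Ow_other A e2,
    Ow_other A.symm e2] at st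
  exact st

/-! ### positions -/

theorem MX.npos0 (hR : ∀ i ∈ R, Sum.inl i ∈ nbT b R) (hM : MX b zs R z) (A' : Adj h' i s j')
    (hnR : (Sum.inl h' : DD (tyW b)) ∉ R) : NPos b zs (nbT b R) 0 h' i s (Ow b z i s) := by
  have hcx : ∀ {X Y : ℂ}, X.re = Y.re → X.im = Y.im → X = Y := fun h1 h2 => Complex.ext h1 h2
  rw [Ow_adj z A']
  by_cases hn : Sum.inl (Sum.inl h') ∈ nbT b R
  · obtain ⟨e1, e2, e3, e4⟩ := hM.adm.reD _ hnR hn
    refine .real (z (.inl (.inl h'))).re e2 e3 hn (hcx (ofr_re _ _) ?_) e4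
    rw [ofr_im, e1, ofs_zero]
  obtain ⟨x, h0, h1, h2⟩ := hM.adm.onD (.inl h') hn
  have hu : 0 < (wparM b zs).hu (.inl h') := (mh_pos (b := b) (zs := zs) (.inl h')).1
  have hd : 0 < (wparM b zs).hd (.inl h') := (mh_pos (b := b) (zs := zs) (.inl h')).2
  refine .main x h0 h1 hn ?_ rfl
  have e : ∀ H : ℝ, 0 = H * trh b h' x → H ≠ 0 → trh b h' x = 0 := by
    intro H h3 h4
    rcases mul_eq_zero.1 h3.symm with h5 | h5
    · exact absurd h5 h4
    · exact h5
  rcases h2 with ⟨e1, e2⟩ | ⟨e1, e2⟩ | ⟨e1, e2⟩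
  · apply hcx
    · rw [ofr_re, e1, ptm_re]
    · rw [ofr_im, e1, ptm_im, ofs_mulR]
      rfl
  · have h3 : trh b h' x = 0 := e _ e2 hu.ne'
    apply hcx
    · rw [ofr_re, e1, ptm_re]
    · rw [ofr_im, e1, ptm_im, ofs_mulR]
      show _ * trh b h' x = _
      rw [h3]
      simp
  · have h3 : trh b h' x = 0 := e _ e2 hd.ne'
    apply hcx
    · rw [ofr_re, e1, ptm_re]
    · rw [ofr_im, e1, ptm_im, ofs_mulR]
      show _ * trh b h' x = _
      rw [h3]
      simp

theorem MX.npos (hM : MX b zs R z) (A : Adj h i s j)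
    (hn : Sum.inl (Sum.inl h) ∉ nbT b R) (A' : Adj h' i s.rev j') :
    NPos b zs (nbT b R) 0 h' i s.rev (Ow b z i s.rev) :=
  hM.npos0 (nbT_ok b R).ok.1 A' fun hR => (nbT_ok b R).not_tch A hn ⟨_, hR, s.rev, A'.cf_ne⟩

/-! ### walls -/

/-- the walls of a touched region -/
theorem MX.wallR (hM : MX b zs R z) (ht : Tch b R i)
    (hr : ∀ v : ZZ (tyW b), v.1 ≠ i) {f : Fac}
    (hf : f ∈ facs (tyW b i) (decide (i ≠ 0)) (decide (i ≠ Fin.last M))) :
    (f.form (xx (tyW b) i z)).re ≤ 1 := by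
  obtain ⟨n, hn, rfl⟩ := List.mem_iff_getElem.1 hf
  have h1 := hM.adm.wall ⟨i, ⟨n, hn⟩⟩ ?_ ?_
  · rw [wdat_form] at h1
    exact h1
  · intro v
    simp only [wdat]
    refine Finset.sum_eq_zero fun q _ => ?_
    have : cf (tyW b) i q (.inr v) = 0 := by
      simp [cf, hr v]
    rw [this]
    simp
  · intro d hd
    simp only [wdat] at hd
    obtain ⟨q, -, hq⟩ := Finset.exists_ne_zero_of_sum_ne_zero hd
    refine (nbT_ok b R).mem ht (q := q) ?_
    intro h0
    apply hq
    rw [h0]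
    simp

/-- wall of a touched region with one crossing or with two crossings -/
theorem MX.wall12 (hb : ClassW b) (hM : MX b zs R z) (ht : Tch b R i)
    (hc : clsW b i = .one ∨ clsW b i = .two) :
    (Ow b z i 0).re + (Ow b z i 2).re ≤ 1 := by
  rw [Ow_re0, Ow_re2]
  have hr : clsW b i ≠ .ring := by
    rcases hc with h | h <;> rw [h] <;> decide
  have he : isEnd i = false := by
    rcases hc with h | h
    · exact clsW_inner hb (Or.inl h)
    · exact clsW_inner hb (Or.inr (Or.inl h))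
  unfold isEnd at he
  have he' := of_decide_eq_false he
  rw [not_or] at he'
  have e0 : decide (i ≠ 0) = true := by simpa using he'.1
  have e2 : decide (i ≠ Fin.last M) = true := by simpa using he'.2
  have h1 := hM.wallR ht (ring_ne hr) (f := ⟨![1, 0, 1], 0, 1 / 2⟩) (by
    rw [e0, e2]
    rcases hc with h | h
    · rw [tyW_of_one h]; simp [facs]
    · rw [tyW_of_two (Or.inl h)]; simp [facs])
  simp only [Fac.form, Fin.sum_univ_three] at h1
  simpa using h1

/-- walls of a touched interior region with three crossings -/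
theorem MX.wall3 (hM : MX b zs R z) (ht : Tch b R i) (hc : clsW b i = .three) :
    (Ow b z i 1).re + (Ow b z i 2).re ≤ 1 ∧ (Ow b z i 0).re ≤ (Ow b z i 1).re := by
  have hty := tyW_of_three hc
  have hr : clsW b i ≠ .ring := by rw [hc]; decide
  rw [Ow_re0, Ow_re1 z (by rw [hty]; decide), Ow_re2]
  have h1 := hM.wallR ht (ring_ne hr) (f := ⟨![0, 1, 1], 0, 1 / 2⟩) (by
    rw [hty]; simp [facs])
  have h2 := hM.wallR ht (ring_ne hr) (f := ⟨![1, -1, 0], 1, -(1 / 2)⟩) (by
    rw [hty]; simp [facs])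
  simp only [Fac.form, Fin.sum_univ_three] at h1 h2
  constructor
  · simpa using h1
  · simp at h2
    linarith only [h2]

/-- the tail -/
theorem MX.tail_re (hM : MX b zs R z) {d : DD (tyW b)} (hd : d ∈ R) :
    (wpar b zs).XM d ≤ (z (.inl d)).re := (hM.adm.tail d hd).2.1

/-- **A real hinge** of an untouched region: the walls of the region behind. -/
theorem MX.real_le (hb : ClassW b) (hM : MX b zs R z)
    (A' : Adj h' i s j') (hi : ¬ Tch b R i) (hn : Sum.inl (Sum.inl h') ∈ nbT b R)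
    (hc : clsW b j' = .one ∨ clsW b j' = .two ∨ (clsW b j' = .three ∧ s = 0)) :
    (Ow b z i s).re ≤ 2 / 5 := by
  have hN := nbT_ok b R
  obtain ⟨ht, hR⟩ := hN.beyond A' hi hn
  have e1 : (Ow b z i s).re = (Ow b z j' s.rev).re := by
    rw [Ow_adj z A', Ow_adj z A'.symm, ofr_re, ofr_re]
  rw [e1]
  have hnr : clsW b j' ≠ .ring := by
    rcases hc with h | h | ⟨h, -⟩ <;> rw [h] <;> decide
  have hslot := A'.slot
  have key : ∀ {h2 : Fin M} {q : Fin 3} {k}, (Sum.inl h2 : DD (tyW b)) ∈ R → Adj h2 j' q k →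
      q = s ∧ 6 / 10 ≤ (Ow b z j' q).re := by
    intro h2 q k h2R A2
    constructor
    · by_contra hq
      have h3 : q = s.rev := by
        rcases A2.slot with rfl | rfl <;> rcases hslot with rfl | rfl
        · exact absurd rfl hq
        · rfl
        · rfl
        · exact absurd rfl hq
      subst h3
      exact hR (A2.eq_of_slot A'.symm ▸ h2R)
    · rw [Ow_adj z A2, ofr_re]
      exact (wXM_ge A2 hnr).trans (hM.tail_re h2R)
  have ht' := ht
  obtain ⟨d, hd, q, hq⟩ := ht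
  rcases hc with hc | hc
  · have h1 := hM.wall12 hb ht' (Or.inl hc)
    rcases d with h2 | m
    · obtain ⟨k, A2⟩ := adj_of_cf hq
      obtain ⟨rfl, h3⟩ := key hd A2
      rcases hslot with rfl | rfl
      · show (Ow b z j' 2).re ≤ 2 / 5
        linarith only [h1, h3]
      · show (Ow b z j' 0).re ≤ 2 / 5
        linarith only [h1, h3]
    · exfalso
      have h2 := m.2
      rw [cf_inner_ne hq, tyW_of_one hc] at h2
      exact absurd h2 (by decide)
  rcases hc with hc | ⟨hc, rfl⟩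
  · have h1 := hM.wall12 hb ht' (Or.inr hc)
    rcases d with h2 | m
    · obtain ⟨k, A2⟩ := adj_of_cf hq
      obtain ⟨rfl, h3⟩ := key hd A2
      rcases hslot with rfl | rfl
      · show (Ow b z j' 2).re ≤ 2 / 5
        linarith only [h1, h3]
      · show (Ow b z j' 0).re ≤ 2 / 5
        linarith only [h1, h3]
    · exfalso
      have h2 := m.2
      rw [cf_inner_ne hq, tyW_of_two (Or.inl hc)] at h2
      exact absurd h2 (by decide)
  · obtain ⟨h1, h2⟩ := hM.wall3 ht' hc
    show (Ow b z j' 2).re ≤ 2 / 5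
    rcases d with h2' | m
    · obtain ⟨k, A2⟩ := adj_of_cf hq
      obtain ⟨rfl, h3⟩ := key hd A2
      linarith only [h1, h2, h3]
    · have e : m.1 = j' := cf_inner_ne hq
      subst e
      have h3 := hM.tail_re hd
      have h4 : (wpar b zs).XM (.inr m) = 8 / 10 := by
        show (mp (clsW b m.1)).XM = 8 / 10
        rw [hc]
        rfl
      rw [h4] at h3
      rw [Ow_inner, ofr_re] at h1
      linarith only [h1, h3]

end TL

end Pool.Agent.Work.MP_b30479_gtS.G2

end

section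

/-!
# Tails: statuses, targets, shares of a word

`R`: the set of the variables in the tail; `Tch b R i`: the region `i` is touched.  The real
variables are those of `nbT b R`.  `zN`: the new point.  `sh`: the shares of the slots.
-/

namespace Pool.Agent.Work.MP_b30479_gtS.G2

open Finset VOL Filter Topology SR

namespace TL

variable {M : ℕ}

/-! ### statuses -/

/-- the hinge `h` is in the tail -/
def isT (b : Fin (M + 1) → ℤ) (R : Finset (DD (tyW b))) (h : Fin M) : Prop :=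
  (Sum.inl h : DD (tyW b)) ∈ R

/-- a hinge of the region `i` is in the tail -/
def hT (b : Fin (M + 1) → ℤ) (R : Finset (DD (tyW b))) (i : Fin (M + 1)) : Prop :=
  ∃ (h : Fin M) (p : Fin 3) (j : Fin (M + 1)), Adj h i p j ∧ isT b R h

/-- the hinge `h` belongs to a touched region (it is real) -/
def nbH (b : Fin (M + 1) → ℤ) (R : Finset (DD (tyW b))) (h : Fin M) : Prop :=
  Tch b R h.castSucc ∨ Tch b R h.succ

/-- the inner variable of the region `i` is real -/
def nbM (b : Fin (M + 1) → ℤ) (R : Finset (DD (tyW b))) (i : Fin (M + 1)) : Prop :=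
  Tch b R i ∨ (clsW b i = .threeE ∧ ∃ (h : Fin M) (p : Fin 3) (j : Fin (M + 1)),
    Adj h i p j ∧ Tch b R j)

/-! ### targets -/

/-- kind of the region `i` seen through its slot `p` -/
def kd (b : Fin (M + 1) → ℤ) (i : Fin (M + 1)) (p : Fin 3) : Ct :=
  match clsW b i with
  | .one => .one
  | .two => .two
  | .twoE => .twoE
  | .three => if p = 0 then .threeA else .threeK
  | .threeE => .threeE
  | .ring => .ring

open Classical in
/-- kind of the region `i` seen through its slot `p`, `touched` if it is touched -/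
noncomputable def kb (b : Fin (M + 1) → ℤ) (R : Finset (DD (tyW b))) (i : Fin (M + 1))
    (p : Fin 3) : Ct := if Tch b R i then .touched else kd b i p

open Classical in
/-- real part of the target of the real hinge (not in the tail) in the slot `p` of the touched
region `i`; `C` is the kind of the region behind it, `x` the old position -/
noncomputable def tgK (b : Fin (M + 1) → ℤ) (R : Finset (DD (tyW b))) (i : Fin (M + 1))
    (p : Fin 3) (C : Ct) (x : ℝ) : ℝ :=
  if clsW b i = .ring then cZ C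
  else if hT b R i then cN C
  else if clsW b i = .three ∧ p = 2 then cW C
  else cU C x

open Classical in
/-- real part of the target of the hinge `h`, `x` is the old position -/
noncomputable def tgt (b : Fin (M + 1) → ℤ) (R : Finset (DD (tyW b))) (h : Fin M) (x : ℝ) : ℝ :=
  if isT b R h then cT (clsW b h.castSucc) (clsW b h.succ)
  else if Tch b R h.castSucc then tgK b R h.castSucc 2 (kb b R h.succ 0) x
  else tgK b R h.succ 0 (kb b R h.castSucc 2) x

open Classical in
/-- real part of the target of the inner variable of the region `i` if it is moved; `x`: old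
positions of the hinges -/
noncomputable def tmt (b : Fin (M + 1) → ℤ) (R : Finset (DD (tyW b))) (i : Fin (M + 1))
    (x : Fin M → ℝ) : ℝ :=
  if clsW b i = .threeE then
    (if hx : ∃ (h : Fin M) (q : Fin 3 × Fin (M + 1)), Adj h i q.1 q.2 then
      tgt b R hx.choose (x hx.choose) +
        (if Tch b R i ∧ ¬ hT b R i then
          dE (kb b R hx.choose_spec.choose.2 hx.choose_spec.choose.1.rev) else 1 / 6)
    else 0)
  else if Tch b R i then (if hT b R i then 42 / 100 else 9 / 20) else 1 / 4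

/-- the inner variable of an untouched interior three is moved: the hinge in the slot `0` is real
and the inner variable is to the left of `2/10` -/
def mvM (b : Fin (M + 1) → ℤ) (R : Finset (DD (tyW b)))
    (z : DD (tyW b) ⊕ ZZ (tyW b) → ℂ) (m : {i : Fin (M + 1) // (tyW b i).isMid = true}) : Prop :=
  (∃ (h : Fin M) (j : Fin (M + 1)), Adj h m.1 0 j ∧ nbH b R h) ∧
    (z (.inl (.inr m))).re < 2 / 10

open Classical in
/-- **The new point.**  `c`: real parts (own frame) of the targets of the ring variables. -/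
noncomputable def zN (b : Fin (M + 1) → ℤ) (R : Finset (DD (tyW b)))
    (zs z : DD (tyW b) ⊕ ZZ (tyW b) → ℂ) (c : ZZ (tyW b) → ℝ) : DD (tyW b) ⊕ ZZ (tyW b) → ℂ
  | .inl (.inl h) => if nbH b R h then
      ⟨tgt b R h (z (.inl (.inl h))).re, (zs (.inl (.inl h))).im⟩ else z (.inl (.inl h))
  | .inl (.inr m) => if nbM b R m.1 ∨ mvM b R z m then
      ⟨tmt b R m.1 fun h => (z (.inl (.inl h))).re, (zs (.inl (.inr m))).im⟩ else z (.inl (.inr m))
  | .inr v => if Tch b R v.1 then ⟨ofs (b v.1) (c v), (zs (.inr v)).im⟩ else z (.inr v)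

open Classical in
/-- the point with only the hinge in the slot `0` of the region `i` and the inner variable of `i`
moved (the latter only if there is such a hinge) -/
noncomputable def zH (b : Fin (M + 1) → ℤ) (R : Finset (DD (tyW b)))
    (zs z : DD (tyW b) ⊕ ZZ (tyW b) → ℂ) (i : Fin (M + 1)) : DD (tyW b) ⊕ ZZ (tyW b) → ℂ
  | .inl (.inl h) => if h.succ = i then zN b R zs z 0 (.inl (.inl h)) else z (.inl (.inl h))
  | .inl (.inr m) => if m.1 = i ∧ i ≠ 0 then zN b R zs z 0 (.inl (.inr m)) else z (.inl (.inr m))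
  | .inr v => z (.inr v)

/-! ### shares -/

/-- gain of the untouched region `i` by the move of the hinge in its slot `p` -/
noncomputable def pc (b : Fin (M + 1) → ℤ) (R : Finset (DD (tyW b)))
    (zs z : DD (tyW b) ⊕ ZZ (tyW b) → ℂ) (i : Fin (M + 1)) (p : Fin 3) : ℝ :=
  if p = 0 then Vr b (zH b R zs z i) i - Vr b z i
  else Vr b (zN b R zs z 0) i - Vr b (zH b R zs z i) i

/-- share of the region `i` at its hinge in the tail at `x`, `t` is the height of the saddle point
in the own frame of `i`, `j` the region on the other side, `C` the class behind the other hinge of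
`i` -/
noncomputable def shT (b : Fin (M + 1) → ℤ) (i j : Fin (M + 1)) (C : Cl) (x t : ℝ) : ℝ :=
  if clsW b i = .ring then gR (clsW b j) x t
  else if clsW b j = .ring then gD (clsW b i) x t
  else al (clsW b i) (clsW b j) C x - be (clsW b i) (clsW b j) * t

/-- share of the touched region `i` at its real hinge, the region `j` on the other side is touched
too -/
noncomputable def shN (b : Fin (M + 1) → ℤ) (i j : Fin (M + 1)) (t : ℝ) : ℝ :=
  if clsW b i = .ring ∧ clsW b j = .ring then 0 else -(59 / 25) * t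

/-- a special hinge `h`: real, to the left of `1/20`, between an untouched digit one on the left,
whose left neighbour is an untouched interior three, and a touched one or two on the right -/
def Spc (b : Fin (M + 1) → ℤ) (R : Finset (DD (tyW b))) (z : DD (tyW b) ⊕ ZZ (tyW b) → ℂ)
    (h : Fin M) : Prop :=
  Tch b R h.succ ∧ (clsW b h.succ = .one ∨ clsW b h.succ = .two) ∧ ¬ Tch b R h.castSucc ∧
    clsW b h.castSucc = .one ∧ (∃ (u : Fin M) (m : Fin (M + 1)), Adj u h.castSucc 0 m ∧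
      clsW b m = .three ∧ ¬ Tch b R m) ∧ (z (.inl (.inl h))).re ≤ 1 / 20

open Classical in
/-- extra loss at a special hinge -/
noncomputable def ee (b : Fin (M + 1) → ℤ) (R : Finset (DD (tyW b)))
    (z : DD (tyW b) ⊕ ZZ (tyW b) → ℂ) (h : Fin M) : ℝ := if Spc b R z h then 1 / 100 else 0

open Classical in
/-- share of the region `i` at its slot `p` with the hinge `h` towards `j` -/
noncomputable def shA (b : Fin (M + 1) → ℤ) (R : Finset (DD (tyW b)))
    (zs z : DD (tyW b) ⊕ ZZ (tyW b) → ℂ) (h : Fin M) (i : Fin (M + 1)) (p : Fin 3)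
    (j : Fin (M + 1)) : ℝ :=
  if isT b R h then shT b i j (oc b i p.rev) (z (.inl (.inl h))).re (Th b zs h i)
  else if Tch b R i then
    (if Tch b R j then shN b i j (Th b zs h i) else -pc b R zs z j p.rev + ee b R z h)
  else pc b R zs z i p

open Classical in
/-- **The shares.** -/
noncomputable def sh (b : Fin (M + 1) → ℤ) (R : Finset (DD (tyW b)))
    (zs z : DD (tyW b) ⊕ ZZ (tyW b) → ℂ) (i : Fin (M + 1)) (p : Fin 3) : ℝ :=
  if hx : ∃ (q : Fin M × Fin (M + 1)), Adj q.1 i p q.2 then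
    shA b R zs z hx.choose.1 i p hx.choose.2
  else 0

/-! ### the setting -/

/-- **The setting**: a maximiser over the main paths, the real variables fixed. -/
structure Tl (b : Fin (M + 1) → ℤ) (zs : DD (tyW b) ⊕ ZZ (tyW b) → ℂ) (R : Finset (DD (tyW b)))
    (z : DD (tyW b) ⊕ ZZ (tyW b) → ℂ) : Prop where
  hb : ClassW b
  L : LocA b zs
  mx : MX b zs R z

/-- the gains of all untouched regions behind real hinges -/
def Gains (b : Fin (M + 1) → ℤ) (zs : DD (tyW b) ⊕ ZZ (tyW b) → ℂ) (R : Finset (DD (tyW b)))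
    (z : DD (tyW b) ⊕ ZZ (tyW b) → ℂ) : Prop :=
  ∀ {h : Fin M} {i j : Fin (M + 1)} {q : Fin 3}, Adj h j q i → Tch b R i → ¬ Tch b R j →
    Gn (clsW b i) (tgt b R h (z (.inl (.inl h))).re) (z (.inl (.inl h))).re (Th b zs h j)
      (kd b j q) (pc b R zs z j q)

end TL

end Pool.Agent.Work.MP_b30479_gtS.G2

end

section

/-!
# Tails: basic facts at the word level
-/

namespace Pool.Agent.Work.MP_b30479_gtS.G2

open Finset VOL Filter Topology SR

namespace TL

variable {M : ℕ} {b : Fin (M + 1) → ℤ} {zs z : DD (tyW b) ⊕ ZZ (tyW b) → ℂ}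
variable {R : Finset (DD (tyW b))} {h h' : Fin M} {i j j' k : Fin (M + 1)} {p q : Fin 3}

/-! ### uniqueness -/

theorem adj_uniq (A : Adj h i p j) (A' : Adj h' i p j') : h = h' ∧ j = j' := by
  have e := A.eq_of_slot A'
  subst e
  refine ⟨rfl, ?_⟩
  cases A with
  | l =>
    generalize hi : h.castSucc = i' at A'
    generalize hs : (2 : Fin 3) = s' at A'
    cases A' with
    | l => rfl
    | r => exact absurd hs (by decide)
  | r =>
    generalize hi : h.succ = i' at A'
    generalize hs : (0 : Fin 3) = s' at A'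
    cases A' with
    | l => exact absurd hs (by decide)
    | r => rfl

theorem adj_l (A : Adj h i 2 j) : h.castSucc = i ∧ h.succ = j := by
  generalize hs : (2 : Fin 3) = s' at A
  cases A with
  | l => exact ⟨rfl, rfl⟩
  | r => exact absurd hs (by decide)

theorem adj_r (A : Adj h i 0 j) : h.succ = i ∧ h.castSucc = j := by
  generalize hs : (0 : Fin 3) = s' at A
  cases A with
  | l => exact absurd hs (by decide)
  | r => exact ⟨rfl, rfl⟩

/-! ### shares -/

theorem rev_eq0 : ∀ q : Fin 3, q.rev = 0 → q = 2 := by decide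

theorem rev_eq2 : ∀ q : Fin 3, q.rev = 2 → q = 0 := by decide

theorem sh_adj (A : Adj h i p j) : sh b R zs z i p = shA b R zs z h i p j := by
  have hx : ∃ (q : Fin M × Fin (M + 1)), Adj q.1 i p q.2 := ⟨(h, j), A⟩
  unfold sh
  rw [dif_pos hx]
  obtain ⟨e1, e2⟩ := adj_uniq hx.choose_spec A
  rw [e1, e2]

theorem sh_none (hx : ¬ ∃ (q : Fin M × Fin (M + 1)), Adj q.1 i p q.2) :
    sh b R zs z i p = 0 := by
  unfold sh
  rw [dif_neg hx]

theorem sh_T (A : Adj h i p j) (ht : isT b R h) : sh b R zs z i p =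
    shT b i j (oc b i p.rev) (z (.inl (.inl h))).re (Th b zs h i) := by
  rw [sh_adj A]
  unfold shA
  rw [if_pos ht]

/-- an end: no share in the missing slot -/
theorem sh_end (A : Adj h i p j) (he : isEnd i = true) : sh b R zs z i p.rev = 0 := by
  apply sh_none
  rintro ⟨⟨h1, j1⟩, A'⟩
  have e := A.slot_end A' he
  rcases A.slot with rfl | rfl
  · exact absurd e (by decide)
  · exact absurd e (by decide)

theorem nbH_iff (A : Adj h i p j) : nbH b R h ↔ Tch b R i ∨ Tch b R j := by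
  cases A
  · exact Iff.rfl
  · exact or_comm

theorem kb_tch (hj : Tch b R j) (q : Fin 3) : kb b R j q = .touched := by
  unfold kb
  rw [if_pos hj]

theorem kb_un (hj : ¬ Tch b R j) (q : Fin 3) : kb b R j q = kd b j q := by
  unfold kb
  rw [if_neg hj]

theorem kd_ok (b : Fin (M + 1) → ℤ) (j : Fin (M + 1)) (q : Fin 3) :
    (kd b j q).ok (clsW b j) := by
  unfold kd
  rcases hc : clsW b j <;> simp only [Ct.ok]
  split_ifs <;> simp only

theorem kb_ok (b : Fin (M + 1) → ℤ) (R : Finset (DD (tyW b))) (j : Fin (M + 1)) (q : Fin 3) :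
    (kb b R j q).ok (clsW b j) := by
  by_cases hj : Tch b R j
  · rw [kb_tch hj]
    trivial
  · rw [kb_un hj]
    exact kd_ok b j q

theorem cT_comm (A B : Cl) : cT A B = cT B A := by
  cases A <;> cases B <;> rfl

theorem tgt_T (A : Adj h i p j) (ht : isT b R h) (x : ℝ) :
    tgt b R h x = cT (clsW b i) (clsW b j) := by
  unfold tgt
  rw [if_pos ht]
  cases A
  · rfl
  · exact cT_comm _ _

theorem tgK_touched (i : Fin (M + 1)) (p : Fin 3) (x : ℝ) : tgK b R i p .touched x = 1 / 5 := by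
  unfold tgK
  split_ifs <;> rfl

theorem tgt_nb (A : Adj h i p j) (hi : Tch b R i) (ht : ¬ isT b R h) (x : ℝ) :
    tgt b R h x = tgK b R i p (kb b R j p.rev) x := by
  unfold tgt
  rw [if_neg ht]
  cases A
  · rw [if_pos hi]
    rfl
  · by_cases hc : Tch b R h.castSucc
    · rw [if_pos hc, kb_tch hi, kb_tch hc, tgK_touched, tgK_touched]
    · rw [if_neg hc]
      rfl

/-- heights in the two frames -/
theorem Th_opp (hb : ClassW b) (A : Adj h i p j) (hr : clsW b i ≠ .ring ∨ clsW b j ≠ .ring) :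
    Th b zs h j = -Th b zs h i := A.ofs_conj (A.opp hb hr) _

theorem shN_un (hr : ¬ (clsW b i = .ring ∧ clsW b j = .ring)) (t : ℝ) :
    shN b i j t = -(59 / 25) * t := by
  unfold shN
  rw [if_neg hr]

theorem ee_nonneg (b : Fin (M + 1) → ℤ) (R : Finset (DD (tyW b)))
    (z : DD (tyW b) ⊕ ZZ (tyW b) → ℂ) (h : Fin M) : 0 ≤ ee b R z h := by
  unfold ee
  split_ifs <;> norm_num

theorem ee_zero (hs : ¬ Spc b R z h) : ee b R z h = 0 := by
  unfold ee
  rw [if_neg hs]

/-- no extra loss if the region `i` is touched and no digit one or two -/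
theorem ee_zero_cls (A : Adj h i p j) (hi : Tch b R i)
    (hc : clsW b i ≠ .one ∧ clsW b i ≠ .two) : ee b R z h = 0 := by
  apply ee_zero
  rintro ⟨h1, h2, h3, -⟩
  cases A
  · exact h3 hi
  · rcases h2 with h2 | h2
    · exact hc.1 h2
    · exact hc.2 h2

/-- no extra loss if both regions are touched -/
theorem ee_zero_tt (A : Adj h i p j) (hi : Tch b R i) (hj : Tch b R j) : ee b R z h = 0 := by
  apply ee_zero
  rintro ⟨h1, h2, h3, -⟩
  cases A
  · exact h3 hi
  · exact h3 hj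

/-- no extra loss if no region is touched -/
theorem ee_zero_uu (A : Adj h i p j) (hi : ¬ Tch b R i) (hj : ¬ Tch b R j) :
    ee b R z h = 0 := by
  apply ee_zero
  rintro ⟨h1, h2, h3, -⟩
  cases A
  · exact hj h1
  · exact hi h1

/-- the extra loss at a hinge of the touched region `i` -/
theorem ee_or (A : Adj h i p j) (hi : Tch b R i) : ee b R z h = 0 ∨
    (ee b R z h = 1 / 100 ∧ ¬ Tch b R j ∧ clsW b j = .one ∧ kb b R j p.rev = .one ∧
      (clsW b i = .one ∨ clsW b i = .two) ∧ (z (.inl (.inl h))).re ≤ 1 / 20) := by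
  by_cases hs : Spc b R z h
  · right
    have hs' := hs
    obtain ⟨h1, h2, h3, h4, -, h6⟩ := hs
    cases A
    · exact absurd hi h3
    · refine ⟨?_, h3, h4, ?_, h2, h6⟩
      · unfold ee
        rw [if_pos hs']
      · rw [kb_un h3]
        unfold kd
        rw [h4]
  · exact Or.inl (ee_zero hs)

theorem sh_nb (H : Tl b zs R z) (G : Gains b zs R z) (A : Adj h i p j) (hi : Tch b R i)
    (ht : ¬ isT b R h) (hr : ¬ (clsW b i = .ring ∧ clsW b j = .ring ∧ Tch b R j)) :
    ∃ g, sh b R zs z i p = -g + ee b R z h ∧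
      Gn (clsW b i) (tgt b R h (z (.inl (.inl h))).re) (z (.inl (.inl h))).re (Th b zs h j)
        (kb b R j p.rev) g := by
  rw [sh_adj A]
  unfold shA
  rw [if_neg ht, if_pos hi]
  by_cases hj : Tch b R j
  · have hr' : ¬ (clsW b i = .ring ∧ clsW b j = .ring) := fun hc => hr ⟨hc.1, hc.2, hj⟩
    rw [if_pos hj, shN_un hr', kb_tch hj, ee_zero_tt A hi hj]
    have hr2 : clsW b i ≠ .ring ∨ clsW b j ≠ .ring := by
      by_contra hc
      rw [not_or, not_not, not_not] at hc
      exact hr' hc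
    refine ⟨-(59 / 25) * Th b zs h j, ?_, .touched⟩
    rw [Th_opp H.hb A hr2]
    ring
  · rw [if_neg hj, kb_un hj]
    exact ⟨_, rfl, G A.symm hi hj⟩

/-- regions which are no digits one or two -/
theorem sh_nb0 (H : Tl b zs R z) (G : Gains b zs R z) (A : Adj h i p j) (hi : Tch b R i)
    (ht : ¬ isT b R h) (hr : ¬ (clsW b i = .ring ∧ clsW b j = .ring ∧ Tch b R j))
    (hc : clsW b i ≠ .one ∧ clsW b i ≠ .two) :
    ∃ g, sh b R zs z i p = -g ∧
      Gn (clsW b i) (tgt b R h (z (.inl (.inl h))).re) (z (.inl (.inl h))).re (Th b zs h j)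
        (kb b R j p.rev) g := by
  obtain ⟨g, h1, h2⟩ := sh_nb H G A hi ht hr
  rw [ee_zero_cls A hi hc, add_zero] at h1
  exact ⟨g, h1, h2⟩

theorem sh_rr (A : Adj h i p j) (hi : Tch b R i) (ht : ¬ isT b R h) (hri : clsW b i = .ring)
    (hrj : clsW b j = .ring) (hj : Tch b R j) : sh b R zs z i p = 0 := by
  rw [sh_adj A]
  unfold shA
  rw [if_neg ht, if_pos hi, if_pos hj]
  unfold shN
  rw [if_pos ⟨hri, hrj⟩]

/-! ### the new point in the own frames -/

theorem zN_h (b : Fin (M + 1) → ℤ) (R : Finset (DD (tyW b)))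
    (zs z : DD (tyW b) ⊕ ZZ (tyW b) → ℂ) (c : ZZ (tyW b) → ℝ) (hn : nbH b R h) :
    zN b R zs z c (.inl (.inl h)) =
      ⟨tgt b R h (z (.inl (.inl h))).re, (zs (.inl (.inl h))).im⟩ := if_pos hn

theorem zN_h' (b : Fin (M + 1) → ℤ) (R : Finset (DD (tyW b)))
    (zs z : DD (tyW b) ⊕ ZZ (tyW b) → ℂ) (c : ZZ (tyW b) → ℝ) (hn : ¬ nbH b R h) :
    zN b R zs z c (.inl (.inl h)) = z (.inl (.inl h)) := if_neg hn

theorem zN_m (b : Fin (M + 1) → ℤ) (R : Finset (DD (tyW b)))
    (zs z : DD (tyW b) ⊕ ZZ (tyW b) → ℂ) (c : ZZ (tyW b) → ℝ)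
    (m : {i : Fin (M + 1) // (tyW b i).isMid = true}) (hn : nbM b R m.1 ∨ mvM b R z m) :
    zN b R zs z c (.inl (.inr m)) =
      ⟨tmt b R m.1 fun h => (z (.inl (.inl h))).re, (zs (.inl (.inr m))).im⟩ := if_pos hn

theorem zN_m' (b : Fin (M + 1) → ℤ) (R : Finset (DD (tyW b)))
    (zs z : DD (tyW b) ⊕ ZZ (tyW b) → ℂ) (c : ZZ (tyW b) → ℝ)
    (m : {i : Fin (M + 1) // (tyW b i).isMid = true}) (hn : ¬ (nbM b R m.1 ∨ mvM b R z m)) :
    zN b R zs z c (.inl (.inr m)) = z (.inl (.inr m)) := if_neg hn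

theorem zN_z (b : Fin (M + 1) → ℤ) (R : Finset (DD (tyW b)))
    (zs z : DD (tyW b) ⊕ ZZ (tyW b) → ℂ) (c : ZZ (tyW b) → ℝ) (v : ZZ (tyW b))
    (hn : Tch b R v.1) :
    zN b R zs z c (.inr v) = ⟨ofs (b v.1) (c v), (zs (.inr v)).im⟩ := if_pos hn

theorem zN_z' (b : Fin (M + 1) → ℤ) (R : Finset (DD (tyW b)))
    (zs z : DD (tyW b) ⊕ ZZ (tyW b) → ℂ) (c : ZZ (tyW b) → ℝ) (v : ZZ (tyW b))
    (hn : ¬ Tch b R v.1) :
    zN b R zs z c (.inr v) = z (.inr v) := if_neg hn

theorem Oh_new (hn : nbH b R h) (c : ZZ (tyW b) → ℝ) : Oh b (zN b R zs z c) i h =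
    ⟨tgt b R h (z (.inl (.inl h))).re, Th b zs h i⟩ := by
  unfold Oh
  rw [zN_h b R zs z c hn]
  apply Complex.ext
  · rw [ofr_re]
  · rw [ofr_im]
    rfl

theorem Om_new (m : {i : Fin (M + 1) // (tyW b i).isMid = true}) (hn : nbM b R m.1)
    (c : ZZ (tyW b) → ℝ) : Om b (zN b R zs z c) m =
    ⟨tmt b R m.1 fun h => (z (.inl (.inl h))).re, SR.Tm b zs m⟩ := by
  unfold Om
  rw [zN_m b R zs z c m (Or.inl hn)]
  apply Complex.ext
  · rw [ofr_re]
  · rw [ofr_im]
    rfl

theorem ofs_ofs' (d : ℤ) (x : ℝ) : ofs d (ofs d x) = x := by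
  unfold ofs
  split_ifs <;> ring

theorem Oz_new (v : ZZ (tyW b)) (hi : Tch b R v.1) (c : ZZ (tyW b) → ℝ) :
    Oz b (zN b R zs z c) v = ⟨c v, (zs (.inr v)).im⟩ := by
  unfold Oz
  rw [zN_z b R zs z c v hi]
  apply Complex.ext
  · rw [ofz_re]
    exact ofs_ofs' _ _
  · rw [ofz_im]

open Classical in
theorem tmt_threeE (A : Adj h i p j) (hc : clsW b i = .threeE) (x : Fin M → ℝ) :
    tmt b R i x = tgt b R h (x h) +
      (if Tch b R i ∧ ¬ hT b R i then dE (kb b R j p.rev) else 1 / 6) := by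
  have hx : ∃ (h : Fin M) (q : Fin 3 × Fin (M + 1)), Adj h i q.1 q.2 := ⟨h, (p, j), A⟩
  have hsp := hx.choose_spec.choose_spec
  have e1 : hx.choose_spec.choose.1 = p := (A.slot_end hsp (clsW_end (Or.inr hc))).symm
  have A2 := hsp
  rw [e1] at A2
  obtain ⟨e2, e3⟩ := adj_uniq A2 A
  unfold tmt
  rw [if_pos hc, dif_pos hx, e1, e3, e2]

open Classical in
theorem tmt_three (hc : clsW b i = .three) (x : Fin M → ℝ) :
    tmt b R i x = if Tch b R i then (if hT b R i then 42 / 100 else 9 / 20) else 1 / 4 := by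
  have h0 : ¬ clsW b i = .threeE := by
    rw [hc]
    decide
  unfold tmt
  rw [if_neg h0]

/-! ### positions -/

theorem nbH_mem (hn : nbH b R h) : Sum.inl (Sum.inl h) ∈ nbT b R := by
  rcases hn with h1 | h1
  · exact (nbT_ok b R).mem h1 (Adj.l (h := h)).cf_ne
  · exact (nbT_ok b R).mem h1 (Adj.r (h := h)).cf_ne

theorem nbH_of_mem (hn : Sum.inl (Sum.inl h) ∈ nbT b R) : nbH b R h := by
  obtain ⟨m, hm, q, hq⟩ := (nbT_ok b R).conv_hinge hn
  rcases cf_hinge_ne hq with ⟨rfl, -⟩ | ⟨rfl, -⟩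
  · exact Or.inl hm
  · exact Or.inr hm

theorem cf_mid_ne (m : {i : Fin (M + 1) // (tyW b i).isMid = true}) :
    cf (tyW b) m.1 1 (.inl (.inr m)) ≠ 0 := by simp [cf]

theorem nbM_mem {m : {i : Fin (M + 1) // (tyW b i).isMid = true}} (hn : nbM b R m.1) :
    Sum.inl (Sum.inr m) ∈ nbT b R := by
  rcases hn with h1 | ⟨h1, h, p, j, A, h2⟩
  · exact (nbT_ok b R).mem h1 (cf_mid_ne m)
  · exact (nbT_ok b R).endM _ ⟨m, rfl, h1, h, p, j, A, h2⟩

theorem nbM_of_mem {m : {i : Fin (M + 1) // (tyW b i).isMid = true}}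
    (hn : Sum.inl (Sum.inr m) ∈ nbT b R) : nbM b R m.1 := by
  rcases (nbT_ok b R).conv _ hn with ⟨m', hm, q, hq⟩ | ⟨m', e, h1, h2⟩
  · exact Or.inl (cf_inner_ne hq ▸ hm)
  · have e' : m = m' := by simpa using e
    subst e'
    exact Or.inr ⟨h1, h2⟩

theorem cf_ring_ne {v : ZZ (tyW b)} {k : Fin (M + 1)} {q : Fin 3}
    (h0 : cf (tyW b) k q (.inr v) ≠ 0) : v.1 = k := by
  by_contra hc
  simp [cf, hc] at h0

theorem tch_ring_iff (v : ZZ (tyW b)) : Sum.inr v ∈ nbT b R ↔ Tch b R v.1 := by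
  constructor
  · intro hn
    obtain ⟨m, hm, q, hq⟩ := (nbT_ok b R).conv_ring hn
    exact cf_ring_ne hq ▸ hm
  · intro h1
    refine (nbT_ok b R).mem h1 (q := 1) ?_
    simp [cf]

/-- the regions of a hinge in the tail are touched -/
theorem isT_tch (A : Adj h i p j) (ht : isT b R h) : Tch b R i := ⟨_, ht, p, A.cf_ne⟩

theorem isT_nb (ht : isT b R h) : nbH b R h := Or.inl (isT_tch (Adj.l (h := h)) ht)

theorem hT_tch (hi : hT b R i) : Tch b R i := by
  obtain ⟨h, p, j, A, ht⟩ := hi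
  exact isT_tch A ht

/-- an untouched region has no hinge in the tail -/
theorem not_isT (A : Adj h i p j) (hi : ¬ Tch b R i) : ¬ isT b R h := fun ht => hi (isT_tch A ht)

/-- what touches a region -/
theorem tch_iff : Tch b R i ↔ hT b R i ∨
    ∃ m : {i : Fin (M + 1) // (tyW b i).isMid = true}, m.1 = i ∧ (Sum.inr m : DD (tyW b)) ∈ R := by
  constructor
  · rintro ⟨d, hd, q, hq⟩
    rcases d with h | m
    · left
      obtain ⟨k, A⟩ := adj_of_cf hq
      exact ⟨h, q, k, A, hd⟩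
    · right
      exact ⟨m, cf_inner_ne hq, hd⟩
  · rintro (h1 | ⟨m, rfl, hm⟩)
    · exact hT_tch h1
    · exact ⟨_, hm, 1, cf_mid_ne m⟩

theorem Tl.tail (H : Tl b zs R z) (ht : isT b R h) :
    (z (.inl (.inl h))).im = 0 ∧ wXM b h ≤ (z (.inl (.inl h))).re ∧ (z (.inl (.inl h))).re ≤ 1 := by
  obtain ⟨e1, e2, e3, -⟩ := H.mx.adm.tail _ ht
  exact ⟨e1, e2, e3⟩

theorem Tl.real (H : Tl b zs R z) (hn : nbH b R h) (ht : ¬ isT b R h) :
    (z (.inl (.inl h))).im = 0 ∧ 0 ≤ (z (.inl (.inl h))).re ∧ (z (.inl (.inl h))).re ≤ wXM b h := by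
  obtain ⟨e1, e2, e3, -⟩ := H.mx.adm.reD _ ht (nbH_mem hn)
  exact ⟨e1, e2, e3⟩

/-- a real hinge, in the tail or not -/
theorem Tl.re_mem (H : Tl b zs R z) (hn : nbH b R h) :
    (z (.inl (.inl h))).im = 0 ∧ 0 ≤ (z (.inl (.inl h))).re ∧ (z (.inl (.inl h))).re ≤ 1 := by
  have hX := par1_good b (.inl h)
  have h1 : wXM b h = (par1 b (.inl h)).XM := rfl
  by_cases ht : isT b R h
  · obtain ⟨e1, e2, e3⟩ := H.tail ht
    exact ⟨e1, by linarith only [hX, h1, e2, hX.1, hX.2.1, hX.2.2.1], e3⟩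
  · obtain ⟨e1, e2, e3⟩ := H.real hn ht
    exact ⟨e1, e2, by linarith only [hX, h1, e3, hX.2.2.2]⟩

/-- a discrete variable which is not real is on its main path -/
theorem Tl.path0 (H : Tl b zs R z) {d : DD (tyW b)} (hn : Sum.inl d ∉ nbT b R) :
    0 ≤ (z (.inl d)).re ∧ (z (.inl d)).re ≤ (wpar b zs).XM d ∧
    (z (.inl d)).im = (zs (.inl d)).im * tr 0 ((wpar b zs).XM d) ((wpar b zs).cl d)
      ((wpar b zs).cr d) (z (.inl d)).re := by
  obtain ⟨x, h0, h1, h2⟩ := H.mx.adm.onD d hn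
  have hu : 0 < (wparM b zs).hu d := (mh_pos (b := b) (zs := zs) d).1
  have hd : 0 < (wparM b zs).hd d := (mh_pos (b := b) (zs := zs) d).2
  have e : ∀ {H t : ℝ}, 0 = H * t → H ≠ 0 → t = 0 := by
    intro H t h3 h4
    rcases mul_eq_zero.1 h3.symm with h5 | h5
    · exact absurd h5 h4
    · exact h5
  rcases h2 with ⟨e1, -⟩ | ⟨e1, e2⟩ | ⟨e1, e2⟩
  · rw [e1, ptm_re, ptm_im]
    exact ⟨h0, h1, rfl⟩
  · have h3 := e e2 hu.ne'
    rw [e1, ptm_re, ptm_im, h3, mul_zero]
    refine ⟨h0, h1, ?_⟩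
    have h4 : tr 0 ((wpar b zs).XM d) ((wpar b zs).cl d) ((wpar b zs).cr d) x = 0 := h3
    rw [h4, mul_zero]
  · have h3 := e e2 hd.ne'
    rw [e1, ptm_re, ptm_im, h3, mul_zero]
    refine ⟨h0, h1, ?_⟩
    have h4 : tr 0 ((wpar b zs).XM d) ((wpar b zs).cl d) ((wpar b zs).cr d) x = 0 := h3
    rw [h4, mul_zero]

theorem Tl.path (H : Tl b zs R z) (hn : ¬ nbH b R h) :
    0 ≤ (z (.inl (.inl h))).re ∧ (z (.inl (.inl h))).re ≤ wXM b h ∧
    (z (.inl (.inl h))).im = (zs (.inl (.inl h))).im * trh b h (z (.inl (.inl h))).re :=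
  H.path0 fun hc => hn (nbH_of_mem hc)

theorem Tl.mtail (H : Tl b zs R z) {m : {i : Fin (M + 1) // (tyW b i).isMid = true}}
    (ht : (Sum.inr m : DD (tyW b)) ∈ R) :
    (z (.inl (.inr m))).im = 0 ∧ (mp (clsW b m.1)).XM ≤ (z (.inl (.inr m))).re ∧
      (z (.inl (.inr m))).re ≤ 1 := by
  obtain ⟨e1, e2, e3, -⟩ := H.mx.adm.tail _ ht
  exact ⟨e1, e2, e3⟩

theorem Tl.mreal (H : Tl b zs R z) {m : {i : Fin (M + 1) // (tyW b i).isMid = true}}
    (hn : nbM b R m.1) : (z (.inl (.inr m))).im = 0 ∧ 0 ≤ (z (.inl (.inr m))).re ∧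
      (z (.inl (.inr m))).re ≤ 1 := by
  have hX := mp_good (clsW b m.1)
  by_cases ht : (Sum.inr m : DD (tyW b)) ∈ R
  · obtain ⟨e1, e2, e3⟩ := H.mtail ht
    exact ⟨e1, by linarith only [hX, e2, hX.1, hX.2.1, hX.2.2.1], e3⟩
  · obtain ⟨e1, e2, e3, -⟩ := H.mx.adm.reD _ ht (nbM_mem hn)
    have e4 : (z (.inl (.inr m))).re ≤ (mp (clsW b m.1)).XM := e3
    exact ⟨e1, e2, by linarith only [hX, e4, hX.2.2.2]⟩

theorem Tl.mpath (H : Tl b zs R z) {m : {i : Fin (M + 1) // (tyW b i).isMid = true}}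
    (hn : ¬ nbM b R m.1) : 0 ≤ (z (.inl (.inr m))).re ∧
      (z (.inl (.inr m))).re ≤ (mp (clsW b m.1)).XM ∧
      (z (.inl (.inr m))).im = (zs (.inl (.inr m))).im * trm b m (z (.inl (.inr m))).re :=
  H.path0 fun hc => hn (nbM_of_mem hc)

/-- position `X` of the other hinge `h'` of an untouched region `j` while its hinge `h` is moved, in
the own frame of `j`: on its path, real (old position), or already at its target -/
inductive OPos (b : Fin (M + 1) → ℤ) (zs : DD (tyW b) ⊕ ZZ (tyW b) → ℂ) (R : Finset (DD (tyW b)))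
    (z : DD (tyW b) ⊕ ZZ (tyW b) → ℂ) (h' : Fin M) (j : Fin (M + 1)) : ℂ → Prop
  | path (hn : ¬ nbH b R h') : OPos b zs R z h' j
      ⟨(z (.inl (.inl h'))).re, Th b zs h' j * trh b h' (z (.inl (.inl h'))).re⟩
  | real (hn : nbH b R h') : OPos b zs R z h' j ⟨(z (.inl (.inl h'))).re, 0⟩
  | new (hn : nbH b R h') : OPos b zs R z h' j
      ⟨tgt b R h' (z (.inl (.inl h'))).re, Th b zs h' j⟩

theorem Tl.Oh_nb (H : Tl b zs R z) (hn : nbH b R h) (i : Fin (M + 1)) :
    Oh b z i h = ⟨(z (.inl (.inl h))).re, 0⟩ := Oh_real i (H.re_mem hn).1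

theorem Tl.Oh_pt (H : Tl b zs R z) (hn : ¬ nbH b R h) (i : Fin (M + 1)) :
    Oh b z i h = ⟨(z (.inl (.inl h))).re, Th b zs h i * trh b h (z (.inl (.inl h))).re⟩ := by
  obtain ⟨-, -, e⟩ := H.path hn
  apply Complex.ext
  · exact Oh_re b z i h
  · rw [Oh_im, e, ofs_mulR]
    rfl

theorem Tl.opos_old (H : Tl b zs R z) (h' : Fin M) (j : Fin (M + 1)) :
    OPos b zs R z h' j (Oh b z j h') := by
  by_cases hn : nbH b R h'
  · rw [H.Oh_nb hn]
    exact .real hn
  · rw [H.Oh_pt hn]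
    exact .path hn

theorem Oh_congr {z1 z2 : DD (tyW b) ⊕ ZZ (tyW b) → ℂ} (i : Fin (M + 1))
    (e : z1 (.inl (.inl h)) = z2 (.inl (.inl h))) : Oh b z1 i h = Oh b z2 i h := by
  unfold Oh
  rw [e]

theorem Tl.opos_new (H : Tl b zs R z) (h' : Fin M) (j : Fin (M + 1)) (c : ZZ (tyW b) → ℝ) :
    OPos b zs R z h' j (Oh b (zN b R zs z c) j h') := by
  by_cases hn : nbH b R h'
  · rw [Oh_new hn]
    exact .new hn
  · rw [Oh_congr j (zN_h' b R zs z c hn), H.Oh_pt hn]
    exact .path hn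

/-! ### the two steps at an untouched region -/

theorem zH_r (hs : h.succ = j) : zH b R zs z j (.inl (.inl h)) = zN b R zs z 0 (.inl (.inl h)) :=
  if_pos hs

theorem zH_l (hs : h.succ ≠ j) : zH b R zs z j (.inl (.inl h)) = z (.inl (.inl h)) :=
  if_neg hs

theorem zH_z (j : Fin (M + 1)) (v : ZZ (tyW b)) : zH b R zs z j (.inr v) = z (.inr v) := rfl

theorem zH_m {m : {i : Fin (M + 1) // (tyW b i).isMid = true}} (hm : m.1 = j) (h0 : j ≠ 0) :
    zH b R zs z j (.inl (.inr m)) = zN b R zs z 0 (.inl (.inr m)) := if_pos ⟨hm, h0⟩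

theorem zH_m' (m : {i : Fin (M + 1) // (tyW b i).isMid = true}) :
    zH b R zs z 0 (.inl (.inr m)) = z (.inl (.inr m)) := if_neg fun hc => hc.2 rfl

/-- the base point and the moved point of the step of the slot `q` -/
noncomputable def Zb (b : Fin (M + 1) → ℤ) (R : Finset (DD (tyW b)))
    (zs z : DD (tyW b) ⊕ ZZ (tyW b) → ℂ) (j : Fin (M + 1)) (q : Fin 3) :
    DD (tyW b) ⊕ ZZ (tyW b) → ℂ := if q = 0 then z else zH b R zs z j

noncomputable def Zm (b : Fin (M + 1) → ℤ) (R : Finset (DD (tyW b)))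
    (zs z : DD (tyW b) ⊕ ZZ (tyW b) → ℂ) (j : Fin (M + 1)) (q : Fin 3) :
    DD (tyW b) ⊕ ZZ (tyW b) → ℂ := if q = 0 then zH b R zs z j else zN b R zs z 0

theorem pc_eq (j : Fin (M + 1)) (q : Fin 3) :
    pc b R zs z j q = Vr b (Zm b R zs z j q) j - Vr b (Zb b R zs z j q) j := by
  unfold pc Zm Zb
  split_ifs <;> rfl

/-- the hinge which is moved -/
theorem Tl.Zb_h (H : Tl b zs R z) (A : Adj h j q i) (hn : nbH b R h) :
    Oh b (Zb b R zs z j q) j h = ⟨(z (.inl (.inl h))).re, 0⟩ := by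
  rw [← H.Oh_nb hn j]
  apply Oh_congr
  unfold Zb
  rcases A.slot with rfl | rfl
  · rw [if_pos rfl]
  · rw [if_neg (by decide), zH_l]
    obtain ⟨e1, -⟩ := adj_l A
    rw [← e1]
    exact (Fin.castSucc_lt_succ (i := h)).ne'

theorem Zm_h (A : Adj h j q i) (hn : nbH b R h) :
    Oh b (Zm b R zs z j q) j h = ⟨tgt b R h (z (.inl (.inl h))).re, Th b zs h j⟩ := by
  rw [← Oh_new (zs := zs) (z := z) (i := j) hn 0]
  apply Oh_congr
  unfold Zm
  rcases A.slot with rfl | rfl
  · rw [if_pos rfl, zH_r]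
    exact (adj_r A).1
  · rw [if_neg (by decide)]

/-- the other hinge -/
theorem Z_o (A' : Adj h' j q.rev k) :
    Oh b (Zm b R zs z j q) j h' = Oh b (Zb b R zs z j q) j h' := by
  apply Oh_congr
  unfold Zm Zb
  rcases A'.slot with hq | hq
  · have hq' : q = 2 := rev_eq0 _ hq
    subst hq'
    rw [if_neg (by decide), if_neg (by decide), zH_r]
    exact (adj_r A').1
  · have hq' : q = 0 := rev_eq2 _ hq
    subst hq'
    rw [if_pos rfl, if_pos rfl, zH_l]
    obtain ⟨e1, -⟩ := adj_l A'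
    rw [← e1]
    exact (Fin.castSucc_lt_succ (i := h')).ne'

theorem Tl.Zb_o (H : Tl b zs R z) (A' : Adj h' j q.rev k) :
    OPos b zs R z h' j (Oh b (Zb b R zs z j q) j h') := by
  have h1 := H.opos_old h' j
  have h2 := H.opos_new h' j 0
  unfold Zb
  split_ifs with hq
  · exact h1
  · by_cases hs : h'.succ = j
    · rw [Oh_congr j (zH_r hs)]
      exact h2
    · rw [Oh_congr j (zH_l hs)]
      exact h1

theorem Z_z (v : ZZ (tyW b)) (hj : ¬ Tch b R v.1) (j : Fin (M + 1)) (q : Fin 3) :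
    Zb b R zs z j q (.inr v) = z (.inr v) ∧ Zm b R zs z j q (.inr v) = z (.inr v) := by
  unfold Zb Zm
  split_ifs
  · exact ⟨rfl, rfl⟩
  · exact ⟨rfl, zN_z' b R zs z 0 v hj⟩

theorem pc_one (H : Tl b zs R z) (A : Adj h j q i) (A' : Adj h' j q.rev k) (hi : Tch b R i)
    (hj : ¬ Tch b R j) (hc : clsW b j = .one) : ∃ X, OPos b zs R z h' j X ∧
      pc b R zs z j q = V1 ⟨tgt b R h (z (.inl (.inl h))).re, Th b zs h j⟩ X -
        V1 ⟨(z (.inl (.inl h))).re, 0⟩ X := by
  have hn : nbH b R h := (nbH_iff A).2 (Or.inr hi)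
  refine ⟨_, H.Zb_o A', ?_⟩
  rw [pc_eq, A.Vr_one A' H.hb hc, A.Vr_one A' H.hb hc, Zm_h A hn, H.Zb_h A hn, Z_o A']

theorem pc_two (H : Tl b zs R z) (A : Adj h j q i) (A' : Adj h' j q.rev k) (hi : Tch b R i)
    (hj : ¬ Tch b R j) (hc : clsW b j = .two) : ∃ X, OPos b zs R z h' j X ∧
      pc b R zs z j q = V2 ⟨tgt b R h (z (.inl (.inl h))).re, Th b zs h j⟩ X -
        V2 ⟨(z (.inl (.inl h))).re, 0⟩ X := by
  have hn : nbH b R h := (nbH_iff A).2 (Or.inr hi)
  refine ⟨_, H.Zb_o A', ?_⟩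
  rw [pc_eq, A.Vr_two A' H.hb hc, A.Vr_two A' H.hb hc, Zm_h A hn, H.Zb_h A hn, Z_o A']

theorem pc_twoE (H : Tl b zs R z) (A : Adj h j q i) (hi : Tch b R i) (hj : ¬ Tch b R j)
    (hc : clsW b j = .twoE) :
      pc b R zs z j q = V2 ⟨tgt b R h (z (.inl (.inl h))).re, Th b zs h j⟩ 0 -
        V2 ⟨(z (.inl (.inl h))).re, 0⟩ 0 := by
  have hn : nbH b R h := (nbH_iff A).2 (Or.inr hi)
  rw [pc_eq, A.Vr_twoE H.hb hc, A.Vr_twoE H.hb hc, Zm_h A hn, H.Zb_h A hn]

theorem pc_ring (H : Tl b zs R z) (A : Adj h j q i) (hi : Tch b R i) (hj : ¬ Tch b R j)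
    (v : ZZ (tyW b)) (hv : v.1 = j) :
      pc b R zs z j q = fR ⟨tgt b R h (z (.inl (.inl h))).re, Th b zs h j⟩ (Oz b z v) -
        fR ⟨(z (.inl (.inl h))).re, 0⟩ (Oz b z v) := by
  subst hv
  have hn : nbH b R h := (nbH_iff A).2 (Or.inr hi)
  have hc : clsW b v.1 = .ring := by
    by_contra hc
    exact ring_ne hc v rfl
  obtain ⟨e1, e2⟩ := Z_z (zs := zs) (z := z) v hj v.1 q
  have e3 : Oz b (Zb b R zs z v.1 q) v = Oz b z v := by unfold Oz; rw [e1]
  have e4 : Oz b (Zm b R zs z v.1 q) v = Oz b z v := by unfold Oz; rw [e2]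
  rw [pc_eq]
  rcases A.other b zs (fun _ => 0) with ⟨he, -⟩ | ⟨-, h', k, A'⟩
  · rw [A.Vr_ringE v he H.hb hc, A.Vr_ringE v he H.hb hc, Zm_h A hn, H.Zb_h A hn, e3, e4]
    unfold VR fR
    ring
  · rw [A.Vr_ring v A' H.hb hc, A.Vr_ring v A' H.hb hc, Zm_h A hn, H.Zb_h A hn, Z_o A', e3, e4]
    unfold VR fR
    ring

/-! ### regions with three crossings -/

theorem Om_congr {z1 z2 : DD (tyW b) ⊕ ZZ (tyW b) → ℂ}
    (m : {i : Fin (M + 1) // (tyW b i).isMid = true})
    (e : z1 (.inl (.inr m)) = z2 (.inl (.inr m))) : Om b z1 m = Om b z2 m := by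
  unfold Om
  rw [e]

theorem Tl.Om_pt (H : Tl b zs R z) {m : {i : Fin (M + 1) // (tyW b i).isMid = true}}
    (hn : ¬ nbM b R m.1) :
    Om b z m = ⟨(z (.inl (.inr m))).re, SR.Tm b zs m * trm b m (z (.inl (.inr m))).re⟩ := by
  obtain ⟨-, -, e⟩ := H.mpath hn
  apply Complex.ext
  · unfold Om
    rw [ofr_re]
  · unfold Om
    rw [ofr_im, e, ofs_mulR]
    rfl

theorem Tl.Om_re (H : Tl b zs R z) {m : {i : Fin (M + 1) // (tyW b i).isMid = true}}
    (hn : nbM b R m.1) : Om b z m = ⟨(z (.inl (.inr m))).re, 0⟩ := by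
  obtain ⟨e, -, -⟩ := H.mreal hn
  apply Complex.ext
  · unfold Om
    rw [ofr_re]
  · unfold Om
    rw [ofr_im, e]
    unfold ofs
    split_ifs <;> simp

theorem not_nbM (hj : ¬ Tch b R j) (hc : clsW b j = .three) : ¬ nbM b R j := by
  rintro (h1 | ⟨h1, -⟩)
  · exact hj h1
  · rw [hc] at h1
    exact absurd h1 (by decide)

/-- the new inner variable of an untouched interior region with three crossings -/
theorem Tl.Om_mv (H : Tl b zs R z) {m : {i : Fin (M + 1) // (tyW b i).isMid = true}}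
    (hj : ¬ Tch b R m.1) (hc : clsW b m.1 = .three) :
    (mvM b R z m ∧ Om b (zN b R zs z 0) m = ⟨1 / 4, SR.Tm b zs m⟩) ∨
    (¬ mvM b R z m ∧ Om b (zN b R zs z 0) m = Om b z m) := by
  by_cases hm : mvM b R z m
  · left
    refine ⟨hm, ?_⟩
    unfold Om
    rw [zN_m b R zs z 0 m (Or.inr hm), tmt_three hc, if_neg hj]
    apply Complex.ext
    · rw [ofr_re]
    · rw [ofr_im]
      rfl
  · right
    refine ⟨hm, Om_congr m (zN_m' b R zs z 0 m ?_)⟩
    rintro (h1 | h1)
    · exact not_nbM hj hc h1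
    · exact hm h1

/-- slot `0` of an interior three -/
theorem pc_three0 (H : Tl b zs R z) (A : Adj h j 0 i) (A' : Adj h' j 2 k) (hi : Tch b R i)
    (hj : ¬ Tch b R j) (hc : clsW b j = .three) (m : {i : Fin (M + 1) // (tyW b i).isMid = true})
    (hm : m.1 = j) : ∃ X, ((¬ nbH b R h' ∧ X = ⟨(z (.inl (.inl h'))).re,
        Th b zs h' j * trh b h' (z (.inl (.inl h'))).re⟩) ∨
        (nbH b R h' ∧ X = ⟨(z (.inl (.inl h'))).re, 0⟩)) ∧
      ((2 / 10 ≤ (z (.inl (.inr m))).re ∧
        pc b R zs z j 0 = V3 ⟨tgt b R h (z (.inl (.inl h))).re, Th b zs h j⟩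
            ⟨(z (.inl (.inr m))).re, SR.Tm b zs m * trm b m (z (.inl (.inr m))).re⟩ X -
          V3 ⟨(z (.inl (.inl h))).re, 0⟩
            ⟨(z (.inl (.inr m))).re, SR.Tm b zs m * trm b m (z (.inl (.inr m))).re⟩ X) ∨
       ((z (.inl (.inr m))).re < 2 / 10 ∧
        pc b R zs z j 0 = V3 ⟨tgt b R h (z (.inl (.inl h))).re, Th b zs h j⟩
            ⟨1 / 4, SR.Tm b zs m⟩ X -
          V3 ⟨(z (.inl (.inl h))).re, 0⟩
            ⟨(z (.inl (.inr m))).re, SR.Tm b zs m * trm b m (z (.inl (.inr m))).re⟩ X)) := by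
  subst hm
  have hn : nbH b R h := (nbH_iff A).2 (Or.inr hi)
  have hn3 := not_nbM hj hc
  have hj0 : m.1 ≠ 0 := by
    rw [← (adj_r A).1]
    exact Fin.succ_ne_zero h
  refine ⟨Oh b z m.1 h', ?_, ?_⟩
  · by_cases hn' : nbH b R h'
    · exact Or.inr ⟨hn', H.Oh_nb hn' _⟩
    · exact Or.inl ⟨hn', H.Oh_pt hn' _⟩
  have e0 : pc b R zs z m.1 0 = Vr b (zH b R zs z m.1) m.1 - Vr b z m.1 := if_pos rfl
  have e1 : Oh b (zH b R zs z m.1) m.1 h = ⟨tgt b R h (z (.inl (.inl h))).re, Th b zs h m.1⟩ := by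
    rw [Oh_congr m.1 (zH_r (adj_r A).1), Oh_new hn]
  have e2 : Oh b (zH b R zs z m.1) m.1 h' = Oh b z m.1 h' := by
    apply Oh_congr
    apply zH_l
    obtain ⟨e1, -⟩ := adj_l A'
    rw [← e1]
    exact (Fin.castSucc_lt_succ (i := h')).ne'
  have e3 : Om b (zH b R zs z m.1) m = Om b (zN b R zs z 0) m := Om_congr m (zH_m rfl hj0)
  have hme : (⟨m.1, tyW_isMid (Or.inl hc)⟩ : {i : Fin (M + 1) // (tyW b i).isMid = true}) = m := rfl
  rw [e0, A.Vr_three A' H.hb hc, A.Vr_three A' H.hb hc, hme, e1, e2, e3, H.Oh_nb hn, H.Om_pt hn3]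
  rcases H.Om_mv hj hc with ⟨h1, h2⟩ | ⟨h1, h2⟩
  · right
    rw [h2]
    exact ⟨h1.2, rfl⟩
  · left
    rw [h2, H.Om_pt hn3]
    refine ⟨?_, rfl⟩
    by_contra hlt
    exact h1 ⟨⟨h, i, A, hn⟩, not_le.1 hlt⟩

theorem V3_sub2 (u l w w' : ℂ) : V3 u l w - V3 u l w' = V2 w l - V2 w' l := by
  have e1 : UU (l + w) = UU (w + l) := by rw [add_comm]
  have e2 : UU (l + w') = UU (w' + l) := by rw [add_comm]
  unfold V3 V2
  rw [e1, e2]
  simp only [Complex.sub_im, Complex.add_im, Complex.mul_im, pow_two, Complex.sub_re,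
    Complex.add_re, Complex.mul_re, Complex.re_ofNat, Complex.im_ofNat]
  ring

theorem trm_flat (m : {i : Fin (M + 1) // (tyW b i).isMid = true}) {x : ℝ}
    (h0 : (mp (clsW b m.1)).cl ≤ x) (h1 : x ≤ (mp (clsW b m.1)).XM - (mp (clsW b m.1)).cr) :
    trm b m x = 1 := by
  have hg := mp_good (clsW b m.1)
  unfold trm tr
  have h2 : 1 ≤ (x - 0) / (mp (clsW b m.1)).cl := by
    rw [le_div_iff₀ hg.1]
    linarith only [h0]
  have h3 : 1 ≤ ((mp (clsW b m.1)).XM - x) / (mp (clsW b m.1)).cr := by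
    rw [le_div_iff₀ hg.2.1]
    linarith only [h1]
  rw [min_eq_left (le_min h2 h3)]
  norm_num

/-- slot `2` of an interior three -/
theorem pc_three2 (H : Tl b zs R z) (A : Adj h j 2 i) (A' : Adj h' j 0 k) (hi : Tch b R i)
    (hj : ¬ Tch b R j) (hc : clsW b j = .three) (m : {i : Fin (M + 1) // (tyW b i).isMid = true})
    (hm : m.1 = j) : ∃ X, (∃ x : ℝ, 0 ≤ x ∧ x ≤ 8 / 10 ∧ X = ⟨x, SR.Tm b zs m * trm b m x⟩) ∧
      pc b R zs z j 2 = V2 ⟨tgt b R h (z (.inl (.inl h))).re, Th b zs h j⟩ X -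
        V2 ⟨(z (.inl (.inl h))).re, 0⟩ X := by
  subst hm
  have hn : nbH b R h := (nbH_iff A).2 (Or.inr hi)
  have hn3 := not_nbM hj hc
  have hmp : (mp (clsW b m.1)) = ⟨8 / 10, 5 / 100, 5 / 100⟩ := by rw [hc]; rfl
  have hj0 : m.1 ≠ 0 := by
    rw [← (adj_r A').1]
    exact Fin.succ_ne_zero h'
  refine ⟨Om b (zN b R zs z 0) m, ?_, ?_⟩
  · rcases H.Om_mv hj hc with ⟨h1, h2⟩ | ⟨h1, h2⟩
    · refine ⟨1 / 4, by norm_num, by norm_num, ?_⟩
      rw [h2, trm_flat m (by rw [hmp]; norm_num) (by rw [hmp]; norm_num), mul_one]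
    · obtain ⟨e1, e2, -⟩ := H.mpath hn3
      rw [hmp] at e2
      refine ⟨(z (.inl (.inr m))).re, e1, e2, ?_⟩
      rw [h2, H.Om_pt hn3]
  have e0 : pc b R zs z m.1 2 = Vr b (zN b R zs z 0) m.1 - Vr b (zH b R zs z m.1) m.1 :=
    if_neg (by decide)
  have e1 : Oh b (zH b R zs z m.1) m.1 h = Oh b z m.1 h := by
    apply Oh_congr
    apply zH_l
    obtain ⟨e1, -⟩ := adj_l A
    rw [← e1]
    exact (Fin.castSucc_lt_succ (i := h)).ne'
  have e2 : Oh b (zH b R zs z m.1) m.1 h' = Oh b (zN b R zs z 0) m.1 h' :=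
    Oh_congr m.1 (zH_r (adj_r A').1)
  have e3 : Om b (zH b R zs z m.1) m = Om b (zN b R zs z 0) m := Om_congr m (zH_m rfl hj0)
  have hme : (⟨m.1, tyW_isMid (Or.inl hc)⟩ : {i : Fin (M + 1) // (tyW b i).isMid = true}) = m := rfl
  rw [e0, A'.Vr_three A H.hb hc, A'.Vr_three A H.hb hc, hme, e1, e2, e3, H.Oh_nb hn, Oh_new hn,
    V3_sub2]

theorem pc_threeE (H : Tl b zs R z) (A : Adj h j q i) (hi : Tch b R i) (hj : ¬ Tch b R j)
    (hc : clsW b j = .threeE) (m : {i : Fin (M + 1) // (tyW b i).isMid = true}) (hm : m.1 = j) :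
      pc b R zs z j q = V3 ⟨tgt b R h (z (.inl (.inl h))).re, Th b zs h j⟩
          ⟨tgt b R h (z (.inl (.inl h))).re + 1 / 6, SR.Tm b zs m⟩ 0 -
        V3 ⟨(z (.inl (.inl h))).re, 0⟩ ⟨(z (.inl (.inr m))).re, 0⟩ 0 := by
  subst hm
  have hn : nbH b R h := (nbH_iff A).2 (Or.inr hi)
  have hn3 : nbM b R m.1 := Or.inr ⟨hc, h, q, i, A, hi⟩
  have hme : (⟨m.1, tyW_isMid (Or.inr hc)⟩ : {i : Fin (M + 1) // (tyW b i).isMid = true}) = m := rfl
  have e1 : Om b (Zm b R zs z m.1 q) m =
      ⟨tgt b R h (z (.inl (.inl h))).re + 1 / 6, SR.Tm b zs m⟩ := by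
    have e2 : Om b (Zm b R zs z m.1 q) m = Om b (zN b R zs z 0) m := by
      apply Om_congr
      unfold Zm
      rcases A.slot with rfl | rfl
      · rw [if_pos rfl]
        apply zH_m rfl
        rw [← (adj_r A).1]
        exact Fin.succ_ne_zero h
      · rw [if_neg (by decide)]
    rw [e2, Om_new m hn3, tmt_threeE A hc, if_neg fun hc => hj hc.1]
  have e2 : Om b (Zb b R zs z m.1 q) m = ⟨(z (.inl (.inr m))).re, 0⟩ := by
    rw [← H.Om_re hn3]
    apply Om_congr
    unfold Zb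
    rcases A.slot with rfl | rfl
    · rw [if_pos rfl]
    · rw [if_neg (by decide)]
      have h0 : m.1 = 0 := by
        have he := clsW_end (Or.inr hc)
        unfold isEnd at he
        rcases of_decide_eq_true he with h1 | h1
        · exact h1
        · exfalso
          have h2 := (adj_l A).1
          rw [h1] at h2
          exact (Fin.castSucc_lt_last h).ne h2
      exact if_neg fun hc => hc.2 h0
  rw [pc_eq, A.Vr_threeE hc, A.Vr_threeE hc, hme, Zm_h A hn, H.Zb_h A hn, e1, e2]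

end TL

end Pool.Agent.Work.MP_b30479_gtS.G2

end

section

/-!
# Tails: windows and tools for the shares of the touched regions
-/

namespace Pool.Agent.Work.MP_b30479_gtS.G2

open Finset VOL Filter Topology SR

namespace TL

variable {M : ℕ} {b : Fin (M + 1) → ℤ} {zs z : DD (tyW b) ⊕ ZZ (tyW b) → ℂ}
variable {R : Finset (DD (tyW b))} {h h' : Fin M} {i j j' k : Fin (M + 1)} {p q : Fin 3}

theorem okp_big {A B : Cl} (h : ML.okp A B) : ¬ (big A ∧ big B) := by
  rintro ⟨h1, h2⟩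
  unfold ML.okp at h
  unfold big at h1 h2
  rcases A <;> rcases B <;> simp_all

/-- the two neighbours of a digit one are not both big -/
theorem Tl.not_big (H : Tl b zs R z) (A : Adj h i p j) (A' : Adj h' i p.rev j')
    (hc : clsW b i = .one) : ¬ (big (clsW b j) ∧ big (clsW b j')) :=
  okp_big (okp_of H.hb A A' hc)

/-- the sum of the shares of a region in terms of the slots `p`, `p.rev` -/
theorem sh_sum (A : Adj h i p j) : sh b R zs z i 0 + sh b R zs z i 2 =
    sh b R zs z i p + sh b R zs z i p.rev := by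
  rcases A.slot with rfl | rfl
  · rfl
  · exact add_comm _ _

/-- the target of a real hinge of a region (no ring) with a hinge in the tail -/
theorem tgt_cN (A : Adj h i p j) (hi : hT b R i) (ht : ¬ isT b R h) (hr : clsW b i ≠ .ring)
    (x : ℝ) : tgt b R h x = cN (kb b R j p.rev) := by
  rw [tgt_nb A (hT_tch hi) ht]
  unfold tgK
  rw [if_neg hr, if_pos hi]

/-- the target of a real hinge of a touched ring -/
theorem tgt_cZ (A : Adj h i p j) (hi : Tch b R i) (ht : ¬ isT b R h) (hr : clsW b i = .ring)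
    (x : ℝ) : tgt b R h x = cZ (kb b R j p.rev) := by
  rw [tgt_nb A hi ht]
  unfold tgK
  rw [if_pos hr]

/-- the target of a real hinge of a region touched only by its inner variable: slot `2` of an
interior three -/
theorem tgt_cW (A : Adj h i 2 j) (hi : Tch b R i) (hT' : ¬ hT b R i) (hc : clsW b i = .three)
    (x : ℝ) : tgt b R h x = cW (kb b R j 0) := by
  have ht : ¬ isT b R h := fun hh => hT' ⟨h, 2, j, A, hh⟩
  rw [tgt_nb A hi ht]
  unfold tgK
  rw [if_neg (by rw [hc]; decide), if_neg hT', if_pos ⟨hc, rfl⟩]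
  rfl

/-- the same, slot `0` of an interior three, and the hinge of a 3 at an end -/
theorem tgt_cU (A : Adj h i p j) (hi : Tch b R i) (hT' : ¬ hT b R i)
    (hc : (clsW b i = .three ∧ p = 0) ∨ clsW b i = .threeE)
    (x : ℝ) : tgt b R h x = cU (kb b R j p.rev) x := by
  have ht : ¬ isT b R h := fun hh => hT' ⟨h, p, j, A, hh⟩
  have hr : clsW b i ≠ .ring := by
    rcases hc with ⟨hc, -⟩ | hc <;> rw [hc] <;> decide
  have h2 : ¬ (clsW b i = .three ∧ p = 2) := by
    rintro ⟨h1, h2⟩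
    rcases hc with ⟨-, hc⟩ | hc
    · rw [hc] at h2
      exact absurd h2 (by decide)
    · rw [hc] at h1
      exact absurd h1 (by decide)
  rw [tgt_nb A hi ht]
  unfold tgK
  rw [if_neg hr, if_neg hT', if_neg h2]

/-- the height at a hinge `1 | 1` -/
theorem one_one_ge (H : Tl b zs R z) (A : Adj h i p j) (hi : clsW b i = .one)
    (hj : clsW b j = .one) : -(2 / 25) ≤ Th b zs h i := by
  have A1 := A.symm
  rcases A1.other b zs (fun _ => 0) with ⟨he, -⟩ | ⟨-, h2, k, A2⟩
  · rw [clsW_inner H.hb (Or.inl hj)] at he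
    exact absurd he (by decide)
  · have h3 := (H.L.X.win A1 A2 hj).2.1
    have h4 : ofs (b j) (zs (.inl (.inl h))).im = -Th b zs h i :=
      Th_opp H.hb A (Or.inl (by rw [hi]; decide))
    rw [h4, hi] at h3
    have h5 : (cw (clsW b k) .one).t1 ≤ 2 / 25 := by
      rcases clsW b k <;> simp only [cw] <;> norm_num
    linarith

/-- `LocX.win` -/
theorem Tl.win (H : Tl b zs R z) (A : Adj h i p j) (A' : Adj h' i p.rev j')
    (hc : clsW b i = .one) :
    (cw (clsW b j') (clsW b j)).t0 ≤ Th b zs h i ∧ Th b zs h i ≤ (cw (clsW b j') (clsW b j)).t1 ∧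
    (cw (clsW b j') (clsW b j)).s0 ≤ Th b zs h i + Th b zs h' i ∧
    Th b zs h i + Th b zs h' i ≤ (cw (clsW b j') (clsW b j)).s1 := H.L.X.win A A' hc

/-- the box of a hinge which is no hinge between rings -/
theorem Tl.box (H : Tl b zs R z) (A : Adj h i p j) (hr : clsW b i ≠ .ring ∨ clsW b j ≠ .ring) :
    (hbox (clsW b i) (clsW b j) false).t0 ≤ Th b zs h i ∧
      Th b zs h i ≤ (hbox (clsW b i) (clsW b j) false).t1 := by
  obtain ⟨-, -, h1, h2⟩ := A.box H.hb H.L.L
  rw [A.ss (A.opp H.hb hr)] at h1 h2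
  exact ⟨h1, h2⟩

/-- the window of the inner variable of an interior three -/
theorem Tl.mwin (H : Tl b zs R z) (m : {i : Fin (M + 1) // (tyW b i).isMid = true})
    (A : Adj h m.1 0 j) (A' : Adj h' m.1 2 k) (hc : clsW b m.1 = .three) :
    (mw (clsW b j) (clsW b k)).t0 ≤ SR.Tm b zs m ∧ SR.Tm b zs m ≤ (mw (clsW b j) (clsW b k)).t1 ∧
    (mw (clsW b j) (clsW b k)).s0 ≤ SR.Tm b zs m - Th b zs h m.1 ∧
    SR.Tm b zs m - Th b zs h m.1 ≤ (mw (clsW b j) (clsW b k)).s1 := H.L.X.mid m.2 A A' hc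

/-- the window of the inner variable of a three at an end -/
theorem Tl.mwinE (H : Tl b zs R z) (m : {i : Fin (M + 1) // (tyW b i).isMid = true})
    (hc : clsW b m.1 = .threeE) :
    -(45 / 1000) ≤ SR.Tm b zs m ∧ SR.Tm b zs m ≤ 59 / 1000 := by
  obtain ⟨-, -, h1, h2⟩ := H.L.L.midE m (clsW_end (Or.inr hc))
  rw [ofr_im] at h1 h2
  exact ⟨h1, h2⟩

/-- the start of a tail -/
theorem X0_le (A : Adj h i p j) : X0 (clsW b i) (clsW b j) ≤ wXM b h := by
  rw [A.XM_eq b]
  unfold hpp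
  rcases clsW b i <;> rcases clsW b j <;> simp only [X0] <;> split_ifs <;>
    simp only [hp, hp1] <;> (try split_ifs) <;> norm_num

/-- the end of the path of a hinge of a ring -/
theorem XM_ring (A : Adj h i p j) (hi : clsW b i = .ring) :
    wXM b h ≤ 65 / 100 ∧ (clsW b j ≠ .one → wXM b h ≤ 60 / 100) ∧
      (clsW b j = .ring → wXM b h ≤ 1 / 2) := by
  rw [A.XM_eq b, hi]
  unfold hpp
  rcases clsW b j <;> split_ifs <;> simp only [hp, hp1] <;> norm_num

end TL

end Pool.Agent.Work.MP_b30479_gtS.G2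

end

section

/-!
# Tails: the special hinges

A real hinge `k`, to the left of `1/20`, of an untouched digit one whose left neighbour is an
untouched interior three is special in the sense of `Spc`.
-/

namespace Pool.Agent.Work.MP_b30479_gtS.G2

open Finset VOL Filter Topology SR

namespace TL

variable {M : ℕ} {b : Fin (M + 1) → ℤ} {zs z : DD (tyW b) ⊕ ZZ (tyW b) → ℂ}
variable {R : Finset (DD (tyW b))} {h k : Fin M} {i j P : Fin (M + 1)}
variable {p : DD (tyW b) → ℝ}

/-- class of a region with an inner variable -/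
theorem mid_cls {i : Fin (M + 1)} (hm : (tyW b i).isMid = true) :
    clsW b i = .three ∨ clsW b i = .threeE := by
  have h3 : (b i).natAbs = 3 := by
    unfold tyW at hm
    split_ifs at hm with h1 h2 h3 h4
    · exact absurd hm (by decide)
    · exact absurd hm (by decide)
    · exact h3
    · exact h3
    · exact absurd hm (by decide)
  unfold clsW cls
  rw [if_neg (by omega), if_neg (by omega), if_pos h3]
  split_ifs
  · exact Or.inr rfl
  · exact Or.inl rfl

/-- the hinge `k` is special -/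
theorem spc_of (hb : ClassW b) (hM : MM b zs R (nbT b R) z p) (A : Adj h i 0 j)
    (hi : clsW b i = .one) (hj : clsW b j = .three) (hn : Sum.inl (Sum.inl h) ∉ nbT b R)
    (A' : Adj k i 2 P) (hk : Sum.inl (Sum.inl k) ∈ nbT b R)
    (hre : (z (.inl (.inl k))).re ≤ 1 / 20) : Spc b R z k := by
  have hni : ¬ Tch b R i := fun h0 => hn (nbH_mem ((nbH_iff A).2 (Or.inl h0)))
  have hnj : ¬ Tch b R j := fun h0 => hn (nbH_mem ((nbH_iff A).2 (Or.inr h0)))
  have hP : Tch b R P := ((nbH_iff A').1 (nbH_of_mem hk)).resolve_left hni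
  have hbig : ¬ (big (clsW b j) ∧ big (clsW b P)) := okp_big (okp_of hb A A' hi)
  have hcl : clsW b P = .one ∨ clsW b P = .two := by
    have hbj : big (clsW b j) := by rw [hj]; exact Or.inl rfl
    have hbP : ¬ big (clsW b P) := fun h0 => hbig ⟨hbj, h0⟩
    rcases hcP : clsW b P
    · exact Or.inl rfl
    · exact Or.inr rfl
    · exfalso
      rcases tch_iff.1 hP with ⟨g, q, m, B, hg⟩ | ⟨m, hm, -⟩
      · have he : isEnd P = true := clsW_end (Or.inl hcP)
        obtain rfl := B.slot_end A'.symm he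
        obtain ⟨rfl, rfl⟩ := adj_uniq B A'.symm
        have h1 := hM.tail_re hg
        have h2 := wXM_ge A'.symm (by rw [hcP]; decide)
        have h3 : wXM b g ≤ (z (.inl (.inl g))).re := h1
        linarith
      · have h3 := m.2
        rw [hm] at h3
        rcases mid_cls h3 with h4 | h4 <;> rw [hcP] at h4 <;> exact absurd h4 (by decide)
    · exact absurd (hcP ▸ Or.inl rfl) hbP
    · exact absurd (hcP ▸ Or.inr (Or.inl rfl)) hbP
    · exact absurd (hcP ▸ Or.inr (Or.inr rfl)) hbP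
  cases A' with
  | l =>
    exact ⟨hP, hcl, hni, hi, ⟨h, j, A, hj, hnj⟩, hre⟩

end TL

end Pool.Agent.Work.MP_b30479_gtS.G2

end

section

/-!
# Tails, word level: the other hinge of an untouched digit two

`Tl.two_le`: it is at most at `6/10` if it is next to a digit one and the real hinge is at most at
`27/100`.
-/

namespace Pool.Agent.Work.MP_b30479_gtS.G2

open Finset VOL Filter Topology SR

namespace TL

variable {M : ℕ} {b : Fin (M + 1) → ℤ} {zs z : DD (tyW b) ⊕ ZZ (tyW b) → ℂ}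
variable {R : Finset (DD (tyW b))} {h h' : Fin M} {i j j' k : Fin (M + 1)} {p q : Fin 3}

theorem nn_of (hn : ¬ nbH b R h) : Sum.inl (Sum.inl h) ∉ nbT b R := by
  intro hm
  obtain ⟨m, hm, q, hq⟩ := (nbT_ok b R).conv_hinge hm
  rcases cf_hinge_ne hq with ⟨e, -⟩ | ⟨e, -⟩
  · exact hn (Or.inl (e ▸ hm))
  · exact hn (Or.inr (e ▸ hm))

/-- parameters of a hinge of a digit `1` -/
theorem par1_le (A : Adj h i p j) (hi : clsW b i = .one) (P : Cl) (hP : clsW b j ≠ .one ∨
    P ≠ .one ∨ oc b i p.rev = .one) : wXM b h ≤ pM P (clsW b j) := by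
  rw [A.XM_eq b, hi]
  unfold hpp
  rcases hj : clsW b j with _ | _ | _ | _ | _ | _
  · rw [hj] at hP
    have : P ≠ .one ∨ oc b i p.rev = .one := hP.resolve_left (by simp)
    unfold pM hp
    split_ifs <;> first | norm_num; done | (exfalso; tauto)
  all_goals
    unfold pM hp hp1
    split_ifs <;> norm_num

/-- ramps of a hinge of a digit `1` -/
theorem par1_ramp (A : Adj h i p j) (hi : clsW b i = .one) :
    pa (clsW b j) ≤ wcl b h ∧ pb (clsW b j) ≤ wcr b h ∧ 0 < pa (clsW b j) ∧ 0 < pb (clsW b j) := by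
  rw [A.cl_eq b, A.cr_eq b, hi]
  unfold hpp
  rcases hj : clsW b j with _ | _ | _ | _ | _ | _
  all_goals
    unfold pa pb hp
    split_ifs <;> norm_num [hp1]

theorem par12 (A : Adj h i p j) (hc : clsW b i = .one) (hj : clsW b j = .two) :
    wXM b h = 80 / 100 ∧ wcl b h = 16 / 100 ∧ wcr b h = 29 / 100 := by
  rw [A.XM_eq b, A.cl_eq b, A.cr_eq b, hc, hj]
  unfold hpp hp hp1
  split_ifs <;> norm_num

/-- a position on the trapezoid path is in the region -/
theorem RgO_of {K D : Cl} {τ T x X cl cr : ℝ} (x0 : 0 ≤ x) (x1 : x ≤ X) (hX : X ≤ pM K D)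
    (hl : pa D ≤ cl) (hr : pb D ≤ cr) (la : 0 < pa D) (lb : 0 < pb D)
    (t0 : (cw K D).t0 ≤ T) (t1 : T ≤ (cw K D).t1) (s0 : (cw K D).s0 ≤ τ + T)
    (s1 : τ + T ≤ (cw K D).s1) {Y : ℝ} (hY : Y = T * tr 0 X cl cr x ∨ Y = 0) : RgO K D τ x Y := by
  refine ⟨x0, x1.trans hX, T, t0, t1, s0, s1, ?_⟩
  have hcl : 0 < cl := la.trans_le hl
  have hcr : 0 < cr := lb.trans_le hr
  have h1 : 0 ≤ tr 0 X cl cr x ∧ tr 0 X cl cr x ≤ 1 := SR.tr_mem 0 X cl cr x
  have h2 : tr 0 X cl cr x * cl ≤ x := by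
    have : tr 0 X cl cr x ≤ x / cl := by
      unfold tr
      refine max_le (div_nonneg x0 hcl.le) ?_
      refine (min_le_right _ _).trans ((min_le_left _ _).trans ?_)
      rw [sub_zero]
    calc tr 0 X cl cr x * cl ≤ x / cl * cl := mul_le_mul_of_nonneg_right this hcl.le
      _ = x := div_mul_cancel₀ _ hcl.ne'
  have h3 : tr 0 X cl cr x * cr ≤ X - x := by
    have : tr 0 X cl cr x ≤ (X - x) / cr := by
      unfold tr
      refine max_le (div_nonneg (by linarith) hcr.le) ?_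
      exact (min_le_right _ _).trans (min_le_right _ _)
    calc tr 0 X cl cr x * cr ≤ (X - x) / cr * cr := mul_le_mul_of_nonneg_right this hcr.le
      _ = X - x := div_mul_cancel₀ _ hcr.ne'
  have h4 : pa D * tr 0 X cl cr x ≤ x := by
    have := mul_le_mul_of_nonneg_right hl h1.1
    linarith
  have h5 : pb D * tr 0 X cl cr x ≤ pM K D - x := by
    have := mul_le_mul_of_nonneg_right hr h1.1
    linarith
  rcases le_total 0 T with hT | hT
  · left
    rcases hY with rfl | rfl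
    · have e1 : T * tr 0 X cl cr x ≤ T * 1 := mul_le_mul_of_nonneg_left h1.2 hT
      have e2 := mul_le_mul_of_nonneg_left h4 hT
      have e3 := mul_le_mul_of_nonneg_left h5 hT
      refine ⟨mul_nonneg hT h1.1, by linarith, ?_, ?_⟩
      · linarith
      · linarith
    · refine ⟨le_refl _, hT, ?_, ?_⟩
      · rw [mul_zero]
        exact mul_nonneg hT x0
      · rw [mul_zero]
        exact mul_nonneg hT (by linarith)
  · right
    rcases hY with rfl | rfl
    · have e1 : T * 1 ≤ T * tr 0 X cl cr x := mul_le_mul_of_nonpos_left h1.2 hT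
      have e2 := mul_le_mul_of_nonpos_left h4 hT
      have e3 := mul_le_mul_of_nonpos_left h5 hT
      refine ⟨mul_nonpos_of_nonpos_of_nonneg hT h1.1, by linarith, ?_, ?_⟩
      · linarith
      · linarith
    · refine ⟨le_refl _, hT, ?_, ?_⟩
      · rw [mul_zero]
        exact mul_nonpos_of_nonpos_of_nonneg hT x0
      · rw [mul_zero]
        exact mul_nonpos_of_nonpos_of_nonneg hT (by linarith)

/-- the positions without modes -/
theorem NPos.zero {nb : Finset (DD (tyW b) ⊕ ZZ (tyW b))} {s : Fin 3} {X : ℂ}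
    (h0 : NPos b zs nb 0 h' i s X) : 0 ≤ X.re ∧ X.re ≤ wXM b h' ∧
      (X.im = Th b zs h' i * trh b h' X.re ∨ (Sum.inl (Sum.inl h') ∈ nb ∧ X.im = 0)) := by
  cases h0 with
  | main y y0 y1 hn e hp => rw [e]; exact ⟨y0, y1, Or.inl rfl⟩
  | real y y0 y1 hn e hp => rw [e]; exact ⟨y0, y1, Or.inr ⟨hn, rfl⟩⟩
  | up y y0 y1 hn hr hT e hp =>
    rw [e]
    have h1 : mhs b h' s.rev * trh b h' y = 0 := hp.symm
    refine ⟨y0, y1, Or.inl ?_⟩
    show mhs b h' s.rev * trh b h' y = Th b zs h' i * trh b h' y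
    rcases mul_eq_zero.1 h1 with h2 | h2
    · exact absurd h2 (mhs_pos _ _).ne'
    · rw [h2, mul_zero, mul_zero]
  | dn y y0 y1 hn hr hT e hp =>
    rw [e]
    have h1 : mhs b h' s * trh b h' y = 0 := hp.symm
    refine ⟨y0, y1, Or.inl ?_⟩
    show -(mhs b h' s * trh b h' y) = Th b zs h' i * trh b h' y
    rcases mul_eq_zero.1 h1 with h2 | h2
    · exact absurd h2 (mhs_pos _ _).ne'
    · rw [h2, mul_zero, mul_zero, neg_zero]

theorem Tl.hq (h : Fin M) : RH1 b (.inl h) → (0 : DD (tyW b) → ℝ) (.inl h) = 0 := fun _ => rfl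

/-- the other hinge of a digit one behind a hinge which is not real -/
theorem Tl.rgO (H : Tl b zs R z) (A : Adj h i p j) (hn : ¬ nbH b R h) (hi : clsW b i = .one)
    (hj : clsW b j ≠ .one) : ∃ D : Cl,
      (cw D (clsW b j)).t0 ≤ Th b zs h i ∧ Th b zs h i ≤ (cw D (clsW b j)).t1 ∧
      RgO (clsW b j) D (Th b zs h i) (Ow b z i p.rev).re (Ow b z i p.rev).im := by
  obtain ⟨h2, r, A2⟩ := A.other_one H.hb hi
  obtain ⟨a1, a2, a3, a4⟩ := H.L.X.win A A2 hi
  have A' : Adj h i p.rev.rev j := by rw [Fin.rev_rev]; exact A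
  obtain ⟨b1, b2, b3, b4⟩ := H.L.X.win A2 A' hi
  obtain ⟨n0, n1, n2⟩ := NPos.zero (H.mx.npos A (nn_of hn) A2)
  obtain ⟨c1, c2, c3, c4⟩ := par1_ramp A2 hi
  refine ⟨clsW b r, a1, a2, ?_⟩
  refine RgO_of n0 n1 (par1_le A2 hi _ ?_) c1 c2 c3 c4 b1 b2 ?_ ?_ (n2.imp id fun hh => hh.2)
  · exact Or.inr (Or.inl hj)
  · have : ofs (b i) (zs (.inl (.inl h2))).im + ofs (b i) (zs (.inl (.inl h))).im =
        Th b zs h i + ofs (b i) (zs (.inl (.inl h2))).im := add_comm _ _
    rw [← this]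
    exact b3
  · have : ofs (b i) (zs (.inl (.inl h2))).im + ofs (b i) (zs (.inl (.inl h))).im =
        Th b zs h i + ofs (b i) (zs (.inl (.inl h2))).im := add_comm _ _
    rw [← this]
    exact b4

theorem Tl.two_le (H : Tl b zs R z) (A : Adj h j q i) (A' : Adj h' j q.rev k) (hi : Tch b R i)
    (hj : ¬ Tch b R j) (hn : ¬ nbH b R h') (hc : clsW b j = .two) (hk : clsW b k = .one)
    (hw : (z (.inl (.inl h))).re ≤ 27 / 100) : (z (.inl (.inl h'))).re ≤ 6 / 10 := by
  by_contra hcon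
  push Not at hcon
  have hN := nbT_ok b R
  have hM := H.mx
  have hb := H.hb
  have hnn := nn_of hn
  -- the real hinge
  have hmem : Sum.inl (Sum.inl h) ∈ nbT b R := hN.mem hi A.symm.cf_ne
  have hnR : (Sum.inl h : DD (tyW b)) ∉ R := fun hR => hj ⟨_, hR, q, A.cf_ne⟩
  obtain ⟨r1, r2, r3, -⟩ := hM.adm.reD _ hnR hmem
  have eh : Ow b z j q = ⟨(z (.inl (.inl h))).re, 0⟩ := by
    rw [Ow_adj z A]
    apply Complex.ext
    · rw [ofr_re]
    · rw [ofr_im, r1, ofs_zero]
  -- the other hinge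
  have As := A'.symm
  have hrev : q.rev.rev = q := Fin.rev_rev q
  rw [hrev] at As
  obtain ⟨e1, e2, e3⟩ := par12 As hk hc
  have np := NPos.zero (hM.npos0 hN.ok.1 As fun hR => by
    exact hnn (hN.ok.1 _ hR))
  rw [Ow_adj z As, ofr_re, e1] at np
  obtain ⟨n0, n1, n2⟩ := np
  set X := (z (.inl (.inl h'))).re with hX
  have x1 : (8 : ℝ) / 10 = 80 / 100 := by norm_num
  have x2 : (29 : ℝ) / 100 = 29 / 100 := rfl
  have htr : trh b h' X = (8 / 10 - X) / (29 / 100) := by
    have h1 : (8 / 10 - X) / (29 / 100) ≤ 1 := by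
      rw [div_le_one (by norm_num)]; linarith
    have h2 : (8 / 10 - X) / (29 / 100) ≤ X / (16 / 100) := by
      rw [div_le_div_iff₀ (by norm_num) (by norm_num)]
      linarith
    have h3 : 0 ≤ (8 / 10 - X) / (29 / 100) := div_nonneg (by linarith) (by norm_num)
    unfold trh tr
    rw [e1, e2, e3, sub_zero, ← x1, min_eq_right h2, min_eq_right h1, max_eq_right h3]
  obtain ⟨D, t0, t1, hv⟩ := H.rgO As hn hk (by rw [hc]; decide)
  rw [hc] at t0 t1 hv
  set T := Th b zs h' k with hT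
  have hTj : Th b zs h' j = -T := by
    have hs := sign_adj hb As (by rw [hk]; decide)
    exact ofs_neg_of_opp hs _
  have hre : (Ow b z k q).re = X := by rw [Ow_adj z As, ofr_re]
  have him : (Ow b z k q).im = T * ((8 / 10 - X) / (29 / 100)) := by
    rcases n2 with n2 | ⟨n2, -⟩
    · rw [Ow_adj z As, n2, htr]
    · exact absurd n2 hnn
  have hown : Ow b z k q = ⟨X, T * ((8 / 10 - X) / (29 / 100))⟩ := Complex.ext hre him
  have hopp : Ow b z j q.rev = ⟨X, -(T * ((8 / 10 - X) / (29 / 100)))⟩ := by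
    have hs := sign_adj hb As (by rw [hk]; decide)
    apply Complex.ext
    · rw [Ow_adj z A', ofr_re]
    · rw [← him, Ow_adj z A', Ow_adj z As, ofr_im, ofr_im]
      exact ofs_neg_of_opp hs _
  have hx1 : (9 / 20 : ℝ) ≤ wXM b h' := by rw [e1]; norm_num
  have st := hM.star_two_one hb A' hnn (c := 9 / 20) (by norm_num) hx1 (Or.inl hc) hk
  rw [hrev, hopp, hown, eh] at st
  have htg : ∀ l, tgo b zs h' l (9 / 20) = ⟨9 / 20, Th b zs h' l⟩ := by
    intro l
    have h1 : trh b h' (9 / 20) = 1 := by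
      unfold trh tr
      rw [e1, e2, e3]
      norm_num
    unfold tgo
    rw [h1, mul_one]
  rw [htg, htg, hTj, ← hT] at st
  have key := pre_two (D := D) r2 hw hcon.le (n1.trans_eq x1.symm) t0 t1 hv
  rw [V2_comm _ ⟨9 / 20, -T⟩, V2_comm _ ⟨X, _⟩, Complex.eta] at key
  linarith

end TL

end Pool.Agent.Work.MP_b30479_gtS.G2

end

section

/-!
# Tails, word level: the other hinge of an untouched digit one

`Tl.one_ge`: it is at least at `8/100` if it is next to a two at an end and the real hinge is next to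
a three.
-/

namespace Pool.Agent.Work.MP_b30479_gtS.G2

open Finset VOL Filter Topology SR

namespace TL

variable {M : ℕ} {b : Fin (M + 1) → ℤ} {zs z : DD (tyW b) ⊕ ZZ (tyW b) → ℂ}
variable {R : Finset (DD (tyW b))} {h h' : Fin M} {i j j' k : Fin (M + 1)} {p q : Fin 3}

theorem par1E (A : Adj h i p j) (hc : clsW b i = .one) (hj : clsW b j = .twoE) :
    wXM b h = 70 / 100 ∧ wcl b h = 14 / 100 ∧ wcr b h = 35 / 100 := by
  rw [A.XM_eq b, A.cl_eq b, A.cr_eq b, hc, hj]
  unfold hpp hp hp1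
  split_ifs <;> norm_num

theorem Tl.one_ge (H : Tl b zs R z) (A : Adj h j q i) (A' : Adj h' j q.rev k) (hi : Tch b R i)
    (hj : ¬ Tch b R j) (hn : ¬ nbH b R h') (hc : clsW b j = .one) (hk : clsW b k = .twoE)
    (h3 : clsW b i = .three ∨ clsW b i = .threeE) : 8 / 100 ≤ (z (.inl (.inl h'))).re := by
  by_contra hcon
  push Not at hcon
  have hN := nbT_ok b R
  have hM := H.mx
  have hb := H.hb
  have hnn := nn_of hn
  have hnh : nbH b R h := (nbH_iff A).2 (Or.inr hi)
  obtain ⟨-, r2, r3⟩ := H.real hnh (not_isT A hj)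
  have hrev : q.rev.rev = q := Fin.rev_rev q
  have A2 : Adj h j q.rev.rev i := by rw [hrev]; exact A
  have hXi : wXM b h ≤ 65 / 100 := by
    have h1 := par1_le (b := b) A hc (clsW b i) (Or.inl (by rcases h3 with h3 | h3 <;> rw [h3] <;> decide))
    rcases h3 with h3 | h3 <;> rw [h3] at h1 <;> simp only [pM] at h1 <;> linarith
  obtain ⟨e1, e2, e3⟩ := par1E A' hc hk
  obtain ⟨t0, t1, -, -⟩ := H.win A' A2 hc
  rw [hk] at t0 t1
  obtain ⟨x0, -, x2⟩ := H.path hn
  set X := (z (.inl (.inl h'))).re with hX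
  set T := Th b zs h' j with hT
  have htr : trh b h' X = X / (14 / 100) := by
    have h1 : X / (14 / 100) ≤ 1 := by
      rw [div_le_one (by norm_num)]; linarith
    have h2 : X / (14 / 100) ≤ (70 / 100 - X) / (35 / 100) := by
      rw [div_le_div_iff₀ (by norm_num) (by norm_num)]
      linarith
    have h3 : 0 ≤ X / (14 / 100) := div_nonneg x0 (by norm_num)
    unfold trh tr
    rw [e1, e2, e3, sub_zero, min_eq_left h2, min_eq_right h1, max_eq_right h3]
  have hTk : Th b zs h' k = -T := Th_opp hb A' (Or.inl (by rw [hc]; decide))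
  have hown : Ow b z j q.rev = ⟨X, T * (X / (14 / 100))⟩ := by
    rw [A'.Ow_slot, H.Oh_pt hn, ← hX, htr]
  have hopp : Ow b z k q.rev.rev = ⟨X, -(T * (X / (14 / 100)))⟩ := by
    rw [A'.symm.Ow_slot, H.Oh_pt hn, ← hX, htr, hTk, neg_mul]
  have eh : Ow b z j q.rev.rev = ⟨(z (.inl (.inl h))).re, 0⟩ := by
    rw [A2.Ow_slot, H.Oh_nb hnh]
  have hx1 : (7 / 50 : ℝ) ≤ wXM b h' := by rw [e1]; norm_num
  have st := hM.star_two_one hb A'.symm hnn (c := 7 / 50) (by norm_num) hx1 (Or.inr hk) hc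
  have e0 : Ow b z k q.rev = 0 := by
    have := A'.symm.Ow_no (clsW_end (Or.inl hk)) z
    rwa [Fin.rev_rev] at this
  simp only [Fin.rev_rev] at st hopp eh
  rw [e0, hopp, hown, eh] at st
  have htg : ∀ l, tgo b zs h' l (7 / 50) = ⟨7 / 50, Th b zs h' l⟩ := by
    intro l
    have h1 : trh b h' (7 / 50) = 1 := by
      unfold trh tr
      rw [e1, e2, e3]
      norm_num
    unfold tgo
    rw [h1, mul_one]
  rw [htg, htg, hTk, ← hT] at st
  have key := pre_twoE (K := clsW b i) h3 r2 (r3.trans hXi) x0 hcon.le t0 t1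
  rw [V1_comm _ ⟨7 / 50, T⟩, V1_comm _ ⟨X, _⟩] at key
  linarith

end TL

end Pool.Agent.Work.MP_b30479_gtS.G2

end

section

/-!
# Tails: the gain of an untouched digit one behind a real hinge
-/

namespace Pool.Agent.Work.MP_b30479_gtS.G2

open Finset VOL Filter Topology SR

namespace TL

variable {M : ℕ} {b : Fin (M + 1) → ℤ} {zs z : DD (tyW b) ⊕ ZZ (tyW b) → ℂ}
variable {R : Finset (DD (tyW b))} {h h' : Fin M} {i j j' k : Fin (M + 1)} {p q : Fin 3}

/-- targets of a real hinge of a digit one -/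
theorem tgK_one (i : Fin (M + 1)) (p : Fin 3) (x : ℝ) :
    9 / 50 ≤ tgK b R i p .one x ∧ tgK b R i p .one x ≤ 27 / 100 := by
  unfold tgK
  split_ifs
  · simp only [cZ]; norm_num
  · simp only [cN]; norm_num
  · simp only [cW]; norm_num
  · simp only [cU]; split_ifs <;> norm_num

theorem pab (K D : Cl) : pa D ≤ 16 / 100 ∧ 0 < pa D ∧ 0 < pb D ∧ 35 / 100 ≤ pM K D - pb D := by
  rcases D <;> simp only [pa, pb, pM] <;> (try split_ifs) <;> norm_num

/-- **The gain of an untouched digit one.** -/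
theorem Tl.gain_one (H : Tl b zs R z) (A : Adj h j q i) (hi : Tch b R i) (hj : ¬ Tch b R j)
    (hc : clsW b j = .one) :
    Gn (clsW b i) (tgt b R h (z (.inl (.inl h))).re) (z (.inl (.inl h))).re (Th b zs h j) .one
      (pc b R zs z j q) := by
  obtain ⟨h', k, A'⟩ := A.other_one H.hb hc
  obtain ⟨X, hX, e⟩ := pc_one H A A' hi hj hc
  have A2 : Adj h j q.rev.rev i := by rw [Fin.rev_rev]; exact A
  obtain ⟨t0, t1, s0, s1⟩ := H.win A A' hc
  obtain ⟨u0, u1, r0, r1⟩ := H.win A' A2 hc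
  have hb := H.not_big A A' hc
  have hnT : ¬ isT b R h' := not_isT A' hj
  obtain ⟨c1, c2, c3, c4⟩ := par1_ramp A' hc
  have hle : wXM b h' ≤ pM (clsW b i) (clsW b k) := by
    apply par1_le A' hc
    by_cases h1 : clsW b i = .one
    · right; right
      rw [Fin.rev_rev, A.oc_eq b, h1]
    · exact Or.inr (Or.inl h1)
  have hreal : nbH b R h' → clsW b k = .twoE → False := fun hn hk =>
    MM.real_twoE (nbT_ok b R) A' hj (nbH_mem hn) hk
  have key : RgO (clsW b i) (clsW b k) (Th b zs h j) X.re X.im ∧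
      (clsW b k = .twoE → clsW b i = .three ∨ clsW b i = .threeE → 8 / 100 ≤ X.re) := by
    cases hX with
    | path hn =>
      obtain ⟨x0, x1, -⟩ := H.path hn
      refine ⟨RgO_of x0 x1 hle c1 c2 c3 c4 u0 u1 (by linarith) (by linarith) (Or.inl rfl), ?_⟩
      intro hk h3
      exact H.one_ge A A' hi hj hn hc hk h3
    | real hn =>
      obtain ⟨-, x0, x1⟩ := H.real hn hnT
      refine ⟨RgO_of x0 x1 hle c1 c2 c3 c4 u0 u1 (by linarith) (by linarith) (Or.inr rfl), ?_⟩
      intro hk _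
      exact (hreal hn hk).elim
    | new hn =>
      have hk : Tch b R k := ((nbH_iff A').1 hn).resolve_left hj
      have etg : tgt b R h' (z (.inl (.inl h'))).re =
          tgK b R k q.rev.rev .one (z (.inl (.inl h'))).re := by
        rw [tgt_nb A'.symm hk hnT, kb_un hj]
        unfold kd
        rw [hc]
      obtain ⟨g0, g1⟩ := tgK_one (b := b) (R := R) k q.rev.rev (z (.inl (.inl h'))).re
      rw [← etg] at g0 g1
      obtain ⟨p1, p2, p3, p4⟩ := pab (clsW b i) (clsW b k)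
      refine ⟨⟨by show (0 : ℝ) ≤ tgt b R h' _; linarith,
        by show tgt b R h' _ ≤ pM _ _; linarith, Th b zs h' j, u0, u1, by linarith,
        by linarith, ?_⟩, ?_⟩
      · show (0 ≤ Th b zs h' j ∧ Th b zs h' j ≤ Th b zs h' j ∧
          pa (clsW b k) * Th b zs h' j ≤ Th b zs h' j * tgt b R h' _ ∧
          pb (clsW b k) * Th b zs h' j ≤ Th b zs h' j * (pM _ _ - tgt b R h' _)) ∨
          (Th b zs h' j ≤ 0 ∧ Th b zs h' j ≤ Th b zs h' j ∧
          Th b zs h' j * tgt b R h' _ ≤ pa (clsW b k) * Th b zs h' j ∧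
          Th b zs h' j * (pM _ _ - tgt b R h' _) ≤ pb (clsW b k) * Th b zs h' j)
        have q1 : pa (clsW b k) ≤ tgt b R h' (z (.inl (.inl h'))).re := by linarith
        have q2 : pb (clsW b k) ≤ pM (clsW b i) (clsW b k) -
            tgt b R h' (z (.inl (.inl h'))).re := by linarith
        rcases le_total 0 (Th b zs h' j) with hT | hT
        · left
          refine ⟨hT, le_rfl, ?_, ?_⟩
          · nlinarith
          · nlinarith
        · right
          refine ⟨hT, le_rfl, ?_, ?_⟩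
          · nlinarith
          · nlinarith
      · intro hk' _
        exact (hreal hn hk').elim
  rw [e]
  exact Gn.one t0 t1 (fun h1 => by
    have e1 := one_one_ge H A hc h1
    have e2 := one_one_ge H A.symm h1 hc
    rw [Th_opp H.hb A (Or.inl (by rw [hc]; decide))] at e2
    rw [abs_le]
    constructor <;> linarith) hb key.1 key.2

end TL

end Pool.Agent.Work.MP_b30479_gtS.G2

end

section

/-!
# Tails: the gain of an untouched digit two
-/

namespace Pool.Agent.Work.MP_b30479_gtS.G2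

open Finset VOL Filter Topology SR

namespace TL

variable {M : ℕ} {b : Fin (M + 1) → ℤ} {zs z : DD (tyW b) ⊕ ZZ (tyW b) → ℂ}
variable {R : Finset (DD (tyW b))} {h h' : Fin M} {i j j' k : Fin (M + 1)} {p q : Fin 3}

namespace W2b

/-- parameters of the path between a two and a digit one -/
theorem par_one (p : Fin 3) (P Q : Cl) : (hpp p P .two .one Q).XM = 8 / 10 ∧
    (hpp p P .two .one Q).cl = 16 / 100 ∧ (hpp p P .two .one Q).cr = 29 / 100 := by
  unfold hpp
  split_ifs <;> simp only [hp, hp1] <;> norm_num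

/-- parameters of the path between a two and a region which is not a digit one -/
theorem par_ne (p : Fin 3) (P Q : Cl) {K : Cl} (hK : K ≠ .one) :
    (hpp p P .two K Q).XM = 6 / 10 ∧
    (hbox .two K false).t1 ≤ 77 / 100 * (hpp p P .two K Q).cl ∧
    (hbox .two K false).t1 ≤ 32 / 100 * (hpp p P .two K Q).cr ∧
    -(85 / 100) * (hpp p P .two K Q).cl ≤ (hbox .two K false).t0 ∧
    -(34 / 100) * (hpp p P .two K Q).cr ≤ (hbox .two K false).t0 ∧
    (hbox .two K false).t1 ≤ 96 / 1000 ∧ -(985 / 10000) ≤ (hbox .two K false).t0 := by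
  unfold hpp
  split_ifs <;> cases K <;> first
    | exact absurd rfl hK
    | (simp only [hp, hbox]; norm_num)

theorem pathD {T t X cl cr : ℝ} (t0 : 0 ≤ t) (t1 : t ≤ 1)
    (h0 : 0 ≤ X) (h1 : X ≤ 6 / 10) (h2 : t * cl ≤ X) (h3 : t * cr ≤ 6 / 10 - X)
    (a1 : T ≤ 77 / 100 * cl) (a2 : T ≤ 32 / 100 * cr) (a3 : -(85 / 100) * cl ≤ T)
    (a4 : -(34 / 100) * cr ≤ T) (a5 : T ≤ 96 / 1000) (a6 : -(985 / 10000) ≤ T) :
    RgD X (T * t) := by
  have b1 := mul_le_mul_of_nonneg_right a1 t0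
  have b2 := mul_le_mul_of_nonneg_right a2 t0
  have b3 := mul_le_mul_of_nonneg_right a3 t0
  have b4 := mul_le_mul_of_nonneg_right a4 t0
  have b5 := mul_le_mul_of_nonneg_right a5 t0
  have b6 := mul_le_mul_of_nonneg_right a6 t0
  refine ⟨h0, h1, ?_, ?_, ?_, ?_, ?_, ?_⟩ <;> linarith

theorem pathO {T t X : ℝ} (t0 : 0 ≤ t) (t1 : t ≤ 1)
    (h0 : 0 ≤ X) (h1 : X ≤ 6 / 10) (h2 : t * (16 / 100) ≤ X) (h3 : t * (29 / 100) ≤ 8 / 10 - X)
    (a5 : T ≤ 18 / 1000) (a6 : -(985 / 10000) ≤ T) : RgD X (T * t) := by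
  have b5 := mul_le_mul_of_nonneg_right a5 t0
  have b6 := mul_le_mul_of_nonneg_right a6 t0
  refine ⟨h0, h1, ?_, ?_, ?_, ?_, ?_, ?_⟩ <;> linarith

theorem pathF {T t X : ℝ} (t0 : 0 ≤ t) (h1 : 6 / 10 ≤ X) (h1' : X ≤ 8 / 10)
    (h3 : t * (29 / 100) ≤ 8 / 10 - X) (a5 : T ≤ 18 / 1000) (a6 : -(985 / 10000) ≤ T) :
    RgF X (T * t) := by
  have b5 := mul_le_mul_of_nonneg_right a5 t0
  have b6 := mul_le_mul_of_nonneg_right a6 t0
  refine ⟨h1, h1', ?_, ?_⟩ <;> linarith

theorem realD {X : ℝ} (h0 : 0 ≤ X) (h1 : X ≤ 6 / 10) : RgD X 0 := by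
  refine ⟨h0, h1, ?_, ?_, ?_, ?_, ?_, ?_⟩ <;> linarith

/-- the ramp -/
theorem trh_le (b : Fin (M + 1) → ℤ) (h : Fin M) {x : ℝ} (h0 : 0 ≤ x) (h1 : x ≤ wXM b h) :
    0 ≤ trh b h x ∧ trh b h x ≤ 1 ∧ trh b h x * wcl b h ≤ x ∧
      trh b h x * wcr b h ≤ wXM b h - x := by
  have hc := wcl_pos (b := b) h
  have hc' := wcr_pos (b := b) h
  have a0 : 0 ≤ x / wcl b h := div_nonneg h0 hc.le
  have a1 : 0 ≤ (wXM b h - x) / wcr b h := div_nonneg (by linarith) hc'.le
  have e : trh b h x = max 0 (min 1 (min ((x - 0) / wcl b h) ((wXM b h - x) / wcr b h))) := rfl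
  rw [sub_zero] at e
  have e1 : trh b h x = min 1 (min (x / wcl b h) ((wXM b h - x) / wcr b h)) := by
    rw [e]
    exact max_eq_right (le_min zero_le_one (le_min a0 a1))
  have b1 : trh b h x ≤ x / wcl b h := by
    rw [e1]
    exact (min_le_right _ _).trans (min_le_left _ _)
  have b2 : trh b h x ≤ (wXM b h - x) / wcr b h := by
    rw [e1]
    exact (min_le_right _ _).trans (min_le_right _ _)
  refine ⟨?_, ?_, (le_div_iff₀ hc).mp b1, (le_div_iff₀ hc').mp b2⟩
  · rw [e]
    exact le_max_left _ _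
  · rw [e1]
    exact min_le_left _ _

end W2b

open W2b in
theorem Tl.gain_two (H : Tl b zs R z) (A : Adj h j q i) (hi : Tch b R i) (hj : ¬ Tch b R j)
    (hc : clsW b j = .two) :
    Gn (clsW b i) (tgt b R h (z (.inl (.inl h))).re) (z (.inl (.inl h))).re (Th b zs h j) .two
      (pc b R zs z j q) := by
  have hnr : clsW b j ≠ .ring := by rw [hc]; decide
  have he : isEnd j = false := by
    by_contra h0
    have h1 : isEnd j = true := by simpa using h0
    unfold clsW cls at hc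
    rw [h1] at hc
    split_ifs at hc
    all_goals first
      | exact absurd hc (by decide)
      | exact absurd rfl ‹¬true = true›
  obtain ⟨h', k, A'⟩ := A.other' b he
  obtain ⟨X, hX, e⟩ := pc_two H A A' hi hj hc
  have hτ := Th_mem H.hb H.L.L A hnr
  have hT := Th_mem H.hb H.L.L A' hnr
  rw [hc] at hτ hT
  have hpar : wcl b h' = (hpp q.rev (oc b j q.rev.rev) .two (clsW b k) (oc b k q.rev)).cl ∧
      wcr b h' = (hpp q.rev (oc b j q.rev.rev) .two (clsW b k) (oc b k q.rev)).cr ∧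
      wXM b h' = (hpp q.rev (oc b j q.rev.rev) .two (clsW b k) (oc b k q.rev)).XM := by
    have h1 := A'.cl_eq b
    have h2 := A'.cr_eq b
    have h3 := A'.XM_eq b
    rw [hc] at h1 h2 h3
    exact ⟨h1, h2, h3⟩
  obtain ⟨p1, p2, p3⟩ := hpar
  have hp0 : wXM b h' ≤ 8 / 10 ∧ (clsW b k ≠ .one → wXM b h' = 6 / 10) := by
    by_cases hk : clsW b k = .one
    · rw [hk] at p3
      rw [p3, (par_one _ _ _).1]
      exact ⟨le_rfl, fun h0 => absurd hk h0⟩
    · rw [p3, (par_ne _ _ _ hk).1]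
      exact ⟨by norm_num, fun _ => rfl⟩
  have hnt : ¬ isT b R h' := fun ht => hj ⟨_, ht, q.rev, A'.cf_ne⟩
  have key : RgD X.re X.im ∨ (27 / 100 ≤ (z (.inl (.inl h))).re ∧ RgF X.re X.im) := by
    cases hX with
    | path hn =>
      obtain ⟨x0, x1, -⟩ := H.path hn
      obtain ⟨t0, t1, t2, t3⟩ := trh_le b h' x0 x1
      by_cases hk : clsW b k = .one
      · rw [hk] at p1 p2 p3 hT
        obtain ⟨g1, g2, g3⟩ := par_one q.rev (oc b j q.rev.rev) (oc b k q.rev)
        rw [g1] at p3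
        rw [g2] at p1
        rw [g3] at p2
        rw [p1] at t2
        rw [p2, p3] at t3
        rw [p3] at x1
        simp only [hbox] at hT
        rcases le_total (z (.inl (.inl h'))).re (6 / 10) with h6 | h6
        · exact Or.inl (pathO t0 t1 x0 h6 t2 t3 hT.2 hT.1)
        · rcases le_total (z (.inl (.inl h))).re (27 / 100) with h7 | h7
          · have h8 := H.two_le A A' hi hj hn hc hk h7
            exact Or.inl (pathO t0 t1 x0 h8 t2 t3 hT.2 hT.1)
          · exact Or.inr ⟨h7, pathF t0 h6 x1 t3 hT.2 hT.1⟩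
      · obtain ⟨g1, g2, g3, g4, g5, g6, g7⟩ := par_ne q.rev (oc b j q.rev.rev) (oc b k q.rev) hk
        rw [← p1] at g2 g4
        rw [← p2] at g3 g5
        rw [g1] at p3
        rw [p3] at t3 x1
        exact Or.inl (pathD t0 t1 x0 x1 t2 t3 (by linarith)
          (by linarith) (by linarith) (by linarith) (by linarith) (by linarith))
    | real hn =>
      obtain ⟨-, x0, x1⟩ := H.real hn hnt
      left
      by_cases hk : clsW b k = .one
      · have hk' : Tch b R k := by
          rcases (nbH_iff A').mp hn with h1 | h1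
          · exact absurd h1 hj
          · exact h1
        have h1 := H.mx.real_le H.hb A' hj
          ((nbT_ok b R).mem hk' A'.symm.cf_ne) (Or.inl hk)
        rw [Ow_adj z A', ofr_re] at h1
        exact realD x0 (by linarith)
      · rw [hp0.2 hk] at x1
        exact realD x0 x1
    | new hn =>
      left
      have hk' : Tch b R k := by
        rcases (nbH_iff A').mp hn with h1 | h1
        · exact absurd h1 hj
        · exact h1
      have h1 := tgt_nb (R := R) A'.symm hk' hnt (z (.inl (.inl h'))).re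
      have h2 : kb b R j q.rev.rev.rev = .two := by
        unfold kb
        rw [if_neg hj]
        unfold kd
        rw [hc]
      rw [h2] at h1
      have h3 : tgK b R k q.rev.rev .two (z (.inl (.inl h'))).re = 1 / 4 := by
        unfold tgK
        split_ifs <;> rfl
      rw [h3] at h1
      show RgD (tgt b R h' (z (.inl (.inl h'))).re) (Th b zs h' j)
      rw [h1]
      have h4 : -(985 / 10000) ≤ Th b zs h' j ∧ Th b zs h' j ≤ 96 / 1000 := by
        generalize clsW b k = K at hT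
        cases K <;> simp only [hbox] at hT <;> constructor <;> linarith
      refine ⟨?_, ?_, ?_, ?_, ?_, ?_, ?_, ?_⟩ <;> linarith
  have h5 := Gn.two (K := clsW b i) (c := tgt b R h (z (.inl (.inl h))).re) hτ.1 hτ.2 key
  rw [e]
  exact h5

end TL

end Pool.Agent.Work.MP_b30479_gtS.G2

end

section

/-!
# Tails: the gain of an untouched interior digit three
-/

namespace Pool.Agent.Work.MP_b30479_gtS.G2

open Finset VOL Filter Topology SR

namespace TL

variable {M : ℕ} {b : Fin (M + 1) → ℤ} {zs z : DD (tyW b) ⊕ ZZ (tyW b) → ℂ}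
variable {R : Finset (DD (tyW b))} {h h' : Fin M} {i j j' k : Fin (M + 1)} {p q : Fin 3}

namespace W2d

/-- bounds of the ramp function -/
theorem tr_bd {XM cl cr x : ℝ} (hc : 0 < cl) (hc' : 0 < cr) (h0 : 0 ≤ x) (h1 : x ≤ XM) :
    0 ≤ G2.tr 0 XM cl cr x ∧ G2.tr 0 XM cl cr x ≤ 1 ∧ G2.tr 0 XM cl cr x * cl ≤ x ∧
      G2.tr 0 XM cl cr x * cr ≤ XM - x := by
  have a0 : 0 ≤ x / cl := div_nonneg h0 hc.le
  have a1 : 0 ≤ (XM - x) / cr := div_nonneg (by linarith) hc'.le
  have e : G2.tr 0 XM cl cr x = max 0 (min 1 (min ((x - 0) / cl) ((XM - x) / cr))) := rfl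
  rw [sub_zero] at e
  have e1 : G2.tr 0 XM cl cr x = min 1 (min (x / cl) ((XM - x) / cr)) := by
    rw [e]
    exact max_eq_right (le_min zero_le_one (le_min a0 a1))
  have b1 : G2.tr 0 XM cl cr x ≤ x / cl := by
    rw [e1]
    exact (min_le_right _ _).trans (min_le_left _ _)
  have b2 : G2.tr 0 XM cl cr x ≤ (XM - x) / cr := by
    rw [e1]
    exact (min_le_right _ _).trans (min_le_right _ _)
  refine ⟨?_, ?_, (le_div_iff₀ hc).mp b1, (le_div_iff₀ hc').mp b2⟩
  · rw [e]
    exact le_max_left _ _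
  · rw [e1]
    exact min_le_left _ _

/-- the ramp of the inner variable of an interior three, left part -/
theorem tr_min {x : ℝ} (h0 : 0 ≤ x) (h1 : x ≤ 2 / 10) :
    G2.tr 0 (8 / 10) (5 / 100) (5 / 100) x = min 1 (x / (5 / 100)) := by
  have a0 : 0 ≤ x / (5 / 100) := by positivity
  have a1 : (1 : ℝ) ≤ (8 / 10 - x) / (5 / 100) := by
    rw [le_div_iff₀ (by norm_num)]
    linarith
  have e : G2.tr 0 (8 / 10) (5 / 100) (5 / 100) x =
      max 0 (min 1 (min ((x - 0) / (5 / 100)) ((8 / 10 - x) / (5 / 100)))) := rfl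
  rw [sub_zero] at e
  rw [e, max_eq_right (le_min zero_le_one (le_min a0 (by linarith)))]
  rcases le_total (x / (5 / 100)) 1 with h2 | h2
  · rw [min_eq_left (h2.trans a1)]
  · rw [min_eq_left (le_min h2 a1), min_eq_left h2]

/-- the window of the height of the inner variable -/
theorem mw_le (A K : Cl) : -(123 / 1000) ≤ (mw A K).t0 ∧ (mw A K).t1 ≤ 5 / 1000 := by
  cases A <;> cases K <;> simp only [mw] <;> constructor <;> norm_num

/-- parameters of the path in the slot `2` -/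
theorem par (P Q K : Cl) : (hpp 2 P .three K Q).XM ≤ 65 / 100 ∧
    (hbox .three K false).t1 ≤ 475 / 1000 * (hpp 2 P .three K Q).cl ∧
    (hbox .three K false).t1 ≤ 38 / 100 * (hpp 2 P .three K Q).cr ∧
    -(955 / 1000) * (hpp 2 P .three K Q).cl ≤ (hbox .three K false).t0 ∧
    -(764 / 1000) * (hpp 2 P .three K Q).cr ≤ (hbox .three K false).t0 ∧
    (hbox .three K false).t1 ≤ 57 / 1000 ∧ -(1145 / 10000) ≤ (hbox .three K false).t0 := by
  unfold hpp
  rw [if_pos rfl]
  cases K <;> (simp only [hp, hbox]; norm_num)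

theorem pathW {T t X XM cl cr : ℝ} (t0 : 0 ≤ t) (t1 : t ≤ 1)
    (h0 : 0 ≤ X) (h1 : X ≤ XM) (hM : XM ≤ 65 / 100) (h2 : t * cl ≤ X) (h3 : t * cr ≤ XM - X)
    (a1 : T ≤ 475 / 1000 * cl) (a2 : T ≤ 38 / 100 * cr) (a3 : -(955 / 1000) * cl ≤ T)
    (a4 : -(764 / 1000) * cr ≤ T) (a5 : T ≤ 57 / 1000) (a6 : -(1145 / 10000) ≤ T) :
    RgW X (T * t) := by
  have b1 := mul_le_mul_of_nonneg_right a1 t0
  have b2 := mul_le_mul_of_nonneg_right a2 t0
  have b3 := mul_le_mul_of_nonneg_right a3 t0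
  have b4 := mul_le_mul_of_nonneg_right a4 t0
  have b5 := mul_le_mul_of_nonneg_right a5 t0
  have b6 := mul_le_mul_of_nonneg_right a6 t0
  refine ⟨h0, by linarith, ?_, ?_, ?_, ?_, ?_, ?_⟩ <;> linarith

theorem realW {X : ℝ} (h0 : 0 ≤ X) (h1 : X ≤ 65 / 100) : RgW X 0 := by
  refine ⟨h0, h1, ?_, ?_, ?_, ?_, ?_, ?_⟩ <;> linarith

theorem pathK {T t X : ℝ} (t0 : 0 ≤ t) (t1 : t ≤ 1)
    (h0 : 0 ≤ X) (h1 : X ≤ 8 / 10) (h2 : t * (5 / 100) ≤ X) (h3 : t * (5 / 100) ≤ 8 / 10 - X)
    (a0 : -(123 / 1000) ≤ T) (a1 : T ≤ 5 / 1000) : RgK X (T * t) := by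
  have b0 := mul_le_mul_of_nonneg_right a0 t0
  have b1 := mul_le_mul_of_nonneg_right a1 t0
  refine ⟨h0, h1, ?_, ?_, ?_, ?_, ?_, ?_⟩ <;> linarith

/-- the growth of a region with three crossings in its first variable -/
theorem V3_sub1 (u u' l w : ℂ) : V3 u l w - V3 u' l w = V1 u (1 - l) - V1 u' (1 - l) := by
  have e1 : UU (u + (1 - l)) = -UU (l - u) := by
    rw [← UU_one_sub]
    congr 1
    ring
  have e2 : UU (u' + (1 - l)) = -UU (l - u') := by
    rw [← UU_one_sub]
    congr 1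
    ring
  unfold V3 V1
  rw [e1, e2]
  have e0 : ∀ v : ℂ, (2 * v).im = 2 * v.im := fun v => by
    rw [show (2 : ℂ) * v = v + v by ring, Complex.add_im]
    ring
  have e3 : (2 * u * l + (l - w) ^ 2 - l + w).im = 2 * (u * l).im + ((l - w) ^ 2 - l + w).im := by
    rw [← e0, ← Complex.add_im]
    congr 1
    ring
  have e4 : (2 * u' * l + (l - w) ^ 2 - l + w).im =
      2 * (u' * l).im + ((l - w) ^ 2 - l + w).im := by
    rw [← e0, ← Complex.add_im]
    congr 1
    ring
  have e5 : (u * (1 - l) - u - (1 - l)).im = -(u * l).im + l.im := by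
    rw [← Complex.neg_im, ← Complex.add_im]
    have : u * (1 - l) - u - (1 - l) = -(u * l) + l - 1 := by ring
    rw [this, Complex.sub_im, Complex.one_im, sub_zero]
  have e6 : (u' * (1 - l) - u' - (1 - l)).im = -(u' * l).im + l.im := by
    rw [← Complex.neg_im, ← Complex.add_im]
    have : u' * (1 - l) - u' - (1 - l) = -(u' * l) + l - 1 := by ring
    rw [this, Complex.sub_im, Complex.one_im, sub_zero]
  rw [e3, e4, e5, e6]
  ring

theorem one_sub_mk (x y : ℝ) : (1 : ℂ) - ⟨x, y⟩ = ⟨1 - x, -y⟩ := by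
  apply Complex.ext <;> simp

end W2d

open W2d in
theorem Tl.gain_three (H : Tl b zs R z) (A : Adj h j q i) (hi : Tch b R i) (hj : ¬ Tch b R j)
    (hc : clsW b j = .three) :
    Gn (clsW b i) (tgt b R h (z (.inl (.inl h))).re) (z (.inl (.inl h))).re (Th b zs h j)
      (if q = 0 then .threeA else .threeK) (pc b R zs z j q) := by
  have hnr : clsW b j ≠ .ring := by rw [hc]; decide
  have he : isEnd j = false := by
    by_contra h0
    have h1 : isEnd j = true := by simpa using h0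
    unfold clsW cls at hc
    rw [h1] at hc
    split_ifs at hc
    all_goals first
      | exact absurd hc (by decide)
      | exact absurd rfl ‹¬true = true›
  obtain ⟨h', k, A'⟩ := A.other' b he
  have hτ := Th_mem H.hb H.L.L A hnr
  have hT := Th_mem H.hb H.L.L A' hnr
  rw [hc] at hτ hT
  have hmid : (tyW b j).isMid = true := tyW_isMid (Or.inl hc)
  have hmp : (mp (clsW b j)) = ⟨8 / 10, 5 / 100, 5 / 100⟩ := by rw [hc]; rfl
  have etr : ∀ x : ℝ, trm b ⟨j, hmid⟩ x = G2.tr 0 (8 / 10) (5 / 100) (5 / 100) x := by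
    intro x
    unfold trm
    show G2.tr 0 (mp (clsW b j)).XM (mp (clsW b j)).cl (mp (clsW b j)).cr x = _
    rw [hmp]
  have hnt : ¬ isT b R h' := fun ht => hj ⟨_, ht, q.rev, A'.cf_ne⟩
  rcases A.slot with hq | hq
  · -- slot `0`
    subst hq
    have A2 : Adj h' j 2 k := A'
    have hm := H.L.X.mid hmid A A2 hc
    have hwl := mw_le (clsW b i) (clsW b k)
    have hTm : SR.Tm b zs ⟨j, hmid⟩ = ofs (b j) (zs (.inl (.inr ⟨j, hmid⟩))).im := rfl
    rw [← hTm] at hm
    have hThm : ofs (b j) (zs (.inl (.inl h))).im = Th b zs h j := rfl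
    rw [hThm] at hm
    have hn3 : ¬ nbM b R j := by
      intro h0
      rcases h0 with h0 | ⟨h0, -⟩
      · exact hj h0
      · rw [hc] at h0
        exact absurd h0 (by decide)
    obtain ⟨l0, l1, -⟩ := H.mpath (m := ⟨j, hmid⟩) hn3
    have l1' : (z (.inl (.inr ⟨j, hmid⟩))).re ≤ 8 / 10 := by
      have : (z (.inl (.inr ⟨j, hmid⟩))).re ≤ (mp (clsW b j)).XM := l1
      rw [hmp] at this
      exact this
    obtain ⟨X, hX, hV⟩ := pc_three0 H A A2 hi hj hc ⟨j, hmid⟩ rfl
    rw [if_pos rfl]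
    rcases hV with ⟨hl, e⟩ | ⟨hl, e⟩
    · obtain ⟨g0, g1, g2, g3⟩ := tr_bd (XM := 8 / 10) (cl := 5 / 100) (cr := 5 / 100)
        (by norm_num) (by norm_num) l0 l1'
      have hR : RgL (z (.inl (.inr ⟨j, hmid⟩))).re
          (SR.Tm b zs ⟨j, hmid⟩ * trm b ⟨j, hmid⟩ (z (.inl (.inr ⟨j, hmid⟩))).re) := by
        rw [etr]
        have b0 := mul_le_mul_of_nonneg_right (hwl.1.trans hm.1) g0
        have b1 := mul_le_mul_of_nonneg_right (hm.2.1.trans hwl.2) g0
        refine ⟨hl, l1', ?_, ?_, ?_, ?_⟩ <;> linarith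
      have h5 := Gn.threeA (K := clsW b i) (c := tgt b R h (z (.inl (.inl h))).re)
        (w := (z (.inl (.inl h))).re) hτ.1 hτ.2 hR
      rw [e, V3_sub1, one_sub_mk]
      exact h5
    · have hXW : RgW X.re X.im := by
        have hpar : wcl b h' = (hpp 2 (oc b j (2 : Fin 3).rev) .three (clsW b k)
              (oc b k 2)).cl ∧
            wcr b h' = (hpp 2 (oc b j (2 : Fin 3).rev) .three (clsW b k) (oc b k 2)).cr ∧
            wXM b h' = (hpp 2 (oc b j (2 : Fin 3).rev) .three (clsW b k) (oc b k 2)).XM := by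
          have h1 := A2.cl_eq b
          have h2 := A2.cr_eq b
          have h3 := A2.XM_eq b
          rw [hc] at h1 h2 h3
          exact ⟨h1, h2, h3⟩
        obtain ⟨p1, p2, p3⟩ := hpar
        obtain ⟨c1, c2, c3, c4, c5, c6, c7⟩ :=
          par (oc b j (2 : Fin 3).rev) (oc b k 2) (clsW b k)
        rw [← p1] at c2 c4
        rw [← p2] at c3 c5
        rw [← p3] at c1
        rcases hX with ⟨hn, rfl⟩ | ⟨hn, rfl⟩
        · obtain ⟨x0, x1, -⟩ := H.path hn
          obtain ⟨t0, t1, t2, t3⟩ := tr_bd (wcl_pos (b := b) h') (wcr_pos (b := b) h') x0 x1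
          exact pathW t0 t1 x0 x1 c1 t2 t3 (by linarith) (by linarith) (by linarith)
            (by linarith) (by linarith) (by linarith)
        · obtain ⟨-, x0, x1⟩ := H.real hn hnt
          exact realW x0 (x1.trans c1)
      have h5 := Gn.threeS (K := clsW b i) (D := clsW b k)
        (c := tgt b R h (z (.inl (.inl h))).re)
        (w := (z (.inl (.inl h))).re) hτ.1 hτ.2 l0 hl.le hm.1 hm.2.1 hm.2.2.1 hm.2.2.2 hXW
      rw [e, etr, tr_min l0 hl.le]
      exact h5
  · -- slot `2`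
    subst hq
    have A2 : Adj h' j 0 k := A'
    have hm := H.L.X.mid hmid A2 A hc
    have hwl := mw_le (clsW b k) (clsW b i)
    have hTm : SR.Tm b zs ⟨j, hmid⟩ = ofs (b j) (zs (.inl (.inr ⟨j, hmid⟩))).im := rfl
    rw [← hTm] at hm
    obtain ⟨X, ⟨x, x0, x1, hX⟩, e⟩ := pc_three2 H A A2 hi hj hc ⟨j, hmid⟩ rfl
    rw [if_neg (by decide)]
    obtain ⟨g0, g1, g2, g3⟩ := tr_bd (XM := 8 / 10) (cl := 5 / 100) (cr := 5 / 100)
        (by norm_num) (by norm_num) x0 x1
    have hR : RgK X.re X.im := by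
      rw [hX, etr]
      exact pathK g0 g1 x0 x1 g2 g3 (hwl.1.trans hm.1) (hm.2.1.trans hwl.2)
    have h5 := Gn.threeK (K := clsW b i) (c := tgt b R h (z (.inl (.inl h))).re)
      (w := (z (.inl (.inl h))).re) hτ.1 hτ.2 hR
    rw [e]
    exact h5

end TL

end Pool.Agent.Work.MP_b30479_gtS.G2

end

section

/-!
# Tails, word level: touched regions

Which hinges of a touched region are in the tail; the walls.
-/

namespace Pool.Agent.Work.MP_b30479_gtS.G2

open Finset VOL Filter Topology SR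

namespace TL

variable {M : ℕ} {b : Fin (M + 1) → ℤ} {zs z : DD (tyW b) ⊕ ZZ (tyW b) → ℂ}
variable {R : Finset (DD (tyW b))} {h h' : Fin M} {i j j' k : Fin (M + 1)} {p q : Fin 3}

/-- the tail of a hinge which is not between rings is at least at `6/10` -/
theorem Tl.tail6 (H : Tl b zs R z) (A : Adj h i p j) (hr : clsW b i ≠ .ring) (ht : isT b R h) :
    6 / 10 ≤ (z (.inl (.inl h))).re := (wXM_ge A hr).trans (H.tail ht).2.1

theorem mid_of_tch {d : DD (tyW b)} (hd : cf (tyW b) i q (.inl d) ≠ 0)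
    (hm : (tyW b i).isMid = false) : ∃ (h : Fin M) (k : Fin (M + 1)), d = .inl h ∧ Adj h i q k := by
  rcases d with h | m
  · obtain ⟨k, A⟩ := adj_of_cf hd
    exact ⟨h, k, rfl, A⟩
  · exfalso
    have h2 := m.2
    rw [cf_inner_ne hd, hm] at h2
    exact absurd h2 (by decide)

/-- a touched region without inner variable has a hinge in the tail -/
theorem tch_hinge (hi : Tch b R i) (hm : (tyW b i).isMid = false) :
    ∃ (h : Fin M) (p : Fin 3) (j : Fin (M + 1)), Adj h i p j ∧ isT b R h := by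
  obtain ⟨d, hd, q, hq⟩ := hi
  obtain ⟨h, k, rfl, A⟩ := mid_of_tch hq hm
  exact ⟨h, q, k, A, hd⟩

theorem exists_adj0 (he : isEnd i = false) : ∃ (h : Fin M) (j : Fin (M + 1)), Adj h i 0 j := by
  unfold isEnd at he
  have he' := of_decide_eq_false he
  rw [not_or] at he'
  obtain ⟨k, hk⟩ := Fin.exists_succ_eq.2 he'.1
  subst hk
  exact ⟨k, _, .r⟩

theorem re_slots (A : Adj h i p j) (A' : Adj h' i p.rev j') :
    (Ow b z i 0).re + (Ow b z i 2).re = (z (.inl (.inl h))).re + (z (.inl (.inl h'))).re := by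
  have e1 : (Ow b z i p).re = (z (.inl (.inl h))).re := by rw [Ow_adj z A, ofr_re]
  have e2 : (Ow b z i p.rev).re = (z (.inl (.inl h'))).re := by rw [Ow_adj z A', ofr_re]
  rw [← e1, ← e2]
  rcases A.slot with rfl | rfl
  · rfl
  · exact add_comm _ _

/-- **A touched digit `1` or `2`.** -/
theorem Tl.tch_one (H : Tl b zs R z) (hi : Tch b R i) (hc : clsW b i = .one ∨ clsW b i = .two) :
    ∃ (h h' : Fin M) (p : Fin 3) (j j' : Fin (M + 1)), Adj h i p j ∧ Adj h' i p.rev j' ∧
      isT b R h ∧ ¬ isT b R h' ∧ (z (.inl (.inl h))).re + (z (.inl (.inl h'))).re ≤ 1 := by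
  have hm : (tyW b i).isMid = false := by
    rcases hc with hc | hc
    · rw [tyW_of_one hc]; rfl
    · rw [tyW_of_two (Or.inl hc)]; rfl
  have hr : clsW b i ≠ .ring := by rcases hc with hc | hc <;> rw [hc] <;> decide
  have he : isEnd i = false := by
    rcases hc with hc | hc
    · exact clsW_inner H.hb (Or.inl hc)
    · exact clsW_inner H.hb (Or.inr (Or.inl hc))
  obtain ⟨h, p, j, A, ht⟩ := tch_hinge hi hm
  obtain ⟨h', j', A'⟩ := A.other' b he
  have hw := H.mx.wall12 H.hb hi hc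
  rw [re_slots A A'] at hw
  refine ⟨h, h', p, j, j', A, A', ht, fun ht' => ?_, hw⟩
  have h1 := H.tail6 A hr ht
  have h2 := H.tail6 A' hr ht'
  linarith

/-- **A touched `2` at an end.** -/
theorem Tl.tch_twoE (_ : Tl b zs R z) (hi : Tch b R i) (hc : clsW b i = .twoE) :
    ∃ (h : Fin M) (p : Fin 3) (j : Fin (M + 1)), Adj h i p j ∧ isT b R h :=
  tch_hinge hi (by rw [tyW_of_two (Or.inr hc)]; rfl)

/-- **A touched interior `3`**: `m` its inner variable -/
theorem Tl.tch_three (H : Tl b zs R z) (m : {i : Fin (M + 1) // (tyW b i).isMid = true})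
    (hi : Tch b R m.1) (hc : clsW b m.1 = .three) :
    ∃ (h h' : Fin M) (j j' : Fin (M + 1)), Adj h m.1 0 j ∧ Adj h' m.1 2 j' ∧
      (z (.inl (.inl h))).re ≤ (z (.inl (.inr m))).re ∧
      (z (.inl (.inr m))).re + (z (.inl (.inl h'))).re ≤ 1 ∧
      ((isT b R h ∧ ¬ isT b R h') ∨ (¬ isT b R h ∧ isT b R h') ∨
        (¬ isT b R h ∧ ¬ isT b R h' ∧ (Sum.inr m : DD (tyW b)) ∈ R)) := by
  have hr : clsW b m.1 ≠ .ring := by rw [hc]; decide
  have he : isEnd m.1 = false := clsW_inner H.hb (Or.inr (Or.inr hc))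
  obtain ⟨h, j, A, h', j', A'⟩ : ∃ (h : Fin M) (j : Fin (M + 1)), Adj h m.1 0 j ∧
      ∃ (h' : Fin M) (j' : Fin (M + 1)), Adj h' m.1 2 j' := by
    obtain ⟨h, j, A⟩ := exists_adj0 he
    obtain ⟨h', j', A'⟩ := A.other' b he
    exact ⟨h, j, A, h', j', A'⟩
  obtain ⟨w1, w2⟩ := H.mx.wall3 hi hc
  rw [Ow_adj z A, Ow_inner, ofr_re, ofr_re] at w2
  rw [Ow_adj z A', Ow_inner, ofr_re, ofr_re] at w1
  refine ⟨h, h', j, j', A, A', w2, w1, ?_⟩
  by_cases t1 : isT b R h
  · left
    refine ⟨t1, fun t2 => ?_⟩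
    have h1 := H.tail6 A hr t1
    have h2 := H.tail6 A' hr t2
    linarith
  right
  by_cases t2 : isT b R h'
  · exact Or.inl ⟨t1, t2⟩
  right
  refine ⟨t1, t2, ?_⟩
  obtain ⟨d, hd, q, hq⟩ := hi
  rcases d with g | m'
  · exfalso
    obtain ⟨k, B⟩ := adj_of_cf hq
    rcases B.slot with rfl | rfl
    · exact t1 ((adj_uniq B A).1 ▸ hd)
    · exact t2 ((adj_uniq B A').1 ▸ hd)
  · obtain rfl : m' = m := Subtype.ext (cf_inner_ne hq)
    exact hd

/-- the walls of a region whose variables are real -/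
theorem Tl.wallN (H : Tl b zs R z) (hr : clsW b i ≠ .ring) {f : Fac}
    (hf : f ∈ facs (tyW b i) (decide (i ≠ 0)) (decide (i ≠ Fin.last M)))
    (hn : ∀ (d : DD (tyW b)) (q : Fin 3), cf (tyW b) i q (.inl d) ≠ 0 → Sum.inl d ∈ nbT b R) :
    (f.form (xx (tyW b) i z)).re ≤ 1 := by
  obtain ⟨n, hn', rfl⟩ := List.mem_iff_getElem.1 hf
  have h1 := H.mx.adm.wall ⟨i, ⟨n, hn'⟩⟩ ?_ ?_
  · rw [wdat_form] at h1
    exact h1
  · intro v
    simp only [wdat]
    refine Finset.sum_eq_zero fun q _ => ?_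
    have : cf (tyW b) i q (.inr v) = 0 := by
      simp [cf, ring_ne hr v]
    rw [this]
    simp
  · intro d hd
    simp only [wdat] at hd
    obtain ⟨q, -, hq⟩ := Finset.exists_ne_zero_of_sum_ne_zero hd
    refine hn d q ?_
    intro h0
    apply hq
    rw [h0]
    simp

theorem nbM_of_nbH (A : Adj h i p j) (hn : nbH b R h) (hc : clsW b i = .threeE) : nbM b R i := by
  rcases (nbH_iff A).1 hn with h1 | h1
  · exact Or.inl h1
  · exact Or.inr ⟨hc, h, p, j, A, h1⟩

/-- **A `3` at an end with a real hinge**: the wall (also if it is not touched) -/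
theorem Tl.wallE (H : Tl b zs R z) (m : {i : Fin (M + 1) // (tyW b i).isMid = true})
    (A : Adj h m.1 p j) (hn : nbH b R h) (hc : clsW b m.1 = .threeE) :
    (z (.inl (.inl h))).re ≤ (z (.inl (.inr m))).re ∧ (z (.inl (.inr m))).re ≤ 1 := by
  have hM := nbM_of_nbH A hn hc
  refine ⟨?_, (H.mreal hM).2.2⟩
  have hr : clsW b m.1 ≠ .ring := by rw [hc]; decide
  have he := clsW_end (b := b) (Or.inr hc)
  have h3 := clsW_nat3 (Or.inr hc)
  have hmem : ∀ (d : DD (tyW b)) (q : Fin 3), cf (tyW b) m.1 q (.inl d) ≠ 0 →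
      Sum.inl d ∈ nbT b R := by
    intro d q hq
    rcases d with g | m'
    · obtain ⟨k, B⟩ := adj_of_cf hq
      obtain rfl : q = p := B.slot_end A he
      rw [(adj_uniq B A).1]
      exact nbH_mem hn
    · obtain rfl : m' = m := Subtype.ext (cf_inner_ne hq)
      exact nbM_mem hM
  have e1 : (Ow b z m.1 p).re = (z (.inl (.inl h))).re := by rw [Ow_adj z A, ofr_re]
  have e2 : (Ow b z m.1 1).re = (z (.inl (.inr m))).re := by rw [Ow_inner, ofr_re]
  rw [← e1, ← e2]
  have hnr : tyW b m.1 ≠ .ring := by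
    intro h0
    have := m.2
    rw [h0] at this
    exact absurd this (by decide)
  rcases A.slot with rfl | rfl
  · have h0 : m.1 ≠ 0 := by
      rw [← (adj_r A).1]
      exact Fin.succ_ne_zero h
    have hty : tyW b m.1 = .threeL := by
      unfold tyW
      rw [if_neg (by omega), if_neg (by omega), if_pos h3, if_neg h0]
    have h2 := H.wallN hr (f := ⟨![1, -1, 0], 1, -(1 / 2)⟩) (by rw [hty]; simp [facs]) hmem
    simp only [Fac.form, Fin.sum_univ_three] at h2
    rw [Ow_re0, Ow_re1 z hnr]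
    simp at h2
    linarith
  · have h0 : m.1 = 0 := by
      unfold isEnd at he
      have he' := of_decide_eq_true he
      refine he'.resolve_right ?_
      rw [← (adj_l A).1]
      exact (Fin.castSucc_lt_last h).ne
    have hty : tyW b m.1 = .threeR := by
      unfold tyW
      rw [if_neg (by omega), if_neg (by omega), if_pos h3, if_pos h0]
    have h2 := H.wallN hr (f := ⟨![0, -1, 1], 1, -(1 / 2)⟩) (by rw [hty]; simp [facs]) hmem
    simp only [Fac.form, Fin.sum_univ_three] at h2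
    rw [Ow_re2, Ow_re1 z hnr]
    simp at h2
    linarith

/-- **A touched `3` at an end.** -/
theorem Tl.tch_threeE (_ : Tl b zs R z) (m : {i : Fin (M + 1) // (tyW b i).isMid = true})
    (A : Adj h m.1 p j) (hi : Tch b R m.1) (hc : clsW b m.1 = .threeE) :
    isT b R h ∨ (¬ isT b R h ∧ (Sum.inr m : DD (tyW b)) ∈ R) := by
  by_cases ht : isT b R h
  · exact Or.inl ht
  right
  refine ⟨ht, ?_⟩
  obtain ⟨d, hd, q, hq⟩ := hi
  rcases d with g | m'
  · exfalso
    obtain ⟨k, B⟩ := adj_of_cf hq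
    obtain rfl : q = p := B.slot_end A (clsW_end (Or.inr hc))
    exact ht ((adj_uniq B A).1 ▸ hd)
  · obtain rfl : m' = m := Subtype.ext (cf_inner_ne hq)
    exact hd

/-- **A touched ring.** -/
theorem Tl.tch_ring (H : Tl b zs R z) (hi : Tch b R i) (hc : clsW b i = .ring) :
    ∃ (h : Fin M) (p : Fin 3) (j : Fin (M + 1)), Adj h i p j ∧ isT b R h :=
  tch_hinge hi (by rw [tyW_of_ring H.hb hc]; rfl)

end TL

end Pool.Agent.Work.MP_b30479_gtS.G2

end

section

/-!
# Tails: the sums of the shares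
-/

namespace Pool.Agent.Work.MP_b30479_gtS.G2

open Finset VOL Filter Topology SR

namespace TL

variable {M : ℕ} {b : Fin (M + 1) → ℤ} {zs z : DD (tyW b) ⊕ ZZ (tyW b) → ℂ}
variable {R : Finset (DD (tyW b))} {h h' : Fin M} {i j j' k : Fin (M + 1)} {p q : Fin 3}

/-! ### untouched regions -/

theorem rev_ne {p p' : Fin 3} (h1 : p = 0 ∨ p = 2) (h2 : p' = 0 ∨ p' = 2) (hne : p' ≠ p) :
    p' = p.rev := by
  rcases h1 with rfl | rfl <;> rcases h2 with rfl | rfl
  · exact absurd rfl hne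
  · rfl
  · rfl
  · exact absurd rfl hne

/-- the other hinge, at the level of the variables -/
theorem Z_o' (A' : Adj h' j q.rev k) :
    Zm b R zs z j q (.inl (.inl h')) = Zb b R zs z j q (.inl (.inl h')) := by
  unfold Zm Zb
  rcases A'.slot with hq | hq
  · have hq' : q = 2 := rev_eq0 _ hq
    subst hq'
    rw [if_neg (by decide), if_neg (by decide), zH_r]
    exact (adj_r A').1
  · have hq' : q = 0 := rev_eq2 _ hq
    subst hq'
    rw [if_pos rfl, if_pos rfl, zH_l]
    obtain ⟨e1, -⟩ := adj_l A'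
    rw [← e1]
    exact (Fin.castSucc_lt_succ (i := h')).ne'

/-- a hinge on its path is not moved -/
theorem Z_p (A : Adj h i p j) (hn : ¬ nbH b R h) :
    Zm b R zs z i p (.inl (.inl h)) = Zb b R zs z i p (.inl (.inl h)) := by
  unfold Zm Zb
  rcases A.slot with rfl | rfl
  · rw [if_pos rfl, if_pos rfl, zH_r (adj_r A).1, zN_h' b R zs z 0 hn]
  · rw [if_neg (by decide), if_neg (by decide), zN_h' b R zs z 0 hn, zH_l]
    obtain ⟨e1, -⟩ := adj_l A
    rw [← e1]
    exact (Fin.castSucc_lt_succ (i := h)).ne'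

/-- **No share** of an untouched region at a hinge on its path. -/
theorem pc_zero (A : Adj h i p j) (hn : ¬ nbH b R h) (hi : ¬ Tch b R i) :
    pc b R zs z i p = 0 := by
  have hM' : ∀ hm : (tyW b i).isMid = true, (p = 0 → ¬ mvM b R z ⟨i, hm⟩) ∧
      (i = 0 → ¬ mvM b R z ⟨i, hm⟩) ∧ ¬ nbM b R i := by
    intro hm
    refine ⟨?_, ?_, ?_⟩
    · rintro rfl ⟨⟨h1, j1, A1, hn1⟩, -⟩
      have e := (adj_uniq A1 A).1
      subst e
      exact hn hn1
    · intro h0
      rintro ⟨⟨h1, j1, A1, hn1⟩, -⟩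
      have h2 := (adj_r A1).1
      have h3 : h1.succ = 0 := h2.trans h0
      exact Fin.succ_ne_zero _ h3
    · rintro (h1 | ⟨hc, h1, p1, j1, A1, ht⟩)
      · exact hi h1
      · have e0 := A.slot_end A1 (clsW_end (Or.inr hc))
        subst e0
        obtain ⟨rfl, rfl⟩ := adj_uniq A A1
        exact hn ((nbH_iff A).2 (Or.inr ht))
  rw [pc_eq, sub_eq_zero]
  apply Vr_congr
  · intro h1 p1 j1 A1
    by_cases hp : p1 = p
    · subst hp
      obtain ⟨rfl, rfl⟩ := adj_uniq A A1
      exact Z_p A hn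
    · have e := rev_ne A.slot A1.slot hp
      subst e
      exact Z_o' A1
  · intro hm
    obtain ⟨m1, m2, m3⟩ := hM' hm
    unfold Zm Zb
    rcases A.slot with rfl | rfl
    · have h0 : i ≠ 0 := by
        rw [← (adj_r A).1]
        exact Fin.succ_ne_zero h
      rw [if_pos rfl, if_pos rfl, zH_m (m := ⟨i, hm⟩) rfl h0, zN_m']
      rintro (h1 | h1)
      · exact m3 h1
      · exact m1 rfl h1
    · rw [if_neg (by decide), if_neg (by decide)]
      by_cases h0 : i = 0
      · have e : zH b R zs z i (.inl (.inr ⟨i, hm⟩)) = z (.inl (.inr ⟨i, hm⟩)) :=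
          if_neg fun hc => hc.2 h0
        rw [e, zN_m']
        rintro (h1 | h1)
        · exact m3 h1
        · exact m2 h0 h1
      · exact (zH_m (m := ⟨i, hm⟩) rfl h0).symm
  · intro hz
    obtain ⟨e1, e2⟩ := Z_z (zs := zs) (z := z) ⟨i, hz⟩ hi i p
    rw [e1, e2]

theorem pc_first : pc b R zs z 0 0 = 0 := by
  rw [pc_eq, sub_eq_zero]
  unfold Zm Zb
  rw [if_pos rfl, if_pos rfl]
  apply Vr_congr
  · intro h1 p1 j1 _
    exact zH_l (Fin.succ_ne_zero h1)
  · intro hm
    exact zH_m' _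
  · intro hz
    rfl

theorem pc_last (hM : 1 ≤ M) (hi : ¬ Tch b R (Fin.last M)) :
    pc b R zs z (Fin.last M) 2 = 0 := by
  rw [pc_eq, sub_eq_zero]
  unfold Zm Zb
  rw [if_neg (by decide), if_neg (by decide)]
  have h0 : Fin.last M ≠ 0 := by
    intro h1
    have := congrArg Fin.val h1
    simp at this
    omega
  apply Vr_congr
  · intro h1 p1 j1 A1
    rcases A1.slot with hp | hp
    · subst hp
      exact (zH_r (adj_r A1).1).symm
    · subst hp
      exact absurd (adj_l A1).1 (Fin.castSucc_lt_last h1).ne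
  · intro hm
    exact (zH_m (m := ⟨_, hm⟩) rfl h0).symm
  · intro hz
    exact zN_z' b R zs z 0 ⟨_, hz⟩ hi

theorem no_slot0 (A : Adj h 0 0 j) : False := Fin.succ_ne_zero _ (adj_r A).1

theorem no_slot2 (A : Adj h (Fin.last M) 2 j) : False :=
  (Fin.castSucc_lt_last h).ne (adj_l A).1

theorem sh_first : sh b R zs z 0 0 = 0 := sh_none fun ⟨_, A⟩ => no_slot0 A

theorem sh_last : sh b R zs z (Fin.last M) 2 = 0 := sh_none fun ⟨_, A⟩ => no_slot2 A

theorem sh_un (A : Adj h i p j) (hi : ¬ Tch b R i) : sh b R zs z i p = pc b R zs z i p := by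
  rw [sh_adj A]
  unfold shA
  rw [if_neg (not_isT A hi), if_neg hi]

/-- **The shares of an untouched region.** -/
theorem share_un (hM : 1 ≤ M) (hi : ¬ Tch b R i) (c : ZZ (tyW b) → ℝ) :
    sh b R zs z i 0 + sh b R zs z i 2 = Vr b (zN b R zs z c) i - Vr b z i := by
  have e0 : sh b R zs z i 0 = pc b R zs z i 0 := by
    by_cases h0 : i = 0
    · subst h0
      rw [sh_first, pc_first]
    · obtain ⟨h1, hh⟩ := Fin.eq_succ_of_ne_zero h0
      subst hh
      exact sh_un (Adj.r (h := h1)) hi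
  have e2 : sh b R zs z i 2 = pc b R zs z i 2 := by
    by_cases h0 : i = Fin.last M
    · subst h0
      rw [sh_last, pc_last hM hi]
    · obtain ⟨h1, hh⟩ := Fin.eq_castSucc_of_ne_last h0
      subst hh
      exact sh_un (Adj.l (h := h1)) hi
  have e3 : Vr b (zN b R zs z c) i = Vr b (zN b R zs z 0) i := by
    apply Vr_congr
    · intro h1 p1 j1 _
      rfl
    · intro hm
      rfl
    · intro hz
      rw [zN_z' b R zs z c ⟨i, hz⟩ hi, zN_z' b R zs z 0 ⟨i, hz⟩ hi]
  have e4 : pc b R zs z i 0 = Vr b (zH b R zs z i) i - Vr b z i := if_pos rfl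
  have e5 : pc b R zs z i 2 = Vr b (zN b R zs z 0) i - Vr b (zH b R zs z i) i :=
    if_neg (by decide)
  rw [e0, e2, e3, e4, e5]
  ring

/-! ### hinges -/

theorem be_comm (A B : Cl) : be A B = be B A := by
  cases A <;> cases B <;> rfl

/-- the start of the tail of `1 | 1` -/
theorem XM_one_one (A : Adj h i p j) (hi : clsW b i = .one) (hj : clsW b j = .one)
    (h1 : oc b i p.rev ≠ .one) (h2 : oc b j p ≠ .one) : wXM b h = 86 / 100 := by
  rw [A.XM_eq b, hi, hj]
  unfold hpp
  have e : ∀ P Q : Cl, P ≠ .one → Q ≠ .one → (hp P .one .one Q).XM = 86 / 100 := by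
    intro P Q h3 h4
    have h5 : ¬ (P = .one ∨ Q = .one) := by
      rintro (h6 | h6)
      · exact h3 h6
      · exact h4 h6
    simp only [hp, if_neg h5]
  split_ifs
  · exact e _ _ h1 h2
  · exact e _ _ h2 h1

/-- **The shares at a hinge in the tail.** -/
theorem hinge_T (H : Tl b zs R z) (hRD : ∀ {K : Cl} {x t t' : ℝ}, (K ≠ .ring → t' = -t) →
      0 < gR K x t + gD K x t') (ht : isT b R h) :
    0 < sh b R zs z h.castSucc 2 + sh b R zs z h.succ 0 := by
  have A := Adj.l (h := h)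
  have A' := Adj.r (h := h)
  rw [sh_T A ht, sh_T A' ht]
  unfold shT
  have hopp := fun hr => Th_opp (zs := zs) H.hb A hr
  by_cases h1 : clsW b h.castSucc = .ring
  · rw [if_pos h1]
    by_cases h2 : clsW b h.succ = .ring
    · rw [if_pos h2, h1, h2]
      simp only [gR]
      norm_num
    · rw [if_neg h2, if_pos h1]
      exact hRD fun _ => hopp (Or.inr h2)
  · rw [if_neg h1]
    by_cases h2 : clsW b h.succ = .ring
    · rw [if_pos h2, if_pos h2]
      have := hRD (K := clsW b h.castSucc) (x := (z (.inl (.inl h))).re)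
        (t := Th b zs h h.succ) (t' := Th b zs h h.castSucc) fun _ => by
          rw [hopp (Or.inl h1), neg_neg]
      linarith
    · rw [if_neg h2, if_neg h2, if_neg h1, be_comm (clsW b h.succ), hopp (Or.inl h1)]
      have := al_pos (K := clsW b h.castSucc) (B := clsW b h.succ)
        (C := oc b h.castSucc (Fin.rev 2)) (D := oc b h.succ (Fin.rev 0))
        (x := (z (.inl (.inl h))).re) fun h3 h4 h5 h6 => by
          have h7 := XM_one_one A h3 h4 h5 h6
          have h8 := (H.tail ht).2.1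
          rw [h7] at h8
          exact h8
      linarith

/-- **The shares at a hinge which is not in the tail.** -/
theorem hinge_N (H : Tl b zs R z) (ht : ¬ isT b R h) :
    sh b R zs z h.castSucc 2 + sh b R zs z h.succ 0 = ee b R z h := by
  have A := Adj.l (h := h)
  have A' := Adj.r (h := h)
  rw [sh_adj A, sh_adj A']
  unfold shA
  rw [if_neg ht, if_neg ht]
  by_cases h1 : Tch b R h.castSucc
  · by_cases h2 : Tch b R h.succ
    · rw [if_pos h1, if_pos h2, if_pos h2, if_pos h1, ee_zero_tt A h1 h2]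
      unfold shN
      by_cases h3 : clsW b h.castSucc = .ring ∧ clsW b h.succ = .ring
      · rw [if_pos h3, if_pos h3.symm, add_zero]
      · rw [if_neg h3, if_neg fun hc => h3 hc.symm]
        have h4 : clsW b h.castSucc ≠ .ring ∨ clsW b h.succ ≠ .ring := by
          by_contra hc
          rw [not_or, not_not, not_not] at hc
          exact h3 hc
        rw [Th_opp H.hb A h4]
        ring
    · rw [if_pos h1, if_neg h2, if_neg h2]
      have : (Fin.rev 2 : Fin 3) = 0 := rfl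
      rw [this]
      ring
  · by_cases h2 : Tch b R h.succ
    · rw [if_neg h1, if_pos h2, if_neg h1]
      have : (Fin.rev 0 : Fin 3) = 2 := rfl
      rw [this]
      ring
    · rw [if_neg h1, if_neg h2]
      have hn : ¬ nbH b R h := by
        rintro (h3 | h3)
        · exact h1 h3
        · exact h2 h3
      rw [pc_zero A hn h1, pc_zero A' hn h2, add_zero, ee_zero_uu A h1 h2]

/-- no extra loss at a hinge in the tail -/
theorem ee_T (ht : isT b R h) : ee b R z h = 0 :=
  ee_zero_tt (Adj.l (h := h)) (isT_tch (Adj.l (h := h)) ht) (isT_tch (Adj.r (h := h)) ht)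

end TL

end Pool.Agent.Work.MP_b30479_gtS.G2

end

section

/-!
# Mirrored paths: removal with a small loss at the special hinges

A mode at the hinge between the slot `2` of an untouched digit `3` and an untouched digit `1` whose
other hinge is real with real part at most `1/20` is removed with a loss of `1/100`.
-/

namespace Pool.Agent.Work.MP_b30479_gtS.G2

open Finset VOL Filter Topology

namespace SR

variable {M : ℕ} {b : Fin (M + 1) → ℤ} {zs : DD (tyW b) ⊕ ZZ (tyW b) → ℂ}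
variable {R : Finset (DD (tyW b))} {nb : Finset (DD (tyW b) ⊕ ZZ (tyW b))}
variable {z : DD (tyW b) ⊕ ZZ (tyW b) → ℂ} {p : DD (tyW b) → ℝ}
variable {h h' : Fin M} {i j j' : Fin (M + 1)} {s : Fin 3} {x c : ℝ}

/-- the hinge in the slot `2` of the region `i` is real with real part at most `1/20` -/
def Spm (b : Fin (M + 1) → ℤ) (nb : Finset (DD (tyW b) ⊕ ZZ (tyW b)))
    (z : DD (tyW b) ⊕ ZZ (tyW b) → ℂ) (i : Fin (M + 1)) : Prop :=
  ∃ (k : Fin M) (P : Fin (M + 1)), Adj k i 2 P ∧ Sum.inl (Sum.inl k) ∈ nb ∧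
    (z (.inl (.inl k))).re ≤ 1 / 20

/-- kind `1 | 3`, the `3` at its slot `2`, not special -/
def Kd3 (b : Fin (M + 1) → ℤ) (zs : DD (tyW b) ⊕ ZZ (tyW b) → ℂ) : Prop :=
  ∀ {R : Finset (DD (tyW b))} {nb : Finset (DD (tyW b) ⊕ ZZ (tyW b))}
    {z : DD (tyW b) ⊕ ZZ (tyW b) → ℂ} {p : DD (tyW b) → ℝ} {h : Fin M} {i j : Fin (M + 1)} {x : ℝ},
    NbT b R nb → MM b zs R nb z p → (∀ h : Fin M, RH1 b (.inl h) → p (.inl h) = 0) →
    Md b zs nb z p h i 0 j x → clsW b i = .one → clsW b j = .three → ¬ Spm b nb z i → False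

/-- **The loss at a special hinge.** -/
def Loss3 (b : Fin (M + 1) → ℤ) (zs : DD (tyW b) ⊕ ZZ (tyW b) → ℂ) : Prop :=
  ∀ {R : Finset (DD (tyW b))} {nb : Finset (DD (tyW b) ⊕ ZZ (tyW b))}
    {z : DD (tyW b) ⊕ ZZ (tyW b) → ℂ} {p : DD (tyW b) → ℝ} {h : Fin M} {i j : Fin (M + 1)} {x : ℝ},
    NbT b R nb → MM b zs R nb z p → (∀ h : Fin M, RH1 b (.inl h) → p (.inl h) = 0) →
    Md b zs nb z p h i 0 j x → clsW b i = .one → clsW b j = .three → Spm b nb z i →
    ∀ m : {i : Fin (M + 1) // (tyW b i).isMid = true}, m.1 = j →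
    ∃ (c : ℝ) (l' : ℂ), 0 ≤ c ∧ c ≤ 65 / 100 ∧
      ((l' = Ow b z j 1 ∧ p (.inr m) = 0) ∨ ∃ c', 0 ≤ c' ∧ c' ≤ 8 / 10 ∧ l' = tgi b zs m c') ∧
      -(1 / 100) ≤ V1 (tgo b zs h i c) (Ow b z i 2) - V1 (Ow b z i 0) (Ow b z i 2) +
        (V3 (Ow b z j 0) l' (tgo b zs h j c) - V3 (Ow b z j 0) (Ow b z j 1) (Ow b z j 2)) +
        2 * Real.pi * p (.inr m) + 2 * Real.pi * p (.inl h)

/-- **The kinds of hinges** except `1 | 3` with the `3` at its slot `2`. -/
structure Kinds0 (b : Fin (M + 1) → ℤ) (zs : DD (tyW b) ⊕ ZZ (tyW b) → ℂ) : Prop where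
  one_one : ∀ s, Kd b zs .one .one s
  one_two : ∀ s, Kd b zs .one .two s
  two_one : ∀ s, Kd b zs .two .one s
  one_twoE : ∀ s, Kd b zs .one .twoE s
  twoE_one : ∀ s, Kd b zs .twoE .one s
  /-- the `3` at its slot `0` -/
  one_three : Kd b zs .one .three 2
  one_threeE : ∀ s, Kd b zs .one .threeE s
  two_two : ∀ s, Kd b zs .two .two s
  twoE_two : ∀ s, Kd b zs .twoE .two s
  /-- the `3` at its slot `0` -/
  two_three : Kd b zs .two .three 2
  /-- the `3` at its slot `2` -/
  two_three' : Kd b zs .two .three 0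
  /-- the `3` at its slot `0` -/
  three_two : Kd b zs .three .two 0
  /-- the `3` at its slot `2` -/
  three_two' : Kd b zs .three .two 2
  two_threeE : ∀ s, Kd b zs .two .threeE s
  threeE_two : ∀ s, Kd b zs .threeE .two s
  twoE_twoE : ∀ s, Kd b zs .twoE .twoE s
  twoE_three : ∀ s, Kd b zs .twoE .three s
  twoE_threeE : ∀ s, Kd b zs .twoE .threeE s
  threeE_three : ∀ s, Kd b zs .threeE .three s
  threeE_threeE : ∀ s, Kd b zs .threeE .threeE s
  three_three : ∀ s, Kd b zs .three .three s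

/-- **The kinds of hinges**, with a loss at the special hinges. -/
structure KindsL (b : Fin (M + 1) → ℤ) (zs : DD (tyW b) ⊕ ZZ (tyW b) → ℂ) : Prop
    extends Kinds0 b zs where
  /-- the `3` at its slot `2` -/
  one_three' : Kd3 b zs
  loss : Loss3 b zs

/-- the case without loss -/
theorem Kinds.toL (K : Kinds b zs) : KindsL b zs :=
  { one_one := K.one_one
    one_two := K.one_two
    two_one := K.two_one
    one_twoE := K.one_twoE
    twoE_one := K.twoE_one
    one_three := K.one_three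
    one_threeE := K.one_threeE
    two_two := K.two_two
    twoE_two := K.twoE_two
    two_three := K.two_three
    two_three' := K.two_three'
    three_two := K.three_two
    three_two' := K.three_two'
    two_threeE := K.two_threeE
    threeE_two := K.threeE_two
    twoE_twoE := K.twoE_twoE
    twoE_three := K.twoE_three
    twoE_threeE := K.twoE_threeE
    threeE_three := K.threeE_three
    threeE_threeE := K.threeE_threeE
    three_three := K.three_three
    one_three' := fun hN hM hq D hi hj _ => K.one_three' hN hM hq D hi hj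
    loss := fun hN hM hq D hi hj _ _ _ => (K.one_three' hN hM hq D hi hj).elim }

/-- **The inner variables**: no mode if there is no mode at the hinges of the region (and the modes
at other hinges are of the kind `1 | 3`, the `3` at its slot `2`). -/
structure InnersL (b : Fin (M + 1) → ℤ) (zs : DD (tyW b) ⊕ ZZ (tyW b) → ℂ) : Prop where
  three : ∀ {R : Finset (DD (tyW b))} {nb : Finset (DD (tyW b) ⊕ ZZ (tyW b))}
    {z : DD (tyW b) ⊕ ZZ (tyW b) → ℂ} {p : DD (tyW b) → ℝ}
    (m : {i : Fin (M + 1) // (tyW b i).isMid = true}),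
    NbT b R nb → MM b zs R nb z p → (∀ h : Fin M, RH1 b (.inl h) → p (.inl h) = 0) →
    (∀ (h : Fin M) (s : Fin 3) (j : Fin (M + 1)), Adj h m.1 s j → p (.inl h) = 0) →
    (∀ (h : Fin M) (i j : Fin (M + 1)), Adj h i 0 j →
      p (.inl h) = 0 ∨ (clsW b i = .one ∧ clsW b j = .three)) →
    clsW b m.1 = .three → Sum.inl (Sum.inr m) ∉ nb → p (.inr m) = 0
  threeE : ∀ {R : Finset (DD (tyW b))} {nb : Finset (DD (tyW b) ⊕ ZZ (tyW b))}
    {z : DD (tyW b) ⊕ ZZ (tyW b) → ℂ} {p : DD (tyW b) → ℝ}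
    (m : {i : Fin (M + 1) // (tyW b i).isMid = true}),
    NbT b R nb → MM b zs R nb z p → (∀ h : Fin M, RH1 b (.inl h) → p (.inl h) = 0) →
    (∀ (h : Fin M) (s : Fin 3) (j : Fin (M + 1)), Adj h m.1 s j → p (.inl h) = 0) →
    clsW b m.1 = .threeE → Sum.inl (Sum.inr m) ∉ nb → p (.inr m) = 0

/-- a corner: a mode at a special hinge -/
structure Corner (b : Fin (M + 1) → ℤ) (zs : DD (tyW b) ⊕ ZZ (tyW b) → ℂ)
    (nb : Finset (DD (tyW b) ⊕ ZZ (tyW b))) (z : DD (tyW b) ⊕ ZZ (tyW b) → ℂ)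
    (p : DD (tyW b) → ℝ) (h : Fin M) : Prop where
  one : clsW b h.succ = .one
  three : clsW b h.castSucc = .three
  sp : Spm b nb z h.succ
  md : ∃ x, Md b zs nb z p h h.succ 0 h.castSucc x

/-- **The modes at the hinges are corners.** -/
theorem KindsL.hinge (hb : ClassW b) (hL : Loc b zs) (K : KindsL b zs) (hN : NbT b R nb)
    (hM : MM b zs R nb z p) (hq : ∀ h : Fin M, RH1 b (.inl h) → p (.inl h) = 0) (h : Fin M) :
    p (.inl h) = 0 ∨ Corner b zs nb z p h := by
  by_cases hr : RH1 b (.inl h)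
  · exact Or.inl (hq h hr)
  simp only [RH1, not_or] at hr
  rcases hM.md hb hN.ok.1 h hr.1 hr.2 with h0 | ⟨i, s, j, x, D⟩
  · exact Or.inl h0
  have key : s = 0 → clsW b i = .one → clsW b j = .three → Corner b zs nb z p h := by
    intro hs0 hi hj
    subst hs0
    have hS : Spm b nb z i := by
      by_contra hS
      exact K.one_three' hN hM hq D hi hj hS
    have A := D.adj
    generalize hs : (0 : Fin 3) = s' at A
    cases A with
    | l => exact absurd hs (by decide)
    | r => exact ⟨hi, hj, hS, x, D⟩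
  have hT := Th_mem hb hL D.adj D.ri
  have hT0 := D.T0
  have hri := D.ri
  have hrj := D.rj
  have hs := D.adj.slot
  by_cases hc : s = 0 ∧ clsW b i = .one ∧ clsW b j = .three
  · exact Or.inr (key hc.1 hc.2.1 hc.2.2)
  exfalso
  rcases hi : clsW b i <;> rcases hj : clsW b j <;> first
    | exact hri hi
    | exact hrj hj
    | exact K.one_one _ hN hM hq D hi hj
    | exact K.one_two _ hN hM hq D hi hj
    | exact K.two_one _ hN hM hq D hi hj
    | exact K.one_twoE _ hN hM hq D hi hj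
    | exact K.twoE_one _ hN hM hq D hi hj
    | exact K.one_threeE _ hN hM hq D hi hj
    | exact K.two_two _ hN hM hq D hi hj
    | exact K.twoE_two _ hN hM hq D hi hj
    | exact K.two_threeE _ hN hM hq D hi hj
    | exact K.threeE_two _ hN hM hq D hi hj
    | exact K.twoE_twoE _ hN hM hq D hi hj
    | exact K.twoE_three _ hN hM hq D hi hj
    | exact K.twoE_threeE _ hN hM hq D hi hj
    | exact K.threeE_three _ hN hM hq D hi hj
    | exact K.threeE_threeE _ hN hM hq D hi hj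
    | exact K.three_three _ hN hM hq D hi hj
    | (rcases hs with rfl | rfl
       · exact hc ⟨rfl, hi, hj⟩
       · exact K.one_three hN hM hq D hi hj)
    | (rcases hs with rfl | rfl
       · exact K.two_three' hN hM hq D hi hj
       · exact K.two_three hN hM hq D hi hj)
    | (rcases hs with rfl | rfl
       · exact K.three_two hN hM hq D hi hj
       · exact K.three_two' hN hM hq D hi hj)
    | (rw [hi, hj] at hT
       simp only [hbox] at hT
       linarith [hT.2])

/-! ### the corner move -/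

/-- the inner variable of the region to the left of the hinge `h` -/
noncomputable def innr (b : Fin (M + 1) → ℤ) (h : Fin M) (hm : (tyW b h.castSucc).isMid = true) :
    {i : Fin (M + 1) // (tyW b i).isMid = true} := ⟨h.castSucc, hm⟩

open Classical in
/-- **The corner move.** -/
theorem corner_move (hb : ClassW b) (hR : ∀ i ∈ R, Sum.inl i ∈ nb)
    (hz : Adm (wdat (tyW b) b) (wparM b zs) zs R nb z p)
    (m : {i : Fin (M + 1) // (tyW b i).isMid = true}) (hm : m.1 = h.castSucc)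
    (hi : clsW b h.succ = .one) (hj : clsW b h.castSucc = .three)
    (hn : Sum.inl (Sum.inl h) ∉ nb) (hnm : Sum.inl (Sum.inr m) ∉ nb) {c : ℝ} {l' : ℂ}
    (c0 : 0 ≤ c) (c1 : c ≤ wXM b h)
    (hl : (l' = Ow b z h.castSucc 1 ∧ p (.inr m) = 0) ∨
      ∃ c', 0 ≤ c' ∧ c' ≤ 8 / 10 ∧ l' = tgi b zs m c') :
    ∃ (z' : DD (tyW b) ⊕ ZZ (tyW b) → ℂ) (p' : DD (tyW b) → ℝ),
      Adm (wdat (tyW b) b) (wparM b zs) zs R nb z' p' ∧
      (∀ v ∈ nb, z' v = z v) ∧ p' (.inl h) = 0 ∧ p' (.inr m) = 0 ∧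
      (∀ k, k ≠ Sum.inl h → k ≠ Sum.inr m → p' k = p k) ∧
      (∀ i, i ≠ h.succ → i ≠ h.castSucc → Ow b z' i = Ow b z i) ∧
      Ph b z' p' = Ph b z p + (V1 (tgo b zs h h.succ c) (Ow b z h.succ 2) -
        V1 (Ow b z h.succ 0) (Ow b z h.succ 2) +
        (V3 (Ow b z h.castSucc 0) l' (tgo b zs h h.castSucc c) -
          V3 (Ow b z h.castSucc 0) (Ow b z h.castSucc 1) (Ow b z h.castSucc 2)) +
        2 * Real.pi * p (.inr m) + 2 * Real.pi * p (.inl h)) := by
  -- the new position of the inner variable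
  obtain ⟨ζ, hζ, eζ⟩ : ∃ ζ : ℂ, OnP b zs (.inl (.inr m)) ζ 0 ∧ ofr (b h.castSucc) ζ = l' := by
    rcases hl with ⟨e, hp⟩ | ⟨c', d0, d1, e⟩
    · refine ⟨z (.inl (.inr m)), ?_, ?_⟩
      · have h1 := hz.onD (.inr m) hnm
        rw [hp] at h1
        exact h1
      · rw [e, ← hm, Ow_inner]
    · refine ⟨pt 0 ((wpar b zs).XM (.inr m)) ((wpar b zs).cl (.inr m))
        ((wpar b zs).cr (.inr m)) (zs (.inl (.inr m))).im c', ?_, ?_⟩
      · refine onP_main (.inr m) d0 ?_
        show c' ≤ (mp (clsW b m.1)).XM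
        rw [hm, hj]
        exact d1
      · rw [e, ← hm, ofr_ptm]
  have hne : (Sum.inl (Sum.inr m) : DD (tyW b) ⊕ ZZ (tyW b)) ≠ .inl (.inl h) := by simp
  set z' : DD (tyW b) ⊕ ZZ (tyW b) → ℂ :=
    Function.update (Function.update z (.inl (.inl h)) (tg b zs h c)) (.inl (.inr m)) ζ with hz'
  set p' : DD (tyW b) → ℝ := Function.update (Function.update p (.inl h) 0) (.inr m) 0 with hp'
  have z1 : z' (.inl (.inl h)) = tg b zs h c := by
    rw [hz', Function.update_of_ne hne.symm, Function.update_self]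
  have z2 : z' (.inl (.inr m)) = ζ := by rw [hz', Function.update_self]
  have z3 : ∀ v, v ≠ .inl (.inl h) → v ≠ .inl (.inr m) → z' v = z v := by
    intro v h1 h2
    rw [hz', Function.update_of_ne h2, Function.update_of_ne h1]
  have p1 : p' (.inl h) = 0 := by
    rw [hp', Function.update_of_ne (by simp), Function.update_self]
  have p2 : p' (.inr m) = 0 := by rw [hp', Function.update_self]
  have p3 : ∀ k, k ≠ Sum.inl h → k ≠ Sum.inr m → p' k = p k := by
    intro k h1 h2
    rw [hp', Function.update_of_ne h2, Function.update_of_ne h1]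
  have hmv : Mv b zs nb z p z' p' := by
    refine ⟨fun v hv => ?_⟩
    by_cases hv1 : v = .inl (.inl h)
    · subst hv1
      refine ⟨hn, ?_⟩
      have e : pe p' (.inl (.inl h)) = 0 := p1
      rw [e, z1]
      exact onP_tg c0 c1
    · by_cases hv2 : v = .inl (.inr m)
      · subst hv2
        refine ⟨hnm, ?_⟩
        have e : pe p' (.inl (.inr m)) = 0 := p2
        rw [e, z2]
        exact hζ
      · exfalso
        rcases hv with hv | hv
        · exact hv (z3 v hv1 hv2)
        · apply hv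
          rcases v with k | v
          · exact p3 k (by simpa using hv1) (by simpa using hv2)
          · rfl
  have hadm := hmv.adm hR hz
  -- frames
  have A : Adj h h.castSucc 2 h.succ := .l
  have B : Adj h h.succ 0 h.castSucc := .r
  have cm : ∀ i q, cf (tyW b) i q (.inl (.inr m)) ≠ 0 → i = h.castSucc ∧ q = 1 := by
    intro i q h0
    have h1 := cf_inner_ne h0
    refine ⟨h1.symm.trans hm, ?_⟩
    simp only [cf] at h0
    by_contra hq
    apply h0
    simp [hq]
  have hOw : ∀ i, i ≠ h.succ → i ≠ h.castSucc → Ow b z' i = Ow b z i := by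
    intro i h1 h2
    refine (Ow_congr i fun v hv q => ?_).symm
    by_cases hv1 : v = .inl (.inl h)
    · subst hv1
      exact cf_hinge_zero h2 h1 q
    · by_cases hv2 : v = .inl (.inr m)
      · subst hv2
        by_contra h0
        exact h2 (cm i q h0).1
      · exact absurd (z3 v hv1 hv2).symm hv
  have o0 : Ow b z' h.succ 0 = tgo b zs h h.succ c := by rw [Ow_adj z' B, z1, ofr_tg]
  have o1 : Ow b z' h.castSucc 2 = tgo b zs h h.castSucc c := by rw [Ow_adj z' A, z1, ofr_tg]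
  have o2 : Ow b z' h.castSucc 1 = l' := by
    rw [← hm, Ow_inner, z2, hm]
    exact eζ
  have o3 : Ow b z' h.succ 2 = Ow b z h.succ 2 := by
    have := TL.Ow_other B (z := z) (z' := Function.update z (.inl (.inl h)) (tg b zs h c))
      (fun v hv => Function.update_of_ne hv _ _)
    have e1 : Ow b z' h.succ = Ow b (Function.update z (.inl (.inl h)) (tg b zs h c)) h.succ := by
      refine (Ow_congr _ fun v hv q => ?_).symm
      by_cases hv2 : v = .inl (.inr m)
      · subst hv2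
        by_contra h0
        exact (Fin.castSucc_lt_succ (i := h)).ne' (cm _ q h0).1
      · exact absurd (by rw [hz', Function.update_of_ne hv2]) hv
    rw [e1]
    exact this
  have o4 : Ow b z' h.castSucc 0 = Ow b z h.castSucc 0 := by
    have := TL.Ow_other A (z := z) (z' := Function.update z (.inl (.inl h)) (tg b zs h c))
      (fun v hv => Function.update_of_ne hv _ _)
    have e1 : Ow b z' h.castSucc 0 =
        Ow b (Function.update z (.inl (.inl h)) (tg b zs h c)) h.castSucc 0 := by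
      have e2 : (tyW b h.castSucc).isMid = true := by rw [tyW_of_three hj]; rfl
      have e3 : ∀ y : DD (tyW b) ⊕ ZZ (tyW b) → ℂ,
          Ow b (Function.update y (.inl (.inr m)) ζ) h.castSucc 0 = Ow b y h.castSucc 0 := by
        intro y
        rcases A.other b y (fun _ => 0) with ⟨he, -⟩ | ⟨-, h2, j2, A2⟩
        · have a1 := A.Ow_no he (z := y)
          have a2 := A.Ow_no he (z := Function.update y (.inl (.inr m)) ζ)
          exact a2.trans a1.symm
        · have a1 := Ow_adj y A2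
          have a2 := Ow_adj (Function.update y (.inl (.inr m)) ζ) A2
          rw [Function.update_of_ne (by simp)] at a2
          exact a2.trans a1.symm
      exact e3 _
    rw [e1]
    exact this
  refine ⟨z', p', hadm, ?_, p1, p2, p3, hOw, ?_⟩
  · intro v hv
    by_contra hc
    exact (hmv.out v (Or.inl hc)).1 hv
  -- values
  have hV := V_move hb {h.castSucc, h.succ} (z := z) (z' := z') (fun i hi v hv q => by
    rw [Finset.mem_insert, Finset.mem_singleton, not_or] at hi
    by_cases hv1 : v = .inl (.inl h)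
    · subst hv1
      exact cf_hinge_zero hi.1 hi.2 q
    · by_cases hv2 : v = .inl (.inr m)
      · subst hv2
        by_contra h0
        exact hi.1 (cm i q h0).1
      · exact absurd (z3 v hv1 hv2).symm hv)
  rw [Finset.sum_pair (Fin.castSucc_lt_succ (i := h)).ne, OV_one hb hi, OV_one hb hi,
    OV_three hb hj, OV_three hb hj, o0, o1, o2, o3, o4] at hV
  have hS : ∑ k, p' k = ∑ k, p k - p (.inl h) - p (.inr m) := by
    have a1 : ∑ k, p' k - ∑ k, p k = ∑ k, (p' k - p k) := by rw [Finset.sum_sub_distrib]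
    have a2 : ∑ k, (p' k - p k) = ∑ k ∈ {Sum.inl h, Sum.inr m}, (p' k - p k) := by
      symm
      refine Finset.sum_subset (Finset.subset_univ _) fun k _ hk => ?_
      rw [Finset.mem_insert, Finset.mem_singleton, not_or] at hk
      rw [p3 k hk.1 hk.2, sub_self]
    rw [Finset.sum_pair (by simp), p1, p2] at a2
    linarith
  unfold Ph
  rw [hS]
  linarith

open Classical in
/-- **All corners are removed at once.** -/
theorem corners (hb : ClassW b) (hN : NbT b R nb) (hM : MM b zs R nb z p)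
    (hq : ∀ h : Fin M, RH1 b (.inl h) → p (.inl h) = 0) (hL3 : Loss3 b zs) (D : Finset (Fin M)) :
    (∀ h ∈ D, Corner b zs nb z p h) →
    ∃ (z' : DD (tyW b) ⊕ ZZ (tyW b) → ℂ) (p' : DD (tyW b) → ℝ),
      Adm (wdat (tyW b) b) (wparM b zs) zs R nb z' p' ∧ (∀ v ∈ nb, z' v = z v) ∧
      (∀ h ∈ D, p' (.inl h) = 0) ∧
      (∀ h ∈ D, ∀ m : {i : Fin (M + 1) // (tyW b i).isMid = true}, m.1 = h.castSucc →
        p' (.inr m) = 0) ∧
      (∀ h, h ∉ D → p' (.inl h) = p (.inl h)) ∧
      (∀ m : {i : Fin (M + 1) // (tyW b i).isMid = true}, (∀ h ∈ D, m.1 ≠ h.castSucc) →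
        p' (.inr m) = p (.inr m)) ∧
      (∀ i, (∀ h ∈ D, i ≠ h.succ ∧ i ≠ h.castSucc) → Ow b z' i = Ow b z i) ∧
      Ph b z p ≤ Ph b z' p' + D.card * (1 / 100) := by
  induction D using Finset.induction_on with
  | empty =>
    intro _
    exact ⟨z, p, hM.adm, fun _ _ => rfl, by simp, by simp, fun _ _ => rfl, fun _ _ => rfl,
      fun _ _ => rfl, by simp⟩
  | insert h D hh ih =>
    intro hD
    obtain ⟨z1, p1, a1, a2, a3, a4, a5, a6, a7, a8⟩ :=
      ih fun h' h1 => hD h' (Finset.mem_insert_of_mem h1)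
    have C := hD h (Finset.mem_insert_self _ _)
    obtain ⟨x, Dm⟩ := C.md
    have hmid : (tyW b h.castSucc).isMid = true := by rw [tyW_of_three C.three]; rfl
    set m : {i : Fin (M + 1) // (tyW b i).isMid = true} := ⟨h.castSucc, hmid⟩ with hm
    have hm1 : m.1 = h.castSucc := rfl
    have hnm : Sum.inl (Sum.inr m) ∉ nb := hN.inner_nnA m (A := (.l : Adj h h.castSucc 2 h.succ))
      Dm.nn
    have hfar : ∀ h' ∈ D, (h.succ ≠ h'.succ ∧ h.succ ≠ h'.castSucc) ∧
        (h.castSucc ≠ h'.succ ∧ h.castSucc ≠ h'.castSucc) := by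
      intro h' h1
      have C' := hD h' (Finset.mem_insert_of_mem h1)
      have hne : h ≠ h' := fun e => hh (e ▸ h1)
      refine ⟨⟨fun e => hne (Fin.succ_injective _ e), ?_⟩, ⟨?_,
        fun e => hne (Fin.castSucc_injective _ e)⟩⟩
      · intro e
        have h2 := C.one
        rw [e, C'.three] at h2
        exact absurd h2 (by decide)
      · intro e
        have h2 := C.three
        rw [e, C'.one] at h2
        exact absurd h2 (by decide)
    have e1 : Ow b z1 h.succ = Ow b z h.succ := a7 _ fun h' h1 => (hfar h' h1).1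
    have e2 : Ow b z1 h.castSucc = Ow b z h.castSucc := a7 _ fun h' h1 => (hfar h' h1).2
    have e3 : p1 (.inl h) = p (.inl h) := a5 h hh
    have e4 : p1 (.inr m) = p (.inr m) := a6 m fun h' h1 => (hfar h' h1).2.2
    obtain ⟨c, l', c0, c1, hl, hv⟩ := hL3 hN hM hq Dm C.one C.three C.sp m hm1
    have hX : 65 / 100 ≤ wXM b h := by
      unfold wXM
      rw [C.one, C.three]
      simp only [hp]
      norm_num
    obtain ⟨z2, p2, b1, b2, b3, b4, b5, b6, b7⟩ := corner_move hb hN.ok.1 a1 m hm1 C.one C.three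
      Dm.nn hnm c0 (c1.trans hX) (by rw [e2, e4]; exact hl)
    rw [e1, e2, e3, e4] at b7
    refine ⟨z2, p2, b1, fun v hv => (b2 v hv).trans (a2 v hv), ?_, ?_, ?_, ?_, ?_, ?_⟩
    · intro h' h1
      rcases Finset.mem_insert.1 h1 with rfl | h1
      · exact b3
      · have hne : h' ≠ h := fun e => hh (e ▸ h1)
        rw [b5 (.inl h') (by simpa using hne) (by simp)]
        exact a3 h' h1
    · intro h' h1 m' hm'
      rcases Finset.mem_insert.1 h1 with rfl | h1
      · have : m' = m := Subtype.ext (hm'.trans hm1.symm)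
        rw [this]
        exact b4
      · have hne : m' ≠ m := by
          rintro rfl
          exact (hfar h' h1).2.2 hm'
        rw [b5 (.inr m') (by simp) (by simpa using hne)]
        exact a4 h' h1 m' hm'
    · intro h' h1
      rw [Finset.mem_insert, not_or] at h1
      rw [b5 (.inl h') (by simpa using h1.1) (by simp)]
      exact a5 h' h1.2
    · intro m' hm'
      have hne : m' ≠ m := by
        rintro rfl
        exact hm' h (Finset.mem_insert_self _ _) rfl
      rw [b5 (.inr m') (by simp) (by simpa using hne)]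
      exact a6 m' fun h' h1 => hm' h' (Finset.mem_insert_of_mem h1)
    · intro i hi
      have h1 := hi h (Finset.mem_insert_self _ _)
      rw [b6 i h1.1 h1.2]
      exact a7 i fun h' h2 => hi h' (Finset.mem_insert_of_mem h2)
    · rw [Finset.card_insert_of_notMem hh, b7]
      push_cast
      linarith

theorem sum_le_zero_penalty {z' : DD (tyW b) ⊕ ZZ (tyW b) → ℂ} {p' : DD (tyW b) → ℝ}
    (h0 : p' = 0) : Ph b z' p' = (wdat (tyW b) b).V z' := by
  unfold Ph
  rw [h0]
  simp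

/-- a corner gives a special hinge in the sense of the removal of the tails -/
theorem Corner.spc (hb : ClassW b) (hN : NbT b R nb) (C : Corner b zs nb z p h) :
    ∃ k : Fin M, k.castSucc = h.succ ∧ TL.Spc b R z k := by
  obtain ⟨k, P, A, hk, hre⟩ := C.sp
  obtain ⟨x, D⟩ := C.md
  have hk1 : k.castSucc = h.succ ∧ P = k.succ := by
    generalize hs : (2 : Fin 3) = s' at A
    generalize hi : h.succ = i' at A
    cases A with
    | l => exact ⟨rfl, rfl⟩
    | r => exact absurd hs (by decide)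
  obtain ⟨e1, rfl⟩ := hk1
  have ht : ¬ Tch b R h.succ := hN.not_tch D.adj D.nn
  have ht2 : ¬ Tch b R h.castSucc := hN.not_tch (.l : Adj h h.castSucc 2 h.succ) D.nn
  have hb1 := (hN.beyond A ht hk).1
  have hcl : clsW b k.succ = .one ∨ clsW b k.succ = .two := by
    rcases okp_of hb D.adj (A : Adj k h.succ (0 : Fin 3).rev k.succ) C.one with h1 | h1
    · rw [C.three] at h1
      rcases h1 with h1 | h1 | h1 <;> exact absurd h1 (by decide)
    · rcases h1 with h1 | h1 | h1
      · exact Or.inl h1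
      · exact Or.inr h1
      · exact (MM.real_twoE hN A ht hk h1).elim
  refine ⟨k, e1, hb1, hcl, by rw [e1]; exact ht, by rw [e1]; exact C.one,
    ⟨h, h.castSucc, by rw [e1]; exact D.adj, C.three, ht2⟩, hre⟩

open Classical in
/-- the losses of the corners are among the extra losses of the tails -/
theorem card_le_ee (hb : ClassW b) (hN : NbT b R nb) (D : Finset (Fin M))
    (hD : ∀ h ∈ D, Corner b zs nb z p h) : (D.card : ℝ) * (1 / 100) ≤ ∑ h, TL.ee b R z h := by
  choose! f hf using fun h (hh : h ∈ D) => (hD h hh).spc hb hN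
  have hinj : Set.InjOn f D := by
    intro h1 m1 h2 m2 e
    have a1 := (hf h1 m1).1
    have a2 := (hf h2 m2).1
    rw [e] at a1
    exact Fin.succ_injective _ (a1.symm.trans a2)
  have h0 : ∀ h, 0 ≤ TL.ee b R z h := by
    intro h
    unfold TL.ee
    split_ifs <;> norm_num
  calc (D.card : ℝ) * (1 / 100) = ∑ h ∈ D.image f, TL.ee b R z h := by
        rw [Finset.sum_image hinj]
        rw [Finset.sum_congr rfl fun h hh => (by
          unfold TL.ee
          rw [if_pos (hf h hh).2] : TL.ee b R z (f h) = 1 / 100)]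
        rw [Finset.sum_const, nsmul_eq_mul]
    _ ≤ ∑ h, TL.ee b R z h :=
        Finset.sum_le_univ_sum_of_nonneg h0

open Classical in
/-- **Removal of the mirrored paths with a loss at the special hinges.** -/
theorem lossy (hb : ClassW b) (hL : Loc b zs) (K : KindsL b zs) (I : InnersL b zs)
    (hN : NbT b R nb) (hM : MM b zs R nb z p)
    (hq : ∀ h : Fin M, RH1 b (.inl h) → p (.inl h) = 0) :
    ∃ z', Adm (wdat (tyW b) b) (wparM b zs) zs R nb z' 0 ∧ (∀ v ∈ nb, z' v = z v) ∧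
      Ph b z p ≤ (wdat (tyW b) b).V z' + ∑ h, TL.ee b R z h := by
  have hk := K.hinge hb hL hN hM hq
  set D : Finset (Fin M) := univ.filter fun h => p (.inl h) ≠ 0 with hDdef
  have hD : ∀ h ∈ D, Corner b zs nb z p h := by
    intro h hh
    rw [hDdef, Finset.mem_filter] at hh
    exact (hk h).resolve_left hh.2
  have hall : ∀ (h : Fin M) (i j : Fin (M + 1)), Adj h i 0 j →
      p (.inl h) = 0 ∨ (clsW b i = .one ∧ clsW b j = .three) := by
    intro h i j A
    rcases hk h with h0 | C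
    · exact Or.inl h0
    · right
      generalize hs : (0 : Fin 3) = s' at A
      cases A with
      | l => exact absurd hs (by decide)
      | r => exact ⟨C.one, C.three⟩
  obtain ⟨z', p', a1, a2, a3, a4, a5, a6, -, a8⟩ := corners hb hN hM hq K.loss D hD
  have hp0 : p' = 0 := by
    funext k
    rcases k with h | m
    · show p' (.inl h) = 0
      by_cases hh : h ∈ D
      · exact a3 h hh
      · rw [a5 h hh]
        by_contra hc
        exact hh (by rw [hDdef, Finset.mem_filter]; exact ⟨Finset.mem_univ _, hc⟩)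
    · show p' (.inr m) = 0
      by_cases hm : ∃ h ∈ D, m.1 = h.castSucc
      · obtain ⟨h, h1, h2⟩ := hm
        exact a4 h h1 m h2
      · push Not at hm
        rw [a6 m hm]
        by_cases hn : Sum.inl (Sum.inr m) ∈ nb
        · by_cases hr : (Sum.inr m : DD (tyW b)) ∈ R
          · exact (hM.adm.tail _ hr).2.2.2
          · exact (hM.adm.reD _ hr hn).2.2.2
        -- the hinges of the region are not in a mode
        have hloc : ∀ (h : Fin M) (s : Fin 3) (j : Fin (M + 1)), Adj h m.1 s j →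
            p (.inl h) = 0 := by
          intro h s j A
          by_contra hc
          have hh : h ∈ D := by rw [hDdef, Finset.mem_filter]; exact ⟨Finset.mem_univ _, hc⟩
          have C := hD h hh
          generalize hi : m.1 = i' at A
          cases A with
          | l => exact hm h hh hi
          | r =>
            have h1 := C.one
            have h2 := m.2
            rw [hi, tyW_of_one h1] at h2
            exact absurd h2 (by decide)
        have hmid := m.2
        rcases hc : clsW b m.1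
        · rw [tyW_of_one hc] at hmid; exact absurd hmid (by decide)
        · rw [tyW_of_two (Or.inl hc)] at hmid; exact absurd hmid (by decide)
        · rw [tyW_of_two (Or.inr hc)] at hmid; exact absurd hmid (by decide)
        · exact I.three m hN hM hq hloc hall hc hn
        · exact I.threeE m hN hM hq hloc hc hn
        · rw [tyW_of_ring hb hc] at hmid; exact absurd hmid (by decide)
  subst hp0
  refine ⟨z', a1, a2, ?_⟩
  have h1 := card_le_ee hb hN D hD
  have h2 : Ph b z' 0 = (wdat (tyW b) b).V z' := sum_le_zero_penalty rfl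
  rw [h2] at a8
  linarith

/-- **Removal of the mirrored paths**, no tails. -/
theorem modes0_of (hb : ClassW b) (hL : Loc b zs) (K : KindsL b zs) (I : InnersL b zs)
    (hq : ∀ {z : DD (tyW b) ⊕ ZZ (tyW b) → ℂ} {p : DD (tyW b) → ℝ}, MM b zs ∅ ∅ z p →
      ∀ h : Fin M, RH1 b (.inl h) → p (.inl h) = 0) : ModeOk0 b zs (wparM b zs) := by
  refine modeOk0_of fun z p hM => ?_
  have hq' := hq hM
  have hh : ∀ h : Fin M, p (.inl h) = 0 := by
    intro h
    rcases K.hinge hb hL NbT.empty hM hq' h with h0 | C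
    · exact h0
    · obtain ⟨k, P, -, hk, -⟩ := C.sp
      simp at hk
  funext k
  rcases k with h | m
  · exact hh h
  · show p (.inr m) = 0
    have hmid := m.2
    rcases hc : clsW b m.1
    · rw [tyW_of_one hc] at hmid; exact absurd hmid (by decide)
    · rw [tyW_of_two (Or.inl hc)] at hmid; exact absurd hmid (by decide)
    · rw [tyW_of_two (Or.inr hc)] at hmid; exact absurd hmid (by decide)
    · exact I.three m NbT.empty hM hq' (fun h _ _ _ => hh h) (fun h _ _ _ => Or.inl (hh h)) hc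
        (by simp)
    · exact I.threeE m NbT.empty hM hq' (fun h _ _ _ => hh h) hc (by simp)
    · rw [tyW_of_ring hb hc] at hmid; exact absurd hmid (by decide)

end SR

end Pool.Agent.Work.MP_b30479_gtS.G2

end
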