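import Pool.Agent.Work.MP_b30479_gt.TBS.G2.MR12_0

section

/-!
# Part of `MR12`
-/
set_option linter.unusedSimpArgs false

namespace Pool.Agent.Work.MP_b30479_gtS.G2

open VOL NumUs

namespace M12

variable {x T B β τ : ℝ}

theorem bp_nr (hx : 35 / 100 ≤ x) (hx' : x ≤ 70 / 100) (hT : -(66 / 1000) ≤ T) (hT' : T ≤ 1 / 1000)
    (hτ : τ = T * (20 / 7 * (7 / 10 - x))) (hb : -(33 / 1000) ≤ β) (hb' : β ≤ 1145 / 10000)
    (hTb : T + β ≤ 77 / 1000)
    (hB : B ≤ 70 / 100) (hs : 51 / 50 ≤ x + B) (h0 : 0 ≤ τ + β) :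
    0 < gn (1 / 4) x τ T B β := by
  have e0 : T * (20 / 7 * (7 / 10 - x)) = τ := hτ.symm
  obtain ⟨t1, t2⟩ := tau_mem hτ hx hx' (a := -(66 / 1000)) (b := 1 / 1000) (by norm_num) (by norm_num) hT hT'
  have hz := RV.beyond (y := τ + β) (show x + B = (x + B - 1) + 1 by ring)
  rw [abs_of_nonneg h0] at hz
  have h : chk [gBp, cT 770, cb 1145, cc (-330), cB 7000] 24
    [NumIs.V.of 10000 3500 7000, NumIs.V.of 10000 (-660) 10,
      NumIs.V.of 10000 10200 14000, NumIs.V.of 10000 0 1155] = true := bp_nr_h1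
  obtain ⟨f, hf, hp⟩ := chk4 h (by norm_num) (x := x) (y := T) (z := x + B) (w := τ + β)
    (by norm_num; linarith only [hx]) (by norm_num; linarith only [hx']) (by norm_num; linarith only [hT]) (by norm_num; linarith only [hT'])
    (by norm_num; linarith only [hs]) (by norm_num; linarith only [hx', hB]) (by norm_num; linarith only [h0]) (by norm_num; linarith only [hb', t2])
  simp only [List.mem_cons, List.not_mem_nil, or_false] at hf
  rcases hf with rfl | rfl | rfl | rfl | rfl
  · simp only [gBp, gR, eX, eT, eU, eS, et, be, bb, E.val, NumIs.lkR] at hp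
    push_cast at hp
    try simp only [div_one, e0, add_sub_cancel_left, ← hτ] at hp
    unfold gn
    linarith only [hz, hp]
  · simp only [cT, eX, eT, eU, eS, et, be, bb, E.val, NumIs.lkR] at hp
    push_cast at hp
    try simp only [div_one, e0, add_sub_cancel_left, ← hτ] at hp
    linarith only [hTb, hp]
  · simp only [cb, eX, eT, eU, eS, et, be, bb, E.val, NumIs.lkR] at hp
    push_cast at hp
    try simp only [div_one, e0, add_sub_cancel_left, ← hτ] at hp
    linarith only [hb', hp]
  · simp only [cc, eX, eT, eU, eS, et, be, bb, E.val, NumIs.lkR] at hp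
    push_cast at hp
    try simp only [div_one, e0, add_sub_cancel_left, ← hτ] at hp
    linarith only [h0, t2, hp]
  · simp only [cB, eX, eT, eU, eS, et, be, bb, E.val, NumIs.lkR] at hp
    push_cast at hp
    try simp only [div_one, e0, add_sub_cancel_left, ← hτ] at hp
    linarith only [hB, hp]

end M12

end Pool.Agent.Work.MP_b30479_gtS.G2

end

section

/-!
# Part of `MR12`
-/
set_option linter.unusedSimpArgs false

namespace Pool.Agent.Work.MP_b30479_gtS.G2

open VOL NumUs

namespace M12

variable {x T B β τ : ℝ}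

theorem bm_nr (hx : 35 / 100 ≤ x) (hx' : x ≤ 70 / 100) (hT : -(66 / 1000) ≤ T) (hT' : T ≤ 1 / 1000)
    (hτ : τ = T * (20 / 7 * (7 / 10 - x))) (hb : -(33 / 1000) ≤ β) (hb' : β ≤ 1145 / 10000)
    (hTb : T + β ≤ 77 / 1000)
    (hB : B ≤ 70 / 100) (hs : 51 / 50 ≤ x + B) (h0 : τ + β ≤ 0) :
    0 < gn (1 / 4) x τ T B β := by
  have e0 : T * (20 / 7 * (7 / 10 - x)) = τ := hτ.symm
  obtain ⟨t1, t2⟩ := tau_mem hτ hx hx' (a := -(66 / 1000)) (b := 1 / 1000) (by norm_num) (by norm_num) hT hT'
  have hz := RV.beyond (y := τ + β) (show x + B = (x + B - 1) + 1 by ring)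
  rw [abs_of_nonpos h0] at hz
  have h : chk [gBm, cT 770, cb 1145, cc (-330), cB 7000] 24
    [NumIs.V.of 10000 3500 7000, NumIs.V.of 10000 (-660) 10,
      NumIs.V.of 10000 10200 14000, NumIs.V.of 10000 (-990) 0] = true := bm_nr_h1
  obtain ⟨f, hf, hp⟩ := chk4 h (by norm_num) (x := x) (y := T) (z := x + B) (w := τ + β)
    (by norm_num; linarith only [hx]) (by norm_num; linarith only [hx']) (by norm_num; linarith only [hT]) (by norm_num; linarith only [hT'])
    (by norm_num; linarith only [hs]) (by norm_num; linarith only [hx', hB]) (by norm_num; linarith only [hb, t1]) (by norm_num; linarith only [h0])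
  simp only [List.mem_cons, List.not_mem_nil, or_false] at hf
  rcases hf with rfl | rfl | rfl | rfl | rfl
  · simp only [gBm, gR, eX, eT, eU, eS, et, be, bb, E.val, NumIs.lkR] at hp
    push_cast at hp
    try simp only [div_one, e0, add_sub_cancel_left, ← hτ] at hp
    unfold gn
    linarith only [hz, hp]
  · simp only [cT, eX, eT, eU, eS, et, be, bb, E.val, NumIs.lkR] at hp
    push_cast at hp
    try simp only [div_one, e0, add_sub_cancel_left, ← hτ] at hp
    linarith only [hTb, hp]
  · simp only [cb, eX, eT, eU, eS, et, be, bb, E.val, NumIs.lkR] at hp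
    push_cast at hp
    try simp only [div_one, e0, add_sub_cancel_left, ← hτ] at hp
    linarith only [hb', hp]
  · simp only [cc, eX, eT, eU, eS, et, be, bb, E.val, NumIs.lkR] at hp
    push_cast at hp
    try simp only [div_one, e0, add_sub_cancel_left, ← hτ] at hp
    linarith only [hb, hp]
  · simp only [cB, eX, eT, eU, eS, et, be, bb, E.val, NumIs.lkR] at hp
    push_cast at hp
    try simp only [div_one, e0, add_sub_cancel_left, ← hτ] at hp
    linarith only [hB, hp]

end M12

end Pool.Agent.Work.MP_b30479_gtS.G2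

end
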