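import Pool.Agent.Work.MP_b30479_gt.TBS.G2.WTab
import Pool.Agent.Work.MP_b30479_gt.TBS.G2.MR12_1
import Pool.Agent.Work.MP_b30479_gt.TBS.G2.WLocX
import Pool.Agent.Work.MP_b30479_gt.TBS.G2.WVal
import Pool.Agent.Work.MP_b30479_gt.TBS.G2.ZNzs4
import Pool.Agent.Work.MP_b30479_gt.TBS.G2.ZNqs3
import Pool.Agent.Work.MP_b30479_gt.TBS.G2.ZRows
import Pool.Agent.Work.MP_b30479_gt.TBS.G2.MDc
import Pool.Agent.Work.MP_b30479_gt.TBS.G2.RngA
import Pool.Agent.Work.MP_b30479_gt.TBS.G2.ZNr
import Pool.Agent.Work.MP_b30479_gt.TBS.G2.ZNss1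
import Pool.Agent.Work.MP_b30479_gt.TBS.NumU.GenL
import Pool.Agent.Work.MP_b30479_gt.TBS.G2.ZNua
import Pool.Agent.Work.MP_b30479_gt.TBS.G2.ZNws1
import Pool.Agent.Work.MP_b30479_gt.TBS.G2.ZNws3

section

/-!
# Cap of the hinges between a digit `1` and an end digit `2`
-/

namespace Pool.Agent.Work.MP_b30479_gtS.G2

open Finset VOL Filter Topology NumUs

namespace M12

/-- value of the two regions as a function of the hinge -/
noncomputable def vv (x τ B β : ℝ) : ℝ := V1 ⟨x, τ⟩ ⟨B, β⟩ + V2 ⟨x, -τ⟩ 0

theorem vv_eq (x τ B β : ℝ) : vv x τ B β = Real.pi * (x * β + τ * B - τ - β) +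
    uu (x + B) (τ + β) - 2 * uu x τ - uu B β + Real.pi / 2 * (τ * (2 * x + 1)) := by
  have e : UU ⟨x, -τ⟩ = uu x τ := uu_neg x τ
  unfold vv V1 V2
  simp only [sub_zero, add_zero, Complex.sub_im, Complex.mul_im, Complex.add_im, sq, UU_zero, e]
  rw [show (⟨x, τ⟩ : ℂ) + ⟨B, β⟩ = ⟨x + B, τ + β⟩ from rfl,
    show UU ⟨x + B, τ + β⟩ = uu (x + B) (τ + β) from rfl, show UU ⟨x, τ⟩ = uu x τ from rfl,
    show UU ⟨B, β⟩ = uu B β from rfl]
  ring

theorem gn_eq (x τ T B β c : ℝ) : vv c T B β - vv x τ B β = gn c x τ T B β := by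
  unfold gn
  rw [vv_eq, vv_eq, add_comm B c]
  ring

theorem tr_le {XM cl cr x : ℝ} (hx : 0 ≤ x) (hc : 0 < cl) : tr 0 XM cl cr x ≤ x / cl := by
  unfold tr
  refine max_le (by positivity) ((min_le_right _ _).trans ((min_le_left _ _).trans ?_))
  rw [sub_zero]

/-- the height on a path -/
theorem part {v : ℂ} {k XM cl cr : ℝ} (h : RH v k XM cl cr) (hc : 0 < cl) :
    (0 ≤ k → 0 ≤ v.im ∧ v.im ≤ k ∧ v.im ≤ k * (v.re / cl)) ∧ (k ≤ 0 → k ≤ v.im ∧ v.im ≤ 0) := by
  have h3 : 0 ≤ tr 0 XM cl cr v.re := le_max_left _ _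
  have h4 : tr 0 XM cl cr v.re ≤ 1 := max_le zero_le_one (min_le_left _ _)
  have h5 := tr_le (XM := XM) (cr := cr) h.re0 hc
  rw [h.im]
  refine ⟨fun hk => ⟨mul_nonneg hk h3, ?_, mul_le_mul_of_nonneg_left h5 hk⟩, fun hk => ⟨?_, ?_⟩⟩
  · nlinarith only [h4, hk]
  · nlinarith only [h4, hk]
  · nlinarith only [h3, hk]

end M12

namespace SR

variable {M : ℕ} {b : Fin (M + 1) → ℤ} {zs : DD (tyW b) ⊕ ZZ (tyW b) → ℂ}
variable {y : DD (tyW b) ⊕ ZZ (tyW b) → ℝ}
variable {h h' : Fin M} {i j j' : Fin (M + 1)} {p : Fin 3}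

/-- lower bounds of the left ramp of the hinges of a digit `1` -/
noncomputable def k1c : Cl → ℝ
  | .one => 15 / 100 | .two => 16 / 100 | .twoE => 14 / 100 | .three => 13 / 100
  | .threeE => 14 / 100 | .ring => 16 / 100

theorem Adj.k1c_le (A : Adj h i p j) (hi : clsW b i = .one) : k1c (clsW b j) ≤ wcl b h := by
  rw [A.cl_eq b, hi]
  unfold hpp
  generalize clsW b j = B
  cases B <;> split_ifs <;> simp only [hp, hp1, k1c] <;> (try split_ifs) <;> norm_num

/-- the range of the other hinge `B + i β` of a digit `1` with a hinge `1 | 2E` of height `T` -/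
theorem part_12E (hX : LocX b zs) (hy : Mx b zs y) (hF : Flr b y F0)
    (A : Adj h i p j) (A' : Adj h' i p.rev j') (hi : clsW b i = .one) (hj : clsW b j = .twoE) :
    7 / 100 ≤ (Yw b zs y i p.rev).re ∧ (Yw b zs y i p.rev).im ≤ (Yw b zs y i p.rev).re ∧
    ((clsW b j' ≠ .ring ∧ -(66 / 1000) ≤ ofs (b i) (zs (.inl (.inl h))).im ∧
      ofs (b i) (zs (.inl (.inl h))).im ≤ 1 / 1000 ∧ -(33 / 1000) ≤ (Yw b zs y i p.rev).im ∧
      (Yw b zs y i p.rev).im ≤ 1145 / 10000 ∧
      ofs (b i) (zs (.inl (.inl h))).im + (Yw b zs y i p.rev).im ≤ 77 / 1000) ∨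
    (clsW b j' = .ring ∧ -(61 / 1000) ≤ ofs (b i) (zs (.inl (.inl h))).im ∧
      ofs (b i) (zs (.inl (.inl h))).im ≤ -(24 / 1000) ∧ 0 ≤ (Yw b zs y i p.rev).im ∧
      (Yw b zs y i p.rev).im ≤ 158 / 1000 ∧
      ofs (b i) (zs (.inl (.inl h))).im + (Yw b zs y i p.rev).im ≤ 106 / 1000)) := by
  have hfl : 7 / 100 ≤ (Yw b zs y i p.rev).re := by
    rw [A'.re]
    have := hF A'
    rw [hi] at this
    simp only [F0] at this
    linarith only [this]
  have W1 := hX.win A A' hi
  have W2 := hX.win A' (by rw [Fin.rev_rev]; exact A) hi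
  rw [hj] at W1 W2
  have hcl := A'.k1c_le hi
  obtain ⟨q1, q2⟩ := M12.part (A'.rh hy) (wcl_pos h')
  generalize (Yw b zs y i p.rev) = v at *
  generalize ofs (b i) (zs (.inl (.inl h))).im = T at *
  generalize ofs (b i) (zs (.inl (.inl h'))).im = k at *
  generalize wcl b h' = cl at *
  have key : ∀ k1 : ℝ, 0 ≤ k1 → k ≤ k1 → k1 ≤ cl → 0 < cl → v.im ≤ v.re := by
    intro k1 hk0 hk1 hk2 hcl0
    rcases le_total 0 k with h0 | h0
    · obtain ⟨-, -, h5⟩ := q1 h0
      refine h5.trans ?_
      rw [mul_div_assoc', div_le_iff₀ hcl0, mul_comm]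
      exact mul_le_mul_of_nonneg_left (hk1.trans hk2) (by linarith only [hfl])
    · have := (q2 h0).2
      linarith only [hfl, this]
  refine ⟨hfl, ?_⟩
  generalize clsW b j' = P at *
  cases P <;> simp only [cw, k1c] at W1 W2 hcl <;> obtain ⟨a1, a2, a3, a4⟩ := W1 <;>
    obtain ⟨b1, b2, b3, b4⟩ := W2
  · refine ⟨key (80 / 1000) (by norm_num) b2 (by linarith only [hcl]) (by linarith only [hcl]), Or.inl
      ⟨by decide, a1, by linarith only [a2], ?_⟩⟩
    rcases le_total 0 k with h0 | h0
    · obtain ⟨c1, c2, -⟩ := q1 h0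
      refine ⟨?_, ?_, ?_⟩ <;> linarith only [c1, a1, a4, c2]
    · obtain ⟨c1, c2⟩ := q2 h0
      refine ⟨?_, ?_, ?_⟩ <;> linarith only [b1, c1, c2, a2]
  · refine ⟨key (985 / 10000) (by norm_num) b2 (by linarith only [hcl]) (by linarith only [hcl]), Or.inl
      ⟨by decide, by linarith only [a1], by linarith only [a2], ?_⟩⟩
    obtain ⟨c1, c2, -⟩ := q1 (by linarith only [a2, a3])
    refine ⟨?_, ?_, ?_⟩ <;> linarith only [c1, a1, a4, c2]
  · refine ⟨key (1 / 1000) (by norm_num) b2 (by linarith only [hcl]) (by linarith only [hcl]), Or.inl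
      ⟨by decide, by linarith only [a1], by linarith only [a2], ?_⟩⟩
    rcases le_total 0 k with h0 | h0
    · obtain ⟨c1, c2, -⟩ := q1 h0
      refine ⟨?_, ?_, ?_⟩ <;> linarith only [c1, a1, a4, c2]
    · obtain ⟨c1, c2⟩ := q2 h0
      refine ⟨?_, ?_, ?_⟩ <;> linarith only [a2, a3, c1, c2]
  · refine ⟨key (1145 / 10000) (by norm_num) b2 (by linarith only [hcl]) (by linarith only [hcl]), Or.inl
      ⟨by decide, by linarith only [a1], by linarith only [a2], ?_⟩⟩
    obtain ⟨c1, c2, -⟩ := q1 (by linarith only [a2, a3])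
    refine ⟨?_, ?_, ?_⟩ <;> linarith only [c1, b2, c2, a4]
  · refine ⟨key (78 / 1000) (by norm_num) b2 (by linarith only [hcl]) (by linarith only [hcl]), Or.inl
      ⟨by decide, by linarith only [a1], by linarith only [a2], ?_⟩⟩
    obtain ⟨c1, c2, -⟩ := q1 (by linarith only [a2, a3])
    refine ⟨?_, ?_, ?_⟩ <;> linarith only [c1, a1, a4, c2]
  · refine ⟨key (158 / 1000) (by norm_num) b2 (by linarith only [hcl]) (by linarith only [hcl]), Or.inr
      ⟨rfl, a1, a2, ?_⟩⟩
    obtain ⟨c1, c2, -⟩ := q1 (by linarith only [a2, a3])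
    refine ⟨?_, ?_, ?_⟩ <;> linarith only [c1, b2, c2, a4]

/-- **Cap of the hinges `1 | 2E`**: the flat end, if the hinges of the digits `1` are at most
`.70`. -/
theorem cap_one_twoE (hb : ClassW b) (hX : LocX b zs) (hy : Mx b zs y)
    (hpos : ∀ h : Fin M, 0 < y (.inl (.inl h))) (hF : Flr b y F0)
    (h70 : ∀ {h : Fin M} {i j : Fin (M + 1)} {p : Fin 3}, Adj h i p j → clsW b i = .one →
      y (.inl (.inl h)) ≤ 70 / 100)
    (A : Adj h i p j) (hi : clsW b i = .one) (hj : clsW b j = .twoE) :
    y (.inl (.inl h)) ≤ 35 / 100 := by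
  by_contra hcon
  push Not at hcon
  have hop := A.opp hb (Or.inl (by rw [hi]; decide))
  have hXM : wXM b h = 70 / 100 := by
    rw [A.XM_eq b, hi, hj]; unfold hpp; split_ifs <;> simp [hp, hp1]
  have hr : wcr b h = 35 / 100 := by
    rw [A.cr_eq b, hi, hj]; unfold hpp; split_ifs <;> simp [hp, hp1]
  have hl : wcl b h = 14 / 100 := by
    rw [A.cl_eq b, hi, hj]; unfold hpp; split_ifs <;> simp [hp, hp1]
  have hcon' : wXM b h - wcr b h < y (.inl (.inl h)) := by
    rw [hXM, hr]; linarith only [hcon]
  obtain ⟨h', j', A'⟩ := A.other' b (clsW_inner hb (Or.inl hi))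
  obtain ⟨f1, f2, f3⟩ := part_12E hX hy hF A A' hi hj
  have hrh := A.rh hy
  have hB : (Yw b zs y i p.rev).re ≤ 70 / 100 := by
    rw [A'.re]
    exact h70 A' hi
  have hrh' := A'.rh hy
  -- the hinge
  have hx : (Yw b zs y i p).re = y (.inl (.inl h)) := A.re
  have hx1 : (Yw b zs y i p).re ≤ 70 / 100 := by
    have := hrh.reM
    rwa [hXM] at this
  have hτ : (Yw b zs y i p).im = ofs (b i) (zs (.inl (.inl h))).im *
      (20 / 7 * (7 / 10 - (Yw b zs y i p).re)) := by
    have := MR.RH_right hrh (wcl_pos h) (wcr_pos h) (w_sum h) (by rw [hx]; exact hcon'.le)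
    rw [this, hXM, hr]
    ring
  -- first order
  have HD : (Yw b zs y i p).re + (Yw b zs y i p.rev).re ≤ 97 / 100 →
      M12.tt (-(ofs (b i) (zs (.inl (.inl h))).im) / (35 / 100)) (Yw b zs y i p).re
        (Yw b zs y i p).im (Yw b zs y i p.rev).re (Yw b zs y i p.rev).im < 0 → False := by
    intro hs hneg
    obtain ⟨c, e1, e2, hc, he, hs⟩ : RStep b zs y h (slL b zs y h) := by
      refine RStep.of_adj A (c := 0) (fun _ => rfl) ?_ le_rfl le_rfl
      rw [zero_mul, zero_mul, add_zero, add_zero, A.side_one hb hi,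
        A.symm.side_two hb (Or.inr hj), A.conj hop]
      have hv : Yw b zs y j p.rev.rev = 0 := by
        rcases A.symm.other b zs y with h5 | h5
        · exact h5.2
        · rw [clsW_end (Or.inl hj)] at h5
          exact absurd h5.1 (by decide)
      have hw : Yw b zs y i p ∈ strip := ⟨by rw [hx]; linarith only [hcon], by linarith only [hx1]⟩
      have hw' : starRingEnd ℂ (Yw b zs y i p) ∈ strip :=
        ⟨by rw [Complex.conj_re]; exact hw.1, by rw [Complex.conj_re]; exact hw.2⟩
      have hu : Yw b zs y i p + Yw b zs y i p.rev ∈ strip := by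
        refine ⟨?_, ?_⟩
        · rw [Complex.add_re]; linarith only [hcon, f1, hx, hw.1]
        · rw [Complex.add_re]; linarith only [hXM, hr, hcon', hx, hx1, hs]
      rw [hv, MR.S1_eq _ hw hu, MR.S2_zero_eq _ hw', Complex.conj_re, Complex.conj_im, ofs_opp hop,
        ofs_slL_ramp _ hcon', hr, ← neg_div]
      exact hneg
    exact rside_false hb hy h (hpos h) hc he hs
  -- value
  have HV : ∀ c : ℝ, 14 / 100 ≤ c → c ≤ 35 / 100 →
      0 < M12.gn c (Yw b zs y i p).re (Yw b zs y i p).im (ofs (b i) (zs (.inl (.inl h))).im)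
        (Yw b zs y i p.rev).re (Yw b zs y i p.rev).im → False := by
    intro c hc1 hc2 hg
    have h1 := val_hinge hb hy A (c := c) (by linarith only [hc1]) (by rw [hXM]; linarith only [hXM, hr, hcon', hx, hx1, hc2])
    have hE : EndOk j (OY b zs y j) := Ow_endOk ((wpar b zs).pth zs y) j
    rw [dV_one hb A hi, dV_twoE hb A.symm hj hE, OY_hinge y A, OY_hinge y A', OY_hinge y A.symm,
      pw_flat (b i) h (by rw [hl]; exact hc1) (by rw [hXM, hr]; linarith only [hc2]),
      pw_flat (b j) h (by rw [hl]; exact hc1) (by rw [hXM, hr]; linarith only [hc2]), ofs_opp hop] at h1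
    have e1 : pw b zs (b i) h (y (.inl (.inl h))) = Yw b zs y i p := A.Yw_eq.symm
    have e2 : pw b zs (b i) h' (y (.inl (.inl h'))) = Yw b zs y i p.rev := A'.Yw_eq.symm
    have e3 : pw b zs (b j) h (y (.inl (.inl h))) = starRingEnd ℂ (Yw b zs y i p) :=
      A.symm.Yw_eq.symm.trans (A.conj hop)
    rw [e1, e2, e3] at h1
    have e4 : ∀ t : ℝ, (c : ℂ) + (t : ℂ) * Complex.I = ⟨c, t⟩ := by
      intro t
      apply Complex.ext <;> simp
    rw [e4, e4] at h1
    have h2 := M12.gn_eq (Yw b zs y i p).re (Yw b zs y i p).im (ofs (b i) (zs (.inl (.inl h))).im)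
      (Yw b zs y i p.rev).re (Yw b zs y i p.rev).im c
    unfold M12.vv at h2
    have e5 : (⟨(Yw b zs y i p).re, -(Yw b zs y i p).im⟩ : ℂ) = starRingEnd ℂ (Yw b zs y i p) := by
      apply Complex.ext <;> simp
    rw [e5, Complex.eta, Complex.eta] at h2
    linarith only [hg, h1, h2]
  generalize Yw b zs y i p = w at *
  generalize Yw b zs y i p.rev = v at *
  generalize ofs (b i) (zs (.inl (.inl h))).im = T at *
  have hx0 : 35 / 100 ≤ w.re := by rw [hx]; exact hcon.le
  rcases f3 with ⟨-, g1, g2, g3, g4, g5⟩ | ⟨hrg, g1, g2, g3, g4, g5⟩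
  · rcases le_total (w.re + v.re) (97 / 100) with h1 | h1
    · exact HD h1 (M12.d_nr hx0 hx1 g1 g2 hτ g3 g4 g5 f1 f2 h1)
    · exact HV (1 / 4) (by norm_num) (by norm_num) (M12.v_hs_nr hx0 hx1 g1 g2 hτ g3 g4 g5 hB h1)
  · rcases le_total (w.re + v.re) (97 / 100) with h1 | h1
    · rcases le_total w.re (60 / 100) with h2 | h2
      · exact HD h1 (M12.d_rg hx0 h2 g1 g2 hτ g3 g4 g5 f1 f2 h1)
      · exact HV (32 / 100) (by norm_num) (by norm_num)
          (M12.v_rg h2 hx1 g1 g2 hτ g3 g4 g5 f1 f2 h1)
    · have hB' : v.re ≤ 65 / 100 := by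
        have h3 := hrh'.reM
        have h4 : wXM b h' = 65 / 100 := by
          rw [A'.XM_eq b, hi, hrg]; unfold hpp; split_ifs <;> simp [hp, hp1]
        rwa [h4] at h3
      exact HV (1 / 4) (by norm_num) (by norm_num) (M12.v_hs_rg hx0 hx1 g1 g2 hτ g3 g4 g5 hB' h1)

end SR

end Pool.Agent.Work.MP_b30479_gtS.G2

end

section

/-!
# `RowsN`: a digit `3`, slot `2`, certificates
-/

set_option linter.unusedVariables false
set_option linter.unusedSimpArgs false

namespace Pool.Agent.Work.MP_b30479_gtS.G2

open NumUs (uu)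
open NumLs (E)
open NumLs.E (mn mn_val)

namespace ZD

namespace ZK

theorem r_d1 : NumLs.chkF d1 10000 0 0 10000 7 40 0 1300 0 8000 0 20000 0 7
    805985041020646510188128258907373495926453174275410648328987236236001366737425924409402189811545393176539020108851199929298042621311695337710046238063915527668706717958664530908655309755976021165194796876544653008783741456380658930127827398555117768952654222088478736530705518889616348912319918273153064841834251284989010886104980863455552312743923238981331509054390653110985731515497470036472352130480247196703773338764648106842892412828101587400246831534377633133757367419305900510632096255551513223338750043106889527745554664662559386441403587812318634711745740752901242578948148995403121464165967695202730738264712048745419236818446378340680763774353305893248621520036910735869470873737651962632155246257333189639222870216439358888042924143262283247711685426477722616937610869843178999030036443238909450400525314337297141362674730247781152143345953313276949132081667057227862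417415195639901104377104587132156278111030275415699879758523370882053095690892512476768038602724448812026132164241841289457799628053261837604895304730806238933099954117654150320824406474222169804293406075010326167931858711375803139256694977937949280031571392227598735705160456780318535887619012030439599879194024198179104536655304838449648023917619536014261505262398275099523486759880614093803017779795446740572942707878884173757464472309532318997533229799126722720334047088829035259674812411718601175908253927771571452320325480408463276847381516712272803193285471450102965256417825532584925043073352485425889889759514962352801859794906707505539587007840865897917691324759015706870111667167101586141442266765541022203854167535871937281380488733558691461108798487598800684510464449586657012258937018949485494053353115098124846536803308433174616093140744277059791156243823084052943158581253439659396831655729362283403205045285557730081699813142903194599631274141559142221096919796996311606452100127722193722560875592977832379290632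2427491494843956835357840076205583393997404925294222778119707400018495089331060555088954526031543126538534631840270008700295951694759085775546149252972543436960340450239425373003203913385497326565276042557867409715199922874375295218582829287873177459678847603072349318547357668921118272206165813734385597355775919194788497404802863104441998171903912243673518632265512247986985560264286876798597218928037036867298460253956801379491043352759595433464716268529361488738498569372887489648657531730263579178357835635290402641000326065471168192579225814554675873060432363950519767241479769601958312228353881356480286419215142954552536945198341475570696161917069746152217386749509487749188515178077245671277442151034743280543794943129496966545471836281756854091272748698824392591767826649221857142464254584197967003906 = true :=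
  Pool.Agent.Work.NumIs.okB_of rfl rfl rfl rfl rfl rfl rfl rfl rfl rfl rfl rfl
    (Pool.Agent.Work.NumIs.runE_split2 rfl rfl rfl
      r_d1_p1
      r_d1_p2)

theorem r_d3 : NumLs.chkF d3 10000 0 0 10000 7 40 3000 6000 0 8000 0 20000 0 7
    28381708066396883866902576035883833561562040999047377744256624024409915858757735868069045251076429030454703921729006126650876068822390340462216670192949317453688193602803651169439245857254653327387362174799793512640473221332707792302268455581584903310591595143551930369176264325726416318524469111731229101076854901779779345444146426351396313744474680132785997904674799968017485717209251764140031974231643365163309556307968623926504698862211673879936514738244773595728915601011145536242204011771689234989157252855320344556006134614234942811778479235979017407762637022820937841699680872598832600265640039882108022875803473754224272112444781406193395303168474472736473177981380333891858373615034625229940498261525832969404492639614677911811377907924561757228331277174713137693929994077481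9763845706121900392778827391389700809003035223337254110598475274986300908610701780691405851406377096656783453225030260781113166797809947948681758923505896162992197512546035755245618267693011845491747268840276480402399614711461883989373454086003515018407101293848180171309616393523414260175418676813962106661882425992468587170498351490491383969403022262454408780173892847412365016796880140122606927534941780864211464597744986784470764359702577637504781585898600081051755642479700090175643115019504087082634618648591746818228511426777047280211622180620274551698966049519591114963583400342476886581149830544254965176616464442264204944752085679988038140189604478542738036647268170799890641847508472789896347449045817357419913989966439519441136749534838829446191976283576403531011981782291225948606979821738567268714636187473496225876198831271935981303910456013702472200856342870857656314556203099368529355817664395788333095184823655182715488676572806837463907960563682174619955323234703969316752457402094660370678052934716810287078603582444156617777553361866702204591211998532452338899982475831464464005037715047641848813076844787585240888650467968196628635992322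 = true :=
  Pool.Agent.Work.NumIs.okB_of rfl rfl rfl rfl rfl rfl rfl rfl rfl rfl rfl rfl
    (Pool.Agent.Work.NumIs.runE_split2 rfl rfl rfl
      r_d3_p1
      r_d3_p2)

end ZK

end ZD

end Pool.Agent.Work.MP_b30479_gtS.G2

end

section

/-!
# Modes at rings: the beginning of the mode path and high points
-/

namespace Pool.Agent.Work.MP_b30479_gtS.G2

open NumUs

namespace ZD

/-! ### the limit at infinity -/

theorem uu_lim (a : ℝ) {y : ℝ} (hy : y ≠ 0) : |uu a y - Real.pi * (a - 1 / 2) * (|y|)| ≤
    Real.exp (-(2 * Real.pi * |y|)) / (1 - Real.exp (-(2 * Real.pi * |y|))) / (2 * Real.pi) := by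
  have hp := Real.pi_pos
  have hy' : 0 < |y| := abs_pos.2 hy
  rw [uu_Lr, DT.Lr_series (abs_nonneg y) a]
  set E := Real.exp (-(2 * Real.pi * |y|)) with hE
  have hE0 : 0 < E := Real.exp_pos _
  have hE1 : E < 1 := by
    rw [hE, Real.exp_lt_one_iff]
    have : 0 < 2 * Real.pi * |y| := by positivity
    linarith only [this]
  set S := ∑' k : ℕ, Complex.exp (2 * Real.pi * Complex.I * (a + |y| * Complex.I)) ^ (k + 1) /
      ((k : ℂ) + 1) ^ 2 with hS
  have hn : ‖Complex.exp (2 * Real.pi * Complex.I * (a + |y| * Complex.I))‖ = E :=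
    DT.LrDer.norm_qq |y| a
  have h1 : ‖S‖ ≤ E / (1 - E) := by
    have hg : HasSum (fun k : ℕ => E * E ^ k) (E * (1 - E)⁻¹) :=
      (hasSum_geometric_of_lt_one hE0.le hE1).mul_left E
    rw [div_eq_mul_inv]
    refine tsum_of_norm_bounded hg fun k => ?_
    rw [norm_div, norm_pow, hn, norm_pow, pow_succ']
    have h2 : (1 : ℝ) ≤ ‖(k : ℂ) + 1‖ ^ 2 := by
      have : ‖(k : ℂ) + 1‖ = (k : ℝ) + 1 := by
        rw [show (k : ℂ) + 1 = (((k : ℝ) + 1 : ℝ) : ℂ) by push_cast; ring, Complex.norm_real,
          Real.norm_of_nonneg (by positivity)]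
      rw [this]
      have : (0 : ℝ) ≤ k := Nat.cast_nonneg k
      nlinarith
    exact div_le_self (by positivity) h2
  have h2 : |S.im| ≤ E / (1 - E) := (Complex.abs_im_le_norm S).trans h1
  have e : Real.pi * |y| * a - S.im / (2 * Real.pi) - Real.pi * |y| / 2 -
      Real.pi * (a - 1 / 2) * |y| = -(S.im / (2 * Real.pi)) := by ring
  rw [e, abs_neg, abs_div, abs_of_pos (by positivity : 0 < 2 * Real.pi)]
  exact div_le_div_of_nonneg_right h2 (by positivity)

theorem lim_of {c e b : ℝ} (h1 : Real.exp (-c) ≤ e) (he : e < 1) (h2 : e ≤ b * (6283 / 1000) * (1 - e))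
    {a y : ℝ} (hc : c ≤ 6283 / 1000 * |y|) (hy : y ≠ 0) :
    |uu a y - Real.pi * (a - 1 / 2) * (|y|)| ≤ b := by
  have hp := Real.pi_gt_d4
  have h := uu_lim a hy
  have h3 : Real.exp (-(2 * Real.pi * |y|)) ≤ e := by
    refine le_trans (Real.exp_le_exp.2 ?_) h1
    have := mul_le_mul_of_nonneg_right (show (6283 / 1000 : ℝ) ≤ 2 * Real.pi by linarith only [hp])
      (abs_nonneg y)
    linarith only [hc, this]
  have h4 : 0 < Real.exp (-(2 * Real.pi * |y|)) := Real.exp_pos _
  generalize Real.exp (-(2 * Real.pi * |y|)) = E at *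
  refine h.trans ?_
  rw [div_le_iff₀ (by positivity), div_le_iff₀ (by linarith only [he, h3])]
  have hb : 0 ≤ b := by
    by_contra hb
    push Not at hb
    have : b * (6283 / 1000) * (1 - e) ≤ 0 := by
      apply mul_nonpos_of_nonpos_of_nonneg
      · nlinarith only [hb]
      · linarith only [he]
    linarith only [h2, h3, h4, this]
  have h5 : b * (6283 / 1000) ≤ b * (2 * Real.pi) := mul_le_mul_of_nonneg_left (by linarith only [hp]) hb
  have h6 : 0 ≤ b * (6283 / 1000) := by positivity
  have h7 : b * (6283 / 1000) * (1 - e) ≤ b * (6283 / 1000) * (1 - E) :=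
    mul_le_mul_of_nonneg_left (by linarith only [h3]) h6
  have h8 : b * (6283 / 1000) * (1 - E) ≤ b * (2 * Real.pi) * (1 - E) :=
    mul_le_mul_of_nonneg_right h5 (by linarith only [he, h3])
  linarith only [h2, h3, h7, h8]

theorem exp_one_pow (n : ℕ) : (2718 / 1000 : ℝ) ^ n ≤ Real.exp n := by
  have h := Real.exp_one_gt_d9
  rw [← Real.exp_one_pow]
  exact pow_le_pow_left₀ (by norm_num) (by linarith only [h]) n

theorem lim84 {a y : ℝ} (hy : 84 / 100 ≤ |y|) :
    |uu a y - Real.pi * (a - 1 / 2) * (|y|)| ≤ 85 / 100000 := by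
  refine lim_of (c := 52777 / 10000) (e := 52 / 10000) ?_ (by norm_num) (by norm_num)
    (by linarith only [hy]) (by
      rintro rfl
      rw [abs_zero] at hy
      norm_num at hy)
  rw [Real.exp_neg, inv_le_comm₀ (Real.exp_pos _) (by norm_num)]
  have h1 := exp_one_pow 5
  have h2 := Real.quadratic_le_exp_of_nonneg (show (0 : ℝ) ≤ 2777 / 10000 by norm_num)
  have e : (52777 / 10000 : ℝ) = ((5 : ℕ) : ℝ) + 2777 / 10000 := by norm_num
  rw [e, Real.exp_add]
  refine le_trans ?_ (mul_le_mul h1 h2 (by norm_num) (Real.exp_pos _).le)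
  norm_num

theorem lim1 {a y : ℝ} (hy : 1 ≤ |y|) :
    |uu a y - Real.pi * (a - 1 / 2) * (|y|)| ≤ 32 / 100000 := by
  refine lim_of (c := 6283 / 1000) (e := 19 / 10000) ?_ (by norm_num) (by norm_num)
    (by linarith only [hy]) (by
      rintro rfl
      rw [abs_zero] at hy
      norm_num at hy)
  rw [Real.exp_neg, inv_le_comm₀ (Real.exp_pos _) (by norm_num)]
  have h1 := exp_one_pow 6
  have h2 := Real.quadratic_le_exp_of_nonneg (show (0 : ℝ) ≤ 283 / 1000 by norm_num)
  have e : (6283 / 1000 : ℝ) = ((6 : ℕ) : ℝ) + 283 / 1000 := by norm_num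
  rw [e, Real.exp_add]
  refine le_trans ?_ (mul_le_mul h1 h2 (by norm_num) (Real.exp_pos _).le)
  norm_num

/-! ### dependence on the height -/

theorem uu_abs (a y : ℝ) : uu a |y| = uu a y := by
  rcases abs_choice y with h | h
  · rw [h]
  · rw [h, uu_neg]

theorem uu_inc (a : ℝ) {s s' : ℝ} (h0 : 0 ≤ s) (h : s ≤ s') :
    uu a s' - uu a s = DT.Lr s' a - DT.Lr s a - Real.pi / 2 * (s' - s) := by
  rw [uu_Lr, uu_Lr, abs_of_nonneg h0, abs_of_nonneg (h0.trans h)]
  ring

theorem uu_lo {a s s' : ℝ} (ha : a ≤ 1 / 2) (h0 : 0 ≤ s) (h : s ≤ s') : uu a s' ≤ uu a s := by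
  have := uu_inc a h0 h
  have := inc_le_half ha h0 h
  linarith

theorem uu_hi {a s s' : ℝ} (ha : 1 / 2 ≤ a) (h0 : 0 ≤ s) (h : s ≤ s') : uu a s ≤ uu a s' := by
  have := uu_inc a h0 h
  have := inc_ge_half ha h0 h
  linarith

theorem uu_lo' {a s s' : ℝ} (h1 : 0 ≤ a) (ha : a ≤ 1 / 2) (h0 : 0 ≤ s) (h : s ≤ s') :
    uu a s ≤ uu a s' + Real.pi * (1 / 2 - a) * (s' - s) := by
  have h2 := uu_inc a h0 h
  have h3 := inc_ge_lin h1 ha le_rfl h0 h
  linarith only [h2, h3]

theorem uu_hi' {a s s' : ℝ} (ha : 1 / 2 ≤ a) (h1 : a ≤ 1) (h0 : 0 ≤ s) (h : s ≤ s') :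
    uu a s' ≤ uu a s + Real.pi * (a - 1 / 2) * (s' - s) := by
  have h2 := uu_lo' (a := 1 - a) (by linarith only [h1]) (by linarith only [ha]) h0 h
  rw [uu_one_sub, uu_one_sub] at h2
  linarith only [h2]

theorem uu_le_lim {a y : ℝ} (h0 : 0 ≤ a) (h1 : a ≤ 1 / 2) (hy : 0 ≤ y) :
    uu a y ≤ -(Real.pi * (1 / 2 - a) * y) := by
  have hp := Real.pi_pos
  -- limit
  have key : ∀ b : ℝ, 0 < b → uu a y ≤ -(Real.pi * (1 / 2 - a) * y) + b := by
    intro b hb
    have hT : Filter.Tendsto (fun s : ℝ => Real.exp (-(2 * Real.pi * s)) /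
        (1 - Real.exp (-(2 * Real.pi * s))) / (2 * Real.pi)) Filter.atTop (nhds 0) := by
      have h2 : Filter.Tendsto (fun s : ℝ => Real.exp (-(2 * Real.pi * s))) Filter.atTop
          (nhds 0) := by
        have h3 : Filter.Tendsto (fun s : ℝ => 2 * Real.pi * s) Filter.atTop Filter.atTop :=
          Filter.Tendsto.const_mul_atTop (by positivity) Filter.tendsto_id
        exact Real.tendsto_exp_neg_atTop_nhds_zero.comp h3
      have h4 := (h2.div (h2.const_sub 1) (by norm_num)).div_const (2 * Real.pi)
      simpa using h4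
    obtain ⟨s, hs, hs2⟩ := ((hT.eventually (gt_mem_nhds hb)).and
      (Filter.eventually_ge_atTop (max y 1))).exists
    have hs3 : y ≤ s := (le_max_left _ _).trans hs2
    have hs4 : 1 ≤ s := (le_max_right _ _).trans hs2
    have h5 := uu_lo' h0 h1 hy hs3
    have h6 := uu_lim a (y := s) (by linarith only [hs4])
    rw [abs_of_nonneg (show 0 ≤ s by linarith only [hs4])] at h6
    have h7 := (abs_le.mp h6).2
    linarith only [hs, h5, h7]
  by_contra hc
  push Not at hc
  have := key ((uu a y + Real.pi * (1 / 2 - a) * y) / 2) (by linarith only [hc])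
  linarith only [hc, this]

/-! ### small real parts -/

/-- the integral of `-log (2 sin)` -/
noncomputable def lz (x : ℝ) : ℝ := -DT.Lr 0 x

theorem lz_zero : lz 0 = 0 := by
  unfold lz
  rw [DT.Lr_zero_right, neg_zero]

theorem continuous_lz : Continuous lz := by
  unfold lz DT.Lr
  exact (intervalIntegral.continuous_primitive (fun a b => DT.el_intble 0 a b) 0).neg

theorem hasDerivAt_lz {x : ℝ} (h0 : 0 < x) (h1 : x < 1) :
    HasDerivAt lz (-Real.log (2 * Real.sin (Real.pi * x))) x := by
  have hs := VOL.sin_pi_pos h0 h1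
  have h := (DT.hasDerivAt_Lr_zero hs.ne').neg
  refine h.congr_deriv ?_
  rw [DT.el_eq]
  have e : (2 * Complex.sin (Real.pi * ((x : ℂ) + ((0 : ℝ) : ℂ) * Complex.I))) =
      ((2 * Real.sin (Real.pi * x) : ℝ) : ℂ) := by
    push_cast
    rw [zero_mul, add_zero]
  rw [e, Complex.norm_real, Real.norm_of_nonneg (by positivity)]

theorem Lr_ge_lz {ρ x : ℝ} (hρ : 0 ≤ ρ) (h0 : 0 ≤ x) : -lz x ≤ DT.Lr ρ x := by
  have h1 := Lr_diff_mono (a := x) (b := 0) h0 le_rfl hρ
  rw [DT.Lr_zero_right, DT.Lr_zero_right] at h1
  unfold lz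
  linarith only [h1]

theorem hasDerivAt_xlog {x : ℝ} (hx : 0 < x) :
    HasDerivAt (fun x : ℝ => 4 * x * Real.log (4 * x)) ((Real.log (4 * x) + 1) * 4) x := by
  have h := (Real.hasDerivAt_mul_log (x := 4 * x) (by positivity)).comp x
    ((hasDerivAt_id' x).const_mul 4)
  rw [mul_one] at h
  exact h

theorem lz_le {x : ℝ} (h0 : 0 ≤ x) (h1 : x ≤ 1 / 2) : lz x ≤ x - x * Real.log (4 * x) := by
  have hp := Real.pi_pos
  have hm : MonotoneOn (fun x : ℝ => x - (4 * x * Real.log (4 * x)) / 4 - lz x)
      (Set.Icc 0 (1 / 2)) := by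
    apply monotoneOn_of_deriv_nonneg (convex_Icc _ _)
    · apply ContinuousOn.sub
      · apply ContinuousOn.sub
        · exact continuousOn_id
        · have : Continuous fun x : ℝ => 4 * x * Real.log (4 * x) :=
            Real.continuous_mul_log.comp (continuous_const.mul continuous_id)
          exact (this.div_const 4).continuousOn
      · exact continuous_lz.continuousOn
    · intro x hx
      rw [interior_Icc] at hx
      have h2 := hasDerivAt_lz hx.1 (by linarith only [hx, hx.2])
      have h3 := hasDerivAt_xlog hx.1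
      exact (((hasDerivAt_id x).sub (h3.div_const 4)).sub h2).differentiableAt.differentiableWithinAt
    · intro x hx
      rw [interior_Icc] at hx
      have h2 := hasDerivAt_lz hx.1 (by linarith only [hx, hx.2])
      have h3 := hasDerivAt_xlog hx.1
      have h4 := (((hasDerivAt_id x).sub (h3.div_const 4)).sub h2).deriv
      have h5 : deriv (fun x : ℝ => x - (4 * x * Real.log (4 * x)) / 4 - lz x) x = _ := h4
      rw [h5]
      have h6 := Real.mul_le_sin (x := Real.pi * x) (by have := hx.1; positivity)
        (by have := hx.2; nlinarith only [hp, this])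
      have e : 2 / Real.pi * (Real.pi * x) = 2 * x := by field_simp
      rw [e] at h6
      have h7 := Real.log_le_log (x := 4 * x) (y := 2 * Real.sin (Real.pi * x))
        (by have := hx.1; positivity) (by linarith only [h6])
      linarith only [h7]
  have := hm ⟨le_rfl, by norm_num⟩ ⟨h0, h1⟩ h0
  simp only [mul_zero, zero_mul, zero_div, sub_zero, lz_zero] at this
  linarith only [this]

theorem lz_small {x : ℝ} (h0 : 0 ≤ x) (h1 : x ≤ 16 / 1000000) : lz x ≤ 174 / 1000000 := by
  have h2 := lz_le h0 (by linarith only [h1])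
  rcases h0.eq_or_lt with h | h
  · rw [← h, lz_zero]
    norm_num
  have h3 : Real.log (4 * x) = Real.log (4 * (16 / 1000000)) - Real.log ((16 / 1000000) / x) := by
    rw [← Real.log_div (by norm_num) (by positivity)]
    congr 1
    field_simp
  have h4 := Real.log_le_sub_one_of_pos (show 0 < (16 / 1000000) / x by positivity)
  have h5 := mul_le_mul_of_nonneg_left h4 h.le
  have h6 : x * ((16 / 1000000) / x - 1) = 16 / 1000000 - x := by field_simp
  rw [h6] at h5
  have h7 : Real.log (4 * (16 / 1000000)) = -(6 * Real.log 5) := by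
    rw [show (4 * (16 / 1000000) : ℝ) = (5 ^ 6)⁻¹ by norm_num, Real.log_inv, Real.log_pow]
    norm_num
  have h8 : Real.log 5 ≤ 1 / 4 + 2 * Real.log 2 := by
    have := Real.log_le_sub_one_of_pos (show (0 : ℝ) < 5 / 4 by norm_num)
    have e : Real.log 5 = Real.log (5 / 4) + 2 * Real.log 2 := by
      rw [show (5 : ℝ) = 5 / 4 * 2 ^ 2 by norm_num, Real.log_mul (by norm_num) (by norm_num),
        Real.log_pow]
      norm_num
    rw [e]
    linarith only [this]
  have h9 := Real.log_two_lt_d9
  rw [h3, h7] at h2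
  have h10 : x * (6 * Real.log 5) ≤ 16 / 1000000 * (6 * (1637 / 1000)) := by
    apply mul_le_mul h1 _ _ (by norm_num)
    · linarith only [h1, h, h8, h9]
    · have := Real.log_nonneg (show (1 : ℝ) ≤ 5 by norm_num)
      positivity
  have h11 : x - x * (-(6 * Real.log 5) - Real.log ((16 / 1000000) / x)) =
      x + x * (6 * Real.log 5) + x * Real.log ((16 / 1000000) / x) := by ring
  rw [h11] at h2
  linarith only [h1, h2, h, h5, h10]

theorem uu_start {x : ℝ} (h0 : 0 ≤ x) (h1 : x ≤ 16 / 1000000) (Y : ℝ) :
    -(Real.pi / 2 * |Y|) - 174 / 1000000 ≤ uu x Y := by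
  have h2 := Lr_ge_lz (abs_nonneg Y) h0
  have h3 := lz_small h0 h1
  rw [uu_Lr]
  linarith only [h2, h3]

theorem uu_add_le (a : ℝ) {x : ℝ} (h0 : 0 ≤ x) (y : ℝ) :
    uu (a + x) y ≤ uu a y + x * (Real.pi * |y| + Real.log 2) := by
  have h1 := DT.Lr_sub |y| a (a + x)
  have h2 : ∫ v in a..(a + x), DT.el |y| v ≤ ∫ _ in a..(a + x), (Real.log 2 + Real.pi * |y|) :=
    intervalIntegral.integral_mono_on (by linarith only [h0]) (DT.el_intble _ _ _) (by simp)
      fun v _ => el_le (abs_nonneg y)
  rw [intervalIntegral.integral_const, smul_eq_mul] at h2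
  rw [uu_Lr, uu_Lr]
  have e : a + x - a = x := by ring
  rw [e] at h2
  linarith only [h1, h2]

/-! ### the rows -/

theorem fA_uu (x Y σ η : ℝ) : fA x Y σ η = uu (x + 1 / 2 + σ) (Y + η) +
    uu (x + 1 / 2 - σ) (Y - η) - 2 * uu x Y - Real.pi * Y := by
  unfold fA
  rw [fR_uu]

theorem zf {x Y σ η : ℝ} (h0 : 0 ≤ x) (h1 : x ≤ 16 / 1000000) (hY : 0 ≤ Y) (hY1 : Y ≤ 1)
    (hσ : |σ| ≤ 1 / 2) (hη : 0 ≤ η) (hη1 : η ≤ 1045 / 10000) : fA x Y σ η ≤ bR σ η + 5 / 10000 := by
  have hp := Real.pi_pos
  have hp2 := Real.pi_lt_d4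
  have hl := Real.log_two_lt_d9
  obtain ⟨s1, s2⟩ := abs_le.mp hσ
  rw [fA_uu]
  have a1 := uu_add_le (1 / 2 + σ) h0 (Y + η)
  have a2 := uu_add_le (1 / 2 - σ) h0 (Y - η)
  have a3 := uu_start h0 h1 Y
  rw [abs_of_nonneg hY] at a3
  rw [abs_of_nonneg (show 0 ≤ Y + η by linarith only [hY, hη])] at a1
  rw [show 1 / 2 + σ + x = x + 1 / 2 + σ by ring] at a1
  rw [show 1 / 2 - σ + x = x + 1 / 2 - σ by ring] at a2
  have a4 : uu (1 / 2 - σ) (Y - η) = -uu (1 / 2 + σ) |Y - η| := by
    rw [uu_abs, ← uu_one_sub]
    congr 1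
    ring
  have hd : |Y - η| ≤ Y + η := by
    rw [abs_le]
    constructor <;> linarith only [hY, hη]
  have hd2 : |Y - η| ≤ 1 := by
    rw [abs_le]
    constructor <;> linarith only [hY, hη1, hY1, hη]
  have hd3 : Y - η ≤ |Y - η| := le_abs_self _
  have hd4 : η - Y ≤ |Y - η| := by
    rw [abs_sub_comm]
    exact le_abs_self _
  have m1 : uu (1 / 2 + σ) (Y + η) - uu (1 / 2 + σ) |Y - η| ≤ bR σ η := by
    unfold bR
    rcases le_total σ 0 with h | h
    · rw [max_eq_right h, mul_zero]
      have := uu_lo (a := 1 / 2 + σ) (by linarith only [h]) (abs_nonneg (Y - η)) hd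
      linarith only [this]
    · rw [max_eq_left h]
      have b1 := uu_hi' (a := 1 / 2 + σ) (by linarith only [h]) (by linarith only [s2]) (abs_nonneg (Y - η)) hd
      have b2 : Real.pi * (1 / 2 + σ - 1 / 2) * (Y + η - |Y - η|) ≤ Real.pi * σ * (2 * η) := by
        rw [show 1 / 2 + σ - 1 / 2 = σ by ring]
        exact mul_le_mul_of_nonneg_left (by linarith only [hd3]) (by positivity)
      linarith only [b1, b2]
  have m2 : x * (Real.pi * (Y + η) + Real.log 2) ≤ 16 / 1000000 * (31416 / 10000 * (11045 / 10000) +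
      6932 / 10000) := by
    apply mul_le_mul h1 _ _ (by norm_num)
    · have : Real.pi * (Y + η) ≤ 31416 / 10000 * (11045 / 10000) :=
        mul_le_mul (by linarith only [hp2]) (by linarith only [hY1, hη1]) (by linarith only [hY, hη]) (by norm_num)
      linarith only [hl, this]
    · have : 0 ≤ Real.log 2 := Real.log_nonneg (by norm_num)
      have : 0 ≤ Real.pi * (Y + η) := mul_nonneg hp.le (by linarith only [hY, hη])
      linarith
  have m3 : x * (Real.pi * |Y - η| + Real.log 2) ≤ 16 / 1000000 * (31416 / 10000 * 1 +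
      6932 / 10000) := by
    apply mul_le_mul h1 _ _ (by norm_num)
    · have : Real.pi * |Y - η| ≤ 31416 / 10000 * 1 :=
        mul_le_mul (by linarith only [hp2]) hd2 (abs_nonneg _) (by norm_num)
      linarith only [hl, this]
    · have : 0 ≤ Real.log 2 := Real.log_nonneg (by norm_num)
      have : 0 ≤ Real.pi * |Y - η| := mul_nonneg hp.le (abs_nonneg _)
      linarith
  rw [a4] at a2
  linarith only [a1, a2, a3, m1, m2, m3]

/-- the values of the digit side at the beginning -/
theorem g_le {Y k1 k2 : ℝ} (hY : 0 ≤ Y) (h0 : 0 ≤ k1) (h1 : k1 ≤ 1) :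
    Real.pi * (1 / 2 - k1) * Y + uu k1 (k2 - Y) ≤
      if k1 < 1 / 2 then cA1 k1 k2 else oD1 k1 k2 := by
  have hp := Real.pi_pos
  split_ifs with h
  · have hk : 0 ≤ Real.pi * (1 / 2 - k1) := mul_nonneg hp.le (by linarith only [h])
    have a1 := uu_le_lim h0 h.le (abs_nonneg (k2 - Y))
    rw [uu_abs] at a1
    have a2 := mul_le_mul_of_nonneg_left (le_abs_self (k2 - Y)) hk
    have a3 := mul_le_mul_of_nonneg_left (show Y - k2 ≤ |k2 - Y| by
      rw [abs_sub_comm]; exact le_abs_self _) hk
    unfold cA1
    rcases le_total Y k2 with h2 | h2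
    · have := mul_le_mul_of_nonneg_left h2 hk
      nlinarith only [a1, a3]
    · nlinarith only [a1, a3]
  · push Not at h
    have hk : 0 ≤ Real.pi * (k1 - 1 / 2) := mul_nonneg hp.le (by linarith only [h])
    unfold oD1
    rcases le_total Y k2 with h2 | h2
    · have := uu_hi h (s := k2 - Y) (s' := k2) (by linarith only [h2]) (by linarith only [hY])
      have := mul_nonneg hk hY
      linarith
    · rcases le_total 0 k2 with h3 | h3
      · have a1 := uu_hi' h h1 (s := 0) (s' := Y - k2) le_rfl (by linarith only [h2])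
        have a2 := uu_hi h (s := 0) (s' := k2) le_rfl h3
        have a3 := mul_nonneg hk h3
        rw [← uu_neg k1 (k2 - Y), neg_sub]
        linarith only [a1, a2, a3]
      · have a1 := uu_hi' h h1 (s := -k2) (s' := Y - k2) (by linarith only [h3]) (by linarith only [hY])
        rw [← uu_neg k1 (k2 - Y), neg_sub]
        rw [uu_neg] at a1
        linarith only [a1]

theorem z1 {x Y k1 k2 : ℝ} (h0 : 0 ≤ x) (h1 : x ≤ 16 / 1000000) (hY : 0 ≤ Y) (hY1 : Y ≤ 1)
    (hk : 0 ≤ k1) (hk1 : k1 ≤ 1) (hk2 : |k2| ≤ 16 / 100) : dA1 x Y k1 k2 ≤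
      (if k1 < 1 / 2 then cA1 k1 k2 else max (cA1 k1 k2) (oD1 k1 k2)) + 5 / 10000 := by
  have hp := Real.pi_pos
  have hp2 := Real.pi_lt_d4
  have hl := Real.log_two_lt_d9
  obtain ⟨s1, s2⟩ := abs_le.mp hk2
  have a1 := uu_add_le k1 h0 (k2 - Y)
  rw [show k1 + x = x + k1 by ring] at a1
  have a3 := uu_start h0 h1 Y
  rw [abs_of_nonneg hY] at a3
  have a4 := g_le (k2 := k2) hY hk hk1
  have a5 : (if k1 < 1 / 2 then cA1 k1 k2 else oD1 k1 k2) ≤
      (if k1 < 1 / 2 then cA1 k1 k2 else max (cA1 k1 k2) (oD1 k1 k2)) := by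
    split_ifs
    · exact le_rfl
    · exact le_max_right _ _
  have m1 : x * (Real.pi * |k2 - Y| + Real.log 2) ≤ 16 / 1000000 * (31416 / 10000 * (116 / 100) +
      6932 / 10000) := by
    have hd2 : |k2 - Y| ≤ 116 / 100 := by
      rw [abs_le]
      constructor <;> linarith only [hY1, s1, hY, s2]
    apply mul_le_mul h1 _ _ (by norm_num)
    · have : Real.pi * |k2 - Y| ≤ 31416 / 10000 * (116 / 100) :=
        mul_le_mul (by linarith only [hp2]) hd2 (abs_nonneg _) (by norm_num)
      linarith only [hl, this]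
    · have : 0 ≤ Real.log 2 := Real.log_nonneg (by norm_num)
      have : 0 ≤ Real.pi * |k2 - Y| := mul_nonneg hp.le (abs_nonneg _)
      linarith
  have m2 : Real.pi * (x * k2) ≤ 31416 / 10000 * (16 / 1000000 * (16 / 100)) := by
    have b1 : x * k2 ≤ x * (16 / 100) := mul_le_mul_of_nonneg_left s2 h0
    have b2 : x * (16 / 100) ≤ 16 / 1000000 * (16 / 100) := by linarith only [h1]
    have b3 := mul_le_mul_of_nonneg_left (b1.trans b2) hp.le
    linarith only [hp2, b3]
  have e : dA1 x Y k1 k2 = Real.pi * (x * k2) - Real.pi * k1 * Y + uu (x + k1) (k2 - Y) - uu x Y := by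
    unfold dA1
    ring
  rw [e]
  have e2 : Real.pi * (1 / 2 - k1) * Y = Real.pi / 2 * Y - Real.pi * k1 * Y := by ring
  rw [e2] at a4
  generalize uu (x + k1) (k2 - Y) = U1 at *
  generalize uu k1 (k2 - Y) = U2 at *
  generalize uu x Y = U3 at *
  generalize (if k1 < 1 / 2 then cA1 k1 k2 else max (cA1 k1 k2) (oD1 k1 k2)) = C1 at *
  generalize (if k1 < 1 / 2 then cA1 k1 k2 else oD1 k1 k2) = C2 at *
  generalize x * (Real.pi * |k2 - Y| + Real.log 2) = U4 at *
  generalize Real.pi * (x * k2) = U5 at *
  generalize Real.pi * k1 * Y = U6 at *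
  generalize Real.pi / 2 * Y = U7 at *
  norm_num at m1 m2
  linarith only [a5, a1, a3, a4, m1, m2]

theorem z2 {x Y k1 k2 : ℝ} (h0 : 0 ≤ x) (h1 : x ≤ 16 / 1000000) (hY : 0 ≤ Y) (hY1 : Y ≤ 1)
    (hk : 0 ≤ k1) (hk1 : k1 ≤ 1) (hk2 : k2 ≤ 16 / 100) : dA2 x Y k1 k2 ≤
      max (cA2 k1 k2) (oD2 k1 k2) + 5 / 10000 := by
  have hp := Real.pi_pos
  have hp2 := Real.pi_lt_d4
  have hl := Real.log_two_lt_d9
  have a1 := uu_add_le k1 h0 (k2 - Y)
  rw [show k1 + x = x + k1 by ring] at a1
  have a3 := uu_start h0 h1 Y
  rw [abs_of_nonneg hY] at a3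
  have a4 := g_le (k2 := k2) hY hk hk1
  have a5 : -(Real.pi * k1 * k2) + (if k1 < 1 / 2 then cA1 k1 k2 else oD1 k1 k2) ≤
      max (cA2 k1 k2) (oD2 k1 k2) := by
    split_ifs
    · refine le_trans (le_of_eq ?_) (le_max_left _ _)
      unfold cA1 cA2
      ring
    · refine le_trans (le_of_eq ?_) (le_max_right _ _)
      unfold oD1 oD2
      ring
  have m1 : Real.pi * x * (Y + k2) + x * (Real.pi * |k2 - Y| + Real.log 2) ≤
      16 / 1000000 * (31416 / 10000 * 2 + 6932 / 10000) := by
    have hd2 : Y + k2 + |k2 - Y| ≤ 2 := by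
      rcases abs_cases (k2 - Y) with ⟨h, _⟩ | ⟨h, _⟩
      · rw [h]; linarith only [hk2]
      · rw [h]; linarith only [hY1]
    have hd3 : 0 ≤ Y + k2 + |k2 - Y| := by
      have := neg_abs_le (k2 - Y)
      linarith only [hY, this]
    have e : Real.pi * x * (Y + k2) + x * (Real.pi * |k2 - Y| + Real.log 2) =
      x * (Real.pi * (Y + k2 + |k2 - Y|) + Real.log 2) := by ring
    rw [e]
    apply mul_le_mul h1 _ _ (by norm_num)
    · have : Real.pi * (Y + k2 + |k2 - Y|) ≤ 31416 / 10000 * 2 :=
        mul_le_mul (by linarith only [hp2]) hd2 hd3 (by norm_num)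
      linarith only [hl, this]
    · have : 0 ≤ Real.log 2 := Real.log_nonneg (by norm_num)
      have : 0 ≤ Real.pi * (Y + k2 + |k2 - Y|) := mul_nonneg hp.le hd3
      linarith
  have e : dA2 x Y k1 k2 = Real.pi * x * (Y + k2) - Real.pi * k1 * Y - Real.pi * k1 * k2 -
      Real.pi / 2 * Y + uu (x + k1) (k2 - Y) - 2 * uu x Y := by
    unfold dA2
    ring
  rw [e]
  have e2 : Real.pi * (1 / 2 - k1) * Y = Real.pi / 2 * Y - Real.pi * k1 * Y := by ring
  rw [e2] at a4
  generalize uu (x + k1) (k2 - Y) = U1 at *
  generalize uu k1 (k2 - Y) = U2 at *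
  generalize uu x Y = U3 at *
  generalize max (cA2 k1 k2) (oD2 k1 k2) = C1 at *
  generalize (if k1 < 1 / 2 then cA1 k1 k2 else oD1 k1 k2) = C2 at *
  generalize x * (Real.pi * |k2 - Y| + Real.log 2) = U4 at *
  generalize Real.pi * x * (Y + k2) = U5 at *
  generalize Real.pi * k1 * Y = U6 at *
  generalize Real.pi * k1 * k2 = U8 at *
  generalize Real.pi / 2 * Y = U7 at *
  norm_num at m1
  linarith only [a1, a5, a3, a4, m1]

theorem z0 {x Y : ℝ} (h0 : 0 ≤ x) (h1 : x ≤ 16 / 1000000) (hY : 0 ≤ Y) (hY1 : Y ≤ 1) :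
    dA0 x Y ≤ 5 / 10000 := by
  have hp := Real.pi_pos
  have hp2 := Real.pi_lt_d4
  have a3 := uu_start h0 h1 Y
  rw [abs_of_nonneg hY] at a3
  have m : Real.pi * (x * Y) ≤ 31416 / 10000 * (16 / 1000000) := by
    have : x * Y ≤ 16 / 1000000 * 1 := mul_le_mul h1 hY1 hY (by norm_num)
    exact mul_le_mul (by linarith only [hp2]) (by linarith only [this]) (by positivity) (by norm_num)
  have e : dA0 x Y = Real.pi * (x * Y) - Real.pi / 2 * Y - uu x Y := by
    unfold dA0
    ring
  rw [e]
  norm_num at m
  linarith only [a3, m]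

theorem wf {x Y σ η : ℝ} (hY : 1 ≤ Y) (hσ : |σ| ≤ 1 / 2) (hη : 0 ≤ η)
    (hη1 : η ≤ 1045 / 10000) : fA x Y σ η ≤ bR σ η + 2 / 1000 := by
  have hp := Real.pi_pos
  obtain ⟨s1, s2⟩ := abs_le.mp hσ
  rw [fA_uu]
  have a1 := (abs_le.mp (lim1 (a := x + 1 / 2 + σ) (y := Y + η) (by
    rw [abs_of_nonneg (by linarith only [hY, hη])]; linarith only [hY, hη]))).2
  have a2 := (abs_le.mp (lim84 (a := x + 1 / 2 - σ) (y := Y - η) (by
    rw [abs_of_nonneg (by linarith only [hY, hη1])]; linarith only [hY, hη1]))).2
  have a3 := (abs_le.mp (lim1 (a := x) (y := Y) (by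
    rw [abs_of_nonneg (by linarith only [hY])]; linarith only [hY]))).1
  rw [abs_of_nonneg (show 0 ≤ Y + η by linarith only [hY, hη])] at a1
  rw [abs_of_nonneg (show 0 ≤ Y - η by linarith only [hY, hη1])] at a2
  rw [abs_of_nonneg (show 0 ≤ Y by linarith only [hY])] at a3
  have m : 2 * Real.pi * η * σ ≤ bR σ η := by
    unfold bR
    exact mul_le_mul_of_nonneg_left (le_max_left _ _) (by positivity)
  have e : Real.pi * (x + 1 / 2 + σ - 1 / 2) * (Y + η) + Real.pi * (x + 1 / 2 - σ - 1 / 2) * (Y - η) -
      2 * (Real.pi * (x - 1 / 2) * Y) - Real.pi * Y = 2 * Real.pi * η * σ := by ring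
  linarith only [a1, a2, a3, m]

theorem w1 {x Y k1 k2 : ℝ} (hY : 1 ≤ Y) (hk2 : k2 ≤ 16 / 100) :
    dA1 x Y k1 k2 ≤ cA1 k1 k2 + 2 / 1000 := by
  have a1 := (abs_le.mp (lim84 (a := x + k1) (y := k2 - Y) (by
    rw [abs_of_nonpos (by linarith only [hY, hk2])]; linarith only [hY, hk2]))).2
  have a3 := (abs_le.mp (lim1 (a := x) (y := Y) (by
    rw [abs_of_nonneg (by linarith only [hY])]; linarith only [hY]))).1
  rw [abs_of_nonpos (show k2 - Y ≤ 0 by linarith only [hY, hk2])] at a1
  rw [abs_of_nonneg (show 0 ≤ Y by linarith only [hY])] at a3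
  unfold dA1 cA1
  have e : Real.pi * (x * k2 - Y * k1) + Real.pi * (x + k1 - 1 / 2) * -(k2 - Y) -
      Real.pi * (x - 1 / 2) * Y = Real.pi * k2 * (1 / 2 - k1) := by ring
  linarith only [a1, a3]

theorem w2 {x Y k1 k2 : ℝ} (hY : 1 ≤ Y) (hk2 : k2 ≤ 16 / 100) :
    dA2 x Y k1 k2 ≤ cA2 k1 k2 + 3 / 1000 := by
  have a1 := (abs_le.mp (lim84 (a := x + k1) (y := k2 - Y) (by
    rw [abs_of_nonpos (by linarith only [hY, hk2])]; linarith only [hY, hk2]))).2
  have a3 := (abs_le.mp (lim1 (a := x) (y := Y) (by
    rw [abs_of_nonneg (by linarith only [hY])]; linarith only [hY]))).1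
  rw [abs_of_nonpos (show k2 - Y ≤ 0 by linarith only [hY, hk2])] at a1
  rw [abs_of_nonneg (show 0 ≤ Y by linarith only [hY])] at a3
  unfold dA2 cA2
  have e : Real.pi * (x - k1) * (Y + k2) - Real.pi * Y / 2 +
      Real.pi * (x + k1 - 1 / 2) * -(k2 - Y) - 2 * (Real.pi * (x - 1 / 2) * Y) =
      Real.pi * k2 * (1 / 2 - 2 * k1) := by ring
  linarith only [a1, a3]

theorem w0 {x Y : ℝ} (hY : 1 ≤ Y) : dA0 x Y ≤ 1 / 1000 := by
  have a3 := (abs_le.mp (lim1 (a := x) (y := Y) (by
    rw [abs_of_nonneg (by linarith only [hY])]; linarith only [hY]))).1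
  rw [abs_of_nonneg (show 0 ≤ Y by linarith only [hY])] at a3
  unfold dA0
  linarith only [a3]

theorem rowsZ : RowsZ where
  zf := fun _ _ _ _ h0 h1 hY hY1 hs h2 h3 => zf h0 h1 hY hY1 hs h2 h3
  z1 := fun _ _ _ _ h0 h1 hY hY1 h2 h3 h4 => z1 h0 h1 hY hY1 h2 h3 h4
  z2 := fun _ _ _ _ h0 h1 hY hY1 h2 h3 h4 => z2 h0 h1 hY hY1 h2 h3 h4
  z0 := fun _ _ h0 h1 hY hY1 => z0 h0 h1 hY hY1
  wf := fun _ _ _ _ _ _ hY hs h2 h3 => wf hY hs h2 h3
  w1 := fun _ _ _ _ _ _ hY _ _ h => w1 hY h
  w2 := fun _ _ _ _ _ _ hY _ _ h => w2 hY h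
  w0 := fun _ _ _ _ hY => w0 hY

end ZD

end Pool.Agent.Work.MP_b30479_gtS.G2

end

section

/-!
# Modes at rings: the other hinge of a digit `1` on its upper path
-/

namespace Pool.Agent.Work.MP_b30479_gtS.G2

open NumUs

namespace ZD

/-! ### arctan -/

theorem arctan_le_id {y : ℝ} (hy : 0 ≤ y) : Real.arctan y ≤ y := by
  have h := mono_one (f := fun y => y - Real.arctan y) (f' := fun y => 1 - 1 / (1 + y ^ 2)) 0 hy
    (continuous_id.sub Real.continuous_arctan) (by
      intro t _ _ _
      refine ⟨(hasDerivAt_id t).sub (Real.hasDerivAt_arctan t), ?_⟩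
      have : 1 / (1 + t ^ 2) ≤ 1 := by
        rw [div_le_one (by positivity)]
        nlinarith only [sq_nonneg t]
      linarith only [this])
  simp only [Real.arctan_zero, sub_zero] at h
  linarith only [h]

theorem arctan_ge_cubic {y : ℝ} (hy : 0 ≤ y) : y - y ^ 3 / 3 ≤ Real.arctan y := by
  have h := mono_one (f := fun y => Real.arctan y - (y - y ^ 3 / 3))
    (f' := fun y => 1 / (1 + y ^ 2) - (1 - y ^ 2)) 0 hy
    (Real.continuous_arctan.sub (by fun_prop)) (by
      intro t _ _ _
      have h3 : HasDerivAt (fun y : ℝ => y - y ^ 3 / 3) (1 - t ^ 2) t := by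
        have := (hasDerivAt_id t).sub ((hasDerivAt_pow 3 t).div_const 3)
        refine this.congr_deriv ?_
        push_cast
        ring
      refine ⟨(Real.hasDerivAt_arctan t).sub h3, ?_⟩
      have : 1 - t ^ 2 ≤ 1 / (1 + t ^ 2) := by
        rw [le_div_iff₀ (by positivity)]
        nlinarith only [sq_nonneg (t ^ 2)]
      linarith only [this])
  simp only [Real.arctan_zero, zero_sub] at h
  linarith only [h]

theorem arctan_115 : Real.arctan (115 / 100) ≤ 85517 / 100000 := by
  have h := Real.arctan_add (x := 1) (y := 3 / 43) (by norm_num)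
  rw [Real.arctan_one] at h
  have e : ((1 : ℝ) + 3 / 43) / (1 - 1 * (3 / 43)) = 115 / 100 := by norm_num
  rw [e] at h
  have h2 := arctan_le_id (show (0 : ℝ) ≤ 3 / 43 by norm_num)
  have := Real.pi_lt_d6
  rw [← h]
  linarith only [h2, this]

theorem arctan_125 : Real.arctan (125 / 100) ≤ 8966 / 10000 := by
  have h := Real.arctan_add (x := 1) (y := 1 / 9) (by norm_num)
  rw [Real.arctan_one] at h
  have e : ((1 : ℝ) + 1 / 9) / (1 - 1 * (1 / 9)) = 125 / 100 := by norm_num
  rw [e] at h
  have h2 := arctan_le_id (show (0 : ℝ) ≤ 1 / 9 by norm_num)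
  have := Real.pi_lt_d6
  rw [← h]
  linarith only [h2, this]

theorem arctan_250 : Real.arctan (25 / 10) ≤ 119215 / 100000 := by
  have h := Real.arctan_inv_of_pos (x := 25 / 10) (by norm_num)
  have h2 := arctan_ge_cubic (show (0 : ℝ) ≤ (25 / 10)⁻¹ by norm_num)
  have := Real.pi_lt_d6
  norm_num at h h2 ⊢
  linarith only [this, h, h2]

/-! ### slopes in the height -/

theorem lnB_le {a t r : ℝ} (ha : 0 < a) (ha2 : a ≤ 1 / 2) (ht : 0 ≤ t) (hr : t ≤ r * a) :
    NumIs.lnB a t ≤ Real.arctan r := by
  have hp := Real.pi_pos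
  unfold NumIs.lnB
  apply Real.arctan_mono
  have s1 : 0 < Real.sin (Real.pi * a) :=
    Real.sin_pos_of_pos_of_lt_pi (by positivity) (by nlinarith only [hp, ha2])
  have c1 : 0 ≤ Real.cos (Real.pi * a) := Real.cos_nonneg_of_mem_Icc ⟨by nlinarith only [hp, ha], by nlinarith only [ha2, hp]⟩
  have c2 := Real.cosh_pos (Real.pi * t)
  rw [div_le_iff₀ (by positivity)]
  have h1 : Real.pi * a * Real.cos (Real.pi * a) ≤ Real.sin (Real.pi * a) := by
    rcases ha2.lt_or_eq with h | h
    · have h2 := Real.lt_tan (x := Real.pi * a) (by positivity) (by nlinarith only [hp, h])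
      rw [Real.tan_eq_sin_div_cos, lt_div_iff₀ (Real.cos_pos_of_mem_Ioo
        ⟨by nlinarith only [hp, ha], by nlinarith only [hp, h]⟩)] at h2
      exact h2.le
    · rw [h, show Real.pi * (1 / 2) = Real.pi / 2 by ring, Real.cos_pi_div_two,
        Real.sin_pi_div_two]
      norm_num
  have h2 : Real.sinh (Real.pi * t) ≤ Real.pi * t * Real.cosh (Real.pi * t) := by
    have h3 := mono_one (f := fun x => x * Real.cosh x - Real.sinh x)
      (f' := fun x => x * Real.sinh x) 0 (a := 0) (b := Real.pi * t) (by positivity)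
      ((continuous_id.mul Real.continuous_cosh).sub Real.continuous_sinh) (by
        intro s hs _ _
        refine ⟨((((hasDerivAt_id s).mul (Real.hasDerivAt_cosh s)).sub
          (Real.hasDerivAt_sinh s)).congr_deriv (by simp)), ?_⟩
        have := Real.sinh_nonneg_iff.mpr hs.le
        exact mul_nonneg hs.le this)
    simp only [zero_mul, Real.sinh_zero, sub_zero] at h3
    linarith only [h3]
  have h3 : 0 ≤ r := by
    by_contra h
    push Not at h
    nlinarith only [ht, hr, ha, h]
  calc Real.cos (Real.pi * a) * Real.sinh (Real.pi * t)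
      ≤ Real.cos (Real.pi * a) * (Real.pi * t * Real.cosh (Real.pi * t)) :=
        mul_le_mul_of_nonneg_left h2 c1
    _ = Real.pi * Real.cos (Real.pi * a) * Real.cosh (Real.pi * t) * t := by ring
    _ ≤ Real.pi * Real.cos (Real.pi * a) * Real.cosh (Real.pi * t) * (r * a) :=
        mul_le_mul_of_nonneg_left hr (by positivity)
    _ = r * Real.cosh (Real.pi * t) * (Real.pi * a * Real.cos (Real.pi * a)) := by ring
    _ ≤ r * Real.cosh (Real.pi * t) * Real.sin (Real.pi * a) :=
        mul_le_mul_of_nonneg_left h1 (by positivity)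
    _ = _ := by ring

theorem uu_atan {a s s' r c : ℝ} (ha : 0 < a) (ha2 : a ≤ 1 / 2) (h0 : 0 ≤ s) (h : s ≤ s')
    (hr : s' ≤ r * a) (hc : Real.arctan r ≤ c) : uu a s ≤ uu a s' + c * (s' - s) := by
  have h1 := mono_one (f := fun t => uu a t + c * t) (f' := fun t => YY ⟨a, t⟩ + c) 0 h
    ((continuous_uu_y a).add (by fun_prop)) (by
      intro t h2 h3 _
      refine ⟨(hasDerivAt_uu_y (Or.inr ⟨ha, by linarith only [ha, ha2]⟩)).add (by
        simpa using (hasDerivAt_id t).const_mul c), ?_⟩
      have h4 : YY ⟨a, t⟩ = -NumIs.lnB a t :=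
        Num.YY_lnB (u := ⟨a, t⟩) ⟨ha, by change a < 1; linarith only [ha, ha2]⟩
      rw [h4]
      have := lnB_le ha ha2 (by linarith only [h0, h2]) (show t ≤ r * a by linarith only [hr, h3])
      linarith only [hc, this])
  linarith only [h1]

theorem uu_hi3 {a s s' : ℝ} (ha : a ≤ 3 / 2) (h0 : 0 ≤ s) (h : s ≤ s') :
    uu a s' ≤ uu a s + Real.pi * (s' - s) := by
  have h2 := uu_inc a h0 h
  have h3 := inc_le_three (x := a) (by linarith only [ha]) h0 h
  linarith only [h2, h3]

/-! ### the gains -/

theorem abs_diff' {u v w : ℝ} (hw : 0 ≤ w) (h : u - v = w) : |u| - |v| ≤ w := by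
  have := abs_sub_abs_le_abs_sub u v
  rwa [h, abs_of_nonneg hw] at this

theorem abs_diff'' {u v w : ℝ} (hw : 0 ≤ w) (h : u - v = -w) : |u| - |v| ≤ w := by
  have := abs_sub_abs_le_abs_sub u v
  rwa [h, abs_neg, abs_of_nonneg hw] at this

theorem H_lo {b k τ Yk m1 m2 r c : ℝ} (hk : 0 < k) (hb : b = k + m1) (hm : 0 ≤ m1)
    (hb2 : b ≤ 1 / 2) (hY : 0 ≤ Yk) (hYk : Yk ≤ 115 / 100 * k) (ht : 0 ≤ τ)
    (ht2 : τ ≤ 74 / 100 * Yk) (hm2 : m2 ≤ r * m1) (hr : 1 ≤ r) (hc : Real.arctan r ≤ c) :
    -(c * (τ + Yk)) ≤ uu b (m2 + τ) - uu b (m2 - Yk) := by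
  have c0 : 0 ≤ c := le_trans (Real.arctan_nonneg.2 (by linarith only [hk, hb, hm, hb2, hr])) hc
  rw [← uu_abs b (m2 + τ), ← uu_abs b (m2 - Yk)]
  rcases le_total |m2 + τ| |m2 - Yk| with h | h
  · have h1 := uu_lo hb2 (abs_nonneg _) h
    have : 0 ≤ c * (τ + Yk) := by positivity
    linarith only [h1, this]
  · have h2 : 0 ≤ m2 + τ ∨ τ + Yk = 0 := by
      by_contra hn
      rw [not_or] at hn
      obtain ⟨n1, n2⟩ := hn
      push Not at n1
      have n3 : 0 < τ + Yk := lt_of_le_of_ne (by linarith only [hY, ht]) (Ne.symm n2)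
      rw [abs_of_neg n1, abs_of_neg (by linarith only [n1, n3])] at h
      linarith only [h, n3]
    rcases h2 with h2 | h2
    · have h3 : |m2 + τ| ≤ r * b := by
        rw [abs_of_nonneg h2, hb]
        nlinarith only [hk, hYk, ht2, hm2, hr]
      have h4 := uu_atan (a := b) (by linarith only [hk, hb, hm]) hb2 (abs_nonneg _) h h3 hc
      have h5 := abs_diff' (u := m2 + τ) (v := m2 - Yk) (w := τ + Yk) (by linarith only [hY, ht]) (by ring)
      have h6 := mul_le_mul_of_nonneg_left h5 c0
      linarith only [h4, h6]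
    · have e1 : τ = 0 := by linarith only [ht, ht2, h2]
      have e2 : Yk = 0 := by linarith only [hY, ht, h2]
      rw [e1, e2]
      simp

theorem H_hi {b τ Yk m2 : ℝ} (h1 : 1 / 2 ≤ b) (h2 : b ≤ 1) (hY : 0 ≤ Yk) (ht : 0 ≤ τ) :
    -(Real.pi * (b - 1 / 2) * (τ + Yk)) ≤ uu b (m2 + τ) - uu b (m2 - Yk) := by
  have hp := Real.pi_pos
  rw [← uu_abs b (m2 + τ), ← uu_abs b (m2 - Yk)]
  have c0 : 0 ≤ Real.pi * (b - 1 / 2) := mul_nonneg hp.le (by linarith only [h1])
  rcases le_total |m2 + τ| |m2 - Yk| with h | h
  · have h3 := uu_hi' h1 h2 (abs_nonneg _) h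
    have h5 := abs_diff'' (u := m2 - Yk) (v := m2 + τ) (w := τ + Yk) (by linarith only [hY, ht]) (by ring)
    have h6 := mul_le_mul_of_nonneg_left h5 c0
    linarith only [h3, h6]
  · have h3 := uu_hi h1 (abs_nonneg _) h
    have : 0 ≤ Real.pi * (b - 1 / 2) * (τ + Yk) := mul_nonneg c0 (by linarith only [hY, ht])
    linarith only [h3, this]

theorem H_3 {b τ Yk m2 : ℝ} (h1 : 1 / 2 ≤ b) (h2 : b ≤ 3 / 2) (hY : 0 ≤ Yk) (ht : 0 ≤ τ) :
    -(Real.pi * (τ + Yk)) ≤ uu b (m2 + τ) - uu b (m2 - Yk) := by
  have hp := Real.pi_pos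
  rw [← uu_abs b (m2 + τ), ← uu_abs b (m2 - Yk)]
  rcases le_total |m2 + τ| |m2 - Yk| with h | h
  · have h3 := uu_hi3 h2 (abs_nonneg _) h
    have h5 := abs_diff'' (u := m2 - Yk) (v := m2 + τ) (w := τ + Yk) (by linarith only [hY, ht]) (by ring)
    have h6 := mul_le_mul_of_nonneg_left h5 hp.le
    linarith only [h3, h6]
  · have h3 := uu_hi h1 (abs_nonneg _) h
    have : 0 ≤ Real.pi * (τ + Yk) := mul_nonneg hp.le (by linarith only [hY, ht])
    linarith only [h3, this]

/-- the gain at the digit `1` -/
theorem kD_ge {k τ Yk x1 Y : ℝ} (hk : 0 < k) (hk2 : k ≤ 1 / 4) (hY : 0 < Yk)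
    (hYk : Yk ≤ 115 / 100 * k) (ht : 0 ≤ τ) (ht2 : τ ≤ 74 / 100 * Yk) (hx : 0 ≤ x1)
    (hx2 : x1 ≤ 65 / 100) (hYY : 0 ≤ Y) :
    Yk * (Real.pi * (6 / 5 - k) - 85517 / 100000) + τ * (Real.pi * (1 / 2 + k) + 85517 / 100000) ≤
      kD k τ Yk x1 Y := by
  have hp := Real.pi_pos
  have hB := uu_atan hk (by linarith only [hk, hk2]) ht (show τ ≤ Yk by linarith only [hY, ht2]) hYk arctan_115
  unfold kD
  rcases le_total (x1 + k) (1 / 2) with h | h
  · have hA : -(Real.pi * (1 / 2 - (x1 + k)) * (τ + Yk)) ≤
        uu (x1 + k) (Y + τ) - uu (x1 + k) (Y - Yk) := by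
      have c0 : 0 ≤ Real.pi * (1 / 2 - (x1 + k)) := mul_nonneg hp.le (by linarith only [h])
      rw [← uu_abs (x1 + k) (Y + τ), ← uu_abs (x1 + k) (Y - Yk)]
      rcases le_total |Y + τ| |Y - Yk| with h' | h'
      · have h3 := uu_lo h (abs_nonneg _) h'
        have : 0 ≤ Real.pi * (1 / 2 - (x1 + k)) * (τ + Yk) := mul_nonneg c0 (by linarith only [hY, ht])
        linarith only [h3, this]
      · have h3 := uu_lo' (by linarith only [hk, hx]) h (abs_nonneg _) h'
        have h5 := abs_diff' (u := Y + τ) (v := Y - Yk) (w := τ + Yk) (by linarith only [hY, ht]) (by ring)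
        have h6 := mul_le_mul_of_nonneg_left h5 c0
        linarith only [h3, h6]
    have e : Real.pi * (τ + Yk) * (1 - x1) + Real.pi * Yk -
        Real.pi * (1 / 2 - (x1 + k)) * (τ + Yk) =
        Yk * (Real.pi * (6 / 5 - k)) + τ * (Real.pi * (1 / 2 + k)) +
        Real.pi * Yk * (3 / 10 + 2 * k) := by ring
    have e2 : 0 ≤ Real.pi * Yk * (3 / 10 + 2 * k) := by positivity
    linarith only [hB, hA, e2]
  · have hA : -(Real.pi * (x1 + k - 1 / 2) * (Yk - τ)) ≤
        uu (x1 + k) (Y + τ) - uu (x1 + k) (Y - Yk) := by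
      have c0 : 0 ≤ Real.pi * (x1 + k - 1 / 2) := mul_nonneg hp.le (by linarith only [h])
      rw [← uu_abs (x1 + k) (Y + τ), ← uu_abs (x1 + k) (Y - Yk)]
      rcases le_total |Y + τ| |Y - Yk| with h' | h'
      · have h3 := uu_hi' h (by linarith only [hk, hk2, hx2]) (abs_nonneg _) h'
        have h5 : |Y - Yk| - |Y + τ| ≤ Yk - τ := by
          rw [abs_of_nonneg (show 0 ≤ Y + τ by linarith only [ht, hYY])]
          rcases abs_cases (Y - Yk) with ⟨h7, _⟩ | ⟨h7, _⟩
          · rw [h7]; linarith only [hY]
          · rw [h7]; linarith only [hYY]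
        have h6 := mul_le_mul_of_nonneg_left h5 c0
        linarith only [h3, h6]
      · have h3 := uu_hi h (abs_nonneg _) h'
        have : 0 ≤ Real.pi * (x1 + k - 1 / 2) * (Yk - τ) := mul_nonneg c0 (by linarith only [hY, ht2])
        linarith only [h3, this]
    have e : Real.pi * (τ + Yk) * (1 - x1) + Real.pi * Yk - Real.pi * (x1 + k - 1 / 2) * (Yk - τ) =
        Yk * (Real.pi * (6 / 5 - k)) + τ * (Real.pi * (1 / 2 + k)) +
        2 * Real.pi * Yk * (65 / 100 - x1) := by ring
    have e2 : 0 ≤ 2 * Real.pi * Yk * (65 / 100 - x1) := mul_nonneg (by positivity) (by linarith only [hx2])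
    linarith only [hB, hA, e2]

theorem k1 {k τ Yk x1 Y m1 m2 : ℝ} (hk : 0 < k) (hk2 : k ≤ 1 / 4) (hY : 0 < Yk)
    (hYk : Yk ≤ 115 / 100 * k) (ht : 0 ≤ τ) (ht2 : τ ≤ 74 / 100 * Yk) (hx : 0 ≤ x1)
    (hx2 : x1 ≤ 65 / 100) (hYY : 0 ≤ Y) (hm : 0 ≤ m1) (hm1 : m1 ≤ 86 / 100)
    (hm2 : m2 ≤ 125 / 100 * m1) : 0 < kD k τ Yk x1 Y + kP1 k τ Yk m1 m2 := by
  have hp := Real.pi_pos
  have hp4 := Real.pi_gt_d4
  have hp5 := Real.pi_lt_d4
  have hD := kD_ge hk hk2 hY hYk ht ht2 hx hx2 hYY
  have hB := uu_atan hk (by linarith only [hk2, hp4, hp5]) ht (show τ ≤ Yk by linarith only [hY, ht2]) hYk arctan_115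
  have p1 : 0 ≤ (1 / 4 - k) * (Yk - τ) := mul_nonneg (by linarith only [hk2]) (by linarith only [hY, ht2])
  have p2 : 0 ≤ (1 / 4 - k) * Yk := mul_nonneg (by linarith only [hk2]) (by linarith only [hY])
  have p3 := mul_nonneg hp.le p1
  have p4 := mul_nonneg hp.le p2
  have q1 : 31415 / 10000 * Yk ≤ Real.pi * Yk := mul_le_mul_of_nonneg_right (by linarith only [hp4]) hY.le
  have q2 : Real.pi * τ ≤ 31416 / 10000 * τ := mul_le_mul_of_nonneg_right (by linarith only [hp5]) ht
  unfold kP1
  rcases le_total (k + m1) (1 / 2) with h | h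
  · have hH := H_lo hk rfl hm h hY.le hYk ht ht2 hm2 (by norm_num) arctan_125
    have e : 0 ≤ Real.pi * (τ + Yk) * m1 := by positivity
    linarith only [hY, ht, hD, hB, p3, q1, q2, hH, e]
  · rcases le_total (k + m1) 1 with h' | h'
    · have hH := H_hi (m2 := m2) h h' hY.le ht
      linarith only [hY, ht, hD, hB, p4, q1, hH]
    · have hH := H_3 (m2 := m2) h (by linarith only [hk2, hm1, hp4, hp5]) hY.le ht
      have e : 0 ≤ Real.pi * (τ + Yk) * (m1 - (1 - k)) := mul_nonneg (by positivity) (by linarith only [h'])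
      linarith only [hY, ht, hD, hB, p4, q1, q2, hH, e]

theorem k2 {k τ Yk x1 Y m1 m2 : ℝ} (hk : 0 < k) (hk2 : k ≤ 1 / 4) (hY : 0 < Yk)
    (hYk : Yk ≤ 115 / 100 * k) (ht : 0 ≤ τ) (ht2 : τ ≤ 74 / 100 * Yk) (hx : 0 ≤ x1)
    (hx2 : x1 ≤ 65 / 100) (hYY : 0 ≤ Y) (hm : 0 ≤ m1) (hm1 : m1 ≤ 80 / 100)
    (hm2 : m2 ≤ 25 / 10 * m1) : 0 < kD k τ Yk x1 Y + kP2 k τ Yk m1 m2 := by
  have hp := Real.pi_pos
  have hp4 := Real.pi_gt_d4
  have hp5 := Real.pi_lt_d4
  have hD := kD_ge hk hk2 hY hYk ht ht2 hx hx2 hYY
  have hB := uu_atan hk (by linarith only [hk2, hp4, hp5]) ht (show τ ≤ Yk by linarith only [hY, ht2]) hYk arctan_115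
  have p1 : 0 ≤ (1 / 4 - k) * τ := mul_nonneg (by linarith only [hk2]) ht
  have p2 : 0 ≤ (1 / 4 - k) * Yk := mul_nonneg (by linarith only [hk2]) (by linarith only [hY])
  have p3 := mul_nonneg hp.le p1
  have p4 := mul_nonneg hp.le p2
  have q1 : 31415 / 10000 * Yk ≤ Real.pi * Yk := mul_le_mul_of_nonneg_right (by linarith only [hp4]) hY.le
  have q2 : Real.pi * τ ≤ 31416 / 10000 * τ := mul_le_mul_of_nonneg_right (by linarith only [hp5]) ht
  have q3 : 0 ≤ Real.pi * τ := by positivity
  unfold kP2
  rcases le_total (k + m1) (1 / 2) with h | h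
  · have hH := H_lo hk rfl hm h hY.le hYk ht ht2 hm2 (by norm_num) arctan_250
    have e : 0 ≤ Real.pi * (τ + Yk) * m1 := by positivity
    linarith only [hY, ht, hD, hB, p4, q1, hH, e]
  · rcases le_total (k + m1) 1 with h' | h'
    · have hH := H_hi (m2 := m2) h h' hY.le ht
      linarith only [hY, ht, hD, hB, p3, p4, q1, q3, hH]
    · have hH := H_3 (m2 := m2) h (by linarith only [hk2, hm1, hp4, hp5]) hY.le ht
      have e : 0 ≤ Real.pi * (τ + Yk) * (m1 - (1 - k)) := mul_nonneg (by positivity) (by linarith only [h'])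
      linarith only [hY, ht, hD, hB, p3, p4, q1, q2, hH, e]

theorem ke {k τ Yk x1 Y : ℝ} (hk : 0 < k) (hk2 : k ≤ 1 / 4) (hY : 0 < Yk)
    (hYk : Yk ≤ 115 / 100 * k) (ht : 0 ≤ τ) (ht2 : τ ≤ 74 / 100 * Yk) (hx : 0 ≤ x1)
    (hx2 : x1 ≤ 65 / 100) (hYY : 0 ≤ Y) : 0 < kD k τ Yk x1 Y + kPe k τ Yk := by
  have hp := Real.pi_pos
  have hp4 := Real.pi_gt_d4
  have hD := kD_ge hk hk2 hY hYk ht ht2 hx hx2 hYY
  have hB := uu_atan hk (by linarith only [hk, hk2]) ht (show τ ≤ Yk by linarith only [hY, ht2]) hYk arctan_115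
  have p2 : 0 ≤ (1 / 4 - k) * Yk := mul_nonneg (by linarith only [hk2]) (by linarith only [hY])
  have p4 := mul_nonneg hp.le p2
  have q1 : 31415 / 10000 * Yk ≤ Real.pi * Yk := mul_le_mul_of_nonneg_right (by linarith only [hp4]) hY.le
  unfold kPe
  linarith only [hY, ht, hD, hB, p4, q1]

theorem rowsK : RowsK where
  k1 := fun _ _ _ _ _ _ _ hk hk2 hY _ hYk ht ht2 hx hx2 hYY hm hm1 hm2 =>
    k1 hk hk2 hY hYk ht ht2 hx hx2 hYY hm hm1 hm2
  k2 := fun _ _ _ _ _ _ _ hk hk2 hY _ hYk ht ht2 hx hx2 hYY hm hm1 hm2 =>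
    k2 hk hk2 hY hYk ht ht2 hx hx2 hYY hm hm1 hm2
  ke := fun _ _ _ _ _ hk hk2 hY _ hYk ht ht2 hx hx2 hYY => ke hk hk2 hY hYk ht ht2 hx hx2 hYY

end ZD

end Pool.Agent.Work.MP_b30479_gtS.G2

end

section

/-!
# `RowsN.nD2`, `RowsN.nd2`
-/

namespace Pool.Agent.Work.MP_b30479_gtS.G2

open NumUs (uu uu_neg uu_one_sub)

namespace ZD

namespace ZK

open ZA ZN

/-! ### Lipschitz bounds -/

theorem lip_of {a s p q : ℝ} (hs : 0 ≤ s) (h : ∀ t t' : ℝ, 0 ≤ t → t ≤ t' →
    uu a t' ≤ uu a t + s * (t' - t) ∧ uu a t ≤ uu a t' + s * (t' - t)) (hpq : p ≤ q) :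
    uu a q ≤ uu a p + s * (q - p) := by
  rw [← uu_abs a q, ← uu_abs a p]
  have h1 := abs_sub_abs_le_abs_sub q p
  have h2 := abs_sub_abs_le_abs_sub p q
  rw [abs_of_nonneg (show 0 ≤ q - p by linarith only [hpq])] at h1
  rw [abs_of_nonpos (show p - q ≤ 0 by linarith only [hpq])] at h2
  rcases le_total |p| |q| with h3 | h3
  · have := (h _ _ (abs_nonneg p) h3).1
    have := mul_le_mul_of_nonneg_left h1 hs
    linarith
  · have := (h _ _ (abs_nonneg q) h3).2
    have := mul_le_mul_of_nonneg_left h2 hs
    linarith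

theorem lip_mid {a t t' : ℝ} (h0 : 0 < a) (h1 : a < 1) (ht : 0 ≤ t) (htt : t ≤ t') :
    uu a t' ≤ uu a t + Real.pi * |a - 1 / 2| * (t' - t) ∧
      uu a t ≤ uu a t' + Real.pi * |a - 1 / 2| * (t' - t) := by
  have hp := Real.pi_pos
  have hm : 0 ≤ Real.pi * |a - 1 / 2| * (t' - t) :=
    mul_nonneg (by positivity) (by linarith only [htt])
  rcases le_total (1 / 2) a with h | h
  · have k1 := sl_small h h1 ht htt
    have k2 := (sl_half h h1.le ht htt).1
    rw [abs_of_nonneg (by linarith only [h])] at hm ⊢
    constructor <;> linarith only [k1, hm, k2]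
  · have k1 := sl_small (a := 1 - a) (by linarith only [h]) (by linarith only [h0]) ht htt
    have k2 := (sl_half (a := 1 - a) (by linarith only [h]) (by linarith only [h0]) ht htt).1
    have e : ∀ s, uu (1 - a) s = -uu a s := fun s => uu_one_sub a s
    rw [e, e] at k1 k2
    rw [abs_of_nonpos (by linarith only [h])] at hm ⊢
    have e2 : Real.pi * (1 - a - 1 / 2) * (t' - t) = Real.pi * (-(a - 1 / 2)) * (t' - t) := by ring
    rw [e2] at k1
    constructor <;> linarith only [hm, k2, k1]

/-! ### the difference along the vertical -/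

theorem nA2_ge {x t T k1 k2 s r : ℝ}
    (h1 : uu (x + k1) (16 / 100 * t + k2) ≤
      uu (x + k1) (T * t + k2) + s * (16 / 100 * t + k2 - (T * t + k2)))
    (h2 : uu x (T * t) ≤ uu x (16 / 100 * t) + r * (16 / 100 * t)) :
    t * ((16 / 100 - T) * (Real.pi * (x - k1) + Real.pi / 2 - s) +
      16 / 100 * (Real.pi - 2 * r)) ≤ nA2 x t T k1 k2 := by
  unfold nA2 gD2
  linarith only [h1, h2]

theorem arctan_cN : Real.arctan (16 / 13) ≤ 3 / 10 * Real.pi := by
  have h := Real.arctan_add (x := 1) (y := 3 / 29) (by norm_num)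
  rw [Real.arctan_one, show (1 + 3 / 29 : ℝ) / (1 - 1 * (3 / 29)) = 16 / 13 by norm_num] at h
  have h2 := arctan_le_id (y := 3 / 29) (by norm_num)
  have h3 := Real.pi_gt_three
  rw [← h]
  linarith only [h2, h3]

theorem hx_low {x t T : ℝ} (h0 : 0 < x) (h1 : x ≤ 2 / 100) (ht : t = 100 / 13 * x)
    (T0 : -(7 / 10000) ≤ T) (T1 : T ≤ 0) :
    uu x (T * t) ≤ uu x (16 / 100 * t) + 3 / 10 * Real.pi * (16 / 100 * t) := by
  have hp := Real.pi_pos
  have ht0 : 0 < t := by rw [ht]; positivity
  have h2 : |T * t| ≤ 16 / 100 * t := by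
    rw [abs_mul, abs_of_nonpos T1, abs_of_pos ht0]
    exact mul_le_mul_of_nonneg_right (by linarith only [h0, h1, T0]) ht0.le
  have h3 := uu_atan (a := x) (s := |T * t|) (s' := 16 / 100 * t) (r := 16 / 13)
    (c := 3 / 10 * Real.pi) h0 (by linarith only [h0, h1]) (abs_nonneg _) h2 (by rw [ht]; linarith only []) arctan_cN
  rw [uu_abs] at h3
  have h4 : 3 / 10 * Real.pi * (16 / 100 * t - |T * t|) ≤ 3 / 10 * Real.pi * (16 / 100 * t) :=
    mul_le_mul_of_nonneg_left (by linarith only [abs_nonneg (T * t)]) (by positivity)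
  linarith only [h3, h4]

theorem hx_high {x t T : ℝ} (h0 : 1 / 2 ≤ x) (h1 : x ≤ 6 / 10) (ht0 : 0 ≤ t)
    (T0 : -(7 / 10000) ≤ T) (T1 : T ≤ 0) :
    uu x (T * t) ≤ uu x (16 / 100 * t) + 0 * (16 / 100 * t) := by
  have h2 : |T * t| ≤ 16 / 100 * t := by
    rw [abs_mul, abs_of_nonpos T1, abs_of_nonneg ht0]
    exact mul_le_mul_of_nonneg_right (by linarith only [T0]) ht0
  have h3 := (sl_half h0 (by linarith only [h1]) (abs_nonneg _) h2).1
  rw [uu_abs] at h3
  linarith only [h3]

/-! ### the trapezoid -/

theorem tN_low {x : ℝ} (h0 : 0 < x) (h1 : x ≤ 13 / 100) : tN (13 / 100) x = 100 / 13 * x := by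
  unfold tN
  have e : x / (13 / 100) = 100 / 13 * x := by ring
  rw [e, min_eq_left (a := 100 / 13 * x) (by rw [le_div_iff₀ (by norm_num)]; linarith only [h0, h1]),
    min_eq_right (by linarith only [h1])]

theorem tN_mid {x : ℝ} (h0 : 13 / 100 ≤ x) (h1 : x ≤ 3 / 10) : tN (13 / 100) x = 1 := by
  unfold tN
  refine min_eq_left (le_min ?_ ?_)
  · rw [le_div_iff₀ (by norm_num)]; linarith only [h0]
  · rw [le_div_iff₀ (by norm_num)]; linarith only [h1]

theorem tN_high {x : ℝ} (h0 : 3 / 10 ≤ x) (h1 : x ≤ 6 / 10) :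
    tN (13 / 100) x = 10 / 3 * (60 / 100 - x) := by
  unfold tN
  have e : (60 / 100 - x) / (30 / 100) = 10 / 3 * (60 / 100 - x) := by ring
  rw [e, min_eq_right (a := x / (13 / 100)) (by rw [le_div_iff₀ (by norm_num)]; linarith only [h0]),
    min_eq_right (by linarith only [h0])]

end ZK

open ZK ZA ZN in
theorem nd2 : ∀ x t T k1 k2 : ℝ, NT (13 / 100) x t T → 0 ≤ k1 → |k2| ≤ 16 / 100 →
    |k2| ≤ 32 / 10 * k1 → |k2| ≤ 32 / 10 * (80 / 100 - k1) → 0 ≤ nB2 x t T k1 k2 + dN x := by
  intro x t T k1 k2 hN hk h2 h3 h4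
  obtain ⟨x0, x1, ht, T0, T1⟩ := hN
  have hk1 : k1 ≤ 80 / 100 := by linarith only [h4, abs_nonneg k2]
  obtain ⟨l, l0, l1, hl⟩ := ex_l h2 h3 h4
  obtain ⟨v1, v2, v3, v4⟩ := vals x k1 l T
  rcases le_total x (13 / 100) with hx | hx
  · rw [tN_low x0 hx] at ht
    obtain ⟨e, he, hp⟩ := NumLs.chkF4 r_d1 (by norm_num) (x := x) (y := k1) (z := l) (w := T)
      (by norm_num; linarith only [x0]) (by norm_num; linarith only [hx]) (by norm_num; linarith only [hk])
      (by norm_num; linarith only [hk1]) (by norm_num; linarith only [l0]) (by norm_num; linarith only [l1])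
      (by norm_num; linarith only [T0]) (by norm_num; linarith only [T1])
    simp only [ZK.d1, List.mem_singleton] at he
    rw [he, nd2E_val, kE_val, tL_val, v1, v2, v3, v4, ← hl, ← ht] at hp
    exact hp.le
  rcases le_total x (3 / 10) with hx3 | hx3
  · rw [tN_mid hx hx3] at ht
    obtain ⟨e, he, hp⟩ := NumLs.chkF4 r_d2 (by norm_num) (x := x) (y := k1) (z := l) (w := T)
      (by norm_num; linarith only [hx]) (by norm_num; linarith only [hx3]) (by norm_num; linarith only [hk])
      (by norm_num; linarith only [hk1]) (by norm_num; linarith only [l0]) (by norm_num; linarith only [l1])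
      (by norm_num; linarith only [T0]) (by norm_num; linarith only [T1])
    simp only [ZK.d2, List.mem_singleton] at he
    rw [he, nd2E_val, kE_val, v1, v2, v3, v4, ← hl] at hp
    simp only [NumLs.E.val] at hp
    push_cast at hp
    rw [ht]
    rw [div_one] at hp
    exact hp.le
  · rw [tN_high hx3 (by linarith only [x1])] at ht
    obtain ⟨e, he, hp⟩ := NumLs.chkF4 r_d3 (by norm_num) (x := x) (y := k1) (z := l) (w := T)
      (by norm_num; linarith only [hx3]) (by norm_num; linarith only [x1]) (by norm_num; linarith only [hk])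
      (by norm_num; linarith only [hk1]) (by norm_num; linarith only [l0]) (by norm_num; linarith only [l1])
      (by norm_num; linarith only [T0]) (by norm_num; linarith only [T1])
    simp only [ZK.d3, List.mem_singleton] at he
    rw [he, nd2E_val, kE_val, tR_val, v1, v2, v3, v4, ← hl, ← ht] at hp
    exact hp.le

open ZK ZA ZN in
theorem nD2 : ∀ x t T k1 k2 : ℝ, NT (13 / 100) x t T → 0 ≤ k1 → |k2| ≤ 16 / 100 →
    |k2| ≤ 32 / 10 * k1 → |k2| ≤ 32 / 10 * (80 / 100 - k1) →
    0 ≤ nA2 x t T k1 k2 + 16 / 100 * t * (PN x * nB2 x t T k1 k2 + cN x) := by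
  intro x t T k1 k2 hN hk h2 h3 h4
  obtain ⟨x0, x1, ht, T0, T1⟩ := hN
  have hpi := Real.pi_pos
  have hk1 : k1 ≤ 80 / 100 := by linarith only [h4, abs_nonneg k2]
  obtain ⟨l, l0, l1, hl⟩ := ex_l h2 h3 h4
  obtain ⟨v1, v2, v3, v4⟩ := vals x k1 l T
  have hx15 : 0 < x + 15 / 100 := by linarith only [x0, x1]
  have hx15' : 0 < ZK.x.val [x, k1, l, T] + 15 / 100 := by rw [v1]; exact hx15
  rcases le_total x (2 / 100) with hx | hx
  · rw [tN_low x0 (by linarith only [x0, hx])] at ht
    obtain ⟨e, he, hp⟩ := NumLs.chkF4 r_e1 (by norm_num) (x := x) (y := k1) (z := l) (w := T)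
      (by norm_num; linarith only [x0]) (by norm_num; linarith only [hx]) (by norm_num; linarith only [hk])
      (by norm_num; linarith only [hk1]) (by norm_num; linarith only [l0]) (by norm_num; linarith only [l1])
      (by norm_num; linarith only [T0]) (by norm_num; linarith only [T1])
    simp only [e1, List.mem_singleton] at he
    rw [he, nCE_val _ _ _ _ _ _ _ _ hx15', kE_val, tL_val, v1, v2, v3, v4, ← hl, ← ht,
      NumLs.E.mn_val] at hp
    simp only [NumLs.E.val, v1, v2] at hp
    push_cast at hp
    have hp := pos_of_mul_pos_right hp hx15.le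
    have ht0 : 0 < t := by rw [ht]; positivity
    have g1 := nA2_ge (x := x) (t := t) (T := T) (k1 := k1) (k2 := k2)
      (s := Real.pi * |x + k1 - 1 / 2|) (r := 3 / 10 * Real.pi)
      (lip_of (by positivity) (fun a b ha hab => lip_mid (by linarith only [hk, x0]) (by linarith only [x0, hk1, hx]) ha hab)
        (by nlinarith only [ht, x0, T1, hx, x1, T0])) (hx_low x0 hx ht T0 T1)
    have g2 : Real.pi * (x - k1) + Real.pi / 2 - Real.pi * |x + k1 - 1 / 2| =
        Real.pi * min (2 / 1 * x) (1 / 1 - 2 / 1 * k1) := by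
      rcases le_total (x + k1) (1 / 2) with h | h
      · rw [abs_of_nonpos (by linarith only [h]), min_eq_left (by linarith only [h])]; ring
      · rw [abs_of_nonneg (by linarith only [h]), min_eq_right (by linarith only [h])]; ring
    rw [g2] at g1
    have g3 := mul_pos ht0 hp
    linarith only [g1, g3]
  rcases le_total x (13 / 100) with hx2 | hx2
  · rw [tN_low x0 hx2] at ht
    obtain ⟨e, he, hp⟩ := NumLs.chkF4 r_e2 (by norm_num) (x := x) (y := k1) (z := l) (w := T)
      (by norm_num; linarith only [hx]) (by norm_num; linarith only [hx2]) (by norm_num; linarith only [hk])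
      (by norm_num; linarith only [hk1]) (by norm_num; linarith only [l0]) (by norm_num; linarith only [l1])
      (by norm_num; linarith only [T0]) (by norm_num; linarith only [T1])
    simp only [e2, List.mem_singleton] at he
    rw [he, nD2E_val _ _ _ _ _ _ hx15', kE_val, tL_val, v1, v2, v3, v4, ← hl, ← ht] at hp
    exact (pos_of_mul_pos_right hp hx15.le).le
  rcases le_total x (3 / 10) with hx3 | hx3
  · rw [tN_mid hx2 hx3] at ht
    obtain ⟨e, he, hp⟩ := NumLs.chkF4 r_e3 (by norm_num) (x := x) (y := k1) (z := l) (w := T)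
      (by norm_num; linarith only [hx2]) (by norm_num; linarith only [hx3]) (by norm_num; linarith only [hk])
      (by norm_num; linarith only [hk1]) (by norm_num; linarith only [l0]) (by norm_num; linarith only [l1])
      (by norm_num; linarith only [T0]) (by norm_num; linarith only [T1])
    simp only [e3, List.mem_singleton] at he
    rw [he, nD2E_val _ _ _ _ _ _ hx15', kE_val, v1, v2, v3, v4, ← hl] at hp
    have e1 : (NumLs.E.q 1 1).val [x, k1, l, T] = t := by
      rw [ht]; simp only [NumLs.E.val]; norm_num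
    rw [e1] at hp
    exact (pos_of_mul_pos_right hp hx15.le).le
  rw [tN_high hx3 (by linarith only [x1])] at ht
  have ht0 : 0 < t := by rw [ht]; linarith only [x1]
  rcases le_total x (1 / 2) with hx4 | hx4
  · obtain ⟨e, he, hp⟩ := NumLs.chkF4 r_e4 (by norm_num) (x := x) (y := k1) (z := l) (w := T)
      (by norm_num; linarith only [hx3]) (by norm_num; linarith only [hx4]) (by norm_num; linarith only [hk])
      (by norm_num; linarith only [hk1]) (by norm_num; linarith only [l0]) (by norm_num; linarith only [l1])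
      (by norm_num; linarith only [T0]) (by norm_num; linarith only [T1])
    simp only [e4, List.mem_singleton] at he
    rw [he, nD2E_val _ _ _ _ _ _ hx15', kE_val, tR_val, v1, v2, v3, v4, ← hl, ← ht] at hp
    exact (pos_of_mul_pos_right hp hx15.le).le
  rcases le_total (x + k1) 1 with hk5 | hk5
  · obtain ⟨e, he, hp⟩ := NumLs.chkF4 r_e5 (by norm_num) (x := x) (y := k1) (z := l) (w := T)
      (by norm_num; linarith only [hx4]) (by norm_num; linarith only [x1]) (by norm_num; linarith only [hk])
      (by norm_num; linarith only [hx4, hk5]) (by norm_num; linarith only [l0]) (by norm_num; linarith only [l1])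
      (by norm_num; linarith only [T0]) (by norm_num; linarith only [T1])
    simp only [e5, List.mem_cons, List.not_mem_nil, or_false] at he
    rcases he with rfl | rfl
    · rw [nCE_val _ _ _ _ _ _ _ _ hx15', kE_val, tR_val, v1, v2, v3, v4, ← hl, ← ht] at hp
      simp only [NumLs.E.val, v1, v2] at hp
      push_cast at hp
      have hp := pos_of_mul_pos_right hp hx15.le
      have g1 := nA2_ge (x := x) (t := t) (T := T) (k1 := k1) (k2 := k2)
        (s := Real.pi / 2) (r := 0)
        (lip_of (by positivity) (fun a b ha hab => by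
          have := sl_half (a := x + k1) (by linarith only [hk, hx4]) hk5 ha hab
          have hm : 0 ≤ Real.pi / 2 * (b - a) := mul_nonneg (by positivity) (by linarith only [hab])
          constructor <;> linarith only [this]) (by nlinarith only [x1, ht, x0, T1, T0])) (hx_high hx4 (by linarith only [x1]) ht0.le T0 T1)
      have g3 := mul_pos ht0 hp
      linarith only [g1, g3]
    · simp only [NumLs.E.val, v1, v2] at hp
      push_cast at hp
      linarith only [hk5, hp]
  · obtain ⟨e, he, hp⟩ := NumLs.chkF4 r_e6 (by norm_num) (x := x) (y := k1) (z := l) (w := T)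
      (by norm_num; linarith only [hx4]) (by norm_num; linarith only [x1]) (by norm_num; linarith only [x1, hk5])
      (by norm_num; linarith only [hk1]) (by norm_num; linarith only [l0]) (by norm_num; linarith only [l1])
      (by norm_num; linarith only [T0]) (by norm_num; linarith only [T1])
    simp only [e6, List.mem_cons, List.not_mem_nil, or_false] at he
    rcases he with rfl | rfl
    · rw [nCE_val _ _ _ _ _ _ _ _ hx15', kE_val, tR_val, v1, v2, v3, v4, ← hl, ← ht] at hp
      simp only [NumLs.E.val, v1, v2] at hp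
      push_cast at hp
      have hp := pos_of_mul_pos_right hp hx15.le
      have g1 := nA2_ge (x := x) (t := t) (T := T) (k1 := k1) (k2 := k2)
        (s := Real.pi) (r := 0)
        (lip_of (by positivity) (fun a b ha hab => by
          have := sl_one (a := x + k1) hk5 (by linarith only [ht, hk1, ht0, hx4]) ha hab
          have hm : 0 ≤ Real.pi / 2 * (b - a) := mul_nonneg (by positivity) (by linarith only [hab])
          constructor <;> linarith only [this]) (by nlinarith only [x1, ht, x0, T1, T0])) (hx_high hx4 (by linarith only [x1]) ht0.le T0 T1)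
      have g3 := mul_pos ht0 hp
      linarith only [g1, g3]
    · simp only [NumLs.E.val, v1, v2] at hp
      push_cast at hp
      linarith only [hk5, hp]

end ZD

end Pool.Agent.Work.MP_b30479_gtS.G2

end

section

/-!
# `RowsN.nD1` for `1/2 ≤ x`
-/

namespace Pool.Agent.Work.MP_b30479_gtS.G2

open NumUs (uu uu_neg uu_one_sub uu_add_one)

namespace ZD

namespace ZL

open ZA ZN
open ZK (lip_of)

/-! ### slopes of `uu a` -/

theorem lnB_half {a t : ℝ} (h0 : 1 / 2 ≤ a) (h1 : a < 1) (ht : 0 ≤ t) : NumIs.lnB a t ≤ 0 := by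
  have h := lnB_nonneg (a := 1 - a) (by linarith only [h1]) (by linarith only [h0]) ht
  rw [lnB_one_sub] at h
  linarith only [h]

theorem uu_at_one (t : ℝ) : uu 1 t = Real.pi / 2 * |t| := by
  have := uu_one_sub 0 t
  rw [sub_zero, UA.uu_zero, neg_neg] at this
  exact this

theorem dabs_p {c v : ℝ} (h : 0 < v + c) : HasDerivAt (fun v => |v + c|) 1 v := by
  have h1 := (hasDerivAt_abs_pos h).comp v ((hasDerivAt_id v).add_const c)
  refine HasDerivAt.congr_deriv h1 ?_
  norm_num

theorem dabs_n {c v : ℝ} (h : v + c < 0) : HasDerivAt (fun v => |v + c|) (-1) v := by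
  have h1 := (hasDerivAt_abs_neg h).comp v ((hasDerivAt_id v).add_const c)
  refine HasDerivAt.congr_deriv h1 ?_
  norm_num

/-- slope, `1/2 ≤ a < 1` -/
theorem derA {a c v : ℝ} (h0 : 1 / 2 ≤ a) (h1 : a < 1) :
    ∃ s, HasDerivAt (fun v => uu a (v + c)) s v ∧ s ≤ Real.pi * (a - 1 / 2) := by
  refine ⟨_, uu_t (by linarith only [h0, h1]) h1, ?_⟩
  rcases le_total 0 (v + c) with h | h
  · exact lnB_small h0 h1 h
  · have h2 := lnB_half h0 h1 (t := -(v + c)) (by linarith only [h])
    rw [lnB_neg] at h2
    have : 0 ≤ Real.pi * (a - 1 / 2) := mul_nonneg Real.pi_pos.le (by linarith only [h0])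
    linarith only [h2, this]

/-- slope, `1 ≤ a`, above -/
theorem derB {a c v : ℝ} (h0 : 1 ≤ a) (h1 : a < 2) (h : 0 < v + c) :
    ∃ s, HasDerivAt (fun v => uu a (v + c)) s v ∧
      s ≤ Real.pi - NumIs.lnB (max (a - 1) (5 / 100)) (v + c) := by
  rcases h0.eq_or_lt with h2 | h2
  · refine ⟨Real.pi / 2 * 1, ?_, ?_⟩
    · have e : (fun v => uu a (v + c)) = fun v => Real.pi / 2 * |v + c| := by
        funext v
        rw [← h2]
        exact uu_at_one _
      rw [e]
      exact (dabs_p h).const_mul _
    · have := ZA.lnB_le (max (a - 1) (5 / 100)) (v + c)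
      linarith only [this]
  · refine ⟨-NumIs.lnB (a - 1) (v + c) + Real.pi * 1, ?_, ?_⟩
    · have e : (fun v => uu a (v + c)) = fun v => uu (a - 1) (v + c) + Real.pi * |v + c| := by
        funext v
        rw [← uu_add_one, sub_add_cancel]
      rw [e]
      exact (uu_t (by linarith only [h2]) (by linarith only [h1])).add ((dabs_p h).const_mul _)
    · rcases le_total (a - 1) (5 / 100) with h3 | h3
      · rw [max_eq_right h3]
        have := lnB_anti (a := a - 1) (b := 5 / 100) (t := v + c) (by linarith only [h2]) h3 (by norm_num) h.le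
        linarith only [this]
      · rw [max_eq_left h3]
        linarith only []

/-- slope, `1 ≤ a`, below -/
theorem derC {a c v : ℝ} (h0 : 1 ≤ a) (h1 : a < 2) (h : v + c < 0) :
    ∃ s, HasDerivAt (fun v => uu a (v + c)) s v ∧ s ≤ 0 := by
  have hp := Real.pi_pos
  rcases h0.eq_or_lt with h2 | h2
  · refine ⟨Real.pi / 2 * (-1), ?_, by linarith only [hp]⟩
    have e : (fun v => uu a (v + c)) = fun v => Real.pi / 2 * |v + c| := by
      funext v
      rw [← h2]
      exact uu_at_one _
    rw [e]
    exact (dabs_n h).const_mul _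
  · refine ⟨-NumIs.lnB (a - 1) (v + c) + Real.pi * (-1), ?_, ?_⟩
    · have e : (fun v => uu a (v + c)) = fun v => uu (a - 1) (v + c) + Real.pi * |v + c| := by
        funext v
        rw [← uu_add_one, sub_add_cancel]
      rw [e]
      exact (uu_t (by linarith only [h2]) (by linarith only [h1])).add ((dabs_n h).const_mul _)
    · have := ZA.lnB_le (a - 1) (-(v + c))
      rw [lnB_neg] at this
      linarith only [hp, this]

/-! ### the lower bound `H` and its slope -/

/-- lower bound of `nD1`, `v = 16/100 t` -/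
noncomputable def HH (x k1 k2 v : ℝ) : ℝ :=
  gD1 x 0 k1 k2 - gD1 x v k1 k2 + (Real.pi - 7 / 1600 * Real.pi * (x + k1 - 4 / 10)) * v +
    v * (PN x * nV x v k1 k2 + cN x)

theorem PN_pos {x : ℝ} (h0 : 0 ≤ x) (h1 : x ≤ 6 / 10) : 0 < PN x := by
  unfold PN
  rw [sub_pos, lt_div_iff₀ (by linarith only [h0])]
  linarith only [h1]

theorem hR_mono {x v k1 k2 s S : ℝ} (h0 : 0 ≤ x) (h1 : x ≤ 6 / 10) (hv : 0 ≤ v) (hs : s ≤ S)
    (h : 0 < hR x v k1 k2 S) : 0 < hR x v k1 k2 s := by
  have hp := PN_pos h0 h1
  unfold hR at h ⊢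
  have := mul_nonneg (mul_nonneg hp.le hv) (sub_nonneg.2 hs)
  nlinarith only [hs, h, this]

theorem HH_cont (x k1 k2 : ℝ) : Continuous (HH x k1 k2) := by
  unfold HH nV gD1
  have h1 : Continuous fun v : ℝ => uu (x + k1) (v + k2) :=
    cont_uu' continuous_const (by fun_prop)
  have h2 : Continuous fun v : ℝ => uu x v := cont_uu' continuous_const continuous_id
  fun_prop

theorem HH_der {x k1 k2 v s : ℝ} (h0 : 0 < x) (h1 : x < 1)
    (h : HasDerivAt (fun v => uu (x + k1) (v + k2)) s v) :
    HasDerivAt (HH x k1 k2) (hR x v k1 k2 s) v := by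
  have hx : HasDerivAt (fun v => uu x (v + 0)) (-NumIs.lnB x (v + 0)) v := uu_t h0 h1
  simp only [add_zero] at hx
  have hg : HasDerivAt (fun v => gD1 x v k1 k2)
      (Real.pi * (k1 - 1) + s + NumIs.lnB x v) v := by
    unfold gD1
    have hl : HasDerivAt (fun v : ℝ => Real.pi * (x * k2 + v * k1 - v))
        (Real.pi * (1 * k1 - 1)) v :=
      ((((hasDerivAt_id v).mul_const k1).const_add _).sub (hasDerivAt_id v)).const_mul _
    exact ((hl.add h).sub hx).congr_deriv (by ring)
  have hn : HasDerivAt (fun v => nV x v k1 k2)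
      (-(Real.pi * (k1 - 1) + s + NumIs.lnB x v) + Real.pi) v := by
    unfold nV
    have hl : HasDerivAt (fun v : ℝ => Real.pi * (7 / 10000 * k1 - v)) (Real.pi * (-1)) v :=
      ((hasDerivAt_id v).const_sub _).const_mul _
    exact ((hg.const_sub _).sub hl).congr_deriv (by ring)
  have hv := hasDerivAt_id v
  have h3 := ((hg.const_sub (gD1 x 0 k1 k2)).add
    (hv.const_mul (Real.pi - 7 / 1600 * Real.pi * (x + k1 - 4 / 10)))).add
    (hv.mul ((hn.const_mul (PN x)).add_const (cN x)))
  refine HasDerivAt.congr_deriv h3 ?_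
  unfold hR
  simp only [id]
  ring

theorem HH_step {x k1 k2 p q : ℝ} (h0 : 0 < x) (h1 : x < 1) (hpq : p ≤ q)
    (h : ∀ v ∈ Set.Ioo p q, ∃ s, HasDerivAt (fun v => uu (x + k1) (v + k2)) s v ∧
      0 < hR x v k1 k2 s) : HH x k1 k2 p ≤ HH x k1 k2 q := by
  have hm : MonotoneOn (HH x k1 k2) (Set.Icc p q) := by
    apply monotoneOn_of_deriv_nonneg (convex_Icc _ _) (HH_cont x k1 k2).continuousOn
    · rw [interior_Icc]
      intro v hv
      obtain ⟨s, hs, _⟩ := h v hv
      exact (HH_der h0 h1 hs).differentiableAt.differentiableWithinAt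
    · rw [interior_Icc]
      intro v hv
      obtain ⟨s, hs, hp⟩ := h v hv
      rw [(HH_der h0 h1 hs).deriv]
      exact hp.le
  exact hm (Set.left_mem_Icc.2 hpq) (Set.right_mem_Icc.2 hpq) hpq

theorem HH_zero (x k1 k2 : ℝ) : HH x k1 k2 0 = 0 := by
  unfold HH
  ring

/-! ### the rows -/

theorem ex_w {x v : ℝ} (h1 : x < 6 / 10) (hv : 0 ≤ v) (hv1 : v ≤ 8 / 15 * (60 / 100 - x)) :
    ∃ w : ℝ, 0 ≤ w ∧ w ≤ 1 ∧ v = w * (8 / 15) * (60 / 100 - x) := by
  have h : 0 < 8 / 15 * (60 / 100 - x) := by linarith only [h1]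
  refine ⟨v / (8 / 15 * (60 / 100 - x)), by positivity, ?_, ?_⟩
  · rw [div_le_iff₀ h]; linarith only [hv1]
  · rw [mul_assoc, div_mul_cancel₀ _ h.ne']

theorem row_A {x v k1 k2 : ℝ} (h0 : 1 / 2 ≤ x) (h1 : x < 6 / 10) (hk : dom3 k1 k2)
    (ha : x + k1 ≤ 1) (hv : 0 ≤ v) (hv1 : v ≤ 8 / 15 * (60 / 100 - x)) :
    0 < hR x v k1 k2 (Real.pi * (x + k1 - 1 / 2)) := by
  obtain ⟨l, l0, l1, hl⟩ := ex_l hk
  obtain ⟨w, w0, w1, hw⟩ := ex_w h1 hv hv1
  obtain ⟨k0, _⟩ := hk
  obtain ⟨v1, v2, v3, v4⟩ := vals x k1 l w
  have hx15 : 0 < x + 15 / 100 := by linarith only [h0, h1]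
  have hx15' : 0 < ZL.x.val [x, k1, l, w] + 15 / 100 := by rw [v1]; exact hx15
  obtain ⟨e, he, hp⟩ := NumLs.chkF4 r_hA (by norm_num) (x := x) (y := k1) (z := l) (w := w)
    (by norm_num; linarith only [h0]) (by norm_num; linarith only [h1]) (by norm_num; linarith only [k0])
    (by norm_num; linarith only [h0, ha]) (by norm_num; linarith only [l0]) (by norm_num; linarith only [l1])
    (by norm_num; linarith only [w0]) (by norm_num; linarith only [w1])
  simp only [hA, List.mem_cons, List.not_mem_nil, or_false] at he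
  rcases he with rfl | rfl
  · rw [hE_val _ _ _ _ _ _ hx15', kE_val, vE_val, v1, v2, v3, v4, ← hl, ← hw] at hp
    simp only [NumLs.E.val, v1, v2] at hp
    push_cast at hp
    exact pos_of_mul_pos_right hp hx15.le
  · simp only [NumLs.E.val, v1, v2] at hp
    push_cast at hp
    linarith only [ha, hp]

theorem row_B {x v k1 k2 : ℝ} (h0 : 1 / 2 ≤ x) (h1 : x < 6 / 10) (hk : dom3 k1 k2)
    (ha : 1 ≤ x + k1) (hv : 0 ≤ v) (hv1 : v ≤ 8 / 15 * (60 / 100 - x)) (ht : 0 ≤ v + k2) :
    0 < hR x v k1 k2 (Real.pi - NumIs.lnB (max (x + k1 - 1) (5 / 100)) (v + k2)) := by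
  obtain ⟨l, l0, l1, hl⟩ := ex_l hk
  obtain ⟨w, w0, w1, hw⟩ := ex_w h1 hv hv1
  obtain ⟨k0, k3, _⟩ := hk
  obtain ⟨v1, v2, v3, v4⟩ := vals x k1 l w
  have hx15 : 0 < x + 15 / 100 := by linarith only [h0, h1]
  have hx15' : 0 < ZL.x.val [x, k1, l, w] + 15 / 100 := by rw [v1]; exact hx15
  obtain ⟨e, he, hp⟩ := NumLs.chkF4 r_hB (by norm_num) (x := x) (y := k1) (z := l) (w := w)
    (by norm_num; linarith only [h0]) (by norm_num; linarith only [h1]) (by norm_num; linarith only [h1, ha])
    (by norm_num; linarith only [k3]) (by norm_num; linarith only [l0]) (by norm_num; linarith only [l1])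
    (by norm_num; linarith only [w0]) (by norm_num; linarith only [w1])
  simp only [hB, List.mem_cons, List.not_mem_nil, or_false] at he
  rcases he with rfl | rfl | rfl
  · rw [hE_val _ _ _ _ _ _ hx15'] at hp
    simp only [NumLs.E.val, NumLs.E.mx_val, kE_val, vE_val, v1, v2, v3, v4, ← hl, ← hw] at hp
    push_cast at hp
    rw [div_one] at hp
    exact pos_of_mul_pos_right hp hx15.le
  · simp only [NumLs.E.val, kE_val, vE_val, v1, v2, v3, v4, ← hl, ← hw] at hp
    linarith only [ht, hp]
  · simp only [NumLs.E.val, v1, v2] at hp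
    push_cast at hp
    linarith only [ha, hp]

theorem row_C {x v k1 k2 : ℝ} (h0 : 1 / 2 ≤ x) (h1 : x < 6 / 10) (hk : dom3 k1 k2)
    (ha : 1 ≤ x + k1) (hv : 0 ≤ v) (hv1 : v ≤ 8 / 15 * (60 / 100 - x)) (ht : v + k2 ≤ 0) :
    0 < hR x v k1 k2 0 := by
  obtain ⟨l, l0, l1, hl⟩ := ex_l hk
  obtain ⟨w, w0, w1, hw⟩ := ex_w h1 hv hv1
  obtain ⟨k0, k3, _⟩ := hk
  obtain ⟨v1, v2, v3, v4⟩ := vals x k1 l w
  have hx15 : 0 < x + 15 / 100 := by linarith only [h0, h1]
  have hx15' : 0 < ZL.x.val [x, k1, l, w] + 15 / 100 := by rw [v1]; exact hx15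
  obtain ⟨e, he, hp⟩ := NumLs.chkF4 r_hC (by norm_num) (x := x) (y := k1) (z := l) (w := w)
    (by norm_num; linarith only [h0]) (by norm_num; linarith only [h1]) (by norm_num; linarith only [h1, ha])
    (by norm_num; linarith only [k3]) (by norm_num; linarith only [l0]) (by norm_num; linarith only [l1])
    (by norm_num; linarith only [w0]) (by norm_num; linarith only [w1])
  simp only [hC, List.mem_cons, List.not_mem_nil, or_false] at he
  rcases he with rfl | rfl | rfl
  · rw [hE_val _ _ _ _ _ _ hx15'] at hp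
    simp only [NumLs.E.val, kE_val, vE_val, v1, v2, v3, v4, ← hl, ← hw] at hp
    push_cast at hp
    rw [zero_div] at hp
    exact pos_of_mul_pos_right hp hx15.le
  · simp only [NumLs.E.val, kE_val, vE_val, v1, v2, v3, v4, ← hl, ← hw] at hp
    linarith only [ht, hp]
  · simp only [NumLs.E.val, v1, v2] at hp
    push_cast at hp
    linarith only [ha, hp]

theorem HH_nonneg {x y k1 k2 : ℝ} (h0 : 1 / 2 ≤ x) (h1 : x < 6 / 10) (hk : dom3 k1 k2)
    (hy : 0 ≤ y) (hy1 : y ≤ 8 / 15 * (60 / 100 - x)) : 0 ≤ HH x k1 k2 y := by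
  have hx0 : 0 < x := by linarith only [h0, h1]
  have hx1 : x < 1 := by linarith only [h0, h1]
  have k0 := hk.1
  have k3 := hk.2.1
  rw [← HH_zero x k1 k2]
  rcases lt_or_ge (x + k1) 1 with ha | ha
  · refine HH_step hx0 hx1 hy fun v hv => ?_
    obtain ⟨s, hs, hs2⟩ := derA (a := x + k1) (c := k2) (v := v) (by linarith only [h0, k0, ha]) ha
    exact ⟨s, hs, hR_mono hx0.le (by linarith only [h1]) hv.1.le hs2
      (row_A h0 h1 hk ha.le hv.1.le (hv.2.le.trans hy1))⟩
  have hB : ∀ p q, 0 ≤ p → p ≤ q → q ≤ y → 0 ≤ p + k2 → HH x k1 k2 p ≤ HH x k1 k2 q := by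
    intro p q hp hpq hq hpk
    refine HH_step hx0 hx1 hpq fun v hv => ?_
    obtain ⟨s, hs, hs2⟩ := derB (a := x + k1) (c := k2) (v := v) ha (by linarith only [h0, h1, k3])
      (by linarith only [hpk, hv, hv.1])
    exact ⟨s, hs, hR_mono hx0.le (by linarith only [h1]) (by linarith only [hp, hv, hv.1]) hs2
      (row_B h0 h1 hk ha (by linarith only [hp, hv, hv.1]) (by linarith only [hy1, hq, hv, hv.2]) (by linarith only [hpk, hv, hv.1]))⟩
  have hC : ∀ p q, 0 ≤ p → p ≤ q → q ≤ y → q + k2 ≤ 0 → HH x k1 k2 p ≤ HH x k1 k2 q := by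
    intro p q hp hpq hq hpk
    refine HH_step hx0 hx1 hpq fun v hv => ?_
    obtain ⟨s, hs, hs2⟩ := derC (a := x + k1) (c := k2) (v := v) ha (by linarith only [h0, h1, k3])
      (by linarith only [hpk, hv, hv.2])
    exact ⟨s, hs, hR_mono hx0.le (by linarith only [h1]) (by linarith only [hp, hv, hv.1]) hs2
      (row_C h0 h1 hk ha (by linarith only [hp, hv, hv.1]) (by linarith only [hy1, hq, hv, hv.2]) (by linarith only [hpk, hv, hv.2]))⟩
  rcases le_total 0 k2 with h2 | h2
  · exact hB 0 y le_rfl hy le_rfl (by linarith only [h2])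
  rcases le_total (y + k2) 0 with h3 | h3
  · exact hC 0 y le_rfl hy le_rfl h3
  · exact (hC 0 (-k2) le_rfl (by linarith only [h2]) (by linarith only [h3]) (by linarith only [])).trans
      (hB (-k2) y (by linarith only [h2]) (by linarith only [h3]) le_rfl (by linarith only []))

/-! ### the height of the saddle -/

theorem T_x {x t T k1 k2 : ℝ} (h0 : 1 / 2 ≤ x) (h1 : x < 6 / 10) (hk : dom3 k1 k2)
    (ht : 0 ≤ t) (T0 : -(7 / 10000) ≤ T) (T1 : T ≤ 0) :
    gD1 x 0 k1 k2 - 7 / 1600 * Real.pi * (x + k1 - 4 / 10) * (16 / 100 * t) ≤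
      gD1 x (T * t) k1 k2 := by
  have hp := Real.pi_pos
  have k0 := hk.1
  have k3 := hk.2.1
  have hT : T * t ≤ 0 := mul_nonpos_of_nonpos_of_nonneg T1 ht
  have hT2 : -(T * t) ≤ 7 / 10000 * t := by
    have := mul_le_mul_of_nonneg_right (show -T ≤ 7 / 10000 by linarith only [T0]) ht
    linarith only [this]
  have g1 := lip_of (a := x + k1) (s := 11 / 10 * Real.pi) (p := T * t + k2) (q := k2)
    (by positivity) (fun a b ha hab => by
      have := slH (a := x + k1) (by linarith only [h0, h1, k0]) (by linarith only [h1, k3]) ha hab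
      have hm : 0 ≤ 11 / 10 * Real.pi * (b - a) := mul_nonneg (by positivity) (by linarith only [hab])
      constructor <;> linarith only [this]) (by linarith only [hT])
  have g2 := sl_small (a := x) (t := 0) (t' := |T * t|) h0 (by linarith only [h0, h1]) le_rfl (abs_nonneg _)
  rw [uu_abs, abs_of_nonpos hT] at g2
  have g3 : Real.pi * (x + k1 - 4 / 10) * (-(T * t)) ≤
      Real.pi * (x + k1 - 4 / 10) * (7 / 10000 * t) :=
    mul_le_mul_of_nonneg_left hT2 (mul_nonneg hp.le (by linarith only [h0, h1, k0]))
  unfold gD1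
  rw [zero_add]
  linarith only [g1, g2, g3]

theorem T_2 {T k1 k2 : ℝ} (hk : dom3 k1 k2) (T0 : -(7 / 10000) ≤ T) (T1 : T ≤ 0) :
    gD1 (2 / 10) 0 k1 k2 - Real.pi * (7 / 10000 * k1) ≤ gD1 (2 / 10) T k1 k2 := by
  have hp := Real.pi_pos
  have k0 := hk.1
  have k3 := hk.2.1
  have g1 := lip_of (a := 2 / 10 + k1) (s := Real.pi) (p := T + k2) (q := k2)
    hp.le (fun a b ha hab => by
      have h1 := upp0 (a := 2 / 10 + k1) (by linarith only [k0]) (by linarith only [k3]) ha hab
      have h2 := low0 (a := 2 / 10 + k1) (by linarith only [k0]) (by linarith only [k3]) ha hab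
      have hm : 0 ≤ Real.pi / 2 * (b - a) := mul_nonneg (by positivity) (by linarith only [hab])
      constructor <;> linarith only [h1, h2]) (by linarith only [T1])
  have g2 := slope_le (a := 2 / 10) (t := 0) (t' := |T|) (by norm_num) (by norm_num) le_rfl
    (abs_nonneg _)
  rw [uu_abs] at g2
  have g3 : Real.pi * k1 * (-T) ≤ Real.pi * k1 * (7 / 10000) :=
    mul_le_mul_of_nonneg_left (by linarith only [T0]) (mul_nonneg hp.le (by linarith only [k0]))
  unfold gD1
  rw [zero_add]
  linarith only [g1, g2, g3]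

theorem nD1_high {x t T k1 k2 : ℝ} (h0 : 1 / 2 ≤ x) (h1 : x < 6 / 10)
    (ht : t = 10 / 3 * (60 / 100 - x)) (T0 : -(7 / 10000) ≤ T) (T1 : T ≤ 0) (hk : dom3 k1 k2) :
    0 ≤ nA1 x t T k1 k2 + 16 / 100 * t * (PN x * nB1 x t T k1 k2 + cN x) := by
  have ht0 : 0 < t := by rw [ht]; linarith only [h1]
  have h := HH_nonneg h0 h1 hk (y := 16 / 100 * t) (by positivity) (by rw [ht]; linarith only [])
  have g1 := T_x h0 h1 hk ht0.le T0 T1
  have g2 := T_2 hk T0 T1
  have hP := PN_pos (x := x) (by linarith only [h0]) h1.le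
  have g3 := mul_le_mul_of_nonneg_left g2 (mul_nonneg (show 0 ≤ 16 / 100 * t by positivity) hP.le)
  unfold HH nV at h
  unfold nA1 nB1
  linarith only [h, g1, g3]

end ZL

end ZD

end Pool.Agent.Work.MP_b30479_gtS.G2

end

section

/-!
# `RowsN`: a digit `3`, slot `0`, certificates
-/

set_option linter.unusedVariables false
set_option linter.unusedSimpArgs false

namespace Pool.Agent.Work.MP_b30479_gtS.G2

open NumUs (uu)
open NumLs (E)
open NumLs.E (mn mn_val)

namespace ZD

namespace ZL

theorem r_k2 : NumLs.chkF d2 10000 0 0 10000 7 40 1200 3000 2000 10000 0 20000 0 7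
    4670293705207693505077645775443099451913153101454049199306795819179129800273809954558600905886540814946821406645855778375339865844857269183233089581554657874220883700995700175569535020767898953224241247823734853636543038578696046551791057876909751915232619012671206523531688967195405793608935769698377364801908877618766340610678858536443855446762414016478858320159369830926420728220856037030408637517296249153802800904483836263353792799958099855182713989061958790606345236233369193497291087476265728011982241193434220930294151664583166176934852890372602064907403495310541077339976260057865456598086277403247275962717310168166806360000421115872334295257184254235913096901206410592131574477864735653665747954982811768366061843381739695381526022447300372479135119518089601719418125101158963436704211004075722880567230259359547433132656638389416057469210230589880615040796794363008077613648200627811025233389817803916163543769945156352402851832190713182717288458979587773235854531422749819914264696713305876665266676725020847722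65622407806542786179512163328130826816121214723524840669169442378053753220349451327263978334220008425813432193304749048888370862577316870611626347067254494991321035465332126120238351702017956321499877049755235037345467909642636904827952426129662436716644260552475563565154082203471223222590195715499634262428911979591860888205536163332213587117591556927758669466808294574797496206157475251020158146067561657164934032838764650066052988322029990446269807042665961550509992233031453247006774692728279229142463379670642168338867492797367992067612809444439031146309478199311075648720331662441236104283740379529075447701674357674584749546142534896601277618723831913221983532431437164082718752855518576617536063302922418745424214282822233166317688280961442563592016016482208767168633799861145115655631896238988198053971975456489851601869815263838712648841774690463572240303481037670427531130730701826452180426548071021875286137236754042162507750374433351757240051580383176320078228364476674 = true :=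
  Pool.Agent.Work.NumIs.okB_of rfl rfl rfl rfl rfl rfl rfl rfl rfl rfl rfl rfl
    (Pool.Agent.Work.NumIs.runE_split2 rfl rfl rfl
      r_k2_p1
      r_k2_p2)

theorem r_k3 : NumLs.chkF d3 10000 0 0 10000 7 40 3000 6000 2000 10000 0 20000 0 7
    6738608311716437140301556461386105562361714650542225481687222165024595405376961604338000563558183837853608505654117462843951064123282980563453967993928196477626402430051536552429016267402161172438438477887013357294509187194749724003053758688024368145131783827201951229087303340561079301344091858386253070708351929228341642906670818787300816079580856558081584089823429878220332881603401315772517946152973971558901232758188345465469818524776243518956688444261792861551389216421587351533955495562641900234478973205363311162801417760792570085777707911956299626853016016384320066245902017504134992088130413133541172031214179018561089584527788441161088473574111080346157900679161418884462283069945817826762669116105449431887176191283062460079523355839313272090084433092779017067565134704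384507592457221028336265887900725761280500893808644445965563437777820730194226459309473499990665788388566377381332982146062862298920251930622850103981834020513718656153812344111937394658512518169552928803519970790905986713297533972699482900586623860255800567376652440516294487906843902906360752452178191660124103859756628690612585959914231326087449606441317437916554642833940263890682738897162246414294742591445725522006794552230782747479351560452506603996313010256431711340162061425762270390779241382243876103975794546238352464385050641127526345344373223645469239015589901376570451798860751063884010295305069005543324762655679620587145369578816860331228638171414247253278228404546528893963873182379358490429188192973907890506915966716561330522463831052228565328117524372865575163023493759977274822407559146167172604433113674796381280220161972505673109842649979309140148124075177875168563991653028186280211767538698943114205973421896088494779990960592823352453505625076517916176309682519340474948993218402262883197531494247481179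815716574369832437430800269719777386358937271675658235337953784948886130451672555679183382016395320070576823128496434071048689705079756943667719972784598187183036233820305397462742272017787639852121683237537042914445919511292787340202413716010338087384693550835988883789331767825195562004283384264020986710701118160054218592543096326109552380299255407421834590334862443859624847423596458748475968292247212675407710677769027637888497269372642158488528692205993753335453458759712410252219603881017905534305449295855955549282842721860781536290131156303708408915958322786036562634994905813958620089470953043995447793185697994875462562959094937694162869368871411195692878297079997655611008421517074784201694605492482 = true :=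
  Pool.Agent.Work.NumIs.okB_of rfl rfl rfl rfl rfl rfl rfl rfl rfl rfl rfl rfl
    (Pool.Agent.Work.NumIs.runE_split2 rfl rfl rfl
      r_k3_p1
      r_k3_p2)

theorem r_l3 : NumLs.chkF e3 10000 0 0 10000 7 40 1200 3000 2000 10000 0 20000 0 7
    1230199316509431944920415854531827073218324955057537024744908572348537827110613021958629792423593941875764483057263087012153921991795584292958176255237802482961062010921660569626039512741110834758719703706426962199382121028535116704871011563323219261337983078502319959233137025687417928413714360058733848504073541738269989221313897914659386635609100160114586570735320396060224899544719616591311020170144946156216996140085765355499373870356870697090613104304058807077009633054986682641905868179553281427554547535673866731265018475588999683716219225552635643695249822000133301607016645626323134690139236896820332304823227444050680273155871192944316329473435946815212590065442542310348974499443504902365735758267432336232417229788538766765457390551189014434321660195309119870262574919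536182073489757942821987132351036288964675003529966764972595124957438857208405596264688993983133214677835936084702170967080347080281004388819455188756976983145034775726147045227595137200128823932404499987915797156282643267198961252045979640206106637855972766669712790624631116062397836056317842250362504341985835514540209355026312668967456748397886834227462305698442392420540175879326255927547995963473408314358692631617520993323979949777308736297620558040205535197084133271893045568923242620925357940440767266394053564700582007539421412675090349025086364243929161066306395990803344234688578125002123784217645097121654051585332951425808489774050331307146205042544418733713135942165566750954036778318378074303175078403393998908004427991728806120114946634054735802356729866686140647216373788899418787623933147860267778879906580195828910432837634600933821718143818542638649028191965851165864469540734170849052585807045920439149697671072789332185759759820656394259678463674472823786291594732095704777025770071514539404851123225947002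091754245582280664514590038722520395241596858639031008721144294144295532629841515518418268310490201845589934046890514491065726200341099429272372772176262087886094483723252560394303409727935528078094306259497554905543030022432265687013456468098422022493548978051690273670509797674952345582197076885502768156880353191326905692156900084830161566873860326235169440439430364933616532544760951862453242020461852246387053633035496093139926973759140688873833204332829940517217649150169812851189702741666148107194346806709153310576390678308088183116787275224394073249544615537230099958178594899603381390418131646416022935095551888816488245049253979867787429364568350438665914142442236363921662846110351483308879705912687120206515932364123188456044863873568333068971293767088715061311990442182577999060236899673101257585984562869313398572089061891635324669155368731121361256200818758183678279110632589170556399092092112161009135431749508201044643008793277050306907670568154625511046929025988318966399602112795389078074392154211934306636179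0189969763202186617016396015051072573741817917212531586075456717227637798209909594158178880891355651431607808135956585083392315724576883559533095343012422950563851119134222691115713938326049342916855180950827463707434702153305544344550888330772829710664107947550384329937655729829346808306963099671853825630692863424249008788381353096633464735023739084103939536846170218408537395265314165262553318694823351901634102030388185140458400855706175661087627911086180730619763663169949176248643027717449878311667814815548057084731300492281703006931251907335788579671332767822086881215002986678745785174132324080457665723805450293888601733958358310021634612355187804074401637065164612423119887304043122489650454871871476683632270487517160879693870493211724865536785022876765202714366653709970585910620548635332207260809159407968753062453242735029649471575871269627514698487944714863901747451504040890670927324787021066879889097258651097779979585142866832500434790626565293153265664566659621726699929850311600561461714431408986247419454854956442538073514582917238751491307032358176414051719011887740583892402635476750575005522623568687743061481230655053818741386463166722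 = true :=
  Pool.Agent.Work.NumIs.okB_of rfl rfl rfl rfl rfl rfl rfl rfl rfl rfl rfl rfl
    (Pool.Agent.Work.NumIs.runE_split2 rfl rfl rfl
      r_l3_p1
      (Pool.Agent.Work.NumIs.runE_split2 rfl rfl rfl
        r_l3_p2
        r_l3_p3))

end ZL

end ZD

end Pool.Agent.Work.MP_b30479_gtS.G2

end
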