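import Pool.Agent.Work.MP_b30479_gt.TBS.G2.RMon
import Pool.Agent.Work.MP_b30479_gt.TBS.G2.VDer
import Pool.Agent.Work.MP_b30479_gt.TBS.NumI.LnAff

/-!
# END 3, location of the inner variable: numerical constants and rows
-/

set_option deprecated.oldSectionVars true

namespace Pool.Agent.Work.MP_b30479_gtS.G2

open Finset VOL Filter Topology

namespace L3

open Pool.Agent.Work.NumIs Pool.Agent.Work.NumIs.E

/-! ### values of `lam` -/

/-- the lower bound of `lam` -/
def lamE (x : E) : E := add (mul x (sub (q 1 1) (log (mul (mul (q 2 1) pi) x))))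
  (mul (mul (sq pi) (mul (sq x) x)) (q 1 18))

theorem lam_of_chk {n d k N : ℕ} (h : chk [sub (lamE (q n d)) (q k N)] 1 [] = true)
    (h0 : 0 < (n : ℝ) / d) (h1 : (n : ℝ) / d ≤ 1 / 2) : (k : ℝ) / N ≤ lam ((n : ℝ) / d) := by
  have hp := pos_of_chk (chk_sound h (xs := []) List.Forall₂.nil)
  have := lam_ge h0 h1
  simp only [lamE, E.val] at hp
  push_cast at hp
  simp only [div_one] at hp
  refine le_trans (le_of_lt ?_) this
  have e : ((n : ℝ) / d) ^ 3 = ((n : ℝ) / d) ^ 2 * ((n : ℝ) / d) := by ring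
  rw [e]
  linarith only [hp]

theorem lam_20 : 1078 / 10000 ≤ lam (1 / 20) := by
  have h : chk [sub (lamE (q (1 : ℕ) 20)) (q (1078 : ℕ) 10000)] 1 [] = true := by decide +kernel
  have := lam_of_chk h (by norm_num) (by norm_num)
  push_cast at this
  exact this

theorem lam_10 : 1468 / 10000 ≤ lam (1 / 10) := by
  have h : chk [sub (lamE (q (1 : ℕ) 10)) (q (1468 : ℕ) 10000)] 1 [] = true := by decide +kernel
  have := lam_of_chk h (by norm_num) (by norm_num)
  push_cast at this
  exact this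

theorem lam_6 : 1615 / 10000 ≤ lam (1 / 6) := by
  have h : chk [sub (lamE (q (1 : ℕ) 6)) (q (1615 : ℕ) 10000)] 1 [] = true := by decide +kernel
  have := lam_of_chk h (by norm_num) (by norm_num)
  push_cast at this
  exact this

theorem lam_4 : 1456 / 10000 ≤ lam (1 / 4) := by
  have h : chk [sub (lamE (q (1 : ℕ) 4)) (q (1456 : ℕ) 10000)] 1 [] = true := by decide +kernel
  have := lam_of_chk h (by norm_num) (by norm_num)
  push_cast at this
  exact this

theorem lam_35 : 97 / 1000 ≤ lam (35 / 100) := by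
  have h : chk [sub (lamE (q (35 : ℕ) 100)) (q (97 : ℕ) 1000)] 1 [] = true := by decide +kernel
  have := lam_of_chk h (by norm_num) (by norm_num)
  push_cast at this
  exact this

/-! ### bounds for `LL` -/

theorem cosh_bd {y : ℝ} (hy : |y| ≤ 115 / 1000) :
    2 * Real.cosh (2 * Real.pi * y) ≤ 2 + 3948 / 100 * y ^ 2 * (1 + 1106 / 100 * y ^ 2) := by
  have hp1 := Real.pi_gt_d4
  have hp2 := Real.pi_lt_d4
  have hy2 : y ^ 2 ≤ (115 / 1000) ^ 2 := sq_le_sq' (by linarith only [hy, (abs_le.1 hy).1]) (abs_le.1 hy).2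
  have hy0 := sq_nonneg y
  set z : ℝ := 2 * Real.pi ^ 2 * y ^ 2 with hz
  have hpp : Real.pi ^ 2 ≤ 98697 / 10000 := by nlinarith only [hp1, hp2]
  have hz0 : 0 ≤ z := by positivity
  have hz1 : z ≤ 197394 / 10000 * y ^ 2 := by
    rw [hz]
    nlinarith only [hpp]
  have hz2 : z ≤ 262 / 1000 := by nlinarith only [hp1, hp2, hy2, hz1]
  have h1 := Real.cosh_le_exp_half_sq (2 * Real.pi * y)
  have e : (2 * Real.pi * y) ^ 2 / 2 = z := by rw [hz]; ring
  rw [e] at h1
  have h2 := Real.exp_bound' hz0 (by linarith only [hp1, hp2, hy2, hz1]) (n := 3) (by norm_num)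
  norm_num [Finset.sum_range_succ, Nat.factorial] at h2
  have h3 : Real.exp z ≤ 1 + z + 56 / 100 * z ^ 2 := by nlinarith only [h2, hy2, hz1, mul_nonneg hz0 (sq_nonneg z)]
  nlinarith

/-- the argument of the logarithm -/
theorem arg_le {u : ℂ} (hy : |u.im| ≤ 115 / 1000) :
    2 * Real.cosh (2 * Real.pi * u.im) - 2 * Real.cos (2 * Real.pi * u.re) ≤
      3948 / 100 * u.re ^ 2 + 3948 / 100 * u.im ^ 2 * (1 + 1106 / 100 * u.im ^ 2) := by
  have h1 := cosh_bd hy
  have h2 := Real.one_sub_sq_div_two_le_cos (x := 2 * Real.pi * u.re)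
  have hp1 := Real.pi_gt_d4
  have hp2 := Real.pi_lt_d4
  have hpp : Real.pi ^ 2 ≤ 98697 / 10000 := by nlinarith only [hp1, hp2]
  nlinarith only [h1, h2, hpp, sq_nonneg u.re]

/-- linear bound for the logarithm, base point `1/2` -/
theorem LL_le_half {u : ℂ} (hy : |u.im| ≤ 115 / 1000) (h0 : u.re ≠ 0 ∨ u.im ≠ 0)
    (hx : |u.re| < 1) :
    LL u ≤ -(8465 / 10000) + 3948 / 100 * u.re ^ 2 +
      3948 / 100 * u.im ^ 2 * (1 + 1106 / 100 * u.im ^ 2) := by
  have h1 := arg_le hy
  have hpi := Real.pi_pos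
  have hpos : 0 < 2 * Real.cosh (2 * Real.pi * u.im) - 2 * Real.cos (2 * Real.pi * u.re) := by
    rcases eq_or_ne u.im 0 with h2 | h2
    · have h3 : u.re ≠ 0 := by
        rcases h0 with h0 | h0
        · exact h0
        · exact absurd h2 h0
      rw [h2, mul_zero, Real.cosh_zero]
      have h4 : Real.cos (2 * Real.pi * u.re) = 1 - 2 * Real.sin (Real.pi * u.re) ^ 2 := by
        rw [mul_assoc, Real.cos_two_mul, Real.cos_sq']
        ring
      have h5 : Real.sin (Real.pi * u.re) ≠ 0 := by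
        have ha := abs_lt.1 hx
        rcases lt_or_gt_of_ne h3 with h6 | h6
        · have := Real.sin_neg_of_neg_of_neg_pi_lt (x := Real.pi * u.re)
            (mul_neg_of_pos_of_neg hpi h6) (by nlinarith only [hpi, ha])
          exact this.ne
        · exact (sin_pi_pos h6 ha.2).ne'
      rw [h4]
      have := pow_pos (abs_pos.2 h5) 2
      rw [sq_abs] at this
      linarith only [this]
    · have h3 : 1 < Real.cosh (2 * Real.pi * u.im) := by
        rw [Real.one_lt_cosh]
        exact mul_ne_zero (by positivity) h2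
      have h4 := Real.cos_le_one (2 * Real.pi * u.re)
      linarith only [h3, h4]
  rw [LL_eq']
  set z := 2 * Real.cosh (2 * Real.pi * u.im) - 2 * Real.cos (2 * Real.pi * u.re) with hz
  have h2 : Real.log z ≤ -Real.log 2 + (2 * z - 1) := by
    have h3 := Real.log_le_sub_one_of_pos (show 0 < 2 * z by linarith only [hpos])
    rw [Real.log_mul two_ne_zero hpos.ne'] at h3
    linarith only [h3]
  have h3 := Real.log_two_gt_d9
  linarith only [h1, h2, h3]

/-- linear bound for the logarithm, base point `1/5` -/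
theorem LL_le_fifth {u : ℂ} (hy : |u.im| ≤ 115 / 1000) (h0 : u.im ≠ 0) :
    LL u ≤ -(1304 / 1000) + 5 / 2 * (3948 / 100 * u.re ^ 2 +
      3948 / 100 * u.im ^ 2 * (1 + 1106 / 100 * u.im ^ 2)) := by
  have h1 := arg_le hy
  have hpi := Real.pi_pos
  have hpos : 0 < 2 * Real.cosh (2 * Real.pi * u.im) - 2 * Real.cos (2 * Real.pi * u.re) := by
    have h3 : 1 < Real.cosh (2 * Real.pi * u.im) := by
      rw [Real.one_lt_cosh]
      exact mul_ne_zero (by positivity) h0
    have h4 := Real.cos_le_one (2 * Real.pi * u.re)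
    linarith only [h3, h4]
  rw [LL_eq']
  set z := 2 * Real.cosh (2 * Real.pi * u.im) - 2 * Real.cos (2 * Real.pi * u.re) with hz
  have h5 : 1609 / 1000 ≤ Real.log 5 := by
    have h : chk [sub (log (q 5 1)) (q 1609 1000)] 1 [] = true := by decide +kernel
    have hp := pos_of_chk (chk_sound h (xs := []) List.Forall₂.nil)
    simp only [E.val] at hp
    norm_num at hp
    linarith only [hp]
  have h2 : Real.log z ≤ -Real.log 5 + (5 * z - 1) := by
    have h3 := Real.log_le_sub_one_of_pos (show 0 < 5 * z by linarith only [hpos])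
    rw [Real.log_mul (by norm_num) hpos.ne'] at h3
    linarith only [h3]
  linarith only [h1, h5, h2]

/-- quadratic bound for `|Re u| ≤ 1/6` -/
theorem LL_le_quad {u : ℂ} (hy : |u.im| ≤ 115 / 1000) (h0 : u.im ≠ 0) (hx : |u.re| ≤ 1 / 6) :
    LL u ≤ 1974 / 100 * u.im ^ 2 * (1 + 1106 / 100 * u.im ^ 2) := by
  have h1 := cosh_bd hy
  have hpi := Real.pi_pos
  have hc : 1 / 2 ≤ Real.cos (2 * Real.pi * u.re) := by
    rw [← Real.cos_pi_div_three, ← Real.cos_abs (2 * Real.pi * u.re)]
    apply Real.cos_le_cos_of_nonneg_of_le_pi (abs_nonneg _) (by linarith only [hpi])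
    rw [abs_mul, abs_of_pos (by positivity : 0 < 2 * Real.pi)]
    nlinarith only [hx, hpi]
  have hpos : 0 < 2 * Real.cosh (2 * Real.pi * u.im) - 2 * Real.cos (2 * Real.pi * u.re) := by
    have h3 : 1 < Real.cosh (2 * Real.pi * u.im) := by
      rw [Real.one_lt_cosh]
      exact mul_ne_zero (by positivity) h0
    have h4 := Real.cos_le_one (2 * Real.pi * u.re)
    linarith only [h3, h4]
  rw [LL_eq']
  have h3 := Real.log_le_sub_one_of_pos hpos
  linarith only [h1, hc, h3]

/-- lower bound by the value on the real axis -/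
theorem LL_ge_real {x : ℝ} {u : ℂ} (h0 : 0 < x) (h1 : x ≤ u.re) (h2 : x + u.re ≤ 1) :
    Real.log (2 * Real.sin (Real.pi * x)) ≤ LL u := by
  have hpi := Real.pi_pos
  have hx1 : x ≤ 1 / 2 := by linarith only [h1, h2]
  have hs : 0 < Real.sin (Real.pi * x) := sin_pi_pos h0 (by linarith only [h0, h1, h2])
  have key : Real.sin (Real.pi * x) ≤ Real.sin (Real.pi * u.re) := by
    rw [← sub_nonneg, Real.sin_sub_sin]
    have a1 : 0 ≤ Real.sin ((Real.pi * u.re - Real.pi * x) / 2) :=
      Real.sin_nonneg_of_nonneg_of_le_pi (by nlinarith only [h1, hpi]) (by nlinarith only [hpi, h0, h2])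
    have a2 : 0 ≤ Real.cos ((Real.pi * u.re + Real.pi * x) / 2) :=
      Real.cos_nonneg_of_mem_Icc ⟨by nlinarith only [hpi, h0, h1], by nlinarith only [h2, hpi]⟩
    positivity
  have e : (2 * Real.sin (Real.pi * x)) ^ 2 = 2 - 2 * Real.cos (2 * Real.pi * x) := by
    rw [mul_assoc 2 Real.pi, Real.cos_two_mul, Real.cos_sq']
    ring
  have e' : (2 * Real.sin (Real.pi * u.re)) ^ 2 = 2 - 2 * Real.cos (2 * Real.pi * u.re) := by
    rw [mul_assoc 2 Real.pi, Real.cos_two_mul, Real.cos_sq']
    ring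
  have h3 : Real.log (2 * Real.sin (Real.pi * x)) =
      Real.log ((2 * Real.sin (Real.pi * x)) ^ 2) / 2 := by
    rw [Real.log_pow]
    push_cast
    ring
  rw [h3, LL_eq']
  apply div_le_div_of_nonneg_right _ (by norm_num)
  apply Real.log_le_log (by positivity)
  have h4 := Real.one_le_cosh (2 * Real.pi * u.im)
  have h5 : (2 * Real.sin (Real.pi * x)) ^ 2 ≤ (2 * Real.sin (Real.pi * u.re)) ^ 2 :=
    pow_le_pow_left₀ (by linarith only [hs]) (by linarith only [key]) 2
  linarith only [e', h4, h5]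

theorem log_22 : 241 / 1000 ≤ Real.log (2 * Real.sin (Real.pi * (22 / 100))) := by
  have h : chk [sub (log (mul (q 2 1) (sinPi (q 22 100)))) (q 241 1000)] 1 [] = true := by
    decide +kernel
  have hp := pos_of_chk (chk_sound h (xs := []) List.Forall₂.nil)
  simp only [E.val] at hp
  push_cast at hp
  simp only [div_one] at hp
  linarith only [hp]

end L3

end Pool.Agent.Work.MP_b30479_gtS.G2
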