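import Pool.Agent.Work.MP_b30479_gt.TBS.G2.MPSide
import Pool.Agent.Work.MP_b30479_gt.TBS.G2.ML3n
import Pool.Agent.Work.MP_b30479_gt.TBS.G2.RMon

section

/-!
# END 3: a 3-run at the end of a word (one hinge, one inner variable), level part

For `threeL` at the right end (`x 2 = 0`) and `threeR` at the left end (`x 0 = 0`).
-/

namespace Pool.Agent.Work.MP_b30479_gtS.G2

open Finset VOL Filter Topology

/-! ### monotonicity of `LL` on horizontal lines -/

/-- `LL` on a horizontal line depends on `sin² π x` only -/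
theorem LL_lt_of_sin {u u' : ℂ} (him : u.im = u'.im) (h0 : 0 < Real.sin (Real.pi * u.re) ^ 2)
    (h : Real.sin (Real.pi * u.re) ^ 2 < Real.sin (Real.pi * u'.re) ^ 2) : LL u < LL u' := by
  rw [LL_eq', LL_eq', him]
  have e : ∀ x : ℝ, 2 * Real.cos (2 * Real.pi * x) = 2 - 4 * Real.sin (Real.pi * x) ^ 2 := by
    intro x
    rw [show 2 * Real.pi * x = 2 * (Real.pi * x) by ring, Real.cos_two_mul, Real.cos_sq']
    ring
  rw [e, e]
  have hc := Real.one_le_cosh (2 * Real.pi * u'.im)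
  have := Real.log_lt_log (show 0 < 2 * Real.cosh (2 * Real.pi * u'.im) -
    (2 - 4 * Real.sin (Real.pi * u.re) ^ 2) by linarith only [h0, hc])
    (show 2 * Real.cosh (2 * Real.pi * u'.im) - (2 - 4 * Real.sin (Real.pi * u.re) ^ 2) <
      2 * Real.cosh (2 * Real.pi * u'.im) - (2 - 4 * Real.sin (Real.pi * u'.re) ^ 2) by linarith only [h])
  linarith only [this]

/-- `LL` is strictly increasing on `(0, 1/2]`; beyond, up to `1 - x` -/
theorem LL_lt {u u' : ℂ} (him : u.im = u'.im) (h0 : 0 < u.re) (h : u.re < u'.re)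
    (h1 : u.re + u'.re < 1) : LL u < LL u' := by
  have hpi := Real.pi_pos
  have hs0 : 0 < Real.sin (Real.pi * u.re) :=
    Real.sin_pos_of_pos_of_lt_pi (by positivity) (by nlinarith only [hpi, h, h1])
  refine LL_lt_of_sin him (by positivity) ?_
  have key : Real.sin (Real.pi * u.re) < Real.sin (Real.pi * u'.re) := by
    rw [← sub_pos, Real.sin_sub_sin]
    have a1 : 0 < Real.sin ((Real.pi * u'.re - Real.pi * u.re) / 2) :=
      Real.sin_pos_of_pos_of_lt_pi (by nlinarith only [h, hpi]) (by nlinarith only [hpi, h0, h1])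
    have a2 : 0 < Real.cos ((Real.pi * u'.re + Real.pi * u.re) / 2) :=
      Real.cos_pos_of_mem_Ioo ⟨by nlinarith only [hpi, h0, h], by nlinarith only [h1, hpi]⟩
    positivity
  exact pow_lt_pow_left₀ key hs0.le two_ne_zero

/-- injectivity of `LL` on horizontal segments -/
theorem LL_inj {u u' : ℂ} (him : u.im = u'.im) (h0 : 0 < u.re) (h1 : u.re ≤ 1 / 2)
    (h0' : 0 < u'.re) (h1' : u'.re ≤ 1 / 2) (h : LL u = LL u') : u = u' := by
  apply Complex.ext _ him
  rcases lt_trichotomy u.re u'.re with h2 | h2 | h2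
  · exact absurd h (LL_lt him h0 h2 (by linarith only [h1', h2])).ne
  · exact h2
  · exact absurd h.symm (LL_lt him.symm h0' h2 (by linarith only [h1, h2])).ne

/-! ### the inner variable -/

section
variable (b : ℤ) (l r : Bool) {x y : Fin 3 → ℂ}

theorem end3L_mid (h2 : x 2 = 0) : (ldat .threeL b l r).d1 (lx x) (.inl 1) =
    -(sgb b * Real.pi * ((x 0).im + (x 1).im)) - LL (x 1 - x 0) := by
  rw [d1_threeL_one, h2]
  simp only [Complex.zero_im, add_zero]
  ring

theorem end3R_mid (h0 : x 0 = 0) : (ldat .threeR b l r).d1 (lx x) (.inl 1) =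
    -(sgb b * Real.pi * ((x 2).im + (x 1).im)) - LL (x 1 - x 2) := by
  rw [d1_threeR_one, h0]
  simp only [Complex.zero_im, zero_add]
  ring

theorem end3L_mid2 (h2 : x 2 = 0) : (ldat .threeL b l r).d2 (lx x) (.inl 1) =
    -(sgb b * Real.pi * ((x 0).re + (x 1).re - 1 / 2)) - YY (x 1 - x 0) := by
  rw [d2_threeL_one, h2]
  simp only [Complex.zero_re, add_zero]
  ring

theorem end3R_mid2 (h0 : x 0 = 0) : (ldat .threeR b l r).d2 (lx x) (.inl 1) =
    -(sgb b * Real.pi * ((x 2).re + (x 1).re - 1 / 2)) - YY (x 1 - x 2) := by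
  rw [d2_threeR_one, h0]
  simp only [Complex.zero_re, zero_add]
  ring

/-! ### the side of the hinge when the inner variable is at a level critical point -/

/-- the side of the hinge, inner variable at its level critical point -/
theorem end3L_side (h2 : x 2 = 0) (hm : (ldat .threeL b true r).d1 (lx x) (.inl 1) = 0) :
    (ldat .threeL b true r).d1 (lx x) (.inl 0) =
      -(sgb b * Real.pi * ((x 0).im + 2 * (x 1).im)) - LL (x 0) := by
  rw [end3L_mid b true r h2] at hm
  rw [d1_threeL_zero]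
  linarith only [hm]

theorem end3R_side (h0 : x 0 = 0) (hm : (ldat .threeR b l true).d1 (lx x) (.inl 1) = 0) :
    (ldat .threeR b l true).d1 (lx x) (.inl 2) =
      -(sgb b * Real.pi * ((x 2).im + 2 * (x 1).im)) - LL (x 2) := by
  rw [end3R_mid b l true h0] at hm
  rw [d1_threeR_two]
  linarith only [hm]

/-- **Push-back of the side, level part**, to the right. -/
theorem end3L_push (h2 : x 2 = 0) (h2' : y 2 = 0)
    (hm : (ldat .threeL b true r).d1 (lx x) (.inl 1) = 0)
    (hm' : (ldat .threeL b true r).d1 (lx y) (.inl 1) = 0)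
    (h0i : (x 0).im = (y 0).im) (h1i : (x 1).im = (y 1).im)
    (hx0 : 0 < (x 0).re) (hxy : (x 0).re < (y 0).re) (h1 : (x 0).re + (y 0).re < 1) :
    (ldat .threeL b true r).d1 (lx y) (.inl 0) < (ldat .threeL b true r).d1 (lx x) (.inl 0) := by
  rw [end3L_side b r h2 hm, end3L_side b r h2' hm', h0i, h1i]
  linarith only [h0i, hx0, hxy, h1, LL_lt h0i hx0 hxy h1]

theorem end3R_push (h0 : x 0 = 0) (h0' : y 0 = 0)
    (hm : (ldat .threeR b l true).d1 (lx x) (.inl 1) = 0)
    (hm' : (ldat .threeR b l true).d1 (lx y) (.inl 1) = 0)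
    (h2i : (x 2).im = (y 2).im) (h1i : (x 1).im = (y 1).im)
    (hx0 : 0 < (x 2).re) (hxy : (x 2).re < (y 2).re) (h1 : (x 2).re + (y 2).re < 1) :
    (ldat .threeR b l true).d1 (lx y) (.inl 2) < (ldat .threeR b l true).d1 (lx x) (.inl 2) := by
  rw [end3R_side b l h0 hm, end3R_side b l h0' hm', h2i, h1i]
  linarith only [h2i, hx0, hxy, h1, LL_lt h2i hx0 hxy h1]

/-- the inner variable is determined by the hinge (level part) -/
theorem end3L_inner (h2 : x 2 = 0) (h2' : y 2 = 0) (h0 : x 0 = y 0) (h1i : (x 1).im = (y 1).im)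
    (hm : (ldat .threeL b l r).d1 (lx x) (.inl 1) = 0)
    (hm' : (ldat .threeL b l r).d1 (lx y) (.inl 1) = 0)
    (hx : 0 < (x 1 - x 0).re) (hx' : (x 1 - x 0).re ≤ 1 / 2)
    (hy : 0 < (y 1 - y 0).re) (hy' : (y 1 - y 0).re ≤ 1 / 2) : x 1 = y 1 := by
  rw [end3L_mid b l r h2] at hm
  rw [end3L_mid b l r h2'] at hm'
  rw [h0, h1i] at hm
  have e : LL (x 1 - x 0) = LL (y 1 - y 0) := by rw [h0]; linarith only [hm, hm']
  have := LL_inj (by simp [h0, h1i]) hx hx' hy hy' e
  rw [h0] at this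
  exact sub_left_injective this

theorem end3R_inner (h2 : x 0 = 0) (h2' : y 0 = 0) (h0 : x 2 = y 2) (h1i : (x 1).im = (y 1).im)
    (hm : (ldat .threeR b l r).d1 (lx x) (.inl 1) = 0)
    (hm' : (ldat .threeR b l r).d1 (lx y) (.inl 1) = 0)
    (hx : 0 < (x 1 - x 2).re) (hx' : (x 1 - x 2).re ≤ 1 / 2)
    (hy : 0 < (y 1 - y 2).re) (hy' : (y 1 - y 2).re ≤ 1 / 2) : x 1 = y 1 := by
  rw [end3R_mid b l r h2] at hm
  rw [end3R_mid b l r h2'] at hm'
  rw [h0, h1i] at hm
  have e : LL (x 1 - x 2) = LL (y 1 - y 2) := by rw [h0]; linarith only [hm, hm']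
  have := LL_inj (by simp [h0, h1i]) hx hx' hy hy' e
  rw [h0] at this
  exact sub_left_injective this

end

end Pool.Agent.Work.MP_b30479_gtS.G2

end

section

/-!
# END 3, location of the inner variable: tools
-/

namespace Pool.Agent.Work.MP_b30479_gtS.G2

open Finset VOL Filter Topology

namespace L3

/-! ### piecewise linear lower bounds of `lam` -/

theorem lam_a {w : ℝ} (h0 : 0 ≤ w) (h1 : w ≤ 1 / 20) : 2156 / 1000 * w ≤ lam w := by
  have := lam_chord (p := 0) (q := 1 / 20) (x := w) (A := 0) (B := 1078 / 10000) le_rfl (by norm_num)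
    (by norm_num) h0 h1 lam_zero.ge lam_20
  norm_num at this
  linarith only [this]

theorem lam_b {w : ℝ} (h0 : 1 / 20 ≤ w) (h1 : w ≤ 1 / 10) :
    1078 / 10000 + 78 / 100 * (w - 1 / 20) ≤ lam w := by
  have := lam_chord (p := 1 / 20) (q := 1 / 10) (x := w) (by norm_num) (by norm_num)
    (by norm_num) h0 h1 lam_20 lam_10
  norm_num at this
  linarith only [this]

theorem lam_c {w : ℝ} (h0 : 1 / 10 ≤ w) (h1 : w ≤ 1 / 6) :
    1468 / 10000 + 22 / 100 * (w - 1 / 10) ≤ lam w := by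
  have := lam_chord (p := 1 / 10) (q := 1 / 6) (x := w) (by norm_num) (by norm_num)
    (by norm_num) h0 h1 lam_10 lam_6
  norm_num at this
  linarith only [h0, this]

theorem lam_d {w : ℝ} (h0 : 1 / 6 ≤ w) (h1 : w ≤ 1 / 4) :
    1615 / 10000 - 1908 / 10000 * (w - 1 / 6) ≤ lam w := by
  have := lam_chord (p := 1 / 6) (q := 1 / 4) (x := w) (by norm_num) (by norm_num)
    (by norm_num) h0 h1 lam_6 lam_4
  norm_num at this
  linarith only [this]

theorem lam_e {w : ℝ} (h0 : 1 / 4 ≤ w) (h1 : w ≤ 35 / 100) :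
    1456 / 10000 - 486 / 1000 * (w - 1 / 4) ≤ lam w := by
  have := lam_chord (p := 1 / 4) (q := 35 / 100) (x := w) (by norm_num) (by norm_num)
    (by norm_num) h0 h1 lam_4 lam_35
  norm_num at this
  linarith only [this]

/-! ### values -/

/-- comparison with the point `a + 1/6` on the level -/
theorem gap {v : ℂ} {h μ a t : ℝ} (ha : v.re = a) (ht : v.im = t) (H : MaxM v h μ)
    (h0 : 0 ≤ a) (h1 : a ≤ 4 / 10) (hw : μ ≤ a) :
    lam (1 / 6) + lam (a - μ) ≤ Real.pi * (t * (a - μ + 1 / 6) + h * (2 * a - 1 / 3) -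
      (mpt h μ).im * (a + μ - 1 / 2) + |(mpt h μ).im - t|) := by
  have e1 := H.mx (a + 1 / 6) (by linarith only [h0]) (by linarith only [h1])
  have e2 := Wm_le (v := v) (m := mpt h μ) (by rw [mpt_re, ha]; linarith only [h1, H, H.m0])
  have e3 := Wm_ge (v := v) (m := mpt h (a + 1 / 6)) (by rw [mpt_re, ha]; linarith only [])
  rw [mpt_re, ha, ht] at e2
  rw [mpt_re, ha, ht, mpt_mid (by linarith only [h0]) (by linarith only [h1]), add_sub_cancel_left] at e3
  nlinarith only [e1, e2, e3]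

/-! ### reflection -/

theorem Lr_lt {ρ w : ℝ} (hρ : 0 ≤ ρ) (h0 : 0 < w) (h1 : w ≤ 1 / 2) :
    DT.Lr ρ w < w * DT.el ρ w := by
  have hc : Continuous (DT.Lr ρ) := by
    unfold DT.Lr
    exact intervalIntegral.continuous_primitive (fun a b => DT.el_intble ρ a b) 0
  have hd : ∀ x ∈ Set.Ioo 0 w, HasDerivAt (DT.Lr ρ) (DT.el ρ x) x := by
    intro x hx
    rcases hρ.lt_or_eq with h | h
    · exact DT.hasDerivAt_Lr h
    · rw [← h]
      exact DT.hasDerivAt_Lr_zero (sin_pi_pos hx.1 (by linarith only [h0, h1, hx, hx.2])).ne'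
  obtain ⟨c, hc1, hc2⟩ := exists_hasDerivAt_eq_slope (DT.Lr ρ) (DT.el ρ) h0 hc.continuousOn hd
  have h2 : DT.el ρ c < DT.el ρ w := by
    have := LL_lt (u := (c : ℂ) + (ρ : ℂ) * Complex.I) (u' := (w : ℂ) + (ρ : ℂ) * Complex.I)
      (by simp) (by simpa using hc1.1) (by simpa using hc1.2) (by simp; linarith only [h1, hc1, hc1.2])
    unfold LL at this
    simpa [abs_of_nonneg hρ] using this
  rw [DT.Lr_zero_right, sub_zero, sub_zero] at hc2
  rw [hc2] at h2
  rw [div_lt_iff₀ h0] at h2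
  linarith only [h2]

/-- a maximiser on the level to the left of the hinge is not worse than its reflection -/
theorem reflect {v : ℂ} {h μ a t : ℝ} (ha : v.re = a) (ht : v.im = t) (H : MaxM v h μ)
    (h0 : 1 / 10 ≤ μ) (hw : μ < a) (h1 : 2 * a - μ ≤ 57 / 100) :
    (a - μ) * -(Real.pi * (t + h)) ≤ DT.Lr |h - t| (a - μ) := by
  have e1 := H.mx (2 * a - μ) (by linarith only [h0, hw, h1]) (by linarith only [h0, hw, h1])
  have i1 : (mpt h (2 * a - μ)).im = h := mpt_mid (by linarith only [h0, hw]) h1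
  have i2 : (mpt h μ).im = h := mpt_mid h0 (by linarith only [hw, h1])
  rw [Wm_val, Wm_val, mpt_re, mpt_re, i1, i2, ha, ht] at e1
  unfold UU at e1
  rw [Complex.sub_im, Complex.sub_im, Complex.sub_re, Complex.sub_re, mpt_re, mpt_re, i1, i2, ha,
    ht, show μ - a = -(a - μ) by ring, DT.Lr_neg, show 2 * a - μ - a = a - μ by ring] at e1
  linarith only [e1]

theorem LL_left {v : ℂ} {h μ a t y : ℝ} (ha : v.re = a) (ht : v.im = t) (hy : (mpt h μ).im = y) :
    LL (mpt h μ - v) = DT.el |y - t| (a - μ) := by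
  unfold LL
  rw [Complex.sub_im, Complex.sub_re, mpt_re, hy, ha, ht, ← DT.el_neg]
  congr 1
  ring

/-- the reflection excludes critical points on the level to the left of the hinge -/
theorem reflect_false {v : ℂ} {h μ a t : ℝ} (ha : v.re = a) (ht : v.im = t) (H : MaxM v h μ)
    (h0 : 1 / 10 ≤ μ) (hw : μ < a) (hw' : a - μ ≤ 1 / 2) (h1 : 2 * a - μ ≤ 57 / 100)
    (hl : LL (mpt h μ - v) ≤ -(Real.pi * (t + h))) : False := by
  have e1 := reflect ha ht H h0 hw h1
  rw [LL_left ha ht (mpt_mid h0 (by linarith only [hw, h1]))] at hl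
  have e2 := Lr_lt (abs_nonneg (h - t)) (sub_pos.2 hw) hw'
  have e3 := mul_le_mul_of_nonneg_left hl (sub_pos.2 hw).le
  linarith only [e1, e2, e3]

/-- an upper bound for `Lr ρ` -/
theorem Lr_le_lin {ρ w : ℝ} (hρ : 0 < ρ) (h0 : 0 ≤ w) :
    DT.Lr ρ w ≤ ((2 * Real.cosh (2 * Real.pi * ρ) - 1) * w - Real.sin (2 * Real.pi * w) / Real.pi) / 2 := by
  have hpi := Real.pi_pos
  have hd : ∀ x, HasDerivAt (fun w => ((2 * Real.cosh (2 * Real.pi * ρ) - 1) * w -
      Real.sin (2 * Real.pi * w) / Real.pi) / 2 - DT.Lr ρ w)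
      ((2 * Real.cosh (2 * Real.pi * ρ) - 1 - 2 * Real.cos (2 * Real.pi * x)) / 2 - DT.el ρ x) x := by
    intro x
    have d1 := (hasDerivAt_id x).const_mul (2 * Real.cosh (2 * Real.pi * ρ) - 1)
    have d2 : HasDerivAt (fun w : ℝ => 2 * Real.pi * w) (2 * Real.pi) x := by
      simpa using (hasDerivAt_id x).const_mul (2 * Real.pi)
    have d3 := ((d1.sub (d2.sin.div_const Real.pi)).div_const 2).sub (DT.hasDerivAt_Lr (x := x) hρ)
    refine d3.congr_deriv ?_
    field_simp
  have hm : MonotoneOn (fun w => ((2 * Real.cosh (2 * Real.pi * ρ) - 1) * w -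
      Real.sin (2 * Real.pi * w) / Real.pi) / 2 - DT.Lr ρ w) (Set.Ici 0) := by
    apply monotoneOn_of_deriv_nonneg (convex_Ici _)
    · exact fun x _ => (hd x).continuousAt.continuousWithinAt
    · exact fun x _ => (hd x).differentiableAt.differentiableWithinAt
    · intro x _
      rw [(hd x).deriv]
      unfold DT.el
      have h4 := DT.LrDer.cosh_gt_cos (v := x) hρ
      have h3 := Real.log_le_sub_one_of_pos (show 0 < 2 * Real.cosh (2 * Real.pi * ρ) -
        2 * Real.cos (2 * Real.pi * x) by linarith only [h4])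
      linarith only [h3]
  have h2 := hm (a := 0) (b := w) (Set.mem_Ici.2 le_rfl) (Set.mem_Ici.2 h0) h0
  simp only [mul_zero, Real.sin_zero, zero_div, sub_zero, DT.Lr_zero_right] at h2
  linarith only [h2]

theorem Lr_neg_six {ρ w : ℝ} (hρ : 0 < ρ) (hρ' : ρ ≤ 1139 / 10000) (h0 : 0 < w) (h1 : w ≤ 1 / 6) :
    DT.Lr ρ w < 0 := by
  have hp1 := Real.pi_gt_d4
  have hp2 := Real.pi_lt_d4
  have hpi := Real.pi_pos
  have e1 := Lr_le_lin hρ h0.le
  have e2 := cosh_bd (y := ρ) (by rw [abs_of_pos hρ]; linarith only [hρ', hp1, hp2])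
  have e3 := Real.sin_gt_sub_cube (x := 2 * Real.pi * w) (by positivity)
  have hr2 : ρ ^ 2 ≤ (1139 / 10000) ^ 2 := pow_le_pow_left₀ hρ.le hρ' 2
  have e4 : 2 * Real.cosh (2 * Real.pi * ρ) - 1 ≤ 1588 / 1000 := by nlinarith only [hp1, hp2, e2, hr2, sq_nonneg ρ]
  have hpp : Real.pi ^ 2 ≤ 98697 / 10000 := by nlinarith only [hρ, hp2, hρ', hp1]
  have hw2 : w ^ 2 ≤ 1 / 36 := by nlinarith only [h1, hρ, hρ', h0]
  have e5 : 163 / 100 * w < Real.sin (2 * Real.pi * w) / Real.pi := by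
    rw [lt_div_iff₀ hpi]
    refine lt_of_le_of_lt ?_ e3
    have : (2 * Real.pi * w) ^ 3 / 6 = Real.pi * w * (4 / 3 * Real.pi ^ 2 * w ^ 2) := by ring
    rw [this]
    have h6 : 4 / 3 * Real.pi ^ 2 * w ^ 2 ≤ 37 / 100 := by nlinarith only [hp1, hp2, hw2, hpp, sq_nonneg w]
    have h7 : 0 < Real.pi * w := by positivity
    nlinarith only [h6, h7, mul_le_mul_of_nonneg_left h6 h7.le]
  nlinarith only [e1, hρ, e5, hρ', h0, hp1, hp2, e4]

end L3

end Pool.Agent.Work.MP_b30479_gtS.G2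

end
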