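import Pool.Agent.Work.MP_b30479_gt.TBS.G2.ML3d
import Pool.Agent.Work.MP_b30479_gt.TBS.G2.MEnd3
import Pool.Agent.Work.MP_b30479_gt.TBS.G2.MPWall

section

/-!
# END 3, location of the inner variable: heights of the hinge `≤ 0`
-/

namespace Pool.Agent.Work.MP_b30479_gtS.G2

open Finset VOL Filter Topology

namespace L3

/-- the conclusion of the location: a critical point on the level, at distance in `(0, 1/2)` -/
def LocM (v : ℂ) (h μ : ℝ) : Prop :=
  1 / 10 < μ ∧ μ < 57 / 100 ∧ 0 < μ - v.re ∧ μ - v.re < 1 / 2 ∧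
    LL (mpt h μ - v) = -(Real.pi * (v.im + h))

theorem sin_ne_of_im {u : ℂ} (h : u.im ≠ 0) : Complex.sin (Real.pi * u) ≠ 0 := by
  intro hc
  rw [Complex.sin_eq_zero_iff] at hc
  obtain ⟨k, hk⟩ := hc
  have h1 := congrArg Complex.im hk
  have h2 : Real.pi * u.im = 0 := by
    have e : ((k : ℂ) * (Real.pi : ℂ)).im = 0 := by simp
    have e' : ((Real.pi : ℂ) * u).im = Real.pi * u.im := by simp
    rw [← e', h1, e]
  exact h ((mul_eq_zero.1 h2).resolve_left Real.pi_ne_zero)

theorem sin_ne_of_re {u : ℂ} (h : 0 < |u.re|) (h' : |u.re| < 1) : Complex.sin (Real.pi * u) ≠ 0 := by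
  intro hc
  rw [Complex.sin_eq_zero_iff] at hc
  obtain ⟨k, hk⟩ := hc
  have h1 := congrArg Complex.re hk
  have hpi := Real.pi_pos
  have h2 : (k : ℝ) = u.re := by
    simp at h1
    have : Real.pi * u.re = Real.pi * k := by linarith only [h1]
    exact (mul_left_cancel₀ hpi.ne' this).symm
  rw [← h2, ← Int.cast_abs] at h h'
  have h3 : (0 : ℤ) < |k| := by exact_mod_cast h
  have h4 : |k| < (1 : ℤ) := by exact_mod_cast h'
  omega

section
variable {v : ℂ} {h μ a t : ℝ} (ha : v.re = a) (ht : v.im = t) (H : MaxM v h μ)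
  (a0 : 0 < a) (a1 : a ≤ 35 / 100) (t0 : -(78 / 1000) ≤ t) (t1 : t ≤ 0)
  (h0 : 0 ≤ h) (h1 : h ≤ 655 / 10000 + 38 / 100 * t) (hth : -(75 / 1000) ≤ t + h)
  (ta : -(56 / 100 * a) ≤ t)

include ha ht H a0 a1 t0 t1 h0 h1

/-- the hinge is not the maximiser, no height difference zero to the left -/
theorem N_zero (hw : μ ≤ a) (hy : (mpt h μ).im = t) (hm : μ ≤ 1 / 10 ∨ 1 / 10 ≤ μ ∧ μ ≤ 57 / 100) :
    False := by
  have hp1 := Real.pi_gt_d4
  have hp2 := Real.pi_lt_d4
  have e := gap ha ht H a0.le (by linarith only [a1, hp1, hp2]) hw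
  have l6 := lam_6
  have hi : 0 ≤ (mpt h μ).im := by
    rcases hm with hm | ⟨hm, hm'⟩
    · rw [mpt_left H.m0 hm]
      have := H.m0
      positivity
    · rw [mpt_mid hm hm']
      exact h0
  have ht0 : t = 0 := by linarith only [hy, hi, t1]
  rw [hy, ht0] at e
  simp only [zero_mul, sub_self, abs_zero, add_zero, zero_add] at e
  have hl : 0 ≤ lam (a - μ) := by
    have hm0 := H.m0
    rcases le_total (a - μ) (1 / 20) with c1 | c1
    · have := lam_a (by linarith only [hw]) c1
      nlinarith only [hw, this]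
    rcases le_total (a - μ) (1 / 10) with c2 | c2
    · have := lam_b c1 c2
      linarith only [hp1, hp2, c1, this]
    rcases le_total (a - μ) (1 / 6) with c3 | c3
    · have := lam_c c2 c3
      linarith only [hp1, hp2, c2, this]
    rcases le_total (a - μ) (1 / 4) with c4 | c4
    · have := lam_d c3 c4
      linarith only [a1, hp1, hp2, hm0, this]
    · have := lam_e c4 (by linarith only [a1, hm0])
      linarith only [a1, hp1, hp2, hm0, this]
  have h2 : h * (2 * a - 1 / 3) ≤ 655 / 10000 * (37 / 100) := by nlinarith only [t1, h1, a1, h0]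
  nlinarith only [a0, a1, t1, h1, hp2, l6, e, hl, h0, hp1, h2]

/-- left ramp, the hinge to the right at distance `≤ 1/6` -/
theorem N_b1 (hw : μ ≤ a) (hw' : a - μ ≤ 1 / 6) (hm : μ < 1 / 10) : False := by
  have hp1 := Real.pi_gt_d4
  have hp2 := Real.pi_lt_d4
  have hpi := Real.pi_pos
  have m0 := H.m0
  have hi := mpt_left (h := h) m0 hm.le
  by_cases hy : (mpt h μ).im = t
  · exact N_zero ha ht H a0 a1 t0 t1 h0 h1 hw hy (Or.inl hm.le)
  have hy' : 0 < (mpt h μ - v).im := by
    rw [Complex.sub_im, ht]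
    have : 0 ≤ (mpt h μ).im := by rw [hi]; positivity
    rcases lt_or_gt_of_ne hy with c | c <;> linarith only [t1, this, c]
  have f := H.ramp_left hm (Or.inl hy'.ne')
  rw [YY_pos hy'] at f
  have hw2 : (mpt h μ - v).re = -(a - μ) := by
    rw [Complex.sub_re, mpt_re, ha]
    ring
  have tr1 : DT.Tr (mpt h μ - v).im (mpt h μ - v).re ≤ -(Real.pi * (a - μ)) := by
    have := pi_mul_le_Tr (x := a - μ) (s := (mpt h μ - v).im) (by linarith only [hw]) (by linarith only [hw', hp1, hp2]) hy'
    have e : DT.Tr (mpt h μ - v).im (mpt h μ - v).re = -DT.Tr (mpt h μ - v).im (a - μ) := by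
      rw [hw2]
      have e1 := DT.Tr_one_sub hy' (1 + (a - μ))
      have e2 := Tr_add_one (mpt h μ - v).im (a - μ)
      rw [show 1 - (1 + (a - μ)) = -(a - μ) by ring] at e1
      rw [show a - μ + 1 = 1 + (a - μ) by ring] at e2
      linarith only [e1, e2]
    linarith only [this, e]
  have yb : (mpt h μ - v).im = 10 * h * μ - t := by rw [Complex.sub_im, hi, ht]
  have hyb : (mpt h μ - v).im ≤ 1139 / 10000 := by
    rw [yb]
    nlinarith only [t0, h1, hw', a0, hm, hp1, hp2, a1, h0]
  have hL := LL_le_quad (u := mpt h μ - v) (by rw [abs_of_pos hy']; linarith only [hp1, hp2, hyb]) hy'.ne'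
    (by rw [hw2, abs_neg, abs_of_nonneg (by linarith only [hw])]; exact hw')
  have hL2 : LL (mpt h μ - v) ≤ 26 / 10 * (10 * h * μ - t) := by
    refine hL.trans ?_
    rw [← yb]
    have y2 : (mpt h μ - v).im ^ 2 ≤ (1139 / 10000) ^ 2 := pow_le_pow_left₀ hy'.le hyb 2
    have : 1974 / 100 * (mpt h μ - v).im * (1 + 1106 / 100 * (mpt h μ - v).im ^ 2) ≤ 26 / 10 := by
      nlinarith only [hp1, hp2, hyb, y2]
    nlinarith only [this, hy', mul_le_mul_of_nonneg_left this hy'.le]
  rw [ha, ht] at f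
  have f2 : 10 * h * (DT.Tr (mpt h μ - v).im (mpt h μ - v).re - Real.pi / 2) ≤
      10 * h * (-(Real.pi * (a - μ)) - Real.pi / 2) :=
    mul_le_mul_of_nonneg_left (by linarith only [tr1]) (by positivity)
  -- `-π t + 10 π h (1 - 3 μ) ≤ LL`
  have f3 : -(Real.pi * t) + 10 * Real.pi * h * (1 - 3 * μ) ≤ 26 / 10 * (10 * h * μ - t) := by
    nlinarith only [f, hL2, f2]
  have hy0 : 0 < 10 * h * μ - t := by rw [← yb]; exact hy'
  have p1 : 3 * (-t) ≤ Real.pi * (-t) := mul_le_mul_of_nonneg_right (by linarith only [hp1, hp2]) (by linarith only [t1])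
  have p2 : 3 * (10 * h * (1 - 3 * μ)) ≤ Real.pi * (10 * h * (1 - 3 * μ)) := by
    apply mul_le_mul_of_nonneg_right (by linarith only [hp1, hp2])
    have : 0 ≤ 1 - 3 * μ := by linarith only [hm, hp1, hp2]
    positivity
  have p3 : 0 ≤ h * (1 / 10 - μ) := mul_nonneg h0 (by linarith only [hm])
  nlinarith only [h0, hy', f, yb, hL2, f2, p1, p2, p3]

/-- left ramp, the hinge to the right at distance `≥ 1/6` -/
theorem N_b2 (hw' : 1 / 6 ≤ a - μ) (hm : μ ≤ 1 / 10) : False := by
  have hp1 := Real.pi_gt_d4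
  have hp2 : Real.pi < 31416 / 10000 := by
    have := Real.pi_lt_d4
    norm_num at this ⊢
    linarith only [this]
  have hpi := Real.pi_pos
  have m0 := H.m0
  have hi := mpt_left (h := h) m0 hm
  have e := gap ha ht H a0.le (by linarith only [a1, hp1, hp2]) (by linarith only [hw', hp1, hp2])
  have l6 := lam_6
  have hi0 : 0 ≤ 10 * h * μ := by positivity
  rw [hi, abs_of_nonneg (by linarith only [t1, hi0])] at e
  set w := a - μ with hwd
  have haw : a = w + μ := by rw [hwd]; ring
  have hX : t * (w + 1 / 6) + h * (2 * a - 1 / 3) - 10 * h * μ * (a + μ - 1 / 2) +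
      (10 * h * μ - t) = t * (w - 5 / 6) + h * (w + 7 / 6 - (1 - 10 * μ) * (3 / 2 - w - 2 * μ)) := by
    rw [haw]
    ring
  rw [hX] at e
  have k0 : 0 ≤ 1 - 10 * μ := by linarith only [hm]
  rcases le_total w (1 / 4) with c | c
  · have l4 := lam_d hw' c
    have k1 : 0 ≤ (1 - 10 * μ) * (3 / 2 - w - 2 * μ) := mul_nonneg k0 (by linarith only [a1, hm, hp1, hp2])
    have k2 : h * (w + 7 / 6 - (1 - 10 * μ) * (3 / 2 - w - 2 * μ)) ≤
        (655 / 10000 + 38 / 100 * t) * (w + 7 / 6) := by
      calc h * (w + 7 / 6 - (1 - 10 * μ) * (3 / 2 - w - 2 * μ)) ≤ h * (w + 7 / 6) :=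
            mul_le_mul_of_nonneg_left (by linarith only [k1]) h0
        _ ≤ _ := mul_le_mul_of_nonneg_right h1 (by linarith only [a0, hm, hp1, hp2])
    have k3 : t * (w - 5 / 6) + (655 / 10000 + 38 / 100 * t) * (w + 7 / 6) ≤
        1067 / 10000 - 42 / 1000 * w := by
      nlinarith only [a0, t0, l6, e, c, l4, k2, hp2, a1, hp1, hm, mul_nonneg (sub_nonneg.2 t0) (sub_nonneg.2 c),
        mul_nonneg (sub_nonneg.2 t0) (sub_nonneg.2 hw')]
    have k4 : Real.pi * (t * (w - 5 / 6) + h * (w + 7 / 6 - (1 - 10 * μ) * (3 / 2 - w - 2 * μ))) ≤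
        31416 / 10000 * (1067 / 10000 - 42 / 1000 * w) := by
      calc _ ≤ Real.pi * (1067 / 10000 - 42 / 1000 * w) :=
            mul_le_mul_of_nonneg_left (by linarith only [k2, k3]) hpi.le
        _ ≤ _ := mul_le_mul_of_nonneg_right hp2.le (by linarith only [a1, hp1, hp2, m0])
    linarith only [hp1, hp2, l6, e, c, l4, k4]
  · have l4 := lam_e c (by linarith only [a1, m0])
    have k1 : (10 * w - 5 / 2) * (8 / 10 + w) ≤ (1 - 10 * μ) * (3 / 2 - w - 2 * μ) := by
      apply mul_le_mul _ _ (by linarith only [a0, hm, hp1, hp2]) k0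
      · linarith only [a1]
      · linarith only [a1]
    have k2 : h * (w + 7 / 6 - (1 - 10 * μ) * (3 / 2 - w - 2 * μ)) ≤
        (655 / 10000 + 38 / 100 * t) * (w + 7 / 6 - (10 * w - 5 / 2) * (8 / 10 + w)) := by
      calc h * (w + 7 / 6 - (1 - 10 * μ) * (3 / 2 - w - 2 * μ)) ≤
          h * (w + 7 / 6 - (10 * w - 5 / 2) * (8 / 10 + w)) :=
            mul_le_mul_of_nonneg_left (by linarith only [k1]) h0
        _ ≤ _ := mul_le_mul_of_nonneg_right h1 (by nlinarith only [a1, m0, k1, a0, hp1, hp2, hm])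
    have k3 : t * (w - 5 / 6) + (655 / 10000 + 38 / 100 * t) *
        (w + 7 / 6 - (10 * w - 5 / 2) * (8 / 10 + w)) ≤ 97 / 1000 - 15 / 100 * (w - 1 / 4) := by
      nlinarith only [t0, c, a0, hp1, hp2, a1, t1, m0, hm, hw', mul_nonneg (sub_nonneg.2 t0) (sub_nonneg.2 c), mul_nonneg (sub_nonneg.2 c)
        (sub_nonneg.2 (show w ≤ 35 / 100 by linarith only [a1, m0])), mul_nonneg (sub_nonneg.2 t0)
        (sub_nonneg.2 (show w ≤ 35 / 100 by linarith only [a1, m0])),
        mul_nonneg (mul_nonneg (sub_nonneg.2 t0) (sub_nonneg.2 c)) (sub_nonneg.2 (show w ≤ 35 / 100 by linarith only [a1, m0]))]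
    have k4 : Real.pi * (t * (w - 5 / 6) + h * (w + 7 / 6 - (1 - 10 * μ) * (3 / 2 - w - 2 * μ))) ≤
        31416 / 10000 * (97 / 1000 - 15 / 100 * (w - 1 / 4)) := by
      calc _ ≤ Real.pi * (97 / 1000 - 15 / 100 * (w - 1 / 4)) :=
            mul_le_mul_of_nonneg_left (by linarith only [k2, k3]) hpi.le
        _ ≤ _ := mul_le_mul_of_nonneg_right hp2.le (by linarith only [a1, hp1, hp2, m0])
    linarith only [a1, hp1, hp2, m0, l6, e, l4, k4]

/-- left ramp, the hinge to the left -/
theorem N_b4 (ta : -(56 / 100 * a) ≤ t) (hw : a ≤ μ) (hm : μ < 1 / 10) : False := by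
  have hp1 := Real.pi_gt_d4
  have hp2 := Real.pi_lt_d4
  have hpi := Real.pi_pos
  have m0 := H.m0
  have hi := mpt_left (h := h) m0 hm.le
  have yb : (mpt h μ - v).im = 10 * h * μ - t := by rw [Complex.sub_im, hi, ht]
  have xb : (mpt h μ - v).re = μ - a := by rw [Complex.sub_re, mpt_re, ha]
  have hy0 : 0 ≤ 10 * h * μ - t := by
    have : 0 ≤ 10 * h * μ := by positivity
    linarith only [t1, this]
  by_cases hz : μ = a ∧ (mpt h μ).im = t
  · exact N_zero ha ht H a0 a1 t0 t1 h0 h1 hz.1.le hz.2 (Or.inl hm.le)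
  have hz' : 0 < μ - a ∨ 0 < 10 * h * μ - t := by
    rcases eq_or_lt_of_le hw with c | c
    · right
      rcases eq_or_lt_of_le hy0 with d | d
      · exact absurd ⟨c.symm, by rw [hi]; linarith only [hy0, d]⟩ hz
      · exact d
    · left
      linarith only [c]
  have hs : (mpt h μ - v).im ≠ 0 ∨ mpt h μ - v ∈ strip := by
    rcases hz' with c | c
    · right
      constructor
      · rw [xb]; exact c
      · rw [xb]; linarith only [a0, hm, c]
    · left
      rw [yb]; exact c.ne'
  have f := H.ramp_left hm hs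
  have hY : YY (mpt h μ - v) ≤ 0 := by
    rcases eq_or_lt_of_le hy0 with d | d
    · rw [YY_zero (by rw [yb]; exact d.symm)]
    · rw [YY_pos (by rw [yb]; exact d)]
      have := Tr_le_half (s := (mpt h μ - v).im) (x := (mpt h μ - v).re) (by rw [yb]; exact d)
        (by rw [xb]; linarith only [a0, hm, hp1, hp2])
      linarith only [this]
  have hyb : 10 * h * μ - t ≤ 1139 / 10000 := by nlinarith only [a0, h1, ta, hw, hm, a1, t0, h0]
  have hL : LL (mpt h μ - v) < 0 := by
    have h2 := LL_le_half (u := mpt h μ - v) (by rw [yb, abs_of_nonneg hy0]; linarith only [hp1, hp2, hyb])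
      (by rcases hz' with c | c
          · left; rw [xb]; exact c.ne'
          · right; rw [yb]; exact c.ne')
      (by rw [xb, abs_of_nonneg (by linarith only [hw])]; linarith only [a0, hm, hp1, hp2])
    rw [xb, yb] at h2
    have t2 : -t ≤ 56 / 1000 := by linarith only [ta, hw, hm]
    have y1 : 10 * h * μ - t ≤ 101 / 1000 := by nlinarith only [h1, ta, a0, hw, hm, a1, t0, h0]
    have y2 : (10 * h * μ - t) ^ 2 ≤ (101 / 1000) ^ 2 := pow_le_pow_left₀ hy0 y1 2
    have x2 : (μ - a) ^ 2 ≤ (1 / 10) ^ 2 := pow_le_pow_left₀ (by linarith only [hw]) (by linarith only [a0, hm]) 2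
    have y4 : (10 * h * μ - t) ^ 2 * (1 + 1106 / 100 * (10 * h * μ - t) ^ 2) ≤
        (101 / 1000) ^ 2 * (1 + 1106 / 100 * (101 / 1000) ^ 2) := by
      apply mul_le_mul y2 (by linarith only [y2]) (by positivity) (by positivity)
    nlinarith only [hp1, hp2, h2, x2, y4]
  rw [ha, ht] at f
  have f2 : 10 * h * YY (mpt h μ - v) ≤ 0 := mul_nonpos_of_nonneg_of_nonpos (by positivity) hY
  have f3 : 0 ≤ h * (1 / 2 - a - 2 * μ) := mul_nonneg h0 (by linarith only [hw, hm, hp1, hp2])
  nlinarith only [f, hL, f2, hpi, f3, t1, mul_nonneg hpi.le f3, mul_nonneg hpi.le (neg_nonneg.2 t1)]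

/-- the left knee, the hinge to the right -/
theorem N_knee (hw : μ ≤ a) (hm : μ = 1 / 10) : False := by
  have hp1 := Real.pi_gt_d4
  have hp2 : Real.pi < 31416 / 10000 := by
    have := Real.pi_lt_d4
    norm_num at this ⊢
    linarith only [this]
  have hpi := Real.pi_pos
  have hi : (mpt h μ).im = h := mpt_mid hm.ge (by rw [hm]; norm_num)
  by_cases hy : (mpt h μ).im = t
  · exact N_zero ha ht H a0 a1 t0 t1 h0 h1 hw hy (Or.inl hm.le)
  have hy' : 0 < h - t := by
    rw [hi] at hy
    rcases lt_or_gt_of_ne hy with c | c <;> linarith only [t1, h0, c]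
  rcases le_total (1 / 6) (a - μ) with c | c
  · exact N_b2 ha ht H a0 a1 t0 t1 h0 h1 c hm.le
  have yb : (mpt h μ - v).im = h - t := by rw [Complex.sub_im, hi, ht]
  have xb : (mpt h μ - v).re = -(a - μ) := by rw [Complex.sub_re, mpt_re, ha]; ring
  have hyb : h - t ≤ 1139 / 10000 := by linarith only [t0, h1, hp1, hp2]
  have f := H.level_right hm.ge (by rw [hm]; norm_num) (sin_ne_of_im (by rw [yb]; exact hy'.ne'))
  rw [ht] at f
  rcases le_total 0 (-(t + h)) with k | k
  · -- `κ ≥ 0`
    rcases eq_or_lt_of_le hw with w0 | w0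
    · -- `w = 0`
      have h2 := LL_le_half (u := mpt h μ - v) (by rw [yb, abs_of_pos hy']; linarith only [t0, h1, hp1, hp2])
        (Or.inr (by rw [yb]; exact hy'.ne')) (by rw [xb, w0]; norm_num)
      have x0 : (-(a - μ)) ^ 2 = 0 := by rw [w0]; ring
      rw [xb, yb, x0] at h2
      have y2 : (h - t) ^ 2 ≤ (1139 / 10000) ^ 2 := pow_le_pow_left₀ hy'.le hyb 2
      have y4 : (h - t) ^ 2 * (1 + 1106 / 100 * (h - t) ^ 2) ≤
          (1139 / 10000) ^ 2 * (1 + 1106 / 100 * (1139 / 10000) ^ 2) := by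
        apply mul_le_mul y2 (by linarith only [y2]) (by positivity) (by positivity)
      nlinarith only [hp1, hp2, f, h2, y4, hpi, k, mul_nonneg hpi.le k]
    · have e1 := reflect ha ht H hm.ge w0 (by rw [hm]; linarith only [hm, hp1, hp2, c])
      have e2 := Lr_neg_six (ρ := |h - t|) (w := a - μ) (by rw [abs_of_pos hy']; exact hy')
        (by rw [abs_of_pos hy']; exact hyb) (by linarith only [w0]) c
      nlinarith only [e1, e2, hw, hpi, k, mul_nonneg (sub_nonneg.2 hw) (mul_nonneg hpi.le k)]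
  · -- `κ ≤ 0`
    rcases le_total (a - μ) (1 / 10) with c2 | c2
    · have h2 := LL_le_half (u := mpt h μ - v) (by rw [yb, abs_of_pos hy']; linarith only [h1, hp1, hp2, k])
        (Or.inr (by rw [yb]; exact hy'.ne')) (by rw [xb, abs_neg, abs_of_nonneg (by linarith only [hw])]; linarith only [a1, hm, hp1, hp2])
      rw [xb, yb] at h2
      have x2 : (-(a - μ)) ^ 2 ≤ (1 / 10) ^ 2 := by
        rw [neg_sq]
        exact pow_le_pow_left₀ (by linarith only [hw]) c2 2
      have y1 : h - t ≤ 950 / 10000 := by linarith only [h1, hp1, hp2, k]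
      have y2 : (h - t) ^ 2 ≤ (950 / 10000) ^ 2 := pow_le_pow_left₀ hy'.le y1 2
      have k1 : Real.pi * (t + h) ≤ 31416 / 10000 * (t + h) :=
        mul_le_mul_of_nonneg_right hp2.le (by linarith only [k])
      have k2 : 1 + 1106 / 100 * (h - t) ^ 2 ≤ 11 / 10 := by linarith only [hp1, hp2, y2]
      have k3 : (h - t) ^ 2 * (1 + 1106 / 100 * (h - t) ^ 2) ≤ (h - t) ^ 2 * (11 / 10) :=
        mul_le_mul_of_nonneg_left k2 (sq_nonneg _)
      nlinarith only [h1, f, h2, x2, y2, k1, t0, t1, h0]
    · have e := gap ha ht H a0.le (by linarith only [a1, hp1, hp2]) hw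
      rw [hi, abs_of_pos hy'] at e
      have l3 := lam_c c2 c
      have l6 := lam_6
      set w := a - μ with hwd
      have haw : a = w + 1 / 10 := by rw [hwd, hm]; ring
      have hX : t * (w + 1 / 6) + h * (2 * a - 1 / 3) - h * (a + μ - 1 / 2) + (h - t) =
          t * (w - 5 / 6) + h * (w + 7 / 6) := by
        rw [haw, hm]
        ring
      rw [hX] at e
      have k2 : h * (w + 7 / 6) ≤ (655 / 10000 + 38 / 100 * t) * (w + 7 / 6) :=
        mul_le_mul_of_nonneg_right h1 (by linarith only [hp1, hp2, c2])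
      have t2 : -(475 / 10000) ≤ t := by linarith only [h1, hp1, hp2, k]
      have k3 : t * (w - 5 / 6) + (655 / 10000 + 38 / 100 * t) * (w + 7 / 6) ≤ 957 / 10000 := by
        nlinarith only [h1, hp1, hp2, k, c2, t2, c, mul_nonneg (sub_nonneg.2 t2) (sub_nonneg.2 c),
          mul_nonneg (sub_nonneg.2 t2) (sub_nonneg.2 c2)]
      have k4 : Real.pi * (t * (w - 5 / 6) + h * (w + 7 / 6)) ≤ 31416 / 10000 * (957 / 10000) := by
        calc _ ≤ Real.pi * (957 / 10000) := mul_le_mul_of_nonneg_left (by linarith only [k2, k3]) hpi.le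
          _ ≤ _ := mul_le_mul_of_nonneg_right hp2.le (by norm_num)
      linarith only [hp1, hp2, l6, c2, e, l3, k4]

/-- the left knee, the hinge to the left -/
theorem N_knee' (ta : -(56 / 100 * a) ≤ t) (hw : a ≤ μ) (hm : μ = 1 / 10) : False := by
  have hp1 := Real.pi_gt_d4
  have hp2 : Real.pi < 31416 / 10000 := by
    have := Real.pi_lt_d4
    norm_num at this ⊢
    linarith only [this]
  have hpi := Real.pi_pos
  have hi : (mpt h μ).im = h := mpt_mid hm.ge (by rw [hm]; norm_num)
  by_cases hz : μ = a ∧ (mpt h μ).im = t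
  · exact N_zero ha ht H a0 a1 t0 t1 h0 h1 hz.1.le hz.2 (Or.inl hm.le)
  have yb : (mpt h μ - v).im = h - t := by rw [Complex.sub_im, hi, ht]
  have xb : (mpt h μ - v).re = μ - a := by rw [Complex.sub_re, mpt_re, ha]
  have hy0 : 0 ≤ h - t := by linarith only [t1, h0]
  have hz' : 0 < μ - a ∨ 0 < h - t := by
    rcases eq_or_lt_of_le hw with c | c
    · right
      rcases eq_or_lt_of_le hy0 with d | d
      · exact absurd ⟨c.symm, by rw [hi]; linarith only [t1, h0, d]⟩ hz
      · exact d
    · left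
      linarith only [c]
  have hs : Complex.sin (Real.pi * (mpt h μ - v)) ≠ 0 := by
    rcases hz' with c | c
    · apply sin_ne_of_re
      · rw [xb, abs_of_pos c]; exact c
      · rw [xb, abs_of_pos c]; linarith only [a0, hm, c]
    · exact sin_ne_of_im (by rw [yb]; exact c.ne')
  have f := H.level_right hm.ge (by rw [hm]; norm_num) hs
  rw [ht] at f
  have h2 := LL_le_half (u := mpt h μ - v) (by rw [yb, abs_of_nonneg hy0]; linarith only [h1, ta, hw, hm, hp1, hp2])
    (by rcases hz' with c | c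
        · left; rw [xb]; exact c.ne'
        · right; rw [yb]; exact c.ne')
    (by rw [xb, abs_of_nonneg (by linarith only [hw])]; linarith only [a0, hm, hp1, hp2])
  have x0 : (μ - a) ^ 2 = (1 / 10 - a) ^ 2 := by rw [hm]
  rw [xb, yb, x0] at h2
  have t2 : -t ≤ 56 / 1000 := by linarith only [ta, hw, hm]
  have y1 : h - t ≤ 101 / 1000 := by linarith only [h1, ta, hw, hm, hp1, hp2]
  have y2 : (h - t) ^ 2 ≤ (101 / 1000) ^ 2 := pow_le_pow_left₀ hy0 y1 2
  have k2 : 1 + 1106 / 100 * (h - t) ^ 2 ≤ 1113 / 1000 := by linarith only [hp1, hp2, y2]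
  have k3 : (h - t) ^ 2 * (1 + 1106 / 100 * (h - t) ^ 2) ≤ (h - t) ^ 2 * (1113 / 1000) :=
    mul_le_mul_of_nonneg_left k2 (sq_nonneg _)
  have a2 : a ≤ 1 / 10 := by linarith only [hw, hm]
  have kh : Real.pi * h ≤ 31416 / 10000 * h := mul_le_mul_of_nonneg_right hp2.le h0
  have kt : 31415 / 10000 * (-t) ≤ Real.pi * (-t) := mul_le_mul_of_nonneg_right
    (by have := Real.pi_gt_d4; norm_num at this ⊢; linarith only [hp1]) (by linarith only [t1])
  -- in terms of `s = -t`, `h ≤ .0655 - .38 s`, `a ≥ s / .56`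
  have x2 : (1 / 10 - a) ^ 2 ≤ (1 / 10) * (1 / 10 - a) := by nlinarith only [a0, hw, hm]
  have x3 : a ≥ 178 / 100 * (-t) := by linarith only [a0, ta]
  have y3 : (h - t) ^ 2 ≤ (655 / 10000 - 62 / 100 * t) ^ 2 :=
    pow_le_pow_left₀ hy0 (by linarith only [h1]) 2
  nlinarith only [a0, t1, h1, f, h2, y2, k3, kh, kt, x2, y3, t2, mul_nonneg (neg_nonneg.2 t1) (sub_nonneg.2 t2)]

include hth

/-- the level -/
theorem N_level (hm0 : 1 / 10 < μ) (hm1 : μ < 57 / 100) : LocM v h μ := by
  have hp1 := Real.pi_gt_d4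
  have hp2 : Real.pi < 31416 / 10000 := by
    have := Real.pi_lt_d4
    norm_num at this ⊢
    linarith only [this]
  have hpi := Real.pi_pos
  have hi : (mpt h μ).im = h := mpt_mid hm0.le hm1.le
  have yb : (mpt h μ - v).im = h - t := by rw [Complex.sub_im, hi, ht]
  have xb : (mpt h μ - v).re = μ - a := by rw [Complex.sub_re, mpt_re, ha]
  by_cases hz : μ = a ∧ (mpt h μ).im = t
  · exact (N_zero ha ht H a0 a1 t0 t1 h0 h1 hz.1.le hz.2 (Or.inr ⟨hm0.le, hm1.le⟩)).elim
  have hy0 : 0 ≤ h - t := by linarith only [t1, h0]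
  have hz' : μ ≠ a ∨ 0 < h - t := by
    by_cases c : μ = a
    · right
      rcases eq_or_lt_of_le hy0 with d | d
      · exact absurd ⟨c, by rw [hi]; linarith only [t1, h0, d]⟩ hz
      · exact d
    · left
      exact c
  have hs : Complex.sin (Real.pi * (mpt h μ - v)) ≠ 0 := by
    rcases hz' with c | c
    · apply sin_ne_of_re
      · rw [xb]; exact abs_pos.2 (sub_ne_zero.2 c)
      · rw [xb, abs_lt]; constructor <;> linarith only [a1, hm0, hp1, hp2, a0, hm1]
    · exact sin_ne_of_im (by rw [yb]; exact c.ne')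
  have f1 := H.level_right hm0.le hm1 hs
  have f2 := H.level_left hm0 hm1.le hs
  rw [ht] at f1 f2
  have f : LL (mpt h μ - v) = -(Real.pi * (t + h)) := le_antisymm f2 f1
  have kap : -(Real.pi * (t + h)) ≤ 2357 / 10000 := by nlinarith only [a1, hth, a0, hp1, hp2, t0, h0]
  have hyb : h - t ≤ 1139 / 10000 := by linarith only [t0, h1, hp1, hp2]
  rcases lt_trichotomy μ a with c | c | c
  · -- to the left of the hinge
    exfalso
    have hw : 0 < a - μ := by linarith only [c]
    have hw2 : a - μ < 22 / 100 := by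
      by_contra hcon
      push Not at hcon
      have e := LL_ge_real (x := 22 / 100) (u := ((a - μ : ℝ) : ℂ) + (h - t : ℝ) * Complex.I)
        (by norm_num) (by simpa using hcon) (by simp; linarith only [a1, hm0, hp1, hp2])
      have e2 : LL (((a - μ : ℝ) : ℂ) + (h - t : ℝ) * Complex.I) = LL (mpt h μ - v) := by
        rw [LL_eq', LL_eq', yb, xb, show μ - a = -(a - μ) by ring, mul_neg, Real.cos_neg]
        simp
      rw [e2, f] at e
      have := log_22
      linarith only [hp1, hp2, kap, e, this]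
    exact reflect_false ha ht H hm0.le c (by linarith only [hp1, hp2, hw2]) (by linarith only [a1, hw2]) f2
  · -- `w = 0`
    exfalso
    have hy' : 0 < h - t := by
      rcases hz' with d | d
      · exact absurd c d
      · exact d
    have h2 := LL_le_half (u := mpt h μ - v) (by rw [yb, abs_of_pos hy']; linarith only [t0, h1, hp1, hp2])
      (Or.inr (by rw [yb]; exact hy'.ne')) (by rw [xb, c]; norm_num)
    have x0 : (μ - a) ^ 2 = 0 := by rw [c]; ring
    rw [xb, yb, x0] at h2
    have y2 : (h - t) ^ 2 ≤ (1139 / 10000) ^ 2 := pow_le_pow_left₀ hy'.le hyb 2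
    have y4 : (h - t) ^ 2 * (1 + 1106 / 100 * (h - t) ^ 2) ≤
        (1139 / 10000) ^ 2 * (1 + 1106 / 100 * (1139 / 10000) ^ 2) := by
      apply mul_le_mul y2 (by linarith only [y2]) (by positivity) (by positivity)
    have k1 : Real.pi * (t + h) ≤ 31416 / 10000 * (655 / 10000) := by
      calc Real.pi * (t + h) ≤ Real.pi * (655 / 10000) :=
            mul_le_mul_of_nonneg_left (by linarith only [t1, h1]) hpi.le
        _ ≤ _ := mul_le_mul_of_nonneg_right hp2.le (by norm_num)
    nlinarith only [hp1, hp2, f1, h2, y4, k1]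
  · refine ⟨hm0, hm1, by rw [ha]; linarith only [c], ?_, by rw [ht]; exact f⟩
    rw [ha]
    by_contra hcon
    push Not at hcon
    have e := LL_ge_real (x := 22 / 100) (u := mpt h μ - v) (by norm_num)
      (by rw [xb]; linarith only [a0, hm1, hcon]) (by rw [xb]; linarith only [a0, hm1, hcon])
    have := log_22
    linarith only [a0, hm1, f2, kap, hcon, e, this]

end

/-- **Location of the inner variable, heights of the hinge `≤ 0`.** -/
theorem locN {v : ℂ} {h μ a t : ℝ} (ha : v.re = a) (ht : v.im = t) (H : MaxM v h μ)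
    (a0 : 0 < a) (a1 : a ≤ 35 / 100) (t0 : -(78 / 1000) ≤ t) (t1 : t ≤ 0)
    (h0 : 0 ≤ h) (h1 : h ≤ 655 / 10000 + 38 / 100 * t) (hth : -(75 / 1000) ≤ t + h)
    (ta : -(56 / 100 * a) ≤ t) : LocM v h μ := by
  have hpi := Real.pi_pos
  have hp2 : Real.pi < 31416 / 10000 := by
    have := Real.pi_lt_d4
    norm_num at this ⊢
    linarith only [this]
  rcases lt_trichotomy μ (1 / 10) with c | c | c
  · exfalso
    rcases le_total μ a with d | d
    · rcases le_total (a - μ) (1 / 6) with e | e
      · exact N_b1 ha ht H a0 a1 t0 t1 h0 h1 d e c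
      · exact N_b2 ha ht H a0 a1 t0 t1 h0 h1 e c.le
    · exact N_b4 ha ht H a0 a1 t0 t1 h0 h1 ta d c
  · exfalso
    rcases le_total μ a with d | d
    · exact N_knee ha ht H a0 a1 t0 t1 h0 h1 d c
    · exact N_knee' ha ht H a0 a1 t0 t1 h0 h1 ta d c
  · rcases lt_trichotomy μ (57 / 100) with d | d | d
    · exact N_level ha ht H a0 a1 t0 t1 h0 h1 hth c d
    · exfalso
      have hi : (mpt h μ).im = h := mpt_mid c.le d.le
      have xb : (mpt h μ - v).re = μ - a := by rw [Complex.sub_re, mpt_re, ha]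
      have hs : Complex.sin (Real.pi * (mpt h μ - v)) ≠ 0 := by
        apply sin_ne_of_re
        · rw [xb]; exact abs_pos.2 (by linarith only [a0, a1, d])
        · rw [xb, abs_lt]; constructor <;> linarith only [a0, a1, d]
      have f2 := H.level_left c d.le hs
      rw [ht] at f2
      have kap : -(Real.pi * (t + h)) ≤ 2357 / 10000 := by nlinarith only [a1, hp2, a0, hth, hpi]
      have e := LL_ge_real (x := 22 / 100) (u := mpt h μ - v) (by norm_num)
        (by rw [xb]; linarith only [a1, d]) (by rw [xb]; linarith only [a0, a1, d])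
      have := log_22
      linarith only [a0, a1, f2, kap, e, this]
    · exact (right_false ha ht H a0 d (by linarith only [a0, a1, d])
        (rowN a0.le a1 t0 t1 h0 h1 ta d.le H.m1)).elim

end L3

end Pool.Agent.Work.MP_b30479_gtS.G2

end

section

/-!
# END 3, location of the inner variable: heights of the hinge `≥ 0`
-/

namespace Pool.Agent.Work.MP_b30479_gtS.G2

open Finset VOL Filter Topology

namespace L3

section
variable {v : ℂ} {h μ a t : ℝ} (ha : v.re = a) (ht : v.im = t) (H : MaxM v h μ)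
  (a0 : 0 < a) (t0 : 0 ≤ t) (th : t ≤ 2 * h) (ta : t ≤ 20 * h * a) (h1 : h ≤ 59 / 1000)
  (hA : (a ≤ 26 / 100 ∧ t ≤ 58 / 1000) ∨ (a ≤ 30 / 100 ∧ t ≤ 28 / 1000 ∧ h ≤ 50 / 1000))

include ha ht H a0 t0 th ta h1 hA

/-- the hinge to the right and above the inner variable -/
theorem P_b3 (hw : μ ≤ a) (hm : μ ≤ 1 / 10) (hy : (mpt h μ).im ≤ t) : False := by
  have hp2 : Real.pi < 31416 / 10000 := by
    have := Real.pi_lt_d4
    norm_num at this ⊢
    linarith only [this]
  have hpi := Real.pi_pos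
  have m0 := H.m0
  have h0 : 0 ≤ h := by linarith only [t0, th]
  have a1 : a ≤ 30 / 100 := by rcases hA with ⟨c, -⟩ | ⟨c, -⟩ <;> linarith only [a0, c]
  have t1 : t ≤ 58 / 1000 := by rcases hA with ⟨-, c⟩ | ⟨-, c, -⟩ <;> linarith only [c]
  have hi := mpt_left (h := h) m0 hm
  have e := gap ha ht H a0.le (by linarith only [a0, a1]) hw
  have l6 := lam_6
  rw [abs_of_nonpos (by linarith only [hy]), hi] at e
  set w := a - μ with hwd
  have w0 : 0 ≤ w := by linarith only [hw]
  have haw : a = w + μ := by rw [hwd]; ring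
  have hX : t * (w + 1 / 6) + h * (2 * a - 1 / 3) - 10 * h * μ * (a + μ - 1 / 2) +
      -(10 * h * μ - t) ≤ t * (w + 7 / 6) + h * (2 * w - 1 / 3) - h * μ * (3 + 10 * w) := by
    rw [haw]
    nlinarith only [h0, m0, mul_nonneg (mul_nonneg h0 m0) m0]
  have hm1 : 0 ≤ h * μ := mul_nonneg h0 m0
  have step : ∀ B : ℝ, 0 ≤ B → t * (w + 7 / 6) + h * (2 * w - 1 / 3) - h * μ * (3 + 10 * w) ≤ B →
      lam (1 / 6) + lam w ≤ 31416 / 10000 * B := by
    intro B hB hB2
    refine e.trans ((mul_le_mul_of_nonneg_left (hX.trans hB2) hpi.le).trans ?_)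
    exact mul_le_mul_of_nonneg_right hp2.le hB
  rcases le_total w (1 / 20) with c1 | c1
  · have l := lam_a w0 c1
    have k1 : t / 20 - h * w ≤ h * μ := by
      rw [haw] at ta
      linarith only [ta]
    have k2 : t * (w + 7 / 6) + h * (2 * w - 1 / 3) - h * μ * (3 + 10 * w) ≤ t * (7 / 2 * w + 85 / 100) := by
      have k3 : 0 ≤ h * μ * w := mul_nonneg hm1 w0
      have k4 : 0 ≤ (2 * h - t) * (1 / 3 - 5 * w) := mul_nonneg (by linarith only [th]) (by linarith only [a0, hm, c1])
      nlinarith only [ta, k3, k4]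
    have k5 : t * (7 / 2 * w + 85 / 100) ≤ 58 / 1000 * (7 / 2 * w + 85 / 100) :=
      mul_le_mul_of_nonneg_right t1 (by linarith only [a0, hm])
    have := step _ (by positivity) (k2.trans k5)
    linarith only [a0, hw, hm, l6, l, this]
  rcases le_total w (1 / 6) with c2 | c2
  · have k1 : t * (w + 7 / 6) + h * (2 * w - 1 / 3) - h * μ * (3 + 10 * w) ≤ t * (2 * w + 1) := by
      have k3 : 0 ≤ h * μ * w := mul_nonneg hm1 w0
      have k4 : 0 ≤ (2 * h - t) * (1 / 3 - 2 * w) := mul_nonneg (by linarith only [th]) (by linarith only [c2])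
      nlinarith only [hm1, k3, k4]
    have k5 : t * (2 * w + 1) ≤ 58 / 1000 * (2 * w + 1) :=
      mul_le_mul_of_nonneg_right t1 (by linarith only [a0, hm])
    have := step _ (by positivity) (k1.trans k5)
    rcases le_total w (1 / 10) with c3 | c3
    · have := lam_b c1 c3
      linarith
    · have := lam_c c3 c2
      linarith
  · have k0 : t * (w + 7 / 6) + h * (2 * w - 1 / 3) - h * μ * (3 + 10 * w) ≤
        t * (w + 7 / 6) + h * (2 * w - 1 / 3) := by
      have : 0 ≤ h * μ * (3 + 10 * w) := mul_nonneg hm1 (by linarith only [a0, hm])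
      linarith only [this]
    have k5 : t * (w + 7 / 6) ≤ 58 / 1000 * (w + 7 / 6) :=
      mul_le_mul_of_nonneg_right t1 (by linarith only [a0, hm])
    have k6 : h * (2 * w - 1 / 3) ≤ 59 / 1000 * (2 * w - 1 / 3) :=
      mul_le_mul_of_nonneg_right h1 (by linarith only [c2])
    have s1 := step (58 / 1000 * (w + 7 / 6) + 59 / 1000 * (2 * w - 1 / 3)) (by nlinarith only [a0, hm])
      (by linarith only [k0, k5, k6])
    rcases le_total w (1 / 4) with c3 | c3
    · have := lam_d c2 c3
      linarith only [a0, a1, l6, s1, c3, this]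
    · have l := lam_e c3 (by linarith only [a0, m0, a1])
      rcases hA with ⟨c, -⟩ | ⟨c, c', c''⟩
      · linarith only [a0, m0, l6, s1, l, c]
      · have k7 : t * (w + 7 / 6) ≤ 28 / 1000 * (w + 7 / 6) :=
          mul_le_mul_of_nonneg_right c' (by linarith only [a0, a1, l6, s1, l])
        have s2 := step (28 / 1000 * (w + 7 / 6) + 59 / 1000 * (2 * w - 1 / 3)) (by nlinarith only [a0, a1, l6, s1, l])
          (by linarith only [k0, k6, k7])
        linarith only [a0, m0, a1, l6, l, s2]

/-- left ramp, the hinge to the right at distance `≤ 1/6` -/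
theorem P_b1 (hw : μ ≤ a) (hw' : a - μ ≤ 1 / 6) (hm : μ < 1 / 10) : False := by
  have hp1 := Real.pi_gt_d4
  have hp2 := Real.pi_lt_d4
  have hpi := Real.pi_pos
  have m0 := H.m0
  have h0 : 0 ≤ h := by linarith only [t0, th]
  have hi := mpt_left (h := h) m0 hm.le
  rcases le_or_gt (mpt h μ).im t with hy | hy
  · exact P_b3 ha ht H a0 t0 th ta h1 hA hw hm.le hy
  have hy' : 0 < (mpt h μ - v).im := by
    rw [Complex.sub_im, ht]
    linarith only [hy]
  have f := H.ramp_left hm (Or.inl hy'.ne')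
  rw [YY_pos hy'] at f
  have hw2 : (mpt h μ - v).re = -(a - μ) := by
    rw [Complex.sub_re, mpt_re, ha]
    ring
  have tr1 : DT.Tr (mpt h μ - v).im (mpt h μ - v).re ≤ -(Real.pi * (a - μ)) := by
    have := pi_mul_le_Tr (x := a - μ) (s := (mpt h μ - v).im) (by linarith only [hw]) (by linarith only [hw', hp1, hp2]) hy'
    have e : DT.Tr (mpt h μ - v).im (mpt h μ - v).re = -DT.Tr (mpt h μ - v).im (a - μ) := by
      rw [hw2]
      have e1 := DT.Tr_one_sub hy' (1 + (a - μ))
      have e2 := Tr_add_one (mpt h μ - v).im (a - μ)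
      rw [show 1 - (1 + (a - μ)) = -(a - μ) by ring] at e1
      rw [show a - μ + 1 = 1 + (a - μ) by ring] at e2
      linarith only [e1, e2]
    linarith only [this, e]
  have yb : (mpt h μ - v).im = 10 * h * μ - t := by rw [Complex.sub_im, hi, ht]
  have hyb : (mpt h μ - v).im ≤ 59 / 1000 := by
    rw [yb]
    nlinarith only [t0, h1, hm, th]
  have hL := LL_le_quad (u := mpt h μ - v) (by rw [abs_of_pos hy']; linarith only [hy', hyb]) hy'.ne'
    (by rw [hw2, abs_neg, abs_of_nonneg (by linarith only [hw])]; exact hw')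
  have hL2 : LL (mpt h μ - v) ≤ 122 / 100 * (10 * h * μ - t) := by
    refine hL.trans ?_
    rw [← yb]
    have y2 : (mpt h μ - v).im ^ 2 ≤ (59 / 1000) ^ 2 := pow_le_pow_left₀ hy'.le hyb 2
    have : 1974 / 100 * (mpt h μ - v).im * (1 + 1106 / 100 * (mpt h μ - v).im ^ 2) ≤ 122 / 100 := by
      nlinarith only [hy', hyb, y2]
    nlinarith only [this, hy', mul_le_mul_of_nonneg_left this hy'.le]
  rw [ha, ht] at f
  have f2 : 10 * h * (DT.Tr (mpt h μ - v).im (mpt h μ - v).re - Real.pi / 2) ≤
      10 * h * (-(Real.pi * (a - μ)) - Real.pi / 2) :=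
    mul_le_mul_of_nonneg_left (by linarith only [tr1]) (by positivity)
  have f3 : Real.pi * (-t + 10 * h * (1 - 3 * μ)) ≤ 122 / 100 * (10 * h * μ - t) := by
    nlinarith only [f, hL2, f2]
  have hy0 : 0 < 10 * h * μ - t := by rw [← yb]; exact hy'
  have hh : 0 < h := by
    rcases h0.lt_or_eq with c | c
    · exact c
    · rw [← c] at hy0
      linarith only [t0, hy0]
  have p0 : 10 * h * (1 - 4 * μ) + (10 * h * μ - t) = -t + 10 * h * (1 - 3 * μ) := by ring
  have p1 : 3 * (10 * h * (1 - 4 * μ) + (10 * h * μ - t)) ≤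
      Real.pi * (10 * h * (1 - 4 * μ) + (10 * h * μ - t)) := by
    apply mul_le_mul_of_nonneg_right (by linarith only [hp1, hy', hyb])
    have : 0 ≤ 1 - 4 * μ := by linarith only [hm, hy', hyb]
    positivity
  rw [← p0] at f3
  have p2 : 0 < h * (1 - 4 * μ) := mul_pos hh (by linarith only [hm, hy', hyb])
  nlinarith only [t0, th, f, hL2, f2, p1, p2]

/-- left ramp and knee, the hinge to the right at distance `≥ 1/6` -/
theorem P_b2 (hw' : 1 / 6 ≤ a - μ) (hm : μ ≤ 1 / 10) : False := by
  have hp2 : Real.pi < 31416 / 10000 := by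
    have := Real.pi_lt_d4
    norm_num at this ⊢
    linarith only [this]
  have hpi := Real.pi_pos
  have m0 := H.m0
  have h0 : 0 ≤ h := by linarith only [t0, th]
  have a1 : a ≤ 30 / 100 := by rcases hA with ⟨c, -⟩ | ⟨c, -⟩ <;> linarith only [a0, c]
  rcases le_or_gt (mpt h μ).im t with hy | hy
  · exact P_b3 ha ht H a0 t0 th ta h1 hA (by linarith only [a0, hw', hm]) hm hy
  have hi := mpt_left (h := h) m0 hm
  have e := gap ha ht H a0.le (by linarith only [a0, a1]) (by linarith only [a0, hw', hm])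
  have l6 := lam_6
  rw [abs_of_pos (by linarith only [hy]), hi] at e
  set w := a - μ with hwd
  have haw : a = w + μ := by rw [hwd]; ring
  have hX : t * (w + 1 / 6) + h * (2 * a - 1 / 3) - 10 * h * μ * (a + μ - 1 / 2) +
      (10 * h * μ - t) = t * (w - 5 / 6) + h * (w + 7 / 6 - (1 - 10 * μ) * (3 / 2 - w - 2 * μ)) := by
    rw [haw]
    ring
  rw [hX] at e
  have k1 : 0 ≤ (1 - 10 * μ) * (3 / 2 - w - 2 * μ) := mul_nonneg (by linarith only [hm]) (by linarith only [a0, hm, a1])
  have k2 : h * (w + 7 / 6 - (1 - 10 * μ) * (3 / 2 - w - 2 * μ)) ≤ 59 / 1000 * (w + 7 / 6) := by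
    calc h * (w + 7 / 6 - (1 - 10 * μ) * (3 / 2 - w - 2 * μ)) ≤ h * (w + 7 / 6) :=
          mul_le_mul_of_nonneg_left (by linarith only [k1]) h0
      _ ≤ _ := mul_le_mul_of_nonneg_right h1 (by linarith only [a0, hm, a1])
  have k3 : t * (w - 5 / 6) ≤ 0 := mul_nonpos_of_nonneg_of_nonpos t0 (by linarith only [a0, m0, a1])
  have k4 : Real.pi * (t * (w - 5 / 6) + h * (w + 7 / 6 - (1 - 10 * μ) * (3 / 2 - w - 2 * μ))) ≤
      31416 / 10000 * (59 / 1000 * (w + 7 / 6)) := by
    calc _ ≤ Real.pi * (59 / 1000 * (w + 7 / 6)) :=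
          mul_le_mul_of_nonneg_left (by linarith only [k2, k3]) hpi.le
      _ ≤ _ := mul_le_mul_of_nonneg_right hp2.le (by linarith only [a0, hm, a1])
  rcases le_total w (1 / 4) with c | c
  · have l4 := lam_d hw' c
    linarith only [a0, m0, a1, l6, e, k4, l4]
  · have l4 := lam_e c (by linarith only [a0, m0, a1])
    linarith only [a0, m0, a1, l6, e, k4, l4]

/-- left ramp, the hinge to the left -/
theorem P_b4 (hw : a ≤ μ) (hm : μ < 1 / 10) : False := by
  have hp1 : 31415 / 10000 < Real.pi := by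
    have := Real.pi_gt_d4
    norm_num at this ⊢
    linarith only [this]
  have hp2 : Real.pi < 31416 / 10000 := by
    have := Real.pi_lt_d4
    norm_num at this ⊢
    linarith only [this]
  have hpi := Real.pi_pos
  have m0 := H.m0
  have h0 : 0 ≤ h := by linarith only [t0, th]
  have t1 : t ≤ 58 / 1000 := by rcases hA with ⟨-, c⟩ | ⟨-, c, -⟩ <;> linarith only [c, hp1, hp2]
  have hi := mpt_left (h := h) m0 hm.le
  have yb : (mpt h μ - v).im = 10 * h * μ - t := by rw [Complex.sub_im, hi, ht]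
  have xb : (mpt h μ - v).re = μ - a := by rw [Complex.sub_re, mpt_re, ha]
  by_cases hz : μ = a ∧ (mpt h μ).im = t
  · exact P_b3 ha ht H a0 t0 th ta h1 hA hz.1.le hm.le hz.2.le
  rcases le_or_gt 0 (10 * h * μ - t) with hy0 | hy0
  · -- `y ≥ 0`
    have hz' : 0 < μ - a ∨ 0 < 10 * h * μ - t := by
      rcases eq_or_lt_of_le hw with c | c
      · right
        rcases eq_or_lt_of_le hy0 with d | d
        · exact absurd ⟨c.symm, by rw [hi]; linarith only [hy0, d]⟩ hz
        · exact d
      · left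
        linarith only [c]
    have hs : (mpt h μ - v).im ≠ 0 ∨ mpt h μ - v ∈ strip := by
      rcases hz' with c | c
      · right
        constructor
        · rw [xb]; exact c
        · rw [xb]; linarith only [a0, hm, c]
      · left
        rw [yb]; exact c.ne'
    have f := H.ramp_left hm hs
    have hY : YY (mpt h μ - v) ≤ 0 := by
      rcases eq_or_lt_of_le hy0 with d | d
      · rw [YY_zero (by rw [yb]; exact d.symm)]
      · rw [YY_pos (by rw [yb]; exact d)]
        have := Tr_le_half (s := (mpt h μ - v).im) (x := (mpt h μ - v).re) (by rw [yb]; exact d)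
          (by rw [xb]; linarith only [a0, hm, hp1, hp2])
        linarith only [this]
    have hyb : 10 * h * μ - t ≤ 59 / 1000 := by nlinarith only [t0, h1, hm, th]
    have hL : LL (mpt h μ - v) < 0 := by
      have h2 := LL_le_half (u := mpt h μ - v) (by rw [yb, abs_of_nonneg hy0]; linarith only [hp1, hp2, hyb])
        (by rcases hz' with c | c
            · left; rw [xb]; exact c.ne'
            · right; rw [yb]; exact c.ne')
        (by rw [xb, abs_of_nonneg (by linarith only [hw])]; linarith only [a0, hm, hp1, hp2])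
      rw [xb, yb] at h2
      have y2 : (10 * h * μ - t) ^ 2 ≤ (59 / 1000) ^ 2 := pow_le_pow_left₀ hy0 hyb 2
      have x2 : (μ - a) ^ 2 ≤ (1 / 10) ^ 2 := pow_le_pow_left₀ (by linarith only [hw]) (by linarith only [a0, hm]) 2
      have y4 : (10 * h * μ - t) ^ 2 * (1 + 1106 / 100 * (10 * h * μ - t) ^ 2) ≤
          (59 / 1000) ^ 2 * (1 + 1106 / 100 * (59 / 1000) ^ 2) := by
        apply mul_le_mul y2 (by linarith only [y2]) (by positivity) (by positivity)
      nlinarith only [hp1, hp2, h2, x2, y4]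
    rw [ha, ht] at f
    have f2 : 10 * h * YY (mpt h μ - v) ≤ 0 := mul_nonpos_of_nonneg_of_nonpos (by positivity) hY
    have f3 : 0 ≤ h * (5 - 10 * a - 30 * μ) := mul_nonneg h0 (by linarith only [hw, hm, hp1, hp2])
    nlinarith only [f, hL, f2, hpi, f3, hy0, mul_nonneg hpi.le f3, mul_nonneg hpi.le hy0]
  · -- `y < 0`
    have hy' : (mpt h μ - v).im < 0 := by rw [yb]; exact hy0
    have f := H.ramp_left hm (Or.inl hy'.ne)
    have hY : YY (mpt h μ - v) ≤ Real.pi / 2 - Real.pi * (μ - a) := by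
      rw [YY_neg hy', xb]
      have := pi_mul_le_Tr (x := μ - a) (s := -(mpt h μ - v).im) (by linarith only [hw]) (by linarith only [a0, hm, hp1, hp2])
        (by linarith only [yb, hy0])
      linarith only [this]
    have hyb : t - 10 * h * μ ≤ t / 2 := by nlinarith only [ta, t0, hw, th]
    have h2 := LL_le_fifth (u := mpt h μ - v) (by rw [yb, abs_of_neg hy0]; linarith only [t1, hy0, hyb]) hy'.ne
    rw [xb, yb] at h2
    have y2 : (10 * h * μ - t) ^ 2 ≤ (t / 2) ^ 2 := by
      rw [← neg_sq]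
      exact pow_le_pow_left₀ (by linarith only [hy0]) (by linarith only [hyb]) 2
    have y3 : (t / 2) ^ 2 ≤ 145 / 10000 * t := by nlinarith only [t0, t1]
    have y4 : (10 * h * μ - t) ^ 2 * (1 + 1106 / 100 * (10 * h * μ - t) ^ 2) ≤
        145 / 10000 * t * (102 / 100) := by
      apply mul_le_mul (y2.trans y3) _ (by positivity) (by positivity)
      nlinarith only [t1, hy0, hyb, y2, y3]
    have x2 : (μ - a) ^ 2 ≤ (1 / 10 - a) ^ 2 := pow_le_pow_left₀ (by linarith only [hw]) (by linarith only [hm]) 2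
    rw [ha, ht] at f
    have f2 : 10 * h * YY (mpt h μ - v) ≤ 10 * h * (Real.pi / 2 - Real.pi * (μ - a)) :=
      mul_le_mul_of_nonneg_left hY (by positivity)
    have f3 : -(Real.pi * (t + 10 * h * μ + 20 * h * a)) ≤ LL (mpt h μ - v) := by nlinarith only [f, f2]
    have s1 : t + 10 * h * μ + 20 * h * a ≤ t + 59 / 1000 + 118 / 100 * a := by nlinarith only [t1, hy0, a0, h1]
    have s2 : Real.pi * (t + 10 * h * μ + 20 * h * a) ≤
        31416 / 10000 * (t + 59 / 1000 + 118 / 100 * a) := by
      calc _ ≤ Real.pi * (t + 59 / 1000 + 118 / 100 * a) := mul_le_mul_of_nonneg_left s1 hpi.le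
        _ ≤ _ := mul_le_mul_of_nonneg_right hp2.le (by linarith only [a0, t1, hy0, hyb])
    have ta' : t ≤ 118 / 100 * a := by nlinarith only [ta, a0, h1]
    have a2 : a ≤ 1 / 10 := by linarith only [hw, hm]
    rcases le_total a (5 / 100) with c | c
    · nlinarith only [t1, f, h2, y4, x2, f2, s2, ta', a0, hw, hm]
    · nlinarith only [t1, f, h2, y4, x2, f2, s2, ta', a0, hw, hm]

/-- the left knee, the hinge to the right -/
theorem P_knee (hw : μ ≤ a) (hm : μ = 1 / 10) : False := by
  have hp2 : Real.pi < 31416 / 10000 := by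
    have := Real.pi_lt_d4
    norm_num at this ⊢
    linarith only [this]
  have hpi := Real.pi_pos
  have h0 : 0 ≤ h := by linarith only [t0, th]
  have a1 : a ≤ 30 / 100 := by rcases hA with ⟨c, -⟩ | ⟨c, -⟩ <;> linarith only [a0, c]
  have t1 : t ≤ 58 / 1000 := by rcases hA with ⟨-, c⟩ | ⟨-, c, -⟩ <;> linarith only [c]
  have hi : (mpt h μ).im = h := mpt_mid hm.ge (by rw [hm]; norm_num)
  rcases le_or_gt (mpt h μ).im t with hy | hy
  · exact P_b3 ha ht H a0 t0 th ta h1 hA hw hm.le hy
  rcases le_total (1 / 6) (a - μ) with c | c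
  · exact P_b2 ha ht H a0 t0 th ta h1 hA c hm.le
  have hy' : 0 < h - t := by rw [hi] at hy; linarith only [hy]
  rcases le_total (a - μ) (1 / 20) with c2 | c2
  · have yb : (mpt h μ - v).im = h - t := by rw [Complex.sub_im, hi, ht]
    have xb : (mpt h μ - v).re = -(a - μ) := by rw [Complex.sub_re, mpt_re, ha]; ring
    have f := H.level_right hm.ge (by rw [hm]; norm_num) (sin_ne_of_im (by rw [yb]; exact hy'.ne'))
    rw [ht] at f
    have h2 := LL_le_half (u := mpt h μ - v) (by rw [yb, abs_of_pos hy']; linarith only [t0, h1])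
      (Or.inr (by rw [yb]; exact hy'.ne')) (by rw [xb, abs_neg, abs_of_nonneg (by linarith only [hw])]; linarith only [hm, a1])
    rw [xb, yb] at h2
    have x2 : (-(a - μ)) ^ 2 ≤ (1 / 20) ^ 2 := by
      rw [neg_sq]
      exact pow_le_pow_left₀ (by linarith only [hw]) c2 2
    have y2 : (h - t) ^ 2 ≤ (59 / 1000) ^ 2 := pow_le_pow_left₀ hy'.le (by linarith only [t0, h1]) 2
    have y4 : (h - t) ^ 2 * (1 + 1106 / 100 * (h - t) ^ 2) ≤
        (59 / 1000) ^ 2 * (1 + 1106 / 100 * (59 / 1000) ^ 2) := by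
      apply mul_le_mul y2 (by linarith only [y2]) (by positivity) (by positivity)
    have k1 : Real.pi * (t + h) ≤ 31416 / 10000 * (117 / 1000) := by
      calc Real.pi * (t + h) ≤ Real.pi * (117 / 1000) :=
            mul_le_mul_of_nonneg_left (by linarith only [h1, t1]) hpi.le
        _ ≤ _ := mul_le_mul_of_nonneg_right hp2.le (by norm_num)
    nlinarith only [f, h2, x2, y4, k1]
  · have e := gap ha ht H a0.le (by linarith only [a0, a1]) hw
    rw [hi, abs_of_pos hy'] at e
    have l6 := lam_6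
    set w := a - μ with hwd
    have haw : a = w + 1 / 10 := by rw [hwd, hm]; ring
    have hX : t * (w + 1 / 6) + h * (2 * a - 1 / 3) - h * (a + μ - 1 / 2) + (h - t) =
        t * (w - 5 / 6) + h * (w + 7 / 6) := by
      rw [haw, hm]
      ring
    rw [hX] at e
    have k2 : h * (w + 7 / 6) ≤ 59 / 1000 * (w + 7 / 6) :=
      mul_le_mul_of_nonneg_right h1 (by linarith only [c2])
    have k3 : t * (w - 5 / 6) ≤ 0 := mul_nonpos_of_nonneg_of_nonpos t0 (by linarith only [a0, hm, a1])
    have k4 : Real.pi * (t * (w - 5 / 6) + h * (w + 7 / 6)) ≤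
        31416 / 10000 * (59 / 1000 * (w + 7 / 6)) := by
      calc _ ≤ Real.pi * (59 / 1000 * (w + 7 / 6)) := mul_le_mul_of_nonneg_left (by linarith only [k2, k3]) hpi.le
        _ ≤ _ := mul_le_mul_of_nonneg_right hp2.le (by linarith only [c2])
    rcases le_total w (1 / 10) with c3 | c3
    · have := lam_b c2 c3
      linarith only [l6, c2, e, k4, this]
    · have := lam_c c3 c
      linarith only [t0, h1, hi, hy, l6, e, k4, c3, this]

/-- the left knee, the hinge to the left -/
theorem P_knee' (hw : a ≤ μ) (hm : μ = 1 / 10) : False := by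
  have hp2 : Real.pi < 31416 / 10000 := by
    have := Real.pi_lt_d4
    norm_num at this ⊢
    linarith only [this]
  have hpi := Real.pi_pos
  have h0 : 0 ≤ h := by linarith only [t0, th]
  have t1 : t ≤ 58 / 1000 := by rcases hA with ⟨-, c⟩ | ⟨-, c, -⟩ <;> linarith only [c, a0, hw, hm]
  have hi : (mpt h μ).im = h := mpt_mid hm.ge (by rw [hm]; norm_num)
  by_cases hz : μ = a ∧ (mpt h μ).im = t
  · exact P_b3 ha ht H a0 t0 th ta h1 hA hz.1.le hm.le hz.2.le
  have yb : (mpt h μ - v).im = h - t := by rw [Complex.sub_im, hi, ht]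
  have xb : (mpt h μ - v).re = μ - a := by rw [Complex.sub_re, mpt_re, ha]
  have hz' : 0 < μ - a ∨ h - t ≠ 0 := by
    rcases eq_or_lt_of_le hw with c | c
    · right
      intro d
      exact hz ⟨c.symm, by rw [hi]; linarith only [d]⟩
    · left
      linarith only [c]
  have hs : Complex.sin (Real.pi * (mpt h μ - v)) ≠ 0 := by
    rcases hz' with c | c
    · apply sin_ne_of_re
      · rw [xb, abs_of_pos c]; exact c
      · rw [xb, abs_of_pos c]; linarith only [a0, hm, c]
    · exact sin_ne_of_im (by rw [yb]; exact c)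
  have f := H.level_right hm.ge (by rw [hm]; norm_num) hs
  rw [ht] at f
  have y0 : |h - t| ≤ h := by rw [abs_le]; constructor <;> linarith only [th, t0]
  have h2 := LL_le_half (u := mpt h μ - v) (by rw [yb]; linarith only [a0, h1, hw, hm, y0])
    (by rcases hz' with c | c
        · left; rw [xb]; exact c.ne'
        · right; rw [yb]; exact c)
    (by rw [xb, abs_of_nonneg (by linarith only [hw])]; linarith only [a0, hw, hm])
  have x0 : (μ - a) ^ 2 = (1 / 10 - a) ^ 2 := by rw [hm]
  rw [xb, yb, x0] at h2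
  have y2 : (h - t) ^ 2 ≤ (59 / 1000) ^ 2 := by
    rw [← sq_abs]
    exact pow_le_pow_left₀ (abs_nonneg _) (by linarith only [h1, y0]) 2
  have y4 : (h - t) ^ 2 * (1 + 1106 / 100 * (h - t) ^ 2) ≤
      (59 / 1000) ^ 2 * (1 + 1106 / 100 * (59 / 1000) ^ 2) := by
    apply mul_le_mul y2 (by linarith only [y2]) (by positivity) (by positivity)
  have k1 : Real.pi * (t + h) ≤ 31416 / 10000 * (t + 59 / 1000) := by
    calc Real.pi * (t + h) ≤ Real.pi * (t + 59 / 1000) :=
          mul_le_mul_of_nonneg_left (by linarith only [h1]) hpi.le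
      _ ≤ _ := mul_le_mul_of_nonneg_right hp2.le (by linarith only [a0, t0, hw, hm])
  have ta' : t ≤ 118 / 100 * a := by nlinarith only [ta, a0, h1]
  have a2 : a ≤ 1 / 10 := by linarith only [hw, hm]
  nlinarith only [t1, f, h2, y2, k1, ta', a0, hw, hm]

/-- the level -/
theorem P_level (hm0 : 1 / 10 < μ) (hm1 : μ < 57 / 100) : LocM v h μ := by
  have hp2 : Real.pi < 31416 / 10000 := by
    have := Real.pi_lt_d4
    norm_num at this ⊢
    linarith only [this]
  have hpi := Real.pi_pos
  have h0 : 0 ≤ h := by linarith only [t0, th]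
  have a1 : a ≤ 30 / 100 := by rcases hA with ⟨c, -⟩ | ⟨c, -⟩ <;> linarith only [a0, c]
  have t1 : t ≤ 58 / 1000 := by rcases hA with ⟨-, c⟩ | ⟨-, c, -⟩ <;> linarith only [c, a0, a1]
  have hi : (mpt h μ).im = h := mpt_mid hm0.le hm1.le
  have yb : (mpt h μ - v).im = h - t := by rw [Complex.sub_im, hi, ht]
  have xb : (mpt h μ - v).re = μ - a := by rw [Complex.sub_re, mpt_re, ha]
  have k1 : Real.pi * (t + h) ≤ 31416 / 10000 * (117 / 1000) := by
    calc Real.pi * (t + h) ≤ Real.pi * (117 / 1000) :=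
          mul_le_mul_of_nonneg_left (by linarith only [h1, t1]) hpi.le
      _ ≤ _ := mul_le_mul_of_nonneg_right hp2.le (by norm_num)
  by_cases hz : μ = a ∧ (mpt h μ).im = t
  · exfalso
    have e := gap ha ht H a0.le (by linarith only [a0, a1]) hz.1.le
    have l6 := lam_6
    rw [hi] at hz e
    rw [hz.1, hz.2, sub_self, sub_self, abs_zero, lam_zero] at e
    nlinarith only [th, h1, a1, e, l6, a0, t0, hp2]
  have hz' : μ ≠ a ∨ h - t ≠ 0 := by
    by_cases c : μ = a
    · right
      intro d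
      exact hz ⟨c, by rw [hi]; linarith only [d]⟩
    · left
      exact c
  have hs : Complex.sin (Real.pi * (mpt h μ - v)) ≠ 0 := by
    rcases hz' with c | c
    · apply sin_ne_of_re
      · rw [xb]; exact abs_pos.2 (sub_ne_zero.2 c)
      · rw [xb, abs_lt]; constructor <;> linarith only [a0, hm0, a1, hm1]
    · exact sin_ne_of_im (by rw [yb]; exact c)
  have f1 := H.level_right hm0.le hm1 hs
  have f2 := H.level_left hm0 hm1.le hs
  rw [ht] at f1 f2
  have f : LL (mpt h μ - v) = -(Real.pi * (t + h)) := le_antisymm f2 f1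
  have kap : -(Real.pi * (t + h)) ≤ 0 := by
    have : 0 ≤ Real.pi * (t + h) := by positivity
    linarith only [this]
  rcases lt_trichotomy μ a with c | c | c
  · exfalso
    have hw : 0 < a - μ := by linarith only [c]
    have hw2 : a - μ < 22 / 100 := by
      by_contra hcon
      push Not at hcon
      have e := LL_ge_real (x := 22 / 100) (u := ((a - μ : ℝ) : ℂ) + (h - t : ℝ) * Complex.I)
        (by norm_num) (by simpa using hcon) (by simp; linarith only [hm0, a1, c, hcon])
      have e2 : LL (((a - μ : ℝ) : ℂ) + (h - t : ℝ) * Complex.I) = LL (mpt h μ - v) := by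
        rw [LL_eq', LL_eq', yb, xb, show μ - a = -(a - μ) by ring, mul_neg, Real.cos_neg]
        simp
      rw [e2, f] at e
      have := log_22
      linarith only [hm0, a1, c, hcon]
    exact reflect_false ha ht H hm0.le c (by linarith only [hm0, a1, c]) (by linarith only [hm0, a1, c]) f2
  · exfalso
    have hy' : h - t ≠ 0 := by
      rcases hz' with d | d
      · exact absurd c d
      · exact d
    have y0 : |h - t| ≤ h := by rw [abs_le]; constructor <;> linarith only [th, t0]
    have h2 := LL_le_half (u := mpt h μ - v) (by rw [yb]; linarith only [a0, h1, a1, y0])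
      (Or.inr (by rw [yb]; exact hy')) (by rw [xb, c]; norm_num)
    have x0 : (μ - a) ^ 2 = 0 := by rw [c]; ring
    rw [xb, yb, x0] at h2
    have y2 : (h - t) ^ 2 ≤ (59 / 1000) ^ 2 := by
      rw [← sq_abs]
      exact pow_le_pow_left₀ (abs_nonneg _) (by linarith only [h1, y0]) 2
    have y4 : (h - t) ^ 2 * (1 + 1106 / 100 * (h - t) ^ 2) ≤
        (59 / 1000) ^ 2 * (1 + 1106 / 100 * (59 / 1000) ^ 2) := by
      apply mul_le_mul y2 (by linarith only [y2]) (by positivity) (by positivity)
    nlinarith only [a0, a1, k1, f1, h2, y4]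
  · refine ⟨hm0, hm1, by rw [ha]; linarith only [c], ?_, by rw [ht]; exact f⟩
    rw [ha]
    by_contra hcon
    push Not at hcon
    have e := LL_ge_real (x := 22 / 100) (u := mpt h μ - v) (by norm_num)
      (by rw [xb]; linarith only [a0, hm1, hcon]) (by rw [xb]; linarith only [a0, hm1, hcon])
    have := log_22
    linarith only [a0, hm1, f2, kap, hcon, e, this]

/-- **Location of the inner variable, heights of the hinge `≥ 0`.** -/
theorem locP : LocM v h μ := by
  have hpi := Real.pi_pos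
  have h0 : 0 ≤ h := by linarith only [t0, th]
  have a1 : a ≤ 30 / 100 := by rcases hA with ⟨c, -⟩ | ⟨c, -⟩ <;> linarith only [a0, c]
  rcases lt_trichotomy μ (1 / 10) with c | c | c
  · exfalso
    rcases le_total μ a with d | d
    · rcases le_total (a - μ) (1 / 6) with e | e
      · exact P_b1 ha ht H a0 t0 th ta h1 hA d e c
      · exact P_b2 ha ht H a0 t0 th ta h1 hA e c.le
    · exact P_b4 ha ht H a0 t0 th ta h1 hA d c
  · exfalso
    rcases le_total μ a with d | d
    · exact P_knee ha ht H a0 t0 th ta h1 hA d c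
    · exact P_knee' ha ht H a0 t0 th ta h1 hA d c
  · rcases lt_trichotomy μ (57 / 100) with d | d | d
    · exact P_level ha ht H a0 t0 th ta h1 hA c d
    · exfalso
      have xb : (mpt h μ - v).re = μ - a := by rw [Complex.sub_re, mpt_re, ha]
      have hs : Complex.sin (Real.pi * (mpt h μ - v)) ≠ 0 := by
        apply sin_ne_of_re
        · rw [xb]; exact abs_pos.2 (by linarith only [a0, a1, d])
        · rw [xb, abs_lt]; constructor <;> linarith only [a0, a1, d]
      have f2 := H.level_left c d.le hs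
      rw [ht] at f2
      have kap : 0 ≤ Real.pi * (t + h) := by positivity
      have e := LL_ge_real (x := 22 / 100) (u := mpt h μ - v) (by norm_num)
        (by rw [xb]; linarith only [a0, a1, d]) (by rw [xb]; linarith only [a0, a1, d])
      have := log_22
      linarith only [a0, a1, f2, kap, e, this]
    · exfalso
      have m1 := H.m1
      rcases hA with ⟨c1, c2⟩ | ⟨c1, c2, c3⟩
      · exact right_false ha ht H a0 d (by linarith only [a0, d, c1]) (rowP a0.le c1 t0 c2 h0 h1 d.le m1)
      · rcases le_total a (26 / 100) with c4 | c4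
        · exact right_false ha ht H a0 d (by linarith only [a0, d, c4])
            (rowP a0.le c4 t0 (by linarith only [a0, c2, c4]) h0 h1 d.le m1)
        · exact right_false ha ht H a0 d (by linarith only [a0, a1, d]) (rowP' c4 c1 t0 c2 h0 c3 d.le m1)

end

end L3

end Pool.Agent.Work.MP_b30479_gtS.G2

end
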