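import Pool.Agent.Work.MP_b30479_gt.TBS.G2.ML3g
import Pool.Agent.Work.MP_b30479_gt.TBS.G2.Rng
import Pool.Agent.Work.MP_b30479_gt.TBS.G2.ML3e
import Pool.Agent.Work.MP_b30479_gt.TBS.G2.MPRun

/-!
# END 3: typed heights, the location in one statement, the side on the left ramp
-/

namespace Pool.Agent.Work.MP_b30479_gtS.G2

open Finset VOL Filter Topology

namespace L3

open Pool.Agent.Work.NumIs Pool.Agent.Work.NumIs.E

/-- typed heights of an end with three crossings next to a region of class `B`: `T` of the hinge,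
`h` of the inner variable, in the own frame -/
def HT (B : SR.Cl) (T h : ℝ) : Prop :=
  match B with
  | .one => -(78 / 1000) ≤ T ∧ T ≤ -(10 / 1000) ∧ 5 / 1000 ≤ h ∧ h ≤ 655 / 10000 + 38 / 100 * T
  | .two => -(26 / 1000) ≤ T ∧ T ≤ 13 / 1000 ∧ 0 ≤ h ∧ h ≤ 50 / 1000 ∧ T / 2 ≤ h
  | .twoE => -(69 / 1000) ≤ T ∧ T ≤ -(65 / 1000) ∧ -(27 / 1000) ≤ h ∧ h ≤ -(19 / 1000)
  | .three => 5 / 1000 ≤ T ∧ T ≤ 28 / 1000 ∧ h ≤ 43 / 1000 ∧ T / 2 ≤ h
  | .threeE => -(1 / 1000) ≤ T ∧ T ≤ 1 / 1000 ∧ -(2 / 1000) ≤ h ∧ h ≤ 2 / 1000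
  | .ring => 18 / 1000 ≤ T ∧ T ≤ 58 / 1000 ∧ h ≤ 59 / 1000 ∧ T / 2 ≤ h

/-- least length of the left ramp of the hinge for the location -/
noncomputable def clm (B : SR.Cl) : ℝ := if B = .one then 14 / 100 else 1 / 10

/-- the range of the location of the inner variable -/
noncomputable def capm (B : SR.Cl) : ℝ :=
  match B with
  | .one => 35 / 100
  | .ring => 26 / 100
  | _ => 30 / 100

/-- **Location of the inner variable** for a hinge on its left ramp or on its flat part. -/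
theorem loc3 {B : SR.Cl} {T h μ XM cl cr : ℝ} {v : ℂ} (hT : HT B T h) (hv : RH v T XM cl cr)
    (hcl : clm B ≤ cl) (hcr : 0 < cr) (hX : cl + cr < XM) (hcap : v.re ≤ capm B)
    (hfl : v.re ≤ XM - cr) (h0 : 0 < v.re) (H : MaxM v h μ) : LocM v h μ := by
  have hcl0 : 1 / 10 ≤ cl := by
    refine le_trans ?_ hcl
    unfold clm
    split_ifs <;> norm_num
  -- the height
  obtain ⟨τ, τ0, τ1, τa, τe⟩ : ∃ τ : ℝ, 0 ≤ τ ∧ τ ≤ 1 ∧ τ * clm B ≤ v.re ∧ v.im = T * τ := by
    rcases le_total v.re cl with c | c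
    · refine ⟨v.re / cl, by positivity, (div_le_one (by linarith only [h0, c])).2 c, ?_, ?_⟩
      · rw [div_mul_eq_mul_div, div_le_iff₀ (by linarith only [h0, c])]
        exact mul_le_mul_of_nonneg_left hcl h0.le
      · rw [hv.im, tr_a (by linarith only [h0, c]) hcr hX hv.re0 c]
    · refine ⟨1, zero_le_one, le_rfl, by linarith only [hcl, c], ?_⟩
      rw [hv.im, tr_b (by linarith only [hcl0]) hcr c hfl]
  cases B with
  | one =>
    obtain ⟨T0, T1, h2, h3⟩ := hT
    simp only [clm, capm, if_true] at τa hcap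
    exact locN rfl rfl H h0 hcap (by nlinarith only [τ1, τe, τ0, T0]) (by nlinarith only [τ0, τe, T1]) (by linarith only [h0, hcap, h2]) (by nlinarith only [τ1, τe, h3, T1])
      (by nlinarith only [τ1, τe, hcap, h2, h0, τ0, T0]) (by nlinarith only [τe, τa, h0, hcap, τ0, T0])
  | two =>
    obtain ⟨T0, T1, h2, h3, h4⟩ := hT
    simp only [clm, capm, reduceCtorEq, if_false] at τa hcap
    rcases le_total T 0 with c | c
    · exact locN rfl rfl H h0 (by linarith only [h0, hcap]) (by nlinarith only [τ1, τe, hcap, h0, τ0, T0]) (by nlinarith only [τe, τ0, c]) h2 (by nlinarith only [τ1, τe, hcap, h3, h0, τ0, T0])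
        (by nlinarith only [τ1, τe, hcap, h2, h0, τ0, T0]) (by nlinarith only [τe, τa, h0, hcap, τ0, T0])
    · exact locP rfl rfl H h0 (by nlinarith only [τe, τ0, c]) (by nlinarith only [τe, τ0, h4, τ1, h2]) (by nlinarith only [τe, h0, τ0, h4, hcap, h2, τa]) (by linarith only [h0, hcap, h3])
        (Or.inr ⟨hcap, by nlinarith only [τ1, τe, τ0, T1], h3⟩)
  | twoE =>
    obtain ⟨T0, T1, h2, h3⟩ := hT
    simp only [clm, capm, reduceCtorEq, if_false] at τa hcap
    exact locE rfl rfl H h0 hcap (by nlinarith only [τ1, τe, τ0, T0]) (by nlinarith only [τ0, τe, T1]) h2 h3 (by nlinarith only [τe, τa, τ0, T0])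
  | three =>
    obtain ⟨T0, T1, h2, h3⟩ := hT
    simp only [clm, capm, reduceCtorEq, if_false] at τa hcap
    exact locP rfl rfl H h0 (by nlinarith only [τ0, τe, T0]) (by nlinarith only [τ1, τe, h3, T0]) (by nlinarith only [τe, τa, h0, h3, hcap, T0]) (by linarith only [h0, hcap, h2])
        (Or.inr ⟨hcap, by nlinarith only [τ1, τe, τ0, T1], by linarith only [h0, hcap, h2]⟩)
  | threeE =>
    obtain ⟨T0, T1, h2, h3⟩ := hT
    simp only [clm, capm, reduceCtorEq, if_false] at τa hcap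
    exact locT rfl rfl H h0 hcap (by nlinarith only [τ1, τe, τ0, T0]) (by nlinarith only [τ1, τe, τ0, T1]) h2 h3
  | ring =>
    obtain ⟨T0, T1, h2, h3⟩ := hT
    simp only [clm, capm, reduceCtorEq, if_false] at τa hcap
    exact locP rfl rfl H h0 (by nlinarith only [τ0, τe, T0]) (by nlinarith only [τ1, τe, h3, T0]) (by nlinarith only [τe, τa, h0, h3, hcap, T0]) (by linarith only [h2])
        (Or.inl ⟨hcap, by nlinarith only [τ1, τe, τ0, T1]⟩)

/-! ### the side at a level critical point -/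

theorem S3_loc {v : ℂ} {h μ : ℝ} (L : LocM v h μ) (m : ℝ) : S3 1 m v (mpt h μ) =
    -(Real.pi * (v.im + 2 * h)) - LL v + m * (-(Real.pi * μ) + YY (mpt h μ - v) - YY v) := by
  obtain ⟨l1, l2, -, -, l5⟩ := L
  unfold S3
  rw [l5, mpt_re, mpt_mid l1.le l2.le]
  ring

/-- **Push-back** on the flat part -/
theorem push3 {v v' : ℂ} {h μ μ' : ℝ} (L : LocM v h μ) (L' : LocM v' h μ') (hi : v.im = v'.im)
    (h0 : 0 < v.re) (h1 : v.re < v'.re) (h2 : v.re + v'.re < 1) :
    S3 1 0 v' (mpt h μ') < S3 1 0 v (mpt h μ) := by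
  rw [S3_loc L, S3_loc L', hi]
  linarith only [hi, h0, h1, h2, LL_lt hi h0 h1 h2]

/-- **Uniqueness** of the inner variable -/
theorem inner3 {v : ℂ} {h μ μ' : ℝ} (L : LocM v h μ) (L' : LocM v h μ') : μ = μ' := by
  obtain ⟨l1, l2, l3, l4, l5⟩ := L
  obtain ⟨k1, k2, k3, k4, k5⟩ := L'
  have := LL_inj (u := mpt h μ - v) (u' := mpt h μ' - v)
    (by rw [Complex.sub_im, Complex.sub_im, mpt_mid l1.le l2.le, mpt_mid k1.le k2.le])
    (by rw [Complex.sub_re, mpt_re]; exact l3) (by rw [Complex.sub_re, mpt_re]; exact l4.le)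
    (by rw [Complex.sub_re, mpt_re]; exact k3) (by rw [Complex.sub_re, mpt_re]; exact k4.le)
    (by rw [l5, k5])
  have h2 := congrArg Complex.re this
  rw [Complex.sub_re, Complex.sub_re, mpt_re, mpt_re] at h2
  linarith only [h2]

/-- the inner variable is not too close to the hinge -/
theorem x_ge {v : ℂ} {h μ t : ℝ} (ht : v.im = t) (L : LocM v h μ) (hy : |h - t| ≤ 1139 / 10000)
    (hb : -(7478 / 10000) + 3948 / 100 * (h - t) ^ 2 * (1 + 1106 / 100 * (h - t) ^ 2) <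
      -(Real.pi * (t + h))) : 1 / 20 ≤ μ - v.re := by
  obtain ⟨l1, l2, l3, l4, l5⟩ := L
  by_contra hcon
  push Not at hcon
  have yb : (mpt h μ - v).im = h - t := by rw [Complex.sub_im, mpt_mid l1.le l2.le, ht]
  have xb : (mpt h μ - v).re = μ - v.re := by rw [Complex.sub_re, mpt_re]
  have h2 := LL_le_half (u := mpt h μ - v) (by rw [yb]; linarith only [hy, l3, hcon])
    (Or.inl (by rw [xb]; exact l3.ne')) (by rw [xb, abs_of_pos l3]; linarith only [l3, hcon])
  rw [xb, yb, l5, ht] at h2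
  have x2 : (μ - v.re) ^ 2 ≤ (1 / 20) ^ 2 := pow_le_pow_left₀ l3.le hcon.le 2
  linarith only [hb, h2, x2]

theorem x_ge_class {B : SR.Cl} {T h μ τ : ℝ} {v : ℂ} (hT : HT B T h) (L : LocM v h μ)
    (τ0 : 0 ≤ τ) (τ1 : τ ≤ 1) (hv : v.im = T * τ) : |h - v.im| ≤ 1139 / 10000 ∧
      1 / 20 ≤ μ - v.re := by
  have hp2 : Real.pi < 31416 / 10000 := by
    have := Real.pi_lt_d4
    norm_num at this ⊢
    linarith only [this]
  have hpi := Real.pi_pos
  -- the simple case
  have simple : ∀ Y : ℝ, |h - v.im| ≤ Y → Y ≤ 8 / 100 → v.im + h ≤ 117 / 1000 →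
      |h - v.im| ≤ 1139 / 10000 ∧ 1 / 20 ≤ μ - v.re := by
    intro Y hY hY' hs
    refine ⟨by linarith only [hY, hY'], x_ge rfl L (by linarith only [hY, hY']) ?_⟩
    have y2 : (h - v.im) ^ 2 ≤ (8 / 100) ^ 2 := by
      rw [← sq_abs]
      exact pow_le_pow_left₀ (abs_nonneg _) (by linarith only [hY, hY']) 2
    have y4 : (h - v.im) ^ 2 * (1 + 1106 / 100 * (h - v.im) ^ 2) ≤
        (8 / 100) ^ 2 * (1 + 1106 / 100 * (8 / 100) ^ 2) := by
      apply mul_le_mul y2 (by linarith only [y2]) (by positivity) (by positivity)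
    have k1 : Real.pi * (v.im + h) ≤ 31416 / 10000 * (117 / 1000) := by
      calc Real.pi * (v.im + h) ≤ Real.pi * (117 / 1000) := mul_le_mul_of_nonneg_left hs hpi.le
        _ ≤ _ := mul_le_mul_of_nonneg_right hp2.le (by norm_num)
    linarith only [y4, k1]
  cases B with
  | one =>
    obtain ⟨T0, T1, h2, h3⟩ := hT
    have t0 : T ≤ v.im := by rw [hv]; nlinarith only [τ1, T1]
    have t1 : v.im ≤ 0 := by rw [hv]; nlinarith only [τ0, T1]
    have y0 : 0 ≤ h - v.im := by linarith only [h2, t1]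
    have y1 : h - v.im ≤ 655 / 10000 - 62 / 100 * v.im := by linarith only [h3, t0]
    refine ⟨by rw [abs_of_nonneg y0]; linarith only [T0, h3, t0], x_ge rfl L (by rw [abs_of_nonneg y0]; linarith only [T0, h3, t0]) ?_⟩
    have y2 : (h - v.im) ^ 2 ≤ (655 / 10000 - 62 / 100 * v.im) ^ 2 := pow_le_pow_left₀ y0 y1 2
    have y3 : (h - v.im) ^ 2 ≤ (1139 / 10000) ^ 2 := pow_le_pow_left₀ y0 (by linarith only [T0, h3, t0]) 2
    have y4 : (h - v.im) ^ 2 * (1 + 1106 / 100 * (h - v.im) ^ 2) ≤ (h - v.im) ^ 2 * (1144 / 1000) :=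
      mul_le_mul_of_nonneg_left (by linarith only [y3]) (sq_nonneg _)
    have k1 : Real.pi * (v.im + h) ≤ 31416 / 10000 * (655 / 10000) := by
      calc Real.pi * (v.im + h) ≤ Real.pi * (655 / 10000) :=
            mul_le_mul_of_nonneg_left (by linarith only [T1, h3, t1]) hpi.le
        _ ≤ _ := mul_le_mul_of_nonneg_right hp2.le (by norm_num)
    rcases le_total (-(5 / 100)) v.im with c | c
    · nlinarith only [hpi, T0, t0, y2, y3, hp2, h2, c, h3, t1]
    · have k2 : Real.pi * (v.im + h) ≤ 0 := by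
        apply mul_nonpos_of_nonneg_of_nonpos hpi.le
        linarith only [T1, h3, t0, c]
      nlinarith only [y3, y4, k2]
  | two =>
    obtain ⟨T0, T1, h2, h3, h4⟩ := hT
    refine simple _ (le_rfl) ?_ ?_
    · rw [hv, abs_le]; constructor <;> nlinarith only [τ1, h2, τ0, T1, h3, T0]
    · rw [hv]; nlinarith only [τ1, h3, τ0, T1]
  | twoE =>
    obtain ⟨T0, T1, h2, h3⟩ := hT
    refine simple _ (le_rfl) ?_ ?_
    · rw [hv, abs_le]; constructor <;> nlinarith only [τ0, h2, T1, τ1, h3, T0]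
    · rw [hv]; nlinarith only [τ0, h3, T1]
  | three =>
    obtain ⟨T0, T1, h2, h3⟩ := hT
    refine simple _ (le_rfl) ?_ ?_
    · rw [hv, abs_le]; constructor <;> nlinarith only [τ1, T0, h3, τ0, T1, h2]
    · rw [hv]; nlinarith only [τ1, h2, τ0, T1]
  | threeE =>
    obtain ⟨T0, T1, h2, h3⟩ := hT
    refine simple _ (le_rfl) ?_ ?_
    · rw [hv, abs_le]; constructor <;> nlinarith only [τ1, h2, τ0, T1, h3, T0]
    · rw [hv]; nlinarith only [τ1, h3, τ0, T1]
  | ring =>
    obtain ⟨T0, T1, h2, h3⟩ := hT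
    refine simple _ (le_rfl) ?_ ?_
    · rw [hv, abs_le]; constructor <;> nlinarith only [τ1, T0, h3, τ0, T1, h2]
    · rw [hv]; nlinarith only [τ1, h2, τ0, T1]

end L3

end Pool.Agent.Work.MP_b30479_gtS.G2
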