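import Pool.Agent.Work.MP_b30479_gt.TBS.NumU.Tree
import Pool.Agent.Work.MP_b30479_gt.TBS.TB.HW
import Pool.Agent.Work.MP_b30479_gt.TBS.G2.ML3q_0

section

/-!
# Values near the integers, states of the inner variable of an end with three crossings next to a
digit `1`
-/

set_option deprecated.oldSectionVars true

namespace Pool.Agent.Work.MP_b30479_gtS.G2

open Finset VOL Filter Topology

namespace L3

open NumIs (lnA lnB)
open NumUs (uu UU_uu)

/-! ### `Lr` near zero -/

theorem cosh_135 : 2 * Real.cosh (Real.pi * (270 / 1000)) ≤ 277 / 100 := by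
  have h : NumIs.chk [NumIs.E.sub (NumIs.E.q 277 100) (NumIs.E.mul (NumIs.E.q 2 1)
      (NumIs.E.cosh (NumIs.E.mul NumIs.E.pi (NumIs.E.q 270 1000))))] 1 [NumIs.V.of 1 0 0] = true := by
    decide +kernel
  have hp := NumIs.pos_of_chk (NumIs.chk1 h (by norm_num) (x := 0) (by norm_num) (by norm_num))
  simp only [NumIs.E.val] at hp
  norm_num at hp ⊢
  linarith only [hp]

theorem Lr_nonpos {ρ x : ℝ} (hρ : 0 ≤ ρ) (hρ' : ρ ≤ 135 / 1000) (h0 : 0 ≤ x) (h1 : x ≤ 7 / 100) :
    DT.Lr ρ x ≤ 0 := by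
  have hp2 := Real.pi_lt_d4
  have hpi := Real.pi_pos
  rcases h0.eq_or_lt with h0 | h0
  · rw [← h0, DT.Lr_zero_right]
  rcases hρ.eq_or_lt with hρ | hρ
  · have := lam_ge h0 (by linarith only [h1, h0])
    have h2 : Real.log (2 * Real.pi * x) ≤ 0 := by
      apply Real.log_nonpos (by positivity)
      nlinarith
    have h3 : 0 ≤ x * (1 - Real.log (2 * Real.pi * x)) := mul_nonneg h0.le (by linarith only [h1, h0, h2])
    have h4 : 0 ≤ Real.pi ^ 2 * x ^ 3 / 18 := by positivity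
    unfold lam at this
    rw [← hρ]
    linarith only [this, h3, h4]
  have e1 := Lr_le_lin hρ h0.le
  have e2 : Real.cosh (2 * Real.pi * ρ) ≤ Real.cosh (Real.pi * (270 / 1000)) := by
    rw [Real.cosh_le_cosh, abs_of_pos (by positivity), abs_of_pos (by positivity)]
    nlinarith only [hρ', hpi]
  have e3 := Real.sin_gt_sub_cube (x := 2 * Real.pi * x) (by positivity)
  have e4 := cosh_135
  have hpp : Real.pi ^ 2 ≤ 98697 / 10000 := by nlinarith only [hp2, hpi]
  have hw2 : x ^ 2 ≤ (7 / 100) ^ 2 := pow_le_pow_left₀ h0.le h1 2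
  have e5 : 19 / 10 * x < Real.sin (2 * Real.pi * x) / Real.pi := by
    rw [lt_div_iff₀ hpi]
    refine lt_of_le_of_lt ?_ e3
    have : (2 * Real.pi * x) ^ 3 / 6 = Real.pi * x * (4 / 3 * Real.pi ^ 2 * x ^ 2) := by ring
    rw [this]
    have h6 : 4 / 3 * Real.pi ^ 2 * x ^ 2 ≤ 1 / 10 := by nlinarith only [h1, h0, hw2, hpp, sq_nonneg x]
    have h7 : 0 < Real.pi * x := by positivity
    nlinarith only [h6, h7, mul_le_mul_of_nonneg_left h6 h7.le]
  nlinarith

theorem Lr_ge_lam {ρ x : ℝ} (hρ : 0 ≤ ρ) (h0 : 0 ≤ x) : -lam x ≤ DT.Lr ρ x := by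
  have h1 := Lr_diff_mono (a := x) (b := 0) h0 le_rfl hρ
  rw [DT.Lr_zero_right, DT.Lr_zero_right] at h1
  unfold lam
  linarith only [h1]

/-! ### tangents of `lam` -/

theorem lam_tangent {x y : ℝ} (h0 : 0 ≤ x) (h1 : x ≤ 1 / 2) (y0 : 0 < y) (y1 : y ≤ 1 / 2) :
    lam x ≤ lam y + -Real.log (2 * Real.sin (Real.pi * y)) * (x - y) := by
  have hpi := Real.pi_pos
  have anti : ∀ p q, 0 < p → p ≤ q → q ≤ 1 / 2 →
      -Real.log (2 * Real.sin (Real.pi * q)) ≤ -Real.log (2 * Real.sin (Real.pi * p)) := by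
    intro p q hp hpq hq
    have := sin_pi_pos hp (by linarith only [y0, y1, hpq, hq])
    apply neg_le_neg
    apply Real.log_le_log (by linarith only [this])
    have : Real.sin (Real.pi * p) ≤ Real.sin (Real.pi * q) :=
      Real.sin_le_sin_of_le_of_le_pi_div_two (by nlinarith only [y0, hpi, y1, hp]) (by nlinarith only [y0, y1, hpi, hq])
        (mul_le_mul_of_nonneg_left hpq hpi.le)
    linarith only [this]
  rcases lt_trichotomy x y with h | h | h
  · obtain ⟨c, hc1, hc2⟩ := exists_hasDerivAt_eq_slope lam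
      (fun x => -Real.log (2 * Real.sin (Real.pi * x))) h continuous_lam.continuousOn
      (fun z hz => hasDerivAt_lam (h0.trans_lt hz.1) (by linarith only [y0, y1, hz, hz.2]))
    have h2 := anti c y (h0.trans_lt hc1.1) hc1.2.le y1
    have hc2' : -Real.log (2 * Real.sin (Real.pi * c)) * (y - x) = lam y - lam x := by
      rw [hc2, div_mul_cancel₀ _ (sub_pos.2 h).ne']
    nlinarith only [hc2', h2, h, mul_le_mul_of_nonneg_right h2 (sub_pos.2 h).le]
  · rw [h, sub_self, mul_zero, add_zero]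
  · obtain ⟨c, hc1, hc2⟩ := exists_hasDerivAt_eq_slope lam
      (fun x => -Real.log (2 * Real.sin (Real.pi * x))) h continuous_lam.continuousOn
      (fun z hz => hasDerivAt_lam (y0.trans hz.1) (by linarith only [h1, y0, h, hz, hz.2]))
    have h2 := anti y c y0 hc1.1.le (by linarith only [h1, hc1, hc1.2])
    have hc2' : -Real.log (2 * Real.sin (Real.pi * c)) * (x - y) = lam x - lam y := by
      rw [hc2, div_mul_cancel₀ _ (sub_pos.2 h).ne']
    nlinarith only [hc2', h2, h, mul_le_mul_of_nonneg_right h2 (sub_pos.2 h).le]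

theorem lam_uu (x : ℝ) : lam x = -uu x 0 := by
  unfold lam uu UU
  simp

section
open NumUs NumUs.E

theorem tan_1 : lam (1 / 100) ≤ 3769 / 100000 ∧
    -Real.log (2 * Real.sin (Real.pi * (1 / 100))) ≤ 2768 / 1000 ∧
    2767 / 1000 ≤ -Real.log (2 * Real.sin (Real.pi * (1 / 100))) := by
  have h1 : NumUs.chk [add (q 3769 100000) (NumUs.E.uu (q 1 100) (q 0 1))] 1 [NumIs.V.of 1 0 0] =
      true := by decide +kernel
  have h2 : NumUs.chk [add (q 2768 1000) (log (mul (q 2 1) (sinPi (q 1 100))))] 1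
      [NumIs.V.of 1 0 0] = true := by decide +kernel
  have h3 : NumUs.chk [sub (neg (log (mul (q 2 1) (sinPi (q 1 100))))) (q 2767 1000)] 1
      [NumIs.V.of 1 0 0] = true := by decide +kernel
  have p1 := NumUs.pos_of_chk (NumUs.chk1 h1 (by norm_num) (x := 0) (by norm_num) (by norm_num))
  have p2 := NumUs.pos_of_chk (NumUs.chk1 h2 (by norm_num) (x := 0) (by norm_num) (by norm_num))
  have p3 := NumUs.pos_of_chk (NumUs.chk1 h3 (by norm_num) (x := 0) (by norm_num) (by norm_num))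
  simp only [E.val] at p1 p2 p3
  push_cast at p1 p2 p3
  rw [zero_div] at p1
  refine ⟨?_, ?_, ?_⟩
  · rw [lam_uu]; linarith only [p1]
  · norm_num at p2 ⊢; linarith only [p2]
  · norm_num at p3 ⊢; linarith only [p3]

theorem tan_3 : lam (3 / 100) ≤ 801 / 10000 ∧
    -Real.log (2 * Real.sin (Real.pi * (3 / 100))) ≤ 1671 / 1000 ∧
    1669 / 1000 ≤ -Real.log (2 * Real.sin (Real.pi * (3 / 100))) := by
  have h1 : NumUs.chk [add (q 801 10000) (NumUs.E.uu (q 3 100) (q 0 1))] 1 [NumIs.V.of 1 0 0] =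
      true := by decide +kernel
  have h2 : NumUs.chk [add (q 1671 1000) (log (mul (q 2 1) (sinPi (q 3 100))))] 1
      [NumIs.V.of 1 0 0] = true := by decide +kernel
  have h3 : NumUs.chk [sub (neg (log (mul (q 2 1) (sinPi (q 3 100))))) (q 1669 1000)] 1
      [NumIs.V.of 1 0 0] = true := by decide +kernel
  have p1 := NumUs.pos_of_chk (NumUs.chk1 h1 (by norm_num) (x := 0) (by norm_num) (by norm_num))
  have p2 := NumUs.pos_of_chk (NumUs.chk1 h2 (by norm_num) (x := 0) (by norm_num) (by norm_num))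
  have p3 := NumUs.pos_of_chk (NumUs.chk1 h3 (by norm_num) (x := 0) (by norm_num) (by norm_num))
  simp only [E.val] at p1 p2 p3
  push_cast at p1 p2 p3
  rw [zero_div] at p1
  refine ⟨?_, ?_, ?_⟩
  · rw [lam_uu]; linarith only [p1]
  · norm_num at p2 ⊢; linarith only [p2]
  · norm_num at p3 ⊢; linarith only [p3]

end

theorem lam_le_a {x : ℝ} (h0 : 0 ≤ x) (h1 : x ≤ 1 / 2) : lam x ≤ 102 / 10000 + 277 / 100 * x := by
  obtain ⟨t1, t2, t3⟩ := tan_1
  have := lam_tangent h0 h1 (y := 1 / 100) (by norm_num) (by norm_num)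
  rcases le_total x (1 / 100) with h | h
  · nlinarith only [h0, t1, t3, this, t2]
  · nlinarith only [t1, t3, this, h, h0, t2]

theorem lam_le_b {x : ℝ} (h0 : 0 ≤ x) (h1 : x ≤ 1 / 2) : lam x ≤ 302 / 10000 + 1673 / 1000 * x := by
  obtain ⟨t1, t2, t3⟩ := tan_3
  have := lam_tangent h0 h1 (y := 3 / 100) (by norm_num) (by norm_num)
  rcases le_total x (3 / 100) with h | h
  · nlinarith only [h0, t1, t3, this, t2]
  · nlinarith only [t1, t3, this, h, h0, t2]

theorem lam_20' : lam (1 / 20) ≤ 1081 / 10000 ∧ 0 ≤ -Real.log (2 * Real.sin (Real.pi * (1 / 20))) := by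
  have h1 : NumUs.chk [NumUs.E.add (NumUs.E.q 1081 10000) (NumUs.E.uu (NumUs.E.q 1 20) (NumUs.E.q 0 1))] 1
      [NumIs.V.of 1 0 0] = true := by decide +kernel
  have h2 : NumUs.chk [NumUs.E.neg (NumUs.E.log (NumUs.E.mul (NumUs.E.q 2 1)
      (NumUs.E.sinPi (NumUs.E.q 1 20))))] 1 [NumIs.V.of 1 0 0] = true := by decide +kernel
  have p1 := NumUs.pos_of_chk (NumUs.chk1 h1 (by norm_num) (x := 0) (by norm_num) (by norm_num))
  have p2 := NumUs.pos_of_chk (NumUs.chk1 h2 (by norm_num) (x := 0) (by norm_num) (by norm_num))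
  simp only [NumUs.E.val] at p1 p2
  push_cast at p1 p2
  rw [zero_div] at p1
  constructor
  · rw [lam_uu]; linarith only [p1]
  · norm_num at p2 ⊢; linarith only [p2]

theorem lam_le_20 {x : ℝ} (h0 : 0 ≤ x) (h1 : x ≤ 1 / 20) : lam x ≤ 1081 / 10000 := by
  obtain ⟨t1, t2⟩ := lam_20'
  have := lam_tangent h0 (by linarith only [h1]) (y := 1 / 20) (by norm_num) (by norm_num)
  nlinarith only [t1, this, t2, h1, mul_nonneg t2 (sub_nonneg.2 h1)]

/-! ### `UU` near the integers -/

theorem neg_UU_le {u : ℂ} (h0 : 0 ≤ u.re) : -UU u ≤ lam u.re + Real.pi / 2 * |u.im| := by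
  have := Lr_ge_lam (abs_nonneg u.im) h0
  unfold UU
  linarith only [this]

theorem UU_near {u : ℂ} (h1 : u.re ≤ 1) : UU u ≤ lam (1 - u.re) + Real.pi / 2 * |u.im| := by
  have h := neg_UU_le (u := 1 - u) (by rw [Complex.sub_re, Complex.one_re]; linarith only [h1])
  rw [UU_one_sub, neg_neg, Complex.sub_re, Complex.one_re, Complex.sub_im, Complex.one_im,
    zero_sub, abs_neg] at h
  exact h

theorem UU_beyond {u : ℂ} (h0 : 1 ≤ u.re) (h1 : u.re ≤ 107 / 100) (hy : |u.im| ≤ 135 / 1000) :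
    UU u ≤ Real.pi / 2 * |u.im| := by
  have e := UU_add_one (u - 1)
  rw [sub_add_cancel] at e
  have r2 : (u - 1).im = u.im := by simp
  have h2 := Lr_nonpos (abs_nonneg u.im) hy (x := (u - 1).re) (by simp; linarith only [h0])
    (by simp; linarith only [h1])
  unfold UU at e
  rw [r2] at e
  unfold UU
  rw [e]
  linarith only [h2]

theorem UU_below {u : ℂ} (h0 : 93 / 100 ≤ u.re) (h1 : u.re ≤ 1) (hy : |u.im| ≤ 135 / 1000) :
    Real.pi / 2 * |u.im| ≤ UU u := by
  have e := UU_one_sub u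
  have r2 : (1 - u).im = -u.im := by simp
  have h2 := Lr_nonpos (abs_nonneg u.im) hy (x := (1 - u).re) (by simp; linarith only [h1])
    (by simp; linarith only [h0])
  unfold UU at e
  rw [r2, abs_neg] at e
  unfold UU
  linarith only [e, h2]

theorem UU_zero_near {u : ℂ} (h0 : |u.re| ≤ 1 / 20) (hy : |u.im| ≤ 135 / 1000) :
    -UU u ≤ 1081 / 10000 + Real.pi / 2 * |u.im| := by
  obtain ⟨h1, h2⟩ := abs_le.1 h0
  rcases le_total 0 u.re with h | h
  · have := neg_UU_le h
    have := lam_le_20 h h2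
    linarith
  · have h3 := Lr_nonpos (abs_nonneg u.im) hy (x := -u.re) (by linarith only [h]) (by linarith only [h1])
    rw [DT.Lr_neg] at h3
    unfold UU
    linarith only [h3]

/-! ### states of the inner variable next to a digit `1` -/

/-- values on the level and on the right ramp -/
noncomputable def SLv (a t h μ : ℝ) : ℝ :=
  -(Real.pi * (t * μ + h * (a + μ - 1 / 2)) + uu (μ - a) (h - t))

noncomputable def SRv (a t h μ : ℝ) : ℝ :=
  -(Real.pi * (t * μ + 5 * h * (77 / 100 - μ) * (a + μ - 1 / 2)) +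
    uu (μ - a) (5 * h * (77 / 100 - μ) - t))

section
open NumUs NumUs.E
open NumIs (V lkR)

def cN1 : E := sub (var 2) (add (q 655 10000) (mul (q 38 100) (var 1)))

theorem cN1_val {a T h μ : ℝ} (hp : 0 < cN1.val [a, T, h, μ]) : 655 / 10000 + 38 / 100 * T < h := by
  simp only [cN1, E.val, lkR] at hp
  push_cast at hp
  linarith only [hp]

theorem left_row {a T h μ : ℝ} (a0 : 35 / 100 ≤ a) (a1 : a ≤ 6 / 10) (T0 : -(78 / 1000) ≤ T)
    (T1 : T ≤ -(10 / 1000)) (h0 : 5 / 1000 ≤ h) (h1 : h ≤ 655 / 10000 + 38 / 100 * T)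
    (m0 : 0 ≤ μ) (m1 : μ ≤ 1 / 10) :
    gA a (4 * T * (6 / 10 - a)) h μ 1 < V57 a (4 * T * (6 / 10 - a)) h ∨
      gA a (4 * T * (6 / 10 - a)) h μ 1 < V77 a (4 * T * (6 / 10 - a)) := by
  have kv : ∀ μ : ℝ, ((q 4 1) : E).val [a, T, h, μ] = 4 := fun μ => by
    simp only [E.val]; norm_num
  have sv : ∀ μ : ℝ, ((q 1 1) : E).val [a, T, h, μ] = 1 := fun μ => by
    simp only [E.val]; norm_num
  have hc : chkT [sub (x57 (q 4 1)) (xGA (q 4 1) (q 1 1)), sub (x77 (q 4 1)) (xGA (q 4 1) (q 1 1)),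
      cN1] 28 249232996794751788398448833614500228357927375754685270675166114046318590260918054118921782987218575106578365465566343566657477248138861527447543219676522948904212651069648513542911944300649547359947535089127398782612095640879970089912242224 [V.of 10000 3500 6000 4, V.of 10000 (-780) (-100) 4, V.of 10000 50 620 4,
      V.of 10000 0 1000 4] = true := by
    decide +kernel
  obtain ⟨e, he, hp⟩ := chkT4 hc n0 (x := a) (y := T) (z := h) (w := μ)
    (bl (by push_cast; linarith only [a0])) (bu (by push_cast; linarith only [a1]))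
    (bl (by push_cast; linarith only [T0])) (bu (by push_cast; linarith only [T1]))
    (bl (by push_cast; linarith only [h0])) (bu (by push_cast; linarith only [T1, h1]))
    (bl (by push_cast; linarith only [m0])) (bu (by push_cast; linarith only [m1]))
  simp only [List.mem_cons, List.not_mem_nil, or_false] at he
  rcases he with rfl | rfl | rfl
  · left
    rw [E.val, x57_val (kv μ), xGA_val (kv μ) (sv μ)] at hp
    linarith only [hp]
  · right
    rw [E.val, x77_val (kv μ), xGA_val (kv μ) (sv μ)] at hp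
    linarith only [hp]
  · exact absurd (cN1_val hp) (by linarith only [h1])

def xNr : E := sub (x77 (q 4 1)) (add (neg (mul pi (add (mul (xt (q 4 1)) (var 3))
  (mul xH (sub (add (var 0) (var 3)) (q 1 2)))))) (add (q 1081 10000)
    (mul (mul pi (q 1 2)) (sub xH (xt (q 4 1))))))

theorem near_row {a T h μ : ℝ} (a0 : 52 / 100 ≤ a) (a1 : a ≤ 6 / 10) (T0 : -(78 / 1000) ≤ T)
    (T1 : T ≤ -(10 / 1000)) (h0 : 5 / 1000 ≤ h) (h1 : h ≤ 655 / 10000 + 38 / 100 * T)
    (m0 : 57 / 100 ≤ μ) (m1 : μ ≤ 65 / 100) (hx : |μ - a| ≤ 1 / 20) :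
    -(Real.pi * (4 * T * (6 / 10 - a) * μ + 5 * h * (77 / 100 - μ) * (a + μ - 1 / 2))) +
      (1081 / 10000 + Real.pi / 2 * (5 * h * (77 / 100 - μ) - 4 * T * (6 / 10 - a))) <
      V77 a (4 * T * (6 / 10 - a)) := by
  have kv : ∀ μ : ℝ, ((q 4 1) : E).val [a, T, h, μ] = 4 := fun μ => by
    simp only [E.val]; norm_num
  have hc : chkT [xNr, cN1, sub (sub (var 3) (var 0)) (q 5 100),
      sub (q (-5) 100) (sub (var 3) (var 0))] 28 157051922078687637536 [V.of 10000 5200 6000 4,
      V.of 10000 (-780) (-100) 4, V.of 10000 50 620 4, V.of 10000 5700 6500 4] = true := by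
    decide +kernel
  obtain ⟨e, he, hp⟩ := chkT4 hc n0 (x := a) (y := T) (z := h) (w := μ)
    (bl (by push_cast; linarith only [a0])) (bu (by push_cast; linarith only [a1]))
    (bl (by push_cast; linarith only [T0])) (bu (by push_cast; linarith only [T1]))
    (bl (by push_cast; linarith only [h0])) (bu (by push_cast; linarith only [T1, h1]))
    (bl (by push_cast; linarith only [m0])) (bu (by push_cast; linarith only [m1]))
  simp only [List.mem_cons, List.not_mem_nil, or_false] at he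
  obtain ⟨x0, x1⟩ := abs_le.1 hx
  rcases he with rfl | rfl | rfl | rfl
  · have e1 := x77_val (kv μ)
    simp only [xNr, E.val, e1] at hp
    simp only [xt, xH, E.val, lkR] at hp
    push_cast at hp
    linarith only [hp]
  · exact absurd (cN1_val hp) (by linarith only [h1])
  · simp only [E.val, lkR] at hp
    push_cast at hp
    exact absurd hp (by linarith only [x1, hp])
  · simp only [E.val, lkR] at hp
    push_cast at hp
    exact absurd hp (by linarith only [a1, m0, hp])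

end

/-- **The value of an end with three crossings next to a digit `1`, right ramp of the hinge.** -/
theorem val_one {T h μ a B : ℝ} {v : ℂ} (hT : HT .one T h) (H : MaxM v h μ) (hr : v.re = a)
    (hi : v.im = 4 * T * (6 / 10 - a)) (a0 : 35 / 100 ≤ a) (a1 : a ≤ 6 / 10)
    (rB : a + 1 / 20 ≤ μ → μ ≤ 57 / 100 → SLv a (4 * T * (6 / 10 - a)) h μ ≤ B)
    (rC : 57 / 100 ≤ μ → μ ≤ 77 / 100 → a + 1 / 20 ≤ μ → SRv a (4 * T * (6 / 10 - a)) h μ ≤ B) :
    Wm v (mpt h μ) ≤ B := by
  obtain ⟨T0, T1, h0, h1⟩ := hT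
  have hpi := Real.pi_pos
  have hp2 : Real.pi < 32 / 10 := by linarith only [Real.pi_lt_d2]
  have hh : |h| ≤ 655 / 10000 := by rw [abs_le]; constructor <;> linarith only [h0, T1, h1]
  have m0 := H.m0
  have m1 := H.m1
  set t := 4 * T * (6 / 10 - a) with ht
  have t0 : t ≤ 0 := by nlinarith only [a1, ht, T1]
  have t1 : T ≤ t := by nlinarith only [a0, ht, T1]
  have xb : (mpt h μ - v).re = μ - a := by rw [Complex.sub_re, mpt_re, hr]
  have hne := ne_hinge hr hi H (by linarith only [a0]) a1 hh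
  rcases le_or_gt μ (1 / 10) with c | c
  · -- left ramp
    have w := Wm_left (h := h) hr hi m0 c (σ := 1) (Or.inl rfl) (by nlinarith only [a1, m0, ht, T1, h0])
    have r0 := left_row a0 a1 T0 T1 h0 h1 m0 c
    rw [← ht] at r0
    rcases r0 with r | r
    · exact absurd (V57_le hr hi H) (by rw [w]; linarith only [r])
    · exact absurd (V77_le hr hi H) (by rw [w]; linarith only [r])
  have near : 57 / 100 ≤ μ → |μ - a| ≤ 1 / 20 → False := by
    intro d1 d2
    obtain ⟨x0, x1⟩ := abs_le.1 d2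
    have i := mpt_right (h := h) d1 m1
    have yb : (mpt h μ - v).im = 5 * h * (77 / 100 - μ) - t := by rw [Complex.sub_im, i, hi]
    have y0 : 0 ≤ 5 * h * (77 / 100 - μ) := by nlinarith only [a1, x1, h0, m1]
    have y1 : 5 * h * (77 / 100 - μ) ≤ h := by nlinarith only [d1, h0]
    have ya : |(mpt h μ - v).im| = 5 * h * (77 / 100 - μ) - t := by
      rw [yb, abs_of_nonneg (by linarith only [t0, y0])]
    have z := UU_zero_near (u := mpt h μ - v) (by rw [xb]; exact d2) (by rw [ya]; linarith only [T0, h1, t1, y1])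
    have r := near_row (by linarith only [d1, x1]) a1 T0 T1 h0 h1 d1 (by linarith only [a1, x1]) d2
    rw [← ht] at r
    have l := V77_le hr hi H
    rw [Wm_val, mpt_re, i, hr, hi] at l
    rw [ya] at z
    linarith only [z, r, l]
  rcases le_or_gt μ (57 / 100) with c1 | c1
  · rcases c1.eq_or_lt with c2 | c2
    · rcases le_or_gt (|μ - a|) (1 / 20) with w | w
      · exact (near c2.ge w).elim
      · have w' : a + 1 / 20 ≤ μ := by
          rcases lt_abs.1 w with w | w
          · linarith only [w]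
          · linarith only [a1, c2, w]
        have i := mpt_mid (h := h) c.le c1
        have r := rB w' c1
        unfold SLv at r
        rw [Wm_val, UU_uu, xb, Complex.sub_im, mpt_re, i, hr, hi]
        linarith only [r]
    · rcases lt_or_ge μ a with w | w
      · exact (level_false hr hi H c c2 w a1).elim
      rcases lt_or_ge μ (a + 1 / 20) with w' | w'
      · -- too close to the hinge
        have i := mpt_mid (h := h) c.le c1
        have yb : (mpt h μ - v).im = h - t := by rw [Complex.sub_im, i, hi]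
        have hsin : Complex.sin (Real.pi * (mpt h μ - v)) ≠ 0 := by
          rcases hne with h2 | h2
          · apply sin_ne_of_re (abs_pos.2 h2)
            rw [xb, abs_lt]
            constructor <;> linarith only [w, a0, m1]
          · exact sin_ne_of_im h2
        have l := H.level_right c.le c2 hsin
        have y0 : 0 ≤ h - t := by linarith only [h0, t0]
        have y1 : h - t ≤ 114 / 1000 := by linarith only [T0, h1, t1]
        have k := LL_le_half (u := mpt h μ - v) (by rw [yb, abs_of_nonneg y0]; linarith only [T0, h1, t1]) hne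
          (by rw [xb, abs_of_nonneg (by linarith only [w])]; linarith only [a0, m1])
        rw [xb, yb] at k
        rw [hi] at l
        have k1 : (μ - a) ^ 2 ≤ (1 / 20) ^ 2 :=
          pow_le_pow_left₀ (by linarith only [w]) (by linarith only [w']) 2
        have k2 : (h - t) ^ 2 ≤ 114 / 1000 * (h - t) := by nlinarith only [h1, T0, h0, t0, T1, t1]
        have k3 : (h - t) ^ 2 * (1 + 1106 / 100 * (h - t) ^ 2) ≤ 131 / 1000 * (h - t) := by
          have k4 : (h - t) ^ 2 ≤ (114 / 1000) ^ 2 := pow_le_pow_left₀ y0 y1 2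
          have k5 : 1 + 1106 / 100 * (h - t) ^ 2 ≤ 1144 / 1000 := by linarith only [T0, h1, t1, k2]
          have k6 := mul_le_mul k2 k5 (by positivity) (by linarith only [h0, t0])
          linarith only [h0, t0, k6]
        have k7 : Real.pi * (t + h) ≤ 32 / 10 * (66 / 1000) := by
          rcases le_total 0 (t + h) with g | g
          · exact mul_le_mul hp2.le (by linarith only [T1, h1, t0]) g (by norm_num)
          · have := mul_nonpos_of_nonneg_of_nonpos hpi.le g
            linarith only [T0, h1, t1, l, k, k1, k3, this]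
        have k8 : 0 ≤ 5 * (h - t) - 0 := by linarith only [l, k, k1, k3, k7]
        have k9 : Real.pi * (t + h) ≤ 32 / 10 * (h + t) ∨ h + t ≤ 0 := by
          rcases le_total 0 (t + h) with g | g
          · left
            rw [add_comm h t]
            exact mul_le_mul_of_nonneg_right hp2.le g
          · right
            linarith only [h1, t1, l, k, k1, k3, k7]
        rcases k9 with k9 | k9
        · nlinarith only [h1, t1, l, k, k1, k3, k7, k9]
        · have := mul_nonpos_of_nonneg_of_nonpos hpi.le (show t + h ≤ 0 by linarith only [h1, t1, l, k, k1, k3, k7])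
          nlinarith only [T0, h1, t1, l, k, k1, k3, this]
      · have i := mpt_mid (h := h) c.le c1
        have r := rB w' c1
        unfold SLv at r
        rw [Wm_val, UU_uu, xb, Complex.sub_im, mpt_re, i, hr, hi]
        linarith only [r]
  · rcases le_or_gt (|μ - a|) (1 / 20) with w | w
    · exact (near c1.le w).elim
    · have w' : a + 1 / 20 ≤ μ := by
        rcases lt_abs.1 w with w | w
        · linarith only [w]
        · linarith only [a1, c1, w]
      have i := mpt_right (h := h) c1.le m1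
      have r := rC c1.le m1 w'
      unfold SRv at r
      rw [Wm_val, UU_uu, xb, Complex.sub_im, mpt_re, i, hr, hi]
      linarith only [r]

end L3

end Pool.Agent.Work.MP_b30479_gtS.G2

end

section

/-!
# Value moves of a hinge between a digit `1` and an end with three crossings: rows

The hinge is moved from its right ramp to the point `c` of its level and the inner variable of the
end to `c + 1/6 - 577/1000 (T + h)`.  The changes of the two regions are compared with a bilinear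
function of the position of the hinge and of its height.
-/

namespace Pool.Agent.Work.MP_b30479_gtS.G2

open Finset VOL Filter Topology

namespace L3

open NumIs (V lkR)
open NumUs NumUs.E

/-! ### the comparison function -/

noncomputable def fr (m t x0 x1 x2 x3 : ℤ) (a S : ℝ) : ℝ := (x0 : ℝ) / 100000 +
  (x1 : ℝ) / 10000 * (a - (m : ℝ) / 100) + ((x2 : ℝ) / 10000 * (S - (t : ℝ) / 10000) +
    (x3 : ℝ) / 10000 * ((a - (m : ℝ) / 100) * (S - (t : ℝ) / 10000)))

def fe (m t x0 x1 x2 x3 : ℤ) (S : E) : E :=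
  add (add (q x0 100000) (mul (q x1 10000) (sub (var 0) (q m 100))))
    (add (mul (q x2 10000) (sub S (q t 10000)))
      (mul (q x3 10000) (mul (sub (var 0) (q m 100)) (sub S (q t 10000)))))

theorem fe_val {m t x0 x1 x2 x3 : ℤ} {S : E} {a s : ℝ} {l : List ℝ} (h : S.val (a :: l) = s) :
    (fe m t x0 x1 x2 x3 S).val (a :: l) = fr m t x0 x1 x2 x3 a s := by
  simp only [fe, fr, E.val, lkR, h]
  push_cast
  ring

/-! ### the end with three crossings -/

/-- the value after the move -/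
noncomputable def tg (c T h : ℝ) : ℝ :=
  -(Real.pi * (T * (c + (1 / 6 - 577 / 1000 * (T + h))) +
    h * (2 * c + (1 / 6 - 577 / 1000 * (T + h)) - 1 / 2)) +
      uu (1 / 6 - 577 / 1000 * (T + h)) (h - T)) - uu c T

theorem tg_eq {v : ℂ} {c T h : ℝ} (hr : v.re = c) (hi : v.im = T)
    (h0 : 1 / 10 ≤ c + (1 / 6 - 577 / 1000 * (T + h)))
    (h1 : c + (1 / 6 - 577 / 1000 * (T + h)) ≤ 57 / 100) :
    Wm v (mpt h (c + (1 / 6 - 577 / 1000 * (T + h)))) - UU v = tg c T h := by
  have i := mpt_mid (h := h) h0 h1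
  rw [Wm_val, UU_uu, UU_uu, Complex.sub_re, Complex.sub_im, mpt_re, i, hr, hi]
  unfold tg
  rw [show c + (1 / 6 - 577 / 1000 * (T + h)) - c = 1 / 6 - 577 / 1000 * (T + h) by ring]
  ring

def xp : E := sub (q 1 6) (mul (q 577 1000) (add (var 1) (var 2)))

def xtg (c : E) : E := sub (neg (add (mul pi (add (mul (var 1) (add c xp))
  (mul (var 2) (sub (add (mul (q 2 1) c) xp) (q 1 2))))) (E.uu xp (sub (var 2) (var 1)))))
    (E.uu c (var 1))

def xSL : E := neg (add (mul pi (add (mul (xt (q 4 1)) (var 3))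
  (mul (var 2) (sub (add (var 0) (var 3)) (q 1 2))))) (E.uu (sub (var 3) (var 0))
    (sub (var 2) (xt (q 4 1)))))

def xSR : E := neg (add (mul pi (add (mul (xt (q 4 1)) (var 3))
  (mul xH (sub (add (var 0) (var 3)) (q 1 2))))) (E.uu (sub (var 3) (var 0))
    (sub xH (xt (q 4 1)))))

/-- `κ / 10000 + T / 3 - h` -/
def xK (κ : ℤ) : E := sub (add (q κ 10000) (mul (q 1 3) (var 1))) (var 2)

def alt3 (X c f : E) (κ : ℤ) : List E :=
  [sub (sub (add (xtg c) (E.uu (var 0) (xt (q 4 1)))) X) f, cN1, xK κ,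
    sub (q 5 100) (sub (var 3) (var 0))]

section
variable {a T h μ : ℝ} {c f : E} {γ φ : ℝ} {κ a0 a1 T0 T1 m0 m1 : ℤ} {n ce : ℕ}

theorem four_val {l : List ℝ} : ((q 4 1) : E).val l = 4 := by
  simp only [E.val]; norm_num

theorem row3_of {X : E} {ξ : ℝ} (hX : X.val [a, T, h, μ] = ξ)
    (hc : chkT (alt3 X c f κ) n ce [V.of 10000 a0 a1 4, V.of 10000 T0 T1 4, V.of 10000 50 620 4,
      V.of 10000 m0 m1 4] = true)
    (ha : (a0 : ℝ) ≤ 10000 * a ∧ 10000 * a ≤ (a1 : ℝ))
    (hT : (T0 : ℝ) ≤ 10000 * T ∧ 10000 * T ≤ (T1 : ℝ))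
    (hm : (m0 : ℝ) ≤ 10000 * μ ∧ 10000 * μ ≤ (m1 : ℝ))
    (hh : 5 / 1000 ≤ h) (hh' : h ≤ 62 / 1000) (h1 : h ≤ 655 / 10000 + 38 / 100 * T)
    (hk : (κ : ℝ) / 10000 + 1 / 3 * T ≤ h) (hx : a + 1 / 20 ≤ μ)
    (cv : c.val [a, T, h, μ] = γ) (fv : f.val [a, T, h, μ] = φ) :
    ξ ≤ tg γ T h + uu a (4 * T * (6 / 10 - a)) - φ := by
  obtain ⟨e, he, hp⟩ := chkT4 hc n0 (x := a) (y := T) (z := h) (w := μ)
    (bl ha.1) (bu ha.2) (bl hT.1) (bu hT.2) (bl (by push_cast; linarith only [hh]))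
    (bu (by push_cast; linarith only [hh'])) (bl hm.1) (bu hm.2)
  simp only [alt3, List.mem_cons, List.not_mem_nil, or_false] at he
  rcases he with rfl | rfl | rfl | rfl
  · have e1 : (xtg c).val [a, T, h, μ] = tg γ T h := by
      simp only [xtg, xp, tg, E.val, lkR, cv]
      push_cast
      simp only [div_one]
    have e2 : (xt (q 4 1)).val [a, T, h, μ] = 4 * T * (6 / 10 - a) := by
      simp only [xt, E.val, lkR]
      push_cast
      simp only [div_one]
    simp only [E.val, e1, e2, fv, hX, lkR] at hp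
    linarith only [hp]
  · exact absurd (cN1_val hp) (by linarith only [h1])
  · simp only [xK, E.val, lkR] at hp
    push_cast at hp
    exact absurd hp (by linarith only [hk, hp])
  · simp only [E.val, lkR] at hp
    push_cast at hp
    exact absurd hp (by linarith only [hx, hp])

theorem xSL_val : xSL.val [a, T, h, μ] = SLv a (4 * T * (6 / 10 - a)) h μ := by
  simp only [xSL, xt, SLv, E.val, lkR]
  push_cast
  simp only [div_one]

theorem xSR_val : xSR.val [a, T, h, μ] = SRv a (4 * T * (6 / 10 - a)) h μ := by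
  simp only [xSR, xt, xH, SRv, E.val, lkR]
  push_cast
  simp only [div_one]

end

/-! ### the digit `1` -/

/-- change of the value of the digit `1`: the hinge is moved from `a` to `c`; `k`, `τ`: position and
height of the other hinge -/
noncomputable def D1 (c a T k τ : ℝ) : ℝ :=
  Real.pi * ((c - a) * τ + (T - 4 * T * (6 / 10 - a)) * (k - 1)) +
    (uu (c + k) (T + τ) - uu (a + k) (4 * T * (6 / 10 - a) + τ)) +
    (uu a (4 * T * (6 / 10 - a)) - uu c T)

def xT : E := mul (mul (q 4 1) (var 1)) (sub (q 6 10) (var 0))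

/-- `tp` the height of the other hinge, `G` a lower bound of `uu (c + k) (T + τ)`, `U` an upper
bound of `uu (a + k) (t + τ)` -/
def vB (c tp G U f : E) : E :=
  add (add (add (mul pi (add (mul (sub c (var 0)) tp) (mul (sub (var 1) xT) (sub (var 2) (q 1 1)))))
    (sub G U)) (sub (E.uu (var 0) xT) (E.uu c (var 1)))) f

/-- the two lower bounds -/
def gU (c tp : E) : E := E.uu (add c (var 2)) (add (var 1) tp)
def gL (tp : E) : E := mul (mul pi (q 1 2)) (add (var 1) tp)

/-- the upper bounds -/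
def uA (tp : E) : E := E.uu (add (var 0) (var 2)) (add xT tp)
def uN (m n : ℤ) (tp sg : E) : E := add (add (q m 10000) (mul (q n 1000) (sub (q 1 1)
  (add (var 0) (var 2))))) (mul (mul (q 1 2) pi) (mul sg (add xT tp)))
def uH (tp sg : E) : E := mul (mul (q 1 2) pi) (mul sg (add xT tp))
def uB (tp sg : E) : E := add (E.uu (sub (add (var 0) (var 2)) (q 1 1)) (add xT tp))
  (mul pi (mul sg (add xT tp)))

/-- constraints: `T + K ≤ s1`, `s0 ≤ T + K` (variables `a T k K`) -/
def cS1 (s : ℤ) : E := sub (add (var 1) (var 3)) (q s 10000)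
def cS0 (s : ℤ) : E := sub (q s 10000) (add (var 1) (var 3))
/-- constraints: `a + k ≤ s`, `s ≤ a + k` -/
def cA1 (s : ℤ) : E := sub (add (var 0) (var 2)) (q s 10000)
def cA0 (s : ℤ) : E := sub (q s 10000) (add (var 0) (var 2))
/-- constraint on the sign of the height of the sum -/
def cY (tp sg : E) : E := neg (mul sg (add xT tp))

def altI (c tp G f : E) (s0 s1 S1 : ℤ) : List E :=
  [vB c tp G (uA tp) f, cS1 s1, cS0 s0, cA1 S1]

def altN (c tp G f sg : E) (s0 s1 : ℤ) : List E :=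
  [vB c tp G (uA tp) f, vB c tp G (uN 102 2770 tp sg) f, vB c tp G (uN 302 1673 tp sg) f,
    cY tp sg, cS1 s1, cS0 s0, cA1 10000, cA0 9500]

def altH (c tp G f sg : E) (s0 s1 : ℤ) : List E :=
  [vB c tp G (uB tp sg) f, vB c tp G (uH tp sg) f, cY tp sg, cS1 s1, cS0 s0, cA1 10700,
    cA0 10000]

def altB (c tp G f sg : E) (s0 s1 : ℤ) : List E :=
  [vB c tp G (uB tp sg) f, cY tp sg, cS1 s1, cS0 s0, cA0 10700]

section
variable {a T k K : ℝ} {c tp G U f sg : E} {γ τ σ φ : ℝ}
variable {a0 a1 T0 T1 k0 k1 K0 K1 s0 s1 S1 : ℤ} {n ce : ℕ}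

theorem xT_val : xT.val [a, T, k, K] = 4 * T * (6 / 10 - a) := by
  simp only [xT, E.val, lkR]
  push_cast
  simp only [div_one]

theorem vB_pos (hp : 0 < (vB c tp G U f).val [a, T, k, K]) (cv : c.val [a, T, k, K] = γ)
    (tv : tp.val [a, T, k, K] = τ) (fv : f.val [a, T, k, K] = φ)
    (hG : G.val [a, T, k, K] ≤ uu (γ + k) (T + τ))
    (hU : uu (a + k) (4 * T * (6 / 10 - a) + τ) ≤ U.val [a, T, k, K]) : 0 < D1 γ a T k τ + φ := by
  simp only [vB, E.val, cv, tv, fv, xT_val, lkR] at hp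
  push_cast at hp
  unfold D1
  linarith only [hG, hU, hp]

/-- data of a row -/
structure Row1 (c tp G f : E) (a T k K γ τ φ : ℝ) (s0 s1 : ℤ) : Prop where
  cv : c.val [a, T, k, K] = γ
  tv : tp.val [a, T, k, K] = τ
  fv : f.val [a, T, k, K] = φ
  hG : G.val [a, T, k, K] ≤ uu (γ + k) (T + τ)
  h0 : (s0 : ℝ) / 10000 ≤ T + K
  h1 : T + K ≤ (s1 : ℝ) / 10000

theorem Row1.cS1 (R : Row1 c tp G f a T k K γ τ φ s0 s1) :
    ¬ 0 < (L3.cS1 s1).val [a, T, k, K] := by
  simp only [L3.cS1, E.val, lkR]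
  push_cast
  linarith only [R, R.h1]

theorem Row1.cS0 (R : Row1 c tp G f a T k K γ τ φ s0 s1) :
    ¬ 0 < (L3.cS0 s0).val [a, T, k, K] := by
  simp only [L3.cS0, E.val, lkR]
  push_cast
  linarith only [R, R.h0]

theorem cA1_not {s : ℤ} (h : a + k ≤ (s : ℝ) / 10000) : ¬ 0 < (cA1 s).val [a, T, k, K] := by
  simp only [cA1, E.val, lkR]
  push_cast
  linarith only [h]

theorem cA0_not {s : ℤ} (h : (s : ℝ) / 10000 ≤ a + k) : ¬ 0 < (cA0 s).val [a, T, k, K] := by
  simp only [cA0, E.val, lkR]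
  push_cast
  linarith only [h]

theorem cY_not (tv : tp.val [a, T, k, K] = τ) (sv : sg.val [a, T, k, K] = σ)
    (h : 0 ≤ σ * (4 * T * (6 / 10 - a) + τ)) : ¬ 0 < (cY tp sg).val [a, T, k, K] := by
  simp only [cY, E.val, xT_val, tv, sv]
  linarith only [h]

theorem abs_sg {y : ℝ} (hσ : σ = 1 ∨ σ = -1) (h : 0 ≤ σ * y) : |y| = σ * y := by
  rcases hσ with rfl | rfl
  · rw [abs_of_nonneg (by linarith only [h])]; ring
  · rw [abs_of_nonpos (by linarith only [h])]; ring

theorem rowI1 (R : Row1 c tp G f a T k K γ τ φ s0 s1)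
    (hc : chkT (altI c tp G f s0 s1 S1) n ce [V.of 10000 a0 a1 4, V.of 10000 T0 T1 4,
      V.of 10000 k0 k1 4, V.of 10000 K0 K1 4] = true)
    (ha : (a0 : ℝ) ≤ 10000 * a ∧ 10000 * a ≤ (a1 : ℝ))
    (hT : (T0 : ℝ) ≤ 10000 * T ∧ 10000 * T ≤ (T1 : ℝ))
    (hk : (k0 : ℝ) ≤ 10000 * k ∧ 10000 * k ≤ (k1 : ℝ))
    (hK : (K0 : ℝ) ≤ 10000 * K ∧ 10000 * K ≤ (K1 : ℝ)) (hS : a + k ≤ (S1 : ℝ) / 10000) :
    0 < D1 γ a T k τ + φ := by
  obtain ⟨e, he, hp⟩ := chkT4 hc n0 (x := a) (y := T) (z := k) (w := K)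
    (bl ha.1) (bu ha.2) (bl hT.1) (bu hT.2) (bl hk.1) (bu hk.2) (bl hK.1) (bu hK.2)
  simp only [altI, List.mem_cons, List.not_mem_nil, or_false] at he
  rcases he with rfl | rfl | rfl | rfl
  · refine vB_pos hp R.cv R.tv R.fv R.hG ?_
    simp only [uA, E.val, xT_val, R.tv, lkR]
    exact le_rfl
  · exact absurd hp R.cS1
  · exact absurd hp R.cS0
  · exact absurd hp (cA1_not hS)

theorem rowN1 (R : Row1 c tp G f a T k K γ τ φ s0 s1) (sv : sg.val [a, T, k, K] = σ)
    (hσ : σ = 1 ∨ σ = -1)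
    (hc : chkT (altN c tp G f sg s0 s1) n ce [V.of 10000 a0 a1 4, V.of 10000 T0 T1 4,
      V.of 10000 k0 k1 4, V.of 10000 K0 K1 4] = true)
    (ha : (a0 : ℝ) ≤ 10000 * a ∧ 10000 * a ≤ (a1 : ℝ))
    (hT : (T0 : ℝ) ≤ 10000 * T ∧ 10000 * T ≤ (T1 : ℝ))
    (hk : (k0 : ℝ) ≤ 10000 * k ∧ 10000 * k ≤ (k1 : ℝ))
    (hK : (K0 : ℝ) ≤ 10000 * K ∧ 10000 * K ≤ (K1 : ℝ)) (hS0 : 95 / 100 ≤ a + k)
    (hS : a + k ≤ 1) (hy : 0 ≤ σ * (4 * T * (6 / 10 - a) + τ)) :
    0 < D1 γ a T k τ + φ := by
  have hpi := Real.pi_pos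
  obtain ⟨e, he, hp⟩ := chkT4 hc n0 (x := a) (y := T) (z := k) (w := K)
    (bl ha.1) (bu ha.2) (bl hT.1) (bu hT.2) (bl hk.1) (bu hk.2) (bl hK.1) (bu hK.2)
  have near : uu (a + k) (4 * T * (6 / 10 - a) + τ) ≤
      lam (1 - (a + k)) + Real.pi / 2 * (σ * (4 * T * (6 / 10 - a) + τ)) := by
    have := UU_near (u := ⟨a + k, 4 * T * (6 / 10 - a) + τ⟩) hS
    rw [← abs_sg hσ hy]
    exact this
  have l1 := lam_le_a (x := 1 - (a + k)) (by linarith only [hS]) (by linarith only [hS0])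
  have l2 := lam_le_b (x := 1 - (a + k)) (by linarith only [hS]) (by linarith only [hS0])
  simp only [altN, List.mem_cons, List.not_mem_nil, or_false] at he
  rcases he with rfl | rfl | rfl | rfl | rfl | rfl | rfl | rfl
  · refine vB_pos hp R.cv R.tv R.fv R.hG ?_
    simp only [uA, E.val, xT_val, R.tv, lkR]
    exact le_rfl
  · refine vB_pos hp R.cv R.tv R.fv R.hG ?_
    simp only [uN, E.val, xT_val, R.tv, sv, lkR]
    push_cast
    linarith only [near, l1]
  · refine vB_pos hp R.cv R.tv R.fv R.hG ?_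
    simp only [uN, E.val, xT_val, R.tv, sv, lkR]
    push_cast
    linarith only [near, l2]
  · exact absurd hp (cY_not R.tv sv hy)
  · exact absurd hp R.cS1
  · exact absurd hp R.cS0
  · exact absurd hp (cA1_not (by push_cast; linarith only [hS]))
  · exact absurd hp (cA0_not (by push_cast; linarith only [hS0]))

theorem uu_shift {x y : ℝ} (hσ : σ = 1 ∨ σ = -1) (hy : 0 ≤ σ * y) :
    uu x y = uu (x - 1) y + Real.pi * (σ * y) := by
  have := uu_add_one (x - 1) y
  rw [sub_add_cancel, abs_sg hσ hy] at this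
  exact this

theorem rowH1 (R : Row1 c tp G f a T k K γ τ φ s0 s1) (sv : sg.val [a, T, k, K] = σ)
    (hσ : σ = 1 ∨ σ = -1)
    (hc : chkT (altH c tp G f sg s0 s1) n ce [V.of 10000 a0 a1 4, V.of 10000 T0 T1 4,
      V.of 10000 k0 k1 4, V.of 10000 K0 K1 4] = true)
    (ha : (a0 : ℝ) ≤ 10000 * a ∧ 10000 * a ≤ (a1 : ℝ))
    (hT : (T0 : ℝ) ≤ 10000 * T ∧ 10000 * T ≤ (T1 : ℝ))
    (hk : (k0 : ℝ) ≤ 10000 * k ∧ 10000 * k ≤ (k1 : ℝ))
    (hK : (K0 : ℝ) ≤ 10000 * K ∧ 10000 * K ≤ (K1 : ℝ)) (hS0 : 1 ≤ a + k)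
    (hS : a + k ≤ 107 / 100) (hy : 0 ≤ σ * (4 * T * (6 / 10 - a) + τ))
    (hy' : σ * (4 * T * (6 / 10 - a) + τ) ≤ 135 / 1000) :
    0 < D1 γ a T k τ + φ := by
  have hpi := Real.pi_pos
  obtain ⟨e, he, hp⟩ := chkT4 hc n0 (x := a) (y := T) (z := k) (w := K)
    (bl ha.1) (bu ha.2) (bl hT.1) (bu hT.2) (bl hk.1) (bu hk.2) (bl hK.1) (bu hK.2)
  have beyond : uu (a + k) (4 * T * (6 / 10 - a) + τ) ≤
      Real.pi / 2 * (σ * (4 * T * (6 / 10 - a) + τ)) := by
    have := UU_beyond (u := ⟨a + k, 4 * T * (6 / 10 - a) + τ⟩) hS0 hS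
      (by show |4 * T * (6 / 10 - a) + τ| ≤ _; rw [abs_sg hσ hy]; exact hy')
    rw [← abs_sg hσ hy]
    exact this
  have shift := uu_shift (x := a + k) hσ hy
  simp only [altH, List.mem_cons, List.not_mem_nil, or_false] at he
  rcases he with rfl | rfl | rfl | rfl | rfl | rfl | rfl
  · refine vB_pos hp R.cv R.tv R.fv R.hG ?_
    simp only [uB, E.val, xT_val, R.tv, sv, lkR]
    push_cast
    rw [shift, div_one]
  · refine vB_pos hp R.cv R.tv R.fv R.hG ?_
    simp only [uH, E.val, xT_val, R.tv, sv]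
    push_cast
    linarith only [beyond]
  · exact absurd hp (cY_not R.tv sv hy)
  · exact absurd hp R.cS1
  · exact absurd hp R.cS0
  · exact absurd hp (cA1_not (by push_cast; linarith only [hS]))
  · exact absurd hp (cA0_not (by push_cast; linarith only [hS0]))

theorem rowB1 (R : Row1 c tp G f a T k K γ τ φ s0 s1) (sv : sg.val [a, T, k, K] = σ)
    (hσ : σ = 1 ∨ σ = -1)
    (hc : chkT (altB c tp G f sg s0 s1) n ce [V.of 10000 a0 a1 4, V.of 10000 T0 T1 4,
      V.of 10000 k0 k1 4, V.of 10000 K0 K1 4] = true)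
    (ha : (a0 : ℝ) ≤ 10000 * a ∧ 10000 * a ≤ (a1 : ℝ))
    (hT : (T0 : ℝ) ≤ 10000 * T ∧ 10000 * T ≤ (T1 : ℝ))
    (hk : (k0 : ℝ) ≤ 10000 * k ∧ 10000 * k ≤ (k1 : ℝ))
    (hK : (K0 : ℝ) ≤ 10000 * K ∧ 10000 * K ≤ (K1 : ℝ)) (hS0 : 107 / 100 ≤ a + k)
    (hy : 0 ≤ σ * (4 * T * (6 / 10 - a) + τ)) :
    0 < D1 γ a T k τ + φ := by
  obtain ⟨e, he, hp⟩ := chkT4 hc n0 (x := a) (y := T) (z := k) (w := K)
    (bl ha.1) (bu ha.2) (bl hT.1) (bu hT.2) (bl hk.1) (bu hk.2) (bl hK.1) (bu hK.2)
  have shift := uu_shift (x := a + k) hσ hy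
  simp only [altB, List.mem_cons, List.not_mem_nil, or_false] at he
  rcases he with rfl | rfl | rfl | rfl | rfl
  · refine vB_pos hp R.cv R.tv R.fv R.hG ?_
    simp only [uB, E.val, xT_val, R.tv, sv, lkR]
    push_cast
    rw [shift, div_one]
  · exact absurd hp (cY_not R.tv sv hy)
  · exact absurd hp R.cS1
  · exact absurd hp R.cS0
  · exact absurd hp (cA0_not (by push_cast; linarith only [hS0]))

/-- the lower bound near one -/
theorem gL_le (tv : tp.val [a, T, k, K] = τ)
    (h0 : 93 / 100 ≤ γ + k) (h1 : γ + k ≤ 1) (hy : |T + τ| ≤ 135 / 1000) :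
    (gL tp).val [a, T, k, K] ≤ uu (γ + k) (T + τ) := by
  have hpi := Real.pi_pos
  have := UU_below (u := ⟨γ + k, T + τ⟩) h0 h1 hy
  have h2 : Real.pi / 2 * (T + τ) ≤ Real.pi / 2 * |T + τ| :=
    mul_le_mul_of_nonneg_left (le_abs_self _) (by positivity)
  simp only [gL, E.val, tv, lkR]
  push_cast
  refine le_trans ?_ (h2.trans this)
  linarith only []

theorem gU_le (cv : c.val [a, T, k, K] = γ) (tv : tp.val [a, T, k, K] = τ) :
    (gU c tp).val [a, T, k, K] ≤ uu (γ + k) (T + τ) := by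
  simp only [gU, E.val, tv, cv, lkR]
  exact le_rfl

end

theorem tr01 (XM cl cr x : ℝ) : 0 ≤ tr 0 XM cl cr x ∧ tr 0 XM cl cr x ≤ 1 :=
  ⟨le_max_left _ _, max_le zero_le_one (min_le_left _ _)⟩

/-- bounds of the heights -/
theorem hts {a T K r : ℝ} (a0 : 35 / 100 ≤ a) (a1 : a ≤ 6 / 10) (T0 : 0 ≤ T) (T1 : T ≤ 1 / 10)
    (r0 : 0 ≤ r) (r1 : r ≤ 1) (K0 : -(1 / 10) ≤ K) (K1 : K ≤ 1 / 10) (S1 : T + K ≤ 134 / 1000) :
    |4 * T * (6 / 10 - a) + K * r| ≤ 135 / 1000 ∧ |T + K * r| ≤ 135 / 1000 := by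
  have h1 : 0 ≤ 4 * T * (6 / 10 - a) := mul_nonneg (by linarith only [T0]) (by linarith only [a1])
  have h2 : 4 * T * (6 / 10 - a) ≤ T := by nlinarith only [a0, T0]
  rcases le_total 0 K with h | h
  · have h3 : 0 ≤ K * r := mul_nonneg h r0
    have h4 : K * r ≤ K := by nlinarith only [r1, h]
    rw [abs_of_nonneg (by linarith only [h1, h3]), abs_of_nonneg (by linarith only [T0, h3])]
    constructor <;> linarith only [S1, h2, h4]
  · have h3 : K * r ≤ 0 := mul_nonpos_of_nonpos_of_nonneg h r0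
    have h4 : K ≤ K * r := by nlinarith only [r1, h]
    rw [abs_le, abs_le]
    refine ⟨⟨?_, ?_⟩, ?_, ?_⟩ <;> linarith only [K0, h1, h4, T1, h2, h3, T0]

end L3

end Pool.Agent.Work.MP_b30479_gtS.G2

end
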