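import Pool.Agent.Work.MP_b30479_gt.TBS.G2.ZRows
import Pool.Agent.Work.MP_b30479_gt.TBS.G2.ML3r
import Pool.Agent.Work.MP_b30479_gt.TBS.G2.RngG
import Pool.Agent.Work.MP_b30479_gt.TBS.G2.TRb
import Pool.Agent.Work.MP_b30479_gt.TBS.G2.MDc

section

/-!
# Modes at rings, side of `D`: the lower end of the mode path, analytic part

`rh a y = uu a y - π (a - 1/2) y` is the part of `uu` which decreases exponentially with the height.
`FF w a k2 x Y`: the terms of `D` minus their limit, for one crossing (`w = 1`) or two (`w = 2`).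
`step`: monotonicity of the function in the rows; `crudeF`, `crudeH`: heights `Y ≥ k2` and
`a ∈ [1/2, 1]` or `a ∈ [1, 3/2]`.
-/

set_option deprecated.oldSectionVars true

namespace Pool.Agent.Work.MP_b30479_gtS.G2

open VOL NumUs

namespace ZD

namespace RB

/-- the exponentially small part of `uu` -/
noncomputable def rh (a y : ℝ) : ℝ := uu a y - Real.pi * (a - 1 / 2) * y

theorem rh_add_one {a y : ℝ} (hy : 0 ≤ y) : rh (a + 1) y = rh a y := by
  unfold rh
  rw [uu_add_one, abs_of_nonneg hy]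
  ring

theorem rh_one_sub (a y : ℝ) : rh (1 - a) y = -rh a y := by
  unfold rh
  rw [uu_one_sub]
  ring

theorem rh_anti {a y y' : ℝ} (h0 : 1 / 2 ≤ a) (h1 : a ≤ 1) (hy : 0 ≤ y) (h : y ≤ y') :
    rh a y' ≤ rh a y := by
  have h2 := anti_one (f := fun y => uu a y - Real.pi * (a - 1 / 2) * y)
    (f' := fun y => YY ⟨a, y⟩ - Real.pi * (a - 1 / 2)) 0 h
    ((continuous_uu_y a).sub (by fun_prop)) (by
      intro t h2 _ _
      have ht : 0 < t := by linarith only [hy, h2]
      refine ⟨(hasDerivAt_uu_y (Or.inl ht.ne')).sub (by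
        simpa using (hasDerivAt_id t).const_mul (Real.pi * (a - 1 / 2))), ?_⟩
      rw [YY_mk_pos ht]
      have := Tr_le_pi_mul h0 h1 ht
      linarith only [this])
  exact h2

theorem Lr_le_pi {s x : ℝ} (hs : 0 < s) (h0 : 0 ≤ x) (h1 : x ≤ 1 / 2) :
    DT.Lr s x ≤ Real.pi * x * s := by
  have hpi := Real.pi_pos
  have hd : deriv (fun x => DT.Lr s x) = fun x => DT.el s x := by
    funext r
    exact (DT.hasDerivAt_Lr hs).deriv
  have hc : ConvexOn ℝ (Set.Icc (0 : ℝ) (1 / 2)) (fun x => DT.Lr s x) := by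
    apply MonotoneOn.convexOn_of_deriv (convex_Icc _ _)
    · exact fun r _ => (DT.hasDerivAt_Lr hs).continuousAt.continuousWithinAt
    · exact fun r _ => (DT.hasDerivAt_Lr hs).differentiableAt.differentiableWithinAt
    · rw [interior_Icc, hd]
      intro p hp q hq hpq
      have a1 := DT.LrDer.cosh_gt_cos (v := p) hs
      have a2 := DT.LrDer.cosh_gt_cos (v := q) hs
      have a3 : Real.cos (2 * Real.pi * q) ≤ Real.cos (2 * Real.pi * p) := by
        apply Real.cos_le_cos_of_nonneg_of_le_pi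
        · have := hp.1
          positivity
        · nlinarith only [hpi, hq, hq.2]
        · nlinarith only [hpi, hpq]
      have a4 := Real.log_le_log (show 0 < 2 * Real.cosh (2 * Real.pi * s) -
        2 * Real.cos (2 * Real.pi * p) by linarith only [a1]) (show 2 * Real.cosh (2 * Real.pi * s) -
        2 * Real.cos (2 * Real.pi * p) ≤ 2 * Real.cosh (2 * Real.pi * s) -
        2 * Real.cos (2 * Real.pi * q) by linarith only [a3])
      simp only [DT.el]
      linarith only [a4]
  have h2 := hc.2 (Set.left_mem_Icc.mpr (by norm_num)) (Set.right_mem_Icc.mpr (by norm_num))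
    (show 0 ≤ 1 - 2 * x by linarith only [h1]) (show 0 ≤ 2 * x by linarith only [h0]) (by ring)
  simp only [smul_eq_mul, mul_zero, zero_add] at h2
  rw [show 2 * x * (1 / 2) = x by ring, DT.Lr_half hs.le, DT.Lr_zero_right] at h2
  linarith only [h2]

theorem rh_nonneg_pos {a y : ℝ} (h0 : 1 / 2 ≤ a) (h1 : a ≤ 1) (hy : 0 < y) : 0 ≤ rh a y := by
  have h2 := Lr_le_pi hy (x := 1 - a) (by linarith only [h1]) (by linarith only [h0])
  have h3 := rh_one_sub a y
  have h4 : rh (1 - a) y = DT.Lr y (1 - a) - Real.pi * (1 - a) * y := by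
    unfold rh
    rw [uu_Lr, abs_of_pos hy]
    ring
  linarith only [h2, h3, h4]

theorem rh_nonneg {a y : ℝ} (h0 : 1 / 2 ≤ a) (h1 : a ≤ 1) (hy : 0 ≤ y) : 0 ≤ rh a y :=
  (rh_nonneg_pos h0 h1 (show 0 < y + 1 by linarith only [hy])).trans (rh_anti h0 h1 hy (by linarith only []))

/-- `a ∈ [1, 3/2]` -/
theorem rh_nonpos {a y : ℝ} (h0 : 1 ≤ a) (h1 : a ≤ 3 / 2) (hy : 0 ≤ y) : rh a y ≤ 0 := by
  have h2 := rh_nonneg (a := 1 - (a - 1)) (by linarith only [h1]) (by linarith only [h0]) hy
  rw [rh_one_sub] at h2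
  have h3 := rh_add_one (a := a - 1) hy
  rw [sub_add_cancel] at h3
  linarith only [h2, h3]

/-! ### bounds for the value at height `0` -/

section
open NumUs.E

theorem n6 : uu (5 / 6) 0 ≤ 1617 / 10000 := by
  have h : chk [sub (q 1617 10000) (uu (q 5 6) (q 0 1))] 1 [NumIs.V.of 1 0 0] = true := by
    decide +kernel
  have hp := pos_of_chk (chk1 h (by norm_num) (x := 0) (by norm_num) (by norm_num))
  simp only [E.val] at hp
  norm_num at hp ⊢
  linarith only [hp]

theorem n10 : uu (3 / 5) 0 ≤ 69 / 1000 := by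
  have h : chk [sub (q 69 1000) (uu (q 3 5) (q 0 1))] 1 [NumIs.V.of 1 0 0] = true := by
    decide +kernel
  have hp := pos_of_chk (chk1 h (by norm_num) (x := 0) (by norm_num) (by norm_num))
  simp only [E.val] at hp
  norm_num at hp ⊢
  linarith only [hp]

theorem n1000 : uu (999 / 1000) 0 ≤ 7 / 1000 := by
  have h : chk [sub (q 7 1000) (uu (q 999 1000) (q 0 1))] 1 [NumIs.V.of 1 0 0] = true := by
    decide +kernel
  have hp := pos_of_chk (chk1 h (by norm_num) (x := 0) (by norm_num) (by norm_num))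
  simp only [E.val] at hp
  norm_num at hp ⊢
  linarith only [hp]

theorem n90 : uu (9 / 10) 0 ≤ 1475 / 10000 := by
  have h : chk [sub (q 1475 10000) (uu (q 9 10) (q 0 1))] 1 [NumIs.V.of 1 0 0] = true := by
    decide +kernel
  have hp := pos_of_chk (chk1 h (by norm_num) (x := 0) (by norm_num) (by norm_num))
  simp only [E.val] at hp
  norm_num at hp ⊢
  linarith only [hp]

theorem sin25 : 1 ≤ 2 * Real.sin (Real.pi * (2 / 5)) := by
  have h : Real.sin (Real.pi * (1 / 6)) ≤ Real.sin (Real.pi * (2 / 5)) :=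
    Real.sin_le_sin_of_le_of_le_pi_div_two (by linarith only [Real.pi_pos]) (by linarith only [Real.pi_pos])
      (by linarith only [Real.pi_pos])
  rw [show Real.pi * (1 / 6) = Real.pi / 6 by ring, Real.sin_pi_div_six] at h
  linarith only [h]

theorem sin_small {y : ℝ} (h0 : 0 < y) (h1 : y ≤ 1 / 6) :
    0 ≤ -Real.log (2 * Real.sin (Real.pi * y)) := by
  have h2 : Real.sin (Real.pi * y) ≤ Real.sin (Real.pi / 6) :=
    Real.sin_le_sin_of_le_of_le_pi_div_two (by nlinarith only [h0, Real.pi_pos]) (by linarith only [Real.pi_pos])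
      (by nlinarith only [h0, h1, Real.pi_pos])
  rw [Real.sin_pi_div_six] at h2
  have h3 : 0 < Real.sin (Real.pi * y) := by
    apply Real.sin_pos_of_pos_of_lt_pi
    · have := Real.pi_pos
      positivity
    · nlinarith only [h1, Real.pi_pos]
  have := Real.log_nonpos (x := 2 * Real.sin (Real.pi * y)) (by linarith only [h3]) (by linarith only [h2])
  linarith only [this]

end

theorem uu_lam (a : ℝ) : uu a 0 = L3.lam (1 - a) := by
  have h := L3.lam_uu (1 - a)
  rw [uu_one_sub, neg_neg] at h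
  exact h.symm

/-- `a` right of `1 - y` -/
theorem uu_top {a y : ℝ} (y0 : 0 < y) (y1 : y ≤ 1 / 6) (h0 : 1 - y ≤ a) (h1 : a ≤ 1) :
    uu a 0 ≤ uu (1 - y) 0 := by
  rw [uu_lam, uu_lam, sub_sub_cancel]
  have h2 := L3.lam_tangent (x := 1 - a) (y := y) (by linarith only [h1]) (by linarith only [y0, y1, h0]) y0 (by linarith only [y0, y1])
  have h3 := mul_nonneg (sin_small y0 y1) (show 0 ≤ y - (1 - a) by linarith only [h0])
  linarith only [h2, h3]

theorem rh_le {a y : ℝ} (h0 : 1 / 2 ≤ a) (h1 : a ≤ 1) (hy : 0 ≤ y) : rh a y ≤ 1617 / 10000 := by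
  have h2 := rh_anti h0 h1 le_rfl hy
  have h3 : rh a 0 = uu a 0 := by unfold rh; ring
  have h4 := L3.lam_tangent (x := 1 - a) (y := 1 / 6) (by linarith only [h1]) (by linarith only [h0]) (by norm_num)
    (by norm_num)
  rw [show Real.pi * (1 / 6) = Real.pi / 6 by ring, Real.sin_pi_div_six,
    show (2 : ℝ) * (1 / 2) = 1 by norm_num, Real.log_one, ← uu_lam] at h4
  have h5 : L3.lam (1 / 6) = uu (5 / 6) 0 := by
    rw [uu_lam]
    norm_num
  have := n6
  linarith only [h2, h3, h4, h5, this]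

theorem rh_le_mid {a y : ℝ} (h0 : 1 / 2 ≤ a) (h1 : a ≤ 3 / 5) (hy : 0 ≤ y) :
    rh a y ≤ 69 / 1000 := by
  have h2 := rh_anti h0 (by linarith only [h1]) le_rfl hy
  have h3 : rh a 0 = uu a 0 := by unfold rh; ring
  have h4 := L3.lam_tangent (x := 1 - a) (y := 2 / 5) (by linarith only [h1]) (by linarith only [h0]) (by norm_num)
    (by norm_num)
  rw [← uu_lam] at h4
  have h5 : L3.lam (2 / 5) = uu (3 / 5) 0 := by
    rw [uu_lam]
    norm_num
  have h6 := Real.log_nonneg sin25
  have h7 := mul_nonneg h6 (show 0 ≤ 1 - a - 2 / 5 by linarith only [h1])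
  have := n10
  linarith only [h2, h3, h4, h5, h7, this]

theorem rh_le_90 {a y : ℝ} (h0 : 9 / 10 ≤ a) (h1 : a ≤ 1) (hy : 0 ≤ y) :
    rh a y ≤ 1475 / 10000 := by
  have h2 := rh_anti (by linarith only [h0]) h1 le_rfl hy
  have h3 : rh a 0 = uu a 0 := by unfold rh; ring
  have h4 := uu_top (a := a) (y := 1 / 10) (by norm_num) (by norm_num) (by linarith only [h0]) h1
  rw [show (1 : ℝ) - 1 / 10 = 9 / 10 by norm_num] at h4
  linarith only [h2, h3, h4, n90]

theorem rh_le_999 {a y : ℝ} (h0 : 999 / 1000 ≤ a) (h1 : a ≤ 1) (hy : 0 ≤ y) :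
    rh a y ≤ 7 / 1000 := by
  have h2 := rh_anti (by linarith only [h0]) h1 le_rfl hy
  have h3 : rh a 0 = uu a 0 := by unfold rh; ring
  have h4 := uu_top (a := a) (y := 1 / 1000) (by norm_num) (by norm_num) (by linarith only [h0]) h1
  rw [show (1 : ℝ) - 1 / 1000 = 999 / 1000 by norm_num] at h4
  linarith only [h2, h3, h4, n1000]

/-! ### the function of the rows -/

/-- the terms of `D` minus their limit -/
noncomputable def FF (w a k2 x Y : ℝ) : ℝ :=
  Real.pi * (a - 1 / 2) * (k2 - Y) + uu a (k2 - Y) - w * rh x Y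

theorem dA1_FF (x Y k1 k2 : ℝ) : dA1 x Y k1 k2 = FF 1 (x + k1) k2 x Y + cA1 k1 k2 := by
  unfold dA1 FF cA1 rh
  ring

theorem dA2_FF (x Y k1 k2 : ℝ) : dA2 x Y k1 k2 = FF 2 (x + k1) k2 x Y + cA2 k1 k2 := by
  unfold dA2 FF cA2 rh
  ring

theorem FF_ge {w a k2 x Y : ℝ} (h : k2 ≤ Y) : FF w a k2 x Y = rh a (Y - k2) - w * rh x Y := by
  unfold FF
  rw [← uu_neg, neg_sub]
  unfold rh
  ring

theorem FF_lt {w a k2 x Y : ℝ} : FF w a k2 x Y =
    2 * Real.pi * (a - 1 / 2) * (k2 - Y) + rh a (k2 - Y) - w * rh x Y := by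
  unfold FF rh
  ring

theorem cont_rh (x : ℝ) : Continuous fun y => rh x y := by
  unfold rh
  exact (continuous_uu_y x).sub (by fun_prop)

theorem cont_FF (w a k2 x : ℝ) : Continuous fun Y => FF w a k2 x Y := by
  unfold FF
  exact ((by fun_prop : Continuous fun Y : ℝ => Real.pi * (a - 1 / 2) * (k2 - Y)).add
    ((continuous_uu_y a).comp (by fun_prop : Continuous fun Y : ℝ => k2 - Y))).sub
    (continuous_const.mul (cont_rh x))

/-- the derivative of `FF` -/
noncomputable def FD (w a k2 x Y : ℝ) : ℝ :=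
  -(Real.pi * (a - 1 / 2)) - YY ⟨a, k2 - Y⟩ - w * (YY ⟨x, Y⟩ - Real.pi * (x - 1 / 2))

theorem deriv_FF {w a k2 x Y : ℝ} (h : k2 - Y ≠ 0 ∨ (0 < a ∧ a < 1)) (hY : 0 < Y) :
    HasDerivAt (fun Y => FF w a k2 x Y) (FD w a k2 x Y) Y := by
  have e0 : HasDerivAt (fun Y : ℝ => k2 - Y) (-1) Y := by
    simpa using (hasDerivAt_id Y).const_sub k2
  have e1 : HasDerivAt (fun Y : ℝ => Real.pi * (a - 1 / 2) * (k2 - Y))
      (Real.pi * (a - 1 / 2) * (-1)) Y := e0.const_mul _
  have e2 : HasDerivAt (fun Y : ℝ => uu a (k2 - Y)) (YY ⟨a, k2 - Y⟩ * (-1)) Y :=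
    (hasDerivAt_uu_y (x := a) (y := k2 - Y) h).comp Y e0
  have e3 : HasDerivAt (fun Y : ℝ => uu x Y) (YY ⟨x, Y⟩) Y := hasDerivAt_uu_y (Or.inl hY.ne')
  have e4 : HasDerivAt (fun Y : ℝ => Real.pi * (x - 1 / 2) * Y) (Real.pi * (x - 1 / 2)) Y := by
    simpa using (hasDerivAt_id Y).const_mul (Real.pi * (x - 1 / 2))
  have e5 := (e1.add e2).sub ((e3.sub e4).const_mul w)
  refine e5.congr_deriv ?_
  unfold FD
  ring

/-- the condition on the derivative -/
def Cond (w a k2 x m Y : ℝ) : Prop :=
  (1 + PY Y) * FD w a k2 x Y + 1 / 1000 + (49 / 5 + 270 * Y ^ 2) * (FF w a k2 x Y - m) ≤ 0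

theorem step {w a k2 x m p q : ℝ} (hpq : p ≤ q) (hp : 0 ≤ p)
    (hd : ∀ Y, p < Y → Y < q → Y ≠ k2 → Cond w a k2 x m Y) :
    FF w a k2 x q + q / 1000 + PY q * (FF w a k2 x q - m) ≤
      FF w a k2 x p + p / 1000 + PY p * (FF w a k2 x p - m) := by
  have hPY : ∀ Y, HasDerivAt (fun Y => PY Y) (49 / 5 + 270 * Y ^ 2) Y := by
    intro Y
    have := ((hasDerivAt_id Y).const_mul (49 / 5)).add ((hasDerivAt_pow 3 Y).const_mul 90)
    refine (this.congr_deriv ?_)
    push_cast
    ring
  have hcP : Continuous fun Y => PY Y := by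
    unfold PY
    fun_prop
  have hcF := cont_FF w a k2 x
  refine anti_one (f := fun Y => FF w a k2 x Y + Y / 1000 + PY Y * (FF w a k2 x Y - m))
    (f' := fun Y => (1 + PY Y) * FD w a k2 x Y + 1 / 1000 +
      (49 / 5 + 270 * Y ^ 2) * (FF w a k2 x Y - m)) k2 hpq
    ((hcF.add (by fun_prop)).add (hcP.mul (hcF.sub continuous_const))) ?_
  intro Y h1 h2 h3
  refine ⟨?_, hd Y h1 h2 h3⟩
  have e1 := deriv_FF (w := w) (a := a) (k2 := k2) (x := x) (Y := Y)
    (Or.inl (sub_ne_zero.mpr (Ne.symm h3))) (by linarith only [hp, h1])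
  have e2 : HasDerivAt (fun Y : ℝ => Y / 1000) (1 / 1000) Y := (hasDerivAt_id Y).div_const _
  have e3 := (e1.add e2).add ((hPY Y).mul (e1.sub_const m))
  refine e3.congr_deriv ?_
  ring

/-- the row -/
def Row (w a k2 x m Y : ℝ) : Prop :=
  FF w a k2 x Y - FF w a k2 x 0 + Y / 1000 + PY Y * (FF w a k2 x Y - m) ≤ 0

theorem row_of {w a k2 x m Y : ℝ} (hY : 0 ≤ Y)
    (hd : ∀ Z, 0 < Z → Z < Y → Z ≠ k2 → Cond w a k2 x m Z) : Row w a k2 x m Y := by
  have h := step hY le_rfl hd
  have e : PY 0 = 0 := by unfold PY; norm_num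
  rw [e] at h
  unfold Row
  linarith only [h]

theorem row_of2 {w a k2 x m Y : ℝ} (hk : 0 ≤ k2) (hY : k2 ≤ Y) (h0 : Row w a k2 x m k2)
    (hd : ∀ Z, k2 < Z → Z < Y → Cond w a k2 x m Z) : Row w a k2 x m Y := by
  have h := step hY hk (fun Z h1 h2 _ => hd Z h1 h2)
  unfold Row at h0 ⊢
  linarith only [h0, h]

end RB

end ZD

end Pool.Agent.Work.MP_b30479_gtS.G2

end

section

/-!
# Modes at rings, side of `D`: the lower end of the mode path, the conditions in numerical form
-/

namespace Pool.Agent.Work.MP_b30479_gtS.G2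

open VOL NumUs

namespace ZD

namespace RB

/-- the condition, numerically -/
noncomputable def nF (w c a t x Y m : ℝ) : ℝ :=
  (1 + PY Y) * (NumIs.lnB a t - Real.pi * (a + c) + w * (NumIs.lnB x Y + Real.pi * (x - 1 / 2))) +
    1 / 1000 + (49 / 5 + 270 * Y ^ 2) *
      (Real.pi * (a + c) * t + uu a t - w * (uu x Y - Real.pi * (x - 1 / 2) * Y) - m)

theorem YY_B {a t : ℝ} (h0 : 0 < a) (h1 : a < 1) : YY ⟨a, t⟩ = -NumIs.lnB a t :=
  Num.YY_lnB (u := ⟨a, t⟩) ⟨h0, h1⟩

theorem YY_up {a t : ℝ} (ht : 0 < t) : YY ⟨a, t⟩ = YY ⟨a - 1, t⟩ + Real.pi := by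
  rw [YY_mk_pos ht, YY_mk_pos ht]
  have := Tr_add_one t (a - 1)
  rw [sub_add_cancel] at this
  linarith only [this]

theorem cond_lt {w a k2 x m Y : ℝ} (h0 : 0 < a) (h1 : a < 1) (hx : 0 < x) (hx' : x < 1)
    (h : nF w (-1 / 2) a (k2 - Y) x Y m ≤ 0) : Cond w a k2 x m Y := by
  unfold Cond FD FF rh
  rw [YY_B h0 h1, YY_B hx hx']
  unfold nF at h
  have e : (1 + PY Y) * (-(Real.pi * (a - 1 / 2)) - -NumIs.lnB a (k2 - Y) -
      w * (-NumIs.lnB x Y - Real.pi * (x - 1 / 2))) + 1 / 1000 +
      (49 / 5 + 270 * Y ^ 2) * (Real.pi * (a - 1 / 2) * (k2 - Y) + uu a (k2 - Y) -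
        w * (uu x Y - Real.pi * (x - 1 / 2) * Y) - m) =
      (1 + PY Y) * (NumIs.lnB a (k2 - Y) - Real.pi * (a + -1 / 2) +
        w * (NumIs.lnB x Y + Real.pi * (x - 1 / 2))) + 1 / 1000 + (49 / 5 + 270 * Y ^ 2) *
      (Real.pi * (a + -1 / 2) * (k2 - Y) + uu a (k2 - Y) -
        w * (uu x Y - Real.pi * (x - 1 / 2) * Y) - m) := by ring
  rw [e]
  exact h

theorem cond_gt {w a k2 x m Y : ℝ} (h0 : 1 < a) (h1 : a < 2) (hx : 0 < x) (hx' : x < 1)
    (hY : Y < k2) (h : nF w (3 / 2) (a - 1) (k2 - Y) x Y m ≤ 0) : Cond w a k2 x m Y := by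
  have ht : 0 < k2 - Y := by linarith only [hY]
  unfold Cond FD FF rh
  rw [YY_up ht, YY_B (a := a - 1) (by linarith only [h0]) (by linarith only [h1]), YY_B hx hx']
  have e0 := uu_add_one (a - 1) (k2 - Y)
  rw [sub_add_cancel, abs_of_pos ht] at e0
  rw [e0]
  unfold nF at h
  have e : (1 + PY Y) * (-(Real.pi * (a - 1 / 2)) - (-NumIs.lnB (a - 1) (k2 - Y) + Real.pi) -
      w * (-NumIs.lnB x Y - Real.pi * (x - 1 / 2))) + 1 / 1000 +
      (49 / 5 + 270 * Y ^ 2) * (Real.pi * (a - 1 / 2) * (k2 - Y) +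
        (uu (a - 1) (k2 - Y) + Real.pi * (k2 - Y)) -
        w * (uu x Y - Real.pi * (x - 1 / 2) * Y) - m) =
      (1 + PY Y) * (NumIs.lnB (a - 1) (k2 - Y) - Real.pi * (a - 1 + 3 / 2) +
        w * (NumIs.lnB x Y + Real.pi * (x - 1 / 2))) + 1 / 1000 + (49 / 5 + 270 * Y ^ 2) *
      (Real.pi * (a - 1 + 3 / 2) * (k2 - Y) + uu (a - 1) (k2 - Y) -
        w * (uu x Y - Real.pi * (x - 1 / 2) * Y) - m) := by ring
  rw [e]
  exact h

theorem PY_nonneg {Y : ℝ} (h : 0 ≤ Y) : 0 ≤ PY Y := by
  unfold PY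
  positivity

/-- heights `Y > k2`, `a ∈ [1/2, 1] + ℤ` -/
theorem crudeF {w a a' k2 x m R μ Y : ℝ} (h0 : 1 / 2 ≤ a') (h1 : a' ≤ 1) (ha : a = a' ∨ a = a' + 1)
    (hx : 0 < x) (hx' : x < 1) (hY : 0 < Y) (hk : k2 < Y) (hR : rh a' (Y - k2) ≤ R)
    (hμ : μ ≤ m - R)
    (h : (1 + PY Y) * (w * (NumIs.lnB x Y + Real.pi * (x - 1 / 2))) + 1 / 1000 +
      (49 / 5 + 270 * Y ^ 2) * (-(w * (uu x Y - Real.pi * (x - 1 / 2) * Y)) - μ) ≤ 0) :
    Cond w a k2 x m Y := by
  have hs : 0 < Y - k2 := by linarith only [hk]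
  have e0 : FF w a k2 x Y = rh a' (Y - k2) - w * rh x Y := by
    rw [FF_ge hk.le]
    rcases ha with rfl | rfl
    · rfl
    · rw [rh_add_one hs.le]
  have e1 : FD w a k2 x Y = DT.Tr (Y - k2) a' - Real.pi * a' +
      w * (NumIs.lnB x Y + Real.pi * (x - 1 / 2)) := by
    have e2 : YY ⟨a, k2 - Y⟩ = -(DT.Tr (Y - k2) a - Real.pi / 2) := by
      have := YY_mk_neg (x := a) (y := k2 - Y) (by linarith only [hk])
      rw [this, neg_sub k2 Y]
      ring
    unfold FD
    rw [e2, YY_B hx hx']
    rcases ha with rfl | rfl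
    · ring
    · rw [Tr_add_one]
      ring
  have e2 := Tr_le_pi_mul h0 h1 hs
  have e4 := PY_nonneg hY.le
  unfold Cond
  rw [e0, e1]
  have e5 : (1 + PY Y) * (DT.Tr (Y - k2) a' - Real.pi * a') ≤ 0 :=
    mul_nonpos_of_nonneg_of_nonpos (by linarith only [hx, hx', e4]) (by linarith only [e2])
  have e6 : (49 / 5 + 270 * Y ^ 2) * (rh a' (Y - k2) - R) ≤ 0 :=
    mul_nonpos_of_nonneg_of_nonpos (by positivity) (by linarith only [hR])
  have e7 : rh x Y = uu x Y - Real.pi * (x - 1 / 2) * Y := rfl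
  have e8 : (49 / 5 + 270 * Y ^ 2) * (μ - (m - R)) ≤ 0 :=
    mul_nonpos_of_nonneg_of_nonpos (by positivity) (by linarith only [hμ])
  rw [e7]
  nlinarith only [h, e5, e6, e8]

/-- heights `Y ≥ k2`, `a ∈ [1, 3/2]` -/
theorem crudeH {w a k2 x m κ μ Y : ℝ} (hw : 0 ≤ w) (h0 : 1 ≤ a) (h1 : a ≤ 3 / 2) (hx : 1 / 2 ≤ x)
    (hY : 0 < Y) (hk : k2 ≤ Y) (hκ : (3 / 2 - a) + w * (x - 1 / 2) ≤ κ)
    (hμ : μ ≤ m) (h : Real.pi * κ + 1 / 1000 ≤ (49 / 5 + 90 * Y ^ 2) *
      (w * (uu x Y - Real.pi * (x - 1 / 2) * Y) + μ)) : Row w a k2 x m Y := by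
  have hpi := Real.pi_pos
  have e0 : FF w a k2 x Y ≤ -(w * rh x Y) := by
    rw [FF_ge hk]
    linarith only [h0, h1, hk, rh_nonpos h0 h1 (show 0 ≤ Y - k2 by linarith only [hk])]
  have e1 : uu a (k2 - Y) - uu a k2 ≤ Real.pi * Y := by
    rw [uu_Lr, uu_Lr]
    rcases le_total |k2| |k2 - Y| with h2 | h2
    · have h3 := inc_le_three (x := a) (by linarith only [h1]) (abs_nonneg k2) h2
      have h4 : |k2 - Y| ≤ |k2| + Y := by
        have := abs_sub k2 Y
        rwa [abs_of_pos hY] at this
      nlinarith only [h3, hpi, h4]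
    · have h3 := inc_ge_lin (c := 1 / 2) (x := a) (by norm_num) le_rfl (by linarith only [h0])
        (abs_nonneg (k2 - Y)) h2
      nlinarith only [h3, hY, hpi]
  have e2 : uu x 0 ≤ uu x Y := by
    have h3 := inc_ge_lin (c := 1 / 2) (x := x) (by norm_num) le_rfl hx le_rfl hY.le
    rw [uu_Lr, uu_Lr, abs_zero, abs_of_pos hY]
    nlinarith only [h3]
  have e3 : FF w a k2 x Y - FF w a k2 x 0 ≤ Real.pi * κ * Y := by
    have h2 : FF w a k2 x Y - FF w a k2 x 0 = -(Real.pi * (a - 1 / 2) * Y) +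
        (uu a (k2 - Y) - uu a k2) - w * (uu x Y - uu x 0) + w * (Real.pi * (x - 1 / 2) * Y) := by
      unfold FF rh
      rw [sub_zero]
      ring
    rw [h2]
    have h3 := mul_nonneg hw (sub_nonneg.mpr e2)
    have h4 := mul_le_mul_of_nonneg_left hκ (mul_pos hpi hY).le
    nlinarith only [e1, h3, h4]
  have e4 : PY Y * (FF w a k2 x Y - m) ≤ -(Y * ((49 / 5 + 90 * Y ^ 2) *
      (w * (uu x Y - Real.pi * (x - 1 / 2) * Y) + μ))) := by
    have h2 : PY Y * (FF w a k2 x Y - m) ≤ PY Y * (-(w * rh x Y) - μ) :=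
      mul_le_mul_of_nonneg_left (by linarith only [hμ, e0]) (PY_nonneg hY.le)
    refine h2.trans (le_of_eq ?_)
    unfold PY rh
    ring
  have e5 := mul_le_mul_of_nonneg_left h hY.le
  unfold Row
  nlinarith only [e3, e4, e5]

/-- `a` near `1`, heights `Y < k2` -/
theorem near {w a k2 x m Y : ℝ} (h0 : 999 / 1000 ≤ a) (h1 : a ≤ 1001 / 1000) (hx : 0 < x)
    (hx' : x < 1) (hY : 0 < Y) (hk : Y < k2)
    (h : (1 + PY Y) * (NumIs.lnB (999 / 1000) (k2 - Y) - Real.pi * (499 / 1000) +
        w * (NumIs.lnB x Y + Real.pi * (x - 1 / 2))) + 1 / 1000 +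
        (49 / 5 + 270 * Y ^ 2) * (Real.pi * (1002 / 1000) * (k2 - Y) + 7 / 1000 -
          w * (uu x Y - Real.pi * (x - 1 / 2) * Y) - m) ≤ 0 ∨
      (1 + PY Y) * (-(Real.pi * (499 / 1000)) +
        w * (NumIs.lnB x Y + Real.pi * (x - 1 / 2))) + 1 / 1000 +
        (49 / 5 + 270 * Y ^ 2) * (Real.pi * (1002 / 1000) * (k2 - Y) + 7 / 1000 -
          w * (uu x Y - Real.pi * (x - 1 / 2) * Y) - m) ≤ 0) : Cond w a k2 x m Y := by
  have hpi := Real.pi_pos
  have ht : 0 < k2 - Y := by linarith only [hk]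
  have hP := PY_nonneg hY.le
  -- the value
  have e0 : FF w a k2 x Y ≤ Real.pi * (1002 / 1000) * (k2 - Y) + 7 / 1000 - w * rh x Y := by
    rw [FF_lt]
    have e1 : rh a (k2 - Y) ≤ 7 / 1000 := by
      rcases le_total a 1 with h2 | h2
      · exact rh_le_999 h0 h2 ht.le
      · linarith only [hx, hx', h2, h1, ht, rh_nonpos h2 (by linarith only [h1, hx, hx']) ht.le]
    have e2 : 2 * Real.pi * (a - 1 / 2) * (k2 - Y) ≤ Real.pi * (1002 / 1000) * (k2 - Y) := by
      apply mul_le_mul_of_nonneg_right _ ht.le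
      nlinarith only [h1, hpi]
    linarith only [e1, e2]
  -- the derivative
  have e1 : FD w a k2 x Y = -(Real.pi * (a - 1 / 2)) - (DT.Tr (k2 - Y) a - Real.pi / 2) +
      w * (NumIs.lnB x Y + Real.pi * (x - 1 / 2)) := by
    unfold FD
    rw [YY_mk_pos ht, YY_B hx hx']
    ring
  have e2 := Tr_mono ht h0
  have e3 : DT.Tr (k2 - Y) (999 / 1000) = Real.pi / 2 - NumIs.lnB (999 / 1000) (k2 - Y) := by
    have h2 := YY_mk_pos (x := 999 / 1000) ht
    rw [YY_B (by norm_num) (by norm_num)] at h2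
    linarith only [h2]
  have e4 := half_le_Tr ht (show 1 / 2 ≤ a by linarith only [h0, hx, hx'])
  have e5 : Real.pi * (999 / 1000) ≤ Real.pi * a := mul_le_mul_of_nonneg_left h0 hpi.le
  have e6 : (49 / 5 + 270 * Y ^ 2) * (FF w a k2 x Y - m) ≤ (49 / 5 + 270 * Y ^ 2) *
      (Real.pi * (1002 / 1000) * (k2 - Y) + 7 / 1000 -
        w * (uu x Y - Real.pi * (x - 1 / 2) * Y) - m) := by
    apply mul_le_mul_of_nonneg_left _ (by positivity)
    have : rh x Y = uu x Y - Real.pi * (x - 1 / 2) * Y := rfl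
    rw [← this]
    linarith only [e0]
  unfold Cond
  rcases h with h | h
  · have e7 : (1 + PY Y) * FD w a k2 x Y ≤ (1 + PY Y) * (NumIs.lnB (999 / 1000) (k2 - Y) -
        Real.pi * (499 / 1000) + w * (NumIs.lnB x Y + Real.pi * (x - 1 / 2))) := by
      apply mul_le_mul_of_nonneg_left _ (by linarith only [hx, hx', hP])
      rw [e1]
      linarith only [e2, e3, e5]
    linarith only [e6, h, e7]
  · have e7 : (1 + PY Y) * FD w a k2 x Y ≤ (1 + PY Y) * (-(Real.pi * (499 / 1000)) +
        w * (NumIs.lnB x Y + Real.pi * (x - 1 / 2))) := by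
      apply mul_le_mul_of_nonneg_left _ (by linarith only [hx, hx', hP])
      rw [e1]
      linarith only [e4, e5]
    linarith only [e6, h, e7]

/-! ### slopes of `rh` -/

theorem rh_slope {x a Y κ : ℝ} (hx : 0 < x) (hxa : x ≤ a) (ha : a < 1)
    (h : ∀ v, x ≤ v → v ≤ a → NumIs.lnA v Y - Real.pi * Y ≤ κ) : rh a Y - rh x Y ≤ κ * (a - x) := by
  have h2 := anti_one (f := fun v => rh v Y - κ * v)
    (f' := fun v => NumIs.lnA v Y - Real.pi * Y - κ) 0 hxa (by
      unfold rh
      exact ((continuous_uu_x Y).sub (by fun_prop)).sub (by fun_prop)) (by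
      intro v h1 h2 _
      refine ⟨?_, by linarith only [h, h1, h2, h v h1.le h2.le]⟩
      have e1 := uu_line (x := 0) (t := Y) (a := 1) (b := 0) (τ := v) (by linarith only [hx, h1]) (by linarith only [ha, h2])
      simp only [mul_one, zero_add, mul_zero, add_zero, one_mul, zero_mul, sub_zero] at e1
      have e2 : HasDerivAt (fun v : ℝ => Real.pi * (v - 1 / 2) * Y) (Real.pi * Y) v := by
        have := (((hasDerivAt_id v).sub_const (1 / 2)).const_mul Real.pi).mul_const Y
        simpa using this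
      have e3 : HasDerivAt (fun v : ℝ => κ * v) κ v := by
        simpa using (hasDerivAt_id v).const_mul κ
      exact (e1.sub e2).sub e3)
  linarith only [h2]

theorem rh_vert {a y0 y y' σ : ℝ} (h0 : 1 / 2 ≤ a) (h1 : a < 1) (hy0 : 0 < y0) (hy : y0 ≤ y)
    (h : y ≤ y') (hσ : Real.pi * (a - 1 / 2) + NumIs.lnB a y0 ≤ σ) :
    rh a y - rh a y' ≤ σ * (y' - y) := by
  have h2 := mono_one (f := fun y => rh a y + σ * y)
    (f' := fun y => YY ⟨a, y⟩ - Real.pi * (a - 1 / 2) + σ) 0 h
    ((cont_rh a).add (by fun_prop)) (by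
      intro t h2 _ _
      have ht : 0 < t := by linarith only [hy0, hy, h2]
      refine ⟨((hasDerivAt_uu_y (Or.inl ht.ne')).sub (by
        simpa using (hasDerivAt_id t).const_mul (Real.pi * (a - 1 / 2)))).add (by
        simpa using (hasDerivAt_id t).const_mul σ), ?_⟩
      have e1 := Tr_mono_left hy0 (show y0 ≤ t by linarith only [hy, h2]) h0 h1.le
      have e2 := YY_mk_pos (x := a) hy0
      rw [YY_B (by linarith only [h0, h1]) h1] at e2
      rw [YY_mk_pos ht]
      linarith only [hσ, e1, e2])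
  linarith only [h2]

theorem pi15 : Real.pi ≤ 315 / 100 := by
  have := Real.pi_lt_d2
  linarith only [this]

end RB

end ZD

end Pool.Agent.Work.MP_b30479_gtS.G2

end

section

/-!
# Modes at rings, side of `D`: the lower end of the mode path, certificates for `b1`
-/

set_option linter.unusedVariables false
set_option linter.unusedSimpArgs false

set_option deprecated.oldSectionVars true

namespace Pool.Agent.Work.MP_b30479_gtS.G2

open VOL NumUs

namespace ZD

namespace RB

open NumUs.E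
open NumIs (V)

theorem chkT1 {es : List E} {fuel c N : ℕ} {l1 h1 : ℤ} {k1 : ℕ}
    (h : chkT es fuel c [V.of N l1 h1 k1] = true) (hN : 0 < N) {x : ℝ}
    (a1 : (l1 : ℝ) / N ≤ x) (b1 : x ≤ (h1 : ℝ) / N) : ∃ e ∈ es, 0 < e.val [x] :=
  chkT_sound h (List.Forall₂.cons (V.of_mem hN a1 b1) List.Forall₂.nil)

/-- the multiplier, its derivative, and the multiplier divided by `Y` -/
def eP : E := add (mul (q 49 5) (var 0)) (mul (q 90 1) (mul (var 0) (sq (var 0))))
def eQ : E := add (q 49 5) (mul (q 270 1) (sq (var 0)))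
def eR : E := add (q 49 5) (mul (q 90 1) (sq (var 0)))
/-- the terms with `x` -/
def eGX (w x : E) : E := mul w (sub (uu x (var 0)) (mul pi (mul (sub x (q 1 2)) (var 0))))
def eDX (w x : E) : E := mul w (add (lnB x (var 0)) (mul pi (sub x (q 1 2))))
/-- the terms with `a` -/
def eGA (c a t : E) : E := add (mul (mul pi (add a c)) t) (uu a t)
def eDA (c a t : E) : E := sub (lnB a t) (mul pi (add a c))
/-- the condition on the derivative -/
def eN (w c a t x m : E) : E :=
  neg (add (add (mul (add (q 1 1) eP) (add (eDA c a t) (eDX w x))) (q 1 1000))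
    (mul eQ (sub (sub (eGA c a t) (eGX w x)) m)))
/-- the value -/
def eM (w c a t x m : E) : E := sub m (sub (eGA c a t) (eGX w x))
def eF (w x m : E) : E := neg (add (add (mul (add (q 1 1) eP) (eDX w x)) (q 1 1000))
  (mul eQ (sub (neg (eGX w x)) m)))
def eH (w x m k : E) : E := sub (mul eR (add (eGX w x) m)) (add (mul pi k) (q 1 1000))
def eN1 (w t x m : E) : E :=
  neg (add (add (mul (add (q 1 1) eP) (add (sub (lnB (q 999 1000) t) (mul pi (q 499 1000)))
    (eDX w x))) (q 1 1000)) (mul eQ (sub (sub (add (mul (mul pi (q 1002 1000)) t) (q 7 1000))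
    (eGX w x)) m)))
def eN2 (w t x m : E) : E :=
  neg (add (add (mul (add (q 1 1) eP) (add (neg (mul pi (q 499 1000)))
    (eDX w x))) (q 1 1000)) (mul eQ (sub (sub (add (mul (mul pi (q 1002 1000)) t) (q 7 1000))
    (eGX w x)) m)))

private theorem k1n : chkT [eN (q 1 1) (q (-1) 2) (add (var 3) (var 1)) (sub (neg (var 2)) (var 0)) (var 3) (add (q 4 1000) (mul (q 1 5) (var 1)))] 40
    0x882882188288218828820882882088288228828822011118828821882882188288208828820882882288188220111108828880218828821882882088288208828828820211118880288802188288218828820888028828880221111008880288802188288218882288288288802121118880288802188288802188822880882888021211108880288802188880128828888012888801202118881288880121888818880102288888012288881880122011000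
    [V.of 100000 0 25000, V.of 100000 0 25000,
    V.of 100000 0 16000, V.of 100000 64996 65000] = true := by
  decide +kernel

theorem c1n {Y K M X : ℝ}
    (y0 : 0 ≤ Y) (y1 : Y ≤ 1 / 4)
    (k0 : 0 ≤ K) (k1 : K ≤ 1 / 4)
    (m0 : 0 ≤ M) (m1 : M ≤ 4 / 25)
    (x0 : 16249 / 25000 ≤ X) (x1 : X ≤ 13 / 20) :
    nF 1 (-1 / 2) (X + K) (-M - Y) X Y (4 / 1000 + 1 / 5 * K) ≤ 0 := by
  obtain ⟨e, he, hp⟩ := chkT4 k1n (by norm_num) (x := Y) (y := K) (z := M) (w := X)
    (by norm_num; linarith only [y0]) (by norm_num; linarith only [y1]) (by norm_num; linarith only [k0]) (by norm_num; linarith only [k1]) (by norm_num; linarith only [m0]) (by norm_num; linarith only [m1]) (by norm_num; linarith only [x0]) (by norm_num; linarith only [x1])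
  simp only [List.mem_cons, List.not_mem_nil, or_false] at he
  subst he
  simp only [eN, eM, eF, eH, eN1, eN2, eDX, eGX, eGA, eDA, eP, eQ, eR, E.val, NumIs.lkR] at hp
  norm_num [nF, PY] at hp ⊢
  linarith only [hp]

private theorem k1p : chkT [eN (q 1 1) (q (-1) 2) (add (var 3) (var 1)) (sub (var 2) (var 0)) (var 3)
        (add (add (q 4 1000) (mul (q 1 5) (var 1))) (mul (q 65 100) (var 2))),
      sub (var 2) (mul (q 79 100) (var 1))] 40
    0x88081881881008818810881881888018818818811010000888008808889182000091188188088888012211881880888880122110881880888880122118818810880888880122110088188108808888801221188188108880188888011211088188108880188808880122118818881018818818880100888800298880021110002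
    [V.of 100000 0 25000, V.of 100000 0 25000,
    V.of 100000 0 11800, V.of 100000 64996 65000] = true := by
  decide +kernel

theorem c1p {Y K M X : ℝ}
    (y0 : 0 ≤ Y) (y1 : Y ≤ 1 / 4)
    (k0 : 0 ≤ K) (k1 : K ≤ 1 / 4)
    (m0 : 0 ≤ M) (m1 : M ≤ 59 / 500)
    (x0 : 16249 / 25000 ≤ X) (x1 : X ≤ 13 / 20)
    (h3 : M ≤ 79 / 100 * K) :
    nF 1 (-1 / 2) (X + K) (M - Y) X Y (4 / 1000 + 1 / 5 * K + 65 / 100 * M) ≤ 0 := by
  obtain ⟨e, he, hp⟩ := chkT4 k1p (by norm_num) (x := Y) (y := K) (z := M) (w := X)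
    (by norm_num; linarith only [y0]) (by norm_num; linarith only [y1]) (by norm_num; linarith only [k0]) (by norm_num; linarith only [k1]) (by norm_num; linarith only [m0]) (by norm_num; linarith only [m1]) (by norm_num; linarith only [x0]) (by norm_num; linarith only [x1])
  simp only [List.mem_cons, List.not_mem_nil, or_false] at he
  rcases he with rfl | rfl
  · simp only [eN, eM, eF, eH, eN1, eN2, eDX, eGX, eGA, eDA, eP, eQ, eR, E.val, NumIs.lkR] at hp
    norm_num [nF, PY] at hp ⊢
    linarith only [hp]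
  · simp only [eN, eM, eF, eH, eN1, eN2, eDX, eGX, eGA, eDA, eP, eQ, eR, E.val, NumIs.lkR] at hp
    norm_num [nF, PY] at hp ⊢
    linarith only [h3, hp]

private theorem k1lo : chkT [eN (q 1 1) (q (-1) 2) (add (var 3) (var 2)) (var 1) (var 3) (q 18 100),
      sub (add (var 0) (var 1)) (q 16 100)] 40
    0x9882828802880288882002088288208802880288028802188282828802880288282828828282882828828888018218282182182118802880211
    [V.of 100000 0 16000, V.of 100000 0 16000,
    V.of 100000 24990 34950, V.of 100000 64996 65000] = true := by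
  decide +kernel

theorem c1lo {Y T K X : ℝ}
    (y0 : 0 ≤ Y) (y1 : Y ≤ 4 / 25)
    (t0 : 0 ≤ T) (t1 : T ≤ 4 / 25)
    (k0 : 2499 / 10000 ≤ K) (k1 : K ≤ 699 / 2000)
    (x0 : 16249 / 25000 ≤ X) (x1 : X ≤ 13 / 20)
    (h3 : Y + T ≤ 16 / 100) :
    nF 1 (-1 / 2) (X + K) T X Y (18 / 100) ≤ 0 := by
  obtain ⟨e, he, hp⟩ := chkT4 k1lo (by norm_num) (x := Y) (y := T) (z := K) (w := X)
    (by norm_num; linarith only [y0]) (by norm_num; linarith only [y1]) (by norm_num; linarith only [t0]) (by norm_num; linarith only [t1]) (by norm_num; linarith only [k0]) (by norm_num; linarith only [k1]) (by norm_num; linarith only [x0]) (by norm_num; linarith only [x1])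
  simp only [List.mem_cons, List.not_mem_nil, or_false] at he
  rcases he with rfl | rfl
  · simp only [eN, eM, eF, eH, eN1, eN2, eDX, eGX, eGA, eDA, eP, eQ, eR, E.val, NumIs.lkR] at hp
    norm_num [nF, PY] at hp ⊢
    linarith only [hp]
  · simp only [eN, eM, eF, eH, eN1, eN2, eDX, eGX, eGA, eDA, eP, eQ, eR, E.val, NumIs.lkR] at hp
    norm_num [nF, PY] at hp ⊢
    linarith only [h3, hp]

private theorem k1hi : chkT [eN (q 1 1) (q 3 2) (sub (add (var 3) (var 2)) (q 1 1)) (var 1) (var 3) (q 18 100),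
      sub (add (var 0) (var 1)) (q 16 100),
      sub (add (var 0) (var 1)) (mul (q 8 10) (sub (q 86 100) (var 2)))] 40
    0x999a8281820098018188088088882222220880880880880880882882022222188888882222228888888222888828888888211212122122211
    [V.of 100000 0 16000, V.of 100000 0 16000,
    V.of 100000 35100 71250, V.of 100000 64996 65000] = true := by
  decide +kernel

theorem c1hi {Y T K X : ℝ}
    (y0 : 0 ≤ Y) (y1 : Y ≤ 4 / 25)
    (t0 : 0 ≤ T) (t1 : T ≤ 4 / 25)
    (k0 : 351 / 1000 ≤ K) (k1 : K ≤ 57 / 80)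
    (x0 : 16249 / 25000 ≤ X) (x1 : X ≤ 13 / 20)
    (h3 : Y + T ≤ 16 / 100) (h4 : Y + T ≤ 8 / 10 * (86 / 100 - K)) :
    nF 1 (3 / 2) (X + K - 1) T X Y (18 / 100) ≤ 0 := by
  obtain ⟨e, he, hp⟩ := chkT4 k1hi (by norm_num) (x := Y) (y := T) (z := K) (w := X)
    (by norm_num; linarith only [y0]) (by norm_num; linarith only [y1]) (by norm_num; linarith only [t0]) (by norm_num; linarith only [t1]) (by norm_num; linarith only [k0]) (by norm_num; linarith only [k1]) (by norm_num; linarith only [x0]) (by norm_num; linarith only [x1])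
  simp only [List.mem_cons, List.not_mem_nil, or_false] at he
  rcases he with rfl | rfl | rfl
  · simp only [eN, eM, eF, eH, eN1, eN2, eDX, eGX, eGA, eDA, eP, eQ, eR, E.val, NumIs.lkR] at hp
    norm_num [nF, PY] at hp ⊢
    linarith only [hp]
  · simp only [eN, eM, eF, eH, eN1, eN2, eDX, eGX, eGA, eDA, eP, eQ, eR, E.val, NumIs.lkR] at hp
    norm_num [nF, PY] at hp ⊢
    linarith only [h3, hp]
  · simp only [eN, eM, eF, eH, eN1, eN2, eDX, eGX, eGA, eDA, eP, eQ, eR, E.val, NumIs.lkR] at hp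
    norm_num [nF, PY] at hp ⊢
    linarith only [h4, hp]

private theorem k1hj : chkT [eN (q 1 1) (q 3 2) (sub (add (var 3) (var 2)) (q 1 1)) (var 1) (var 3) (q 18 100),
      sub (add (var 0) (var 1)) (q 118 1000)] 40
    0x880
    [V.of 100000 0 11800, V.of 100000 0 11800,
    V.of 100000 71250 86000, V.of 100000 64996 65000] = true := by
  decide +kernel

theorem c1hj {Y T K X : ℝ}
    (y0 : 0 ≤ Y) (y1 : Y ≤ 59 / 500)
    (t0 : 0 ≤ T) (t1 : T ≤ 59 / 500)
    (k0 : 57 / 80 ≤ K) (k1 : K ≤ 43 / 50)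
    (x0 : 16249 / 25000 ≤ X) (x1 : X ≤ 13 / 20)
    (h3 : Y + T ≤ 118 / 1000) :
    nF 1 (3 / 2) (X + K - 1) T X Y (18 / 100) ≤ 0 := by
  obtain ⟨e, he, hp⟩ := chkT4 k1hj (by norm_num) (x := Y) (y := T) (z := K) (w := X)
    (by norm_num; linarith only [y0]) (by norm_num; linarith only [y1]) (by norm_num; linarith only [t0]) (by norm_num; linarith only [t1]) (by norm_num; linarith only [k0]) (by norm_num; linarith only [k1]) (by norm_num; linarith only [x0]) (by norm_num; linarith only [x1])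
  simp only [List.mem_cons, List.not_mem_nil, or_false] at he
  rcases he with rfl | rfl
  · simp only [eN, eM, eF, eH, eN1, eN2, eDX, eGX, eGA, eDA, eP, eQ, eR, E.val, NumIs.lkR] at hp
    norm_num [nF, PY] at hp ⊢
    linarith only [hp]
  · simp only [eN, eM, eF, eH, eN1, eN2, eDX, eGX, eGA, eDA, eP, eQ, eR, E.val, NumIs.lkR] at hp
    norm_num [nF, PY] at hp ⊢
    linarith only [h3, hp]

private theorem k1nr : chkT [eN1 (q 1 1) (var 1) (var 2) (q 18 100),
      eN2 (q 1 1) (var 1) (var 2) (q 18 100),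
      sub (add (var 0) (var 1)) (q 16 100)] 40
    0x891880910
    [V.of 100000 0 16000, V.of 100000 0 16000,
    V.of 100000 64996 65000] = true := by
  decide +kernel

theorem c1nr {Y T X : ℝ}
    (y0 : 0 ≤ Y) (y1 : Y ≤ 4 / 25)
    (t0 : 0 ≤ T) (t1 : T ≤ 4 / 25)
    (x0 : 16249 / 25000 ≤ X) (x1 : X ≤ 13 / 20)
    (h3 : Y + T ≤ 16 / 100) :
    (1 + PY Y) * (NumIs.lnB (999 / 1000) T - Real.pi * (499 / 1000) +
        1 * (NumIs.lnB X Y + Real.pi * (X - 1 / 2))) + 1 / 1000 +
        (49 / 5 + 270 * Y ^ 2) * (Real.pi * (1002 / 1000) * T + 7 / 1000 -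
          1 * (uu X Y - Real.pi * (X - 1 / 2) * Y) - 18 / 100) ≤ 0 ∨
      (1 + PY Y) * (-(Real.pi * (499 / 1000)) +
        1 * (NumIs.lnB X Y + Real.pi * (X - 1 / 2))) + 1 / 1000 +
        (49 / 5 + 270 * Y ^ 2) * (Real.pi * (1002 / 1000) * T + 7 / 1000 -
          1 * (uu X Y - Real.pi * (X - 1 / 2) * Y) - 18 / 100) ≤ 0 := by
  obtain ⟨e, he, hp⟩ := chkT3 k1nr (by norm_num) (x := Y) (y := T) (z := X)
    (by norm_num; linarith only [y0]) (by norm_num; linarith only [y1]) (by norm_num; linarith only [t0]) (by norm_num; linarith only [t1]) (by norm_num; linarith only [x0]) (by norm_num; linarith only [x1])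
  simp only [List.mem_cons, List.not_mem_nil, or_false] at he
  rcases he with rfl | rfl | rfl
  · left
    simp only [eN, eM, eF, eH, eN1, eN2, eDX, eGX, eGA, eDA, eP, eQ, eR, E.val, NumIs.lkR] at hp
    norm_num [nF, PY] at hp ⊢
    linarith only [hp]
  · right
    simp only [eN, eM, eF, eH, eN1, eN2, eDX, eGX, eGA, eDA, eP, eQ, eR, E.val, NumIs.lkR] at hp
    norm_num [nF, PY] at hp ⊢
    linarith only [hp]
  · simp only [eN, eM, eF, eH, eN1, eN2, eDX, eGX, eGA, eDA, eP, eQ, eR, E.val, NumIs.lkR] at hp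
    norm_num at hp
    linarith only [h3, hp]

private theorem k1F : chkT [eF (q 1 1) (var 1) (q 183 10000)] 40
    0x8808800
    [V.of 100000 0 25000, V.of 100000 64996 65000] = true := by
  decide +kernel

theorem c1F {Y X : ℝ}
    (y0 : 0 ≤ Y) (y1 : Y ≤ 1 / 4)
    (x0 : 16249 / 25000 ≤ X) (x1 : X ≤ 13 / 20) :
    (1 + PY Y) * (1 * (NumIs.lnB X Y + Real.pi * (X - 1 / 2))) + 1 / 1000 +
      (49 / 5 + 270 * Y ^ 2) * (-(1 * (uu X Y - Real.pi * (X - 1 / 2) * Y)) - 183 / 10000) ≤ 0 := by
  obtain ⟨e, he, hp⟩ := chkT2 k1F (by norm_num) (x := Y) (y := X)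
    (by norm_num; linarith only [y0]) (by norm_num; linarith only [y1]) (by norm_num; linarith only [x0]) (by norm_num; linarith only [x1])
  simp only [List.mem_cons, List.not_mem_nil, or_false] at he
  subst he
  simp only [eN, eM, eF, eH, eN1, eN2, eDX, eGX, eGA, eDA, eP, eQ, eR, E.val, NumIs.lkR] at hp
  norm_num [nF, PY] at hp ⊢
  linarith only [hp]

private theorem k1H : chkT [eH (q 1 1) (var 1) (q 18 100) (q 65 100)] 40
    0x880
    [V.of 100000 0 25000, V.of 100000 64996 65000] = true := by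
  decide +kernel

theorem c1H {Y X : ℝ}
    (y0 : 0 ≤ Y) (y1 : Y ≤ 1 / 4)
    (x0 : 16249 / 25000 ≤ X) (x1 : X ≤ 13 / 20) :
    Real.pi * (65 / 100) + 1 / 1000 ≤ (49 / 5 + 90 * Y ^ 2) *
      (1 * (uu X Y - Real.pi * (X - 1 / 2) * Y) + 18 / 100) := by
  obtain ⟨e, he, hp⟩ := chkT2 k1H (by norm_num) (x := Y) (y := X)
    (by norm_num; linarith only [y0]) (by norm_num; linarith only [y1]) (by norm_num; linarith only [x0]) (by norm_num; linarith only [x1])
  simp only [List.mem_cons, List.not_mem_nil, or_false] at he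
  subst he
  simp only [eN, eM, eF, eH, eN1, eN2, eDX, eGX, eGA, eDA, eP, eQ, eR, E.val, NumIs.lkR] at hp
  norm_num [nF, PY] at hp ⊢
  linarith only [hp]

private theorem k1dA : chkT [sub (q 3 20) (sub (lnA (var 1) (var 0)) (mul pi (var 0)))] 40
    0x88888811000
    [V.of 100000 25000 100000, V.of 100000 64990 90010] = true := by
  decide +kernel

theorem c1dA {Y X : ℝ}
    (y0 : 1 / 4 ≤ Y) (y1 : Y ≤ 1)
    (x0 : 6499 / 10000 ≤ X) (x1 : X ≤ 9001 / 10000) :
    NumIs.lnA X Y - Real.pi * Y ≤ 3 / 20 := by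
  obtain ⟨e, he, hp⟩ := chkT2 k1dA (by norm_num) (x := Y) (y := X)
    (by norm_num; linarith only [y0]) (by norm_num; linarith only [y1]) (by norm_num; linarith only [x0]) (by norm_num; linarith only [x1])
  simp only [List.mem_cons, List.not_mem_nil, or_false] at he
  subst he
  simp only [eN, eM, eF, eH, eN1, eN2, eDX, eGX, eGA, eDA, eP, eQ, eR, E.val, NumIs.lkR] at hp
  norm_num [nF, PY] at hp ⊢
  linarith only [hp]

private theorem k1dB : chkT [sub (q 65 100) (add (mul pi (sub (var 0) (q 1 2))) (lnB (var 0) (q 132 1000)))] 40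
    0x880
    [V.of 100000 64990 90010] = true := by
  decide +kernel

theorem c1dB {X : ℝ}
    (x0 : 6499 / 10000 ≤ X) (x1 : X ≤ 9001 / 10000) :
    Real.pi * (X - 1 / 2) + NumIs.lnB X (132 / 1000) ≤ 65 / 100 := by
  obtain ⟨e, he, hp⟩ := chkT1 k1dB (by norm_num) (x := X)
    (by norm_num; linarith only [x0]) (by norm_num; linarith only [x1])
  simp only [List.mem_cons, List.not_mem_nil, or_false] at he
  subst he
  simp only [eN, eM, eF, eH, eN1, eN2, eDX, eGX, eGA, eDA, eP, eQ, eR, E.val, NumIs.lkR] at hp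
  norm_num [nF, PY] at hp ⊢
  linarith only [hp]

end RB

end ZD

end Pool.Agent.Work.MP_b30479_gtS.G2

end

section

/-!
# Modes at rings, side of `D`: the rows `b1` and `b1d`
-/

namespace Pool.Agent.Work.MP_b30479_gtS.G2

open VOL NumUs

namespace ZD

namespace RB

theorem low1 {x k1 k2 Z : ℝ} (x0 : 64996 / 100000 ≤ x) (x1 : x ≤ 65 / 100) (hk : 1 / 4 ≤ k1)
    (hd : dom1 k1 k2) (h0 : 0 < Z) (h1 : Z < k2) : Cond 1 (x + k1) k2 x (18 / 100) Z := by
  obtain ⟨d1, d2, d3, d4⟩ := hd
  have k16 : k2 ≤ 16 / 100 := by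
    rcases d4 with ⟨_, d5⟩ | ⟨_, d5, _⟩ <;> linarith only [h0, h1, d5]
  rcases le_total k1 (3495 / 10000) with h2 | h2
  · refine cond_lt (by linarith only [x0, hk, h0, h1, k16]) (by linarith only [x1, h0, h1, k16, h2]) (by linarith only [x0, h0, h1, k16]) (by linarith only [x1, h0, h1, k16]) ?_
    exact c1lo (Y := Z) (T := k2 - Z) (K := k1) (X := x) (by linarith only [h0]) (by linarith only [h1, k16]) (by linarith only [h1])
      (by linarith only [h0, k16]) (by linarith only [hk, h0, h1, k16]) (by linarith only [h2]) (by linarith only [x0]) (by linarith only [x1]) (by linarith only [k16])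
  · rcases le_total k1 (351 / 1000) with h3 | h3
    · refine near (by linarith only [x0, h0, h1, k16, h2]) (by linarith only [x1, h3]) (by linarith only [x0, h0, h1, k16]) (by linarith only [x1, h0, h1, k16]) h0 h1 ?_
      exact c1nr (Y := Z) (T := k2 - Z) (X := x) (by linarith only [h0]) (by linarith only [h1, k16]) (by linarith only [h1])
        (by linarith only [h0, k16]) (by linarith only [x0]) (by linarith only [x1]) (by linarith only [k16])
    · refine cond_gt (by linarith only [x0, h0, h1, k16, h3]) (by linarith only [x1, h0, h1, d2, k16]) (by linarith only [x0, h0, h1, k16]) (by linarith only [x1, h0, h1, k16]) h1 ?_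
      rcases le_total k1 (7125 / 10000) with h4 | h4
      · exact c1hi (Y := Z) (T := k2 - Z) (K := k1) (X := x) (by linarith only [h0]) (by linarith only [h1, k16])
          (by linarith only [h1]) (by linarith only [h0, k16]) (by linarith only [h3]) (by linarith only [h4]) (by linarith only [x0]) (by linarith only [x1])
          (by linarith only [k16]) (by rcases d4 with ⟨_, d5⟩ | ⟨_, _, d5⟩ <;> linarith only [h4, d5])
      · have k118 : k2 ≤ 118 / 1000 := by
          rcases d4 with ⟨_, d5⟩ | ⟨_, _, d5⟩ <;> linarith only [d5, h4]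
        exact c1hj (Y := Z) (T := k2 - Z) (K := k1) (X := x) (by linarith only [h0]) (by linarith only [h1, k118])
          (by linarith only [h1]) (by linarith only [h0, k118]) (by linarith only [h4]) (by linarith only [d2]) (by linarith only [x0]) (by linarith only [x1])
          (by linarith only [k118])

theorem row1 {x Y k1 k2 : ℝ} (x0 : 64996 / 100000 ≤ x) (x1 : x ≤ 65 / 100) (hY : 0 < Y)
    (hY' : Y ≤ 1 / 4) (hd : dom1 k1 k2) : Row 1 (x + k1) k2 x (mA1 k1 k2) Y := by
  obtain ⟨d1, d2, d3, d4⟩ := id hd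
  rcases lt_or_ge k1 (1 / 4) with hk | hk
  · have d5 : k2 ≤ 79 / 100 * k1 ∧ k2 ≤ 118 / 1000 := by
      rcases d4 with d5 | ⟨d5, _⟩
      · exact d5
      · exact absurd hk (not_lt.mpr d5)
    rcases le_total k2 0 with h2 | h2
    · have hm : mA1 k1 k2 = 4 / 1000 + 1 / 5 * k1 := by
        unfold mA1
        rw [if_pos hk, max_eq_right h2]
        ring
      rw [hm]
      refine row_of hY.le fun Z z0 z1 _ => cond_lt (by linarith only [x0, hY', d1, z0, z1]) (by linarith only [x1, hY', hk, z0, z1]) (by linarith only [x0, hY', z0, z1])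
        (by linarith only [x1, hY', z0, z1]) ?_
      have h3 := c1n (Y := Z) (K := k1) (M := -k2) (X := x) (by linarith only [z0]) (by linarith only [hY', z1])
        (by linarith only [d1]) (by linarith only [hk]) (by linarith only [h2]) (by linarith only [d3]) (by linarith only [x0]) (by linarith only [x1])
      rwa [neg_neg] at h3
    · have hm : mA1 k1 k2 = 4 / 1000 + 1 / 5 * k1 + 65 / 100 * k2 := by
        unfold mA1
        rw [if_pos hk, max_eq_left h2]
      rw [hm]
      refine row_of hY.le fun Z z0 z1 _ => cond_lt (by linarith only [x0, hY', d1, z0, z1]) (by linarith only [x1, hY', hk, z0, z1]) (by linarith only [x0, hY', z0, z1])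
        (by linarith only [x1, hY', z0, z1]) ?_
      exact c1p (Y := Z) (K := k1) (M := k2) (X := x) (by linarith only [z0]) (by linarith only [hY', z1])
        (by linarith only [d1]) (by linarith only [hk]) (by linarith only [h2]) (by linarith only [d5]) (by linarith only [x0]) (by linarith only [x1]) d5.1
  · have hm : mA1 k1 k2 = 18 / 100 := by
      unfold mA1
      rw [if_neg (not_lt.mpr hk)]
    rw [hm]
    rcases le_total Y k2 with h2 | h2
    · exact row_of hY.le fun Z z0 z1 _ => low1 x0 x1 hk hd z0 (by linarith only [h2, z1])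
    · have crude : ∀ a', 1 / 2 ≤ a' → a' ≤ 1 → (x + k1 = a' ∨ x + k1 = a' + 1) →
          Row 1 (x + k1) k2 x (18 / 100) Y := by
        intro a' a0 a1 ha
        refine row_of hY.le fun Z z0 z1 z2 => ?_
        rcases lt_or_gt_of_ne z2 with z2 | z2
        · exact low1 x0 x1 hk hd z0 z2
        · exact crudeF a0 a1 ha (by linarith only [x0, hY', z0, z1]) (by linarith only [x1, hY', z0, z1]) z0 z2
            (rh_le a0 a1 (by linarith only [z2])) (μ := 183 / 10000) (by norm_num)
            (c1F (Y := Z) (X := x) (by linarith only [z0]) (by linarith only [hY', z1]) (by linarith only [x0]) (by linarith only [x1]))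
      rcases le_total (x + k1) 1 with h3 | h3
      · exact crude (x + k1) (by linarith only [x0, hY, hY', hk]) h3 (Or.inl rfl)
      · rcases le_total (x + k1) (3 / 2) with h4 | h4
        · exact crudeH (κ := 65 / 100) (μ := 18 / 100) (by norm_num) h3 h4 (by linarith only [x0, hY, hY']) hY h2
            (by linarith only [x1, h3]) le_rfl
            (c1H (Y := Y) (X := x) (by linarith only [hY]) (by linarith only [hY']) (by linarith only [x0]) (by linarith only [x1]))
        · exact crude (x + k1 - 1) (by linarith only [h4]) (by linarith only [x1, hY, hY', d2]) (Or.inr (by ring))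

end RB

open RB

theorem b1 : ∀ x Y k1 k2 : ℝ, 64996 / 100000 ≤ x → x ≤ 65 / 100 → 0 < Y → Y ≤ 1 / 4 →
    dom1 k1 k2 → dA1 x Y k1 k2 - dA1 x 0 k1 k2 + Y / 1000 +
      PY Y * (dA1 x Y k1 k2 - cA1 k1 k2 - mA1 k1 k2) ≤ 0 := by
  intro x Y k1 k2 x0 x1 hY hY' hd
  have h := row1 x0 x1 hY hY' hd
  unfold Row at h
  rw [dA1_FF, dA1_FF]
  have e : PY Y * (RB.FF 1 (x + k1) k2 x Y + cA1 k1 k2 - cA1 k1 k2 - mA1 k1 k2) =
      PY Y * (RB.FF 1 (x + k1) k2 x Y - mA1 k1 k2) := by ring
  rw [e]
  linarith only [h]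

theorem b1d : ∀ x Y k1 k2 : ℝ, 64996 / 100000 ≤ x → x ≤ 65 / 100 → 1 / 4 ≤ Y → Y ≤ 1 →
    dom1 k1 k2 → dA1 x Y k1 k2 ≤ cA1 k1 k2 + mA1 k1 k2 + 4 / 1000 := by
  intro x Y k1 k2 x0 x1 hY hY' hd
  obtain ⟨d1, d2, d3, d4⟩ := hd
  have k16 : k2 ≤ 16 / 100 := by
    rcases d4 with ⟨_, d5⟩ | ⟨_, d5, _⟩ <;> linarith only [d5]
  rw [dA1_FF, FF_ge (by linarith only [hY, k16])]
  have hx := rh_nonneg (a := x) (y := Y) (by linarith only [x0]) (by linarith only [x1]) (by linarith only [hY])
  rcases lt_or_ge k1 (1 / 4) with hk | hk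
  · have d5 : k2 ≤ 79 / 100 * k1 ∧ k2 ≤ 118 / 1000 := by
      rcases d4 with d5 | ⟨d5, _⟩
      · exact d5
      · exact absurd hk (not_lt.mpr d5)
    have hm : mA1 k1 k2 = 4 / 1000 + 1 / 5 * k1 + 65 / 100 * max k2 0 := by
      unfold mA1
      rw [if_pos hk]
    rw [hm]
    have h1 := rh_anti (a := x + k1) (y := Y - max k2 0) (y' := Y - k2) (by linarith only [x0, d1])
      (by linarith only [x1, d2, hk]) (by
        have : max k2 0 ≤ 118 / 1000 := max_le d5.2 (by norm_num)
        linarith only [hY, this]) (by linarith only [le_max_left k2 0])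
    have h2 := rh_vert (a := x + k1) (y0 := 132 / 1000) (y := Y - max k2 0) (y' := Y)
      (σ := 65 / 100) (by linarith only [x0, d1]) (by linarith only [x1, hk]) (by norm_num) (by
        have : max k2 0 ≤ 118 / 1000 := max_le d5.2 (by norm_num)
        linarith only [hY, this]) (by linarith only [le_max_right k2 0])
      (c1dB (X := x + k1) (by linarith only [x0, d1]) (by linarith only [x1, hk]))
    have h3 := rh_slope (x := x) (a := x + k1) (Y := Y) (κ := 3 / 20) (by linarith only [x0]) (by linarith only [d1])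
      (by linarith only [x1, hk]) (fun v v0 v1 => c1dA (Y := Y) (X := v) (by linarith only [hY]) (by linarith only [hY'])
        (by linarith only [x0, v0]) (by linarith only [x1, hk, v1]))
    linarith only [d1, h1, h2, h3]
  · have hm : mA1 k1 k2 = 18 / 100 := by
      unfold mA1
      rw [if_neg (not_lt.mpr hk)]
    rw [hm]
    have h1 : rh (x + k1) (Y - k2) ≤ 1617 / 10000 := by
      rcases le_total (x + k1) 1 with h3 | h3
      · exact rh_le (by linarith only [x0, hk]) h3 (by linarith only [hY, k16])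
      · rcases le_total (x + k1) (3 / 2) with h4 | h4
        · linarith only [h3, h4, hY, k16, rh_nonpos (y := Y - k2) h3 h4 (by linarith only [hY, k16])]
        · have h5 := rh_add_one (a := x + k1 - 1) (y := Y - k2) (by linarith only [hY, k16])
          rw [sub_add_cancel] at h5
          rw [h5]
          exact rh_le (by linarith only [h4]) (by linarith only [x1, d2]) (by linarith only [hY, k16])
    linarith only [hx, h1]

end ZD

end Pool.Agent.Work.MP_b30479_gtS.G2

end

section

/-!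
# Modes at rings, side of `D`: the lower end of the mode path, certificates for `b2`
-/

set_option linter.unusedVariables false
set_option linter.unusedSimpArgs false

set_option deprecated.oldSectionVars true

namespace Pool.Agent.Work.MP_b30479_gtS.G2

open VOL NumUs

namespace ZD

namespace RB

open NumUs.E
open NumIs (V)

private theorem k2n : chkT [eN (q 2 1) (q (-1) 2) (add (var 3) (var 1)) (sub (neg (var 2)) (var 0)) (var 3) (add (q 2 100) (mul (q 7 10) (var 1)))] 40
    0x88880228882218888022888121088088802288822888018828820211888128818822888120101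
    [V.of 100000 0 13000, V.of 100000 0 32860,
    V.of 100000 0 40000, V.of 100000 59996 60000] = true := by
  decide +kernel

theorem c2n {Y K M X : ℝ}
    (y0 : 0 ≤ Y) (y1 : Y ≤ 13 / 100)
    (k0 : 0 ≤ K) (k1 : K ≤ 1643 / 5000)
    (m0 : 0 ≤ M) (m1 : M ≤ 2 / 5)
    (x0 : 14999 / 25000 ≤ X) (x1 : X ≤ 3 / 5) :
    nF 2 (-1 / 2) (X + K) (-M - Y) X Y (2 / 100 + 7 / 10 * K) ≤ 0 := by
  obtain ⟨e, he, hp⟩ := chkT4 k2n (by norm_num) (x := Y) (y := K) (z := M) (w := X)
    (by norm_num; linarith only [y0]) (by norm_num; linarith only [y1]) (by norm_num; linarith only [k0]) (by norm_num; linarith only [k1]) (by norm_num; linarith only [m0]) (by norm_num; linarith only [m1]) (by norm_num; linarith only [x0]) (by norm_num; linarith only [x1])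
  simp only [List.mem_cons, List.not_mem_nil, or_false] at he
  subst he
  simp only [eN, eM, eF, eH, eN1, eN2, eDX, eGX, eGA, eDA, eP, eQ, eR, E.val, NumIs.lkR] at hp
  norm_num [nF, PY] at hp ⊢
  linarith only [hp]

private theorem k2p : chkT [eN (q 2 1) (q (-1) 2) (add (var 3) (var 1)) (sub (var 2) (var 0)) (var 3) (add (q 2 100) (mul (q 7 10) (var 1))),
      sub (var 2) (mul (q 16 5) (var 1))] 40
    0x882882088018808218818880108880082888008298802111188800828880082188801888108282018880182888008288800918211881880881108282880881098218802821010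
    [V.of 100000 0 13000, V.of 100000 0 32860,
    V.of 100000 0 16000, V.of 100000 59996 60000] = true := by
  decide +kernel

theorem c2p {Y K M X : ℝ}
    (y0 : 0 ≤ Y) (y1 : Y ≤ 13 / 100)
    (k0 : 0 ≤ K) (k1 : K ≤ 1643 / 5000)
    (m0 : 0 ≤ M) (m1 : M ≤ 4 / 25)
    (x0 : 14999 / 25000 ≤ X) (x1 : X ≤ 3 / 5)
    (h3 : M ≤ 16 / 5 * K) :
    nF 2 (-1 / 2) (X + K) (M - Y) X Y (2 / 100 + 7 / 10 * K) ≤ 0 := by
  obtain ⟨e, he, hp⟩ := chkT4 k2p (by norm_num) (x := Y) (y := K) (z := M) (w := X)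
    (by norm_num; linarith only [y0]) (by norm_num; linarith only [y1]) (by norm_num; linarith only [k0]) (by norm_num; linarith only [k1]) (by norm_num; linarith only [m0]) (by norm_num; linarith only [m1]) (by norm_num; linarith only [x0]) (by norm_num; linarith only [x1])
  simp only [List.mem_cons, List.not_mem_nil, or_false] at he
  rcases he with rfl | rfl
  · simp only [eN, eM, eF, eH, eN1, eN2, eDX, eGX, eGA, eDA, eP, eQ, eR, E.val, NumIs.lkR] at hp
    norm_num [nF, PY] at hp ⊢
    linarith only [hp]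
  · simp only [eN, eM, eF, eH, eN1, eN2, eDX, eGX, eGA, eDA, eP, eQ, eR, E.val, NumIs.lkR] at hp
    norm_num [nF, PY] at hp ⊢
    linarith only [h3, hp]

private theorem k2lo : chkT [eN (q 2 1) (q (-1) 2) (add (var 3) (var 2)) (var 1) (var 3) (q 1 4),
      sub (add (var 0) (var 1)) (q 16 100)] 40
    0x8828820880288028802880288282828282882828282882828288288888018211821828218218211
    [V.of 100000 0 13000, V.of 100000 0 16000,
    V.of 100000 32850 39950, V.of 100000 59996 60000] = true := by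
  decide +kernel

theorem c2lo {Y T K X : ℝ}
    (y0 : 0 ≤ Y) (y1 : Y ≤ 13 / 100)
    (t0 : 0 ≤ T) (t1 : T ≤ 4 / 25)
    (k0 : 657 / 2000 ≤ K) (k1 : K ≤ 799 / 2000)
    (x0 : 14999 / 25000 ≤ X) (x1 : X ≤ 3 / 5)
    (h3 : Y + T ≤ 16 / 100) :
    nF 2 (-1 / 2) (X + K) T X Y (1 / 4) ≤ 0 := by
  obtain ⟨e, he, hp⟩ := chkT4 k2lo (by norm_num) (x := Y) (y := T) (z := K) (w := X)
    (by norm_num; linarith only [y0]) (by norm_num; linarith only [y1]) (by norm_num; linarith only [t0]) (by norm_num; linarith only [t1]) (by norm_num; linarith only [k0]) (by norm_num; linarith only [k1]) (by norm_num; linarith only [x0]) (by norm_num; linarith only [x1])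
  simp only [List.mem_cons, List.not_mem_nil, or_false] at he
  rcases he with rfl | rfl
  · simp only [eN, eM, eF, eH, eN1, eN2, eDX, eGX, eGA, eDA, eP, eQ, eR, E.val, NumIs.lkR] at hp
    norm_num [nF, PY] at hp ⊢
    linarith only [hp]
  · simp only [eN, eM, eF, eH, eN1, eN2, eDX, eGX, eGA, eDA, eP, eQ, eR, E.val, NumIs.lkR] at hp
    norm_num [nF, PY] at hp ⊢
    linarith only [h3, hp]

private theorem k2hi : chkT [eN (q 2 1) (q 3 2) (sub (add (var 3) (var 2)) (q 1 1)) (var 1) (var 3) (q 1 4),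
      sub (add (var 0) (var 1)) (q 16 100)] 40
    0x888820088088088088088288202222288888882222888882288828888888212112121221221
    [V.of 100000 0 13000, V.of 100000 0 16000,
    V.of 100000 40100 80000, V.of 100000 59996 60000] = true := by
  decide +kernel

theorem c2hi {Y T K X : ℝ}
    (y0 : 0 ≤ Y) (y1 : Y ≤ 13 / 100)
    (t0 : 0 ≤ T) (t1 : T ≤ 4 / 25)
    (k0 : 401 / 1000 ≤ K) (k1 : K ≤ 4 / 5)
    (x0 : 14999 / 25000 ≤ X) (x1 : X ≤ 3 / 5)
    (h3 : Y + T ≤ 16 / 100) :
    nF 2 (3 / 2) (X + K - 1) T X Y (1 / 4) ≤ 0 := by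
  obtain ⟨e, he, hp⟩ := chkT4 k2hi (by norm_num) (x := Y) (y := T) (z := K) (w := X)
    (by norm_num; linarith only [y0]) (by norm_num; linarith only [y1]) (by norm_num; linarith only [t0]) (by norm_num; linarith only [t1]) (by norm_num; linarith only [k0]) (by norm_num; linarith only [k1]) (by norm_num; linarith only [x0]) (by norm_num; linarith only [x1])
  simp only [List.mem_cons, List.not_mem_nil, or_false] at he
  rcases he with rfl | rfl
  · simp only [eN, eM, eF, eH, eN1, eN2, eDX, eGX, eGA, eDA, eP, eQ, eR, E.val, NumIs.lkR] at hp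
    norm_num [nF, PY] at hp ⊢
    linarith only [hp]
  · simp only [eN, eM, eF, eH, eN1, eN2, eDX, eGX, eGA, eDA, eP, eQ, eR, E.val, NumIs.lkR] at hp
    norm_num [nF, PY] at hp ⊢
    linarith only [h3, hp]

private theorem k2nr : chkT [eN1 (q 2 1) (var 1) (var 2) (q 1 4),
      eN2 (q 2 1) (var 1) (var 2) (q 1 4),
      sub (add (var 0) (var 1)) (q 16 100)] 40
    0x89191
    [V.of 100000 0 13000, V.of 100000 0 16000,
    V.of 100000 59996 60000] = true := by
  decide +kernel

theorem c2nr {Y T X : ℝ}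
    (y0 : 0 ≤ Y) (y1 : Y ≤ 13 / 100)
    (t0 : 0 ≤ T) (t1 : T ≤ 4 / 25)
    (x0 : 14999 / 25000 ≤ X) (x1 : X ≤ 3 / 5)
    (h3 : Y + T ≤ 16 / 100) :
    (1 + PY Y) * (NumIs.lnB (999 / 1000) T - Real.pi * (499 / 1000) +
        2 * (NumIs.lnB X Y + Real.pi * (X - 1 / 2))) + 1 / 1000 +
        (49 / 5 + 270 * Y ^ 2) * (Real.pi * (1002 / 1000) * T + 7 / 1000 -
          2 * (uu X Y - Real.pi * (X - 1 / 2) * Y) - 1 / 4) ≤ 0 ∨
      (1 + PY Y) * (-(Real.pi * (499 / 1000)) +
        2 * (NumIs.lnB X Y + Real.pi * (X - 1 / 2))) + 1 / 1000 +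
        (49 / 5 + 270 * Y ^ 2) * (Real.pi * (1002 / 1000) * T + 7 / 1000 -
          2 * (uu X Y - Real.pi * (X - 1 / 2) * Y) - 1 / 4) ≤ 0 := by
  obtain ⟨e, he, hp⟩ := chkT3 k2nr (by norm_num) (x := Y) (y := T) (z := X)
    (by norm_num; linarith only [y0]) (by norm_num; linarith only [y1]) (by norm_num; linarith only [t0]) (by norm_num; linarith only [t1]) (by norm_num; linarith only [x0]) (by norm_num; linarith only [x1])
  simp only [List.mem_cons, List.not_mem_nil, or_false] at he
  rcases he with rfl | rfl | rfl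
  · left
    simp only [eN, eM, eF, eH, eN1, eN2, eDX, eGX, eGA, eDA, eP, eQ, eR, E.val, NumIs.lkR] at hp
    norm_num [nF, PY] at hp ⊢
    linarith only [hp]
  · right
    simp only [eN, eM, eF, eH, eN1, eN2, eDX, eGX, eGA, eDA, eP, eQ, eR, E.val, NumIs.lkR] at hp
    norm_num [nF, PY] at hp ⊢
    linarith only [hp]
  · simp only [eN, eM, eF, eH, eN1, eN2, eDX, eGX, eGA, eDA, eP, eQ, eR, E.val, NumIs.lkR] at hp
    norm_num at hp
    linarith only [h3, hp]

private theorem k2F : chkT [eF (q 2 1) (var 1) (q 65 10000)] 40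
    0x880
    [V.of 100000 0 13000, V.of 100000 59996 60000] = true := by
  decide +kernel

theorem c2F {Y X : ℝ}
    (y0 : 0 ≤ Y) (y1 : Y ≤ 13 / 100)
    (x0 : 14999 / 25000 ≤ X) (x1 : X ≤ 3 / 5) :
    (1 + PY Y) * (2 * (NumIs.lnB X Y + Real.pi * (X - 1 / 2))) + 1 / 1000 +
      (49 / 5 + 270 * Y ^ 2) * (-(2 * (uu X Y - Real.pi * (X - 1 / 2) * Y)) - 65 / 10000) ≤ 0 := by
  obtain ⟨e, he, hp⟩ := chkT2 k2F (by norm_num) (x := Y) (y := X)
    (by norm_num; linarith only [y0]) (by norm_num; linarith only [y1]) (by norm_num; linarith only [x0]) (by norm_num; linarith only [x1])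
  simp only [List.mem_cons, List.not_mem_nil, or_false] at he
  subst he
  simp only [eN, eM, eF, eH, eN1, eN2, eDX, eGX, eGA, eDA, eP, eQ, eR, E.val, NumIs.lkR] at hp
  norm_num [nF, PY] at hp ⊢
  linarith only [hp]

private theorem k2H : chkT [eH (q 2 1) (var 1) (q 1 4) (q 7 10)] 40
    0x8
    [V.of 100000 0 13000, V.of 100000 59996 60000] = true := by
  decide +kernel

theorem c2H {Y X : ℝ}
    (y0 : 0 ≤ Y) (y1 : Y ≤ 13 / 100)
    (x0 : 14999 / 25000 ≤ X) (x1 : X ≤ 3 / 5) :
    Real.pi * (7 / 10) + 1 / 1000 ≤ (49 / 5 + 90 * Y ^ 2) *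
      (2 * (uu X Y - Real.pi * (X - 1 / 2) * Y) + 1 / 4) := by
  obtain ⟨e, he, hp⟩ := chkT2 k2H (by norm_num) (x := Y) (y := X)
    (by norm_num; linarith only [y0]) (by norm_num; linarith only [y1]) (by norm_num; linarith only [x0]) (by norm_num; linarith only [x1])
  simp only [List.mem_cons, List.not_mem_nil, or_false] at he
  subst he
  simp only [eN, eM, eF, eH, eN1, eN2, eDX, eGX, eGA, eDA, eP, eQ, eR, E.val, NumIs.lkR] at hp
  norm_num [nF, PY] at hp ⊢
  linarith only [hp]

private theorem k2dA : chkT [sub (q 7 10) (sub (lnA (var 1) (var 0)) (mul pi (var 0)))] 40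
    0x888881000
    [V.of 100000 13000 100000, V.of 100000 59990 92900] = true := by
  decide +kernel

theorem c2dA {Y X : ℝ}
    (y0 : 13 / 100 ≤ Y) (y1 : Y ≤ 1)
    (x0 : 5999 / 10000 ≤ X) (x1 : X ≤ 929 / 1000) :
    NumIs.lnA X Y - Real.pi * Y ≤ 7 / 10 := by
  obtain ⟨e, he, hp⟩ := chkT2 k2dA (by norm_num) (x := Y) (y := X)
    (by norm_num; linarith only [y0]) (by norm_num; linarith only [y1]) (by norm_num; linarith only [x0]) (by norm_num; linarith only [x1])
  simp only [List.mem_cons, List.not_mem_nil, or_false] at he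
  subst he
  simp only [eN, eM, eF, eH, eN1, eN2, eDX, eGX, eGA, eDA, eP, eQ, eR, E.val, NumIs.lkR] at hp
  norm_num [nF, PY] at hp ⊢
  linarith only [hp]

private theorem k2dp : chkT [eM (q 2 1) (q (-1) 2) (add (var 3) (var 1)) (sub (var 2) (var 0)) (var 3) (add (q 2 100) (mul (q 7 10) (var 1))),
      sub (var 2) (mul (q 16 5) (var 1))] 40
    0x8818808891118888011218808188188089821111880818881018818881018818810821100
    [V.of 100000 13000 50000, V.of 100000 0 32860,
    V.of 100000 0 16000, V.of 100000 59996 60000] = true := by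
  decide +kernel

theorem c2dp {Y K M X : ℝ}
    (y0 : 13 / 100 ≤ Y) (y1 : Y ≤ 1 / 2)
    (k0 : 0 ≤ K) (k1 : K ≤ 1643 / 5000)
    (m0 : 0 ≤ M) (m1 : M ≤ 4 / 25)
    (x0 : 14999 / 25000 ≤ X) (x1 : X ≤ 3 / 5)
    (h3 : M ≤ 16 / 5 * K) :
    Real.pi * (X + K - 1 / 2) * (M - Y) + uu (X + K) (M - Y) - 2 * (uu X Y - Real.pi * (X - 1 / 2) * Y) ≤
      2 / 100 + 7 / 10 * K := by
  obtain ⟨e, he, hp⟩ := chkT4 k2dp (by norm_num) (x := Y) (y := K) (z := M) (w := X)
    (by norm_num; linarith only [y0]) (by norm_num; linarith only [y1]) (by norm_num; linarith only [k0]) (by norm_num; linarith only [k1]) (by norm_num; linarith only [m0]) (by norm_num; linarith only [m1]) (by norm_num; linarith only [x0]) (by norm_num; linarith only [x1])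
  simp only [List.mem_cons, List.not_mem_nil, or_false] at he
  rcases he with rfl | rfl
  · simp only [eN, eM, eF, eH, eN1, eN2, eDX, eGX, eGA, eDA, eP, eQ, eR, E.val, NumIs.lkR] at hp
    norm_num [nF, PY] at hp ⊢
    linarith only [hp]
  · simp only [eN, eM, eF, eH, eN1, eN2, eDX, eGX, eGA, eDA, eP, eQ, eR, E.val, NumIs.lkR] at hp
    norm_num [nF, PY] at hp ⊢
    linarith only [h3, hp]

private theorem k2d34 : chkT [sub (q 2 100) (eGA (q (-1) 2) (var 0) (neg (q 34 100)))] 40
    0x88800880800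
    [V.of 100000 59990 92900] = true := by
  decide +kernel

theorem c2d34 {X : ℝ}
    (x0 : 5999 / 10000 ≤ X) (x1 : X ≤ 929 / 1000) :
    uu X (-(34 / 100)) - Real.pi * (X - 1 / 2) * (34 / 100) ≤ 2 / 100 := by
  obtain ⟨e, he, hp⟩ := chkT1 k2d34 (by norm_num) (x := X)
    (by norm_num; linarith only [x0]) (by norm_num; linarith only [x1])
  simp only [List.mem_cons, List.not_mem_nil, or_false] at he
  subst he
  simp only [eN, eM, eF, eH, eN1, eN2, eDX, eGX, eGA, eDA, eP, eQ, eR, E.val, NumIs.lkR] at hp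
  norm_num [nF, PY] at hp ⊢
  linarith only [hp]

private theorem k2d40 : chkT [sub (q 135 10000) (eGA (q (-1) 2) (var 0) (neg (q 4 10)))] 40
    0x88800880800
    [V.of 100000 59990 92900] = true := by
  decide +kernel

theorem c2d40 {X : ℝ}
    (x0 : 5999 / 10000 ≤ X) (x1 : X ≤ 929 / 1000) :
    uu X (-(4 / 10)) - Real.pi * (X - 1 / 2) * (4 / 10) ≤ 135 / 10000 := by
  obtain ⟨e, he, hp⟩ := chkT1 k2d40 (by norm_num) (x := X)
    (by norm_num; linarith only [x0]) (by norm_num; linarith only [x1])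
  simp only [List.mem_cons, List.not_mem_nil, or_false] at he
  subst he
  simp only [eN, eM, eF, eH, eN1, eN2, eDX, eGX, eGA, eDA, eP, eQ, eR, E.val, NumIs.lkR] at hp
  norm_num [nF, PY] at hp ⊢
  linarith only [hp]

end RB

end ZD

end Pool.Agent.Work.MP_b30479_gtS.G2

end

section

/-!
# Modes at rings, side of `D`: the rows `b2` and `b2d`
-/

namespace Pool.Agent.Work.MP_b30479_gtS.G2

open VOL NumUs

namespace ZD

namespace RB

theorem low2 {x k1 k2 Z : ℝ} (x0 : 59996 / 100000 ≤ x) (x1 : x ≤ 60 / 100) (hk : 23 / 70 ≤ k1)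
    (hk' : k1 ≤ 80 / 100) (k16 : k2 ≤ 16 / 100) (h0 : 0 < Z) (hZ : Z ≤ 13 / 100) (h1 : Z < k2) :
    Cond 2 (x + k1) k2 x (1 / 4) Z := by
  rcases le_total k1 (3995 / 10000) with h2 | h2
  · refine cond_lt (by linarith only [x0, hk]) (by linarith only [x1, h2]) (by linarith only [x0]) (by linarith only [x1]) ?_
    exact c2lo (Y := Z) (T := k2 - Z) (K := k1) (X := x) (by linarith only [h0]) (by linarith only [hZ]) (by linarith only [h1])
      (by linarith only [k16, h0]) (by linarith only [hk]) (by linarith only [h2]) (by linarith only [x0]) (by linarith only [x1]) (by linarith only [k16])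
  · rcases le_total k1 (401 / 1000) with h3 | h3
    · refine near (by linarith only [x0, h2]) (by linarith only [x1, h3]) (by linarith only [x0]) (by linarith only [x1]) h0 h1 ?_
      exact c2nr (Y := Z) (T := k2 - Z) (X := x) (by linarith only [h0]) (by linarith only [hZ]) (by linarith only [h1])
        (by linarith only [k16, h0]) (by linarith only [x0]) (by linarith only [x1]) (by linarith only [k16])
    · refine cond_gt (by linarith only [x0, k16, h0, h1, h3]) (by linarith only [x1, hk', k16, h0, h1]) (by linarith only [x0, k16, h0, h1]) (by linarith only [x1, k16, h0, h1]) h1 ?_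
      exact c2hi (Y := Z) (T := k2 - Z) (K := k1) (X := x) (by linarith only [h0]) (by linarith only [hZ])
        (by linarith only [h1]) (by linarith only [k16, h0]) (by linarith only [h3]) (by linarith only [hk']) (by linarith only [x0]) (by linarith only [x1])
        (by linarith only [k16])

theorem rh_40 {a y : ℝ} (h0 : 59996 / 100000 ≤ a) (h1 : a ≤ 929 / 1000) (hy : 4 / 10 ≤ y) :
    rh a y ≤ 135 / 10000 := by
  have h2 := rh_anti (a := a) (y := 4 / 10) (y' := y) (by linarith only [h0]) (by linarith only [h1]) (by norm_num) hy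
  have h3 := c2d40 (X := a) (by linarith only [h0]) (by linarith only [h1])
  rw [uu_neg] at h3
  exact h2.trans h3

theorem rh_34 {a y : ℝ} (h0 : 59996 / 100000 ≤ a) (h1 : a ≤ 929 / 1000) (hy : 34 / 100 ≤ y) :
    rh a y ≤ 2 / 100 := by
  have h2 := rh_anti (a := a) (y := 34 / 100) (y' := y) (by linarith only [h0]) (by linarith only [h1]) (by norm_num)
    hy
  have h3 := c2d34 (X := a) (by linarith only [h0]) (by linarith only [h1])
  rw [uu_neg] at h3
  exact h2.trans h3

theorem row2 {x Y k1 k2 : ℝ} (x0 : 59996 / 100000 ≤ x) (x1 : x ≤ 60 / 100) (hY : 0 < Y)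
    (hY' : Y ≤ 13 / 100) (hd : dom2 k1 k2) : Row 2 (x + k1) k2 x (mA2 k1) Y := by
  obtain ⟨d1, d2, d3, d4⟩ := hd
  have crude : ∀ Z m R a', 0 < Z → Z ≤ 13 / 100 → k2 < Z → 1 / 2 ≤ a' → a' ≤ 1 →
      (x + k1 = a' ∨ x + k1 = a' + 1) → rh a' (Z - k2) ≤ R → 65 / 10000 ≤ m - R →
      Cond 2 (x + k1) k2 x m Z := by
    intro Z m R a' z0 z1 z2 a0 a1 ha hR hm
    exact crudeF a0 a1 ha (by linarith only [x0, hY, hY']) (by linarith only [x1, hY, hY']) z0 z2 hR hm
      (c2F (Y := Z) (X := x) (by linarith only [z0]) (by linarith only [z1]) (by linarith only [x0]) (by linarith only [x1]))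
  rcases le_total k1 (23 / 70) with hk | hk
  · have hm : mA2 k1 = 2 / 100 + 7 / 10 * k1 := by
      unfold mA2
      exact min_eq_left (by linarith only [hk])
    rw [hm]
    refine row_of hY.le fun Z z0 z1 z2 => ?_
    rcases le_total 0 k2 with h2 | h2
    · refine cond_lt (by linarith only [x0, hY', d1, z0, z1]) (by linarith only [x1, hY', hk, z0, z1]) (by linarith only [x0, hY', z0, z1]) (by linarith only [x1, hY', z0, z1]) ?_
      exact c2p (Y := Z) (K := k1) (M := k2) (X := x) (by linarith only [z0]) (by linarith only [hY', z1])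
        (by linarith only [d1]) (by linarith only [hY', hk, z0, z1]) (by linarith only [h2]) (by linarith only [d3]) (by linarith only [x0]) (by linarith only [x1])
        (by linarith only [d4])
    · rcases le_total (-(4 / 10)) k2 with h3 | h3
      · refine cond_lt (by linarith only [x0, hY', d1, z0, z1]) (by linarith only [x1, hY', hk, z0, z1]) (by linarith only [x0, hY', z0, z1]) (by linarith only [x1, hY', z0, z1]) ?_
        have h4 := c2n (Y := Z) (K := k1) (M := -k2) (X := x) (by linarith only [z0]) (by linarith only [hY', z1])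
          (by linarith only [d1]) (by linarith only [hY', hk, z0, z1]) (by linarith only [h2]) (by linarith only [h3]) (by linarith only [x0]) (by linarith only [x1])
        rwa [neg_neg] at h4
      · exact crude Z _ (135 / 10000) (x + k1) z0 (by linarith only [hY', z1]) (by linarith only [hY', z0, z1, h3]) (by linarith only [x0, hY', d1, z0, z1])
          (by linarith only [x1, hY', hk, z0, z1]) (Or.inl rfl) (rh_40 (by linarith only [x0, d1]) (by linarith only [x1, hY', hk, z0, z1]) (by linarith only [z0, h3]))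
          (by linarith only [d1])
  · have hm : mA2 k1 = 1 / 4 := by
      unfold mA2
      exact min_eq_right (by linarith only [hk])
    rw [hm]
    rcases le_total Y k2 with h2 | h2
    · exact row_of hY.le fun Z z0 z1 _ => low2 x0 x1 hk d2 d3 z0 (by linarith only [hY', z1]) (by linarith only [h2, z1])
    · rcases le_total (x + k1) 1 with h3 | h3
      · refine row_of hY.le fun Z z0 z1 z2 => ?_
        rcases lt_or_gt_of_ne z2 with z2 | z2
        · exact low2 x0 x1 hk d2 d3 z0 (by linarith only [hY', z1]) z2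
        · exact crude Z _ (1617 / 10000) (x + k1) z0 (by linarith only [hY', z1]) z2 (by linarith only [x0, hY', hk, z0, z1]) h3
            (Or.inl rfl) (rh_le (by linarith only [x0, hY', hk, z0, z1]) h3 (by linarith only [z2])) (by norm_num)
      · exact crudeH (κ := 7 / 10) (μ := 1 / 4) (by norm_num) h3 (by linarith only [x1, hY, hY', d2]) (by linarith only [x0, hY, hY']) hY h2
          (by linarith only [x1, h3]) le_rfl
          (c2H (Y := Y) (X := x) (by linarith only [hY]) (by linarith only [hY']) (by linarith only [x0]) (by linarith only [x1]))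

end RB

open RB

theorem b2 : ∀ x Y k1 k2 : ℝ, 59996 / 100000 ≤ x → x ≤ 60 / 100 → 0 < Y → Y ≤ 13 / 100 →
    dom2 k1 k2 → dA2 x Y k1 k2 - dA2 x 0 k1 k2 + Y / 1000 +
      PY Y * (dA2 x Y k1 k2 - cA2 k1 k2 - mA2 k1) ≤ 0 := by
  intro x Y k1 k2 x0 x1 hY hY' hd
  have h := row2 x0 x1 hY hY' hd
  unfold Row at h
  rw [dA2_FF, dA2_FF]
  have e : PY Y * (RB.FF 2 (x + k1) k2 x Y + cA2 k1 k2 - cA2 k1 k2 - mA2 k1) =
      PY Y * (RB.FF 2 (x + k1) k2 x Y - mA2 k1) := by ring
  rw [e]
  linarith only [h]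

theorem b2d : ∀ x Y k1 k2 : ℝ, 59996 / 100000 ≤ x → x ≤ 60 / 100 → 13 / 100 ≤ Y → Y ≤ 1 →
    dom2 k1 k2 → dA2 x Y k1 k2 ≤ cA2 k1 k2 + mA2 k1 := by
  intro x Y k1 k2 x0 x1 hY hY' hd
  obtain ⟨d1, d2, d3, d4⟩ := hd
  have hpi := Real.pi_pos
  have hp := pi15
  rw [dA2_FF]
  have hx := rh_nonneg (a := x) (y := Y) (by linarith only [x0]) (by linarith only [x1]) (by linarith only [hY])
  rcases le_total k1 (23 / 70) with hk | hk
  · have hm : mA2 k1 = 2 / 100 + 7 / 10 * k1 := by
      unfold mA2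
      exact min_eq_left (by linarith only [hk])
    rw [hm]
    rcases le_total k2 0 with h2 | h2
    · rw [FF_ge (by linarith only [hY, h2])]
      have h3 := rh_anti (a := x + k1) (y := Y) (y' := Y - k2) (by linarith only [x0, d1]) (by linarith only [x1, d2, hk])
        (by linarith only [hY]) (by linarith only [h2])
      have h4 := rh_slope (x := x) (a := x + k1) (Y := Y) (κ := 7 / 10) (by linarith only [x0])
        (by linarith only [d1]) (by linarith only [x1, hk]) (fun v v0 v1 => c2dA (Y := Y) (X := v) (by linarith only [hY])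
          (by linarith only [hY']) (by linarith only [x0, v0]) (by linarith only [x1, hk, v1]))
      linarith only [hx, h3, h4]
    · rcases le_total Y (1 / 2) with h3 | h3
      · have h4 := c2dp (Y := Y) (K := k1) (M := k2) (X := x) (by linarith only [hY]) (by linarith only [h3])
          (by linarith only [d1]) (by linarith only [hk]) (by linarith only [h2]) (by linarith only [d3]) (by linarith only [x0]) (by linarith only [x1])
          (by linarith only [d4])
        unfold RB.FF rh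
        linarith only [h4]
      · rw [FF_ge (by linarith only [d3, h3])]
        have h4 := rh_34 (a := x + k1) (y := Y - k2) (by linarith only [x0, d1]) (by linarith only [x1, hk]) (by linarith only [d3, h3])
        linarith only [d1, hx, h4]
  · have hm : mA2 k1 = 1 / 4 := by
      unfold mA2
      exact min_eq_right (by linarith only [hk])
    rw [hm]
    rcases le_total k2 Y with h2 | h2
    · rw [FF_ge h2]
      rcases le_total (x + k1) 1 with h3 | h3
      · linarith only [hx, x0, hk, h3, h2, rh_le (a := x + k1) (y := Y - k2) (by linarith only [x0, hk]) h3 (by linarith only [h2])]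
      · linarith only [hx, h3, x1, d2, h2, rh_nonpos (a := x + k1) (y := Y - k2) h3 (by linarith only [x1, d2]) (by linarith only [h2])]
    · rw [FF_lt]
      have h5 : 2 * Real.pi * (x + k1 - 1 / 2) * (k2 - Y) ≤
          2 * Real.pi * (x + k1 - 1 / 2) * (3 / 100) := by
        apply mul_le_mul_of_nonneg_left (by linarith only [hY, d3])
        apply mul_nonneg (by linarith only [hpi]) (by linarith only [x0, hk])
      rcases le_total (x + k1) 1 with h3 | h3
      · have h4 := rh_le_90 (a := x + k1) (y := k2 - Y) (by linarith only [x0, hk]) h3 (by linarith only [h2])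
        nlinarith only [hp, hx, h5, h3, h4, x0, d1]
      · have h4 := rh_nonpos (a := x + k1) (y := k2 - Y) h3 (by linarith only [x1, d2]) (by linarith only [h2])
        nlinarith only [x1, d2, hp, hx, h5, h4, x0, d1]

end ZD

end Pool.Agent.Work.MP_b30479_gtS.G2

end

section

/-!
# Modes at rings, side of `D`: the lower end of the mode path, certificates for `b3`
-/

set_option linter.unusedVariables false
set_option linter.unusedSimpArgs false

set_option deprecated.oldSectionVars true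

namespace Pool.Agent.Work.MP_b30479_gtS.G2

open VOL NumUs

namespace ZD

namespace RB

open NumUs.E
open NumIs (V)

private theorem k3n : chkT [eN (q 1 1) (q (-1) 2) (add (var 3) (var 1)) (sub (neg (var 2)) (var 0)) (var 3) (q 1 20),
      sub (var 2) (mul (q 16 5) (sub (var 1) (q 1 5)))] 40
    0x888128880812088802888020888800210
    [V.of 100000 0 13000, V.of 100000 20000 30000,
    V.of 100000 0 16000, V.of 100000 59996 60000] = true := by
  decide +kernel

theorem c3n {Y K M X : ℝ}
    (y0 : 0 ≤ Y) (y1 : Y ≤ 13 / 100)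
    (k0 : 1 / 5 ≤ K) (k1 : K ≤ 3 / 10)
    (m0 : 0 ≤ M) (m1 : M ≤ 4 / 25)
    (x0 : 14999 / 25000 ≤ X) (x1 : X ≤ 3 / 5)
    (h3 : M ≤ 16 / 5 * (K - 1 / 5)) :
    nF 1 (-1 / 2) (X + K) (-M - Y) X Y (1 / 20) ≤ 0 := by
  obtain ⟨e, he, hp⟩ := chkT4 k3n (by norm_num) (x := Y) (y := K) (z := M) (w := X)
    (by norm_num; linarith only [y0]) (by norm_num; linarith only [y1]) (by norm_num; linarith only [k0]) (by norm_num; linarith only [k1]) (by norm_num; linarith only [m0]) (by norm_num; linarith only [m1]) (by norm_num; linarith only [x0]) (by norm_num; linarith only [x1])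
  simp only [List.mem_cons, List.not_mem_nil, or_false] at he
  rcases he with rfl | rfl
  · simp only [eN, eM, eF, eH, eN1, eN2, eDX, eGX, eGA, eDA, eP, eQ, eR, E.val, NumIs.lkR] at hp
    norm_num [nF, PY] at hp ⊢
    linarith only [hp]
  · simp only [eN, eM, eF, eH, eN1, eN2, eDX, eGX, eGA, eDA, eP, eQ, eR, E.val, NumIs.lkR] at hp
    norm_num [nF, PY] at hp ⊢
    linarith only [h3, hp]

private theorem k3p : chkT [eN (q 1 1) (q (-1) 2) (add (var 3) (var 1)) (sub (var 2) (var 0)) (var 3) (add (q 1 20) (mul (q 17 20) (var 2))),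
      sub (var 2) (mul (q 16 5) (sub (var 1) (q 1 5)))] 40
    0x88088802288288201888028880218880288218881810828288028828828201000
    [V.of 100000 0 13000, V.of 100000 20000 30000,
    V.of 100000 0 16000, V.of 100000 59996 60000] = true := by
  decide +kernel

theorem c3p {Y K M X : ℝ}
    (y0 : 0 ≤ Y) (y1 : Y ≤ 13 / 100)
    (k0 : 1 / 5 ≤ K) (k1 : K ≤ 3 / 10)
    (m0 : 0 ≤ M) (m1 : M ≤ 4 / 25)
    (x0 : 14999 / 25000 ≤ X) (x1 : X ≤ 3 / 5)
    (h3 : M ≤ 16 / 5 * (K - 1 / 5)) :
    nF 1 (-1 / 2) (X + K) (M - Y) X Y (1 / 20 + 17 / 20 * M) ≤ 0 := by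
  obtain ⟨e, he, hp⟩ := chkT4 k3p (by norm_num) (x := Y) (y := K) (z := M) (w := X)
    (by norm_num; linarith only [y0]) (by norm_num; linarith only [y1]) (by norm_num; linarith only [k0]) (by norm_num; linarith only [k1]) (by norm_num; linarith only [m0]) (by norm_num; linarith only [m1]) (by norm_num; linarith only [x0]) (by norm_num; linarith only [x1])
  simp only [List.mem_cons, List.not_mem_nil, or_false] at he
  rcases he with rfl | rfl
  · simp only [eN, eM, eF, eH, eN1, eN2, eDX, eGX, eGA, eDA, eP, eQ, eR, E.val, NumIs.lkR] at hp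
    norm_num [nF, PY] at hp ⊢
    linarith only [hp]
  · simp only [eN, eM, eF, eH, eN1, eN2, eDX, eGX, eGA, eDA, eP, eQ, eR, E.val, NumIs.lkR] at hp
    norm_num [nF, PY] at hp ⊢
    linarith only [h3, hp]

private theorem k3lo : chkT [eN (q 1 1) (q (-1) 2) (add (var 3) (var 2)) (var 1) (var 3) (q 1 5),
      sub (add (var 0) (var 1)) (q 16 100)] 40
    0x98828282880298081208828282828802188282828288028828282828828288288888211821821821828218211
    [V.of 100000 0 13000, V.of 100000 0 16000,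
    V.of 100000 30000 39950, V.of 100000 59996 60000] = true := by
  decide +kernel

theorem c3lo {Y T K X : ℝ}
    (y0 : 0 ≤ Y) (y1 : Y ≤ 13 / 100)
    (t0 : 0 ≤ T) (t1 : T ≤ 4 / 25)
    (k0 : 3 / 10 ≤ K) (k1 : K ≤ 799 / 2000)
    (x0 : 14999 / 25000 ≤ X) (x1 : X ≤ 3 / 5)
    (h3 : Y + T ≤ 16 / 100) :
    nF 1 (-1 / 2) (X + K) T X Y (1 / 5) ≤ 0 := by
  obtain ⟨e, he, hp⟩ := chkT4 k3lo (by norm_num) (x := Y) (y := T) (z := K) (w := X)
    (by norm_num; linarith only [y0]) (by norm_num; linarith only [y1]) (by norm_num; linarith only [t0]) (by norm_num; linarith only [t1]) (by norm_num; linarith only [k0]) (by norm_num; linarith only [k1]) (by norm_num; linarith only [x0]) (by norm_num; linarith only [x1])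
  simp only [List.mem_cons, List.not_mem_nil, or_false] at he
  rcases he with rfl | rfl
  · simp only [eN, eM, eF, eH, eN1, eN2, eDX, eGX, eGA, eDA, eP, eQ, eR, E.val, NumIs.lkR] at hp
    norm_num [nF, PY] at hp ⊢
    linarith only [hp]
  · simp only [eN, eM, eF, eH, eN1, eN2, eDX, eGX, eGA, eDA, eP, eQ, eR, E.val, NumIs.lkR] at hp
    norm_num [nF, PY] at hp ⊢
    linarith only [h3, hp]

private theorem k3hi : chkT [eN (q 1 1) (q 3 2) (sub (add (var 3) (var 2)) (q 1 1)) (var 1) (var 3) (q 1 5),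
      sub (add (var 0) (var 1)) (q 16 100)] 40
    0x99808188888822222208888888222222188888882222888882288828888888012112121221221
    [V.of 100000 0 13000, V.of 100000 0 16000,
    V.of 100000 40100 70000, V.of 100000 59996 60000] = true := by
  decide +kernel

theorem c3hi {Y T K X : ℝ}
    (y0 : 0 ≤ Y) (y1 : Y ≤ 13 / 100)
    (t0 : 0 ≤ T) (t1 : T ≤ 4 / 25)
    (k0 : 401 / 1000 ≤ K) (k1 : K ≤ 7 / 10)
    (x0 : 14999 / 25000 ≤ X) (x1 : X ≤ 3 / 5)
    (h3 : Y + T ≤ 16 / 100) :
    nF 1 (3 / 2) (X + K - 1) T X Y (1 / 5) ≤ 0 := by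
  obtain ⟨e, he, hp⟩ := chkT4 k3hi (by norm_num) (x := Y) (y := T) (z := K) (w := X)
    (by norm_num; linarith only [y0]) (by norm_num; linarith only [y1]) (by norm_num; linarith only [t0]) (by norm_num; linarith only [t1]) (by norm_num; linarith only [k0]) (by norm_num; linarith only [k1]) (by norm_num; linarith only [x0]) (by norm_num; linarith only [x1])
  simp only [List.mem_cons, List.not_mem_nil, or_false] at he
  rcases he with rfl | rfl
  · simp only [eN, eM, eF, eH, eN1, eN2, eDX, eGX, eGA, eDA, eP, eQ, eR, E.val, NumIs.lkR] at hp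
    norm_num [nF, PY] at hp ⊢
    linarith only [hp]
  · simp only [eN, eM, eF, eH, eN1, eN2, eDX, eGX, eGA, eDA, eP, eQ, eR, E.val, NumIs.lkR] at hp
    norm_num [nF, PY] at hp ⊢
    linarith only [h3, hp]

private theorem k3hj : chkT [eN (q 1 1) (q 3 2) (sub (add (var 3) (var 2)) (q 1 1)) (var 1) (var 3)
        (add (q 1 10) (mul (q 19 10) (add (var 0) (var 1)))),
      sub (add (var 0) (var 1)) (q 16 100),
      sub (add (var 0) (var 1)) (mul (q 16 5) (sub (q 1 1) (var 2)))] 40
    0x888a828282082008801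
    [V.of 100000 0 13000, V.of 100000 0 16000,
    V.of 100000 70000 100000, V.of 100000 59996 60000] = true := by
  decide +kernel

theorem c3hj {Y T K X : ℝ}
    (y0 : 0 ≤ Y) (y1 : Y ≤ 13 / 100)
    (t0 : 0 ≤ T) (t1 : T ≤ 4 / 25)
    (k0 : 7 / 10 ≤ K) (k1 : K ≤ 1)
    (x0 : 14999 / 25000 ≤ X) (x1 : X ≤ 3 / 5)
    (h3 : Y + T ≤ 16 / 100) (h4 : Y + T ≤ 16 / 5 * (1 - K)) :
    nF 1 (3 / 2) (X + K - 1) T X Y (1 / 10 + 19 / 10 * (Y + T)) ≤ 0 := by
  obtain ⟨e, he, hp⟩ := chkT4 k3hj (by norm_num) (x := Y) (y := T) (z := K) (w := X)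
    (by norm_num; linarith only [y0]) (by norm_num; linarith only [y1]) (by norm_num; linarith only [t0]) (by norm_num; linarith only [t1]) (by norm_num; linarith only [k0]) (by norm_num; linarith only [k1]) (by norm_num; linarith only [x0]) (by norm_num; linarith only [x1])
  simp only [List.mem_cons, List.not_mem_nil, or_false] at he
  rcases he with rfl | rfl | rfl
  · simp only [eN, eM, eF, eH, eN1, eN2, eDX, eGX, eGA, eDA, eP, eQ, eR, E.val, NumIs.lkR] at hp
    norm_num [nF, PY] at hp ⊢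
    linarith only [hp]
  · simp only [eN, eM, eF, eH, eN1, eN2, eDX, eGX, eGA, eDA, eP, eQ, eR, E.val, NumIs.lkR] at hp
    norm_num [nF, PY] at hp ⊢
    linarith only [h3, hp]
  · simp only [eN, eM, eF, eH, eN1, eN2, eDX, eGX, eGA, eDA, eP, eQ, eR, E.val, NumIs.lkR] at hp
    norm_num [nF, PY] at hp ⊢
    linarith only [h4, hp]

private theorem k3nr : chkT [eN1 (q 1 1) (var 1) (var 2) (q 1 5),
      eN2 (q 1 1) (var 1) (var 2) (q 1 5),
      sub (add (var 0) (var 1)) (q 16 100)] 40
    0xa808191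
    [V.of 100000 0 13000, V.of 100000 0 16000,
    V.of 100000 59996 60000] = true := by
  decide +kernel

theorem c3nr {Y T X : ℝ}
    (y0 : 0 ≤ Y) (y1 : Y ≤ 13 / 100)
    (t0 : 0 ≤ T) (t1 : T ≤ 4 / 25)
    (x0 : 14999 / 25000 ≤ X) (x1 : X ≤ 3 / 5)
    (h3 : Y + T ≤ 16 / 100) :
    (1 + PY Y) * (NumIs.lnB (999 / 1000) T - Real.pi * (499 / 1000) +
        1 * (NumIs.lnB X Y + Real.pi * (X - 1 / 2))) + 1 / 1000 +
        (49 / 5 + 270 * Y ^ 2) * (Real.pi * (1002 / 1000) * T + 7 / 1000 -
          1 * (uu X Y - Real.pi * (X - 1 / 2) * Y) - 1 / 5) ≤ 0 ∨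
      (1 + PY Y) * (-(Real.pi * (499 / 1000)) +
        1 * (NumIs.lnB X Y + Real.pi * (X - 1 / 2))) + 1 / 1000 +
        (49 / 5 + 270 * Y ^ 2) * (Real.pi * (1002 / 1000) * T + 7 / 1000 -
          1 * (uu X Y - Real.pi * (X - 1 / 2) * Y) - 1 / 5) ≤ 0 := by
  obtain ⟨e, he, hp⟩ := chkT3 k3nr (by norm_num) (x := Y) (y := T) (z := X)
    (by norm_num; linarith only [y0]) (by norm_num; linarith only [y1]) (by norm_num; linarith only [t0]) (by norm_num; linarith only [t1]) (by norm_num; linarith only [x0]) (by norm_num; linarith only [x1])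
  simp only [List.mem_cons, List.not_mem_nil, or_false] at he
  rcases he with rfl | rfl | rfl
  · left
    simp only [eN, eM, eF, eH, eN1, eN2, eDX, eGX, eGA, eDA, eP, eQ, eR, E.val, NumIs.lkR] at hp
    norm_num [nF, PY] at hp ⊢
    linarith only [hp]
  · right
    simp only [eN, eM, eF, eH, eN1, eN2, eDX, eGX, eGA, eDA, eP, eQ, eR, E.val, NumIs.lkR] at hp
    norm_num [nF, PY] at hp ⊢
    linarith only [hp]
  · simp only [eN, eM, eF, eH, eN1, eN2, eDX, eGX, eGA, eDA, eP, eQ, eR, E.val, NumIs.lkR] at hp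
    norm_num at hp
    linarith only [h3, hp]

private theorem k3F : chkT [eF (q 1 1) (var 1) (q 31 1000)] 40
    0x8
    [V.of 100000 0 13000, V.of 100000 59996 60000] = true := by
  decide +kernel

theorem c3F {Y X : ℝ}
    (y0 : 0 ≤ Y) (y1 : Y ≤ 13 / 100)
    (x0 : 14999 / 25000 ≤ X) (x1 : X ≤ 3 / 5) :
    (1 + PY Y) * (1 * (NumIs.lnB X Y + Real.pi * (X - 1 / 2))) + 1 / 1000 +
      (49 / 5 + 270 * Y ^ 2) * (-(1 * (uu X Y - Real.pi * (X - 1 / 2) * Y)) - 31 / 1000) ≤ 0 := by
  obtain ⟨e, he, hp⟩ := chkT2 k3F (by norm_num) (x := Y) (y := X)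
    (by norm_num; linarith only [y0]) (by norm_num; linarith only [y1]) (by norm_num; linarith only [x0]) (by norm_num; linarith only [x1])
  simp only [List.mem_cons, List.not_mem_nil, or_false] at he
  subst he
  simp only [eN, eM, eF, eH, eN1, eN2, eDX, eGX, eGA, eDA, eP, eQ, eR, E.val, NumIs.lkR] at hp
  norm_num [nF, PY] at hp ⊢
  linarith only [hp]

private theorem k3H : chkT [eH (q 1 1) (var 1) (q 1 5) (q 6 10)] 40
    0x8
    [V.of 100000 0 13000, V.of 100000 59996 60000] = true := by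
  decide +kernel

theorem c3H {Y X : ℝ}
    (y0 : 0 ≤ Y) (y1 : Y ≤ 13 / 100)
    (x0 : 14999 / 25000 ≤ X) (x1 : X ≤ 3 / 5) :
    Real.pi * (6 / 10) + 1 / 1000 ≤ (49 / 5 + 90 * Y ^ 2) *
      (1 * (uu X Y - Real.pi * (X - 1 / 2) * Y) + 1 / 5) := by
  obtain ⟨e, he, hp⟩ := chkT2 k3H (by norm_num) (x := Y) (y := X)
    (by norm_num; linarith only [y0]) (by norm_num; linarith only [y1]) (by norm_num; linarith only [x0]) (by norm_num; linarith only [x1])
  simp only [List.mem_cons, List.not_mem_nil, or_false] at he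
  subst he
  simp only [eN, eM, eF, eH, eN1, eN2, eDX, eGX, eGA, eDA, eP, eQ, eR, E.val, NumIs.lkR] at hp
  norm_num [nF, PY] at hp ⊢
  linarith only [hp]

private theorem k3H7 : chkT [eH (q 1 1) (var 1) (q 1 10) (q 3 10)] 40
    0x8
    [V.of 100000 0 13000, V.of 100000 59996 60000] = true := by
  decide +kernel

theorem c3H7 {Y X : ℝ}
    (y0 : 0 ≤ Y) (y1 : Y ≤ 13 / 100)
    (x0 : 14999 / 25000 ≤ X) (x1 : X ≤ 3 / 5) :
    Real.pi * (3 / 10) + 1 / 1000 ≤ (49 / 5 + 90 * Y ^ 2) *
      (1 * (uu X Y - Real.pi * (X - 1 / 2) * Y) + 1 / 10) := by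
  obtain ⟨e, he, hp⟩ := chkT2 k3H7 (by norm_num) (x := Y) (y := X)
    (by norm_num; linarith only [y0]) (by norm_num; linarith only [y1]) (by norm_num; linarith only [x0]) (by norm_num; linarith only [x1])
  simp only [List.mem_cons, List.not_mem_nil, or_false] at he
  subst he
  simp only [eN, eM, eF, eH, eN1, eN2, eDX, eGX, eGA, eDA, eP, eQ, eR, E.val, NumIs.lkR] at hp
  norm_num [nF, PY] at hp ⊢
  linarith only [hp]

private theorem k3dn : chkT [eM (q 1 1) (q (-1) 2) (add (var 2) (var 1)) (neg (var 0)) (var 2) (q 1 20)] 40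
    0x8888100
    [V.of 100000 13000 45000, V.of 100000 20000 30000,
    V.of 100000 59996 60000] = true := by
  decide +kernel

theorem c3dn {Y K X : ℝ}
    (y0 : 13 / 100 ≤ Y) (y1 : Y ≤ 9 / 20)
    (k0 : 1 / 5 ≤ K) (k1 : K ≤ 3 / 10)
    (x0 : 14999 / 25000 ≤ X) (x1 : X ≤ 3 / 5) :
    Real.pi * (X + K - 1 / 2) * (-Y) + uu (X + K) (-Y) - (uu X Y - Real.pi * (X - 1 / 2) * Y) ≤ 1 / 20 := by
  obtain ⟨e, he, hp⟩ := chkT3 k3dn (by norm_num) (x := Y) (y := K) (z := X)
    (by norm_num; linarith only [y0]) (by norm_num; linarith only [y1]) (by norm_num; linarith only [k0]) (by norm_num; linarith only [k1]) (by norm_num; linarith only [x0]) (by norm_num; linarith only [x1])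
  simp only [List.mem_cons, List.not_mem_nil, or_false] at he
  subst he
  simp only [eN, eM, eF, eH, eN1, eN2, eDX, eGX, eGA, eDA, eP, eQ, eR, E.val, NumIs.lkR] at hp
  norm_num [nF, PY] at hp ⊢
  linarith only [hp]

private theorem k3dp : chkT [eM (q 1 1) (q (-1) 2) (add (var 3) (var 1)) (sub (var 2) (var 0)) (var 3) (add (q 1 20) (mul (q 17 20) (var 2))),
      sub (var 2) (mul (q 16 5) (sub (var 1) (q 1 5)))] 40
    0x88802888128881288802888021000
    [V.of 100000 13000 50000, V.of 100000 20000 30000,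
    V.of 100000 0 16000, V.of 100000 59996 60000] = true := by
  decide +kernel

theorem c3dp {Y K M X : ℝ}
    (y0 : 13 / 100 ≤ Y) (y1 : Y ≤ 1 / 2)
    (k0 : 1 / 5 ≤ K) (k1 : K ≤ 3 / 10)
    (m0 : 0 ≤ M) (m1 : M ≤ 4 / 25)
    (x0 : 14999 / 25000 ≤ X) (x1 : X ≤ 3 / 5)
    (h3 : M ≤ 16 / 5 * (K - 1 / 5)) :
    Real.pi * (X + K - 1 / 2) * (M - Y) + uu (X + K) (M - Y) - (uu X Y - Real.pi * (X - 1 / 2) * Y) ≤
      1 / 20 + 17 / 20 * M := by
  obtain ⟨e, he, hp⟩ := chkT4 k3dp (by norm_num) (x := Y) (y := K) (z := M) (w := X)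
    (by norm_num; linarith only [y0]) (by norm_num; linarith only [y1]) (by norm_num; linarith only [k0]) (by norm_num; linarith only [k1]) (by norm_num; linarith only [m0]) (by norm_num; linarith only [m1]) (by norm_num; linarith only [x0]) (by norm_num; linarith only [x1])
  simp only [List.mem_cons, List.not_mem_nil, or_false] at he
  rcases he with rfl | rfl
  · simp only [eN, eM, eF, eH, eN1, eN2, eDX, eGX, eGA, eDA, eP, eQ, eR, E.val, NumIs.lkR] at hp
    norm_num [nF, PY] at hp ⊢
    linarith only [hp]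
  · simp only [eN, eM, eF, eH, eN1, eN2, eDX, eGX, eGA, eDA, eP, eQ, eR, E.val, NumIs.lkR] at hp
    norm_num [nF, PY] at hp ⊢
    linarith only [h3, hp]

private theorem k3d34 : chkT [sub (q 2 100) (eGA (q (-1) 2) (var 0) (neg (q 34 100)))] 40
    0x880
    [V.of 100000 79990 90010] = true := by
  decide +kernel

theorem c3d34 {X : ℝ}
    (x0 : 7999 / 10000 ≤ X) (x1 : X ≤ 9001 / 10000) :
    uu X (-(34 / 100)) - Real.pi * (X - 1 / 2) * (34 / 100) ≤ 2 / 100 := by
  obtain ⟨e, he, hp⟩ := chkT1 k3d34 (by norm_num) (x := X)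
    (by norm_num; linarith only [x0]) (by norm_num; linarith only [x1])
  simp only [List.mem_cons, List.not_mem_nil, or_false] at he
  subst he
  simp only [eN, eM, eF, eH, eN1, eN2, eDX, eGX, eGA, eDA, eP, eQ, eR, E.val, NumIs.lkR] at hp
  norm_num [nF, PY] at hp ⊢
  linarith only [hp]

private theorem k3dlo : chkT [eM (q 1 1) (q (-1) 2) (add (var 3) (var 2)) (var 1) (var 3) (q 1 5)] 40
    0x88882118282828282
    [V.of 100000 13000 16000, V.of 100000 0 3000,
    V.of 100000 30000 39950, V.of 100000 59996 60000] = true := by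
  decide +kernel

theorem c3dlo {Y T K X : ℝ}
    (y0 : 13 / 100 ≤ Y) (y1 : Y ≤ 4 / 25)
    (t0 : 0 ≤ T) (t1 : T ≤ 3 / 100)
    (k0 : 3 / 10 ≤ K) (k1 : K ≤ 799 / 2000)
    (x0 : 14999 / 25000 ≤ X) (x1 : X ≤ 3 / 5) :
    Real.pi * (X + K - 1 / 2) * T + uu (X + K) T - (uu X Y - Real.pi * (X - 1 / 2) * Y) ≤ 1 / 5 := by
  obtain ⟨e, he, hp⟩ := chkT4 k3dlo (by norm_num) (x := Y) (y := T) (z := K) (w := X)
    (by norm_num; linarith only [y0]) (by norm_num; linarith only [y1]) (by norm_num; linarith only [t0]) (by norm_num; linarith only [t1]) (by norm_num; linarith only [k0]) (by norm_num; linarith only [k1]) (by norm_num; linarith only [x0]) (by norm_num; linarith only [x1])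
  simp only [List.mem_cons, List.not_mem_nil, or_false] at he
  subst he
  simp only [eN, eM, eF, eH, eN1, eN2, eDX, eGX, eGA, eDA, eP, eQ, eR, E.val, NumIs.lkR] at hp
  norm_num [nF, PY] at hp ⊢
  linarith only [hp]

end RB

end ZD

end Pool.Agent.Work.MP_b30479_gtS.G2

end

section

/-!
# Modes at rings, side of `D`: the rows `b3` and `b3d`
-/

namespace Pool.Agent.Work.MP_b30479_gtS.G2

open VOL NumUs

namespace ZD

namespace RB

theorem low3 {x k1 k2 Z : ℝ} (x0 : 59996 / 100000 ≤ x) (x1 : x ≤ 60 / 100) (hk : 3 / 10 ≤ k1)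
    (hk' : k1 ≤ 7 / 10) (k16 : k2 ≤ 16 / 100) (h0 : 0 < Z) (hZ : Z ≤ 13 / 100) (h1 : Z < k2) :
    Cond 1 (x + k1) k2 x (1 / 5) Z := by
  rcases le_total k1 (3995 / 10000) with h2 | h2
  · refine cond_lt (by linarith only [x0, hk]) (by linarith only [x1, h2]) (by linarith only [x0]) (by linarith only [x1]) ?_
    exact c3lo (Y := Z) (T := k2 - Z) (K := k1) (X := x) (by linarith only [h0]) (by linarith only [hZ]) (by linarith only [h1])
      (by linarith only [k16, h0]) (by linarith only [hk]) (by linarith only [h2]) (by linarith only [x0]) (by linarith only [x1]) (by linarith only [k16])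
  · rcases le_total k1 (401 / 1000) with h3 | h3
    · refine near (by linarith only [x0, h2]) (by linarith only [x1, h3]) (by linarith only [x0]) (by linarith only [x1]) h0 h1 ?_
      exact c3nr (Y := Z) (T := k2 - Z) (X := x) (by linarith only [h0]) (by linarith only [hZ]) (by linarith only [h1])
        (by linarith only [k16, h0]) (by linarith only [x0]) (by linarith only [x1]) (by linarith only [k16])
    · refine cond_gt (by linarith only [x0, k16, h0, h1, h3]) (by linarith only [x1, hk', k16, h0, h1]) (by linarith only [x0, k16, h0, h1]) (by linarith only [x1, k16, h0, h1]) h1 ?_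
      exact c3hi (Y := Z) (T := k2 - Z) (K := k1) (X := x) (by linarith only [h0]) (by linarith only [hZ])
        (by linarith only [h1]) (by linarith only [k16, h0]) (by linarith only [h3]) (by linarith only [hk']) (by linarith only [x0]) (by linarith only [x1])
        (by linarith only [k16])

theorem low3' {x k1 k2 Z : ℝ} (x0 : 59996 / 100000 ≤ x) (x1 : x ≤ 60 / 100) (hk : 7 / 10 ≤ k1)
    (hk' : k1 ≤ 1) (k16 : k2 ≤ 16 / 100) (k17 : k2 ≤ 16 / 5 * (1 - k1)) (h0 : 0 < Z)
    (hZ : Z ≤ 13 / 100) (h1 : Z < k2) :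
    Cond 1 (x + k1) k2 x (1 / 10 + 19 / 10 * k2) Z := by
  refine cond_gt (by linarith only [x0, hk]) (by linarith only [x1, hk']) (by linarith only [x0]) (by linarith only [x1]) h1 ?_
  have h := c3hj (Y := Z) (T := k2 - Z) (K := k1) (X := x) (by linarith only [h0]) (by linarith only [hZ])
    (by linarith only [h1]) (by linarith only [k16, h0]) (by linarith only [hk]) (by linarith only [hk']) (by linarith only [x0]) (by linarith only [x1])
    (by linarith only [k16]) (by linarith only [k17])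
  rwa [add_sub_cancel] at h

theorem rh3_34 {a y : ℝ} (h0 : 7999 / 10000 ≤ a) (h1 : a ≤ 9001 / 10000) (hy : 34 / 100 ≤ y) :
    rh a y ≤ 2 / 100 := by
  have h2 := rh_anti (a := a) (y := 34 / 100) (y' := y) (by linarith only [h0]) (by linarith only [h1]) (by norm_num)
    hy
  have h3 := c3d34 (X := a) (by linarith only [h0]) (by linarith only [h1])
  rw [uu_neg] at h3
  exact h2.trans h3

theorem m3a {k1 k2 : ℝ} (h : k1 ≤ 3 / 10) : mA3 k1 k2 = 5 / 100 + 85 / 100 * max k2 0 := by
  unfold mA3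
  rw [if_pos h]

theorem m3b {k1 k2 : ℝ} (h : 3 / 10 < k1) (h' : k1 ≤ 7 / 10) : mA3 k1 k2 = 1 / 5 := by
  unfold mA3
  rw [if_neg (not_le.mpr h), if_pos h']

theorem m3c {k1 k2 : ℝ} (h : 7 / 10 < k1) : mA3 k1 k2 = 1 / 10 + 19 / 10 * max k2 0 := by
  unfold mA3
  rw [if_neg (by intro h2; linarith only [h, h2]), if_neg (not_le.mpr h)]

theorem row3 {x Y k1 k2 : ℝ} (x0 : 59996 / 100000 ≤ x) (x1 : x ≤ 60 / 100) (hY : 0 < Y)
    (hY' : Y ≤ 13 / 100) (hd : dom3 k1 k2) : Row 1 (x + k1) k2 x (mA3 k1 k2) Y := by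
  obtain ⟨d1, d2, d3, d4, d5⟩ := hd
  have f1 := (le_abs_self k2).trans d3
  have f2 := (le_abs_self k2).trans d4
  have f3 := (le_abs_self k2).trans d5
  have f4 := (neg_le_abs k2).trans d3
  have f5 := (neg_le_abs k2).trans d4
  have f6 := (neg_le_abs k2).trans d5
  have crude : ∀ Z m R a', 0 < Z → Z ≤ 13 / 100 → k2 < Z → 1 / 2 ≤ a' → a' ≤ 1 →
      (x + k1 = a' ∨ x + k1 = a' + 1) → rh a' (Z - k2) ≤ R → 31 / 1000 ≤ m - R →
      Cond 1 (x + k1) k2 x m Z := by
    intro Z m R a' z0 z1 z2 a0 a1 ha hR hm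
    exact crudeF a0 a1 ha (by linarith only [x0, hY, hY']) (by linarith only [x1, hY, hY']) z0 z2 hR hm
      (c3F (Y := Z) (X := x) (by linarith only [z0]) (by linarith only [z1]) (by linarith only [x0]) (by linarith only [x1]))
  rcases le_or_gt k1 (3 / 10) with hk | hk
  · rw [m3a hk]
    refine row_of hY.le fun Z z0 z1 z2 => ?_
    refine cond_lt (by linarith only [x0, hY', d1, z0, z1]) (by linarith only [x1, hY', hk, z0, z1]) (by linarith only [x0, hY', z0, z1]) (by linarith only [x1, hY', z0, z1]) ?_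
    rcases le_total 0 k2 with h2 | h2
    · rw [max_eq_left h2]
      have h4 := c3p (Y := Z) (K := k1) (M := k2) (X := x) (by linarith only [z0]) (by linarith only [hY', z1])
        (by linarith only [d1]) (by linarith only [hk]) (by linarith only [h2]) (by linarith only [f1]) (by linarith only [x0]) (by linarith only [x1])
        (by linarith only [f2])
      rw [show (5 : ℝ) / 100 + 85 / 100 * k2 = 1 / 20 + 17 / 20 * k2 by ring]
      exact h4
    · rw [max_eq_right h2]
      have h4 := c3n (Y := Z) (K := k1) (M := -k2) (X := x) (by linarith only [z0]) (by linarith only [hY', z1])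
        (by linarith only [d1]) (by linarith only [hk]) (by linarith only [h2]) (by linarith only [f4]) (by linarith only [x0]) (by linarith only [x1])
        (by linarith only [f5])
      rw [show (5 : ℝ) / 100 + 85 / 100 * 0 = 1 / 20 by norm_num]
      rwa [neg_neg] at h4
  · rcases le_or_gt k1 (7 / 10) with hk' | hk'
    · rw [m3b hk hk']
      rcases le_total Y k2 with h2 | h2
      · exact row_of hY.le fun Z z0 z1 _ => low3 x0 x1 hk.le hk' f1 z0 (by linarith only [hY', z1]) (by linarith only [h2, z1])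
      · rcases le_total (x + k1) 1 with h3 | h3
        · refine row_of hY.le fun Z z0 z1 z2 => ?_
          rcases lt_or_gt_of_ne z2 with z2 | z2
          · exact low3 x0 x1 hk.le hk' f1 z0 (by linarith only [hY', z1]) z2
          · exact crude Z _ (1617 / 10000) (x + k1) z0 (by linarith only [hY', z1]) z2 (by linarith only [x0, hY', hk, z0, z1]) h3
              (Or.inl rfl) (rh_le (by linarith only [x0, hY', hk, z0, z1]) h3 (by linarith only [z2])) (by norm_num)
        · exact crudeH (κ := 6 / 10) (μ := 1 / 5) (by norm_num) h3 (by linarith only [x1, hk']) (by linarith only [x0, hY, hY']) hY h2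
            (by linarith only [x1, h3]) le_rfl
            (c3H (Y := Y) (X := x) (by linarith only [hY]) (by linarith only [hY']) (by linarith only [x0]) (by linarith only [x1]))
    · rw [m3c hk']
      rcases le_total Y k2 with h2 | h2
      · rw [max_eq_left (by linarith only [hY, h2])]
        exact row_of hY.le fun Z z0 z1 _ => low3' x0 x1 hk'.le d2 f1 (by linarith only [f3]) z0 (by linarith only [hY', z1])
          (by linarith only [h2, z1])
      · have hm : (1 : ℝ) / 10 ≤ 1 / 10 + 19 / 10 * max k2 0 := by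
          linarith only [le_max_right k2 0]
        rcases le_total (x + k1) (3 / 2) with h3 | h3
        · exact crudeH (κ := 3 / 10) (μ := 1 / 10) (by norm_num) (by linarith only [x0, hY, hY', hk']) h3 (by linarith only [x0, hY, hY'])
            hY h2 (by linarith only [hk']) hm
            (c3H7 (Y := Y) (X := x) (by linarith only [hY]) (by linarith only [hY']) (by linarith only [x0]) (by linarith only [x1]))
        · refine row_of hY.le fun Z z0 z1 z2 => ?_
          rcases lt_or_gt_of_ne z2 with z2 | z2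
          · rw [max_eq_left (by linarith only [z0, z2])]
            exact low3' x0 x1 hk'.le d2 f1 (by linarith only [f3]) z0 (by linarith only [hY', z1]) z2
          · exact crude Z _ (69 / 1000) (x + k1 - 1) z0 (by linarith only [hY', z1]) z2 (by linarith only [h3])
              (by linarith only [x1, hY', d2, z0, z1]) (Or.inr (by ring)) (rh_le_mid (by linarith only [h3]) (by linarith only [x1, d2])
              (by linarith only [z2])) (by linarith only [hm])

end RB

open RB

theorem b3 : ∀ x Y k1 k2 : ℝ, 59996 / 100000 ≤ x → x ≤ 60 / 100 → 0 < Y → Y ≤ 13 / 100 →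
    dom3 k1 k2 → dA1 x Y k1 k2 - dA1 x 0 k1 k2 + Y / 1000 +
      PY Y * (dA1 x Y k1 k2 - cA1 k1 k2 - mA3 k1 k2) ≤ 0 := by
  intro x Y k1 k2 x0 x1 hY hY' hd
  have h := row3 x0 x1 hY hY' hd
  unfold Row at h
  rw [dA1_FF, dA1_FF]
  have e : PY Y * (RB.FF 1 (x + k1) k2 x Y + cA1 k1 k2 - cA1 k1 k2 - mA3 k1 k2) =
      PY Y * (RB.FF 1 (x + k1) k2 x Y - mA3 k1 k2) := by ring
  rw [e]
  linarith only [h]

theorem b3d : ∀ x Y k1 k2 : ℝ, 59996 / 100000 ≤ x → x ≤ 60 / 100 → 13 / 100 ≤ Y → Y ≤ 1 →
    dom3 k1 k2 → dA1 x Y k1 k2 ≤ cA1 k1 k2 + mA3 k1 k2 := by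
  intro x Y k1 k2 x0 x1 hY hY' hd
  obtain ⟨d1, d2, d3, d4, d5⟩ := hd
  have f1 := (le_abs_self k2).trans d3
  have f2 := (le_abs_self k2).trans d4
  have f3 := (le_abs_self k2).trans d5
  have f4 := (neg_le_abs k2).trans d3
  have hpi := Real.pi_pos
  have hp := pi15
  rw [dA1_FF]
  have hx := rh_nonneg (a := x) (y := Y) (by linarith only [x0]) (by linarith only [x1]) (by linarith only [hY])
  -- the part above `Y`
  have h5 : ∀ c, 0 ≤ 2 * (x + k1 - 1 / 2) → 2 * (x + k1 - 1 / 2) ≤ c → Y ≤ k2 →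
      2 * Real.pi * (x + k1 - 1 / 2) * (k2 - Y) ≤ 945 / 10000 * c := by
    intro c c0 c1 h
    have g1 : 2 * (x + k1 - 1 / 2) * (k2 - Y) ≤ c * (3 / 100) :=
      mul_le_mul c1 (by linarith only [hY, f1]) (by linarith only [h]) (by linarith only [x0, d1, c1])
    have g2 : 0 ≤ 2 * (x + k1 - 1 / 2) * (k2 - Y) := mul_nonneg c0 (by linarith only [h])
    nlinarith only [hp, x0, d1, hpi, g1, c1]
  rcases le_or_gt k1 (3 / 10) with hk | hk
  · rw [m3a hk]
    rcases le_total k2 0 with h2 | h2
    · rw [FF_ge (by linarith only [hY, h2]), max_eq_right h2]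
      have h3 := rh_anti (a := x + k1) (y := Y) (y' := Y - k2) (by linarith only [x0, d1]) (by linarith only [x1, hk])
        (by linarith only [hY]) (by linarith only [h2])
      rcases le_total Y (45 / 100) with h4 | h4
      · have h6 := c3dn (Y := Y) (K := k1) (X := x) (by linarith only [hY]) (by linarith only [h4]) (by linarith only [d1])
          (by linarith only [hk]) (by linarith only [x0]) (by linarith only [x1])
        rw [uu_neg] at h6
        have e1 : rh (x + k1) Y - 1 * rh x Y = Real.pi * (x + k1 - 1 / 2) * (-Y) +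
            uu (x + k1) Y - (uu x Y - Real.pi * (x - 1 / 2) * Y) := by
          unfold rh
          ring
        linarith only [h3, h6, e1]
      · have h6 := rh3_34 (a := x + k1) (y := Y) (by linarith only [x0, d1]) (by linarith only [x1, hk]) (by linarith only [h4])
        linarith only [hx, h3, h6]
    · rw [max_eq_left h2]
      rcases le_total Y (1 / 2) with h4 | h4
      · have h6 := c3dp (Y := Y) (K := k1) (M := k2) (X := x) (by linarith only [hY]) (by linarith only [h4])
          (by linarith only [d1]) (by linarith only [hk]) (by linarith only [h2]) (by linarith only [f1]) (by linarith only [x0]) (by linarith only [x1])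
          (by linarith only [f2])
        have e1 : RB.FF 1 (x + k1) k2 x Y = Real.pi * (x + k1 - 1 / 2) * (k2 - Y) +
            uu (x + k1) (k2 - Y) - (uu x Y - Real.pi * (x - 1 / 2) * Y) := by
          unfold RB.FF rh
          ring
        linarith only [h6, e1]
      · rw [FF_ge (by linarith only [f1, h4])]
        have h6 := rh3_34 (a := x + k1) (y := Y - k2) (by linarith only [x0, d1]) (by linarith only [x1, hk]) (by linarith only [f1, h4])
        linarith only [hx, h2, h6]
  · rcases le_or_gt k1 (7 / 10) with hk' | hk'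
    · rw [m3b hk hk']
      rcases le_total k2 Y with h2 | h2
      · rw [FF_ge h2]
        rcases le_total (x + k1) 1 with h3 | h3
        · linarith only [hx, x0, hk, h3, h2, rh_le (a := x + k1) (y := Y - k2) (by linarith only [x0, hk]) h3 (by linarith only [h2])]
        · linarith only [hx, h3, x1, hk', h2, rh_nonpos (a := x + k1) (y := Y - k2) h3 (by linarith only [x1, hk']) (by linarith only [h2])]
      · rcases le_total (x + k1) 1 with h3 | h3
        · rcases le_total k1 (3995 / 10000) with h4 | h4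
          · have h6 := c3dlo (Y := Y) (T := k2 - Y) (K := k1) (X := x) (by linarith only [hY]) (by linarith only [f1, h2])
              (by linarith only [h2]) (by linarith only [hY, f1]) (by linarith only [hk]) (by linarith only [h4]) (by linarith only [x0]) (by linarith only [x1])
            have e1 : RB.FF 1 (x + k1) k2 x Y = Real.pi * (x + k1 - 1 / 2) * (k2 - Y) +
                uu (x + k1) (k2 - Y) - (uu x Y - Real.pi * (x - 1 / 2) * Y) := by
              unfold RB.FF rh
              ring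
            linarith only [h6, e1]
          · rw [FF_lt]
            have h6 := rh_le_999 (a := x + k1) (y := k2 - Y) (by linarith only [x0, hk, h4]) h3 (by linarith only [h2])
            have h7 := h5 1 (by linarith only [x0, hk]) (by linarith only [h3]) h2
            linarith only [hx, h6, h7]
        · rw [FF_lt]
          have h6 := rh_nonpos (a := x + k1) (y := k2 - Y) h3 (by linarith only [x1, hk']) (by linarith only [h2])
          have h7 := h5 (16 / 10) (by linarith only [h3]) (by linarith only [x1, hk']) h2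
          linarith only [hx, h6, h7]
    · rw [m3c hk']
      have hm := le_max_right k2 0
      have hm' := le_max_left k2 0
      have h6 : ∀ y, 0 ≤ y → rh (x + k1) y ≤ 69 / 1000 := by
        intro y hy
        rcases le_total (x + k1) (3 / 2) with h3 | h3
        · linarith only [x0, hk', h3, hy, rh_nonpos (a := x + k1) (y := y) (by linarith only [x0, hk']) h3 hy]
        · have h5 := rh_add_one (a := x + k1 - 1) (y := y) hy
          rw [sub_add_cancel] at h5
          rw [h5]
          exact rh_le_mid (by linarith only [h3]) (by linarith only [x1, d2]) hy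
      rcases le_total k2 Y with h2 | h2
      · rw [FF_ge h2]
        linarith only [hx, hm, h6, h2, h6 (Y - k2) (by linarith only [h2])]
      · rw [FF_lt]
        have h7 := h5 (22 / 10) (by linarith only [x0, hk']) (by linarith only [x1, d2]) h2
        linarith only [hY, hx, hm', h2, h7, h6, h6 (k2 - Y) (by linarith only [h2])]

end ZD

end Pool.Agent.Work.MP_b30479_gtS.G2

end
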