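import Pool.Agent.Work.MP_b30479_gt.TBS.NumU.Node
import Pool.Agent.Work.MP_b30479_gt.TBS.NumU.Tree

section

/-!
# The gain of the hinge in slot 2: certificates
-/

set_option deprecated.oldSectionVars true

namespace Pool.Agent.Work.MP_b30479_gtS.G2

open VOL NumUs

namespace VL

namespace S0

open NumIs (V)
open NumUs.E (q var)

theorem k_F1r : chkT ([.add (eF (var 0) (var 1) (var 2) (.mul (var 3) (var 2))) (gA (var 0))]) 40
    0x888288203882880888222288288882222128880288288880228888022122088823882888822288882221228828888802228888222120188802888822288882221880888288212202888028880288088812288881220221088802888880222888880222188888022288888022210288802888028882288822188880228882210221888888802222288888812228888828811222020882888888022228888812228888808122200218881288888022288882221880880888081222888880222102100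
    [V.of 10000 500 2470, V.of 10000 (-1230) (-150),
      V.of 10000 0 1500, V.of 10000 (-7634) (-1400)] = true := by
  decide +kernel

theorem k_F1f : chkT ([.add (eF (var 0) (var 1) (var 2) (var 3)) (gA (var 0))]) 40
    0x888180388818032882882108880288210882882188802882100
    [V.of 10000 500 2470, V.of 10000 (-1230) (-150),
      V.of 10000 1500 3600, V.of 10000 (-1145) (-210)] = true := by
  decide +kernel

theorem k_F1g : chkT ([.add (eF (var 0) (var 1) (var 2) (.mul (var 3) (.mul (q 100 29) (.sub (q 65 100) (var 2))))) (gA (var 0))]) 40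
    0x88818038080888100
    [V.of 10000 500 2470, V.of 10000 (-1230) (-150),
      V.of 10000 3600 3900, V.of 10000 (-1145) (-210)] = true := by
  decide +kernel

theorem k_F2r : chkT ([.add (eF (var 0) (var 1) (var 2) (.mul (var 3) (var 2))) (q 1 100), .add (.sub (eF (var 0) (var 1) (var 2) (.mul (var 3) (var 2)))
    (eC (var 0) (var 1))) (q 1 100)]) 40
    0x9929929209999003992219990389913189913898188303088818231099189318898800338881310299199229992288922999223118880813888081329992088288088802220888028828880288802022128880288288880228888022022882882880888800222211020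
    [V.of 10000 2470 3600, V.of 10000 (-1230) (-150),
      V.of 10000 0 1500, V.of 10000 (-7634) (-1400)] = true := by
  decide +kernel

theorem k_F2f : chkT ([.add (eF (var 0) (var 1) (var 2) (var 3)) (q 1 100), .add (.sub (eF (var 0) (var 1) (var 2) (var 3))
    (eC (var 0) (var 1))) (q 1 100)]) 40
    0x99092929909292199092980820980929802109919292991929219919292929919292921099909139299029991392990219809919910398029919818820028938280980828018880221003
    [V.of 10000 2470 3600, V.of 10000 (-1230) (-150),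
      V.of 10000 1500 3600, V.of 10000 (-1145) (-210)] = true := by
  decide +kernel

theorem k_F2g : chkT ([.add (eF (var 0) (var 1) (var 2) (.mul (var 3) (.mul (q 100 29) (.sub (q 65 100) (var 2))))) (q 1 100), .add (.sub (eF (var 0) (var 1) (var 2) (.mul (var 3) (.mul (q 100 29) (.sub (q 65 100) (var 2)))))
    (eC (var 0) (var 1))) (q 1 100)]) 40
    0x99999199103399023999919910399323999032199990392399990339932199399913929991392031199999199103923399991929919203319999192991920339999199103399913211099990929909213399991923999192303199991923999192303999990392331199999199103399919238898039230139999192803389991923388301100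
    [V.of 10000 2470 3600, V.of 10000 (-1230) (-150),
      V.of 10000 3600 3900, V.of 10000 (-1145) (-210)] = true := by
  decide +kernel

theorem k_F3r : chkT ([.add (eF (var 0) (var 1) (var 2) (.mul (var 3) (var 2))) (gA (var 0))]) 40
    0x888818033888818033288880288213888238828828820228880288288802221288808138881388088228882212202888238881388088802288088802212288823888028888022888802212200883888032888028888022888802212888028888800228882888020212028828888812228888812221288388888122288888122212088288888812222888882222888888022221028828880288880228888802220882888028882202122100088833888138830288803888038810288288088802228828808880222188188822288088822210228838880328818880238888022888802218888022888802210220883881881028880288880228888122028880288880228808880220212880883288388810288880228888022188288088802228828808822210228808832883888102888228882218818388802882120221001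
    [V.of 10000 500 2470, V.of 10000 (-1160) 50,
      V.of 10000 0 1300, V.of 10000 (-7539) 4385] = true := by
  decide +kernel

theorem k_F3f : chkT ([.add (eF (var 0) (var 1) (var 2) (var 3)) (gA (var 0))]) 40
    0x88818038888281338881302888328883210888028880218828880208888022100
    [V.of 10000 500 2470, V.of 10000 (-1160) 50,
      V.of 10000 1300 3100, V.of 10000 (-980) 570] = true := by
  decide +kernel

theorem k_F4ro : chkT ([.add (eF (var 0) (var 1) (var 2) (.mul (var 3) (var 2))) (q 3 100)]) 40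
    0x888238880288822888221228881388288822888221221
    [V.of 10000 2470 2750, V.of 10000 (-1160) 50,
      V.of 10000 0 1300, V.of 10000 (-4385) 4385] = true := by
  decide +kernel

theorem k_F5ro : chkT ([.add (eF (var 0) (var 1) (var 2) (.mul (var 3) (var 2))) (gD (var 0))]) 40
    0x882882188823882888088812202288813882888088812202210
    [V.of 10000 2750 3600, V.of 10000 (-1160) 50,
      V.of 10000 0 1300, V.of 10000 (-4385) 4385] = true := by
  decide +kernel

theorem k_F4fo : chkT ([.add (eF (var 0) (var 1) (var 2) (var 3)) (q 3 100)]) 40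
    0x881888132
    [V.of 10000 2470 2750, V.of 10000 (-1160) 50,
      V.of 10000 1300 3100, V.of 10000 (-570) 570] = true := by
  decide +kernel

theorem k_F5fo : chkT ([.add (eF (var 0) (var 1) (var 2) (var 3)) (gD (var 0))]) 40
    0x888138802888138881320
    [V.of 10000 2750 3600, V.of 10000 (-1160) 50,
      V.of 10000 1300 3100, V.of 10000 (-570) 570] = true := by
  decide +kernel

theorem k_F4re : chkT ([.add (eF (var 0) (var 1) (var 2) (.mul (var 3) (var 2))) (q 3 100)]) 40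
    0x882818082881088088802228808882221
    [V.of 10000 2470 2750, V.of 10000 (-950) (-50),
      V.of 10000 0 1300, V.of 10000 (-7539) (-5846)] = true := by
  decide +kernel

theorem k_F5re : chkT ([.add (eF (var 0) (var 1) (var 2) (.mul (var 3) (var 2))) (gD (var 0))]) 40
    0x880828808288828181082888122088288812210
    [V.of 10000 2750 3600, V.of 10000 (-950) (-50),
      V.of 10000 0 1300, V.of 10000 (-7539) (-5846)] = true := by
  decide +kernel

theorem k_F4fe : chkT ([.add (eF (var 0) (var 1) (var 2) (var 3)) (q 3 100)]) 40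
    0x8882802882188208821
    [V.of 10000 2470 2750, V.of 10000 (-950) (-50),
      V.of 10000 1300 3100, V.of 10000 (-980) (-730)] = true := by
  decide +kernel

theorem k_F5fe : chkT ([.add (eF (var 0) (var 1) (var 2) (var 3)) (gD (var 0))]) 40
    0x880828801818288082880188882810028808210
    [V.of 10000 2750 3600, V.of 10000 (-950) (-50),
      V.of 10000 1300 3100, V.of 10000 (-980) (-730)] = true := by
  decide +kernel

theorem k_F3h : chkT ([.add (eF (var 0) (var 1) (var 2) (var 3)) (gA (var 0))]) 40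
    0x880888100
    [V.of 10000 500 2470, V.of 10000 (-1160) 50,
      V.of 10000 3100 3900, V.of 10000 (-220) 220] = true := by
  decide +kernel

theorem k_F4h : chkT ([.add (eF (var 0) (var 1) (var 2) (var 3)) (q 3 100)]) 40
    0x881
    [V.of 10000 2470 2750, V.of 10000 (-1160) 50,
      V.of 10000 3100 3900, V.of 10000 (-220) 220] = true := by
  decide +kernel

theorem k_F5h : chkT ([.add (eF (var 0) (var 1) (var 2) (.mul (var 3) (.mul (q 100 30) (.sub (q 60 100) (var 2))))) (gD (var 0))]) 40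
    0x883808181881088108802
    [V.of 10000 2750 3600, V.of 10000 (-1160) 50,
      V.of 10000 3100 3900, V.of 10000 (-220) 220] = true := by
  decide +kernel

theorem k_F6 : chkT ([.add (gL (var 0)) (.sub (eC (var 0) (var 1)) (q 1 100))]) 40
    0x8808188800810
    [V.of 10000 2470 3600, V.of 10000 (-1230) (-150)] = true := by
  decide +kernel

end S0

end VL

end Pool.Agent.Work.MP_b30479_gtS.G2

end

section

/-!
# Side of the slot-0 hinge of an inner digit `3`, no neighbour `1`: certificates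
-/

set_option deprecated.oldSectionVars true

namespace Pool.Agent.Work.MP_b30479_gtS.G2

open VOL NumUs

namespace VL

namespace S0

open NumIs (V)
open NumUs.E (q var)

theorem k_snn : chkT (lN') 40
    0x883
    [V.of 10000 0 100, V.of 10000 (-8167) 4750,
      V.of 10000 500 900, V.of 10000 (-1230) 50] = true := by
  decide +kernel

theorem k_sn1 : chkT (l1 (sP cN) 400) 40
    0x8888aa32212
    [V.of 10000 0 100, V.of 10000 (-8167) 4750,
      V.of 10000 500 2470, V.of 10000 (-1230) 50] = true := by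
  decide +kernel

theorem k_sn3 : chkT (l3 (sR cN) 400) 40
    0x8818822
    [V.of 10000 0 100, V.of 10000 (-8167) 4750,
      V.of 10000 2470 8000, V.of 10000 (-1230) 50] = true := by
  decide +kernel

theorem k_tn : chkT (lN 12 (-105) 28) 40
    0x8881803
    [V.of 10000 100 1200, V.of 10000 (-4750) 417,
      V.of 10000 500 2000, V.of 10000 (-1140) 50] = true := by
  decide +kernel

theorem k_t1 : chkT (l1 (oP cN) 100 ++ lW 12 (-105) 28) 40
    0xb8080aa0a1a3aa32aa3aaa13222bb80802aa0a3aa32aa3aa0aa332221880888000aa0aa01aa02aa02aaa022288800aa0aa02aa1aa322230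
    [V.of 10000 100 1200, V.of 10000 (-4750) 417,
      V.of 10000 500 2470, V.of 10000 (-1140) 50] = true := by
  decide +kernel

theorem k_t2a : chkT (l2 (oR cN) (gL (var 2)) 100 ++ lW 12 (-105) 14) 40
    0x999880218812298818182298201988120982982188801038818089000
    [V.of 10000 100 1200, V.of 10000 (-4750) 417,
      V.of 10000 2470 3600, V.of 10000 (-1140) (-150)] = true := by
  decide +kernel

theorem k_t2c : chkT (l2 (oR cN) (q 3 100) 100 ++ lW 12 (-100) 28) 40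
    0x88188118810881088089000
    [V.of 10000 100 1200, V.of 10000 (-4750) 417,
      V.of 10000 2470 2750, V.of 10000 (-1040) 50] = true := by
  decide +kernel

theorem k_t2d : chkT (l2 (oR cN) (gD (var 2)) 100 ++ lW 12 (-100) 28) 40
    0x9983881229099828180218818810399831088089000
    [V.of 10000 100 1200, V.of 10000 (-4750) 417,
      V.of 10000 2750 3600, V.of 10000 (-1040) 50] = true := by
  decide +kernel

theorem k_t3 : chkT (l3 (oR cN) 100) 40
    0x88188812288088220882882088288082000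
    [V.of 10000 100 1200, V.of 10000 (-4750) 417,
      V.of 10000 3600 8000, V.of 10000 (-1140) 50] = true := by
  decide +kernel

theorem k_en : chkT (lN 12 (-48) 32) 40
    0x880
    [V.of 10000 100 1200, V.of 10000 (-8167) (-6333),
      V.of 10000 500 2000, V.of 10000 (-1230) (-640)] = true := by
  decide +kernel

theorem k_e1 : chkT (l1 (oP cN) 400 ++ lW 12 (-48) 32) 40
    0xba2aaaa0222880aaa22288800aaa32200
    [V.of 10000 100 1200, V.of 10000 (-8167) (-6333),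
      V.of 10000 500 2470, V.of 10000 (-1230) (-640)] = true := by
  decide +kernel

theorem k_e2a : chkT (l2 (oR cN) (gL (var 2)) 400 ++ lW 12 (-48) 15) 40
    0x982828820880088089000
    [V.of 10000 100 1200, V.of 10000 (-8167) (-6333),
      V.of 10000 2470 3600, V.of 10000 (-1230) (-800)] = true := by
  decide +kernel

theorem k_e2c : chkT (l2 (oR cN) (q 3 100) 400 ++ lW 12 (-40) 32) 40
    0xa80888000
    [V.of 10000 100 1200, V.of 10000 (-8167) (-6333),
      V.of 10000 2470 2750, V.of 10000 (-1160) (-640)] = true := by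
  decide +kernel

theorem k_e2d : chkT (l2 (oR cN) (gD (var 2)) 400 ++ lW 12 (-40) 32) 40
    0x88080888000
    [V.of 10000 100 1200, V.of 10000 (-8167) (-6333),
      V.of 10000 2750 3600, V.of 10000 (-1160) (-640)] = true := by
  decide +kernel

theorem k_e3 : chkT (l3 (oR cN) 400) 40
    0x8828882288208820288288208828828820000
    [V.of 10000 100 1200, V.of 10000 (-8167) (-6333),
      V.of 10000 3600 8000, V.of 10000 (-1230) 0] = true := by
  decide +kernel

theorem k_hn : chkT (lN 13 (-105) 28) 40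
    0x88813
    [V.of 10000 100 1300, V.of 10000 (-1693) 1693,
      V.of 10000 500 2100, V.of 10000 (-1140) 50] = true := by
  decide +kernel

theorem k_h1 : chkT (l1 (oP cN) 50 ++ lW 13 (-105) 28) 40
    0xb808a180aa12aaa3228a82180328880088800aa2aa33220
    [V.of 10000 100 1300, V.of 10000 (-1693) 1693,
      V.of 10000 500 2470, V.of 10000 (-1140) 50] = true := by
  decide +kernel

theorem k_h2a : chkT (l2 (oR cN) (gL (var 2)) 50 ++ lW 13 (-105) 14) 40
    0x998283832993988028280838321988120988000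
    [V.of 10000 100 1300, V.of 10000 (-1693) 1693,
      V.of 10000 2470 3600, V.of 10000 (-1140) (-150)] = true := by
  decide +kernel

theorem k_h2c : chkT (l2 (oR cN) (q 3 100) 50 ++ lW 13 (-100) 28) 40
    0x8818a380180888000
    [V.of 10000 100 1300, V.of 10000 (-1693) 1693,
      V.of 10000 2470 2750, V.of 10000 (-1040) 50] = true := by
  decide +kernel

theorem k_h2d : chkT (l2 (oR cN) (gD (var 2)) 50 ++ lW 13 (-100) 28) 40
    0x99881280299881283802190881803888000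
    [V.of 10000 100 1300, V.of 10000 (-1693) 1693,
      V.of 10000 2750 3600, V.of 10000 (-1040) 50] = true := by
  decide +kernel

theorem k_h3 : chkT (l3 (oR cN) 50) 40
    0x8808088808022882882882000
    [V.of 10000 100 1300, V.of 10000 (-1693) 1693,
      V.of 10000 3600 8000, V.of 10000 (-1140) 50] = true := by
  decide +kernel

theorem k_gn : chkT (lN 12 (-105) 28) 40
    0x880
    [V.of 10000 100 1200, V.of 10000 (-2334) (-416),
      V.of 10000 500 2000, V.of 10000 (-1140) 50] = true := by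
  decide +kernel

theorem k_g1 : chkT (l1 (oP cN) 100 ++ lW 12 (-105) 28) 40
    0xb8080aa0a3aa02aa3aaa1322288800aa0a3aa02aa3aa32220
    [V.of 10000 100 1200, V.of 10000 (-2334) (-416),
      V.of 10000 500 2470, V.of 10000 (-1140) 50] = true := by
  decide +kernel

theorem k_g2a : chkT (l2 (oR cN) (gL (var 2)) 100 ++ lW 12 (-105) 14) 40
    0x9909880282808329820888000
    [V.of 10000 100 1200, V.of 10000 (-2334) (-416),
      V.of 10000 2470 3600, V.of 10000 (-1140) (-150)] = true := by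
  decide +kernel

theorem k_g2c : chkT (l2 (oR cN) (q 3 100) 100 ++ lW 12 (-100) 28) 40
    0x8a38080888000
    [V.of 10000 100 1200, V.of 10000 (-2334) (-416),
      V.of 10000 2470 2750, V.of 10000 (-1040) 50] = true := by
  decide +kernel

theorem k_g2d : chkT (l2 (oR cN) (gD (var 2)) 100 ++ lW 12 (-100) 28) 40
    0x9988128083290888000
    [V.of 10000 100 1200, V.of 10000 (-2334) (-416),
      V.of 10000 2750 3600, V.of 10000 (-1040) 50] = true := by
  decide +kernel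

theorem k_g3 : chkT (l3 (oR cN) 100) 40
    0x888228820882882882000
    [V.of 10000 100 1200, V.of 10000 (-2334) (-416),
      V.of 10000 3600 8000, V.of 10000 (-1140) 50] = true := by
  decide +kernel

theorem k_zn : chkT (lN 12 (-105) 28) 40
    0x883818080b8b3181818080b33888331
    [V.of 10000 100 1200, V.of 10000 (-84) 4750,
      V.of 10000 500 2000, V.of 10000 (-1140) 50] = true := by
  decide +kernel

theorem k_z1 : chkT (l1 (oP cN) 150 ++ lW 12 (-105) 28) 40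
    0xbb8008818881183228888812220b808088180aaa32288032188881228882812188800880aa228803200
    [V.of 10000 100 1200, V.of 10000 (-84) 4750,
      V.of 10000 500 2470, V.of 10000 (-1140) 50] = true := by
  decide +kernel

theorem k_z2a : chkT (l2 (oR cN) (gL (var 2)) 150 ++ lW 12 (-105) 14) 40
    0x991908881198298382118910298089000
    [V.of 10000 100 1200, V.of 10000 (-84) 4750,
      V.of 10000 2470 3600, V.of 10000 (-1140) (-150)] = true := by
  decide +kernel

theorem k_z2c : chkT (l2 (oR cN) (q 3 100) 150 ++ lW 12 (-100) 28) 40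
    0x881881801881088088000
    [V.of 10000 100 1200, V.of 10000 (-84) 4750,
      V.of 10000 2470 2750, V.of 10000 (-1040) 50] = true := by
  decide +kernel

theorem k_z2d : chkT (l2 (oR cN) (gD (var 2)) 150 ++ lW 12 (-100) 28) 40
    0x99190999808311881389102989000
    [V.of 10000 100 1200, V.of 10000 (-84) 4750,
      V.of 10000 2750 3600, V.of 10000 (-1040) 50] = true := by
  decide +kernel

theorem k_z3 : chkT (l3 (oR cN) 150) 40
    0x8808182888122880828812088082880288288082000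
    [V.of 10000 100 1200, V.of 10000 (-84) 4750,
      V.of 10000 3600 8000, V.of 10000 (-1140) 50] = true := by
  decide +kernel

end S0

end VL

end Pool.Agent.Work.MP_b30479_gtS.G2

end

section

/-!
# The loss at a hinge next to a ring: certificates
-/

set_option linter.unusedSimpArgs false
set_option linter.unusedVariables false

set_option deprecated.oldSectionVars true

namespace Pool.Agent.Work.MP_b30479_gtS.G2

open VOL NumUs

namespace ZD

open NumUs.E ZE

theorem e1_pD4X4nX {x y s r : ℝ} (ua1 : 6000 / 10000 ≤ x) (ua2 : x ≤ 6500 / 10000) (ua3 : -(273 / 10000) ≤ y) (ua4 : y ≤ 0 / 10000) (ua5 : 500 / 10000 ≤ s) (ua6 : s ≤ 2000 / 10000) (ua7 : 0 / 10000 ≤ r) (ua8 : r ≤ 1045 / 10000) (ua9 : (y - 4 * (r * s)) ≤ 0) (ua10 : -y ≤ 545 / 1000 * (65 / 100 - x)) :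
    NumUs.uu (x + s) (y + 4 * (r * s)) + (NumUs.uu (x - s) (y - 4 * (r * s)) + Real.pi * -(y - 4 * (r * s))) + (-NumUs.uu (x + 225 / 1000) (y + 9 / 10 * r) + -(NumUs.uu (x - 225 / 1000) (y - 9 / 10 * r) + Real.pi * (y - 9 / 10 * r))) < (958 / 10000 - 85 / 100 * r) ∨ NumUs.uu (x + s) (y + 4 * (r * s)) + (NumUs.uu (x - s) (y - 4 * (r * s)) + Real.pi * -(y - 4 * (r * s))) + (-NumUs.uu (x + 225 / 1000) (y + 9 / 10 * r) + -(NumUs.uu (x - 225 / 1000) (y - 9 / 10 * r) + Real.pi * -(y - 9 / 10 * r))) < (958 / 10000 - 85 / 100 * r) := by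
  have h : chkT [sub (sub (q 958 10000) (mul (q 85 100) ZE.r)) (add (add (E.uu (add ZE.x ZE.s) (add ZE.y ZE.h)) (add (E.uu (sub ZE.x ZE.s) (sub ZE.y ZE.h)) (mul pi (neg (sub ZE.y ZE.h))))) (add (neg (E.uu (add ZE.x (q 225 1000)) (add ZE.y (mul (q 9 10) ZE.r)))) (neg (add (E.uu (sub ZE.x (q 225 1000)) (sub ZE.y (mul (q 9 10) ZE.r))) (mul pi (sub ZE.y (mul (q 9 10) ZE.r))))))), sub (sub (q 958 10000) (mul (q 85 100) ZE.r)) (add (add (E.uu (add ZE.x ZE.s) (add ZE.y ZE.h)) (add (E.uu (sub ZE.x ZE.s) (sub ZE.y ZE.h)) (mul pi (neg (sub ZE.y ZE.h))))) (add (neg (E.uu (add ZE.x (q 225 1000)) (add ZE.y (mul (q 9 10) ZE.r)))) (neg (add (E.uu (sub ZE.x (q 225 1000)) (sub ZE.y (mul (q 9 10) ZE.r))) (mul pi (neg (sub ZE.y (mul (q 9 10) ZE.r)))))))), add (q 0 1) (sub ZE.y ZE.h), sub (neg ZE.y) (mul (q 545 1000) (sub (q 65 100) ZE.x))] 60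
    176654420619598308146
    [NumIs.V.of 10000 6000 6500, NumIs.V.of 10000 (-273) 0, NumIs.V.of 10000 500 2000, NumIs.V.of 10000 0 1045] = true := by
    decide +kernel
  obtain ⟨f, hf, hp⟩ := chkT4 h (by norm_num) (x := x) (y := y) (z := s) (w := r)
    (by norm_num; linarith only [ua1]) (by norm_num; linarith only [ua2]) (by norm_num; linarith only [ua1, ua10]) (by norm_num; linarith only [ua4]) (by norm_num; linarith only [ua5]) (by norm_num; linarith only [ua6]) (by norm_num; linarith only [ua7]) (by norm_num; linarith only [ua8])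
  by_contra hc
  push Not at hc
  obtain ⟨hc0, hc1⟩ := hc
  simp only [List.mem_cons, List.not_mem_nil, or_false] at hf
  rcases hf with rfl | rfl | rfl | rfl
  · simp only [ZE.x, ZE.y, ZE.s, ZE.r, ZE.h, E.val, NumIs.lkR] at hp
    push_cast at hp
    linarith only [hc0, hp]
  · simp only [ZE.x, ZE.y, ZE.s, ZE.r, ZE.h, E.val, NumIs.lkR] at hp
    push_cast at hp
    linarith only [hc1, hp]
  · simp only [ZE.x, ZE.y, ZE.s, ZE.r, ZE.h, E.val, NumIs.lkR] at hp
    push_cast at hp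
    linarith only [ua9, hp]
  · simp only [ZE.x, ZE.y, ZE.s, ZE.r, ZE.h, E.val, NumIs.lkR] at hp
    push_cast at hp
    linarith only [ua10, hp]

end ZD

end Pool.Agent.Work.MP_b30479_gtS.G2

end

section

/-!
# Part of `ZRe1A`
-/
set_option linter.unusedSimpArgs false
set_option linter.unusedVariables false

set_option deprecated.oldSectionVars true

namespace Pool.Agent.Work.MP_b30479_gtS.G2

open VOL NumUs

namespace ZD

open NumUs.E ZE

theorem e1_pD4X1nC {x y s r : ℝ} (ua1 : 900 / 10000 ≤ x) (ua2 : x ≤ 1850 / 10000) (ua3 : -(1580 / 10000) ≤ y) (ua4 : y ≤ 10 / 10000) (ua5 : 500 / 10000 ≤ s) (ua6 : s ≤ 1450 / 10000) (ua7 : 0 / 10000 ≤ r) (ua8 : r ≤ 1045 / 10000) (ua9 : 400 / 10000 ≤ x - s) (ua10 : (y - 4 * (r * s)) ≤ 0) (ua11 : -y ≤ 158 / 100 * x) :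
    NumUs.uu (x + s) (y + 4 * (r * s)) + (NumUs.uu (x - s) (y - 4 * (r * s)) + Real.pi * -(y - 4 * (r * s))) + (-NumUs.uu (x + 225 / 1000) (y + 9 / 10 * r) + -NumUs.uu (x + 775 / 1000) (y - 9 / 10 * r)) < (958 / 10000 - 85 / 100 * r) := by
  have h : chkT [sub (sub (q 958 10000) (mul (q 85 100) ZE.r)) (add (add (E.uu (add ZE.x ZE.s) (add ZE.y ZE.h)) (add (E.uu (sub ZE.x ZE.s) (sub ZE.y ZE.h)) (mul pi (neg (sub ZE.y ZE.h))))) (add (neg (E.uu (add ZE.x (q 225 1000)) (add ZE.y (mul (q 9 10) ZE.r)))) (neg (E.uu (add ZE.x (q 775 1000)) (sub ZE.y (mul (q 9 10) ZE.r)))))), sub (q 400 10000) (sub ZE.x ZE.s), add (q 0 1) (sub ZE.y ZE.h), sub (neg ZE.y) (mul (q 158 100) ZE.x)] 60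
    183431983765570796637213940370444480248898326111341389149705338896063059886307148207776821580854324320472106285152310435998311384480493567934227928348597225348738787896157618460850139469767045859016036719694215913521
    [NumIs.V.of 10000 900 1850, NumIs.V.of 10000 (-1580) 10, NumIs.V.of 10000 500 1450, NumIs.V.of 10000 0 1045] = true := by
    decide +kernel
  obtain ⟨f, hf, hp⟩ := chkT4 h (by norm_num) (x := x) (y := y) (z := s) (w := r)
    (by norm_num; linarith only [ua1]) (by norm_num; linarith only [ua2]) (by norm_num; linarith only [ua3]) (by norm_num; linarith only [ua4]) (by norm_num; linarith only [ua5]) (by norm_num; linarith only [ua6]) (by norm_num; linarith only [ua7]) (by norm_num; linarith only [ua8])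
  by_contra hc
  push Not at hc
  simp only [List.mem_cons, List.not_mem_nil, or_false] at hf
  rcases hf with rfl | rfl | rfl | rfl
  · simp only [ZE.x, ZE.y, ZE.s, ZE.r, ZE.h, E.val, NumIs.lkR] at hp
    push_cast at hp
    linarith only [hc, hp]
  · simp only [ZE.x, ZE.y, ZE.s, ZE.r, ZE.h, E.val, NumIs.lkR] at hp
    push_cast at hp
    linarith only [ua9, hp]
  · simp only [ZE.x, ZE.y, ZE.s, ZE.r, ZE.h, E.val, NumIs.lkR] at hp
    push_cast at hp
    linarith only [ua10, hp]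
  · simp only [ZE.x, ZE.y, ZE.s, ZE.r, ZE.h, E.val, NumIs.lkR] at hp
    push_cast at hp
    linarith only [ua11, hp]

theorem e1_pD4X2nC {x y s r : ℝ} (ua1 : 1850 / 10000 ≤ x) (ua2 : x ≤ 2250 / 10000) (ua3 : -(1580 / 10000) ≤ y) (ua4 : y ≤ 10 / 10000) (ua5 : 500 / 10000 ≤ s) (ua6 : s ≤ 1850 / 10000) (ua7 : 0 / 10000 ≤ r) (ua8 : r ≤ 1045 / 10000) (ua9 : 400 / 10000 ≤ x - s) (ua10 : (y - 4 * (r * s)) ≤ 0) :
    NumUs.uu (x + s) (y + 4 * (r * s)) + (NumUs.uu (x - s) (y - 4 * (r * s)) + Real.pi * -(y - 4 * (r * s))) + (-NumUs.uu (x + 225 / 1000) (y + 9 / 10 * r) + ((25 / 1) * (225 / 1000 - x) * NumUs.uu (400 / 10000) (y - 9 / 10 * r) - Real.pi * (1 / 2) * (y - 9 / 10 * r) * (1 - (25 / 1) * (225 / 1000 - x)))) < (958 / 10000 - 85 / 100 * r) ∨ NumUs.uu (x + s) (y + 4 * (r * s)) + (NumUs.uu (x - s) (y - 4 * (r * s)) + Real.pi * -(y - 4 * (r * s))) + (-NumUs.uu (x + 225 / 1000) (y + 9 / 10 * r) + ((25 / 1) * (225 / 1000 - x) * NumUs.uu (400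 / 10000) (y - 9 / 10 * r) - Real.pi * (1 / 2) * -(y - 9 / 10 * r) * (1 - (25 / 1) * (225 / 1000 - x)))) < (958 / 10000 - 85 / 100 * r) := by
  have h : chkT [sub (sub (q 958 10000) (mul (q 85 100) ZE.r)) (add (add (E.uu (add ZE.x ZE.s) (add ZE.y ZE.h)) (add (E.uu (sub ZE.x ZE.s) (sub ZE.y ZE.h)) (mul pi (neg (sub ZE.y ZE.h))))) (add (neg (E.uu (add ZE.x (q 225 1000)) (add ZE.y (mul (q 9 10) ZE.r)))) (sub (mul (mul (q 25 1) (sub (q 225 1000) ZE.x)) (E.uu (q 400 10000) (sub ZE.y (mul (q 9 10) ZE.r)))) (mul (mul (mul pi (q 1 2)) (sub ZE.y (mul (q 9 10) ZE.r))) (sub (q 1 1) (mul (q 25 1) (sub (q 225 1000) ZE.x))))))), sub (sub (q 958 10000) (mul (q 85 100) ZE.r)) (add (add (E.uu (add ZE.x ZE.s) (add ZE.y ZE.h)) (add (E.uu (sub ZE.x ZE.s) (sub ZE.y ZE.h)) (mul pi (neg (sub ZE.y ZE.h))))) (add (neg (E.uu (add ZE.x (q 225 1000)) (add ZE.y (mul (q 9 10) ZE.r)))) (sub (mul (mul (q 25 1) (sub (q 225 1000) ZE.x)) (E.uu (q 400 10000) (sub ZE.y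 (mul (q 9 10) ZE.r)))) (mul (mul (mul pi (q 1 2)) (neg (sub ZE.y (mul (q 9 10) ZE.r)))) (sub (q 1 1) (mul (q 25 1) (sub (q 225 1000) ZE.x))))))), sub (q 400 10000) (sub ZE.x ZE.s), add (q 0 1) (sub ZE.y ZE.h)] 60
    1473966986025493241502196986868004285923636636903758033260984015584314154053561492670593670951943191587604370363154
    [NumIs.V.of 10000 1850 2250, NumIs.V.of 10000 (-1580) 10, NumIs.V.of 10000 500 1850, NumIs.V.of 10000 0 1045] = true := by
    decide +kernel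
  obtain ⟨f, hf, hp⟩ := chkT4 h (by norm_num) (x := x) (y := y) (z := s) (w := r)
    (by norm_num; linarith only [ua1]) (by norm_num; linarith only [ua2]) (by norm_num; linarith only [ua3]) (by norm_num; linarith only [ua4]) (by norm_num; linarith only [ua5]) (by norm_num; linarith only [ua6]) (by norm_num; linarith only [ua7]) (by norm_num; linarith only [ua8])
  by_contra hc
  push Not at hc
  obtain ⟨hc0, hc1⟩ := hc
  simp only [List.mem_cons, List.not_mem_nil, or_false] at hf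
  rcases hf with rfl | rfl | rfl | rfl
  · simp only [ZE.x, ZE.y, ZE.s, ZE.r, ZE.h, E.val, NumIs.lkR] at hp
    push_cast at hp
    linarith only [hc0, hp]
  · simp only [ZE.x, ZE.y, ZE.s, ZE.r, ZE.h, E.val, NumIs.lkR] at hp
    push_cast at hp
    linarith only [hc1, hp]
  · simp only [ZE.x, ZE.y, ZE.s, ZE.r, ZE.h, E.val, NumIs.lkR] at hp
    push_cast at hp
    linarith only [ua9, hp]
  · simp only [ZE.x, ZE.y, ZE.s, ZE.r, ZE.h, E.val, NumIs.lkR] at hp
    push_cast at hp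
    linarith only [ua10, hp]

theorem e1_pD4X3nC {x y s r : ℝ} (ua1 : 2250 / 10000 ≤ x) (ua2 : x ≤ 2650 / 10000) (ua3 : -(1580 / 10000) ≤ y) (ua4 : y ≤ 10 / 10000) (ua5 : 500 / 10000 ≤ s) (ua6 : s ≤ 2000 / 10000) (ua7 : 0 / 10000 ≤ r) (ua8 : r ≤ 1045 / 10000) (ua9 : 400 / 10000 ≤ x - s) (ua10 : (y - 4 * (r * s)) ≤ 0) :
    NumUs.uu (x + s) (y + 4 * (r * s)) + (NumUs.uu (x - s) (y - 4 * (r * s)) + Real.pi * -(y - 4 * (r * s))) + (-NumUs.uu (x + 225 / 1000) (y + 9 / 10 * r) + (((400 / 10000) - (x - 225 / 1000)) * NumIs.lnA (400 / 10000) (y - 9 / 10 * r) - NumUs.uu (400 / 10000) (y - 9 / 10 * r) - Real.pi * (y - 9 / 10 * r))) < (958 / 10000 - 85 / 100 * r) ∨ NumUs.uu (x + s) (y + 4 * (r * s)) + (NumUs.uu (x - s) (y - 4 * (r * s)) + Real.pi * -(y - 4 * (r * s))) + (-NumUs.uu (x + 225 / 1000) (y + 9 / 10 * r) + (((400 / 10000) - (x - 225 / 1000)) * NumIs.lnA (400 / 10000) (y - 9 / 10 * r) - NumUs.uu (400 / 10000) (y - 9 / 10 * r) - Real.pi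 * -(y - 9 / 10 * r))) < (958 / 10000 - 85 / 100 * r) := by
  have h : chkT [sub (sub (q 958 10000) (mul (q 85 100) ZE.r)) (add (add (E.uu (add ZE.x ZE.s) (add ZE.y ZE.h)) (add (E.uu (sub ZE.x ZE.s) (sub ZE.y ZE.h)) (mul pi (neg (sub ZE.y ZE.h))))) (add (neg (E.uu (add ZE.x (q 225 1000)) (add ZE.y (mul (q 9 10) ZE.r)))) (sub (sub (mul (sub (q 400 10000) (sub ZE.x (q 225 1000))) (E.lnA (q 400 10000) (sub ZE.y (mul (q 9 10) ZE.r)))) (E.uu (q 400 10000) (sub ZE.y (mul (q 9 10) ZE.r)))) (mul pi (sub ZE.y (mul (q 9 10) ZE.r)))))), sub (sub (q 958 10000) (mul (q 85 100) ZE.r)) (add (add (E.uu (add ZE.x ZE.s) (add ZE.y ZE.h)) (add (E.uu (sub ZE.x ZE.s) (sub ZE.y ZE.h)) (mul pi (neg (sub ZE.y ZE.h))))) (add (neg (E.uu (add ZE.x (q 225 1000)) (add ZE.y (mul (q 9 10) ZE.r)))) (sub (sub (mul (sub (q 400 10000) (sub ZE.x (q 225 1000))) (E.lnA (q 400 10000) (sub ZE.y (mul (q 9 10) ZE.r)))) (E.uu (q 400 10000) (sub ZE.y (mul (q 9 10) ZE.r)))) (mul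 pi (neg (sub ZE.y (mul (q 9 10) ZE.r))))))), sub (q 400 10000) (sub ZE.x ZE.s), add (q 0 1) (sub ZE.y ZE.h)] 60
    257972774339049627360021804262573749540505585314474039105643018294034
    [NumIs.V.of 10000 2250 2650, NumIs.V.of 10000 (-1580) 10, NumIs.V.of 10000 500 2000, NumIs.V.of 10000 0 1045] = true := by
    decide +kernel
  obtain ⟨f, hf, hp⟩ := chkT4 h (by norm_num) (x := x) (y := y) (z := s) (w := r)
    (by norm_num; linarith only [ua1]) (by norm_num; linarith only [ua2]) (by norm_num; linarith only [ua3]) (by norm_num; linarith only [ua4]) (by norm_num; linarith only [ua5]) (by norm_num; linarith only [ua6]) (by norm_num; linarith only [ua7]) (by norm_num; linarith only [ua8])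
  by_contra hc
  push Not at hc
  obtain ⟨hc0, hc1⟩ := hc
  simp only [List.mem_cons, List.not_mem_nil, or_false] at hf
  rcases hf with rfl | rfl | rfl | rfl
  · simp only [ZE.x, ZE.y, ZE.s, ZE.r, ZE.h, E.val, NumIs.lkR] at hp
    push_cast at hp
    linarith only [hc0, hp]
  · simp only [ZE.x, ZE.y, ZE.s, ZE.r, ZE.h, E.val, NumIs.lkR] at hp
    push_cast at hp
    linarith only [hc1, hp]
  · simp only [ZE.x, ZE.y, ZE.s, ZE.r, ZE.h, E.val, NumIs.lkR] at hp
    push_cast at hp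
    linarith only [ua9, hp]
  · simp only [ZE.x, ZE.y, ZE.s, ZE.r, ZE.h, E.val, NumIs.lkR] at hp
    push_cast at hp
    linarith only [ua10, hp]

theorem e1_pD4X4nC {x y s r : ℝ} (ua1 : 2650 / 10000 ≤ x) (ua2 : x ≤ 6000 / 10000) (ua3 : -(1580 / 10000) ≤ y) (ua4 : y ≤ 10 / 10000) (ua5 : 500 / 10000 ≤ s) (ua6 : s ≤ 2000 / 10000) (ua7 : 0 / 10000 ≤ r) (ua8 : r ≤ 1045 / 10000) (ua9 : (y - 4 * (r * s)) ≤ 0) (ua10 : -y ≤ 545 / 1000 * (65 / 100 - x)) :
    NumUs.uu (x + s) (y + 4 * (r * s)) + (NumUs.uu (x - s) (y - 4 * (r * s)) + Real.pi * -(y - 4 * (r * s))) + (-NumUs.uu (x + 225 / 1000) (y + 9 / 10 * r) + -(NumUs.uu (x - 225 / 1000) (y - 9 / 10 * r) + Real.pi * (y - 9 / 10 * r))) < (958 / 10000 - 85 / 100 * r) ∨ NumUs.uu (x + s) (y + 4 * (r * s)) + (NumUs.uu (x - s) (y - 4 * (r * s)) + Real.pi * -(y - 4 * (r * s))) + (-NumUs.uu (x + 225 / 1000) (y + 9 / 10 * r) + -(NumUs.uu (x - 225 / 1000) (y - 9 / 10 * r) + Real.pi * -(y - 9 / 10 *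 r))) < (958 / 10000 - 85 / 100 * r) := by
  have h : chkT [sub (sub (q 958 10000) (mul (q 85 100) ZE.r)) (add (add (E.uu (add ZE.x ZE.s) (add ZE.y ZE.h)) (add (E.uu (sub ZE.x ZE.s) (sub ZE.y ZE.h)) (mul pi (neg (sub ZE.y ZE.h))))) (add (neg (E.uu (add ZE.x (q 225 1000)) (add ZE.y (mul (q 9 10) ZE.r)))) (neg (add (E.uu (sub ZE.x (q 225 1000)) (sub ZE.y (mul (q 9 10) ZE.r))) (mul pi (sub ZE.y (mul (q 9 10) ZE.r))))))), sub (sub (q 958 10000) (mul (q 85 100) ZE.r)) (add (add (E.uu (add ZE.x ZE.s) (add ZE.y ZE.h)) (add (E.uu (sub ZE.x ZE.s) (sub ZE.y ZE.h)) (mul pi (neg (sub ZE.y ZE.h))))) (add (neg (E.uu (add ZE.x (q 225 1000)) (add ZE.y (mul (q 9 10) ZE.r)))) (neg (add (E.uu (sub ZE.x (q 225 1000)) (sub ZE.y (mul (q 9 10) ZE.r))) (mul pi (neg (sub ZE.y (mul (q 9 10) ZE.r)))))))), add (q 0 1) (sub ZE.y ZE.h), sub (neg ZE.y) (mul (q 545 1000) (sub (q 65 100) ZE.x))] 60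
    3144521732323507955353929518832774840466384570620391177384821874079717018116162627046255535118749586979362687813526077432945615068114473339003819016025085189065553404435076653335601704428597780143526004418224128
    [NumIs.V.of 10000 2650 6000, NumIs.V.of 10000 (-1580) 10, NumIs.V.of 10000 500 2000, NumIs.V.of 10000 0 1045] = true := by
    decide +kernel
  obtain ⟨f, hf, hp⟩ := chkT4 h (by norm_num) (x := x) (y := y) (z := s) (w := r)
    (by norm_num; linarith only [ua1]) (by norm_num; linarith only [ua2]) (by norm_num; linarith only [ua3]) (by norm_num; linarith only [ua4]) (by norm_num; linarith only [ua5]) (by norm_num; linarith only [ua6]) (by norm_num; linarith only [ua7]) (by norm_num; linarith only [ua8])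
  by_contra hc
  push Not at hc
  obtain ⟨hc0, hc1⟩ := hc
  simp only [List.mem_cons, List.not_mem_nil, or_false] at hf
  rcases hf with rfl | rfl | rfl | rfl
  · simp only [ZE.x, ZE.y, ZE.s, ZE.r, ZE.h, E.val, NumIs.lkR] at hp
    push_cast at hp
    linarith only [hc0, hp]
  · simp only [ZE.x, ZE.y, ZE.s, ZE.r, ZE.h, E.val, NumIs.lkR] at hp
    push_cast at hp
    linarith only [hc1, hp]
  · simp only [ZE.x, ZE.y, ZE.s, ZE.r, ZE.h, E.val, NumIs.lkR] at hp
    push_cast at hp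
    linarith only [ua9, hp]
  · simp only [ZE.x, ZE.y, ZE.s, ZE.r, ZE.h, E.val, NumIs.lkR] at hp
    push_cast at hp
    linarith only [ua10, hp]

end ZD

end Pool.Agent.Work.MP_b30479_gtS.G2

end

section

/-!
# The loss at a hinge next to a ring: certificates
-/

set_option linter.unusedSimpArgs false
set_option linter.unusedVariables false

set_option deprecated.oldSectionVars true

namespace Pool.Agent.Work.MP_b30479_gtS.G2

open VOL NumUs

namespace ZD

open NumUs.E ZE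

theorem e1_mD4X2nC {x y s r : ℝ} (ua1 : 1850 / 10000 ≤ x) (ua2 : x ≤ 2250 / 10000) (ua3 : -(1580 / 10000) ≤ y) (ua4 : y ≤ 0 / 10000) (ua5 : 500 / 10000 ≤ s) (ua6 : s ≤ 1850 / 10000) (ua7 : 0 / 10000 ≤ r) (ua8 : r ≤ 1045 / 10000) (ua9 : 400 / 10000 ≤ x - s) (ua10 : (y + 4 * (r * s)) ≤ 0) :
    NumUs.uu (x + s) (y - 4 * (r * s)) + (NumUs.uu (x - s) (y + 4 * (r * s)) + Real.pi * -(y + 4 * (r * s))) + (-NumUs.uu (x + 225 / 1000) (y + 9 / 10 * r) + ((25 / 1) * (225 / 1000 - x) * NumUs.uu (400 / 10000) (y - 9 / 10 * r) - Real.pi * (1 / 2) * (y - 9 / 10 * r) * (1 - (25 / 1) * (225 / 1000 - x)))) < (958 / 10000 - 85 / 100 * r) ∨ NumUs.uu (x + s) (y - 4 * (r * s)) + (NumUs.uu (x - s) (y + 4 * (r * s)) + Real.pi * -(y + 4 * (r * s))) + (-NumUs.uu (x + 225 / 1000) (y + 9 / 10 * r) + ((25 / 1) * (225 / 1000 - x) * NumUs.uu (400 / 10000) (y - 9 / 10 * r) - Real.pi * (1 / 2) * -(y - 9 / 10 * r) * (1 - (25 / 1) * (225 / 1000 - x)))) < (958 / 10000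 - 85 / 100 * r) := by
  have h : chkT [sub (sub (q 958 10000) (mul (q 85 100) ZE.r)) (add (add (E.uu (add ZE.x ZE.s) (sub ZE.y ZE.h)) (add (E.uu (sub ZE.x ZE.s) (add ZE.y ZE.h)) (mul pi (neg (add ZE.y ZE.h))))) (add (neg (E.uu (add ZE.x (q 225 1000)) (add ZE.y (mul (q 9 10) ZE.r)))) (sub (mul (mul (q 25 1) (sub (q 225 1000) ZE.x)) (E.uu (q 400 10000) (sub ZE.y (mul (q 9 10) ZE.r)))) (mul (mul (mul pi (q 1 2)) (sub ZE.y (mul (q 9 10) ZE.r))) (sub (q 1 1) (mul (q 25 1) (sub (q 225 1000) ZE.x))))))), sub (sub (q 958 10000) (mul (q 85 100) ZE.r)) (add (add (E.uu (add ZE.x ZE.s) (sub ZE.y ZE.h)) (add (E.uu (sub ZE.x ZE.s) (add ZE.y ZE.h)) (mul pi (neg (add ZE.y ZE.h))))) (add (neg (E.uu (add ZE.x (q 225 1000)) (add ZE.y (mul (q 9 10) ZE.r)))) (sub (mul (mul (q 25 1) (sub (q 225 1000) ZE.x)) (E.uu (q 400 10000) (sub ZE.y (mul (q 9 10) ZE.r)))) (mul (mul (mul pi (q 1 2)) (neg (sub ZE.y (mul (q 9 10) ZE.r)))) (sub (q 1 1) (mul (q 25 1) (sub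 (q 225 1000) ZE.x))))))), sub (q 400 10000) (sub ZE.x ZE.s), add (q 0 1) (add ZE.y ZE.h)] 60
    4758761525023174917956957044594698903338052829567341573517007429855556490036978411712786
    [NumIs.V.of 10000 1850 2250, NumIs.V.of 10000 (-1580) 0, NumIs.V.of 10000 500 1850, NumIs.V.of 10000 0 1045] = true := by
    decide +kernel
  obtain ⟨f, hf, hp⟩ := chkT4 h (by norm_num) (x := x) (y := y) (z := s) (w := r)
    (by norm_num; linarith only [ua1]) (by norm_num; linarith only [ua2]) (by norm_num; linarith only [ua3]) (by norm_num; linarith only [ua4]) (by norm_num; linarith only [ua5]) (by norm_num; linarith only [ua6]) (by norm_num; linarith only [ua7]) (by norm_num; linarith only [ua8])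
  by_contra hc
  push Not at hc
  obtain ⟨hc0, hc1⟩ := hc
  simp only [List.mem_cons, List.not_mem_nil, or_false] at hf
  rcases hf with rfl | rfl | rfl | rfl
  · simp only [ZE.x, ZE.y, ZE.s, ZE.r, ZE.h, E.val, NumIs.lkR] at hp
    push_cast at hp
    linarith only [hc0, hp]
  · simp only [ZE.x, ZE.y, ZE.s, ZE.r, ZE.h, E.val, NumIs.lkR] at hp
    push_cast at hp
    linarith only [hc1, hp]
  · simp only [ZE.x, ZE.y, ZE.s, ZE.r, ZE.h, E.val, NumIs.lkR] at hp
    push_cast at hp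
    linarith only [ua9, hp]
  · simp only [ZE.x, ZE.y, ZE.s, ZE.r, ZE.h, E.val, NumIs.lkR] at hp
    push_cast at hp
    linarith only [ua10, hp]

theorem e1_mD4X3nC {x y s r : ℝ} (ua1 : 2250 / 10000 ≤ x) (ua2 : x ≤ 2650 / 10000) (ua3 : -(1580 / 10000) ≤ y) (ua4 : y ≤ 0 / 10000) (ua5 : 500 / 10000 ≤ s) (ua6 : s ≤ 2000 / 10000) (ua7 : 0 / 10000 ≤ r) (ua8 : r ≤ 1045 / 10000) (ua9 : 400 / 10000 ≤ x - s) (ua10 : (y + 4 * (r * s)) ≤ 0) :
    NumUs.uu (x + s) (y - 4 * (r * s)) + (NumUs.uu (x - s) (y + 4 * (r * s)) + Real.pi * -(y + 4 * (r * s))) + (-NumUs.uu (x + 225 / 1000) (y + 9 / 10 * r) + (((400 / 10000) - (x - 225 / 1000)) * NumIs.lnA (400 / 10000) (y - 9 / 10 * r) - NumUs.uu (400 / 10000) (y - 9 / 10 * r) - Real.pi * (y - 9 / 10 * r))) < (958 / 10000 - 85 / 100 * r) ∨ NumUs.uu (x + s) (y - 4 * (r * s)) + (NumUs.uu (x - s) (y + 4 * (r * s)) + Real.pi * -(y + 4 * (r * s))) + (-NumUs.uu (x + 225 / 1000) (y + 9 / 10 * r) + (((400 / 10000)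 - (x - 225 / 1000)) * NumIs.lnA (400 / 10000) (y - 9 / 10 * r) - NumUs.uu (400 / 10000) (y - 9 / 10 * r) - Real.pi * -(y - 9 / 10 * r))) < (958 / 10000 - 85 / 100 * r) := by
  have h : chkT [sub (sub (q 958 10000) (mul (q 85 100) ZE.r)) (add (add (E.uu (add ZE.x ZE.s) (sub ZE.y ZE.h)) (add (E.uu (sub ZE.x ZE.s) (add ZE.y ZE.h)) (mul pi (neg (add ZE.y ZE.h))))) (add (neg (E.uu (add ZE.x (q 225 1000)) (add ZE.y (mul (q 9 10) ZE.r)))) (sub (sub (mul (sub (q 400 10000) (sub ZE.x (q 225 1000))) (E.lnA (q 400 10000) (sub ZE.y (mul (q 9 10) ZE.r)))) (E.uu (q 400 10000) (sub ZE.y (mul (q 9 10) ZE.r)))) (mul pi (sub ZE.y (mul (q 9 10) ZE.r)))))), sub (sub (q 958 10000) (mul (q 85 100) ZE.r)) (add (add (E.uu (add ZE.x ZE.s) (sub ZE.y ZE.h)) (add (E.uu (sub ZE.x ZE.s) (add ZE.y ZE.h)) (mul pi (neg (add ZE.y ZE.h))))) (add (neg (E.uu (add ZE.x (q 225 1000)) (add ZE.y (mul (q 9 10) ZE.r)))) (sub (sub (mul (sub (q 400 10000) (sub ZE.x (q 225 1000)))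 (E.lnA (q 400 10000) (sub ZE.y (mul (q 9 10) ZE.r)))) (E.uu (q 400 10000) (sub ZE.y (mul (q 9 10) ZE.r)))) (mul pi (neg (sub ZE.y (mul (q 9 10) ZE.r))))))), sub (q 400 10000) (sub ZE.x ZE.s), add (q 0 1) (add ZE.y ZE.h)] 60
    234816477252859186204366008147538566231706070911433675538
    [NumIs.V.of 10000 2250 2650, NumIs.V.of 10000 (-1580) 0, NumIs.V.of 10000 500 2000, NumIs.V.of 10000 0 1045] = true := by
    decide +kernel
  obtain ⟨f, hf, hp⟩ := chkT4 h (by norm_num) (x := x) (y := y) (z := s) (w := r)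
    (by norm_num; linarith only [ua1]) (by norm_num; linarith only [ua2]) (by norm_num; linarith only [ua3]) (by norm_num; linarith only [ua4]) (by norm_num; linarith only [ua5]) (by norm_num; linarith only [ua6]) (by norm_num; linarith only [ua7]) (by norm_num; linarith only [ua8])
  by_contra hc
  push Not at hc
  obtain ⟨hc0, hc1⟩ := hc
  simp only [List.mem_cons, List.not_mem_nil, or_false] at hf
  rcases hf with rfl | rfl | rfl | rfl
  · simp only [ZE.x, ZE.y, ZE.s, ZE.r, ZE.h, E.val, NumIs.lkR] at hp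
    push_cast at hp
    linarith only [hc0, hp]
  · simp only [ZE.x, ZE.y, ZE.s, ZE.r, ZE.h, E.val, NumIs.lkR] at hp
    push_cast at hp
    linarith only [hc1, hp]
  · simp only [ZE.x, ZE.y, ZE.s, ZE.r, ZE.h, E.val, NumIs.lkR] at hp
    push_cast at hp
    linarith only [ua9, hp]
  · simp only [ZE.x, ZE.y, ZE.s, ZE.r, ZE.h, E.val, NumIs.lkR] at hp
    push_cast at hp
    linarith only [ua10, hp]

theorem e1_mD4X4nC {x y s r : ℝ} (ua1 : 2650 / 10000 ≤ x) (ua2 : x ≤ 6000 / 10000) (ua3 : -(1580 / 10000) ≤ y) (ua4 : y ≤ 0 / 10000) (ua5 : 500 / 10000 ≤ s) (ua6 : s ≤ 2000 / 10000) (ua7 : 0 / 10000 ≤ r) (ua8 : r ≤ 1045 / 10000) (ua9 : (y + 4 * (r * s)) ≤ 0) (ua10 : -y ≤ 545 / 1000 * (65 / 100 - x)) :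
    NumUs.uu (x + s) (y - 4 * (r * s)) + (NumUs.uu (x - s) (y + 4 * (r * s)) + Real.pi * -(y + 4 * (r * s))) + (-NumUs.uu (x + 225 / 1000) (y + 9 / 10 * r) + -(NumUs.uu (x - 225 / 1000) (y - 9 / 10 * r) + Real.pi * (y - 9 / 10 * r))) < (958 / 10000 - 85 / 100 * r) ∨ NumUs.uu (x + s) (y - 4 * (r * s)) + (NumUs.uu (x - s) (y + 4 * (r * s)) + Real.pi * -(y + 4 * (r * s))) + (-NumUs.uu (x + 225 / 1000) (y + 9 / 10 * r) + -(NumUs.uu (x - 225 / 1000) (y - 9 / 10 * r) + Real.pi * -(y - 9 / 10 * r))) < (958 / 10000 - 85 / 100 * r) := by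
  have h : chkT [sub (sub (q 958 10000) (mul (q 85 100) ZE.r)) (add (add (E.uu (add ZE.x ZE.s) (sub ZE.y ZE.h)) (add (E.uu (sub ZE.x ZE.s) (add ZE.y ZE.h)) (mul pi (neg (add ZE.y ZE.h))))) (add (neg (E.uu (add ZE.x (q 225 1000)) (add ZE.y (mul (q 9 10) ZE.r)))) (neg (add (E.uu (sub ZE.x (q 225 1000)) (sub ZE.y (mul (q 9 10) ZE.r))) (mul pi (sub ZE.y (mul (q 9 10) ZE.r))))))), sub (sub (q 958 10000) (mul (q 85 100) ZE.r)) (add (add (E.uu (add ZE.x ZE.s) (sub ZE.y ZE.h)) (add (E.uu (sub ZE.x ZE.s) (add ZE.y ZE.h)) (mul pi (neg (add ZE.y ZE.h))))) (add (neg (E.uu (add ZE.x (q 225 1000)) (add ZE.y (mul (q 9 10) ZE.r)))) (neg (add (E.uu (sub ZE.x (q 225 1000)) (sub ZE.y (mul (q 9 10) ZE.r))) (mul pi (neg (sub ZE.y (mul (q 9 10) ZE.r)))))))), add (q 0 1) (add ZE.y ZE.h), sub (neg ZE.y) (mul (q 545 1000) (sub (q 65 100) ZE.x))] 60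
    18596488543865366403330364900032818033554472666869195106649531412494970588119870545920
    [NumIs.V.of 10000 2650 6000, NumIs.V.of 10000 (-1580) 0, NumIs.V.of 10000 500 2000, NumIs.V.of 10000 0 1045] = true := by
    decide +kernel
  obtain ⟨f, hf, hp⟩ := chkT4 h (by norm_num) (x := x) (y := y) (z := s) (w := r)
    (by norm_num; linarith only [ua1]) (by norm_num; linarith only [ua2]) (by norm_num; linarith only [ua3]) (by norm_num; linarith only [ua4]) (by norm_num; linarith only [ua5]) (by norm_num; linarith only [ua6]) (by norm_num; linarith only [ua7]) (by norm_num; linarith only [ua8])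
  by_contra hc
  push Not at hc
  obtain ⟨hc0, hc1⟩ := hc
  simp only [List.mem_cons, List.not_mem_nil, or_false] at hf
  rcases hf with rfl | rfl | rfl | rfl
  · simp only [ZE.x, ZE.y, ZE.s, ZE.r, ZE.h, E.val, NumIs.lkR] at hp
    push_cast at hp
    linarith only [hc0, hp]
  · simp only [ZE.x, ZE.y, ZE.s, ZE.r, ZE.h, E.val, NumIs.lkR] at hp
    push_cast at hp
    linarith only [hc1, hp]
  · simp only [ZE.x, ZE.y, ZE.s, ZE.r, ZE.h, E.val, NumIs.lkR] at hp
    push_cast at hp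
    linarith only [ua9, hp]
  · simp only [ZE.x, ZE.y, ZE.s, ZE.r, ZE.h, E.val, NumIs.lkR] at hp
    push_cast at hp
    linarith only [ua10, hp]

theorem e1_mD4X4nX {x y s r : ℝ} (ua1 : 6000 / 10000 ≤ x) (ua2 : x ≤ 6500 / 10000) (ua3 : -(273 / 10000) ≤ y) (ua4 : y ≤ 0 / 10000) (ua5 : 500 / 10000 ≤ s) (ua6 : s ≤ 2000 / 10000) (ua7 : 0 / 10000 ≤ r) (ua8 : r ≤ 1045 / 10000) (ua9 : (y + 4 * (r * s)) ≤ 0) (ua10 : -y ≤ 545 / 1000 * (65 / 100 - x)) :
    NumUs.uu (x + s) (y - 4 * (r * s)) + (NumUs.uu (x - s) (y + 4 * (r * s)) + Real.pi * -(y + 4 * (r * s))) + (-NumUs.uu (x + 225 / 1000) (y + 9 / 10 * r) + -(NumUs.uu (x - 225 / 1000) (y - 9 / 10 * r) + Real.pi * (y - 9 / 10 * r))) < (958 / 10000 - 85 / 100 * r) ∨ NumUs.uu (x + s) (y - 4 * (r * s)) + (NumUs.uu (x - s) (y + 4 * (r * s)) + Real.pi * -(y + 4 * (r * s))) + (-NumUs.uu (x + 225 / 1000) (y + 9 / 10 * r) + -(NumUs.uu (x - 225 / 1000) (y - 9 / 10 * r) + Real.pi * -(y - 9 / 10 * r)))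 < (958 / 10000 - 85 / 100 * r) := by
  have h : chkT [sub (sub (q 958 10000) (mul (q 85 100) ZE.r)) (add (add (E.uu (add ZE.x ZE.s) (sub ZE.y ZE.h)) (add (E.uu (sub ZE.x ZE.s) (add ZE.y ZE.h)) (mul pi (neg (add ZE.y ZE.h))))) (add (neg (E.uu (add ZE.x (q 225 1000)) (add ZE.y (mul (q 9 10) ZE.r)))) (neg (add (E.uu (sub ZE.x (q 225 1000)) (sub ZE.y (mul (q 9 10) ZE.r))) (mul pi (sub ZE.y (mul (q 9 10) ZE.r))))))), sub (sub (q 958 10000) (mul (q 85 100) ZE.r)) (add (add (E.uu (add ZE.x ZE.s) (sub ZE.y ZE.h)) (add (E.uu (sub ZE.x ZE.s) (add ZE.y ZE.h)) (mul pi (neg (add ZE.y ZE.h))))) (add (neg (E.uu (add ZE.x (q 225 1000)) (add ZE.y (mul (q 9 10) ZE.r)))) (neg (add (E.uu (sub ZE.x (q 225 1000)) (sub ZE.y (mul (q 9 10) ZE.r))) (mul pi (neg (sub ZE.y (mul (q 9 10) ZE.r)))))))), add (q 0 1) (add ZE.y ZE.h), sub (neg ZE.y) (mul (q 545 1000) (sub (q 65 100) ZE.x))] 60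
    691629757451871011
    [NumIs.V.of 10000 6000 6500, NumIs.V.of 10000 (-273) 0, NumIs.V.of 10000 500 2000, NumIs.V.of 10000 0 1045] = true := by
    decide +kernel
  obtain ⟨f, hf, hp⟩ := chkT4 h (by norm_num) (x := x) (y := y) (z := s) (w := r)
    (by norm_num; linarith only [ua1]) (by norm_num; linarith only [ua2]) (by norm_num; linarith only [ua1, ua10]) (by norm_num; linarith only [ua4]) (by norm_num; linarith only [ua5]) (by norm_num; linarith only [ua6]) (by norm_num; linarith only [ua7]) (by norm_num; linarith only [ua8])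
  by_contra hc
  push Not at hc
  obtain ⟨hc0, hc1⟩ := hc
  simp only [List.mem_cons, List.not_mem_nil, or_false] at hf
  rcases hf with rfl | rfl | rfl | rfl
  · simp only [ZE.x, ZE.y, ZE.s, ZE.r, ZE.h, E.val, NumIs.lkR] at hp
    push_cast at hp
    linarith only [hc0, hp]
  · simp only [ZE.x, ZE.y, ZE.s, ZE.r, ZE.h, E.val, NumIs.lkR] at hp
    push_cast at hp
    linarith only [hc1, hp]
  · simp only [ZE.x, ZE.y, ZE.s, ZE.r, ZE.h, E.val, NumIs.lkR] at hp
    push_cast at hp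
    linarith only [ua9, hp]
  · simp only [ZE.x, ZE.y, ZE.s, ZE.r, ZE.h, E.val, NumIs.lkR] at hp
    push_cast at hp
    linarith only [ua10, hp]

theorem e1_mD4X4pW {x y s r : ℝ} (ua1 : 6000 / 10000 ≤ x) (ua2 : x ≤ 6500 / 10000) (ua3 : -(273 / 10000) ≤ y) (ua4 : y ≤ 0 / 10000) (ua5 : 0 / 10000 ≤ s) (ua6 : s ≤ 2000 / 10000) (ua7 : 0 / 10000 ≤ r) (ua8 : r ≤ 1045 / 10000) (ua9 : 0 ≤ (y + 4 * (r * s))) (ua10 : -y ≤ 545 / 1000 * (65 / 100 - x)) :
    NumUs.uu (x + s) (y - 4 * (r * s)) + (NumUs.uu (x - s) (y + 4 * (r * s)) + Real.pi * (y + 4 * (r * s))) + (-NumUs.uu (x + 225 / 1000) (y + 9 / 10 * r) + -(NumUs.uu (x - 225 / 1000) (y - 9 / 10 * r) + Real.pi * (y - 9 / 10 * r))) < (958 / 10000 - 85 / 100 * r) ∨ NumUs.uu (x + s) (y - 4 * (r * s)) + (NumUs.uu (x - s) (y + 4 * (r * s)) + Real.pi * (y + 4 * (r * s))) + (-NumUs.uu (x + 225 / 1000) (y + 9 / 10 * r) + -(NumUs.uu (x - 225 / 1000) (y - 9 / 10 * r) + Real.pi * -(y - 9 / 10 * r))) <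 (958 / 10000 - 85 / 100 * r) := by
  have h : chkT [sub (sub (q 958 10000) (mul (q 85 100) ZE.r)) (add (add (E.uu (add ZE.x ZE.s) (sub ZE.y ZE.h)) (add (E.uu (sub ZE.x ZE.s) (add ZE.y ZE.h)) (mul pi (add ZE.y ZE.h)))) (add (neg (E.uu (add ZE.x (q 225 1000)) (add ZE.y (mul (q 9 10) ZE.r)))) (neg (add (E.uu (sub ZE.x (q 225 1000)) (sub ZE.y (mul (q 9 10) ZE.r))) (mul pi (sub ZE.y (mul (q 9 10) ZE.r))))))), sub (sub (q 958 10000) (mul (q 85 100) ZE.r)) (add (add (E.uu (add ZE.x ZE.s) (sub ZE.y ZE.h)) (add (E.uu (sub ZE.x ZE.s) (add ZE.y ZE.h)) (mul pi (add ZE.y ZE.h)))) (add (neg (E.uu (add ZE.x (q 225 1000)) (add ZE.y (mul (q 9 10) ZE.r)))) (neg (add (E.uu (sub ZE.x (q 225 1000)) (sub ZE.y (mul (q 9 10) ZE.r))) (mul pi (neg (sub ZE.y (mul (q 9 10) ZE.r)))))))), neg (add ZE.y ZE.h), sub (neg ZE.y) (mul (q 545 1000) (sub (q 65 100) ZE.x))] 60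
    2963769474299048698828759858
    [NumIs.V.of 10000 6000 6500, NumIs.V.of 10000 (-273) 0, NumIs.V.of 10000 0 2000, NumIs.V.of 10000 0 1045] = true := by
    decide +kernel
  obtain ⟨f, hf, hp⟩ := chkT4 h (by norm_num) (x := x) (y := y) (z := s) (w := r)
    (by norm_num; linarith only [ua1]) (by norm_num; linarith only [ua2]) (by norm_num; linarith only [ua1, ua10]) (by norm_num; linarith only [ua4]) (by norm_num; linarith only [ua5]) (by norm_num; linarith only [ua6]) (by norm_num; linarith only [ua7]) (by norm_num; linarith only [ua8])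
  by_contra hc
  push Not at hc
  obtain ⟨hc0, hc1⟩ := hc
  simp only [List.mem_cons, List.not_mem_nil, or_false] at hf
  rcases hf with rfl | rfl | rfl | rfl
  · simp only [ZE.x, ZE.y, ZE.s, ZE.r, ZE.h, E.val, NumIs.lkR] at hp
    push_cast at hp
    linarith only [hc0, hp]
  · simp only [ZE.x, ZE.y, ZE.s, ZE.r, ZE.h, E.val, NumIs.lkR] at hp
    push_cast at hp
    linarith only [hc1, hp]
  · simp only [ZE.x, ZE.y, ZE.s, ZE.r, ZE.h, E.val, NumIs.lkR] at hp
    push_cast at hp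
    linarith only [ua9, hp]
  · simp only [ZE.x, ZE.y, ZE.s, ZE.r, ZE.h, E.val, NumIs.lkR] at hp
    push_cast at hp
    linarith only [ua10, hp]

end ZD

end Pool.Agent.Work.MP_b30479_gtS.G2

end

section

/-!
# Part of `ZRe1B`
-/
set_option linter.unusedSimpArgs false
set_option linter.unusedVariables false

set_option deprecated.oldSectionVars true

namespace Pool.Agent.Work.MP_b30479_gtS.G2

open VOL NumUs

namespace ZD

open NumUs.E ZE

theorem e1_mD2X1C {x y s r : ℝ} (ua1 : 100 / 10000 ≤ x) (ua2 : x ≤ 1850 / 10000) (ua3 : -(1580 / 10000) ≤ y) (ua4 : y ≤ 10 / 10000) (ua5 : 500 / 10000 ≤ s) (ua6 : s ≤ 2000 / 10000) (ua7 : 0 / 10000 ≤ r) (ua8 : r ≤ 1045 / 10000) (ua9 : -(400 / 10000) ≤ x - s) (ua10 : x - s ≤ 0) (ua11 : -y ≤ 158 / 100 * x) :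
    NumUs.uu (x + s) (y - 4 * (r * s)) + (((400 / 10000) + (x - s)) * NumIs.lnA (400 / 10000) (y + 4 * (r * s)) - NumUs.uu (400 / 10000) (y + 4 * (r * s))) + (-NumUs.uu (x + 225 / 1000) (y + 9 / 10 * r) + -NumUs.uu (x + 775 / 1000) (y - 9 / 10 * r)) < (958 / 10000 - 85 / 100 * r) := by
  have h : chkT [sub (sub (q 958 10000) (mul (q 85 100) ZE.r)) (add (add (E.uu (add ZE.x ZE.s) (sub ZE.y ZE.h)) (sub (mul (add (q 400 10000) (sub ZE.x ZE.s)) (E.lnA (q 400 10000) (add ZE.y ZE.h))) (E.uu (q 400 10000) (add ZE.y ZE.h)))) (add (neg (E.uu (add ZE.x (q 225 1000)) (add ZE.y (mul (q 9 10) ZE.r)))) (neg (E.uu (add ZE.x (q 775 1000)) (sub ZE.y (mul (q 9 10) ZE.r)))))), sub (q (-400) 10000) (sub ZE.x ZE.s), sub ZE.x ZE.s, sub (neg ZE.y) (mul (q 158 100) ZE.x)] 60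
    865050909543329461599857069766684406733248006261561639245141882777319627420293922695199198982805698223004728580215252419971178867974230816052786527147589950687038718517735622267283384529268934675103393700205039712704058662981545615167776
    [NumIs.V.of 10000 100 1850, NumIs.V.of 10000 (-1580) 10, NumIs.V.of 10000 500 2000, NumIs.V.of 10000 0 1045] = true := by
    decide +kernel
  obtain ⟨f, hf, hp⟩ := chkT4 h (by norm_num) (x := x) (y := y) (z := s) (w := r)
    (by norm_num; linarith only [ua1]) (by norm_num; linarith only [ua2]) (by norm_num; linarith only [ua3]) (by norm_num; linarith only [ua4]) (by norm_num; linarith only [ua5]) (by norm_num; linarith only [ua6]) (by norm_num; linarith only [ua7]) (by norm_num; linarith only [ua8])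
  by_contra hc
  push Not at hc
  simp only [List.mem_cons, List.not_mem_nil, or_false] at hf
  rcases hf with rfl | rfl | rfl | rfl
  · simp only [ZE.x, ZE.y, ZE.s, ZE.r, ZE.h, E.val, NumIs.lkR] at hp
    push_cast at hp
    linarith only [hc, hp]
  · simp only [ZE.x, ZE.y, ZE.s, ZE.r, ZE.h, E.val, NumIs.lkR] at hp
    push_cast at hp
    linarith only [ua9, hp]
  · simp only [ZE.x, ZE.y, ZE.s, ZE.r, ZE.h, E.val, NumIs.lkR] at hp
    push_cast at hp
    linarith only [ua10, hp]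
  · simp only [ZE.x, ZE.y, ZE.s, ZE.r, ZE.h, E.val, NumIs.lkR] at hp
    push_cast at hp
    linarith only [ua11, hp]

theorem e1_mD2X2C {x y s r : ℝ} (ua1 : 1850 / 10000 ≤ x) (ua2 : x ≤ 2000 / 10000) (ua3 : -(1580 / 10000) ≤ y) (ua4 : y ≤ 10 / 10000) (ua5 : 1850 / 10000 ≤ s) (ua6 : s ≤ 2000 / 10000) (ua7 : 0 / 10000 ≤ r) (ua8 : r ≤ 1045 / 10000) (ua9 : -(400 / 10000) ≤ x - s) (ua10 : x - s ≤ 0) :
    NumUs.uu (x + s) (y - 4 * (r * s)) + (((400 / 10000) + (x - s)) * NumIs.lnA (400 / 10000) (y + 4 * (r * s)) - NumUs.uu (400 / 10000) (y + 4 * (r * s))) + (-NumUs.uu (x + 225 / 1000) (y + 9 / 10 * r) + ((25 / 1) * (225 / 1000 - x) * NumUs.uu (400 / 10000) (y - 9 / 10 * r) - Real.pi * (1 / 2) * (y - 9 / 10 * r) * (1 - (25 / 1) * (225 / 1000 - x)))) < (958 / 10000 - 85 / 100 * r) ∨ NumUs.uu (x + s) (y - 4 * (r * s)) + (((400 / 10000) + (x - s)) * NumIs.lnA (400 / 10000) (y + 4 * (r * s)) - NumUs.uu (400 / 10000) (y + 4 * (r * s))) + (-NumUs.uu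 (x + 225 / 1000) (y + 9 / 10 * r) + ((25 / 1) * (225 / 1000 - x) * NumUs.uu (400 / 10000) (y - 9 / 10 * r) - Real.pi * (1 / 2) * -(y - 9 / 10 * r) * (1 - (25 / 1) * (225 / 1000 - x)))) < (958 / 10000 - 85 / 100 * r) := by
  have h : chkT [sub (sub (q 958 10000) (mul (q 85 100) ZE.r)) (add (add (E.uu (add ZE.x ZE.s) (sub ZE.y ZE.h)) (sub (mul (add (q 400 10000) (sub ZE.x ZE.s)) (E.lnA (q 400 10000) (add ZE.y ZE.h))) (E.uu (q 400 10000) (add ZE.y ZE.h)))) (add (neg (E.uu (add ZE.x (q 225 1000)) (add ZE.y (mul (q 9 10) ZE.r)))) (sub (mul (mul (q 25 1) (sub (q 225 1000) ZE.x)) (E.uu (q 400 10000) (sub ZE.y (mul (q 9 10) ZE.r)))) (mul (mul (mul pi (q 1 2)) (sub ZE.y (mul (q 9 10) ZE.r))) (sub (q 1 1) (mul (q 25 1) (sub (q 225 1000) ZE.x))))))), sub (sub (q 958 10000) (mul (q 85 100) ZE.r)) (add (add (E.uu (add ZE.x ZE.s) (sub ZE.y ZE.h)) (sub (mul (add (q 400 10000) (sub ZE.x ZE.s)) (E.lnA (q 400 10000) (add ZE.y ZE.h))) (E.uu (q 400 10000)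 (add ZE.y ZE.h)))) (add (neg (E.uu (add ZE.x (q 225 1000)) (add ZE.y (mul (q 9 10) ZE.r)))) (sub (mul (mul (q 25 1) (sub (q 225 1000) ZE.x)) (E.uu (q 400 10000) (sub ZE.y (mul (q 9 10) ZE.r)))) (mul (mul (mul pi (q 1 2)) (neg (sub ZE.y (mul (q 9 10) ZE.r)))) (sub (q 1 1) (mul (q 25 1) (sub (q 225 1000) ZE.x))))))), sub (q (-400) 10000) (sub ZE.x ZE.s), sub ZE.x ZE.s] 60
    176510584707106836785
    [NumIs.V.of 10000 1850 2000, NumIs.V.of 10000 (-1580) 10, NumIs.V.of 10000 1850 2000, NumIs.V.of 10000 0 1045] = true := by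
    decide +kernel
  obtain ⟨f, hf, hp⟩ := chkT4 h (by norm_num) (x := x) (y := y) (z := s) (w := r)
    (by norm_num; linarith only [ua1]) (by norm_num; linarith only [ua2]) (by norm_num; linarith only [ua3]) (by norm_num; linarith only [ua4]) (by norm_num; linarith only [ua5]) (by norm_num; linarith only [ua6]) (by norm_num; linarith only [ua7]) (by norm_num; linarith only [ua8])
  by_contra hc
  push Not at hc
  obtain ⟨hc0, hc1⟩ := hc
  simp only [List.mem_cons, List.not_mem_nil, or_false] at hf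
  rcases hf with rfl | rfl | rfl | rfl
  · simp only [ZE.x, ZE.y, ZE.s, ZE.r, ZE.h, E.val, NumIs.lkR] at hp
    push_cast at hp
    linarith only [hc0, hp]
  · simp only [ZE.x, ZE.y, ZE.s, ZE.r, ZE.h, E.val, NumIs.lkR] at hp
    push_cast at hp
    linarith only [hc1, hp]
  · simp only [ZE.x, ZE.y, ZE.s, ZE.r, ZE.h, E.val, NumIs.lkR] at hp
    push_cast at hp
    linarith only [ua1, ua6, hp]
  · simp only [ZE.x, ZE.y, ZE.s, ZE.r, ZE.h, E.val, NumIs.lkR] at hp
    push_cast at hp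
    linarith only [ua10, hp]

theorem e1_mD3X1pC {x y s r : ℝ} (ua1 : 500 / 10000 ≤ x) (ua2 : x ≤ 1850 / 10000) (ua3 : -(1580 / 10000) ≤ y) (ua4 : y ≤ 10 / 10000) (ua5 : 500 / 10000 ≤ s) (ua6 : s ≤ 1850 / 10000) (ua7 : 0 / 10000 ≤ r) (ua8 : r ≤ 1045 / 10000) (ua9 : 0 ≤ x - s) (ua10 : x - s ≤ 400 / 10000) (ua11 : 0 ≤ (y + 4 * (r * s))) (ua12 : -y ≤ 158 / 100 * x) :
    NumUs.uu (x + s) (y - 4 * (r * s)) + (Real.pi * (1 / 2) * (y + 4 * (r * s)) * (1 + (25 / 1) * (x - s)) + (25 / 1) * (x - s) * NumUs.uu (400 / 10000) (y + 4 * (r * s))) + (-NumUs.uu (x + 225 / 1000) (y + 9 / 10 * r) + -NumUs.uu (x + 775 / 1000) (y - 9 / 10 * r)) < (958 / 10000 - 85 / 100 * r) := by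
  have h : chkT [sub (sub (q 958 10000) (mul (q 85 100) ZE.r)) (add (add (E.uu (add ZE.x ZE.s) (sub ZE.y ZE.h)) (add (mul (mul (mul pi (q 1 2)) (add ZE.y ZE.h)) (add (q 1 1) (mul (q 25 1) (sub ZE.x ZE.s)))) (mul (mul (q 25 1) (sub ZE.x ZE.s)) (E.uu (q 400 10000) (add ZE.y ZE.h))))) (add (neg (E.uu (add ZE.x (q 225 1000)) (add ZE.y (mul (q 9 10) ZE.r)))) (neg (E.uu (add ZE.x (q 775 1000)) (sub ZE.y (mul (q 9 10) ZE.r)))))), sub ZE.s ZE.x, sub (sub ZE.x ZE.s) (q 400 10000), neg (add ZE.y ZE.h), sub (neg ZE.y) (mul (q 158 100) ZE.x)] 60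
    6794528790219893177808740324136532257928360920363501538194288377603940846246150270354601876965724891666147786949644328253596078698746151632633929905
    [NumIs.V.of 10000 500 1850, NumIs.V.of 10000 (-1580) 10, NumIs.V.of 10000 500 1850, NumIs.V.of 10000 0 1045] = true := by
    decide +kernel
  obtain ⟨f, hf, hp⟩ := chkT4 h (by norm_num) (x := x) (y := y) (z := s) (w := r)
    (by norm_num; linarith only [ua1]) (by norm_num; linarith only [ua2]) (by norm_num; linarith only [ua3]) (by norm_num; linarith only [ua4]) (by norm_num; linarith only [ua5]) (by norm_num; linarith only [ua6]) (by norm_num; linarith only [ua7]) (by norm_num; linarith only [ua8])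
  by_contra hc
  push Not at hc
  simp only [List.mem_cons, List.not_mem_nil, or_false] at hf
  rcases hf with rfl | rfl | rfl | rfl | rfl
  · simp only [ZE.x, ZE.y, ZE.s, ZE.r, ZE.h, E.val, NumIs.lkR] at hp
    push_cast at hp
    linarith only [hc, hp]
  · simp only [ZE.x, ZE.y, ZE.s, ZE.r, ZE.h, E.val, NumIs.lkR] at hp
    push_cast at hp
    linarith only [ua9, hp]
  · simp only [ZE.x, ZE.y, ZE.s, ZE.r, ZE.h, E.val, NumIs.lkR] at hp
    push_cast at hp
    linarith only [ua10, hp]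
  · simp only [ZE.x, ZE.y, ZE.s, ZE.r, ZE.h, E.val, NumIs.lkR] at hp
    push_cast at hp
    linarith only [ua11, hp]
  · simp only [ZE.x, ZE.y, ZE.s, ZE.r, ZE.h, E.val, NumIs.lkR] at hp
    push_cast at hp
    linarith only [ua12, hp]

theorem e1_mD3X2pC {x y s r : ℝ} (ua1 : 1850 / 10000 ≤ x) (ua2 : x ≤ 2250 / 10000) (ua3 : -(1580 / 10000) ≤ y) (ua4 : y ≤ 10 / 10000) (ua5 : 1450 / 10000 ≤ s) (ua6 : s ≤ 2000 / 10000) (ua7 : 0 / 10000 ≤ r) (ua8 : r ≤ 1045 / 10000) (ua9 : 0 ≤ x - s) (ua10 : x - s ≤ 400 / 10000) (ua11 : 0 ≤ (y + 4 * (r * s))) :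
    NumUs.uu (x + s) (y - 4 * (r * s)) + (Real.pi * (1 / 2) * (y + 4 * (r * s)) * (1 + (25 / 1) * (x - s)) + (25 / 1) * (x - s) * NumUs.uu (400 / 10000) (y + 4 * (r * s))) + (-NumUs.uu (x + 225 / 1000) (y + 9 / 10 * r) + ((25 / 1) * (225 / 1000 - x) * NumUs.uu (400 / 10000) (y - 9 / 10 * r) - Real.pi * (1 / 2) * (y - 9 / 10 * r) * (1 - (25 / 1) * (225 / 1000 - x)))) < (958 / 10000 - 85 / 100 * r) ∨ NumUs.uu (x + s) (y - 4 * (r * s)) + (Real.pi * (1 / 2) * (y + 4 * (r * s)) * (1 + (25 / 1) * (x - s)) + (25 / 1) * (x - s) * NumUs.uu (400 / 10000) (y + 4 * (r * s))) + (-NumUs.uu (x + 225 / 1000) (y + 9 / 10 * r) + ((25 / 1) * (225 / 1000 - x) * NumUs.uu (400 / 10000) (y - 9 / 10 * r) - Real.pi * (1 / 2) * -(y - 9 / 10 * r) * (1 - (25 / 1) * (225 / 1000 - x)))) < (958 / 10000 - 85 / 100 * r) := by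
  have h : chkT [sub (sub (q 958 10000) (mul (q 85 100) ZE.r)) (add (add (E.uu (add ZE.x ZE.s) (sub ZE.y ZE.h)) (add (mul (mul (mul pi (q 1 2)) (add ZE.y ZE.h)) (add (q 1 1) (mul (q 25 1) (sub ZE.x ZE.s)))) (mul (mul (q 25 1) (sub ZE.x ZE.s)) (E.uu (q 400 10000) (add ZE.y ZE.h))))) (add (neg (E.uu (add ZE.x (q 225 1000)) (add ZE.y (mul (q 9 10) ZE.r)))) (sub (mul (mul (q 25 1) (sub (q 225 1000) ZE.x)) (E.uu (q 400 10000) (sub ZE.y (mul (q 9 10) ZE.r)))) (mul (mul (mul pi (q 1 2)) (sub ZE.y (mul (q 9 10) ZE.r))) (sub (q 1 1) (mul (q 25 1) (sub (q 225 1000) ZE.x))))))), sub (sub (q 958 10000) (mul (q 85 100) ZE.r)) (add (add (E.uu (add ZE.x ZE.s) (sub ZE.y ZE.h)) (add (mul (mul (mul pi (q 1 2)) (add ZE.y ZE.h)) (add (q 1 1) (mul (q 25 1) (sub ZE.x ZE.s)))) (mul (mul (q 25 1) (sub ZE.x ZE.s)) (E.uu (q 400 10000) (add ZE.y ZE.h))))) (add (neg (E.uu (add ZE.x (q 225 1000)) (add ZE.y (mul (q 9 10) ZE.r)))) (sub (mul (mul (q 25 1) (sub (q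 225 1000) ZE.x)) (E.uu (q 400 10000) (sub ZE.y (mul (q 9 10) ZE.r)))) (mul (mul (mul pi (q 1 2)) (neg (sub ZE.y (mul (q 9 10) ZE.r)))) (sub (q 1 1) (mul (q 25 1) (sub (q 225 1000) ZE.x))))))), sub ZE.s ZE.x, sub (sub ZE.x ZE.s) (q 400 10000), neg (add ZE.y ZE.h)] 60
    4329832816048000258851671637731939387979235356809805094383372319748208213009
    [NumIs.V.of 10000 1850 2250, NumIs.V.of 10000 (-1580) 10, NumIs.V.of 10000 1450 2000, NumIs.V.of 10000 0 1045] = true := by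
    decide +kernel
  obtain ⟨f, hf, hp⟩ := chkT4 h (by norm_num) (x := x) (y := y) (z := s) (w := r)
    (by norm_num; linarith only [ua1]) (by norm_num; linarith only [ua2]) (by norm_num; linarith only [ua3]) (by norm_num; linarith only [ua4]) (by norm_num; linarith only [ua5]) (by norm_num; linarith only [ua6]) (by norm_num; linarith only [ua7]) (by norm_num; linarith only [ua8])
  by_contra hc
  push Not at hc
  obtain ⟨hc0, hc1⟩ := hc
  simp only [List.mem_cons, List.not_mem_nil, or_false] at hf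
  rcases hf with rfl | rfl | rfl | rfl | rfl
  · simp only [ZE.x, ZE.y, ZE.s, ZE.r, ZE.h, E.val, NumIs.lkR] at hp
    push_cast at hp
    linarith only [hc0, hp]
  · simp only [ZE.x, ZE.y, ZE.s, ZE.r, ZE.h, E.val, NumIs.lkR] at hp
    push_cast at hp
    linarith only [hc1, hp]
  · simp only [ZE.x, ZE.y, ZE.s, ZE.r, ZE.h, E.val, NumIs.lkR] at hp
    push_cast at hp
    linarith only [ua9, hp]
  · simp only [ZE.x, ZE.y, ZE.s, ZE.r, ZE.h, E.val, NumIs.lkR] at hp
    push_cast at hp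
    linarith only [ua10, hp]
  · simp only [ZE.x, ZE.y, ZE.s, ZE.r, ZE.h, E.val, NumIs.lkR] at hp
    push_cast at hp
    linarith only [ua11, hp]

end ZD

end Pool.Agent.Work.MP_b30479_gtS.G2

end

section

/-!
# Part of `ZRe1B`
-/
set_option linter.unusedSimpArgs false
set_option linter.unusedVariables false

set_option deprecated.oldSectionVars true

namespace Pool.Agent.Work.MP_b30479_gtS.G2

open VOL NumUs

namespace ZD

open NumUs.E ZE

theorem e1_mD3X3pC {x y s r : ℝ} (ua1 : 2250 / 10000 ≤ x) (ua2 : x ≤ 2400 / 10000) (ua3 : -(1580 / 10000) ≤ y) (ua4 : y ≤ 10 / 10000) (ua5 : 1850 / 10000 ≤ s) (ua6 : s ≤ 2000 / 10000) (ua7 : 0 / 10000 ≤ r) (ua8 : r ≤ 1045 / 10000) (ua9 : 0 ≤ x - s) (ua10 : x - s ≤ 400 / 10000) (ua11 : 0 ≤ (y + 4 * (r * s))) :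
    NumUs.uu (x + s) (y - 4 * (r * s)) + (Real.pi * (1 / 2) * (y + 4 * (r * s)) * (1 + (25 / 1) * (x - s)) + (25 / 1) * (x - s) * NumUs.uu (400 / 10000) (y + 4 * (r * s))) + (-NumUs.uu (x + 225 / 1000) (y + 9 / 10 * r) + (((400 / 10000) - (x - 225 / 1000)) * NumIs.lnA (400 / 10000) (y - 9 / 10 * r) - NumUs.uu (400 / 10000) (y - 9 / 10 * r) - Real.pi * (y - 9 / 10 * r))) < (958 / 10000 - 85 / 100 * r) ∨ NumUs.uu (x + s) (y - 4 * (r * s)) + (Real.pi * (1 / 2) * (y + 4 * (r * s)) * (1 + (25 / 1) * (x - s)) + (25 / 1) * (x - s) * NumUs.uu (400 / 10000) (y + 4 * (r * s))) + (-NumUs.uu (x + 225 / 1000) (y + 9 / 10 * r) + (((400 / 10000) - (x - 225 / 1000)) * NumIs.lnA (400 / 10000) (y - 9 / 10 * r) - NumUs.uu (400 / 10000) (y - 9 / 10 * r) - Real.pi * -(y - 9 / 10 * r))) < (958 / 10000 - 85 / 100 * r) := by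
  have h : chkT [sub (sub (q 958 10000) (mul (q 85 100) ZE.r)) (add (add (E.uu (add ZE.x ZE.s) (sub ZE.y ZE.h)) (add (mul (mul (mul pi (q 1 2)) (add ZE.y ZE.h)) (add (q 1 1) (mul (q 25 1) (sub ZE.x ZE.s)))) (mul (mul (q 25 1) (sub ZE.x ZE.s)) (E.uu (q 400 10000) (add ZE.y ZE.h))))) (add (neg (E.uu (add ZE.x (q 225 1000)) (add ZE.y (mul (q 9 10) ZE.r)))) (sub (sub (mul (sub (q 400 10000) (sub ZE.x (q 225 1000))) (E.lnA (q 400 10000) (sub ZE.y (mul (q 9 10) ZE.r)))) (E.uu (q 400 10000) (sub ZE.y (mul (q 9 10) ZE.r)))) (mul pi (sub ZE.y (mul (q 9 10) ZE.r)))))), sub (sub (q 958 10000) (mul (q 85 100) ZE.r)) (add (add (E.uu (add ZE.x ZE.s) (sub ZE.y ZE.h)) (add (mul (mul (mul pi (q 1 2)) (add ZE.y ZE.h)) (add (q 1 1) (mul (q 25 1) (sub ZE.x ZE.s)))) (mul (mul (q 25 1) (sub ZE.x ZE.s)) (E.uu (q 400 10000) (add ZE.y ZE.h))))) (add (neg (E.uu (add ZE.x (q 225 1000)) (add ZE.y (mul (q 9 10) ZE.r)))) (sub (sub (mul (sub (q 400 10000) (sub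 ZE.x (q 225 1000))) (E.lnA (q 400 10000) (sub ZE.y (mul (q 9 10) ZE.r)))) (E.uu (q 400 10000) (sub ZE.y (mul (q 9 10) ZE.r)))) (mul pi (neg (sub ZE.y (mul (q 9 10) ZE.r))))))), sub ZE.s ZE.x, sub (sub ZE.x ZE.s) (q 400 10000), neg (add ZE.y ZE.h)] 60
    45187106564873944930609
    [NumIs.V.of 10000 2250 2400, NumIs.V.of 10000 (-1580) 10, NumIs.V.of 10000 1850 2000, NumIs.V.of 10000 0 1045] = true := by
    decide +kernel
  obtain ⟨f, hf, hp⟩ := chkT4 h (by norm_num) (x := x) (y := y) (z := s) (w := r)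
    (by norm_num; linarith only [ua1]) (by norm_num; linarith only [ua2]) (by norm_num; linarith only [ua3]) (by norm_num; linarith only [ua4]) (by norm_num; linarith only [ua5]) (by norm_num; linarith only [ua6]) (by norm_num; linarith only [ua7]) (by norm_num; linarith only [ua8])
  by_contra hc
  push Not at hc
  obtain ⟨hc0, hc1⟩ := hc
  simp only [List.mem_cons, List.not_mem_nil, or_false] at hf
  rcases hf with rfl | rfl | rfl | rfl | rfl
  · simp only [ZE.x, ZE.y, ZE.s, ZE.r, ZE.h, E.val, NumIs.lkR] at hp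
    push_cast at hp
    linarith only [hc0, hp]
  · simp only [ZE.x, ZE.y, ZE.s, ZE.r, ZE.h, E.val, NumIs.lkR] at hp
    push_cast at hp
    linarith only [hc1, hp]
  · simp only [ZE.x, ZE.y, ZE.s, ZE.r, ZE.h, E.val, NumIs.lkR] at hp
    push_cast at hp
    linarith only [ua1, ua6, hp]
  · simp only [ZE.x, ZE.y, ZE.s, ZE.r, ZE.h, E.val, NumIs.lkR] at hp
    push_cast at hp
    linarith only [ua10, hp]
  · simp only [ZE.x, ZE.y, ZE.s, ZE.r, ZE.h, E.val, NumIs.lkR] at hp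
    push_cast at hp
    linarith only [ua11, hp]

theorem e1_mD4X1pC {x y s r : ℝ} (ua1 : 900 / 10000 ≤ x) (ua2 : x ≤ 1850 / 10000) (ua3 : -(1580 / 10000) ≤ y) (ua4 : y ≤ 10 / 10000) (ua5 : 500 / 10000 ≤ s) (ua6 : s ≤ 1450 / 10000) (ua7 : 0 / 10000 ≤ r) (ua8 : r ≤ 1045 / 10000) (ua9 : 400 / 10000 ≤ x - s) (ua10 : 0 ≤ (y + 4 * (r * s))) (ua11 : -y ≤ 158 / 100 * x) :
    NumUs.uu (x + s) (y - 4 * (r * s)) + (NumUs.uu (x - s) (y + 4 * (r * s)) + Real.pi * (y + 4 * (r * s))) + (-NumUs.uu (x + 225 / 1000) (y + 9 / 10 * r) + -NumUs.uu (x + 775 / 1000) (y - 9 / 10 * r)) < (958 / 10000 - 85 / 100 * r) := by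
  have h : chkT [sub (sub (q 958 10000) (mul (q 85 100) ZE.r)) (add (add (E.uu (add ZE.x ZE.s) (sub ZE.y ZE.h)) (add (E.uu (sub ZE.x ZE.s) (add ZE.y ZE.h)) (mul pi (add ZE.y ZE.h)))) (add (neg (E.uu (add ZE.x (q 225 1000)) (add ZE.y (mul (q 9 10) ZE.r)))) (neg (E.uu (add ZE.x (q 775 1000)) (sub ZE.y (mul (q 9 10) ZE.r)))))), sub (q 400 10000) (sub ZE.x ZE.s), neg (add ZE.y ZE.h), sub (neg ZE.y) (mul (q 158 100) ZE.x)] 60
    5628029062510326333446512725619165350464806531812900923796989923094290659515912421664136638330616663064756569805552028881825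
    [NumIs.V.of 10000 900 1850, NumIs.V.of 10000 (-1580) 10, NumIs.V.of 10000 500 1450, NumIs.V.of 10000 0 1045] = true := by
    decide +kernel
  obtain ⟨f, hf, hp⟩ := chkT4 h (by norm_num) (x := x) (y := y) (z := s) (w := r)
    (by norm_num; linarith only [ua1]) (by norm_num; linarith only [ua2]) (by norm_num; linarith only [ua3]) (by norm_num; linarith only [ua4]) (by norm_num; linarith only [ua5]) (by norm_num; linarith only [ua6]) (by norm_num; linarith only [ua7]) (by norm_num; linarith only [ua8])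
  by_contra hc
  push Not at hc
  simp only [List.mem_cons, List.not_mem_nil, or_false] at hf
  rcases hf with rfl | rfl | rfl | rfl
  · simp only [ZE.x, ZE.y, ZE.s, ZE.r, ZE.h, E.val, NumIs.lkR] at hp
    push_cast at hp
    linarith only [hc, hp]
  · simp only [ZE.x, ZE.y, ZE.s, ZE.r, ZE.h, E.val, NumIs.lkR] at hp
    push_cast at hp
    linarith only [ua9, hp]
  · simp only [ZE.x, ZE.y, ZE.s, ZE.r, ZE.h, E.val, NumIs.lkR] at hp
    push_cast at hp
    linarith only [ua10, hp]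
  · simp only [ZE.x, ZE.y, ZE.s, ZE.r, ZE.h, E.val, NumIs.lkR] at hp
    push_cast at hp
    linarith only [ua11, hp]

theorem e1_mD4X2pC {x y s r : ℝ} (ua1 : 1850 / 10000 ≤ x) (ua2 : x ≤ 2250 / 10000) (ua3 : -(1580 / 10000) ≤ y) (ua4 : y ≤ 10 / 10000) (ua5 : 500 / 10000 ≤ s) (ua6 : s ≤ 1850 / 10000) (ua7 : 0 / 10000 ≤ r) (ua8 : r ≤ 1045 / 10000) (ua9 : 400 / 10000 ≤ x - s) (ua10 : 0 ≤ (y + 4 * (r * s))) :
    NumUs.uu (x + s) (y - 4 * (r * s)) + (NumUs.uu (x - s) (y + 4 * (r * s)) + Real.pi * (y + 4 * (r * s))) + (-NumUs.uu (x + 225 / 1000) (y + 9 / 10 * r) + ((25 / 1) * (225 / 1000 - x) * NumUs.uu (400 / 10000) (y - 9 / 10 * r) - Real.pi * (1 / 2) * (y - 9 / 10 * r) * (1 - (25 / 1) * (225 / 1000 - x)))) < (958 / 10000 - 85 / 100 * r) ∨ NumUs.uu (x + s) (y - 4 * (r * s)) + (NumUs.uu (x - s) (y + 4 * (r * s)) + Real.pi * (y + 4 * (r * s))) + (-NumUs.uu (x + 225 / 1000) (y + 9 / 10 * r) + ((25 / 1) * (225 / 1000 - x) * NumUs.uu (400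 / 10000) (y - 9 / 10 * r) - Real.pi * (1 / 2) * -(y - 9 / 10 * r) * (1 - (25 / 1) * (225 / 1000 - x)))) < (958 / 10000 - 85 / 100 * r) := by
  have h : chkT [sub (sub (q 958 10000) (mul (q 85 100) ZE.r)) (add (add (E.uu (add ZE.x ZE.s) (sub ZE.y ZE.h)) (add (E.uu (sub ZE.x ZE.s) (add ZE.y ZE.h)) (mul pi (add ZE.y ZE.h)))) (add (neg (E.uu (add ZE.x (q 225 1000)) (add ZE.y (mul (q 9 10) ZE.r)))) (sub (mul (mul (q 25 1) (sub (q 225 1000) ZE.x)) (E.uu (q 400 10000) (sub ZE.y (mul (q 9 10) ZE.r)))) (mul (mul (mul pi (q 1 2)) (sub ZE.y (mul (q 9 10) ZE.r))) (sub (q 1 1) (mul (q 25 1) (sub (q 225 1000) ZE.x))))))), sub (sub (q 958 10000) (mul (q 85 100) ZE.r)) (add (add (E.uu (add ZE.x ZE.s) (sub ZE.y ZE.h)) (add (E.uu (sub ZE.x ZE.s) (add ZE.y ZE.h)) (mul pi (add ZE.y ZE.h)))) (add (neg (E.uu (add ZE.x (q 225 1000)) (add ZE.y (mul (q 9 10) ZE.r)))) (sub (mul (mul (q 25 1) (sub (q 225 1000) ZE.x)) (E.uu (q 400 10000) (sub ZE.y (mul (q 9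 10) ZE.r)))) (mul (mul (mul pi (q 1 2)) (neg (sub ZE.y (mul (q 9 10) ZE.r)))) (sub (q 1 1) (mul (q 25 1) (sub (q 225 1000) ZE.x))))))), sub (q 400 10000) (sub ZE.x ZE.s), neg (add ZE.y ZE.h)] 60
    15388745784062743008517660148758691120488908979924627669725873
    [NumIs.V.of 10000 1850 2250, NumIs.V.of 10000 (-1580) 10, NumIs.V.of 10000 500 1850, NumIs.V.of 10000 0 1045] = true := by
    decide +kernel
  obtain ⟨f, hf, hp⟩ := chkT4 h (by norm_num) (x := x) (y := y) (z := s) (w := r)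
    (by norm_num; linarith only [ua1]) (by norm_num; linarith only [ua2]) (by norm_num; linarith only [ua3]) (by norm_num; linarith only [ua4]) (by norm_num; linarith only [ua5]) (by norm_num; linarith only [ua6]) (by norm_num; linarith only [ua7]) (by norm_num; linarith only [ua8])
  by_contra hc
  push Not at hc
  obtain ⟨hc0, hc1⟩ := hc
  simp only [List.mem_cons, List.not_mem_nil, or_false] at hf
  rcases hf with rfl | rfl | rfl | rfl
  · simp only [ZE.x, ZE.y, ZE.s, ZE.r, ZE.h, E.val, NumIs.lkR] at hp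
    push_cast at hp
    linarith only [hc0, hp]
  · simp only [ZE.x, ZE.y, ZE.s, ZE.r, ZE.h, E.val, NumIs.lkR] at hp
    push_cast at hp
    linarith only [hc1, hp]
  · simp only [ZE.x, ZE.y, ZE.s, ZE.r, ZE.h, E.val, NumIs.lkR] at hp
    push_cast at hp
    linarith only [ua9, hp]
  · simp only [ZE.x, ZE.y, ZE.s, ZE.r, ZE.h, E.val, NumIs.lkR] at hp
    push_cast at hp
    linarith only [ua10, hp]

theorem e1_mD4X3pC {x y s r : ℝ} (ua1 : 2250 / 10000 ≤ x) (ua2 : x ≤ 2650 / 10000) (ua3 : -(1580 / 10000) ≤ y) (ua4 : y ≤ 10 / 10000) (ua5 : 500 / 10000 ≤ s) (ua6 : s ≤ 2000 / 10000) (ua7 : 0 / 10000 ≤ r) (ua8 : r ≤ 1045 / 10000) (ua9 : 400 / 10000 ≤ x - s) (ua10 : 0 ≤ (y + 4 * (r * s))) :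
    NumUs.uu (x + s) (y - 4 * (r * s)) + (NumUs.uu (x - s) (y + 4 * (r * s)) + Real.pi * (y + 4 * (r * s))) + (-NumUs.uu (x + 225 / 1000) (y + 9 / 10 * r) + (((400 / 10000) - (x - 225 / 1000)) * NumIs.lnA (400 / 10000) (y - 9 / 10 * r) - NumUs.uu (400 / 10000) (y - 9 / 10 * r) - Real.pi * (y - 9 / 10 * r))) < (958 / 10000 - 85 / 100 * r) ∨ NumUs.uu (x + s) (y - 4 * (r * s)) + (NumUs.uu (x - s) (y + 4 * (r * s)) + Real.pi * (y + 4 * (r * s))) + (-NumUs.uu (x + 225 / 1000) (y + 9 / 10 * r) + (((400 / 10000) - (x - 225 / 1000)) * NumIs.lnA (400 / 10000) (y - 9 / 10 * r) - NumUs.uu (400 / 10000) (y - 9 / 10 * r) - Real.pi * -(y - 9 / 10 * r))) < (958 / 10000 - 85 / 100 * r) := by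
  have h : chkT [sub (sub (q 958 10000) (mul (q 85 100) ZE.r)) (add (add (E.uu (add ZE.x ZE.s) (sub ZE.y ZE.h)) (add (E.uu (sub ZE.x ZE.s) (add ZE.y ZE.h)) (mul pi (add ZE.y ZE.h)))) (add (neg (E.uu (add ZE.x (q 225 1000)) (add ZE.y (mul (q 9 10) ZE.r)))) (sub (sub (mul (sub (q 400 10000) (sub ZE.x (q 225 1000))) (E.lnA (q 400 10000) (sub ZE.y (mul (q 9 10) ZE.r)))) (E.uu (q 400 10000) (sub ZE.y (mul (q 9 10) ZE.r)))) (mul pi (sub ZE.y (mul (q 9 10) ZE.r)))))), sub (sub (q 958 10000) (mul (q 85 100) ZE.r)) (add (add (E.uu (add ZE.x ZE.s) (sub ZE.y ZE.h)) (add (E.uu (sub ZE.x ZE.s) (add ZE.y ZE.h)) (mul pi (add ZE.y ZE.h)))) (add (neg (E.uu (add ZE.x (q 225 1000)) (add ZE.y (mul (q 9 10) ZE.r)))) (sub (sub (mul (sub (q 400 10000) (sub ZE.x (q 225 1000))) (E.lnA (q 400 10000) (sub ZE.y (mul (q 9 10) ZE.r)))) (E.uu (q 400 10000) (sub ZE.y (mul (q 9 10) ZE.r)))) (mul pi (neg (sub ZE.y (mul (q 9 10) ZE.r))))))), sub (q 400 10000) (sub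 ZE.x ZE.s), neg (add ZE.y ZE.h)] 60
    3582971729575396487946027658193486728068981832890642
    [NumIs.V.of 10000 2250 2650, NumIs.V.of 10000 (-1580) 10, NumIs.V.of 10000 500 2000, NumIs.V.of 10000 0 1045] = true := by
    decide +kernel
  obtain ⟨f, hf, hp⟩ := chkT4 h (by norm_num) (x := x) (y := y) (z := s) (w := r)
    (by norm_num; linarith only [ua1]) (by norm_num; linarith only [ua2]) (by norm_num; linarith only [ua3]) (by norm_num; linarith only [ua4]) (by norm_num; linarith only [ua5]) (by norm_num; linarith only [ua6]) (by norm_num; linarith only [ua7]) (by norm_num; linarith only [ua8])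
  by_contra hc
  push Not at hc
  obtain ⟨hc0, hc1⟩ := hc
  simp only [List.mem_cons, List.not_mem_nil, or_false] at hf
  rcases hf with rfl | rfl | rfl | rfl
  · simp only [ZE.x, ZE.y, ZE.s, ZE.r, ZE.h, E.val, NumIs.lkR] at hp
    push_cast at hp
    linarith only [hc0, hp]
  · simp only [ZE.x, ZE.y, ZE.s, ZE.r, ZE.h, E.val, NumIs.lkR] at hp
    push_cast at hp
    linarith only [hc1, hp]
  · simp only [ZE.x, ZE.y, ZE.s, ZE.r, ZE.h, E.val, NumIs.lkR] at hp
    push_cast at hp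
    linarith only [ua9, hp]
  · simp only [ZE.x, ZE.y, ZE.s, ZE.r, ZE.h, E.val, NumIs.lkR] at hp
    push_cast at hp
    linarith only [ua10, hp]

theorem e1_mD4X4pC {x y s r : ℝ} (ua1 : 2650 / 10000 ≤ x) (ua2 : x ≤ 6000 / 10000) (ua3 : -(1580 / 10000) ≤ y) (ua4 : y ≤ 10 / 10000) (ua5 : 500 / 10000 ≤ s) (ua6 : s ≤ 2000 / 10000) (ua7 : 0 / 10000 ≤ r) (ua8 : r ≤ 1045 / 10000) (ua9 : 0 ≤ (y + 4 * (r * s))) (ua10 : -y ≤ 545 / 1000 * (65 / 100 - x)) :
    NumUs.uu (x + s) (y - 4 * (r * s)) + (NumUs.uu (x - s) (y + 4 * (r * s)) + Real.pi * (y + 4 * (r * s))) + (-NumUs.uu (x + 225 / 1000) (y + 9 / 10 * r) + -(NumUs.uu (x - 225 / 1000) (y - 9 / 10 * r) + Real.pi * (y - 9 / 10 * r))) < (958 / 10000 - 85 / 100 * r) ∨ NumUs.uu (x + s) (y - 4 * (r * s)) + (NumUs.uu (x - s) (y + 4 * (r * s)) + Real.pi * (y + 4 * (r * s))) + (-NumUs.uu (x + 225 / 1000) (y + 9 / 10 * r) + -(NumUs.uu (x - 225 / 1000) (y - 9 / 10 * r) + Real.pi * -(y - 9 / 10 * r)))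 < (958 / 10000 - 85 / 100 * r) := by
  have h : chkT [sub (sub (q 958 10000) (mul (q 85 100) ZE.r)) (add (add (E.uu (add ZE.x ZE.s) (sub ZE.y ZE.h)) (add (E.uu (sub ZE.x ZE.s) (add ZE.y ZE.h)) (mul pi (add ZE.y ZE.h)))) (add (neg (E.uu (add ZE.x (q 225 1000)) (add ZE.y (mul (q 9 10) ZE.r)))) (neg (add (E.uu (sub ZE.x (q 225 1000)) (sub ZE.y (mul (q 9 10) ZE.r))) (mul pi (sub ZE.y (mul (q 9 10) ZE.r))))))), sub (sub (q 958 10000) (mul (q 85 100) ZE.r)) (add (add (E.uu (add ZE.x ZE.s) (sub ZE.y ZE.h)) (add (E.uu (sub ZE.x ZE.s) (add ZE.y ZE.h)) (mul pi (add ZE.y ZE.h)))) (add (neg (E.uu (add ZE.x (q 225 1000)) (add ZE.y (mul (q 9 10) ZE.r)))) (neg (add (E.uu (sub ZE.x (q 225 1000)) (sub ZE.y (mul (q 9 10) ZE.r))) (mul pi (neg (sub ZE.y (mul (q 9 10) ZE.r)))))))), neg (add ZE.y ZE.h), sub (neg ZE.y) (mul (q 545 1000) (sub (q 65 100) ZE.x))] 60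
    20455185140469162670296859018293613281866335927689438750281719606528309083485223777965389376524288
    [NumIs.V.of 10000 2650 6000, NumIs.V.of 10000 (-1580) 10, NumIs.V.of 10000 500 2000, NumIs.V.of 10000 0 1045] = true := by
    decide +kernel
  obtain ⟨f, hf, hp⟩ := chkT4 h (by norm_num) (x := x) (y := y) (z := s) (w := r)
    (by norm_num; linarith only [ua1]) (by norm_num; linarith only [ua2]) (by norm_num; linarith only [ua3]) (by norm_num; linarith only [ua4]) (by norm_num; linarith only [ua5]) (by norm_num; linarith only [ua6]) (by norm_num; linarith only [ua7]) (by norm_num; linarith only [ua8])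
  by_contra hc
  push Not at hc
  obtain ⟨hc0, hc1⟩ := hc
  simp only [List.mem_cons, List.not_mem_nil, or_false] at hf
  rcases hf with rfl | rfl | rfl | rfl
  · simp only [ZE.x, ZE.y, ZE.s, ZE.r, ZE.h, E.val, NumIs.lkR] at hp
    push_cast at hp
    linarith only [hc0, hp]
  · simp only [ZE.x, ZE.y, ZE.s, ZE.r, ZE.h, E.val, NumIs.lkR] at hp
    push_cast at hp
    linarith only [hc1, hp]
  · simp only [ZE.x, ZE.y, ZE.s, ZE.r, ZE.h, E.val, NumIs.lkR] at hp
    push_cast at hp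
    linarith only [ua9, hp]
  · simp only [ZE.x, ZE.y, ZE.s, ZE.r, ZE.h, E.val, NumIs.lkR] at hp
    push_cast at hp
    linarith only [ua10, hp]

end ZD

end Pool.Agent.Work.MP_b30479_gtS.G2

end

section

/-!
# Part of `ZRe1B`
-/
set_option linter.unusedSimpArgs false
set_option linter.unusedVariables false

set_option deprecated.oldSectionVars true

namespace Pool.Agent.Work.MP_b30479_gtS.G2

open VOL NumUs

namespace ZD

open NumUs.E ZE

theorem e1_mD3X1nC {x y s r : ℝ} (ua1 : 500 / 10000 ≤ x) (ua2 : x ≤ 1850 / 10000) (ua3 : -(1580 / 10000) ≤ y) (ua4 : y ≤ 0 / 10000) (ua5 : 500 / 10000 ≤ s) (ua6 : s ≤ 1850 / 10000) (ua7 : 0 / 10000 ≤ r) (ua8 : r ≤ 1045 / 10000) (ua9 : 0 ≤ x - s) (ua10 : x - s ≤ 400 / 10000) (ua11 : (y + 4 * (r * s)) ≤ 0) (ua12 : -y ≤ 158 / 100 * x) :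
    NumUs.uu (x + s) (y - 4 * (r * s)) + (Real.pi * (1 / 2) * -(y + 4 * (r * s)) * (1 + (25 / 1) * (x - s)) + (25 / 1) * (x - s) * NumUs.uu (400 / 10000) (y + 4 * (r * s))) + (-NumUs.uu (x + 225 / 1000) (y + 9 / 10 * r) + -NumUs.uu (x + 775 / 1000) (y - 9 / 10 * r)) < (958 / 10000 - 85 / 100 * r) := by
  have h : chkT [sub (sub (q 958 10000) (mul (q 85 100) ZE.r)) (add (add (E.uu (add ZE.x ZE.s) (sub ZE.y ZE.h)) (add (mul (mul (mul pi (q 1 2)) (neg (add ZE.y ZE.h))) (add (q 1 1) (mul (q 25 1) (sub ZE.x ZE.s)))) (mul (mul (q 25 1) (sub ZE.x ZE.s)) (E.uu (q 400 10000) (add ZE.y ZE.h))))) (add (neg (E.uu (add ZE.x (q 225 1000)) (add ZE.y (mul (q 9 10) ZE.r)))) (neg (E.uu (add ZE.x (q 775 1000)) (sub ZE.y (mul (q 9 10) ZE.r)))))), sub ZE.s ZE.x, sub (sub ZE.x ZE.s) (q 400 10000), add (q 0 1) (add ZE.y ZE.h), sub (neg ZE.y) (mul (q 158 100) ZE.x)] 60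
    1085688203601800512356264565152847564905506079077172619992859593618627869040328425487402249312415736261741939321538988352818496106953454296954663008473544420221230019047796333269249530722348840595909496389366726585688099328033
    [NumIs.V.of 10000 500 1850, NumIs.V.of 10000 (-1580) 0, NumIs.V.of 10000 500 1850, NumIs.V.of 10000 0 1045] = true := by
    decide +kernel
  obtain ⟨f, hf, hp⟩ := chkT4 h (by norm_num) (x := x) (y := y) (z := s) (w := r)
    (by norm_num; linarith only [ua1]) (by norm_num; linarith only [ua2]) (by norm_num; linarith only [ua3]) (by norm_num; linarith only [ua4]) (by norm_num; linarith only [ua5]) (by norm_num; linarith only [ua6]) (by norm_num; linarith only [ua7]) (by norm_num; linarith only [ua8])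
  by_contra hc
  push Not at hc
  simp only [List.mem_cons, List.not_mem_nil, or_false] at hf
  rcases hf with rfl | rfl | rfl | rfl | rfl
  · simp only [ZE.x, ZE.y, ZE.s, ZE.r, ZE.h, E.val, NumIs.lkR] at hp
    push_cast at hp
    linarith only [hc, hp]
  · simp only [ZE.x, ZE.y, ZE.s, ZE.r, ZE.h, E.val, NumIs.lkR] at hp
    push_cast at hp
    linarith only [ua9, hp]
  · simp only [ZE.x, ZE.y, ZE.s, ZE.r, ZE.h, E.val, NumIs.lkR] at hp
    push_cast at hp
    linarith only [ua10, hp]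
  · simp only [ZE.x, ZE.y, ZE.s, ZE.r, ZE.h, E.val, NumIs.lkR] at hp
    push_cast at hp
    linarith only [ua11, hp]
  · simp only [ZE.x, ZE.y, ZE.s, ZE.r, ZE.h, E.val, NumIs.lkR] at hp
    push_cast at hp
    linarith only [ua12, hp]

theorem e1_mD3X2nC {x y s r : ℝ} (ua1 : 1850 / 10000 ≤ x) (ua2 : x ≤ 2250 / 10000) (ua3 : -(1580 / 10000) ≤ y) (ua4 : y ≤ 0 / 10000) (ua5 : 1450 / 10000 ≤ s) (ua6 : s ≤ 2000 / 10000) (ua7 : 0 / 10000 ≤ r) (ua8 : r ≤ 1045 / 10000) (ua9 : 0 ≤ x - s) (ua10 : x - s ≤ 400 / 10000) (ua11 : (y + 4 * (r * s)) ≤ 0) :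
    NumUs.uu (x + s) (y - 4 * (r * s)) + (Real.pi * (1 / 2) * -(y + 4 * (r * s)) * (1 + (25 / 1) * (x - s)) + (25 / 1) * (x - s) * NumUs.uu (400 / 10000) (y + 4 * (r * s))) + (-NumUs.uu (x + 225 / 1000) (y + 9 / 10 * r) + ((25 / 1) * (225 / 1000 - x) * NumUs.uu (400 / 10000) (y - 9 / 10 * r) - Real.pi * (1 / 2) * (y - 9 / 10 * r) * (1 - (25 / 1) * (225 / 1000 - x)))) < (958 / 10000 - 85 / 100 * r) ∨ NumUs.uu (x + s) (y - 4 * (r * s)) + (Real.pi * (1 / 2) * -(y + 4 * (r * s)) * (1 + (25 / 1) * (x - s)) + (25 / 1) * (x - s) * NumUs.uu (400 / 10000) (y + 4 * (r * s))) + (-NumUs.uu (x + 225 / 1000) (y + 9 / 10 * r) + ((25 / 1) * (225 / 1000 - x) * NumUs.uu (400 / 10000) (y - 9 / 10 * r) - Real.pi * (1 / 2) * -(y - 9 / 10 * r) * (1 - (25 / 1) * (225 / 1000 - x)))) < (958 / 10000 - 85 / 100 * r) := by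
  have h : chkT [sub (sub (q 958 10000) (mul (q 85 100) ZE.r)) (add (add (E.uu (add ZE.x ZE.s) (sub ZE.y ZE.h)) (add (mul (mul (mul pi (q 1 2)) (neg (add ZE.y ZE.h))) (add (q 1 1) (mul (q 25 1) (sub ZE.x ZE.s)))) (mul (mul (q 25 1) (sub ZE.x ZE.s)) (E.uu (q 400 10000) (add ZE.y ZE.h))))) (add (neg (E.uu (add ZE.x (q 225 1000)) (add ZE.y (mul (q 9 10) ZE.r)))) (sub (mul (mul (q 25 1) (sub (q 225 1000) ZE.x)) (E.uu (q 400 10000) (sub ZE.y (mul (q 9 10) ZE.r)))) (mul (mul (mul pi (q 1 2)) (sub ZE.y (mul (q 9 10) ZE.r))) (sub (q 1 1) (mul (q 25 1) (sub (q 225 1000) ZE.x))))))), sub (sub (q 958 10000) (mul (q 85 100) ZE.r)) (add (add (E.uu (add ZE.x ZE.s) (sub ZE.y ZE.h)) (add (mul (mul (mul pi (q 1 2)) (neg (add ZE.y ZE.h))) (add (q 1 1) (mul (q 25 1) (sub ZE.x ZE.s)))) (mul (mul (q 25 1) (sub ZE.x ZE.s)) (E.uu (q 400 10000) (add ZE.y ZE.h))))) (add (neg (E.uu (add ZE.x (q 225 1000)) (add ZE.y (mul (q 9 10) ZE.r)))) (sub (mul (mul (q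 25 1) (sub (q 225 1000) ZE.x)) (E.uu (q 400 10000) (sub ZE.y (mul (q 9 10) ZE.r)))) (mul (mul (mul pi (q 1 2)) (neg (sub ZE.y (mul (q 9 10) ZE.r)))) (sub (q 1 1) (mul (q 25 1) (sub (q 225 1000) ZE.x))))))), sub ZE.s ZE.x, sub (sub ZE.x ZE.s) (q 400 10000), add (q 0 1) (add ZE.y ZE.h)] 60
    1326745256152997106218357569611120562865574551264486070109314560305
    [NumIs.V.of 10000 1850 2250, NumIs.V.of 10000 (-1580) 0, NumIs.V.of 10000 1450 2000, NumIs.V.of 10000 0 1045] = true := by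
    decide +kernel
  obtain ⟨f, hf, hp⟩ := chkT4 h (by norm_num) (x := x) (y := y) (z := s) (w := r)
    (by norm_num; linarith only [ua1]) (by norm_num; linarith only [ua2]) (by norm_num; linarith only [ua3]) (by norm_num; linarith only [ua4]) (by norm_num; linarith only [ua5]) (by norm_num; linarith only [ua6]) (by norm_num; linarith only [ua7]) (by norm_num; linarith only [ua8])
  by_contra hc
  push Not at hc
  obtain ⟨hc0, hc1⟩ := hc
  simp only [List.mem_cons, List.not_mem_nil, or_false] at hf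
  rcases hf with rfl | rfl | rfl | rfl | rfl
  · simp only [ZE.x, ZE.y, ZE.s, ZE.r, ZE.h, E.val, NumIs.lkR] at hp
    push_cast at hp
    linarith only [hc0, hp]
  · simp only [ZE.x, ZE.y, ZE.s, ZE.r, ZE.h, E.val, NumIs.lkR] at hp
    push_cast at hp
    linarith only [hc1, hp]
  · simp only [ZE.x, ZE.y, ZE.s, ZE.r, ZE.h, E.val, NumIs.lkR] at hp
    push_cast at hp
    linarith only [ua9, hp]
  · simp only [ZE.x, ZE.y, ZE.s, ZE.r, ZE.h, E.val, NumIs.lkR] at hp
    push_cast at hp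
    linarith only [ua10, hp]
  · simp only [ZE.x, ZE.y, ZE.s, ZE.r, ZE.h, E.val, NumIs.lkR] at hp
    push_cast at hp
    linarith only [ua11, hp]

theorem e1_mD3X3nC {x y s r : ℝ} (ua1 : 2250 / 10000 ≤ x) (ua2 : x ≤ 2400 / 10000) (ua3 : -(1580 / 10000) ≤ y) (ua4 : y ≤ 0 / 10000) (ua5 : 1850 / 10000 ≤ s) (ua6 : s ≤ 2000 / 10000) (ua7 : 0 / 10000 ≤ r) (ua8 : r ≤ 1045 / 10000) (ua9 : 0 ≤ x - s) (ua10 : x - s ≤ 400 / 10000) (ua11 : (y + 4 * (r * s)) ≤ 0) :
    NumUs.uu (x + s) (y - 4 * (r * s)) + (Real.pi * (1 / 2) * -(y + 4 * (r * s)) * (1 + (25 / 1) * (x - s)) + (25 / 1) * (x - s) * NumUs.uu (400 / 10000) (y + 4 * (r * s))) + (-NumUs.uu (x + 225 / 1000) (y + 9 / 10 * r) + (((400 / 10000) - (x - 225 / 1000)) * NumIs.lnA (400 / 10000) (y - 9 / 10 * r) - NumUs.uu (400 / 10000) (y - 9 / 10 * r) - Real.pi * (y - 9 / 10 * r))) < (958 / 10000 - 85 / 100 * r) ∨ NumUs.uu (x + s) (y - 4 * (r * s)) + (Real.pi * (1 / 2) * -(y + 4 * (r * s)) *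 (1 + (25 / 1) * (x - s)) + (25 / 1) * (x - s) * NumUs.uu (400 / 10000) (y + 4 * (r * s))) + (-NumUs.uu (x + 225 / 1000) (y + 9 / 10 * r) + (((400 / 10000) - (x - 225 / 1000)) * NumIs.lnA (400 / 10000) (y - 9 / 10 * r) - NumUs.uu (400 / 10000) (y - 9 / 10 * r) - Real.pi * -(y - 9 / 10 * r))) < (958 / 10000 - 85 / 100 * r) := by
  have h : chkT [sub (sub (q 958 10000) (mul (q 85 100) ZE.r)) (add (add (E.uu (add ZE.x ZE.s) (sub ZE.y ZE.h)) (add (mul (mul (mul pi (q 1 2)) (neg (add ZE.y ZE.h))) (add (q 1 1) (mul (q 25 1) (sub ZE.x ZE.s)))) (mul (mul (q 25 1) (sub ZE.x ZE.s)) (E.uu (q 400 10000) (add ZE.y ZE.h))))) (add (neg (E.uu (add ZE.x (q 225 1000)) (add ZE.y (mul (q 9 10) ZE.r)))) (sub (sub (mul (sub (q 400 10000) (sub ZE.x (q 225 1000))) (E.lnA (q 400 10000) (sub ZE.y (mul (q 9 10) ZE.r)))) (E.uu (q 400 10000) (sub ZE.y (mul (q 9 10) ZE.r)))) (mul pi (sub ZE.y (mul (q 9 10) ZE.r)))))), sub (sub (q 958 10000) (mul (q 85 100) ZE.r))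 (add (add (E.uu (add ZE.x ZE.s) (sub ZE.y ZE.h)) (add (mul (mul (mul pi (q 1 2)) (neg (add ZE.y ZE.h))) (add (q 1 1) (mul (q 25 1) (sub ZE.x ZE.s)))) (mul (mul (q 25 1) (sub ZE.x ZE.s)) (E.uu (q 400 10000) (add ZE.y ZE.h))))) (add (neg (E.uu (add ZE.x (q 225 1000)) (add ZE.y (mul (q 9 10) ZE.r)))) (sub (sub (mul (sub (q 400 10000) (sub ZE.x (q 225 1000))) (E.lnA (q 400 10000) (sub ZE.y (mul (q 9 10) ZE.r)))) (E.uu (q 400 10000) (sub ZE.y (mul (q 9 10) ZE.r)))) (mul pi (neg (sub ZE.y (mul (q 9 10) ZE.r))))))), sub ZE.s ZE.x, sub (sub ZE.x ZE.s) (q 400 10000), add (q 0 1) (add ZE.y ZE.h)] 60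
    689500688385413425
    [NumIs.V.of 10000 2250 2400, NumIs.V.of 10000 (-1580) 0, NumIs.V.of 10000 1850 2000, NumIs.V.of 10000 0 1045] = true := by
    decide +kernel
  obtain ⟨f, hf, hp⟩ := chkT4 h (by norm_num) (x := x) (y := y) (z := s) (w := r)
    (by norm_num; linarith only [ua1]) (by norm_num; linarith only [ua2]) (by norm_num; linarith only [ua3]) (by norm_num; linarith only [ua4]) (by norm_num; linarith only [ua5]) (by norm_num; linarith only [ua6]) (by norm_num; linarith only [ua7]) (by norm_num; linarith only [ua8])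
  by_contra hc
  push Not at hc
  obtain ⟨hc0, hc1⟩ := hc
  simp only [List.mem_cons, List.not_mem_nil, or_false] at hf
  rcases hf with rfl | rfl | rfl | rfl | rfl
  · simp only [ZE.x, ZE.y, ZE.s, ZE.r, ZE.h, E.val, NumIs.lkR] at hp
    push_cast at hp
    linarith only [hc0, hp]
  · simp only [ZE.x, ZE.y, ZE.s, ZE.r, ZE.h, E.val, NumIs.lkR] at hp
    push_cast at hp
    linarith only [hc1, hp]
  · simp only [ZE.x, ZE.y, ZE.s, ZE.r, ZE.h, E.val, NumIs.lkR] at hp
    push_cast at hp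
    linarith only [ua1, ua6, hp]
  · simp only [ZE.x, ZE.y, ZE.s, ZE.r, ZE.h, E.val, NumIs.lkR] at hp
    push_cast at hp
    linarith only [ua10, hp]
  · simp only [ZE.x, ZE.y, ZE.s, ZE.r, ZE.h, E.val, NumIs.lkR] at hp
    push_cast at hp
    linarith only [ua11, hp]

theorem e1_mD4X1nC {x y s r : ℝ} (ua1 : 900 / 10000 ≤ x) (ua2 : x ≤ 1850 / 10000) (ua3 : -(1580 / 10000) ≤ y) (ua4 : y ≤ 0 / 10000) (ua5 : 500 / 10000 ≤ s) (ua6 : s ≤ 1450 / 10000) (ua7 : 0 / 10000 ≤ r) (ua8 : r ≤ 1045 / 10000) (ua9 : 400 / 10000 ≤ x - s) (ua10 : (y + 4 * (r * s)) ≤ 0) (ua11 : -y ≤ 158 / 100 * x) :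
    NumUs.uu (x + s) (y - 4 * (r * s)) + (NumUs.uu (x - s) (y + 4 * (r * s)) + Real.pi * -(y + 4 * (r * s))) + (-NumUs.uu (x + 225 / 1000) (y + 9 / 10 * r) + -NumUs.uu (x + 775 / 1000) (y - 9 / 10 * r)) < (958 / 10000 - 85 / 100 * r) := by
  have h : chkT [sub (sub (q 958 10000) (mul (q 85 100) ZE.r)) (add (add (E.uu (add ZE.x ZE.s) (sub ZE.y ZE.h)) (add (E.uu (sub ZE.x ZE.s) (add ZE.y ZE.h)) (mul pi (neg (add ZE.y ZE.h))))) (add (neg (E.uu (add ZE.x (q 225 1000)) (add ZE.y (mul (q 9 10) ZE.r)))) (neg (E.uu (add ZE.x (q 775 1000)) (sub ZE.y (mul (q 9 10) ZE.r)))))), sub (q 400 10000) (sub ZE.x ZE.s), add (q 0 1) (add ZE.y ZE.h), sub (neg ZE.y) (mul (q 158 100) ZE.x)] 60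
    2804969695406904979482246847740553654340540343096409884075488456316017084113462323868753485134676402604168763005076052202791865695515877888143001247400722306366136834595893257102212217705346093177727513744384049
    [NumIs.V.of 10000 900 1850, NumIs.V.of 10000 (-1580) 0, NumIs.V.of 10000 500 1450, NumIs.V.of 10000 0 1045] = true := by
    decide +kernel
  obtain ⟨f, hf, hp⟩ := chkT4 h (by norm_num) (x := x) (y := y) (z := s) (w := r)
    (by norm_num; linarith only [ua1]) (by norm_num; linarith only [ua2]) (by norm_num; linarith only [ua3]) (by norm_num; linarith only [ua4]) (by norm_num; linarith only [ua5]) (by norm_num; linarith only [ua6]) (by norm_num; linarith only [ua7]) (by norm_num; linarith only [ua8])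
  by_contra hc
  push Not at hc
  simp only [List.mem_cons, List.not_mem_nil, or_false] at hf
  rcases hf with rfl | rfl | rfl | rfl
  · simp only [ZE.x, ZE.y, ZE.s, ZE.r, ZE.h, E.val, NumIs.lkR] at hp
    push_cast at hp
    linarith only [hc, hp]
  · simp only [ZE.x, ZE.y, ZE.s, ZE.r, ZE.h, E.val, NumIs.lkR] at hp
    push_cast at hp
    linarith only [ua9, hp]
  · simp only [ZE.x, ZE.y, ZE.s, ZE.r, ZE.h, E.val, NumIs.lkR] at hp
    push_cast at hp
    linarith only [ua10, hp]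
  · simp only [ZE.x, ZE.y, ZE.s, ZE.r, ZE.h, E.val, NumIs.lkR] at hp
    push_cast at hp
    linarith only [ua11, hp]

end ZD

end Pool.Agent.Work.MP_b30479_gtS.G2

end

section

/-!
# The loss at a hinge between two rings: certificates (e4b, m)
-/

set_option linter.unusedSimpArgs false
set_option linter.unusedVariables false

set_option deprecated.oldSectionVars true

namespace Pool.Agent.Work.MP_b30479_gtS.G2

open VOL NumUs

namespace ZD

open NumUs.E ZE

theorem e4b_mD4X4n {x y s r : ℝ} (ua1 : 2550 / 10000 ≤ x) (ua2 : x ≤ 5000 / 10000) (ua3 : -(560 / 10000) ≤ y) (ua4 : y ≤ 560 / 10000) (ua5 : 0 / 10000 ≤ s) (ua6 : s ≤ 2000 / 10000) (ua7 : 0 / 10000 ≤ r) (ua8 : r ≤ 1045 / 10000) (ua9 : (y + 4 * (r * s)) ≤ 0) (ua10 : y ≤ 28 / 10 * (1 / 2 - x)) (ua11 : -y ≤ 28 / 10 * (1 / 2 - x)) :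
    NumUs.uu (x + s) (y - 4 * (r * s)) + (NumUs.uu (x - s) (y + 4 * (r * s)) + Real.pi * -(y + 4 * (r * s))) + (-NumUs.uu (x + 225 / 1000) (y + 9 / 10 * r) + -(NumUs.uu (x - 225 / 1000) (y - 9 / 10 * r) + Real.pi * (y - 9 / 10 * r))) < (92 / 1000 + 94 / 100 * r + 2 * Real.pi * r * (9 / 100 + 4 * s * (5 / 2 - 3 * s))) ∨ NumUs.uu (x + s) (y - 4 * (r * s)) + (NumUs.uu (x - s) (y + 4 * (r * s)) + Real.pi * -(y + 4 * (r * s))) + (-NumUs.uu (x + 225 / 1000) (y + 9 / 10 * r) + -(NumUs.uu (x - 225 / 1000) (y - 9 / 10 * r) + Real.pi * -(y - 9 / 10 * r))) < (92 / 1000 + 94 / 100 * r + 2 * Real.pi * r * (9 / 100 + 4 * s * (5 / 2 - 3 * s))) := by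
  have h : chkT [sub (add (add (q 92 1000) (mul (q 94 100) ZE.r)) (mul (mul (mul (q 2 1) pi) ZE.r) (add (q 9 100) (mul (mul (q 4 1) ZE.s) (sub (q 5 2) (mul (q 3 1) ZE.s)))))) (add (add (E.uu (add ZE.x ZE.s) (sub ZE.y ZE.h)) (add (E.uu (sub ZE.x ZE.s) (add ZE.y ZE.h)) (mul pi (neg (add ZE.y ZE.h))))) (add (neg (E.uu (add ZE.x (q 225 1000)) (add ZE.y (mul (q 9 10) ZE.r)))) (neg (add (E.uu (sub ZE.x (q 225 1000)) (sub ZE.y (mul (q 9 10) ZE.r))) (mul pi (sub ZE.y (mul (q 9 10) ZE.r))))))), sub (add (add (q 92 1000) (mul (q 94 100) ZE.r)) (mul (mul (mul (q 2 1) pi) ZE.r) (add (q 9 100) (mul (mul (q 4 1) ZE.s) (sub (q 5 2) (mul (q 3 1) ZE.s)))))) (add (add (E.uu (add ZE.x ZE.s) (sub ZE.y ZE.h)) (add (E.uu (sub ZE.x ZE.s) (add ZE.y ZE.h)) (mul pi (neg (add ZE.y ZE.h))))) (add (neg (E.uu (add ZE.x (q 225 1000)) (add ZE.y (mul (q 9 10) ZE.r)))) (neg (add (E.uu (sub ZE.x (q 225 1000)) (sub ZE.y (mul (q 9 10) ZE.r))) (mul pi (neg (sub ZE.y (mul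 (q 9 10) ZE.r)))))))), add (q 0 1) (add ZE.y ZE.h), sub ZE.y (mul (q 28 10) (sub (q 1 2) ZE.x)), sub (neg ZE.y) (mul (q 28 10) (sub (q 1 2) ZE.x))] 60
    18649354511913937752463095901208385278014813562272638708007763859255074761248563474464
    [NumIs.V.of 10000 2550 5000, NumIs.V.of 10000 (-560) 560, NumIs.V.of 10000 0 2000, NumIs.V.of 10000 0 1045] = true := by
    decide +kernel
  obtain ⟨f, hf, hp⟩ := chkT4 h (by norm_num) (x := x) (y := y) (z := s) (w := r)
    (by norm_num; linarith only [ua1]) (by norm_num; linarith only [ua2]) (by norm_num; linarith only [ua3]) (by norm_num; linarith only [ua4]) (by norm_num; linarith only [ua5]) (by norm_num; linarith only [ua6]) (by norm_num; linarith only [ua7]) (by norm_num; linarith only [ua8])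
  by_contra hc
  push Not at hc
  obtain ⟨hc0, hc1⟩ := hc
  simp only [List.mem_cons, List.not_mem_nil, or_false] at hf
  rcases hf with rfl | rfl | rfl | rfl | rfl
  · simp only [ZE.x, ZE.y, ZE.s, ZE.r, ZE.h, E.val, NumIs.lkR] at hp
    push_cast at hp
    linarith only [hc0, hp]
  · simp only [ZE.x, ZE.y, ZE.s, ZE.r, ZE.h, E.val, NumIs.lkR] at hp
    push_cast at hp
    linarith only [hc1, hp]
  · simp only [ZE.x, ZE.y, ZE.s, ZE.r, ZE.h, E.val, NumIs.lkR] at hp
    push_cast at hp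
    linarith only [ua9, hp]
  · simp only [ZE.x, ZE.y, ZE.s, ZE.r, ZE.h, E.val, NumIs.lkR] at hp
    push_cast at hp
    linarith only [ua10, hp]
  · simp only [ZE.x, ZE.y, ZE.s, ZE.r, ZE.h, E.val, NumIs.lkR] at hp
    push_cast at hp
    linarith only [ua11, hp]

end ZD

end Pool.Agent.Work.MP_b30479_gtS.G2

end
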