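import Pool.Agent.Work.MP_b30479_gt.TBS.NumU.Node
import Pool.Agent.Work.MP_b30479_gt.TBS.NumU.Tree

section

/-!
# Part of `ZRe1A`
-/
set_option linter.unusedSimpArgs false
set_option linter.unusedVariables false

set_option deprecated.oldSectionVars true

namespace Pool.Agent.Work.MP_b30479_gtS.G2

open VOL NumUs

namespace ZD

open NumUs.E ZE

theorem e1_pD4X2pA {x y s r : ℝ} (ua1 : 1850 / 10000 ≤ x) (ua2 : x ≤ 2250 / 10000) (ua3 : 0 / 10000 ≤ y) (ua4 : y ≤ 10 / 10000) (ua5 : 0 / 10000 ≤ s) (ua6 : s ≤ 200 / 10000) (ua7 : 0 / 10000 ≤ r) (ua8 : r ≤ 1045 / 10000) (ua9 : 0 ≤ (y - 4 * (r * s))) :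
    NumUs.uu (x + s) (y + 4 * (r * s)) + (NumUs.uu (x - s) (y - 4 * (r * s)) + Real.pi * (y - 4 * (r * s))) + (-NumUs.uu (x + 225 / 1000) (y + 9 / 10 * r) + ((25 / 1) * (225 / 1000 - x) * NumUs.uu (400 / 10000) (y - 9 / 10 * r) - Real.pi * (1 / 2) * (y - 9 / 10 * r) * (1 - (25 / 1) * (225 / 1000 - x)))) < (958 / 10000 - 85 / 100 * r) ∨ NumUs.uu (x + s) (y + 4 * (r * s)) + (NumUs.uu (x - s) (y - 4 * (r * s)) + Real.pi * (y - 4 * (r * s))) + (-NumUs.uu (x + 225 / 1000) (y + 9 / 10 * r) + ((25 / 1) * (225 / 1000 - x) * NumUs.uu (400 / 10000) (y - 9 / 10 * r) - Real.pi * (1 / 2) * -(y - 9 / 10 * r) * (1 - (25 / 1) * (225 / 1000 - x)))) < (958 / 10000 - 85 / 100 * r) := by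
  have h : chkT [sub (sub (q 958 10000) (mul (q 85 100) ZE.r)) (add (add (E.uu (add ZE.x ZE.s) (add ZE.y ZE.h)) (add (E.uu (sub ZE.x ZE.s) (sub ZE.y ZE.h)) (mul pi (sub ZE.y ZE.h)))) (add (neg (E.uu (add ZE.x (q 225 1000)) (add ZE.y (mul (q 9 10) ZE.r)))) (sub (mul (mul (q 25 1) (sub (q 225 1000) ZE.x)) (E.uu (q 400 10000) (sub ZE.y (mul (q 9 10) ZE.r)))) (mul (mul (mul pi (q 1 2)) (sub ZE.y (mul (q 9 10) ZE.r))) (sub (q 1 1) (mul (q 25 1) (sub (q 225 1000) ZE.x))))))), sub (sub (q 958 10000) (mul (q 85 100) ZE.r)) (add (add (E.uu (add ZE.x ZE.s) (add ZE.y ZE.h)) (add (E.uu (sub ZE.x ZE.s) (sub ZE.y ZE.h)) (mul pi (sub ZE.y ZE.h)))) (add (neg (E.uu (add ZE.x (q 225 1000)) (add ZE.y (mul (q 9 10) ZE.r)))) (sub (mul (mul (q 25 1) (sub (q 225 1000) ZE.x)) (E.uu (q 400 10000) (sub ZE.y (mul (q 9 10) ZE.r)))) (mul (mul (mul pi (q 1 2)) (neg (sub ZE.y (mul (q 9 10) ZE.r)))) (sub (q 1 1) (mul (q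 25 1) (sub (q 225 1000) ZE.x))))))), neg (sub ZE.y ZE.h)] 60
    8
    [NumIs.V.of 10000 1850 2250, NumIs.V.of 10000 0 10, NumIs.V.of 10000 0 200, NumIs.V.of 10000 0 1045] = true := by
    decide +kernel
  obtain ⟨f, hf, hp⟩ := chkT4 h (by norm_num) (x := x) (y := y) (z := s) (w := r)
    (by norm_num; linarith only [ua1]) (by norm_num; linarith only [ua2]) (by norm_num; linarith only [ua3]) (by norm_num; linarith only [ua4]) (by norm_num; linarith only [ua5]) (by norm_num; linarith only [ua6]) (by norm_num; linarith only [ua7]) (by norm_num; linarith only [ua8])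
  by_contra hc
  push Not at hc
  obtain ⟨hc0, hc1⟩ := hc
  simp only [List.mem_cons, List.not_mem_nil, or_false] at hf
  rcases hf with rfl | rfl | rfl
  · simp only [ZE.x, ZE.y, ZE.s, ZE.r, ZE.h, E.val, NumIs.lkR] at hp
    push_cast at hp
    linarith only [hc0, hp]
  · simp only [ZE.x, ZE.y, ZE.s, ZE.r, ZE.h, E.val, NumIs.lkR] at hp
    push_cast at hp
    linarith only [hc1, hp]
  · simp only [ZE.x, ZE.y, ZE.s, ZE.r, ZE.h, E.val, NumIs.lkR] at hp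
    push_cast at hp
    linarith only [ua9, hp]

theorem e1_pD4X2nA {x y s r : ℝ} (ua1 : 1850 / 10000 ≤ x) (ua2 : x ≤ 2250 / 10000) (ua3 : -(1580 / 10000) ≤ y) (ua4 : y ≤ 10 / 10000) (ua5 : 0 / 10000 ≤ s) (ua6 : s ≤ 200 / 10000) (ua7 : 0 / 10000 ≤ r) (ua8 : r ≤ 1045 / 10000) (ua9 : (y - 4 * (r * s)) ≤ 0) :
    NumUs.uu (x + s) (y + 4 * (r * s)) + (NumUs.uu (x - s) (y - 4 * (r * s)) + Real.pi * -(y - 4 * (r * s))) + (-NumUs.uu (x + 225 / 1000) (y + 9 / 10 * r) + ((25 / 1) * (225 / 1000 - x) * NumUs.uu (400 / 10000) (y - 9 / 10 * r) - Real.pi * (1 / 2) * (y - 9 / 10 * r) * (1 - (25 / 1) * (225 / 1000 - x)))) < (958 / 10000 - 85 / 100 * r) ∨ NumUs.uu (x + s) (y + 4 * (r * s)) + (NumUs.uu (x - s) (y - 4 * (r * s)) + Real.pi * -(y - 4 * (r * s))) + (-NumUs.uu (x + 225 / 1000) (y + 9 / 10 * r) + ((25 / 1) * (225 / 1000 - x) * NumUs.uu (400 / 10000) (y - 9 / 10 * r) - Real.pi * (1 / 2) * -(y - 9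 / 10 * r) * (1 - (25 / 1) * (225 / 1000 - x)))) < (958 / 10000 - 85 / 100 * r) := by
  have h : chkT [sub (sub (q 958 10000) (mul (q 85 100) ZE.r)) (add (add (E.uu (add ZE.x ZE.s) (add ZE.y ZE.h)) (add (E.uu (sub ZE.x ZE.s) (sub ZE.y ZE.h)) (mul pi (neg (sub ZE.y ZE.h))))) (add (neg (E.uu (add ZE.x (q 225 1000)) (add ZE.y (mul (q 9 10) ZE.r)))) (sub (mul (mul (q 25 1) (sub (q 225 1000) ZE.x)) (E.uu (q 400 10000) (sub ZE.y (mul (q 9 10) ZE.r)))) (mul (mul (mul pi (q 1 2)) (sub ZE.y (mul (q 9 10) ZE.r))) (sub (q 1 1) (mul (q 25 1) (sub (q 225 1000) ZE.x))))))), sub (sub (q 958 10000) (mul (q 85 100) ZE.r)) (add (add (E.uu (add ZE.x ZE.s) (add ZE.y ZE.h)) (add (E.uu (sub ZE.x ZE.s) (sub ZE.y ZE.h)) (mul pi (neg (sub ZE.y ZE.h))))) (add (neg (E.uu (add ZE.x (q 225 1000)) (add ZE.y (mul (q 9 10) ZE.r)))) (sub (mul (mul (q 25 1) (sub (q 225 1000) ZE.x)) (E.uu (q 400 10000) (sub ZE.y (mul (q 9 10)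 ZE.r)))) (mul (mul (mul pi (q 1 2)) (neg (sub ZE.y (mul (q 9 10) ZE.r)))) (sub (q 1 1) (mul (q 25 1) (sub (q 225 1000) ZE.x))))))), add (q 0 1) (sub ZE.y ZE.h)] 60
    2449
    [NumIs.V.of 10000 1850 2250, NumIs.V.of 10000 (-1580) 10, NumIs.V.of 10000 0 200, NumIs.V.of 10000 0 1045] = true := by
    decide +kernel
  obtain ⟨f, hf, hp⟩ := chkT4 h (by norm_num) (x := x) (y := y) (z := s) (w := r)
    (by norm_num; linarith only [ua1]) (by norm_num; linarith only [ua2]) (by norm_num; linarith only [ua3]) (by norm_num; linarith only [ua4]) (by norm_num; linarith only [ua5]) (by norm_num; linarith only [ua6]) (by norm_num; linarith only [ua7]) (by norm_num; linarith only [ua8])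
  by_contra hc
  push Not at hc
  obtain ⟨hc0, hc1⟩ := hc
  simp only [List.mem_cons, List.not_mem_nil, or_false] at hf
  rcases hf with rfl | rfl | rfl
  · simp only [ZE.x, ZE.y, ZE.s, ZE.r, ZE.h, E.val, NumIs.lkR] at hp
    push_cast at hp
    linarith only [hc0, hp]
  · simp only [ZE.x, ZE.y, ZE.s, ZE.r, ZE.h, E.val, NumIs.lkR] at hp
    push_cast at hp
    linarith only [hc1, hp]
  · simp only [ZE.x, ZE.y, ZE.s, ZE.r, ZE.h, E.val, NumIs.lkR] at hp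
    push_cast at hp
    linarith only [ua9, hp]

theorem e1_pD4X3pA {x y s r : ℝ} (ua1 : 2250 / 10000 ≤ x) (ua2 : x ≤ 2650 / 10000) (ua3 : 0 / 10000 ≤ y) (ua4 : y ≤ 10 / 10000) (ua5 : 0 / 10000 ≤ s) (ua6 : s ≤ 200 / 10000) (ua7 : 0 / 10000 ≤ r) (ua8 : r ≤ 1045 / 10000) (ua9 : 0 ≤ (y - 4 * (r * s))) :
    NumUs.uu (x + s) (y + 4 * (r * s)) + (NumUs.uu (x - s) (y - 4 * (r * s)) + Real.pi * (y - 4 * (r * s))) + (-NumUs.uu (x + 225 / 1000) (y + 9 / 10 * r) + (((400 / 10000) - (x - 225 / 1000)) * NumIs.lnA (400 / 10000) (y - 9 / 10 * r) - NumUs.uu (400 / 10000) (y - 9 / 10 * r) - Real.pi * (y - 9 / 10 * r))) < (958 / 10000 - 85 / 100 * r) ∨ NumUs.uu (x + s) (y + 4 * (r * s)) + (NumUs.uu (x - s) (y - 4 * (r * s)) + Real.pi * (y - 4 * (r * s))) + (-NumUs.uu (x + 225 / 1000) (y + 9 / 10 * r) + (((400 / 10000) - (x - 225 / 1000)) * NumIs.lnA (400 / 10000) (y - 9 / 10 * r) - NumUs.uu (400 / 10000)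 (y - 9 / 10 * r) - Real.pi * -(y - 9 / 10 * r))) < (958 / 10000 - 85 / 100 * r) := by
  have h : chkT [sub (sub (q 958 10000) (mul (q 85 100) ZE.r)) (add (add (E.uu (add ZE.x ZE.s) (add ZE.y ZE.h)) (add (E.uu (sub ZE.x ZE.s) (sub ZE.y ZE.h)) (mul pi (sub ZE.y ZE.h)))) (add (neg (E.uu (add ZE.x (q 225 1000)) (add ZE.y (mul (q 9 10) ZE.r)))) (sub (sub (mul (sub (q 400 10000) (sub ZE.x (q 225 1000))) (E.lnA (q 400 10000) (sub ZE.y (mul (q 9 10) ZE.r)))) (E.uu (q 400 10000) (sub ZE.y (mul (q 9 10) ZE.r)))) (mul pi (sub ZE.y (mul (q 9 10) ZE.r)))))), sub (sub (q 958 10000) (mul (q 85 100) ZE.r)) (add (add (E.uu (add ZE.x ZE.s) (add ZE.y ZE.h)) (add (E.uu (sub ZE.x ZE.s) (sub ZE.y ZE.h)) (mul pi (sub ZE.y ZE.h)))) (add (neg (E.uu (add ZE.x (q 225 1000)) (add ZE.y (mul (q 9 10) ZE.r)))) (sub (sub (mul (sub (q 400 10000) (sub ZE.x (q 225 1000))) (E.lnA (q 400 10000) (sub ZE.y (mul (q 9 10) ZE.r))))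 (E.uu (q 400 10000) (sub ZE.y (mul (q 9 10) ZE.r)))) (mul pi (neg (sub ZE.y (mul (q 9 10) ZE.r))))))), neg (sub ZE.y ZE.h)] 60
    9
    [NumIs.V.of 10000 2250 2650, NumIs.V.of 10000 0 10, NumIs.V.of 10000 0 200, NumIs.V.of 10000 0 1045] = true := by
    decide +kernel
  obtain ⟨f, hf, hp⟩ := chkT4 h (by norm_num) (x := x) (y := y) (z := s) (w := r)
    (by norm_num; linarith only [ua1]) (by norm_num; linarith only [ua2]) (by norm_num; linarith only [ua3]) (by norm_num; linarith only [ua4]) (by norm_num; linarith only [ua5]) (by norm_num; linarith only [ua6]) (by norm_num; linarith only [ua7]) (by norm_num; linarith only [ua8])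
  by_contra hc
  push Not at hc
  obtain ⟨hc0, hc1⟩ := hc
  simp only [List.mem_cons, List.not_mem_nil, or_false] at hf
  rcases hf with rfl | rfl | rfl
  · simp only [ZE.x, ZE.y, ZE.s, ZE.r, ZE.h, E.val, NumIs.lkR] at hp
    push_cast at hp
    linarith only [hc0, hp]
  · simp only [ZE.x, ZE.y, ZE.s, ZE.r, ZE.h, E.val, NumIs.lkR] at hp
    push_cast at hp
    linarith only [hc1, hp]
  · simp only [ZE.x, ZE.y, ZE.s, ZE.r, ZE.h, E.val, NumIs.lkR] at hp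
    push_cast at hp
    linarith only [ua9, hp]

theorem e1_pD4X3nA {x y s r : ℝ} (ua1 : 2250 / 10000 ≤ x) (ua2 : x ≤ 2650 / 10000) (ua3 : -(1580 / 10000) ≤ y) (ua4 : y ≤ 10 / 10000) (ua5 : 0 / 10000 ≤ s) (ua6 : s ≤ 200 / 10000) (ua7 : 0 / 10000 ≤ r) (ua8 : r ≤ 1045 / 10000) (ua9 : (y - 4 * (r * s)) ≤ 0) :
    NumUs.uu (x + s) (y + 4 * (r * s)) + (NumUs.uu (x - s) (y - 4 * (r * s)) + Real.pi * -(y - 4 * (r * s))) + (-NumUs.uu (x + 225 / 1000) (y + 9 / 10 * r) + (((400 / 10000) - (x - 225 / 1000)) * NumIs.lnA (400 / 10000) (y - 9 / 10 * r) - NumUs.uu (400 / 10000) (y - 9 / 10 * r) - Real.pi * (y - 9 / 10 * r))) < (958 / 10000 - 85 / 100 * r) ∨ NumUs.uu (x + s) (y + 4 * (r * s)) + (NumUs.uu (x - s) (y - 4 * (r * s)) + Real.pi * -(y - 4 * (r * s))) + (-NumUs.uu (x + 225 / 1000) (y + 9 / 10 * r) + (((400 / 10000) - (x - 225 / 1000)) * NumIs.lnA (400 / 10000) (y - 9 / 10 * r) - NumUs.uu (400 /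 10000) (y - 9 / 10 * r) - Real.pi * -(y - 9 / 10 * r))) < (958 / 10000 - 85 / 100 * r) := by
  have h : chkT [sub (sub (q 958 10000) (mul (q 85 100) ZE.r)) (add (add (E.uu (add ZE.x ZE.s) (add ZE.y ZE.h)) (add (E.uu (sub ZE.x ZE.s) (sub ZE.y ZE.h)) (mul pi (neg (sub ZE.y ZE.h))))) (add (neg (E.uu (add ZE.x (q 225 1000)) (add ZE.y (mul (q 9 10) ZE.r)))) (sub (sub (mul (sub (q 400 10000) (sub ZE.x (q 225 1000))) (E.lnA (q 400 10000) (sub ZE.y (mul (q 9 10) ZE.r)))) (E.uu (q 400 10000) (sub ZE.y (mul (q 9 10) ZE.r)))) (mul pi (sub ZE.y (mul (q 9 10) ZE.r)))))), sub (sub (q 958 10000) (mul (q 85 100) ZE.r)) (add (add (E.uu (add ZE.x ZE.s) (add ZE.y ZE.h)) (add (E.uu (sub ZE.x ZE.s) (sub ZE.y ZE.h)) (mul pi (neg (sub ZE.y ZE.h))))) (add (neg (E.uu (add ZE.x (q 225 1000)) (add ZE.y (mul (q 9 10) ZE.r)))) (sub (sub (mul (sub (q 400 10000) (sub ZE.x (q 225 1000))) (E.lnA (q 400 10000) (sub ZE.y (mul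 (q 9 10) ZE.r)))) (E.uu (q 400 10000) (sub ZE.y (mul (q 9 10) ZE.r)))) (mul pi (neg (sub ZE.y (mul (q 9 10) ZE.r))))))), add (q 0 1) (sub ZE.y ZE.h)] 60
    2449
    [NumIs.V.of 10000 2250 2650, NumIs.V.of 10000 (-1580) 10, NumIs.V.of 10000 0 200, NumIs.V.of 10000 0 1045] = true := by
    decide +kernel
  obtain ⟨f, hf, hp⟩ := chkT4 h (by norm_num) (x := x) (y := y) (z := s) (w := r)
    (by norm_num; linarith only [ua1]) (by norm_num; linarith only [ua2]) (by norm_num; linarith only [ua3]) (by norm_num; linarith only [ua4]) (by norm_num; linarith only [ua5]) (by norm_num; linarith only [ua6]) (by norm_num; linarith only [ua7]) (by norm_num; linarith only [ua8])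
  by_contra hc
  push Not at hc
  obtain ⟨hc0, hc1⟩ := hc
  simp only [List.mem_cons, List.not_mem_nil, or_false] at hf
  rcases hf with rfl | rfl | rfl
  · simp only [ZE.x, ZE.y, ZE.s, ZE.r, ZE.h, E.val, NumIs.lkR] at hp
    push_cast at hp
    linarith only [hc0, hp]
  · simp only [ZE.x, ZE.y, ZE.s, ZE.r, ZE.h, E.val, NumIs.lkR] at hp
    push_cast at hp
    linarith only [hc1, hp]
  · simp only [ZE.x, ZE.y, ZE.s, ZE.r, ZE.h, E.val, NumIs.lkR] at hp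
    push_cast at hp
    linarith only [ua9, hp]

theorem e1_pD4X4pA {x y s r : ℝ} (ua1 : 2650 / 10000 ≤ x) (ua2 : x ≤ 6000 / 10000) (ua3 : 0 / 10000 ≤ y) (ua4 : y ≤ 10 / 10000) (ua5 : 0 / 10000 ≤ s) (ua6 : s ≤ 200 / 10000) (ua7 : 0 / 10000 ≤ r) (ua8 : r ≤ 1045 / 10000) (ua9 : 0 ≤ (y - 4 * (r * s))) (ua10 : -y ≤ 545 / 1000 * (65 / 100 - x)) :
    NumUs.uu (x + s) (y + 4 * (r * s)) + (NumUs.uu (x - s) (y - 4 * (r * s)) + Real.pi * (y - 4 * (r * s))) + (-NumUs.uu (x + 225 / 1000) (y + 9 / 10 * r) + -(NumUs.uu (x - 225 / 1000) (y - 9 / 10 * r) + Real.pi * (y - 9 / 10 * r))) < (958 / 10000 - 85 / 100 * r) ∨ NumUs.uu (x + s) (y + 4 * (r * s)) + (NumUs.uu (x - s) (y - 4 * (r * s)) + Real.pi * (y - 4 * (r * s))) + (-NumUs.uu (x + 225 / 1000) (y + 9 / 10 * r) + -(NumUs.uu (x - 225 / 1000) (y - 9 / 10 * r) + Real.pi * -(y - 9 / 10 * r))) < (958 / 10000 - 85 / 100 * r) := by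
  have h : chkT [sub (sub (q 958 10000) (mul (q 85 100) ZE.r)) (add (add (E.uu (add ZE.x ZE.s) (add ZE.y ZE.h)) (add (E.uu (sub ZE.x ZE.s) (sub ZE.y ZE.h)) (mul pi (sub ZE.y ZE.h)))) (add (neg (E.uu (add ZE.x (q 225 1000)) (add ZE.y (mul (q 9 10) ZE.r)))) (neg (add (E.uu (sub ZE.x (q 225 1000)) (sub ZE.y (mul (q 9 10) ZE.r))) (mul pi (sub ZE.y (mul (q 9 10) ZE.r))))))), sub (sub (q 958 10000) (mul (q 85 100) ZE.r)) (add (add (E.uu (add ZE.x ZE.s) (add ZE.y ZE.h)) (add (E.uu (sub ZE.x ZE.s) (sub ZE.y ZE.h)) (mul pi (sub ZE.y ZE.h)))) (add (neg (E.uu (add ZE.x (q 225 1000)) (add ZE.y (mul (q 9 10) ZE.r)))) (neg (add (E.uu (sub ZE.x (q 225 1000)) (sub ZE.y (mul (q 9 10) ZE.r))) (mul pi (neg (sub ZE.y (mul (q 9 10) ZE.r)))))))), neg (sub ZE.y ZE.h), sub (neg ZE.y) (mul (q 545 1000) (sub (q 65 100) ZE.x))] 60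
    160471296
    [NumIs.V.of 10000 2650 6000, NumIs.V.of 10000 0 10, NumIs.V.of 10000 0 200, NumIs.V.of 10000 0 1045] = true := by
    decide +kernel
  obtain ⟨f, hf, hp⟩ := chkT4 h (by norm_num) (x := x) (y := y) (z := s) (w := r)
    (by norm_num; linarith only [ua1]) (by norm_num; linarith only [ua2]) (by norm_num; linarith only [ua3]) (by norm_num; linarith only [ua4]) (by norm_num; linarith only [ua5]) (by norm_num; linarith only [ua6]) (by norm_num; linarith only [ua7]) (by norm_num; linarith only [ua8])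
  by_contra hc
  push Not at hc
  obtain ⟨hc0, hc1⟩ := hc
  simp only [List.mem_cons, List.not_mem_nil, or_false] at hf
  rcases hf with rfl | rfl | rfl | rfl
  · simp only [ZE.x, ZE.y, ZE.s, ZE.r, ZE.h, E.val, NumIs.lkR] at hp
    push_cast at hp
    linarith only [hc0, hp]
  · simp only [ZE.x, ZE.y, ZE.s, ZE.r, ZE.h, E.val, NumIs.lkR] at hp
    push_cast at hp
    linarith only [hc1, hp]
  · simp only [ZE.x, ZE.y, ZE.s, ZE.r, ZE.h, E.val, NumIs.lkR] at hp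
    push_cast at hp
    linarith only [ua9, hp]
  · simp only [ZE.x, ZE.y, ZE.s, ZE.r, ZE.h, E.val, NumIs.lkR] at hp
    push_cast at hp
    linarith only [ua2, ua3, hp]

theorem e1_pD4X4nA {x y s r : ℝ} (ua1 : 2650 / 10000 ≤ x) (ua2 : x ≤ 6000 / 10000) (ua3 : -(1580 / 10000) ≤ y) (ua4 : y ≤ 10 / 10000) (ua5 : 0 / 10000 ≤ s) (ua6 : s ≤ 200 / 10000) (ua7 : 0 / 10000 ≤ r) (ua8 : r ≤ 1045 / 10000) (ua9 : (y - 4 * (r * s)) ≤ 0) (ua10 : -y ≤ 545 / 1000 * (65 / 100 - x)) :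
    NumUs.uu (x + s) (y + 4 * (r * s)) + (NumUs.uu (x - s) (y - 4 * (r * s)) + Real.pi * -(y - 4 * (r * s))) + (-NumUs.uu (x + 225 / 1000) (y + 9 / 10 * r) + -(NumUs.uu (x - 225 / 1000) (y - 9 / 10 * r) + Real.pi * (y - 9 / 10 * r))) < (958 / 10000 - 85 / 100 * r) ∨ NumUs.uu (x + s) (y + 4 * (r * s)) + (NumUs.uu (x - s) (y - 4 * (r * s)) + Real.pi * -(y - 4 * (r * s))) + (-NumUs.uu (x + 225 / 1000) (y + 9 / 10 * r) + -(NumUs.uu (x - 225 / 1000) (y - 9 / 10 * r) + Real.pi * -(y - 9 / 10 * r))) < (958 / 10000 - 85 / 100 * r) := by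
  have h : chkT [sub (sub (q 958 10000) (mul (q 85 100) ZE.r)) (add (add (E.uu (add ZE.x ZE.s) (add ZE.y ZE.h)) (add (E.uu (sub ZE.x ZE.s) (sub ZE.y ZE.h)) (mul pi (neg (sub ZE.y ZE.h))))) (add (neg (E.uu (add ZE.x (q 225 1000)) (add ZE.y (mul (q 9 10) ZE.r)))) (neg (add (E.uu (sub ZE.x (q 225 1000)) (sub ZE.y (mul (q 9 10) ZE.r))) (mul pi (sub ZE.y (mul (q 9 10) ZE.r))))))), sub (sub (q 958 10000) (mul (q 85 100) ZE.r)) (add (add (E.uu (add ZE.x ZE.s) (add ZE.y ZE.h)) (add (E.uu (sub ZE.x ZE.s) (sub ZE.y ZE.h)) (mul pi (neg (sub ZE.y ZE.h))))) (add (neg (E.uu (add ZE.x (q 225 1000)) (add ZE.y (mul (q 9 10) ZE.r)))) (neg (add (E.uu (sub ZE.x (q 225 1000)) (sub ZE.y (mul (q 9 10) ZE.r))) (mul pi (neg (sub ZE.y (mul (q 9 10) ZE.r)))))))), add (q 0 1) (sub ZE.y ZE.h), sub (neg ZE.y) (mul (q 545 1000) (sub (q 65 100) ZE.x))] 60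
    45225767002728005931264
    [NumIs.V.of 10000 2650 6000, NumIs.V.of 10000 (-1580) 10, NumIs.V.of 10000 0 200, NumIs.V.of 10000 0 1045] = true := by
    decide +kernel
  obtain ⟨f, hf, hp⟩ := chkT4 h (by norm_num) (x := x) (y := y) (z := s) (w := r)
    (by norm_num; linarith only [ua1]) (by norm_num; linarith only [ua2]) (by norm_num; linarith only [ua3]) (by norm_num; linarith only [ua4]) (by norm_num; linarith only [ua5]) (by norm_num; linarith only [ua6]) (by norm_num; linarith only [ua7]) (by norm_num; linarith only [ua8])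
  by_contra hc
  push Not at hc
  obtain ⟨hc0, hc1⟩ := hc
  simp only [List.mem_cons, List.not_mem_nil, or_false] at hf
  rcases hf with rfl | rfl | rfl | rfl
  · simp only [ZE.x, ZE.y, ZE.s, ZE.r, ZE.h, E.val, NumIs.lkR] at hp
    push_cast at hp
    linarith only [hc0, hp]
  · simp only [ZE.x, ZE.y, ZE.s, ZE.r, ZE.h, E.val, NumIs.lkR] at hp
    push_cast at hp
    linarith only [hc1, hp]
  · simp only [ZE.x, ZE.y, ZE.s, ZE.r, ZE.h, E.val, NumIs.lkR] at hp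
    push_cast at hp
    linarith only [ua9, hp]
  · simp only [ZE.x, ZE.y, ZE.s, ZE.r, ZE.h, E.val, NumIs.lkR] at hp
    push_cast at hp
    linarith only [ua10, hp]

theorem e1_pD4X4nZ {x y s r : ℝ} (ua1 : 6000 / 10000 ≤ x) (ua2 : x ≤ 6500 / 10000) (ua3 : -(273 / 10000) ≤ y) (ua4 : y ≤ 0 / 10000) (ua5 : 0 / 10000 ≤ s) (ua6 : s ≤ 200 / 10000) (ua7 : 0 / 10000 ≤ r) (ua8 : r ≤ 1045 / 10000) (ua9 : (y - 4 * (r * s)) ≤ 0) (ua10 : -y ≤ 545 / 1000 * (65 / 100 - x)) :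
    NumUs.uu (x + s) (y + 4 * (r * s)) + (NumUs.uu (x - s) (y - 4 * (r * s)) + Real.pi * -(y - 4 * (r * s))) + (-NumUs.uu (x + 225 / 1000) (y + 9 / 10 * r) + -(NumUs.uu (x - 225 / 1000) (y - 9 / 10 * r) + Real.pi * (y - 9 / 10 * r))) < (958 / 10000 - 85 / 100 * r) ∨ NumUs.uu (x + s) (y + 4 * (r * s)) + (NumUs.uu (x - s) (y - 4 * (r * s)) + Real.pi * -(y - 4 * (r * s))) + (-NumUs.uu (x + 225 / 1000) (y + 9 / 10 * r) + -(NumUs.uu (x - 225 / 1000) (y - 9 / 10 * r) + Real.pi * -(y - 9 / 10 * r))) < (958 / 10000 - 85 / 100 * r) := by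
  have h : chkT [sub (sub (q 958 10000) (mul (q 85 100) ZE.r)) (add (add (E.uu (add ZE.x ZE.s) (add ZE.y ZE.h)) (add (E.uu (sub ZE.x ZE.s) (sub ZE.y ZE.h)) (mul pi (neg (sub ZE.y ZE.h))))) (add (neg (E.uu (add ZE.x (q 225 1000)) (add ZE.y (mul (q 9 10) ZE.r)))) (neg (add (E.uu (sub ZE.x (q 225 1000)) (sub ZE.y (mul (q 9 10) ZE.r))) (mul pi (sub ZE.y (mul (q 9 10) ZE.r))))))), sub (sub (q 958 10000) (mul (q 85 100) ZE.r)) (add (add (E.uu (add ZE.x ZE.s) (add ZE.y ZE.h)) (add (E.uu (sub ZE.x ZE.s) (sub ZE.y ZE.h)) (mul pi (neg (sub ZE.y ZE.h))))) (add (neg (E.uu (add ZE.x (q 225 1000)) (add ZE.y (mul (q 9 10) ZE.r)))) (neg (add (E.uu (sub ZE.x (q 225 1000)) (sub ZE.y (mul (q 9 10) ZE.r))) (mul pi (neg (sub ZE.y (mul (q 9 10) ZE.r)))))))), add (q 0 1) (sub ZE.y ZE.h), sub (neg ZE.y) (mul (q 545 1000) (sub (q 65 100) ZE.x))] 60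
    41231647539
    [NumIs.V.of 10000 6000 6500, NumIs.V.of 10000 (-273) 0, NumIs.V.of 10000 0 200, NumIs.V.of 10000 0 1045] = true := by
    decide +kernel
  obtain ⟨f, hf, hp⟩ := chkT4 h (by norm_num) (x := x) (y := y) (z := s) (w := r)
    (by norm_num; linarith only [ua1]) (by norm_num; linarith only [ua2]) (by norm_num; linarith only [ua1, ua10]) (by norm_num; linarith only [ua4]) (by norm_num; linarith only [ua5]) (by norm_num; linarith only [ua6]) (by norm_num; linarith only [ua7]) (by norm_num; linarith only [ua8])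
  by_contra hc
  push Not at hc
  obtain ⟨hc0, hc1⟩ := hc
  simp only [List.mem_cons, List.not_mem_nil, or_false] at hf
  rcases hf with rfl | rfl | rfl | rfl
  · simp only [ZE.x, ZE.y, ZE.s, ZE.r, ZE.h, E.val, NumIs.lkR] at hp
    push_cast at hp
    linarith only [hc0, hp]
  · simp only [ZE.x, ZE.y, ZE.s, ZE.r, ZE.h, E.val, NumIs.lkR] at hp
    push_cast at hp
    linarith only [hc1, hp]
  · simp only [ZE.x, ZE.y, ZE.s, ZE.r, ZE.h, E.val, NumIs.lkR] at hp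
    push_cast at hp
    linarith only [ua9, hp]
  · simp only [ZE.x, ZE.y, ZE.s, ZE.r, ZE.h, E.val, NumIs.lkR] at hp
    push_cast at hp
    linarith only [ua10, hp]

theorem e1_pD1X1B {x y s r : ℝ} (ua1 : 0 / 10000 ≤ x) (ua2 : x ≤ 300 / 10000) (ua3 : -(475 / 10000) ≤ y) (ua4 : y ≤ 10 / 10000) (ua5 : 200 / 10000 ≤ s) (ua6 : s ≤ 500 / 10000) (ua7 : 0 / 10000 ≤ r) (ua8 : r ≤ 1045 / 10000) (ua9 : x - s ≤ -(200 / 10000)) (ua10 : -y ≤ 158 / 100 * x) :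
    NumUs.uu (x + s) (y + 4 * (r * s)) + NumUs.uu (1 + x - s) (y - 4 * (r * s)) + (-NumUs.uu (x + 225 / 1000) (y + 9 / 10 * r) + -NumUs.uu (x + 775 / 1000) (y - 9 / 10 * r)) < (958 / 10000 - 85 / 100 * r) := by
  have h : chkT [sub (sub (q 958 10000) (mul (q 85 100) ZE.r)) (add (add (E.uu (add ZE.x ZE.s) (add ZE.y ZE.h)) (E.uu (sub (add (q 1 1) ZE.x) ZE.s) (sub ZE.y ZE.h))) (add (neg (E.uu (add ZE.x (q 225 1000)) (add ZE.y (mul (q 9 10) ZE.r)))) (neg (E.uu (add ZE.x (q 775 1000)) (sub ZE.y (mul (q 9 10) ZE.r)))))), sub (sub ZE.x ZE.s) (q (-200) 10000), sub (neg ZE.y) (mul (q 158 100) ZE.x)] 60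
    46958587847081316819470628900852632153861770705549287436801249688886064263325565941330295163276557844723113462245492010895836242061631017469218049140956446217865395380763771572219554416592800108723564442591735757013299
    [NumIs.V.of 10000 0 300, NumIs.V.of 10000 (-475) 10, NumIs.V.of 10000 200 500, NumIs.V.of 10000 0 1045] = true := by
    decide +kernel
  obtain ⟨f, hf, hp⟩ := chkT4 h (by norm_num) (x := x) (y := y) (z := s) (w := r)
    (by norm_num; linarith only [ua1]) (by norm_num; linarith only [ua2]) (by norm_num; linarith only [ua2, ua10]) (by norm_num; linarith only [ua4]) (by norm_num; linarith only [ua5]) (by norm_num; linarith only [ua6]) (by norm_num; linarith only [ua7]) (by norm_num; linarith only [ua8])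
  by_contra hc
  push Not at hc
  simp only [List.mem_cons, List.not_mem_nil, or_false] at hf
  rcases hf with rfl | rfl | rfl
  · simp only [ZE.x, ZE.y, ZE.s, ZE.r, ZE.h, E.val, NumIs.lkR] at hp
    push_cast at hp
    linarith only [hc, hp]
  · simp only [ZE.x, ZE.y, ZE.s, ZE.r, ZE.h, E.val, NumIs.lkR] at hp
    push_cast at hp
    linarith only [ua9, hp]
  · simp only [ZE.x, ZE.y, ZE.s, ZE.r, ZE.h, E.val, NumIs.lkR] at hp
    push_cast at hp
    linarith only [ua10, hp]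

theorem e1_pD4X2pB {x y s r : ℝ} (ua1 : 1850 / 10000 ≤ x) (ua2 : x ≤ 2250 / 10000) (ua3 : 0 / 10000 ≤ y) (ua4 : y ≤ 10 / 10000) (ua5 : 200 / 10000 ≤ s) (ua6 : s ≤ 500 / 10000) (ua7 : 0 / 10000 ≤ r) (ua8 : r ≤ 1045 / 10000) (ua9 : 0 ≤ (y - 4 * (r * s))) :
    NumUs.uu (x + s) (y + 4 * (r * s)) + (NumUs.uu (x - s) (y - 4 * (r * s)) + Real.pi * (y - 4 * (r * s))) + (-NumUs.uu (x + 225 / 1000) (y + 9 / 10 * r) + ((25 / 1) * (225 / 1000 - x) * NumUs.uu (400 / 10000) (y - 9 / 10 * r) - Real.pi * (1 / 2) * (y - 9 / 10 * r) * (1 - (25 / 1) * (225 / 1000 - x)))) < (958 / 10000 - 85 / 100 * r) ∨ NumUs.uu (x + s) (y + 4 * (r * s)) + (NumUs.uu (x - s) (y - 4 * (r * s)) + Real.pi * (y - 4 * (r * s))) + (-NumUs.uu (x + 225 / 1000) (y + 9 / 10 * r) + ((25 / 1) * (225 / 1000 - x) * NumUs.uu (400 / 10000) (y - 9 / 10 * r) - Real.pi * (1 / 2) * -(y - 9 / 10 * r) * (1 - (25 / 1) * (225 / 1000 - x)))) < (958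 / 10000 - 85 / 100 * r) := by
  have h : chkT [sub (sub (q 958 10000) (mul (q 85 100) ZE.r)) (add (add (E.uu (add ZE.x ZE.s) (add ZE.y ZE.h)) (add (E.uu (sub ZE.x ZE.s) (sub ZE.y ZE.h)) (mul pi (sub ZE.y ZE.h)))) (add (neg (E.uu (add ZE.x (q 225 1000)) (add ZE.y (mul (q 9 10) ZE.r)))) (sub (mul (mul (q 25 1) (sub (q 225 1000) ZE.x)) (E.uu (q 400 10000) (sub ZE.y (mul (q 9 10) ZE.r)))) (mul (mul (mul pi (q 1 2)) (sub ZE.y (mul (q 9 10) ZE.r))) (sub (q 1 1) (mul (q 25 1) (sub (q 225 1000) ZE.x))))))), sub (sub (q 958 10000) (mul (q 85 100) ZE.r)) (add (add (E.uu (add ZE.x ZE.s) (add ZE.y ZE.h)) (add (E.uu (sub ZE.x ZE.s) (sub ZE.y ZE.h)) (mul pi (sub ZE.y ZE.h)))) (add (neg (E.uu (add ZE.x (q 225 1000)) (add ZE.y (mul (q 9 10) ZE.r)))) (sub (mul (mul (q 25 1) (sub (q 225 1000) ZE.x)) (E.uu (q 400 10000) (sub ZE.y (mul (q 9 10) ZE.r)))) (mul (mul (mul pi (q 1 2)) (neg (sub ZE.y (mul (q 9 10)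 ZE.r)))) (sub (q 1 1) (mul (q 25 1) (sub (q 225 1000) ZE.x))))))), neg (sub ZE.y ZE.h)] 60
    8
    [NumIs.V.of 10000 1850 2250, NumIs.V.of 10000 0 10, NumIs.V.of 10000 200 500, NumIs.V.of 10000 0 1045] = true := by
    decide +kernel
  obtain ⟨f, hf, hp⟩ := chkT4 h (by norm_num) (x := x) (y := y) (z := s) (w := r)
    (by norm_num; linarith only [ua1]) (by norm_num; linarith only [ua2]) (by norm_num; linarith only [ua3]) (by norm_num; linarith only [ua4]) (by norm_num; linarith only [ua5]) (by norm_num; linarith only [ua6]) (by norm_num; linarith only [ua7]) (by norm_num; linarith only [ua8])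
  by_contra hc
  push Not at hc
  obtain ⟨hc0, hc1⟩ := hc
  simp only [List.mem_cons, List.not_mem_nil, or_false] at hf
  rcases hf with rfl | rfl | rfl
  · simp only [ZE.x, ZE.y, ZE.s, ZE.r, ZE.h, E.val, NumIs.lkR] at hp
    push_cast at hp
    linarith only [hc0, hp]
  · simp only [ZE.x, ZE.y, ZE.s, ZE.r, ZE.h, E.val, NumIs.lkR] at hp
    push_cast at hp
    linarith only [hc1, hp]
  · simp only [ZE.x, ZE.y, ZE.s, ZE.r, ZE.h, E.val, NumIs.lkR] at hp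
    push_cast at hp
    linarith only [ua9, hp]

theorem e1_pD4X3pB {x y s r : ℝ} (ua1 : 2250 / 10000 ≤ x) (ua2 : x ≤ 2650 / 10000) (ua3 : 0 / 10000 ≤ y) (ua4 : y ≤ 10 / 10000) (ua5 : 200 / 10000 ≤ s) (ua6 : s ≤ 500 / 10000) (ua7 : 0 / 10000 ≤ r) (ua8 : r ≤ 1045 / 10000) (ua9 : 0 ≤ (y - 4 * (r * s))) :
    NumUs.uu (x + s) (y + 4 * (r * s)) + (NumUs.uu (x - s) (y - 4 * (r * s)) + Real.pi * (y - 4 * (r * s))) + (-NumUs.uu (x + 225 / 1000) (y + 9 / 10 * r) + (((400 / 10000) - (x - 225 / 1000)) * NumIs.lnA (400 / 10000) (y - 9 / 10 * r) - NumUs.uu (400 / 10000) (y - 9 / 10 * r) - Real.pi * (y - 9 / 10 * r))) < (958 / 10000 - 85 / 100 * r) ∨ NumUs.uu (x + s) (y + 4 * (r * s)) + (NumUs.uu (x - s) (y - 4 * (r * s)) + Real.pi * (y - 4 * (r * s))) + (-NumUs.uu (x + 225 / 1000) (y + 9 / 10 * r) + (((400 / 10000) - (x - 225 / 1000)) * NumIs.lnA (400 / 10000) (y - 9 / 10 * r) - NumUs.uu (400 / 10000)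 (y - 9 / 10 * r) - Real.pi * -(y - 9 / 10 * r))) < (958 / 10000 - 85 / 100 * r) := by
  have h : chkT [sub (sub (q 958 10000) (mul (q 85 100) ZE.r)) (add (add (E.uu (add ZE.x ZE.s) (add ZE.y ZE.h)) (add (E.uu (sub ZE.x ZE.s) (sub ZE.y ZE.h)) (mul pi (sub ZE.y ZE.h)))) (add (neg (E.uu (add ZE.x (q 225 1000)) (add ZE.y (mul (q 9 10) ZE.r)))) (sub (sub (mul (sub (q 400 10000) (sub ZE.x (q 225 1000))) (E.lnA (q 400 10000) (sub ZE.y (mul (q 9 10) ZE.r)))) (E.uu (q 400 10000) (sub ZE.y (mul (q 9 10) ZE.r)))) (mul pi (sub ZE.y (mul (q 9 10) ZE.r)))))), sub (sub (q 958 10000) (mul (q 85 100) ZE.r)) (add (add (E.uu (add ZE.x ZE.s) (add ZE.y ZE.h)) (add (E.uu (sub ZE.x ZE.s) (sub ZE.y ZE.h)) (mul pi (sub ZE.y ZE.h)))) (add (neg (E.uu (add ZE.x (q 225 1000)) (add ZE.y (mul (q 9 10) ZE.r)))) (sub (sub (mul (sub (q 400 10000) (sub ZE.x (q 225 1000))) (E.lnA (q 400 10000) (sub ZE.y (mul (q 9 10) ZE.r))))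 (E.uu (q 400 10000) (sub ZE.y (mul (q 9 10) ZE.r)))) (mul pi (neg (sub ZE.y (mul (q 9 10) ZE.r))))))), neg (sub ZE.y ZE.h)] 60
    9
    [NumIs.V.of 10000 2250 2650, NumIs.V.of 10000 0 10, NumIs.V.of 10000 200 500, NumIs.V.of 10000 0 1045] = true := by
    decide +kernel
  obtain ⟨f, hf, hp⟩ := chkT4 h (by norm_num) (x := x) (y := y) (z := s) (w := r)
    (by norm_num; linarith only [ua1]) (by norm_num; linarith only [ua2]) (by norm_num; linarith only [ua3]) (by norm_num; linarith only [ua4]) (by norm_num; linarith only [ua5]) (by norm_num; linarith only [ua6]) (by norm_num; linarith only [ua7]) (by norm_num; linarith only [ua8])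
  by_contra hc
  push Not at hc
  obtain ⟨hc0, hc1⟩ := hc
  simp only [List.mem_cons, List.not_mem_nil, or_false] at hf
  rcases hf with rfl | rfl | rfl
  · simp only [ZE.x, ZE.y, ZE.s, ZE.r, ZE.h, E.val, NumIs.lkR] at hp
    push_cast at hp
    linarith only [hc0, hp]
  · simp only [ZE.x, ZE.y, ZE.s, ZE.r, ZE.h, E.val, NumIs.lkR] at hp
    push_cast at hp
    linarith only [hc1, hp]
  · simp only [ZE.x, ZE.y, ZE.s, ZE.r, ZE.h, E.val, NumIs.lkR] at hp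
    push_cast at hp
    linarith only [ua9, hp]

theorem e1_pD4X4pB {x y s r : ℝ} (ua1 : 2650 / 10000 ≤ x) (ua2 : x ≤ 6000 / 10000) (ua3 : 0 / 10000 ≤ y) (ua4 : y ≤ 10 / 10000) (ua5 : 200 / 10000 ≤ s) (ua6 : s ≤ 500 / 10000) (ua7 : 0 / 10000 ≤ r) (ua8 : r ≤ 1045 / 10000) (ua9 : 0 ≤ (y - 4 * (r * s))) (ua10 : -y ≤ 545 / 1000 * (65 / 100 - x)) :
    NumUs.uu (x + s) (y + 4 * (r * s)) + (NumUs.uu (x - s) (y - 4 * (r * s)) + Real.pi * (y - 4 * (r * s))) + (-NumUs.uu (x + 225 / 1000) (y + 9 / 10 * r) + -(NumUs.uu (x - 225 / 1000) (y - 9 / 10 * r) + Real.pi * (y - 9 / 10 * r))) < (958 / 10000 - 85 / 100 * r) ∨ NumUs.uu (x + s) (y + 4 * (r * s)) + (NumUs.uu (x - s) (y - 4 * (r * s)) + Real.pi * (y - 4 * (r * s))) + (-NumUs.uu (x + 225 / 1000) (y + 9 / 10 * r) + -(NumUs.uu (x - 225 / 1000) (y - 9 / 10 * r) + Real.pi * -(y - 9 / 10 * r))) < (958 / 10000 - 85 / 100 * r) := by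
  have h : chkT [sub (sub (q 958 10000) (mul (q 85 100) ZE.r)) (add (add (E.uu (add ZE.x ZE.s) (add ZE.y ZE.h)) (add (E.uu (sub ZE.x ZE.s) (sub ZE.y ZE.h)) (mul pi (sub ZE.y ZE.h)))) (add (neg (E.uu (add ZE.x (q 225 1000)) (add ZE.y (mul (q 9 10) ZE.r)))) (neg (add (E.uu (sub ZE.x (q 225 1000)) (sub ZE.y (mul (q 9 10) ZE.r))) (mul pi (sub ZE.y (mul (q 9 10) ZE.r))))))), sub (sub (q 958 10000) (mul (q 85 100) ZE.r)) (add (add (E.uu (add ZE.x ZE.s) (add ZE.y ZE.h)) (add (E.uu (sub ZE.x ZE.s) (sub ZE.y ZE.h)) (mul pi (sub ZE.y ZE.h)))) (add (neg (E.uu (add ZE.x (q 225 1000)) (add ZE.y (mul (q 9 10) ZE.r)))) (neg (add (E.uu (sub ZE.x (q 225 1000)) (sub ZE.y (mul (q 9 10) ZE.r))) (mul pi (neg (sub ZE.y (mul (q 9 10) ZE.r)))))))), neg (sub ZE.y ZE.h), sub (neg ZE.y) (mul (q 545 1000) (sub (q 65 100) ZE.x))] 60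
    41130432768
    [NumIs.V.of 10000 2650 6000, NumIs.V.of 10000 0 10, NumIs.V.of 10000 200 500, NumIs.V.of 10000 0 1045] = true := by
    decide +kernel
  obtain ⟨f, hf, hp⟩ := chkT4 h (by norm_num) (x := x) (y := y) (z := s) (w := r)
    (by norm_num; linarith only [ua1]) (by norm_num; linarith only [ua2]) (by norm_num; linarith only [ua3]) (by norm_num; linarith only [ua4]) (by norm_num; linarith only [ua5]) (by norm_num; linarith only [ua6]) (by norm_num; linarith only [ua7]) (by norm_num; linarith only [ua8])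
  by_contra hc
  push Not at hc
  obtain ⟨hc0, hc1⟩ := hc
  simp only [List.mem_cons, List.not_mem_nil, or_false] at hf
  rcases hf with rfl | rfl | rfl | rfl
  · simp only [ZE.x, ZE.y, ZE.s, ZE.r, ZE.h, E.val, NumIs.lkR] at hp
    push_cast at hp
    linarith only [hc0, hp]
  · simp only [ZE.x, ZE.y, ZE.s, ZE.r, ZE.h, E.val, NumIs.lkR] at hp
    push_cast at hp
    linarith only [hc1, hp]
  · simp only [ZE.x, ZE.y, ZE.s, ZE.r, ZE.h, E.val, NumIs.lkR] at hp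
    push_cast at hp
    linarith only [ua9, hp]
  · simp only [ZE.x, ZE.y, ZE.s, ZE.r, ZE.h, E.val, NumIs.lkR] at hp
    push_cast at hp
    linarith only [ua2, ua3, hp]

theorem e1_pD4X2nB {x y s r : ℝ} (ua1 : 1850 / 10000 ≤ x) (ua2 : x ≤ 2250 / 10000) (ua3 : -(1580 / 10000) ≤ y) (ua4 : y ≤ 10 / 10000) (ua5 : 200 / 10000 ≤ s) (ua6 : s ≤ 500 / 10000) (ua7 : 0 / 10000 ≤ r) (ua8 : r ≤ 1045 / 10000) (ua9 : (y - 4 * (r * s)) ≤ 0) :
    NumUs.uu (x + s) (y + 4 * (r * s)) + (NumUs.uu (x - s) (y - 4 * (r * s)) + Real.pi * -(y - 4 * (r * s))) + (-NumUs.uu (x + 225 / 1000) (y + 9 / 10 * r) + ((25 / 1) * (225 / 1000 - x) * NumUs.uu (400 / 10000) (y - 9 / 10 * r) - Real.pi * (1 / 2) * (y - 9 / 10 * r) * (1 - (25 / 1) * (225 / 1000 - x)))) < (958 / 10000 - 85 / 100 * r) ∨ NumUs.uu (x + s) (y + 4 * (r * s)) + (NumUs.uu (x - s) (y - 4 * (r * s)) + Real.pi * -(y - 4 * (r * s))) + (-NumUs.uu (x + 225 / 1000)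 (y + 9 / 10 * r) + ((25 / 1) * (225 / 1000 - x) * NumUs.uu (400 / 10000) (y - 9 / 10 * r) - Real.pi * (1 / 2) * -(y - 9 / 10 * r) * (1 - (25 / 1) * (225 / 1000 - x)))) < (958 / 10000 - 85 / 100 * r) := by
  have h : chkT [sub (sub (q 958 10000) (mul (q 85 100) ZE.r)) (add (add (E.uu (add ZE.x ZE.s) (add ZE.y ZE.h)) (add (E.uu (sub ZE.x ZE.s) (sub ZE.y ZE.h)) (mul pi (neg (sub ZE.y ZE.h))))) (add (neg (E.uu (add ZE.x (q 225 1000)) (add ZE.y (mul (q 9 10) ZE.r)))) (sub (mul (mul (q 25 1) (sub (q 225 1000) ZE.x)) (E.uu (q 400 10000) (sub ZE.y (mul (q 9 10) ZE.r)))) (mul (mul (mul pi (q 1 2)) (sub ZE.y (mul (q 9 10) ZE.r))) (sub (q 1 1) (mul (q 25 1) (sub (q 225 1000) ZE.x))))))), sub (sub (q 958 10000) (mul (q 85 100) ZE.r)) (add (add (E.uu (add ZE.x ZE.s) (add ZE.y ZE.h)) (add (E.uu (sub ZE.x ZE.s) (sub ZE.y ZE.h)) (mul pi (neg (sub ZE.y ZE.h))))) (add (neg (E.uu (add ZE.x (q 225 1000)) (add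 ZE.y (mul (q 9 10) ZE.r)))) (sub (mul (mul (q 25 1) (sub (q 225 1000) ZE.x)) (E.uu (q 400 10000) (sub ZE.y (mul (q 9 10) ZE.r)))) (mul (mul (mul pi (q 1 2)) (neg (sub ZE.y (mul (q 9 10) ZE.r)))) (sub (q 1 1) (mul (q 25 1) (sub (q 225 1000) ZE.x))))))), add (q 0 1) (sub ZE.y ZE.h)] 60
    629041
    [NumIs.V.of 10000 1850 2250, NumIs.V.of 10000 (-1580) 10, NumIs.V.of 10000 200 500, NumIs.V.of 10000 0 1045] = true := by
    decide +kernel
  obtain ⟨f, hf, hp⟩ := chkT4 h (by norm_num) (x := x) (y := y) (z := s) (w := r)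
    (by norm_num; linarith only [ua1]) (by norm_num; linarith only [ua2]) (by norm_num; linarith only [ua3]) (by norm_num; linarith only [ua4]) (by norm_num; linarith only [ua5]) (by norm_num; linarith only [ua6]) (by norm_num; linarith only [ua7]) (by norm_num; linarith only [ua8])
  by_contra hc
  push Not at hc
  obtain ⟨hc0, hc1⟩ := hc
  simp only [List.mem_cons, List.not_mem_nil, or_false] at hf
  rcases hf with rfl | rfl | rfl
  · simp only [ZE.x, ZE.y, ZE.s, ZE.r, ZE.h, E.val, NumIs.lkR] at hp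
    push_cast at hp
    linarith only [hc0, hp]
  · simp only [ZE.x, ZE.y, ZE.s, ZE.r, ZE.h, E.val, NumIs.lkR] at hp
    push_cast at hp
    linarith only [hc1, hp]
  · simp only [ZE.x, ZE.y, ZE.s, ZE.r, ZE.h, E.val, NumIs.lkR] at hp
    push_cast at hp
    linarith only [ua9, hp]

theorem e1_pD4X3nB {x y s r : ℝ} (ua1 : 2250 / 10000 ≤ x) (ua2 : x ≤ 2650 / 10000) (ua3 : -(1580 / 10000) ≤ y) (ua4 : y ≤ 10 / 10000) (ua5 : 200 / 10000 ≤ s) (ua6 : s ≤ 500 / 10000) (ua7 : 0 / 10000 ≤ r) (ua8 : r ≤ 1045 / 10000) (ua9 : (y - 4 * (r * s)) ≤ 0) :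
    NumUs.uu (x + s) (y + 4 * (r * s)) + (NumUs.uu (x - s) (y - 4 * (r * s)) + Real.pi * -(y - 4 * (r * s))) + (-NumUs.uu (x + 225 / 1000) (y + 9 / 10 * r) + (((400 / 10000) - (x - 225 / 1000)) * NumIs.lnA (400 / 10000) (y - 9 / 10 * r) - NumUs.uu (400 / 10000) (y - 9 / 10 * r) - Real.pi * (y - 9 / 10 * r))) < (958 / 10000 - 85 / 100 * r) ∨ NumUs.uu (x + s) (y + 4 * (r * s)) + (NumUs.uu (x - s) (y - 4 * (r * s)) + Real.pi * -(y - 4 * (r * s))) + (-NumUs.uu (x + 225 / 1000) (y + 9 / 10 * r) + (((400 / 10000) - (x - 225 / 1000)) * NumIs.lnA (400 / 10000) (y - 9 / 10 * r) - NumUs.uu (400 / 10000) (y - 9 / 10 * r) - Real.pi * -(y - 9 / 10 * r))) < (958 / 10000 - 85 / 100 * r) := by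
  have h : chkT [sub (sub (q 958 10000) (mul (q 85 100) ZE.r)) (add (add (E.uu (add ZE.x ZE.s) (add ZE.y ZE.h)) (add (E.uu (sub ZE.x ZE.s) (sub ZE.y ZE.h)) (mul pi (neg (sub ZE.y ZE.h))))) (add (neg (E.uu (add ZE.x (q 225 1000)) (add ZE.y (mul (q 9 10) ZE.r)))) (sub (sub (mul (sub (q 400 10000) (sub ZE.x (q 225 1000))) (E.lnA (q 400 10000) (sub ZE.y (mul (q 9 10) ZE.r)))) (E.uu (q 400 10000) (sub ZE.y (mul (q 9 10) ZE.r)))) (mul pi (sub ZE.y (mul (q 9 10) ZE.r)))))), sub (sub (q 958 10000) (mul (q 85 100) ZE.r)) (add (add (E.uu (add ZE.x ZE.s) (add ZE.y ZE.h)) (add (E.uu (sub ZE.x ZE.s) (sub ZE.y ZE.h)) (mul pi (neg (sub ZE.y ZE.h))))) (add (neg (E.uu (add ZE.x (q 225 1000)) (add ZE.y (mul (q 9 10) ZE.r)))) (sub (sub (mul (sub (q 400 10000) (sub ZE.x (q 225 1000))) (E.lnA (q 400 10000) (sub ZE.y (mul (q 9 10) ZE.r)))) (E.uu (q 400 10000) (sub ZE.y (mul (q 9 10) ZE.r)))) (mul pi (neg (sub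 ZE.y (mul (q 9 10) ZE.r))))))), add (q 0 1) (sub ZE.y ZE.h)] 60
    627601
    [NumIs.V.of 10000 2250 2650, NumIs.V.of 10000 (-1580) 10, NumIs.V.of 10000 200 500, NumIs.V.of 10000 0 1045] = true := by
    decide +kernel
  obtain ⟨f, hf, hp⟩ := chkT4 h (by norm_num) (x := x) (y := y) (z := s) (w := r)
    (by norm_num; linarith only [ua1]) (by norm_num; linarith only [ua2]) (by norm_num; linarith only [ua3]) (by norm_num; linarith only [ua4]) (by norm_num; linarith only [ua5]) (by norm_num; linarith only [ua6]) (by norm_num; linarith only [ua7]) (by norm_num; linarith only [ua8])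
  by_contra hc
  push Not at hc
  obtain ⟨hc0, hc1⟩ := hc
  simp only [List.mem_cons, List.not_mem_nil, or_false] at hf
  rcases hf with rfl | rfl | rfl
  · simp only [ZE.x, ZE.y, ZE.s, ZE.r, ZE.h, E.val, NumIs.lkR] at hp
    push_cast at hp
    linarith only [hc0, hp]
  · simp only [ZE.x, ZE.y, ZE.s, ZE.r, ZE.h, E.val, NumIs.lkR] at hp
    push_cast at hp
    linarith only [hc1, hp]
  · simp only [ZE.x, ZE.y, ZE.s, ZE.r, ZE.h, E.val, NumIs.lkR] at hp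
    push_cast at hp
    linarith only [ua9, hp]

theorem e1_pD4X4nB {x y s r : ℝ} (ua1 : 2650 / 10000 ≤ x) (ua2 : x ≤ 6000 / 10000) (ua3 : -(1580 / 10000) ≤ y) (ua4 : y ≤ 10 / 10000) (ua5 : 200 / 10000 ≤ s) (ua6 : s ≤ 500 / 10000) (ua7 : 0 / 10000 ≤ r) (ua8 : r ≤ 1045 / 10000) (ua9 : (y - 4 * (r * s)) ≤ 0) (ua10 : -y ≤ 545 / 1000 * (65 / 100 - x)) :
    NumUs.uu (x + s) (y + 4 * (r * s)) + (NumUs.uu (x - s) (y - 4 * (r * s)) + Real.pi * -(y - 4 * (r * s))) + (-NumUs.uu (x + 225 / 1000) (y + 9 / 10 * r) + -(NumUs.uu (x - 225 / 1000) (y - 9 / 10 * r) + Real.pi * (y - 9 / 10 * r))) < (958 / 10000 - 85 / 100 * r) ∨ NumUs.uu (x + s) (y + 4 * (r * s)) + (NumUs.uu (x - s) (y - 4 * (r * s)) + Real.pi * -(y - 4 * (r * s))) + (-NumUs.uu (x + 225 / 1000) (y + 9 / 10 * r) + -(NumUs.uu (x - 225 / 1000) (y - 9 / 10 * r) + Real.pi * -(y - 9 / 10 * r))) < (958 / 10000 - 85 / 100 * r) := by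
  have h : chkT [sub (sub (q 958 10000) (mul (q 85 100) ZE.r)) (add (add (E.uu (add ZE.x ZE.s) (add ZE.y ZE.h)) (add (E.uu (sub ZE.x ZE.s) (sub ZE.y ZE.h)) (mul pi (neg (sub ZE.y ZE.h))))) (add (neg (E.uu (add ZE.x (q 225 1000)) (add ZE.y (mul (q 9 10) ZE.r)))) (neg (add (E.uu (sub ZE.x (q 225 1000)) (sub ZE.y (mul (q 9 10) ZE.r))) (mul pi (sub ZE.y (mul (q 9 10) ZE.r))))))), sub (sub (q 958 10000) (mul (q 85 100) ZE.r)) (add (add (E.uu (add ZE.x ZE.s) (add ZE.y ZE.h)) (add (E.uu (sub ZE.x ZE.s) (sub ZE.y ZE.h)) (mul pi (neg (sub ZE.y ZE.h))))) (add (neg (E.uu (add ZE.x (q 225 1000)) (add ZE.y (mul (q 9 10) ZE.r)))) (neg (add (E.uu (sub ZE.x (q 225 1000)) (sub ZE.y (mul (q 9 10) ZE.r))) (mul pi (neg (sub ZE.y (mul (q 9 10) ZE.r)))))))), add (q 0 1) (sub ZE.y ZE.h), sub (neg ZE.y) (mul (q 545 1000) (sub (q 65 100) ZE.x))] 60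
    11602922585921005313626368
    [NumIs.V.of 10000 2650 6000, NumIs.V.of 10000 (-1580) 10, NumIs.V.of 10000 200 500, NumIs.V.of 10000 0 1045] = true := by
    decide +kernel
  obtain ⟨f, hf, hp⟩ := chkT4 h (by norm_num) (x := x) (y := y) (z := s) (w := r)
    (by norm_num; linarith only [ua1]) (by norm_num; linarith only [ua2]) (by norm_num; linarith only [ua3]) (by norm_num; linarith only [ua4]) (by norm_num; linarith only [ua5]) (by norm_num; linarith only [ua6]) (by norm_num; linarith only [ua7]) (by norm_num; linarith only [ua8])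
  by_contra hc
  push Not at hc
  obtain ⟨hc0, hc1⟩ := hc
  simp only [List.mem_cons, List.not_mem_nil, or_false] at hf
  rcases hf with rfl | rfl | rfl | rfl
  · simp only [ZE.x, ZE.y, ZE.s, ZE.r, ZE.h, E.val, NumIs.lkR] at hp
    push_cast at hp
    linarith only [hc0, hp]
  · simp only [ZE.x, ZE.y, ZE.s, ZE.r, ZE.h, E.val, NumIs.lkR] at hp
    push_cast at hp
    linarith only [hc1, hp]
  · simp only [ZE.x, ZE.y, ZE.s, ZE.r, ZE.h, E.val, NumIs.lkR] at hp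
    push_cast at hp
    linarith only [ua9, hp]
  · simp only [ZE.x, ZE.y, ZE.s, ZE.r, ZE.h, E.val, NumIs.lkR] at hp
    push_cast at hp
    linarith only [ua10, hp]

end ZD

end Pool.Agent.Work.MP_b30479_gtS.G2

end

section

/-!
# Part of `ZRe1A`
-/
set_option linter.unusedSimpArgs false
set_option linter.unusedVariables false

set_option deprecated.oldSectionVars true

namespace Pool.Agent.Work.MP_b30479_gtS.G2

open VOL NumUs

namespace ZD

open NumUs.E ZE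

theorem e1_pD2X1C {x y s r : ℝ} (ua1 : 100 / 10000 ≤ x) (ua2 : x ≤ 1850 / 10000) (ua3 : -(1580 / 10000) ≤ y) (ua4 : y ≤ 10 / 10000) (ua5 : 500 / 10000 ≤ s) (ua6 : s ≤ 2000 / 10000) (ua7 : 0 / 10000 ≤ r) (ua8 : r ≤ 1045 / 10000) (ua9 : -(400 / 10000) ≤ x - s) (ua10 : x - s ≤ 0) (ua11 : -y ≤ 158 / 100 * x) :
    NumUs.uu (x + s) (y + 4 * (r * s)) + (((400 / 10000) + (x - s)) * NumIs.lnA (400 / 10000) (y - 4 * (r * s)) - NumUs.uu (400 / 10000) (y - 4 * (r * s))) + (-NumUs.uu (x + 225 / 1000) (y + 9 / 10 * r) + -NumUs.uu (x + 775 / 1000) (y - 9 / 10 * r)) < (958 / 10000 - 85 / 100 * r) := by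
  have h : chkT [sub (sub (q 958 10000) (mul (q 85 100) ZE.r)) (add (add (E.uu (add ZE.x ZE.s) (add ZE.y ZE.h)) (sub (mul (add (q 400 10000) (sub ZE.x ZE.s)) (E.lnA (q 400 10000) (sub ZE.y ZE.h))) (E.uu (q 400 10000) (sub ZE.y ZE.h)))) (add (neg (E.uu (add ZE.x (q 225 1000)) (add ZE.y (mul (q 9 10) ZE.r)))) (neg (E.uu (add ZE.x (q 775 1000)) (sub ZE.y (mul (q 9 10) ZE.r)))))), sub (q (-400) 10000) (sub ZE.x ZE.s), sub ZE.x ZE.s, sub (neg ZE.y) (mul (q 158 100) ZE.x)] 60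
    41205433611457225951767587425558468395141501556534534259434255139446696801971236108339711974868499115382596850499223602150438648582427511768827661861612243322791944004640404341104159260806970109767838030129508306225546672864568573577494106353715396744043393009218727457568057414210726062741064564420065384366554111153342165261979254835589509471939606256556647746607976500240672
    [NumIs.V.of 10000 100 1850, NumIs.V.of 10000 (-1580) 10, NumIs.V.of 10000 500 2000, NumIs.V.of 10000 0 1045] = true := by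
    decide +kernel
  obtain ⟨f, hf, hp⟩ := chkT4 h (by norm_num) (x := x) (y := y) (z := s) (w := r)
    (by norm_num; linarith only [ua1]) (by norm_num; linarith only [ua2]) (by norm_num; linarith only [ua3]) (by norm_num; linarith only [ua4]) (by norm_num; linarith only [ua5]) (by norm_num; linarith only [ua6]) (by norm_num; linarith only [ua7]) (by norm_num; linarith only [ua8])
  by_contra hc
  push Not at hc
  simp only [List.mem_cons, List.not_mem_nil, or_false] at hf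
  rcases hf with rfl | rfl | rfl | rfl
  · simp only [ZE.x, ZE.y, ZE.s, ZE.r, ZE.h, E.val, NumIs.lkR] at hp
    push_cast at hp
    linarith only [hc, hp]
  · simp only [ZE.x, ZE.y, ZE.s, ZE.r, ZE.h, E.val, NumIs.lkR] at hp
    push_cast at hp
    linarith only [ua9, hp]
  · simp only [ZE.x, ZE.y, ZE.s, ZE.r, ZE.h, E.val, NumIs.lkR] at hp
    push_cast at hp
    linarith only [ua10, hp]
  · simp only [ZE.x, ZE.y, ZE.s, ZE.r, ZE.h, E.val, NumIs.lkR] at hp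
    push_cast at hp
    linarith only [ua11, hp]

theorem e1_pD2X2C {x y s r : ℝ} (ua1 : 1850 / 10000 ≤ x) (ua2 : x ≤ 2000 / 10000) (ua3 : -(1580 / 10000) ≤ y) (ua4 : y ≤ 10 / 10000) (ua5 : 1850 / 10000 ≤ s) (ua6 : s ≤ 2000 / 10000) (ua7 : 0 / 10000 ≤ r) (ua8 : r ≤ 1045 / 10000) (ua9 : -(400 / 10000) ≤ x - s) (ua10 : x - s ≤ 0) :
    NumUs.uu (x + s) (y + 4 * (r * s)) + (((400 / 10000) + (x - s)) * NumIs.lnA (400 / 10000) (y - 4 * (r * s)) - NumUs.uu (400 / 10000) (y - 4 * (r * s))) + (-NumUs.uu (x + 225 / 1000) (y + 9 / 10 * r) + ((25 / 1) * (225 / 1000 - x) * NumUs.uu (400 / 10000) (y - 9 / 10 * r) - Real.pi * (1 / 2) * (y - 9 / 10 * r) * (1 - (25 / 1) * (225 / 1000 - x)))) < (958 / 10000 - 85 / 100 * r) ∨ NumUs.uu (x + s) (y + 4 * (r * s)) + (((400 / 10000) + (x - s)) * NumIs.lnA (400 / 10000) (y - 4 * (r * s)) - NumUs.uu (400 / 10000) (y - 4 * (r * s))) + (-NumUs.uu (x + 225 / 1000) (y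 + 9 / 10 * r) + ((25 / 1) * (225 / 1000 - x) * NumUs.uu (400 / 10000) (y - 9 / 10 * r) - Real.pi * (1 / 2) * -(y - 9 / 10 * r) * (1 - (25 / 1) * (225 / 1000 - x)))) < (958 / 10000 - 85 / 100 * r) := by
  have h : chkT [sub (sub (q 958 10000) (mul (q 85 100) ZE.r)) (add (add (E.uu (add ZE.x ZE.s) (add ZE.y ZE.h)) (sub (mul (add (q 400 10000) (sub ZE.x ZE.s)) (E.lnA (q 400 10000) (sub ZE.y ZE.h))) (E.uu (q 400 10000) (sub ZE.y ZE.h)))) (add (neg (E.uu (add ZE.x (q 225 1000)) (add ZE.y (mul (q 9 10) ZE.r)))) (sub (mul (mul (q 25 1) (sub (q 225 1000) ZE.x)) (E.uu (q 400 10000) (sub ZE.y (mul (q 9 10) ZE.r)))) (mul (mul (mul pi (q 1 2)) (sub ZE.y (mul (q 9 10) ZE.r))) (sub (q 1 1) (mul (q 25 1) (sub (q 225 1000) ZE.x))))))), sub (sub (q 958 10000) (mul (q 85 100) ZE.r)) (add (add (E.uu (add ZE.x ZE.s) (add ZE.y ZE.h)) (sub (mul (add (q 400 10000) (sub ZE.x ZE.s)) (E.lnA (q 400 10000) (sub ZE.y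 ZE.h))) (E.uu (q 400 10000) (sub ZE.y ZE.h)))) (add (neg (E.uu (add ZE.x (q 225 1000)) (add ZE.y (mul (q 9 10) ZE.r)))) (sub (mul (mul (q 25 1) (sub (q 225 1000) ZE.x)) (E.uu (q 400 10000) (sub ZE.y (mul (q 9 10) ZE.r)))) (mul (mul (mul pi (q 1 2)) (neg (sub ZE.y (mul (q 9 10) ZE.r)))) (sub (q 1 1) (mul (q 25 1) (sub (q 225 1000) ZE.x))))))), sub (q (-400) 10000) (sub ZE.x ZE.s), sub ZE.x ZE.s] 60
    758732958944940104955624788273
    [NumIs.V.of 10000 1850 2000, NumIs.V.of 10000 (-1580) 10, NumIs.V.of 10000 1850 2000, NumIs.V.of 10000 0 1045] = true := by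
    decide +kernel
  obtain ⟨f, hf, hp⟩ := chkT4 h (by norm_num) (x := x) (y := y) (z := s) (w := r)
    (by norm_num; linarith only [ua1]) (by norm_num; linarith only [ua2]) (by norm_num; linarith only [ua3]) (by norm_num; linarith only [ua4]) (by norm_num; linarith only [ua5]) (by norm_num; linarith only [ua6]) (by norm_num; linarith only [ua7]) (by norm_num; linarith only [ua8])
  by_contra hc
  push Not at hc
  obtain ⟨hc0, hc1⟩ := hc
  simp only [List.mem_cons, List.not_mem_nil, or_false] at hf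
  rcases hf with rfl | rfl | rfl | rfl
  · simp only [ZE.x, ZE.y, ZE.s, ZE.r, ZE.h, E.val, NumIs.lkR] at hp
    push_cast at hp
    linarith only [hc0, hp]
  · simp only [ZE.x, ZE.y, ZE.s, ZE.r, ZE.h, E.val, NumIs.lkR] at hp
    push_cast at hp
    linarith only [hc1, hp]
  · simp only [ZE.x, ZE.y, ZE.s, ZE.r, ZE.h, E.val, NumIs.lkR] at hp
    push_cast at hp
    linarith only [ua1, ua6, hp]
  · simp only [ZE.x, ZE.y, ZE.s, ZE.r, ZE.h, E.val, NumIs.lkR] at hp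
    push_cast at hp
    linarith only [ua10, hp]

theorem e1_pD3X2pC {x y s r : ℝ} (ua1 : 1850 / 10000 ≤ x) (ua2 : x ≤ 2250 / 10000) (ua3 : 0 / 10000 ≤ y) (ua4 : y ≤ 10 / 10000) (ua5 : 1450 / 10000 ≤ s) (ua6 : s ≤ 2000 / 10000) (ua7 : 0 / 10000 ≤ r) (ua8 : r ≤ 1045 / 10000) (ua9 : 0 ≤ x - s) (ua10 : x - s ≤ 400 / 10000) (ua11 : 0 ≤ (y - 4 * (r * s))) :
    NumUs.uu (x + s) (y + 4 * (r * s)) + (Real.pi * (1 / 2) * (y - 4 * (r * s)) * (1 + (25 / 1) * (x - s)) + (25 / 1) * (x - s) * NumUs.uu (400 / 10000) (y - 4 * (r * s))) + (-NumUs.uu (x + 225 / 1000) (y + 9 / 10 * r) + ((25 / 1) * (225 / 1000 - x) * NumUs.uu (400 / 10000) (y - 9 / 10 * r) - Real.pi * (1 / 2) * (y - 9 / 10 * r) * (1 - (25 / 1) * (225 / 1000 - x)))) < (958 / 10000 - 85 / 100 * r) ∨ NumUs.uu (x + s) (y + 4 * (r * s)) + (Real.pi * (1 / 2) * (y - 4 * (r * s)) * (1 + (25 / 1) * (x - s)) + (25 / 1) * (x - s) * NumUs.uu (400 / 10000)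 (y - 4 * (r * s))) + (-NumUs.uu (x + 225 / 1000) (y + 9 / 10 * r) + ((25 / 1) * (225 / 1000 - x) * NumUs.uu (400 / 10000) (y - 9 / 10 * r) - Real.pi * (1 / 2) * -(y - 9 / 10 * r) * (1 - (25 / 1) * (225 / 1000 - x)))) < (958 / 10000 - 85 / 100 * r) := by
  have h : chkT [sub (sub (q 958 10000) (mul (q 85 100) ZE.r)) (add (add (E.uu (add ZE.x ZE.s) (add ZE.y ZE.h)) (add (mul (mul (mul pi (q 1 2)) (sub ZE.y ZE.h)) (add (q 1 1) (mul (q 25 1) (sub ZE.x ZE.s)))) (mul (mul (q 25 1) (sub ZE.x ZE.s)) (E.uu (q 400 10000) (sub ZE.y ZE.h))))) (add (neg (E.uu (add ZE.x (q 225 1000)) (add ZE.y (mul (q 9 10) ZE.r)))) (sub (mul (mul (q 25 1) (sub (q 225 1000) ZE.x)) (E.uu (q 400 10000) (sub ZE.y (mul (q 9 10) ZE.r)))) (mul (mul (mul pi (q 1 2)) (sub ZE.y (mul (q 9 10) ZE.r))) (sub (q 1 1) (mul (q 25 1) (sub (q 225 1000) ZE.x))))))), sub (sub (q 958 10000) (mul (q 85 100) ZE.r)) (add (add (E.uu (add ZE.x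 ZE.s) (add ZE.y ZE.h)) (add (mul (mul (mul pi (q 1 2)) (sub ZE.y ZE.h)) (add (q 1 1) (mul (q 25 1) (sub ZE.x ZE.s)))) (mul (mul (q 25 1) (sub ZE.x ZE.s)) (E.uu (q 400 10000) (sub ZE.y ZE.h))))) (add (neg (E.uu (add ZE.x (q 225 1000)) (add ZE.y (mul (q 9 10) ZE.r)))) (sub (mul (mul (q 25 1) (sub (q 225 1000) ZE.x)) (E.uu (q 400 10000) (sub ZE.y (mul (q 9 10) ZE.r)))) (mul (mul (mul pi (q 1 2)) (neg (sub ZE.y (mul (q 9 10) ZE.r)))) (sub (q 1 1) (mul (q 25 1) (sub (q 225 1000) ZE.x))))))), sub ZE.s ZE.x, sub (sub ZE.x ZE.s) (q 400 10000), neg (sub ZE.y ZE.h)] 60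
    3203
    [NumIs.V.of 10000 1850 2250, NumIs.V.of 10000 0 10, NumIs.V.of 10000 1450 2000, NumIs.V.of 10000 0 1045] = true := by
    decide +kernel
  obtain ⟨f, hf, hp⟩ := chkT4 h (by norm_num) (x := x) (y := y) (z := s) (w := r)
    (by norm_num; linarith only [ua1]) (by norm_num; linarith only [ua2]) (by norm_num; linarith only [ua3]) (by norm_num; linarith only [ua4]) (by norm_num; linarith only [ua5]) (by norm_num; linarith only [ua6]) (by norm_num; linarith only [ua7]) (by norm_num; linarith only [ua8])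
  by_contra hc
  push Not at hc
  obtain ⟨hc0, hc1⟩ := hc
  simp only [List.mem_cons, List.not_mem_nil, or_false] at hf
  rcases hf with rfl | rfl | rfl | rfl | rfl
  · simp only [ZE.x, ZE.y, ZE.s, ZE.r, ZE.h, E.val, NumIs.lkR] at hp
    push_cast at hp
    linarith only [hc0, hp]
  · simp only [ZE.x, ZE.y, ZE.s, ZE.r, ZE.h, E.val, NumIs.lkR] at hp
    push_cast at hp
    linarith only [hc1, hp]
  · simp only [ZE.x, ZE.y, ZE.s, ZE.r, ZE.h, E.val, NumIs.lkR] at hp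
    push_cast at hp
    linarith only [ua9, hp]
  · simp only [ZE.x, ZE.y, ZE.s, ZE.r, ZE.h, E.val, NumIs.lkR] at hp
    push_cast at hp
    linarith only [ua10, hp]
  · simp only [ZE.x, ZE.y, ZE.s, ZE.r, ZE.h, E.val, NumIs.lkR] at hp
    push_cast at hp
    linarith only [ua11, hp]

theorem e1_pD3X3pC {x y s r : ℝ} (ua1 : 2250 / 10000 ≤ x) (ua2 : x ≤ 2400 / 10000) (ua3 : 0 / 10000 ≤ y) (ua4 : y ≤ 10 / 10000) (ua5 : 1850 / 10000 ≤ s) (ua6 : s ≤ 2000 / 10000) (ua7 : 0 / 10000 ≤ r) (ua8 : r ≤ 1045 / 10000) (ua9 : 0 ≤ x - s) (ua10 : x - s ≤ 400 / 10000) (ua11 : 0 ≤ (y - 4 * (r * s))) :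
    NumUs.uu (x + s) (y + 4 * (r * s)) + (Real.pi * (1 / 2) * (y - 4 * (r * s)) * (1 + (25 / 1) * (x - s)) + (25 / 1) * (x - s) * NumUs.uu (400 / 10000) (y - 4 * (r * s))) + (-NumUs.uu (x + 225 / 1000) (y + 9 / 10 * r) + (((400 / 10000) - (x - 225 / 1000)) * NumIs.lnA (400 / 10000) (y - 9 / 10 * r) - NumUs.uu (400 / 10000) (y - 9 / 10 * r) - Real.pi * (y - 9 / 10 * r))) < (958 / 10000 - 85 / 100 * r) ∨ NumUs.uu (x + s) (y + 4 * (r * s)) + (Real.pi * (1 / 2) * (y - 4 * (r * s)) * (1 + (25 / 1) * (x - s)) + (25 / 1) * (x - s) * NumUs.uu (400 / 10000) (y - 4 * (r * s))) + (-NumUs.uu (x + 225 / 1000) (y + 9 / 10 * r) + (((400 / 10000) - (x - 225 / 1000)) * NumIs.lnA (400 / 10000) (y - 9 / 10 * r) - NumUs.uu (400 / 10000) (y - 9 / 10 * r) - Real.pi * -(y - 9 / 10 * r))) < (958 / 10000 - 85 / 100 * r) := by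
  have h : chkT [sub (sub (q 958 10000) (mul (q 85 100) ZE.r)) (add (add (E.uu (add ZE.x ZE.s) (add ZE.y ZE.h)) (add (mul (mul (mul pi (q 1 2)) (sub ZE.y ZE.h)) (add (q 1 1) (mul (q 25 1) (sub ZE.x ZE.s)))) (mul (mul (q 25 1) (sub ZE.x ZE.s)) (E.uu (q 400 10000) (sub ZE.y ZE.h))))) (add (neg (E.uu (add ZE.x (q 225 1000)) (add ZE.y (mul (q 9 10) ZE.r)))) (sub (sub (mul (sub (q 400 10000) (sub ZE.x (q 225 1000))) (E.lnA (q 400 10000) (sub ZE.y (mul (q 9 10) ZE.r)))) (E.uu (q 400 10000) (sub ZE.y (mul (q 9 10) ZE.r)))) (mul pi (sub ZE.y (mul (q 9 10) ZE.r)))))), sub (sub (q 958 10000) (mul (q 85 100) ZE.r)) (add (add (E.uu (add ZE.x ZE.s) (add ZE.y ZE.h)) (add (mul (mul (mul pi (q 1 2)) (sub ZE.y ZE.h)) (add (q 1 1) (mul (q 25 1) (sub ZE.x ZE.s)))) (mul (mul (q 25 1) (sub ZE.x ZE.s)) (E.uu (q 400 10000) (sub ZE.y ZE.h))))) (add (neg (E.uu (add ZE.x (q 225 1000)) (add ZE.y (mul (q 9 10) ZE.r))))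 (sub (sub (mul (sub (q 400 10000) (sub ZE.x (q 225 1000))) (E.lnA (q 400 10000) (sub ZE.y (mul (q 9 10) ZE.r)))) (E.uu (q 400 10000) (sub ZE.y (mul (q 9 10) ZE.r)))) (mul pi (neg (sub ZE.y (mul (q 9 10) ZE.r))))))), sub ZE.s ZE.x, sub (sub ZE.x ZE.s) (q 400 10000), neg (sub ZE.y ZE.h)] 60
    2451
    [NumIs.V.of 10000 2250 2400, NumIs.V.of 10000 0 10, NumIs.V.of 10000 1850 2000, NumIs.V.of 10000 0 1045] = true := by
    decide +kernel
  obtain ⟨f, hf, hp⟩ := chkT4 h (by norm_num) (x := x) (y := y) (z := s) (w := r)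
    (by norm_num; linarith only [ua1]) (by norm_num; linarith only [ua2]) (by norm_num; linarith only [ua3]) (by norm_num; linarith only [ua4]) (by norm_num; linarith only [ua5]) (by norm_num; linarith only [ua6]) (by norm_num; linarith only [ua7]) (by norm_num; linarith only [ua8])
  by_contra hc
  push Not at hc
  obtain ⟨hc0, hc1⟩ := hc
  simp only [List.mem_cons, List.not_mem_nil, or_false] at hf
  rcases hf with rfl | rfl | rfl | rfl | rfl
  · simp only [ZE.x, ZE.y, ZE.s, ZE.r, ZE.h, E.val, NumIs.lkR] at hp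
    push_cast at hp
    linarith only [hc0, hp]
  · simp only [ZE.x, ZE.y, ZE.s, ZE.r, ZE.h, E.val, NumIs.lkR] at hp
    push_cast at hp
    linarith only [hc1, hp]
  · simp only [ZE.x, ZE.y, ZE.s, ZE.r, ZE.h, E.val, NumIs.lkR] at hp
    push_cast at hp
    linarith only [ua1, ua6, hp]
  · simp only [ZE.x, ZE.y, ZE.s, ZE.r, ZE.h, E.val, NumIs.lkR] at hp
    push_cast at hp
    linarith only [ua10, hp]
  · simp only [ZE.x, ZE.y, ZE.s, ZE.r, ZE.h, E.val, NumIs.lkR] at hp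
    push_cast at hp
    linarith only [ua11, hp]

theorem e1_pD4X2pC {x y s r : ℝ} (ua1 : 1850 / 10000 ≤ x) (ua2 : x ≤ 2250 / 10000) (ua3 : 0 / 10000 ≤ y) (ua4 : y ≤ 10 / 10000) (ua5 : 500 / 10000 ≤ s) (ua6 : s ≤ 1850 / 10000) (ua7 : 0 / 10000 ≤ r) (ua8 : r ≤ 1045 / 10000) (ua9 : 400 / 10000 ≤ x - s) (ua10 : 0 ≤ (y - 4 * (r * s))) :
    NumUs.uu (x + s) (y + 4 * (r * s)) + (NumUs.uu (x - s) (y - 4 * (r * s)) + Real.pi * (y - 4 * (r * s))) + (-NumUs.uu (x + 225 / 1000) (y + 9 / 10 * r) + ((25 / 1) * (225 / 1000 - x) * NumUs.uu (400 / 10000) (y - 9 / 10 * r) - Real.pi * (1 / 2) * (y - 9 / 10 * r) * (1 - (25 / 1) * (225 / 1000 - x)))) < (958 / 10000 - 85 / 100 * r) ∨ NumUs.uu (x + s) (y + 4 * (r * s)) + (NumUs.uu (x - s) (y - 4 * (r * s)) + Real.pi * (y - 4 * (r * s))) + (-NumUs.uu (x + 225 / 1000) (y + 9 / 10 * r) + ((25 / 1) * (225 / 1000 - x) * NumUs.uu (400 / 10000) (y - 9 / 10 * r) - Real.pi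 * (1 / 2) * -(y - 9 / 10 * r) * (1 - (25 / 1) * (225 / 1000 - x)))) < (958 / 10000 - 85 / 100 * r) := by
  have h : chkT [sub (sub (q 958 10000) (mul (q 85 100) ZE.r)) (add (add (E.uu (add ZE.x ZE.s) (add ZE.y ZE.h)) (add (E.uu (sub ZE.x ZE.s) (sub ZE.y ZE.h)) (mul pi (sub ZE.y ZE.h)))) (add (neg (E.uu (add ZE.x (q 225 1000)) (add ZE.y (mul (q 9 10) ZE.r)))) (sub (mul (mul (q 25 1) (sub (q 225 1000) ZE.x)) (E.uu (q 400 10000) (sub ZE.y (mul (q 9 10) ZE.r)))) (mul (mul (mul pi (q 1 2)) (sub ZE.y (mul (q 9 10) ZE.r))) (sub (q 1 1) (mul (q 25 1) (sub (q 225 1000) ZE.x))))))), sub (sub (q 958 10000) (mul (q 85 100) ZE.r)) (add (add (E.uu (add ZE.x ZE.s) (add ZE.y ZE.h)) (add (E.uu (sub ZE.x ZE.s) (sub ZE.y ZE.h)) (mul pi (sub ZE.y ZE.h)))) (add (neg (E.uu (add ZE.x (q 225 1000)) (add ZE.y (mul (q 9 10) ZE.r)))) (sub (mul (mul (q 25 1) (sub (q 225 1000) ZE.x)) (E.uu (q 400 10000) (sub ZE.y (mul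 (q 9 10) ZE.r)))) (mul (mul (mul pi (q 1 2)) (neg (sub ZE.y (mul (q 9 10) ZE.r)))) (sub (q 1 1) (mul (q 25 1) (sub (q 225 1000) ZE.x))))))), sub (q 400 10000) (sub ZE.x ZE.s), neg (sub ZE.y ZE.h)] 60
    3299256978383746
    [NumIs.V.of 10000 1850 2250, NumIs.V.of 10000 0 10, NumIs.V.of 10000 500 1850, NumIs.V.of 10000 0 1045] = true := by
    decide +kernel
  obtain ⟨f, hf, hp⟩ := chkT4 h (by norm_num) (x := x) (y := y) (z := s) (w := r)
    (by norm_num; linarith only [ua1]) (by norm_num; linarith only [ua2]) (by norm_num; linarith only [ua3]) (by norm_num; linarith only [ua4]) (by norm_num; linarith only [ua5]) (by norm_num; linarith only [ua6]) (by norm_num; linarith only [ua7]) (by norm_num; linarith only [ua8])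
  by_contra hc
  push Not at hc
  obtain ⟨hc0, hc1⟩ := hc
  simp only [List.mem_cons, List.not_mem_nil, or_false] at hf
  rcases hf with rfl | rfl | rfl | rfl
  · simp only [ZE.x, ZE.y, ZE.s, ZE.r, ZE.h, E.val, NumIs.lkR] at hp
    push_cast at hp
    linarith only [hc0, hp]
  · simp only [ZE.x, ZE.y, ZE.s, ZE.r, ZE.h, E.val, NumIs.lkR] at hp
    push_cast at hp
    linarith only [hc1, hp]
  · simp only [ZE.x, ZE.y, ZE.s, ZE.r, ZE.h, E.val, NumIs.lkR] at hp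
    push_cast at hp
    linarith only [ua9, hp]
  · simp only [ZE.x, ZE.y, ZE.s, ZE.r, ZE.h, E.val, NumIs.lkR] at hp
    push_cast at hp
    linarith only [ua10, hp]

theorem e1_pD4X3pC {x y s r : ℝ} (ua1 : 2250 / 10000 ≤ x) (ua2 : x ≤ 2650 / 10000) (ua3 : 0 / 10000 ≤ y) (ua4 : y ≤ 10 / 10000) (ua5 : 500 / 10000 ≤ s) (ua6 : s ≤ 2000 / 10000) (ua7 : 0 / 10000 ≤ r) (ua8 : r ≤ 1045 / 10000) (ua9 : 400 / 10000 ≤ x - s) (ua10 : 0 ≤ (y - 4 * (r * s))) :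
    NumUs.uu (x + s) (y + 4 * (r * s)) + (NumUs.uu (x - s) (y - 4 * (r * s)) + Real.pi * (y - 4 * (r * s))) + (-NumUs.uu (x + 225 / 1000) (y + 9 / 10 * r) + (((400 / 10000) - (x - 225 / 1000)) * NumIs.lnA (400 / 10000) (y - 9 / 10 * r) - NumUs.uu (400 / 10000) (y - 9 / 10 * r) - Real.pi * (y - 9 / 10 * r))) < (958 / 10000 - 85 / 100 * r) ∨ NumUs.uu (x + s) (y + 4 * (r * s)) + (NumUs.uu (x - s) (y - 4 * (r * s)) + Real.pi * (y - 4 * (r * s))) + (-NumUs.uu (x + 225 / 1000) (y + 9 / 10 * r) + (((400 / 10000) - (x - 225 / 1000)) * NumIs.lnA (400 / 10000) (y - 9 / 10 * r) - NumUs.uu (400 / 10000) (y - 9 / 10 * r) - Real.pi * -(y - 9 / 10 * r))) < (958 / 10000 - 85 / 100 * r) := by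
  have h : chkT [sub (sub (q 958 10000) (mul (q 85 100) ZE.r)) (add (add (E.uu (add ZE.x ZE.s) (add ZE.y ZE.h)) (add (E.uu (sub ZE.x ZE.s) (sub ZE.y ZE.h)) (mul pi (sub ZE.y ZE.h)))) (add (neg (E.uu (add ZE.x (q 225 1000)) (add ZE.y (mul (q 9 10) ZE.r)))) (sub (sub (mul (sub (q 400 10000) (sub ZE.x (q 225 1000))) (E.lnA (q 400 10000) (sub ZE.y (mul (q 9 10) ZE.r)))) (E.uu (q 400 10000) (sub ZE.y (mul (q 9 10) ZE.r)))) (mul pi (sub ZE.y (mul (q 9 10) ZE.r)))))), sub (sub (q 958 10000) (mul (q 85 100) ZE.r)) (add (add (E.uu (add ZE.x ZE.s) (add ZE.y ZE.h)) (add (E.uu (sub ZE.x ZE.s) (sub ZE.y ZE.h)) (mul pi (sub ZE.y ZE.h)))) (add (neg (E.uu (add ZE.x (q 225 1000)) (add ZE.y (mul (q 9 10) ZE.r)))) (sub (sub (mul (sub (q 400 10000) (sub ZE.x (q 225 1000))) (E.lnA (q 400 10000) (sub ZE.y (mul (q 9 10) ZE.r)))) (E.uu (q 400 10000) (sub ZE.y (mul (q 9 10) ZE.r)))) (mul pi (neg (sub ZE.y (mul (q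 9 10) ZE.r))))))), sub (q 400 10000) (sub ZE.x ZE.s), neg (sub ZE.y ZE.h)] 60
    41208222354
    [NumIs.V.of 10000 2250 2650, NumIs.V.of 10000 0 10, NumIs.V.of 10000 500 2000, NumIs.V.of 10000 0 1045] = true := by
    decide +kernel
  obtain ⟨f, hf, hp⟩ := chkT4 h (by norm_num) (x := x) (y := y) (z := s) (w := r)
    (by norm_num; linarith only [ua1]) (by norm_num; linarith only [ua2]) (by norm_num; linarith only [ua3]) (by norm_num; linarith only [ua4]) (by norm_num; linarith only [ua5]) (by norm_num; linarith only [ua6]) (by norm_num; linarith only [ua7]) (by norm_num; linarith only [ua8])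
  by_contra hc
  push Not at hc
  obtain ⟨hc0, hc1⟩ := hc
  simp only [List.mem_cons, List.not_mem_nil, or_false] at hf
  rcases hf with rfl | rfl | rfl | rfl
  · simp only [ZE.x, ZE.y, ZE.s, ZE.r, ZE.h, E.val, NumIs.lkR] at hp
    push_cast at hp
    linarith only [hc0, hp]
  · simp only [ZE.x, ZE.y, ZE.s, ZE.r, ZE.h, E.val, NumIs.lkR] at hp
    push_cast at hp
    linarith only [hc1, hp]
  · simp only [ZE.x, ZE.y, ZE.s, ZE.r, ZE.h, E.val, NumIs.lkR] at hp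
    push_cast at hp
    linarith only [ua9, hp]
  · simp only [ZE.x, ZE.y, ZE.s, ZE.r, ZE.h, E.val, NumIs.lkR] at hp
    push_cast at hp
    linarith only [ua10, hp]

theorem e1_pD4X4pC {x y s r : ℝ} (ua1 : 2650 / 10000 ≤ x) (ua2 : x ≤ 6000 / 10000) (ua3 : 0 / 10000 ≤ y) (ua4 : y ≤ 10 / 10000) (ua5 : 500 / 10000 ≤ s) (ua6 : s ≤ 2000 / 10000) (ua7 : 0 / 10000 ≤ r) (ua8 : r ≤ 1045 / 10000) (ua9 : 0 ≤ (y - 4 * (r * s))) (ua10 : -y ≤ 545 / 1000 * (65 / 100 - x)) :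
    NumUs.uu (x + s) (y + 4 * (r * s)) + (NumUs.uu (x - s) (y - 4 * (r * s)) + Real.pi * (y - 4 * (r * s))) + (-NumUs.uu (x + 225 / 1000) (y + 9 / 10 * r) + -(NumUs.uu (x - 225 / 1000) (y - 9 / 10 * r) + Real.pi * (y - 9 / 10 * r))) < (958 / 10000 - 85 / 100 * r) ∨ NumUs.uu (x + s) (y + 4 * (r * s)) + (NumUs.uu (x - s) (y - 4 * (r * s)) + Real.pi * (y - 4 * (r * s))) + (-NumUs.uu (x + 225 / 1000) (y + 9 / 10 * r) + -(NumUs.uu (x - 225 / 1000) (y - 9 / 10 * r) + Real.pi * -(y - 9 / 10 * r))) < (958 / 10000 - 85 / 100 * r) := by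
  have h : chkT [sub (sub (q 958 10000) (mul (q 85 100) ZE.r)) (add (add (E.uu (add ZE.x ZE.s) (add ZE.y ZE.h)) (add (E.uu (sub ZE.x ZE.s) (sub ZE.y ZE.h)) (mul pi (sub ZE.y ZE.h)))) (add (neg (E.uu (add ZE.x (q 225 1000)) (add ZE.y (mul (q 9 10) ZE.r)))) (neg (add (E.uu (sub ZE.x (q 225 1000)) (sub ZE.y (mul (q 9 10) ZE.r))) (mul pi (sub ZE.y (mul (q 9 10) ZE.r))))))), sub (sub (q 958 10000) (mul (q 85 100) ZE.r)) (add (add (E.uu (add ZE.x ZE.s) (add ZE.y ZE.h)) (add (E.uu (sub ZE.x ZE.s) (sub ZE.y ZE.h)) (mul pi (sub ZE.y ZE.h)))) (add (neg (E.uu (add ZE.x (q 225 1000)) (add ZE.y (mul (q 9 10) ZE.r)))) (neg (add (E.uu (sub ZE.x (q 225 1000)) (sub ZE.y (mul (q 9 10) ZE.r))) (mul pi (neg (sub ZE.y (mul (q 9 10) ZE.r)))))))), neg (sub ZE.y ZE.h), sub (neg ZE.y) (mul (q 545 1000) (sub (q 65 100) ZE.x))] 60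
    758423469219031818131960009216
    [NumIs.V.of 10000 2650 6000, NumIs.V.of 10000 0 10, NumIs.V.of 10000 500 2000, NumIs.V.of 10000 0 1045] = true := by
    decide +kernel
  obtain ⟨f, hf, hp⟩ := chkT4 h (by norm_num) (x := x) (y := y) (z := s) (w := r)
    (by norm_num; linarith only [ua1]) (by norm_num; linarith only [ua2]) (by norm_num; linarith only [ua3]) (by norm_num; linarith only [ua4]) (by norm_num; linarith only [ua5]) (by norm_num; linarith only [ua6]) (by norm_num; linarith only [ua7]) (by norm_num; linarith only [ua8])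
  by_contra hc
  push Not at hc
  obtain ⟨hc0, hc1⟩ := hc
  simp only [List.mem_cons, List.not_mem_nil, or_false] at hf
  rcases hf with rfl | rfl | rfl | rfl
  · simp only [ZE.x, ZE.y, ZE.s, ZE.r, ZE.h, E.val, NumIs.lkR] at hp
    push_cast at hp
    linarith only [hc0, hp]
  · simp only [ZE.x, ZE.y, ZE.s, ZE.r, ZE.h, E.val, NumIs.lkR] at hp
    push_cast at hp
    linarith only [hc1, hp]
  · simp only [ZE.x, ZE.y, ZE.s, ZE.r, ZE.h, E.val, NumIs.lkR] at hp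
    push_cast at hp
    linarith only [ua9, hp]
  · simp only [ZE.x, ZE.y, ZE.s, ZE.r, ZE.h, E.val, NumIs.lkR] at hp
    push_cast at hp
    linarith only [ua2, ua3, hp]

end ZD

end Pool.Agent.Work.MP_b30479_gtS.G2

end

section

/-!
# Part of `ZRe1B`
-/
set_option linter.unusedSimpArgs false
set_option linter.unusedVariables false

set_option deprecated.oldSectionVars true

namespace Pool.Agent.Work.MP_b30479_gtS.G2

open VOL NumUs

namespace ZD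

open NumUs.E ZE

theorem e1_mD4X2pB {x y s r : ℝ} (ua1 : 1850 / 10000 ≤ x) (ua2 : x ≤ 2250 / 10000) (ua3 : -(1580 / 10000) ≤ y) (ua4 : y ≤ 10 / 10000) (ua5 : 200 / 10000 ≤ s) (ua6 : s ≤ 500 / 10000) (ua7 : 0 / 10000 ≤ r) (ua8 : r ≤ 1045 / 10000) (ua9 : 0 ≤ (y + 4 * (r * s))) :
    NumUs.uu (x + s) (y - 4 * (r * s)) + (NumUs.uu (x - s) (y + 4 * (r * s)) + Real.pi * (y + 4 * (r * s))) + (-NumUs.uu (x + 225 / 1000) (y + 9 / 10 * r) + ((25 / 1) * (225 / 1000 - x) * NumUs.uu (400 / 10000) (y - 9 / 10 * r) - Real.pi * (1 / 2) * (y - 9 / 10 * r) * (1 - (25 / 1) * (225 / 1000 - x)))) < (958 / 10000 - 85 / 100 * r) ∨ NumUs.uu (x + s) (y - 4 * (r * s)) + (NumUs.uu (x - s) (y + 4 * (r * s)) + Real.pi * (y + 4 * (r * s))) + (-NumUs.uu (x + 225 / 1000) (y + 9 / 10 * r) + ((25 / 1) * (225 / 1000 - x) * NumUs.uu (400 / 10000) (y - 9 / 10 * r) - Real.pi * (1 / 2) * -(y - 9 / 10 * r) * (1 - (25 / 1) * (225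 / 1000 - x)))) < (958 / 10000 - 85 / 100 * r) := by
  have h : chkT [sub (sub (q 958 10000) (mul (q 85 100) ZE.r)) (add (add (E.uu (add ZE.x ZE.s) (sub ZE.y ZE.h)) (add (E.uu (sub ZE.x ZE.s) (add ZE.y ZE.h)) (mul pi (add ZE.y ZE.h)))) (add (neg (E.uu (add ZE.x (q 225 1000)) (add ZE.y (mul (q 9 10) ZE.r)))) (sub (mul (mul (q 25 1) (sub (q 225 1000) ZE.x)) (E.uu (q 400 10000) (sub ZE.y (mul (q 9 10) ZE.r)))) (mul (mul (mul pi (q 1 2)) (sub ZE.y (mul (q 9 10) ZE.r))) (sub (q 1 1) (mul (q 25 1) (sub (q 225 1000) ZE.x))))))), sub (sub (q 958 10000) (mul (q 85 100) ZE.r)) (add (add (E.uu (add ZE.x ZE.s) (sub ZE.y ZE.h)) (add (E.uu (sub ZE.x ZE.s) (add ZE.y ZE.h)) (mul pi (add ZE.y ZE.h)))) (add (neg (E.uu (add ZE.x (q 225 1000)) (add ZE.y (mul (q 9 10) ZE.r)))) (sub (mul (mul (q 25 1) (sub (q 225 1000) ZE.x)) (E.uu (q 400 10000) (sub ZE.y (mul (q 9 10) ZE.r)))) (mul (mul (mul pi (q 1 2)) (neg (sub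 ZE.y (mul (q 9 10) ZE.r)))) (sub (q 1 1) (mul (q 25 1) (sub (q 225 1000) ZE.x))))))), neg (add ZE.y ZE.h)] 60
    2433
    [NumIs.V.of 10000 1850 2250, NumIs.V.of 10000 (-1580) 10, NumIs.V.of 10000 200 500, NumIs.V.of 10000 0 1045] = true := by
    decide +kernel
  obtain ⟨f, hf, hp⟩ := chkT4 h (by norm_num) (x := x) (y := y) (z := s) (w := r)
    (by norm_num; linarith only [ua1]) (by norm_num; linarith only [ua2]) (by norm_num; linarith only [ua3]) (by norm_num; linarith only [ua4]) (by norm_num; linarith only [ua5]) (by norm_num; linarith only [ua6]) (by norm_num; linarith only [ua7]) (by norm_num; linarith only [ua8])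
  by_contra hc
  push Not at hc
  obtain ⟨hc0, hc1⟩ := hc
  simp only [List.mem_cons, List.not_mem_nil, or_false] at hf
  rcases hf with rfl | rfl | rfl
  · simp only [ZE.x, ZE.y, ZE.s, ZE.r, ZE.h, E.val, NumIs.lkR] at hp
    push_cast at hp
    linarith only [hc0, hp]
  · simp only [ZE.x, ZE.y, ZE.s, ZE.r, ZE.h, E.val, NumIs.lkR] at hp
    push_cast at hp
    linarith only [hc1, hp]
  · simp only [ZE.x, ZE.y, ZE.s, ZE.r, ZE.h, E.val, NumIs.lkR] at hp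
    push_cast at hp
    linarith only [ua9, hp]

theorem e1_mD4X3pB {x y s r : ℝ} (ua1 : 2250 / 10000 ≤ x) (ua2 : x ≤ 2650 / 10000) (ua3 : -(1580 / 10000) ≤ y) (ua4 : y ≤ 10 / 10000) (ua5 : 200 / 10000 ≤ s) (ua6 : s ≤ 500 / 10000) (ua7 : 0 / 10000 ≤ r) (ua8 : r ≤ 1045 / 10000) (ua9 : 0 ≤ (y + 4 * (r * s))) :
    NumUs.uu (x + s) (y - 4 * (r * s)) + (NumUs.uu (x - s) (y + 4 * (r * s)) + Real.pi * (y + 4 * (r * s))) + (-NumUs.uu (x + 225 / 1000) (y + 9 / 10 * r) + (((400 / 10000) - (x - 225 / 1000)) * NumIs.lnA (400 / 10000) (y - 9 / 10 * r) - NumUs.uu (400 / 10000) (y - 9 / 10 * r) - Real.pi * (y - 9 / 10 * r))) < (958 / 10000 - 85 / 100 * r) ∨ NumUs.uu (x + s) (y - 4 * (r * s)) + (NumUs.uu (x - s) (y + 4 * (r * s)) + Real.pi * (y + 4 * (r * s))) + (-NumUs.uu (x + 225 / 1000) (y + 9 / 10 * r) + (((400 / 10000) - (x - 225 / 1000)) * NumIs.lnA (400 / 10000) (y - 9 / 10 * r) - NumUs.uu (400 /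 10000) (y - 9 / 10 * r) - Real.pi * -(y - 9 / 10 * r))) < (958 / 10000 - 85 / 100 * r) := by
  have h : chkT [sub (sub (q 958 10000) (mul (q 85 100) ZE.r)) (add (add (E.uu (add ZE.x ZE.s) (sub ZE.y ZE.h)) (add (E.uu (sub ZE.x ZE.s) (add ZE.y ZE.h)) (mul pi (add ZE.y ZE.h)))) (add (neg (E.uu (add ZE.x (q 225 1000)) (add ZE.y (mul (q 9 10) ZE.r)))) (sub (sub (mul (sub (q 400 10000) (sub ZE.x (q 225 1000))) (E.lnA (q 400 10000) (sub ZE.y (mul (q 9 10) ZE.r)))) (E.uu (q 400 10000) (sub ZE.y (mul (q 9 10) ZE.r)))) (mul pi (sub ZE.y (mul (q 9 10) ZE.r)))))), sub (sub (q 958 10000) (mul (q 85 100) ZE.r)) (add (add (E.uu (add ZE.x ZE.s) (sub ZE.y ZE.h)) (add (E.uu (sub ZE.x ZE.s) (add ZE.y ZE.h)) (mul pi (add ZE.y ZE.h)))) (add (neg (E.uu (add ZE.x (q 225 1000)) (add ZE.y (mul (q 9 10) ZE.r)))) (sub (sub (mul (sub (q 400 10000) (sub ZE.x (q 225 1000))) (E.lnA (q 400 10000) (sub ZE.y (mul (q 9 10)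 ZE.r)))) (E.uu (q 400 10000) (sub ZE.y (mul (q 9 10) ZE.r)))) (mul pi (neg (sub ZE.y (mul (q 9 10) ZE.r))))))), neg (add ZE.y ZE.h)] 60
    2449
    [NumIs.V.of 10000 2250 2650, NumIs.V.of 10000 (-1580) 10, NumIs.V.of 10000 200 500, NumIs.V.of 10000 0 1045] = true := by
    decide +kernel
  obtain ⟨f, hf, hp⟩ := chkT4 h (by norm_num) (x := x) (y := y) (z := s) (w := r)
    (by norm_num; linarith only [ua1]) (by norm_num; linarith only [ua2]) (by norm_num; linarith only [ua3]) (by norm_num; linarith only [ua4]) (by norm_num; linarith only [ua5]) (by norm_num; linarith only [ua6]) (by norm_num; linarith only [ua7]) (by norm_num; linarith only [ua8])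
  by_contra hc
  push Not at hc
  obtain ⟨hc0, hc1⟩ := hc
  simp only [List.mem_cons, List.not_mem_nil, or_false] at hf
  rcases hf with rfl | rfl | rfl
  · simp only [ZE.x, ZE.y, ZE.s, ZE.r, ZE.h, E.val, NumIs.lkR] at hp
    push_cast at hp
    linarith only [hc0, hp]
  · simp only [ZE.x, ZE.y, ZE.s, ZE.r, ZE.h, E.val, NumIs.lkR] at hp
    push_cast at hp
    linarith only [hc1, hp]
  · simp only [ZE.x, ZE.y, ZE.s, ZE.r, ZE.h, E.val, NumIs.lkR] at hp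
    push_cast at hp
    linarith only [ua9, hp]

theorem e1_mD4X4pB {x y s r : ℝ} (ua1 : 2650 / 10000 ≤ x) (ua2 : x ≤ 6000 / 10000) (ua3 : -(1580 / 10000) ≤ y) (ua4 : y ≤ 10 / 10000) (ua5 : 200 / 10000 ≤ s) (ua6 : s ≤ 500 / 10000) (ua7 : 0 / 10000 ≤ r) (ua8 : r ≤ 1045 / 10000) (ua9 : 0 ≤ (y + 4 * (r * s))) (ua10 : -y ≤ 545 / 1000 * (65 / 100 - x)) :
    NumUs.uu (x + s) (y - 4 * (r * s)) + (NumUs.uu (x - s) (y + 4 * (r * s)) + Real.pi * (y + 4 * (r * s))) + (-NumUs.uu (x + 225 / 1000) (y + 9 / 10 * r) + -(NumUs.uu (x - 225 / 1000) (y - 9 / 10 * r) + Real.pi * (y - 9 / 10 * r))) < (958 / 10000 - 85 / 100 * r) ∨ NumUs.uu (x + s) (y - 4 * (r * s)) + (NumUs.uu (x - s) (y + 4 * (r * s)) + Real.pi * (y + 4 * (r * s))) + (-NumUs.uu (x + 225 / 1000) (y + 9 / 10 * r) + -(NumUs.uu (x - 225 / 1000) (y - 9 / 10 * r) + Real.pi * -(y - 9 / 10 * r))) < (958 / 10000 - 85 / 100 * r) := by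
  have h : chkT [sub (sub (q 958 10000) (mul (q 85 100) ZE.r)) (add (add (E.uu (add ZE.x ZE.s) (sub ZE.y ZE.h)) (add (E.uu (sub ZE.x ZE.s) (add ZE.y ZE.h)) (mul pi (add ZE.y ZE.h)))) (add (neg (E.uu (add ZE.x (q 225 1000)) (add ZE.y (mul (q 9 10) ZE.r)))) (neg (add (E.uu (sub ZE.x (q 225 1000)) (sub ZE.y (mul (q 9 10) ZE.r))) (mul pi (sub ZE.y (mul (q 9 10) ZE.r))))))), sub (sub (q 958 10000) (mul (q 85 100) ZE.r)) (add (add (E.uu (add ZE.x ZE.s) (sub ZE.y ZE.h)) (add (E.uu (sub ZE.x ZE.s) (add ZE.y ZE.h)) (mul pi (add ZE.y ZE.h)))) (add (neg (E.uu (add ZE.x (q 225 1000)) (add ZE.y (mul (q 9 10) ZE.r)))) (neg (add (E.uu (sub ZE.x (q 225 1000)) (sub ZE.y (mul (q 9 10) ZE.r))) (mul pi (neg (sub ZE.y (mul (q 9 10) ZE.r)))))))), neg (add ZE.y ZE.h), sub (neg ZE.y) (mul (q 545 1000) (sub (q 65 100) ZE.x))] 60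
    176653855470352830720
    [NumIs.V.of 10000 2650 6000, NumIs.V.of 10000 (-1580) 10, NumIs.V.of 10000 200 500, NumIs.V.of 10000 0 1045] = true := by
    decide +kernel
  obtain ⟨f, hf, hp⟩ := chkT4 h (by norm_num) (x := x) (y := y) (z := s) (w := r)
    (by norm_num; linarith only [ua1]) (by norm_num; linarith only [ua2]) (by norm_num; linarith only [ua3]) (by norm_num; linarith only [ua4]) (by norm_num; linarith only [ua5]) (by norm_num; linarith only [ua6]) (by norm_num; linarith only [ua7]) (by norm_num; linarith only [ua8])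
  by_contra hc
  push Not at hc
  obtain ⟨hc0, hc1⟩ := hc
  simp only [List.mem_cons, List.not_mem_nil, or_false] at hf
  rcases hf with rfl | rfl | rfl | rfl
  · simp only [ZE.x, ZE.y, ZE.s, ZE.r, ZE.h, E.val, NumIs.lkR] at hp
    push_cast at hp
    linarith only [hc0, hp]
  · simp only [ZE.x, ZE.y, ZE.s, ZE.r, ZE.h, E.val, NumIs.lkR] at hp
    push_cast at hp
    linarith only [hc1, hp]
  · simp only [ZE.x, ZE.y, ZE.s, ZE.r, ZE.h, E.val, NumIs.lkR] at hp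
    push_cast at hp
    linarith only [ua9, hp]
  · simp only [ZE.x, ZE.y, ZE.s, ZE.r, ZE.h, E.val, NumIs.lkR] at hp
    push_cast at hp
    linarith only [ua10, hp]

theorem e1_mD4X1nB {x y s r : ℝ} (ua1 : 400 / 10000 ≤ x) (ua2 : x ≤ 1850 / 10000) (ua3 : -(1580 / 10000) ≤ y) (ua4 : y ≤ 0 / 10000) (ua5 : 200 / 10000 ≤ s) (ua6 : s ≤ 500 / 10000) (ua7 : 0 / 10000 ≤ r) (ua8 : r ≤ 1045 / 10000) (ua9 : 200 / 10000 ≤ x - s) (ua10 : (y + 4 * (r * s)) ≤ 0) (ua11 : -y ≤ 158 / 100 * x) :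
    NumUs.uu (x + s) (y - 4 * (r * s)) + (NumUs.uu (x - s) (y + 4 * (r * s)) + Real.pi * -(y + 4 * (r * s))) + (-NumUs.uu (x + 225 / 1000) (y + 9 / 10 * r) + -NumUs.uu (x + 775 / 1000) (y - 9 / 10 * r)) < (958 / 10000 - 85 / 100 * r) := by
  have h : chkT [sub (sub (q 958 10000) (mul (q 85 100) ZE.r)) (add (add (E.uu (add ZE.x ZE.s) (sub ZE.y ZE.h)) (add (E.uu (sub ZE.x ZE.s) (add ZE.y ZE.h)) (mul pi (neg (add ZE.y ZE.h))))) (add (neg (E.uu (add ZE.x (q 225 1000)) (add ZE.y (mul (q 9 10) ZE.r)))) (neg (E.uu (add ZE.x (q 775 1000)) (sub ZE.y (mul (q 9 10) ZE.r)))))), sub (q 200 10000) (sub ZE.x ZE.s), add (q 0 1) (add ZE.y ZE.h), sub (neg ZE.y) (mul (q 158 100) ZE.x)] 60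
    3502331081582423252211829613470899879141343343202712047580094464
    [NumIs.V.of 10000 400 1850, NumIs.V.of 10000 (-1580) 0, NumIs.V.of 10000 200 500, NumIs.V.of 10000 0 1045] = true := by
    decide +kernel
  obtain ⟨f, hf, hp⟩ := chkT4 h (by norm_num) (x := x) (y := y) (z := s) (w := r)
    (by norm_num; linarith only [ua1]) (by norm_num; linarith only [ua2]) (by norm_num; linarith only [ua3]) (by norm_num; linarith only [ua4]) (by norm_num; linarith only [ua5]) (by norm_num; linarith only [ua6]) (by norm_num; linarith only [ua7]) (by norm_num; linarith only [ua8])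
  by_contra hc
  push Not at hc
  simp only [List.mem_cons, List.not_mem_nil, or_false] at hf
  rcases hf with rfl | rfl | rfl | rfl
  · simp only [ZE.x, ZE.y, ZE.s, ZE.r, ZE.h, E.val, NumIs.lkR] at hp
    push_cast at hp
    linarith only [hc, hp]
  · simp only [ZE.x, ZE.y, ZE.s, ZE.r, ZE.h, E.val, NumIs.lkR] at hp
    push_cast at hp
    linarith only [ua9, hp]
  · simp only [ZE.x, ZE.y, ZE.s, ZE.r, ZE.h, E.val, NumIs.lkR] at hp
    push_cast at hp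
    linarith only [ua10, hp]
  · simp only [ZE.x, ZE.y, ZE.s, ZE.r, ZE.h, E.val, NumIs.lkR] at hp
    push_cast at hp
    linarith only [ua11, hp]

theorem e1_mD4X2nB {x y s r : ℝ} (ua1 : 1850 / 10000 ≤ x) (ua2 : x ≤ 2250 / 10000) (ua3 : -(1580 / 10000) ≤ y) (ua4 : y ≤ 0 / 10000) (ua5 : 200 / 10000 ≤ s) (ua6 : s ≤ 500 / 10000) (ua7 : 0 / 10000 ≤ r) (ua8 : r ≤ 1045 / 10000) (ua9 : (y + 4 * (r * s)) ≤ 0) :
    NumUs.uu (x + s) (y - 4 * (r * s)) + (NumUs.uu (x - s) (y + 4 * (r * s)) + Real.pi * -(y + 4 * (r * s))) + (-NumUs.uu (x + 225 / 1000) (y + 9 / 10 * r) + ((25 / 1) * (225 / 1000 - x) * NumUs.uu (400 / 10000) (y - 9 / 10 * r) - Real.pi * (1 / 2) * (y - 9 / 10 * r) * (1 - (25 / 1) * (225 / 1000 - x)))) < (958 / 10000 - 85 / 100 * r) ∨ NumUs.uu (x + s) (y - 4 * (r * s)) + (NumUs.uu (x - s) (y + 4 * (r * s)) + Real.pi * -(y + 4 * (r * s))) + (-NumUs.uu (x + 225 / 1000) (y + 9 / 10 * r) +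 ((25 / 1) * (225 / 1000 - x) * NumUs.uu (400 / 10000) (y - 9 / 10 * r) - Real.pi * (1 / 2) * -(y - 9 / 10 * r) * (1 - (25 / 1) * (225 / 1000 - x)))) < (958 / 10000 - 85 / 100 * r) := by
  have h : chkT [sub (sub (q 958 10000) (mul (q 85 100) ZE.r)) (add (add (E.uu (add ZE.x ZE.s) (sub ZE.y ZE.h)) (add (E.uu (sub ZE.x ZE.s) (add ZE.y ZE.h)) (mul pi (neg (add ZE.y ZE.h))))) (add (neg (E.uu (add ZE.x (q 225 1000)) (add ZE.y (mul (q 9 10) ZE.r)))) (sub (mul (mul (q 25 1) (sub (q 225 1000) ZE.x)) (E.uu (q 400 10000) (sub ZE.y (mul (q 9 10) ZE.r)))) (mul (mul (mul pi (q 1 2)) (sub ZE.y (mul (q 9 10) ZE.r))) (sub (q 1 1) (mul (q 25 1) (sub (q 225 1000) ZE.x))))))), sub (sub (q 958 10000) (mul (q 85 100) ZE.r)) (add (add (E.uu (add ZE.x ZE.s) (sub ZE.y ZE.h)) (add (E.uu (sub ZE.x ZE.s) (add ZE.y ZE.h)) (mul pi (neg (add ZE.y ZE.h))))) (add (neg (E.uu (add ZE.x (q 225 1000)) (add ZE.y (mul (q 9 10)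 ZE.r)))) (sub (mul (mul (q 25 1) (sub (q 225 1000) ZE.x)) (E.uu (q 400 10000) (sub ZE.y (mul (q 9 10) ZE.r)))) (mul (mul (mul pi (q 1 2)) (neg (sub ZE.y (mul (q 9 10) ZE.r)))) (sub (q 1 1) (mul (q 25 1) (sub (q 225 1000) ZE.x))))))), add (q 0 1) (add ZE.y ZE.h)] 60
    629041
    [NumIs.V.of 10000 1850 2250, NumIs.V.of 10000 (-1580) 0, NumIs.V.of 10000 200 500, NumIs.V.of 10000 0 1045] = true := by
    decide +kernel
  obtain ⟨f, hf, hp⟩ := chkT4 h (by norm_num) (x := x) (y := y) (z := s) (w := r)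
    (by norm_num; linarith only [ua1]) (by norm_num; linarith only [ua2]) (by norm_num; linarith only [ua3]) (by norm_num; linarith only [ua4]) (by norm_num; linarith only [ua5]) (by norm_num; linarith only [ua6]) (by norm_num; linarith only [ua7]) (by norm_num; linarith only [ua8])
  by_contra hc
  push Not at hc
  obtain ⟨hc0, hc1⟩ := hc
  simp only [List.mem_cons, List.not_mem_nil, or_false] at hf
  rcases hf with rfl | rfl | rfl
  · simp only [ZE.x, ZE.y, ZE.s, ZE.r, ZE.h, E.val, NumIs.lkR] at hp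
    push_cast at hp
    linarith only [hc0, hp]
  · simp only [ZE.x, ZE.y, ZE.s, ZE.r, ZE.h, E.val, NumIs.lkR] at hp
    push_cast at hp
    linarith only [hc1, hp]
  · simp only [ZE.x, ZE.y, ZE.s, ZE.r, ZE.h, E.val, NumIs.lkR] at hp
    push_cast at hp
    linarith only [ua9, hp]

theorem e1_mD4X3nB {x y s r : ℝ} (ua1 : 2250 / 10000 ≤ x) (ua2 : x ≤ 2650 / 10000) (ua3 : -(1580 / 10000) ≤ y) (ua4 : y ≤ 0 / 10000) (ua5 : 200 / 10000 ≤ s) (ua6 : s ≤ 500 / 10000) (ua7 : 0 / 10000 ≤ r) (ua8 : r ≤ 1045 / 10000) (ua9 : (y + 4 * (r * s)) ≤ 0) :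
    NumUs.uu (x + s) (y - 4 * (r * s)) + (NumUs.uu (x - s) (y + 4 * (r * s)) + Real.pi * -(y + 4 * (r * s))) + (-NumUs.uu (x + 225 / 1000) (y + 9 / 10 * r) + (((400 / 10000) - (x - 225 / 1000)) * NumIs.lnA (400 / 10000) (y - 9 / 10 * r) - NumUs.uu (400 / 10000) (y - 9 / 10 * r) - Real.pi * (y - 9 / 10 * r))) < (958 / 10000 - 85 / 100 * r) ∨ NumUs.uu (x + s) (y - 4 * (r * s)) + (NumUs.uu (x - s) (y + 4 * (r * s)) + Real.pi * -(y + 4 * (r * s))) + (-NumUs.uu (x + 225 / 1000) (y + 9 / 10 * r) + (((400 / 10000) - (x - 225 / 1000)) * NumIs.lnA (400 / 10000) (y - 9 / 10 * r) - NumUs.uu (400 / 10000) (y - 9 / 10 * r) - Real.pi * -(y - 9 / 10 * r))) < (958 / 10000 - 85 / 100 * r) := by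
  have h : chkT [sub (sub (q 958 10000) (mul (q 85 100) ZE.r)) (add (add (E.uu (add ZE.x ZE.s) (sub ZE.y ZE.h)) (add (E.uu (sub ZE.x ZE.s) (add ZE.y ZE.h)) (mul pi (neg (add ZE.y ZE.h))))) (add (neg (E.uu (add ZE.x (q 225 1000)) (add ZE.y (mul (q 9 10) ZE.r)))) (sub (sub (mul (sub (q 400 10000) (sub ZE.x (q 225 1000))) (E.lnA (q 400 10000) (sub ZE.y (mul (q 9 10) ZE.r)))) (E.uu (q 400 10000) (sub ZE.y (mul (q 9 10) ZE.r)))) (mul pi (sub ZE.y (mul (q 9 10) ZE.r)))))), sub (sub (q 958 10000) (mul (q 85 100) ZE.r)) (add (add (E.uu (add ZE.x ZE.s) (sub ZE.y ZE.h)) (add (E.uu (sub ZE.x ZE.s) (add ZE.y ZE.h)) (mul pi (neg (add ZE.y ZE.h))))) (add (neg (E.uu (add ZE.x (q 225 1000)) (add ZE.y (mul (q 9 10) ZE.r)))) (sub (sub (mul (sub (q 400 10000) (sub ZE.x (q 225 1000))) (E.lnA (q 400 10000) (sub ZE.y (mul (q 9 10) ZE.r)))) (E.uu (q 400 10000) (sub ZE.y (mul (q 9 10) ZE.r)))) (mul pi (neg (sub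 ZE.y (mul (q 9 10) ZE.r))))))), add (q 0 1) (add ZE.y ZE.h)] 60
    627601
    [NumIs.V.of 10000 2250 2650, NumIs.V.of 10000 (-1580) 0, NumIs.V.of 10000 200 500, NumIs.V.of 10000 0 1045] = true := by
    decide +kernel
  obtain ⟨f, hf, hp⟩ := chkT4 h (by norm_num) (x := x) (y := y) (z := s) (w := r)
    (by norm_num; linarith only [ua1]) (by norm_num; linarith only [ua2]) (by norm_num; linarith only [ua3]) (by norm_num; linarith only [ua4]) (by norm_num; linarith only [ua5]) (by norm_num; linarith only [ua6]) (by norm_num; linarith only [ua7]) (by norm_num; linarith only [ua8])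
  by_contra hc
  push Not at hc
  obtain ⟨hc0, hc1⟩ := hc
  simp only [List.mem_cons, List.not_mem_nil, or_false] at hf
  rcases hf with rfl | rfl | rfl
  · simp only [ZE.x, ZE.y, ZE.s, ZE.r, ZE.h, E.val, NumIs.lkR] at hp
    push_cast at hp
    linarith only [hc0, hp]
  · simp only [ZE.x, ZE.y, ZE.s, ZE.r, ZE.h, E.val, NumIs.lkR] at hp
    push_cast at hp
    linarith only [hc1, hp]
  · simp only [ZE.x, ZE.y, ZE.s, ZE.r, ZE.h, E.val, NumIs.lkR] at hp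
    push_cast at hp
    linarith only [ua9, hp]

theorem e1_mD4X4nB {x y s r : ℝ} (ua1 : 2650 / 10000 ≤ x) (ua2 : x ≤ 6000 / 10000) (ua3 : -(1580 / 10000) ≤ y) (ua4 : y ≤ 0 / 10000) (ua5 : 200 / 10000 ≤ s) (ua6 : s ≤ 500 / 10000) (ua7 : 0 / 10000 ≤ r) (ua8 : r ≤ 1045 / 10000) (ua9 : (y + 4 * (r * s)) ≤ 0) (ua10 : -y ≤ 545 / 1000 * (65 / 100 - x)) :
    NumUs.uu (x + s) (y - 4 * (r * s)) + (NumUs.uu (x - s) (y + 4 * (r * s)) + Real.pi * -(y + 4 * (r * s))) + (-NumUs.uu (x + 225 / 1000) (y + 9 / 10 * r) + -(NumUs.uu (x - 225 / 1000) (y - 9 / 10 * r) + Real.pi * (y - 9 / 10 * r))) < (958 / 10000 - 85 / 100 * r) ∨ NumUs.uu (x + s) (y - 4 * (r * s)) + (NumUs.uu (x - s) (y + 4 * (r * s)) + Real.pi * -(y + 4 * (r * s))) + (-NumUs.uu (x + 225 / 1000) (y + 9 / 10 * r) + -(NumUs.uu (x - 225 / 1000) (y - 9 / 10 * r) + Real.pi * -(y - 9 / 10 * r))) < (958 / 10000 - 85 / 100 * r) := by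
  have h : chkT [sub (sub (q 958 10000) (mul (q 85 100) ZE.r)) (add (add (E.uu (add ZE.x ZE.s) (sub ZE.y ZE.h)) (add (E.uu (sub ZE.x ZE.s) (add ZE.y ZE.h)) (mul pi (neg (add ZE.y ZE.h))))) (add (neg (E.uu (add ZE.x (q 225 1000)) (add ZE.y (mul (q 9 10) ZE.r)))) (neg (add (E.uu (sub ZE.x (q 225 1000)) (sub ZE.y (mul (q 9 10) ZE.r))) (mul pi (sub ZE.y (mul (q 9 10) ZE.r))))))), sub (sub (q 958 10000) (mul (q 85 100) ZE.r)) (add (add (E.uu (add ZE.x ZE.s) (sub ZE.y ZE.h)) (add (E.uu (sub ZE.x ZE.s) (add ZE.y ZE.h)) (mul pi (neg (add ZE.y ZE.h))))) (add (neg (E.uu (add ZE.x (q 225 1000)) (add ZE.y (mul (q 9 10) ZE.r)))) (neg (add (E.uu (sub ZE.x (q 225 1000)) (sub ZE.y (mul (q 9 10) ZE.r))) (mul pi (neg (sub ZE.y (mul (q 9 10) ZE.r)))))))), add (q 0 1) (add ZE.y ZE.h), sub (neg ZE.y) (mul (q 545 1000) (sub (q 65 100) ZE.x))] 60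
    11602922585921005313626368
    [NumIs.V.of 10000 2650 6000, NumIs.V.of 10000 (-1580) 0, NumIs.V.of 10000 200 500, NumIs.V.of 10000 0 1045] = true := by
    decide +kernel
  obtain ⟨f, hf, hp⟩ := chkT4 h (by norm_num) (x := x) (y := y) (z := s) (w := r)
    (by norm_num; linarith only [ua1]) (by norm_num; linarith only [ua2]) (by norm_num; linarith only [ua3]) (by norm_num; linarith only [ua4]) (by norm_num; linarith only [ua5]) (by norm_num; linarith only [ua6]) (by norm_num; linarith only [ua7]) (by norm_num; linarith only [ua8])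
  by_contra hc
  push Not at hc
  obtain ⟨hc0, hc1⟩ := hc
  simp only [List.mem_cons, List.not_mem_nil, or_false] at hf
  rcases hf with rfl | rfl | rfl | rfl
  · simp only [ZE.x, ZE.y, ZE.s, ZE.r, ZE.h, E.val, NumIs.lkR] at hp
    push_cast at hp
    linarith only [hc0, hp]
  · simp only [ZE.x, ZE.y, ZE.s, ZE.r, ZE.h, E.val, NumIs.lkR] at hp
    push_cast at hp
    linarith only [hc1, hp]
  · simp only [ZE.x, ZE.y, ZE.s, ZE.r, ZE.h, E.val, NumIs.lkR] at hp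
    push_cast at hp
    linarith only [ua9, hp]
  · simp only [ZE.x, ZE.y, ZE.s, ZE.r, ZE.h, E.val, NumIs.lkR] at hp
    push_cast at hp
    linarith only [ua10, hp]

theorem e1_mD4X4nY {x y s r : ℝ} (ua1 : 6000 / 10000 ≤ x) (ua2 : x ≤ 6500 / 10000) (ua3 : -(273 / 10000) ≤ y) (ua4 : y ≤ 0 / 10000) (ua5 : 200 / 10000 ≤ s) (ua6 : s ≤ 500 / 10000) (ua7 : 0 / 10000 ≤ r) (ua8 : r ≤ 1045 / 10000) (ua9 : (y + 4 * (r * s)) ≤ 0) (ua10 : -y ≤ 545 / 1000 * (65 / 100 - x)) :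
    NumUs.uu (x + s) (y - 4 * (r * s)) + (NumUs.uu (x - s) (y + 4 * (r * s)) + Real.pi * -(y + 4 * (r * s))) + (-NumUs.uu (x + 225 / 1000) (y + 9 / 10 * r) + -(NumUs.uu (x - 225 / 1000) (y - 9 / 10 * r) + Real.pi * (y - 9 / 10 * r))) < (958 / 10000 - 85 / 100 * r) ∨ NumUs.uu (x + s) (y - 4 * (r * s)) + (NumUs.uu (x - s) (y + 4 * (r * s)) + Real.pi * -(y + 4 * (r * s))) + (-NumUs.uu (x + 225 / 1000) (y + 9 / 10 * r) + -(NumUs.uu (x - 225 / 1000) (y - 9 / 10 * r) + Real.pi * -(y - 9 / 10 * r))) < (958 / 10000 - 85 / 100 * r) := by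
  have h : chkT [sub (sub (q 958 10000) (mul (q 85 100) ZE.r)) (add (add (E.uu (add ZE.x ZE.s) (sub ZE.y ZE.h)) (add (E.uu (sub ZE.x ZE.s) (add ZE.y ZE.h)) (mul pi (neg (add ZE.y ZE.h))))) (add (neg (E.uu (add ZE.x (q 225 1000)) (add ZE.y (mul (q 9 10) ZE.r)))) (neg (add (E.uu (sub ZE.x (q 225 1000)) (sub ZE.y (mul (q 9 10) ZE.r))) (mul pi (sub ZE.y (mul (q 9 10) ZE.r))))))), sub (sub (q 958 10000) (mul (q 85 100) ZE.r)) (add (add (E.uu (add ZE.x ZE.s) (sub ZE.y ZE.h)) (add (E.uu (sub ZE.x ZE.s) (add ZE.y ZE.h)) (mul pi (neg (add ZE.y ZE.h))))) (add (neg (E.uu (add ZE.x (q 225 1000)) (add ZE.y (mul (q 9 10) ZE.r)))) (neg (add (E.uu (sub ZE.x (q 225 1000)) (sub ZE.y (mul (q 9 10) ZE.r))) (mul pi (neg (sub ZE.y (mul (q 9 10) ZE.r)))))))), add (q 0 1) (add ZE.y ZE.h), sub (neg ZE.y) (mul (q 545 1000) (sub (q 65 100) ZE.x))] 60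
    10555311006515
    [NumIs.V.of 10000 6000 6500, NumIs.V.of 10000 (-273) 0, NumIs.V.of 10000 200 500, NumIs.V.of 10000 0 1045] = true := by
    decide +kernel
  obtain ⟨f, hf, hp⟩ := chkT4 h (by norm_num) (x := x) (y := y) (z := s) (w := r)
    (by norm_num; linarith only [ua1]) (by norm_num; linarith only [ua2]) (by norm_num; linarith only [ua1, ua10]) (by norm_num; linarith only [ua4]) (by norm_num; linarith only [ua5]) (by norm_num; linarith only [ua6]) (by norm_num; linarith only [ua7]) (by norm_num; linarith only [ua8])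
  by_contra hc
  push Not at hc
  obtain ⟨hc0, hc1⟩ := hc
  simp only [List.mem_cons, List.not_mem_nil, or_false] at hf
  rcases hf with rfl | rfl | rfl | rfl
  · simp only [ZE.x, ZE.y, ZE.s, ZE.r, ZE.h, E.val, NumIs.lkR] at hp
    push_cast at hp
    linarith only [hc0, hp]
  · simp only [ZE.x, ZE.y, ZE.s, ZE.r, ZE.h, E.val, NumIs.lkR] at hp
    push_cast at hp
    linarith only [hc1, hp]
  · simp only [ZE.x, ZE.y, ZE.s, ZE.r, ZE.h, E.val, NumIs.lkR] at hp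
    push_cast at hp
    linarith only [ua9, hp]
  · simp only [ZE.x, ZE.y, ZE.s, ZE.r, ZE.h, E.val, NumIs.lkR] at hp
    push_cast at hp
    linarith only [ua10, hp]

end ZD

end Pool.Agent.Work.MP_b30479_gtS.G2

end
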