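import Pool.Agent.Work.MP_b30479_gt.TBS.G2.VZ3X
import Pool.Agent.Work.MP_b30479_gt.TBS.G2.ZRe4E
import Pool.Agent.Work.MP_b30479_gt.TBS.G2.ZRe1A
import Pool.Agent.Work.MP_b30479_gt.TBS.G2.ZRe1A_3

section

/-!
# Part of `VZ3Y`
-/
namespace Pool.Agent.Work.MP_b30479_gtS.G2

open Finset VOL NumUs Filter Topology

namespace VL

namespace SZ3

open S0R (rS rF rN rui far_core near_le H_all)

variable {x T ρ σ s t : ℝ} {w ζ : ℂ}

theorem r_fec {x T p t : ℝ} (ua1 : 3000 / 10000 ≤ x) (ua2 : x ≤ 3400 / 10000)
    (ua3 : -7 / 10000 ≤ T) (ua4 : T ≤ 0) (ua5 : 3900 / 10000 ≤ p) (ua6 : p ≤ 4500 / 10000)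
    (ua7 : -1057 / 10000 ≤ t) (ua8 : t ≤ -150 / 10000) (ua9 : T - t ≤ 1050 / 10000)
    (ua10 : 73 / 100 ≤ x + p) (ua11 : x + p ≤ 75 / 100) :
    rS (10 / 3) x T p t < 355 / 1000 - 6 / 10 * x ∨
      rF (10 / 3) (80 / 100) (-98 / 10000) x T p t < 355 / 1000 - 6 / 10 * x := by
  obtain ⟨f, hf, hp⟩ := chkT4 k_fec (by norm_num) (x := x) (y := T) (z := p) (w := t)
    (by norm_num; linarith only [ua1]) (by norm_num; linarith only [ua2]) (by norm_num; linarith only [ua3])
    (by norm_num; linarith only [ua4]) (by norm_num; linarith only [ua5]) (by norm_num; linarith only [ua6])
    (by norm_num; linarith only [ua7]) (by norm_num; linarith only [ua8])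
  by_contra hc
  push Not at hc
  obtain ⟨hc0, hc1⟩ := hc
  simp only [List.mem_cons, List.not_mem_nil, or_false] at hf
  rcases hf with rfl | rfl | rfl | rfl | rfl <;>
  · simp only [S0R.EE.S_val, S0R.EE.F_val, S0R.EE.ui_val, S0R.EE.kT,
      S0R.EE.x, S0R.EE.T, S0R.EE.p, S0R.EE.t, S0R.EE.v, E.val, NumIs.lkR, eB1_val] at hp
    push_cast at hp
    linarith only [hc0, hp, hc1, ua9, ua10, ua11]

end SZ3

end VL

end Pool.Agent.Work.MP_b30479_gtS.G2

end

section

/-!
# Part of `ZRe1B`
-/
set_option linter.unusedSimpArgs false
set_option linter.unusedVariables false

namespace Pool.Agent.Work.MP_b30479_gtS.G2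

open VOL NumUs

namespace ZD

open NumUs.E ZE

theorem e1_mD1X1C {x y s r : ℝ} (ua1 : 0 / 10000 ≤ x) (ua2 : x ≤ 1600 / 10000) (ua3 : -(1580 / 10000) ≤ y) (ua4 : y ≤ 10 / 10000) (ua5 : 500 / 10000 ≤ s) (ua6 : s ≤ 2000 / 10000) (ua7 : 0 / 10000 ≤ r) (ua8 : r ≤ 1045 / 10000) (ua9 : x - s ≤ -(400 / 10000)) (ua10 : -y ≤ 158 / 100 * x) :
    NumUs.uu (x + s) (y - 4 * (r * s)) + NumUs.uu (1 + x - s) (y + 4 * (r * s)) + (-NumUs.uu (x + 225 / 1000) (y + 9 / 10 * r) + -NumUs.uu (x + 775 / 1000) (y - 9 / 10 * r)) < (958 / 10000 - 85 / 100 * r) := by
  have h : chkT [sub (sub (q 958 10000) (mul (q 85 100) ZE.r)) (add (add (E.uu (add ZE.x ZE.s) (sub ZE.y ZE.h)) (E.uu (sub (add (q 1 1) ZE.x) ZE.s) (add ZE.y ZE.h))) (add (neg (E.uu (add ZE.x (q 225 1000)) (add ZE.y (mul (q 9 10) ZE.r)))) (neg (E.uu (add ZE.x (q 775 1000)) (sub ZE.y (mul (q 9 10) ZE.r)))))), sub (sub ZE.x ZE.s) (q (-400) 10000), sub (neg ZE.y) (mul (q 158 100) ZE.x)] 60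
    534506746883240152788970912752878775289091713889189378500015620044498028415685775551034693131654677758708370029878306591126968442688756973409901171519338105190058523303681123851100332244163341133517906669522735875872965220671253093628996775698363416922583883182569839382112447140842384885344402925754059463545823309726534057670283362869091264520326082868332709607779317785017835754947729456568343600682345327913294166530381777807467672490551570163888252327716785527159853601477115319741001311373512589846682015881313841849586952090408357256917922705073685135411233435334148600585899304212350997100667868043751264932385855174574140333363785691716345399793998350257138325544459897109524413495264107168032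
    [NumIs.V.of 10000 0 1600, NumIs.V.of 10000 (-1580) 10, NumIs.V.of 10000 500 2000, NumIs.V.of 10000 0 1045] = true :=
      Pool.Agent.Work.NumUs.chkT_of (Pool.Agent.Work.NumUs.runT_split rfl rfl rfl
        (Pool.Agent.Work.NumUs.runT_split rfl rfl rfl
          e1_mD1X1C_h1_q1
          e1_mD1X1C_h1_q2)
        (Pool.Agent.Work.NumUs.runT_split rfl rfl rfl
          e1_mD1X1C_h1_q3
          e1_mD1X1C_h1_q4))
  obtain ⟨f, hf, hp⟩ := chkT4 h (by norm_num) (x := x) (y := y) (z := s) (w := r)
    (by norm_num; linarith only [ua1]) (by norm_num; linarith only [ua2]) (by norm_num; linarith only [ua3]) (by norm_num; linarith only [ua4]) (by norm_num; linarith only [ua5]) (by norm_num; linarith only [ua6]) (by norm_num; linarith only [ua7]) (by norm_num; linarith only [ua8])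
  by_contra hc
  push Not at hc
  simp only [List.mem_cons, List.not_mem_nil, or_false] at hf
  rcases hf with rfl | rfl | rfl
  · simp only [ZE.x, ZE.y, ZE.s, ZE.r, ZE.h, E.val, NumIs.lkR] at hp
    push_cast at hp
    linarith only [hc, hp]
  · simp only [ZE.x, ZE.y, ZE.s, ZE.r, ZE.h, E.val, NumIs.lkR] at hp
    push_cast at hp
    linarith only [ua9, hp]
  · simp only [ZE.x, ZE.y, ZE.s, ZE.r, ZE.h, E.val, NumIs.lkR] at hp
    push_cast at hp
    linarith only [ua10, hp]

end ZD

end Pool.Agent.Work.MP_b30479_gtS.G2

end

section

/-!
# The loss at a hinge next to a ring: right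
-/

set_option linter.unusedSimpArgs false
set_option linter.unusedVariables false

namespace Pool.Agent.Work.MP_b30479_gtS.G2

open VOL NumUs

namespace ZD

theorem e1_m {x y s r : ℝ} (x0 : 0 ≤ x) (x1 : x ≤ 65 / 100) (y0 : -(158 / 1000) ≤ y)
    (y1 : y ≤ 1 / 1000) (hy : y ≤ 0 ∨ x ≤ 60 / 100) (c0 : -y ≤ 545 / 1000 * (65 / 100 - x))
    (b0 : -y ≤ 158 / 100 * x) (s0 : 0 ≤ s) (s1 : s ≤ 1 / 5) (r0 : 0 ≤ r)
    (r1 : r ≤ 1045 / 10000) : uu (x + s) (y - 4 * (r * s)) + uu (1 + x - s) (y + 4 * (r * s)) +
      (-uu (x + 225 / 1000) (y + 9 / 10 * r) + -uu (x + 775 / 1000) (y - 9 / 10 * r)) ≤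
      (958 / 10000 - 85 / 100 * r) := by
  have hrs : 0 ≤ r * s := mul_nonneg r0 s0
  rcases le_or_gt s (200 / 10000) with v | v
  · rcases le_or_gt x (1500 / 10000) with w | w
    · exact zoneAm x0 w y0 y1 b0 s0 v r0 r1
    rcases le_or_gt (y + 4 * (r * s)) 0 with f | f
    · rcases le_or_gt x (1850 / 10000) with g | g
      · have T := e1_mD4X1nA (x := x) (y := y) (s := s) (r := r) (by linarith only [w]) (by linarith only [g]) (by linarith only [y0]) (by linarith only [hrs, f]) (by linarith only [s0]) (by linarith only [v]) (by linarith only [r0]) (by linarith only [r1]) (by linarith only [f])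
        have t2 := d4n (x := x) (s := s) (b := (y + 4 * (r * s))) (by linarith only [f])
        linarith only [T, t2]
      · rcases le_or_gt x (2250 / 10000) with g | g
        · have T := e1_mD4X2nA (x := x) (y := y) (s := s) (r := r) (by linarith) (by linarith only [g]) (by linarith only [y0]) (by linarith only [hrs, f]) (by linarith only [s0]) (by linarith only [v]) (by linarith only [r0]) (by linarith only [r1]) (by linarith only [f])
          have t2 := d4n (x := x) (s := s) (b := (y + 4 * (r * s))) (by linarith only [f])
          have u0 := x2 (x := x) (c := (y - 9 / 10 * r)) (c' := (y - 9 / 10 * r)) (δ := (400 / 10000)) (K := (25 / 1)) (le_abs_self _) (by norm_num) (by norm_num) (by norm_num) (by linarith only [g]) (by linarith)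
          have u1 := x2 (x := x) (c := (y - 9 / 10 * r)) (c' := (-(y - 9 / 10 * r))) (δ := (400 / 10000)) (K := (25 / 1)) (neg_le_abs _) (by norm_num) (by norm_num) (by norm_num) (by linarith only [g]) (by linarith)
          rcases T with T | T <;> linarith only [t2, u0, T, u1]
        · rcases le_or_gt x (2650 / 10000) with g | g
          · have T := e1_mD4X3nA (x := x) (y := y) (s := s) (r := r) (by linarith) (by linarith only [g]) (by linarith only [y0]) (by linarith only [hrs, f]) (by linarith only [s0]) (by linarith only [v]) (by linarith only [r0]) (by linarith only [r1]) (by linarith only [f])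
            have t2 := d4n (x := x) (s := s) (b := (y + 4 * (r * s))) (by linarith only [f])
            have u0 := x3 (x := x) (c := (y - 9 / 10 * r)) (c' := (y - 9 / 10 * r)) (δ := (400 / 10000)) (le_abs_self _) (by norm_num) (by norm_num) (by linarith) (by linarith only [g])
            have u1 := x3 (x := x) (c := (y - 9 / 10 * r)) (c' := (-(y - 9 / 10 * r))) (δ := (400 / 10000)) (neg_le_abs _) (by norm_num) (by norm_num) (by linarith) (by linarith only [g])
            rcases T with T | T <;> linarith only [t2, u0, T, u1]
          · rcases le_or_gt x (6000 / 10000) with g | g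
            · have T := e1_mD4X4nA (x := x) (y := y) (s := s) (r := r) (by linarith) (by linarith only [g]) (by linarith only [y0]) (by linarith only [hrs, f]) (by linarith only [s0]) (by linarith only [v]) (by linarith only [r0]) (by linarith only [r1]) (by linarith only [f]) (by linarith only [c0])
              have t2 := d4n (x := x) (s := s) (b := (y + 4 * (r * s))) (by linarith only [f])
              have u0 := x4 (x := x) (c := (y - 9 / 10 * r)) (c' := (y - 9 / 10 * r)) (le_abs_self _)
              have u1 := x4 (x := x) (c := (y - 9 / 10 * r)) (c' := (-(y - 9 / 10 * r))) (neg_le_abs _)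
              rcases T with T | T <;> linarith only [t2, u0, T, u1]
            · have y3 : y ≤ 0 := by
                rcases hy with h | h
                · exact h
                · linarith only [g, h]
              have T := e1_mD4X4nZ (x := x) (y := y) (s := s) (r := r) (by linarith only [g]) (by linarith only [x1]) (by linarith only [x1, c0, g]) (by linarith only [hrs, f]) (by linarith only [s0]) (by linarith only [v]) (by linarith only [r0]) (by linarith only [r1]) (by linarith only [f]) (by linarith only [c0])
              have t2 := d4n (x := x) (s := s) (b := (y + 4 * (r * s))) (by linarith only [f])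
              have u0 := x4 (x := x) (c := (y - 9 / 10 * r)) (c' := (y - 9 / 10 * r)) (le_abs_self _)
              have u1 := x4 (x := x) (c := (y - 9 / 10 * r)) (c' := (-(y - 9 / 10 * r))) (neg_le_abs _)
              rcases T with T | T <;> linarith only [t2, u0, T, u1]
    · rcases le_or_gt x (1850 / 10000) with g | g
      · have T := e1_mD4X1pA (x := x) (y := y) (s := s) (r := r) (by linarith only [w]) (by linarith only [g]) (by linarith only [y0]) (by linarith only [y1]) (by linarith only [s0]) (by linarith only [v]) (by linarith only [r0]) (by linarith only [r1]) (by linarith only [f])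
        have t2 := d4p (x := x) (s := s) (b := (y + 4 * (r * s))) (by linarith only [f])
        linarith only [T, t2]
      · rcases le_or_gt x (2250 / 10000) with g | g
        · have T := e1_mD4X2pA (x := x) (y := y) (s := s) (r := r) (by linarith) (by linarith only [g]) (by linarith only [y0]) (by linarith only [y1]) (by linarith only [s0]) (by linarith only [v]) (by linarith only [r0]) (by linarith only [r1]) (by linarith only [f])
          have t2 := d4p (x := x) (s := s) (b := (y + 4 * (r * s))) (by linarith only [f])
          have u0 := x2 (x := x) (c := (y - 9 / 10 * r)) (c' := (y - 9 / 10 * r)) (δ := (400 / 10000)) (K := (25 / 1)) (le_abs_self _) (by norm_num) (by norm_num) (by norm_num) (by linarith only [g]) (by linarith)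
          have u1 := x2 (x := x) (c := (y - 9 / 10 * r)) (c' := (-(y - 9 / 10 * r))) (δ := (400 / 10000)) (K := (25 / 1)) (neg_le_abs _) (by norm_num) (by norm_num) (by norm_num) (by linarith only [g]) (by linarith)
          rcases T with T | T <;> linarith only [t2, u0, T, u1]
        · rcases le_or_gt x (2650 / 10000) with g | g
          · have T := e1_mD4X3pA (x := x) (y := y) (s := s) (r := r) (by linarith) (by linarith only [g]) (by linarith only [y0]) (by linarith only [y1]) (by linarith only [s0]) (by linarith only [v]) (by linarith only [r0]) (by linarith only [r1]) (by linarith only [f])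
            have t2 := d4p (x := x) (s := s) (b := (y + 4 * (r * s))) (by linarith only [f])
            have u0 := x3 (x := x) (c := (y - 9 / 10 * r)) (c' := (y - 9 / 10 * r)) (δ := (400 / 10000)) (le_abs_self _) (by norm_num) (by norm_num) (by linarith) (by linarith only [g])
            have u1 := x3 (x := x) (c := (y - 9 / 10 * r)) (c' := (-(y - 9 / 10 * r))) (δ := (400 / 10000)) (neg_le_abs _) (by norm_num) (by norm_num) (by linarith) (by linarith only [g])
            rcases T with T | T <;> linarith only [t2, u0, T, u1]
          · rcases le_or_gt x (6000 / 10000) with g | g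
            · have T := e1_mD4X4pA (x := x) (y := y) (s := s) (r := r) (by linarith) (by linarith only [g]) (by linarith only [y0]) (by linarith only [y1]) (by linarith only [s0]) (by linarith only [v]) (by linarith only [r0]) (by linarith only [r1]) (by linarith only [f]) (by linarith only [c0])
              have t2 := d4p (x := x) (s := s) (b := (y + 4 * (r * s))) (by linarith only [f])
              have u0 := x4 (x := x) (c := (y - 9 / 10 * r)) (c' := (y - 9 / 10 * r)) (le_abs_self _)
              have u1 := x4 (x := x) (c := (y - 9 / 10 * r)) (c' := (-(y - 9 / 10 * r))) (neg_le_abs _)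
              rcases T with T | T <;> linarith only [t2, u0, T, u1]
            · have y3 : y ≤ 0 := by
                rcases hy with h | h
                · exact h
                · linarith only [g, h]
              have T := e1_mD4X4pW (x := x) (y := y) (s := s) (r := r) (by linarith only [g]) (by linarith only [x1]) (by linarith only [x1, c0, g]) (by linarith only [y3]) (by linarith only [s0]) (by linarith only [s1]) (by linarith only [r0]) (by linarith only [r1]) (by linarith only [f]) (by linarith only [c0])
              have t2 := d4p (x := x) (s := s) (b := (y + 4 * (r * s))) (by linarith only [f])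
              have u0 := x4 (x := x) (c := (y - 9 / 10 * r)) (c' := (y - 9 / 10 * r)) (le_abs_self _)
              have u1 := x4 (x := x) (c := (y - 9 / 10 * r)) (c' := (-(y - 9 / 10 * r))) (neg_le_abs _)
              rcases T with T | T <;> linarith only [t2, u0, T, u1]
  rcases le_or_gt s (500 / 10000) with v' | v'
  · rcases le_or_gt (x - s) (-(200 / 10000)) with d | d
    · have T := e1_mD1X1B (x := x) (y := y) (s := s) (r := r) (by linarith only [x0]) (by linarith only [v', d]) (by linarith only [b0, v', d]) (by linarith only [y1]) (by linarith only [v]) (by linarith only [v']) (by linarith only [r0]) (by linarith only [r1]) (by linarith only [d]) (by linarith only [b0])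
      linarith only [T]
    rcases le_or_gt (x - s) 0 with d' | d'
    · have T := e1_mD2X1B (x := x) (y := y) (s := s) (r := r) (by linarith only [x0]) (by linarith only [v', d']) (by linarith only [b0, v', d']) (by linarith only [y1]) (by linarith only [v]) (by linarith only [v']) (by linarith only [r0]) (by linarith only [r1]) (by linarith only [d]) (by linarith only [d']) (by linarith only [b0])
      have t2 := d2 (x := x) (s := s) (b := (y + 4 * (r * s))) (δ := (200 / 10000)) (by norm_num) (by norm_num) (by linarith only [d]) (by linarith only [d'])
      linarith only [T, t2]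
    rcases le_or_gt (x - s) (200 / 10000) with e | e
    · rcases le_or_gt (y + 4 * (r * s)) 0 with f | f
      · have T := e1_mD3X1nB (x := x) (y := y) (s := s) (r := r) (by linarith only [v, d']) (by linarith only [v', e]) (by linarith only [b0, v', d', e]) (by linarith only [hrs, f]) (by linarith only [v]) (by linarith only [v']) (by linarith only [r0]) (by linarith only [r1]) (by linarith only [d']) (by linarith only [e]) (by linarith only [f]) (by linarith only [b0])
        have t2 := d3n (x := x) (s := s) (b := (y + 4 * (r * s))) (δ := (200 / 10000)) (K := (50 / 1)) (by linarith only [f]) (by norm_num) (by norm_num) (by norm_num) (by linarith only [d']) (by linarith only [e])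
        linarith only [T, t2]
      · have T := e1_mD3X1pB (x := x) (y := y) (s := s) (r := r) (by linarith only [v, d']) (by linarith only [v', e]) (by linarith only [b0, v', d', e]) (by linarith only [y1]) (by linarith only [v]) (by linarith only [v']) (by linarith only [r0]) (by linarith only [r1]) (by linarith only [d']) (by linarith only [e]) (by linarith only [f]) (by linarith only [b0])
        have t2 := d3p (x := x) (s := s) (b := (y + 4 * (r * s))) (δ := (200 / 10000)) (K := (50 / 1)) (by linarith only [f]) (by norm_num) (by norm_num) (by norm_num) (by linarith only [d']) (by linarith only [e])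
        linarith only [T, t2]
    rcases le_or_gt (y + 4 * (r * s)) 0 with f | f
    · rcases le_or_gt x (1850 / 10000) with g | g
      · have T := e1_mD4X1nB (x := x) (y := y) (s := s) (r := r) (by linarith only [v, e]) (by linarith only [g]) (by linarith only [y0]) (by linarith only [hrs, f]) (by linarith only [v]) (by linarith only [v']) (by linarith only [r0]) (by linarith only [r1]) (by linarith only [e]) (by linarith only [f]) (by linarith only [b0])
        have t2 := d4n (x := x) (s := s) (b := (y + 4 * (r * s))) (by linarith only [f])
        linarith only [T, t2]
      · rcases le_or_gt x (2250 / 10000) with g | g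
        · have T := e1_mD4X2nB (x := x) (y := y) (s := s) (r := r) (by linarith) (by linarith only [g]) (by linarith only [y0]) (by linarith only [hrs, f]) (by linarith only [v]) (by linarith only [v']) (by linarith only [r0]) (by linarith only [r1]) (by linarith only [f])
          have t2 := d4n (x := x) (s := s) (b := (y + 4 * (r * s))) (by linarith only [f])
          have u0 := x2 (x := x) (c := (y - 9 / 10 * r)) (c' := (y - 9 / 10 * r)) (δ := (400 / 10000)) (K := (25 / 1)) (le_abs_self _) (by norm_num) (by norm_num) (by norm_num) (by linarith only [g]) (by linarith)
          have u1 := x2 (x := x) (c := (y - 9 / 10 * r)) (c' := (-(y - 9 / 10 * r))) (δ := (400 / 10000)) (K := (25 / 1)) (neg_le_abs _) (by norm_num) (by norm_num) (by norm_num) (by linarith only [g]) (by linarith)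
          rcases T with T | T <;> linarith only [t2, u0, T, u1]
        · rcases le_or_gt x (2650 / 10000) with g | g
          · have T := e1_mD4X3nB (x := x) (y := y) (s := s) (r := r) (by linarith) (by linarith only [g]) (by linarith only [y0]) (by linarith only [hrs, f]) (by linarith only [v]) (by linarith only [v']) (by linarith only [r0]) (by linarith only [r1]) (by linarith only [f])
            have t2 := d4n (x := x) (s := s) (b := (y + 4 * (r * s))) (by linarith only [f])
            have u0 := x3 (x := x) (c := (y - 9 / 10 * r)) (c' := (y - 9 / 10 * r)) (δ := (400 / 10000)) (le_abs_self _) (by norm_num) (by norm_num) (by linarith) (by linarith only [g])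
            have u1 := x3 (x := x) (c := (y - 9 / 10 * r)) (c' := (-(y - 9 / 10 * r))) (δ := (400 / 10000)) (neg_le_abs _) (by norm_num) (by norm_num) (by linarith) (by linarith only [g])
            rcases T with T | T <;> linarith only [t2, u0, T, u1]
          · rcases le_or_gt x (6000 / 10000) with g | g
            · have T := e1_mD4X4nB (x := x) (y := y) (s := s) (r := r) (by linarith) (by linarith only [g]) (by linarith only [y0]) (by linarith only [hrs, f]) (by linarith only [v]) (by linarith only [v']) (by linarith only [r0]) (by linarith only [r1]) (by linarith only [f]) (by linarith only [c0])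
              have t2 := d4n (x := x) (s := s) (b := (y + 4 * (r * s))) (by linarith only [f])
              have u0 := x4 (x := x) (c := (y - 9 / 10 * r)) (c' := (y - 9 / 10 * r)) (le_abs_self _)
              have u1 := x4 (x := x) (c := (y - 9 / 10 * r)) (c' := (-(y - 9 / 10 * r))) (neg_le_abs _)
              rcases T with T | T <;> linarith only [t2, u0, T, u1]
            · have y3 : y ≤ 0 := by
                rcases hy with h | h
                · exact h
                · linarith only [g, h]
              have T := e1_mD4X4nY (x := x) (y := y) (s := s) (r := r) (by linarith only [g]) (by linarith only [x1]) (by linarith only [x1, c0, g]) (by linarith only [hrs, f]) (by linarith only [v]) (by linarith only [v']) (by linarith only [r0]) (by linarith only [r1]) (by linarith only [f]) (by linarith only [c0])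
              have t2 := d4n (x := x) (s := s) (b := (y + 4 * (r * s))) (by linarith only [f])
              have u0 := x4 (x := x) (c := (y - 9 / 10 * r)) (c' := (y - 9 / 10 * r)) (le_abs_self _)
              have u1 := x4 (x := x) (c := (y - 9 / 10 * r)) (c' := (-(y - 9 / 10 * r))) (neg_le_abs _)
              rcases T with T | T <;> linarith only [t2, u0, T, u1]
    · rcases le_or_gt x (1850 / 10000) with g | g
      · have T := e1_mD4X1pB (x := x) (y := y) (s := s) (r := r) (by linarith only [v, e]) (by linarith only [g]) (by linarith only [y0]) (by linarith only [y1]) (by linarith only [v]) (by linarith only [v']) (by linarith only [r0]) (by linarith only [r1]) (by linarith only [e]) (by linarith only [f]) (by linarith only [b0])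
        have t2 := d4p (x := x) (s := s) (b := (y + 4 * (r * s))) (by linarith only [f])
        linarith only [T, t2]
      · rcases le_or_gt x (2250 / 10000) with g | g
        · have T := e1_mD4X2pB (x := x) (y := y) (s := s) (r := r) (by linarith) (by linarith only [g]) (by linarith only [y0]) (by linarith only [y1]) (by linarith only [v]) (by linarith only [v']) (by linarith only [r0]) (by linarith only [r1]) (by linarith only [f])
          have t2 := d4p (x := x) (s := s) (b := (y + 4 * (r * s))) (by linarith only [f])
          have u0 := x2 (x := x) (c := (y - 9 / 10 * r)) (c' := (y - 9 / 10 * r)) (δ := (400 / 10000)) (K := (25 / 1)) (le_abs_self _) (by norm_num) (by norm_num) (by norm_num) (by linarith only [g]) (by linarith)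
          have u1 := x2 (x := x) (c := (y - 9 / 10 * r)) (c' := (-(y - 9 / 10 * r))) (δ := (400 / 10000)) (K := (25 / 1)) (neg_le_abs _) (by norm_num) (by norm_num) (by norm_num) (by linarith only [g]) (by linarith)
          rcases T with T | T <;> linarith only [t2, u0, T, u1]
        · rcases le_or_gt x (2650 / 10000) with g | g
          · have T := e1_mD4X3pB (x := x) (y := y) (s := s) (r := r) (by linarith) (by linarith only [g]) (by linarith only [y0]) (by linarith only [y1]) (by linarith only [v]) (by linarith only [v']) (by linarith only [r0]) (by linarith only [r1]) (by linarith only [f])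
            have t2 := d4p (x := x) (s := s) (b := (y + 4 * (r * s))) (by linarith only [f])
            have u0 := x3 (x := x) (c := (y - 9 / 10 * r)) (c' := (y - 9 / 10 * r)) (δ := (400 / 10000)) (le_abs_self _) (by norm_num) (by norm_num) (by linarith) (by linarith only [g])
            have u1 := x3 (x := x) (c := (y - 9 / 10 * r)) (c' := (-(y - 9 / 10 * r))) (δ := (400 / 10000)) (neg_le_abs _) (by norm_num) (by norm_num) (by linarith) (by linarith only [g])
            rcases T with T | T <;> linarith only [t2, u0, T, u1]
          · rcases le_or_gt x (6000 / 10000) with g | g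
            · have T := e1_mD4X4pB (x := x) (y := y) (s := s) (r := r) (by linarith) (by linarith only [g]) (by linarith only [y0]) (by linarith only [y1]) (by linarith only [v]) (by linarith only [v']) (by linarith only [r0]) (by linarith only [r1]) (by linarith only [f]) (by linarith only [c0])
              have t2 := d4p (x := x) (s := s) (b := (y + 4 * (r * s))) (by linarith only [f])
              have u0 := x4 (x := x) (c := (y - 9 / 10 * r)) (c' := (y - 9 / 10 * r)) (le_abs_self _)
              have u1 := x4 (x := x) (c := (y - 9 / 10 * r)) (c' := (-(y - 9 / 10 * r))) (neg_le_abs _)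
              rcases T with T | T <;> linarith only [t2, u0, T, u1]
            · have y3 : y ≤ 0 := by
                rcases hy with h | h
                · exact h
                · linarith only [g, h]
              have T := e1_mD4X4pW (x := x) (y := y) (s := s) (r := r) (by linarith only [g]) (by linarith only [x1]) (by linarith only [x1, c0, g]) (by linarith only [y3]) (by linarith only [s0]) (by linarith only [x1, v', g]) (by linarith only [r0]) (by linarith only [r1]) (by linarith only [f]) (by linarith only [c0])
              have t2 := d4p (x := x) (s := s) (b := (y + 4 * (r * s))) (by linarith only [f])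
              have u0 := x4 (x := x) (c := (y - 9 / 10 * r)) (c' := (y - 9 / 10 * r)) (le_abs_self _)
              have u1 := x4 (x := x) (c := (y - 9 / 10 * r)) (c' := (-(y - 9 / 10 * r))) (neg_le_abs _)
              rcases T with T | T <;> linarith only [t2, u0, T, u1]
  rcases le_or_gt (x - s) (-(400 / 10000)) with d | d
  · have T := e1_mD1X1C (x := x) (y := y) (s := s) (r := r) (by linarith only [x0]) (by linarith only [s1, d]) (by linarith only [y0]) (by linarith only [y1]) (by linarith only [v']) (by linarith only [s1]) (by linarith only [r0]) (by linarith only [r1]) (by linarith only [d]) (by linarith only [b0])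
    linarith only [T]
  rcases le_or_gt (x - s) 0 with d' | d'
  · rcases le_or_gt x (1850 / 10000) with g | g
    · have T := e1_mD2X1C (x := x) (y := y) (s := s) (r := r) (by linarith only [v', d]) (by linarith only [g]) (by linarith only [y0]) (by linarith only [y1]) (by linarith only [v']) (by linarith only [s1]) (by linarith only [r0]) (by linarith only [r1]) (by linarith only [d]) (by linarith only [d']) (by linarith only [b0])
      have t2 := d2 (x := x) (s := s) (b := (y + 4 * (r * s))) (δ := (400 / 10000)) (by norm_num) (by norm_num) (by linarith only [d]) (by linarith only [d'])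
      linarith only [T, t2]
    · have T := e1_mD2X2C (x := x) (y := y) (s := s) (r := r) (by linarith only [g]) (by linarith only [s1, d']) (by linarith only [y0]) (by linarith only [y1]) (by linarith only [d', g]) (by linarith only [s1]) (by linarith only [r0]) (by linarith only [r1]) (by linarith only [s1, g]) (by linarith only [d'])
      have t2 := d2 (x := x) (s := s) (b := (y + 4 * (r * s))) (δ := (400 / 10000)) (by norm_num) (by norm_num) (by linarith only [s1, g]) (by linarith only [d'])
      have u0 := x2 (x := x) (c := (y - 9 / 10 * r)) (c' := (y - 9 / 10 * r)) (δ := (400 / 10000)) (K := (25 / 1)) (le_abs_self _) (by norm_num) (by norm_num) (by norm_num) (by linarith only [s1, d']) (by linarith only [g])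
      have u1 := x2 (x := x) (c := (y - 9 / 10 * r)) (c' := (-(y - 9 / 10 * r))) (δ := (400 / 10000)) (K := (25 / 1)) (neg_le_abs _) (by norm_num) (by norm_num) (by norm_num) (by linarith only [s1, d']) (by linarith only [g])
      rcases T with T | T <;> linarith only [t2, u0, T, u1]
  rcases le_or_gt (x - s) (400 / 10000) with e | e
  · rcases le_or_gt (y + 4 * (r * s)) 0 with f | f
    · rcases le_or_gt x (1850 / 10000) with g | g
      · have T := e1_mD3X1nC (x := x) (y := y) (s := s) (r := r) (by linarith only [v', d']) (by linarith only [g]) (by linarith only [y0]) (by linarith only [hrs, f]) (by linarith only [v']) (by linarith only [d', g]) (by linarith only [r0]) (by linarith only [r1]) (by linarith only [d']) (by linarith only [e]) (by linarith only [f]) (by linarith only [b0])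
        have t2 := d3n (x := x) (s := s) (b := (y + 4 * (r * s))) (δ := (400 / 10000)) (K := (25 / 1)) (by linarith only [f]) (by norm_num) (by norm_num) (by norm_num) (by linarith only [d']) (by linarith only [e])
        linarith only [T, t2]
      · rcases le_or_gt x (2250 / 10000) with g | g
        · have T := e1_mD3X2nC (x := x) (y := y) (s := s) (r := r) (by linarith) (by linarith only [g]) (by linarith only [y0]) (by linarith only [hrs, f]) (by linarith) (by linarith only [s1]) (by linarith only [r0]) (by linarith only [r1]) (by linarith only [d']) (by linarith only [e]) (by linarith only [f])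
          have t2 := d3n (x := x) (s := s) (b := (y + 4 * (r * s))) (δ := (400 / 10000)) (K := (25 / 1)) (by linarith only [f]) (by norm_num) (by norm_num) (by norm_num) (by linarith only [d']) (by linarith only [e])
          have u0 := x2 (x := x) (c := (y - 9 / 10 * r)) (c' := (y - 9 / 10 * r)) (δ := (400 / 10000)) (K := (25 / 1)) (le_abs_self _) (by norm_num) (by norm_num) (by norm_num) (by linarith only [g]) (by linarith)
          have u1 := x2 (x := x) (c := (y - 9 / 10 * r)) (c' := (-(y - 9 / 10 * r))) (δ := (400 / 10000)) (K := (25 / 1)) (neg_le_abs _) (by norm_num) (by norm_num) (by norm_num) (by linarith only [g]) (by linarith)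
          rcases T with T | T <;> linarith only [t2, u0, T, u1]
        · have T := e1_mD3X3nC (x := x) (y := y) (s := s) (r := r) (by linarith only [g]) (by linarith only [s1, e]) (by linarith only [y0]) (by linarith only [hrs, f]) (by linarith only [e, g]) (by linarith only [s1]) (by linarith only [r0]) (by linarith only [r1]) (by linarith only [d']) (by linarith only [e]) (by linarith only [f])
          have t2 := d3n (x := x) (s := s) (b := (y + 4 * (r * s))) (δ := (400 / 10000)) (K := (25 / 1)) (by linarith only [f]) (by norm_num) (by norm_num) (by norm_num) (by linarith only [d']) (by linarith only [e])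
          have u0 := x3 (x := x) (c := (y - 9 / 10 * r)) (c' := (y - 9 / 10 * r)) (δ := (400 / 10000)) (le_abs_self _) (by norm_num) (by norm_num) (by linarith only [g]) (by linarith only [s1, d', e])
          have u1 := x3 (x := x) (c := (y - 9 / 10 * r)) (c' := (-(y - 9 / 10 * r))) (δ := (400 / 10000)) (neg_le_abs _) (by norm_num) (by norm_num) (by linarith only [g]) (by linarith only [s1, d', e])
          rcases T with T | T <;> linarith only [t2, u0, T, u1]
    · rcases le_or_gt x (1850 / 10000) with g | g
      · have T := e1_mD3X1pC (x := x) (y := y) (s := s) (r := r) (by linarith only [v', d']) (by linarith only [g]) (by linarith only [y0]) (by linarith only [y1]) (by linarith only [v']) (by linarith only [d', g]) (by linarith only [r0]) (by linarith only [r1]) (by linarith only [d']) (by linarith only [e]) (by linarith only [f]) (by linarith only [b0])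
        have t2 := d3p (x := x) (s := s) (b := (y + 4 * (r * s))) (δ := (400 / 10000)) (K := (25 / 1)) (by linarith only [f]) (by norm_num) (by norm_num) (by norm_num) (by linarith only [d']) (by linarith only [e])
        linarith only [T, t2]
      · rcases le_or_gt x (2250 / 10000) with g | g
        · have T := e1_mD3X2pC (x := x) (y := y) (s := s) (r := r) (by linarith) (by linarith only [g]) (by linarith only [y0]) (by linarith only [y1]) (by linarith) (by linarith only [s1]) (by linarith only [r0]) (by linarith only [r1]) (by linarith only [d']) (by linarith only [e]) (by linarith only [f])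
          have t2 := d3p (x := x) (s := s) (b := (y + 4 * (r * s))) (δ := (400 / 10000)) (K := (25 / 1)) (by linarith only [f]) (by norm_num) (by norm_num) (by norm_num) (by linarith only [d']) (by linarith only [e])
          have u0 := x2 (x := x) (c := (y - 9 / 10 * r)) (c' := (y - 9 / 10 * r)) (δ := (400 / 10000)) (K := (25 / 1)) (le_abs_self _) (by norm_num) (by norm_num) (by norm_num) (by linarith only [g]) (by linarith)
          have u1 := x2 (x := x) (c := (y - 9 / 10 * r)) (c' := (-(y - 9 / 10 * r))) (δ := (400 / 10000)) (K := (25 / 1)) (neg_le_abs _) (by norm_num) (by norm_num) (by norm_num) (by linarith only [g]) (by linarith)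
          rcases T with T | T <;> linarith only [t2, u0, T, u1]
        · have T := e1_mD3X3pC (x := x) (y := y) (s := s) (r := r) (by linarith only [g]) (by linarith only [s1, e]) (by linarith only [y0]) (by linarith only [y1]) (by linarith only [e, g]) (by linarith only [s1]) (by linarith only [r0]) (by linarith only [r1]) (by linarith only [d']) (by linarith only [e]) (by linarith only [f])
          have t2 := d3p (x := x) (s := s) (b := (y + 4 * (r * s))) (δ := (400 / 10000)) (K := (25 / 1)) (by linarith only [f]) (by norm_num) (by norm_num) (by norm_num) (by linarith only [d']) (by linarith only [e])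
          have u0 := x3 (x := x) (c := (y - 9 / 10 * r)) (c' := (y - 9 / 10 * r)) (δ := (400 / 10000)) (le_abs_self _) (by norm_num) (by norm_num) (by linarith only [g]) (by linarith only [s1, d', e])
          have u1 := x3 (x := x) (c := (y - 9 / 10 * r)) (c' := (-(y - 9 / 10 * r))) (δ := (400 / 10000)) (neg_le_abs _) (by norm_num) (by norm_num) (by linarith only [g]) (by linarith only [s1, d', e])
          rcases T with T | T <;> linarith only [t2, u0, T, u1]
  rcases le_or_gt (y + 4 * (r * s)) 0 with f | f
  · rcases le_or_gt x (1850 / 10000) with g | g
    · have T := e1_mD4X1nC (x := x) (y := y) (s := s) (r := r) (by linarith only [v', e]) (by linarith only [g]) (by linarith only [y0]) (by linarith only [hrs, f]) (by linarith only [v']) (by linarith only [e, g]) (by linarith only [r0]) (by linarith only [r1]) (by linarith only [e]) (by linarith only [f]) (by linarith only [b0])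
      have t2 := d4n (x := x) (s := s) (b := (y + 4 * (r * s))) (by linarith only [f])
      linarith only [T, t2]
    · rcases le_or_gt x (2250 / 10000) with g | g
      · have T := e1_mD4X2nC (x := x) (y := y) (s := s) (r := r) (by linarith) (by linarith only [g]) (by linarith only [y0]) (by linarith only [hrs, f]) (by linarith only [v']) (by linarith only [e, g]) (by linarith only [r0]) (by linarith only [r1]) (by linarith only [e]) (by linarith only [f])
        have t2 := d4n (x := x) (s := s) (b := (y + 4 * (r * s))) (by linarith only [f])
        have u0 := x2 (x := x) (c := (y - 9 / 10 * r)) (c' := (y - 9 / 10 * r)) (δ := (400 / 10000)) (K := (25 / 1)) (le_abs_self _) (by norm_num) (by norm_num) (by norm_num) (by linarith only [g]) (by linarith)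
        have u1 := x2 (x := x) (c := (y - 9 / 10 * r)) (c' := (-(y - 9 / 10 * r))) (δ := (400 / 10000)) (K := (25 / 1)) (neg_le_abs _) (by norm_num) (by norm_num) (by norm_num) (by linarith only [g]) (by linarith)
        rcases T with T | T <;> linarith only [t2, u0, T, u1]
      · rcases le_or_gt x (2650 / 10000) with g | g
        · have T := e1_mD4X3nC (x := x) (y := y) (s := s) (r := r) (by linarith) (by linarith only [g]) (by linarith only [y0]) (by linarith only [hrs, f]) (by linarith only [v']) (by linarith only [s1]) (by linarith only [r0]) (by linarith only [r1]) (by linarith only [e]) (by linarith only [f])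
          have t2 := d4n (x := x) (s := s) (b := (y + 4 * (r * s))) (by linarith only [f])
          have u0 := x3 (x := x) (c := (y - 9 / 10 * r)) (c' := (y - 9 / 10 * r)) (δ := (400 / 10000)) (le_abs_self _) (by norm_num) (by norm_num) (by linarith) (by linarith only [g])
          have u1 := x3 (x := x) (c := (y - 9 / 10 * r)) (c' := (-(y - 9 / 10 * r))) (δ := (400 / 10000)) (neg_le_abs _) (by norm_num) (by norm_num) (by linarith) (by linarith only [g])
          rcases T with T | T <;> linarith only [t2, u0, T, u1]
        · rcases le_or_gt x (6000 / 10000) with g | g
          · have T := e1_mD4X4nC (x := x) (y := y) (s := s) (r := r) (by linarith) (by linarith only [g]) (by linarith only [y0]) (by linarith only [hrs, f]) (by linarith only [v']) (by linarith only [s1]) (by linarith only [r0]) (by linarith only [r1]) (by linarith only [f]) (by linarith only [c0])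
            have t2 := d4n (x := x) (s := s) (b := (y + 4 * (r * s))) (by linarith only [f])
            have u0 := x4 (x := x) (c := (y - 9 / 10 * r)) (c' := (y - 9 / 10 * r)) (le_abs_self _)
            have u1 := x4 (x := x) (c := (y - 9 / 10 * r)) (c' := (-(y - 9 / 10 * r))) (neg_le_abs _)
            rcases T with T | T <;> linarith only [t2, u0, T, u1]
          · have y3 : y ≤ 0 := by
              rcases hy with h | h
              · exact h
              · linarith only [g, h]
            have T := e1_mD4X4nX (x := x) (y := y) (s := s) (r := r) (by linarith only [g]) (by linarith only [x1]) (by linarith only [x1, c0, g]) (by linarith only [hrs, f]) (by linarith only [v']) (by linarith only [s1]) (by linarith only [r0]) (by linarith only [r1]) (by linarith only [f]) (by linarith only [c0])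
            have t2 := d4n (x := x) (s := s) (b := (y + 4 * (r * s))) (by linarith only [f])
            have u0 := x4 (x := x) (c := (y - 9 / 10 * r)) (c' := (y - 9 / 10 * r)) (le_abs_self _)
            have u1 := x4 (x := x) (c := (y - 9 / 10 * r)) (c' := (-(y - 9 / 10 * r))) (neg_le_abs _)
            rcases T with T | T <;> linarith only [t2, u0, T, u1]
  · rcases le_or_gt x (1850 / 10000) with g | g
    · have T := e1_mD4X1pC (x := x) (y := y) (s := s) (r := r) (by linarith only [v', e]) (by linarith only [g]) (by linarith only [y0]) (by linarith only [y1]) (by linarith only [v']) (by linarith only [e, g]) (by linarith only [r0]) (by linarith only [r1]) (by linarith only [e]) (by linarith only [f]) (by linarith only [b0])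
      have t2 := d4p (x := x) (s := s) (b := (y + 4 * (r * s))) (by linarith only [f])
      linarith only [T, t2]
    · rcases le_or_gt x (2250 / 10000) with g | g
      · have T := e1_mD4X2pC (x := x) (y := y) (s := s) (r := r) (by linarith) (by linarith only [g]) (by linarith only [y0]) (by linarith only [y1]) (by linarith only [v']) (by linarith only [e, g]) (by linarith only [r0]) (by linarith only [r1]) (by linarith only [e]) (by linarith only [f])
        have t2 := d4p (x := x) (s := s) (b := (y + 4 * (r * s))) (by linarith only [f])
        have u0 := x2 (x := x) (c := (y - 9 / 10 * r)) (c' := (y - 9 / 10 * r)) (δ := (400 / 10000)) (K := (25 / 1)) (le_abs_self _) (by norm_num) (by norm_num) (by norm_num) (by linarith only [g]) (by linarith)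
        have u1 := x2 (x := x) (c := (y - 9 / 10 * r)) (c' := (-(y - 9 / 10 * r))) (δ := (400 / 10000)) (K := (25 / 1)) (neg_le_abs _) (by norm_num) (by norm_num) (by norm_num) (by linarith only [g]) (by linarith)
        rcases T with T | T <;> linarith only [t2, u0, T, u1]
      · rcases le_or_gt x (2650 / 10000) with g | g
        · have T := e1_mD4X3pC (x := x) (y := y) (s := s) (r := r) (by linarith) (by linarith only [g]) (by linarith only [y0]) (by linarith only [y1]) (by linarith only [v']) (by linarith only [s1]) (by linarith only [r0]) (by linarith only [r1]) (by linarith only [e]) (by linarith only [f])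
          have t2 := d4p (x := x) (s := s) (b := (y + 4 * (r * s))) (by linarith only [f])
          have u0 := x3 (x := x) (c := (y - 9 / 10 * r)) (c' := (y - 9 / 10 * r)) (δ := (400 / 10000)) (le_abs_self _) (by norm_num) (by norm_num) (by linarith) (by linarith only [g])
          have u1 := x3 (x := x) (c := (y - 9 / 10 * r)) (c' := (-(y - 9 / 10 * r))) (δ := (400 / 10000)) (neg_le_abs _) (by norm_num) (by norm_num) (by linarith) (by linarith only [g])
          rcases T with T | T <;> linarith only [t2, u0, T, u1]
        · rcases le_or_gt x (6000 / 10000) with g | g
          · have T := e1_mD4X4pC (x := x) (y := y) (s := s) (r := r) (by linarith) (by linarith only [g]) (by linarith only [y0]) (by linarith only [y1]) (by linarith only [v']) (by linarith only [s1]) (by linarith only [r0]) (by linarith only [r1]) (by linarith only [f]) (by linarith only [c0])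
            have t2 := d4p (x := x) (s := s) (b := (y + 4 * (r * s))) (by linarith only [f])
            have u0 := x4 (x := x) (c := (y - 9 / 10 * r)) (c' := (y - 9 / 10 * r)) (le_abs_self _)
            have u1 := x4 (x := x) (c := (y - 9 / 10 * r)) (c' := (-(y - 9 / 10 * r))) (neg_le_abs _)
            rcases T with T | T <;> linarith only [t2, u0, T, u1]
          · have y3 : y ≤ 0 := by
              rcases hy with h | h
              · exact h
              · linarith only [g, h]
            have T := e1_mD4X4pW (x := x) (y := y) (s := s) (r := r) (by linarith only [g]) (by linarith only [x1]) (by linarith only [x1, c0, g]) (by linarith only [y3]) (by linarith only [s0]) (by linarith only [s1]) (by linarith only [r0]) (by linarith only [r1]) (by linarith only [f]) (by linarith only [c0])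
            have t2 := d4p (x := x) (s := s) (b := (y + 4 * (r * s))) (by linarith only [f])
            have u0 := x4 (x := x) (c := (y - 9 / 10 * r)) (c' := (y - 9 / 10 * r)) (le_abs_self _)
            have u1 := x4 (x := x) (c := (y - 9 / 10 * r)) (c' := (-(y - 9 / 10 * r))) (neg_le_abs _)
            rcases T with T | T <;> linarith only [t2, u0, T, u1]

end ZD

end Pool.Agent.Work.MP_b30479_gtS.G2

end
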