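import Pool.Agent.Work.MP_b30479_gt.TBS.G2.ZRe1A_0
import Pool.Agent.Work.MP_b30479_gt.TBS.G2.ZRe4E
import Pool.Agent.Work.MP_b30479_gt.TBS.G2.ZRe1A
import Pool.Agent.Work.MP_b30479_gt.TBS.G2.ZRe1A_3
import Pool.Agent.Work.MP_b30479_gt.TBS.G2.ZRe1B_3

section

/-!
# Part of `ZRe1A`
-/
set_option linter.unusedSimpArgs false
set_option linter.unusedVariables false

namespace Pool.Agent.Work.MP_b30479_gtS.G2

open VOL NumUs

namespace ZD

open NumUs.E ZE

theorem e1_pD3X1nC {x y s r : ℝ} (ua1 : 500 / 10000 ≤ x) (ua2 : x ≤ 1850 / 10000) (ua3 : -(1580 / 10000) ≤ y) (ua4 : y ≤ 10 / 10000) (ua5 : 500 / 10000 ≤ s) (ua6 : s ≤ 1850 / 10000) (ua7 : 0 / 10000 ≤ r) (ua8 : r ≤ 1045 / 10000) (ua9 : 0 ≤ x - s) (ua10 : x - s ≤ 400 / 10000) (ua11 : (y - 4 * (r * s)) ≤ 0) (ua12 : -y ≤ 158 / 100 * x) :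
    NumUs.uu (x + s) (y + 4 * (r * s)) + (Real.pi * (1 / 2) * -(y - 4 * (r * s)) * (1 + (25 / 1) * (x - s)) + (25 / 1) * (x - s) * NumUs.uu (400 / 10000) (y - 4 * (r * s))) + (-NumUs.uu (x + 225 / 1000) (y + 9 / 10 * r) + -NumUs.uu (x + 775 / 1000) (y - 9 / 10 * r)) < (958 / 10000 - 85 / 100 * r) := by
  have h : chkT [sub (sub (q 958 10000) (mul (q 85 100) ZE.r)) (add (add (E.uu (add ZE.x ZE.s) (add ZE.y ZE.h)) (add (mul (mul (mul pi (q 1 2)) (neg (sub ZE.y ZE.h))) (add (q 1 1) (mul (q 25 1) (sub ZE.x ZE.s)))) (mul (mul (q 25 1) (sub ZE.x ZE.s)) (E.uu (q 400 10000) (sub ZE.y ZE.h))))) (add (neg (E.uu (add ZE.x (q 225 1000)) (add ZE.y (mul (q 9 10) ZE.r)))) (neg (E.uu (add ZE.x (q 775 1000)) (sub ZE.y (mul (q 9 10) ZE.r)))))), sub ZE.s ZE.x, sub (sub ZE.x ZE.s) (q 400 10000), add (q 0 1) (sub ZE.y ZE.h), sub (neg ZE.y) (mul (q 158 100) ZE.x)] 60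
    188084057106463210857160873264921196167196158950544708502047856454822444092131687203049597706109048382341884309681614102224419042192387800146176437301477306103156496796240949137004236138107595488955333381460376048514770904342839314654642677957738158000489858255679404364653255044698913728228279842390710027683346354604578551117750952951348361631824237202945482823820206023659019954733908379382233663431393161290683722734599784276153997636966612311322289408894594888335258437168388033627402280175136778127549989879672796514512189973326993679295502016357781957798778769441
    [NumIs.V.of 10000 500 1850, NumIs.V.of 10000 (-1580) 10, NumIs.V.of 10000 500 1850, NumIs.V.of 10000 0 1045] = true :=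
      Pool.Agent.Work.NumUs.chkT_of (Pool.Agent.Work.NumUs.runT_split rfl rfl rfl
        (Pool.Agent.Work.NumUs.runT_split rfl rfl rfl
          e1_pD3X1nC_h1_q1
          e1_pD3X1nC_h1_q2)
        e1_pD3X1nC_h1_q3)
  obtain ⟨f, hf, hp⟩ := chkT4 h (by norm_num) (x := x) (y := y) (z := s) (w := r)
    (by norm_num; linarith only [ua1]) (by norm_num; linarith only [ua2]) (by norm_num; linarith only [ua3]) (by norm_num; linarith only [ua4]) (by norm_num; linarith only [ua5]) (by norm_num; linarith only [ua6]) (by norm_num; linarith only [ua7]) (by norm_num; linarith only [ua8])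
  by_contra hc
  push Not at hc
  simp only [List.mem_cons, List.not_mem_nil, or_false] at hf
  rcases hf with rfl | rfl | rfl | rfl | rfl
  · simp only [ZE.x, ZE.y, ZE.s, ZE.r, ZE.h, E.val, NumIs.lkR] at hp
    push_cast at hp
    linarith only [hc, hp]
  · simp only [ZE.x, ZE.y, ZE.s, ZE.r, ZE.h, E.val, NumIs.lkR] at hp
    push_cast at hp
    linarith only [ua9, hp]
  · simp only [ZE.x, ZE.y, ZE.s, ZE.r, ZE.h, E.val, NumIs.lkR] at hp
    push_cast at hp
    linarith only [ua10, hp]
  · simp only [ZE.x, ZE.y, ZE.s, ZE.r, ZE.h, E.val, NumIs.lkR] at hp
    push_cast at hp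
    linarith only [ua11, hp]
  · simp only [ZE.x, ZE.y, ZE.s, ZE.r, ZE.h, E.val, NumIs.lkR] at hp
    push_cast at hp
    linarith only [ua12, hp]

end ZD

end Pool.Agent.Work.MP_b30479_gtS.G2

end

section

/-!
# The loss at a hinge next to a ring: left
-/

set_option linter.unusedSimpArgs false
set_option linter.unusedVariables false

namespace Pool.Agent.Work.MP_b30479_gtS.G2

open VOL NumUs

namespace ZD

theorem e1_p {x y s r : ℝ} (x0 : 0 ≤ x) (x1 : x ≤ 65 / 100) (y0 : -(158 / 1000) ≤ y)
    (y1 : y ≤ 1 / 1000) (hy : y ≤ 0 ∨ x ≤ 60 / 100) (c0 : -y ≤ 545 / 1000 * (65 / 100 - x))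
    (b0 : -y ≤ 158 / 100 * x) (s0 : 0 ≤ s) (s1 : s ≤ 1 / 5) (r0 : 0 ≤ r)
    (r1 : r ≤ 1045 / 10000) : uu (x + s) (y + 4 * (r * s)) + uu (1 + x - s) (y - 4 * (r * s)) +
      (-uu (x + 225 / 1000) (y + 9 / 10 * r) + -uu (x + 775 / 1000) (y - 9 / 10 * r)) ≤
      (958 / 10000 - 85 / 100 * r) := by
  have hrs : 0 ≤ r * s := mul_nonneg r0 s0
  rcases le_or_gt s (200 / 10000) with v | v
  · rcases le_or_gt x (1500 / 10000) with w | w
    · exact zoneA x0 w y0 y1 b0 s0 v r0 r1
    rcases le_or_gt (y - 4 * (r * s)) 0 with f | f
    · rcases le_or_gt x (1850 / 10000) with g | g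
      · have T := e1_pD4X1nA (x := x) (y := y) (s := s) (r := r) (by linarith only [w]) (by linarith only [g]) (by linarith only [y0]) (by linarith only [y1]) (by linarith only [s0]) (by linarith only [v]) (by linarith only [r0]) (by linarith only [r1]) (by linarith only [f])
        have t2 := d4n (x := x) (s := s) (b := (y - 4 * (r * s))) (by linarith only [f])
        linarith only [T, t2]
      · rcases le_or_gt x (2250 / 10000) with g | g
        · have T := e1_pD4X2nA (x := x) (y := y) (s := s) (r := r) (by linarith) (by linarith only [g]) (by linarith only [y0]) (by linarith only [y1]) (by linarith only [s0]) (by linarith only [v]) (by linarith only [r0]) (by linarith only [r1]) (by linarith only [f])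
          have t2 := d4n (x := x) (s := s) (b := (y - 4 * (r * s))) (by linarith only [f])
          have u0 := x2 (x := x) (c := (y - 9 / 10 * r)) (c' := (y - 9 / 10 * r)) (δ := (400 / 10000)) (K := (25 / 1)) (le_abs_self _) (by norm_num) (by norm_num) (by norm_num) (by linarith only [g]) (by linarith)
          have u1 := x2 (x := x) (c := (y - 9 / 10 * r)) (c' := (-(y - 9 / 10 * r))) (δ := (400 / 10000)) (K := (25 / 1)) (neg_le_abs _) (by norm_num) (by norm_num) (by norm_num) (by linarith only [g]) (by linarith)
          rcases T with T | T <;> linarith only [t2, u0, T, u1]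
        · rcases le_or_gt x (2650 / 10000) with g | g
          · have T := e1_pD4X3nA (x := x) (y := y) (s := s) (r := r) (by linarith) (by linarith only [g]) (by linarith only [y0]) (by linarith only [y1]) (by linarith only [s0]) (by linarith only [v]) (by linarith only [r0]) (by linarith only [r1]) (by linarith only [f])
            have t2 := d4n (x := x) (s := s) (b := (y - 4 * (r * s))) (by linarith only [f])
            have u0 := x3 (x := x) (c := (y - 9 / 10 * r)) (c' := (y - 9 / 10 * r)) (δ := (400 / 10000)) (le_abs_self _) (by norm_num) (by norm_num) (by linarith) (by linarith only [g])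
            have u1 := x3 (x := x) (c := (y - 9 / 10 * r)) (c' := (-(y - 9 / 10 * r))) (δ := (400 / 10000)) (neg_le_abs _) (by norm_num) (by norm_num) (by linarith) (by linarith only [g])
            rcases T with T | T <;> linarith only [t2, u0, T, u1]
          · rcases le_or_gt x (6000 / 10000) with g | g
            · have T := e1_pD4X4nA (x := x) (y := y) (s := s) (r := r) (by linarith) (by linarith only [g]) (by linarith only [y0]) (by linarith only [y1]) (by linarith only [s0]) (by linarith only [v]) (by linarith only [r0]) (by linarith only [r1]) (by linarith only [f]) (by linarith only [c0])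
              have t2 := d4n (x := x) (s := s) (b := (y - 4 * (r * s))) (by linarith only [f])
              have u0 := x4 (x := x) (c := (y - 9 / 10 * r)) (c' := (y - 9 / 10 * r)) (le_abs_self _)
              have u1 := x4 (x := x) (c := (y - 9 / 10 * r)) (c' := (-(y - 9 / 10 * r))) (neg_le_abs _)
              rcases T with T | T <;> linarith only [t2, u0, T, u1]
            · have y3 : y ≤ 0 := by
                rcases hy with h | h
                · exact h
                · linarith only [g, h]
              have T := e1_pD4X4nZ (x := x) (y := y) (s := s) (r := r) (by linarith only [g]) (by linarith only [x1]) (by linarith only [x1, c0, g]) (by linarith only [y3]) (by linarith only [s0]) (by linarith only [v]) (by linarith only [r0]) (by linarith only [r1]) (by linarith only [f]) (by linarith only [c0])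
              have t2 := d4n (x := x) (s := s) (b := (y - 4 * (r * s))) (by linarith only [f])
              have u0 := x4 (x := x) (c := (y - 9 / 10 * r)) (c' := (y - 9 / 10 * r)) (le_abs_self _)
              have u1 := x4 (x := x) (c := (y - 9 / 10 * r)) (c' := (-(y - 9 / 10 * r))) (neg_le_abs _)
              rcases T with T | T <;> linarith only [t2, u0, T, u1]
    · rcases le_or_gt x (1850 / 10000) with g | g
      · have T := e1_pD4X1pA (x := x) (y := y) (s := s) (r := r) (by linarith only [w]) (by linarith only [g]) (by linarith only [hrs, f]) (by linarith only [y1]) (by linarith only [s0]) (by linarith only [v]) (by linarith only [r0]) (by linarith only [r1]) (by linarith only [f])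
        have t2 := d4p (x := x) (s := s) (b := (y - 4 * (r * s))) (by linarith only [f])
        linarith only [T, t2]
      · rcases le_or_gt x (2250 / 10000) with g | g
        · have T := e1_pD4X2pA (x := x) (y := y) (s := s) (r := r) (by linarith) (by linarith only [g]) (by linarith only [hrs, f]) (by linarith only [y1]) (by linarith only [s0]) (by linarith only [v]) (by linarith only [r0]) (by linarith only [r1]) (by linarith only [f])
          have t2 := d4p (x := x) (s := s) (b := (y - 4 * (r * s))) (by linarith only [f])
          have u0 := x2 (x := x) (c := (y - 9 / 10 * r)) (c' := (y - 9 / 10 * r)) (δ := (400 / 10000)) (K := (25 / 1)) (le_abs_self _) (by norm_num) (by norm_num) (by norm_num) (by linarith only [g]) (by linarith)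
          have u1 := x2 (x := x) (c := (y - 9 / 10 * r)) (c' := (-(y - 9 / 10 * r))) (δ := (400 / 10000)) (K := (25 / 1)) (neg_le_abs _) (by norm_num) (by norm_num) (by norm_num) (by linarith only [g]) (by linarith)
          rcases T with T | T <;> linarith only [t2, u0, T, u1]
        · rcases le_or_gt x (2650 / 10000) with g | g
          · have T := e1_pD4X3pA (x := x) (y := y) (s := s) (r := r) (by linarith) (by linarith only [g]) (by linarith only [hrs, f]) (by linarith only [y1]) (by linarith only [s0]) (by linarith only [v]) (by linarith only [r0]) (by linarith only [r1]) (by linarith only [f])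
            have t2 := d4p (x := x) (s := s) (b := (y - 4 * (r * s))) (by linarith only [f])
            have u0 := x3 (x := x) (c := (y - 9 / 10 * r)) (c' := (y - 9 / 10 * r)) (δ := (400 / 10000)) (le_abs_self _) (by norm_num) (by norm_num) (by linarith) (by linarith only [g])
            have u1 := x3 (x := x) (c := (y - 9 / 10 * r)) (c' := (-(y - 9 / 10 * r))) (δ := (400 / 10000)) (neg_le_abs _) (by norm_num) (by norm_num) (by linarith) (by linarith only [g])
            rcases T with T | T <;> linarith only [t2, u0, T, u1]
          · rcases le_or_gt x (6000 / 10000) with g | g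
            · have T := e1_pD4X4pA (x := x) (y := y) (s := s) (r := r) (by linarith) (by linarith only [g]) (by linarith only [hrs, f]) (by linarith only [y1]) (by linarith only [s0]) (by linarith only [v]) (by linarith only [r0]) (by linarith only [r1]) (by linarith only [f]) (by linarith only [x1, hrs, f])
              have t2 := d4p (x := x) (s := s) (b := (y - 4 * (r * s))) (by linarith only [f])
              have u0 := x4 (x := x) (c := (y - 9 / 10 * r)) (c' := (y - 9 / 10 * r)) (le_abs_self _)
              have u1 := x4 (x := x) (c := (y - 9 / 10 * r)) (c' := (-(y - 9 / 10 * r))) (neg_le_abs _)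
              rcases T with T | T <;> linarith only [t2, u0, T, u1]
            · have y3 : y ≤ 0 := by
                rcases hy with h | h
                · exact h
                · linarith only [g, h]
              linarith only [hrs, f, y3]
  rcases le_or_gt s (500 / 10000) with v' | v'
  · rcases le_or_gt (x - s) (-(200 / 10000)) with d | d
    · have T := e1_pD1X1B (x := x) (y := y) (s := s) (r := r) (by linarith only [x0]) (by linarith only [v', d]) (by linarith only [b0, v', d]) (by linarith only [y1]) (by linarith only [v]) (by linarith only [v']) (by linarith only [r0]) (by linarith only [r1]) (by linarith only [d]) (by linarith only [b0])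
      linarith only [T]
    rcases le_or_gt (x - s) 0 with d' | d'
    · have T := e1_pD2X1B (x := x) (y := y) (s := s) (r := r) (by linarith only [x0]) (by linarith only [v', d']) (by linarith only [b0, v', d']) (by linarith only [y1]) (by linarith only [v]) (by linarith only [v']) (by linarith only [r0]) (by linarith only [r1]) (by linarith only [d]) (by linarith only [d']) (by linarith only [b0])
      have t2 := d2 (x := x) (s := s) (b := (y - 4 * (r * s))) (δ := (200 / 10000)) (by norm_num) (by norm_num) (by linarith only [d]) (by linarith only [d'])
      linarith only [T, t2]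
    rcases le_or_gt (x - s) (200 / 10000) with e | e
    · rcases le_or_gt (y - 4 * (r * s)) 0 with f | f
      · have T := e1_pD3X1nB (x := x) (y := y) (s := s) (r := r) (by linarith only [v, d']) (by linarith only [v', e]) (by linarith only [b0, v', d', e]) (by linarith only [y1]) (by linarith only [v]) (by linarith only [v']) (by linarith only [r0]) (by linarith only [r1]) (by linarith only [d']) (by linarith only [e]) (by linarith only [f]) (by linarith only [b0])
        have t2 := d3n (x := x) (s := s) (b := (y - 4 * (r * s))) (δ := (200 / 10000)) (K := (50 / 1)) (by linarith only [f]) (by norm_num) (by norm_num) (by norm_num) (by linarith only [d']) (by linarith only [e])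
        linarith only [T, t2]
      · have T := e1_pD3X1pB (x := x) (y := y) (s := s) (r := r) (by linarith only [v, d']) (by linarith only [v', e]) (by linarith only [hrs, f]) (by linarith only [y1]) (by linarith only [v]) (by linarith only [v']) (by linarith only [r0]) (by linarith only [r1]) (by linarith only [d']) (by linarith only [e]) (by linarith only [f]) (by linarith only [x0, hrs, f])
        have t2 := d3p (x := x) (s := s) (b := (y - 4 * (r * s))) (δ := (200 / 10000)) (K := (50 / 1)) (by linarith only [f]) (by norm_num) (by norm_num) (by norm_num) (by linarith only [d']) (by linarith only [e])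
        linarith only [T, t2]
    rcases le_or_gt (y - 4 * (r * s)) 0 with f | f
    · rcases le_or_gt x (1850 / 10000) with g | g
      · have T := e1_pD4X1nB (x := x) (y := y) (s := s) (r := r) (by linarith only [v, e]) (by linarith only [g]) (by linarith only [y0]) (by linarith only [y1]) (by linarith only [v]) (by linarith only [v']) (by linarith only [r0]) (by linarith only [r1]) (by linarith only [e]) (by linarith only [f]) (by linarith only [b0])
        have t2 := d4n (x := x) (s := s) (b := (y - 4 * (r * s))) (by linarith only [f])
        linarith only [T, t2]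
      · rcases le_or_gt x (2250 / 10000) with g | g
        · have T := e1_pD4X2nB (x := x) (y := y) (s := s) (r := r) (by linarith) (by linarith only [g]) (by linarith only [y0]) (by linarith only [y1]) (by linarith only [v]) (by linarith only [v']) (by linarith only [r0]) (by linarith only [r1]) (by linarith only [f])
          have t2 := d4n (x := x) (s := s) (b := (y - 4 * (r * s))) (by linarith only [f])
          have u0 := x2 (x := x) (c := (y - 9 / 10 * r)) (c' := (y - 9 / 10 * r)) (δ := (400 / 10000)) (K := (25 / 1)) (le_abs_self _) (by norm_num) (by norm_num) (by norm_num) (by linarith only [g]) (by linarith)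
          have u1 := x2 (x := x) (c := (y - 9 / 10 * r)) (c' := (-(y - 9 / 10 * r))) (δ := (400 / 10000)) (K := (25 / 1)) (neg_le_abs _) (by norm_num) (by norm_num) (by norm_num) (by linarith only [g]) (by linarith)
          rcases T with T | T <;> linarith only [t2, u0, T, u1]
        · rcases le_or_gt x (2650 / 10000) with g | g
          · have T := e1_pD4X3nB (x := x) (y := y) (s := s) (r := r) (by linarith) (by linarith only [g]) (by linarith only [y0]) (by linarith only [y1]) (by linarith only [v]) (by linarith only [v']) (by linarith only [r0]) (by linarith only [r1]) (by linarith only [f])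
            have t2 := d4n (x := x) (s := s) (b := (y - 4 * (r * s))) (by linarith only [f])
            have u0 := x3 (x := x) (c := (y - 9 / 10 * r)) (c' := (y - 9 / 10 * r)) (δ := (400 / 10000)) (le_abs_self _) (by norm_num) (by norm_num) (by linarith) (by linarith only [g])
            have u1 := x3 (x := x) (c := (y - 9 / 10 * r)) (c' := (-(y - 9 / 10 * r))) (δ := (400 / 10000)) (neg_le_abs _) (by norm_num) (by norm_num) (by linarith) (by linarith only [g])
            rcases T with T | T <;> linarith only [t2, u0, T, u1]
          · rcases le_or_gt x (6000 / 10000) with g | g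
            · have T := e1_pD4X4nB (x := x) (y := y) (s := s) (r := r) (by linarith) (by linarith only [g]) (by linarith only [y0]) (by linarith only [y1]) (by linarith only [v]) (by linarith only [v']) (by linarith only [r0]) (by linarith only [r1]) (by linarith only [f]) (by linarith only [c0])
              have t2 := d4n (x := x) (s := s) (b := (y - 4 * (r * s))) (by linarith only [f])
              have u0 := x4 (x := x) (c := (y - 9 / 10 * r)) (c' := (y - 9 / 10 * r)) (le_abs_self _)
              have u1 := x4 (x := x) (c := (y - 9 / 10 * r)) (c' := (-(y - 9 / 10 * r))) (neg_le_abs _)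
              rcases T with T | T <;> linarith only [t2, u0, T, u1]
            · have y3 : y ≤ 0 := by
                rcases hy with h | h
                · exact h
                · linarith only [g, h]
              have T := e1_pD4X4nY (x := x) (y := y) (s := s) (r := r) (by linarith only [g]) (by linarith only [x1]) (by linarith only [x1, c0, g]) (by linarith only [y3]) (by linarith only [v]) (by linarith only [v']) (by linarith only [r0]) (by linarith only [r1]) (by linarith only [f]) (by linarith only [c0])
              have t2 := d4n (x := x) (s := s) (b := (y - 4 * (r * s))) (by linarith only [f])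
              have u0 := x4 (x := x) (c := (y - 9 / 10 * r)) (c' := (y - 9 / 10 * r)) (le_abs_self _)
              have u1 := x4 (x := x) (c := (y - 9 / 10 * r)) (c' := (-(y - 9 / 10 * r))) (neg_le_abs _)
              rcases T with T | T <;> linarith only [t2, u0, T, u1]
    · rcases le_or_gt x (1850 / 10000) with g | g
      · have T := e1_pD4X1pB (x := x) (y := y) (s := s) (r := r) (by linarith only [v, e]) (by linarith only [g]) (by linarith only [hrs, f]) (by linarith only [y1]) (by linarith only [v]) (by linarith only [v']) (by linarith only [r0]) (by linarith only [r1]) (by linarith only [e]) (by linarith only [f]) (by linarith only [y1, hrs, v, e, f])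
        have t2 := d4p (x := x) (s := s) (b := (y - 4 * (r * s))) (by linarith only [f])
        linarith only [T, t2]
      · rcases le_or_gt x (2250 / 10000) with g | g
        · have T := e1_pD4X2pB (x := x) (y := y) (s := s) (r := r) (by linarith) (by linarith only [g]) (by linarith only [hrs, f]) (by linarith only [y1]) (by linarith only [v]) (by linarith only [v']) (by linarith only [r0]) (by linarith only [r1]) (by linarith only [f])
          have t2 := d4p (x := x) (s := s) (b := (y - 4 * (r * s))) (by linarith only [f])
          have u0 := x2 (x := x) (c := (y - 9 / 10 * r)) (c' := (y - 9 / 10 * r)) (δ := (400 / 10000)) (K := (25 / 1)) (le_abs_self _) (by norm_num) (by norm_num) (by norm_num) (by linarith only [g]) (by linarith)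
          have u1 := x2 (x := x) (c := (y - 9 / 10 * r)) (c' := (-(y - 9 / 10 * r))) (δ := (400 / 10000)) (K := (25 / 1)) (neg_le_abs _) (by norm_num) (by norm_num) (by norm_num) (by linarith only [g]) (by linarith)
          rcases T with T | T <;> linarith only [t2, u0, T, u1]
        · rcases le_or_gt x (2650 / 10000) with g | g
          · have T := e1_pD4X3pB (x := x) (y := y) (s := s) (r := r) (by linarith) (by linarith only [g]) (by linarith only [hrs, f]) (by linarith only [y1]) (by linarith only [v]) (by linarith only [v']) (by linarith only [r0]) (by linarith only [r1]) (by linarith only [f])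
            have t2 := d4p (x := x) (s := s) (b := (y - 4 * (r * s))) (by linarith only [f])
            have u0 := x3 (x := x) (c := (y - 9 / 10 * r)) (c' := (y - 9 / 10 * r)) (δ := (400 / 10000)) (le_abs_self _) (by norm_num) (by norm_num) (by linarith) (by linarith only [g])
            have u1 := x3 (x := x) (c := (y - 9 / 10 * r)) (c' := (-(y - 9 / 10 * r))) (δ := (400 / 10000)) (neg_le_abs _) (by norm_num) (by norm_num) (by linarith) (by linarith only [g])
            rcases T with T | T <;> linarith only [t2, u0, T, u1]
          · rcases le_or_gt x (6000 / 10000) with g | g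
            · have T := e1_pD4X4pB (x := x) (y := y) (s := s) (r := r) (by linarith) (by linarith only [g]) (by linarith only [hrs, f]) (by linarith only [y1]) (by linarith only [v]) (by linarith only [v']) (by linarith only [r0]) (by linarith only [r1]) (by linarith only [f]) (by linarith only [x1, hrs, f])
              have t2 := d4p (x := x) (s := s) (b := (y - 4 * (r * s))) (by linarith only [f])
              have u0 := x4 (x := x) (c := (y - 9 / 10 * r)) (c' := (y - 9 / 10 * r)) (le_abs_self _)
              have u1 := x4 (x := x) (c := (y - 9 / 10 * r)) (c' := (-(y - 9 / 10 * r))) (neg_le_abs _)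
              rcases T with T | T <;> linarith only [t2, u0, T, u1]
            · have y3 : y ≤ 0 := by
                rcases hy with h | h
                · exact h
                · linarith only [g, h]
              linarith only [hrs, f, y3]
  rcases le_or_gt (x - s) (-(400 / 10000)) with d | d
  · have T := e1_pD1X1C (x := x) (y := y) (s := s) (r := r) (by linarith only [x0]) (by linarith only [s1, d]) (by linarith only [y0]) (by linarith only [y1]) (by linarith only [v']) (by linarith only [s1]) (by linarith only [r0]) (by linarith only [r1]) (by linarith only [d]) (by linarith only [b0])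
    linarith only [T]
  rcases le_or_gt (x - s) 0 with d' | d'
  · rcases le_or_gt x (1850 / 10000) with g | g
    · have T := e1_pD2X1C (x := x) (y := y) (s := s) (r := r) (by linarith only [v', d]) (by linarith only [g]) (by linarith only [y0]) (by linarith only [y1]) (by linarith only [v']) (by linarith only [s1]) (by linarith only [r0]) (by linarith only [r1]) (by linarith only [d]) (by linarith only [d']) (by linarith only [b0])
      have t2 := d2 (x := x) (s := s) (b := (y - 4 * (r * s))) (δ := (400 / 10000)) (by norm_num) (by norm_num) (by linarith only [d]) (by linarith only [d'])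
      linarith only [T, t2]
    · have T := e1_pD2X2C (x := x) (y := y) (s := s) (r := r) (by linarith only [g]) (by linarith only [s1, d']) (by linarith only [y0]) (by linarith only [y1]) (by linarith only [d', g]) (by linarith only [s1]) (by linarith only [r0]) (by linarith only [r1]) (by linarith only [s1, g]) (by linarith only [d'])
      have t2 := d2 (x := x) (s := s) (b := (y - 4 * (r * s))) (δ := (400 / 10000)) (by norm_num) (by norm_num) (by linarith only [s1, g]) (by linarith only [d'])
      have u0 := x2 (x := x) (c := (y - 9 / 10 * r)) (c' := (y - 9 / 10 * r)) (δ := (400 / 10000)) (K := (25 / 1)) (le_abs_self _) (by norm_num) (by norm_num) (by norm_num) (by linarith only [s1, d']) (by linarith only [g])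
      have u1 := x2 (x := x) (c := (y - 9 / 10 * r)) (c' := (-(y - 9 / 10 * r))) (δ := (400 / 10000)) (K := (25 / 1)) (neg_le_abs _) (by norm_num) (by norm_num) (by norm_num) (by linarith only [s1, d']) (by linarith only [g])
      rcases T with T | T <;> linarith only [t2, u0, T, u1]
  rcases le_or_gt (x - s) (400 / 10000) with e | e
  · rcases le_or_gt (y - 4 * (r * s)) 0 with f | f
    · rcases le_or_gt x (1850 / 10000) with g | g
      · have T := e1_pD3X1nC (x := x) (y := y) (s := s) (r := r) (by linarith only [v', d']) (by linarith only [g]) (by linarith only [y0]) (by linarith only [y1]) (by linarith only [v']) (by linarith only [d', g]) (by linarith only [r0]) (by linarith only [r1]) (by linarith only [d']) (by linarith only [e]) (by linarith only [f]) (by linarith only [b0])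
        have t2 := d3n (x := x) (s := s) (b := (y - 4 * (r * s))) (δ := (400 / 10000)) (K := (25 / 1)) (by linarith only [f]) (by norm_num) (by norm_num) (by norm_num) (by linarith only [d']) (by linarith only [e])
        linarith only [T, t2]
      · rcases le_or_gt x (2250 / 10000) with g | g
        · have T := e1_pD3X2nC (x := x) (y := y) (s := s) (r := r) (by linarith) (by linarith only [g]) (by linarith only [y0]) (by linarith only [y1]) (by linarith) (by linarith only [s1]) (by linarith only [r0]) (by linarith only [r1]) (by linarith only [d']) (by linarith only [e]) (by linarith only [f])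
          have t2 := d3n (x := x) (s := s) (b := (y - 4 * (r * s))) (δ := (400 / 10000)) (K := (25 / 1)) (by linarith only [f]) (by norm_num) (by norm_num) (by norm_num) (by linarith only [d']) (by linarith only [e])
          have u0 := x2 (x := x) (c := (y - 9 / 10 * r)) (c' := (y - 9 / 10 * r)) (δ := (400 / 10000)) (K := (25 / 1)) (le_abs_self _) (by norm_num) (by norm_num) (by norm_num) (by linarith only [g]) (by linarith)
          have u1 := x2 (x := x) (c := (y - 9 / 10 * r)) (c' := (-(y - 9 / 10 * r))) (δ := (400 / 10000)) (K := (25 / 1)) (neg_le_abs _) (by norm_num) (by norm_num) (by norm_num) (by linarith only [g]) (by linarith)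
          rcases T with T | T <;> linarith only [t2, u0, T, u1]
        · have T := e1_pD3X3nC (x := x) (y := y) (s := s) (r := r) (by linarith only [g]) (by linarith only [s1, e]) (by linarith only [y0]) (by linarith only [y1]) (by linarith only [e, g]) (by linarith only [s1]) (by linarith only [r0]) (by linarith only [r1]) (by linarith only [d']) (by linarith only [e]) (by linarith only [f])
          have t2 := d3n (x := x) (s := s) (b := (y - 4 * (r * s))) (δ := (400 / 10000)) (K := (25 / 1)) (by linarith only [f]) (by norm_num) (by norm_num) (by norm_num) (by linarith only [d']) (by linarith only [e])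
          have u0 := x3 (x := x) (c := (y - 9 / 10 * r)) (c' := (y - 9 / 10 * r)) (δ := (400 / 10000)) (le_abs_self _) (by norm_num) (by norm_num) (by linarith only [g]) (by linarith only [s1, d', e])
          have u1 := x3 (x := x) (c := (y - 9 / 10 * r)) (c' := (-(y - 9 / 10 * r))) (δ := (400 / 10000)) (neg_le_abs _) (by norm_num) (by norm_num) (by linarith only [g]) (by linarith only [s1, d', e])
          rcases T with T | T <;> linarith only [t2, u0, T, u1]
    · rcases le_or_gt x (1850 / 10000) with g | g
      · have T := e1_pD3X1pC (x := x) (y := y) (s := s) (r := r) (by linarith only [v', d']) (by linarith only [g]) (by linarith only [hrs, f]) (by linarith only [y1]) (by linarith only [v']) (by linarith only [d', g]) (by linarith only [r0]) (by linarith only [r1]) (by linarith only [d']) (by linarith only [e]) (by linarith only [f]) (by linarith only [x0, hrs, f])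
        have t2 := d3p (x := x) (s := s) (b := (y - 4 * (r * s))) (δ := (400 / 10000)) (K := (25 / 1)) (by linarith only [f]) (by norm_num) (by norm_num) (by norm_num) (by linarith only [d']) (by linarith only [e])
        linarith only [T, t2]
      · rcases le_or_gt x (2250 / 10000) with g | g
        · have T := e1_pD3X2pC (x := x) (y := y) (s := s) (r := r) (by linarith) (by linarith only [g]) (by linarith only [hrs, f]) (by linarith only [y1]) (by linarith) (by linarith only [s1]) (by linarith only [r0]) (by linarith only [r1]) (by linarith only [d']) (by linarith only [e]) (by linarith only [f])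
          have t2 := d3p (x := x) (s := s) (b := (y - 4 * (r * s))) (δ := (400 / 10000)) (K := (25 / 1)) (by linarith only [f]) (by norm_num) (by norm_num) (by norm_num) (by linarith only [d']) (by linarith only [e])
          have u0 := x2 (x := x) (c := (y - 9 / 10 * r)) (c' := (y - 9 / 10 * r)) (δ := (400 / 10000)) (K := (25 / 1)) (le_abs_self _) (by norm_num) (by norm_num) (by norm_num) (by linarith only [g]) (by linarith)
          have u1 := x2 (x := x) (c := (y - 9 / 10 * r)) (c' := (-(y - 9 / 10 * r))) (δ := (400 / 10000)) (K := (25 / 1)) (neg_le_abs _) (by norm_num) (by norm_num) (by norm_num) (by linarith only [g]) (by linarith)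
          rcases T with T | T <;> linarith only [t2, u0, T, u1]
        · have T := e1_pD3X3pC (x := x) (y := y) (s := s) (r := r) (by linarith only [g]) (by linarith only [s1, e]) (by linarith only [hrs, f]) (by linarith only [y1]) (by linarith only [e, g]) (by linarith only [s1]) (by linarith only [r0]) (by linarith only [r1]) (by linarith only [y1, s1, hrs, f, g]) (by linarith only [e]) (by linarith only [f])
          have t2 := d3p (x := x) (s := s) (b := (y - 4 * (r * s))) (δ := (400 / 10000)) (K := (25 / 1)) (by linarith only [f]) (by norm_num) (by norm_num) (by norm_num) (by linarith only [y1, s1, hrs, f, g]) (by linarith only [e])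
          have u0 := x3 (x := x) (c := (y - 9 / 10 * r)) (c' := (y - 9 / 10 * r)) (δ := (400 / 10000)) (le_abs_self _) (by norm_num) (by norm_num) (by linarith only [g]) (by linarith only [y1, s1, hrs, e, f])
          have u1 := x3 (x := x) (c := (y - 9 / 10 * r)) (c' := (-(y - 9 / 10 * r))) (δ := (400 / 10000)) (neg_le_abs _) (by norm_num) (by norm_num) (by linarith only [g]) (by linarith only [y1, s1, hrs, e, f])
          rcases T with T | T <;> linarith only [t2, u0, T, u1]
  rcases le_or_gt (y - 4 * (r * s)) 0 with f | f
  · rcases le_or_gt x (1850 / 10000) with g | g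
    · have T := e1_pD4X1nC (x := x) (y := y) (s := s) (r := r) (by linarith only [v', e]) (by linarith only [g]) (by linarith only [y0]) (by linarith only [y1]) (by linarith only [v']) (by linarith only [e, g]) (by linarith only [r0]) (by linarith only [r1]) (by linarith only [e]) (by linarith only [f]) (by linarith only [b0])
      have t2 := d4n (x := x) (s := s) (b := (y - 4 * (r * s))) (by linarith only [f])
      linarith only [T, t2]
    · rcases le_or_gt x (2250 / 10000) with g | g
      · have T := e1_pD4X2nC (x := x) (y := y) (s := s) (r := r) (by linarith) (by linarith only [g]) (by linarith only [y0]) (by linarith only [y1]) (by linarith only [v']) (by linarith only [e, g]) (by linarith only [r0]) (by linarith only [r1]) (by linarith only [e]) (by linarith only [f])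
        have t2 := d4n (x := x) (s := s) (b := (y - 4 * (r * s))) (by linarith only [f])
        have u0 := x2 (x := x) (c := (y - 9 / 10 * r)) (c' := (y - 9 / 10 * r)) (δ := (400 / 10000)) (K := (25 / 1)) (le_abs_self _) (by norm_num) (by norm_num) (by norm_num) (by linarith only [g]) (by linarith)
        have u1 := x2 (x := x) (c := (y - 9 / 10 * r)) (c' := (-(y - 9 / 10 * r))) (δ := (400 / 10000)) (K := (25 / 1)) (neg_le_abs _) (by norm_num) (by norm_num) (by norm_num) (by linarith only [g]) (by linarith)
        rcases T with T | T <;> linarith only [t2, u0, T, u1]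
      · rcases le_or_gt x (2650 / 10000) with g | g
        · have T := e1_pD4X3nC (x := x) (y := y) (s := s) (r := r) (by linarith) (by linarith only [g]) (by linarith only [y0]) (by linarith only [y1]) (by linarith only [v']) (by linarith only [s1]) (by linarith only [r0]) (by linarith only [r1]) (by linarith only [e]) (by linarith only [f])
          have t2 := d4n (x := x) (s := s) (b := (y - 4 * (r * s))) (by linarith only [f])
          have u0 := x3 (x := x) (c := (y - 9 / 10 * r)) (c' := (y - 9 / 10 * r)) (δ := (400 / 10000)) (le_abs_self _) (by norm_num) (by norm_num) (by linarith) (by linarith only [g])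
          have u1 := x3 (x := x) (c := (y - 9 / 10 * r)) (c' := (-(y - 9 / 10 * r))) (δ := (400 / 10000)) (neg_le_abs _) (by norm_num) (by norm_num) (by linarith) (by linarith only [g])
          rcases T with T | T <;> linarith only [t2, u0, T, u1]
        · rcases le_or_gt x (6000 / 10000) with g | g
          · have T := e1_pD4X4nC (x := x) (y := y) (s := s) (r := r) (by linarith) (by linarith only [g]) (by linarith only [y0]) (by linarith only [y1]) (by linarith only [v']) (by linarith only [s1]) (by linarith only [r0]) (by linarith only [r1]) (by linarith only [f]) (by linarith only [c0])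
            have t2 := d4n (x := x) (s := s) (b := (y - 4 * (r * s))) (by linarith only [f])
            have u0 := x4 (x := x) (c := (y - 9 / 10 * r)) (c' := (y - 9 / 10 * r)) (le_abs_self _)
            have u1 := x4 (x := x) (c := (y - 9 / 10 * r)) (c' := (-(y - 9 / 10 * r))) (neg_le_abs _)
            rcases T with T | T <;> linarith only [t2, u0, T, u1]
          · have y3 : y ≤ 0 := by
              rcases hy with h | h
              · exact h
              · linarith only [g, h]
            have T := e1_pD4X4nX (x := x) (y := y) (s := s) (r := r) (by linarith only [g]) (by linarith only [x1]) (by linarith only [x1, c0, g]) (by linarith only [y3]) (by linarith only [v']) (by linarith only [s1]) (by linarith only [r0]) (by linarith only [r1]) (by linarith only [f]) (by linarith only [c0])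
            have t2 := d4n (x := x) (s := s) (b := (y - 4 * (r * s))) (by linarith only [f])
            have u0 := x4 (x := x) (c := (y - 9 / 10 * r)) (c' := (y - 9 / 10 * r)) (le_abs_self _)
            have u1 := x4 (x := x) (c := (y - 9 / 10 * r)) (c' := (-(y - 9 / 10 * r))) (neg_le_abs _)
            rcases T with T | T <;> linarith only [t2, u0, T, u1]
  · rcases le_or_gt x (1850 / 10000) with g | g
    · have T := e1_pD4X1pC (x := x) (y := y) (s := s) (r := r) (by linarith only [v', e]) (by linarith only [g]) (by linarith only [hrs, f]) (by linarith only [y1]) (by linarith only [v']) (by linarith only [e, g]) (by linarith only [r0]) (by linarith only [r1]) (by linarith only [e]) (by linarith only [f]) (by linarith only [y1, hrs, v', e, f])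
      have t2 := d4p (x := x) (s := s) (b := (y - 4 * (r * s))) (by linarith only [f])
      linarith only [T, t2]
    · rcases le_or_gt x (2250 / 10000) with g | g
      · have T := e1_pD4X2pC (x := x) (y := y) (s := s) (r := r) (by linarith) (by linarith only [g]) (by linarith only [hrs, f]) (by linarith only [y1]) (by linarith only [v']) (by linarith only [e, g]) (by linarith only [r0]) (by linarith only [r1]) (by linarith only [e]) (by linarith only [f])
        have t2 := d4p (x := x) (s := s) (b := (y - 4 * (r * s))) (by linarith only [f])
        have u0 := x2 (x := x) (c := (y - 9 / 10 * r)) (c' := (y - 9 / 10 * r)) (δ := (400 / 10000)) (K := (25 / 1)) (le_abs_self _) (by norm_num) (by norm_num) (by norm_num) (by linarith only [g]) (by linarith)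
        have u1 := x2 (x := x) (c := (y - 9 / 10 * r)) (c' := (-(y - 9 / 10 * r))) (δ := (400 / 10000)) (K := (25 / 1)) (neg_le_abs _) (by norm_num) (by norm_num) (by norm_num) (by linarith only [g]) (by linarith)
        rcases T with T | T <;> linarith only [t2, u0, T, u1]
      · rcases le_or_gt x (2650 / 10000) with g | g
        · have T := e1_pD4X3pC (x := x) (y := y) (s := s) (r := r) (by linarith) (by linarith only [g]) (by linarith only [hrs, f]) (by linarith only [y1]) (by linarith only [v']) (by linarith only [s1]) (by linarith only [r0]) (by linarith only [r1]) (by linarith only [e]) (by linarith only [f])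
          have t2 := d4p (x := x) (s := s) (b := (y - 4 * (r * s))) (by linarith only [f])
          have u0 := x3 (x := x) (c := (y - 9 / 10 * r)) (c' := (y - 9 / 10 * r)) (δ := (400 / 10000)) (le_abs_self _) (by norm_num) (by norm_num) (by linarith) (by linarith only [g])
          have u1 := x3 (x := x) (c := (y - 9 / 10 * r)) (c' := (-(y - 9 / 10 * r))) (δ := (400 / 10000)) (neg_le_abs _) (by norm_num) (by norm_num) (by linarith) (by linarith only [g])
          rcases T with T | T <;> linarith only [t2, u0, T, u1]
        · rcases le_or_gt x (6000 / 10000) with g | g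
          · have T := e1_pD4X4pC (x := x) (y := y) (s := s) (r := r) (by linarith) (by linarith only [g]) (by linarith only [hrs, f]) (by linarith only [y1]) (by linarith only [v']) (by linarith only [s1]) (by linarith only [r0]) (by linarith only [r1]) (by linarith only [f]) (by linarith only [x1, hrs, f])
            have t2 := d4p (x := x) (s := s) (b := (y - 4 * (r * s))) (by linarith only [f])
            have u0 := x4 (x := x) (c := (y - 9 / 10 * r)) (c' := (y - 9 / 10 * r)) (le_abs_self _)
            have u1 := x4 (x := x) (c := (y - 9 / 10 * r)) (c' := (-(y - 9 / 10 * r))) (neg_le_abs _)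
            rcases T with T | T <;> linarith only [t2, u0, T, u1]
          · have y3 : y ≤ 0 := by
              rcases hy with h | h
              · exact h
              · linarith only [g, h]
            linarith only [hrs, f, y3]

end ZD

end Pool.Agent.Work.MP_b30479_gtS.G2

end

section

/-!
# The loss at a hinge next to a ring: `e1`
-/

set_option linter.unusedSimpArgs false
set_option linter.unusedVariables false

namespace Pool.Agent.Work.MP_b30479_gtS.G2

open VOL NumUs

namespace ZD

theorem e1 (x y σ ρ : ℝ) (x0 : 0 ≤ x) (x1 : x ≤ 65 / 100) (y0 : -(158 / 1000) ≤ y)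
    (y1 : y ≤ 1 / 1000) (hy : y ≤ 0 ∨ x ≤ 60 / 100) (c0 : -y ≤ 545 / 1000 * (65 / 100 - x))
    (b0 : -y ≤ 158 / 100 * x) (s0 : 3 / 10 ≤ |σ|) (s1 : |σ| ≤ 1 / 2) (r0 : 0 ≤ ρ)
    (r1 : ρ ≤ 1045 / 10000) :
    fR ⟨x, y⟩ ⟨σ, ρ * LT.th σ⟩ - fR ⟨x, y⟩ ⟨-(11 / 40), 9 / 10 * ρ⟩ ≤
      958 / 10000 - 85 / 100 * ρ := by
  rcases le_total σ 0 with h | h
  · obtain ⟨s, rfl⟩ : ∃ s, σ = -(1 / 2) + s := ⟨σ + 1 / 2, by ring⟩
    rw [abs_of_nonpos h] at s0 s1
    have t := e1_p x0 x1 y0 y1 hy c0 b0 (s := s) (by linarith only [s1]) (by linarith only [s0]) r0 r1
    rw [loss_p (by linarith only [s1]) (by linarith only [s0])]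
    linarith only [t]
  · obtain ⟨s, rfl⟩ : ∃ s, σ = 1 / 2 - s := ⟨1 / 2 - σ, by ring⟩
    rw [abs_of_nonneg h] at s0 s1
    have t := e1_m x0 x1 y0 y1 hy c0 b0 (s := s) (by linarith only [s1]) (by linarith only [s0]) r0 r1
    rw [loss_m (by linarith only [s1]) (by linarith only [s0])]
    linarith only [t]

end ZD

end Pool.Agent.Work.MP_b30479_gtS.G2

end
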