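import Pool.Agent.Work.MP_b30479_gt.TBS.G2.ZRe4C_0
import Pool.Agent.Work.MP_b30479_gt.TBS.NumU.Node
import Pool.Agent.Work.MP_b30479_gt.TBS.NumU.Tree
import Pool.Agent.Work.MP_b30479_gt.TBS.G2.TK2a
import Pool.Agent.Work.MP_b30479_gt.TBS.G2.MDb
import Pool.Agent.Work.MP_b30479_gt.TBS.G2.ZRows

section

/-!
# Part of `ZRe4C`
-/
set_option linter.unusedSimpArgs false
set_option linter.unusedVariables false

set_option deprecated.oldSectionVars true

namespace Pool.Agent.Work.MP_b30479_gtS.G2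

open VOL NumUs

namespace ZD

open NumUs.E ZE

theorem e4b_pD2X1 {x y s r : ℝ} (ua1 : 0 / 10000 ≤ x) (ua2 : x ≤ 1950 / 10000) (ua3 : -(560 / 10000) ≤ y) (ua4 : y ≤ 560 / 10000) (ua5 : 300 / 10000 ≤ s) (ua6 : s ≤ 2000 / 10000) (ua7 : 0 / 10000 ≤ r) (ua8 : r ≤ 1045 / 10000) (ua9 : -(300 / 10000) ≤ x - s) (ua10 : x - s ≤ 0) (ua11 : y ≤ 56 / 100 * x) (ua12 : -y ≤ 56 / 100 * x) :
    NumUs.uu (x + s) (y + 4 * (r * s)) + (((300 / 10000) + (x - s)) * NumIs.lnA (300 / 10000) (y - 4 * (r * s)) - NumUs.uu (300 / 10000) (y - 4 * (r * s))) + (-NumUs.uu (x + 225 / 1000) (y + 9 / 10 * r) + -NumUs.uu (x + 775 / 1000) (y - 9 / 10 * r)) < (92 / 1000 + 94 / 100 * r + 2 * Real.pi * r * (9 / 100 + 4 * s * (4 * s - 1))) := by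
  have h : chkT [sub (add (add (q 92 1000) (mul (q 94 100) ZE.r)) (mul (mul (mul (q 2 1) pi) ZE.r) (add (q 9 100) (mul (mul (q 4 1) ZE.s) (sub (mul (q 4 1) ZE.s) (q 1 1)))))) (add (add (E.uu (add ZE.x ZE.s) (add ZE.y ZE.h)) (sub (mul (add (q 300 10000) (sub ZE.x ZE.s)) (E.lnA (q 300 10000) (sub ZE.y ZE.h))) (E.uu (q 300 10000) (sub ZE.y ZE.h)))) (add (neg (E.uu (add ZE.x (q 225 1000)) (add ZE.y (mul (q 9 10) ZE.r)))) (neg (E.uu (add ZE.x (q 775 1000)) (sub ZE.y (mul (q 9 10) ZE.r)))))), sub (q (-300) 10000) (sub ZE.x ZE.s), sub ZE.x ZE.s, sub ZE.y (mul (q 56 100) ZE.x), sub (neg ZE.y) (mul (q 56 100) ZE.x)] 60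
    14533150871714091198334950620100510450260687051919725303665090597404077496734679209811954219675649861715960622916591678873633306843823645451439480926878221112749171018323991873633374978506228881277162355320159238620901221711344460204072512848416
    [NumIs.V.of 10000 0 1950, NumIs.V.of 10000 (-560) 560, NumIs.V.of 10000 300 2000, NumIs.V.of 10000 0 1045] = true := by
    decide +kernel
  obtain ⟨f, hf, hp⟩ := chkT4 h (by norm_num) (x := x) (y := y) (z := s) (w := r)
    (by norm_num; linarith only [ua1]) (by norm_num; linarith only [ua2]) (by norm_num; linarith only [ua3]) (by norm_num; linarith only [ua4]) (by norm_num; linarith only [ua5]) (by norm_num; linarith only [ua6]) (by norm_num; linarith only [ua7]) (by norm_num; linarith only [ua8])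
  by_contra hc
  push Not at hc
  simp only [List.mem_cons, List.not_mem_nil, or_false] at hf
  rcases hf with rfl | rfl | rfl | rfl | rfl
  · simp only [ZE.x, ZE.y, ZE.s, ZE.r, ZE.h, E.val, NumIs.lkR] at hp
    push_cast at hp
    linarith only [hc, hp]
  · simp only [ZE.x, ZE.y, ZE.s, ZE.r, ZE.h, E.val, NumIs.lkR] at hp
    push_cast at hp
    linarith only [ua9, hp]
  · simp only [ZE.x, ZE.y, ZE.s, ZE.r, ZE.h, E.val, NumIs.lkR] at hp
    push_cast at hp
    linarith only [ua10, hp]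
  · simp only [ZE.x, ZE.y, ZE.s, ZE.r, ZE.h, E.val, NumIs.lkR] at hp
    push_cast at hp
    linarith only [ua11, hp]
  · simp only [ZE.x, ZE.y, ZE.s, ZE.r, ZE.h, E.val, NumIs.lkR] at hp
    push_cast at hp
    linarith only [ua12, hp]

theorem e4b_pD3X1p {x y s r : ℝ} (ua1 : 300 / 10000 ≤ x) (ua2 : x ≤ 1950 / 10000) (ua3 : -(560 / 10000) ≤ y) (ua4 : y ≤ 560 / 10000) (ua5 : 0 / 10000 ≤ s) (ua6 : s ≤ 1950 / 10000) (ua7 : 0 / 10000 ≤ r) (ua8 : r ≤ 1045 / 10000) (ua9 : 0 ≤ x - s) (ua10 : x - s ≤ 300 / 10000) (ua11 : 0 ≤ (y - 4 * (r * s))) (ua12 : y ≤ 56 / 100 * x) (ua13 : -y ≤ 56 / 100 * x) :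
    NumUs.uu (x + s) (y + 4 * (r * s)) + (Real.pi * (1 / 2) * (y - 4 * (r * s)) * (1 + (100 / 3) * (x - s)) + (100 / 3) * (x - s) * NumUs.uu (300 / 10000) (y - 4 * (r * s))) + (-NumUs.uu (x + 225 / 1000) (y + 9 / 10 * r) + -NumUs.uu (x + 775 / 1000) (y - 9 / 10 * r)) < (92 / 1000 + 94 / 100 * r + 2 * Real.pi * r * (9 / 100 + 4 * s * (4 * s - 1))) := by
  have h : chkT [sub (add (add (q 92 1000) (mul (q 94 100) ZE.r)) (mul (mul (mul (q 2 1) pi) ZE.r) (add (q 9 100) (mul (mul (q 4 1) ZE.s) (sub (mul (q 4 1) ZE.s) (q 1 1)))))) (add (add (E.uu (add ZE.x ZE.s) (add ZE.y ZE.h)) (add (mul (mul (mul pi (q 1 2)) (sub ZE.y ZE.h)) (add (q 1 1) (mul (q 100 3) (sub ZE.x ZE.s)))) (mul (mul (q 100 3) (sub ZE.x ZE.s)) (E.uu (q 300 10000) (sub ZE.y ZE.h))))) (add (neg (E.uu (add ZE.x (q 225 1000)) (add ZE.y (mul (q 9 10) ZE.r)))) (neg (E.uu (add ZE.x (q 775 1000)) (sub ZE.y (mul (q 9 10) ZE.r)))))), sub ZE.s ZE.x, sub (sub ZE.x ZE.s) (q 300 10000), neg (sub ZE.y ZE.h), sub ZE.y (mul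 (q 56 100) ZE.x), sub (neg ZE.y) (mul (q 56 100) ZE.x)] 60
    248971840822969365464329325736278108226984810184924931851317860497352121613200195288966502979727277922434897455318377727388172329022011299352809229724335145326298811444141347470638718114622597966957107868144505673528529286971274035964119879136928924192
    [NumIs.V.of 10000 300 1950, NumIs.V.of 10000 (-560) 560, NumIs.V.of 10000 0 1950, NumIs.V.of 10000 0 1045] = true := by
    decide +kernel
  obtain ⟨f, hf, hp⟩ := chkT4 h (by norm_num) (x := x) (y := y) (z := s) (w := r)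
    (by norm_num; linarith only [ua1]) (by norm_num; linarith only [ua2]) (by norm_num; linarith only [ua3]) (by norm_num; linarith only [ua4]) (by norm_num; linarith only [ua5]) (by norm_num; linarith only [ua6]) (by norm_num; linarith only [ua7]) (by norm_num; linarith only [ua8])
  by_contra hc
  push Not at hc
  simp only [List.mem_cons, List.not_mem_nil, or_false] at hf
  rcases hf with rfl | rfl | rfl | rfl | rfl | rfl
  · simp only [ZE.x, ZE.y, ZE.s, ZE.r, ZE.h, E.val, NumIs.lkR] at hp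
    push_cast at hp
    linarith only [hc, hp]
  · simp only [ZE.x, ZE.y, ZE.s, ZE.r, ZE.h, E.val, NumIs.lkR] at hp
    push_cast at hp
    linarith only [ua9, hp]
  · simp only [ZE.x, ZE.y, ZE.s, ZE.r, ZE.h, E.val, NumIs.lkR] at hp
    push_cast at hp
    linarith only [ua10, hp]
  · simp only [ZE.x, ZE.y, ZE.s, ZE.r, ZE.h, E.val, NumIs.lkR] at hp
    push_cast at hp
    linarith only [ua11, hp]
  · simp only [ZE.x, ZE.y, ZE.s, ZE.r, ZE.h, E.val, NumIs.lkR] at hp
    push_cast at hp
    linarith only [ua12, hp]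
  · simp only [ZE.x, ZE.y, ZE.s, ZE.r, ZE.h, E.val, NumIs.lkR] at hp
    push_cast at hp
    linarith only [ua13, hp]

theorem e4b_pD4X1p {x y s r : ℝ} (ua1 : 300 / 10000 ≤ x) (ua2 : x ≤ 1950 / 10000) (ua3 : 0 / 10000 ≤ y) (ua4 : y ≤ 560 / 10000) (ua5 : 0 / 10000 ≤ s) (ua6 : s ≤ 1650 / 10000) (ua7 : 0 / 10000 ≤ r) (ua8 : r ≤ 1045 / 10000) (ua9 : 300 / 10000 ≤ x - s) (ua10 : 0 ≤ (y - 4 * (r * s))) (ua11 : y ≤ 56 / 100 * x) (ua12 : -y ≤ 56 / 100 * x) :
    NumUs.uu (x + s) (y + 4 * (r * s)) + (NumUs.uu (x - s) (y - 4 * (r * s)) + Real.pi * (y - 4 * (r * s))) + (-NumUs.uu (x + 225 / 1000) (y + 9 / 10 * r) + -NumUs.uu (x + 775 / 1000) (y - 9 / 10 * r)) < (92 / 1000 + 94 / 100 * r + 2 * Real.pi * r * (9 / 100 + 4 * s * (4 * s - 1))) := by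
  have h : chkT [sub (add (add (q 92 1000) (mul (q 94 100) ZE.r)) (mul (mul (mul (q 2 1) pi) ZE.r) (add (q 9 100) (mul (mul (q 4 1) ZE.s) (sub (mul (q 4 1) ZE.s) (q 1 1)))))) (add (add (E.uu (add ZE.x ZE.s) (add ZE.y ZE.h)) (add (E.uu (sub ZE.x ZE.s) (sub ZE.y ZE.h)) (mul pi (sub ZE.y ZE.h)))) (add (neg (E.uu (add ZE.x (q 225 1000)) (add ZE.y (mul (q 9 10) ZE.r)))) (neg (E.uu (add ZE.x (q 775 1000)) (sub ZE.y (mul (q 9 10) ZE.r)))))), sub (q 300 10000) (sub ZE.x ZE.s), neg (sub ZE.y ZE.h), sub ZE.y (mul (q 56 100) ZE.x), sub (neg ZE.y) (mul (q 56 100) ZE.x)] 60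
    146900278822661087593513653072642995684258634371593852229133256958882415427707221352429574015465854372605183832570471285053330037960068524957813426953313375208935467196801828562605687725018227425271664263767474962432075360318842481228436189695394062226941102354508958033474121259543912023756845038839300640149723631162398212437476705553821442542833198746982023968
    [NumIs.V.of 10000 300 1950, NumIs.V.of 10000 0 560, NumIs.V.of 10000 0 1650, NumIs.V.of 10000 0 1045] = true := by
    decide +kernel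
  obtain ⟨f, hf, hp⟩ := chkT4 h (by norm_num) (x := x) (y := y) (z := s) (w := r)
    (by norm_num; linarith only [ua1]) (by norm_num; linarith only [ua2]) (by norm_num; linarith only [ua3]) (by norm_num; linarith only [ua4]) (by norm_num; linarith only [ua5]) (by norm_num; linarith only [ua6]) (by norm_num; linarith only [ua7]) (by norm_num; linarith only [ua8])
  by_contra hc
  push Not at hc
  simp only [List.mem_cons, List.not_mem_nil, or_false] at hf
  rcases hf with rfl | rfl | rfl | rfl | rfl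
  · simp only [ZE.x, ZE.y, ZE.s, ZE.r, ZE.h, E.val, NumIs.lkR] at hp
    push_cast at hp
    linarith only [hc, hp]
  · simp only [ZE.x, ZE.y, ZE.s, ZE.r, ZE.h, E.val, NumIs.lkR] at hp
    push_cast at hp
    linarith only [ua9, hp]
  · simp only [ZE.x, ZE.y, ZE.s, ZE.r, ZE.h, E.val, NumIs.lkR] at hp
    push_cast at hp
    linarith only [ua10, hp]
  · simp only [ZE.x, ZE.y, ZE.s, ZE.r, ZE.h, E.val, NumIs.lkR] at hp
    push_cast at hp
    linarith only [ua11, hp]
  · simp only [ZE.x, ZE.y, ZE.s, ZE.r, ZE.h, E.val, NumIs.lkR] at hp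
    push_cast at hp
    linarith only [ua1, ua3, hp]

theorem e4b_pD4X2p {x y s r : ℝ} (ua1 : 1950 / 10000 ≤ x) (ua2 : x ≤ 2250 / 10000) (ua3 : -(560 / 10000) ≤ y) (ua4 : y ≤ 560 / 10000) (ua5 : 0 / 10000 ≤ s) (ua6 : s ≤ 1950 / 10000) (ua7 : 0 / 10000 ≤ r) (ua8 : r ≤ 1045 / 10000) (ua9 : 300 / 10000 ≤ x - s) (ua10 : 0 ≤ (y - 4 * (r * s))) :
    NumUs.uu (x + s) (y + 4 * (r * s)) + (NumUs.uu (x - s) (y - 4 * (r * s)) + Real.pi * (y - 4 * (r * s))) + (-NumUs.uu (x + 225 / 1000) (y + 9 / 10 * r) + ((100 / 3) * (225 / 1000 - x) * NumUs.uu (300 / 10000) (y - 9 / 10 * r) - Real.pi * (1 / 2) * (y - 9 / 10 * r) * (1 - (100 / 3) * (225 / 1000 - x)))) < (92 / 1000 + 94 / 100 * r + 2 * Real.pi * r * (9 / 100 + 4 * s * (4 * s - 1))) ∨ NumUs.uu (x + s) (y + 4 * (r * s)) + (NumUs.uu (x - s) (y - 4 * (r * s)) + Real.pi * (y - 4 * (r * s))) + (-NumUs.uu (x + 225 / 1000) (y + 9 / 10 * r) + ((100 / 3) * (225 / 1000 - x) * NumUs.uu (300 / 10000) (y - 9 / 10 * r) - Real.pi * (1 / 2) *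 -(y - 9 / 10 * r) * (1 - (100 / 3) * (225 / 1000 - x)))) < (92 / 1000 + 94 / 100 * r + 2 * Real.pi * r * (9 / 100 + 4 * s * (4 * s - 1))) := by
  have h : chkT [sub (add (add (q 92 1000) (mul (q 94 100) ZE.r)) (mul (mul (mul (q 2 1) pi) ZE.r) (add (q 9 100) (mul (mul (q 4 1) ZE.s) (sub (mul (q 4 1) ZE.s) (q 1 1)))))) (add (add (E.uu (add ZE.x ZE.s) (add ZE.y ZE.h)) (add (E.uu (sub ZE.x ZE.s) (sub ZE.y ZE.h)) (mul pi (sub ZE.y ZE.h)))) (add (neg (E.uu (add ZE.x (q 225 1000)) (add ZE.y (mul (q 9 10) ZE.r)))) (sub (mul (mul (q 100 3) (sub (q 225 1000) ZE.x)) (E.uu (q 300 10000) (sub ZE.y (mul (q 9 10) ZE.r)))) (mul (mul (mul pi (q 1 2)) (sub ZE.y (mul (q 9 10) ZE.r))) (sub (q 1 1) (mul (q 100 3) (sub (q 225 1000) ZE.x))))))), sub (add (add (q 92 1000) (mul (q 94 100) ZE.r)) (mul (mul (mul (q 2 1) pi) ZE.r) (add (q 9 100) (mul (mul (q 4 1) ZE.s) (sub (mul (q 4 1) ZE.s) (q 1 1)))))) (add (add (E.uu (add ZE.x ZE.s) (add ZE.y ZE.h)) (add (E.uu (sub ZE.x ZE.s) (sub ZE.y ZE.h))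 (mul pi (sub ZE.y ZE.h)))) (add (neg (E.uu (add ZE.x (q 225 1000)) (add ZE.y (mul (q 9 10) ZE.r)))) (sub (mul (mul (q 100 3) (sub (q 225 1000) ZE.x)) (E.uu (q 300 10000) (sub ZE.y (mul (q 9 10) ZE.r)))) (mul (mul (mul pi (q 1 2)) (neg (sub ZE.y (mul (q 9 10) ZE.r)))) (sub (q 1 1) (mul (q 100 3) (sub (q 225 1000) ZE.x))))))), sub (q 300 10000) (sub ZE.x ZE.s), neg (sub ZE.y ZE.h)] 60
    277491213528145871111582538737006285554713692629217008514659746089754118674773402833301046034
    [NumIs.V.of 10000 1950 2250, NumIs.V.of 10000 (-560) 560, NumIs.V.of 10000 0 1950, NumIs.V.of 10000 0 1045] = true := by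
    decide +kernel
  obtain ⟨f, hf, hp⟩ := chkT4 h (by norm_num) (x := x) (y := y) (z := s) (w := r)
    (by norm_num; linarith only [ua1]) (by norm_num; linarith only [ua2]) (by norm_num; linarith only [ua3]) (by norm_num; linarith only [ua4]) (by norm_num; linarith only [ua5]) (by norm_num; linarith only [ua6]) (by norm_num; linarith only [ua7]) (by norm_num; linarith only [ua8])
  by_contra hc
  push Not at hc
  obtain ⟨hc0, hc1⟩ := hc
  simp only [List.mem_cons, List.not_mem_nil, or_false] at hf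
  rcases hf with rfl | rfl | rfl | rfl
  · simp only [ZE.x, ZE.y, ZE.s, ZE.r, ZE.h, E.val, NumIs.lkR] at hp
    push_cast at hp
    linarith only [hc0, hp]
  · simp only [ZE.x, ZE.y, ZE.s, ZE.r, ZE.h, E.val, NumIs.lkR] at hp
    push_cast at hp
    linarith only [hc1, hp]
  · simp only [ZE.x, ZE.y, ZE.s, ZE.r, ZE.h, E.val, NumIs.lkR] at hp
    push_cast at hp
    linarith only [ua9, hp]
  · simp only [ZE.x, ZE.y, ZE.s, ZE.r, ZE.h, E.val, NumIs.lkR] at hp
    push_cast at hp
    linarith only [ua10, hp]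

theorem e4b_pD4X3p {x y s r : ℝ} (ua1 : 2250 / 10000 ≤ x) (ua2 : x ≤ 2550 / 10000) (ua3 : -(560 / 10000) ≤ y) (ua4 : y ≤ 560 / 10000) (ua5 : 0 / 10000 ≤ s) (ua6 : s ≤ 2000 / 10000) (ua7 : 0 / 10000 ≤ r) (ua8 : r ≤ 1045 / 10000) (ua9 : 300 / 10000 ≤ x - s) (ua10 : 0 ≤ (y - 4 * (r * s))) :
    NumUs.uu (x + s) (y + 4 * (r * s)) + (NumUs.uu (x - s) (y - 4 * (r * s)) + Real.pi * (y - 4 * (r * s))) + (-NumUs.uu (x + 225 / 1000) (y + 9 / 10 * r) + (((300 / 10000) - (x - 225 / 1000)) * NumIs.lnA (300 / 10000) (y - 9 / 10 * r) - NumUs.uu (300 / 10000) (y - 9 / 10 * r) - Real.pi * (y - 9 / 10 * r))) < (92 / 1000 + 94 / 100 * r + 2 * Real.pi * r * (9 / 100 + 4 * s * (4 * s - 1))) ∨ NumUs.uu (x + s) (y + 4 * (r * s)) + (NumUs.uu (x - s) (y - 4 * (r * s)) + Real.pi * (y - 4 * (r * s))) + (-NumUs.uu (x + 225 / 1000) (y + 9 / 10 * r) + (((300 / 10000) - (x - 225 / 1000)) * NumIs.lnA (300 / 10000) (y - 9 / 10 * r) - NumUs.uu (300 / 10000) (y - 9 / 10 * r) - Real.pi * -(y - 9 / 10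 * r))) < (92 / 1000 + 94 / 100 * r + 2 * Real.pi * r * (9 / 100 + 4 * s * (4 * s - 1))) := by
  have h : chkT [sub (add (add (q 92 1000) (mul (q 94 100) ZE.r)) (mul (mul (mul (q 2 1) pi) ZE.r) (add (q 9 100) (mul (mul (q 4 1) ZE.s) (sub (mul (q 4 1) ZE.s) (q 1 1)))))) (add (add (E.uu (add ZE.x ZE.s) (add ZE.y ZE.h)) (add (E.uu (sub ZE.x ZE.s) (sub ZE.y ZE.h)) (mul pi (sub ZE.y ZE.h)))) (add (neg (E.uu (add ZE.x (q 225 1000)) (add ZE.y (mul (q 9 10) ZE.r)))) (sub (sub (mul (sub (q 300 10000) (sub ZE.x (q 225 1000))) (E.lnA (q 300 10000) (sub ZE.y (mul (q 9 10) ZE.r)))) (E.uu (q 300 10000) (sub ZE.y (mul (q 9 10) ZE.r)))) (mul pi (sub ZE.y (mul (q 9 10) ZE.r)))))), sub (add (add (q 92 1000) (mul (q 94 100) ZE.r)) (mul (mul (mul (q 2 1) pi) ZE.r) (add (q 9 100) (mul (mul (q 4 1) ZE.s) (sub (mul (q 4 1) ZE.s) (q 1 1)))))) (add (add (E.uu (add ZE.x ZE.s) (add ZE.y ZE.h)) (add (E.uu (sub ZE.x ZE.s) (sub ZE.y ZE.h)) (mul pi (sub ZE.y ZE.h)))) (add (neg (E.uu (add ZE.x (q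 225 1000)) (add ZE.y (mul (q 9 10) ZE.r)))) (sub (sub (mul (sub (q 300 10000) (sub ZE.x (q 225 1000))) (E.lnA (q 300 10000) (sub ZE.y (mul (q 9 10) ZE.r)))) (E.uu (q 300 10000) (sub ZE.y (mul (q 9 10) ZE.r)))) (mul pi (neg (sub ZE.y (mul (q 9 10) ZE.r))))))), sub (q 300 10000) (sub ZE.x ZE.s), neg (sub ZE.y ZE.h)] 60
    3502431931516078635808003523628426935322066278796449041568338706
    [NumIs.V.of 10000 2250 2550, NumIs.V.of 10000 (-560) 560, NumIs.V.of 10000 0 2000, NumIs.V.of 10000 0 1045] = true := by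
    decide +kernel
  obtain ⟨f, hf, hp⟩ := chkT4 h (by norm_num) (x := x) (y := y) (z := s) (w := r)
    (by norm_num; linarith only [ua1]) (by norm_num; linarith only [ua2]) (by norm_num; linarith only [ua3]) (by norm_num; linarith only [ua4]) (by norm_num; linarith only [ua5]) (by norm_num; linarith only [ua6]) (by norm_num; linarith only [ua7]) (by norm_num; linarith only [ua8])
  by_contra hc
  push Not at hc
  obtain ⟨hc0, hc1⟩ := hc
  simp only [List.mem_cons, List.not_mem_nil, or_false] at hf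
  rcases hf with rfl | rfl | rfl | rfl
  · simp only [ZE.x, ZE.y, ZE.s, ZE.r, ZE.h, E.val, NumIs.lkR] at hp
    push_cast at hp
    linarith only [hc0, hp]
  · simp only [ZE.x, ZE.y, ZE.s, ZE.r, ZE.h, E.val, NumIs.lkR] at hp
    push_cast at hp
    linarith only [hc1, hp]
  · simp only [ZE.x, ZE.y, ZE.s, ZE.r, ZE.h, E.val, NumIs.lkR] at hp
    push_cast at hp
    linarith only [ua9, hp]
  · simp only [ZE.x, ZE.y, ZE.s, ZE.r, ZE.h, E.val, NumIs.lkR] at hp
    push_cast at hp
    linarith only [ua10, hp]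

theorem e4b_pD4X4p {x y s r : ℝ} (ua1 : 2550 / 10000 ≤ x) (ua2 : x ≤ 5000 / 10000) (ua3 : -(560 / 10000) ≤ y) (ua4 : y ≤ 560 / 10000) (ua5 : 0 / 10000 ≤ s) (ua6 : s ≤ 2000 / 10000) (ua7 : 0 / 10000 ≤ r) (ua8 : r ≤ 1045 / 10000) (ua9 : 0 ≤ (y - 4 * (r * s))) (ua10 : y ≤ 28 / 10 * (1 / 2 - x)) (ua11 : -y ≤ 28 / 10 * (1 / 2 - x)) :
    NumUs.uu (x + s) (y + 4 * (r * s)) + (NumUs.uu (x - s) (y - 4 * (r * s)) + Real.pi * (y - 4 * (r * s))) + (-NumUs.uu (x + 225 / 1000) (y + 9 / 10 * r) + -(NumUs.uu (x - 225 / 1000) (y - 9 / 10 * r) + Real.pi * (y - 9 / 10 * r))) < (92 / 1000 + 94 / 100 * r + 2 * Real.pi * r * (9 / 100 + 4 * s * (4 * s - 1))) ∨ NumUs.uu (x + s) (y + 4 * (r * s)) + (NumUs.uu (x - s) (y - 4 * (r * s)) + Real.pi * (y - 4 * (r * s))) + (-NumUs.uu (x + 225 / 1000) (y + 9 / 10 * r) + -(NumUs.uu (x - 225 / 1000) (y - 9 / 10 * r) + Real.pi * -(y - 9 / 10 * r))) < (92 / 1000 + 94 / 100 * r + 2 * Real.pi * r * (9 / 100 + 4 * s * (4 * s - 1))) := by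
  have h : chkT [sub (add (add (q 92 1000) (mul (q 94 100) ZE.r)) (mul (mul (mul (q 2 1) pi) ZE.r) (add (q 9 100) (mul (mul (q 4 1) ZE.s) (sub (mul (q 4 1) ZE.s) (q 1 1)))))) (add (add (E.uu (add ZE.x ZE.s) (add ZE.y ZE.h)) (add (E.uu (sub ZE.x ZE.s) (sub ZE.y ZE.h)) (mul pi (sub ZE.y ZE.h)))) (add (neg (E.uu (add ZE.x (q 225 1000)) (add ZE.y (mul (q 9 10) ZE.r)))) (neg (add (E.uu (sub ZE.x (q 225 1000)) (sub ZE.y (mul (q 9 10) ZE.r))) (mul pi (sub ZE.y (mul (q 9 10) ZE.r))))))), sub (add (add (q 92 1000) (mul (q 94 100) ZE.r)) (mul (mul (mul (q 2 1) pi) ZE.r) (add (q 9 100) (mul (mul (q 4 1) ZE.s) (sub (mul (q 4 1) ZE.s) (q 1 1)))))) (add (add (E.uu (add ZE.x ZE.s) (add ZE.y ZE.h)) (add (E.uu (sub ZE.x ZE.s) (sub ZE.y ZE.h)) (mul pi (sub ZE.y ZE.h)))) (add (neg (E.uu (add ZE.x (q 225 1000)) (add ZE.y (mul (q 9 10) ZE.r)))) (neg (add (E.uu (sub ZE.x (q 225 1000)) (sub ZE.y (mul (q 9 10) ZE.r))) (mul pi (neg (sub ZE.y (mul (q 9 10) ZE.r)))))))), neg (sub ZE.y ZE.h),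 sub ZE.y (mul (q 28 10) (sub (q 1 2) ZE.x)), sub (neg ZE.y) (mul (q 28 10) (sub (q 1 2) ZE.x))] 60
    8900606013054689678899958135017643360649818674819690998188710278402144757336859550416985811069766303951630875021214683852405690854445266389273541386569622290295095330163225608196707275564654608510864832461103355341633742061589421650290411448469511259425008058604337509620872389339850112276414674643742418566405932864520276090090821291258089504
    [NumIs.V.of 10000 2550 5000, NumIs.V.of 10000 (-560) 560, NumIs.V.of 10000 0 2000, NumIs.V.of 10000 0 1045] = true :=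
      Pool.Agent.Work.NumUs.chkT_of (Pool.Agent.Work.NumUs.runT_split rfl rfl rfl
        e4b_pD4X4p_h1_q1
        e4b_pD4X4p_h1_q2)
  obtain ⟨f, hf, hp⟩ := chkT4 h (by norm_num) (x := x) (y := y) (z := s) (w := r)
    (by norm_num; linarith only [ua1]) (by norm_num; linarith only [ua2]) (by norm_num; linarith only [ua3]) (by norm_num; linarith only [ua4]) (by norm_num; linarith only [ua5]) (by norm_num; linarith only [ua6]) (by norm_num; linarith only [ua7]) (by norm_num; linarith only [ua8])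
  by_contra hc
  push Not at hc
  obtain ⟨hc0, hc1⟩ := hc
  simp only [List.mem_cons, List.not_mem_nil, or_false] at hf
  rcases hf with rfl | rfl | rfl | rfl | rfl
  · simp only [ZE.x, ZE.y, ZE.s, ZE.r, ZE.h, E.val, NumIs.lkR] at hp
    push_cast at hp
    linarith only [hc0, hp]
  · simp only [ZE.x, ZE.y, ZE.s, ZE.r, ZE.h, E.val, NumIs.lkR] at hp
    push_cast at hp
    linarith only [hc1, hp]
  · simp only [ZE.x, ZE.y, ZE.s, ZE.r, ZE.h, E.val, NumIs.lkR] at hp
    push_cast at hp
    linarith only [ua9, hp]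
  · simp only [ZE.x, ZE.y, ZE.s, ZE.r, ZE.h, E.val, NumIs.lkR] at hp
    push_cast at hp
    linarith only [ua10, hp]
  · simp only [ZE.x, ZE.y, ZE.s, ZE.r, ZE.h, E.val, NumIs.lkR] at hp
    push_cast at hp
    linarith only [ua11, hp]

end ZD

end Pool.Agent.Work.MP_b30479_gtS.G2

end

section

/-!
# Part of `ZRe4D`
-/
set_option linter.unusedSimpArgs false
set_option linter.unusedVariables false

set_option deprecated.oldSectionVars true

namespace Pool.Agent.Work.MP_b30479_gtS.G2

open VOL NumUs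

namespace ZD

open NumUs.E ZE

theorem e4b_mD1X1_h1_q1 : Pool.Agent.Work.NumUs.runT [sub (add (add (q 92 1000) (mul (q 94 100) ZE.r)) (mul (mul (mul (q 2 1) pi) ZE.r) (add (q 9 100) (mul (mul (q 4 1) ZE.s) (sub (q 5 2) (mul (q 3 1) ZE.s)))))) (add (add (E.uu (add ZE.x ZE.s) (sub ZE.y ZE.h)) (E.uu (sub (add (q 1 1) ZE.x) ZE.s) (add ZE.y ZE.h))) (add (neg (E.uu (add ZE.x (q 225 1000)) (add ZE.y (mul (q 9 10) ZE.r)))) (neg (E.uu (add ZE.x (q 775 1000)) (sub ZE.y (mul (q 9 10) ZE.r)))))), sub (sub ZE.x ZE.s) (q (-300) 10000), sub ZE.y (mul (q 56 100) ZE.x), sub (neg ZE.y) (mul (q 56 100) ZE.x)] 57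
    2191783149231964040072826157663097877610346989933116337228309029663939171497114626494062162681990225462449332755099029203406247388145769452776942445773919904609722876948024013321477156666736606454163325022719206821726188073111674769284671490059307826449649413223205066969933600150670625498288857359781018130831266509479039882608604886508571914541617465462552522241060706456873251017753130034517137862481525748663284438341744240562427011588347362241208750186181250532522676331030817369851819403149711817750584780863344883504885152212913340742521689297297451871572316725366140037751653365860967109066267923247544953911293566535361326281950327938235026840231585399162191376437992852932680924593858143323898698881403363282151086069214321159782230899097104378521779488613254938708845175789130591793325393632462694484281644807438561603924372138362638304163158777788950521868365340261316343180456781452931184901894019065027236318517001349922533220911472101670964261883943930020289875597616314067234188934308445588575052050317996433988484831956677895446245737449177834676343181370412908603679020416749060409864558125040448400040242304256999326142922906936275758793220763173068463821169718761211597171940949606221701301269233979333549404419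
    (Pool.Agent.Work.NumIs.setL 1 (Pool.Agent.Work.NumIs.setL 2 (Pool.Agent.Work.NumIs.setL 0 ([NumIs.V.of 10000 0 1700, NumIs.V.of 10000 (-560) 560, NumIs.V.of 10000 300 2000, NumIs.V.of 10000 0 1045])))) =
    1012888221211864562464709636860690126297384412881476270463727443151462523615544789157371918940267493672565632129328582290888012182003643442444064452232297326918955893760846800629776893195772874409165682102229313992234508234991139066455256595653275661352223139013351507965181053086267421290116215145637567869061436603382535911729111504757651762692798987301748699290167806421222167453666970506921637457944117583054373705840876266097234634850113812295695511733591150669066108909927941024452409864333700035377569742686319519298120776951266141108041513372218119683134272153397123012598397299701462583186889080266101782797886444429361236163163448059459182094178267634877788632270030637379399160922295048372928553565071597465669708191408451720121152506889726324706842169890960786373615636618549601589569281170969682496860039214294201080605553587649207628774191428751718922796260140428324543576273319038833703690519749552885037138052702132580167144208189957177811204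 := by
  decide +kernel

theorem e4b_mD1X1_h1_q2 : Pool.Agent.Work.NumUs.runT [sub (add (add (q 92 1000) (mul (q 94 100) ZE.r)) (mul (mul (mul (q 2 1) pi) ZE.r) (add (q 9 100) (mul (mul (q 4 1) ZE.s) (sub (q 5 2) (mul (q 3 1) ZE.s)))))) (add (add (E.uu (add ZE.x ZE.s) (sub ZE.y ZE.h)) (E.uu (sub (add (q 1 1) ZE.x) ZE.s) (add ZE.y ZE.h))) (add (neg (E.uu (add ZE.x (q 225 1000)) (add ZE.y (mul (q 9 10) ZE.r)))) (neg (E.uu (add ZE.x (q 775 1000)) (sub ZE.y (mul (q 9 10) ZE.r)))))), sub (sub ZE.x ZE.s) (q (-300) 10000), sub ZE.y (mul (q 56 100) ZE.x), sub (neg ZE.y) (mul (q 56 100) ZE.x)] 57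
    1012888221211864562464709636860690126297384412881476270463727443151462523615544789157371918940267493672565632129328582290888012182003643442444064452232297326918955893760846800629776893195772874409165682102229313992234508234991139066455256595653275661352223139013351507965181053086267421290116215145637567869061436603382535911729111504757651762692798987301748699290167806421222167453666970506921637457944117583054373705840876266097234634850113812295695511733591150669066108909927941024452409864333700035377569742686319519298120776951266141108041513372218119683134272153397123012598397299701462583186889080266101782797886444429361236163163448059459182094178267634877788632270030637379399160922295048372928553565071597465669708191408451720121152506889726324706842169890960786373615636618549601589569281170969682496860039214294201080605553587649207628774191428751718922796260140428324543576273319038833703690519749552885037138052702132580167144208189957177811203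
    (Pool.Agent.Work.NumIs.setR 1 (Pool.Agent.Work.NumIs.setL 2 (Pool.Agent.Work.NumIs.setL 0 ([NumIs.V.of 10000 0 1700, NumIs.V.of 10000 (-560) 560, NumIs.V.of 10000 300 2000, NumIs.V.of 10000 0 1045])))) =
    565880998292508098037351735525686758545000049019801011634664713292884372959117669212644709273635276213247263508812681560816177824445941512971942994587599041387416086854310975221419084216086860700185047925018207450646957605767320793025116332948365750870906186556721419655325619677168595734881772987444381658882974170871531904460120115555409208272115194981563850116289841219890117928608800406948966720863862516727009126283852633043304452127140914182490820988161737683417627127761397965411442105871570366897975377237687316569667645395087664579153747638643631731910587203329458971365699774652219911599575422925283016442615244307003246780660458770651079491729315457519573980346972225533624231060213473548490060547 := by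
  decide +kernel

theorem e4b_mD1X1_h1_q3 : Pool.Agent.Work.NumUs.runT [sub (add (add (q 92 1000) (mul (q 94 100) ZE.r)) (mul (mul (mul (q 2 1) pi) ZE.r) (add (q 9 100) (mul (mul (q 4 1) ZE.s) (sub (q 5 2) (mul (q 3 1) ZE.s)))))) (add (add (E.uu (add ZE.x ZE.s) (sub ZE.y ZE.h)) (E.uu (sub (add (q 1 1) ZE.x) ZE.s) (add ZE.y ZE.h))) (add (neg (E.uu (add ZE.x (q 225 1000)) (add ZE.y (mul (q 9 10) ZE.r)))) (neg (E.uu (add ZE.x (q 775 1000)) (sub ZE.y (mul (q 9 10) ZE.r)))))), sub (sub ZE.x ZE.s) (q (-300) 10000), sub ZE.y (mul (q 56 100) ZE.x), sub (neg ZE.y) (mul (q 56 100) ZE.x)] 58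
    565880998292508098037351735525686758545000049019801011634664713292884372959117669212644709273635276213247263508812681560816177824445941512971942994587599041387416086854310975221419084216086860700185047925018207450646957605767320793025116332948365750870906186556721419655325619677168595734881772987444381658882974170871531904460120115555409208272115194981563850116289841219890117928608800406948966720863862516727009126283852633043304452127140914182490820988161737683417627127761397965411442105871570366897975377237687316569667645395087664579153747638643631731910587203329458971365699774652219911599575422925283016442615244307003246780660458770651079491729315457519573980346972225533624231060213473548490060546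
    (Pool.Agent.Work.NumIs.setR 2 (Pool.Agent.Work.NumIs.setL 0 ([NumIs.V.of 10000 0 1700, NumIs.V.of 10000 (-560) 560, NumIs.V.of 10000 300 2000, NumIs.V.of 10000 0 1045]))) =
    405999705035717646768164302704673114010244313509305595610158760899643586890436068564372295766565086668413448665863797655533409978252044936742086659997045670216623098717430854191921899151440397828093245843857215533422665841984576927488543007218387582998119150807718484907797907420283988949980746214371941419486609939609992723807905351494824311729761234202575510923829334212355403802651264356160444389090151447006793677729214817832105882061267140792543578828336980629958634038062666259156849298456641979427571189994463408549368882842613896320956492650882838543932889198081796470606651043952767726695583136640066305184067941365395414103805994622070576959963649434358275 := by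
  decide +kernel

theorem e4b_mD1X1_h1_q4 : Pool.Agent.Work.NumUs.runT [sub (add (add (q 92 1000) (mul (q 94 100) ZE.r)) (mul (mul (mul (q 2 1) pi) ZE.r) (add (q 9 100) (mul (mul (q 4 1) ZE.s) (sub (q 5 2) (mul (q 3 1) ZE.s)))))) (add (add (E.uu (add ZE.x ZE.s) (sub ZE.y ZE.h)) (E.uu (sub (add (q 1 1) ZE.x) ZE.s) (add ZE.y ZE.h))) (add (neg (E.uu (add ZE.x (q 225 1000)) (add ZE.y (mul (q 9 10) ZE.r)))) (neg (E.uu (add ZE.x (q 775 1000)) (sub ZE.y (mul (q 9 10) ZE.r)))))), sub (sub ZE.x ZE.s) (q (-300) 10000), sub ZE.y (mul (q 56 100) ZE.x), sub (neg ZE.y) (mul (q 56 100) ZE.x)] 58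
    25374981564732352923010268919042069625640269594331599725634922556227724180652254285273268485410317916775840541616487353470838123640752808546380416249815354388538943669839428386995118696965024864255827865241075970838916615124036057968033937951149223937382446925482405306737369213767749309373796638398246338717913121225624545237994084468426519483110077137660969432739333388272212737665704022260027774318134465437924604858075926114506617628829196299533973676771061289372414627378916641197303081153540123714223199374653963034335555177663368520059780790680177408995805574880112279412915690247047982918473946040004144074004246335337213381487874663879411059997728089647392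
    (Pool.Agent.Work.NumIs.setL 2 (Pool.Agent.Work.NumIs.setR 0 ([NumIs.V.of 10000 0 1700, NumIs.V.of 10000 (-560) 560, NumIs.V.of 10000 300 2000, NumIs.V.of 10000 0 1045]))) =
    1311855799639818272606526012057506675954210361532349051536530325086210747012936336133470644540214029200166258854374098668444962844506623656849196135989771030076049197334150452048008502537969991135283537195301731739535063418959735805651918018564092889580836221169986359958335000641664621645614234416227520981391165950958589396695761994968402703644574811338835369867224961047442831123765655296002219553122555147826038131133756657615250055738325724111998166765279505794725277739976913154580353889787230923870607807703407602566907877116139329560849873941062168771395858801814429481233667126997223186783224060532408235458056080939453736314544178 := by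
  decide +kernel

theorem e4b_mD1X1_h1_q5 : Pool.Agent.Work.NumUs.runT [sub (add (add (q 92 1000) (mul (q 94 100) ZE.r)) (mul (mul (mul (q 2 1) pi) ZE.r) (add (q 9 100) (mul (mul (q 4 1) ZE.s) (sub (q 5 2) (mul (q 3 1) ZE.s)))))) (add (add (E.uu (add ZE.x ZE.s) (sub ZE.y ZE.h)) (E.uu (sub (add (q 1 1) ZE.x) ZE.s) (add ZE.y ZE.h))) (add (neg (E.uu (add ZE.x (q 225 1000)) (add ZE.y (mul (q 9 10) ZE.r)))) (neg (E.uu (add ZE.x (q 775 1000)) (sub ZE.y (mul (q 9 10) ZE.r)))))), sub (sub ZE.x ZE.s) (q (-300) 10000), sub ZE.y (mul (q 56 100) ZE.x), sub (neg ZE.y) (mul (q 56 100) ZE.x)] 56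
    5124436717343040127369242234599635452946134224735738482564571582368010730519282563021369705235211051563149448649898822923613136111353998659567172406210043086234567177086525203312533213038945277872201317169147389607558841480311467990827804760015987849925141488945259218587246096256502428303180603188388753833559241995931989830842820292845323061111620356792325663543847504091573559077209591000008670129384981046195461449741236943809570530227834859812492838926873069510645616171784817010079507381981370796369561748841435947526983894984919256097069820082274096763265073444587615161069012214832903073371968986454719669758031566169741157478688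
    (Pool.Agent.Work.NumIs.setL 3 (Pool.Agent.Work.NumIs.setL 1 (Pool.Agent.Work.NumIs.setR 2 (Pool.Agent.Work.NumIs.setR 0 ([NumIs.V.of 10000 0 1700, NumIs.V.of 10000 (-560) 560, NumIs.V.of 10000 300 2000, NumIs.V.of 10000 0 1045]))))) =
    1177738365420113141348019694997073759019209135387769290540114110470782471643673616858430318136423751795221556580465575822798299199624364092634304807325021248163773723399791888750422152151232868131208081088374726430522548861637761727174941131201594464023308128604955046058233671624824489625587904612205028156842348343258799259455366868832164319834393495775358341418116705586228675343130911290626223631083955781331651578732919115308353207158743874154785 := by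
  decide +kernel

theorem e4b_mD1X1_h1_q6 : Pool.Agent.Work.NumUs.runT [sub (add (add (q 92 1000) (mul (q 94 100) ZE.r)) (mul (mul (mul (q 2 1) pi) ZE.r) (add (q 9 100) (mul (mul (q 4 1) ZE.s) (sub (q 5 2) (mul (q 3 1) ZE.s)))))) (add (add (E.uu (add ZE.x ZE.s) (sub ZE.y ZE.h)) (E.uu (sub (add (q 1 1) ZE.x) ZE.s) (add ZE.y ZE.h))) (add (neg (E.uu (add ZE.x (q 225 1000)) (add ZE.y (mul (q 9 10) ZE.r)))) (neg (E.uu (add ZE.x (q 775 1000)) (sub ZE.y (mul (q 9 10) ZE.r)))))), sub (sub ZE.x ZE.s) (q (-300) 10000), sub ZE.y (mul (q 56 100) ZE.x), sub (neg ZE.y) (mul (q 56 100) ZE.x)] 56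
    1177738365420113141348019694997073759019209135387769290540114110470782471643673616858430318136423751795221556580465575822798299199624364092634304807325021248163773723399791888750422152151232868131208081088374726430522548861637761727174941131201594464023308128604955046058233671624824489625587904612205028156842348343258799259455366868832164319834393495775358341418116705586228675343130911290626223631083955781331651578732919115308353207158743874154784
    (Pool.Agent.Work.NumIs.setR 3 (Pool.Agent.Work.NumIs.setL 1 (Pool.Agent.Work.NumIs.setR 2 (Pool.Agent.Work.NumIs.setR 0 ([NumIs.V.of 10000 0 1700, NumIs.V.of 10000 (-560) 560, NumIs.V.of 10000 300 2000, NumIs.V.of 10000 0 1045]))))) =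
    327228532042726238494138465491493085912497929340629663223367677035381910416622542970810924964146183017454709926245551140414802335871128256739897482505904269320569948641568807309716787045922653486228512489062894757501872394453502700568137923755705236938917336517292434451731735552387650052 := by
  decide +kernel

theorem e4b_mD1X1_h1_q7 : Pool.Agent.Work.NumUs.runT [sub (add (add (q 92 1000) (mul (q 94 100) ZE.r)) (mul (mul (mul (q 2 1) pi) ZE.r) (add (q 9 100) (mul (mul (q 4 1) ZE.s) (sub (q 5 2) (mul (q 3 1) ZE.s)))))) (add (add (E.uu (add ZE.x ZE.s) (sub ZE.y ZE.h)) (E.uu (sub (add (q 1 1) ZE.x) ZE.s) (add ZE.y ZE.h))) (add (neg (E.uu (add ZE.x (q 225 1000)) (add ZE.y (mul (q 9 10) ZE.r)))) (neg (E.uu (add ZE.x (q 775 1000)) (sub ZE.y (mul (q 9 10) ZE.r)))))), sub (sub ZE.x ZE.s) (q (-300) 10000), sub ZE.y (mul (q 56 100) ZE.x), sub (neg ZE.y) (mul (q 56 100) ZE.x)] 57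
    327228532042726238494138465491493085912497929340629663223367677035381910416622542970810924964146183017454709926245551140414802335871128256739897482505904269320569948641568807309716787045922653486228512489062894757501872394453502700568137923755705236938917336517292434451731735552387650051
    (Pool.Agent.Work.NumIs.setR 1 (Pool.Agent.Work.NumIs.setR 2 (Pool.Agent.Work.NumIs.setR 0 ([NumIs.V.of 10000 0 1700, NumIs.V.of 10000 (-560) 560, NumIs.V.of 10000 300 2000, NumIs.V.of 10000 0 1045])))) =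
    1 := by
  decide +kernel

theorem e4b_mD4X1p_h1_q1 : Pool.Agent.Work.NumUs.runT [sub (add (add (q 92 1000) (mul (q 94 100) ZE.r)) (mul (mul (mul (q 2 1) pi) ZE.r) (add (q 9 100) (mul (mul (q 4 1) ZE.s) (sub (q 5 2) (mul (q 3 1) ZE.s)))))) (add (add (E.uu (add ZE.x ZE.s) (sub ZE.y ZE.h)) (add (E.uu (sub ZE.x ZE.s) (add ZE.y ZE.h)) (mul pi (add ZE.y ZE.h)))) (add (neg (E.uu (add ZE.x (q 225 1000)) (add ZE.y (mul (q 9 10) ZE.r)))) (neg (E.uu (add ZE.x (q 775 1000)) (sub ZE.y (mul (q 9 10) ZE.r)))))), sub (q 300 10000) (sub ZE.x ZE.s), neg (add ZE.y ZE.h), sub ZE.y (mul (q 56 100) ZE.x), sub (neg ZE.y) (mul (q 56 100) ZE.x)] 59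
    164833851158488122583434994530246683571351248364775166613522497094278856931613878267429521177819936420544804105709797904036478954351708945648959025459133450885370893455678719059716288832203029684889192767395445738166954070019125032244771609774540013083599937623056718827324544392416449592828575064959482829141847440557628031865465921753374053143323028963584102401512181631900632382843806294393109945800298019687374832479304742439827184920015674653276992940593507716107657073185938313814994652501278985894327834243753297827378983527480552432782784729874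
    (Pool.Agent.Work.NumIs.setL 0 ([NumIs.V.of 10000 300 1950, NumIs.V.of 10000 (-560) 560, NumIs.V.of 10000 0 1650, NumIs.V.of 10000 0 1045])) =
    4992180427963855968328989449975581022669891821680904057133029892083189760932528582423579681068243531988094099477056926465293216667315186305483479986337135663867462477743919135139407247915369496448170631685076561854968871467259709365676466538803795753806357089583114639735712263967235 := by
  decide +kernel

theorem e4b_mD4X1p_h1_q2 : Pool.Agent.Work.NumUs.runT [sub (add (add (q 92 1000) (mul (q 94 100) ZE.r)) (mul (mul (mul (q 2 1) pi) ZE.r) (add (q 9 100) (mul (mul (q 4 1) ZE.s) (sub (q 5 2) (mul (q 3 1) ZE.s)))))) (add (add (E.uu (add ZE.x ZE.s) (sub ZE.y ZE.h)) (add (E.uu (sub ZE.x ZE.s) (add ZE.y ZE.h)) (mul pi (add ZE.y ZE.h)))) (add (neg (E.uu (add ZE.x (q 225 1000)) (add ZE.y (mul (q 9 10) ZE.r)))) (neg (E.uu (add ZE.x (q 775 1000)) (sub ZE.y (mul (q 9 10) ZE.r)))))), sub (q 300 10000) (sub ZE.x ZE.s), neg (add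 ZE.y ZE.h), sub ZE.y (mul (q 56 100) ZE.x), sub (neg ZE.y) (mul (q 56 100) ZE.x)] 59
    4992180427963855968328989449975581022669891821680904057133029892083189760932528582423579681068243531988094099477056926465293216667315186305483479986337135663867462477743919135139407247915369496448170631685076561854968871467259709365676466538803795753806357089583114639735712263967234
    (Pool.Agent.Work.NumIs.setR 0 ([NumIs.V.of 10000 300 1950, NumIs.V.of 10000 (-560) 560, NumIs.V.of 10000 0 1650, NumIs.V.of 10000 0 1045])) =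
    1 := by
  decide +kernel

theorem e4b_mD4X3p {x y s r : ℝ} (ua1 : 2250 / 10000 ≤ x) (ua2 : x ≤ 2550 / 10000) (ua3 : -(560 / 10000) ≤ y) (ua4 : y ≤ 560 / 10000) (ua5 : 0 / 10000 ≤ s) (ua6 : s ≤ 2000 / 10000) (ua7 : 0 / 10000 ≤ r) (ua8 : r ≤ 1045 / 10000) (ua9 : 300 / 10000 ≤ x - s) (ua10 : 0 ≤ (y + 4 * (r * s))) :
    NumUs.uu (x + s) (y - 4 * (r * s)) + (NumUs.uu (x - s) (y + 4 * (r * s)) + Real.pi * (y + 4 * (r * s))) + (-NumUs.uu (x + 225 / 1000) (y + 9 / 10 * r) + (((300 / 10000) - (x - 225 / 1000)) * NumIs.lnA (300 / 10000) (y - 9 / 10 * r) - NumUs.uu (300 / 10000) (y - 9 / 10 * r) - Real.pi * (y - 9 / 10 * r))) < (92 / 1000 + 94 / 100 * r + 2 * Real.pi * r * (9 / 100 + 4 * s * (5 / 2 - 3 * s))) ∨ NumUs.uu (x + s) (y - 4 * (r * s)) + (NumUs.uu (x - s) (y + 4 * (r * s)) + Real.pi * (y + 4 * (r * s))) + (-NumUs.uu (x + 225 / 1000) (y + 9 / 10 * r) + (((300 / 10000) - (x - 225 / 1000)) * NumIs.lnA (300 / 10000) (y - 9 / 10 * r) - NumUs.uu (300 / 10000) (y - 9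 / 10 * r) - Real.pi * -(y - 9 / 10 * r))) < (92 / 1000 + 94 / 100 * r + 2 * Real.pi * r * (9 / 100 + 4 * s * (5 / 2 - 3 * s))) := by
  have h : chkT [sub (add (add (q 92 1000) (mul (q 94 100) ZE.r)) (mul (mul (mul (q 2 1) pi) ZE.r) (add (q 9 100) (mul (mul (q 4 1) ZE.s) (sub (q 5 2) (mul (q 3 1) ZE.s)))))) (add (add (E.uu (add ZE.x ZE.s) (sub ZE.y ZE.h)) (add (E.uu (sub ZE.x ZE.s) (add ZE.y ZE.h)) (mul pi (add ZE.y ZE.h)))) (add (neg (E.uu (add ZE.x (q 225 1000)) (add ZE.y (mul (q 9 10) ZE.r)))) (sub (sub (mul (sub (q 300 10000) (sub ZE.x (q 225 1000))) (E.lnA (q 300 10000) (sub ZE.y (mul (q 9 10) ZE.r)))) (E.uu (q 300 10000) (sub ZE.y (mul (q 9 10) ZE.r)))) (mul pi (sub ZE.y (mul (q 9 10) ZE.r)))))), sub (add (add (q 92 1000) (mul (q 94 100) ZE.r)) (mul (mul (mul (q 2 1) pi) ZE.r) (add (q 9 100) (mul (mul (q 4 1) ZE.s) (sub (q 5 2) (mul (q 3 1) ZE.s)))))) (add (add (E.uu (add ZE.x ZE.s) (sub ZE.y ZE.h)) (add (E.uu (sub ZE.x ZE.s) (add ZE.y ZE.h)) (mul pi (add ZE.y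 ZE.h)))) (add (neg (E.uu (add ZE.x (q 225 1000)) (add ZE.y (mul (q 9 10) ZE.r)))) (sub (sub (mul (sub (q 300 10000) (sub ZE.x (q 225 1000))) (E.lnA (q 300 10000) (sub ZE.y (mul (q 9 10) ZE.r)))) (E.uu (q 300 10000) (sub ZE.y (mul (q 9 10) ZE.r)))) (mul pi (neg (sub ZE.y (mul (q 9 10) ZE.r))))))), sub (q 300 10000) (sub ZE.x ZE.s), neg (add ZE.y ZE.h)] 60
    830463229491713557379328251431052680270130
    [NumIs.V.of 10000 2250 2550, NumIs.V.of 10000 (-560) 560, NumIs.V.of 10000 0 2000, NumIs.V.of 10000 0 1045] = true := by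
    decide +kernel
  obtain ⟨f, hf, hp⟩ := chkT4 h (by norm_num) (x := x) (y := y) (z := s) (w := r)
    (by norm_num; linarith only [ua1]) (by norm_num; linarith only [ua2]) (by norm_num; linarith only [ua3]) (by norm_num; linarith only [ua4]) (by norm_num; linarith only [ua5]) (by norm_num; linarith only [ua6]) (by norm_num; linarith only [ua7]) (by norm_num; linarith only [ua8])
  by_contra hc
  push Not at hc
  obtain ⟨hc0, hc1⟩ := hc
  simp only [List.mem_cons, List.not_mem_nil, or_false] at hf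
  rcases hf with rfl | rfl | rfl | rfl
  · simp only [ZE.x, ZE.y, ZE.s, ZE.r, ZE.h, E.val, NumIs.lkR] at hp
    push_cast at hp
    linarith only [hc0, hp]
  · simp only [ZE.x, ZE.y, ZE.s, ZE.r, ZE.h, E.val, NumIs.lkR] at hp
    push_cast at hp
    linarith only [hc1, hp]
  · simp only [ZE.x, ZE.y, ZE.s, ZE.r, ZE.h, E.val, NumIs.lkR] at hp
    push_cast at hp
    linarith only [ua9, hp]
  · simp only [ZE.x, ZE.y, ZE.s, ZE.r, ZE.h, E.val, NumIs.lkR] at hp
    push_cast at hp
    linarith only [ua10, hp]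

theorem e4b_mD4X2n {x y s r : ℝ} (ua1 : 1950 / 10000 ≤ x) (ua2 : x ≤ 2250 / 10000) (ua3 : -(560 / 10000) ≤ y) (ua4 : y ≤ 560 / 10000) (ua5 : 0 / 10000 ≤ s) (ua6 : s ≤ 1950 / 10000) (ua7 : 0 / 10000 ≤ r) (ua8 : r ≤ 1045 / 10000) (ua9 : 300 / 10000 ≤ x - s) (ua10 : (y + 4 * (r * s)) ≤ 0) :
    NumUs.uu (x + s) (y - 4 * (r * s)) + (NumUs.uu (x - s) (y + 4 * (r * s)) + Real.pi * -(y + 4 * (r * s))) + (-NumUs.uu (x + 225 / 1000) (y + 9 / 10 * r) + ((100 / 3) * (225 / 1000 - x) * NumUs.uu (300 / 10000) (y - 9 / 10 * r) - Real.pi * (1 / 2) * (y - 9 / 10 * r) * (1 - (100 / 3) * (225 / 1000 - x)))) < (92 / 1000 + 94 / 100 * r + 2 * Real.pi * r * (9 / 100 + 4 * s * (5 / 2 - 3 * s))) ∨ NumUs.uu (x + s) (y - 4 * (r * s)) + (NumUs.uu (x - s) (y + 4 * (r * s)) + Real.pi * -(y + 4 * (r * s))) + (-NumUs.uu (x + 225 / 1000) (y + 9 / 10 * r) + ((100 / 3) * (225 / 1000 - x) * NumUs.uu (300 / 10000) (y - 9 / 10 * r) - Real.pi * (1 / 2) * -(y - 9 / 10 * r) * (1 - (100 / 3) * (225 / 1000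 - x)))) < (92 / 1000 + 94 / 100 * r + 2 * Real.pi * r * (9 / 100 + 4 * s * (5 / 2 - 3 * s))) := by
  have h : chkT [sub (add (add (q 92 1000) (mul (q 94 100) ZE.r)) (mul (mul (mul (q 2 1) pi) ZE.r) (add (q 9 100) (mul (mul (q 4 1) ZE.s) (sub (q 5 2) (mul (q 3 1) ZE.s)))))) (add (add (E.uu (add ZE.x ZE.s) (sub ZE.y ZE.h)) (add (E.uu (sub ZE.x ZE.s) (add ZE.y ZE.h)) (mul pi (neg (add ZE.y ZE.h))))) (add (neg (E.uu (add ZE.x (q 225 1000)) (add ZE.y (mul (q 9 10) ZE.r)))) (sub (mul (mul (q 100 3) (sub (q 225 1000) ZE.x)) (E.uu (q 300 10000) (sub ZE.y (mul (q 9 10) ZE.r)))) (mul (mul (mul pi (q 1 2)) (sub ZE.y (mul (q 9 10) ZE.r))) (sub (q 1 1) (mul (q 100 3) (sub (q 225 1000) ZE.x))))))), sub (add (add (q 92 1000) (mul (q 94 100) ZE.r)) (mul (mul (mul (q 2 1) pi) ZE.r) (add (q 9 100) (mul (mul (q 4 1) ZE.s) (sub (q 5 2) (mul (q 3 1) ZE.s)))))) (add (add (E.uu (add ZE.x ZE.s) (sub ZE.y ZE.h)) (add (E.uu (sub ZE.x ZE.s) (add ZE.y ZE.h)) (mul pi (neg (add ZE.y ZE.h))))) (add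 (neg (E.uu (add ZE.x (q 225 1000)) (add ZE.y (mul (q 9 10) ZE.r)))) (sub (mul (mul (q 100 3) (sub (q 225 1000) ZE.x)) (E.uu (q 300 10000) (sub ZE.y (mul (q 9 10) ZE.r)))) (mul (mul (mul pi (q 1 2)) (neg (sub ZE.y (mul (q 9 10) ZE.r)))) (sub (q 1 1) (mul (q 100 3) (sub (q 225 1000) ZE.x))))))), sub (q 300 10000) (sub ZE.x ZE.s), add (q 0 1) (add ZE.y ZE.h)] 60
    59137539444136844550120496722900508012303558503129630132352145384087858
    [NumIs.V.of 10000 1950 2250, NumIs.V.of 10000 (-560) 560, NumIs.V.of 10000 0 1950, NumIs.V.of 10000 0 1045] = true := by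
    decide +kernel
  obtain ⟨f, hf, hp⟩ := chkT4 h (by norm_num) (x := x) (y := y) (z := s) (w := r)
    (by norm_num; linarith only [ua1]) (by norm_num; linarith only [ua2]) (by norm_num; linarith only [ua3]) (by norm_num; linarith only [ua4]) (by norm_num; linarith only [ua5]) (by norm_num; linarith only [ua6]) (by norm_num; linarith only [ua7]) (by norm_num; linarith only [ua8])
  by_contra hc
  push Not at hc
  obtain ⟨hc0, hc1⟩ := hc
  simp only [List.mem_cons, List.not_mem_nil, or_false] at hf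
  rcases hf with rfl | rfl | rfl | rfl
  · simp only [ZE.x, ZE.y, ZE.s, ZE.r, ZE.h, E.val, NumIs.lkR] at hp
    push_cast at hp
    linarith only [hc0, hp]
  · simp only [ZE.x, ZE.y, ZE.s, ZE.r, ZE.h, E.val, NumIs.lkR] at hp
    push_cast at hp
    linarith only [hc1, hp]
  · simp only [ZE.x, ZE.y, ZE.s, ZE.r, ZE.h, E.val, NumIs.lkR] at hp
    push_cast at hp
    linarith only [ua9, hp]
  · simp only [ZE.x, ZE.y, ZE.s, ZE.r, ZE.h, E.val, NumIs.lkR] at hp
    push_cast at hp
    linarith only [ua10, hp]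

theorem e4b_mD4X3n {x y s r : ℝ} (ua1 : 2250 / 10000 ≤ x) (ua2 : x ≤ 2550 / 10000) (ua3 : -(560 / 10000) ≤ y) (ua4 : y ≤ 560 / 10000) (ua5 : 0 / 10000 ≤ s) (ua6 : s ≤ 2000 / 10000) (ua7 : 0 / 10000 ≤ r) (ua8 : r ≤ 1045 / 10000) (ua9 : 300 / 10000 ≤ x - s) (ua10 : (y + 4 * (r * s)) ≤ 0) :
    NumUs.uu (x + s) (y - 4 * (r * s)) + (NumUs.uu (x - s) (y + 4 * (r * s)) + Real.pi * -(y + 4 * (r * s))) + (-NumUs.uu (x + 225 / 1000) (y + 9 / 10 * r) + (((300 / 10000) - (x - 225 / 1000)) * NumIs.lnA (300 / 10000) (y - 9 / 10 * r) - NumUs.uu (300 / 10000) (y - 9 / 10 * r) - Real.pi * (y - 9 / 10 * r))) < (92 / 1000 + 94 / 100 * r + 2 * Real.pi * r * (9 / 100 + 4 * s * (5 / 2 - 3 * s))) ∨ NumUs.uu (x + s) (y - 4 * (r * s)) + (NumUs.uu (x - s) (y + 4 * (r * s)) + Real.pi * -(y + 4 * (r * s))) + (-NumUs.uu (x + 225 / 1000) (y + 9 / 10 * r) + (((300 / 10000) - (x - 225 / 1000)) * NumIs.lnA (300 / 10000) (y - 9 / 10 * r) - NumUs.uu (300 / 10000) (y - 9 / 10 * r) - Real.pi * -(y -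 9 / 10 * r))) < (92 / 1000 + 94 / 100 * r + 2 * Real.pi * r * (9 / 100 + 4 * s * (5 / 2 - 3 * s))) := by
  have h : chkT [sub (add (add (q 92 1000) (mul (q 94 100) ZE.r)) (mul (mul (mul (q 2 1) pi) ZE.r) (add (q 9 100) (mul (mul (q 4 1) ZE.s) (sub (q 5 2) (mul (q 3 1) ZE.s)))))) (add (add (E.uu (add ZE.x ZE.s) (sub ZE.y ZE.h)) (add (E.uu (sub ZE.x ZE.s) (add ZE.y ZE.h)) (mul pi (neg (add ZE.y ZE.h))))) (add (neg (E.uu (add ZE.x (q 225 1000)) (add ZE.y (mul (q 9 10) ZE.r)))) (sub (sub (mul (sub (q 300 10000) (sub ZE.x (q 225 1000))) (E.lnA (q 300 10000) (sub ZE.y (mul (q 9 10) ZE.r)))) (E.uu (q 300 10000) (sub ZE.y (mul (q 9 10) ZE.r)))) (mul pi (sub ZE.y (mul (q 9 10) ZE.r)))))), sub (add (add (q 92 1000) (mul (q 94 100) ZE.r)) (mul (mul (mul (q 2 1) pi) ZE.r) (add (q 9 100) (mul (mul (q 4 1) ZE.s) (sub (q 5 2) (mul (q 3 1) ZE.s)))))) (add (add (E.uu (add ZE.x ZE.s) (sub ZE.y ZE.h)) (add (E.uu (sub ZE.x ZE.s) (add ZE.y ZE.h)) (mul pi (neg (add ZE.y ZE.h))))) (add (neg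 (E.uu (add ZE.x (q 225 1000)) (add ZE.y (mul (q 9 10) ZE.r)))) (sub (sub (mul (sub (q 300 10000) (sub ZE.x (q 225 1000))) (E.lnA (q 300 10000) (sub ZE.y (mul (q 9 10) ZE.r)))) (E.uu (q 300 10000) (sub ZE.y (mul (q 9 10) ZE.r)))) (mul pi (neg (sub ZE.y (mul (q 9 10) ZE.r))))))), sub (q 300 10000) (sub ZE.x ZE.s), add (q 0 1) (add ZE.y ZE.h)] 60
    191083696254615979742095104426327764711838514
    [NumIs.V.of 10000 2250 2550, NumIs.V.of 10000 (-560) 560, NumIs.V.of 10000 0 2000, NumIs.V.of 10000 0 1045] = true := by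
    decide +kernel
  obtain ⟨f, hf, hp⟩ := chkT4 h (by norm_num) (x := x) (y := y) (z := s) (w := r)
    (by norm_num; linarith only [ua1]) (by norm_num; linarith only [ua2]) (by norm_num; linarith only [ua3]) (by norm_num; linarith only [ua4]) (by norm_num; linarith only [ua5]) (by norm_num; linarith only [ua6]) (by norm_num; linarith only [ua7]) (by norm_num; linarith only [ua8])
  by_contra hc
  push Not at hc
  obtain ⟨hc0, hc1⟩ := hc
  simp only [List.mem_cons, List.not_mem_nil, or_false] at hf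
  rcases hf with rfl | rfl | rfl | rfl
  · simp only [ZE.x, ZE.y, ZE.s, ZE.r, ZE.h, E.val, NumIs.lkR] at hp
    push_cast at hp
    linarith only [hc0, hp]
  · simp only [ZE.x, ZE.y, ZE.s, ZE.r, ZE.h, E.val, NumIs.lkR] at hp
    push_cast at hp
    linarith only [hc1, hp]
  · simp only [ZE.x, ZE.y, ZE.s, ZE.r, ZE.h, E.val, NumIs.lkR] at hp
    push_cast at hp
    linarith only [ua9, hp]
  · simp only [ZE.x, ZE.y, ZE.s, ZE.r, ZE.h, E.val, NumIs.lkR] at hp
    push_cast at hp
    linarith only [ua10, hp]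

end ZD

end Pool.Agent.Work.MP_b30479_gtS.G2

end

section

/-!
# Part of `ZRe4D`
-/
set_option linter.unusedSimpArgs false
set_option linter.unusedVariables false

set_option deprecated.oldSectionVars true

namespace Pool.Agent.Work.MP_b30479_gtS.G2

open VOL NumUs

namespace ZD

open NumUs.E ZE

theorem e4b_mD2X1 {x y s r : ℝ} (ua1 : 0 / 10000 ≤ x) (ua2 : x ≤ 1950 / 10000) (ua3 : -(560 / 10000) ≤ y) (ua4 : y ≤ 560 / 10000) (ua5 : 300 / 10000 ≤ s) (ua6 : s ≤ 2000 / 10000) (ua7 : 0 / 10000 ≤ r) (ua8 : r ≤ 1045 / 10000) (ua9 : -(300 / 10000) ≤ x - s) (ua10 : x - s ≤ 0) (ua11 : y ≤ 56 / 100 * x) (ua12 : -y ≤ 56 / 100 * x) :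
    NumUs.uu (x + s) (y - 4 * (r * s)) + (((300 / 10000) + (x - s)) * NumIs.lnA (300 / 10000) (y + 4 * (r * s)) - NumUs.uu (300 / 10000) (y + 4 * (r * s))) + (-NumUs.uu (x + 225 / 1000) (y + 9 / 10 * r) + -NumUs.uu (x + 775 / 1000) (y - 9 / 10 * r)) < (92 / 1000 + 94 / 100 * r + 2 * Real.pi * r * (9 / 100 + 4 * s * (5 / 2 - 3 * s))) := by
  have h : chkT [sub (add (add (q 92 1000) (mul (q 94 100) ZE.r)) (mul (mul (mul (q 2 1) pi) ZE.r) (add (q 9 100) (mul (mul (q 4 1) ZE.s) (sub (q 5 2) (mul (q 3 1) ZE.s)))))) (add (add (E.uu (add ZE.x ZE.s) (sub ZE.y ZE.h)) (sub (mul (add (q 300 10000) (sub ZE.x ZE.s)) (E.lnA (q 300 10000) (add ZE.y ZE.h))) (E.uu (q 300 10000) (add ZE.y ZE.h)))) (add (neg (E.uu (add ZE.x (q 225 1000)) (add ZE.y (mul (q 9 10) ZE.r)))) (neg (E.uu (add ZE.x (q 775 1000)) (sub ZE.y (mul (q 9 10) ZE.r)))))), sub (q (-300) 10000) (sub ZE.x ZE.s), sub ZE.x ZE.s, sub ZE.y (mul (q 56 100) ZE.x), sub (neg ZE.y) (mul (q 56 100) ZE.x)] 60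
    538601085235376934682778891556130349963684254565904129265041932052804800041643278651591773054452872687578824292577700190277097335493597727962272092844215022705492899668333494816
    [NumIs.V.of 10000 0 1950, NumIs.V.of 10000 (-560) 560, NumIs.V.of 10000 300 2000, NumIs.V.of 10000 0 1045] = true := by
    decide +kernel
  obtain ⟨f, hf, hp⟩ := chkT4 h (by norm_num) (x := x) (y := y) (z := s) (w := r)
    (by norm_num; linarith only [ua1]) (by norm_num; linarith only [ua2]) (by norm_num; linarith only [ua3]) (by norm_num; linarith only [ua4]) (by norm_num; linarith only [ua5]) (by norm_num; linarith only [ua6]) (by norm_num; linarith only [ua7]) (by norm_num; linarith only [ua8])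
  by_contra hc
  push Not at hc
  simp only [List.mem_cons, List.not_mem_nil, or_false] at hf
  rcases hf with rfl | rfl | rfl | rfl | rfl
  · simp only [ZE.x, ZE.y, ZE.s, ZE.r, ZE.h, E.val, NumIs.lkR] at hp
    push_cast at hp
    linarith only [hc, hp]
  · simp only [ZE.x, ZE.y, ZE.s, ZE.r, ZE.h, E.val, NumIs.lkR] at hp
    push_cast at hp
    linarith only [ua9, hp]
  · simp only [ZE.x, ZE.y, ZE.s, ZE.r, ZE.h, E.val, NumIs.lkR] at hp
    push_cast at hp
    linarith only [ua10, hp]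
  · simp only [ZE.x, ZE.y, ZE.s, ZE.r, ZE.h, E.val, NumIs.lkR] at hp
    push_cast at hp
    linarith only [ua11, hp]
  · simp only [ZE.x, ZE.y, ZE.s, ZE.r, ZE.h, E.val, NumIs.lkR] at hp
    push_cast at hp
    linarith only [ua12, hp]

theorem e4b_mD2X2 {x y s r : ℝ} (ua1 : 1950 / 10000 ≤ x) (ua2 : x ≤ 2000 / 10000) (ua3 : -(560 / 10000) ≤ y) (ua4 : y ≤ 560 / 10000) (ua5 : 1950 / 10000 ≤ s) (ua6 : s ≤ 2000 / 10000) (ua7 : 0 / 10000 ≤ r) (ua8 : r ≤ 1045 / 10000) (ua9 : -(300 / 10000) ≤ x - s) (ua10 : x - s ≤ 0) :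
    NumUs.uu (x + s) (y - 4 * (r * s)) + (((300 / 10000) + (x - s)) * NumIs.lnA (300 / 10000) (y + 4 * (r * s)) - NumUs.uu (300 / 10000) (y + 4 * (r * s))) + (-NumUs.uu (x + 225 / 1000) (y + 9 / 10 * r) + ((100 / 3) * (225 / 1000 - x) * NumUs.uu (300 / 10000) (y - 9 / 10 * r) - Real.pi * (1 / 2) * (y - 9 / 10 * r) * (1 - (100 / 3) * (225 / 1000 - x)))) < (92 / 1000 + 94 / 100 * r + 2 * Real.pi * r * (9 / 100 + 4 * s * (5 / 2 - 3 * s))) ∨ NumUs.uu (x + s) (y - 4 * (r * s)) + (((300 / 10000) + (x - s)) * NumIs.lnA (300 / 10000) (y + 4 * (r * s)) - NumUs.uu (300 / 10000) (y + 4 * (r * s))) + (-NumUs.uu (x + 225 / 1000) (y + 9 / 10 * r) + ((100 / 3) * (225 / 1000 - x) * NumUs.uu (300 / 10000) (y - 9 / 10 * r) - Real.pi * (1 / 2) * -(y - 9 / 10 * r) * (1 - (100 / 3) * (225 / 1000 - x)))) < (92 / 1000 + 94 / 100 * r + 2 * Real.pi * r * (9 / 100 + 4 * s * (5 / 2 - 3 * s))) := by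
  have h : chkT [sub (add (add (q 92 1000) (mul (q 94 100) ZE.r)) (mul (mul (mul (q 2 1) pi) ZE.r) (add (q 9 100) (mul (mul (q 4 1) ZE.s) (sub (q 5 2) (mul (q 3 1) ZE.s)))))) (add (add (E.uu (add ZE.x ZE.s) (sub ZE.y ZE.h)) (sub (mul (add (q 300 10000) (sub ZE.x ZE.s)) (E.lnA (q 300 10000) (add ZE.y ZE.h))) (E.uu (q 300 10000) (add ZE.y ZE.h)))) (add (neg (E.uu (add ZE.x (q 225 1000)) (add ZE.y (mul (q 9 10) ZE.r)))) (sub (mul (mul (q 100 3) (sub (q 225 1000) ZE.x)) (E.uu (q 300 10000) (sub ZE.y (mul (q 9 10) ZE.r)))) (mul (mul (mul pi (q 1 2)) (sub ZE.y (mul (q 9 10) ZE.r))) (sub (q 1 1) (mul (q 100 3) (sub (q 225 1000) ZE.x))))))), sub (add (add (q 92 1000) (mul (q 94 100) ZE.r)) (mul (mul (mul (q 2 1) pi) ZE.r) (add (q 9 100) (mul (mul (q 4 1) ZE.s) (sub (q 5 2) (mul (q 3 1) ZE.s)))))) (add (add (E.uu (add ZE.x ZE.s) (sub ZE.y ZE.h)) (sub (mul (add (q 300 10000) (sub ZE.x ZE.s)) (E.lnA (q 300 10000) (add ZE.y ZE.h))) (E.uu (q 300 10000) (add ZE.y ZE.h)))) (add (neg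 (E.uu (add ZE.x (q 225 1000)) (add ZE.y (mul (q 9 10) ZE.r)))) (sub (mul (mul (q 100 3) (sub (q 225 1000) ZE.x)) (E.uu (q 300 10000) (sub ZE.y (mul (q 9 10) ZE.r)))) (mul (mul (mul pi (q 1 2)) (neg (sub ZE.y (mul (q 9 10) ZE.r)))) (sub (q 1 1) (mul (q 100 3) (sub (q 225 1000) ZE.x))))))), sub (q (-300) 10000) (sub ZE.x ZE.s), sub ZE.x ZE.s] 60
    36643045651
    [NumIs.V.of 10000 1950 2000, NumIs.V.of 10000 (-560) 560, NumIs.V.of 10000 1950 2000, NumIs.V.of 10000 0 1045] = true := by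
    decide +kernel
  obtain ⟨f, hf, hp⟩ := chkT4 h (by norm_num) (x := x) (y := y) (z := s) (w := r)
    (by norm_num; linarith only [ua1]) (by norm_num; linarith only [ua2]) (by norm_num; linarith only [ua3]) (by norm_num; linarith only [ua4]) (by norm_num; linarith only [ua5]) (by norm_num; linarith only [ua6]) (by norm_num; linarith only [ua7]) (by norm_num; linarith only [ua8])
  by_contra hc
  push Not at hc
  obtain ⟨hc0, hc1⟩ := hc
  simp only [List.mem_cons, List.not_mem_nil, or_false] at hf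
  rcases hf with rfl | rfl | rfl | rfl
  · simp only [ZE.x, ZE.y, ZE.s, ZE.r, ZE.h, E.val, NumIs.lkR] at hp
    push_cast at hp
    linarith only [hc0, hp]
  · simp only [ZE.x, ZE.y, ZE.s, ZE.r, ZE.h, E.val, NumIs.lkR] at hp
    push_cast at hp
    linarith only [hc1, hp]
  · simp only [ZE.x, ZE.y, ZE.s, ZE.r, ZE.h, E.val, NumIs.lkR] at hp
    push_cast at hp
    linarith only [ua1, ua6, hp]
  · simp only [ZE.x, ZE.y, ZE.s, ZE.r, ZE.h, E.val, NumIs.lkR] at hp
    push_cast at hp
    linarith only [ua10, hp]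

theorem e4b_mD3X1p {x y s r : ℝ} (ua1 : 300 / 10000 ≤ x) (ua2 : x ≤ 1950 / 10000) (ua3 : -(560 / 10000) ≤ y) (ua4 : y ≤ 560 / 10000) (ua5 : 0 / 10000 ≤ s) (ua6 : s ≤ 1950 / 10000) (ua7 : 0 / 10000 ≤ r) (ua8 : r ≤ 1045 / 10000) (ua9 : 0 ≤ x - s) (ua10 : x - s ≤ 300 / 10000) (ua11 : 0 ≤ (y + 4 * (r * s))) (ua12 : y ≤ 56 / 100 * x) (ua13 : -y ≤ 56 / 100 * x) :
    NumUs.uu (x + s) (y - 4 * (r * s)) + (Real.pi * (1 / 2) * (y + 4 * (r * s)) * (1 + (100 / 3) * (x - s)) + (100 / 3) * (x - s) * NumUs.uu (300 / 10000) (y + 4 * (r * s))) + (-NumUs.uu (x + 225 / 1000) (y + 9 / 10 * r) + -NumUs.uu (x + 775 / 1000) (y - 9 / 10 * r)) < (92 / 1000 + 94 / 100 * r + 2 * Real.pi * r * (9 / 100 + 4 * s * (5 / 2 - 3 * s))) := by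
  have h : chkT [sub (add (add (q 92 1000) (mul (q 94 100) ZE.r)) (mul (mul (mul (q 2 1) pi) ZE.r) (add (q 9 100) (mul (mul (q 4 1) ZE.s) (sub (q 5 2) (mul (q 3 1) ZE.s)))))) (add (add (E.uu (add ZE.x ZE.s) (sub ZE.y ZE.h)) (add (mul (mul (mul pi (q 1 2)) (add ZE.y ZE.h)) (add (q 1 1) (mul (q 100 3) (sub ZE.x ZE.s)))) (mul (mul (q 100 3) (sub ZE.x ZE.s)) (E.uu (q 300 10000) (add ZE.y ZE.h))))) (add (neg (E.uu (add ZE.x (q 225 1000)) (add ZE.y (mul (q 9 10) ZE.r)))) (neg (E.uu (add ZE.x (q 775 1000)) (sub ZE.y (mul (q 9 10) ZE.r)))))), sub ZE.s ZE.x, sub (sub ZE.x ZE.s) (q 300 10000), neg (add ZE.y ZE.h), sub ZE.y (mul (q 56 100) ZE.x), sub (neg ZE.y) (mul (q 56 100) ZE.x)] 60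
    2314202006764861143597569971938386966207969710390154571888765049636470633420852240297884728716002724872682763039555955215725390715871450411168653330961728797100948797541768489690379387424
    [NumIs.V.of 10000 300 1950, NumIs.V.of 10000 (-560) 560, NumIs.V.of 10000 0 1950, NumIs.V.of 10000 0 1045] = true := by
    decide +kernel
  obtain ⟨f, hf, hp⟩ := chkT4 h (by norm_num) (x := x) (y := y) (z := s) (w := r)
    (by norm_num; linarith only [ua1]) (by norm_num; linarith only [ua2]) (by norm_num; linarith only [ua3]) (by norm_num; linarith only [ua4]) (by norm_num; linarith only [ua5]) (by norm_num; linarith only [ua6]) (by norm_num; linarith only [ua7]) (by norm_num; linarith only [ua8])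
  by_contra hc
  push Not at hc
  simp only [List.mem_cons, List.not_mem_nil, or_false] at hf
  rcases hf with rfl | rfl | rfl | rfl | rfl | rfl
  · simp only [ZE.x, ZE.y, ZE.s, ZE.r, ZE.h, E.val, NumIs.lkR] at hp
    push_cast at hp
    linarith only [hc, hp]
  · simp only [ZE.x, ZE.y, ZE.s, ZE.r, ZE.h, E.val, NumIs.lkR] at hp
    push_cast at hp
    linarith only [ua9, hp]
  · simp only [ZE.x, ZE.y, ZE.s, ZE.r, ZE.h, E.val, NumIs.lkR] at hp
    push_cast at hp
    linarith only [ua10, hp]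
  · simp only [ZE.x, ZE.y, ZE.s, ZE.r, ZE.h, E.val, NumIs.lkR] at hp
    push_cast at hp
    linarith only [ua11, hp]
  · simp only [ZE.x, ZE.y, ZE.s, ZE.r, ZE.h, E.val, NumIs.lkR] at hp
    push_cast at hp
    linarith only [ua12, hp]
  · simp only [ZE.x, ZE.y, ZE.s, ZE.r, ZE.h, E.val, NumIs.lkR] at hp
    push_cast at hp
    linarith only [ua13, hp]

theorem e4b_mD3X2p {x y s r : ℝ} (ua1 : 1950 / 10000 ≤ x) (ua2 : x ≤ 2250 / 10000) (ua3 : -(560 / 10000) ≤ y) (ua4 : y ≤ 560 / 10000) (ua5 : 1650 / 10000 ≤ s) (ua6 : s ≤ 2000 / 10000) (ua7 : 0 / 10000 ≤ r) (ua8 : r ≤ 1045 / 10000) (ua9 : 0 ≤ x - s) (ua10 : x - s ≤ 300 / 10000) (ua11 : 0 ≤ (y + 4 * (r * s))) :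
    NumUs.uu (x + s) (y - 4 * (r * s)) + (Real.pi * (1 / 2) * (y + 4 * (r * s)) * (1 + (100 / 3) * (x - s)) + (100 / 3) * (x - s) * NumUs.uu (300 / 10000) (y + 4 * (r * s))) + (-NumUs.uu (x + 225 / 1000) (y + 9 / 10 * r) + ((100 / 3) * (225 / 1000 - x) * NumUs.uu (300 / 10000) (y - 9 / 10 * r) - Real.pi * (1 / 2) * (y - 9 / 10 * r) * (1 - (100 / 3) * (225 / 1000 - x)))) < (92 / 1000 + 94 / 100 * r + 2 * Real.pi * r * (9 / 100 + 4 * s * (5 / 2 - 3 * s))) ∨ NumUs.uu (x + s) (y - 4 * (r * s)) + (Real.pi * (1 / 2) * (y + 4 * (r * s)) * (1 + (100 / 3) * (x - s)) + (100 / 3) * (x - s) * NumUs.uu (300 / 10000) (y + 4 * (r * s))) + (-NumUs.uu (x + 225 / 1000) (y + 9 / 10 * r) + ((100 / 3) * (225 / 1000 - x) * NumUs.uu (300 / 10000) (y - 9 / 10 * r) - Real.pi * (1 / 2) * -(y - 9 / 10 * r) * (1 - (100 / 3) * (225 / 1000 - x)))) < (92 / 1000 + 94 / 100 * r + 2 * Real.pi * r * (9 / 100 + 4 * s * (5 / 2 - 3 * s))) := by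
  have h : chkT [sub (add (add (q 92 1000) (mul (q 94 100) ZE.r)) (mul (mul (mul (q 2 1) pi) ZE.r) (add (q 9 100) (mul (mul (q 4 1) ZE.s) (sub (q 5 2) (mul (q 3 1) ZE.s)))))) (add (add (E.uu (add ZE.x ZE.s) (sub ZE.y ZE.h)) (add (mul (mul (mul pi (q 1 2)) (add ZE.y ZE.h)) (add (q 1 1) (mul (q 100 3) (sub ZE.x ZE.s)))) (mul (mul (q 100 3) (sub ZE.x ZE.s)) (E.uu (q 300 10000) (add ZE.y ZE.h))))) (add (neg (E.uu (add ZE.x (q 225 1000)) (add ZE.y (mul (q 9 10) ZE.r)))) (sub (mul (mul (q 100 3) (sub (q 225 1000) ZE.x)) (E.uu (q 300 10000) (sub ZE.y (mul (q 9 10) ZE.r)))) (mul (mul (mul pi (q 1 2)) (sub ZE.y (mul (q 9 10) ZE.r))) (sub (q 1 1) (mul (q 100 3) (sub (q 225 1000) ZE.x))))))), sub (add (add (q 92 1000) (mul (q 94 100) ZE.r)) (mul (mul (mul (q 2 1) pi) ZE.r) (add (q 9 100) (mul (mul (q 4 1) ZE.s) (sub (q 5 2) (mul (q 3 1) ZE.s)))))) (add (add (E.uu (add ZE.x ZE.s) (sub ZE.y ZE.h)) (add (mul (mul (mul pi (q 1 2)) (add ZE.y ZE.h)) (add (q 1 1) (mul (q 100 3) (sub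 ZE.x ZE.s)))) (mul (mul (q 100 3) (sub ZE.x ZE.s)) (E.uu (q 300 10000) (add ZE.y ZE.h))))) (add (neg (E.uu (add ZE.x (q 225 1000)) (add ZE.y (mul (q 9 10) ZE.r)))) (sub (mul (mul (q 100 3) (sub (q 225 1000) ZE.x)) (E.uu (q 300 10000) (sub ZE.y (mul (q 9 10) ZE.r)))) (mul (mul (mul pi (q 1 2)) (neg (sub ZE.y (mul (q 9 10) ZE.r)))) (sub (q 1 1) (mul (q 100 3) (sub (q 225 1000) ZE.x))))))), sub ZE.s ZE.x, sub (sub ZE.x ZE.s) (q 300 10000), neg (add ZE.y ZE.h)] 60
    156907806308912304403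
    [NumIs.V.of 10000 1950 2250, NumIs.V.of 10000 (-560) 560, NumIs.V.of 10000 1650 2000, NumIs.V.of 10000 0 1045] = true := by
    decide +kernel
  obtain ⟨f, hf, hp⟩ := chkT4 h (by norm_num) (x := x) (y := y) (z := s) (w := r)
    (by norm_num; linarith only [ua1]) (by norm_num; linarith only [ua2]) (by norm_num; linarith only [ua3]) (by norm_num; linarith only [ua4]) (by norm_num; linarith only [ua5]) (by norm_num; linarith only [ua6]) (by norm_num; linarith only [ua7]) (by norm_num; linarith only [ua8])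
  by_contra hc
  push Not at hc
  obtain ⟨hc0, hc1⟩ := hc
  simp only [List.mem_cons, List.not_mem_nil, or_false] at hf
  rcases hf with rfl | rfl | rfl | rfl | rfl
  · simp only [ZE.x, ZE.y, ZE.s, ZE.r, ZE.h, E.val, NumIs.lkR] at hp
    push_cast at hp
    linarith only [hc0, hp]
  · simp only [ZE.x, ZE.y, ZE.s, ZE.r, ZE.h, E.val, NumIs.lkR] at hp
    push_cast at hp
    linarith only [hc1, hp]
  · simp only [ZE.x, ZE.y, ZE.s, ZE.r, ZE.h, E.val, NumIs.lkR] at hp
    push_cast at hp
    linarith only [ua9, hp]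
  · simp only [ZE.x, ZE.y, ZE.s, ZE.r, ZE.h, E.val, NumIs.lkR] at hp
    push_cast at hp
    linarith only [ua10, hp]
  · simp only [ZE.x, ZE.y, ZE.s, ZE.r, ZE.h, E.val, NumIs.lkR] at hp
    push_cast at hp
    linarith only [ua11, hp]

theorem e4b_mD3X3p {x y s r : ℝ} (ua1 : 2250 / 10000 ≤ x) (ua2 : x ≤ 2300 / 10000) (ua3 : -(560 / 10000) ≤ y) (ua4 : y ≤ 560 / 10000) (ua5 : 1950 / 10000 ≤ s) (ua6 : s ≤ 2000 / 10000) (ua7 : 0 / 10000 ≤ r) (ua8 : r ≤ 1045 / 10000) (ua9 : 0 ≤ x - s) (ua10 : x - s ≤ 300 / 10000) (ua11 : 0 ≤ (y + 4 * (r * s))) :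
    NumUs.uu (x + s) (y - 4 * (r * s)) + (Real.pi * (1 / 2) * (y + 4 * (r * s)) * (1 + (100 / 3) * (x - s)) + (100 / 3) * (x - s) * NumUs.uu (300 / 10000) (y + 4 * (r * s))) + (-NumUs.uu (x + 225 / 1000) (y + 9 / 10 * r) + (((300 / 10000) - (x - 225 / 1000)) * NumIs.lnA (300 / 10000) (y - 9 / 10 * r) - NumUs.uu (300 / 10000) (y - 9 / 10 * r) - Real.pi * (y - 9 / 10 * r))) < (92 / 1000 + 94 / 100 * r + 2 * Real.pi * r * (9 / 100 + 4 * s * (5 / 2 - 3 * s))) ∨ NumUs.uu (x + s) (y - 4 * (r * s)) + (Real.pi * (1 / 2) * (y + 4 * (r * s)) * (1 + (100 / 3) * (x - s)) + (100 / 3) * (x - s) * NumUs.uu (300 / 10000) (y + 4 * (r * s))) + (-NumUs.uu (x + 225 / 1000) (y + 9 / 10 * r) + (((300 / 10000) - (x - 225 / 1000)) * NumIs.lnA (300 / 10000) (y - 9 / 10 * r) - NumUs.uu (300 / 10000) (y - 9 / 10 * r) - Real.pi * -(y - 9 / 10 * r))) < (92 / 1000 + 94 / 100 * r + 2 * Real.pi * r * (9 / 100 + 4 * s * (5 / 2 - 3 * s))) := by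
  have h : chkT [sub (add (add (q 92 1000) (mul (q 94 100) ZE.r)) (mul (mul (mul (q 2 1) pi) ZE.r) (add (q 9 100) (mul (mul (q 4 1) ZE.s) (sub (q 5 2) (mul (q 3 1) ZE.s)))))) (add (add (E.uu (add ZE.x ZE.s) (sub ZE.y ZE.h)) (add (mul (mul (mul pi (q 1 2)) (add ZE.y ZE.h)) (add (q 1 1) (mul (q 100 3) (sub ZE.x ZE.s)))) (mul (mul (q 100 3) (sub ZE.x ZE.s)) (E.uu (q 300 10000) (add ZE.y ZE.h))))) (add (neg (E.uu (add ZE.x (q 225 1000)) (add ZE.y (mul (q 9 10) ZE.r)))) (sub (sub (mul (sub (q 300 10000) (sub ZE.x (q 225 1000))) (E.lnA (q 300 10000) (sub ZE.y (mul (q 9 10) ZE.r)))) (E.uu (q 300 10000) (sub ZE.y (mul (q 9 10) ZE.r)))) (mul pi (sub ZE.y (mul (q 9 10) ZE.r)))))), sub (add (add (q 92 1000) (mul (q 94 100) ZE.r)) (mul (mul (mul (q 2 1) pi) ZE.r) (add (q 9 100) (mul (mul (q 4 1) ZE.s) (sub (q 5 2) (mul (q 3 1) ZE.s)))))) (add (add (E.uu (add ZE.x ZE.s) (sub ZE.y ZE.h)) (add (mul (mul (mul pi (q 1 2)) (add ZE.y ZE.h)) (add (q 1 1) (mul (q 100 3) (sub ZE.x ZE.s))))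 (mul (mul (q 100 3) (sub ZE.x ZE.s)) (E.uu (q 300 10000) (add ZE.y ZE.h))))) (add (neg (E.uu (add ZE.x (q 225 1000)) (add ZE.y (mul (q 9 10) ZE.r)))) (sub (sub (mul (sub (q 300 10000) (sub ZE.x (q 225 1000))) (E.lnA (q 300 10000) (sub ZE.y (mul (q 9 10) ZE.r)))) (E.uu (q 300 10000) (sub ZE.y (mul (q 9 10) ZE.r)))) (mul pi (neg (sub ZE.y (mul (q 9 10) ZE.r))))))), sub ZE.s ZE.x, sub (sub ZE.x ZE.s) (q 300 10000), neg (add ZE.y ZE.h)] 60
    40938012947
    [NumIs.V.of 10000 2250 2300, NumIs.V.of 10000 (-560) 560, NumIs.V.of 10000 1950 2000, NumIs.V.of 10000 0 1045] = true := by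
    decide +kernel
  obtain ⟨f, hf, hp⟩ := chkT4 h (by norm_num) (x := x) (y := y) (z := s) (w := r)
    (by norm_num; linarith only [ua1]) (by norm_num; linarith only [ua2]) (by norm_num; linarith only [ua3]) (by norm_num; linarith only [ua4]) (by norm_num; linarith only [ua5]) (by norm_num; linarith only [ua6]) (by norm_num; linarith only [ua7]) (by norm_num; linarith only [ua8])
  by_contra hc
  push Not at hc
  obtain ⟨hc0, hc1⟩ := hc
  simp only [List.mem_cons, List.not_mem_nil, or_false] at hf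
  rcases hf with rfl | rfl | rfl | rfl | rfl
  · simp only [ZE.x, ZE.y, ZE.s, ZE.r, ZE.h, E.val, NumIs.lkR] at hp
    push_cast at hp
    linarith only [hc0, hp]
  · simp only [ZE.x, ZE.y, ZE.s, ZE.r, ZE.h, E.val, NumIs.lkR] at hp
    push_cast at hp
    linarith only [hc1, hp]
  · simp only [ZE.x, ZE.y, ZE.s, ZE.r, ZE.h, E.val, NumIs.lkR] at hp
    push_cast at hp
    linarith only [ua1, ua6, hp]
  · simp only [ZE.x, ZE.y, ZE.s, ZE.r, ZE.h, E.val, NumIs.lkR] at hp
    push_cast at hp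
    linarith only [ua10, hp]
  · simp only [ZE.x, ZE.y, ZE.s, ZE.r, ZE.h, E.val, NumIs.lkR] at hp
    push_cast at hp
    linarith only [ua11, hp]

theorem e4b_mD4X1p {x y s r : ℝ} (ua1 : 300 / 10000 ≤ x) (ua2 : x ≤ 1950 / 10000) (ua3 : -(560 / 10000) ≤ y) (ua4 : y ≤ 560 / 10000) (ua5 : 0 / 10000 ≤ s) (ua6 : s ≤ 1650 / 10000) (ua7 : 0 / 10000 ≤ r) (ua8 : r ≤ 1045 / 10000) (ua9 : 300 / 10000 ≤ x - s) (ua10 : 0 ≤ (y + 4 * (r * s))) (ua11 : y ≤ 56 / 100 * x) (ua12 : -y ≤ 56 / 100 * x) :
    NumUs.uu (x + s) (y - 4 * (r * s)) + (NumUs.uu (x - s) (y + 4 * (r * s)) + Real.pi * (y + 4 * (r * s))) + (-NumUs.uu (x + 225 / 1000) (y + 9 / 10 * r) + -NumUs.uu (x + 775 / 1000) (y - 9 / 10 * r)) < (92 / 1000 + 94 / 100 * r + 2 * Real.pi * r * (9 / 100 + 4 * s * (5 / 2 - 3 * s))) := by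
  have h : chkT [sub (add (add (q 92 1000) (mul (q 94 100) ZE.r)) (mul (mul (mul (q 2 1) pi) ZE.r) (add (q 9 100) (mul (mul (q 4 1) ZE.s) (sub (q 5 2) (mul (q 3 1) ZE.s)))))) (add (add (E.uu (add ZE.x ZE.s) (sub ZE.y ZE.h)) (add (E.uu (sub ZE.x ZE.s) (add ZE.y ZE.h)) (mul pi (add ZE.y ZE.h)))) (add (neg (E.uu (add ZE.x (q 225 1000)) (add ZE.y (mul (q 9 10) ZE.r)))) (neg (E.uu (add ZE.x (q 775 1000)) (sub ZE.y (mul (q 9 10) ZE.r)))))), sub (q 300 10000) (sub ZE.x ZE.s), neg (add ZE.y ZE.h), sub ZE.y (mul (q 56 100) ZE.x), sub (neg ZE.y) (mul (q 56 100) ZE.x)] 60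
    2637341618535809961334959912483946937141619973836402665816359953508461710905822052278872338845118982728716865691356766464583663269627343130383344407346135214165934295290859504955460621315248474958227084278327131810671265120306000515916345756392640209337599001968907501237192710278663193485257201039351725266269559048922048509847454748053984850293168463417345638424194906110410118125500900710289759132804768314997997319668875879037234958720250794452431887049496123457722513170975013021039914440020463774309245347900052765238063736439688838924524555677984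
    [NumIs.V.of 10000 300 1950, NumIs.V.of 10000 (-560) 560, NumIs.V.of 10000 0 1650, NumIs.V.of 10000 0 1045] = true :=
      Pool.Agent.Work.NumUs.chkT_of (Pool.Agent.Work.NumUs.runT_split rfl rfl rfl
        e4b_mD4X1p_h1_q1
        e4b_mD4X1p_h1_q2)
  obtain ⟨f, hf, hp⟩ := chkT4 h (by norm_num) (x := x) (y := y) (z := s) (w := r)
    (by norm_num; linarith only [ua1]) (by norm_num; linarith only [ua2]) (by norm_num; linarith only [ua3]) (by norm_num; linarith only [ua4]) (by norm_num; linarith only [ua5]) (by norm_num; linarith only [ua6]) (by norm_num; linarith only [ua7]) (by norm_num; linarith only [ua8])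
  by_contra hc
  push Not at hc
  simp only [List.mem_cons, List.not_mem_nil, or_false] at hf
  rcases hf with rfl | rfl | rfl | rfl | rfl
  · simp only [ZE.x, ZE.y, ZE.s, ZE.r, ZE.h, E.val, NumIs.lkR] at hp
    push_cast at hp
    linarith only [hc, hp]
  · simp only [ZE.x, ZE.y, ZE.s, ZE.r, ZE.h, E.val, NumIs.lkR] at hp
    push_cast at hp
    linarith only [ua9, hp]
  · simp only [ZE.x, ZE.y, ZE.s, ZE.r, ZE.h, E.val, NumIs.lkR] at hp
    push_cast at hp
    linarith only [ua10, hp]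
  · simp only [ZE.x, ZE.y, ZE.s, ZE.r, ZE.h, E.val, NumIs.lkR] at hp
    push_cast at hp
    linarith only [ua11, hp]
  · simp only [ZE.x, ZE.y, ZE.s, ZE.r, ZE.h, E.val, NumIs.lkR] at hp
    push_cast at hp
    linarith only [ua12, hp]

end ZD

end Pool.Agent.Work.MP_b30479_gtS.G2

end

section

/-!
# Modes at rings, `RowsN`: tools
-/

set_option deprecated.oldSectionVars true

namespace Pool.Agent.Work.MP_b30479_gtS.G2

open NumUs

namespace ZN

/-! ### mixed differences -/

/-- the increments in the height increase with the real part -/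
theorem mix {a b s s' : ℝ} (hab : b ≤ a) (h : |s| ≤ |s'|) :
    uu b s' - uu b s ≤ uu a s' - uu a s := by
  have h1 := Lr_diff_mono hab (abs_nonneg s) h
  rw [uu_Lr, uu_Lr, uu_Lr, uu_Lr]
  linarith only [h1]

theorem uu_zero (t : ℝ) : uu 0 t = -(Real.pi / 2 * |t|) := by
  have a1 := uu_one_sub 0 t
  have a2 := uu_add_one 0 t
  rw [sub_zero] at a1
  rw [zero_add] at a2
  linarith only [a1, a2]

theorem uu_one (t : ℝ) : uu 1 t = Real.pi / 2 * |t| := by
  have a1 := uu_one_sub 0 t
  rw [sub_zero, uu_zero, neg_neg] at a1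
  exact a1

theorem uu_half (t : ℝ) : uu (1 / 2) t = 0 := by
  have a1 := uu_one_sub (1 / 2) t
  rw [show (1 : ℝ) - 1 / 2 = 1 / 2 by norm_num] at a1
  linarith only [a1]

theorem uu_two (t : ℝ) : uu 2 t = 3 / 2 * Real.pi * |t| := by
  have a1 := uu_add_one 1 t
  rw [uu_one, show (1 : ℝ) + 1 = 2 by norm_num] at a1
  linarith only [a1]

theorem uu_threehalf (t : ℝ) : uu (3 / 2) t = Real.pi * |t| := by
  have a1 := uu_add_one (1 / 2) t
  rw [uu_half, show (1 : ℝ) / 2 + 1 = 3 / 2 by norm_num] at a1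
  linarith only [a1]

/-- to the right of `1/2` the function increases with the height -/
theorem incr {c s s' : ℝ} (hc : 1 / 2 ≤ c) (h : |s| ≤ |s'|) : uu c s ≤ uu c s' := by
  have h1 := mix hc h
  rw [uu_half, uu_half] at h1
  linarith only [h1]

theorem decr {c s s' : ℝ} (hc : c ≤ 1 / 2) (h : |s| ≤ |s'|) : uu c s' ≤ uu c s := by
  have h1 := mix hc h
  rw [uu_half, uu_half] at h1
  linarith only [h1]

theorem incr_one {c s s' : ℝ} (hc : 1 ≤ c) (h : |s| ≤ |s'|) :
    Real.pi / 2 * (|s'| - |s|) ≤ uu c s' - uu c s := by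
  have h1 := mix hc h
  rw [uu_one, uu_one] at h1
  linarith only [h1]

theorem decr_zero {c s s' : ℝ} (hc : 0 ≤ c) (h : |s| ≤ |s'|) :
    uu c s - uu c s' ≤ Real.pi / 2 * (|s'| - |s|) := by
  have h1 := mix hc h
  rw [uu_zero, uu_zero] at h1
  linarith only [h1]

theorem le_two {c s s' : ℝ} (hc : c ≤ 2) (h : |s| ≤ |s'|) :
    uu c s' - uu c s ≤ 3 / 2 * Real.pi * (|s'| - |s|) := by
  have h1 := mix hc h
  rw [uu_two, uu_two] at h1
  linarith only [h1]

theorem le_one {c s s' : ℝ} (hc : c ≤ 1) (h : |s| ≤ |s'|) :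
    uu c s' - uu c s ≤ Real.pi / 2 * (|s'| - |s|) := by
  have h1 := mix hc h
  rw [uu_one, uu_one] at h1
  linarith only [h1]

theorem le_threehalf {c s s' : ℝ} (hc : c ≤ 3 / 2) (h : |s| ≤ |s'|) :
    uu c s' - uu c s ≤ Real.pi * (|s'| - |s|) := by
  have h1 := mix hc h
  rw [uu_threehalf, uu_threehalf] at h1
  linarith only [h1]

/-- concavity in the height for real part in `[0, 1/2]` -/
theorem conc {b p h : ℝ} (h0 : 0 ≤ b) (h1 : b ≤ 1 / 2) (hp : 0 ≤ p) (hh : 0 ≤ h) :
    uu b 0 - uu b h ≤ uu b p - uu b (p + h) := by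
  have a1 := Lr_conc h0 h1 (s := 0) (s' := p) (d := h) le_rfl hp hh
  rw [zero_add] at a1
  rw [uu_Lr, uu_Lr, uu_Lr, uu_Lr, abs_of_nonneg hp, abs_of_nonneg hh,
    abs_of_nonneg (by linarith only [hp, hh] : 0 ≤ p + h), abs_zero]
  linarith only [a1]

/-! ### slopes in the direction of the real part -/

theorem Lr_up {s x x' κ : ℝ} (hs : 0 < s) (hx : x ≤ x')
    (hκ : 2 * Real.cosh (2 * Real.pi * s) + 2 ≤ Real.exp (2 * κ)) :
    DT.Lr s x' - DT.Lr s x ≤ κ * (x' - x) := by
  have hd : ∀ r, HasDerivAt (fun x => κ * x - DT.Lr s x) (κ * 1 - DT.el s r) r := fun r =>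
    ((hasDerivAt_id r).const_mul κ).sub (DT.hasDerivAt_Lr hs)
  have hm : Monotone (fun x => κ * x - DT.Lr s x) := by
    apply monotone_of_deriv_nonneg
    · exact fun r => (hd r).differentiableAt
    · intro r
      rw [(hd r).deriv]
      unfold DT.el
      have a1 := DT.LrDer.cosh_gt_cos (v := r) hs
      have a2 := Real.neg_one_le_cos (2 * Real.pi * r)
      have a3 := Real.log_le_log (by linarith only [a1] : 0 < 2 * Real.cosh (2 * Real.pi * s) -
        2 * Real.cos (2 * Real.pi * r)) (by linarith only [hκ, a2] : 2 * Real.cosh (2 * Real.pi * s) -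
        2 * Real.cos (2 * Real.pi * r) ≤ Real.exp (2 * κ))
      rw [Real.log_exp] at a3
      linarith only [a3]
  have := hm hx
  simp only at this
  linarith only [this]

theorem uu_up {u v t κ T : ℝ} (huv : u ≤ v) (hT : 0 < T) (ht : |t| ≤ T)
    (hκ : 2 * Real.cosh (2 * Real.pi * T) + 2 ≤ Real.exp (2 * κ)) :
    uu v t - uu u t ≤ κ * (v - u) := by
  have a1 := Lr_diff_mono huv (abs_nonneg t) ht
  have a2 := Lr_up hT huv hκ
  rw [uu_Lr, uu_Lr]
  linarith only [a1, a2]

theorem exp12 : 2 * Real.cosh (2 * Real.pi * (33 / 100)) + 2 ≤ Real.exp (2 * (12 / 10)) := by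
  have h : NumIs.chk [NumIs.E.sub (NumIs.E.exp (NumIs.E.q 12 5)) (NumIs.E.add (NumIs.E.q 2 1)
      (NumIs.E.mul (NumIs.E.q 2 1) (NumIs.E.cosh (NumIs.E.mul NumIs.E.pi (NumIs.E.q 66 100)))))] 1
      [NumIs.V.of 1 0 0] = true := by
    decide +kernel
  have hp := NumIs.pos_of_chk (NumIs.chk1 h (by norm_num) (x := 0) (by norm_num) (by norm_num))
  simp only [NumIs.E.val] at hp
  rw [show 2 * Real.pi * (33 / 100) = Real.pi * (((66 : ℤ) : ℝ) / ((100 : ℕ) : ℝ)) by
    push_cast; ring, show (2 : ℝ) * (12 / 10) = ((12 : ℤ) : ℝ) / ((5 : ℕ) : ℝ) by norm_num]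
  have e2 : (((2 : ℤ) : ℝ) / ((1 : ℕ) : ℝ)) = 2 := by norm_num
  rw [e2] at hp
  linarith only [hp]

theorem uu_up12 {u v t : ℝ} (huv : u ≤ v) (ht : |t| ≤ 33 / 100) :
    uu v t - uu u t ≤ 12 / 10 * (v - u) := uu_up huv (by norm_num) ht exp12

/-- near `0`, upper bound -/
theorem near0_le {b y : ℝ} (hb : 0 ≤ b) (hy : |y| ≤ 33 / 100) :
    uu b y ≤ -(Real.pi / 2 * |y|) + 12 / 10 * b := by
  have h := uu_up12 hb hy
  rw [uu_zero] at h
  linarith only [h]

/-- near `0`, lower bound -/
theorem near0_ge {b y : ℝ} (hb : 0 ≤ b) : uu b 0 - Real.pi / 2 * |y| ≤ uu b y := by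
  have h := mix hb (s := 0) (s' := y) (by rw [abs_zero]; exact abs_nonneg y)
  rw [uu_zero, uu_zero, abs_zero, mul_zero, neg_zero] at h
  linarith only [h]

/-- near `1`, from both sides, upper bound -/
theorem near1_le {c δ y : ℝ} (h0 : 1 - δ ≤ c) (h1 : c ≤ 1 + δ) (hδ0 : 0 ≤ δ) (hδ : δ ≤ 1 / 6)
    (hy : |y| ≤ 33 / 100) : uu c y ≤ Real.pi / 2 * |y| + 12 / 10 * δ - uu δ 0 := by
  have hn : uu δ 0 ≤ 0 := by
    have a1 := TL.uu_real_anti (a := 0) (b := δ) le_rfl hδ0 (by linarith only [hδ])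
    rw [uu_zero, abs_zero, mul_zero, neg_zero] at a1
    exact a1
  rcases le_total c 1 with h | h
  · have e1 : uu c y = -uu (1 - c) y := by
      rw [← uu_one_sub]
      ring_nf
    have a1 := near0_ge (b := 1 - c) (y := y) (by linarith only [h])
    have a2 := TL.uu_real_anti (a := 1 - c) (b := δ) (by linarith only [h]) (by linarith only [h0]) (by linarith only [hδ])
    rw [e1]
    linarith only [h0, h1, a1, a2]
  · have e1 : uu c y = uu (c - 1) y + Real.pi * |y| := by
      rw [← uu_add_one]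
      ring_nf
    have a1 := near0_le (b := c - 1) (y := y) (by linarith only [h]) hy
    rw [e1]
    linarith only [h1, hn, a1]

/-- near `1`, from both sides, lower bound -/
theorem near1_ge {c δ y : ℝ} (h0 : 1 - δ ≤ c) (h1 : c ≤ 1 + δ) (hδ0 : 0 ≤ δ) (hδ : δ ≤ 1 / 6)
    (hy : |y| ≤ 33 / 100) : Real.pi / 2 * |y| - 12 / 10 * δ + uu δ 0 ≤ uu c y := by
  have hn : uu δ 0 ≤ 0 := by
    have a1 := TL.uu_real_anti (a := 0) (b := δ) le_rfl hδ0 (by linarith only [hδ])
    rw [uu_zero, abs_zero, mul_zero, neg_zero] at a1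
    exact a1
  rcases le_total c 1 with h | h
  · have e1 : uu c y = -uu (1 - c) y := by
      rw [← uu_one_sub]
      ring_nf
    have a1 := near0_le (b := 1 - c) (y := y) (by linarith only [h]) hy
    rw [e1]
    linarith only [h0, hn, a1]
  · have e1 : uu c y = uu (c - 1) y + Real.pi * |y| := by
      rw [← uu_add_one]
      ring_nf
    have a1 := near0_ge (b := c - 1) (y := y) (by linarith only [h])
    have a2 := TL.uu_real_anti (a := c - 1) (b := δ) (by linarith only [h]) (by linarith only [h1]) (by linarith only [hδ])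
    rw [e1]
    linarith only [h0, h1, a1, a2]

/-- increments in the real part are at least `log (2 π s)` -/
theorem Lr_low {s x x' : ℝ} (hs : 0 < s) (hx : x ≤ x') :
    Real.log (2 * Real.pi * s) * (x' - x) ≤ DT.Lr s x' - DT.Lr s x := by
  have hd : ∀ r, HasDerivAt (fun x => DT.Lr s x - Real.log (2 * Real.pi * s) * x)
      (DT.el s r - Real.log (2 * Real.pi * s) * 1) r := fun r =>
    (DT.hasDerivAt_Lr hs).sub ((hasDerivAt_id r).const_mul _)
  have hpi := Real.pi_pos
  have hm : Monotone (fun x => DT.Lr s x - Real.log (2 * Real.pi * s) * x) := by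
    apply monotone_of_deriv_nonneg
    · exact fun r => (hd r).differentiableAt
    · intro r
      rw [(hd r).deriv]
      unfold DT.el
      have a2 := Real.cos_le_one (2 * Real.pi * r)
      have a5 : Real.pi * s ≤ Real.sinh (Real.pi * s) :=
        Real.self_le_sinh_iff.2 (by positivity)
      have a6 : Real.cosh (2 * Real.pi * s) = 1 + 2 * Real.sinh (Real.pi * s) ^ 2 := by
        rw [show 2 * Real.pi * s = 2 * (Real.pi * s) by ring, Real.cosh_two_mul, Real.cosh_sq]
        ring
      have a3 : 1 + (2 * Real.pi * s) ^ 2 / 2 ≤ Real.cosh (2 * Real.pi * s) := by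
        rw [a6]
        have a7 := pow_le_pow_left₀ (by positivity) a5 2
        linarith only [a7, a7]
      have a4 := Real.log_le_log (by positivity : 0 < (2 * Real.pi * s) ^ 2)
        (by linarith only [a2, a3] : (2 * Real.pi * s) ^ 2 ≤ 2 * Real.cosh (2 * Real.pi * s) -
        2 * Real.cos (2 * Real.pi * r))
      rw [Real.log_pow] at a4
      push_cast at a4
      linarith only [a4]
  have := hm hx
  simp only at this
  linarith only [this]

/-- increments of `uu a Y - uu a 0` in `a` for `Y ≥ 4/3 x` -/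
theorem log53 {b x Y : ℝ} (hb : 0 ≤ b) (hbx : b ≤ x) (hx : x ≤ 1 / 2) (hY : 4 / 3 * x ≤ Y)
    (hx0 : 0 < x) : Real.log (5 / 3) * (x - b) ≤ (uu x Y - uu x 0) - (uu b Y - uu b 0) := by
  have hpi := Real.pi_pos
  have hY0 : 0 < Y := by linarith only [hY, hx0]
  have hYc : Continuous fun a => DT.Lr Y a :=
    continuous_iff_continuousAt.2 fun a => (DT.hasDerivAt_Lr hY0).continuousAt
  have hm : MonotoneOn (fun a => uu a Y - uu a 0 - Real.log (5 / 3) * a) (Set.Icc b x) := by
    apply monotoneOn_of_deriv_nonneg (convex_Icc _ _)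
    · refine Continuous.continuousOn ?_
      refine Continuous.sub (Continuous.sub ?_ TL.cont_uu_real) (continuous_const.mul continuous_id)
      have e : (fun a => uu a Y) = fun a => DT.Lr Y a - Real.pi * |Y| / 2 := by
        funext a
        rw [uu_Lr, abs_of_pos hY0]
      rw [e]
      exact hYc.sub continuous_const
    all_goals
      intro a ha
      rw [interior_Icc] at ha
      have ha0 : 0 < a := hb.trans_lt ha.1
      have e : (fun a => uu a Y) = fun a => DT.Lr Y a - Real.pi * |Y| / 2 := by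
        funext a
        rw [uu_Lr, abs_of_pos hY0]
      have d1 : HasDerivAt (fun a => uu a Y) (DT.el Y a) a := by
        rw [e]
        exact (DT.hasDerivAt_Lr hY0).sub_const _
      have d2 := TL.uu_real_deriv ha0 (by linarith only [hx, hx0, ha, ha.2] : a < 1)
      have d3 := (d1.sub d2).sub ((hasDerivAt_id a).const_mul (Real.log (5 / 3)))
    · exact d3.differentiableAt.differentiableWithinAt
    · have e3 : deriv (fun a => uu a Y - uu a 0 - Real.log (5 / 3) * a) a = _ := d3.deriv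
      rw [e3]
      have s0 : 0 < Real.sin (Real.pi * a) := Real.sin_pos_of_pos_of_lt_pi (by positivity)
        (by nlinarith only [hx, hpi, hx0, ha, ha.2])
      have s1 : Real.sin (Real.pi * a) ≤ Real.pi * a := Real.sin_le (by positivity)
      have a5 : Real.pi * Y ≤ Real.sinh (Real.pi * Y) := Real.self_le_sinh_iff.2 (by positivity)
      have a6 : Real.cosh (2 * Real.pi * Y) = 1 + 2 * Real.sinh (Real.pi * Y) ^ 2 := by
        rw [show 2 * Real.pi * Y = 2 * (Real.pi * Y) by ring, Real.cosh_two_mul, Real.cosh_sq]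
        ring
      have a7 : Real.cos (2 * Real.pi * a) = 1 - 2 * Real.sin (Real.pi * a) ^ 2 := by
        rw [show 2 * Real.pi * a = 2 * (Real.pi * a) by ring, Real.cos_two_mul]
        have := Real.sin_sq_add_cos_sq (Real.pi * a)
        linarith only [this]
      have a8 : 4 / 3 * Real.sin (Real.pi * a) ≤ Real.sinh (Real.pi * Y) := by
        nlinarith only [s1, a5, hx, hY, hpi, hx0, ha, ha.2]
      have a9 : (5 / 3 * (2 * Real.sin (Real.pi * a))) ^ 2 ≤
          2 * Real.cosh (2 * Real.pi * Y) - 2 * Real.cos (2 * Real.pi * a) := by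
        rw [a6, a7]
        have := pow_le_pow_left₀ (by positivity) a8 2
        nlinarith only [this, this]
      have b1 := Real.log_le_log (by positivity) a9
      rw [Real.log_pow, Real.log_mul (by norm_num) (by positivity)] at b1
      push_cast at b1
      unfold DT.el
      linarith only [b1]
  have h := hm (Set.left_mem_Icc.2 hbx) (Set.right_mem_Icc.2 hbx) hbx
  simp only at h
  linarith only [h]

end ZN

end Pool.Agent.Work.MP_b30479_gtS.G2

end

section

/-!
# Modes at rings, `RowsN`: the saddle height is put to zero, the corner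
-/

set_option deprecated.oldSectionVars true

namespace Pool.Agent.Work.MP_b30479_gtS.G2

open NumUs

namespace ZN

open ZD

/-! ### the functions, `Y = 16/100 t`, `v = 1 - k1`, `k = k2` -/

noncomputable def N0 (x Y v k : ℝ) : ℝ :=
  Real.pi * Y * v + Real.pi * Y + uu (x + 1 - v) k - uu (x + 1 - v) (Y + k) - uu x 0 + uu x Y
noncomputable def M0 (x Y v k : ℝ) : ℝ :=
  Real.pi / 5 * k + uu (6 / 5 - v) k - uu (1 / 5) 0 - Real.pi * x * k + Real.pi * Y * v +
    Real.pi * Y - uu (x + 1 - v) (Y + k) + uu x Y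
noncomputable def G0 (x Y v k : ℝ) : ℝ := N0 x Y v k + Y * (PN x * M0 x Y v k + cN x)
/-- the loss, `c = 1` for `x ≤ 1/2` and `c = 6/5` otherwise -/
noncomputable def ls (c x : ℝ) : ℝ := Real.pi * (7 / 1600) * c + Real.pi * (7 / 10000) * PN x

theorem PN_eq (x : ℝ) : PN x = 22 / 10 * (x + 15 / 100)⁻¹ - 25 / 10 := by
  unfold PN
  rw [div_eq_mul_inv (22 / 10 : ℝ) (x + 15 / 100)]

theorem PN_nonneg {x : ℝ} (h0 : 0 ≤ x) (h1 : x ≤ 6 / 10) : 0 ≤ PN x := by
  unfold PN
  have : 25 / 10 * (x + 15 / 100) ≤ 22 / 10 := by linarith only [h1]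
  rw [sub_nonneg, le_div_iff₀ (by linarith only [h0])]
  exact this

/-! ### the height of the saddle point -/

theorem shift_ge {c p q : ℝ} (h0 : 0 ≤ c) (h1 : c ≤ 3 / 2) :
    -(Real.pi * |p - q|) ≤ uu c p - uu c q := by
  have hpi := Real.pi_pos
  rcases le_total |q| |p| with h | h
  · have a3 := abs_sub_abs_le_abs_sub p q
    rcases le_total (1 / 2) c with hc | hc
    · have a1 := incr hc h
      have : 0 ≤ Real.pi * |p - q| := by positivity
      linarith only [a1, this]
    · have a1 := decr_zero h0 h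
      have a2 : Real.pi / 2 * (|p| - |q|) ≤ Real.pi * |p - q| := by nlinarith only [hpi, h, a3, abs_nonneg (p - q)]
      linarith only [a1, a2]
  · have a3 := abs_sub_abs_le_abs_sub q p
    rw [abs_sub_comm q p] at a3
    have a1 := le_threehalf h1 h
    have a2 : Real.pi * (|q| - |p|) ≤ Real.pi * |p - q| := by nlinarith only [hpi, a3]
    linarith only [a1, a2]

section
open NumIs (V)
open NumUs.E

private theorem kB : chk [add (lnB (q 3 5) (var 0)) (q 16 100)] 30 [V.of 1000 0 162] = true := by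
  decide +kernel

end

theorem up06 {s s' : ℝ} (h0 : 0 ≤ s) (h : s ≤ s') (h1 : s' ≤ 162 / 1000) :
    uu (3 / 5) s' - uu (3 / 5) s ≤ 16 / 100 * (s' - s) := by
  rcases h.eq_or_lt with rfl | h
  · simp
  have hd : ∀ r ∈ Set.Ioo s s', HasDerivAt (fun y => uu (3 / 5) y) (-NumIs.lnB (3 / 5) r) r := by
    intro r _
    have h2 := uu_line (x := 3 / 5) (t := 0) (a := 0) (b := 1) (τ := r) (by norm_num) (by norm_num)
    have e : (fun τ : ℝ => uu (3 / 5 + τ * 0) (0 + τ * 1)) = fun y => uu (3 / 5) y := by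
      funext y
      simp
    rw [e] at h2
    refine h2.congr_deriv ?_
    simp
  have hc : ContinuousOn (fun y => uu (3 / 5) y) (Set.Icc s s') := by
    apply Continuous.continuousOn
    refine continuous_iff_continuousAt.2 fun r => ?_
    have h2 := uu_line (x := 3 / 5) (t := 0) (a := 0) (b := 1) (τ := r) (by norm_num) (by norm_num)
    have e : (fun τ : ℝ => uu (3 / 5 + τ * 0) (0 + τ * 1)) = fun y => uu (3 / 5) y := by
      funext y
      simp
    rw [e] at h2
    exact h2.continuousAt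
  obtain ⟨ξ, hξ, hs⟩ := exists_hasDerivAt_eq_slope (fun y => uu (3 / 5) y) _ h hc hd
  have hk := pos_of_chk (chk1 kB (by norm_num) (x := ξ) (by norm_num; linarith only [h0, hξ, hξ.1])
    (by norm_num; linarith only [h1, hξ, hξ.2]))
  simp only [E.val, NumIs.lkR] at hk
  norm_num at hk hs
  rw [eq_div_iff (by linarith only [h])] at hs
  nlinarith

theorem shift_ge' {c p q : ℝ} (h0 : 0 ≤ c) (h1 : c ≤ 8 / 5)
    (hq : |q| ≤ 162 / 1000) : -((Real.pi + 16 / 100) * |p - q|) ≤ uu c p - uu c q := by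
  have hpi := Real.pi_pos
  rcases le_total |q| |p| with h | h
  · have a3 := abs_sub_abs_le_abs_sub p q
    rcases le_total (1 / 2) c with hc | hc
    · have a1 := incr hc h
      have : 0 ≤ (Real.pi + 16 / 100) * |p - q| := by positivity
      linarith only [a1, this]
    · have a1 := decr_zero h0 h
      have a2 : Real.pi / 2 * (|p| - |q|) ≤ (Real.pi + 16 / 100) * |p - q| := by
        nlinarith only [h, a3, hpi, abs_nonneg (p - q)]
      linarith only [a1, a2]
  · have a3 := abs_sub_abs_le_abs_sub q p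
    rw [abs_sub_comm q p] at a3
    have a1 := mix h1 h
    have a4 := uu_add_one (3 / 5) p
    have a5 := uu_add_one (3 / 5) q
    rw [show (3 : ℝ) / 5 + 1 = 8 / 5 by norm_num] at a4 a5
    have a6 := up06 (abs_nonneg p) h hq
    have e1 : ∀ y : ℝ, uu (3 / 5) |y| = uu (3 / 5) y := by
      intro y
      rcases abs_cases y with ⟨e, _⟩ | ⟨e, _⟩
      · rw [e]
      · rw [e, uu_neg]
    rw [e1, e1] at a6
    have a2 : (Real.pi + 16 / 100) * (|q| - |p|) ≤ (Real.pi + 16 / 100) * |p - q| := by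
      nlinarith only [a3, hpi]
    linarith only [a1, a4, a5, a6, a2]

theorem up_x {x s : ℝ} (hx : x ≤ 3 / 5) (hs : |s| ≤ 162 / 1000) :
    uu x s - uu x 0 ≤ 16 / 100 * |s| := by
  have a1 := mix hx (s := 0) (s' := s) (by rw [abs_zero]; exact abs_nonneg s)
  have a6 := up06 le_rfl (abs_nonneg s) hs
  have e1 : uu (3 / 5) |s| = uu (3 / 5) s := by
    rcases abs_cases s with ⟨e, _⟩ | ⟨e, _⟩
    · rw [e]
    · rw [e, uu_neg]
  rw [e1] at a6
  linarith only [a1, a6]

theorem nA_ge {x t T v k : ℝ} (x0 : 0 ≤ x) (x1 : x ≤ 1 / 2) (t0 : 0 ≤ t)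
    (T0 : -(7 / 10000) ≤ T) (T1 : T ≤ 0) (v0 : 0 ≤ v) (v1 : v ≤ 1) :
    N0 x (16 / 100 * t) v k - Real.pi * (7 / 10000) * t ≤ nA1 x t T (1 - v) k := by
  have hpi := Real.pi_pos
  unfold nA1 N0 gD1
  have a1 := shift_ge (c := x + (1 - v)) (p := T * t + k) (q := k) (by linarith only [x0, v1]) (by linarith only [x1, v0])
  have a2 := decr (c := x) (s := 0) (s' := T * t) (by linarith only [x1]) (by rw [abs_zero]; exact abs_nonneg _)
  have a3 : |T * t + k - k| ≤ 7 / 10000 * t := by
    rw [add_sub_cancel_right, abs_mul, abs_of_nonneg t0]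
    have : |T| ≤ 7 / 10000 := by rw [abs_le]; constructor <;> linarith only [T0, T1]
    exact mul_le_mul_of_nonneg_right this t0
  have a4 : Real.pi * |T * t + k - k| ≤ Real.pi * (7 / 10000 * t) :=
    mul_le_mul_of_nonneg_left a3 hpi.le
  have a5 : 0 ≤ Real.pi * (-T * t * v) := by
    have : 0 ≤ -T * t * v := mul_nonneg (mul_nonneg (by linarith only [T1]) t0) v0
    positivity
  rw [show x + 1 - v = x + (1 - v) by ring]
  nlinarith only [a1, a2, a4, a5, a1, a2, a4, a5]

theorem nA_ge' {x t T v k : ℝ} (x0 : 1 / 2 ≤ x) (x1 : x ≤ 6 / 10) (t0 : 0 ≤ t) (t1 : t ≤ 1)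
    (T0 : -(7 / 10000) ≤ T) (T1 : T ≤ 0) (v0 : 0 ≤ v) (v1 : v ≤ 1) (hk : |k| ≤ 16 / 100) :
    N0 x (16 / 100 * t) v k - Real.pi * (7 / 10000) * t * (6 / 5) ≤ nA1 x t T (1 - v) k := by
  have hpi := Real.pi_gt_three
  unfold nA1 N0 gD1
  have a3' : |T * t| ≤ 7 / 10000 * t := by
    rw [abs_mul, abs_of_nonneg t0]
    have : |T| ≤ 7 / 10000 := by rw [abs_le]; constructor <;> linarith only [T0, T1]
    exact mul_le_mul_of_nonneg_right this t0
  have b1 : |T * t + k| ≤ 162 / 1000 := by
    have := abs_add_le (T * t) k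
    nlinarith only [t1, hk, a3', this]
  have a1 := shift_ge' (c := x + (1 - v)) (p := T * t + k) (q := k) (by linarith only [x0, v1]) (by linarith only [x1, v0])
    (by linarith only [hk])
  have a2 := up_x (x := x) (s := T * t) (by linarith only [x1]) (by nlinarith only [t1, a3'])
  have a3 : |T * t + k - k| ≤ 7 / 10000 * t := by
    rw [add_sub_cancel_right]
    exact a3'
  have a4 : (Real.pi + 16 / 100) * |T * t + k - k| ≤ (Real.pi + 16 / 100) * (7 / 10000 * t) :=
    mul_le_mul_of_nonneg_left a3 (by linarith only [hpi])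
  have a5 : 0 ≤ Real.pi * (-T * t * v) := by
    have : 0 ≤ -T * t * v := mul_nonneg (mul_nonneg (by linarith only [T1]) t0) v0
    positivity
  have a6 : (Real.pi + 16 / 100) * (7 / 10000 * t) + 16 / 100 * (7 / 10000 * t) ≤
      Real.pi * (7 / 10000) * t * (6 / 5) := by
    have : (Real.pi + 32 / 100) * (7 / 10000 * t) ≤ (Real.pi * (6 / 5)) * (7 / 10000 * t) :=
      mul_le_mul_of_nonneg_right (by linarith only [hpi]) (by linarith only [t0])
    linarith only [this]
  rw [show x + 1 - v = x + (1 - v) by ring]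
  nlinarith only [a3', a1, a2, a4, a5, a6, a1, a2, a4, a5, a6, a3']

theorem nB_ge {x t T v k : ℝ} (T0 : -(7 / 10000) ≤ T) (T1 : T ≤ 0) (v0 : 0 ≤ v) (v1 : v ≤ 1) :
    M0 x (16 / 100 * t) v k - Real.pi * (7 / 10000) ≤ nB1 x t T (1 - v) k := by
  have hpi := Real.pi_pos
  unfold nB1 M0 gD1
  have a1 := shift_ge (c := 2 / 10 + (1 - v)) (p := T + k) (q := k) (by linarith only [v1]) (by linarith only [v0])
  have a2 := decr (c := 2 / 10) (s := 0) (s' := T) (by norm_num) (by rw [abs_zero]; exact abs_nonneg _)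
  have a3 : |T + k - k| ≤ 7 / 10000 := by
    rw [add_sub_cancel_right, abs_le]
    constructor <;> linarith only [T0, T1]
  have a4 : Real.pi * |T + k - k| ≤ Real.pi * (7 / 10000) :=
    mul_le_mul_of_nonneg_left a3 hpi.le
  have a5 : 0 ≤ Real.pi * (-T * v) := by
    have : 0 ≤ -T * v := mul_nonneg (by linarith only [T1]) v0
    positivity
  rw [show x + 1 - v = x + (1 - v) by ring, show (6 : ℝ) / 5 - v = 2 / 10 + (1 - v) by ring,
    show (1 : ℝ) / 5 = 2 / 10 by norm_num]
  linarith only [a1, a2, a4, a5]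

/-- **`T` is eliminated.** -/
theorem nD1_of {x t T v k : ℝ} (x0 : 0 ≤ x) (x1 : x ≤ 6 / 10) (t0 : 0 ≤ t) (t1 : t ≤ 1)
    (T0 : -(7 / 10000) ≤ T) (T1 : T ≤ 0) (v0 : 0 ≤ v) (v1 : v ≤ 1) (hk : |k| ≤ 16 / 100)
    (h : 16 / 100 * t * ls (if x ≤ 1 / 2 then 1 else 6 / 5) x ≤ G0 x (16 / 100 * t) v k) :
    0 ≤ nA1 x t T (1 - v) k + 16 / 100 * t * (PN x * nB1 x t T (1 - v) k + cN x) := by
  have b1 := nB_ge (x := x) (t := t) (k := k) T0 T1 v0 v1
  have b2 := PN_nonneg x0 x1
  have b3 : PN x * (M0 x (16 / 100 * t) v k - Real.pi * (7 / 10000)) ≤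
      PN x * nB1 x t T (1 - v) k := mul_le_mul_of_nonneg_left b1 b2
  have b4 : 16 / 100 * t * (PN x * (M0 x (16 / 100 * t) v k - Real.pi * (7 / 10000)) + cN x) ≤
      16 / 100 * t * (PN x * nB1 x t T (1 - v) k + cN x) :=
    mul_le_mul_of_nonneg_left (by linarith only [b3]) (by linarith only [t0])
  unfold G0 ls at h
  rcases le_or_gt x (1 / 2) with hx | hx
  · rw [if_pos hx] at h
    have a1 := nA_ge (k := k) x0 hx t0 T0 T1 v0 v1
    nlinarith only [h, b4, a1, a1, b4, h]
  · rw [if_neg (not_le.2 hx)] at h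
    have a1 := nA_ge' hx.le x1 t0 t1 T0 T1 v0 v1 hk
    nlinarith only [h, b4, a1, a1, b4, h]

/-! ### the corner `v ≤ x ≤ 12/100`, `0 ≤ k` -/

section
open NumIs (V)
open NumUs.E

private theorem kc1 : chk [sub (q 17 100) (log (mul (q 2 1) (sinPi (q 1 5))))] 30
    [V.of 1 0 0] = true := by decide +kernel

private def PNe : E := sub (mul (q 22 10) (inv (add (var 0) (q 15 100)))) (q 25 10)
private def Ye : E := mul (q 4 3) (var 0)
/-- `4πx/3 + log(5/3) + (4x/3) PN(x) (log(8πx/3) - 17/100 + 4πx/3)` -/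
private def He : E := add (add (mul pi Ye) (log (q 5 3))) (mul (mul Ye PNe)
  (add (sub (log (mul (mul (q 2 1) pi) Ye)) (q 17 100)) (mul pi Ye)))
private theorem kc2 : chk [He] 40 [V.of 1000 5 120] = true := by decide +kernel
/-- for `x ≤ 5/1000` -/
private def He' : E := add (log (q 5 3)) (mul PNe (sub (mul Ye (add (sub (log (mul (mul (q 2 1) pi)
  (q 1 150))) (q 17 100)) (q 1 1))) (q 1 150)))
private theorem kc3 : chk [He'] 40 [V.of 1000 0 5] = true := by decide +kernel
private theorem kc4 : chk [sub (add (q 45 1000) (mul (q 1 48) (var 0)))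
  (add (mul pi (q 7 1600)) (mul (mul pi (q 7 10000)) PNe))] 40 [V.of 1000 0 120] = true := by
  decide +kernel

end

theorem cN_ls {x : ℝ} (h0 : 0 ≤ x) (h1 : x ≤ 12 / 100) : ls 1 x ≤ cN x := by
  have h := pos_of_chk (chk1 kc4 (by norm_num) (x := x) (by norm_num; linarith only [h0])
    (by norm_num; linarith only [h1]))
  simp only [PNe, E.val, NumIs.lkR] at h
  push_cast at h
  unfold ls cN
  rw [PN_eq]
  linarith only [h]

theorem He_pos {x : ℝ} (h0 : 0 < x) (h1 : x ≤ 12 / 100) :
    0 ≤ Real.pi * (4 / 3 * x) + Real.log (5 / 3) + 4 / 3 * x * (PN x *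
      (Real.log (2 * Real.pi * (4 / 3 * x)) - 17 / 100 + Real.pi * (4 / 3 * x))) := by
  have hpi := Real.pi_pos
  rcases le_total (5 / 1000) x with h | h
  · have h := pos_of_chk (chk1 kc2 (by norm_num) (x := x) (by norm_num; linarith only [h])
      (by norm_num; linarith only [h1]))
    simp only [He, PNe, Ye, E.val, NumIs.lkR] at h
    push_cast at h
    simp only [div_one] at h
    rw [PN_eq]
    linarith only [h]
  · have h3 := pos_of_chk (chk1 kc3 (by norm_num) (x := x) (by norm_num; linarith only [h0])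
      (by norm_num; linarith only [h]))
    simp only [He', PNe, Ye, E.val, NumIs.lkR] at h3
    push_cast at h3
    simp only [div_one] at h3
    have hP := PN_nonneg h0.le (by linarith only [h0, h] : x ≤ 6 / 10)
    have h4 : Real.log (5 / 1000 / x) ≤ 5 / 1000 / x - 1 :=
      Real.log_le_sub_one_of_pos (by positivity)
    have e5 : Real.log (2 * Real.pi * (4 / 3 * x)) = Real.log (2 * Real.pi * (1 / 150)) -
        Real.log (5 / 1000 / x) := by
      rw [← Real.log_div (by positivity) (by positivity)]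
      congr 1
      field_simp
      norm_num
    have h6 : 4 / 3 * x * (Real.log (2 * Real.pi * (1 / 150)) - 17 / 100 + 1) - 1 / 150 ≤
        4 / 3 * x * (Real.log (2 * Real.pi * (4 / 3 * x)) - 17 / 100) := by
      rw [e5]
      have : 4 / 3 * x * Real.log (5 / 1000 / x) ≤ 4 / 3 * x * (5 / 1000 / x - 1) :=
        mul_le_mul_of_nonneg_left h4 (by positivity)
      have e6 : 4 / 3 * x * (5 / 1000 / x - 1) = 1 / 150 - 4 / 3 * x := by
        field_simp
        ring
      linarith only [this, e6]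
    have h7 := mul_le_mul_of_nonneg_left h6 hP
    have h8 : 0 ≤ Real.pi * (4 / 3 * x) := by positivity
    have h9 : 0 ≤ 4 / 3 * x * (PN x * (Real.pi * (4 / 3 * x))) := by positivity
    rw [PN_eq] at h7 h9 ⊢
    linarith only [h3, h7, h8, h9]

theorem u17 {v : ℝ} (h0 : 0 ≤ v) (h1 : v ≤ 12 / 100) :
    uu (1 / 5) 0 - uu (1 / 5 - v) 0 ≤ 17 / 100 * v := by
  have hpi := Real.pi_pos
  have h := pos_of_chk (chk1 kc1 (by norm_num) (x := 0) (by norm_num) (by norm_num))
  simp only [E.val, NumIs.lkR] at h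
  push_cast at h
  have hm : MonotoneOn (fun a => 17 / 100 * a - uu a 0) (Set.Icc (8 / 100) (1 / 5)) := by
    apply monotoneOn_of_deriv_nonneg (convex_Icc _ _)
    · exact ((continuous_const.mul continuous_id).sub TL.cont_uu_real).continuousOn
    all_goals
      intro a ha
      rw [interior_Icc] at ha
      have d2 := TL.uu_real_deriv (by linarith only [ha, ha.1] : 0 < a) (by linarith only [ha, ha.2] : a < 1)
      have d3 := ((hasDerivAt_id a).const_mul (17 / 100 : ℝ)).sub d2
    · exact d3.differentiableAt.differentiableWithinAt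
    · have e3 : deriv (fun a => 17 / 100 * a - uu a 0) a = _ := d3.deriv
      rw [e3]
      have s0 : 0 < Real.sin (Real.pi * a) := Real.sin_pos_of_pos_of_lt_pi
        (by nlinarith only [hpi, ha, ha.1]) (by nlinarith only [hpi, ha, ha.2])
      have s1 : Real.sin (Real.pi * a) ≤ Real.sin (Real.pi * (1 / 5)) :=
        Real.sin_le_sin_of_le_of_le_pi_div_two (by nlinarith only [hpi, ha, ha.1]) (by nlinarith only [hpi])
          (by nlinarith only [hpi, ha, ha.2])
      have s2 := Real.log_le_log (by positivity) (by linarith only [s1] : 2 * Real.sin (Real.pi * a) ≤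
        2 * Real.sin (Real.pi * (1 / 5)))
      linarith only [h, s2]
  have h2 := hm (Set.mem_Icc.2 ⟨by linarith only [h1], by linarith only [h0]⟩)
    (Set.mem_Icc.2 ⟨by norm_num, le_rfl⟩) (by linarith only [h0] : 1 / 5 - v ≤ 1 / 5)
  simp only at h2
  linarith only [h2]

/-- **The corner.** -/
theorem corner {x v k : ℝ} (x0 : 0 < x) (x1 : x ≤ 12 / 100) (v0 : 0 ≤ v) (v1 : v ≤ x)
    (k0 : 0 ≤ k) : 4 / 3 * x * ls 1 x ≤ G0 x (4 / 3 * x) v k := by
  have hpi := Real.pi_pos
  set Y := 4 / 3 * x with hYd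
  have hY : 0 < Y := by positivity
  have e1 : uu (x + 1 - v) k = uu (x - v) k + Real.pi * k := by
    rw [show x + 1 - v = x - v + 1 by ring, uu_add_one, abs_of_nonneg k0]
  have e2 : uu (x + 1 - v) (Y + k) = uu (x - v) (Y + k) + Real.pi * (Y + k) := by
    rw [show x + 1 - v = x - v + 1 by ring, uu_add_one, abs_of_nonneg (by linarith only [x0, k0, hYd])]
  have e3 : uu (6 / 5 - v) k = uu (1 / 5 - v) k + Real.pi * k := by
    rw [show 6 / 5 - v = 1 / 5 - v + 1 by ring, uu_add_one, abs_of_nonneg k0]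
  have hN : Real.pi * Y * v + Real.log (5 / 3) * v ≤ N0 x Y v k := by
    unfold N0
    rw [e1, e2]
    have a1 := conc (b := x - v) (p := k) (h := Y) (by linarith only [v1]) (by linarith only [x0, x1, v0]) k0 hY.le
    have a2 := log53 (b := x - v) (x := x) (Y := Y) (by linarith only [v1]) (by linarith only [v0]) (by linarith only [x0, x1])
      le_rfl x0
    rw [show k + Y = Y + k by ring] at a1
    rw [show x - (x - v) = v by ring] at a2
    linarith only [a1, a2]
  have hM : v * (Real.log (2 * Real.pi * Y) - 17 / 100 + Real.pi * Y) ≤ M0 x Y v k := by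
    unfold M0
    rw [e2, e3]
    have a1 := conc (b := x - v) (p := Y) (h := k) (by linarith only [v1]) (by linarith only [x0, x1, v0]) hY.le k0
    have a2 := mix (b := x - v) (a := 1 / 5 - v) (s := 0) (s' := k) (by linarith only [x0, x1])
      (by rw [abs_zero]; exact abs_nonneg k)
    have a3 := u17 v0 (by linarith only [x1, v1])
    have a4 := Lr_low (s := Y) (x := x - v) (x' := x) hY (by linarith only [v0])
    have a5 : uu x Y - uu (x - v) Y = DT.Lr Y x - DT.Lr Y (x - v) := by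
      rw [uu_Lr, uu_Lr, abs_of_pos hY]
      ring
    have a6 : 0 ≤ Real.pi * (1 / 5 - x) * k := by
      have : 0 ≤ 1 / 5 - x := by linarith only [x0, x1]
      positivity
    rw [show x - (x - v) = v by ring] at a4
    nlinarith only [a1, a2, a3, a4, a5, a6, a1, a2, a3, a4, a5, a6]
  have hP := PN_nonneg x0.le (by linarith only [x0, x1] : x ≤ 6 / 10)
  have h1 := mul_le_mul_of_nonneg_left hM hP
  have h2 := mul_le_mul_of_nonneg_left h1 hY.le
  have h3 := mul_nonneg v0 (He_pos x0 x1)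
  rw [← hYd] at h3
  have h4 := mul_le_mul_of_nonneg_left (cN_ls x0.le x1) hY.le
  unfold G0
  nlinarith only [hN, h2, h3, h4, hN, h2, h3, h4]

end ZN

end Pool.Agent.Work.MP_b30479_gtS.G2

end
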