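import Pool.Agent.Work.MP_b30479_gt.TBS.G2.ZRe1A_0
import Pool.Agent.Work.MP_b30479_gt.TBS.G2.ZRe4E
import Pool.Agent.Work.MP_b30479_gt.TBS.G2.ZRe4B
import Pool.Agent.Work.MP_b30479_gt.TBS.G2.ZRnT
import Pool.Agent.Work.MP_b30479_gt.TBS.G2.ZRe1A
import Pool.Agent.Work.MP_b30479_gt.TBS.G2.ZRe4C_0
import Pool.Agent.Work.MP_b30479_gt.TBS.G2.ZRe4F_1

section

/-!
# Part of `ZRe4B`
-/
set_option linter.unusedSimpArgs false
set_option linter.unusedVariables false

namespace Pool.Agent.Work.MP_b30479_gtS.G2

open VOL NumUs

namespace ZD

open NumUs.E ZE

theorem e4a_mD1X1 {x y s r : ℝ} (ua1 : 0 / 10000 ≤ x) (ua2 : x ≤ 1700 / 10000) (ua3 : -(560 / 10000) ≤ y) (ua4 : y ≤ 560 / 10000) (ua5 : 300 / 10000 ≤ s) (ua6 : s ≤ 2000 / 10000) (ua7 : 0 / 10000 ≤ r) (ua8 : r ≤ 1045 / 10000) (ua9 : x - s ≤ -(300 / 10000)) (ua10 : y ≤ 56 / 100 * x) (ua11 : -y ≤ 56 / 100 * x) :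
    NumUs.uu (x + s) (y - 4 * (r * s)) + NumUs.uu (1 + x - s) (y + 4 * (r * s)) + (-NumUs.uu (x + 225 / 1000) (y + 9 / 10 * r) + -NumUs.uu (x + 775 / 1000) (y - 9 / 10 * r)) < (107 / 1000 + 64 / 100 * r + 2 * Real.pi * r * (9 / 100 + 4 * s * (5 / 2 - 3 * s))) := by
  have h : chkT [sub (add (add (q 107 1000) (mul (q 64 100) ZE.r)) (mul (mul (mul (q 2 1) pi) ZE.r) (add (q 9 100) (mul (mul (q 4 1) ZE.s) (sub (q 5 2) (mul (q 3 1) ZE.s)))))) (add (add (E.uu (add ZE.x ZE.s) (sub ZE.y ZE.h)) (E.uu (sub (add (q 1 1) ZE.x) ZE.s) (add ZE.y ZE.h))) (add (neg (E.uu (add ZE.x (q 225 1000)) (add ZE.y (mul (q 9 10) ZE.r)))) (neg (E.uu (add ZE.x (q 775 1000)) (sub ZE.y (mul (q 9 10) ZE.r)))))), sub (sub ZE.x ZE.s) (q (-300) 10000), sub ZE.y (mul (q 56 100) ZE.x), sub (neg ZE.y) (mul (q 56 100) ZE.x)] 60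
    8165028502166137248548962763186908802428644112993465130136568209767115009937862405531339953400158231938069063257794936013990072116798793721113139561466574313527803409651011278187770980100097531282020291850471403861415084679139266607173828969487912209114959740196472799027086251188825133269115821195443645266207837242874560827871719415116952920545579284203244529157752176045119659793706589303067740822691361453772032383641002750481707750310975967642004122256534818107187208392131730524462015715374266586999376827329662565155785398826291906563275404364420932697514764443482284707352143642574179244438839088459838682032697349790188466182624505543903539551356634063461235392897170438928775260861225739164598293865260599600098476582974022112541029593361864542980285814609624642863437045252439377510082948053890798642354979816766358310175114954475946578330950993202422999067083865784880990101251543270009349890517362314595394780624024169276016453262215530445136882365199052860426094952770698254430357838894554667173274457825619004346254039963871914669002626277934381289229102709907904914580382514578432298225326150255590206081145162850790415297169713317812612293719161412208253501463562856626301953362452307783873086593946366240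
    [NumIs.V.of 10000 0 1700, NumIs.V.of 10000 (-560) 560, NumIs.V.of 10000 300 2000, NumIs.V.of 10000 0 1045] = true :=
      Pool.Agent.Work.NumUs.chkT_of (Pool.Agent.Work.NumUs.runT_split rfl rfl rfl
        (Pool.Agent.Work.NumUs.runT_split rfl rfl rfl
          (Pool.Agent.Work.NumUs.runT_split rfl rfl rfl
            e4a_mD1X1_h1_q1
            e4a_mD1X1_h1_q2)
          e4a_mD1X1_h1_q3)
        (Pool.Agent.Work.NumUs.runT_split rfl rfl rfl
          e4a_mD1X1_h1_q4
          (Pool.Agent.Work.NumUs.runT_split rfl rfl rfl
            e4a_mD1X1_h1_q5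
            e4a_mD1X1_h1_q6)))
  obtain ⟨f, hf, hp⟩ := chkT4 h (by norm_num) (x := x) (y := y) (z := s) (w := r)
    (by norm_num; linarith only [ua1]) (by norm_num; linarith only [ua2]) (by norm_num; linarith only [ua3]) (by norm_num; linarith only [ua4]) (by norm_num; linarith only [ua5]) (by norm_num; linarith only [ua6]) (by norm_num; linarith only [ua7]) (by norm_num; linarith only [ua8])
  by_contra hc
  push Not at hc
  simp only [List.mem_cons, List.not_mem_nil, or_false] at hf
  rcases hf with rfl | rfl | rfl | rfl
  · simp only [ZE.x, ZE.y, ZE.s, ZE.r, ZE.h, E.val, NumIs.lkR] at hp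
    push_cast at hp
    linarith only [hc, hp]
  · simp only [ZE.x, ZE.y, ZE.s, ZE.r, ZE.h, E.val, NumIs.lkR] at hp
    push_cast at hp
    linarith only [ua9, hp]
  · simp only [ZE.x, ZE.y, ZE.s, ZE.r, ZE.h, E.val, NumIs.lkR] at hp
    push_cast at hp
    linarith only [ua10, hp]
  · simp only [ZE.x, ZE.y, ZE.s, ZE.r, ZE.h, E.val, NumIs.lkR] at hp
    push_cast at hp
    linarith only [ua11, hp]

end ZD

end Pool.Agent.Work.MP_b30479_gtS.G2

end

section

/-!
# The loss at a hinge between two rings: `e4a`
-/

set_option linter.unusedSimpArgs false
set_option linter.unusedVariables false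

namespace Pool.Agent.Work.MP_b30479_gtS.G2

open VOL NumUs

namespace ZD

theorem e4a_m {x y s r : ℝ} (x0 : 0 ≤ x) (x1 : x ≤ 1 / 2) (y0 : |y| ≤ 56 / 1000)
    (y1 : |y| ≤ 56 / 100 * x) (y2 : |y| ≤ 28 / 10 * (1 / 2 - x)) (s0 : 0 ≤ s) (s1 : s ≤ 1 / 5)
    (r0 : 0 ≤ r) (r1 : r ≤ 1045 / 10000) : uu (x + s) (y - 4 * (r * s)) + uu (1 + x - s) (y + 4 * (r * s)) +
      (-uu (x + 225 / 1000) (y + 9 / 10 * r) + -uu (x + 775 / 1000) (y - 9 / 10 * r)) ≤
      (107 / 1000 + 64 / 100 * r + 2 * Real.pi * r * (9 / 100 + 4 * s * (5 / 2 - 3 * s))) := by
  have y1' := y1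
  rw [abs_le] at y0 y1 y2
  obtain ⟨a0, a1⟩ := y0
  obtain ⟨b0, b1⟩ := y1
  obtain ⟨c0, c1⟩ := y2
  have hrs : 0 ≤ r * s := mul_nonneg r0 s0
  by_cases hc : x ≤ 300 / 10000 ∧ s ≤ 300 / 10000
  · obtain ⟨hc1, hc2⟩ := hc
    have T := e4a_mC (x := x) (y := y) (s := s) (r := r) (by linarith only [x0]) (by linarith only [hc1]) (by linarith only [b0, hc1]) (by linarith only [b1, hc1]) (by linarith only [s0]) (by linarith only [hc2]) (by linarith only [r0]) (by linarith only [r1])
    have := corner4m x0 hc1 s0 hc2 y1' r0 r1
    linarith only [T, this]
  have hc' : 300 / 10000 ≤ s ∨ 300 / 10000 ≤ x := by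
    by_contra h
    push Not at h
    exact hc ⟨h.2.le, h.1.le⟩
  rcases le_or_gt (x - s) (-(300 / 10000)) with d | d
  · have T := e4a_mD1X1 (x := x) (y := y) (s := s) (r := r) (by linarith only [x0]) (by linarith only [s1, d]) (by linarith only [a0]) (by linarith only [a1]) (by linarith only [x0, d]) (by linarith only [s1]) (by linarith only [r0]) (by linarith only [r1]) (by linarith only [d]) (by linarith only [b1]) (by linarith only [b0])
    linarith only [T]
  rcases le_or_gt (x - s) 0 with d' | d'
  · have hs : 300 / 10000 ≤ s := by
      rcases hc' with h | h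
      · exact h
      · linarith only [d', h]
    rcases le_or_gt x (1950 / 10000) with g | g
    · have T := e4a_mD2X1 (x := x) (y := y) (s := s) (r := r) (by linarith only [x0]) (by linarith only [g]) (by linarith only [a0]) (by linarith only [a1]) (by linarith only [hs]) (by linarith only [s1]) (by linarith only [r0]) (by linarith only [r1]) (by linarith only [d]) (by linarith only [d']) (by linarith only [b1]) (by linarith only [b0])
      have t2 := d2 (x := x) (s := s) (b := (y + 4 * (r * s))) (δ := (300 / 10000)) (by norm_num) (by norm_num) (by linarith only [d]) (by linarith only [d'])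
      linarith only [T, t2]
    · have T := e4a_mD2X2 (x := x) (y := y) (s := s) (r := r) (by linarith only [g]) (by linarith only [s1, d']) (by linarith only [a0]) (by linarith only [a1]) (by linarith only [d', g]) (by linarith only [s1]) (by linarith only [r0]) (by linarith only [r1]) (by linarith only [s1, g]) (by linarith only [d'])
      have t2 := d2 (x := x) (s := s) (b := (y + 4 * (r * s))) (δ := (300 / 10000)) (by norm_num) (by norm_num) (by linarith only [s1, g]) (by linarith only [d'])
      have u0 := x2 (x := x) (c := (y - 9 / 10 * r)) (c' := (y - 9 / 10 * r)) (δ := (300 / 10000)) (K := (100 / 3)) (le_abs_self _) (by norm_num) (by norm_num) (by norm_num) (by linarith only [s1, d']) (by linarith only [g])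
      have u1 := x2 (x := x) (c := (y - 9 / 10 * r)) (c' := (-(y - 9 / 10 * r))) (δ := (300 / 10000)) (K := (100 / 3)) (neg_le_abs _) (by norm_num) (by norm_num) (by norm_num) (by linarith only [s1, d']) (by linarith only [g])
      rcases T with T | T <;> linarith only [t2, u0, T, u1]
  have hx : 300 / 10000 ≤ x := by
    rcases hc' with h | h
    · linarith only [d', h]
    · exact h
  rcases le_or_gt (x - s) (300 / 10000) with e | e
  · rcases le_or_gt 0 (y + 4 * (r * s)) with f | f
    · rcases le_or_gt x (1950 / 10000) with g | g
      · have T := e4a_mD3X1p (x := x) (y := y) (s := s) (r := r) (by linarith only [hx]) (by linarith only [g]) (by linarith only [a0]) (by linarith only [a1]) (by linarith only [s0]) (by linarith only [d', g]) (by linarith only [r0]) (by linarith only [r1]) (by linarith only [d']) (by linarith only [e]) (by linarith only [f]) (by linarith only [b1]) (by linarith only [b0])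
        have t2 := d3p (x := x) (s := s) (b := (y + 4 * (r * s))) (δ := (300 / 10000)) (K := (100 / 3)) (by linarith only [f]) (by norm_num) (by norm_num) (by norm_num) (by linarith only [d']) (by linarith only [e])
        linarith only [T, t2]
      · rcases le_or_gt x (2250 / 10000) with g | g
        · have T := e4a_mD3X2p (x := x) (y := y) (s := s) (r := r) (by linarith) (by linarith only [g]) (by linarith only [a0]) (by linarith only [a1]) (by linarith) (by linarith only [s1]) (by linarith only [r0]) (by linarith only [r1]) (by linarith only [d']) (by linarith only [e]) (by linarith only [f])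
          have t2 := d3p (x := x) (s := s) (b := (y + 4 * (r * s))) (δ := (300 / 10000)) (K := (100 / 3)) (by linarith only [f]) (by norm_num) (by norm_num) (by norm_num) (by linarith only [d']) (by linarith only [e])
          have u0 := x2 (x := x) (c := (y - 9 / 10 * r)) (c' := (y - 9 / 10 * r)) (δ := (300 / 10000)) (K := (100 / 3)) (le_abs_self _) (by norm_num) (by norm_num) (by norm_num) (by linarith only [g]) (by linarith)
          have u1 := x2 (x := x) (c := (y - 9 / 10 * r)) (c' := (-(y - 9 / 10 * r))) (δ := (300 / 10000)) (K := (100 / 3)) (neg_le_abs _) (by norm_num) (by norm_num) (by norm_num) (by linarith only [g]) (by linarith)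
          rcases T with T | T <;> linarith only [t2, u0, T, u1]
        · have T := e4a_mD3X3p (x := x) (y := y) (s := s) (r := r) (by linarith only [g]) (by linarith only [s1, e]) (by linarith only [a0]) (by linarith only [a1]) (by linarith only [e, g]) (by linarith only [s1]) (by linarith only [r0]) (by linarith only [r1]) (by linarith only [d']) (by linarith only [e]) (by linarith only [f])
          have t2 := d3p (x := x) (s := s) (b := (y + 4 * (r * s))) (δ := (300 / 10000)) (K := (100 / 3)) (by linarith only [f]) (by norm_num) (by norm_num) (by norm_num) (by linarith only [d']) (by linarith only [e])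
          have u0 := x3 (x := x) (c := (y - 9 / 10 * r)) (c' := (y - 9 / 10 * r)) (δ := (300 / 10000)) (le_abs_self _) (by norm_num) (by norm_num) (by linarith only [g]) (by linarith only [s1, d', e])
          have u1 := x3 (x := x) (c := (y - 9 / 10 * r)) (c' := (-(y - 9 / 10 * r))) (δ := (300 / 10000)) (neg_le_abs _) (by norm_num) (by norm_num) (by linarith only [g]) (by linarith only [s1, d', e])
          rcases T with T | T <;> linarith only [t2, u0, T, u1]
    · rcases le_or_gt x (1950 / 10000) with g | g
      · have T := e4a_mD3X1n (x := x) (y := y) (s := s) (r := r) (by linarith only [hx]) (by linarith only [g]) (by linarith only [a0]) (by linarith only [a1]) (by linarith only [s0]) (by linarith only [d', g]) (by linarith only [r0]) (by linarith only [r1]) (by linarith only [d']) (by linarith only [e]) (by linarith only [f]) (by linarith only [b1]) (by linarith only [b0])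
        have t2 := d3n (x := x) (s := s) (b := (y + 4 * (r * s))) (δ := (300 / 10000)) (K := (100 / 3)) (by linarith only [f]) (by norm_num) (by norm_num) (by norm_num) (by linarith only [d']) (by linarith only [e])
        linarith only [T, t2]
      · rcases le_or_gt x (2250 / 10000) with g | g
        · have T := e4a_mD3X2n (x := x) (y := y) (s := s) (r := r) (by linarith) (by linarith only [g]) (by linarith only [a0]) (by linarith only [a1]) (by linarith) (by linarith only [s1]) (by linarith only [r0]) (by linarith only [r1]) (by linarith only [d']) (by linarith only [e]) (by linarith only [f])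
          have t2 := d3n (x := x) (s := s) (b := (y + 4 * (r * s))) (δ := (300 / 10000)) (K := (100 / 3)) (by linarith only [f]) (by norm_num) (by norm_num) (by norm_num) (by linarith only [d']) (by linarith only [e])
          have u0 := x2 (x := x) (c := (y - 9 / 10 * r)) (c' := (y - 9 / 10 * r)) (δ := (300 / 10000)) (K := (100 / 3)) (le_abs_self _) (by norm_num) (by norm_num) (by norm_num) (by linarith only [g]) (by linarith)
          have u1 := x2 (x := x) (c := (y - 9 / 10 * r)) (c' := (-(y - 9 / 10 * r))) (δ := (300 / 10000)) (K := (100 / 3)) (neg_le_abs _) (by norm_num) (by norm_num) (by norm_num) (by linarith only [g]) (by linarith)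
          rcases T with T | T <;> linarith only [t2, u0, T, u1]
        · have T := e4a_mD3X3n (x := x) (y := y) (s := s) (r := r) (by linarith only [g]) (by linarith only [s1, e]) (by linarith only [a0]) (by linarith only [a1]) (by linarith only [e, g]) (by linarith only [s1]) (by linarith only [r0]) (by linarith only [r1]) (by linarith only [d']) (by linarith only [e]) (by linarith only [f])
          have t2 := d3n (x := x) (s := s) (b := (y + 4 * (r * s))) (δ := (300 / 10000)) (K := (100 / 3)) (by linarith only [f]) (by norm_num) (by norm_num) (by norm_num) (by linarith only [d']) (by linarith only [e])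
          have u0 := x3 (x := x) (c := (y - 9 / 10 * r)) (c' := (y - 9 / 10 * r)) (δ := (300 / 10000)) (le_abs_self _) (by norm_num) (by norm_num) (by linarith only [g]) (by linarith only [s1, d', e])
          have u1 := x3 (x := x) (c := (y - 9 / 10 * r)) (c' := (-(y - 9 / 10 * r))) (δ := (300 / 10000)) (neg_le_abs _) (by norm_num) (by norm_num) (by linarith only [g]) (by linarith only [s1, d', e])
          rcases T with T | T <;> linarith only [t2, u0, T, u1]
  rcases le_or_gt 0 (y + 4 * (r * s)) with f | f
  · rcases le_or_gt x (1950 / 10000) with g | g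
    · have T := e4a_mD4X1p (x := x) (y := y) (s := s) (r := r) (by linarith only [hx]) (by linarith only [g]) (by linarith only [a0]) (by linarith only [a1]) (by linarith only [s0]) (by linarith only [e, g]) (by linarith only [r0]) (by linarith only [r1]) (by linarith only [e]) (by linarith only [f]) (by linarith only [b1]) (by linarith only [b0])
      have t2 := d4p (x := x) (s := s) (b := (y + 4 * (r * s))) (by linarith only [f])
      linarith only [T, t2]
    · rcases le_or_gt x (2250 / 10000) with g | g
      · have T := e4a_mD4X2p (x := x) (y := y) (s := s) (r := r) (by linarith) (by linarith only [g]) (by linarith only [a0]) (by linarith only [a1]) (by linarith only [s0]) (by linarith only [e, g]) (by linarith only [r0]) (by linarith only [r1]) (by linarith only [e]) (by linarith only [f])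
        have t2 := d4p (x := x) (s := s) (b := (y + 4 * (r * s))) (by linarith only [f])
        have u0 := x2 (x := x) (c := (y - 9 / 10 * r)) (c' := (y - 9 / 10 * r)) (δ := (300 / 10000)) (K := (100 / 3)) (le_abs_self _) (by norm_num) (by norm_num) (by norm_num) (by linarith only [g]) (by linarith)
        have u1 := x2 (x := x) (c := (y - 9 / 10 * r)) (c' := (-(y - 9 / 10 * r))) (δ := (300 / 10000)) (K := (100 / 3)) (neg_le_abs _) (by norm_num) (by norm_num) (by norm_num) (by linarith only [g]) (by linarith)
        rcases T with T | T <;> linarith only [t2, u0, T, u1]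
      · rcases le_or_gt x (2550 / 10000) with g | g
        · have T := e4a_mD4X3p (x := x) (y := y) (s := s) (r := r) (by linarith) (by linarith only [g]) (by linarith only [a0]) (by linarith only [a1]) (by linarith only [s0]) (by linarith only [s1]) (by linarith only [r0]) (by linarith only [r1]) (by linarith only [e]) (by linarith only [f])
          have t2 := d4p (x := x) (s := s) (b := (y + 4 * (r * s))) (by linarith only [f])
          have u0 := x3 (x := x) (c := (y - 9 / 10 * r)) (c' := (y - 9 / 10 * r)) (δ := (300 / 10000)) (le_abs_self _) (by norm_num) (by norm_num) (by linarith) (by linarith only [g])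
          have u1 := x3 (x := x) (c := (y - 9 / 10 * r)) (c' := (-(y - 9 / 10 * r))) (δ := (300 / 10000)) (neg_le_abs _) (by norm_num) (by norm_num) (by linarith) (by linarith only [g])
          rcases T with T | T <;> linarith only [t2, u0, T, u1]
        · have T := e4a_mD4X4p (x := x) (y := y) (s := s) (r := r) (by linarith only [g]) (by linarith only [x1]) (by linarith only [a0]) (by linarith only [a1]) (by linarith only [s0]) (by linarith only [s1]) (by linarith only [r0]) (by linarith only [r1]) (by linarith only [f]) (by linarith only [c1]) (by linarith only [c0])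
          have t2 := d4p (x := x) (s := s) (b := (y + 4 * (r * s))) (by linarith only [f])
          have u0 := x4 (x := x) (c := (y - 9 / 10 * r)) (c' := (y - 9 / 10 * r)) (le_abs_self _)
          have u1 := x4 (x := x) (c := (y - 9 / 10 * r)) (c' := (-(y - 9 / 10 * r))) (neg_le_abs _)
          rcases T with T | T <;> linarith only [t2, u0, T, u1]
  · rcases le_or_gt x (1950 / 10000) with g | g
    · have T := e4a_mD4X1n (x := x) (y := y) (s := s) (r := r) (by linarith only [hx]) (by linarith only [g]) (by linarith only [a0]) (by linarith only [hrs, f]) (by linarith only [s0]) (by linarith only [e, g]) (by linarith only [r0]) (by linarith only [r1]) (by linarith only [e]) (by linarith only [f]) (by linarith only [b0, hrs, f]) (by linarith only [b0])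
      have t2 := d4n (x := x) (s := s) (b := (y + 4 * (r * s))) (by linarith only [f])
      linarith only [T, t2]
    · rcases le_or_gt x (2250 / 10000) with g | g
      · have T := e4a_mD4X2n (x := x) (y := y) (s := s) (r := r) (by linarith) (by linarith only [g]) (by linarith only [a0]) (by linarith only [a0, hrs, f]) (by linarith only [s0]) (by linarith only [e, g]) (by linarith only [r0]) (by linarith only [r1]) (by linarith only [e]) (by linarith only [f])
        have t2 := d4n (x := x) (s := s) (b := (y + 4 * (r * s))) (by linarith only [f])
        have u0 := x2 (x := x) (c := (y - 9 / 10 * r)) (c' := (y - 9 / 10 * r)) (δ := (300 / 10000)) (K := (100 / 3)) (le_abs_self _) (by norm_num) (by norm_num) (by norm_num) (by linarith only [g]) (by linarith)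
        have u1 := x2 (x := x) (c := (y - 9 / 10 * r)) (c' := (-(y - 9 / 10 * r))) (δ := (300 / 10000)) (K := (100 / 3)) (neg_le_abs _) (by norm_num) (by norm_num) (by norm_num) (by linarith only [g]) (by linarith)
        rcases T with T | T <;> linarith only [t2, u0, T, u1]
      · rcases le_or_gt x (2550 / 10000) with g | g
        · have T := e4a_mD4X3n (x := x) (y := y) (s := s) (r := r) (by linarith) (by linarith only [g]) (by linarith only [a0]) (by linarith only [a0, hrs, f]) (by linarith only [s0]) (by linarith only [s1]) (by linarith only [r0]) (by linarith only [r1]) (by linarith only [e]) (by linarith only [f])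
          have t2 := d4n (x := x) (s := s) (b := (y + 4 * (r * s))) (by linarith only [f])
          have u0 := x3 (x := x) (c := (y - 9 / 10 * r)) (c' := (y - 9 / 10 * r)) (δ := (300 / 10000)) (le_abs_self _) (by norm_num) (by norm_num) (by linarith) (by linarith only [g])
          have u1 := x3 (x := x) (c := (y - 9 / 10 * r)) (c' := (-(y - 9 / 10 * r))) (δ := (300 / 10000)) (neg_le_abs _) (by norm_num) (by norm_num) (by linarith) (by linarith only [g])
          rcases T with T | T <;> linarith only [t2, u0, T, u1]
        · have T := e4a_mD4X4n (x := x) (y := y) (s := s) (r := r) (by linarith only [g]) (by linarith only [x1]) (by linarith only [a0]) (by linarith only [a0, hrs, f]) (by linarith only [s0]) (by linarith only [s1]) (by linarith only [r0]) (by linarith only [r1]) (by linarith only [f]) (by linarith only [x1, hrs, f]) (by linarith only [c0])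
          have t2 := d4n (x := x) (s := s) (b := (y + 4 * (r * s))) (by linarith only [f])
          have u0 := x4 (x := x) (c := (y - 9 / 10 * r)) (c' := (y - 9 / 10 * r)) (le_abs_self _)
          have u1 := x4 (x := x) (c := (y - 9 / 10 * r)) (c' := (-(y - 9 / 10 * r))) (neg_le_abs _)
          rcases T with T | T <;> linarith only [t2, u0, T, u1]

end ZD

end Pool.Agent.Work.MP_b30479_gtS.G2

end

section

/-!
# Part of `ZRe4D`
-/
set_option linter.unusedSimpArgs false
set_option linter.unusedVariables false

namespace Pool.Agent.Work.MP_b30479_gtS.G2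

open VOL NumUs

namespace ZD

open NumUs.E ZE

theorem e4b_mD1X1 {x y s r : ℝ} (ua1 : 0 / 10000 ≤ x) (ua2 : x ≤ 1700 / 10000) (ua3 : -(560 / 10000) ≤ y) (ua4 : y ≤ 560 / 10000) (ua5 : 300 / 10000 ≤ s) (ua6 : s ≤ 2000 / 10000) (ua7 : 0 / 10000 ≤ r) (ua8 : r ≤ 1045 / 10000) (ua9 : x - s ≤ -(300 / 10000)) (ua10 : y ≤ 56 / 100 * x) (ua11 : -y ≤ 56 / 100 * x) :
    NumUs.uu (x + s) (y - 4 * (r * s)) + NumUs.uu (1 + x - s) (y + 4 * (r * s)) + (-NumUs.uu (x + 225 / 1000) (y + 9 / 10 * r) + -NumUs.uu (x + 775 / 1000) (y - 9 / 10 * r)) < (92 / 1000 + 94 / 100 * r + 2 * Real.pi * r * (9 / 100 + 4 * s * (5 / 2 - 3 * s))) := by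
  have h : chkT [sub (add (add (q 92 1000) (mul (q 94 100) ZE.r)) (mul (mul (mul (q 2 1) pi) ZE.r) (add (q 9 100) (mul (mul (q 4 1) ZE.s) (sub (q 5 2) (mul (q 3 1) ZE.s)))))) (add (add (E.uu (add ZE.x ZE.s) (sub ZE.y ZE.h)) (E.uu (sub (add (q 1 1) ZE.x) ZE.s) (add ZE.y ZE.h))) (add (neg (E.uu (add ZE.x (q 225 1000)) (add ZE.y (mul (q 9 10) ZE.r)))) (neg (E.uu (add ZE.x (q 775 1000)) (sub ZE.y (mul (q 9 10) ZE.r)))))), sub (sub ZE.x ZE.s) (q (-300) 10000), sub ZE.y (mul (q 56 100) ZE.x), sub (neg ZE.y) (mul (q 56 100) ZE.x)] 60
    897754377925412470813829594178804890669198127076604451728715378550349484645218151011967861834543196349419246696488562361715198930184507167857435625788997592928142490397910635856477043370695314003625297929305787114179046634746541985499001442328292485713776399656224795430884802621714688204099115974566305026388486762282614735916484561513911056196246513853461513109938465364735283616871682062138219668472432946652481305944778440934370103946587079573999104076259840218121288225190222794691305227530121960550639526241626064283600958346409304368136883936173036286596020930709970959463077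2186566521278735433413621944131220658448528839992450868543235010669937588573794968335877890018725612261067136442955054689070618228176003690848539501859470468017762701739534425208785359892228951429840032278903985460812318567196607617617131268348329674228278733366493852298353823541337572824433710351741667150976831206133358157902090351559960645637529282696072853389728444269616676634337363107330447836422419391237874927393130803413198102513393616833871694552659747822540591832410834301670893211273640669267627004151438805230080165676646564832478236669239881412226810985508017032245956888427811511168045922702016270129587084088529998782379350218360500512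
    [NumIs.V.of 10000 0 1700, NumIs.V.of 10000 (-560) 560, NumIs.V.of 10000 300 2000, NumIs.V.of 10000 0 1045] = true :=
      Pool.Agent.Work.NumUs.chkT_of (Pool.Agent.Work.NumUs.runT_split rfl rfl rfl
        (Pool.Agent.Work.NumUs.runT_split rfl rfl rfl
          (Pool.Agent.Work.NumUs.runT_split rfl rfl rfl
            e4b_mD1X1_h1_q1
            e4b_mD1X1_h1_q2)
          e4b_mD1X1_h1_q3)
        (Pool.Agent.Work.NumUs.runT_split rfl rfl rfl
          e4b_mD1X1_h1_q4
          (Pool.Agent.Work.NumUs.runT_split rfl rfl rfl
            (Pool.Agent.Work.NumUs.runT_split rfl rfl rfl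
              e4b_mD1X1_h1_q5
              e4b_mD1X1_h1_q6)
            e4b_mD1X1_h1_q7)))
  obtain ⟨f, hf, hp⟩ := chkT4 h (by norm_num) (x := x) (y := y) (z := s) (w := r)
    (by norm_num; linarith only [ua1]) (by norm_num; linarith only [ua2]) (by norm_num; linarith only [ua3]) (by norm_num; linarith only [ua4]) (by norm_num; linarith only [ua5]) (by norm_num; linarith only [ua6]) (by norm_num; linarith only [ua7]) (by norm_num; linarith only [ua8])
  by_contra hc
  push Not at hc
  simp only [List.mem_cons, List.not_mem_nil, or_false] at hf
  rcases hf with rfl | rfl | rfl | rfl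
  · simp only [ZE.x, ZE.y, ZE.s, ZE.r, ZE.h, E.val, NumIs.lkR] at hp
    push_cast at hp
    linarith only [hc, hp]
  · simp only [ZE.x, ZE.y, ZE.s, ZE.r, ZE.h, E.val, NumIs.lkR] at hp
    push_cast at hp
    linarith only [ua9, hp]
  · simp only [ZE.x, ZE.y, ZE.s, ZE.r, ZE.h, E.val, NumIs.lkR] at hp
    push_cast at hp
    linarith only [ua10, hp]
  · simp only [ZE.x, ZE.y, ZE.s, ZE.r, ZE.h, E.val, NumIs.lkR] at hp
    push_cast at hp
    linarith only [ua11, hp]

end ZD

end Pool.Agent.Work.MP_b30479_gtS.G2

end

section

/-!
# The loss at a hinge between two rings: `e4b`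
-/

set_option linter.unusedSimpArgs false
set_option linter.unusedVariables false

namespace Pool.Agent.Work.MP_b30479_gtS.G2

open VOL NumUs

namespace ZD

theorem e4b_m {x y s r : ℝ} (x0 : 0 ≤ x) (x1 : x ≤ 1 / 2) (y0 : |y| ≤ 56 / 1000)
    (y1 : |y| ≤ 56 / 100 * x) (y2 : |y| ≤ 28 / 10 * (1 / 2 - x)) (s0 : 0 ≤ s) (s1 : s ≤ 1 / 5)
    (r0 : 0 ≤ r) (r1 : r ≤ 1045 / 10000) : uu (x + s) (y - 4 * (r * s)) + uu (1 + x - s) (y + 4 * (r * s)) +
      (-uu (x + 225 / 1000) (y + 9 / 10 * r) + -uu (x + 775 / 1000) (y - 9 / 10 * r)) ≤
      (92 / 1000 + 94 / 100 * r + 2 * Real.pi * r * (9 / 100 + 4 * s * (5 / 2 - 3 * s))) := by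
  have y1' := y1
  rw [abs_le] at y0 y1 y2
  obtain ⟨a0, a1⟩ := y0
  obtain ⟨b0, b1⟩ := y1
  obtain ⟨c0, c1⟩ := y2
  have hrs : 0 ≤ r * s := mul_nonneg r0 s0
  by_cases hc : x ≤ 300 / 10000 ∧ s ≤ 300 / 10000
  · obtain ⟨hc1, hc2⟩ := hc
    have T := e4b_mC (x := x) (y := y) (s := s) (r := r) (by linarith only [x0]) (by linarith only [hc1]) (by linarith only [b0, hc1]) (by linarith only [b1, hc1]) (by linarith only [s0]) (by linarith only [hc2]) (by linarith only [r0]) (by linarith only [r1])
    have := corner4m x0 hc1 s0 hc2 y1' r0 r1
    linarith only [T, this]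
  have hc' : 300 / 10000 ≤ s ∨ 300 / 10000 ≤ x := by
    by_contra h
    push Not at h
    exact hc ⟨h.2.le, h.1.le⟩
  rcases le_or_gt (x - s) (-(300 / 10000)) with d | d
  · have T := e4b_mD1X1 (x := x) (y := y) (s := s) (r := r) (by linarith only [x0]) (by linarith only [s1, d]) (by linarith only [a0]) (by linarith only [a1]) (by linarith only [x0, d]) (by linarith only [s1]) (by linarith only [r0]) (by linarith only [r1]) (by linarith only [d]) (by linarith only [b1]) (by linarith only [b0])
    linarith only [T]
  rcases le_or_gt (x - s) 0 with d' | d'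
  · have hs : 300 / 10000 ≤ s := by
      rcases hc' with h | h
      · exact h
      · linarith only [d', h]
    rcases le_or_gt x (1950 / 10000) with g | g
    · have T := e4b_mD2X1 (x := x) (y := y) (s := s) (r := r) (by linarith only [x0]) (by linarith only [g]) (by linarith only [a0]) (by linarith only [a1]) (by linarith only [hs]) (by linarith only [s1]) (by linarith only [r0]) (by linarith only [r1]) (by linarith only [d]) (by linarith only [d']) (by linarith only [b1]) (by linarith only [b0])
      have t2 := d2 (x := x) (s := s) (b := (y + 4 * (r * s))) (δ := (300 / 10000)) (by norm_num) (by norm_num) (by linarith only [d]) (by linarith only [d'])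
      linarith only [T, t2]
    · have T := e4b_mD2X2 (x := x) (y := y) (s := s) (r := r) (by linarith only [g]) (by linarith only [s1, d']) (by linarith only [a0]) (by linarith only [a1]) (by linarith only [d', g]) (by linarith only [s1]) (by linarith only [r0]) (by linarith only [r1]) (by linarith only [s1, g]) (by linarith only [d'])
      have t2 := d2 (x := x) (s := s) (b := (y + 4 * (r * s))) (δ := (300 / 10000)) (by norm_num) (by norm_num) (by linarith only [s1, g]) (by linarith only [d'])
      have u0 := x2 (x := x) (c := (y - 9 / 10 * r)) (c' := (y - 9 / 10 * r)) (δ := (300 / 10000)) (K := (100 / 3)) (le_abs_self _) (by norm_num) (by norm_num) (by norm_num) (by linarith only [s1, d']) (by linarith only [g])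
      have u1 := x2 (x := x) (c := (y - 9 / 10 * r)) (c' := (-(y - 9 / 10 * r))) (δ := (300 / 10000)) (K := (100 / 3)) (neg_le_abs _) (by norm_num) (by norm_num) (by norm_num) (by linarith only [s1, d']) (by linarith only [g])
      rcases T with T | T <;> linarith only [t2, u0, T, u1]
  have hx : 300 / 10000 ≤ x := by
    rcases hc' with h | h
    · linarith only [d', h]
    · exact h
  rcases le_or_gt (x - s) (300 / 10000) with e | e
  · rcases le_or_gt 0 (y + 4 * (r * s)) with f | f
    · rcases le_or_gt x (1950 / 10000) with g | g
      · have T := e4b_mD3X1p (x := x) (y := y) (s := s) (r := r) (by linarith only [hx]) (by linarith only [g]) (by linarith only [a0]) (by linarith only [a1]) (by linarith only [s0]) (by linarith only [d', g]) (by linarith only [r0]) (by linarith only [r1]) (by linarith only [d']) (by linarith only [e]) (by linarith only [f]) (by linarith only [b1]) (by linarith only [b0])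
        have t2 := d3p (x := x) (s := s) (b := (y + 4 * (r * s))) (δ := (300 / 10000)) (K := (100 / 3)) (by linarith only [f]) (by norm_num) (by norm_num) (by norm_num) (by linarith only [d']) (by linarith only [e])
        linarith only [T, t2]
      · rcases le_or_gt x (2250 / 10000) with g | g
        · have T := e4b_mD3X2p (x := x) (y := y) (s := s) (r := r) (by linarith) (by linarith only [g]) (by linarith only [a0]) (by linarith only [a1]) (by linarith) (by linarith only [s1]) (by linarith only [r0]) (by linarith only [r1]) (by linarith only [d']) (by linarith only [e]) (by linarith only [f])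
          have t2 := d3p (x := x) (s := s) (b := (y + 4 * (r * s))) (δ := (300 / 10000)) (K := (100 / 3)) (by linarith only [f]) (by norm_num) (by norm_num) (by norm_num) (by linarith only [d']) (by linarith only [e])
          have u0 := x2 (x := x) (c := (y - 9 / 10 * r)) (c' := (y - 9 / 10 * r)) (δ := (300 / 10000)) (K := (100 / 3)) (le_abs_self _) (by norm_num) (by norm_num) (by norm_num) (by linarith only [g]) (by linarith)
          have u1 := x2 (x := x) (c := (y - 9 / 10 * r)) (c' := (-(y - 9 / 10 * r))) (δ := (300 / 10000)) (K := (100 / 3)) (neg_le_abs _) (by norm_num) (by norm_num) (by norm_num) (by linarith only [g]) (by linarith)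
          rcases T with T | T <;> linarith only [t2, u0, T, u1]
        · have T := e4b_mD3X3p (x := x) (y := y) (s := s) (r := r) (by linarith only [g]) (by linarith only [s1, e]) (by linarith only [a0]) (by linarith only [a1]) (by linarith only [e, g]) (by linarith only [s1]) (by linarith only [r0]) (by linarith only [r1]) (by linarith only [d']) (by linarith only [e]) (by linarith only [f])
          have t2 := d3p (x := x) (s := s) (b := (y + 4 * (r * s))) (δ := (300 / 10000)) (K := (100 / 3)) (by linarith only [f]) (by norm_num) (by norm_num) (by norm_num) (by linarith only [d']) (by linarith only [e])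
          have u0 := x3 (x := x) (c := (y - 9 / 10 * r)) (c' := (y - 9 / 10 * r)) (δ := (300 / 10000)) (le_abs_self _) (by norm_num) (by norm_num) (by linarith only [g]) (by linarith only [s1, d', e])
          have u1 := x3 (x := x) (c := (y - 9 / 10 * r)) (c' := (-(y - 9 / 10 * r))) (δ := (300 / 10000)) (neg_le_abs _) (by norm_num) (by norm_num) (by linarith only [g]) (by linarith only [s1, d', e])
          rcases T with T | T <;> linarith only [t2, u0, T, u1]
    · rcases le_or_gt x (1950 / 10000) with g | g
      · have T := e4b_mD3X1n (x := x) (y := y) (s := s) (r := r) (by linarith only [hx]) (by linarith only [g]) (by linarith only [a0]) (by linarith only [a1]) (by linarith only [s0]) (by linarith only [d', g]) (by linarith only [r0]) (by linarith only [r1]) (by linarith only [d']) (by linarith only [e]) (by linarith only [f]) (by linarith only [b1]) (by linarith only [b0])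
        have t2 := d3n (x := x) (s := s) (b := (y + 4 * (r * s))) (δ := (300 / 10000)) (K := (100 / 3)) (by linarith only [f]) (by norm_num) (by norm_num) (by norm_num) (by linarith only [d']) (by linarith only [e])
        linarith only [T, t2]
      · rcases le_or_gt x (2250 / 10000) with g | g
        · have T := e4b_mD3X2n (x := x) (y := y) (s := s) (r := r) (by linarith) (by linarith only [g]) (by linarith only [a0]) (by linarith only [a1]) (by linarith) (by linarith only [s1]) (by linarith only [r0]) (by linarith only [r1]) (by linarith only [d']) (by linarith only [e]) (by linarith only [f])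
          have t2 := d3n (x := x) (s := s) (b := (y + 4 * (r * s))) (δ := (300 / 10000)) (K := (100 / 3)) (by linarith only [f]) (by norm_num) (by norm_num) (by norm_num) (by linarith only [d']) (by linarith only [e])
          have u0 := x2 (x := x) (c := (y - 9 / 10 * r)) (c' := (y - 9 / 10 * r)) (δ := (300 / 10000)) (K := (100 / 3)) (le_abs_self _) (by norm_num) (by norm_num) (by norm_num) (by linarith only [g]) (by linarith)
          have u1 := x2 (x := x) (c := (y - 9 / 10 * r)) (c' := (-(y - 9 / 10 * r))) (δ := (300 / 10000)) (K := (100 / 3)) (neg_le_abs _) (by norm_num) (by norm_num) (by norm_num) (by linarith only [g]) (by linarith)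
          rcases T with T | T <;> linarith only [t2, u0, T, u1]
        · have T := e4b_mD3X3n (x := x) (y := y) (s := s) (r := r) (by linarith only [g]) (by linarith only [s1, e]) (by linarith only [a0]) (by linarith only [a1]) (by linarith only [e, g]) (by linarith only [s1]) (by linarith only [r0]) (by linarith only [r1]) (by linarith only [d']) (by linarith only [e]) (by linarith only [f])
          have t2 := d3n (x := x) (s := s) (b := (y + 4 * (r * s))) (δ := (300 / 10000)) (K := (100 / 3)) (by linarith only [f]) (by norm_num) (by norm_num) (by norm_num) (by linarith only [d']) (by linarith only [e])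
          have u0 := x3 (x := x) (c := (y - 9 / 10 * r)) (c' := (y - 9 / 10 * r)) (δ := (300 / 10000)) (le_abs_self _) (by norm_num) (by norm_num) (by linarith only [g]) (by linarith only [s1, d', e])
          have u1 := x3 (x := x) (c := (y - 9 / 10 * r)) (c' := (-(y - 9 / 10 * r))) (δ := (300 / 10000)) (neg_le_abs _) (by norm_num) (by norm_num) (by linarith only [g]) (by linarith only [s1, d', e])
          rcases T with T | T <;> linarith only [t2, u0, T, u1]
  rcases le_or_gt 0 (y + 4 * (r * s)) with f | f
  · rcases le_or_gt x (1950 / 10000) with g | g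
    · have T := e4b_mD4X1p (x := x) (y := y) (s := s) (r := r) (by linarith only [hx]) (by linarith only [g]) (by linarith only [a0]) (by linarith only [a1]) (by linarith only [s0]) (by linarith only [e, g]) (by linarith only [r0]) (by linarith only [r1]) (by linarith only [e]) (by linarith only [f]) (by linarith only [b1]) (by linarith only [b0])
      have t2 := d4p (x := x) (s := s) (b := (y + 4 * (r * s))) (by linarith only [f])
      linarith only [T, t2]
    · rcases le_or_gt x (2250 / 10000) with g | g
      · have T := e4b_mD4X2p (x := x) (y := y) (s := s) (r := r) (by linarith) (by linarith only [g]) (by linarith only [a0]) (by linarith only [a1]) (by linarith only [s0]) (by linarith only [e, g]) (by linarith only [r0]) (by linarith only [r1]) (by linarith only [e]) (by linarith only [f])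
        have t2 := d4p (x := x) (s := s) (b := (y + 4 * (r * s))) (by linarith only [f])
        have u0 := x2 (x := x) (c := (y - 9 / 10 * r)) (c' := (y - 9 / 10 * r)) (δ := (300 / 10000)) (K := (100 / 3)) (le_abs_self _) (by norm_num) (by norm_num) (by norm_num) (by linarith only [g]) (by linarith)
        have u1 := x2 (x := x) (c := (y - 9 / 10 * r)) (c' := (-(y - 9 / 10 * r))) (δ := (300 / 10000)) (K := (100 / 3)) (neg_le_abs _) (by norm_num) (by norm_num) (by norm_num) (by linarith only [g]) (by linarith)
        rcases T with T | T <;> linarith only [t2, u0, T, u1]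
      · rcases le_or_gt x (2550 / 10000) with g | g
        · have T := e4b_mD4X3p (x := x) (y := y) (s := s) (r := r) (by linarith) (by linarith only [g]) (by linarith only [a0]) (by linarith only [a1]) (by linarith only [s0]) (by linarith only [s1]) (by linarith only [r0]) (by linarith only [r1]) (by linarith only [e]) (by linarith only [f])
          have t2 := d4p (x := x) (s := s) (b := (y + 4 * (r * s))) (by linarith only [f])
          have u0 := x3 (x := x) (c := (y - 9 / 10 * r)) (c' := (y - 9 / 10 * r)) (δ := (300 / 10000)) (le_abs_self _) (by norm_num) (by norm_num) (by linarith) (by linarith only [g])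
          have u1 := x3 (x := x) (c := (y - 9 / 10 * r)) (c' := (-(y - 9 / 10 * r))) (δ := (300 / 10000)) (neg_le_abs _) (by norm_num) (by norm_num) (by linarith) (by linarith only [g])
          rcases T with T | T <;> linarith only [t2, u0, T, u1]
        · have T := e4b_mD4X4p (x := x) (y := y) (s := s) (r := r) (by linarith only [g]) (by linarith only [x1]) (by linarith only [a0]) (by linarith only [a1]) (by linarith only [s0]) (by linarith only [s1]) (by linarith only [r0]) (by linarith only [r1]) (by linarith only [f]) (by linarith only [c1]) (by linarith only [c0])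
          have t2 := d4p (x := x) (s := s) (b := (y + 4 * (r * s))) (by linarith only [f])
          have u0 := x4 (x := x) (c := (y - 9 / 10 * r)) (c' := (y - 9 / 10 * r)) (le_abs_self _)
          have u1 := x4 (x := x) (c := (y - 9 / 10 * r)) (c' := (-(y - 9 / 10 * r))) (neg_le_abs _)
          rcases T with T | T <;> linarith only [t2, u0, T, u1]
  · rcases le_or_gt x (1950 / 10000) with g | g
    · have T := e4b_mD4X1n (x := x) (y := y) (s := s) (r := r) (by linarith only [hx]) (by linarith only [g]) (by linarith only [a0]) (by linarith only [hrs, f]) (by linarith only [s0]) (by linarith only [e, g]) (by linarith only [r0]) (by linarith only [r1]) (by linarith only [e]) (by linarith only [f]) (by linarith only [b0, hrs, f]) (by linarith only [b0])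
      have t2 := d4n (x := x) (s := s) (b := (y + 4 * (r * s))) (by linarith only [f])
      linarith only [T, t2]
    · rcases le_or_gt x (2250 / 10000) with g | g
      · have T := e4b_mD4X2n (x := x) (y := y) (s := s) (r := r) (by linarith) (by linarith only [g]) (by linarith only [a0]) (by linarith only [a0, hrs, f]) (by linarith only [s0]) (by linarith only [e, g]) (by linarith only [r0]) (by linarith only [r1]) (by linarith only [e]) (by linarith only [f])
        have t2 := d4n (x := x) (s := s) (b := (y + 4 * (r * s))) (by linarith only [f])
        have u0 := x2 (x := x) (c := (y - 9 / 10 * r)) (c' := (y - 9 / 10 * r)) (δ := (300 / 10000)) (K := (100 / 3)) (le_abs_self _) (by norm_num) (by norm_num) (by norm_num) (by linarith only [g]) (by linarith)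
        have u1 := x2 (x := x) (c := (y - 9 / 10 * r)) (c' := (-(y - 9 / 10 * r))) (δ := (300 / 10000)) (K := (100 / 3)) (neg_le_abs _) (by norm_num) (by norm_num) (by norm_num) (by linarith only [g]) (by linarith)
        rcases T with T | T <;> linarith only [t2, u0, T, u1]
      · rcases le_or_gt x (2550 / 10000) with g | g
        · have T := e4b_mD4X3n (x := x) (y := y) (s := s) (r := r) (by linarith) (by linarith only [g]) (by linarith only [a0]) (by linarith only [a0, hrs, f]) (by linarith only [s0]) (by linarith only [s1]) (by linarith only [r0]) (by linarith only [r1]) (by linarith only [e]) (by linarith only [f])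
          have t2 := d4n (x := x) (s := s) (b := (y + 4 * (r * s))) (by linarith only [f])
          have u0 := x3 (x := x) (c := (y - 9 / 10 * r)) (c' := (y - 9 / 10 * r)) (δ := (300 / 10000)) (le_abs_self _) (by norm_num) (by norm_num) (by linarith) (by linarith only [g])
          have u1 := x3 (x := x) (c := (y - 9 / 10 * r)) (c' := (-(y - 9 / 10 * r))) (δ := (300 / 10000)) (neg_le_abs _) (by norm_num) (by norm_num) (by linarith) (by linarith only [g])
          rcases T with T | T <;> linarith only [t2, u0, T, u1]
        · have T := e4b_mD4X4n (x := x) (y := y) (s := s) (r := r) (by linarith only [g]) (by linarith only [x1]) (by linarith only [a0]) (by linarith only [a0, hrs, f]) (by linarith only [s0]) (by linarith only [s1]) (by linarith only [r0]) (by linarith only [r1]) (by linarith only [f]) (by linarith only [x1, hrs, f]) (by linarith only [c0])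
          have t2 := d4n (x := x) (s := s) (b := (y + 4 * (r * s))) (by linarith only [f])
          have u0 := x4 (x := x) (c := (y - 9 / 10 * r)) (c' := (y - 9 / 10 * r)) (le_abs_self _)
          have u1 := x4 (x := x) (c := (y - 9 / 10 * r)) (c' := (-(y - 9 / 10 * r))) (neg_le_abs _)
          rcases T with T | T <;> linarith only [t2, u0, T, u1]

end ZD

end Pool.Agent.Work.MP_b30479_gtS.G2

end

section

/-!
# Part of `ZRe4C`
-/
set_option linter.unusedSimpArgs false
set_option linter.unusedVariables false

namespace Pool.Agent.Work.MP_b30479_gtS.G2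

open VOL NumUs

namespace ZD

open NumUs.E ZE

theorem e4b_pD1X1 {x y s r : ℝ} (ua1 : 0 / 10000 ≤ x) (ua2 : x ≤ 1700 / 10000) (ua3 : -(560 / 10000) ≤ y) (ua4 : y ≤ 560 / 10000) (ua5 : 300 / 10000 ≤ s) (ua6 : s ≤ 2000 / 10000) (ua7 : 0 / 10000 ≤ r) (ua8 : r ≤ 1045 / 10000) (ua9 : x - s ≤ -(300 / 10000)) (ua10 : y ≤ 56 / 100 * x) (ua11 : -y ≤ 56 / 100 * x) :
    NumUs.uu (x + s) (y + 4 * (r * s)) + NumUs.uu (1 + x - s) (y - 4 * (r * s)) + (-NumUs.uu (x + 225 / 1000) (y + 9 / 10 * r) + -NumUs.uu (x + 775 / 1000) (y - 9 / 10 * r)) < (92 / 1000 + 94 / 100 * r + 2 * Real.pi * r * (9 / 100 + 4 * s * (4 * s - 1))) := by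
  have h : chkT [sub (add (add (q 92 1000) (mul (q 94 100) ZE.r)) (mul (mul (mul (q 2 1) pi) ZE.r) (add (q 9 100) (mul (mul (q 4 1) ZE.s) (sub (mul (q 4 1) ZE.s) (q 1 1)))))) (add (add (E.uu (add ZE.x ZE.s) (add ZE.y ZE.h)) (E.uu (sub (add (q 1 1) ZE.x) ZE.s) (sub ZE.y ZE.h))) (add (neg (E.uu (add ZE.x (q 225 1000)) (add ZE.y (mul (q 9 10) ZE.r)))) (neg (E.uu (add ZE.x (q 775 1000)) (sub ZE.y (mul (q 9 10) ZE.r)))))), sub (sub ZE.x ZE.s) (q (-300) 10000), sub ZE.y (mul (q 56 100) ZE.x), sub (neg ZE.y) (mul (q 56 100) ZE.x)] 60
    108651287812968696738284816005175119532209491369295467077037467223223735469424218255629190086126421504258352691044418431587019150874578498030844901456450881425511973035959985188301624473596552525091045474982285355022321382354822945986950884216547388045715940198076617192323324281387799236440697555108448032688310664588304644448031939177775547595117647714440737887610546023377596414146370882067868640999423359150539808491482488033781497272000417089166993841973862406430588622728733161897638452472736156952934799778605190419664281361829571774208197683228336233154841943884519523452935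050043834673987902737397589346912207901967973515699332092596624969686571353177645357525270193524669181730905595984859228743610571006132592581859946572704256239754532843615995481534844641882004883969744721118049990716207366169865381861217380626774946215262416155732629889060543138660648228189550012596848054930496893812725822949276049005542130527373369478908724812905635918414920367190158896330929835269400901695518409735323620507080611064042789057661294401969751987646730874997952520945403894590982303502050002717371078940487259727672671358571065055410717690524751484694264609399245374226869085670364920399785991190482329702596032989555183241518097129969651777245272097051934301662883309977076913256509782012612145405303406012736129687692252903734477228297359620775224165637716278657394517487904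
    [NumIs.V.of 10000 0 1700, NumIs.V.of 10000 (-560) 560, NumIs.V.of 10000 300 2000, NumIs.V.of 10000 0 1045] = true :=
      Pool.Agent.Work.NumUs.chkT_of (Pool.Agent.Work.NumUs.runT_split rfl rfl rfl
        (Pool.Agent.Work.NumUs.runT_split rfl rfl rfl
          (Pool.Agent.Work.NumUs.runT_split rfl rfl rfl
            e4b_pD1X1_h1_q1
            (Pool.Agent.Work.NumUs.runT_split rfl rfl rfl
              e4b_pD1X1_h1_q2
              e4b_pD1X1_h1_q3))
          e4b_pD1X1_h1_q4)
        (Pool.Agent.Work.NumUs.runT_split rfl rfl rfl
          e4b_pD1X1_h1_q5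
          (Pool.Agent.Work.NumUs.runT_split rfl rfl rfl
            (Pool.Agent.Work.NumUs.runT_split rfl rfl rfl
              e4b_pD1X1_h1_q6
              e4b_pD1X1_h1_q7)
            (Pool.Agent.Work.NumUs.runT_split rfl rfl rfl
              e4b_pD1X1_h1_q8
              e4b_pD1X1_h1_q9))))
  obtain ⟨f, hf, hp⟩ := chkT4 h (by norm_num) (x := x) (y := y) (z := s) (w := r)
    (by norm_num; linarith only [ua1]) (by norm_num; linarith only [ua2]) (by norm_num; linarith only [ua3]) (by norm_num; linarith only [ua4]) (by norm_num; linarith only [ua5]) (by norm_num; linarith only [ua6]) (by norm_num; linarith only [ua7]) (by norm_num; linarith only [ua8])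
  by_contra hc
  push Not at hc
  simp only [List.mem_cons, List.not_mem_nil, or_false] at hf
  rcases hf with rfl | rfl | rfl | rfl
  · simp only [ZE.x, ZE.y, ZE.s, ZE.r, ZE.h, E.val, NumIs.lkR] at hp
    push_cast at hp
    linarith only [hc, hp]
  · simp only [ZE.x, ZE.y, ZE.s, ZE.r, ZE.h, E.val, NumIs.lkR] at hp
    push_cast at hp
    linarith only [ua9, hp]
  · simp only [ZE.x, ZE.y, ZE.s, ZE.r, ZE.h, E.val, NumIs.lkR] at hp
    push_cast at hp
    linarith only [ua10, hp]
  · simp only [ZE.x, ZE.y, ZE.s, ZE.r, ZE.h, E.val, NumIs.lkR] at hp
    push_cast at hp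
    linarith only [ua11, hp]

end ZD

end Pool.Agent.Work.MP_b30479_gtS.G2

end

section

/-!
# Part of `ZRe4G`
-/
set_option linter.unusedSimpArgs false
set_option linter.unusedVariables false

namespace Pool.Agent.Work.MP_b30479_gtS.G2

open VOL NumUs

namespace ZD

theorem e4b_p {x y s r : ℝ} (x0 : 0 ≤ x) (x1 : x ≤ 1 / 2) (y0 : |y| ≤ 56 / 1000)
    (y1 : |y| ≤ 56 / 100 * x) (y2 : |y| ≤ 28 / 10 * (1 / 2 - x)) (s0 : 0 ≤ s) (s1 : s ≤ 1 / 5)
    (r0 : 0 ≤ r) (r1 : r ≤ 1045 / 10000) : uu (x + s) (y + 4 * (r * s)) + uu (1 + x - s) (y - 4 * (r * s)) +
      (-uu (x + 225 / 1000) (y + 9 / 10 * r) + -uu (x + 775 / 1000) (y - 9 / 10 * r)) ≤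
      (92 / 1000 + 94 / 100 * r + 2 * Real.pi * r * (9 / 100 + 4 * s * (4 * s - 1))) := by
  have y1' := y1
  rw [abs_le] at y0 y1 y2
  obtain ⟨a0, a1⟩ := y0
  obtain ⟨b0, b1⟩ := y1
  obtain ⟨c0, c1⟩ := y2
  have hrs : 0 ≤ r * s := mul_nonneg r0 s0
  by_cases hc : x ≤ 300 / 10000 ∧ s ≤ 300 / 10000
  · obtain ⟨hc1, hc2⟩ := hc
    have T := e4b_pC (x := x) (y := y) (s := s) (r := r) (by linarith only [x0]) (by linarith only [hc1]) (by linarith only [b0, hc1]) (by linarith only [b1, hc1]) (by linarith only [s0]) (by linarith only [hc2]) (by linarith only [r0]) (by linarith only [r1])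
    have := corner4 x0 hc1 s0 hc2 y1' r0 r1
    linarith only [T, this]
  have hc' : 300 / 10000 ≤ s ∨ 300 / 10000 ≤ x := by
    by_contra h
    push Not at h
    exact hc ⟨h.2.le, h.1.le⟩
  rcases le_or_gt (x - s) (-(300 / 10000)) with d | d
  · have T := e4b_pD1X1 (x := x) (y := y) (s := s) (r := r) (by linarith only [x0]) (by linarith only [s1, d]) (by linarith only [a0]) (by linarith only [a1]) (by linarith only [x0, d]) (by linarith only [s1]) (by linarith only [r0]) (by linarith only [r1]) (by linarith only [d]) (by linarith only [b1]) (by linarith only [b0])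
    linarith only [T]
  rcases le_or_gt (x - s) 0 with d' | d'
  · have hs : 300 / 10000 ≤ s := by
      rcases hc' with h | h
      · exact h
      · linarith only [d', h]
    rcases le_or_gt x (1950 / 10000) with g | g
    · have T := e4b_pD2X1 (x := x) (y := y) (s := s) (r := r) (by linarith only [x0]) (by linarith only [g]) (by linarith only [a0]) (by linarith only [a1]) (by linarith only [hs]) (by linarith only [s1]) (by linarith only [r0]) (by linarith only [r1]) (by linarith only [d]) (by linarith only [d']) (by linarith only [b1]) (by linarith only [b0])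
      have t2 := d2 (x := x) (s := s) (b := (y - 4 * (r * s))) (δ := (300 / 10000)) (by norm_num) (by norm_num) (by linarith only [d]) (by linarith only [d'])
      linarith only [T, t2]
    · have T := e4b_pD2X2 (x := x) (y := y) (s := s) (r := r) (by linarith only [g]) (by linarith only [s1, d']) (by linarith only [a0]) (by linarith only [a1]) (by linarith only [d', g]) (by linarith only [s1]) (by linarith only [r0]) (by linarith only [r1]) (by linarith only [s1, g]) (by linarith only [d'])
      have t2 := d2 (x := x) (s := s) (b := (y - 4 * (r * s))) (δ := (300 / 10000)) (by norm_num) (by norm_num) (by linarith only [s1, g]) (by linarith only [d'])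
      have u0 := x2 (x := x) (c := (y - 9 / 10 * r)) (c' := (y - 9 / 10 * r)) (δ := (300 / 10000)) (K := (100 / 3)) (le_abs_self _) (by norm_num) (by norm_num) (by norm_num) (by linarith only [s1, d']) (by linarith only [g])
      have u1 := x2 (x := x) (c := (y - 9 / 10 * r)) (c' := (-(y - 9 / 10 * r))) (δ := (300 / 10000)) (K := (100 / 3)) (neg_le_abs _) (by norm_num) (by norm_num) (by norm_num) (by linarith only [s1, d']) (by linarith only [g])
      rcases T with T | T <;> linarith only [t2, u0, T, u1]
  have hx : 300 / 10000 ≤ x := by
    rcases hc' with h | h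
    · linarith only [d', h]
    · exact h
  rcases le_or_gt (x - s) (300 / 10000) with e | e
  · rcases le_or_gt 0 (y - 4 * (r * s)) with f | f
    · rcases le_or_gt x (1950 / 10000) with g | g
      · have T := e4b_pD3X1p (x := x) (y := y) (s := s) (r := r) (by linarith only [hx]) (by linarith only [g]) (by linarith only [hrs, d', e, f]) (by linarith only [a1]) (by linarith only [s0]) (by linarith only [d', g]) (by linarith only [r0]) (by linarith only [r1]) (by linarith only [d']) (by linarith only [e]) (by linarith only [f]) (by linarith only [b1]) (by linarith only [s0, hrs, d', f])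
        have t2 := d3p (x := x) (s := s) (b := (y - 4 * (r * s))) (δ := (300 / 10000)) (K := (100 / 3)) (by linarith only [f]) (by norm_num) (by norm_num) (by norm_num) (by linarith only [d']) (by linarith only [e])
        linarith only [T, t2]
      · rcases le_or_gt x (2250 / 10000) with g | g
        · have T := e4b_pD3X2p (x := x) (y := y) (s := s) (r := r) (by linarith) (by linarith only [g]) (by linarith only [hrs, d', e, f]) (by linarith only [a1]) (by linarith) (by linarith only [s1]) (by linarith only [r0]) (by linarith only [r1]) (by linarith only [d']) (by linarith only [e]) (by linarith only [f])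
          have t2 := d3p (x := x) (s := s) (b := (y - 4 * (r * s))) (δ := (300 / 10000)) (K := (100 / 3)) (by linarith only [f]) (by norm_num) (by norm_num) (by norm_num) (by linarith only [d']) (by linarith only [e])
          have u0 := x2 (x := x) (c := (y - 9 / 10 * r)) (c' := (y - 9 / 10 * r)) (δ := (300 / 10000)) (K := (100 / 3)) (le_abs_self _) (by norm_num) (by norm_num) (by norm_num) (by linarith only [g]) (by linarith)
          have u1 := x2 (x := x) (c := (y - 9 / 10 * r)) (c' := (-(y - 9 / 10 * r))) (δ := (300 / 10000)) (K := (100 / 3)) (neg_le_abs _) (by norm_num) (by norm_num) (by norm_num) (by linarith only [g]) (by linarith)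
          rcases T with T | T <;> linarith only [t2, u0, T, u1]
        · have T := e4b_pD3X3p (x := x) (y := y) (s := s) (r := r) (by linarith only [g]) (by linarith only [s1, e]) (by linarith only [hrs, d', e, f]) (by linarith only [a1]) (by linarith only [e, g]) (by linarith only [s1]) (by linarith only [r0]) (by linarith only [r1]) (by linarith only [d']) (by linarith only [e]) (by linarith only [f])
          have t2 := d3p (x := x) (s := s) (b := (y - 4 * (r * s))) (δ := (300 / 10000)) (K := (100 / 3)) (by linarith only [f]) (by norm_num) (by norm_num) (by norm_num) (by linarith only [d']) (by linarith only [e])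
          have u0 := x3 (x := x) (c := (y - 9 / 10 * r)) (c' := (y - 9 / 10 * r)) (δ := (300 / 10000)) (le_abs_self _) (by norm_num) (by norm_num) (by linarith only [g]) (by linarith only [s1, d', e])
          have u1 := x3 (x := x) (c := (y - 9 / 10 * r)) (c' := (-(y - 9 / 10 * r))) (δ := (300 / 10000)) (neg_le_abs _) (by norm_num) (by norm_num) (by linarith only [g]) (by linarith only [s1, d', e])
          rcases T with T | T <;> linarith only [t2, u0, T, u1]
    · rcases le_or_gt x (1950 / 10000) with g | g
      · have T := e4b_pD3X1n (x := x) (y := y) (s := s) (r := r) (by linarith only [hx]) (by linarith only [g]) (by linarith only [a0]) (by linarith only [a1]) (by linarith only [s0]) (by linarith only [d', g]) (by linarith only [r0]) (by linarith only [r1]) (by linarith only [d']) (by linarith only [e]) (by linarith only [f]) (by linarith only [b1]) (by linarith only [b0])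
        have t2 := d3n (x := x) (s := s) (b := (y - 4 * (r * s))) (δ := (300 / 10000)) (K := (100 / 3)) (by linarith only [f]) (by norm_num) (by norm_num) (by norm_num) (by linarith only [d']) (by linarith only [e])
        linarith only [T, t2]
      · rcases le_or_gt x (2250 / 10000) with g | g
        · have T := e4b_pD3X2n (x := x) (y := y) (s := s) (r := r) (by linarith) (by linarith only [g]) (by linarith only [a0]) (by linarith only [a1]) (by linarith) (by linarith only [s1]) (by linarith only [r0]) (by linarith only [r1]) (by linarith only [d']) (by linarith only [e]) (by linarith only [f])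
          have t2 := d3n (x := x) (s := s) (b := (y - 4 * (r * s))) (δ := (300 / 10000)) (K := (100 / 3)) (by linarith only [f]) (by norm_num) (by norm_num) (by norm_num) (by linarith only [d']) (by linarith only [e])
          have u0 := x2 (x := x) (c := (y - 9 / 10 * r)) (c' := (y - 9 / 10 * r)) (δ := (300 / 10000)) (K := (100 / 3)) (le_abs_self _) (by norm_num) (by norm_num) (by norm_num) (by linarith only [g]) (by linarith)
          have u1 := x2 (x := x) (c := (y - 9 / 10 * r)) (c' := (-(y - 9 / 10 * r))) (δ := (300 / 10000)) (K := (100 / 3)) (neg_le_abs _) (by norm_num) (by norm_num) (by norm_num) (by linarith only [g]) (by linarith)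
          rcases T with T | T <;> linarith only [t2, u0, T, u1]
        · have T := e4b_pD3X3n (x := x) (y := y) (s := s) (r := r) (by linarith only [g]) (by linarith only [s1, e]) (by linarith only [a0]) (by linarith only [a1]) (by linarith only [e, g]) (by linarith only [s1]) (by linarith only [r0]) (by linarith only [r1]) (by linarith only [d']) (by linarith only [e]) (by linarith only [f])
          have t2 := d3n (x := x) (s := s) (b := (y - 4 * (r * s))) (δ := (300 / 10000)) (K := (100 / 3)) (by linarith only [f]) (by norm_num) (by norm_num) (by norm_num) (by linarith only [d']) (by linarith only [e])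
          have u0 := x3 (x := x) (c := (y - 9 / 10 * r)) (c' := (y - 9 / 10 * r)) (δ := (300 / 10000)) (le_abs_self _) (by norm_num) (by norm_num) (by linarith only [g]) (by linarith only [s1, d', e])
          have u1 := x3 (x := x) (c := (y - 9 / 10 * r)) (c' := (-(y - 9 / 10 * r))) (δ := (300 / 10000)) (neg_le_abs _) (by norm_num) (by norm_num) (by linarith only [g]) (by linarith only [s1, d', e])
          rcases T with T | T <;> linarith only [t2, u0, T, u1]
  rcases le_or_gt 0 (y - 4 * (r * s)) with f | f
  · rcases le_or_gt x (1950 / 10000) with g | g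
    · have T := e4b_pD4X1p (x := x) (y := y) (s := s) (r := r) (by linarith only [hx]) (by linarith only [g]) (by linarith only [hrs, f]) (by linarith only [a1]) (by linarith only [s0]) (by linarith only [e, g]) (by linarith only [r0]) (by linarith only [r1]) (by linarith only [e]) (by linarith only [f]) (by linarith only [b1]) (by linarith only [s0, hrs, d', f])
      have t2 := d4p (x := x) (s := s) (b := (y - 4 * (r * s))) (by linarith only [f])
      linarith only [T, t2]
    · rcases le_or_gt x (2250 / 10000) with g | g
      · have T := e4b_pD4X2p (x := x) (y := y) (s := s) (r := r) (by linarith) (by linarith only [g]) (by linarith only [s0, hrs, d', f, g]) (by linarith only [a1]) (by linarith only [s0]) (by linarith only [e, g]) (by linarith only [r0]) (by linarith only [r1]) (by linarith only [e]) (by linarith only [f])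
        have t2 := d4p (x := x) (s := s) (b := (y - 4 * (r * s))) (by linarith only [f])
        have u0 := x2 (x := x) (c := (y - 9 / 10 * r)) (c' := (y - 9 / 10 * r)) (δ := (300 / 10000)) (K := (100 / 3)) (le_abs_self _) (by norm_num) (by norm_num) (by norm_num) (by linarith only [g]) (by linarith)
        have u1 := x2 (x := x) (c := (y - 9 / 10 * r)) (c' := (-(y - 9 / 10 * r))) (δ := (300 / 10000)) (K := (100 / 3)) (neg_le_abs _) (by norm_num) (by norm_num) (by norm_num) (by linarith only [g]) (by linarith)
        rcases T with T | T <;> linarith only [t2, u0, T, u1]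
      · rcases le_or_gt x (2550 / 10000) with g | g
        · have T := e4b_pD4X3p (x := x) (y := y) (s := s) (r := r) (by linarith) (by linarith only [g]) (by linarith only [s0, hrs, d', f, g]) (by linarith only [a1]) (by linarith only [s0]) (by linarith only [s1]) (by linarith only [r0]) (by linarith only [r1]) (by linarith only [e]) (by linarith only [f])
          have t2 := d4p (x := x) (s := s) (b := (y - 4 * (r * s))) (by linarith only [f])
          have u0 := x3 (x := x) (c := (y - 9 / 10 * r)) (c' := (y - 9 / 10 * r)) (δ := (300 / 10000)) (le_abs_self _) (by norm_num) (by norm_num) (by linarith) (by linarith only [g])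
          have u1 := x3 (x := x) (c := (y - 9 / 10 * r)) (c' := (-(y - 9 / 10 * r))) (δ := (300 / 10000)) (neg_le_abs _) (by norm_num) (by norm_num) (by linarith) (by linarith only [g])
          rcases T with T | T <;> linarith only [t2, u0, T, u1]
        · have T := e4b_pD4X4p (x := x) (y := y) (s := s) (r := r) (by linarith only [g]) (by linarith only [x1]) (by linarith only [x1, s0, hrs, d', f]) (by linarith only [a1]) (by linarith only [s0]) (by linarith only [s1]) (by linarith only [r0]) (by linarith only [r1]) (by linarith only [f]) (by linarith only [c1]) (by linarith only [x1, hrs, f])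
          have t2 := d4p (x := x) (s := s) (b := (y - 4 * (r * s))) (by linarith only [f])
          have u0 := x4 (x := x) (c := (y - 9 / 10 * r)) (c' := (y - 9 / 10 * r)) (le_abs_self _)
          have u1 := x4 (x := x) (c := (y - 9 / 10 * r)) (c' := (-(y - 9 / 10 * r))) (neg_le_abs _)
          rcases T with T | T <;> linarith only [t2, u0, T, u1]
  · rcases le_or_gt x (1950 / 10000) with g | g
    · have T := e4b_pD4X1n (x := x) (y := y) (s := s) (r := r) (by linarith only [hx]) (by linarith only [g]) (by linarith only [a0]) (by linarith only [a1]) (by linarith only [s0]) (by linarith only [e, g]) (by linarith only [r0]) (by linarith only [r1]) (by linarith only [e]) (by linarith only [f]) (by linarith only [b1]) (by linarith only [b0])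
      have t2 := d4n (x := x) (s := s) (b := (y - 4 * (r * s))) (by linarith only [f])
      linarith only [T, t2]
    · rcases le_or_gt x (2250 / 10000) with g | g
      · have T := e4b_pD4X2n (x := x) (y := y) (s := s) (r := r) (by linarith) (by linarith only [g]) (by linarith only [a0]) (by linarith only [a1]) (by linarith only [s0]) (by linarith only [e, g]) (by linarith only [r0]) (by linarith only [r1]) (by linarith only [e]) (by linarith only [f])
        have t2 := d4n (x := x) (s := s) (b := (y - 4 * (r * s))) (by linarith only [f])
        have u0 := x2 (x := x) (c := (y - 9 / 10 * r)) (c' := (y - 9 / 10 * r)) (δ := (300 / 10000)) (K := (100 / 3)) (le_abs_self _) (by norm_num) (by norm_num) (by norm_num) (by linarith only [g]) (by linarith)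
        have u1 := x2 (x := x) (c := (y - 9 / 10 * r)) (c' := (-(y - 9 / 10 * r))) (δ := (300 / 10000)) (K := (100 / 3)) (neg_le_abs _) (by norm_num) (by norm_num) (by norm_num) (by linarith only [g]) (by linarith)
        rcases T with T | T <;> linarith only [t2, u0, T, u1]
      · rcases le_or_gt x (2550 / 10000) with g | g
        · have T := e4b_pD4X3n (x := x) (y := y) (s := s) (r := r) (by linarith) (by linarith only [g]) (by linarith only [a0]) (by linarith only [a1]) (by linarith only [s0]) (by linarith only [s1]) (by linarith only [r0]) (by linarith only [r1]) (by linarith only [e]) (by linarith only [f])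
          have t2 := d4n (x := x) (s := s) (b := (y - 4 * (r * s))) (by linarith only [f])
          have u0 := x3 (x := x) (c := (y - 9 / 10 * r)) (c' := (y - 9 / 10 * r)) (δ := (300 / 10000)) (le_abs_self _) (by norm_num) (by norm_num) (by linarith) (by linarith only [g])
          have u1 := x3 (x := x) (c := (y - 9 / 10 * r)) (c' := (-(y - 9 / 10 * r))) (δ := (300 / 10000)) (neg_le_abs _) (by norm_num) (by norm_num) (by linarith) (by linarith only [g])
          rcases T with T | T <;> linarith only [t2, u0, T, u1]
        · have T := e4b_pD4X4n (x := x) (y := y) (s := s) (r := r) (by linarith only [g]) (by linarith only [x1]) (by linarith only [a0]) (by linarith only [a1]) (by linarith only [s0]) (by linarith only [s1]) (by linarith only [r0]) (by linarith only [r1]) (by linarith only [f]) (by linarith only [c1]) (by linarith only [c0])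
          have t2 := d4n (x := x) (s := s) (b := (y - 4 * (r * s))) (by linarith only [f])
          have u0 := x4 (x := x) (c := (y - 9 / 10 * r)) (c' := (y - 9 / 10 * r)) (le_abs_self _)
          have u1 := x4 (x := x) (c := (y - 9 / 10 * r)) (c' := (-(y - 9 / 10 * r))) (neg_le_abs _)
          rcases T with T | T <;> linarith only [t2, u0, T, u1]

end ZD

end Pool.Agent.Work.MP_b30479_gtS.G2

end

section

/-!
# The loss at a hinge between two rings: `e4a`, `e4b`
-/

set_option linter.unusedSimpArgs false
set_option linter.unusedVariables false

namespace Pool.Agent.Work.MP_b30479_gtS.G2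

open VOL NumUs

namespace ZD

theorem e4a (x y σ ρ : ℝ) (x0 : 0 ≤ x) (x1 : x ≤ 1 / 2) (y0 : |y| ≤ 56 / 1000)
    (y1 : |y| ≤ 56 / 100 * x) (y2 : |y| ≤ 28 / 10 * (1 / 2 - x)) (s0 : 3 / 10 ≤ |σ|)
    (s1 : |σ| ≤ 1 / 2) (r0 : 0 ≤ ρ) (r1 : ρ ≤ 1045 / 10000) :
    fR ⟨x, y⟩ ⟨σ, ρ * LT.th σ⟩ - fR ⟨x, y⟩ ⟨-(11 / 40), 9 / 10 * ρ⟩ + bR σ (ρ * LT.th σ) ≤
      107 / 1000 + 64 / 100 * ρ + q4 σ ρ := by
  rcases le_total σ 0 with h | h
  · obtain ⟨s, rfl⟩ : ∃ s, σ = -(1 / 2) + s := ⟨σ + 1 / 2, by ring⟩
    rw [abs_of_nonpos h] at s0 s1
    have t := e4a_p x0 x1 y0 y1 y2 (s := s) (by linarith only [s1]) (by linarith only [s0]) r0 r1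
    obtain ⟨q1, q2⟩ := q4_p (s := s) (ρ := ρ) (by linarith only [s1]) (by linarith only [s0])
    rw [loss_p (by linarith only [s1]) (by linarith only [s0]), q1, q2]
    linarith only [t]
  · obtain ⟨s, rfl⟩ : ∃ s, σ = 1 / 2 - s := ⟨1 / 2 - σ, by ring⟩
    rw [abs_of_nonneg h] at s0 s1
    have t := e4a_m x0 x1 y0 y1 y2 (s := s) (by linarith only [s1]) (by linarith only [s0]) r0 r1
    have q1 := q4_m (s := s) (ρ := ρ) (by linarith only [s1]) (by linarith only [s0])
    rw [loss_m (by linarith only [s1]) (by linarith only [s0])]
    linarith only [t, q1]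

theorem e4b (x y σ ρ : ℝ) (x0 : 0 ≤ x) (x1 : x ≤ 1 / 2) (y0 : |y| ≤ 56 / 1000)
    (y1 : |y| ≤ 56 / 100 * x) (y2 : |y| ≤ 28 / 10 * (1 / 2 - x)) (s0 : 3 / 10 ≤ |σ|)
    (s1 : |σ| ≤ 1 / 2) (r0 : 0 ≤ ρ) (r1 : ρ ≤ 1045 / 10000) :
    fR ⟨x, y⟩ ⟨σ, ρ * LT.th σ⟩ - fR ⟨x, y⟩ ⟨-(11 / 40), 9 / 10 * ρ⟩ + bR σ (ρ * LT.th σ) ≤
      92 / 1000 + 94 / 100 * ρ + q4 σ ρ := by
  rcases le_total σ 0 with h | h
  · obtain ⟨s, rfl⟩ : ∃ s, σ = -(1 / 2) + s := ⟨σ + 1 / 2, by ring⟩
    rw [abs_of_nonpos h] at s0 s1
    have t := e4b_p x0 x1 y0 y1 y2 (s := s) (by linarith only [s1]) (by linarith only [s0]) r0 r1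
    obtain ⟨q1, q2⟩ := q4_p (s := s) (ρ := ρ) (by linarith only [s1]) (by linarith only [s0])
    rw [loss_p (by linarith only [s1]) (by linarith only [s0]), q1, q2]
    linarith only [t]
  · obtain ⟨s, rfl⟩ : ∃ s, σ = 1 / 2 - s := ⟨1 / 2 - σ, by ring⟩
    rw [abs_of_nonneg h] at s0 s1
    have t := e4b_m x0 x1 y0 y1 y2 (s := s) (by linarith only [s1]) (by linarith only [s0]) r0 r1
    have q1 := q4_m (s := s) (ρ := ρ) (by linarith only [s1]) (by linarith only [s0])
    rw [loss_m (by linarith only [s1]) (by linarith only [s0])]
    linarith only [t, q1]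

end ZD

end Pool.Agent.Work.MP_b30479_gtS.G2

end
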