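import Pool.Agent.Work.MP_b30479_gt.TBS.G2.ZRcT
import Pool.Agent.Work.MP_b30479_gt.TBS.G2.TE1T
import Pool.Agent.Work.MP_b30479_gt.TBS.G2.ZRA65w
import Pool.Agent.Work.MP_b30479_gt.TBS.G2.ZRbA
import Pool.Agent.Work.MP_b30479_gt.TBS.G2.ZNw
import Pool.Agent.Work.MP_b30479_gt.TBS.G2.ZRe1A_4
import Pool.Agent.Work.MP_b30479_gt.TBS.G2.ZRe5
import Pool.Agent.Work.MP_b30479_gt.TBS.G2.ZRe4D_1

section

/-!
# Modes at rings, rows `C`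
-/

namespace Pool.Agent.Work.MP_b30479_gtS.G2

namespace ZD

theorem rowsC : RowsC where
  c1m := fun _ _ _ _ h1 h2 h3 h4 _ h6 h7 hR => c1m h1 h2 h3 h4 h6 h7 hR
  c1d := fun _ _ _ h1 h2 h3 h4 hR => c1d h1 h2 h3 h4 hR
  c1u := fun _ _ _ h1 h2 h3 h4 hR => c1u h1 h2 h3 h4 hR
  c2m := fun _ _ _ _ h1 h2 h3 h4 h5 _ h7 h8 hR => c2m h1 h2 h3 h4 h5 h7 h8 hR
  c2d := fun _ _ _ h1 h2 h3 h4 hR => c2d h1 h2 h3 h4 hR
  c2u := fun _ _ _ h1 h2 h3 h4 hR => c2u h1 h2 h3 h4 hR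
  cem := cem
  ced := ced
  ceu := ceu
  cem0 := cem0
  ced0 := ced0
  c2 := c2
  c32 := c32
  c3 := c3
  c0 := c0

end ZD

end Pool.Agent.Work.MP_b30479_gtS.G2

end

section

/-!
# All rows of the modes at rings
-/

namespace Pool.Agent.Work.MP_b30479_gtS.G2

namespace ZD

theorem rowsB : RowsB := ⟨b1, b1d, b2, b2d, b3, b3d, b0, b0d⟩

theorem rowsE : RowsE := ⟨e1, e2, e4a, e4b, e5a, e5b, e5c, e5d⟩

theorem zrows : ZRows := ⟨rowsA, rowsB, rowsC, rowsE, rowsK, rowsZ⟩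

end ZD

end Pool.Agent.Work.MP_b30479_gtS.G2

end
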