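import Pool.Agent.Work.MP_b30479_gt.TBS.G2.ZNud
import Pool.Agent.Work.MP_b30479_gt.TBS.G2.ZConv
import Pool.Agent.Work.MP_b30479_gt.TBS.NumU.GenL
import Pool.Agent.Work.MP_b30479_gt.TBS.G2.ZNw
import Pool.Agent.Work.MP_b30479_gt.TBS.G2.ZNc_1
import Pool.Agent.Work.MP_b30479_gt.TBS.G2.ZNb6
import Pool.Agent.Work.MP_b30479_gt.TBS.G2.ZNvs3
import Pool.Agent.Work.MP_b30479_gt.TBS.G2.ZNzs5
import Pool.Agent.Work.MP_b30479_gt.TBS.G2.ZNqs3
import Pool.Agent.Work.MP_b30479_gt.TBS.G2.ZNzs4
import Pool.Agent.Work.MP_b30479_gt.TBS.G2.ZRnT

section

/-!
# `RowsN.nD1` for `x ≤ 12/100`, `x + k1 ≤ 1`
-/

namespace Pool.Agent.Work.MP_b30479_gtS.G2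

open NumUs (uu uu_neg uu_one_sub uu_add_one)

namespace ZD

namespace ZL

open ZA

/-- `t ↦ lnB a t` increases for `a ≤ 1/2` -/
theorem lnB_t {a p q : ℝ} (h0 : 0 < a) (h1 : a ≤ 1 / 2) (hpq : p ≤ q) :
    NumIs.lnB a p ≤ NumIs.lnB a q := by
  have hp := Real.pi_pos
  unfold NumIs.lnB
  rw [Real.arctan_le_arctan_iff]
  have s1 : 0 < Real.sin (Real.pi * a) :=
    Real.sin_pos_of_pos_of_lt_pi (by positivity) (by nlinarith only [hp, h1])
  have c0 : 0 ≤ Real.cos (Real.pi * a) := by
    apply Real.cos_nonneg_of_neg_pi_div_two_le_of_le <;> nlinarith only [hp, h0, h1]
  have c1 := Real.cosh_pos (Real.pi * p)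
  have c2 := Real.cosh_pos (Real.pi * q)
  have h : 0 ≤ Real.sinh (Real.pi * q - Real.pi * p) :=
    Real.sinh_nonneg_iff.2 (by nlinarith only [h0, h1, hpq, hp])
  rw [Real.sinh_sub] at h
  rw [div_le_div_iff₀ (by positivity) (by positivity)]
  have := mul_nonneg (mul_nonneg c0 s1.le) h
  nlinarith only [this]

/-- the slope increases for `1/2 ≤ a` -/
theorem slope_end {a p q : ℝ} (h0 : 1 / 2 ≤ a) (h1 : a < 1) (hpq : p ≤ q) :
    uu a q ≤ uu a p + -NumIs.lnB a q * (q - p) := by
  have := mono_of (f := fun τ => uu a (τ + 0) - -NumIs.lnB a q * τ)
    (f' := fun τ => -NumIs.lnB a (τ + 0) - -NumIs.lnB a q * 1) hpq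
    ((cont_uu' continuous_const (by fun_prop)).sub (by fun_prop)).continuousOn
    (fun y _ => (uu_t (by linarith only [h0, h1]) h1).sub ((hasDerivAt_id y).const_mul _))
    (fun y hy => by
      have h2 := lnB_t (a := 1 - a) (by linarith only [h1]) (by linarith only [h0]) (hy.2.le)
      rw [lnB_one_sub, lnB_one_sub] at h2
      simp only [add_zero]
      linarith only [h2])
  simp only [add_zero] at this
  linarith only [this]

theorem nA1_ge {x t T k1 k2 S th : ℝ}
    (h1 : uu (x + k1) (16 / 100 * t + k2) ≤
      uu (x + k1) (T * t + k2) + S * (16 / 100 * t + k2 - (T * t + k2)))
    (h2 : uu x (T * t) ≤ uu x (16 / 100 * t) + th * (16 / 100 * t)) :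
    t * ((16 / 100 - T) * (Real.pi * (1 - k1) - S) + 16 / 100 * (Real.pi - th)) ≤
      nA1 x t T k1 k2 := by
  unfold nA1 gD1
  linarith only [h1, h2]

theorem arctan_43 : Real.arctan (4 / 3) ≤ 93 / 100 := by
  have h := Real.arctan_add (x := 1) (y := 1 / 7) (by norm_num)
  rw [Real.arctan_one, show (1 + 1 / 7 : ℝ) / (1 - 1 * (1 / 7)) = 4 / 3 by norm_num] at h
  have h2 := arctan_le_id (y := 1 / 7) (by norm_num)
  have h3 := Real.pi_lt_d4
  rw [← h]
  linarith only [h2, h3]

theorem hx_low {x t T : ℝ} (h0 : 0 < x) (h1 : x ≤ 12 / 100) (ht : t = 100 / 12 * x)
    (T0 : -(7 / 10000) ≤ T) (T1 : T ≤ 0) :
    uu x (T * t) ≤ uu x (16 / 100 * t) + 93 / 100 * (16 / 100 * t) := by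
  have ht0 : 0 < t := by rw [ht]; positivity
  have h2 : |T * t| ≤ 16 / 100 * t := by
    rw [abs_mul, abs_of_nonpos T1, abs_of_pos ht0]
    exact mul_le_mul_of_nonneg_right (by linarith only [h0, h1, T0]) ht0.le
  have h3 := uu_atan (a := x) (s := |T * t|) (s' := 16 / 100 * t) (r := 4 / 3)
    (c := 93 / 100) h0 (by linarith only [h0, h1]) (abs_nonneg _) h2 (by rw [ht]; linarith only []) arctan_43
  rw [uu_abs] at h3
  linarith only [h3, abs_nonneg (T * t)]

theorem hpi2 {x t T k1 k2 : ℝ} (h0 : 0 ≤ x + k1) (ha : x + k1 ≤ 1) (ht0 : 0 ≤ t)
    (T1 : T ≤ 0) : uu (x + k1) (16 / 100 * t + k2) ≤ uu (x + k1) (T * t + k2) +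
      Real.pi / 2 * (16 / 100 * t + k2 - (T * t + k2)) := by
  have hp := Real.pi_pos
  have hTt : T * t ≤ 16 / 100 * t := mul_le_mul_of_nonneg_right (by linarith only [T1]) ht0
  have g1 := UC.lip (x := x + k1) (a := 16 / 100 * t + k2) (b := T * t + k2) h0 ha
  have g2 := abs_abs_sub_abs_le (16 / 100 * t + k2) (T * t + k2)
  rw [abs_of_nonneg (show 0 ≤ 16 / 100 * t + k2 - (T * t + k2) by linarith only [hTt])] at g2
  have g3 := mul_le_mul_of_nonneg_left g2 (show 0 ≤ Real.pi / 2 by positivity)
  linarith only [g1, g3]

theorem of_cR {x t T k1 k2 S : ℝ} (h0 : 0 < x) (h1 : x ≤ 12 / 100) (ht : t = 100 / 12 * x)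
    (T0 : -(7 / 10000) ≤ T) (T1 : T ≤ 0)
    (hS : uu (x + k1) (16 / 100 * t + k2) ≤
      uu (x + k1) (T * t + k2) + S * (16 / 100 * t + k2 - (T * t + k2)))
    (hc : 0 < cR (93 / 100) S x t T k1 k2) :
    0 ≤ nA1 x t T k1 k2 + 16 / 100 * t * (PN x * nB1 x t T k1 k2 + cN x) := by
  have ht0 : 0 < t := by rw [ht]; positivity
  have hx := hx_low h0 h1 ht T0 T1
  have g1 := nA1_ge hS hx
  have g2 := mul_pos ht0 hc
  unfold cR at g2
  linarith only [g1, g2]

theorem row_cA {x T k1 k2 l : ℝ} (h : ∃ e ∈ cA, 0 < e.val [x, k1, l, T])
    (h0 : 0 < x) (hl : k2 = l * min (16 / 100) (min (32 / 10 * (k1 - 20 / 100))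
      (32 / 10 * (1 - k1)))) (ha : 985 / 1000 ≤ x + k1) (ha1 : x + k1 ≤ 1) :
    0 < cR (93 / 100) (Real.pi / 2) x (100 / 12 * x) T k1 k2 := by
  obtain ⟨v1, v2, v3, v4⟩ := vals x k1 l T
  have hx15 : 0 < x + 15 / 100 := by linarith only [h0]
  have hx15' : 0 < ZL.x.val [x, k1, l, T] + 15 / 100 := by rw [v1]; exact hx15
  obtain ⟨e, he, hp⟩ := h
  simp only [cA, List.mem_cons, List.not_mem_nil, or_false] at he
  rcases he with rfl | rfl | rfl
  · rw [cE_val _ _ _ _ _ _ _ _ hx15', kE_val, tL_val, v1, v2, v3, v4, ← hl] at hp
    simp only [NumLs.E.val] at hp
    push_cast at hp
    have := pos_of_mul_pos_right hp hx15.le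
    rw [show Real.pi / 2 = Real.pi * (1 / 2) by ring]
    exact this
  · simp only [NumLs.E.val, v1, v2] at hp
    push_cast at hp
    linarith only [ha, hp]
  · simp only [NumLs.E.val, v1, v2] at hp
    push_cast at hp
    linarith only [ha1, hp]

theorem nD1_left {x t T k1 k2 : ℝ} (h0 : 0 < x) (h1 : x ≤ 12 / 100) (ht : t = 100 / 12 * x)
    (T0 : -(7 / 10000) ≤ T) (T1 : T ≤ 0) (hk : dom3 k1 k2) (ha : x + k1 ≤ 1) :
    0 ≤ nA1 x t T k1 k2 + 16 / 100 * t * (PN x * nB1 x t T k1 k2 + cN x) := by
  have hp := Real.pi_pos
  have ht0 : 0 < t := by rw [ht]; positivity
  have hTt : T * t ≤ 16 / 100 * t := mul_le_mul_of_nonneg_right (by linarith only [h0, h1, T1]) ht0.le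
  obtain ⟨l, l0, l1, hl⟩ := ex_l hk
  obtain ⟨k0, k3, _⟩ := hk
  obtain ⟨v1, v2, v3, v4⟩ := vals x k1 l T
  have hx15 : 0 < x + 15 / 100 := by linarith only [h0, h1]
  have hx15' : 0 < ZL.x.val [x, k1, l, T] + 15 / 100 := by rw [v1]; exact hx15
  have h2 := hpi2 (k2 := k2) (by linarith only [h0, h1, k0]) ha ht0.le T1
  rcases le_total (985 / 1000) (x + k1) with hc2 | hc2
  · refine of_cR h0 h1 ht T0 T1 h2 ?_
    rw [ht]
    rcases le_total x (2 / 100) with hx | hx
    · exact row_cA (NumLs.chkF4 r_cA (by norm_num) (x := x) (y := k1) (z := l) (w := T)
        (by norm_num; linarith only [h0]) (by norm_num; linarith only [hx]) (by norm_num; linarith only [hc2, hx])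
        (by norm_num; linarith only [h0, ha]) (by norm_num; linarith only [l0]) (by norm_num; linarith only [l1])
        (by norm_num; linarith only [T0]) (by norm_num; linarith only [T1])) h0 hl hc2 ha
    · exact row_cA (NumLs.chkF4 r_cA2 (by norm_num) (x := x) (y := k1) (z := l) (w := T)
        (by norm_num; linarith only [hx]) (by norm_num; linarith only [h1]) (by norm_num; linarith only [h1, hc2])
        (by norm_num; linarith only [h0, ha]) (by norm_num; linarith only [l0]) (by norm_num; linarith only [l1])
        (by norm_num; linarith only [T0]) (by norm_num; linarith only [T1])) h0 hl hc2 ha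
  rcases le_total (2 / 100) x with hx | hx
  · obtain ⟨e, he, hp⟩ := NumLs.chkF4 r_m2 (by norm_num) (x := x) (y := k1) (z := l) (w := T)
      (by norm_num; linarith only [hx]) (by norm_num; linarith only [h1]) (by norm_num; linarith only [k0])
      (by norm_num; linarith only [h0, h1, hc2]) (by norm_num; linarith only [l0]) (by norm_num; linarith only [l1])
      (by norm_num; linarith only [T0]) (by norm_num; linarith only [T1])
    simp only [ZL.e5, List.mem_cons, List.not_mem_nil, or_false] at he
    rcases he with rfl | rfl
    · rw [nD1E_val _ _ _ _ _ _ hx15', kE_val, tL_val, v1, v2, v3, v4, ← hl, ← ht] at hp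
      exact (pos_of_mul_pos_right hp hx15.le).le
    · simp only [NumLs.E.val, v1, v2] at hp
      push_cast at hp
      linarith only [hc2, hp]
  rcases le_total (x + k1) (1 / 2) with hc | hc
  · obtain ⟨e, he, hp⟩ := NumLs.chkF4 r_cC (by norm_num) (x := x) (y := k1) (z := l) (w := T)
      (by norm_num; linarith only [h0]) (by norm_num; linarith only [hx]) (by norm_num; linarith only [k0])
      (by norm_num; linarith only [h0, hc]) (by norm_num; linarith only [l0]) (by norm_num; linarith only [l1])
      (by norm_num; linarith only [T0]) (by norm_num; linarith only [T1])
    simp only [cC, List.mem_cons, List.not_mem_nil, or_false] at he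
    rcases he with rfl | rfl
    · rw [cE_val _ _ _ _ _ _ _ _ hx15', kE_val, tL_val, v1, v2, v3, v4, ← hl, ← ht] at hp
      simp only [NumLs.E.val] at hp
      push_cast at hp
      refine of_cR h0 h1 ht T0 T1 h2 ?_
      have := pos_of_mul_pos_right hp hx15.le
      rw [show Real.pi / 2 = Real.pi * (1 / 2) by ring]
      exact this
    · simp only [NumLs.E.val, v1, v2] at hp
      push_cast at hp
      linarith only [hc, hp]
  · obtain ⟨e, he, hp⟩ := NumLs.chkF4 r_cB (by norm_num) (x := x) (y := k1) (z := l) (w := T)
      (by norm_num; linarith only [h0]) (by norm_num; linarith only [hx]) (by norm_num; linarith only [hx, hc])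
      (by norm_num; linarith only [h0, hc2]) (by norm_num; linarith only [l0]) (by norm_num; linarith only [l1])
      (by norm_num; linarith only [T0]) (by norm_num; linarith only [T1])
    simp only [cB, List.mem_cons, List.not_mem_nil, or_false] at he
    rcases he with rfl | rfl
    · rw [cE_val _ _ _ _ _ _ _ _ hx15', kE_val, tL_val, v1, v2, v3, v4, ← hl, ← ht] at hp
      simp only [NumLs.E.val, kE_val, tL_val, v1, v2, v3, ← hl, ← ht] at hp
      push_cast at hp
      refine of_cR h0 h1 ht T0 T1 ?_ (pos_of_mul_pos_right hp hx15.le)
      exact slope_end hc (by linarith only [h0, hc2, hx]) (by linarith only [hTt])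
    · simp only [NumLs.E.val, v1, v2] at hp
      push_cast at hp
      linarith only [hc2, hp]

end ZL

end ZD

end Pool.Agent.Work.MP_b30479_gtS.G2

end

section

/-!
# `RowsN`: a digit `3`, slot `0`, certificates
-/

set_option linter.unusedVariables false
set_option linter.unusedSimpArgs false

namespace Pool.Agent.Work.MP_b30479_gtS.G2

open NumUs (uu)
open NumLs (E)
open NumLs.E (mn mn_val)

namespace ZD

namespace ZL

theorem r_k1 : NumLs.chkF d1 10000 0 0 10000 7 40 0 1200 2000 10000 0 20000 0 7
    16971413167345749628336532730061830711963286669396830779748309042121461013154510621308228597848554132016672927346639758707437697824380707530425426589071411358040639474715857701708283403337346414268242028973543896600164621144809328976468921381576753781062993366544827559993847094662921130597134000688289571778086647524467578237189983321868764304914351995072796229470176038566604774775122951578352263430171662381720492403444043779940808079509911393702570043553067104739850040037806955019083271700079006740893360749115311793800732926476253146575122940570563534666705751120587527107774557239947059793863927040280639303686303611862223832926059426052068748535157207661424878431204068294495072407603919265068197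864283283742483513727208816946916207232901561925207534062384647079835310862808896418566214416966665383044416227912866313868157566574782907351337924869325756196219915984226208219014689988731370364731395503359346851445018464114477027603753271301411697000107284460908120692583787627163756995267690814028880550614684152180768428171138759940034986596171374183491121164976359329143374244186671100153858001238600991453363057197118266592348091078119806088704444130895698073859034218998837670964249039488776893537781847036470653849000373915265778460664760243928846567968299496138935415906502155366047604389444921147217476900972119479257578670128687870724843476744431084115836673592833380914490459683935294100950212330407769277850140107702284964523447496503709388883385153453093607425106685952636914175650223189828104830155367403167935982606819729412533994100822556004052579141020980444678650347688994158507317129273753532138609175552328938047486451081304465576873171558974379844240068758928239341453603755271457405505568924501155128759933572311916415512602797874215330338353124059495830207810786323703594558961019452092634747961027495526431493625361727736149563283000704108677399027635738946126544768279300155792497912228017834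464668974638506953970040163831433249991161486517410853046841112317820196801397953928705181356771952694938109336074989358091583339093966699113827254009802567415693522691615907645858644964247660433930203088228019517836077622930073365142693605035001093046741821570077104082287386325098153206037283670514532531931610873434050425324969601532322305617686433567280274071756455397128272724115119230467247110711753767720940269314166129267955480661515955937909556190850442304210949083302176575988932212225191925168944646896287749861092584941218910700672432274688912993919161105211622218311957844645210732022320202685724286212180088782502012838271700781504502685906685333854149867267846071482982948118982055824161675244598904212118223313042186580666295373090358665054766158840058740341213123194510051391282580140390404992517812434040073586980053792029132253734317595323481622645109444351541588863670792183661300625861802242734344668415895659938071568293317595645801361467430578815052674527016780120066038485160798689710936099728598506739321179546854489763863464481730364268520385577814460884099309797976720458486758800160821332319395173317057297562649711715603135335712463143979526707809930422985927593039119733453468101658026070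331054118266922284935382412481395354062672799765666423278614782944156377178284095068460085199088072201978314375960128279436468544976260596055842014460554262019029947169842232125037578047204036330913193044416735823543762267880413762477850620188284770759080791153176572075036008181424904890803119023470750662323680408124493330641789646681162418583663467059377191754457957449508496268342971602762675854499808544327580408389380736769310026595149622786406831221505936671909691491136777778381632370300618690495221275025124682944870516646204998355818645311552466412404198602753677225412409029666860501626047111234886899158167867259569557639547985150800528508430292297361420020321295218500778880015187686628229178546909803928464246516730623622537903848881504643667475548471577627601835914944075944518593244817641550300590550426642216407083571280597184169062452430833319122122532830192148085712605466770448659302755872832549147192148120785988183667293291595538199124620215833071528910240894361959190888941189791385859673536502127011087541416183703866898347411524113424209574653096262477388347037186435906183994263612141766638262033278626597100598595352475181134006561632221733228033639782358871169129495592303463026900811874585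604371167852291376775829581166801452669972172354814442821210183538810599982013036511710415905817477110571733897215583151834806206085029202736270760011490452298004040728283902787416022700542321740840748967095990551567992460168181325646312254745401767085213202513234617868588702210835742420431800931638000187283258914624460488847083215575304042193247262184787039121271220357170318712232910282076111681494335933795809790117523313225345126274357835777515557531167711782066093585961615432370405941945372529827167831060250602478578637927151372729501107067621216862578819816820651617114641393822951982014807941535973744682849181167277599453623178918354594781866298372809694956884729369969951008116514084638724100416852994255693606445846360952284247468550865370454425254303247526356072669927003510432160392627538506321290583429265464205825405232459774758217219491263128219336547114913374046812914383943898573729049660211762215544018293796718976900297385001162725713524618296649910095951318470984117489014004323676272005134131116926767985755129301156023470944464759594093150253400250152347798965295655134645940483262100313533788370544272111676777750446608559935820876263719254080044188591350509600885443828101497927246404926223387504097509981554567983723361645584453647208642109639150692366895315137776622696334451269070265994916204049151575863468946504952147785231718101711817170265003979381628296001340457939318994934600278014513283999615575762116227310471436484202422696278587605403455662718670378720120711122091356910629133121433748059036007086813695444574786717501582696153718272508803318567859583745642938679652063114646740933492265913240522998631079411385865653696778042370437495636354783285924665309297880035335761134154755025777404394074470885249471496507887174218186155868525998928576770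 = true :=
  Pool.Agent.Work.NumIs.okB_of rfl rfl rfl rfl rfl rfl rfl rfl rfl rfl rfl rfl
    (Pool.Agent.Work.NumIs.runE_split2 rfl rfl rfl
      (Pool.Agent.Work.NumIs.runE_split2 rfl rfl rfl
        r_k1_p1
        (Pool.Agent.Work.NumIs.runE_split1 rfl rfl rfl
          r_k1_p2
          (Pool.Agent.Work.NumIs.runE_split2 rfl rfl rfl
            r_k1_p3
            (Pool.Agent.Work.NumIs.runE_split1 rfl rfl rfl
              r_k1_p4
              (Pool.Agent.Work.NumIs.runE_split1 rfl rfl rfl
                r_k1_p5
                (Pool.Agent.Work.NumIs.runE_split0 rfl rfl rfl
                  r_k1_p6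
                  (Pool.Agent.Work.NumIs.runE_split1 rfl rfl rfl
                    r_k1_p7
                    r_k1_p8)))))))
      (Pool.Agent.Work.NumIs.runE_split2 rfl rfl rfl
        (Pool.Agent.Work.NumIs.runE_split1 rfl rfl rfl
          r_k1_p9
          (Pool.Agent.Work.NumIs.runE_split2 rfl rfl rfl
            (Pool.Agent.Work.NumIs.runE_split1 rfl rfl rfl
              r_k1_p10
              (Pool.Agent.Work.NumIs.runE_split1 rfl rfl rfl
                r_k1_p11
                (Pool.Agent.Work.NumIs.runE_split1 rfl rfl rfl
                  r_k1_p12
                  r_k1_p13)))
            r_k1_p14))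
        r_k1_p15))

end ZL

end ZD

end Pool.Agent.Work.MP_b30479_gtS.G2

end

section

/-!
# `RowsN`: a digit `3`, slot `0`, certificates
-/

set_option linter.unusedVariables false
set_option linter.unusedSimpArgs false

namespace Pool.Agent.Work.MP_b30479_gtS.G2

open NumUs (uu)
open NumLs (E)
open NumLs.E (mn mn_val)

namespace ZD

namespace ZL

theorem r_l4 : NumLs.chkF e4 10000 0 0 10000 7 40 3000 5000 2000 10000 0 20000 0 7
    3953980497376933024000054687718791940691203489155463142550025182798412711438585920291339721281997571038921828491492703166053295876394364103114362798238956008953878876644602867319378264335764656231954737420714397827006674433083676824937510399231883083142543245650330260540436533918460262090314810394012746476812101415105788071244777874273422598023668515806856206334116566584700480526901997374898014789718679028068496774424398320253699846403520289877120828341075290093251052262164686943555608937719838845858208173000089709218480354210784903490933384587258511656198165009460564142024563046564529831578796364950804818458000958099590459791653798990390178075733970108706039840809119374401111744524540135016811832131765941592735395795892540356708137592654652721321322790759429972253581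531460772876502916798855508314424783929753721114879112974867571554578287838580226860709706409061703996876888048320980492055094529568900260626641306587822146245768911111140710582488963233830179533238693167518788978639136732412408201945311752705952957825822312112426102940854791675190889588674328078849887002936922442802768433882271291625887527825304912670511031946941944653380149365162170699180416659562822249162670642621826641809712595704274860159480283120404407448885645096084668354270753800525131060192456585496667893184227574763130671064001194280871459182445385983201623050276116368538923619033551479771058663545458752125217883695748042007696886863641829401787181983010295170753378834603767026286836588643538422646323000523015244791462844801728940804639834497345235379348514526117942392609858850710102566098580416612924242167228365605139747445823925060906697829068320425097706737536543632991596086953002892634106707139153877504392629304641303952741498343403388431037007336831131208228636628558203690051729058492687206845712627407948931411834839631098347325666883226733175155059195640913746743261022922311761365409709060395726602275263224902565132412268721171323885427855917203321620697977395008640734930360233521122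347604185848703493090658920491129004126082429969461790298805538607268006612274913912065561356465158933212235389093261552997117374452572389346225685416755002853903613559047210638084588542964744344410935500152664930302247089531508016835979046131126145724381854095949322370732039072814362730100052799226556603020257661819677983314136799825437589684829572142304255611201113043725691783002810522087703260428031587467324275362184879406354574198194197336226134776862954339204114196478282248546319646827839501690169878183491841256578159464195540839932215722857737664816678121879801660335011407717895346707316436988482576258900732190736016111559863796255919280168068443179154838004064609592085805175071170469885201037619235142317085302771145757156454538308135843031366949836707114981376307515355724661499188431059516225904335158472870234044416824453882455011373513887008417114042719013339456564365782866811317169456923812526649136845296650172977027863835739071341002468383678557418604432519053021696110090139944709147522439141420864074879622039054206650187546849863346511814132060530316937067395680399909488008277307978511240804815683639699569833021788066795410940200851553252556843040229301813974321289966490410234727294538842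337672957871984631551950413397240387476797176597774950450265606454764339005468355187357255292697347642083379843088723768252662170798851252534360110768043054951705537431054766696695219788670211242929069918489497393393016888775901242149532309452632013899262468576296909894076947126071828724447592121131766051373048214478201016903826932446421798831321554348283487753529252584429369350541344129023925116138367461878799115825738182303830154523255646103109770694328267068086951963367461562996773322708523225483632622424985850260629644273824855678780577660791320796654374556152640570591914582970502776096847330255458856742867968896496976591078740856860836545297545767659744685529545477052787866133174396792927620524333422968903875756873079056321210985334980609103013904911830400311383420089525083218550074658765150365695447373701318816150897466720795154783481206282688189367664223869300230431673379765592571677324630548537407297045079237486889419520481908402035817399445919646311688871640331843533639466248586214932212593134308498528293257675335675641777103110220375490633487809448724643217497115121467243371570893029668588181076228009117414425723745674873527278905377881483987418516974283497492308486951360682279942905286175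745890296650016151836603190788327335976575676808189412050123741438955147288011363692660735261052176279884032651290516637146976326440463743604236167907434172209532333786417639603365885204271489940825542826771241594520964222195230672694614294853097650609011930674788539608542745090677244771381707244076186975801582427339788317025237077187612078637553321582669024785791523253794295065925916872580389259115492721591007447956047029532904914358705696535608595028990972388213938402568188808550244270184732612178812389188369630950212588695587202923718704036751651955555630936600946327424070873612495485276087529537469206846567824264909254617879754465706276081130418631414963733317371754831611249297166014777868882581144432908029562588969062906447089614062851043908830860952533154326019952548907425983172460643613359046036979898538002285919878359532864126605554599149073454542221018482689000005840394736085606991894125846924207120775410946611455853492732088943959943693043315139080013261644932228304395232739074046916520037042941213440867008718982558351582094253672378795320883362205863657549368895065619525839685007451363813026117689604436100774442331535977144404521494152468589251644674791836986520058120698147848983096716724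019510793923003784090163350445364832091819840010290110783336713415780640554996739933605144620716269710396556233262290916849213655440489065507306587416378117081836595396131203834615373781624487252373834104911363475390431901915314220934984810375964983500138509127892310460441958907978338440987056070477084181845981806880029681045761406189934661789006739881233619307791942798305977849784779028150480490398592396735189267972590273620424342940392980689867556456051844863346976011915130272468078977689945405173723574957704858665596123768319027688800514046887298499771729974292047463172439472449234988521724241526442302363968971564843763942328411485615339334928532645903489156886117962055718483938362510358448788480115075604137413856918248338238157716223917970320921016857908534012910402562145006569004108301006421564476786886197402627150712293798318174475315543624853897468418940551529545121923991445320085234023540391927450731642035643735664806642930428186638716611020653667287841505352727854777299838953698260136989251746056003854921452236330488392051681546698886750736977209282072854244735895016015811841973803958298454197393969797881897537067610656757969341308791412923275322128384879081424192068669336931339211942601600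664471430279111221769762003128171544131213031762129869532926887722057897597079094757994883361749111138110103958564081906382379012523545363734756272120572815094873277778739538592564940251960660504090188692842528214740258271448539721064847452684696862864285347705494229255132963327448772754309812397655140683128789351607747298012368266340489009292706453303573447735188345871448677943306867294817095645689354351642744592115983021494946947850932838240126550984455723302720787666467215207577757398907249064393626622622583066152289370670916562620287607714317562588035993975291508502539772017577515492271874650018392290542094357446798226341533339193837706240900712890951591240456206193256469500683768693864945648353860244531382098037966777000838092690703828971668972427107258525483844720731690779912501147670545410966414190927867830243202695062882830366788303196411593576674673781322947348750253136785723906100211539805881154673878462956886547476918604174467210788519035878659556614980020994920516193239356065205699049008062816835853695760363131161127174900189028194837337042846475059585692899247949406108609540441587374035925221398325606656144517064555037131028656276240542636753182221706608153075667509391205770338159896664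2632555536973971195073607888115869508930971508725801880868238660968595640589772863262841870040923882185450371940075701917140045422156879939928104537351779713855554958940445552222124361220197949025604855172200785557600976516239394783956338483171948345616185565517596871961293257603991004495655628943124746241553897998054675849681196923481679452716933628468732794860845376771248863420910444635950297057915298194137538538660204350695414633724771558701639725039177137331039209249999551961402642886821498832119150547111205391838929959836991746881570176895052199110955400778336573361158257073550574447426151294585797190881394946 = true :=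
  Pool.Agent.Work.NumIs.okB_of rfl rfl rfl rfl rfl rfl rfl rfl rfl rfl rfl rfl
    (Pool.Agent.Work.NumIs.runE_split2 rfl rfl rfl
      (Pool.Agent.Work.NumIs.runE_split2 rfl rfl rfl
        r_l4_p1
        r_l4_p2)
      (Pool.Agent.Work.NumIs.runE_split2 rfl rfl rfl
        (Pool.Agent.Work.NumIs.runE_split1 rfl rfl rfl
          r_l4_p3
          (Pool.Agent.Work.NumIs.runE_split2 rfl rfl rfl
            r_l4_p4
            r_l4_p5))
        (Pool.Agent.Work.NumIs.runE_split1 rfl rfl rfl
          r_l4_p6
          (Pool.Agent.Work.NumIs.runE_split2 rfl rfl rfl
            r_l4_p7
            r_l4_p8))))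

end ZL

end ZD

end Pool.Agent.Work.MP_b30479_gtS.G2

end

section

/-!
# Modes at rings, `RowsN`: slot `0` of the digit `3`, the corner `1 ≤ x + k1`
-/

namespace Pool.Agent.Work.MP_b30479_gtS.G2

open NumUs

namespace ZN

open ZD

/-- **The corner, lower side.** -/
theorem corner_neg {x v κ : ℝ} (x0 : 0 < x) (x1 : x ≤ 12 / 100) (v0 : 0 ≤ v) (v1 : v ≤ x)
    (k0 : 0 ≤ κ) (k1 : κ ≤ 32 / 10 * v) : 4 / 3 * x * ls 1 x ≤ G0 x (4 / 3 * x) v (-κ) := by
  have hpi := Real.pi_pos
  have h0 := corner x0 x1 v0 v1 le_rfl
  set Y := 4 / 3 * x with hYd
  have hY : 0 < Y := by positivity
  have eκ : |(-κ)| = κ := by rw [abs_neg, abs_of_nonneg k0]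
  have b1 := incr_one (c := x + 1 - v) (s := 0) (s' := -κ) (by linarith only [v1])
    (by rw [abs_zero]; exact abs_nonneg _)
  have c1 := incr_one (c := 6 / 5 - v) (s := 0) (s' := -κ) (by linarith only [x0, x1, v1])
    (by rw [abs_zero]; exact abs_nonneg _)
  rw [abs_zero, eκ] at b1 c1
  have key : N0 x Y v 0 ≤ N0 x Y v (-κ) ∧ M0 x Y v 0 ≤ M0 x Y v (-κ) := by
    rcases le_total κ (2 * Y) with hk | hk
    · have hd : |Y + -κ| ≤ |Y| := by
        rw [abs_of_pos hY, abs_le]
        constructor <;> linarith only [hk, k0]
      have a1 := incr (c := x + 1 - v) (by linarith only [x0, x1, v1]) hd
      have a2 : 0 ≤ Real.pi * x * κ := by positivity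
      have a3 : 0 ≤ Real.pi * κ := by positivity
      have a4 : 0 ≤ Real.pi / 2 * κ := by positivity
      unfold N0 M0
      rw [add_zero]
      constructor
      · linarith only [b1, a1, a3]
      · linarith only [c1, a1, a2, a3]
    · have e2 : |Y + -κ| = κ - Y := by
        rw [abs_of_nonpos (by linarith only [x0, hYd, hk])]
        ring
      have a1 := incr (c := x + 1 - v) (s := Y + -κ) (s' := -κ) (by linarith only [x0, x1, v1])
        (by rw [e2, eκ]; linarith only [x0, hYd])
      have a2 := incr (c := x + 1 - v) (s := 0) (s' := Y) (by linarith only [x0, x1, v1])
        (by rw [abs_zero]; exact abs_nonneg _)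
      have a3 := le_threehalf (c := x + 1 - v) (s := Y) (s' := Y + -κ) (by linarith only [x0, x1, k1, hYd, hk])
        (by rw [e2, abs_of_pos hY]; linarith only [hk])
      rw [e2, abs_of_pos hY] at a3
      have a4 : 0 ≤ Real.pi * x * κ := by positivity
      have a5 : 0 ≤ Real.pi * (2 * Y - 7 / 10 * κ) := by
        have : 0 ≤ 2 * Y - 7 / 10 * κ := by linarith only [x0, v1, k1, hYd]
        positivity
      unfold N0 M0
      rw [add_zero]
      constructor
      · linarith only [a1, a2]
      · linarith only [c1, a3, a4, a5]
  have hP := PN_nonneg x0.le (by linarith only [x0, x1] : x ≤ 6 / 10)
  have h1 := mul_le_mul_of_nonneg_left key.2 hP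
  have h2 : Y * (PN x * M0 x Y v 0 + cN x) ≤ Y * (PN x * M0 x Y v (-κ) + cN x) :=
    mul_le_mul_of_nonneg_left (by linarith only [h1]) hY.le
  unfold G0 at h0 ⊢
  linarith only [h0, key, h2, key.1]

/-- **The corner.** -/
theorem nD1_corner {x T k1 k2 : ℝ} (x0 : 0 < x) (x1 : x ≤ 12 / 100) (hv : 1 ≤ x + k1)
    (hk : dom3 k1 k2) (T0 : -(7 / 10000) ≤ T) (T1 : T ≤ 0) :
    0 ≤ nA1 x (x / (12 / 100)) T k1 k2 +
      16 / 100 * (x / (12 / 100)) * (PN x * nB1 x (x / (12 / 100)) T k1 k2 + cN x) := by
  obtain ⟨d0, d1, d2, d3, d4⟩ := hk
  have eY : 16 / 100 * (x / (12 / 100)) = 4 / 3 * x := by ring
  have h := nD1_of (x := x) (t := x / (12 / 100)) (T := T) (v := 1 - k1) (k := k2) x0.le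
    (by linarith only [x0, x1]) (by positivity) ((div_le_one (by norm_num)).2 x1) T0 T1 (by linarith only [d1])
    (by linarith only [x0, x1, hv]) d2 ?_
  · rwa [sub_sub_cancel] at h
  · rw [if_pos (by linarith only [x0, x1] : x ≤ 1 / 2), eY]
    rcases le_total 0 k2 with h2 | h2
    · exact corner x0 x1 (by linarith only [d1]) (by linarith only [hv]) h2
    · have h3 := corner_neg (v := 1 - k1) (κ := -k2) x0 x1 (by linarith only [d1]) (by linarith only [hv])
        (by linarith only [h2]) (by rwa [abs_of_nonpos h2] at d4)
      rwa [neg_neg] at h3

end ZN

end Pool.Agent.Work.MP_b30479_gtS.G2

end

section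

/-!
# `RowsN.nd1`, `RowsN.nD1`
-/

namespace Pool.Agent.Work.MP_b30479_gtS.G2

open NumUs (uu)

namespace ZD

namespace ZL

/-! ### the trapezoid -/

theorem tN_low {x : ℝ} (h0 : 0 < x) (h1 : x ≤ 12 / 100) : tN (12 / 100) x = 100 / 12 * x := by
  unfold tN
  have e : x / (12 / 100) = 100 / 12 * x := by ring
  rw [e, min_eq_left (a := 100 / 12 * x) (by rw [le_div_iff₀ (by norm_num)]; linarith only [h0, h1]),
    min_eq_right (by linarith only [h1])]

theorem tN_mid {x : ℝ} (h0 : 12 / 100 ≤ x) (h1 : x ≤ 3 / 10) : tN (12 / 100) x = 1 := by
  unfold tN
  refine min_eq_left (le_min ?_ ?_)
  · rw [le_div_iff₀ (by norm_num)]; linarith only [h0]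
  · rw [le_div_iff₀ (by norm_num)]; linarith only [h1]

theorem tN_high {x : ℝ} (h0 : 3 / 10 ≤ x) (h1 : x ≤ 6 / 10) :
    tN (12 / 100) x = 10 / 3 * (60 / 100 - x) := by
  unfold tN
  have e : (60 / 100 - x) / (30 / 100) = 10 / 3 * (60 / 100 - x) := by ring
  rw [e, min_eq_right (a := x / (12 / 100)) (by rw [le_div_iff₀ (by norm_num)]; linarith only [h0]),
    min_eq_right (by linarith only [h0])]

theorem nD1_mid {x t T k1 k2 : ℝ} (hN : NT (12 / 100) x t T) (x2 : 12 / 100 ≤ x)
    (hk : dom3 k1 k2) :
    0 ≤ nA1 x t T k1 k2 + 16 / 100 * t * (PN x * nB1 x t T k1 k2 + cN x) := by
  obtain ⟨x0, x1, ht, T0, T1⟩ := hN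
  obtain ⟨l, l0, l1, hl⟩ := ex_l hk
  have hk' := hk
  obtain ⟨k0, k3, _⟩ := hk
  obtain ⟨v1, v2, v3, v4⟩ := vals x k1 l T
  have hx15 : 0 < x + 15 / 100 := by linarith only [x0, x1]
  have hx15' : 0 < ZL.x.val [x, k1, l, T] + 15 / 100 := by rw [v1]; exact hx15
  rcases le_total x (3 / 10) with hx3 | hx3
  · rw [tN_mid x2 hx3] at ht
    obtain ⟨e, he, hp⟩ := NumLs.chkF4 r_l3 (by norm_num) (x := x) (y := k1) (z := l) (w := T)
      (by norm_num; linarith only [x2]) (by norm_num; linarith only [hx3]) (by norm_num; linarith only [k0])
      (by norm_num; linarith only [k3]) (by norm_num; linarith only [l0]) (by norm_num; linarith only [l1])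
      (by norm_num; linarith only [T0]) (by norm_num; linarith only [T1])
    simp only [ZL.e3, List.mem_singleton] at he
    rw [he, nD1E_val _ _ _ _ _ _ hx15', kE_val, v1, v2, v3, v4, ← hl] at hp
    have e1 : (NumLs.E.q 1 1).val [x, k1, l, T] = t := by
      rw [ht]; simp only [NumLs.E.val]; norm_num
    rw [e1] at hp
    exact (pos_of_mul_pos_right hp hx15.le).le
  rw [tN_high hx3 (by linarith only [x1])] at ht
  rcases le_total x (1 / 2) with hx4 | hx4
  · obtain ⟨e, he, hp⟩ := NumLs.chkF4 r_l4 (by norm_num) (x := x) (y := k1) (z := l) (w := T)
      (by norm_num; linarith only [hx3]) (by norm_num; linarith only [hx4]) (by norm_num; linarith only [k0])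
      (by norm_num; linarith only [k3]) (by norm_num; linarith only [l0]) (by norm_num; linarith only [l1])
      (by norm_num; linarith only [T0]) (by norm_num; linarith only [T1])
    simp only [ZL.e4, List.mem_singleton] at he
    rw [he, nD1E_val _ _ _ _ _ _ hx15', kE_val, tR_val, v1, v2, v3, v4, ← hl, ← ht] at hp
    exact (pos_of_mul_pos_right hp hx15.le).le
  · exact nD1_high hx4 (by linarith only [x1]) ht T0 T1 hk'

end ZL

open ZL in
theorem nd1 : ∀ x t T k1 k2 : ℝ, NT (12 / 100) x t T → dom3 k1 k2 →
    0 ≤ nB1 x t T k1 k2 + dN x := by
  intro x t T k1 k2 hN hk
  obtain ⟨x0, x1, ht, T0, T1⟩ := hN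
  obtain ⟨l, l0, l1, hl⟩ := ex_l hk
  obtain ⟨k0, k3, _⟩ := hk
  obtain ⟨v1, v2, v3, v4⟩ := vals x k1 l T
  rcases le_total x (12 / 100) with hx | hx
  · rw [tN_low x0 hx] at ht
    obtain ⟨e, he, hp⟩ := NumLs.chkF4 r_k1 (by norm_num) (x := x) (y := k1) (z := l) (w := T)
      (by norm_num; linarith only [x0]) (by norm_num; linarith only [hx]) (by norm_num; linarith only [k0])
      (by norm_num; linarith only [k3]) (by norm_num; linarith only [l0]) (by norm_num; linarith only [l1])
      (by norm_num; linarith only [T0]) (by norm_num; linarith only [T1])
    simp only [ZL.d1, List.mem_singleton] at he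
    rw [he, nd1E_val, kE_val, tL_val, v1, v2, v3, v4, ← hl, ← ht] at hp
    exact hp.le
  rcases le_total x (3 / 10) with hx3 | hx3
  · rw [tN_mid hx hx3] at ht
    obtain ⟨e, he, hp⟩ := NumLs.chkF4 r_k2 (by norm_num) (x := x) (y := k1) (z := l) (w := T)
      (by norm_num; linarith only [hx]) (by norm_num; linarith only [hx3]) (by norm_num; linarith only [k0])
      (by norm_num; linarith only [k3]) (by norm_num; linarith only [l0]) (by norm_num; linarith only [l1])
      (by norm_num; linarith only [T0]) (by norm_num; linarith only [T1])
    simp only [ZL.d2, List.mem_singleton] at he
    rw [he, nd1E_val, kE_val, v1, v2, v3, v4, ← hl] at hp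
    have e1 : (NumLs.E.q 1 1).val [x, k1, l, T] = t := by
      rw [ht]; simp only [NumLs.E.val]; norm_num
    rw [e1] at hp
    exact hp.le
  · rw [tN_high hx3 (by linarith only [x1])] at ht
    obtain ⟨e, he, hp⟩ := NumLs.chkF4 r_k3 (by norm_num) (x := x) (y := k1) (z := l) (w := T)
      (by norm_num; linarith only [hx3]) (by norm_num; linarith only [x1]) (by norm_num; linarith only [k0])
      (by norm_num; linarith only [k3]) (by norm_num; linarith only [l0]) (by norm_num; linarith only [l1])
      (by norm_num; linarith only [T0]) (by norm_num; linarith only [T1])
    simp only [ZL.d3, List.mem_singleton] at he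
    rw [he, nd1E_val, kE_val, tR_val, v1, v2, v3, v4, ← hl, ← ht] at hp
    exact hp.le

open ZL in
theorem nD1 : ∀ x t T k1 k2 : ℝ, NT (12 / 100) x t T → dom3 k1 k2 →
    0 ≤ nA1 x t T k1 k2 + 16 / 100 * t * (PN x * nB1 x t T k1 k2 + cN x) := by
  intro x t T k1 k2 hN hk
  rcases le_total (12 / 100) x with hx | hx
  · exact nD1_mid hN hx hk
  have ht := hN.t
  rw [ZL.tN_low hN.x0 hx] at ht
  rcases le_total (x + k1) 1 with ha | ha
  · exact nD1_left hN.x0 hx ht hN.T0 hN.T1 hk ha
  · have h := ZN.nD1_corner hN.x0 hx ha hk hN.T0 hN.T1
    rw [show x / (12 / 100) = t by rw [ht]; ring] at h
    exact h

end ZD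

end Pool.Agent.Work.MP_b30479_gtS.G2

end
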