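import Pool.Agent.Work.MP_b30479_gt.TBS.G2.CN.M3Mid
import Pool.Agent.Work.MP_b30479_gt.TBS.G2.CN.KokR
import Pool.Agent.Work.MP_b30479_gt.TBS.G2.SRingH
import Pool.Agent.Work.MP_b30479_gt.TBS.G2.MDe
import Pool.Agent.Work.MP_b30479_gt.TBS.G2.WLocF
import Pool.Agent.Work.MP_b30479_gt.TBS.G2.WMainS
import Pool.Agent.Work.MP_b30479_gt.TBS.G2.CN.TTabG
import Pool.Agent.Work.MP_b30479_gt.TBS.G2.CN.LocM1
import Pool.Agent.Work.MP_b30479_gt.TBS.G2.CN.SXt
import Pool.Agent.Work.MP_b30479_gt.TBS.G2.CN.PWin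
import Pool.Agent.Work.MP_b30479_gt.TBS.G2.MRBase
import Pool.Agent.Work.MP_b30479_gt.TBS.G2.RngO
import Pool.Agent.Work.MP_b30479_gt.TBS.G2.TE1T
import Pool.Agent.Work.MP_b30479_gt.TBS.G2.MDc
import Pool.Agent.Work.MP_b30479_gt.TBS.G2.ZRcF
import Pool.Agent.Work.MP_b30479_gt.TBS.G2.ZNc
import Pool.Agent.Work.MP_b30479_gt.TBS.G2.ZRnD1
import Pool.Agent.Work.MP_b30479_gt.TBS.G2.TReg

section

/-!
# Location of the saddle point of a word: the family after three rounds
-/

namespace Pool.Agent.Work.MP_b30479_gtS.G2.CN.LA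

open Complex SR

variable {M : ℕ} {b : Fin (M + 1) → ℤ} {w : ℕ → ℂ}

/-- **The location of the saddle point of a word.** -/
theorem loc_kr3 (Z : LocZ Kr3) (S : LocS Kr3) (hb : ClassW b) (F : RingFacts) (hw : Sol b w)
    (hM : 1 ≤ M) : LocOK b w ∧ Loc b (zsW b w) ∧ LocX b (zsW b w) :=
  loc_all kok_kr3 Z S Kr3_le hb F hw hM (snd3 hb hw hM)

/-- **The location of the saddle point of an alternating word without a digit `1`.** -/
theorem loc_alt_kr3 (hb : ClassW b) (F : RingFacts) (hw : Sol b w) (hM : 1 ≤ M)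
    (h2 : ∀ i, 2 ≤ (b i).natAbs) (ha : ∀ h : Fin M, b h.castSucc * b h.succ < 0) :
    LocOK b w ∧ Loc b (zsW b w) ∧ LocX b (zsW b w) :=
  loc_alt kok_kr3 Kr3_le hb F hw hM (snd3 hb hw hM) h2 ha

end Pool.Agent.Work.MP_b30479_gtS.G2.CN.LA

end

section

/-!
# Words all of whose regions are rings: the step
-/

namespace Pool.Agent.Work.MP_b30479_gtS.G2

open Finset VOL Filter Topology

namespace SR

variable {M : ℕ} {b : Fin (M + 1) → ℤ} {zs : DD (tyW b) ⊕ ZZ (tyW b) → ℂ}
variable {h h' : Fin M} {i j j' : Fin (M + 1)} {p : Fin 3}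

theorem ofz_real (b' : ℤ) {z : ℂ} (h : z.im = 0) : ofz b' z = ((ofs b' z.re : ℝ) : ℂ) := by
  rw [ofz_eq, h]
  simp

theorem ofz_ofz (b' : ℤ) (z : ℂ) : ofz b' (ofz b' z) = z := by
  unfold ofz
  split_ifs <;> simp

theorem ofz_zt2 (b' : ℤ) (ρ σ : ℝ) : ofz b' (LT.zt ρ σ) = ⟨ofs b' σ, ρ * LT.th (ofs b' σ)⟩ := by
  rw [ofz_eq, zt_eq, th_ofs]
  apply Complex.ext <;> simp

/-- one region -/
theorem region_M (hb : ClassW b) (hA : AllRing b)
    (hL : Loc b zs) {R : Finset (DD (tyW b))} {z : DD (tyW b) ⊕ ZZ (tyW b) → ℂ} {q : DD (tyW b) → ℝ}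
    (hz : Adm (wdat (tyW b) b) (wpar100 b zs) zs R (nbR b R) z q) (i : Fin (M + 1)) :
    OV b i (Ow b z i) - Real.pi * (pen (fun h => q (.inl h)) i 0 + pen (fun h => q (.inl h)) i 2) ≤
        OV b i (Ow b (tzM zs R z q) i) ∧
      ((∃ h p j, Adj h i p j ∧ (.inl h ∈ R ∨ q (.inl h) ≠ 0)) →
        OV b i (Ow b z i) - Real.pi * (pen (fun h => q (.inl h)) i 0 +
          pen (fun h => q (.inl h)) i 2) < OV b i (Ow b (tzM zs R z q) i)) := by
  have hty := tyW_of_ring hb (hA i)
  obtain ⟨v, rfl⟩ : ∃ v : ZZ (tyW b), v.1 = i := ⟨⟨i, by rw [hty]; rfl⟩, rfl⟩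
  obtain ⟨g0, s0, a0, m0, c0⟩ := slot_M hA hL hz v.1 (p := 0) (Or.inl rfl)
  obtain ⟨g2, s2, a2, m2, c2⟩ := slot_M hA hL hz v.1 (p := 2) (Or.inr rfl)
  have hn : (4 : ℝ) ≤ ((b v.1).natAbs : ℝ) := by
    have := ring_four hb hty
    exact_mod_cast this
  have hρ0 := (hL.rpos v).le
  have hρ1 := hL.ring_height hb v
  have htail : (∃ h p j, Adj h v.1 p j ∧ (.inl h : DD (tyW b)) ∈ R) ↔ (g0 = .tail ∨ g2 = .tail) := by
    constructor
    · rintro ⟨h, p, j, A, hR⟩
      rcases A.slot with rfl | rfl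
      · exact Or.inl (a0.mp ⟨h, j, A, hR⟩)
      · exact Or.inr (a2.mp ⟨h, j, A, hR⟩)
    · rintro (h | h)
      · obtain ⟨h, j, A, hR⟩ := a0.mpr h
        exact ⟨h, 0, j, A, hR⟩
      · obtain ⟨h, j, A, hR⟩ := a2.mpr h
        exact ⟨h, 2, j, A, hR⟩
  have hmode : (∃ h p j, Adj h v.1 p j ∧ q (.inl h) ≠ 0) ↔ (g0 = .mode ∨ g2 = .mode) := by
    constructor
    · rintro ⟨h, p, j, A, hR⟩
      rcases A.slot with rfl | rfl
      · exact Or.inl (m0.mp ⟨h, j, A, hR⟩)
      · exact Or.inr (m2.mp ⟨h, j, A, hR⟩)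
    · rintro (h | h)
      · obtain ⟨h, j, A, hR⟩ := m0.mpr h
        exact ⟨h, 0, j, A, hR⟩
      · obtain ⟨h, j, A, hR⟩ := m2.mpr h
        exact ⟨h, 2, j, A, hR⟩
  by_cases hv : .inr v ∈ nbR b R
  · -- next to a tail
    obtain ⟨r1, r2⟩ := hz.reZ v hv
    have hv' := htail.mp ((mem_nbR_inr R v).mp hv)
    have e1 : Ow b z v.1 1 = ((ofs (b v.1) (z (.inr v)).re : ℝ) : ℂ) := by
      rw [Ow_ring, ofz_real _ r1]
    have e2 : Ow b (tzM zs R z q) v.1 1 = zT (zs (.inr v)).im := by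
      rw [Ow_ring, tzM_tailZ hv, ofz_ofz]
    have key : OV b v.1 (Ow b z v.1) - Real.pi * (pen (fun h => q (.inl h)) v.1 0 +
        pen (fun h => q (.inl h)) v.1 2) < OV b v.1 (Ow b (tzM zs R z q) v.1) := by
      rw [OV_ring hb (hA _) (Ow_endOk z _), OV_ring hb (hA _) (Ow_endOk _ _), e1, e2]
      rcases hv' with h | h
      · subst h
        exact ring_tail s0 s2 hn hρ0 hρ1 (by rw [abs_ofs]; exact r2)
      · subst h
        rw [VR_comm, VR_comm _ (Ow b (tzM zs R z q) v.1 0), add_comm (pen _ _ _)]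
        exact ring_tail s2 s0 hn hρ0 hρ1 (by rw [abs_ofs]; exact r2)
    exact ⟨key.le, fun _ => key⟩
  · have hnt : ¬ (g0 = .tail ∨ g2 = .tail) := by
      rw [← htail, ← mem_nbR_inr]
      exact hv
    push Not at hnt
    obtain ⟨hnt0, hnt2⟩ := hnt
    obtain ⟨σ, hσ, eσ⟩ := hz.onZ v hv
    have e1 : Ow b z v.1 1 = ⟨ofs (b v.1) σ, (zs (.inr v)).im * LT.th (ofs (b v.1) σ)⟩ := by
      rw [Ow_ring, eσ, ofz_zt2]
    have ere : (z (.inr v)).re = σ := by
      rw [eσ, zt_eq]
      simp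
    by_cases hm : g0 = .mode ∨ g2 = .mode
    · -- next to a mode
      have hm' := hmode.mpr hm
      by_cases hs : |σ| ≤ 3 / 10
      · have e2 : Ow b (tzM zs R z q) v.1 1 = Ow b z v.1 1 := by
          rw [Ow_ring, Ow_ring, tzM_mainZ hv]
          rintro ⟨-, h⟩
          rw [ere] at h
          linarith
        have key : OV b v.1 (Ow b z v.1) - Real.pi * (pen (fun h => q (.inl h)) v.1 0 +
            pen (fun h => q (.inl h)) v.1 2) < OV b v.1 (Ow b (tzM zs R z q) v.1) := by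
          rw [OV_ring hb (hA _) (Ow_endOk z _), OV_ring hb (hA _) (Ow_endOk _ _), e2, e1]
          rcases hm with h | h
          · subst h
            exact ring_near s0 s2 hnt2 hρ0 hρ1 (by rw [abs_ofs]; exact hs)
          · subst h
            rw [VR_comm, VR_comm _ (Ow b (tzM zs R z q) v.1 0), add_comm (pen _ _ _)]
            exact ring_near s2 s0 hnt0 hρ0 hρ1 (by rw [abs_ofs]; exact hs)
        exact ⟨key.le, fun _ => key⟩
      · push Not at hs
        have e2 : Ow b (tzM zs R z q) v.1 1 = zM (zs (.inr v)).im := by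
          rw [Ow_ring, tzM_modeZ hv ⟨hm', by rw [ere]; exact hs⟩, ofz_ofz]
        have key : OV b v.1 (Ow b z v.1) - Real.pi * (pen (fun h => q (.inl h)) v.1 0 +
            pen (fun h => q (.inl h)) v.1 2) < OV b v.1 (Ow b (tzM zs R z q) v.1) := by
          rw [OV_ring hb (hA _) (Ow_endOk z _), OV_ring hb (hA _) (Ow_endOk _ _), e1, e2]
          rcases hm with h | h
          · subst h
            exact ring_far s0 s2 hnt2 hn hρ0 hρ1 (by rw [abs_ofs]; exact hs) (by rw [abs_ofs]; exact hσ)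
          · subst h
            rw [VR_comm, VR_comm _ (Ow b (tzM zs R z q) v.1 0), add_comm (pen _ _ _)]
            exact ring_far s2 s0 hnt0 hn hρ0 hρ1 (by rw [abs_ofs]; exact hs) (by rw [abs_ofs]; exact hσ)
        exact ⟨key.le, fun _ => key⟩
    · -- unchanged
      push Not at hm
      have g0m : g0 = .main := by
        cases g0
        · rfl
        · exact absurd rfl hm.1
        · exact absurd rfl hnt0
      have g2m : g2 = .main := by
        cases g2
        · rfl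
        · exact absurd rfl hm.2
        · exact absurd rfl hnt2
      have e2 : Ow b (tzM zs R z q) v.1 1 = Ow b z v.1 1 := by
        rw [Ow_ring, Ow_ring, tzM_mainZ hv]
        rintro ⟨h, -⟩
        exact absurd (hmode.mp h) (not_or.mpr hm)
      have e : Ow b (tzM zs R z q) v.1 = Ow b z v.1 := by
        funext p
        fin_cases p
        · exact c0 g0m
        · exact e2
        · exact c2 g2m
      have p0 := (s0.main g0m).2.1
      have p2 := (s2.main g2m).2.1
      rw [e, p0, p2]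
      refine ⟨by simp, ?_⟩
      rintro ⟨h, p, j, A, hR | hR⟩
      · exact absurd (htail.mp ⟨h, p, j, A, hR⟩) (not_or.mpr ⟨hnt0, hnt2⟩)
      · exact absurd (hmode.mp ⟨h, p, j, A, hR⟩) (not_or.mpr hm)

theorem sum_DD (hA : AllRing b) (q : DD (tyW b) → ℝ) : ∑ i, q i = ∑ h : Fin M, q (.inl h) := by
  rw [Fintype.sum_sum_type]
  have : ∑ m, q (.inr m) = 0 := by
    apply Finset.sum_eq_zero
    intro m _
    obtain ⟨h, e⟩ := hA.inl (.inr m)
    exact absurd e (by simp)
  rw [this, add_zero]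

/-- **One step from the tails and modes**, words all of whose regions are rings. -/
theorem clean_rings (hb : ClassW b) (hA : AllRing b)
    (hL : Loc b zs) {R : Finset (DD (tyW b))} {z : DD (tyW b) ⊕ ZZ (tyW b) → ℂ}
    {q : DD (tyW b) → ℝ} (hz : Adm (wdat (tyW b) b) (wpar100 b zs) zs R (nbR b R) z q)
    (hne : R ≠ ∅ ∨ q ≠ 0) :
    Adm (wdat (tyW b) b) (wpar100 b zs) zs ∅ ∅ (tzM zs R z q) 0 ∧
      (wdat (tyW b) b).V z - 2 * Real.pi * ∑ i, q i < (wdat (tyW b) b).V (tzM zs R z q) := by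
  have hsc : ∀ (h : Fin M) (x : ℝ), tr 0 (1 / 2) (1 / 10) (2 / 100) x = 1 → 0 ≤ x → x ≤ 1 / 2 →
      (wpar100 b zs).On (zs (.inl (.inl h))).im (.inl h) ⟨x, (zs (.inl (.inl h))).im⟩ 0 := by
    intro h x hx h0 h1
    obtain ⟨hX, hcl, hcr⟩ := hA.parQ (zs := zs) h
    refine ⟨x, h0, by rw [hX]; exact h1, Or.inl ⟨?_, rfl⟩⟩
    rw [hX, hcl, hcr]
    unfold pt
    rw [hx, mul_one]
    apply Complex.ext <;> simp
  refine ⟨⟨?_, ?_, ?_, ?_, ?_, ?_⟩, ?_⟩
  · exact fun i hi => absurd hi (Finset.notMem_empty i)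
  · exact fun i _ hi => absurd hi (Finset.notMem_empty _)
  · exact fun v hv => absurd hv (Finset.notMem_empty _)
  · intro i _
    obtain ⟨h, rfl⟩ := hA.inl i
    by_cases hi : (.inl h : DD (tyW b)) ∈ R
    · rw [tzM_tail hi]
      exact hsc h (1 / 4) (by unfold tr; norm_num) (by norm_num) (by norm_num)
    · by_cases hq : q (.inl h) = 0
      · rw [tzM_main hi z hq]
        have := hz.onD (.inl h) (by rw [mem_nbR_inl]; exact hi)
        rwa [hq] at this
      · rw [tzM_mode hi z hq]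
        exact hsc h (17 / 100) (by unfold tr; norm_num) (by norm_num) (by norm_num)
  · intro v _
    by_cases hv : .inr v ∈ nbR b R
    · rw [tzM_tailZ hv]
      refine ⟨ofs (b v.1) (-(1 / 8)), ?_, ?_⟩
      · rw [abs_ofs]
        norm_num
      · have e2 : LT.th (ofs (b v.1) (-(1 / 8))) = 1 := by
          rw [th_ofs]
          exact th_of_le (by norm_num [abs_of_neg])
        rw [zt_eq, e2, mul_one]
        unfold ofz ofs zT
        split_ifs
        · apply Complex.ext <;> simp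
        · apply Complex.ext <;> simp
    · by_cases hm : (∃ h p j, Adj h v.1 p j ∧ q (.inl h) ≠ 0) ∧ 3 / 10 < |(z (.inr v)).re|
      · rw [tzM_modeZ hv hm]
        refine ⟨ofs (b v.1) (-(11 / 40)), ?_, ?_⟩
        · rw [abs_ofs]
          norm_num [abs_of_neg]
        · have e2 : LT.th (ofs (b v.1) (-(11 / 40))) = 9 / 10 := by
            rw [th_ofs, th_of_ge (by norm_num [abs_of_neg])]
            norm_num [abs_of_neg]
          rw [zt_eq, e2]
          unfold ofz ofs zM
          split_ifs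
          · apply Complex.ext <;> simp [mul_comm]
          · apply Complex.ext <;> simp [mul_comm]
      · rw [tzM_mainZ hv hm]
        exact hz.onZ v hv
  · intro k hk hk'
    have h0 : ∀ j, (wdat (tyW b) b).A k j = 0 := by
      intro j
      rcases j with i | v
      · by_contra hne
        exact absurd (hk' i hne) (Finset.notMem_empty _)
      · exact hk v
    have hf : ∀ z, (wdat (tyW b) b).form k z = (wdat (tyW b) b).a k := by
      intro z
      unfold Dat.form
      simp [h0]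
    have := hz.wall k hk fun i hi => absurd (h0 (.inl i)) hi
    rw [hf] at this ⊢
    exact this
  · rw [V_eq_OV hb, V_eq_OV hb, sum_DD hA]
    have hreg := fun i => region_M hb hA hL hz i
    have hex : ∃ h : Fin M, .inl h ∈ R ∨ q (.inl h) ≠ 0 := by
      rcases hne with hR | hq
      · obtain ⟨i, hi⟩ := Finset.nonempty_iff_ne_empty.mpr hR
        obtain ⟨h, rfl⟩ := hA.inl i
        exact ⟨h, Or.inl hi⟩
      · obtain ⟨i, hi⟩ := Function.ne_iff.mp hq
        obtain ⟨h, rfl⟩ := hA.inl i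
        exact ⟨h, Or.inr hi⟩
    obtain ⟨h, hh⟩ := hex
    have hs := Finset.sum_lt_sum (fun i _ => (hreg i).1)
      ⟨h.castSucc, Finset.mem_univ _, (hreg h.castSucc).2 ⟨h, 2, h.succ, .l, hh⟩⟩
    have e := sum_pen (fun h => q (.inl h))
    rw [Finset.sum_sub_distrib, ← Finset.mul_sum, e] at hs
    linarith

/-- **Modes and tails of words all of whose regions are rings.** -/
theorem rest_rings (hb : ClassW b) (hA : AllRing b) (hL : Loc b zs) :
    ModeOk0 b zs (wpar100 b zs) ∧ TailOkM b zs (wpar100 b zs) (nbR b) := by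
  constructor
  · intro z p hz hp
    have hz' : Adm (wdat (tyW b) b) (wpar100 b zs) zs ∅ (nbR b ∅) z p := by
      rw [nbR_empty]
      exact hz
    obtain ⟨h1, h2⟩ := clean_rings hb hA hL hz' (Or.inr hp)
    exact ⟨_, h1, h2⟩
  · intro R hR z p hz
    obtain ⟨h1, h2⟩ := clean_rings hb hA hL hz (Or.inl hR)
    refine ⟨∅, tzM zs R z p, 0, Finset.ssubset_iff_subset_ne.mpr ⟨Finset.empty_subset _, hR.symm⟩, ?_, ?_⟩
    · rw [nbR_empty]
      exact h1
    · simpa using h2

/-- the domination of words all of whose regions are rings from the main paths -/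
theorem domQ_rings (hb : ClassW b) (hA : AllRing b) (hL : Loc b zs) (hP : MainPartsS b zs) :
    DomQ b zs := by
  obtain ⟨h1, h2⟩ := rest_rings hb hA hL
  refine ⟨hP, fun _ => 100, fun _ => 100, nbR b, fun i => ⟨by norm_num, by norm_num⟩, nbR_empty,
    fun R i hi => (mem_nbR_inl R i).mpr hi, h1, Or.inr h2⟩

end SR

end Pool.Agent.Work.MP_b30479_gtS.G2

end

section

/-!
# The saddle point data of every word: assembly above the domination

The solution of the ring equations (`exists_sol`) and all location facts about it (`LocA`).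
-/

namespace Pool.Agent.Work.MP_b30479_gtS.G2

namespace SR

open CN.LA CN.TD

/-- the rest of the domination: modes and tails (the field `rest` of `DomQ`) -/
def RestQ {M : ℕ} (b : Fin (M + 1) → ℤ) (zs : DD (tyW b) ⊕ ZZ (tyW b) → ℂ) : Prop :=
  ∃ (hu hd : DD (tyW b) → ℝ)
    (nb : Finset (DD (tyW b)) → Finset (DD (tyW b) ⊕ ZZ (tyW b))),
    (∀ i, 0 < hu i ∧ 0 < hd i) ∧ nb ∅ = ∅ ∧
    (∀ R : Finset (DD (tyW b)), ∀ i ∈ R, .inl i ∈ nb R) ∧ ModeOk0 b zs (wparQ b hu hd zs) ∧
    ((ModeOkR b zs (wparQ b hu hd zs) nb ∧ TailOkQ b zs (wparQ b hu hd zs) nb) ∨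
      TailOkM b zs (wparQ b hu hd zs) nb)

section
variable {M : ℕ} {b : Fin (M + 1) → ℤ} {w : ℕ → ℂ}

/-- **All location facts** about the solution of the ring equations. -/
theorem locA_of (hb : ClassW b) (hM : 1 ≤ M) (hw : Sol b w) (hC : Crit b (zsW b w)) :
    LocA b (zsW b w) := by
  have hK := CN.kok_kr3
  have hS := snd3 hb hw hM
  have Bx := boxRows hK (locZ hK) (CN.S6.locS hK) Kr3_le
  obtain ⟨hO, hL, hX⟩ := loc_kr3 (locZ hK) (CN.S6.locS hK) hb ringFacts hw hM
  have hE := loc3_of hb ringFacts hw hM hK hS Bx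
  exact
    { L := hL
      X := hX
      P := CN.PW.locP hb ringFacts hw hS hK
      R := locR_of hb ringFacts hw hM hK hS Bx
      G := locRg_of hb ringFacts hw hM hK hS Bx
      S := CN.S6.locS_word hb ringFacts hw hS hK
      C := hC
      T := locRt_of hb ringFacts hw hM hK hS Bx fun A h1 h2 => hX.three A h1 h2
      F := locR4_of hb ringFacts hw hM hK hS Bx
      E := hE
      D := locMd_of hb ringFacts hw hK hS Bx
      N := locM1_of hb ringFacts hw hK hS Bx
      O := locM2_of hb ringFacts hw hK hS Bx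
      Q := locM3_of hb ringFacts hw hK hS Bx
      U := locM4_of hb ringFacts hw hK hS Bx }

end

/-- **The saddle point data of a word** from the two parts of the domination. -/
theorem hsad_word {M : ℕ} {b : Fin (M + 2) → ℤ} (hb : ClassW (M := M + 1) b)
    (hmain : ∀ zs, LocA (M := M + 1) b zs → MainPartsS (M := M + 1) b zs)
    (hrest : ∀ zs, LocA (M := M + 1) b zs → RestQ (M := M + 1) b zs) : HSad b := by
  obtain ⟨w, hw⟩ := exists_sol (M := M + 1) hb ringFacts (by omega)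
  obtain ⟨hO, hL, -⟩ := loc_kr3 (M := M + 1) (locZ CN.kok_kr3) (CN.S6.locS CN.kok_kr3) hb
    ringFacts hw (by omega)
  refine hsad_of_domQ hb ringFacts hw hO hL fun hC => ?_
  have hA := locA_of hb (by omega) hw hC
  exact ⟨hmain _ hA, hrest _ hA⟩

/-- **The saddle point data of all words** from the two parts of the domination. -/
theorem hsad_all
    (hmain : ∀ {M : ℕ} {b : Fin (M + 1) → ℤ} {zs}, 1 ≤ M → ClassW b → LocA b zs →
      MainPartsS b zs)
    (hrest : ∀ {M : ℕ} {b : Fin (M + 1) → ℤ} {zs}, 1 ≤ M → ClassW b → LocA b zs → RestQ b zs)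
    (K : ℕ) (b : Fin (K + 2) → ℤ) (hb : ClassW (M := K + 1) b) : HSad b :=
  hsad_word hb (fun _ hA => hmain (by omega) hb hA) fun _ hA => hrest (by omega) hb hA

end SR

end Pool.Agent.Work.MP_b30479_gtS.G2

end

section

/-!
# No modes at the hinges of rings
-/

namespace Pool.Agent.Work.MP_b30479_gtS.G2

open Finset NumUs

namespace SR

variable {M : ℕ} {b : Fin (M + 1) → ℤ} {zs : DD (tyW b) ⊕ ZZ (tyW b) → ℂ}
variable {R : Finset (DD (tyW b))} {nb : Finset (DD (tyW b) ⊕ ZZ (tyW b))}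
variable {z : DD (tyW b) ⊕ ZZ (tyW b) → ℂ} {p : DD (tyW b) → ℝ}
variable {h h' : Fin M} {i j j' : Fin (M + 1)} {s s' : Fin 3}

/-! ### runs of hinges -/

theorem Adj.vals (A : Adj h i s j) : (s = 2 ∧ (i : ℕ) = h ∧ (j : ℕ) = h + 1 ∧ i = h.castSucc) ∨
    (s = 0 ∧ (i : ℕ) = h + 1 ∧ (j : ℕ) = h ∧ j = h.castSucc) := by
  cases A
  · left
    simp
  · right
    simp

/-- a run -/
theorem exists_run (F : Finset (Fin M)) (P : Fin (M + 1) → Prop) (hF : F.Nonempty) :
    ∃ S ⊆ F, S.Nonempty ∧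
      (∀ h i s j, h ∈ S → Adj h i s j → P i → ∀ h' s' j', h' ∈ F → Adj h' i s' j' → h' ∈ S) ∧
      (∀ h i s j, h ∈ S → Adj h i s j → ¬ P i → ∀ h' s' j', h' ∈ S → Adj h' i s' j' → s = s') := by
  classical
  set m := F.min' hF with hm
  refine ⟨F.filter (fun h => ∀ k : Fin M, m < k → k ≤ h → (k ∈ F ∧ P k.castSucc)),
    filter_subset _ _, ⟨m, ?_⟩, ?_, ?_⟩
  · rw [mem_filter]
    exact ⟨F.min'_mem hF, fun k h1 h2 => absurd h1 (not_lt.2 h2)⟩
  · intro h i s j hS A hP h' s' j' hF' A'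
    rw [mem_filter] at hS ⊢
    refine ⟨hF', fun k k1 k2 => ?_⟩
    rcases le_or_gt k h with k3 | k3
    · exact hS.2 k k1 k3
    · rw [Fin.lt_def] at k3
      rw [Fin.le_def] at k2
      rcases A'.vals with ⟨-, a2, -, a4⟩ | ⟨-, a2, -, a4⟩ <;>
        rcases A.vals with ⟨-, a1, -, a3⟩ | ⟨-, a1, -, a3⟩
      · omega
      · have e : k = h' := Fin.ext (by omega)
        subst e
        exact ⟨hF', a4 ▸ hP⟩
      · omega
      · omega
  · intro h i s j hS A hP h' s' j' hS' A'
    rw [mem_filter] at hS hS'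
    have m1 := F.min'_le h hS.1
    have m2 := F.min'_le h' hS'.1
    rw [← hm, Fin.le_def] at m1 m2
    rcases A'.vals with ⟨b1, a2, -, a4⟩ | ⟨b1, a2, -, a4⟩ <;>
      rcases A.vals with ⟨b2, a1, -, a3⟩ | ⟨b2, a1, -, a3⟩
    · rw [b1, b2]
    · exfalso
      apply hP
      rw [a4]
      exact (hS'.2 h' (by rw [Fin.lt_def]; omega) le_rfl).2
    · exfalso
      apply hP
      rw [a3]
      exact (hS.2 h (by rw [Fin.lt_def]; omega) le_rfl).2
    · rw [b1, b2]

/-! ### the new point -/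

/-- the region has a hinge in the set `S` -/
def TcS (S : Finset (Fin M)) (i : Fin (M + 1)) : Prop := ∃ h ∈ S, ∃ s j, Adj h i s j

open Classical in
/-- the new point -/
noncomputable def zN (b : Fin (M + 1) → ℤ) (zs z : DD (tyW b) ⊕ ZZ (tyW b) → ℂ)
    (S : Finset (Fin M)) (c : Fin M → ℝ) : DD (tyW b) ⊕ ZZ (tyW b) → ℂ
  | .inl (.inl h) => if h ∈ S then tg b zs h (c h) else z (.inl (.inl h))
  | .inl (.inr m) => z (.inl (.inr m))
  | .inr v => if TcS S v.1 then
      ofz (b v.1) (ZD.nz (ofs (b v.1) (z (.inr v)).re) (zs (.inr v)).im) else z (.inr v)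

open Classical in
/-- the new penalties -/
noncomputable def pN (S : Finset (Fin M)) (p : DD (tyW b) → ℝ) : DD (tyW b) → ℝ
  | .inl h => if h ∈ S then 0 else p (.inl h)
  | .inr m => p (.inr m)

variable {S : Finset (Fin M)} {c : Fin M → ℝ}

theorem zN_in (A : Adj h i s j) (hS : h ∈ S) : Ow b (zN b zs z S c) i s = tgo b zs h i (c h) := by
  rw [Ow_adj _ A, ← ofr_tg]
  congr 1
  show (if h ∈ S then _ else _) = _
  rw [if_pos hS]

theorem zN_out (A : Adj h i s j) (hS : h ∉ S) : Ow b (zN b zs z S c) i s = Ow b z i s := by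
  rw [Ow_adj _ A, Ow_adj _ A]
  congr 1
  show (if h ∈ S then _ else _) = _
  rw [if_neg hS]

theorem not_ring_ty (hb : ClassW b) (hc : clsW b i ≠ .ring) : tyW b i ≠ .ring := by
  intro h0
  apply hc
  have h4 := ring_four hb h0
  unfold clsW cls
  rw [if_neg (by omega), if_neg (by omega), if_neg (by omega)]

theorem ring_cls (hb : ClassW b) (v : ZZ (tyW b)) : clsW b v.1 = .ring := by
  by_contra hc
  exact not_ring_ty hb hc (tyW_ring v.2)

theorem cf_inr {m : Fin (M + 1)} {q : Fin 3} {v : ZZ (tyW b)} (h0 : cf (tyW b) m q (.inr v) ≠ 0) :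
    v.1 = m := by
  simp only [cf] at h0
  split_ifs at h0 with h1
  · exact h1.2
  · exact absurd rfl h0

theorem zN_mid (hb : ClassW b) (hc : clsW b i ≠ .ring) :
    Ow b (zN b zs z S c) i 1 = Ow b z i 1 := by
  have hne := not_ring_ty hb hc
  unfold Ow
  rw [own_one hne, own_one hne]
  congr 1
  unfold xx
  refine sum_congr rfl fun v _ => ?_
  rcases v with (h | m) | v
  · have : cf (tyW b) i 1 (.inl (.inl h)) = 0 := by simp [cf]
    rw [this]
    simp
  · rfl
  · have : cf (tyW b) i 1 (.inr v) = 0 := by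
      simp only [cf]
      rw [if_neg]
      rintro ⟨-, h1⟩
      apply hne
      rw [← h1]
      exact tyW_ring v.2
    rw [this]
    simp

theorem zN_ne (v : DD (tyW b) ⊕ ZZ (tyW b)) (h0 : z v ≠ zN b zs z S c v) :
    (∃ h ∈ S, v = .inl (.inl h)) ∨ ∃ w : ZZ (tyW b), TcS S w.1 ∧ v = .inr w := by
  classical
  rcases v with (h | m) | w
  · left
    by_contra hc
    apply h0
    show _ = if h ∈ S then _ else _
    rw [if_neg]
    intro h1
    exact hc ⟨h, h1, rfl⟩
  · exact absurd rfl h0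
  · right
    by_contra hc
    apply h0
    show _ = if TcS S w.1 then _ else _
    rw [if_neg]
    intro h1
    exact hc ⟨w, h1, rfl⟩

/-- a region which is not touched -/
theorem zN_untouched (hi : ¬ TcS S i) : Ow b (zN b zs z S c) i = Ow b z i := by
  refine (Ow_congr i fun v hv q => ?_).symm
  rcases zN_ne v hv with ⟨h, hS, rfl⟩ | ⟨w, hw, rfl⟩
  · by_contra h0
    rcases cf_hinge_ne h0 with ⟨rfl, -⟩ | ⟨rfl, -⟩
    · exact hi ⟨h, hS, _, _, .l⟩
    · exact hi ⟨h, hS, _, _, .r⟩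
  · by_contra h0
    exact hi (cf_inr h0 ▸ hw)

/-- a touched region which is no ring -/
theorem zN_digit (hb : ClassW b) (hi : clsW b i ≠ .ring) (A : Adj h i s j) (hS : h ∈ S)
    (hu : ∀ h' s' j', h' ∈ S → Adj h' i s' j' → s = s') :
    Ow b (zN b zs z S c) i = Function.update (Ow b z i) s (tgo b zs h i (c h)) := by
  have key : ∀ q : Fin 3, q = 0 ∨ q = 2 → q ≠ s → Ow b (zN b zs z S c) i q = Ow b z i q := by
    intro q hq hqs
    rcases slot_cases b i hq with ⟨h0, -⟩ | ⟨h', j', A'⟩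
    · rw [h0, h0]
    · exact zN_out A' fun hS' => hqs (hu h' q j' hS' A').symm
  funext q
  by_cases hqs : q = s
  · subst hqs
    rw [Function.update_self]
    exact zN_in A hS
  · rw [Function.update_of_ne hqs]
    by_cases h1 : q = 1
    · subst h1
      exact zN_mid hb hi
    · refine key q ?_ hqs
      fin_cases q <;> simp_all

/-! ### weights -/

open Classical in
/-- the weights of the slots -/
noncomputable def WS (b : Fin (M + 1) → ℤ) (S : Finset (Fin M)) (p : DD (tyW b) → ℝ)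
    (a : Fin M → ℝ) (h : Fin M) (s : Fin 3) : ℝ :=
  if h ∈ S then (if clsW b h.castSucc = .ring ∧ clsW b h.succ = .ring then Real.pi * p (.inl h)
    else if clsW b (if s = 0 then h.succ else h.castSucc) = .ring then a h
    else 2 * Real.pi * p (.inl h) - a h) else 0

variable {a : Fin M → ℝ}

theorem WS_out (hS : h ∉ S) (s : Fin 3) : WS b S p a h s = 0 := by
  unfold WS
  rw [if_neg hS]

theorem Adj.rg (A : Adj h i s j) : (if s = 0 then h.succ else h.castSucc) = i := by
  cases A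
  · rw [if_neg (by decide)]
  · rw [if_pos rfl]

theorem Adj.both_ring (A : Adj h i s j) : (clsW b h.castSucc = .ring ∧ clsW b h.succ = .ring) ↔
    (clsW b i = .ring ∧ clsW b j = .ring) := by
  cases A
  · exact Iff.rfl
  · exact and_comm

theorem WS_rr (A : Adj h i s j) (hS : h ∈ S) (hi : clsW b i = .ring) (hj : clsW b j = .ring) :
    WS b S p a h s = Real.pi * p (.inl h) := by
  unfold WS
  rw [if_pos hS, if_pos (A.both_ring.2 ⟨hi, hj⟩)]

theorem WS_dig (A : Adj h i s j) (hS : h ∈ S) (hi : clsW b i ≠ .ring) :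
    WS b S p a h s = 2 * Real.pi * p (.inl h) - a h := by
  unfold WS
  rw [if_pos hS, if_neg (fun h0 => hi (A.both_ring.1 h0).1), A.rg, if_neg hi]

theorem WS_ring (A : Adj h i s j) (hS : h ∈ S) (hi : clsW b i = .ring) (hj : clsW b j ≠ .ring) :
    WS b S p a h s = a h := by
  unfold WS
  rw [if_pos hS, if_neg (fun h0 => hj (A.both_ring.1 h0).2), A.rg, if_pos hi]

theorem WS_sum (hr : h ∈ S → RH1 b (.inl h)) : WS b S p a h 0 + WS b S p a h 2 =
    2 * Real.pi * (p (.inl h) - pN S p (.inl h)) := by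
  classical
  have e : pN S p (.inl h) = if h ∈ S then 0 else p (.inl h) := rfl
  rw [e]
  by_cases hS : h ∈ S
  · rw [if_pos hS]
    have hr' := hr hS
    simp only [RH1] at hr'
    by_cases h1 : clsW b h.castSucc = .ring
    · by_cases h2 : clsW b h.succ = .ring
      · rw [WS_rr (.l (h := h)) hS h1 h2, WS_rr (.r (h := h)) hS h2 h1]
        ring
      · rw [WS_ring (.l (h := h)) hS h1 h2, WS_dig (.r (h := h)) hS h2]
        ring
    · have h2 := hr'.resolve_left h1
      rw [WS_dig (.l (h := h)) hS h1, WS_ring (.r (h := h)) hS h2 h1]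
      ring
  · rw [if_neg hS, WS_out hS, WS_out hS]
    ring

theorem sum_pen2 (W : Fin M → Fin 3 → ℝ) :
    ∑ i, (pen (fun h => W h 0) i 0 + pen (fun h => W h 2) i 2) = ∑ h, (W h 0 + W h 2) := by
  rw [Finset.sum_add_distrib, Finset.sum_add_distrib]
  congr 1
  · rw [Fin.sum_univ_succ]
    have : pen (fun h => W h 0) 0 0 = 0 := rfl
    rw [this, zero_add]
    exact Finset.sum_congr rfl fun h _ => pen_adj _ .r
  · rw [Fin.sum_univ_castSucc]
    have : pen (fun h => W h 2) (Fin.last M) 2 = 0 := by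
      unfold pen
      rw [if_neg (by decide)]
      exact Fin.lastCases_last ..
    rw [this, add_zero]
    exact Finset.sum_congr rfl fun h _ => pen_adj _ .l

/-! ### the selection -/

/-- a run of hinges with targets -/
structure Sel (b : Fin (M + 1) → ℤ) (zs z : DD (tyW b) ⊕ ZZ (tyW b) → ℂ) (p : DD (tyW b) → ℝ)
    (S : Finset (Fin M)) (c a : Fin M → ℝ) : Prop where
  pn : ∀ h ∈ S, p (.inl h) ≠ 0
  rh : ∀ h ∈ S, RH1 b (.inl h)
  c0 : ∀ h ∈ S, 0 ≤ c h ∧ c h ≤ wXM b h
  rr : ∀ h ∈ S, ∀ i s j, Adj h i s j → clsW b i = .ring → clsW b j = .ring → c h = 17 / 100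
  dd : ∀ h ∈ S, ∀ i s j, Adj h i s j → clsW b i ≠ .ring → clsW b j = .ring →
    ∃ θ, ZD.Tgt θ (c h) (Th b zs h i * trh b h (c h)) ∧
      a h = fR (Ow b z j s.rev) (Ow b z j 1) - ZD.gR θ (c h) (Th b zs h i * trh b h (c h)) -
        ZD.bR (Ow b z j 1).re (Ow b z j 1).im ∧
      0 < (OV b i (Function.update (Ow b z i) s (tgo b zs h i (c h))) - OV b i (Ow b z i)) +
        (2 * Real.pi * p (.inl h) - a h)
  run1 : ∀ h i s j, h ∈ S → Adj h i s j → clsW b i = .ring →
    ∀ h' s' j', p (.inl h') ≠ 0 → Adj h' i s' j' → h' ∈ S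
  run2 : ∀ h i s j, h ∈ S → Adj h i s j → clsW b i ≠ .ring →
    ∀ h' s' j', h' ∈ S → Adj h' i s' j' → s = s'

/-- the ring variable -/
theorem MM.ringvar (hb : ClassW b) (L : LocA b zs) (hN : NbT b R nb) (hM : MM b zs R nb z p)
    (v : ZZ (tyW b)) (hnt : ¬ Tch b R v.1) : Sum.inr v ∉ nb ∧
    ∃ σ : ℝ, |σ| ≤ 1 / 2 ∧ Ow b z v.1 1 = ⟨σ, (zs (.inr v)).im * LT.th σ⟩ ∧
      ofs (b v.1) (z (.inr v)).re = σ := by
  have hv : Sum.inr v ∉ nb := by
    intro hv
    obtain ⟨m, hm, q, hq⟩ := hN.conv_ring hv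
    exact hnt (cf_inr hq ▸ hm)
  refine ⟨hv, ?_⟩
  obtain ⟨σ, hσ, eσ⟩ := hM.adm.onZ v hv
  refine ⟨ofs (b v.1) σ, by rw [abs_ofs]; exact hσ, ?_, ?_⟩
  · rw [Ow_ring, eσ, ofz_zt2]
  · rw [eσ, zt_eq]
    simp

theorem nz_form {σ ρ : ℝ} (hσ : |σ| ≤ 1 / 2) :
    ∃ τ : ℝ, |τ| ≤ 1 / 2 ∧ ZD.nz σ ρ = ⟨τ, ρ * LT.th τ⟩ := by
  unfold ZD.nz
  split_ifs with h1 h2
  · refine ⟨-(11 / 40), by norm_num [abs_le], ?_⟩
    unfold zM
    have : LT.th (-(11 / 40)) = 9 / 10 := by
      rw [th_of_ge (by norm_num)]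
      norm_num
    rw [this]
    congr 1
    ring
  · refine ⟨-σ, by rwa [abs_neg], ?_⟩
    rw [th_neg]
  · exact ⟨σ, hσ, rfl⟩

/-- the new point is admissible -/
theorem Sel.mv (K : Sel b zs z p S c a) (hb : ClassW b) (L : LocA b zs) (hN : NbT b R nb)
    (hM : MM b zs R nb z p) : Mv b zs nb z p (zN b zs z S c) (pN S p) := by
  classical
  refine ⟨fun v hv => ?_⟩
  rcases v with (h | m) | w
  · have e1 : zN b zs z S c (.inl (.inl h)) = if h ∈ S then tg b zs h (c h) else z (.inl (.inl h)) :=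
      rfl
    have e2 : pe (pN S p) (.inl (.inl h)) = if h ∈ S then 0 else p (.inl h) := rfl
    have e3 : pe p (.inl (.inl h)) = p (.inl h) := rfl
    rw [e1, e2, e3] at hv
    rw [e1, e2]
    by_cases hS : h ∈ S
    · rw [if_pos hS, if_pos hS]
      exact ⟨pen_nn hM (K.pn h hS), onP_tg (K.c0 h hS).1 (K.c0 h hS).2⟩
    · rw [if_neg hS, if_neg hS] at hv
      rcases hv with h0 | h0 <;> exact absurd rfl h0
  · rcases hv with h0 | h0 <;> exact absurd rfl h0
  · have e1 : zN b zs z S c (.inr w) = if TcS S w.1 then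
      ofz (b w.1) (ZD.nz (ofs (b w.1) (z (.inr w)).re) (zs (.inr w)).im) else z (.inr w) := rfl
    have e2 : pe (pN S p) (.inr w) = 0 := rfl
    have e3 : pe p (.inr w) = 0 := rfl
    rw [e1, e2, e3] at hv
    rw [e1]
    by_cases hT : TcS S w.1
    · rw [if_pos hT]
      have hnt : ¬ Tch b R w.1 := by
        obtain ⟨h, hS, s, j, A⟩ := hT
        exact hN.not_tch A (pen_nn hM (K.pn h hS))
      obtain ⟨hn, σ, hσ, -, e⟩ := hM.ringvar hb L hN w hnt
      refine ⟨hn, ?_⟩
      rw [e]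
      obtain ⟨τ, hτ, eτ⟩ := nz_form (ρ := (zs (.inr w)).im) hσ
      refine ⟨ofs (b w.1) τ, by rw [abs_ofs]; exact hτ, ?_⟩
      have e5 := ofz_zt2 (b w.1) (zs (.inr w)).im (ofs (b w.1) τ)
      rw [ofs_ofs] at e5
      rw [eτ, ← e5, ofz_ofz]
    · rw [if_neg hT] at hv
      rcases hv with h0 | h0 <;> exact absurd rfl h0

end SR

end Pool.Agent.Work.MP_b30479_gtS.G2

end

section

/-!
# No modes at the hinges of rings: the sum over the regions
-/

namespace Pool.Agent.Work.MP_b30479_gtS.G2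

open Finset NumUs

namespace SR

variable {M : ℕ} {b : Fin (M + 1) → ℤ} {zs : DD (tyW b) ⊕ ZZ (tyW b) → ℂ}
variable {R : Finset (DD (tyW b))} {nb : Finset (DD (tyW b) ⊕ ZZ (tyW b))}
variable {z : DD (tyW b) ⊕ ZZ (tyW b) → ℂ} {p : DD (tyW b) → ℝ}
variable {h h' : Fin M} {i j j' : Fin (M + 1)} {s s' q : Fin 3}
variable {S : Finset (Fin M)} {c a : Fin M → ℝ}

/-- one slot of a touched ring -/
theorem Sel.slot (K : Sel b zs z p S c a) (hb : ClassW b) (L : LocA b zs) (hN : NbT b R nb)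
    (hM : MM b zs R nb z p) (hi : clsW b i = .ring) (hT : TcS S i) (hq : q = 0 ∨ q = 2) {σ η : ℝ}
    (hζ : Ow b z i 1 = ⟨σ, η⟩) :
    ∃ g, ZD.ZSl g (Ow b z i q) (Ow b (zN b zs z S c) i q) (pen (fun h => WS b S p a h q) i q) σ η ∧
      ((∃ h ∈ S, ∃ j, Adj h i q j) → g = .rr ∨ g = .dd) ∧
      ((∃ h ∈ S, ∃ j, Adj h i q j ∧ clsW b j = .ring) → g = .rr) := by
  obtain ⟨h0, hS0, s0, j0, A0⟩ := hT
  have hn0 := pen_nn hM (K.pn h0 hS0)
  rcases slot_cases b i hq with ⟨e0, hn⟩ | ⟨h, j, A⟩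
  · refine ⟨.md, ?_, ?_, ?_⟩
    · rw [e0, e0, pen_none _ hq hn]
      refine ⟨fun _ => ⟨rfl, rfl, ?_⟩, fun h0 => absurd h0 (by decide),
        fun h0 => absurd h0 (by decide), fun h0 => absurd h0 (by decide)⟩
      norm_num
    · rintro ⟨h, -, j, A⟩
      exact absurd ⟨h, j, A⟩ hn
    · rintro ⟨h, -, j, A, -⟩
      exact absurd ⟨h, j, A⟩ hn
  rw [pen_adj _ A]
  by_cases hp : p (.inl h) = 0
  · have hS : h ∉ S := fun hS => K.pn h hS hp
    rw [zN_out A hS]
    have e : WS b S p a h q = 0 := WS_out hS q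
    rw [e]
    have hnR := hN.nR A0 hn0 A
    have no : ∀ {g : ZD.ZK}, (∃ h ∈ S, ∃ j, Adj h i q j) → g = .rr ∨ g = .dd := by
      rintro g ⟨h', hS', j', A'⟩
      rw [← (A.eq_of A').1] at hS'
      exact absurd hS' hS
    have no' : ∀ {g : ZD.ZK}, (∃ h ∈ S, ∃ j, Adj h i q j ∧ clsW b j = .ring) → g = .rr := by
      rintro g ⟨h', hS', j', A', -⟩
      rw [← (A.eq_of A').1] at hS'
      exact absurd hS' hS
    by_cases hj : clsW b j = .ring
    · exact ⟨.mr, mr_slot hb L hN.ok.1 hM A hi hj hnR hp σ η, no, no'⟩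
    · have := md_slot hb L hN.ok.1 hM A.symm hj hi hnR hp σ η
      rw [Fin.rev_rev] at this
      exact ⟨.md, this, no, no'⟩
  · have hS : h ∈ S := K.run1 h0 i s0 j0 hS0 A0 hi h q j hp A
    rw [zN_in A hS]
    show ∃ g, ZD.ZSl g _ _ (WS b S p a h q) σ η ∧ _
    by_cases hj : clsW b j = .ring
    · rw [WS_rr A hS hi hj, K.rr h hS i q j A hi hj]
      exact ⟨.rr, rr_slot hb L hN.ok.1 hM A hi hj hp σ η, fun _ => Or.inl rfl, fun _ => rfl⟩
    · rw [WS_ring A hS hi hj]
      obtain ⟨θ, d1, d2, -⟩ := K.dd h hS j q.rev i A.symm hj hi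
      rw [Fin.rev_rev, hζ] at d2
      refine ⟨.dd, ⟨fun h0 => absurd h0 (by decide), fun h0 => absurd h0 (by decide),
        fun h0 => absurd h0 (by decide), fun _ => ⟨θ, _, _, d1, ?_, d2⟩⟩, fun _ => Or.inr rfl, ?_⟩
      · unfold tgo
        rw [Th_opp hb A.symm hj, neg_mul]
      · rintro ⟨h', -, j', A', hj'⟩
        rw [← (A.eq_of A').2] at hj'
        exact absurd hj' hj

/-- a touched ring -/
theorem Sel.ring (K : Sel b zs z p S c a) (E : ZD.RowsE) (hb : ClassW b) (L : LocA b zs)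
    (hN : NbT b R nb) (hM : MM b zs R nb z p) (v : ZZ (tyW b)) (hT : TcS S v.1) :
    0 ≤ (OV b v.1 (Ow b (zN b zs z S c) v.1) - OV b v.1 (Ow b z v.1)) +
        (pen (fun h => WS b S p a h 0) v.1 0 + pen (fun h => WS b S p a h 2) v.1 2) ∧
      ((∃ h ∈ S, ∃ s j, Adj h v.1 s j ∧ clsW b j = .ring) →
        0 < (OV b v.1 (Ow b (zN b zs z S c) v.1) - OV b v.1 (Ow b z v.1)) +
          (pen (fun h => WS b S p a h 0) v.1 0 + pen (fun h => WS b S p a h 2) v.1 2)) := by
  have hi := ring_cls hb v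
  have hnt : ¬ Tch b R v.1 := by
    obtain ⟨h, hS, s, j, A⟩ := hT
    exact hN.not_tch A (pen_nn hM (K.pn h hS))
  obtain ⟨-, σ, hσ, hζ, e⟩ := hM.ringvar hb L hN v hnt
  have hn : (4 : ℝ) ≤ ((b v.1).natAbs : ℝ) := by
    have := ring_four hb (tyW_ring v.2)
    exact_mod_cast this
  have hρ0 := (L.L.rpos v).le
  have hρ1 := L.L.ring_height hb v
  obtain ⟨g0, s0, a0, b0⟩ := K.slot hb L hN hM hi hT (q := 0) (Or.inl rfl) hζ
  obtain ⟨g2, s2, a2, b2⟩ := K.slot hb L hN hM hi hT (q := 2) (Or.inr rfl) hζ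
  have hg : (g0 = .rr ∨ g0 = .dd) ∨ g2 = .rr ∨ g2 = .dd := by
    obtain ⟨h, hS, s, j, A⟩ := hT
    rcases A.slot with rfl | rfl
    · exact Or.inl (a0 ⟨h, hS, j, A⟩)
    · exact Or.inr (a2 ⟨h, hS, j, A⟩)
  have en : Ow b (zN b zs z S c) v.1 1 = ZD.nz σ (zs (.inr v)).im := by
    classical
    have e1 : zN b zs z S c (.inr v) = if TcS S v.1 then
      ofz (b v.1) (ZD.nz (ofs (b v.1) (z (.inr v)).re) (zs (.inr v)).im) else z (.inr v) := rfl
    rw [Ow_ring, e1, if_pos hT, ofz_ofz, e]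
  have key := ZD.ring_ok E s0 s2 hn hρ0 hρ1 hσ hg
  rw [OV_ring hb hi (Ow_endOk z _), OV_ring hb hi (Ow_endOk _ _), en, hζ]
  refine ⟨by linarith only [key, key.1], ?_⟩
  rintro ⟨h, hS, s, j, A, hj⟩
  have : g0 = .rr ∨ g2 = .rr := by
    rcases A.slot with rfl | rfl
    · exact Or.inl (b0 ⟨h, hS, j, A, hj⟩)
    · exact Or.inr (b2 ⟨h, hS, j, A, hj⟩)
  linarith only [key, this, key.2 this]

/-- a touched region which is no ring -/
theorem Sel.digit (K : Sel b zs z p S c a) (hb : ClassW b) (hi : clsW b i ≠ .ring)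
    (hT : TcS S i) :
    0 < (OV b i (Ow b (zN b zs z S c) i) - OV b i (Ow b z i)) +
        (pen (fun h => WS b S p a h 0) i 0 + pen (fun h => WS b S p a h 2) i 2) := by
  obtain ⟨h, hS, s, j, A⟩ := hT
  have hj : clsW b j = .ring := by
    have hr := K.rh h hS
    simp only [RH1] at hr
    cases A
    · exact hr.resolve_left hi
    · exact hr.resolve_right hi
  obtain ⟨θ, -, -, d3⟩ := K.dd h hS i s j A hi hj
  have hu := K.run2 h i s j hS A hi
  have zero : ∀ q : Fin 3, q = 0 ∨ q = 2 → q ≠ s → pen (fun h => WS b S p a h q) i q = 0 := by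
    intro q hq hqs
    rcases slot_cases b i hq with ⟨-, hn⟩ | ⟨h', j', A'⟩
    · exact pen_none _ hq hn
    · rw [pen_adj _ A']
      exact WS_out (fun hS' => hqs (hu h' q j' hS' A').symm) q
  have one : pen (fun h => WS b S p a h s) i s = 2 * Real.pi * p (.inl h) - a h := by
    rw [pen_adj _ A]
    exact WS_dig A hS hi
  rw [zN_digit hb hi A hS hu]
  rcases A.slot with h0 | h0
  · subst h0
    rw [one, zero 2 (Or.inr rfl) (by decide)]
    linarith only [d3]
  · subst h0
    rw [one, zero 0 (Or.inl rfl) (by decide)]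
    linarith only [d3]

/-- **No selection exists.** -/
theorem Sel.false (K : Sel b zs z p S c a) (hne : S.Nonempty) (E : ZD.RowsE) (hb : ClassW b)
    (L : LocA b zs) (hN : NbT b R nb) (hM : MM b zs R nb z p) : False := by
  classical
  have key := hM.step hb hN.ok.1 (K.mv hb L hN hM) univ (fun i hi => absurd (mem_univ i) hi)
  have e1 : 2 * Real.pi * ∑ i, (pN S p i - p i) = -∑ h, (WS b S p a h 0 + WS b S p a h 2) := by
    rw [Fintype.sum_sum_type]
    have e0 : ∑ m : {i : Fin (M + 1) // (tyW b i).isMid = true},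
        (pN S p (.inr m) - p (.inr m)) = 0 := by
      refine Finset.sum_eq_zero fun m _ => ?_
      show p (.inr m) - p (.inr m) = 0
      exact sub_self _
    rw [e0, add_zero, Finset.mul_sum, ← Finset.sum_neg_distrib]
    refine Finset.sum_congr rfl fun h _ => ?_
    rw [WS_sum (K.rh h)]
    ring
  rw [e1, ← sum_pen2] at key
  have hsum : ∑ i, ((OV b i (Ow b (zN b zs z S c) i) - OV b i (Ow b z i)) +
        (pen (fun h => WS b S p a h 0) i 0 + pen (fun h => WS b S p a h 2) i 2)) ≤ 0 := by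
    rw [Finset.sum_add_distrib]
    linarith only [key]
  have hnn : ∀ i ∈ (univ : Finset (Fin (M + 1))), 0 ≤ (OV b i (Ow b (zN b zs z S c) i) -
      OV b i (Ow b z i)) + (pen (fun h => WS b S p a h 0) i 0 +
      pen (fun h => WS b S p a h 2) i 2) := by
    intro i _
    by_cases hT : TcS S i
    · by_cases hi : clsW b i = .ring
      · obtain ⟨v, rfl⟩ : ∃ v : ZZ (tyW b), v.1 = i :=
          ⟨⟨i, by rw [tyW_of_ring hb hi]; rfl⟩, rfl⟩
        exact (K.ring E hb L hN hM v hT).1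
      · exact (K.digit hb hi hT).le
    · have zero : ∀ q : Fin 3, q = 0 ∨ q = 2 → pen (fun h => WS b S p a h q) i q = 0 := by
        intro q hq
        rcases slot_cases b i hq with ⟨-, hn⟩ | ⟨h', j', A'⟩
        · exact pen_none _ hq hn
        · rw [pen_adj _ A']
          exact WS_out (fun hS' => hT ⟨h', hS', q, j', A'⟩) q
      rw [zN_untouched hT, zero 0 (Or.inl rfl), zero 2 (Or.inr rfl)]
      linarith only []
  have hpos : ∃ i ∈ (univ : Finset (Fin (M + 1))), 0 < (OV b i (Ow b (zN b zs z S c) i) -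
      OV b i (Ow b z i)) + (pen (fun h => WS b S p a h 0) i 0 +
      pen (fun h => WS b S p a h 2) i 2) := by
    obtain ⟨h, hS⟩ := hne
    by_cases h1 : clsW b h.castSucc = .ring
    · by_cases h2 : clsW b h.succ = .ring
      · refine ⟨h.castSucc, mem_univ _, ?_⟩
        obtain ⟨v, hv⟩ : ∃ v : ZZ (tyW b), v.1 = h.castSucc :=
          ⟨⟨h.castSucc, by rw [tyW_of_ring hb h1]; rfl⟩, rfl⟩
        have hT : TcS S h.castSucc := ⟨h, hS, _, _, .l⟩
        rw [← hv] at hT ⊢
        exact (K.ring E hb L hN hM v hT).2 ⟨h, hS, 2, h.succ, hv ▸ Adj.l, h2⟩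
      · exact ⟨h.succ, mem_univ _, K.digit hb h2 ⟨h, hS, _, _, .r⟩⟩
    · exact ⟨h.castSucc, mem_univ _, K.digit hb h1 ⟨h, hS, _, _, .l⟩⟩
  exact absurd (Finset.sum_pos' hnn hpos) (not_lt.2 hsum)

/-- **No modes at the hinges of rings.** -/
theorem ring_modes (Z : ZD.ZRows) (C2 : ZC2r) (N : ZD.RowsN) (hb : ClassW b) (L : LocA b zs)
    (hN : NbT b R nb) (hM : MM b zs R nb z p) (h : Fin M) (hr : RH1 b (.inl h)) :
    p (.inl h) = 0 := by
  classical
  by_contra hp
  obtain ⟨S, hSF, hSn, run1, run2⟩ := exists_run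
    (univ.filter fun h : Fin M => RH1 b (.inl h) ∧ p (.inl h) ≠ 0) (fun i => clsW b i = .ring)
    ⟨h, by rw [mem_filter]; exact ⟨mem_univ _, hr, hp⟩⟩
  have hS : ∀ h ∈ S, RH1 b (.inl h) ∧ p (.inl h) ≠ 0 := fun h h0 => by
    have := hSF h0
    rw [mem_filter] at this
    exact this.2
  have one : ∀ h ∈ S, ∀ i s j, Adj h i s j → clsW b i ≠ .ring → clsW b j = .ring →
      DOk b zs z p h i s j (Ow b z j 1).re (Ow b z j 1).im := by
    intro h h0 i s j A hi hj
    obtain ⟨v, rfl⟩ : ∃ v : ZZ (tyW b), v.1 = j := ⟨⟨j, by rw [tyW_of_ring hb hj]; rfl⟩, rfl⟩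
    have hnt : ¬ Tch b R v.1 := hN.not_tch A.symm (pen_nn hM (hS h h0).2)
    obtain ⟨-, σ, hσ, hζ, -⟩ := hM.ringvar hb L hN v hnt
    have hth := th_nonneg hσ
    have hρ0 := (L.L.rpos v).le
    have hρ1 := L.L.ring_height hb v
    have := dside Z C2 N hb L hN hM A hi hj (hS h h0).2 hζ hσ (mul_nonneg hρ0 hth)
      (mul_le_mul_of_nonneg_right hρ1 hth)
    rw [hζ]
    exact this
  have hch : ∀ h : Fin M, ∃ c a : ℝ, h ∈ S → ((0 ≤ c ∧ c ≤ wXM b h) ∧
      (∀ i s j, Adj h i s j → clsW b i = .ring → clsW b j = .ring → c = 17 / 100) ∧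
      ∀ i s j, Adj h i s j → clsW b i ≠ .ring → clsW b j = .ring →
      ∃ θ, ZD.Tgt θ c (Th b zs h i * trh b h c) ∧
        a = fR (Ow b z j s.rev) (Ow b z j 1) - ZD.gR θ c (Th b zs h i * trh b h c) -
          ZD.bR (Ow b z j 1).re (Ow b z j 1).im ∧
        0 < (OV b i (Function.update (Ow b z i) s (tgo b zs h i c)) - OV b i (Ow b z i)) +
          (2 * Real.pi * p (.inl h) - a)) := by
    intro h
    by_cases h0 : h ∈ S
    swap
    · exact ⟨0, 0, fun h1 => absurd h1 h0⟩
    have hr := (hS h h0).1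
    simp only [RH1] at hr
    have mk : ∀ i s j, Adj h i s j → clsW b i ≠ .ring → clsW b j = .ring →
        ∃ c a : ℝ, h ∈ S → ((0 ≤ c ∧ c ≤ wXM b h) ∧
        (∀ i s j, Adj h i s j → clsW b i = .ring → clsW b j = .ring → c = 17 / 100) ∧
        ∀ i s j, Adj h i s j → clsW b i ≠ .ring → clsW b j = .ring →
        ∃ θ, ZD.Tgt θ c (Th b zs h i * trh b h c) ∧
          a = fR (Ow b z j s.rev) (Ow b z j 1) - ZD.gR θ c (Th b zs h i * trh b h c) -
            ZD.bR (Ow b z j 1).re (Ow b z j 1).im ∧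
          0 < (OV b i (Function.update (Ow b z i) s (tgo b zs h i c)) - OV b i (Ow b z i)) +
            (2 * Real.pi * p (.inl h) - a)) := by
      intro i s j A hi hj
      obtain ⟨c, θ, c0, c1, hT, hlt⟩ := one h h0 i s j A hi hj
      refine ⟨c, fR (Ow b z j s.rev) (Ow b z j 1) - ZD.gR θ c (Th b zs h i * trh b h c) -
            ZD.bR (Ow b z j 1).re (Ow b z j 1).im, fun _ => ⟨⟨c0, c1⟩, ?_, ?_⟩⟩
      · intro i' s' j' A' hi' hj'
        have h1 := A.both_ring.1 (A'.both_ring.2 ⟨hi', hj'⟩)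
        exact absurd h1.1 hi
      · intro i' s' j' A' hi' hj'
        have hij : i' = i ∧ s' = s ∧ j' = j := by
          cases A
          · cases A'
            · exact ⟨rfl, rfl, rfl⟩
            · exact absurd hj hi'
          · cases A'
            · exact absurd hj hi'
            · exact ⟨rfl, rfl, rfl⟩
        obtain ⟨rfl, rfl, rfl⟩ := hij
        refine ⟨θ, hT, rfl, ?_⟩
        have e : (⟨(Ow b z j' 1).re, (Ow b z j' 1).im⟩ : ℂ) = Ow b z j' 1 := rfl
        rw [e] at hlt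
        linarith only [hlt]
    by_cases h1 : clsW b h.castSucc = .ring
    · by_cases h2 : clsW b h.succ = .ring
      · refine ⟨17 / 100, 0, fun _ => ⟨⟨by norm_num, ?_⟩, fun _ _ _ _ _ _ => rfl, ?_⟩⟩
        · rw [((Adj.l (h := h)).par_rr h1 h2).1]
          norm_num
        · intro i s j A hi _
          exact absurd (A.both_ring.1 ⟨h1, h2⟩).1 hi
      · exact mk _ _ _ .r h2 h1
    · exact mk _ _ _ .l h1 (hr.resolve_left h1)
  choose c a hca using hch
  have K : Sel b zs z p S c a := by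
    refine ⟨fun h h0 => (hS h h0).2, fun h h0 => (hS h h0).1, fun h h0 => (hca h h0).1,
      fun h h0 => (hca h h0).2.1, fun h h0 => (hca h h0).2.2, ?_, run2⟩
    intro h i s j h0 A hi h' s' j' hp' A'
    refine run1 h i s j h0 A hi h' s' j' ?_ A'
    rw [mem_filter]
    exact ⟨mem_univ _, A'.symm.rh1 hi, hp'⟩
  exact K.false hSn Z.E hb L hN hM

end SR

end Pool.Agent.Work.MP_b30479_gtS.G2

end

section

/-!
# Modes at rings: the target of a digit `1`, other hinge on a lower path of any height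

`c1x`, `c2r` of `ZD.RowsX`.
-/

set_option linter.unusedVariables false
set_option linter.unusedSimpArgs false

set_option deprecated.oldSectionVars true

namespace Pool.Agent.Work.MP_b30479_gtS.G2

open VOL NumUs
open NumUs.E
open NumIs (V)

namespace ZD

/-! ### the difference to the linear part -/

theorem Lr_le_chord {r x : ℝ} (hr : 0 < r) (h0 : 0 ≤ x) (h1 : x ≤ 1 / 2) :
    DT.Lr r x ≤ Real.pi * r * x := by
  rcases h0.lt_or_eq with h | h
  swap
  · rw [← h, DT.Lr_zero_right, mul_zero]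
  rcases h1.lt_or_eq with h' | h'
  swap
  · rw [h', DT.Lr_half hr.le]
    linarith only []
  have hc : Continuous (DT.Lr r) := by
    unfold DT.Lr
    exact intervalIntegral.continuous_primitive (fun a b => DT.el_intble r a b) 0
  have hd : ∀ a b : ℝ, ∀ s ∈ Set.Ioo a b, HasDerivAt (DT.Lr r) (DT.el r s) s :=
    fun a b s _ => DT.hasDerivAt_Lr hr
  obtain ⟨c, hc1, hc2⟩ := exists_hasDerivAt_eq_slope (DT.Lr r) (DT.el r) h hc.continuousOn
    (hd 0 x)
  obtain ⟨c', hc1', hc2'⟩ := exists_hasDerivAt_eq_slope (DT.Lr r) (DT.el r) h' hc.continuousOn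
    (hd x (1 / 2))
  have h2 : DT.el r c ≤ DT.el r c' := by
    have hp := Real.pi_pos
    unfold DT.el
    have h3 := DT.LrDer.cosh_gt_cos (v := c) hr
    have h4 : Real.cos (2 * Real.pi * c') ≤ Real.cos (2 * Real.pi * c) := by
      apply Real.cos_le_cos_of_nonneg_of_le_pi
      · have := hc1.1
        positivity
      · nlinarith only [h, h', hp, hc1', hc1'.2]
      · nlinarith only [h, h', hp, hc1, hc1', hc1.2, hc1'.1]
    have h5 := Real.log_le_log (show 0 < 2 * Real.cosh (2 * Real.pi * r) -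
      2 * Real.cos (2 * Real.pi * c) by linarith only [h3]) (show 2 * Real.cosh (2 * Real.pi * r) -
      2 * Real.cos (2 * Real.pi * c) ≤ 2 * Real.cosh (2 * Real.pi * r) -
      2 * Real.cos (2 * Real.pi * c') by linarith only [h4])
    linarith only [h5]
  rw [hc2, hc2', DT.Lr_zero_right, DT.Lr_half hr.le, div_le_div_iff₀ (by linarith only [h])
    (by linarith only [h'])] at h2
  nlinarith only [h2]

/-- right of `1/2` the difference to the linear part is not negative -/
theorem uu_lin_nonneg {x y : ℝ} (hy : y ≠ 0) (h0 : 1 / 2 ≤ x) (h1 : x ≤ 1) :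
    Real.pi / 2 * |y| * (2 * x - 1) ≤ uu x y := by
  have h := abs_pos.2 hy
  rw [uu_Lr]
  have h2 := Lr_le_chord (x := 1 - x) h (by linarith only [h1]) (by linarith only [h0])
  rw [DT.Lr_one_sub h.le] at h2
  linarith only [h2]

/-- left of `1/2` the difference to the linear part increases with the height -/
theorem uu_lin_mono {x y y' : ℝ} (h0 : 0 ≤ x) (h1 : x ≤ 1 / 2) (h : |y| ≤ |y'|) :
    uu x y - Real.pi / 2 * (|y'| - |y|) * (1 - 2 * x) ≤ uu x y' := by
  have h2 := inc_ge_lin h0 h1 le_rfl (abs_nonneg y) h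
  rw [uu_Lr, uu_Lr]
  linarith only [h2]

/-- right of `1/2` the difference to the linear part decreases with the height -/
theorem uu_lin_anti {x y y' : ℝ} (h0 : 1 / 2 ≤ x) (h1 : x ≤ 1) (h : |y| ≤ |y'|) :
    uu x y' ≤ uu x y + Real.pi / 2 * (|y'| - |y|) * (2 * x - 1) := by
  have h2 := uu_lin_mono (x := 1 - x) (y := y) (y' := y') (by linarith only [h1]) (by linarith only [h0]) h
  rw [uu_one_sub, uu_one_sub] at h2
  linarith only [h2]

/-! ### rows -/

theorem rx_x {T k1 k2 U : ℝ}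
    (a0 : 380 / 10000 ≤ T) (b0 : T ≤ 1360 / 10000)
    (a1 : 0 ≤ k1) (b1 : k1 ≤ 2500 / 10000)
    (a2 : -(1600 / 10000) ≤ k2) (b2 : k2 ≤ 0)
    (hU : uu (1 / 5 + k1) (T + k2) ≤ U) :
    109 / 1000 + 1 / 5 * k1 < E1 T k1 k2 U := by
  have h : chkT [(.sub (.add (.add (.mul .pi (.add (.mul (.var 0) (.sub (.var 1) (.q 1 1))) (.mul (.var 2)
      (.sub (.var 1) (.q 3 10))))) (.uu (.add (.q 1 5) (.var 1)) (.add (.var 0) (.var 2)))) (.sub
      (.add (.uu (.q 17 40) (.var 0)) (.uu (.q 39 40) (.var 0))) (.mul (.q 3 1) (.uu (.q 1 5)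
      (.var 0))))) (.add (.q 109 1000) (.mul (.q 1 5) (.var 1))))] 40
      36649965569
      [V.of 10000 380 1360 0, V.of 10000 0 2500 0, V.of 10000 (-1600) 0 0] = true := by
    decide +kernel
  obtain ⟨e, he, hp⟩ := chkT3 h (by norm_num) (x := T) (y := k1) (z := k2)
    (le_trans (by norm_num) a0) (le_trans b0 (by norm_num))
    (le_trans (by norm_num) a1) (le_trans b1 (by norm_num))
    (le_trans (by norm_num) a2) (le_trans b2 (by norm_num))
  simp only [List.mem_cons, List.not_mem_nil, or_false] at he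
  subst he
  simp only [E.val, NumIs.lkR] at hp
  push_cast at hp
  try simp only [div_one] at hp
  unfold E1 GG
  linarith only [hU, hp]

theorem rx_g {T : ℝ} (a0 : 380 / 10000 ≤ T) (b0 : T ≤ 1360 / 10000) :
    42 / 100 < GG T - Real.pi * (7 / 10 * T) := by
  have h : chkT [(.sub (.sub (.sub (.add (.uu (.q 17 40) (.var 0)) (.uu (.q 39 40) (.var 0)))
      (.mul (.q 3 1) (.uu (.q 1 5) (.var 0)))) (.mul .pi (.mul (.q 7 10) (.var 0))))
      (.q 21 50))] 40 559104 [V.of 10000 380 1360 0] = true := by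
    decide +kernel
  obtain ⟨e, he, hp⟩ := chkT_sound h (xs := [T]) (List.Forall₂.cons (V.of_mem (by norm_num)
    (le_trans (by norm_num) a0) (le_trans b0 (by norm_num))) List.Forall₂.nil)
  simp only [List.mem_cons, List.not_mem_nil, or_false] at he
  subst he
  simp only [E.val, NumIs.lkR] at hp
  push_cast at hp
  try simp only [div_one] at hp
  unfold GG
  linarith only [hp]

theorem rx_r {k : ℝ} (a0 : 5000 / 10000 ≤ k) (b0 : k ≤ 6500 / 10000) :
    uu k (16 / 100) + Real.pi * (8 / 100 * (1 - 2 * k)) < 7 / 100 := by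
  have h : chkT [(.sub (.q 7 100) (.add (.uu (.var 0) (.q 4 25)) (.mul .pi (.mul (.q 2 25)
      (.sub (.q 1 1) (.mul (.q 2 1) (.var 0)))))))] 40 8 [V.of 10000 5000 6500 0] = true := by
    decide +kernel
  obtain ⟨e, he, hp⟩ := chkT_sound h (xs := [k]) (List.Forall₂.cons (V.of_mem (by norm_num)
    (le_trans (by norm_num) a0) (le_trans b0 (by norm_num))) List.Forall₂.nil)
  simp only [List.mem_cons, List.not_mem_nil, or_false] at he
  subst he
  simp only [E.val, NumIs.lkR] at hp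
  push_cast at hp
  try simp only [div_one] at hp
  rw [show (16 : ℝ) / 100 = 4 / 25 by norm_num]
  linarith only [hp]

/-! ### the statements -/

theorem c1x {T k1 k2 : ℝ} (hT : 38 / 1000 ≤ T) (hT' : T ≤ 136 / 1000) (h0 : 0 ≤ k1)
    (h1 : k1 ≤ 65 / 100) (h2 : k2 ≤ 0) : Goal1 (1 / 10) (2 / 10) T k1 k2 := by
  have hp := Real.pi_pos
  have g := rx_g (T := T) (by linarith only [hT]) (by linarith only [hT'])
  rcases le_or_gt (-(16 / 100)) k2 with hk | hk
  · rcases le_or_gt (1 / 4) k1 with c | c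
    · exact goal1_hi (by norm_num) (by linarith only [hT]) (by linarith only [hT']) c (by linarith only [h1])
        (abs_le.2 ⟨by linarith only [hk], by linarith only [h2]⟩)
    · have hm : mA1 k1 k2 = 4 / 1000 + 1 / 5 * k1 := by
        unfold mA1
        rw [if_pos c, max_eq_right h2, mul_zero, add_zero]
      refine ⟨?_, fun hh => absurd hh (by linarith only [c, hh])⟩
      have e := val_E1 (1 / 10) T k1 k2
      have g := rx_x (T := T) (k1 := k1) (k2 := k2) (by linarith only [hT]) (by linarith only [hT']) (by linarith only [h0])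
        (by linarith only [c]) (by linarith only [hk]) (by linarith only [h2]) le_rfl
      rw [hm]
      linarith only [e, g]
  -- `k2 < -16/100`
  have hy0 : T + k2 ≠ 0 := (show T + k2 < 0 by linarith only [hT', hk]).ne
  have ha : |T + k2| = -(T + k2) := abs_of_nonpos (by linarith only [hT', hk])
  have ha' : |T + -(16 / 100)| = -(T + -(16 / 100)) := abs_of_nonpos (by linarith only [hT'])
  have hab : |T + -(16 / 100)| ≤ |T + k2| := by
    rw [ha, ha']
    linarith only [hk]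
  constructor
  · have e := val_E1 (1 / 10) T k1 k2
    rcases le_or_gt k1 (3 / 10) with c | c
    · have m := uu_lin_mono (x := 1 / 5 + k1) (by linarith only [h0]) (by linarith only [c]) hab
      rw [ha, ha'] at m
      have m' : E1 T k1 (-(16 / 100)) (uu (1 / 5 + k1) (T + -(16 / 100))) ≤
          E1 T k1 k2 (uu (1 / 5 + k1) (T + k2)) := by
        unfold E1
        linarith only [m]
      rcases le_or_gt (1 / 4) k1 with c' | c'
      · have hm : mA1 k1 k2 = 18 / 100 := if_neg (by linarith only [c'])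
        have hm' : mA1 k1 (-(16 / 100)) = 18 / 100 := if_neg (by linarith only [c'])
        have g := (goal1_hi (θ := 1 / 10) (T := T) (k1 := k1) (k2 := -(16 / 100)) (by norm_num)
          (by linarith only [hT]) (by linarith only [hT']) c' (by linarith only [h1]) (by rw [abs_neg, abs_of_pos (by norm_num)])).1
        have e' := val_E1 (1 / 10) T k1 (-(16 / 100))
        rw [hm'] at g
        rw [hm]
        linarith only [e, m', g, e']
      · have hm : mA1 k1 k2 = 4 / 1000 + 1 / 5 * k1 := by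
          unfold mA1
          rw [if_pos c', max_eq_right h2, mul_zero, add_zero]
        have g := rx_x (T := T) (k1 := k1) (k2 := -(16 / 100)) (by linarith only [hT]) (by linarith only [hT'])
          (by linarith only [h0]) (by linarith only [c']) (by linarith only []) (by linarith only []) le_rfl
        rw [hm]
        linarith only [e, m', g]
    · have hm : mA1 k1 k2 = 18 / 100 := if_neg (by linarith only [c])
      have m := uu_lin_nonneg (x := 1 / 5 + k1) (y := T + k2) hy0 (by linarith only [c])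
        (by linarith only [h1])
      rw [ha] at m
      have m' : GG T - Real.pi * (7 / 10 * T) ≤ E1 T k1 k2 (uu (1 / 5 + k1) (T + k2)) := by
        unfold E1
        linarith only [m]
      rw [hm]
      linarith only [g, e, m']
  · intro hh
    have e := val_E2 (1 / 10) T k1 k2
    have m := uu_lin_nonneg (x := 1 / 5 + k1) (y := T + k2) hy0 (by linarith only [hh])
      (by linarith only [h1])
    rw [ha] at m
    have hk2 : |k2| = -k2 := abs_of_nonpos h2
    have m2 := uu_lin_anti (x := k1) (y := 16 / 100) (y' := k2) hh (by linarith only [h1]) (by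
      rw [hk2, abs_of_pos (by norm_num)]
      linarith only [hk])
    rw [hk2, abs_of_pos (by norm_num : (0 : ℝ) < 16 / 100)] at m2
    have m3 := rx_r (k := k1) (by linarith only [hh]) (by linarith only [h1])
    have m' : GG T - Real.pi * (7 / 10 * T) - (uu k1 (16 / 100) +
        Real.pi * (8 / 100 * (1 - 2 * k1))) ≤ E2 T k1 k2 (uu (1 / 5 + k1) (T + k2)) := by
      unfold E2
      linarith only [m, m2]
    linarith only [g, e, m3, m']

theorem c2r {T k1 : ℝ} (hT : 63 / 1000 ≤ T) (hT' : T ≤ 145 / 1000) (h0 : 0 ≤ k1)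
    (h1 : k1 ≤ 80 / 100) : Goal1 (1 / 10) (2 / 10) T k1 0 := by
  rcases le_or_gt (1 / 4) k1 with c | c
  · exact goal1_hi (by norm_num) (by linarith only [hT]) (by linarith only [hT']) c (by linarith only [h1])
      (by rw [abs_zero]; norm_num)
  · exact goal1_neg le_rfl (by linarith only [hT]) (by linarith only [hT']) h0 c (by norm_num) le_rfl (by linarith only [h0])

end ZD

end Pool.Agent.Work.MP_b30479_gtS.G2

end

section

/-!
# No mirrored paths at rings
-/

namespace Pool.Agent.Work.MP_b30479_gtS.G2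

open Finset VOL Filter Topology

namespace ZD

theorem rowsN : RowsN := ⟨nD1, nd1, nD2, nd2, nR⟩

end ZD

namespace SR

variable {M : ℕ} {b : Fin (M + 1) → ℤ} {zs : DD (tyW b) ⊕ ZZ (tyW b) → ℂ}
variable {R : Finset (DD (tyW b))} {nb : Finset (DD (tyW b) ⊕ ZZ (tyW b))}
variable {z : DD (tyW b) ⊕ ZZ (tyW b) → ℂ} {p : DD (tyW b) → ℝ}

theorem zc2r : ZC2r := fun _ _ h1 h2 h3 h4 => ZD.c2r h1 h2 h3 h4

/-- **No modes at rings.** -/
theorem ring_modes' (hb : ClassW b) (L : LocA b zs) (hN : NbT b R nb) (hM : MM b zs R nb z p)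
    (h : Fin M) (hr : RH1 b (.inl h)) : p (.inl h) = 0 :=
  ring_modes ZD.zrows zc2r ZD.rowsN hb L hN hM h hr

end SR

end Pool.Agent.Work.MP_b30479_gtS.G2

end

section

/-!
# Modes and tails: the field `rest` of the domination
-/

namespace Pool.Agent.Work.MP_b30479_gtS.G2

open Finset VOL Filter Topology

namespace SR

variable {M : ℕ} {b : Fin (M + 1) → ℤ} {zs : DD (tyW b) ⊕ ZZ (tyW b) → ℂ}

/-- **Modes and tails** from the kinds of hinges, the inner variables and the removal of the tails. -/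
theorem restQ_of (hb : ClassW b) (L : LocA b zs) (K : KindsL b zs) (I : InnersL b zs)
    (tl : (∀ R : Finset (DD (tyW b)), R ≠ ∅ → ∀ (z : DD (tyW b) ⊕ ZZ (tyW b) → ℂ)
      (p : DD (tyW b) → ℝ), MM b zs R (nbT b R) z p →
      ∃ z', Adm (wdat (tyW b) b) (wparM b zs) zs R (nbT b R) z' 0 ∧
        (∀ v ∈ nbT b R, z' v = z v) ∧ Ph b z p ≤ (wdat (tyW b) b).V z' + ∑ h, TL.ee b R z h) →
      TailOkM b zs (wparM b zs) (nbT b)) : RestQ b zs :=
  ⟨mhu b zs, mhd b zs, nbT b, mh_pos, nbT_empty, fun R => (nbT_ok b R).ok.1,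
    modes0_of hb L.L K I (fun hM => ring_modes' hb L NbT.empty hM),
    Or.inr (tl fun R _ z p hM =>
      lossy hb L.L K I (nbT_ok b R) hM (ring_modes' hb L (nbT_ok b R) hM))⟩

end SR

end Pool.Agent.Work.MP_b30479_gtS.G2

end
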