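import Pool.Agent.Work.MP_b30479_gt.TBS.G2.MR2_0
import Pool.Agent.Work.MP_b30479_gt.TBS.G2.WMid

section

/-!
# Right ramps of the hinges `2 | 2`, `2 | 2e`, `2e | 2e`

Sides of a region with two crossings in its own frame on the right ramp.  `v` is the partner hinge,
`Re v ≤ 60/100`.  Paths: `2 | 2`: `.60 | .1 | .28`, `2 | 2e`: `.60 | .1 | .33`, `2e | 2e`:
`.60 | .1 | .30`.
-/

set_option linter.unusedSimpArgs false

namespace Pool.Agent.Work.MP_b30479_gtS.G2

open VOL NumIs

namespace MR

/-- **Right ramp of `2 | 2`**, own frame, slope `m = -T / cr`, shift `1.45`. -/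
theorem right_two_two {w v : ℂ} {T : ℝ} (hT : -(41 / 1000) ≤ T) (hT' : T ≤ 41 / 1000)
    (hw : RH w T (60 / 100) (10 / 100) (28 / 100)) (hx : 32 / 100 ≤ w.re) (hv : 0 ≤ v.re)
    (hv' : v.re ≤ 60 / 100) (hk : -(985 / 10000) ≤ v.im) (hk' : v.im ≤ 96 / 1000) :
    S2 1 (-T / (28 / 100)) w v + 145 / 100 * (-T / (28 / 100)) < 0 := by
  have him := RH_right hw (by norm_num) (by norm_num) (by norm_num) (by linarith only [hx])
  have hM := hw.reM
  have hws : w ∈ strip := ⟨by linarith only [hx], by linarith only [hM]⟩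
  have hta : |w.im| ≤ 41 / 1000 := by
    rw [him, abs_mul]
    have h4 : |T| ≤ 41 / 1000 := abs_le.2 ⟨by linarith only [hT], hT'⟩
    have h5 : |(60 / 100 - w.re) / (28 / 100)| ≤ 1 := by
      rw [abs_le, le_div_iff₀ (by norm_num), div_le_iff₀ (by norm_num)]
      constructor <;> linarith only [hM, hx]
    have := mul_le_mul h4 h5 (abs_nonneg _) (by norm_num)
    linarith only [this]
  have h6 := abs_le.1 hta
  have h7 : |(w + v).im| ≤ 14 / 100 := by
    rw [Complex.add_im, abs_le]
    constructor <;> linarith only [hk, h6, hk', h6.1, h6.2]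
  obtain ⟨s, hs, hsT⟩ := sgn_slope (T := T) (c := 28 / 100) (by norm_num)
  rcases le_or_gt (w.re + v.re) (88 / 100) with h1 | h1
  · have hu : w + v ∈ strip := ⟨by simp; linarith only [hx, hv], by simp; linarith only [h1]⟩
    rw [S2_eq _ hws hu, him]
    rcases le_total w.re (33 / 100) with h2 | h2
    · exact row22a0 (by linarith only [hx]) (by linarith only [h2]) hT hT' hv (by linarith only [hv']) hk hk' h1
    rcases le_total w.re (40 / 100) with h3 | h3
    · exact row22a1 (by linarith only [h2]) (by linarith only [h3]) hT hT' hv (by linarith only [hv']) hk hk' h1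
    · exact row22a2 (by linarith only [h3]) (by linarith only [hM]) hT hT' hv (by linarith only [h1, h3]) hk hk' h1
  rcases le_or_gt (w.re + v.re) (112 / 100) with h2 | h2
  · have hL : LL (w + v) ≤ 16 / 100 := LL_rect kr_12_14 (by norm_num) (by norm_num)
      (by rw [Complex.add_re, abs_le]; constructor <;> linarith only [h1, h2]) h7
    rcases le_total (w.re + v.re) 1 with h3 | h3
    · have hY : |YY (w + v)| ≤ 1 / 2 * Real.pi := by
        rw [one_div_mul_eq_div]
        exact YY_abs_le (by simp; linarith only [h1]) (by simpa using h3)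
      have h9 := S2_near hs hws.1 hws.2 hL hY
      rw [him] at h9
      rcases hsT with ⟨rfl, h8⟩ | ⟨rfl, h8⟩
      · have h10 := row22b1 hx hM hT h8 (by linarith only [hM, h1]) hv' hk hk' h1.le h3
        rw [show (1 : ℝ) * (1 / 2) = 1 / 2 by norm_num] at h9
        linarith only [h9, h10]
      · have h10 := row22b2 hx hM h8 hT' (by linarith only [hM, h1]) hv' hk hk' h1.le h3
        rw [show (-1 : ℝ) * (1 / 2) = -1 / 2 by norm_num] at h9
        linarith only [h9, h10]
    · have hY : |YY (w + v)| ≤ 1 * Real.pi := by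
        rw [one_mul]
        exact YY_abs_pi (by simp; linarith only [h3]) (by simp; linarith only [hv', hM])
      have h9 := S2_near hs hws.1 hws.2 hL hY
      rw [him] at h9
      rcases hsT with ⟨rfl, h8⟩ | ⟨rfl, h8⟩
      · have h10 := row22b3 (by linarith only [hv', h3]) hM hT h8 (by linarith only [hM, h3]) hv' hk hk' h3 h2
        rw [show (1 : ℝ) * 1 = 1 by norm_num] at h9
        linarith only [h9, h10]
      · have h10 := row22b4 (by linarith only [hv', h3]) hM h8 hT' (by linarith only [hM, h3]) hv' hk hk' h3 h2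
        rw [show (-1 : ℝ) * 1 = -1 by norm_num] at h9
        linarith only [h9, h10]
  · have h9 := S2_beyond hs hws.1 hws.2 (by linarith) (by linarith)
    rw [him] at h9
    rcases hsT with ⟨rfl, h8⟩ | ⟨rfl, h8⟩
    · have h10 := row22c1 (by linarith only [hv', h2]) hM hT h8 (by linarith only [hM, h2]) hv' hk hk' h2.le
      linarith
    · have h10 := row22c2 (by linarith only [hv', h2]) hM h8 hT' (by linarith only [hM, h2]) hv' hk hk' h2.le
      linarith

/-- **Right ramp of `2 | 2e`**, side of the inner `2` in its own frame, shift `3/2`. -/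
theorem right_two_twoE {w v : ℂ} {T : ℝ} (hT : -(85 / 1000) ≤ T) (hT' : T ≤ -(45 / 1000))
    (hw : RH w T (60 / 100) (10 / 100) (33 / 100)) (hx : 27 / 100 ≤ w.re) (hv : 0 ≤ v.re)
    (hv' : v.re ≤ 60 / 100) (hk : -(985 / 10000) ≤ v.im) (hk' : v.im ≤ 96 / 1000) :
    S2 1 (-T / (33 / 100)) w v + 15 / 10 * (-T / (33 / 100)) <
      35 / 100 - 88 / 100 * (w.re - 27 / 100) := by
  have him := RH_right hw (by norm_num) (by norm_num) (by norm_num) (by linarith only [hx])
  have hM := hw.reM
  have hws : w ∈ strip := ⟨by linarith only [hx], by linarith only [hM]⟩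
  have hs : (-T / (33 / 100)) * 1 = |-T / (33 / 100)| := by
    rw [mul_one, abs_of_nonneg (div_nonneg (by linarith only [hT']) (by norm_num))]
  rcases le_or_gt (w.re + v.re) (91 / 100) with h1 | h1
  · have hu : w + v ∈ strip := ⟨by simp; linarith only [hx, hv], by simp; linarith only [h1]⟩
    rw [S2_eq _ hws hu, him]
    exact row2ea hx hM hT hT' hv hv' hk hk' h1
  rcases le_or_gt (w.re + v.re) (109 / 100) with h2 | h2
  · have h6 : -(75 / 1000) ≤ w.im ∧ w.im ≤ 0 := by
      rw [him]
      have h4 : 0 ≤ (60 / 100 - w.re) / (33 / 100) := div_nonneg (by linarith only [hM]) (by norm_num)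
      have h5 : (60 / 100 - w.re) / (33 / 100) ≤ 88 / 100 := by
        rw [div_le_iff₀ (by norm_num)]
        linarith only [hv', h1]
      constructor <;> nlinarith only [hv', h1, hT, hM, hT']
    have hre : |(w + v).re - 1| ≤ 9 / 100 := by
      rw [Complex.add_re, abs_le]
      constructor <;> linarith only [h1, h2]
    rcases le_total v.im (-(65 / 1000)) with h5 | h5
    · have hL : LL (w + v) ≤ 25 / 100 := LL_rect kr_9_175 (by norm_num) (by norm_num) hre
        (by rw [Complex.add_im, abs_le]; constructor <;> linarith only [hk, h6, hk', h6.1, h6.2])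
      rcases le_total (w.re + v.re) 1 with h3 | h3
      · have hY : |YY (w + v)| ≤ 1 / 2 * Real.pi := by
          rw [one_div_mul_eq_div]
          exact YY_abs_le (by simp; linarith only [h1]) (by simpa using h3)
        have h9 := S2_near hs hws.1 hws.2 hL hY
        rw [him] at h9
        have h10 := row2eb3 (by linarith only [hv', h1]) hM hT hT' (by linarith only [hM, h1]) hv' hk h5 h1.le h3
        rw [show (1 : ℝ) * (1 / 2) = 1 / 2 by norm_num] at h9
        linarith only [h9, h10]
      · have hY : |YY (w + v)| ≤ 1 * Real.pi := by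
          rw [one_mul]
          exact YY_abs_pi (by simp; linarith only [h3]) (by simp; linarith only [hv', hM])
        have h9 := S2_near hs hws.1 hws.2 hL hY
        rw [him] at h9
        have h10 := row2eb4 (by linarith only [hv', h3]) hM hT hT' (by linarith only [hM, h3]) hv' hk h5 h3 h2
        rw [show (1 : ℝ) * 1 = 1 by norm_num] at h9
        linarith only [h9, h10]
    · have hL : LL (w + v) ≤ 7 / 100 := LL_rect kr_9_14 (by norm_num) (by norm_num) hre
        (by rw [Complex.add_im, abs_le]; constructor <;> linarith only [h6, h5, hk', h6.1, h6.2])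
      rcases le_total (w.re + v.re) 1 with h3 | h3
      · have hY : |YY (w + v)| ≤ 1 / 2 * Real.pi := by
          rw [one_div_mul_eq_div]
          exact YY_abs_le (by simp; linarith only [h1]) (by simpa using h3)
        have h9 := S2_near hs hws.1 hws.2 hL hY
        rw [him] at h9
        have h10 := row2eb (by linarith only [hv', h1]) hM hT hT' (by linarith only [hM, h1]) hv' hk hk' h1.le h3
        rw [show (1 : ℝ) * (1 / 2) = 1 / 2 by norm_num] at h9
        linarith only [h9, h10]
      · have hY : |YY (w + v)| ≤ 1 * Real.pi := by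
          rw [one_mul]
          exact YY_abs_pi (by simp; linarith only [h3]) (by simp; linarith only [hv', hM])
        have h9 := S2_near hs hws.1 hws.2 hL hY
        rw [him] at h9
        have h10 := row2eb2 (by linarith only [hv', h3]) hM hT hT' (by linarith only [hM, h3]) hv' hk hk' h3 h2
        rw [show (1 : ℝ) * 1 = 1 by norm_num] at h9
        linarith only [h9, h10]
  · have h9 := S2_beyond hs hws.1 hws.2 (by linarith) (by linarith)
    rw [him] at h9
    have h10 := row2ec (by linarith only [hv', h2]) hM hT hT' (by linarith only [hM, h2]) hv' hk hk' h2.le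
    linarith

/-- **Right ramp of `2 | 2e`**, side of the end `2` in its own frame, same shift. -/
theorem right_twoE_two {w : ℂ} {T : ℝ} (hT : 45 / 1000 ≤ T) (hT' : T ≤ 85 / 1000)
    (hw : RH w T (60 / 100) (10 / 100) (33 / 100)) (hx : 27 / 100 ≤ w.re) :
    S2 1 (-T / (33 / 100)) w 0 + 15 / 10 * (-T / (33 / 100)) <
      -(35 / 100 - 88 / 100 * (w.re - 27 / 100)) := by
  have him := RH_right hw (by norm_num) (by norm_num) (by norm_num) (by linarith only [hx])
  have hM := hw.reM
  have hws : w ∈ strip := ⟨by linarith only [hx], by linarith only [hM]⟩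
  rw [S2_zero_eq _ hws, him]
  exact row2ed hx hM hT hT'

/-- **Right ramp of `2e | 2e`**, own frame, no shift. -/
theorem right_twoE_twoE {w : ℂ} {T : ℝ} (hT : -(1 / 1000) ≤ T) (hT' : T ≤ 1 / 1000)
    (hw : RH w T (60 / 100) (10 / 100) (30 / 100)) (hx : 3 / 10 ≤ w.re) :
    S2 1 (-T / (30 / 100)) w 0 < 0 := by
  have him := RH_right hw (by norm_num) (by norm_num) (by norm_num) (by linarith only [hx])
  have hM := hw.reM
  have hws : w ∈ strip := ⟨by linarith only [hx], by linarith only [hM]⟩
  rw [S2_zero_eq _ hws, him]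
  exact rowee hx hM hT hT'

end MR

end Pool.Agent.Work.MP_b30479_gtS.G2

end

section

/-!
# Caps of the hinges between two digits `2`
-/

namespace Pool.Agent.Work.MP_b30479_gtS.G2

open Finset VOL Filter Topology

namespace SR

variable {M : ℕ} {b : Fin (M + 1) → ℤ} {zs : DD (tyW b) ⊕ ZZ (tyW b) → ℂ}
variable {y : DD (tyW b) ⊕ ZZ (tyW b) → ℝ}
variable {h h' : Fin M} {i j j' : Fin (M + 1)} {p : Fin 3}

theorem rstep_false (hb : ClassW b) (hy : Mx b zs y) (h0 : 0 < y (.inl (.inl h)))
    (H : RStep b zs y h (slL b zs y h)) : False := by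
  obtain ⟨c, e1, e2, hc, he, hs⟩ := H
  exact rside_false hb hy h h0 hc he hs

theorem lstep_false (hb : ClassW b) (hy : Mx b zs y) (h0 : 0 < y (.inl (.inl h)))
    (h1 : y (.inl (.inl h)) < wXM b h) (H : LStep b zs y h (slR b zs y h)) : False := by
  obtain ⟨c, e1, e2, hc, he, hs⟩ := H
  exact lside_false hb hy h h0 h1 hc he hs

/-- the right end of the path of a hinge of a digit `2` -/
theorem Adj.XM_two (A : Adj h i p j) (hc : clsW b i = .two) (hj : clsW b j ≠ .one) :
    wXM b h = 60 / 100 := by
  rw [A.XM_eq b, hc]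
  unfold hpp
  generalize clsW b j = B at hj
  split_ifs <;> cases B <;> first | exact absurd rfl hj | simp [hp]

/-- the heights of the hinges of a digit `2`, on the paths -/
theorem Adj.im_two (A : Adj h i p j) (hb : ClassW b) (hL : Loc b zs)
    (hy : Mx b zs y) (hc : clsW b i = .two) :
    -(985 / 10000) ≤ (Yw b zs y i p).im ∧ (Yw b zs y i p).im ≤ 96 / 1000 := by
  have hop := A.opp hb (Or.inl (by rw [hc]; decide))
  obtain ⟨-, -, h3, h4⟩ := A.box hb hL
  rw [hc, A.ss hop] at h3 h4
  refine MR.RH_im_mem (A.rh hy) (by norm_num) (by norm_num) ?_ ?_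
  · refine le_trans ?_ h3
    generalize clsW b j = B
    cases B <;> norm_num [hbox]
  · refine h4.trans ?_
    generalize clsW b j = B
    cases B <;> norm_num [hbox]

/-- the other hinge of a digit `2` -/
theorem Adj.part_two (A : Adj h i p j) (hb : ClassW b) (hL : Loc b zs)
    (hy : Mx b zs y) (hc : clsW b i = .two)
    (h12 : ∀ {h : Fin M} {i j : Fin (M + 1)} {p : Fin 3}, Adj h i p j → clsW b i = .two →
      clsW b j = .one → y (.inl (.inl h)) ≤ 60 / 100) :
    0 ≤ (Yw b zs y i p.rev).re ∧ (Yw b zs y i p.rev).re ≤ 60 / 100 ∧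
      -(985 / 10000) ≤ (Yw b zs y i p.rev).im ∧ (Yw b zs y i p.rev).im ≤ 96 / 1000 := by
  obtain ⟨h', j', A'⟩ := A.other' b (clsW_inner hb (Or.inr (Or.inl hc)))
  obtain ⟨h3, h4⟩ := A'.im_two hb hL hy hc
  refine ⟨(A'.rh hy).re0, ?_, h3, h4⟩
  by_cases hj : clsW b j' = .one
  · rw [A'.re]
    exact h12 A' hc hj
  · have := (A'.rh hy).reM
    rwa [A'.XM_two hc hj] at this

/-- **Caps of the hinges between two digits `2`**, if the hinges between a digit `2` and a digit `1`
are at most `.60`: the flat ends. -/
theorem cap_two_two (hb : ClassW b) (hL : Loc b zs) (hy : Mx b zs y)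
    (hpos : ∀ h : Fin M, 0 < y (.inl (.inl h)))
    (h12 : ∀ {h : Fin M} {i j : Fin (M + 1)} {p : Fin 3}, Adj h i p j → clsW b i = .two →
      clsW b j = .one → y (.inl (.inl h)) ≤ 60 / 100)
    (A : Adj h i p j) (hi : clsW b i = .two ∨ clsW b i = .twoE)
    (hj : clsW b j = .two ∨ clsW b j = .twoE) :
    y (.inl (.inl h)) ≤ wXM b h - wcr b h := by
  by_contra hcon
  push Not at hcon
  have key : ∀ {i j : Fin (M + 1)} {p : Fin 3}, Adj h i p j → clsW b i = .two →
      clsW b j = .two → RStep b zs y h (slL b zs y h) := by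
    intro i j p A hi hj
    have hop := A.opp hb (Or.inl (by rw [hi]; decide))
    have hX : wXM b h = 60 / 100 := A.XM_two hi (by rw [hj]; decide)
    have hr : wcr b h = 28 / 100 := by
      rw [A.cr_eq b, hi, hj]; unfold hpp; split_ifs <;> simp [hp]
    have hl : wcl b h = 10 / 100 := by
      rw [A.cl_eq b, hi, hj]; unfold hpp; split_ifs <;> simp [hp]
    have side : ∀ {i j : Fin (M + 1)} {p : Fin 3}, Adj h i p j → clsW b i = .two →
        clsW b j = .two → Sw b zs y i p (slL b zs y h) +
          145 / 100 * ofs (b i) (slL b zs y h) < 0 := by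
      intro i j p A hi hj
      have hop := A.opp hb (Or.inl (by rw [hi]; decide))
      obtain ⟨-, -, h3, h4⟩ := A.box hb hL
      rw [hi, hj, A.ss hop] at h3 h4
      obtain ⟨g1, g2, g3, g4⟩ := A.part_two hb hL hy hi h12
      have hrh := A.rh hy
      rw [hX, hl, hr] at hrh
      have := MR.right_two_two (w := Yw b zs y i p) (v := Yw b zs y i p.rev)
        (T := ofs (b i) (zs (.inl (.inl h))).im) h3 h4 hrh
        (by rw [A.re]; rw [hX, hr] at hcon; linarith) g1 g2 g3 g4
      rw [A.side_two hb (Or.inl hi), ofs_slL_ramp _ hcon, hr, ← neg_div]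
      exact this
    exact RStep.of_adj A (fun h => absurd h (by omega))
      (add_neg (side A hi hj) (side A.symm hj hi)) le_rfl (by rw [ofs_opp hop])
  have key' : ∀ {i j : Fin (M + 1)} {p : Fin 3}, Adj h i p j → clsW b i = .two →
      clsW b j = .twoE → RStep b zs y h (slL b zs y h) := by
    intro i j p A hi hj
    have hop := A.opp hb (Or.inl (by rw [hi]; decide))
    have hX : wXM b h = 60 / 100 := A.XM_two hi (by rw [hj]; decide)
    have hr : wcr b h = 33 / 100 := by
      rw [A.cr_eq b, hi, hj]; unfold hpp; split_ifs <;> simp [hp]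
    have hl : wcl b h = 10 / 100 := by
      rw [A.cl_eq b, hi, hj]; unfold hpp; split_ifs <;> simp [hp]
    have hx : 27 / 100 ≤ y (.inl (.inl h)) := by
      rw [hX, hr] at hcon; linarith
    have s1 : Sw b zs y i p (slL b zs y h) + 15 / 10 * ofs (b i) (slL b zs y h) <
        35 / 100 - 88 / 100 * (y (.inl (.inl h)) - 27 / 100) := by
      obtain ⟨-, -, h3, h4⟩ := A.box hb hL
      rw [hi, hj, A.ss hop] at h3 h4
      obtain ⟨g1, g2, g3, g4⟩ := A.part_two hb hL hy hi h12
      have hrh := A.rh hy
      rw [hX, hl, hr] at hrh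
      have := MR.right_two_twoE (w := Yw b zs y i p) (v := Yw b zs y i p.rev)
        (T := ofs (b i) (zs (.inl (.inl h))).im) h3 h4 hrh
        (by rw [A.re]; exact hx) g1 g2 g3 g4
      rw [A.side_two hb (Or.inl hi), ofs_slL_ramp _ hcon, hr, ← neg_div]
      rw [A.re] at this
      exact this
    have s2 : Sw b zs y j p.rev (slL b zs y h) + 15 / 10 * ofs (b j) (slL b zs y h) <
        -(35 / 100 - 88 / 100 * (y (.inl (.inl h)) - 27 / 100)) := by
      have A' := A.symm
      have hop' : b j * b i < 0 := by rw [mul_comm]; exact hop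
      obtain ⟨-, -, h3, h4⟩ := A'.box hb hL
      rw [hi, hj, A'.ss hop'] at h3 h4
      have hrh := A'.rh hy
      rw [hX, hl, hr] at hrh
      have hv : Yw b zs y j p.rev.rev = 0 := by
        rcases A'.other b zs y with h5 | h5
        · exact h5.2
        · rw [clsW_end (Or.inl hj)] at h5
          exact absurd h5.1 (by decide)
      have := MR.right_twoE_two (w := Yw b zs y j p.rev)
        (T := ofs (b j) (zs (.inl (.inl h))).im) h3 h4 hrh
        (by rw [A'.re]; exact hx)
      rw [A'.side_two hb (Or.inr hj), ofs_slL_ramp _ hcon, hr, ← neg_div, hv]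
      rw [A'.re] at this
      exact this
    exact RStep.of_adj A (c := 15 / 10) (fun h => absurd h (by omega)) (by linarith only [s1, s2])
      le_rfl le_rfl
  have key'' : ∀ {i j : Fin (M + 1)} {p : Fin 3}, Adj h i p j → clsW b i = .twoE →
      clsW b j = .twoE → RStep b zs y h (slL b zs y h) := by
    intro i j p A hi hj
    have hop := A.opp hb (Or.inl (by rw [hi]; decide))
    have hX : wXM b h = 60 / 100 := by
      rw [A.XM_eq b, hi, hj]; unfold hpp; split_ifs <;> simp [hp]
    have hr : wcr b h = 30 / 100 := by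
      rw [A.cr_eq b, hi, hj]; unfold hpp; split_ifs <;> simp [hp]
    have hl : wcl b h = 10 / 100 := by
      rw [A.cl_eq b, hi, hj]; unfold hpp; split_ifs <;> simp [hp]
    have hx : 30 / 100 ≤ y (.inl (.inl h)) := by
      rw [hX, hr] at hcon; linarith
    have side : ∀ {i j : Fin (M + 1)} {p : Fin 3}, Adj h i p j → clsW b i = .twoE →
        clsW b j = .twoE → Sw b zs y i p (slL b zs y h) + 0 * ofs (b i) (slL b zs y h) < 0 := by
      intro i j p A hi hj
      have hop := A.opp hb (Or.inl (by rw [hi]; decide))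
      obtain ⟨-, -, h3, h4⟩ := A.box hb hL
      rw [hi, hj, A.ss hop] at h3 h4
      have hrh := A.rh hy
      rw [hX, hl, hr] at hrh
      have hv : Yw b zs y i p.rev = 0 := by
        rcases A.other b zs y with h5 | h5
        · exact h5.2
        · rw [clsW_end (Or.inl hi)] at h5
          exact absurd h5.1 (by decide)
      have := MR.right_twoE_twoE (w := Yw b zs y i p)
        (T := ofs (b i) (zs (.inl (.inl h))).im) h3 h4 hrh
        (by rw [A.re]; linarith)
      rw [A.side_two hb (Or.inr hi), ofs_slL_ramp _ hcon, hr, ← neg_div, hv]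
      linarith
    exact RStep.of_adj A (fun h => absurd h (by omega))
      (add_neg (side A hi hj) (side A.symm hj hi)) le_rfl (by rw [ofs_opp hop])
  rcases hi with hi | hi <;> rcases hj with hj | hj
  · exact rstep_false hb hy (hpos h) (key A hi hj)
  · exact rstep_false hb hy (hpos h) (key' A hi hj)
  · exact rstep_false hb hy (hpos h) (key' A.symm hj hi)
  · exact rstep_false hb hy (hpos h) (key'' A hi hj)

end SR

end Pool.Agent.Work.MP_b30479_gtS.G2

end
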