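import Pool.Agent.Work.MP_b30479_gt.TBS.G2.S0RC
import Pool.Agent.Work.MP_b30479_gt.TBS.NumU.Tree

section

/-!
# Part of `S0RD`
-/
set_option linter.unusedSimpArgs false
set_option linter.unusedVariables false

set_option deprecated.oldSectionVars true

namespace Pool.Agent.Work.MP_b30479_gtS.G2

open VOL NumUs

namespace S0R

open NumUs.E EE

theorem far2_1b {x T p t : ℝ} (ua1 : 3600 / 10000 ≤ x) (ua2 : x ≤ 5000 / 10000) (ua3 : -(570 / 10000) ≤ T) (ua4 : T ≤ 50 / 10000) (ua5 : 1000 / 10000 ≤ p) (ua6 : p ≤ 3700 / 10000) (ua7 : -(1140 / 10000) ≤ t) (ua8 : t ≤ -(150 / 10000)) (ua9 : T - t ≤ 1050 / 10000) (ua10 : 4300 / 10000 ≤ x + p) (ua11 : x + p ≤ 7300 / 10000) :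
    rS (100 / 27) x T p t < 125 / 1000 + Real.pi * (1 / 2) * (100 / 27 * T) ∨ rF (100 / 27) (x + p + 7 / 100) (-98 / 10000) x T p t < 125 / 1000 + Real.pi * (1 / 2) * (100 / 27 * T) := by
  have h : chkT [sub (add (q 125 1000) (mul (mul pi (q 1 2)) (kT 100 27))) (S 100 27), sub (add (q 125 1000) (mul (mul pi (q 1 2)) (kT 100 27))) (F 100 27 pb (q (-98) 10000)), sub (sub EE.T EE.t) (q 1050 10000), sub (q 4300 10000) EE.v, sub EE.v (q 7300 10000)] 30
    47543632579808762820815373746194974774521714261876550705814777213581065559869167975759015318754717083026031676211169350544585515945562816350337035301025318006113416848162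
    [NumIs.V.of 10000 3600 5000, NumIs.V.of 10000 (-570) 50, NumIs.V.of 10000 1000 3700, NumIs.V.of 10000 (-1140) (-150)] = true := by
    decide +kernel
  obtain ⟨f, hf, hp⟩ := chkT4 h (by norm_num) (x := x) (y := T) (z := p) (w := t)
    (by norm_num; linarith only [ua1]) (by norm_num; linarith only [ua2]) (by norm_num; linarith only [ua3]) (by norm_num; linarith only [ua4]) (by norm_num; linarith only [ua5]) (by norm_num; linarith only [ua6]) (by norm_num; linarith only [ua7]) (by norm_num; linarith only [ua8])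
  by_contra hc
  push Not at hc
  obtain ⟨hc0, hc1⟩ := hc
  simp only [List.mem_cons, List.not_mem_nil, or_false] at hf
  rcases hf with rfl | rfl | rfl | rfl | rfl
  · simp only [S_val, F_val, N_val, ui_val, EE.pa, EE.pb, EE.pc, EE.kT, nyy, EE.x, EE.T, EE.p, EE.t, EE.nt, EE.v, E.val, NumIs.lkR] at hp
    push_cast at hp
    linarith only [hc0, hp]
  · simp only [S_val, F_val, N_val, ui_val, EE.pa, EE.pb, EE.pc, EE.kT, nyy, EE.x, EE.T, EE.p, EE.t, EE.nt, EE.v, E.val, NumIs.lkR] at hp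
    push_cast at hp
    linarith only [hc1, hp]
  · simp only [S_val, F_val, N_val, ui_val, EE.pa, EE.pb, EE.pc, EE.kT, nyy, EE.x, EE.T, EE.p, EE.t, EE.nt, EE.v, E.val, NumIs.lkR] at hp
    push_cast at hp
    linarith only [ua9, hp]
  · simp only [S_val, F_val, N_val, ui_val, EE.pa, EE.pb, EE.pc, EE.kT, nyy, EE.x, EE.T, EE.p, EE.t, EE.nt, EE.v, E.val, NumIs.lkR] at hp
    push_cast at hp
    linarith only [ua1, ua5, hp]
  · simp only [S_val, F_val, N_val, ui_val, EE.pa, EE.pb, EE.pc, EE.kT, nyy, EE.x, EE.T, EE.p, EE.t, EE.nt, EE.v, E.val, NumIs.lkR] at hp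
    push_cast at hp
    linarith only [ua11, hp]

theorem far2_1c {x T p t : ℝ} (ua1 : 3600 / 10000 ≤ x) (ua2 : x ≤ 5000 / 10000) (ua3 : -(570 / 10000) ≤ T) (ua4 : T ≤ 50 / 10000) (ua5 : 2300 / 10000 ≤ p) (ua6 : p ≤ 3900 / 10000) (ua7 : -(1140 / 10000) ≤ t) (ua8 : t ≤ -(150 / 10000)) (ua9 : T - t ≤ 1050 / 10000) (ua10 : 7300 / 10000 ≤ x + p) (ua11 : x + p ≤ 7500 / 10000) :
    rS (100 / 27) x T p t < 125 / 1000 + Real.pi * (1 / 2) * (100 / 27 * T) ∨ rF (100 / 27) (80 / 100) (-98 / 10000) x T p t < 125 / 1000 + Real.pi * (1 / 2) * (100 / 27 * T) := by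
  have h : chkT [sub (add (q 125 1000) (mul (mul pi (q 1 2)) (kT 100 27))) (S 100 27), sub (add (q 125 1000) (mul (mul pi (q 1 2)) (kT 100 27))) (F 100 27 pc (q (-98) 10000)), sub (sub EE.T EE.t) (q 1050 10000), sub (q 7300 10000) EE.v, sub EE.v (q 7500 10000)] 30
    4351607591963844452623782384397576672002
    [NumIs.V.of 10000 3600 5000, NumIs.V.of 10000 (-570) 50, NumIs.V.of 10000 2300 3900, NumIs.V.of 10000 (-1140) (-150)] = true := by
    decide +kernel
  obtain ⟨f, hf, hp⟩ := chkT4 h (by norm_num) (x := x) (y := T) (z := p) (w := t)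
    (by norm_num; linarith only [ua1]) (by norm_num; linarith only [ua2]) (by norm_num; linarith only [ua3]) (by norm_num; linarith only [ua4]) (by norm_num; linarith only [ua5]) (by norm_num; linarith only [ua6]) (by norm_num; linarith only [ua7]) (by norm_num; linarith only [ua8])
  by_contra hc
  push Not at hc
  obtain ⟨hc0, hc1⟩ := hc
  simp only [List.mem_cons, List.not_mem_nil, or_false] at hf
  rcases hf with rfl | rfl | rfl | rfl | rfl
  · simp only [S_val, F_val, N_val, ui_val, EE.pa, EE.pb, EE.pc, EE.kT, nyy, EE.x, EE.T, EE.p, EE.t, EE.nt, EE.v, E.val, NumIs.lkR] at hp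
    push_cast at hp
    linarith only [hc0, hp]
  · simp only [S_val, F_val, N_val, ui_val, EE.pa, EE.pb, EE.pc, EE.kT, nyy, EE.x, EE.T, EE.p, EE.t, EE.nt, EE.v, E.val, NumIs.lkR] at hp
    push_cast at hp
    linarith only [hc1, hp]
  · simp only [S_val, F_val, N_val, ui_val, EE.pa, EE.pb, EE.pc, EE.kT, nyy, EE.x, EE.T, EE.p, EE.t, EE.nt, EE.v, E.val, NumIs.lkR] at hp
    push_cast at hp
    linarith only [ua9, hp]
  · simp only [S_val, F_val, N_val, ui_val, EE.pa, EE.pb, EE.pc, EE.kT, nyy, EE.x, EE.T, EE.p, EE.t, EE.nt, EE.v, E.val, NumIs.lkR] at hp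
    push_cast at hp
    linarith only [ua10, hp]
  · simp only [S_val, F_val, N_val, ui_val, EE.pa, EE.pb, EE.pc, EE.kT, nyy, EE.x, EE.T, EE.p, EE.t, EE.nt, EE.v, E.val, NumIs.lkR] at hp
    push_cast at hp
    linarith only [ua11, hp]

theorem far2_ob {x T p t : ℝ} (ua1 : 3600 / 10000 ≤ x) (ua2 : x ≤ 5000 / 10000) (ua3 : -(570 / 10000) ≤ T) (ua4 : T ≤ 50 / 10000) (ua5 : 1000 / 10000 ≤ p) (ua6 : p ≤ 3700 / 10000) (ua7 : -(1040 / 10000) ≤ t) (ua8 : t ≤ 50 / 10000) (ua9 : T - t ≤ 1000 / 10000) (ua10 : 4300 / 10000 ≤ x + p) (ua11 : x + p ≤ 7300 / 10000) :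
    rS (100 / 27) x T p t < 125 / 1000 + Real.pi * (1 / 2) * (100 / 27 * T) ∨ rF (100 / 27) (x + p + 7 / 100) (220 / 10000) x T p t < 125 / 1000 + Real.pi * (1 / 2) * (100 / 27 * T) := by
  have h : chkT [sub (add (q 125 1000) (mul (mul pi (q 1 2)) (kT 100 27))) (S 100 27), sub (add (q 125 1000) (mul (mul pi (q 1 2)) (kT 100 27))) (F 100 27 pb (q 220 10000)), sub (sub EE.T EE.t) (q 1000 10000), sub (q 4300 10000) EE.v, sub EE.v (q 7300 10000)] 30
    7574137648874666303518679318626097982003866980993017725980281770499003818817862304990521525479194964897132782370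
    [NumIs.V.of 10000 3600 5000, NumIs.V.of 10000 (-570) 50, NumIs.V.of 10000 1000 3700, NumIs.V.of 10000 (-1040) 50] = true := by
    decide +kernel
  obtain ⟨f, hf, hp⟩ := chkT4 h (by norm_num) (x := x) (y := T) (z := p) (w := t)
    (by norm_num; linarith only [ua1]) (by norm_num; linarith only [ua2]) (by norm_num; linarith only [ua3]) (by norm_num; linarith only [ua4]) (by norm_num; linarith only [ua5]) (by norm_num; linarith only [ua6]) (by norm_num; linarith only [ua7]) (by norm_num; linarith only [ua8])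
  by_contra hc
  push Not at hc
  obtain ⟨hc0, hc1⟩ := hc
  simp only [List.mem_cons, List.not_mem_nil, or_false] at hf
  rcases hf with rfl | rfl | rfl | rfl | rfl
  · simp only [S_val, F_val, N_val, ui_val, EE.pa, EE.pb, EE.pc, EE.kT, nyy, EE.x, EE.T, EE.p, EE.t, EE.nt, EE.v, E.val, NumIs.lkR] at hp
    push_cast at hp
    linarith only [hc0, hp]
  · simp only [S_val, F_val, N_val, ui_val, EE.pa, EE.pb, EE.pc, EE.kT, nyy, EE.x, EE.T, EE.p, EE.t, EE.nt, EE.v, E.val, NumIs.lkR] at hp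
    push_cast at hp
    linarith only [hc1, hp]
  · simp only [S_val, F_val, N_val, ui_val, EE.pa, EE.pb, EE.pc, EE.kT, nyy, EE.x, EE.T, EE.p, EE.t, EE.nt, EE.v, E.val, NumIs.lkR] at hp
    push_cast at hp
    linarith only [ua9, hp]
  · simp only [S_val, F_val, N_val, ui_val, EE.pa, EE.pb, EE.pc, EE.kT, nyy, EE.x, EE.T, EE.p, EE.t, EE.nt, EE.v, E.val, NumIs.lkR] at hp
    push_cast at hp
    linarith only [ua1, ua5, hp]
  · simp only [S_val, F_val, N_val, ui_val, EE.pa, EE.pb, EE.pc, EE.kT, nyy, EE.x, EE.T, EE.p, EE.t, EE.nt, EE.v, E.val, NumIs.lkR] at hp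
    push_cast at hp
    linarith only [ua11, hp]

end S0R

end Pool.Agent.Work.MP_b30479_gtS.G2

end

section

/-!
# Part of `S0RD`
-/
set_option linter.unusedSimpArgs false
set_option linter.unusedVariables false

set_option deprecated.oldSectionVars true

namespace Pool.Agent.Work.MP_b30479_gtS.G2

open VOL NumUs

namespace S0R

open NumUs.E EE

theorem far2_oc {x T p t : ℝ} (ua1 : 3600 / 10000 ≤ x) (ua2 : x ≤ 5000 / 10000) (ua3 : -(570 / 10000) ≤ T) (ua4 : T ≤ 50 / 10000) (ua5 : 2300 / 10000 ≤ p) (ua6 : p ≤ 3900 / 10000) (ua7 : -(1040 / 10000) ≤ t) (ua8 : t ≤ 50 / 10000) (ua9 : T - t ≤ 1000 / 10000) (ua10 : 7300 / 10000 ≤ x + p) (ua11 : x + p ≤ 7500 / 10000) :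
    rS (100 / 27) x T p t < 125 / 1000 + Real.pi * (1 / 2) * (100 / 27 * T) ∨ rF (100 / 27) (80 / 100) (220 / 10000) x T p t < 125 / 1000 + Real.pi * (1 / 2) * (100 / 27 * T) := by
  have h : chkT [sub (add (q 125 1000) (mul (mul pi (q 1 2)) (kT 100 27))) (S 100 27), sub (add (q 125 1000) (mul (mul pi (q 1 2)) (kT 100 27))) (F 100 27 pc (q 220 10000)), sub (sub EE.T EE.t) (q 1000 10000), sub (q 7300 10000) EE.v, sub EE.v (q 7500 10000)] 30
    16997492332793595960624403616042727682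
    [NumIs.V.of 10000 3600 5000, NumIs.V.of 10000 (-570) 50, NumIs.V.of 10000 2300 3900, NumIs.V.of 10000 (-1040) 50] = true := by
    decide +kernel
  obtain ⟨f, hf, hp⟩ := chkT4 h (by norm_num) (x := x) (y := T) (z := p) (w := t)
    (by norm_num; linarith only [ua1]) (by norm_num; linarith only [ua2]) (by norm_num; linarith only [ua3]) (by norm_num; linarith only [ua4]) (by norm_num; linarith only [ua5]) (by norm_num; linarith only [ua6]) (by norm_num; linarith only [ua7]) (by norm_num; linarith only [ua8])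
  by_contra hc
  push Not at hc
  obtain ⟨hc0, hc1⟩ := hc
  simp only [List.mem_cons, List.not_mem_nil, or_false] at hf
  rcases hf with rfl | rfl | rfl | rfl | rfl
  · simp only [S_val, F_val, N_val, ui_val, EE.pa, EE.pb, EE.pc, EE.kT, nyy, EE.x, EE.T, EE.p, EE.t, EE.nt, EE.v, E.val, NumIs.lkR] at hp
    push_cast at hp
    linarith only [hc0, hp]
  · simp only [S_val, F_val, N_val, ui_val, EE.pa, EE.pb, EE.pc, EE.kT, nyy, EE.x, EE.T, EE.p, EE.t, EE.nt, EE.v, E.val, NumIs.lkR] at hp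
    push_cast at hp
    linarith only [hc1, hp]
  · simp only [S_val, F_val, N_val, ui_val, EE.pa, EE.pb, EE.pc, EE.kT, nyy, EE.x, EE.T, EE.p, EE.t, EE.nt, EE.v, E.val, NumIs.lkR] at hp
    push_cast at hp
    linarith only [ua9, hp]
  · simp only [S_val, F_val, N_val, ui_val, EE.pa, EE.pb, EE.pc, EE.kT, nyy, EE.x, EE.T, EE.p, EE.t, EE.nt, EE.v, E.val, NumIs.lkR] at hp
    push_cast at hp
    linarith only [ua10, hp]
  · simp only [S_val, F_val, N_val, ui_val, EE.pa, EE.pb, EE.pc, EE.kT, nyy, EE.x, EE.T, EE.p, EE.t, EE.nt, EE.v, E.val, NumIs.lkR] at hp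
    push_cast at hp
    linarith only [ua11, hp]

theorem far2_Zb {x T p t : ℝ} (ua1 : 3600 / 10000 ≤ x) (ua2 : x ≤ 5000 / 10000) (ua3 : -(570 / 10000) ≤ T) (ua4 : T ≤ 50 / 10000) (ua5 : 1000 / 10000 ≤ p) (ua6 : p ≤ 3700 / 10000) (ua7 : -(920 / 10000) ≤ t) (ua8 : t ≤ 0 / 10000) (ua9 : T - t ≤ 930 / 10000) (ua10 : 4300 / 10000 ≤ x + p) (ua11 : x + p ≤ 7300 / 10000) :
    rS (100 / 27) x T p t < 125 / 1000 + Real.pi * (1 / 2) * (100 / 27 * T) ∨ rF (100 / 27) (x + p + 7 / 100) (570 / 10000) x T p t < 125 / 1000 + Real.pi * (1 / 2) * (100 / 27 * T) := by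
  have h : chkT [sub (add (q 125 1000) (mul (mul pi (q 1 2)) (kT 100 27))) (S 100 27), sub (add (q 125 1000) (mul (mul pi (q 1 2)) (kT 100 27))) (F 100 27 pb (q 570 10000)), sub (sub EE.T EE.t) (q 930 10000), sub (q 4300 10000) EE.v, sub EE.v (q 7300 10000)] 30
    1603948249376549021123924741225960375641277932413736052052310908863844608130065037476766498
    [NumIs.V.of 10000 3600 5000, NumIs.V.of 10000 (-570) 50, NumIs.V.of 10000 1000 3700, NumIs.V.of 10000 (-920) 0] = true := by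
    decide +kernel
  obtain ⟨f, hf, hp⟩ := chkT4 h (by norm_num) (x := x) (y := T) (z := p) (w := t)
    (by norm_num; linarith only [ua1]) (by norm_num; linarith only [ua2]) (by norm_num; linarith only [ua3]) (by norm_num; linarith only [ua4]) (by norm_num; linarith only [ua5]) (by norm_num; linarith only [ua6]) (by norm_num; linarith only [ua7]) (by norm_num; linarith only [ua8])
  by_contra hc
  push Not at hc
  obtain ⟨hc0, hc1⟩ := hc
  simp only [List.mem_cons, List.not_mem_nil, or_false] at hf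
  rcases hf with rfl | rfl | rfl | rfl | rfl
  · simp only [S_val, F_val, N_val, ui_val, EE.pa, EE.pb, EE.pc, EE.kT, nyy, EE.x, EE.T, EE.p, EE.t, EE.nt, EE.v, E.val, NumIs.lkR] at hp
    push_cast at hp
    linarith only [hc0, hp]
  · simp only [S_val, F_val, N_val, ui_val, EE.pa, EE.pb, EE.pc, EE.kT, nyy, EE.x, EE.T, EE.p, EE.t, EE.nt, EE.v, E.val, NumIs.lkR] at hp
    push_cast at hp
    linarith only [hc1, hp]
  · simp only [S_val, F_val, N_val, ui_val, EE.pa, EE.pb, EE.pc, EE.kT, nyy, EE.x, EE.T, EE.p, EE.t, EE.nt, EE.v, E.val, NumIs.lkR] at hp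
    push_cast at hp
    linarith only [ua9, hp]
  · simp only [S_val, F_val, N_val, ui_val, EE.pa, EE.pb, EE.pc, EE.kT, nyy, EE.x, EE.T, EE.p, EE.t, EE.nt, EE.v, E.val, NumIs.lkR] at hp
    push_cast at hp
    linarith only [ua1, ua5, hp]
  · simp only [S_val, F_val, N_val, ui_val, EE.pa, EE.pb, EE.pc, EE.kT, nyy, EE.x, EE.T, EE.p, EE.t, EE.nt, EE.v, E.val, NumIs.lkR] at hp
    push_cast at hp
    linarith only [ua11, hp]

theorem far2_Zc {x T p t : ℝ} (ua1 : 3600 / 10000 ≤ x) (ua2 : x ≤ 5000 / 10000) (ua3 : -(570 / 10000) ≤ T) (ua4 : T ≤ 50 / 10000) (ua5 : 2300 / 10000 ≤ p) (ua6 : p ≤ 3900 / 10000) (ua7 : -(920 / 10000) ≤ t) (ua8 : t ≤ 0 / 10000) (ua9 : T - t ≤ 930 / 10000) (ua10 : 7300 / 10000 ≤ x + p) (ua11 : x + p ≤ 7500 / 10000) :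
    rS (100 / 27) x T p t < 125 / 1000 + Real.pi * (1 / 2) * (100 / 27 * T) ∨ rF (100 / 27) (80 / 100) (570 / 10000) x T p t < 125 / 1000 + Real.pi * (1 / 2) * (100 / 27 * T) := by
  have h : chkT [sub (add (q 125 1000) (mul (mul pi (q 1 2)) (kT 100 27))) (S 100 27), sub (add (q 125 1000) (mul (mul pi (q 1 2)) (kT 100 27))) (F 100 27 pc (q 570 10000)), sub (sub EE.T EE.t) (q 930 10000), sub (q 7300 10000) EE.v, sub EE.v (q 7500 10000)] 30
    1013122161518464289650326518018
    [NumIs.V.of 10000 3600 5000, NumIs.V.of 10000 (-570) 50, NumIs.V.of 10000 2300 3900, NumIs.V.of 10000 (-920) 0] = true := by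
    decide +kernel
  obtain ⟨f, hf, hp⟩ := chkT4 h (by norm_num) (x := x) (y := T) (z := p) (w := t)
    (by norm_num; linarith only [ua1]) (by norm_num; linarith only [ua2]) (by norm_num; linarith only [ua3]) (by norm_num; linarith only [ua4]) (by norm_num; linarith only [ua5]) (by norm_num; linarith only [ua6]) (by norm_num; linarith only [ua7]) (by norm_num; linarith only [ua8])
  by_contra hc
  push Not at hc
  obtain ⟨hc0, hc1⟩ := hc
  simp only [List.mem_cons, List.not_mem_nil, or_false] at hf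
  rcases hf with rfl | rfl | rfl | rfl | rfl
  · simp only [S_val, F_val, N_val, ui_val, EE.pa, EE.pb, EE.pc, EE.kT, nyy, EE.x, EE.T, EE.p, EE.t, EE.nt, EE.v, E.val, NumIs.lkR] at hp
    push_cast at hp
    linarith only [hc0, hp]
  · simp only [S_val, F_val, N_val, ui_val, EE.pa, EE.pb, EE.pc, EE.kT, nyy, EE.x, EE.T, EE.p, EE.t, EE.nt, EE.v, E.val, NumIs.lkR] at hp
    push_cast at hp
    linarith only [hc1, hp]
  · simp only [S_val, F_val, N_val, ui_val, EE.pa, EE.pb, EE.pc, EE.kT, nyy, EE.x, EE.T, EE.p, EE.t, EE.nt, EE.v, E.val, NumIs.lkR] at hp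
    push_cast at hp
    linarith only [ua9, hp]
  · simp only [S_val, F_val, N_val, ui_val, EE.pa, EE.pb, EE.pc, EE.kT, nyy, EE.x, EE.T, EE.p, EE.t, EE.nt, EE.v, E.val, NumIs.lkR] at hp
    push_cast at hp
    linarith only [ua10, hp]
  · simp only [S_val, F_val, N_val, ui_val, EE.pa, EE.pb, EE.pc, EE.kT, nyy, EE.x, EE.T, EE.p, EE.t, EE.nt, EE.v, E.val, NumIs.lkR] at hp
    push_cast at hp
    linarith only [ua11, hp]

theorem e2_1a {x T p t : ℝ} (ua1 : 3000 / 10000 ≤ x) (ua2 : x ≤ 5000 / 10000) (ua3 : -(980 / 10000) ≤ T) (ua4 : T ≤ -(760 / 10000)) (ua5 : 1000 / 10000 ≤ p) (ua6 : p ≤ 1300 / 10000) (ua7 : -(1230 / 10000) ≤ t) (ua8 : t ≤ -(800 / 10000)) (ua9 : x + p ≤ 4300 / 10000) :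
    rS (10 / 3) x T p t < 57 / 100 + 5 / 2 * (10 / 3 * T) ∨ rF (10 / 3) (1 / 2) (-98 / 10000) x T p t < 57 / 100 + 5 / 2 * (10 / 3 * T) := by
  have h : chkT [sub (add (q 57 100) (mul (q 5 2) (kT 10 3))) (S 10 3), sub (add (q 57 100) (mul (q 5 2) (kT 10 3))) (F 10 3 pa (q (-98) 10000)), sub EE.v (q 4300 10000)] 30
    2176
    [NumIs.V.of 10000 3000 5000, NumIs.V.of 10000 (-980) (-760), NumIs.V.of 10000 1000 1300, NumIs.V.of 10000 (-1230) (-800)] = true := by
    decide +kernel
  obtain ⟨f, hf, hp⟩ := chkT4 h (by norm_num) (x := x) (y := T) (z := p) (w := t)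
    (by norm_num; linarith only [ua1]) (by norm_num; linarith only [ua2]) (by norm_num; linarith only [ua3]) (by norm_num; linarith only [ua4]) (by norm_num; linarith only [ua5]) (by norm_num; linarith only [ua6]) (by norm_num; linarith only [ua7]) (by norm_num; linarith only [ua8])
  by_contra hc
  push Not at hc
  obtain ⟨hc0, hc1⟩ := hc
  simp only [List.mem_cons, List.not_mem_nil, or_false] at hf
  rcases hf with rfl | rfl | rfl
  · simp only [S_val, F_val, N_val, ui_val, EE.pa, EE.pb, EE.pc, EE.kT, nyy, EE.x, EE.T, EE.p, EE.t, EE.nt, EE.v, E.val, NumIs.lkR] at hp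
    push_cast at hp
    linarith only [hc0, hp]
  · simp only [S_val, F_val, N_val, ui_val, EE.pa, EE.pb, EE.pc, EE.kT, nyy, EE.x, EE.T, EE.p, EE.t, EE.nt, EE.v, E.val, NumIs.lkR] at hp
    push_cast at hp
    linarith only [hc1, hp]
  · simp only [S_val, F_val, N_val, ui_val, EE.pa, EE.pb, EE.pc, EE.kT, nyy, EE.x, EE.T, EE.p, EE.t, EE.nt, EE.v, E.val, NumIs.lkR] at hp
    push_cast at hp
    linarith only [ua9, hp]

end S0R

end Pool.Agent.Work.MP_b30479_gtS.G2

end

section

/-!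
# Part of `S0RD`
-/
set_option linter.unusedSimpArgs false
set_option linter.unusedVariables false

set_option deprecated.oldSectionVars true

namespace Pool.Agent.Work.MP_b30479_gtS.G2

open VOL NumUs

namespace S0R

open NumUs.E EE

theorem e2_oc {x T p t : ℝ} (ua1 : 3000 / 10000 ≤ x) (ua2 : x ≤ 5000 / 10000) (ua3 : -(980 / 10000) ≤ T) (ua4 : T ≤ -(760 / 10000)) (ua5 : 2300 / 10000 ≤ p) (ua6 : p ≤ 4500 / 10000) (ua7 : -(1160 / 10000) ≤ t) (ua8 : t ≤ -(640 / 10000)) (ua9 : 7300 / 10000 ≤ x + p) (ua10 : x + p ≤ 7500 / 10000) :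
    rS (10 / 3) x T p t < 57 / 100 + 5 / 2 * (10 / 3 * T) ∨ rF (10 / 3) (80 / 100) (220 / 10000) x T p t < 57 / 100 + 5 / 2 * (10 / 3 * T) := by
  have h : chkT [sub (add (q 57 100) (mul (q 5 2) (kT 10 3))) (S 10 3), sub (add (q 57 100) (mul (q 5 2) (kT 10 3))) (F 10 3 pc (q 220 10000)), sub (q 7300 10000) EE.v, sub EE.v (q 7500 10000)] 30
    9384512553474
    [NumIs.V.of 10000 3000 5000, NumIs.V.of 10000 (-980) (-760), NumIs.V.of 10000 2300 4500, NumIs.V.of 10000 (-1160) (-640)] = true := by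
    decide +kernel
  obtain ⟨f, hf, hp⟩ := chkT4 h (by norm_num) (x := x) (y := T) (z := p) (w := t)
    (by norm_num; linarith only [ua1]) (by norm_num; linarith only [ua2]) (by norm_num; linarith only [ua3]) (by norm_num; linarith only [ua4]) (by norm_num; linarith only [ua5]) (by norm_num; linarith only [ua6]) (by norm_num; linarith only [ua7]) (by norm_num; linarith only [ua8])
  by_contra hc
  push Not at hc
  obtain ⟨hc0, hc1⟩ := hc
  simp only [List.mem_cons, List.not_mem_nil, or_false] at hf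
  rcases hf with rfl | rfl | rfl | rfl
  · simp only [S_val, F_val, N_val, ui_val, EE.pa, EE.pb, EE.pc, EE.kT, nyy, EE.x, EE.T, EE.p, EE.t, EE.nt, EE.v, E.val, NumIs.lkR] at hp
    push_cast at hp
    linarith only [hc0, hp]
  · simp only [S_val, F_val, N_val, ui_val, EE.pa, EE.pb, EE.pc, EE.kT, nyy, EE.x, EE.T, EE.p, EE.t, EE.nt, EE.v, E.val, NumIs.lkR] at hp
    push_cast at hp
    linarith only [hc1, hp]
  · simp only [S_val, F_val, N_val, ui_val, EE.pa, EE.pb, EE.pc, EE.kT, nyy, EE.x, EE.T, EE.p, EE.t, EE.nt, EE.v, E.val, NumIs.lkR] at hp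
    push_cast at hp
    linarith only [ua9, hp]
  · simp only [S_val, F_val, N_val, ui_val, EE.pa, EE.pb, EE.pc, EE.kT, nyy, EE.x, EE.T, EE.p, EE.t, EE.nt, EE.v, E.val, NumIs.lkR] at hp
    push_cast at hp
    linarith only [ua10, hp]

theorem e2_Za {x T p t : ℝ} (ua1 : 3000 / 10000 ≤ x) (ua2 : x ≤ 5000 / 10000) (ua3 : -(980 / 10000) ≤ T) (ua4 : T ≤ -(760 / 10000)) (ua5 : 1000 / 10000 ≤ p) (ua6 : p ≤ 1300 / 10000) (ua7 : -(1060 / 10000) ≤ t) (ua8 : t ≤ -(670 / 10000)) (ua9 : x + p ≤ 4300 / 10000) :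
    rS (10 / 3) x T p t < 57 / 100 + 5 / 2 * (10 / 3 * T) ∨ rF (10 / 3) (1 / 2) (570 / 10000) x T p t < 57 / 100 + 5 / 2 * (10 / 3 * T) := by
  have h : chkT [sub (add (q 57 100) (mul (q 5 2) (kT 10 3))) (S 10 3), sub (add (q 57 100) (mul (q 5 2) (kT 10 3))) (F 10 3 pa (q 570 10000)), sub EE.v (q 4300 10000)] 30
    8
    [NumIs.V.of 10000 3000 5000, NumIs.V.of 10000 (-980) (-760), NumIs.V.of 10000 1000 1300, NumIs.V.of 10000 (-1060) (-670)] = true := by
    decide +kernel
  obtain ⟨f, hf, hp⟩ := chkT4 h (by norm_num) (x := x) (y := T) (z := p) (w := t)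
    (by norm_num; linarith only [ua1]) (by norm_num; linarith only [ua2]) (by norm_num; linarith only [ua3]) (by norm_num; linarith only [ua4]) (by norm_num; linarith only [ua5]) (by norm_num; linarith only [ua6]) (by norm_num; linarith only [ua7]) (by norm_num; linarith only [ua8])
  by_contra hc
  push Not at hc
  obtain ⟨hc0, hc1⟩ := hc
  simp only [List.mem_cons, List.not_mem_nil, or_false] at hf
  rcases hf with rfl | rfl | rfl
  · simp only [S_val, F_val, N_val, ui_val, EE.pa, EE.pb, EE.pc, EE.kT, nyy, EE.x, EE.T, EE.p, EE.t, EE.nt, EE.v, E.val, NumIs.lkR] at hp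
    push_cast at hp
    linarith only [hc0, hp]
  · simp only [S_val, F_val, N_val, ui_val, EE.pa, EE.pb, EE.pc, EE.kT, nyy, EE.x, EE.T, EE.p, EE.t, EE.nt, EE.v, E.val, NumIs.lkR] at hp
    push_cast at hp
    linarith only [hc1, hp]
  · simp only [S_val, F_val, N_val, ui_val, EE.pa, EE.pb, EE.pc, EE.kT, nyy, EE.x, EE.T, EE.p, EE.t, EE.nt, EE.v, E.val, NumIs.lkR] at hp
    push_cast at hp
    linarith only [ua9, hp]

theorem e2_Zb {x T p t : ℝ} (ua1 : 3000 / 10000 ≤ x) (ua2 : x ≤ 5000 / 10000) (ua3 : -(980 / 10000) ≤ T) (ua4 : T ≤ -(760 / 10000)) (ua5 : 1000 / 10000 ≤ p) (ua6 : p ≤ 4300 / 10000) (ua7 : -(1060 / 10000) ≤ t) (ua8 : t ≤ -(670 / 10000)) (ua9 : 4300 / 10000 ≤ x + p) (ua10 : x + p ≤ 7300 / 10000) :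
    rS (10 / 3) x T p t < 57 / 100 + 5 / 2 * (10 / 3 * T) ∨ rF (10 / 3) (x + p + 7 / 100) (570 / 10000) x T p t < 57 / 100 + 5 / 2 * (10 / 3 * T) := by
  have h : chkT [sub (add (q 57 100) (mul (q 5 2) (kT 10 3))) (S 10 3), sub (add (q 57 100) (mul (q 5 2) (kT 10 3))) (F 10 3 pb (q 570 10000)), sub (q 4300 10000) EE.v, sub EE.v (q 7300 10000)] 30
    40186810818005584871970
    [NumIs.V.of 10000 3000 5000, NumIs.V.of 10000 (-980) (-760), NumIs.V.of 10000 1000 4300, NumIs.V.of 10000 (-1060) (-670)] = true := by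
    decide +kernel
  obtain ⟨f, hf, hp⟩ := chkT4 h (by norm_num) (x := x) (y := T) (z := p) (w := t)
    (by norm_num; linarith only [ua1]) (by norm_num; linarith only [ua2]) (by norm_num; linarith only [ua3]) (by norm_num; linarith only [ua4]) (by norm_num; linarith only [ua5]) (by norm_num; linarith only [ua6]) (by norm_num; linarith only [ua7]) (by norm_num; linarith only [ua8])
  by_contra hc
  push Not at hc
  obtain ⟨hc0, hc1⟩ := hc
  simp only [List.mem_cons, List.not_mem_nil, or_false] at hf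
  rcases hf with rfl | rfl | rfl | rfl
  · simp only [S_val, F_val, N_val, ui_val, EE.pa, EE.pb, EE.pc, EE.kT, nyy, EE.x, EE.T, EE.p, EE.t, EE.nt, EE.v, E.val, NumIs.lkR] at hp
    push_cast at hp
    linarith only [hc0, hp]
  · simp only [S_val, F_val, N_val, ui_val, EE.pa, EE.pb, EE.pc, EE.kT, nyy, EE.x, EE.T, EE.p, EE.t, EE.nt, EE.v, E.val, NumIs.lkR] at hp
    push_cast at hp
    linarith only [hc1, hp]
  · simp only [S_val, F_val, N_val, ui_val, EE.pa, EE.pb, EE.pc, EE.kT, nyy, EE.x, EE.T, EE.p, EE.t, EE.nt, EE.v, E.val, NumIs.lkR] at hp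
    push_cast at hp
    linarith only [ua9, hp]
  · simp only [S_val, F_val, N_val, ui_val, EE.pa, EE.pb, EE.pc, EE.kT, nyy, EE.x, EE.T, EE.p, EE.t, EE.nt, EE.v, E.val, NumIs.lkR] at hp
    push_cast at hp
    linarith only [ua10, hp]

theorem e2_Zc {x T p t : ℝ} (ua1 : 3000 / 10000 ≤ x) (ua2 : x ≤ 5000 / 10000) (ua3 : -(980 / 10000) ≤ T) (ua4 : T ≤ -(760 / 10000)) (ua5 : 2300 / 10000 ≤ p) (ua6 : p ≤ 4500 / 10000) (ua7 : -(1060 / 10000) ≤ t) (ua8 : t ≤ -(670 / 10000)) (ua9 : 7300 / 10000 ≤ x + p) (ua10 : x + p ≤ 7500 / 10000) :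
    rS (10 / 3) x T p t < 57 / 100 + 5 / 2 * (10 / 3 * T) ∨ rF (10 / 3) (80 / 100) (570 / 10000) x T p t < 57 / 100 + 5 / 2 * (10 / 3 * T) := by
  have h : chkT [sub (add (q 57 100) (mul (q 5 2) (kT 10 3))) (S 10 3), sub (add (q 57 100) (mul (q 5 2) (kT 10 3))) (F 10 3 pc (q 570 10000)), sub (q 7300 10000) EE.v, sub EE.v (q 7500 10000)] 30
    36643571970
    [NumIs.V.of 10000 3000 5000, NumIs.V.of 10000 (-980) (-760), NumIs.V.of 10000 2300 4500, NumIs.V.of 10000 (-1060) (-670)] = true := by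
    decide +kernel
  obtain ⟨f, hf, hp⟩ := chkT4 h (by norm_num) (x := x) (y := T) (z := p) (w := t)
    (by norm_num; linarith only [ua1]) (by norm_num; linarith only [ua2]) (by norm_num; linarith only [ua3]) (by norm_num; linarith only [ua4]) (by norm_num; linarith only [ua5]) (by norm_num; linarith only [ua6]) (by norm_num; linarith only [ua7]) (by norm_num; linarith only [ua8])
  by_contra hc
  push Not at hc
  obtain ⟨hc0, hc1⟩ := hc
  simp only [List.mem_cons, List.not_mem_nil, or_false] at hf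
  rcases hf with rfl | rfl | rfl | rfl
  · simp only [S_val, F_val, N_val, ui_val, EE.pa, EE.pb, EE.pc, EE.kT, nyy, EE.x, EE.T, EE.p, EE.t, EE.nt, EE.v, E.val, NumIs.lkR] at hp
    push_cast at hp
    linarith only [hc0, hp]
  · simp only [S_val, F_val, N_val, ui_val, EE.pa, EE.pb, EE.pc, EE.kT, nyy, EE.x, EE.T, EE.p, EE.t, EE.nt, EE.v, E.val, NumIs.lkR] at hp
    push_cast at hp
    linarith only [hc1, hp]
  · simp only [S_val, F_val, N_val, ui_val, EE.pa, EE.pb, EE.pc, EE.kT, nyy, EE.x, EE.T, EE.p, EE.t, EE.nt, EE.v, E.val, NumIs.lkR] at hp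
    push_cast at hp
    linarith only [ua9, hp]
  · simp only [S_val, F_val, N_val, ui_val, EE.pa, EE.pb, EE.pc, EE.kT, nyy, EE.x, EE.T, EE.p, EE.t, EE.nt, EE.v, E.val, NumIs.lkR] at hp
    push_cast at hp
    linarith only [ua10, hp]

end S0R

end Pool.Agent.Work.MP_b30479_gtS.G2

end

section

/-!
# Part of `S0RD`
-/
set_option linter.unusedSimpArgs false
set_option linter.unusedVariables false

set_option deprecated.oldSectionVars true

namespace Pool.Agent.Work.MP_b30479_gtS.G2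

open VOL NumUs

namespace S0R

open NumUs.E EE

theorem n2a {x T t : ℝ} (ua1 : 3600 / 10000 ≤ x) (ua2 : x ≤ 5000 / 10000) (ua3 : -(570 / 10000) ≤ T) (ua4 : T ≤ 0 / 10000) (ua5 : -(1140 / 10000) ≤ t) (ua6 : t ≤ 50 / 10000) :
    rN (100 / 27) (900 / 10000) (Real.pi + NumIs.lnB (900 / 10000) (t - rui (100 / 27) x T)) (x - 900 / 10000) x T t < 125 / 1000 + Real.pi * (1 / 2) * (100 / 27 * T) := by
  have h : chkT [sub (add (q 125 1000) (mul (mul pi (q 1 2)) (kT 100 27))) (N 100 27 (q 900 10000) (add pi (E.lnB (q 900 10000) (nyy 100 27))) (sub EE.x (q 900 10000)))] 30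
    613202619254571538
    [NumIs.V.of 10000 3600 5000, NumIs.V.of 10000 (-570) 0, NumIs.V.of 10000 (-1140) 50] = true := by
    decide +kernel
  obtain ⟨f, hf, hp⟩ := chkT3 h (by norm_num) (x := x) (y := T) (z := t)
    (by norm_num; linarith only [ua1]) (by norm_num; linarith only [ua2]) (by norm_num; linarith only [ua3]) (by norm_num; linarith only [ua4]) (by norm_num; linarith only [ua5]) (by norm_num; linarith only [ua6])
  by_contra hc
  push Not at hc
  simp only [List.mem_cons, List.not_mem_nil, or_false] at hf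
  rcases hf with rfl
  · simp only [S_val, F_val, N_val, ui_val, EE.pa, EE.pb, EE.pc, EE.kT, nyy, EE.x, EE.T, EE.p, EE.t, EE.nt, EE.v, E.val, NumIs.lkR] at hp
    push_cast at hp
    linarith only [hc, hp]

theorem n2b {x T t : ℝ} (ua1 : 3600 / 10000 ≤ x) (ua2 : x ≤ 5000 / 10000) (ua3 : -(570 / 10000) ≤ T) (ua4 : T ≤ 0 / 10000) (ua5 : -(1140 / 10000) ≤ t) (ua6 : t ≤ 50 / 10000) :
    rN (100 / 27) (1000 / 10000) (Real.pi * (1 / 2)) x x T t < 125 / 1000 + Real.pi * (1 / 2) * (100 / 27 * T) := by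
  have h : chkT [sub (add (q 125 1000) (mul (mul pi (q 1 2)) (kT 100 27))) (N 100 27 (q 1000 10000) (mul pi (q 1 2)) (EE.x))] 30
    559106
    [NumIs.V.of 10000 3600 5000, NumIs.V.of 10000 (-570) 0, NumIs.V.of 10000 (-1140) 50] = true := by
    decide +kernel
  obtain ⟨f, hf, hp⟩ := chkT3 h (by norm_num) (x := x) (y := T) (z := t)
    (by norm_num; linarith only [ua1]) (by norm_num; linarith only [ua2]) (by norm_num; linarith only [ua3]) (by norm_num; linarith only [ua4]) (by norm_num; linarith only [ua5]) (by norm_num; linarith only [ua6])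
  by_contra hc
  push Not at hc
  simp only [List.mem_cons, List.not_mem_nil, or_false] at hf
  rcases hf with rfl
  · simp only [S_val, F_val, N_val, ui_val, EE.pa, EE.pb, EE.pc, EE.kT, nyy, EE.x, EE.T, EE.p, EE.t, EE.nt, EE.v, E.val, NumIs.lkR] at hp
    push_cast at hp
    linarith only [hc, hp]

theorem n2c {x T t : ℝ} (ua1 : 3600 / 10000 ≤ x) (ua2 : x ≤ 5000 / 10000) (ua3 : 0 / 10000 ≤ T) (ua4 : T ≤ 50 / 10000) (ua5 : -(1140 / 10000) ≤ t) (ua6 : t ≤ 50 / 10000) :
    rN (100 / 27) (1000 / 10000) (-Real.pi) (x + 1000 / 10000) x T t < 125 / 1000 + Real.pi * (1 / 2) * (100 / 27 * T) := by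
  have h : chkT [sub (add (q 125 1000) (mul (mul pi (q 1 2)) (kT 100 27))) (N 100 27 (q 1000 10000) (neg pi) (add EE.x (q 1000 10000)))] 30
    8
    [NumIs.V.of 10000 3600 5000, NumIs.V.of 10000 0 50, NumIs.V.of 10000 (-1140) 50] = true := by
    decide +kernel
  obtain ⟨f, hf, hp⟩ := chkT3 h (by norm_num) (x := x) (y := T) (z := t)
    (by norm_num; linarith only [ua1]) (by norm_num; linarith only [ua2]) (by norm_num; linarith only [ua3]) (by norm_num; linarith only [ua4]) (by norm_num; linarith only [ua5]) (by norm_num; linarith only [ua6])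
  by_contra hc
  push Not at hc
  simp only [List.mem_cons, List.not_mem_nil, or_false] at hf
  rcases hf with rfl
  · simp only [S_val, F_val, N_val, ui_val, EE.pa, EE.pb, EE.pc, EE.kT, nyy, EE.x, EE.T, EE.p, EE.t, EE.nt, EE.v, E.val, NumIs.lkR] at hp
    push_cast at hp
    linarith only [hc, hp]

theorem n2ea {x T t : ℝ} (ua1 : 3000 / 10000 ≤ x) (ua2 : x ≤ 5000 / 10000) (ua3 : -(980 / 10000) ≤ T) (ua4 : T ≤ -(760 / 10000)) (ua5 : -(1230 / 10000) ≤ t) (ua6 : t ≤ -(640 / 10000)) (ua7 : t - rui (10 / 3) x T ≤ 0) :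
    rN (10 / 3) (700 / 10000) (Real.pi + NumIs.lnB (700 / 10000) (t - rui (10 / 3) x T)) (x - 700 / 10000) x T t < 57 / 100 + 5 / 2 * (10 / 3 * T) := by
  have h : chkT [sub (add (q 57 100) (mul (q 5 2) (kT 10 3))) (N 10 3 (q 700 10000) (add pi (E.lnB (q 700 10000) (nyy 10 3))) (sub EE.x (q 700 10000))), nyy 10 3] 30
    44297417183706407593280706252447776
    [NumIs.V.of 10000 3000 5000, NumIs.V.of 10000 (-980) (-760), NumIs.V.of 10000 (-1230) (-640)] = true := by
    decide +kernel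
  obtain ⟨f, hf, hp⟩ := chkT3 h (by norm_num) (x := x) (y := T) (z := t)
    (by norm_num; linarith only [ua1]) (by norm_num; linarith only [ua2]) (by norm_num; linarith only [ua3]) (by norm_num; linarith only [ua4]) (by norm_num; linarith only [ua5]) (by norm_num; linarith only [ua6])
  by_contra hc
  push Not at hc
  simp only [List.mem_cons, List.not_mem_nil, or_false] at hf
  rcases hf with rfl | rfl
  · simp only [S_val, F_val, N_val, ui_val, EE.pa, EE.pb, EE.pc, EE.kT, nyy, EE.x, EE.T, EE.p, EE.t, EE.nt, EE.v, E.val, NumIs.lkR] at hp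
    push_cast at hp
    linarith only [hc, hp]
  · simp only [S_val, F_val, N_val, ui_val, EE.pa, EE.pb, EE.pc, EE.kT, nyy, EE.x, EE.T, EE.p, EE.t, EE.nt, EE.v, E.val, NumIs.lkR] at hp
    push_cast at hp
    linarith only [ua7, hp]

theorem n2ez {x T t : ℝ} (ua1 : 3000 / 10000 ≤ x) (ua2 : x ≤ 5000 / 10000) (ua3 : -(980 / 10000) ≤ T) (ua4 : T ≤ -(760 / 10000)) (ua5 : -(1230 / 10000) ≤ t) (ua6 : t ≤ -(640 / 10000)) (ua7 : 0 ≤ t - rui (10 / 3) x T) :
    rN (10 / 3) (700 / 10000) 0 (x - 700 / 10000) x T t < 57 / 100 + 5 / 2 * (10 / 3 * T) := by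
  have h : chkT [sub (add (q 57 100) (mul (q 5 2) (kT 10 3))) (N 10 3 (q 700 10000) (q 0 1) (sub EE.x (q 700 10000))), neg (nyy 10 3)] 30
    8
    [NumIs.V.of 10000 3000 5000, NumIs.V.of 10000 (-980) (-760), NumIs.V.of 10000 (-1230) (-640)] = true := by
    decide +kernel
  obtain ⟨f, hf, hp⟩ := chkT3 h (by norm_num) (x := x) (y := T) (z := t)
    (by norm_num; linarith only [ua1]) (by norm_num; linarith only [ua2]) (by norm_num; linarith only [ua3]) (by norm_num; linarith only [ua4]) (by norm_num; linarith only [ua5]) (by norm_num; linarith only [ua6])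
  by_contra hc
  push Not at hc
  simp only [List.mem_cons, List.not_mem_nil, or_false] at hf
  rcases hf with rfl | rfl
  · simp only [S_val, F_val, N_val, ui_val, EE.pa, EE.pb, EE.pc, EE.kT, nyy, EE.x, EE.T, EE.p, EE.t, EE.nt, EE.v, E.val, NumIs.lkR] at hp
    push_cast at hp
    linarith only [hc, hp]
  · simp only [S_val, F_val, N_val, ui_val, EE.pa, EE.pb, EE.pc, EE.kT, nyy, EE.x, EE.T, EE.p, EE.t, EE.nt, EE.v, E.val, NumIs.lkR] at hp
    push_cast at hp
    linarith only [ua7, hp]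

theorem n2eb {x T t : ℝ} (ua1 : 3000 / 10000 ≤ x) (ua2 : x ≤ 5000 / 10000) (ua3 : -(980 / 10000) ≤ T) (ua4 : T ≤ -(760 / 10000)) (ua5 : -(1230 / 10000) ≤ t) (ua6 : t ≤ -(640 / 10000)) :
    rN (10 / 3) (1000 / 10000) (Real.pi * (1 / 2)) x x T t < 57 / 100 + 5 / 2 * (10 / 3 * T) := by
  have h : chkT [sub (add (q 57 100) (mul (q 5 2) (kT 10 3))) (N 10 3 (q 1000 10000) (mul pi (q 1 2)) (EE.x))] 30
    2176
    [NumIs.V.of 10000 3000 5000, NumIs.V.of 10000 (-980) (-760), NumIs.V.of 10000 (-1230) (-640)] = true := by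
    decide +kernel
  obtain ⟨f, hf, hp⟩ := chkT3 h (by norm_num) (x := x) (y := T) (z := t)
    (by norm_num; linarith only [ua1]) (by norm_num; linarith only [ua2]) (by norm_num; linarith only [ua3]) (by norm_num; linarith only [ua4]) (by norm_num; linarith only [ua5]) (by norm_num; linarith only [ua6])
  by_contra hc
  push Not at hc
  simp only [List.mem_cons, List.not_mem_nil, or_false] at hf
  rcases hf with rfl
  · simp only [S_val, F_val, N_val, ui_val, EE.pa, EE.pb, EE.pc, EE.kT, nyy, EE.x, EE.T, EE.p, EE.t, EE.nt, EE.v, E.val, NumIs.lkR] at hp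
    push_cast at hp
    linarith only [hc, hp]

theorem n3a {x T t : ℝ} (ua1 : 3000 / 10000 ≤ x) (ua2 : x ≤ 4000 / 10000) (ua3 : -(280 / 10000) ≤ T) (ua4 : T ≤ 0 / 10000) (ua5 : -(1140 / 10000) ≤ t) (ua6 : t ≤ 50 / 10000) :
    rN (10 / 3) (1300 / 10000) (Real.pi + NumIs.lnB (1300 / 10000) (t - rui (10 / 3) x T)) (x - 1300 / 10000) x T t < 66 / 100 - 3 / 2 * x := by
  have h : chkT [sub (sub (q 66 100) (mul (q 3 2) EE.x)) (N 10 3 (q 1300 10000) (add pi (E.lnB (q 1300 10000) (nyy 10 3))) (sub EE.x (q 1300 10000)))] 30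
    2178
    [NumIs.V.of 10000 3000 4000, NumIs.V.of 10000 (-280) 0, NumIs.V.of 10000 (-1140) 50] = true := by
    decide +kernel
  obtain ⟨f, hf, hp⟩ := chkT3 h (by norm_num) (x := x) (y := T) (z := t)
    (by norm_num; linarith only [ua1]) (by norm_num; linarith only [ua2]) (by norm_num; linarith only [ua3]) (by norm_num; linarith only [ua4]) (by norm_num; linarith only [ua5]) (by norm_num; linarith only [ua6])
  by_contra hc
  push Not at hc
  simp only [List.mem_cons, List.not_mem_nil, or_false] at hf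
  rcases hf with rfl
  · simp only [S_val, F_val, N_val, ui_val, EE.pa, EE.pb, EE.pc, EE.kT, nyy, EE.x, EE.T, EE.p, EE.t, EE.nt, EE.v, E.val, NumIs.lkR] at hp
    push_cast at hp
    linarith only [hc, hp]

end S0R

end Pool.Agent.Work.MP_b30479_gtS.G2

end

section

/-!
# Part of `S0RV2`
-/
set_option linter.unusedSimpArgs false
set_option linter.unusedVariables false

set_option deprecated.oldSectionVars true

namespace Pool.Agent.Work.MP_b30479_gtS.G2

open VOL NumUs

namespace S0R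

open NumUs.E EV

theorem z1rn_h1_q6 : Pool.Agent.Work.NumUs.runT [R 10 3 (q 4000 10000) (1), sub (mul (q (-1145) 1500) EV.w) EV.b, sub (sub EV.T EV.t) (q 1050 10000), sub h (a 10 3)] 38
    37120406542826322175808441778388035103503070730239876137875213965042364637033239695294738124222524859712157091937931456514898092020027104233191681523348122913560307890955431668008528389189
    (Pool.Agent.Work.NumIs.setL 0 (Pool.Agent.Work.NumIs.setR 2 ([NumIs.V.of 10000 3000 3800, NumIs.V.of 10000 0 570, NumIs.V.of 10000 700 3900, NumIs.V.of 10000 (-1145) (-98), NumIs.V.of 10000 0 500, NumIs.V.of 10000 (-1140) (-150)]))) =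
    78266134701532902170689053526322150755973834420578647228799083601421901723192855819096270861243552033678406 := by
  decide +kernel

theorem z1rn_h1_q7 : Pool.Agent.Work.NumUs.runT [R 10 3 (q 4000 10000) (1), sub (mul (q (-1145) 1500) EV.w) EV.b, sub (sub EV.T EV.t) (q 1050 10000), sub h (a 10 3)] 38
    78266134701532902170689053526322150755973834420578647228799083601421901723192855819096270861243552033678405
    (Pool.Agent.Work.NumIs.setR 0 (Pool.Agent.Work.NumIs.setR 2 ([NumIs.V.of 10000 3000 3800, NumIs.V.of 10000 0 570, NumIs.V.of 10000 700 3900, NumIs.V.of 10000 (-1145) (-98), NumIs.V.of 10000 0 500, NumIs.V.of 10000 (-1140) (-150)]))) =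
    1 := by
  decide +kernel

theorem z1rm {x T w b r t : ℝ} (ua1 : 3000 / 10000 ≤ x) (ua2 : x ≤ 3800 / 10000) (ua3 : -(280 / 10000) ≤ T) (ua4 : T ≤ 0 / 10000) (ua5 : 700 / 10000 ≤ w) (ua6 : w ≤ 3900 / 10000) (ua7 : -(1145 / 10000) ≤ b) (ua8 : b ≤ -(98 / 10000)) (ua9 : 0 / 10000 ≤ r) (ua10 : r ≤ 500 / 10000) (ua11 : -(1140 / 10000) ≤ t) (ua12 : t ≤ -(150 / 10000)) (ua13 : -(1145 / 1500) * w ≤ b) (ua14 : 20 * (t * r) ≤ rui (10 / 3) x T) :
    0 < rE (4000 / 10000) (1) x (rui (10 / 3) x T) w b r t := by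
  have h : chkT [R 10 3 (q 4000 10000) (1), sub (mul (q (-1145) 1500) EV.w) EV.b, sub h (a 10 3)] 40
    5116375420593642089645576857590487496572793378399797604852526649818981654821965401248097367761904474559167611474
    [NumIs.V.of 10000 3000 3800, NumIs.V.of 10000 (-280) 0, NumIs.V.of 10000 700 3900, NumIs.V.of 10000 (-1145) (-98), NumIs.V.of 10000 0 500, NumIs.V.of 10000 (-1140) (-150)] = true := by
    decide +kernel
  obtain ⟨f, hf, hp⟩ := chkT_sound h (xs := [x, T, w, b, r, t])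
    (List.Forall₂.cons (NumIs.V.of_mem (by norm_num) (by norm_num; linarith only [ua1]) (by norm_num; linarith only [ua2])) (List.Forall₂.cons (NumIs.V.of_mem (by norm_num) (by norm_num; linarith only [ua3]) (by norm_num; linarith only [ua4])) (List.Forall₂.cons (NumIs.V.of_mem (by norm_num) (by norm_num; linarith only [ua5]) (by norm_num; linarith only [ua6])) (List.Forall₂.cons (NumIs.V.of_mem (by norm_num) (by norm_num; linarith only [ua7]) (by norm_num; linarith only [ua8])) (List.Forall₂.cons (NumIs.V.of_mem (by norm_num) (by norm_num; linarith only [ua9]) (by norm_num; linarith only [ua10])) (List.Forall₂.cons (NumIs.V.of_mem (by norm_num) (by norm_num; linarith only [ua11]) (by norm_num; linarith only [ua12])) List.Forall₂.nil))))))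
  by_contra hc
  push Not at hc
  simp only [List.mem_cons, List.not_mem_nil, or_false] at hf
  rcases hf with rfl | rfl | rfl
  · simp only [D_val, R_val, h_val, EE.ui_val, EV.a, EV.x, EV.T, EV.w, EV.b, EV.r, EV.t, E.val, NumIs.lkR] at hp
    push_cast at hp
    linarith only [hc, hp]
  · simp only [D_val, R_val, h_val, EE.ui_val, EV.a, EV.x, EV.T, EV.w, EV.b, EV.r, EV.t, E.val, NumIs.lkR] at hp
    push_cast at hp
    linarith only [ua13, hp]
  · simp only [D_val, R_val, h_val, EE.ui_val, EV.a, EV.x, EV.T, EV.w, EV.b, EV.r, EV.t, E.val, NumIs.lkR] at hp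
    push_cast at hp
    linarith only [ua14, hp]

end S0R

end Pool.Agent.Work.MP_b30479_gtS.G2

end

section

/-!
# Part of `S0RX`
-/
set_option linter.unusedSimpArgs false
set_option linter.unusedVariables false

set_option deprecated.oldSectionVars true

namespace Pool.Agent.Work.MP_b30479_gtS.G2

open VOL NumUs

namespace S0R

open NumUs.E EV

theorem xon_h1_q5 : Pool.Agent.Work.NumUs.runT [D 10 3 (q 4200 10000) (1), sub EV.r (sub EV.x (q 1300 10000)), sub (mul (q (-98) 130) EV.w) EV.b, sub (sub EV.T EV.t) (q 1000 10000), sub EV.t (a 10 3)] 37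
    79162307501144384523364118689370952803975750277387596524584507788971681082280525852909906230714555440557190866068809518879679422561567625707501616548267759439475541410915671909981892575313973705214842581731529076575944007424271209463191059266756683508228847273356733387247459953292609
    (Pool.Agent.Work.NumIs.setL 5 (Pool.Agent.Work.NumIs.setR 0 (Pool.Agent.Work.NumIs.setR 4 ([NumIs.V.of 10000 3000 3800, NumIs.V.of 10000 0 570, NumIs.V.of 10000 3100 3900, NumIs.V.of 10000 (-980) 220, NumIs.V.of 10000 500 2500, NumIs.V.of 10000 (-1040) 50])))) =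
    5121072510594876399196834036527985037725083763535765954082339176414068117875592964167808660164221191118857450578 := by
  decide +kernel

theorem xon_h1_q6 : Pool.Agent.Work.NumUs.runT [D 10 3 (q 4200 10000) (1), sub EV.r (sub EV.x (q 1300 10000)), sub (mul (q (-98) 130) EV.w) EV.b, sub (sub EV.T EV.t) (q 1000 10000), sub EV.t (a 10 3)] 37
    5121072510594876399196834036527985037725083763535765954082339176414068117875592964167808660164221191118857450577
    (Pool.Agent.Work.NumIs.setR 5 (Pool.Agent.Work.NumIs.setR 0 (Pool.Agent.Work.NumIs.setR 4 ([NumIs.V.of 10000 3000 3800, NumIs.V.of 10000 0 570, NumIs.V.of 10000 3100 3900, NumIs.V.of 10000 (-980) 220, NumIs.V.of 10000 500 2500, NumIs.V.of 10000 (-1040) 50])))) =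
    1 := by
  decide +kernel

theorem xom {x T w b r t : ℝ} (ua1 : 3000 / 10000 ≤ x) (ua2 : x ≤ 3800 / 10000) (ua3 : -(280 / 10000) ≤ T) (ua4 : T ≤ 0 / 10000) (ua5 : 3100 / 10000 ≤ w) (ua6 : w ≤ 3900 / 10000) (ua7 : -(980 / 10000) ≤ b) (ua8 : b ≤ 220 / 10000) (ua9 : 500 / 10000 ≤ r) (ua10 : r ≤ 2500 / 10000) (ua11 : -(1040 / 10000) ≤ t) (ua12 : t ≤ 50 / 10000) (ua13 : r ≤ x - 1300 / 10000) (ua14 : -(98 / 130) * w ≤ b) (ua15 : t ≤ rui (10 / 3) x T) :
    0 < rD (4200 / 10000) (1) x (rui (10 / 3) x T) w b r t := by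
  have h : chkT [D 10 3 (q 4200 10000) (1), sub EV.r (sub EV.x (q 1300 10000)), sub (mul (q (-98) 130) EV.w) EV.b, sub EV.t (a 10 3)] 40
    897430233202820230878975144953040500241106276444681707370251305044
    [NumIs.V.of 10000 3000 3800, NumIs.V.of 10000 (-280) 0, NumIs.V.of 10000 3100 3900, NumIs.V.of 10000 (-980) 220, NumIs.V.of 10000 500 2500, NumIs.V.of 10000 (-1040) 50] = true := by
    decide +kernel
  obtain ⟨f, hf, hp⟩ := chkT_sound h (xs := [x, T, w, b, r, t])
    (List.Forall₂.cons (NumIs.V.of_mem (by norm_num) (by norm_num; linarith only [ua1]) (by norm_num; linarith only [ua2])) (List.Forall₂.cons (NumIs.V.of_mem (by norm_num) (by norm_num; linarith only [ua3]) (by norm_num; linarith only [ua4])) (List.Forall₂.cons (NumIs.V.of_mem (by norm_num) (by norm_num; linarith only [ua5]) (by norm_num; linarith only [ua6])) (List.Forall₂.cons (NumIs.V.of_mem (by norm_num) (by norm_num; linarith only [ua7]) (by norm_num; linarith only [ua8])) (List.Forall₂.cons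 (NumIs.V.of_mem (by norm_num) (by norm_num; linarith only [ua9]) (by norm_num; linarith only [ua10])) (List.Forall₂.cons (NumIs.V.of_mem (by norm_num) (by norm_num; linarith only [ua11]) (by norm_num; linarith only [ua12])) List.Forall₂.nil))))))
  by_contra hc
  push Not at hc
  simp only [List.mem_cons, List.not_mem_nil, or_false] at hf
  rcases hf with rfl | rfl | rfl | rfl
  · simp only [D_val, R_val, h_val, EE.ui_val, EV.a, EV.x, EV.T, EV.w, EV.b, EV.r, EV.t, E.val, NumIs.lkR] at hp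
    push_cast at hp
    linarith only [hc, hp]
  · simp only [D_val, R_val, h_val, EE.ui_val, EV.a, EV.x, EV.T, EV.w, EV.b, EV.r, EV.t, E.val, NumIs.lkR] at hp
    push_cast at hp
    linarith only [ua13, hp]
  · simp only [D_val, R_val, h_val, EE.ui_val, EV.a, EV.x, EV.T, EV.w, EV.b, EV.r, EV.t, E.val, NumIs.lkR] at hp
    push_cast at hp
    linarith only [ua5, ua7, hp]
  · simp only [D_val, R_val, h_val, EE.ui_val, EV.a, EV.x, EV.T, EV.w, EV.b, EV.r, EV.t, E.val, NumIs.lkR] at hp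
    push_cast at hp
    linarith only [ua15, hp]

end S0R

end Pool.Agent.Work.MP_b30479_gtS.G2

end

section

/-!
# Part of `S0RX`
-/
set_option linter.unusedSimpArgs false
set_option linter.unusedVariables false

set_option deprecated.oldSectionVars true

namespace Pool.Agent.Work.MP_b30479_gtS.G2

open VOL NumUs

namespace S0R

open NumUs.E EV

theorem xop {x T w b r t : ℝ} (ua1 : 3000 / 10000 ≤ x) (ua2 : x ≤ 3800 / 10000) (ua3 : -(280 / 10000) ≤ T) (ua4 : T ≤ 70 / 10000) (ua5 : 3100 / 10000 ≤ w) (ua6 : w ≤ 3900 / 10000) (ua7 : -(980 / 10000) ≤ b) (ua8 : b ≤ 220 / 10000) (ua9 : 500 / 10000 ≤ r) (ua10 : r ≤ 2500 / 10000) (ua11 : -(280 / 10000) ≤ t) (ua12 : t ≤ 50 / 10000) (ua13 : r ≤ x - 1300 / 10000) (ua14 : -(98 / 130) * w ≤ b) (ua15 : rui (10 / 3) x T ≤ t) :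
    0 < rD (4200 / 10000) (-1) x (rui (10 / 3) x T) w b r t := by
  have h : chkT [D 10 3 (q 4200 10000) (-1), sub EV.r (sub EV.x (q 1300 10000)), sub (mul (q (-98) 130) EV.w) EV.b, sub (a 10 3) EV.t] 40
    9348133980228
    [NumIs.V.of 10000 3000 3800, NumIs.V.of 10000 (-280) 70, NumIs.V.of 10000 3100 3900, NumIs.V.of 10000 (-980) 220, NumIs.V.of 10000 500 2500, NumIs.V.of 10000 (-280) 50] = true := by
    decide +kernel
  obtain ⟨f, hf, hp⟩ := chkT_sound h (xs := [x, T, w, b, r, t])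
    (List.Forall₂.cons (NumIs.V.of_mem (by norm_num) (by norm_num; linarith only [ua1]) (by norm_num; linarith only [ua2])) (List.Forall₂.cons (NumIs.V.of_mem (by norm_num) (by norm_num; linarith only [ua3]) (by norm_num; linarith only [ua4])) (List.Forall₂.cons (NumIs.V.of_mem (by norm_num) (by norm_num; linarith only [ua5]) (by norm_num; linarith only [ua6])) (List.Forall₂.cons (NumIs.V.of_mem (by norm_num) (by norm_num; linarith only [ua7]) (by norm_num; linarith only [ua8])) (List.Forall₂.cons (NumIs.V.of_mem (by norm_num) (by norm_num; linarith only [ua9]) (by norm_num; linarith only [ua10])) (List.Forall₂.cons (NumIs.V.of_mem (by norm_num) (by norm_num; linarith only [ua11]) (by norm_num; linarith only [ua12])) List.Forall₂.nil))))))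
  by_contra hc
  push Not at hc
  simp only [List.mem_cons, List.not_mem_nil, or_false] at hf
  rcases hf with rfl | rfl | rfl | rfl
  · simp only [D_val, R_val, h_val, EE.ui_val, EV.a, EV.x, EV.T, EV.w, EV.b, EV.r, EV.t, E.val, NumIs.lkR] at hp
    push_cast at hp
    linarith only [hc, hp]
  · simp only [D_val, R_val, h_val, EE.ui_val, EV.a, EV.x, EV.T, EV.w, EV.b, EV.r, EV.t, E.val, NumIs.lkR] at hp
    push_cast at hp
    linarith only [ua13, hp]
  · simp only [D_val, R_val, h_val, EE.ui_val, EV.a, EV.x, EV.T, EV.w, EV.b, EV.r, EV.t, E.val, NumIs.lkR] at hp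
    push_cast at hp
    linarith only [ua5, ua7, hp]
  · simp only [D_val, R_val, h_val, EE.ui_val, EV.a, EV.x, EV.T, EV.w, EV.b, EV.r, EV.t, E.val, NumIs.lkR] at hp
    push_cast at hp
    linarith only [ua15, hp]

theorem xorn {x T w b r t : ℝ} (ua1 : 3000 / 10000 ≤ x) (ua2 : x ≤ 3800 / 10000) (ua3 : 0 / 10000 ≤ T) (ua4 : T ≤ 570 / 10000) (ua5 : 3100 / 10000 ≤ w) (ua6 : w ≤ 3900 / 10000) (ua7 : -(980 / 10000) ≤ b) (ua8 : b ≤ 220 / 10000) (ua9 : 0 / 10000 ≤ r) (ua10 : r ≤ 500 / 10000) (ua11 : -(1040 / 10000) ≤ t) (ua12 : t ≤ 50 / 10000) (ua13 : -(98 / 130) * w ≤ b) (ua14 : T - t ≤ 1000 / 10000) (ua15 : 20 * (t * r) ≤ rui (10 / 3) x T) :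
    0 < rE (4200 / 10000) (1) x (rui (10 / 3) x T) w b r t := by
  have h : chkT [R 10 3 (q 4200 10000) (1), sub (mul (q (-98) 130) EV.w) EV.b, sub (sub EV.T EV.t) (q 1000 10000), sub h (a 10 3)] 40
    1086285140616225465597686308630314031067319478720373550935905164606767642265128648428761413
    [NumIs.V.of 10000 3000 3800, NumIs.V.of 10000 0 570, NumIs.V.of 10000 3100 3900, NumIs.V.of 10000 (-980) 220, NumIs.V.of 10000 0 500, NumIs.V.of 10000 (-1040) 50] = true := by
    decide +kernel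
  obtain ⟨f, hf, hp⟩ := chkT_sound h (xs := [x, T, w, b, r, t])
    (List.Forall₂.cons (NumIs.V.of_mem (by norm_num) (by norm_num; linarith only [ua1]) (by norm_num; linarith only [ua2])) (List.Forall₂.cons (NumIs.V.of_mem (by norm_num) (by norm_num; linarith only [ua3]) (by norm_num; linarith only [ua4])) (List.Forall₂.cons (NumIs.V.of_mem (by norm_num) (by norm_num; linarith only [ua5]) (by norm_num; linarith only [ua6])) (List.Forall₂.cons (NumIs.V.of_mem (by norm_num) (by norm_num; linarith only [ua7]) (by norm_num; linarith only [ua8])) (List.Forall₂.cons (NumIs.V.of_mem (by norm_num) (by norm_num; linarith only [ua9]) (by norm_num; linarith only [ua10])) (List.Forall₂.cons (NumIs.V.of_mem (by norm_num) (by norm_num; linarith only [ua3, ua14]) (by norm_num; linarith only [ua12])) List.Forall₂.nil))))))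
  by_contra hc
  push Not at hc
  simp only [List.mem_cons, List.not_mem_nil, or_false] at hf
  rcases hf with rfl | rfl | rfl | rfl
  · simp only [D_val, R_val, h_val, EE.ui_val, EV.a, EV.x, EV.T, EV.w, EV.b, EV.r, EV.t, E.val, NumIs.lkR] at hp
    push_cast at hp
    linarith only [hc, hp]
  · simp only [D_val, R_val, h_val, EE.ui_val, EV.a, EV.x, EV.T, EV.w, EV.b, EV.r, EV.t, E.val, NumIs.lkR] at hp
    push_cast at hp
    linarith only [ua5, ua7, hp]
  · simp only [D_val, R_val, h_val, EE.ui_val, EV.a, EV.x, EV.T, EV.w, EV.b, EV.r, EV.t, E.val, NumIs.lkR] at hp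
    push_cast at hp
    linarith only [ua14, hp]
  · simp only [D_val, R_val, h_val, EE.ui_val, EV.a, EV.x, EV.T, EV.w, EV.b, EV.r, EV.t, E.val, NumIs.lkR] at hp
    push_cast at hp
    linarith only [ua15, hp]

end S0R

end Pool.Agent.Work.MP_b30479_gtS.G2

end
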