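import Pool.Agent.Work.MP_b30479_gt.TBS.G2.S0RC
import Pool.Agent.Work.MP_b30479_gt.TBS.NumU.Tree

section

/-!
# Part of `S0RF`
-/
set_option linter.unusedSimpArgs false
set_option linter.unusedVariables false

set_option deprecated.oldSectionVars true

namespace Pool.Agent.Work.MP_b30479_gtS.G2

open VOL NumUs

namespace S0R

open NumUs.E EE

theorem far3e_1b {x T p t : ℝ} (ua1 : 4000 / 10000 ≤ x) (ua2 : x ≤ 5000 / 10000) (ua3 : -(280 / 10000) ≤ T) (ua4 : T ≤ -(50 / 10000)) (ua5 : 1000 / 10000 ≤ p) (ua6 : p ≤ 3300 / 10000) (ua7 : -(1140 / 10000) ≤ t) (ua8 : t ≤ -(150 / 10000)) (ua9 : T - t ≤ 1050 / 10000) (ua10 : 4300 / 10000 ≤ x + p) (ua11 : x + p ≤ 7300 / 10000) :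
    rS (10 / 3) x T p t < -(35 / 1000) ∨ rF (10 / 3) (x + p + 7 / 100) (-98 / 10000) x T p t < -(35 / 1000) := by
  have h : chkT [sub (q (-35) 1000) (S 10 3), sub (q (-35) 1000) (F 10 3 pb (q (-98) 10000)), sub (sub EE.T EE.t) (q 1050 10000), sub (q 4300 10000) EE.v, sub EE.v (q 7300 10000)] 30
    414376991726055654804777164361445736959403306863314449546780912291026210357803760533379573214609365997448108229202447716047135522
    [NumIs.V.of 10000 4000 5000, NumIs.V.of 10000 (-280) (-50), NumIs.V.of 10000 1000 3300, NumIs.V.of 10000 (-1140) (-150)] = true := by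
    decide +kernel
  obtain ⟨f, hf, hp⟩ := chkT4 h (by norm_num) (x := x) (y := T) (z := p) (w := t)
    (by norm_num; linarith only [ua1]) (by norm_num; linarith only [ua2]) (by norm_num; linarith only [ua3]) (by norm_num; linarith only [ua4]) (by norm_num; linarith only [ua5]) (by norm_num; linarith only [ua6]) (by norm_num; linarith only [ua7]) (by norm_num; linarith only [ua8])
  by_contra hc
  push Not at hc
  obtain ⟨hc0, hc1⟩ := hc
  simp only [List.mem_cons, List.not_mem_nil, or_false] at hf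
  rcases hf with rfl | rfl | rfl | rfl | rfl
  · simp only [S_val, F_val, N_val, ui_val, EE.pa, EE.pb, EE.pc, EE.kT, nyy, EE.x, EE.T, EE.p, EE.t, EE.nt, EE.v, E.val, NumIs.lkR] at hp
    push_cast at hp
    linarith only [hc0, hp]
  · simp only [S_val, F_val, N_val, ui_val, EE.pa, EE.pb, EE.pc, EE.kT, nyy, EE.x, EE.T, EE.p, EE.t, EE.nt, EE.v, E.val, NumIs.lkR] at hp
    push_cast at hp
    linarith only [hc1, hp]
  · simp only [S_val, F_val, N_val, ui_val, EE.pa, EE.pb, EE.pc, EE.kT, nyy, EE.x, EE.T, EE.p, EE.t, EE.nt, EE.v, E.val, NumIs.lkR] at hp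
    push_cast at hp
    linarith only [ua9, hp]
  · simp only [S_val, F_val, N_val, ui_val, EE.pa, EE.pb, EE.pc, EE.kT, nyy, EE.x, EE.T, EE.p, EE.t, EE.nt, EE.v, E.val, NumIs.lkR] at hp
    push_cast at hp
    linarith only [ua1, ua5, hp]
  · simp only [S_val, F_val, N_val, ui_val, EE.pa, EE.pb, EE.pc, EE.kT, nyy, EE.x, EE.T, EE.p, EE.t, EE.nt, EE.v, E.val, NumIs.lkR] at hp
    push_cast at hp
    linarith only [ua11, hp]

theorem far3e_1c {x T p t : ℝ} (ua1 : 4000 / 10000 ≤ x) (ua2 : x ≤ 5000 / 10000) (ua3 : -(280 / 10000) ≤ T) (ua4 : T ≤ -(50 / 10000)) (ua5 : 2300 / 10000 ≤ p) (ua6 : p ≤ 3500 / 10000) (ua7 : -(1140 / 10000) ≤ t) (ua8 : t ≤ -(150 / 10000)) (ua9 : T - t ≤ 1050 / 10000) (ua10 : 7300 / 10000 ≤ x + p) (ua11 : x + p ≤ 7500 / 10000) :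
    rS (10 / 3) x T p t < -(35 / 1000) ∨ rF (10 / 3) (80 / 100) (-98 / 10000) x T p t < -(35 / 1000) := by
  have h : chkT [sub (q (-35) 1000) (S 10 3), sub (q (-35) 1000) (F 10 3 pc (q (-98) 10000)), sub (sub EE.T EE.t) (q 1050 10000), sub (q 7300 10000) EE.v, sub EE.v (q 7500 10000)] 30
    73007860517602821181479926855472297101651841074
    [NumIs.V.of 10000 4000 5000, NumIs.V.of 10000 (-280) (-50), NumIs.V.of 10000 2300 3500, NumIs.V.of 10000 (-1140) (-150)] = true := by
    decide +kernel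
  obtain ⟨f, hf, hp⟩ := chkT4 h (by norm_num) (x := x) (y := T) (z := p) (w := t)
    (by norm_num; linarith only [ua1]) (by norm_num; linarith only [ua2]) (by norm_num; linarith only [ua3]) (by norm_num; linarith only [ua4]) (by norm_num; linarith only [ua5]) (by norm_num; linarith only [ua6]) (by norm_num; linarith only [ua7]) (by norm_num; linarith only [ua8])
  by_contra hc
  push Not at hc
  obtain ⟨hc0, hc1⟩ := hc
  simp only [List.mem_cons, List.not_mem_nil, or_false] at hf
  rcases hf with rfl | rfl | rfl | rfl | rfl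
  · simp only [S_val, F_val, N_val, ui_val, EE.pa, EE.pb, EE.pc, EE.kT, nyy, EE.x, EE.T, EE.p, EE.t, EE.nt, EE.v, E.val, NumIs.lkR] at hp
    push_cast at hp
    linarith only [hc0, hp]
  · simp only [S_val, F_val, N_val, ui_val, EE.pa, EE.pb, EE.pc, EE.kT, nyy, EE.x, EE.T, EE.p, EE.t, EE.nt, EE.v, E.val, NumIs.lkR] at hp
    push_cast at hp
    linarith only [hc1, hp]
  · simp only [S_val, F_val, N_val, ui_val, EE.pa, EE.pb, EE.pc, EE.kT, nyy, EE.x, EE.T, EE.p, EE.t, EE.nt, EE.v, E.val, NumIs.lkR] at hp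
    push_cast at hp
    linarith only [ua9, hp]
  · simp only [S_val, F_val, N_val, ui_val, EE.pa, EE.pb, EE.pc, EE.kT, nyy, EE.x, EE.T, EE.p, EE.t, EE.nt, EE.v, E.val, NumIs.lkR] at hp
    push_cast at hp
    linarith only [ua10, hp]
  · simp only [S_val, F_val, N_val, ui_val, EE.pa, EE.pb, EE.pc, EE.kT, nyy, EE.x, EE.T, EE.p, EE.t, EE.nt, EE.v, E.val, NumIs.lkR] at hp
    push_cast at hp
    linarith only [ua11, hp]

theorem far3e_ob {x T p t : ℝ} (ua1 : 4000 / 10000 ≤ x) (ua2 : x ≤ 5000 / 10000) (ua3 : -(280 / 10000) ≤ T) (ua4 : T ≤ -(50 / 10000)) (ua5 : 1000 / 10000 ≤ p) (ua6 : p ≤ 3300 / 10000) (ua7 : -(1040 / 10000) ≤ t) (ua8 : t ≤ 50 / 10000) (ua9 : 4300 / 10000 ≤ x + p) (ua10 : x + p ≤ 7300 / 10000) :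
    rS (10 / 3) x T p t < -(35 / 1000) ∨ rF (10 / 3) (x + p + 7 / 100) (220 / 10000) x T p t < -(35 / 1000) := by
  have h : chkT [sub (q (-35) 1000) (S 10 3), sub (q (-35) 1000) (F 10 3 pb (q 220 10000)), sub (q 4300 10000) EE.v, sub EE.v (q 7300 10000)] 30
    16899141896486006423158151641940573615754299468209806917189199890932572962
    [NumIs.V.of 10000 4000 5000, NumIs.V.of 10000 (-280) (-50), NumIs.V.of 10000 1000 3300, NumIs.V.of 10000 (-1040) 50] = true := by
    decide +kernel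
  obtain ⟨f, hf, hp⟩ := chkT4 h (by norm_num) (x := x) (y := T) (z := p) (w := t)
    (by norm_num; linarith only [ua1]) (by norm_num; linarith only [ua2]) (by norm_num; linarith only [ua3]) (by norm_num; linarith only [ua4]) (by norm_num; linarith only [ua5]) (by norm_num; linarith only [ua6]) (by norm_num; linarith only [ua7]) (by norm_num; linarith only [ua8])
  by_contra hc
  push Not at hc
  obtain ⟨hc0, hc1⟩ := hc
  simp only [List.mem_cons, List.not_mem_nil, or_false] at hf
  rcases hf with rfl | rfl | rfl | rfl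
  · simp only [S_val, F_val, N_val, ui_val, EE.pa, EE.pb, EE.pc, EE.kT, nyy, EE.x, EE.T, EE.p, EE.t, EE.nt, EE.v, E.val, NumIs.lkR] at hp
    push_cast at hp
    linarith only [hc0, hp]
  · simp only [S_val, F_val, N_val, ui_val, EE.pa, EE.pb, EE.pc, EE.kT, nyy, EE.x, EE.T, EE.p, EE.t, EE.nt, EE.v, E.val, NumIs.lkR] at hp
    push_cast at hp
    linarith only [hc1, hp]
  · simp only [S_val, F_val, N_val, ui_val, EE.pa, EE.pb, EE.pc, EE.kT, nyy, EE.x, EE.T, EE.p, EE.t, EE.nt, EE.v, E.val, NumIs.lkR] at hp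
    push_cast at hp
    linarith only [ua1, ua5, hp]
  · simp only [S_val, F_val, N_val, ui_val, EE.pa, EE.pb, EE.pc, EE.kT, nyy, EE.x, EE.T, EE.p, EE.t, EE.nt, EE.v, E.val, NumIs.lkR] at hp
    push_cast at hp
    linarith only [ua10, hp]

end S0R

end Pool.Agent.Work.MP_b30479_gtS.G2

end

section

/-!
# Part of `S0RF`
-/
set_option linter.unusedSimpArgs false
set_option linter.unusedVariables false

set_option deprecated.oldSectionVars true

namespace Pool.Agent.Work.MP_b30479_gtS.G2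

open VOL NumUs

namespace S0R

open NumUs.E EE

theorem far3e_oc {x T p t : ℝ} (ua1 : 4000 / 10000 ≤ x) (ua2 : x ≤ 5000 / 10000) (ua3 : -(280 / 10000) ≤ T) (ua4 : T ≤ -(50 / 10000)) (ua5 : 2300 / 10000 ≤ p) (ua6 : p ≤ 3500 / 10000) (ua7 : -(1040 / 10000) ≤ t) (ua8 : t ≤ 50 / 10000) (ua9 : 7300 / 10000 ≤ x + p) (ua10 : x + p ≤ 7500 / 10000) :
    rS (10 / 3) x T p t < -(35 / 1000) ∨ rF (10 / 3) (80 / 100) (220 / 10000) x T p t < -(35 / 1000) := by
  have h : chkT [sub (q (-35) 1000) (S 10 3), sub (q (-35) 1000) (F 10 3 pc (q 220 10000)), sub (q 7300 10000) EE.v, sub EE.v (q 7500 10000)] 30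
    60879648916302635590211290619154482
    [NumIs.V.of 10000 4000 5000, NumIs.V.of 10000 (-280) (-50), NumIs.V.of 10000 2300 3500, NumIs.V.of 10000 (-1040) 50] = true := by
    decide +kernel
  obtain ⟨f, hf, hp⟩ := chkT4 h (by norm_num) (x := x) (y := T) (z := p) (w := t)
    (by norm_num; linarith only [ua1]) (by norm_num; linarith only [ua2]) (by norm_num; linarith only [ua3]) (by norm_num; linarith only [ua4]) (by norm_num; linarith only [ua5]) (by norm_num; linarith only [ua6]) (by norm_num; linarith only [ua7]) (by norm_num; linarith only [ua8])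
  by_contra hc
  push Not at hc
  obtain ⟨hc0, hc1⟩ := hc
  simp only [List.mem_cons, List.not_mem_nil, or_false] at hf
  rcases hf with rfl | rfl | rfl | rfl
  · simp only [S_val, F_val, N_val, ui_val, EE.pa, EE.pb, EE.pc, EE.kT, nyy, EE.x, EE.T, EE.p, EE.t, EE.nt, EE.v, E.val, NumIs.lkR] at hp
    push_cast at hp
    linarith only [hc0, hp]
  · simp only [S_val, F_val, N_val, ui_val, EE.pa, EE.pb, EE.pc, EE.kT, nyy, EE.x, EE.T, EE.p, EE.t, EE.nt, EE.v, E.val, NumIs.lkR] at hp
    push_cast at hp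
    linarith only [hc1, hp]
  · simp only [S_val, F_val, N_val, ui_val, EE.pa, EE.pb, EE.pc, EE.kT, nyy, EE.x, EE.T, EE.p, EE.t, EE.nt, EE.v, E.val, NumIs.lkR] at hp
    push_cast at hp
    linarith only [ua9, hp]
  · simp only [S_val, F_val, N_val, ui_val, EE.pa, EE.pb, EE.pc, EE.kT, nyy, EE.x, EE.T, EE.p, EE.t, EE.nt, EE.v, E.val, NumIs.lkR] at hp
    push_cast at hp
    linarith only [ua10, hp]

theorem far3e_Zb {x T p t : ℝ} (ua1 : 4000 / 10000 ≤ x) (ua2 : x ≤ 5000 / 10000) (ua3 : -(280 / 10000) ≤ T) (ua4 : T ≤ -(50 / 10000)) (ua5 : 1000 / 10000 ≤ p) (ua6 : p ≤ 3300 / 10000) (ua7 : -(920 / 10000) ≤ t) (ua8 : t ≤ 0 / 10000) (ua9 : 4300 / 10000 ≤ x + p) (ua10 : x + p ≤ 7300 / 10000) :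
    rS (10 / 3) x T p t < -(35 / 1000) ∨ rF (10 / 3) (x + p + 7 / 100) (570 / 10000) x T p t < -(35 / 1000) := by
  have h : chkT [sub (q (-35) 1000) (S 10 3), sub (q (-35) 1000) (F 10 3 pb (q 570 10000)), sub (q 4300 10000) EE.v, sub EE.v (q 7300 10000)] 30
    234529122643699600278196067806837533368788817402292372258
    [NumIs.V.of 10000 4000 5000, NumIs.V.of 10000 (-280) (-50), NumIs.V.of 10000 1000 3300, NumIs.V.of 10000 (-920) 0] = true := by
    decide +kernel
  obtain ⟨f, hf, hp⟩ := chkT4 h (by norm_num) (x := x) (y := T) (z := p) (w := t)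
    (by norm_num; linarith only [ua1]) (by norm_num; linarith only [ua2]) (by norm_num; linarith only [ua3]) (by norm_num; linarith only [ua4]) (by norm_num; linarith only [ua5]) (by norm_num; linarith only [ua6]) (by norm_num; linarith only [ua7]) (by norm_num; linarith only [ua8])
  by_contra hc
  push Not at hc
  obtain ⟨hc0, hc1⟩ := hc
  simp only [List.mem_cons, List.not_mem_nil, or_false] at hf
  rcases hf with rfl | rfl | rfl | rfl
  · simp only [S_val, F_val, N_val, ui_val, EE.pa, EE.pb, EE.pc, EE.kT, nyy, EE.x, EE.T, EE.p, EE.t, EE.nt, EE.v, E.val, NumIs.lkR] at hp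
    push_cast at hp
    linarith only [hc0, hp]
  · simp only [S_val, F_val, N_val, ui_val, EE.pa, EE.pb, EE.pc, EE.kT, nyy, EE.x, EE.T, EE.p, EE.t, EE.nt, EE.v, E.val, NumIs.lkR] at hp
    push_cast at hp
    linarith only [hc1, hp]
  · simp only [S_val, F_val, N_val, ui_val, EE.pa, EE.pb, EE.pc, EE.kT, nyy, EE.x, EE.T, EE.p, EE.t, EE.nt, EE.v, E.val, NumIs.lkR] at hp
    push_cast at hp
    linarith only [ua1, ua5, hp]
  · simp only [S_val, F_val, N_val, ui_val, EE.pa, EE.pb, EE.pc, EE.kT, nyy, EE.x, EE.T, EE.p, EE.t, EE.nt, EE.v, E.val, NumIs.lkR] at hp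
    push_cast at hp
    linarith only [ua10, hp]

theorem far3e_Zc {x T p t : ℝ} (ua1 : 4000 / 10000 ≤ x) (ua2 : x ≤ 5000 / 10000) (ua3 : -(280 / 10000) ≤ T) (ua4 : T ≤ -(50 / 10000)) (ua5 : 2300 / 10000 ≤ p) (ua6 : p ≤ 3500 / 10000) (ua7 : -(920 / 10000) ≤ t) (ua8 : t ≤ 0 / 10000) (ua9 : 7300 / 10000 ≤ x + p) (ua10 : x + p ≤ 7500 / 10000) :
    rS (10 / 3) x T p t < -(35 / 1000) ∨ rF (10 / 3) (80 / 100) (570 / 10000) x T p t < -(35 / 1000) := by
  have h : chkT [sub (q (-35) 1000) (S 10 3), sub (q (-35) 1000) (F 10 3 pc (q 570 10000)), sub (q 7300 10000) EE.v, sub EE.v (q 7500 10000)] 30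
    237809213144950034728241285183746
    [NumIs.V.of 10000 4000 5000, NumIs.V.of 10000 (-280) (-50), NumIs.V.of 10000 2300 3500, NumIs.V.of 10000 (-920) 0] = true := by
    decide +kernel
  obtain ⟨f, hf, hp⟩ := chkT4 h (by norm_num) (x := x) (y := T) (z := p) (w := t)
    (by norm_num; linarith only [ua1]) (by norm_num; linarith only [ua2]) (by norm_num; linarith only [ua3]) (by norm_num; linarith only [ua4]) (by norm_num; linarith only [ua5]) (by norm_num; linarith only [ua6]) (by norm_num; linarith only [ua7]) (by norm_num; linarith only [ua8])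
  by_contra hc
  push Not at hc
  obtain ⟨hc0, hc1⟩ := hc
  simp only [List.mem_cons, List.not_mem_nil, or_false] at hf
  rcases hf with rfl | rfl | rfl | rfl
  · simp only [S_val, F_val, N_val, ui_val, EE.pa, EE.pb, EE.pc, EE.kT, nyy, EE.x, EE.T, EE.p, EE.t, EE.nt, EE.v, E.val, NumIs.lkR] at hp
    push_cast at hp
    linarith only [hc0, hp]
  · simp only [S_val, F_val, N_val, ui_val, EE.pa, EE.pb, EE.pc, EE.kT, nyy, EE.x, EE.T, EE.p, EE.t, EE.nt, EE.v, E.val, NumIs.lkR] at hp
    push_cast at hp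
    linarith only [hc1, hp]
  · simp only [S_val, F_val, N_val, ui_val, EE.pa, EE.pb, EE.pc, EE.kT, nyy, EE.x, EE.T, EE.p, EE.t, EE.nt, EE.v, E.val, NumIs.lkR] at hp
    push_cast at hp
    linarith only [ua9, hp]
  · simp only [S_val, F_val, N_val, ui_val, EE.pa, EE.pb, EE.pc, EE.kT, nyy, EE.x, EE.T, EE.p, EE.t, EE.nt, EE.v, E.val, NumIs.lkR] at hp
    push_cast at hp
    linarith only [ua10, hp]

end S0R

end Pool.Agent.Work.MP_b30479_gtS.G2

end

section

/-!
# Part of `S0RX`
-/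
set_option linter.unusedSimpArgs false
set_option linter.unusedVariables false

set_option deprecated.oldSectionVars true

namespace Pool.Agent.Work.MP_b30479_gtS.G2

open VOL NumUs

namespace S0R

open NumUs.E EV

theorem xorm {x T w b r t : ℝ} (ua1 : 3000 / 10000 ≤ x) (ua2 : x ≤ 3800 / 10000) (ua3 : -(280 / 10000) ≤ T) (ua4 : T ≤ 0 / 10000) (ua5 : 3100 / 10000 ≤ w) (ua6 : w ≤ 3900 / 10000) (ua7 : -(980 / 10000) ≤ b) (ua8 : b ≤ 220 / 10000) (ua9 : 0 / 10000 ≤ r) (ua10 : r ≤ 500 / 10000) (ua11 : -(1040 / 10000) ≤ t) (ua12 : t ≤ 50 / 10000) (ua13 : -(98 / 130) * w ≤ b) (ua14 : 20 * (t * r) ≤ rui (10 / 3) x T) :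
    0 < rE (4200 / 10000) (1) x (rui (10 / 3) x T) w b r t := by
  have h : chkT [R 10 3 (q 4200 10000) (1), sub (mul (q (-98) 130) EV.w) EV.b, sub h (a 10 3)] 40
    9369613981765
    [NumIs.V.of 10000 3000 3800, NumIs.V.of 10000 (-280) 0, NumIs.V.of 10000 3100 3900, NumIs.V.of 10000 (-980) 220, NumIs.V.of 10000 0 500, NumIs.V.of 10000 (-1040) 50] = true := by
    decide +kernel
  obtain ⟨f, hf, hp⟩ := chkT_sound h (xs := [x, T, w, b, r, t])
    (List.Forall₂.cons (NumIs.V.of_mem (by norm_num) (by norm_num; linarith only [ua1]) (by norm_num; linarith only [ua2])) (List.Forall₂.cons (NumIs.V.of_mem (by norm_num) (by norm_num; linarith only [ua3]) (by norm_num; linarith only [ua4])) (List.Forall₂.cons (NumIs.V.of_mem (by norm_num) (by norm_num; linarith only [ua5]) (by norm_num; linarith only [ua6])) (List.Forall₂.cons (NumIs.V.of_mem (by norm_num) (by norm_num; linarith only [ua7]) (by norm_num; linarith only [ua8])) (List.Forall₂.cons (NumIs.V.of_mem (by norm_num)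 (by norm_num; linarith only [ua9]) (by norm_num; linarith only [ua10])) (List.Forall₂.cons (NumIs.V.of_mem (by norm_num) (by norm_num; linarith only [ua11]) (by norm_num; linarith only [ua12])) List.Forall₂.nil))))))
  by_contra hc
  push Not at hc
  simp only [List.mem_cons, List.not_mem_nil, or_false] at hf
  rcases hf with rfl | rfl | rfl
  · simp only [D_val, R_val, h_val, EE.ui_val, EV.a, EV.x, EV.T, EV.w, EV.b, EV.r, EV.t, E.val, NumIs.lkR] at hp
    push_cast at hp
    linarith only [hc, hp]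
  · simp only [D_val, R_val, h_val, EE.ui_val, EV.a, EV.x, EV.T, EV.w, EV.b, EV.r, EV.t, E.val, NumIs.lkR] at hp
    push_cast at hp
    linarith only [ua5, ua7, hp]
  · simp only [D_val, R_val, h_val, EE.ui_val, EV.a, EV.x, EV.T, EV.w, EV.b, EV.r, EV.t, E.val, NumIs.lkR] at hp
    push_cast at hp
    linarith only [ua14, hp]

theorem xorp {x T w b r t : ℝ} (ua1 : 3000 / 10000 ≤ x) (ua2 : x ≤ 3800 / 10000) (ua3 : -(280 / 10000) ≤ T) (ua4 : T ≤ 70 / 10000) (ua5 : 3100 / 10000 ≤ w) (ua6 : w ≤ 3900 / 10000) (ua7 : -(980 / 10000) ≤ b) (ua8 : b ≤ 220 / 10000) (ua9 : 0 / 10000 ≤ r) (ua10 : r ≤ 500 / 10000) (ua11 : -(1040 / 10000) ≤ t) (ua12 : t ≤ 50 / 10000) (ua13 : -(98 / 130) * w ≤ b) (ua14 : rui (10 / 3) x T ≤ 20 * (t * r)) :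
    0 < rE (4200 / 10000) (-1) x (rui (10 / 3) x T) w b r t := by
  have h : chkT [R 10 3 (q 4200 10000) (-1), sub (mul (q (-98) 130) EV.w) EV.b, sub (a 10 3) h] 40
    36644948053
    [NumIs.V.of 10000 3000 3800, NumIs.V.of 10000 (-280) 70, NumIs.V.of 10000 3100 3900, NumIs.V.of 10000 (-980) 220, NumIs.V.of 10000 0 500, NumIs.V.of 10000 (-1040) 50] = true := by
    decide +kernel
  obtain ⟨f, hf, hp⟩ := chkT_sound h (xs := [x, T, w, b, r, t])
    (List.Forall₂.cons (NumIs.V.of_mem (by norm_num) (by norm_num; linarith only [ua1]) (by norm_num; linarith only [ua2])) (List.Forall₂.cons (NumIs.V.of_mem (by norm_num) (by norm_num; linarith only [ua3]) (by norm_num; linarith only [ua4])) (List.Forall₂.cons (NumIs.V.of_mem (by norm_num) (by norm_num; linarith only [ua5]) (by norm_num; linarith only [ua6])) (List.Forall₂.cons (NumIs.V.of_mem (by norm_num) (by norm_num; linarith only [ua7]) (by norm_num; linarith only [ua8])) (List.Forall₂.cons (NumIs.V.of_mem (by norm_num)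 (by norm_num; linarith only [ua9]) (by norm_num; linarith only [ua10])) (List.Forall₂.cons (NumIs.V.of_mem (by norm_num) (by norm_num; linarith only [ua11]) (by norm_num; linarith only [ua12])) List.Forall₂.nil))))))
  by_contra hc
  push Not at hc
  simp only [List.mem_cons, List.not_mem_nil, or_false] at hf
  rcases hf with rfl | rfl | rfl
  · simp only [D_val, R_val, h_val, EE.ui_val, EV.a, EV.x, EV.T, EV.w, EV.b, EV.r, EV.t, E.val, NumIs.lkR] at hp
    push_cast at hp
    linarith only [hc, hp]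
  · simp only [D_val, R_val, h_val, EE.ui_val, EV.a, EV.x, EV.T, EV.w, EV.b, EV.r, EV.t, E.val, NumIs.lkR] at hp
    push_cast at hp
    linarith only [ua5, ua7, hp]
  · simp only [D_val, R_val, h_val, EE.ui_val, EV.a, EV.x, EV.T, EV.w, EV.b, EV.r, EV.t, E.val, NumIs.lkR] at hp
    push_cast at hp
    linarith only [ua14, hp]

end S0R

end Pool.Agent.Work.MP_b30479_gtS.G2

end

section

/-!
# Part of `S0RX`
-/
set_option linter.unusedSimpArgs false
set_option linter.unusedVariables false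

set_option deprecated.oldSectionVars true

namespace Pool.Agent.Work.MP_b30479_gtS.G2

open VOL NumUs

namespace S0R

open NumUs.E EV

theorem yorn {x T w b r t : ℝ} (ua1 : 3600 / 10000 ≤ x) (ua2 : x ≤ 3800 / 10000) (ua3 : -(570 / 10000) ≤ T) (ua4 : T ≤ 50 / 10000) (ua5 : 3100 / 10000 ≤ w) (ua6 : w ≤ 3900 / 10000) (ua7 : -(980 / 10000) ≤ b) (ua8 : b ≤ 220 / 10000) (ua9 : 0 / 10000 ≤ r) (ua10 : r ≤ 500 / 10000) (ua11 : -(1040 / 10000) ≤ t) (ua12 : t ≤ 50 / 10000) (ua13 : -(98 / 130) * w ≤ b) (ua14 : 20 * (t * r) ≤ rui (100 / 27) x T) :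
    0 < rE (4400 / 10000) (1) x (rui (100 / 27) x T) w b r t := by
  have h : chkT [R 100 27 (q 4400 10000) (1), sub (mul (q (-98) 130) EV.w) EV.b, sub h (a 100 27)] 40
    9369613981765
    [NumIs.V.of 10000 3600 3800, NumIs.V.of 10000 (-570) 50, NumIs.V.of 10000 3100 3900, NumIs.V.of 10000 (-980) 220, NumIs.V.of 10000 0 500, NumIs.V.of 10000 (-1040) 50] = true := by
    decide +kernel
  obtain ⟨f, hf, hp⟩ := chkT_sound h (xs := [x, T, w, b, r, t])
    (List.Forall₂.cons (NumIs.V.of_mem (by norm_num) (by norm_num; linarith only [ua1]) (by norm_num; linarith only [ua2])) (List.Forall₂.cons (NumIs.V.of_mem (by norm_num) (by norm_num; linarith only [ua3]) (by norm_num; linarith only [ua4])) (List.Forall₂.cons (NumIs.V.of_mem (by norm_num) (by norm_num; linarith only [ua5]) (by norm_num; linarith only [ua6])) (List.Forall₂.cons (NumIs.V.of_mem (by norm_num) (by norm_num; linarith only [ua7]) (by norm_num; linarith only [ua8])) (List.Forall₂.cons (NumIs.V.of_mem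 (by norm_num) (by norm_num; linarith only [ua9]) (by norm_num; linarith only [ua10])) (List.Forall₂.cons (NumIs.V.of_mem (by norm_num) (by norm_num; linarith only [ua11]) (by norm_num; linarith only [ua12])) List.Forall₂.nil))))))
  by_contra hc
  push Not at hc
  simp only [List.mem_cons, List.not_mem_nil, or_false] at hf
  rcases hf with rfl | rfl | rfl
  · simp only [D_val, R_val, h_val, EE.ui_val, EV.a, EV.x, EV.T, EV.w, EV.b, EV.r, EV.t, E.val, NumIs.lkR] at hp
    push_cast at hp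
    linarith only [hc, hp]
  · simp only [D_val, R_val, h_val, EE.ui_val, EV.a, EV.x, EV.T, EV.w, EV.b, EV.r, EV.t, E.val, NumIs.lkR] at hp
    push_cast at hp
    linarith only [ua5, ua7, hp]
  · simp only [D_val, R_val, h_val, EE.ui_val, EV.a, EV.x, EV.T, EV.w, EV.b, EV.r, EV.t, E.val, NumIs.lkR] at hp
    push_cast at hp
    linarith only [ua14, hp]

theorem yorp {x T w b r t : ℝ} (ua1 : 3600 / 10000 ≤ x) (ua2 : x ≤ 3800 / 10000) (ua3 : -(570 / 10000) ≤ T) (ua4 : T ≤ 50 / 10000) (ua5 : 3100 / 10000 ≤ w) (ua6 : w ≤ 3900 / 10000) (ua7 : -(980 / 10000) ≤ b) (ua8 : b ≤ 220 / 10000) (ua9 : 0 / 10000 ≤ r) (ua10 : r ≤ 500 / 10000) (ua11 : -(1040 / 10000) ≤ t) (ua12 : t ≤ 50 / 10000) (ua13 : -(98 / 130) * w ≤ b) (ua14 : t - T ≤ 280 / 10000) (ua15 : rui (100 / 27) x T ≤ 20 * (t * r)) :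
    0 < rE (4400 / 10000) (-1) x (rui (100 / 27) x T) w b r t := by
  have h : chkT [R 100 27 (q 4400 10000) (-1), sub (mul (q (-98) 130) EV.w) EV.b, sub (sub EV.t EV.T) (q 280 10000), sub (a 100 27) h] 40
    2401563313734485
    [NumIs.V.of 10000 3600 3800, NumIs.V.of 10000 (-570) 50, NumIs.V.of 10000 3100 3900, NumIs.V.of 10000 (-980) 220, NumIs.V.of 10000 0 500, NumIs.V.of 10000 (-1040) 50] = true := by
    decide +kernel
  obtain ⟨f, hf, hp⟩ := chkT_sound h (xs := [x, T, w, b, r, t])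
    (List.Forall₂.cons (NumIs.V.of_mem (by norm_num) (by norm_num; linarith only [ua1]) (by norm_num; linarith only [ua2])) (List.Forall₂.cons (NumIs.V.of_mem (by norm_num) (by norm_num; linarith only [ua3]) (by norm_num; linarith only [ua4])) (List.Forall₂.cons (NumIs.V.of_mem (by norm_num) (by norm_num; linarith only [ua5]) (by norm_num; linarith only [ua6])) (List.Forall₂.cons (NumIs.V.of_mem (by norm_num) (by norm_num; linarith only [ua7]) (by norm_num; linarith only [ua8])) (List.Forall₂.cons (NumIs.V.of_mem (by norm_num) (by norm_num; linarith only [ua9]) (by norm_num; linarith only [ua10])) (List.Forall₂.cons (NumIs.V.of_mem (by norm_num) (by norm_num; linarith only [ua11]) (by norm_num; linarith only [ua12])) List.Forall₂.nil))))))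
  by_contra hc
  push Not at hc
  simp only [List.mem_cons, List.not_mem_nil, or_false] at hf
  rcases hf with rfl | rfl | rfl | rfl
  · simp only [D_val, R_val, h_val, EE.ui_val, EV.a, EV.x, EV.T, EV.w, EV.b, EV.r, EV.t, E.val, NumIs.lkR] at hp
    push_cast at hp
    linarith only [hc, hp]
  · simp only [D_val, R_val, h_val, EE.ui_val, EV.a, EV.x, EV.T, EV.w, EV.b, EV.r, EV.t, E.val, NumIs.lkR] at hp
    push_cast at hp
    linarith only [ua5, ua7, hp]
  · simp only [D_val, R_val, h_val, EE.ui_val, EV.a, EV.x, EV.T, EV.w, EV.b, EV.r, EV.t, E.val, NumIs.lkR] at hp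
    push_cast at hp
    linarith only [ua14, hp]
  · simp only [D_val, R_val, h_val, EE.ui_val, EV.a, EV.x, EV.T, EV.w, EV.b, EV.r, EV.t, E.val, NumIs.lkR] at hp
    push_cast at hp
    linarith only [ua15, hp]

theorem fon {x T w b r t : ℝ} (ua1 : 3000 / 10000 ≤ x) (ua2 : x ≤ 3800 / 10000) (ua3 : -(980 / 10000) ≤ T) (ua4 : T ≤ -(760 / 10000)) (ua5 : 3100 / 10000 ≤ w) (ua6 : w ≤ 3900 / 10000) (ua7 : -(980 / 10000) ≤ b) (ua8 : b ≤ 220 / 10000) (ua9 : 500 / 10000 ≤ r) (ua10 : r ≤ 3100 / 10000) (ua11 : -(1160 / 10000) ≤ t) (ua12 : t ≤ -(640 / 10000)) (ua13 : r ≤ x - 700 / 10000) (ua14 : -(98 / 130) * w ≤ b) (ua15 : t ≤ rui (10 / 3) x T) :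
    0 < rD (4600 / 10000) (1) x (rui (10 / 3) x T) w b r t := by
  have h : chkT [D 10 3 (q 4600 10000) (1), sub EV.r (sub EV.x (q 700 10000)), sub (mul (q (-98) 130) EV.w) EV.b, sub EV.t (a 10 3)] 40
    10301927260444370187618372
    [NumIs.V.of 10000 3000 3800, NumIs.V.of 10000 (-980) (-760), NumIs.V.of 10000 3100 3900, NumIs.V.of 10000 (-980) 220, NumIs.V.of 10000 500 3100, NumIs.V.of 10000 (-1160) (-640)] = true := by
    decide +kernel
  obtain ⟨f, hf, hp⟩ := chkT_sound h (xs := [x, T, w, b, r, t])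
    (List.Forall₂.cons (NumIs.V.of_mem (by norm_num) (by norm_num; linarith only [ua1]) (by norm_num; linarith only [ua2])) (List.Forall₂.cons (NumIs.V.of_mem (by norm_num) (by norm_num; linarith only [ua3]) (by norm_num; linarith only [ua4])) (List.Forall₂.cons (NumIs.V.of_mem (by norm_num) (by norm_num; linarith only [ua5]) (by norm_num; linarith only [ua6])) (List.Forall₂.cons (NumIs.V.of_mem (by norm_num) (by norm_num; linarith only [ua7]) (by norm_num; linarith only [ua8])) (List.Forall₂.cons (NumIs.V.of_mem (by norm_num) (by norm_num; linarith only [ua9]) (by norm_num; linarith only [ua10])) (List.Forall₂.cons (NumIs.V.of_mem (by norm_num) (by norm_num; linarith only [ua11]) (by norm_num; linarith only [ua12])) List.Forall₂.nil))))))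
  by_contra hc
  push Not at hc
  simp only [List.mem_cons, List.not_mem_nil, or_false] at hf
  rcases hf with rfl | rfl | rfl | rfl
  · simp only [D_val, R_val, h_val, EE.ui_val, EV.a, EV.x, EV.T, EV.w, EV.b, EV.r, EV.t, E.val, NumIs.lkR] at hp
    push_cast at hp
    linarith only [hc, hp]
  · simp only [D_val, R_val, h_val, EE.ui_val, EV.a, EV.x, EV.T, EV.w, EV.b, EV.r, EV.t, E.val, NumIs.lkR] at hp
    push_cast at hp
    linarith only [ua13, hp]
  · simp only [D_val, R_val, h_val, EE.ui_val, EV.a, EV.x, EV.T, EV.w, EV.b, EV.r, EV.t, E.val, NumIs.lkR] at hp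
    push_cast at hp
    linarith only [ua5, ua7, hp]
  · simp only [D_val, R_val, h_val, EE.ui_val, EV.a, EV.x, EV.T, EV.w, EV.b, EV.r, EV.t, E.val, NumIs.lkR] at hp
    push_cast at hp
    linarith only [ua15, hp]

end S0R

end Pool.Agent.Work.MP_b30479_gtS.G2

end

section

/-!
# Part of `S0RX`
-/
set_option linter.unusedSimpArgs false
set_option linter.unusedVariables false

set_option deprecated.oldSectionVars true

namespace Pool.Agent.Work.MP_b30479_gtS.G2

open VOL NumUs

namespace S0R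

open NumUs.E EV

theorem fop {x T w b r t : ℝ} (ua1 : 3000 / 10000 ≤ x) (ua2 : x ≤ 3800 / 10000) (ua3 : -(980 / 10000) ≤ T) (ua4 : T ≤ -(760 / 10000)) (ua5 : 3100 / 10000 ≤ w) (ua6 : w ≤ 3900 / 10000) (ua7 : -(980 / 10000) ≤ b) (ua8 : b ≤ 220 / 10000) (ua9 : 500 / 10000 ≤ r) (ua10 : r ≤ 3100 / 10000) (ua11 : -(1160 / 10000) ≤ t) (ua12 : t ≤ -(640 / 10000)) (ua13 : r ≤ x - 700 / 10000) (ua14 : -(98 / 130) * w ≤ b) (ua15 : rui (10 / 3) x T ≤ t) :
    0 < rD (4600 / 10000) (-1) x (rui (10 / 3) x T) w b r t := by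
  have h : chkT [D 10 3 (q 4600 10000) (-1), sub EV.r (sub EV.x (q 700 10000)), sub (mul (q (-98) 130) EV.w) EV.b, sub (a 10 3) EV.t] 40
    40205009873100840895620
    [NumIs.V.of 10000 3000 3800, NumIs.V.of 10000 (-980) (-760), NumIs.V.of 10000 3100 3900, NumIs.V.of 10000 (-980) 220, NumIs.V.of 10000 500 3100, NumIs.V.of 10000 (-1160) (-640)] = true := by
    decide +kernel
  obtain ⟨f, hf, hp⟩ := chkT_sound h (xs := [x, T, w, b, r, t])
    (List.Forall₂.cons (NumIs.V.of_mem (by norm_num) (by norm_num; linarith only [ua1]) (by norm_num; linarith only [ua2])) (List.Forall₂.cons (NumIs.V.of_mem (by norm_num) (by norm_num; linarith only [ua3]) (by norm_num; linarith only [ua4])) (List.Forall₂.cons (NumIs.V.of_mem (by norm_num) (by norm_num; linarith only [ua5]) (by norm_num; linarith only [ua6])) (List.Forall₂.cons (NumIs.V.of_mem (by norm_num) (by norm_num; linarith only [ua7]) (by norm_num; linarith only [ua8])) (List.Forall₂.cons (NumIs.V.of_mem (by norm_num)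 (by norm_num; linarith only [ua9]) (by norm_num; linarith only [ua10])) (List.Forall₂.cons (NumIs.V.of_mem (by norm_num) (by norm_num; linarith only [ua11]) (by norm_num; linarith only [ua12])) List.Forall₂.nil))))))
  by_contra hc
  push Not at hc
  simp only [List.mem_cons, List.not_mem_nil, or_false] at hf
  rcases hf with rfl | rfl | rfl | rfl
  · simp only [D_val, R_val, h_val, EE.ui_val, EV.a, EV.x, EV.T, EV.w, EV.b, EV.r, EV.t, E.val, NumIs.lkR] at hp
    push_cast at hp
    linarith only [hc, hp]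
  · simp only [D_val, R_val, h_val, EE.ui_val, EV.a, EV.x, EV.T, EV.w, EV.b, EV.r, EV.t, E.val, NumIs.lkR] at hp
    push_cast at hp
    linarith only [ua13, hp]
  · simp only [D_val, R_val, h_val, EE.ui_val, EV.a, EV.x, EV.T, EV.w, EV.b, EV.r, EV.t, E.val, NumIs.lkR] at hp
    push_cast at hp
    linarith only [ua5, ua7, hp]
  · simp only [D_val, R_val, h_val, EE.ui_val, EV.a, EV.x, EV.T, EV.w, EV.b, EV.r, EV.t, E.val, NumIs.lkR] at hp
    push_cast at hp
    linarith only [ua15, hp]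

theorem forn {x T w b r t : ℝ} (ua1 : 3000 / 10000 ≤ x) (ua2 : x ≤ 3800 / 10000) (ua3 : -(980 / 10000) ≤ T) (ua4 : T ≤ -(760 / 10000)) (ua5 : 3100 / 10000 ≤ w) (ua6 : w ≤ 3900 / 10000) (ua7 : -(980 / 10000) ≤ b) (ua8 : b ≤ 220 / 10000) (ua9 : 0 / 10000 ≤ r) (ua10 : r ≤ 500 / 10000) (ua11 : -(1160 / 10000) ≤ t) (ua12 : t ≤ -(640 / 10000)) (ua13 : -(98 / 130) * w ≤ b) (ua14 : 20 * (t * r) ≤ rui (10 / 3) x T) :
    0 < rE (4600 / 10000) (1) x (rui (10 / 3) x T) w b r t := by
  have h : chkT [R 10 3 (q 4600 10000) (1), sub (mul (q (-98) 130) EV.w) EV.b, sub h (a 10 3)] 40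
    8
    [NumIs.V.of 10000 3000 3800, NumIs.V.of 10000 (-980) (-760), NumIs.V.of 10000 3100 3900, NumIs.V.of 10000 (-980) 220, NumIs.V.of 10000 0 500, NumIs.V.of 10000 (-1160) (-640)] = true := by
    decide +kernel
  obtain ⟨f, hf, hp⟩ := chkT_sound h (xs := [x, T, w, b, r, t])
    (List.Forall₂.cons (NumIs.V.of_mem (by norm_num) (by norm_num; linarith only [ua1]) (by norm_num; linarith only [ua2])) (List.Forall₂.cons (NumIs.V.of_mem (by norm_num) (by norm_num; linarith only [ua3]) (by norm_num; linarith only [ua4])) (List.Forall₂.cons (NumIs.V.of_mem (by norm_num) (by norm_num; linarith only [ua5]) (by norm_num; linarith only [ua6])) (List.Forall₂.cons (NumIs.V.of_mem (by norm_num) (by norm_num; linarith only [ua7]) (by norm_num; linarith only [ua8])) (List.Forall₂.cons (NumIs.V.of_mem (by norm_num) (by norm_num; linarith only [ua9]) (by norm_num; linarith only [ua10])) (List.Forall₂.cons (NumIs.V.of_mem (by norm_num) (by norm_num; linarith only [ua11]) (by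 norm_num; linarith only [ua12])) List.Forall₂.nil))))))
  by_contra hc
  push Not at hc
  simp only [List.mem_cons, List.not_mem_nil, or_false] at hf
  rcases hf with rfl | rfl | rfl
  · simp only [D_val, R_val, h_val, EE.ui_val, EV.a, EV.x, EV.T, EV.w, EV.b, EV.r, EV.t, E.val, NumIs.lkR] at hp
    push_cast at hp
    linarith only [hc, hp]
  · simp only [D_val, R_val, h_val, EE.ui_val, EV.a, EV.x, EV.T, EV.w, EV.b, EV.r, EV.t, E.val, NumIs.lkR] at hp
    push_cast at hp
    linarith only [ua5, ua7, hp]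
  · simp only [D_val, R_val, h_val, EE.ui_val, EV.a, EV.x, EV.T, EV.w, EV.b, EV.r, EV.t, E.val, NumIs.lkR] at hp
    push_cast at hp
    linarith only [ua14, hp]

theorem forp {x T w b r t : ℝ} (ua1 : 3000 / 10000 ≤ x) (ua2 : x ≤ 3800 / 10000) (ua3 : -(980 / 10000) ≤ T) (ua4 : T ≤ -(760 / 10000)) (ua5 : 3100 / 10000 ≤ w) (ua6 : w ≤ 3900 / 10000) (ua7 : -(980 / 10000) ≤ b) (ua8 : b ≤ 220 / 10000) (ua9 : 0 / 10000 ≤ r) (ua10 : r ≤ 500 / 10000) (ua11 : -(1160 / 10000) ≤ t) (ua12 : t ≤ -(640 / 10000)) (ua13 : -(98 / 130) * w ≤ b) (ua14 : rui (10 / 3) x T ≤ 20 * (t * r)) :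
    0 < rE (4600 / 10000) (-1) x (rui (10 / 3) x T) w b r t := by
  have h : chkT [R 10 3 (q 4600 10000) (-1), sub (mul (q (-98) 130) EV.w) EV.b, sub (a 10 3) h] 40
    559156
    [NumIs.V.of 10000 3000 3800, NumIs.V.of 10000 (-980) (-760), NumIs.V.of 10000 3100 3900, NumIs.V.of 10000 (-980) 220, NumIs.V.of 10000 0 500, NumIs.V.of 10000 (-1160) (-640)] = true := by
    decide +kernel
  obtain ⟨f, hf, hp⟩ := chkT_sound h (xs := [x, T, w, b, r, t])
    (List.Forall₂.cons (NumIs.V.of_mem (by norm_num) (by norm_num; linarith only [ua1]) (by norm_num; linarith only [ua2])) (List.Forall₂.cons (NumIs.V.of_mem (by norm_num) (by norm_num; linarith only [ua3]) (by norm_num; linarith only [ua4])) (List.Forall₂.cons (NumIs.V.of_mem (by norm_num) (by norm_num; linarith only [ua5]) (by norm_num; linarith only [ua6])) (List.Forall₂.cons (NumIs.V.of_mem (by norm_num) (by norm_num; linarith only [ua7]) (by norm_num; linarith only [ua8])) (List.Forall₂.cons (NumIs.V.of_mem (by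 norm_num) (by norm_num; linarith only [ua9]) (by norm_num; linarith only [ua10])) (List.Forall₂.cons (NumIs.V.of_mem (by norm_num) (by norm_num; linarith only [ua11]) (by norm_num; linarith only [ua12])) List.Forall₂.nil))))))
  by_contra hc
  push Not at hc
  simp only [List.mem_cons, List.not_mem_nil, or_false] at hf
  rcases hf with rfl | rfl | rfl
  · simp only [D_val, R_val, h_val, EE.ui_val, EV.a, EV.x, EV.T, EV.w, EV.b, EV.r, EV.t, E.val, NumIs.lkR] at hp
    push_cast at hp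
    linarith only [hc, hp]
  · simp only [D_val, R_val, h_val, EE.ui_val, EV.a, EV.x, EV.T, EV.w, EV.b, EV.r, EV.t, E.val, NumIs.lkR] at hp
    push_cast at hp
    linarith only [ua5, ua7, hp]
  · simp only [D_val, R_val, h_val, EE.ui_val, EV.a, EV.x, EV.T, EV.w, EV.b, EV.r, EV.t, E.val, NumIs.lkR] at hp
    push_cast at hp
    linarith only [ua14, hp]

end S0R

end Pool.Agent.Work.MP_b30479_gtS.G2

end
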