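import Pool.Agent.Work.MP_b30479_gt.TBS.NumU.Node
import Pool.Agent.Work.MP_b30479_gt.TBS.G2.WValD

section

/-!
# A hinge between two inner digits `3`, right ramp: parts and expressions

`x` the position of the hinge, `T` its height in the own frame, `r + y i` the inner variable (of
the left digit in `s2`, of the right digit in `s3`), `t` its height, `w + h i` the hinge in slot 2
of the right digit.
-/

namespace Pool.Agent.Work.MP_b30479_gtS.G2

open VOL NumUs

namespace VL

namespace S33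

/-- height of the hinge -/
noncomputable def hR (x T : ℝ) : ℝ := T * (100 / 30 * (60 / 100 - x))

/-- slope of the hinge -/
noncomputable def mR (T : ℝ) : ℝ := -100 / 30 * T

/-- the bound of the side of the right digit -/
noncomputable def bb (x T : ℝ) : ℝ :=
  54 / 100 + 58 / 10 * T + (x - 39 / 100) * (1148 / 1000 + 34 * T)

noncomputable def b2 (x T r y : ℝ) : ℝ :=
  Real.pi * (y - hR x T) - 2 * NumIs.lnA x (hR x T) +
    mR T * (Real.pi * (r - x - 1 / 2) + 2 * NumIs.lnB x (hR x T))

noncomputable def s2x (x T r y : ℝ) : ℝ :=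
  b2 x T r y + (NumIs.lnA (x + r) (hR x T + y) - mR T * NumIs.lnB (x + r) (hR x T + y))

noncomputable def s2n (σ x T r y : ℝ) : ℝ :=
  b2 x T r y + (NumIs.lnA (1 / 6) (hR x T + y) + mR T * (σ * Real.pi))

noncomputable def s2b (σ x T r y : ℝ) : ℝ :=
  b2 x T r y + (NumIs.lnA (x + r - 1) (hR x T + y) +
    mR T * (σ * Real.pi - NumIs.lnB (x + r - 1) (hR x T + y)))

noncomputable def b3 (x T r y : ℝ) : ℝ :=
  -(Real.pi * y + NumIs.lnA x (hR x T)) + mR T * (NumIs.lnB x (hR x T) - Real.pi * r)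

noncomputable def s3l (σ x T r y : ℝ) : ℝ :=
  b3 x T r y + (NumIs.lnA (x - r) (hR x T - y) +
    mR T * (σ * Real.pi - NumIs.lnB (x - r) (hR x T - y)))

noncomputable def s3r (x T r y : ℝ) : ℝ :=
  b3 x T r y + (NumIs.lnA (r - x) (y - hR x T) - mR T * NumIs.lnB (r - x) (y - hR x T))

noncomputable def s3n (σ x T r y : ℝ) : ℝ :=
  b3 x T r y + (NumIs.lnA (1 / 6) (y - hR x T) + mR T * (σ * Real.pi))

/-- the part of the value without the hinge in slot 2 -/
noncomputable def d0 (c x T r y t : ℝ) : ℝ :=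
  Real.pi * ((1 / 2 - x) * (t - y) - hR x T * (c - r) - (c * t - r * y)) -
    uu (c - x) (t - hR x T) - (uu (x - r) (hR x T - y) + Real.pi * (hR x T - y))

/-- the part of the value with the hinge in slot 2 -/
noncomputable def g0 (c r y t w h : ℝ) : ℝ :=
  Real.pi * (h * (c - r) + w * (t - y)) + uu (c + w) (t + h) - uu c t - uu (r + w) (y + h) +
    uu r y

/-- the limit between them -/
noncomputable def gg (r : ℝ) : ℝ := 34 / 1000 + 36 / 100 * r

/-- the value after a move of the inner variable -/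
theorem V3_dif {u v v' w : ℂ} : V3 u v' w - V3 u v w =
    Real.pi * ((1 / 2 - u.re) * (v'.im - v.im) - u.im * (v'.re - v.re) -
      (v'.re * v'.im - v.re * v.im)) - uu (v'.re - u.re) (v'.im - u.im) +
      uu (v.re - u.re) (v.im - u.im) + g0 v'.re v.re v.im v'.im w.re w.im := by
  have e1 : ∀ v : ℂ, (2 * u * v + (v - w) ^ 2 - v + w).im =
      2 * (u.re * v.im + u.im * v.re) + 2 * (v.re - w.re) * (v.im - w.im) - v.im + w.im := by
    intro v
    simp only [pow_two, Complex.add_im, Complex.sub_im, Complex.sub_re, Complex.mul_im,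
      Complex.mul_re, Complex.re_ofNat, Complex.im_ofNat]
    ring
  unfold V3 g0
  rw [e1, e1, UU_uu (v' + w), UU_uu (v' - u), UU_uu v', UU_uu (v + w), UU_uu (v - u), UU_uu v]
  simp only [Complex.add_re, Complex.add_im, Complex.sub_re, Complex.sub_im]
  ring

section
open NumUs.E

def eH (x T : E) : E := mul T (mul (q 100 30) (sub (q 60 100) x))

def eM (T : E) : E := mul (q (-100) 30) T

def eB (x T : E) : E := add (add (q 54 100) (mul (q 58 10) T))
  (mul (sub x (q 39 100)) (add (q 1148 1000) (mul (q 34 1) T)))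

def eB' (x T : E) : E := neg (add (sub (q 54 100) (mul (q 58 10) T))
  (mul (sub x (q 39 100)) (sub (q 1148 1000) (mul (q 34 1) T))))

def e2 (x T r y : E) : E := add (sub (mul E.pi (sub y (eH x T))) (mul (q 2 1) (E.lnA x (eH x T))))
  (mul (eM T) (add (mul E.pi (sub (sub r x) (q 1 2))) (mul (q 2 1) (E.lnB x (eH x T)))))

def e2x (x T r y : E) : E := add (e2 x T r y) (sub (E.lnA (add x r) (add (eH x T) y))
  (mul (eM T) (E.lnB (add x r) (add (eH x T) y))))

def e2n (σ : ℤ) (x T r y : E) : E := add (e2 x T r y) (add (E.lnA (q 1 6) (add (eH x T) y))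
  (mul (eM T) (mul (q σ 1) E.pi)))

def e2b (σ : ℤ) (x T r y : E) : E := add (e2 x T r y)
  (add (E.lnA (sub (add x r) (q 1 1)) (add (eH x T) y))
    (mul (eM T) (sub (mul (q σ 1) E.pi) (E.lnB (sub (add x r) (q 1 1)) (add (eH x T) y)))))

def e3 (x T r y : E) : E := add (neg (add (mul E.pi y) (E.lnA x (eH x T))))
  (mul (eM T) (sub (E.lnB x (eH x T)) (mul E.pi r)))

def e3l (σ : ℤ) (x T r y : E) : E := add (e3 x T r y)
  (add (E.lnA (sub x r) (sub (eH x T) y))
    (mul (eM T) (sub (mul (q σ 1) E.pi) (E.lnB (sub x r) (sub (eH x T) y)))))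

def e3r (x T r y : E) : E := add (e3 x T r y) (sub (E.lnA (sub r x) (sub y (eH x T)))
  (mul (eM T) (E.lnB (sub r x) (sub y (eH x T)))))

def e3n (σ : ℤ) (x T r y : E) : E := add (e3 x T r y) (add (E.lnA (q 1 6) (sub y (eH x T)))
  (mul (eM T) (mul (q σ 1) E.pi)))

def eD (c x T r y t : E) : E := sub (sub (mul E.pi (sub (sub (mul (sub (q 1 2) x) (sub t y))
  (mul (eH x T) (sub c r))) (sub (mul c t) (mul r y)))) (E.uu (sub c x) (sub t (eH x T))))
  (add (E.uu (sub x r) (sub (eH x T) y)) (mul E.pi (sub (eH x T) y)))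

def eG (c r y t w h : E) : E := add (sub (sub (add (mul E.pi (add (mul h (sub c r))
  (mul w (sub t y)))) (E.uu (add c w) (add t h))) (E.uu c t)) (E.uu (add r w) (add y h)))
  (E.uu r y)

def eg (r : E) : E := add (q 34 1000) (mul (q 36 100) r)

/-- height of the inner variable on its left ramp -/
def yl (t r : E) : E := mul (q 20 1) (mul t r)

/-- height of the inner variable on its right ramp -/
def yr (t r : E) : E := mul t (mul (q 20 1) (sub (q 8 10) r))

/-- windows of the heights -/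
def eW : List E := [sub (sub (var 1) (var 3)) (q 105 1000), sub (sub (var 3) (var 1)) (q 28 1000)]

def e2X (y : E) : E := sub (eB' (var 0) (var 1)) (e2x (var 0) (var 1) (var 2) y)
def e2N (σ : ℤ) : E := sub (eB' (var 0) (var 1)) (e2n σ (var 0) (var 1) (var 2) (var 3))
def e2B (σ : ℤ) (y : E) : E := sub (eB' (var 0) (var 1)) (e2b σ (var 0) (var 1) (var 2) y)
def e3L (σ : ℤ) (y : E) : E := sub (eB (var 0) (var 1)) (e3l σ (var 0) (var 1) (var 2) y)
def e3R (y : E) : E := sub (eB (var 0) (var 1)) (e3r (var 0) (var 1) (var 2) y)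
def e3N (σ : ℤ) : E := sub (eB (var 0) (var 1)) (e3n σ (var 0) (var 1) (var 2) (var 3))
def eDD (y : E) : E := sub (eD (q 53 100) (var 0) (var 1) (var 2) y (var 3)) (eg (var 2))
def eGG (y h : E) : E := add (eG (q 53 100) (var 0) y (var 1) (var 2) h) (eg (var 0))

/-- the height is not below this -/
def eT (r : E) : E := neg (add (q 56 1000) (mul (q 28 100) r))

variable (x' T' r' y' t' c' w' h' : E) (xs : List ℝ)

theorem eH_val : (eH x' T').val xs = hR (x'.val xs) (T'.val xs) := by
  simp only [eH, E.val, hR]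
  push_cast
  ring

theorem eM_val : (eM T').val xs = mR (T'.val xs) := by
  simp only [eM, E.val, mR]
  push_cast
  ring

theorem eB_val : (eB x' T').val xs = bb (x'.val xs) (T'.val xs) := by
  simp only [eB, E.val, bb]
  push_cast
  ring

theorem eB'_val : (eB' x' T').val xs = -bb (x'.val xs) (-T'.val xs) := by
  simp only [eB', E.val, bb]
  push_cast
  ring

theorem e2_val : (e2 x' T' r' y').val xs =
    b2 (x'.val xs) (T'.val xs) (r'.val xs) (y'.val xs) := by
  simp only [e2, E.val, b2, eH_val, eM_val]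
  push_cast
  ring

theorem e2x_val : (e2x x' T' r' y').val xs =
    s2x (x'.val xs) (T'.val xs) (r'.val xs) (y'.val xs) := by
  simp only [e2x, E.val, s2x, e2_val, eH_val, eM_val]

theorem e2n_val (σ : ℤ) : (e2n σ x' T' r' y').val xs =
    s2n σ (x'.val xs) (T'.val xs) (r'.val xs) (y'.val xs) := by
  simp only [e2n, E.val, s2n, e2_val, eH_val, eM_val]
  push_cast
  rw [div_one]

theorem e2b_val (σ : ℤ) : (e2b σ x' T' r' y').val xs =
    s2b σ (x'.val xs) (T'.val xs) (r'.val xs) (y'.val xs) := by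
  simp only [e2b, E.val, s2b, e2_val, eH_val, eM_val]
  push_cast
  rw [div_one, div_one]

theorem e3_val : (e3 x' T' r' y').val xs =
    b3 (x'.val xs) (T'.val xs) (r'.val xs) (y'.val xs) := by
  simp only [e3, E.val, b3, eH_val, eM_val]

theorem e3l_val (σ : ℤ) : (e3l σ x' T' r' y').val xs =
    s3l σ (x'.val xs) (T'.val xs) (r'.val xs) (y'.val xs) := by
  simp only [e3l, E.val, s3l, e3_val, eH_val, eM_val]
  push_cast
  rw [div_one]

theorem e3r_val : (e3r x' T' r' y').val xs =
    s3r (x'.val xs) (T'.val xs) (r'.val xs) (y'.val xs) := by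
  simp only [e3r, E.val, s3r, e3_val, eH_val, eM_val]

theorem e3n_val (σ : ℤ) : (e3n σ x' T' r' y').val xs =
    s3n σ (x'.val xs) (T'.val xs) (r'.val xs) (y'.val xs) := by
  simp only [e3n, E.val, s3n, e3_val, eH_val, eM_val]
  push_cast
  rw [div_one]

theorem eD_val : (eD c' x' T' r' y' t').val xs =
    d0 (c'.val xs) (x'.val xs) (T'.val xs) (r'.val xs) (y'.val xs) (t'.val xs) := by
  simp only [eD, E.val, d0, eH_val]
  push_cast
  ring

theorem eG_val : (eG c' r' y' t' w' h').val xs =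
    g0 (c'.val xs) (r'.val xs) (y'.val xs) (t'.val xs) (w'.val xs) (h'.val xs) := by
  simp only [eG, E.val, g0]

theorem eg_val : (eg r').val xs = gg (r'.val xs) := by
  simp only [eg, E.val, gg]
  push_cast
  ring

theorem eT_val : (eT r').val xs = -(56 / 1000 + 28 / 100 * r'.val xs) := by
  simp only [eT, E.val]
  push_cast
  ring

end

end S33

end VL

end Pool.Agent.Work.MP_b30479_gtS.G2

end

section

/-!
# The slot 0 of an inner digit `3` next to a ring, right ramp: expressions

`x` the position of the hinge, `T ≥ 0` its height in the frame of the digit, `r + y i` the inner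
variable, `t` its height, `w + h i` the hinge in slot 2 of the digit.
-/

namespace Pool.Agent.Work.MP_b30479_gtS.G2

open VOL NumUs

namespace VL

namespace SZ3

open S33 (eH eH_val eG eG_val yl yr)

/-- the hinge at `X`, the inner variable at `c`: the part without the hinge in slot 2 -/
noncomputable def jn (X c T t : ℝ) : ℝ :=
  Real.pi * ((1 / 2 - X) * t - S33.hR X T * c - c * t) - uu (c - X) (t - S33.hR X T) -
    uu X (S33.hR X T)

/-- the hinge at `x`, the inner variable at `r`: the part without the hinge in slot 2, without the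
value of the difference -/
noncomputable def jo (x T r y : ℝ) : ℝ :=
  Real.pi * ((1 / 2 - x) * y - S33.hR x T * r - r * y) - uu x (S33.hR x T)

/-- lower bounds of the value of the difference -/
noncomputable def z0 (x T r y : ℝ) : ℝ :=
  -(uu (x - r) (S33.hR x T - y) + Real.pi * (S33.hR x T - y))

noncomputable def z1 (x T r y : ℝ) : ℝ :=
  -(uu (x - r) (S33.hR x T - y) + Real.pi * (S33.hR x T + y))

noncomputable def z3 (x T r y : ℝ) : ℝ :=
  uu (1 / 6) (y - S33.hR x T) - (1 / 6 - (r - x)) * NumIs.lnA (1 / 6) (y - S33.hR x T)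

/-- the limits between the two parts -/
noncomputable def gB (r : ℝ) : ℝ := 3 / 1000 + 45 / 100 * r

noncomputable def gH (r t : ℝ) : ℝ :=
  -(7 / 1000) + 1 / 2 * (r - 75 / 100) + 25 / 100 * (t + 105 / 1000)

/-- `g0` without the value at `r + w` -/
noncomputable def g1 (c r y t w h U : ℝ) : ℝ :=
  Real.pi * (h * (c - r) + w * (t - y)) + uu (c + w) (t + h) - uu c t - U + uu r y

theorem g0_g1 (c r y t w h : ℝ) : S33.g0 c r y t w h = g1 c r y t w h (uu (r + w) (y + h)) := by
  unfold S33.g0 g1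
  ring

/-- the side of the ring, the ring variable on the ramp: upper bound -/
noncomputable def sR (x T s ρ : ℝ) : ℝ :=
  NumIs.lnA (x + s) (4 * (ρ * s) - S33.hR x T) + NumIs.lnA (x - s) (4 * (ρ * s) + S33.hR x T) -
    2 * NumIs.lnA x (S33.hR x T) - 100 / 30 * T * (NumIs.lnB (x + s) (4 * (ρ * s) - S33.hR x T) +
      1 / 2 * Real.pi + 2 * NumIs.lnB x (S33.hR x T))

/-- the side of the ring, the ring variable on the flat part: upper bound; `L`, `Y` belong to the
second factor -/
noncomputable def sF (x T a ρ L Y : ℝ) : ℝ :=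
  NumIs.lnA (x + 1 / 2 - a) (ρ - S33.hR x T) + L - 2 * NumIs.lnA x (S33.hR x T) +
    100 / 30 * T * (Y - NumIs.lnB (x + 1 / 2 - a) (ρ - S33.hR x T) - 2 * NumIs.lnB x (S33.hR x T))

section
open NumUs.E

def eJn (X c : ℤ) (T t : E) : E :=
  sub (sub (mul E.pi (sub (sub (mul (sub (q 1 2) (q X 100)) t) (mul (eH (q X 100) T) (q c 100)))
    (mul (q c 100) t))) (E.uu (sub (q c 100) (q X 100)) (sub t (eH (q X 100) T))))
    (E.uu (q X 100) (eH (q X 100) T))

def eJo (x T r y : E) : E :=
  sub (mul E.pi (sub (sub (mul (sub (q 1 2) x) y) (mul (eH x T) r)) (mul r y)))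
    (E.uu x (eH x T))

def eZ0 (x T r y : E) : E :=
  neg (add (E.uu (sub x r) (sub (eH x T) y)) (mul E.pi (sub (eH x T) y)))

def eZ1 (x T r y : E) : E :=
  neg (add (E.uu (sub x r) (sub (eH x T) y)) (mul E.pi (add (eH x T) y)))

def eZ2 (x T r y : E) : E := E.uu (sub r x) (sub y (eH x T))

def eZ3 (x T r y : E) : E :=
  sub (E.uu (q 1 6) (sub y (eH x T))) (mul (sub (q 1 6) (sub r x)) (E.lnA (q 1 6)
    (sub y (eH x T))))

/-- difference of the values without the hinge in slot 2 -/
def eD (X c : ℤ) (y z : E) : E :=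
  add (sub (eJn X c (var 1) (var 3)) (eJo (var 0) (var 1) (var 2) y)) z

def egB (r : E) : E := add (q 3 1000) (mul (q 45 100) r)

def egH (r t : E) : E :=
  add (add (q (-7) 1000) (mul (q 1 2) (sub r (q 75 100)))) (mul (q 25 100) (add t (q 105 1000)))

def eG1 (c r y t w h U : E) : E :=
  add (sub (sub (add (mul E.pi (add (mul h (sub c r)) (mul w (sub t y)))) (E.uu (add c w)
    (add t h))) (E.uu c t)) U) (E.uu r y)

/-- bound of the sides, `x` in `[.30, .34]` -/
def eB1 : E := sub (q 355 1000) (mul (q 6 10) (var 0))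

def eR : E :=
  neg (add eB1 (sub (sub (add (E.lnA (add (var 0) (var 2)) (sub (mul (q 4 1)
    (mul (var 3) (var 2))) (eH (var 0) (var 1)))) (E.lnA (sub (var 0) (var 2)) (add (mul (q 4 1)
    (mul (var 3) (var 2))) (eH (var 0) (var 1))))) (mul (q 2 1) (E.lnA (var 0)
    (eH (var 0) (var 1))))) (mul (mul (q 100 30) (var 1)) (add (add (E.lnB (add (var 0) (var 2))
    (sub (mul (q 4 1) (mul (var 3) (var 2))) (eH (var 0) (var 1)))) (mul (q 1 2) E.pi))
    (mul (q 2 1) (E.lnB (var 0) (eH (var 0) (var 1))))))))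

/-- `x + 1/2 - a` -/
def eP : E := sub (add (var 0) (q 1 2)) (var 2)
/-- `x + 1/2 + a` -/
def eQ : E := add (add (var 0) (q 1 2)) (var 2)
/-- `-(h + ρ)` -/
def eN : E := neg (add (eH (var 0) (var 1)) (var 3))

def eF (L Y : E) : E :=
  neg (add eB1 (add (sub (add (E.lnA eP (sub (var 3) (eH (var 0) (var 1)))) L) (mul (q 2 1)
    (E.lnA (var 0) (eH (var 0) (var 1))))) (mul (mul (q 100 30) (var 1)) (sub (sub Y (E.lnB eP
    (sub (var 3) (eH (var 0) (var 1))))) (mul (q 2 1) (E.lnB (var 0) (eH (var 0) (var 1))))))))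

variable (x' T' r' y' t' w' h' U' : E) (xs : List ℝ) (X c : ℤ)

theorem eJn_val : (eJn X c T' t').val xs = jn ((X : ℝ) / 100) ((c : ℝ) / 100) (T'.val xs)
    (t'.val xs) := by
  simp only [eJn, E.val, jn, eH_val]
  push_cast
  ring

theorem eJo_val : (eJo x' T' r' y').val xs = jo (x'.val xs) (T'.val xs) (r'.val xs)
    (y'.val xs) := by
  simp only [eJo, E.val, jo, eH_val]
  push_cast
  ring

theorem eZ0_val : (eZ0 x' T' r' y').val xs = z0 (x'.val xs) (T'.val xs) (r'.val xs)
    (y'.val xs) := by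
  simp only [eZ0, E.val, z0, eH_val]

theorem eZ1_val : (eZ1 x' T' r' y').val xs = z1 (x'.val xs) (T'.val xs) (r'.val xs)
    (y'.val xs) := by
  simp only [eZ1, E.val, z1, eH_val]

theorem eZ2_val : (eZ2 x' T' r' y').val xs = uu (r'.val xs - x'.val xs)
    (y'.val xs - S33.hR (x'.val xs) (T'.val xs)) := by
  simp only [eZ2, E.val, eH_val]

theorem eZ3_val : (eZ3 x' T' r' y').val xs = z3 (x'.val xs) (T'.val xs) (r'.val xs)
    (y'.val xs) := by
  simp only [eZ3, E.val, z3, eH_val]
  push_cast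
  ring

theorem eD_val (x T r t : ℝ) : (eD X c y' r').val [x, T, r, t] =
    jn ((X : ℝ) / 100) ((c : ℝ) / 100) T t - jo x T r (y'.val [x, T, r, t]) +
      r'.val [x, T, r, t] := by
  simp only [eD, E.val, eJn_val, eJo_val, NumIs.lkR]

theorem egB_val : (egB r').val xs = gB (r'.val xs) := by
  simp only [egB, E.val, gB]
  push_cast
  ring

theorem egH_val : (egH r' t').val xs = gH (r'.val xs) (t'.val xs) := by
  simp only [egH, E.val, gH]
  push_cast
  ring

theorem eG1_val : (eG1 x' r' y' t' w' h' U').val xs = g1 (x'.val xs) (r'.val xs) (y'.val xs)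
    (t'.val xs) (w'.val xs) (h'.val xs) (U'.val xs) := by
  simp only [eG1, E.val, g1]

theorem eB1_val (x : ℝ) (l : List ℝ) : eB1.val (x :: l) = 355 / 1000 - 6 / 10 * x := by
  simp only [eB1, E.val, NumIs.lkR]
  push_cast
  ring

theorem eR_val (x T s ρ : ℝ) : eR.val [x, T, s, ρ] =
    -(355 / 1000 - 6 / 10 * x + sR x T s ρ) := by
  simp only [eR, E.val, eB1_val, eH_val, NumIs.lkR, sR]
  push_cast
  ring_nf

theorem eF_val (x T a ρ : ℝ) (L Y : E) : (eF L Y).val [x, T, a, ρ] =
    -(355 / 1000 - 6 / 10 * x + sF x T a ρ (L.val [x, T, a, ρ]) (Y.val [x, T, a, ρ])) := by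
  simp only [eF, eP, E.val, eB1_val, eH_val, NumIs.lkR, sF]
  push_cast
  ring

theorem eQ_val (x T a ρ : ℝ) : eQ.val [x, T, a, ρ] = x + 1 / 2 + a := by
  simp only [eQ, E.val, NumIs.lkR]
  push_cast
  ring

theorem eN_val (x T a ρ : ℝ) : eN.val [x, T, a, ρ] = -(S33.hR x T + ρ) := by
  simp only [eN, E.val, eH_val, NumIs.lkR]

end

end SZ3

end VL

end Pool.Agent.Work.MP_b30479_gtS.G2

end
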