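import Pool.Agent.Work.MP_b30479_gt.TBS.G2.S0RC
import Pool.Agent.Work.MP_b30479_gt.TBS.NumU.Tree
import Pool.Agent.Work.MP_b30479_gt.TBS.G2.V33A

section

/-!
# Part of `S0RF`
-/
set_option linter.unusedSimpArgs false
set_option linter.unusedVariables false

set_option deprecated.oldSectionVars true

namespace Pool.Agent.Work.MP_b30479_gtS.G2

open VOL NumUs

namespace S0R

open NumUs.E EE

theorem far3z_1b {x T p t : ℝ} (ua1 : 4000 / 10000 ≤ x) (ua2 : x ≤ 5000 / 10000) (ua3 : -(220 / 10000) ≤ T) (ua4 : T ≤ 570 / 10000) (ua5 : 1000 / 10000 ≤ p) (ua6 : p ≤ 3300 / 10000) (ua7 : -(1140 / 10000) ≤ t) (ua8 : t ≤ -(150 / 10000)) (ua9 : T - t ≤ 1050 / 10000) (ua10 : 4300 / 10000 ≤ x + p) (ua11 : x + p ≤ 7300 / 10000) :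
    rS (10 / 3) x T p t < 0 ∨ rF (10 / 3) (x + p + 7 / 100) (-98 / 10000) x T p t < 0 := by
  have h : chkT [sub (q 0 1) (S 10 3), sub (q 0 1) (F 10 3 pb (q (-98) 10000)), sub (sub EE.T EE.t) (q 1050 10000), sub (q 4300 10000) EE.v, sub EE.v (q 7300 10000)] 30
    10706543271047368526698217759557269238585584321294025882264319781995116166422715955083435955726414135586835183148697134187356403128787728516274654083037294896722607627530173969535391488716059917782398665506671421356895499089429447911156700271675120894096107209796531486044833141674669742906471595391779138762742664605264235882287906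
    [NumIs.V.of 10000 4000 5000, NumIs.V.of 10000 (-220) 570, NumIs.V.of 10000 1000 3300, NumIs.V.of 10000 (-1140) (-150)] = true := by
    decide +kernel
  obtain ⟨f, hf, hp⟩ := chkT4 h (by norm_num) (x := x) (y := T) (z := p) (w := t)
    (by norm_num; linarith only [ua1]) (by norm_num; linarith only [ua2]) (by norm_num; linarith only [ua3]) (by norm_num; linarith only [ua4]) (by norm_num; linarith only [ua5]) (by norm_num; linarith only [ua6]) (by norm_num; linarith only [ua7]) (by norm_num; linarith only [ua8])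
  by_contra hc
  push Not at hc
  obtain ⟨hc0, hc1⟩ := hc
  simp only [List.mem_cons, List.not_mem_nil, or_false] at hf
  rcases hf with rfl | rfl | rfl | rfl | rfl
  · simp only [S_val, F_val, N_val, ui_val, EE.pa, EE.pb, EE.pc, EE.kT, nyy, EE.x, EE.T, EE.p, EE.t, EE.nt, EE.v, E.val, NumIs.lkR] at hp
    push_cast at hp
    linarith only [hc0, hp]
  · simp only [S_val, F_val, N_val, ui_val, EE.pa, EE.pb, EE.pc, EE.kT, nyy, EE.x, EE.T, EE.p, EE.t, EE.nt, EE.v, E.val, NumIs.lkR] at hp
    push_cast at hp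
    linarith only [hc1, hp]
  · simp only [S_val, F_val, N_val, ui_val, EE.pa, EE.pb, EE.pc, EE.kT, nyy, EE.x, EE.T, EE.p, EE.t, EE.nt, EE.v, E.val, NumIs.lkR] at hp
    push_cast at hp
    linarith only [ua9, hp]
  · simp only [S_val, F_val, N_val, ui_val, EE.pa, EE.pb, EE.pc, EE.kT, nyy, EE.x, EE.T, EE.p, EE.t, EE.nt, EE.v, E.val, NumIs.lkR] at hp
    push_cast at hp
    linarith only [ua1, ua5, hp]
  · simp only [S_val, F_val, N_val, ui_val, EE.pa, EE.pb, EE.pc, EE.kT, nyy, EE.x, EE.T, EE.p, EE.t, EE.nt, EE.v, E.val, NumIs.lkR] at hp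
    push_cast at hp
    linarith only [ua11, hp]

theorem far3z_1c {x T p t : ℝ} (ua1 : 4000 / 10000 ≤ x) (ua2 : x ≤ 5000 / 10000) (ua3 : -(220 / 10000) ≤ T) (ua4 : T ≤ 570 / 10000) (ua5 : 2300 / 10000 ≤ p) (ua6 : p ≤ 3500 / 10000) (ua7 : -(1140 / 10000) ≤ t) (ua8 : t ≤ -(150 / 10000)) (ua9 : T - t ≤ 1050 / 10000) (ua10 : 7300 / 10000 ≤ x + p) (ua11 : x + p ≤ 7500 / 10000) :
    rS (10 / 3) x T p t < 0 ∨ rF (10 / 3) (80 / 100) (-98 / 10000) x T p t < 0 := by
  have h : chkT [sub (q 0 1) (S 10 3), sub (q 0 1) (F 10 3 pc (q (-98) 10000)), sub (sub EE.T EE.t) (q 1050 10000), sub (q 7300 10000) EE.v, sub EE.v (q 7500 10000)] 30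
    7435056716522317123676710977461909355408828012519210311972132518373638204773560942625489830912360237091485785414067076425624191919712558685205808932220545603977279172164418419170372449268088582059686225682857384097873455701969590510202381026328670731313042987223975617962514778366002
    [NumIs.V.of 10000 4000 5000, NumIs.V.of 10000 (-220) 570, NumIs.V.of 10000 2300 3500, NumIs.V.of 10000 (-1140) (-150)] = true := by
    decide +kernel
  obtain ⟨f, hf, hp⟩ := chkT4 h (by norm_num) (x := x) (y := T) (z := p) (w := t)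
    (by norm_num; linarith only [ua1]) (by norm_num; linarith only [ua2]) (by norm_num; linarith only [ua3]) (by norm_num; linarith only [ua4]) (by norm_num; linarith only [ua5]) (by norm_num; linarith only [ua6]) (by norm_num; linarith only [ua7]) (by norm_num; linarith only [ua8])
  by_contra hc
  push Not at hc
  obtain ⟨hc0, hc1⟩ := hc
  simp only [List.mem_cons, List.not_mem_nil, or_false] at hf
  rcases hf with rfl | rfl | rfl | rfl | rfl
  · simp only [S_val, F_val, N_val, ui_val, EE.pa, EE.pb, EE.pc, EE.kT, nyy, EE.x, EE.T, EE.p, EE.t, EE.nt, EE.v, E.val, NumIs.lkR] at hp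
    push_cast at hp
    linarith only [hc0, hp]
  · simp only [S_val, F_val, N_val, ui_val, EE.pa, EE.pb, EE.pc, EE.kT, nyy, EE.x, EE.T, EE.p, EE.t, EE.nt, EE.v, E.val, NumIs.lkR] at hp
    push_cast at hp
    linarith only [hc1, hp]
  · simp only [S_val, F_val, N_val, ui_val, EE.pa, EE.pb, EE.pc, EE.kT, nyy, EE.x, EE.T, EE.p, EE.t, EE.nt, EE.v, E.val, NumIs.lkR] at hp
    push_cast at hp
    linarith only [ua9, hp]
  · simp only [S_val, F_val, N_val, ui_val, EE.pa, EE.pb, EE.pc, EE.kT, nyy, EE.x, EE.T, EE.p, EE.t, EE.nt, EE.v, E.val, NumIs.lkR] at hp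
    push_cast at hp
    linarith only [ua10, hp]
  · simp only [S_val, F_val, N_val, ui_val, EE.pa, EE.pb, EE.pc, EE.kT, nyy, EE.x, EE.T, EE.p, EE.t, EE.nt, EE.v, E.val, NumIs.lkR] at hp
    push_cast at hp
    linarith only [ua11, hp]

end S0R

end Pool.Agent.Work.MP_b30479_gtS.G2

end

section

/-!
# `ring | 3` at slot `0`, the exceptional case: rows, side
-/

set_option linter.unusedSimpArgs false
set_option linter.unusedVariables false

set_option deprecated.oldSectionVars true

namespace Pool.Agent.Work.MP_b30479_gtS.G2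

open VOL NumUs

namespace S0R

open NumUs.E EE

theorem nx9 {x T t : ℝ} (ua1 : 5000 / 10000 ≤ x) (ua2 : x ≤ 6000 / 10000) (ua3 : -(7 / 10000) ≤ T) (ua4 : T ≤ 0 / 10000) (ua5 : -(1057 / 10000) ≤ t) (ua6 : t ≤ -(150 / 10000)) :
    rN (10 / 3) (1300 / 10000) (Real.pi + NumIs.lnB (1300 / 10000) (t - rui (10 / 3) x T)) (x - 1300 / 10000) x T t < -(9 / 1000) := by
  have h : chkT [sub (q (-9) 1000) (N 10 3 (q 1300 10000) (add pi (E.lnB (q 1300 10000) (nyy 10 3))) (sub EE.x (q 1300 10000)))] 30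
    8
    [NumIs.V.of 10000 5000 6000, NumIs.V.of 10000 (-7) 0, NumIs.V.of 10000 (-1057) (-150)] = true := by
    decide +kernel
  obtain ⟨f, hf, hp⟩ := chkT3 h (by norm_num) (x := x) (y := T) (z := t)
    (by norm_num; linarith only [ua1]) (by norm_num; linarith only [ua2]) (by norm_num; linarith only [ua3]) (by norm_num; linarith only [ua4]) (by norm_num; linarith only [ua5]) (by norm_num; linarith only [ua6])
  by_contra hc
  push Not at hc
  simp only [List.mem_cons, List.not_mem_nil, or_false] at hf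
  rcases hf with rfl
  · simp only [S_val, F_val, N_val, ui_val, EE.pa, EE.pb, EE.pc, EE.kT, nyy, EE.x, EE.T, EE.p, EE.t, EE.nt, EE.v, E.val, NumIs.lkR] at hp
    push_cast at hp
    linarith only [hc, hp]

theorem fx9a {x T p t : ℝ} (ua1 : 5000 / 10000 ≤ x) (ua2 : x ≤ 6000 / 10000) (ua3 : -(7 / 10000) ≤ T) (ua4 : T ≤ 0 / 10000) (ua5 : 1000 / 10000 ≤ p) (ua6 : p ≤ 1800 / 10000) (ua7 : -(1057 / 10000) ≤ t) (ua8 : t ≤ -(150 / 10000)) (ua9 : x + p ≤ 75 / 100) (ua10 : T - t ≤ 105 / 1000) :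
    rS (10 / 3) x T p t < -(9 / 1000) ∨ rF0 (10 / 3) x T p t < -(9 / 1000) := by
  have h : chkT [sub (q (-9) 1000) (S 10 3), sub (q (-9) 1000) (F0 10 3), sub EE.v (q 75 100), sub (sub EE.T EE.t) (q 105 1000)] 30
    557954
    [NumIs.V.of 10000 5000 6000, NumIs.V.of 10000 (-7) 0, NumIs.V.of 10000 1000 1800, NumIs.V.of 10000 (-1057) (-150)] = true := by
    decide +kernel
  obtain ⟨f, hf, hp⟩ := chkT4 h (by norm_num) (x := x) (y := T) (z := p) (w := t)
    (by norm_num; linarith only [ua1]) (by norm_num; linarith only [ua2]) (by norm_num; linarith only [ua3]) (by norm_num; linarith only [ua4]) (by norm_num; linarith only [ua5]) (by norm_num; linarith only [ua6]) (by norm_num; linarith only [ua7]) (by norm_num; linarith only [ua8])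
  by_contra hc
  push Not at hc
  obtain ⟨hc0, hc1⟩ := hc
  simp only [List.mem_cons, List.not_mem_nil, or_false] at hf
  rcases hf with rfl | rfl | rfl | rfl
  · simp only [F0_val, S_val, F_val, N_val, ui_val, EE.pa, EE.pb, EE.pc, EE.kT, nyy, EE.x, EE.T, EE.p, EE.t, EE.nt, EE.v, E.val, NumIs.lkR] at hp
    push_cast at hp
    linarith only [hc0, hp]
  · simp only [F0_val, S_val, F_val, N_val, ui_val, EE.pa, EE.pb, EE.pc, EE.kT, nyy, EE.x, EE.T, EE.p, EE.t, EE.nt, EE.v, E.val, NumIs.lkR] at hp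
    push_cast at hp
    linarith only [hc1, hp]
  · simp only [F0_val, S_val, F_val, N_val, ui_val, EE.pa, EE.pb, EE.pc, EE.kT, nyy, EE.x, EE.T, EE.p, EE.t, EE.nt, EE.v, E.val, NumIs.lkR] at hp
    push_cast at hp
    linarith only [ua9, hp]
  · simp only [F0_val, S_val, F_val, N_val, ui_val, EE.pa, EE.pb, EE.pc, EE.kT, nyy, EE.x, EE.T, EE.p, EE.t, EE.nt, EE.v, E.val, NumIs.lkR] at hp
    push_cast at hp
    linarith only [ua10, hp]

theorem fx9b {x T p t : ℝ} (ua1 : 5000 / 10000 ≤ x) (ua2 : x ≤ 6000 / 10000) (ua3 : -(7 / 10000) ≤ T) (ua4 : T ≤ 0 / 10000) (ua5 : 1800 / 10000 ≤ p) (ua6 : p ≤ 2500 / 10000) (ua7 : -(1057 / 10000) ≤ t) (ua8 : t ≤ -(150 / 10000)) (ua9 : x + p ≤ 75 / 100) (ua10 : T - t ≤ 105 / 1000) :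
    rS (10 / 3) x T p t < -(9 / 1000) ∨ rF0 (10 / 3) x T p t < -(9 / 1000) := by
  have h : chkT [sub (q (-9) 1000) (S 10 3), sub (q (-9) 1000) (F0 10 3), sub EE.v (q 75 100), sub (sub EE.T EE.t) (q 105 1000)] 30
    2967208357671056
    [NumIs.V.of 10000 5000 6000, NumIs.V.of 10000 (-7) 0, NumIs.V.of 10000 1800 2500, NumIs.V.of 10000 (-1057) (-150)] = true := by
    decide +kernel
  obtain ⟨f, hf, hp⟩ := chkT4 h (by norm_num) (x := x) (y := T) (z := p) (w := t)
    (by norm_num; linarith only [ua1]) (by norm_num; linarith only [ua2]) (by norm_num; linarith only [ua3]) (by norm_num; linarith only [ua4]) (by norm_num; linarith only [ua5]) (by norm_num; linarith only [ua6]) (by norm_num; linarith only [ua7]) (by norm_num; linarith only [ua8])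
  by_contra hc
  push Not at hc
  obtain ⟨hc0, hc1⟩ := hc
  simp only [List.mem_cons, List.not_mem_nil, or_false] at hf
  rcases hf with rfl | rfl | rfl | rfl
  · simp only [F0_val, S_val, F_val, N_val, ui_val, EE.pa, EE.pb, EE.pc, EE.kT, nyy, EE.x, EE.T, EE.p, EE.t, EE.nt, EE.v, E.val, NumIs.lkR] at hp
    push_cast at hp
    linarith only [hc0, hp]
  · simp only [F0_val, S_val, F_val, N_val, ui_val, EE.pa, EE.pb, EE.pc, EE.kT, nyy, EE.x, EE.T, EE.p, EE.t, EE.nt, EE.v, E.val, NumIs.lkR] at hp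
    push_cast at hp
    linarith only [hc1, hp]
  · simp only [F0_val, S_val, F_val, N_val, ui_val, EE.pa, EE.pb, EE.pc, EE.kT, nyy, EE.x, EE.T, EE.p, EE.t, EE.nt, EE.v, E.val, NumIs.lkR] at hp
    push_cast at hp
    linarith only [ua9, hp]
  · simp only [F0_val, S_val, F_val, N_val, ui_val, EE.pa, EE.pb, EE.pc, EE.kT, nyy, EE.x, EE.T, EE.p, EE.t, EE.nt, EE.v, E.val, NumIs.lkR] at hp
    push_cast at hp
    linarith only [ua10, hp]

end S0R

end Pool.Agent.Work.MP_b30479_gtS.G2

end

section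

/-!
# `ring | 3` at slot `0`, the exceptional case: rows, right ramp of the inner variable
-/

set_option linter.unusedSimpArgs false
set_option linter.unusedVariables false

set_option deprecated.oldSectionVars true

namespace Pool.Agent.Work.MP_b30479_gtS.G2

open VOL NumUs

namespace S0R

open NumUs.E ER

theorem kr1 {x a w b s t : ℝ} (ua1 : 5000 / 10000 ≤ x) (ua2 : x ≤ 6000 / 10000) (ua3 : -(10 / 10000) ≤ a) (ua4 : a ≤ 0 / 10000) (ua5 : 0 / 10000 ≤ w) (ua6 : w ≤ 1800 / 10000) (ua7 : -(1145 / 10000) ≤ b) (ua8 : b ≤ 0 / 10000) (ua9 : 0 / 10000 ≤ s) (ua10 : s ≤ 500 / 10000) (ua11 : -(1057 / 10000) ≤ t) (ua12 : t ≤ -(150 / 10000)) (ua13 : 8 / 10 - s + w ≤ 9300 / 10000) :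
    rG (8 / 10 - s + w) (-NumIs.lnB (8 / 10 - s + w) (20 * (t * s) + b)) x a w b s t < 0 := by
  have h : chkT [neg (G pp (neg (E.lnB pp (add hh ER.b)))), sub pp (q 9300 10000)] 40
    304678301987019589834788046472833449151757853809725962999747519025919031458396042160211228301870204728402
    [NumIs.V.of 10000 5000 6000, NumIs.V.of 10000 (-10) 0, NumIs.V.of 10000 0 1800, NumIs.V.of 10000 (-1145) 0, NumIs.V.of 10000 0 500, NumIs.V.of 10000 (-1057) (-150)] = true := by
    decide +kernel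
  obtain ⟨f, hf, hp⟩ := chkT_sound h (xs := [x, a, w, b, s, t])
    (List.Forall₂.cons (NumIs.V.of_mem (by norm_num) (by norm_num; linarith only [ua1]) (by norm_num; linarith only [ua2])) (List.Forall₂.cons (NumIs.V.of_mem (by norm_num) (by norm_num; linarith only [ua3]) (by norm_num; linarith only [ua4])) (List.Forall₂.cons (NumIs.V.of_mem (by norm_num) (by norm_num; linarith only [ua5]) (by norm_num; linarith only [ua6])) (List.Forall₂.cons (NumIs.V.of_mem (by norm_num) (by norm_num; linarith only [ua7]) (by norm_num; linarith only [ua8])) (List.Forall₂.cons (NumIs.V.of_mem (by norm_num) (by norm_num; linarith only [ua9]) (by norm_num; linarith only [ua10])) (List.Forall₂.cons (NumIs.V.of_mem (by norm_num) (by norm_num; linarith only [ua11]) (by norm_num; linarith only [ua12])) List.Forall₂.nil))))))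
  by_contra hc
  push Not at hc
  simp only [List.mem_cons, List.not_mem_nil, or_false] at hf
  rcases hf with rfl | rfl
  · simp only [G_val, V_val, ER.pp, ER.rr, ER.hh, ER.x, ER.a, ER.w, ER.b, ER.s, ER.t, E.val, NumIs.lkR] at hp
    push_cast at hp
    linarith only [hc, hp]
  · simp only [G_val, V_val, ER.pp, ER.rr, ER.hh, ER.x, ER.a, ER.w, ER.b, ER.s, ER.t, E.val, NumIs.lkR] at hp
    push_cast at hp
    linarith only [ua13, hp]

theorem kr2 {x a w b s t : ℝ} (ua1 : 5000 / 10000 ≤ x) (ua2 : x ≤ 6000 / 10000) (ua3 : -(10 / 10000) ≤ a) (ua4 : a ≤ 0 / 10000) (ua5 : 1300 / 10000 ≤ w) (ua6 : w ≤ 3200 / 10000) (ua7 : -(1145 / 10000) ≤ b) (ua8 : b ≤ 0 / 10000) (ua9 : 0 / 10000 ≤ s) (ua10 : s ≤ 500 / 10000) (ua11 : -(1057 / 10000) ≤ t) (ua12 : t ≤ -(150 / 10000)) (ua13 : 9300 / 10000 ≤ 8 / 10 - s + w) (ua14 : 8 / 10 - s + w ≤ 10700 / 10000) :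
    rG (9300 / 10000) (-NumIs.lnB (9300 / 10000) (20 * (t * s) + b)) x a w b s t < 0 := by
  have h : chkT [neg (G (q 9300 10000) (neg (E.lnB (q 9300 10000) (add hh ER.b)))), sub (q 9300 10000) pp, sub pp (q 10700 10000)] 40
    613483737752568645
    [NumIs.V.of 10000 5000 6000, NumIs.V.of 10000 (-10) 0, NumIs.V.of 10000 1300 3200, NumIs.V.of 10000 (-1145) 0, NumIs.V.of 10000 0 500, NumIs.V.of 10000 (-1057) (-150)] = true := by
    decide +kernel
  obtain ⟨f, hf, hp⟩ := chkT_sound h (xs := [x, a, w, b, s, t])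
    (List.Forall₂.cons (NumIs.V.of_mem (by norm_num) (by norm_num; linarith only [ua1]) (by norm_num; linarith only [ua2])) (List.Forall₂.cons (NumIs.V.of_mem (by norm_num) (by norm_num; linarith only [ua3]) (by norm_num; linarith only [ua4])) (List.Forall₂.cons (NumIs.V.of_mem (by norm_num) (by norm_num; linarith only [ua5]) (by norm_num; linarith only [ua6])) (List.Forall₂.cons (NumIs.V.of_mem (by norm_num) (by norm_num; linarith only [ua7]) (by norm_num; linarith only [ua8])) (List.Forall₂.cons (NumIs.V.of_mem (by norm_num) (by norm_num; linarith only [ua9]) (by norm_num; linarith only [ua10])) (List.Forall₂.cons (NumIs.V.of_mem (by norm_num) (by norm_num; linarith only [ua11]) (by norm_num; linarith only [ua12])) List.Forall₂.nil))))))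
  by_contra hc
  push Not at hc
  simp only [List.mem_cons, List.not_mem_nil, or_false] at hf
  rcases hf with rfl | rfl | rfl
  · simp only [G_val, V_val, ER.pp, ER.rr, ER.hh, ER.x, ER.a, ER.w, ER.b, ER.s, ER.t, E.val, NumIs.lkR] at hp
    push_cast at hp
    linarith only [hc, hp]
  · simp only [G_val, V_val, ER.pp, ER.rr, ER.hh, ER.x, ER.a, ER.w, ER.b, ER.s, ER.t, E.val, NumIs.lkR] at hp
    push_cast at hp
    linarith only [ua13, hp]
  · simp only [G_val, V_val, ER.pp, ER.rr, ER.hh, ER.x, ER.a, ER.w, ER.b, ER.s, ER.t, E.val, NumIs.lkR] at hp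
    push_cast at hp
    linarith only [ua14, hp]

theorem kr3 {x a w b s t : ℝ} (ua1 : 5000 / 10000 ≤ x) (ua2 : x ≤ 6000 / 10000) (ua3 : -(10 / 10000) ≤ a) (ua4 : a ≤ 0 / 10000) (ua5 : 2700 / 10000 ≤ w) (ua6 : w ≤ 3900 / 10000) (ua7 : -(1145 / 10000) ≤ b) (ua8 : b ≤ 0 / 10000) (ua9 : 0 / 10000 ≤ s) (ua10 : s ≤ 500 / 10000) (ua11 : -(1057 / 10000) ≤ t) (ua12 : t ≤ -(150 / 10000)) (ua13 : 10700 / 10000 ≤ 8 / 10 - s + w) :
    rG (8 / 10 - s + w - 1) (-Real.pi - NumIs.lnB (8 / 10 - s + w - 1) (20 * (t * s) + b)) x a w b s t < 0 := by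
  have h : chkT [neg (G (sub pp (q 1 1)) (sub (neg pi) (E.lnB (sub pp (q 1 1)) (add hh ER.b)))), sub (q 10700 10000) pp] 40
    15042505307056869000646134553261085211944070157531760349871496159098647106
    [NumIs.V.of 10000 5000 6000, NumIs.V.of 10000 (-10) 0, NumIs.V.of 10000 2700 3900, NumIs.V.of 10000 (-1145) 0, NumIs.V.of 10000 0 500, NumIs.V.of 10000 (-1057) (-150)] = true := by
    decide +kernel
  obtain ⟨f, hf, hp⟩ := chkT_sound h (xs := [x, a, w, b, s, t])
    (List.Forall₂.cons (NumIs.V.of_mem (by norm_num) (by norm_num; linarith only [ua1]) (by norm_num; linarith only [ua2])) (List.Forall₂.cons (NumIs.V.of_mem (by norm_num) (by norm_num; linarith only [ua3]) (by norm_num; linarith only [ua4])) (List.Forall₂.cons (NumIs.V.of_mem (by norm_num) (by norm_num; linarith only [ua5]) (by norm_num; linarith only [ua6])) (List.Forall₂.cons (NumIs.V.of_mem (by norm_num) (by norm_num; linarith only [ua7]) (by norm_num; linarith only [ua8])) (List.Forall₂.cons (NumIs.V.of_mem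 (by norm_num) (by norm_num; linarith only [ua9]) (by norm_num; linarith only [ua10])) (List.Forall₂.cons (NumIs.V.of_mem (by norm_num) (by norm_num; linarith only [ua11]) (by norm_num; linarith only [ua12])) List.Forall₂.nil))))))
  by_contra hc
  push Not at hc
  simp only [List.mem_cons, List.not_mem_nil, or_false] at hf
  rcases hf with rfl | rfl
  · simp only [G_val, V_val, ER.pp, ER.rr, ER.hh, ER.x, ER.a, ER.w, ER.b, ER.s, ER.t, E.val, NumIs.lkR] at hp
    push_cast at hp
    linarith only [hc, hp]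
  · simp only [G_val, V_val, ER.pp, ER.rr, ER.hh, ER.x, ER.a, ER.w, ER.b, ER.s, ER.t, E.val, NumIs.lkR] at hp
    push_cast at hp
    linarith only [ua13, hp]

end S0R

end Pool.Agent.Work.MP_b30479_gtS.G2

end

section

/-!
# The slot 0 of an inner digit `3` next to a ring, right ramp: certificates

the side of the digit
-/

set_option deprecated.oldSectionVars true

namespace Pool.Agent.Work.MP_b30479_gtS.G2

open VOL NumUs

namespace VL

namespace SZ3

open S33 (eH eG yl yr)
open NumIs (V)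
open NumUs.E (q var)

theorem k_Na0 : chkT [.sub eB1 (S0R.EE.N 10 3 (q 1300 10000) (q 0 1) (.add S0R.EE.x (q 1300
    10000))), S0R.EE.nyy 10 3, .sub (.sub S0R.EE.T S0R.EE.nt) (q 105 1000)] 45
    0x88a288112
    [V.of 10000 3000 3400, V.of 10000 0 570, V.of 10000 (-1050) 50] = true := by
  decide +kernel

theorem k_Na1 : chkT [.sub eB1 (S0R.EE.N 10 3 (q 1300 10000) (.neg .pi) (.add S0R.EE.x (q 1300
    10000))), .neg (S0R.EE.nyy 10 3)] 45
    0x981
    [V.of 10000 3000 3400, V.of 10000 0 570, V.of 10000 0 50] = true := by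
  decide +kernel

theorem k_Nb0 : chkT [.neg (S0R.EE.N 10 3 (q 1300 10000) (q 0 1) (.add S0R.EE.x (q 1300
    10000))), S0R.EE.nyy 10 3, .sub (.sub S0R.EE.T S0R.EE.nt) (q 105 1000)] 45
    0x8880a8122
    [V.of 10000 5000 6000, V.of 10000 0 570, V.of 10000 (-1050) 50] = true := by
  decide +kernel

theorem k_Nb1 : chkT [.neg (S0R.EE.N 10 3 (q 1300 10000) (.neg .pi) (.add S0R.EE.x (q 1300
    10000))), .neg (S0R.EE.nyy 10 3)] 45
    0x8
    [V.of 10000 5000 6000, V.of 10000 0 350, V.of 10000 0 50] = true := by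
  decide +kernel

theorem k_fa1a : chkT [.sub eB1 (S0R.EE.S 10 3), .sub eB1 (S0R.EE.F 10 3 (q 1 2) (q (-98)
    10000)), .sub (.sub S0R.EE.T S0R.EE.t) (q 1050 10000), .sub S0R.EE.v (q 4300 10000)] 45
    0x99a8133
    [V.of 10000 3000 3400, V.of 10000 0 570,
      V.of 10000 1000 1300, V.of 10000 (-1050) (-150)] = true := by
  decide +kernel

theorem k_fa1b : chkT [.sub eB1 (S0R.EE.S 10 3), .sub eB1 (S0R.EE.F 10 3 (.add S0R.EE.v (q 7
    100)) (q (-98) 10000)), .sub (.sub S0R.EE.T S0R.EE.t) (q 1050 10000), .sub (q 4300 10000)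
    S0R.EE.v, .sub S0R.EE.v (q 7300 10000)] 45
    0x99a39901399a990133299a39929929921013299a9929909922013399a399a39828182131322
    [V.of 10000 3000 3400, V.of 10000 0 570,
      V.of 10000 1000 4300, V.of 10000 (-1050) (-150)] = true := by
  decide +kernel

theorem k_fa1c : chkT [.sub eB1 (S0R.EE.S 10 3), .sub eB1 (S0R.EE.F 10 3 (q 80 100) (q (-98)
    10000)), .sub (.sub S0R.EE.T S0R.EE.t) (q 1050 10000), .sub (q 7300 10000) S0R.EE.v, .sub
    S0R.EE.v (q 75 100)] 45
    0x99a913a399a91339213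
    [V.of 10000 3000 3400, V.of 10000 0 570,
      V.of 10000 3900 4500, V.of 10000 (-1050) (-150)] = true := by
  decide +kernel

theorem k_faoa : chkT [.sub eB1 (S0R.EE.S 10 3), .sub eB1 (S0R.EE.F 10 3 (q 1 2) (q 220 10000)),
    .sub (.sub S0R.EE.T S0R.EE.t) (q 1000 10000), .sub S0R.EE.v (q 4300 10000)] 45
    0x89a8133
    [V.of 10000 3000 3400, V.of 10000 0 570,
      V.of 10000 1000 1300, V.of 10000 (-1000) 50] = true := by
  decide +kernel

theorem k_faob : chkT [.sub eB1 (S0R.EE.S 10 3), .sub eB1 (S0R.EE.F 10 3 (.add S0R.EE.v (q 7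
    100)) (q 220 10000)), .sub (.sub S0R.EE.T S0R.EE.t) (q 1000 10000), .sub (q 4300 10000)
    S0R.EE.v, .sub S0R.EE.v (q 7300 10000)] 45
    0x99a3999001399a91aa91133329992a9921aa99099902011333299a39992a999201aa9909822a3992990989082282201113331399a9a38821138a388212322
    [V.of 10000 3000 3400, V.of 10000 0 570,
      V.of 10000 1000 4300, V.of 10000 (-1000) 50] = true := by
  decide +kernel

theorem k_faoc : chkT [.sub eB1 (S0R.EE.S 10 3), .sub eB1 (S0R.EE.F 10 3 (q 80 100) (q 220
    10000)), .sub (.sub S0R.EE.T S0R.EE.t) (q 1000 10000), .sub (q 7300 10000) S0R.EE.v, .sub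
    S0R.EE.v (q 75 100)] 45
    0x99a3a39a3199a39139213
    [V.of 10000 3000 3400, V.of 10000 0 570,
      V.of 10000 3900 4500, V.of 10000 (-1000) 50] = true := by
  decide +kernel

theorem k_faAa : chkT [.sub eB1 (S0R.EE.S 10 3), .sub eB1 (S0R.EE.F 10 3 (q 1 2) (q 4385
    100000)), .sub (.sub S0R.EE.T S0R.EE.t) (q 930 10000), .sub S0R.EE.v (q 4300 10000)] 45
    0x88a3813
    [V.of 10000 3000 3400, V.of 10000 0 570,
      V.of 10000 1000 1300, V.of 10000 (-920) 0] = true := by
  decide +kernel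

theorem k_faAb : chkT [.sub eB1 (S0R.EE.S 10 3), .sub eB1 (S0R.EE.F 10 3 (.add S0R.EE.v (q 7
    100)) (q 4385 100000)), .sub (.sub S0R.EE.T S0R.EE.t) (q 930 10000), .sub (q 4300 10000)
    S0R.EE.v, .sub S0R.EE.v (q 7300 10000)] 45
    0x99a3999001399a3999910013299909910a9921aa9929992201133329992a99099201aa99299822011aaa99299999220099999a339821008208220111333399098812a8a3818213322
    [V.of 10000 3000 3400, V.of 10000 0 570,
      V.of 10000 1000 4300, V.of 10000 (-920) 0] = true := by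
  decide +kernel

theorem k_faAc : chkT [.sub eB1 (S0R.EE.S 10 3), .sub eB1 (S0R.EE.F 10 3 (q 80 100) (q 4385
    100000)), .sub (.sub S0R.EE.T S0R.EE.t) (q 930 10000), .sub (q 7300 10000) S0R.EE.v, .sub
    S0R.EE.v (q 75 100)] 45
    0x99a39190a399a33992113
    [V.of 10000 3000 3400, V.of 10000 0 570,
      V.of 10000 3900 4500, V.of 10000 (-920) 0] = true := by
  decide +kernel

theorem k_faBa : chkT [.sub eB1 (S0R.EE.S 10 3), .sub eB1 (S0R.EE.F 10 3 (q 1 2) (q 570 10000)),
    .sub (.sub S0R.EE.T S0R.EE.t) (q 930 10000), .sub S0R.EE.v (q 4000 10000)] 45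
    0x88181
    [V.of 10000 3000 3400, V.of 10000 0 570,
      V.of 10000 1000 1000, V.of 10000 (-920) 0] = true := by
  decide +kernel

theorem k_faBb : chkT [.sub eB1 (S0R.EE.S 10 3), .sub eB1 (S0R.EE.F 10 3 (.add S0R.EE.v (q 10
    100)) (q 570 10000)), .sub (.sub S0R.EE.T S0R.EE.t) (q 930 10000), .sub (q 4000 10000)
    S0R.EE.v, .sub S0R.EE.v (q 7000 10000)] 45
    0x9990a3399299932019992a9921aa999920211333299299822a33999a3998281213999812a9a9139a99929a9a3a3139882818121021308a813a3818221330398838281823212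
    [V.of 10000 3000 3400, V.of 10000 0 570,
      V.of 10000 1000 4000, V.of 10000 (-920) 0] = true := by
  decide +kernel

theorem k_faBc : chkT [.sub eB1 (S0R.EE.S 10 3), .sub eB1 (S0R.EE.F 10 3 (q 80 100) (q 570
    10000)), .sub (.sub S0R.EE.T S0R.EE.t) (q 930 10000), .sub (q 7000 10000) S0R.EE.v, .sub
    S0R.EE.v (q 75 100)] 45
    0x99290c929090aa911392a339ccc9220993299a339103921
    [V.of 10000 3000 3400, V.of 10000 0 570,
      V.of 10000 3600 4500, V.of 10000 (-920) 0] = true := by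
  decide +kernel

theorem k_fb1b : chkT [.neg (S0R.EE.S 10 3), .neg (S0R.EE.F 10 3 (.add S0R.EE.v (q 7 100)) (q
    (-98) 10000)), .sub (.sub S0R.EE.T S0R.EE.t) (q 1050 10000), .sub S0R.EE.v (q 7300 10000)]
    45
    0xbbb99a33220bbb893220199a3a39a3189a38131388a3813229909929920a3999299203139982a33889a81333120
    [V.of 10000 5000 6000, V.of 10000 0 570,
      V.of 10000 1000 2300, V.of 10000 (-1050) (-150)] = true := by
  decide +kernel

theorem k_fb1c : chkT [.neg (S0R.EE.S 10 3), .neg (S0R.EE.F 10 3 (q 80 100) (q (-98) 10000)),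
    .sub (.sub S0R.EE.T S0R.EE.t) (q 1050 10000), .sub (q 7300 10000) S0R.EE.v, .sub S0R.EE.v (q
    75 100)] 45
    0xcccc9a9a31c92901a399a3391132200ccc920090cc920909028932aac8290a3a38290a3a311cc920c829008290ac8290a3829013a3139cc802908282cc822cc9209209082a3338cc822cc92092090823112cccc9a9191a399a33911322009a9a319a3911a399a339113299a3913b2b029a9a319a3911a33999a39139231b200
    [V.of 10000 5000 6000, V.of 10000 0 570,
      V.of 10000 1300 2500, V.of 10000 (-1050) (-150)] = true := by
  decide +kernel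

theorem k_fbob : chkT [.neg (S0R.EE.S 10 3), .neg (S0R.EE.F 10 3 (.add S0R.EE.v (q 7 100)) (q
    220 10000)), .sub (.sub S0R.EE.T S0R.EE.t) (q 1000 10000), .sub S0R.EE.v (q 7300 10000)] 45
    0xbbb99a3981132209909929920a339990990a39901331098082980a382a398082a313888a3382388823112
    [V.of 10000 5000 6000, V.of 10000 0 570,
      V.of 10000 1000 2300, V.of 10000 (-1000) 50] = true := by
  decide +kernel

theorem k_fboc : chkT [.neg (S0R.EE.S 10 3), .neg (S0R.EE.F 10 3 (q 80 100) (q 220 10000)), .sub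
    (.sub S0R.EE.T S0R.EE.t) (q 1000 10000), .sub (q 7300 10000) S0R.EE.v, .sub S0R.EE.v (q 75
    100)] 45
    0xcccc9c9290a39931a399a3391132200ccc9000c829029082acc9008a3290a382a31cc822cc9008208290a31a3cccc9200088a33299a330cc8028290182a31388838282ccc8022828290a3338cc820828298203112cc9209290ccc9a32c92100a9a319a319939012a9a319a3199a33911920a339ccc99a339120099a3913099a391323199a3913b0b220
    [V.of 10000 5000 6000, V.of 10000 0 570,
      V.of 10000 1300 2500, V.of 10000 (-1000) 50] = true := by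
  decide +kernel

theorem k_fbZb : chkT [.neg (S0R.EE.S 10 3), .neg (S0R.EE.F 10 3 (.add S0R.EE.v (q 7 100)) (q
    570 10000)), .sub (.sub S0R.EE.T S0R.EE.t) (q 930 10000), .sub S0R.EE.v (q 7300 10000)] 45
    0xbbb9a9191a33220bbb893220bb82211992a992a31a91a3a3039990a3389a38a323219b9099091089a3813231088380a8a3a318a3188381801388a381322
    [V.of 10000 5000 6000, V.of 10000 0 570,
      V.of 10000 1000 2300, V.of 10000 (-920) 0] = true := by
  decide +kernel

theorem k_fbZc : chkT [.neg (S0R.EE.S 10 3), .neg (S0R.EE.F 10 3 (q 80 100) (q 570 10000)), .sub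
    (.sub S0R.EE.T S0R.EE.t) (q 930 10000), .sub (q 7300 10000) S0R.EE.v, .sub S0R.EE.v (q 75
    100)] 45
    0xccccccc9200899a3391391291ac9290a3a319ac9290131a3389c9290a3391312200cc82282c82ccc8222820820acc82082a3a382a3138893c8a38129a39109133908282aaa8a3a3119a3190a382a313088282c828082ac8280821382a33188a8a3a318a31880138802312cccc922009cc920c929009139290912cc920929092910aacc92092a3a3a3a31aa9a3a3a3a3110cc920929920a3a3a311c9ac909013922ccc9220920cc92099309902920a313893ccc99a33912009a9a319a319130389a9a319a31919033219a9191a3913b2b020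
    [V.of 10000 5000 6000, V.of 10000 0 570,
      V.of 10000 1300 2500, V.of 10000 (-920) 0] = true := by
  decide +kernel

end SZ3

end VL

end Pool.Agent.Work.MP_b30479_gtS.G2

end

section

/-!
# The slot 0 of an inner digit `3` next to a ring, right ramp: the exceptional case, certificates

the height of the hinge in `[-7/10000, 0]`
-/

set_option deprecated.oldSectionVars true

namespace Pool.Agent.Work.MP_b30479_gtS.G2

open VOL NumUs

namespace VL

namespace SZ3

open S33 (eH)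
open NumIs (V)

section
open NumUs.E

def eEr : E :=
  neg (add (add eB1 (q 11 1000)) (sub (add (E.lnA (add (var 0) (var 2)) (sub (mul (q 4 1)
    (mul (var 3) (var 2))) (eH (var 0) (var 1)))) (E.lnA (sub (var 0) (var 2)) (add (mul (q 4 1)
    (mul (var 3) (var 2))) (eH (var 0) (var 1))))) (mul (q 2 1) (E.lnA (var 0)
    (eH (var 0) (var 1))))))

def eEf (A B : E) : E :=
  neg (add (add eB1 (q 11 1000)) (sub (add A B) (mul (q 2 1) (E.lnA (var 0)
    (eH (var 0) (var 1))))))

/-- `ρ - h` -/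
def eU : E := sub (var 3) (eH (var 0) (var 1))
/-- `h + ρ` -/
def eV : E := add (eH (var 0) (var 1)) (var 3)

theorem eEr_val (x T s ρ : ℝ) : eEr.val [x, T, s, ρ] =
    -(355 / 1000 - 6 / 10 * x + 11 / 1000 + (NumIs.lnA (x + s) (4 * (ρ * s) - S33.hR x T) +
      NumIs.lnA (x - s) (4 * (ρ * s) + S33.hR x T) - 2 * NumIs.lnA x (S33.hR x T))) := by
  simp only [eEr, E.val, eB1_val, S33.eH_val, NumIs.lkR]
  push_cast
  ring_nf

theorem eEf_val (x T a ρ : ℝ) (A B : E) : (eEf A B).val [x, T, a, ρ] =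
    -(355 / 1000 - 6 / 10 * x + 11 / 1000 + (A.val [x, T, a, ρ] + B.val [x, T, a, ρ] -
      2 * NumIs.lnA x (S33.hR x T))) := by
  simp only [eEf, E.val, eB1_val, S33.eH_val, NumIs.lkR]
  push_cast
  ring

theorem eP_val (x T a ρ : ℝ) : eP.val [x, T, a, ρ] = x + 1 / 2 - a := by
  simp only [eP, E.val, NumIs.lkR]
  push_cast
  ring

theorem eU_val (x T a ρ : ℝ) : eU.val [x, T, a, ρ] = ρ - S33.hR x T := by
  simp only [eU, E.val, S33.eH_val, NumIs.lkR]

theorem eV_val (x T a ρ : ℝ) : eV.val [x, T, a, ρ] = S33.hR x T + ρ := by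
  simp only [eV, E.val, S33.eH_val, NumIs.lkR]

end

open NumUs.E (q var)

theorem k_Nea : chkT [.sub eB1 (S0R.EE.N 10 3 (q 1300 10000) (.add .pi (.lnB (q 1300 10000)
    (S0R.EE.nyy 10 3))) (.sub S0R.EE.x (q 1300 10000)))] 45
    0x8
    [V.of 10000 3000 3400, V.of 10000 (-7) 0, V.of 10000 (-1057) (-150)] = true := by
  decide +kernel

theorem k_fea : chkT [.sub eB1 (S0R.EE.S 10 3), .sub eB1 (S0R.EE.F 10 3 (q 1 2) (q (-98)
    10000)), .sub (.sub S0R.EE.T S0R.EE.t) (q 1050 10000), .sub S0R.EE.v (q 4300 10000)] 45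
    0x8
    [V.of 10000 3000 3400, V.of 10000 (-7) 0,
      V.of 10000 1000 1300, V.of 10000 (-1057) (-150)] = true := by
  decide +kernel

theorem k_feb : chkT [.sub eB1 (S0R.EE.S 10 3), .sub eB1 (S0R.EE.F 10 3 (.add S0R.EE.v (q 7
    100)) (q (-98) 10000)), .sub (.sub S0R.EE.T S0R.EE.t) (q 1050 10000), .sub (q 4300 10000)
    S0R.EE.v, .sub S0R.EE.v (q 7300 10000)] 45
    0x9909299229908990328818222
    [V.of 10000 3000 3400, V.of 10000 (-7) 0,
      V.of 10000 1000 4300, V.of 10000 (-1057) (-150)] = true := by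
  decide +kernel

theorem k_fec : chkT [.sub eB1 (S0R.EE.S 10 3), .sub eB1 (S0R.EE.F 10 3 (q 80 100) (q (-98)
    10000)), .sub (.sub S0R.EE.T S0R.EE.t) (q 1050 10000), .sub (q 7300 10000) S0R.EE.v, .sub
    S0R.EE.v (q 75 100)] 45
    0x993
    [V.of 10000 3000 3400, V.of 10000 (-7) 0,
      V.of 10000 3900 4500, V.of 10000 (-1057) (-150)] = true := by
  decide +kernel

theorem k_Er : chkT [eEr] 45
    0x880882888020288088208880882028808880880022020
    [V.of 10000 3000 5000, V.of 10000 (-7) 0,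
      V.of 10000 1250 2500, V.of 10000 840 895] = true := by
  decide +kernel

theorem k_EfA : chkT [eEf (.lnA eP eU) (.lnA eQ eN), .sub (.add (var 0) (var 2)) (q 4 10)] 45
    0x980828820
    [V.of 10000 3000 4000, V.of 10000 (-7) 0,
      V.of 10000 0 1000, V.of 10000 840 895] = true := by
  decide +kernel

theorem k_EfB : chkT [eEf (.lnA eP eU) (.lnA (q 1 10) eN), .sub (q 4 10) (.add (var 0) (var 2)),
    .sub (.add (var 0) (var 2)) (q 6 10), .sub (.sub (var 0) (var 2)) (q 4 10)] 45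
    0x888008b8080288002
    [V.of 10000 3000 5000, V.of 10000 (-7) 0,
      V.of 10000 0 2500, V.of 10000 840 895] = true := by
  decide +kernel

theorem k_EfC : chkT [eEf (.lnA (q 1 10) eU) (.lnA (q 1 10) eN)] 45
    0x8
    [V.of 10000 4000 5000, V.of 10000 (-7) 0,
      V.of 10000 0 1000, V.of 10000 840 895] = true := by
  decide +kernel

theorem k_EfD : chkT [eEf (.lnA eP eU) (.lnA (.sub (.add (var 0) (var 2)) (q 1 2)) eV), .sub (q
    6 10) (.add (var 0) (var 2))] 45
    0x8828808929020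
    [V.of 10000 3500 5000, V.of 10000 (-7) 0,
      V.of 10000 1000 2500, V.of 10000 840 895] = true := by
  decide +kernel

end SZ3

end VL

end Pool.Agent.Work.MP_b30479_gtS.G2

end
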