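import Pool.Agent.Work.MP_b30479_gt.TBS.G2.S0RF_4
import Pool.Agent.Work.MP_b30479_gt.TBS.G2.S0RV4_4
import Pool.Agent.Work.MP_b30479_gt.TBS.G2.S0RV3_5
import Pool.Agent.Work.MP_b30479_gt.TBS.G2.S0RF_2
import Pool.Agent.Work.MP_b30479_gt.TBS.G2.S0RD_1
import Pool.Agent.Work.MP_b30479_gt.TBS.G2.VZ3X
import Pool.Agent.Work.MP_b30479_gt.TBS.NumU.GenD
import Pool.Agent.Work.MP_b30479_gt.TBS.NumU.GenC

section

/-!
# Part of `S0RG`
-/
set_option linter.unusedVariables false

namespace Pool.Agent.Work.MP_b30479_gtS.G2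

open VOL NumUs

namespace S0R

/-- left neighbour `3`, `3e`, ring, `v.re ≥ u.re + 1/10`, `x` in `[.30, .40]` -/
theorem far_3a {T t : ℝ} {u v w : ℂ} (hx : 30 / 100 ≤ u.re) (hx' : u.re ≤ 40 / 100)
    (hu : u.im = 10 / 3 * T * (6 / 10 - u.re)) (hT : -(28 / 1000) ≤ T) (hT' : T ≤ 57 / 1000)
    (hK : K1 T t w ∨ Ko T t w ∨ KZ T t w) (hv : v.im = t) (hp : 1 / 10 ≤ v.re - u.re)
    (hv' : v.re ≤ 75 / 100) (hS : 0 ≤ SM 0 u v w) (hr : SinNe (v + w)) :
    S3 1 (-(10 / 3 * T)) u v < 66 / 100 - 3 / 2 * u.re := by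
  have e : u.re + (v.re - u.re) = v.re := by ring
  rcases hK with hK | hK | hK
  · obtain ⟨g1, g2, g3⟩ := H_all (τ := -98 / 10000) hK hv hv' hr (by norm_num) (by norm_num)
      (by norm_num)
    obtain ⟨a1, a2, a3, -, -, -, -, -⟩ := hK
    rcases le_total v.re (43 / 100) with h | h
    · exact far_core hu (lt_of_lt_of_le (by norm_num) hp) (by linarith only [hx, hv']) (lt_of_lt_of_le (by norm_num) hx) (lt_of_le_of_lt hx' (by norm_num)) hv hS g1
        (far3a_1a (le_trans (by norm_num) hx) (le_trans hx' (by norm_num)) (le_trans (by norm_num) hT) (le_trans hT' (by norm_num)) (le_trans (by norm_num) hp) (by linarith only [hx, h]) (le_trans (by norm_num) a1) (le_trans a2 (by norm_num)) (le_trans a3 (by norm_num)) (by linarith only [h]))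
    rcases le_total v.re (73 / 100) with h' | h'
    · have g := g2 h h'
      rw [← e] at g
      exact far_core hu (lt_of_lt_of_le (by norm_num) hp) (by linarith only [hx, hv']) (lt_of_lt_of_le (by norm_num) hx) (lt_of_le_of_lt hx' (by norm_num)) hv hS g
        (far3a_1b (le_trans (by norm_num) hx) (le_trans hx' (by norm_num)) (le_trans (by norm_num) hT) (le_trans hT' (by norm_num)) (le_trans (by norm_num) hp) (by linarith only [hx, h']) (le_trans (by norm_num) a1) (le_trans a2 (by norm_num)) (le_trans a3 (by norm_num)) (by linarith only [h]) (by linarith only [h']))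
    · exact far_core hu (lt_of_lt_of_le (by norm_num) hp) (by linarith only [hx, hv']) (lt_of_lt_of_le (by norm_num) hx) (lt_of_le_of_lt hx' (by norm_num)) hv hS (g3 h')
        (far3a_1c (le_trans (by norm_num) hx) (le_trans hx' (by norm_num)) (le_trans (by norm_num) hT) (le_trans hT' (by norm_num)) (by linarith only [hx', h']) (by linarith only [hx, hv']) (le_trans (by norm_num) a1) (le_trans a2 (by norm_num)) (le_trans a3 (by norm_num)) (by linarith only [h']) (by linarith only [hv']))
  · obtain ⟨g1, g2, g3⟩ := H_all (τ := 220 / 10000) hK hv hv' hr (by norm_num) (by norm_num)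
      (by norm_num)
    obtain ⟨a1, a2, a3, -, -, -, -, -⟩ := hK
    rcases le_total v.re (43 / 100) with h | h
    · exact far_core hu (lt_of_lt_of_le (by norm_num) hp) (by linarith only [hx, hv']) (lt_of_lt_of_le (by norm_num) hx) (lt_of_le_of_lt hx' (by norm_num)) hv hS g1
        (far3a_oa (le_trans (by norm_num) hx) (le_trans hx' (by norm_num)) (le_trans (by norm_num) hT) (le_trans hT' (by norm_num)) (le_trans (by norm_num) hp) (by linarith only [hx, h]) (le_trans (by norm_num) a1) (le_trans a2 (by norm_num)) (le_trans a3 (by norm_num)) (by linarith only [h]))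
    rcases le_total v.re (73 / 100) with h' | h'
    · have g := g2 h h'
      rw [← e] at g
      exact far_core hu (lt_of_lt_of_le (by norm_num) hp) (by linarith only [hx, hv']) (lt_of_lt_of_le (by norm_num) hx) (lt_of_le_of_lt hx' (by norm_num)) hv hS g
        (far3a_ob (le_trans (by norm_num) hx) (le_trans hx' (by norm_num)) (le_trans (by norm_num) hT) (le_trans hT' (by norm_num)) (le_trans (by norm_num) hp) (by linarith only [hx, h']) (le_trans (by norm_num) a1) (le_trans a2 (by norm_num)) (le_trans a3 (by norm_num)) (by linarith only [h]) (by linarith only [h']))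
    · exact far_core hu (lt_of_lt_of_le (by norm_num) hp) (by linarith only [hx, hv']) (lt_of_lt_of_le (by norm_num) hx) (lt_of_le_of_lt hx' (by norm_num)) hv hS (g3 h')
        (far3a_oc (le_trans (by norm_num) hx) (le_trans hx' (by norm_num)) (le_trans (by norm_num) hT) (le_trans hT' (by norm_num)) (by linarith only [hx', h']) (by linarith only [hx, hv']) (le_trans (by norm_num) a1) (le_trans a2 (by norm_num)) (le_trans a3 (by norm_num)) (by linarith only [h']) (by linarith only [hv']))
  · obtain ⟨g1, g2, g3⟩ := H_all (τ := 570 / 10000) hK hv hv' hr (by norm_num) (by norm_num)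
      (by norm_num)
    obtain ⟨a1, a2, a3, -, -, -, -, -⟩ := hK
    rcases le_total v.re (43 / 100) with h | h
    · exact far_core hu (lt_of_lt_of_le (by norm_num) hp) (by linarith only [hx, hv']) (lt_of_lt_of_le (by norm_num) hx) (lt_of_le_of_lt hx' (by norm_num)) hv hS g1
        (far3a_Za (le_trans (by norm_num) hx) (le_trans hx' (by norm_num)) (le_trans (by norm_num) hT) (le_trans hT' (by norm_num)) (le_trans (by norm_num) hp) (by linarith only [hx, h]) (le_trans (by norm_num) a1) (le_trans a2 (by norm_num)) (le_trans a3 (by norm_num)) (by linarith only [h]))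
    rcases le_total v.re (73 / 100) with h' | h'
    · have g := g2 h h'
      rw [← e] at g
      exact far_core hu (lt_of_lt_of_le (by norm_num) hp) (by linarith only [hx, hv']) (lt_of_lt_of_le (by norm_num) hx) (lt_of_le_of_lt hx' (by norm_num)) hv hS g
        (far3a_Zb (le_trans (by norm_num) hx) (le_trans hx' (by norm_num)) (le_trans (by norm_num) hT) (le_trans hT' (by norm_num)) (le_trans (by norm_num) hp) (by linarith only [hx, h']) (le_trans (by norm_num) a1) (le_trans a2 (by norm_num)) (le_trans a3 (by norm_num)) (by linarith only [h]) (by linarith only [h']))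
    · exact far_core hu (lt_of_lt_of_le (by norm_num) hp) (by linarith only [hx, hv']) (lt_of_lt_of_le (by norm_num) hx) (lt_of_le_of_lt hx' (by norm_num)) hv hS (g3 h')
        (far3a_Zc (le_trans (by norm_num) hx) (le_trans hx' (by norm_num)) (le_trans (by norm_num) hT) (le_trans hT' (by norm_num)) (by linarith only [hx', h']) (by linarith only [hx, hv']) (le_trans (by norm_num) a1) (le_trans a2 (by norm_num)) (le_trans a3 (by norm_num)) (by linarith only [h']) (by linarith only [hv']))

/-- left neighbour `3e`, `v.re ≥ u.re + 1/10`, `x` in `[.40, .50]` -/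
theorem far_3e {T t : ℝ} {u v w : ℂ} (hx : 40 / 100 ≤ u.re) (hx' : u.re ≤ 1 / 2)
    (hu : u.im = 10 / 3 * T * (6 / 10 - u.re)) (hT : -(28 / 1000) ≤ T) (hT' : T ≤ -(5 / 1000))
    (hK : K1 T t w ∨ Ko T t w ∨ KZ T t w) (hv : v.im = t) (hp : 1 / 10 ≤ v.re - u.re)
    (hv' : v.re ≤ 75 / 100) (hS : 0 ≤ SM 0 u v w) (hr : SinNe (v + w)) :
    S3 1 (-(10 / 3 * T)) u v < -(35 / 1000) := by
  have e : u.re + (v.re - u.re) = v.re := by ring
  rcases hK with hK | hK | hK
  · obtain ⟨g1, g2, g3⟩ := H_all (τ := -98 / 10000) hK hv hv' hr (by norm_num) (by norm_num)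
      (by norm_num)
    obtain ⟨a1, a2, a3, -, -, -, -, -⟩ := hK
    rcases le_total v.re (43 / 100) with h | h
    · exfalso
      linarith only [hx, hp, h]
    rcases le_total v.re (73 / 100) with h' | h'
    · have g := g2 h h'
      rw [← e] at g
      exact far_core hu (lt_of_lt_of_le (by norm_num) hp) (by linarith only [hx, hv']) (lt_of_lt_of_le (by norm_num) hx) (lt_of_le_of_lt hx' (by norm_num)) hv hS g
        (far3e_1b (le_trans (by norm_num) hx) (le_trans hx' (by norm_num)) (le_trans (by norm_num) hT) (le_trans hT' (by norm_num)) (le_trans (by norm_num) hp) (by linarith only [hx, h']) (le_trans (by norm_num) a1) (le_trans a2 (by norm_num)) (le_trans a3 (by norm_num)) (by linarith only [hx, hp]) (by linarith only [h']))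
    · exact far_core hu (lt_of_lt_of_le (by norm_num) hp) (by linarith only [hx, hv']) (lt_of_lt_of_le (by norm_num) hx) (lt_of_le_of_lt hx' (by norm_num)) hv hS (g3 h')
        (far3e_1c (le_trans (by norm_num) hx) (le_trans hx' (by norm_num)) (le_trans (by norm_num) hT) (le_trans hT' (by norm_num)) (by linarith only [hx', h']) (by linarith only [hx, hv']) (le_trans (by norm_num) a1) (le_trans a2 (by norm_num)) (le_trans a3 (by norm_num)) (by linarith only [h']) (by linarith only [hv']))
  · obtain ⟨g1, g2, g3⟩ := H_all (τ := 220 / 10000) hK hv hv' hr (by norm_num) (by norm_num)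
      (by norm_num)
    obtain ⟨a1, a2, a3, -, -, -, -, -⟩ := hK
    rcases le_total v.re (43 / 100) with h | h
    · exfalso
      linarith only [hx, hp, h]
    rcases le_total v.re (73 / 100) with h' | h'
    · have g := g2 h h'
      rw [← e] at g
      exact far_core hu (lt_of_lt_of_le (by norm_num) hp) (by linarith only [hx, hv']) (lt_of_lt_of_le (by norm_num) hx) (lt_of_le_of_lt hx' (by norm_num)) hv hS g
        (far3e_ob (le_trans (by norm_num) hx) (le_trans hx' (by norm_num)) (le_trans (by norm_num) hT) (le_trans hT' (by norm_num)) (le_trans (by norm_num) hp) (by linarith only [hx, h']) (le_trans (by norm_num) a1) (le_trans a2 (by norm_num)) (by linarith only [hx, hp]) (by linarith only [h']))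
    · exact far_core hu (lt_of_lt_of_le (by norm_num) hp) (by linarith only [hx, hv']) (lt_of_lt_of_le (by norm_num) hx) (lt_of_le_of_lt hx' (by norm_num)) hv hS (g3 h')
        (far3e_oc (le_trans (by norm_num) hx) (le_trans hx' (by norm_num)) (le_trans (by norm_num) hT) (le_trans hT' (by norm_num)) (by linarith only [hx', h']) (by linarith only [hx, hv']) (le_trans (by norm_num) a1) (le_trans a2 (by norm_num)) (by linarith only [h']) (by linarith only [hv']))
  · obtain ⟨g1, g2, g3⟩ := H_all (τ := 570 / 10000) hK hv hv' hr (by norm_num) (by norm_num)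
      (by norm_num)
    obtain ⟨a1, a2, a3, -, -, -, -, -⟩ := hK
    rcases le_total v.re (43 / 100) with h | h
    · exfalso
      linarith only [hx, hp, h]
    rcases le_total v.re (73 / 100) with h' | h'
    · have g := g2 h h'
      rw [← e] at g
      exact far_core hu (lt_of_lt_of_le (by norm_num) hp) (by linarith only [hx, hv']) (lt_of_lt_of_le (by norm_num) hx) (lt_of_le_of_lt hx' (by norm_num)) hv hS g
        (far3e_Zb (le_trans (by norm_num) hx) (le_trans hx' (by norm_num)) (le_trans (by norm_num) hT) (le_trans hT' (by norm_num)) (le_trans (by norm_num) hp) (by linarith only [hx, h']) (le_trans (by norm_num) a1) (le_trans a2 (by norm_num)) (by linarith only [hx, hp]) (by linarith only [h']))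
    · exact far_core hu (lt_of_lt_of_le (by norm_num) hp) (by linarith only [hx, hv']) (lt_of_lt_of_le (by norm_num) hx) (lt_of_le_of_lt hx' (by norm_num)) hv hS (g3 h')
        (far3e_Zc (le_trans (by norm_num) hx) (le_trans hx' (by norm_num)) (le_trans (by norm_num) hT) (le_trans hT' (by norm_num)) (by linarith only [hx', h']) (by linarith only [hx, hv']) (le_trans (by norm_num) a1) (le_trans a2 (by norm_num)) (by linarith only [h']) (by linarith only [hv']))

end S0R

end Pool.Agent.Work.MP_b30479_gtS.G2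

end

section

/-!
# Part of `S0RG`
-/
set_option linter.unusedVariables false

namespace Pool.Agent.Work.MP_b30479_gtS.G2

open VOL NumUs

namespace S0R

/-- left neighbour `3`, ring, `v.re ≥ u.re + 1/10`, `x` in `[.40, .50]` -/
theorem far_3z {T t : ℝ} {u v w : ℂ} (hx : 40 / 100 ≤ u.re) (hx' : u.re ≤ 1 / 2)
    (hu : u.im = 10 / 3 * T * (6 / 10 - u.re)) (hT : -(22 / 1000) ≤ T) (hT' : T ≤ 57 / 1000)
    (hK : K1 T t w ∨ Ko T t w ∨ KZ T t w) (hv : v.im = t) (hp : 1 / 10 ≤ v.re - u.re)
    (hv' : v.re ≤ 75 / 100) (hS : 0 ≤ SM 0 u v w) (hr : SinNe (v + w)) :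
    S3 1 (-(10 / 3 * T)) u v < 0 := by
  have e : u.re + (v.re - u.re) = v.re := by ring
  rcases hK with hK | hK | hK
  · obtain ⟨g1, g2, g3⟩ := H_all (τ := -98 / 10000) hK hv hv' hr (by norm_num) (by norm_num)
      (by norm_num)
    obtain ⟨a1, a2, a3, -, -, -, -, -⟩ := hK
    rcases le_total v.re (43 / 100) with h | h
    · exfalso
      linarith only [hx, hp, h]
    rcases le_total v.re (73 / 100) with h' | h'
    · have g := g2 h h'
      rw [← e] at g
      exact far_core hu (lt_of_lt_of_le (by norm_num) hp) (by linarith only [hx, hv']) (lt_of_lt_of_le (by norm_num) hx) (lt_of_le_of_lt hx' (by norm_num)) hv hS g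
        (far3z_1b (le_trans (by norm_num) hx) (le_trans hx' (by norm_num)) (le_trans (by norm_num) hT) (le_trans hT' (by norm_num)) (le_trans (by norm_num) hp) (by linarith only [hx, h']) (le_trans (by norm_num) a1) (le_trans a2 (by norm_num)) (le_trans a3 (by norm_num)) (by linarith only [hx, hp]) (by linarith only [h']))
    · exact far_core hu (lt_of_lt_of_le (by norm_num) hp) (by linarith only [hx, hv']) (lt_of_lt_of_le (by norm_num) hx) (lt_of_le_of_lt hx' (by norm_num)) hv hS (g3 h')
        (far3z_1c (le_trans (by norm_num) hx) (le_trans hx' (by norm_num)) (le_trans (by norm_num) hT) (le_trans hT' (by norm_num)) (by linarith only [hx', h']) (by linarith only [hx, hv']) (le_trans (by norm_num) a1) (le_trans a2 (by norm_num)) (le_trans a3 (by norm_num)) (by linarith only [h']) (by linarith only [hv']))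
  · obtain ⟨g1, g2, g3⟩ := H_all (τ := 220 / 10000) hK hv hv' hr (by norm_num) (by norm_num)
      (by norm_num)
    obtain ⟨a1, a2, a3, -, -, -, -, -⟩ := hK
    rcases le_total v.re (43 / 100) with h | h
    · exfalso
      linarith only [hx, hp, h]
    rcases le_total v.re (73 / 100) with h' | h'
    · have g := g2 h h'
      rw [← e] at g
      exact far_core hu (lt_of_lt_of_le (by norm_num) hp) (by linarith only [hx, hv']) (lt_of_lt_of_le (by norm_num) hx) (lt_of_le_of_lt hx' (by norm_num)) hv hS g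
        (far3z_ob (le_trans (by norm_num) hx) (le_trans hx' (by norm_num)) (le_trans (by norm_num) hT) (le_trans hT' (by norm_num)) (le_trans (by norm_num) hp) (by linarith only [hx, h']) (le_trans (by norm_num) a1) (le_trans a2 (by norm_num)) (le_trans a3 (by norm_num)) (by linarith only [hx, hp]) (by linarith only [h']))
    · exact far_core hu (lt_of_lt_of_le (by norm_num) hp) (by linarith only [hx, hv']) (lt_of_lt_of_le (by norm_num) hx) (lt_of_le_of_lt hx' (by norm_num)) hv hS (g3 h')
        (far3z_oc (le_trans (by norm_num) hx) (le_trans hx' (by norm_num)) (le_trans (by norm_num) hT) (le_trans hT' (by norm_num)) (by linarith only [hx', h']) (by linarith only [hx, hv']) (le_trans (by norm_num) a1) (le_trans a2 (by norm_num)) (le_trans a3 (by norm_num)) (by linarith only [h']) (by linarith only [hv']))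
  · obtain ⟨g1, g2, g3⟩ := H_all (τ := 570 / 10000) hK hv hv' hr (by norm_num) (by norm_num)
      (by norm_num)
    obtain ⟨a1, a2, a3, -, -, -, -, -⟩ := hK
    rcases le_total v.re (43 / 100) with h | h
    · exfalso
      linarith only [hx, hp, h]
    rcases le_total v.re (73 / 100) with h' | h'
    · have g := g2 h h'
      rw [← e] at g
      exact far_core hu (lt_of_lt_of_le (by norm_num) hp) (by linarith only [hx, hv']) (lt_of_lt_of_le (by norm_num) hx) (lt_of_le_of_lt hx' (by norm_num)) hv hS g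
        (far3z_Zb (le_trans (by norm_num) hx) (le_trans hx' (by norm_num)) (le_trans (by norm_num) hT) (le_trans hT' (by norm_num)) (le_trans (by norm_num) hp) (by linarith only [hx, h']) (le_trans (by norm_num) a1) (le_trans a2 (by norm_num)) (le_trans a3 (by norm_num)) (by linarith only [hx, hp]) (by linarith only [h']))
    · exact far_core hu (lt_of_lt_of_le (by norm_num) hp) (by linarith only [hx, hv']) (lt_of_lt_of_le (by norm_num) hx) (lt_of_le_of_lt hx' (by norm_num)) hv hS (g3 h')
        (far3z_Zc (le_trans (by norm_num) hx) (le_trans hx' (by norm_num)) (le_trans (by norm_num) hT) (le_trans hT' (by norm_num)) (by linarith only [hx', h']) (by linarith only [hx, hv']) (le_trans (by norm_num) a1) (le_trans a2 (by norm_num)) (le_trans a3 (by norm_num)) (by linarith only [h']) (by linarith only [hv']))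

theorem near_two {T t : ℝ} {u v : ℂ} (hx : 36 / 100 ≤ u.re) (hx' : u.re ≤ 1 / 2)
    (hu : u.im = 100 / 27 * T * (6 / 10 - u.re)) (hT : -(57 / 1000) ≤ T) (hT' : T ≤ 5 / 1000)
    (ht : -(114 / 1000) ≤ t) (ht' : t ≤ 5 / 1000) (hv : v.im = t)
    (hp : -(9 / 100) ≤ v.re - u.re) (hp' : v.re - u.re ≤ 1 / 10) (hr : SinNe (v - u)) :
    S3 1 (-(100 / 27 * T)) u v < 125 / 1000 + Real.pi * (1 / 2) * (100 / 27 * T) := by
  rcases le_total T 0 with hT0 | hT0
  · rcases le_total 0 (v.re - u.re) with h | h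
    · exact near_le (by norm_num) hT0 hu (abs_le.2 ⟨by linarith only [h], by linarith only [hp']⟩) (by norm_num)
        (lt_of_lt_of_le (by norm_num) hx) (lt_of_le_of_lt hx' (by norm_num)) hv hr ((YY_le_half (by rw [Complex.sub_re]; linarith only [h])
          (by rw [Complex.sub_re]; linarith only [hp'])).trans_eq (by ring)) (by linarith only [h])
        (n2b (le_trans (by norm_num) hx) (le_trans hx' (by norm_num)) (le_trans (by norm_num) hT) (le_trans hT0 (by norm_num)) (le_trans (by norm_num) ht) (le_trans ht' (by norm_num)))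
    · refine near_le (κ := Real.pi + NumIs.lnB (900 / 10000) (t - rui (100 / 27) u.re T))
        (by norm_num) hT0 hu (abs_le.2 ⟨by linarith only [hp], by linarith only [h]⟩) (by norm_num)
        (lt_of_lt_of_le (by norm_num) hx) (lt_of_le_of_lt hx' (by norm_num)) hv hr ?_ (by linarith only [hp]) (n2a (le_trans (by norm_num) hx) (le_trans hx' (by norm_num)) (le_trans (by norm_num) hT) (le_trans hT0 (by norm_num)) (le_trans (by norm_num) ht) (le_trans ht' (by norm_num)))
      have := YY_le_lnB (u := v - u) (q := 900 / 10000) (abs_le.2 ⟨by rw [Complex.sub_re]; linarith only [hp],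
        by rw [Complex.sub_re]; linarith only [h]⟩) (by norm_num) (by norm_num)
      rwa [Complex.sub_im, hv, hu] at this
  · exact near_ge (by norm_num) hT0 hu (abs_le.2 ⟨by linarith only [hp], by linarith only [hp']⟩) (by norm_num)
      (lt_of_lt_of_le (by norm_num) hx) (lt_of_le_of_lt hx' (by norm_num)) hv hr (YY_ge_neg (by rw [Complex.sub_re]; linarith only [hp])
        (by rw [Complex.sub_re]; linarith only [hp'])) (by linarith only [hp']) (n2c (le_trans (by norm_num) hx) (le_trans hx' (by norm_num)) (le_trans (by norm_num) hT0) (le_trans hT' (by norm_num)) (le_trans (by norm_num) ht) (le_trans ht' (by norm_num)))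

theorem near_twoE {T t : ℝ} {u v : ℂ} (hx : 30 / 100 ≤ u.re) (hx' : u.re ≤ 1 / 2)
    (hu : u.im = 10 / 3 * T * (6 / 10 - u.re)) (hT : -(98 / 1000) ≤ T) (hT' : T ≤ -(76 / 1000))
    (ht : -(123 / 1000) ≤ t) (ht' : t ≤ -(64 / 1000)) (hv : v.im = t)
    (hp : -(7 / 100) ≤ v.re - u.re) (hp' : v.re - u.re ≤ 1 / 10) (hr : SinNe (v - u)) :
    S3 1 (-(10 / 3 * T)) u v < 57 / 100 + 5 / 2 * (10 / 3 * T) := by
  have hT0 : T ≤ 0 := by linarith only [hT']
  have e : t - rui (10 / 3) u.re T = (v - u).im := by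
    rw [Complex.sub_im, hv, hu]
    rfl
  rcases le_total 0 (v.re - u.re) with h | h
  · exact near_le (by norm_num) hT0 hu (abs_le.2 ⟨by linarith only [h], by linarith only [hp']⟩) (by norm_num)
      (lt_of_lt_of_le (by norm_num) hx) (lt_of_le_of_lt hx' (by norm_num)) hv hr ((YY_le_half (by rw [Complex.sub_re]; linarith only [h])
        (by rw [Complex.sub_re]; linarith only [hp'])).trans_eq (by ring)) (by linarith only [h])
      (n2eb (le_trans (by norm_num) hx) (le_trans hx' (by norm_num)) (le_trans (by norm_num) hT) (le_trans hT' (by norm_num)) (le_trans (by norm_num) ht) (le_trans ht' (by norm_num)))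
  · rcases le_total (t - rui (10 / 3) u.re T) 0 with hy | hy
    · refine near_le (κ := Real.pi + NumIs.lnB (700 / 10000) (t - rui (10 / 3) u.re T))
        (by norm_num) hT0 hu (abs_le.2 ⟨by linarith only [hp], by linarith only [h]⟩) (by norm_num)
        (lt_of_lt_of_le (by norm_num) hx) (lt_of_le_of_lt hx' (by norm_num)) hv hr ?_ (by linarith only [hp]) (n2ea (le_trans (by norm_num) hx) (le_trans hx' (by norm_num)) (le_trans (by norm_num) hT) (le_trans hT' (by norm_num)) (le_trans (by norm_num) ht) (le_trans ht' (by norm_num)) hy)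
      have := YY_le_lnB (u := v - u) (q := 700 / 10000) (abs_le.2 ⟨by rw [Complex.sub_re]; linarith only [hp],
        by rw [Complex.sub_re]; linarith only [h]⟩) (by norm_num) (by norm_num)
      rwa [Complex.sub_im, hv, hu] at this
    · exact near_le (by norm_num) hT0 hu (abs_le.2 ⟨by linarith only [hp], by linarith only [h]⟩) (by norm_num)
        (lt_of_lt_of_le (by norm_num) hx) (lt_of_le_of_lt hx' (by norm_num)) hv hr (YY_np (by rw [← e]; exact hy)
          (by rw [Complex.sub_re]; linarith only [hp'])) (by linarith only [hp]) (n2ez (le_trans (by norm_num) hx) (le_trans hx' (by norm_num)) (le_trans (by norm_num) hT) (le_trans hT' (by norm_num)) (le_trans (by norm_num) ht) (le_trans ht' (by norm_num)) hy)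

end S0R

end Pool.Agent.Work.MP_b30479_gtS.G2

end

section

/-!
# A pair of `1|1` modes near `x = 0`
-/

set_option deprecated.oldSectionVars true

namespace Pool.Agent.Work.MP_b30479_gtS.G2

open VOL NumUs

namespace M11S

theorem V1_form (x t y k : ℝ) : V1 ⟨x, t⟩ ⟨y, k⟩ =
    Real.pi * (x * k + y * t - t - k) + uu (x + y) (t + k) - uu x t - uu y k := by
  unfold V1
  simp only [UU_uu, Complex.add_re, Complex.add_im, Complex.sub_im, Complex.mul_im]
  ring

/-- derivative in the second variable -/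
theorem deriv_t {u : ℝ} (h0 : 0 < u) (h1 : u < 1) (t : ℝ) :
    HasDerivAt (fun s => uu u s) (-NumIs.lnB u t) t := by
  have h := uu_line (x := u) (t := 0) (a := 0) (b := 1) (τ := t) (by linarith only [h0]) (by linarith only [h1])
  have e : (fun τ : ℝ => uu (u + τ * 0) (0 + τ * 1)) = fun s => uu u s := by
    funext s
    congr 1 <;> ring
  rw [e] at h
  refine h.congr_deriv ?_
  have e1 : u + t * 0 = u := by ring
  have e2 : 0 + t * 1 = t := by ring
  rw [e1, e2]
  ring

/-- mean value, lower bound -/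
theorem mv_lo {u a b m : ℝ} (h0 : 0 < u) (h1 : u < 1) (hab : a ≤ b)
    (h : ∀ r, a ≤ r → r ≤ b → m ≤ -NumIs.lnB u r) : m * (b - a) ≤ uu u b - uu u a := by
  have hm : MonotoneOn (fun s => uu u s - m * s) (Set.Icc a b) := by
    have hd : ∀ r, HasDerivAt (fun s => uu u s - m * s) (-NumIs.lnB u r - m * 1) r := fun r =>
      (deriv_t h0 h1 r).sub ((hasDerivAt_id r).const_mul m)
    apply monotoneOn_of_deriv_nonneg (convex_Icc _ _)
    · exact fun r _ => (hd r).continuousAt.continuousWithinAt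
    · exact fun r _ => (hd r).differentiableAt.differentiableWithinAt
    · intro r hr
      rw [interior_Icc] at hr
      rw [(hd r).deriv]
      have := h r hr.1.le hr.2.le
      linarith only [this]
  have := hm ⟨le_rfl, hab⟩ ⟨hab, le_rfl⟩ hab
  simp only at this
  linarith only [this]

/-- mean value, upper bound -/
theorem mv_up {u a b m : ℝ} (h0 : 0 < u) (h1 : u < 1) (hab : a ≤ b)
    (h : ∀ r, a ≤ r → r ≤ b → -NumIs.lnB u r ≤ m) : uu u b - uu u a ≤ m * (b - a) := by
  have hm : AntitoneOn (fun s => uu u s - m * s) (Set.Icc a b) := by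
    have hd : ∀ r, HasDerivAt (fun s => uu u s - m * s) (-NumIs.lnB u r - m * 1) r := fun r =>
      (deriv_t h0 h1 r).sub ((hasDerivAt_id r).const_mul m)
    apply antitoneOn_of_deriv_nonpos (convex_Icc _ _)
    · exact fun r _ => (hd r).continuousAt.continuousWithinAt
    · exact fun r _ => (hd r).differentiableAt.differentiableWithinAt
    · intro r hr
      rw [interior_Icc] at hr
      rw [(hd r).deriv]
      have := h r hr.1.le hr.2.le
      linarith only [this]
  have := hm ⟨le_rfl, hab⟩ ⟨hab, le_rfl⟩ hab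
  simp only at this
  linarith only [this]

theorem arctan_16_15 : Real.arctan (16 / 15) ≤ 82 / 100 := by
  have h := Real.arctan_add (x := 1) (y := 1 / 31) (by norm_num)
  rw [show ((1 : ℝ) + 1 / 31) / (1 - 1 * (1 / 31)) = 16 / 15 by norm_num, Real.arctan_one] at h
  have h2 : Real.arctan (1 / 31) ≤ 1 / 31 := by
    have h3 : 0 < Real.arctan (1 / 31) := by
      rw [Real.arctan_pos]
      norm_num
    have h4 := Real.lt_tan h3 (Real.arctan_lt_pi_div_two _)
    rw [Real.tan_arctan] at h4
    exact h4.le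
  have := Real.pi_lt_d4
  linarith only [h, h2, this]

/-- slope left of `1/2` -/
theorem lnB_left {u r : ℝ} (h0 : 0 < u) (h1 : u ≤ 1 / 2) (hr : |r| ≤ 16 / 15 * u) :
    |NumIs.lnB u r| ≤ 82 / 100 := by
  have hp := Real.pi_pos
  have key : ∀ r : ℝ, 0 ≤ r → r ≤ 16 / 15 * u → 0 ≤ NumIs.lnB u r ∧ NumIs.lnB u r ≤ 82 / 100 := by
    intro r r0 r1
    have s0 : 0 < Real.sin (Real.pi * u) := by
      apply Real.sin_pos_of_pos_of_lt_pi <;> nlinarith only [h0, hp, h1]
    have c0 : 0 ≤ Real.cos (Real.pi * u) := by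
      apply Real.cos_nonneg_of_mem_Icc
      constructor <;> nlinarith only [hp, h0, h1]
    have ch := Real.cosh_pos (Real.pi * r)
    have sh : 0 ≤ Real.sinh (Real.pi * r) := Real.sinh_nonneg_iff.2 (by positivity)
    have q0 : 0 ≤ Real.cos (Real.pi * u) * Real.sinh (Real.pi * r) /
        (Real.sin (Real.pi * u) * Real.cosh (Real.pi * r)) := by positivity
    -- `u π cos ≤ sin`
    have h2 : Real.pi * u * Real.cos (Real.pi * u) ≤ Real.sin (Real.pi * u) := by
      rcases eq_or_lt_of_le h1 with h1 | h1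
      · rw [h1, show Real.pi * (1 / 2) = Real.pi / 2 by ring, Real.cos_pi_div_two,
          Real.sin_pi_div_two]
        norm_num
      have h3 : Real.pi * u < Real.pi / 2 := by nlinarith only [hp, h1]
      have h4 := Real.lt_tan (show 0 < Real.pi * u by positivity) h3
      have h5 : 0 < Real.cos (Real.pi * u) := by
        apply Real.cos_pos_of_mem_Ioo
        constructor <;> nlinarith only [hp, h0, h3]
      rw [Real.tan_eq_sin_div_cos, lt_div_iff₀ h5] at h4
      exact h4.le
    -- `sinh ≤ x cosh`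
    have h6 : Real.sinh (Real.pi * r) ≤ Real.pi * r * Real.cosh (Real.pi * r) := by
      have hm : MonotoneOn (fun z : ℝ => z * Real.cosh z - Real.sinh z) (Set.Ici 0) := by
        have hd : ∀ z : ℝ, HasDerivAt (fun z : ℝ => z * Real.cosh z - Real.sinh z)
            (1 * Real.cosh z + z * Real.sinh z - Real.cosh z) z := fun z =>
          ((hasDerivAt_id z).mul (Real.hasDerivAt_cosh z)).sub (Real.hasDerivAt_sinh z)
        apply monotoneOn_of_deriv_nonneg (convex_Ici 0)
        · exact fun z _ => (hd z).continuousAt.continuousWithinAt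
        · exact fun z _ => (hd z).differentiableAt.differentiableWithinAt
        · intro z hz
          rw [interior_Ici] at hz
          rw [(hd z).deriv]
          have h7 : 0 ≤ z * Real.sinh z :=
            mul_nonneg (le_of_lt hz) (Real.sinh_nonneg_iff.2 (le_of_lt hz))
          linarith only [h7]
      have h8 := hm (Set.mem_Ici.2 le_rfl) (Set.mem_Ici.2 (show 0 ≤ Real.pi * r by positivity))
        (by positivity)
      simp only [zero_mul, Real.sinh_zero, sub_zero] at h8
      linarith only [h8]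
    have h9 : Real.cos (Real.pi * u) * Real.sinh (Real.pi * r) /
        (Real.sin (Real.pi * u) * Real.cosh (Real.pi * r)) ≤ 16 / 15 := by
      rw [div_le_iff₀ (by positivity)]
      calc Real.cos (Real.pi * u) * Real.sinh (Real.pi * r) ≤
          Real.cos (Real.pi * u) * (Real.pi * r * Real.cosh (Real.pi * r)) := by gcongr
        _ ≤ Real.cos (Real.pi * u) * (Real.pi * (16 / 15 * u) * Real.cosh (Real.pi * r)) := by
          gcongr
        _ = 16 / 15 * (Real.pi * u * Real.cos (Real.pi * u)) * Real.cosh (Real.pi * r) := by ring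
        _ ≤ 16 / 15 * Real.sin (Real.pi * u) * Real.cosh (Real.pi * r) := by gcongr
        _ = 16 / 15 * (Real.sin (Real.pi * u) * Real.cosh (Real.pi * r)) := by ring
    unfold NumIs.lnB
    constructor
    · rw [← Real.arctan_zero]
      exact Real.arctan_strictMono.monotone q0
    · exact (Real.arctan_strictMono.monotone h9).trans arctan_16_15
  rcases le_total 0 r with h | h
  · rw [abs_of_nonneg h] at hr
    obtain ⟨a1, a2⟩ := key r h hr
    rw [abs_of_nonneg a1]
    exact a2
  · rw [abs_of_nonpos h] at hr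
    obtain ⟨a1, a2⟩ := key (-r) (by linarith only [h]) hr
    have e : NumIs.lnB u r = -NumIs.lnB u (-r) := by
      unfold NumIs.lnB
      rw [mul_neg, Real.sinh_neg, Real.cosh_neg, mul_neg, neg_div, Real.arctan_neg, neg_neg]
    rw [e, abs_neg, abs_of_nonneg a1]
    exact a2

/-! ### the row -/

def gE : NumGs.E :=
  .sub (.q 26 10) (.add (.mul .pi (.var 0)) (.yw (.add (.var 1) (.var 0))
    (.mul (.var 2) (.add (.mul (.q 16 100) (NumGs.E.tr 800 150 200 (.var 0)))
      (.mul (.q 16 15) (.var 1))))))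

theorem row : NumGs.chkF [gE] 1000 0 0 1000 0 40 480 800 0 10 0 2000 0 0
    1508316075319402520391259662292634497519789038174464 = true := by
  decide +kernel

/-- height of the hinge at `y` -/
noncomputable def hh (y : ℝ) : ℝ := 16 / 100 * tr 0 (4 / 5) (15 / 100) (1 / 5) y

theorem row_val {y x r : ℝ} (y0 : 48 / 100 ≤ y) (y1 : y ≤ 8 / 10) (x0 : 0 < x)
    (x1 : x ≤ 1 / 100) (hr : |r| ≤ hh y + 16 / 15 * x) :
    Real.pi * y - NumIs.lnB (x + y) r ≤ 26 / 10 := by
  have ht : 0 ≤ tr 0 (4 / 5) (15 / 100) (1 / 5) y := le_max_left _ _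
  have hc : 0 < hh y + 16 / 15 * x := by
    unfold hh
    positivity
  obtain ⟨r1, r2⟩ := abs_le.1 hr
  set c := hh y + 16 / 15 * x with hcd
  have s1 : -1 ≤ r / c := by rw [le_div_iff₀ hc]; linarith only [r1]
  have s2 : r / c ≤ 1 := by rw [div_le_one hc]; exact r2
  obtain ⟨e, he, hp⟩ := NumGs.chkF4 row (by norm_num) (x := y) (y := x) (z := r / c) (w := 0)
    (by push_cast; linarith only [y0]) (by push_cast; linarith only [y1]) (by push_cast; linarith only [x0])
    (by push_cast; linarith only [x1]) (by push_cast; linarith only [s1]) (by push_cast; linarith only [s2])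
    (by push_cast; norm_num) (by push_cast; norm_num)
  obtain rfl := List.mem_singleton.1 he
  have e2 : gE.val [y, x, r / c, 0] = ((26 : ℤ) : ℝ) / ((10 : ℕ) : ℝ) -
      (Real.pi * y + NumXs.yy (x + y) (r / c * (((16 : ℤ) : ℝ) / ((100 : ℕ) : ℝ) *
        (NumGs.E.tr 800 150 200 (.var 0)).val [y, x, r / c, 0] +
        ((16 : ℤ) : ℝ) / ((15 : ℕ) : ℝ) * x))) := rfl
  rw [e2, NumGs.E.tr_val (by norm_num) (by norm_num) (by norm_num)] at hp
  have e3 : (NumGs.E.var 0).val [y, x, r / c, 0] = y := rfl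
  rw [e3] at hp
  have e4 : r / c * (((16 : ℤ) : ℝ) / ((100 : ℕ) : ℝ) *
      tr 0 (((800 : ℤ) : ℝ) / 1000) (((150 : ℕ) : ℝ) / 1000) (((200 : ℕ) : ℝ) / 1000) y +
      ((16 : ℤ) : ℝ) / ((15 : ℕ) : ℝ) * x) = r := by
    have e5 : ((16 : ℤ) : ℝ) / ((100 : ℕ) : ℝ) *
      tr 0 (((800 : ℤ) : ℝ) / 1000) (((150 : ℕ) : ℝ) / 1000) (((200 : ℕ) : ℝ) / 1000) y +
      ((16 : ℤ) : ℝ) / ((15 : ℕ) : ℝ) * x = c := by
      rw [hcd]
      unfold hh
      push_cast
      norm_num
    rw [e5]
    field_simp
  rw [e4, NumXs.yy_lnB (by linarith only [y0, x0, x1]) (by linarith only [y1, x0, x1])] at hp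
  push_cast at hp
  linarith only [hp]

theorem tr_lin {y : ℝ} (y0 : 0 ≤ y) (y1 : y ≤ 4 / 5) : hh y ≤ 16 / 15 * y := by
  unfold hh tr
  rw [sub_zero]
  have : max 0 (min 1 (min (y / (15 / 100)) ((4 / 5 - y) / (1 / 5)))) ≤ y / (15 / 100) :=
    max_le (by positivity) ((min_le_right _ _).trans (min_le_left _ _))
  calc 16 / 100 * max 0 (min 1 (min (y / (15 / 100)) ((4 / 5 - y) / (1 / 5)))) ≤
      16 / 100 * (y / (15 / 100)) := by gcongr
    _ = 16 / 15 * y := by ring

/-- lower bound -/
theorem low {y x r : ℝ} (y0 : 0 ≤ y) (y1 : y ≤ 8 / 10) (x0 : 0 < x)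
    (x1 : x ≤ 1 / 100) (hr : |r| ≤ hh y + 16 / 15 * x) :
    -(82 / 100) - Real.pi * y ≤ -NumIs.lnB (x + y) r := by
  have hp := Real.pi_pos
  have h1 := tr_lin y0 (by linarith only [y1])
  rcases le_total (x + y) (1 / 2) with h | h
  · have h2 := lnB_left (u := x + y) (r := r) (by linarith only [y0, x0]) h (by linarith only [hr, h1])
    have h3 := (abs_le.1 h2).2
    have h4 : 0 ≤ Real.pi * y := by positivity
    linarith only [h3, h4]
  · have h2 : NumIs.lnB (x + y) r ≤ Real.pi / 2 := by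
      unfold NumIs.lnB
      exact (Real.arctan_lt_pi_div_two _).le
    have h4 : Real.pi * (49 / 100) ≤ Real.pi * y := by gcongr; linarith only [x1, h]
    nlinarith only [x0, x1, h2, h4, Real.pi_gt_three, Real.pi_lt_four]

/-- upper bound -/
theorem upp {y x r : ℝ} (y0 : 0 ≤ y) (y1 : y ≤ 8 / 10) (x0 : 0 < x)
    (x1 : x ≤ 1 / 100) (hr : |r| ≤ hh y + 16 / 15 * x) :
    -NumIs.lnB (x + y) r ≤ 26 / 10 - Real.pi * y := by
  have hp := Real.pi_pos
  rcases le_total y (48 / 100) with h | h
  · have h1 := tr_lin y0 (by linarith only [y1])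
    have h2 := lnB_left (u := x + y) (r := r) (by linarith only [y0, x0]) (by linarith only [x0, x1, h]) (by linarith only [hr, h1])
    have h3 := (abs_le.1 h2).1
    have h4 : Real.pi * y ≤ Real.pi * (48 / 100) := by gcongr
    have := Real.pi_lt_d2
    nlinarith only [x0, x1, h3, h4, this]
  · have := row_val h y1 x0 x1 hr
    linarith only [this]

end M11S

open M11S in
/-- two modes `1|1` near `x = 0` -/
theorem m11_small {x T y s y' s' : ℝ} (x0 : 0 < x) (x1 : x ≤ 1 / 100) (T0 : 0 ≤ T)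
    (T1 : T ≤ 8 / 100) (y0 : 0 ≤ y) (y1 : y ≤ 4 / 5)
    (hs : |s| ≤ 16 / 100 * tr 0 (4 / 5) (15 / 100) (1 / 5) y) (y0' : 0 ≤ y') (y1' : y' ≤ 4 / 5)
    (hs' : |s'| ≤ 16 / 100 * tr 0 (4 / 5) (15 / 100) (1 / 5) y') :
    0 < (V1 ⟨x, T * (x / (15 / 100))⟩ ⟨y, s⟩ - V1 ⟨x, -(16 / 100 * (x / (15 / 100)))⟩ ⟨y, s⟩) +
      (V1 ⟨x, -(T * (x / (15 / 100)))⟩ ⟨y', s'⟩ - V1 ⟨x, 16 / 100 * (x / (15 / 100))⟩ ⟨y', s'⟩) +
      2 * Real.pi * (16 / 100 * (x / (15 / 100))) := by
  have hp := Real.pi_pos
  have hp3 := Real.pi_gt_d2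
  set τ := x / (15 / 100) with hτ
  have τ0 : 0 < τ := by positivity
  have τ1 : 16 / 100 * τ = 16 / 15 * x := by rw [hτ]; ring
  rw [V1_form, V1_form, V1_form, V1_form, uu_neg x (16 / 100 * τ), uu_neg x (T * τ)]
  have hT : T * τ ≤ 16 / 100 * τ := by nlinarith only [hτ, x0, x1, T1, T0]
  have hTτ : 0 ≤ T * τ := by positivity
  -- the difference at `x`
  have hC : -(82 / 100) * (16 / 100 * τ - T * τ) ≤ uu x (16 / 100 * τ) - uu x (T * τ) := by
    apply mv_lo x0 (by linarith only [x0, x1]) hT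
    intro r r0 r1
    have h2 := lnB_left (u := x) (r := r) x0 (by linarith only [x0, x1]) (by
      rw [abs_of_nonneg (by linarith only [hTτ, r0])]
      linarith only [hτ, r1])
    have h3 := (abs_le.1 h2).2
    linarith only [h3]
  obtain ⟨a1, a2⟩ := abs_le.1 hs
  obtain ⟨b1, b2⟩ := abs_le.1 hs'
  have hA : (-(82 / 100) - Real.pi * y) * ((T * τ + s) - (-(16 / 100 * τ) + s)) ≤
      uu (x + y) (T * τ + s) - uu (x + y) (-(16 / 100 * τ) + s) := by
    apply mv_lo (by linarith only [x0, y0]) (by linarith only [x0, x1, y1]) (by linarith only [x0, hτ, hTτ])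
    intro r r0 r1
    apply low y0 (by linarith only [y1]) x0 x1
    unfold hh
    rw [abs_le]
    constructor <;> linarith only [hτ, a1, r0, hT, a2, r1]
  have hB : uu (x + y') (16 / 100 * τ + s') - uu (x + y') (-(T * τ) + s') ≤
      (26 / 10 - Real.pi * y') * ((16 / 100 * τ + s') - (-(T * τ) + s')) := by
    apply mv_up (by linarith only [x0, y0']) (by linarith only [x0, x1, y1']) (by linarith only [x0, hτ, hTτ])
    intro r r0 r1
    apply upp y0' (by linarith only [y1']) x0 x1
    unfold hh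
    rw [abs_le]
    constructor <;> linarith only [hτ, hT, b1, r0, b2, r1]
  have key : 0 < τ * (-(344 / 100) * (T + 16 / 100) - 164 / 100 * (16 / 100 - T) +
      2 * Real.pi * (16 / 100) + 2 / 100 * (T + 16 / 100)) := by
    apply mul_pos τ0
    nlinarith only [x0, x1, T1, hp3]
  nlinarith only [hC, hA, hB, key, hA, hB, hC, key]

end Pool.Agent.Work.MP_b30479_gtS.G2

end

section

/-!
# Kind `1 | 1`: the move to the main path at the same abscissa (bounds for small heights)
-/

namespace Pool.Agent.Work.NumGs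

namespace M11

open NumUs (uu uu_neg)
open NumXs (yy)
open MP_b30479_gtS.G2 (V1)

theorem sh_le {a b : ℝ} (h : a ≤ b) : Real.sinh a * Real.cosh b ≤ Real.sinh b * Real.cosh a := by
  have h1 : 0 ≤ Real.sinh (b - a) := Real.sinh_nonneg_iff.2 (by linarith only [h])
  rw [Real.sinh_sub] at h1
  linarith only [h1]

theorem sin_pos' {u : ℝ} (h0 : 0 < u) (h1 : u < 1) : 0 < Real.sin (Real.pi * u) := by
  have := Real.pi_pos
  apply Real.sin_pos_of_pos_of_lt_pi <;> nlinarith only [h0, this, h1]

theorem cos_nonneg' {u : ℝ} (h0 : 0 < u) (h1 : u ≤ 1 / 2) : 0 ≤ Real.cos (Real.pi * u) := by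
  have := Real.pi_pos
  apply Real.cos_nonneg_of_mem_Icc
  constructor <;> nlinarith only [this, h0, h1]

theorem cos_nonpos' {u : ℝ} (h0 : 1 / 2 ≤ u) (h1 : u < 1) : Real.cos (Real.pi * u) ≤ 0 := by
  have := Real.pi_pos
  apply Real.cos_nonpos_of_pi_div_two_le_of_le <;> nlinarith only [h0, this, h1]

/-- increasing slope beyond `1/2` -/
theorem yy_mono {u a b : ℝ} (h0 : 1 / 2 ≤ u) (h1 : u < 1) (h : a ≤ b) : yy u a ≤ yy u b := by
  have hp := Real.pi_pos
  rw [NumXs.yy_lnB (by linarith only [h0, h1]) h1, NumXs.yy_lnB (by linarith only [h0, h1]) h1]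
  unfold NumIs.lnB
  rw [neg_le_neg_iff]
  apply Real.arctan_strictMono.monotone
  have s0 := sin_pos' (u := u) (by linarith only [h0, h1]) h1
  have c0 := cos_nonpos' h0 h1
  have ca := Real.cosh_pos (Real.pi * a)
  have cb := Real.cosh_pos (Real.pi * b)
  rw [div_le_div_iff₀ (by positivity) (by positivity)]
  have h2 := sh_le (a := Real.pi * a) (b := Real.pi * b) (by nlinarith only [h0, h1, h, hp])
  have h3 : 0 ≤ -Real.cos (Real.pi * u) * Real.sin (Real.pi * u) := by
    have : 0 ≤ -Real.cos (Real.pi * u) := by linarith only [c0]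
    positivity
  have h4 := mul_nonneg h3 (sub_nonneg.2 h2)
  nlinarith only [h4, h4]

/-- decreasing slope below `1/2` -/
theorem yy_anti {u a b : ℝ} (h0 : 0 < u) (h1 : u ≤ 1 / 2) (h : a ≤ b) : yy u b ≤ yy u a := by
  have hp := Real.pi_pos
  rw [NumXs.yy_lnB h0 (by linarith only [h0, h1]), NumXs.yy_lnB h0 (by linarith only [h0, h1])]
  unfold NumIs.lnB
  rw [neg_le_neg_iff]
  apply Real.arctan_strictMono.monotone
  have s0 := sin_pos' (u := u) h0 (by linarith only [h0, h1])
  have c0 := cos_nonneg' h0 h1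
  have ca := Real.cosh_pos (Real.pi * a)
  have cb := Real.cosh_pos (Real.pi * b)
  rw [div_le_div_iff₀ (by positivity) (by positivity)]
  have h2 := sh_le (a := Real.pi * a) (b := Real.pi * b) (by nlinarith only [h0, h1, h, hp])
  have h3 : 0 ≤ Real.cos (Real.pi * u) * Real.sin (Real.pi * u) := by positivity
  have h4 := mul_nonneg h3 (sub_nonneg.2 h2)
  nlinarith only [h4, h4]

theorem yy_zero' (u : ℝ) : yy u 0 = 0 := by
  have h3 := NumXs.yy_conj u 0
  rw [neg_zero] at h3
  linarith only [h3]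

theorem yy_nonneg' {u r : ℝ} (h0 : 1 / 2 ≤ u) (h1 : u < 1) (hr : 0 ≤ r) : 0 ≤ yy u r := by
  rw [← yy_zero' u]
  exact yy_mono h0 h1 hr

theorem yy_nonpos' {u r : ℝ} (h0 : 0 < u) (h1 : u ≤ 1 / 2) (hr : 0 ≤ r) : yy u r ≤ 0 := by
  rw [← yy_zero' u]
  exact yy_anti h0 h1 hr

theorem mv_lo {u a b m : ℝ} (h0 : 0 < u) (h1 : u < 1) (hab : a ≤ b)
    (h : ∀ r, a ≤ r → r ≤ b → m ≤ yy u r) : m * (b - a) ≤ uu u b - uu u a :=
  MP_b30479_gtS.G2.M11S.mv_lo h0 h1 hab fun r r0 r1 => by rw [← NumXs.yy_lnB h0 h1]; exact h r r0 r1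

theorem mv_up {u a b m : ℝ} (h0 : 0 < u) (h1 : u < 1) (hab : a ≤ b)
    (h : ∀ r, a ≤ r → r ≤ b → yy u r ≤ m) : uu u b - uu u a ≤ m * (b - a) :=
  MP_b30479_gtS.G2.M11S.mv_up h0 h1 hab fun r r0 r1 => by rw [← NumXs.yy_lnB h0 h1]; exact h r r0 r1

/-- small slope beyond `1/2` -/
theorem yy_small {v r : ℝ} (h0 : 1 / 2 ≤ v) (h1 : v ≤ 2 / 3) (hr : 0 ≤ r) :
    yy v r ≤ 12 * r * (v - 1 / 2) := by
  have hp := Real.pi_pos
  have hp4 := Real.pi_lt_d4
  rw [NumXs.yy_lnB (by linarith only [h0]) (by linarith only [h1])]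
  unfold NumIs.lnB
  rw [← Real.arctan_neg, ← neg_div, ← neg_mul]
  have s0 := sin_pos' (u := v) (by linarith only [h0]) (by linarith only [h1])
  have c0 := cos_nonpos' (u := v) h0 (by linarith only [h1])
  have ch := Real.cosh_pos (Real.pi * r)
  have sh : 0 ≤ Real.sinh (Real.pi * r) := Real.sinh_nonneg_iff.2 (by positivity)
  set q := -Real.cos (Real.pi * v) * Real.sinh (Real.pi * r) /
    (Real.sin (Real.pi * v) * Real.cosh (Real.pi * r)) with hq
  have q0 : 0 ≤ q := by
    have : 0 ≤ -Real.cos (Real.pi * v) := by linarith only [c0]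
    positivity
  have a1 : Real.arctan q ≤ q := by
    rcases q0.eq_or_lt with h | h
    · rw [← h, Real.arctan_zero]
    · have h3 : 0 < Real.arctan q := Real.arctan_pos.2 h
      have h4 := Real.lt_tan h3 (Real.arctan_lt_pi_div_two _)
      rw [Real.tan_arctan] at h4
      exact h4.le
  refine a1.trans ?_
  -- `sinh ≤ x cosh`
  have h6 : Real.sinh (Real.pi * r) ≤ Real.pi * r * Real.cosh (Real.pi * r) := by
    have hm : MonotoneOn (fun z : ℝ => z * Real.cosh z - Real.sinh z) (Set.Ici 0) := by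
      have hd : ∀ z : ℝ, HasDerivAt (fun z : ℝ => z * Real.cosh z - Real.sinh z)
          (1 * Real.cosh z + z * Real.sinh z - Real.cosh z) z := fun z =>
        ((hasDerivAt_id z).mul (Real.hasDerivAt_cosh z)).sub (Real.hasDerivAt_sinh z)
      apply monotoneOn_of_deriv_nonneg (convex_Ici 0)
      · exact fun z _ => (hd z).continuousAt.continuousWithinAt
      · exact fun z _ => (hd z).differentiableAt.differentiableWithinAt
      · intro z hz
        rw [interior_Ici] at hz
        rw [(hd z).deriv]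
        have h7 : 0 ≤ z * Real.sinh z :=
          mul_nonneg (le_of_lt hz) (Real.sinh_nonneg_iff.2 (le_of_lt hz))
        linarith only [h7]
    have h8 := hm (Set.mem_Ici.2 le_rfl) (Set.mem_Ici.2 (show 0 ≤ Real.pi * r by positivity))
      (by positivity)
    simp only [zero_mul, Real.sinh_zero, sub_zero] at h8
    linarith only [h8]
  have z0 : 0 ≤ Real.pi * (v - 1 / 2) := mul_nonneg hp.le (by linarith only [h0])
  have z1 : Real.pi * (v - 1 / 2) ≤ 53 / 100 := by nlinarith only [h1, h0, hp4]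
  have h7 : -Real.cos (Real.pi * v) ≤ Real.pi * (v - 1 / 2) := by
    have h8 : -Real.cos (Real.pi * v) = Real.sin (Real.pi * (v - 1 / 2)) := by
      rw [show Real.pi * (v - 1 / 2) = Real.pi * v - Real.pi / 2 by ring, Real.sin_sub_pi_div_two]
    rw [h8]
    exact Real.sin_le z0
  have h9 : 859 / 1000 ≤ Real.sin (Real.pi * v) := by
    have h8 : Real.sin (Real.pi * v) = Real.cos (Real.pi * (v - 1 / 2)) := by
      rw [show Real.pi * (v - 1 / 2) = Real.pi * v - Real.pi / 2 by ring, Real.cos_sub_pi_div_two]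
    rw [h8]
    have h10 := Real.one_sub_sq_div_two_le_cos (x := Real.pi * (v - 1 / 2))
    nlinarith only [z1, h8, h10, s0, z0]
  rw [hq, div_le_iff₀ (by positivity)]
  have hpp : Real.pi * Real.pi ≤ 9.87 := by nlinarith only [hp4, hp]
  have b1 : -Real.cos (Real.pi * v) * Real.sinh (Real.pi * r) ≤
      Real.pi * (v - 1 / 2) * (Real.pi * r * Real.cosh (Real.pi * r)) :=
    mul_le_mul h7 h6 sh z0
  have b2 : 0 ≤ r * (v - 1 / 2) * Real.cosh (Real.pi * r) := by
    have : 0 ≤ v - 1 / 2 := by linarith only [h0]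
    positivity
  have b3 : Real.pi * (v - 1 / 2) * (Real.pi * r * Real.cosh (Real.pi * r)) =
      Real.pi * Real.pi * (r * (v - 1 / 2) * Real.cosh (Real.pi * r)) := by ring
  have b4 : Real.pi * Real.pi * (r * (v - 1 / 2) * Real.cosh (Real.pi * r)) ≤
      9.87 * (r * (v - 1 / 2) * Real.cosh (Real.pi * r)) := mul_le_mul_of_nonneg_right hpp b2
  have b5 : 12 * r * (v - 1 / 2) * (Real.sin (Real.pi * v) * Real.cosh (Real.pi * r)) =
      12 * Real.sin (Real.pi * v) * (r * (v - 1 / 2) * Real.cosh (Real.pi * r)) := by ring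
  rw [b5]
  have b6 : 9.87 * (r * (v - 1 / 2) * Real.cosh (Real.pi * r)) ≤
      12 * Real.sin (Real.pi * v) * (r * (v - 1 / 2) * Real.cosh (Real.pi * r)) :=
    mul_le_mul_of_nonneg_right (by linarith only [s0, h9]) b2
  linarith only [b1, b4, b6]

theorem uu_abs (v r : ℝ) : uu v |r| = uu v r := by
  rcases abs_cases r with ⟨h, -⟩ | ⟨h, -⟩ <;> rw [h]
  exact uu_neg v r

/-- the slope right of an integer, `0 ≤ r₁ ≤ r₂` -/
theorem w_lo {v a b : ℝ} (v0 : 0 ≤ v) (v1 : v ≤ 2 / 3) (a0 : 0 ≤ a) (hab : a ≤ b) :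
    min 0 (yy v b) * (b - a) ≤ uu v b - uu v a := by
  have hp := Real.pi_pos
  rcases v0.eq_or_lt with h | h
  · rw [← h, NumXs.uu_zero_left, NumXs.uu_zero_left, abs_of_nonneg a0, abs_of_nonneg (a0.trans hab)]
    rcases (a0.trans hab).eq_or_lt with hb | hb
    · have ha : a = 0 := by linarith only [a0, hab, hb]
      rw [← hb, ha]
      simp
    · rw [NumXs.yy_zero_left hb]
      have : min (0 : ℝ) (-(Real.pi / 2)) = -(Real.pi / 2) := min_eq_right (by linarith only [hp])
      rw [this]
      linarith only []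
  · rcases le_total v (1 / 2) with hv | hv
    · refine mv_lo h (by linarith only [h, hv]) hab fun r r0 r1 => ?_
      exact (min_le_right _ _).trans (yy_anti h hv r1)
    · refine mv_lo h (by linarith only [v1, h]) hab fun r r0 r1 => ?_
      exact (min_le_left _ _).trans (yy_nonneg' hv (by linarith only [v1, h]) (a0.trans r0))

theorem w_up {v a b : ℝ} (v0 : 0 ≤ v) (v1 : v ≤ 2 / 3) (a0 : 0 ≤ a) (hab : a ≤ b) :
    uu v b - uu v a ≤ (min 0 (yy v a) + 12 * b * max (v - 1 / 2) 0) * (b - a) := by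
  have hp := Real.pi_pos
  have hb0 := a0.trans hab
  rcases v0.eq_or_lt with h | h
  · rw [← h, NumXs.uu_zero_left, NumXs.uu_zero_left, abs_of_nonneg a0, abs_of_nonneg hb0]
    have e1 : max ((0 : ℝ) - 1 / 2) 0 = 0 := max_eq_right (by norm_num)
    rw [e1]
    rcases a0.eq_or_lt with ha | ha
    · rw [← ha, yy_zero']
      simp only [min_self]
      nlinarith only [a0, hp, hab]
    · rw [NumXs.yy_zero_left ha]
      have : min (0 : ℝ) (-(Real.pi / 2)) = -(Real.pi / 2) := min_eq_right (by linarith only [hp])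
      rw [this]
      linarith only []
  · rcases le_total v (1 / 2) with hv | hv
    · have e1 : max (v - 1 / 2) 0 = 0 := max_eq_right (by linarith only [hv])
      rw [e1, mul_zero, add_zero, min_eq_right (yy_nonpos' h hv a0)]
      exact mv_up h (by linarith only [h, hv]) hab fun r r0 r1 => yy_anti h hv r0
    · have e1 : max (v - 1 / 2) 0 = v - 1 / 2 := max_eq_left (by linarith only [hv])
      rw [e1, min_eq_left (yy_nonneg' hv (by linarith only [v1, h]) a0), zero_add]
      refine mv_up h (by linarith only [v1, h]) hab fun r r0 r1 => ?_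
      refine (yy_small hv v1 (a0.trans r0)).trans ?_
      have : 0 ≤ v - 1 / 2 := by linarith only [hv]
      gcongr

theorem w_lo' {v a b : ℝ} (v0 : 0 ≤ v) (v1 : v ≤ 2 / 3) (a0 : 0 ≤ a) (hab : a ≤ b) :
    -(Real.pi / 2) * (b - a) ≤ uu v b - uu v a := by
  have hp := Real.pi_pos
  refine le_trans (mul_le_mul_of_nonneg_right ?_ (by linarith only [hab])) (w_lo v0 v1 a0 hab)
  refine le_min (by linarith only [hp]) ?_
  exact (abs_le.1 (NumXs.abs_yy_le v0 (by linarith only [v1]))).1

theorem w_up' {v a b : ℝ} (v0 : 0 ≤ v) (v1 : v ≤ 2 / 3) (a0 : 0 ≤ a) (hab : a ≤ b) :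
    uu v b - uu v a ≤ 12 * b * max (v - 1 / 2) 0 * (b - a) := by
  refine (w_up v0 v1 a0 hab).trans (mul_le_mul_of_nonneg_right ?_ (by linarith only [hab]))
  linarith only [min_le_left 0 (yy v a)]

/-- `uu` beyond `1` -/
theorem uu_far (u r : ℝ) : uu u r = uu (u - 1) |r| + Real.pi * |r| := by
  rw [NumXs.uu_sub_one, uu_abs]

section flip

set_option linter.unusedSectionVars false

variable {x y s T H τ : ℝ}

/-- first difference -/
theorem fA_eq : V1 ⟨x, T * τ⟩ ⟨y, s⟩ - V1 ⟨x, -(H * τ)⟩ ⟨y, s⟩ =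
    uu (x + y) (s + T * τ) - uu (x + y) (s - H * τ) + (uu x (H * τ) - uu x (T * τ)) +
      Real.pi * (T + H) * (y - 1) * τ := by
  rw [MP_b30479_gtS.G2.M11S.V1_form, MP_b30479_gtS.G2.M11S.V1_form, uu_neg, show T * τ + s = s + T * τ by ring,
    show -(H * τ) + s = s - H * τ by ring]
  ring

theorem fB_eq : V1 ⟨x, -(T * τ)⟩ ⟨y, s⟩ - V1 ⟨x, H * τ⟩ ⟨y, s⟩ =
    -(uu (x + y) (s + H * τ) - uu (x + y) (s - T * τ)) + (uu x (H * τ) - uu x (T * τ)) +
      Real.pi * (T + H) * (1 - y) * τ := by
  rw [MP_b30479_gtS.G2.M11S.V1_form, MP_b30479_gtS.G2.M11S.V1_form, uu_neg, show H * τ + s = s + H * τ by ring,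
    show -(T * τ) + s = s - T * τ by ring]
  ring

theorem uu_x (x0 : 1 / 2 ≤ x) (x1 : x < 1) (T0 : 0 ≤ T) (TH : T ≤ H) (t0 : 0 ≤ τ) :
    0 ≤ uu x (H * τ) - uu x (T * τ) := by
  have h := mv_lo (u := x) (m := 0) (by linarith only [x0, x1]) x1
    (show T * τ ≤ H * τ from mul_le_mul_of_nonneg_right TH t0) fun r r0 _ =>
      yy_nonneg' x0 x1 ((mul_nonneg T0 t0).trans r0)
  linarith only [h]

variable (x0 : 1 / 2 ≤ x) (x1 : x < 1) (T0 : 0 ≤ T) (TH : T ≤ H) (t0 : 0 ≤ τ) (y0 : 0 ≤ y)
  (u2 : x + y ≤ 5 / 3)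
include x0 x1 T0 TH t0 y0

/-- A, `u < 1` -/
theorem flA0 (u1 : x + y < 1) : τ * ((T + H) * (Real.pi * (y - 1) +
    max (yy (x + y) (s - H * τ)) (-(Real.pi / 2)))) ≤
    V1 ⟨x, T * τ⟩ ⟨y, s⟩ - V1 ⟨x, -(H * τ)⟩ ⟨y, s⟩ := by
  have h1 := uu_x x0 x1 T0 TH t0
  have h2 := mul_nonneg T0 t0
  have h3 := mul_nonneg (T0.trans TH) t0
  have h4 := mv_lo (u := x + y) (m := yy (x + y) (s - H * τ)) (by linarith only [x0, x1, y0]) u1
    (show s - H * τ ≤ s + T * τ by linarith only [h2, h3]) fun r r0 _ => yy_mono (by linarith only [x0, y0]) u1 r0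
  have h5 := abs_le.1 (NumXs.abs_yy_le (x := x + y) (t := s - H * τ) (by linarith only [x0, x1, y0]) u1.le)
  rw [max_eq_left (by linarith only [h5, h5.1]), fA_eq]
  nlinarith only [h1, h4, h4]

/-- B, `u < 1` -/
theorem flB0 (u1 : x + y < 1) : τ * ((T + H) * (Real.pi * (1 - y) -
    min (Real.pi / 2) (yy (x + y) (s + H * τ)))) ≤
    V1 ⟨x, -(T * τ)⟩ ⟨y, s⟩ - V1 ⟨x, H * τ⟩ ⟨y, s⟩ := by
  have h1 := uu_x x0 x1 T0 TH t0
  have h2 := mul_nonneg T0 t0
  have h3 := mul_nonneg (T0.trans TH) t0
  have h4 := mv_up (u := x + y) (m := yy (x + y) (s + H * τ)) (by linarith only [x0, x1, y0]) u1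
    (show s - T * τ ≤ s + H * τ by linarith only [h2, h3]) fun r _ r1 => yy_mono (by linarith only [x0, y0]) u1 r1
  have h5 := abs_le.1 (NumXs.abs_yy_le (x := x + y) (t := s + H * τ) (by linarith only [x0, x1, y0]) u1.le)
  rw [min_eq_right (by linarith only [h5, h5.2]), fB_eq]
  nlinarith only [h1, h4, h4]

include u2

/-- A, `u ≥ 1`, every `s` -/
theorem flA1 (u1 : 1 ≤ x + y) : τ * ((T + H) * (Real.pi * (y - 2) -
    12 * (|s| + H * τ) * max (x + y - 1 - 1 / 2) 0)) ≤
    V1 ⟨x, T * τ⟩ ⟨y, s⟩ - V1 ⟨x, -(H * τ)⟩ ⟨y, s⟩ := by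
  have hp := Real.pi_pos
  have h1 := uu_x x0 x1 T0 TH t0
  have h2 := mul_nonneg T0 t0
  have h3 := mul_nonneg (T0.trans TH) t0
  have hm : 0 ≤ max (x + y - 1 - 1 / 2) 0 := le_max_right _ _
  rw [fA_eq, uu_far, uu_far (x + y) (s - H * τ)]
  have k0 := abs_nonneg (s + T * τ)
  have k1 := abs_nonneg (s - H * τ)
  have k2 : |s - H * τ| ≤ |s| + H * τ := (abs_sub _ _).trans (by rw [abs_of_nonneg h3])
  have k3 : |s - H * τ| - |s + T * τ| ≤ (T + H) * τ := by
    have := abs_sub_abs_le_abs_sub (s - H * τ) (s + T * τ)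
    rw [show s - H * τ - (s + T * τ) = -((T + H) * τ) by ring, abs_neg,
      abs_of_nonneg (show 0 ≤ (T + H) * τ by nlinarith only [h2, h3])] at this
    exact this
  set m := max (x + y - 1 - 1 / 2) 0
  have hTH : 0 ≤ (T + H) * τ := by nlinarith only [h2, h3]
  rcases le_total |s - H * τ| |s + T * τ| with h | h
  · have h4 := w_lo' (v := x + y - 1) (by linarith only [u1]) (by linarith only [u2]) k1 h
    have h5 : 0 ≤ 12 * (|s| + H * τ) * m := by positivity
    have h6 := mul_nonneg hTH h5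
    nlinarith only [h1, h4, h6, x0, x1, hp, h2, h3, k3]
  · have h4 := w_up' (v := x + y - 1) (by linarith only [u1]) (by linarith only [u2]) k0 h
    have h5 : 12 * |s - H * τ| * m ≤ 12 * (|s| + H * τ) * m := by gcongr
    have h7 : 0 ≤ 12 * |s - H * τ| * m := by positivity
    have h8 : 12 * |s - H * τ| * m * (|s - H * τ| - |s + T * τ|) ≤
        12 * (|s| + H * τ) * m * ((T + H) * τ) :=
      mul_le_mul h5 k3 (by linarith only [h]) (h7.trans h5)
    nlinarith only [h1, h4, h8, x0, x1, hp, k3]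

/-- A, `u ≥ 1`, `s ≥ 0` -/
theorem flA2 (u1 : 1 ≤ x + y) (hs : 0 ≤ s) : τ * ((T + H) * (Real.pi * (y - 1)) -
    (H - T) * (Real.pi + 12 * (H * τ) * max (x + y - 1 - 1 / 2) 0)) ≤
    V1 ⟨x, T * τ⟩ ⟨y, s⟩ - V1 ⟨x, -(H * τ)⟩ ⟨y, s⟩ := by
  have hp := Real.pi_pos
  have h1 := uu_x x0 x1 T0 TH t0
  have h2 := mul_nonneg T0 t0
  have h3 := mul_nonneg (T0.trans TH) t0
  have hm : 0 ≤ max (x + y - 1 - 1 / 2) 0 := le_max_right _ _
  rw [fA_eq, uu_far, uu_far (x + y) (s - H * τ)]
  have k1 := abs_nonneg (s - H * τ)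
  rw [abs_of_nonneg (show 0 ≤ s + T * τ by linarith only [hs, h2])]
  set m := max (x + y - 1 - 1 / 2) 0
  have hTH : 0 ≤ (H - T) * τ := mul_nonneg (by linarith only [TH]) t0
  rcases le_total |s - H * τ| (s + T * τ) with h | h
  · have h4 := w_lo' (v := x + y - 1) (by linarith only [u1]) (by linarith only [u2]) k1 h
    have h5 : 0 ≤ 12 * (H * τ) * m := by positivity
    have h6 := mul_nonneg hTH h5
    nlinarith only [h1, h4, h6, x0, x1, hp, hTH, h]
  · have hsH : s < H * τ ∨ s + T * τ = |s - H * τ| := by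
      rcases lt_or_ge s (H * τ) with h6 | h6
      · exact Or.inl h6
      · refine Or.inr (le_antisymm h ?_)
        rw [abs_of_nonneg (by linarith only [h6])]
        linarith only [h2, h3]
    rcases hsH with h6 | h6
    · rw [abs_of_nonpos (show s - H * τ ≤ 0 by linarith only [h6])] at h ⊢
      have h4 := w_up' (v := x + y - 1) (by linarith only [u1]) (by linarith only [u2])
        (show 0 ≤ s + T * τ by linarith only [hs, h2]) h
      have h5 : 12 * (-(s - H * τ)) * m ≤ 12 * (H * τ) * m := by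
        gcongr
        linarith only [hs]
      have h7 : 0 ≤ 12 * (-(s - H * τ)) * m := by
        have : 0 ≤ -(s - H * τ) := by linarith only [h6]
        positivity
      have k3 : -(s - H * τ) - (s + T * τ) ≤ (H - T) * τ := by nlinarith only [hs]
      have h8 : 12 * (-(s - H * τ)) * m * (-(s - H * τ) - (s + T * τ)) ≤
          12 * (H * τ) * m * ((H - T) * τ) :=
        mul_le_mul h5 k3 (by linarith only [h]) (h7.trans h5)
      nlinarith only [h1, h4, h8, x0, x1, hs, hp]
    · rw [← h6]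
      have h5 : 0 ≤ 12 * (H * τ) * m := by positivity
      have h7 := mul_nonneg hTH h5
      nlinarith only [h1, h7, x0, x1, hp, hTH]

/-- A, `u ≥ 1`, `s ≥ H τ` -/
theorem flA3 (u1 : 1 ≤ x + y) (hs : H * τ ≤ s) : τ * ((T + H) * (Real.pi * y +
    min 0 (max (yy (x + y - 1) (s + T * τ)) (-(Real.pi / 2))))) ≤
    V1 ⟨x, T * τ⟩ ⟨y, s⟩ - V1 ⟨x, -(H * τ)⟩ ⟨y, s⟩ := by
  have hp := Real.pi_pos
  have h1 := uu_x x0 x1 T0 TH t0
  have h2 := mul_nonneg T0 t0
  have h3 := mul_nonneg (T0.trans TH) t0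
  rw [fA_eq, uu_far, uu_far (x + y) (s - H * τ)]
  rw [abs_of_nonneg (show 0 ≤ s + T * τ by linarith only [hs, h2, h3]), abs_of_nonneg (show 0 ≤ s - H * τ by linarith only [hs])]
  have h4 := w_lo (v := x + y - 1) (by linarith only [u1]) (by linarith only [u2]) (show 0 ≤ s - H * τ by linarith only [hs])
    (show s - H * τ ≤ s + T * τ by linarith only [h2, h3])
  have h5 := abs_le.1 (NumXs.abs_yy_le (x := x + y - 1) (t := s + T * τ) (by linarith only [u1]) (by linarith only [x0, x1, u2]))
  rw [max_eq_left (by linarith only [h5, h5.1])]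
  nlinarith only [h1, h4, h4]

/-- B, `u ≥ 1`, every `s` -/
theorem flB1 (u1 : 1 ≤ x + y) : τ * (-((T + H) * (Real.pi * y +
    12 * (|s| + H * τ) * max (x + y - 1 - 1 / 2) 0))) ≤
    V1 ⟨x, -(T * τ)⟩ ⟨y, s⟩ - V1 ⟨x, H * τ⟩ ⟨y, s⟩ := by
  have hp := Real.pi_pos
  have h1 := uu_x x0 x1 T0 TH t0
  have h2 := mul_nonneg T0 t0
  have h3 := mul_nonneg (T0.trans TH) t0
  have hm : 0 ≤ max (x + y - 1 - 1 / 2) 0 := le_max_right _ _
  rw [fB_eq, uu_far, uu_far (x + y) (s - T * τ)]
  have k0 := abs_nonneg (s - T * τ)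
  have k1 := abs_nonneg (s + H * τ)
  have k2 : |s + H * τ| ≤ |s| + H * τ := (abs_add_le _ _).trans (by rw [abs_of_nonneg h3])
  have k3 : |s + H * τ| - |s - T * τ| ≤ (T + H) * τ := by
    have := abs_sub_abs_le_abs_sub (s + H * τ) (s - T * τ)
    rw [show s + H * τ - (s - T * τ) = (T + H) * τ by ring,
      abs_of_nonneg (show 0 ≤ (T + H) * τ by nlinarith only [h2, h3])] at this
    exact this
  set m := max (x + y - 1 - 1 / 2) 0
  have hTH : 0 ≤ (T + H) * τ := by nlinarith only [h2, h3]
  rcases le_total |s + H * τ| |s - T * τ| with h | h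
  · have h4 := w_lo' (v := x + y - 1) (by linarith only [u1]) (by linarith only [u2]) k1 h
    have h5 : 0 ≤ 12 * (|s| + H * τ) * m := by positivity
    have h6 := mul_nonneg hTH h5
    nlinarith only [h1, h4, h6, x0, x1, hp, h2, h3, k3]
  · have h4 := w_up' (v := x + y - 1) (by linarith only [u1]) (by linarith only [u2]) k0 h
    have h5 : 12 * |s + H * τ| * m ≤ 12 * (|s| + H * τ) * m := by gcongr
    have h7 : 0 ≤ 12 * |s + H * τ| * m := by positivity
    have h8 : 12 * |s + H * τ| * m * (|s + H * τ| - |s - T * τ|) ≤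
        12 * (|s| + H * τ) * m * ((T + H) * τ) :=
      mul_le_mul h5 k3 (by linarith only [h]) (h7.trans h5)
    nlinarith only [h1, h4, h8, x0, x1, hp, k3]

/-- B, `u ≥ 1`, `s ≤ 0` -/
theorem flB2 (u1 : 1 ≤ x + y) (hs : s ≤ 0) : τ * ((T + H) * (Real.pi * (1 - y)) -
    (H - T) * (Real.pi + 12 * (H * τ) * max (x + y - 1 - 1 / 2) 0)) ≤
    V1 ⟨x, -(T * τ)⟩ ⟨y, s⟩ - V1 ⟨x, H * τ⟩ ⟨y, s⟩ := by
  have hp := Real.pi_pos
  have h1 := uu_x x0 x1 T0 TH t0
  have h2 := mul_nonneg T0 t0
  have h3 := mul_nonneg (T0.trans TH) t0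
  have hm : 0 ≤ max (x + y - 1 - 1 / 2) 0 := le_max_right _ _
  rw [fB_eq, uu_far, uu_far (x + y) (s - T * τ)]
  have k1 := abs_nonneg (s + H * τ)
  rw [abs_of_nonpos (show s - T * τ ≤ 0 by linarith only [hs, h2])]
  set m := max (x + y - 1 - 1 / 2) 0
  have hTH : 0 ≤ (H - T) * τ := mul_nonneg (by linarith only [TH]) t0
  rcases le_total |s + H * τ| (-(s - T * τ)) with h | h
  · have h4 := w_lo' (v := x + y - 1) (by linarith only [u1]) (by linarith only [u2]) k1 h
    have h5 : 0 ≤ 12 * (H * τ) * m := by positivity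
    have h6 := mul_nonneg hTH h5
    nlinarith only [h1, h4, h6, x0, x1, hp, hTH, h]
  · have hsH : 0 < s + H * τ ∨ -(s - T * τ) = |s + H * τ| := by
      rcases lt_or_ge 0 (s + H * τ) with h6 | h6
      · exact Or.inl h6
      · refine Or.inr (le_antisymm h ?_)
        rw [abs_of_nonpos h6]
        linarith only [h2, h3]
    rcases hsH with h6 | h6
    · rw [abs_of_pos h6] at h ⊢
      have h4 := w_up' (v := x + y - 1) (by linarith only [u1]) (by linarith only [u2])
        (show 0 ≤ -(s - T * τ) by linarith only [hs, h2]) h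
      have h5 : 12 * (s + H * τ) * m ≤ 12 * (H * τ) * m := by
        gcongr
        linarith only [hs]
      have h7 : 0 ≤ 12 * (s + H * τ) * m := by positivity
      have k3 : s + H * τ - -(s - T * τ) ≤ (H - T) * τ := by nlinarith only [hs]
      have h8 : 12 * (s + H * τ) * m * (s + H * τ - -(s - T * τ)) ≤
          12 * (H * τ) * m * ((H - T) * τ) :=
        mul_le_mul h5 k3 (by linarith only [h]) (h7.trans h5)
      nlinarith only [h1, h4, h8, x0, x1, hs, hp]
    · rw [← h6]
      have h5 : 0 ≤ 12 * (H * τ) * m := by positivity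
      have h7 := mul_nonneg hTH h5
      nlinarith only [h1, h7, x0, x1, hp, hTH]

/-- B, `u ≥ 1`, `s ≥ T τ` -/
theorem flB3 (u1 : 1 ≤ x + y) (hs : T * τ ≤ s) : τ * (-((T + H) * (Real.pi * y +
    12 * (|s| + H * τ) * max (x + y - 1 - 1 / 2) 0 + min 0 (yy (x + y - 1) (s - T * τ))))) ≤
    V1 ⟨x, -(T * τ)⟩ ⟨y, s⟩ - V1 ⟨x, H * τ⟩ ⟨y, s⟩ := by
  have hp := Real.pi_pos
  have h1 := uu_x x0 x1 T0 TH t0
  have h2 := mul_nonneg T0 t0
  have h3 := mul_nonneg (T0.trans TH) t0
  rw [fB_eq, uu_far, uu_far (x + y) (s - T * τ)]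
  rw [abs_of_nonneg (show 0 ≤ s + H * τ by linarith only [hs, h2, h3]), abs_of_nonneg (show 0 ≤ s - T * τ by linarith only [hs]),
    abs_of_nonneg (show 0 ≤ s by linarith only [hs, h2])]
  have h4 := w_up (v := x + y - 1) (by linarith only [u1]) (by linarith only [u2]) (show 0 ≤ s - T * τ by linarith only [hs])
    (show s - T * τ ≤ s + H * τ by linarith only [h2, h3])
  nlinarith only [h1, h4, h4]

end flip

end M11

end Pool.Agent.Work.NumGs

end
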