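import Pool.Agent.Work.MP_b30479_gt.TBS.G2.S0RC
import Pool.Agent.Work.MP_b30479_gt.TBS.NumU.Tree

section

/-!
# The own side of an interior `3` at slot `0`, right ramp: rows, left neighbours `2`, `2e`; near rows
-/

set_option linter.unusedSimpArgs false
set_option linter.unusedVariables false

set_option deprecated.oldSectionVars true

namespace Pool.Agent.Work.MP_b30479_gtS.G2

open VOL NumUs

namespace S0R

open NumUs.E EE

theorem n3b {x T t : ℝ} (ua1 : 3000 / 10000 ≤ x) (ua2 : x ≤ 4000 / 10000) (ua3 : 0 / 10000 ≤ T) (ua4 : T ≤ 570 / 10000) (ua5 : -(1050 / 10000) ≤ t) (ua6 : t ≤ 50 / 10000) (ua7 : t - rui (10 / 3) x T ≤ 0) (ua8 : T - t ≤ 105 / 1000) :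
    rN (10 / 3) (1300 / 10000) 0 (x + 1300 / 10000) x T t < 66 / 100 - 3 / 2 * x := by
  have h : chkT [sub (sub (q 66 100) (mul (q 3 2) EE.x)) (N 10 3 (q 1300 10000) (q 0 1) (add EE.x (q 1300 10000))), nyy 10 3, sub (sub EE.T EE.nt) (q 105 1000)] 30
    36642105362
    [NumIs.V.of 10000 3000 4000, NumIs.V.of 10000 0 570, NumIs.V.of 10000 (-1050) 50] = true := by
    decide +kernel
  obtain ⟨f, hf, hp⟩ := chkT3 h (by norm_num) (x := x) (y := T) (z := t)
    (by norm_num; linarith only [ua1]) (by norm_num; linarith only [ua2]) (by norm_num; linarith only [ua3]) (by norm_num; linarith only [ua4]) (by norm_num; linarith only [ua5]) (by norm_num; linarith only [ua6])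
  by_contra hc
  push Not at hc
  simp only [List.mem_cons, List.not_mem_nil, or_false] at hf
  rcases hf with rfl | rfl | rfl
  · simp only [S_val, F_val, N_val, ui_val, EE.pa, EE.pb, EE.pc, EE.kT, nyy, EE.x, EE.T, EE.p, EE.t, EE.nt, EE.v, E.val, NumIs.lkR] at hp
    push_cast at hp
    linarith only [hc, hp]
  · simp only [S_val, F_val, N_val, ui_val, EE.pa, EE.pb, EE.pc, EE.kT, nyy, EE.x, EE.T, EE.p, EE.t, EE.nt, EE.v, E.val, NumIs.lkR] at hp
    push_cast at hp
    linarith only [ua7, hp]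
  · simp only [S_val, F_val, N_val, ui_val, EE.pa, EE.pb, EE.pc, EE.kT, nyy, EE.x, EE.T, EE.p, EE.t, EE.nt, EE.v, E.val, NumIs.lkR] at hp
    push_cast at hp
    linarith only [ua8, hp]

theorem n3c {x T t : ℝ} (ua1 : 3000 / 10000 ≤ x) (ua2 : x ≤ 4000 / 10000) (ua3 : 0 / 10000 ≤ T) (ua4 : T ≤ 570 / 10000) (ua5 : 0 / 10000 ≤ t) (ua6 : t ≤ 50 / 10000) (ua7 : 0 ≤ t - rui (10 / 3) x T) :
    rN (10 / 3) (1300 / 10000) (-Real.pi) (x + 1300 / 10000) x T t < 66 / 100 - 3 / 2 * x := by
  have h : chkT [sub (sub (q 66 100) (mul (q 3 2) EE.x)) (N 10 3 (q 1300 10000) (neg pi) (add EE.x (q 1300 10000))), neg (nyy 10 3)] 30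
    2433
    [NumIs.V.of 10000 3000 4000, NumIs.V.of 10000 0 570, NumIs.V.of 10000 0 50] = true := by
    decide +kernel
  obtain ⟨f, hf, hp⟩ := chkT3 h (by norm_num) (x := x) (y := T) (z := t)
    (by norm_num; linarith only [ua1]) (by norm_num; linarith only [ua2]) (by norm_num; linarith only [ua3]) (by norm_num; linarith only [ua4]) (by norm_num; linarith only [ua5]) (by norm_num; linarith only [ua6])
  by_contra hc
  push Not at hc
  simp only [List.mem_cons, List.not_mem_nil, or_false] at hf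
  rcases hf with rfl | rfl
  · simp only [S_val, F_val, N_val, ui_val, EE.pa, EE.pb, EE.pc, EE.kT, nyy, EE.x, EE.T, EE.p, EE.t, EE.nt, EE.v, E.val, NumIs.lkR] at hp
    push_cast at hp
    linarith only [hc, hp]
  · simp only [S_val, F_val, N_val, ui_val, EE.pa, EE.pb, EE.pc, EE.kT, nyy, EE.x, EE.T, EE.p, EE.t, EE.nt, EE.v, E.val, NumIs.lkR] at hp
    push_cast at hp
    linarith only [ua7, hp]

theorem n3ea {x T t : ℝ} (ua1 : 4000 / 10000 ≤ x) (ua2 : x ≤ 5000 / 10000) (ua3 : -(280 / 10000) ≤ T) (ua4 : T ≤ -(50 / 10000)) (ua5 : -(1140 / 10000) ≤ t) (ua6 : t ≤ 50 / 10000) :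
    rN (10 / 3) (1300 / 10000) (Real.pi + NumIs.lnB (1300 / 10000) (t - rui (10 / 3) x T)) (x - 1300 / 10000) x T t < -(35 / 1000) := by
  have h : chkT [sub (q (-35) 1000) (N 10 3 (q 1300 10000) (add pi (E.lnB (q 1300 10000) (nyy 10 3))) (sub EE.x (q 1300 10000)))] 30
    2178
    [NumIs.V.of 10000 4000 5000, NumIs.V.of 10000 (-280) (-50), NumIs.V.of 10000 (-1140) 50] = true := by
    decide +kernel
  obtain ⟨f, hf, hp⟩ := chkT3 h (by norm_num) (x := x) (y := T) (z := t)
    (by norm_num; linarith only [ua1]) (by norm_num; linarith only [ua2]) (by norm_num; linarith only [ua3]) (by norm_num; linarith only [ua4]) (by norm_num; linarith only [ua5]) (by norm_num; linarith only [ua6])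
  by_contra hc
  push Not at hc
  simp only [List.mem_cons, List.not_mem_nil, or_false] at hf
  rcases hf with rfl
  · simp only [S_val, F_val, N_val, ui_val, EE.pa, EE.pb, EE.pc, EE.kT, nyy, EE.x, EE.T, EE.p, EE.t, EE.nt, EE.v, E.val, NumIs.lkR] at hp
    push_cast at hp
    linarith only [hc, hp]

theorem n3za {x T t : ℝ} (ua1 : 4000 / 10000 ≤ x) (ua2 : x ≤ 5000 / 10000) (ua3 : -(220 / 10000) ≤ T) (ua4 : T ≤ 0 / 10000) (ua5 : -(1140 / 10000) ≤ t) (ua6 : t ≤ 50 / 10000) :
    rN (10 / 3) (1300 / 10000) (Real.pi + NumIs.lnB (1300 / 10000) (t - rui (10 / 3) x T)) (x - 1300 / 10000) x T t < 0 := by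
  have h : chkT [sub (q 0 1) (N 10 3 (q 1300 10000) (add pi (E.lnB (q 1300 10000) (nyy 10 3))) (sub EE.x (q 1300 10000)))] 30
    2178
    [NumIs.V.of 10000 4000 5000, NumIs.V.of 10000 (-220) 0, NumIs.V.of 10000 (-1140) 50] = true := by
    decide +kernel
  obtain ⟨f, hf, hp⟩ := chkT3 h (by norm_num) (x := x) (y := T) (z := t)
    (by norm_num; linarith only [ua1]) (by norm_num; linarith only [ua2]) (by norm_num; linarith only [ua3]) (by norm_num; linarith only [ua4]) (by norm_num; linarith only [ua5]) (by norm_num; linarith only [ua6])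
  by_contra hc
  push Not at hc
  simp only [List.mem_cons, List.not_mem_nil, or_false] at hf
  rcases hf with rfl
  · simp only [S_val, F_val, N_val, ui_val, EE.pa, EE.pb, EE.pc, EE.kT, nyy, EE.x, EE.T, EE.p, EE.t, EE.nt, EE.v, E.val, NumIs.lkR] at hp
    push_cast at hp
    linarith only [hc, hp]

theorem n3zb {x T t : ℝ} (ua1 : 4000 / 10000 ≤ x) (ua2 : x ≤ 5000 / 10000) (ua3 : 0 / 10000 ≤ T) (ua4 : T ≤ 570 / 10000) (ua5 : -(1050 / 10000) ≤ t) (ua6 : t ≤ 50 / 10000) (ua7 : t - rui (10 / 3) x T ≤ 0) (ua8 : T - t ≤ 105 / 1000) :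
    rN (10 / 3) (1300 / 10000) 0 (x + 1300 / 10000) x T t < 0 := by
  have h : chkT [sub (q 0 1) (N 10 3 (q 1300 10000) (q 0 1) (add EE.x (q 1300 10000))), nyy 10 3, sub (sub EE.T EE.nt) (q 105 1000)] 30
    157409956056483234322
    [NumIs.V.of 10000 4000 5000, NumIs.V.of 10000 0 570, NumIs.V.of 10000 (-1050) 50] = true := by
    decide +kernel
  obtain ⟨f, hf, hp⟩ := chkT3 h (by norm_num) (x := x) (y := T) (z := t)
    (by norm_num; linarith only [ua1]) (by norm_num; linarith only [ua2]) (by norm_num; linarith only [ua3]) (by norm_num; linarith only [ua4]) (by norm_num; linarith only [ua5]) (by norm_num; linarith only [ua6])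
  by_contra hc
  push Not at hc
  simp only [List.mem_cons, List.not_mem_nil, or_false] at hf
  rcases hf with rfl | rfl | rfl
  · simp only [S_val, F_val, N_val, ui_val, EE.pa, EE.pb, EE.pc, EE.kT, nyy, EE.x, EE.T, EE.p, EE.t, EE.nt, EE.v, E.val, NumIs.lkR] at hp
    push_cast at hp
    linarith only [hc, hp]
  · simp only [S_val, F_val, N_val, ui_val, EE.pa, EE.pb, EE.pc, EE.kT, nyy, EE.x, EE.T, EE.p, EE.t, EE.nt, EE.v, E.val, NumIs.lkR] at hp
    push_cast at hp
    linarith only [ua7, hp]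
  · simp only [S_val, F_val, N_val, ui_val, EE.pa, EE.pb, EE.pc, EE.kT, nyy, EE.x, EE.T, EE.p, EE.t, EE.nt, EE.v, E.val, NumIs.lkR] at hp
    push_cast at hp
    linarith only [ua8, hp]

theorem n3zc {x T t : ℝ} (ua1 : 4000 / 10000 ≤ x) (ua2 : x ≤ 5000 / 10000) (ua3 : 0 / 10000 ≤ T) (ua4 : T ≤ 570 / 10000) (ua5 : 0 / 10000 ≤ t) (ua6 : t ≤ 50 / 10000) (ua7 : 0 ≤ t - rui (10 / 3) x T) :
    rN (10 / 3) (1300 / 10000) (-Real.pi) (x + 1300 / 10000) x T t < 0 := by
  have h : chkT [sub (q 0 1) (N 10 3 (q 1300 10000) (neg pi) (add EE.x (q 1300 10000))), neg (nyy 10 3)] 30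
    626817
    [NumIs.V.of 10000 4000 5000, NumIs.V.of 10000 0 570, NumIs.V.of 10000 0 50] = true := by
    decide +kernel
  obtain ⟨f, hf, hp⟩ := chkT3 h (by norm_num) (x := x) (y := T) (z := t)
    (by norm_num; linarith only [ua1]) (by norm_num; linarith only [ua2]) (by norm_num; linarith only [ua3]) (by norm_num; linarith only [ua4]) (by norm_num; linarith only [ua5]) (by norm_num; linarith only [ua6])
  by_contra hc
  push Not at hc
  simp only [List.mem_cons, List.not_mem_nil, or_false] at hf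
  rcases hf with rfl | rfl
  · simp only [S_val, F_val, N_val, ui_val, EE.pa, EE.pb, EE.pc, EE.kT, nyy, EE.x, EE.T, EE.p, EE.t, EE.nt, EE.v, E.val, NumIs.lkR] at hp
    push_cast at hp
    linarith only [hc, hp]
  · simp only [S_val, F_val, N_val, ui_val, EE.pa, EE.pb, EE.pc, EE.kT, nyy, EE.x, EE.T, EE.p, EE.t, EE.nt, EE.v, E.val, NumIs.lkR] at hp
    push_cast at hp
    linarith only [ua7, hp]

end S0R

end Pool.Agent.Work.MP_b30479_gtS.G2

end

section

/-!
# Part of `S0RD`
-/
set_option linter.unusedSimpArgs false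
set_option linter.unusedVariables false

set_option deprecated.oldSectionVars true

namespace Pool.Agent.Work.MP_b30479_gtS.G2

open VOL NumUs

namespace S0R

open NumUs.E EE

theorem e2_1b {x T p t : ℝ} (ua1 : 3000 / 10000 ≤ x) (ua2 : x ≤ 5000 / 10000) (ua3 : -(980 / 10000) ≤ T) (ua4 : T ≤ -(760 / 10000)) (ua5 : 1000 / 10000 ≤ p) (ua6 : p ≤ 4300 / 10000) (ua7 : -(1230 / 10000) ≤ t) (ua8 : t ≤ -(800 / 10000)) (ua9 : 4300 / 10000 ≤ x + p) (ua10 : x + p ≤ 7300 / 10000) :
    rS (10 / 3) x T p t < 57 / 100 + 5 / 2 * (10 / 3 * T) ∨ rF (10 / 3) (x + p + 7 / 100) (-98 / 10000) x T p t < 57 / 100 + 5 / 2 * (10 / 3 * T) := by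
  have h : chkT [sub (add (q 57 100) (mul (q 5 2) (kT 10 3))) (S 10 3), sub (add (q 57 100) (mul (q 5 2) (kT 10 3))) (F 10 3 pb (q (-98) 10000)), sub (q 4300 10000) EE.v, sub EE.v (q 7300 10000)] 30
    741317810775136870423291976292478761836578
    [NumIs.V.of 10000 3000 5000, NumIs.V.of 10000 (-980) (-760), NumIs.V.of 10000 1000 4300, NumIs.V.of 10000 (-1230) (-800)] = true := by
    decide +kernel
  obtain ⟨f, hf, hp⟩ := chkT4 h (by norm_num) (x := x) (y := T) (z := p) (w := t)
    (by norm_num; linarith only [ua1]) (by norm_num; linarith only [ua2]) (by norm_num; linarith only [ua3]) (by norm_num; linarith only [ua4]) (by norm_num; linarith only [ua5]) (by norm_num; linarith only [ua6]) (by norm_num; linarith only [ua7]) (by norm_num; linarith only [ua8])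
  by_contra hc
  push Not at hc
  obtain ⟨hc0, hc1⟩ := hc
  simp only [List.mem_cons, List.not_mem_nil, or_false] at hf
  rcases hf with rfl | rfl | rfl | rfl
  · simp only [S_val, F_val, N_val, ui_val, EE.pa, EE.pb, EE.pc, EE.kT, nyy, EE.x, EE.T, EE.p, EE.t, EE.nt, EE.v, E.val, NumIs.lkR] at hp
    push_cast at hp
    linarith only [hc0, hp]
  · simp only [S_val, F_val, N_val, ui_val, EE.pa, EE.pb, EE.pc, EE.kT, nyy, EE.x, EE.T, EE.p, EE.t, EE.nt, EE.v, E.val, NumIs.lkR] at hp
    push_cast at hp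
    linarith only [hc1, hp]
  · simp only [S_val, F_val, N_val, ui_val, EE.pa, EE.pb, EE.pc, EE.kT, nyy, EE.x, EE.T, EE.p, EE.t, EE.nt, EE.v, E.val, NumIs.lkR] at hp
    push_cast at hp
    linarith only [ua9, hp]
  · simp only [S_val, F_val, N_val, ui_val, EE.pa, EE.pb, EE.pc, EE.kT, nyy, EE.x, EE.T, EE.p, EE.t, EE.nt, EE.v, E.val, NumIs.lkR] at hp
    push_cast at hp
    linarith only [ua10, hp]

theorem e2_1c {x T p t : ℝ} (ua1 : 3000 / 10000 ≤ x) (ua2 : x ≤ 5000 / 10000) (ua3 : -(980 / 10000) ≤ T) (ua4 : T ≤ -(760 / 10000)) (ua5 : 2300 / 10000 ≤ p) (ua6 : p ≤ 4500 / 10000) (ua7 : -(1230 / 10000) ≤ t) (ua8 : t ≤ -(800 / 10000)) (ua9 : 7300 / 10000 ≤ x + p) (ua10 : x + p ≤ 7500 / 10000) :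
    rS (10 / 3) x T p t < 57 / 100 + 5 / 2 * (10 / 3 * T) ∨ rF (10 / 3) (80 / 100) (-98 / 10000) x T p t < 57 / 100 + 5 / 2 * (10 / 3 * T) := by
  have h : chkT [sub (add (q 57 100) (mul (q 5 2) (kT 10 3))) (S 10 3), sub (add (q 57 100) (mul (q 5 2) (kT 10 3))) (F 10 3 pc (q (-98) 10000)), sub (q 7300 10000) EE.v, sub EE.v (q 7500 10000)] 30
    9384512557570
    [NumIs.V.of 10000 3000 5000, NumIs.V.of 10000 (-980) (-760), NumIs.V.of 10000 2300 4500, NumIs.V.of 10000 (-1230) (-800)] = true := by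
    decide +kernel
  obtain ⟨f, hf, hp⟩ := chkT4 h (by norm_num) (x := x) (y := T) (z := p) (w := t)
    (by norm_num; linarith only [ua1]) (by norm_num; linarith only [ua2]) (by norm_num; linarith only [ua3]) (by norm_num; linarith only [ua4]) (by norm_num; linarith only [ua5]) (by norm_num; linarith only [ua6]) (by norm_num; linarith only [ua7]) (by norm_num; linarith only [ua8])
  by_contra hc
  push Not at hc
  obtain ⟨hc0, hc1⟩ := hc
  simp only [List.mem_cons, List.not_mem_nil, or_false] at hf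
  rcases hf with rfl | rfl | rfl | rfl
  · simp only [S_val, F_val, N_val, ui_val, EE.pa, EE.pb, EE.pc, EE.kT, nyy, EE.x, EE.T, EE.p, EE.t, EE.nt, EE.v, E.val, NumIs.lkR] at hp
    push_cast at hp
    linarith only [hc0, hp]
  · simp only [S_val, F_val, N_val, ui_val, EE.pa, EE.pb, EE.pc, EE.kT, nyy, EE.x, EE.T, EE.p, EE.t, EE.nt, EE.v, E.val, NumIs.lkR] at hp
    push_cast at hp
    linarith only [hc1, hp]
  · simp only [S_val, F_val, N_val, ui_val, EE.pa, EE.pb, EE.pc, EE.kT, nyy, EE.x, EE.T, EE.p, EE.t, EE.nt, EE.v, E.val, NumIs.lkR] at hp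
    push_cast at hp
    linarith only [ua9, hp]
  · simp only [S_val, F_val, N_val, ui_val, EE.pa, EE.pb, EE.pc, EE.kT, nyy, EE.x, EE.T, EE.p, EE.t, EE.nt, EE.v, E.val, NumIs.lkR] at hp
    push_cast at hp
    linarith only [ua10, hp]

theorem e2_oa {x T p t : ℝ} (ua1 : 3000 / 10000 ≤ x) (ua2 : x ≤ 5000 / 10000) (ua3 : -(980 / 10000) ≤ T) (ua4 : T ≤ -(760 / 10000)) (ua5 : 1000 / 10000 ≤ p) (ua6 : p ≤ 1300 / 10000) (ua7 : -(1160 / 10000) ≤ t) (ua8 : t ≤ -(640 / 10000)) (ua9 : x + p ≤ 4300 / 10000) :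
    rS (10 / 3) x T p t < 57 / 100 + 5 / 2 * (10 / 3 * T) ∨ rF (10 / 3) (1 / 2) (220 / 10000) x T p t < 57 / 100 + 5 / 2 * (10 / 3 * T) := by
  have h : chkT [sub (add (q 57 100) (mul (q 5 2) (kT 10 3))) (S 10 3), sub (add (q 57 100) (mul (q 5 2) (kT 10 3))) (F 10 3 pa (q 220 10000)), sub EE.v (q 4300 10000)] 30
    2176
    [NumIs.V.of 10000 3000 5000, NumIs.V.of 10000 (-980) (-760), NumIs.V.of 10000 1000 1300, NumIs.V.of 10000 (-1160) (-640)] = true := by
    decide +kernel
  obtain ⟨f, hf, hp⟩ := chkT4 h (by norm_num) (x := x) (y := T) (z := p) (w := t)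
    (by norm_num; linarith only [ua1]) (by norm_num; linarith only [ua2]) (by norm_num; linarith only [ua3]) (by norm_num; linarith only [ua4]) (by norm_num; linarith only [ua5]) (by norm_num; linarith only [ua6]) (by norm_num; linarith only [ua7]) (by norm_num; linarith only [ua8])
  by_contra hc
  push Not at hc
  obtain ⟨hc0, hc1⟩ := hc
  simp only [List.mem_cons, List.not_mem_nil, or_false] at hf
  rcases hf with rfl | rfl | rfl
  · simp only [S_val, F_val, N_val, ui_val, EE.pa, EE.pb, EE.pc, EE.kT, nyy, EE.x, EE.T, EE.p, EE.t, EE.nt, EE.v, E.val, NumIs.lkR] at hp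
    push_cast at hp
    linarith only [hc0, hp]
  · simp only [S_val, F_val, N_val, ui_val, EE.pa, EE.pb, EE.pc, EE.kT, nyy, EE.x, EE.T, EE.p, EE.t, EE.nt, EE.v, E.val, NumIs.lkR] at hp
    push_cast at hp
    linarith only [hc1, hp]
  · simp only [S_val, F_val, N_val, ui_val, EE.pa, EE.pb, EE.pc, EE.kT, nyy, EE.x, EE.T, EE.p, EE.t, EE.nt, EE.v, E.val, NumIs.lkR] at hp
    push_cast at hp
    linarith only [ua9, hp]

theorem e2_ob {x T p t : ℝ} (ua1 : 3000 / 10000 ≤ x) (ua2 : x ≤ 5000 / 10000) (ua3 : -(980 / 10000) ≤ T) (ua4 : T ≤ -(760 / 10000)) (ua5 : 1000 / 10000 ≤ p) (ua6 : p ≤ 4300 / 10000) (ua7 : -(1160 / 10000) ≤ t) (ua8 : t ≤ -(640 / 10000)) (ua9 : 4300 / 10000 ≤ x + p) (ua10 : x + p ≤ 7300 / 10000) :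
    rS (10 / 3) x T p t < 57 / 100 + 5 / 2 * (10 / 3 * T) ∨ rF (10 / 3) (x + p + 7 / 100) (220 / 10000) x T p t < 57 / 100 + 5 / 2 * (10 / 3 * T) := by
  have h : chkT [sub (add (q 57 100) (mul (q 5 2) (kT 10 3))) (S 10 3), sub (add (q 57 100) (mul (q 5 2) (kT 10 3))) (F 10 3 pb (q 220 10000)), sub (q 4300 10000) EE.v, sub EE.v (q 7300 10000)] 30
    11311591756109581903021962299710119970
    [NumIs.V.of 10000 3000 5000, NumIs.V.of 10000 (-980) (-760), NumIs.V.of 10000 1000 4300, NumIs.V.of 10000 (-1160) (-640)] = true := by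
    decide +kernel
  obtain ⟨f, hf, hp⟩ := chkT4 h (by norm_num) (x := x) (y := T) (z := p) (w := t)
    (by norm_num; linarith only [ua1]) (by norm_num; linarith only [ua2]) (by norm_num; linarith only [ua3]) (by norm_num; linarith only [ua4]) (by norm_num; linarith only [ua5]) (by norm_num; linarith only [ua6]) (by norm_num; linarith only [ua7]) (by norm_num; linarith only [ua8])
  by_contra hc
  push Not at hc
  obtain ⟨hc0, hc1⟩ := hc
  simp only [List.mem_cons, List.not_mem_nil, or_false] at hf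
  rcases hf with rfl | rfl | rfl | rfl
  · simp only [S_val, F_val, N_val, ui_val, EE.pa, EE.pb, EE.pc, EE.kT, nyy, EE.x, EE.T, EE.p, EE.t, EE.nt, EE.v, E.val, NumIs.lkR] at hp
    push_cast at hp
    linarith only [hc0, hp]
  · simp only [S_val, F_val, N_val, ui_val, EE.pa, EE.pb, EE.pc, EE.kT, nyy, EE.x, EE.T, EE.p, EE.t, EE.nt, EE.v, E.val, NumIs.lkR] at hp
    push_cast at hp
    linarith only [hc1, hp]
  · simp only [S_val, F_val, N_val, ui_val, EE.pa, EE.pb, EE.pc, EE.kT, nyy, EE.x, EE.T, EE.p, EE.t, EE.nt, EE.v, E.val, NumIs.lkR] at hp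
    push_cast at hp
    linarith only [ua9, hp]
  · simp only [S_val, F_val, N_val, ui_val, EE.pa, EE.pb, EE.pc, EE.kT, nyy, EE.x, EE.T, EE.p, EE.t, EE.nt, EE.v, E.val, NumIs.lkR] at hp
    push_cast at hp
    linarith only [ua10, hp]

end S0R

end Pool.Agent.Work.MP_b30479_gtS.G2

end

section

/-!
# The own side of an interior `3` at slot `0`: rows of the right ramp of the inner variable
-/

set_option linter.unusedSimpArgs false
set_option linter.unusedVariables false

set_option deprecated.oldSectionVars true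

namespace Pool.Agent.Work.MP_b30479_gtS.G2

open VOL NumUs

namespace S0R

open NumUs.E ER

theorem wd {x a c b s t : ℝ} (ua1 : 3000 / 10000 ≤ x) (ua2 : x ≤ 5000 / 10000) (ua3 : -(570 / 10000) ≤ a) (ua4 : a ≤ 570 / 10000) (ua5 : 300 / 10000 ≤ c) (ua6 : c ≤ 1100 / 10000) (ua7 : -(60 / 10000) ≤ b) (ua8 : b ≤ 570 / 10000) (ua9 : 0 / 10000 ≤ s) (ua10 : s ≤ 500 / 10000) (ua11 : -(1040 / 10000) ≤ t) (ua12 : t ≤ 50 / 10000) (ua13 : 0 ≤ 20 * (t * s) + b) :
    rV (uu c (20 * (t * s) + b) + Real.pi * (20 * (t * s) + b)) x a (c + (2 / 10 + s)) b (8 / 10 - s) (20 * (t * s)) < rV (uu (58 / 100 + (c + (2 / 10 + s))) (t + b)) x a (c + (2 / 10 + s)) b (58 / 100) t := by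
  have h : chkT [sub (V (E.uu (add (q 58 100) (add (var 2) (add (q 2 10) ER.s))) (add ER.t ER.b)) ER.x ER.a (add (var 2) (add (q 2 10) ER.s)) ER.b (q 58 100) ER.t) (V (add (E.uu (var 2) (add hh ER.b)) (mul pi (add hh ER.b))) ER.x ER.a (add (var 2) (add (q 2 10) ER.s)) ER.b rr hh), neg (add hh ER.b)] 40
    5113993047050075028213249350774205198527514173899731048848222360263268074949490235230820679613146356143226029093
    [NumIs.V.of 10000 3000 5000, NumIs.V.of 10000 (-570) 570, NumIs.V.of 10000 300 1100, NumIs.V.of 10000 (-60) 570, NumIs.V.of 10000 0 500, NumIs.V.of 10000 (-1040) 50] = true := by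
    decide +kernel
  obtain ⟨f, hf, hp⟩ := chkT_sound h (xs := [x, a, c, b, s, t])
    (List.Forall₂.cons (NumIs.V.of_mem (by norm_num) (by norm_num; linarith only [ua1]) (by norm_num; linarith only [ua2])) (List.Forall₂.cons (NumIs.V.of_mem (by norm_num) (by norm_num; linarith only [ua3]) (by norm_num; linarith only [ua4])) (List.Forall₂.cons (NumIs.V.of_mem (by norm_num) (by norm_num; linarith only [ua5]) (by norm_num; linarith only [ua6])) (List.Forall₂.cons (NumIs.V.of_mem (by norm_num) (by norm_num; linarith only [ua7]) (by norm_num; linarith only [ua8])) (List.Forall₂.cons (NumIs.V.of_mem (by norm_num) (by norm_num; linarith only [ua9]) (by norm_num; linarith only [ua10])) (List.Forall₂.cons (NumIs.V.of_mem (by norm_num) (by norm_num; linarith only [ua11]) (by norm_num; linarith only [ua12])) List.Forall₂.nil))))))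
  by_contra hc
  push Not at hc
  simp only [List.mem_cons, List.not_mem_nil, or_false] at hf
  rcases hf with rfl | rfl
  · simp only [G_val, V_val, ER.pp, ER.rr, ER.hh, ER.x, ER.a, ER.w, ER.b, ER.s, ER.t, E.val, NumIs.lkR] at hp
    push_cast at hp
    linarith only [hc, hp]
  · simp only [G_val, V_val, ER.pp, ER.rr, ER.hh, ER.x, ER.a, ER.w, ER.b, ER.s, ER.t, E.val, NumIs.lkR] at hp
    push_cast at hp
    linarith only [ua13, hp]

end S0R

end Pool.Agent.Work.MP_b30479_gtS.G2

end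

section

/-!
# Part of `S0RR`
-/
set_option linter.unusedSimpArgs false
set_option linter.unusedVariables false

set_option deprecated.oldSectionVars true

namespace Pool.Agent.Work.MP_b30479_gtS.G2

open VOL NumUs

namespace S0R

open NumUs.E ER

theorem r1c {x a w b s t : ℝ} (ua1 : 3000 / 10000 ≤ x) (ua2 : x ≤ 5000 / 10000) (ua3 : -(570 / 10000) ≤ a) (ua4 : a ≤ 570 / 10000) (ua5 : 2700 / 10000 ≤ w) (ua6 : w ≤ 3900 / 10000) (ua7 : -(1145 / 10000) ≤ b) (ua8 : b ≤ -(98 / 10000)) (ua9 : 0 / 10000 ≤ s) (ua10 : s ≤ 500 / 10000) (ua11 : -(1140 / 10000) ≤ t) (ua12 : t ≤ -(150 / 10000)) (ua13 : 10700 / 10000 ≤ 8 / 10 - s + w) :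
    rG (8 / 10 - s + w - 1) (-Real.pi - NumIs.lnB (8 / 10 - s + w - 1) (20 * (t * s) + b)) x a w b s t < 0 := by
  have h : chkT [neg (G (sub pp (q 1 1)) (sub (neg pi) (E.lnB (sub pp (q 1 1)) (add hh ER.b)))), sub (q 10700 10000) pp] 40
    334996132845945080708514070194252289412007444625603661759012036383359005782856285414699261379916244876427082655289922
    [NumIs.V.of 10000 3000 5000, NumIs.V.of 10000 (-570) 570, NumIs.V.of 10000 2700 3900, NumIs.V.of 10000 (-1145) (-98), NumIs.V.of 10000 0 500, NumIs.V.of 10000 (-1140) (-150)] = true := by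
    decide +kernel
  obtain ⟨f, hf, hp⟩ := chkT_sound h (xs := [x, a, w, b, s, t])
    (List.Forall₂.cons (NumIs.V.of_mem (by norm_num) (by norm_num; linarith only [ua1]) (by norm_num; linarith only [ua2])) (List.Forall₂.cons (NumIs.V.of_mem (by norm_num) (by norm_num; linarith only [ua3]) (by norm_num; linarith only [ua4])) (List.Forall₂.cons (NumIs.V.of_mem (by norm_num) (by norm_num; linarith only [ua5]) (by norm_num; linarith only [ua6])) (List.Forall₂.cons (NumIs.V.of_mem (by norm_num) (by norm_num; linarith only [ua7]) (by norm_num; linarith only [ua8])) (List.Forall₂.cons (NumIs.V.of_mem (by norm_num) (by norm_num; linarith only [ua9]) (by norm_num; linarith only [ua10])) (List.Forall₂.cons (NumIs.V.of_mem (by norm_num) (by norm_num; linarith only [ua11]) (by norm_num; linarith only [ua12])) List.Forall₂.nil))))))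
  by_contra hc
  push Not at hc
  simp only [List.mem_cons, List.not_mem_nil, or_false] at hf
  rcases hf with rfl | rfl
  · simp only [G_val, V_val, ER.pp, ER.rr, ER.hh, ER.x, ER.a, ER.w, ER.b, ER.s, ER.t, E.val, NumIs.lkR] at hp
    push_cast at hp
    linarith only [hc, hp]
  · simp only [G_val, V_val, ER.pp, ER.rr, ER.hh, ER.x, ER.a, ER.w, ER.b, ER.s, ER.t, E.val, NumIs.lkR] at hp
    push_cast at hp
    linarith only [ua13, hp]

end S0R

end Pool.Agent.Work.MP_b30479_gtS.G2

end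

section

/-!
# Part of `S0RV4`
-/
set_option linter.unusedSimpArgs false
set_option linter.unusedVariables false

set_option deprecated.oldSectionVars true

namespace Pool.Agent.Work.MP_b30479_gtS.G2

open VOL NumUs

namespace S0R

open NumUs.E EV

theorem t1rn {x T w b r t : ℝ} (ua1 : 3600 / 10000 ≤ x) (ua2 : x ≤ 3800 / 10000) (ua3 : -(570 / 10000) ≤ T) (ua4 : T ≤ 50 / 10000) (ua5 : 700 / 10000 ≤ w) (ua6 : w ≤ 3900 / 10000) (ua7 : -(1145 / 10000) ≤ b) (ua8 : b ≤ -(98 / 10000)) (ua9 : 0 / 10000 ≤ r) (ua10 : r ≤ 500 / 10000) (ua11 : -(1140 / 10000) ≤ t) (ua12 : t ≤ -(150 / 10000)) (ua13 : -(1145 / 1500) * w ≤ b) (ua14 : 20 * (t * r) ≤ rui (100 / 27) x T) :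
    0 < rE (4400 / 10000) (1) x (rui (100 / 27) x T) w b r t := by
  have h : chkT [R 100 27 (q 4400 10000) (1), sub (mul (q (-1145) 1500) EV.w) EV.b, sub h (a 100 27)] 40
    898505776921035456274240341525932828307163773940523069213392458306
    [NumIs.V.of 10000 3600 3800, NumIs.V.of 10000 (-570) 50, NumIs.V.of 10000 700 3900, NumIs.V.of 10000 (-1145) (-98), NumIs.V.of 10000 0 500, NumIs.V.of 10000 (-1140) (-150)] = true := by
    decide +kernel
  obtain ⟨f, hf, hp⟩ := chkT_sound h (xs := [x, T, w, b, r, t])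
    (List.Forall₂.cons (NumIs.V.of_mem (by norm_num) (by norm_num; linarith only [ua1]) (by norm_num; linarith only [ua2])) (List.Forall₂.cons (NumIs.V.of_mem (by norm_num) (by norm_num; linarith only [ua3]) (by norm_num; linarith only [ua4])) (List.Forall₂.cons (NumIs.V.of_mem (by norm_num) (by norm_num; linarith only [ua5]) (by norm_num; linarith only [ua6])) (List.Forall₂.cons (NumIs.V.of_mem (by norm_num) (by norm_num; linarith only [ua7]) (by norm_num; linarith only [ua8])) (List.Forall₂.cons (NumIs.V.of_mem (by norm_num) (by norm_num; linarith only [ua9]) (by norm_num; linarith only [ua10])) (List.Forall₂.cons (NumIs.V.of_mem (by norm_num) (by norm_num; linarith only [ua11]) (by norm_num; linarith only [ua12])) List.Forall₂.nil))))))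
  by_contra hc
  push Not at hc
  simp only [List.mem_cons, List.not_mem_nil, or_false] at hf
  rcases hf with rfl | rfl | rfl
  · simp only [D_val, R_val, h_val, EE.ui_val, EV.a, EV.x, EV.T, EV.w, EV.b, EV.r, EV.t, E.val, NumIs.lkR] at hp
    push_cast at hp
    linarith only [hc, hp]
  · simp only [D_val, R_val, h_val, EE.ui_val, EV.a, EV.x, EV.T, EV.w, EV.b, EV.r, EV.t, E.val, NumIs.lkR] at hp
    push_cast at hp
    linarith only [ua13, hp]
  · simp only [D_val, R_val, h_val, EE.ui_val, EV.a, EV.x, EV.T, EV.w, EV.b, EV.r, EV.t, E.val, NumIs.lkR] at hp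
    push_cast at hp
    linarith only [ua14, hp]

theorem t1rp {x T w b r t : ℝ} (ua1 : 3600 / 10000 ≤ x) (ua2 : x ≤ 3800 / 10000) (ua3 : -(570 / 10000) ≤ T) (ua4 : T ≤ 50 / 10000) (ua5 : 700 / 10000 ≤ w) (ua6 : w ≤ 3900 / 10000) (ua7 : -(1145 / 10000) ≤ b) (ua8 : b ≤ -(98 / 10000)) (ua9 : 0 / 10000 ≤ r) (ua10 : r ≤ 500 / 10000) (ua11 : -(1140 / 10000) ≤ t) (ua12 : t ≤ -(150 / 10000)) (ua13 : -(1145 / 1500) * w ≤ b) (ua14 : t - T ≤ 280 / 10000) (ua15 : rui (100 / 27) x T ≤ 20 * (t * r)) :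
    0 < rE (4400 / 10000) (-1) x (rui (100 / 27) x T) w b r t := by
  have h : chkT [R 100 27 (q 4400 10000) (-1), sub (mul (q (-1145) 1500) EV.w) EV.b, sub (sub EV.t EV.T) (q 280 10000), sub (a 100 27) h] 40
    815085791745468235417403537968829850001981305492099650
    [NumIs.V.of 10000 3600 3800, NumIs.V.of 10000 (-570) 50, NumIs.V.of 10000 700 3900, NumIs.V.of 10000 (-1145) (-98), NumIs.V.of 10000 0 500, NumIs.V.of 10000 (-1140) (-150)] = true := by
    decide +kernel
  obtain ⟨f, hf, hp⟩ := chkT_sound h (xs := [x, T, w, b, r, t])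
    (List.Forall₂.cons (NumIs.V.of_mem (by norm_num) (by norm_num; linarith only [ua1]) (by norm_num; linarith only [ua2])) (List.Forall₂.cons (NumIs.V.of_mem (by norm_num) (by norm_num; linarith only [ua3]) (by norm_num; linarith only [ua4])) (List.Forall₂.cons (NumIs.V.of_mem (by norm_num) (by norm_num; linarith only [ua5]) (by norm_num; linarith only [ua6])) (List.Forall₂.cons (NumIs.V.of_mem (by norm_num) (by norm_num; linarith only [ua7]) (by norm_num; linarith only [ua8])) (List.Forall₂.cons (NumIs.V.of_mem (by norm_num) (by norm_num; linarith only [ua9]) (by norm_num; linarith only [ua10])) (List.Forall₂.cons (NumIs.V.of_mem (by norm_num) (by norm_num; linarith only [ua11]) (by norm_num; linarith only [ua12])) List.Forall₂.nil))))))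
  by_contra hc
  push Not at hc
  simp only [List.mem_cons, List.not_mem_nil, or_false] at hf
  rcases hf with rfl | rfl | rfl | rfl
  · simp only [D_val, R_val, h_val, EE.ui_val, EV.a, EV.x, EV.T, EV.w, EV.b, EV.r, EV.t, E.val, NumIs.lkR] at hp
    push_cast at hp
    linarith only [hc, hp]
  · simp only [D_val, R_val, h_val, EE.ui_val, EV.a, EV.x, EV.T, EV.w, EV.b, EV.r, EV.t, E.val, NumIs.lkR] at hp
    push_cast at hp
    linarith only [ua13, hp]
  · simp only [D_val, R_val, h_val, EE.ui_val, EV.a, EV.x, EV.T, EV.w, EV.b, EV.r, EV.t, E.val, NumIs.lkR] at hp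
    push_cast at hp
    linarith only [ua14, hp]
  · simp only [D_val, R_val, h_val, EE.ui_val, EV.a, EV.x, EV.T, EV.w, EV.b, EV.r, EV.t, E.val, NumIs.lkR] at hp
    push_cast at hp
    linarith only [ua15, hp]

end S0R

end Pool.Agent.Work.MP_b30479_gtS.G2

end
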