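import Pool.Agent.Work.MP_b30479_gt.TBS.G2.S0RB
import Pool.Agent.Work.MP_b30479_gt.TBS.G2.WValD
import Pool.Agent.Work.MP_b30479_gt.TBS.G2.MRBase

section

/-!
# The own side of an interior `3` at slot `0`, right ramp: expressions

Real forms of the upper bounds of the side `S3 1 m u v` with `m = - k T`, `u = x + k T (6/10 - x) i`,
and the expressions whose values they are.
-/

namespace Pool.Agent.Work.MP_b30479_gtS.G2

open VOL NumUs

namespace S0R

/-- height of the hinge -/
noncomputable def rui (k x T : ℝ) : ℝ := k * T * (6 / 10 - x)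

noncomputable def rM (k x T p t : ℝ) : ℝ :=
  -(k * T) * (NumIs.lnB x (rui k x T) - (Real.pi * (x + p) + NumIs.lnB p (t - rui k x T)))

/-- the side -/
noncomputable def rS (k x T p t : ℝ) : ℝ :=
  NumIs.lnA p (t - rui k x T) - NumIs.lnA x (rui k x T) - Real.pi * t + rM k x T p t

/-- the upper bound of the side by the first order condition -/
noncomputable def rF (k q τ x T p t : ℝ) : ℝ :=
  NumIs.lnA q (t + τ) + Real.pi * (τ - rui k x T - (t + t)) - NumIs.lnA (x + p) t -
    NumIs.lnA x (rui k x T) + rM k x T p t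

/-- the upper bound of the side near `v = u` -/
noncomputable def rN (k q κ w x T t : ℝ) : ℝ :=
  NumIs.lnA q (t - rui k x T) - NumIs.lnA x (rui k x T) - Real.pi * t +
    -(k * T) * (κ - Real.pi * w + NumIs.lnB x (rui k x T))

namespace EE
open NumUs.E

def x : E := var 0
def T : E := var 1
def p : E := var 2
def t : E := var 3
def nt : E := var 2
def v : E := add x p
def kT (a : ℤ) (b : ℕ) : E := mul (q a b) T
def ui (a : ℤ) (b : ℕ) : E := mul (kT a b) (sub (q 6 10) x)
def yy (a : ℤ) (b : ℕ) : E := sub t (ui a b)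
def nyy (a : ℤ) (b : ℕ) : E := sub nt (ui a b)
def MS (a : ℤ) (b : ℕ) : E :=
  mul (neg (kT a b)) (sub (E.lnB x (ui a b)) (add (mul pi v) (E.lnB p (yy a b))))
def S (a : ℤ) (b : ℕ) : E :=
  add (sub (sub (E.lnA p (yy a b)) (E.lnA x (ui a b))) (mul pi t)) (MS a b)
def F (a : ℤ) (b : ℕ) (p' τ : E) : E :=
  add (sub (sub (add (E.lnA p' (add t τ)) (mul pi (sub (sub τ (ui a b)) (add t t)))) (E.lnA v t))
    (E.lnA x (ui a b))) (MS a b)
def N (a : ℤ) (b : ℕ) (pm κ w : E) : E :=
  add (sub (sub (E.lnA pm (nyy a b)) (E.lnA x (ui a b))) (mul pi nt))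
    (mul (neg (kT a b)) (add (sub κ (mul pi w)) (E.lnB x (ui a b))))

def Sg (a : ℤ) (b : ℕ) (p t : E) : E :=
  add (sub (sub (E.lnA p (sub t (ui a b))) (E.lnA x (ui a b))) (mul pi t))
    (mul (neg (kT a b)) (sub (E.lnB x (ui a b)) (add (mul pi (add x p))
      (E.lnB p (sub t (ui a b))))))

theorem ui_val (a : ℤ) (b : ℕ) {x T : ℝ} {l : List ℝ} :
    (ui a b).val (x :: T :: l) = rui ((a : ℝ) / b) x T := by
  simp only [ui, kT, EE.x, EE.T, E.val, NumIs.lkR]
  push_cast
  rfl

theorem S_val (a : ℤ) (b : ℕ) {x T p t : ℝ} : (S a b).val [x, T, p, t] = rS ((a : ℝ) / b) x T p t := by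
  simp only [S, MS, yy, kT, EE.x, EE.T, EE.p, EE.t, EE.v, E.val, ui_val, NumIs.lkR]
  rfl

theorem Sg_val (a : ℤ) (b : ℕ) (p t : E) {x T : ℝ} {l : List ℝ} : (Sg a b p t).val (x :: T :: l) =
    rS ((a : ℝ) / b) x T (p.val (x :: T :: l)) (t.val (x :: T :: l)) := by
  simp only [Sg, kT, EE.x, EE.T, E.val, ui_val, NumIs.lkR]
  rfl

theorem F_val (a : ℤ) (b : ℕ) (p' τ : E) {x T p t : ℝ} : (F a b p' τ).val [x, T, p, t] =
    rF ((a : ℝ) / b) (p'.val [x, T, p, t]) (τ.val [x, T, p, t]) x T p t := by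
  simp only [F, MS, yy, kT, EE.x, EE.T, EE.p, EE.t, EE.v, E.val, ui_val, NumIs.lkR]
  rfl

theorem N_val (a : ℤ) (b : ℕ) (pm κ w : E) {x T t : ℝ} : (N a b pm κ w).val [x, T, t] =
    rN ((a : ℝ) / b) (pm.val [x, T, t]) (κ.val [x, T, t]) (w.val [x, T, t]) x T t := by
  simp only [N, nyy, nt, kT, EE.x, EE.T, E.val, ui_val, NumIs.lkR]
  rfl

def pa : E := q 1 2
def pb : E := add v (q 7 100)
def pc : E := q 80 100

end EE

/-! ### bounds of the side from the rows -/

theorem far_core {k q τ T t B : ℝ} {u v w : ℂ} (hu : u.im = k * T * (6 / 10 - u.re))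
    (h0 : 0 < v.re - u.re) (h1 : v.re - u.re < 1) (h2 : 0 < u.re) (h3 : u.re < 1)
    (hv : v.im = t) (hS : 0 ≤ SM 0 u v w)
    (hH : Real.pi * w.im + LL (v + w) ≤ Real.pi * τ + NumIs.lnA q (v.im + τ))
    (hrow : rS k u.re T (v.re - u.re) t < B ∨ rF k q τ u.re T (v.re - u.re) t < B) :
    S3 1 (-(k * T)) u v < B := by
  have e : u.re + (v.re - u.re) = v.re := by ring
  rcases hrow with h | h
  · rw [S3_eq h0 h1 h2 h3]
    unfold rS rM rui at h
    rw [hu, hv]
    rw [e] at h
    linarith only [h]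
  · have h4 := S3_far (m := -(k * T)) h0 h1 h2 h3 hS hH
    unfold rF rM rui at h
    rw [hu, hv] at h4
    rw [e] at h
    linarith only [h, h4]

theorem near_core {k q κ w' T t B : ℝ} {u v : ℂ} (hu : u.im = k * T * (6 / 10 - u.re))
    (hq : |v.re - u.re| ≤ q) (hq' : q ≤ 1 / 2) (h2 : 0 < u.re) (h3 : u.re < 1)
    (hv : v.im = t) (hr : SinNe (v - u)) (hκ : -(k * T) * YY (v - u) ≤ -(k * T) * κ)
    (hw : -(-(k * T) * (Real.pi * v.re)) ≤ -(k * T) * -(Real.pi * w'))
    (hrow : rN k q κ w' u.re T t < B) : S3 1 (-(k * T)) u v < B := by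
  have h4 := S3_near hq hq' h2 h3 hr hκ hw
  unfold rN rui at hrow
  rw [hu, hv] at h4
  linarith only [hrow, h4]

/-- `T ≤ 0` -/
theorem near_le {k q κ w' T t B : ℝ} {u v : ℂ} (hk : 0 ≤ k) (hT : T ≤ 0)
    (hu : u.im = k * T * (6 / 10 - u.re))
    (hq : |v.re - u.re| ≤ q) (hq' : q ≤ 1 / 2) (h2 : 0 < u.re) (h3 : u.re < 1)
    (hv : v.im = t) (hr : SinNe (v - u)) (hκ : YY (v - u) ≤ κ) (hw : w' ≤ v.re)
    (hrow : rN k q κ w' u.re T t < B) : S3 1 (-(k * T)) u v < B := by
  have hm : 0 ≤ -(k * T) := by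
    rw [← mul_neg]
    exact mul_nonneg hk (by linarith only [hT])
  refine near_core hu hq hq' h2 h3 hv hr (mul_le_mul_of_nonneg_left hκ hm) ?_ hrow
  rw [mul_neg, neg_le_neg_iff]
  exact mul_le_mul_of_nonneg_left (mul_le_mul_of_nonneg_left hw Real.pi_pos.le) hm

/-- `T ≥ 0` -/
theorem near_ge {k q κ w' T t B : ℝ} {u v : ℂ} (hk : 0 ≤ k) (hT : 0 ≤ T)
    (hu : u.im = k * T * (6 / 10 - u.re))
    (hq : |v.re - u.re| ≤ q) (hq' : q ≤ 1 / 2) (h2 : 0 < u.re) (h3 : u.re < 1)
    (hv : v.im = t) (hr : SinNe (v - u)) (hκ : κ ≤ YY (v - u)) (hw : v.re ≤ w')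
    (hrow : rN k q κ w' u.re T t < B) : S3 1 (-(k * T)) u v < B := by
  have hm : 0 ≤ k * T := mul_nonneg hk hT
  have a1 := mul_le_mul_of_nonneg_left hκ hm
  have a2 := mul_le_mul_of_nonneg_left (mul_le_mul_of_nonneg_left hw Real.pi_pos.le) hm
  refine near_core hu hq hq' h2 h3 hv hr ?_ ?_ hrow
  · linarith only [a1]
  · linarith only [a2]

/-! ### windows -/

/-- window of the mid height `t`, of `t - T` and of the hinge `w` in the slot `2` -/
structure KW (t0 t1 s0 w1 i0 i1 sl : ℝ) (T t : ℝ) (w : ℂ) : Prop where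
  t0 : t0 ≤ t
  t1 : t ≤ t1
  s0 : T - t ≤ s0
  w0 : 7 / 100 ≤ w.re
  w1 : w.re ≤ w1
  i0 : i0 ≤ w.im
  i1 : w.im ≤ i1
  sl : -(sl * w.re) ≤ w.im

/-- left neighbour `2`, `3`, `3e`, ring; right neighbour `1` -/
abbrev K1 := KW (-(114 / 1000)) (-(15 / 1000)) (105 / 1000) (39 / 100) (-(1145 / 10000))
  (-(98 / 10000)) (1145 / 1500)
/-- right neighbour `2`, `2e`, `3`, `3e` -/
abbrev Ko := KW (-(104 / 1000)) (5 / 1000) (100 / 1000) (39 / 100) (-(98 / 1000))
  (22 / 1000) (98 / 130)
/-- right neighbour a ring -/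
abbrev KZ := KW (-(92 / 1000)) 0 (93 / 1000) (31 / 100) (-(98 / 1000)) (57 / 1000) (98 / 130)

/-- left neighbour `2e`; right neighbour `1` -/
abbrev E1 := KW (-(123 / 1000)) (-(80 / 1000)) (48 / 1000) (39 / 100) (-(1145 / 10000))
  (-(98 / 10000)) (1145 / 1500)
/-- right neighbour `2`, `2e`, `3`, `3e` -/
abbrev Eo := KW (-(116 / 1000)) (-(64 / 1000)) (40 / 1000) (39 / 100) (-(98 / 1000))
  (22 / 1000) (98 / 130)
/-- right neighbour a ring -/
abbrev EZ := KW (-(106 / 1000)) (-(67 / 1000)) (31 / 1000) (31 / 100) (-(98 / 1000)) (57 / 1000)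
  (98 / 130)

/-- bound of the part with `w` -/
theorem H_all {t0 t1 s0 w1 i0 i1 sl T t τ : ℝ} {v w : ℂ} (hK : KW t0 t1 s0 w1 i0 i1 sl T t w)
    (hv : v.im = t) (hv' : v.re ≤ 75 / 100) (hr : SinNe (v + w)) (h1 : w1 ≤ 39 / 100)
    (hi : i1 ≤ τ) (hc : -(3704 / 10000) ≤ 2 * t0 + i0 + τ) :
    Real.pi * w.im + LL (v + w) ≤ Real.pi * τ + NumIs.lnA (1 / 2) (v.im + τ) ∧
    (43 / 100 ≤ v.re → v.re ≤ 73 / 100 →
      Real.pi * w.im + LL (v + w) ≤ Real.pi * τ + NumIs.lnA (v.re + 7 / 100) (v.im + τ)) ∧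
    (73 / 100 ≤ v.re →
      Real.pi * w.im + LL (v + w) ≤ Real.pi * τ + NumIs.lnA (80 / 100) (v.im + τ)) := by
  obtain ⟨a1, a2, a3, a4, a5, a6, a7, a8⟩ := hK
  have hc' : -(3704 / 10000) ≤ 2 * v.im + w.im + τ := by rw [hv]; linarith only [hc, a1, a6]
  refine ⟨H_half (by linarith only [hi, a7]) hc' hr, fun h5 h6 => ?_, fun h5 => ?_⟩
  · exact H_le (by linarith only [h5]) (by linarith only [h6]) (by linarith only [a4]) (by linarith only [h1, a5, h6]) (by linarith only [hi, a7]) hc' hr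
  · exact H_le (by norm_num) (by norm_num) (by linarith only [a4, h5]) (by linarith only [hv', h1, a5]) (by linarith only [hi, a7]) hc' hr

end S0R

end Pool.Agent.Work.MP_b30479_gtS.G2

end

section

/-!
# The own side of an interior `3` at slot `0`, right ramp: the inner variable on its ramps and value
moves of the inner variable

Real forms and expressions.
-/

set_option linter.unusedSimpArgs false

namespace Pool.Agent.Work.MP_b30479_gtS.G2

open VOL NumUs

namespace S0R

/-! ### the right ramp of the inner variable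

`u = x + a i`, `w = w + b i`, `v = 8/10 - s + 20 t s i` -/

noncomputable def rSA (x a s t : ℝ) : ℝ :=
  -(Real.pi * (a + 20 * (t * s))) - NumIs.lnA (8 / 10 - s - x) (20 * (t * s) - a) -
    NumIs.lnA (8 / 10 - s) (20 * (t * s))

noncomputable def rSB (x a s t : ℝ) : ℝ :=
  NumIs.lnB (8 / 10 - s - x) (20 * (t * s) - a) + NumIs.lnB (8 / 10 - s) (20 * (t * s)) +
    Real.pi * (1 / 2 - (x + (8 / 10 - s)))

/-- upper bound of `SM (-20 t)`; `q` the point of `LL (v + w)`, `Y` the bound of `YY (v + w)` -/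
noncomputable def rG (q Y x a w b s t : ℝ) : ℝ :=
  rSA x a s t + Real.pi * b + NumIs.lnA q (20 * (t * s) + b) +
    -20 * t * (rSB x a s t + (Real.pi * w + Y))

/-- value of the region up to a constant, `v = p + h i`; `P` the value of `UU (v + w)` -/
noncomputable def rV (P x a w b p h : ℝ) : ℝ :=
  P - uu (p - x) (h - a) - uu p h - Real.pi / 2 *
    (2 * (x * h + a * p) + 2 * ((p - w) * (h - b)) - h + b)

theorem V3_rV (u v w : ℂ) : V3 u v w =
    rV (uu (v.re + w.re) (v.im + w.im)) u.re u.im w.re w.im v.re v.im - UU u - 2 * UU w := by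
  have e1 : (2 * u * v + (v - w) ^ 2 - v + w).im =
      2 * (u.re * v.im + u.im * v.re) + 2 * ((v.re - w.re) * (v.im - w.im)) - v.im + w.im := by
    simp only [pow_two, Complex.add_im, Complex.sub_im, Complex.sub_re, Complex.mul_im,
      Complex.mul_re, Complex.re_ofNat, Complex.im_ofNat]
    ring
  unfold V3 rV
  rw [e1, UU_uu (v + w), UU_uu (v - u), UU_uu v]
  simp only [Complex.add_re, Complex.add_im, Complex.sub_re, Complex.sub_im]
  ring

namespace ER
open NumUs.E

def x : E := var 0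
def a : E := var 1
def w : E := var 2
def b : E := var 3
def s : E := var 4
def t : E := var 5
def rr : E := sub (q 8 10) s
def hh : E := mul (q 20 1) (mul t s)
def mm : E := mul (q (-20) 1) t
def pp : E := add rr w
def SA : E :=
  sub (sub (neg (mul pi (add a hh))) (E.lnA (sub rr x) (sub hh a))) (E.lnA rr hh)
def SB : E :=
  add (add (E.lnB (sub rr x) (sub hh a)) (E.lnB rr hh)) (mul pi (sub (q 1 2) (add x rr)))
def G (q' Y : E) : E :=
  add (add (add SA (mul pi b)) (E.lnA q' (add hh b))) (mul mm (add SB (add (mul pi w) Y)))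

/-- value, `v = p + h i` -/
def V (P x a w b p h : E) : E :=
  sub (sub (sub P (E.uu (sub p x) (sub h a))) (E.uu p h)) (mul (mul pi (q 1 2))
    (add (sub (add (mul (q 2 1) (add (mul x h) (mul a p))) (mul (q 2 1) (mul (sub p w) (sub h b))))
      h) b))

theorem V_val (P x a w b p h : E) (l : List ℝ) : (V P x a w b p h).val l =
    rV (P.val l) (x.val l) (a.val l) (w.val l) (b.val l) (p.val l) (h.val l) := by
  unfold rV
  simp only [V, E.val]
  push_cast
  ring

theorem G_val (q' Y : E) {x a w b s t : ℝ} : (G q' Y).val [x, a, w, b, s, t] =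
    rG (q'.val [x, a, w, b, s, t]) (Y.val [x, a, w, b, s, t]) x a w b s t := by
  unfold rG rSA rSB
  simp only [G, SA, SB, mm, rr, hh, ER.x, ER.a, ER.w, ER.b, ER.s, ER.t, E.val, NumIs.lkR]
  push_cast
  simp only [div_one]

end ER

/-- the first order condition on the right ramp of the inner variable -/
theorem ramp_core {q Y s t : ℝ} {u v w : ℂ} (hv : v.re = 8 / 10 - s) (hv' : v.im = 20 * (t * s))
    (h0 : 0 < v.re - u.re) (h1 : v.re - u.re < 1) (h2 : 0 < v.re) (h3 : v.re < 1)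
    (hL : LL (v + w) ≤ NumIs.lnA q (v.im + w.im)) (hY : -20 * t * YY (v + w) ≤ -20 * t * Y)
    (hrow : rG q Y u.re u.im w.re w.im s t < 0) : SM (-20 * t) u v w < 0 := by
  have h : v - u ∈ strip := ⟨by rw [Complex.sub_re]; exact h0, by rw [Complex.sub_re]; exact h1⟩
  have h' : v ∈ strip := ⟨h2, h3⟩
  unfold SM
  rw [Num.LL_lnA h, Num.YY_lnB h, Num.LL_lnA h', Num.YY_lnB h', Complex.sub_re, Complex.sub_im]
  unfold rG rSA rSB at hrow
  rw [hv, hv'] at *
  nlinarith

/-- `LL (v + w)` at most the value at a smaller real part -/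
theorem LL_far {z : ℂ} {p : ℝ} (hp : 1 / 2 ≤ p) (hp' : p ≤ 1) (h0 : p ≤ z.re) (h1 : z.re ≤ 2 - p)
    (hr : SinNe z) : LL z ≤ NumIs.lnA p z.im := by
  have e1 : LL ⟨p, z.im⟩ = NumIs.lnA p z.im := LL_lnA' _
  rw [← e1, LL_eq', LL_eq']
  have a1 : 0 < 2 * Real.cosh (2 * Real.pi * z.im) - 2 * Real.cos (2 * Real.pi * z.re) := by
    have h2 : 0 < NumIs.MM z.re z.im := by
      have h0 : 0 ≤ NumIs.MM z.re z.im := by
        unfold NumIs.MM
        positivity
      rcases h0.lt_or_eq with h1 | h1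
      · exact h1
      · exfalso
        unfold NumIs.MM at h1
        have h2 : Real.sin (Real.pi * z.re) = 0 := by
          nlinarith [sq_nonneg (Real.sin (Real.pi * z.re)),
            sq_nonneg (Real.sinh (Real.pi * z.im))]
        have h3 : Real.sinh (Real.pi * z.im) = 0 := by
          nlinarith [sq_nonneg (Real.sin (Real.pi * z.re)),
            sq_nonneg (Real.sinh (Real.pi * z.im))]
        apply hr
        rw [Complex.sin_eq]
        have e1 : ((Real.pi : ℂ) * z).re = Real.pi * z.re := by simp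
        have e2 : ((Real.pi : ℂ) * z).im = Real.pi * z.im := by simp
        rw [e1, e2, ← Complex.ofReal_sin, ← Complex.ofReal_sinh, h2, h3]
        simp
    have h3 := Num.den_eq z
    linarith
  have hcos := cos_le hp hp' h0 h1
  apply div_le_div_of_nonneg_right _ (by norm_num)
  apply Real.log_le_log a1
  simp only
  linarith

end S0R

end Pool.Agent.Work.MP_b30479_gtS.G2

end

section

/-!
# `ring | 3` at slot `0`, the exceptional case: joint move of the hinge and the inner variable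

`u = x + a i`, `w = w + b i`, `v = r + t i` (flat) or `v = r + 20 t r i` (left ramp, `r ≤ 1/20`);
`u` is moved to `28/100 + T i` and `v` to `c + t i`.
-/

set_option linter.unusedSimpArgs false

namespace Pool.Agent.Work.MP_b30479_gtS.G2

open VOL NumUs

namespace S0R

/-- the joint move from the flat part -/
noncomputable def rJ (c x a T w b r t : ℝ) : ℝ :=
  uu (c + w) (t + b) - uu (r + w) (t + b) + (uu (1 + r - x) (t - a) + Real.pi * (t - a)) -
    uu (c - 28 / 100) (t - T) - (uu c t - uu r t) - (uu (28 / 100) T - uu x a) +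
    -(Real.pi * (t * (28 / 100 - x) + (T * c - a * r) + (c - r) * (t - b)))

/-- the joint move from the left ramp, `P` the bound of `uu (r + w)`, `V` of `uu r` -/
noncomputable def rK (P V c x a T w b r t : ℝ) : ℝ :=
  uu (c + w) (t + b) - P + (uu (1 + r - x) (20 * (t * r) - a) + Real.pi * (20 * (t * r) - a)) -
    uu (c - 28 / 100) (t - T) - (uu c t - V) - (uu (28 / 100) T - uu x a) +
    -(Real.pi * (1 / 2) * (2 * (28 / 100 * t + T * c) + 2 * ((c - w) * (t - b)) - t -
      (2 * (x * (20 * (t * r)) + a * r) + 2 * ((r - w) * (20 * (t * r) - b)) - 20 * (t * r))))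

/-- the bound of the side by the first order condition, `w = 0` -/
noncomputable def rF0 (k x T p t : ℝ) : ℝ :=
  Real.pi * -(rui k x T + (t + t)) - NumIs.lnA x (rui k x T) + rM k x T p t

namespace EJ
open NumUs.E

def x : E := var 0
def a : E := var 1
def T : E := var 2
def w : E := var 3
def b : E := var 4
def r : E := var 5
def t : E := var 6
def h : E := mul (q 20 1) (mul t r)
def c28 : E := q 28 100
def J (c : E) : E :=
  add (sub (sub (sub (add (sub (E.uu (add c w) (add t b)) (E.uu (add r w) (add t b)))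
    (add (E.uu (sub (add (q 1 1) r) x) (sub t a)) (mul pi (sub t a))))
    (E.uu (sub c c28) (sub t T))) (sub (E.uu c t) (E.uu r t)))
    (sub (E.uu c28 T) (E.uu x a)))
    (neg (mul pi (add (add (mul t (sub c28 x)) (sub (mul T c) (mul a r)))
      (mul (sub c r) (sub t b)))))
def K (P V c : E) : E :=
  add (sub (sub (sub (add (sub (E.uu (add c w) (add t b)) P)
    (add (E.uu (sub (add (q 1 1) r) x) (sub h a)) (mul pi (sub h a))))
    (E.uu (sub c c28) (sub t T))) (sub (E.uu c t) V))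
    (sub (E.uu c28 T) (E.uu x a)))
    (neg (mul (mul pi (q 1 2)) (sub
      (sub (add (mul (q 2 1) (add (mul c28 t) (mul T c))) (mul (q 2 1) (mul (sub c w) (sub t b)))) t)
      (sub (add (mul (q 2 1) (add (mul x h) (mul a r)))
        (mul (q 2 1) (mul (sub r w) (sub h b)))) h))))

theorem J_val (c : E) {x a T w b r t : ℝ} :
    (J c).val [x, a, T, w, b, r, t] = rJ (c.val [x, a, T, w, b, r, t]) x a T w b r t := by
  unfold rJ
  simp only [J, EJ.x, EJ.a, EJ.T, EJ.w, EJ.b, EJ.r, EJ.t, EJ.c28, E.val, NumIs.lkR]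
  push_cast
  simp only [div_one]

theorem K_val (P V c : E) {x a T w b r t : ℝ} :
    (K P V c).val [x, a, T, w, b, r, t] =
      rK (P.val [x, a, T, w, b, r, t]) (V.val [x, a, T, w, b, r, t])
        (c.val [x, a, T, w, b, r, t]) x a T w b r t := by
  unfold rK
  simp only [K, EJ.x, EJ.a, EJ.T, EJ.w, EJ.b, EJ.r, EJ.t, EJ.h, EJ.c28, E.val, NumIs.lkR]
  push_cast
  simp only [div_one]

theorem h_val {x a T w b r t : ℝ} : h.val [x, a, T, w, b, r, t] = 20 * (t * r) := by
  simp only [h, EJ.r, EJ.t, E.val, NumIs.lkR]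
  push_cast
  simp only [div_one]

end EJ

namespace EE
open NumUs.E

def F0 (a : ℤ) (b : ℕ) : E :=
  add (sub (mul pi (neg (add (ui a b) (add t t)))) (E.lnA x (ui a b))) (MS a b)

theorem F0_val (a : ℤ) (b : ℕ) {x T p t : ℝ} : (F0 a b).val [x, T, p, t] =
    rF0 ((a : ℝ) / b) x T p t := by
  simp only [F0, MS, yy, kT, EE.x, EE.T, EE.p, EE.t, EE.v, E.val, ui_val, NumIs.lkR]
  rfl

end EE

/-- the joint move from the flat part -/
theorem J_core {c r t T : ℝ} {u u' v v' w : ℂ} (hu : u'.re = 28 / 100) (hu' : u'.im = T)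
    (hv : v.re = r) (hv' : v.im = t) (hc : v'.re = c) (hc' : v'.im = t) (hσ : t ≤ u.im) :
    V3 u' v' w - V3 u v w = rJ c u.re u.im T w.re w.im r t := by
  have e := uu_add_one (r - u.re) (t - u.im)
  rw [abs_of_nonpos (by linarith : t - u.im ≤ 0)] at e
  rw [V3_rV, V3_rV, hv, hv', hc, hc', hu, hu', UU_uu u, UU_uu u', hu, hu']
  unfold rV rJ
  rw [show 1 + r - u.re = r - u.re + 1 by ring]
  linarith

/-- the joint move from the left ramp -/
theorem K_core {c r t T P V : ℝ} {u u' v v' w : ℂ} (hu : u'.re = 28 / 100) (hu' : u'.im = T)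
    (hv : v.re = r) (hv' : v.im = 20 * (t * r)) (hc : v'.re = c) (hc' : v'.im = t)
    (ha : 20 * (t * r) - u.im ≤ 7 / 10000)
    (hP : uu (r + w.re) (20 * (t * r) + w.im) ≤ P) (hV : V ≤ uu r (20 * (t * r))) :
    rK P V c u.re u.im T w.re w.im r t - 45 / 10000 ≤ V3 u' v' w - V3 u v w := by
  have hpi := Real.pi_lt_d2
  have hpi0 := Real.pi_pos
  have e := uu_add_one (r - u.re) (20 * (t * r) - u.im)
  have h5 : -Real.pi * |20 * (t * r) - u.im| ≥ Real.pi * (20 * (t * r) - u.im) - 45 / 10000 := by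
    rcases le_total (20 * (t * r) - u.im) 0 with h | h
    · rw [abs_of_nonpos h]
      linarith
    · rw [abs_of_nonneg h]
      nlinarith
  rw [V3_rV, V3_rV, hv, hv', hc, hc', hu, hu', UU_uu u, UU_uu u', hu, hu']
  unfold rV rK
  rw [show 1 + r - u.re = r - u.re + 1 by ring]
  linarith

end S0R

end Pool.Agent.Work.MP_b30479_gtS.G2

end

section

/-!
# The own side of an interior `3` at slot `0`, right ramp: value moves of a low inner variable

Real forms and expressions. `u = x + a i`, `w = w + b i`, `v = r + t i` (flat) or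
`v = r + 20 t r i` (left ramp, `r ≤ 1/20`); `v` is moved to `c + t i`.
-/

set_option linter.unusedSimpArgs false

namespace Pool.Agent.Work.MP_b30479_gtS.G2

open VOL NumUs

namespace S0R

noncomputable def rD (c σ x a w b r t : ℝ) : ℝ :=
  uu (c + w) (t + b) - uu (r + w) (t + b) + (uu (1 + r - x) (t - a) + σ * Real.pi * (t - a)) -
    uu (c - x) (t - a) - (uu c t - uu r t) + -(Real.pi * (c - r) * (t + a - b))

noncomputable def rE (c σ x a w b r t : ℝ) : ℝ :=
  uu (c + w) (t + b) - uu (r + w) (20 * (t * r) + b) +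
    (uu (1 + r - x) (20 * (t * r) - a) + σ * Real.pi * (20 * (t * r) - a)) -
    uu (c - x) (t - a) - (uu c t - uu (1 / 20) (20 * (t * r))) +
    -(Real.pi * (1 / 2) * (2 * (x * t + a * c) + 2 * ((c - w) * (t - b)) - t + b -
      (2 * (x * (20 * (t * r)) + a * r) + 2 * ((r - w) * (20 * (t * r) - b)) -
        20 * (t * r) + b)))

namespace EV
open NumUs.E

def x : E := var 0
def T : E := var 1
def w : E := var 2
def b : E := var 3
def r : E := var 4
def t : E := var 5
def a (k : ℤ) (l : ℕ) : E := EE.ui k l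
def D (k : ℤ) (l : ℕ) (c : E) (σ : ℤ) : E :=
  add (sub (sub (add (sub (E.uu (add c w) (add t b)) (E.uu (add r w) (add t b)))
    (add (E.uu (sub (add (q 1 1) r) x) (sub t (a k l))) (mul (mul (q σ 1) pi) (sub t (a k l)))))
    (E.uu (sub c x) (sub t (a k l)))) (sub (E.uu c t) (E.uu r t)))
    (neg (mul (mul pi (sub c r)) (sub (add t (a k l)) b)))
def h : E := mul (q 20 1) (mul t r)
def R (k : ℤ) (l : ℕ) (c : E) (σ : ℤ) : E :=
  add (sub (sub (add (sub (E.uu (add c w) (add t b)) (E.uu (add r w) (add h b)))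
    (add (E.uu (sub (add (q 1 1) r) x) (sub h (a k l))) (mul (mul (q σ 1) pi) (sub h (a k l)))))
    (E.uu (sub c x) (sub t (a k l)))) (sub (E.uu c t) (E.uu (q 1 20) h)))
    (neg (mul (mul pi (q 1 2)) (sub
      (add (sub (add (mul (q 2 1) (add (mul x t) (mul (a k l) c)))
        (mul (q 2 1) (mul (sub c w) (sub t b)))) t) b)
      (add (sub (add (mul (q 2 1) (add (mul x h) (mul (a k l) r)))
        (mul (q 2 1) (mul (sub r w) (sub h b)))) h) b))))

theorem D_val (k : ℤ) (l : ℕ) (c : E) (σ : ℤ) {x T w b r t : ℝ} :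
    (D k l c σ).val [x, T, w, b, r, t] = rD (c.val [x, T, w, b, r, t]) σ x
      (rui ((k : ℝ) / l) x T) w b r t := by
  unfold rD
  simp only [D, EV.x, EV.a, EV.w, EV.b, EV.r, EV.t, EE.ui_val, E.val, NumIs.lkR]
  push_cast
  simp only [div_one]

theorem R_val (k : ℤ) (l : ℕ) (c : E) (σ : ℤ) {x T w b r t : ℝ} :
    (R k l c σ).val [x, T, w, b, r, t] = rE (c.val [x, T, w, b, r, t]) σ x
      (rui ((k : ℝ) / l) x T) w b r t := by
  unfold rE
  simp only [R, EV.x, EV.a, EV.w, EV.b, EV.r, EV.t, EV.h, EE.ui_val, E.val, NumIs.lkR]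
  push_cast
  simp only [div_one]

theorem h_val {x T w b r t : ℝ} : h.val [x, T, w, b, r, t] = 20 * (t * r) := by
  simp only [h, EV.r, EV.t, E.val, NumIs.lkR]
  push_cast
  simp only [div_one]

end EV

/-- the move from the flat part -/
theorem D_core {c σ r t : ℝ} {u v v' w : ℂ} (hv : v.re = r) (hv' : v.im = t) (hc : v'.re = c)
    (hc' : v'.im = t) (hσ : |t - u.im| = -(σ * (t - u.im))) :
    V3 u v' w - V3 u v w = rD c σ u.re u.im w.re w.im r t := by
  have e := uu_add_one (r - u.re) (t - u.im)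
  rw [hσ] at e
  rw [V3_rV, V3_rV, hv, hv', hc, hc']
  unfold rV rD
  rw [show 1 + r - u.re = r - u.re + 1 by ring]
  linarith only [e]

/-- the move from the left ramp -/
theorem R_core {c σ r t : ℝ} {u v v' w : ℂ} (hr : 0 ≤ r) (hr' : r ≤ 5 / 100) (hv : v.re = r)
    (hv' : v.im = 20 * (t * r)) (hc : v'.re = c) (hc' : v'.im = t)
    (hσ : |20 * (t * r) - u.im| = -(σ * (20 * (t * r) - u.im))) (ht : |t| ≤ 13 / 100) :
    rE c σ u.re u.im w.re w.im r t ≤ V3 u v' w - V3 u v w := by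
  have e := uu_add_one (r - u.re) (20 * (t * r) - u.im)
  rw [hσ] at e
  have h1 : |20 * (t * r)| ≤ 13 / 100 := by
    rw [show 20 * (t * r) = (20 * r) * t by ring, abs_mul, abs_of_nonneg (by linarith only [hr])]
    nlinarith only [hr', hr, ht, abs_nonneg t]
  have h2 := UA.anti UA.kc_7_13 (by norm_num) (a := r) (b := 1 / 20) (y := 20 * (t * r))
    (by linarith only [hr]) (by linarith only [hr']) (by norm_num) h1
  rw [V3_rV, V3_rV, hv, hv', hc, hc']
  unfold rV rE
  rw [show 1 + r - u.re = r - u.re + 1 by ring]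
  linarith only [e, h2]

end S0R

end Pool.Agent.Work.MP_b30479_gtS.G2

end
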