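import Pool.Agent.Work.MP_b30479_gt.TBS.G2.S0RC
import Pool.Agent.Work.MP_b30479_gt.TBS.NumU.Tree

section

/-!
# The own side of an interior `3` at slot `0`, right ramp: rows on `[.30, .40]`, left neighbours `3`, `3e`, ring
-/

set_option linter.unusedSimpArgs false
set_option linter.unusedVariables false

set_option deprecated.oldSectionVars true

namespace Pool.Agent.Work.MP_b30479_gtS.G2

open VOL NumUs

namespace S0R

open NumUs.E EE

theorem far3a_Zc {x T p t : ℝ} (ua1 : 3000 / 10000 ≤ x) (ua2 : x ≤ 4000 / 10000) (ua3 : -(280 / 10000) ≤ T) (ua4 : T ≤ 570 / 10000) (ua5 : 3300 / 10000 ≤ p) (ua6 : p ≤ 4500 / 10000) (ua7 : -(920 / 10000) ≤ t) (ua8 : t ≤ 0 / 10000) (ua9 : T - t ≤ 930 / 10000) (ua10 : 7300 / 10000 ≤ x + p) (ua11 : x + p ≤ 7500 / 10000) :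
    rS (10 / 3) x T p t < 66 / 100 - 3 / 2 * x ∨ rF (10 / 3) (80 / 100) (570 / 10000) x T p t < 66 / 100 - 3 / 2 * x := by
  have h : chkT [sub (sub (q 66 100) (mul (q 3 2) EE.x)) (S 10 3), sub (sub (q 66 100) (mul (q 3 2) EE.x)) (F 10 3 pc (q 570 10000)), sub (sub EE.T EE.t) (q 930 10000), sub (q 7300 10000) EE.v, sub EE.v (q 7500 10000)] 30
    4626846833284497960497275941958436324428539565627672439092812268189403584397909417502978762388697599943767923607660803508353043219407022671618314636626419180793038012249358672305096868671739657554971480054918373196739875074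
    [NumIs.V.of 10000 3000 4000, NumIs.V.of 10000 (-280) 570, NumIs.V.of 10000 3300 4500, NumIs.V.of 10000 (-920) 0] = true := by
    decide +kernel
  obtain ⟨f, hf, hp⟩ := chkT4 h (by norm_num) (x := x) (y := T) (z := p) (w := t)
    (by norm_num; linarith only [ua1]) (by norm_num; linarith only [ua2]) (by norm_num; linarith only [ua3]) (by norm_num; linarith only [ua4]) (by norm_num; linarith only [ua5]) (by norm_num; linarith only [ua6]) (by norm_num; linarith only [ua7]) (by norm_num; linarith only [ua8])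
  by_contra hc
  push Not at hc
  obtain ⟨hc0, hc1⟩ := hc
  simp only [List.mem_cons, List.not_mem_nil, or_false] at hf
  rcases hf with rfl | rfl | rfl | rfl | rfl
  · simp only [S_val, F_val, N_val, ui_val, EE.pa, EE.pb, EE.pc, EE.kT, nyy, EE.x, EE.T, EE.p, EE.t, EE.nt, EE.v, E.val, NumIs.lkR] at hp
    push_cast at hp
    linarith only [hc0, hp]
  · simp only [S_val, F_val, N_val, ui_val, EE.pa, EE.pb, EE.pc, EE.kT, nyy, EE.x, EE.T, EE.p, EE.t, EE.nt, EE.v, E.val, NumIs.lkR] at hp
    push_cast at hp
    linarith only [hc1, hp]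
  · simp only [S_val, F_val, N_val, ui_val, EE.pa, EE.pb, EE.pc, EE.kT, nyy, EE.x, EE.T, EE.p, EE.t, EE.nt, EE.v, E.val, NumIs.lkR] at hp
    push_cast at hp
    linarith only [ua9, hp]
  · simp only [S_val, F_val, N_val, ui_val, EE.pa, EE.pb, EE.pc, EE.kT, nyy, EE.x, EE.T, EE.p, EE.t, EE.nt, EE.v, E.val, NumIs.lkR] at hp
    push_cast at hp
    linarith only [ua10, hp]
  · simp only [S_val, F_val, N_val, ui_val, EE.pa, EE.pb, EE.pc, EE.kT, nyy, EE.x, EE.T, EE.p, EE.t, EE.nt, EE.v, E.val, NumIs.lkR] at hp
    push_cast at hp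
    linarith only [ua11, hp]

end S0R

end Pool.Agent.Work.MP_b30479_gtS.G2

end

section

/-!
# Part of `S0RE`
-/
set_option linter.unusedSimpArgs false
set_option linter.unusedVariables false

set_option deprecated.oldSectionVars true

namespace Pool.Agent.Work.MP_b30479_gtS.G2

open VOL NumUs

namespace S0R

open NumUs.E EE

theorem far3a_1c {x T p t : ℝ} (ua1 : 3000 / 10000 ≤ x) (ua2 : x ≤ 4000 / 10000) (ua3 : -(280 / 10000) ≤ T) (ua4 : T ≤ 570 / 10000) (ua5 : 3300 / 10000 ≤ p) (ua6 : p ≤ 4500 / 10000) (ua7 : -(1140 / 10000) ≤ t) (ua8 : t ≤ -(150 / 10000)) (ua9 : T - t ≤ 1050 / 10000) (ua10 : 7300 / 10000 ≤ x + p) (ua11 : x + p ≤ 7500 / 10000) :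
    rS (10 / 3) x T p t < 66 / 100 - 3 / 2 * x ∨ rF (10 / 3) (80 / 100) (-98 / 10000) x T p t < 66 / 100 - 3 / 2 * x := by
  have h : chkT [sub (sub (q 66 100) (mul (q 3 2) EE.x)) (S 10 3), sub (sub (q 66 100) (mul (q 3 2) EE.x)) (F 10 3 pc (q (-98) 10000)), sub (sub EE.T EE.t) (q 1050 10000), sub (q 7300 10000) EE.v, sub EE.v (q 7500 10000)] 30
    4207866940244146800140365628275241995179012224418844005220801254184953908391583566131912477040261906185785543840134667229733727292013293167658739750012400047656510475954363722950563780722136885365111218454990898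
    [NumIs.V.of 10000 3000 4000, NumIs.V.of 10000 (-280) 570, NumIs.V.of 10000 3300 4500, NumIs.V.of 10000 (-1140) (-150)] = true := by
    decide +kernel
  obtain ⟨f, hf, hp⟩ := chkT4 h (by norm_num) (x := x) (y := T) (z := p) (w := t)
    (by norm_num; linarith only [ua1]) (by norm_num; linarith only [ua2]) (by norm_num; linarith only [ua3]) (by norm_num; linarith only [ua4]) (by norm_num; linarith only [ua5]) (by norm_num; linarith only [ua6]) (by norm_num; linarith only [ua7]) (by norm_num; linarith only [ua8])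
  by_contra hc
  push Not at hc
  obtain ⟨hc0, hc1⟩ := hc
  simp only [List.mem_cons, List.not_mem_nil, or_false] at hf
  rcases hf with rfl | rfl | rfl | rfl | rfl
  · simp only [S_val, F_val, N_val, ui_val, EE.pa, EE.pb, EE.pc, EE.kT, nyy, EE.x, EE.T, EE.p, EE.t, EE.nt, EE.v, E.val, NumIs.lkR] at hp
    push_cast at hp
    linarith only [hc0, hp]
  · simp only [S_val, F_val, N_val, ui_val, EE.pa, EE.pb, EE.pc, EE.kT, nyy, EE.x, EE.T, EE.p, EE.t, EE.nt, EE.v, E.val, NumIs.lkR] at hp
    push_cast at hp
    linarith only [hc1, hp]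
  · simp only [S_val, F_val, N_val, ui_val, EE.pa, EE.pb, EE.pc, EE.kT, nyy, EE.x, EE.T, EE.p, EE.t, EE.nt, EE.v, E.val, NumIs.lkR] at hp
    push_cast at hp
    linarith only [ua9, hp]
  · simp only [S_val, F_val, N_val, ui_val, EE.pa, EE.pb, EE.pc, EE.kT, nyy, EE.x, EE.T, EE.p, EE.t, EE.nt, EE.v, E.val, NumIs.lkR] at hp
    push_cast at hp
    linarith only [ua10, hp]
  · simp only [S_val, F_val, N_val, ui_val, EE.pa, EE.pb, EE.pc, EE.kT, nyy, EE.x, EE.T, EE.p, EE.t, EE.nt, EE.v, E.val, NumIs.lkR] at hp
    push_cast at hp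
    linarith only [ua11, hp]

theorem far3a_oa {x T p t : ℝ} (ua1 : 3000 / 10000 ≤ x) (ua2 : x ≤ 4000 / 10000) (ua3 : -(280 / 10000) ≤ T) (ua4 : T ≤ 570 / 10000) (ua5 : 1000 / 10000 ≤ p) (ua6 : p ≤ 1300 / 10000) (ua7 : -(1040 / 10000) ≤ t) (ua8 : t ≤ 50 / 10000) (ua9 : T - t ≤ 1000 / 10000) (ua10 : x + p ≤ 4300 / 10000) :
    rS (10 / 3) x T p t < 66 / 100 - 3 / 2 * x ∨ rF (10 / 3) (1 / 2) (220 / 10000) x T p t < 66 / 100 - 3 / 2 * x := by
  have h : chkT [sub (sub (q 66 100) (mul (q 3 2) EE.x)) (S 10 3), sub (sub (q 66 100) (mul (q 3 2) EE.x)) (F 10 3 pa (q 220 10000)), sub (sub EE.T EE.t) (q 1000 10000), sub EE.v (q 4300 10000)] 30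
    176448961405895869203
    [NumIs.V.of 10000 3000 4000, NumIs.V.of 10000 (-280) 570, NumIs.V.of 10000 1000 1300, NumIs.V.of 10000 (-1040) 50] = true := by
    decide +kernel
  obtain ⟨f, hf, hp⟩ := chkT4 h (by norm_num) (x := x) (y := T) (z := p) (w := t)
    (by norm_num; linarith only [ua1]) (by norm_num; linarith only [ua2]) (by norm_num; linarith only [ua3]) (by norm_num; linarith only [ua4]) (by norm_num; linarith only [ua5]) (by norm_num; linarith only [ua6]) (by norm_num; linarith only [ua7]) (by norm_num; linarith only [ua8])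
  by_contra hc
  push Not at hc
  obtain ⟨hc0, hc1⟩ := hc
  simp only [List.mem_cons, List.not_mem_nil, or_false] at hf
  rcases hf with rfl | rfl | rfl | rfl
  · simp only [S_val, F_val, N_val, ui_val, EE.pa, EE.pb, EE.pc, EE.kT, nyy, EE.x, EE.T, EE.p, EE.t, EE.nt, EE.v, E.val, NumIs.lkR] at hp
    push_cast at hp
    linarith only [hc0, hp]
  · simp only [S_val, F_val, N_val, ui_val, EE.pa, EE.pb, EE.pc, EE.kT, nyy, EE.x, EE.T, EE.p, EE.t, EE.nt, EE.v, E.val, NumIs.lkR] at hp
    push_cast at hp
    linarith only [hc1, hp]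
  · simp only [S_val, F_val, N_val, ui_val, EE.pa, EE.pb, EE.pc, EE.kT, nyy, EE.x, EE.T, EE.p, EE.t, EE.nt, EE.v, E.val, NumIs.lkR] at hp
    push_cast at hp
    linarith only [ua9, hp]
  · simp only [S_val, F_val, N_val, ui_val, EE.pa, EE.pb, EE.pc, EE.kT, nyy, EE.x, EE.T, EE.p, EE.t, EE.nt, EE.v, E.val, NumIs.lkR] at hp
    push_cast at hp
    linarith only [ua10, hp]

end S0R

end Pool.Agent.Work.MP_b30479_gtS.G2

end

section

/-!
# The own side of an interior `3` at slot `0`, right ramp: rows on `[.40, .50]`, left neighbours `3`, `3e`, ring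
-/

set_option linter.unusedSimpArgs false
set_option linter.unusedVariables false

set_option deprecated.oldSectionVars true

namespace Pool.Agent.Work.MP_b30479_gtS.G2

open VOL NumUs

namespace S0R

open NumUs.E EE

theorem far3z_Zb {x T p t : ℝ} (ua1 : 4000 / 10000 ≤ x) (ua2 : x ≤ 5000 / 10000) (ua3 : -(220 / 10000) ≤ T) (ua4 : T ≤ 570 / 10000) (ua5 : 1000 / 10000 ≤ p) (ua6 : p ≤ 3300 / 10000) (ua7 : -(920 / 10000) ≤ t) (ua8 : t ≤ 0 / 10000) (ua9 : T - t ≤ 930 / 10000) (ua10 : 4300 / 10000 ≤ x + p) (ua11 : x + p ≤ 7300 / 10000) :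
    rS (10 / 3) x T p t < 0 ∨ rF (10 / 3) (x + p + 7 / 100) (570 / 10000) x T p t < 0 := by
  have h : chkT [sub (q 0 1) (S 10 3), sub (q 0 1) (F 10 3 pb (q 570 10000)), sub (sub EE.T EE.t) (q 930 10000), sub (q 4300 10000) EE.v, sub EE.v (q 7300 10000)] 30
    1670958618817820238659045881671645400195953685365773337791094609814973185049241193946590413281673214915186557517070921902915499667408419372789043955303008173051699432492023444646507119697769014325293656323770187478423466587610569417378448650166837480134361160071796051247779679284012777060213948463927319967232839351059893832706575217948221403293860583369081343883665900927001999933346216181256689828869511300695606475685289885857151031848411426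
    [NumIs.V.of 10000 4000 5000, NumIs.V.of 10000 (-220) 570, NumIs.V.of 10000 1000 3300, NumIs.V.of 10000 (-920) 0] = true := by
    decide +kernel
  obtain ⟨f, hf, hp⟩ := chkT4 h (by norm_num) (x := x) (y := T) (z := p) (w := t)
    (by norm_num; linarith only [ua1]) (by norm_num; linarith only [ua2]) (by norm_num; linarith only [ua3]) (by norm_num; linarith only [ua4]) (by norm_num; linarith only [ua5]) (by norm_num; linarith only [ua6]) (by norm_num; linarith only [ua7]) (by norm_num; linarith only [ua8])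
  by_contra hc
  push Not at hc
  obtain ⟨hc0, hc1⟩ := hc
  simp only [List.mem_cons, List.not_mem_nil, or_false] at hf
  rcases hf with rfl | rfl | rfl | rfl | rfl
  · simp only [S_val, F_val, N_val, ui_val, EE.pa, EE.pb, EE.pc, EE.kT, nyy, EE.x, EE.T, EE.p, EE.t, EE.nt, EE.v, E.val, NumIs.lkR] at hp
    push_cast at hp
    linarith only [hc0, hp]
  · simp only [S_val, F_val, N_val, ui_val, EE.pa, EE.pb, EE.pc, EE.kT, nyy, EE.x, EE.T, EE.p, EE.t, EE.nt, EE.v, E.val, NumIs.lkR] at hp
    push_cast at hp
    linarith only [hc1, hp]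
  · simp only [S_val, F_val, N_val, ui_val, EE.pa, EE.pb, EE.pc, EE.kT, nyy, EE.x, EE.T, EE.p, EE.t, EE.nt, EE.v, E.val, NumIs.lkR] at hp
    push_cast at hp
    linarith only [ua9, hp]
  · simp only [S_val, F_val, N_val, ui_val, EE.pa, EE.pb, EE.pc, EE.kT, nyy, EE.x, EE.T, EE.p, EE.t, EE.nt, EE.v, E.val, NumIs.lkR] at hp
    push_cast at hp
    linarith only [ua1, ua5, hp]
  · simp only [S_val, F_val, N_val, ui_val, EE.pa, EE.pb, EE.pc, EE.kT, nyy, EE.x, EE.T, EE.p, EE.t, EE.nt, EE.v, E.val, NumIs.lkR] at hp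
    push_cast at hp
    linarith only [ua11, hp]

theorem far3z_Zc {x T p t : ℝ} (ua1 : 4000 / 10000 ≤ x) (ua2 : x ≤ 5000 / 10000) (ua3 : -(220 / 10000) ≤ T) (ua4 : T ≤ 570 / 10000) (ua5 : 2300 / 10000 ≤ p) (ua6 : p ≤ 3500 / 10000) (ua7 : -(920 / 10000) ≤ t) (ua8 : t ≤ 0 / 10000) (ua9 : T - t ≤ 930 / 10000) (ua10 : 7300 / 10000 ≤ x + p) (ua11 : x + p ≤ 7500 / 10000) :
    rS (10 / 3) x T p t < 0 ∨ rF (10 / 3) (80 / 100) (570 / 10000) x T p t < 0 := by
  have h : chkT [sub (q 0 1) (S 10 3), sub (q 0 1) (F 10 3 pc (q 570 10000)), sub (sub EE.T EE.t) (q 930 10000), sub (q 7300 10000) EE.v, sub EE.v (q 7500 10000)] 30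
    15881183165369506929542082475327633443131775098861321873982123476937453157921601401663143600860487915683908500770265542571726083622597462207378571494793392029566549052627360251598628051675236882308737473687377959122636139530899616205482777559471680113108377208273474738832849513436599598348237076192825017198993073623929390713931797367566210900586025174690885128983402568657474306
    [NumIs.V.of 10000 4000 5000, NumIs.V.of 10000 (-220) 570, NumIs.V.of 10000 2300 3500, NumIs.V.of 10000 (-920) 0] = true := by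
    decide +kernel
  obtain ⟨f, hf, hp⟩ := chkT4 h (by norm_num) (x := x) (y := T) (z := p) (w := t)
    (by norm_num; linarith only [ua1]) (by norm_num; linarith only [ua2]) (by norm_num; linarith only [ua3]) (by norm_num; linarith only [ua4]) (by norm_num; linarith only [ua5]) (by norm_num; linarith only [ua6]) (by norm_num; linarith only [ua7]) (by norm_num; linarith only [ua8])
  by_contra hc
  push Not at hc
  obtain ⟨hc0, hc1⟩ := hc
  simp only [List.mem_cons, List.not_mem_nil, or_false] at hf
  rcases hf with rfl | rfl | rfl | rfl | rfl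
  · simp only [S_val, F_val, N_val, ui_val, EE.pa, EE.pb, EE.pc, EE.kT, nyy, EE.x, EE.T, EE.p, EE.t, EE.nt, EE.v, E.val, NumIs.lkR] at hp
    push_cast at hp
    linarith only [hc0, hp]
  · simp only [S_val, F_val, N_val, ui_val, EE.pa, EE.pb, EE.pc, EE.kT, nyy, EE.x, EE.T, EE.p, EE.t, EE.nt, EE.v, E.val, NumIs.lkR] at hp
    push_cast at hp
    linarith only [hc1, hp]
  · simp only [S_val, F_val, N_val, ui_val, EE.pa, EE.pb, EE.pc, EE.kT, nyy, EE.x, EE.T, EE.p, EE.t, EE.nt, EE.v, E.val, NumIs.lkR] at hp
    push_cast at hp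
    linarith only [ua9, hp]
  · simp only [S_val, F_val, N_val, ui_val, EE.pa, EE.pb, EE.pc, EE.kT, nyy, EE.x, EE.T, EE.p, EE.t, EE.nt, EE.v, E.val, NumIs.lkR] at hp
    push_cast at hp
    linarith only [ua10, hp]
  · simp only [S_val, F_val, N_val, ui_val, EE.pa, EE.pb, EE.pc, EE.kT, nyy, EE.x, EE.T, EE.p, EE.t, EE.nt, EE.v, E.val, NumIs.lkR] at hp
    push_cast at hp
    linarith only [ua11, hp]

end S0R

end Pool.Agent.Work.MP_b30479_gtS.G2

end

section

/-!
# Part of `S0RF`
-/
set_option linter.unusedSimpArgs false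
set_option linter.unusedVariables false

set_option deprecated.oldSectionVars true

namespace Pool.Agent.Work.MP_b30479_gtS.G2

open VOL NumUs

namespace S0R

open NumUs.E EE

theorem far3z_ob {x T p t : ℝ} (ua1 : 4000 / 10000 ≤ x) (ua2 : x ≤ 5000 / 10000) (ua3 : -(220 / 10000) ≤ T) (ua4 : T ≤ 570 / 10000) (ua5 : 1000 / 10000 ≤ p) (ua6 : p ≤ 3300 / 10000) (ua7 : -(1040 / 10000) ≤ t) (ua8 : t ≤ 50 / 10000) (ua9 : T - t ≤ 1000 / 10000) (ua10 : 4300 / 10000 ≤ x + p) (ua11 : x + p ≤ 7300 / 10000) :
    rS (10 / 3) x T p t < 0 ∨ rF (10 / 3) (x + p + 7 / 100) (220 / 10000) x T p t < 0 := by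
  have h : chkT [sub (q 0 1) (S 10 3), sub (q 0 1) (F 10 3 pb (q 220 10000)), sub (sub EE.T EE.t) (q 1000 10000), sub (q 4300 10000) EE.v, sub EE.v (q 7300 10000)] 30
    1127532619658930279230622542321234459484254731351333786437497259781266172273594410002166247170926260780903048207019110020746801531208809936100216717980061484280273981464164887091000110074485574805136570769060744696476604419929706915268856651799343798354348375451664887467543942942602471913559384095184627017131510777546921476188805951576453227135435211408659259182473832119760211583742334875079458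
    [NumIs.V.of 10000 4000 5000, NumIs.V.of 10000 (-220) 570, NumIs.V.of 10000 1000 3300, NumIs.V.of 10000 (-1040) 50] = true := by
    decide +kernel
  obtain ⟨f, hf, hp⟩ := chkT4 h (by norm_num) (x := x) (y := T) (z := p) (w := t)
    (by norm_num; linarith only [ua1]) (by norm_num; linarith only [ua2]) (by norm_num; linarith only [ua3]) (by norm_num; linarith only [ua4]) (by norm_num; linarith only [ua5]) (by norm_num; linarith only [ua6]) (by norm_num; linarith only [ua7]) (by norm_num; linarith only [ua8])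
  by_contra hc
  push Not at hc
  obtain ⟨hc0, hc1⟩ := hc
  simp only [List.mem_cons, List.not_mem_nil, or_false] at hf
  rcases hf with rfl | rfl | rfl | rfl | rfl
  · simp only [S_val, F_val, N_val, ui_val, EE.pa, EE.pb, EE.pc, EE.kT, nyy, EE.x, EE.T, EE.p, EE.t, EE.nt, EE.v, E.val, NumIs.lkR] at hp
    push_cast at hp
    linarith only [hc0, hp]
  · simp only [S_val, F_val, N_val, ui_val, EE.pa, EE.pb, EE.pc, EE.kT, nyy, EE.x, EE.T, EE.p, EE.t, EE.nt, EE.v, E.val, NumIs.lkR] at hp
    push_cast at hp
    linarith only [hc1, hp]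
  · simp only [S_val, F_val, N_val, ui_val, EE.pa, EE.pb, EE.pc, EE.kT, nyy, EE.x, EE.T, EE.p, EE.t, EE.nt, EE.v, E.val, NumIs.lkR] at hp
    push_cast at hp
    linarith only [ua9, hp]
  · simp only [S_val, F_val, N_val, ui_val, EE.pa, EE.pb, EE.pc, EE.kT, nyy, EE.x, EE.T, EE.p, EE.t, EE.nt, EE.v, E.val, NumIs.lkR] at hp
    push_cast at hp
    linarith only [ua1, ua5, hp]
  · simp only [S_val, F_val, N_val, ui_val, EE.pa, EE.pb, EE.pc, EE.kT, nyy, EE.x, EE.T, EE.p, EE.t, EE.nt, EE.v, E.val, NumIs.lkR] at hp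
    push_cast at hp
    linarith only [ua11, hp]

theorem far3z_oc {x T p t : ℝ} (ua1 : 4000 / 10000 ≤ x) (ua2 : x ≤ 5000 / 10000) (ua3 : -(220 / 10000) ≤ T) (ua4 : T ≤ 570 / 10000) (ua5 : 2300 / 10000 ≤ p) (ua6 : p ≤ 3500 / 10000) (ua7 : -(1040 / 10000) ≤ t) (ua8 : t ≤ 50 / 10000) (ua9 : T - t ≤ 1000 / 10000) (ua10 : 7300 / 10000 ≤ x + p) (ua11 : x + p ≤ 7500 / 10000) :
    rS (10 / 3) x T p t < 0 ∨ rF (10 / 3) (80 / 100) (220 / 10000) x T p t < 0 := by
  have h : chkT [sub (q 0 1) (S 10 3), sub (q 0 1) (F 10 3 pc (q 220 10000)), sub (sub EE.T EE.t) (q 1000 10000), sub (q 7300 10000) EE.v, sub EE.v (q 7500 10000)] 30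
    487235676614437155983548630464999879280372305722256055926108370309294566335615920821657945188232270081837119221829368707654033569733369351868090246279548551209640409818598174576268309462756496048830893730955000116178206442784843937486032663066474625076502216623770135111223550382133809202
    [NumIs.V.of 10000 4000 5000, NumIs.V.of 10000 (-220) 570, NumIs.V.of 10000 2300 3500, NumIs.V.of 10000 (-1040) 50] = true := by
    decide +kernel
  obtain ⟨f, hf, hp⟩ := chkT4 h (by norm_num) (x := x) (y := T) (z := p) (w := t)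
    (by norm_num; linarith only [ua1]) (by norm_num; linarith only [ua2]) (by norm_num; linarith only [ua3]) (by norm_num; linarith only [ua4]) (by norm_num; linarith only [ua5]) (by norm_num; linarith only [ua6]) (by norm_num; linarith only [ua7]) (by norm_num; linarith only [ua8])
  by_contra hc
  push Not at hc
  obtain ⟨hc0, hc1⟩ := hc
  simp only [List.mem_cons, List.not_mem_nil, or_false] at hf
  rcases hf with rfl | rfl | rfl | rfl | rfl
  · simp only [S_val, F_val, N_val, ui_val, EE.pa, EE.pb, EE.pc, EE.kT, nyy, EE.x, EE.T, EE.p, EE.t, EE.nt, EE.v, E.val, NumIs.lkR] at hp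
    push_cast at hp
    linarith only [hc0, hp]
  · simp only [S_val, F_val, N_val, ui_val, EE.pa, EE.pb, EE.pc, EE.kT, nyy, EE.x, EE.T, EE.p, EE.t, EE.nt, EE.v, E.val, NumIs.lkR] at hp
    push_cast at hp
    linarith only [hc1, hp]
  · simp only [S_val, F_val, N_val, ui_val, EE.pa, EE.pb, EE.pc, EE.kT, nyy, EE.x, EE.T, EE.p, EE.t, EE.nt, EE.v, E.val, NumIs.lkR] at hp
    push_cast at hp
    linarith only [ua9, hp]
  · simp only [S_val, F_val, N_val, ui_val, EE.pa, EE.pb, EE.pc, EE.kT, nyy, EE.x, EE.T, EE.p, EE.t, EE.nt, EE.v, E.val, NumIs.lkR] at hp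
    push_cast at hp
    linarith only [ua10, hp]
  · simp only [S_val, F_val, N_val, ui_val, EE.pa, EE.pb, EE.pc, EE.kT, nyy, EE.x, EE.T, EE.p, EE.t, EE.nt, EE.v, E.val, NumIs.lkR] at hp
    push_cast at hp
    linarith only [ua11, hp]

end S0R

end Pool.Agent.Work.MP_b30479_gtS.G2

end

section

/-!
# Part of `S0RR`
-/
set_option linter.unusedSimpArgs false
set_option linter.unusedVariables false

set_option deprecated.oldSectionVars true

namespace Pool.Agent.Work.MP_b30479_gtS.G2

open VOL NumUs

namespace S0R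

open NumUs.E ER

theorem roa_h1_q1 : Pool.Agent.Work.NumUs.runT [neg (G pp (neg (E.lnB pp (add hh ER.b)))), sub pp (q 9300 10000)] 39
    579318286405198845726497547220680335204635140323279065980495673090309723495912011592500420847356320392691182110292470783616590662242255945313409252458865828851923397909353349881999181174614863846919299832816970069821266866302842442770820609387048873932278359962734069875356141388617450198630939793413403405973690850683351584285417451742891071621476829437084359375808493322785597412467660086233125386038262581786789812190336890765762980706436383774131854632369036524560460608023430307106502623571372743550992523722658620065433682354127700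
    (Pool.Agent.Work.NumIs.setL 2 ([NumIs.V.of 10000 3000 5000, NumIs.V.of 10000 (-570) 570, NumIs.V.of 10000 700 1800, NumIs.V.of 10000 (-980) 570, NumIs.V.of 10000 0 500, NumIs.V.of 10000 (-1040) 50])) =
    30999883696153380538512474554327385892165989657907074652344844823705301220167620967319470903046564123891614278435138665924087786938381459985188748966008863813152089052287426658968395268900088180144618961512677624153903943970160032423161259340214978187047416177394708875882232361596702856141046843637029206367331672809100056591468565976339237 := by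
  decide +kernel

theorem roa_h1_q2 : Pool.Agent.Work.NumUs.runT [neg (G pp (neg (E.lnB pp (add hh ER.b)))), sub pp (q 9300 10000)] 39
    30999883696153380538512474554327385892165989657907074652344844823705301220167620967319470903046564123891614278435138665924087786938381459985188748966008863813152089052287426658968395268900088180144618961512677624153903943970160032423161259340214978187047416177394708875882232361596702856141046843637029206367331672809100056591468565976339236
    (Pool.Agent.Work.NumIs.setR 2 ([NumIs.V.of 10000 3000 5000, NumIs.V.of 10000 (-570) 570, NumIs.V.of 10000 700 1800, NumIs.V.of 10000 (-980) 570, NumIs.V.of 10000 0 500, NumIs.V.of 10000 (-1040) 50])) =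
    1 := by
  decide +kernel

end S0R

end Pool.Agent.Work.MP_b30479_gtS.G2

end
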