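import Pool.Agent.Work.MP_b30479_gt.TBS.G2.S0RC
import Pool.Agent.Work.MP_b30479_gt.TBS.NumU.Tree

section

/-!
# Part of `S0RR`
-/
set_option linter.unusedSimpArgs false
set_option linter.unusedVariables false

set_option deprecated.oldSectionVars true

namespace Pool.Agent.Work.MP_b30479_gtS.G2

open VOL NumUs

namespace S0R

open NumUs.E ER

theorem rob {x a w b s t : ℝ} (ua1 : 3000 / 10000 ≤ x) (ua2 : x ≤ 5000 / 10000) (ua3 : -(570 / 10000) ≤ a) (ua4 : a ≤ 570 / 10000) (ua5 : 1300 / 10000 ≤ w) (ua6 : w ≤ 3100 / 10000) (ua7 : -(980 / 10000) ≤ b) (ua8 : b ≤ 570 / 10000) (ua9 : 0 / 10000 ≤ s) (ua10 : s ≤ 500 / 10000) (ua11 : -(1040 / 10000) ≤ t) (ua12 : t ≤ 0 / 10000) (ua13 : 9300 / 10000 ≤ 8 / 10 - s + w) (ua14 : 8 / 10 - s + w ≤ 10700 / 10000) (ua15 : 20 * (t * s) + b ≤ 0) :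
    rG (9300 / 10000) (-NumIs.lnB (9300 / 10000) (20 * (t * s) + b)) x a w b s t < 0 := by
  have h : chkT [neg (G (q 9300 10000) (neg (E.lnB (q 9300 10000) (add hh ER.b)))), sub (q 9300 10000) pp, sub pp (q 10700 10000), add hh ER.b] 40
    1191779373676812394393831387416008325613102287619729687086340034936669507497398507123985525011413750597
    [NumIs.V.of 10000 3000 5000, NumIs.V.of 10000 (-570) 570, NumIs.V.of 10000 1300 3100, NumIs.V.of 10000 (-980) 570, NumIs.V.of 10000 0 500, NumIs.V.of 10000 (-1040) 0] = true := by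
    decide +kernel
  obtain ⟨f, hf, hp⟩ := chkT_sound h (xs := [x, a, w, b, s, t])
    (List.Forall₂.cons (NumIs.V.of_mem (by norm_num) (by norm_num; linarith only [ua1]) (by norm_num; linarith only [ua2])) (List.Forall₂.cons (NumIs.V.of_mem (by norm_num) (by norm_num; linarith only [ua3]) (by norm_num; linarith only [ua4])) (List.Forall₂.cons (NumIs.V.of_mem (by norm_num) (by norm_num; linarith only [ua5]) (by norm_num; linarith only [ua6])) (List.Forall₂.cons (NumIs.V.of_mem (by norm_num) (by norm_num; linarith only [ua7]) (by norm_num; linarith only [ua8])) (List.Forall₂.cons (NumIs.V.of_mem (by norm_num) (by norm_num; linarith only [ua9]) (by norm_num; linarith only [ua10])) (List.Forall₂.cons (NumIs.V.of_mem (by norm_num) (by norm_num; linarith only [ua11]) (by norm_num; linarith only [ua12])) List.Forall₂.nil))))))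
  by_contra hc
  push Not at hc
  simp only [List.mem_cons, List.not_mem_nil, or_false] at hf
  rcases hf with rfl | rfl | rfl | rfl
  · simp only [G_val, V_val, ER.pp, ER.rr, ER.hh, ER.x, ER.a, ER.w, ER.b, ER.s, ER.t, E.val, NumIs.lkR] at hp
    push_cast at hp
    linarith only [hc, hp]
  · simp only [G_val, V_val, ER.pp, ER.rr, ER.hh, ER.x, ER.a, ER.w, ER.b, ER.s, ER.t, E.val, NumIs.lkR] at hp
    push_cast at hp
    linarith only [ua13, hp]
  · simp only [G_val, V_val, ER.pp, ER.rr, ER.hh, ER.x, ER.a, ER.w, ER.b, ER.s, ER.t, E.val, NumIs.lkR] at hp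
    push_cast at hp
    linarith only [ua14, hp]
  · simp only [G_val, V_val, ER.pp, ER.rr, ER.hh, ER.x, ER.a, ER.w, ER.b, ER.s, ER.t, E.val, NumIs.lkR] at hp
    push_cast at hp
    linarith only [ua15, hp]

theorem roc {x a w b s t : ℝ} (ua1 : 3000 / 10000 ≤ x) (ua2 : x ≤ 5000 / 10000) (ua3 : -(570 / 10000) ≤ a) (ua4 : a ≤ 570 / 10000) (ua5 : 2700 / 10000 ≤ w) (ua6 : w ≤ 3100 / 10000) (ua7 : -(980 / 10000) ≤ b) (ua8 : b ≤ 570 / 10000) (ua9 : 0 / 10000 ≤ s) (ua10 : s ≤ 500 / 10000) (ua11 : -(1040 / 10000) ≤ t) (ua12 : t ≤ 50 / 10000) (ua13 : 10700 / 10000 ≤ 8 / 10 - s + w) (ua14 : 20 * (t * s) + b ≤ 0) :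
    rG (8 / 10 - s + w - 1) (-Real.pi - NumIs.lnB (8 / 10 - s + w - 1) (20 * (t * s) + b)) x a w b s t < 0 := by
  have h : chkT [neg (G (sub pp (q 1 1)) (sub (neg pi) (E.lnB (sub pp (q 1 1)) (add hh ER.b)))), sub (q 10700 10000) pp, add hh ER.b] 40
    551572921589662660011588795915634886339225124410527048704639154304910660469244369018397494495952703475833042484532789474364235154237159205203510621652276
    [NumIs.V.of 10000 3000 5000, NumIs.V.of 10000 (-570) 570, NumIs.V.of 10000 2700 3100, NumIs.V.of 10000 (-980) 570, NumIs.V.of 10000 0 500, NumIs.V.of 10000 (-1040) 50] = true := by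
    decide +kernel
  obtain ⟨f, hf, hp⟩ := chkT_sound h (xs := [x, a, w, b, s, t])
    (List.Forall₂.cons (NumIs.V.of_mem (by norm_num) (by norm_num; linarith only [ua1]) (by norm_num; linarith only [ua2])) (List.Forall₂.cons (NumIs.V.of_mem (by norm_num) (by norm_num; linarith only [ua3]) (by norm_num; linarith only [ua4])) (List.Forall₂.cons (NumIs.V.of_mem (by norm_num) (by norm_num; linarith only [ua5]) (by norm_num; linarith only [ua6])) (List.Forall₂.cons (NumIs.V.of_mem (by norm_num) (by norm_num; linarith only [ua7]) (by norm_num; linarith only [ua8])) (List.Forall₂.cons (NumIs.V.of_mem (by norm_num) (by norm_num; linarith only [ua9]) (by norm_num; linarith only [ua10])) (List.Forall₂.cons (NumIs.V.of_mem (by norm_num) (by norm_num; linarith only [ua11]) (by norm_num; linarith only [ua12])) List.Forall₂.nil))))))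
  by_contra hc
  push Not at hc
  simp only [List.mem_cons, List.not_mem_nil, or_false] at hf
  rcases hf with rfl | rfl | rfl
  · simp only [G_val, V_val, ER.pp, ER.rr, ER.hh, ER.x, ER.a, ER.w, ER.b, ER.s, ER.t, E.val, NumIs.lkR] at hp
    push_cast at hp
    linarith only [hc, hp]
  · simp only [G_val, V_val, ER.pp, ER.rr, ER.hh, ER.x, ER.a, ER.w, ER.b, ER.s, ER.t, E.val, NumIs.lkR] at hp
    push_cast at hp
    linarith only [ua13, hp]
  · simp only [G_val, V_val, ER.pp, ER.rr, ER.hh, ER.x, ER.a, ER.w, ER.b, ER.s, ER.t, E.val, NumIs.lkR] at hp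
    push_cast at hp
    linarith only [ua14, hp]

end S0R

end Pool.Agent.Work.MP_b30479_gtS.G2

end

section

/-!
# Part of `S0RR`
-/
set_option linter.unusedSimpArgs false
set_option linter.unusedVariables false

set_option deprecated.oldSectionVars true

namespace Pool.Agent.Work.MP_b30479_gtS.G2

open VOL NumUs

namespace S0R

open NumUs.E ER

theorem gb {x a w b s t : ℝ} (ua1 : 3000 / 10000 ≤ x) (ua2 : x ≤ 5000 / 10000) (ua3 : -(570 / 10000) ≤ a) (ua4 : a ≤ 570 / 10000) (ua5 : 1700 / 10000 ≤ w) (ua6 : w ≤ 2500 / 10000) (ua7 : 0 / 10000 ≤ b) (ua8 : b ≤ 570 / 10000) (ua9 : 0 / 10000 ≤ s) (ua10 : s ≤ 500 / 10000) (ua11 : -(1040 / 10000) ≤ t) (ua12 : t ≤ 0 / 10000) (ua13 : 9700 / 10000 ≤ 8 / 10 - s + w) (ua14 : 8 / 10 - s + w ≤ 10000 / 10000) (ua15 : 0 ≤ 20 * (t * s) + b) :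
    rG (9700 / 10000) (Real.pi * (1 / 2)) x a w b s t < 0 := by
  have h : chkT [neg (G (q 9700 10000) (mul pi (q 1 2))), sub (q 9700 10000) pp, sub pp (q 10000 10000), neg (add hh ER.b)] 40
    8214081288171910483543766996151036627012603585425879714697200504013708297080675237910648569897882257886218278130738462868715739852012862608328441210183297693540701649777748
    [NumIs.V.of 10000 3000 5000, NumIs.V.of 10000 (-570) 570, NumIs.V.of 10000 1700 2500, NumIs.V.of 10000 0 570, NumIs.V.of 10000 0 500, NumIs.V.of 10000 (-1040) 0] = true := by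
    decide +kernel
  obtain ⟨f, hf, hp⟩ := chkT_sound h (xs := [x, a, w, b, s, t])
    (List.Forall₂.cons (NumIs.V.of_mem (by norm_num) (by norm_num; linarith only [ua1]) (by norm_num; linarith only [ua2])) (List.Forall₂.cons (NumIs.V.of_mem (by norm_num) (by norm_num; linarith only [ua3]) (by norm_num; linarith only [ua4])) (List.Forall₂.cons (NumIs.V.of_mem (by norm_num) (by norm_num; linarith only [ua5]) (by norm_num; linarith only [ua6])) (List.Forall₂.cons (NumIs.V.of_mem (by norm_num) (by norm_num; linarith only [ua7]) (by norm_num; linarith only [ua8])) (List.Forall₂.cons (NumIs.V.of_mem (by norm_num) (by norm_num; linarith only [ua9]) (by norm_num; linarith only [ua10])) (List.Forall₂.cons (NumIs.V.of_mem (by norm_num) (by norm_num; linarith only [ua11]) (by norm_num; linarith only [ua12])) List.Forall₂.nil))))))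
  by_contra hc
  push Not at hc
  simp only [List.mem_cons, List.not_mem_nil, or_false] at hf
  rcases hf with rfl | rfl | rfl | rfl
  · simp only [G_val, V_val, ER.pp, ER.rr, ER.hh, ER.x, ER.a, ER.w, ER.b, ER.s, ER.t, E.val, NumIs.lkR] at hp
    push_cast at hp
    linarith only [hc, hp]
  · simp only [G_val, V_val, ER.pp, ER.rr, ER.hh, ER.x, ER.a, ER.w, ER.b, ER.s, ER.t, E.val, NumIs.lkR] at hp
    push_cast at hp
    linarith only [ua13, hp]
  · simp only [G_val, V_val, ER.pp, ER.rr, ER.hh, ER.x, ER.a, ER.w, ER.b, ER.s, ER.t, E.val, NumIs.lkR] at hp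
    push_cast at hp
    linarith only [ua14, hp]
  · simp only [G_val, V_val, ER.pp, ER.rr, ER.hh, ER.x, ER.a, ER.w, ER.b, ER.s, ER.t, E.val, NumIs.lkR] at hp
    push_cast at hp
    linarith only [ua15, hp]

theorem wb {x a w b s t : ℝ} (ua1 : 3000 / 10000 ≤ x) (ua2 : x ≤ 5000 / 10000) (ua3 : -(570 / 10000) ≤ a) (ua4 : a ≤ 570 / 10000) (ua5 : 2000 / 10000 ≤ w) (ua6 : w ≤ 2800 / 10000) (ua7 : 0 / 10000 ≤ b) (ua8 : b ≤ 570 / 10000) (ua9 : 0 / 10000 ≤ s) (ua10 : s ≤ 500 / 10000) (ua11 : -(1040 / 10000) ≤ t) (ua12 : t ≤ 50 / 10000) (ua13 : 1 ≤ 8 / 10 - s + w) (ua14 : 8 / 10 - s + w ≤ 103 / 100) (ua15 : 0 ≤ 20 * (t * s) + b) :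
    rV (Real.pi * (1 / 2) * (20 * (t * s) + b)) x a w b (8 / 10 - s) (20 * (t * s)) < rV (uu (58 / 100 + w) (t + b)) x a w b (58 / 100) t := by
  have h : chkT [sub (V (E.uu (add (q 58 100) ER.w) (add ER.t ER.b)) ER.x ER.a ER.w ER.b (q 58 100) ER.t) (V (mul (mul pi (q 1 2)) (add hh ER.b)) ER.x ER.a ER.w ER.b rr hh), sub (q 1 1) pp, sub pp (q 103 100), neg (add hh ER.b)] 40
    675994486232669009713243363408
    [NumIs.V.of 10000 3000 5000, NumIs.V.of 10000 (-570) 570, NumIs.V.of 10000 2000 2800, NumIs.V.of 10000 0 570, NumIs.V.of 10000 0 500, NumIs.V.of 10000 (-1040) 50] = true := by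
    decide +kernel
  obtain ⟨f, hf, hp⟩ := chkT_sound h (xs := [x, a, w, b, s, t])
    (List.Forall₂.cons (NumIs.V.of_mem (by norm_num) (by norm_num; linarith only [ua1]) (by norm_num; linarith only [ua2])) (List.Forall₂.cons (NumIs.V.of_mem (by norm_num) (by norm_num; linarith only [ua3]) (by norm_num; linarith only [ua4])) (List.Forall₂.cons (NumIs.V.of_mem (by norm_num) (by norm_num; linarith only [ua5]) (by norm_num; linarith only [ua6])) (List.Forall₂.cons (NumIs.V.of_mem (by norm_num) (by norm_num; linarith only [ua7]) (by norm_num; linarith only [ua8])) (List.Forall₂.cons (NumIs.V.of_mem (by norm_num) (by norm_num; linarith only [ua9]) (by norm_num; linarith only [ua10])) (List.Forall₂.cons (NumIs.V.of_mem (by norm_num) (by norm_num; linarith only [ua11]) (by norm_num; linarith only [ua12])) List.Forall₂.nil))))))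
  by_contra hc
  push Not at hc
  simp only [List.mem_cons, List.not_mem_nil, or_false] at hf
  rcases hf with rfl | rfl | rfl | rfl
  · simp only [G_val, V_val, ER.pp, ER.rr, ER.hh, ER.x, ER.a, ER.w, ER.b, ER.s, ER.t, E.val, NumIs.lkR] at hp
    push_cast at hp
    linarith only [hc, hp]
  · simp only [G_val, V_val, ER.pp, ER.rr, ER.hh, ER.x, ER.a, ER.w, ER.b, ER.s, ER.t, E.val, NumIs.lkR] at hp
    push_cast at hp
    linarith only [ua13, hp]
  · simp only [G_val, V_val, ER.pp, ER.rr, ER.hh, ER.x, ER.a, ER.w, ER.b, ER.s, ER.t, E.val, NumIs.lkR] at hp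
    push_cast at hp
    linarith only [ua14, hp]
  · simp only [G_val, V_val, ER.pp, ER.rr, ER.hh, ER.x, ER.a, ER.w, ER.b, ER.s, ER.t, E.val, NumIs.lkR] at hp
    push_cast at hp
    linarith only [ua15, hp]

end S0R

end Pool.Agent.Work.MP_b30479_gtS.G2

end
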