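import Pool.Agent.Work.MP_b30479_gt.TBS.G2.S0RC
import Pool.Agent.Work.MP_b30479_gt.TBS.NumU.Tree

section

/-!
# Part of `S0RR`
-/
set_option linter.unusedSimpArgs false
set_option linter.unusedVariables false

set_option deprecated.oldSectionVars true

namespace Pool.Agent.Work.MP_b30479_gtS.G2

open VOL NumUs

namespace S0R

open NumUs.E ER

theorem rot {x a w b s t : ℝ} (ua1 : 3000 / 10000 ≤ x) (ua2 : x ≤ 5000 / 10000) (ua3 : -(570 / 10000) ≤ a) (ua4 : a ≤ 570 / 10000) (ua5 : 1300 / 10000 ≤ w) (ua6 : w ≤ 3100 / 10000) (ua7 : -(980 / 10000) ≤ b) (ua8 : b ≤ 570 / 10000) (ua9 : 0 / 10000 ≤ s) (ua10 : s ≤ 500 / 10000) (ua11 : 0 / 10000 ≤ t) (ua12 : t ≤ 50 / 10000) (ua13 : 9300 / 10000 ≤ 8 / 10 - s + w) (ua14 : 8 / 10 - s + w ≤ 10700 / 10000) :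
    rG (9300 / 10000) (-Real.pi) x a w b s t < 0 := by
  have h : chkT [neg (G (q 9300 10000) (neg pi)), sub (q 9300 10000) pp, sub pp (q 10700 10000)] 40
    557952
    [NumIs.V.of 10000 3000 5000, NumIs.V.of 10000 (-570) 570, NumIs.V.of 10000 1300 3100, NumIs.V.of 10000 (-980) 570, NumIs.V.of 10000 0 500, NumIs.V.of 10000 0 50] = true := by
    decide +kernel
  obtain ⟨f, hf, hp⟩ := chkT_sound h (xs := [x, a, w, b, s, t])
    (List.Forall₂.cons (NumIs.V.of_mem (by norm_num) (by norm_num; linarith only [ua1]) (by norm_num; linarith only [ua2])) (List.Forall₂.cons (NumIs.V.of_mem (by norm_num) (by norm_num; linarith only [ua3]) (by norm_num; linarith only [ua4])) (List.Forall₂.cons (NumIs.V.of_mem (by norm_num) (by norm_num; linarith only [ua5]) (by norm_num; linarith only [ua6])) (List.Forall₂.cons (NumIs.V.of_mem (by norm_num) (by norm_num; linarith only [ua7]) (by norm_num; linarith only [ua8])) (List.Forall₂.cons (NumIs.V.of_mem (by norm_num) (by norm_num; linarith only [ua9]) (by norm_num; linarith only [ua10])) (List.Forall₂.cons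 (NumIs.V.of_mem (by norm_num) (by norm_num; linarith only [ua11]) (by norm_num; linarith only [ua12])) List.Forall₂.nil))))))
  by_contra hc
  push Not at hc
  simp only [List.mem_cons, List.not_mem_nil, or_false] at hf
  rcases hf with rfl | rfl | rfl
  · simp only [G_val, V_val, ER.pp, ER.rr, ER.hh, ER.x, ER.a, ER.w, ER.b, ER.s, ER.t, E.val, NumIs.lkR] at hp
    push_cast at hp
    linarith only [hc, hp]
  · simp only [G_val, V_val, ER.pp, ER.rr, ER.hh, ER.x, ER.a, ER.w, ER.b, ER.s, ER.t, E.val, NumIs.lkR] at hp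
    push_cast at hp
    linarith only [ua13, hp]
  · simp only [G_val, V_val, ER.pp, ER.rr, ER.hh, ER.x, ER.a, ER.w, ER.b, ER.s, ER.t, E.val, NumIs.lkR] at hp
    push_cast at hp
    linarith only [ua14, hp]

theorem ga {x a w b s t : ℝ} (ua1 : 3000 / 10000 ≤ x) (ua2 : x ≤ 5000 / 10000) (ua3 : -(570 / 10000) ≤ a) (ua4 : a ≤ 570 / 10000) (ua5 : 1300 / 10000 ≤ w) (ua6 : w ≤ 2200 / 10000) (ua7 : 0 / 10000 ≤ b) (ua8 : b ≤ 570 / 10000) (ua9 : 0 / 10000 ≤ s) (ua10 : s ≤ 500 / 10000) (ua11 : -(1040 / 10000) ≤ t) (ua12 : t ≤ 0 / 10000) (ua13 : 9300 / 10000 ≤ 8 / 10 - s + w) (ua14 : 8 / 10 - s + w ≤ 9700 / 10000) (ua15 : 0 ≤ 20 * (t * s) + b) :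
    rG (9300 / 10000) (-NumIs.lnB (9700 / 10000) (20 * (t * s) + b)) x a w b s t < 0 := by
  have h : chkT [neg (G (q 9300 10000) (neg (E.lnB (q 9700 10000) (add hh ER.b)))), sub (q 9300 10000) pp, sub pp (q 9700 10000), neg (add hh ER.b)] 40
    7470723761324478782934725215362116367285785474308593163637557485053958574047873438503138918227422885795708421976227633761370559746221723361613192464061255992133
    [NumIs.V.of 10000 3000 5000, NumIs.V.of 10000 (-570) 570, NumIs.V.of 10000 1300 2200, NumIs.V.of 10000 0 570, NumIs.V.of 10000 0 500, NumIs.V.of 10000 (-1040) 0] = true := by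
    decide +kernel
  obtain ⟨f, hf, hp⟩ := chkT_sound h (xs := [x, a, w, b, s, t])
    (List.Forall₂.cons (NumIs.V.of_mem (by norm_num) (by norm_num; linarith only [ua1]) (by norm_num; linarith only [ua2])) (List.Forall₂.cons (NumIs.V.of_mem (by norm_num) (by norm_num; linarith only [ua3]) (by norm_num; linarith only [ua4])) (List.Forall₂.cons (NumIs.V.of_mem (by norm_num) (by norm_num; linarith only [ua5]) (by norm_num; linarith only [ua6])) (List.Forall₂.cons (NumIs.V.of_mem (by norm_num) (by norm_num; linarith only [ua7]) (by norm_num; linarith only [ua8])) (List.Forall₂.cons (NumIs.V.of_mem (by norm_num) (by norm_num; linarith only [ua9]) (by norm_num; linarith only [ua10])) (List.Forall₂.cons (NumIs.V.of_mem (by norm_num) (by norm_num; linarith only [ua11]) (by norm_num; linarith only [ua12])) List.Forall₂.nil))))))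
  by_contra hc
  push Not at hc
  simp only [List.mem_cons, List.not_mem_nil, or_false] at hf
  rcases hf with rfl | rfl | rfl | rfl
  · simp only [G_val, V_val, ER.pp, ER.rr, ER.hh, ER.x, ER.a, ER.w, ER.b, ER.s, ER.t, E.val, NumIs.lkR] at hp
    push_cast at hp
    linarith only [hc, hp]
  · simp only [G_val, V_val, ER.pp, ER.rr, ER.hh, ER.x, ER.a, ER.w, ER.b, ER.s, ER.t, E.val, NumIs.lkR] at hp
    push_cast at hp
    linarith only [ua13, hp]
  · simp only [G_val, V_val, ER.pp, ER.rr, ER.hh, ER.x, ER.a, ER.w, ER.b, ER.s, ER.t, E.val, NumIs.lkR] at hp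
    push_cast at hp
    linarith only [ua14, hp]
  · simp only [G_val, V_val, ER.pp, ER.rr, ER.hh, ER.x, ER.a, ER.w, ER.b, ER.s, ER.t, E.val, NumIs.lkR] at hp
    push_cast at hp
    linarith only [ua15, hp]

end S0R

end Pool.Agent.Work.MP_b30479_gtS.G2

end

section

/-!
# Part of `S0RV2`
-/
set_option linter.unusedSimpArgs false
set_option linter.unusedVariables false

set_option deprecated.oldSectionVars true

namespace Pool.Agent.Work.MP_b30479_gtS.G2

open VOL NumUs

namespace S0R

open NumUs.E EV

theorem z1rn_h1_q2 : Pool.Agent.Work.NumUs.runT [R 10 3 (q 4000 10000) (1), sub (mul (q (-1145) 1500) EV.w) EV.b, sub (sub EV.T EV.t) (q 1050 10000), sub h (a 10 3)] 37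
    554380289478856168600663014273750600413693921576653477749624527088897847359265639216093580947564757681755660005248551090249351685689235087636273223991369074186724140007259513633820987133023818208764498083588075709501733553577426044331783020856454422555509232640329333930155449772007759877296800364127764163557955215841245679019337982527514168608295837859711344762172541677705133771003510456494154988707495887736367901747471934971956308683668165002559290672426679643706988710837413806332977751561668309345105392269726732989109506882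
    (Pool.Agent.Work.NumIs.setL 0 (Pool.Agent.Work.NumIs.setR 5 (Pool.Agent.Work.NumIs.setL 2 ([NumIs.V.of 10000 3000 3800, NumIs.V.of 10000 0 570, NumIs.V.of 10000 700 3900, NumIs.V.of 10000 (-1145) (-98), NumIs.V.of 10000 0 500, NumIs.V.of 10000 (-1140) (-150)])))) =
    225117588872247952795132519519534050057088960544124704276107487393529393043463456142080159485391892722326900354151778797565515283525729914834608959771060508191880333230586653877678471807654984544563133909972997380990707872377464875814253197144449827916135758691906785168815592151286184101711284575336005158813473732335771222952400204755823948774144204767121458064706353067509906634577692435304162255624975952042341459 := by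
  decide +kernel

theorem z1rn_h1_q3 : Pool.Agent.Work.NumUs.runT [R 10 3 (q 4000 10000) (1), sub (mul (q (-1145) 1500) EV.w) EV.b, sub (sub EV.T EV.t) (q 1050 10000), sub h (a 10 3)] 35
    879365581532218565605986404373179883035503752125487126078544872630974191576029125555000622989812080946589454508405385927990294076272382479822691249105705110124532551681979116709681530498652283377199741835832021019494952626474472171149426551345507140297405307390260879565685906840961656647309705372406270151615131766936606339657813299827437299899000799871568195565259191669960572791319111075406883811035062312665396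
    (Pool.Agent.Work.NumIs.setL 5 (Pool.Agent.Work.NumIs.setL 2 (Pool.Agent.Work.NumIs.setR 0 (Pool.Agent.Work.NumIs.setR 5 (Pool.Agent.Work.NumIs.setL 2 ([NumIs.V.of 10000 3000 3800, NumIs.V.of 10000 0 570, NumIs.V.of 10000 700 3900, NumIs.V.of 10000 (-1145) (-98), NumIs.V.of 10000 0 500, NumIs.V.of 10000 (-1140) (-150)])))))) =
    7242535957013021515463911193427462735244103224751918864066288108832168207195122635142961489998684717571392850915671495583670681317237687082708348155280600867347167729354558461058800001970285793362767091940590430177216808658455388840328188549398831364916663303892190994718687312539096036914600082525887183997181070503664530169008962 := by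
  decide +kernel

theorem z1rn_h1_q4 : Pool.Agent.Work.NumUs.runT [R 10 3 (q 4000 10000) (1), sub (mul (q (-1145) 1500) EV.w) EV.b, sub (sub EV.T EV.t) (q 1050 10000), sub h (a 10 3)] 35
    7242535957013021515463911193427462735244103224751918864066288108832168207195122635142961489998684717571392850915671495583670681317237687082708348155280600867347167729354558461058800001970285793362767091940590430177216808658455388840328188549398831364916663303892190994718687312539096036914600082525887183997181070503664530169008961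
    (Pool.Agent.Work.NumIs.setR 5 (Pool.Agent.Work.NumIs.setL 2 (Pool.Agent.Work.NumIs.setR 0 (Pool.Agent.Work.NumIs.setR 5 (Pool.Agent.Work.NumIs.setL 2 ([NumIs.V.of 10000 3000 3800, NumIs.V.of 10000 0 570, NumIs.V.of 10000 700 3900, NumIs.V.of 10000 (-1145) (-98), NumIs.V.of 10000 0 500, NumIs.V.of 10000 (-1140) (-150)])))))) =
    54251534940729431316561825229752424045393802887314448263442757640550442485085258507669012519928101646408787157628823110560200049819634528836926035866027808644077805567820863867448711387259207181262465150552460275909423091581996499173702 := by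
  decide +kernel

theorem z1rn_h1_q5 : Pool.Agent.Work.NumUs.runT [R 10 3 (q 4000 10000) (1), sub (mul (q (-1145) 1500) EV.w) EV.b, sub (sub EV.T EV.t) (q 1050 10000), sub h (a 10 3)] 36
    54251534940729431316561825229752424045393802887314448263442757640550442485085258507669012519928101646408787157628823110560200049819634528836926035866027808644077805567820863867448711387259207181262465150552460275909423091581996499173701
    (Pool.Agent.Work.NumIs.setR 2 (Pool.Agent.Work.NumIs.setR 0 (Pool.Agent.Work.NumIs.setR 5 (Pool.Agent.Work.NumIs.setL 2 ([NumIs.V.of 10000 3000 3800, NumIs.V.of 10000 0 570, NumIs.V.of 10000 700 3900, NumIs.V.of 10000 (-1145) (-98), NumIs.V.of 10000 0 500, NumIs.V.of 10000 (-1140) (-150)]))))) =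
    593926504685221154812935068454208561656049131683838018206003423440677834192531835124715809987560397755394513471006903304238369472320433667731066904373569966616964926255286906688136454227025 := by
  decide +kernel

end S0R

end Pool.Agent.Work.MP_b30479_gtS.G2

end

section

/-!
# Part of `S0RV4`
-/
set_option linter.unusedSimpArgs false
set_option linter.unusedVariables false

set_option deprecated.oldSectionVars true

namespace Pool.Agent.Work.MP_b30479_gtS.G2

open VOL NumUs

namespace S0R

open NumUs.E EV

theorem e1n {x T w b r t : ℝ} (ua1 : 3000 / 10000 ≤ x) (ua2 : x ≤ 3800 / 10000) (ua3 : -(980 / 10000) ≤ T) (ua4 : T ≤ -(760 / 10000)) (ua5 : 700 / 10000 ≤ w) (ua6 : w ≤ 3900 / 10000) (ua7 : -(1145 / 10000) ≤ b) (ua8 : b ≤ -(98 / 10000)) (ua9 : 500 / 10000 ≤ r) (ua10 : r ≤ 3100 / 10000) (ua11 : -(1230 / 10000) ≤ t) (ua12 : t ≤ -(800 / 10000)) (ua13 : r ≤ x - 700 / 10000) (ua14 : -(1145 / 1500) * w ≤ b) (ua15 : t ≤ rui (10 / 3) x T) :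
    0 < rD (4600 / 10000) (1) x (rui (10 / 3) x T) w b r t := by
  have h : chkT [D 10 3 (q 4600 10000) (1), sub EV.r (sub EV.x (q 700 10000)), sub (mul (q (-1145) 1500) EV.w) EV.b, sub EV.t (a 10 3)] 40
    3192133765574967395351934960103366130219786363765826
    [NumIs.V.of 10000 3000 3800, NumIs.V.of 10000 (-980) (-760), NumIs.V.of 10000 700 3900, NumIs.V.of 10000 (-1145) (-98), NumIs.V.of 10000 500 3100, NumIs.V.of 10000 (-1230) (-800)] = true := by
    decide +kernel
  obtain ⟨f, hf, hp⟩ := chkT_sound h (xs := [x, T, w, b, r, t])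
    (List.Forall₂.cons (NumIs.V.of_mem (by norm_num) (by norm_num; linarith only [ua1]) (by norm_num; linarith only [ua2])) (List.Forall₂.cons (NumIs.V.of_mem (by norm_num) (by norm_num; linarith only [ua3]) (by norm_num; linarith only [ua4])) (List.Forall₂.cons (NumIs.V.of_mem (by norm_num) (by norm_num; linarith only [ua5]) (by norm_num; linarith only [ua6])) (List.Forall₂.cons (NumIs.V.of_mem (by norm_num) (by norm_num; linarith only [ua7]) (by norm_num; linarith only [ua8])) (List.Forall₂.cons (NumIs.V.of_mem (by norm_num) (by norm_num; linarith only [ua9]) (by norm_num; linarith only [ua10])) (List.Forall₂.cons (NumIs.V.of_mem (by norm_num) (by norm_num; linarith only [ua11]) (by norm_num; linarith only [ua12])) List.Forall₂.nil))))))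
  by_contra hc
  push Not at hc
  simp only [List.mem_cons, List.not_mem_nil, or_false] at hf
  rcases hf with rfl | rfl | rfl | rfl
  · simp only [D_val, R_val, h_val, EE.ui_val, EV.a, EV.x, EV.T, EV.w, EV.b, EV.r, EV.t, E.val, NumIs.lkR] at hp
    push_cast at hp
    linarith only [hc, hp]
  · simp only [D_val, R_val, h_val, EE.ui_val, EV.a, EV.x, EV.T, EV.w, EV.b, EV.r, EV.t, E.val, NumIs.lkR] at hp
    push_cast at hp
    linarith only [ua13, hp]
  · simp only [D_val, R_val, h_val, EE.ui_val, EV.a, EV.x, EV.T, EV.w, EV.b, EV.r, EV.t, E.val, NumIs.lkR] at hp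
    push_cast at hp
    linarith only [ua14, hp]
  · simp only [D_val, R_val, h_val, EE.ui_val, EV.a, EV.x, EV.T, EV.w, EV.b, EV.r, EV.t, E.val, NumIs.lkR] at hp
    push_cast at hp
    linarith only [ua15, hp]

theorem e1p {x T w b r t : ℝ} (ua1 : 3000 / 10000 ≤ x) (ua2 : x ≤ 3800 / 10000) (ua3 : -(980 / 10000) ≤ T) (ua4 : T ≤ -(760 / 10000)) (ua5 : 700 / 10000 ≤ w) (ua6 : w ≤ 3900 / 10000) (ua7 : -(1145 / 10000) ≤ b) (ua8 : b ≤ -(98 / 10000)) (ua9 : 500 / 10000 ≤ r) (ua10 : r ≤ 3100 / 10000) (ua11 : -(1230 / 10000) ≤ t) (ua12 : t ≤ -(800 / 10000)) (ua13 : r ≤ x - 700 / 10000) (ua14 : -(1145 / 1500) * w ≤ b) (ua15 : rui (10 / 3) x T ≤ t) :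
    0 < rD (4600 / 10000) (-1) x (rui (10 / 3) x T) w b r t := by
  have h : chkT [D 10 3 (q 4600 10000) (-1), sub EV.r (sub EV.x (q 700 10000)), sub (mul (q (-1145) 1500) EV.w) EV.b, sub (a 10 3) EV.t] 40
    172764593467621625356208535257781
    [NumIs.V.of 10000 3000 3800, NumIs.V.of 10000 (-980) (-760), NumIs.V.of 10000 700 3900, NumIs.V.of 10000 (-1145) (-98), NumIs.V.of 10000 500 3100, NumIs.V.of 10000 (-1230) (-800)] = true := by
    decide +kernel
  obtain ⟨f, hf, hp⟩ := chkT_sound h (xs := [x, T, w, b, r, t])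
    (List.Forall₂.cons (NumIs.V.of_mem (by norm_num) (by norm_num; linarith only [ua1]) (by norm_num; linarith only [ua2])) (List.Forall₂.cons (NumIs.V.of_mem (by norm_num) (by norm_num; linarith only [ua3]) (by norm_num; linarith only [ua4])) (List.Forall₂.cons (NumIs.V.of_mem (by norm_num) (by norm_num; linarith only [ua5]) (by norm_num; linarith only [ua6])) (List.Forall₂.cons (NumIs.V.of_mem (by norm_num) (by norm_num; linarith only [ua7]) (by norm_num; linarith only [ua8])) (List.Forall₂.cons (NumIs.V.of_mem (by norm_num) (by norm_num; linarith only [ua9]) (by norm_num; linarith only [ua10])) (List.Forall₂.cons (NumIs.V.of_mem (by norm_num) (by norm_num; linarith only [ua11]) (by norm_num; linarith only [ua12])) List.Forall₂.nil))))))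
  by_contra hc
  push Not at hc
  simp only [List.mem_cons, List.not_mem_nil, or_false] at hf
  rcases hf with rfl | rfl | rfl | rfl
  · simp only [D_val, R_val, h_val, EE.ui_val, EV.a, EV.x, EV.T, EV.w, EV.b, EV.r, EV.t, E.val, NumIs.lkR] at hp
    push_cast at hp
    linarith only [hc, hp]
  · simp only [D_val, R_val, h_val, EE.ui_val, EV.a, EV.x, EV.T, EV.w, EV.b, EV.r, EV.t, E.val, NumIs.lkR] at hp
    push_cast at hp
    linarith only [ua13, hp]
  · simp only [D_val, R_val, h_val, EE.ui_val, EV.a, EV.x, EV.T, EV.w, EV.b, EV.r, EV.t, E.val, NumIs.lkR] at hp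
    push_cast at hp
    linarith only [ua14, hp]
  · simp only [D_val, R_val, h_val, EE.ui_val, EV.a, EV.x, EV.T, EV.w, EV.b, EV.r, EV.t, E.val, NumIs.lkR] at hp
    push_cast at hp
    linarith only [ua15, hp]

theorem e1rn {x T w b r t : ℝ} (ua1 : 3000 / 10000 ≤ x) (ua2 : x ≤ 3800 / 10000) (ua3 : -(980 / 10000) ≤ T) (ua4 : T ≤ -(760 / 10000)) (ua5 : 700 / 10000 ≤ w) (ua6 : w ≤ 3900 / 10000) (ua7 : -(1145 / 10000) ≤ b) (ua8 : b ≤ -(98 / 10000)) (ua9 : 0 / 10000 ≤ r) (ua10 : r ≤ 500 / 10000) (ua11 : -(1230 / 10000) ≤ t) (ua12 : t ≤ -(800 / 10000)) (ua13 : -(1145 / 1500) * w ≤ b) (ua14 : 20 * (t * r) ≤ rui (10 / 3) x T) :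
    0 < rE (4600 / 10000) (1) x (rui (10 / 3) x T) w b r t := by
  have h : chkT [R 10 3 (q 4600 10000) (1), sub (mul (q (-1145) 1500) EV.w) EV.b, sub h (a 10 3)] 40
    9356723126850
    [NumIs.V.of 10000 3000 3800, NumIs.V.of 10000 (-980) (-760), NumIs.V.of 10000 700 3900, NumIs.V.of 10000 (-1145) (-98), NumIs.V.of 10000 0 500, NumIs.V.of 10000 (-1230) (-800)] = true := by
    decide +kernel
  obtain ⟨f, hf, hp⟩ := chkT_sound h (xs := [x, T, w, b, r, t])
    (List.Forall₂.cons (NumIs.V.of_mem (by norm_num) (by norm_num; linarith only [ua1]) (by norm_num; linarith only [ua2])) (List.Forall₂.cons (NumIs.V.of_mem (by norm_num) (by norm_num; linarith only [ua3]) (by norm_num; linarith only [ua4])) (List.Forall₂.cons (NumIs.V.of_mem (by norm_num) (by norm_num; linarith only [ua5]) (by norm_num; linarith only [ua6])) (List.Forall₂.cons (NumIs.V.of_mem (by norm_num) (by norm_num; linarith only [ua7]) (by norm_num; linarith only [ua8])) (List.Forall₂.cons (NumIs.V.of_mem (by norm_num) (by norm_num; linarith only [ua9]) (by norm_num;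 linarith only [ua10])) (List.Forall₂.cons (NumIs.V.of_mem (by norm_num) (by norm_num; linarith only [ua11]) (by norm_num; linarith only [ua12])) List.Forall₂.nil))))))
  by_contra hc
  push Not at hc
  simp only [List.mem_cons, List.not_mem_nil, or_false] at hf
  rcases hf with rfl | rfl | rfl
  · simp only [D_val, R_val, h_val, EE.ui_val, EV.a, EV.x, EV.T, EV.w, EV.b, EV.r, EV.t, E.val, NumIs.lkR] at hp
    push_cast at hp
    linarith only [hc, hp]
  · simp only [D_val, R_val, h_val, EE.ui_val, EV.a, EV.x, EV.T, EV.w, EV.b, EV.r, EV.t, E.val, NumIs.lkR] at hp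
    push_cast at hp
    linarith only [ua13, hp]
  · simp only [D_val, R_val, h_val, EE.ui_val, EV.a, EV.x, EV.T, EV.w, EV.b, EV.r, EV.t, E.val, NumIs.lkR] at hp
    push_cast at hp
    linarith only [ua14, hp]

theorem e1rp {x T w b r t : ℝ} (ua1 : 3000 / 10000 ≤ x) (ua2 : x ≤ 3800 / 10000) (ua3 : -(980 / 10000) ≤ T) (ua4 : T ≤ -(760 / 10000)) (ua5 : 700 / 10000 ≤ w) (ua6 : w ≤ 3900 / 10000) (ua7 : -(1145 / 10000) ≤ b) (ua8 : b ≤ -(98 / 10000)) (ua9 : 0 / 10000 ≤ r) (ua10 : r ≤ 500 / 10000) (ua11 : -(1230 / 10000) ≤ t) (ua12 : t ≤ -(800 / 10000)) (ua13 : -(1145 / 1500) * w ≤ b) (ua14 : rui (10 / 3) x T ≤ 20 * (t * r)) :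
    0 < rE (4600 / 10000) (-1) x (rui (10 / 3) x T) w b r t := by
  have h : chkT [R 10 3 (q 4600 10000) (-1), sub (mul (q (-1145) 1500) EV.w) EV.b, sub (a 10 3) h] 40
    157384068185666568770
    [NumIs.V.of 10000 3000 3800, NumIs.V.of 10000 (-980) (-760), NumIs.V.of 10000 700 3900, NumIs.V.of 10000 (-1145) (-98), NumIs.V.of 10000 0 500, NumIs.V.of 10000 (-1230) (-800)] = true := by
    decide +kernel
  obtain ⟨f, hf, hp⟩ := chkT_sound h (xs := [x, T, w, b, r, t])
    (List.Forall₂.cons (NumIs.V.of_mem (by norm_num) (by norm_num; linarith only [ua1]) (by norm_num; linarith only [ua2])) (List.Forall₂.cons (NumIs.V.of_mem (by norm_num) (by norm_num; linarith only [ua3]) (by norm_num; linarith only [ua4])) (List.Forall₂.cons (NumIs.V.of_mem (by norm_num) (by norm_num; linarith only [ua5]) (by norm_num; linarith only [ua6])) (List.Forall₂.cons (NumIs.V.of_mem (by norm_num) (by norm_num; linarith only [ua7]) (by norm_num; linarith only [ua8])) (List.Forall₂.cons (NumIs.V.of_mem (by norm_num) (by norm_num; linarith only [ua9])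 (by norm_num; linarith only [ua10])) (List.Forall₂.cons (NumIs.V.of_mem (by norm_num) (by norm_num; linarith only [ua11]) (by norm_num; linarith only [ua12])) List.Forall₂.nil))))))
  by_contra hc
  push Not at hc
  simp only [List.mem_cons, List.not_mem_nil, or_false] at hf
  rcases hf with rfl | rfl | rfl
  · simp only [D_val, R_val, h_val, EE.ui_val, EV.a, EV.x, EV.T, EV.w, EV.b, EV.r, EV.t, E.val, NumIs.lkR] at hp
    push_cast at hp
    linarith only [hc, hp]
  · simp only [D_val, R_val, h_val, EE.ui_val, EV.a, EV.x, EV.T, EV.w, EV.b, EV.r, EV.t, E.val, NumIs.lkR] at hp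
    push_cast at hp
    linarith only [ua13, hp]
  · simp only [D_val, R_val, h_val, EE.ui_val, EV.a, EV.x, EV.T, EV.w, EV.b, EV.r, EV.t, E.val, NumIs.lkR] at hp
    push_cast at hp
    linarith only [ua14, hp]

end S0R

end Pool.Agent.Work.MP_b30479_gtS.G2

end
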