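import Pool.Agent.Work.MP_b30479_gt.TBS.G2.S0RC
import Pool.Agent.Work.MP_b30479_gt.TBS.NumU.Tree

section

/-!
# Part of `S0RR`
-/
set_option linter.unusedSimpArgs false
set_option linter.unusedVariables false

set_option deprecated.oldSectionVars true

namespace Pool.Agent.Work.MP_b30479_gtS.G2

open VOL NumUs

namespace S0R

open NumUs.E ER

theorem r1a {x a w b s t : ℝ} (ua1 : 3000 / 10000 ≤ x) (ua2 : x ≤ 5000 / 10000) (ua3 : -(570 / 10000) ≤ a) (ua4 : a ≤ 570 / 10000) (ua5 : 700 / 10000 ≤ w) (ua6 : w ≤ 1800 / 10000) (ua7 : -(1145 / 10000) ≤ b) (ua8 : b ≤ -(98 / 10000)) (ua9 : 0 / 10000 ≤ s) (ua10 : s ≤ 500 / 10000) (ua11 : -(1140 / 10000) ≤ t) (ua12 : t ≤ -(150 / 10000)) (ua13 : 8 / 10 - s + w ≤ 9300 / 10000) :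
    rG (8 / 10 - s + w) (-NumIs.lnB (8 / 10 - s + w) (20 * (t * s) + b)) x a w b s t < 0 := by
  have h : chkT [neg (G pp (neg (E.lnB pp (add hh ER.b)))), sub pp (q 9300 10000)] 40
    114386288837203986391987102457218895816829898471459668935578784509560417863725737365942961448127514919609423181792083684238068840130173506886014980472390978
    [NumIs.V.of 10000 3000 5000, NumIs.V.of 10000 (-570) 570, NumIs.V.of 10000 700 1800, NumIs.V.of 10000 (-1145) (-98), NumIs.V.of 10000 0 500, NumIs.V.of 10000 (-1140) (-150)] = true := by
    decide +kernel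
  obtain ⟨f, hf, hp⟩ := chkT_sound h (xs := [x, a, w, b, s, t])
    (List.Forall₂.cons (NumIs.V.of_mem (by norm_num) (by norm_num; linarith only [ua1]) (by norm_num; linarith only [ua2])) (List.Forall₂.cons (NumIs.V.of_mem (by norm_num) (by norm_num; linarith only [ua3]) (by norm_num; linarith only [ua4])) (List.Forall₂.cons (NumIs.V.of_mem (by norm_num) (by norm_num; linarith only [ua5]) (by norm_num; linarith only [ua6])) (List.Forall₂.cons (NumIs.V.of_mem (by norm_num) (by norm_num; linarith only [ua7]) (by norm_num; linarith only [ua8])) (List.Forall₂.cons (NumIs.V.of_mem (by norm_num) (by norm_num; linarith only [ua9]) (by norm_num; linarith only [ua10])) (List.Forall₂.cons (NumIs.V.of_mem (by norm_num) (by norm_num; linarith only [ua11]) (by norm_num; linarith only [ua12])) List.Forall₂.nil))))))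
  by_contra hc
  push Not at hc
  simp only [List.mem_cons, List.not_mem_nil, or_false] at hf
  rcases hf with rfl | rfl
  · simp only [G_val, V_val, ER.pp, ER.rr, ER.hh, ER.x, ER.a, ER.w, ER.b, ER.s, ER.t, E.val, NumIs.lkR] at hp
    push_cast at hp
    linarith only [hc, hp]
  · simp only [G_val, V_val, ER.pp, ER.rr, ER.hh, ER.x, ER.a, ER.w, ER.b, ER.s, ER.t, E.val, NumIs.lkR] at hp
    push_cast at hp
    linarith only [ua13, hp]

theorem r1b {x a w b s t : ℝ} (ua1 : 3000 / 10000 ≤ x) (ua2 : x ≤ 5000 / 10000) (ua3 : -(570 / 10000) ≤ a) (ua4 : a ≤ 570 / 10000) (ua5 : 1300 / 10000 ≤ w) (ua6 : w ≤ 3200 / 10000) (ua7 : -(1145 / 10000) ≤ b) (ua8 : b ≤ -(98 / 10000)) (ua9 : 0 / 10000 ≤ s) (ua10 : s ≤ 500 / 10000) (ua11 : -(1140 / 10000) ≤ t) (ua12 : t ≤ -(150 / 10000)) (ua13 : 9300 / 10000 ≤ 8 / 10 - s + w) (ua14 : 8 / 10 - s + w ≤ 10700 / 10000) :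
    rG (9300 / 10000) (-NumIs.lnB (9300 / 10000) (20 * (t * s) + b)) x a w b s t < 0 := by
  have h : chkT [neg (G (q 9300 10000) (neg (E.lnB (q 9300 10000) (add hh ER.b)))), sub (q 9300 10000) pp, sub pp (q 10700 10000)] 40
    11316777107505525202231033304743150917
    [NumIs.V.of 10000 3000 5000, NumIs.V.of 10000 (-570) 570, NumIs.V.of 10000 1300 3200, NumIs.V.of 10000 (-1145) (-98), NumIs.V.of 10000 0 500, NumIs.V.of 10000 (-1140) (-150)] = true := by
    decide +kernel
  obtain ⟨f, hf, hp⟩ := chkT_sound h (xs := [x, a, w, b, s, t])
    (List.Forall₂.cons (NumIs.V.of_mem (by norm_num) (by norm_num; linarith only [ua1]) (by norm_num; linarith only [ua2])) (List.Forall₂.cons (NumIs.V.of_mem (by norm_num) (by norm_num; linarith only [ua3]) (by norm_num; linarith only [ua4])) (List.Forall₂.cons (NumIs.V.of_mem (by norm_num) (by norm_num; linarith only [ua5]) (by norm_num; linarith only [ua6])) (List.Forall₂.cons (NumIs.V.of_mem (by norm_num) (by norm_num; linarith only [ua7]) (by norm_num; linarith only [ua8])) (List.Forall₂.cons (NumIs.V.of_mem (by norm_num) (by norm_num; linarith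 only [ua9]) (by norm_num; linarith only [ua10])) (List.Forall₂.cons (NumIs.V.of_mem (by norm_num) (by norm_num; linarith only [ua11]) (by norm_num; linarith only [ua12])) List.Forall₂.nil))))))
  by_contra hc
  push Not at hc
  simp only [List.mem_cons, List.not_mem_nil, or_false] at hf
  rcases hf with rfl | rfl | rfl
  · simp only [G_val, V_val, ER.pp, ER.rr, ER.hh, ER.x, ER.a, ER.w, ER.b, ER.s, ER.t, E.val, NumIs.lkR] at hp
    push_cast at hp
    linarith only [hc, hp]
  · simp only [G_val, V_val, ER.pp, ER.rr, ER.hh, ER.x, ER.a, ER.w, ER.b, ER.s, ER.t, E.val, NumIs.lkR] at hp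
    push_cast at hp
    linarith only [ua13, hp]
  · simp only [G_val, V_val, ER.pp, ER.rr, ER.hh, ER.x, ER.a, ER.w, ER.b, ER.s, ER.t, E.val, NumIs.lkR] at hp
    push_cast at hp
    linarith only [ua14, hp]

end S0R

end Pool.Agent.Work.MP_b30479_gtS.G2

end

section

/-!
# Part of `S0RX`
-/
set_option linter.unusedSimpArgs false
set_option linter.unusedVariables false

set_option deprecated.oldSectionVars true

namespace Pool.Agent.Work.MP_b30479_gtS.G2

open VOL NumUs

namespace S0R

open NumUs.E EV

theorem xon_h1_q1 : Pool.Agent.Work.NumUs.runT [D 10 3 (q 4200 10000) (1), sub EV.r (sub EV.x (q 1300 10000)), sub (mul (q (-98) 130) EV.w) EV.b, sub (sub EV.T EV.t) (q 1000 10000), sub EV.t (a 10 3)] 38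
    1899820784707243535276570644076762700776663113024760819117313081711630126989871038526537732889520409523823462830908488566115934820661335584218697422786313134964375183260844673674546003715154616143976796716936134021486308671102212507577845884898881572668319437336485850218060726856227167466704390877505657533432435536245654804025019518862887336481473029987866183458458498162167654463912966614826613945142252683532091202433934723280851217467699014348837047529755901235857279507366377532545129088443729200575736462846902842992590024513425465227695614658350615580043183765704912872275799618920203406603576342918165102826457780268960621714823385011270783452124748895623983772425093928552772929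
    (Pool.Agent.Work.NumIs.setL 5 (Pool.Agent.Work.NumIs.setL 4 ([NumIs.V.of 10000 3000 3800, NumIs.V.of 10000 0 570, NumIs.V.of 10000 3100 3900, NumIs.V.of 10000 (-980) 220, NumIs.V.of 10000 500 2500, NumIs.V.of 10000 (-1040) 50]))) =
    217147120261637686540379705815866519919656029436283661990150967698947804535675588136285739347491285323114161647104215453235652539347803172254245829453858055204207850731995559882521498175556348088295458292262384949653466760808946924268226217381460902885712184879716766086929050293642742937947215259071760399617591142575117854239778521788608328201714712883756279787039080985235088811079422115871587830298108999951404128453897100300590169469347856553578720230325859031959888466649139098744961538730298445760267273060982634061132571510958043479499413401134724100784688736095262272200096579905 := by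
  decide +kernel

theorem xon_h1_q2 : Pool.Agent.Work.NumUs.runT [D 10 3 (q 4200 10000) (1), sub EV.r (sub EV.x (q 1300 10000)), sub (mul (q (-98) 130) EV.w) EV.b, sub (sub EV.T EV.t) (q 1000 10000), sub EV.t (a 10 3)] 38
    217147120261637686540379705815866519919656029436283661990150967698947804535675588136285739347491285323114161647104215453235652539347803172254245829453858055204207850731995559882521498175556348088295458292262384949653466760808946924268226217381460902885712184879716766086929050293642742937947215259071760399617591142575117854239778521788608328201714712883756279787039080985235088811079422115871587830298108999951404128453897100300590169469347856553578720230325859031959888466649139098744961538730298445760267273060982634061132571510958043479499413401134724100784688736095262272200096579904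
    (Pool.Agent.Work.NumIs.setR 5 (Pool.Agent.Work.NumIs.setL 4 ([NumIs.V.of 10000 3000 3800, NumIs.V.of 10000 0 570, NumIs.V.of 10000 3100 3900, NumIs.V.of 10000 (-980) 220, NumIs.V.of 10000 500 2500, NumIs.V.of 10000 (-1040) 50]))) =
    416404495736181687821588641880840437308540059610532751899579158653387098027784882105762722355942023894111542356432471153491124157497000375301547477903673495827271089238062944021617240969482823288560204135291175427748522702369800431117467662235854297543333073289997138965060553511158916856533441481292589579172619809411094471577866672393756941802989181195704751377339906742522564011298594412380341717835693194345945692860797035688036079628481946395286904258495888652633324744389132494319696287041 := by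
  decide +kernel

theorem xon_h1_q3 : Pool.Agent.Work.NumUs.runT [D 10 3 (q 4200 10000) (1), sub EV.r (sub EV.x (q 1300 10000)), sub (mul (q (-98) 130) EV.w) EV.b, sub (sub EV.T EV.t) (q 1000 10000), sub EV.t (a 10 3)] 37
    1626580061469459718053080632347032958236484607853643562107731088489793351671034695725635634202898530836373212329814340443324703740222657716021669835561224593075277692336183375084442347537042278470938297403481154014642666806132032934052608055608805849778644817539051324082267787152964518970833755786299178043643046130512087779601041689038113053917926489045721685067734010712978765669135134423360709835295676540413850362737488420656390936048757603106589469759749565049348924782770048805936313621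
    (Pool.Agent.Work.NumIs.setL 4 (Pool.Agent.Work.NumIs.setL 0 (Pool.Agent.Work.NumIs.setR 4 ([NumIs.V.of 10000 3000 3800, NumIs.V.of 10000 0 570, NumIs.V.of 10000 3100 3900, NumIs.V.of 10000 (-980) 220, NumIs.V.of 10000 500 2500, NumIs.V.of 10000 (-1040) 50])))) =
    8336764016716529851421001381102756914319727069367515898117578660463653027666267250983503274182949404219151920368655676899032457426966665046563027516118455875988194422168090067135300878250541088550166923023975478512634194229166329433701178548823591009815576309849701444088195937072582111720773012778036233921108224945027038976027980268969466185206021 := by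
  decide +kernel

theorem xon_h1_q4 : Pool.Agent.Work.NumUs.runT [D 10 3 (q 4200 10000) (1), sub EV.r (sub EV.x (q 1300 10000)), sub (mul (q (-98) 130) EV.w) EV.b, sub (sub EV.T EV.t) (q 1000 10000), sub EV.t (a 10 3)] 37
    8336764016716529851421001381102756914319727069367515898117578660463653027666267250983503274182949404219151920368655676899032457426966665046563027516118455875988194422168090067135300878250541088550166923023975478512634194229166329433701178548823591009815576309849701444088195937072582111720773012778036233921108224945027038976027980268969466185206020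
    (Pool.Agent.Work.NumIs.setR 4 (Pool.Agent.Work.NumIs.setL 0 (Pool.Agent.Work.NumIs.setR 4 ([NumIs.V.of 10000 3000 3800, NumIs.V.of 10000 0 570, NumIs.V.of 10000 3100 3900, NumIs.V.of 10000 (-980) 220, NumIs.V.of 10000 500 2500, NumIs.V.of 10000 (-1040) 50])))) =
    1266596920018310152373825899029935244863612004438201544393352124623546897316488413646558499691432887048915053857100952302074870760985082011320025864772284151031608662574650750559710281205023579283437481307704465225215104118788339351411056948268106936131661556373707734195959359252681750 := by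
  decide +kernel

end S0R

end Pool.Agent.Work.MP_b30479_gtS.G2

end

section

/-!
# Part of `S0RX`
-/
set_option linter.unusedSimpArgs false
set_option linter.unusedVariables false

set_option deprecated.oldSectionVars true

namespace Pool.Agent.Work.MP_b30479_gtS.G2

open VOL NumUs

namespace S0R

open NumUs.E EV

theorem yon {x T w b r t : ℝ} (ua1 : 3600 / 10000 ≤ x) (ua2 : x ≤ 3800 / 10000) (ua3 : -(570 / 10000) ≤ T) (ua4 : T ≤ 50 / 10000) (ua5 : 3100 / 10000 ≤ w) (ua6 : w ≤ 3900 / 10000) (ua7 : -(980 / 10000) ≤ b) (ua8 : b ≤ 220 / 10000) (ua9 : 500 / 10000 ≤ r) (ua10 : r ≤ 2900 / 10000) (ua11 : -(1040 / 10000) ≤ t) (ua12 : t ≤ 50 / 10000) (ua13 : r ≤ x - 900 / 10000) (ua14 : -(98 / 130) * w ≤ b) (ua15 : t ≤ rui (100 / 27) x T) :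
    0 < rD (4400 / 10000) (1) x (rui (100 / 27) x T) w b r t := by
  have h : chkT [D 100 27 (q 4400 10000) (1), sub EV.r (sub EV.x (q 900 10000)), sub (mul (q (-98) 130) EV.w) EV.b, sub EV.t (a 100 27)] 40
    3859181067806789438396058477978787083851076813671818125303919836866114245716
    [NumIs.V.of 10000 3600 3800, NumIs.V.of 10000 (-570) 50, NumIs.V.of 10000 3100 3900, NumIs.V.of 10000 (-980) 220, NumIs.V.of 10000 500 2900, NumIs.V.of 10000 (-1040) 50] = true := by
    decide +kernel
  obtain ⟨f, hf, hp⟩ := chkT_sound h (xs := [x, T, w, b, r, t])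
    (List.Forall₂.cons (NumIs.V.of_mem (by norm_num) (by norm_num; linarith only [ua1]) (by norm_num; linarith only [ua2])) (List.Forall₂.cons (NumIs.V.of_mem (by norm_num) (by norm_num; linarith only [ua3]) (by norm_num; linarith only [ua4])) (List.Forall₂.cons (NumIs.V.of_mem (by norm_num) (by norm_num; linarith only [ua5]) (by norm_num; linarith only [ua6])) (List.Forall₂.cons (NumIs.V.of_mem (by norm_num) (by norm_num; linarith only [ua7]) (by norm_num; linarith only [ua8])) (List.Forall₂.cons (NumIs.V.of_mem (by norm_num) (by norm_num; linarith only [ua9]) (by norm_num; linarith only [ua10])) (List.Forall₂.cons (NumIs.V.of_mem (by norm_num) (by norm_num; linarith only [ua11]) (by norm_num; linarith only [ua12])) List.Forall₂.nil))))))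
  by_contra hc
  push Not at hc
  simp only [List.mem_cons, List.not_mem_nil, or_false] at hf
  rcases hf with rfl | rfl | rfl | rfl
  · simp only [D_val, R_val, h_val, EE.ui_val, EV.a, EV.x, EV.T, EV.w, EV.b, EV.r, EV.t, E.val, NumIs.lkR] at hp
    push_cast at hp
    linarith only [hc, hp]
  · simp only [D_val, R_val, h_val, EE.ui_val, EV.a, EV.x, EV.T, EV.w, EV.b, EV.r, EV.t, E.val, NumIs.lkR] at hp
    push_cast at hp
    linarith only [ua13, hp]
  · simp only [D_val, R_val, h_val, EE.ui_val, EV.a, EV.x, EV.T, EV.w, EV.b, EV.r, EV.t, E.val, NumIs.lkR] at hp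
    push_cast at hp
    linarith only [ua5, ua7, hp]
  · simp only [D_val, R_val, h_val, EE.ui_val, EV.a, EV.x, EV.T, EV.w, EV.b, EV.r, EV.t, E.val, NumIs.lkR] at hp
    push_cast at hp
    linarith only [ua15, hp]

theorem yop {x T w b r t : ℝ} (ua1 : 3600 / 10000 ≤ x) (ua2 : x ≤ 3800 / 10000) (ua3 : -(570 / 10000) ≤ T) (ua4 : T ≤ 50 / 10000) (ua5 : 3100 / 10000 ≤ w) (ua6 : w ≤ 3900 / 10000) (ua7 : -(980 / 10000) ≤ b) (ua8 : b ≤ 220 / 10000) (ua9 : 500 / 10000 ≤ r) (ua10 : r ≤ 2900 / 10000) (ua11 : -(570 / 10000) ≤ t) (ua12 : t ≤ 50 / 10000) (ua13 : r ≤ x - 900 / 10000) (ua14 : -(98 / 130) * w ≤ b) (ua15 : t - T ≤ 280 / 10000) (ua16 : rui (100 / 27) x T ≤ t) :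
    0 < rD (4400 / 10000) (-1) x (rui (100 / 27) x T) w b r t := by
  have h : chkT [D 100 27 (q 4400 10000) (-1), sub EV.r (sub EV.x (q 900 10000)), sub (mul (q (-98) 130) EV.w) EV.b, sub (sub EV.t EV.T) (q 280 10000), sub (a 100 27) EV.t] 40
    10314562103666237083517764
    [NumIs.V.of 10000 3600 3800, NumIs.V.of 10000 (-570) 50, NumIs.V.of 10000 3100 3900, NumIs.V.of 10000 (-980) 220, NumIs.V.of 10000 500 2900, NumIs.V.of 10000 (-570) 50] = true := by
    decide +kernel
  obtain ⟨f, hf, hp⟩ := chkT_sound h (xs := [x, T, w, b, r, t])
    (List.Forall₂.cons (NumIs.V.of_mem (by norm_num) (by norm_num; linarith only [ua1]) (by norm_num; linarith only [ua2])) (List.Forall₂.cons (NumIs.V.of_mem (by norm_num) (by norm_num; linarith only [ua3]) (by norm_num; linarith only [ua4])) (List.Forall₂.cons (NumIs.V.of_mem (by norm_num) (by norm_num; linarith only [ua5]) (by norm_num; linarith only [ua6])) (List.Forall₂.cons (NumIs.V.of_mem (by norm_num) (by norm_num; linarith only [ua7]) (by norm_num; linarith only [ua8])) (List.Forall₂.cons (NumIs.V.of_mem (by norm_num) (by norm_num; linarith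 only [ua9]) (by norm_num; linarith only [ua10])) (List.Forall₂.cons (NumIs.V.of_mem (by norm_num) (by norm_num; linarith only [ua11]) (by norm_num; linarith only [ua12])) List.Forall₂.nil))))))
  by_contra hc
  push Not at hc
  simp only [List.mem_cons, List.not_mem_nil, or_false] at hf
  rcases hf with rfl | rfl | rfl | rfl | rfl
  · simp only [D_val, R_val, h_val, EE.ui_val, EV.a, EV.x, EV.T, EV.w, EV.b, EV.r, EV.t, E.val, NumIs.lkR] at hp
    push_cast at hp
    linarith only [hc, hp]
  · simp only [D_val, R_val, h_val, EE.ui_val, EV.a, EV.x, EV.T, EV.w, EV.b, EV.r, EV.t, E.val, NumIs.lkR] at hp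
    push_cast at hp
    linarith only [ua13, hp]
  · simp only [D_val, R_val, h_val, EE.ui_val, EV.a, EV.x, EV.T, EV.w, EV.b, EV.r, EV.t, E.val, NumIs.lkR] at hp
    push_cast at hp
    linarith only [ua5, ua7, hp]
  · simp only [D_val, R_val, h_val, EE.ui_val, EV.a, EV.x, EV.T, EV.w, EV.b, EV.r, EV.t, E.val, NumIs.lkR] at hp
    push_cast at hp
    linarith only [ua15, hp]
  · simp only [D_val, R_val, h_val, EE.ui_val, EV.a, EV.x, EV.T, EV.w, EV.b, EV.r, EV.t, E.val, NumIs.lkR] at hp
    push_cast at hp
    linarith only [ua16, hp]

end S0R

end Pool.Agent.Work.MP_b30479_gtS.G2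

end
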