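import Pool.Agent.Work.MP_b30479_gt.TBS.G2.RV
import Pool.Agent.Work.MP_b30479_gt.TBS.G2.S0RF_4
import Pool.Agent.Work.MP_b30479_gt.TBS.G2.S0RD
import Pool.Agent.Work.MP_b30479_gt.TBS.G2.S0RY
import Pool.Agent.Work.MP_b30479_gt.TBS.G2.S0RC
import Pool.Agent.Work.MP_b30479_gt.TBS.G2.S0RX_5
import Pool.Agent.Work.MP_b30479_gt.TBS.G2.S0RR_4
import Pool.Agent.Work.MP_b30479_gt.TBS.G2.S0RV4_5
import Pool.Agent.Work.MP_b30479_gt.TBS.G2.MRBase

section

/-!
# The own side of an interior `3` at slot `0`: angles behind and beside the strip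
-/

set_option linter.unusedVariables false

namespace Pool.Agent.Work.MP_b30479_gtS.G2

open VOL NumUs

namespace S0R

/-! ### the right ramp of the inner variable -/

theorem mul_le_of_nonpos {t a b : ℝ} (ht : t ≤ 0) (h : a ≤ b) : -20 * t * a ≤ -20 * t * b :=
  mul_le_mul_of_nonneg_left h (by linarith only [ht])

theorem mul_le_of_nonneg {t a b : ℝ} (ht : 0 ≤ t) (h : b ≤ a) : -20 * t * a ≤ -20 * t * b := by
  have := mul_le_mul_of_nonneg_left h (by linarith only [ht] : 0 ≤ 20 * t)
  linarith only [this]

theorem YY_le_neg {z : ℂ} {q : ℝ} (hy : z.im < 0) (h0 : 0 < q) (h1 : q < 1) (h : q ≤ z.re) :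
    YY z ≤ -NumIs.lnB q z.im := by
  have hs : (⟨q, z.im⟩ : ℂ) ∈ strip := ⟨h0, h1⟩
  have e : YY ⟨q, z.im⟩ = -NumIs.lnB q z.im := Num.YY_lnB hs
  rw [← e, YY_neg hy, YY_neg (by exact hy)]
  have := Tr_mono (s := -z.im) (by linarith only [hy]) h
  simp only
  linarith only [this]

theorem YY_le_pos {z : ℂ} {q : ℝ} (hy : 0 ≤ z.im) (h0 : 0 < q) (h1 : q < 1) (h : z.re ≤ q) :
    YY z ≤ -NumIs.lnB q z.im := by
  have hs : (⟨q, z.im⟩ : ℂ) ∈ strip := ⟨h0, h1⟩
  have e : YY ⟨q, z.im⟩ = -NumIs.lnB q z.im := Num.YY_lnB hs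
  rcases hy.eq_or_lt with hy | hy
  · rw [← e, YY_zero hy.symm, YY_zero (by exact hy.symm)]
  · rw [← e, YY_pos hy, YY_pos (by exact hy)]
    have := Tr_mono (s := z.im) hy h
    simp only
    linarith only [this]

theorem YY_le_one {z : ℂ} (hy : 0 ≤ z.im) (h : z.re ≤ 1) : YY z ≤ Real.pi * (1 / 2) := by
  have hpi := Real.pi_pos
  rcases hy.eq_or_lt with hy | hy
  · rw [YY_zero hy.symm]
    positivity
  · rw [YY_pos hy]
    have := Tr_mono (s := z.im) hy h
    rw [Tr_one hy] at this
    linarith only [this]

theorem neg_pi_le_YY {z : ℂ} (h0 : 0 ≤ z.re) (h : z.re ≤ 3 / 2) : -Real.pi ≤ YY z := by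
  have hpi := Real.pi_pos
  rcases lt_trichotomy z.im 0 with hy | hy | hy
  · rw [YY_neg hy]
    have := Tr_mono (s := -z.im) (by linarith only [hy]) h
    rw [show (3 / 2 : ℝ) = 1 / 2 + 1 by norm_num, Tr_add_one, Tr_half (by linarith only [hy])] at this
    linarith only [this]
  · rw [YY_zero hy]
    linarith only [hpi]
  · rw [YY_pos hy]
    have := Tr_mono (s := z.im) hy h0
    rw [DT.Tr_zero hy] at this
    linarith only [hpi, this]

/-- values at the point behind `1` -/
theorem behind {z : ℂ} (h0 : 1 < z.re) (h1 : z.re < 2) :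
    LL z = NumIs.lnA (z.re - 1) z.im ∧ (z.im < 0 → YY z = -Real.pi - NumIs.lnB (z.re - 1) z.im) := by
  have h : z - 1 ∈ strip := by
    constructor <;> simp only [Complex.sub_re, Complex.one_re] <;> linarith only [h0, h1]
  have e1 := LL_add_one (z - 1)
  have e2 := YY_add_one (z - 1)
  rw [sub_add_cancel] at e1 e2
  have f1 := Num.LL_lnA h
  have f2 := Num.YY_lnB h
  simp only [Complex.sub_re, Complex.one_re, Complex.sub_im, Complex.one_im, sub_zero] at f1 f2
  refine ⟨by rw [e1, f1], fun hy => ?_⟩
  have hi' : (z - 1).im < 0 := by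
    simp only [Complex.sub_im, Complex.one_im]
    linarith only [hy]
  rw [if_neg (not_lt.2 hi'.le), if_pos hi'] at e2
  rw [e2, f2]
  ring

end S0R

end Pool.Agent.Work.MP_b30479_gtS.G2

end

section

/-!
# Part of `S0RR`
-/
set_option linter.unusedSimpArgs false
set_option linter.unusedVariables false

namespace Pool.Agent.Work.MP_b30479_gtS.G2

open VOL NumUs

namespace S0R

open NumUs.E ER

theorem roa {x a w b s t : ℝ} (ua1 : 3000 / 10000 ≤ x) (ua2 : x ≤ 5000 / 10000) (ua3 : -(570 / 10000) ≤ a) (ua4 : a ≤ 570 / 10000) (ua5 : 700 / 10000 ≤ w) (ua6 : w ≤ 1800 / 10000) (ua7 : -(980 / 10000) ≤ b) (ua8 : b ≤ 570 / 10000) (ua9 : 0 / 10000 ≤ s) (ua10 : s ≤ 500 / 10000) (ua11 : -(1040 / 10000) ≤ t) (ua12 : t ≤ 50 / 10000) (ua13 : 8 / 10 - s + w ≤ 9300 / 10000) :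
    rG (8 / 10 - s + w) (-NumIs.lnB (8 / 10 - s + w) (20 * (t * s) + b)) x a w b s t < 0 := by
  have h : chkT [neg (G pp (neg (E.lnB pp (add hh ER.b)))), sub pp (q 9300 10000)] 40
    9269092582483181531623960755530885363274162245172465055687930769444955575934592185480006733557701126283058913764679532537865450595876095125014548039341853261630774366549653598111986898793837821550708797325071521117140269860845479084333129750192781982916453759403745118005698262217879203178095036694614454495579053610933625348566679227886257145943629270993349750012935893164569558599482561379730006176612201308588636995045390252252207691302982140386109674117904584392967369728374884913704041977141963896815880379562537921046938917666043202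
    [NumIs.V.of 10000 3000 5000, NumIs.V.of 10000 (-570) 570, NumIs.V.of 10000 700 1800, NumIs.V.of 10000 (-980) 570, NumIs.V.of 10000 0 500, NumIs.V.of 10000 (-1040) 50] = true :=
      Pool.Agent.Work.NumUs.chkT_of (Pool.Agent.Work.NumUs.runT_split rfl rfl rfl
        roa_h1_q1
        roa_h1_q2)
  obtain ⟨f, hf, hp⟩ := chkT_sound h (xs := [x, a, w, b, s, t])
    (List.Forall₂.cons (NumIs.V.of_mem (by norm_num) (by norm_num; linarith only [ua1]) (by norm_num; linarith only [ua2])) (List.Forall₂.cons (NumIs.V.of_mem (by norm_num) (by norm_num; linarith only [ua3]) (by norm_num; linarith only [ua4])) (List.Forall₂.cons (NumIs.V.of_mem (by norm_num) (by norm_num; linarith only [ua5]) (by norm_num; linarith only [ua6])) (List.Forall₂.cons (NumIs.V.of_mem (by norm_num) (by norm_num; linarith only [ua7]) (by norm_num; linarith only [ua8])) (List.Forall₂.cons (NumIs.V.of_mem (by norm_num) (by norm_num; linarith only [ua9]) (by norm_num; linarith only [ua10])) (List.Forall₂.cons (NumIs.V.of_mem (by norm_num) (by norm_num;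 linarith only [ua11]) (by norm_num; linarith only [ua12])) List.Forall₂.nil))))))
  by_contra hc
  push Not at hc
  simp only [List.mem_cons, List.not_mem_nil, or_false] at hf
  rcases hf with rfl | rfl
  · simp only [G_val, V_val, ER.pp, ER.rr, ER.hh, ER.x, ER.a, ER.w, ER.b, ER.s, ER.t, E.val, NumIs.lkR] at hp
    push_cast at hp
    linarith only [hc, hp]
  · simp only [G_val, V_val, ER.pp, ER.rr, ER.hh, ER.x, ER.a, ER.w, ER.b, ER.s, ER.t, E.val, NumIs.lkR] at hp
    push_cast at hp
    linarith only [ua13, hp]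

end S0R

end Pool.Agent.Work.MP_b30479_gtS.G2

end

section

/-!
# The own side of an interior `3` at slot `0`, right ramp: the inner variable on its right ramp

`u` the hinge, `v` the inner variable, `w` the hinge in the slot `2`.
-/

set_option linter.unusedVariables false

set_option deprecated.oldSectionVars true

namespace Pool.Agent.Work.MP_b30479_gtS.G2

open VOL NumUs

namespace S0R

/-- windows on the ramp: right neighbour `1`, or not -/
def KR (t : ℝ) (w : ℂ) : Prop :=
  (-(114 / 1000) ≤ t ∧ t ≤ -(15 / 1000) ∧ 7 / 100 ≤ w.re ∧ w.re ≤ 39 / 100 ∧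
    -(1145 / 10000) ≤ w.im ∧ w.im ≤ -(98 / 10000)) ∨
  (-(104 / 1000) ≤ t ∧ t ≤ 5 / 1000 ∧ 7 / 100 ≤ w.re ∧ w.re ≤ 31 / 100 ∧
    -(98 / 1000) ≤ w.im ∧ w.im ≤ 57 / 1000) ∨
  (-(104 / 1000) ≤ t ∧ t ≤ 5 / 1000 ∧ 31 / 100 ≤ w.re ∧ w.re ≤ 39 / 100 ∧
    -(22 / 1000) ≤ w.im ∧ w.im ≤ 22 / 1000)

theorem KR_of {T t : ℝ} {w : ℂ} (h : K1 T t w ∨ Ko T t w ∨ KZ T t w)
    (h3 : Ko T t w → w.re ≤ 31 / 100 ∨ |w.im| ≤ 22 / 1000) : KR t w := by
  rcases h with h | h | h
  · exact Or.inl ⟨h.t0, h.t1, h.w0, h.w1, h.i0, h.i1⟩
  · rcases le_or_gt w.re (31 / 100) with h4 | h4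
    · exact Or.inr (Or.inl ⟨h.t0, h.t1, h.w0, h4, h.i0, h.i1.trans (by norm_num)⟩)
    · have h5 : -(22 / 1000) ≤ w.im := by
        rcases h3 h with h5 | h5
        · exact absurd h5 (not_le.2 h4)
        · exact (abs_le.1 h5).1
      exact Or.inr (Or.inr ⟨h.t0, h.t1, h4.le, h.w1, h5, h.i1⟩)
  · exact Or.inr (Or.inl ⟨le_trans (by norm_num) h.t0, h.t1.trans (by norm_num), h.w0, h.w1, h.i0,
      h.i1⟩)

/-- **The inner variable is not on its right ramp** -/
theorem no_ramp {s t : ℝ} {u v w : ℂ} (hx : 3 / 10 ≤ u.re) (hx' : u.re ≤ 1 / 2)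
    (ha : |u.im| ≤ 57 / 1000) (hK : KR t w) (hv : v.re = 8 / 10 - s) (hv' : v.im = 20 * (t * s))
    (hs : 0 ≤ s) (hs' : s ≤ 5 / 100) (hS : 0 ≤ SM (-20 * t) u v w)
    (hval : ∀ c : ℝ, 5 / 100 ≤ c → c ≤ 75 / 100 → ∀ v' : ℂ, v'.re = c → v'.im = t →
      V3 u v' w ≤ V3 u v w) (hr : SinNe (v + w)) : False := by
  obtain ⟨a0, a1⟩ := abs_le.1 ha
  have hpi := Real.pi_pos
  have hre : (v + w).re = 8 / 10 - s + w.re := by rw [Complex.add_re, hv]
  have him : (v + w).im = 20 * (t * s) + w.im := by rw [Complex.add_im, hv']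
  have core : ∀ {q Y : ℝ}, LL (v + w) ≤ NumIs.lnA q (20 * (t * s) + w.im) →
      -20 * t * YY (v + w) ≤ -20 * t * Y → rG q Y u.re u.im w.re w.im s t < 0 → False := by
    intro q Y h1 h2 h3
    refine absurd hS (not_le.2 (ramp_core hv hv' (by linarith only [hx', hv, hs']) (by linarith only [hx, hv, hs]) (by linarith only [hv, hs'])
      (by linarith only [hv, hs]) ?_ h2 h3))
    rw [hv']
    exact h1
  have exact1 : (v + w).re < 1 → 0 < (v + w).re →
      LL (v + w) ≤ NumIs.lnA (8 / 10 - s + w.re) (20 * (t * s) + w.im) ∧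
      YY (v + w) = -NumIs.lnB (8 / 10 - s + w.re) (20 * (t * s) + w.im) := by
    intro h1 h2
    have hst : v + w ∈ strip := ⟨h2, h1⟩
    rw [Num.LL_lnA hst, Num.YY_lnB hst, hre, him]
    exact ⟨le_rfl, rfl⟩
  have hf : 93 / 100 ≤ 8 / 10 - s + w.re → 8 / 10 - s + w.re ≤ 107 / 100 →
      LL (v + w) ≤ NumIs.lnA (9300 / 10000) (20 * (t * s) + w.im) := by
    intro h1 h2
    rw [← him]
    exact LL_far (by norm_num) (by norm_num) (by rw [hre]; linarith only [h1]) (by rw [hre]; linarith only [h2]) hr
  have hval0 : ∀ {P c : ℝ}, 5 / 100 ≤ c → c ≤ 75 / 100 →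
      uu (8 / 10 - s + w.re) (20 * (t * s) + w.im) ≤ P →
      rV P u.re u.im w.re w.im (8 / 10 - s) (20 * (t * s)) <
        rV (uu (c + w.re) (t + w.im)) u.re u.im w.re w.im c t → False := by
    intro P c g1 g2 h1 h2
    have h3 := hval c g1 g2 ⟨c, t⟩ rfl rfl
    rw [V3_rV, V3_rV] at h3
    simp only [hv, hv'] at h3
    unfold rV at h2 h3
    linarith only [h1, h2, h3]
  rcases hK with ⟨t0, t1, w0, w1, i0, i1⟩ | ⟨t0, t1, w0, w1, i0, i1⟩ | ⟨t0, t1, w0, w1, i0, i1⟩
  rotate_left 2
  · obtain ⟨c, hc⟩ : ∃ c : ℝ, w.re = c + (2 / 10 + s) := ⟨w.re - (2 / 10 + s), by ring⟩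
    rcases le_total 0 (20 * (t * s) + w.im) with hy | hy
    · refine hval0 (c := 54 / 100)
        (P := uu c (20 * (t * s) + w.im) + Real.pi * (20 * (t * s) + w.im)) (by norm_num)
        (by norm_num) ?_ ?_
      · rw [show 8 / 10 - s + w.re = c + 1 by rw [hc]; ring, uu_add_one, abs_of_nonneg hy]
      · rw [hc]
        rw [hc] at w0 w1
        exact (wpp (le_trans (by norm_num) hx) (le_trans hx' (by norm_num)) (le_trans (by norm_num) a0) (le_trans a1 (by norm_num)) (by linarith only [hs', w0]) (by linarith only [hs, w1]) (le_trans (by norm_num) i0) (le_trans i1 (by norm_num)) (le_trans (by norm_num) hs) (le_trans hs' (by norm_num)) (le_trans (by norm_num) t0) (le_trans t1 (by norm_num)) hy)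
    · refine hval0 (c := 54 / 100)
        (P := uu c (20 * (t * s) + w.im) - Real.pi * (20 * (t * s) + w.im)) (by norm_num)
        (by norm_num) ?_ ?_
      · rw [show 8 / 10 - s + w.re = c + 1 by rw [hc]; ring, uu_add_one, abs_of_nonpos hy]
        apply le_of_eq
        ring
      · rw [hc]
        rw [hc] at w0 w1
        exact (wpn (le_trans (by norm_num) hx) (le_trans hx' (by norm_num)) (le_trans (by norm_num) a0) (le_trans a1 (by norm_num)) (by linarith only [hs', w0]) (by linarith only [hs, w1]) (le_trans (by norm_num) i0) (le_trans i1 (by norm_num)) (le_trans (by norm_num) hs) (le_trans hs' (by norm_num)) (le_trans (by norm_num) t0) (le_trans t1 (by norm_num)) hy)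
  · have hy : 20 * (t * s) + w.im < 0 := by
      have : t * s ≤ 0 := mul_nonpos_of_nonpos_of_nonneg (le_trans t1 (by norm_num)) hs
      linarith only [i1, this]
    rcases le_total (8 / 10 - s + w.re) (93 / 100) with h | h
    · obtain ⟨e1, e2⟩ := exact1 (by rw [hre]; linarith only [h]) (by rw [hre]; linarith only [hs', w0])
      exact core e1 (by rw [e2]) (r1a (le_trans (by norm_num) hx) (le_trans hx' (by norm_num)) (le_trans (by norm_num) a0) (le_trans a1 (by norm_num)) (le_trans (by norm_num) w0) (by linarith only [hs', h]) i0 i1 (le_trans (by norm_num) hs) (le_trans hs' (by norm_num)) (le_trans (by norm_num) t0) (le_trans t1 (by norm_num)) (le_trans h (by norm_num)))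
    rcases le_total (8 / 10 - s + w.re) (107 / 100) with h' | h'
    · refine core (hf h h') (mul_le_of_nonpos (le_trans t1 (by norm_num)) ?_) (r1b (le_trans (by norm_num) hx) (le_trans hx' (by norm_num)) (le_trans (by norm_num) a0) (le_trans a1 (by norm_num)) (by linarith only [hs, h]) (by linarith only [hs', h']) i0 i1 (le_trans (by norm_num) hs) (le_trans hs' (by norm_num)) (le_trans (by norm_num) t0) (le_trans t1 (by norm_num)) (le_trans (by norm_num) h) (le_trans h' (by norm_num)))
      rw [← him]
      exact YY_le_neg (by rw [him]; exact hy) (by norm_num) (by norm_num) (by rw [hre]; linarith only [h])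
    · obtain ⟨e1, e2⟩ := behind (z := v + w) (by rw [hre]; linarith only [h']) (by rw [hre]; linarith only [hs, w1])
      have e3 := e2 (by rw [him]; exact hy)
      rw [hre, him] at e1 e3
      exact core e1.le (by rw [e3]) (r1c (le_trans (by norm_num) hx) (le_trans hx' (by norm_num)) (le_trans (by norm_num) a0) (le_trans a1 (by norm_num)) (by linarith only [hs, h']) (le_trans w1 (by norm_num)) i0 i1 (le_trans (by norm_num) hs) (le_trans hs' (by norm_num)) (le_trans (by norm_num) t0) (le_trans t1 (by norm_num)) (le_trans (by norm_num) h'))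
  · have hval2 : ∀ {P : ℝ}, uu (8 / 10 - s + w.re) (20 * (t * s) + w.im) ≤ P →
        rV P u.re u.im w.re w.im (8 / 10 - s) (20 * (t * s)) <
          rV (uu (58 / 100 + w.re) (t + w.im)) u.re u.im w.re w.im (58 / 100) t → False := by
      intro P h1 h2
      exact hval0 (by norm_num) (by norm_num) h1 h2
    rcases le_total (8 / 10 - s + w.re) (93 / 100) with h | h
    · obtain ⟨e1, e2⟩ := exact1 (by rw [hre]; linarith only [h]) (by rw [hre]; linarith only [hs', w0])
      exact core e1 (by rw [e2]) (roa (le_trans (by norm_num) hx) (le_trans hx' (by norm_num)) (le_trans (by norm_num) a0) (le_trans a1 (by norm_num)) (le_trans (by norm_num) w0) (by linarith only [hs', h]) (le_trans (by norm_num) i0) (le_trans i1 (by norm_num)) (le_trans (by norm_num) hs) (le_trans hs' (by norm_num)) (le_trans (by norm_num) t0) (le_trans t1 (by norm_num)) (le_trans h (by norm_num)))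
    rcases le_total 0 t with ht | ht
    · have hb : -(6 / 1000) ≤ w.im ∨ 20 * (t * s) + w.im < 0 := by
        have : t * s ≤ 5 / 1000 * (5 / 100) := mul_le_mul t1 hs' hs (by norm_num)
        rcases lt_or_ge w.im (-(6 / 1000)) with h9 | h9
        · right
          linarith only [this, h9]
        · exact Or.inl h9
      rcases le_total (8 / 10 - s + w.re) (107 / 100) with h' | h'
      · refine core (hf h h') (mul_le_of_nonneg ht ?_) (rot (le_trans (by norm_num) hx) (le_trans hx' (by norm_num)) (le_trans (by norm_num) a0) (le_trans a1 (by norm_num)) (by linarith only [hs, h]) (le_trans w1 (by norm_num)) (le_trans (by norm_num) i0) (le_trans i1 (by norm_num)) (le_trans (by norm_num) hs) (le_trans hs' (by norm_num)) (le_trans (by norm_num) ht) (le_trans t1 (by norm_num)) (le_trans (by norm_num) h) (le_trans h' (by norm_num)))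
        exact neg_pi_le_YY (by rw [hre]; linarith only [h]) (by rw [hre]; linarith only [hs, w1])
      · rcases lt_or_ge (20 * (t * s) + w.im) 0 with hy | hy
        · obtain ⟨e1, e2⟩ := behind (z := v + w) (by rw [hre]; linarith only [h']) (by rw [hre]; linarith only [hs, w1])
          have e3 := e2 (by rw [him]; exact hy)
          rw [hre, him] at e1 e3
          exact core e1.le (by rw [e3]) (roc (le_trans (by norm_num) hx) (le_trans hx' (by norm_num)) (le_trans (by norm_num) a0) (le_trans a1 (by norm_num)) (by linarith only [hs, h']) (le_trans w1 (by norm_num)) (le_trans (by norm_num) i0) (le_trans i1 (by norm_num)) (le_trans (by norm_num) hs) (le_trans hs' (by norm_num)) (le_trans (by norm_num) ht) (le_trans t1 (by norm_num)) (le_trans (by norm_num) h') hy.le)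
        · replace hb : -(6 / 1000) ≤ w.im := by
            rcases hb with hb | hb
            · exact hb
            · exact absurd hb (not_lt.2 hy)
          obtain ⟨c, hc⟩ : ∃ c : ℝ, w.re = c + (2 / 10 + s) := ⟨w.re - (2 / 10 + s), by ring⟩
          refine hval2 (P := uu c (20 * (t * s) + w.im) + Real.pi * (20 * (t * s) + w.im)) ?_ ?_
          · rw [show 8 / 10 - s + w.re = c + 1 by rw [hc]; ring, uu_add_one, abs_of_nonneg hy]
          · rw [hc]
            rw [hc] at w0 w1 h h'
            exact (wd (le_trans (by norm_num) hx) (le_trans hx' (by norm_num)) (le_trans (by norm_num) a0) (le_trans a1 (by norm_num)) (by linarith only [h']) (by linarith only [hs, w1]) (le_trans (by norm_num) hb) (le_trans i1 (by norm_num)) (le_trans (by norm_num) hs) (le_trans hs' (by norm_num)) (le_trans (by norm_num) ht) (le_trans t1 (by norm_num)) hy)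
    · rcases lt_or_ge (20 * (t * s) + w.im) 0 with hy | hy
      · rcases le_total (8 / 10 - s + w.re) (107 / 100) with h' | h'
        · refine core (hf h h') (mul_le_of_nonpos ht ?_) (rob (le_trans (by norm_num) hx) (le_trans hx' (by norm_num)) (le_trans (by norm_num) a0) (le_trans a1 (by norm_num)) (by linarith only [hs, h]) (le_trans w1 (by norm_num)) (le_trans (by norm_num) i0) (le_trans i1 (by norm_num)) (le_trans (by norm_num) hs) (le_trans hs' (by norm_num)) (le_trans (by norm_num) t0) (le_trans ht (by norm_num)) (le_trans (by norm_num) h) (le_trans h' (by norm_num)) hy.le)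
          rw [← him]
          exact YY_le_neg (by rw [him]; exact hy) (by norm_num) (by norm_num)
            (by rw [hre]; linarith only [h])
        · obtain ⟨e1, e2⟩ := behind (z := v + w) (by rw [hre]; linarith only [h']) (by rw [hre]; linarith only [hs, w1])
          have e3 := e2 (by rw [him]; exact hy)
          rw [hre, him] at e1 e3
          exact core e1.le (by rw [e3]) (roc (le_trans (by norm_num) hx) (le_trans hx' (by norm_num)) (le_trans (by norm_num) a0) (le_trans a1 (by norm_num)) (by linarith only [hs, h']) (le_trans w1 (by norm_num)) (le_trans (by norm_num) i0) (le_trans i1 (by norm_num)) (le_trans (by norm_num) hs) (le_trans hs' (by norm_num)) (le_trans (by norm_num) t0) (le_trans ht (by norm_num)) (le_trans (by norm_num) h') hy.le)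
      · have hb : 0 ≤ w.im := by
          have : t * s ≤ 0 := mul_nonpos_of_nonpos_of_nonneg ht hs
          linarith only [hy, this]
        rcases le_total (8 / 10 - s + w.re) (97 / 100) with h1 | h1
        · refine core (hf h (le_trans h1 (by norm_num))) (mul_le_of_nonpos ht ?_) (ga (le_trans (by norm_num) hx) (le_trans hx' (by norm_num)) (le_trans (by norm_num) a0) (le_trans a1 (by norm_num)) (by linarith only [hs, h]) (by linarith only [hs', h1]) (le_trans (by norm_num) hb) (le_trans i1 (by norm_num)) (le_trans (by norm_num) hs) (le_trans hs' (by norm_num)) (le_trans (by norm_num) t0) (le_trans ht (by norm_num)) (le_trans (by norm_num) h) (le_trans h1 (by norm_num)) hy)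
          rw [← him]
          exact YY_le_pos (by rw [him]; exact hy) (by norm_num) (by norm_num)
            (by rw [hre]; linarith only [h1])
        rcases le_total (8 / 10 - s + w.re) 1 with h2 | h2
        · refine core (q := 9700 / 10000) ?_ (mul_le_of_nonpos ht
            (YY_le_one (by rw [him]; exact hy) (by rw [hre]; exact h2))) (gb (le_trans (by norm_num) hx) (le_trans hx' (by norm_num)) (le_trans (by norm_num) a0) (le_trans a1 (by norm_num)) (by linarith only [hs, h1]) (by linarith only [hs', h2]) (le_trans (by norm_num) hb) (le_trans i1 (by norm_num)) (le_trans (by norm_num) hs) (le_trans hs' (by norm_num)) (le_trans (by norm_num) t0) (le_trans ht (by norm_num)) (le_trans (by norm_num) h1) (le_trans h2 (by norm_num)) hy)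
          rw [← him]
          exact LL_far (by norm_num) (by norm_num) (by rw [hre]; linarith only [h1]) (by rw [hre]; linarith only [h2])
            hr
        rcases le_total (8 / 10 - s + w.re) (103 / 100) with h3 | h3
        · refine hval2 (P := Real.pi * (1 / 2) * (20 * (t * s) + w.im)) ?_ (wb (le_trans (by norm_num) hx) (le_trans hx' (by norm_num)) (le_trans (by norm_num) a0) (le_trans a1 (by norm_num)) (by linarith only [hs, h2]) (by linarith only [hs', h3]) (le_trans (by norm_num) hb) (le_trans i1 (by norm_num)) (le_trans (by norm_num) hs) (le_trans hs' (by norm_num)) (le_trans (by norm_num) t0) (le_trans ht (by norm_num)) h2 h3 hy)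
          have h4 := RV.anti1 (a := 1) (b := 8 / 10 - s + w.re) (y := 20 * (t * s) + w.im)
            (by norm_num) h2 (le_trans h3 (by norm_num)) (by
              have : t * s ≤ 0 := mul_nonpos_of_nonpos_of_nonneg ht hs
              rw [abs_of_nonneg hy]
              linarith only [i1, this])
          refine h4.trans ?_
          rw [show (1 : ℝ) = 0 + 1 by ring, uu_add_one, UA.uu_zero, abs_of_nonneg hy]
          apply le_of_eq
          ring
        · obtain ⟨c, hc⟩ : ∃ c : ℝ, w.re = c + (2 / 10 + s) := ⟨w.re - (2 / 10 + s), by ring⟩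
          refine hval2 (P := uu c (20 * (t * s) + w.im) + Real.pi * (20 * (t * s) + w.im)) ?_ ?_
          · rw [show 8 / 10 - s + w.re = c + 1 by rw [hc]; ring, uu_add_one, abs_of_nonneg hy]
          · rw [hc]
            rw [hc] at w0 w1 h h1 h2 h3
            exact (wd (le_trans (by norm_num) hx) (le_trans hx' (by norm_num)) (le_trans (by norm_num) a0) (le_trans a1 (by norm_num)) (by linarith only [h3]) (by linarith only [hs, w1]) (le_trans (by norm_num) hb) (le_trans i1 (by norm_num)) (le_trans (by norm_num) hs) (le_trans hs' (by norm_num)) (le_trans (by norm_num) t0) (le_trans ht (by norm_num)) hy)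

/-- **`A = 2e`, the inner variable on its right ramp**: the side -/
theorem ramp_twoE {s t T : ℝ} {u v : ℂ} (hx : 3 / 10 ≤ u.re) (hx' : u.re ≤ 1 / 2)
    (hu : u.im = 10 / 3 * T * (6 / 10 - u.re)) (hT : -(98 / 1000) ≤ T) (hT' : T ≤ -(76 / 1000))
    (ht : -(123 / 1000) ≤ t) (ht' : t ≤ -(64 / 1000)) (hv : v.re = 8 / 10 - s)
    (hv' : v.im = 20 * (t * s)) (hs : 0 ≤ s) (hs' : s ≤ 5 / 100) :
    S3 1 (-(10 / 3 * T)) u v < 57 / 100 + 5 / 2 * (10 / 3 * T) := by
  have h : chkT [E.sub (E.add (E.q 57 100) (E.mul (E.q 5 2) (EE.kT 10 3))) (EE.Sg 10 3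
      (E.sub (E.sub (E.q 8 10) (E.var 2)) (E.var 0)) (E.mul (E.q 20 1) (E.mul (E.var 3) (E.var 2))))]
      40 40149917338755460530688
      [NumIs.V.of 10000 3000 5000, NumIs.V.of 10000 (-980) (-760), NumIs.V.of 10000 0 500,
        NumIs.V.of 10000 (-1230) (-640)] = true := by
    decide +kernel
  obtain ⟨f, hf, hp⟩ := chkT4 h (by norm_num) (x := u.re) (y := T) (z := s) (w := t)
    (by norm_num; linarith only [hx]) (by norm_num; linarith only [hx']) (by norm_num; linarith only [hT]) (by norm_num; linarith only [hT'])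
    (by norm_num; linarith only [hs]) (by norm_num; linarith only [hs']) (by norm_num; linarith only [ht]) (by norm_num; linarith only [ht'])
  simp only [List.mem_cons, List.not_mem_nil, or_false] at hf
  subst hf
  simp only [EE.Sg_val, EE.kT, EE.T, E.val, NumIs.lkR] at hp
  push_cast at hp
  rw [S3_eq (by linarith only [hx', hv, hs']) (by linarith only [hx, hv, hs]) (lt_of_lt_of_le (by norm_num) hx) (lt_of_le_of_lt hx' (by norm_num)), hu, hv', hv]
  unfold rS rM rui at hp
  simp only [div_one] at hp
  rw [show u.re + (8 / 10 - s - u.re) = 8 / 10 - s by ring] at hp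
  linarith only [hp]

end S0R

end Pool.Agent.Work.MP_b30479_gtS.G2

end
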