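import Pool.Agent.Work.MP_b30479_gt.TBS.G2.S0RC
import Pool.Agent.Work.MP_b30479_gt.TBS.NumU.Tree

section

/-!
# The own side of an interior `3` at slot `0`, `2 | 3`, `x` in `[.33, .36]`, after the floors `F2`: rows
-/

set_option linter.unusedSimpArgs false
set_option linter.unusedVariables false

set_option deprecated.oldSectionVars true

namespace Pool.Agent.Work.MP_b30479_gtS.G2

open VOL NumUs

namespace S0R

open NumUs.E EE

theorem fA1b {x T p t : ℝ} (ua1 : 3300 / 10000 ≤ x) (ua2 : x ≤ 3600 / 10000) (ua3 : -(530 / 10000) ≤ T) (ua4 : T ≤ -(35 / 10000)) (ua5 : 1000 / 10000 ≤ p) (ua6 : p ≤ 3200 / 10000) (ua7 : -(885 / 10000) ≤ t) (ua8 : t ≤ -(275 / 10000)) (ua9 : T - t ≤ 535 / 10000) (ua10 : t - T ≤ 40 / 10000) (ua11 : 3500 / 10000 ≤ x + p) (ua12 : x + p ≤ 6500 / 10000) :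
    rS (100 / 27) x T p t < 0 + Real.pi * (1 / 2) * (100 / 27 * T) ∨ rF (100 / 27) (x + p + 1500 / 10000) (-188 / 10000) x T p t < 0 + Real.pi * (1 / 2) * (100 / 27 * T) := by
  have h : chkT [sub (add (q 0 1) (mul (mul pi (q 1 2)) (kT 100 27))) (S 100 27), sub (add (q 0 1) (mul (mul pi (q 1 2)) (kT 100 27))) (F 100 27 (add EE.v (q 1500 10000)) (q (-188) 10000)), sub (sub EE.T EE.t) (q 535 10000), sub (sub EE.t EE.T) (q 40 10000), sub (q 3500 10000) EE.v, sub EE.v (q 6500 10000)] 30
    194708512452502759880400639853090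
    [NumIs.V.of 10000 3300 3600, NumIs.V.of 10000 (-530) (-35), NumIs.V.of 10000 1000 3200, NumIs.V.of 10000 (-885) (-275)] = true := by
    decide +kernel
  obtain ⟨f, hf, hp⟩ := chkT4 h (by norm_num) (x := x) (y := T) (z := p) (w := t)
    (by norm_num; linarith only [ua1]) (by norm_num; linarith only [ua2]) (by norm_num; linarith only [ua3]) (by norm_num; linarith only [ua4]) (by norm_num; linarith only [ua5]) (by norm_num; linarith only [ua6]) (by norm_num; linarith only [ua7]) (by norm_num; linarith only [ua8])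
  by_contra hc
  push Not at hc
  obtain ⟨hc0, hc1⟩ := hc
  simp only [List.mem_cons, List.not_mem_nil, or_false] at hf
  rcases hf with rfl | rfl | rfl | rfl | rfl | rfl
  · simp only [S_val, F_val, N_val, ui_val, EE.pa, EE.pb, EE.pc, EE.kT, nyy, EE.x, EE.T, EE.p, EE.t, EE.nt, EE.v, E.val, NumIs.lkR] at hp
    push_cast at hp
    linarith only [hc0, hp]
  · simp only [S_val, F_val, N_val, ui_val, EE.pa, EE.pb, EE.pc, EE.kT, nyy, EE.x, EE.T, EE.p, EE.t, EE.nt, EE.v, E.val, NumIs.lkR] at hp
    push_cast at hp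
    linarith only [hc1, hp]
  · simp only [S_val, F_val, N_val, ui_val, EE.pa, EE.pb, EE.pc, EE.kT, nyy, EE.x, EE.T, EE.p, EE.t, EE.nt, EE.v, E.val, NumIs.lkR] at hp
    push_cast at hp
    linarith only [ua9, hp]
  · simp only [S_val, F_val, N_val, ui_val, EE.pa, EE.pb, EE.pc, EE.kT, nyy, EE.x, EE.T, EE.p, EE.t, EE.nt, EE.v, E.val, NumIs.lkR] at hp
    push_cast at hp
    linarith only [ua10, hp]
  · simp only [S_val, F_val, N_val, ui_val, EE.pa, EE.pb, EE.pc, EE.kT, nyy, EE.x, EE.T, EE.p, EE.t, EE.nt, EE.v, E.val, NumIs.lkR] at hp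
    push_cast at hp
    linarith only [ua1, ua5, hp]
  · simp only [S_val, F_val, N_val, ui_val, EE.pa, EE.pb, EE.pc, EE.kT, nyy, EE.x, EE.T, EE.p, EE.t, EE.nt, EE.v, E.val, NumIs.lkR] at hp
    push_cast at hp
    linarith only [ua12, hp]

theorem fA1c {x T p t : ℝ} (ua1 : 3300 / 10000 ≤ x) (ua2 : x ≤ 3600 / 10000) (ua3 : -(530 / 10000) ≤ T) (ua4 : T ≤ -(35 / 10000)) (ua5 : 2900 / 10000 ≤ p) (ua6 : p ≤ 4200 / 10000) (ua7 : -(885 / 10000) ≤ t) (ua8 : t ≤ -(275 / 10000)) (ua9 : T - t ≤ 535 / 10000) (ua10 : t - T ≤ 40 / 10000) (ua11 : 6500 / 10000 ≤ x + p) (ua12 : x + p ≤ 7500 / 10000) :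
    rS (100 / 27) x T p t < 0 + Real.pi * (1 / 2) * (100 / 27 * T) ∨ rF (100 / 27) (80 / 100) (-188 / 10000) x T p t < 0 + Real.pi * (1 / 2) * (100 / 27 * T) := by
  have h : chkT [sub (add (q 0 1) (mul (mul pi (q 1 2)) (kT 100 27))) (S 100 27), sub (add (q 0 1) (mul (mul pi (q 1 2)) (kT 100 27))) (F 100 27 (pc) (q (-188) 10000)), sub (sub EE.T EE.t) (q 535 10000), sub (sub EE.t EE.T) (q 40 10000), sub (q 6500 10000) EE.v, sub EE.v (q 7500 10000)] 30
    2450
    [NumIs.V.of 10000 3300 3600, NumIs.V.of 10000 (-530) (-35), NumIs.V.of 10000 2900 4200, NumIs.V.of 10000 (-885) (-275)] = true := by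
    decide +kernel
  obtain ⟨f, hf, hp⟩ := chkT4 h (by norm_num) (x := x) (y := T) (z := p) (w := t)
    (by norm_num; linarith only [ua1]) (by norm_num; linarith only [ua2]) (by norm_num; linarith only [ua3]) (by norm_num; linarith only [ua4]) (by norm_num; linarith only [ua5]) (by norm_num; linarith only [ua6]) (by norm_num; linarith only [ua7]) (by norm_num; linarith only [ua8])
  by_contra hc
  push Not at hc
  obtain ⟨hc0, hc1⟩ := hc
  simp only [List.mem_cons, List.not_mem_nil, or_false] at hf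
  rcases hf with rfl | rfl | rfl | rfl | rfl | rfl
  · simp only [S_val, F_val, N_val, ui_val, EE.pa, EE.pb, EE.pc, EE.kT, nyy, EE.x, EE.T, EE.p, EE.t, EE.nt, EE.v, E.val, NumIs.lkR] at hp
    push_cast at hp
    linarith only [hc0, hp]
  · simp only [S_val, F_val, N_val, ui_val, EE.pa, EE.pb, EE.pc, EE.kT, nyy, EE.x, EE.T, EE.p, EE.t, EE.nt, EE.v, E.val, NumIs.lkR] at hp
    push_cast at hp
    linarith only [hc1, hp]
  · simp only [S_val, F_val, N_val, ui_val, EE.pa, EE.pb, EE.pc, EE.kT, nyy, EE.x, EE.T, EE.p, EE.t, EE.nt, EE.v, E.val, NumIs.lkR] at hp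
    push_cast at hp
    linarith only [ua9, hp]
  · simp only [S_val, F_val, N_val, ui_val, EE.pa, EE.pb, EE.pc, EE.kT, nyy, EE.x, EE.T, EE.p, EE.t, EE.nt, EE.v, E.val, NumIs.lkR] at hp
    push_cast at hp
    linarith only [ua10, hp]
  · simp only [S_val, F_val, N_val, ui_val, EE.pa, EE.pb, EE.pc, EE.kT, nyy, EE.x, EE.T, EE.p, EE.t, EE.nt, EE.v, E.val, NumIs.lkR] at hp
    push_cast at hp
    linarith only [ua11, hp]
  · simp only [S_val, F_val, N_val, ui_val, EE.pa, EE.pb, EE.pc, EE.kT, nyy, EE.x, EE.T, EE.p, EE.t, EE.nt, EE.v, E.val, NumIs.lkR] at hp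
    push_cast at hp
    linarith only [ua12, hp]

theorem fAob {x T p t : ℝ} (ua1 : 3300 / 10000 ≤ x) (ua2 : x ≤ 3600 / 10000) (ua3 : -(490 / 10000) ≤ T) (ua4 : T ≤ 20 / 10000) (ua5 : 1000 / 10000 ≤ p) (ua6 : p ≤ 3400 / 10000) (ua7 : -(800 / 10000) ≤ t) (ua8 : t ≤ -(130 / 10000)) (ua9 : T - t ≤ 495 / 10000) (ua10 : t - T ≤ 135 / 10000) (ua11 : 3700 / 10000 ≤ x + p) (ua12 : x + p ≤ 6700 / 10000) :
    rS (100 / 27) x T p t < 0 + Real.pi * (1 / 2) * (100 / 27 * T) ∨ rF (100 / 27) (x + p + 1300 / 10000) (220 / 10000) x T p t < 0 + Real.pi * (1 / 2) * (100 / 27 * T) := by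
  have h : chkT [sub (add (q 0 1) (mul (mul pi (q 1 2)) (kT 100 27))) (S 100 27), sub (add (q 0 1) (mul (mul pi (q 1 2)) (kT 100 27))) (F 100 27 (add EE.v (q 1300 10000)) (q 220 10000)), sub (sub EE.T EE.t) (q 495 10000), sub (sub EE.t EE.T) (q 135 10000), sub (q 3700 10000) EE.v, sub EE.v (q 6700 10000)] 30
    13996160379815038717403196714945961337327217508898
    [NumIs.V.of 10000 3300 3600, NumIs.V.of 10000 (-490) 20, NumIs.V.of 10000 1000 3400, NumIs.V.of 10000 (-800) (-130)] = true := by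
    decide +kernel
  obtain ⟨f, hf, hp⟩ := chkT4 h (by norm_num) (x := x) (y := T) (z := p) (w := t)
    (by norm_num; linarith only [ua1]) (by norm_num; linarith only [ua2]) (by norm_num; linarith only [ua3]) (by norm_num; linarith only [ua4]) (by norm_num; linarith only [ua5]) (by norm_num; linarith only [ua6]) (by norm_num; linarith only [ua7]) (by norm_num; linarith only [ua8])
  by_contra hc
  push Not at hc
  obtain ⟨hc0, hc1⟩ := hc
  simp only [List.mem_cons, List.not_mem_nil, or_false] at hf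
  rcases hf with rfl | rfl | rfl | rfl | rfl | rfl
  · simp only [S_val, F_val, N_val, ui_val, EE.pa, EE.pb, EE.pc, EE.kT, nyy, EE.x, EE.T, EE.p, EE.t, EE.nt, EE.v, E.val, NumIs.lkR] at hp
    push_cast at hp
    linarith only [hc0, hp]
  · simp only [S_val, F_val, N_val, ui_val, EE.pa, EE.pb, EE.pc, EE.kT, nyy, EE.x, EE.T, EE.p, EE.t, EE.nt, EE.v, E.val, NumIs.lkR] at hp
    push_cast at hp
    linarith only [hc1, hp]
  · simp only [S_val, F_val, N_val, ui_val, EE.pa, EE.pb, EE.pc, EE.kT, nyy, EE.x, EE.T, EE.p, EE.t, EE.nt, EE.v, E.val, NumIs.lkR] at hp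
    push_cast at hp
    linarith only [ua9, hp]
  · simp only [S_val, F_val, N_val, ui_val, EE.pa, EE.pb, EE.pc, EE.kT, nyy, EE.x, EE.T, EE.p, EE.t, EE.nt, EE.v, E.val, NumIs.lkR] at hp
    push_cast at hp
    linarith only [ua10, hp]
  · simp only [S_val, F_val, N_val, ui_val, EE.pa, EE.pb, EE.pc, EE.kT, nyy, EE.x, EE.T, EE.p, EE.t, EE.nt, EE.v, E.val, NumIs.lkR] at hp
    push_cast at hp
    linarith only [ua1, ua5, hp]
  · simp only [S_val, F_val, N_val, ui_val, EE.pa, EE.pb, EE.pc, EE.kT, nyy, EE.x, EE.T, EE.p, EE.t, EE.nt, EE.v, E.val, NumIs.lkR] at hp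
    push_cast at hp
    linarith only [ua12, hp]

theorem fAoc {x T p t : ℝ} (ua1 : 3300 / 10000 ≤ x) (ua2 : x ≤ 3600 / 10000) (ua3 : -(490 / 10000) ≤ T) (ua4 : T ≤ 20 / 10000) (ua5 : 3100 / 10000 ≤ p) (ua6 : p ≤ 4200 / 10000) (ua7 : -(800 / 10000) ≤ t) (ua8 : t ≤ -(130 / 10000)) (ua9 : T - t ≤ 495 / 10000) (ua10 : t - T ≤ 135 / 10000) (ua11 : 6700 / 10000 ≤ x + p) (ua12 : x + p ≤ 7500 / 10000) :
    rS (100 / 27) x T p t < 0 + Real.pi * (1 / 2) * (100 / 27 * T) ∨ rF (100 / 27) (80 / 100) (220 / 10000) x T p t < 0 + Real.pi * (1 / 2) * (100 / 27 * T) := by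
  have h : chkT [sub (add (q 0 1) (mul (mul pi (q 1 2)) (kT 100 27))) (S 100 27), sub (add (q 0 1) (mul (mul pi (q 1 2)) (kT 100 27))) (F 100 27 (pc) (q 220 10000)), sub (sub EE.T EE.t) (q 495 10000), sub (sub EE.t EE.T) (q 135 10000), sub (q 6700 10000) EE.v, sub EE.v (q 7500 10000)] 30
    2450
    [NumIs.V.of 10000 3300 3600, NumIs.V.of 10000 (-490) 20, NumIs.V.of 10000 3100 4200, NumIs.V.of 10000 (-800) (-130)] = true := by
    decide +kernel
  obtain ⟨f, hf, hp⟩ := chkT4 h (by norm_num) (x := x) (y := T) (z := p) (w := t)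
    (by norm_num; linarith only [ua1]) (by norm_num; linarith only [ua2]) (by norm_num; linarith only [ua3]) (by norm_num; linarith only [ua4]) (by norm_num; linarith only [ua5]) (by norm_num; linarith only [ua6]) (by norm_num; linarith only [ua7]) (by norm_num; linarith only [ua8])
  by_contra hc
  push Not at hc
  obtain ⟨hc0, hc1⟩ := hc
  simp only [List.mem_cons, List.not_mem_nil, or_false] at hf
  rcases hf with rfl | rfl | rfl | rfl | rfl | rfl
  · simp only [S_val, F_val, N_val, ui_val, EE.pa, EE.pb, EE.pc, EE.kT, nyy, EE.x, EE.T, EE.p, EE.t, EE.nt, EE.v, E.val, NumIs.lkR] at hp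
    push_cast at hp
    linarith only [hc0, hp]
  · simp only [S_val, F_val, N_val, ui_val, EE.pa, EE.pb, EE.pc, EE.kT, nyy, EE.x, EE.T, EE.p, EE.t, EE.nt, EE.v, E.val, NumIs.lkR] at hp
    push_cast at hp
    linarith only [hc1, hp]
  · simp only [S_val, F_val, N_val, ui_val, EE.pa, EE.pb, EE.pc, EE.kT, nyy, EE.x, EE.T, EE.p, EE.t, EE.nt, EE.v, E.val, NumIs.lkR] at hp
    push_cast at hp
    linarith only [ua9, hp]
  · simp only [S_val, F_val, N_val, ui_val, EE.pa, EE.pb, EE.pc, EE.kT, nyy, EE.x, EE.T, EE.p, EE.t, EE.nt, EE.v, E.val, NumIs.lkR] at hp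
    push_cast at hp
    linarith only [ua10, hp]
  · simp only [S_val, F_val, N_val, ui_val, EE.pa, EE.pb, EE.pc, EE.kT, nyy, EE.x, EE.T, EE.p, EE.t, EE.nt, EE.v, E.val, NumIs.lkR] at hp
    push_cast at hp
    linarith only [ua11, hp]
  · simp only [S_val, F_val, N_val, ui_val, EE.pa, EE.pb, EE.pc, EE.kT, nyy, EE.x, EE.T, EE.p, EE.t, EE.nt, EE.v, E.val, NumIs.lkR] at hp
    push_cast at hp
    linarith only [ua12, hp]

theorem fAZb {x T p t : ℝ} (ua1 : 3300 / 10000 ≤ x) (ua2 : x ≤ 3600 / 10000) (ua3 : -(412 / 10000) ≤ T) (ua4 : T ≤ 22 / 10000) (ua5 : 1000 / 10000 ≤ p) (ua6 : p ≤ 3400 / 10000) (ua7 : -(635 / 10000) ≤ t) (ua8 : t ≤ -(190 / 10000)) (ua9 : T - t ≤ 430 / 10000) (ua10 : t - T ≤ 65 / 10000) (ua11 : 3700 / 10000 ≤ x + p) (ua12 : x + p ≤ 6700 / 10000) :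
    rS (100 / 27) x T p t < 0 + Real.pi * (1 / 2) * (100 / 27 * T) ∨ rF (100 / 27) (x + p + 1300 / 10000) (570 / 10000) x T p t < 0 + Real.pi * (1 / 2) * (100 / 27 * T) := by
  have h : chkT [sub (add (q 0 1) (mul (mul pi (q 1 2)) (kT 100 27))) (S 100 27), sub (add (q 0 1) (mul (mul pi (q 1 2)) (kT 100 27))) (F 100 27 (add EE.v (q 1300 10000)) (q 570 10000)), sub (sub EE.T EE.t) (q 430 10000), sub (sub EE.t EE.T) (q 65 10000), sub (q 3700 10000) EE.v, sub EE.v (q 6700 10000)] 30
    691743595276281890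
    [NumIs.V.of 10000 3300 3600, NumIs.V.of 10000 (-412) 22, NumIs.V.of 10000 1000 3400, NumIs.V.of 10000 (-635) (-190)] = true := by
    decide +kernel
  obtain ⟨f, hf, hp⟩ := chkT4 h (by norm_num) (x := x) (y := T) (z := p) (w := t)
    (by norm_num; linarith only [ua1]) (by norm_num; linarith only [ua2]) (by norm_num; linarith only [ua3]) (by norm_num; linarith only [ua4]) (by norm_num; linarith only [ua5]) (by norm_num; linarith only [ua6]) (by norm_num; linarith only [ua7]) (by norm_num; linarith only [ua8])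
  by_contra hc
  push Not at hc
  obtain ⟨hc0, hc1⟩ := hc
  simp only [List.mem_cons, List.not_mem_nil, or_false] at hf
  rcases hf with rfl | rfl | rfl | rfl | rfl | rfl
  · simp only [S_val, F_val, N_val, ui_val, EE.pa, EE.pb, EE.pc, EE.kT, nyy, EE.x, EE.T, EE.p, EE.t, EE.nt, EE.v, E.val, NumIs.lkR] at hp
    push_cast at hp
    linarith only [hc0, hp]
  · simp only [S_val, F_val, N_val, ui_val, EE.pa, EE.pb, EE.pc, EE.kT, nyy, EE.x, EE.T, EE.p, EE.t, EE.nt, EE.v, E.val, NumIs.lkR] at hp
    push_cast at hp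
    linarith only [hc1, hp]
  · simp only [S_val, F_val, N_val, ui_val, EE.pa, EE.pb, EE.pc, EE.kT, nyy, EE.x, EE.T, EE.p, EE.t, EE.nt, EE.v, E.val, NumIs.lkR] at hp
    push_cast at hp
    linarith only [ua9, hp]
  · simp only [S_val, F_val, N_val, ui_val, EE.pa, EE.pb, EE.pc, EE.kT, nyy, EE.x, EE.T, EE.p, EE.t, EE.nt, EE.v, E.val, NumIs.lkR] at hp
    push_cast at hp
    linarith only [ua10, hp]
  · simp only [S_val, F_val, N_val, ui_val, EE.pa, EE.pb, EE.pc, EE.kT, nyy, EE.x, EE.T, EE.p, EE.t, EE.nt, EE.v, E.val, NumIs.lkR] at hp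
    push_cast at hp
    linarith only [ua1, ua5, hp]
  · simp only [S_val, F_val, N_val, ui_val, EE.pa, EE.pb, EE.pc, EE.kT, nyy, EE.x, EE.T, EE.p, EE.t, EE.nt, EE.v, E.val, NumIs.lkR] at hp
    push_cast at hp
    linarith only [ua12, hp]

theorem fAZc {x T p t : ℝ} (ua1 : 3300 / 10000 ≤ x) (ua2 : x ≤ 3600 / 10000) (ua3 : -(412 / 10000) ≤ T) (ua4 : T ≤ 22 / 10000) (ua5 : 3100 / 10000 ≤ p) (ua6 : p ≤ 4200 / 10000) (ua7 : -(635 / 10000) ≤ t) (ua8 : t ≤ -(190 / 10000)) (ua9 : T - t ≤ 430 / 10000) (ua10 : t - T ≤ 65 / 10000) (ua11 : 6700 / 10000 ≤ x + p) (ua12 : x + p ≤ 7500 / 10000) :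
    rS (100 / 27) x T p t < 0 + Real.pi * (1 / 2) * (100 / 27 * T) ∨ rF (100 / 27) (80 / 100) (570 / 10000) x T p t < 0 + Real.pi * (1 / 2) * (100 / 27 * T) := by
  have h : chkT [sub (add (q 0 1) (mul (mul pi (q 1 2)) (kT 100 27))) (S 100 27), sub (add (q 0 1) (mul (mul pi (q 1 2)) (kT 100 27))) (F 100 27 (pc) (q 570 10000)), sub (sub EE.T EE.t) (q 430 10000), sub (sub EE.t EE.T) (q 65 10000), sub (q 6700 10000) EE.v, sub EE.v (q 7500 10000)] 30
    9
    [NumIs.V.of 10000 3300 3600, NumIs.V.of 10000 (-412) 22, NumIs.V.of 10000 3100 4200, NumIs.V.of 10000 (-635) (-190)] = true := by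
    decide +kernel
  obtain ⟨f, hf, hp⟩ := chkT4 h (by norm_num) (x := x) (y := T) (z := p) (w := t)
    (by norm_num; linarith only [ua1]) (by norm_num; linarith only [ua2]) (by norm_num; linarith only [ua3]) (by norm_num; linarith only [ua4]) (by norm_num; linarith only [ua5]) (by norm_num; linarith only [ua6]) (by norm_num; linarith only [ua7]) (by norm_num; linarith only [ua8])
  by_contra hc
  push Not at hc
  obtain ⟨hc0, hc1⟩ := hc
  simp only [List.mem_cons, List.not_mem_nil, or_false] at hf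
  rcases hf with rfl | rfl | rfl | rfl | rfl | rfl
  · simp only [S_val, F_val, N_val, ui_val, EE.pa, EE.pb, EE.pc, EE.kT, nyy, EE.x, EE.T, EE.p, EE.t, EE.nt, EE.v, E.val, NumIs.lkR] at hp
    push_cast at hp
    linarith only [hc0, hp]
  · simp only [S_val, F_val, N_val, ui_val, EE.pa, EE.pb, EE.pc, EE.kT, nyy, EE.x, EE.T, EE.p, EE.t, EE.nt, EE.v, E.val, NumIs.lkR] at hp
    push_cast at hp
    linarith only [hc1, hp]
  · simp only [S_val, F_val, N_val, ui_val, EE.pa, EE.pb, EE.pc, EE.kT, nyy, EE.x, EE.T, EE.p, EE.t, EE.nt, EE.v, E.val, NumIs.lkR] at hp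
    push_cast at hp
    linarith only [ua9, hp]
  · simp only [S_val, F_val, N_val, ui_val, EE.pa, EE.pb, EE.pc, EE.kT, nyy, EE.x, EE.T, EE.p, EE.t, EE.nt, EE.v, E.val, NumIs.lkR] at hp
    push_cast at hp
    linarith only [ua10, hp]
  · simp only [S_val, F_val, N_val, ui_val, EE.pa, EE.pb, EE.pc, EE.kT, nyy, EE.x, EE.T, EE.p, EE.t, EE.nt, EE.v, E.val, NumIs.lkR] at hp
    push_cast at hp
    linarith only [ua11, hp]
  · simp only [S_val, F_val, N_val, ui_val, EE.pa, EE.pb, EE.pc, EE.kT, nyy, EE.x, EE.T, EE.p, EE.t, EE.nt, EE.v, E.val, NumIs.lkR] at hp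
    push_cast at hp
    linarith only [ua12, hp]

theorem nA2a {x T t : ℝ} (ua1 : 3300 / 10000 ≤ x) (ua2 : x ≤ 3600 / 10000) (ua3 : -(530 / 10000) ≤ T) (ua4 : T ≤ 0 / 10000) (ua5 : -(885 / 10000) ≤ t) (ua6 : t ≤ -(130 / 10000)) (ua7 : T - t ≤ 535 / 10000) (ua8 : t - T ≤ 135 / 10000) :
    rN (100 / 27) (900 / 10000) (Real.pi + NumIs.lnB (900 / 10000) (t - rui (100 / 27) x T)) (x - 900 / 10000) x T t < 0 + Real.pi * (1 / 2) * (100 / 27 * T) := by
  have h : chkT [sub (add (q 0 1) (mul (mul pi (q 1 2)) (kT 100 27))) (N 100 27 (q 900 10000) (add pi (E.lnB (q 900 10000) (nyy 100 27))) (sub EE.x (q 900 10000))), sub (sub EE.T EE.nt) (q 535 10000), sub (sub EE.nt EE.T) (q 135 10000)] 30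
    143163922
    [NumIs.V.of 10000 3300 3600, NumIs.V.of 10000 (-530) 0, NumIs.V.of 10000 (-885) (-130)] = true := by
    decide +kernel
  obtain ⟨f, hf, hp⟩ := chkT3 h (by norm_num) (x := x) (y := T) (z := t)
    (by norm_num; linarith only [ua1]) (by norm_num; linarith only [ua2]) (by norm_num; linarith only [ua3]) (by norm_num; linarith only [ua4]) (by norm_num; linarith only [ua5]) (by norm_num; linarith only [ua6])
  by_contra hc
  push Not at hc
  simp only [List.mem_cons, List.not_mem_nil, or_false] at hf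
  rcases hf with rfl | rfl | rfl
  · simp only [S_val, F_val, N_val, ui_val, EE.pa, EE.pb, EE.pc, EE.kT, nyy, EE.x, EE.T, EE.p, EE.t, EE.nt, EE.v, E.val, NumIs.lkR] at hp
    push_cast at hp
    linarith only [hc, hp]
  · simp only [S_val, F_val, N_val, ui_val, EE.pa, EE.pb, EE.pc, EE.kT, nyy, EE.x, EE.T, EE.p, EE.t, EE.nt, EE.v, E.val, NumIs.lkR] at hp
    push_cast at hp
    linarith only [ua7, hp]
  · simp only [S_val, F_val, N_val, ui_val, EE.pa, EE.pb, EE.pc, EE.kT, nyy, EE.x, EE.T, EE.p, EE.t, EE.nt, EE.v, E.val, NumIs.lkR] at hp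
    push_cast at hp
    linarith only [ua8, hp]

theorem nA2b {x T t : ℝ} (ua1 : 3300 / 10000 ≤ x) (ua2 : x ≤ 3600 / 10000) (ua3 : -(530 / 10000) ≤ T) (ua4 : T ≤ 0 / 10000) (ua5 : -(885 / 10000) ≤ t) (ua6 : t ≤ -(130 / 10000)) (ua7 : T - t ≤ 535 / 10000) (ua8 : t - T ≤ 135 / 10000) :
    rN (100 / 27) (1000 / 10000) (Real.pi * (1 / 2)) x x T t < 0 + Real.pi * (1 / 2) * (100 / 27 * T) := by
  have h : chkT [sub (add (q 0 1) (mul (mul pi (q 1 2)) (kT 100 27))) (N 100 27 (q 1000 10000) (mul pi (q 1 2)) (EE.x)), sub (sub EE.T EE.nt) (q 535 10000), sub (sub EE.nt EE.T) (q 135 10000)] 30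
    8
    [NumIs.V.of 10000 3300 3600, NumIs.V.of 10000 (-530) 0, NumIs.V.of 10000 (-885) (-130)] = true := by
    decide +kernel
  obtain ⟨f, hf, hp⟩ := chkT3 h (by norm_num) (x := x) (y := T) (z := t)
    (by norm_num; linarith only [ua1]) (by norm_num; linarith only [ua2]) (by norm_num; linarith only [ua3]) (by norm_num; linarith only [ua4]) (by norm_num; linarith only [ua5]) (by norm_num; linarith only [ua6])
  by_contra hc
  push Not at hc
  simp only [List.mem_cons, List.not_mem_nil, or_false] at hf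
  rcases hf with rfl | rfl | rfl
  · simp only [S_val, F_val, N_val, ui_val, EE.pa, EE.pb, EE.pc, EE.kT, nyy, EE.x, EE.T, EE.p, EE.t, EE.nt, EE.v, E.val, NumIs.lkR] at hp
    push_cast at hp
    linarith only [hc, hp]
  · simp only [S_val, F_val, N_val, ui_val, EE.pa, EE.pb, EE.pc, EE.kT, nyy, EE.x, EE.T, EE.p, EE.t, EE.nt, EE.v, E.val, NumIs.lkR] at hp
    push_cast at hp
    linarith only [ua7, hp]
  · simp only [S_val, F_val, N_val, ui_val, EE.pa, EE.pb, EE.pc, EE.kT, nyy, EE.x, EE.T, EE.p, EE.t, EE.nt, EE.v, E.val, NumIs.lkR] at hp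
    push_cast at hp
    linarith only [ua8, hp]

theorem nA2c {x T t : ℝ} (ua1 : 3300 / 10000 ≤ x) (ua2 : x ≤ 3600 / 10000) (ua3 : 0 / 10000 ≤ T) (ua4 : T ≤ 22 / 10000) (ua5 : -(885 / 10000) ≤ t) (ua6 : t ≤ -(130 / 10000)) (ua7 : T - t ≤ 535 / 10000) (ua8 : t - T ≤ 135 / 10000) :
    rN (100 / 27) (1000 / 10000) (-Real.pi) (x + 1000 / 10000) x T t < 0 + Real.pi * (1 / 2) * (100 / 27 * T) := by
  have h : chkT [sub (add (q 0 1) (mul (mul pi (q 1 2)) (kT 100 27))) (N 100 27 (q 1000 10000) (neg pi) (add EE.x (q 1000 10000))), sub (sub EE.T EE.nt) (q 535 10000), sub (sub EE.nt EE.T) (q 135 10000)] 30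
    8
    [NumIs.V.of 10000 3300 3600, NumIs.V.of 10000 0 22, NumIs.V.of 10000 (-885) (-130)] = true := by
    decide +kernel
  obtain ⟨f, hf, hp⟩ := chkT3 h (by norm_num) (x := x) (y := T) (z := t)
    (by norm_num; linarith only [ua1]) (by norm_num; linarith only [ua2]) (by norm_num; linarith only [ua3]) (by norm_num; linarith only [ua4]) (by norm_num; linarith only [ua3, ua7]) (by norm_num; linarith only [ua6])
  by_contra hc
  push Not at hc
  simp only [List.mem_cons, List.not_mem_nil, or_false] at hf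
  rcases hf with rfl | rfl | rfl
  · simp only [S_val, F_val, N_val, ui_val, EE.pa, EE.pb, EE.pc, EE.kT, nyy, EE.x, EE.T, EE.p, EE.t, EE.nt, EE.v, E.val, NumIs.lkR] at hp
    push_cast at hp
    linarith only [hc, hp]
  · simp only [S_val, F_val, N_val, ui_val, EE.pa, EE.pb, EE.pc, EE.kT, nyy, EE.x, EE.T, EE.p, EE.t, EE.nt, EE.v, E.val, NumIs.lkR] at hp
    push_cast at hp
    linarith only [ua7, hp]
  · simp only [S_val, F_val, N_val, ui_val, EE.pa, EE.pb, EE.pc, EE.kT, nyy, EE.x, EE.T, EE.p, EE.t, EE.nt, EE.v, E.val, NumIs.lkR] at hp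
    push_cast at hp
    linarith only [ua3, ua6, hp]

end S0R

end Pool.Agent.Work.MP_b30479_gtS.G2

end

section

/-!
# Part of `S0RV3`
-/
set_option linter.unusedSimpArgs false
set_option linter.unusedVariables false

set_option deprecated.oldSectionVars true

namespace Pool.Agent.Work.MP_b30479_gtS.G2

open VOL NumUs

namespace S0R

open NumUs.E EV

theorem zop {x T w b r t : ℝ} (ua1 : 3000 / 10000 ≤ x) (ua2 : x ≤ 3800 / 10000) (ua3 : -(280 / 10000) ≤ T) (ua4 : T ≤ 70 / 10000) (ua5 : 700 / 10000 ≤ w) (ua6 : w ≤ 3100 / 10000) (ua7 : -(980 / 10000) ≤ b) (ua8 : b ≤ 570 / 10000) (ua9 : 500 / 10000 ≤ r) (ua10 : r ≤ 2500 / 10000) (ua11 : -(280 / 10000) ≤ t) (ua12 : t ≤ 50 / 10000) (ua13 : r ≤ x - 1300 / 10000) (ua14 : -(98 / 130) * w ≤ b) (ua15 : rui (10 / 3) x T ≤ t) :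
    0 < rD (4200 / 10000) (-1) x (rui (10 / 3) x T) w b r t := by
  have h : chkT [D 10 3 (q 4200 10000) (-1), sub EV.r (sub EV.x (q 1300 10000)), sub (mul (q (-98) 130) EV.w) EV.b, sub (a 10 3) EV.t] 40
    674222918929474228815445242916
    [NumIs.V.of 10000 3000 3800, NumIs.V.of 10000 (-280) 70, NumIs.V.of 10000 700 3100, NumIs.V.of 10000 (-980) 570, NumIs.V.of 10000 500 2500, NumIs.V.of 10000 (-280) 50] = true := by
    decide +kernel
  obtain ⟨f, hf, hp⟩ := chkT_sound h (xs := [x, T, w, b, r, t])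
    (List.Forall₂.cons (NumIs.V.of_mem (by norm_num) (by norm_num; linarith only [ua1]) (by norm_num; linarith only [ua2])) (List.Forall₂.cons (NumIs.V.of_mem (by norm_num) (by norm_num; linarith only [ua3]) (by norm_num; linarith only [ua4])) (List.Forall₂.cons (NumIs.V.of_mem (by norm_num) (by norm_num; linarith only [ua5]) (by norm_num; linarith only [ua6])) (List.Forall₂.cons (NumIs.V.of_mem (by norm_num) (by norm_num; linarith only [ua7]) (by norm_num; linarith only [ua8])) (List.Forall₂.cons (NumIs.V.of_mem (by norm_num) (by norm_num; linarith only [ua9]) (by norm_num; linarith only [ua10])) (List.Forall₂.cons (NumIs.V.of_mem (by norm_num) (by norm_num; linarith only [ua11]) (by norm_num; linarith only [ua12])) List.Forall₂.nil))))))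
  by_contra hc
  push Not at hc
  simp only [List.mem_cons, List.not_mem_nil, or_false] at hf
  rcases hf with rfl | rfl | rfl | rfl
  · simp only [D_val, R_val, h_val, EE.ui_val, EV.a, EV.x, EV.T, EV.w, EV.b, EV.r, EV.t, E.val, NumIs.lkR] at hp
    push_cast at hp
    linarith only [hc, hp]
  · simp only [D_val, R_val, h_val, EE.ui_val, EV.a, EV.x, EV.T, EV.w, EV.b, EV.r, EV.t, E.val, NumIs.lkR] at hp
    push_cast at hp
    linarith only [ua13, hp]
  · simp only [D_val, R_val, h_val, EE.ui_val, EV.a, EV.x, EV.T, EV.w, EV.b, EV.r, EV.t, E.val, NumIs.lkR] at hp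
    push_cast at hp
    linarith only [ua14, hp]
  · simp only [D_val, R_val, h_val, EE.ui_val, EV.a, EV.x, EV.T, EV.w, EV.b, EV.r, EV.t, E.val, NumIs.lkR] at hp
    push_cast at hp
    linarith only [ua15, hp]

theorem zorn_h1_q1 : Pool.Agent.Work.NumUs.runT [R 10 3 (q 4200 10000) (1), sub (mul (q (-98) 130) EV.w) EV.b, sub (sub EV.T EV.t) (q 1000 10000), sub h (a 10 3)] 37
    262273950606635309701001822492763220760330079080192308130088276521571934570985678556317785862481060563805791699559207658975643141843837816920988922662735290663886853187548889884867608816190172163899499426295050529100459818590207720889981418945944030539205695961230478784836040175840716315647857442532026968925510722399440015123020170804925209545956421772672980794123669989912158451525418182918475771982166945383171508814879775410748067429845882766695262950800685272983938536980488573875524716071064422631642879029375923836409431173844139648857361828963136872393420981085101690090097360589127616901856019510990130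
    (Pool.Agent.Work.NumIs.setL 5 (Pool.Agent.Work.NumIs.setL 4 (Pool.Agent.Work.NumIs.setL 2 ([NumIs.V.of 10000 3000 3800, NumIs.V.of 10000 0 570, NumIs.V.of 10000 700 3100, NumIs.V.of 10000 (-980) 570, NumIs.V.of 10000 0 500, NumIs.V.of 10000 (-1040) 50])))) =
    171141738173310171862980520388856074387464385623963550646985027147453838107652317462951355456257092886362703983173314434521391209367303067416015001112099558162493194311368209967761303254715587101120198555777504035349566669524775441455635559234152984304775925776846974021051630919391827152108621264576923635701586690408703798617045483679414090562676123935616324801087636028581495827139798367671213022392577103902482677422767698206903271150017436173587659563345118966940513351062882259597998502679231239861540131726415267953451941266856559193528679526192845316 := by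
  decide +kernel

theorem zorn_h1_q2 : Pool.Agent.Work.NumUs.runT [R 10 3 (q 4200 10000) (1), sub (mul (q (-98) 130) EV.w) EV.b, sub (sub EV.T EV.t) (q 1000 10000), sub h (a 10 3)] 35
    668522414739492858839767657768969040576032756343607619714785262294741555108016865089653732251004269087354312434270759509849184411591027607093808598094138899072239040278782070186567590838732762113750775608505875138084244802831154068186076403258410094940530960065808492269732933278874324812924301814753607951959323009408999213347833920622711291260453609123501268754248578236646468074764837373715675868721004312119072958682686321120715902929755610053076795169316870964611380277589383826554681651090747030709141139556309640443171645573658434349721404399190802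
    (Pool.Agent.Work.NumIs.setL 0 (Pool.Agent.Work.NumIs.setL 3 (Pool.Agent.Work.NumIs.setR 5 (Pool.Agent.Work.NumIs.setL 4 (Pool.Agent.Work.NumIs.setL 2 ([NumIs.V.of 10000 3000 3800, NumIs.V.of 10000 0 570, NumIs.V.of 10000 700 3100, NumIs.V.of 10000 (-980) 570, NumIs.V.of 10000 0 500, NumIs.V.of 10000 (-1040) 50])))))) =
    479641309768278935466842140789796422544884025531515122995946197330980393669193065753880752076751731370726205563243602593737053571468455503460151545083477950364986008485472020469252863911546934279593373953756896332591456910532183342540605971488420912197520410829459914677249375170382945883958359346025325493284064276148388549734202126769958947883030072597245370491459891356392487510470810552662714678923751517616193978764093084467682356145441794345739470351128721827344873105472878255718608771599707239120097522963 := by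
  decide +kernel

theorem zorn_h1_q3 : Pool.Agent.Work.NumUs.runT [R 10 3 (q 4200 10000) (1), sub (mul (q (-98) 130) EV.w) EV.b, sub (sub EV.T EV.t) (q 1000 10000), sub h (a 10 3)] 35
    479641309768278935466842140789796422544884025531515122995946197330980393669193065753880752076751731370726205563243602593737053571468455503460151545083477950364986008485472020469252863911546934279593373953756896332591456910532183342540605971488420912197520410829459914677249375170382945883958359346025325493284064276148388549734202126769958947883030072597245370491459891356392487510470810552662714678923751517616193978764093084467682356145441794345739470351128721827344873105472878255718608771599707239120097522962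
    (Pool.Agent.Work.NumIs.setR 0 (Pool.Agent.Work.NumIs.setL 3 (Pool.Agent.Work.NumIs.setR 5 (Pool.Agent.Work.NumIs.setL 4 (Pool.Agent.Work.NumIs.setL 2 ([NumIs.V.of 10000 3000 3800, NumIs.V.of 10000 0 570, NumIs.V.of 10000 700 3100, NumIs.V.of 10000 (-980) 570, NumIs.V.of 10000 0 500, NumIs.V.of 10000 (-1040) 50])))))) =
    836523390813077846060637405282114476898356806857347381732093398167493143782697261710997973290222529569474175445982879839855499940384285440808425433282035280673305649530420134903429587033973481294862070078280539173244568210927443270658735521115044170540815836008722061587500641389470725258238890784718126184225161031151385897324727934949847745517784119177357238039319449043024438283661680054599695894793696545 := by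
  decide +kernel

end S0R

end Pool.Agent.Work.MP_b30479_gtS.G2

end
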