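import Pool.Agent.Work.MP_b30479_gt.TBS.G2.V2Base

/-!
# Value moves of the hinge `2 | 3`: the digit `2`, rows 1
-/

set_option deprecated.oldSectionVars true

namespace Pool.Agent.Work.MP_b30479_gtS.G2

open VOL NumUs

namespace V2A

open NumUs.E

section
open NumIs (V)

theorem o27_1 : chkT (O1 (q 27 100) vT eh27 fg27 []) 60
    438047933959793629545033824133362567262569505694010011274456838368754228076431810588228761919604078386063428257730289715077474955157232124676194836966599171954200941135156003928404354144740550584508272915844017288961619588210025284932172551394391965305749740448600674790321081459408589126321037630362365971136840699654596423072998242838708711614319525762327073719151113685773160185876493162123959752196450410352010751683637780116703705838632526588497389720679405765308048406985659660762263334889692337025455495125176261038778469925876002532349161626835039113077313210388900909033446678931220720672170562846029529856734361925017463256689644407505914128407861766327659909036166708289157444514084936023950891107640364780558798948284755053392766841906795600945051556942741079430706473348487081353413880767703334768763653273545988025738593058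
    [V.of 10000 5000 6000, V.of 10000 (-50) 570, V.of 10000 1250 4700, V.of 10000 (-985) 960] = true := by
  decide +kernel

end

end V2A

end Pool.Agent.Work.MP_b30479_gtS.G2
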