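import Pool.Agent.Work.MP_b30479_gt.TBS.G2.V2Base

section

/-!
# Value moves of the hinge `2 | 3`: the digit `2`, rows 2
-/

set_option deprecated.oldSectionVars true

namespace Pool.Agent.Work.MP_b30479_gtS.G2

open VOL NumUs

namespace V2A

open NumUs.E

section
open NumIs (V)

theorem o27_8 : chkT (O8 (q 27 100) vT eh27 fg27 []) 60
    9352425736211
    [V.of 10000 5000 6000, V.of 10000 (-50) 570, V.of 10000 7600 8000, V.of 10000 (-985) 960] = true := by
  decide +kernel

theorem o27_0 : chkT (OS (q 27 100) vT eh27 fg27) 60
    6587590016470957574199888636770759484371378245491618376947833481682190384189652941655344998108808844143391929246151187314427700213574135870863383451716442397684969938149120899005151119289107543338560444150648861984335300331218532972155774148911791998352408695576115528256463223111188198216320446040096298388933660148482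
    [V.of 1000 500 600, V.of 1000 (-5) 57, V.of 1000 0 125, V.of 1000 (-850) 770] = true := by
  decide +kernel

end

end V2A

end Pool.Agent.Work.MP_b30479_gtS.G2

end

section

/-!
# Part of `V2O2B`
-/
set_option deprecated.oldSectionVars true

namespace Pool.Agent.Work.MP_b30479_gtS.G2

open VOL NumUs

namespace V2A

open NumUs.E

section
open NumIs (V)

theorem o27_2 : chkT (O2 (q 27 100) vT eh27 fg27 []) 60
    142771075
    [V.of 10000 5000 6000, V.of 10000 (-50) 570, V.of 10000 3700 5300, V.of 10000 (-985) 960] = true := by
  decide +kernel

theorem o27_3 : chkT (O3 (q 27 100) vT eh27 fg27 []) 60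
    1530519444894802628492807761421863963064283240976640448145626118602114301111997573947065845645094116014119424424192162218783810417991086375494077724847733222668354443340296649085063821551227751120203361099632734751060732209809415488442506254564037349301706890066882617719580978976367127306903268958826162946610
    [V.of 10000 5000 6000, V.of 10000 (-50) 570, V.of 10000 4300 7000, V.of 10000 (-985) 960] = true := by
  decide +kernel

end

end V2A

end Pool.Agent.Work.MP_b30479_gtS.G2

end

section

/-!
# Part of `V2O2E`
-/
set_option deprecated.oldSectionVars true

namespace Pool.Agent.Work.MP_b30479_gtS.G2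

open VOL NumUs

namespace V2A

open NumUs.E

section
open NumIs (V)

theorem o41_7 : chkT (O7 (q 41 100) ehc41 eh27 fg41 []) 60
    4772185152430405808954509195177195104101232045290757688761122113731867611544188449010466
    [V.of 10000 5000 6000, V.of 10000 (-50) 570, V.of 10000 6200 8000, V.of 10000 (-985) 960] = true := by
  decide +kernel

theorem o41_8 : chkT (O8 (q 41 100) ehc41 eh27 fg41 []) 60
    5129662234110371332099845685003283474605103663046186204323130008630993118847042121926688264244684112850222396194
    [V.of 10000 5000 6000, V.of 10000 (-50) 570, V.of 10000 6200 8000, V.of 10000 (-985) 960] = true := by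
  decide +kernel

end

end V2A

end Pool.Agent.Work.MP_b30479_gtS.G2

end
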