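import Pool.Agent.Work.MP_b30479_gt.TBS.G2.V2Base

section

/-!
# Part of `V2O2B`
-/
set_option deprecated.oldSectionVars true

namespace Pool.Agent.Work.MP_b30479_gtS.G2

open VOL NumUs

namespace V2A

open NumUs.E

section
open NumIs (V)

theorem o27_4 : chkT (O4 (q 27 100) vT eh27 fg27 []) 60
    430206344600249231799201624041261458750168313016163080939404765580529904701494124568761358027066668413247559278729979797647679765049002076873157312403833622231827291122963671997640583861997473070083204841957504624083584722155129620291355936435269190923446956197767690478343404570299813358291208427188393404103486789802758962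
    [V.of 10000 5000 6000, V.of 10000 (-50) 570, V.of 10000 4300 7000, V.of 10000 (-985) 960] = true := by
  decide +kernel

end

end V2A

end Pool.Agent.Work.MP_b30479_gtS.G2

end

section

/-!
# Part of `V2O2B`
-/
set_option deprecated.oldSectionVars true

namespace Pool.Agent.Work.MP_b30479_gtS.G2

open VOL NumUs

namespace V2A

open NumUs.E

section
open NumIs (V)

theorem o27_5 : chkT (O5 (q 27 100) vT eh27 fg27 []) 60
    159908739
    [V.of 10000 5000 6000, V.of 10000 (-50) 570, V.of 10000 7000 7600, V.of 10000 (-985) 960] = true := by
  decide +kernel

theorem o27_6 : chkT (O6 (q 27 100) vT eh27 fg27 []) 60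
    36641540099
    [V.of 10000 5000 6000, V.of 10000 (-50) 570, V.of 10000 7000 7600, V.of 10000 (-985) 960] = true := by
  decide +kernel

theorem o27_7 : chkT (O7 (q 27 100) vT eh27 fg27 []) 60
    40937687091
    [V.of 10000 5000 6000, V.of 10000 (-50) 570, V.of 10000 7600 8000, V.of 10000 (-985) 960] = true := by
  decide +kernel

end

end V2A

end Pool.Agent.Work.MP_b30479_gtS.G2

end

section

/-!
# Part of `V2O2E`
-/
set_option deprecated.oldSectionVars true

namespace Pool.Agent.Work.MP_b30479_gtS.G2

open VOL NumUs

namespace V2A

open NumUs.E

section
open NumIs (V)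

theorem o41_4 : chkT (O4 (q 41 100) ehc41 eh27 fg41 []) 60
    201595426916809058476463987077229130678187900992171211261644818030587231979953372220595740171512883438176076735369213151440110987712219200321379866249890307650099412909353450173789293113265976897605534470950994651668160501594419
    [V.of 10000 5000 6000, V.of 10000 (-50) 570, V.of 10000 4300 5600, V.of 10000 (-985) 960] = true := by
  decide +kernel

end

end V2A

end Pool.Agent.Work.MP_b30479_gtS.G2

end

section

/-!
# Part of `V2O2E`
-/
set_option deprecated.oldSectionVars true

namespace Pool.Agent.Work.MP_b30479_gtS.G2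

open VOL NumUs

namespace V2A

open NumUs.E

section
open NumIs (V)

theorem o41_5 : chkT (O5 (q 41 100) ehc41 eh27 fg41 []) 60
    45011895296598145598211
    [V.of 10000 5000 6000, V.of 10000 (-50) 570, V.of 10000 5600 6200, V.of 10000 (-985) 960] = true := by
  decide +kernel

theorem o41_6 : chkT (O6 (q 41 100) ehc41 eh27 fg41 []) 60
    40205262066847160832771
    [V.of 10000 5000 6000, V.of 10000 (-50) 570, V.of 10000 5600 6200, V.of 10000 (-985) 960] = true := by
  decide +kernel

end

end V2A

end Pool.Agent.Work.MP_b30479_gtS.G2

end
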