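import Pool.Agent.Work.MP_b30479_gt.TBS.G2.V2Base

/-!
# Value moves of the hinge `2 | 3`: the digit `2`, rows 3
-/

set_option deprecated.oldSectionVars true

namespace Pool.Agent.Work.MP_b30479_gtS.G2

open VOL NumUs

namespace V2A

open NumUs.E

section
open NumIs (V)

theorem o41_1 : chkT (O1 (q 41 100) ehc41 eh27 fg41 []) 60
    1243711724608057252622075094772735121296590971100505937355946715672436083609551083967681233503663375634602464269901050901460177248062175468093290444275299041426911859638874585454389770158456232043666376987503078407671360839395565465844770137988820977461479389847052420263852054406656868837516108348861895006382742334699835737384138019137589318108159140049655430601720496784764113712331084953482015585464041957622242188137474073346586564028378465972201549736662043321846560471284118098720188107211326016061928584549443644083292612019966978731173943338940541413393376802940171051223262189898899975630999704185952707561134941261310612010437119175742809724597541253368162661854757261295801556124724424627507475685237293879603843764901136217384232434140187874503184947219135966904638151906050896004671419719433701191405647781958674492562924192136192730868482736611935941641577529064780087197765856534080153739191185853440735084557629904488694637240342571300209148240601296930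
    [V.of 10000 5000 6000, V.of 10000 (-50) 570, V.of 10000 1250 4700, V.of 10000 (-985) 960] = true := by
  decide +kernel

end

end V2A

end Pool.Agent.Work.MP_b30479_gtS.G2
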