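import Pool.Agent.Work.MP_b30479_gt.TBS.G2.V2Base
import Pool.Agent.Work.MP_b30479_gt.TBS.NumU.Tree

section

/-!
# Part of `V2R2`
-/
set_option deprecated.oldSectionVars true

namespace Pool.Agent.Work.MP_b30479_gtS.G2

open VOL NumUs

namespace V2A

open NumUs.E

section
open NumIs (V)

theorem r2_4 : chkT (R4 (q 41 100) ehc41 eh27 vt eg41 [sub (q (-105) 1000) (sub vt vT)]) 60
    2038669106652465334844088824456078178569202739165285514975862398068453949379192571717171120139949587438812358837613383323578882153193205850648337093583320410422418597635254429437939619899932509273274785383195048550766510498813295117981156981922424244727230472692934295591724495465248935027239429040835063860361304296181259145170788048424198537778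
    [V.of 1000 500 600, V.of 1000 (-57) 5, V.of 1000 530 750, V.of 1000 (-114) 5] = true := by
  decide +kernel

theorem t2_1 : chkT (R4 (q 41 100) ehc41 eh27 vtr eg41 [sub (q (-105) 1000) (sub vt vT)]) 60
    190272469161224365724446517171263337260057376
    [V.of 1000 500 600, V.of 1000 (-57) 5, V.of 1000 750 800, V.of 1000 (-114) 5] = true := by
  decide +kernel

end

end V2A

end Pool.Agent.Work.MP_b30479_gtS.G2

end

section

/-!
# Part of `V2R2`
-/
set_option deprecated.oldSectionVars true

namespace Pool.Agent.Work.MP_b30479_gtS.G2

open VOL NumUs

namespace V2A

open NumUs.E

section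
open NumIs (V)

theorem l2L_1_q1 : Pool.Agent.Work.NumUs.runT (L1 (q 27 100) vT (q 48 100) eh27 eg27 []) 58
    865846329629504503199958604532556939215883673232712900849846537537740392621866962472186488694718566560822489520022261651322828049054195980921536461187299502478993182679621017161110415819696311362780565773331405225170755338362279049765924
    (Pool.Agent.Work.NumIs.setL 2 (Pool.Agent.Work.NumIs.setL 4 ([V.of 10000 5000 6000, V.of 10000 (-570) 50, V.of 10000 500 3200, V.of 10000 (-1140) 50, V.of 10000 0 3900, V.of 10000 (-1145) 570]))) =
    23042118119880559529015833519095686362542518066246068626544792646657767943337869408483428997051963801749863168098081142275592757 := by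
  decide +kernel

end

end V2A

end Pool.Agent.Work.MP_b30479_gtS.G2

end
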