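import Pool.Agent.Work.MP_b30479_gt.TBS.G2.V2Base
import Pool.Agent.Work.MP_b30479_gt.TBS.NumU.Tree

/-!
# Part of `V2R2`
-/
set_option deprecated.oldSectionVars true

namespace Pool.Agent.Work.MP_b30479_gtS.G2

open VOL NumUs

namespace V2A

open NumUs.E

section
open NumIs (V)

theorem l2L_1_q2 : Pool.Agent.Work.NumUs.runT (L1 (q 27 100) vT (q 48 100) eh27 eg27 []) 58
    23042118119880559529015833519095686362542518066246068626544792646657767943337869408483428997051963801749863168098081142275592756
    (Pool.Agent.Work.NumIs.setR 2 (Pool.Agent.Work.NumIs.setL 4 ([V.of 10000 5000 6000, V.of 10000 (-570) 50, V.of 10000 500 3200, V.of 10000 (-1140) 50, V.of 10000 0 3900, V.of 10000 (-1145) 570]))) =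
    4653318696514164942886633285042127774277311761146756019821069279163694169467607214785055658973938467 := by
  decide +kernel

theorem l2L_1_q3 : Pool.Agent.Work.NumUs.runT (L1 (q 27 100) vT (q 48 100) eh27 eg27 []) 59
    4653318696514164942886633285042127774277311761146756019821069279163694169467607214785055658973938466
    (Pool.Agent.Work.NumIs.setR 4 ([V.of 10000 5000 6000, V.of 10000 (-570) 50, V.of 10000 500 3200, V.of 10000 (-1140) 50, V.of 10000 0 3900, V.of 10000 (-1145) 570])) =
    1 := by
  decide +kernel

theorem l2L_2 : chkT (L2 (q 27 100) vT (q 48 100) eh27 eg27 []) 60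
    172759525989489455114742000817043
    [V.of 10000 5000 6000, V.of 10000 (-570) 50, V.of 10000 500 3200, V.of 10000 (-1140) 50, V.of 10000 0 3900, V.of 10000 (-1145) 570] = true := by
  decide +kernel

theorem l2P_1 : chkT (P1 (q 27 100) vT (q 48 100) eh27 eg27 []) 60
    9382448347171
    [V.of 10000 5000 6000, V.of 10000 (-570) 50, V.of 10000 0 500, V.of 10000 (-1140) 50, V.of 10000 0 600, V.of 10000 (-1145) 570] = true := by
  decide +kernel

theorem l2P_2 : chkT (P2 (q 27 100) vT (q 48 100) eh27 eg27 []) 60
    142837811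
    [V.of 10000 5000 6000, V.of 10000 (-570) 50, V.of 10000 0 500, V.of 10000 (-1140) 50, V.of 10000 0 600, V.of 10000 (-1145) 570] = true := by
  decide +kernel

end

end V2A

end Pool.Agent.Work.MP_b30479_gtS.G2
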