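import Pool.Agent.Work.MP_b30479_gt.TBS.G2.V2Base
import Pool.Agent.Work.MP_b30479_gt.TBS.NumU.Tree

section

/-!
# Part of `V2R2`
-/
set_option deprecated.oldSectionVars true

namespace Pool.Agent.Work.MP_b30479_gtS.G2

open VOL NumUs

namespace V2A

open NumUs.E

section
open NumIs (V)

theorem l2P_3 : chkT (P3 (q 27 100) vT (q 48 100) eh27 eg27 []) 60
    6810149734546481830038462237437398300826437185231424206710199933085454066286584821400670200251665631072614383903028201225625946952636650899749741636
    [V.of 10000 5000 6000, V.of 10000 (-570) 50, V.of 10000 0 500, V.of 10000 (-1140) 50, V.of 10000 100 3900, V.of 10000 (-1145) 570] = true := by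
  decide +kernel

end

end V2A

end Pool.Agent.Work.MP_b30479_gtS.G2

end

section

/-!
# Part of `V2R2`
-/
set_option deprecated.oldSectionVars true

namespace Pool.Agent.Work.MP_b30479_gtS.G2

open VOL NumUs

namespace V2A

open NumUs.E

section
open NumIs (V)

theorem l2P_4 : chkT (P4 (q 27 100) vT (q 48 100) eh27 eg27 []) 60
    252604210531347345923666507744353412536526808619797731781678988781947688516330564
    [V.of 10000 5000 6000, V.of 10000 (-570) 50, V.of 10000 0 500, V.of 10000 (-1140) 50, V.of 10000 100 3900, V.of 10000 (-1145) 570] = true := by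
  decide +kernel

end

end V2A

end Pool.Agent.Work.MP_b30479_gtS.G2

end
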