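import Pool.Agent.Work.MP_b30479_gt.TBS.G2.V2R2_1
import Pool.Agent.Work.MP_b30479_gt.TBS.G2.V2R2_3
import Pool.Agent.Work.MP_b30479_gt.TBS.G2.V2R2_4
import Pool.Agent.Work.MP_b30479_gt.TBS.G2.V2R2_6

/-!
# Value moves of the hinge `2 | 3` (side `S3` of an inner digit `3`): the inner digit
-/

namespace Pool.Agent.Work.MP_b30479_gtS.G2

open VOL NumUs

namespace V2A

open NumUs.E

section
open NumIs (V)

theorem l2L_1 : chkT (L1 (q 27 100) vT (q 48 100) eh27 eg27 []) 60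
    221656660385153152819189402760334576439266220347574502617560713609661540511197942392879741105847953039570557317125698982738643980557874171115913334063948672634622254765982980393244266449842255708871824837972839737643713366620743436740076580
    [V.of 10000 5000 6000, V.of 10000 (-570) 50, V.of 10000 500 3200, V.of 10000 (-1140) 50, V.of 10000 0 3900, V.of 10000 (-1145) 570] = true :=
      Pool.Agent.Work.NumUs.chkT_of (Pool.Agent.Work.NumUs.runT_split rfl rfl rfl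
        (Pool.Agent.Work.NumUs.runT_split rfl rfl rfl
          l2L_1_q1
          l2L_1_q2)
        l2L_1_q3)

end

variable {x T l h t w S : ℝ}

theorem m2 (hx : 1 / 2 ≤ x) (hx' : x ≤ 6 / 10) (hT : -(57 / 1000) ≤ T) (hT' : T ≤ 5 / 1000)
    (hl : 320 / 1000 ≤ l) (hl' : l ≤ 500 / 1000) (hh : -(114 / 1000) ≤ h) (hh' : h ≤ 5 / 1000) :
    0 < dvR (27 / 100) T x (h27 x T) l h + g27 x T + uu (l - x) (h - h27 x T) := by
  obtain ⟨m1, m2⟩ := h27_mem (T := T) hx hx' (a := 57 / 1000) (b := 5 / 1000) (by linarith only [hT]) (by linarith only [hT']) (by norm_num)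
    (by norm_num)
  have ev : vt.val [x, T, l, h] = h := rfl
  have := right_row (c := q 27 100) (hc := vT) (hx := eh27) (g := eg27) (hl := vt) (es := [])
    (xs := [x, T, l, h]) (l := l) (x := x) rfl rfl
    (by rw [eh27_val, ev, abs_le]; constructor <;> linarith only [hh, m2, hh', m1]) all_nil
    (fun h1 => use4 m2_1 (by norm_num) (by
      refine ⟨⟨?_, ?_⟩, ⟨?_, ?_⟩, ⟨?_, ?_⟩, ⟨?_, ?_⟩⟩ <;>
        push_cast <;> linarith only [hx, hx', hT, hT', hl, hl', hh, hh']))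
    (fun h1 => use4 m2_2 (by norm_num) (by
      refine ⟨⟨?_, ?_⟩, ⟨?_, ?_⟩, ⟨?_, ?_⟩, ⟨?_, ?_⟩⟩ <;>
        push_cast <;> linarith only [hx, hx', hT, hT', hl, hl', hh, hh']))
    (fun h1 h2 => use4 m2_3 (by norm_num) (by
      refine ⟨⟨?_, ?_⟩, ⟨?_, ?_⟩, ⟨?_, ?_⟩, ⟨?_, ?_⟩⟩ <;>
        push_cast <;> linarith only [hx, hx', hT, hT', h1, hl', hh, hh']))
    (fun h1 => absurd h1 (by linarith only [hx, hl', h1]))
  rw [eh27_val, eg27_val] at this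
  have e : (q 27 100).val [x, T, l, h] = 27 / 100 := by norm_num [E.val]
  rw [e] at this
  exact this

theorem r2 (hx : 1 / 2 ≤ x) (hx' : x ≤ 6 / 10) (hT : -(57 / 1000) ≤ T) (hT' : T ≤ 5 / 1000)
    (hl : 500 / 1000 ≤ l) (hl' : l ≤ 750 / 1000) (hh : -(114 / 1000) ≤ h) (hh' : h ≤ 5 / 1000)
    (hd : -(105 / 1000) ≤ h - T) :
    0 < dvR (41 / 100) (T * (19 / 27)) x (h27 x T) l h + g41 x T + uu (l - x) (h - h27 x T) := by
  obtain ⟨m1, m2⟩ := h27_mem (T := T) hx hx' (a := 57 / 1000) (b := 5 / 1000) (by linarith only [hT]) (by linarith only [hT']) (by norm_num)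
    (by norm_num)
  have ev : vt.val [x, T, l, h] = h := rfl
  have := right_row (c := q 41 100) (hc := ehc41) (hx := eh27) (g := eg41) (hl := vt) (es := [sub (q (-105) 1000) (sub vt vT)])
    (xs := [x, T, l, h]) (l := l) (x := x) rfl rfl
    (by rw [eh27_val, ev, abs_le]; constructor <;> linarith only [hh, m2, hh', m1]) (all_cons (by
      simp only [E.val, ev, vT_val]
      push_cast
      linarith only [hd]) all_nil)
    (fun h1 => use4 r2_1 (by norm_num) (by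
      refine ⟨⟨?_, ?_⟩, ⟨?_, ?_⟩, ⟨?_, ?_⟩, ⟨?_, ?_⟩⟩ <;>
        push_cast <;> linarith only [hl, h1, hx', hT, hT', hh, hh']))
    (fun h1 => use4 r2_2 (by norm_num) (by
      refine ⟨⟨?_, ?_⟩, ⟨?_, ?_⟩, ⟨?_, ?_⟩, ⟨?_, ?_⟩⟩ <;>
        push_cast <;> linarith only [hl, h1, hx', hT, hT', hh, hh']))
    (fun h1 h2 => use4 r2_3 (by norm_num) (by
      refine ⟨⟨?_, ?_⟩, ⟨?_, ?_⟩, ⟨?_, ?_⟩, ⟨?_, ?_⟩⟩ <;>
        push_cast <;> linarith only [hx, hx', hT, hT', hl, h2, hh, hh']))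
    (fun h1 => use4 r2_4 (by norm_num) (by
      refine ⟨⟨?_, ?_⟩, ⟨?_, ?_⟩, ⟨?_, ?_⟩, ⟨?_, ?_⟩⟩ <;>
        push_cast <;> linarith only [hx, hx', hT, hT', h1, hl', hh, hh']))
  rw [eh27_val, eg41_val] at this
  have e : (q 41 100).val [x, T, l, h] = 41 / 100 := by norm_num [E.val]
  have e' : (ehc41).val [x, T, l, h] = (T * (19 / 27)) := by rw [ehc41_val]
  rw [e, e'] at this
  exact this

theorem t2 (hx : 1 / 2 ≤ x) (hx' : x ≤ 6 / 10) (hT : -(57 / 1000) ≤ T) (hT' : T ≤ 5 / 1000)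
    (hl : 75 / 100 ≤ l) (hl' : l ≤ 80 / 100) (hh : -(114 / 1000) ≤ t) (hh' : t ≤ 5 / 1000)
    (hd : -(105 / 1000) ≤ t - T) :
    0 < dvR (41 / 100) (T * (19 / 27)) x (h27 x T) l (t * (16 - 20 * l)) + g41 x T +
      uu (l - x) (t * (16 - 20 * l) - h27 x T) := by
  have k : ∃ e ∈ R4 (q 41 100) ehc41 eh27 vtr eg41 [sub (q (-105) 1000) (sub vt vT)], 0 < e.val [x, T, l, t] := use4 t2_1 (by norm_num) (by
      refine ⟨⟨?_, ?_⟩, ⟨?_, ?_⟩, ⟨?_, ?_⟩, ⟨?_, ?_⟩⟩ <;>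
        push_cast <;> linarith only [hx, hx', hT, hT', hl, hl', hh, hh'])
  have := of_list k (all_cons (by simp only [E.val, vs_val]; push_cast; linarith only [hx', hl]) (all_cons (by
      simp only [E.val, vt_val, vT_val]
      push_cast
      linarith only [hd]) all_nil))
  rw [FRe_val, eh27_val, eg41_val, vtr_val] at this
  have e : (q 41 100).val [x, T, l, t] = 41 / 100 := by norm_num [E.val]
  have e' : (ehc41).val [x, T, l, t] = (T * (19 / 27)) := by rw [ehc41_val]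
  rw [e, e'] at this
  have e2 : (uu vs (sub vtr eh27)).val [x, T, l, t] =
      NumUs.uu (l - x) (t * (16 - 20 * l) - h27 x T) := by
    simp only [E.val, vs_val, vtr_val, eh27_val]
  rw [e2] at this
  exact this

theorem l2L (hx : 1 / 2 ≤ x) (hx' : x ≤ 6 / 10) (hT : -(57 / 1000) ≤ T) (hT' : T ≤ 5 / 1000)
    (hl : 5 / 100 ≤ l) (hl' : l ≤ 320 / 1000) (ht : -(114 / 1000) ≤ t) (ht' : t ≤ 5 / 1000) (hw : 0 ≤ w)
    (hw' : w ≤ 39 / 100) (hS : -(1145 / 10000) ≤ S) (hS' : S ≤ 57 / 1000) :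
    0 < dvL (27 / 100) T (48 / 100) x (h27 x T) l t w S + g27 x T + uu (l - x) (t - h27 x T) := by
  have := left_row (c := q 27 100) (hc := vT) (l' := q 48 100) (hx := eh27) (g := eg27) (es := [])
    (x := x) (T := T) (l := l) (t := t) (w := w) (S := S) all_nil
    (use6 l2L_1 (by norm_num) (by
      refine ⟨⟨?_, ?_⟩, ⟨?_, ?_⟩, ⟨?_, ?_⟩, ⟨?_, ?_⟩, ⟨?_, ?_⟩, ⟨?_, ?_⟩⟩ <;>
        push_cast <;> linarith only [hx, hx', hT, hT', hl, hl', ht, ht', hw, hw', hS, hS']))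
    (use6 l2L_2 (by norm_num) (by
      refine ⟨⟨?_, ?_⟩, ⟨?_, ?_⟩, ⟨?_, ?_⟩, ⟨?_, ?_⟩, ⟨?_, ?_⟩, ⟨?_, ?_⟩⟩ <;>
        push_cast <;> linarith only [hx, hx', hT, hT', hl, hl', ht, ht', hw, hw', hS, hS']))
  rw [eh27_val, eg27_val] at this
  have e : (q 27 100).val [x, T, l, t, w, S] = 27 / 100 := by norm_num [E.val]
  have e' : (q 48 100).val [x, T, l, t, w, S] = 48 / 100 := by norm_num [E.val]
  rw [e, e'] at this
  exact this

theorem l2P (hx : 1 / 2 ≤ x) (hx' : x ≤ 6 / 10) (hT : -(57 / 1000) ≤ T) (hT' : T ≤ 5 / 1000)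
    (hl : 0 ≤ l) (hl' : l ≤ 5 / 100) (ht : -(114 / 1000) ≤ t) (ht' : t ≤ 5 / 1000) (hw : 0 ≤ w)
    (hw' : w ≤ 39 / 100) (hS : -(1145 / 10000) ≤ S) (hS' : S ≤ 57 / 1000)
    (hs : w ≤ 6 / 100 → |S| ≤ 78 / 100 * w) :
    0 < dvG (27 / 100) T (48 / 100) t x (h27 x T) l (20 * (t * l)) w S + g27 x T +
      (uu l (20 * (t * l)) - uu (l + w) (20 * (t * l) + S) +
        uu (l - x) (20 * (t * l) - h27 x T)) := by
  have := ramp_row (c := q 27 100) (hc := vT) (l' := q 48 100) (hx := eh27) (g := eg27) (es := [])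
    (x := x) (T := T) (l := l) (t := t) (w := w) (S := S) all_nil hl hl' hw
    (by rw [abs_le]; constructor <;> linarith only [ht, ht']) hs
    (fun h1 => use6 l2P_1 (by norm_num) (by
      refine ⟨⟨?_, ?_⟩, ⟨?_, ?_⟩, ⟨?_, ?_⟩, ⟨?_, ?_⟩, ⟨?_, ?_⟩, ⟨?_, ?_⟩⟩ <;>
        push_cast <;> linarith only [hx, hx', hT, hT', hl, hl', ht, ht', hw, h1, hS, hS']))
    (fun h1 => use6 l2P_2 (by norm_num) (by
      refine ⟨⟨?_, ?_⟩, ⟨?_, ?_⟩, ⟨?_, ?_⟩, ⟨?_, ?_⟩, ⟨?_, ?_⟩, ⟨?_, ?_⟩⟩ <;>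
        push_cast <;> linarith only [hx, hx', hT, hT', hl, hl', ht, ht', hw, h1, hS, hS']))
    (fun h1 => use6 l2P_3 (by norm_num) (by
      refine ⟨⟨?_, ?_⟩, ⟨?_, ?_⟩, ⟨?_, ?_⟩, ⟨?_, ?_⟩, ⟨?_, ?_⟩, ⟨?_, ?_⟩⟩ <;>
        push_cast <;> linarith only [hx, hx', hT, hT', hl, hl', ht, ht', h1, hw', hS, hS']))
    (fun h1 => use6 l2P_4 (by norm_num) (by
      refine ⟨⟨?_, ?_⟩, ⟨?_, ?_⟩, ⟨?_, ?_⟩, ⟨?_, ?_⟩, ⟨?_, ?_⟩, ⟨?_, ?_⟩⟩ <;>
        push_cast <;> linarith only [hx, hx', hT, hT', hl, hl', ht, ht', h1, hw', hS, hS']))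
  rw [eh27_val, eg27_val] at this
  have e : (q 27 100).val [x, T, l, t, w, S] = 27 / 100 := by norm_num [E.val]
  have e' : (q 48 100).val [x, T, l, t, w, S] = 48 / 100 := by norm_num [E.val]
  rw [e, e'] at this
  exact this

end V2A

end Pool.Agent.Work.MP_b30479_gtS.G2
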