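import Pool.Agent.Work.MP_b30479_gt.TBS.G2.V2Wp16

/-!
# Value moves of the hinge `3 | 3` (side `S3` of an inner digit `3`): the inner digit
-/

namespace Pool.Agent.Work.MP_b30479_gtS.G2

open VOL NumUs

namespace V2A

open NumUs.E

variable {x T l h t w S : ℝ}

theorem l33L (hx : 1 / 2 ≤ x) (hx' : x ≤ 6 / 10) (hT : -(28 / 1000) ≤ T) (hT' : T ≤ 22 / 1000)
    (hl : 5 / 100 ≤ l) (hl' : l ≤ 320 / 1000) (ht : -(114 / 1000) ≤ t) (ht' : t ≤ 5 / 1000) (hw : 0 ≤ w)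
    (hw' : w ≤ 39 / 100) (hS : -(1145 / 10000) ≤ S) (hS' : S ≤ 57 / 1000) :
    0 < dvL (30 / 100) T (46 / 100) x (h30 x T) l t w S + g33 x T + uu (l - x) (t - h30 x T) := by
  have := left_row (c := q 30 100) (hc := vT) (l' := q 46 100) (hx := eh30) (g := eg33) (es := [])
    (x := x) (T := T) (l := l) (t := t) (w := w) (S := S) all_nil
    (use6 l33L_1 (by norm_num) (by
      refine ⟨⟨?_, ?_⟩, ⟨?_, ?_⟩, ⟨?_, ?_⟩, ⟨?_, ?_⟩, ⟨?_, ?_⟩, ⟨?_, ?_⟩⟩ <;>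
        push_cast <;> linarith only [hx, hx', hT, hT', hl, hl', ht, ht', hw, hw', hS, hS']))
    (use6 l33L_2 (by norm_num) (by
      refine ⟨⟨?_, ?_⟩, ⟨?_, ?_⟩, ⟨?_, ?_⟩, ⟨?_, ?_⟩, ⟨?_, ?_⟩, ⟨?_, ?_⟩⟩ <;>
        push_cast <;> linarith only [hx, hx', hT, hT', hl, hl', ht, ht', hw, hw', hS, hS']))
  rw [eh30_val, eg33_val] at this
  have e : (q 30 100).val [x, T, l, t, w, S] = 30 / 100 := by norm_num [E.val]
  have e' : (q 46 100).val [x, T, l, t, w, S] = 46 / 100 := by norm_num [E.val]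
  rw [e, e'] at this
  exact this

theorem l33P (hx : 1 / 2 ≤ x) (hx' : x ≤ 6 / 10) (hT : -(28 / 1000) ≤ T) (hT' : T ≤ 22 / 1000)
    (hl : 0 ≤ l) (hl' : l ≤ 5 / 100) (ht : -(114 / 1000) ≤ t) (ht' : t ≤ 5 / 1000) (hw : 0 ≤ w)
    (hw' : w ≤ 39 / 100) (hS : -(1145 / 10000) ≤ S) (hS' : S ≤ 57 / 1000)
    (hs : w ≤ 6 / 100 → |S| ≤ 78 / 100 * w) :
    0 < dvG (30 / 100) T (46 / 100) t x (h30 x T) l (20 * (t * l)) w S + g33 x T +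
      (uu l (20 * (t * l)) - uu (l + w) (20 * (t * l) + S) +
        uu (l - x) (20 * (t * l) - h30 x T)) := by
  have := ramp_row (c := q 30 100) (hc := vT) (l' := q 46 100) (hx := eh30) (g := eg33) (es := [])
    (x := x) (T := T) (l := l) (t := t) (w := w) (S := S) all_nil hl hl' hw
    (by rw [abs_le]; constructor <;> linarith only [ht, ht']) hs
    (fun h1 => use6 l33P_1 (by norm_num) (by
      refine ⟨⟨?_, ?_⟩, ⟨?_, ?_⟩, ⟨?_, ?_⟩, ⟨?_, ?_⟩, ⟨?_, ?_⟩, ⟨?_, ?_⟩⟩ <;>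
        push_cast <;> linarith only [hx, hx', hT, hT', hl, hl', ht, ht', hw, h1, hS, hS']))
    (fun h1 => use6 l33P_2 (by norm_num) (by
      refine ⟨⟨?_, ?_⟩, ⟨?_, ?_⟩, ⟨?_, ?_⟩, ⟨?_, ?_⟩, ⟨?_, ?_⟩, ⟨?_, ?_⟩⟩ <;>
        push_cast <;> linarith only [hx, hx', hT, hT', hl, hl', ht, ht', hw, h1, hS, hS']))
    (fun h1 => use6 l33P_3 (by norm_num) (by
      refine ⟨⟨?_, ?_⟩, ⟨?_, ?_⟩, ⟨?_, ?_⟩, ⟨?_, ?_⟩, ⟨?_, ?_⟩, ⟨?_, ?_⟩⟩ <;>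
        push_cast <;> linarith only [hx, hx', hT, hT', hl, hl', ht, ht', h1, hw', hS, hS']))
    (fun h1 => use6 l33P_4 (by norm_num) (by
      refine ⟨⟨?_, ?_⟩, ⟨?_, ?_⟩, ⟨?_, ?_⟩, ⟨?_, ?_⟩, ⟨?_, ?_⟩, ⟨?_, ?_⟩⟩ <;>
        push_cast <;> linarith only [hx, hx', hT, hT', hl, hl', ht, ht', h1, hw', hS, hS']))
  rw [eh30_val, eg33_val] at this
  have e : (q 30 100).val [x, T, l, t, w, S] = 30 / 100 := by norm_num [E.val]
  have e' : (q 46 100).val [x, T, l, t, w, S] = 46 / 100 := by norm_num [E.val]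
  rw [e, e'] at this
  exact this

end V2A

end Pool.Agent.Work.MP_b30479_gtS.G2
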