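import Pool.Agent.Work.MP_b30479_gt.TBS.G2.V2O2E_1
import Pool.Agent.Work.MP_b30479_gt.TBS.G2.V2O2A
import Pool.Agent.Work.MP_b30479_gt.TBS.G2.V2O2B_1
import Pool.Agent.Work.MP_b30479_gt.TBS.G2.V2O2B_2
import Pool.Agent.Work.MP_b30479_gt.TBS.G2.V2O2C
import Pool.Agent.Work.MP_b30479_gt.TBS.G2.V2Wp16
import Pool.Agent.Work.MP_b30479_gt.TBS.G2.V2R33
import Pool.Agent.Work.MP_b30479_gt.TBS.G2.V2Wp9
import Pool.Agent.Work.MP_b30479_gt.TBS.G2.V2R2
import Pool.Agent.Work.MP_b30479_gt.TBS.G2.V2O3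
import Pool.Agent.Work.MP_b30479_gt.TBS.G2.V2O2_2

section

/-!
# Value moves of the hinge `2 | 3`: the digit `2`, the value moves
-/

namespace Pool.Agent.Work.MP_b30479_gtS.G2

open VOL NumUs

namespace V2A

open NumUs.E

variable {x T h k κ : ℝ}

theorem o41' (hx : 1 / 2 ≤ x) (hx' : x ≤ 6 / 10) (hT : -(5 / 1000) ≤ T) (hT' : T ≤ 57 / 1000)
    (hl : 0 ≤ k) (hl' : k ≤ 125 / 1000) (ht : -(850 / 1000) ≤ κ) (ht' : κ ≤ 770 / 1000) :
    g41 x (-T) < dvO (41 / 100) (T * (19 / 27)) x (h27 x T) k (κ * k) +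
      (NumUs.uu (41 / 100 + k) ((T * (19 / 27)) + κ * k) - NumUs.uu (x + k) (h27 x T + κ * k)) := by
  have key : ∃ e ∈ OS (q 41 100) ehc41 eh27 fg41, 0 < e.val [x, T, k, κ] :=
    use4 o41_0 (by norm_num) (by
      refine ⟨⟨?_, ?_⟩, ⟨?_, ?_⟩, ⟨?_, ?_⟩, ⟨?_, ?_⟩⟩ <;>
        push_cast <;> linarith only [hx, hx', hT, hT', hl, hl', ht, ht'])
  have := of_list key all_nil
  rw [FOe_val] at this
  have e0 : (q 41 100).val [x, T, k, κ] = 41 / 100 := by norm_num [E.val]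
  have e1 : vkk.val [x, T, k, κ] = κ * k := rfl
  have e2 : (sub (uu (add (q 41 100) vl) (add vkk ehc41)) (uu vk (add vkk eh27))).val [x, T, k, κ] =
      NumUs.uu (41 / 100 + k) (κ * k + (T * (19 / 27))) - NumUs.uu (x + k) (κ * k + h27 x T) := by
    have e3 : vl.val [x, T, k, κ] = k := rfl
    have e4 : vk.val [x, T, k, κ] = x + k := rfl
    have e5 := eh27_val (x := x) (T := T) (r := [k, κ])
    have e6 := ehc41_val (x := x) (T := T) (r := [k, κ])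
    simp only [E.val, e1, e3, e4] at e0 e5 e6 ⊢
    rw [e0, e5, e6]
  rw [e0, e1, e2, eh27_val, fg41_val, ehc41_val] at this
  have e7 : vl.val [x, T, k, κ] = k := rfl
  have e8 : vx.val [x, T, k, κ] = x := rfl
  rw [e7, e8] at this
  rw [add_comm (T * (19 / 27)) (κ * k), add_comm (h27 x T) (κ * k)]
  linarith only [this]

end V2A

end Pool.Agent.Work.MP_b30479_gtS.G2

end

section

/-!
# Part of `V2O2`
-/
namespace Pool.Agent.Work.MP_b30479_gtS.G2

open VOL NumUs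

namespace V2A

open NumUs.E

variable {x T h k κ : ℝ}

theorem o27 (hx : 1 / 2 ≤ x) (hx' : x ≤ 6 / 10) (hT : -(5 / 1000) ≤ T) (hT' : T ≤ 57 / 1000)
    (hl : 125 / 1000 ≤ k) (hl' : k ≤ 8 / 10) (ht : -(985 / 10000) ≤ h) (ht' : h ≤ 96 / 1000)
    (hr : 56 / 100 ≤ k → -(82 / 1000) ≤ h ∧ h ≤ 15 / 1000) :
    g27 x (-T) < dvO (27 / 100) T x (h27 x T) k h +
      (NumUs.uu (27 / 100 + k) (T + h) - NumUs.uu (x + k) (h27 x T + h)) := by
  obtain ⟨m1, m2⟩ := h27_mem (T := T) hx hx' (a := 5 / 1000) (b := 57 / 1000) (by linarith only [hT])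
    (by linarith only [hT']) (by norm_num) (by norm_num)
  have e0 : (q 27 100).val [x, T, k, h] = 27 / 100 := by norm_num [E.val]
  have := other_row (c := q 27 100) (hc := vT) (hx := eh27) (g := fg27) (es := [])
    (xs := [x, T, k, h]) (cc := 27 / 100) (k := k) (hk := h) (x := x) rfl rfl rfl e0
    (by rw [eh27_val, abs_le]; constructor <;> linarith only [ht, m1, ht', m2])
    (fun h0 => by
      obtain ⟨b1, b2⟩ := hr (by linarith only [h0])
      rw [vT_val, abs_le]; constructor <;> linarith only [hT, b1, hT', ht', b2])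
    (fun h1 => use4 o27_1 (by norm_num) (by
      refine ⟨⟨?_, ?_⟩, ⟨?_, ?_⟩, ⟨?_, ?_⟩, ⟨?_, ?_⟩⟩ <;>
        push_cast <;> linarith only [hx, hx', hT, hT', hl, h1, ht, ht']))
    (fun h1 h2 => use4 o27_2 (by norm_num) (by
      refine ⟨⟨?_, ?_⟩, ⟨?_, ?_⟩, ⟨?_, ?_⟩, ⟨?_, ?_⟩⟩ <;>
        push_cast <;> linarith only [hx, hx', hT, hT', h1, h2, ht, ht']))
    (fun h1 h2 => use4 o27_3 (by norm_num) (by
      refine ⟨⟨?_, ?_⟩, ⟨?_, ?_⟩, ⟨?_, ?_⟩, ⟨?_, ?_⟩⟩ <;>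
        push_cast <;> linarith only [hx, hx', hT, hT', h1, h2, ht, ht']))
    (fun h1 h2 => use4 o27_4 (by norm_num) (by
      refine ⟨⟨?_, ?_⟩, ⟨?_, ?_⟩, ⟨?_, ?_⟩, ⟨?_, ?_⟩⟩ <;>
        push_cast <;> linarith only [hx, hx', hT, hT', h1, h2, ht, ht']))
    (fun h1 h2 => use4 o27_5 (by norm_num) (by
      refine ⟨⟨?_, ?_⟩, ⟨?_, ?_⟩, ⟨?_, ?_⟩, ⟨?_, ?_⟩⟩ <;>
        push_cast <;> linarith only [hx, hx', hT, hT', h1, h2, ht, ht']))
    (fun h1 h2 => use4 o27_6 (by norm_num) (by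
      refine ⟨⟨?_, ?_⟩, ⟨?_, ?_⟩, ⟨?_, ?_⟩, ⟨?_, ?_⟩⟩ <;>
        push_cast <;> linarith only [hx, hx', hT, hT', h1, h2, ht, ht']))
    (fun h1 => use4 o27_7 (by norm_num) (by
      refine ⟨⟨?_, ?_⟩, ⟨?_, ?_⟩, ⟨?_, ?_⟩, ⟨?_, ?_⟩⟩ <;>
        push_cast <;> linarith only [hx, hx', hT, hT', h1, hl', ht, ht']))
    (fun h1 => use4 o27_8 (by norm_num) (by
      refine ⟨⟨?_, ?_⟩, ⟨?_, ?_⟩, ⟨?_, ?_⟩, ⟨?_, ?_⟩⟩ <;>
        push_cast <;> linarith only [hx, hx', hT, hT', h1, hl', ht, ht']))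
    all_nil
  rw [eh27_val, fg27_val, vT_val] at this
  exact this

end V2A

end Pool.Agent.Work.MP_b30479_gtS.G2

end

section

/-!
# Part of `V2O2`
-/
namespace Pool.Agent.Work.MP_b30479_gtS.G2

open VOL NumUs

namespace V2A

open NumUs.E

variable {x T h k κ : ℝ}

theorem o41 (hx : 1 / 2 ≤ x) (hx' : x ≤ 6 / 10) (hT : -(5 / 1000) ≤ T) (hT' : T ≤ 57 / 1000)
    (hl : 125 / 1000 ≤ k) (hl' : k ≤ 8 / 10) (ht : -(985 / 10000) ≤ h) (ht' : h ≤ 96 / 1000)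
    (hr : 56 / 100 ≤ k → -(82 / 1000) ≤ h ∧ h ≤ 15 / 1000) :
    g41 x (-T) < dvO (41 / 100) (T * (19 / 27)) x (h27 x T) k h +
      (NumUs.uu (41 / 100 + k) ((T * (19 / 27)) + h) - NumUs.uu (x + k) (h27 x T + h)) := by
  obtain ⟨m1, m2⟩ := h27_mem (T := T) hx hx' (a := 5 / 1000) (b := 57 / 1000) (by linarith only [hT])
    (by linarith only [hT']) (by norm_num) (by norm_num)
  have e0 : (q 41 100).val [x, T, k, h] = 41 / 100 := by norm_num [E.val]
  have := other_row (c := q 41 100) (hc := ehc41) (hx := eh27) (g := fg41) (es := [])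
    (xs := [x, T, k, h]) (cc := 41 / 100) (k := k) (hk := h) (x := x) rfl rfl rfl e0
    (by rw [eh27_val, abs_le]; constructor <;> linarith only [ht, m1, ht', m2])
    (fun h0 => by
      obtain ⟨b1, b2⟩ := hr (by linarith only [h0])
      rw [ehc41_val, abs_le]; constructor <;> linarith only [hT, b1, hT', ht'])
    (fun h1 => use4 o41_1 (by norm_num) (by
      refine ⟨⟨?_, ?_⟩, ⟨?_, ?_⟩, ⟨?_, ?_⟩, ⟨?_, ?_⟩⟩ <;>
        push_cast <;> linarith only [hx, hx', hT, hT', hl, h1, ht, ht']))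
    (fun h1 h2 => use4 o41_2 (by norm_num) (by
      refine ⟨⟨?_, ?_⟩, ⟨?_, ?_⟩, ⟨?_, ?_⟩, ⟨?_, ?_⟩⟩ <;>
        push_cast <;> linarith only [hx, hx', hT, hT', h1, h2, ht, ht']))
    (fun h1 h2 => use4 o41_3 (by norm_num) (by
      refine ⟨⟨?_, ?_⟩, ⟨?_, ?_⟩, ⟨?_, ?_⟩, ⟨?_, ?_⟩⟩ <;>
        push_cast <;> linarith only [hx, hx', hT, hT', h1, h2, ht, ht']))
    (fun h1 h2 => use4 o41_4 (by norm_num) (by
      refine ⟨⟨?_, ?_⟩, ⟨?_, ?_⟩, ⟨?_, ?_⟩, ⟨?_, ?_⟩⟩ <;>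
        push_cast <;> linarith only [hx, hx', hT, hT', h1, h2, ht, ht']))
    (fun h1 h2 => use4 o41_5 (by norm_num) (by
      refine ⟨⟨?_, ?_⟩, ⟨?_, ?_⟩, ⟨?_, ?_⟩, ⟨?_, ?_⟩⟩ <;>
        push_cast <;> linarith only [hx, hx', hT, hT', h1, h2, ht, ht']))
    (fun h1 h2 => use4 o41_6 (by norm_num) (by
      refine ⟨⟨?_, ?_⟩, ⟨?_, ?_⟩, ⟨?_, ?_⟩, ⟨?_, ?_⟩⟩ <;>
        push_cast <;> linarith only [hx, hx', hT, hT', h1, h2, ht, ht']))
    (fun h1 => use4 o41_7 (by norm_num) (by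
      refine ⟨⟨?_, ?_⟩, ⟨?_, ?_⟩, ⟨?_, ?_⟩, ⟨?_, ?_⟩⟩ <;>
        push_cast <;> linarith only [hx, hx', hT, hT', h1, hl', ht, ht']))
    (fun h1 => use4 o41_8 (by norm_num) (by
      refine ⟨⟨?_, ?_⟩, ⟨?_, ?_⟩, ⟨?_, ?_⟩, ⟨?_, ?_⟩⟩ <;>
        push_cast <;> linarith only [hx, hx', hT, hT', h1, hl', ht, ht']))
    all_nil
  rw [eh27_val, fg41_val, ehc41_val] at this
  exact this

end V2A

end Pool.Agent.Work.MP_b30479_gtS.G2

end

section

/-!
# Part of `V2R33`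
-/
namespace Pool.Agent.Work.MP_b30479_gtS.G2

open VOL NumUs

namespace V2A

open NumUs.E

variable {x T l h t w S : ℝ}

theorem r33 (hx : 1 / 2 ≤ x) (hx' : x ≤ 6 / 10) (hT : -(28 / 1000) ≤ T) (hT' : T ≤ 22 / 1000)
    (hl : 320 / 1000 ≤ l) (hl' : l ≤ 750 / 1000) (hh : -(114 / 1000) ≤ h) (hh' : h ≤ 5 / 1000) :
    0 < dvR (30 / 100) T x (h30 x T) l h + g33 x T + uu (l - x) (h - h30 x T) := by
  obtain ⟨m1, m2⟩ := h30_mem (T := T) hx hx' (a := 28 / 1000) (b := 22 / 1000) (by linarith only [hT]) (by linarith only [hT']) (by norm_num)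
    (by norm_num)
  have ev : vt.val [x, T, l, h] = h := rfl
  have := right_row (c := q 30 100) (hc := vT) (hx := eh30) (g := eg33) (hl := vt) (es := [])
    (xs := [x, T, l, h]) (l := l) (x := x) rfl rfl
    (by rw [eh30_val, ev, abs_le]; constructor <;> linarith only [hh, m2, hh', m1]) all_nil
    (fun h1 => use4 r33_1 (by norm_num) (by
      refine ⟨⟨?_, ?_⟩, ⟨?_, ?_⟩, ⟨?_, ?_⟩, ⟨?_, ?_⟩⟩ <;>
        push_cast <;> linarith only [hx, hx', hT, hT', hl, h1, hh, hh']))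
    (fun h1 => use4 r33_2 (by norm_num) (by
      refine ⟨⟨?_, ?_⟩, ⟨?_, ?_⟩, ⟨?_, ?_⟩, ⟨?_, ?_⟩⟩ <;>
        push_cast <;> linarith only [hx, hx', hT, hT', hl, h1, hh, hh']))
    (fun h1 h2 => use4 r33_3 (by norm_num) (by
      refine ⟨⟨?_, ?_⟩, ⟨?_, ?_⟩, ⟨?_, ?_⟩, ⟨?_, ?_⟩⟩ <;>
        push_cast <;> linarith only [hx, hx', hT, hT', h1, h2, hh, hh']))
    (fun h1 => use4 r33_4 (by norm_num) (by
      refine ⟨⟨?_, ?_⟩, ⟨?_, ?_⟩, ⟨?_, ?_⟩, ⟨?_, ?_⟩⟩ <;>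
        push_cast <;> linarith only [hx, hx', hT, hT', h1, hl', hh, hh']))
  rw [eh30_val, eg33_val] at this
  have e : (q 30 100).val [x, T, l, h] = 30 / 100 := by norm_num [E.val]
  rw [e] at this
  exact this

theorem t33 (hx : 1 / 2 ≤ x) (hx' : x ≤ 6 / 10) (hT : -(28 / 1000) ≤ T) (hT' : T ≤ 22 / 1000)
    (hl : 75 / 100 ≤ l) (hl' : l ≤ 80 / 100) (hh : -(114 / 1000) ≤ t) (hh' : t ≤ 5 / 1000) :
    0 < dvR (30 / 100) T x (h30 x T) l (t * (16 - 20 * l)) + g33 x T +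
      uu (l - x) (t * (16 - 20 * l) - h30 x T) := by
  have k : ∃ e ∈ R4 (q 30 100) vT eh30 vtr eg33 [], 0 < e.val [x, T, l, t] := use4 t33_1 (by norm_num) (by
      refine ⟨⟨?_, ?_⟩, ⟨?_, ?_⟩, ⟨?_, ?_⟩, ⟨?_, ?_⟩⟩ <;>
        push_cast <;> linarith only [hx, hx', hT, hT', hl, hl', hh, hh'])
  have := of_list k (all_cons (by simp only [E.val, vs_val]; push_cast; linarith only [hx', hl]) all_nil)
  rw [FRe_val, eh30_val, eg33_val, vtr_val] at this
  have e : (q 30 100).val [x, T, l, t] = 30 / 100 := by norm_num [E.val]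
  rw [e] at this
  have e2 : (uu vs (sub vtr eh30)).val [x, T, l, t] =
      NumUs.uu (l - x) (t * (16 - 20 * l) - h30 x T) := by
    simp only [E.val, vs_val, vtr_val, eh30_val]
  rw [e2] at this
  exact this

end V2A

end Pool.Agent.Work.MP_b30479_gtS.G2

end

section

/-!
# Value moves of the hinge on the side `S3` of an inner digit `3`: rows in complex variables
-/

namespace Pool.Agent.Work.MP_b30479_gtS.G2

open VOL NumUs

namespace V2A

/-! ### heights of the inner variable -/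

theorem mid_left {v : ℂ} {t : ℝ} (hv : RH v t (8 / 10) (5 / 100) (5 / 100))
    (h : v.re ≤ 5 / 100) : v.im = 20 * (t * v.re) := by
  rw [MR.RH_left hv (by norm_num) (by norm_num) (by norm_num) h]
  ring

theorem mid_flat {v : ℂ} {t : ℝ} (hv : RH v t (8 / 10) (5 / 100) (5 / 100))
    (h : 5 / 100 ≤ v.re) (h' : v.re ≤ 75 / 100) : v.im = t :=
  MR.RH_flat hv (by norm_num) (by norm_num) h (by linarith only [h'])

theorem mid_right {v : ℂ} {t : ℝ} (hv : RH v t (8 / 10) (5 / 100) (5 / 100))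
    (h : 75 / 100 ≤ v.re) : v.im = t * (16 - 20 * v.re) := by
  rw [MR.RH_right hv (by norm_num) (by norm_num) (by norm_num) (by linarith only [h])]
  ring

/-- the conditions on the hinge in the slot `2` -/
structure Wok (w : ℂ) : Prop where
  re0 : 0 ≤ w.re
  re1 : w.re ≤ 39 / 100
  im0 : -(1145 / 10000) ≤ w.im
  im1 : w.im ≤ 57 / 1000
  ramp : w.re ≤ 6 / 100 → |w.im| ≤ 78 / 100 * w.re

variable {u u' v v' w : ℂ} {T t : ℝ}

/-! ### `3 | 3`, `3e | 3` -/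

theorem main33_right (hx : 1 / 2 ≤ u.re) (hx' : u.re ≤ 6 / 10) (hu : u.im = h30 u.re T)
    (hc : u'.re = 30 / 100) (hc' : u'.im = T) (hT : -(28 / 1000) ≤ T) (hT' : T ≤ 22 / 1000)
    (hv : RH v t (8 / 10) (5 / 100) (5 / 100)) (ht : -(114 / 1000) ≤ t) (ht' : t ≤ 5 / 1000)
    (hl : 32 / 100 ≤ v.re) : 0 < V3 u' v w - V3 u v w + g33 u.re T := by
  rcases le_total v.re (75 / 100) with h | h
  · have e := V3_dvR (w := w) rfl hu hc hc' rfl (mid_flat hv (by linarith only [hl]) h)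
    have := r33 hx hx' hT hT' (l := v.re) (h := t) (by linarith only [hl]) (by linarith only [h]) ht ht'
    rw [e]
    linarith only [this]
  · have e := V3_dvR (w := w) rfl hu hc hc' rfl (mid_right hv h)
    have := t33 hx hx' hT hT' h (by linarith only [hv, hv.reM]) ht ht'
    rw [e]
    linarith only [this]

theorem main33_left (hx : 1 / 2 ≤ u.re) (hx' : u.re ≤ 6 / 10) (hu : u.im = h30 u.re T)
    (hc : u'.re = 30 / 100) (hc' : u'.im = T) (hT : -(28 / 1000) ≤ T) (hT' : T ≤ 22 / 1000)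
    (hv : RH v t (8 / 10) (5 / 100) (5 / 100)) (ht : -(114 / 1000) ≤ t) (ht' : t ≤ 5 / 1000)
    (hd : v'.re = 46 / 100) (hd' : v'.im = t) (hw : Wok w)
    (hl : v.re ≤ 32 / 100) : 0 < V3 u' v' w - V3 u v w + g33 u.re T := by
  rcases le_total v.re (5 / 100) with h | h
  · have e := V3_dvG (w := w) rfl hu hc hc' rfl (mid_left hv h) hd hd'
    have := l33P hx hx' hT hT' hv.re0 h ht ht' hw.re0 hw.re1 hw.im0 hw.im1 hw.ramp
    rw [e]
    linarith only [this]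
  · have e := V3_dvL (w := w) rfl hu hc hc' rfl (mid_flat hv h (by linarith only [hl])) hd hd'
    have := l33L hx hx' hT hT' h (by linarith only [hl]) ht ht' hw.re0 hw.re1 hw.im0 hw.im1
    rw [e]
    linarith only [this]

/-- the side `S2` of an inner digit `3` -/
theorem other33 {U V W W' : ℂ} (hx : 1 / 2 ≤ W.re) (hx' : W.re ≤ 6 / 10) (hu : W.im = h30 W.re T)
    (hc : W'.re = 30 / 100) (hc' : W'.im = T) (hT : -(22 / 1000) ≤ T) (hT' : T ≤ 22 / 1000)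
    (hv : 0 ≤ V.re) (hv' : V.re ≤ 8 / 10) (ht : -(116 / 1000) ≤ V.im) (ht' : V.im ≤ 5 / 1000) :
    g33 W.re (-T) < V3 U V W' - V3 U V W := by
  rw [V3_dvO rfl hu hc hc']
  exact other3 hx hx' hT hT' hv hv' ht ht'

/-- an end with three crossings -/
theorem other3e {U U' V V' : ℂ} (hx : 1 / 2 ≤ U.re) (hx' : U.re ≤ 6 / 10) (hu : U.im = h30 U.re T)
    (hc : U'.re = 30 / 100) (hc' : U'.im = T) (hT : 5 / 1000 ≤ T) (hT' : T ≤ 28 / 1000)
    (hv : RH V t (77 / 100) (1 / 10) (2 / 10)) (ht : -(45 / 1000) ≤ t) (ht' : t ≤ 59 / 1000)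
    (hd : V'.re = 46 / 100) (hd' : V'.im = t) :
    g33 U.re (-T) < V3 U' V' 0 - V3 U V 0 := by
  rcases le_or_gt V.re (1 / 10) with h | h
  · have e1 : V.im = 10 * (t * V.re) := by
      rw [MR.RH_left hv (by norm_num) (by norm_num) (by norm_num) h]
      ring
    rw [V3_dvG (w := 0) rfl hu hc hc' rfl e1 hd hd']
    have := end_1 hx hx' hT hT' hv.re0 h ht ht'
    simp only [Complex.zero_re, Complex.zero_im, add_zero]
    linarith only [this]
  rcases le_or_gt V.re (57 / 100) with h2 | h2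
  · have e1 : V.im = t := MR.RH_flat hv (by norm_num) (by norm_num) h.le (by linarith only [h2])
    rw [V3_dvG (w := 0) rfl hu hc hc' rfl e1 hd hd']
    have := end_2 hx hx' hT hT' h.le h2 ht ht'
    simp only [Complex.zero_re, Complex.zero_im, add_zero]
    linarith only [this]
  · have e1 : V.im = t * (385 / 100 - 5 * V.re) := by
      rw [MR.RH_right hv (by norm_num) (by norm_num) (by norm_num) (by linarith only [h2])]
      ring
    rw [V3_dvG (w := 0) rfl hu hc hc' rfl e1 hd hd']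
    have := end_3 hx hx' hT hT' h2 hv.reM ht ht'
    simp only [Complex.zero_re, Complex.zero_im, add_zero]
    linarith only [this]

/-! ### `2e | 3` -/

theorem main2e_right (hx : 1 / 2 ≤ u.re) (hx' : u.re ≤ 6 / 10) (hu : u.im = h30 u.re T)
    (hc : u'.re = 18 / 100) (hc' : u'.im = T) (hT : -(98 / 1000) ≤ T) (hT' : T ≤ -(76 / 1000))
    (hv : RH v t (8 / 10) (5 / 100) (5 / 100)) (ht : -(123 / 1000) ≤ t) (ht' : t ≤ 0)
    (hl : 30 / 100 ≤ v.re) : 0 < V3 u' v w - V3 u v w + g2e u.re T := by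
  obtain ⟨h1, h2⟩ := MR.RH_im_mem hv (a := -(123 / 1000)) (b := 0) (by norm_num) le_rfl ht ht'
  have e := V3_dvR (w := w) rfl hu hc hc' (v := v) rfl rfl
  have := r2e hx hx' hT hT' (l := v.re) (h := v.im) (by linarith only [hl]) (by linarith only [hv, hv.reM]) h1 h2
  rw [e]
  linarith only [this]

theorem main2e_left (hx : 1 / 2 ≤ u.re) (hx' : u.re ≤ 6 / 10) (hu : u.im = h30 u.re T)
    (hc : u'.re = 18 / 100) (hc' : u'.im = T) (hT : -(98 / 1000) ≤ T) (hT' : T ≤ -(76 / 1000))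
    (hv : RH v t (8 / 10) (5 / 100) (5 / 100)) (ht : -(123 / 1000) ≤ t) (ht' : t ≤ -(64 / 1000))
    (hd : v'.re = 46 / 100) (hd' : v'.im = t) (hw : Wok w)
    (hl : v.re ≤ 30 / 100) : 0 < V3 u' v' w - V3 u v w + g2e u.re T := by
  rcases le_total v.re (5 / 100) with h | h
  · have e := V3_dvG (w := w) rfl hu hc hc' rfl (mid_left hv h) hd hd'
    have := l2eP hx hx' hT hT' hv.re0 h ht ht' hw.re0 hw.re1 hw.im0 hw.im1 hw.ramp
    rw [e]
    linarith only [this]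
  · have e := V3_dvL (w := w) rfl hu hc hc' rfl (mid_flat hv h (by linarith only [hl])) hd hd'
    have := l2eL hx hx' hT hT' h (by linarith only [hl]) ht ht' hw.re0 hw.re1 hw.im0 hw.im1
    rw [e]
    linarith only [this]

/-- an end with two crossings, in its own frame -/
theorem other2e {U U' : ℂ} (hu : U.im = h30 U.re T) (hc : U'.re = 18 / 100) (hc' : U'.im = T) :
    V2 U' 0 - V2 U 0 = g2e U.re (-T) := by
  rw [V2_dvO rfl hu hc hc']
  unfold dvO g2e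
  have e1 : h30 U.re (-T) = -h30 U.re T := by
    unfold h30
    ring
  rw [e1, uu_neg, uu_neg]
  simp only [Complex.zero_re, Complex.zero_im, add_zero]
  ring

/-! ### `2 | 3` -/

theorem main2_mid (hx : 1 / 2 ≤ u.re) (hx' : u.re ≤ 6 / 10) (hu : u.im = h27 u.re T)
    (hc : u'.re = 27 / 100) (hc' : u'.im = T) (hT : -(57 / 1000) ≤ T) (hT' : T ≤ 5 / 1000)
    (hv : RH v t (8 / 10) (5 / 100) (5 / 100)) (ht : -(114 / 1000) ≤ t) (ht' : t ≤ 5 / 1000)
    (hl : 32 / 100 ≤ v.re) (hl' : v.re ≤ 1 / 2) : 0 < V3 u' v w - V3 u v w + g27 u.re T := by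
  have e := V3_dvR (w := w) rfl hu hc hc' rfl (mid_flat hv (by linarith only [hl]) (by linarith only [hl']))
  have := m2 hx hx' hT hT' (l := v.re) (h := t) (by linarith only [hl]) (by linarith only [hl']) ht ht'
  rw [e]
  linarith only [this]

theorem main2_far (hx : 1 / 2 ≤ u.re) (hx' : u.re ≤ 6 / 10) (hu : u.im = h27 u.re T)
    (hc : u'.re = 41 / 100) (hc' : u'.im = T * (19 / 27)) (hT : -(57 / 1000) ≤ T)
    (hT' : T ≤ 5 / 1000) (hv : RH v t (8 / 10) (5 / 100) (5 / 100)) (ht : -(114 / 1000) ≤ t)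
    (ht' : t ≤ 5 / 1000) (hd : -(105 / 1000) ≤ t - T) (hl : 1 / 2 ≤ v.re) :
    0 < V3 u' v w - V3 u v w + g41 u.re T := by
  rcases le_total v.re (75 / 100) with h | h
  · have e := V3_dvR (w := w) rfl hu hc hc' rfl (mid_flat hv (by linarith only [hl]) h)
    have := r2 hx hx' hT hT' (l := v.re) (h := t) (by linarith only [hl]) (by linarith only [h]) ht ht' hd
    rw [e]
    linarith only [this]
  · have e := V3_dvR (w := w) rfl hu hc hc' rfl (mid_right hv h)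
    have := t2 hx hx' hT hT' h (by linarith only [hv, hv.reM]) ht ht' hd
    rw [e]
    linarith only [this]

theorem main2_left (hx : 1 / 2 ≤ u.re) (hx' : u.re ≤ 6 / 10) (hu : u.im = h27 u.re T)
    (hc : u'.re = 27 / 100) (hc' : u'.im = T) (hT : -(57 / 1000) ≤ T) (hT' : T ≤ 5 / 1000)
    (hv : RH v t (8 / 10) (5 / 100) (5 / 100)) (ht : -(114 / 1000) ≤ t) (ht' : t ≤ 5 / 1000)
    (hd : v'.re = 48 / 100) (hd' : v'.im = t) (hw : Wok w)
    (hl : v.re ≤ 32 / 100) : 0 < V3 u' v' w - V3 u v w + g27 u.re T := by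
  rcases le_total v.re (5 / 100) with h | h
  · have e := V3_dvG (w := w) rfl hu hc hc' rfl (mid_left hv h) hd hd'
    have := l2P hx hx' hT hT' hv.re0 h ht ht' hw.re0 hw.re1 hw.im0 hw.im1 hw.ramp
    rw [e]
    linarith only [this]
  · have e := V3_dvL (w := w) rfl hu hc hc' rfl (mid_flat hv h (by linarith only [hl])) hd hd'
    have := l2L hx hx' hT hT' h (by linarith only [hl]) ht ht' hw.re0 hw.re1 hw.im0 hw.im1
    rw [e]
    linarith only [this]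

/-- the conditions on the other hinge of a digit `2` -/
structure Kok (k : ℂ) : Prop where
  re0 : 0 ≤ k.re
  re1 : k.re ≤ 8 / 10
  im0 : -(985 / 10000) ≤ k.im
  im1 : k.im ≤ 96 / 1000
  low : k.re ≤ 125 / 1000 → -(85 / 100) * k.re ≤ k.im ∧ k.im ≤ 77 / 100 * k.re
  high : 56 / 100 ≤ k.re → -(82 / 1000) ≤ k.im ∧ k.im ≤ 15 / 1000

/-- the slope of a point near `0` -/
theorem Kok.slope {k : ℂ} (hk : Kok k) (h : k.re ≤ 125 / 1000) :
    ∃ κ : ℝ, -(850 / 1000) ≤ κ ∧ κ ≤ 770 / 1000 ∧ k.im = κ * k.re := by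
  obtain ⟨h1, h2⟩ := hk.low h
  rcases hk.re0.eq_or_lt with h3 | h3
  · refine ⟨0, by norm_num, by norm_num, ?_⟩
    rw [← h3] at h1 h2
    linarith only [h1, h2]
  · refine ⟨k.im / k.re, ?_, ?_, ?_⟩
    · rw [le_div_iff₀ h3]
      linarith only [h1]
    · rw [div_le_iff₀ h3]
      linarith only [h2]
    · field_simp

theorem other2_27 {U U' k : ℂ} (hx : 1 / 2 ≤ U.re) (hx' : U.re ≤ 6 / 10) (hu : U.im = h27 U.re T)
    (hc : U'.re = 27 / 100) (hc' : U'.im = T) (hT : -(5 / 1000) ≤ T) (hT' : T ≤ 57 / 1000)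
    (hk : Kok k) : g27 U.re (-T) < V2 U' k - V2 U k := by
  rw [V2_dvO rfl hu hc hc']
  rcases le_total k.re (125 / 1000) with h | h
  · obtain ⟨κ, h1, h2, h3⟩ := hk.slope h
    rw [h3]
    exact o27' hx hx' hT hT' hk.re0 h h1 h2
  · exact o27 hx hx' hT hT' h hk.re1 hk.im0 hk.im1 hk.high

theorem other2_41 {U U' k : ℂ} (hx : 1 / 2 ≤ U.re) (hx' : U.re ≤ 6 / 10) (hu : U.im = h27 U.re T)
    (hc : U'.re = 41 / 100) (hc' : U'.im = T * (19 / 27)) (hT : -(5 / 1000) ≤ T)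
    (hT' : T ≤ 57 / 1000) (hk : Kok k) : g41 U.re (-T) < V2 U' k - V2 U k := by
  rw [V2_dvO rfl hu hc hc']
  rcases le_total k.re (125 / 1000) with h | h
  · obtain ⟨κ, h1, h2, h3⟩ := hk.slope h
    rw [h3]
    exact o41' hx hx' hT hT' hk.re0 h h1 h2
  · exact o41 hx hx' hT hT' h hk.re1 hk.im0 hk.im1 hk.high

end V2A

end Pool.Agent.Work.MP_b30479_gtS.G2

end
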