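import Pool.Agent.Work.MP_b30479_gt.TBS.G2.S0RX_5
import Pool.Agent.Work.MP_b30479_gt.TBS.G2.S0RD_1
import Pool.Agent.Work.MP_b30479_gt.TBS.G2.S0RV3_5
import Pool.Agent.Work.MP_b30479_gt.TBS.G2.S0RV4_5
import Pool.Agent.Work.MP_b30479_gt.TBS.G2.S0RV3_3
import Pool.Agent.Work.MP_b30479_gt.TBS.G2.S0RV3_2
import Pool.Agent.Work.MP_b30479_gt.TBS.G2.S0RV1
import Pool.Agent.Work.MP_b30479_gt.TBS.G2.V2R33_5
import Pool.Agent.Work.MP_b30479_gt.TBS.G2.RV
import Pool.Agent.Work.MP_b30479_gt.TBS.G2.S0RV4_4
import Pool.Agent.Work.MP_b30479_gt.TBS.G2.S0RV3_6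
import Pool.Agent.Work.MP_b30479_gt.TBS.G2.S0RD
import Pool.Agent.Work.MP_b30479_gt.TBS.G2.S0RF_2
import Pool.Agent.Work.MP_b30479_gt.TBS.G2.S0RHA
import Pool.Agent.Work.MP_b30479_gt.TBS.G2.WMid
import Pool.Agent.Work.MP_b30479_gt.TBS.G2.WVal

section

/-!
# The own side of an interior `3` at slot `0`: value rows, the hinge in the slot `2` in `[.31, .39]`
-/

set_option linter.unusedSimpArgs false
set_option linter.unusedVariables false

namespace Pool.Agent.Work.MP_b30479_gtS.G2

open VOL NumUs

namespace S0R

open NumUs.E EV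

theorem xon {x T w b r t : ℝ} (ua1 : 3000 / 10000 ≤ x) (ua2 : x ≤ 3800 / 10000) (ua3 : 0 / 10000 ≤ T) (ua4 : T ≤ 570 / 10000) (ua5 : 3100 / 10000 ≤ w) (ua6 : w ≤ 3900 / 10000) (ua7 : -(980 / 10000) ≤ b) (ua8 : b ≤ 220 / 10000) (ua9 : 500 / 10000 ≤ r) (ua10 : r ≤ 2500 / 10000) (ua11 : -(1040 / 10000) ≤ t) (ua12 : t ≤ 50 / 10000) (ua13 : r ≤ x - 1300 / 10000) (ua14 : -(98 / 130) * w ≤ b) (ua15 : T - t ≤ 1000 / 10000) (ua16 : t ≤ rui (10 / 3) x T) :
    0 < rD (4200 / 10000) (1) x (rui (10 / 3) x T) w b r t := by
  have h : chkT [D 10 3 (q 4200 10000) (1), sub EV.r (sub EV.x (q 1300 10000)), sub (mul (q (-98) 130) EV.w) EV.b, sub (sub EV.T EV.t) (q 1000 10000), sub EV.t (a 10 3)] 40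
    486354120885054345030802084883651251398825756934338769694032148918177312509406985862793659619717224838098806484712573072925679314089301909559986540233296162550880046914776236460683776951079581732858059959535650309500495019802166401939928546534113682603089775958140377655823546075194154871476324064641448328558703497278887629830404996828899158139257095676893742965365375529514919542761719453395613169956416686984215347823087289159897911671730947673302284167617510716379463553885792648331553046641594675347388534488807127806103046275436919098290077352537757588491055044020457695302604702443572072090515543787050266323573191748853919158994786562885320563743935717279739845740824045709509869908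
    [NumIs.V.of 10000 3000 3800, NumIs.V.of 10000 0 570, NumIs.V.of 10000 3100 3900, NumIs.V.of 10000 (-980) 220, NumIs.V.of 10000 500 2500, NumIs.V.of 10000 (-1040) 50] = true :=
      Pool.Agent.Work.NumUs.chkT_of (Pool.Agent.Work.NumUs.runT_split rfl rfl rfl
        (Pool.Agent.Work.NumUs.runT_split rfl rfl rfl
          xon_h1_q1
          xon_h1_q2)
        (Pool.Agent.Work.NumUs.runT_split rfl rfl rfl
          (Pool.Agent.Work.NumUs.runT_split rfl rfl rfl
            xon_h1_q3
            xon_h1_q4)
          (Pool.Agent.Work.NumUs.runT_split rfl rfl rfl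
            xon_h1_q5
            xon_h1_q6)))
  obtain ⟨f, hf, hp⟩ := chkT_sound h (xs := [x, T, w, b, r, t])
    (List.Forall₂.cons (NumIs.V.of_mem (by norm_num) (by norm_num; linarith only [ua1]) (by norm_num; linarith only [ua2])) (List.Forall₂.cons (NumIs.V.of_mem (by norm_num) (by norm_num; linarith only [ua3]) (by norm_num; linarith only [ua4])) (List.Forall₂.cons (NumIs.V.of_mem (by norm_num) (by norm_num; linarith only [ua5]) (by norm_num; linarith only [ua6])) (List.Forall₂.cons (NumIs.V.of_mem (by norm_num) (by norm_num; linarith only [ua7]) (by norm_num; linarith only [ua8])) (List.Forall₂.cons (NumIs.V.of_mem (by norm_num) (by norm_num; linarith only [ua9]) (by norm_num; linarith only [ua10])) (List.Forall₂.cons (NumIs.V.of_mem (by norm_num) (by norm_num; linarith only [ua3, ua15]) (by norm_num; linarith only [ua12])) List.Forall₂.nil))))))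
  by_contra hc
  push Not at hc
  simp only [List.mem_cons, List.not_mem_nil, or_false] at hf
  rcases hf with rfl | rfl | rfl | rfl | rfl
  · simp only [D_val, R_val, h_val, EE.ui_val, EV.a, EV.x, EV.T, EV.w, EV.b, EV.r, EV.t, E.val, NumIs.lkR] at hp
    push_cast at hp
    linarith only [hc, hp]
  · simp only [D_val, R_val, h_val, EE.ui_val, EV.a, EV.x, EV.T, EV.w, EV.b, EV.r, EV.t, E.val, NumIs.lkR] at hp
    push_cast at hp
    linarith only [ua13, hp]
  · simp only [D_val, R_val, h_val, EE.ui_val, EV.a, EV.x, EV.T, EV.w, EV.b, EV.r, EV.t, E.val, NumIs.lkR] at hp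
    push_cast at hp
    linarith only [ua5, ua7, hp]
  · simp only [D_val, R_val, h_val, EE.ui_val, EV.a, EV.x, EV.T, EV.w, EV.b, EV.r, EV.t, E.val, NumIs.lkR] at hp
    push_cast at hp
    linarith only [ua15, hp]
  · simp only [D_val, R_val, h_val, EE.ui_val, EV.a, EV.x, EV.T, EV.w, EV.b, EV.r, EV.t, E.val, NumIs.lkR] at hp
    push_cast at hp
    linarith only [ua16, hp]

end S0R

end Pool.Agent.Work.MP_b30479_gtS.G2

end

section

/-!
# The own side of an interior `3` at slot `0`: value rows of a low inner variable, `x ≤ .38`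
-/

set_option linter.unusedSimpArgs false
set_option linter.unusedVariables false

namespace Pool.Agent.Work.MP_b30479_gtS.G2

open VOL NumUs

namespace S0R

open NumUs.E EV

theorem z1rn {x T w b r t : ℝ} (ua1 : 3000 / 10000 ≤ x) (ua2 : x ≤ 3800 / 10000) (ua3 : 0 / 10000 ≤ T) (ua4 : T ≤ 570 / 10000) (ua5 : 700 / 10000 ≤ w) (ua6 : w ≤ 3900 / 10000) (ua7 : -(1145 / 10000) ≤ b) (ua8 : b ≤ -(98 / 10000)) (ua9 : 0 / 10000 ≤ r) (ua10 : r ≤ 500 / 10000) (ua11 : -(1140 / 10000) ≤ t) (ua12 : t ≤ -(150 / 10000)) (ua13 : -(1145 / 1500) * w ≤ b) (ua14 : T - t ≤ 1050 / 10000) (ua15 : 20 * (t * r) ≤ rui (10 / 3) x T) :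
    0 < rE (4000 / 10000) (1) x (rui (10 / 3) x T) w b r t := by
  have h : chkT [R 10 3 (q 4000 10000) (1), sub (mul (q (-1145) 1500) EV.w) EV.b, sub (sub EV.T EV.t) (q 1050 10000), sub h (a 10 3)] 40
    443042781441121117361683165339906823187450441857812666519603435606779936669881795709143172326524789910988016606690513789703625433949383953703692334139770244717067993012501840188770653306908664580712862178367565877769463447024579384608447601999682469199169520782816873846615534045494346472612252462699444051122213411571391014912909950239079784905580009849566711404632539753845692824084578593765563727906450566704520557744974384274993771481218402806349385195896268555207032508082555122237816379588353109528022270700082454690266372739968317995022448137203711090623511735871400438176568134791876482881814504839918684683633697190686759949663500127440548356596218265766671050696041554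
    [NumIs.V.of 10000 3000 3800, NumIs.V.of 10000 0 570, NumIs.V.of 10000 700 3900, NumIs.V.of 10000 (-1145) (-98), NumIs.V.of 10000 0 500, NumIs.V.of 10000 (-1140) (-150)] = true :=
      Pool.Agent.Work.NumUs.chkT_of (Pool.Agent.Work.NumUs.runT_split rfl rfl rfl
        (Pool.Agent.Work.NumUs.runT_split rfl rfl rfl
          z1rn_h1_q1
          (Pool.Agent.Work.NumUs.runT_split rfl rfl rfl
            z1rn_h1_q2
            (Pool.Agent.Work.NumUs.runT_split rfl rfl rfl
              (Pool.Agent.Work.NumUs.runT_split rfl rfl rfl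
                z1rn_h1_q3
                z1rn_h1_q4)
              z1rn_h1_q5)))
        (Pool.Agent.Work.NumUs.runT_split rfl rfl rfl
          z1rn_h1_q6
          z1rn_h1_q7))
  obtain ⟨f, hf, hp⟩ := chkT_sound h (xs := [x, T, w, b, r, t])
    (List.Forall₂.cons (NumIs.V.of_mem (by norm_num) (by norm_num; linarith only [ua1]) (by norm_num; linarith only [ua2])) (List.Forall₂.cons (NumIs.V.of_mem (by norm_num) (by norm_num; linarith only [ua3]) (by norm_num; linarith only [ua4])) (List.Forall₂.cons (NumIs.V.of_mem (by norm_num) (by norm_num; linarith only [ua5]) (by norm_num; linarith only [ua6])) (List.Forall₂.cons (NumIs.V.of_mem (by norm_num) (by norm_num; linarith only [ua7]) (by norm_num; linarith only [ua8])) (List.Forall₂.cons (NumIs.V.of_mem (by norm_num) (by norm_num; linarith only [ua9]) (by norm_num; linarith only [ua10])) (List.Forall₂.cons (NumIs.V.of_mem (by norm_num) (by norm_num; linarith only [ua3, ua14]) (by norm_num; linarith only [ua12])) List.Forall₂.nil))))))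
  by_contra hc
  push Not at hc
  simp only [List.mem_cons, List.not_mem_nil, or_false] at hf
  rcases hf with rfl | rfl | rfl | rfl
  · simp only [D_val, R_val, h_val, EE.ui_val, EV.a, EV.x, EV.T, EV.w, EV.b, EV.r, EV.t, E.val, NumIs.lkR] at hp
    push_cast at hp
    linarith only [hc, hp]
  · simp only [D_val, R_val, h_val, EE.ui_val, EV.a, EV.x, EV.T, EV.w, EV.b, EV.r, EV.t, E.val, NumIs.lkR] at hp
    push_cast at hp
    linarith only [ua13, hp]
  · simp only [D_val, R_val, h_val, EE.ui_val, EV.a, EV.x, EV.T, EV.w, EV.b, EV.r, EV.t, E.val, NumIs.lkR] at hp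
    push_cast at hp
    linarith only [ua14, hp]
  · simp only [D_val, R_val, h_val, EE.ui_val, EV.a, EV.x, EV.T, EV.w, EV.b, EV.r, EV.t, E.val, NumIs.lkR] at hp
    push_cast at hp
    linarith only [ua15, hp]

end S0R

end Pool.Agent.Work.MP_b30479_gtS.G2

end

section

/-!
# The own side of an interior `3` at slot `0`: value rows of a low inner variable, `x ≤ .38`
-/

set_option linter.unusedSimpArgs false
set_option linter.unusedVariables false

namespace Pool.Agent.Work.MP_b30479_gtS.G2

open VOL NumUs

namespace S0R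

open NumUs.E EV

theorem zorn {x T w b r t : ℝ} (ua1 : 3000 / 10000 ≤ x) (ua2 : x ≤ 3800 / 10000) (ua3 : 0 / 10000 ≤ T) (ua4 : T ≤ 570 / 10000) (ua5 : 700 / 10000 ≤ w) (ua6 : w ≤ 3100 / 10000) (ua7 : -(980 / 10000) ≤ b) (ua8 : b ≤ 570 / 10000) (ua9 : 0 / 10000 ≤ r) (ua10 : r ≤ 500 / 10000) (ua11 : -(1040 / 10000) ≤ t) (ua12 : t ≤ 50 / 10000) (ua13 : -(98 / 130) * w ≤ b) (ua14 : T - t ≤ 1000 / 10000) (ua15 : 20 * (t * r) ≤ rui (10 / 3) x T) :
    0 < rE (4200 / 10000) (1) x (rui (10 / 3) x T) w b r t := by
  have h : chkT [R 10 3 (q 4200 10000) (1), sub (mul (q (-98) 130) EV.w) EV.b, sub (sub EV.T EV.t) (q 1000 10000), sub h (a 10 3)] 40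
    1074274101684778228535303464930358152234312003912467694100841580632358644002757339366677650892722424069348522801394514571164234308992359698108370627226563750559280550656200252968417725711114945183332349650104526967195483416945490824765363892002586749088586530657200041102688420560243574028893624084611182464718891918948106301943890619616973658300237503580868529332730552278680201017448112877234076762038955808289470500105747560082424084192648735812383797046479606878142212247472081198594149237027079875099209232504323784033933030088065596001719754051433008629323452338524576522609038788973066718830002255917015573826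
    [NumIs.V.of 10000 3000 3800, NumIs.V.of 10000 0 570, NumIs.V.of 10000 700 3100, NumIs.V.of 10000 (-980) 570, NumIs.V.of 10000 0 500, NumIs.V.of 10000 (-1040) 50] = true :=
      Pool.Agent.Work.NumUs.chkT_of (Pool.Agent.Work.NumUs.runT_split rfl rfl rfl
        (Pool.Agent.Work.NumUs.runT_split rfl rfl rfl
          (Pool.Agent.Work.NumUs.runT_split rfl rfl rfl
            zorn_h1_q1
            (Pool.Agent.Work.NumUs.runT_split rfl rfl rfl
              (Pool.Agent.Work.NumUs.runT_split rfl rfl rfl
                zorn_h1_q2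
                zorn_h1_q3)
              zorn_h1_q4))
          (Pool.Agent.Work.NumUs.runT_split rfl rfl rfl
            zorn_h1_q5
            zorn_h1_q6))
        zorn_h1_q7)
  obtain ⟨f, hf, hp⟩ := chkT_sound h (xs := [x, T, w, b, r, t])
    (List.Forall₂.cons (NumIs.V.of_mem (by norm_num) (by norm_num; linarith only [ua1]) (by norm_num; linarith only [ua2])) (List.Forall₂.cons (NumIs.V.of_mem (by norm_num) (by norm_num; linarith only [ua3]) (by norm_num; linarith only [ua4])) (List.Forall₂.cons (NumIs.V.of_mem (by norm_num) (by norm_num; linarith only [ua5]) (by norm_num; linarith only [ua6])) (List.Forall₂.cons (NumIs.V.of_mem (by norm_num) (by norm_num; linarith only [ua7]) (by norm_num; linarith only [ua8])) (List.Forall₂.cons (NumIs.V.of_mem (by norm_num) (by norm_num; linarith only [ua9]) (by norm_num; linarith only [ua10])) (List.Forall₂.cons (NumIs.V.of_mem (by norm_num) (by norm_num; linarith only [ua3, ua14]) (by norm_num; linarith only [ua12])) List.Forall₂.nil))))))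
  by_contra hc
  push Not at hc
  simp only [List.mem_cons, List.not_mem_nil, or_false] at hf
  rcases hf with rfl | rfl | rfl | rfl
  · simp only [D_val, R_val, h_val, EE.ui_val, EV.a, EV.x, EV.T, EV.w, EV.b, EV.r, EV.t, E.val, NumIs.lkR] at hp
    push_cast at hp
    linarith only [hc, hp]
  · simp only [D_val, R_val, h_val, EE.ui_val, EV.a, EV.x, EV.T, EV.w, EV.b, EV.r, EV.t, E.val, NumIs.lkR] at hp
    push_cast at hp
    linarith only [ua13, hp]
  · simp only [D_val, R_val, h_val, EE.ui_val, EV.a, EV.x, EV.T, EV.w, EV.b, EV.r, EV.t, E.val, NumIs.lkR] at hp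
    push_cast at hp
    linarith only [ua14, hp]
  · simp only [D_val, R_val, h_val, EE.ui_val, EV.a, EV.x, EV.T, EV.w, EV.b, EV.r, EV.t, E.val, NumIs.lkR] at hp
    push_cast at hp
    linarith only [ua15, hp]

end S0R

end Pool.Agent.Work.MP_b30479_gtS.G2

end

section

/-!
# The own side of an interior `3` at slot `0`: the low branch

`u` the hinge, `v` the inner variable, `w` the hinge in the slot `2`.
-/

set_option linter.unusedVariables false

namespace Pool.Agent.Work.MP_b30479_gtS.G2

open VOL NumUs

namespace S0R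

/-! ### the low branch -/

theorem sg_pos {y : ℝ} (h : y ≤ 0) : |y| = -(1 * y) := by rw [abs_of_nonpos h, one_mul]

theorem sg_neg {y : ℝ} (h : 0 ≤ y) : |y| = -(-1 * y) := by
  rw [abs_of_nonneg h]
  ring

/-- the four cases of a value move -/
theorem low_of {c r t : ℝ} {u v w : ℂ} (hrh : RH v t (8 / 10) (5 / 100) (5 / 100))
    (hr : v.re = r) (hr' : r ≤ 75 / 100) (ht : |t| ≤ 13 / 100)
    (h1 : 5 / 100 ≤ r → t ≤ u.im → 0 < rD c 1 u.re u.im w.re w.im r t)
    (h2 : 5 / 100 ≤ r → u.im ≤ t → 0 < rD c (-1) u.re u.im w.re w.im r t)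
    (h3 : r ≤ 5 / 100 → 20 * (t * r) ≤ u.im → 0 < rE c 1 u.re u.im w.re w.im r t)
    (h4 : r ≤ 5 / 100 → u.im < 20 * (t * r) → 0 < rE c (-1) u.re u.im w.re w.im r t) :
    ∀ v' : ℂ, v'.re = c → v'.im = t → V3 u v w < V3 u v' w := by
  intro v' hc hc'
  have hr0 := hrh.re0
  rcases le_total (5 / 100) r with h | h
  · have hv := V2A.mid_flat hrh (by rw [hr]; exact h) (by rw [hr]; exact hr')
    rcases le_total t u.im with g | g
    · have := D_core (w := w) hr hv hc hc' (σ := 1) (sg_pos (by linarith only [g]))
      have := h1 h g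
      linarith
    · have := D_core (w := w) hr hv hc hc' (σ := -1) (sg_neg (by linarith only [g]))
      have := h2 h g
      linarith
  · have hv := V2A.mid_left hrh (by rw [hr]; exact h)
    rw [hr] at hv hr0
    rcases le_or_gt (20 * (t * r)) u.im with g | g
    · have := R_core (w := w) hr0 h hr hv hc hc' (σ := 1) (sg_pos (by linarith only [g])) ht
      have := h3 h g
      linarith
    · have := R_core (w := w) hr0 h hr hv hc hc' (σ := -1) (sg_neg (by linarith only [g])) ht
      have := h4 h g
      linarith

/-- **Low branch, left neighbour `3`, `3e`, ring, `x` in `[.30, .38]`** -/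
theorem low_z {T t : ℝ} {u v w : ℂ} (hx : 30 / 100 ≤ u.re) (hx' : u.re ≤ 38 / 100)
    (hu : u.im = 10 / 3 * T * (6 / 10 - u.re)) (hT : -(28 / 1000) ≤ T) (hT' : T ≤ 57 / 1000)
    (hK : K1 T t w ∨ Ko T t w ∨ KZ T t w) (hrh : RH v t (8 / 10) (5 / 100) (5 / 100))
    (hl : v.re ≤ u.re - 13 / 100) :
    ∃ c : ℝ, 5 / 100 ≤ c ∧ c ≤ 75 / 100 ∧ ∀ v' : ℂ, v'.re = c → v'.im = t →
      V3 u v w < V3 u v' w := by
  have hr0 := hrh.re0
  have e : u.im = rui (10 / 3) u.re T := hu
  have hTu : 0 ≤ T → 22 / 30 * T ≤ u.im := fun h => by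
    rw [hu]
    nlinarith only [hx', h]
  have hTu' : T ≤ 0 → T ≤ u.im ∧ u.im ≤ 0 := fun h => by
    rw [hu]
    constructor <;> nlinarith only [hx, h, hx']
  rcases hK with hK | hK
  · obtain ⟨a1, a2, a3, a4, a5, a6, a7, a8⟩ := hK
    have hm : t * v.re ≤ 0 := mul_nonpos_of_nonpos_of_nonneg (le_trans a2 (by norm_num)) hr0
    refine ⟨4000 / 10000, by norm_num, by norm_num, low_of hrh rfl (by linarith only [hx', hl])
      (abs_le.2 ⟨by linarith only [a1], by linarith only [a2]⟩) ?_ ?_ ?_ ?_⟩
    · intro h g
      rw [e] at g ⊢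
      rcases le_total 0 T with hT0 | hT0
      · exact z1n (le_trans (by norm_num) hx) (le_trans hx' (by norm_num)) (le_trans (by norm_num) hT0) (le_trans hT' (by norm_num)) (le_trans (by norm_num) a4) (le_trans a5 (by norm_num)) a6 a7 (le_trans (by norm_num) h) (by linarith only [hx', hl]) (le_trans (by norm_num) a1) (le_trans a2 (by norm_num)) (by linarith only [hl]) (by linarith only [a8]) (le_trans a3 (by norm_num)) g
      · exact z1m (le_trans (by norm_num) hx) (le_trans hx' (by norm_num)) (le_trans (by norm_num) hT) (le_trans hT0 (by norm_num)) (le_trans (by norm_num) a4) (le_trans a5 (by norm_num)) a6 a7 (le_trans (by norm_num) h) (by linarith only [hx', hl]) (le_trans (by norm_num) a1) (le_trans a2 (by norm_num)) (by linarith only [hl]) (by linarith only [a8]) g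
    · intro h g
      rcases le_or_gt 0 T with hT0 | hT0
      · have := hTu hT0
        exfalso
        linarith only [a2, g, hT0, this]
      · have g1 := hTu' hT0.le
        rw [e] at g g1 ⊢
        exact z1p (le_trans (by norm_num) hx) (le_trans hx' (by norm_num)) (le_trans (by norm_num) hT) (le_trans hT0.le (by norm_num)) (le_trans (by norm_num) a4) (le_trans a5 (by norm_num)) a6 a7 (le_trans (by norm_num) h) (by linarith only [hx', hl]) (by linarith only [hT, g, g1]) (le_trans a2 (by norm_num)) (by linarith only [hl]) (by linarith only [a8]) g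
    · intro h g
      rw [e] at g ⊢
      rcases le_total 0 T with hT0 | hT0
      · exact z1rn (le_trans (by norm_num) hx) (le_trans hx' (by norm_num)) (le_trans (by norm_num) hT0) (le_trans hT' (by norm_num)) (le_trans (by norm_num) a4) (le_trans a5 (by norm_num)) a6 a7 (le_trans (by norm_num) hr0) (le_trans h (by norm_num)) (le_trans (by norm_num) a1) (le_trans a2 (by norm_num)) (by linarith only [a8]) (le_trans a3 (by norm_num)) g
      · exact z1rm (le_trans (by norm_num) hx) (le_trans hx' (by norm_num)) (le_trans (by norm_num) hT) (le_trans hT0 (by norm_num)) (le_trans (by norm_num) a4) (le_trans a5 (by norm_num)) a6 a7 (le_trans (by norm_num) hr0) (le_trans h (by norm_num)) (le_trans (by norm_num) a1) (le_trans a2 (by norm_num)) (by linarith only [a8]) g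
    · intro h g
      rcases le_or_gt 0 T with hT0 | hT0
      · have := hTu hT0
        exfalso
        linarith only [hm, g, hT0, this]
      · rw [e] at g ⊢
        exact z1rp (le_trans (by norm_num) hx) (le_trans hx' (by norm_num)) (le_trans (by norm_num) hT) (le_trans hT0.le (by norm_num)) (le_trans (by norm_num) a4) (le_trans a5 (by norm_num)) a6 a7 (le_trans (by norm_num) hr0) (le_trans h (by norm_num)) (le_trans (by norm_num) a1) (le_trans a2 (by norm_num)) (by linarith only [a8]) g.le
  · have hK' : -(104 / 1000) ≤ t ∧ t ≤ 5 / 1000 ∧ T - t ≤ 100 / 1000 ∧ 7 / 100 ≤ w.re ∧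
        (w.re ≤ 31 / 100 ∨ 31 / 100 ≤ w.re ∧ w.re ≤ 39 / 100 ∧ w.im ≤ 22 / 1000) ∧
        -(98 / 1000) ≤ w.im ∧ w.im ≤ 57 / 1000 ∧ -(98 / 130 * w.re) ≤ w.im := by
      rcases hK with hK | hK
      · obtain ⟨a1, a2, a3, a4, a5, a6, a7, a8⟩ := hK
        refine ⟨a1, a2, a3, a4, ?_, a6, a7.trans (by norm_num), a8⟩
        rcases le_total w.re (31 / 100) with h9 | h9
        · exact Or.inl h9
        · exact Or.inr ⟨h9, a5, a7⟩
      · obtain ⟨a1, a2, a3, a4, a5, a6, a7, a8⟩ := hK
        exact ⟨le_trans (by norm_num) a1, a2.trans (by norm_num), a3.trans (by norm_num), a4,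
          Or.inl a5, a6, a7, a8⟩
    obtain ⟨a1, a2, a3, a4, a5, a6, a7, a8⟩ := hK'
    refine ⟨4200 / 10000, by norm_num, by norm_num, low_of hrh rfl (by linarith only [hx', hl])
      (abs_le.2 ⟨by linarith only [a1], by linarith only [a2]⟩) ?_ ?_ ?_ ?_⟩
    · intro h g
      rw [e] at g ⊢
      rcases le_total 0 T with hT0 | hT0
      · rcases a5 with a5 | ⟨a5, a9, a10⟩
        · exact zon (le_trans (by norm_num) hx) (le_trans hx' (by norm_num)) (le_trans (by norm_num) hT0) (le_trans hT' (by norm_num)) (le_trans (by norm_num) a4) (le_trans a5 (by norm_num)) (le_trans (by norm_num) a6) (le_trans a7 (by norm_num)) (le_trans (by norm_num) h) (by linarith only [hx', hl]) (le_trans (by norm_num) a1) (le_trans a2 (by norm_num)) (by linarith only [hl]) (by linarith only [a8]) (le_trans a3 (by norm_num)) g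
        · exact xon (le_trans (by norm_num) hx) (le_trans hx' (by norm_num)) (le_trans (by norm_num) hT0) (le_trans hT' (by norm_num)) (le_trans (by norm_num) a5) (le_trans a9 (by norm_num)) (le_trans (by norm_num) a6) (le_trans a10 (by norm_num)) (le_trans (by norm_num) h) (by linarith only [hx', hl]) (le_trans (by norm_num) a1) (le_trans a2 (by norm_num)) (by linarith only [hl]) (by linarith only [a6, a5]) (le_trans a3 (by norm_num)) g
      · rcases a5 with a5 | ⟨a5, a9, a10⟩
        · exact zom (le_trans (by norm_num) hx) (le_trans hx' (by norm_num)) (le_trans (by norm_num) hT) (le_trans hT0 (by norm_num)) (le_trans (by norm_num) a4) (le_trans a5 (by norm_num)) (le_trans (by norm_num) a6) (le_trans a7 (by norm_num)) (le_trans (by norm_num) h) (by linarith only [hx', hl]) (le_trans (by norm_num) a1) (le_trans a2 (by norm_num)) (by linarith only [hl]) (by linarith only [a8]) g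
        · exact xom (le_trans (by norm_num) hx) (le_trans hx' (by norm_num)) (le_trans (by norm_num) hT) (le_trans hT0 (by norm_num)) (le_trans (by norm_num) a5) (le_trans a9 (by norm_num)) (le_trans (by norm_num) a6) (le_trans a10 (by norm_num)) (le_trans (by norm_num) h) (by linarith only [hx', hl]) (le_trans (by norm_num) a1) (le_trans a2 (by norm_num)) (by linarith only [hl]) (by linarith only [a6, a5]) g
    · intro h g
      rcases le_total 0 T with hT0 | hT0
      · have := hTu hT0
        rw [e] at g this ⊢
        rcases a5 with a5 | ⟨a5, a9, a10⟩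
        · exact zop (le_trans (by norm_num) hx) (le_trans hx' (by norm_num)) (le_trans (by norm_num) hT0) (by linarith only [a2, g, this]) (le_trans (by norm_num) a4) (le_trans a5 (by norm_num)) (le_trans (by norm_num) a6) (le_trans a7 (by norm_num)) (le_trans (by norm_num) h) (by linarith only [hx', hl]) (by linarith only [g, hT0, this]) (le_trans a2 (by norm_num)) (by linarith only [hl]) (by linarith only [a8]) g
        · exact xop (le_trans (by norm_num) hx) (le_trans hx' (by norm_num)) (le_trans (by norm_num) hT0) (by linarith only [a2, g, this]) (le_trans (by norm_num) a5) (le_trans a9 (by norm_num)) (le_trans (by norm_num) a6) (le_trans a10 (by norm_num)) (le_trans (by norm_num) h) (by linarith only [hx', hl]) (by linarith only [g, hT0, this]) (le_trans a2 (by norm_num)) (by linarith only [hl]) (by linarith only [a6, a5]) g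
      · have g1 := hTu' hT0
        rw [e] at g g1 ⊢
        rcases a5 with a5 | ⟨a5, a9, a10⟩
        · exact zop (le_trans (by norm_num) hx) (le_trans hx' (by norm_num)) (le_trans (by norm_num) hT) (le_trans hT0 (by norm_num)) (le_trans (by norm_num) a4) (le_trans a5 (by norm_num)) (le_trans (by norm_num) a6) (le_trans a7 (by norm_num)) (le_trans (by norm_num) h) (by linarith only [hx', hl]) (by linarith only [hT, g, g1]) (le_trans a2 (by norm_num)) (by linarith only [hl]) (by linarith only [a8]) g
        · exact xop (le_trans (by norm_num) hx) (le_trans hx' (by norm_num)) (le_trans (by norm_num) hT) (le_trans hT0 (by norm_num)) (le_trans (by norm_num) a5) (le_trans a9 (by norm_num)) (le_trans (by norm_num) a6) (le_trans a10 (by norm_num)) (le_trans (by norm_num) h) (by linarith only [hx', hl]) (by linarith only [hT, g, g1]) (le_trans a2 (by norm_num)) (by linarith only [hl]) (by linarith only [a6, a5]) g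
    · intro h g
      rw [e] at g ⊢
      rcases le_total 0 T with hT0 | hT0
      · rcases a5 with a5 | ⟨a5, a9, a10⟩
        · exact zorn (le_trans (by norm_num) hx) (le_trans hx' (by norm_num)) (le_trans (by norm_num) hT0) (le_trans hT' (by norm_num)) (le_trans (by norm_num) a4) (le_trans a5 (by norm_num)) (le_trans (by norm_num) a6) (le_trans a7 (by norm_num)) (le_trans (by norm_num) hr0) (le_trans h (by norm_num)) (le_trans (by norm_num) a1) (le_trans a2 (by norm_num)) (by linarith only [a8]) (le_trans a3 (by norm_num)) g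
        · exact xorn (le_trans (by norm_num) hx) (le_trans hx' (by norm_num)) (le_trans (by norm_num) hT0) (le_trans hT' (by norm_num)) (le_trans (by norm_num) a5) (le_trans a9 (by norm_num)) (le_trans (by norm_num) a6) (le_trans a10 (by norm_num)) (le_trans (by norm_num) hr0) (le_trans h (by norm_num)) (le_trans (by norm_num) a1) (le_trans a2 (by norm_num)) (by linarith only [a6, a5]) (le_trans a3 (by norm_num)) g
      · rcases a5 with a5 | ⟨a5, a9, a10⟩
        · exact zorm (le_trans (by norm_num) hx) (le_trans hx' (by norm_num)) (le_trans (by norm_num) hT) (le_trans hT0 (by norm_num)) (le_trans (by norm_num) a4) (le_trans a5 (by norm_num)) (le_trans (by norm_num) a6) (le_trans a7 (by norm_num)) (le_trans (by norm_num) hr0) (le_trans h (by norm_num)) (le_trans (by norm_num) a1) (le_trans a2 (by norm_num)) (by linarith only [a8]) g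
        · exact xorm (le_trans (by norm_num) hx) (le_trans hx' (by norm_num)) (le_trans (by norm_num) hT) (le_trans hT0 (by norm_num)) (le_trans (by norm_num) a5) (le_trans a9 (by norm_num)) (le_trans (by norm_num) a6) (le_trans a10 (by norm_num)) (le_trans (by norm_num) hr0) (le_trans h (by norm_num)) (le_trans (by norm_num) a1) (le_trans a2 (by norm_num)) (by linarith only [a6, a5]) g
    · intro h g
      have hT7 : T ≤ 70 / 10000 := by
        rcases le_total 0 T with hT0 | hT0
        · have := hTu hT0
          have : 20 * (t * v.re) ≤ 5 / 1000 := by nlinarith only [h, hr0, a2]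
          linarith
        · linarith only [hT0]
      rw [e] at g ⊢
      rcases a5 with a5 | ⟨a5, a9, a10⟩
      · exact zorp (le_trans (by norm_num) hx) (le_trans hx' (by norm_num)) (le_trans (by norm_num) hT) hT7 (le_trans (by norm_num) a4) (le_trans a5 (by norm_num)) (le_trans (by norm_num) a6) (le_trans a7 (by norm_num)) (le_trans (by norm_num) hr0) (le_trans h (by norm_num)) (le_trans (by norm_num) a1) (le_trans a2 (by norm_num)) (by linarith only [a8]) g.le
      · exact xorp (le_trans (by norm_num) hx) (le_trans hx' (by norm_num)) (le_trans (by norm_num) hT) hT7 (le_trans (by norm_num) a5) (le_trans a9 (by norm_num)) (le_trans (by norm_num) a6) (le_trans a10 (by norm_num)) (le_trans (by norm_num) hr0) (le_trans h (by norm_num)) (le_trans (by norm_num) a1) (le_trans a2 (by norm_num)) (by linarith only [a6, a5]) g.le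

/-- **Low branch, left neighbour `2`, `x` in `[.36, .38]`** -/
theorem low_t {T t : ℝ} {u v w : ℂ} (hx : 36 / 100 ≤ u.re) (hx' : u.re ≤ 38 / 100)
    (hu : u.im = 100 / 27 * T * (6 / 10 - u.re)) (hT : -(57 / 1000) ≤ T) (hT' : T ≤ 5 / 1000)
    (hK : K1 T t w ∨ Ko T t w ∨ KZ T t w) (hs1 : t - T ≤ 28 / 1000)
    (hrh : RH v t (8 / 10) (5 / 100) (5 / 100)) (hl : v.re ≤ u.re - 9 / 100) :
    ∃ c : ℝ, 5 / 100 ≤ c ∧ c ≤ 75 / 100 ∧ ∀ v' : ℂ, v'.re = c → v'.im = t →
      V3 u v w < V3 u v' w := by
  have hr0 := hrh.re0
  have e : u.im = rui (100 / 27) u.re T := hu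
  have hTu : -(57 / 1000) ≤ u.im := by
    rw [hu]
    nlinarith only [hx', hT, hx, hT']
  rcases hK with hK | hK
  · obtain ⟨a1, a2, a3, a4, a5, a6, a7, a8⟩ := hK
    refine ⟨4400 / 10000, by norm_num, by norm_num, low_of hrh rfl (by linarith only [hx', hl])
      (abs_le.2 ⟨by linarith only [a1], by linarith only [hT', hs1]⟩) ?_ ?_ ?_ ?_⟩
    · intro h g
      rw [e] at g ⊢
      exact t1n (le_trans (by norm_num) hx) (le_trans hx' (by norm_num)) (le_trans (by norm_num) hT) (le_trans hT' (by norm_num)) (le_trans (by norm_num) a4) (le_trans a5 (by norm_num)) a6 a7 (le_trans (by norm_num) h) (by linarith only [hx', hl]) (le_trans (by norm_num) a1) (le_trans a2 (by norm_num)) (by linarith only [hl]) (by linarith only [a8]) g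
    · intro h g
      have g1 := hTu.trans g
      rw [e] at g ⊢
      exact t1p (le_trans (by norm_num) hx) (le_trans hx' (by norm_num)) (le_trans (by norm_num) hT) (le_trans hT' (by norm_num)) (le_trans (by norm_num) a4) (le_trans a5 (by norm_num)) a6 a7 (le_trans (by norm_num) h) (by linarith only [hx', hl]) (le_trans (by norm_num) g1) (le_trans a2 (by norm_num)) (by linarith only [hl]) (by linarith only [a8]) (le_trans hs1 (by norm_num)) g
    · intro h g
      rw [e] at g ⊢
      exact t1rn (le_trans (by norm_num) hx) (le_trans hx' (by norm_num)) (le_trans (by norm_num) hT) (le_trans hT' (by norm_num)) (le_trans (by norm_num) a4) (le_trans a5 (by norm_num)) a6 a7 (le_trans (by norm_num) hr0) (le_trans h (by norm_num)) (le_trans (by norm_num) a1) (le_trans a2 (by norm_num)) (by linarith only [a8]) g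
    · intro h g
      rw [e] at g ⊢
      exact t1rp (le_trans (by norm_num) hx) (le_trans hx' (by norm_num)) (le_trans (by norm_num) hT) (le_trans hT' (by norm_num)) (le_trans (by norm_num) a4) (le_trans a5 (by norm_num)) a6 a7 (le_trans (by norm_num) hr0) (le_trans h (by norm_num)) (le_trans (by norm_num) a1) (le_trans a2 (by norm_num)) (by linarith only [a8]) (le_trans hs1 (by norm_num)) g.le
  · have hK' : -(104 / 1000) ≤ t ∧ t ≤ 5 / 1000 ∧ T - t ≤ 100 / 1000 ∧ 7 / 100 ≤ w.re ∧
        (w.re ≤ 31 / 100 ∨ 31 / 100 ≤ w.re ∧ w.re ≤ 39 / 100 ∧ w.im ≤ 22 / 1000) ∧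
        -(98 / 1000) ≤ w.im ∧ w.im ≤ 57 / 1000 ∧ -(98 / 130 * w.re) ≤ w.im := by
      rcases hK with hK | hK
      · obtain ⟨a1, a2, a3, a4, a5, a6, a7, a8⟩ := hK
        refine ⟨a1, a2, a3, a4, ?_, a6, a7.trans (by norm_num), a8⟩
        rcases le_total w.re (31 / 100) with h9 | h9
        · exact Or.inl h9
        · exact Or.inr ⟨h9, a5, a7⟩
      · obtain ⟨a1, a2, a3, a4, a5, a6, a7, a8⟩ := hK
        exact ⟨le_trans (by norm_num) a1, a2.trans (by norm_num), a3.trans (by norm_num), a4,
          Or.inl a5, a6, a7, a8⟩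
    obtain ⟨a1, a2, a3, a4, a5, a6, a7, a8⟩ := hK'
    refine ⟨4400 / 10000, by norm_num, by norm_num, low_of hrh rfl (by linarith only [hx', hl])
      (abs_le.2 ⟨by linarith only [a1], by linarith only [hT', hs1]⟩) ?_ ?_ ?_ ?_⟩
    · intro h g
      rw [e] at g ⊢
      rcases a5 with a5 | ⟨a5, a9, a10⟩
      · exact ton (le_trans (by norm_num) hx) (le_trans hx' (by norm_num)) (le_trans (by norm_num) hT) (le_trans hT' (by norm_num)) (le_trans (by norm_num) a4) (le_trans a5 (by norm_num)) (le_trans (by norm_num) a6) (le_trans a7 (by norm_num)) (le_trans (by norm_num) h) (by linarith only [hx', hl]) (le_trans (by norm_num) a1) (le_trans a2 (by norm_num)) (by linarith only [hl]) (by linarith only [a8]) g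
      · exact yon (le_trans (by norm_num) hx) (le_trans hx' (by norm_num)) (le_trans (by norm_num) hT) (le_trans hT' (by norm_num)) (le_trans (by norm_num) a5) (le_trans a9 (by norm_num)) (le_trans (by norm_num) a6) (le_trans a10 (by norm_num)) (le_trans (by norm_num) h) (by linarith only [hx', hl]) (le_trans (by norm_num) a1) (le_trans a2 (by norm_num)) (by linarith only [hl]) (by linarith only [a6, a5]) g
    · intro h g
      have g1 := hTu.trans g
      rw [e] at g ⊢
      rcases a5 with a5 | ⟨a5, a9, a10⟩
      · exact top (le_trans (by norm_num) hx) (le_trans hx' (by norm_num)) (le_trans (by norm_num) hT) (le_trans hT' (by norm_num)) (le_trans (by norm_num) a4) (le_trans a5 (by norm_num)) (le_trans (by norm_num) a6) (le_trans a7 (by norm_num)) (le_trans (by norm_num) h) (by linarith only [hx', hl]) (le_trans (by norm_num) g1) (le_trans a2 (by norm_num)) (by linarith only [hl]) (by linarith only [a8]) (le_trans hs1 (by norm_num)) g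
      · exact yop (le_trans (by norm_num) hx) (le_trans hx' (by norm_num)) (le_trans (by norm_num) hT) (le_trans hT' (by norm_num)) (le_trans (by norm_num) a5) (le_trans a9 (by norm_num)) (le_trans (by norm_num) a6) (le_trans a10 (by norm_num)) (le_trans (by norm_num) h) (by linarith only [hx', hl]) (le_trans (by norm_num) g1) (le_trans a2 (by norm_num)) (by linarith only [hl]) (by linarith only [a6, a5]) (le_trans hs1 (by norm_num)) g
    · intro h g
      rw [e] at g ⊢
      rcases a5 with a5 | ⟨a5, a9, a10⟩
      · exact torn (le_trans (by norm_num) hx) (le_trans hx' (by norm_num)) (le_trans (by norm_num) hT) (le_trans hT' (by norm_num)) (le_trans (by norm_num) a4) (le_trans a5 (by norm_num)) (le_trans (by norm_num) a6) (le_trans a7 (by norm_num)) (le_trans (by norm_num) hr0) (le_trans h (by norm_num)) (le_trans (by norm_num) a1) (le_trans a2 (by norm_num)) (by linarith only [a8]) g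
      · exact yorn (le_trans (by norm_num) hx) (le_trans hx' (by norm_num)) (le_trans (by norm_num) hT) (le_trans hT' (by norm_num)) (le_trans (by norm_num) a5) (le_trans a9 (by norm_num)) (le_trans (by norm_num) a6) (le_trans a10 (by norm_num)) (le_trans (by norm_num) hr0) (le_trans h (by norm_num)) (le_trans (by norm_num) a1) (le_trans a2 (by norm_num)) (by linarith only [a6, a5]) g
    · intro h g
      rw [e] at g ⊢
      rcases a5 with a5 | ⟨a5, a9, a10⟩
      · exact torp (le_trans (by norm_num) hx) (le_trans hx' (by norm_num)) (le_trans (by norm_num) hT) (le_trans hT' (by norm_num)) (le_trans (by norm_num) a4) (le_trans a5 (by norm_num)) (le_trans (by norm_num) a6) (le_trans a7 (by norm_num)) (le_trans (by norm_num) hr0) (le_trans h (by norm_num)) (le_trans (by norm_num) a1) (le_trans a2 (by norm_num)) (by linarith only [a8]) (le_trans hs1 (by norm_num)) g.le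
      · exact yorp (le_trans (by norm_num) hx) (le_trans hx' (by norm_num)) (le_trans (by norm_num) hT) (le_trans hT' (by norm_num)) (le_trans (by norm_num) a5) (le_trans a9 (by norm_num)) (le_trans (by norm_num) a6) (le_trans a10 (by norm_num)) (le_trans (by norm_num) hr0) (le_trans h (by norm_num)) (le_trans (by norm_num) a1) (le_trans a2 (by norm_num)) (by linarith only [a6, a5]) (le_trans hs1 (by norm_num)) g.le

/-- **Low branch, left neighbour `2e`, `x` in `[.30, .38]`** -/
theorem low_e {T t : ℝ} {u v w : ℂ} (hx : 30 / 100 ≤ u.re) (hx' : u.re ≤ 38 / 100)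
    (hu : u.im = 10 / 3 * T * (6 / 10 - u.re)) (hT : -(98 / 1000) ≤ T) (hT' : T ≤ -(76 / 1000))
    (hK : E1 T t w ∨ Eo T t w ∨ EZ T t w) (hrh : RH v t (8 / 10) (5 / 100) (5 / 100))
    (hl : v.re ≤ u.re - 7 / 100) :
    ∃ c : ℝ, 5 / 100 ≤ c ∧ c ≤ 75 / 100 ∧ ∀ v' : ℂ, v'.re = c → v'.im = t →
      V3 u v w < V3 u v' w := by
  have hr0 := hrh.re0
  have e : u.im = rui (10 / 3) u.re T := hu
  rcases hK with hK | hK
  · obtain ⟨a1, a2, a3, a4, a5, a6, a7, a8⟩ := hK
    refine ⟨4600 / 10000, by norm_num, by norm_num, low_of hrh rfl (by linarith only [hx', hl])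
      (abs_le.2 ⟨by linarith only [a1], by linarith only [a2]⟩) ?_ ?_ ?_ ?_⟩
    · intro h g
      rw [e] at g ⊢
      exact e1n (le_trans (by norm_num) hx) (le_trans hx' (by norm_num)) (le_trans (by norm_num) hT) (le_trans hT' (by norm_num)) (le_trans (by norm_num) a4) (le_trans a5 (by norm_num)) a6 a7 (le_trans (by norm_num) h) (by linarith only [hx', hl]) (le_trans (by norm_num) a1) (le_trans a2 (by norm_num)) (by linarith only [hl]) (by linarith only [a8]) g
    · intro h g
      rw [e] at g ⊢
      exact e1p (le_trans (by norm_num) hx) (le_trans hx' (by norm_num)) (le_trans (by norm_num) hT) (le_trans hT' (by norm_num)) (le_trans (by norm_num) a4) (le_trans a5 (by norm_num)) a6 a7 (le_trans (by norm_num) h) (by linarith only [hx', hl]) (le_trans (by norm_num) a1) (le_trans a2 (by norm_num)) (by linarith only [hl]) (by linarith only [a8]) g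
    · intro h g
      rw [e] at g ⊢
      exact e1rn (le_trans (by norm_num) hx) (le_trans hx' (by norm_num)) (le_trans (by norm_num) hT) (le_trans hT' (by norm_num)) (le_trans (by norm_num) a4) (le_trans a5 (by norm_num)) a6 a7 (le_trans (by norm_num) hr0) (le_trans h (by norm_num)) (le_trans (by norm_num) a1) (le_trans a2 (by norm_num)) (by linarith only [a8]) g
    · intro h g
      rw [e] at g ⊢
      exact e1rp (le_trans (by norm_num) hx) (le_trans hx' (by norm_num)) (le_trans (by norm_num) hT) (le_trans hT' (by norm_num)) (le_trans (by norm_num) a4) (le_trans a5 (by norm_num)) a6 a7 (le_trans (by norm_num) hr0) (le_trans h (by norm_num)) (le_trans (by norm_num) a1) (le_trans a2 (by norm_num)) (by linarith only [a8]) g.le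
  · have hK' : -(116 / 1000) ≤ t ∧ t ≤ -(64 / 1000) ∧ 7 / 100 ≤ w.re ∧
        (w.re ≤ 31 / 100 ∨ 31 / 100 ≤ w.re ∧ w.re ≤ 39 / 100 ∧ w.im ≤ 22 / 1000) ∧
        -(98 / 1000) ≤ w.im ∧ w.im ≤ 57 / 1000 ∧ -(98 / 130 * w.re) ≤ w.im := by
      rcases hK with hK | hK
      · obtain ⟨a1, a2, a3, a4, a5, a6, a7, a8⟩ := hK
        refine ⟨a1, a2, a4, ?_, a6, a7.trans (by norm_num), a8⟩
        rcases le_total w.re (31 / 100) with h9 | h9
        · exact Or.inl h9
        · exact Or.inr ⟨h9, a5, a7⟩
      · obtain ⟨a1, a2, a3, a4, a5, a6, a7, a8⟩ := hK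
        exact ⟨le_trans (by norm_num) a1, a2.trans (by norm_num), a4, Or.inl a5, a6, a7, a8⟩
    obtain ⟨a1, a2, a4, a5, a6, a7, a8⟩ := hK'
    refine ⟨4600 / 10000, by norm_num, by norm_num, low_of hrh rfl (by linarith only [hx', hl])
      (abs_le.2 ⟨by linarith only [a1], by linarith only [a2]⟩) ?_ ?_ ?_ ?_⟩
    · intro h g
      rw [e] at g ⊢
      rcases a5 with a5 | ⟨a5, a9, a10⟩
      · exact eon (le_trans (by norm_num) hx) (le_trans hx' (by norm_num)) (le_trans (by norm_num) hT) (le_trans hT' (by norm_num)) (le_trans (by norm_num) a4) (le_trans a5 (by norm_num)) (le_trans (by norm_num) a6) (le_trans a7 (by norm_num)) (le_trans (by norm_num) h) (by linarith only [hx', hl]) (le_trans (by norm_num) a1) (le_trans a2 (by norm_num)) (by linarith only [hl]) (by linarith only [a8]) g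
      · exact fon (le_trans (by norm_num) hx) (le_trans hx' (by norm_num)) (le_trans (by norm_num) hT) (le_trans hT' (by norm_num)) (le_trans (by norm_num) a5) (le_trans a9 (by norm_num)) (le_trans (by norm_num) a6) (le_trans a10 (by norm_num)) (le_trans (by norm_num) h) (by linarith only [hx', hl]) (le_trans (by norm_num) a1) (le_trans a2 (by norm_num)) (by linarith only [hl]) (by linarith only [a6, a5]) g
    · intro h g
      rw [e] at g ⊢
      rcases a5 with a5 | ⟨a5, a9, a10⟩
      · exact eop (le_trans (by norm_num) hx) (le_trans hx' (by norm_num)) (le_trans (by norm_num) hT) (le_trans hT' (by norm_num)) (le_trans (by norm_num) a4) (le_trans a5 (by norm_num)) (le_trans (by norm_num) a6) (le_trans a7 (by norm_num)) (le_trans (by norm_num) h) (by linarith only [hx', hl]) (le_trans (by norm_num) a1) (le_trans a2 (by norm_num)) (by linarith only [hl]) (by linarith only [a8]) g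
      · exact fop (le_trans (by norm_num) hx) (le_trans hx' (by norm_num)) (le_trans (by norm_num) hT) (le_trans hT' (by norm_num)) (le_trans (by norm_num) a5) (le_trans a9 (by norm_num)) (le_trans (by norm_num) a6) (le_trans a10 (by norm_num)) (le_trans (by norm_num) h) (by linarith only [hx', hl]) (le_trans (by norm_num) a1) (le_trans a2 (by norm_num)) (by linarith only [hl]) (by linarith only [a6, a5]) g
    · intro h g
      rw [e] at g ⊢
      rcases a5 with a5 | ⟨a5, a9, a10⟩
      · exact eorn (le_trans (by norm_num) hx) (le_trans hx' (by norm_num)) (le_trans (by norm_num) hT) (le_trans hT' (by norm_num)) (le_trans (by norm_num) a4) (le_trans a5 (by norm_num)) (le_trans (by norm_num) a6) (le_trans a7 (by norm_num)) (le_trans (by norm_num) hr0) (le_trans h (by norm_num)) (le_trans (by norm_num) a1) (le_trans a2 (by norm_num)) (by linarith only [a8]) g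
      · exact forn (le_trans (by norm_num) hx) (le_trans hx' (by norm_num)) (le_trans (by norm_num) hT) (le_trans hT' (by norm_num)) (le_trans (by norm_num) a5) (le_trans a9 (by norm_num)) (le_trans (by norm_num) a6) (le_trans a10 (by norm_num)) (le_trans (by norm_num) hr0) (le_trans h (by norm_num)) (le_trans (by norm_num) a1) (le_trans a2 (by norm_num)) (by linarith only [a6, a5]) g
    · intro h g
      rw [e] at g ⊢
      rcases a5 with a5 | ⟨a5, a9, a10⟩
      · exact eorp (le_trans (by norm_num) hx) (le_trans hx' (by norm_num)) (le_trans (by norm_num) hT) (le_trans hT' (by norm_num)) (le_trans (by norm_num) a4) (le_trans a5 (by norm_num)) (le_trans (by norm_num) a6) (le_trans a7 (by norm_num)) (le_trans (by norm_num) hr0) (le_trans h (by norm_num)) (le_trans (by norm_num) a1) (le_trans a2 (by norm_num)) (by linarith only [a8]) g.le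
      · exact forp (le_trans (by norm_num) hx) (le_trans hx' (by norm_num)) (le_trans (by norm_num) hT) (le_trans hT' (by norm_num)) (le_trans (by norm_num) a5) (le_trans a9 (by norm_num)) (le_trans (by norm_num) a6) (le_trans a10 (by norm_num)) (le_trans (by norm_num) hr0) (le_trans h (by norm_num)) (le_trans (by norm_num) a1) (le_trans a2 (by norm_num)) (by linarith only [a6, a5]) g.le

end S0R

end Pool.Agent.Work.MP_b30479_gtS.G2

end

section

/-!
# The own side of an interior `3` at slot `0`, right ramp: all parts
-/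

end
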