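import Pool.Agent.Work.MP_b30479_gt.TBS.G2.S0RC
import Pool.Agent.Work.MP_b30479_gt.TBS.NumU.Tree

/-!
# `ring | 3` at slot `0`, the exceptional case: rows, joint move
-/

set_option linter.unusedSimpArgs false
set_option linter.unusedVariables false

set_option deprecated.oldSectionVars true

namespace Pool.Agent.Work.MP_b30479_gtS.G2

open VOL NumUs

namespace S0R

open NumUs.E EJ

theorem kj1 {x a T w b r t : ℝ} (ua1 : 3800 / 10000 ≤ x) (ua2 : x ≤ 6000 / 10000) (ua3 : -(6 / 10000) ≤ a) (ua4 : a ≤ 0 / 10000) (ua5 : -(7 / 10000) ≤ T) (ua6 : T ≤ 0 / 10000) (ua7 : 0 / 10000 ≤ w) (ua8 : w ≤ 1300 / 10000) (ua9 : -(1145 / 10000) ≤ b) (ua10 : b ≤ 0 / 10000) (ua11 : 500 / 10000 ≤ r) (ua12 : r ≤ 4700 / 10000) (ua13 : -(1057 / 10000) ≤ t) (ua14 : t ≤ -(150 / 10000)) (ua15 : r ≤ x - 1300 / 10000) (ua16 : -(1145 / 1500) * w ≤ b) :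
    28 / 10000 < rJ (4200 / 10000) x a T w b r t := by
  have h : chkT [sub (J (q 4200 10000)) (q 28 10000), sub EJ.r (sub EJ.x (q 1300 10000)), sub (mul (q (-1145) 1500) EJ.w) EJ.b] 60
    78215319458879360740714102831733218940375082875255663759505735458817977461020628457615663325824205688427349
    [NumIs.V.of 10000 3800 6000, NumIs.V.of 10000 (-6) 0, NumIs.V.of 10000 (-7) 0, NumIs.V.of 10000 0 1300, NumIs.V.of 10000 (-1145) 0, NumIs.V.of 10000 500 4700, NumIs.V.of 10000 (-1057) (-150)] = true := by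
    decide +kernel
  obtain ⟨f, hf, hp⟩ := chkT_sound h (xs := [x, a, T, w, b, r, t])
    (List.Forall₂.cons (NumIs.V.of_mem (by norm_num) (by norm_num; linarith only [ua1]) (by norm_num; linarith only [ua2])) (List.Forall₂.cons (NumIs.V.of_mem (by norm_num) (by norm_num; linarith only [ua3]) (by norm_num; linarith only [ua4])) (List.Forall₂.cons (NumIs.V.of_mem (by norm_num) (by norm_num; linarith only [ua5]) (by norm_num; linarith only [ua6])) (List.Forall₂.cons (NumIs.V.of_mem (by norm_num) (by norm_num; linarith only [ua7]) (by norm_num; linarith only [ua8])) (List.Forall₂.cons (NumIs.V.of_mem (by norm_num) (by norm_num; linarith only [ua8, ua16]) (by norm_num; linarith only [ua10])) (List.Forall₂.cons (NumIs.V.of_mem (by norm_num) (by norm_num; linarith only [ua11]) (by norm_num; linarith only [ua12])) (List.Forall₂.cons (NumIs.V.of_mem (by norm_num) (by norm_num; linarith only [ua13]) (by norm_num; linarith only [ua14])) List.Forall₂.nil)))))))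
  by_contra hc
  push Not at hc
  simp only [List.mem_cons, List.not_mem_nil, or_false] at hf
  rcases hf with rfl | rfl | rfl
  · simp only [J_val, K_val, EJ.h_val, EJ.x, EJ.a, EJ.T, EJ.w, EJ.b, EJ.r, EJ.t, E.val, NumIs.lkR] at hp
    push_cast at hp
    linarith only [hc, hp]
  · simp only [J_val, K_val, EJ.h_val, EJ.x, EJ.a, EJ.T, EJ.w, EJ.b, EJ.r, EJ.t, E.val, NumIs.lkR] at hp
    push_cast at hp
    linarith only [ua15, hp]
  · simp only [J_val, K_val, EJ.h_val, EJ.x, EJ.a, EJ.T, EJ.w, EJ.b, EJ.r, EJ.t, E.val, NumIs.lkR] at hp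
    push_cast at hp
    linarith only [ua16, hp]

theorem kj2 {x a T w b r t : ℝ} (ua1 : 3800 / 10000 ≤ x) (ua2 : x ≤ 6000 / 10000) (ua3 : -(6 / 10000) ≤ a) (ua4 : a ≤ 0 / 10000) (ua5 : -(7 / 10000) ≤ T) (ua6 : T ≤ 0 / 10000) (ua7 : 1300 / 10000 ≤ w) (ua8 : w ≤ 2600 / 10000) (ua9 : -(1145 / 10000) ≤ b) (ua10 : b ≤ 0 / 10000) (ua11 : 500 / 10000 ≤ r) (ua12 : r ≤ 4700 / 10000) (ua13 : -(1057 / 10000) ≤ t) (ua14 : t ≤ -(150 / 10000)) (ua15 : r ≤ x - 1300 / 10000) (ua16 : -(1145 / 1500) * w ≤ b) :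
    28 / 10000 < rJ (4200 / 10000) x a T w b r t := by
  have h : chkT [sub (J (q 4200 10000)) (q 28 10000), sub EJ.r (sub EJ.x (q 1300 10000)), sub (mul (q (-1145) 1500) EJ.w) EJ.b] 60
    58886273129815490970615359747323142141189279877280740720353325898556757
    [NumIs.V.of 10000 3800 6000, NumIs.V.of 10000 (-6) 0, NumIs.V.of 10000 (-7) 0, NumIs.V.of 10000 1300 2600, NumIs.V.of 10000 (-1145) 0, NumIs.V.of 10000 500 4700, NumIs.V.of 10000 (-1057) (-150)] = true := by
    decide +kernel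
  obtain ⟨f, hf, hp⟩ := chkT_sound h (xs := [x, a, T, w, b, r, t])
    (List.Forall₂.cons (NumIs.V.of_mem (by norm_num) (by norm_num; linarith only [ua1]) (by norm_num; linarith only [ua2])) (List.Forall₂.cons (NumIs.V.of_mem (by norm_num) (by norm_num; linarith only [ua3]) (by norm_num; linarith only [ua4])) (List.Forall₂.cons (NumIs.V.of_mem (by norm_num) (by norm_num; linarith only [ua5]) (by norm_num; linarith only [ua6])) (List.Forall₂.cons (NumIs.V.of_mem (by norm_num) (by norm_num; linarith only [ua7]) (by norm_num; linarith only [ua8])) (List.Forall₂.cons (NumIs.V.of_mem (by norm_num) (by norm_num; linarith only [ua9]) (by norm_num; linarith only [ua10])) (List.Forall₂.cons (NumIs.V.of_mem (by norm_num) (by norm_num; linarith only [ua11]) (by norm_num; linarith only [ua12])) (List.Forall₂.cons (NumIs.V.of_mem (by norm_num) (by norm_num; linarith only [ua13]) (by norm_num; linarith only [ua14])) List.Forall₂.nil)))))))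
  by_contra hc
  push Not at hc
  simp only [List.mem_cons, List.not_mem_nil, or_false] at hf
  rcases hf with rfl | rfl | rfl
  · simp only [J_val, K_val, EJ.h_val, EJ.x, EJ.a, EJ.T, EJ.w, EJ.b, EJ.r, EJ.t, E.val, NumIs.lkR] at hp
    push_cast at hp
    linarith only [hc, hp]
  · simp only [J_val, K_val, EJ.h_val, EJ.x, EJ.a, EJ.T, EJ.w, EJ.b, EJ.r, EJ.t, E.val, NumIs.lkR] at hp
    push_cast at hp
    linarith only [ua15, hp]
  · simp only [J_val, K_val, EJ.h_val, EJ.x, EJ.a, EJ.T, EJ.w, EJ.b, EJ.r, EJ.t, E.val, NumIs.lkR] at hp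
    push_cast at hp
    linarith only [ua16, hp]

theorem kj3 {x a T w b r t : ℝ} (ua1 : 3800 / 10000 ≤ x) (ua2 : x ≤ 6000 / 10000) (ua3 : -(6 / 10000) ≤ a) (ua4 : a ≤ 0 / 10000) (ua5 : -(7 / 10000) ≤ T) (ua6 : T ≤ 0 / 10000) (ua7 : 2600 / 10000 ≤ w) (ua8 : w ≤ 3900 / 10000) (ua9 : -(1145 / 10000) ≤ b) (ua10 : b ≤ 0 / 10000) (ua11 : 500 / 10000 ≤ r) (ua12 : r ≤ 4700 / 10000) (ua13 : -(1057 / 10000) ≤ t) (ua14 : t ≤ -(150 / 10000)) (ua15 : r ≤ x - 1300 / 10000) (ua16 : -(1145 / 1500) * w ≤ b) :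
    28 / 10000 < rJ (4200 / 10000) x a T w b r t := by
  have h : chkT [sub (J (q 4200 10000)) (q 28 10000), sub EJ.r (sub EJ.x (q 1300 10000)), sub (mul (q (-1145) 1500) EJ.w) EJ.b] 60
    278082547004770697331358916233743591248988340530865393721162076185139943311080885504289301845
    [NumIs.V.of 10000 3800 6000, NumIs.V.of 10000 (-6) 0, NumIs.V.of 10000 (-7) 0, NumIs.V.of 10000 2600 3900, NumIs.V.of 10000 (-1145) 0, NumIs.V.of 10000 500 4700, NumIs.V.of 10000 (-1057) (-150)] = true := by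
    decide +kernel
  obtain ⟨f, hf, hp⟩ := chkT_sound h (xs := [x, a, T, w, b, r, t])
    (List.Forall₂.cons (NumIs.V.of_mem (by norm_num) (by norm_num; linarith only [ua1]) (by norm_num; linarith only [ua2])) (List.Forall₂.cons (NumIs.V.of_mem (by norm_num) (by norm_num; linarith only [ua3]) (by norm_num; linarith only [ua4])) (List.Forall₂.cons (NumIs.V.of_mem (by norm_num) (by norm_num; linarith only [ua5]) (by norm_num; linarith only [ua6])) (List.Forall₂.cons (NumIs.V.of_mem (by norm_num) (by norm_num; linarith only [ua7]) (by norm_num; linarith only [ua8])) (List.Forall₂.cons (NumIs.V.of_mem (by norm_num) (by norm_num; linarith only [ua9]) (by norm_num; linarith only [ua10])) (List.Forall₂.cons (NumIs.V.of_mem (by norm_num) (by norm_num; linarith only [ua11]) (by norm_num; linarith only [ua12])) (List.Forall₂.cons (NumIs.V.of_mem (by norm_num) (by norm_num; linarith only [ua13]) (by norm_num; linarith only [ua14])) List.Forall₂.nil)))))))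
  by_contra hc
  push Not at hc
  simp only [List.mem_cons, List.not_mem_nil, or_false] at hf
  rcases hf with rfl | rfl | rfl
  · simp only [J_val, K_val, EJ.h_val, EJ.x, EJ.a, EJ.T, EJ.w, EJ.b, EJ.r, EJ.t, E.val, NumIs.lkR] at hp
    push_cast at hp
    linarith only [hc, hp]
  · simp only [J_val, K_val, EJ.h_val, EJ.x, EJ.a, EJ.T, EJ.w, EJ.b, EJ.r, EJ.t, E.val, NumIs.lkR] at hp
    push_cast at hp
    linarith only [ua15, hp]
  · simp only [J_val, K_val, EJ.h_val, EJ.x, EJ.a, EJ.T, EJ.w, EJ.b, EJ.r, EJ.t, E.val, NumIs.lkR] at hp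
    push_cast at hp
    linarith only [ua7, ua9, hp]

theorem kk0 {x a T w b r t : ℝ} (ua1 : 3800 / 10000 ≤ x) (ua2 : x ≤ 6000 / 10000) (ua3 : -(6 / 10000) ≤ a) (ua4 : a ≤ 0 / 10000) (ua5 : -(7 / 10000) ≤ T) (ua6 : T ≤ 0 / 10000) (ua7 : 0 / 10000 ≤ w) (ua8 : w ≤ 200 / 10000) (ua9 : -(153 / 10000) ≤ b) (ua10 : b ≤ 0 / 10000) (ua11 : 0 / 10000 ≤ r) (ua12 : r ≤ 200 / 10000) (ua13 : -(1057 / 10000) ≤ t) (ua14 : t ≤ -(150 / 10000)) (ua15 : -(1145 / 1500) * w ≤ b) :
    8 / 1000 < rK (-Real.pi * (1 / 2) * -(20 * (t * r) + b)) (uu (1 / 50) (20 * (t * r))) (4200 / 10000) x a T w b r t := by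
  have h : chkT [sub (K (mul (mul (neg pi) (q 1 2)) (neg (add h EJ.b))) (E.uu (q 1 50) h) (q 4200 10000)) (q 8 1000), sub (mul (q (-1145) 1500) EJ.w) EJ.b] 60
    8
    [NumIs.V.of 10000 3800 6000, NumIs.V.of 10000 (-6) 0, NumIs.V.of 10000 (-7) 0, NumIs.V.of 10000 0 200, NumIs.V.of 10000 (-153) 0, NumIs.V.of 10000 0 200, NumIs.V.of 10000 (-1057) (-150)] = true := by
    decide +kernel
  obtain ⟨f, hf, hp⟩ := chkT_sound h (xs := [x, a, T, w, b, r, t])
    (List.Forall₂.cons (NumIs.V.of_mem (by norm_num) (by norm_num; linarith only [ua1]) (by norm_num; linarith only [ua2])) (List.Forall₂.cons (NumIs.V.of_mem (by norm_num) (by norm_num; linarith only [ua3]) (by norm_num; linarith only [ua4])) (List.Forall₂.cons (NumIs.V.of_mem (by norm_num) (by norm_num; linarith only [ua5]) (by norm_num; linarith only [ua6])) (List.Forall₂.cons (NumIs.V.of_mem (by norm_num) (by norm_num; linarith only [ua7]) (by norm_num; linarith only [ua8])) (List.Forall₂.cons (NumIs.V.of_mem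 (by norm_num) (by norm_num; linarith only [ua8, ua15]) (by norm_num; linarith only [ua10])) (List.Forall₂.cons (NumIs.V.of_mem (by norm_num) (by norm_num; linarith only [ua11]) (by norm_num; linarith only [ua12])) (List.Forall₂.cons (NumIs.V.of_mem (by norm_num) (by norm_num; linarith only [ua13]) (by norm_num; linarith only [ua14])) List.Forall₂.nil)))))))
  by_contra hc
  push Not at hc
  simp only [List.mem_cons, List.not_mem_nil, or_false] at hf
  rcases hf with rfl | rfl
  · simp only [J_val, K_val, EJ.h_val, EJ.x, EJ.a, EJ.T, EJ.w, EJ.b, EJ.r, EJ.t, E.val, NumIs.lkR] at hp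
    push_cast at hp
    linarith only [hc, hp]
  · simp only [J_val, K_val, EJ.h_val, EJ.x, EJ.a, EJ.T, EJ.w, EJ.b, EJ.r, EJ.t, E.val, NumIs.lkR] at hp
    push_cast at hp
    linarith only [ua15, hp]

theorem kk1 {x a T w b r t : ℝ} (ua1 : 3800 / 10000 ≤ x) (ua2 : x ≤ 6000 / 10000) (ua3 : -(6 / 10000) ≤ a) (ua4 : a ≤ 0 / 10000) (ua5 : -(7 / 10000) ≤ T) (ua6 : T ≤ 0 / 10000) (ua7 : 0 / 10000 ≤ w) (ua8 : w ≤ 200 / 10000) (ua9 : -(1145 / 10000) ≤ b) (ua10 : b ≤ 0 / 10000) (ua11 : 200 / 10000 ≤ r) (ua12 : r ≤ 500 / 10000) (ua13 : -(1057 / 10000) ≤ t) (ua14 : t ≤ -(150 / 10000)) (ua15 : -(1145 / 1500) * w ≤ b) :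
    8 / 1000 < rK (uu (r + w) (20 * (t * r) + b)) (uu (1 / 20) (20 * (t * r))) (4200 / 10000) x a T w b r t := by
  have h : chkT [sub (K (E.uu (add EJ.r EJ.w) (add h EJ.b)) (E.uu (q 1 20) h) (q 4200 10000)) (q 8 1000), sub (mul (q (-1145) 1500) EJ.w) EJ.b] 60
    40296949977926473242004
    [NumIs.V.of 10000 3800 6000, NumIs.V.of 10000 (-6) 0, NumIs.V.of 10000 (-7) 0, NumIs.V.of 10000 0 200, NumIs.V.of 10000 (-1145) 0, NumIs.V.of 10000 200 500, NumIs.V.of 10000 (-1057) (-150)] = true := by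
    decide +kernel
  obtain ⟨f, hf, hp⟩ := chkT_sound h (xs := [x, a, T, w, b, r, t])
    (List.Forall₂.cons (NumIs.V.of_mem (by norm_num) (by norm_num; linarith only [ua1]) (by norm_num; linarith only [ua2])) (List.Forall₂.cons (NumIs.V.of_mem (by norm_num) (by norm_num; linarith only [ua3]) (by norm_num; linarith only [ua4])) (List.Forall₂.cons (NumIs.V.of_mem (by norm_num) (by norm_num; linarith only [ua5]) (by norm_num; linarith only [ua6])) (List.Forall₂.cons (NumIs.V.of_mem (by norm_num) (by norm_num; linarith only [ua7]) (by norm_num; linarith only [ua8])) (List.Forall₂.cons (NumIs.V.of_mem (by norm_num) (by norm_num; linarith only [ua8, ua15]) (by norm_num; linarith only [ua10])) (List.Forall₂.cons (NumIs.V.of_mem (by norm_num) (by norm_num; linarith only [ua11]) (by norm_num; linarith only [ua12])) (List.Forall₂.cons (NumIs.V.of_mem (by norm_num) (by norm_num; linarith only [ua13]) (by norm_num; linarith only [ua14])) List.Forall₂.nil)))))))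
  by_contra hc
  push Not at hc
  simp only [List.mem_cons, List.not_mem_nil, or_false] at hf
  rcases hf with rfl | rfl
  · simp only [J_val, K_val, EJ.h_val, EJ.x, EJ.a, EJ.T, EJ.w, EJ.b, EJ.r, EJ.t, E.val, NumIs.lkR] at hp
    push_cast at hp
    linarith only [hc, hp]
  · simp only [J_val, K_val, EJ.h_val, EJ.x, EJ.a, EJ.T, EJ.w, EJ.b, EJ.r, EJ.t, E.val, NumIs.lkR] at hp
    push_cast at hp
    linarith only [ua15, hp]

theorem kk2 {x a T w b r t : ℝ} (ua1 : 3800 / 10000 ≤ x) (ua2 : x ≤ 6000 / 10000) (ua3 : -(6 / 10000) ≤ a) (ua4 : a ≤ 0 / 10000) (ua5 : -(7 / 10000) ≤ T) (ua6 : T ≤ 0 / 10000) (ua7 : 200 / 10000 ≤ w) (ua8 : w ≤ 2000 / 10000) (ua9 : -(1145 / 10000) ≤ b) (ua10 : b ≤ 0 / 10000) (ua11 : 0 / 10000 ≤ r) (ua12 : r ≤ 500 / 10000) (ua13 : -(1057 / 10000) ≤ t) (ua14 : t ≤ -(150 / 10000)) (ua15 : -(1145 / 1500) * w ≤ b) :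
    8 / 1000 < rK (uu (r + w) (20 * (t * r) + b)) (uu (1 / 20) (20 * (t * r))) (4200 / 10000) x a T w b r t := by
  have h : chkT [sub (K (E.uu (add EJ.r EJ.w) (add h EJ.b)) (E.uu (q 1 20) h) (q 4200 10000)) (q 8 1000), sub (mul (q (-1145) 1500) EJ.w) EJ.b] 60
    3510357931405751572334167076644076172971835550339598293285815603
    [NumIs.V.of 10000 3800 6000, NumIs.V.of 10000 (-6) 0, NumIs.V.of 10000 (-7) 0, NumIs.V.of 10000 200 2000, NumIs.V.of 10000 (-1145) 0, NumIs.V.of 10000 0 500, NumIs.V.of 10000 (-1057) (-150)] = true := by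
    decide +kernel
  obtain ⟨f, hf, hp⟩ := chkT_sound h (xs := [x, a, T, w, b, r, t])
    (List.Forall₂.cons (NumIs.V.of_mem (by norm_num) (by norm_num; linarith only [ua1]) (by norm_num; linarith only [ua2])) (List.Forall₂.cons (NumIs.V.of_mem (by norm_num) (by norm_num; linarith only [ua3]) (by norm_num; linarith only [ua4])) (List.Forall₂.cons (NumIs.V.of_mem (by norm_num) (by norm_num; linarith only [ua5]) (by norm_num; linarith only [ua6])) (List.Forall₂.cons (NumIs.V.of_mem (by norm_num) (by norm_num; linarith only [ua7]) (by norm_num; linarith only [ua8])) (List.Forall₂.cons (NumIs.V.of_mem (by norm_num) (by norm_num; linarith only [ua9]) (by norm_num; linarith only [ua10])) (List.Forall₂.cons (NumIs.V.of_mem (by norm_num) (by norm_num; linarith only [ua11]) (by norm_num; linarith only [ua12])) (List.Forall₂.cons (NumIs.V.of_mem (by norm_num) (by norm_num; linarith only [ua13]) (by norm_num; linarith only [ua14])) List.Forall₂.nil)))))))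
  by_contra hc
  push Not at hc
  simp only [List.mem_cons, List.not_mem_nil, or_false] at hf
  rcases hf with rfl | rfl
  · simp only [J_val, K_val, EJ.h_val, EJ.x, EJ.a, EJ.T, EJ.w, EJ.b, EJ.r, EJ.t, E.val, NumIs.lkR] at hp
    push_cast at hp
    linarith only [hc, hp]
  · simp only [J_val, K_val, EJ.h_val, EJ.x, EJ.a, EJ.T, EJ.w, EJ.b, EJ.r, EJ.t, E.val, NumIs.lkR] at hp
    push_cast at hp
    linarith only [ua15, hp]

theorem kk3 {x a T w b r t : ℝ} (ua1 : 3800 / 10000 ≤ x) (ua2 : x ≤ 6000 / 10000) (ua3 : -(6 / 10000) ≤ a) (ua4 : a ≤ 0 / 10000) (ua5 : -(7 / 10000) ≤ T) (ua6 : T ≤ 0 / 10000) (ua7 : 2000 / 10000 ≤ w) (ua8 : w ≤ 3900 / 10000) (ua9 : -(1145 / 10000) ≤ b) (ua10 : b ≤ 0 / 10000) (ua11 : 0 / 10000 ≤ r) (ua12 : r ≤ 500 / 10000) (ua13 : -(1057 / 10000) ≤ t) (ua14 : t ≤ -(150 / 10000)) (ua15 : -(1145 / 1500) * w ≤ b) :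
    8 / 1000 < rK (uu (r + w) (20 * (t * r) + b)) (uu (1 / 20) (20 * (t * r))) (4200 / 10000) x a T w b r t := by
  have h : chkT [sub (K (E.uu (add EJ.r EJ.w) (add h EJ.b)) (E.uu (q 1 20) h) (q 4200 10000)) (q 8 1000), sub (mul (q (-1145) 1500) EJ.w) EJ.b] 60
    10278387467697587821643829
    [NumIs.V.of 10000 3800 6000, NumIs.V.of 10000 (-6) 0, NumIs.V.of 10000 (-7) 0, NumIs.V.of 10000 2000 3900, NumIs.V.of 10000 (-1145) 0, NumIs.V.of 10000 0 500, NumIs.V.of 10000 (-1057) (-150)] = true := by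
    decide +kernel
  obtain ⟨f, hf, hp⟩ := chkT_sound h (xs := [x, a, T, w, b, r, t])
    (List.Forall₂.cons (NumIs.V.of_mem (by norm_num) (by norm_num; linarith only [ua1]) (by norm_num; linarith only [ua2])) (List.Forall₂.cons (NumIs.V.of_mem (by norm_num) (by norm_num; linarith only [ua3]) (by norm_num; linarith only [ua4])) (List.Forall₂.cons (NumIs.V.of_mem (by norm_num) (by norm_num; linarith only [ua5]) (by norm_num; linarith only [ua6])) (List.Forall₂.cons (NumIs.V.of_mem (by norm_num) (by norm_num; linarith only [ua7]) (by norm_num; linarith only [ua8])) (List.Forall₂.cons (NumIs.V.of_mem (by norm_num) (by norm_num; linarith only [ua9]) (by norm_num; linarith only [ua10])) (List.Forall₂.cons (NumIs.V.of_mem (by norm_num) (by norm_num; linarith only [ua11]) (by norm_num; linarith only [ua12])) (List.Forall₂.cons (NumIs.V.of_mem (by norm_num) (by norm_num; linarith only [ua13]) (by norm_num; linarith only [ua14])) List.Forall₂.nil)))))))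
  by_contra hc
  push Not at hc
  simp only [List.mem_cons, List.not_mem_nil, or_false] at hf
  rcases hf with rfl | rfl
  · simp only [J_val, K_val, EJ.h_val, EJ.x, EJ.a, EJ.T, EJ.w, EJ.b, EJ.r, EJ.t, E.val, NumIs.lkR] at hp
    push_cast at hp
    linarith only [hc, hp]
  · simp only [J_val, K_val, EJ.h_val, EJ.x, EJ.a, EJ.T, EJ.w, EJ.b, EJ.r, EJ.t, E.val, NumIs.lkR] at hp
    push_cast at hp
    linarith only [ua7, ua9, hp]

end S0R

end Pool.Agent.Work.MP_b30479_gtS.G2
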