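import Pool.Agent.Work.MP_b30479_gt.TBS.G2.VZ3X
import Pool.Agent.Work.MP_b30479_gt.TBS.G2.S0RKV
import Pool.Agent.Work.MP_b30479_gt.TBS.G2.S0RHA
import Pool.Agent.Work.MP_b30479_gt.TBS.G2.V2R33_5
import Pool.Agent.Work.MP_b30479_gt.TBS.G2.S0RG_1
import Pool.Agent.Work.MP_b30479_gt.TBS.G2.MR2

section

/-!
# `ring | 3` at slot `0`, the exceptional case: real level

`-7/10000 ≤ T ≤ 0`, the right neighbour is a digit `1`, no floors: the side of the `3` is
`< -9/1000` on `[.50, .60]` if `v.re ≥ x - .13`, and the joint move of the hinge to `28/100` and of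
the inner variable to `42/100` gains `28/10000` on `[.38, .60]` if `v.re ≤ x - .13`.
-/

namespace Pool.Agent.Work.MP_b30479_gtS.G2

open VOL NumUs

namespace S0R

/-- windows of the exceptional case -/
structure KEx (t : ℝ) (w : ℂ) : Prop where
  t0 : -(1057 / 10000) ≤ t
  t1 : t ≤ -(15 / 1000)
  w0 : 0 ≤ w.re
  w1 : w.re ≤ 39 / 100
  i0 : -(1145 / 10000) ≤ w.im
  i1 : w.im ≤ -(48 / 1000) * w.re
  i2 : -(1145 / 1500) * w.re ≤ w.im

theorem KEx.i {t : ℝ} {w : ℂ} (h : KEx t w) : w.im ≤ 0 := by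
  have := h.i1
  have := h.w0
  linarith

/-- the joint move -/
theorem x_low {T t : ℝ} {u v w : ℂ} (hx : 38 / 100 ≤ u.re) (hx' : u.re ≤ 60 / 100)
    (hu : u.im = 10 / 3 * T * (6 / 10 - u.re)) (hT : -(7 / 10000) ≤ T) (hT' : T ≤ 0)
    (hK : KEx t w) (hrh : RH v t (8 / 10) (5 / 100) (5 / 100)) (hl : v.re ≤ u.re - 13 / 100)
    {u' v' : ℂ} (hu1 : u'.re = 28 / 100) (hu2 : u'.im = T) (hv1 : v'.re = 42 / 100)
    (hv2 : v'.im = t) : 28 / 10000 < V3 u' v' w - V3 u v w := by
  obtain ⟨t0, t1, w0, w1, i0, i1, i2⟩ := hK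
  have hw := (KEx.mk t0 t1 w0 w1 i0 i1 i2).i
  have hr0 := hrh.re0
  have ha : -(6 / 10000) ≤ u.im := by
    rw [hu]
    nlinarith only [hT, hx, hT']
  have ha' : u.im ≤ 0 := by
    rw [hu]
    nlinarith only [hx', hT']
  have hv1' : v'.re = 4200 / 10000 := by rw [hv1]; norm_num
  rcases le_total (5 / 100) v.re with h | h
  · have hv := V2A.mid_flat hrh h (by linarith only [hx', hl])
    rw [J_core (w := w) hu1 hu2 rfl hv hv1' hv2 (by linarith only [t1, ha])]
    rcases le_total w.re (13 / 100) with g | g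
    · exact kj1 (le_trans (by norm_num) hx) (le_trans hx' (by norm_num)) ha (le_trans ha' (by norm_num)) hT (le_trans hT' (by norm_num)) (le_trans (by norm_num) w0) (le_trans g (by norm_num)) i0 (le_trans hw (by norm_num)) (le_trans (by norm_num) h) (by linarith only [hx', hl]) t0 (le_trans t1 (by norm_num)) (by linarith only [hl]) i2
    rcases le_total w.re (26 / 100) with g' | g'
    · exact kj2 (le_trans (by norm_num) hx) (le_trans hx' (by norm_num)) ha (le_trans ha' (by norm_num)) hT (le_trans hT' (by norm_num)) (le_trans (by norm_num) g) (le_trans g' (by norm_num)) i0 (le_trans hw (by norm_num)) (le_trans (by norm_num) h) (by linarith only [hx', hl]) t0 (le_trans t1 (by norm_num)) (by linarith only [hl]) i2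
    · exact kj3 (le_trans (by norm_num) hx) (le_trans hx' (by norm_num)) ha (le_trans ha' (by norm_num)) hT (le_trans hT' (by norm_num)) (le_trans (by norm_num) g') (le_trans w1 (by norm_num)) i0 (le_trans hw (by norm_num)) (le_trans (by norm_num) h) (by linarith only [hx', hl]) t0 (le_trans t1 (by norm_num)) (by linarith only [hl]) i2
  · have hv := V2A.mid_left hrh h
    have htr : t * v.re ≤ 0 := mul_nonpos_of_nonpos_of_nonneg (le_trans t1 (by norm_num)) hr0
    have htr' : -(1057 / 10000) * (1 / 20) ≤ t * v.re := by nlinarith only [h, t0, hr0]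
    have hK := fun {P V : ℝ} => K_core (P := P) (V := V) (u := u) (w := w) hu1 hu2 rfl hv hv1' hv2
      (by linarith only [ha, htr])
    have hab : |20 * (t * v.re)| ≤ 13 / 100 := by
      rw [abs_le]
      constructor <;> linarith only [htr', htr]
    have hV := UA.anti UA.kc_7_13 (by norm_num) (a := v.re) (b := 1 / 20) (y := 20 * (t * v.re))
      (le_trans (by norm_num) hr0) (le_trans h (by norm_num)) (by norm_num) hab
    rcases le_total w.re (2 / 100) with g | g
    · rcases le_total v.re (2 / 100) with g' | g'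
      · have htr2 : -(1057 / 10000) * (2 / 100) ≤ t * v.re := by nlinarith only [g', t0, hr0]
        have hV2 := UA.anti UA.kc_7_13 (by norm_num) (a := v.re) (b := 1 / 50)
          (y := 20 * (t * v.re)) (le_trans (by norm_num) hr0) (le_trans g' (by norm_num)) (by norm_num) hab
        have hP : uu (v.re + w.re) (20 * (t * v.re) + w.im) ≤
            -Real.pi * (1 / 2) * -(20 * (t * v.re) + w.im) := by
          have := UA.anti UA.kc_7_13 (by norm_num) (a := 0) (b := v.re + w.re)
            (y := 20 * (t * v.re) + w.im) (by norm_num) (by linarith only [w0, hr0]) (by linarith only [g, g']) (by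
              rw [abs_le]
              constructor <;> linarith only [i2, htr', g, w0, i1, htr])
          rw [UA.uu_zero, abs_of_nonpos (by linarith only [w0, i1, htr])] at this
          linarith only [this]
        have h1 := hK hP hV2
        have h2 := kk0 (x := u.re) (a := u.im) (T := T) (w := w.re) (b := w.im) (r := v.re)
          (t := t) (le_trans (by norm_num) hx) (le_trans hx' (by norm_num)) ha (le_trans ha' (by norm_num)) hT (le_trans hT' (by norm_num)) (le_trans (by norm_num) w0) (le_trans g (by norm_num)) (by linarith only [i2, g]) (le_trans hw (by norm_num)) (le_trans (by norm_num) hr0) (le_trans g' (by norm_num)) t0 (le_trans t1 (by norm_num)) i2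
        linarith only [h1, h2]
      · have h1 := hK le_rfl hV
        have h2 := kk1 (x := u.re) (a := u.im) (T := T) (w := w.re) (b := w.im) (r := v.re)
          (t := t) (le_trans (by norm_num) hx) (le_trans hx' (by norm_num)) ha (le_trans ha' (by norm_num)) hT (le_trans hT' (by norm_num)) (le_trans (by norm_num) w0) (le_trans g (by norm_num)) i0 (le_trans hw (by norm_num)) (le_trans (by norm_num) g') (le_trans h (by norm_num)) t0 (le_trans t1 (by norm_num)) i2
        linarith only [h1, h2]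
    · have h1 := hK le_rfl hV
      rcases le_total w.re (20 / 100) with g' | g'
      · have h2 := kk2 (x := u.re) (a := u.im) (T := T) (w := w.re) (b := w.im) (r := v.re)
          (t := t) (le_trans (by norm_num) hx) (le_trans hx' (by norm_num)) ha (le_trans ha' (by norm_num)) hT (le_trans hT' (by norm_num)) (le_trans (by norm_num) g) (le_trans g' (by norm_num)) i0 (le_trans hw (by norm_num)) (le_trans (by norm_num) hr0) (le_trans h (by norm_num)) t0 (le_trans t1 (by norm_num)) i2
        linarith only [h1, h2]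
      · have h2 := kk3 (x := u.re) (a := u.im) (T := T) (w := w.re) (b := w.im) (r := v.re)
          (t := t) (le_trans (by norm_num) hx) (le_trans hx' (by norm_num)) ha (le_trans ha' (by norm_num)) hT (le_trans hT' (by norm_num)) (le_trans (by norm_num) g') (le_trans w1 (by norm_num)) i0 (le_trans hw (by norm_num)) (le_trans (by norm_num) hr0) (le_trans h (by norm_num)) t0 (le_trans t1 (by norm_num)) i2
        linarith only [h1, h2]

/-- the inner variable is not on its right ramp -/
theorem x_ramp {s t : ℝ} {u v w : ℂ} (hx : 1 / 2 ≤ u.re) (hx' : u.re ≤ 60 / 100)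
    (ha : -(10 / 10000) ≤ u.im) (ha' : u.im ≤ 0) (hK : KEx t w) (hv : v.re = 8 / 10 - s)
    (hv' : v.im = 20 * (t * s)) (hs : 0 ≤ s) (hs' : s ≤ 5 / 100)
    (hS : 0 ≤ SM (-20 * t) u v w) (hr : SinNe (v + w)) : False := by
  have hpi := Real.pi_pos
  have hw := hK.i
  obtain ⟨t0, t1, w0, w1, i0, i1, i2⟩ := hK
  have hre : (v + w).re = 8 / 10 - s + w.re := by rw [Complex.add_re, hv]
  have him : (v + w).im = 20 * (t * s) + w.im := by rw [Complex.add_im, hv']
  have core : ∀ {q Y : ℝ}, LL (v + w) ≤ NumIs.lnA q (20 * (t * s) + w.im) →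
      -20 * t * YY (v + w) ≤ -20 * t * Y → rG q Y u.re u.im w.re w.im s t < 0 → False := by
    intro q Y h1 h2 h3
    refine absurd hS (not_le.2 (ramp_core hv hv' (by linarith only [hx', hv, hs']) (by linarith only [hx, hv, hs]) (by linarith only [hv, hs'])
      (by linarith only [hv, hs]) ?_ h2 h3))
    rw [hv']
    exact h1
  have hts : t * s ≤ 0 := mul_nonpos_of_nonpos_of_nonneg (le_trans t1 (by norm_num)) hs
  rcases le_total (8 / 10 - s + w.re) (93 / 100) with h | h
  · have hst : v + w ∈ strip := ⟨by rw [hre]; linarith only [hs', w0], by rw [hre]; linarith only [h]⟩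
    have e1 : LL (v + w) ≤ NumIs.lnA (8 / 10 - s + w.re) (20 * (t * s) + w.im) := by
      rw [Num.LL_lnA hst, hre, him]
    have e2 : YY (v + w) = -NumIs.lnB (8 / 10 - s + w.re) (20 * (t * s) + w.im) := by
      rw [Num.YY_lnB hst, hre, him]
    exact core e1 (by rw [e2]) (kr1 (le_trans (by norm_num) hx) (le_trans hx' (by norm_num)) ha (le_trans ha' (by norm_num)) (le_trans (by norm_num) w0) (by linarith only [hs', h]) i0 (le_trans hw (by norm_num)) (le_trans (by norm_num) hs) (le_trans hs' (by norm_num)) t0 (le_trans t1 (by norm_num)) (le_trans h (by norm_num)))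
  have hy : 20 * (t * s) + w.im < 0 := by nlinarith only [hs, i1, hts, h]
  rcases le_total (8 / 10 - s + w.re) (107 / 100) with h' | h'
  · have hf : LL (v + w) ≤ NumIs.lnA (9300 / 10000) (20 * (t * s) + w.im) := by
      rw [← him]
      exact LL_far (by norm_num) (by norm_num) (by rw [hre]; linarith only [h]) (by rw [hre]; linarith only [h']) hr
    refine core hf (mul_le_of_nonpos (le_trans t1 (by norm_num)) ?_) (kr2 (le_trans (by norm_num) hx) (le_trans hx' (by norm_num)) ha (le_trans ha' (by norm_num)) (by linarith only [hs, h]) (by linarith only [hs', h']) i0 (le_trans hw (by norm_num)) (le_trans (by norm_num) hs) (le_trans hs' (by norm_num)) t0 (le_trans t1 (by norm_num)) (le_trans (by norm_num) h) (le_trans h' (by norm_num)))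
    rw [← him]
    exact YY_le_neg (by rw [him]; exact hy) (by norm_num) (by norm_num) (by rw [hre]; linarith only [h])
  · obtain ⟨e1, e2⟩ := behind (z := v + w) (by rw [hre]; linarith only [h']) (by rw [hre]; linarith only [hs, w1])
    have e3 := e2 (by rw [him]; exact hy)
    rw [hre, him] at e1 e3
    exact core e1.le (by rw [e3]) (kr3 (le_trans (by norm_num) hx) (le_trans hx' (by norm_num)) ha (le_trans ha' (by norm_num)) (by linarith only [hs, h']) (le_trans w1 (by norm_num)) i0 (le_trans hw (by norm_num)) (le_trans (by norm_num) hs) (le_trans hs' (by norm_num)) t0 (le_trans t1 (by norm_num)) (le_trans (by norm_num) h'))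

/-- the side of the `3` -/
theorem x_side {T t : ℝ} {u v w : ℂ} (hx : 1 / 2 ≤ u.re) (hx' : u.re ≤ 60 / 100)
    (hu : u.im = 10 / 3 * T * (6 / 10 - u.re)) (hT : -(7 / 10000) ≤ T) (hT' : T ≤ 0)
    (hs : T - t ≤ 105 / 1000) (hK : KEx t w) (hv : v.im = t) (hp : u.re - 13 / 100 ≤ v.re)
    (hv' : v.re ≤ 75 / 100) (hS : 0 ≤ SM 0 u v w) (hr : SinNe (v + w)) (hr' : SinNe (v - u)) :
    S3 1 (-(10 / 3 * T)) u v < -(9 / 1000) := by
  have hw := hK.i
  obtain ⟨t0, t1, w0, w1, i0, i1, i2⟩ := hK
  rcases le_total (v.re - u.re) (1 / 10) with h | h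
  · refine near_le (κ := Real.pi + NumIs.lnB (1300 / 10000) (t - rui (10 / 3) u.re T))
      (by norm_num) hT' hu (abs_le.2 ⟨by linarith only [hp], by linarith only [h]⟩) (by norm_num)
      (lt_of_lt_of_le (by norm_num) hx) (lt_of_le_of_lt hx' (by norm_num)) hv hr' ?_ (by linarith only [hp]) (nx9 (le_trans (by norm_num) hx) (le_trans hx' (by norm_num)) hT (le_trans hT' (by norm_num)) t0 (le_trans t1 (by norm_num)))
    have := YY_le_lnB (u := v - u) (q := 1300 / 10000) (abs_le.2 ⟨by rw [Complex.sub_re]; linarith only [hp],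
      by rw [Complex.sub_re]; linarith only [h]⟩) (by norm_num) (by norm_num)
    rwa [Complex.sub_im, hv, hu] at this
  · have hrow : rS (10 / 3) u.re T (v.re - u.re) t < -(9 / 1000) ∨
        rF0 (10 / 3) u.re T (v.re - u.re) t < -(9 / 1000) := by
      rcases le_total (v.re - u.re) (18 / 100) with g | g
      · exact fx9a (le_trans (by norm_num) hx) (le_trans hx' (by norm_num)) hT (le_trans hT' (by norm_num)) (le_trans (by norm_num) h) (le_trans g (by norm_num)) t0 (le_trans t1 (by norm_num)) (by linarith only [hv']) hs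
      · exact fx9b (le_trans (by norm_num) hx) (le_trans hx' (by norm_num)) hT (le_trans hT' (by norm_num)) (le_trans (by norm_num) g) (by linarith only [hx, hv']) t0 (le_trans t1 (by norm_num)) (by linarith only [hv']) hs
    have e : u.re + (v.re - u.re) = v.re := by ring
    rcases hrow with g | g
    · rw [S3_eq (lt_of_lt_of_le (by norm_num) h) (by linarith only [hx, hv']) (lt_of_lt_of_le (by norm_num) hx) (lt_of_le_of_lt hx' (by norm_num))]
      unfold rS rM rui at g
      rw [hu, hv]
      rw [e] at g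
      linarith only [g]
    · have hH : Real.pi * w.im + LL (v + w) ≤ Real.pi * 0 + NumIs.lnA v.re (v.im + 0) :=
        H_le (by linarith only [hx, h]) (le_trans hv' (by norm_num)) (by linarith only [w0]) (by linarith only [hv', w1]) hw (by rw [hv]; linarith only [hT, hs, i0]) hr
      have h4 := S3_far (m := -(10 / 3 * T)) (lt_of_lt_of_le (by norm_num) h) (by linarith only [hx, hv']) (lt_of_lt_of_le (by norm_num) hx)
        (lt_of_le_of_lt hx' (by norm_num)) hS hH
      unfold rF0 rM rui at g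
      rw [add_zero] at h4
      rw [hu, hv] at h4
      rw [e] at g
      linarith only [g, h4]

end S0R

end Pool.Agent.Work.MP_b30479_gtS.G2

end

section

/-!
# `ring | 3` at slot `0`, the exceptional case: word level

`A : Adj h i 0 j`, `i` a `3`, `j` a ring, height of the hinge in `[-7/10000, 0]`, the neighbour in the
slot `2` a digit `1` with hinge at most `39/100`. Inputs from the ring: the value of the move to
`28/100` (`hdV`) and the side (`hside`).
-/

namespace Pool.Agent.Work.MP_b30479_gtS.G2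

open Finset VOL Filter Topology S0R

namespace SR

variable {M : ℕ} {b : Fin (M + 1) → ℤ} {zs : DD (tyW b) ⊕ ZZ (tyW b) → ℂ}
variable {y : DD (tyW b) ⊕ ZZ (tyW b) → ℝ}
variable {h h' : Fin M} {i j k : Fin (M + 1)}

/-- the windows of the exceptional case -/
theorem exc_KEx (hb : ClassW b) (hL : Loc b zs) (hX : LocX b zs) (hy : Mx b zs y)
    (A : Adj h i 0 j) (A' : Adj h' i 2 k) (hi : clsW b i = .three) (hj : clsW b j = .ring)
    (hk : clsW b k = .one) (hc : y (.inl (.inl h')) ≤ 39 / 100)
    (hT : -(7 / 10000) ≤ ofs (b i) (zs (.inl (.inl h))).im) :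
    S0R.KEx (tW zs (Or.inl hi)) (Yw b zs y i 2) ∧
      ofs (b i) (zs (.inl (.inl h))).im - tW zs (Or.inl hi) ≤ 105 / 1000 := by
  obtain ⟨w1, w2, w3, w4⟩ := mid_window hX A A' hi
  have hre := A'.re (b := b) (zs := zs) (y := y)
  rw [hj, hk] at w1 w2 w3 w4
  simp only [mw] at w1 w2 w3 w4
  have hop := A'.opp hb (Or.inl (by rw [hi]; decide))
  obtain ⟨-, -, h3, h4⟩ := A'.box hb hL
  rw [hi, hk, A'.ss hop] at h3 h4
  simp only [hbox] at h3 h4
  obtain ⟨e1, e2, e3⟩ := (A'.s0r_par2 hi).1 hk
  have hrh := A'.rh hy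
  rw [e1, e2, e3] at hrh
  have hr0 := hrh.re0
  refine ⟨⟨by linarith only [hi, hT, w3], w2, hr0, by rw [hre]; exact hc,
    (MR.RH_im_mem hrh (by norm_num) (by norm_num : (0 : ℝ) ≤ 0) h3 (by linarith only [h4])).1, ?_, ?_⟩,
    by linarith only [hi, w3]⟩
  · rcases le_total (Yw b zs y i 2).re (15 / 100) with h1 | h1
    · rw [MR.RH_left hrh (by norm_num) (by norm_num) (by norm_num) h1]
      have : 0 ≤ (Yw b zs y i 2).re / (15 / 100) := by positivity
      have e : (Yw b zs y i 2).re = (15 / 100) * ((Yw b zs y i 2).re / (15 / 100)) := by ring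
      nlinarith only [hr0, h4]
    · rcases le_total (Yw b zs y i 2).re (65 / 100 - 29 / 100) with h2 | h2
      · rw [MR.RH_flat hrh (by norm_num) (by norm_num) h1 h2]
        linarith only [h4, h2]
      · rw [MR.RH_right hrh (by norm_num) (by norm_num) (by norm_num) h2]
        have : 26 / 29 ≤ (65 / 100 - (Yw b zs y i 2).re) / (29 / 100) := by
          rw [le_div_iff₀ (by norm_num), hre]
          linarith only [hc]
        nlinarith only [hc, hre, h4, h3]
  · have := (hrh.im_low (a := 1145 / 1500) (b := 0) (by norm_num) (by norm_num) le_rfl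
      (by linarith only [h3]) (by linarith only [h4])).1
    linarith only [this]

/-- **Low branch in the exceptional case**: `hdV` is the value of the move of the ring -/
theorem exc_s0_low (hb : ClassW b) (hL : Loc b zs) (hX : LocX b zs) (hy : Mx b zs y)
    (A : Adj h i 0 j) (A' : Adj h' i 2 k) (hi : clsW b i = .three) (hj : clsW b j = .ring)
    (hk : clsW b k = .one) (hc : y (.inl (.inl h')) ≤ 39 / 100)
    (hT : -(7 / 10000) ≤ ofs (b i) (zs (.inl (.inl h))).im)
    (hT' : ofs (b i) (zs (.inl (.inl h))).im ≤ 0)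
    (hdV : -(28 / 10000) ≤ dV b j 2 (OY b zs y j) (pw b zs (b j) h (28 / 100)))
    (hx : 38 / 100 ≤ y (.inl (.inl h))) :
    y (.inl (.inl h)) - 13 / 100 < (OY b zs y i 1).re := by
  by_contra hcon
  push Not at hcon
  obtain ⟨q1, q2, q3⟩ := A.s0r_parZ hi hj
  have hre := A.re (b := b) (zs := zs) (y := y)
  obtain ⟨hK, -⟩ := exc_KEx hb hL hX hy A A' hi hj hk hc hT
  have hv := rh_three hy hi
  obtain ⟨hu, -⟩ := A.s0r_ramp hy q1 q2 q3 (by linarith only [hx] : 30 / 100 < y (.inl (.inl h)))
  have hx6 : y (.inl (.inl h)) ≤ 60 / 100 := by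
    have := (A.rh hy).reM
    rw [hre, q1] at this
    exact this
  obtain ⟨c1, c2⟩ := pw_flat' (zs := zs) (b i) h (c := 28 / 100) (by linarith only [q3])
    (by rw [q1, q2]; norm_num)
  have h1 := x_low (w := Yw b zs y i 2) (by rw [hre]; exact hx) (by rw [hre]; exact hx6) hu hT hT'
    hK hv (by rw [hre]; exact hcon) c1 c2 (vW_re (Or.inl hi) (42 / 100))
    (vW_three hi (by norm_num) (by norm_num))
  have h2 := val_hm hb hy A (c := 28 / 100) (by norm_num) (by rw [q1]; norm_num)
    (mopt_three hi (c := 42 / 100) (by norm_num) (by norm_num) _) (MOpt.same _ _)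
  rw [OV_move hb hi, OV_three hb hi, OY_zero, OY_two] at h2
  unfold dV at hdV
  have h3 : OV b j (Function.update (OY b zs y j) 2 (pw b zs (b j) h (28 / 100))) =
      OV b j (Function.update (OY b zs y j) (Fin.rev 0) (pw b zs (b j) h (28 / 100))) := rfl
  rw [h3] at hdV
  linarith only [hi, hdV, h1, h2]

/-- **The side of the `3` in the exceptional case**, `x` in `(.50, .60]` -/
theorem exc_s0_side (hb : ClassW b) (hL : Loc b zs) (hX : LocX b zs) (hy : Mx b zs y)
    (hpos : ∀ h : Fin M, 0 < y (.inl (.inl h)))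
    (A : Adj h i 0 j) (A' : Adj h' i 2 k) (hi : clsW b i = .three) (hj : clsW b j = .ring)
    (hk : clsW b k = .one) (hc : y (.inl (.inl h')) ≤ 39 / 100)
    (hT : -(7 / 10000) ≤ ofs (b i) (zs (.inl (.inl h))).im)
    (hT' : ofs (b i) (zs (.inl (.inl h))).im ≤ 0)
    (hdV : -(28 / 10000) ≤ dV b j 2 (OY b zs y j) (pw b zs (b j) h (28 / 100)))
    (hx : 1 / 2 ≤ y (.inl (.inl h))) :
    Sw b zs y i 0 (slL b zs y h) < -(9 / 1000) := by
  have hlow := exc_s0_low hb hL hX hy A A' hi hj hk hc hT hT' hdV (by linarith only [hx])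
  obtain ⟨q1, q2, q3⟩ := A.s0r_parZ hi hj
  have hre := A.re (b := b) (zs := zs) (y := y)
  obtain ⟨hK, hs⟩ := exc_KEx hb hL hX hy A A' hi hj hk hc hT
  have hv := rh_three hy hi
  obtain ⟨hu, hsl⟩ := A.s0r_ramp hy q1 q2 q3 (by linarith only [hx] : 30 / 100 < y (.inl (.inl h)))
  have hx6 : y (.inl (.inl h)) ≤ 60 / 100 := by
    have := (A.rh hy).reM
    rw [hre, q1] at this
    exact this
  obtain ⟨m1, m2, r1, r2⟩ := s0r_mid hb hy hpos hi (by linarith only [hx, hlow])
  have hnr : ¬ 75 / 100 < (OY b zs y i 1).re := by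
    intro h1
    refine x_ramp (s := 8 / 10 - (OY b zs y i 1).re) (by rw [hre]; exact hx)
      (by rw [hre]; exact hx6) ?_ ?_ hK (by ring) ?_ (by linarith only [hi, hv, hv.reM]) (by linarith only [h1]) (m2 h1)
      r1
    · rw [hu, hre]
      nlinarith only [hx, hT, hx6]
    · rw [hu, hre]
      nlinarith only [hT', hx6]
    · rw [V2A.mid_right hv h1.le]
      ring
  push Not at hnr
  have hfl := V2A.mid_flat hv (by linarith only [hx, hlow]) hnr
  have hS := m1 (by linarith only [hx, hlow]) hnr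
  rw [A.side_three_zero hb hi, ← OY_mid (Or.inl hi), hsl]
  exact x_side (by rw [hre]; exact hx) (by rw [hre]; exact hx6) hu hT hT' hs hK hfl
    (by rw [hre]; exact hlow.le) hnr hS r1 r2

/-- **The exceptional case**: `y h ≤ 1/2`; `hside` is the side of the ring -/
theorem exc_s0_cap (hb : ClassW b) (hL : Loc b zs) (hX : LocX b zs) (hy : Mx b zs y)
    (hpos : ∀ h : Fin M, 0 < y (.inl (.inl h)))
    (A : Adj h i 0 j) (A' : Adj h' i 2 k) (hi : clsW b i = .three) (hj : clsW b j = .ring)
    (hk : clsW b k = .one) (hc : y (.inl (.inl h')) ≤ 39 / 100)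
    (hT : -(7 / 10000) ≤ ofs (b i) (zs (.inl (.inl h))).im)
    (hT' : ofs (b i) (zs (.inl (.inl h))).im ≤ 0)
    (hdV : 28 / 100 ≤ y (.inl (.inl h)) →
      -(28 / 10000) ≤ dV b j 2 (OY b zs y j) (pw b zs (b j) h (28 / 100)))
    (hside : 1 / 2 < y (.inl (.inl h)) → Sw b zs y j 2 (slL b zs y h) ≤ 9 / 1000) :
    y (.inl (.inl h)) ≤ 1 / 2 := by
  by_contra hcon
  push Not at hcon
  have s1 := exc_s0_side hb hL hX hy hpos A A' hi hj hk hc hT hT' (hdV (by linarith only [hcon])) hcon.le
  have s2 := hside hcon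
  refine rstep_false hb hy (hpos h) (RStep.of_adj A (c := 0) (fun _ => rfl)
    (e1 := Sw b zs y i 0 (slL b zs y h)) (e2 := Sw b zs y j 2 (slL b zs y h))
    (by linarith only [s1, s2]) (by linarith only []) (by
      show Sw b zs y j 2 (slL b zs y h) + 0 * ofs (b j) (slL b zs y h) ≤ _
      linarith only []))

end SR

end Pool.Agent.Work.MP_b30479_gtS.G2

end

section

/-!
# First-order conditions of the inner variables at a maximiser, hinges may vanish
-/

namespace Pool.Agent.Work.MP_b30479_gtS.G2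

open Finset VOL Filter Topology

section
variable {M : ℕ} {t : Fin (M + 1) → Typ} {b : Fin (M + 1) → ℤ}
variable {P : Par (DD t)} {zs : DD t ⊕ ZZ t → ℂ} {y : DD t ⊕ ZZ t → ℝ}

theorem pp_zero_hinge (P : Par (DD t)) (zs : DD t ⊕ ZZ t → ℂ) (h : DD t)
    (hg : P.Good) : P.pp zs (.inl h) 0 = 0 := by
  have h1 : P.hgt zs (.inl h) 0 = 0 := by
    show (zs (.inl h)).im * tr 0 (P.XM h) (P.cl h) (P.cr h) 0 = 0
    have h2 := (hg h).1
    have h3 := (hg h).2.1
    have h4 := (hg h).2.2
    have : tr 0 (P.XM h) (P.cl h) (P.cr h) 0 = 0 := by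
      rw [tr_a h2 h3 h4 le_rfl h2.le]
      simp
    rw [this, mul_zero]
  unfold Par.pp
  rw [h1]
  simp

/-- in a hinge slot the variable vanishes or the factors are regular -/
theorem IsMx.slots_or (h : IsMx (wdat t b) P zs y) (hS : Std t P) (i : Fin (M + 1)) :
    (xx t i (P.pth zs y) 0 = 0 ∨ rfac t i 0 (xx t i (P.pth zs y)) SinNe) ∧
    (xx t i (P.pth zs y) 2 = 0 ∨ rfac t i 2 (xx t i (P.pth zs y)) SinNe) := by
  have hge : ∀ k : Fin M, 0 ≤ y (.inl (.inl k)) := fun k => h.1.1 (.inl (.inl k))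
  constructor
  · rcases Fin.eq_zero_or_eq_succ i with h0 | ⟨k, rfl⟩
    · left
      subst h0
      exact xx_left_zero _ _
    · rcases (hge k).eq_or_lt with h1 | h1
      · left
        rw [loc_left, ← h1]
        exact pp_zero_hinge P zs _ hS.good
      · right
        exact h.rfac_right hS k h1
  · rcases Fin.eq_castSucc_or_eq_last i with ⟨k, rfl⟩ | h0
    · rcases (hge k).eq_or_lt with h1 | h1
      · left
        rw [loc_right, ← h1]
        exact pp_zero_hinge P zs _ hS.good
      · right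
        exact h.rfac_left hS k h1
    · left
      subst h0
      exact xx_right_last _ _

theorem IsMx.facCo_midZ (h : IsMx (wdat t b) P zs y) (hS : Std t P)
    (m : {i : Fin (M + 1) // (t i).isMid = true})
    (hm : 0 < y (.inl (.inr m))) : FacCo (t m.1) (decide (m.1 ≠ 0)) (decide (m.1 ≠ Fin.last M)) 1
      (xx t m.1 (P.pth zs y)) Reg1 := by
  obtain ⟨h0, h2, -, -⟩ := h.loc hS m.1
  obtain ⟨s0, s2⟩ := h.slots_or hS m.1
  refine G2.facCo_mid m.2 (hS.std _) ?_ h0 h2 s0 s2
  rw [loc_mid m.2]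
  constructor
  · rw [P.pp_re]; exact hm
  · rw [P.pp_re]; exact h.lt_one hS _

theorem IsMx.foc_mid_leftZ (h : IsMx (wdat t b) P zs y) (hS : Std t P)
    (m : {i : Fin (M + 1) // (t i).isMid = true}) (hm : 0 < y (.inl (.inr m))) :
    0 ≤ rside t b m.1 1 (P.sL zs (.inl (.inr m)) (y (.inl (.inr m)))) (xx t m.1 (P.pth zs y)) := by
  have h1 := co_mid t b (h.facCo_midZ hS m hm)
  rw [← rside_of_mid]
  exact (h.left_gen hS.good (j := .inl (.inr m)) hm (fun q hq => (h1 q hq).1)
    (fun q hq hs => absurd hs (h1 q hq).2)).2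

theorem IsMx.foc_mid_rightZ (h : IsMx (wdat t b) P zs y) (hS : Std t P)
    (m : {i : Fin (M + 1) // (t i).isMid = true})
    (hm : 0 < y (.inl (.inr m))) (hx : y (.inl (.inr m)) < P.XM (.inr m)) :
    rside t b m.1 1 (P.sR zs (.inl (.inr m)) (y (.inl (.inr m)))) (xx t m.1 (P.pth zs y)) ≤ 0 := by
  have h1 := co_mid t b (h.facCo_midZ hS m hm)
  rw [← rside_of_mid]
  exact (h.right_gen hS.good (j := .inl (.inr m)) hx (fun q hq => (h1 q hq).1)
    (fun q hq hs => absurd hs (h1 q hq).2)).2

end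

namespace SR

variable {M : ℕ} {b : Fin (M + 1) → ℤ} {zs : DD (tyW b) ⊕ ZZ (tyW b) → ℂ}
variable {y : DD (tyW b) ⊕ ZZ (tyW b) → ℝ}
variable {h h' : Fin M} {i j k : Fin (M + 1)}

/-- first-order conditions of the inner variable in the own frame -/
theorem mid_fcZ (hb : ClassW b) (hy : IsMx (wdat (tyW b) b) (wpar b zs) zs y)
    (m : {i : Fin (M + 1) // (tyW b i).isMid = true}) (hm : 0 < y (.inl (.inr m))) :
    FOC (Yw b zs y m.1 1) (ofs (b m.1) (zs (.inl (.inr m))).im) ((wpar b zs).XM (.inr m))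
      ((wpar b zs).cl (.inr m)) ((wpar b zs).cr (.inr m)) (OM b zs y m.1) := by
  have hS := std_wpar b zs
  have hg := wpar_good b zs
  have hre : (Yw b zs y m.1 1).re = y (.inl (.inr m)) := by
    rw [Yw_mid, ofr_pp_re]
  have hR := fun hx => hy.foc_mid_rightZ hS m hm hx
  have hL := hy.foc_mid_leftZ hS m hm
  have key : ∀ q : ℝ, rside (tyW b) b m.1 1 q (xx (tyW b) m.1 ((wpar b zs).pth zs y)) =
      OM b zs y m.1 (ofs (b m.1) q) := fun q =>
    side_mid_own (hb.ne _) m.2 (tyW_std b _) _ _ q _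
  rw [key] at hL
  simp only [key] at hR
  obtain ⟨hc, hc', hs⟩ := hg (.inr m)
  rw [← hre] at hR hL hm
  refine ⟨?_, ?_, ?_, ?_, ?_, ?_⟩
  · intro h1
    have := hR (by linarith only [hc', hs, h1])
    rwa [sR_left zs _ h1, ofs_div] at this
  · intro h1
    rwa [sL_left zs _ h1, ofs_div] at hL
  · intro h0 h1
    have := hR (by linarith only [hc', h1])
    rwa [sR_flat zs _ h0 h1, ofs_zero'] at this
  · intro h0 h1
    rwa [sL_flat zs _ h0 h1, ofs_zero'] at hL
  · intro h0 h1
    have := hR h1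
    rwa [sR_right hg zs _ h0, ofs_neg', ofs_div] at this
  · intro h0
    rwa [sL_right hg zs _ h0, ofs_neg', ofs_div] at hL

theorem reg_threeZ (hc : clsW b i = .three)
    (hy : IsMx (wdat (tyW b) b) (wpar b zs) zs y) (hm : 0 < y (.inl (.inr (mI b hc)))) :
    SinNe (Yw b zs y i 1 + Yw b zs y i 2) ∧ SinNe (Yw b zs y i 1 - Yw b zs y i 0) := by
  have h1 := hy.facCo_midZ (std_wpar b zs) (mI b hc) hm
  have ht := tyW_of_three hc
  simp only [mI] at h1
  rw [ht] at h1
  have h2 := h1 ⟨![0, 1, 1], 0, 1 / 2⟩ (by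
    generalize decide (i ≠ 0) = l
    generalize decide (i ≠ Fin.last M) = r
    cases l <;> cases r <;> simp [facs, hR]) (by simp)
  have h3 := h1 ⟨![1, -1, 0], 1, -(1 / 2)⟩ (by
    generalize decide (i ≠ 0) = l
    generalize decide (i ≠ Fin.last M) = r
    cases l <;> cases r <;> simp [facs, hR]) (by simp)
  have v2 : ∀ w u : ℂ, 1 + (w + -u) = 1 - (u - w) := fun w u => by ring
  simp [Fac.form_mk] at h2 h3
  rw [v2] at h3
  have h4 := h2.2
  have h5 := sinNe_one_sub.1 h3.2
  unfold Yw
  rw [← ofr_add, ← ofr_sub]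
  exact ⟨sinNe_ofr _ h4, sinNe_ofr _ h5⟩

theorem s0r_midZ (hb : ClassW b) (hy : Mx b zs y)
    (hi : clsW b i = .three) (hv0 : 0 < (OY b zs y i 1).re) :
    (5 / 100 < (OY b zs y i 1).re → (OY b zs y i 1).re ≤ 75 / 100 →
      0 ≤ SM 0 (Yw b zs y i 0) (OY b zs y i 1) (Yw b zs y i 2)) ∧
    (75 / 100 < (OY b zs y i 1).re →
      0 ≤ SM (-20 * tW zs (Or.inl hi)) (Yw b zs y i 0) (OY b zs y i 1) (Yw b zs y i 2)) ∧
    SinNe (OY b zs y i 1 + Yw b zs y i 2) ∧ SinNe (OY b zs y i 1 - Yw b zs y i 0) := by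
  have hm : 0 < y (.inl (.inr (mI b hi))) := by
    have e : (Yw b zs y i 1).re = y (.inl (.inr (mI b hi))) := by
      rw [show Yw b zs y i 1 = Yw b zs y (mI b hi).1 1 from rfl, Yw_mid, ofr_pp_re]
    rw [OY_mid (Or.inl hi), e] at hv0
    exact hv0
  have hf := mid_fcZ hb hy (mI b hi) hm
  obtain ⟨e1, e2, e3⟩ := pp_mI (b := b) (zs := zs) hi
  rw [e1, e2, e3] at hf
  obtain ⟨r1, r2⟩ := reg_threeZ hi hy hm
  rw [OY_mid (Or.inl hi)]
  refine ⟨fun h1 h2 => ?_, fun h1 => ?_, r1, r2⟩
  · have := hf.flat' (by exact h1) (by refine le_trans h2 ?_; norm_num)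
    rw [show OM b zs y (mI b hi).1 0 = OM b zs y i 0 from rfl, OM_three hi] at this
    exact this
  · have := hf.right' (by refine lt_of_le_of_lt ?_ h1; norm_num)
    rw [show OM b zs y (mI b hi).1 = OM b zs y i from rfl, OM_three hi] at this
    rw [show -20 * tW zs (Or.inl hi) = -(ofs (b (mI b hi).1) (zs (.inl (.inr (mI b hi)))).im /
      (5 / 100)) by
        rw [show tW zs (Or.inl hi) = ofs (b (mI b hi).1) (zs (.inl (.inr (mI b hi)))).im from rfl]
        ring]
    exact this

/-- **The side of the `3` in the exceptional case**, `x` in `(.50, .60]` -/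
theorem exc_s0_sideZ (hb : ClassW b) (hL : Loc b zs) (hX : LocX b zs) (hy : Mx b zs y)
    (A : Adj h i 0 j) (A' : Adj h' i 2 k) (hi : clsW b i = .three) (hj : clsW b j = .ring)
    (hk : clsW b k = .one) (hc : y (.inl (.inl h')) ≤ 39 / 100)
    (hT : -(7 / 10000) ≤ ofs (b i) (zs (.inl (.inl h))).im)
    (hT' : ofs (b i) (zs (.inl (.inl h))).im ≤ 0)
    (hdV : -(28 / 10000) ≤ dV b j 2 (OY b zs y j) (pw b zs (b j) h (28 / 100)))
    (hx : 1 / 2 ≤ y (.inl (.inl h))) :
    Sw b zs y i 0 (slL b zs y h) < -(9 / 1000) := by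
  have hlow := exc_s0_low hb hL hX hy A A' hi hj hk hc hT hT' hdV (by linarith only [hx])
  obtain ⟨q1, q2, q3⟩ := A.s0r_parZ hi hj
  have hre := A.re (b := b) (zs := zs) (y := y)
  obtain ⟨hK, hs⟩ := exc_KEx hb hL hX hy A A' hi hj hk hc hT
  have hv := rh_three hy hi
  obtain ⟨hu, hsl⟩ := A.s0r_ramp hy q1 q2 q3 (by linarith only [hx] : 30 / 100 < y (.inl (.inl h)))
  have hx6 : y (.inl (.inl h)) ≤ 60 / 100 := by
    have := (A.rh hy).reM
    rw [hre, q1] at this
    exact this
  obtain ⟨m1, m2, r1, r2⟩ := s0r_midZ hb hy hi (by linarith only [hx, hlow])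
  have hnr : ¬ 75 / 100 < (OY b zs y i 1).re := by
    intro h1
    refine S0R.x_ramp (s := 8 / 10 - (OY b zs y i 1).re) (by rw [hre]; exact hx)
      (by rw [hre]; exact hx6) ?_ ?_ hK (by ring) ?_ (by linarith only [hi, hv, hv.reM]) (by linarith only [h1]) (m2 h1)
      r1
    · rw [hu, hre]
      nlinarith only [hx, hT, hx6]
    · rw [hu, hre]
      nlinarith only [hT', hx6]
    · rw [V2A.mid_right hv h1.le]
      ring
  push Not at hnr
  have hfl := V2A.mid_flat hv (by linarith only [hx, hlow]) hnr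
  have hS := m1 (by linarith only [hx, hlow]) hnr
  rw [A.side_three_zero hb hi, ← OY_mid (Or.inl hi), hsl]
  exact S0R.x_side (by rw [hre]; exact hx) (by rw [hre]; exact hx6) hu hT hT' hs hK hfl
    (by rw [hre]; exact hlow.le) hnr hS r1 r2

end SR

end Pool.Agent.Work.MP_b30479_gtS.G2

end
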