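import Pool.Agent.Work.MP_b30479_gt.TBS.G2.RngO
import Pool.Agent.Work.MP_b30479_gt.TBS.G2.S0RKB
import Pool.Agent.Work.MP_b30479_gt.TBS.G2.R32
import Pool.Agent.Work.MP_b30479_gt.TBS.G2.WLocX

section

/-!
# The exceptional hinges between a digit `3` and a ring, slot `0` of the digit: cap `1/2`
-/

namespace Pool.Agent.Work.MP_b30479_gtS.G2

open Finset VOL Filter Topology

namespace SR

variable {M : ℕ} {b : Fin (M + 1) → ℤ} {zs : DD (tyW b) ⊕ ZZ (tyW b) → ℂ}
variable {y : DD (tyW b) ⊕ ZZ (tyW b) → ℝ}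
variable {h h' : Fin M} {i j j' : Fin (M + 1)} {p : Fin 3}

/-- slot `0` of the digit `3` -/
theorem Adj.exc_cap_zero (A : Adj h i 0 j) (hb : ClassW b) (hL : Loc b zs) (hX : LocX b zs)
    (hy : Mx b zs y) (hi : clsW b i = .three) (hj : clsW b j = .ring) (E : Exc3 b zs h i j 0)
    (hT : ofs (b i) (zs (.inl (.inl h))).im ≤ 0) : y (.inl (.inl h)) ≤ 1 / 2 := by
  by_contra hcon
  push Not at hcon
  obtain ⟨h', k, A'⟩ := A.other' b (clsW_inner hb (Or.inr (Or.inr hi)))
  have e2 : (0 : Fin 3).rev = 2 := rfl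
  rw [e2] at A'
  have hk : clsW b k = .one := E.one (by rw [e2]; exact A')
  have hop := A.opp hb (Or.inl (by rw [hi]; decide))
  have eo : ofs (b j) (zs (.inl (.inl h))).im = -ofs (b i) (zs (.inl (.inl h))).im := ofs_opp hop _
  have hc : y (.inl (.inl h')) ≤ 39 / 100 := by
    have h0 : 0 ≤ y (.inl (.inl h')) := hy.1.1 (.inl (.inl h'))
    rcases h0.eq_or_lt with h1 | h1
    · rw [← h1]
      norm_num
    · obtain ⟨g, l, B⟩ := A'.symm.other_one hb hk
      refine (cap_three_one A' B hb hL hX hy h1 hi hk).trans ?_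
      cases clsW b l <;> norm_num [cap31]
  have B : Adj h j 2 i := A.symm
  have hT1 := E.lo
  have s1 := exc_s0_sideZ hb hL hX hy A A' hi hj hk hc hT1 hT
    (B.exc_dV hb hL hy hj hi (by linarith only [hT, eo]) (by linarith only [eo, hT1]) (by linarith only [hcon])) hcon.le
  have s2 := B.exc_side hb hL hy hj hi (by linarith only [hT, eo]) (by linarith only [eo, hT1]) (by linarith only [hcon])
  exact rstep_false hb hy (by linarith only [hcon]) (RStep.of_adj A (c := 0) (fun _ => rfl)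
    (e1 := Sw b zs y i 0 (slL b zs y h)) (e2 := Sw b zs y j 2 (slL b zs y h))
    (by linarith only [s1, s2]) (by linarith only []) (by
      show Sw b zs y j 2 (slL b zs y h) + 0 * ofs (b j) (slL b zs y h) ≤ _
      linarith only []))

end SR

end Pool.Agent.Work.MP_b30479_gtS.G2

end

section

/-!
# Rings in a word: the kinds of the hinges
-/

namespace Pool.Agent.Work.MP_b30479_gtS.G2

open Finset VOL Filter Topology

namespace SR

variable {M : ℕ} {b : Fin (M + 1) → ℤ} {zs : DD (tyW b) ⊕ ZZ (tyW b) → ℂ}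
variable {y : DD (tyW b) ⊕ ZZ (tyW b) → ℝ}
variable {h h' : Fin M} {i j j' : Fin (M + 1)} {p : Fin 3}

/-- kind of a hinge of a ring -/
def rkd : Cl → RKe
  | .one => .one
  | .ring => .rr
  | _ => .lo

theorem rkd_rr {B : Cl} : rkd B = .rr ↔ B = .ring := by
  cases B <;> simp [rkd]

theorem rkd_one {B : Cl} : rkd B = .one ↔ B = .one := by
  cases B <;> simp [rkd]

theorem rkd_up {B : Cl} (h : B ≠ .ring) : (rkd B).up = false := by
  cases B <;> first | exact absurd rfl h | rfl

theorem rkd_ps {B : Cl} : rkd B ≠ .ps := by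
  cases B <;> simp [rkd]

/-- an exceptional hinge, seen from the ring at `i`; `j`: its neighbour -/
def Exh (b : Fin (M + 1) → ℤ) (zs : DD (tyW b) ⊕ ZZ (tyW b) → ℂ)
    (y : DD (tyW b) ⊕ ZZ (tyW b) → ℝ) (h : Fin M) (i j : Fin (M + 1)) : Prop :=
  clsW b j = .three ∧ 0 < ofs (b i) (zs (.inl (.inl h))).im ∧ 0 < y (.inl (.inl h))

open Classical in
/-- kind of the hinge `h` of the ring at `i`, `j`: its neighbour -/
noncomputable def rkw (b : Fin (M + 1) → ℤ) (zs : DD (tyW b) ⊕ ZZ (tyW b) → ℂ)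
    (y : DD (tyW b) ⊕ ZZ (tyW b) → ℝ) (h : Fin M) (i j : Fin (M + 1)) : RKe :=
  if Exh b zs y h i j then .ps else rkd (clsW b j)

theorem rkw_pos (hE : Exh b zs y h i j) : rkw b zs y h i j = .ps := by
  unfold rkw
  rw [if_pos hE]

theorem rkw_neg (hE : ¬Exh b zs y h i j) : rkw b zs y h i j = rkd (clsW b j) := by
  unfold rkw
  rw [if_neg hE]

theorem rkw_ps : rkw b zs y h i j = .ps ↔ Exh b zs y h i j := by
  by_cases hE : Exh b zs y h i j
  · exact ⟨fun _ => hE, fun _ => rkw_pos hE⟩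
  · rw [rkw_neg hE]
    exact ⟨fun h => absurd h rkd_ps, fun h => absurd h hE⟩

theorem rkw_ne (hj : clsW b j ≠ .three) : rkw b zs y h i j = rkd (clsW b j) :=
  rkw_neg fun hE => hj hE.1

theorem rkw_rr : rkw b zs y h i j = .rr ↔ clsW b j = .ring := by
  by_cases hE : Exh b zs y h i j
  · rw [rkw_pos hE, hE.1]
    simp
  · rw [rkw_neg hE, rkd_rr]

/-- the range of the height of a hinge between rings -/
theorem Adj.rrt (A : Adj h i p j) (hb : ClassW b) (hL : Loc b zs) (hX : LocX b zs) (hR : LocR b zs)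
    (hc : clsW b i = .ring) (hj : clsW b j = .ring) :
    RRT ((b i).natAbs : ℝ) (ofs (b i) (zs (.inl (.inl h))).im) := by
  have h4 := ring_four hb (tyW_of_ring hb hc)
  obtain ⟨r1, r2⟩ := hR.rr A hc hj
  obtain ⟨-, -, t0, -⟩ := A.box hb hL
  rw [hc, hj] at t0
  refine ⟨?_, r1, ?_, ?_⟩
  · refine le_trans ?_ t0
    cases ssW b h <;> norm_num [hbox]
  · intro h5
    have := natAbs_lt (c := 5) (k := 5) (by norm_num) h5
    exact hX.rr4 A hc hj (by omega)
  · intro h5
    exact r2 (by exact_mod_cast h5)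

/-- the exception -/
theorem Adj.exc (A : Adj h i p j) (hb : ClassW b) (hR : LocR b zs) (hc : clsW b i = .ring)
    (hE : Exh b zs y h i j) : Exc3 b zs h j i p.rev := by
  have hop := A.opp hb (Or.inr (by rw [hE.1]; decide))
  have hop' : b j * b i < 0 := by rwa [mul_comm] at hop
  have eo := ofs_opp hop' (zs (.inl (.inl h))).im
  rcases hR.three A.symm hE.1 hc with h1 | h1
  · exact absurd hE.2.1 (by linarith only [eo, h1])
  · exact h1

/-- **Cap of the exceptional hinges** -/
theorem Adj.exc_cap (A : Adj h i p j) (hb : ClassW b) (hL : Loc b zs) (hX : LocX b zs)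
    (hR : LocR b zs) (hy : Mx b zs y) (hc : clsW b i = .ring) (hE : Exh b zs y h i j) :
    y (.inl (.inl h)) ≤ 1 / 2 := by
  have E := A.exc hb hR hc hE
  have hop := A.opp hb (Or.inr (by rw [hE.1]; decide))
  have hop' : b j * b i < 0 := by rwa [mul_comm] at hop
  have eo := ofs_opp hop' (zs (.inl (.inl h))).im
  have hT := hE.2.1
  have A' := A.symm
  rcases A'.slot with h0 | h2
  · rw [h0] at A' E
    exact A'.exc_cap_zero hb hL hX hy hE.1 hc E (by linarith only [eo, hT])
  · rw [h2] at A' E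
    have := A'.exc_cap_two hb hL hX hy hE.1 hc (by linarith only [eo, hT]) E.lo
    linarith only [this]

/-- **The hinges of a ring.** -/
theorem Adj.rk_ok (A : Adj h i p j) (hb : ClassW b) (hL : Loc b zs) (hX : LocX b zs)
    (hR : LocR b zs) (hy : Mx b zs y) (hc : clsW b i = .ring) :
    (rkw b zs y h i j).ok ((b i).natAbs : ℝ) (Yw b zs y i p) := by
  have h4 := ring_four hb (tyW_of_ring hb hc)
  have hrh := A.rh hy
  by_cases hE : Exh b zs y h i j
  · rw [rkw_pos hE]
    have E := A.exc hb hR hc hE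
    have hcap := A.exc_cap hb hL hX hR hy hc hE
    have hop := A.opp hb (Or.inr (by rw [hE.1]; decide))
    have hop' : b j * b i < 0 := by rwa [mul_comm] at hop
    have eo := ofs_opp hop' (zs (.inl (.inl h))).im
    obtain ⟨e1, ⟨e2, e2'⟩, e3, e4⟩ := A.par_ring_lo hc (by rw [hE.1]; decide) (by rw [hE.1]; decide)
    obtain ⟨-, hT, hy0⟩ := hE
    have hlo := E.lo
    have hT1 : ofs (b i) (zs (.inl (.inl h))).im ≤ 7 / 10000 := by linarith only [eo, hlo]
    have c0 : 0 < wcl b h := by linarith only [e2]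
    have c1 : 0 < wcr b h := by linarith only [e3]
    have htr : 0 < tr 0 (wXM b h) (wcl b h) (wcr b h) (y (.inl (.inl h))) := by
      unfold tr
      rw [sub_zero, e1]
      exact lt_max_of_lt_right (lt_min one_pos (lt_min (div_pos hy0 c0) (div_pos (by linarith only [hcap, hy0]) c1)))
    have htr1 : tr 0 (wXM b h) (wcl b h) (wcr b h) (y (.inl (.inl h))) ≤
        y (.inl (.inl h)) / wcl b h := by
      have h5 : 0 ≤ y (.inl (.inl h)) / wcl b h := div_nonneg hy0.le c0.le
      unfold tr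
      rw [sub_zero]
      exact max_le h5 ((min_le_right _ _).trans (min_le_left _ _))
    refine ⟨?_, ?_, ?_, ?_, ?_⟩
    · rw [E.n4]
      norm_num
    · rw [hrh.im, A.re]
      exact mul_pos hT htr
    · have := hrh.im_le hT.le
      linarith only [eo, hT, hlo, this]
    · rw [hrh.im, A.re]
      calc ofs (b i) (zs (.inl (.inl h))).im * tr 0 (wXM b h) (wcl b h) (wcr b h) (y (.inl (.inl h))) ≤
            ofs (b i) (zs (.inl (.inl h))).im * (y (.inl (.inl h)) / wcl b h) :=
            mul_le_mul_of_nonneg_left htr1 hT.le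
        _ = ofs (b i) (zs (.inl (.inl h))).im / wcl b h * y (.inl (.inl h)) := by ring
        _ ≤ 1 / 100 * y (.inl (.inl h)) := by
            apply mul_le_mul_of_nonneg_right _ hy0.le
            rw [div_le_iff₀ c0]
            linarith only [eo, e2, hT, hlo]
    · rw [A.re]
      exact hcap
  rw [rkw_neg hE]
  by_cases hj : clsW b j = .ring
  · rw [hj]
    obtain ⟨e1, e2, e3⟩ := A.par_rr hc hj
    rw [e1, e2, e3] at hrh
    exact (A.rrt hb hL hX hR hc hj).ok hrh
  · have hop := A.opp hb (Or.inr hj)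
    have hop' : b j * b i < 0 := by rwa [mul_comm] at hop
    obtain ⟨-, -, t0, t1⟩ := A.box hb hL
    rw [hc, A.ss hop] at t0 t1
    have eo := ofs_opp hop' (zs (.inl (.inl h))).im
    by_cases hj1 : clsW b j = .one
    · rw [hj1] at t0 t1 ⊢
      obtain ⟨e1, e2, e3⟩ := A.par_ring_one hc hj1
      rw [e1, e2, e3] at hrh
      simp only [hbox] at t0 t1
      refine ⟨_, _, t0, t1, fun h5 => ?_, fun h6 => ?_, ⟨le_rfl, by norm_num⟩, hrh⟩
      · have := natAbs_lt (c := 5) (k := 5) (by norm_num) h5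
        have := hX.one4 A.symm hj1 hc (by omega)
        linarith only [eo, this]
      · have := natAbs_lt (c := 6) (k := 6) (by norm_num) h6
        rcases (show (b i).natAbs = 4 ∨ (b i).natAbs = 5 by omega) with h7 | h7
        · have := hX.one4 A.symm hj1 hc h7
          linarith only [eo, this]
        · have := hX.one5 A.symm hj1 hc h7
          linarith only [eo, this]
    · obtain ⟨e1, e2, e3⟩ := A.par_ring_lo hc hj1 hj
      rw [e1] at hrh
      have hlo : rkd (clsW b j) = .lo := by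
        generalize clsW b j = B at hj hj1
        cases B <;> first | exact absurd rfl hj | exact absurd rfl hj1 | rfl
      rw [hlo]
      by_cases h3 : clsW b j = .three ∧ 0 < ofs (b i) (zs (.inl (.inl h))).im
      · -- the hinge is `0`
        have hy0 : y (.inl (.inl h)) ≤ 0 := by
          by_contra hcon
          exact hE ⟨h3.1, h3.2, not_le.1 hcon⟩
        have hy1 : (Yw b zs y i p).re = 0 := le_antisymm (by rw [A.re]; exact hy0) hrh.re0
        refine ⟨0, _, _, by norm_num, le_rfl, fun _ => by norm_num, ⟨by linarith only [e2, e2.1], e2.2⟩, e3,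
          hrh.re0, hrh.reM, ?_⟩
        rw [hrh.im, hy1, tr_a (by linarith only [e2, e2.1]) (by linarith only [e3, e3.1]) (by linarith only [e2, e3, e2.2, e3.2]) le_rfl
          (by linarith only [e2, e2.1])]
        simp
      refine ⟨_, _, _, ?_, ?_, fun h5 => ?_, ⟨by linarith only [e2, e2.1], e2.2⟩, e3, hrh⟩
      · refine le_trans ?_ t0
        generalize clsW b j = B at hj hj1
        cases B <;> first | exact absurd rfl hj | exact absurd rfl hj1 | norm_num [hbox]
      · by_cases h3' : clsW b j = .three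
        · by_contra hcon
          exact h3 ⟨h3', not_le.1 hcon⟩
        · refine t1.trans ?_
          generalize clsW b j = B at hj hj1 h3'
          cases B <;> first | exact absurd rfl hj | exact absurd rfl hj1 | exact absurd rfl h3' | norm_num [hbox]
      · have := natAbs_lt (c := 5) (k := 5) (by norm_num) h5
        have := hX.lo4 A.symm hj1 hj hc (by omega)
        linarith only [eo, this]

/-- the exceptional ring is high -/
theorem Adj.rk_rho (A : Adj h i p j) (hb : ClassW b) (hR : LocR b zs) (hc : clsW b i = .ring)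
    (hk : rkw b zs y h i j = .ps) (v : ZZ (tyW b)) (hv : v.1 = i) : 84 / 1000 ≤ (zs (.inr v)).im :=
  (A.exc hb hR hc (rkw_ps.1 hk)).r0 v hv

/-- the other neighbour of an exceptional ring is a ring -/
theorem Adj.exc_nxt (A : Adj h i p j) (hb : ClassW b) (hR : LocR b zs) (hc : clsW b i = .ring)
    (hk : rkw b zs y h i j = .ps) : ∃ (g : Fin M) (k : Fin (M + 1)), Adj g i p.rev k ∧ clsW b k = .ring := by
  obtain ⟨g, k, A', hk', -⟩ := (A.exc hb hR hc (rkw_ps.1 hk)).nxt
  exact ⟨g, k, A', hk'⟩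

/-- a slot of a twist region has a hinge or is free -/
theorem slot_cases_r (i : Fin (M + 1)) (b : Fin (M + 1) → ℤ) (zs : DD (tyW b) ⊕ ZZ (tyW b) → ℂ)
    (y : DD (tyW b) ⊕ ZZ (tyW b) → ℝ) (hp : p = 0 ∨ p = 2) :
    (∃ h j, Adj h i p j) ∨ (Yw b zs y i p = 0 ∧ ∀ h j, ¬Adj h i p j) := by
  rcases hp with rfl | rfl
  · by_cases h0 : i = 0
    · right
      refine ⟨by rw [h0]; exact Yw_zero, fun h j A => ?_⟩
      generalize h3 : (0 : Fin 3) = q at A
      cases A
      · exact absurd h3 (by decide)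
      · exact absurd h0 (Fin.succ_ne_zero _)
    · left
      obtain ⟨k, rfl⟩ := Fin.eq_succ_of_ne_zero h0
      exact ⟨k, _, .r⟩
  · by_cases h0 : i = Fin.last M
    · right
      refine ⟨by rw [h0]; exact Yw_last, fun h j A => ?_⟩
      generalize h3 : (2 : Fin 3) = q at A
      cases A
      · exact absurd h0 (Fin.castSucc_lt_last _).ne
      · exact absurd h3 (by decide)
    · left
      obtain ⟨k, hk⟩ := Fin.eq_castSucc_of_ne_last h0
      subst hk
      exact ⟨k, _, .l⟩

/-- what is known about the kind `k` of the hinge in the slot `p` of a ring, `k'`: the other kind -/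
structure RKs (b : Fin (M + 1) → ℤ) (zs : DD (tyW b) ⊕ ZZ (tyW b) → ℂ)
    (y : DD (tyW b) ⊕ ZZ (tyW b) → ℝ) (i : Fin (M + 1)) (p : Fin 3) (k k' : RKe) : Prop where
  ok : k.ok ((b i).natAbs : ℝ) (Yw b zs y i p)
  rr : k = .rr → ∃ h' j', Adj h' i p j' ∧ clsW b j' = .ring
  rho : k = .ps → ∀ v : ZZ (tyW b), v.1 = i → 84 / 1000 ≤ (zs (.inr v)).im
  oth : k = .ps → k' = .rr

theorem Adj.rks (A : Adj h i p j) (hb : ClassW b) (hL : Loc b zs) (hX : LocX b zs)
    (hR : LocR b zs) (hy : Mx b zs y) (hc : clsW b i = .ring) {k' : RKe}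
    (hk' : ∀ {g k}, Adj g i p.rev k → k' = rkw b zs y g i k) :
    RKs b zs y i p (rkw b zs y h i j) k' :=
  ⟨A.rk_ok hb hL hX hR hy hc, fun h => ⟨_, _, A, rkw_rr.1 h⟩, fun h v hv => A.rk_rho hb hR hc h v hv,
    fun h => by
      obtain ⟨g, k, A', hk⟩ := A.exc_nxt hb hR hc h
      rw [hk' A', rkw_rr]
      exact hk⟩

theorem RKs.no (h0 : Yw b zs y i p = 0) (k' : RKe) : RKs b zs y i p .no k' :=
  ⟨h0, fun h => by simp at h, fun h => by simp at h, fun h => by simp at h⟩

/-- the hinge in the other slot of a ring, or no hinge -/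
theorem Adj.rk_other (A : Adj h i p j) (hb : ClassW b) (hL : Loc b zs) (hX : LocX b zs)
    (hR : LocR b zs) (hy : Mx b zs y) (hc : clsW b i = .ring) :
    ∃ k' : RKe, RKs b zs y i p (rkw b zs y h i j) k' ∧ RKs b zs y i p.rev k' (rkw b zs y h i j) := by
  have hp : p.rev = 0 ∨ p.rev = 2 := by
    rcases A.slot with rfl | rfl
    · right; rfl
    · left; rfl
  rcases slot_cases_r (p := p.rev) i b zs y hp with ⟨h', j', A'⟩ | ⟨h0, hn⟩
  · refine ⟨rkw b zs y h' i j', A.rks hb hL hX hR hy hc fun A'' => ?_,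
      A'.rks hb hL hX hR hy hc fun A'' => ?_⟩
    · obtain ⟨rfl, rfl⟩ := A'.eq_of A''
      rfl
    · rw [Fin.rev_rev] at A''
      obtain ⟨rfl, rfl⟩ := A.eq_of A''
      rfl
  · exact ⟨.no, A.rks hb hL hX hR hy hc fun A'' => absurd A'' (hn _ _), RKs.no h0 _⟩

/-- the kinds of the two hinges of a ring -/
theorem rk_slots (hb : ClassW b) (hL : Loc b zs) (hX : LocX b zs)
    (hR : LocR b zs) (hy : Mx b zs y) (hc : clsW b i = .ring) :
    ∃ k k' : RKe, RKs b zs y i 0 k k' ∧ RKs b zs y i 2 k' k := by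
  rcases slot_cases_r (p := 0) i b zs y (Or.inl rfl) with ⟨h, j, A⟩ | ⟨h0, hn⟩
  · obtain ⟨k', h1, h2⟩ := A.rk_other hb hL hX hR hy hc
    exact ⟨_, k', h1, h2⟩
  · rcases slot_cases_r (p := 2) i b zs y (Or.inr rfl) with ⟨h, j, A⟩ | ⟨h0', hn'⟩
    · obtain ⟨k', h1, h2⟩ := A.rk_other hb hL hX hR hy hc
      exact ⟨k', _, h2, h1⟩
    · exact ⟨.no, .no, RKs.no h0 _, RKs.no h0' _⟩

end SR

end Pool.Agent.Work.MP_b30479_gtS.G2

end

section

/-!
# Rings in a word: the cap of the ring|ring hinges, the ring variables are not at the ends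
-/

namespace Pool.Agent.Work.MP_b30479_gtS.G2

open Finset VOL Filter Topology

namespace SR

variable {M : ℕ} {b : Fin (M + 1) → ℤ} {zs : DD (tyW b) ⊕ ZZ (tyW b) → ℂ}
variable {y : DD (tyW b) ⊕ ZZ (tyW b) → ℝ}
variable {h h' : Fin M} {i j j' : Fin (M + 1)} {p : Fin 3}

theorem fR_UU (w ζ : ℂ) : UU (w + 1 / 2 + ζ) + UU (w + 1 / 2 - ζ) - 2 * UU w = fR w ζ := rfl

theorem VR_rg (n ρ σ : ℝ) (w w' : ℂ) : VR n w w' (LT.zt ρ σ) = rg n ρ w w' σ := by
  unfold VR rg
  rw [fR_UU, fR_UU]
  have e : (Real.pi * Complex.I * n * LT.zt ρ σ ^ 2 + 2 * Real.pi * Complex.I * LT.zt ρ σ).re =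
      -(2 * Real.pi * (ρ * LT.th σ) * (n * σ + 1)) := by
    unfold LT.zt
    simp [pow_two]
    ring
  rw [e]

theorem rg_comm (n ρ σ : ℝ) (w w' : ℂ) : rg n ρ w w' σ = rg n ρ w' w σ := by
  unfold rg
  ring

theorem OY_endOk (i : Fin (M + 1)) : EndOk i (OY b zs y i) := Ow_endOk _ i

/-- **Value step at a ring|ring hinge.** -/
theorem Adj.rr_val (A : Adj h i p j) (hb : ClassW b) (hL : Loc b zs) (hy : Mx b zs y)
    (hc : clsW b i = .ring) (hj : clsW b j = .ring) {ρ σ ρ' σ' : ℝ}
    (h1 : OY b zs y i 1 = LT.zt ρ σ) (h2 : OY b zs y j 1 = LT.zt ρ' σ') {c : ℝ}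
    (hc0 : 1 / 10 ≤ c) (hc1 : c ≤ 48 / 100) :
    fR ⟨c, ofs (b i) (zs (.inl (.inl h))).im⟩ (LT.zt ρ σ) - fR (Yw b zs y i p) (LT.zt ρ σ) +
      (fR ⟨c, ofs (b j) (zs (.inl (.inl h))).im⟩ (LT.zt ρ' σ') -
        fR (Yw b zs y j p.rev) (LT.zt ρ' σ')) ≤ 0 := by
  obtain ⟨e1, e2, e3⟩ := A.par_rr hc hj
  have key := val_hinge hb hy A (c := c) (by linarith only [hc0]) (by rw [e1]; linarith only [hc1])
  rw [dV_ring hb A hc (OY_endOk i), dV_ring hb A.symm hj (OY_endOk j), h1, h2, OY_hinge y A,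
    OY_hinge y A.symm, pw_flat (b i) h (by rw [e2]; exact hc0) (by rw [e1, e3]; linarith only [hc1]),
    pw_flat (b j) h (by rw [e2]; exact hc0) (by rw [e1, e3]; linarith only [hc1])] at key
  have f1 : Yw b zs y i p = pw b zs (b i) h (y (.inl (.inl h))) := A.Yw_eq
  have f2 : Yw b zs y j p.rev = pw b zs (b j) h (y (.inl (.inl h))) := A.symm.Yw_eq
  rw [f1, f2]
  have g : ∀ T : ℝ, (⟨c, T⟩ : ℂ) = (c : ℂ) + ((T : ℝ) : ℂ) * Complex.I := fun T => by
    apply Complex.ext <;> simp
  rw [g, g]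
  unfold fR
  linarith only [key]

/-- first part of the cap -/
theorem Adj.rr_cap48 (A : Adj h i p j) (hb : ClassW b) (hL : Loc b zs) (hX : LocX b zs)
    (hR : LocR b zs) (hy : Mx b zs y) (hc : clsW b i = .ring) (hj : clsW b j = .ring) :
    y (.inl (.inl h)) ≤ 48 / 100 := by
  by_contra hcon
  push Not at hcon
  obtain ⟨v, -, c1, r1, z1⟩ := A.ring hb hL hy hc
  obtain ⟨v', -, c2, r2, z2⟩ := A.symm.ring hb hL hy hj
  obtain ⟨k, -, k1⟩ := A.rk_other hb hL hX hR hy hc
  obtain ⟨k', -, k2⟩ := A.symm.rk_other hb hL hX hR hy hj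
  have hval := A.rr_val hb hL hy hc hj z1 z2 (c := 105 / 1000) (by norm_num) (by norm_num)
  obtain ⟨e1, e2, e3⟩ := A.par_rr hc hj
  have w1 := A.rh hy
  have w2 := A.symm.rh hy
  rw [e1, e2, e3] at w1 w2
  have g1 := r1.gain' c1 w1 (A.rrt hb hL hX hR hc hj) k1.ok (by rw [A.re]; exact hcon)
  have g2 := r2.gain' c2 w2 (A.symm.rrt hb hL hX hR hj hc) k2.ok (by rw [A.symm.re]; exact hcon)
  linarith only [hval, g1, g2]

/-- value step for a hinge together with the variable of an adjacent ring -/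
theorem Adj.block_val (A : Adj h i p j) (hb : ClassW b) (hy : Mx b zs y)
    (hc : clsW b i = .ring) (v : ZZ (tyW b)) (hv : v.1 = i) {c σ : ℝ} (hc0 : 0 ≤ c)
    (hc1 : c ≤ wXM b h) (hσ : |σ| ≤ 1 / 2) :
    OV b i (Function.update (Function.update (OY b zs y i) 1 (LT.zt (zs (.inr v)).im σ)) p
      (pw b zs (b i) h c)) - OV b i (OY b zs y i) +
      dV b j p.rev (OY b zs y j) (pw b zs (b j) h c) ≤ 0 := by
  subst hv
  have ht := tyW_of_ring hb hc
  set z := (wpar b zs).pth zs y with hz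
  set c1 := (wpar b zs).pp zs (.inr v) (ofs (b v.1) σ) with hc1'
  set c2 := (wpar b zs).pp zs (.inl (.inl h)) c with hc2'
  have hs := abs_le.1 (show |ofs (b v.1) σ| ≤ 1 / 2 by rw [abs_ofs]; exact hσ)
  have hbox : Function.update (Function.update y (.inr v) (ofs (b v.1) σ)) (.inl (.inl h)) c ∈
      (wpar b zs).box (ZZ (tyW b)) :=
    update_mem_box (update_mem_box hy.1 hs.1 hs.2) hc0 hc1
  have h1 : (wdat (tyW b) b).V (Function.update (Function.update z (.inr v) c1) (.inl (.inl h)) c2) ≤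
      (wdat (tyW b) b).V z := by
    have h0 : (wdat (tyW b) b).V ((wpar b zs).pth zs (Function.update (Function.update y (.inr v)
        (ofs (b v.1) σ)) (.inl (.inl h)) c)) ≤ (wdat (tyW b) b).V ((wpar b zs).pth zs y) := hy.2 hbox
    rw [Par.pth_update_pp, Par.pth_update_pp] at h0
    exact h0
  have h2 := V_upd_ring (tyW b) b v z c1
  have h3 := V_upd_hinge (tyW b) b h (Function.update z (.inr v) c1) c2
  have e1 : ofz (b v.1) c1 = LT.zt (zs (.inr v)).im σ := by
    have e2 : c1 = LT.zt (zs (.inr v)).im (ofs (b v.1) σ) := by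
      rw [hc1', pp_ring]
      unfold LT.zt
      push_cast
      ring
    rw [e2, ofz_zt, ofs_ofs]
  have eow : ∀ i, own (b i) (tyW b i) (xx (tyW b) i z) = OY b zs y i := fun i => rfl
  have ering : own (b v.1) (tyW b v.1) (Function.update (xx (tyW b) v.1 z) 1 c1) =
      Function.update (OY b zs y v.1) 1 (LT.zt (zs (.inr v)).im σ) := by
    rw [← e1, ← eow, ht, own_update_ring]
  have hne : ∀ k : Fin M, k.castSucc ≠ k.succ := fun k => (Fin.castSucc_lt_succ).ne
  generalize hvi : v.1 = i at *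
  cases A
  · -- the ring is on the left
    have hl : xx (tyW b) h.castSucc (Function.update z (.inr v) c1) =
        Function.update (xx (tyW b) h.castSucc z) 1 c1 := by
      have := xx_upd_ring (tyW b) v z c1
      rwa [hvi] at this
    have hr : xx (tyW b) h.succ (Function.update z (.inr v) c1) = xx (tyW b) h.succ z :=
      xx_upd_ring_ne (tyW b) v z c1 h.succ (by rw [hvi]; exact (hne h).symm)
    rw [hl, hr, rV_own hb, rV_own hb, rV_own hb, rV_own hb, own_update_two, own_update_zero, ering,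
      eow] at h3
    rw [rV_own hb, rV_own hb, ering, eow] at h2
    rw [show (2 : Fin 3).rev = 0 from rfl]
    unfold dV pw
    linarith only [h1, h3, h2]
  · have hl : xx (tyW b) h.succ (Function.update z (.inr v) c1) =
        Function.update (xx (tyW b) h.succ z) 1 c1 := by
      have := xx_upd_ring (tyW b) v z c1
      rwa [hvi] at this
    have hr : xx (tyW b) h.castSucc (Function.update z (.inr v) c1) = xx (tyW b) h.castSucc z :=
      xx_upd_ring_ne (tyW b) v z c1 h.castSucc (by rw [hvi]; exact hne h)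
    rw [hl, hr, rV_own hb, rV_own hb, rV_own hb, rV_own hb, own_update_two, own_update_zero, ering,
      eow] at h3
    rw [rV_own hb, rV_own hb, ering, eow] at h2
    rw [show (0 : Fin 3).rev = 2 from rfl]
    unfold dV pw
    linarith only [h1, h3, h2]

theorem EndOk.upd1 {X : Fin 3 → ℂ} (hX : EndOk i X) (ζ : ℂ) : EndOk i (Function.update X 1 ζ) := by
  refine ⟨fun h0 => ?_, fun h0 => ?_⟩
  · rw [Function.update_of_ne (by decide)]
    exact hX.1 h0
  · rw [Function.update_of_ne (by decide)]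
    exact hX.2 h0

theorem Adj.OV_upd (A : Adj h i p j) (hb : ClassW b) (hc : clsW b i = .ring) (z : ℂ) (ρ σ : ℝ) :
    OV b i (Function.update (Function.update (OY b zs y i) 1 (LT.zt ρ σ)) p z) =
      rg ((b i).natAbs : ℝ) ρ z (Yw b zs y i p.rev) σ := by
  rw [OV_ring hb hc (((OY_endOk i).upd1 _).upd A z)]
  cases A
  · rw [Function.update_self, Function.update_of_ne (by decide), Function.update_of_ne (by decide),
      Function.update_of_ne (by decide), Function.update_self, VR_rg, OY_zero, rg_comm]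
    rfl
  · rw [Function.update_self, Function.update_of_ne (by decide), Function.update_of_ne (by decide),
      Function.update_of_ne (by decide), Function.update_self, VR_rg, OY_two]
    rfl

theorem Adj.OV_self (A : Adj h i p j) (hb : ClassW b) (hc : clsW b i = .ring) {ρ σ : ℝ}
    (h1 : OY b zs y i 1 = LT.zt ρ σ) :
    OV b i (OY b zs y i) = rg ((b i).natAbs : ℝ) ρ (Yw b zs y i p) (Yw b zs y i p.rev) σ := by
  rw [OV_ring hb hc (OY_endOk i), h1, VR_rg]
  cases A
  · rw [OY_zero, OY_two, rg_comm]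
    rfl
  · rw [OY_zero, OY_two]
    rfl

/-- **Cap of the ring|ring hinges.** -/
theorem Adj.rr_cap (A : Adj h i p j) (hb : ClassW b) (hL : Loc b zs) (hX : LocX b zs)
    (hR : LocR b zs) (hy : Mx b zs y) (hc : clsW b i = .ring) (hj : clsW b j = .ring) :
    y (.inl (.inl h)) ≤ 27 / 100 := by
  by_contra hcon
  push Not at hcon
  have h48 := A.rr_cap48 hb hL hX hR hy hc hj
  obtain ⟨v, hv, c1, r1, z1⟩ := A.ring hb hL hy hc
  obtain ⟨v', hv', c2, r2, z2⟩ := A.symm.ring hb hL hy hj
  obtain ⟨k, -, k1⟩ := A.rk_other hb hL hX hR hy hc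
  obtain ⟨k', -, k2⟩ := A.symm.rk_other hb hL hX hR hy hj
  obtain ⟨e1, e2, e3⟩ := A.par_rr hc hj
  have w1 := A.rh hy
  have w2 := A.symm.rh hy
  have t1 := A.rrt hb hL hX hR hc hj
  have t2 := A.symm.rrt hb hL hX hR hj hc
  rw [e1, e2, e3] at w1 w2
  have x1 : 27 / 100 < (Yw b zs y i p).re := by rw [A.re]; exact hcon
  have x1' : (Yw b zs y i p).re ≤ 48 / 100 := by rw [A.re]; exact h48
  have x2 : 27 / 100 < (Yw b zs y j p.rev).re := by rw [A.symm.re]; exact hcon
  have x2' : (Yw b zs y j p.rev).re ≤ 48 / 100 := by rw [A.symm.re]; exact h48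
  have h27 := A.rr_val hb hL hy hc hj z1 z2 (c := 27 / 100) (by norm_num) (by norm_num)
  rcases r1.lt_or_end with s1 | s1
  · have g1 := move27 r1.ρ0 c1.1 w1 t1.abs_le x1 x1' s1
    rcases r2.lt_or_end with s2 | s2
    · have g2 := move27 r2.ρ0 c2.1 w2 t2.abs_le x2 x2' s2
      linarith only [h27, g1, g2]
    · have g2 := move27_end (ρ := (zs (.inr v')).im) w2 x2 x2' s2 (27 / 100)
      linarith only [h27, g1, g2]
  · rcases r2.lt_or_end with s2 | s2
    · have g1 := move27_end (ρ := (zs (.inr v)).im) w1 x1 x1' s1 (27 / 100)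
      have g2 := move27 r2.ρ0 c2.1 w2 t2.abs_le x2 x2' s2
      linarith only [h27, g1, g2]
    · -- both ring variables at the ends
      have q1 := r1.block c1 w1 t1 k1.ok (fun hk => by
        obtain ⟨h', j', A', hj'⟩ := k1.rr hk
        rw [A'.re]
        exact A'.rr_cap48 hb hL hX hR hy hc hj') (fun hk => by linarith only [k1, hk, hv, k1.rho hk v hv]) s1
      have q2 := r2.block c2 w2 t2 k2.ok (fun hk => by
        obtain ⟨h', j', A', hj'⟩ := k2.rr hk
        rw [A'.re]
        exact A'.rr_cap48 hb hL hX hR hy hj hj') (fun hk => by linarith only [k2, hk, hv', k2.rho hk v' hv']) s2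
      have key := A.block_val hb hy hc v hv (c := 105 / 1000) (σ := -(1 / 4)) (by norm_num)
        (by rw [e1]; norm_num) (by rw [abs_neg, abs_of_pos] <;> norm_num)
      have g : ∀ T : ℝ, (((105 / 1000 : ℝ) : ℂ) + ((T : ℝ) : ℂ) * Complex.I) = ⟨105 / 1000, T⟩ :=
        fun T => by apply Complex.ext <;> simp
      rw [A.OV_upd hb hc, A.OV_self hb hc z1, dV_ring hb A.symm hj (OY_endOk j), z2,
        pw_flat (b i) h (by rw [e2]; norm_num) (by rw [e1, e3]; norm_num),
        pw_flat (b j) h (by rw [e2]; norm_num) (by rw [e1, e3]; norm_num), fR_UU, fR_UU, g, g,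
        fR_end s2, fR_end s2, OY_hinge y A.symm] at key
      have f2 : Yw b zs y j p.rev = pw b zs (b j) h (y (.inl (.inl h))) := A.symm.Yw_eq
      rw [← f2] at key
      simp only at key
      have q3 := mul_le_mul_of_nonneg_left q2.2 Real.pi_pos.le
      linarith only [q1, key, q3, q1.1]

/-- the caps of the hinges of a ring -/
theorem RKs.cp {k k' : RKe} (K : RKs b zs y i p k k') (hb : ClassW b) (hL : Loc b zs) (hX : LocX b zs)
    (hR : LocR b zs) (hy : Mx b zs y) (hc : clsW b i = .ring) (v : ZZ (tyW b)) (hv : v.1 = i) :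
    k.cp (zs (.inr v)).im (Yw b zs y i p) := by
  cases k with
  | no => trivial
  | one => trivial
  | lo => trivial
  | rr =>
    obtain ⟨h', j', A', hj'⟩ := K.rr rfl
    change (Yw b zs y i p).re ≤ 27 / 100
    rw [A'.re]
    exact A'.rr_cap hb hL hX hR hy hc hj'
  | ps =>
    change 4 / 100 ≤ (zs (.inr v)).im
    linarith only [K, hv, K.rho rfl v hv]

theorem clsW_ring (hb : ClassW b) (v : ZZ (tyW b)) : clsW b v.1 = .ring := by
  have h4 := ring_four hb (tyW_ring v.2)
  unfold clsW cls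
  rw [if_neg (by omega), if_neg (by omega), if_neg (by omega)]

/-- **The ring variables are not at the ends of their paths.** -/
theorem ring_lt_half (hb : ClassW b) (hL : Loc b zs) (hX : LocX b zs)
    (hR : LocR b zs) (hy : Mx b zs y) (v : ZZ (tyW b)) : |y (.inr v)| < 1 / 2 := by
  have hc := clsW_ring hb v
  obtain ⟨k, k', K, K'⟩ := rk_slots hb hL hX hR hy hc
  have r := ring_RM hb hL hy v
  have := r.lt_half_four (ring_cap hb hL v) K.ok K'.ok (K.cp hb hL hX hR hy hc v rfl)
    (K'.cp hb hL hX hR hy hc v rfl)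
  rwa [abs_ofs] at this

end SR

end Pool.Agent.Work.MP_b30479_gtS.G2

end
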