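import Pool.Agent.Work.MP_b30479_gt.TBS.G2.WLocF
import Pool.Agent.Work.MP_b30479_gt.TBS.G2.CN.TUt
import Pool.Agent.Work.MP_b30479_gt.TBS.G2.CN.TGoal
import Pool.Agent.Work.MP_b30479_gt.TBS.G2.CN.TQ4A
import Pool.Agent.Work.MP_b30479_gt.TBS.G2.CN.TDatc
import Pool.Agent.Work.MP_b30479_gt.TBS.G2.CN.TQ4K
import Pool.Agent.Work.MP_b30479_gt.TBS.G2.CN.TQ4O
import Pool.Agent.Work.MP_b30479_gt.TBS.G2.CN.TTabG
import Pool.Agent.Work.MP_b30479_gt.TBS.G2.CN.LocRTd
import Pool.Agent.Work.MP_b30479_gt.TBS.G2.CN.TLgK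
import Pool.Agent.Work.MP_b30479_gt.TBS.G2.CN.TQ5E
import Pool.Agent.Work.MP_b30479_gt.TBS.G2.CN.TQ5I
import Pool.Agent.Work.MP_b30479_gt.TBS.G2.CN.TDatg
import Pool.Agent.Work.MP_b30479_gt.TBS.G2.MPSide
import Pool.Agent.Work.MP_b30479_gt.TBS.G2.WMainS
import Pool.Agent.Work.MP_b30479_gt.TBS.G2.RngQ
import Pool.Agent.Work.MP_b30479_gt.TBS.G2.WMMD
import Pool.Agent.Work.MP_b30479_gt.TBS.G2.GE3
import Pool.Agent.Work.MP_b30479_gt.TBS.G2.RngP
import Pool.Agent.Work.MP_b30479_gt.TBS.G2.RngP2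
import Pool.Agent.Work.MP_b30479_gt.TBS.NumI.LnSin
import Pool.Agent.Work.MP_b30479_gt.TBS.G2.TRc
import Pool.Agent.Work.MP_b30479_gt.TBS.G2.V3MidA
import Pool.Agent.Work.MP_b30479_gt.TBS.G2.WExcZ
import Pool.Agent.Work.MP_b30479_gt.TBS.G2.WTab
import Pool.Agent.Work.MP_b30479_gt.TBS.G2.SQuartF

section

/-!
# Conditions from the boxes, part 3
-/

namespace Pool.Agent.Work.MP_b30479_gtS.G2.CN.TD

open Complex SR

noncomputable section

lemma lo4_two_two_of {s : Bool} {y z : ℂ} (h : (rq4 .two .two s).In y z) : ∀ g ∈ lo4_two_two, g.G y := by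
  have a0 := h.x0
  have a1 := h.x1
  have a2 := h.t0
  have a3 := h.t1
  norm_num [rq4, mk4] at a0 a1 a2 a3
  exact li_box (by norm_num; linarith) (by norm_num; linarith) (by norm_num; linarith) (by norm_num; linarith) (by norm_num; linarith)

lemma lo4_two_twoE_of {s : Bool} {y z : ℂ} (h : (rq4 .two .twoE s).In y z) : ∀ g ∈ lo4_two_twoE, g.G y := by
  have a0 := h.x0
  have a1 := h.x1
  have a2 := h.t0
  have a3 := h.t1
  norm_num [rq4, mk4] at a0 a1 a2 a3
  exact li_box (by norm_num; linarith) (by norm_num; linarith) (by norm_num; linarith) (by norm_num; linarith) (by norm_num; linarith)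

lemma lo5_one_ringA_of {y z : ℂ} (h : (rq5 .one .ring false).In y z) : ∀ g ∈ lo5_one_ringA, g.G y := by
  have a0 := h.x0
  have a1 := h.x1
  have a2 := h.t0
  have a3 := h.t1
  norm_num [rq5, mk4] at a0 a1 a2 a3
  exact li_box (by norm_num; linarith) (by norm_num; linarith) (by norm_num; linarith) (by norm_num; linarith) (by norm_num; linarith)

lemma lo5_one_ringZ_of {y z : ℂ} (h : (rq5 .one .ring true).In y z) : ∀ g ∈ lo5_one_ringZ, g.G y := by
  have a0 := h.x0
  have a1 := h.x1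
  have a2 := h.t0
  have a3 := h.t1
  norm_num [rq5, mk4] at a0 a1 a2 a3
  exact li_box (by norm_num; linarith) (by norm_num; linarith) (by norm_num; linarith) (by norm_num; linarith) (by norm_num; linarith)

lemma lo5_one_three_of {s : Bool} {y z : ℂ} (h : (rq5 .one .three s).In y z) : ∀ g ∈ lo5_one_three, g.G y := by
  have a0 := h.x0
  have a1 := h.x1
  have a2 := h.t0
  have a3 := h.t1
  norm_num [rq5, mk4] at a0 a1 a2 a3
  exact li_box (by norm_num; linarith) (by norm_num; linarith) (by norm_num; linarith) (by norm_num; linarith) (by norm_num; linarith)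

lemma lo5_one_threeE_of {s : Bool} {y z : ℂ} (h : (rq5 .one .threeE s).In y z) : ∀ g ∈ lo5_one_threeE, g.G y := by
  have a0 := h.x0
  have a1 := h.x1
  have a2 := h.t0
  have a3 := h.t1
  norm_num [rq5, mk4] at a0 a1 a2 a3
  exact li_box (by norm_num; linarith) (by norm_num; linarith) (by norm_num; linarith) (by norm_num; linarith) (by norm_num; linarith)

lemma lo5_one_two_of {s : Bool} {y z : ℂ} (h : (rq5 .one .two s).In y z) : ∀ g ∈ lo5_one_two, g.G y := by
  have a0 := h.x0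
  have a1 := h.x1
  have a2 := h.t0
  have a3 := h.t1
  norm_num [rq5, mk4] at a0 a1 a2 a3
  exact li_box (by norm_num; linarith) (by norm_num; linarith) (by norm_num; linarith) (by norm_num; linarith) (by norm_num; linarith)

lemma lo5_one_twoE_of {s : Bool} {y z : ℂ} (h : (rq5 .one .twoE s).In y z) : ∀ g ∈ lo5_one_twoE, g.G y := by
  have a0 := h.x0
  have a1 := h.x1
  have a2 := h.t0
  have a3 := h.t1
  norm_num [rq5, mk4] at a0 a1 a2 a3
  exact li_box (by norm_num; linarith) (by norm_num; linarith) (by norm_num; linarith) (by norm_num; linarith) (by norm_num; linarith)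

lemma lo5_twoE_ringA_of {y z : ℂ} (h : (rq5 .twoE .ring false).In y z) : ∀ g ∈ lo5_twoE_ringA, g.G y := by
  have a0 := h.x0
  have a1 := h.x1
  have a2 := h.t0
  have a3 := h.t1
  norm_num [rq5, mk4] at a0 a1 a2 a3
  exact li_box (by norm_num; linarith) (by norm_num; linarith) (by norm_num; linarith) (by norm_num; linarith) (by norm_num; linarith)

lemma lo5_twoE_ringZ_of {y z : ℂ} (h : (rq5 .twoE .ring true).In y z) : ∀ g ∈ lo5_twoE_ringZ, g.G y := by
  have a0 := h.x0
  have a1 := h.x1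
  have a2 := h.t0
  have a3 := h.t1
  norm_num [rq5, mk4] at a0 a1 a2 a3
  exact li_box (by norm_num; linarith) (by norm_num; linarith) (by norm_num; linarith) (by norm_num; linarith) (by norm_num; linarith)

lemma lo5_twoE_three_of {s : Bool} {y z : ℂ} (h : (rq5 .twoE .three s).In y z) : ∀ g ∈ lo5_twoE_three, g.G y := by
  have a0 := h.x0
  have a1 := h.x1
  have a2 := h.t0
  have a3 := h.t1
  norm_num [rq5, mk4] at a0 a1 a2 a3
  exact li_box (by norm_num; linarith) (by norm_num; linarith) (by norm_num; linarith) (by norm_num; linarith) (by norm_num; linarith)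

lemma lo5_twoE_threeE_of {s : Bool} {y z : ℂ} (h : (rq5 .twoE .threeE s).In y z) : ∀ g ∈ lo5_twoE_threeE, g.G y := by
  have a0 := h.x0
  have a1 := h.x1
  have a2 := h.t0
  have a3 := h.t1
  norm_num [rq5, mk4] at a0 a1 a2 a3
  exact li_box (by norm_num; linarith) (by norm_num; linarith) (by norm_num; linarith) (by norm_num; linarith) (by norm_num; linarith)

lemma lo5_twoE_two_of {s : Bool} {y z : ℂ} (h : (rq5 .twoE .two s).In y z) : ∀ g ∈ lo5_twoE_two, g.G y := by
  have a0 := h.x0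
  have a1 := h.x1
  have a2 := h.t0
  have a3 := h.t1
  norm_num [rq5, mk4] at a0 a1 a2 a3
  exact li_box (by norm_num; linarith) (by norm_num; linarith) (by norm_num; linarith) (by norm_num; linarith) (by norm_num; linarith)

lemma lo5_twoE_twoE_of {s : Bool} {y z : ℂ} (h : (rq5 .twoE .twoE s).In y z) : ∀ g ∈ lo5_twoE_twoE, g.G y := by
  have a0 := h.x0
  have a1 := h.x1
  have a2 := h.t0
  have a3 := h.t1
  norm_num [rq5, mk4] at a0 a1 a2 a3
  exact li_box (by norm_num; linarith) (by norm_num; linarith) (by norm_num; linarith) (by norm_num; linarith) (by norm_num; linarith)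

lemma lo5_two_ringA_of {y z : ℂ} (h : (rq5 .two .ring false).In y z) : ∀ g ∈ lo5_two_ringA, g.G y := by
  have a0 := h.x0
  have a1 := h.x1
  have a2 := h.t0
  have a3 := h.t1
  norm_num [rq5, mk4] at a0 a1 a2 a3
  exact li_box (by norm_num; linarith) (by norm_num; linarith) (by norm_num; linarith) (by norm_num; linarith) (by norm_num; linarith)

lemma lo5_two_ringZ_of {y z : ℂ} (h : (rq5 .two .ring true).In y z) : ∀ g ∈ lo5_two_ringZ, g.G y := by
  have a0 := h.x0
  have a1 := h.x1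
  have a2 := h.t0
  have a3 := h.t1
  norm_num [rq5, mk4] at a0 a1 a2 a3
  exact li_box (by norm_num; linarith) (by norm_num; linarith) (by norm_num; linarith) (by norm_num; linarith) (by norm_num; linarith)

lemma lo5_two_three_of {s : Bool} {y z : ℂ} (h : (rq5 .two .three s).In y z) : ∀ g ∈ lo5_two_three, g.G y := by
  have a0 := h.x0
  have a1 := h.x1
  have a2 := h.t0
  have a3 := h.t1
  norm_num [rq5, mk4] at a0 a1 a2 a3
  exact li_box (by norm_num; linarith) (by norm_num; linarith) (by norm_num; linarith) (by norm_num; linarith) (by norm_num; linarith)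

lemma lo5_two_threeE_of {s : Bool} {y z : ℂ} (h : (rq5 .two .threeE s).In y z) : ∀ g ∈ lo5_two_threeE, g.G y := by
  have a0 := h.x0
  have a1 := h.x1
  have a2 := h.t0
  have a3 := h.t1
  norm_num [rq5, mk4] at a0 a1 a2 a3
  exact li_box (by norm_num; linarith) (by norm_num; linarith) (by norm_num; linarith) (by norm_num; linarith) (by norm_num; linarith)

lemma lo5_two_two_of {s : Bool} {y z : ℂ} (h : (rq5 .two .two s).In y z) : ∀ g ∈ lo5_two_two, g.G y := by
  have a0 := h.x0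
  have a1 := h.x1
  have a2 := h.t0
  have a3 := h.t1
  norm_num [rq5, mk4] at a0 a1 a2 a3
  exact li_box (by norm_num; linarith) (by norm_num; linarith) (by norm_num; linarith) (by norm_num; linarith) (by norm_num; linarith)

end

end Pool.Agent.Work.MP_b30479_gtS.G2.CN.TD

end

section

/-!
# Rings with 4 crossings next to a digit `1`
-/

namespace Pool.Agent.Work.MP_b30479_gtS.G2.CN.TD

open Complex SR

noncomputable section

section
variable {K : KFam} (hK : KOK K) (Bx : BoxRows K) {l x : SK} {dl : ℕ} {ll : SK} {dr : ℕ} {rr : SK}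
  {w kl kr : ℂ}
include hK Bx

theorem q4_one_one {s : Bool} (t : RDt K 4 l x dl ll dr rr w kl kr) (hC : Bh x dr rr .one)
    (hk : Oh l dl ll .one s)
    (hl : (r4 false .one s).In (yH l (RR w kl) (Complex.cos w)) (zeta w))
    (rg : Rg (yH x (RR w kr) (Complex.cos w)) (zeta w)) :
    (rq4 .one .one s).In (yH x (RR w kr) (Complex.cos w)) (zeta w) := by
  have hN := t.right.ok.right.symm
  have hO := t.right.ok.left
  have hL := t.left.ok.right.symm
  rcases hC.one with ⟨rfl, rfl⟩ | ⟨rfl, rfl⟩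
  · have e2 := far_s t.right.ok.right
    subst e2
    rcases hk.one hL.zr t.left.ok.ne with ⟨rfl, rfl⟩ | rfl
    · have e1 := far_s t.left.ok.right
      subst e1
      exact b4c_of (tuseC hK Bx ld4 t o4_1a_1_u_u mn mn mn
        (l4_one3_of hl) (hK.inH hO k4aa_ok) (hK.inH hN k2as_ok)
        (aOkH t rfl (kl_a t (hK.inH hL k2as_ok))) (dOk hK t rfl (OR.st (by decide)))) rg
        (by norm_num) (by norm_num) (by norm_num) (by norm_num)
    · exact b4c_of (tuseC hK Bx ld4 t o4_1a_1_u_p mn mn mn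
        (l4_one_of hl) (hK.inH hO k5as_ok) (hK.inH hN k2as_ok)
        (aPs hK (by norm_num) t rfl) (dOk hK t rfl (OR.st (by decide)))) rg
        (by norm_num) (by norm_num) (by norm_num) (by norm_num)
  · cases rr
    · exact absurd rfl (hN.one rfl).2.1
    · rcases hk.one hL.zr t.left.ok.ne with ⟨rfl, rfl⟩ | rfl
      · have e1 := far_s t.left.ok.right
        subst e1
        exact b4c_of (tuseC hK Bx ld4 t o4_1a_1_1a_u mn mn mn
          (l4_one_of hl) (hK.inH hO k5as_ok) (hK.inH hN k2as_ok)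
          (aOkH t rfl (kl_a t (hK.inH hL k2as_ok))) (dOk hK t rfl (OR.a1 (by norm_num)))) rg
          (by norm_num) (by norm_num) (by norm_num) (by norm_num)
      · exact b4c_of (tuseC hK Bx ld4 t o4_1a_1_1a_x mn mn mn
          (l4_one_of hl) (hK.inH hO k6ss_ok) (hK.inH hN k2as_ok)
          AllOk.nil (dOk hK t rfl (OR.a1 (by norm_num)))) rg
          (by norm_num) (by norm_num) (by norm_num) (by norm_num)
    · exact absurd (hN.zl rfl) (by norm_num)
    · rcases hk.one hL.zr t.left.ok.ne with ⟨rfl, rfl⟩ | rfl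
      · have e1 := far_s t.left.ok.right
        subst e1
        exact b4c_of (tuseC hK Bx ld4 t o4_1a_1_1s_u mn mn mn
          (l4_one_of hl) (hK.inH hO k5as_ok) (hK.inH hN k3ss_ok)
          (aOkH t rfl (kl_a t (hK.inH hL k2as_ok))) (dOk hK t rfl OR.s)) rg
          (by norm_num) (by norm_num) (by norm_num) (by norm_num)
      · exact b4c_of (tuseC hK Bx ld4 t o4_1a_1_1s_x mn mn mn
          (l4_one_of hl) (hK.inH hO k6ss_ok) (hK.inH hN k3ss_ok)
          AllOk.nil (dOk hK t rfl OR.s)) rg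
          (by norm_num) (by norm_num) (by norm_num) (by norm_num)

theorem q4_one_two {s : Bool} (t : RDt K 4 l x dl ll dr rr w kl kr) (hC : Bh x dr rr .one)
    (hk : Oh l dl ll .two s)
    (hl : (r4 false .two s).In (yH l (RR w kl) (Complex.cos w)) (zeta w))
    (rg : Rg (yH x (RR w kr) (Complex.cos w)) (zeta w)) :
    (rq4 .one .two s).In (yH x (RR w kr) (Complex.cos w)) (zeta w) := by
  have hN := t.right.ok.right.symm
  have hO := t.right.ok.left
  have hL := t.left.ok.right.symm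
  rcases hC.one with ⟨rfl, rfl⟩ | ⟨rfl, rfl⟩
  · have e2 := far_s t.right.ok.right
    subst e2
    obtain ⟨rfl, rfl, hle⟩ := hk.two hL.zr t.left.ok.ne
    cases ll
    · exact absurd rfl hle
    · exact b4c_of (tuseC hK Bx ld4 t o4_1a_2_u_k2a mn mn mn
        (l4_two3_of hl) (hK.inH hO k4aa_ok) (hK.inH hN k2as_ok)
        (aOkH t rfl (kl_a t (hK.inH hL k2aa_ok))) (dOk hK t rfl (OR.st (by decide)))) rg
        (by norm_num) (by norm_num) (by norm_num) (by norm_num)
    · exact absurd (hL.zl rfl) (by norm_num)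
    · exact b4c_of (tuseC hK Bx ld4 t o4_1a_2_u_k2s mn mn mn
        (l4_two3_of hl) (hK.inH hO k4aa_ok) (hK.inH hN k2as_ok)
        (aOkH t rfl (kl_a t (hK.inH hL k3as_ok))) (dOk hK t rfl (OR.st (by decide)))) rg
        (by norm_num) (by norm_num) (by norm_num) (by norm_num)
  · cases rr
    · exact absurd rfl (hN.one rfl).2.1
    · obtain ⟨rfl, rfl, hle⟩ := hk.two hL.zr t.left.ok.ne
      cases ll
      · exact absurd rfl hle
      · exact b4c_of (tuseC hK Bx ld4 t o4_1a_2_1a_k2a mn mn mn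
          (l4_two_of hl) (hK.inH hO k5as_ok) (hK.inH hN k2as_ok)
          (aOkH t rfl (kl_a t (hK.inH hL k2aa_ok))) (dOk hK t rfl (OR.a1 (by norm_num)))) rg
          (by norm_num) (by norm_num) (by norm_num) (by norm_num)
      · exact absurd (hL.zl rfl) (by norm_num)
      · exact b4c_of (tuseC hK Bx ld4 t o4_1a_2_1a_k2s mn mn mn
          (l4_two_of hl) (hK.inH hO k5as_ok) (hK.inH hN k2as_ok)
          (aOkH t rfl (kl_a t (hK.inH hL k3as_ok))) (dOk hK t rfl (OR.a1 (by norm_num)))) rg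
          (by norm_num) (by norm_num) (by norm_num) (by norm_num)
    · exact absurd (hN.zl rfl) (by norm_num)
    · obtain ⟨rfl, rfl, hle⟩ := hk.two hL.zr t.left.ok.ne
      exact b4c_of (tuseC hK Bx ld4 t o4_1a_2_1s_p mn mn mn
        (l4_two_of hl) (hK.inH hO k5as_ok) (hK.inH hN k3ss_ok)
        (aPa hK t rfl) (dOk hK t rfl OR.s)) rg
        (by norm_num) (by norm_num) (by norm_num) (by norm_num)

theorem q4_one_twoE {s : Bool} (t : RDt K 4 l x dl ll dr rr w kl kr) (hC : Bh x dr rr .one)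
    (hk : Oh l dl ll .twoE s)
    (hl : (r4 false .twoE s).In (yH l (RR w kl) (Complex.cos w)) (zeta w))
    (rg : Rg (yH x (RR w kr) (Complex.cos w)) (zeta w)) :
    (rq4 .one .twoE s).In (yH x (RR w kr) (Complex.cos w)) (zeta w) := by
  have hN := t.right.ok.right.symm
  have hO := t.right.ok.left
  have hL := t.left.ok.right.symm
  rcases hC.one with ⟨rfl, rfl⟩ | ⟨rfl, rfl⟩
  · have e2 := far_s t.right.ok.right
    subst e2
    obtain ⟨rfl, rfl, rfl⟩ := hk.twoE hL.zr t.left.ok.ne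
    exact b4c_of (tuseC hK Bx ld4 t o4_1a_2e_u_k2e mn mn mn
      (l4_twoE3_of hl) (hK.inH hO k4aa_ok) (hK.inH hN k2as_ok)
      (aOkH t rfl (kl_a t (hK.inH hL k2ea_ok))) (dOk hK t rfl (OR.st (by decide)))) rg
      (by norm_num) (by norm_num) (by norm_num) (by norm_num)
  · cases rr
    · exact absurd rfl (hN.one rfl).2.1
    · obtain ⟨rfl, rfl, rfl⟩ := hk.twoE hL.zr t.left.ok.ne
      exact b4c_of (tuseC hK Bx ld4 t o4_1a_2e_1a_k2e mn mn mn
        (l4_twoE_of hl) (hK.inH hO k5as_ok) (hK.inH hN k2as_ok)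
        (aOkH t rfl (kl_a t (hK.inH hL k2ea_ok))) (dOk hK t rfl (OR.a1 (by norm_num)))) rg
        (by norm_num) (by norm_num) (by norm_num) (by norm_num)
    · exact absurd (hN.zl rfl) (by norm_num)
    · obtain ⟨rfl, rfl, rfl⟩ := hk.twoE hL.zr t.left.ok.ne
      exact b4c_of (tuseC hK Bx ld4 t o4_1a_2e_1s_k2e mn mn mn
        (l4_twoE_of hl) (hK.inH hO k5as_ok) (hK.inH hN k3ss_ok)
        (aOkH t rfl (kl_a t (hK.inH hL k2ea_ok))) (dOk hK t rfl OR.s)) rg
        (by norm_num) (by norm_num) (by norm_num) (by norm_num)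

theorem q4_one_three {s : Bool} (t : RDt K 4 l x dl ll dr rr w kl kr) (hC : Bh x dr rr .one)
    (hk : Oh l dl ll .three s)
    (hl : (r4 false .three s).In (yH l (RR w kl) (Complex.cos w)) (zeta w))
    (rg : Rg (yH x (RR w kr) (Complex.cos w)) (zeta w)) :
    (rq4 .one .three s).In (yH x (RR w kr) (Complex.cos w)) (zeta w) := by
  have hN := t.right.ok.right.symm
  have hO := t.right.ok.left
  have hL := t.left.ok.right.symm
  rcases hC.one with ⟨rfl, rfl⟩ | ⟨rfl, rfl⟩
  · have e2 := far_s t.right.ok.right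
    subst e2
    obtain ⟨rfl, rfl, hle⟩ := hk.three hL.zr t.left.ok.ne
    exact b4c_of (tuseC hK Bx ld4 t o4_1a_3_u_p mn mn mn
      (l4_three3_of hl) (hK.inH hO k4aa_ok) (hK.inH hN k2as_ok)
      (aPa hK t rfl) (dOk hK t rfl (OR.st (by decide)))) rg
      (by norm_num) (by norm_num) (by norm_num) (by norm_num)
  · cases rr
    · exact absurd rfl (hN.one rfl).2.1
    · obtain ⟨rfl, rfl, hle⟩ := hk.three hL.zr t.left.ok.ne
      cases ll
      · exact absurd rfl hle
      · exact b4c_of (tuseC hK Bx ld4 t o4_1a_3_1a_k3a mn mn mn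
          (l4_three_of hl) (hK.inH hO k5as_ok) (hK.inH hN k2as_ok)
          (aOkH t rfl (kl_a t (hK.inH hL k3aa_ok))) (dOk hK t rfl (OR.a1 (by norm_num)))) rg
          (by norm_num) (by norm_num) (by norm_num) (by norm_num)
      · exact absurd (hL.zl rfl) (by norm_num)
      · exact b4c_of (tuseC hK Bx ld4 t o4_1a_3_1a_k3s mn mn mn
          (l4_three_of hl) (hK.inH hO k5as_ok) (hK.inH hN k2as_ok)
          (aOkH t rfl (kl_a t (hK.inH hL k4as_ok))) (dOk hK t rfl (OR.a1 (by norm_num)))) rg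
          (by norm_num) (by norm_num) (by norm_num) (by norm_num)
    · exact absurd (hN.zl rfl) (by norm_num)
    · obtain ⟨rfl, rfl, hle⟩ := hk.three hL.zr t.left.ok.ne
      exact b4c_of (tuseC hK Bx ld4 t o4_1a_3_1s_p mn mn mn
        (l4_three_of hl) (hK.inH hO k5as_ok) (hK.inH hN k3ss_ok)
        (aPa hK t rfl) (dOk hK t rfl OR.s)) rg
        (by norm_num) (by norm_num) (by norm_num) (by norm_num)

theorem q4_one_threeE {s : Bool} (t : RDt K 4 l x dl ll dr rr w kl kr) (hC : Bh x dr rr .one)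
    (hk : Oh l dl ll .threeE s)
    (hl : (r4 false .threeE s).In (yH l (RR w kl) (Complex.cos w)) (zeta w))
    (rg : Rg (yH x (RR w kr) (Complex.cos w)) (zeta w)) :
    (rq4 .one .threeE s).In (yH x (RR w kr) (Complex.cos w)) (zeta w) := by
  have hN := t.right.ok.right.symm
  have hO := t.right.ok.left
  have hL := t.left.ok.right.symm
  rcases hC.one with ⟨rfl, rfl⟩ | ⟨rfl, rfl⟩
  · have e2 := far_s t.right.ok.right
    subst e2
    obtain ⟨rfl, rfl, rfl⟩ := hk.threeE hL.zr t.left.ok.ne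
    exact b4c_of (tuseC hK Bx ld4 t o4_1a_3e_u_k3e mn mn mn
      (l4_threeE4_of hl) (hK.inH hO k4aa_ok) (hK.inH hN k2as_ok)
      (aOkH t rfl (kl_a t (hK.inH hL k3ea_ok))) (dOk hK t rfl (OR.st (by decide)))) rg
      (by norm_num) (by norm_num) (by norm_num) (by norm_num)
  · cases rr
    · exact absurd rfl (hN.one rfl).2.1
    · obtain ⟨rfl, rfl, rfl⟩ := hk.threeE hL.zr t.left.ok.ne
      exact b4c_of (tuseC hK Bx ld4 t o4_1a_3e_1a_k3e mn mn mn
        (l4_threeE_of hl) (hK.inH hO k5as_ok) (hK.inH hN k2as_ok)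
        (aOkH t rfl (kl_a t (hK.inH hL k3ea_ok))) (dOk hK t rfl (OR.a1 (by norm_num)))) rg
        (by norm_num) (by norm_num) (by norm_num) (by norm_num)
    · exact absurd (hN.zl rfl) (by norm_num)
    · obtain ⟨rfl, rfl, rfl⟩ := hk.threeE hL.zr t.left.ok.ne
      exact b4c_of (tuseC hK Bx ld4 t o4_1a_3e_1s_k3e mn mn mn
        (l4_threeE_of hl) (hK.inH hO k5as_ok) (hK.inH hN k3ss_ok)
        (aOkH t rfl (kl_a t (hK.inH hL k3ea_ok))) (dOk hK t rfl OR.s)) rg
        (by norm_num) (by norm_num) (by norm_num) (by norm_num)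

theorem q4_one_ringA (t : RDt K 4 l x dl ll dr rr w kl kr) (hC : Bh x dr rr .one)
    (hk : Oh l dl ll .ring false)
    (hl : (r4 false .ring false).In (yH l (RR w kl) (Complex.cos w)) (zeta w))
    (rg : Rg (yH x (RR w kr) (Complex.cos w)) (zeta w)) :
    (rq4 .one .ring false).In (yH x (RR w kr) (Complex.cos w)) (zeta w) := by
  have hN := t.right.ok.right.symm
  have hO := t.right.ok.left
  have hL := t.left.ok.right.symm
  rcases hC.one with ⟨rfl, rfl⟩ | ⟨rfl, rfl⟩
  · have e2 := far_s t.right.ok.right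
    subst e2
    rcases hk.ring hL.pos t.left.ok.ne with ⟨rfl, -, hl4⟩ | ⟨-, h9, -⟩
    · exact b4c_of (tuseC hK Bx ld4 t o4_1a_Z_u_kZ mn mn mn
        (l4_ringA4_of hl) (hK.inH hO k4aa_ok) (hK.inH hN k2as_ok)
        (aOkH t rfl (kl_a t (in_nZa hK hL hl4))) (dOk hK t rfl (OR.st (by decide)))) rg
        (by norm_num) (by norm_num) (by norm_num) (by norm_num)
    · exact absurd h9 (by decide)
  · cases rr
    · exact absurd rfl (hN.one rfl).2.1
    · rcases hk.ring hL.pos t.left.ok.ne with ⟨rfl, -, hl4⟩ | ⟨-, h9, -⟩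
      · exact b4c_of (tuseC hK Bx ld4 t o4_1a_Z_1a_kZ mn mn mn
          (l4_ringA_of hl) (hK.inH hO k5as_ok) (hK.inH hN k2as_ok)
          (aOkH t rfl (kl_a t (in_nZa hK hL hl4))) (dOk hK t rfl (OR.a1 (by norm_num)))) rg
          (by norm_num) (by norm_num) (by norm_num) (by norm_num)
      · exact absurd h9 (by decide)
    · exact absurd (hN.zl rfl) (by norm_num)
    · rcases hk.ring hL.pos t.left.ok.ne with ⟨rfl, -, hl4⟩ | ⟨-, h9, -⟩
      · exact b4c_of (tuseC hK Bx ld4 t o4_1a_Z_1s_kZ mn mn mn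
          (l4_ringA_of hl) (hK.inH hO k5as_ok) (hK.inH hN k3ss_ok)
          (aOkH t rfl (kl_a t (in_nZa hK hL hl4))) (dOk hK t rfl OR.s)) rg
          (by norm_num) (by norm_num) (by norm_num) (by norm_num)
      · exact absurd h9 (by decide)

theorem q4_one_ringZ (t : RDt K 4 l x dl ll dr rr w kl kr) (hC : Bh x dr rr .one)
    (hk : Oh l dl ll .ring true)
    (hl : (r4 false .ring true).In (yH l (RR w kl) (Complex.cos w)) (zeta w))
    (rg : Rg (yH x (RR w kr) (Complex.cos w)) (zeta w)) :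
    (rq4 .one .ring true).In (yH x (RR w kr) (Complex.cos w)) (zeta w) := by
  have hN := t.right.ok.right.symm
  have hO := t.right.ok.left
  have hL := t.left.ok.right.symm
  rcases hC.one with ⟨rfl, rfl⟩ | ⟨rfl, rfl⟩
  · have e2 := far_s t.right.ok.right
    subst e2
    rcases hk.ring hL.pos t.left.ok.ne with ⟨-, h9, -⟩ | ⟨rfl, -, hl4⟩
    · exact absurd h9 (by decide)
    · exact b4c_of (tuseC hK Bx ld4 t o4_1a_Zs_u_kz mn mn mn
        (l4_ringZ_of hl) (hK.inH hO k4az_ok) (hK.inH hN k2as_ok)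
        (aOkH t rfl (kl_z t (in_nZz hK hL))) (dOk hK t rfl (OR.st (by decide)))) rg
        (by norm_num) (by norm_num) (by norm_num) (by norm_num)
  · cases rr
    · exact absurd rfl (hN.one rfl).2.1
    · rcases hk.ring hL.pos t.left.ok.ne with ⟨-, h9, -⟩ | ⟨rfl, -, hl4⟩
      · exact absurd h9 (by decide)
      · exact b4c_of (tuseC hK Bx ld4 t o4_1a_Zs_1a_kz mn mn mn
          (l4_ringZ_of hl) (hK.inH hO k5zs_ok) (hK.inH hN k2as_ok)
          (aOkH t rfl (kl_z t (in_nZz hK hL))) (dOk hK t rfl (OR.a1 (by norm_num)))) rg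
          (by norm_num) (by norm_num) (by norm_num) (by norm_num)
    · exact absurd (hN.zl rfl) (by norm_num)
    · rcases hk.ring hL.pos t.left.ok.ne with ⟨-, h9, -⟩ | ⟨rfl, -, hl4⟩
      · exact absurd h9 (by decide)
      · exact b4c_of (tuseC hK Bx ld4 t o4_1a_Zs_1s_kz mn mn mn
          (l4_ringZ_of hl) (hK.inH hO k5zs_ok) (hK.inH hN k3ss_ok)
          (aOkH t rfl (kl_z t (in_nZz hK hL))) (dOk hK t rfl OR.s)) rg
          (by norm_num) (by norm_num) (by norm_num) (by norm_num)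

theorem q4_two_one {s : Bool} (t : RDt K 4 l x dl ll dr rr w kl kr) (hC : Bh x dr rr .two)
    (hk : Oh l dl ll .one s)
    (hl : (r4 false .one s).In (yH l (RR w kl) (Complex.cos w)) (zeta w))
    (rg : Rg (yH x (RR w kr) (Complex.cos w)) (zeta w)) :
    (rq4 .two .one s).In (yH x (RR w kr) (Complex.cos w)) (zeta w) := by
  have hN := t.right.ok.right.symm
  have hO := t.right.ok.left
  have hL := t.left.ok.right.symm
  obtain ⟨rfl, rfl, hre⟩ := hC.two
  cases rr
  · exact absurd rfl hre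
  · rcases hk.one hL.zr t.left.ok.ne with ⟨rfl, rfl⟩ | rfl
    · have e1 := far_s t.left.ok.right
      subst e1
      exact b4c_of (tuseC hK Bx ld4 t o4_1b_1_2a_u mn mn mn
        (l4_one_of hl) (hK.inH hO k5as_ok) (hK.inH hN k3as_ok)
        (aOkH t rfl (kl_a t (hK.inH hL k2as_ok))) (dOk hK t rfl OR.a)) rg
        (by norm_num) (by norm_num) (by norm_num) (by norm_num)
    · exact b4c_of (tuseC hK Bx ld4 t o4_1b_1_2a_x mn mn mn
        (l4_one_of hl) (hK.inH hO k6ss_ok) (hK.inH hN k3as_ok)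
        AllOk.nil (dOk hK t rfl OR.a)) rg
        (by norm_num) (by norm_num) (by norm_num) (by norm_num)
  · exact absurd (hN.zl rfl) (by norm_num)
  · rcases hk.one hL.zr t.left.ok.ne with ⟨rfl, rfl⟩ | rfl
    · have e1 := far_s t.left.ok.right
      subst e1
      exact b4c_of (tuseC hK Bx ld4 t o4_1b_1_2s_u mn mn mn
        (l4_one_of hl) (hK.inH hO k5as_ok) (hK.inH hN k4ss_ok)
        (aOkH t rfl (kl_a t (hK.inH hL k2as_ok))) (dOk hK t rfl OR.s)) rg
        (by norm_num) (by norm_num) (by norm_num) (by norm_num)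
    · exact b4c_of (tuseC hK Bx ld4 t o4_1b_1_2s_x mn mn mn
        (l4_one_of hl) (hK.inH hO k6ss_ok) (hK.inH hN k4ss_ok)
        AllOk.nil (dOk hK t rfl OR.s)) rg
        (by norm_num) (by norm_num) (by norm_num) (by norm_num)

theorem q4_two_two {s : Bool} (t : RDt K 4 l x dl ll dr rr w kl kr) (hC : Bh x dr rr .two)
    (hk : Oh l dl ll .two s)
    (hl : (r4 false .two s).In (yH l (RR w kl) (Complex.cos w)) (zeta w))
    (rg : Rg (yH x (RR w kr) (Complex.cos w)) (zeta w)) :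
    (rq4 .two .two s).In (yH x (RR w kr) (Complex.cos w)) (zeta w) := by
  have hN := t.right.ok.right.symm
  have hO := t.right.ok.left
  have hL := t.left.ok.right.symm
  obtain ⟨rfl, rfl, hre⟩ := hC.two
  cases rr
  · exact absurd rfl hre
  · obtain ⟨rfl, rfl, hle⟩ := hk.two hL.zr t.left.ok.ne
    cases ll
    · exact absurd rfl hle
    · exact b4c_of (tuseC hK Bx ld4 t o4_1b_2_2a_k2a mn mn mn
        (l4_two_of hl) (hK.inH hO k5as_ok) (hK.inH hN k3as_ok)
        (aOkH t rfl (kl_a t (hK.inH hL k2aa_ok))) (dOk hK t rfl OR.a)) rg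
        (by norm_num) (by norm_num) (by norm_num) (by norm_num)
    · exact absurd (hL.zl rfl) (by norm_num)
    · exact b4c_of (tuseC hK Bx ld4 t o4_1b_2_2a_k2s mn mn mn
        (l4_two_of hl) (hK.inH hO k5as_ok) (hK.inH hN k3as_ok)
        (aOkH t rfl (kl_a t (hK.inH hL k3as_ok))) (dOk hK t rfl OR.a)) rg
        (by norm_num) (by norm_num) (by norm_num) (by norm_num)
  · exact absurd (hN.zl rfl) (by norm_num)
  · obtain ⟨rfl, rfl, hle⟩ := hk.two hL.zr t.left.ok.ne
    exact b4c_of (tuseC hK Bx ld4 t o4_1b_2_2s_p mn mn mn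
      (l4_two_of hl) (hK.inH hO k5as_ok) (hK.inH hN k4ss_ok)
      (aPa hK t rfl) (dOk hK t rfl OR.s)) rg
      (by norm_num) (by norm_num) (by norm_num) (by norm_num)

theorem q4_two_twoE {s : Bool} (t : RDt K 4 l x dl ll dr rr w kl kr) (hC : Bh x dr rr .two)
    (hk : Oh l dl ll .twoE s)
    (hl : (r4 false .twoE s).In (yH l (RR w kl) (Complex.cos w)) (zeta w))
    (rg : Rg (yH x (RR w kr) (Complex.cos w)) (zeta w)) :
    (rq4 .two .twoE s).In (yH x (RR w kr) (Complex.cos w)) (zeta w) := by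
  have hN := t.right.ok.right.symm
  have hO := t.right.ok.left
  have hL := t.left.ok.right.symm
  obtain ⟨rfl, rfl, hre⟩ := hC.two
  cases rr
  · exact absurd rfl hre
  · obtain ⟨rfl, rfl, rfl⟩ := hk.twoE hL.zr t.left.ok.ne
    exact b4c_of (tuseC hK Bx ld4 t o4_1b_2e_2a_k2e mn mn mn
      (l4_twoE_of hl) (hK.inH hO k5as_ok) (hK.inH hN k3as_ok)
      (aOkH t rfl (kl_a t (hK.inH hL k2ea_ok))) (dOk hK t rfl OR.a)) rg
      (by norm_num) (by norm_num) (by norm_num) (by norm_num)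
  · exact absurd (hN.zl rfl) (by norm_num)
  · obtain ⟨rfl, rfl, rfl⟩ := hk.twoE hL.zr t.left.ok.ne
    exact b4c_of (tuseC hK Bx ld4 t o4_1b_2e_2s_k2e mn mn mn
      (l4_twoE_of hl) (hK.inH hO k5as_ok) (hK.inH hN k4ss_ok)
      (aOkH t rfl (kl_a t (hK.inH hL k2ea_ok))) (dOk hK t rfl OR.s)) rg
      (by norm_num) (by norm_num) (by norm_num) (by norm_num)

theorem q4_two_three {s : Bool} (t : RDt K 4 l x dl ll dr rr w kl kr) (hC : Bh x dr rr .two)
    (hk : Oh l dl ll .three s)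
    (hl : (r4 false .three s).In (yH l (RR w kl) (Complex.cos w)) (zeta w))
    (rg : Rg (yH x (RR w kr) (Complex.cos w)) (zeta w)) :
    (rq4 .two .three s).In (yH x (RR w kr) (Complex.cos w)) (zeta w) := by
  have hN := t.right.ok.right.symm
  have hO := t.right.ok.left
  have hL := t.left.ok.right.symm
  obtain ⟨rfl, rfl, hre⟩ := hC.two
  cases rr
  · exact absurd rfl hre
  · obtain ⟨rfl, rfl, hle⟩ := hk.three hL.zr t.left.ok.ne
    cases ll
    · exact absurd rfl hle
    · exact b4c_of (tuseC hK Bx ld4 t o4_1b_3_2a_k3a mn mn mn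
        (l4_three_of hl) (hK.inH hO k5as_ok) (hK.inH hN k3as_ok)
        (aOkH t rfl (kl_a t (hK.inH hL k3aa_ok))) (dOk hK t rfl OR.a)) rg
        (by norm_num) (by norm_num) (by norm_num) (by norm_num)
    · exact absurd (hL.zl rfl) (by norm_num)
    · exact b4c_of (tuseC hK Bx ld4 t o4_1b_3_2a_k3s mn mn mn
        (l4_three_of hl) (hK.inH hO k5as_ok) (hK.inH hN k3as_ok)
        (aOkH t rfl (kl_a t (hK.inH hL k4as_ok))) (dOk hK t rfl OR.a)) rg
        (by norm_num) (by norm_num) (by norm_num) (by norm_num)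
  · exact absurd (hN.zl rfl) (by norm_num)
  · obtain ⟨rfl, rfl, hle⟩ := hk.three hL.zr t.left.ok.ne
    exact b4c_of (tuseC hK Bx ld4 t o4_1b_3_2s_p mn mn mn
      (l4_three_of hl) (hK.inH hO k5as_ok) (hK.inH hN k4ss_ok)
      (aPa hK t rfl) (dOk hK t rfl OR.s)) rg
      (by norm_num) (by norm_num) (by norm_num) (by norm_num)

theorem q4_two_threeE {s : Bool} (t : RDt K 4 l x dl ll dr rr w kl kr) (hC : Bh x dr rr .two)
    (hk : Oh l dl ll .threeE s)
    (hl : (r4 false .threeE s).In (yH l (RR w kl) (Complex.cos w)) (zeta w))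
    (rg : Rg (yH x (RR w kr) (Complex.cos w)) (zeta w)) :
    (rq4 .two .threeE s).In (yH x (RR w kr) (Complex.cos w)) (zeta w) := by
  have hN := t.right.ok.right.symm
  have hO := t.right.ok.left
  have hL := t.left.ok.right.symm
  obtain ⟨rfl, rfl, hre⟩ := hC.two
  cases rr
  · exact absurd rfl hre
  · obtain ⟨rfl, rfl, rfl⟩ := hk.threeE hL.zr t.left.ok.ne
    exact b4c_of (tuseC hK Bx ld4 t o4_1b_3e_2a_k3e mn mn mn
      (l4_threeE_of hl) (hK.inH hO k5as_ok) (hK.inH hN k3as_ok)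
      (aOkH t rfl (kl_a t (hK.inH hL k3ea_ok))) (dOk hK t rfl OR.a)) rg
      (by norm_num) (by norm_num) (by norm_num) (by norm_num)
  · exact absurd (hN.zl rfl) (by norm_num)
  · obtain ⟨rfl, rfl, rfl⟩ := hk.threeE hL.zr t.left.ok.ne
    exact b4c_of (tuseC hK Bx ld4 t o4_1b_3e_2s_k3e mn mn mn
      (l4_threeE_of hl) (hK.inH hO k5as_ok) (hK.inH hN k4ss_ok)
      (aOkH t rfl (kl_a t (hK.inH hL k3ea_ok))) (dOk hK t rfl OR.s)) rg
      (by norm_num) (by norm_num) (by norm_num) (by norm_num)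

theorem q4_two_ringA (t : RDt K 4 l x dl ll dr rr w kl kr) (hC : Bh x dr rr .two)
    (hk : Oh l dl ll .ring false)
    (hl : (r4 false .ring false).In (yH l (RR w kl) (Complex.cos w)) (zeta w))
    (rg : Rg (yH x (RR w kr) (Complex.cos w)) (zeta w)) :
    (rq4 .two .ring false).In (yH x (RR w kr) (Complex.cos w)) (zeta w) := by
  have hN := t.right.ok.right.symm
  have hO := t.right.ok.left
  have hL := t.left.ok.right.symm
  obtain ⟨rfl, rfl, hre⟩ := hC.two
  cases rr
  · exact absurd rfl hre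
  · rcases hk.ring hL.pos t.left.ok.ne with ⟨rfl, -, hl4⟩ | ⟨-, h9, -⟩
    · exact b4c_of (tuseC hK Bx ld4 t o4_1b_Z_2a_kZ mn mn mn
        (l4_ringA_of hl) (hK.inH hO k5as_ok) (hK.inH hN k3as_ok)
        (aOkH t rfl (kl_a t (in_nZa hK hL hl4))) (dOk hK t rfl OR.a)) rg
        (by norm_num) (by norm_num) (by norm_num) (by norm_num)
    · exact absurd h9 (by decide)
  · exact absurd (hN.zl rfl) (by norm_num)
  · rcases hk.ring hL.pos t.left.ok.ne with ⟨rfl, -, hl4⟩ | ⟨-, h9, -⟩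
    · exact b4c_of (tuseC hK Bx ld4 t o4_1b_Z_2s_kZ mn mn mn
        (l4_ringA_of hl) (hK.inH hO k5as_ok) (hK.inH hN k4ss_ok)
        (aOkH t rfl (kl_a t (in_nZa hK hL hl4))) (dOk hK t rfl OR.s)) rg
        (by norm_num) (by norm_num) (by norm_num) (by norm_num)
    · exact absurd h9 (by decide)

theorem q4_two_ringZ (t : RDt K 4 l x dl ll dr rr w kl kr) (hC : Bh x dr rr .two)
    (hk : Oh l dl ll .ring true)
    (hl : (r4 false .ring true).In (yH l (RR w kl) (Complex.cos w)) (zeta w))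
    (rg : Rg (yH x (RR w kr) (Complex.cos w)) (zeta w)) :
    (rq4 .two .ring true).In (yH x (RR w kr) (Complex.cos w)) (zeta w) := by
  have hN := t.right.ok.right.symm
  have hO := t.right.ok.left
  have hL := t.left.ok.right.symm
  obtain ⟨rfl, rfl, hre⟩ := hC.two
  cases rr
  · exact absurd rfl hre
  · rcases hk.ring hL.pos t.left.ok.ne with ⟨-, h9, -⟩ | ⟨rfl, -, hl4⟩
    · exact absurd h9 (by decide)
    · exact b4c_of (tuseC hK Bx ld4 t o4_1b_Zs_2a_kz mn mn mn
        (l4_ringZ_of hl) (hK.inH hO k5zs_ok) (hK.inH hN k3as_ok)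
        (aOkH t rfl (kl_z t (in_nZz hK hL))) (dOk hK t rfl OR.a)) rg
        (by norm_num) (by norm_num) (by norm_num) (by norm_num)
  · exact absurd (hN.zl rfl) (by norm_num)
  · rcases hk.ring hL.pos t.left.ok.ne with ⟨-, h9, -⟩ | ⟨rfl, -, hl4⟩
    · exact absurd h9 (by decide)
    · exact b4c_of (tuseC hK Bx ld4 t o4_1b_Zs_2s_kz mn mn mn
        (l4_ringZ_of hl) (hK.inH hO k5zs_ok) (hK.inH hN k4ss_ok)
        (aOkH t rfl (kl_z t (in_nZz hK hL))) (dOk hK t rfl OR.s)) rg
        (by norm_num) (by norm_num) (by norm_num) (by norm_num)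

theorem q4_twoE_one {s : Bool} (t : RDt K 4 l x dl ll dr rr w kl kr) (hC : Bh x dr rr .twoE)
    (hk : Oh l dl ll .one s)
    (hl : (r4 false .one s).In (yH l (RR w kl) (Complex.cos w)) (zeta w))
    (rg : Rg (yH x (RR w kr) (Complex.cos w)) (zeta w)) :
    (rq4 .twoE .one s).In (yH x (RR w kr) (Complex.cos w)) (zeta w) := by
  have hN := t.right.ok.right.symm
  have hO := t.right.ok.left
  have hL := t.left.ok.right.symm
  obtain ⟨rfl, rfl, rfl⟩ := hC.twoE
  rcases hk.one hL.zr t.left.ok.ne with ⟨rfl, rfl⟩ | rfl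
  · have e1 := far_s t.left.ok.right
    subst e1
    exact b4c_of (tuseC hK Bx ld4 t o4_1c_1_2e_u mn mn mn
      (l4_one_of hl) (hK.inH hO k5as_ok) (hK.inH hN k3es_ok)
      (aOkH t rfl (kl_a t (hK.inH hL k2as_ok))) (dOk hK t rfl OR.e)) rg
      (by norm_num) (by norm_num) (by norm_num) (by norm_num)
  · exact b4c_of (tuseC hK Bx ld4 t o4_1c_1_2e_x mn mn mn
      (l4_one_of hl) (hK.inH hO k6ss_ok) (hK.inH hN k3es_ok)
      AllOk.nil (dOk hK t rfl OR.e)) rg
      (by norm_num) (by norm_num) (by norm_num) (by norm_num)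

theorem q4_twoE_two {s : Bool} (t : RDt K 4 l x dl ll dr rr w kl kr) (hC : Bh x dr rr .twoE)
    (hk : Oh l dl ll .two s)
    (hl : (r4 false .two s).In (yH l (RR w kl) (Complex.cos w)) (zeta w))
    (rg : Rg (yH x (RR w kr) (Complex.cos w)) (zeta w)) :
    (rq4 .twoE .two s).In (yH x (RR w kr) (Complex.cos w)) (zeta w) := by
  have hN := t.right.ok.right.symm
  have hO := t.right.ok.left
  have hL := t.left.ok.right.symm
  obtain ⟨rfl, rfl, rfl⟩ := hC.twoE
  obtain ⟨rfl, rfl, hle⟩ := hk.two hL.zr t.left.ok.ne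
  cases ll
  · exact absurd rfl hle
  · exact b4c_of (tuseC hK Bx ld4 t o4_1c_2_2e_k2a mn mn mn
      (l4_two_of hl) (hK.inH hO k5as_ok) (hK.inH hN k3es_ok)
      (aOkH t rfl (kl_a t (hK.inH hL k2aa_ok))) (dOk hK t rfl OR.e)) rg
      (by norm_num) (by norm_num) (by norm_num) (by norm_num)
  · exact absurd (hL.zl rfl) (by norm_num)
  · exact b4c_of (tuseC hK Bx ld4 t o4_1c_2_2e_k2s mn mn mn
      (l4_two_of hl) (hK.inH hO k5as_ok) (hK.inH hN k3es_ok)
      (aOkH t rfl (kl_a t (hK.inH hL k3as_ok))) (dOk hK t rfl OR.e)) rg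
      (by norm_num) (by norm_num) (by norm_num) (by norm_num)

theorem q4_twoE_twoE {s : Bool} (t : RDt K 4 l x dl ll dr rr w kl kr) (hC : Bh x dr rr .twoE)
    (hk : Oh l dl ll .twoE s)
    (hl : (r4 false .twoE s).In (yH l (RR w kl) (Complex.cos w)) (zeta w))
    (rg : Rg (yH x (RR w kr) (Complex.cos w)) (zeta w)) :
    (rq4 .twoE .twoE s).In (yH x (RR w kr) (Complex.cos w)) (zeta w) := by
  have hN := t.right.ok.right.symm
  have hO := t.right.ok.left
  have hL := t.left.ok.right.symm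
  obtain ⟨rfl, rfl, rfl⟩ := hC.twoE
  obtain ⟨rfl, rfl, rfl⟩ := hk.twoE hL.zr t.left.ok.ne
  exact b4c_of (tuseC hK Bx ld4 t o4_1c_2e_2e_k2e mn mn mn
    (l4_twoE_of hl) (hK.inH hO k5as_ok) (hK.inH hN k3es_ok)
    (aOkH t rfl (kl_a t (hK.inH hL k2ea_ok))) (dOk hK t rfl OR.e)) rg
    (by norm_num) (by norm_num) (by norm_num) (by norm_num)

theorem q4_twoE_three {s : Bool} (t : RDt K 4 l x dl ll dr rr w kl kr) (hC : Bh x dr rr .twoE)
    (hk : Oh l dl ll .three s)
    (hl : (r4 false .three s).In (yH l (RR w kl) (Complex.cos w)) (zeta w))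
    (rg : Rg (yH x (RR w kr) (Complex.cos w)) (zeta w)) :
    (rq4 .twoE .three s).In (yH x (RR w kr) (Complex.cos w)) (zeta w) := by
  have hN := t.right.ok.right.symm
  have hO := t.right.ok.left
  have hL := t.left.ok.right.symm
  obtain ⟨rfl, rfl, rfl⟩ := hC.twoE
  obtain ⟨rfl, rfl, hle⟩ := hk.three hL.zr t.left.ok.ne
  exact b4c_of (tuseC hK Bx ld4 t o4_1c_3_2e_p mn mn mn
    (l4_three_of hl) (hK.inH hO k5as_ok) (hK.inH hN k3es_ok)
    (aPa hK t rfl) (dOk hK t rfl OR.e)) rg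
    (by norm_num) (by norm_num) (by norm_num) (by norm_num)

theorem q4_twoE_threeE {s : Bool} (t : RDt K 4 l x dl ll dr rr w kl kr) (hC : Bh x dr rr .twoE)
    (hk : Oh l dl ll .threeE s)
    (hl : (r4 false .threeE s).In (yH l (RR w kl) (Complex.cos w)) (zeta w))
    (rg : Rg (yH x (RR w kr) (Complex.cos w)) (zeta w)) :
    (rq4 .twoE .threeE s).In (yH x (RR w kr) (Complex.cos w)) (zeta w) := by
  have hN := t.right.ok.right.symm
  have hO := t.right.ok.left
  have hL := t.left.ok.right.symm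
  obtain ⟨rfl, rfl, rfl⟩ := hC.twoE
  obtain ⟨rfl, rfl, rfl⟩ := hk.threeE hL.zr t.left.ok.ne
  exact b4c_of (tuseC hK Bx ld4 t o4_1c_3e_2e_k3e mn mn mn
    (l4_threeE_of hl) (hK.inH hO k5as_ok) (hK.inH hN k3es_ok)
    (aOkH t rfl (kl_a t (hK.inH hL k3ea_ok))) (dOk hK t rfl OR.e)) rg
    (by norm_num) (by norm_num) (by norm_num) (by norm_num)

theorem q4_twoE_ringA (t : RDt K 4 l x dl ll dr rr w kl kr) (hC : Bh x dr rr .twoE)
    (hk : Oh l dl ll .ring false)
    (hl : (r4 false .ring false).In (yH l (RR w kl) (Complex.cos w)) (zeta w))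
    (rg : Rg (yH x (RR w kr) (Complex.cos w)) (zeta w)) :
    (rq4 .twoE .ring false).In (yH x (RR w kr) (Complex.cos w)) (zeta w) := by
  have hN := t.right.ok.right.symm
  have hO := t.right.ok.left
  have hL := t.left.ok.right.symm
  obtain ⟨rfl, rfl, rfl⟩ := hC.twoE
  rcases hk.ring hL.pos t.left.ok.ne with ⟨rfl, -, hl4⟩ | ⟨-, h9, -⟩
  · exact b4c_of (tuseC hK Bx ld4 t o4_1c_Z_2e_kZ mn mn mn
      (l4_ringA_of hl) (hK.inH hO k5as_ok) (hK.inH hN k3es_ok)
      (aOkH t rfl (kl_a t (in_nZa hK hL hl4))) (dOk hK t rfl OR.e)) rg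
      (by norm_num) (by norm_num) (by norm_num) (by norm_num)
  · exact absurd h9 (by decide)

theorem q4_twoE_ringZ (t : RDt K 4 l x dl ll dr rr w kl kr) (hC : Bh x dr rr .twoE)
    (hk : Oh l dl ll .ring true)
    (hl : (r4 false .ring true).In (yH l (RR w kl) (Complex.cos w)) (zeta w))
    (rg : Rg (yH x (RR w kr) (Complex.cos w)) (zeta w)) :
    (rq4 .twoE .ring true).In (yH x (RR w kr) (Complex.cos w)) (zeta w) := by
  have hN := t.right.ok.right.symm
  have hO := t.right.ok.left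
  have hL := t.left.ok.right.symm
  obtain ⟨rfl, rfl, rfl⟩ := hC.twoE
  rcases hk.ring hL.pos t.left.ok.ne with ⟨-, h9, -⟩ | ⟨rfl, -, hl4⟩
  · exact absurd h9 (by decide)
  · exact b4c_of (tuseC hK Bx ld4 t o4_1c_Zs_2e_kz mn mn mn
      (l4_ringZ_of hl) (hK.inH hO k5zs_ok) (hK.inH hN k3es_ok)
      (aOkH t rfl (kl_z t (in_nZz hK hL))) (dOk hK t rfl OR.e)) rg
      (by norm_num) (by norm_num) (by norm_num) (by norm_num)

theorem p4_one_two {s : Bool} (t : RDt K 4 l x dl ll dr rr w kl kr) (hC : Bh l dl ll .one)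
    (hk : Oh x dr rr .two s)
    (hl : (rq4 .one .two s).In (yH l (RR w kl) (Complex.cos w)) (zeta w))
    (rg : Rg (yH x (RR w kr) (Complex.cos w)) (zeta w)) :
    (rp4 .one .two s).In (yH x (RR w kr) (Complex.cos w)) (zeta w) := by
  have hN := t.right.ok.right.symm
  have hO := t.right.ok.left
  have hL := t.left.ok.right.symm
  obtain ⟨rfl, rfl, hre⟩ := hk.two hN.zr t.right.ok.ne
  cases rr
  · exact absurd rfl hre
  · rcases hC.one with ⟨rfl, rfl⟩ | ⟨rfl, rfl⟩
    · have e1 := far_s t.left.ok.right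
      subst e1
      exact b4c_of (tuseC hK Bx ld4 t p4_1a_2_k2a_u mn mn mn
        (lo4_one_two3_of hl) (hK.inH hO k4aa_ok) (hK.inH hN k2aa_ok)
        (aOkH t rfl (kl_a t (hK.inH hL k2as_ok))) (dOk hK t rfl OR.a)) rg
        (by norm_num) (by norm_num) (by norm_num) (by norm_num)
    · exact b4c_of (tuseC hK Bx ld4 t p4_1a_2_k2a_p mn mn mn
        (lo4_one_two_of hl) (hK.inH hO k5as_ok) (hK.inH hN k2aa_ok)
        (aPs hK (by norm_num) t rfl) (dOk hK t rfl OR.a)) rg
        (by norm_num) (by norm_num) (by norm_num) (by norm_num)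
  · exact absurd (hN.zl rfl) (by norm_num)
  · rcases hC.one with ⟨rfl, rfl⟩ | ⟨rfl, rfl⟩
    · have e1 := far_s t.left.ok.right
      subst e1
      exact b4c_of (tuseC hK Bx ld4 t p4_1a_2_k2s_u mn mn mn
        (lo4_one_two3_of hl) (hK.inH hO k4aa_ok) (hK.inH hN k3as_ok)
        (aOkH t rfl (kl_a t (hK.inH hL k2as_ok))) (dOk hK t rfl OR.s)) rg
        (by norm_num) (by norm_num) (by norm_num) (by norm_num)
    · exact b4c_of (tuseC hK Bx ld4 t p4_1a_2_k2s_p mn mn mn
        (lo4_one_two_of hl) (hK.inH hO k5as_ok) (hK.inH hN k3as_ok)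
        (aPs hK (by norm_num) t rfl) (dOk hK t rfl OR.s)) rg
        (by norm_num) (by norm_num) (by norm_num) (by norm_num)

theorem p4_one_twoE {s : Bool} (t : RDt K 4 l x dl ll dr rr w kl kr) (hC : Bh l dl ll .one)
    (hk : Oh x dr rr .twoE s)
    (hl : (rq4 .one .twoE s).In (yH l (RR w kl) (Complex.cos w)) (zeta w))
    (rg : Rg (yH x (RR w kr) (Complex.cos w)) (zeta w)) :
    (rp4 .one .twoE s).In (yH x (RR w kr) (Complex.cos w)) (zeta w) := by
  have hN := t.right.ok.right.symm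
  have hO := t.right.ok.left
  have hL := t.left.ok.right.symm
  obtain ⟨rfl, rfl, rfl⟩ := hk.twoE hN.zr t.right.ok.ne
  rcases hC.one with ⟨rfl, rfl⟩ | ⟨rfl, rfl⟩
  · have e1 := far_s t.left.ok.right
    subst e1
    exact b4c_of (tuseC hK Bx ld4 t p4_1a_2e_k2e_u mn mn mn
      (lo4_one_twoE_of hl) (hK.inH hO k4aa_ok) (hK.inH hN k2ea_ok)
      (aOkH t rfl (kl_a t (hK.inH hL k2as_ok))) (dOk hK t rfl OR.e)) rg
      (by norm_num) (by norm_num) (by norm_num) (by norm_num)
  · exact b4c_of (tuseC hK Bx ld4 t p4_1a_2e_k2e_p mn mn mn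
      (lo4_one_twoE_of hl) (hK.inH hO k5as_ok) (hK.inH hN k2ea_ok)
      (aPs hK (by norm_num) t rfl) (dOk hK t rfl OR.e)) rg
      (by norm_num) (by norm_num) (by norm_num) (by norm_num)

theorem p4_one_three {s : Bool} (t : RDt K 4 l x dl ll dr rr w kl kr) (hC : Bh l dl ll .one)
    (hk : Oh x dr rr .three s)
    (hl : (rq4 .one .three s).In (yH l (RR w kl) (Complex.cos w)) (zeta w))
    (rg : Rg (yH x (RR w kr) (Complex.cos w)) (zeta w)) :
    (rp4 .one .three s).In (yH x (RR w kr) (Complex.cos w)) (zeta w) := by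
  have hN := t.right.ok.right.symm
  have hO := t.right.ok.left
  have hL := t.left.ok.right.symm
  obtain ⟨rfl, rfl, hre⟩ := hk.three hN.zr t.right.ok.ne
  cases rr
  · exact absurd rfl hre
  · rcases hC.one with ⟨rfl, rfl⟩ | ⟨rfl, rfl⟩
    · have e1 := far_s t.left.ok.right
      subst e1
      exact b4c_of (tuseC hK Bx ld4 t p4_1a_3_k3a_u mn mn mn
        (lo4_one_three3_of hl) (hK.inH hO k4aa_ok) (hK.inH hN k3aa_ok)
        (aOkH t rfl (kl_a t (hK.inH hL k2as_ok))) (dOk hK t rfl OR.a)) rg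
        (by norm_num) (by norm_num) (by norm_num) (by norm_num)
    · exact b4c_of (tuseC hK Bx ld4 t p4_1a_3_k3a_p mn mn mn
        (lo4_one_three_of hl) (hK.inH hO k5as_ok) (hK.inH hN k3aa_ok)
        (aPs hK (by norm_num) t rfl) (dOk hK t rfl OR.a)) rg
        (by norm_num) (by norm_num) (by norm_num) (by norm_num)
  · exact absurd (hN.zl rfl) (by norm_num)
  · rcases hC.one with ⟨rfl, rfl⟩ | ⟨rfl, rfl⟩
    · have e1 := far_s t.left.ok.right
      subst e1
      exact b4c_of (tuseC hK Bx ld4 t p4_1a_3_k3s_u mn mn mn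
        (lo4_one_three3_of hl) (hK.inH hO k4aa_ok) (hK.inH hN k4as_ok)
        (aOkH t rfl (kl_a t (hK.inH hL k2as_ok))) (dOk hK t rfl OR.s)) rg
        (by norm_num) (by norm_num) (by norm_num) (by norm_num)
    · exact b4c_of (tuseC hK Bx ld4 t p4_1a_3_k3s_p mn mn mn
        (lo4_one_three_of hl) (hK.inH hO k5as_ok) (hK.inH hN k4as_ok)
        (aPs hK (by norm_num) t rfl) (dOk hK t rfl OR.s)) rg
        (by norm_num) (by norm_num) (by norm_num) (by norm_num)

theorem p4_one_threeE {s : Bool} (t : RDt K 4 l x dl ll dr rr w kl kr) (hC : Bh l dl ll .one)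
    (hk : Oh x dr rr .threeE s)
    (hl : (rq4 .one .threeE s).In (yH l (RR w kl) (Complex.cos w)) (zeta w))
    (rg : Rg (yH x (RR w kr) (Complex.cos w)) (zeta w)) :
    (rp4 .one .threeE s).In (yH x (RR w kr) (Complex.cos w)) (zeta w) := by
  have hN := t.right.ok.right.symm
  have hO := t.right.ok.left
  have hL := t.left.ok.right.symm
  obtain ⟨rfl, rfl, rfl⟩ := hk.threeE hN.zr t.right.ok.ne
  rcases hC.one with ⟨rfl, rfl⟩ | ⟨rfl, rfl⟩
  · have e1 := far_s t.left.ok.right
    subst e1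
    exact b4c_of (tuseC hK Bx ld4 t p4_1a_3e_k3e_u mn mn mn
      (lo4_one_threeE_of hl) (hK.inH hO k4aa_ok) (hK.inH hN k3ea_ok)
      (aOkH t rfl (kl_a t (hK.inH hL k2as_ok))) (dOk hK t rfl OR.e)) rg
      (by norm_num) (by norm_num) (by norm_num) (by norm_num)
  · exact b4c_of (tuseC hK Bx ld4 t p4_1a_3e_k3e_p mn mn mn
      (lo4_one_threeE_of hl) (hK.inH hO k5as_ok) (hK.inH hN k3ea_ok)
      (aPs hK (by norm_num) t rfl) (dOk hK t rfl OR.e)) rg
      (by norm_num) (by norm_num) (by norm_num) (by norm_num)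

theorem p4_one_ringA (t : RDt K 4 l x dl ll dr rr w kl kr) (hC : Bh l dl ll .one)
    (hk : Oh x dr rr .ring false)
    (hl : (rq4 .one .ring false).In (yH l (RR w kl) (Complex.cos w)) (zeta w))
    (rg : Rg (yH x (RR w kr) (Complex.cos w)) (zeta w)) :
    (rp4 .one .ring false).In (yH x (RR w kr) (Complex.cos w)) (zeta w) := by
  have hN := t.right.ok.right.symm
  have hO := t.right.ok.left
  have hL := t.left.ok.right.symm
  rcases hk.ring hN.pos t.right.ok.ne with ⟨rfl, -, hr4⟩ | ⟨-, h9, -⟩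
  · rcases hC.one with ⟨rfl, rfl⟩ | ⟨rfl, rfl⟩
    · have e1 := far_s t.left.ok.right
      subst e1
      exact b4c_of (tuseC hK Bx ld4 t p4_1a_Z_kZ_u mn mn mn
        (lo4_one_ringA_of hl) (hK.inH hO k4aa_ok) (in_nZa hK hN hr4)
        (aOkH t rfl (kl_a t (hK.inH hL k2as_ok))) AllOk.nil) rg
        (by norm_num) (by norm_num) (by norm_num) (by norm_num)
    · exact b4c_of (tuseC hK Bx ld4 t p4_1a_Z_kZ_p mn mn mn
        (lo4_one_ringA_of hl) (hK.inH hO k5as_ok) (in_nZa hK hN hr4)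
        (aPs hK (by norm_num) t rfl) AllOk.nil) rg
        (by norm_num) (by norm_num) (by norm_num) (by norm_num)
  · exact absurd h9 (by decide)

theorem p4_one_ringZ (t : RDt K 4 l x dl ll dr rr w kl kr) (hC : Bh l dl ll .one)
    (hk : Oh x dr rr .ring true)
    (hl : (rq4 .one .ring true).In (yH l (RR w kl) (Complex.cos w)) (zeta w))
    (rg : Rg (yH x (RR w kr) (Complex.cos w)) (zeta w)) :
    (rp4 .one .ring true).In (yH x (RR w kr) (Complex.cos w)) (zeta w) := by
  have hN := t.right.ok.right.symm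
  have hO := t.right.ok.left
  have hL := t.left.ok.right.symm
  rcases hk.ring hN.pos t.right.ok.ne with ⟨-, h9, -⟩ | ⟨rfl, -, hr4⟩
  · exact absurd h9 (by decide)
  · rcases hC.one with ⟨rfl, rfl⟩ | ⟨rfl, rfl⟩
    · have e1 := far_s t.left.ok.right
      subst e1
      exact b4c_of (tuseC hK Bx ld4 t p4_1a_Zs_kz_u mn mn mn
        (lo4_one_ringZ_of hl) (hK.inH hO k4az_ok) (in_nZz hK hN)
        (aOkH t rfl (kl_a t (hK.inH hL k2as_ok))) AllOk.nil) rg
        (by norm_num) (by norm_num) (by norm_num) (by norm_num)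
    · exact b4c_of (tuseC hK Bx ld4 t p4_1a_Zs_kz_p mn mn mn
        (lo4_one_ringZ_of hl) (hK.inH hO k5zs_ok) (in_nZz hK hN)
        (aPs hK (by norm_num) t rfl) AllOk.nil) rg
        (by norm_num) (by norm_num) (by norm_num) (by norm_num)

theorem p4_two_two {s : Bool} (t : RDt K 4 l x dl ll dr rr w kl kr) (hC : Bh l dl ll .two)
    (hk : Oh x dr rr .two s)
    (hl : (rq4 .two .two s).In (yH l (RR w kl) (Complex.cos w)) (zeta w))
    (rg : Rg (yH x (RR w kr) (Complex.cos w)) (zeta w)) :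
    (rp4 .two .two s).In (yH x (RR w kr) (Complex.cos w)) (zeta w) := by
  have hN := t.right.ok.right.symm
  have hO := t.right.ok.left
  have hL := t.left.ok.right.symm
  obtain ⟨rfl, rfl, hre⟩ := hk.two hN.zr t.right.ok.ne
  cases rr
  · exact absurd rfl hre
  · obtain ⟨rfl, rfl, hle⟩ := hC.two
    exact b4c_of (tuseC hK Bx ld4 t p4_1b_2_k2a_p mn mn mn
      (lo4_two_two_of hl) (hK.inH hO k5as_ok) (hK.inH hN k2aa_ok)
      (aPs hK (by norm_num) t rfl) (dOk hK t rfl OR.a)) rg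
      (by norm_num) (by norm_num) (by norm_num) (by norm_num)
  · exact absurd (hN.zl rfl) (by norm_num)
  · obtain ⟨rfl, rfl, hle⟩ := hC.two
    exact b4c_of (tuseC hK Bx ld4 t p4_1b_2_k2s_p mn mn mn
      (lo4_two_two_of hl) (hK.inH hO k5as_ok) (hK.inH hN k3as_ok)
      (aPs hK (by norm_num) t rfl) (dOk hK t rfl OR.s)) rg
      (by norm_num) (by norm_num) (by norm_num) (by norm_num)

theorem p4_two_twoE {s : Bool} (t : RDt K 4 l x dl ll dr rr w kl kr) (hC : Bh l dl ll .two)
    (hk : Oh x dr rr .twoE s)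
    (hl : (rq4 .two .twoE s).In (yH l (RR w kl) (Complex.cos w)) (zeta w))
    (rg : Rg (yH x (RR w kr) (Complex.cos w)) (zeta w)) :
    (rp4 .two .twoE s).In (yH x (RR w kr) (Complex.cos w)) (zeta w) := by
  have hN := t.right.ok.right.symm
  have hO := t.right.ok.left
  have hL := t.left.ok.right.symm
  obtain ⟨rfl, rfl, rfl⟩ := hk.twoE hN.zr t.right.ok.ne
  obtain ⟨rfl, rfl, hle⟩ := hC.two
  exact b4c_of (tuseC hK Bx ld4 t p4_1b_2e_k2e_p mn mn mn
    (lo4_two_twoE_of hl) (hK.inH hO k5as_ok) (hK.inH hN k2ea_ok)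
    (aPs hK (by norm_num) t rfl) (dOk hK t rfl OR.e)) rg
    (by norm_num) (by norm_num) (by norm_num) (by norm_num)

theorem p4_two_three {s : Bool} (t : RDt K 4 l x dl ll dr rr w kl kr) (hC : Bh l dl ll .two)
    (hk : Oh x dr rr .three s)
    (hl : (rq4 .two .three s).In (yH l (RR w kl) (Complex.cos w)) (zeta w))
    (rg : Rg (yH x (RR w kr) (Complex.cos w)) (zeta w)) :
    (rp4 .two .three s).In (yH x (RR w kr) (Complex.cos w)) (zeta w) := by
  have hN := t.right.ok.right.symm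
  have hO := t.right.ok.left
  have hL := t.left.ok.right.symm
  obtain ⟨rfl, rfl, hre⟩ := hk.three hN.zr t.right.ok.ne
  cases rr
  · exact absurd rfl hre
  · obtain ⟨rfl, rfl, hle⟩ := hC.two
    exact b4c_of (tuseC hK Bx ld4 t p4_1b_3_k3a_p mn mn mn
      (lo4_two_three_of hl) (hK.inH hO k5as_ok) (hK.inH hN k3aa_ok)
      (aPs hK (by norm_num) t rfl) (dOk hK t rfl OR.a)) rg
      (by norm_num) (by norm_num) (by norm_num) (by norm_num)
  · exact absurd (hN.zl rfl) (by norm_num)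
  · obtain ⟨rfl, rfl, hle⟩ := hC.two
    exact b4c_of (tuseC hK Bx ld4 t p4_1b_3_k3s_p mn mn mn
      (lo4_two_three_of hl) (hK.inH hO k5as_ok) (hK.inH hN k4as_ok)
      (aPs hK (by norm_num) t rfl) (dOk hK t rfl OR.s)) rg
      (by norm_num) (by norm_num) (by norm_num) (by norm_num)

theorem p4_two_threeE {s : Bool} (t : RDt K 4 l x dl ll dr rr w kl kr) (hC : Bh l dl ll .two)
    (hk : Oh x dr rr .threeE s)
    (hl : (rq4 .two .threeE s).In (yH l (RR w kl) (Complex.cos w)) (zeta w))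
    (rg : Rg (yH x (RR w kr) (Complex.cos w)) (zeta w)) :
    (rp4 .two .threeE s).In (yH x (RR w kr) (Complex.cos w)) (zeta w) := by
  have hN := t.right.ok.right.symm
  have hO := t.right.ok.left
  have hL := t.left.ok.right.symm
  obtain ⟨rfl, rfl, rfl⟩ := hk.threeE hN.zr t.right.ok.ne
  obtain ⟨rfl, rfl, hle⟩ := hC.two
  exact b4c_of (tuseC hK Bx ld4 t p4_1b_3e_k3e_p mn mn mn
    (lo4_two_threeE_of hl) (hK.inH hO k5as_ok) (hK.inH hN k3ea_ok)
    (aPs hK (by norm_num) t rfl) (dOk hK t rfl OR.e)) rg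
    (by norm_num) (by norm_num) (by norm_num) (by norm_num)

theorem p4_two_ringA (t : RDt K 4 l x dl ll dr rr w kl kr) (hC : Bh l dl ll .two)
    (hk : Oh x dr rr .ring false)
    (hl : (rq4 .two .ring false).In (yH l (RR w kl) (Complex.cos w)) (zeta w))
    (rg : Rg (yH x (RR w kr) (Complex.cos w)) (zeta w)) :
    (rp4 .two .ring false).In (yH x (RR w kr) (Complex.cos w)) (zeta w) := by
  have hN := t.right.ok.right.symm
  have hO := t.right.ok.left
  have hL := t.left.ok.right.symm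
  rcases hk.ring hN.pos t.right.ok.ne with ⟨rfl, -, hr4⟩ | ⟨-, h9, -⟩
  · obtain ⟨rfl, rfl, hle⟩ := hC.two
    exact b4c_of (tuseC hK Bx ld4 t p4_1b_Z_kZ_p mn mn mn
      (lo4_two_ringA_of hl) (hK.inH hO k5as_ok) (in_nZa hK hN hr4)
      (aPs hK (by norm_num) t rfl) AllOk.nil) rg
      (by norm_num) (by norm_num) (by norm_num) (by norm_num)
  · exact absurd h9 (by decide)

theorem p4_two_ringZ (t : RDt K 4 l x dl ll dr rr w kl kr) (hC : Bh l dl ll .two)
    (hk : Oh x dr rr .ring true)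
    (hl : (rq4 .two .ring true).In (yH l (RR w kl) (Complex.cos w)) (zeta w))
    (rg : Rg (yH x (RR w kr) (Complex.cos w)) (zeta w)) :
    (rp4 .two .ring true).In (yH x (RR w kr) (Complex.cos w)) (zeta w) := by
  have hN := t.right.ok.right.symm
  have hO := t.right.ok.left
  have hL := t.left.ok.right.symm
  rcases hk.ring hN.pos t.right.ok.ne with ⟨-, h9, -⟩ | ⟨rfl, -, hr4⟩
  · exact absurd h9 (by decide)
  · obtain ⟨rfl, rfl, hle⟩ := hC.two
    exact b4c_of (tuseC hK Bx ld4 t p4_1b_Zs_kz_p mn mn mn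
      (lo4_two_ringZ_of hl) (hK.inH hO k5zs_ok) (in_nZz hK hN)
      (aPs hK (by norm_num) t rfl) AllOk.nil) rg
      (by norm_num) (by norm_num) (by norm_num) (by norm_num)

theorem p4_twoE_two {s : Bool} (t : RDt K 4 l x dl ll dr rr w kl kr) (hC : Bh l dl ll .twoE)
    (hk : Oh x dr rr .two s)
    (hl : (rq4 .twoE .two s).In (yH l (RR w kl) (Complex.cos w)) (zeta w))
    (rg : Rg (yH x (RR w kr) (Complex.cos w)) (zeta w)) :
    (rp4 .twoE .two s).In (yH x (RR w kr) (Complex.cos w)) (zeta w) := by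
  have hN := t.right.ok.right.symm
  have hO := t.right.ok.left
  have hL := t.left.ok.right.symm
  obtain ⟨rfl, rfl, hre⟩ := hk.two hN.zr t.right.ok.ne
  cases rr
  · exact absurd rfl hre
  · obtain ⟨rfl, rfl, rfl⟩ := hC.twoE
    exact b4c_of (tuseC hK Bx ld4 t p4_1c_2_k2a_2e mn mn mn
      (lo4_twoE_two_of hl) (hK.inH hO k5as_ok) (hK.inH hN k2aa_ok)
      (aOkH t rfl (kl_s t (hK.inH hL k3es_ok))) (dOk hK t rfl OR.a)) rg
      (by norm_num) (by norm_num) (by norm_num) (by norm_num)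
  · exact absurd (hN.zl rfl) (by norm_num)
  · obtain ⟨rfl, rfl, rfl⟩ := hC.twoE
    exact b4c_of (tuseC hK Bx ld4 t p4_1c_2_k2s_2e mn mn mn
      (lo4_twoE_two_of hl) (hK.inH hO k5as_ok) (hK.inH hN k3as_ok)
      (aOkH t rfl (kl_s t (hK.inH hL k3es_ok))) (dOk hK t rfl OR.s)) rg
      (by norm_num) (by norm_num) (by norm_num) (by norm_num)

theorem p4_twoE_twoE {s : Bool} (t : RDt K 4 l x dl ll dr rr w kl kr) (hC : Bh l dl ll .twoE)
    (hk : Oh x dr rr .twoE s)
    (hl : (rq4 .twoE .twoE s).In (yH l (RR w kl) (Complex.cos w)) (zeta w))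
    (rg : Rg (yH x (RR w kr) (Complex.cos w)) (zeta w)) :
    (rp4 .twoE .twoE s).In (yH x (RR w kr) (Complex.cos w)) (zeta w) := by
  have hN := t.right.ok.right.symm
  have hO := t.right.ok.left
  have hL := t.left.ok.right.symm
  obtain ⟨rfl, rfl, rfl⟩ := hk.twoE hN.zr t.right.ok.ne
  obtain ⟨rfl, rfl, rfl⟩ := hC.twoE
  exact b4c_of (tuseC hK Bx ld4 t p4_1c_2e_k2e_2e mn mn mn
    (lo4_twoE_twoE_of hl) (hK.inH hO k5as_ok) (hK.inH hN k2ea_ok)
    (aOkH t rfl (kl_s t (hK.inH hL k3es_ok))) (dOk hK t rfl OR.e)) rg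
    (by norm_num) (by norm_num) (by norm_num) (by norm_num)

theorem p4_twoE_three {s : Bool} (t : RDt K 4 l x dl ll dr rr w kl kr) (hC : Bh l dl ll .twoE)
    (hk : Oh x dr rr .three s)
    (hl : (rq4 .twoE .three s).In (yH l (RR w kl) (Complex.cos w)) (zeta w))
    (rg : Rg (yH x (RR w kr) (Complex.cos w)) (zeta w)) :
    (rp4 .twoE .three s).In (yH x (RR w kr) (Complex.cos w)) (zeta w) := by
  have hN := t.right.ok.right.symm
  have hO := t.right.ok.left
  have hL := t.left.ok.right.symm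
  obtain ⟨rfl, rfl, hre⟩ := hk.three hN.zr t.right.ok.ne
  cases rr
  · exact absurd rfl hre
  · obtain ⟨rfl, rfl, rfl⟩ := hC.twoE
    exact b4c_of (tuseC hK Bx ld4 t p4_1c_3_k3a_2e mn mn mn
      (lo4_twoE_three_of hl) (hK.inH hO k5as_ok) (hK.inH hN k3aa_ok)
      (aOkH t rfl (kl_s t (hK.inH hL k3es_ok))) (dOk hK t rfl OR.a)) rg
      (by norm_num) (by norm_num) (by norm_num) (by norm_num)
  · exact absurd (hN.zl rfl) (by norm_num)
  · obtain ⟨rfl, rfl, rfl⟩ := hC.twoE
    exact b4c_of (tuseC hK Bx ld4 t p4_1c_3_k3s_2e mn mn mn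
      (lo4_twoE_three_of hl) (hK.inH hO k5as_ok) (hK.inH hN k4as_ok)
      (aOkH t rfl (kl_s t (hK.inH hL k3es_ok))) (dOk hK t rfl OR.s)) rg
      (by norm_num) (by norm_num) (by norm_num) (by norm_num)

theorem p4_twoE_threeE {s : Bool} (t : RDt K 4 l x dl ll dr rr w kl kr) (hC : Bh l dl ll .twoE)
    (hk : Oh x dr rr .threeE s)
    (hl : (rq4 .twoE .threeE s).In (yH l (RR w kl) (Complex.cos w)) (zeta w))
    (rg : Rg (yH x (RR w kr) (Complex.cos w)) (zeta w)) :
    (rp4 .twoE .threeE s).In (yH x (RR w kr) (Complex.cos w)) (zeta w) := by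
  have hN := t.right.ok.right.symm
  have hO := t.right.ok.left
  have hL := t.left.ok.right.symm
  obtain ⟨rfl, rfl, rfl⟩ := hk.threeE hN.zr t.right.ok.ne
  obtain ⟨rfl, rfl, rfl⟩ := hC.twoE
  exact b4c_of (tuseC hK Bx ld4 t p4_1c_3e_k3e_2e mn mn mn
    (lo4_twoE_threeE_of hl) (hK.inH hO k5as_ok) (hK.inH hN k3ea_ok)
    (aOkH t rfl (kl_s t (hK.inH hL k3es_ok))) (dOk hK t rfl OR.e)) rg
    (by norm_num) (by norm_num) (by norm_num) (by norm_num)

theorem p4_twoE_ringA (t : RDt K 4 l x dl ll dr rr w kl kr) (hC : Bh l dl ll .twoE)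
    (hk : Oh x dr rr .ring false)
    (hl : (rq4 .twoE .ring false).In (yH l (RR w kl) (Complex.cos w)) (zeta w))
    (rg : Rg (yH x (RR w kr) (Complex.cos w)) (zeta w)) :
    (rp4 .twoE .ring false).In (yH x (RR w kr) (Complex.cos w)) (zeta w) := by
  have hN := t.right.ok.right.symm
  have hO := t.right.ok.left
  have hL := t.left.ok.right.symm
  rcases hk.ring hN.pos t.right.ok.ne with ⟨rfl, -, hr4⟩ | ⟨-, h9, -⟩
  · obtain ⟨rfl, rfl, rfl⟩ := hC.twoE
    exact b4c_of (tuseC hK Bx ld4 t p4_1c_Z_kZ_2e mn mn mn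
      (lo4_twoE_ringA_of hl) (hK.inH hO k5as_ok) (in_nZa hK hN hr4)
      (aOkH t rfl (kl_s t (hK.inH hL k3es_ok))) AllOk.nil) rg
      (by norm_num) (by norm_num) (by norm_num) (by norm_num)
  · exact absurd h9 (by decide)

theorem p4_twoE_ringZ (t : RDt K 4 l x dl ll dr rr w kl kr) (hC : Bh l dl ll .twoE)
    (hk : Oh x dr rr .ring true)
    (hl : (rq4 .twoE .ring true).In (yH l (RR w kl) (Complex.cos w)) (zeta w))
    (rg : Rg (yH x (RR w kr) (Complex.cos w)) (zeta w)) :
    (rp4 .twoE .ring true).In (yH x (RR w kr) (Complex.cos w)) (zeta w) := by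
  have hN := t.right.ok.right.symm
  have hO := t.right.ok.left
  have hL := t.left.ok.right.symm
  rcases hk.ring hN.pos t.right.ok.ne with ⟨-, h9, -⟩ | ⟨rfl, -, hr4⟩
  · exact absurd h9 (by decide)
  · obtain ⟨rfl, rfl, rfl⟩ := hC.twoE
    exact b4c_of (tuseC hK Bx ld4 t p4_1c_Zs_kz_2e mn mn mn
      (lo4_twoE_ringZ_of hl) (hK.inH hO k5zs_ok) (in_nZz hK hN)
      (aOkH t rfl (kl_s t (hK.inH hL k3es_ok))) AllOk.nil) rg
      (by norm_num) (by norm_num) (by norm_num) (by norm_num)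

/-- the hinge next to the digit `1` -/
theorem rq4_of {C k : Cl} {s : Bool} (t : RDt K 4 l x dl ll dr rr w kl kr) (hC : Bh x dr rr C)
    (hk : Oh l dl ll k s) (hl : (r4 false k s).In (yH l (RR w kl) (Complex.cos w)) (zeta w))
    (rg : Rg (yH x (RR w kr) (Complex.cos w)) (zeta w)) :
    (rq4 C k s).In (yH x (RR w kr) (Complex.cos w)) (zeta w) := by
  rcases hC.cases t.right (by norm_num) with rfl | rfl | rfl
  · cases k
    · exact q4_one_one hK Bx t hC hk hl rg
    · exact q4_one_two hK Bx t hC hk hl rg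
    · exact q4_one_twoE hK Bx t hC hk hl rg
    · exact q4_one_three hK Bx t hC hk hl rg
    · exact q4_one_threeE hK Bx t hC hk hl rg
    · cases s
      · exact q4_one_ringA hK Bx t hC hk hl rg
      · exact q4_one_ringZ hK Bx t hC hk hl rg
  · cases k
    · exact q4_two_one hK Bx t hC hk hl rg
    · exact q4_two_two hK Bx t hC hk hl rg
    · exact q4_two_twoE hK Bx t hC hk hl rg
    · exact q4_two_three hK Bx t hC hk hl rg
    · exact q4_two_threeE hK Bx t hC hk hl rg
    · cases s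
      · exact q4_two_ringA hK Bx t hC hk hl rg
      · exact q4_two_ringZ hK Bx t hC hk hl rg
  · cases k
    · exact q4_twoE_one hK Bx t hC hk hl rg
    · exact q4_twoE_two hK Bx t hC hk hl rg
    · exact q4_twoE_twoE hK Bx t hC hk hl rg
    · exact q4_twoE_three hK Bx t hC hk hl rg
    · exact q4_twoE_threeE hK Bx t hC hk hl rg
    · cases s
      · exact q4_twoE_ringA hK Bx t hC hk hl rg
      · exact q4_twoE_ringZ hK Bx t hC hk hl rg

/-- the other hinge -/
theorem rp4_of {C k : Cl} {s : Bool} (t : RDt K 4 l x dl ll dr rr w kl kr) (hC : Bh l dl ll C)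
    (hk : Oh x dr rr k s) (hk1 : k ≠ .one)
    (hl : (rq4 C k s).In (yH l (RR w kl) (Complex.cos w)) (zeta w))
    (rg : Rg (yH x (RR w kr) (Complex.cos w)) (zeta w)) :
    (rp4 C k s).In (yH x (RR w kr) (Complex.cos w)) (zeta w) := by
  rcases hC.cases t.left (by norm_num) with rfl | rfl | rfl
  · cases k
    · exact absurd rfl hk1
    · exact p4_one_two hK Bx t hC hk hl rg
    · exact p4_one_twoE hK Bx t hC hk hl rg
    · exact p4_one_three hK Bx t hC hk hl rg
    · exact p4_one_threeE hK Bx t hC hk hl rg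
    · cases s
      · exact p4_one_ringA hK Bx t hC hk hl rg
      · exact p4_one_ringZ hK Bx t hC hk hl rg
  · cases k
    · exact absurd rfl hk1
    · exact p4_two_two hK Bx t hC hk hl rg
    · exact p4_two_twoE hK Bx t hC hk hl rg
    · exact p4_two_three hK Bx t hC hk hl rg
    · exact p4_two_threeE hK Bx t hC hk hl rg
    · cases s
      · exact p4_two_ringA hK Bx t hC hk hl rg
      · exact p4_two_ringZ hK Bx t hC hk hl rg
  · cases k
    · exact absurd rfl hk1
    · exact p4_twoE_two hK Bx t hC hk hl rg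
    · exact p4_twoE_twoE hK Bx t hC hk hl rg
    · exact p4_twoE_three hK Bx t hC hk hl rg
    · exact p4_twoE_threeE hK Bx t hC hk hl rg
    · cases s
      · exact p4_twoE_ringA hK Bx t hC hk hl rg
      · exact p4_twoE_ringZ hK Bx t hC hk hl rg

end

end

end Pool.Agent.Work.MP_b30479_gtS.G2.CN.TD

end

section

/-!
# Windows of the rings with four crossings of a word next to a digit `1`
-/

namespace Pool.Agent.Work.MP_b30479_gtS.G2.CN.TD

open Complex SR
open scoped ComplexConjugate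

noncomputable section

section
variable {M : ℕ} {b : Fin (M + 1) → ℤ} {w : ℕ → ℂ}
variable (hb : ClassW b) (F : RingFacts) (hw : Sol b w) (hM : 1 ≤ M) {K : KFam} (hK : KOK K)
  (hS : Snd K b w) (Bx : BoxRows K)
include hb F hw hM hK hS Bx

/-- **Windows of the rings with four crossings of a word next to a digit `1`.** -/
theorem locRw4_of : LocRw 4 rq4 rp4 re4 b (zsW b w) :=
  locRw_mk hb F hw hM hS Bx (by norm_num) (fun _ => locR4_of hb F hw hM hK hS Bx)
    (fun t hC hk h4 _ rg => rq4_of hK Bx t hC hk (h4 rfl) rg)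
    (fun t hC hk hk1 hl rg => rp4_of hK Bx t hC hk hk1 hl rg) (fun t hC rg => re4_of hK t hC rg)

end

end

end Pool.Agent.Work.MP_b30479_gtS.G2.CN.TD

end

section

/-!
# Conditions from the boxes, part 4
-/

namespace Pool.Agent.Work.MP_b30479_gtS.G2.CN.TD

open Complex SR

noncomputable section

lemma lo5_two_twoE_of {s : Bool} {y z : ℂ} (h : (rq5 .two .twoE s).In y z) : ∀ g ∈ lo5_two_twoE, g.G y := by
  have a0 := h.x0
  have a1 := h.x1
  have a2 := h.t0
  have a3 := h.t1
  norm_num [rq5, mk4] at a0 a1 a2 a3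
  exact li_box (by norm_num; linarith) (by norm_num; linarith) (by norm_num; linarith) (by norm_num; linarith) (by norm_num; linarith)

lemma lo6_one_ringA_of {y z : ℂ} (h : (rq6 .one .ring false).In y z) : ∀ g ∈ lo6_one_ringA, g.G y := by
  have a0 := h.x0
  have a1 := h.x1
  have a2 := h.t0
  have a3 := h.t1
  norm_num [rq6, mk4] at a0 a1 a2 a3
  exact li_box (by norm_num; linarith) (by norm_num; linarith) (by norm_num; linarith) (by norm_num; linarith) (by norm_num; linarith)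

lemma lo6_one_ringZ_of {y z : ℂ} (h : (rq6 .one .ring true).In y z) : ∀ g ∈ lo6_one_ringZ, g.G y := by
  have a0 := h.x0
  have a1 := h.x1
  have a2 := h.t0
  have a3 := h.t1
  norm_num [rq6, mk4] at a0 a1 a2 a3
  exact li_box (by norm_num; linarith) (by norm_num; linarith) (by norm_num; linarith) (by norm_num; linarith) (by norm_num; linarith)

lemma lo6_one_three_of {s : Bool} {y z : ℂ} (h : (rq6 .one .three s).In y z) : ∀ g ∈ lo6_one_three, g.G y := by
  have a0 := h.x0
  have a1 := h.x1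
  have a2 := h.t0
  have a3 := h.t1
  norm_num [rq6, mk4] at a0 a1 a2 a3
  exact li_box (by norm_num; linarith) (by norm_num; linarith) (by norm_num; linarith) (by norm_num; linarith) (by norm_num; linarith)

lemma lo6_one_threeE_of {s : Bool} {y z : ℂ} (h : (rq6 .one .threeE s).In y z) : ∀ g ∈ lo6_one_threeE, g.G y := by
  have a0 := h.x0
  have a1 := h.x1
  have a2 := h.t0
  have a3 := h.t1
  norm_num [rq6, mk4] at a0 a1 a2 a3
  exact li_box (by norm_num; linarith) (by norm_num; linarith) (by norm_num; linarith) (by norm_num; linarith) (by norm_num; linarith)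

lemma lo6_one_two_of {s : Bool} {y z : ℂ} (h : (rq6 .one .two s).In y z) : ∀ g ∈ lo6_one_two, g.G y := by
  have a0 := h.x0
  have a1 := h.x1
  have a2 := h.t0
  have a3 := h.t1
  norm_num [rq6, mk4] at a0 a1 a2 a3
  exact li_box (by norm_num; linarith) (by norm_num; linarith) (by norm_num; linarith) (by norm_num; linarith) (by norm_num; linarith)

lemma lo6_one_twoE_of {s : Bool} {y z : ℂ} (h : (rq6 .one .twoE s).In y z) : ∀ g ∈ lo6_one_twoE, g.G y := by
  have a0 := h.x0
  have a1 := h.x1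
  have a2 := h.t0
  have a3 := h.t1
  norm_num [rq6, mk4] at a0 a1 a2 a3
  exact li_box (by norm_num; linarith) (by norm_num; linarith) (by norm_num; linarith) (by norm_num; linarith) (by norm_num; linarith)

lemma lo6_twoE_ringA_of {y z : ℂ} (h : (rq6 .twoE .ring false).In y z) : ∀ g ∈ lo6_twoE_ringA, g.G y := by
  have a0 := h.x0
  have a1 := h.x1
  have a2 := h.t0
  have a3 := h.t1
  norm_num [rq6, mk4] at a0 a1 a2 a3
  exact li_box (by norm_num; linarith) (by norm_num; linarith) (by norm_num; linarith) (by norm_num; linarith) (by norm_num; linarith)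

lemma lo6_twoE_ringZ_of {y z : ℂ} (h : (rq6 .twoE .ring true).In y z) : ∀ g ∈ lo6_twoE_ringZ, g.G y := by
  have a0 := h.x0
  have a1 := h.x1
  have a2 := h.t0
  have a3 := h.t1
  norm_num [rq6, mk4] at a0 a1 a2 a3
  exact li_box (by norm_num; linarith) (by norm_num; linarith) (by norm_num; linarith) (by norm_num; linarith) (by norm_num; linarith)

lemma lo6_twoE_three_of {s : Bool} {y z : ℂ} (h : (rq6 .twoE .three s).In y z) : ∀ g ∈ lo6_twoE_three, g.G y := by
  have a0 := h.x0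
  have a1 := h.x1
  have a2 := h.t0
  have a3 := h.t1
  norm_num [rq6, mk4] at a0 a1 a2 a3
  exact li_box (by norm_num; linarith) (by norm_num; linarith) (by norm_num; linarith) (by norm_num; linarith) (by norm_num; linarith)

lemma lo6_twoE_threeE_of {s : Bool} {y z : ℂ} (h : (rq6 .twoE .threeE s).In y z) : ∀ g ∈ lo6_twoE_threeE, g.G y := by
  have a0 := h.x0
  have a1 := h.x1
  have a2 := h.t0
  have a3 := h.t1
  norm_num [rq6, mk4] at a0 a1 a2 a3
  exact li_box (by norm_num; linarith) (by norm_num; linarith) (by norm_num; linarith) (by norm_num; linarith) (by norm_num; linarith)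

lemma lo6_twoE_two_of {s : Bool} {y z : ℂ} (h : (rq6 .twoE .two s).In y z) : ∀ g ∈ lo6_twoE_two, g.G y := by
  have a0 := h.x0
  have a1 := h.x1
  have a2 := h.t0
  have a3 := h.t1
  norm_num [rq6, mk4] at a0 a1 a2 a3
  exact li_box (by norm_num; linarith) (by norm_num; linarith) (by norm_num; linarith) (by norm_num; linarith) (by norm_num; linarith)

lemma lo6_twoE_twoE_of {s : Bool} {y z : ℂ} (h : (rq6 .twoE .twoE s).In y z) : ∀ g ∈ lo6_twoE_twoE, g.G y := by
  have a0 := h.x0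
  have a1 := h.x1
  have a2 := h.t0
  have a3 := h.t1
  norm_num [rq6, mk4] at a0 a1 a2 a3
  exact li_box (by norm_num; linarith) (by norm_num; linarith) (by norm_num; linarith) (by norm_num; linarith) (by norm_num; linarith)

lemma lo6_two_ringA_of {y z : ℂ} (h : (rq6 .two .ring false).In y z) : ∀ g ∈ lo6_two_ringA, g.G y := by
  have a0 := h.x0
  have a1 := h.x1
  have a2 := h.t0
  have a3 := h.t1
  norm_num [rq6, mk4] at a0 a1 a2 a3
  exact li_box (by norm_num; linarith) (by norm_num; linarith) (by norm_num; linarith) (by norm_num; linarith) (by norm_num; linarith)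

lemma lo6_two_ringZ_of {y z : ℂ} (h : (rq6 .two .ring true).In y z) : ∀ g ∈ lo6_two_ringZ, g.G y := by
  have a0 := h.x0
  have a1 := h.x1
  have a2 := h.t0
  have a3 := h.t1
  norm_num [rq6, mk4] at a0 a1 a2 a3
  exact li_box (by norm_num; linarith) (by norm_num; linarith) (by norm_num; linarith) (by norm_num; linarith) (by norm_num; linarith)

lemma lo6_two_three_of {s : Bool} {y z : ℂ} (h : (rq6 .two .three s).In y z) : ∀ g ∈ lo6_two_three, g.G y := by
  have a0 := h.x0
  have a1 := h.x1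
  have a2 := h.t0
  have a3 := h.t1
  norm_num [rq6, mk4] at a0 a1 a2 a3
  exact li_box (by norm_num; linarith) (by norm_num; linarith) (by norm_num; linarith) (by norm_num; linarith) (by norm_num; linarith)

lemma lo6_two_threeE_of {s : Bool} {y z : ℂ} (h : (rq6 .two .threeE s).In y z) : ∀ g ∈ lo6_two_threeE, g.G y := by
  have a0 := h.x0
  have a1 := h.x1
  have a2 := h.t0
  have a3 := h.t1
  norm_num [rq6, mk4] at a0 a1 a2 a3
  exact li_box (by norm_num; linarith) (by norm_num; linarith) (by norm_num; linarith) (by norm_num; linarith) (by norm_num; linarith)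

lemma lo6_two_two_of {s : Bool} {y z : ℂ} (h : (rq6 .two .two s).In y z) : ∀ g ∈ lo6_two_two, g.G y := by
  have a0 := h.x0
  have a1 := h.x1
  have a2 := h.t0
  have a3 := h.t1
  norm_num [rq6, mk4] at a0 a1 a2 a3
  exact li_box (by norm_num; linarith) (by norm_num; linarith) (by norm_num; linarith) (by norm_num; linarith) (by norm_num; linarith)

lemma lo6_two_twoE_of {s : Bool} {y z : ℂ} (h : (rq6 .two .twoE s).In y z) : ∀ g ∈ lo6_two_twoE, g.G y := by
  have a0 := h.x0
  have a1 := h.x1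
  have a2 := h.t0
  have a3 := h.t1
  norm_num [rq6, mk4] at a0 a1 a2 a3
  exact li_box (by norm_num; linarith) (by norm_num; linarith) (by norm_num; linarith) (by norm_num; linarith) (by norm_num; linarith)

end

end Pool.Agent.Work.MP_b30479_gtS.G2.CN.TD

end

section

/-!
# Rings with 5 crossings next to a digit `1`
-/

namespace Pool.Agent.Work.MP_b30479_gtS.G2.CN.TD

open Complex SR

noncomputable section

section
variable {K : KFam} (hK : KOK K) (Bx : BoxRows K) {l x : SK} {dl : ℕ} {ll : SK} {dr : ℕ} {rr : SK}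
  {w kl kr : ℂ}
include hK Bx

theorem q5_one_one {s : Bool} (t : RDt K 5 l x dl ll dr rr w kl kr) (hC : Bh x dr rr .one)
    (hk : Oh l dl ll .one s)
    (hl : (hbox .ring .one s).In (yH l (RR w kl) (Complex.cos w)))
    (rg : Rg (yH x (RR w kr) (Complex.cos w)) (zeta w)) :
    (rq5 .one .one s).In (yH x (RR w kr) (Complex.cos w)) (zeta w) := by
  have hN := t.right.ok.right.symm
  have hO := t.right.ok.left
  have hL := t.left.ok.right.symm
  rcases hC.one with ⟨rfl, rfl⟩ | ⟨rfl, rfl⟩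
  · have e2 := far_s t.right.ok.right
    subst e2
    rcases hk.one hL.zr t.left.ok.ne with ⟨rfl, rfl⟩ | rfl
    · have e1 := far_s t.left.ok.right
      subst e1
      exact b4c_of (tuseC hK Bx ld5 t o5_1a_1_u_u mn mn mn
        (lh_one_of hl) (hK.inH hO k5aa_ok) (hK.inH hN k2as_ok)
        (aOkH t rfl (kl_a t (hK.inH hL k2as_ok))) (dOk hK t rfl (OR.st (by decide)))) rg
        (by norm_num) (by norm_num) (by norm_num) (by norm_num)
    · exact b4c_of (tuseC hK Bx ld5 t o5_1a_1_u_xs mn mn mn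
        (lh_one_of hl) (hK.inH hO k6as_ok) (hK.inH hN k2as_ok)
        AllOk.nil (dOk hK t rfl (OR.st (by decide)))) rg
        (by norm_num) (by norm_num) (by norm_num) (by norm_num)
  · cases rr
    · exact absurd rfl (hN.one rfl).2.1
    · rcases hk.one hL.zr t.left.ok.ne with ⟨rfl, rfl⟩ | rfl
      · have e1 := far_s t.left.ok.right
        subst e1
        exact b4c_of (tuseC hK Bx ld5 t o5_1a_1_1a_xa mn mn mn
          (lh_one_of hl) (hK.inH hO k6as_ok) (hK.inH hN k2as_ok)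
          AllOk.nil (dOk hK t rfl (OR.a1 (by norm_num)))) rg
          (by norm_num) (by norm_num) (by norm_num) (by norm_num)
      · exact b4c_of (tuseC hK Bx ld5 t o5_1a_1_1a_xs mn mn mn
          (lh_one_of hl) (hK.inH hO k7ss_ok) (hK.inH hN k2as_ok)
          AllOk.nil (dOk hK t rfl (OR.a1 (by norm_num)))) rg
          (by norm_num) (by norm_num) (by norm_num) (by norm_num)
    · exact absurd (hN.zl rfl) (by norm_num)
    · rcases hk.one hL.zr t.left.ok.ne with ⟨rfl, rfl⟩ | rfl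
      · have e1 := far_s t.left.ok.right
        subst e1
        exact b4c_of (tuseC hK Bx ld5 t o5_1a_1_1s_xa mn mn mn
          (lh_one_of hl) (hK.inH hO k6as_ok) (hK.inH hN k3ss_ok)
          AllOk.nil (dOk hK t rfl OR.s)) rg
          (by norm_num) (by norm_num) (by norm_num) (by norm_num)
      · exact b4c_of (tuseC hK Bx ld5 t o5_1a_1_1s_xs mn mn mn
          (lh_one_of hl) (hK.inH hO k7ss_ok) (hK.inH hN k3ss_ok)
          AllOk.nil (dOk hK t rfl OR.s)) rg
          (by norm_num) (by norm_num) (by norm_num) (by norm_num)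

theorem q5_one_two {s : Bool} (t : RDt K 5 l x dl ll dr rr w kl kr) (hC : Bh x dr rr .one)
    (hk : Oh l dl ll .two s)
    (hl : (hbox .ring .two s).In (yH l (RR w kl) (Complex.cos w)))
    (rg : Rg (yH x (RR w kr) (Complex.cos w)) (zeta w)) :
    (rq5 .one .two s).In (yH x (RR w kr) (Complex.cos w)) (zeta w) := by
  have hN := t.right.ok.right.symm
  have hO := t.right.ok.left
  have hL := t.left.ok.right.symm
  rcases hC.one with ⟨rfl, rfl⟩ | ⟨rfl, rfl⟩
  · have e2 := far_s t.right.ok.right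
    subst e2
    obtain ⟨rfl, rfl, hle⟩ := hk.two hL.zr t.left.ok.ne
    exact b4c_of (tuseC hK Bx ld5 t o5_1a_2_u_p mn mn mn
      (lh_two_of hl) (hK.inH hO k5aa_ok) (hK.inH hN k2as_ok)
      (aPa hK t rfl) (dOk hK t rfl (OR.st (by decide)))) rg
      (by norm_num) (by norm_num) (by norm_num) (by norm_num)
  · cases rr
    · exact absurd rfl (hN.one rfl).2.1
    · obtain ⟨rfl, rfl, hle⟩ := hk.two hL.zr t.left.ok.ne
      exact b4c_of (tuseC hK Bx ld5 t o5_1a_2_1a_xa mn mn mn
        (lh_two_of hl) (hK.inH hO k6as_ok) (hK.inH hN k2as_ok)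
        AllOk.nil (dOk hK t rfl (OR.a1 (by norm_num)))) rg
        (by norm_num) (by norm_num) (by norm_num) (by norm_num)
    · exact absurd (hN.zl rfl) (by norm_num)
    · obtain ⟨rfl, rfl, hle⟩ := hk.two hL.zr t.left.ok.ne
      exact b4c_of (tuseC hK Bx ld5 t o5_1a_2_1s_xa mn mn mn
        (lh_two_of hl) (hK.inH hO k6as_ok) (hK.inH hN k3ss_ok)
        AllOk.nil (dOk hK t rfl OR.s)) rg
        (by norm_num) (by norm_num) (by norm_num) (by norm_num)

theorem q5_one_twoE {s : Bool} (t : RDt K 5 l x dl ll dr rr w kl kr) (hC : Bh x dr rr .one)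
    (hk : Oh l dl ll .twoE s)
    (hl : (hbox .ring .twoE s).In (yH l (RR w kl) (Complex.cos w)))
    (rg : Rg (yH x (RR w kr) (Complex.cos w)) (zeta w)) :
    (rq5 .one .twoE s).In (yH x (RR w kr) (Complex.cos w)) (zeta w) := by
  have hN := t.right.ok.right.symm
  have hO := t.right.ok.left
  have hL := t.left.ok.right.symm
  rcases hC.one with ⟨rfl, rfl⟩ | ⟨rfl, rfl⟩
  · have e2 := far_s t.right.ok.right
    subst e2
    obtain ⟨rfl, rfl, rfl⟩ := hk.twoE hL.zr t.left.ok.ne
    exact b4c_of (tuseC hK Bx ld5 t o5_1a_2e_u_k2e mn mn mn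
      (lh_twoE_of hl) (hK.inH hO k5aa_ok) (hK.inH hN k2as_ok)
      (aOkH t rfl (kl_a t (hK.inH hL k2ea_ok))) (dOk hK t rfl (OR.st (by decide)))) rg
      (by norm_num) (by norm_num) (by norm_num) (by norm_num)
  · cases rr
    · exact absurd rfl (hN.one rfl).2.1
    · obtain ⟨rfl, rfl, rfl⟩ := hk.twoE hL.zr t.left.ok.ne
      exact b4c_of (tuseC hK Bx ld5 t o5_1a_2e_1a_xa mn mn mn
        (lh_twoE_of hl) (hK.inH hO k6as_ok) (hK.inH hN k2as_ok)
        AllOk.nil (dOk hK t rfl (OR.a1 (by norm_num)))) rg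
        (by norm_num) (by norm_num) (by norm_num) (by norm_num)
    · exact absurd (hN.zl rfl) (by norm_num)
    · obtain ⟨rfl, rfl, rfl⟩ := hk.twoE hL.zr t.left.ok.ne
      exact b4c_of (tuseC hK Bx ld5 t o5_1a_2e_1s_xa mn mn mn
        (lh_twoE_of hl) (hK.inH hO k6as_ok) (hK.inH hN k3ss_ok)
        AllOk.nil (dOk hK t rfl OR.s)) rg
        (by norm_num) (by norm_num) (by norm_num) (by norm_num)

theorem q5_one_three {s : Bool} (t : RDt K 5 l x dl ll dr rr w kl kr) (hC : Bh x dr rr .one)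
    (hk : Oh l dl ll .three s)
    (hl : (hbox .ring .three s).In (yH l (RR w kl) (Complex.cos w)))
    (rg : Rg (yH x (RR w kr) (Complex.cos w)) (zeta w)) :
    (rq5 .one .three s).In (yH x (RR w kr) (Complex.cos w)) (zeta w) := by
  have hN := t.right.ok.right.symm
  have hO := t.right.ok.left
  have hL := t.left.ok.right.symm
  rcases hC.one with ⟨rfl, rfl⟩ | ⟨rfl, rfl⟩
  · have e2 := far_s t.right.ok.right
    subst e2
    obtain ⟨rfl, rfl, hle⟩ := hk.three hL.zr t.left.ok.ne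
    exact b4c_of (tuseC hK Bx ld5 t o5_1a_3_u_p mn mn mn
      (lh_three_of hl) (hK.inH hO k5aa_ok) (hK.inH hN k2as_ok)
      (aPa hK t rfl) (dOk hK t rfl (OR.st (by decide)))) rg
      (by norm_num) (by norm_num) (by norm_num) (by norm_num)
  · cases rr
    · exact absurd rfl (hN.one rfl).2.1
    · obtain ⟨rfl, rfl, hle⟩ := hk.three hL.zr t.left.ok.ne
      exact b4c_of (tuseC hK Bx ld5 t o5_1a_3_1a_xa mn mn mn
        (lh_three_of hl) (hK.inH hO k6as_ok) (hK.inH hN k2as_ok)
        AllOk.nil (dOk hK t rfl (OR.a1 (by norm_num)))) rg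
        (by norm_num) (by norm_num) (by norm_num) (by norm_num)
    · exact absurd (hN.zl rfl) (by norm_num)
    · obtain ⟨rfl, rfl, hle⟩ := hk.three hL.zr t.left.ok.ne
      exact b4c_of (tuseC hK Bx ld5 t o5_1a_3_1s_xa mn mn mn
        (lh_three_of hl) (hK.inH hO k6as_ok) (hK.inH hN k3ss_ok)
        AllOk.nil (dOk hK t rfl OR.s)) rg
        (by norm_num) (by norm_num) (by norm_num) (by norm_num)

theorem q5_one_threeE {s : Bool} (t : RDt K 5 l x dl ll dr rr w kl kr) (hC : Bh x dr rr .one)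
    (hk : Oh l dl ll .threeE s)
    (hl : (hbox .ring .threeE s).In (yH l (RR w kl) (Complex.cos w)))
    (rg : Rg (yH x (RR w kr) (Complex.cos w)) (zeta w)) :
    (rq5 .one .threeE s).In (yH x (RR w kr) (Complex.cos w)) (zeta w) := by
  have hN := t.right.ok.right.symm
  have hO := t.right.ok.left
  have hL := t.left.ok.right.symm
  rcases hC.one with ⟨rfl, rfl⟩ | ⟨rfl, rfl⟩
  · have e2 := far_s t.right.ok.right
    subst e2
    obtain ⟨rfl, rfl, rfl⟩ := hk.threeE hL.zr t.left.ok.ne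
    exact b4c_of (tuseC hK Bx ld5 t o5_1a_3e_u_k3e mn mn mn
      (lh_threeE_of hl) (hK.inH hO k5aa_ok) (hK.inH hN k2as_ok)
      (aOkH t rfl (kl_a t (hK.inH hL k3ea_ok))) (dOk hK t rfl (OR.st (by decide)))) rg
      (by norm_num) (by norm_num) (by norm_num) (by norm_num)
  · cases rr
    · exact absurd rfl (hN.one rfl).2.1
    · obtain ⟨rfl, rfl, rfl⟩ := hk.threeE hL.zr t.left.ok.ne
      exact b4c_of (tuseC hK Bx ld5 t o5_1a_3e_1a_xa mn mn mn
        (lh_threeE_of hl) (hK.inH hO k6as_ok) (hK.inH hN k2as_ok)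
        AllOk.nil (dOk hK t rfl (OR.a1 (by norm_num)))) rg
        (by norm_num) (by norm_num) (by norm_num) (by norm_num)
    · exact absurd (hN.zl rfl) (by norm_num)
    · obtain ⟨rfl, rfl, rfl⟩ := hk.threeE hL.zr t.left.ok.ne
      exact b4c_of (tuseC hK Bx ld5 t o5_1a_3e_1s_xa mn mn mn
        (lh_threeE_of hl) (hK.inH hO k6as_ok) (hK.inH hN k3ss_ok)
        AllOk.nil (dOk hK t rfl OR.s)) rg
        (by norm_num) (by norm_num) (by norm_num) (by norm_num)

theorem q5_one_ringA (t : RDt K 5 l x dl ll dr rr w kl kr) (hC : Bh x dr rr .one)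
    (hk : Oh l dl ll .ring false)
    (hl : (hbox .ring .ring false).In (yH l (RR w kl) (Complex.cos w)))
    (rg : Rg (yH x (RR w kr) (Complex.cos w)) (zeta w)) :
    (rq5 .one .ring false).In (yH x (RR w kr) (Complex.cos w)) (zeta w) := by
  have hN := t.right.ok.right.symm
  have hO := t.right.ok.left
  have hL := t.left.ok.right.symm
  rcases hC.one with ⟨rfl, rfl⟩ | ⟨rfl, rfl⟩
  · have e2 := far_s t.right.ok.right
    subst e2
    rcases hk.ring hL.pos t.left.ok.ne with ⟨rfl, -, hl4⟩ | ⟨-, h9, -⟩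
    · exact b4c_of (tuseC hK Bx ld5 t o5_1a_Z_u_kZ mn mn mn
        (lh_ringA_of hl) (hK.inH hO k5aa_ok) (hK.inH hN k2as_ok)
        (aOkH t rfl (kl_a t (in_nZa hK hL hl4))) (dOk hK t rfl (OR.st (by decide)))) rg
        (by norm_num) (by norm_num) (by norm_num) (by norm_num)
    · exact absurd h9 (by decide)
  · cases rr
    · exact absurd rfl (hN.one rfl).2.1
    · rcases hk.ring hL.pos t.left.ok.ne with ⟨rfl, -, hl4⟩ | ⟨-, h9, -⟩
      · exact b4c_of (tuseC hK Bx ld5 t o5_1a_Z_1a_xa mn mn mn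
          (lh_ringA_of hl) (hK.inH hO k6as_ok) (hK.inH hN k2as_ok)
          AllOk.nil (dOk hK t rfl (OR.a1 (by norm_num)))) rg
          (by norm_num) (by norm_num) (by norm_num) (by norm_num)
      · exact absurd h9 (by decide)
    · exact absurd (hN.zl rfl) (by norm_num)
    · rcases hk.ring hL.pos t.left.ok.ne with ⟨rfl, -, hl4⟩ | ⟨-, h9, -⟩
      · exact b4c_of (tuseC hK Bx ld5 t o5_1a_Z_1s_xa mn mn mn
          (lh_ringA_of hl) (hK.inH hO k6as_ok) (hK.inH hN k3ss_ok)
          AllOk.nil (dOk hK t rfl OR.s)) rg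
          (by norm_num) (by norm_num) (by norm_num) (by norm_num)
      · exact absurd h9 (by decide)

theorem q5_one_ringZ (t : RDt K 5 l x dl ll dr rr w kl kr) (hC : Bh x dr rr .one)
    (hk : Oh l dl ll .ring true)
    (hl : (hbox .ring .ring true).In (yH l (RR w kl) (Complex.cos w)))
    (rg : Rg (yH x (RR w kr) (Complex.cos w)) (zeta w)) :
    (rq5 .one .ring true).In (yH x (RR w kr) (Complex.cos w)) (zeta w) := by
  have hN := t.right.ok.right.symm
  have hO := t.right.ok.left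
  have hL := t.left.ok.right.symm
  rcases hC.one with ⟨rfl, rfl⟩ | ⟨rfl, rfl⟩
  · have e2 := far_s t.right.ok.right
    subst e2
    rcases hk.ring hL.pos t.left.ok.ne with ⟨-, h9, -⟩ | ⟨rfl, -, hl4⟩
    · exact absurd h9 (by decide)
    · exact b4c_of (tuseC hK Bx ld5 t o5_1a_Zs_u_kz mn mn mn
        (lh_ringZ_of hl) (hK.inH hO k5az_ok) (hK.inH hN k2as_ok)
        (aOkH t rfl (kl_z t (in_nZz hK hL))) (dOk hK t rfl (OR.st (by decide)))) rg
        (by norm_num) (by norm_num) (by norm_num) (by norm_num)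
  · cases rr
    · exact absurd rfl (hN.one rfl).2.1
    · rcases hk.ring hL.pos t.left.ok.ne with ⟨-, h9, -⟩ | ⟨rfl, -, hl4⟩
      · exact absurd h9 (by decide)
      · exact b4c_of (tuseC hK Bx ld5 t o5_1a_Zs_1a_xz mn mn mn
          (lh_ringZ_of hl) (hK.inH hO k6zs_ok) (hK.inH hN k2as_ok)
          AllOk.nil (dOk hK t rfl (OR.a1 (by norm_num)))) rg
          (by norm_num) (by norm_num) (by norm_num) (by norm_num)
    · exact absurd (hN.zl rfl) (by norm_num)
    · rcases hk.ring hL.pos t.left.ok.ne with ⟨-, h9, -⟩ | ⟨rfl, -, hl4⟩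
      · exact absurd h9 (by decide)
      · exact b4c_of (tuseC hK Bx ld5 t o5_1a_Zs_1s_xz mn mn mn
          (lh_ringZ_of hl) (hK.inH hO k6zs_ok) (hK.inH hN k3ss_ok)
          AllOk.nil (dOk hK t rfl OR.s)) rg
          (by norm_num) (by norm_num) (by norm_num) (by norm_num)

theorem q5_two_one {s : Bool} (t : RDt K 5 l x dl ll dr rr w kl kr) (hC : Bh x dr rr .two)
    (hk : Oh l dl ll .one s)
    (hl : (hbox .ring .one s).In (yH l (RR w kl) (Complex.cos w)))
    (rg : Rg (yH x (RR w kr) (Complex.cos w)) (zeta w)) :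
    (rq5 .two .one s).In (yH x (RR w kr) (Complex.cos w)) (zeta w) := by
  have hN := t.right.ok.right.symm
  have hO := t.right.ok.left
  have hL := t.left.ok.right.symm
  obtain ⟨rfl, rfl, hre⟩ := hC.two
  cases rr
  · exact absurd rfl hre
  · rcases hk.one hL.zr t.left.ok.ne with ⟨rfl, rfl⟩ | rfl
    · have e1 := far_s t.left.ok.right
      subst e1
      exact b4c_of (tuseC hK Bx ld5 t o5_1b_1_2a_xa mn mn mn
        (lh_one_of hl) (hK.inH hO k6as_ok) (hK.inH hN k3as_ok)
        AllOk.nil (dOk hK t rfl OR.a)) rg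
        (by norm_num) (by norm_num) (by norm_num) (by norm_num)
    · exact b4c_of (tuseC hK Bx ld5 t o5_1b_1_2a_xs mn mn mn
        (lh_one_of hl) (hK.inH hO k7ss_ok) (hK.inH hN k3as_ok)
        AllOk.nil (dOk hK t rfl OR.a)) rg
        (by norm_num) (by norm_num) (by norm_num) (by norm_num)
  · exact absurd (hN.zl rfl) (by norm_num)
  · rcases hk.one hL.zr t.left.ok.ne with ⟨rfl, rfl⟩ | rfl
    · have e1 := far_s t.left.ok.right
      subst e1
      exact b4c_of (tuseC hK Bx ld5 t o5_1b_1_2s_xa mn mn mn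
        (lh_one_of hl) (hK.inH hO k6as_ok) (hK.inH hN k4ss_ok)
        AllOk.nil (dOk hK t rfl OR.s)) rg
        (by norm_num) (by norm_num) (by norm_num) (by norm_num)
    · exact b4c_of (tuseC hK Bx ld5 t o5_1b_1_2s_xs mn mn mn
        (lh_one_of hl) (hK.inH hO k7ss_ok) (hK.inH hN k4ss_ok)
        AllOk.nil (dOk hK t rfl OR.s)) rg
        (by norm_num) (by norm_num) (by norm_num) (by norm_num)

theorem q5_two_two {s : Bool} (t : RDt K 5 l x dl ll dr rr w kl kr) (hC : Bh x dr rr .two)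
    (hk : Oh l dl ll .two s)
    (hl : (hbox .ring .two s).In (yH l (RR w kl) (Complex.cos w)))
    (rg : Rg (yH x (RR w kr) (Complex.cos w)) (zeta w)) :
    (rq5 .two .two s).In (yH x (RR w kr) (Complex.cos w)) (zeta w) := by
  have hN := t.right.ok.right.symm
  have hO := t.right.ok.left
  have hL := t.left.ok.right.symm
  obtain ⟨rfl, rfl, hre⟩ := hC.two
  cases rr
  · exact absurd rfl hre
  · obtain ⟨rfl, rfl, hle⟩ := hk.two hL.zr t.left.ok.ne
    exact b4c_of (tuseC hK Bx ld5 t o5_1b_2_2a_xa mn mn mn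
      (lh_two_of hl) (hK.inH hO k6as_ok) (hK.inH hN k3as_ok)
      AllOk.nil (dOk hK t rfl OR.a)) rg
      (by norm_num) (by norm_num) (by norm_num) (by norm_num)
  · exact absurd (hN.zl rfl) (by norm_num)
  · obtain ⟨rfl, rfl, hle⟩ := hk.two hL.zr t.left.ok.ne
    exact b4c_of (tuseC hK Bx ld5 t o5_1b_2_2s_xa mn mn mn
      (lh_two_of hl) (hK.inH hO k6as_ok) (hK.inH hN k4ss_ok)
      AllOk.nil (dOk hK t rfl OR.s)) rg
      (by norm_num) (by norm_num) (by norm_num) (by norm_num)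

theorem q5_two_twoE {s : Bool} (t : RDt K 5 l x dl ll dr rr w kl kr) (hC : Bh x dr rr .two)
    (hk : Oh l dl ll .twoE s)
    (hl : (hbox .ring .twoE s).In (yH l (RR w kl) (Complex.cos w)))
    (rg : Rg (yH x (RR w kr) (Complex.cos w)) (zeta w)) :
    (rq5 .two .twoE s).In (yH x (RR w kr) (Complex.cos w)) (zeta w) := by
  have hN := t.right.ok.right.symm
  have hO := t.right.ok.left
  have hL := t.left.ok.right.symm
  obtain ⟨rfl, rfl, hre⟩ := hC.two
  cases rr
  · exact absurd rfl hre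
  · obtain ⟨rfl, rfl, rfl⟩ := hk.twoE hL.zr t.left.ok.ne
    exact b4c_of (tuseC hK Bx ld5 t o5_1b_2e_2a_xa mn mn mn
      (lh_twoE_of hl) (hK.inH hO k6as_ok) (hK.inH hN k3as_ok)
      AllOk.nil (dOk hK t rfl OR.a)) rg
      (by norm_num) (by norm_num) (by norm_num) (by norm_num)
  · exact absurd (hN.zl rfl) (by norm_num)
  · obtain ⟨rfl, rfl, rfl⟩ := hk.twoE hL.zr t.left.ok.ne
    exact b4c_of (tuseC hK Bx ld5 t o5_1b_2e_2s_xa mn mn mn
      (lh_twoE_of hl) (hK.inH hO k6as_ok) (hK.inH hN k4ss_ok)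
      AllOk.nil (dOk hK t rfl OR.s)) rg
      (by norm_num) (by norm_num) (by norm_num) (by norm_num)

theorem q5_two_three {s : Bool} (t : RDt K 5 l x dl ll dr rr w kl kr) (hC : Bh x dr rr .two)
    (hk : Oh l dl ll .three s)
    (hl : (hbox .ring .three s).In (yH l (RR w kl) (Complex.cos w)))
    (rg : Rg (yH x (RR w kr) (Complex.cos w)) (zeta w)) :
    (rq5 .two .three s).In (yH x (RR w kr) (Complex.cos w)) (zeta w) := by
  have hN := t.right.ok.right.symm
  have hO := t.right.ok.left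
  have hL := t.left.ok.right.symm
  obtain ⟨rfl, rfl, hre⟩ := hC.two
  cases rr
  · exact absurd rfl hre
  · obtain ⟨rfl, rfl, hle⟩ := hk.three hL.zr t.left.ok.ne
    exact b4c_of (tuseC hK Bx ld5 t o5_1b_3_2a_xa mn mn mn
      (lh_three_of hl) (hK.inH hO k6as_ok) (hK.inH hN k3as_ok)
      AllOk.nil (dOk hK t rfl OR.a)) rg
      (by norm_num) (by norm_num) (by norm_num) (by norm_num)
  · exact absurd (hN.zl rfl) (by norm_num)
  · obtain ⟨rfl, rfl, hle⟩ := hk.three hL.zr t.left.ok.ne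
    exact b4c_of (tuseC hK Bx ld5 t o5_1b_3_2s_xa mn mn mn
      (lh_three_of hl) (hK.inH hO k6as_ok) (hK.inH hN k4ss_ok)
      AllOk.nil (dOk hK t rfl OR.s)) rg
      (by norm_num) (by norm_num) (by norm_num) (by norm_num)

theorem q5_two_threeE {s : Bool} (t : RDt K 5 l x dl ll dr rr w kl kr) (hC : Bh x dr rr .two)
    (hk : Oh l dl ll .threeE s)
    (hl : (hbox .ring .threeE s).In (yH l (RR w kl) (Complex.cos w)))
    (rg : Rg (yH x (RR w kr) (Complex.cos w)) (zeta w)) :
    (rq5 .two .threeE s).In (yH x (RR w kr) (Complex.cos w)) (zeta w) := by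
  have hN := t.right.ok.right.symm
  have hO := t.right.ok.left
  have hL := t.left.ok.right.symm
  obtain ⟨rfl, rfl, hre⟩ := hC.two
  cases rr
  · exact absurd rfl hre
  · obtain ⟨rfl, rfl, rfl⟩ := hk.threeE hL.zr t.left.ok.ne
    exact b4c_of (tuseC hK Bx ld5 t o5_1b_3e_2a_xa mn mn mn
      (lh_threeE_of hl) (hK.inH hO k6as_ok) (hK.inH hN k3as_ok)
      AllOk.nil (dOk hK t rfl OR.a)) rg
      (by norm_num) (by norm_num) (by norm_num) (by norm_num)
  · exact absurd (hN.zl rfl) (by norm_num)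
  · obtain ⟨rfl, rfl, rfl⟩ := hk.threeE hL.zr t.left.ok.ne
    exact b4c_of (tuseC hK Bx ld5 t o5_1b_3e_2s_xa mn mn mn
      (lh_threeE_of hl) (hK.inH hO k6as_ok) (hK.inH hN k4ss_ok)
      AllOk.nil (dOk hK t rfl OR.s)) rg
      (by norm_num) (by norm_num) (by norm_num) (by norm_num)

theorem q5_two_ringA (t : RDt K 5 l x dl ll dr rr w kl kr) (hC : Bh x dr rr .two)
    (hk : Oh l dl ll .ring false)
    (hl : (hbox .ring .ring false).In (yH l (RR w kl) (Complex.cos w)))
    (rg : Rg (yH x (RR w kr) (Complex.cos w)) (zeta w)) :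
    (rq5 .two .ring false).In (yH x (RR w kr) (Complex.cos w)) (zeta w) := by
  have hN := t.right.ok.right.symm
  have hO := t.right.ok.left
  have hL := t.left.ok.right.symm
  obtain ⟨rfl, rfl, hre⟩ := hC.two
  cases rr
  · exact absurd rfl hre
  · rcases hk.ring hL.pos t.left.ok.ne with ⟨rfl, -, hl4⟩ | ⟨-, h9, -⟩
    · exact b4c_of (tuseC hK Bx ld5 t o5_1b_Z_2a_xa mn mn mn
        (lh_ringA_of hl) (hK.inH hO k6as_ok) (hK.inH hN k3as_ok)
        AllOk.nil (dOk hK t rfl OR.a)) rg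
        (by norm_num) (by norm_num) (by norm_num) (by norm_num)
    · exact absurd h9 (by decide)
  · exact absurd (hN.zl rfl) (by norm_num)
  · rcases hk.ring hL.pos t.left.ok.ne with ⟨rfl, -, hl4⟩ | ⟨-, h9, -⟩
    · exact b4c_of (tuseC hK Bx ld5 t o5_1b_Z_2s_xa mn mn mn
        (lh_ringA_of hl) (hK.inH hO k6as_ok) (hK.inH hN k4ss_ok)
        AllOk.nil (dOk hK t rfl OR.s)) rg
        (by norm_num) (by norm_num) (by norm_num) (by norm_num)
    · exact absurd h9 (by decide)

theorem q5_two_ringZ (t : RDt K 5 l x dl ll dr rr w kl kr) (hC : Bh x dr rr .two)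
    (hk : Oh l dl ll .ring true)
    (hl : (hbox .ring .ring true).In (yH l (RR w kl) (Complex.cos w)))
    (rg : Rg (yH x (RR w kr) (Complex.cos w)) (zeta w)) :
    (rq5 .two .ring true).In (yH x (RR w kr) (Complex.cos w)) (zeta w) := by
  have hN := t.right.ok.right.symm
  have hO := t.right.ok.left
  have hL := t.left.ok.right.symm
  obtain ⟨rfl, rfl, hre⟩ := hC.two
  cases rr
  · exact absurd rfl hre
  · rcases hk.ring hL.pos t.left.ok.ne with ⟨-, h9, -⟩ | ⟨rfl, -, hl4⟩
    · exact absurd h9 (by decide)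
    · exact b4c_of (tuseC hK Bx ld5 t o5_1b_Zs_2a_xz mn mn mn
        (lh_ringZ_of hl) (hK.inH hO k6zs_ok) (hK.inH hN k3as_ok)
        AllOk.nil (dOk hK t rfl OR.a)) rg
        (by norm_num) (by norm_num) (by norm_num) (by norm_num)
  · exact absurd (hN.zl rfl) (by norm_num)
  · rcases hk.ring hL.pos t.left.ok.ne with ⟨-, h9, -⟩ | ⟨rfl, -, hl4⟩
    · exact absurd h9 (by decide)
    · exact b4c_of (tuseC hK Bx ld5 t o5_1b_Zs_2s_xz mn mn mn
        (lh_ringZ_of hl) (hK.inH hO k6zs_ok) (hK.inH hN k4ss_ok)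
        AllOk.nil (dOk hK t rfl OR.s)) rg
        (by norm_num) (by norm_num) (by norm_num) (by norm_num)

theorem q5_twoE_one {s : Bool} (t : RDt K 5 l x dl ll dr rr w kl kr) (hC : Bh x dr rr .twoE)
    (hk : Oh l dl ll .one s)
    (hl : (hbox .ring .one s).In (yH l (RR w kl) (Complex.cos w)))
    (rg : Rg (yH x (RR w kr) (Complex.cos w)) (zeta w)) :
    (rq5 .twoE .one s).In (yH x (RR w kr) (Complex.cos w)) (zeta w) := by
  have hN := t.right.ok.right.symm
  have hO := t.right.ok.left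
  have hL := t.left.ok.right.symm
  obtain ⟨rfl, rfl, rfl⟩ := hC.twoE
  rcases hk.one hL.zr t.left.ok.ne with ⟨rfl, rfl⟩ | rfl
  · have e1 := far_s t.left.ok.right
    subst e1
    exact b4c_of (tuseC hK Bx ld5 t o5_1c_1_2e_xa mn mn mn
      (lh_one_of hl) (hK.inH hO k6as_ok) (hK.inH hN k3es_ok)
      AllOk.nil (dOk hK t rfl OR.e)) rg
      (by norm_num) (by norm_num) (by norm_num) (by norm_num)
  · exact b4c_of (tuseC hK Bx ld5 t o5_1c_1_2e_xs mn mn mn
      (lh_one_of hl) (hK.inH hO k7ss_ok) (hK.inH hN k3es_ok)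
      AllOk.nil (dOk hK t rfl OR.e)) rg
      (by norm_num) (by norm_num) (by norm_num) (by norm_num)

theorem q5_twoE_two {s : Bool} (t : RDt K 5 l x dl ll dr rr w kl kr) (hC : Bh x dr rr .twoE)
    (hk : Oh l dl ll .two s)
    (hl : (hbox .ring .two s).In (yH l (RR w kl) (Complex.cos w)))
    (rg : Rg (yH x (RR w kr) (Complex.cos w)) (zeta w)) :
    (rq5 .twoE .two s).In (yH x (RR w kr) (Complex.cos w)) (zeta w) := by
  have hN := t.right.ok.right.symm
  have hO := t.right.ok.left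
  have hL := t.left.ok.right.symm
  obtain ⟨rfl, rfl, rfl⟩ := hC.twoE
  obtain ⟨rfl, rfl, hle⟩ := hk.two hL.zr t.left.ok.ne
  exact b4c_of (tuseC hK Bx ld5 t o5_1c_2_2e_xa mn mn mn
    (lh_two_of hl) (hK.inH hO k6as_ok) (hK.inH hN k3es_ok)
    AllOk.nil (dOk hK t rfl OR.e)) rg
    (by norm_num) (by norm_num) (by norm_num) (by norm_num)

theorem q5_twoE_twoE {s : Bool} (t : RDt K 5 l x dl ll dr rr w kl kr) (hC : Bh x dr rr .twoE)
    (hk : Oh l dl ll .twoE s)
    (hl : (hbox .ring .twoE s).In (yH l (RR w kl) (Complex.cos w)))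
    (rg : Rg (yH x (RR w kr) (Complex.cos w)) (zeta w)) :
    (rq5 .twoE .twoE s).In (yH x (RR w kr) (Complex.cos w)) (zeta w) := by
  have hN := t.right.ok.right.symm
  have hO := t.right.ok.left
  have hL := t.left.ok.right.symm
  obtain ⟨rfl, rfl, rfl⟩ := hC.twoE
  obtain ⟨rfl, rfl, rfl⟩ := hk.twoE hL.zr t.left.ok.ne
  exact b4c_of (tuseC hK Bx ld5 t o5_1c_2e_2e_xa mn mn mn
    (lh_twoE_of hl) (hK.inH hO k6as_ok) (hK.inH hN k3es_ok)
    AllOk.nil (dOk hK t rfl OR.e)) rg
    (by norm_num) (by norm_num) (by norm_num) (by norm_num)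

theorem q5_twoE_three {s : Bool} (t : RDt K 5 l x dl ll dr rr w kl kr) (hC : Bh x dr rr .twoE)
    (hk : Oh l dl ll .three s)
    (hl : (hbox .ring .three s).In (yH l (RR w kl) (Complex.cos w)))
    (rg : Rg (yH x (RR w kr) (Complex.cos w)) (zeta w)) :
    (rq5 .twoE .three s).In (yH x (RR w kr) (Complex.cos w)) (zeta w) := by
  have hN := t.right.ok.right.symm
  have hO := t.right.ok.left
  have hL := t.left.ok.right.symm
  obtain ⟨rfl, rfl, rfl⟩ := hC.twoE
  obtain ⟨rfl, rfl, hle⟩ := hk.three hL.zr t.left.ok.ne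
  exact b4c_of (tuseC hK Bx ld5 t o5_1c_3_2e_xa mn mn mn
    (lh_three_of hl) (hK.inH hO k6as_ok) (hK.inH hN k3es_ok)
    AllOk.nil (dOk hK t rfl OR.e)) rg
    (by norm_num) (by norm_num) (by norm_num) (by norm_num)

theorem q5_twoE_threeE {s : Bool} (t : RDt K 5 l x dl ll dr rr w kl kr) (hC : Bh x dr rr .twoE)
    (hk : Oh l dl ll .threeE s)
    (hl : (hbox .ring .threeE s).In (yH l (RR w kl) (Complex.cos w)))
    (rg : Rg (yH x (RR w kr) (Complex.cos w)) (zeta w)) :
    (rq5 .twoE .threeE s).In (yH x (RR w kr) (Complex.cos w)) (zeta w) := by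
  have hN := t.right.ok.right.symm
  have hO := t.right.ok.left
  have hL := t.left.ok.right.symm
  obtain ⟨rfl, rfl, rfl⟩ := hC.twoE
  obtain ⟨rfl, rfl, rfl⟩ := hk.threeE hL.zr t.left.ok.ne
  exact b4c_of (tuseC hK Bx ld5 t o5_1c_3e_2e_xa mn mn mn
    (lh_threeE_of hl) (hK.inH hO k6as_ok) (hK.inH hN k3es_ok)
    AllOk.nil (dOk hK t rfl OR.e)) rg
    (by norm_num) (by norm_num) (by norm_num) (by norm_num)

theorem q5_twoE_ringA (t : RDt K 5 l x dl ll dr rr w kl kr) (hC : Bh x dr rr .twoE)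
    (hk : Oh l dl ll .ring false)
    (hl : (hbox .ring .ring false).In (yH l (RR w kl) (Complex.cos w)))
    (rg : Rg (yH x (RR w kr) (Complex.cos w)) (zeta w)) :
    (rq5 .twoE .ring false).In (yH x (RR w kr) (Complex.cos w)) (zeta w) := by
  have hN := t.right.ok.right.symm
  have hO := t.right.ok.left
  have hL := t.left.ok.right.symm
  obtain ⟨rfl, rfl, rfl⟩ := hC.twoE
  rcases hk.ring hL.pos t.left.ok.ne with ⟨rfl, -, hl4⟩ | ⟨-, h9, -⟩
  · exact b4c_of (tuseC hK Bx ld5 t o5_1c_Z_2e_xa mn mn mn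
      (lh_ringA_of hl) (hK.inH hO k6as_ok) (hK.inH hN k3es_ok)
      AllOk.nil (dOk hK t rfl OR.e)) rg
      (by norm_num) (by norm_num) (by norm_num) (by norm_num)
  · exact absurd h9 (by decide)

theorem q5_twoE_ringZ (t : RDt K 5 l x dl ll dr rr w kl kr) (hC : Bh x dr rr .twoE)
    (hk : Oh l dl ll .ring true)
    (hl : (hbox .ring .ring true).In (yH l (RR w kl) (Complex.cos w)))
    (rg : Rg (yH x (RR w kr) (Complex.cos w)) (zeta w)) :
    (rq5 .twoE .ring true).In (yH x (RR w kr) (Complex.cos w)) (zeta w) := by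
  have hN := t.right.ok.right.symm
  have hO := t.right.ok.left
  have hL := t.left.ok.right.symm
  obtain ⟨rfl, rfl, rfl⟩ := hC.twoE
  rcases hk.ring hL.pos t.left.ok.ne with ⟨-, h9, -⟩ | ⟨rfl, -, hl4⟩
  · exact absurd h9 (by decide)
  · exact b4c_of (tuseC hK Bx ld5 t o5_1c_Zs_2e_xz mn mn mn
      (lh_ringZ_of hl) (hK.inH hO k6zs_ok) (hK.inH hN k3es_ok)
      AllOk.nil (dOk hK t rfl OR.e)) rg
      (by norm_num) (by norm_num) (by norm_num) (by norm_num)

theorem p5_one_two {s : Bool} (t : RDt K 5 l x dl ll dr rr w kl kr) (hC : Bh l dl ll .one)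
    (hk : Oh x dr rr .two s)
    (hl : (rq5 .one .two s).In (yH l (RR w kl) (Complex.cos w)) (zeta w))
    (rg : Rg (yH x (RR w kr) (Complex.cos w)) (zeta w)) :
    (rp5 .one .two s).In (yH x (RR w kr) (Complex.cos w)) (zeta w) := by
  have hN := t.right.ok.right.symm
  have hO := t.right.ok.left
  have hL := t.left.ok.right.symm
  obtain ⟨rfl, rfl, hre⟩ := hk.two hN.zr t.right.ok.ne
  cases rr
  · exact absurd rfl hre
  · rcases hC.one with ⟨rfl, rfl⟩ | ⟨rfl, rfl⟩
    · have e1 := far_s t.left.ok.right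
      subst e1
      exact b4c_of (tuseC hK Bx ld5 t p5_1a_2_k2a_u mn mn mn
        (lo5_one_two_of hl) (hK.inH hO k5aa_ok) (hK.inH hN k2aa_ok)
        (aOkH t rfl (kl_a t (hK.inH hL k2as_ok))) (dOk hK t rfl OR.a)) rg
        (by norm_num) (by norm_num) (by norm_num) (by norm_num)
    · exact b4c_of (tuseC hK Bx ld5 t p5_1a_2_k2a_xs mn mn mn
        (lo5_one_two_of hl) (hK.inH hO k6as_ok) (hK.inH hN k2aa_ok)
        AllOk.nil (dOk hK t rfl OR.a)) rg
        (by norm_num) (by norm_num) (by norm_num) (by norm_num)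
  · exact absurd (hN.zl rfl) (by norm_num)
  · rcases hC.one with ⟨rfl, rfl⟩ | ⟨rfl, rfl⟩
    · have e1 := far_s t.left.ok.right
      subst e1
      exact b4c_of (tuseC hK Bx ld5 t p5_1a_2_k2s_u mn mn mn
        (lo5_one_two_of hl) (hK.inH hO k5aa_ok) (hK.inH hN k3as_ok)
        (aOkH t rfl (kl_a t (hK.inH hL k2as_ok))) (dOk hK t rfl OR.s)) rg
        (by norm_num) (by norm_num) (by norm_num) (by norm_num)
    · exact b4c_of (tuseC hK Bx ld5 t p5_1a_2_k2s_xs mn mn mn
        (lo5_one_two_of hl) (hK.inH hO k6as_ok) (hK.inH hN k3as_ok)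
        AllOk.nil (dOk hK t rfl OR.s)) rg
        (by norm_num) (by norm_num) (by norm_num) (by norm_num)

theorem p5_one_twoE {s : Bool} (t : RDt K 5 l x dl ll dr rr w kl kr) (hC : Bh l dl ll .one)
    (hk : Oh x dr rr .twoE s)
    (hl : (rq5 .one .twoE s).In (yH l (RR w kl) (Complex.cos w)) (zeta w))
    (rg : Rg (yH x (RR w kr) (Complex.cos w)) (zeta w)) :
    (rp5 .one .twoE s).In (yH x (RR w kr) (Complex.cos w)) (zeta w) := by
  have hN := t.right.ok.right.symm
  have hO := t.right.ok.left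
  have hL := t.left.ok.right.symm
  obtain ⟨rfl, rfl, rfl⟩ := hk.twoE hN.zr t.right.ok.ne
  rcases hC.one with ⟨rfl, rfl⟩ | ⟨rfl, rfl⟩
  · have e1 := far_s t.left.ok.right
    subst e1
    exact b4c_of (tuseC hK Bx ld5 t p5_1a_2e_k2e_u mn mn mn
      (lo5_one_twoE_of hl) (hK.inH hO k5aa_ok) (hK.inH hN k2ea_ok)
      (aOkH t rfl (kl_a t (hK.inH hL k2as_ok))) (dOk hK t rfl OR.e)) rg
      (by norm_num) (by norm_num) (by norm_num) (by norm_num)
  · exact b4c_of (tuseC hK Bx ld5 t p5_1a_2e_k2e_xs mn mn mn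
      (lo5_one_twoE_of hl) (hK.inH hO k6as_ok) (hK.inH hN k2ea_ok)
      AllOk.nil (dOk hK t rfl OR.e)) rg
      (by norm_num) (by norm_num) (by norm_num) (by norm_num)

theorem p5_one_three {s : Bool} (t : RDt K 5 l x dl ll dr rr w kl kr) (hC : Bh l dl ll .one)
    (hk : Oh x dr rr .three s)
    (hl : (rq5 .one .three s).In (yH l (RR w kl) (Complex.cos w)) (zeta w))
    (rg : Rg (yH x (RR w kr) (Complex.cos w)) (zeta w)) :
    (rp5 .one .three s).In (yH x (RR w kr) (Complex.cos w)) (zeta w) := by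
  have hN := t.right.ok.right.symm
  have hO := t.right.ok.left
  have hL := t.left.ok.right.symm
  obtain ⟨rfl, rfl, hre⟩ := hk.three hN.zr t.right.ok.ne
  cases rr
  · exact absurd rfl hre
  · rcases hC.one with ⟨rfl, rfl⟩ | ⟨rfl, rfl⟩
    · have e1 := far_s t.left.ok.right
      subst e1
      exact b4c_of (tuseC hK Bx ld5 t p5_1a_3_k3a_u mn mn mn
        (lo5_one_three_of hl) (hK.inH hO k5aa_ok) (hK.inH hN k3aa_ok)
        (aOkH t rfl (kl_a t (hK.inH hL k2as_ok))) (dOk hK t rfl OR.a)) rg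
        (by norm_num) (by norm_num) (by norm_num) (by norm_num)
    · exact b4c_of (tuseC hK Bx ld5 t p5_1a_3_k3a_xs mn mn mn
        (lo5_one_three_of hl) (hK.inH hO k6as_ok) (hK.inH hN k3aa_ok)
        AllOk.nil (dOk hK t rfl OR.a)) rg
        (by norm_num) (by norm_num) (by norm_num) (by norm_num)
  · exact absurd (hN.zl rfl) (by norm_num)
  · rcases hC.one with ⟨rfl, rfl⟩ | ⟨rfl, rfl⟩
    · have e1 := far_s t.left.ok.right
      subst e1
      exact b4c_of (tuseC hK Bx ld5 t p5_1a_3_k3s_u mn mn mn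
        (lo5_one_three_of hl) (hK.inH hO k5aa_ok) (hK.inH hN k4as_ok)
        (aOkH t rfl (kl_a t (hK.inH hL k2as_ok))) (dOk hK t rfl OR.s)) rg
        (by norm_num) (by norm_num) (by norm_num) (by norm_num)
    · exact b4c_of (tuseC hK Bx ld5 t p5_1a_3_k3s_xs mn mn mn
        (lo5_one_three_of hl) (hK.inH hO k6as_ok) (hK.inH hN k4as_ok)
        AllOk.nil (dOk hK t rfl OR.s)) rg
        (by norm_num) (by norm_num) (by norm_num) (by norm_num)

theorem p5_one_threeE {s : Bool} (t : RDt K 5 l x dl ll dr rr w kl kr) (hC : Bh l dl ll .one)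
    (hk : Oh x dr rr .threeE s)
    (hl : (rq5 .one .threeE s).In (yH l (RR w kl) (Complex.cos w)) (zeta w))
    (rg : Rg (yH x (RR w kr) (Complex.cos w)) (zeta w)) :
    (rp5 .one .threeE s).In (yH x (RR w kr) (Complex.cos w)) (zeta w) := by
  have hN := t.right.ok.right.symm
  have hO := t.right.ok.left
  have hL := t.left.ok.right.symm
  obtain ⟨rfl, rfl, rfl⟩ := hk.threeE hN.zr t.right.ok.ne
  rcases hC.one with ⟨rfl, rfl⟩ | ⟨rfl, rfl⟩
  · have e1 := far_s t.left.ok.right
    subst e1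
    exact b4c_of (tuseC hK Bx ld5 t p5_1a_3e_k3e_u mn mn mn
      (lo5_one_threeE_of hl) (hK.inH hO k5aa_ok) (hK.inH hN k3ea_ok)
      (aOkH t rfl (kl_a t (hK.inH hL k2as_ok))) (dOk hK t rfl OR.e)) rg
      (by norm_num) (by norm_num) (by norm_num) (by norm_num)
  · exact b4c_of (tuseC hK Bx ld5 t p5_1a_3e_k3e_xs mn mn mn
      (lo5_one_threeE_of hl) (hK.inH hO k6as_ok) (hK.inH hN k3ea_ok)
      AllOk.nil (dOk hK t rfl OR.e)) rg
      (by norm_num) (by norm_num) (by norm_num) (by norm_num)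

theorem p5_one_ringA (t : RDt K 5 l x dl ll dr rr w kl kr) (hC : Bh l dl ll .one)
    (hk : Oh x dr rr .ring false)
    (hl : (rq5 .one .ring false).In (yH l (RR w kl) (Complex.cos w)) (zeta w))
    (rg : Rg (yH x (RR w kr) (Complex.cos w)) (zeta w)) :
    (rp5 .one .ring false).In (yH x (RR w kr) (Complex.cos w)) (zeta w) := by
  have hN := t.right.ok.right.symm
  have hO := t.right.ok.left
  have hL := t.left.ok.right.symm
  rcases hk.ring hN.pos t.right.ok.ne with ⟨rfl, -, hr4⟩ | ⟨-, h9, -⟩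
  · rcases hC.one with ⟨rfl, rfl⟩ | ⟨rfl, rfl⟩
    · have e1 := far_s t.left.ok.right
      subst e1
      exact b4c_of (tuseC hK Bx ld5 t p5_1a_Z_kZ_u mn mn mn
        (lo5_one_ringA_of hl) (hK.inH hO k5aa_ok) (in_nZa hK hN hr4)
        (aOkH t rfl (kl_a t (hK.inH hL k2as_ok))) AllOk.nil) rg
        (by norm_num) (by norm_num) (by norm_num) (by norm_num)
    · exact b4c_of (tuseC hK Bx ld5 t p5_1a_Z_kZ_xs mn mn mn
        (lo5_one_ringA_of hl) (hK.inH hO k6as_ok) (in_nZa hK hN hr4)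
        AllOk.nil AllOk.nil) rg
        (by norm_num) (by norm_num) (by norm_num) (by norm_num)
  · exact absurd h9 (by decide)

theorem p5_one_ringZ (t : RDt K 5 l x dl ll dr rr w kl kr) (hC : Bh l dl ll .one)
    (hk : Oh x dr rr .ring true)
    (hl : (rq5 .one .ring true).In (yH l (RR w kl) (Complex.cos w)) (zeta w))
    (rg : Rg (yH x (RR w kr) (Complex.cos w)) (zeta w)) :
    (rp5 .one .ring true).In (yH x (RR w kr) (Complex.cos w)) (zeta w) := by
  have hN := t.right.ok.right.symm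
  have hO := t.right.ok.left
  have hL := t.left.ok.right.symm
  rcases hk.ring hN.pos t.right.ok.ne with ⟨-, h9, -⟩ | ⟨rfl, -, hr4⟩
  · exact absurd h9 (by decide)
  · rcases hC.one with ⟨rfl, rfl⟩ | ⟨rfl, rfl⟩
    · have e1 := far_s t.left.ok.right
      subst e1
      exact b4c_of (tuseC hK Bx ld5 t p5_1a_Zs_kz_u mn mn mn
        (lo5_one_ringZ_of hl) (hK.inH hO k5az_ok) (in_nZz hK hN)
        (aOkH t rfl (kl_a t (hK.inH hL k2as_ok))) AllOk.nil) rg
        (by norm_num) (by norm_num) (by norm_num) (by norm_num)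
    · exact b4c_of (tuseC hK Bx ld5 t p5_1a_Zs_kz_xs mn mn mn
        (lo5_one_ringZ_of hl) (hK.inH hO k6zs_ok) (in_nZz hK hN)
        AllOk.nil AllOk.nil) rg
        (by norm_num) (by norm_num) (by norm_num) (by norm_num)

theorem p5_two_two {s : Bool} (t : RDt K 5 l x dl ll dr rr w kl kr) (hC : Bh l dl ll .two)
    (hk : Oh x dr rr .two s)
    (hl : (rq5 .two .two s).In (yH l (RR w kl) (Complex.cos w)) (zeta w))
    (rg : Rg (yH x (RR w kr) (Complex.cos w)) (zeta w)) :
    (rp5 .two .two s).In (yH x (RR w kr) (Complex.cos w)) (zeta w) := by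
  have hN := t.right.ok.right.symm
  have hO := t.right.ok.left
  have hL := t.left.ok.right.symm
  obtain ⟨rfl, rfl, hre⟩ := hk.two hN.zr t.right.ok.ne
  cases rr
  · exact absurd rfl hre
  · obtain ⟨rfl, rfl, hle⟩ := hC.two
    exact b4c_of (tuseC hK Bx ld5 t p5_1b_2_k2a_xs mn mn mn
      (lo5_two_two_of hl) (hK.inH hO k6as_ok) (hK.inH hN k2aa_ok)
      AllOk.nil (dOk hK t rfl OR.a)) rg
      (by norm_num) (by norm_num) (by norm_num) (by norm_num)
  · exact absurd (hN.zl rfl) (by norm_num)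
  · obtain ⟨rfl, rfl, hle⟩ := hC.two
    exact b4c_of (tuseC hK Bx ld5 t p5_1b_2_k2s_xs mn mn mn
      (lo5_two_two_of hl) (hK.inH hO k6as_ok) (hK.inH hN k3as_ok)
      AllOk.nil (dOk hK t rfl OR.s)) rg
      (by norm_num) (by norm_num) (by norm_num) (by norm_num)

theorem p5_two_twoE {s : Bool} (t : RDt K 5 l x dl ll dr rr w kl kr) (hC : Bh l dl ll .two)
    (hk : Oh x dr rr .twoE s)
    (hl : (rq5 .two .twoE s).In (yH l (RR w kl) (Complex.cos w)) (zeta w))
    (rg : Rg (yH x (RR w kr) (Complex.cos w)) (zeta w)) :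
    (rp5 .two .twoE s).In (yH x (RR w kr) (Complex.cos w)) (zeta w) := by
  have hN := t.right.ok.right.symm
  have hO := t.right.ok.left
  have hL := t.left.ok.right.symm
  obtain ⟨rfl, rfl, rfl⟩ := hk.twoE hN.zr t.right.ok.ne
  obtain ⟨rfl, rfl, hle⟩ := hC.two
  exact b4c_of (tuseC hK Bx ld5 t p5_1b_2e_k2e_xs mn mn mn
    (lo5_two_twoE_of hl) (hK.inH hO k6as_ok) (hK.inH hN k2ea_ok)
    AllOk.nil (dOk hK t rfl OR.e)) rg
    (by norm_num) (by norm_num) (by norm_num) (by norm_num)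

theorem p5_two_three {s : Bool} (t : RDt K 5 l x dl ll dr rr w kl kr) (hC : Bh l dl ll .two)
    (hk : Oh x dr rr .three s)
    (hl : (rq5 .two .three s).In (yH l (RR w kl) (Complex.cos w)) (zeta w))
    (rg : Rg (yH x (RR w kr) (Complex.cos w)) (zeta w)) :
    (rp5 .two .three s).In (yH x (RR w kr) (Complex.cos w)) (zeta w) := by
  have hN := t.right.ok.right.symm
  have hO := t.right.ok.left
  have hL := t.left.ok.right.symm
  obtain ⟨rfl, rfl, hre⟩ := hk.three hN.zr t.right.ok.ne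
  cases rr
  · exact absurd rfl hre
  · obtain ⟨rfl, rfl, hle⟩ := hC.two
    exact b4c_of (tuseC hK Bx ld5 t p5_1b_3_k3a_xs mn mn mn
      (lo5_two_three_of hl) (hK.inH hO k6as_ok) (hK.inH hN k3aa_ok)
      AllOk.nil (dOk hK t rfl OR.a)) rg
      (by norm_num) (by norm_num) (by norm_num) (by norm_num)
  · exact absurd (hN.zl rfl) (by norm_num)
  · obtain ⟨rfl, rfl, hle⟩ := hC.two
    exact b4c_of (tuseC hK Bx ld5 t p5_1b_3_k3s_xs mn mn mn
      (lo5_two_three_of hl) (hK.inH hO k6as_ok) (hK.inH hN k4as_ok)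
      AllOk.nil (dOk hK t rfl OR.s)) rg
      (by norm_num) (by norm_num) (by norm_num) (by norm_num)

theorem p5_two_threeE {s : Bool} (t : RDt K 5 l x dl ll dr rr w kl kr) (hC : Bh l dl ll .two)
    (hk : Oh x dr rr .threeE s)
    (hl : (rq5 .two .threeE s).In (yH l (RR w kl) (Complex.cos w)) (zeta w))
    (rg : Rg (yH x (RR w kr) (Complex.cos w)) (zeta w)) :
    (rp5 .two .threeE s).In (yH x (RR w kr) (Complex.cos w)) (zeta w) := by
  have hN := t.right.ok.right.symm
  have hO := t.right.ok.left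
  have hL := t.left.ok.right.symm
  obtain ⟨rfl, rfl, rfl⟩ := hk.threeE hN.zr t.right.ok.ne
  obtain ⟨rfl, rfl, hle⟩ := hC.two
  exact b4c_of (tuseC hK Bx ld5 t p5_1b_3e_k3e_xs mn mn mn
    (lo5_two_threeE_of hl) (hK.inH hO k6as_ok) (hK.inH hN k3ea_ok)
    AllOk.nil (dOk hK t rfl OR.e)) rg
    (by norm_num) (by norm_num) (by norm_num) (by norm_num)

theorem p5_two_ringA (t : RDt K 5 l x dl ll dr rr w kl kr) (hC : Bh l dl ll .two)
    (hk : Oh x dr rr .ring false)
    (hl : (rq5 .two .ring false).In (yH l (RR w kl) (Complex.cos w)) (zeta w))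
    (rg : Rg (yH x (RR w kr) (Complex.cos w)) (zeta w)) :
    (rp5 .two .ring false).In (yH x (RR w kr) (Complex.cos w)) (zeta w) := by
  have hN := t.right.ok.right.symm
  have hO := t.right.ok.left
  have hL := t.left.ok.right.symm
  rcases hk.ring hN.pos t.right.ok.ne with ⟨rfl, -, hr4⟩ | ⟨-, h9, -⟩
  · obtain ⟨rfl, rfl, hle⟩ := hC.two
    exact b4c_of (tuseC hK Bx ld5 t p5_1b_Z_kZ_xs mn mn mn
      (lo5_two_ringA_of hl) (hK.inH hO k6as_ok) (in_nZa hK hN hr4)
      AllOk.nil AllOk.nil) rg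
      (by norm_num) (by norm_num) (by norm_num) (by norm_num)
  · exact absurd h9 (by decide)

theorem p5_two_ringZ (t : RDt K 5 l x dl ll dr rr w kl kr) (hC : Bh l dl ll .two)
    (hk : Oh x dr rr .ring true)
    (hl : (rq5 .two .ring true).In (yH l (RR w kl) (Complex.cos w)) (zeta w))
    (rg : Rg (yH x (RR w kr) (Complex.cos w)) (zeta w)) :
    (rp5 .two .ring true).In (yH x (RR w kr) (Complex.cos w)) (zeta w) := by
  have hN := t.right.ok.right.symm
  have hO := t.right.ok.left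
  have hL := t.left.ok.right.symm
  rcases hk.ring hN.pos t.right.ok.ne with ⟨-, h9, -⟩ | ⟨rfl, -, hr4⟩
  · exact absurd h9 (by decide)
  · obtain ⟨rfl, rfl, hle⟩ := hC.two
    exact b4c_of (tuseC hK Bx ld5 t p5_1b_Zs_kz_xs mn mn mn
      (lo5_two_ringZ_of hl) (hK.inH hO k6zs_ok) (in_nZz hK hN)
      AllOk.nil AllOk.nil) rg
      (by norm_num) (by norm_num) (by norm_num) (by norm_num)

theorem p5_twoE_two {s : Bool} (t : RDt K 5 l x dl ll dr rr w kl kr) (hC : Bh l dl ll .twoE)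
    (hk : Oh x dr rr .two s)
    (hl : (rq5 .twoE .two s).In (yH l (RR w kl) (Complex.cos w)) (zeta w))
    (rg : Rg (yH x (RR w kr) (Complex.cos w)) (zeta w)) :
    (rp5 .twoE .two s).In (yH x (RR w kr) (Complex.cos w)) (zeta w) := by
  have hN := t.right.ok.right.symm
  have hO := t.right.ok.left
  have hL := t.left.ok.right.symm
  obtain ⟨rfl, rfl, hre⟩ := hk.two hN.zr t.right.ok.ne
  cases rr
  · exact absurd rfl hre
  · obtain ⟨rfl, rfl, rfl⟩ := hC.twoE
    exact b4c_of (tuseC hK Bx ld5 t p5_1c_2_k2a_xs mn mn mn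
      (lo5_twoE_two_of hl) (hK.inH hO k6as_ok) (hK.inH hN k2aa_ok)
      AllOk.nil (dOk hK t rfl OR.a)) rg
      (by norm_num) (by norm_num) (by norm_num) (by norm_num)
  · exact absurd (hN.zl rfl) (by norm_num)
  · obtain ⟨rfl, rfl, rfl⟩ := hC.twoE
    exact b4c_of (tuseC hK Bx ld5 t p5_1c_2_k2s_xs mn mn mn
      (lo5_twoE_two_of hl) (hK.inH hO k6as_ok) (hK.inH hN k3as_ok)
      AllOk.nil (dOk hK t rfl OR.s)) rg
      (by norm_num) (by norm_num) (by norm_num) (by norm_num)

theorem p5_twoE_twoE {s : Bool} (t : RDt K 5 l x dl ll dr rr w kl kr) (hC : Bh l dl ll .twoE)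
    (hk : Oh x dr rr .twoE s)
    (hl : (rq5 .twoE .twoE s).In (yH l (RR w kl) (Complex.cos w)) (zeta w))
    (rg : Rg (yH x (RR w kr) (Complex.cos w)) (zeta w)) :
    (rp5 .twoE .twoE s).In (yH x (RR w kr) (Complex.cos w)) (zeta w) := by
  have hN := t.right.ok.right.symm
  have hO := t.right.ok.left
  have hL := t.left.ok.right.symm
  obtain ⟨rfl, rfl, rfl⟩ := hk.twoE hN.zr t.right.ok.ne
  obtain ⟨rfl, rfl, rfl⟩ := hC.twoE
  exact b4c_of (tuseC hK Bx ld5 t p5_1c_2e_k2e_xs mn mn mn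
    (lo5_twoE_twoE_of hl) (hK.inH hO k6as_ok) (hK.inH hN k2ea_ok)
    AllOk.nil (dOk hK t rfl OR.e)) rg
    (by norm_num) (by norm_num) (by norm_num) (by norm_num)

theorem p5_twoE_three {s : Bool} (t : RDt K 5 l x dl ll dr rr w kl kr) (hC : Bh l dl ll .twoE)
    (hk : Oh x dr rr .three s)
    (hl : (rq5 .twoE .three s).In (yH l (RR w kl) (Complex.cos w)) (zeta w))
    (rg : Rg (yH x (RR w kr) (Complex.cos w)) (zeta w)) :
    (rp5 .twoE .three s).In (yH x (RR w kr) (Complex.cos w)) (zeta w) := by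
  have hN := t.right.ok.right.symm
  have hO := t.right.ok.left
  have hL := t.left.ok.right.symm
  obtain ⟨rfl, rfl, hre⟩ := hk.three hN.zr t.right.ok.ne
  cases rr
  · exact absurd rfl hre
  · obtain ⟨rfl, rfl, rfl⟩ := hC.twoE
    exact b4c_of (tuseC hK Bx ld5 t p5_1c_3_k3a_xs mn mn mn
      (lo5_twoE_three_of hl) (hK.inH hO k6as_ok) (hK.inH hN k3aa_ok)
      AllOk.nil (dOk hK t rfl OR.a)) rg
      (by norm_num) (by norm_num) (by norm_num) (by norm_num)
  · exact absurd (hN.zl rfl) (by norm_num)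
  · obtain ⟨rfl, rfl, rfl⟩ := hC.twoE
    exact b4c_of (tuseC hK Bx ld5 t p5_1c_3_k3s_xs mn mn mn
      (lo5_twoE_three_of hl) (hK.inH hO k6as_ok) (hK.inH hN k4as_ok)
      AllOk.nil (dOk hK t rfl OR.s)) rg
      (by norm_num) (by norm_num) (by norm_num) (by norm_num)

theorem p5_twoE_threeE {s : Bool} (t : RDt K 5 l x dl ll dr rr w kl kr) (hC : Bh l dl ll .twoE)
    (hk : Oh x dr rr .threeE s)
    (hl : (rq5 .twoE .threeE s).In (yH l (RR w kl) (Complex.cos w)) (zeta w))
    (rg : Rg (yH x (RR w kr) (Complex.cos w)) (zeta w)) :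
    (rp5 .twoE .threeE s).In (yH x (RR w kr) (Complex.cos w)) (zeta w) := by
  have hN := t.right.ok.right.symm
  have hO := t.right.ok.left
  have hL := t.left.ok.right.symm
  obtain ⟨rfl, rfl, rfl⟩ := hk.threeE hN.zr t.right.ok.ne
  obtain ⟨rfl, rfl, rfl⟩ := hC.twoE
  exact b4c_of (tuseC hK Bx ld5 t p5_1c_3e_k3e_xs mn mn mn
    (lo5_twoE_threeE_of hl) (hK.inH hO k6as_ok) (hK.inH hN k3ea_ok)
    AllOk.nil (dOk hK t rfl OR.e)) rg
    (by norm_num) (by norm_num) (by norm_num) (by norm_num)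

theorem p5_twoE_ringA (t : RDt K 5 l x dl ll dr rr w kl kr) (hC : Bh l dl ll .twoE)
    (hk : Oh x dr rr .ring false)
    (hl : (rq5 .twoE .ring false).In (yH l (RR w kl) (Complex.cos w)) (zeta w))
    (rg : Rg (yH x (RR w kr) (Complex.cos w)) (zeta w)) :
    (rp5 .twoE .ring false).In (yH x (RR w kr) (Complex.cos w)) (zeta w) := by
  have hN := t.right.ok.right.symm
  have hO := t.right.ok.left
  have hL := t.left.ok.right.symm
  rcases hk.ring hN.pos t.right.ok.ne with ⟨rfl, -, hr4⟩ | ⟨-, h9, -⟩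
  · obtain ⟨rfl, rfl, rfl⟩ := hC.twoE
    exact b4c_of (tuseC hK Bx ld5 t p5_1c_Z_kZ_xs mn mn mn
      (lo5_twoE_ringA_of hl) (hK.inH hO k6as_ok) (in_nZa hK hN hr4)
      AllOk.nil AllOk.nil) rg
      (by norm_num) (by norm_num) (by norm_num) (by norm_num)
  · exact absurd h9 (by decide)

theorem p5_twoE_ringZ (t : RDt K 5 l x dl ll dr rr w kl kr) (hC : Bh l dl ll .twoE)
    (hk : Oh x dr rr .ring true)
    (hl : (rq5 .twoE .ring true).In (yH l (RR w kl) (Complex.cos w)) (zeta w))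
    (rg : Rg (yH x (RR w kr) (Complex.cos w)) (zeta w)) :
    (rp5 .twoE .ring true).In (yH x (RR w kr) (Complex.cos w)) (zeta w) := by
  have hN := t.right.ok.right.symm
  have hO := t.right.ok.left
  have hL := t.left.ok.right.symm
  rcases hk.ring hN.pos t.right.ok.ne with ⟨-, h9, -⟩ | ⟨rfl, -, hr4⟩
  · exact absurd h9 (by decide)
  · obtain ⟨rfl, rfl, rfl⟩ := hC.twoE
    exact b4c_of (tuseC hK Bx ld5 t p5_1c_Zs_kz_xs mn mn mn
      (lo5_twoE_ringZ_of hl) (hK.inH hO k6zs_ok) (in_nZz hK hN)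
      AllOk.nil AllOk.nil) rg
      (by norm_num) (by norm_num) (by norm_num) (by norm_num)

/-- the hinge next to the digit `1` -/
theorem rq5_of {C k : Cl} {s : Bool} (t : RDt K 5 l x dl ll dr rr w kl kr) (hC : Bh x dr rr C)
    (hk : Oh l dl ll k s) (hl : (hbox .ring k s).In (yH l (RR w kl) (Complex.cos w)))
    (rg : Rg (yH x (RR w kr) (Complex.cos w)) (zeta w)) :
    (rq5 C k s).In (yH x (RR w kr) (Complex.cos w)) (zeta w) := by
  rcases hC.cases t.right (by norm_num) with rfl | rfl | rfl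
  · cases k
    · exact q5_one_one hK Bx t hC hk hl rg
    · exact q5_one_two hK Bx t hC hk hl rg
    · exact q5_one_twoE hK Bx t hC hk hl rg
    · exact q5_one_three hK Bx t hC hk hl rg
    · exact q5_one_threeE hK Bx t hC hk hl rg
    · cases s
      · exact q5_one_ringA hK Bx t hC hk hl rg
      · exact q5_one_ringZ hK Bx t hC hk hl rg
  · cases k
    · exact q5_two_one hK Bx t hC hk hl rg
    · exact q5_two_two hK Bx t hC hk hl rg
    · exact q5_two_twoE hK Bx t hC hk hl rg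
    · exact q5_two_three hK Bx t hC hk hl rg
    · exact q5_two_threeE hK Bx t hC hk hl rg
    · cases s
      · exact q5_two_ringA hK Bx t hC hk hl rg
      · exact q5_two_ringZ hK Bx t hC hk hl rg
  · cases k
    · exact q5_twoE_one hK Bx t hC hk hl rg
    · exact q5_twoE_two hK Bx t hC hk hl rg
    · exact q5_twoE_twoE hK Bx t hC hk hl rg
    · exact q5_twoE_three hK Bx t hC hk hl rg
    · exact q5_twoE_threeE hK Bx t hC hk hl rg
    · cases s
      · exact q5_twoE_ringA hK Bx t hC hk hl rg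
      · exact q5_twoE_ringZ hK Bx t hC hk hl rg

/-- the other hinge -/
theorem rp5_of {C k : Cl} {s : Bool} (t : RDt K 5 l x dl ll dr rr w kl kr) (hC : Bh l dl ll C)
    (hk : Oh x dr rr k s) (hk1 : k ≠ .one)
    (hl : (rq5 C k s).In (yH l (RR w kl) (Complex.cos w)) (zeta w))
    (rg : Rg (yH x (RR w kr) (Complex.cos w)) (zeta w)) :
    (rp5 C k s).In (yH x (RR w kr) (Complex.cos w)) (zeta w) := by
  rcases hC.cases t.left (by norm_num) with rfl | rfl | rfl
  · cases k
    · exact absurd rfl hk1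
    · exact p5_one_two hK Bx t hC hk hl rg
    · exact p5_one_twoE hK Bx t hC hk hl rg
    · exact p5_one_three hK Bx t hC hk hl rg
    · exact p5_one_threeE hK Bx t hC hk hl rg
    · cases s
      · exact p5_one_ringA hK Bx t hC hk hl rg
      · exact p5_one_ringZ hK Bx t hC hk hl rg
  · cases k
    · exact absurd rfl hk1
    · exact p5_two_two hK Bx t hC hk hl rg
    · exact p5_two_twoE hK Bx t hC hk hl rg
    · exact p5_two_three hK Bx t hC hk hl rg
    · exact p5_two_threeE hK Bx t hC hk hl rg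
    · cases s
      · exact p5_two_ringA hK Bx t hC hk hl rg
      · exact p5_two_ringZ hK Bx t hC hk hl rg
  · cases k
    · exact absurd rfl hk1
    · exact p5_twoE_two hK Bx t hC hk hl rg
    · exact p5_twoE_twoE hK Bx t hC hk hl rg
    · exact p5_twoE_three hK Bx t hC hk hl rg
    · exact p5_twoE_threeE hK Bx t hC hk hl rg
    · cases s
      · exact p5_twoE_ringA hK Bx t hC hk hl rg
      · exact p5_twoE_ringZ hK Bx t hC hk hl rg

end

end

end Pool.Agent.Work.MP_b30479_gtS.G2.CN.TD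

end

section

/-!
# Windows of the rings with five crossings of a word next to a digit `1`
-/

namespace Pool.Agent.Work.MP_b30479_gtS.G2.CN.TD

open Complex SR
open scoped ComplexConjugate

noncomputable section

section
variable {M : ℕ} {b : Fin (M + 1) → ℤ} {w : ℕ → ℂ}
variable (hb : ClassW b) (F : RingFacts) (hw : Sol b w) (hM : 1 ≤ M) {K : KFam} (hK : KOK K)
  (hS : Snd K b w) (Bx : BoxRows K)
include hb F hw hM hK hS Bx

/-- **Windows of the rings with five crossings of a word next to a digit `1`.** -/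
theorem locRw5_of : LocRw 5 rq5 rp5 re5 b (zsW b w) :=
  locRw_mk hb F hw hM hS Bx (by norm_num) (fun h5 => absurd h5 (by norm_num))
    (fun t hC hk _ hl rg => rq5_of hK Bx t hC hk hl rg)
    (fun t hC hk hk1 hl rg => rp5_of hK Bx t hC hk hk1 hl rg) (fun t hC rg => re5_of hK t hC rg)

end

end

end Pool.Agent.Work.MP_b30479_gtS.G2.CN.TD

end

section

/-!
# Rings with 6 crossings next to a digit `1`
-/

namespace Pool.Agent.Work.MP_b30479_gtS.G2.CN.TD

open Complex SR

noncomputable section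

section
variable {K : KFam} (hK : KOK K) (Bx : BoxRows K) {l x : SK} {dl : ℕ} {ll : SK} {dr : ℕ} {rr : SK}
  {w kl kr : ℂ}
include hK Bx

theorem q6_one_one {s : Bool} (t : RDt K 6 l x dl ll dr rr w kl kr) (hC : Bh x dr rr .one)
    (hk : Oh l dl ll .one s)
    (hl : (hbox .ring .one s).In (yH l (RR w kl) (Complex.cos w)))
    (rg : Rg (yH x (RR w kr) (Complex.cos w)) (zeta w)) :
    (rq6 .one .one s).In (yH x (RR w kr) (Complex.cos w)) (zeta w) := by
  have hN := t.right.ok.right.symm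
  have hO := t.right.ok.left
  have hL := t.left.ok.right.symm
  rcases hC.one with ⟨rfl, rfl⟩ | ⟨rfl, rfl⟩
  · have e2 := far_s t.right.ok.right
    subst e2
    rcases hk.one hL.zr t.left.ok.ne with ⟨rfl, rfl⟩ | rfl
    · have e1 := far_s t.left.ok.right
      subst e1
      exact b4c_of (tuseC hK Bx ld6 t o6_1a_1_u_xa mn mn mn
        (lh_one_of hl) (hK.inH hO k6aa_ok) (hK.inH hN k2as_ok)
        AllOk.nil (dOk hK t rfl (OR.st (by decide)))) rg
        (by norm_num) (by norm_num) (by norm_num) (by norm_num)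
    · exact b4c_of (tuseC hK Bx ld6 t o6_1a_1_u_xs mn mn mn
        (lh_one_of hl) (hK.inH hO k7as_ok) (hK.inH hN k2as_ok)
        AllOk.nil (dOk hK t rfl (OR.st (by decide)))) rg
        (by norm_num) (by norm_num) (by norm_num) (by norm_num)
  · cases rr
    · exact absurd rfl (hN.one rfl).2.1
    · rcases hk.one hL.zr t.left.ok.ne with ⟨rfl, rfl⟩ | rfl
      · have e1 := far_s t.left.ok.right
        subst e1
        exact b4c_of (tuseC hK Bx ld6 t o6_1a_1_1a_xa mn mn mn
          (lh_one_of hl) (hK.inH hO k7as_ok) (hK.inH hN k2as_ok)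
          AllOk.nil (dOk hK t rfl (OR.a1 (by norm_num)))) rg
          (by norm_num) (by norm_num) (by norm_num) (by norm_num)
      · exact b4c_of (tuseC hK Bx ld6 t o6_1a_1_1a_xs mn mn mn
          (lh_one_of hl) (hK.inH hO k8ss_ok) (hK.inH hN k2as_ok)
          AllOk.nil (dOk hK t rfl (OR.a1 (by norm_num)))) rg
          (by norm_num) (by norm_num) (by norm_num) (by norm_num)
    · exact absurd (hN.zl rfl) (by norm_num)
    · rcases hk.one hL.zr t.left.ok.ne with ⟨rfl, rfl⟩ | rfl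
      · have e1 := far_s t.left.ok.right
        subst e1
        exact b4c_of (tuseC hK Bx ld6 t o6_1a_1_1s_xa mn mn mn
          (lh_one_of hl) (hK.inH hO k7as_ok) (hK.inH hN k3ss_ok)
          AllOk.nil (dOk hK t rfl OR.s)) rg
          (by norm_num) (by norm_num) (by norm_num) (by norm_num)
      · exact b4c_of (tuseC hK Bx ld6 t o6_1a_1_1s_xs mn mn mn
          (lh_one_of hl) (hK.inH hO k8ss_ok) (hK.inH hN k3ss_ok)
          AllOk.nil (dOk hK t rfl OR.s)) rg
          (by norm_num) (by norm_num) (by norm_num) (by norm_num)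

theorem q6_one_two {s : Bool} (t : RDt K 6 l x dl ll dr rr w kl kr) (hC : Bh x dr rr .one)
    (hk : Oh l dl ll .two s)
    (hl : (hbox .ring .two s).In (yH l (RR w kl) (Complex.cos w)))
    (rg : Rg (yH x (RR w kr) (Complex.cos w)) (zeta w)) :
    (rq6 .one .two s).In (yH x (RR w kr) (Complex.cos w)) (zeta w) := by
  have hN := t.right.ok.right.symm
  have hO := t.right.ok.left
  have hL := t.left.ok.right.symm
  rcases hC.one with ⟨rfl, rfl⟩ | ⟨rfl, rfl⟩
  · have e2 := far_s t.right.ok.right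
    subst e2
    obtain ⟨rfl, rfl, hle⟩ := hk.two hL.zr t.left.ok.ne
    exact b4c_of (tuseC hK Bx ld6 t o6_1a_2_u_xa mn mn mn
      (lh_two_of hl) (hK.inH hO k6aa_ok) (hK.inH hN k2as_ok)
      AllOk.nil (dOk hK t rfl (OR.st (by decide)))) rg
      (by norm_num) (by norm_num) (by norm_num) (by norm_num)
  · cases rr
    · exact absurd rfl (hN.one rfl).2.1
    · obtain ⟨rfl, rfl, hle⟩ := hk.two hL.zr t.left.ok.ne
      exact b4c_of (tuseC hK Bx ld6 t o6_1a_2_1a_xa mn mn mn
        (lh_two_of hl) (hK.inH hO k7as_ok) (hK.inH hN k2as_ok)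
        AllOk.nil (dOk hK t rfl (OR.a1 (by norm_num)))) rg
        (by norm_num) (by norm_num) (by norm_num) (by norm_num)
    · exact absurd (hN.zl rfl) (by norm_num)
    · obtain ⟨rfl, rfl, hle⟩ := hk.two hL.zr t.left.ok.ne
      exact b4c_of (tuseC hK Bx ld6 t o6_1a_2_1s_xa mn mn mn
        (lh_two_of hl) (hK.inH hO k7as_ok) (hK.inH hN k3ss_ok)
        AllOk.nil (dOk hK t rfl OR.s)) rg
        (by norm_num) (by norm_num) (by norm_num) (by norm_num)

theorem q6_one_twoE {s : Bool} (t : RDt K 6 l x dl ll dr rr w kl kr) (hC : Bh x dr rr .one)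
    (hk : Oh l dl ll .twoE s)
    (hl : (hbox .ring .twoE s).In (yH l (RR w kl) (Complex.cos w)))
    (rg : Rg (yH x (RR w kr) (Complex.cos w)) (zeta w)) :
    (rq6 .one .twoE s).In (yH x (RR w kr) (Complex.cos w)) (zeta w) := by
  have hN := t.right.ok.right.symm
  have hO := t.right.ok.left
  have hL := t.left.ok.right.symm
  rcases hC.one with ⟨rfl, rfl⟩ | ⟨rfl, rfl⟩
  · have e2 := far_s t.right.ok.right
    subst e2
    obtain ⟨rfl, rfl, rfl⟩ := hk.twoE hL.zr t.left.ok.ne
    exact b4c_of (tuseC hK Bx ld6 t o6_1a_2e_u_xa mn mn mn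
      (lh_twoE_of hl) (hK.inH hO k6aa_ok) (hK.inH hN k2as_ok)
      AllOk.nil (dOk hK t rfl (OR.st (by decide)))) rg
      (by norm_num) (by norm_num) (by norm_num) (by norm_num)
  · cases rr
    · exact absurd rfl (hN.one rfl).2.1
    · obtain ⟨rfl, rfl, rfl⟩ := hk.twoE hL.zr t.left.ok.ne
      exact b4c_of (tuseC hK Bx ld6 t o6_1a_2e_1a_xa mn mn mn
        (lh_twoE_of hl) (hK.inH hO k7as_ok) (hK.inH hN k2as_ok)
        AllOk.nil (dOk hK t rfl (OR.a1 (by norm_num)))) rg
        (by norm_num) (by norm_num) (by norm_num) (by norm_num)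
    · exact absurd (hN.zl rfl) (by norm_num)
    · obtain ⟨rfl, rfl, rfl⟩ := hk.twoE hL.zr t.left.ok.ne
      exact b4c_of (tuseC hK Bx ld6 t o6_1a_2e_1s_xa mn mn mn
        (lh_twoE_of hl) (hK.inH hO k7as_ok) (hK.inH hN k3ss_ok)
        AllOk.nil (dOk hK t rfl OR.s)) rg
        (by norm_num) (by norm_num) (by norm_num) (by norm_num)

theorem q6_one_three {s : Bool} (t : RDt K 6 l x dl ll dr rr w kl kr) (hC : Bh x dr rr .one)
    (hk : Oh l dl ll .three s)
    (hl : (hbox .ring .three s).In (yH l (RR w kl) (Complex.cos w)))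
    (rg : Rg (yH x (RR w kr) (Complex.cos w)) (zeta w)) :
    (rq6 .one .three s).In (yH x (RR w kr) (Complex.cos w)) (zeta w) := by
  have hN := t.right.ok.right.symm
  have hO := t.right.ok.left
  have hL := t.left.ok.right.symm
  rcases hC.one with ⟨rfl, rfl⟩ | ⟨rfl, rfl⟩
  · have e2 := far_s t.right.ok.right
    subst e2
    obtain ⟨rfl, rfl, hle⟩ := hk.three hL.zr t.left.ok.ne
    exact b4c_of (tuseC hK Bx ld6 t o6_1a_3_u_xa mn mn mn
      (lh_three_of hl) (hK.inH hO k6aa_ok) (hK.inH hN k2as_ok)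
      AllOk.nil (dOk hK t rfl (OR.st (by decide)))) rg
      (by norm_num) (by norm_num) (by norm_num) (by norm_num)
  · cases rr
    · exact absurd rfl (hN.one rfl).2.1
    · obtain ⟨rfl, rfl, hle⟩ := hk.three hL.zr t.left.ok.ne
      exact b4c_of (tuseC hK Bx ld6 t o6_1a_3_1a_xa mn mn mn
        (lh_three_of hl) (hK.inH hO k7as_ok) (hK.inH hN k2as_ok)
        AllOk.nil (dOk hK t rfl (OR.a1 (by norm_num)))) rg
        (by norm_num) (by norm_num) (by norm_num) (by norm_num)
    · exact absurd (hN.zl rfl) (by norm_num)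
    · obtain ⟨rfl, rfl, hle⟩ := hk.three hL.zr t.left.ok.ne
      exact b4c_of (tuseC hK Bx ld6 t o6_1a_3_1s_xa mn mn mn
        (lh_three_of hl) (hK.inH hO k7as_ok) (hK.inH hN k3ss_ok)
        AllOk.nil (dOk hK t rfl OR.s)) rg
        (by norm_num) (by norm_num) (by norm_num) (by norm_num)

theorem q6_one_threeE {s : Bool} (t : RDt K 6 l x dl ll dr rr w kl kr) (hC : Bh x dr rr .one)
    (hk : Oh l dl ll .threeE s)
    (hl : (hbox .ring .threeE s).In (yH l (RR w kl) (Complex.cos w)))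
    (rg : Rg (yH x (RR w kr) (Complex.cos w)) (zeta w)) :
    (rq6 .one .threeE s).In (yH x (RR w kr) (Complex.cos w)) (zeta w) := by
  have hN := t.right.ok.right.symm
  have hO := t.right.ok.left
  have hL := t.left.ok.right.symm
  rcases hC.one with ⟨rfl, rfl⟩ | ⟨rfl, rfl⟩
  · have e2 := far_s t.right.ok.right
    subst e2
    obtain ⟨rfl, rfl, rfl⟩ := hk.threeE hL.zr t.left.ok.ne
    exact b4c_of (tuseC hK Bx ld6 t o6_1a_3e_u_xa mn mn mn
      (lh_threeE_of hl) (hK.inH hO k6aa_ok) (hK.inH hN k2as_ok)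
      AllOk.nil (dOk hK t rfl (OR.st (by decide)))) rg
      (by norm_num) (by norm_num) (by norm_num) (by norm_num)
  · cases rr
    · exact absurd rfl (hN.one rfl).2.1
    · obtain ⟨rfl, rfl, rfl⟩ := hk.threeE hL.zr t.left.ok.ne
      exact b4c_of (tuseC hK Bx ld6 t o6_1a_3e_1a_xa mn mn mn
        (lh_threeE_of hl) (hK.inH hO k7as_ok) (hK.inH hN k2as_ok)
        AllOk.nil (dOk hK t rfl (OR.a1 (by norm_num)))) rg
        (by norm_num) (by norm_num) (by norm_num) (by norm_num)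
    · exact absurd (hN.zl rfl) (by norm_num)
    · obtain ⟨rfl, rfl, rfl⟩ := hk.threeE hL.zr t.left.ok.ne
      exact b4c_of (tuseC hK Bx ld6 t o6_1a_3e_1s_xa mn mn mn
        (lh_threeE_of hl) (hK.inH hO k7as_ok) (hK.inH hN k3ss_ok)
        AllOk.nil (dOk hK t rfl OR.s)) rg
        (by norm_num) (by norm_num) (by norm_num) (by norm_num)

theorem q6_one_ringA (t : RDt K 6 l x dl ll dr rr w kl kr) (hC : Bh x dr rr .one)
    (hk : Oh l dl ll .ring false)
    (hl : (hbox .ring .ring false).In (yH l (RR w kl) (Complex.cos w)))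
    (rg : Rg (yH x (RR w kr) (Complex.cos w)) (zeta w)) :
    (rq6 .one .ring false).In (yH x (RR w kr) (Complex.cos w)) (zeta w) := by
  have hN := t.right.ok.right.symm
  have hO := t.right.ok.left
  have hL := t.left.ok.right.symm
  rcases hC.one with ⟨rfl, rfl⟩ | ⟨rfl, rfl⟩
  · have e2 := far_s t.right.ok.right
    subst e2
    rcases hk.ring hL.pos t.left.ok.ne with ⟨rfl, -, hl4⟩ | ⟨-, h9, -⟩
    · exact b4c_of (tuseC hK Bx ld6 t o6_1a_Z_u_xa mn mn mn
        (lh_ringA_of hl) (hK.inH hO k6aa_ok) (hK.inH hN k2as_ok)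
        AllOk.nil (dOk hK t rfl (OR.st (by decide)))) rg
        (by norm_num) (by norm_num) (by norm_num) (by norm_num)
    · exact absurd h9 (by decide)
  · cases rr
    · exact absurd rfl (hN.one rfl).2.1
    · rcases hk.ring hL.pos t.left.ok.ne with ⟨rfl, -, hl4⟩ | ⟨-, h9, -⟩
      · exact b4c_of (tuseC hK Bx ld6 t o6_1a_Z_1a_xa mn mn mn
          (lh_ringA_of hl) (hK.inH hO k7as_ok) (hK.inH hN k2as_ok)
          AllOk.nil (dOk hK t rfl (OR.a1 (by norm_num)))) rg
          (by norm_num) (by norm_num) (by norm_num) (by norm_num)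
      · exact absurd h9 (by decide)
    · exact absurd (hN.zl rfl) (by norm_num)
    · rcases hk.ring hL.pos t.left.ok.ne with ⟨rfl, -, hl4⟩ | ⟨-, h9, -⟩
      · exact b4c_of (tuseC hK Bx ld6 t o6_1a_Z_1s_xa mn mn mn
          (lh_ringA_of hl) (hK.inH hO k7as_ok) (hK.inH hN k3ss_ok)
          AllOk.nil (dOk hK t rfl OR.s)) rg
          (by norm_num) (by norm_num) (by norm_num) (by norm_num)
      · exact absurd h9 (by decide)

theorem q6_one_ringZ (t : RDt K 6 l x dl ll dr rr w kl kr) (hC : Bh x dr rr .one)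
    (hk : Oh l dl ll .ring true)
    (hl : (hbox .ring .ring true).In (yH l (RR w kl) (Complex.cos w)))
    (rg : Rg (yH x (RR w kr) (Complex.cos w)) (zeta w)) :
    (rq6 .one .ring true).In (yH x (RR w kr) (Complex.cos w)) (zeta w) := by
  have hN := t.right.ok.right.symm
  have hO := t.right.ok.left
  have hL := t.left.ok.right.symm
  rcases hC.one with ⟨rfl, rfl⟩ | ⟨rfl, rfl⟩
  · have e2 := far_s t.right.ok.right
    subst e2
    rcases hk.ring hL.pos t.left.ok.ne with ⟨-, h9, -⟩ | ⟨rfl, -, hl4⟩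
    · exact absurd h9 (by decide)
    · exact b4c_of (tuseC hK Bx ld6 t o6_1a_Zs_u_xz mn mn mn
        (lh_ringZ_of hl) (hK.inH hO k6az_ok) (hK.inH hN k2as_ok)
        AllOk.nil (dOk hK t rfl (OR.st (by decide)))) rg
        (by norm_num) (by norm_num) (by norm_num) (by norm_num)
  · cases rr
    · exact absurd rfl (hN.one rfl).2.1
    · rcases hk.ring hL.pos t.left.ok.ne with ⟨-, h9, -⟩ | ⟨rfl, -, hl4⟩
      · exact absurd h9 (by decide)
      · exact b4c_of (tuseC hK Bx ld6 t o6_1a_Zs_1a_xz mn mn mn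
          (lh_ringZ_of hl) (hK.inH hO k7zs_ok) (hK.inH hN k2as_ok)
          AllOk.nil (dOk hK t rfl (OR.a1 (by norm_num)))) rg
          (by norm_num) (by norm_num) (by norm_num) (by norm_num)
    · exact absurd (hN.zl rfl) (by norm_num)
    · rcases hk.ring hL.pos t.left.ok.ne with ⟨-, h9, -⟩ | ⟨rfl, -, hl4⟩
      · exact absurd h9 (by decide)
      · exact b4c_of (tuseC hK Bx ld6 t o6_1a_Zs_1s_xz mn mn mn
          (lh_ringZ_of hl) (hK.inH hO k7zs_ok) (hK.inH hN k3ss_ok)
          AllOk.nil (dOk hK t rfl OR.s)) rg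
          (by norm_num) (by norm_num) (by norm_num) (by norm_num)

theorem q6_two_one {s : Bool} (t : RDt K 6 l x dl ll dr rr w kl kr) (hC : Bh x dr rr .two)
    (hk : Oh l dl ll .one s)
    (hl : (hbox .ring .one s).In (yH l (RR w kl) (Complex.cos w)))
    (rg : Rg (yH x (RR w kr) (Complex.cos w)) (zeta w)) :
    (rq6 .two .one s).In (yH x (RR w kr) (Complex.cos w)) (zeta w) := by
  have hN := t.right.ok.right.symm
  have hO := t.right.ok.left
  have hL := t.left.ok.right.symm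
  obtain ⟨rfl, rfl, hre⟩ := hC.two
  cases rr
  · exact absurd rfl hre
  · rcases hk.one hL.zr t.left.ok.ne with ⟨rfl, rfl⟩ | rfl
    · have e1 := far_s t.left.ok.right
      subst e1
      exact b4c_of (tuseC hK Bx ld6 t o6_1b_1_2a_xa mn mn mn
        (lh_one_of hl) (hK.inH hO k7as_ok) (hK.inH hN k3as_ok)
        AllOk.nil (dOk hK t rfl OR.a)) rg
        (by norm_num) (by norm_num) (by norm_num) (by norm_num)
    · exact b4c_of (tuseC hK Bx ld6 t o6_1b_1_2a_xs mn mn mn
        (lh_one_of hl) (hK.inH hO k8ss_ok) (hK.inH hN k3as_ok)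
        AllOk.nil (dOk hK t rfl OR.a)) rg
        (by norm_num) (by norm_num) (by norm_num) (by norm_num)
  · exact absurd (hN.zl rfl) (by norm_num)
  · rcases hk.one hL.zr t.left.ok.ne with ⟨rfl, rfl⟩ | rfl
    · have e1 := far_s t.left.ok.right
      subst e1
      exact b4c_of (tuseC hK Bx ld6 t o6_1b_1_2s_xa mn mn mn
        (lh_one_of hl) (hK.inH hO k7as_ok) (hK.inH hN k4ss_ok)
        AllOk.nil (dOk hK t rfl OR.s)) rg
        (by norm_num) (by norm_num) (by norm_num) (by norm_num)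
    · exact b4c_of (tuseC hK Bx ld6 t o6_1b_1_2s_xs mn mn mn
        (lh_one_of hl) (hK.inH hO k8ss_ok) (hK.inH hN k4ss_ok)
        AllOk.nil (dOk hK t rfl OR.s)) rg
        (by norm_num) (by norm_num) (by norm_num) (by norm_num)

theorem q6_two_two {s : Bool} (t : RDt K 6 l x dl ll dr rr w kl kr) (hC : Bh x dr rr .two)
    (hk : Oh l dl ll .two s)
    (hl : (hbox .ring .two s).In (yH l (RR w kl) (Complex.cos w)))
    (rg : Rg (yH x (RR w kr) (Complex.cos w)) (zeta w)) :
    (rq6 .two .two s).In (yH x (RR w kr) (Complex.cos w)) (zeta w) := by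
  have hN := t.right.ok.right.symm
  have hO := t.right.ok.left
  have hL := t.left.ok.right.symm
  obtain ⟨rfl, rfl, hre⟩ := hC.two
  cases rr
  · exact absurd rfl hre
  · obtain ⟨rfl, rfl, hle⟩ := hk.two hL.zr t.left.ok.ne
    exact b4c_of (tuseC hK Bx ld6 t o6_1b_2_2a_xa mn mn mn
      (lh_two_of hl) (hK.inH hO k7as_ok) (hK.inH hN k3as_ok)
      AllOk.nil (dOk hK t rfl OR.a)) rg
      (by norm_num) (by norm_num) (by norm_num) (by norm_num)
  · exact absurd (hN.zl rfl) (by norm_num)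
  · obtain ⟨rfl, rfl, hle⟩ := hk.two hL.zr t.left.ok.ne
    exact b4c_of (tuseC hK Bx ld6 t o6_1b_2_2s_xa mn mn mn
      (lh_two_of hl) (hK.inH hO k7as_ok) (hK.inH hN k4ss_ok)
      AllOk.nil (dOk hK t rfl OR.s)) rg
      (by norm_num) (by norm_num) (by norm_num) (by norm_num)

theorem q6_two_twoE {s : Bool} (t : RDt K 6 l x dl ll dr rr w kl kr) (hC : Bh x dr rr .two)
    (hk : Oh l dl ll .twoE s)
    (hl : (hbox .ring .twoE s).In (yH l (RR w kl) (Complex.cos w)))
    (rg : Rg (yH x (RR w kr) (Complex.cos w)) (zeta w)) :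
    (rq6 .two .twoE s).In (yH x (RR w kr) (Complex.cos w)) (zeta w) := by
  have hN := t.right.ok.right.symm
  have hO := t.right.ok.left
  have hL := t.left.ok.right.symm
  obtain ⟨rfl, rfl, hre⟩ := hC.two
  cases rr
  · exact absurd rfl hre
  · obtain ⟨rfl, rfl, rfl⟩ := hk.twoE hL.zr t.left.ok.ne
    exact b4c_of (tuseC hK Bx ld6 t o6_1b_2e_2a_xa mn mn mn
      (lh_twoE_of hl) (hK.inH hO k7as_ok) (hK.inH hN k3as_ok)
      AllOk.nil (dOk hK t rfl OR.a)) rg
      (by norm_num) (by norm_num) (by norm_num) (by norm_num)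
  · exact absurd (hN.zl rfl) (by norm_num)
  · obtain ⟨rfl, rfl, rfl⟩ := hk.twoE hL.zr t.left.ok.ne
    exact b4c_of (tuseC hK Bx ld6 t o6_1b_2e_2s_xa mn mn mn
      (lh_twoE_of hl) (hK.inH hO k7as_ok) (hK.inH hN k4ss_ok)
      AllOk.nil (dOk hK t rfl OR.s)) rg
      (by norm_num) (by norm_num) (by norm_num) (by norm_num)

theorem q6_two_three {s : Bool} (t : RDt K 6 l x dl ll dr rr w kl kr) (hC : Bh x dr rr .two)
    (hk : Oh l dl ll .three s)
    (hl : (hbox .ring .three s).In (yH l (RR w kl) (Complex.cos w)))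
    (rg : Rg (yH x (RR w kr) (Complex.cos w)) (zeta w)) :
    (rq6 .two .three s).In (yH x (RR w kr) (Complex.cos w)) (zeta w) := by
  have hN := t.right.ok.right.symm
  have hO := t.right.ok.left
  have hL := t.left.ok.right.symm
  obtain ⟨rfl, rfl, hre⟩ := hC.two
  cases rr
  · exact absurd rfl hre
  · obtain ⟨rfl, rfl, hle⟩ := hk.three hL.zr t.left.ok.ne
    exact b4c_of (tuseC hK Bx ld6 t o6_1b_3_2a_xa mn mn mn
      (lh_three_of hl) (hK.inH hO k7as_ok) (hK.inH hN k3as_ok)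
      AllOk.nil (dOk hK t rfl OR.a)) rg
      (by norm_num) (by norm_num) (by norm_num) (by norm_num)
  · exact absurd (hN.zl rfl) (by norm_num)
  · obtain ⟨rfl, rfl, hle⟩ := hk.three hL.zr t.left.ok.ne
    exact b4c_of (tuseC hK Bx ld6 t o6_1b_3_2s_xa mn mn mn
      (lh_three_of hl) (hK.inH hO k7as_ok) (hK.inH hN k4ss_ok)
      AllOk.nil (dOk hK t rfl OR.s)) rg
      (by norm_num) (by norm_num) (by norm_num) (by norm_num)

theorem q6_two_threeE {s : Bool} (t : RDt K 6 l x dl ll dr rr w kl kr) (hC : Bh x dr rr .two)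
    (hk : Oh l dl ll .threeE s)
    (hl : (hbox .ring .threeE s).In (yH l (RR w kl) (Complex.cos w)))
    (rg : Rg (yH x (RR w kr) (Complex.cos w)) (zeta w)) :
    (rq6 .two .threeE s).In (yH x (RR w kr) (Complex.cos w)) (zeta w) := by
  have hN := t.right.ok.right.symm
  have hO := t.right.ok.left
  have hL := t.left.ok.right.symm
  obtain ⟨rfl, rfl, hre⟩ := hC.two
  cases rr
  · exact absurd rfl hre
  · obtain ⟨rfl, rfl, rfl⟩ := hk.threeE hL.zr t.left.ok.ne
    exact b4c_of (tuseC hK Bx ld6 t o6_1b_3e_2a_xa mn mn mn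
      (lh_threeE_of hl) (hK.inH hO k7as_ok) (hK.inH hN k3as_ok)
      AllOk.nil (dOk hK t rfl OR.a)) rg
      (by norm_num) (by norm_num) (by norm_num) (by norm_num)
  · exact absurd (hN.zl rfl) (by norm_num)
  · obtain ⟨rfl, rfl, rfl⟩ := hk.threeE hL.zr t.left.ok.ne
    exact b4c_of (tuseC hK Bx ld6 t o6_1b_3e_2s_xa mn mn mn
      (lh_threeE_of hl) (hK.inH hO k7as_ok) (hK.inH hN k4ss_ok)
      AllOk.nil (dOk hK t rfl OR.s)) rg
      (by norm_num) (by norm_num) (by norm_num) (by norm_num)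

theorem q6_two_ringA (t : RDt K 6 l x dl ll dr rr w kl kr) (hC : Bh x dr rr .two)
    (hk : Oh l dl ll .ring false)
    (hl : (hbox .ring .ring false).In (yH l (RR w kl) (Complex.cos w)))
    (rg : Rg (yH x (RR w kr) (Complex.cos w)) (zeta w)) :
    (rq6 .two .ring false).In (yH x (RR w kr) (Complex.cos w)) (zeta w) := by
  have hN := t.right.ok.right.symm
  have hO := t.right.ok.left
  have hL := t.left.ok.right.symm
  obtain ⟨rfl, rfl, hre⟩ := hC.two
  cases rr
  · exact absurd rfl hre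
  · rcases hk.ring hL.pos t.left.ok.ne with ⟨rfl, -, hl4⟩ | ⟨-, h9, -⟩
    · exact b4c_of (tuseC hK Bx ld6 t o6_1b_Z_2a_xa mn mn mn
        (lh_ringA_of hl) (hK.inH hO k7as_ok) (hK.inH hN k3as_ok)
        AllOk.nil (dOk hK t rfl OR.a)) rg
        (by norm_num) (by norm_num) (by norm_num) (by norm_num)
    · exact absurd h9 (by decide)
  · exact absurd (hN.zl rfl) (by norm_num)
  · rcases hk.ring hL.pos t.left.ok.ne with ⟨rfl, -, hl4⟩ | ⟨-, h9, -⟩
    · exact b4c_of (tuseC hK Bx ld6 t o6_1b_Z_2s_xa mn mn mn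
        (lh_ringA_of hl) (hK.inH hO k7as_ok) (hK.inH hN k4ss_ok)
        AllOk.nil (dOk hK t rfl OR.s)) rg
        (by norm_num) (by norm_num) (by norm_num) (by norm_num)
    · exact absurd h9 (by decide)

theorem q6_two_ringZ (t : RDt K 6 l x dl ll dr rr w kl kr) (hC : Bh x dr rr .two)
    (hk : Oh l dl ll .ring true)
    (hl : (hbox .ring .ring true).In (yH l (RR w kl) (Complex.cos w)))
    (rg : Rg (yH x (RR w kr) (Complex.cos w)) (zeta w)) :
    (rq6 .two .ring true).In (yH x (RR w kr) (Complex.cos w)) (zeta w) := by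
  have hN := t.right.ok.right.symm
  have hO := t.right.ok.left
  have hL := t.left.ok.right.symm
  obtain ⟨rfl, rfl, hre⟩ := hC.two
  cases rr
  · exact absurd rfl hre
  · rcases hk.ring hL.pos t.left.ok.ne with ⟨-, h9, -⟩ | ⟨rfl, -, hl4⟩
    · exact absurd h9 (by decide)
    · exact b4c_of (tuseC hK Bx ld6 t o6_1b_Zs_2a_xz mn mn mn
        (lh_ringZ_of hl) (hK.inH hO k7zs_ok) (hK.inH hN k3as_ok)
        AllOk.nil (dOk hK t rfl OR.a)) rg
        (by norm_num) (by norm_num) (by norm_num) (by norm_num)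
  · exact absurd (hN.zl rfl) (by norm_num)
  · rcases hk.ring hL.pos t.left.ok.ne with ⟨-, h9, -⟩ | ⟨rfl, -, hl4⟩
    · exact absurd h9 (by decide)
    · exact b4c_of (tuseC hK Bx ld6 t o6_1b_Zs_2s_xz mn mn mn
        (lh_ringZ_of hl) (hK.inH hO k7zs_ok) (hK.inH hN k4ss_ok)
        AllOk.nil (dOk hK t rfl OR.s)) rg
        (by norm_num) (by norm_num) (by norm_num) (by norm_num)

theorem q6_twoE_one {s : Bool} (t : RDt K 6 l x dl ll dr rr w kl kr) (hC : Bh x dr rr .twoE)
    (hk : Oh l dl ll .one s)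
    (hl : (hbox .ring .one s).In (yH l (RR w kl) (Complex.cos w)))
    (rg : Rg (yH x (RR w kr) (Complex.cos w)) (zeta w)) :
    (rq6 .twoE .one s).In (yH x (RR w kr) (Complex.cos w)) (zeta w) := by
  have hN := t.right.ok.right.symm
  have hO := t.right.ok.left
  have hL := t.left.ok.right.symm
  obtain ⟨rfl, rfl, rfl⟩ := hC.twoE
  rcases hk.one hL.zr t.left.ok.ne with ⟨rfl, rfl⟩ | rfl
  · have e1 := far_s t.left.ok.right
    subst e1
    exact b4c_of (tuseC hK Bx ld6 t o6_1c_1_2e_xa mn mn mn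
      (lh_one_of hl) (hK.inH hO k7as_ok) (hK.inH hN k3es_ok)
      AllOk.nil (dOk hK t rfl OR.e)) rg
      (by norm_num) (by norm_num) (by norm_num) (by norm_num)
  · exact b4c_of (tuseC hK Bx ld6 t o6_1c_1_2e_xs mn mn mn
      (lh_one_of hl) (hK.inH hO k8ss_ok) (hK.inH hN k3es_ok)
      AllOk.nil (dOk hK t rfl OR.e)) rg
      (by norm_num) (by norm_num) (by norm_num) (by norm_num)

theorem q6_twoE_two {s : Bool} (t : RDt K 6 l x dl ll dr rr w kl kr) (hC : Bh x dr rr .twoE)
    (hk : Oh l dl ll .two s)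
    (hl : (hbox .ring .two s).In (yH l (RR w kl) (Complex.cos w)))
    (rg : Rg (yH x (RR w kr) (Complex.cos w)) (zeta w)) :
    (rq6 .twoE .two s).In (yH x (RR w kr) (Complex.cos w)) (zeta w) := by
  have hN := t.right.ok.right.symm
  have hO := t.right.ok.left
  have hL := t.left.ok.right.symm
  obtain ⟨rfl, rfl, rfl⟩ := hC.twoE
  obtain ⟨rfl, rfl, hle⟩ := hk.two hL.zr t.left.ok.ne
  exact b4c_of (tuseC hK Bx ld6 t o6_1c_2_2e_xa mn mn mn
    (lh_two_of hl) (hK.inH hO k7as_ok) (hK.inH hN k3es_ok)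
    AllOk.nil (dOk hK t rfl OR.e)) rg
    (by norm_num) (by norm_num) (by norm_num) (by norm_num)

theorem q6_twoE_twoE {s : Bool} (t : RDt K 6 l x dl ll dr rr w kl kr) (hC : Bh x dr rr .twoE)
    (hk : Oh l dl ll .twoE s)
    (hl : (hbox .ring .twoE s).In (yH l (RR w kl) (Complex.cos w)))
    (rg : Rg (yH x (RR w kr) (Complex.cos w)) (zeta w)) :
    (rq6 .twoE .twoE s).In (yH x (RR w kr) (Complex.cos w)) (zeta w) := by
  have hN := t.right.ok.right.symm
  have hO := t.right.ok.left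
  have hL := t.left.ok.right.symm
  obtain ⟨rfl, rfl, rfl⟩ := hC.twoE
  obtain ⟨rfl, rfl, rfl⟩ := hk.twoE hL.zr t.left.ok.ne
  exact b4c_of (tuseC hK Bx ld6 t o6_1c_2e_2e_xa mn mn mn
    (lh_twoE_of hl) (hK.inH hO k7as_ok) (hK.inH hN k3es_ok)
    AllOk.nil (dOk hK t rfl OR.e)) rg
    (by norm_num) (by norm_num) (by norm_num) (by norm_num)

theorem q6_twoE_three {s : Bool} (t : RDt K 6 l x dl ll dr rr w kl kr) (hC : Bh x dr rr .twoE)
    (hk : Oh l dl ll .three s)
    (hl : (hbox .ring .three s).In (yH l (RR w kl) (Complex.cos w)))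
    (rg : Rg (yH x (RR w kr) (Complex.cos w)) (zeta w)) :
    (rq6 .twoE .three s).In (yH x (RR w kr) (Complex.cos w)) (zeta w) := by
  have hN := t.right.ok.right.symm
  have hO := t.right.ok.left
  have hL := t.left.ok.right.symm
  obtain ⟨rfl, rfl, rfl⟩ := hC.twoE
  obtain ⟨rfl, rfl, hle⟩ := hk.three hL.zr t.left.ok.ne
  exact b4c_of (tuseC hK Bx ld6 t o6_1c_3_2e_xa mn mn mn
    (lh_three_of hl) (hK.inH hO k7as_ok) (hK.inH hN k3es_ok)
    AllOk.nil (dOk hK t rfl OR.e)) rg
    (by norm_num) (by norm_num) (by norm_num) (by norm_num)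

theorem q6_twoE_threeE {s : Bool} (t : RDt K 6 l x dl ll dr rr w kl kr) (hC : Bh x dr rr .twoE)
    (hk : Oh l dl ll .threeE s)
    (hl : (hbox .ring .threeE s).In (yH l (RR w kl) (Complex.cos w)))
    (rg : Rg (yH x (RR w kr) (Complex.cos w)) (zeta w)) :
    (rq6 .twoE .threeE s).In (yH x (RR w kr) (Complex.cos w)) (zeta w) := by
  have hN := t.right.ok.right.symm
  have hO := t.right.ok.left
  have hL := t.left.ok.right.symm
  obtain ⟨rfl, rfl, rfl⟩ := hC.twoE
  obtain ⟨rfl, rfl, rfl⟩ := hk.threeE hL.zr t.left.ok.ne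
  exact b4c_of (tuseC hK Bx ld6 t o6_1c_3e_2e_xa mn mn mn
    (lh_threeE_of hl) (hK.inH hO k7as_ok) (hK.inH hN k3es_ok)
    AllOk.nil (dOk hK t rfl OR.e)) rg
    (by norm_num) (by norm_num) (by norm_num) (by norm_num)

theorem q6_twoE_ringA (t : RDt K 6 l x dl ll dr rr w kl kr) (hC : Bh x dr rr .twoE)
    (hk : Oh l dl ll .ring false)
    (hl : (hbox .ring .ring false).In (yH l (RR w kl) (Complex.cos w)))
    (rg : Rg (yH x (RR w kr) (Complex.cos w)) (zeta w)) :
    (rq6 .twoE .ring false).In (yH x (RR w kr) (Complex.cos w)) (zeta w) := by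
  have hN := t.right.ok.right.symm
  have hO := t.right.ok.left
  have hL := t.left.ok.right.symm
  obtain ⟨rfl, rfl, rfl⟩ := hC.twoE
  rcases hk.ring hL.pos t.left.ok.ne with ⟨rfl, -, hl4⟩ | ⟨-, h9, -⟩
  · exact b4c_of (tuseC hK Bx ld6 t o6_1c_Z_2e_xa mn mn mn
      (lh_ringA_of hl) (hK.inH hO k7as_ok) (hK.inH hN k3es_ok)
      AllOk.nil (dOk hK t rfl OR.e)) rg
      (by norm_num) (by norm_num) (by norm_num) (by norm_num)
  · exact absurd h9 (by decide)

theorem q6_twoE_ringZ (t : RDt K 6 l x dl ll dr rr w kl kr) (hC : Bh x dr rr .twoE)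
    (hk : Oh l dl ll .ring true)
    (hl : (hbox .ring .ring true).In (yH l (RR w kl) (Complex.cos w)))
    (rg : Rg (yH x (RR w kr) (Complex.cos w)) (zeta w)) :
    (rq6 .twoE .ring true).In (yH x (RR w kr) (Complex.cos w)) (zeta w) := by
  have hN := t.right.ok.right.symm
  have hO := t.right.ok.left
  have hL := t.left.ok.right.symm
  obtain ⟨rfl, rfl, rfl⟩ := hC.twoE
  rcases hk.ring hL.pos t.left.ok.ne with ⟨-, h9, -⟩ | ⟨rfl, -, hl4⟩
  · exact absurd h9 (by decide)
  · exact b4c_of (tuseC hK Bx ld6 t o6_1c_Zs_2e_xz mn mn mn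
      (lh_ringZ_of hl) (hK.inH hO k7zs_ok) (hK.inH hN k3es_ok)
      AllOk.nil (dOk hK t rfl OR.e)) rg
      (by norm_num) (by norm_num) (by norm_num) (by norm_num)

theorem p6_one_two {s : Bool} (t : RDt K 6 l x dl ll dr rr w kl kr) (hC : Bh l dl ll .one)
    (hk : Oh x dr rr .two s)
    (hl : (rq6 .one .two s).In (yH l (RR w kl) (Complex.cos w)) (zeta w))
    (rg : Rg (yH x (RR w kr) (Complex.cos w)) (zeta w)) :
    (rp6 .one .two s).In (yH x (RR w kr) (Complex.cos w)) (zeta w) := by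
  have hN := t.right.ok.right.symm
  have hO := t.right.ok.left
  have hL := t.left.ok.right.symm
  obtain ⟨rfl, rfl, hre⟩ := hk.two hN.zr t.right.ok.ne
  cases rr
  · exact absurd rfl hre
  · rcases hC.one with ⟨rfl, rfl⟩ | ⟨rfl, rfl⟩
    · have e1 := far_s t.left.ok.right
      subst e1
      exact b4c_of (tuseC hK Bx ld6 t p6_1a_2_k2a_xa mn mn mn
        (lo6_one_two_of hl) (hK.inH hO k6aa_ok) (hK.inH hN k2aa_ok)
        AllOk.nil (dOk hK t rfl OR.a)) rg
        (by norm_num) (by norm_num) (by norm_num) (by norm_num)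
    · exact b4c_of (tuseC hK Bx ld6 t p6_1a_2_k2a_xs mn mn mn
        (lo6_one_two_of hl) (hK.inH hO k7as_ok) (hK.inH hN k2aa_ok)
        AllOk.nil (dOk hK t rfl OR.a)) rg
        (by norm_num) (by norm_num) (by norm_num) (by norm_num)
  · exact absurd (hN.zl rfl) (by norm_num)
  · rcases hC.one with ⟨rfl, rfl⟩ | ⟨rfl, rfl⟩
    · have e1 := far_s t.left.ok.right
      subst e1
      exact b4c_of (tuseC hK Bx ld6 t p6_1a_2_k2s_xa mn mn mn
        (lo6_one_two_of hl) (hK.inH hO k6aa_ok) (hK.inH hN k3as_ok)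
        AllOk.nil (dOk hK t rfl OR.s)) rg
        (by norm_num) (by norm_num) (by norm_num) (by norm_num)
    · exact b4c_of (tuseC hK Bx ld6 t p6_1a_2_k2s_xs mn mn mn
        (lo6_one_two_of hl) (hK.inH hO k7as_ok) (hK.inH hN k3as_ok)
        AllOk.nil (dOk hK t rfl OR.s)) rg
        (by norm_num) (by norm_num) (by norm_num) (by norm_num)

theorem p6_one_twoE {s : Bool} (t : RDt K 6 l x dl ll dr rr w kl kr) (hC : Bh l dl ll .one)
    (hk : Oh x dr rr .twoE s)
    (hl : (rq6 .one .twoE s).In (yH l (RR w kl) (Complex.cos w)) (zeta w))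
    (rg : Rg (yH x (RR w kr) (Complex.cos w)) (zeta w)) :
    (rp6 .one .twoE s).In (yH x (RR w kr) (Complex.cos w)) (zeta w) := by
  have hN := t.right.ok.right.symm
  have hO := t.right.ok.left
  have hL := t.left.ok.right.symm
  obtain ⟨rfl, rfl, rfl⟩ := hk.twoE hN.zr t.right.ok.ne
  rcases hC.one with ⟨rfl, rfl⟩ | ⟨rfl, rfl⟩
  · have e1 := far_s t.left.ok.right
    subst e1
    exact b4c_of (tuseC hK Bx ld6 t p6_1a_2e_k2e_xa mn mn mn
      (lo6_one_twoE_of hl) (hK.inH hO k6aa_ok) (hK.inH hN k2ea_ok)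
      AllOk.nil (dOk hK t rfl OR.e)) rg
      (by norm_num) (by norm_num) (by norm_num) (by norm_num)
  · exact b4c_of (tuseC hK Bx ld6 t p6_1a_2e_k2e_xs mn mn mn
      (lo6_one_twoE_of hl) (hK.inH hO k7as_ok) (hK.inH hN k2ea_ok)
      AllOk.nil (dOk hK t rfl OR.e)) rg
      (by norm_num) (by norm_num) (by norm_num) (by norm_num)

theorem p6_one_three {s : Bool} (t : RDt K 6 l x dl ll dr rr w kl kr) (hC : Bh l dl ll .one)
    (hk : Oh x dr rr .three s)
    (hl : (rq6 .one .three s).In (yH l (RR w kl) (Complex.cos w)) (zeta w))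
    (rg : Rg (yH x (RR w kr) (Complex.cos w)) (zeta w)) :
    (rp6 .one .three s).In (yH x (RR w kr) (Complex.cos w)) (zeta w) := by
  have hN := t.right.ok.right.symm
  have hO := t.right.ok.left
  have hL := t.left.ok.right.symm
  obtain ⟨rfl, rfl, hre⟩ := hk.three hN.zr t.right.ok.ne
  cases rr
  · exact absurd rfl hre
  · rcases hC.one with ⟨rfl, rfl⟩ | ⟨rfl, rfl⟩
    · have e1 := far_s t.left.ok.right
      subst e1
      exact b4c_of (tuseC hK Bx ld6 t p6_1a_3_k3a_xa mn mn mn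
        (lo6_one_three_of hl) (hK.inH hO k6aa_ok) (hK.inH hN k3aa_ok)
        AllOk.nil (dOk hK t rfl OR.a)) rg
        (by norm_num) (by norm_num) (by norm_num) (by norm_num)
    · exact b4c_of (tuseC hK Bx ld6 t p6_1a_3_k3a_xs mn mn mn
        (lo6_one_three_of hl) (hK.inH hO k7as_ok) (hK.inH hN k3aa_ok)
        AllOk.nil (dOk hK t rfl OR.a)) rg
        (by norm_num) (by norm_num) (by norm_num) (by norm_num)
  · exact absurd (hN.zl rfl) (by norm_num)
  · rcases hC.one with ⟨rfl, rfl⟩ | ⟨rfl, rfl⟩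
    · have e1 := far_s t.left.ok.right
      subst e1
      exact b4c_of (tuseC hK Bx ld6 t p6_1a_3_k3s_xa mn mn mn
        (lo6_one_three_of hl) (hK.inH hO k6aa_ok) (hK.inH hN k4as_ok)
        AllOk.nil (dOk hK t rfl OR.s)) rg
        (by norm_num) (by norm_num) (by norm_num) (by norm_num)
    · exact b4c_of (tuseC hK Bx ld6 t p6_1a_3_k3s_xs mn mn mn
        (lo6_one_three_of hl) (hK.inH hO k7as_ok) (hK.inH hN k4as_ok)
        AllOk.nil (dOk hK t rfl OR.s)) rg
        (by norm_num) (by norm_num) (by norm_num) (by norm_num)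

theorem p6_one_threeE {s : Bool} (t : RDt K 6 l x dl ll dr rr w kl kr) (hC : Bh l dl ll .one)
    (hk : Oh x dr rr .threeE s)
    (hl : (rq6 .one .threeE s).In (yH l (RR w kl) (Complex.cos w)) (zeta w))
    (rg : Rg (yH x (RR w kr) (Complex.cos w)) (zeta w)) :
    (rp6 .one .threeE s).In (yH x (RR w kr) (Complex.cos w)) (zeta w) := by
  have hN := t.right.ok.right.symm
  have hO := t.right.ok.left
  have hL := t.left.ok.right.symm
  obtain ⟨rfl, rfl, rfl⟩ := hk.threeE hN.zr t.right.ok.ne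
  rcases hC.one with ⟨rfl, rfl⟩ | ⟨rfl, rfl⟩
  · have e1 := far_s t.left.ok.right
    subst e1
    exact b4c_of (tuseC hK Bx ld6 t p6_1a_3e_k3e_xa mn mn mn
      (lo6_one_threeE_of hl) (hK.inH hO k6aa_ok) (hK.inH hN k3ea_ok)
      AllOk.nil (dOk hK t rfl OR.e)) rg
      (by norm_num) (by norm_num) (by norm_num) (by norm_num)
  · exact b4c_of (tuseC hK Bx ld6 t p6_1a_3e_k3e_xs mn mn mn
      (lo6_one_threeE_of hl) (hK.inH hO k7as_ok) (hK.inH hN k3ea_ok)
      AllOk.nil (dOk hK t rfl OR.e)) rg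
      (by norm_num) (by norm_num) (by norm_num) (by norm_num)

theorem p6_one_ringA (t : RDt K 6 l x dl ll dr rr w kl kr) (hC : Bh l dl ll .one)
    (hk : Oh x dr rr .ring false)
    (hl : (rq6 .one .ring false).In (yH l (RR w kl) (Complex.cos w)) (zeta w))
    (rg : Rg (yH x (RR w kr) (Complex.cos w)) (zeta w)) :
    (rp6 .one .ring false).In (yH x (RR w kr) (Complex.cos w)) (zeta w) := by
  have hN := t.right.ok.right.symm
  have hO := t.right.ok.left
  have hL := t.left.ok.right.symm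
  rcases hk.ring hN.pos t.right.ok.ne with ⟨rfl, -, hr4⟩ | ⟨-, h9, -⟩
  · rcases hC.one with ⟨rfl, rfl⟩ | ⟨rfl, rfl⟩
    · have e1 := far_s t.left.ok.right
      subst e1
      exact b4c_of (tuseC hK Bx ld6 t p6_1a_Z_kZ_xa mn mn mn
        (lo6_one_ringA_of hl) (hK.inH hO k6aa_ok) (in_nZa hK hN hr4)
        AllOk.nil AllOk.nil) rg
        (by norm_num) (by norm_num) (by norm_num) (by norm_num)
    · exact b4c_of (tuseC hK Bx ld6 t p6_1a_Z_kZ_xs mn mn mn
        (lo6_one_ringA_of hl) (hK.inH hO k7as_ok) (in_nZa hK hN hr4)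
        AllOk.nil AllOk.nil) rg
        (by norm_num) (by norm_num) (by norm_num) (by norm_num)
  · exact absurd h9 (by decide)

theorem p6_one_ringZ (t : RDt K 6 l x dl ll dr rr w kl kr) (hC : Bh l dl ll .one)
    (hk : Oh x dr rr .ring true)
    (hl : (rq6 .one .ring true).In (yH l (RR w kl) (Complex.cos w)) (zeta w))
    (rg : Rg (yH x (RR w kr) (Complex.cos w)) (zeta w)) :
    (rp6 .one .ring true).In (yH x (RR w kr) (Complex.cos w)) (zeta w) := by
  have hN := t.right.ok.right.symm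
  have hO := t.right.ok.left
  have hL := t.left.ok.right.symm
  rcases hk.ring hN.pos t.right.ok.ne with ⟨-, h9, -⟩ | ⟨rfl, -, hr4⟩
  · exact absurd h9 (by decide)
  · rcases hC.one with ⟨rfl, rfl⟩ | ⟨rfl, rfl⟩
    · have e1 := far_s t.left.ok.right
      subst e1
      exact b4c_of (tuseC hK Bx ld6 t p6_1a_Zs_kz_xa mn mn mn
        (lo6_one_ringZ_of hl) (hK.inH hO k6az_ok) (in_nZz hK hN)
        AllOk.nil AllOk.nil) rg
        (by norm_num) (by norm_num) (by norm_num) (by norm_num)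
    · exact b4c_of (tuseC hK Bx ld6 t p6_1a_Zs_kz_xs mn mn mn
        (lo6_one_ringZ_of hl) (hK.inH hO k7zs_ok) (in_nZz hK hN)
        AllOk.nil AllOk.nil) rg
        (by norm_num) (by norm_num) (by norm_num) (by norm_num)

theorem p6_two_two {s : Bool} (t : RDt K 6 l x dl ll dr rr w kl kr) (hC : Bh l dl ll .two)
    (hk : Oh x dr rr .two s)
    (hl : (rq6 .two .two s).In (yH l (RR w kl) (Complex.cos w)) (zeta w))
    (rg : Rg (yH x (RR w kr) (Complex.cos w)) (zeta w)) :
    (rp6 .two .two s).In (yH x (RR w kr) (Complex.cos w)) (zeta w) := by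
  have hN := t.right.ok.right.symm
  have hO := t.right.ok.left
  have hL := t.left.ok.right.symm
  obtain ⟨rfl, rfl, hre⟩ := hk.two hN.zr t.right.ok.ne
  cases rr
  · exact absurd rfl hre
  · obtain ⟨rfl, rfl, hle⟩ := hC.two
    exact b4c_of (tuseC hK Bx ld6 t p6_1b_2_k2a_xs mn mn mn
      (lo6_two_two_of hl) (hK.inH hO k7as_ok) (hK.inH hN k2aa_ok)
      AllOk.nil (dOk hK t rfl OR.a)) rg
      (by norm_num) (by norm_num) (by norm_num) (by norm_num)
  · exact absurd (hN.zl rfl) (by norm_num)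
  · obtain ⟨rfl, rfl, hle⟩ := hC.two
    exact b4c_of (tuseC hK Bx ld6 t p6_1b_2_k2s_xs mn mn mn
      (lo6_two_two_of hl) (hK.inH hO k7as_ok) (hK.inH hN k3as_ok)
      AllOk.nil (dOk hK t rfl OR.s)) rg
      (by norm_num) (by norm_num) (by norm_num) (by norm_num)

theorem p6_two_twoE {s : Bool} (t : RDt K 6 l x dl ll dr rr w kl kr) (hC : Bh l dl ll .two)
    (hk : Oh x dr rr .twoE s)
    (hl : (rq6 .two .twoE s).In (yH l (RR w kl) (Complex.cos w)) (zeta w))
    (rg : Rg (yH x (RR w kr) (Complex.cos w)) (zeta w)) :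
    (rp6 .two .twoE s).In (yH x (RR w kr) (Complex.cos w)) (zeta w) := by
  have hN := t.right.ok.right.symm
  have hO := t.right.ok.left
  have hL := t.left.ok.right.symm
  obtain ⟨rfl, rfl, rfl⟩ := hk.twoE hN.zr t.right.ok.ne
  obtain ⟨rfl, rfl, hle⟩ := hC.two
  exact b4c_of (tuseC hK Bx ld6 t p6_1b_2e_k2e_xs mn mn mn
    (lo6_two_twoE_of hl) (hK.inH hO k7as_ok) (hK.inH hN k2ea_ok)
    AllOk.nil (dOk hK t rfl OR.e)) rg
    (by norm_num) (by norm_num) (by norm_num) (by norm_num)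

theorem p6_two_three {s : Bool} (t : RDt K 6 l x dl ll dr rr w kl kr) (hC : Bh l dl ll .two)
    (hk : Oh x dr rr .three s)
    (hl : (rq6 .two .three s).In (yH l (RR w kl) (Complex.cos w)) (zeta w))
    (rg : Rg (yH x (RR w kr) (Complex.cos w)) (zeta w)) :
    (rp6 .two .three s).In (yH x (RR w kr) (Complex.cos w)) (zeta w) := by
  have hN := t.right.ok.right.symm
  have hO := t.right.ok.left
  have hL := t.left.ok.right.symm
  obtain ⟨rfl, rfl, hre⟩ := hk.three hN.zr t.right.ok.ne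
  cases rr
  · exact absurd rfl hre
  · obtain ⟨rfl, rfl, hle⟩ := hC.two
    exact b4c_of (tuseC hK Bx ld6 t p6_1b_3_k3a_xs mn mn mn
      (lo6_two_three_of hl) (hK.inH hO k7as_ok) (hK.inH hN k3aa_ok)
      AllOk.nil (dOk hK t rfl OR.a)) rg
      (by norm_num) (by norm_num) (by norm_num) (by norm_num)
  · exact absurd (hN.zl rfl) (by norm_num)
  · obtain ⟨rfl, rfl, hle⟩ := hC.two
    exact b4c_of (tuseC hK Bx ld6 t p6_1b_3_k3s_xs mn mn mn
      (lo6_two_three_of hl) (hK.inH hO k7as_ok) (hK.inH hN k4as_ok)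
      AllOk.nil (dOk hK t rfl OR.s)) rg
      (by norm_num) (by norm_num) (by norm_num) (by norm_num)

theorem p6_two_threeE {s : Bool} (t : RDt K 6 l x dl ll dr rr w kl kr) (hC : Bh l dl ll .two)
    (hk : Oh x dr rr .threeE s)
    (hl : (rq6 .two .threeE s).In (yH l (RR w kl) (Complex.cos w)) (zeta w))
    (rg : Rg (yH x (RR w kr) (Complex.cos w)) (zeta w)) :
    (rp6 .two .threeE s).In (yH x (RR w kr) (Complex.cos w)) (zeta w) := by
  have hN := t.right.ok.right.symm
  have hO := t.right.ok.left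
  have hL := t.left.ok.right.symm
  obtain ⟨rfl, rfl, rfl⟩ := hk.threeE hN.zr t.right.ok.ne
  obtain ⟨rfl, rfl, hle⟩ := hC.two
  exact b4c_of (tuseC hK Bx ld6 t p6_1b_3e_k3e_xs mn mn mn
    (lo6_two_threeE_of hl) (hK.inH hO k7as_ok) (hK.inH hN k3ea_ok)
    AllOk.nil (dOk hK t rfl OR.e)) rg
    (by norm_num) (by norm_num) (by norm_num) (by norm_num)

theorem p6_two_ringA (t : RDt K 6 l x dl ll dr rr w kl kr) (hC : Bh l dl ll .two)
    (hk : Oh x dr rr .ring false)
    (hl : (rq6 .two .ring false).In (yH l (RR w kl) (Complex.cos w)) (zeta w))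
    (rg : Rg (yH x (RR w kr) (Complex.cos w)) (zeta w)) :
    (rp6 .two .ring false).In (yH x (RR w kr) (Complex.cos w)) (zeta w) := by
  have hN := t.right.ok.right.symm
  have hO := t.right.ok.left
  have hL := t.left.ok.right.symm
  rcases hk.ring hN.pos t.right.ok.ne with ⟨rfl, -, hr4⟩ | ⟨-, h9, -⟩
  · obtain ⟨rfl, rfl, hle⟩ := hC.two
    exact b4c_of (tuseC hK Bx ld6 t p6_1b_Z_kZ_xs mn mn mn
      (lo6_two_ringA_of hl) (hK.inH hO k7as_ok) (in_nZa hK hN hr4)
      AllOk.nil AllOk.nil) rg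
      (by norm_num) (by norm_num) (by norm_num) (by norm_num)
  · exact absurd h9 (by decide)

theorem p6_two_ringZ (t : RDt K 6 l x dl ll dr rr w kl kr) (hC : Bh l dl ll .two)
    (hk : Oh x dr rr .ring true)
    (hl : (rq6 .two .ring true).In (yH l (RR w kl) (Complex.cos w)) (zeta w))
    (rg : Rg (yH x (RR w kr) (Complex.cos w)) (zeta w)) :
    (rp6 .two .ring true).In (yH x (RR w kr) (Complex.cos w)) (zeta w) := by
  have hN := t.right.ok.right.symm
  have hO := t.right.ok.left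
  have hL := t.left.ok.right.symm
  rcases hk.ring hN.pos t.right.ok.ne with ⟨-, h9, -⟩ | ⟨rfl, -, hr4⟩
  · exact absurd h9 (by decide)
  · obtain ⟨rfl, rfl, hle⟩ := hC.two
    exact b4c_of (tuseC hK Bx ld6 t p6_1b_Zs_kz_xs mn mn mn
      (lo6_two_ringZ_of hl) (hK.inH hO k7zs_ok) (in_nZz hK hN)
      AllOk.nil AllOk.nil) rg
      (by norm_num) (by norm_num) (by norm_num) (by norm_num)

theorem p6_twoE_two {s : Bool} (t : RDt K 6 l x dl ll dr rr w kl kr) (hC : Bh l dl ll .twoE)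
    (hk : Oh x dr rr .two s)
    (hl : (rq6 .twoE .two s).In (yH l (RR w kl) (Complex.cos w)) (zeta w))
    (rg : Rg (yH x (RR w kr) (Complex.cos w)) (zeta w)) :
    (rp6 .twoE .two s).In (yH x (RR w kr) (Complex.cos w)) (zeta w) := by
  have hN := t.right.ok.right.symm
  have hO := t.right.ok.left
  have hL := t.left.ok.right.symm
  obtain ⟨rfl, rfl, hre⟩ := hk.two hN.zr t.right.ok.ne
  cases rr
  · exact absurd rfl hre
  · obtain ⟨rfl, rfl, rfl⟩ := hC.twoE
    exact b4c_of (tuseC hK Bx ld6 t p6_1c_2_k2a_xs mn mn mn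
      (lo6_twoE_two_of hl) (hK.inH hO k7as_ok) (hK.inH hN k2aa_ok)
      AllOk.nil (dOk hK t rfl OR.a)) rg
      (by norm_num) (by norm_num) (by norm_num) (by norm_num)
  · exact absurd (hN.zl rfl) (by norm_num)
  · obtain ⟨rfl, rfl, rfl⟩ := hC.twoE
    exact b4c_of (tuseC hK Bx ld6 t p6_1c_2_k2s_xs mn mn mn
      (lo6_twoE_two_of hl) (hK.inH hO k7as_ok) (hK.inH hN k3as_ok)
      AllOk.nil (dOk hK t rfl OR.s)) rg
      (by norm_num) (by norm_num) (by norm_num) (by norm_num)

theorem p6_twoE_twoE {s : Bool} (t : RDt K 6 l x dl ll dr rr w kl kr) (hC : Bh l dl ll .twoE)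
    (hk : Oh x dr rr .twoE s)
    (hl : (rq6 .twoE .twoE s).In (yH l (RR w kl) (Complex.cos w)) (zeta w))
    (rg : Rg (yH x (RR w kr) (Complex.cos w)) (zeta w)) :
    (rp6 .twoE .twoE s).In (yH x (RR w kr) (Complex.cos w)) (zeta w) := by
  have hN := t.right.ok.right.symm
  have hO := t.right.ok.left
  have hL := t.left.ok.right.symm
  obtain ⟨rfl, rfl, rfl⟩ := hk.twoE hN.zr t.right.ok.ne
  obtain ⟨rfl, rfl, rfl⟩ := hC.twoE
  exact b4c_of (tuseC hK Bx ld6 t p6_1c_2e_k2e_xs mn mn mn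
    (lo6_twoE_twoE_of hl) (hK.inH hO k7as_ok) (hK.inH hN k2ea_ok)
    AllOk.nil (dOk hK t rfl OR.e)) rg
    (by norm_num) (by norm_num) (by norm_num) (by norm_num)

theorem p6_twoE_three {s : Bool} (t : RDt K 6 l x dl ll dr rr w kl kr) (hC : Bh l dl ll .twoE)
    (hk : Oh x dr rr .three s)
    (hl : (rq6 .twoE .three s).In (yH l (RR w kl) (Complex.cos w)) (zeta w))
    (rg : Rg (yH x (RR w kr) (Complex.cos w)) (zeta w)) :
    (rp6 .twoE .three s).In (yH x (RR w kr) (Complex.cos w)) (zeta w) := by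
  have hN := t.right.ok.right.symm
  have hO := t.right.ok.left
  have hL := t.left.ok.right.symm
  obtain ⟨rfl, rfl, hre⟩ := hk.three hN.zr t.right.ok.ne
  cases rr
  · exact absurd rfl hre
  · obtain ⟨rfl, rfl, rfl⟩ := hC.twoE
    exact b4c_of (tuseC hK Bx ld6 t p6_1c_3_k3a_xs mn mn mn
      (lo6_twoE_three_of hl) (hK.inH hO k7as_ok) (hK.inH hN k3aa_ok)
      AllOk.nil (dOk hK t rfl OR.a)) rg
      (by norm_num) (by norm_num) (by norm_num) (by norm_num)
  · exact absurd (hN.zl rfl) (by norm_num)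
  · obtain ⟨rfl, rfl, rfl⟩ := hC.twoE
    exact b4c_of (tuseC hK Bx ld6 t p6_1c_3_k3s_xs mn mn mn
      (lo6_twoE_three_of hl) (hK.inH hO k7as_ok) (hK.inH hN k4as_ok)
      AllOk.nil (dOk hK t rfl OR.s)) rg
      (by norm_num) (by norm_num) (by norm_num) (by norm_num)

theorem p6_twoE_threeE {s : Bool} (t : RDt K 6 l x dl ll dr rr w kl kr) (hC : Bh l dl ll .twoE)
    (hk : Oh x dr rr .threeE s)
    (hl : (rq6 .twoE .threeE s).In (yH l (RR w kl) (Complex.cos w)) (zeta w))
    (rg : Rg (yH x (RR w kr) (Complex.cos w)) (zeta w)) :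
    (rp6 .twoE .threeE s).In (yH x (RR w kr) (Complex.cos w)) (zeta w) := by
  have hN := t.right.ok.right.symm
  have hO := t.right.ok.left
  have hL := t.left.ok.right.symm
  obtain ⟨rfl, rfl, rfl⟩ := hk.threeE hN.zr t.right.ok.ne
  obtain ⟨rfl, rfl, rfl⟩ := hC.twoE
  exact b4c_of (tuseC hK Bx ld6 t p6_1c_3e_k3e_xs mn mn mn
    (lo6_twoE_threeE_of hl) (hK.inH hO k7as_ok) (hK.inH hN k3ea_ok)
    AllOk.nil (dOk hK t rfl OR.e)) rg
    (by norm_num) (by norm_num) (by norm_num) (by norm_num)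

theorem p6_twoE_ringA (t : RDt K 6 l x dl ll dr rr w kl kr) (hC : Bh l dl ll .twoE)
    (hk : Oh x dr rr .ring false)
    (hl : (rq6 .twoE .ring false).In (yH l (RR w kl) (Complex.cos w)) (zeta w))
    (rg : Rg (yH x (RR w kr) (Complex.cos w)) (zeta w)) :
    (rp6 .twoE .ring false).In (yH x (RR w kr) (Complex.cos w)) (zeta w) := by
  have hN := t.right.ok.right.symm
  have hO := t.right.ok.left
  have hL := t.left.ok.right.symm
  rcases hk.ring hN.pos t.right.ok.ne with ⟨rfl, -, hr4⟩ | ⟨-, h9, -⟩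
  · obtain ⟨rfl, rfl, rfl⟩ := hC.twoE
    exact b4c_of (tuseC hK Bx ld6 t p6_1c_Z_kZ_xs mn mn mn
      (lo6_twoE_ringA_of hl) (hK.inH hO k7as_ok) (in_nZa hK hN hr4)
      AllOk.nil AllOk.nil) rg
      (by norm_num) (by norm_num) (by norm_num) (by norm_num)
  · exact absurd h9 (by decide)

theorem p6_twoE_ringZ (t : RDt K 6 l x dl ll dr rr w kl kr) (hC : Bh l dl ll .twoE)
    (hk : Oh x dr rr .ring true)
    (hl : (rq6 .twoE .ring true).In (yH l (RR w kl) (Complex.cos w)) (zeta w))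
    (rg : Rg (yH x (RR w kr) (Complex.cos w)) (zeta w)) :
    (rp6 .twoE .ring true).In (yH x (RR w kr) (Complex.cos w)) (zeta w) := by
  have hN := t.right.ok.right.symm
  have hO := t.right.ok.left
  have hL := t.left.ok.right.symm
  rcases hk.ring hN.pos t.right.ok.ne with ⟨-, h9, -⟩ | ⟨rfl, -, hr4⟩
  · exact absurd h9 (by decide)
  · obtain ⟨rfl, rfl, rfl⟩ := hC.twoE
    exact b4c_of (tuseC hK Bx ld6 t p6_1c_Zs_kz_xs mn mn mn
      (lo6_twoE_ringZ_of hl) (hK.inH hO k7zs_ok) (in_nZz hK hN)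
      AllOk.nil AllOk.nil) rg
      (by norm_num) (by norm_num) (by norm_num) (by norm_num)

/-- the hinge next to the digit `1` -/
theorem rq6_of {C k : Cl} {s : Bool} (t : RDt K 6 l x dl ll dr rr w kl kr) (hC : Bh x dr rr C)
    (hk : Oh l dl ll k s) (hl : (hbox .ring k s).In (yH l (RR w kl) (Complex.cos w)))
    (rg : Rg (yH x (RR w kr) (Complex.cos w)) (zeta w)) :
    (rq6 C k s).In (yH x (RR w kr) (Complex.cos w)) (zeta w) := by
  rcases hC.cases t.right (by norm_num) with rfl | rfl | rfl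
  · cases k
    · exact q6_one_one hK Bx t hC hk hl rg
    · exact q6_one_two hK Bx t hC hk hl rg
    · exact q6_one_twoE hK Bx t hC hk hl rg
    · exact q6_one_three hK Bx t hC hk hl rg
    · exact q6_one_threeE hK Bx t hC hk hl rg
    · cases s
      · exact q6_one_ringA hK Bx t hC hk hl rg
      · exact q6_one_ringZ hK Bx t hC hk hl rg
  · cases k
    · exact q6_two_one hK Bx t hC hk hl rg
    · exact q6_two_two hK Bx t hC hk hl rg
    · exact q6_two_twoE hK Bx t hC hk hl rg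
    · exact q6_two_three hK Bx t hC hk hl rg
    · exact q6_two_threeE hK Bx t hC hk hl rg
    · cases s
      · exact q6_two_ringA hK Bx t hC hk hl rg
      · exact q6_two_ringZ hK Bx t hC hk hl rg
  · cases k
    · exact q6_twoE_one hK Bx t hC hk hl rg
    · exact q6_twoE_two hK Bx t hC hk hl rg
    · exact q6_twoE_twoE hK Bx t hC hk hl rg
    · exact q6_twoE_three hK Bx t hC hk hl rg
    · exact q6_twoE_threeE hK Bx t hC hk hl rg
    · cases s
      · exact q6_twoE_ringA hK Bx t hC hk hl rg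
      · exact q6_twoE_ringZ hK Bx t hC hk hl rg

/-- the other hinge -/
theorem rp6_of {C k : Cl} {s : Bool} (t : RDt K 6 l x dl ll dr rr w kl kr) (hC : Bh l dl ll C)
    (hk : Oh x dr rr k s) (hk1 : k ≠ .one)
    (hl : (rq6 C k s).In (yH l (RR w kl) (Complex.cos w)) (zeta w))
    (rg : Rg (yH x (RR w kr) (Complex.cos w)) (zeta w)) :
    (rp6 C k s).In (yH x (RR w kr) (Complex.cos w)) (zeta w) := by
  rcases hC.cases t.left (by norm_num) with rfl | rfl | rfl
  · cases k
    · exact absurd rfl hk1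
    · exact p6_one_two hK Bx t hC hk hl rg
    · exact p6_one_twoE hK Bx t hC hk hl rg
    · exact p6_one_three hK Bx t hC hk hl rg
    · exact p6_one_threeE hK Bx t hC hk hl rg
    · cases s
      · exact p6_one_ringA hK Bx t hC hk hl rg
      · exact p6_one_ringZ hK Bx t hC hk hl rg
  · cases k
    · exact absurd rfl hk1
    · exact p6_two_two hK Bx t hC hk hl rg
    · exact p6_two_twoE hK Bx t hC hk hl rg
    · exact p6_two_three hK Bx t hC hk hl rg
    · exact p6_two_threeE hK Bx t hC hk hl rg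
    · cases s
      · exact p6_two_ringA hK Bx t hC hk hl rg
      · exact p6_two_ringZ hK Bx t hC hk hl rg
  · cases k
    · exact absurd rfl hk1
    · exact p6_twoE_two hK Bx t hC hk hl rg
    · exact p6_twoE_twoE hK Bx t hC hk hl rg
    · exact p6_twoE_three hK Bx t hC hk hl rg
    · exact p6_twoE_threeE hK Bx t hC hk hl rg
    · cases s
      · exact p6_twoE_ringA hK Bx t hC hk hl rg
      · exact p6_twoE_ringZ hK Bx t hC hk hl rg

end

end

end Pool.Agent.Work.MP_b30479_gtS.G2.CN.TD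

end

section

/-!
# Windows of the rings with six crossings of a word next to a digit `1`
-/

namespace Pool.Agent.Work.MP_b30479_gtS.G2.CN.TD

open Complex SR
open scoped ComplexConjugate

noncomputable section

section
variable {M : ℕ} {b : Fin (M + 1) → ℤ} {w : ℕ → ℂ}
variable (hb : ClassW b) (F : RingFacts) (hw : Sol b w) (hM : 1 ≤ M) {K : KFam} (hK : KOK K)
  (hS : Snd K b w) (Bx : BoxRows K)
include hb F hw hM hK hS Bx

/-- **Windows of the rings with six crossings of a word next to a digit `1`.** -/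
theorem locRw6_of : LocRw 6 rq6 rp6 re6 b (zsW b w) :=
  locRw_mk hb F hw hM hS Bx (by norm_num) (fun h5 => absurd h5 (by norm_num))
    (fun t hC hk _ hl rg => rq6_of hK Bx t hC hk hl rg)
    (fun t hC hk hk1 hl rg => rp6_of hK Bx t hC hk hk1 hl rg) (fun t hC rg => re6_of hK t hC rg)

end

end

end Pool.Agent.Work.MP_b30479_gtS.G2.CN.TD

end

section

/-!
# Second derivatives of a run in closed form, push-back for one run
-/

namespace Pool.Agent.Work.MP_b30479_gtS.G2

open Finset VOL Filter Topology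

theorem CC_neg (u : ℂ) : CC (-u) = -CC u := by
  unfold CC
  simp only [Complex.neg_re, Complex.neg_im, mul_neg, Real.sin_neg, Real.cosh_neg, Real.cos_neg,
    neg_div, mul_neg]

theorem SS_neg (u : ℂ) : SS (-u) = -SS u := by
  unfold SS
  simp only [Complex.neg_re, Complex.neg_im, mul_neg, Real.sinh_neg, Real.cosh_neg, Real.cos_neg,
    neg_div, mul_neg]

theorem CC_add_one (u : ℂ) : CC (u + 1) = CC u := by
  unfold CC
  simp only [Complex.add_re, Complex.one_re, Complex.add_im, Complex.one_im, add_zero, mul_add,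
    mul_one, Real.cos_add_two_pi, Real.sin_add_two_pi]

theorem SS_add_one (u : ℂ) : SS (u + 1) = SS u := by
  unfold SS
  simp only [Complex.add_re, Complex.one_re, Complex.add_im, Complex.one_im, add_zero, mul_add,
    mul_one, Real.cos_add_two_pi]

theorem CC_one_sub (u : ℂ) : CC (1 - u) = -CC u := by
  rw [show (1 : ℂ) - u = -u + 1 by ring, CC_add_one, CC_neg]

theorem SS_one_sub (u : ℂ) : SS (1 - u) = -SS u := by
  rw [show (1 : ℂ) - u = -u + 1 by ring, SS_add_one, SS_neg]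

/-- the derivative of `LL` in direction `y`, `Re (y π cot (π u))` -/
noncomputable def CS (u y : ℂ) : ℝ := y.re * CC u + y.im * SS u

theorem CS_real (u : ℂ) (y : ℝ) : CS u y = y * CC u := by
  simp [CS]

theorem CS_one_sub (u y : ℂ) : CS (1 - u) y = -CS u y := by
  unfold CS
  rw [CC_one_sub, SS_one_sub]
  ring

theorem CS_neg_right (u y : ℂ) : CS u (-y) = -CS u y := by
  unfold CS
  simp only [Complex.neg_re, Complex.neg_im]
  ring

/-- the second derivative of a run in list form -/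
theorem ldat_HH_gen (t : Typ) (b : ℤ) (l r : Bool) (x X Y : Fin 3 → ℂ) :
    (ldat t b l r).HH (lx x) (lx X) (lx Y) =
      (un b * (∑ p, (∑ q, (qq2 t p q + qq2 t q p : ℤ) * Y q) * X p)).re +
      (if t = .ring then 2 * Real.pi * Complex.I * b * X 1 * Y 1 else 0 : ℂ).re +
      ((facs t l r).map fun f =>
        ((∑ p, f.α p * X p : ℂ) * (∑ p, f.α p * Y p : ℂ)).re * CC (f.form x) +
        ((∑ p, f.α p * X p : ℂ) * (∑ p, f.α p * Y p : ℂ)).im * SS (f.form x)).sum := by
  unfold Dat.HH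
  rw [← sum_listR]
  simp only [ldat_form, ldat_aff]
  congr 1
  rw [← Complex.add_re]
  congr 1
  unfold ldat lx
  simp only [Fintype.sum_sum_type, Finset.univ_eq_empty, Finset.sum_empty, add_zero, Sum.elim_inl]
  by_cases h : t = .ring
  · subst h
    simp [Fin.sum_univ_three, qq2]
    ring
  · simp only [h, false_and, if_false, add_zero, Fin.sum_univ_three]
    push_cast
    ring

/-- the second derivative of a run, one direction horizontal -/
theorem ldat_HH (t : Typ) (b : ℤ) (l r : Bool) (x Y : Fin 3 → ℂ) (p : Fin 3) :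
    (ldat t b l r).HH (lx x) (Pi.single (.inl p) 1) (lx Y) =
      -(sgb b * Real.pi / 2 * (∑ q, (qq2 t p q + qq2 t q p : ℤ) * (Y q).im)) +
      (if t = .ring ∧ p = 1 then -(2 * Real.pi * b * (Y 1).im) else 0) +
      ((facs t l r).map fun f => f.α p * CS (f.form x) (∑ q, f.α q * Y q)).sum := by
  rw [lx_single, ldat_HH_gen]
  have e1 : ∀ g : Fin 3 → ℂ, ∑ q, g q * (Pi.single p 1 : Fin 3 → ℂ) q = g p := by
    intro g
    simp [Pi.single_apply]
  have e2 : ∀ f : Fac, ∑ q, (f.α q : ℂ) * (Pi.single p 1 : Fin 3 → ℂ) q = f.α p := fun f =>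
    e1 fun q => (f.α q : ℂ)
  rw [e1, un_re_mul]
  simp only [e2]
  congr 2
  · congr 2
    simp [Complex.add_im, Complex.im_sum]
  · by_cases h : t = .ring
    · by_cases hp : p = 1
      · subst hp
        simp [h]
      · simp [h, hp, Ne.symm hp]
    · simp [h]
  · congr 1
    funext f
    unfold CS
    generalize ∑ q, (f.α q : ℂ) * Y q = w
    simp only [Complex.mul_re, Complex.mul_im, Complex.intCast_re, Complex.intCast_im, zero_mul,
      sub_zero, add_zero]
    ring

section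
set_option linter.unusedSimpArgs false
set_option linter.unusedTactic false
set_option linter.unreachableTactic false
variable (b : ℤ) (l r : Bool) (x Y : Fin 3 → ℂ)

theorem HH_one_zero : (ldat .one b true r).HH (lx x) (Pi.single (.inl 0) 1) (lx Y) =
    sgb b * Real.pi * (Y 2).im + CS (x 0 + x 2) (Y 0 + Y 2) - CS (x 0) (Y 0) := by
  rw [ldat_HH]
  cases r <;> simp [facs, hL, hR, qq2, Fin.sum_univ_three, Fac.form_mk, f1 x, f2 x, f3 x, f4 x, f5 x, CS_one_sub, CS, CC_one_sub, SS_one_sub] <;> ring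

theorem HH_one_two : (ldat .one b l true).HH (lx x) (Pi.single (.inl 2) 1) (lx Y) =
    sgb b * Real.pi * (Y 0).im + CS (x 0 + x 2) (Y 0 + Y 2) - CS (x 2) (Y 2) := by
  rw [ldat_HH]
  cases l <;> simp [facs, hL, hR, qq2, Fin.sum_univ_three, Fac.form_mk, f1 x, f2 x, f3 x, f4 x, f5 x, CS_one_sub, CS, CC_one_sub, SS_one_sub] <;> ring

theorem HH_two_zero : (ldat .two b true r).HH (lx x) (Pi.single (.inl 0) 1) (lx Y) =
    sgb b * Real.pi * ((Y 2).im - (Y 0).im) + CS (x 0 + x 2) (Y 0 + Y 2) - 2 * CS (x 0) (Y 0) := by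
  rw [ldat_HH]
  cases r <;> simp [facs, hL, hR, qq2, Fin.sum_univ_three, Fac.form_mk, f1 x, f2 x, f3 x, f4 x, f5 x, CS_one_sub, CS, CC_one_sub, SS_one_sub] <;> ring

theorem HH_two_two : (ldat .two b l true).HH (lx x) (Pi.single (.inl 2) 1) (lx Y) =
    sgb b * Real.pi * ((Y 0).im - (Y 2).im) + CS (x 0 + x 2) (Y 0 + Y 2) - 2 * CS (x 2) (Y 2) := by
  rw [ldat_HH]
  cases l <;> simp [facs, hL, hR, qq2, Fin.sum_univ_three, Fac.form_mk, f1 x, f2 x, f3 x, f4 x, f5 x, CS_one_sub, CS, CC_one_sub, SS_one_sub] <;> ring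

theorem HH_threeL_zero : (ldat .threeL b true r).HH (lx x) (Pi.single (.inl 0) 1) (lx Y) =
    -(sgb b * Real.pi * (Y 1).im) + CS (x 1 - x 0) (Y 1 - Y 0) - CS (x 0) (Y 0) := by
  rw [ldat_HH]
  cases r <;> simp [facs, hL, hR, qq2, Fin.sum_univ_three, Fac.form_mk, f1 x, f2 x, f3 x, f4 x, f5 x, CS_one_sub, CS, CC_one_sub, SS_one_sub] <;> ring

theorem HH_threeL_one : (ldat .threeL b l r).HH (lx x) (Pi.single (.inl 1) 1) (lx Y) =
    sgb b * Real.pi * ((Y 2).im - (Y 0).im - (Y 1).im) + CS (x 1 + x 2) (Y 1 + Y 2) - CS (x 1 - x 0) (Y 1 - Y 0) - CS (x 1) (Y 1) := by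
  rw [ldat_HH]
  cases l <;> cases r <;> simp [facs, hL, hR, qq2, Fin.sum_univ_three, Fac.form_mk, f1 x, f2 x, f3 x, f4 x, f5 x, CS_one_sub, CS, CC_one_sub, SS_one_sub] <;> ring

theorem HH_threeL_two : (ldat .threeL b l true).HH (lx x) (Pi.single (.inl 2) 1) (lx Y) =
    sgb b * Real.pi * ((Y 1).im - (Y 2).im) + CS (x 1 + x 2) (Y 1 + Y 2) - 2 * CS (x 2) (Y 2) := by
  rw [ldat_HH]
  cases l <;> simp [facs, hL, hR, qq2, Fin.sum_univ_three, Fac.form_mk, f1 x, f2 x, f3 x, f4 x, f5 x, CS_one_sub, CS, CC_one_sub, SS_one_sub] <;> ring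

theorem HH_threeR_two : (ldat .threeR b l true).HH (lx x) (Pi.single (.inl 2) 1) (lx Y) =
    -(sgb b * Real.pi * (Y 1).im) + CS (x 1 - x 2) (Y 1 - Y 2) - CS (x 2) (Y 2) := by
  rw [ldat_HH]
  cases l <;> simp [facs, hL, hR, qq2, Fin.sum_univ_three, Fac.form_mk, f1 x, f2 x, f3 x, f4 x, f5 x, CS_one_sub, CS, CC_one_sub, SS_one_sub] <;> ring

theorem HH_threeR_one : (ldat .threeR b l r).HH (lx x) (Pi.single (.inl 1) 1) (lx Y) =
    sgb b * Real.pi * ((Y 0).im - (Y 2).im - (Y 1).im) + CS (x 0 + x 1) (Y 0 + Y 1) - CS (x 1 - x 2) (Y 1 - Y 2) - CS (x 1) (Y 1) := by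
  rw [ldat_HH]
  cases l <;> cases r <;> simp [facs, hL, hR, qq2, Fin.sum_univ_three, Fac.form_mk, f1 x, f2 x, f3 x, f4 x, f5 x, CS_one_sub, CS, CC_one_sub, SS_one_sub] <;> ring

theorem HH_threeR_zero : (ldat .threeR b true r).HH (lx x) (Pi.single (.inl 0) 1) (lx Y) =
    sgb b * Real.pi * ((Y 1).im - (Y 0).im) + CS (x 0 + x 1) (Y 0 + Y 1) - 2 * CS (x 0) (Y 0) := by
  rw [ldat_HH]
  cases r <;> simp [facs, hL, hR, qq2, Fin.sum_univ_three, Fac.form_mk, f1 x, f2 x, f3 x, f4 x, f5 x, CS_one_sub, CS, CC_one_sub, SS_one_sub] <;> ring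

theorem HH_ring_zero : (ldat .ring b true r).HH (lx x) (Pi.single (.inl 0) 1) (lx Y) =
    CS (x 0 + 1 / 2 + x 1) (Y 0 + Y 1) + CS (x 0 + 1 / 2 - x 1) (Y 0 - Y 1) - 2 * CS (x 0) (Y 0) := by
  rw [ldat_HH]
  cases r <;> simp [facs, hL, hR, qq2, Fin.sum_univ_three, Fac.form_mk, f1 x, f2 x, f3 x, g1 x, g2 x, g3 x, g4 x, CS_one_sub, CS, CC_one_sub, SS_one_sub] <;> ring

theorem HH_ring_two : (ldat .ring b l true).HH (lx x) (Pi.single (.inl 2) 1) (lx Y) =
    CS (x 2 + 1 / 2 + x 1) (Y 2 + Y 1) + CS (x 2 + 1 / 2 - x 1) (Y 2 - Y 1) - 2 * CS (x 2) (Y 2) := by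
  rw [ldat_HH]
  cases l <;> simp [facs, hL, hR, qq2, Fin.sum_univ_three, Fac.form_mk, f1 x, f2 x, f3 x, g1 x, g2 x, g3 x, g4 x, CS_one_sub, CS, CC_one_sub, SS_one_sub] <;> ring

theorem HH_ring_one : (ldat .ring b l r).HH (lx x) (Pi.single (.inl 1) 1) (lx Y) =
    -(2 * Real.pi * b * (Y 1).im) +
      (if l = true then CS (x 0 + 1 / 2 + x 1) (Y 0 + Y 1) - CS (x 0 + 1 / 2 - x 1) (Y 0 - Y 1) else 0) +
      (if r = true then CS (x 2 + 1 / 2 + x 1) (Y 2 + Y 1) - CS (x 2 + 1 / 2 - x 1) (Y 2 - Y 1) else 0) := by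
  rw [ldat_HH]
  cases l <;> cases r <;> simp [facs, hL, hR, qq2, Fin.sum_univ_three, Fac.form_mk, f1 x, f2 x, f3 x, g1 x, g2 x, g3 x, g4 x, CS_one_sub, CS, CC_one_sub, SS_one_sub] <;> ring

end

end Pool.Agent.Work.MP_b30479_gtS.G2

end

section

/-!
# Mirrored paths: the inner variable of an end with three crossings

The inner variable of an end with three crossings is on no mirrored path at a maximiser: the point
above (below) it on the main path is better.
-/

namespace Pool.Agent.Work.MP_b30479_gtS.G2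

open Finset VOL Filter Topology
open NumUs (uu UU_uu uu_neg uu_add_one)

namespace I3

theorem uu_lip {X : ℝ} (h0 : 0 ≤ X) (h1 : X ≤ 1) (t t' : ℝ) :
    |uu X t - uu X t'| ≤ Real.pi / 2 * |t - t'| := by
  have hp := Real.pi_pos
  rcases h0.eq_or_lt with h0 | h0
  · rw [← h0, NumXs.uu_zero_left, NumXs.uu_zero_left]
    have e : -(Real.pi * |t| / 2) - -(Real.pi * |t'| / 2) = -(Real.pi / 2 * (|t| - |t'|)) := by ring
    rw [e, abs_neg, abs_mul, abs_of_pos (by positivity : 0 < Real.pi / 2)]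
    exact mul_le_mul_of_nonneg_left (abs_abs_sub_abs_le _ _) (by positivity)
  rcases h1.eq_or_lt with h1 | h1
  · have e1 : ∀ t, uu X t = Real.pi / 2 * |t| := by
      intro t
      rw [h1, NumXs.uu_sub_one, sub_self, NumXs.uu_zero_left]
      ring
    rw [e1, e1, ← mul_sub, abs_mul, abs_of_pos (by positivity : 0 < Real.pi / 2)]
    exact mul_le_mul_of_nonneg_left (abs_abs_sub_abs_le _ _) (by positivity)
  · have hd : ∀ t, HasDerivAt (fun y => uu X y) (YY ⟨X, t⟩) t := fun t =>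
      hasDerivAt_uu_y (Or.inr ⟨h0, h1⟩)
    have h2 := Convex.norm_image_sub_le_of_norm_hasDerivWithin_le (f := fun y => uu X y)
      (f' := fun t => YY ⟨X, t⟩) (C := Real.pi / 2) (s := Set.univ)
      (fun t _ => (hd t).hasDerivWithinAt) (fun t _ => NumXs.abs_yy_le h0.le h1.le) convex_univ
      (Set.mem_univ t') (Set.mem_univ t)
    exact h2

/-- the slope in the height is at least `π (X - 1/2)` to the left of `1/2`, at least `0` to the
right of it -/
theorem uu_slope_ge {X c t t' : ℝ} (h0 : 1 / 4 ≤ X) (h1 : X < 1) (c0 : 0 ≤ c) (c1 : 1 / 2 - X ≤ c)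
    (ht : 0 ≤ t) (h : t ≤ t') : -(Real.pi * c * (t' - t)) ≤ uu X t' - uu X t := by
  have hp := Real.pi_pos
  have hd : ∀ t, HasDerivAt (fun y => uu X y + Real.pi * c * y) (YY ⟨X, t⟩ + Real.pi * c) t := by
    intro t
    have h3 : HasDerivAt (fun y => uu X y) (YY ⟨X, t⟩) t :=
      hasDerivAt_uu_y (Or.inr ⟨by linarith only [h0, h1], h1⟩)
    have h4 := h3.add ((hasDerivAt_id t).const_mul (Real.pi * c))
    rw [mul_one] at h4
    exact h4
  have hm : MonotoneOn (fun y => uu X y + Real.pi * c * y) (Set.Ici 0) := by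
    apply monotoneOn_of_deriv_nonneg (convex_Ici 0)
    · exact fun t _ => (hd t).continuousAt.continuousWithinAt
    · exact fun t _ => (hd t).differentiableAt.differentiableWithinAt
    · intro t ht
      rw [(hd t).deriv]
      rw [interior_Ici] at ht
      have ht' : 0 ≤ t := le_of_lt ht
      rcases le_total (1 / 2) X with h5 | h5
      · have h6 : 0 ≤ YY ⟨X, t⟩ := MR.YY_nonneg h5 ht'
        have h7 := mul_nonneg hp.le c0
        linarith only [h6, h7]
      · have h6 := YY_quarter_ge (s := X - 1 / 4) (y := t) (by linarith only [h0]) (by linarith only [h5]) ht'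
        rw [show 1 / 4 + (X - 1 / 4) = X by ring] at h6
        nlinarith only [h6, c1, hp, mul_le_mul_of_nonneg_left c1 hp.le]
  have h8 := hm ht (ht.trans h) h
  simp only at h8
  linarith only [h8]

/-- vertical step of the inner variable -/
theorem V3_flip (x S y t t' : ℝ) : V3 ⟨x, S⟩ ⟨y, t'⟩ 0 - V3 ⟨x, S⟩ ⟨y, t⟩ 0 =
    Real.pi * (t - t') * (x + y - 1 / 2) + (uu (y - x) (t - S) - uu (y - x) (t' - S)) := by
  unfold V3
  simp only [UU_uu, Complex.add_re, Complex.add_im, Complex.sub_im, Complex.sub_re,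
    Complex.mul_im, pow_two, Complex.zero_re, Complex.zero_im, Complex.re_ofNat, Complex.im_ofNat,
    Complex.mul_re]
  simp only [sub_zero, add_zero]
  ring

/-- the part of the hinge -/
noncomputable def dS (r S t t' : ℝ) : ℝ := uu r (t - S) - uu r (t' - S)

theorem dS_nn {r S t t' : ℝ} (h0 : 0 ≤ r) (h1 : r ≤ 1) : -(Real.pi / 2 * |t - t'|) ≤ dS r S t t' := by
  have h2 := (abs_le.1 (uu_lip h0 h1 (t - S) (t' - S))).1
  rw [show t - S - (t' - S) = t - t' by ring] at h2
  exact h2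

/-- the hinge to the right: `A = |t - S|`, `B = |t' - S|` -/
theorem dS_neg {r S t t' c : ℝ} (h0 : -(3 / 4) ≤ r) (h1 : r < 0) (c0 : 0 ≤ c)
    (c1 : -(1 / 2) - r ≤ c) :
    (|t - S| ≤ |t' - S| → 0 ≤ dS r S t t') ∧
      (|t' - S| ≤ |t - S| → -(Real.pi * (1 + c) * (|t - S| - |t' - S|)) ≤ dS r S t t') := by
  have hp := Real.pi_pos
  have e : ∀ s : ℝ, uu r s = uu (r + 1) |s| - Real.pi * |s| := by
    intro s
    have h2 := uu_add_one r s
    have h3 : uu (r + 1) s = uu (r + 1) |s| := by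
      rcases abs_choice s with h4 | h4 <;> rw [h4]
      rw [uu_neg]
    rw [← h3]
    linarith only [h2]
  unfold dS
  rw [e, e]
  constructor
  · intro h2
    have h3 := (abs_le.1 (uu_lip (X := r + 1) (by linarith only [h0]) (by linarith only [h1]) |t - S| |t' - S|)).1
    rw [abs_of_nonpos (by linarith only [h2] : |t - S| - |t' - S| ≤ 0)] at h3
    nlinarith only [h3, hp, h2]
  · intro h2
    have h3 := uu_slope_ge (X := r + 1) (c := c) (t := |t' - S|) (t' := |t - S|) (by linarith only [h0])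
      (by linarith only [h1]) c0 (by linarith only [c1]) (abs_nonneg _) h2
    nlinarith only [h3]

theorem abs_sub_le_of {S t t' D : ℝ} (h0 : |t - t'| ≤ D) : |t - S| - |t' - S| ≤ D := by
  have h1 := abs_sub_abs_le_abs_sub (t - S) (t' - S)
  rw [show t - S - (t' - S) = t - t' by ring] at h1
  linarith only [h0, h1]

/-- **Upper mirrored path**: the point below it on the main path is better. -/
theorem flip_up {x y S a b : ℝ} (x0 : 0 ≤ x) (x1 : x ≤ 6 / 10) (y0 : 0 ≤ y) (y1 : y ≤ 77 / 100)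
    (a0 : 0 < a) (b0 : 0 ≤ b) (hb : b ≤ 45 / 160 * a) :
    0 < V3 ⟨x, S⟩ ⟨y, -b⟩ 0 - V3 ⟨x, S⟩ ⟨y, a⟩ 0 + 2 * Real.pi * a := by
  have hp := Real.pi_pos
  rw [V3_flip]
  have hD : |a - -b| = a + b := by
    rw [sub_neg_eq_add, abs_of_pos (by linarith only [a0, b0])]
  have e : a - -b = a + b := by ring
  rw [e]
  change 0 < Real.pi * (a + b) * (x + y - 1 / 2) + dS (y - x) S a (-b) + 2 * Real.pi * a
  have q1 : 0 ≤ Real.pi * (a + b) := by positivity
  have q2 : Real.pi * b ≤ Real.pi * (45 / 160 * a) := mul_le_mul_of_nonneg_left hb hp.le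
  have q3 : 0 < Real.pi * a := by positivity
  rcases le_or_gt 0 (y - x) with hr | hr
  · have h1 := dS_nn (S := S) (t := a) (t' := -b) hr (by linarith only [x0, y1])
    rw [hD] at h1
    have h2 : Real.pi * (a + b) * (-(1 / 2)) ≤ Real.pi * (a + b) * (x + y - 1 / 2) :=
      mul_le_mul_of_nonneg_left (by linarith only [x0, y0]) q1
    linarith only [q2, q3, h1, h2]
  · have hAB := abs_sub_le_of (S := S) hD.le
    rcases le_total |a - S| |-b - S| with h2 | h2
    · have h1 := (dS_neg (r := y - x) (S := S) (t := a) (t' := -b) (c := 1 / 4) (by linarith only [x1, y0, hr]) hr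
        (by norm_num) (by linarith only [x1, y0, hr])).1 h2
      have h3 : Real.pi * (a + b) * (-(1 / 2)) ≤ Real.pi * (a + b) * (x + y - 1 / 2) :=
        mul_le_mul_of_nonneg_left (by linarith only [y0, hr]) q1
      linarith only [q2, q3, h1, h3]
    · rcases le_total (-(1 / 2)) (y - x) with h4 | h4
      · have h1 := (dS_neg (r := y - x) (S := S) (t := a) (t' := -b) (c := 0) (by linarith only [hr, h4]) hr
          le_rfl (by linarith only [h4])).2 h2
        have h3 : Real.pi * (a + b) * (-(1 / 2)) ≤ Real.pi * (a + b) * (x + y - 1 / 2) :=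
          mul_le_mul_of_nonneg_left (by linarith only [y0, hr]) q1
        have h5 : Real.pi * (1 + 0) * (|a - S| - |-b - S|) ≤ Real.pi * (1 + 0) * (a + b) :=
          mul_le_mul_of_nonneg_left hAB (by positivity)
        linarith only [q2, q3, h1, h3, h5]
      · have h1 := (dS_neg (r := y - x) (S := S) (t := a) (t' := -b) (c := 1 / 10) (by linarith only [x1, y0, hr]) hr
          (by norm_num) (by linarith only [x1, y0])).2 h2
        have h3 : Real.pi * (a + b) * 0 ≤ Real.pi * (a + b) * (x + y - 1 / 2) :=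
          mul_le_mul_of_nonneg_left (by linarith only [y0, h4]) q1
        have h5 : Real.pi * (1 + 1 / 10) * (|a - S| - |-b - S|) ≤ Real.pi * (1 + 1 / 10) * (a + b) :=
          mul_le_mul_of_nonneg_left hAB (by positivity)
        linarith only [q2, q3, h1, h3, h5]

/-- **Lower mirrored path**: the point above it on the main path is better. -/
theorem flip_dn {x y S a b : ℝ} (x0 : 0 ≤ x) (x1 : x ≤ 6 / 10) (y0 : 0 ≤ y) (y1 : y ≤ 77 / 100)
    (a0 : 0 < a) (b0 : 0 ≤ b) (hb : b ≤ 59 / 160 * a) (hS : S ≤ 232 / 1000 * (6 / 10 - x))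
    (ha : 96 / 100 ≤ x + y → y ≤ 6 / 10 → 136 / 1000 ≤ a) :
    0 < V3 ⟨x, S⟩ ⟨y, b⟩ 0 - V3 ⟨x, S⟩ ⟨y, -a⟩ 0 + 2 * Real.pi * a := by
  have hp := Real.pi_pos
  rw [V3_flip]
  have e : -a - b = -(a + b) := by ring
  have hD : |-a - b| = a + b := by
    rw [e, abs_neg, abs_of_pos (by linarith only [a0, b0])]
  rw [e]
  change 0 < Real.pi * -(a + b) * (x + y - 1 / 2) + dS (y - x) S (-a) b + 2 * Real.pi * a
  have q1 : 0 ≤ Real.pi * (a + b) := by positivity
  have q2 : Real.pi * b ≤ Real.pi * (59 / 160 * a) := mul_le_mul_of_nonneg_left hb hp.le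
  have q3 : 0 < Real.pi * a := by positivity
  have k : ∀ {u : ℝ}, x + y ≤ u → Real.pi * (a + b) * (x + y - 1 / 2) ≤
      Real.pi * (a + b) * (u - 1 / 2) := fun hu => mul_le_mul_of_nonneg_left (by linarith only [hu]) q1
  rcases le_or_gt 0 (y - x) with hr | hr
  · have h1 := dS_nn (S := S) (t := -a) (t' := b) hr (by linarith only [x0, y1])
    rw [hD] at h1
    have h2 := k (u := 137 / 100) (by linarith only [x1, y1])
    linarith only [q2, q3, h1, h2]
  · have hAB := abs_sub_le_of (S := S) hD.le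
    rcases le_total |-a - S| |b - S| with h2 | h2
    · have h1 := (dS_neg (r := y - x) (S := S) (t := -a) (t' := b) (c := 1 / 4) (by linarith only [x1, y0, hr]) hr
        (by norm_num) (by linarith only [x1, y0, hr])).1 h2
      have h3 := k (u := 12 / 10) (by linarith only [x1, hr])
      linarith only [q2, q3, h1, h3]
    · rcases le_total (-(1 / 2)) (y - x) with h4 | h4
      · have h1 := (dS_neg (r := y - x) (S := S) (t := -a) (t' := b) (c := 0) (by linarith only [hr, h4]) hr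
          le_rfl (by linarith only [h4])).2 h2
        rcases le_total (x + y) (96 / 100) with h6 | h6
        · have h3 := k h6
          have h5 : Real.pi * (1 + 0) * (|-a - S| - |b - S|) ≤ Real.pi * (1 + 0) * (a + b) :=
            mul_le_mul_of_nonneg_left hAB (by positivity)
          linarith only [q2, q3, h1, h3, h5]
        · have ha' := ha h6 (by linarith only [x1, hr])
          have hw : 0 ≤ (a + b) * (2 * x - (x + y)) := mul_nonneg (by linarith only [a0, b0]) (by linarith only [hr])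
          -- all terms divided by `π`
          suffices hk : 0 < -(a + b) * (x + y - 1 / 2) - (|-a - S| - |b - S|) + 2 * a by
            have := mul_pos hp hk
            linarith only [h1, this]
          rcases le_total b S with hbS | hbS
          · rw [abs_of_nonpos (by linarith only [a0, b0, hbS] : -a - S ≤ 0), abs_of_nonpos (by linarith only [hbS] : b - S ≤ 0)]
            nlinarith only [x1, hr, h6, hw, hS, hbS, ha', mul_nonneg (by linarith only [hS, hbS] : 0 ≤ 232 / 1000 * (6 / 10 - x) - b)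
              (by linarith only [x1, hr, h6] : 0 ≤ 2 * x + 1 / 2),
              mul_nonneg (by linarith only [ha'] : 0 ≤ a - 136 / 1000) (by linarith only [x1, hr, h6] : 0 ≤ 3 / 2 - 2 * x),
              mul_nonneg (by linarith only [x1] : 0 ≤ 6 / 10 - x) (by linarith only [x1] : 0 ≤ 6 / 10 - x)]
          · rw [abs_of_nonneg (by linarith only [hbS] : 0 ≤ b - S)]
            rcases le_total (-a - S) 0 with h7 | h7
            · rw [abs_of_nonpos h7]
              nlinarith only [x1, hS, hr, h6, hw, ha', b0, mul_nonneg (by linarith only [ha'] : 0 ≤ a - 136 / 1000)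
                (by linarith only [x1, hr, h6] : 0 ≤ 3 / 2 - 2 * x), mul_nonneg b0 (by linarith only [x1, hr, h6] : 0 ≤ 3 / 2 - 2 * x)]
            · rw [abs_of_nonneg h7]
              nlinarith only [a0, b0, hw, x0, hb, x1]
      · have h1 := (dS_neg (r := y - x) (S := S) (t := -a) (t' := b) (c := 1 / 10) (by linarith only [x1, y0, hr]) hr
          (by norm_num) (by linarith only [x1, y0])).2 h2
        have h3 := k (u := 7 / 10) (by linarith only [x1, h4])
        have h5 : Real.pi * (1 + 1 / 10) * (|-a - S| - |b - S|) ≤ Real.pi * (1 + 1 / 10) * (a + b) :=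
          mul_le_mul_of_nonneg_left hAB (by positivity)
        linarith only [q2, q3, h1, h3, h5]

end I3

namespace SR

variable {M : ℕ} {b : Fin (M + 1) → ℤ} {zs : DD (tyW b) ⊕ ZZ (tyW b) → ℂ}
variable {R : Finset (DD (tyW b))} {nb : Finset (DD (tyW b) ⊕ ZZ (tyW b))}
variable {z : DD (tyW b) ⊕ ZZ (tyW b) → ℂ} {p : DD (tyW b) → ℝ}
variable {h h' : Fin M} {i j j' : Fin (M + 1)} {s : Fin 3} {x c : ℝ}

/-- the value of an end with three crossings which is the only region -/
theorem OV_threeE_only (hc : clsW b i = .threeE) (h0 : i = 0) (h1 : i = Fin.last M) {X : Fin 3 → ℂ}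
    (hX : EndOk i X) : OV b i X = V3 0 (X 1) 0 := by
  have h3 := clsW_nat3 (Or.inr hc)
  have ht : tyW b i = .threeR := by
    unfold tyW
    rw [if_neg (by omega), if_neg (by omega), if_pos h3, if_pos h0]
  have hx := hX.1 h0
  have hx2 := hX.2 h1
  have e1 : decide (i ≠ Fin.last M) = false := by simp [h1]
  have e0 : decide (i ≠ 0) = false := by simp [h0]
  unfold OV V3
  rw [ht, V_threeR, h3, hx, e0, e1, hx2]
  simp only [sgb, Bool.false_eq_true, if_false, sub_zero, add_zero, zero_add, UU_zero]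
  norm_num

theorem trm_3E (m : {i : Fin (M + 1) // (tyW b i).isMid = true}) (hc : clsW b m.1 = .threeE)
    (y : ℝ) : trm b m y = tr 0 (77 / 100) (1 / 10) (2 / 10) y := by
  unfold trm
  rw [hc]
  rfl

/-- height of the inner variable of an end -/
theorem Tm3E_mem (hL : Loc b zs) (m : {i : Fin (M + 1) // (tyW b i).isMid = true})
    (hc : clsW b m.1 = .threeE) : -(45 / 1000) ≤ Tm b zs m ∧ Tm b zs m ≤ 59 / 1000 := by
  have h1 := hL.midE m (clsW_end (Or.inr hc))
  obtain ⟨-, -, h2, h3⟩ := h1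
  rw [ofr_im] at h2 h3
  exact ⟨h2, h3⟩

theorem tr_cr_le3 {XM cl cr x : ℝ} (hr : 0 < cr) (h1 : x ≤ XM) :
    cr * tr 0 XM cl cr x ≤ XM - x := by
  have h2 : tr 0 XM cl cr x ≤ (XM - x) / cr := by
    unfold tr
    refine max_le (div_nonneg (by linarith only [h1]) hr.le) ?_
    exact (min_le_right _ _).trans (min_le_right _ _)
  rw [le_div_iff₀ hr] at h2
  linarith only [h2]

/-- **The hinge of an end with three crossings**, no mirrored path: position and height. -/
theorem NPos.e3 (hb : ClassW b) (hL : Loc b zs) (A : Adj h i s j) (hi : clsW b i = .threeE)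
    (hp0 : p (.inl h) = 0) {X : ℂ} (h0 : NPos b zs nb p h i s X) :
    0 ≤ X.re ∧ X.re ≤ 6 / 10 ∧ X.im ≤ 232 / 1000 * (6 / 10 - X.re) := by
  have hre := h0.re
  have hT := Th_mem hb hL A (by rw [hi]; decide)
  rw [hi] at hT
  have hw : wXM b h = 6 / 10 ∧ 25 / 100 ≤ wcr b h := by
    unfold wXM wcr
    cases A with
    | l =>
      rw [hi]
      rcases clsW b h.succ <;> simp only [hp, hp1] <;> norm_num
    | r =>
      rw [hi]
      rcases clsW b h.castSucc <;> simp only [hp, hp1] <;> norm_num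
  have hT1 : Th b zs h i ≤ 58 / 1000 := by
    rcases hj : clsW b j <;> rw [hj] at hT <;> simp only [hbox] at hT <;> linarith only [hT, hT.2]
  rw [hw.1] at hre
  refine ⟨hre.1, hre.2, ?_⟩
  have hr0 : 0 ≤ 232 / 1000 * (6 / 10 - X.re) := by linarith only [hre, hre.2]
  cases h0 with
  | main y y0 y1 hn e hp1 =>
    rw [e] at hre ⊢
    simp only at hre ⊢
    have h2 := trh_mem (b := b) h y
    have h3 := tr_cr_le3 (cl := wcl b h) (wcr_pos (b := b) h) y1
    rw [hw.1] at h3
    have h4 : trh b h y = tr 0 (6 / 10) (wcl b h) (wcr b h) y := by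
      unfold trh
      rw [hw.1]
    rw [← h4] at h3
    have h5 : Th b zs h i * trh b h y ≤ 58 / 1000 * trh b h y :=
      mul_le_mul_of_nonneg_right hT1 h2.1
    have h6 : 25 / 100 * trh b h y ≤ wcr b h * trh b h y :=
      mul_le_mul_of_nonneg_right hw.2 h2.1
    linarith only [h3, h5, h6]
  | real y y0 y1 hn e hp1 =>
    rw [e] at hr0 ⊢
    exact hr0
  | up y y0 y1 hn hr hT e hp1 =>
    rw [e] at hr0 ⊢
    rw [hp0] at hp1
    show mhs b h s.rev * trh b h y ≤ _
    rw [← hp1]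
    exact hr0
  | dn y y0 y1 hn hr hT e hp1 =>
    rw [e] at hr0 ⊢
    rw [hp0] at hp1
    show -(mhs b h s * trh b h y) ≤ _
    rw [← hp1, neg_zero]
    exact hr0

/-- a region has a hinge, or it is the only region -/
theorem adj_or (i : Fin (M + 1)) : (∃ (h : Fin M) (p : Fin 3) (j : Fin (M + 1)), Adj h i p j) ∨
    (i = 0 ∧ i = Fin.last M) := by
  by_cases h0 : i = 0
  · by_cases h1 : i = Fin.last M
    · exact Or.inr ⟨h0, h1⟩
    · obtain ⟨k, hk⟩ := Fin.eq_castSucc_of_ne_last h1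
      left
      refine ⟨k, 2, k.succ, ?_⟩
      rw [← hk]
      exact .l
  · obtain ⟨k, hk⟩ := Fin.eq_succ_of_ne_zero h0
    left
    refine ⟨k, 0, k.castSucc, ?_⟩
    rw [hk]
    exact .r

/-- the inner variable moves to `y` on its main path -/
theorem MM.inner3E' (hb : ClassW b) (hL : Loc b zs) (hN : NbT b R nb) (hM : MM b zs R nb z p)
    (hq : ∀ h : Fin M, RH1 b (.inl h) → p (.inl h) = 0)
    (m : {i : Fin (M + 1) // (tyW b i).isMid = true})
    (hA : ∀ (h : Fin M) (s : Fin 3) (j : Fin (M + 1)), Adj h m.1 s j → p (.inl h) = 0)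
    (hc : clsW b m.1 = .threeE) (hn : Sum.inl (Sum.inr m) ∉ nb) :
    ∃ X : ℂ, 0 ≤ X.re ∧ X.re ≤ 6 / 10 ∧ X.im ≤ 232 / 1000 * (6 / 10 - X.re) ∧
      ∀ y : ℝ, 0 ≤ y → y ≤ 77 / 100 → V3 X ⟨y, Tm b zs m * trm b m y⟩ 0 -
        V3 X (Ow b z m.1 1) 0 + 2 * Real.pi * p (.inr m) ≤ 0 := by
  have hR := hN.ok.1
  rcases adj_or (M := M) m.1 with ⟨h, s, j, A⟩ | ⟨h0, h1⟩
  · have hnh := hN.end_nn m A hc hn
    have hpos := hM.npos0 hb hR hq A fun hr => hnh (hR _ hr)
    obtain ⟨k1, k2, k3⟩ := hpos.e3 hb hL A hc (hA h s j A)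
    refine ⟨Ow b z m.1 s, k1, k2, k3, fun y y0 y1 => ?_⟩
    exact hM.inner3E hb hR m A hc hn y0 y1
  · refine ⟨0, le_rfl, by norm_num, by norm_num, fun y y0 y1 => ?_⟩
    have h2 := hM.istep hb hR m hn (onP_main (zs := zs) (.inr m) y0 (by
        show y ≤ (mp (clsW b m.1)).XM
        rw [hc]; exact y1))
    rw [ofr_ptm, OV_threeE_only hc h0 h1 (endOk_upd1 (Ow_endOk z m.1) _),
      OV_threeE_only hc h0 h1 (Ow_endOk z m.1), Function.update_self] at h2
    have e : tgi b zs m y = ⟨y, Tm b zs m * trm b m y⟩ := rfl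
    rw [e] at h2
    linarith only [h2]

/-- **The inner variable of an end with three crossings.** -/
theorem innersL_threeE (hb : ClassW b) (hL : Loc b zs)
    (m : {i : Fin (M + 1) // (tyW b i).isMid = true}) (hN : NbT b R nb)
    (hM : MM b zs R nb z p) (hq : ∀ h : Fin M, RH1 b (.inl h) → p (.inl h) = 0)
    (hA : ∀ (h : Fin M) (s : Fin 3) (j : Fin (M + 1)), Adj h m.1 s j → p (.inl h) = 0)
    (hc : clsW b m.1 = .threeE) (hn : Sum.inl (Sum.inr m) ∉ nb) : p (.inr m) = 0 := by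
  obtain ⟨X, x0, x1, x2, key⟩ := hM.inner3E' hb hL hN hq m hA hc hn
  obtain ⟨T0, T1⟩ := Tm3E_mem hL m hc
  have eX : X = ⟨X.re, X.im⟩ := rfl
  have hXM : (mp (clsW b m.1)).XM = 77 / 100 := by rw [hc]; rfl
  have ht : ∀ y, 0 ≤ trm b m y ∧ trm b m y ≤ 1 := fun y => tr_mem _ _ _ _ _
  rcases hM.ipos0 hN.ok.1 m hn with ⟨y, y0, y1, e, hp1⟩ | ⟨y, y0, y1, hT, e, hp1⟩ |
    ⟨y, y0, y1, hT, e, hp1⟩
  · exact hp1
  · rw [hXM] at y1
    by_contra hne
    have h0 : 0 < trm b m y := by
      refine lt_of_le_of_ne (ht y).1 fun h3 => hne ?_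
      rw [hp1, ← h3, mul_zero]
    have h1 := key y y0 y1
    have h2 := I3.flip_up (x := X.re) (y := y) (S := X.im) (a := 16 / 100 * trm b m y)
      (b := -Tm b zs m * trm b m y) x0 x1 y0 y1 (by linarith only [h0])
      (mul_nonneg (by linarith only [hT]) h0.le) (by nlinarith only [T0, h0])
    rw [e, hp1] at h1
    rw [← eX, show -(-Tm b zs m * trm b m y) = Tm b zs m * trm b m y by ring] at h2
    linarith only [h1, h2]
  · rw [hXM] at y1
    by_contra hne
    have h0 : 0 < trm b m y := by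
      refine lt_of_le_of_ne (ht y).1 fun h3 => hne ?_
      rw [hp1, ← h3, mul_zero]
    have h1 := key y y0 y1
    have h2 := I3.flip_dn (x := X.re) (y := y) (S := X.im) (a := 16 / 100 * trm b m y)
      (b := Tm b zs m * trm b m y) x0 x1 y0 y1 (by linarith only [h0])
      (mul_nonneg hT h0.le) (by nlinarith only [T1, h0]) x2 (fun h3 h4 => by
        have h5 : 85 / 100 ≤ trm b m y := by
          rw [trm_3E m hc]
          unfold tr
          refine le_max_of_le_right (le_min (by norm_num) (le_min ?_ ?_))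
          · rw [le_div_iff₀ (by norm_num)]
            linarith only [x1, h3]
          · rw [le_div_iff₀ (by norm_num)]
            linarith only [h4]
        linarith only [h5])
    rw [e, hp1] at h1
    rw [← eX] at h2
    linarith only [h1, h2]

/-- the same, all hinges without penalty -/
theorem inners_threeE (hb : ClassW b) (hL : Loc b zs)
    (m : {i : Fin (M + 1) // (tyW b i).isMid = true}) (hN : NbT b R nb)
    (hM : MM b zs R nb z p) (hh : ∀ h : Fin M, p (.inl h) = 0) (hc : clsW b m.1 = .threeE)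
    (hn : Sum.inl (Sum.inr m) ∉ nb) : p (.inr m) = 0 :=
  innersL_threeE hb hL m hN hM (fun h _ => hh h) (fun h _ _ _ => hh h) hc hn

end SR

end Pool.Agent.Work.MP_b30479_gtS.G2

end
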