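import Pool.Agent.Work.MP_b30479_gt.TBS.G2.RZ1

section

/-!
# Rings with the ring variable on the ramp, `b = 4`: certificates, rr_c, rs_a
-/

set_option deprecated.oldSectionVars true

namespace Pool.Agent.Work.MP_b30479_gtS.G2

open NumIs

namespace RQ4

theorem crr_c_0_pl0 : okB 10000
    (tP 4 1 65 100 4230 3560 4742 10 22 14287 0 0 87014 370 980)
    0 1580 0 0 40 1000 1300 1380 1965 1250 2500 490 1045
    0x1d3a03e80ba02e9d0181e80962c040ba2e07d017405d3a0302b012ce8081033810184040ba7407d017405d3a015808e020670101 = true := by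
  decide +kernel

theorem crr_c_0_pl1 : okB 10000
    (tP 4 1 65 100 4230 3560 4742 10 22 11800 0 0 67887 370 980)
    0 1580 0 0 40 1300 1700 1380 1965 1250 2500 490 1045
    0x74e80fa2e060fa74060ba1c060ba7405d3a0307d0e030407a7407d170307d3a0305d3a0305d3a03e9d018303d3a030400e1c0070e04040c1823810184040ba7407d3a0307d3a2c060c174e80fa74060fa74060801c3800e03c8701810470101 = true := by
  decide +kernel

theorem crr_c_0_pl2 : okB 10000
    (tP 4 1 65 100 4230 3560 4742 10 22 10859 0 0 62348 370 980)
    0 1580 0 0 40 1700 1870 1380 1965 1250 2500 490 1045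
    0x1d3a03e9d0183e8701f4e80c082e99019c0608e1c08081820870084040ba7407d3a03e9d008007d0e74020c174380ce020470101 = true := by
  decide +kernel

theorem crr_c_0_pm : okB 10000
    (tP 4 1 65 100 4230 3560 4742 10 22 0 800 0 0 370 980)
    0 1580 0 0 40 1870 2060 1380 1965 1250 2500 490 1045
    0x1d3a02e9d01003808e1c020fa740790164380ce020607c74e8001f4e80330307d0e03e8701810404e0408041cc380c082381019c0270102 = true := by
  decide +kernel

theorem crr_c_0_pr0 : okB 10000
    (tP 4 1 65 100 4230 3560 4742 10 22 0 10291 46069 0 370 980)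
    0 1580 0 0 40 2060 2700 1380 1965 1250 2500 490 1045
    0x70e1c060661c0605a340208e1c00d0082387001c040a61c07326030270e010470e010733a740202602393009e060c09c3804e0338700820470e013808100 = true := by
  decide +kernel

theorem crr_c_0_db0 : okB 10000
    (tD 1 4 1 65 100 4230 3560 4742 10 22 2130 1870 0 19558 111831 0 0 18373 111831 0 370 980)
    0 1580 0 0 40 1000 1300 1380 1965 1250 2500 490 1045
    0x6dda01283da94181da9416d06092edda09281069426d000ce04047008406092a51a0c181040b6ed01b41ed4a0c1254a09283da941250604101 = true := by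
  decide +kernel

theorem crr_c_0_db1 : okB 10000
    (tD 1 4 1 65 100 4230 3560 4742 10 22 2130 1870 0 16332 87015 0 0 15147 87015 0 370 980)
    0 1580 0 0 40 1300 1700 1380 1965 1250 2500 490 1045
    0x6dda0f6a506036ed01b4181dbb402507b7683020b6a504941a5f80d2814a041ed4a0f6a506080823894004da10100380419c080c204000811c4a02a814a0ce1c0008082 = true := by
  decide +kernel

theorem crr_c_0_db2 : okB 10000
    (tD 1 4 1 65 100 4230 3560 4742 10 22 2130 1870 0 13080 67888 0 0 11896 67888 0 370 980)
    0 1580 0 0 40 1700 1870 1380 1965 1250 2500 490 1045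
    0x1b7682dbb408138700ed38080823870102da9411c0808104080816dda04e023808083 = true := by
  decide +kernel

theorem crr_c_0_da : okB 10000
    (tD 0 4 1 65 100 4230 3560 4742 10 22 2130 0 0 12044 62349 0 800 0 0 0 370 980)
    0 1580 0 0 40 1870 2060 1380 1965 1250 2500 490 1045
    0x1b5283dbb418039b52830208e044a04182dbb41edda0c155380c1014a1019c0270102 = true := by
  decide +kernel

theorem crr_c_0_ua : okB 10000
    (tU 0 4 1 65 100 4230 3560 4742 10 22 300 0 12459 0 0 62349 800 0 0 0 370 980)
    0 1580 0 0 40 1870 2060 1380 1965 1250 2500 490 1045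
    0x1d3a81eb941823a740823a7409d060ce850608285040ba6607d7a0303d0e030470e830470101 = true := by
  decide +kernel

theorem crr_c_0_ub0 : okB 10000
    (tU 1 4 1 65 100 4230 3560 4742 10 22 300 2060 11422 0 0 57317 12607 0 0 57317 370 980)
    0 1580 0 0 40 2060 2700 1380 1965 1250 2500 490 1045
    0x1d3a0e69d0604e9d0209a1c000a6cd076268302d660004d261c04001013a7409d3a0811d3a7400168700023e7c103020da1c3809a01380019c3809a013800102 = true := by
  decide +kernel

theorem crr_c_1_pl0 : okB 10000
    (tP 4 1 65 100 4380 3560 4932 10 22 13827 0 0 76119 370 980)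
    0 1580 0 0 40 1000 1500 1380 1965 1250 2500 630 1045
    0x74e80fa02e807a74e80007403d8183e9d01f4020ba740608e1c020ba74e8001f4e8000f403d0174e803b03e805602ec0fa7606041f4580c12c58081003810200060ba7407d017405d3a03e80802c580ce020470101 = true := by
  decide +kernel

theorem crr_c_1_pl1 : okB 10000
    (tP 4 1 65 100 4380 3560 4932 10 22 11007 0 0 57316 370 980)
    0 1580 0 0 40 1500 2060 1380 1965 1250 2500 630 1045
    0x74e803a02c80ba7401d0101380ba74e80407405d3a000470100380ba7401d014c05d3a00e80b2020070101cdd160201d3a2e0603a020070e00059ba00380ba7401d01000270174e803a01cc0ba7401d0100387000202102023804103 = true := by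
  decide +kernel

theorem crr_c_1_pm : okB 10000
    (tP 4 1 65 100 4380 3560 4932 10 22 0 800 0 0 370 980)
    0 1580 0 0 40 2060 2250 1380 1965 1250 2500 630 1045
    0x1d3a02380fa660604e1c380c082380ba7407d3a03033260304726010404e1c0270102 = true := by
  decide +kernel

theorem crr_c_1_pr0 : okB 10000
    (tP 4 1 65 100 4380 3560 4932 10 22 0 11166 46069 0 370 980)
    0 1580 0 0 40 2250 2700 1380 1965 1250 2500 630 1045
    0x4c380e61c0730e030201a4c380c0026808e1c007010299301cc980c0cc9c0c13404d0101 = true := by
  decide +kernel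

theorem crr_c_1_db0 : okB 10000
    (tD 1 4 1 65 100 4380 3560 4932 10 22 2130 2060 0 20752 111831 0 0 19663 111831 0 370 980)
    0 1580 0 0 40 1000 1300 1380 1965 1250 2500 630 1045
    0x1b52824a0b6ed0497e814a0c1014a941254a0868d009408205b52824a08083 = true := by
  decide +kernel

theorem crr_c_1_db1 : okB 10000
    (tD 1 4 1 65 100 4380 3560 4932 10 22 2130 2060 0 17526 87015 0 0 16437 87015 0 370 980)
    0 1580 0 0 40 1300 1700 1380 1965 1250 2500 630 1045
    0x1b7682da940034a940a5040b6ed05b768101b76804a0c1014a9528002952820670204000ce250004102 = true := by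
  decide +kernel

theorem crr_c_1_db2 : okB 10000
    (tD 1 4 1 65 100 4380 3560 4932 10 22 2130 2060 0 14274 67888 0 0 13185 67888 0 370 980)
    0 1580 0 0 40 1700 2060 1380 1965 1250 2500 630 1045
    0x6d4a09282dbb402504076ed01541014bb5282029416dda01282020ce1c0270e020470102 = true := by
  decide +kernel

theorem crr_c_1_da : okB 10000
    (tD 0 4 1 65 100 4380 3560 4932 10 22 2130 0 0 12097 57317 0 800 0 0 0 370 980)
    0 1580 0 0 40 2060 2250 1380 1965 1250 2500 630 1045
    0x6daa092a502941033808e02aa7016daa0928206f4101 = true := by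
  decide +kernel

theorem crr_c_1_ua : okB 10000
    (tU 0 4 1 65 100 4380 3560 4932 10 22 120 0 12607 0 0 57317 800 0 0 0 370 980)
    0 1580 0 0 40 2060 2250 1380 1965 1250 2500 630 1045
    0x64ea066023a0ba4d04701016808e9f027c1e63808e820270103 = true := by
  decide +kernel

theorem crr_c_1_ub0 : okB 10000
    (tU 1 4 1 65 100 4380 3560 4932 10 22 120 2250 11683 0 0 53211 12772 0 0 53211 370 980)
    0 1580 0 0 40 2250 2700 1380 1965 1250 2500 630 1045
    0x1d9804e83987c181987c1cc980c08168d00cc380c04c9c0c08268d1a010609a1c3808e026804182 = true := by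
  decide +kernel

theorem crs_a_0_pl0 : okB 10000
    (tP 4 1 65 100 3890 3560 4572 10 22 12788 0 0 88877 140 730)
    0 1580 0 0 40 1000 1150 1700 2140 1250 2500 530 1045
    0x1d3a00e803a03e807a03e80ba740007a02e80ba74060fa7407d0101e80ba7407d0103e9d01f407d16020607a74060ba74040b2040410182 = true := by
  decide +kernel

theorem crs_a_0_pl1 : okB 10000
    (tP 4 1 65 100 3890 3560 4572 10 22 11664 0 0 79103 140 730)
    0 1580 0 0 40 1150 1300 1700 2140 1250 2500 530 1045
    0x1d3a03e9d3a03e80407407d01740203a01e9d0074020fa7407d0082e9d0082e9d01f40407a74020ba2c04b017407d3a03020fa7401d01823870064060b2040410102 = true := by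
  decide +kernel

theorem crs_a_0_pl2 : okB 10000
    (tP 4 1 65 100 3890 3560 4572 10 22 10377 0 0 69199 140 730)
    0 1580 0 0 40 1300 1500 1700 2140 1250 2500 530 1045
    0x1d3a740003a03e9d0181e9d0183e9d00f4060ba74060ba740608e64060ba7407d0174e8001f4e80c174e80c11c380c10108700840410102 = true := by
  decide +kernel

theorem crs_a_0_pl3 : okB 10000
    (tP 4 1 65 100 3890 3560 4572 10 22 9109 0 0 60750 140 730)
    0 1580 0 0 40 1500 1730 1700 2140 1250 2500 530 1045
    0x1d3a00e9d0180e9d00740607a7401d0082e9d009ce80410238700020870082e9d007405901640808174e803a023808e020210103 = true := by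
  decide +kernel

theorem crs_a_0_pm : okB 10000
    (tP 4 1 65 100 3890 3560 4572 10 22 0 1400 0 0 140 730)
    0 1580 0 0 40 1730 1890 1700 2140 1250 2500 530 1045
    0x1d0e02c80fa740470181399018238101820810102e9d011c05d3a00e80809cc804e02067011c080c101 = true := by
  decide +kernel

theorem crs_a_0_pr0 : okB 10000
    (tP 4 1 65 100 3890 3560 4572 10 22 0 9316 41881 0 140 730)
    0 1580 0 0 40 1890 2700 1700 2140 1250 2500 530 1045
    0x70e1ce800e02007010038102043804000060ce1c0133a640600e02380c0013870204000c002387001c3800002 = true := by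
  decide +kernel

theorem crs_a_0_db0 : okB 10000
    (tD 1 4 1 65 100 3890 3560 4572 10 22 1680 1730 0 15771 101665 0 0 14799 101665 0 140 730)
    0 1580 0 0 40 1000 1150 1700 2140 1250 2500 530 1045
    0x1b7680da0b682dbb4101dbb4174c808202040b6ed0494e0204076ed01b41254a080edc80b681c8101040408103 = true := by
  decide +kernel

theorem crs_a_0_db1 : okB 10000
    (tD 1 4 1 65 100 3890 3560 4572 10 22 1680 1730 0 14300 88878 0 0 13328 88878 0 140 730)
    0 1580 0 0 40 1150 1300 1700 2140 1250 2500 530 1045
    0x6dda0f683da94181dbb41ed020b6a505b40ed4a04182db901e4080c1040494e640608e040608082 = true := by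
  decide +kernel

theorem crs_a_0_db2 : okB 10000
    (tD 1 4 1 65 100 3890 3560 4572 10 22 1680 1730 0 13030 79104 0 0 12058 79104 0 140 730)
    0 1580 0 0 40 1300 1500 1700 2140 1250 2500 530 1045
    0x1b7680da07682dbb406d040f6ed07b5283040769c05b768203b72024a041823810e01061019c080ce010210102 = true := by
  decide +kernel

theorem crs_a_0_db3 : okB 10000
    (tD 1 4 1 65 100 3890 3560 4572 10 22 1680 1730 0 11544 69200 0 0 10572 69200 0 140 730)
    0 1580 0 0 40 1500 1730 1700 2140 1250 2500 530 1045
    0x1d3a02dbb408039b406d060ce6d019018239902020608204040b6ed01b41ed380c11c380c11c080c101 = true := by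
  decide +kernel

theorem crs_a_0_da : okB 10000
    (tD 0 4 1 65 100 3890 3560 4572 10 22 1680 0 0 10082 60751 0 1400 0 0 0 140 730)
    0 1580 0 0 40 1730 1890 1700 2140 1250 2500 530 1045
    0x7368139b40833808e02c81010404700830810102 = true := by
  decide +kernel

theorem crs_a_0_ua : okB 10000
    (tU 0 4 1 65 100 3890 3560 4572 10 22 270 0 11909 0 0 60751 1400 0 0 0 140 730)
    0 1580 0 0 40 1730 1890 1700 2140 1250 2500 530 1045
    0x742833a7409d06042850208282 = true := by
  decide +kernel

theorem crs_a_0_ub0 : okB 10000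
    (tU 1 4 1 65 100 3890 3560 4572 10 22 270 1890 11040 0 0 56152 12012 0 0 56152 140 730)
    0 1580 0 0 40 1890 2700 1700 2140 1250 2500 530 1045
    0x74e813a08e9d0408285047409d3a08103 = true := by
  decide +kernel

theorem crs_a_1_pl0 : okB 10000
    (tP 4 1 65 100 4050 3560 4732 10 22 13234 0 0 85340 140 730)
    0 1580 0 0 40 1000 1200 1700 2140 1250 2500 530 1045
    0x1d3a00e80fa01e9d0002e9d0183e9d0183e9d01f4060ba7407d0181e9d00f4060ba7407d16030607a7407d1603020ba2c05d0182e8b00f4040ba040410102 = true := by
  decide +kernel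

theorem crs_a_1_pl1 : okB 10000
    (tP 4 1 65 100 4050 3560 4732 10 22 11848 0 0 73784 140 730)
    0 1580 0 0 40 1200 1400 1700 2140 1250 2500 530 1045
    0x74e9d01f40203a01e80ba74e80c074020fa02e808e02e9d01f405d160303d01740590103e9d01f4e8041f4e80c174580c11c380010108700840410102 = true := by
  decide +kernel

theorem crs_a_1_pl2 : okB 10000
    (tP 4 1 65 100 4050 3560 4732 10 22 10158 0 0 61715 140 730)
    0 1580 0 0 40 1400 1700 1700 2140 1250 2500 530 1045
    0x74e80fa023870002e9d01f4e8000f405d01003808202e9d01f40470174e807a02e808e020070101e9d007405d0174e808e0203d3a03e80ba02e9d01ac04040640808e010410103 = true := by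
  decide +kernel

theorem crs_a_1_pl3 : okB 10000
    (tP 4 1 65 100 4050 3560 4732 10 22 9212 0 0 56151 140 730)
    0 1580 0 0 40 1700 1890 1700 2140 1250 2500 530 1045
    0x74e80fa74000fa7401d0182399019c380c08238101820810102e9d01f4e80c074e80c1743808e03047011c080c101 = true := by
  decide +kernel

theorem crs_a_1_pm : okB 10000
    (tP 4 1 65 100 4050 3560 4732 10 22 0 1400 0 0 140 730)
    0 1580 0 0 40 1890 2050 1700 2140 1250 2500 530 1045
    0x1d0e023808e1c020ce640808183e9d0e020670e010670e1c060410138102010608e02 = true := by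
  decide +kernel

theorem crs_a_1_pr0 : okB 10000
    (tP 4 1 65 100 4050 3560 4732 10 22 0 9986 41881 0 140 730)
    0 1580 0 0 40 2050 2700 1700 2140 1250 2500 530 1045
    0x1c38700813808e0238102000670200040ce1c027011c05332740200e02380ce020004e1c0070102 = true := by
  decide +kernel

theorem crs_a_1_db0 : okB 10000
    (tD 1 4 1 65 100 4050 3560 4732 10 22 1680 1890 0 16792 101665 0 0 15893 101665 0 140 730)
    0 1580 0 0 40 1000 1200 1700 2140 1250 2500 530 1045
    0x1b76814a0b6ed040f6edda0c1640808202db90184c8101000400102da9412504976ed0808e010408181 = true := by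
  decide +kernel

theorem crs_a_1_db1 : okB 10000
    (tD 1 4 1 65 100 4050 3560 4732 10 22 1680 1890 0 14833 85341 0 0 13934 85341 0 140 730)
    0 1580 0 0 40 1200 1400 1700 2140 1250 2500 530 1045
    0x1b7682da0d2ed060b6a507b528204052e40808e0138041ed0808e0404700810610e040604102 = true := by
  decide +kernel

theorem crs_a_1_db2 : okB 10000
    (tD 1 4 1 65 100 4050 3560 4732 10 22 1680 1890 0 13215 73785 0 0 12317 73785 0 140 730)
    0 1580 0 0 40 1400 1700 1700 2140 1250 2500 530 1045
    0x1b7680da0f6a507b41823894064080b6e4040018238101840610102dbb416d4a0811c05b52804a0821c0208181 = true := by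
  decide +kernel

theorem crs_a_1_db3 : okB 10000
    (tD 1 4 1 65 100 4050 3560 4732 10 22 1680 1890 0 11163 61716 0 0 10265 61716 0 140 730)
    0 1580 0 0 40 1700 1890 1700 2140 1250 2500 530 1045
    0x6dda08e02380b21c0390104040c204040b6ed07b4e03047011c080c101 = true := by
  decide +kernel

theorem crs_a_1_da : okB 10000
    (tD 0 4 1 65 100 4050 3560 4732 10 22 1680 0 0 10112 56152 0 1400 0 0 0 140 730)
    0 1580 0 0 40 1890 2050 1700 2140 1250 2500 530 1045
    0x1cda04e023811281060ce040608e02 = true := by
  decide +kernel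

theorem crs_a_1_ua : okB 10000
    (tU 0 4 1 65 100 4050 3560 4732 10 22 370 0 12012 0 0 56152 1400 0 0 0 140 730)
    0 1580 0 0 40 1890 2050 1700 2140 1250 2500 530 1045
    0x742833a7409d06042850208e82 = true := by
  decide +kernel

theorem crs_a_1_ub0 : okB 10000
    (tU 1 4 1 65 100 4050 3560 4732 10 22 370 2050 11227 0 0 52324 12126 0 0 52324 140 730)
    0 1580 0 0 40 2050 2700 1700 2140 1250 2500 530 1045
    0x742833a140023a1419d04d0e000404e1c007011c3800102 = true := by
  decide +kernel

theorem crs_a_2_pl0 : okB 10000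
    (tP 4 1 65 100 4210 3560 4892 10 22 14975 0 0 92744 140 730)
    0 1580 0 0 40 1000 1100 1700 2140 1250 2500 530 1045
    0x74e80fa74060fa740607a740007a74020ba02e9d0081e808e02e9d00f407d160203d00f4580417405d0103c810102 = true := by
  decide +kernel

theorem crs_a_2_pl1 : okB 10000
    (tP 4 1 65 100 4210 3560 4892 10 22 14160 0 0 85340 140 730)
    0 1580 0 0 40 1100 1200 1700 2140 1250 2500 530 1045
    0x1d3a03e9d0183e9d0181e9d0081e9d0082e80ba740607a02380b204040ba7407d01f4580c0f405d3a0303d01740410103 = true := by
  decide +kernel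

theorem crs_a_2_pl2 : okB 10000
    (tP 4 1 65 100 4210 3560 4892 10 22 13081 0 0 76342 140 730)
    0 1580 0 0 40 1200 1350 1700 2140 1250 2500 530 1045
    0x1d3a03e9d01f4e80c180e80ba740607a02e808e02e9d01f407d0174e80c0f405d0174040fa7407d011c05d3a035809602060421c0210182 = true := by
  decide +kernel

theorem crs_a_2_pl3 : okB 10000
    (tP 4 1 65 100 4210 3560 4892 10 22 12116 0 0 69199 140 730)
    0 1580 0 0 40 1350 1500 1700 2140 1250 2500 530 1045
    0x1d3a03e9d0183e9d0181e9d0074060ba74060ba740608e640608204000ba7407d3a0307d1603047011c080c101 = true := by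
  decide +kernel

theorem crs_a_2_pl4 : okB 10000
    (tP 4 1 65 100 4210 3560 4892 10 22 10994 0 0 61715 140 730)
    0 1580 0 0 40 1500 1700 1700 2140 1250 2500 530 1045
    0x1d3a03e9d0183e9d0074060ba74060ba2c059018238132000608204020ba7407d3a0301d3a0305d0e03047011c080c101 = true := by
  decide +kernel

theorem crs_a_2_pl5 : okB 10000
    (tP 4 1 65 100 4210 3560 4892 10 22 10004 0 0 55891 140 730)
    0 1580 0 0 40 1700 1900 1700 2140 1250 2500 530 1045
    0x74e80ce0239d01e4040fa7407d3a020673a030400e040608204040ba7407d3a0301d0e1c000c1743808e03047011c080c101 = true := by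
  decide +kernel

theorem crs_a_2_pl6 : okB 10000
    (tP 4 1 65 100 4210 3560 4892 10 22 9326 0 0 52323 140 730)
    0 1580 0 0 40 1900 2050 1700 2140 1250 2500 530 1045
    0x74380fa740404e023990202060ce040608e02e9d0174e800e020673201380c19c0470101 = true := by
  decide +kernel

theorem crs_a_2_pm : okB 10000
    (tP 4 1 65 100 4210 3560 4892 10 22 0 1400 0 0 140 730)
    0 1580 0 0 40 2050 2210 1700 2140 1250 2500 530 1045
    0x1ce804e02380ce023810e010610103e9901cc0470e0106701013870102 = true := by
  decide +kernel

theorem crs_a_2_pr0 : okB 10000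
    (tP 4 1 65 100 4210 3560 4892 10 22 0 10656 41881 0 140 730)
    0 1580 0 0 40 2210 2700 1700 2140 1250 2500 530 1045
    0x70e1c0200e023810202060ce1c000a64c980401c380011c38001b40404e1c0070102 = true := by
  decide +kernel

theorem crs_a_2_db0 : okB 10000
    (tD 1 4 1 65 100 4210 3560 4892 10 22 1680 2050 0 17718 101665 0 0 16881 101665 0 140 730)
    0 1580 0 0 40 1000 1200 1700 2140 1250 2500 530 1045
    0x1b7683da052a501b4182dbd3202080816ddb90202040802503b76810990202007068302342020608182 = true := by
  decide +kernel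

theorem crs_a_2_db1 : okB 10000
    (tD 1 4 1 65 100 4210 3560 4892 10 22 1680 2050 0 15759 85341 0 0 14922 85341 0 140 730)
    0 1580 0 0 40 1200 1400 1700 2140 1250 2500 530 1045
    0x6dda0f6a506052ed4a041824bb426400081ed0990002061020308081254a34184040c082 = true := by
  decide +kernel

theorem crs_a_2_db2 : okB 10000
    (tD 1 4 1 65 100 4210 3560 4892 10 22 1680 2050 0 14141 73785 0 0 13304 73785 0 140 730)
    0 1580 0 0 40 1400 1700 1700 2140 1250 2500 530 1045
    0x6d4a0928238101040470084040b6ed009411c04052ed07b426d00081254a0808438101010808103 = true := by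
  decide +kernel

theorem crs_a_2_db3 : okB 10000
    (tD 1 4 1 65 100 4210 3560 4892 10 22 1680 2050 0 12089 61716 0 0 11252 61716 0 140 730)
    0 1580 0 0 40 1700 2050 1700 2140 1250 2500 530 1045
    0x6dda0ce02da941004b90202db90100060ce043810181060b6a507b4e03047016dda092833870182000420404702030270102 = true := by
  decide +kernel

theorem crs_a_2_da : okB 10000
    (tD 0 4 1 65 100 4210 3560 4892 10 22 1680 0 0 10164 52324 0 1400 0 0 0 140 730)
    0 1580 0 0 40 2050 2210 1700 2140 1250 2500 530 1045
    0x1cda04e023809284061011c020ce02 = true := by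
  decide +kernel

theorem crs_a_2_ua : okB 10000
    (tU 0 4 1 65 100 4210 3560 4892 10 22 530 0 12126 0 0 52324 1400 0 0 0 140 730)
    0 1580 0 0 40 2050 2210 1700 2140 1250 2500 530 1045
    0x1dc804e023a0829d020ce02 = true := by
  decide +kernel

theorem crs_a_2_ub0 : okB 10000
    (tU 1 4 1 65 100 4210 3560 4892 10 22 530 2210 11413 0 0 49100 12251 0 0 49100 140 730)
    0 1580 0 0 40 2210 2700 1700 2140 1250 2500 530 1045
    0x74283381418038701023a74e8002741b40404e1c0470102 = true := by
  decide +kernel

theorem crs_a_3_pl0 : okB 10000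
    (tP 4 1 65 100 4290 3560 4972 10 22 14802 0 0 85340 140 730)
    0 1580 0 0 40 1000 1200 1700 2140 1250 2500 530 1045
    0x1d3a03e9d0183e807a7407d0082e9d0082e809602580ba7406b017402b017607d0174040f204040ba7405d170307d012c580811c080c101 = true := by
  decide +kernel

theorem crs_a_3_pl1 : okB 10000
    (tP 4 1 65 100 4290 3560 4972 10 22 13415 0 0 73784 140 730)
    0 1580 0 0 40 1200 1400 1700 2140 1250 2500 530 1045
    0x1d3a03e9d01f4e80c0f40403a740607a02e808e02e9d3a0301d00f607d01740590103e9d01f40470174580ba015808e02060421c0210182 = true := by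
  decide +kernel

theorem crs_a_3_pl2 : okB 10000
    (tP 4 1 65 100 4290 3560 4972 10 22 11726 0 0 61715 140 730)
    0 1580 0 0 40 1400 1700 1700 2140 1250 2500 530 1045
    0x74e807a02e80ba7403d0174040fa7407d0174e8080f45809602ec0c1f4e80c1003990202060ba7401d3b0307d3a0305d0e03e8b01800470e00040421c0210182 = true := by
  decide +kernel

theorem crs_a_3_pl3 : okB 10000
    (tP 4 1 65 100 4290 3560 4972 10 22 10320 0 0 53447 140 730)
    0 1580 0 0 40 1700 2000 1700 2140 1250 2500 530 1045
    0x74e803a00380ba7401d0101e9d00740271600e80411c380410339980f4580ba010070e0005d3a000c08f013878001060ce0406700820810e010270102 = true := by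
  decide +kernel

theorem crs_a_3_pl4 : okB 10000
    (tP 4 1 65 100 4290 3560 4972 10 22 9450 0 0 49099 140 730)
    0 1580 0 0 40 2000 2210 1700 2140 1250 2500 530 1045
    0x190e03e8701813808e040c00e01060ce04060ba4c0590e020670e1c380000106701013870102 = true := by
  decide +kernel

theorem crs_a_3_pm : okB 10000
    (tP 4 1 65 100 4290 3560 4972 10 22 0 1400 0 0 140 730)
    0 1580 0 0 40 2210 2290 1700 2140 1250 2500 530 1045
    0x64380ce023810183380ba74027011c06701013870102 = true := by
  decide +kernel

theorem crs_a_3_pr0 : okB 10000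
    (tP 4 1 65 100 4290 3560 4972 10 22 0 10991 41881 0 140 730)
    0 1580 0 0 40 2290 2700 1700 2140 1250 2500 530 1045
    0x1c38700803808e040c081833870102993019c0672600380c1340404e1c0470102 = true := by
  decide +kernel

theorem crs_a_3_db0 : okB 10000
    (tD 1 4 1 65 100 4290 3560 4972 10 22 1680 2210 0 18521 101665 0 0 18129 101665 0 140 730)
    0 1580 0 0 40 1000 1300 1700 2140 1250 2500 530 1045
    0x6dda05282dbb4125020f6ed1a0c104e800202080c202049768d040c0edda1320008081024a0768d1a00681040c002 = true := by
  decide +kernel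

theorem crs_a_3_db1 : okB 10000
    (tD 1 4 1 65 100 4290 3560 4972 10 22 1680 2210 0 15588 79104 0 0 15196 79104 0 140 730)
    0 1580 0 0 40 1300 1700 1700 2140 1250 2500 530 1045
    0x1b76834bb41824bb426400081a5da0c0023813684040019c021330d04002020610200040b6a504941a54a001253834184040c101 = true := by
  decide +kernel

theorem crs_a_3_db2 : okB 10000
    (tD 1 4 1 65 100 4290 3560 4972 10 22 1680 2210 0 12633 61716 0 0 12240 61716 0 140 730)
    0 1580 0 0 40 1700 2210 1700 2140 1250 2500 530 1045
    0x1cda036804a940024a09284c803680081b20000081833870204020c2030808182db5412507b52824a0c025380c101381020238101810070102 = true := by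
  decide +kernel

theorem crs_a_3_da : okB 10000
    (tD 0 4 1 65 100 4290 3560 4972 10 22 1680 0 0 9844 49100 0 1400 0 0 0 140 730)
    0 1580 0 0 40 2210 2290 1700 2140 1250 2500 530 1045
    0x70203aa941813808e02 = true := by
  decide +kernel

theorem crs_a_3_ua : okB 10000
    (tU 0 4 1 65 100 4290 3560 4972 10 22 610 0 12251 0 0 49100 1400 0 0 0 140 730)
    0 1580 0 0 40 2210 2290 1700 2140 1250 2500 530 1045
    0x1d3a700813a0829d020ce02 = true := by
  decide +kernel

theorem crs_a_3_ub0 : okB 10000
    (tU 1 4 1 65 100 4290 3560 4972 10 22 610 2290 11925 0 0 47676 12317 0 0 47676 140 730)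
    0 1580 0 0 40 2290 2700 1700 2140 1250 2500 530 1045
    0x1c3a04e02381419c040cecc02701b438001340404e1c0270102 = true := by
  decide +kernel

theorem crs_a_4_pl0 : okB 10000
    (tP 4 1 65 100 4370 3560 5052 10 22 16121 0 0 92744 140 730)
    0 1580 0 0 40 1000 1100 1700 2140 1250 2500 530 1045
    0x1d3a03e807a7407d017403d3a0301d0083e80ba02e9d0181e9d0081e809602ecb81f403d00f605d81f405d0103c810102 = true := by
  decide +kernel

theorem crs_a_4_pl1 : okB 10000
    (tP 4 1 65 100 4370 3560 5052 10 22 15307 0 0 85340 140 730)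
    0 1580 0 0 40 1100 1200 1700 2140 1250 2500 530 1045
    0x1d3a03e807a74e8001f405d00f4020fa74060ba740207a74060ba02e9d0081ecb81f402b017403d818359d01f40208e74060821c0210182 = true := by
  decide +kernel

theorem crs_a_4_pl2 : okB 10000
    (tP 4 1 65 100 4370 3560 5052 10 22 14227 0 0 76342 140 730)
    0 1580 0 0 40 1200 1350 1700 2140 1250 2500 530 1045
    0x74e9d0180e807a7407d3a03e80ba01e804003e9d0002e80ba745808181ecb81f403d012c05d818359d0182e9d01ac05d9703580818158b0166060821c0210182 = true := by
  decide +kernel

theorem crs_a_4_pl3 : okB 10000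
    (tP 4 1 65 100 4370 3560 5052 10 22 13262 0 0 69199 140 730)
    0 1580 0 0 40 1350 1500 1700 2140 1250 2500 530 1045
    0x1d3a74000fa02e9d0101e80ba02ecb012c04b81f607d01033990182e9d017405d1703580819c040421c0210182 = true := by
  decide +kernel

theorem crs_a_4_pl4 : okB 10000
    (tP 4 1 65 100 4370 3560 5052 10 22 12140 0 0 61715 140 730)
    0 1580 0 0 40 1500 1700 1700 2140 1250 2500 530 1045
    0x74e807a740603a023870082ecb012c05d81e6040ce04c800182080ba7405d970307d0e03047011c080c101 = true := by
  decide +kernel

theorem crs_a_4_pl5 : okB 10000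
    (tP 4 1 65 100 4370 3560 5052 10 22 11150 0 0 55891 140 730)
    0 1580 0 0 40 1700 1900 1700 2140 1250 2500 530 1045
    0x74e808e02e9d019c0400e02e8b01660798104040c204040ba745c0c1f4e80c11ce804e03047011c080c101 = true := by
  decide +kernel

theorem crs_a_4_pl6 : okB 10000
    (tP 4 1 65 100 4370 3560 5052 10 22 10269 0 0 51257 140 730)
    0 1580 0 0 40 1900 2100 1700 2140 1250 2500 530 1045
    0x643870003e990181380ba7405d3a0038081813808e02387006608081840598e020808f030270103 = true := by
  decide +kernel

theorem crs_a_4_pl7 : okB 10000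
    (tP 4 1 65 100 4370 3560 5052 10 22 9517 0 0 47675 140 730)
    0 1580 0 0 40 2100 2290 1700 2140 1250 2500 530 1045
    0x643808e023870083380ba64073011c0404e06061011c3870001380c0833870102 = true := by
  decide +kernel

theorem crs_a_4_pm : okB 10000
    (tP 4 1 65 100 4370 3560 5052 10 22 0 1400 0 0 140 730)
    0 1580 0 0 40 2290 2370 1700 2140 1250 2500 530 1045
    0x7261c040664c0604e04067808338d00823870102 = true := by
  decide +kernel

theorem crs_a_4_pr0 : okB 10000
    (tP 4 1 65 100 4370 3560 5052 10 22 0 11326 41881 0 140 730)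
    0 1580 0 0 40 2370 2700 1700 2140 1250 2500 530 1045
    0x34380ce4c380809c0c0c1806870182693001c38001b404d0101387001c0470102 = true := by
  decide +kernel

theorem crs_a_4_db0 : okB 10000
    (tD 1 4 1 65 100 4370 3560 5052 10 22 1680 2290 0 19004 101665 0 0 18622 101665 0 140 730)
    0 1580 0 0 40 1000 1300 1700 2140 1250 2500 530 1045
    0x6d4a0b6834bb4182dbb46830497682021320038341810808683383418105b7680da1320038046830434182da946830404002 = true := by
  decide +kernel

theorem crs_a_4_db1 : okB 10000
    (tD 1 4 1 65 100 4370 3560 5052 10 22 1680 2290 0 16071 79104 0 0 15689 79104 0 140 730)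
    0 1580 0 0 40 1300 1700 1700 2140 1250 2500 530 1045
    0x6d4a0f6834a9406d06092ed0990066000b6804a04182381368404001a5021020004940841a012811a0c2040008182 = true := by
  decide +kernel

theorem crs_a_4_db2 : okB 10000
    (tD 1 4 1 65 100 4370 3560 5052 10 22 1680 2290 0 13115 61716 0 0 12733 61716 0 140 730)
    0 1580 0 0 40 1700 2290 1700 2140 1250 2500 530 1045
    0x6d4a0b6804a0d2824a18e01da1b3000400183dbb406d00941a54a012830405284099b30208080000694e030208e04080020238101810070102 = true := by
  decide +kernel

theorem crs_a_4_da : okB 10000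
    (tD 0 4 1 65 100 4370 3560 5052 10 22 1680 0 0 9900 47676 0 1400 0 0 0 140 730)
    0 1580 0 0 40 2290 2370 1700 2140 1250 2500 530 1045
    0x1c0c0eaa50604e024a94002 = true := by
  decide +kernel

theorem crs_a_4_ua : okB 10000
    (tU 0 4 1 65 100 4370 3560 5052 10 22 690 0 12317 0 0 47676 1400 0 0 0 140 730)
    0 1580 0 0 40 2290 2370 1700 2140 1250 2500 530 1045
    0x1c0a0e61d0604e023870082 = true := by
  decide +kernel

theorem crs_a_4_ub0 : okB 10000
    (tU 1 4 1 65 100 4370 3560 5052 10 22 690 2370 12006 0 0 46361 12387 0 0 46361 140 730)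
    0 1580 0 0 40 2370 2700 1700 2140 1250 2500 530 1045
    0xd0e0338141803870102387010298701b404d011c3808101 = true := by
  decide +kernel

end RQ4

end Pool.Agent.Work.MP_b30479_gtS.G2

end

section

/-!
# Rings with the ring variable on the ramp, `b = 4`, inside: rows rr_c
-/

set_option deprecated.oldSectionVars true

namespace Pool.Agent.Work.MP_b30479_gtS.G2

open Real NumIs

namespace RQ4

open RC RQ

theorem srr_c_0 {xs s T ρ : ℝ} (hW : RWp.In ⟨1870 / 10000, 2370 / 10000, -(200 / 10000), 385 / 10000, 2130 / 10000, 2170 / 10000, 490 / 10000, 1045 / 10000, 4380 / 10000, 3560 / 10000, 370 / 10000, 980 / 10000, 22 / 10, 59 / 100⟩ xs s T ρ)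
    (ha : ((1870 : ℕ) : ℝ) / 10000 ≤ xs) (he : xs ≤ ((2060 : ℕ) : ℝ) / 10000) :
    RampOK (65 / 100) (8 / 100) (11 / 10) 4 xs (1 / 2 - s) T ρ (10 / 100) (27 / 100) := by
  have hN : Nm 4230 3560 4742 10 22 300 2130 370 980 1380 1965 490 1045 xs s T ρ := by
    obtain ⟨-, -, w1, w2, w3, w4, w5, w6, w7, w8, w9, w10, w11, w12⟩ := hW
    dsimp only at w1 w2 w3 w4 w6 w7 w8 w9 w10 w11 w12
    push_cast at ha he
    exact ⟨by linarith only [ha, w5, w7], by linarith only [he, w5, w7], by push_cast; linarith only [w3], by norm_num, by push_cast; linarith only [he, w4],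
      by norm_num, by push_cast; linarith only [w9], by norm_num, by push_cast; linarith only [he, w4, w5, w7, w11], by norm_num,
      by push_cast; linarith only [he, w3, w5, w7], by push_cast; linarith only [ha, w4], by norm_num, by push_cast; linarith only [w1],
      by push_cast; linarith only [w2], by push_cast; linarith only [w6], by push_cast; linarith only [w7], w5,
      fun _ => by push_cast; linarith only [w10], by push_cast; linarith only [w11]⟩
  have hT : |T| ≤ ((385 : ℕ) : ℝ) / 10000 := by
    have w1 := hW.t0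
    have w2 := hW.t1
    dsimp only at w1 w2
    rw [abs_le]
    push_cast
    constructor <;> linarith only [w1, w2]
  have kc : kC4 11000 1870 2060 385 0 = true := by decide +kernel
  have ua : kU 11000 1870 62349 = true := by decide +kernel
  have hcl : (0 : ℝ) < 10 / 100 := by norm_num
  have hcp : (27 / 100 : ℝ) < 1 / 2 := by norm_num
  have h5 := hN.xs1.le
  refine ⟨fun x y hA => ?_, fun x y hA hx => ?_, fun x y hA hx => ?_⟩
  · have hx0 : ((1000 : ℕ) : ℝ) / 10000 ≤ x := le_trans (by norm_num) hA.x0
    have hx1 : x ≤ ((2700 : ℕ) : ℝ) / 10000 := le_trans hA.x1 (by norm_num)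
    have x0 : 0 < x := (n0 (by decide)).trans_le hx0
    rcases le_total x (((1300 : ℕ) : ℝ) / 10000) with c0 | c0
    · have h := piP crr_c_0_pl0 hN hA hcl hcp hx0 c0
      have g0 := gL (be := 11000) (p := 1300) (G := 87014) (by decide +kernel) x0 c0 le_rfl (by decide)
      have g1 := gL (be := 11000) (p := 1700) (G := 67887) (x := ((1300 : ℕ) : ℝ) / 10000) (by decide +kernel)
        (n0 (by decide)) (nle (by decide)) le_rfl (by decide)
      have g2 := gL (be := 11000) (p := 1870) (G := 62348) (x := ((1700 : ℕ) : ℝ) / 10000) (by decide +kernel)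
        (n0 (by decide)) (nle (by decide)) le_rfl (by decide)
      have gm := gh_mono (x := ((1870 : ℕ) : ℝ) / 10000) (n0 (by decide)) ha h5
      unfold lin at h
      push_cast at h gm g0 g1 g2
      linarith only [neg_abs_le (gh x - gh xs), h, gm, g0, g1, g2]
    rcases le_total x (((1700 : ℕ) : ℝ) / 10000) with c1 | c1
    · have h := piP crr_c_0_pl1 hN hA hcl hcp c0 c1
      have g0 := gL (be := 11000) (p := 1700) (G := 67887) (by decide +kernel) x0 c1 le_rfl (by decide)
      have g1 := gL (be := 11000) (p := 1870) (G := 62348) (x := ((1700 : ℕ) : ℝ) / 10000) (by decide +kernel)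
        (n0 (by decide)) (nle (by decide)) le_rfl (by decide)
      have gm := gh_mono (x := ((1870 : ℕ) : ℝ) / 10000) (n0 (by decide)) ha h5
      unfold lin at h
      push_cast at h gm g0 g1
      linarith only [neg_abs_le (gh x - gh xs), h, gm, g0, g1]
    rcases le_total x (((1870 : ℕ) : ℝ) / 10000) with c2 | c2
    · have h := piP crr_c_0_pl2 hN hA hcl hcp c1 c2
      have g0 := gL (be := 11000) (p := 1870) (G := 62348) (by decide +kernel) x0 c2 le_rfl (by decide)
      have gm := gh_mono (x := ((1870 : ℕ) : ℝ) / 10000) (n0 (by decide)) ha h5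
      unfold lin at h
      push_cast at h gm g0
      linarith only [neg_abs_le (gh x - gh xs), h, gm, g0]
    rcases le_total x (((2060 : ℕ) : ℝ) / 10000) with ce | ce
    · have h := piP crr_c_0_pm hN hA hcl hcp c2 ce
      unfold lin at h
      push_cast at h
      linarith only [abs_nonneg (gh x - gh xs), h]
    have gm := gh_mono (y := ((2060 : ℕ) : ℝ) / 10000) hN.xs0 he (nhalf (by decide))
    have h := piP crr_c_0_pr0 hN hA hcl hcp ce hx1
    have g0 := gL (be := 11000) (p := 2700) (G := 46069) (x := ((2060 : ℕ) : ℝ) / 10000) (by decide +kernel)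
      (n0 (by decide)) ce hx1 (by decide)
    unfold lin at h
    push_cast at h gm g0
    linarith only [le_abs_self (gh x - gh xs), h, gm, g0]
  · have hx0 : ((1000 : ℕ) : ℝ) / 10000 ≤ x := le_trans (by norm_num) hA.x0
    have hx1 : x ≤ ((2700 : ℕ) : ℝ) / 10000 := le_trans hA.x1 (by norm_num)
    have gm := gh_mono ((n0 (by decide)).trans_le hx0) hx.le h5
    have ga := gU ua (by decide) le_rfl ha h5
    have g3 := gS4 kc (by decide) (by decide) le_rfl ha he hT
    push_cast at ga g3
    rcases le_total x (((1300 : ℕ) : ℝ) / 10000) with c0 | c0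
    · have h := piD1 crr_c_0_db0 hN hA hcl hcp (by decide) hx0 c0 ha
      have g0 := gU (be := 11000) (p := 1000) (G := 111831) (by decide +kernel) (by decide) hx0 c0
        (nhalf (by decide))
      have k1 := gU (be := 11000) (p := 1300) (G := 87015) (y := ((1700 : ℕ) : ℝ) / 10000) (by decide +kernel)
        (by decide) le_rfl (nle (by decide)) (nhalf (by decide))
      have k2 := gU (be := 11000) (p := 1700) (G := 67888) (y := ((1870 : ℕ) : ℝ) / 10000) (by decide +kernel)
        (by decide) le_rfl (nle (by decide)) (nhalf (by decide))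
      push_cast at h g0 k1 k2
      unfold lin at h
      push_cast at h
      exact dn_fin5 h gm (by linarith only [he, ga, g0, k1, k2]) (by linarith only [g3, g0, k1, k2])
    rcases le_total x (((1700 : ℕ) : ℝ) / 10000) with c1 | c1
    · have h := piD1 crr_c_0_db1 hN hA hcl hcp (by decide) c0 c1 ha
      have g0 := gU (be := 11000) (p := 1300) (G := 87015) (by decide +kernel) (by decide) c0 c1
        (nhalf (by decide))
      have k1 := gU (be := 11000) (p := 1700) (G := 67888) (y := ((1870 : ℕ) : ℝ) / 10000) (by decide +kernel)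
        (by decide) le_rfl (nle (by decide)) (nhalf (by decide))
      push_cast at h g0 k1
      unfold lin at h
      push_cast at h
      exact dn_fin5 h gm (by linarith only [he, ga, g0, k1]) (by linarith only [g3, g0, k1])
    rcases le_total x (((1870 : ℕ) : ℝ) / 10000) with c2 | c2
    · have h := piD1 crr_c_0_db2 hN hA hcl hcp (by decide) c1 c2 ha
      have g0 := gU (be := 11000) (p := 1700) (G := 67888) (by decide +kernel) (by decide) c1 c2
        (nhalf (by decide))
      push_cast at h g0
      unfold lin at h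
      push_cast at h
      exact dn_fin5 h gm (by linarith only [he, ga, g0]) (by linarith only [g3, g0])
    have h := piD0 crr_c_0_da hN hA hcl hcp (by decide) c2 (hx.le.trans he) hx.le
    have g1 := gU ua (by decide) c2 hx.le h5
    have g4 := gS4 kc (by decide) (by decide) c2 hx.le he hT
    unfold lin at h
    push_cast at h g1 g4
    exact dn_fin5 h gm (by linarith only [he, g1]) (by linarith only [g4])
  · have hx0 : ((1000 : ℕ) : ℝ) / 10000 ≤ x := le_trans (by norm_num) hA.x0
    have hx1 : x ≤ ((2700 : ℕ) : ℝ) / 10000 := le_trans hA.x1 (by norm_num)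
    have gm := gh_mono hN.xs0 hx.le (hx1.trans (nhalf (by decide)))
    rcases le_total x (((2060 : ℕ) : ℝ) / 10000) with ce | ce
    · have h := piU0 crr_c_0_ua hN hA hcl hcp (ha.trans hx.le) ce
      have g1 := gU ua (by decide) ha hx.le (hx1.trans (nhalf (by decide)))
      have g3 := gS4 kc (by decide) (by decide) ha hx.le ce hT
      unfold lin at h
      push_cast at h g1 g3
      exact up_fin5 h gm (by linarith only [ha, g1]) (by linarith only [g3])
    have ga := gU (y := ((2060 : ℕ) : ℝ) / 10000) ua (by decide) ha he (nhalf (by decide))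
    have g3 := gS4 kc (by decide) (by decide) ha he le_rfl hT
    push_cast at ga g3
    have h := piU1 crr_c_0_ub0 hN hA hcl hcp ce hx1
    have g0 := gU (be := 11000) (p := 2060) (G := 57317) (by decide +kernel) (by decide) le_rfl ce
      (hx1.trans (nhalf (by decide)))
    unfold lin at h
    push_cast at h g0
    exact up_fin5 h gm (by linarith only [ha, ga, g0]) (by linarith only [g3, g0])

theorem srr_c_1 {xs s T ρ : ℝ} (hW : RWp.In ⟨1870 / 10000, 2370 / 10000, -(200 / 10000), 385 / 10000, 2130 / 10000, 2170 / 10000, 490 / 10000, 1045 / 10000, 4380 / 10000, 3560 / 10000, 370 / 10000, 980 / 10000, 22 / 10, 59 / 100⟩ xs s T ρ)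
    (ha : ((2060 : ℕ) : ℝ) / 10000 ≤ xs) (he : xs ≤ ((2250 : ℕ) : ℝ) / 10000) :
    RampOK (65 / 100) (8 / 100) (11 / 10) 4 xs (1 / 2 - s) T ρ (10 / 100) (27 / 100) := by
  have hN : Nm 4380 3560 4932 10 22 120 2130 370 980 1380 1965 630 1045 xs s T ρ := by
    obtain ⟨-, -, w1, w2, w3, w4, w5, w6, w7, w8, w9, w10, w11, w12⟩ := hW
    dsimp only at w1 w2 w3 w4 w6 w7 w8 w9 w10 w11 w12
    push_cast at ha he
    exact ⟨by linarith only [ha, w5, w7], by linarith only [he, w5, w7], by push_cast; linarith only [w3], by norm_num, by push_cast; linarith only [w8],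
      by norm_num, by push_cast; linarith only [w9], by norm_num, by push_cast; linarith only [he, w4, w5, w7, w11], by norm_num,
      by push_cast; linarith only [he, w3], by push_cast; linarith only [ha, w4, w5, w7], by norm_num, by push_cast; linarith only [w1],
      by push_cast; linarith only [w2], by push_cast; linarith only [ha, w3, w9], by push_cast; linarith only [w7], w5,
      fun _ => by push_cast; linarith only [w10], by push_cast; linarith only [w11]⟩
  have hT : |T| ≤ ((385 : ℕ) : ℝ) / 10000 := by
    have w1 := hW.t0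
    have w2 := hW.t1
    dsimp only at w1 w2
    rw [abs_le]
    push_cast
    constructor <;> linarith only [w1, w2]
  have kc : kC4 11000 2060 2250 385 0 = true := by decide +kernel
  have ua : kU 11000 2060 57317 = true := by decide +kernel
  have hcl : (0 : ℝ) < 10 / 100 := by norm_num
  have hcp : (27 / 100 : ℝ) < 1 / 2 := by norm_num
  have h5 := hN.xs1.le
  refine ⟨fun x y hA => ?_, fun x y hA hx => ?_, fun x y hA hx => ?_⟩
  · have hx0 : ((1000 : ℕ) : ℝ) / 10000 ≤ x := le_trans (by norm_num) hA.x0
    have hx1 : x ≤ ((2700 : ℕ) : ℝ) / 10000 := le_trans hA.x1 (by norm_num)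
    have x0 : 0 < x := (n0 (by decide)).trans_le hx0
    rcases le_total x (((1500 : ℕ) : ℝ) / 10000) with c0 | c0
    · have h := piP crr_c_1_pl0 hN hA hcl hcp hx0 c0
      have g0 := gL (be := 11000) (p := 1500) (G := 76119) (by decide +kernel) x0 c0 le_rfl (by decide)
      have g1 := gL (be := 11000) (p := 2060) (G := 57316) (x := ((1500 : ℕ) : ℝ) / 10000) (by decide +kernel)
        (n0 (by decide)) (nle (by decide)) le_rfl (by decide)
      have gm := gh_mono (x := ((2060 : ℕ) : ℝ) / 10000) (n0 (by decide)) ha h5
      unfold lin at h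
      push_cast at h gm g0 g1
      linarith only [neg_abs_le (gh x - gh xs), h, gm, g0, g1]
    rcases le_total x (((2060 : ℕ) : ℝ) / 10000) with c1 | c1
    · have h := piP crr_c_1_pl1 hN hA hcl hcp c0 c1
      have g0 := gL (be := 11000) (p := 2060) (G := 57316) (by decide +kernel) x0 c1 le_rfl (by decide)
      have gm := gh_mono (x := ((2060 : ℕ) : ℝ) / 10000) (n0 (by decide)) ha h5
      unfold lin at h
      push_cast at h gm g0
      linarith only [neg_abs_le (gh x - gh xs), h, gm, g0]
    rcases le_total x (((2250 : ℕ) : ℝ) / 10000) with ce | ce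
    · have h := piP crr_c_1_pm hN hA hcl hcp c1 ce
      unfold lin at h
      push_cast at h
      linarith only [abs_nonneg (gh x - gh xs), h]
    have gm := gh_mono (y := ((2250 : ℕ) : ℝ) / 10000) hN.xs0 he (nhalf (by decide))
    have h := piP crr_c_1_pr0 hN hA hcl hcp ce hx1
    have g0 := gL (be := 11000) (p := 2700) (G := 46069) (x := ((2250 : ℕ) : ℝ) / 10000) (by decide +kernel)
      (n0 (by decide)) ce hx1 (by decide)
    unfold lin at h
    push_cast at h gm g0
    linarith only [le_abs_self (gh x - gh xs), h, gm, g0]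
  · have hx0 : ((1000 : ℕ) : ℝ) / 10000 ≤ x := le_trans (by norm_num) hA.x0
    have hx1 : x ≤ ((2700 : ℕ) : ℝ) / 10000 := le_trans hA.x1 (by norm_num)
    have gm := gh_mono ((n0 (by decide)).trans_le hx0) hx.le h5
    have ga := gU ua (by decide) le_rfl ha h5
    have g3 := gS4 kc (by decide) (by decide) le_rfl ha he hT
    push_cast at ga g3
    rcases le_total x (((1300 : ℕ) : ℝ) / 10000) with c0 | c0
    · have h := piD1 crr_c_1_db0 hN hA hcl hcp (by decide) hx0 c0 ha
      have g0 := gU (be := 11000) (p := 1000) (G := 111831) (by decide +kernel) (by decide) hx0 c0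
        (nhalf (by decide))
      have k1 := gU (be := 11000) (p := 1300) (G := 87015) (y := ((1700 : ℕ) : ℝ) / 10000) (by decide +kernel)
        (by decide) le_rfl (nle (by decide)) (nhalf (by decide))
      have k2 := gU (be := 11000) (p := 1700) (G := 67888) (y := ((2060 : ℕ) : ℝ) / 10000) (by decide +kernel)
        (by decide) le_rfl (nle (by decide)) (nhalf (by decide))
      push_cast at h g0 k1 k2
      unfold lin at h
      push_cast at h
      exact dn_fin5 h gm (by linarith only [he, ga, g0, k1, k2]) (by linarith only [g3, g0, k1, k2])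
    rcases le_total x (((1700 : ℕ) : ℝ) / 10000) with c1 | c1
    · have h := piD1 crr_c_1_db1 hN hA hcl hcp (by decide) c0 c1 ha
      have g0 := gU (be := 11000) (p := 1300) (G := 87015) (by decide +kernel) (by decide) c0 c1
        (nhalf (by decide))
      have k1 := gU (be := 11000) (p := 1700) (G := 67888) (y := ((2060 : ℕ) : ℝ) / 10000) (by decide +kernel)
        (by decide) le_rfl (nle (by decide)) (nhalf (by decide))
      push_cast at h g0 k1
      unfold lin at h
      push_cast at h
      exact dn_fin5 h gm (by linarith only [he, ga, g0, k1]) (by linarith only [g3, g0, k1])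
    rcases le_total x (((2060 : ℕ) : ℝ) / 10000) with c2 | c2
    · have h := piD1 crr_c_1_db2 hN hA hcl hcp (by decide) c1 c2 ha
      have g0 := gU (be := 11000) (p := 1700) (G := 67888) (by decide +kernel) (by decide) c1 c2
        (nhalf (by decide))
      push_cast at h g0
      unfold lin at h
      push_cast at h
      exact dn_fin5 h gm (by linarith only [he, ga, g0]) (by linarith only [g3, g0])
    have h := piD0 crr_c_1_da hN hA hcl hcp (by decide) c2 (hx.le.trans he) hx.le
    have g1 := gU ua (by decide) c2 hx.le h5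
    have g4 := gS4 kc (by decide) (by decide) c2 hx.le he hT
    unfold lin at h
    push_cast at h g1 g4
    exact dn_fin5 h gm (by linarith only [he, g1]) (by linarith only [g4])
  · have hx0 : ((1000 : ℕ) : ℝ) / 10000 ≤ x := le_trans (by norm_num) hA.x0
    have hx1 : x ≤ ((2700 : ℕ) : ℝ) / 10000 := le_trans hA.x1 (by norm_num)
    have gm := gh_mono hN.xs0 hx.le (hx1.trans (nhalf (by decide)))
    rcases le_total x (((2250 : ℕ) : ℝ) / 10000) with ce | ce
    · have h := piU0 crr_c_1_ua hN hA hcl hcp (ha.trans hx.le) ce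
      have g1 := gU ua (by decide) ha hx.le (hx1.trans (nhalf (by decide)))
      have g3 := gS4 kc (by decide) (by decide) ha hx.le ce hT
      unfold lin at h
      push_cast at h g1 g3
      exact up_fin5 h gm (by linarith only [ha, g1]) (by linarith only [g3])
    have ga := gU (y := ((2250 : ℕ) : ℝ) / 10000) ua (by decide) ha he (nhalf (by decide))
    have g3 := gS4 kc (by decide) (by decide) ha he le_rfl hT
    push_cast at ga g3
    have h := piU1 crr_c_1_ub0 hN hA hcl hcp ce hx1
    have g0 := gU (be := 11000) (p := 2250) (G := 53211) (by decide +kernel) (by decide) le_rfl ce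
      (hx1.trans (nhalf (by decide)))
    unfold lin at h
    push_cast at h g0
    exact up_fin5 h gm (by linarith only [ha, ga, g0]) (by linarith only [g3, g0])

end RQ4

namespace RC

theorem i4_rr_c : RowI
    ⟨1870 / 10000, 2370 / 10000, -(200 / 10000), 385 / 10000, 2130 / 10000, 2170 / 10000, 490 / 10000, 1045 / 10000, 4380 / 10000, 3560 / 10000, 370 / 10000, 980 / 10000, 22 / 10, 59 / 100⟩
    4 (65 / 100) (8 / 100) (11 / 10) (10 / 100) (27 / 100) := by
  intro xs s T ρ hW
  have h0 : ((1870 : ℕ) : ℝ) / 10000 ≤ xs := le_trans (by norm_num) hW.x0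
  have h1 : xs ≤ ((2250 : ℕ) : ℝ) / 10000 := by
    obtain ⟨-, w0, -, -, w3, -, -, -, w7, w8, w9, -, -, -⟩ := hW
    dsimp only at w0 w3 w7 w8 w9
    push_cast
    linarith only [w3, w8]
  rcases le_total xs (((2060 : ℕ) : ℝ) / 10000) with k0 | k0
  · exact RQ4.srr_c_0 hW h0 k0
  exact RQ4.srr_c_1 hW k0 h1

end RC

end Pool.Agent.Work.MP_b30479_gtS.G2

end

section

/-!
# Rings with the ring variable on the ramp, `b = 4`, inside: rows rs_a
-/

set_option deprecated.oldSectionVars true

namespace Pool.Agent.Work.MP_b30479_gtS.G2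

open Real NumIs

namespace RQ4

open RC RQ

theorem srs_a_0 {xs s T ρ : ℝ} (hW : RWp.In ⟨1730 / 10000, 2370 / 10000, 120 / 10000, 560 / 10000, 1680 / 10000, 2000 / 10000, 530 / 10000, 1045 / 10000, 4380 / 10000, 3560 / 10000, 140 / 10000, 730 / 10000, 22 / 10, 59 / 100⟩ xs s T ρ)
    (ha : ((1730 : ℕ) : ℝ) / 10000 ≤ xs) (he : xs ≤ ((1890 : ℕ) : ℝ) / 10000) :
    RampOK (65 / 100) (14 / 100) 1 4 xs (1 / 2 - s) T ρ (10 / 100) (27 / 100) := by
  have hN : Nm 3890 3560 4572 10 22 270 1680 140 730 1700 2140 530 1045 xs s T ρ := by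
    obtain ⟨-, -, w1, w2, w3, w4, w5, w6, w7, w8, w9, w10, w11, w12⟩ := hW
    dsimp only at w1 w2 w3 w4 w6 w7 w8 w9 w10 w11 w12
    push_cast at ha he
    exact ⟨by linarith only [ha, w5, w7], by linarith only [he, w5, w7], by push_cast; linarith only [w3], by norm_num, by push_cast; linarith only [he, w4],
      by norm_num, by push_cast; linarith only [he, w4, w5, w6], by norm_num, by push_cast; linarith only [he, w4, w5, w7, w11], by norm_num,
      by push_cast; linarith only [he, w3, w5, w7], by push_cast; linarith only [ha, w4], by norm_num, by push_cast; linarith only [w1],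
      by push_cast; linarith only [w2], by push_cast; linarith only [w6], by push_cast; linarith only [w7], w5,
      fun _ => by push_cast; linarith only [w10], by push_cast; linarith only [w11]⟩
  have hT : |T| ≤ ((560 : ℕ) : ℝ) / 10000 := by
    have w1 := hW.t0
    have w2 := hW.t1
    dsimp only at w1 w2
    rw [abs_le]
    push_cast
    constructor <;> linarith only [w1, w2]
  have kc : kC4 10000 1730 1890 560 0 = true := by decide +kernel
  have ua : kU 10000 1730 60751 = true := by decide +kernel
  have hcl : (0 : ℝ) < 10 / 100 := by norm_num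
  have hcp : (27 / 100 : ℝ) < 1 / 2 := by norm_num
  have h5 := hN.xs1.le
  refine ⟨fun x y hA => ?_, fun x y hA hx => ?_, fun x y hA hx => ?_⟩
  · have hx0 : ((1000 : ℕ) : ℝ) / 10000 ≤ x := le_trans (by norm_num) hA.x0
    have hx1 : x ≤ ((2700 : ℕ) : ℝ) / 10000 := le_trans hA.x1 (by norm_num)
    have x0 : 0 < x := (n0 (by decide)).trans_le hx0
    rcases le_total x (((1150 : ℕ) : ℝ) / 10000) with c0 | c0
    · have h := piP crs_a_0_pl0 hN hA hcl hcp hx0 c0
      have g0 := gL (be := 10000) (p := 1150) (G := 88877) (by decide +kernel) x0 c0 le_rfl (by decide)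
      have g1 := gL (be := 10000) (p := 1300) (G := 79103) (x := ((1150 : ℕ) : ℝ) / 10000) (by decide +kernel)
        (n0 (by decide)) (nle (by decide)) le_rfl (by decide)
      have g2 := gL (be := 10000) (p := 1500) (G := 69199) (x := ((1300 : ℕ) : ℝ) / 10000) (by decide +kernel)
        (n0 (by decide)) (nle (by decide)) le_rfl (by decide)
      have g3 := gL (be := 10000) (p := 1730) (G := 60750) (x := ((1500 : ℕ) : ℝ) / 10000) (by decide +kernel)
        (n0 (by decide)) (nle (by decide)) le_rfl (by decide)
      have gm := gh_mono (x := ((1730 : ℕ) : ℝ) / 10000) (n0 (by decide)) ha h5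
      unfold lin at h
      push_cast at h gm g0 g1 g2 g3
      linarith only [neg_abs_le (gh x - gh xs), h, gm, g0, g1, g2, g3]
    rcases le_total x (((1300 : ℕ) : ℝ) / 10000) with c1 | c1
    · have h := piP crs_a_0_pl1 hN hA hcl hcp c0 c1
      have g0 := gL (be := 10000) (p := 1300) (G := 79103) (by decide +kernel) x0 c1 le_rfl (by decide)
      have g1 := gL (be := 10000) (p := 1500) (G := 69199) (x := ((1300 : ℕ) : ℝ) / 10000) (by decide +kernel)
        (n0 (by decide)) (nle (by decide)) le_rfl (by decide)
      have g2 := gL (be := 10000) (p := 1730) (G := 60750) (x := ((1500 : ℕ) : ℝ) / 10000) (by decide +kernel)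
        (n0 (by decide)) (nle (by decide)) le_rfl (by decide)
      have gm := gh_mono (x := ((1730 : ℕ) : ℝ) / 10000) (n0 (by decide)) ha h5
      unfold lin at h
      push_cast at h gm g0 g1 g2
      linarith only [neg_abs_le (gh x - gh xs), h, gm, g0, g1, g2]
    rcases le_total x (((1500 : ℕ) : ℝ) / 10000) with c2 | c2
    · have h := piP crs_a_0_pl2 hN hA hcl hcp c1 c2
      have g0 := gL (be := 10000) (p := 1500) (G := 69199) (by decide +kernel) x0 c2 le_rfl (by decide)
      have g1 := gL (be := 10000) (p := 1730) (G := 60750) (x := ((1500 : ℕ) : ℝ) / 10000) (by decide +kernel)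
        (n0 (by decide)) (nle (by decide)) le_rfl (by decide)
      have gm := gh_mono (x := ((1730 : ℕ) : ℝ) / 10000) (n0 (by decide)) ha h5
      unfold lin at h
      push_cast at h gm g0 g1
      linarith only [neg_abs_le (gh x - gh xs), h, gm, g0, g1]
    rcases le_total x (((1730 : ℕ) : ℝ) / 10000) with c3 | c3
    · have h := piP crs_a_0_pl3 hN hA hcl hcp c2 c3
      have g0 := gL (be := 10000) (p := 1730) (G := 60750) (by decide +kernel) x0 c3 le_rfl (by decide)
      have gm := gh_mono (x := ((1730 : ℕ) : ℝ) / 10000) (n0 (by decide)) ha h5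
      unfold lin at h
      push_cast at h gm g0
      linarith only [neg_abs_le (gh x - gh xs), h, gm, g0]
    rcases le_total x (((1890 : ℕ) : ℝ) / 10000) with ce | ce
    · have h := piP crs_a_0_pm hN hA hcl hcp c3 ce
      unfold lin at h
      push_cast at h
      linarith only [abs_nonneg (gh x - gh xs), h]
    have gm := gh_mono (y := ((1890 : ℕ) : ℝ) / 10000) hN.xs0 he (nhalf (by decide))
    have h := piP crs_a_0_pr0 hN hA hcl hcp ce hx1
    have g0 := gL (be := 10000) (p := 2700) (G := 41881) (x := ((1890 : ℕ) : ℝ) / 10000) (by decide +kernel)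
      (n0 (by decide)) ce hx1 (by decide)
    unfold lin at h
    push_cast at h gm g0
    linarith only [le_abs_self (gh x - gh xs), h, gm, g0]
  · have hx0 : ((1000 : ℕ) : ℝ) / 10000 ≤ x := le_trans (by norm_num) hA.x0
    have hx1 : x ≤ ((2700 : ℕ) : ℝ) / 10000 := le_trans hA.x1 (by norm_num)
    have gm := gh_mono ((n0 (by decide)).trans_le hx0) hx.le h5
    have ga := gU ua (by decide) le_rfl ha h5
    have g3 := gS4 kc (by decide) (by decide) le_rfl ha he hT
    push_cast at ga g3
    rcases le_total x (((1150 : ℕ) : ℝ) / 10000) with c0 | c0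
    · have h := piD1 crs_a_0_db0 hN hA hcl hcp (by decide) hx0 c0 ha
      have g0 := gU (be := 10000) (p := 1000) (G := 101665) (by decide +kernel) (by decide) hx0 c0
        (nhalf (by decide))
      have k1 := gU (be := 10000) (p := 1150) (G := 88878) (y := ((1300 : ℕ) : ℝ) / 10000) (by decide +kernel)
        (by decide) le_rfl (nle (by decide)) (nhalf (by decide))
      have k2 := gU (be := 10000) (p := 1300) (G := 79104) (y := ((1500 : ℕ) : ℝ) / 10000) (by decide +kernel)
        (by decide) le_rfl (nle (by decide)) (nhalf (by decide))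
      have k3 := gU (be := 10000) (p := 1500) (G := 69200) (y := ((1730 : ℕ) : ℝ) / 10000) (by decide +kernel)
        (by decide) le_rfl (nle (by decide)) (nhalf (by decide))
      push_cast at h g0 k1 k2 k3
      unfold lin at h
      push_cast at h
      exact dn_fin5 h gm (by linarith only [he, ga, g0, k1, k2, k3]) (by linarith only [g3, g0, k1, k2, k3])
    rcases le_total x (((1300 : ℕ) : ℝ) / 10000) with c1 | c1
    · have h := piD1 crs_a_0_db1 hN hA hcl hcp (by decide) c0 c1 ha
      have g0 := gU (be := 10000) (p := 1150) (G := 88878) (by decide +kernel) (by decide) c0 c1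
        (nhalf (by decide))
      have k1 := gU (be := 10000) (p := 1300) (G := 79104) (y := ((1500 : ℕ) : ℝ) / 10000) (by decide +kernel)
        (by decide) le_rfl (nle (by decide)) (nhalf (by decide))
      have k2 := gU (be := 10000) (p := 1500) (G := 69200) (y := ((1730 : ℕ) : ℝ) / 10000) (by decide +kernel)
        (by decide) le_rfl (nle (by decide)) (nhalf (by decide))
      push_cast at h g0 k1 k2
      unfold lin at h
      push_cast at h
      exact dn_fin5 h gm (by linarith only [he, ga, g0, k1, k2]) (by linarith only [g3, g0, k1, k2])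
    rcases le_total x (((1500 : ℕ) : ℝ) / 10000) with c2 | c2
    · have h := piD1 crs_a_0_db2 hN hA hcl hcp (by decide) c1 c2 ha
      have g0 := gU (be := 10000) (p := 1300) (G := 79104) (by decide +kernel) (by decide) c1 c2
        (nhalf (by decide))
      have k1 := gU (be := 10000) (p := 1500) (G := 69200) (y := ((1730 : ℕ) : ℝ) / 10000) (by decide +kernel)
        (by decide) le_rfl (nle (by decide)) (nhalf (by decide))
      push_cast at h g0 k1
      unfold lin at h
      push_cast at h
      exact dn_fin5 h gm (by linarith only [he, ga, g0, k1]) (by linarith only [g3, g0, k1])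
    rcases le_total x (((1730 : ℕ) : ℝ) / 10000) with c3 | c3
    · have h := piD1 crs_a_0_db3 hN hA hcl hcp (by decide) c2 c3 ha
      have g0 := gU (be := 10000) (p := 1500) (G := 69200) (by decide +kernel) (by decide) c2 c3
        (nhalf (by decide))
      push_cast at h g0
      unfold lin at h
      push_cast at h
      exact dn_fin5 h gm (by linarith only [he, ga, g0]) (by linarith only [g3, g0])
    have h := piD0 crs_a_0_da hN hA hcl hcp (by decide) c3 (hx.le.trans he) hx.le
    have g1 := gU ua (by decide) c3 hx.le h5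
    have g4 := gS4 kc (by decide) (by decide) c3 hx.le he hT
    unfold lin at h
    push_cast at h g1 g4
    exact dn_fin5 h gm (by linarith only [he, g1]) (by linarith only [g4])
  · have hx0 : ((1000 : ℕ) : ℝ) / 10000 ≤ x := le_trans (by norm_num) hA.x0
    have hx1 : x ≤ ((2700 : ℕ) : ℝ) / 10000 := le_trans hA.x1 (by norm_num)
    have gm := gh_mono hN.xs0 hx.le (hx1.trans (nhalf (by decide)))
    rcases le_total x (((1890 : ℕ) : ℝ) / 10000) with ce | ce
    · have h := piU0 crs_a_0_ua hN hA hcl hcp (ha.trans hx.le) ce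
      have g1 := gU ua (by decide) ha hx.le (hx1.trans (nhalf (by decide)))
      have g3 := gS4 kc (by decide) (by decide) ha hx.le ce hT
      unfold lin at h
      push_cast at h g1 g3
      exact up_fin5 h gm (by linarith only [ha, g1]) (by linarith only [g3])
    have ga := gU (y := ((1890 : ℕ) : ℝ) / 10000) ua (by decide) ha he (nhalf (by decide))
    have g3 := gS4 kc (by decide) (by decide) ha he le_rfl hT
    push_cast at ga g3
    have h := piU1 crs_a_0_ub0 hN hA hcl hcp ce hx1
    have g0 := gU (be := 10000) (p := 1890) (G := 56152) (by decide +kernel) (by decide) le_rfl ce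
      (hx1.trans (nhalf (by decide)))
    unfold lin at h
    push_cast at h g0
    exact up_fin5 h gm (by linarith only [ha, ga, g0]) (by linarith only [g3, g0])

theorem srs_a_1 {xs s T ρ : ℝ} (hW : RWp.In ⟨1730 / 10000, 2370 / 10000, 120 / 10000, 560 / 10000, 1680 / 10000, 2000 / 10000, 530 / 10000, 1045 / 10000, 4380 / 10000, 3560 / 10000, 140 / 10000, 730 / 10000, 22 / 10, 59 / 100⟩ xs s T ρ)
    (ha : ((1890 : ℕ) : ℝ) / 10000 ≤ xs) (he : xs ≤ ((2050 : ℕ) : ℝ) / 10000) :
    RampOK (65 / 100) (14 / 100) 1 4 xs (1 / 2 - s) T ρ (10 / 100) (27 / 100) := by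
  have hN : Nm 4050 3560 4732 10 22 370 1680 140 730 1700 2140 530 1045 xs s T ρ := by
    obtain ⟨-, -, w1, w2, w3, w4, w5, w6, w7, w8, w9, w10, w11, w12⟩ := hW
    dsimp only at w1 w2 w3 w4 w6 w7 w8 w9 w10 w11 w12
    push_cast at ha he
    exact ⟨by linarith only [ha, w5, w7], by linarith only [he, w5, w7], by push_cast; linarith only [w3], by norm_num, by push_cast; linarith only [he, w4],
      by norm_num, by push_cast; linarith only [he, w4, w5, w6], by norm_num, by push_cast; linarith only [he, w4, w5, w7, w11], by norm_num,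
      by push_cast; linarith only [he, w3], by push_cast; linarith only [ha, w4, w5, w7], by norm_num, by push_cast; linarith only [w1],
      by push_cast; linarith only [w2], by push_cast; linarith only [w6], by push_cast; linarith only [w7], w5,
      fun _ => by push_cast; linarith only [w10], by push_cast; linarith only [w11]⟩
  have hT : |T| ≤ ((560 : ℕ) : ℝ) / 10000 := by
    have w1 := hW.t0
    have w2 := hW.t1
    dsimp only at w1 w2
    rw [abs_le]
    push_cast
    constructor <;> linarith only [w1, w2]
  have kc : kC4 10000 1890 2050 560 0 = true := by decide +kernel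
  have ua : kU 10000 1890 56152 = true := by decide +kernel
  have hcl : (0 : ℝ) < 10 / 100 := by norm_num
  have hcp : (27 / 100 : ℝ) < 1 / 2 := by norm_num
  have h5 := hN.xs1.le
  refine ⟨fun x y hA => ?_, fun x y hA hx => ?_, fun x y hA hx => ?_⟩
  · have hx0 : ((1000 : ℕ) : ℝ) / 10000 ≤ x := le_trans (by norm_num) hA.x0
    have hx1 : x ≤ ((2700 : ℕ) : ℝ) / 10000 := le_trans hA.x1 (by norm_num)
    have x0 : 0 < x := (n0 (by decide)).trans_le hx0
    rcases le_total x (((1200 : ℕ) : ℝ) / 10000) with c0 | c0
    · have h := piP crs_a_1_pl0 hN hA hcl hcp hx0 c0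
      have g0 := gL (be := 10000) (p := 1200) (G := 85340) (by decide +kernel) x0 c0 le_rfl (by decide)
      have g1 := gL (be := 10000) (p := 1400) (G := 73784) (x := ((1200 : ℕ) : ℝ) / 10000) (by decide +kernel)
        (n0 (by decide)) (nle (by decide)) le_rfl (by decide)
      have g2 := gL (be := 10000) (p := 1700) (G := 61715) (x := ((1400 : ℕ) : ℝ) / 10000) (by decide +kernel)
        (n0 (by decide)) (nle (by decide)) le_rfl (by decide)
      have g3 := gL (be := 10000) (p := 1890) (G := 56151) (x := ((1700 : ℕ) : ℝ) / 10000) (by decide +kernel)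
        (n0 (by decide)) (nle (by decide)) le_rfl (by decide)
      have gm := gh_mono (x := ((1890 : ℕ) : ℝ) / 10000) (n0 (by decide)) ha h5
      unfold lin at h
      push_cast at h gm g0 g1 g2 g3
      linarith only [neg_abs_le (gh x - gh xs), h, gm, g0, g1, g2, g3]
    rcases le_total x (((1400 : ℕ) : ℝ) / 10000) with c1 | c1
    · have h := piP crs_a_1_pl1 hN hA hcl hcp c0 c1
      have g0 := gL (be := 10000) (p := 1400) (G := 73784) (by decide +kernel) x0 c1 le_rfl (by decide)
      have g1 := gL (be := 10000) (p := 1700) (G := 61715) (x := ((1400 : ℕ) : ℝ) / 10000) (by decide +kernel)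
        (n0 (by decide)) (nle (by decide)) le_rfl (by decide)
      have g2 := gL (be := 10000) (p := 1890) (G := 56151) (x := ((1700 : ℕ) : ℝ) / 10000) (by decide +kernel)
        (n0 (by decide)) (nle (by decide)) le_rfl (by decide)
      have gm := gh_mono (x := ((1890 : ℕ) : ℝ) / 10000) (n0 (by decide)) ha h5
      unfold lin at h
      push_cast at h gm g0 g1 g2
      linarith only [neg_abs_le (gh x - gh xs), h, gm, g0, g1, g2]
    rcases le_total x (((1700 : ℕ) : ℝ) / 10000) with c2 | c2
    · have h := piP crs_a_1_pl2 hN hA hcl hcp c1 c2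
      have g0 := gL (be := 10000) (p := 1700) (G := 61715) (by decide +kernel) x0 c2 le_rfl (by decide)
      have g1 := gL (be := 10000) (p := 1890) (G := 56151) (x := ((1700 : ℕ) : ℝ) / 10000) (by decide +kernel)
        (n0 (by decide)) (nle (by decide)) le_rfl (by decide)
      have gm := gh_mono (x := ((1890 : ℕ) : ℝ) / 10000) (n0 (by decide)) ha h5
      unfold lin at h
      push_cast at h gm g0 g1
      linarith only [neg_abs_le (gh x - gh xs), h, gm, g0, g1]
    rcases le_total x (((1890 : ℕ) : ℝ) / 10000) with c3 | c3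
    · have h := piP crs_a_1_pl3 hN hA hcl hcp c2 c3
      have g0 := gL (be := 10000) (p := 1890) (G := 56151) (by decide +kernel) x0 c3 le_rfl (by decide)
      have gm := gh_mono (x := ((1890 : ℕ) : ℝ) / 10000) (n0 (by decide)) ha h5
      unfold lin at h
      push_cast at h gm g0
      linarith only [neg_abs_le (gh x - gh xs), h, gm, g0]
    rcases le_total x (((2050 : ℕ) : ℝ) / 10000) with ce | ce
    · have h := piP crs_a_1_pm hN hA hcl hcp c3 ce
      unfold lin at h
      push_cast at h
      linarith only [abs_nonneg (gh x - gh xs), h]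
    have gm := gh_mono (y := ((2050 : ℕ) : ℝ) / 10000) hN.xs0 he (nhalf (by decide))
    have h := piP crs_a_1_pr0 hN hA hcl hcp ce hx1
    have g0 := gL (be := 10000) (p := 2700) (G := 41881) (x := ((2050 : ℕ) : ℝ) / 10000) (by decide +kernel)
      (n0 (by decide)) ce hx1 (by decide)
    unfold lin at h
    push_cast at h gm g0
    linarith only [le_abs_self (gh x - gh xs), h, gm, g0]
  · have hx0 : ((1000 : ℕ) : ℝ) / 10000 ≤ x := le_trans (by norm_num) hA.x0
    have hx1 : x ≤ ((2700 : ℕ) : ℝ) / 10000 := le_trans hA.x1 (by norm_num)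
    have gm := gh_mono ((n0 (by decide)).trans_le hx0) hx.le h5
    have ga := gU ua (by decide) le_rfl ha h5
    have g3 := gS4 kc (by decide) (by decide) le_rfl ha he hT
    push_cast at ga g3
    rcases le_total x (((1200 : ℕ) : ℝ) / 10000) with c0 | c0
    · have h := piD1 crs_a_1_db0 hN hA hcl hcp (by decide) hx0 c0 ha
      have g0 := gU (be := 10000) (p := 1000) (G := 101665) (by decide +kernel) (by decide) hx0 c0
        (nhalf (by decide))
      have k1 := gU (be := 10000) (p := 1200) (G := 85341) (y := ((1400 : ℕ) : ℝ) / 10000) (by decide +kernel)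
        (by decide) le_rfl (nle (by decide)) (nhalf (by decide))
      have k2 := gU (be := 10000) (p := 1400) (G := 73785) (y := ((1700 : ℕ) : ℝ) / 10000) (by decide +kernel)
        (by decide) le_rfl (nle (by decide)) (nhalf (by decide))
      have k3 := gU (be := 10000) (p := 1700) (G := 61716) (y := ((1890 : ℕ) : ℝ) / 10000) (by decide +kernel)
        (by decide) le_rfl (nle (by decide)) (nhalf (by decide))
      push_cast at h g0 k1 k2 k3
      unfold lin at h
      push_cast at h
      exact dn_fin5 h gm (by linarith only [he, ga, g0, k1, k2, k3]) (by linarith only [g3, g0, k1, k2, k3])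
    rcases le_total x (((1400 : ℕ) : ℝ) / 10000) with c1 | c1
    · have h := piD1 crs_a_1_db1 hN hA hcl hcp (by decide) c0 c1 ha
      have g0 := gU (be := 10000) (p := 1200) (G := 85341) (by decide +kernel) (by decide) c0 c1
        (nhalf (by decide))
      have k1 := gU (be := 10000) (p := 1400) (G := 73785) (y := ((1700 : ℕ) : ℝ) / 10000) (by decide +kernel)
        (by decide) le_rfl (nle (by decide)) (nhalf (by decide))
      have k2 := gU (be := 10000) (p := 1700) (G := 61716) (y := ((1890 : ℕ) : ℝ) / 10000) (by decide +kernel)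
        (by decide) le_rfl (nle (by decide)) (nhalf (by decide))
      push_cast at h g0 k1 k2
      unfold lin at h
      push_cast at h
      exact dn_fin5 h gm (by linarith only [he, ga, g0, k1, k2]) (by linarith only [g3, g0, k1, k2])
    rcases le_total x (((1700 : ℕ) : ℝ) / 10000) with c2 | c2
    · have h := piD1 crs_a_1_db2 hN hA hcl hcp (by decide) c1 c2 ha
      have g0 := gU (be := 10000) (p := 1400) (G := 73785) (by decide +kernel) (by decide) c1 c2
        (nhalf (by decide))
      have k1 := gU (be := 10000) (p := 1700) (G := 61716) (y := ((1890 : ℕ) : ℝ) / 10000) (by decide +kernel)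
        (by decide) le_rfl (nle (by decide)) (nhalf (by decide))
      push_cast at h g0 k1
      unfold lin at h
      push_cast at h
      exact dn_fin5 h gm (by linarith only [he, ga, g0, k1]) (by linarith only [g3, g0, k1])
    rcases le_total x (((1890 : ℕ) : ℝ) / 10000) with c3 | c3
    · have h := piD1 crs_a_1_db3 hN hA hcl hcp (by decide) c2 c3 ha
      have g0 := gU (be := 10000) (p := 1700) (G := 61716) (by decide +kernel) (by decide) c2 c3
        (nhalf (by decide))
      push_cast at h g0
      unfold lin at h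
      push_cast at h
      exact dn_fin5 h gm (by linarith only [he, ga, g0]) (by linarith only [g3, g0])
    have h := piD0 crs_a_1_da hN hA hcl hcp (by decide) c3 (hx.le.trans he) hx.le
    have g1 := gU ua (by decide) c3 hx.le h5
    have g4 := gS4 kc (by decide) (by decide) c3 hx.le he hT
    unfold lin at h
    push_cast at h g1 g4
    exact dn_fin5 h gm (by linarith only [he, g1]) (by linarith only [g4])
  · have hx0 : ((1000 : ℕ) : ℝ) / 10000 ≤ x := le_trans (by norm_num) hA.x0
    have hx1 : x ≤ ((2700 : ℕ) : ℝ) / 10000 := le_trans hA.x1 (by norm_num)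
    have gm := gh_mono hN.xs0 hx.le (hx1.trans (nhalf (by decide)))
    rcases le_total x (((2050 : ℕ) : ℝ) / 10000) with ce | ce
    · have h := piU0 crs_a_1_ua hN hA hcl hcp (ha.trans hx.le) ce
      have g1 := gU ua (by decide) ha hx.le (hx1.trans (nhalf (by decide)))
      have g3 := gS4 kc (by decide) (by decide) ha hx.le ce hT
      unfold lin at h
      push_cast at h g1 g3
      exact up_fin5 h gm (by linarith only [ha, g1]) (by linarith only [g3])
    have ga := gU (y := ((2050 : ℕ) : ℝ) / 10000) ua (by decide) ha he (nhalf (by decide))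
    have g3 := gS4 kc (by decide) (by decide) ha he le_rfl hT
    push_cast at ga g3
    have h := piU1 crs_a_1_ub0 hN hA hcl hcp ce hx1
    have g0 := gU (be := 10000) (p := 2050) (G := 52324) (by decide +kernel) (by decide) le_rfl ce
      (hx1.trans (nhalf (by decide)))
    unfold lin at h
    push_cast at h g0
    exact up_fin5 h gm (by linarith only [ha, ga, g0]) (by linarith only [g3, g0])

theorem srs_a_2 {xs s T ρ : ℝ} (hW : RWp.In ⟨1730 / 10000, 2370 / 10000, 120 / 10000, 560 / 10000, 1680 / 10000, 2000 / 10000, 530 / 10000, 1045 / 10000, 4380 / 10000, 3560 / 10000, 140 / 10000, 730 / 10000, 22 / 10, 59 / 100⟩ xs s T ρ)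
    (ha : ((2050 : ℕ) : ℝ) / 10000 ≤ xs) (he : xs ≤ ((2210 : ℕ) : ℝ) / 10000) :
    RampOK (65 / 100) (14 / 100) 1 4 xs (1 / 2 - s) T ρ (10 / 100) (27 / 100) := by
  have hN : Nm 4210 3560 4892 10 22 530 1680 140 730 1700 2140 530 1045 xs s T ρ := by
    obtain ⟨-, -, w1, w2, w3, w4, w5, w6, w7, w8, w9, w10, w11, w12⟩ := hW
    dsimp only at w1 w2 w3 w4 w6 w7 w8 w9 w10 w11 w12
    push_cast at ha he
    exact ⟨by linarith only [ha, w5, w7], by linarith only [he, w5, w7], by push_cast; linarith only [w3], by norm_num, by push_cast; linarith only [he, w4],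
      by norm_num, by push_cast; linarith only [w9], by norm_num, by push_cast; linarith only [he, w4, w5, w7, w11], by norm_num,
      by push_cast; linarith only [he, w3], by push_cast; linarith only [ha, w4, w5, w7], by norm_num, by push_cast; linarith only [w1],
      by push_cast; linarith only [w2], by push_cast; linarith only [w6], by push_cast; linarith only [w7], w5,
      fun _ => by push_cast; linarith only [w10], by push_cast; linarith only [w11]⟩
  have hT : |T| ≤ ((560 : ℕ) : ℝ) / 10000 := by
    have w1 := hW.t0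
    have w2 := hW.t1
    dsimp only at w1 w2
    rw [abs_le]
    push_cast
    constructor <;> linarith only [w1, w2]
  have kc : kC4 10000 2050 2210 560 0 = true := by decide +kernel
  have ua : kU 10000 2050 52324 = true := by decide +kernel
  have hcl : (0 : ℝ) < 10 / 100 := by norm_num
  have hcp : (27 / 100 : ℝ) < 1 / 2 := by norm_num
  have h5 := hN.xs1.le
  refine ⟨fun x y hA => ?_, fun x y hA hx => ?_, fun x y hA hx => ?_⟩
  · have hx0 : ((1000 : ℕ) : ℝ) / 10000 ≤ x := le_trans (by norm_num) hA.x0
    have hx1 : x ≤ ((2700 : ℕ) : ℝ) / 10000 := le_trans hA.x1 (by norm_num)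
    have x0 : 0 < x := (n0 (by decide)).trans_le hx0
    rcases le_total x (((1100 : ℕ) : ℝ) / 10000) with c0 | c0
    · have h := piP crs_a_2_pl0 hN hA hcl hcp hx0 c0
      have g0 := gL (be := 10000) (p := 1100) (G := 92744) (by decide +kernel) x0 c0 le_rfl (by decide)
      have g1 := gL (be := 10000) (p := 1200) (G := 85340) (x := ((1100 : ℕ) : ℝ) / 10000) (by decide +kernel)
        (n0 (by decide)) (nle (by decide)) le_rfl (by decide)
      have g2 := gL (be := 10000) (p := 1350) (G := 76342) (x := ((1200 : ℕ) : ℝ) / 10000) (by decide +kernel)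
        (n0 (by decide)) (nle (by decide)) le_rfl (by decide)
      have g3 := gL (be := 10000) (p := 1500) (G := 69199) (x := ((1350 : ℕ) : ℝ) / 10000) (by decide +kernel)
        (n0 (by decide)) (nle (by decide)) le_rfl (by decide)
      have g4 := gL (be := 10000) (p := 1700) (G := 61715) (x := ((1500 : ℕ) : ℝ) / 10000) (by decide +kernel)
        (n0 (by decide)) (nle (by decide)) le_rfl (by decide)
      have g5 := gL (be := 10000) (p := 1900) (G := 55891) (x := ((1700 : ℕ) : ℝ) / 10000) (by decide +kernel)
        (n0 (by decide)) (nle (by decide)) le_rfl (by decide)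
      have g6 := gL (be := 10000) (p := 2050) (G := 52323) (x := ((1900 : ℕ) : ℝ) / 10000) (by decide +kernel)
        (n0 (by decide)) (nle (by decide)) le_rfl (by decide)
      have gm := gh_mono (x := ((2050 : ℕ) : ℝ) / 10000) (n0 (by decide)) ha h5
      unfold lin at h
      push_cast at h gm g0 g1 g2 g3 g4 g5 g6
      linarith only [neg_abs_le (gh x - gh xs), h, gm, g0, g1, g2, g3, g4, g5, g6]
    rcases le_total x (((1200 : ℕ) : ℝ) / 10000) with c1 | c1
    · have h := piP crs_a_2_pl1 hN hA hcl hcp c0 c1
      have g0 := gL (be := 10000) (p := 1200) (G := 85340) (by decide +kernel) x0 c1 le_rfl (by decide)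
      have g1 := gL (be := 10000) (p := 1350) (G := 76342) (x := ((1200 : ℕ) : ℝ) / 10000) (by decide +kernel)
        (n0 (by decide)) (nle (by decide)) le_rfl (by decide)
      have g2 := gL (be := 10000) (p := 1500) (G := 69199) (x := ((1350 : ℕ) : ℝ) / 10000) (by decide +kernel)
        (n0 (by decide)) (nle (by decide)) le_rfl (by decide)
      have g3 := gL (be := 10000) (p := 1700) (G := 61715) (x := ((1500 : ℕ) : ℝ) / 10000) (by decide +kernel)
        (n0 (by decide)) (nle (by decide)) le_rfl (by decide)
      have g4 := gL (be := 10000) (p := 1900) (G := 55891) (x := ((1700 : ℕ) : ℝ) / 10000) (by decide +kernel)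
        (n0 (by decide)) (nle (by decide)) le_rfl (by decide)
      have g5 := gL (be := 10000) (p := 2050) (G := 52323) (x := ((1900 : ℕ) : ℝ) / 10000) (by decide +kernel)
        (n0 (by decide)) (nle (by decide)) le_rfl (by decide)
      have gm := gh_mono (x := ((2050 : ℕ) : ℝ) / 10000) (n0 (by decide)) ha h5
      unfold lin at h
      push_cast at h gm g0 g1 g2 g3 g4 g5
      linarith only [neg_abs_le (gh x - gh xs), h, gm, g0, g1, g2, g3, g4, g5]
    rcases le_total x (((1350 : ℕ) : ℝ) / 10000) with c2 | c2
    · have h := piP crs_a_2_pl2 hN hA hcl hcp c1 c2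
      have g0 := gL (be := 10000) (p := 1350) (G := 76342) (by decide +kernel) x0 c2 le_rfl (by decide)
      have g1 := gL (be := 10000) (p := 1500) (G := 69199) (x := ((1350 : ℕ) : ℝ) / 10000) (by decide +kernel)
        (n0 (by decide)) (nle (by decide)) le_rfl (by decide)
      have g2 := gL (be := 10000) (p := 1700) (G := 61715) (x := ((1500 : ℕ) : ℝ) / 10000) (by decide +kernel)
        (n0 (by decide)) (nle (by decide)) le_rfl (by decide)
      have g3 := gL (be := 10000) (p := 1900) (G := 55891) (x := ((1700 : ℕ) : ℝ) / 10000) (by decide +kernel)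
        (n0 (by decide)) (nle (by decide)) le_rfl (by decide)
      have g4 := gL (be := 10000) (p := 2050) (G := 52323) (x := ((1900 : ℕ) : ℝ) / 10000) (by decide +kernel)
        (n0 (by decide)) (nle (by decide)) le_rfl (by decide)
      have gm := gh_mono (x := ((2050 : ℕ) : ℝ) / 10000) (n0 (by decide)) ha h5
      unfold lin at h
      push_cast at h gm g0 g1 g2 g3 g4
      linarith only [neg_abs_le (gh x - gh xs), h, gm, g0, g1, g2, g3, g4]
    rcases le_total x (((1500 : ℕ) : ℝ) / 10000) with c3 | c3
    · have h := piP crs_a_2_pl3 hN hA hcl hcp c2 c3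
      have g0 := gL (be := 10000) (p := 1500) (G := 69199) (by decide +kernel) x0 c3 le_rfl (by decide)
      have g1 := gL (be := 10000) (p := 1700) (G := 61715) (x := ((1500 : ℕ) : ℝ) / 10000) (by decide +kernel)
        (n0 (by decide)) (nle (by decide)) le_rfl (by decide)
      have g2 := gL (be := 10000) (p := 1900) (G := 55891) (x := ((1700 : ℕ) : ℝ) / 10000) (by decide +kernel)
        (n0 (by decide)) (nle (by decide)) le_rfl (by decide)
      have g3 := gL (be := 10000) (p := 2050) (G := 52323) (x := ((1900 : ℕ) : ℝ) / 10000) (by decide +kernel)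
        (n0 (by decide)) (nle (by decide)) le_rfl (by decide)
      have gm := gh_mono (x := ((2050 : ℕ) : ℝ) / 10000) (n0 (by decide)) ha h5
      unfold lin at h
      push_cast at h gm g0 g1 g2 g3
      linarith only [neg_abs_le (gh x - gh xs), h, gm, g0, g1, g2, g3]
    rcases le_total x (((1700 : ℕ) : ℝ) / 10000) with c4 | c4
    · have h := piP crs_a_2_pl4 hN hA hcl hcp c3 c4
      have g0 := gL (be := 10000) (p := 1700) (G := 61715) (by decide +kernel) x0 c4 le_rfl (by decide)
      have g1 := gL (be := 10000) (p := 1900) (G := 55891) (x := ((1700 : ℕ) : ℝ) / 10000) (by decide +kernel)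
        (n0 (by decide)) (nle (by decide)) le_rfl (by decide)
      have g2 := gL (be := 10000) (p := 2050) (G := 52323) (x := ((1900 : ℕ) : ℝ) / 10000) (by decide +kernel)
        (n0 (by decide)) (nle (by decide)) le_rfl (by decide)
      have gm := gh_mono (x := ((2050 : ℕ) : ℝ) / 10000) (n0 (by decide)) ha h5
      unfold lin at h
      push_cast at h gm g0 g1 g2
      linarith only [neg_abs_le (gh x - gh xs), h, gm, g0, g1, g2]
    rcases le_total x (((1900 : ℕ) : ℝ) / 10000) with c5 | c5
    · have h := piP crs_a_2_pl5 hN hA hcl hcp c4 c5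
      have g0 := gL (be := 10000) (p := 1900) (G := 55891) (by decide +kernel) x0 c5 le_rfl (by decide)
      have g1 := gL (be := 10000) (p := 2050) (G := 52323) (x := ((1900 : ℕ) : ℝ) / 10000) (by decide +kernel)
        (n0 (by decide)) (nle (by decide)) le_rfl (by decide)
      have gm := gh_mono (x := ((2050 : ℕ) : ℝ) / 10000) (n0 (by decide)) ha h5
      unfold lin at h
      push_cast at h gm g0 g1
      linarith only [neg_abs_le (gh x - gh xs), h, gm, g0, g1]
    rcases le_total x (((2050 : ℕ) : ℝ) / 10000) with c6 | c6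
    · have h := piP crs_a_2_pl6 hN hA hcl hcp c5 c6
      have g0 := gL (be := 10000) (p := 2050) (G := 52323) (by decide +kernel) x0 c6 le_rfl (by decide)
      have gm := gh_mono (x := ((2050 : ℕ) : ℝ) / 10000) (n0 (by decide)) ha h5
      unfold lin at h
      push_cast at h gm g0
      linarith only [neg_abs_le (gh x - gh xs), h, gm, g0]
    rcases le_total x (((2210 : ℕ) : ℝ) / 10000) with ce | ce
    · have h := piP crs_a_2_pm hN hA hcl hcp c6 ce
      unfold lin at h
      push_cast at h
      linarith only [abs_nonneg (gh x - gh xs), h]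
    have gm := gh_mono (y := ((2210 : ℕ) : ℝ) / 10000) hN.xs0 he (nhalf (by decide))
    have h := piP crs_a_2_pr0 hN hA hcl hcp ce hx1
    have g0 := gL (be := 10000) (p := 2700) (G := 41881) (x := ((2210 : ℕ) : ℝ) / 10000) (by decide +kernel)
      (n0 (by decide)) ce hx1 (by decide)
    unfold lin at h
    push_cast at h gm g0
    linarith only [le_abs_self (gh x - gh xs), h, gm, g0]
  · have hx0 : ((1000 : ℕ) : ℝ) / 10000 ≤ x := le_trans (by norm_num) hA.x0
    have hx1 : x ≤ ((2700 : ℕ) : ℝ) / 10000 := le_trans hA.x1 (by norm_num)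
    have gm := gh_mono ((n0 (by decide)).trans_le hx0) hx.le h5
    have ga := gU ua (by decide) le_rfl ha h5
    have g3 := gS4 kc (by decide) (by decide) le_rfl ha he hT
    push_cast at ga g3
    rcases le_total x (((1200 : ℕ) : ℝ) / 10000) with c0 | c0
    · have h := piD1 crs_a_2_db0 hN hA hcl hcp (by decide) hx0 c0 ha
      have g0 := gU (be := 10000) (p := 1000) (G := 101665) (by decide +kernel) (by decide) hx0 c0
        (nhalf (by decide))
      have k1 := gU (be := 10000) (p := 1200) (G := 85341) (y := ((1400 : ℕ) : ℝ) / 10000) (by decide +kernel)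
        (by decide) le_rfl (nle (by decide)) (nhalf (by decide))
      have k2 := gU (be := 10000) (p := 1400) (G := 73785) (y := ((1700 : ℕ) : ℝ) / 10000) (by decide +kernel)
        (by decide) le_rfl (nle (by decide)) (nhalf (by decide))
      have k3 := gU (be := 10000) (p := 1700) (G := 61716) (y := ((2050 : ℕ) : ℝ) / 10000) (by decide +kernel)
        (by decide) le_rfl (nle (by decide)) (nhalf (by decide))
      push_cast at h g0 k1 k2 k3
      unfold lin at h
      push_cast at h
      exact dn_fin5 h gm (by linarith only [he, ga, g0, k1, k2, k3]) (by linarith only [g3, g0, k1, k2, k3])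
    rcases le_total x (((1400 : ℕ) : ℝ) / 10000) with c1 | c1
    · have h := piD1 crs_a_2_db1 hN hA hcl hcp (by decide) c0 c1 ha
      have g0 := gU (be := 10000) (p := 1200) (G := 85341) (by decide +kernel) (by decide) c0 c1
        (nhalf (by decide))
      have k1 := gU (be := 10000) (p := 1400) (G := 73785) (y := ((1700 : ℕ) : ℝ) / 10000) (by decide +kernel)
        (by decide) le_rfl (nle (by decide)) (nhalf (by decide))
      have k2 := gU (be := 10000) (p := 1700) (G := 61716) (y := ((2050 : ℕ) : ℝ) / 10000) (by decide +kernel)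
        (by decide) le_rfl (nle (by decide)) (nhalf (by decide))
      push_cast at h g0 k1 k2
      unfold lin at h
      push_cast at h
      exact dn_fin5 h gm (by linarith only [he, ga, g0, k1, k2]) (by linarith only [g3, g0, k1, k2])
    rcases le_total x (((1700 : ℕ) : ℝ) / 10000) with c2 | c2
    · have h := piD1 crs_a_2_db2 hN hA hcl hcp (by decide) c1 c2 ha
      have g0 := gU (be := 10000) (p := 1400) (G := 73785) (by decide +kernel) (by decide) c1 c2
        (nhalf (by decide))
      have k1 := gU (be := 10000) (p := 1700) (G := 61716) (y := ((2050 : ℕ) : ℝ) / 10000) (by decide +kernel)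
        (by decide) le_rfl (nle (by decide)) (nhalf (by decide))
      push_cast at h g0 k1
      unfold lin at h
      push_cast at h
      exact dn_fin5 h gm (by linarith only [he, ga, g0, k1]) (by linarith only [g3, g0, k1])
    rcases le_total x (((2050 : ℕ) : ℝ) / 10000) with c3 | c3
    · have h := piD1 crs_a_2_db3 hN hA hcl hcp (by decide) c2 c3 ha
      have g0 := gU (be := 10000) (p := 1700) (G := 61716) (by decide +kernel) (by decide) c2 c3
        (nhalf (by decide))
      push_cast at h g0
      unfold lin at h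
      push_cast at h
      exact dn_fin5 h gm (by linarith only [he, ga, g0]) (by linarith only [g3, g0])
    have h := piD0 crs_a_2_da hN hA hcl hcp (by decide) c3 (hx.le.trans he) hx.le
    have g1 := gU ua (by decide) c3 hx.le h5
    have g4 := gS4 kc (by decide) (by decide) c3 hx.le he hT
    unfold lin at h
    push_cast at h g1 g4
    exact dn_fin5 h gm (by linarith only [he, g1]) (by linarith only [g4])
  · have hx0 : ((1000 : ℕ) : ℝ) / 10000 ≤ x := le_trans (by norm_num) hA.x0
    have hx1 : x ≤ ((2700 : ℕ) : ℝ) / 10000 := le_trans hA.x1 (by norm_num)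
    have gm := gh_mono hN.xs0 hx.le (hx1.trans (nhalf (by decide)))
    rcases le_total x (((2210 : ℕ) : ℝ) / 10000) with ce | ce
    · have h := piU0 crs_a_2_ua hN hA hcl hcp (ha.trans hx.le) ce
      have g1 := gU ua (by decide) ha hx.le (hx1.trans (nhalf (by decide)))
      have g3 := gS4 kc (by decide) (by decide) ha hx.le ce hT
      unfold lin at h
      push_cast at h g1 g3
      exact up_fin5 h gm (by linarith only [ha, g1]) (by linarith only [g3])
    have ga := gU (y := ((2210 : ℕ) : ℝ) / 10000) ua (by decide) ha he (nhalf (by decide))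
    have g3 := gS4 kc (by decide) (by decide) ha he le_rfl hT
    push_cast at ga g3
    have h := piU1 crs_a_2_ub0 hN hA hcl hcp ce hx1
    have g0 := gU (be := 10000) (p := 2210) (G := 49100) (by decide +kernel) (by decide) le_rfl ce
      (hx1.trans (nhalf (by decide)))
    unfold lin at h
    push_cast at h g0
    exact up_fin5 h gm (by linarith only [ha, ga, g0]) (by linarith only [g3, g0])

theorem srs_a_3 {xs s T ρ : ℝ} (hW : RWp.In ⟨1730 / 10000, 2370 / 10000, 120 / 10000, 560 / 10000, 1680 / 10000, 2000 / 10000, 530 / 10000, 1045 / 10000, 4380 / 10000, 3560 / 10000, 140 / 10000, 730 / 10000, 22 / 10, 59 / 100⟩ xs s T ρ)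
    (ha : ((2210 : ℕ) : ℝ) / 10000 ≤ xs) (he : xs ≤ ((2290 : ℕ) : ℝ) / 10000) :
    RampOK (65 / 100) (14 / 100) 1 4 xs (1 / 2 - s) T ρ (10 / 100) (27 / 100) := by
  have hN : Nm 4290 3560 4972 10 22 610 1680 140 730 1700 2140 530 1045 xs s T ρ := by
    obtain ⟨-, -, w1, w2, w3, w4, w5, w6, w7, w8, w9, w10, w11, w12⟩ := hW
    dsimp only at w1 w2 w3 w4 w6 w7 w8 w9 w10 w11 w12
    push_cast at ha he
    exact ⟨by linarith only [ha, w5, w7], by linarith only [he, w5, w7], by push_cast; linarith only [w3], by norm_num, by push_cast; linarith only [he, w4],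
      by norm_num, by push_cast; linarith only [w9], by norm_num, by push_cast; linarith only [he, w4, w5, w7, w11], by norm_num,
      by push_cast; linarith only [he, w3], by push_cast; linarith only [ha, w4, w5, w7], by norm_num, by push_cast; linarith only [w1],
      by push_cast; linarith only [w2], by push_cast; linarith only [w6], by push_cast; linarith only [w7], w5,
      fun _ => by push_cast; linarith only [w10], by push_cast; linarith only [w11]⟩
  have hT : |T| ≤ ((560 : ℕ) : ℝ) / 10000 := by
    have w1 := hW.t0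
    have w2 := hW.t1
    dsimp only at w1 w2
    rw [abs_le]
    push_cast
    constructor <;> linarith only [w1, w2]
  have kc : kC4 10000 2210 2290 560 0 = true := by decide +kernel
  have ua : kU 10000 2210 49100 = true := by decide +kernel
  have hcl : (0 : ℝ) < 10 / 100 := by norm_num
  have hcp : (27 / 100 : ℝ) < 1 / 2 := by norm_num
  have h5 := hN.xs1.le
  refine ⟨fun x y hA => ?_, fun x y hA hx => ?_, fun x y hA hx => ?_⟩
  · have hx0 : ((1000 : ℕ) : ℝ) / 10000 ≤ x := le_trans (by norm_num) hA.x0
    have hx1 : x ≤ ((2700 : ℕ) : ℝ) / 10000 := le_trans hA.x1 (by norm_num)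
    have x0 : 0 < x := (n0 (by decide)).trans_le hx0
    rcases le_total x (((1200 : ℕ) : ℝ) / 10000) with c0 | c0
    · have h := piP crs_a_3_pl0 hN hA hcl hcp hx0 c0
      have g0 := gL (be := 10000) (p := 1200) (G := 85340) (by decide +kernel) x0 c0 le_rfl (by decide)
      have g1 := gL (be := 10000) (p := 1400) (G := 73784) (x := ((1200 : ℕ) : ℝ) / 10000) (by decide +kernel)
        (n0 (by decide)) (nle (by decide)) le_rfl (by decide)
      have g2 := gL (be := 10000) (p := 1700) (G := 61715) (x := ((1400 : ℕ) : ℝ) / 10000) (by decide +kernel)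
        (n0 (by decide)) (nle (by decide)) le_rfl (by decide)
      have g3 := gL (be := 10000) (p := 2000) (G := 53447) (x := ((1700 : ℕ) : ℝ) / 10000) (by decide +kernel)
        (n0 (by decide)) (nle (by decide)) le_rfl (by decide)
      have g4 := gL (be := 10000) (p := 2210) (G := 49099) (x := ((2000 : ℕ) : ℝ) / 10000) (by decide +kernel)
        (n0 (by decide)) (nle (by decide)) le_rfl (by decide)
      have gm := gh_mono (x := ((2210 : ℕ) : ℝ) / 10000) (n0 (by decide)) ha h5
      unfold lin at h
      push_cast at h gm g0 g1 g2 g3 g4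
      linarith only [neg_abs_le (gh x - gh xs), h, gm, g0, g1, g2, g3, g4]
    rcases le_total x (((1400 : ℕ) : ℝ) / 10000) with c1 | c1
    · have h := piP crs_a_3_pl1 hN hA hcl hcp c0 c1
      have g0 := gL (be := 10000) (p := 1400) (G := 73784) (by decide +kernel) x0 c1 le_rfl (by decide)
      have g1 := gL (be := 10000) (p := 1700) (G := 61715) (x := ((1400 : ℕ) : ℝ) / 10000) (by decide +kernel)
        (n0 (by decide)) (nle (by decide)) le_rfl (by decide)
      have g2 := gL (be := 10000) (p := 2000) (G := 53447) (x := ((1700 : ℕ) : ℝ) / 10000) (by decide +kernel)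
        (n0 (by decide)) (nle (by decide)) le_rfl (by decide)
      have g3 := gL (be := 10000) (p := 2210) (G := 49099) (x := ((2000 : ℕ) : ℝ) / 10000) (by decide +kernel)
        (n0 (by decide)) (nle (by decide)) le_rfl (by decide)
      have gm := gh_mono (x := ((2210 : ℕ) : ℝ) / 10000) (n0 (by decide)) ha h5
      unfold lin at h
      push_cast at h gm g0 g1 g2 g3
      linarith only [neg_abs_le (gh x - gh xs), h, gm, g0, g1, g2, g3]
    rcases le_total x (((1700 : ℕ) : ℝ) / 10000) with c2 | c2
    · have h := piP crs_a_3_pl2 hN hA hcl hcp c1 c2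
      have g0 := gL (be := 10000) (p := 1700) (G := 61715) (by decide +kernel) x0 c2 le_rfl (by decide)
      have g1 := gL (be := 10000) (p := 2000) (G := 53447) (x := ((1700 : ℕ) : ℝ) / 10000) (by decide +kernel)
        (n0 (by decide)) (nle (by decide)) le_rfl (by decide)
      have g2 := gL (be := 10000) (p := 2210) (G := 49099) (x := ((2000 : ℕ) : ℝ) / 10000) (by decide +kernel)
        (n0 (by decide)) (nle (by decide)) le_rfl (by decide)
      have gm := gh_mono (x := ((2210 : ℕ) : ℝ) / 10000) (n0 (by decide)) ha h5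
      unfold lin at h
      push_cast at h gm g0 g1 g2
      linarith only [neg_abs_le (gh x - gh xs), h, gm, g0, g1, g2]
    rcases le_total x (((2000 : ℕ) : ℝ) / 10000) with c3 | c3
    · have h := piP crs_a_3_pl3 hN hA hcl hcp c2 c3
      have g0 := gL (be := 10000) (p := 2000) (G := 53447) (by decide +kernel) x0 c3 le_rfl (by decide)
      have g1 := gL (be := 10000) (p := 2210) (G := 49099) (x := ((2000 : ℕ) : ℝ) / 10000) (by decide +kernel)
        (n0 (by decide)) (nle (by decide)) le_rfl (by decide)
      have gm := gh_mono (x := ((2210 : ℕ) : ℝ) / 10000) (n0 (by decide)) ha h5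
      unfold lin at h
      push_cast at h gm g0 g1
      linarith only [neg_abs_le (gh x - gh xs), h, gm, g0, g1]
    rcases le_total x (((2210 : ℕ) : ℝ) / 10000) with c4 | c4
    · have h := piP crs_a_3_pl4 hN hA hcl hcp c3 c4
      have g0 := gL (be := 10000) (p := 2210) (G := 49099) (by decide +kernel) x0 c4 le_rfl (by decide)
      have gm := gh_mono (x := ((2210 : ℕ) : ℝ) / 10000) (n0 (by decide)) ha h5
      unfold lin at h
      push_cast at h gm g0
      linarith only [neg_abs_le (gh x - gh xs), h, gm, g0]
    rcases le_total x (((2290 : ℕ) : ℝ) / 10000) with ce | ce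
    · have h := piP crs_a_3_pm hN hA hcl hcp c4 ce
      unfold lin at h
      push_cast at h
      linarith only [abs_nonneg (gh x - gh xs), h]
    have gm := gh_mono (y := ((2290 : ℕ) : ℝ) / 10000) hN.xs0 he (nhalf (by decide))
    have h := piP crs_a_3_pr0 hN hA hcl hcp ce hx1
    have g0 := gL (be := 10000) (p := 2700) (G := 41881) (x := ((2290 : ℕ) : ℝ) / 10000) (by decide +kernel)
      (n0 (by decide)) ce hx1 (by decide)
    unfold lin at h
    push_cast at h gm g0
    linarith only [le_abs_self (gh x - gh xs), h, gm, g0]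
  · have hx0 : ((1000 : ℕ) : ℝ) / 10000 ≤ x := le_trans (by norm_num) hA.x0
    have hx1 : x ≤ ((2700 : ℕ) : ℝ) / 10000 := le_trans hA.x1 (by norm_num)
    have gm := gh_mono ((n0 (by decide)).trans_le hx0) hx.le h5
    have ga := gU ua (by decide) le_rfl ha h5
    have g3 := gS4 kc (by decide) (by decide) le_rfl ha he hT
    push_cast at ga g3
    rcases le_total x (((1300 : ℕ) : ℝ) / 10000) with c0 | c0
    · have h := piD1 crs_a_3_db0 hN hA hcl hcp (by decide) hx0 c0 ha
      have g0 := gU (be := 10000) (p := 1000) (G := 101665) (by decide +kernel) (by decide) hx0 c0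
        (nhalf (by decide))
      have k1 := gU (be := 10000) (p := 1300) (G := 79104) (y := ((1700 : ℕ) : ℝ) / 10000) (by decide +kernel)
        (by decide) le_rfl (nle (by decide)) (nhalf (by decide))
      have k2 := gU (be := 10000) (p := 1700) (G := 61716) (y := ((2210 : ℕ) : ℝ) / 10000) (by decide +kernel)
        (by decide) le_rfl (nle (by decide)) (nhalf (by decide))
      push_cast at h g0 k1 k2
      unfold lin at h
      push_cast at h
      exact dn_fin5 h gm (by linarith only [he, ga, g0, k1, k2]) (by linarith only [g3, g0, k1, k2])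
    rcases le_total x (((1700 : ℕ) : ℝ) / 10000) with c1 | c1
    · have h := piD1 crs_a_3_db1 hN hA hcl hcp (by decide) c0 c1 ha
      have g0 := gU (be := 10000) (p := 1300) (G := 79104) (by decide +kernel) (by decide) c0 c1
        (nhalf (by decide))
      have k1 := gU (be := 10000) (p := 1700) (G := 61716) (y := ((2210 : ℕ) : ℝ) / 10000) (by decide +kernel)
        (by decide) le_rfl (nle (by decide)) (nhalf (by decide))
      push_cast at h g0 k1
      unfold lin at h
      push_cast at h
      exact dn_fin5 h gm (by linarith only [he, ga, g0, k1]) (by linarith only [g3, g0, k1])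
    rcases le_total x (((2210 : ℕ) : ℝ) / 10000) with c2 | c2
    · have h := piD1 crs_a_3_db2 hN hA hcl hcp (by decide) c1 c2 ha
      have g0 := gU (be := 10000) (p := 1700) (G := 61716) (by decide +kernel) (by decide) c1 c2
        (nhalf (by decide))
      push_cast at h g0
      unfold lin at h
      push_cast at h
      exact dn_fin5 h gm (by linarith only [he, ga, g0]) (by linarith only [g3, g0])
    have h := piD0 crs_a_3_da hN hA hcl hcp (by decide) c2 (hx.le.trans he) hx.le
    have g1 := gU ua (by decide) c2 hx.le h5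
    have g4 := gS4 kc (by decide) (by decide) c2 hx.le he hT
    unfold lin at h
    push_cast at h g1 g4
    exact dn_fin5 h gm (by linarith only [he, g1]) (by linarith only [g4])
  · have hx0 : ((1000 : ℕ) : ℝ) / 10000 ≤ x := le_trans (by norm_num) hA.x0
    have hx1 : x ≤ ((2700 : ℕ) : ℝ) / 10000 := le_trans hA.x1 (by norm_num)
    have gm := gh_mono hN.xs0 hx.le (hx1.trans (nhalf (by decide)))
    rcases le_total x (((2290 : ℕ) : ℝ) / 10000) with ce | ce
    · have h := piU0 crs_a_3_ua hN hA hcl hcp (ha.trans hx.le) ce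
      have g1 := gU ua (by decide) ha hx.le (hx1.trans (nhalf (by decide)))
      have g3 := gS4 kc (by decide) (by decide) ha hx.le ce hT
      unfold lin at h
      push_cast at h g1 g3
      exact up_fin5 h gm (by linarith only [ha, g1]) (by linarith only [g3])
    have ga := gU (y := ((2290 : ℕ) : ℝ) / 10000) ua (by decide) ha he (nhalf (by decide))
    have g3 := gS4 kc (by decide) (by decide) ha he le_rfl hT
    push_cast at ga g3
    have h := piU1 crs_a_3_ub0 hN hA hcl hcp ce hx1
    have g0 := gU (be := 10000) (p := 2290) (G := 47676) (by decide +kernel) (by decide) le_rfl ce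
      (hx1.trans (nhalf (by decide)))
    unfold lin at h
    push_cast at h g0
    exact up_fin5 h gm (by linarith only [ha, ga, g0]) (by linarith only [g3, g0])

theorem srs_a_4 {xs s T ρ : ℝ} (hW : RWp.In ⟨1730 / 10000, 2370 / 10000, 120 / 10000, 560 / 10000, 1680 / 10000, 2000 / 10000, 530 / 10000, 1045 / 10000, 4380 / 10000, 3560 / 10000, 140 / 10000, 730 / 10000, 22 / 10, 59 / 100⟩ xs s T ρ)
    (ha : ((2290 : ℕ) : ℝ) / 10000 ≤ xs) (he : xs ≤ ((2370 : ℕ) : ℝ) / 10000) :
    RampOK (65 / 100) (14 / 100) 1 4 xs (1 / 2 - s) T ρ (10 / 100) (27 / 100) := by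
  have hN : Nm 4370 3560 5052 10 22 690 1680 140 730 1700 2140 530 1045 xs s T ρ := by
    obtain ⟨-, -, w1, w2, w3, w4, w5, w6, w7, w8, w9, w10, w11, w12⟩ := hW
    dsimp only at w1 w2 w3 w4 w6 w7 w8 w9 w10 w11 w12
    push_cast at ha he
    exact ⟨by linarith only [ha, w5, w7], by linarith only [he, w5, w7], by push_cast; linarith only [w3], by norm_num, by push_cast; linarith only [he, w4],
      by norm_num, by push_cast; linarith only [w9], by norm_num, by push_cast; linarith only [he, w4, w5, w7, w11], by norm_num,
      by push_cast; linarith only [he, w3], by push_cast; linarith only [ha, w4, w5, w7], by norm_num, by push_cast; linarith only [w1],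
      by push_cast; linarith only [w2], by push_cast; linarith only [w6], by push_cast; linarith only [w7], w5,
      fun _ => by push_cast; linarith only [w10], by push_cast; linarith only [w11]⟩
  have hT : |T| ≤ ((560 : ℕ) : ℝ) / 10000 := by
    have w1 := hW.t0
    have w2 := hW.t1
    dsimp only at w1 w2
    rw [abs_le]
    push_cast
    constructor <;> linarith only [w1, w2]
  have kc : kC4 10000 2290 2370 560 0 = true := by decide +kernel
  have ua : kU 10000 2290 47676 = true := by decide +kernel
  have hcl : (0 : ℝ) < 10 / 100 := by norm_num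
  have hcp : (27 / 100 : ℝ) < 1 / 2 := by norm_num
  have h5 := hN.xs1.le
  refine ⟨fun x y hA => ?_, fun x y hA hx => ?_, fun x y hA hx => ?_⟩
  · have hx0 : ((1000 : ℕ) : ℝ) / 10000 ≤ x := le_trans (by norm_num) hA.x0
    have hx1 : x ≤ ((2700 : ℕ) : ℝ) / 10000 := le_trans hA.x1 (by norm_num)
    have x0 : 0 < x := (n0 (by decide)).trans_le hx0
    rcases le_total x (((1100 : ℕ) : ℝ) / 10000) with c0 | c0
    · have h := piP crs_a_4_pl0 hN hA hcl hcp hx0 c0
      have g0 := gL (be := 10000) (p := 1100) (G := 92744) (by decide +kernel) x0 c0 le_rfl (by decide)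
      have g1 := gL (be := 10000) (p := 1200) (G := 85340) (x := ((1100 : ℕ) : ℝ) / 10000) (by decide +kernel)
        (n0 (by decide)) (nle (by decide)) le_rfl (by decide)
      have g2 := gL (be := 10000) (p := 1350) (G := 76342) (x := ((1200 : ℕ) : ℝ) / 10000) (by decide +kernel)
        (n0 (by decide)) (nle (by decide)) le_rfl (by decide)
      have g3 := gL (be := 10000) (p := 1500) (G := 69199) (x := ((1350 : ℕ) : ℝ) / 10000) (by decide +kernel)
        (n0 (by decide)) (nle (by decide)) le_rfl (by decide)
      have g4 := gL (be := 10000) (p := 1700) (G := 61715) (x := ((1500 : ℕ) : ℝ) / 10000) (by decide +kernel)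
        (n0 (by decide)) (nle (by decide)) le_rfl (by decide)
      have g5 := gL (be := 10000) (p := 1900) (G := 55891) (x := ((1700 : ℕ) : ℝ) / 10000) (by decide +kernel)
        (n0 (by decide)) (nle (by decide)) le_rfl (by decide)
      have g6 := gL (be := 10000) (p := 2100) (G := 51257) (x := ((1900 : ℕ) : ℝ) / 10000) (by decide +kernel)
        (n0 (by decide)) (nle (by decide)) le_rfl (by decide)
      have g7 := gL (be := 10000) (p := 2290) (G := 47675) (x := ((2100 : ℕ) : ℝ) / 10000) (by decide +kernel)
        (n0 (by decide)) (nle (by decide)) le_rfl (by decide)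
      have gm := gh_mono (x := ((2290 : ℕ) : ℝ) / 10000) (n0 (by decide)) ha h5
      unfold lin at h
      push_cast at h gm g0 g1 g2 g3 g4 g5 g6 g7
      linarith only [neg_abs_le (gh x - gh xs), h, gm, g0, g1, g2, g3, g4, g5, g6, g7]
    rcases le_total x (((1200 : ℕ) : ℝ) / 10000) with c1 | c1
    · have h := piP crs_a_4_pl1 hN hA hcl hcp c0 c1
      have g0 := gL (be := 10000) (p := 1200) (G := 85340) (by decide +kernel) x0 c1 le_rfl (by decide)
      have g1 := gL (be := 10000) (p := 1350) (G := 76342) (x := ((1200 : ℕ) : ℝ) / 10000) (by decide +kernel)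
        (n0 (by decide)) (nle (by decide)) le_rfl (by decide)
      have g2 := gL (be := 10000) (p := 1500) (G := 69199) (x := ((1350 : ℕ) : ℝ) / 10000) (by decide +kernel)
        (n0 (by decide)) (nle (by decide)) le_rfl (by decide)
      have g3 := gL (be := 10000) (p := 1700) (G := 61715) (x := ((1500 : ℕ) : ℝ) / 10000) (by decide +kernel)
        (n0 (by decide)) (nle (by decide)) le_rfl (by decide)
      have g4 := gL (be := 10000) (p := 1900) (G := 55891) (x := ((1700 : ℕ) : ℝ) / 10000) (by decide +kernel)
        (n0 (by decide)) (nle (by decide)) le_rfl (by decide)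
      have g5 := gL (be := 10000) (p := 2100) (G := 51257) (x := ((1900 : ℕ) : ℝ) / 10000) (by decide +kernel)
        (n0 (by decide)) (nle (by decide)) le_rfl (by decide)
      have g6 := gL (be := 10000) (p := 2290) (G := 47675) (x := ((2100 : ℕ) : ℝ) / 10000) (by decide +kernel)
        (n0 (by decide)) (nle (by decide)) le_rfl (by decide)
      have gm := gh_mono (x := ((2290 : ℕ) : ℝ) / 10000) (n0 (by decide)) ha h5
      unfold lin at h
      push_cast at h gm g0 g1 g2 g3 g4 g5 g6
      linarith only [neg_abs_le (gh x - gh xs), h, gm, g0, g1, g2, g3, g4, g5, g6]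
    rcases le_total x (((1350 : ℕ) : ℝ) / 10000) with c2 | c2
    · have h := piP crs_a_4_pl2 hN hA hcl hcp c1 c2
      have g0 := gL (be := 10000) (p := 1350) (G := 76342) (by decide +kernel) x0 c2 le_rfl (by decide)
      have g1 := gL (be := 10000) (p := 1500) (G := 69199) (x := ((1350 : ℕ) : ℝ) / 10000) (by decide +kernel)
        (n0 (by decide)) (nle (by decide)) le_rfl (by decide)
      have g2 := gL (be := 10000) (p := 1700) (G := 61715) (x := ((1500 : ℕ) : ℝ) / 10000) (by decide +kernel)
        (n0 (by decide)) (nle (by decide)) le_rfl (by decide)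
      have g3 := gL (be := 10000) (p := 1900) (G := 55891) (x := ((1700 : ℕ) : ℝ) / 10000) (by decide +kernel)
        (n0 (by decide)) (nle (by decide)) le_rfl (by decide)
      have g4 := gL (be := 10000) (p := 2100) (G := 51257) (x := ((1900 : ℕ) : ℝ) / 10000) (by decide +kernel)
        (n0 (by decide)) (nle (by decide)) le_rfl (by decide)
      have g5 := gL (be := 10000) (p := 2290) (G := 47675) (x := ((2100 : ℕ) : ℝ) / 10000) (by decide +kernel)
        (n0 (by decide)) (nle (by decide)) le_rfl (by decide)
      have gm := gh_mono (x := ((2290 : ℕ) : ℝ) / 10000) (n0 (by decide)) ha h5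
      unfold lin at h
      push_cast at h gm g0 g1 g2 g3 g4 g5
      linarith only [neg_abs_le (gh x - gh xs), h, gm, g0, g1, g2, g3, g4, g5]
    rcases le_total x (((1500 : ℕ) : ℝ) / 10000) with c3 | c3
    · have h := piP crs_a_4_pl3 hN hA hcl hcp c2 c3
      have g0 := gL (be := 10000) (p := 1500) (G := 69199) (by decide +kernel) x0 c3 le_rfl (by decide)
      have g1 := gL (be := 10000) (p := 1700) (G := 61715) (x := ((1500 : ℕ) : ℝ) / 10000) (by decide +kernel)
        (n0 (by decide)) (nle (by decide)) le_rfl (by decide)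
      have g2 := gL (be := 10000) (p := 1900) (G := 55891) (x := ((1700 : ℕ) : ℝ) / 10000) (by decide +kernel)
        (n0 (by decide)) (nle (by decide)) le_rfl (by decide)
      have g3 := gL (be := 10000) (p := 2100) (G := 51257) (x := ((1900 : ℕ) : ℝ) / 10000) (by decide +kernel)
        (n0 (by decide)) (nle (by decide)) le_rfl (by decide)
      have g4 := gL (be := 10000) (p := 2290) (G := 47675) (x := ((2100 : ℕ) : ℝ) / 10000) (by decide +kernel)
        (n0 (by decide)) (nle (by decide)) le_rfl (by decide)
      have gm := gh_mono (x := ((2290 : ℕ) : ℝ) / 10000) (n0 (by decide)) ha h5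
      unfold lin at h
      push_cast at h gm g0 g1 g2 g3 g4
      linarith only [neg_abs_le (gh x - gh xs), h, gm, g0, g1, g2, g3, g4]
    rcases le_total x (((1700 : ℕ) : ℝ) / 10000) with c4 | c4
    · have h := piP crs_a_4_pl4 hN hA hcl hcp c3 c4
      have g0 := gL (be := 10000) (p := 1700) (G := 61715) (by decide +kernel) x0 c4 le_rfl (by decide)
      have g1 := gL (be := 10000) (p := 1900) (G := 55891) (x := ((1700 : ℕ) : ℝ) / 10000) (by decide +kernel)
        (n0 (by decide)) (nle (by decide)) le_rfl (by decide)
      have g2 := gL (be := 10000) (p := 2100) (G := 51257) (x := ((1900 : ℕ) : ℝ) / 10000) (by decide +kernel)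
        (n0 (by decide)) (nle (by decide)) le_rfl (by decide)
      have g3 := gL (be := 10000) (p := 2290) (G := 47675) (x := ((2100 : ℕ) : ℝ) / 10000) (by decide +kernel)
        (n0 (by decide)) (nle (by decide)) le_rfl (by decide)
      have gm := gh_mono (x := ((2290 : ℕ) : ℝ) / 10000) (n0 (by decide)) ha h5
      unfold lin at h
      push_cast at h gm g0 g1 g2 g3
      linarith only [neg_abs_le (gh x - gh xs), h, gm, g0, g1, g2, g3]
    rcases le_total x (((1900 : ℕ) : ℝ) / 10000) with c5 | c5
    · have h := piP crs_a_4_pl5 hN hA hcl hcp c4 c5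
      have g0 := gL (be := 10000) (p := 1900) (G := 55891) (by decide +kernel) x0 c5 le_rfl (by decide)
      have g1 := gL (be := 10000) (p := 2100) (G := 51257) (x := ((1900 : ℕ) : ℝ) / 10000) (by decide +kernel)
        (n0 (by decide)) (nle (by decide)) le_rfl (by decide)
      have g2 := gL (be := 10000) (p := 2290) (G := 47675) (x := ((2100 : ℕ) : ℝ) / 10000) (by decide +kernel)
        (n0 (by decide)) (nle (by decide)) le_rfl (by decide)
      have gm := gh_mono (x := ((2290 : ℕ) : ℝ) / 10000) (n0 (by decide)) ha h5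
      unfold lin at h
      push_cast at h gm g0 g1 g2
      linarith only [neg_abs_le (gh x - gh xs), h, gm, g0, g1, g2]
    rcases le_total x (((2100 : ℕ) : ℝ) / 10000) with c6 | c6
    · have h := piP crs_a_4_pl6 hN hA hcl hcp c5 c6
      have g0 := gL (be := 10000) (p := 2100) (G := 51257) (by decide +kernel) x0 c6 le_rfl (by decide)
      have g1 := gL (be := 10000) (p := 2290) (G := 47675) (x := ((2100 : ℕ) : ℝ) / 10000) (by decide +kernel)
        (n0 (by decide)) (nle (by decide)) le_rfl (by decide)
      have gm := gh_mono (x := ((2290 : ℕ) : ℝ) / 10000) (n0 (by decide)) ha h5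
      unfold lin at h
      push_cast at h gm g0 g1
      linarith only [neg_abs_le (gh x - gh xs), h, gm, g0, g1]
    rcases le_total x (((2290 : ℕ) : ℝ) / 10000) with c7 | c7
    · have h := piP crs_a_4_pl7 hN hA hcl hcp c6 c7
      have g0 := gL (be := 10000) (p := 2290) (G := 47675) (by decide +kernel) x0 c7 le_rfl (by decide)
      have gm := gh_mono (x := ((2290 : ℕ) : ℝ) / 10000) (n0 (by decide)) ha h5
      unfold lin at h
      push_cast at h gm g0
      linarith only [neg_abs_le (gh x - gh xs), h, gm, g0]
    rcases le_total x (((2370 : ℕ) : ℝ) / 10000) with ce | ce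
    · have h := piP crs_a_4_pm hN hA hcl hcp c7 ce
      unfold lin at h
      push_cast at h
      linarith only [abs_nonneg (gh x - gh xs), h]
    have gm := gh_mono (y := ((2370 : ℕ) : ℝ) / 10000) hN.xs0 he (nhalf (by decide))
    have h := piP crs_a_4_pr0 hN hA hcl hcp ce hx1
    have g0 := gL (be := 10000) (p := 2700) (G := 41881) (x := ((2370 : ℕ) : ℝ) / 10000) (by decide +kernel)
      (n0 (by decide)) ce hx1 (by decide)
    unfold lin at h
    push_cast at h gm g0
    linarith only [le_abs_self (gh x - gh xs), h, gm, g0]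
  · have hx0 : ((1000 : ℕ) : ℝ) / 10000 ≤ x := le_trans (by norm_num) hA.x0
    have hx1 : x ≤ ((2700 : ℕ) : ℝ) / 10000 := le_trans hA.x1 (by norm_num)
    have gm := gh_mono ((n0 (by decide)).trans_le hx0) hx.le h5
    have ga := gU ua (by decide) le_rfl ha h5
    have g3 := gS4 kc (by decide) (by decide) le_rfl ha he hT
    push_cast at ga g3
    rcases le_total x (((1300 : ℕ) : ℝ) / 10000) with c0 | c0
    · have h := piD1 crs_a_4_db0 hN hA hcl hcp (by decide) hx0 c0 ha
      have g0 := gU (be := 10000) (p := 1000) (G := 101665) (by decide +kernel) (by decide) hx0 c0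
        (nhalf (by decide))
      have k1 := gU (be := 10000) (p := 1300) (G := 79104) (y := ((1700 : ℕ) : ℝ) / 10000) (by decide +kernel)
        (by decide) le_rfl (nle (by decide)) (nhalf (by decide))
      have k2 := gU (be := 10000) (p := 1700) (G := 61716) (y := ((2290 : ℕ) : ℝ) / 10000) (by decide +kernel)
        (by decide) le_rfl (nle (by decide)) (nhalf (by decide))
      push_cast at h g0 k1 k2
      unfold lin at h
      push_cast at h
      exact dn_fin5 h gm (by linarith only [he, ga, g0, k1, k2]) (by linarith only [g3, g0, k1, k2])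
    rcases le_total x (((1700 : ℕ) : ℝ) / 10000) with c1 | c1
    · have h := piD1 crs_a_4_db1 hN hA hcl hcp (by decide) c0 c1 ha
      have g0 := gU (be := 10000) (p := 1300) (G := 79104) (by decide +kernel) (by decide) c0 c1
        (nhalf (by decide))
      have k1 := gU (be := 10000) (p := 1700) (G := 61716) (y := ((2290 : ℕ) : ℝ) / 10000) (by decide +kernel)
        (by decide) le_rfl (nle (by decide)) (nhalf (by decide))
      push_cast at h g0 k1
      unfold lin at h
      push_cast at h
      exact dn_fin5 h gm (by linarith only [he, ga, g0, k1]) (by linarith only [g3, g0, k1])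
    rcases le_total x (((2290 : ℕ) : ℝ) / 10000) with c2 | c2
    · have h := piD1 crs_a_4_db2 hN hA hcl hcp (by decide) c1 c2 ha
      have g0 := gU (be := 10000) (p := 1700) (G := 61716) (by decide +kernel) (by decide) c1 c2
        (nhalf (by decide))
      push_cast at h g0
      unfold lin at h
      push_cast at h
      exact dn_fin5 h gm (by linarith only [he, ga, g0]) (by linarith only [g3, g0])
    have h := piD0 crs_a_4_da hN hA hcl hcp (by decide) c2 (hx.le.trans he) hx.le
    have g1 := gU ua (by decide) c2 hx.le h5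
    have g4 := gS4 kc (by decide) (by decide) c2 hx.le he hT
    unfold lin at h
    push_cast at h g1 g4
    exact dn_fin5 h gm (by linarith only [he, g1]) (by linarith only [g4])
  · have hx0 : ((1000 : ℕ) : ℝ) / 10000 ≤ x := le_trans (by norm_num) hA.x0
    have hx1 : x ≤ ((2700 : ℕ) : ℝ) / 10000 := le_trans hA.x1 (by norm_num)
    have gm := gh_mono hN.xs0 hx.le (hx1.trans (nhalf (by decide)))
    rcases le_total x (((2370 : ℕ) : ℝ) / 10000) with ce | ce
    · have h := piU0 crs_a_4_ua hN hA hcl hcp (ha.trans hx.le) ce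
      have g1 := gU ua (by decide) ha hx.le (hx1.trans (nhalf (by decide)))
      have g3 := gS4 kc (by decide) (by decide) ha hx.le ce hT
      unfold lin at h
      push_cast at h g1 g3
      exact up_fin5 h gm (by linarith only [ha, g1]) (by linarith only [g3])
    have ga := gU (y := ((2370 : ℕ) : ℝ) / 10000) ua (by decide) ha he (nhalf (by decide))
    have g3 := gS4 kc (by decide) (by decide) ha he le_rfl hT
    push_cast at ga g3
    have h := piU1 crs_a_4_ub0 hN hA hcl hcp ce hx1
    have g0 := gU (be := 10000) (p := 2370) (G := 46361) (by decide +kernel) (by decide) le_rfl ce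
      (hx1.trans (nhalf (by decide)))
    unfold lin at h
    push_cast at h g0
    exact up_fin5 h gm (by linarith only [ha, ga, g0]) (by linarith only [g3, g0])

end RQ4

namespace RC

theorem i4_rs_a : RowI
    ⟨1730 / 10000, 2370 / 10000, 120 / 10000, 560 / 10000, 1680 / 10000, 2000 / 10000, 530 / 10000, 1045 / 10000, 4380 / 10000, 3560 / 10000, 140 / 10000, 730 / 10000, 22 / 10, 59 / 100⟩
    4 (65 / 100) (14 / 100) 1 (10 / 100) (27 / 100) := by
  intro xs s T ρ hW
  have h0 : ((1730 : ℕ) : ℝ) / 10000 ≤ xs := le_trans (by norm_num) hW.x0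
  have h1 : xs ≤ ((2370 : ℕ) : ℝ) / 10000 := by
    obtain ⟨-, w0, -, -, w3, -, -, -, w7, w8, w9, -, -, -⟩ := hW
    dsimp only at w0 w3 w7 w8 w9
    push_cast
    linarith only [w0]
  rcases le_total xs (((1890 : ℕ) : ℝ) / 10000) with k0 | k0
  · exact RQ4.srs_a_0 hW h0 k0
  rcases le_total xs (((2050 : ℕ) : ℝ) / 10000) with k1 | k1
  · exact RQ4.srs_a_1 hW k0 k1
  rcases le_total xs (((2210 : ℕ) : ℝ) / 10000) with k2 | k2
  · exact RQ4.srs_a_2 hW k1 k2
  rcases le_total xs (((2290 : ℕ) : ℝ) / 10000) with k3 | k3
  · exact RQ4.srs_a_3 hW k2 k3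
  exact RQ4.srs_a_4 hW k3 h1

end RC

end Pool.Agent.Work.MP_b30479_gtS.G2

end
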