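import Pool.Agent.Work.MP_b30479_gt.TBS.G2.RZ1

section

/-!
# Rings with the ring variable on the ramp, `b = 4`: certificates, rs_b
-/

set_option deprecated.oldSectionVars true

namespace Pool.Agent.Work.MP_b30479_gtS.G2

open NumIs

namespace RQ4

theorem crs_b_0_pl0 : okB 10000
    (tP 4 1 65 100 3940 3560 4492 10 22 14207 0 0 97765 140 730)
    0 1580 0 0 40 1000 1150 1700 2140 1250 2500 530 1045
    0x74e80fa03e80ba740607a02e9d0174020fa7407d16020607a74060ba74040b2040410182 = true := by
  decide +kernel

theorem crs_b_0_pl1 : okB 10000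
    (tP 4 1 65 100 3940 3560 4492 10 22 12971 0 0 87014 140 730)
    0 1580 0 0 40 1150 1300 1700 2140 1250 2500 530 1045
    0x1d3a03e80fa02e9d0181e80ba2c05d0183e9d01f407d16030407a7401d018238b0164060b2040410102 = true := by
  decide +kernel

theorem crs_b_0_pl2 : okB 10000
    (tP 4 1 65 100 3940 3560 4492 10 22 11554 0 0 76119 140 730)
    0 1580 0 0 40 1300 1500 1700 2140 1250 2500 530 1045
    0x74e80fa7403d0180e9d0183e9d0074060ba74060ba740608e64060ba7407d0174e8001f4e80c174e80c11c380c10108700840410102 = true := by
  decide +kernel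

theorem crs_b_0_pl3 : okB 10000
    (tP 4 1 65 100 3940 3560 4492 10 22 10160 0 0 66825 140 730)
    0 1580 0 0 40 1500 1730 1700 2140 1250 2500 530 1045
    0x1d3a01e9d0180e9d0002e8701023808202e9d007407d0174e80011c0470101e9d3a0001d0174e803a020390e1c00041640808e010410103 = true := by
  decide +kernel

theorem crs_b_0_pm : okB 10000
    (tP 4 1 65 100 3940 3560 4492 10 22 0 1400 0 0 140 730)
    0 1580 0 0 40 1730 1810 1700 2140 1250 2500 530 1045
    0x74e803a023808e64060ce04060ba7407d0e0207d0e03047010108100840610102 = true := by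
  decide +kernel

theorem crs_b_0_pr0 : okB 10000
    (tP 4 1 65 100 3940 3560 4492 10 22 0 9739 46069 0 140 730)
    0 1580 0 0 40 1810 2700 1700 2140 1250 2500 530 1045
    0x1c3800e04060ce02387000238702030790e03c8701813808e64080818300702030593a740600e1c020f26406701823870e030208e02027021c080809c0400100 = true := by
  decide +kernel

theorem crs_b_0_db0 : okB 10000
    (tD 1 4 1 65 100 3940 3560 4492 10 22 2000 1730 0 17111 111831 0 0 16576 111831 0 140 730)
    0 1580 0 0 40 1000 1200 1700 2140 1250 2500 530 1045
    0x1b7682da07682da94082dbb406d04076ed04940e4c80020238041024bb41ed049528203b7680da04264c8042020008103 = true := by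
  decide +kernel

theorem crs_b_0_db1 : okB 10000
    (tD 1 4 1 65 100 3940 3560 4492 10 22 2000 1730 0 14956 93875 0 0 14421 93875 0 140 730)
    0 1580 0 0 40 1200 1400 1700 2140 1250 2500 530 1045
    0x6dda07683dbb41824a940ed060b21c0390184c8002020410102dbb406d0494e0205b528238101040408181 = true := by
  decide +kernel

theorem crs_b_0_db2 : okB 10000
    (tD 1 4 1 65 100 3940 3560 4492 10 22 2000 1730 0 13176 81163 0 0 12642 81163 0 140 730)
    0 1580 0 0 40 1400 1730 1700 2140 1250 2500 530 1045
    0x6de80b6833990182dbb406d07b768304036ed01b41ed4a0c10138976813808004c81010038041820870084061011c080c082 = true := by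
  decide +kernel

theorem crs_b_0_da : okB 10000
    (tD 0 4 1 65 100 3940 3560 4492 10 22 2000 0 0 10696 66826 0 1400 0 0 0 140 730)
    0 1580 0 0 40 1730 1810 1700 2140 1250 2500 530 1045
    0x6dda04e02c87008338101820894102 = true := by
  decide +kernel

theorem crs_b_0_ua : okB 10000
    (tU 0 4 1 65 100 3940 3560 4492 10 22 400 0 12960 0 0 66826 1400 0 0 0 140 730)
    0 1580 0 0 40 1730 1810 1700 2140 1250 2500 530 1045
    0x772830a08e9d027419d0604282 = true := by
  decide +kernel

theorem crs_b_0_ub0 : okB 10000
    (tU 1 4 1 65 100 3940 3560 4492 10 22 400 1810 12481 0 0 64177 13016 0 0 64177 140 730)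
    0 1580 0 0 40 1810 2700 1700 2140 1250 2500 530 1045
    0x74285000ce850008e9d3a04e8300741013a1401d0474e1c0008102 = true := by
  decide +kernel

theorem crs_b_1_pl0 : okB 10000
    (tP 4 1 65 100 4020 3560 4572 10 22 13333 0 0 87014 140 730)
    0 1580 0 0 40 1000 1300 1700 2140 1250 2500 530 1045
    0x74e80fa01e9d01f40203a01e9d007401d0083e9d0181e9d01f4020ba7401d0082e9d0082e8b0102e9d002c05d01f405d016405d3a0158096023808083c8101040610102 = true := by
  decide +kernel

theorem crs_b_1_pl1 : okB 10000
    (tP 4 1 65 100 4020 3560 4572 10 22 10846 0 0 67887 140 730)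
    0 1580 0 0 40 1300 1700 1700 2140 1250 2500 530 1045
    0x74e80fa74000fa74060ba74060ba1c0590182e9d01f405d3a03e80fa740604074e803a03e8081f4e80c174e80c100e9d01f4e8001f4e80c174e800e0305d3a03e9d0083e9d0182e9d01820004e1c0070e000013200c800e01060820400700840410102 = true := by
  decide +kernel

theorem crs_b_1_pl2 : okB 10000
    (tP 4 1 65 100 4020 3560 4572 10 22 10215 0 0 64176 140 730)
    0 1580 0 0 40 1700 1810 1700 2140 1250 2500 530 1045
    0x1d3a00e80fa740608e74060ba7407d3a0107d0e030404e040670082081011c080c082 = true := by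
  decide +kernel

theorem crs_b_1_pm : okB 10000
    (tP 4 1 65 100 4020 3560 4572 10 22 0 1400 0 0 140 730)
    0 1580 0 0 40 1810 1890 1700 2140 1250 2500 530 1045
    0x1d3a00e80ba1c020ce640608e04060ba740673a010790e030470101081011c080c082 = true := by
  decide +kernel

theorem crs_b_1_pr0 : okB 10000
    (tP 4 1 65 100 4020 3560 4572 10 22 0 10108 46069 0 140 730)
    0 1580 0 0 40 1890 2700 1700 2140 1250 2500 530 1045
    0x70e64380ce02380800038102640808000060ce1c0473200e9d00f4e80800038700833870e03020800138702033804002387001c3800002 = true := by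
  decide +kernel

theorem crs_b_1_db0 : okB 10000
    (tD 1 4 1 65 100 4020 3560 4572 10 22 2000 1810 0 17879 111831 0 0 17366 111831 0 140 730)
    0 1580 0 0 40 1000 1300 1700 2140 1250 2500 530 1045
    0x6dda03681da0f6a507b41824bb406dda00182dbb406d05b528206076ed01b40250390e01c80ce6406076ed01b408004132040400264007020304052810813200da04202000c102 = true := by
  decide +kernel

theorem crs_b_1_db1 : okB 10000
    (tD 1 4 1 65 100 4020 3560 4572 10 22 2000 1810 0 14653 87015 0 0 14140 87015 0 140 730)
    0 1580 0 0 40 1300 1700 1700 2140 1250 2500 530 1045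
    0x1b7683dbb41823990202060b6ed07b768104976ed000c100dbb406d07b528304976814a092830404e1c0808184080019c021021c021018004102040404102 = true := by
  decide +kernel

theorem crs_b_1_db2 : okB 10000
    (tD 1 4 1 65 100 4020 3560 4572 10 22 2000 1810 0 11402 67888 0 0 10888 67888 0 140 730)
    0 1580 0 0 40 1700 1810 1700 2140 1250 2500 530 1045
    0x1b768138700823808e64061011c3804202020c2040210102 = true := by
  decide +kernel

theorem crs_b_1_da : okB 10000
    (tD 0 4 1 65 100 4020 3560 4572 10 22 2000 0 0 10730 64177 0 1400 0 0 0 140 730)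
    0 1580 0 0 40 1810 1890 1700 2140 1250 2500 530 1045
    0x1b76813808e02da1010404700830894102 = true := by
  decide +kernel

theorem crs_b_1_ua : okB 10000
    (tU 0 4 1 65 100 4020 3560 4572 10 22 320 0 13016 0 0 64177 1400 0 0 0 140 730)
    0 1580 0 0 40 1810 1890 1700 2140 1250 2500 530 1045
    0x1dca0c2820a08e9d027419d0614101 = true := by
  decide +kernel

theorem crs_b_1_ub0 : okB 10000
    (tU 1 4 1 65 100 4020 3560 4572 10 22 320 1890 12560 0 0 61767 13073 0 0 61767 140 730)
    0 1580 0 0 40 1890 2700 1700 2140 1250 2500 530 1045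
    0x1d0a140033a140023a7409d067413438001013a7411d3a0809c3808002 = true := by
  decide +kernel

theorem crs_b_2_pl0 : okB 10000
    (tP 4 1 65 100 4180 3560 4732 10 22 15800 0 0 102018 140 730)
    0 1580 0 0 40 1000 1100 1700 2140 1250 2500 530 1045
    0x74e80fa74060fa02e9d0181e9d0181e80ba740207a02e9d01f403d017403d160105d0103e870082c810102 = true := by
  decide +kernel

theorem crs_b_2_pl1 : okB 10000
    (tP 4 1 65 100 4180 3560 4732 10 22 14904 0 0 93874 140 730)
    0 1580 0 0 40 1100 1200 1700 2140 1250 2500 530 1045
    0x74e80fa74000fa74060fa740607a74020ba740607a740607a74020ba02e9d0181e808e02c810102e9d01f407d160303d3a0103d160105d01740410103 = true := by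
  decide +kernel

theorem crs_b_2_pl2 : okB 10000
    (tP 4 1 65 100 4180 3560 4732 10 22 14081 0 0 87014 140 730)
    0 1580 0 0 40 1200 1300 1700 2140 1250 2500 530 1045
    0x74e80fa7407d01740203a7407d0083e9d0182e9d0181e80ba740607a02e9d0181e9d01f407d0174e80c0f405d3a03020fa2c05d018258b0164060821c0210182 = true := by
  decide +kernel

theorem crs_b_2_pl3 : okB 10000
    (tP 4 1 65 100 4180 3560 4732 10 22 13320 0 0 81162 140 730)
    0 1580 0 0 40 1300 1400 1700 2140 1250 2500 530 1045
    0x1d3a740603a74060fa740607a02e9d0181e80ba023808202e9d00f407d0174e80c0f405d01640410103e9d01f405d0174e80d602067011c080c101 = true := by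
  decide +kernel

theorem crs_b_2_pl4 : okB 10000
    (tP 4 1 65 100 4180 3560 4732 10 22 12614 0 0 76119 140 730)
    0 1580 0 0 40 1400 1500 1700 2140 1250 2500 530 1045
    0x74e803a03e80ba740607a02e808e02080ba7403d01f405d01740590104040fa7407d3a0303d3a0305d1603047011c080c101 = true := by
  decide +kernel

theorem crs_b_2_pl5 : okB 10000
    (tP 4 1 65 100 4180 3560 4732 10 22 11956 0 0 71732 140 730)
    0 1580 0 0 40 1500 1600 1700 2140 1250 2500 530 1045
    0x1d3a03e80ba740607a02e9d01f403d0174040fa7407d3a0307d16030404e640670203040821c080c082 = true := by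
  decide +kernel

theorem crs_b_2_pl6 : okB 10000
    (tP 4 1 65 100 4180 3560 4732 10 22 11341 0 0 67887 140 730)
    0 1580 0 0 40 1600 1700 1700 2140 1250 2500 530 1045
    0x74e80fa02e80ba7407d0101380821c020ba7403d0174041020005d3a033808e020210103 = true := by
  decide +kernel

theorem crs_b_2_pl7 : okB 10000
    (tP 4 1 65 100 4180 3560 4732 10 22 10764 0 0 64493 140 730)
    0 1580 0 0 40 1700 1800 1700 2140 1250 2500 530 1045
    0x1d3a03e9d0181e9d01823870064060ba7407d3a0207d0e030404e04067008208100840610102 = true := by
  decide +kernel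

theorem crs_b_2_pl8 : okB 10000
    (tP 4 1 65 100 4180 3560 4732 10 22 10273 0 0 61766 140 730)
    0 1580 0 0 40 1800 1890 1700 2140 1250 2500 530 1045
    0x74e807a03e9d018239901823810182e9d01f4e80c1f43808e0304701010810e010270102 = true := by
  decide +kernel

theorem crs_b_2_pm : okB 10000
    (tP 4 1 65 100 4180 3560 4732 10 22 0 1400 0 0 140 730)
    0 1580 0 0 40 1890 2050 1700 2140 1250 2500 530 1045
    0x1d0e03380ba640604e023990202060ce040608e02e9d01f4e80c01ce804e030673a01380c11c0470101 = true := by
  decide +kernel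

theorem crs_b_2_pr0 : okB 10000
    (tP 4 1 65 100 4180 3560 4732 10 22 0 10845 46069 0 140 730)
    0 1580 0 0 40 2050 2700 1700 2140 1250 2500 530 1045
    0x1c3810183987019c0404e1c0208e1c0408e4c380c09c047021c020c19c080c14c380fa6406701803870182380809c3808100 = true := by
  decide +kernel

theorem crs_b_2_db0 : okB 10000
    (tD 1 4 1 65 100 4180 3560 4732 10 22 2000 1890 0 18611 111831 0 0 17622 111831 0 140 730)
    0 1580 0 0 40 1000 1200 1700 2140 1250 2500 530 1045
    0x1b5282da076a5020d2a503b4182dbd3202080816ddb90202040802503b76810990202007068302342020608182 = true := by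
  decide +kernel

theorem crs_b_2_db1 : okB 10000
    (tD 1 4 1 65 100 4180 3560 4732 10 22 2000 1890 0 16456 93875 0 0 15468 93875 0 140 730)
    0 1580 0 0 40 1200 1400 1700 2140 1250 2500 530 1045
    0x6d4a0b681da940834bb41a54a080824bb4264000818404940ed08092811a340830808182 = true := by
  decide +kernel

theorem crs_b_2_db2 : okB 10000
    (tD 1 4 1 65 100 4180 3560 4732 10 22 2000 1890 0 14676 81163 0 0 13688 81163 0 140 730)
    0 1580 0 0 40 1400 1700 1700 2140 1250 2500 530 1045
    0x1b76824a08e040670084040b6a505b528200701014bb41ed099000204952804a0808408700810808103 = true := by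
  decide +kernel

theorem crs_b_2_db3 : okB 10000
    (tD 1 4 1 65 100 4180 3560 4732 10 22 2000 1890 0 12420 67888 0 0 11431 67888 0 140 730)
    0 1580 0 0 40 1700 1890 1700 2140 1250 2500 530 1045
    0x1b4e1c0208e024bb720206101030810102da941ed380c11c380011c080c101 = true := by
  decide +kernel

theorem crs_b_2_da : okB 10000
    (tD 0 4 1 65 100 4180 3560 4732 10 22 2000 0 0 11263 61767 0 1400 0 0 0 140 730)
    0 1580 0 0 40 1890 2050 1700 2140 1250 2500 530 1045
    0x736a504012844a04183da9419c0404e040608e02 = true := by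
  decide +kernel

theorem crs_b_2_ua : okB 10000
    (tU 0 4 1 65 100 4180 3560 4732 10 22 240 0 13073 0 0 61767 1400 0 0 0 140 730)
    0 1580 0 0 40 1890 2050 1700 2140 1250 2500 530 1045
    0x74e81ca0ce85060b21d3a0419d060429d0208e02 = true := by
  decide +kernel

theorem crs_b_2_ub0 : okB 10000
    (tU 1 4 1 65 100 4180 3560 4732 10 22 240 2050 12210 0 0 57556 13198 0 0 57556 140 730)
    0 1580 0 0 40 2050 2700 1700 2140 1250 2500 530 1045
    0x74e9d0204e9d020da1c000829d041401d3a080833870134380809c3808102 = true := by
  decide +kernel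

theorem crs_b_3_pl0 : okB 10000
    (tP 4 1 65 100 4260 3560 4812 10 22 15539 0 0 93874 140 730)
    0 1580 0 0 40 1000 1200 1700 2140 1250 2500 530 1045
    0x74e80fa74060fa740607a02e9d0181e809602e9d01f403d00f607d0174040fa7407d170307d0101e8b00f4040ba040410102 = true := by
  decide +kernel

theorem crs_b_3_pl1 : okB 10000
    (tP 4 1 65 100 4260 3560 4812 10 22 14013 0 0 81162 140 730)
    0 1580 0 0 40 1200 1400 1700 2140 1250 2500 530 1045
    0x1d3a03e80ba7407d3a030603a74e804076060fa7401d0182e9d01f45c0c181e9d0182e9d0182e9d017403d01745c0d60258081813870064380418208700840410102 = true := by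
  decide +kernel

theorem crs_b_3_pl2 : okB 10000
    (tP 4 1 65 100 4260 3560 4812 10 22 12155 0 0 67887 140 730)
    0 1580 0 0 40 1400 1700 1700 2140 1250 2500 530 1045
    0x74e80fa74060fa74060ba74060ba7405d3a0307d0e030407a7407d3a03e804074e805602ec0c1f4e80c174e80fa74060c0f4e80fa2c060410039902020670e00020821c0210182 = true := by
  decide +kernel

theorem crs_b_3_pl3 : okB 10000
    (tP 4 1 65 100 4260 3560 4812 10 22 10398 0 0 57555 140 730)
    0 1580 0 0 40 1700 2050 1700 2140 1250 2500 530 1045
    0x190e1c000fa640604e02e9d019c05d3a0338080003808204040ba740190174e800e02e9d001c040019c0470101387006607d3a03e80801c0990003041020005d0e023c0fa7401d0100387000238080840808103 = true := by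
  decide +kernel

theorem crs_b_3_pm : okB 10000
    (tP 4 1 65 100 4260 3560 4812 10 22 0 1400 0 0 140 730)
    0 1580 0 0 40 2050 2130 1700 2140 1250 2500 530 1045
    0x1d0e033808e64060fa740670e010604e040790e030208e0408041823870082 = true := by
  decide +kernel

theorem crs_b_3_pr0 : okB 10000
    (tP 4 1 65 100 4260 3560 4812 10 22 0 11213 46069 0 140 730)
    0 1580 0 0 40 2130 2700 1700 2140 1250 2500 530 1045
    0x1c3930e030200e02987014ce800e0239300830004e06080019c3870080020ce3402702033804e020008e1c0070102 = true := by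
  decide +kernel

theorem crs_b_3_db0 : okB 10000
    (tD 1 4 1 65 100 4260 3560 4812 10 22 2000 2050 0 19456 111831 0 0 18995 111831 0 140 730)
    0 1580 0 0 40 1000 1300 1700 2140 1250 2500 530 1045
    0x6d4a09282dbb4103da9412506076ed0413a00080820204940ed080928d0404684040c1edda1320008081024a0768d1a04683040c002 = true := by
  decide +kernel

theorem crs_b_3_db1 : okB 10000
    (tD 1 4 1 65 100 4260 3560 4812 10 22 2000 2050 0 16230 87015 0 0 15769 87015 0 140 730)
    0 1580 0 0 40 1300 1700 1700 2140 1250 2500 530 1045
    0x1b5282da0d2ed0990002060b6ed06976830400e04da10100061026400101000610200040b6ed00941a54a081253834184040c101 = true := by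
  decide +kernel

theorem crs_b_3_db2 : okB 10000
    (tD 1 4 1 65 100 4260 3560 4812 10 22 2000 2050 0 12978 67888 0 0 12518 67888 0 140 730)
    0 1580 0 0 40 1700 2050 1700 2140 1250 2500 530 1045
    0x1b52834a09282da952800404e25020928438041640808202da101000694e02020c20400702030270102 = true := by
  decide +kernel

theorem crs_b_3_da : okB 10000
    (tD 0 4 1 65 100 4260 3560 4812 10 22 2000 0 0 10860 57556 0 1400 0 0 0 140 730)
    0 1580 0 0 40 2050 2130 1700 2140 1250 2500 530 1045
    0x1c4a10183da9412506052840608e02 = true := by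
  decide +kernel

theorem crs_b_3_ua : okB 10000
    (tU 0 4 1 65 100 4260 3560 4812 10 22 130 0 13198 0 0 57556 1400 0 0 0 140 730)
    0 1580 0 0 40 2050 2130 1700 2140 1250 2500 530 1045
    0x70283e87419c040429d0208e02 = true := by
  decide +kernel

theorem crs_b_3_ub0 : okB 10000
    (tU 1 4 1 65 100 4260 3560 4812 10 22 130 2130 12805 0 0 55709 13266 0 0 55709 140 730)
    0 1580 0 0 40 2130 2700 1700 2140 1250 2500 530 1045
    0x74ecc0205a1c38040026870002381419c080011d3800e1c0208083387009c0470102 = true := by
  decide +kernel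

theorem crs_b_4_pl0 : okB 10000
    (tP 4 1 65 100 4340 3560 4892 10 22 17030 0 0 102018 140 730)
    0 1580 0 0 40 1000 1100 1700 2140 1250 2500 570 1045
    0x1d3a74020fa02e807a02e9d01f402b0176060fa7407d0101e9d0182e8b0082c810102 = true := by
  decide +kernel

theorem crs_b_4_pl1 : okB 10000
    (tP 4 1 65 100 4340 3560 4892 10 22 16134 0 0 93874 140 730)
    0 1580 0 0 40 1100 1200 1700 2140 1250 2500 570 1045
    0x1d3a74060fa02e9d0181e80ba740607a740207a02380821c020ba7407d00ac05d00f403d970107d01740410103 = true := by
  decide +kernel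

theorem crs_b_4_pl2 : okB 10000
    (tP 4 1 65 100 4340 3560 4892 10 22 14947 0 0 83976 140 730)
    0 1580 0 0 40 1200 1350 1700 2140 1250 2500 570 1045
    0x1d3a00e9d0183e9d0181e807a7407d0082e9d0082e8096023808202e9d007607d00f402b017607d01740410103e9d00f45c0c1f4047011c080c101 = true := by
  decide +kernel

theorem crs_b_4_pl3 : okB 10000
    (tP 4 1 65 100 4340 3560 4892 10 22 13886 0 0 76119 140 730)
    0 1580 0 0 40 1350 1500 1700 2140 1250 2500 570 1045
    0x74e9d0083e807a74020ba02e9d007403d012c05d8183e9d01745c0c181e9d00745804182399019c020821c0210182 = true := by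
  decide +kernel

theorem crs_b_4_pl4 : okB 10000
    (tP 4 1 65 100 4340 3560 4892 10 22 12651 0 0 67887 140 730)
    0 1580 0 0 40 1500 1700 1700 2140 1250 2500 570 1045
    0x1d3a01e9d01f40203a745808076060fa74060ba2c059818239902020608202e9d170307d3a0305d0e03047011c080c101 = true := by
  decide +kernel

theorem crs_b_4_pl5 : okB 10000
    (tP 4 1 65 100 4340 3560 4892 10 22 11562 0 0 61481 140 730)
    0 1580 0 0 40 1700 1900 1700 2140 1250 2500 570 1045
    0x74e80fa74000ba74007011eec0c183399019c380008238102000608204040ba74e8001f4e80c1743808e03047011c080c101 = true := by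
  decide +kernel

theorem crs_b_4_pl6 : okB 10000
    (tP 4 1 65 100 4340 3560 4892 10 22 10465 0 0 55708 140 730)
    0 1580 0 0 40 1900 2130 1700 2140 1250 2500 570 1045
    0x1d3a03e9d008038700640208e023870e01019b20008081833810182380ba6607d330303d0e03e8701800473a01380c11c0470101 = true := by
  decide +kernel

theorem crs_b_4_pm : okB 10000
    (tP 4 1 65 100 4340 3560 4892 10 22 0 1400 0 0 140 730)
    0 1580 0 0 40 2130 2210 1700 2140 1250 2500 570 1045
    0x1c3807a1c0404e023810301060ce04060ba1c07d0e030330e0304701013870102 = true := by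
  decide +kernel

theorem crs_b_4_pr0 : okB 10000
    (tP 4 1 65 100 4340 3560 4892 10 22 0 11582 46069 0 140 730)
    0 1580 0 0 40 2210 2700 1700 2140 1250 2500 570 1045
    0x70e00987019c0405a023818204000819c040e61c06d014c9806602387008300d0101387001c0070102 = true := by
  decide +kernel

theorem crs_b_4_db0 : okB 10000
    (tD 1 4 1 65 100 4340 3560 4892 10 22 2000 2130 0 19984 111831 0 0 19538 111831 0 140 730)
    0 1580 0 0 40 1000 1300 1700 2140 1250 2500 570 1045
    0x6dda03682da941814bb4182dbb4683da0016d08100821a0c202dbb42021a0c10d06001254a34680040c082 = true := by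
  decide +kernel

theorem crs_b_4_db1 : okB 10000
    (tD 1 4 1 65 100 4340 3560 4892 10 22 2000 2130 0 16758 87015 0 0 16312 87015 0 140 730)
    0 1580 0 0 40 1300 1700 1700 2140 1250 2500 570 1045
    0x6d4a092ed060d2ed099000d060b680060b6a504941a54a00101381368404001a5021020004940841a002024a042040008182 = true := by
  decide +kernel

theorem crs_b_4_db2 : okB 10000
    (tD 1 4 1 65 100 4340 3560 4892 10 22 2000 2130 0 13506 67888 0 0 13061 67888 0 140 730)
    0 1580 0 0 40 1700 2130 1700 2140 1250 2500 570 1045
    0x254a012824a0ce6608081a503b7682000ce0409982020000182dbb40254a0012506712800404e0438042030070102 = true := by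
  decide +kernel

theorem crs_b_4_da : okB 10000
    (tD 0 4 1 65 100 4340 3560 4892 10 22 2000 0 0 10912 55709 0 1400 0 0 0 140 730)
    0 1580 0 0 40 2130 2210 1700 2140 1250 2500 570 1045
    0x71284060eaa506052840608e02 = true := by
  decide +kernel

theorem crs_b_4_ua : okB 10000
    (tU 0 4 1 65 100 4340 3560 4892 10 22 210 0 13266 0 0 55709 1400 0 0 0 140 730)
    0 1580 0 0 40 2130 2210 1700 2140 1250 2500 570 1045
    0x1d0a0ce050407a1d067011d0404e02 = true := by
  decide +kernel

theorem crs_b_4_ub0 : okB 10000
    (tU 1 4 1 65 100 4340 3560 4892 10 22 210 2210 12890 0 0 54010 13336 0 0 54010 140 730)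
    0 1580 0 0 40 2210 2700 1700 2140 1250 2500 570 1045
    0x74e9c0004e07060da1c060a64c00741b4387008004d0101387011c0070102 = true := by
  decide +kernel

theorem crs_b_5_pl0 : okB 10000
    (tP 4 1 65 100 4380 3560 5052 10 22 16422 0 0 93874 140 730)
    0 1580 0 0 40 1000 1200 1700 2140 1250 2500 650 1045
    0x1d3a03e9d01f403d3a01000fa01e9d0082e80ba01e808e02c810102e9d002c05d007403d81f403d81f403d160104b01660410103 = true := by
  decide +kernel

theorem crs_b_5_pl1 : okB 10000
    (tP 4 1 65 100 4380 3560 5052 10 22 14897 0 0 81162 140 730)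
    0 1580 0 0 40 1200 1400 1700 2140 1250 2500 650 1045
    0x1d3a740603a01e9d3a74060007403d0174020fa025808e02080ba74e9d0000e80407607d017403d81f404b01640410103e9d170307d0174047011c0808101 = true := by
  decide +kernel

theorem crs_b_5_pl2 : okB 10000
    (tP 4 1 65 100 4380 3560 5052 10 22 13038 0 0 67887 140 730)
    0 1580 0 0 40 1400 1700 1700 2140 1250 2500 650 1045
    0x1d3a02e807a02e9d01f403d00f405d0100380ba2e07d3b03e807b0300b3a0004b16000590202040c204000ba7407d3a0301d3a0005d3303047011c0808101 = true := by
  decide +kernel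

theorem crs_b_5_pl3 : okB 10000
    (tP 4 1 65 100 4380 3560 5052 10 22 11492 0 0 58792 140 730)
    0 1580 0 0 40 1700 2000 1700 2140 1250 2500 650 1045
    0x74e803a02cd98083e9d01f4e80c074e80c100387001c0608e0406700820810102e9d01f4e80c174380c174e9d0003e870182007011c0808101 = true := by
  decide +kernel

theorem crs_b_5_pl4 : okB 10000
    (tP 4 1 65 100 4380 3560 5052 10 22 10535 0 0 54009 140 730)
    0 1580 0 0 40 2000 2210 1700 2140 1250 2500 650 1045
    0x643870003380f21c07d0e030004e1c040b26607d32030330e030404e0406700823870082 = true := by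
  decide +kernel

theorem crs_b_5_pm : okB 10000
    (tP 4 1 65 100 4380 3560 5052 10 22 0 1400 0 0 140 730)
    0 1580 0 0 40 2210 2370 1700 2140 1250 2500 650 1045
    0x72601380ce1c0408e02e93014c047270106d01013870102 = true := by
  decide +kernel

theorem crs_b_5_pr0 : okB 10000
    (tP 4 1 65 100 4380 3560 5052 10 22 0 12319 46069 0 140 730)
    0 1580 0 0 40 2370 2700 1700 2140 1250 2500 650 1045
    0x1c9804e0369326030005a340409a1c06d0082387001c0470102 = true := by
  decide +kernel

theorem crs_b_5_db0 : okB 10000
    (tD 1 4 1 65 100 4380 3560 5052 10 22 2000 2210 0 20946 111831 0 0 20081 111831 0 140 730)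
    0 1580 0 0 40 1000 1300 1700 2140 1250 2500 650 1045
    0x1b52824a0b6a50213200380420204940eddb90202da001024a04002dbb416d1a086824a346800404103 = true := by
  decide +kernel

theorem crs_b_5_db1 : okB 10000
    (tD 1 4 1 65 100 4380 3560 5052 10 22 2000 2210 0 17719 87015 0 0 16855 87015 0 140 730)
    0 1580 0 0 40 1300 1700 1700 2140 1250 2500 650 1045
    0x95282da052a5040d2eddbb4102da001a502092841a0019c0834003380468304940840800e010810201000c102 = true := by
  decide +kernel

theorem crs_b_5_db2 : okB 10000
    (tD 1 4 1 65 100 4380 3560 5052 10 22 2000 2210 0 14468 67888 0 0 13604 67888 0 140 730)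
    0 1580 0 0 40 1700 2210 1700 2140 1250 2500 650 1045
    0x952804a0d2a50408e1c381818308081a5020b6a5049419c4a0010138102000808e010070102 = true := by
  decide +kernel

theorem crs_b_5_da : okB 10000
    (tD 0 4 1 65 100 4380 3560 5052 10 22 2000 0 0 11401 54010 0 1400 0 0 0 140 730)
    0 1580 0 0 40 2210 2370 1700 2140 1250 2500 650 1045
    0x1caa052a5040ce024a94082 = true := by
  decide +kernel

theorem crs_b_5_ua : okB 10000
    (tU 0 4 1 65 100 4380 3560 5052 10 22 370 0 13336 0 0 54010 1400 0 0 0 140 730)
    0 1580 0 0 40 2210 2370 1700 2140 1250 2500 650 1045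
    0x70285020e61f0604e023870082 = true := by
  decide +kernel

theorem crs_b_5_ub0 : okB 10000
    (tU 1 4 1 65 100 4380 3560 5052 10 22 370 2370 12622 0 0 50997 13486 0 0 50997 140 730)
    0 1580 0 0 40 2370 2700 1700 2140 1250 2500 650 1045
    0x34387004c0201a02387c0b40470e01040ce1c0270102 = true := by
  decide +kernel

end RQ4

end Pool.Agent.Work.MP_b30479_gtS.G2

end

section

/-!
# Rings with the ring variable on the ramp, `b = 4`, inside: rows rs_b
-/

set_option deprecated.oldSectionVars true

namespace Pool.Agent.Work.MP_b30479_gtS.G2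

open Real NumIs

namespace RQ4

open RC RQ

theorem srs_b_0 {xs s T ρ : ℝ} (hW : RWp.In ⟨1730 / 10000, 2370 / 10000, 120 / 10000, 560 / 10000, 2000 / 10000, 2130 / 10000, 530 / 10000, 1045 / 10000, 4380 / 10000, 3560 / 10000, 140 / 10000, 730 / 10000, 22 / 10, 59 / 100⟩ xs s T ρ)
    (ha : ((1730 : ℕ) : ℝ) / 10000 ≤ xs) (he : xs ≤ ((1810 : ℕ) : ℝ) / 10000) :
    RampOK (65 / 100) (14 / 100) (11 / 10) 4 xs (1 / 2 - s) T ρ (10 / 100) (27 / 100) := by
  have hN : Nm 3940 3560 4492 10 22 400 2000 140 730 1700 2140 530 1045 xs s T ρ := by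
    obtain ⟨-, -, w1, w2, w3, w4, w5, w6, w7, w8, w9, w10, w11, w12⟩ := hW
    dsimp only at w1 w2 w3 w4 w6 w7 w8 w9 w10 w11 w12
    push_cast at ha he
    exact ⟨by linarith only [ha, w5, w7], by linarith only [he, w5, w7], by push_cast; linarith only [w3], by norm_num, by push_cast; linarith only [he, w4],
      by norm_num, by push_cast; linarith only [he, w4, w5, w6], by norm_num, by push_cast; linarith only [he, w4, w5, w7, w11], by norm_num,
      by push_cast; linarith only [he, w3, w5, w7], by push_cast; linarith only [ha, w4], by norm_num, by push_cast; linarith only [w1],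
      by push_cast; linarith only [w2], by push_cast; linarith only [w6], by push_cast; linarith only [w7], w5,
      fun _ => by push_cast; linarith only [w10], by push_cast; linarith only [w11]⟩
  have hT : |T| ≤ ((560 : ℕ) : ℝ) / 10000 := by
    have w1 := hW.t0
    have w2 := hW.t1
    dsimp only at w1 w2
    rw [abs_le]
    push_cast
    constructor <;> linarith only [w1, w2]
  have kc : kC4 11000 1730 1810 560 0 = true := by decide +kernel
  have ua : kU 11000 1730 66826 = true := by decide +kernel
  have hcl : (0 : ℝ) < 10 / 100 := by norm_num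
  have hcp : (27 / 100 : ℝ) < 1 / 2 := by norm_num
  have h5 := hN.xs1.le
  refine ⟨fun x y hA => ?_, fun x y hA hx => ?_, fun x y hA hx => ?_⟩
  · have hx0 : ((1000 : ℕ) : ℝ) / 10000 ≤ x := le_trans (by norm_num) hA.x0
    have hx1 : x ≤ ((2700 : ℕ) : ℝ) / 10000 := le_trans hA.x1 (by norm_num)
    have x0 : 0 < x := (n0 (by decide)).trans_le hx0
    rcases le_total x (((1150 : ℕ) : ℝ) / 10000) with c0 | c0
    · have h := piP crs_b_0_pl0 hN hA hcl hcp hx0 c0
      have g0 := gL (be := 11000) (p := 1150) (G := 97765) (by decide +kernel) x0 c0 le_rfl (by decide)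
      have g1 := gL (be := 11000) (p := 1300) (G := 87014) (x := ((1150 : ℕ) : ℝ) / 10000) (by decide +kernel)
        (n0 (by decide)) (nle (by decide)) le_rfl (by decide)
      have g2 := gL (be := 11000) (p := 1500) (G := 76119) (x := ((1300 : ℕ) : ℝ) / 10000) (by decide +kernel)
        (n0 (by decide)) (nle (by decide)) le_rfl (by decide)
      have g3 := gL (be := 11000) (p := 1730) (G := 66825) (x := ((1500 : ℕ) : ℝ) / 10000) (by decide +kernel)
        (n0 (by decide)) (nle (by decide)) le_rfl (by decide)
      have gm := gh_mono (x := ((1730 : ℕ) : ℝ) / 10000) (n0 (by decide)) ha h5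
      unfold lin at h
      push_cast at h gm g0 g1 g2 g3
      linarith only [neg_abs_le (gh x - gh xs), h, gm, g0, g1, g2, g3]
    rcases le_total x (((1300 : ℕ) : ℝ) / 10000) with c1 | c1
    · have h := piP crs_b_0_pl1 hN hA hcl hcp c0 c1
      have g0 := gL (be := 11000) (p := 1300) (G := 87014) (by decide +kernel) x0 c1 le_rfl (by decide)
      have g1 := gL (be := 11000) (p := 1500) (G := 76119) (x := ((1300 : ℕ) : ℝ) / 10000) (by decide +kernel)
        (n0 (by decide)) (nle (by decide)) le_rfl (by decide)
      have g2 := gL (be := 11000) (p := 1730) (G := 66825) (x := ((1500 : ℕ) : ℝ) / 10000) (by decide +kernel)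
        (n0 (by decide)) (nle (by decide)) le_rfl (by decide)
      have gm := gh_mono (x := ((1730 : ℕ) : ℝ) / 10000) (n0 (by decide)) ha h5
      unfold lin at h
      push_cast at h gm g0 g1 g2
      linarith only [neg_abs_le (gh x - gh xs), h, gm, g0, g1, g2]
    rcases le_total x (((1500 : ℕ) : ℝ) / 10000) with c2 | c2
    · have h := piP crs_b_0_pl2 hN hA hcl hcp c1 c2
      have g0 := gL (be := 11000) (p := 1500) (G := 76119) (by decide +kernel) x0 c2 le_rfl (by decide)
      have g1 := gL (be := 11000) (p := 1730) (G := 66825) (x := ((1500 : ℕ) : ℝ) / 10000) (by decide +kernel)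
        (n0 (by decide)) (nle (by decide)) le_rfl (by decide)
      have gm := gh_mono (x := ((1730 : ℕ) : ℝ) / 10000) (n0 (by decide)) ha h5
      unfold lin at h
      push_cast at h gm g0 g1
      linarith only [neg_abs_le (gh x - gh xs), h, gm, g0, g1]
    rcases le_total x (((1730 : ℕ) : ℝ) / 10000) with c3 | c3
    · have h := piP crs_b_0_pl3 hN hA hcl hcp c2 c3
      have g0 := gL (be := 11000) (p := 1730) (G := 66825) (by decide +kernel) x0 c3 le_rfl (by decide)
      have gm := gh_mono (x := ((1730 : ℕ) : ℝ) / 10000) (n0 (by decide)) ha h5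
      unfold lin at h
      push_cast at h gm g0
      linarith only [neg_abs_le (gh x - gh xs), h, gm, g0]
    rcases le_total x (((1810 : ℕ) : ℝ) / 10000) with ce | ce
    · have h := piP crs_b_0_pm hN hA hcl hcp c3 ce
      unfold lin at h
      push_cast at h
      linarith only [abs_nonneg (gh x - gh xs), h]
    have gm := gh_mono (y := ((1810 : ℕ) : ℝ) / 10000) hN.xs0 he (nhalf (by decide))
    have h := piP crs_b_0_pr0 hN hA hcl hcp ce hx1
    have g0 := gL (be := 11000) (p := 2700) (G := 46069) (x := ((1810 : ℕ) : ℝ) / 10000) (by decide +kernel)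
      (n0 (by decide)) ce hx1 (by decide)
    unfold lin at h
    push_cast at h gm g0
    linarith only [le_abs_self (gh x - gh xs), h, gm, g0]
  · have hx0 : ((1000 : ℕ) : ℝ) / 10000 ≤ x := le_trans (by norm_num) hA.x0
    have hx1 : x ≤ ((2700 : ℕ) : ℝ) / 10000 := le_trans hA.x1 (by norm_num)
    have gm := gh_mono ((n0 (by decide)).trans_le hx0) hx.le h5
    have ga := gU ua (by decide) le_rfl ha h5
    have g3 := gS4 kc (by decide) (by decide) le_rfl ha he hT
    push_cast at ga g3
    rcases le_total x (((1200 : ℕ) : ℝ) / 10000) with c0 | c0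
    · have h := piD1 crs_b_0_db0 hN hA hcl hcp (by decide) hx0 c0 ha
      have g0 := gU (be := 11000) (p := 1000) (G := 111831) (by decide +kernel) (by decide) hx0 c0
        (nhalf (by decide))
      have k1 := gU (be := 11000) (p := 1200) (G := 93875) (y := ((1400 : ℕ) : ℝ) / 10000) (by decide +kernel)
        (by decide) le_rfl (nle (by decide)) (nhalf (by decide))
      have k2 := gU (be := 11000) (p := 1400) (G := 81163) (y := ((1730 : ℕ) : ℝ) / 10000) (by decide +kernel)
        (by decide) le_rfl (nle (by decide)) (nhalf (by decide))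
      push_cast at h g0 k1 k2
      unfold lin at h
      push_cast at h
      exact dn_fin5 h gm (by linarith only [he, ga, g0, k1, k2]) (by linarith only [g3, g0, k1, k2])
    rcases le_total x (((1400 : ℕ) : ℝ) / 10000) with c1 | c1
    · have h := piD1 crs_b_0_db1 hN hA hcl hcp (by decide) c0 c1 ha
      have g0 := gU (be := 11000) (p := 1200) (G := 93875) (by decide +kernel) (by decide) c0 c1
        (nhalf (by decide))
      have k1 := gU (be := 11000) (p := 1400) (G := 81163) (y := ((1730 : ℕ) : ℝ) / 10000) (by decide +kernel)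
        (by decide) le_rfl (nle (by decide)) (nhalf (by decide))
      push_cast at h g0 k1
      unfold lin at h
      push_cast at h
      exact dn_fin5 h gm (by linarith only [he, ga, g0, k1]) (by linarith only [g3, g0, k1])
    rcases le_total x (((1730 : ℕ) : ℝ) / 10000) with c2 | c2
    · have h := piD1 crs_b_0_db2 hN hA hcl hcp (by decide) c1 c2 ha
      have g0 := gU (be := 11000) (p := 1400) (G := 81163) (by decide +kernel) (by decide) c1 c2
        (nhalf (by decide))
      push_cast at h g0
      unfold lin at h
      push_cast at h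
      exact dn_fin5 h gm (by linarith only [he, ga, g0]) (by linarith only [g3, g0])
    have h := piD0 crs_b_0_da hN hA hcl hcp (by decide) c2 (hx.le.trans he) hx.le
    have g1 := gU ua (by decide) c2 hx.le h5
    have g4 := gS4 kc (by decide) (by decide) c2 hx.le he hT
    unfold lin at h
    push_cast at h g1 g4
    exact dn_fin5 h gm (by linarith only [he, g1]) (by linarith only [g4])
  · have hx0 : ((1000 : ℕ) : ℝ) / 10000 ≤ x := le_trans (by norm_num) hA.x0
    have hx1 : x ≤ ((2700 : ℕ) : ℝ) / 10000 := le_trans hA.x1 (by norm_num)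
    have gm := gh_mono hN.xs0 hx.le (hx1.trans (nhalf (by decide)))
    rcases le_total x (((1810 : ℕ) : ℝ) / 10000) with ce | ce
    · have h := piU0 crs_b_0_ua hN hA hcl hcp (ha.trans hx.le) ce
      have g1 := gU ua (by decide) ha hx.le (hx1.trans (nhalf (by decide)))
      have g3 := gS4 kc (by decide) (by decide) ha hx.le ce hT
      unfold lin at h
      push_cast at h g1 g3
      exact up_fin5 h gm (by linarith only [ha, g1]) (by linarith only [g3])
    have ga := gU (y := ((1810 : ℕ) : ℝ) / 10000) ua (by decide) ha he (nhalf (by decide))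
    have g3 := gS4 kc (by decide) (by decide) ha he le_rfl hT
    push_cast at ga g3
    have h := piU1 crs_b_0_ub0 hN hA hcl hcp ce hx1
    have g0 := gU (be := 11000) (p := 1810) (G := 64177) (by decide +kernel) (by decide) le_rfl ce
      (hx1.trans (nhalf (by decide)))
    unfold lin at h
    push_cast at h g0
    exact up_fin5 h gm (by linarith only [ha, ga, g0]) (by linarith only [g3, g0])

theorem srs_b_1 {xs s T ρ : ℝ} (hW : RWp.In ⟨1730 / 10000, 2370 / 10000, 120 / 10000, 560 / 10000, 2000 / 10000, 2130 / 10000, 530 / 10000, 1045 / 10000, 4380 / 10000, 3560 / 10000, 140 / 10000, 730 / 10000, 22 / 10, 59 / 100⟩ xs s T ρ)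
    (ha : ((1810 : ℕ) : ℝ) / 10000 ≤ xs) (he : xs ≤ ((1890 : ℕ) : ℝ) / 10000) :
    RampOK (65 / 100) (14 / 100) (11 / 10) 4 xs (1 / 2 - s) T ρ (10 / 100) (27 / 100) := by
  have hN : Nm 4020 3560 4572 10 22 320 2000 140 730 1700 2140 530 1045 xs s T ρ := by
    obtain ⟨-, -, w1, w2, w3, w4, w5, w6, w7, w8, w9, w10, w11, w12⟩ := hW
    dsimp only at w1 w2 w3 w4 w6 w7 w8 w9 w10 w11 w12
    push_cast at ha he
    exact ⟨by linarith only [ha, w5, w7], by linarith only [he, w5, w7], by push_cast; linarith only [w3], by norm_num, by push_cast; linarith only [he, w4],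
      by norm_num, by push_cast; linarith only [he, w4, w5, w6], by norm_num, by push_cast; linarith only [he, w4, w5, w7, w11], by norm_num,
      by push_cast; linarith only [he, w3, w5, w7], by push_cast; linarith only [ha, w4], by norm_num, by push_cast; linarith only [w1],
      by push_cast; linarith only [w2], by push_cast; linarith only [w6], by push_cast; linarith only [w7], w5,
      fun _ => by push_cast; linarith only [w10], by push_cast; linarith only [w11]⟩
  have hT : |T| ≤ ((560 : ℕ) : ℝ) / 10000 := by
    have w1 := hW.t0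
    have w2 := hW.t1
    dsimp only at w1 w2
    rw [abs_le]
    push_cast
    constructor <;> linarith only [w1, w2]
  have kc : kC4 11000 1810 1890 560 0 = true := by decide +kernel
  have ua : kU 11000 1810 64177 = true := by decide +kernel
  have hcl : (0 : ℝ) < 10 / 100 := by norm_num
  have hcp : (27 / 100 : ℝ) < 1 / 2 := by norm_num
  have h5 := hN.xs1.le
  refine ⟨fun x y hA => ?_, fun x y hA hx => ?_, fun x y hA hx => ?_⟩
  · have hx0 : ((1000 : ℕ) : ℝ) / 10000 ≤ x := le_trans (by norm_num) hA.x0
    have hx1 : x ≤ ((2700 : ℕ) : ℝ) / 10000 := le_trans hA.x1 (by norm_num)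
    have x0 : 0 < x := (n0 (by decide)).trans_le hx0
    rcases le_total x (((1300 : ℕ) : ℝ) / 10000) with c0 | c0
    · have h := piP crs_b_1_pl0 hN hA hcl hcp hx0 c0
      have g0 := gL (be := 11000) (p := 1300) (G := 87014) (by decide +kernel) x0 c0 le_rfl (by decide)
      have g1 := gL (be := 11000) (p := 1700) (G := 67887) (x := ((1300 : ℕ) : ℝ) / 10000) (by decide +kernel)
        (n0 (by decide)) (nle (by decide)) le_rfl (by decide)
      have g2 := gL (be := 11000) (p := 1810) (G := 64176) (x := ((1700 : ℕ) : ℝ) / 10000) (by decide +kernel)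
        (n0 (by decide)) (nle (by decide)) le_rfl (by decide)
      have gm := gh_mono (x := ((1810 : ℕ) : ℝ) / 10000) (n0 (by decide)) ha h5
      unfold lin at h
      push_cast at h gm g0 g1 g2
      linarith only [neg_abs_le (gh x - gh xs), h, gm, g0, g1, g2]
    rcases le_total x (((1700 : ℕ) : ℝ) / 10000) with c1 | c1
    · have h := piP crs_b_1_pl1 hN hA hcl hcp c0 c1
      have g0 := gL (be := 11000) (p := 1700) (G := 67887) (by decide +kernel) x0 c1 le_rfl (by decide)
      have g1 := gL (be := 11000) (p := 1810) (G := 64176) (x := ((1700 : ℕ) : ℝ) / 10000) (by decide +kernel)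
        (n0 (by decide)) (nle (by decide)) le_rfl (by decide)
      have gm := gh_mono (x := ((1810 : ℕ) : ℝ) / 10000) (n0 (by decide)) ha h5
      unfold lin at h
      push_cast at h gm g0 g1
      linarith only [neg_abs_le (gh x - gh xs), h, gm, g0, g1]
    rcases le_total x (((1810 : ℕ) : ℝ) / 10000) with c2 | c2
    · have h := piP crs_b_1_pl2 hN hA hcl hcp c1 c2
      have g0 := gL (be := 11000) (p := 1810) (G := 64176) (by decide +kernel) x0 c2 le_rfl (by decide)
      have gm := gh_mono (x := ((1810 : ℕ) : ℝ) / 10000) (n0 (by decide)) ha h5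
      unfold lin at h
      push_cast at h gm g0
      linarith only [neg_abs_le (gh x - gh xs), h, gm, g0]
    rcases le_total x (((1890 : ℕ) : ℝ) / 10000) with ce | ce
    · have h := piP crs_b_1_pm hN hA hcl hcp c2 ce
      unfold lin at h
      push_cast at h
      linarith only [abs_nonneg (gh x - gh xs), h]
    have gm := gh_mono (y := ((1890 : ℕ) : ℝ) / 10000) hN.xs0 he (nhalf (by decide))
    have h := piP crs_b_1_pr0 hN hA hcl hcp ce hx1
    have g0 := gL (be := 11000) (p := 2700) (G := 46069) (x := ((1890 : ℕ) : ℝ) / 10000) (by decide +kernel)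
      (n0 (by decide)) ce hx1 (by decide)
    unfold lin at h
    push_cast at h gm g0
    linarith only [le_abs_self (gh x - gh xs), h, gm, g0]
  · have hx0 : ((1000 : ℕ) : ℝ) / 10000 ≤ x := le_trans (by norm_num) hA.x0
    have hx1 : x ≤ ((2700 : ℕ) : ℝ) / 10000 := le_trans hA.x1 (by norm_num)
    have gm := gh_mono ((n0 (by decide)).trans_le hx0) hx.le h5
    have ga := gU ua (by decide) le_rfl ha h5
    have g3 := gS4 kc (by decide) (by decide) le_rfl ha he hT
    push_cast at ga g3
    rcases le_total x (((1300 : ℕ) : ℝ) / 10000) with c0 | c0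
    · have h := piD1 crs_b_1_db0 hN hA hcl hcp (by decide) hx0 c0 ha
      have g0 := gU (be := 11000) (p := 1000) (G := 111831) (by decide +kernel) (by decide) hx0 c0
        (nhalf (by decide))
      have k1 := gU (be := 11000) (p := 1300) (G := 87015) (y := ((1700 : ℕ) : ℝ) / 10000) (by decide +kernel)
        (by decide) le_rfl (nle (by decide)) (nhalf (by decide))
      have k2 := gU (be := 11000) (p := 1700) (G := 67888) (y := ((1810 : ℕ) : ℝ) / 10000) (by decide +kernel)
        (by decide) le_rfl (nle (by decide)) (nhalf (by decide))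
      push_cast at h g0 k1 k2
      unfold lin at h
      push_cast at h
      exact dn_fin5 h gm (by linarith only [he, ga, g0, k1, k2]) (by linarith only [g3, g0, k1, k2])
    rcases le_total x (((1700 : ℕ) : ℝ) / 10000) with c1 | c1
    · have h := piD1 crs_b_1_db1 hN hA hcl hcp (by decide) c0 c1 ha
      have g0 := gU (be := 11000) (p := 1300) (G := 87015) (by decide +kernel) (by decide) c0 c1
        (nhalf (by decide))
      have k1 := gU (be := 11000) (p := 1700) (G := 67888) (y := ((1810 : ℕ) : ℝ) / 10000) (by decide +kernel)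
        (by decide) le_rfl (nle (by decide)) (nhalf (by decide))
      push_cast at h g0 k1
      unfold lin at h
      push_cast at h
      exact dn_fin5 h gm (by linarith only [he, ga, g0, k1]) (by linarith only [g3, g0, k1])
    rcases le_total x (((1810 : ℕ) : ℝ) / 10000) with c2 | c2
    · have h := piD1 crs_b_1_db2 hN hA hcl hcp (by decide) c1 c2 ha
      have g0 := gU (be := 11000) (p := 1700) (G := 67888) (by decide +kernel) (by decide) c1 c2
        (nhalf (by decide))
      push_cast at h g0
      unfold lin at h
      push_cast at h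
      exact dn_fin5 h gm (by linarith only [he, ga, g0]) (by linarith only [g3, g0])
    have h := piD0 crs_b_1_da hN hA hcl hcp (by decide) c2 (hx.le.trans he) hx.le
    have g1 := gU ua (by decide) c2 hx.le h5
    have g4 := gS4 kc (by decide) (by decide) c2 hx.le he hT
    unfold lin at h
    push_cast at h g1 g4
    exact dn_fin5 h gm (by linarith only [he, g1]) (by linarith only [g4])
  · have hx0 : ((1000 : ℕ) : ℝ) / 10000 ≤ x := le_trans (by norm_num) hA.x0
    have hx1 : x ≤ ((2700 : ℕ) : ℝ) / 10000 := le_trans hA.x1 (by norm_num)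
    have gm := gh_mono hN.xs0 hx.le (hx1.trans (nhalf (by decide)))
    rcases le_total x (((1890 : ℕ) : ℝ) / 10000) with ce | ce
    · have h := piU0 crs_b_1_ua hN hA hcl hcp (ha.trans hx.le) ce
      have g1 := gU ua (by decide) ha hx.le (hx1.trans (nhalf (by decide)))
      have g3 := gS4 kc (by decide) (by decide) ha hx.le ce hT
      unfold lin at h
      push_cast at h g1 g3
      exact up_fin5 h gm (by linarith only [ha, g1]) (by linarith only [g3])
    have ga := gU (y := ((1890 : ℕ) : ℝ) / 10000) ua (by decide) ha he (nhalf (by decide))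
    have g3 := gS4 kc (by decide) (by decide) ha he le_rfl hT
    push_cast at ga g3
    have h := piU1 crs_b_1_ub0 hN hA hcl hcp ce hx1
    have g0 := gU (be := 11000) (p := 1890) (G := 61767) (by decide +kernel) (by decide) le_rfl ce
      (hx1.trans (nhalf (by decide)))
    unfold lin at h
    push_cast at h g0
    exact up_fin5 h gm (by linarith only [ha, ga, g0]) (by linarith only [g3, g0])

theorem srs_b_2 {xs s T ρ : ℝ} (hW : RWp.In ⟨1730 / 10000, 2370 / 10000, 120 / 10000, 560 / 10000, 2000 / 10000, 2130 / 10000, 530 / 10000, 1045 / 10000, 4380 / 10000, 3560 / 10000, 140 / 10000, 730 / 10000, 22 / 10, 59 / 100⟩ xs s T ρ)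
    (ha : ((1890 : ℕ) : ℝ) / 10000 ≤ xs) (he : xs ≤ ((2050 : ℕ) : ℝ) / 10000) :
    RampOK (65 / 100) (14 / 100) (11 / 10) 4 xs (1 / 2 - s) T ρ (10 / 100) (27 / 100) := by
  have hN : Nm 4180 3560 4732 10 22 240 2000 140 730 1700 2140 530 1045 xs s T ρ := by
    obtain ⟨-, -, w1, w2, w3, w4, w5, w6, w7, w8, w9, w10, w11, w12⟩ := hW
    dsimp only at w1 w2 w3 w4 w6 w7 w8 w9 w10 w11 w12
    push_cast at ha he
    exact ⟨by linarith only [ha, w5, w7], by linarith only [he, w5, w7], by push_cast; linarith only [w3], by norm_num, by push_cast; linarith only [he, w4],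
      by norm_num, by push_cast; linarith only [w9], by norm_num, by push_cast; linarith only [he, w4, w5, w7, w11], by norm_num,
      by push_cast; linarith only [he, w3, w5, w7], by push_cast; linarith only [ha, w4], by norm_num, by push_cast; linarith only [w1],
      by push_cast; linarith only [w2], by push_cast; linarith only [w6], by push_cast; linarith only [w7], w5,
      fun _ => by push_cast; linarith only [w10], by push_cast; linarith only [w11]⟩
  have hT : |T| ≤ ((560 : ℕ) : ℝ) / 10000 := by
    have w1 := hW.t0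
    have w2 := hW.t1
    dsimp only at w1 w2
    rw [abs_le]
    push_cast
    constructor <;> linarith only [w1, w2]
  have kc : kC4 11000 1890 2050 560 0 = true := by decide +kernel
  have ua : kU 11000 1890 61767 = true := by decide +kernel
  have hcl : (0 : ℝ) < 10 / 100 := by norm_num
  have hcp : (27 / 100 : ℝ) < 1 / 2 := by norm_num
  have h5 := hN.xs1.le
  refine ⟨fun x y hA => ?_, fun x y hA hx => ?_, fun x y hA hx => ?_⟩
  · have hx0 : ((1000 : ℕ) : ℝ) / 10000 ≤ x := le_trans (by norm_num) hA.x0
    have hx1 : x ≤ ((2700 : ℕ) : ℝ) / 10000 := le_trans hA.x1 (by norm_num)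
    have x0 : 0 < x := (n0 (by decide)).trans_le hx0
    rcases le_total x (((1100 : ℕ) : ℝ) / 10000) with c0 | c0
    · have h := piP crs_b_2_pl0 hN hA hcl hcp hx0 c0
      have g0 := gL (be := 11000) (p := 1100) (G := 102018) (by decide +kernel) x0 c0 le_rfl (by decide)
      have g1 := gL (be := 11000) (p := 1200) (G := 93874) (x := ((1100 : ℕ) : ℝ) / 10000) (by decide +kernel)
        (n0 (by decide)) (nle (by decide)) le_rfl (by decide)
      have g2 := gL (be := 11000) (p := 1300) (G := 87014) (x := ((1200 : ℕ) : ℝ) / 10000) (by decide +kernel)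
        (n0 (by decide)) (nle (by decide)) le_rfl (by decide)
      have g3 := gL (be := 11000) (p := 1400) (G := 81162) (x := ((1300 : ℕ) : ℝ) / 10000) (by decide +kernel)
        (n0 (by decide)) (nle (by decide)) le_rfl (by decide)
      have g4 := gL (be := 11000) (p := 1500) (G := 76119) (x := ((1400 : ℕ) : ℝ) / 10000) (by decide +kernel)
        (n0 (by decide)) (nle (by decide)) le_rfl (by decide)
      have g5 := gL (be := 11000) (p := 1600) (G := 71732) (x := ((1500 : ℕ) : ℝ) / 10000) (by decide +kernel)
        (n0 (by decide)) (nle (by decide)) le_rfl (by decide)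
      have g6 := gL (be := 11000) (p := 1700) (G := 67887) (x := ((1600 : ℕ) : ℝ) / 10000) (by decide +kernel)
        (n0 (by decide)) (nle (by decide)) le_rfl (by decide)
      have g7 := gL (be := 11000) (p := 1800) (G := 64493) (x := ((1700 : ℕ) : ℝ) / 10000) (by decide +kernel)
        (n0 (by decide)) (nle (by decide)) le_rfl (by decide)
      have g8 := gL (be := 11000) (p := 1890) (G := 61766) (x := ((1800 : ℕ) : ℝ) / 10000) (by decide +kernel)
        (n0 (by decide)) (nle (by decide)) le_rfl (by decide)
      have gm := gh_mono (x := ((1890 : ℕ) : ℝ) / 10000) (n0 (by decide)) ha h5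
      unfold lin at h
      push_cast at h gm g0 g1 g2 g3 g4 g5 g6 g7 g8
      linarith only [neg_abs_le (gh x - gh xs), h, gm, g0, g1, g2, g3, g4, g5, g6, g7, g8]
    rcases le_total x (((1200 : ℕ) : ℝ) / 10000) with c1 | c1
    · have h := piP crs_b_2_pl1 hN hA hcl hcp c0 c1
      have g0 := gL (be := 11000) (p := 1200) (G := 93874) (by decide +kernel) x0 c1 le_rfl (by decide)
      have g1 := gL (be := 11000) (p := 1300) (G := 87014) (x := ((1200 : ℕ) : ℝ) / 10000) (by decide +kernel)
        (n0 (by decide)) (nle (by decide)) le_rfl (by decide)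
      have g2 := gL (be := 11000) (p := 1400) (G := 81162) (x := ((1300 : ℕ) : ℝ) / 10000) (by decide +kernel)
        (n0 (by decide)) (nle (by decide)) le_rfl (by decide)
      have g3 := gL (be := 11000) (p := 1500) (G := 76119) (x := ((1400 : ℕ) : ℝ) / 10000) (by decide +kernel)
        (n0 (by decide)) (nle (by decide)) le_rfl (by decide)
      have g4 := gL (be := 11000) (p := 1600) (G := 71732) (x := ((1500 : ℕ) : ℝ) / 10000) (by decide +kernel)
        (n0 (by decide)) (nle (by decide)) le_rfl (by decide)
      have g5 := gL (be := 11000) (p := 1700) (G := 67887) (x := ((1600 : ℕ) : ℝ) / 10000) (by decide +kernel)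
        (n0 (by decide)) (nle (by decide)) le_rfl (by decide)
      have g6 := gL (be := 11000) (p := 1800) (G := 64493) (x := ((1700 : ℕ) : ℝ) / 10000) (by decide +kernel)
        (n0 (by decide)) (nle (by decide)) le_rfl (by decide)
      have g7 := gL (be := 11000) (p := 1890) (G := 61766) (x := ((1800 : ℕ) : ℝ) / 10000) (by decide +kernel)
        (n0 (by decide)) (nle (by decide)) le_rfl (by decide)
      have gm := gh_mono (x := ((1890 : ℕ) : ℝ) / 10000) (n0 (by decide)) ha h5
      unfold lin at h
      push_cast at h gm g0 g1 g2 g3 g4 g5 g6 g7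
      linarith only [neg_abs_le (gh x - gh xs), h, gm, g0, g1, g2, g3, g4, g5, g6, g7]
    rcases le_total x (((1300 : ℕ) : ℝ) / 10000) with c2 | c2
    · have h := piP crs_b_2_pl2 hN hA hcl hcp c1 c2
      have g0 := gL (be := 11000) (p := 1300) (G := 87014) (by decide +kernel) x0 c2 le_rfl (by decide)
      have g1 := gL (be := 11000) (p := 1400) (G := 81162) (x := ((1300 : ℕ) : ℝ) / 10000) (by decide +kernel)
        (n0 (by decide)) (nle (by decide)) le_rfl (by decide)
      have g2 := gL (be := 11000) (p := 1500) (G := 76119) (x := ((1400 : ℕ) : ℝ) / 10000) (by decide +kernel)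
        (n0 (by decide)) (nle (by decide)) le_rfl (by decide)
      have g3 := gL (be := 11000) (p := 1600) (G := 71732) (x := ((1500 : ℕ) : ℝ) / 10000) (by decide +kernel)
        (n0 (by decide)) (nle (by decide)) le_rfl (by decide)
      have g4 := gL (be := 11000) (p := 1700) (G := 67887) (x := ((1600 : ℕ) : ℝ) / 10000) (by decide +kernel)
        (n0 (by decide)) (nle (by decide)) le_rfl (by decide)
      have g5 := gL (be := 11000) (p := 1800) (G := 64493) (x := ((1700 : ℕ) : ℝ) / 10000) (by decide +kernel)
        (n0 (by decide)) (nle (by decide)) le_rfl (by decide)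
      have g6 := gL (be := 11000) (p := 1890) (G := 61766) (x := ((1800 : ℕ) : ℝ) / 10000) (by decide +kernel)
        (n0 (by decide)) (nle (by decide)) le_rfl (by decide)
      have gm := gh_mono (x := ((1890 : ℕ) : ℝ) / 10000) (n0 (by decide)) ha h5
      unfold lin at h
      push_cast at h gm g0 g1 g2 g3 g4 g5 g6
      linarith only [neg_abs_le (gh x - gh xs), h, gm, g0, g1, g2, g3, g4, g5, g6]
    rcases le_total x (((1400 : ℕ) : ℝ) / 10000) with c3 | c3
    · have h := piP crs_b_2_pl3 hN hA hcl hcp c2 c3
      have g0 := gL (be := 11000) (p := 1400) (G := 81162) (by decide +kernel) x0 c3 le_rfl (by decide)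
      have g1 := gL (be := 11000) (p := 1500) (G := 76119) (x := ((1400 : ℕ) : ℝ) / 10000) (by decide +kernel)
        (n0 (by decide)) (nle (by decide)) le_rfl (by decide)
      have g2 := gL (be := 11000) (p := 1600) (G := 71732) (x := ((1500 : ℕ) : ℝ) / 10000) (by decide +kernel)
        (n0 (by decide)) (nle (by decide)) le_rfl (by decide)
      have g3 := gL (be := 11000) (p := 1700) (G := 67887) (x := ((1600 : ℕ) : ℝ) / 10000) (by decide +kernel)
        (n0 (by decide)) (nle (by decide)) le_rfl (by decide)
      have g4 := gL (be := 11000) (p := 1800) (G := 64493) (x := ((1700 : ℕ) : ℝ) / 10000) (by decide +kernel)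
        (n0 (by decide)) (nle (by decide)) le_rfl (by decide)
      have g5 := gL (be := 11000) (p := 1890) (G := 61766) (x := ((1800 : ℕ) : ℝ) / 10000) (by decide +kernel)
        (n0 (by decide)) (nle (by decide)) le_rfl (by decide)
      have gm := gh_mono (x := ((1890 : ℕ) : ℝ) / 10000) (n0 (by decide)) ha h5
      unfold lin at h
      push_cast at h gm g0 g1 g2 g3 g4 g5
      linarith only [neg_abs_le (gh x - gh xs), h, gm, g0, g1, g2, g3, g4, g5]
    rcases le_total x (((1500 : ℕ) : ℝ) / 10000) with c4 | c4
    · have h := piP crs_b_2_pl4 hN hA hcl hcp c3 c4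
      have g0 := gL (be := 11000) (p := 1500) (G := 76119) (by decide +kernel) x0 c4 le_rfl (by decide)
      have g1 := gL (be := 11000) (p := 1600) (G := 71732) (x := ((1500 : ℕ) : ℝ) / 10000) (by decide +kernel)
        (n0 (by decide)) (nle (by decide)) le_rfl (by decide)
      have g2 := gL (be := 11000) (p := 1700) (G := 67887) (x := ((1600 : ℕ) : ℝ) / 10000) (by decide +kernel)
        (n0 (by decide)) (nle (by decide)) le_rfl (by decide)
      have g3 := gL (be := 11000) (p := 1800) (G := 64493) (x := ((1700 : ℕ) : ℝ) / 10000) (by decide +kernel)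
        (n0 (by decide)) (nle (by decide)) le_rfl (by decide)
      have g4 := gL (be := 11000) (p := 1890) (G := 61766) (x := ((1800 : ℕ) : ℝ) / 10000) (by decide +kernel)
        (n0 (by decide)) (nle (by decide)) le_rfl (by decide)
      have gm := gh_mono (x := ((1890 : ℕ) : ℝ) / 10000) (n0 (by decide)) ha h5
      unfold lin at h
      push_cast at h gm g0 g1 g2 g3 g4
      linarith only [neg_abs_le (gh x - gh xs), h, gm, g0, g1, g2, g3, g4]
    rcases le_total x (((1600 : ℕ) : ℝ) / 10000) with c5 | c5
    · have h := piP crs_b_2_pl5 hN hA hcl hcp c4 c5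
      have g0 := gL (be := 11000) (p := 1600) (G := 71732) (by decide +kernel) x0 c5 le_rfl (by decide)
      have g1 := gL (be := 11000) (p := 1700) (G := 67887) (x := ((1600 : ℕ) : ℝ) / 10000) (by decide +kernel)
        (n0 (by decide)) (nle (by decide)) le_rfl (by decide)
      have g2 := gL (be := 11000) (p := 1800) (G := 64493) (x := ((1700 : ℕ) : ℝ) / 10000) (by decide +kernel)
        (n0 (by decide)) (nle (by decide)) le_rfl (by decide)
      have g3 := gL (be := 11000) (p := 1890) (G := 61766) (x := ((1800 : ℕ) : ℝ) / 10000) (by decide +kernel)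
        (n0 (by decide)) (nle (by decide)) le_rfl (by decide)
      have gm := gh_mono (x := ((1890 : ℕ) : ℝ) / 10000) (n0 (by decide)) ha h5
      unfold lin at h
      push_cast at h gm g0 g1 g2 g3
      linarith only [neg_abs_le (gh x - gh xs), h, gm, g0, g1, g2, g3]
    rcases le_total x (((1700 : ℕ) : ℝ) / 10000) with c6 | c6
    · have h := piP crs_b_2_pl6 hN hA hcl hcp c5 c6
      have g0 := gL (be := 11000) (p := 1700) (G := 67887) (by decide +kernel) x0 c6 le_rfl (by decide)
      have g1 := gL (be := 11000) (p := 1800) (G := 64493) (x := ((1700 : ℕ) : ℝ) / 10000) (by decide +kernel)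
        (n0 (by decide)) (nle (by decide)) le_rfl (by decide)
      have g2 := gL (be := 11000) (p := 1890) (G := 61766) (x := ((1800 : ℕ) : ℝ) / 10000) (by decide +kernel)
        (n0 (by decide)) (nle (by decide)) le_rfl (by decide)
      have gm := gh_mono (x := ((1890 : ℕ) : ℝ) / 10000) (n0 (by decide)) ha h5
      unfold lin at h
      push_cast at h gm g0 g1 g2
      linarith only [neg_abs_le (gh x - gh xs), h, gm, g0, g1, g2]
    rcases le_total x (((1800 : ℕ) : ℝ) / 10000) with c7 | c7
    · have h := piP crs_b_2_pl7 hN hA hcl hcp c6 c7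
      have g0 := gL (be := 11000) (p := 1800) (G := 64493) (by decide +kernel) x0 c7 le_rfl (by decide)
      have g1 := gL (be := 11000) (p := 1890) (G := 61766) (x := ((1800 : ℕ) : ℝ) / 10000) (by decide +kernel)
        (n0 (by decide)) (nle (by decide)) le_rfl (by decide)
      have gm := gh_mono (x := ((1890 : ℕ) : ℝ) / 10000) (n0 (by decide)) ha h5
      unfold lin at h
      push_cast at h gm g0 g1
      linarith only [neg_abs_le (gh x - gh xs), h, gm, g0, g1]
    rcases le_total x (((1890 : ℕ) : ℝ) / 10000) with c8 | c8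
    · have h := piP crs_b_2_pl8 hN hA hcl hcp c7 c8
      have g0 := gL (be := 11000) (p := 1890) (G := 61766) (by decide +kernel) x0 c8 le_rfl (by decide)
      have gm := gh_mono (x := ((1890 : ℕ) : ℝ) / 10000) (n0 (by decide)) ha h5
      unfold lin at h
      push_cast at h gm g0
      linarith only [neg_abs_le (gh x - gh xs), h, gm, g0]
    rcases le_total x (((2050 : ℕ) : ℝ) / 10000) with ce | ce
    · have h := piP crs_b_2_pm hN hA hcl hcp c8 ce
      unfold lin at h
      push_cast at h
      linarith only [abs_nonneg (gh x - gh xs), h]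
    have gm := gh_mono (y := ((2050 : ℕ) : ℝ) / 10000) hN.xs0 he (nhalf (by decide))
    have h := piP crs_b_2_pr0 hN hA hcl hcp ce hx1
    have g0 := gL (be := 11000) (p := 2700) (G := 46069) (x := ((2050 : ℕ) : ℝ) / 10000) (by decide +kernel)
      (n0 (by decide)) ce hx1 (by decide)
    unfold lin at h
    push_cast at h gm g0
    linarith only [le_abs_self (gh x - gh xs), h, gm, g0]
  · have hx0 : ((1000 : ℕ) : ℝ) / 10000 ≤ x := le_trans (by norm_num) hA.x0
    have hx1 : x ≤ ((2700 : ℕ) : ℝ) / 10000 := le_trans hA.x1 (by norm_num)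
    have gm := gh_mono ((n0 (by decide)).trans_le hx0) hx.le h5
    have ga := gU ua (by decide) le_rfl ha h5
    have g3 := gS4 kc (by decide) (by decide) le_rfl ha he hT
    push_cast at ga g3
    rcases le_total x (((1200 : ℕ) : ℝ) / 10000) with c0 | c0
    · have h := piD1 crs_b_2_db0 hN hA hcl hcp (by decide) hx0 c0 ha
      have g0 := gU (be := 11000) (p := 1000) (G := 111831) (by decide +kernel) (by decide) hx0 c0
        (nhalf (by decide))
      have k1 := gU (be := 11000) (p := 1200) (G := 93875) (y := ((1400 : ℕ) : ℝ) / 10000) (by decide +kernel)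
        (by decide) le_rfl (nle (by decide)) (nhalf (by decide))
      have k2 := gU (be := 11000) (p := 1400) (G := 81163) (y := ((1700 : ℕ) : ℝ) / 10000) (by decide +kernel)
        (by decide) le_rfl (nle (by decide)) (nhalf (by decide))
      have k3 := gU (be := 11000) (p := 1700) (G := 67888) (y := ((1890 : ℕ) : ℝ) / 10000) (by decide +kernel)
        (by decide) le_rfl (nle (by decide)) (nhalf (by decide))
      push_cast at h g0 k1 k2 k3
      unfold lin at h
      push_cast at h
      exact dn_fin5 h gm (by linarith only [he, ga, g0, k1, k2, k3]) (by linarith only [g3, g0, k1, k2, k3])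
    rcases le_total x (((1400 : ℕ) : ℝ) / 10000) with c1 | c1
    · have h := piD1 crs_b_2_db1 hN hA hcl hcp (by decide) c0 c1 ha
      have g0 := gU (be := 11000) (p := 1200) (G := 93875) (by decide +kernel) (by decide) c0 c1
        (nhalf (by decide))
      have k1 := gU (be := 11000) (p := 1400) (G := 81163) (y := ((1700 : ℕ) : ℝ) / 10000) (by decide +kernel)
        (by decide) le_rfl (nle (by decide)) (nhalf (by decide))
      have k2 := gU (be := 11000) (p := 1700) (G := 67888) (y := ((1890 : ℕ) : ℝ) / 10000) (by decide +kernel)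
        (by decide) le_rfl (nle (by decide)) (nhalf (by decide))
      push_cast at h g0 k1 k2
      unfold lin at h
      push_cast at h
      exact dn_fin5 h gm (by linarith only [he, ga, g0, k1, k2]) (by linarith only [g3, g0, k1, k2])
    rcases le_total x (((1700 : ℕ) : ℝ) / 10000) with c2 | c2
    · have h := piD1 crs_b_2_db2 hN hA hcl hcp (by decide) c1 c2 ha
      have g0 := gU (be := 11000) (p := 1400) (G := 81163) (by decide +kernel) (by decide) c1 c2
        (nhalf (by decide))
      have k1 := gU (be := 11000) (p := 1700) (G := 67888) (y := ((1890 : ℕ) : ℝ) / 10000) (by decide +kernel)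
        (by decide) le_rfl (nle (by decide)) (nhalf (by decide))
      push_cast at h g0 k1
      unfold lin at h
      push_cast at h
      exact dn_fin5 h gm (by linarith only [he, ga, g0, k1]) (by linarith only [g3, g0, k1])
    rcases le_total x (((1890 : ℕ) : ℝ) / 10000) with c3 | c3
    · have h := piD1 crs_b_2_db3 hN hA hcl hcp (by decide) c2 c3 ha
      have g0 := gU (be := 11000) (p := 1700) (G := 67888) (by decide +kernel) (by decide) c2 c3
        (nhalf (by decide))
      push_cast at h g0
      unfold lin at h
      push_cast at h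
      exact dn_fin5 h gm (by linarith only [he, ga, g0]) (by linarith only [g3, g0])
    have h := piD0 crs_b_2_da hN hA hcl hcp (by decide) c3 (hx.le.trans he) hx.le
    have g1 := gU ua (by decide) c3 hx.le h5
    have g4 := gS4 kc (by decide) (by decide) c3 hx.le he hT
    unfold lin at h
    push_cast at h g1 g4
    exact dn_fin5 h gm (by linarith only [he, g1]) (by linarith only [g4])
  · have hx0 : ((1000 : ℕ) : ℝ) / 10000 ≤ x := le_trans (by norm_num) hA.x0
    have hx1 : x ≤ ((2700 : ℕ) : ℝ) / 10000 := le_trans hA.x1 (by norm_num)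
    have gm := gh_mono hN.xs0 hx.le (hx1.trans (nhalf (by decide)))
    rcases le_total x (((2050 : ℕ) : ℝ) / 10000) with ce | ce
    · have h := piU0 crs_b_2_ua hN hA hcl hcp (ha.trans hx.le) ce
      have g1 := gU ua (by decide) ha hx.le (hx1.trans (nhalf (by decide)))
      have g3 := gS4 kc (by decide) (by decide) ha hx.le ce hT
      unfold lin at h
      push_cast at h g1 g3
      exact up_fin5 h gm (by linarith only [ha, g1]) (by linarith only [g3])
    have ga := gU (y := ((2050 : ℕ) : ℝ) / 10000) ua (by decide) ha he (nhalf (by decide))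
    have g3 := gS4 kc (by decide) (by decide) ha he le_rfl hT
    push_cast at ga g3
    have h := piU1 crs_b_2_ub0 hN hA hcl hcp ce hx1
    have g0 := gU (be := 11000) (p := 2050) (G := 57556) (by decide +kernel) (by decide) le_rfl ce
      (hx1.trans (nhalf (by decide)))
    unfold lin at h
    push_cast at h g0
    exact up_fin5 h gm (by linarith only [ha, ga, g0]) (by linarith only [g3, g0])

theorem srs_b_3 {xs s T ρ : ℝ} (hW : RWp.In ⟨1730 / 10000, 2370 / 10000, 120 / 10000, 560 / 10000, 2000 / 10000, 2130 / 10000, 530 / 10000, 1045 / 10000, 4380 / 10000, 3560 / 10000, 140 / 10000, 730 / 10000, 22 / 10, 59 / 100⟩ xs s T ρ)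
    (ha : ((2050 : ℕ) : ℝ) / 10000 ≤ xs) (he : xs ≤ ((2130 : ℕ) : ℝ) / 10000) :
    RampOK (65 / 100) (14 / 100) (11 / 10) 4 xs (1 / 2 - s) T ρ (10 / 100) (27 / 100) := by
  have hN : Nm 4260 3560 4812 10 22 130 2000 140 730 1700 2140 530 1045 xs s T ρ := by
    obtain ⟨-, -, w1, w2, w3, w4, w5, w6, w7, w8, w9, w10, w11, w12⟩ := hW
    dsimp only at w1 w2 w3 w4 w6 w7 w8 w9 w10 w11 w12
    push_cast at ha he
    exact ⟨by linarith only [ha, w5, w7], by linarith only [he, w5, w7], by push_cast; linarith only [w3], by norm_num, by push_cast; linarith only [he, w4],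
      by norm_num, by push_cast; linarith only [w9], by norm_num, by push_cast; linarith only [he, w4, w5, w7, w11], by norm_num,
      by push_cast; linarith only [he, w3], by push_cast; linarith only [ha, w4, w5, w7], by norm_num, by push_cast; linarith only [w1],
      by push_cast; linarith only [w2], by push_cast; linarith only [w6], by push_cast; linarith only [w7], w5,
      fun _ => by push_cast; linarith only [w10], by push_cast; linarith only [w11]⟩
  have hT : |T| ≤ ((560 : ℕ) : ℝ) / 10000 := by
    have w1 := hW.t0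
    have w2 := hW.t1
    dsimp only at w1 w2
    rw [abs_le]
    push_cast
    constructor <;> linarith only [w1, w2]
  have kc : kC4 11000 2050 2130 560 0 = true := by decide +kernel
  have ua : kU 11000 2050 57556 = true := by decide +kernel
  have hcl : (0 : ℝ) < 10 / 100 := by norm_num
  have hcp : (27 / 100 : ℝ) < 1 / 2 := by norm_num
  have h5 := hN.xs1.le
  refine ⟨fun x y hA => ?_, fun x y hA hx => ?_, fun x y hA hx => ?_⟩
  · have hx0 : ((1000 : ℕ) : ℝ) / 10000 ≤ x := le_trans (by norm_num) hA.x0
    have hx1 : x ≤ ((2700 : ℕ) : ℝ) / 10000 := le_trans hA.x1 (by norm_num)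
    have x0 : 0 < x := (n0 (by decide)).trans_le hx0
    rcases le_total x (((1200 : ℕ) : ℝ) / 10000) with c0 | c0
    · have h := piP crs_b_3_pl0 hN hA hcl hcp hx0 c0
      have g0 := gL (be := 11000) (p := 1200) (G := 93874) (by decide +kernel) x0 c0 le_rfl (by decide)
      have g1 := gL (be := 11000) (p := 1400) (G := 81162) (x := ((1200 : ℕ) : ℝ) / 10000) (by decide +kernel)
        (n0 (by decide)) (nle (by decide)) le_rfl (by decide)
      have g2 := gL (be := 11000) (p := 1700) (G := 67887) (x := ((1400 : ℕ) : ℝ) / 10000) (by decide +kernel)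
        (n0 (by decide)) (nle (by decide)) le_rfl (by decide)
      have g3 := gL (be := 11000) (p := 2050) (G := 57555) (x := ((1700 : ℕ) : ℝ) / 10000) (by decide +kernel)
        (n0 (by decide)) (nle (by decide)) le_rfl (by decide)
      have gm := gh_mono (x := ((2050 : ℕ) : ℝ) / 10000) (n0 (by decide)) ha h5
      unfold lin at h
      push_cast at h gm g0 g1 g2 g3
      linarith only [neg_abs_le (gh x - gh xs), h, gm, g0, g1, g2, g3]
    rcases le_total x (((1400 : ℕ) : ℝ) / 10000) with c1 | c1
    · have h := piP crs_b_3_pl1 hN hA hcl hcp c0 c1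
      have g0 := gL (be := 11000) (p := 1400) (G := 81162) (by decide +kernel) x0 c1 le_rfl (by decide)
      have g1 := gL (be := 11000) (p := 1700) (G := 67887) (x := ((1400 : ℕ) : ℝ) / 10000) (by decide +kernel)
        (n0 (by decide)) (nle (by decide)) le_rfl (by decide)
      have g2 := gL (be := 11000) (p := 2050) (G := 57555) (x := ((1700 : ℕ) : ℝ) / 10000) (by decide +kernel)
        (n0 (by decide)) (nle (by decide)) le_rfl (by decide)
      have gm := gh_mono (x := ((2050 : ℕ) : ℝ) / 10000) (n0 (by decide)) ha h5
      unfold lin at h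
      push_cast at h gm g0 g1 g2
      linarith only [neg_abs_le (gh x - gh xs), h, gm, g0, g1, g2]
    rcases le_total x (((1700 : ℕ) : ℝ) / 10000) with c2 | c2
    · have h := piP crs_b_3_pl2 hN hA hcl hcp c1 c2
      have g0 := gL (be := 11000) (p := 1700) (G := 67887) (by decide +kernel) x0 c2 le_rfl (by decide)
      have g1 := gL (be := 11000) (p := 2050) (G := 57555) (x := ((1700 : ℕ) : ℝ) / 10000) (by decide +kernel)
        (n0 (by decide)) (nle (by decide)) le_rfl (by decide)
      have gm := gh_mono (x := ((2050 : ℕ) : ℝ) / 10000) (n0 (by decide)) ha h5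
      unfold lin at h
      push_cast at h gm g0 g1
      linarith only [neg_abs_le (gh x - gh xs), h, gm, g0, g1]
    rcases le_total x (((2050 : ℕ) : ℝ) / 10000) with c3 | c3
    · have h := piP crs_b_3_pl3 hN hA hcl hcp c2 c3
      have g0 := gL (be := 11000) (p := 2050) (G := 57555) (by decide +kernel) x0 c3 le_rfl (by decide)
      have gm := gh_mono (x := ((2050 : ℕ) : ℝ) / 10000) (n0 (by decide)) ha h5
      unfold lin at h
      push_cast at h gm g0
      linarith only [neg_abs_le (gh x - gh xs), h, gm, g0]
    rcases le_total x (((2130 : ℕ) : ℝ) / 10000) with ce | ce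
    · have h := piP crs_b_3_pm hN hA hcl hcp c3 ce
      unfold lin at h
      push_cast at h
      linarith only [abs_nonneg (gh x - gh xs), h]
    have gm := gh_mono (y := ((2130 : ℕ) : ℝ) / 10000) hN.xs0 he (nhalf (by decide))
    have h := piP crs_b_3_pr0 hN hA hcl hcp ce hx1
    have g0 := gL (be := 11000) (p := 2700) (G := 46069) (x := ((2130 : ℕ) : ℝ) / 10000) (by decide +kernel)
      (n0 (by decide)) ce hx1 (by decide)
    unfold lin at h
    push_cast at h gm g0
    linarith only [le_abs_self (gh x - gh xs), h, gm, g0]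
  · have hx0 : ((1000 : ℕ) : ℝ) / 10000 ≤ x := le_trans (by norm_num) hA.x0
    have hx1 : x ≤ ((2700 : ℕ) : ℝ) / 10000 := le_trans hA.x1 (by norm_num)
    have gm := gh_mono ((n0 (by decide)).trans_le hx0) hx.le h5
    have ga := gU ua (by decide) le_rfl ha h5
    have g3 := gS4 kc (by decide) (by decide) le_rfl ha he hT
    push_cast at ga g3
    rcases le_total x (((1300 : ℕ) : ℝ) / 10000) with c0 | c0
    · have h := piD1 crs_b_3_db0 hN hA hcl hcp (by decide) hx0 c0 ha
      have g0 := gU (be := 11000) (p := 1000) (G := 111831) (by decide +kernel) (by decide) hx0 c0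
        (nhalf (by decide))
      have k1 := gU (be := 11000) (p := 1300) (G := 87015) (y := ((1700 : ℕ) : ℝ) / 10000) (by decide +kernel)
        (by decide) le_rfl (nle (by decide)) (nhalf (by decide))
      have k2 := gU (be := 11000) (p := 1700) (G := 67888) (y := ((2050 : ℕ) : ℝ) / 10000) (by decide +kernel)
        (by decide) le_rfl (nle (by decide)) (nhalf (by decide))
      push_cast at h g0 k1 k2
      unfold lin at h
      push_cast at h
      exact dn_fin5 h gm (by linarith only [he, ga, g0, k1, k2]) (by linarith only [g3, g0, k1, k2])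
    rcases le_total x (((1700 : ℕ) : ℝ) / 10000) with c1 | c1
    · have h := piD1 crs_b_3_db1 hN hA hcl hcp (by decide) c0 c1 ha
      have g0 := gU (be := 11000) (p := 1300) (G := 87015) (by decide +kernel) (by decide) c0 c1
        (nhalf (by decide))
      have k1 := gU (be := 11000) (p := 1700) (G := 67888) (y := ((2050 : ℕ) : ℝ) / 10000) (by decide +kernel)
        (by decide) le_rfl (nle (by decide)) (nhalf (by decide))
      push_cast at h g0 k1
      unfold lin at h
      push_cast at h
      exact dn_fin5 h gm (by linarith only [he, ga, g0, k1]) (by linarith only [g3, g0, k1])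
    rcases le_total x (((2050 : ℕ) : ℝ) / 10000) with c2 | c2
    · have h := piD1 crs_b_3_db2 hN hA hcl hcp (by decide) c1 c2 ha
      have g0 := gU (be := 11000) (p := 1700) (G := 67888) (by decide +kernel) (by decide) c1 c2
        (nhalf (by decide))
      push_cast at h g0
      unfold lin at h
      push_cast at h
      exact dn_fin5 h gm (by linarith only [he, ga, g0]) (by linarith only [g3, g0])
    have h := piD0 crs_b_3_da hN hA hcl hcp (by decide) c2 (hx.le.trans he) hx.le
    have g1 := gU ua (by decide) c2 hx.le h5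
    have g4 := gS4 kc (by decide) (by decide) c2 hx.le he hT
    unfold lin at h
    push_cast at h g1 g4
    exact dn_fin5 h gm (by linarith only [he, g1]) (by linarith only [g4])
  · have hx0 : ((1000 : ℕ) : ℝ) / 10000 ≤ x := le_trans (by norm_num) hA.x0
    have hx1 : x ≤ ((2700 : ℕ) : ℝ) / 10000 := le_trans hA.x1 (by norm_num)
    have gm := gh_mono hN.xs0 hx.le (hx1.trans (nhalf (by decide)))
    rcases le_total x (((2130 : ℕ) : ℝ) / 10000) with ce | ce
    · have h := piU0 crs_b_3_ua hN hA hcl hcp (ha.trans hx.le) ce
      have g1 := gU ua (by decide) ha hx.le (hx1.trans (nhalf (by decide)))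
      have g3 := gS4 kc (by decide) (by decide) ha hx.le ce hT
      unfold lin at h
      push_cast at h g1 g3
      exact up_fin5 h gm (by linarith only [ha, g1]) (by linarith only [g3])
    have ga := gU (y := ((2130 : ℕ) : ℝ) / 10000) ua (by decide) ha he (nhalf (by decide))
    have g3 := gS4 kc (by decide) (by decide) ha he le_rfl hT
    push_cast at ga g3
    have h := piU1 crs_b_3_ub0 hN hA hcl hcp ce hx1
    have g0 := gU (be := 11000) (p := 2130) (G := 55709) (by decide +kernel) (by decide) le_rfl ce
      (hx1.trans (nhalf (by decide)))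
    unfold lin at h
    push_cast at h g0
    exact up_fin5 h gm (by linarith only [ha, ga, g0]) (by linarith only [g3, g0])

theorem srs_b_4 {xs s T ρ : ℝ} (hW : RWp.In ⟨1730 / 10000, 2370 / 10000, 120 / 10000, 560 / 10000, 2000 / 10000, 2130 / 10000, 530 / 10000, 1045 / 10000, 4380 / 10000, 3560 / 10000, 140 / 10000, 730 / 10000, 22 / 10, 59 / 100⟩ xs s T ρ)
    (ha : ((2130 : ℕ) : ℝ) / 10000 ≤ xs) (he : xs ≤ ((2210 : ℕ) : ℝ) / 10000) :
    RampOK (65 / 100) (14 / 100) (11 / 10) 4 xs (1 / 2 - s) T ρ (10 / 100) (27 / 100) := by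
  have hN : Nm 4340 3560 4892 10 22 210 2000 140 730 1700 2140 570 1045 xs s T ρ := by
    obtain ⟨-, -, w1, w2, w3, w4, w5, w6, w7, w8, w9, w10, w11, w12⟩ := hW
    dsimp only at w1 w2 w3 w4 w6 w7 w8 w9 w10 w11 w12
    push_cast at ha he
    exact ⟨by linarith only [ha, w5, w7], by linarith only [he, w5, w7], by push_cast; linarith only [w3], by norm_num, by push_cast; linarith only [he, w4],
      by norm_num, by push_cast; linarith only [w9], by norm_num, by push_cast; linarith only [he, w4, w5, w7, w11], by norm_num,
      by push_cast; linarith only [he, w3], by push_cast; linarith only [ha, w4, w5, w7], by norm_num, by push_cast; linarith only [w1],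
      by push_cast; linarith only [w2], by push_cast; linarith only [ha, w3, w9], by push_cast; linarith only [w7], w5,
      fun _ => by push_cast; linarith only [w10], by push_cast; linarith only [w11]⟩
  have hT : |T| ≤ ((560 : ℕ) : ℝ) / 10000 := by
    have w1 := hW.t0
    have w2 := hW.t1
    dsimp only at w1 w2
    rw [abs_le]
    push_cast
    constructor <;> linarith only [w1, w2]
  have kc : kC4 11000 2130 2210 560 0 = true := by decide +kernel
  have ua : kU 11000 2130 55709 = true := by decide +kernel
  have hcl : (0 : ℝ) < 10 / 100 := by norm_num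
  have hcp : (27 / 100 : ℝ) < 1 / 2 := by norm_num
  have h5 := hN.xs1.le
  refine ⟨fun x y hA => ?_, fun x y hA hx => ?_, fun x y hA hx => ?_⟩
  · have hx0 : ((1000 : ℕ) : ℝ) / 10000 ≤ x := le_trans (by norm_num) hA.x0
    have hx1 : x ≤ ((2700 : ℕ) : ℝ) / 10000 := le_trans hA.x1 (by norm_num)
    have x0 : 0 < x := (n0 (by decide)).trans_le hx0
    rcases le_total x (((1100 : ℕ) : ℝ) / 10000) with c0 | c0
    · have h := piP crs_b_4_pl0 hN hA hcl hcp hx0 c0
      have g0 := gL (be := 11000) (p := 1100) (G := 102018) (by decide +kernel) x0 c0 le_rfl (by decide)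
      have g1 := gL (be := 11000) (p := 1200) (G := 93874) (x := ((1100 : ℕ) : ℝ) / 10000) (by decide +kernel)
        (n0 (by decide)) (nle (by decide)) le_rfl (by decide)
      have g2 := gL (be := 11000) (p := 1350) (G := 83976) (x := ((1200 : ℕ) : ℝ) / 10000) (by decide +kernel)
        (n0 (by decide)) (nle (by decide)) le_rfl (by decide)
      have g3 := gL (be := 11000) (p := 1500) (G := 76119) (x := ((1350 : ℕ) : ℝ) / 10000) (by decide +kernel)
        (n0 (by decide)) (nle (by decide)) le_rfl (by decide)
      have g4 := gL (be := 11000) (p := 1700) (G := 67887) (x := ((1500 : ℕ) : ℝ) / 10000) (by decide +kernel)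
        (n0 (by decide)) (nle (by decide)) le_rfl (by decide)
      have g5 := gL (be := 11000) (p := 1900) (G := 61481) (x := ((1700 : ℕ) : ℝ) / 10000) (by decide +kernel)
        (n0 (by decide)) (nle (by decide)) le_rfl (by decide)
      have g6 := gL (be := 11000) (p := 2130) (G := 55708) (x := ((1900 : ℕ) : ℝ) / 10000) (by decide +kernel)
        (n0 (by decide)) (nle (by decide)) le_rfl (by decide)
      have gm := gh_mono (x := ((2130 : ℕ) : ℝ) / 10000) (n0 (by decide)) ha h5
      unfold lin at h
      push_cast at h gm g0 g1 g2 g3 g4 g5 g6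
      linarith only [neg_abs_le (gh x - gh xs), h, gm, g0, g1, g2, g3, g4, g5, g6]
    rcases le_total x (((1200 : ℕ) : ℝ) / 10000) with c1 | c1
    · have h := piP crs_b_4_pl1 hN hA hcl hcp c0 c1
      have g0 := gL (be := 11000) (p := 1200) (G := 93874) (by decide +kernel) x0 c1 le_rfl (by decide)
      have g1 := gL (be := 11000) (p := 1350) (G := 83976) (x := ((1200 : ℕ) : ℝ) / 10000) (by decide +kernel)
        (n0 (by decide)) (nle (by decide)) le_rfl (by decide)
      have g2 := gL (be := 11000) (p := 1500) (G := 76119) (x := ((1350 : ℕ) : ℝ) / 10000) (by decide +kernel)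
        (n0 (by decide)) (nle (by decide)) le_rfl (by decide)
      have g3 := gL (be := 11000) (p := 1700) (G := 67887) (x := ((1500 : ℕ) : ℝ) / 10000) (by decide +kernel)
        (n0 (by decide)) (nle (by decide)) le_rfl (by decide)
      have g4 := gL (be := 11000) (p := 1900) (G := 61481) (x := ((1700 : ℕ) : ℝ) / 10000) (by decide +kernel)
        (n0 (by decide)) (nle (by decide)) le_rfl (by decide)
      have g5 := gL (be := 11000) (p := 2130) (G := 55708) (x := ((1900 : ℕ) : ℝ) / 10000) (by decide +kernel)
        (n0 (by decide)) (nle (by decide)) le_rfl (by decide)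
      have gm := gh_mono (x := ((2130 : ℕ) : ℝ) / 10000) (n0 (by decide)) ha h5
      unfold lin at h
      push_cast at h gm g0 g1 g2 g3 g4 g5
      linarith only [neg_abs_le (gh x - gh xs), h, gm, g0, g1, g2, g3, g4, g5]
    rcases le_total x (((1350 : ℕ) : ℝ) / 10000) with c2 | c2
    · have h := piP crs_b_4_pl2 hN hA hcl hcp c1 c2
      have g0 := gL (be := 11000) (p := 1350) (G := 83976) (by decide +kernel) x0 c2 le_rfl (by decide)
      have g1 := gL (be := 11000) (p := 1500) (G := 76119) (x := ((1350 : ℕ) : ℝ) / 10000) (by decide +kernel)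
        (n0 (by decide)) (nle (by decide)) le_rfl (by decide)
      have g2 := gL (be := 11000) (p := 1700) (G := 67887) (x := ((1500 : ℕ) : ℝ) / 10000) (by decide +kernel)
        (n0 (by decide)) (nle (by decide)) le_rfl (by decide)
      have g3 := gL (be := 11000) (p := 1900) (G := 61481) (x := ((1700 : ℕ) : ℝ) / 10000) (by decide +kernel)
        (n0 (by decide)) (nle (by decide)) le_rfl (by decide)
      have g4 := gL (be := 11000) (p := 2130) (G := 55708) (x := ((1900 : ℕ) : ℝ) / 10000) (by decide +kernel)
        (n0 (by decide)) (nle (by decide)) le_rfl (by decide)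
      have gm := gh_mono (x := ((2130 : ℕ) : ℝ) / 10000) (n0 (by decide)) ha h5
      unfold lin at h
      push_cast at h gm g0 g1 g2 g3 g4
      linarith only [neg_abs_le (gh x - gh xs), h, gm, g0, g1, g2, g3, g4]
    rcases le_total x (((1500 : ℕ) : ℝ) / 10000) with c3 | c3
    · have h := piP crs_b_4_pl3 hN hA hcl hcp c2 c3
      have g0 := gL (be := 11000) (p := 1500) (G := 76119) (by decide +kernel) x0 c3 le_rfl (by decide)
      have g1 := gL (be := 11000) (p := 1700) (G := 67887) (x := ((1500 : ℕ) : ℝ) / 10000) (by decide +kernel)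
        (n0 (by decide)) (nle (by decide)) le_rfl (by decide)
      have g2 := gL (be := 11000) (p := 1900) (G := 61481) (x := ((1700 : ℕ) : ℝ) / 10000) (by decide +kernel)
        (n0 (by decide)) (nle (by decide)) le_rfl (by decide)
      have g3 := gL (be := 11000) (p := 2130) (G := 55708) (x := ((1900 : ℕ) : ℝ) / 10000) (by decide +kernel)
        (n0 (by decide)) (nle (by decide)) le_rfl (by decide)
      have gm := gh_mono (x := ((2130 : ℕ) : ℝ) / 10000) (n0 (by decide)) ha h5
      unfold lin at h
      push_cast at h gm g0 g1 g2 g3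
      linarith only [neg_abs_le (gh x - gh xs), h, gm, g0, g1, g2, g3]
    rcases le_total x (((1700 : ℕ) : ℝ) / 10000) with c4 | c4
    · have h := piP crs_b_4_pl4 hN hA hcl hcp c3 c4
      have g0 := gL (be := 11000) (p := 1700) (G := 67887) (by decide +kernel) x0 c4 le_rfl (by decide)
      have g1 := gL (be := 11000) (p := 1900) (G := 61481) (x := ((1700 : ℕ) : ℝ) / 10000) (by decide +kernel)
        (n0 (by decide)) (nle (by decide)) le_rfl (by decide)
      have g2 := gL (be := 11000) (p := 2130) (G := 55708) (x := ((1900 : ℕ) : ℝ) / 10000) (by decide +kernel)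
        (n0 (by decide)) (nle (by decide)) le_rfl (by decide)
      have gm := gh_mono (x := ((2130 : ℕ) : ℝ) / 10000) (n0 (by decide)) ha h5
      unfold lin at h
      push_cast at h gm g0 g1 g2
      linarith only [neg_abs_le (gh x - gh xs), h, gm, g0, g1, g2]
    rcases le_total x (((1900 : ℕ) : ℝ) / 10000) with c5 | c5
    · have h := piP crs_b_4_pl5 hN hA hcl hcp c4 c5
      have g0 := gL (be := 11000) (p := 1900) (G := 61481) (by decide +kernel) x0 c5 le_rfl (by decide)
      have g1 := gL (be := 11000) (p := 2130) (G := 55708) (x := ((1900 : ℕ) : ℝ) / 10000) (by decide +kernel)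
        (n0 (by decide)) (nle (by decide)) le_rfl (by decide)
      have gm := gh_mono (x := ((2130 : ℕ) : ℝ) / 10000) (n0 (by decide)) ha h5
      unfold lin at h
      push_cast at h gm g0 g1
      linarith only [neg_abs_le (gh x - gh xs), h, gm, g0, g1]
    rcases le_total x (((2130 : ℕ) : ℝ) / 10000) with c6 | c6
    · have h := piP crs_b_4_pl6 hN hA hcl hcp c5 c6
      have g0 := gL (be := 11000) (p := 2130) (G := 55708) (by decide +kernel) x0 c6 le_rfl (by decide)
      have gm := gh_mono (x := ((2130 : ℕ) : ℝ) / 10000) (n0 (by decide)) ha h5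
      unfold lin at h
      push_cast at h gm g0
      linarith only [neg_abs_le (gh x - gh xs), h, gm, g0]
    rcases le_total x (((2210 : ℕ) : ℝ) / 10000) with ce | ce
    · have h := piP crs_b_4_pm hN hA hcl hcp c6 ce
      unfold lin at h
      push_cast at h
      linarith only [abs_nonneg (gh x - gh xs), h]
    have gm := gh_mono (y := ((2210 : ℕ) : ℝ) / 10000) hN.xs0 he (nhalf (by decide))
    have h := piP crs_b_4_pr0 hN hA hcl hcp ce hx1
    have g0 := gL (be := 11000) (p := 2700) (G := 46069) (x := ((2210 : ℕ) : ℝ) / 10000) (by decide +kernel)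
      (n0 (by decide)) ce hx1 (by decide)
    unfold lin at h
    push_cast at h gm g0
    linarith only [le_abs_self (gh x - gh xs), h, gm, g0]
  · have hx0 : ((1000 : ℕ) : ℝ) / 10000 ≤ x := le_trans (by norm_num) hA.x0
    have hx1 : x ≤ ((2700 : ℕ) : ℝ) / 10000 := le_trans hA.x1 (by norm_num)
    have gm := gh_mono ((n0 (by decide)).trans_le hx0) hx.le h5
    have ga := gU ua (by decide) le_rfl ha h5
    have g3 := gS4 kc (by decide) (by decide) le_rfl ha he hT
    push_cast at ga g3
    rcases le_total x (((1300 : ℕ) : ℝ) / 10000) with c0 | c0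
    · have h := piD1 crs_b_4_db0 hN hA hcl hcp (by decide) hx0 c0 ha
      have g0 := gU (be := 11000) (p := 1000) (G := 111831) (by decide +kernel) (by decide) hx0 c0
        (nhalf (by decide))
      have k1 := gU (be := 11000) (p := 1300) (G := 87015) (y := ((1700 : ℕ) : ℝ) / 10000) (by decide +kernel)
        (by decide) le_rfl (nle (by decide)) (nhalf (by decide))
      have k2 := gU (be := 11000) (p := 1700) (G := 67888) (y := ((2130 : ℕ) : ℝ) / 10000) (by decide +kernel)
        (by decide) le_rfl (nle (by decide)) (nhalf (by decide))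
      push_cast at h g0 k1 k2
      unfold lin at h
      push_cast at h
      exact dn_fin5 h gm (by linarith only [he, ga, g0, k1, k2]) (by linarith only [g3, g0, k1, k2])
    rcases le_total x (((1700 : ℕ) : ℝ) / 10000) with c1 | c1
    · have h := piD1 crs_b_4_db1 hN hA hcl hcp (by decide) c0 c1 ha
      have g0 := gU (be := 11000) (p := 1300) (G := 87015) (by decide +kernel) (by decide) c0 c1
        (nhalf (by decide))
      have k1 := gU (be := 11000) (p := 1700) (G := 67888) (y := ((2130 : ℕ) : ℝ) / 10000) (by decide +kernel)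
        (by decide) le_rfl (nle (by decide)) (nhalf (by decide))
      push_cast at h g0 k1
      unfold lin at h
      push_cast at h
      exact dn_fin5 h gm (by linarith only [he, ga, g0, k1]) (by linarith only [g3, g0, k1])
    rcases le_total x (((2130 : ℕ) : ℝ) / 10000) with c2 | c2
    · have h := piD1 crs_b_4_db2 hN hA hcl hcp (by decide) c1 c2 ha
      have g0 := gU (be := 11000) (p := 1700) (G := 67888) (by decide +kernel) (by decide) c1 c2
        (nhalf (by decide))
      push_cast at h g0
      unfold lin at h
      push_cast at h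
      exact dn_fin5 h gm (by linarith only [he, ga, g0]) (by linarith only [g3, g0])
    have h := piD0 crs_b_4_da hN hA hcl hcp (by decide) c2 (hx.le.trans he) hx.le
    have g1 := gU ua (by decide) c2 hx.le h5
    have g4 := gS4 kc (by decide) (by decide) c2 hx.le he hT
    unfold lin at h
    push_cast at h g1 g4
    exact dn_fin5 h gm (by linarith only [he, g1]) (by linarith only [g4])
  · have hx0 : ((1000 : ℕ) : ℝ) / 10000 ≤ x := le_trans (by norm_num) hA.x0
    have hx1 : x ≤ ((2700 : ℕ) : ℝ) / 10000 := le_trans hA.x1 (by norm_num)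
    have gm := gh_mono hN.xs0 hx.le (hx1.trans (nhalf (by decide)))
    rcases le_total x (((2210 : ℕ) : ℝ) / 10000) with ce | ce
    · have h := piU0 crs_b_4_ua hN hA hcl hcp (ha.trans hx.le) ce
      have g1 := gU ua (by decide) ha hx.le (hx1.trans (nhalf (by decide)))
      have g3 := gS4 kc (by decide) (by decide) ha hx.le ce hT
      unfold lin at h
      push_cast at h g1 g3
      exact up_fin5 h gm (by linarith only [ha, g1]) (by linarith only [g3])
    have ga := gU (y := ((2210 : ℕ) : ℝ) / 10000) ua (by decide) ha he (nhalf (by decide))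
    have g3 := gS4 kc (by decide) (by decide) ha he le_rfl hT
    push_cast at ga g3
    have h := piU1 crs_b_4_ub0 hN hA hcl hcp ce hx1
    have g0 := gU (be := 11000) (p := 2210) (G := 54010) (by decide +kernel) (by decide) le_rfl ce
      (hx1.trans (nhalf (by decide)))
    unfold lin at h
    push_cast at h g0
    exact up_fin5 h gm (by linarith only [ha, ga, g0]) (by linarith only [g3, g0])

theorem srs_b_5 {xs s T ρ : ℝ} (hW : RWp.In ⟨1730 / 10000, 2370 / 10000, 120 / 10000, 560 / 10000, 2000 / 10000, 2130 / 10000, 530 / 10000, 1045 / 10000, 4380 / 10000, 3560 / 10000, 140 / 10000, 730 / 10000, 22 / 10, 59 / 100⟩ xs s T ρ)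
    (ha : ((2210 : ℕ) : ℝ) / 10000 ≤ xs) (he : xs ≤ ((2370 : ℕ) : ℝ) / 10000) :
    RampOK (65 / 100) (14 / 100) (11 / 10) 4 xs (1 / 2 - s) T ρ (10 / 100) (27 / 100) := by
  have hN : Nm 4380 3560 5052 10 22 370 2000 140 730 1700 2140 650 1045 xs s T ρ := by
    obtain ⟨-, -, w1, w2, w3, w4, w5, w6, w7, w8, w9, w10, w11, w12⟩ := hW
    dsimp only at w1 w2 w3 w4 w6 w7 w8 w9 w10 w11 w12
    push_cast at ha he
    exact ⟨by linarith only [ha, w5, w7], by linarith only [he, w5, w7], by push_cast; linarith only [w3], by norm_num, by push_cast; linarith only [w8],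
      by norm_num, by push_cast; linarith only [w9], by norm_num, by push_cast; linarith only [he, w4, w5, w7, w11], by norm_num,
      by push_cast; linarith only [he, w3], by push_cast; linarith only [ha, w4, w5, w7], by norm_num, by push_cast; linarith only [w1],
      by push_cast; linarith only [w2], by push_cast; linarith only [ha, w3, w9], by push_cast; linarith only [w7], w5,
      fun _ => by push_cast; linarith only [w10], by push_cast; linarith only [w11]⟩
  have hT : |T| ≤ ((560 : ℕ) : ℝ) / 10000 := by
    have w1 := hW.t0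
    have w2 := hW.t1
    dsimp only at w1 w2
    rw [abs_le]
    push_cast
    constructor <;> linarith only [w1, w2]
  have kc : kC4 11000 2210 2370 560 0 = true := by decide +kernel
  have ua : kU 11000 2210 54010 = true := by decide +kernel
  have hcl : (0 : ℝ) < 10 / 100 := by norm_num
  have hcp : (27 / 100 : ℝ) < 1 / 2 := by norm_num
  have h5 := hN.xs1.le
  refine ⟨fun x y hA => ?_, fun x y hA hx => ?_, fun x y hA hx => ?_⟩
  · have hx0 : ((1000 : ℕ) : ℝ) / 10000 ≤ x := le_trans (by norm_num) hA.x0
    have hx1 : x ≤ ((2700 : ℕ) : ℝ) / 10000 := le_trans hA.x1 (by norm_num)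
    have x0 : 0 < x := (n0 (by decide)).trans_le hx0
    rcases le_total x (((1200 : ℕ) : ℝ) / 10000) with c0 | c0
    · have h := piP crs_b_5_pl0 hN hA hcl hcp hx0 c0
      have g0 := gL (be := 11000) (p := 1200) (G := 93874) (by decide +kernel) x0 c0 le_rfl (by decide)
      have g1 := gL (be := 11000) (p := 1400) (G := 81162) (x := ((1200 : ℕ) : ℝ) / 10000) (by decide +kernel)
        (n0 (by decide)) (nle (by decide)) le_rfl (by decide)
      have g2 := gL (be := 11000) (p := 1700) (G := 67887) (x := ((1400 : ℕ) : ℝ) / 10000) (by decide +kernel)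
        (n0 (by decide)) (nle (by decide)) le_rfl (by decide)
      have g3 := gL (be := 11000) (p := 2000) (G := 58792) (x := ((1700 : ℕ) : ℝ) / 10000) (by decide +kernel)
        (n0 (by decide)) (nle (by decide)) le_rfl (by decide)
      have g4 := gL (be := 11000) (p := 2210) (G := 54009) (x := ((2000 : ℕ) : ℝ) / 10000) (by decide +kernel)
        (n0 (by decide)) (nle (by decide)) le_rfl (by decide)
      have gm := gh_mono (x := ((2210 : ℕ) : ℝ) / 10000) (n0 (by decide)) ha h5
      unfold lin at h
      push_cast at h gm g0 g1 g2 g3 g4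
      linarith only [neg_abs_le (gh x - gh xs), h, gm, g0, g1, g2, g3, g4]
    rcases le_total x (((1400 : ℕ) : ℝ) / 10000) with c1 | c1
    · have h := piP crs_b_5_pl1 hN hA hcl hcp c0 c1
      have g0 := gL (be := 11000) (p := 1400) (G := 81162) (by decide +kernel) x0 c1 le_rfl (by decide)
      have g1 := gL (be := 11000) (p := 1700) (G := 67887) (x := ((1400 : ℕ) : ℝ) / 10000) (by decide +kernel)
        (n0 (by decide)) (nle (by decide)) le_rfl (by decide)
      have g2 := gL (be := 11000) (p := 2000) (G := 58792) (x := ((1700 : ℕ) : ℝ) / 10000) (by decide +kernel)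
        (n0 (by decide)) (nle (by decide)) le_rfl (by decide)
      have g3 := gL (be := 11000) (p := 2210) (G := 54009) (x := ((2000 : ℕ) : ℝ) / 10000) (by decide +kernel)
        (n0 (by decide)) (nle (by decide)) le_rfl (by decide)
      have gm := gh_mono (x := ((2210 : ℕ) : ℝ) / 10000) (n0 (by decide)) ha h5
      unfold lin at h
      push_cast at h gm g0 g1 g2 g3
      linarith only [neg_abs_le (gh x - gh xs), h, gm, g0, g1, g2, g3]
    rcases le_total x (((1700 : ℕ) : ℝ) / 10000) with c2 | c2
    · have h := piP crs_b_5_pl2 hN hA hcl hcp c1 c2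
      have g0 := gL (be := 11000) (p := 1700) (G := 67887) (by decide +kernel) x0 c2 le_rfl (by decide)
      have g1 := gL (be := 11000) (p := 2000) (G := 58792) (x := ((1700 : ℕ) : ℝ) / 10000) (by decide +kernel)
        (n0 (by decide)) (nle (by decide)) le_rfl (by decide)
      have g2 := gL (be := 11000) (p := 2210) (G := 54009) (x := ((2000 : ℕ) : ℝ) / 10000) (by decide +kernel)
        (n0 (by decide)) (nle (by decide)) le_rfl (by decide)
      have gm := gh_mono (x := ((2210 : ℕ) : ℝ) / 10000) (n0 (by decide)) ha h5
      unfold lin at h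
      push_cast at h gm g0 g1 g2
      linarith only [neg_abs_le (gh x - gh xs), h, gm, g0, g1, g2]
    rcases le_total x (((2000 : ℕ) : ℝ) / 10000) with c3 | c3
    · have h := piP crs_b_5_pl3 hN hA hcl hcp c2 c3
      have g0 := gL (be := 11000) (p := 2000) (G := 58792) (by decide +kernel) x0 c3 le_rfl (by decide)
      have g1 := gL (be := 11000) (p := 2210) (G := 54009) (x := ((2000 : ℕ) : ℝ) / 10000) (by decide +kernel)
        (n0 (by decide)) (nle (by decide)) le_rfl (by decide)
      have gm := gh_mono (x := ((2210 : ℕ) : ℝ) / 10000) (n0 (by decide)) ha h5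
      unfold lin at h
      push_cast at h gm g0 g1
      linarith only [neg_abs_le (gh x - gh xs), h, gm, g0, g1]
    rcases le_total x (((2210 : ℕ) : ℝ) / 10000) with c4 | c4
    · have h := piP crs_b_5_pl4 hN hA hcl hcp c3 c4
      have g0 := gL (be := 11000) (p := 2210) (G := 54009) (by decide +kernel) x0 c4 le_rfl (by decide)
      have gm := gh_mono (x := ((2210 : ℕ) : ℝ) / 10000) (n0 (by decide)) ha h5
      unfold lin at h
      push_cast at h gm g0
      linarith only [neg_abs_le (gh x - gh xs), h, gm, g0]
    rcases le_total x (((2370 : ℕ) : ℝ) / 10000) with ce | ce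
    · have h := piP crs_b_5_pm hN hA hcl hcp c4 ce
      unfold lin at h
      push_cast at h
      linarith only [abs_nonneg (gh x - gh xs), h]
    have gm := gh_mono (y := ((2370 : ℕ) : ℝ) / 10000) hN.xs0 he (nhalf (by decide))
    have h := piP crs_b_5_pr0 hN hA hcl hcp ce hx1
    have g0 := gL (be := 11000) (p := 2700) (G := 46069) (x := ((2370 : ℕ) : ℝ) / 10000) (by decide +kernel)
      (n0 (by decide)) ce hx1 (by decide)
    unfold lin at h
    push_cast at h gm g0
    linarith only [le_abs_self (gh x - gh xs), h, gm, g0]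
  · have hx0 : ((1000 : ℕ) : ℝ) / 10000 ≤ x := le_trans (by norm_num) hA.x0
    have hx1 : x ≤ ((2700 : ℕ) : ℝ) / 10000 := le_trans hA.x1 (by norm_num)
    have gm := gh_mono ((n0 (by decide)).trans_le hx0) hx.le h5
    have ga := gU ua (by decide) le_rfl ha h5
    have g3 := gS4 kc (by decide) (by decide) le_rfl ha he hT
    push_cast at ga g3
    rcases le_total x (((1300 : ℕ) : ℝ) / 10000) with c0 | c0
    · have h := piD1 crs_b_5_db0 hN hA hcl hcp (by decide) hx0 c0 ha
      have g0 := gU (be := 11000) (p := 1000) (G := 111831) (by decide +kernel) (by decide) hx0 c0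
        (nhalf (by decide))
      have k1 := gU (be := 11000) (p := 1300) (G := 87015) (y := ((1700 : ℕ) : ℝ) / 10000) (by decide +kernel)
        (by decide) le_rfl (nle (by decide)) (nhalf (by decide))
      have k2 := gU (be := 11000) (p := 1700) (G := 67888) (y := ((2210 : ℕ) : ℝ) / 10000) (by decide +kernel)
        (by decide) le_rfl (nle (by decide)) (nhalf (by decide))
      push_cast at h g0 k1 k2
      unfold lin at h
      push_cast at h
      exact dn_fin5 h gm (by linarith only [he, ga, g0, k1, k2]) (by linarith only [g3, g0, k1, k2])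
    rcases le_total x (((1700 : ℕ) : ℝ) / 10000) with c1 | c1
    · have h := piD1 crs_b_5_db1 hN hA hcl hcp (by decide) c0 c1 ha
      have g0 := gU (be := 11000) (p := 1300) (G := 87015) (by decide +kernel) (by decide) c0 c1
        (nhalf (by decide))
      have k1 := gU (be := 11000) (p := 1700) (G := 67888) (y := ((2210 : ℕ) : ℝ) / 10000) (by decide +kernel)
        (by decide) le_rfl (nle (by decide)) (nhalf (by decide))
      push_cast at h g0 k1
      unfold lin at h
      push_cast at h
      exact dn_fin5 h gm (by linarith only [he, ga, g0, k1]) (by linarith only [g3, g0, k1])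
    rcases le_total x (((2210 : ℕ) : ℝ) / 10000) with c2 | c2
    · have h := piD1 crs_b_5_db2 hN hA hcl hcp (by decide) c1 c2 ha
      have g0 := gU (be := 11000) (p := 1700) (G := 67888) (by decide +kernel) (by decide) c1 c2
        (nhalf (by decide))
      push_cast at h g0
      unfold lin at h
      push_cast at h
      exact dn_fin5 h gm (by linarith only [he, ga, g0]) (by linarith only [g3, g0])
    have h := piD0 crs_b_5_da hN hA hcl hcp (by decide) c2 (hx.le.trans he) hx.le
    have g1 := gU ua (by decide) c2 hx.le h5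
    have g4 := gS4 kc (by decide) (by decide) c2 hx.le he hT
    unfold lin at h
    push_cast at h g1 g4
    exact dn_fin5 h gm (by linarith only [he, g1]) (by linarith only [g4])
  · have hx0 : ((1000 : ℕ) : ℝ) / 10000 ≤ x := le_trans (by norm_num) hA.x0
    have hx1 : x ≤ ((2700 : ℕ) : ℝ) / 10000 := le_trans hA.x1 (by norm_num)
    have gm := gh_mono hN.xs0 hx.le (hx1.trans (nhalf (by decide)))
    rcases le_total x (((2370 : ℕ) : ℝ) / 10000) with ce | ce
    · have h := piU0 crs_b_5_ua hN hA hcl hcp (ha.trans hx.le) ce
      have g1 := gU ua (by decide) ha hx.le (hx1.trans (nhalf (by decide)))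
      have g3 := gS4 kc (by decide) (by decide) ha hx.le ce hT
      unfold lin at h
      push_cast at h g1 g3
      exact up_fin5 h gm (by linarith only [ha, g1]) (by linarith only [g3])
    have ga := gU (y := ((2370 : ℕ) : ℝ) / 10000) ua (by decide) ha he (nhalf (by decide))
    have g3 := gS4 kc (by decide) (by decide) ha he le_rfl hT
    push_cast at ga g3
    have h := piU1 crs_b_5_ub0 hN hA hcl hcp ce hx1
    have g0 := gU (be := 11000) (p := 2370) (G := 50997) (by decide +kernel) (by decide) le_rfl ce
      (hx1.trans (nhalf (by decide)))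
    unfold lin at h
    push_cast at h g0
    exact up_fin5 h gm (by linarith only [ha, ga, g0]) (by linarith only [g3, g0])

end RQ4

namespace RC

theorem i4_rs_b : RowI
    ⟨1730 / 10000, 2370 / 10000, 120 / 10000, 560 / 10000, 2000 / 10000, 2130 / 10000, 530 / 10000, 1045 / 10000, 4380 / 10000, 3560 / 10000, 140 / 10000, 730 / 10000, 22 / 10, 59 / 100⟩
    4 (65 / 100) (14 / 100) (11 / 10) (10 / 100) (27 / 100) := by
  intro xs s T ρ hW
  have h0 : ((1730 : ℕ) : ℝ) / 10000 ≤ xs := le_trans (by norm_num) hW.x0
  have h1 : xs ≤ ((2370 : ℕ) : ℝ) / 10000 := by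
    obtain ⟨-, w0, -, -, w3, -, -, -, w7, w8, w9, -, -, -⟩ := hW
    dsimp only at w0 w3 w7 w8 w9
    push_cast
    linarith only [w0]
  rcases le_total xs (((1810 : ℕ) : ℝ) / 10000) with k0 | k0
  · exact RQ4.srs_b_0 hW h0 k0
  rcases le_total xs (((1890 : ℕ) : ℝ) / 10000) with k1 | k1
  · exact RQ4.srs_b_1 hW k0 k1
  rcases le_total xs (((2050 : ℕ) : ℝ) / 10000) with k2 | k2
  · exact RQ4.srs_b_2 hW k1 k2
  rcases le_total xs (((2130 : ℕ) : ℝ) / 10000) with k3 | k3
  · exact RQ4.srs_b_3 hW k2 k3
  rcases le_total xs (((2210 : ℕ) : ℝ) / 10000) with k4 | k4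
  · exact RQ4.srs_b_4 hW k3 k4
  exact RQ4.srs_b_5 hW k4 h1

end RC

end Pool.Agent.Work.MP_b30479_gtS.G2

end

section

/-!
# Right ramp of a hinge `1 | ring`, the side of the ring: four crossings, `ρ ≤ 85/1000`
-/

set_option deprecated.oldSectionVars true

namespace Pool.Agent.Work.MP_b30479_gtS.G2

open VOL NumIs

namespace RZ1

open LR

theorem qb2R_1 : okB 10000 (tR 3 16 false (bT 34 8 1)) 0 0 0 0 40 3600 4300 580 815 1250 2500 0 850
    0x40800203081020004101820810104080820300101840c042040c001000c0c303040044201081c284021000104102 = true := by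
  decide +kernel

theorem qb2R_2 : okB 10000 (tR 3 16 false (bT 34 8 1)) 0 0 0 0 40 3600 4300 815 1000 1250 2500 0 850
    0x10200080c2040800004060820408100800010184061020208102000410180080c100110818814021030104102 = true := by
  decide +kernel

theorem qb2R_3 : okB 10000 (tR 3 16 false (bT 34 8 1)) 0 0 0 0 40 3600 4300 1000 1280 1250 2500 0 665
    0x1020208101020d08141040820404201040808204040060200102028408180 = true := by
  decide +kernel

theorem qb2R_4 : okB 10000 (tR 3 16 false (bT 34 8 1)) 0 0 0 0 40 4300 5000 580 1000 1250 2500 0 850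
    0x4080c2040800084060820400101840800204040420304003080010188100020301060800504102 = true := by
  decide +kernel

theorem qb2R_5 : okB 10000 (tR 3 16 false (bT 34 8 1)) 0 0 0 0 40 4300 5000 1000 1280 1250 2500 0 665
    0x102020810200040030a0104102 = true := by
  decide +kernel

theorem qb2F_1 : okB 10000 (tF false (bT 34 8 1)) 0 0 0 0 40 3600 4500 580 1000 0 2500 0 850
    0x183020c0c306061830304083060c04184080420408041830410204060c408060820408100030620408000c1010408306061830304183030c1830106081040800204060c2040010204020c18110204080004188100c40806001020400306001808606183030c1818104183030c181820c181860c180030404104080c204080018308101840810400040c1811020188100c088100040304081060c180800c0c3030c1830100181820c1808604181860c043030404306061830302183030c181800210200080c204060c2040610203060410208200080410203062040310201800420403102018204102030810402060c40810001821020188100c0020208000 = true := by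
  decide +kernel

theorem qb2F_2 : okB 10000 (tF false (bT 34 8 1)) 0 0 0 0 40 3600 4500 1000 1280 0 2500 0 665
    0x60c0830604083060010203041020310201820408306041830304102030810180102010810080020400306061830304183030c18182041020308101831020108100800204183020c0c30604181810c180060610200080c2040604102082010406102030220403042040310201820408000 = true := by
  decide +kernel

theorem qb2F_3 : okB 10000 (tF false (bT 34 8 1)) 0 0 0 0 40 4500 5000 580 1000 0 2500 0 850
    0x60c0c3060008306001830304083060618306000c1060c08306060cb0a2c0cb030258b100800b01060c1820c183030610b020858216060410108581040858d00040418304001060c0c3060c1800106082040210204020c184080020408041831020188100c1821020088100c1800408002 = true := by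
  decide +kernel

theorem qb2F_4 : okB 10000 (tF false (bT 34 8 1)) 0 0 0 0 40 4500 5000 1000 1280 0 2500 0 665
    0x183020c1830004083060c001060c0cb1602183002c4019006081820c181842c58182081018304001060c1800308102000610203102018210201800408002 = true := by
  decide +kernel

set_option deprecated.oldSectionVars false
variable {x T s ρ : ℝ} {w ζ : ℂ}

/-- `b = 4`, `ρ ≤ 85/1000` -/
theorem b2_flat (hw : W x (T / (29 / 100)) w) (hz : ZF ρ ζ) (h1 : 36 / 100 ≤ x) (h2 : x ≤ 1 / 2)
    (h3 : 58 / 1000 ≤ T) (h4 : T ≤ 128 / 1000) (h5 : ρ ≤ 85 / 1000) (h6 : ρ + T ≤ 1665 / 10000) :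
    S4 (T / (29 / 100)) w ζ ≤ -(34 / 100 + 8 * T) := by
  rw [mT_eq] at hw ⊢
  have hT : 0 ≤ T := by linarith only [h3]
  have hs : false = true → ρ + T ≤ 163 / 1000 := fun h => absurd h Bool.false_ne_true
  rcases le_total x (45 / 100) with h10 | h10
  · rcases le_total T (1 / 10) with h10 | h10
    · have h9 := boxF (ev_bT (n := 34) (n' := 8) (d' := 1) (by norm_num)) qb2F_1 hw hz h1 hT hs
        (by push_cast; linarith only [h1]) (by push_cast; linarith) (by push_cast; linarith only [h3])
        (by push_cast; linarith only [h10]) (by push_cast; linarith only [h5])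
      push_cast at h9
      linarith only [h9]
    · have h9 := boxF (ev_bT (n := 34) (n' := 8) (d' := 1) (by norm_num)) qb2F_2 hw hz h1 hT hs
        (by push_cast; linarith only [h1]) (by push_cast; linarith) (by push_cast; linarith only [h10])
        (by push_cast; linarith only [h4]) (by push_cast; linarith only [h6, h10])
      push_cast at h9
      linarith only [h9]
  · rcases le_total T (1 / 10) with h10 | h10
    · have h9 := boxF (ev_bT (n := 34) (n' := 8) (d' := 1) (by norm_num)) qb2F_3 hw hz h1 hT hs
        (by push_cast; linarith) (by push_cast; linarith only [h2]) (by push_cast; linarith only [h3])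
        (by push_cast; linarith only [h10]) (by push_cast; linarith only [h5])
      push_cast at h9
      linarith only [h9]
    · have h9 := boxF (ev_bT (n := 34) (n' := 8) (d' := 1) (by norm_num)) qb2F_4 hw hz h1 hT hs
        (by push_cast; linarith) (by push_cast; linarith only [h2]) (by push_cast; linarith only [h10])
        (by push_cast; linarith only [h4]) (by push_cast; linarith only [h6, h10])
      push_cast at h9
      linarith only [h9]

theorem b2_ramp (hw : W x (T / (29 / 100)) w) (hz : ZR s ρ ζ) (h1 : 36 / 100 ≤ x) (h2 : x ≤ 1 / 2)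
    (h3 : 58 / 1000 ≤ T) (h4 : T ≤ 128 / 1000) (h5 : ρ ≤ 85 / 1000) (h6 : ρ + T ≤ 1665 / 10000)
    (h7 : 1 / 8 ≤ s) (h8 : FM 4 s ρ w ζ) :
    S4 (T / (29 / 100)) w ζ ≤ -(34 / 100 + 8 * T) := by
  rw [mT_eq] at hw ⊢
  have hT : 0 ≤ T := by linarith only [h3]
  have hD : DR x T s ρ := ⟨h1, hw.hi, hT, hz.lo, hz.hi, hz.pos⟩
  have hz4 := hz.hi
  have hr : ρ ≤ 1045 / 10000 := by linarith only [h5]
  have hs : false = true → ρ + T ≤ 163 / 1000 := fun h => absurd h Bool.false_ne_true
  have hF : FM ((4 : ℕ) : ℝ) s ρ w ζ := by
    push_cast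
    exact h8
  rcases le_total x (43 / 100) with h10 | h10
  · rcases le_total T (815 / 10000) with h10 | h10
    · have h9 := boxR (b := 4) (by norm_num) (ev_bT (n := 34) (n' := 8) (d' := 1) (by norm_num)) qb2R_1 hw hz
        hD h2 hr hs hF
        (by push_cast; linarith only [h1]) (by push_cast; linarith) (by push_cast; linarith only [h3])
        (by push_cast; linarith only [h10]) (by push_cast; linarith only [h7]) (by push_cast; linarith only [hz4])
        (by push_cast; linarith only [h5])
      push_cast at h9
      linarith only [h9]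
    · rcases le_total T (1 / 10) with h10 | h10
      · have h9 := boxR (b := 4) (by norm_num) (ev_bT (n := 34) (n' := 8) (d' := 1) (by norm_num)) qb2R_2 hw hz
          hD h2 hr hs hF
          (by push_cast; linarith only [h1]) (by push_cast; linarith) (by push_cast; linarith)
          (by push_cast; linarith only [h10]) (by push_cast; linarith only [h7]) (by push_cast; linarith only [hz4])
          (by push_cast; linarith only [h5])
        push_cast at h9
        linarith only [h9]
      · have h9 := boxR (b := 4) (by norm_num) (ev_bT (n := 34) (n' := 8) (d' := 1) (by norm_num)) qb2R_3 hw hz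
          hD h2 hr hs hF
          (by push_cast; linarith only [h1]) (by push_cast; linarith) (by push_cast; linarith only [h10])
          (by push_cast; linarith only [h4]) (by push_cast; linarith only [h7]) (by push_cast; linarith only [hz4])
          (by push_cast; linarith only [h6, h10])
        push_cast at h9
        linarith only [h9]
  · rcases le_total T (1 / 10) with h10 | h10
    · have h9 := boxR (b := 4) (by norm_num) (ev_bT (n := 34) (n' := 8) (d' := 1) (by norm_num)) qb2R_4 hw hz
        hD h2 hr hs hF
        (by push_cast; linarith) (by push_cast; linarith only [h2]) (by push_cast; linarith only [h3])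
        (by push_cast; linarith only [h10]) (by push_cast; linarith only [h7]) (by push_cast; linarith only [hz4])
        (by push_cast; linarith only [h5])
      push_cast at h9
      linarith only [h9]
    · have h9 := boxR (b := 4) (by norm_num) (ev_bT (n := 34) (n' := 8) (d' := 1) (by norm_num)) qb2R_5 hw hz
        hD h2 hr hs hF
        (by push_cast; linarith) (by push_cast; linarith only [h2]) (by push_cast; linarith only [h10])
        (by push_cast; linarith only [h4]) (by push_cast; linarith only [h7]) (by push_cast; linarith only [hz4])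
        (by push_cast; linarith only [h6, h10])
      push_cast at h9
      linarith only [h9]

end RZ1

end Pool.Agent.Work.MP_b30479_gtS.G2

end
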