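import Pool.Agent.Work.MP_b30479_gt.TBS.G2.RZ1

section

/-!
# Rings with the ring variable on the ramp, `b = 4`: certificates, rs_c
-/

set_option deprecated.oldSectionVars true

namespace Pool.Agent.Work.MP_b30479_gtS.G2

open NumIs

namespace RQ4

theorem crs_c_0_pl0 : okB 10000
    (tP 4 1 65 100 4055 3560 4477 10 22 14293 0 0 93874 140 730)
    0 1580 0 0 40 1000 1200 1700 2140 1250 2500 530 1045
    0x1d3a03e803a01e80ba01e9d00f401d0083e80ba7407d0101e80ba7403d01f405d3a0303d0103e8b00f4040ba040410102 = true := by
  decide +kernel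

theorem crs_c_0_pl1 : okB 10000
    (tP 4 1 65 100 4055 3560 4477 10 22 12767 0 0 81162 140 730)
    0 1580 0 0 40 1200 1400 1700 2140 1250 2500 530 1045
    0x74e80fa02e9d01f407d3a030203a740607a74060ba02e808e020810102e9d01f405d011c0470101e9d01f405d160303d01740590174e807a025808e020210103 = true := by
  decide +kernel

theorem crs_c_0_pl2 : okB 10000
    (tP 4 1 65 100 4055 3560 4477 10 22 10760 0 0 66825 140 730)
    0 1580 0 0 40 1400 1730 1700 2140 1250 2500 530 1045
    0x1d3a03e80ba7407d3a03e9d008101d0100e9d0074e80c074e800101e9d007405d3a0303d3a03e80ba02e9d0074040400339d006407d3a0301d0e03e8701800208e1c38000e4e800202380418208700840410102 = true := by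
  decide +kernel

theorem crs_c_0_pm : okB 10000
    (tP 4 1 65 100 4055 3560 4477 10 22 0 800 0 0 140 730)
    0 1580 0 0 40 1730 1795 1700 2140 1250 2500 530 1045
    0x1d3a033808e64060ce04060ba7407d0e0305d0e03047010108102010210102 = true := by
  decide +kernel

theorem crs_c_0_pr0 : okB 10000
    (tP 4 1 65 100 4055 3560 4477 10 22 0 9070 46069 0 140 730)
    0 1580 0 0 40 1795 2700 1700 2140 1250 2500 530 1045
    0x1c3800e04060ce02387000238702030790e03c9901813808e640808183007020305d3a740000e74e80000338b0e00380c0833870e030208e02027021c080809c0400100 = true := by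
  decide +kernel

theorem crs_c_0_db0 : okB 10000
    (tD 1 4 1 65 100 4055 3560 4477 10 22 2130 1730 0 17610 111831 0 0 17176 111831 0 140 730)
    0 1580 0 0 40 1000 1200 1700 2140 1250 2500 530 1045
    0x6dda03683da0b683dbb4182dbb416d06076ed05b4181da9416d03b5281060b6ed05d0202da00204040812538080edda0368108100e4c8040040408182 = true := by
  decide +kernel

theorem crs_c_0_db1 : okB 10000
    (tD 1 4 1 65 100 4055 3560 4477 10 22 2130 1730 0 15456 93875 0 0 15021 93875 0 140 730)
    0 1580 0 0 40 1200 1400 1700 2140 1250 2500 530 1045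
    0x1b7683da07683dbb4182da9416dda0018239901640613200080c104040b6ed05b41edda081253808e04041011c020c101 = true := by
  decide +kernel

theorem crs_c_0_db2 : okB 10000
    (tD 1 4 1 65 100 4055 3560 4477 10 22 2130 1730 0 13676 81163 0 0 13242 81163 0 140 730)
    0 1580 0 0 40 1400 1730 1700 2140 1250 2500 530 1045
    0x6dda0ce6d0008e02dbb411c04076ed07b416d380816dda0b69c040808038101840470082dbb406d05b52820390202db9010005b7680da0928202102010808103 = true := by
  decide +kernel

theorem crs_c_0_da : okB 10000
    (tD 0 4 1 65 100 4055 3560 4477 10 22 2130 0 0 11196 66826 0 800 0 0 0 140 730)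
    0 1580 0 0 40 1730 1795 1700 2140 1250 2500 530 1045
    0x1b7683dbb4083dbb40e40608e044a041820894102 = true := by
  decide +kernel

theorem crs_c_0_ua : okB 10000
    (tU 0 4 1 65 100 4055 3560 4477 10 22 530 0 12360 0 0 66826 800 0 0 0 140 730)
    0 1580 0 0 40 1730 1795 1700 2140 1250 2500 530 1045
    0x1d0e82ea141030a08282ea7411d3a0419d0414101 = true := by
  decide +kernel

theorem crs_c_0_ub0 : okB 10000
    (tU 1 4 1 65 100 4055 3560 4477 10 22 530 1795 11971 0 0 64654 12405 0 0 64654 140 730)
    0 1580 0 0 40 1795 2700 1700 2140 1250 2500 530 1045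
    0x1d3a05a023a741350208285027411d3a70102040ce9d380809d0a0c19de9d01803a08e830214e8104702803808100 = true := by
  decide +kernel

theorem crs_c_1_pl0 : okB 10000
    (tP 4 1 65 100 4120 3560 4542 10 22 13841 0 0 87014 140 730)
    0 1580 0 0 40 1000 1300 1700 2140 1250 2500 530 1045
    0x1d3a03e9d0180e9d0001e807a74000ba02e80ba7407d3a0101d00f405d0103e808e02e9d007407d0174580c0f405d0164040f2040410102e9d01f4e8041f4580c174580c174580811c080c101 = true := by
  decide +kernel

theorem crs_c_1_pl1 : okB 10000
    (tP 4 1 65 100 4120 3560 4542 10 22 11354 0 0 67887 140 730)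
    0 1580 0 0 40 1300 1700 1700 2140 1250 2500 530 1045
    0x74e807a740603a02e8b0102e9d01f4e80fa74000fa0201d0174e80fa02e8080f40400e02e9d007405d011c05d3a03e80ba023808001081001c020ba74e8040740590104c800174e80fa7403d0180e80ba02c808074e803a02380ba7407d012c0400e020210103 = true := by
  decide +kernel

theorem crs_c_1_pl2 : okB 10000
    (tP 4 1 65 100 4120 3560 4542 10 22 10805 0 0 64653 140 730)
    0 1580 0 0 40 1700 1795 1700 2140 1250 2500 530 1045
    0x74e80fa74020ce740608e04060ba7407d3a0305d0e03047010108100840410102 = true := by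
  decide +kernel

theorem crs_c_1_pm : okB 10000
    (tP 4 1 65 100 4120 3560 4542 10 22 0 800 0 0 140 730)
    0 1580 0 0 40 1795 1860 1700 2140 1250 2500 530 1045
    0x74e80ba1c020ce640608e04060ba1c07d3a0303d0e03047010108102010210102 = true := by
  decide +kernel

theorem crs_c_1_pr0 : okB 10000
    (tP 4 1 65 100 4120 3560 4542 10 22 0 9369 46069 0 140 730)
    0 1580 0 0 40 1860 2700 1700 2140 1250 2500 530 1045
    0x70e64e804e0238700830000e0409902020000183387011ce9d0000380ce0238701f4e800e030070e030404001387020338040023810200380401c0470102 = true := by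
  decide +kernel

theorem crs_c_1_db0 : okB 10000
    (tD 1 4 1 65 100 4120 3560 4542 10 22 2130 1795 0 17934 111831 0 0 17513 111831 0 140 730)
    0 1580 0 0 40 1000 1150 1700 2140 1250 2500 530 1045
    0x6dda0b681da0f6ed040b6ed049528206052e40808e0105b720404081a503b7681dbb40840408182 = true := by
  decide +kernel

theorem crs_c_1_db1 : okB 10000
    (tD 1 4 1 65 100 4120 3560 4542 10 22 2130 1795 0 16316 97766 0 0 15896 97766 0 140 730)
    0 1580 0 0 40 1150 1300 1700 2140 1250 2500 530 1045
    0x1b7682da05282db901040494e040608082dbb41253808101dbb41254a080edc9b40820808103 = true := by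
  decide +kernel

theorem crs_c_1_db2 : okB 10000
    (tD 1 4 1 65 100 4120 3560 4542 10 22 2130 1795 0 14919 87015 0 0 14498 87015 0 140 730)
    0 1580 0 0 40 1300 1500 1700 2140 1250 2500 530 1045
    0x6dda03683dbb41824a940edda00182dbb40ed07b52a502081013813a04040019c021320038042020610201080c102 = true := by
  decide +kernel

theorem crs_c_1_db3 : okB 10000
    (tD 1 4 1 65 100 4120 3560 4542 10 22 2130 1795 0 13284 76120 0 0 12864 76120 0 140 730)
    0 1580 0 0 40 1500 1795 1700 2140 1250 2500 530 1045
    0x6dda03682dbb4025040f6ed01b410138736810070102dbb416d4a08084c80020205b52823808083081001c02101840800102 = true := by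
  decide +kernel

theorem crs_c_1_da : okB 10000
    (tD 0 4 1 65 100 4120 3560 4542 10 22 2130 0 0 11226 64654 0 800 0 0 0 140 730)
    0 1580 0 0 40 1795 1860 1700 2140 1250 2500 530 1045
    0x1b7683dbb4182dbb419c0404e0406082250494102 = true := by
  decide +kernel

theorem crs_c_1_ua : okB 10000
    (tU 0 4 1 65 100 4120 3560 4542 10 22 465 0 12405 0 0 64654 800 0 0 0 140 730)
    0 1580 0 0 40 1795 1860 1700 2140 1250 2500 530 1045
    0x74ea0ce8506082820a0ba1d047019d0414101 = true := by
  decide +kernel

theorem crs_c_1_ub0 : okB 10000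
    (tU 1 4 1 65 100 4120 3560 4542 10 22 465 1860 12031 0 0 62645 12451 0 0 62645 140 730)
    0 1580 0 0 40 1860 2700 1700 2140 1250 2500 530 1045
    0x74e9d3a040803bd3a000074e8106741010a742830074e81020da1d0614e010008e9d0470e0204d0e9d040c09c0a101803808002 = true := by
  decide +kernel

theorem crs_c_2_pl0 : okB 10000
    (tP 4 1 65 100 4250 3560 4672 10 22 16220 0 0 102018 140 730)
    0 1580 0 0 40 1000 1100 1700 2140 1250 2500 530 1045
    0x74e80fa74060fa740607a740607a02e80ba740607a740207a02580ba7406b012c05d00f403d9701e8081f405d0103c810102 = true := by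
  decide +kernel

theorem crs_c_2_pl1 : okB 10000
    (tP 4 1 65 100 4250 3560 4672 10 22 15324 0 0 93874 140 730)
    0 1580 0 0 40 1100 1200 1700 2140 1250 2500 530 1045
    0x74e80fa74060fa740603a7407d0074e80c183e9d3a000607a74060ba740607a740207a7407d0082e9d0082e80ba740607a02380b204040ba7407d00f403d00f403d160105d970107d160105d01740410103 = true := by
  decide +kernel

theorem crs_c_2_pl2 : okB 10000
    (tP 4 1 65 100 4250 3560 4672 10 22 14501 0 0 87014 140 730)
    0 1580 0 0 40 1200 1300 1700 2140 1250 2500 530 1045
    0x1d3a03e9d0183e9d01f4e80c1f4e80fa74020c180e9d01f4e80c001e9d0181e9d01f4e800082e9d0182e80ba740607a02e809602080ba7407d011c0470101e9d01f403d017407d170303d01745c0c0f405d3a0303d01640410103 = true := by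
  decide +kernel

theorem crs_c_2_pl3 : okB 10000
    (tP 4 1 65 100 4250 3560 4672 10 22 13740 0 0 81162 140 730)
    0 1580 0 0 40 1300 1400 1700 2140 1250 2500 530 1045
    0x1d3a03e80ba7407d3a030603a740607a02e9d0181e80ba023808202e9d017403d011c0470101e9d01f403d00f607d3a0105d01740590174580ba015808e020210103 = true := by
  decide +kernel

theorem crs_c_2_pl4 : okB 10000
    (tP 4 1 65 100 4250 3560 4672 10 22 13034 0 0 76119 140 730)
    0 1580 0 0 40 1400 1500 1700 2140 1250 2500 530 1045
    0x1d3a03e9d0183e9d0181e80ba02380ba7407d00f607d01740590103e9d01f4e80c1f4580c11c040421c0210182 = true := by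
  decide +kernel

theorem crs_c_2_pl5 : okB 10000
    (tP 4 1 65 100 4250 3560 4672 10 22 12376 0 0 71732 140 730)
    0 1580 0 0 40 1500 1600 1700 2140 1250 2500 530 1045
    0x74e80fa740007a7403d8183e9d0182e9d0182e9d01f4e80c1f4580c1013990202060821c080c082 = true := by
  decide +kernel

theorem crs_c_2_pl6 : okB 10000
    (tP 4 1 65 100 4250 3560 4672 10 22 11761 0 0 67887 140 730)
    0 1580 0 0 40 1600 1700 1700 2140 1250 2500 530 1045
    0x74e80fa02e80ba7407d0101380821c020ba7407d0174041020105d3a033808e020210103 = true := by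
  decide +kernel

theorem crs_c_2_pl7 : okB 10000
    (tP 4 1 65 100 4250 3560 4672 10 22 11184 0 0 64493 140 730)
    0 1580 0 0 40 1700 1800 1700 2140 1250 2500 530 1045
    0x1d3a03e9d0181e9d018238700640608e04060ba7407d3a0305d0e03047010108100840610102 = true := by
  decide +kernel

theorem crs_c_2_pl8 : okB 10000
    (tP 4 1 65 100 4250 3560 4672 10 22 10851 0 0 62644 140 730)
    0 1580 0 0 40 1800 1860 1700 2140 1250 2500 530 1045
    0x74e80fa74040ce640608e04060ba7407d3a0303d0e03047010108100840610102 = true := by
  decide +kernel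

theorem crs_c_2_pm : okB 10000
    (tP 4 1 65 100 4250 3560 4672 10 22 0 800 0 0 140 730)
    0 1580 0 0 40 1860 1990 1700 2140 1250 2500 530 1045
    0x74e80ce740208e0238700e408081833810182e9d0174e800e020673a013808e03067010108702020270102 = true := by
  decide +kernel

theorem crs_c_2_pr0 : okB 10000
    (tP 4 1 65 100 4250 3560 4672 10 22 0 9968 46069 0 140 730)
    0 1580 0 0 40 1990 2700 1700 2140 1250 2500 530 1045
    0x1c39d0e03380801c0400e040818e010000183387009c9807a6406701000070e1c0404181387001c080ce010008e1c0070102 = true := by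
  decide +kernel

theorem crs_c_2_db0 : okB 10000
    (tD 1 4 1 65 100 4250 3560 4672 10 22 2130 1860 0 18833 111831 0 0 18019 111831 0 140 730)
    0 1580 0 0 40 1000 1200 1700 2140 1250 2500 530 1045
    0x6dda0b6814a0b6a504076a503b4103dbd3202080816ddb90202040802503b76810990004047068302342020608182 = true := by
  decide +kernel

theorem crs_c_2_db1 : okB 10000
    (tD 1 4 1 65 100 4250 3560 4672 10 22 2130 1860 0 16678 93875 0 0 15864 93875 0 140 730)
    0 1580 0 0 40 1200 1400 1700 2140 1250 2500 530 1045
    0x6dda0b6834bb4182da941ed4a081014bb42640008184080812503b42640008e0d06940810808182 = true := by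
  decide +kernel

theorem crs_c_2_db2 : okB 10000
    (tD 1 4 1 65 100 4250 3560 4672 10 22 2130 1860 0 14899 81163 0 0 14084 81163 0 140 730)
    0 1580 0 0 40 1400 1700 1700 2140 1250 2500 530 1045
    0x6dda09282da94125040c21c080c01c0210102dbb416d4a0811c04052ed07b4202dbb400005b52824a0c08438101010808103 = true := by
  decide +kernel

theorem crs_c_2_db3 : okB 10000
    (tD 1 4 1 65 100 4250 3560 4672 10 22 2130 1860 0 12642 67888 0 0 11828 67888 0 140 730)
    0 1580 0 0 40 1700 1860 1700 2140 1250 2500 530 1045
    0x6dda0ce6d01b418238102040204182dbb41ed4a0c11c38041010810e010270102 = true := by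
  decide +kernel

theorem crs_c_2_da : okB 10000
    (tD 0 4 1 65 100 4250 3560 4672 10 22 2130 0 0 11667 62645 0 800 0 0 0 140 730)
    0 1580 0 0 40 1860 1990 1700 2140 1250 2500 530 1045
    0x6dda00e024bb4202060d284060b6ed05b5282067010108940a50494102 = true := by
  decide +kernel

theorem crs_c_2_ua : okB 10000
    (tU 0 4 1 65 100 4250 3560 4672 10 22 400 0 12451 0 0 62645 800 0 0 0 140 730)
    0 1580 0 0 40 1860 1990 1700 2140 1250 2500 530 1045
    0x743808e823a14381060faf5067011c3a741810604e8506082850274102 = true := by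
  decide +kernel

theorem crs_c_2_ub0 : okB 10000
    (tU 1 4 1 65 100 4250 3560 4672 10 22 400 1990 11736 0 0 59049 12550 0 0 59049 140 730)
    0 1580 0 0 40 1990 2700 1700 2140 1250 2500 530 1045
    0x1d3a741813b33a000074e810605a1c3a040023a1419d3a040836875a010670e010a700830008e9c0670e020470e0204d1a1c0470e02040c082 = true := by
  decide +kernel

theorem crs_c_3_pl0 : okB 10000
    (tP 4 1 65 100 4315 3560 4737 10 22 16341 0 0 97765 140 730)
    0 1580 0 0 40 1000 1150 1700 2140 1250 2500 560 1045
    0x1d3a03e9d0183e9d0181e80ba02e9d0181e9d0081e808e02c810102e9d01f402b012c05d00f403d970107d01740410103 = true := by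
  decide +kernel

theorem crs_c_3_pl1 : okB 10000
    (tP 4 1 65 100 4315 3560 4737 10 22 15104 0 0 87014 140 730)
    0 1580 0 0 40 1150 1300 1700 2140 1250 2500 560 1045
    0x74e803a74060fa74000ba740607a02e9d0181e8096025808202e9d007607d00f402b017607d01740410103e9d01745c0c1f4047011c080c101 = true := by
  decide +kernel

theorem crs_c_3_pl2 : okB 10000
    (tP 4 1 65 100 4315 3560 4737 10 22 13688 0 0 76119 140 730)
    0 1580 0 0 40 1300 1500 1700 2140 1250 2500 560 1045
    0x1d3a03e9d00f4e80c180e9d0181e9d3a0301d00f6060fa7407d3a01060ba74060ba740608e64060ba7401d00f404701745c0fa025808e02060421c0210182 = true := by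
  decide +kernel

theorem crs_c_3_pl3 : okB 10000
    (tP 4 1 65 100 4315 3560 4737 10 22 12191 0 0 66138 140 730)
    0 1580 0 0 40 1500 1750 1700 2140 1250 2500 560 1045
    0x1d3a01e80ba7407d00f40403a1c0408e02080ba7401d0174e80011c0470101e9d160201d011c041320005dbb00ec0820207d3a03e808e2c0008e020210103 = true := by
  decide +kernel

theorem crs_c_3_pl4 : okB 10000
    (tP 4 1 65 100 4315 3560 4737 10 22 10950 0 0 59048 140 730)
    0 1580 0 0 40 1750 1990 1700 2140 1250 2500 560 1045
    0x1d0e02cc0fa740598181399019c020ba7407d3a0301d3a0304732030400e040608204040ba7403d3a0101d3a023dd000307d0e02380c11c0470204040c101 = true := by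
  decide +kernel

theorem crs_c_3_pm : okB 10000
    (tP 4 1 65 100 4315 3560 4737 10 22 0 800 0 0 140 730)
    0 1580 0 0 40 1990 2055 1700 2140 1250 2500 560 1045
    0x743808e023870083e9d00e40404e02381011c381010103902020808e01060ce02 = true := by
  decide +kernel

theorem crs_c_3_pr0 : okB 10000
    (tP 4 1 65 100 4315 3560 4737 10 22 0 10268 46069 0 140 730)
    0 1580 0 0 40 2055 2700 1700 2140 1250 2500 560 1045
    0x1c393009c0670100381030006700839933a64060001c380419c38701800404e340270204000ce010008e1c0070102 = true := by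
  decide +kernel

theorem crs_c_3_db0 : okB 10000
    (tD 1 4 1 65 100 4315 3560 4737 10 22 2130 1990 0 19572 111831 0 0 19188 111831 0 140 730)
    0 1580 0 0 40 1000 1300 1700 2140 1250 2500 560 1045
    0x1b5282da05282da94101dbb41254a08083dbb4104e800202080812503b769c020868d380408207b7684c8002020409281da3469c0204683040c002 = true := by
  decide +kernel

theorem crs_c_3_db1 : okB 10000
    (tD 1 4 1 65 100 4315 3560 4737 10 22 2130 1990 0 16346 87015 0 0 15962 87015 0 140 730)
    0 1580 0 0 40 1300 1700 1700 2140 1250 2500 560 1045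
    0x6dda036834a9406d06092ed099000206976830008e04da102010400184c99800404001840800102da941ed4a0c1254a0d2820494e1c0408e040608101 = true := by
  decide +kernel

theorem crs_c_3_db2 : okB 10000
    (tD 1 4 1 65 100 4315 3560 4737 10 22 2130 1990 0 13094 67888 0 0 12710 67888 0 140 730)
    0 1580 0 0 40 1700 1990 1700 2140 1250 2500 560 1045
    0x1b76804a08e024bb426400081840804e01080c103dbb41ed4a0c11c3870181040420400702030270102 = true := by
  decide +kernel

theorem crs_c_3_da : okB 10000
    (tD 0 4 1 65 100 4315 3560 4737 10 22 2130 0 0 11335 59049 0 800 0 0 0 140 730)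
    0 1580 0 0 40 1990 2055 1700 2140 1250 2500 560 1045
    0x6d4a0b6ed0204e02cc101040471282020ce02 = true := by
  decide +kernel

theorem crs_c_3_ua : okB 10000
    (tU 0 4 1 65 100 4315 3560 4737 10 22 270 0 12550 0 0 59049 800 0 0 0 140 730)
    0 1580 0 0 40 1990 2055 1700 2140 1250 2500 560 1045
    0x743a0f3033a14182e87019c040429c0208e02 = true := by
  decide +kernel

theorem crs_c_3_ub0 : okB 10000
    (tU 1 4 1 65 100 4315 3560 4737 10 22 270 2055 12219 0 0 57436 12603 0 0 57436 140 730)
    0 1580 0 0 40 2055 2700 1700 2140 1250 2500 560 1045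
    0x1d3a74181693004c980c0016870e810008e870674f81020ce9c08001b438000b438700830408e1c04d0e02027001c3808102 = true := by
  decide +kernel

theorem crs_c_4_pl0 : okB 10000
    (tP 4 1 65 100 4380 3560 4802 10 22 17349 0 0 102018 140 730)
    0 1580 0 0 40 1000 1100 1700 2140 1250 2500 625 1045
    0x1d3a74060fa01e9d00f403d012e060fa2c060ba02e80ba2c05d170306b0101c810102 = true := by
  decide +kernel

theorem crs_c_4_pl1 : okB 10000
    (tP 4 1 65 100 4380 3560 4802 10 22 16454 0 0 93874 140 730)
    0 1580 0 0 40 1100 1200 1700 2140 1250 2500 625 1045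
    0x1d3a74060fa740607a01e80ba01e8096020870082e9d01ac05d00f402b81f402b160105d01740410103 = true := by
  decide +kernel

theorem crs_c_4_pl2 : okB 10000
    (tP 4 1 65 100 4380 3560 4802 10 22 15630 0 0 87014 140 730)
    0 1580 0 0 40 1200 1300 1700 2140 1250 2500 625 1045
    0x1d3a74060fa740007a02e807a02e807a023808204020ba7400b017607d00f402b81f403d160105d01640410103 = true := by
  decide +kernel

theorem crs_c_4_pl3 : okB 10000
    (tP 4 1 65 100 4380 3560 4802 10 22 14870 0 0 81162 140 730)
    0 1580 0 0 40 1300 1400 1700 2140 1250 2500 625 1045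
    0x74e9d0183e807a74000ba02580ba7406b017403d00ae07d0174040fa745c0c1f40404e6606082040210102 = true := by
  decide +kernel

theorem crs_c_4_pl4 : okB 10000
    (tP 4 1 65 100 4380 3560 4802 10 22 14164 0 0 76119 140 730)
    0 1580 0 0 40 1400 1500 1700 2140 1250 2500 625 1045
    0x1d3a03e807a01e8b017402b8183e9d0181e8b01f4020967407d00823990e0106082040210102 = true := by
  decide +kernel

theorem crs_c_4_pl5 : okB 10000
    (tP 4 1 65 100 4380 3560 4802 10 22 13505 0 0 71732 140 730)
    0 1580 0 0 40 1500 1600 1700 2140 1250 2500 625 1045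
    0x74e807a2e060fa740607a2c060ba74020ba7405d1602580818139d020206082040210102 = true := by
  decide +kernel

theorem crs_c_4_pl6 : okB 10000
    (tP 4 1 65 100 4380 3560 4802 10 22 12890 0 0 67887 140 730)
    0 1580 0 0 40 1600 1700 1700 2140 1250 2500 625 1045
    0x74e80ba01e8b81ac040fa745808181e9d00f45804182399820206082040210102 = true := by
  decide +kernel

theorem crs_c_4_pl7 : okB 10000
    (tP 4 1 65 100 4380 3560 4802 10 22 12313 0 0 64493 140 730)
    0 1580 0 0 40 1700 1800 1700 2140 1250 2500 625 1045
    0x1d3a023808e02e8b01ac05d0104040fa74e8001f4380c11c04042040210102 = true := by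
  decide +kernel

theorem crs_c_4_pl8 : okB 10000
    (tP 4 1 65 100 4380 3560 4802 10 22 11771 0 0 61481 140 730)
    0 1580 0 0 40 1800 1900 1700 2140 1250 2500 625 1045
    0x1d3a02380ba2c05901033810182e9d01f4e80c0f4380c11c040421c0210102 = true := by
  decide +kernel

theorem crs_c_4_pl9 : okB 10000
    (tP 4 1 65 100 4380 3560 4802 10 22 11002 0 0 57435 140 730)
    0 1580 0 0 40 1900 2055 1700 2140 1250 2500 625 1045
    0x1d0e02e9d00013808e023870e0002703020610103e9d00e4059b301380819c0404e02 = true := by
  decide +kernel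

theorem crs_c_4_pm : okB 10000
    (tP 4 1 65 100 4380 3560 4802 10 22 0 800 0 0 140 730)
    0 1580 0 0 40 2055 2120 1700 2140 1250 2500 625 1045
    0x190e023870083e9d00f40404e02381011c021011ce8101013c0c0833870082 = true := by
  decide +kernel

theorem crs_c_4_pr0 : okB 10000
    (tP 4 1 65 100 4380 3560 4802 10 22 0 10567 46069 0 140 730)
    0 1580 0 0 40 2120 2700 1700 2140 1250 2500 625 1045
    0x70e003808e023873a01007011c0670204020c11c3810180040264ce9d00800070e000470e1c380408006d0e000404e1c0070102 = true := by
  decide +kernel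

theorem crs_c_4_db0 : okB 10000
    (tD 1 4 1 65 100 4380 3560 4802 10 22 2130 2055 0 20002 111831 0 0 19629 111831 0 140 730)
    0 1580 0 0 40 1000 1300 1700 2140 1250 2500 625 1045
    0x1b5283da076ed020b6a503b5281000b6edda036800494084c810100da0128d06052a5040426d08100821a0c01c08340030208102 = true := by
  decide +kernel

theorem crs_c_4_db1 : okB 10000
    (tD 1 4 1 65 100 4380 3560 4802 10 22 2130 2055 0 16776 87015 0 0 16403 87015 0 140 730)
    0 1580 0 0 40 1300 1700 1700 2140 1250 2500 625 1045
    0x6d4a0d2834bb41824b90202da036800695282020b6ed009528006952830405284da0019c080ce01080c125021020038102000604102 = true := by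
  decide +kernel

theorem crs_c_4_db2 : okB 10000
    (tD 1 4 1 65 100 4380 3560 4802 10 22 2130 2055 0 13525 67888 0 0 13151 67888 0 140 730)
    0 1580 0 0 40 1700 2055 1700 2140 1250 2500 625 1045
    0x6d4a0d2834a9426400081a5020b6a54a001ed4a0c1013810e0606002020694e030208204001011c0270102 = true := by
  decide +kernel

theorem crs_c_4_da : okB 10000
    (tD 0 4 1 65 100 4380 3560 4802 10 22 2130 0 0 11377 57436 0 800 0 0 0 140 730)
    0 1580 0 0 40 2055 2120 1700 2140 1250 2500 625 1045
    0x1b5282da04e024a101040479283020ce02 = true := by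
  decide +kernel

theorem crs_c_4_ua : okB 10000
    (tU 0 4 1 65 100 4380 3560 4802 10 22 205 0 12603 0 0 57436 800 0 0 0 140 730)
    0 1580 0 0 40 2055 2120 1700 2140 1250 2500 625 1045
    0x70e01e804ef50208e023a14105047cf81020ce02 = true := by
  decide +kernel

theorem crs_c_4_ub0 : okB 10000
    (tU 1 4 1 65 100 4380 3560 4802 10 22 205 2120 12284 0 0 55932 12657 0 0 55932 140 730)
    0 1580 0 0 40 2120 2700 1700 2140 1250 2500 625 1045
    0x74e9d0204e83687019c0a0c002387011c080019c3808102993004c0474f8106d0e4c020013438700800404e1c04d009c3808102 = true := by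
  decide +kernel

theorem crs_c_5_pl0 : okB 10000
    (tP 4 1 65 100 4380 3560 4932 10 22 16559 0 0 93874 140 730)
    0 1580 0 0 40 1000 1200 1700 2140 1250 2500 690 1045
    0x74e9d0183e80ba01e807a02380b204040ba7407d81f405d00f402b160104b01740410103 = true := by
  decide +kernel

theorem crs_c_5_pl1 : okB 10000
    (tP 4 1 65 100 4380 3560 4932 10 22 15034 0 0 81162 140 730)
    0 1580 0 0 40 1200 1400 1700 2140 1250 2500 690 1045
    0x1d3a74000fa01e80ba02e807a02380821c020ba74e80407607d00f45c0c17404b016405d160258096020210103 = true := by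
  decide +kernel

theorem crs_c_5_pl2 : okB 10000
    (tP 4 1 65 100 4380 3560 4932 10 22 13175 0 0 67887 140 730)
    0 1580 0 0 40 1400 1700 1700 2140 1250 2500 690 1045
    0x1d1602e807a02e9d01f403d012c0400e02e8b017402b0174e80fa0158096020190202040c202e9d01f4e80fa0201d3a02047011c0808101 = true := by
  decide +kernel

theorem crs_c_5_pl3 : okB 10000
    (tP 4 1 65 100 4380 3560 4932 10 22 11629 0 0 58792 140 730)
    0 1580 0 0 40 1700 2000 1700 2140 1250 2500 690 1045
    0x74e808e02e9d001c0403a740190101380ba74007160004701043804174e800e02e9d001c0404e02020c21c0270102 = true := by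
  decide +kernel

theorem crs_c_5_pl4 : okB 10000
    (tP 4 1 65 100 4380 3560 4932 10 22 11057 0 0 55931 140 730)
    0 1580 0 0 40 2000 2120 1700 2140 1250 2500 690 1045
    0x74380ce02e8701813808e04060ba7405d0e02cc0419c0404e02 = true := by
  decide +kernel

theorem crs_c_5_pm : okB 10000
    (tP 4 1 65 100 4380 3560 4932 10 22 0 800 0 0 140 730)
    0 1580 0 0 40 2120 2250 1700 2140 1250 2500 690 1045
    0x73a01380ce023810182380ba74007011c9c0419c0470101 = true := by
  decide +kernel

theorem crs_c_5_pr0 : okB 10000
    (tP 4 1 65 100 4380 3560 4932 10 22 0 11166 46069 0 140 730)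
    0 1580 0 0 40 2250 2700 1700 2140 1250 2500 690 1045
    0x70e1c0200e033870002387000298701cc380c0cc380c1340404e1c0070102 = true := by
  decide +kernel

theorem crs_c_5_db0 : okB 10000
    (tD 1 4 1 65 100 4380 3560 4932 10 22 2130 2120 0 20798 111831 0 0 20070 111831 0 140 730)
    0 1580 0 0 40 1000 1300 1700 2140 1250 2500 690 1045
    0x1b76814a0b6a50213200380420204940824bb416d1a0929c0808101040f6a505b416d4a080eddb90202da0068304092a51a0c1250204100 = true := by
  decide +kernel

theorem crs_c_5_db1 : okB 10000
    (tD 1 4 1 65 100 4380 3560 4932 10 22 2130 2120 0 17571 87015 0 0 16844 87015 0 140 730)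
    0 1580 0 0 40 1300 1700 1700 2140 1250 2500 690 1045
    0x1b52824a092ed4bb468206081034a7020238041041a00202380468306102000800102dbb41254a0012538102000608101 = true := by
  decide +kernel

theorem crs_c_5_db2 : okB 10000
    (tD 1 4 1 65 100 4380 3560 4932 10 22 2130 2120 0 14320 67888 0 0 13593 67888 0 140 730)
    0 1580 0 0 40 1700 2120 1700 2140 1250 2500 690 1045
    0x95280da052834a0929c38181830470203040b6a54a001a54a0128304712800404e040808e010070102 = true := by
  decide +kernel

theorem crs_c_5_da : okB 10000
    (tD 0 4 1 65 100 4380 3560 4932 10 22 2130 0 0 11785 55932 0 800 0 0 0 140 730)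
    0 1580 0 0 40 2120 2250 1700 2140 1250 2500 690 1045
    0x70e250605284060b6a5067011c0404e02 = true := by
  decide +kernel

theorem crs_c_5_ua : okB 10000
    (tU 0 4 1 65 100 4380 3560 4932 10 22 140 0 12657 0 0 55932 800 0 0 0 140 730)
    0 1580 0 0 40 2120 2250 1700 2140 1250 2500 690 1045
    0x1d3804e830a14082e87411d0474f810604e02 = true := by
  decide +kernel

theorem crs_c_5_ub0 : okB 10000
    (tU 1 4 1 65 100 4380 3560 4932 10 22 140 2250 12045 0 0 53211 12772 0 0 53211 140 730)
    0 1580 0 0 40 2250 2700 1700 2140 1250 2500 690 1045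
    0x74e813a0da1c0008e1c0270102993004c0474f8106d0101387009c0470102 = true := by
  decide +kernel

end RQ4

end Pool.Agent.Work.MP_b30479_gtS.G2

end

section

/-!
# Rings with the ring variable on the ramp, `b = 4`, inside: rows rs_c
-/

set_option deprecated.oldSectionVars true

namespace Pool.Agent.Work.MP_b30479_gtS.G2

open Real NumIs

namespace RQ4

open RC RQ

theorem srs_c_0 {xs s T ρ : ℝ} (hW : RWp.In ⟨1730 / 10000, 2370 / 10000, 120 / 10000, 560 / 10000, 2130 / 10000, 2260 / 10000, 530 / 10000, 1045 / 10000, 4380 / 10000, 3560 / 10000, 140 / 10000, 730 / 10000, 22 / 10, 59 / 100⟩ xs s T ρ)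
    (ha : ((1730 : ℕ) : ℝ) / 10000 ≤ xs) (he : xs ≤ ((1795 : ℕ) : ℝ) / 10000) :
    RampOK (65 / 100) (8 / 100) (11 / 10) 4 xs (1 / 2 - s) T ρ (10 / 100) (27 / 100) := by
  have hN : Nm 4055 3560 4477 10 22 530 2130 140 730 1700 2140 530 1045 xs s T ρ := by
    obtain ⟨-, -, w1, w2, w3, w4, w5, w6, w7, w8, w9, w10, w11, w12⟩ := hW
    dsimp only at w1 w2 w3 w4 w6 w7 w8 w9 w10 w11 w12
    push_cast at ha he
    exact ⟨by linarith only [ha, w5, w7], by linarith only [he, w5, w7], by push_cast; linarith only [w3], by norm_num, by push_cast; linarith only [he, w4],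
      by norm_num, by push_cast; linarith only [he, w4, w5, w6], by norm_num, by push_cast; linarith only [he, w4, w5, w7, w11], by norm_num,
      by push_cast; linarith only [he, w3, w5, w7], by push_cast; linarith only [ha, w4], by norm_num, by push_cast; linarith only [w1],
      by push_cast; linarith only [w2], by push_cast; linarith only [w6], by push_cast; linarith only [w7], w5,
      fun _ => by push_cast; linarith only [w10], by push_cast; linarith only [w11]⟩
  have hT : |T| ≤ ((560 : ℕ) : ℝ) / 10000 := by
    have w1 := hW.t0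
    have w2 := hW.t1
    dsimp only at w1 w2
    rw [abs_le]
    push_cast
    constructor <;> linarith only [w1, w2]
  have kc : kC4 11000 1730 1795 560 0 = true := by decide +kernel
  have ua : kU 11000 1730 66826 = true := by decide +kernel
  have hcl : (0 : ℝ) < 10 / 100 := by norm_num
  have hcp : (27 / 100 : ℝ) < 1 / 2 := by norm_num
  have h5 := hN.xs1.le
  refine ⟨fun x y hA => ?_, fun x y hA hx => ?_, fun x y hA hx => ?_⟩
  · have hx0 : ((1000 : ℕ) : ℝ) / 10000 ≤ x := le_trans (by norm_num) hA.x0
    have hx1 : x ≤ ((2700 : ℕ) : ℝ) / 10000 := le_trans hA.x1 (by norm_num)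
    have x0 : 0 < x := (n0 (by decide)).trans_le hx0
    rcases le_total x (((1200 : ℕ) : ℝ) / 10000) with c0 | c0
    · have h := piP crs_c_0_pl0 hN hA hcl hcp hx0 c0
      have g0 := gL (be := 11000) (p := 1200) (G := 93874) (by decide +kernel) x0 c0 le_rfl (by decide)
      have g1 := gL (be := 11000) (p := 1400) (G := 81162) (x := ((1200 : ℕ) : ℝ) / 10000) (by decide +kernel)
        (n0 (by decide)) (nle (by decide)) le_rfl (by decide)
      have g2 := gL (be := 11000) (p := 1730) (G := 66825) (x := ((1400 : ℕ) : ℝ) / 10000) (by decide +kernel)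
        (n0 (by decide)) (nle (by decide)) le_rfl (by decide)
      have gm := gh_mono (x := ((1730 : ℕ) : ℝ) / 10000) (n0 (by decide)) ha h5
      unfold lin at h
      push_cast at h gm g0 g1 g2
      linarith only [neg_abs_le (gh x - gh xs), h, gm, g0, g1, g2]
    rcases le_total x (((1400 : ℕ) : ℝ) / 10000) with c1 | c1
    · have h := piP crs_c_0_pl1 hN hA hcl hcp c0 c1
      have g0 := gL (be := 11000) (p := 1400) (G := 81162) (by decide +kernel) x0 c1 le_rfl (by decide)
      have g1 := gL (be := 11000) (p := 1730) (G := 66825) (x := ((1400 : ℕ) : ℝ) / 10000) (by decide +kernel)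
        (n0 (by decide)) (nle (by decide)) le_rfl (by decide)
      have gm := gh_mono (x := ((1730 : ℕ) : ℝ) / 10000) (n0 (by decide)) ha h5
      unfold lin at h
      push_cast at h gm g0 g1
      linarith only [neg_abs_le (gh x - gh xs), h, gm, g0, g1]
    rcases le_total x (((1730 : ℕ) : ℝ) / 10000) with c2 | c2
    · have h := piP crs_c_0_pl2 hN hA hcl hcp c1 c2
      have g0 := gL (be := 11000) (p := 1730) (G := 66825) (by decide +kernel) x0 c2 le_rfl (by decide)
      have gm := gh_mono (x := ((1730 : ℕ) : ℝ) / 10000) (n0 (by decide)) ha h5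
      unfold lin at h
      push_cast at h gm g0
      linarith only [neg_abs_le (gh x - gh xs), h, gm, g0]
    rcases le_total x (((1795 : ℕ) : ℝ) / 10000) with ce | ce
    · have h := piP crs_c_0_pm hN hA hcl hcp c2 ce
      unfold lin at h
      push_cast at h
      linarith only [abs_nonneg (gh x - gh xs), h]
    have gm := gh_mono (y := ((1795 : ℕ) : ℝ) / 10000) hN.xs0 he (nhalf (by decide))
    have h := piP crs_c_0_pr0 hN hA hcl hcp ce hx1
    have g0 := gL (be := 11000) (p := 2700) (G := 46069) (x := ((1795 : ℕ) : ℝ) / 10000) (by decide +kernel)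
      (n0 (by decide)) ce hx1 (by decide)
    unfold lin at h
    push_cast at h gm g0
    linarith only [le_abs_self (gh x - gh xs), h, gm, g0]
  · have hx0 : ((1000 : ℕ) : ℝ) / 10000 ≤ x := le_trans (by norm_num) hA.x0
    have hx1 : x ≤ ((2700 : ℕ) : ℝ) / 10000 := le_trans hA.x1 (by norm_num)
    have gm := gh_mono ((n0 (by decide)).trans_le hx0) hx.le h5
    have ga := gU ua (by decide) le_rfl ha h5
    have g3 := gS4 kc (by decide) (by decide) le_rfl ha he hT
    push_cast at ga g3
    rcases le_total x (((1200 : ℕ) : ℝ) / 10000) with c0 | c0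
    · have h := piD1 crs_c_0_db0 hN hA hcl hcp (by decide) hx0 c0 ha
      have g0 := gU (be := 11000) (p := 1000) (G := 111831) (by decide +kernel) (by decide) hx0 c0
        (nhalf (by decide))
      have k1 := gU (be := 11000) (p := 1200) (G := 93875) (y := ((1400 : ℕ) : ℝ) / 10000) (by decide +kernel)
        (by decide) le_rfl (nle (by decide)) (nhalf (by decide))
      have k2 := gU (be := 11000) (p := 1400) (G := 81163) (y := ((1730 : ℕ) : ℝ) / 10000) (by decide +kernel)
        (by decide) le_rfl (nle (by decide)) (nhalf (by decide))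
      push_cast at h g0 k1 k2
      unfold lin at h
      push_cast at h
      exact dn_fin5 h gm (by linarith only [he, ga, g0, k1, k2]) (by linarith only [g3, g0, k1, k2])
    rcases le_total x (((1400 : ℕ) : ℝ) / 10000) with c1 | c1
    · have h := piD1 crs_c_0_db1 hN hA hcl hcp (by decide) c0 c1 ha
      have g0 := gU (be := 11000) (p := 1200) (G := 93875) (by decide +kernel) (by decide) c0 c1
        (nhalf (by decide))
      have k1 := gU (be := 11000) (p := 1400) (G := 81163) (y := ((1730 : ℕ) : ℝ) / 10000) (by decide +kernel)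
        (by decide) le_rfl (nle (by decide)) (nhalf (by decide))
      push_cast at h g0 k1
      unfold lin at h
      push_cast at h
      exact dn_fin5 h gm (by linarith only [he, ga, g0, k1]) (by linarith only [g3, g0, k1])
    rcases le_total x (((1730 : ℕ) : ℝ) / 10000) with c2 | c2
    · have h := piD1 crs_c_0_db2 hN hA hcl hcp (by decide) c1 c2 ha
      have g0 := gU (be := 11000) (p := 1400) (G := 81163) (by decide +kernel) (by decide) c1 c2
        (nhalf (by decide))
      push_cast at h g0
      unfold lin at h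
      push_cast at h
      exact dn_fin5 h gm (by linarith only [he, ga, g0]) (by linarith only [g3, g0])
    have h := piD0 crs_c_0_da hN hA hcl hcp (by decide) c2 (hx.le.trans he) hx.le
    have g1 := gU ua (by decide) c2 hx.le h5
    have g4 := gS4 kc (by decide) (by decide) c2 hx.le he hT
    unfold lin at h
    push_cast at h g1 g4
    exact dn_fin5 h gm (by linarith only [he, g1]) (by linarith only [g4])
  · have hx0 : ((1000 : ℕ) : ℝ) / 10000 ≤ x := le_trans (by norm_num) hA.x0
    have hx1 : x ≤ ((2700 : ℕ) : ℝ) / 10000 := le_trans hA.x1 (by norm_num)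
    have gm := gh_mono hN.xs0 hx.le (hx1.trans (nhalf (by decide)))
    rcases le_total x (((1795 : ℕ) : ℝ) / 10000) with ce | ce
    · have h := piU0 crs_c_0_ua hN hA hcl hcp (ha.trans hx.le) ce
      have g1 := gU ua (by decide) ha hx.le (hx1.trans (nhalf (by decide)))
      have g3 := gS4 kc (by decide) (by decide) ha hx.le ce hT
      unfold lin at h
      push_cast at h g1 g3
      exact up_fin5 h gm (by linarith only [ha, g1]) (by linarith only [g3])
    have ga := gU (y := ((1795 : ℕ) : ℝ) / 10000) ua (by decide) ha he (nhalf (by decide))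
    have g3 := gS4 kc (by decide) (by decide) ha he le_rfl hT
    push_cast at ga g3
    have h := piU1 crs_c_0_ub0 hN hA hcl hcp ce hx1
    have g0 := gU (be := 11000) (p := 1795) (G := 64654) (by decide +kernel) (by decide) le_rfl ce
      (hx1.trans (nhalf (by decide)))
    unfold lin at h
    push_cast at h g0
    exact up_fin5 h gm (by linarith only [ha, ga, g0]) (by linarith only [g3, g0])

theorem srs_c_1 {xs s T ρ : ℝ} (hW : RWp.In ⟨1730 / 10000, 2370 / 10000, 120 / 10000, 560 / 10000, 2130 / 10000, 2260 / 10000, 530 / 10000, 1045 / 10000, 4380 / 10000, 3560 / 10000, 140 / 10000, 730 / 10000, 22 / 10, 59 / 100⟩ xs s T ρ)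
    (ha : ((1795 : ℕ) : ℝ) / 10000 ≤ xs) (he : xs ≤ ((1860 : ℕ) : ℝ) / 10000) :
    RampOK (65 / 100) (8 / 100) (11 / 10) 4 xs (1 / 2 - s) T ρ (10 / 100) (27 / 100) := by
  have hN : Nm 4120 3560 4542 10 22 465 2130 140 730 1700 2140 530 1045 xs s T ρ := by
    obtain ⟨-, -, w1, w2, w3, w4, w5, w6, w7, w8, w9, w10, w11, w12⟩ := hW
    dsimp only at w1 w2 w3 w4 w6 w7 w8 w9 w10 w11 w12
    push_cast at ha he
    exact ⟨by linarith only [ha, w5, w7], by linarith only [he, w5, w7], by push_cast; linarith only [w3], by norm_num, by push_cast; linarith only [he, w4],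
      by norm_num, by push_cast; linarith only [w9], by norm_num, by push_cast; linarith only [he, w4, w5, w7, w11], by norm_num,
      by push_cast; linarith only [he, w3, w5, w7], by push_cast; linarith only [ha, w4], by norm_num, by push_cast; linarith only [w1],
      by push_cast; linarith only [w2], by push_cast; linarith only [w6], by push_cast; linarith only [w7], w5,
      fun _ => by push_cast; linarith only [w10], by push_cast; linarith only [w11]⟩
  have hT : |T| ≤ ((560 : ℕ) : ℝ) / 10000 := by
    have w1 := hW.t0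
    have w2 := hW.t1
    dsimp only at w1 w2
    rw [abs_le]
    push_cast
    constructor <;> linarith only [w1, w2]
  have kc : kC4 11000 1795 1860 560 0 = true := by decide +kernel
  have ua : kU 11000 1795 64654 = true := by decide +kernel
  have hcl : (0 : ℝ) < 10 / 100 := by norm_num
  have hcp : (27 / 100 : ℝ) < 1 / 2 := by norm_num
  have h5 := hN.xs1.le
  refine ⟨fun x y hA => ?_, fun x y hA hx => ?_, fun x y hA hx => ?_⟩
  · have hx0 : ((1000 : ℕ) : ℝ) / 10000 ≤ x := le_trans (by norm_num) hA.x0
    have hx1 : x ≤ ((2700 : ℕ) : ℝ) / 10000 := le_trans hA.x1 (by norm_num)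
    have x0 : 0 < x := (n0 (by decide)).trans_le hx0
    rcases le_total x (((1300 : ℕ) : ℝ) / 10000) with c0 | c0
    · have h := piP crs_c_1_pl0 hN hA hcl hcp hx0 c0
      have g0 := gL (be := 11000) (p := 1300) (G := 87014) (by decide +kernel) x0 c0 le_rfl (by decide)
      have g1 := gL (be := 11000) (p := 1700) (G := 67887) (x := ((1300 : ℕ) : ℝ) / 10000) (by decide +kernel)
        (n0 (by decide)) (nle (by decide)) le_rfl (by decide)
      have g2 := gL (be := 11000) (p := 1795) (G := 64653) (x := ((1700 : ℕ) : ℝ) / 10000) (by decide +kernel)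
        (n0 (by decide)) (nle (by decide)) le_rfl (by decide)
      have gm := gh_mono (x := ((1795 : ℕ) : ℝ) / 10000) (n0 (by decide)) ha h5
      unfold lin at h
      push_cast at h gm g0 g1 g2
      linarith only [neg_abs_le (gh x - gh xs), h, gm, g0, g1, g2]
    rcases le_total x (((1700 : ℕ) : ℝ) / 10000) with c1 | c1
    · have h := piP crs_c_1_pl1 hN hA hcl hcp c0 c1
      have g0 := gL (be := 11000) (p := 1700) (G := 67887) (by decide +kernel) x0 c1 le_rfl (by decide)
      have g1 := gL (be := 11000) (p := 1795) (G := 64653) (x := ((1700 : ℕ) : ℝ) / 10000) (by decide +kernel)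
        (n0 (by decide)) (nle (by decide)) le_rfl (by decide)
      have gm := gh_mono (x := ((1795 : ℕ) : ℝ) / 10000) (n0 (by decide)) ha h5
      unfold lin at h
      push_cast at h gm g0 g1
      linarith only [neg_abs_le (gh x - gh xs), h, gm, g0, g1]
    rcases le_total x (((1795 : ℕ) : ℝ) / 10000) with c2 | c2
    · have h := piP crs_c_1_pl2 hN hA hcl hcp c1 c2
      have g0 := gL (be := 11000) (p := 1795) (G := 64653) (by decide +kernel) x0 c2 le_rfl (by decide)
      have gm := gh_mono (x := ((1795 : ℕ) : ℝ) / 10000) (n0 (by decide)) ha h5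
      unfold lin at h
      push_cast at h gm g0
      linarith only [neg_abs_le (gh x - gh xs), h, gm, g0]
    rcases le_total x (((1860 : ℕ) : ℝ) / 10000) with ce | ce
    · have h := piP crs_c_1_pm hN hA hcl hcp c2 ce
      unfold lin at h
      push_cast at h
      linarith only [abs_nonneg (gh x - gh xs), h]
    have gm := gh_mono (y := ((1860 : ℕ) : ℝ) / 10000) hN.xs0 he (nhalf (by decide))
    have h := piP crs_c_1_pr0 hN hA hcl hcp ce hx1
    have g0 := gL (be := 11000) (p := 2700) (G := 46069) (x := ((1860 : ℕ) : ℝ) / 10000) (by decide +kernel)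
      (n0 (by decide)) ce hx1 (by decide)
    unfold lin at h
    push_cast at h gm g0
    linarith only [le_abs_self (gh x - gh xs), h, gm, g0]
  · have hx0 : ((1000 : ℕ) : ℝ) / 10000 ≤ x := le_trans (by norm_num) hA.x0
    have hx1 : x ≤ ((2700 : ℕ) : ℝ) / 10000 := le_trans hA.x1 (by norm_num)
    have gm := gh_mono ((n0 (by decide)).trans_le hx0) hx.le h5
    have ga := gU ua (by decide) le_rfl ha h5
    have g3 := gS4 kc (by decide) (by decide) le_rfl ha he hT
    push_cast at ga g3
    rcases le_total x (((1150 : ℕ) : ℝ) / 10000) with c0 | c0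
    · have h := piD1 crs_c_1_db0 hN hA hcl hcp (by decide) hx0 c0 ha
      have g0 := gU (be := 11000) (p := 1000) (G := 111831) (by decide +kernel) (by decide) hx0 c0
        (nhalf (by decide))
      have k1 := gU (be := 11000) (p := 1150) (G := 97766) (y := ((1300 : ℕ) : ℝ) / 10000) (by decide +kernel)
        (by decide) le_rfl (nle (by decide)) (nhalf (by decide))
      have k2 := gU (be := 11000) (p := 1300) (G := 87015) (y := ((1500 : ℕ) : ℝ) / 10000) (by decide +kernel)
        (by decide) le_rfl (nle (by decide)) (nhalf (by decide))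
      have k3 := gU (be := 11000) (p := 1500) (G := 76120) (y := ((1795 : ℕ) : ℝ) / 10000) (by decide +kernel)
        (by decide) le_rfl (nle (by decide)) (nhalf (by decide))
      push_cast at h g0 k1 k2 k3
      unfold lin at h
      push_cast at h
      exact dn_fin5 h gm (by linarith only [he, ga, g0, k1, k2, k3]) (by linarith only [g3, g0, k1, k2, k3])
    rcases le_total x (((1300 : ℕ) : ℝ) / 10000) with c1 | c1
    · have h := piD1 crs_c_1_db1 hN hA hcl hcp (by decide) c0 c1 ha
      have g0 := gU (be := 11000) (p := 1150) (G := 97766) (by decide +kernel) (by decide) c0 c1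
        (nhalf (by decide))
      have k1 := gU (be := 11000) (p := 1300) (G := 87015) (y := ((1500 : ℕ) : ℝ) / 10000) (by decide +kernel)
        (by decide) le_rfl (nle (by decide)) (nhalf (by decide))
      have k2 := gU (be := 11000) (p := 1500) (G := 76120) (y := ((1795 : ℕ) : ℝ) / 10000) (by decide +kernel)
        (by decide) le_rfl (nle (by decide)) (nhalf (by decide))
      push_cast at h g0 k1 k2
      unfold lin at h
      push_cast at h
      exact dn_fin5 h gm (by linarith only [he, ga, g0, k1, k2]) (by linarith only [g3, g0, k1, k2])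
    rcases le_total x (((1500 : ℕ) : ℝ) / 10000) with c2 | c2
    · have h := piD1 crs_c_1_db2 hN hA hcl hcp (by decide) c1 c2 ha
      have g0 := gU (be := 11000) (p := 1300) (G := 87015) (by decide +kernel) (by decide) c1 c2
        (nhalf (by decide))
      have k1 := gU (be := 11000) (p := 1500) (G := 76120) (y := ((1795 : ℕ) : ℝ) / 10000) (by decide +kernel)
        (by decide) le_rfl (nle (by decide)) (nhalf (by decide))
      push_cast at h g0 k1
      unfold lin at h
      push_cast at h
      exact dn_fin5 h gm (by linarith only [he, ga, g0, k1]) (by linarith only [g3, g0, k1])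
    rcases le_total x (((1795 : ℕ) : ℝ) / 10000) with c3 | c3
    · have h := piD1 crs_c_1_db3 hN hA hcl hcp (by decide) c2 c3 ha
      have g0 := gU (be := 11000) (p := 1500) (G := 76120) (by decide +kernel) (by decide) c2 c3
        (nhalf (by decide))
      push_cast at h g0
      unfold lin at h
      push_cast at h
      exact dn_fin5 h gm (by linarith only [he, ga, g0]) (by linarith only [g3, g0])
    have h := piD0 crs_c_1_da hN hA hcl hcp (by decide) c3 (hx.le.trans he) hx.le
    have g1 := gU ua (by decide) c3 hx.le h5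
    have g4 := gS4 kc (by decide) (by decide) c3 hx.le he hT
    unfold lin at h
    push_cast at h g1 g4
    exact dn_fin5 h gm (by linarith only [he, g1]) (by linarith only [g4])
  · have hx0 : ((1000 : ℕ) : ℝ) / 10000 ≤ x := le_trans (by norm_num) hA.x0
    have hx1 : x ≤ ((2700 : ℕ) : ℝ) / 10000 := le_trans hA.x1 (by norm_num)
    have gm := gh_mono hN.xs0 hx.le (hx1.trans (nhalf (by decide)))
    rcases le_total x (((1860 : ℕ) : ℝ) / 10000) with ce | ce
    · have h := piU0 crs_c_1_ua hN hA hcl hcp (ha.trans hx.le) ce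
      have g1 := gU ua (by decide) ha hx.le (hx1.trans (nhalf (by decide)))
      have g3 := gS4 kc (by decide) (by decide) ha hx.le ce hT
      unfold lin at h
      push_cast at h g1 g3
      exact up_fin5 h gm (by linarith only [ha, g1]) (by linarith only [g3])
    have ga := gU (y := ((1860 : ℕ) : ℝ) / 10000) ua (by decide) ha he (nhalf (by decide))
    have g3 := gS4 kc (by decide) (by decide) ha he le_rfl hT
    push_cast at ga g3
    have h := piU1 crs_c_1_ub0 hN hA hcl hcp ce hx1
    have g0 := gU (be := 11000) (p := 1860) (G := 62645) (by decide +kernel) (by decide) le_rfl ce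
      (hx1.trans (nhalf (by decide)))
    unfold lin at h
    push_cast at h g0
    exact up_fin5 h gm (by linarith only [ha, ga, g0]) (by linarith only [g3, g0])

theorem srs_c_2 {xs s T ρ : ℝ} (hW : RWp.In ⟨1730 / 10000, 2370 / 10000, 120 / 10000, 560 / 10000, 2130 / 10000, 2260 / 10000, 530 / 10000, 1045 / 10000, 4380 / 10000, 3560 / 10000, 140 / 10000, 730 / 10000, 22 / 10, 59 / 100⟩ xs s T ρ)
    (ha : ((1860 : ℕ) : ℝ) / 10000 ≤ xs) (he : xs ≤ ((1990 : ℕ) : ℝ) / 10000) :
    RampOK (65 / 100) (8 / 100) (11 / 10) 4 xs (1 / 2 - s) T ρ (10 / 100) (27 / 100) := by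
  have hN : Nm 4250 3560 4672 10 22 400 2130 140 730 1700 2140 530 1045 xs s T ρ := by
    obtain ⟨-, -, w1, w2, w3, w4, w5, w6, w7, w8, w9, w10, w11, w12⟩ := hW
    dsimp only at w1 w2 w3 w4 w6 w7 w8 w9 w10 w11 w12
    push_cast at ha he
    exact ⟨by linarith only [ha, w5, w7], by linarith only [he, w5, w7], by push_cast; linarith only [w3], by norm_num, by push_cast; linarith only [he, w4],
      by norm_num, by push_cast; linarith only [w9], by norm_num, by push_cast; linarith only [he, w4, w5, w7, w11], by norm_num,
      by push_cast; linarith only [he, w3, w5, w7], by push_cast; linarith only [ha, w4], by norm_num, by push_cast; linarith only [w1],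
      by push_cast; linarith only [w2], by push_cast; linarith only [w6], by push_cast; linarith only [w7], w5,
      fun _ => by push_cast; linarith only [w10], by push_cast; linarith only [w11]⟩
  have hT : |T| ≤ ((560 : ℕ) : ℝ) / 10000 := by
    have w1 := hW.t0
    have w2 := hW.t1
    dsimp only at w1 w2
    rw [abs_le]
    push_cast
    constructor <;> linarith only [w1, w2]
  have kc : kC4 11000 1860 1990 560 0 = true := by decide +kernel
  have ua : kU 11000 1860 62645 = true := by decide +kernel
  have hcl : (0 : ℝ) < 10 / 100 := by norm_num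
  have hcp : (27 / 100 : ℝ) < 1 / 2 := by norm_num
  have h5 := hN.xs1.le
  refine ⟨fun x y hA => ?_, fun x y hA hx => ?_, fun x y hA hx => ?_⟩
  · have hx0 : ((1000 : ℕ) : ℝ) / 10000 ≤ x := le_trans (by norm_num) hA.x0
    have hx1 : x ≤ ((2700 : ℕ) : ℝ) / 10000 := le_trans hA.x1 (by norm_num)
    have x0 : 0 < x := (n0 (by decide)).trans_le hx0
    rcases le_total x (((1100 : ℕ) : ℝ) / 10000) with c0 | c0
    · have h := piP crs_c_2_pl0 hN hA hcl hcp hx0 c0
      have g0 := gL (be := 11000) (p := 1100) (G := 102018) (by decide +kernel) x0 c0 le_rfl (by decide)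
      have g1 := gL (be := 11000) (p := 1200) (G := 93874) (x := ((1100 : ℕ) : ℝ) / 10000) (by decide +kernel)
        (n0 (by decide)) (nle (by decide)) le_rfl (by decide)
      have g2 := gL (be := 11000) (p := 1300) (G := 87014) (x := ((1200 : ℕ) : ℝ) / 10000) (by decide +kernel)
        (n0 (by decide)) (nle (by decide)) le_rfl (by decide)
      have g3 := gL (be := 11000) (p := 1400) (G := 81162) (x := ((1300 : ℕ) : ℝ) / 10000) (by decide +kernel)
        (n0 (by decide)) (nle (by decide)) le_rfl (by decide)
      have g4 := gL (be := 11000) (p := 1500) (G := 76119) (x := ((1400 : ℕ) : ℝ) / 10000) (by decide +kernel)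
        (n0 (by decide)) (nle (by decide)) le_rfl (by decide)
      have g5 := gL (be := 11000) (p := 1600) (G := 71732) (x := ((1500 : ℕ) : ℝ) / 10000) (by decide +kernel)
        (n0 (by decide)) (nle (by decide)) le_rfl (by decide)
      have g6 := gL (be := 11000) (p := 1700) (G := 67887) (x := ((1600 : ℕ) : ℝ) / 10000) (by decide +kernel)
        (n0 (by decide)) (nle (by decide)) le_rfl (by decide)
      have g7 := gL (be := 11000) (p := 1800) (G := 64493) (x := ((1700 : ℕ) : ℝ) / 10000) (by decide +kernel)
        (n0 (by decide)) (nle (by decide)) le_rfl (by decide)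
      have g8 := gL (be := 11000) (p := 1860) (G := 62644) (x := ((1800 : ℕ) : ℝ) / 10000) (by decide +kernel)
        (n0 (by decide)) (nle (by decide)) le_rfl (by decide)
      have gm := gh_mono (x := ((1860 : ℕ) : ℝ) / 10000) (n0 (by decide)) ha h5
      unfold lin at h
      push_cast at h gm g0 g1 g2 g3 g4 g5 g6 g7 g8
      linarith only [neg_abs_le (gh x - gh xs), h, gm, g0, g1, g2, g3, g4, g5, g6, g7, g8]
    rcases le_total x (((1200 : ℕ) : ℝ) / 10000) with c1 | c1
    · have h := piP crs_c_2_pl1 hN hA hcl hcp c0 c1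
      have g0 := gL (be := 11000) (p := 1200) (G := 93874) (by decide +kernel) x0 c1 le_rfl (by decide)
      have g1 := gL (be := 11000) (p := 1300) (G := 87014) (x := ((1200 : ℕ) : ℝ) / 10000) (by decide +kernel)
        (n0 (by decide)) (nle (by decide)) le_rfl (by decide)
      have g2 := gL (be := 11000) (p := 1400) (G := 81162) (x := ((1300 : ℕ) : ℝ) / 10000) (by decide +kernel)
        (n0 (by decide)) (nle (by decide)) le_rfl (by decide)
      have g3 := gL (be := 11000) (p := 1500) (G := 76119) (x := ((1400 : ℕ) : ℝ) / 10000) (by decide +kernel)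
        (n0 (by decide)) (nle (by decide)) le_rfl (by decide)
      have g4 := gL (be := 11000) (p := 1600) (G := 71732) (x := ((1500 : ℕ) : ℝ) / 10000) (by decide +kernel)
        (n0 (by decide)) (nle (by decide)) le_rfl (by decide)
      have g5 := gL (be := 11000) (p := 1700) (G := 67887) (x := ((1600 : ℕ) : ℝ) / 10000) (by decide +kernel)
        (n0 (by decide)) (nle (by decide)) le_rfl (by decide)
      have g6 := gL (be := 11000) (p := 1800) (G := 64493) (x := ((1700 : ℕ) : ℝ) / 10000) (by decide +kernel)
        (n0 (by decide)) (nle (by decide)) le_rfl (by decide)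
      have g7 := gL (be := 11000) (p := 1860) (G := 62644) (x := ((1800 : ℕ) : ℝ) / 10000) (by decide +kernel)
        (n0 (by decide)) (nle (by decide)) le_rfl (by decide)
      have gm := gh_mono (x := ((1860 : ℕ) : ℝ) / 10000) (n0 (by decide)) ha h5
      unfold lin at h
      push_cast at h gm g0 g1 g2 g3 g4 g5 g6 g7
      linarith only [neg_abs_le (gh x - gh xs), h, gm, g0, g1, g2, g3, g4, g5, g6, g7]
    rcases le_total x (((1300 : ℕ) : ℝ) / 10000) with c2 | c2
    · have h := piP crs_c_2_pl2 hN hA hcl hcp c1 c2
      have g0 := gL (be := 11000) (p := 1300) (G := 87014) (by decide +kernel) x0 c2 le_rfl (by decide)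
      have g1 := gL (be := 11000) (p := 1400) (G := 81162) (x := ((1300 : ℕ) : ℝ) / 10000) (by decide +kernel)
        (n0 (by decide)) (nle (by decide)) le_rfl (by decide)
      have g2 := gL (be := 11000) (p := 1500) (G := 76119) (x := ((1400 : ℕ) : ℝ) / 10000) (by decide +kernel)
        (n0 (by decide)) (nle (by decide)) le_rfl (by decide)
      have g3 := gL (be := 11000) (p := 1600) (G := 71732) (x := ((1500 : ℕ) : ℝ) / 10000) (by decide +kernel)
        (n0 (by decide)) (nle (by decide)) le_rfl (by decide)
      have g4 := gL (be := 11000) (p := 1700) (G := 67887) (x := ((1600 : ℕ) : ℝ) / 10000) (by decide +kernel)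
        (n0 (by decide)) (nle (by decide)) le_rfl (by decide)
      have g5 := gL (be := 11000) (p := 1800) (G := 64493) (x := ((1700 : ℕ) : ℝ) / 10000) (by decide +kernel)
        (n0 (by decide)) (nle (by decide)) le_rfl (by decide)
      have g6 := gL (be := 11000) (p := 1860) (G := 62644) (x := ((1800 : ℕ) : ℝ) / 10000) (by decide +kernel)
        (n0 (by decide)) (nle (by decide)) le_rfl (by decide)
      have gm := gh_mono (x := ((1860 : ℕ) : ℝ) / 10000) (n0 (by decide)) ha h5
      unfold lin at h
      push_cast at h gm g0 g1 g2 g3 g4 g5 g6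
      linarith only [neg_abs_le (gh x - gh xs), h, gm, g0, g1, g2, g3, g4, g5, g6]
    rcases le_total x (((1400 : ℕ) : ℝ) / 10000) with c3 | c3
    · have h := piP crs_c_2_pl3 hN hA hcl hcp c2 c3
      have g0 := gL (be := 11000) (p := 1400) (G := 81162) (by decide +kernel) x0 c3 le_rfl (by decide)
      have g1 := gL (be := 11000) (p := 1500) (G := 76119) (x := ((1400 : ℕ) : ℝ) / 10000) (by decide +kernel)
        (n0 (by decide)) (nle (by decide)) le_rfl (by decide)
      have g2 := gL (be := 11000) (p := 1600) (G := 71732) (x := ((1500 : ℕ) : ℝ) / 10000) (by decide +kernel)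
        (n0 (by decide)) (nle (by decide)) le_rfl (by decide)
      have g3 := gL (be := 11000) (p := 1700) (G := 67887) (x := ((1600 : ℕ) : ℝ) / 10000) (by decide +kernel)
        (n0 (by decide)) (nle (by decide)) le_rfl (by decide)
      have g4 := gL (be := 11000) (p := 1800) (G := 64493) (x := ((1700 : ℕ) : ℝ) / 10000) (by decide +kernel)
        (n0 (by decide)) (nle (by decide)) le_rfl (by decide)
      have g5 := gL (be := 11000) (p := 1860) (G := 62644) (x := ((1800 : ℕ) : ℝ) / 10000) (by decide +kernel)
        (n0 (by decide)) (nle (by decide)) le_rfl (by decide)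
      have gm := gh_mono (x := ((1860 : ℕ) : ℝ) / 10000) (n0 (by decide)) ha h5
      unfold lin at h
      push_cast at h gm g0 g1 g2 g3 g4 g5
      linarith only [neg_abs_le (gh x - gh xs), h, gm, g0, g1, g2, g3, g4, g5]
    rcases le_total x (((1500 : ℕ) : ℝ) / 10000) with c4 | c4
    · have h := piP crs_c_2_pl4 hN hA hcl hcp c3 c4
      have g0 := gL (be := 11000) (p := 1500) (G := 76119) (by decide +kernel) x0 c4 le_rfl (by decide)
      have g1 := gL (be := 11000) (p := 1600) (G := 71732) (x := ((1500 : ℕ) : ℝ) / 10000) (by decide +kernel)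
        (n0 (by decide)) (nle (by decide)) le_rfl (by decide)
      have g2 := gL (be := 11000) (p := 1700) (G := 67887) (x := ((1600 : ℕ) : ℝ) / 10000) (by decide +kernel)
        (n0 (by decide)) (nle (by decide)) le_rfl (by decide)
      have g3 := gL (be := 11000) (p := 1800) (G := 64493) (x := ((1700 : ℕ) : ℝ) / 10000) (by decide +kernel)
        (n0 (by decide)) (nle (by decide)) le_rfl (by decide)
      have g4 := gL (be := 11000) (p := 1860) (G := 62644) (x := ((1800 : ℕ) : ℝ) / 10000) (by decide +kernel)
        (n0 (by decide)) (nle (by decide)) le_rfl (by decide)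
      have gm := gh_mono (x := ((1860 : ℕ) : ℝ) / 10000) (n0 (by decide)) ha h5
      unfold lin at h
      push_cast at h gm g0 g1 g2 g3 g4
      linarith only [neg_abs_le (gh x - gh xs), h, gm, g0, g1, g2, g3, g4]
    rcases le_total x (((1600 : ℕ) : ℝ) / 10000) with c5 | c5
    · have h := piP crs_c_2_pl5 hN hA hcl hcp c4 c5
      have g0 := gL (be := 11000) (p := 1600) (G := 71732) (by decide +kernel) x0 c5 le_rfl (by decide)
      have g1 := gL (be := 11000) (p := 1700) (G := 67887) (x := ((1600 : ℕ) : ℝ) / 10000) (by decide +kernel)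
        (n0 (by decide)) (nle (by decide)) le_rfl (by decide)
      have g2 := gL (be := 11000) (p := 1800) (G := 64493) (x := ((1700 : ℕ) : ℝ) / 10000) (by decide +kernel)
        (n0 (by decide)) (nle (by decide)) le_rfl (by decide)
      have g3 := gL (be := 11000) (p := 1860) (G := 62644) (x := ((1800 : ℕ) : ℝ) / 10000) (by decide +kernel)
        (n0 (by decide)) (nle (by decide)) le_rfl (by decide)
      have gm := gh_mono (x := ((1860 : ℕ) : ℝ) / 10000) (n0 (by decide)) ha h5
      unfold lin at h
      push_cast at h gm g0 g1 g2 g3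
      linarith only [neg_abs_le (gh x - gh xs), h, gm, g0, g1, g2, g3]
    rcases le_total x (((1700 : ℕ) : ℝ) / 10000) with c6 | c6
    · have h := piP crs_c_2_pl6 hN hA hcl hcp c5 c6
      have g0 := gL (be := 11000) (p := 1700) (G := 67887) (by decide +kernel) x0 c6 le_rfl (by decide)
      have g1 := gL (be := 11000) (p := 1800) (G := 64493) (x := ((1700 : ℕ) : ℝ) / 10000) (by decide +kernel)
        (n0 (by decide)) (nle (by decide)) le_rfl (by decide)
      have g2 := gL (be := 11000) (p := 1860) (G := 62644) (x := ((1800 : ℕ) : ℝ) / 10000) (by decide +kernel)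
        (n0 (by decide)) (nle (by decide)) le_rfl (by decide)
      have gm := gh_mono (x := ((1860 : ℕ) : ℝ) / 10000) (n0 (by decide)) ha h5
      unfold lin at h
      push_cast at h gm g0 g1 g2
      linarith only [neg_abs_le (gh x - gh xs), h, gm, g0, g1, g2]
    rcases le_total x (((1800 : ℕ) : ℝ) / 10000) with c7 | c7
    · have h := piP crs_c_2_pl7 hN hA hcl hcp c6 c7
      have g0 := gL (be := 11000) (p := 1800) (G := 64493) (by decide +kernel) x0 c7 le_rfl (by decide)
      have g1 := gL (be := 11000) (p := 1860) (G := 62644) (x := ((1800 : ℕ) : ℝ) / 10000) (by decide +kernel)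
        (n0 (by decide)) (nle (by decide)) le_rfl (by decide)
      have gm := gh_mono (x := ((1860 : ℕ) : ℝ) / 10000) (n0 (by decide)) ha h5
      unfold lin at h
      push_cast at h gm g0 g1
      linarith only [neg_abs_le (gh x - gh xs), h, gm, g0, g1]
    rcases le_total x (((1860 : ℕ) : ℝ) / 10000) with c8 | c8
    · have h := piP crs_c_2_pl8 hN hA hcl hcp c7 c8
      have g0 := gL (be := 11000) (p := 1860) (G := 62644) (by decide +kernel) x0 c8 le_rfl (by decide)
      have gm := gh_mono (x := ((1860 : ℕ) : ℝ) / 10000) (n0 (by decide)) ha h5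
      unfold lin at h
      push_cast at h gm g0
      linarith only [neg_abs_le (gh x - gh xs), h, gm, g0]
    rcases le_total x (((1990 : ℕ) : ℝ) / 10000) with ce | ce
    · have h := piP crs_c_2_pm hN hA hcl hcp c8 ce
      unfold lin at h
      push_cast at h
      linarith only [abs_nonneg (gh x - gh xs), h]
    have gm := gh_mono (y := ((1990 : ℕ) : ℝ) / 10000) hN.xs0 he (nhalf (by decide))
    have h := piP crs_c_2_pr0 hN hA hcl hcp ce hx1
    have g0 := gL (be := 11000) (p := 2700) (G := 46069) (x := ((1990 : ℕ) : ℝ) / 10000) (by decide +kernel)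
      (n0 (by decide)) ce hx1 (by decide)
    unfold lin at h
    push_cast at h gm g0
    linarith only [le_abs_self (gh x - gh xs), h, gm, g0]
  · have hx0 : ((1000 : ℕ) : ℝ) / 10000 ≤ x := le_trans (by norm_num) hA.x0
    have hx1 : x ≤ ((2700 : ℕ) : ℝ) / 10000 := le_trans hA.x1 (by norm_num)
    have gm := gh_mono ((n0 (by decide)).trans_le hx0) hx.le h5
    have ga := gU ua (by decide) le_rfl ha h5
    have g3 := gS4 kc (by decide) (by decide) le_rfl ha he hT
    push_cast at ga g3
    rcases le_total x (((1200 : ℕ) : ℝ) / 10000) with c0 | c0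
    · have h := piD1 crs_c_2_db0 hN hA hcl hcp (by decide) hx0 c0 ha
      have g0 := gU (be := 11000) (p := 1000) (G := 111831) (by decide +kernel) (by decide) hx0 c0
        (nhalf (by decide))
      have k1 := gU (be := 11000) (p := 1200) (G := 93875) (y := ((1400 : ℕ) : ℝ) / 10000) (by decide +kernel)
        (by decide) le_rfl (nle (by decide)) (nhalf (by decide))
      have k2 := gU (be := 11000) (p := 1400) (G := 81163) (y := ((1700 : ℕ) : ℝ) / 10000) (by decide +kernel)
        (by decide) le_rfl (nle (by decide)) (nhalf (by decide))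
      have k3 := gU (be := 11000) (p := 1700) (G := 67888) (y := ((1860 : ℕ) : ℝ) / 10000) (by decide +kernel)
        (by decide) le_rfl (nle (by decide)) (nhalf (by decide))
      push_cast at h g0 k1 k2 k3
      unfold lin at h
      push_cast at h
      exact dn_fin5 h gm (by linarith only [he, ga, g0, k1, k2, k3]) (by linarith only [g3, g0, k1, k2, k3])
    rcases le_total x (((1400 : ℕ) : ℝ) / 10000) with c1 | c1
    · have h := piD1 crs_c_2_db1 hN hA hcl hcp (by decide) c0 c1 ha
      have g0 := gU (be := 11000) (p := 1200) (G := 93875) (by decide +kernel) (by decide) c0 c1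
        (nhalf (by decide))
      have k1 := gU (be := 11000) (p := 1400) (G := 81163) (y := ((1700 : ℕ) : ℝ) / 10000) (by decide +kernel)
        (by decide) le_rfl (nle (by decide)) (nhalf (by decide))
      have k2 := gU (be := 11000) (p := 1700) (G := 67888) (y := ((1860 : ℕ) : ℝ) / 10000) (by decide +kernel)
        (by decide) le_rfl (nle (by decide)) (nhalf (by decide))
      push_cast at h g0 k1 k2
      unfold lin at h
      push_cast at h
      exact dn_fin5 h gm (by linarith only [he, ga, g0, k1, k2]) (by linarith only [g3, g0, k1, k2])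
    rcases le_total x (((1700 : ℕ) : ℝ) / 10000) with c2 | c2
    · have h := piD1 crs_c_2_db2 hN hA hcl hcp (by decide) c1 c2 ha
      have g0 := gU (be := 11000) (p := 1400) (G := 81163) (by decide +kernel) (by decide) c1 c2
        (nhalf (by decide))
      have k1 := gU (be := 11000) (p := 1700) (G := 67888) (y := ((1860 : ℕ) : ℝ) / 10000) (by decide +kernel)
        (by decide) le_rfl (nle (by decide)) (nhalf (by decide))
      push_cast at h g0 k1
      unfold lin at h
      push_cast at h
      exact dn_fin5 h gm (by linarith only [he, ga, g0, k1]) (by linarith only [g3, g0, k1])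
    rcases le_total x (((1860 : ℕ) : ℝ) / 10000) with c3 | c3
    · have h := piD1 crs_c_2_db3 hN hA hcl hcp (by decide) c2 c3 ha
      have g0 := gU (be := 11000) (p := 1700) (G := 67888) (by decide +kernel) (by decide) c2 c3
        (nhalf (by decide))
      push_cast at h g0
      unfold lin at h
      push_cast at h
      exact dn_fin5 h gm (by linarith only [he, ga, g0]) (by linarith only [g3, g0])
    have h := piD0 crs_c_2_da hN hA hcl hcp (by decide) c3 (hx.le.trans he) hx.le
    have g1 := gU ua (by decide) c3 hx.le h5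
    have g4 := gS4 kc (by decide) (by decide) c3 hx.le he hT
    unfold lin at h
    push_cast at h g1 g4
    exact dn_fin5 h gm (by linarith only [he, g1]) (by linarith only [g4])
  · have hx0 : ((1000 : ℕ) : ℝ) / 10000 ≤ x := le_trans (by norm_num) hA.x0
    have hx1 : x ≤ ((2700 : ℕ) : ℝ) / 10000 := le_trans hA.x1 (by norm_num)
    have gm := gh_mono hN.xs0 hx.le (hx1.trans (nhalf (by decide)))
    rcases le_total x (((1990 : ℕ) : ℝ) / 10000) with ce | ce
    · have h := piU0 crs_c_2_ua hN hA hcl hcp (ha.trans hx.le) ce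
      have g1 := gU ua (by decide) ha hx.le (hx1.trans (nhalf (by decide)))
      have g3 := gS4 kc (by decide) (by decide) ha hx.le ce hT
      unfold lin at h
      push_cast at h g1 g3
      exact up_fin5 h gm (by linarith only [ha, g1]) (by linarith only [g3])
    have ga := gU (y := ((1990 : ℕ) : ℝ) / 10000) ua (by decide) ha he (nhalf (by decide))
    have g3 := gS4 kc (by decide) (by decide) ha he le_rfl hT
    push_cast at ga g3
    have h := piU1 crs_c_2_ub0 hN hA hcl hcp ce hx1
    have g0 := gU (be := 11000) (p := 1990) (G := 59049) (by decide +kernel) (by decide) le_rfl ce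
      (hx1.trans (nhalf (by decide)))
    unfold lin at h
    push_cast at h g0
    exact up_fin5 h gm (by linarith only [ha, ga, g0]) (by linarith only [g3, g0])

theorem srs_c_3 {xs s T ρ : ℝ} (hW : RWp.In ⟨1730 / 10000, 2370 / 10000, 120 / 10000, 560 / 10000, 2130 / 10000, 2260 / 10000, 530 / 10000, 1045 / 10000, 4380 / 10000, 3560 / 10000, 140 / 10000, 730 / 10000, 22 / 10, 59 / 100⟩ xs s T ρ)
    (ha : ((1990 : ℕ) : ℝ) / 10000 ≤ xs) (he : xs ≤ ((2055 : ℕ) : ℝ) / 10000) :
    RampOK (65 / 100) (8 / 100) (11 / 10) 4 xs (1 / 2 - s) T ρ (10 / 100) (27 / 100) := by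
  have hN : Nm 4315 3560 4737 10 22 270 2130 140 730 1700 2140 560 1045 xs s T ρ := by
    obtain ⟨-, -, w1, w2, w3, w4, w5, w6, w7, w8, w9, w10, w11, w12⟩ := hW
    dsimp only at w1 w2 w3 w4 w6 w7 w8 w9 w10 w11 w12
    push_cast at ha he
    exact ⟨by linarith only [ha, w5, w7], by linarith only [he, w5, w7], by push_cast; linarith only [w3], by norm_num, by push_cast; linarith only [he, w4],
      by norm_num, by push_cast; linarith only [w9], by norm_num, by push_cast; linarith only [he, w4, w5, w7, w11], by norm_num,
      by push_cast; linarith only [he, w3, w5, w7], by push_cast; linarith only [ha, w4], by norm_num, by push_cast; linarith only [w1],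
      by push_cast; linarith only [w2], by push_cast; linarith only [ha, w3, w9], by push_cast; linarith only [w7], w5,
      fun _ => by push_cast; linarith only [w10], by push_cast; linarith only [w11]⟩
  have hT : |T| ≤ ((560 : ℕ) : ℝ) / 10000 := by
    have w1 := hW.t0
    have w2 := hW.t1
    dsimp only at w1 w2
    rw [abs_le]
    push_cast
    constructor <;> linarith only [w1, w2]
  have kc : kC4 11000 1990 2055 560 0 = true := by decide +kernel
  have ua : kU 11000 1990 59049 = true := by decide +kernel
  have hcl : (0 : ℝ) < 10 / 100 := by norm_num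
  have hcp : (27 / 100 : ℝ) < 1 / 2 := by norm_num
  have h5 := hN.xs1.le
  refine ⟨fun x y hA => ?_, fun x y hA hx => ?_, fun x y hA hx => ?_⟩
  · have hx0 : ((1000 : ℕ) : ℝ) / 10000 ≤ x := le_trans (by norm_num) hA.x0
    have hx1 : x ≤ ((2700 : ℕ) : ℝ) / 10000 := le_trans hA.x1 (by norm_num)
    have x0 : 0 < x := (n0 (by decide)).trans_le hx0
    rcases le_total x (((1150 : ℕ) : ℝ) / 10000) with c0 | c0
    · have h := piP crs_c_3_pl0 hN hA hcl hcp hx0 c0
      have g0 := gL (be := 11000) (p := 1150) (G := 97765) (by decide +kernel) x0 c0 le_rfl (by decide)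
      have g1 := gL (be := 11000) (p := 1300) (G := 87014) (x := ((1150 : ℕ) : ℝ) / 10000) (by decide +kernel)
        (n0 (by decide)) (nle (by decide)) le_rfl (by decide)
      have g2 := gL (be := 11000) (p := 1500) (G := 76119) (x := ((1300 : ℕ) : ℝ) / 10000) (by decide +kernel)
        (n0 (by decide)) (nle (by decide)) le_rfl (by decide)
      have g3 := gL (be := 11000) (p := 1750) (G := 66138) (x := ((1500 : ℕ) : ℝ) / 10000) (by decide +kernel)
        (n0 (by decide)) (nle (by decide)) le_rfl (by decide)
      have g4 := gL (be := 11000) (p := 1990) (G := 59048) (x := ((1750 : ℕ) : ℝ) / 10000) (by decide +kernel)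
        (n0 (by decide)) (nle (by decide)) le_rfl (by decide)
      have gm := gh_mono (x := ((1990 : ℕ) : ℝ) / 10000) (n0 (by decide)) ha h5
      unfold lin at h
      push_cast at h gm g0 g1 g2 g3 g4
      linarith only [neg_abs_le (gh x - gh xs), h, gm, g0, g1, g2, g3, g4]
    rcases le_total x (((1300 : ℕ) : ℝ) / 10000) with c1 | c1
    · have h := piP crs_c_3_pl1 hN hA hcl hcp c0 c1
      have g0 := gL (be := 11000) (p := 1300) (G := 87014) (by decide +kernel) x0 c1 le_rfl (by decide)
      have g1 := gL (be := 11000) (p := 1500) (G := 76119) (x := ((1300 : ℕ) : ℝ) / 10000) (by decide +kernel)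
        (n0 (by decide)) (nle (by decide)) le_rfl (by decide)
      have g2 := gL (be := 11000) (p := 1750) (G := 66138) (x := ((1500 : ℕ) : ℝ) / 10000) (by decide +kernel)
        (n0 (by decide)) (nle (by decide)) le_rfl (by decide)
      have g3 := gL (be := 11000) (p := 1990) (G := 59048) (x := ((1750 : ℕ) : ℝ) / 10000) (by decide +kernel)
        (n0 (by decide)) (nle (by decide)) le_rfl (by decide)
      have gm := gh_mono (x := ((1990 : ℕ) : ℝ) / 10000) (n0 (by decide)) ha h5
      unfold lin at h
      push_cast at h gm g0 g1 g2 g3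
      linarith only [neg_abs_le (gh x - gh xs), h, gm, g0, g1, g2, g3]
    rcases le_total x (((1500 : ℕ) : ℝ) / 10000) with c2 | c2
    · have h := piP crs_c_3_pl2 hN hA hcl hcp c1 c2
      have g0 := gL (be := 11000) (p := 1500) (G := 76119) (by decide +kernel) x0 c2 le_rfl (by decide)
      have g1 := gL (be := 11000) (p := 1750) (G := 66138) (x := ((1500 : ℕ) : ℝ) / 10000) (by decide +kernel)
        (n0 (by decide)) (nle (by decide)) le_rfl (by decide)
      have g2 := gL (be := 11000) (p := 1990) (G := 59048) (x := ((1750 : ℕ) : ℝ) / 10000) (by decide +kernel)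
        (n0 (by decide)) (nle (by decide)) le_rfl (by decide)
      have gm := gh_mono (x := ((1990 : ℕ) : ℝ) / 10000) (n0 (by decide)) ha h5
      unfold lin at h
      push_cast at h gm g0 g1 g2
      linarith only [neg_abs_le (gh x - gh xs), h, gm, g0, g1, g2]
    rcases le_total x (((1750 : ℕ) : ℝ) / 10000) with c3 | c3
    · have h := piP crs_c_3_pl3 hN hA hcl hcp c2 c3
      have g0 := gL (be := 11000) (p := 1750) (G := 66138) (by decide +kernel) x0 c3 le_rfl (by decide)
      have g1 := gL (be := 11000) (p := 1990) (G := 59048) (x := ((1750 : ℕ) : ℝ) / 10000) (by decide +kernel)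
        (n0 (by decide)) (nle (by decide)) le_rfl (by decide)
      have gm := gh_mono (x := ((1990 : ℕ) : ℝ) / 10000) (n0 (by decide)) ha h5
      unfold lin at h
      push_cast at h gm g0 g1
      linarith only [neg_abs_le (gh x - gh xs), h, gm, g0, g1]
    rcases le_total x (((1990 : ℕ) : ℝ) / 10000) with c4 | c4
    · have h := piP crs_c_3_pl4 hN hA hcl hcp c3 c4
      have g0 := gL (be := 11000) (p := 1990) (G := 59048) (by decide +kernel) x0 c4 le_rfl (by decide)
      have gm := gh_mono (x := ((1990 : ℕ) : ℝ) / 10000) (n0 (by decide)) ha h5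
      unfold lin at h
      push_cast at h gm g0
      linarith only [neg_abs_le (gh x - gh xs), h, gm, g0]
    rcases le_total x (((2055 : ℕ) : ℝ) / 10000) with ce | ce
    · have h := piP crs_c_3_pm hN hA hcl hcp c4 ce
      unfold lin at h
      push_cast at h
      linarith only [abs_nonneg (gh x - gh xs), h]
    have gm := gh_mono (y := ((2055 : ℕ) : ℝ) / 10000) hN.xs0 he (nhalf (by decide))
    have h := piP crs_c_3_pr0 hN hA hcl hcp ce hx1
    have g0 := gL (be := 11000) (p := 2700) (G := 46069) (x := ((2055 : ℕ) : ℝ) / 10000) (by decide +kernel)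
      (n0 (by decide)) ce hx1 (by decide)
    unfold lin at h
    push_cast at h gm g0
    linarith only [le_abs_self (gh x - gh xs), h, gm, g0]
  · have hx0 : ((1000 : ℕ) : ℝ) / 10000 ≤ x := le_trans (by norm_num) hA.x0
    have hx1 : x ≤ ((2700 : ℕ) : ℝ) / 10000 := le_trans hA.x1 (by norm_num)
    have gm := gh_mono ((n0 (by decide)).trans_le hx0) hx.le h5
    have ga := gU ua (by decide) le_rfl ha h5
    have g3 := gS4 kc (by decide) (by decide) le_rfl ha he hT
    push_cast at ga g3
    rcases le_total x (((1300 : ℕ) : ℝ) / 10000) with c0 | c0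
    · have h := piD1 crs_c_3_db0 hN hA hcl hcp (by decide) hx0 c0 ha
      have g0 := gU (be := 11000) (p := 1000) (G := 111831) (by decide +kernel) (by decide) hx0 c0
        (nhalf (by decide))
      have k1 := gU (be := 11000) (p := 1300) (G := 87015) (y := ((1700 : ℕ) : ℝ) / 10000) (by decide +kernel)
        (by decide) le_rfl (nle (by decide)) (nhalf (by decide))
      have k2 := gU (be := 11000) (p := 1700) (G := 67888) (y := ((1990 : ℕ) : ℝ) / 10000) (by decide +kernel)
        (by decide) le_rfl (nle (by decide)) (nhalf (by decide))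
      push_cast at h g0 k1 k2
      unfold lin at h
      push_cast at h
      exact dn_fin5 h gm (by linarith only [he, ga, g0, k1, k2]) (by linarith only [g3, g0, k1, k2])
    rcases le_total x (((1700 : ℕ) : ℝ) / 10000) with c1 | c1
    · have h := piD1 crs_c_3_db1 hN hA hcl hcp (by decide) c0 c1 ha
      have g0 := gU (be := 11000) (p := 1300) (G := 87015) (by decide +kernel) (by decide) c0 c1
        (nhalf (by decide))
      have k1 := gU (be := 11000) (p := 1700) (G := 67888) (y := ((1990 : ℕ) : ℝ) / 10000) (by decide +kernel)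
        (by decide) le_rfl (nle (by decide)) (nhalf (by decide))
      push_cast at h g0 k1
      unfold lin at h
      push_cast at h
      exact dn_fin5 h gm (by linarith only [he, ga, g0, k1]) (by linarith only [g3, g0, k1])
    rcases le_total x (((1990 : ℕ) : ℝ) / 10000) with c2 | c2
    · have h := piD1 crs_c_3_db2 hN hA hcl hcp (by decide) c1 c2 ha
      have g0 := gU (be := 11000) (p := 1700) (G := 67888) (by decide +kernel) (by decide) c1 c2
        (nhalf (by decide))
      push_cast at h g0
      unfold lin at h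
      push_cast at h
      exact dn_fin5 h gm (by linarith only [he, ga, g0]) (by linarith only [g3, g0])
    have h := piD0 crs_c_3_da hN hA hcl hcp (by decide) c2 (hx.le.trans he) hx.le
    have g1 := gU ua (by decide) c2 hx.le h5
    have g4 := gS4 kc (by decide) (by decide) c2 hx.le he hT
    unfold lin at h
    push_cast at h g1 g4
    exact dn_fin5 h gm (by linarith only [he, g1]) (by linarith only [g4])
  · have hx0 : ((1000 : ℕ) : ℝ) / 10000 ≤ x := le_trans (by norm_num) hA.x0
    have hx1 : x ≤ ((2700 : ℕ) : ℝ) / 10000 := le_trans hA.x1 (by norm_num)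
    have gm := gh_mono hN.xs0 hx.le (hx1.trans (nhalf (by decide)))
    rcases le_total x (((2055 : ℕ) : ℝ) / 10000) with ce | ce
    · have h := piU0 crs_c_3_ua hN hA hcl hcp (ha.trans hx.le) ce
      have g1 := gU ua (by decide) ha hx.le (hx1.trans (nhalf (by decide)))
      have g3 := gS4 kc (by decide) (by decide) ha hx.le ce hT
      unfold lin at h
      push_cast at h g1 g3
      exact up_fin5 h gm (by linarith only [ha, g1]) (by linarith only [g3])
    have ga := gU (y := ((2055 : ℕ) : ℝ) / 10000) ua (by decide) ha he (nhalf (by decide))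
    have g3 := gS4 kc (by decide) (by decide) ha he le_rfl hT
    push_cast at ga g3
    have h := piU1 crs_c_3_ub0 hN hA hcl hcp ce hx1
    have g0 := gU (be := 11000) (p := 2055) (G := 57436) (by decide +kernel) (by decide) le_rfl ce
      (hx1.trans (nhalf (by decide)))
    unfold lin at h
    push_cast at h g0
    exact up_fin5 h gm (by linarith only [ha, ga, g0]) (by linarith only [g3, g0])

theorem srs_c_4 {xs s T ρ : ℝ} (hW : RWp.In ⟨1730 / 10000, 2370 / 10000, 120 / 10000, 560 / 10000, 2130 / 10000, 2260 / 10000, 530 / 10000, 1045 / 10000, 4380 / 10000, 3560 / 10000, 140 / 10000, 730 / 10000, 22 / 10, 59 / 100⟩ xs s T ρ)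
    (ha : ((2055 : ℕ) : ℝ) / 10000 ≤ xs) (he : xs ≤ ((2120 : ℕ) : ℝ) / 10000) :
    RampOK (65 / 100) (8 / 100) (11 / 10) 4 xs (1 / 2 - s) T ρ (10 / 100) (27 / 100) := by
  have hN : Nm 4380 3560 4802 10 22 205 2130 140 730 1700 2140 625 1045 xs s T ρ := by
    obtain ⟨-, -, w1, w2, w3, w4, w5, w6, w7, w8, w9, w10, w11, w12⟩ := hW
    dsimp only at w1 w2 w3 w4 w6 w7 w8 w9 w10 w11 w12
    push_cast at ha he
    exact ⟨by linarith only [ha, w5, w7], by linarith only [he, w5, w7], by push_cast; linarith only [w3], by norm_num, by push_cast; linarith only [he, w4],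
      by norm_num, by push_cast; linarith only [w9], by norm_num, by push_cast; linarith only [he, w4, w5, w7, w11], by norm_num,
      by push_cast; linarith only [he, w3, w5, w7], by push_cast; linarith only [ha, w4], by norm_num, by push_cast; linarith only [w1],
      by push_cast; linarith only [w2], by push_cast; linarith only [ha, w3, w9], by push_cast; linarith only [w7], w5,
      fun _ => by push_cast; linarith only [w10], by push_cast; linarith only [w11]⟩
  have hT : |T| ≤ ((560 : ℕ) : ℝ) / 10000 := by
    have w1 := hW.t0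
    have w2 := hW.t1
    dsimp only at w1 w2
    rw [abs_le]
    push_cast
    constructor <;> linarith only [w1, w2]
  have kc : kC4 11000 2055 2120 560 0 = true := by decide +kernel
  have ua : kU 11000 2055 57436 = true := by decide +kernel
  have hcl : (0 : ℝ) < 10 / 100 := by norm_num
  have hcp : (27 / 100 : ℝ) < 1 / 2 := by norm_num
  have h5 := hN.xs1.le
  refine ⟨fun x y hA => ?_, fun x y hA hx => ?_, fun x y hA hx => ?_⟩
  · have hx0 : ((1000 : ℕ) : ℝ) / 10000 ≤ x := le_trans (by norm_num) hA.x0
    have hx1 : x ≤ ((2700 : ℕ) : ℝ) / 10000 := le_trans hA.x1 (by norm_num)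
    have x0 : 0 < x := (n0 (by decide)).trans_le hx0
    rcases le_total x (((1100 : ℕ) : ℝ) / 10000) with c0 | c0
    · have h := piP crs_c_4_pl0 hN hA hcl hcp hx0 c0
      have g0 := gL (be := 11000) (p := 1100) (G := 102018) (by decide +kernel) x0 c0 le_rfl (by decide)
      have g1 := gL (be := 11000) (p := 1200) (G := 93874) (x := ((1100 : ℕ) : ℝ) / 10000) (by decide +kernel)
        (n0 (by decide)) (nle (by decide)) le_rfl (by decide)
      have g2 := gL (be := 11000) (p := 1300) (G := 87014) (x := ((1200 : ℕ) : ℝ) / 10000) (by decide +kernel)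
        (n0 (by decide)) (nle (by decide)) le_rfl (by decide)
      have g3 := gL (be := 11000) (p := 1400) (G := 81162) (x := ((1300 : ℕ) : ℝ) / 10000) (by decide +kernel)
        (n0 (by decide)) (nle (by decide)) le_rfl (by decide)
      have g4 := gL (be := 11000) (p := 1500) (G := 76119) (x := ((1400 : ℕ) : ℝ) / 10000) (by decide +kernel)
        (n0 (by decide)) (nle (by decide)) le_rfl (by decide)
      have g5 := gL (be := 11000) (p := 1600) (G := 71732) (x := ((1500 : ℕ) : ℝ) / 10000) (by decide +kernel)
        (n0 (by decide)) (nle (by decide)) le_rfl (by decide)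
      have g6 := gL (be := 11000) (p := 1700) (G := 67887) (x := ((1600 : ℕ) : ℝ) / 10000) (by decide +kernel)
        (n0 (by decide)) (nle (by decide)) le_rfl (by decide)
      have g7 := gL (be := 11000) (p := 1800) (G := 64493) (x := ((1700 : ℕ) : ℝ) / 10000) (by decide +kernel)
        (n0 (by decide)) (nle (by decide)) le_rfl (by decide)
      have g8 := gL (be := 11000) (p := 1900) (G := 61481) (x := ((1800 : ℕ) : ℝ) / 10000) (by decide +kernel)
        (n0 (by decide)) (nle (by decide)) le_rfl (by decide)
      have g9 := gL (be := 11000) (p := 2055) (G := 57435) (x := ((1900 : ℕ) : ℝ) / 10000) (by decide +kernel)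
        (n0 (by decide)) (nle (by decide)) le_rfl (by decide)
      have gm := gh_mono (x := ((2055 : ℕ) : ℝ) / 10000) (n0 (by decide)) ha h5
      unfold lin at h
      push_cast at h gm g0 g1 g2 g3 g4 g5 g6 g7 g8 g9
      linarith only [neg_abs_le (gh x - gh xs), h, gm, g0, g1, g2, g3, g4, g5, g6, g7, g8, g9]
    rcases le_total x (((1200 : ℕ) : ℝ) / 10000) with c1 | c1
    · have h := piP crs_c_4_pl1 hN hA hcl hcp c0 c1
      have g0 := gL (be := 11000) (p := 1200) (G := 93874) (by decide +kernel) x0 c1 le_rfl (by decide)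
      have g1 := gL (be := 11000) (p := 1300) (G := 87014) (x := ((1200 : ℕ) : ℝ) / 10000) (by decide +kernel)
        (n0 (by decide)) (nle (by decide)) le_rfl (by decide)
      have g2 := gL (be := 11000) (p := 1400) (G := 81162) (x := ((1300 : ℕ) : ℝ) / 10000) (by decide +kernel)
        (n0 (by decide)) (nle (by decide)) le_rfl (by decide)
      have g3 := gL (be := 11000) (p := 1500) (G := 76119) (x := ((1400 : ℕ) : ℝ) / 10000) (by decide +kernel)
        (n0 (by decide)) (nle (by decide)) le_rfl (by decide)
      have g4 := gL (be := 11000) (p := 1600) (G := 71732) (x := ((1500 : ℕ) : ℝ) / 10000) (by decide +kernel)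
        (n0 (by decide)) (nle (by decide)) le_rfl (by decide)
      have g5 := gL (be := 11000) (p := 1700) (G := 67887) (x := ((1600 : ℕ) : ℝ) / 10000) (by decide +kernel)
        (n0 (by decide)) (nle (by decide)) le_rfl (by decide)
      have g6 := gL (be := 11000) (p := 1800) (G := 64493) (x := ((1700 : ℕ) : ℝ) / 10000) (by decide +kernel)
        (n0 (by decide)) (nle (by decide)) le_rfl (by decide)
      have g7 := gL (be := 11000) (p := 1900) (G := 61481) (x := ((1800 : ℕ) : ℝ) / 10000) (by decide +kernel)
        (n0 (by decide)) (nle (by decide)) le_rfl (by decide)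
      have g8 := gL (be := 11000) (p := 2055) (G := 57435) (x := ((1900 : ℕ) : ℝ) / 10000) (by decide +kernel)
        (n0 (by decide)) (nle (by decide)) le_rfl (by decide)
      have gm := gh_mono (x := ((2055 : ℕ) : ℝ) / 10000) (n0 (by decide)) ha h5
      unfold lin at h
      push_cast at h gm g0 g1 g2 g3 g4 g5 g6 g7 g8
      linarith only [neg_abs_le (gh x - gh xs), h, gm, g0, g1, g2, g3, g4, g5, g6, g7, g8]
    rcases le_total x (((1300 : ℕ) : ℝ) / 10000) with c2 | c2
    · have h := piP crs_c_4_pl2 hN hA hcl hcp c1 c2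
      have g0 := gL (be := 11000) (p := 1300) (G := 87014) (by decide +kernel) x0 c2 le_rfl (by decide)
      have g1 := gL (be := 11000) (p := 1400) (G := 81162) (x := ((1300 : ℕ) : ℝ) / 10000) (by decide +kernel)
        (n0 (by decide)) (nle (by decide)) le_rfl (by decide)
      have g2 := gL (be := 11000) (p := 1500) (G := 76119) (x := ((1400 : ℕ) : ℝ) / 10000) (by decide +kernel)
        (n0 (by decide)) (nle (by decide)) le_rfl (by decide)
      have g3 := gL (be := 11000) (p := 1600) (G := 71732) (x := ((1500 : ℕ) : ℝ) / 10000) (by decide +kernel)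
        (n0 (by decide)) (nle (by decide)) le_rfl (by decide)
      have g4 := gL (be := 11000) (p := 1700) (G := 67887) (x := ((1600 : ℕ) : ℝ) / 10000) (by decide +kernel)
        (n0 (by decide)) (nle (by decide)) le_rfl (by decide)
      have g5 := gL (be := 11000) (p := 1800) (G := 64493) (x := ((1700 : ℕ) : ℝ) / 10000) (by decide +kernel)
        (n0 (by decide)) (nle (by decide)) le_rfl (by decide)
      have g6 := gL (be := 11000) (p := 1900) (G := 61481) (x := ((1800 : ℕ) : ℝ) / 10000) (by decide +kernel)
        (n0 (by decide)) (nle (by decide)) le_rfl (by decide)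
      have g7 := gL (be := 11000) (p := 2055) (G := 57435) (x := ((1900 : ℕ) : ℝ) / 10000) (by decide +kernel)
        (n0 (by decide)) (nle (by decide)) le_rfl (by decide)
      have gm := gh_mono (x := ((2055 : ℕ) : ℝ) / 10000) (n0 (by decide)) ha h5
      unfold lin at h
      push_cast at h gm g0 g1 g2 g3 g4 g5 g6 g7
      linarith only [neg_abs_le (gh x - gh xs), h, gm, g0, g1, g2, g3, g4, g5, g6, g7]
    rcases le_total x (((1400 : ℕ) : ℝ) / 10000) with c3 | c3
    · have h := piP crs_c_4_pl3 hN hA hcl hcp c2 c3
      have g0 := gL (be := 11000) (p := 1400) (G := 81162) (by decide +kernel) x0 c3 le_rfl (by decide)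
      have g1 := gL (be := 11000) (p := 1500) (G := 76119) (x := ((1400 : ℕ) : ℝ) / 10000) (by decide +kernel)
        (n0 (by decide)) (nle (by decide)) le_rfl (by decide)
      have g2 := gL (be := 11000) (p := 1600) (G := 71732) (x := ((1500 : ℕ) : ℝ) / 10000) (by decide +kernel)
        (n0 (by decide)) (nle (by decide)) le_rfl (by decide)
      have g3 := gL (be := 11000) (p := 1700) (G := 67887) (x := ((1600 : ℕ) : ℝ) / 10000) (by decide +kernel)
        (n0 (by decide)) (nle (by decide)) le_rfl (by decide)
      have g4 := gL (be := 11000) (p := 1800) (G := 64493) (x := ((1700 : ℕ) : ℝ) / 10000) (by decide +kernel)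
        (n0 (by decide)) (nle (by decide)) le_rfl (by decide)
      have g5 := gL (be := 11000) (p := 1900) (G := 61481) (x := ((1800 : ℕ) : ℝ) / 10000) (by decide +kernel)
        (n0 (by decide)) (nle (by decide)) le_rfl (by decide)
      have g6 := gL (be := 11000) (p := 2055) (G := 57435) (x := ((1900 : ℕ) : ℝ) / 10000) (by decide +kernel)
        (n0 (by decide)) (nle (by decide)) le_rfl (by decide)
      have gm := gh_mono (x := ((2055 : ℕ) : ℝ) / 10000) (n0 (by decide)) ha h5
      unfold lin at h
      push_cast at h gm g0 g1 g2 g3 g4 g5 g6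
      linarith only [neg_abs_le (gh x - gh xs), h, gm, g0, g1, g2, g3, g4, g5, g6]
    rcases le_total x (((1500 : ℕ) : ℝ) / 10000) with c4 | c4
    · have h := piP crs_c_4_pl4 hN hA hcl hcp c3 c4
      have g0 := gL (be := 11000) (p := 1500) (G := 76119) (by decide +kernel) x0 c4 le_rfl (by decide)
      have g1 := gL (be := 11000) (p := 1600) (G := 71732) (x := ((1500 : ℕ) : ℝ) / 10000) (by decide +kernel)
        (n0 (by decide)) (nle (by decide)) le_rfl (by decide)
      have g2 := gL (be := 11000) (p := 1700) (G := 67887) (x := ((1600 : ℕ) : ℝ) / 10000) (by decide +kernel)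
        (n0 (by decide)) (nle (by decide)) le_rfl (by decide)
      have g3 := gL (be := 11000) (p := 1800) (G := 64493) (x := ((1700 : ℕ) : ℝ) / 10000) (by decide +kernel)
        (n0 (by decide)) (nle (by decide)) le_rfl (by decide)
      have g4 := gL (be := 11000) (p := 1900) (G := 61481) (x := ((1800 : ℕ) : ℝ) / 10000) (by decide +kernel)
        (n0 (by decide)) (nle (by decide)) le_rfl (by decide)
      have g5 := gL (be := 11000) (p := 2055) (G := 57435) (x := ((1900 : ℕ) : ℝ) / 10000) (by decide +kernel)
        (n0 (by decide)) (nle (by decide)) le_rfl (by decide)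
      have gm := gh_mono (x := ((2055 : ℕ) : ℝ) / 10000) (n0 (by decide)) ha h5
      unfold lin at h
      push_cast at h gm g0 g1 g2 g3 g4 g5
      linarith only [neg_abs_le (gh x - gh xs), h, gm, g0, g1, g2, g3, g4, g5]
    rcases le_total x (((1600 : ℕ) : ℝ) / 10000) with c5 | c5
    · have h := piP crs_c_4_pl5 hN hA hcl hcp c4 c5
      have g0 := gL (be := 11000) (p := 1600) (G := 71732) (by decide +kernel) x0 c5 le_rfl (by decide)
      have g1 := gL (be := 11000) (p := 1700) (G := 67887) (x := ((1600 : ℕ) : ℝ) / 10000) (by decide +kernel)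
        (n0 (by decide)) (nle (by decide)) le_rfl (by decide)
      have g2 := gL (be := 11000) (p := 1800) (G := 64493) (x := ((1700 : ℕ) : ℝ) / 10000) (by decide +kernel)
        (n0 (by decide)) (nle (by decide)) le_rfl (by decide)
      have g3 := gL (be := 11000) (p := 1900) (G := 61481) (x := ((1800 : ℕ) : ℝ) / 10000) (by decide +kernel)
        (n0 (by decide)) (nle (by decide)) le_rfl (by decide)
      have g4 := gL (be := 11000) (p := 2055) (G := 57435) (x := ((1900 : ℕ) : ℝ) / 10000) (by decide +kernel)
        (n0 (by decide)) (nle (by decide)) le_rfl (by decide)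
      have gm := gh_mono (x := ((2055 : ℕ) : ℝ) / 10000) (n0 (by decide)) ha h5
      unfold lin at h
      push_cast at h gm g0 g1 g2 g3 g4
      linarith only [neg_abs_le (gh x - gh xs), h, gm, g0, g1, g2, g3, g4]
    rcases le_total x (((1700 : ℕ) : ℝ) / 10000) with c6 | c6
    · have h := piP crs_c_4_pl6 hN hA hcl hcp c5 c6
      have g0 := gL (be := 11000) (p := 1700) (G := 67887) (by decide +kernel) x0 c6 le_rfl (by decide)
      have g1 := gL (be := 11000) (p := 1800) (G := 64493) (x := ((1700 : ℕ) : ℝ) / 10000) (by decide +kernel)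
        (n0 (by decide)) (nle (by decide)) le_rfl (by decide)
      have g2 := gL (be := 11000) (p := 1900) (G := 61481) (x := ((1800 : ℕ) : ℝ) / 10000) (by decide +kernel)
        (n0 (by decide)) (nle (by decide)) le_rfl (by decide)
      have g3 := gL (be := 11000) (p := 2055) (G := 57435) (x := ((1900 : ℕ) : ℝ) / 10000) (by decide +kernel)
        (n0 (by decide)) (nle (by decide)) le_rfl (by decide)
      have gm := gh_mono (x := ((2055 : ℕ) : ℝ) / 10000) (n0 (by decide)) ha h5
      unfold lin at h
      push_cast at h gm g0 g1 g2 g3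
      linarith only [neg_abs_le (gh x - gh xs), h, gm, g0, g1, g2, g3]
    rcases le_total x (((1800 : ℕ) : ℝ) / 10000) with c7 | c7
    · have h := piP crs_c_4_pl7 hN hA hcl hcp c6 c7
      have g0 := gL (be := 11000) (p := 1800) (G := 64493) (by decide +kernel) x0 c7 le_rfl (by decide)
      have g1 := gL (be := 11000) (p := 1900) (G := 61481) (x := ((1800 : ℕ) : ℝ) / 10000) (by decide +kernel)
        (n0 (by decide)) (nle (by decide)) le_rfl (by decide)
      have g2 := gL (be := 11000) (p := 2055) (G := 57435) (x := ((1900 : ℕ) : ℝ) / 10000) (by decide +kernel)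
        (n0 (by decide)) (nle (by decide)) le_rfl (by decide)
      have gm := gh_mono (x := ((2055 : ℕ) : ℝ) / 10000) (n0 (by decide)) ha h5
      unfold lin at h
      push_cast at h gm g0 g1 g2
      linarith only [neg_abs_le (gh x - gh xs), h, gm, g0, g1, g2]
    rcases le_total x (((1900 : ℕ) : ℝ) / 10000) with c8 | c8
    · have h := piP crs_c_4_pl8 hN hA hcl hcp c7 c8
      have g0 := gL (be := 11000) (p := 1900) (G := 61481) (by decide +kernel) x0 c8 le_rfl (by decide)
      have g1 := gL (be := 11000) (p := 2055) (G := 57435) (x := ((1900 : ℕ) : ℝ) / 10000) (by decide +kernel)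
        (n0 (by decide)) (nle (by decide)) le_rfl (by decide)
      have gm := gh_mono (x := ((2055 : ℕ) : ℝ) / 10000) (n0 (by decide)) ha h5
      unfold lin at h
      push_cast at h gm g0 g1
      linarith only [neg_abs_le (gh x - gh xs), h, gm, g0, g1]
    rcases le_total x (((2055 : ℕ) : ℝ) / 10000) with c9 | c9
    · have h := piP crs_c_4_pl9 hN hA hcl hcp c8 c9
      have g0 := gL (be := 11000) (p := 2055) (G := 57435) (by decide +kernel) x0 c9 le_rfl (by decide)
      have gm := gh_mono (x := ((2055 : ℕ) : ℝ) / 10000) (n0 (by decide)) ha h5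
      unfold lin at h
      push_cast at h gm g0
      linarith only [neg_abs_le (gh x - gh xs), h, gm, g0]
    rcases le_total x (((2120 : ℕ) : ℝ) / 10000) with ce | ce
    · have h := piP crs_c_4_pm hN hA hcl hcp c9 ce
      unfold lin at h
      push_cast at h
      linarith only [abs_nonneg (gh x - gh xs), h]
    have gm := gh_mono (y := ((2120 : ℕ) : ℝ) / 10000) hN.xs0 he (nhalf (by decide))
    have h := piP crs_c_4_pr0 hN hA hcl hcp ce hx1
    have g0 := gL (be := 11000) (p := 2700) (G := 46069) (x := ((2120 : ℕ) : ℝ) / 10000) (by decide +kernel)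
      (n0 (by decide)) ce hx1 (by decide)
    unfold lin at h
    push_cast at h gm g0
    linarith only [le_abs_self (gh x - gh xs), h, gm, g0]
  · have hx0 : ((1000 : ℕ) : ℝ) / 10000 ≤ x := le_trans (by norm_num) hA.x0
    have hx1 : x ≤ ((2700 : ℕ) : ℝ) / 10000 := le_trans hA.x1 (by norm_num)
    have gm := gh_mono ((n0 (by decide)).trans_le hx0) hx.le h5
    have ga := gU ua (by decide) le_rfl ha h5
    have g3 := gS4 kc (by decide) (by decide) le_rfl ha he hT
    push_cast at ga g3
    rcases le_total x (((1300 : ℕ) : ℝ) / 10000) with c0 | c0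
    · have h := piD1 crs_c_4_db0 hN hA hcl hcp (by decide) hx0 c0 ha
      have g0 := gU (be := 11000) (p := 1000) (G := 111831) (by decide +kernel) (by decide) hx0 c0
        (nhalf (by decide))
      have k1 := gU (be := 11000) (p := 1300) (G := 87015) (y := ((1700 : ℕ) : ℝ) / 10000) (by decide +kernel)
        (by decide) le_rfl (nle (by decide)) (nhalf (by decide))
      have k2 := gU (be := 11000) (p := 1700) (G := 67888) (y := ((2055 : ℕ) : ℝ) / 10000) (by decide +kernel)
        (by decide) le_rfl (nle (by decide)) (nhalf (by decide))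
      push_cast at h g0 k1 k2
      unfold lin at h
      push_cast at h
      exact dn_fin5 h gm (by linarith only [he, ga, g0, k1, k2]) (by linarith only [g3, g0, k1, k2])
    rcases le_total x (((1700 : ℕ) : ℝ) / 10000) with c1 | c1
    · have h := piD1 crs_c_4_db1 hN hA hcl hcp (by decide) c0 c1 ha
      have g0 := gU (be := 11000) (p := 1300) (G := 87015) (by decide +kernel) (by decide) c0 c1
        (nhalf (by decide))
      have k1 := gU (be := 11000) (p := 1700) (G := 67888) (y := ((2055 : ℕ) : ℝ) / 10000) (by decide +kernel)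
        (by decide) le_rfl (nle (by decide)) (nhalf (by decide))
      push_cast at h g0 k1
      unfold lin at h
      push_cast at h
      exact dn_fin5 h gm (by linarith only [he, ga, g0, k1]) (by linarith only [g3, g0, k1])
    rcases le_total x (((2055 : ℕ) : ℝ) / 10000) with c2 | c2
    · have h := piD1 crs_c_4_db2 hN hA hcl hcp (by decide) c1 c2 ha
      have g0 := gU (be := 11000) (p := 1700) (G := 67888) (by decide +kernel) (by decide) c1 c2
        (nhalf (by decide))
      push_cast at h g0
      unfold lin at h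
      push_cast at h
      exact dn_fin5 h gm (by linarith only [he, ga, g0]) (by linarith only [g3, g0])
    have h := piD0 crs_c_4_da hN hA hcl hcp (by decide) c2 (hx.le.trans he) hx.le
    have g1 := gU ua (by decide) c2 hx.le h5
    have g4 := gS4 kc (by decide) (by decide) c2 hx.le he hT
    unfold lin at h
    push_cast at h g1 g4
    exact dn_fin5 h gm (by linarith only [he, g1]) (by linarith only [g4])
  · have hx0 : ((1000 : ℕ) : ℝ) / 10000 ≤ x := le_trans (by norm_num) hA.x0
    have hx1 : x ≤ ((2700 : ℕ) : ℝ) / 10000 := le_trans hA.x1 (by norm_num)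
    have gm := gh_mono hN.xs0 hx.le (hx1.trans (nhalf (by decide)))
    rcases le_total x (((2120 : ℕ) : ℝ) / 10000) with ce | ce
    · have h := piU0 crs_c_4_ua hN hA hcl hcp (ha.trans hx.le) ce
      have g1 := gU ua (by decide) ha hx.le (hx1.trans (nhalf (by decide)))
      have g3 := gS4 kc (by decide) (by decide) ha hx.le ce hT
      unfold lin at h
      push_cast at h g1 g3
      exact up_fin5 h gm (by linarith only [ha, g1]) (by linarith only [g3])
    have ga := gU (y := ((2120 : ℕ) : ℝ) / 10000) ua (by decide) ha he (nhalf (by decide))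
    have g3 := gS4 kc (by decide) (by decide) ha he le_rfl hT
    push_cast at ga g3
    have h := piU1 crs_c_4_ub0 hN hA hcl hcp ce hx1
    have g0 := gU (be := 11000) (p := 2120) (G := 55932) (by decide +kernel) (by decide) le_rfl ce
      (hx1.trans (nhalf (by decide)))
    unfold lin at h
    push_cast at h g0
    exact up_fin5 h gm (by linarith only [ha, ga, g0]) (by linarith only [g3, g0])

theorem srs_c_5 {xs s T ρ : ℝ} (hW : RWp.In ⟨1730 / 10000, 2370 / 10000, 120 / 10000, 560 / 10000, 2130 / 10000, 2260 / 10000, 530 / 10000, 1045 / 10000, 4380 / 10000, 3560 / 10000, 140 / 10000, 730 / 10000, 22 / 10, 59 / 100⟩ xs s T ρ)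
    (ha : ((2120 : ℕ) : ℝ) / 10000 ≤ xs) (he : xs ≤ ((2250 : ℕ) : ℝ) / 10000) :
    RampOK (65 / 100) (8 / 100) (11 / 10) 4 xs (1 / 2 - s) T ρ (10 / 100) (27 / 100) := by
  have hN : Nm 4380 3560 4932 10 22 140 2130 140 730 1700 2140 690 1045 xs s T ρ := by
    obtain ⟨-, -, w1, w2, w3, w4, w5, w6, w7, w8, w9, w10, w11, w12⟩ := hW
    dsimp only at w1 w2 w3 w4 w6 w7 w8 w9 w10 w11 w12
    push_cast at ha he
    exact ⟨by linarith only [ha, w5, w7], by linarith only [he, w5, w7], by push_cast; linarith only [w3], by norm_num, by push_cast; linarith only [w8],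
      by norm_num, by push_cast; linarith only [w9], by norm_num, by push_cast; linarith only [he, w4, w5, w7, w11], by norm_num,
      by push_cast; linarith only [he, w3, w5, w7], by push_cast; linarith only [ha, w4], by norm_num, by push_cast; linarith only [w1],
      by push_cast; linarith only [w2], by push_cast; linarith only [ha, w3, w9], by push_cast; linarith only [w7], w5,
      fun _ => by push_cast; linarith only [w10], by push_cast; linarith only [w11]⟩
  have hT : |T| ≤ ((560 : ℕ) : ℝ) / 10000 := by
    have w1 := hW.t0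
    have w2 := hW.t1
    dsimp only at w1 w2
    rw [abs_le]
    push_cast
    constructor <;> linarith only [w1, w2]
  have kc : kC4 11000 2120 2250 560 0 = true := by decide +kernel
  have ua : kU 11000 2120 55932 = true := by decide +kernel
  have hcl : (0 : ℝ) < 10 / 100 := by norm_num
  have hcp : (27 / 100 : ℝ) < 1 / 2 := by norm_num
  have h5 := hN.xs1.le
  refine ⟨fun x y hA => ?_, fun x y hA hx => ?_, fun x y hA hx => ?_⟩
  · have hx0 : ((1000 : ℕ) : ℝ) / 10000 ≤ x := le_trans (by norm_num) hA.x0
    have hx1 : x ≤ ((2700 : ℕ) : ℝ) / 10000 := le_trans hA.x1 (by norm_num)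
    have x0 : 0 < x := (n0 (by decide)).trans_le hx0
    rcases le_total x (((1200 : ℕ) : ℝ) / 10000) with c0 | c0
    · have h := piP crs_c_5_pl0 hN hA hcl hcp hx0 c0
      have g0 := gL (be := 11000) (p := 1200) (G := 93874) (by decide +kernel) x0 c0 le_rfl (by decide)
      have g1 := gL (be := 11000) (p := 1400) (G := 81162) (x := ((1200 : ℕ) : ℝ) / 10000) (by decide +kernel)
        (n0 (by decide)) (nle (by decide)) le_rfl (by decide)
      have g2 := gL (be := 11000) (p := 1700) (G := 67887) (x := ((1400 : ℕ) : ℝ) / 10000) (by decide +kernel)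
        (n0 (by decide)) (nle (by decide)) le_rfl (by decide)
      have g3 := gL (be := 11000) (p := 2000) (G := 58792) (x := ((1700 : ℕ) : ℝ) / 10000) (by decide +kernel)
        (n0 (by decide)) (nle (by decide)) le_rfl (by decide)
      have g4 := gL (be := 11000) (p := 2120) (G := 55931) (x := ((2000 : ℕ) : ℝ) / 10000) (by decide +kernel)
        (n0 (by decide)) (nle (by decide)) le_rfl (by decide)
      have gm := gh_mono (x := ((2120 : ℕ) : ℝ) / 10000) (n0 (by decide)) ha h5
      unfold lin at h
      push_cast at h gm g0 g1 g2 g3 g4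
      linarith only [neg_abs_le (gh x - gh xs), h, gm, g0, g1, g2, g3, g4]
    rcases le_total x (((1400 : ℕ) : ℝ) / 10000) with c1 | c1
    · have h := piP crs_c_5_pl1 hN hA hcl hcp c0 c1
      have g0 := gL (be := 11000) (p := 1400) (G := 81162) (by decide +kernel) x0 c1 le_rfl (by decide)
      have g1 := gL (be := 11000) (p := 1700) (G := 67887) (x := ((1400 : ℕ) : ℝ) / 10000) (by decide +kernel)
        (n0 (by decide)) (nle (by decide)) le_rfl (by decide)
      have g2 := gL (be := 11000) (p := 2000) (G := 58792) (x := ((1700 : ℕ) : ℝ) / 10000) (by decide +kernel)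
        (n0 (by decide)) (nle (by decide)) le_rfl (by decide)
      have g3 := gL (be := 11000) (p := 2120) (G := 55931) (x := ((2000 : ℕ) : ℝ) / 10000) (by decide +kernel)
        (n0 (by decide)) (nle (by decide)) le_rfl (by decide)
      have gm := gh_mono (x := ((2120 : ℕ) : ℝ) / 10000) (n0 (by decide)) ha h5
      unfold lin at h
      push_cast at h gm g0 g1 g2 g3
      linarith only [neg_abs_le (gh x - gh xs), h, gm, g0, g1, g2, g3]
    rcases le_total x (((1700 : ℕ) : ℝ) / 10000) with c2 | c2
    · have h := piP crs_c_5_pl2 hN hA hcl hcp c1 c2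
      have g0 := gL (be := 11000) (p := 1700) (G := 67887) (by decide +kernel) x0 c2 le_rfl (by decide)
      have g1 := gL (be := 11000) (p := 2000) (G := 58792) (x := ((1700 : ℕ) : ℝ) / 10000) (by decide +kernel)
        (n0 (by decide)) (nle (by decide)) le_rfl (by decide)
      have g2 := gL (be := 11000) (p := 2120) (G := 55931) (x := ((2000 : ℕ) : ℝ) / 10000) (by decide +kernel)
        (n0 (by decide)) (nle (by decide)) le_rfl (by decide)
      have gm := gh_mono (x := ((2120 : ℕ) : ℝ) / 10000) (n0 (by decide)) ha h5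
      unfold lin at h
      push_cast at h gm g0 g1 g2
      linarith only [neg_abs_le (gh x - gh xs), h, gm, g0, g1, g2]
    rcases le_total x (((2000 : ℕ) : ℝ) / 10000) with c3 | c3
    · have h := piP crs_c_5_pl3 hN hA hcl hcp c2 c3
      have g0 := gL (be := 11000) (p := 2000) (G := 58792) (by decide +kernel) x0 c3 le_rfl (by decide)
      have g1 := gL (be := 11000) (p := 2120) (G := 55931) (x := ((2000 : ℕ) : ℝ) / 10000) (by decide +kernel)
        (n0 (by decide)) (nle (by decide)) le_rfl (by decide)
      have gm := gh_mono (x := ((2120 : ℕ) : ℝ) / 10000) (n0 (by decide)) ha h5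
      unfold lin at h
      push_cast at h gm g0 g1
      linarith only [neg_abs_le (gh x - gh xs), h, gm, g0, g1]
    rcases le_total x (((2120 : ℕ) : ℝ) / 10000) with c4 | c4
    · have h := piP crs_c_5_pl4 hN hA hcl hcp c3 c4
      have g0 := gL (be := 11000) (p := 2120) (G := 55931) (by decide +kernel) x0 c4 le_rfl (by decide)
      have gm := gh_mono (x := ((2120 : ℕ) : ℝ) / 10000) (n0 (by decide)) ha h5
      unfold lin at h
      push_cast at h gm g0
      linarith only [neg_abs_le (gh x - gh xs), h, gm, g0]
    rcases le_total x (((2250 : ℕ) : ℝ) / 10000) with ce | ce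
    · have h := piP crs_c_5_pm hN hA hcl hcp c4 ce
      unfold lin at h
      push_cast at h
      linarith only [abs_nonneg (gh x - gh xs), h]
    have gm := gh_mono (y := ((2250 : ℕ) : ℝ) / 10000) hN.xs0 he (nhalf (by decide))
    have h := piP crs_c_5_pr0 hN hA hcl hcp ce hx1
    have g0 := gL (be := 11000) (p := 2700) (G := 46069) (x := ((2250 : ℕ) : ℝ) / 10000) (by decide +kernel)
      (n0 (by decide)) ce hx1 (by decide)
    unfold lin at h
    push_cast at h gm g0
    linarith only [le_abs_self (gh x - gh xs), h, gm, g0]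
  · have hx0 : ((1000 : ℕ) : ℝ) / 10000 ≤ x := le_trans (by norm_num) hA.x0
    have hx1 : x ≤ ((2700 : ℕ) : ℝ) / 10000 := le_trans hA.x1 (by norm_num)
    have gm := gh_mono ((n0 (by decide)).trans_le hx0) hx.le h5
    have ga := gU ua (by decide) le_rfl ha h5
    have g3 := gS4 kc (by decide) (by decide) le_rfl ha he hT
    push_cast at ga g3
    rcases le_total x (((1300 : ℕ) : ℝ) / 10000) with c0 | c0
    · have h := piD1 crs_c_5_db0 hN hA hcl hcp (by decide) hx0 c0 ha
      have g0 := gU (be := 11000) (p := 1000) (G := 111831) (by decide +kernel) (by decide) hx0 c0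
        (nhalf (by decide))
      have k1 := gU (be := 11000) (p := 1300) (G := 87015) (y := ((1700 : ℕ) : ℝ) / 10000) (by decide +kernel)
        (by decide) le_rfl (nle (by decide)) (nhalf (by decide))
      have k2 := gU (be := 11000) (p := 1700) (G := 67888) (y := ((2120 : ℕ) : ℝ) / 10000) (by decide +kernel)
        (by decide) le_rfl (nle (by decide)) (nhalf (by decide))
      push_cast at h g0 k1 k2
      unfold lin at h
      push_cast at h
      exact dn_fin5 h gm (by linarith only [he, ga, g0, k1, k2]) (by linarith only [g3, g0, k1, k2])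
    rcases le_total x (((1700 : ℕ) : ℝ) / 10000) with c1 | c1
    · have h := piD1 crs_c_5_db1 hN hA hcl hcp (by decide) c0 c1 ha
      have g0 := gU (be := 11000) (p := 1300) (G := 87015) (by decide +kernel) (by decide) c0 c1
        (nhalf (by decide))
      have k1 := gU (be := 11000) (p := 1700) (G := 67888) (y := ((2120 : ℕ) : ℝ) / 10000) (by decide +kernel)
        (by decide) le_rfl (nle (by decide)) (nhalf (by decide))
      push_cast at h g0 k1
      unfold lin at h
      push_cast at h
      exact dn_fin5 h gm (by linarith only [he, ga, g0, k1]) (by linarith only [g3, g0, k1])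
    rcases le_total x (((2120 : ℕ) : ℝ) / 10000) with c2 | c2
    · have h := piD1 crs_c_5_db2 hN hA hcl hcp (by decide) c1 c2 ha
      have g0 := gU (be := 11000) (p := 1700) (G := 67888) (by decide +kernel) (by decide) c1 c2
        (nhalf (by decide))
      push_cast at h g0
      unfold lin at h
      push_cast at h
      exact dn_fin5 h gm (by linarith only [he, ga, g0]) (by linarith only [g3, g0])
    have h := piD0 crs_c_5_da hN hA hcl hcp (by decide) c2 (hx.le.trans he) hx.le
    have g1 := gU ua (by decide) c2 hx.le h5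
    have g4 := gS4 kc (by decide) (by decide) c2 hx.le he hT
    unfold lin at h
    push_cast at h g1 g4
    exact dn_fin5 h gm (by linarith only [he, g1]) (by linarith only [g4])
  · have hx0 : ((1000 : ℕ) : ℝ) / 10000 ≤ x := le_trans (by norm_num) hA.x0
    have hx1 : x ≤ ((2700 : ℕ) : ℝ) / 10000 := le_trans hA.x1 (by norm_num)
    have gm := gh_mono hN.xs0 hx.le (hx1.trans (nhalf (by decide)))
    rcases le_total x (((2250 : ℕ) : ℝ) / 10000) with ce | ce
    · have h := piU0 crs_c_5_ua hN hA hcl hcp (ha.trans hx.le) ce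
      have g1 := gU ua (by decide) ha hx.le (hx1.trans (nhalf (by decide)))
      have g3 := gS4 kc (by decide) (by decide) ha hx.le ce hT
      unfold lin at h
      push_cast at h g1 g3
      exact up_fin5 h gm (by linarith only [ha, g1]) (by linarith only [g3])
    have ga := gU (y := ((2250 : ℕ) : ℝ) / 10000) ua (by decide) ha he (nhalf (by decide))
    have g3 := gS4 kc (by decide) (by decide) ha he le_rfl hT
    push_cast at ga g3
    have h := piU1 crs_c_5_ub0 hN hA hcl hcp ce hx1
    have g0 := gU (be := 11000) (p := 2250) (G := 53211) (by decide +kernel) (by decide) le_rfl ce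
      (hx1.trans (nhalf (by decide)))
    unfold lin at h
    push_cast at h g0
    exact up_fin5 h gm (by linarith only [ha, ga, g0]) (by linarith only [g3, g0])

end RQ4

namespace RC

theorem i4_rs_c : RowI
    ⟨1730 / 10000, 2370 / 10000, 120 / 10000, 560 / 10000, 2130 / 10000, 2260 / 10000, 530 / 10000, 1045 / 10000, 4380 / 10000, 3560 / 10000, 140 / 10000, 730 / 10000, 22 / 10, 59 / 100⟩
    4 (65 / 100) (8 / 100) (11 / 10) (10 / 100) (27 / 100) := by
  intro xs s T ρ hW
  have h0 : ((1730 : ℕ) : ℝ) / 10000 ≤ xs := le_trans (by norm_num) hW.x0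
  have h1 : xs ≤ ((2250 : ℕ) : ℝ) / 10000 := by
    obtain ⟨-, w0, -, -, w3, -, -, -, w7, w8, w9, -, -, -⟩ := hW
    dsimp only at w0 w3 w7 w8 w9
    push_cast
    linarith only [w3, w8]
  rcases le_total xs (((1795 : ℕ) : ℝ) / 10000) with k0 | k0
  · exact RQ4.srs_c_0 hW h0 k0
  rcases le_total xs (((1860 : ℕ) : ℝ) / 10000) with k1 | k1
  · exact RQ4.srs_c_1 hW k0 k1
  rcases le_total xs (((1990 : ℕ) : ℝ) / 10000) with k2 | k2
  · exact RQ4.srs_c_2 hW k1 k2
  rcases le_total xs (((2055 : ℕ) : ℝ) / 10000) with k3 | k3
  · exact RQ4.srs_c_3 hW k2 k3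
  rcases le_total xs (((2120 : ℕ) : ℝ) / 10000) with k4 | k4
  · exact RQ4.srs_c_4 hW k3 k4
  exact RQ4.srs_c_5 hW k4 h1

end RC

end Pool.Agent.Work.MP_b30479_gtS.G2

end
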