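import Pool.Agent.Work.MP_b30479_gt.TBS.G2.RZ1

section

/-!
# Rings with the ring variable on the ramp, `b = 4`: certificates, two_a, two_b, twoE_a, twoE_b, three_a, three_b, three_c, threeE_a, threeE_b, threeE_c
-/

set_option deprecated.oldSectionVars true

namespace Pool.Agent.Work.MP_b30479_gtS.G2

open NumIs

namespace RQ4

theorem ctwo_a_0_pl0 : okB 10000
    (tP 4 1 65 100 4495 3750 5582 10 13 10624 0 0 61715 730 1360)
    0 1580 0 0 40 1250 1700 900 1480 1250 2500 420 910
    0x1d3a03e9d01f405d0080e9d0002e9d0002e9d807603d817605d9702ecb0100060fa1c0478f00060ba7407dbb0307d3a0305d3a00e8081013870e000270102 = true := by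
  decide +kernel

theorem ctwo_a_0_pl1 : okB 10000
    (tP 4 1 65 100 4495 3750 5582 10 13 9278 0 0 53797 730 1360)
    0 1580 0 0 40 1700 1985 900 1480 1250 2500 420 910
    0x1d3a00e80ba02e9d007405981039870182e9d0074e80c1f4e80c14c380c101e9d01f4053260005dbb03e80a7020604e4c0270102 = true := by
  decide +kernel

theorem ctwo_a_0_pm : okB 10000
    (tP 4 1 65 100 4495 3750 5582 10 13 0 1400 0 0 730 1360)
    0 1580 0 0 40 1985 2520 900 1480 1250 2500 420 910
    0x4c9806703a938181e9d01f43c0c1f4cc0fa740604080993001e07527030209a340330f03000aa540752a0303d3a03e9d0181e9d01820152a03a95018104d1a0199301800405a3402d0102 = true := by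
  decide +kernel

theorem ctwo_a_0_pr0 : okB 10000
    (tP 4 1 65 100 4495 3750 5582 10 13 0 11186 38832 0 730 1360)
    0 1580 0 0 40 2520 3000 900 1480 1250 2500 420 910
    0x3c6c0da3402d818068d818278f1b0006d1b0304d1b030405a3606d0102 = true := by
  decide +kernel

theorem ctwo_a_0_db0 : okB 10000
    (tD 1 4 1 65 100 4495 3750 5582 10 13 1610 1985 0 17194 82094 0 0 14315 82094 0 730 1360)
    0 1580 0 0 40 1250 1700 900 1480 1250 2500 420 910
    0x6dda03683da941824bb40250694e250004102dbb416dda0c06dda0c155aa0b6d50400101 = true := by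
  decide +kernel

theorem ctwo_a_0_db1 : okB 10000
    (tD 1 4 1 65 100 4495 3750 5582 10 13 1610 1985 0 13729 61716 0 0 10851 61716 0 730 1360)
    0 1580 0 0 40 1700 1985 900 1480 1250 2500 420 910
    0x6daa0929c040b6a50494103db5416daa080d56808101 = true := by
  decide +kernel

theorem ctwo_a_0_da : okB 10000
    (tD 0 4 1 65 100 4495 3750 5582 10 13 1610 0 0 12158 53798 0 1400 0 0 0 730 1360)
    0 1580 0 0 40 1985 2520 900 1480 1250 2500 420 910
    0x156a82aa05e827a0aad505b52824a081d5da02a8202f4100 = true := by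
  decide +kernel

theorem ctwo_a_0_ua : okB 10000
    (tU 0 4 1 65 100 4495 3750 5582 10 13 910 0 12078 0 0 53798 1400 0 0 0 730 1360)
    0 1580 0 0 40 1985 2520 900 1480 1250 2500 420 910
    0x55aa07a009808f9f0338f03000da9c007cf81060aa55027ea81e8001d59c0c14c9c0c10168d8182 = true := by
  decide +kernel

theorem ctwo_a_0_ub0 : okB 10000
    (tU 1 4 1 65 100 4495 3750 5582 10 13 910 2520 9648 0 0 44153 12526 0 0 44153 730 1360)
    0 1580 0 0 40 2520 3000 900 1480 1250 2500 420 910
    0xf5a806e0dab506dc18168d81b46c0c0b46c0c1027af5e8106f5ebd020c03d7e0da36060010168d00be7805b0006d1a016808102 = true := by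
  decide +kernel

theorem ctwo_b_0_pl0 : okB 10000
    (tP 4 1 65 100 4495 3750 5557 10 13 11827 0 0 67887 730 1360)
    0 1580 0 0 40 1250 1700 900 1480 1250 2500 420 910
    0x74e803a01edd8183e9d0182e9d017403dbb0307d3a030403a1c0478f000608e1c000ba7403d017405d3a03e80ba2c040819c3808101 = true := by
  decide +kernel

theorem ctwo_b_0_pl1 : okB 10000
    (tP 4 1 65 100 4495 3750 5557 10 13 10346 0 0 59177 730 1360)
    0 1580 0 0 40 1700 1985 900 1480 1250 2500 420 910
    0x74e80fa02edd81f4e80c083e9981f4e80c08298701cc380c082e9d00f4e80c1f4e80c14c98027030404e4c0270102 = true := by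
  decide +kernel

theorem ctwo_b_0_pm : okB 10000
    (tP 4 1 65 100 4495 3750 5557 10 13 0 1400 0 0 730 1360)
    0 1580 0 0 40 1985 2495 900 1480 1250 2500 420 910
    0x4c9806703a938181e9d01743c0c1f4cc0fa740604080993001e07527030209a340330f03000aa540752a0303d3a03e9d0181e9d01820152a03a95018104d1a0199301800405a3402d0102 = true := by
  decide +kernel

theorem ctwo_b_0_pr0 : okB 10000
    (tP 4 1 65 100 4495 3750 5557 10 13 0 12058 42715 0 730 1360)
    0 1580 0 0 40 2495 3000 900 1480 1250 2500 420 910
    0xd1b0399300ce680818068d818268d8182a8d2a000752a0302d1b0304d1b030405a3606d0102 = true := by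
  decide +kernel

theorem ctwo_b_0_db0 : okB 10000
    (tD 1 4 1 65 100 4495 3750 5557 10 13 2000 1985 0 18905 90304 0 0 15887 90304 0 730 1360)
    0 1580 0 0 40 1250 1700 900 1480 1250 2500 420 910
    0x1b7680da0b6edda0006d04052a50094155aa08082da9412505b7680da0aaa50408083 = true := by
  decide +kernel

theorem ctwo_b_0_db1 : okB 10000
    (tD 1 4 1 65 100 4495 3750 5557 10 13 2000 1985 0 15094 67888 0 0 12076 67888 0 730 1360)
    0 1580 0 0 40 1700 1985 900 1480 1250 2500 420 910
    0x1b7683aa94182dbb40d50406aa506d0102 = true := by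
  decide +kernel

theorem ctwo_b_0_da : okB 10000
    (tD 0 4 1 65 100 4495 3750 5557 10 13 2000 0 0 13365 59178 0 1400 0 0 0 730 1360)
    0 1580 0 0 40 1985 2495 900 1480 1250 2500 420 910
    0x554a94003ab54002ab541817b55283aa040027af4082 = true := by
  decide +kernel

theorem ctwo_b_0_ua : okB 10000
    (tU 0 4 1 65 100 4495 3750 5557 10 13 495 0 13146 0 0 59178 1400 0 0 0 730 1360)
    0 1580 0 0 40 1985 2495 900 1480 1250 2500 420 910
    0x55aa07a00ab340823e7c0ce9c04003a9540d5047ea81e93c1000605a9c007c1cc9c0c08268d8182 = true := by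
  decide +kernel

theorem ctwo_b_0_ub0 : okB 10000
    (tU 1 4 1 65 100 4495 3750 5557 10 13 495 2495 10594 0 0 48949 13612 0 0 48949 730 1360)
    0 1580 0 0 40 2495 3000 900 1480 1250 2500 420 910
    0xf5b837adc1817af00376e04182ab3c1d59e0c0b46c0c100aaf6a800755ed5000c0bd7801bb7020c10168d81b46e0c0b468d008304d1a016808102 = true := by
  decide +kernel

theorem ctwoE_a_0_pl0 : okB 10000
    (tP 4 1 65 100 3845 3290 5400 10 11 9103 0 0 61068 1320 1710)
    0 1580 0 0 40 1250 1720 460 700 1250 2500 320 730
    0x74f007a03e80ba02e9d01f405d01009870102 = true := by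
  decide +kernel

theorem ctwoE_a_0_pm : okB 10000
    (tP 4 1 65 100 3845 3290 5400 10 11 0 1400 0 0 1320 1710)
    0 1580 0 0 40 1720 1845 460 700 1250 2500 320 730
    0x74f007a02980a602e9d014c0470103 = true := by
  decide +kernel

theorem ctwoE_a_0_pr0 : okB 10000
    (tP 4 1 65 100 3845 3290 5400 10 11 0 8565 38832 0 1320 1710)
    0 1580 0 0 40 1845 3000 460 700 1250 2500 320 730
    0x34380aa3404d010099e0054053014ce802a0298081d46808100 = true := by
  decide +kernel

theorem ctwoE_a_0_db0 : okB 10000
    (tD 1 4 1 65 100 3845 3290 5400 10 11 1660 1720 0 13218 82094 0 0 12455 82094 0 1320 1710)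
    0 1580 0 0 40 1250 1400 460 700 1250 2500 320 730
    0x1b76ed0407683dbb4182dbb4102db30102 = true := by
  decide +kernel

theorem ctwoE_a_0_db1 : okB 10000
    (tD 1 4 1 65 100 3845 3290 5400 10 11 1660 1720 0 12055 73785 0 0 11292 73785 0 1320 1710)
    0 1580 0 0 40 1400 1720 460 700 1250 2500 320 730
    0x1b7683da0b682aa70102 = true := by
  decide +kernel

theorem ctwoE_a_0_da : okB 10000
    (tD 0 4 1 65 100 3845 3290 5400 10 11 1660 0 0 9868 61069 0 1400 0 0 0 1320 1710)
    0 1580 0 0 40 1720 1845 460 700 1250 2500 320 730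
    0x6daa08e02 = true := by
  decide +kernel

theorem ctwoE_a_0_ua : okB 10000
    (tU 0 4 1 65 100 3845 3290 5400 10 11 280 0 11903 0 0 61069 1400 0 0 0 1320 1710)
    0 1580 0 0 40 1720 1845 460 700 1250 2500 320 730
    0x753e08e82 = true := by
  decide +kernel

theorem ctwoE_a_0_ub0 : okB 10000
    (tU 1 4 1 65 100 3845 3290 5400 10 11 280 1845 11219 0 0 57359 11982 0 0 57359 1320 1710)
    0 1580 0 0 40 1845 3000 460 700 1250 2500 320 730
    0x136a803e7c0036e7c0026a740356800102 = true := by
  decide +kernel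

theorem ctwoE_b_0_pl0 : okB 10000
    (tP 4 1 65 100 3925 3290 5400 10 11 10154 0 0 67175 1320 1710)
    0 1580 0 0 40 1250 1720 460 700 1250 2500 430 730
    0x78e80fa02e80bc740603a029870102 = true := by
  decide +kernel

theorem ctwoE_b_0_pm : okB 10000
    (tP 4 1 65 100 3925 3290 5400 10 11 0 1400 0 0 1320 1710)
    0 1580 0 0 40 1720 1845 460 700 1250 2500 430 730
    0x1e3a03e80ba02a80a602 = true := by
  decide +kernel

theorem ctwoE_b_0_pr0 : okB 10000
    (tP 4 1 65 100 3925 3290 5400 10 11 0 9281 42715 0 1320 1710)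
    0 1580 0 0 40 1845 3000 460 700 1250 2500 430 730
    0xd2a00680ac4c05d3a03e9d0002a80804c4808100 = true := by
  decide +kernel

theorem ctwoE_b_0_db0 : okB 10000
    (tD 1 4 1 65 100 3925 3290 5400 10 11 2000 1720 0 14660 90304 0 0 13821 90304 0 1320 1710)
    0 1580 0 0 40 1250 1500 460 700 1250 2500 430 730
    0x6ddbb4180da0b6ed07f7683da0c0ed05b4101ab30102 = true := by
  decide +kernel

theorem ctwoE_b_0_db1 : okB 10000
    (tD 1 4 1 65 100 3925 3290 5400 10 11 2000 1720 0 12533 76120 0 0 11693 76120 0 1320 1710)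
    0 1580 0 0 40 1500 1720 460 700 1250 2500 430 730
    0x6de80a602 = true := by
  decide +kernel

theorem ctwoE_b_0_da : okB 10000
    (tD 0 4 1 65 100 3925 3290 5400 10 11 2000 0 0 10994 67176 0 1400 0 0 0 1320 1710)
    0 1580 0 0 40 1720 1845 460 700 1250 2500 430 730
    0x6daa08e02 = true := by
  decide +kernel

theorem ctwoE_b_0_ua : okB 10000
    (tU 0 4 1 65 100 3925 3290 5400 10 11 360 0 12954 0 0 67176 1400 0 0 0 1320 1710)
    0 1580 0 0 40 1720 1845 460 700 1250 2500 430 730
    0x753a08e82 = true := by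
  decide +kernel

theorem ctwoE_b_0_ub0 : okB 10000
    (tU 1 4 1 65 100 3925 3290 5400 10 11 360 1845 12201 0 0 63095 13041 0 0 63095 1320 1710)
    0 1580 0 0 40 1845 3000 460 700 1250 2500 430 730
    0x55aa0dacd0009e9f0009a9d00dc102 = true := by
  decide +kernel

theorem cthree_a_0_pl0 : okB 10000
    (tP 4 1 65 100 4330 3560 5022 10 22 11438 0 0 69199 600 1100)
    0 1580 0 0 40 1200 1500 1220 1590 1250 2500 470 930
    0x74e80fa02e807b7607d8083e9d01f4e80c002e9d1703060ba740670e000408e02 = true := by
  decide +kernel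

theorem cthree_a_0_pl1 : okB 10000
    (tP 4 1 65 100 4330 3560 5022 10 22 9253 0 0 54635 600 1100)
    0 1580 0 0 40 1500 1950 1220 1590 1250 2500 470 930
    0x74e80fb76060fa66060ba7401d017405dbb03e808180e9d01f4e80c074e9d000305d3a74000c101e8781f43c0c01c38041023870102 = true := by
  decide +kernel

theorem cthree_a_0_pm : okB 10000
    (tP 4 1 65 100 4330 3560 5022 10 22 0 1400 0 0 600 1100)
    0 1580 0 0 40 1950 2340 1220 1590 1250 2500 470 930
    0x1326039930181e9d00cc05d3a00980808099d001c04781cee9d00cc0400083393009e0609a02 = true := by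
  decide +kernel

theorem cthree_a_0_pr0 : okB 10000
    (tP 4 1 65 100 4330 3560 5022 10 22 0 10487 38832 0 600 1100)
    0 1580 0 0 40 2340 3000 1220 1590 1250 2500 470 930
    0xd1b0399500b49c001cc9c0da020401a360609a3400d0102 = true := by
  decide +kernel

theorem cthree_a_0_db0 : okB 10000
    (tD 1 4 1 65 100 4330 3560 5022 10 22 1650 1950 0 16646 85341 0 0 14516 85341 0 600 1100)
    0 1580 0 0 40 1200 1500 1220 1590 1250 2500 470 930
    0x6dda0929c0495282020b6a50494103 = true := by
  decide +kernel

theorem cthree_a_0_db1 : okB 10000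
    (tD 1 4 1 65 100 4330 3560 5022 10 22 1650 1950 0 14225 69200 0 0 12094 69200 0 600 1100)
    0 1580 0 0 40 1500 1950 1220 1590 1250 2500 470 930
    0x1b7683dbb40ed000aaa507b52830008e55007819c3800102 = true := by
  decide +kernel

theorem cthree_a_0_da : okB 10000
    (tD 0 4 1 65 100 4330 3560 5022 10 22 1650 0 0 11385 54636 0 1400 0 0 0 600 1100)
    0 1580 0 0 40 1950 2340 1220 1590 1250 2500 470 930
    0x154e02aa941037a0aaed015416d4a0928206f4100 = true := by
  decide +kernel

theorem cthree_a_0_ua : okB 10000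
    (tU 0 4 1 65 100 4330 3560 5022 10 22 690 0 12054 0 0 54636 1400 0 0 0 600 1100)
    0 1580 0 0 40 1950 2340 1220 1590 1250 2500 470 930
    0x1326033e0ce02993019d047cf810605a02 = true := by
  decide +kernel

theorem cthree_a_0_ub0 : okB 10000
    (tU 1 4 1 65 100 4330 3560 5022 10 22 690 2340 10230 0 0 46842 12361 0 0 46842 600 1100)
    0 1580 0 0 40 2340 3000 1220 1590 1250 2500 470 930
    0xd5b83693001f0601ab70609ad500dcf8006d5b830405a3606d01346808002 = true := by
  decide +kernel

theorem cthree_b_0_pl0 : okB 10000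
    (tP 4 1 65 100 4330 3560 5012 10 22 10319 0 0 60099 600 1100)
    0 1580 0 0 40 1200 1950 1220 1590 1250 2500 470 930
    0x1d3b03e9d0180e9d3a00060ba6607d0f03040ba7407dbb0307d3a030407a74007011c3c04182e9d01f403d0174e80fa01e80ba0201d0e0205d3b00ecb8103ec08e02e9d807404781010600e1c0070102 = true := by
  decide +kernel

theorem cthree_b_0_pm : okB 10000
    (tP 4 1 65 100 4330 3560 5012 10 22 0 1400 0 0 600 1100)
    0 1580 0 0 40 1950 2330 1220 1590 1250 2500 470 930
    0x132603e9d00f40402674007011e060ea4c07381f4e80fa740607a740608001393009e0609a02 = true := by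
  decide +kernel

theorem cthree_b_0_pr0 : okB 10000
    (tP 4 1 65 100 4330 3560 5012 10 22 0 11353 42715 0 600 1100)
    0 1580 0 0 40 2330 3000 1220 1590 1250 2500 470 930
    0x346c0e75402d2600047a6019d301000601a360609a3400d0102 = true := by
  decide +kernel

theorem cthree_b_0_db0 : okB 10000
    (tD 1 4 1 65 100 4330 3560 5012 10 22 2000 1950 0 18391 93875 0 0 16107 93875 0 600 1100)
    0 1580 0 0 40 1200 1500 1220 1590 1250 2500 470 930
    0x1b76824a95282020b6a50494103 = true := by
  decide +kernel

theorem cthree_b_0_db1 : okB 10000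
    (tD 1 4 1 65 100 4330 3560 5012 10 22 2000 1950 0 15728 76120 0 0 13444 76120 0 600 1100)
    0 1580 0 0 40 1500 1950 1220 1590 1250 2500 470 930
    0x6dda0f6ed060aaed0094182389401c0494182 = true := by
  decide +kernel

theorem cthree_b_0_da : okB 10000
    (tD 0 4 1 65 100 4330 3560 5012 10 22 2000 0 0 12604 60100 0 1400 0 0 0 600 1100)
    0 1580 0 0 40 1950 2330 1220 1590 1250 2500 470 930
    0x156a824a94055020ea9c0609e82 = true := by
  decide +kernel

theorem cthree_b_0_ua : okB 10000
    (tU 0 4 1 65 100 4330 3560 5012 10 22 330 0 13119 0 0 60100 1400 0 0 0 600 1100)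
    0 1580 0 0 40 1950 2330 1220 1590 1250 2500 470 930
    0x1326033e0ce02993019d047cf810605a02 = true := by
  decide +kernel

theorem cthree_b_0_ub0 : okB 10000
    (tU 1 4 1 65 100 4330 3560 5012 10 22 330 2330 11163 0 0 51706 13447 0 0 51706 600 1100)
    0 1580 0 0 40 2330 3000 1220 1590 1250 2500 470 930
    0x376e0e61f067c1806adc1826b540373e001b56e0c10168d81b468041346808102 = true := by
  decide +kernel

theorem cthree_c_0_pl0 : okB 10000
    (tP 4 1 65 100 4330 3560 4882 10 22 10919 0 0 60099 600 1100)
    0 1580 0 0 40 1200 1950 1220 1590 1250 2500 520 930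
    0x1d3a74000fa740603a66060a61c060ba7407d011c05d3b03e808e020000e02e9d3a0007d3a0005d0e020470174e80fa02e8b01023808001 = true := by
  decide +kernel

theorem cthree_c_0_pm : okB 10000
    (tP 4 1 65 100 4330 3560 4882 10 22 0 800 0 0 600 1100)
    0 1580 0 0 40 1950 2200 1220 1590 1250 2500 520 930
    0x1d3a00e806674000a602cdd009c380411c040da02 = true := by
  decide +kernel

theorem cthree_c_0_pr0 : okB 10000
    (tP 4 1 65 100 4330 3560 4882 10 22 0 10198 42715 0 600 1100)
    0 1580 0 0 40 2200 3000 1220 1590 1250 2500 520 930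
    0xd1a0199300cc0470f019c0418068d000268d0002 = true := by
  decide +kernel

theorem cthree_c_0_db0 : okB 10000
    (tD 1 4 1 65 100 4330 3560 4882 10 22 2130 1950 0 18210 93875 0 0 16707 93875 0 600 1100)
    0 1580 0 0 40 1200 1500 1220 1590 1250 2500 520 930
    0x1b7680da0f6ed06092a504952824a0c082 = true := by
  decide +kernel

theorem cthree_c_0_db1 : okB 10000
    (tD 1 4 1 65 100 4330 3560 4882 10 22 2130 1950 0 15546 76120 0 0 14044 76120 0 600 1100)
    0 1580 0 0 40 1500 1950 1220 1590 1250 2500 520 930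
    0x6dda076ed02036ed060aaa507b5283000929caa0009c3800102 = true := by
  decide +kernel

theorem cthree_c_0_da : okB 10000
    (tD 0 4 1 65 100 4330 3560 4882 10 22 2130 0 0 12422 60100 0 800 0 0 0 600 1100)
    0 1580 0 0 40 1950 2200 1220 1590 1250 2500 520 930
    0x6dda0ead50008e550209e82 = true := by
  decide +kernel

theorem cthree_c_0_ua : okB 10000
    (tU 0 4 1 65 100 4330 3560 4882 10 22 190 0 12519 0 0 60100 800 0 0 0 600 1100)
    0 1580 0 0 40 1950 2200 1220 1590 1250 2500 520 930
    0x75ea066029a08f9f0338382020da02 = true := by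
  decide +kernel

theorem cthree_c_0_ub0 : okB 10000
    (tU 1 4 1 65 100 4330 3560 4882 10 22 190 2200 11224 0 0 54215 12727 0 0 54215 600 1100)
    0 1580 0 0 40 2200 3000 1220 1590 1250 2500 520 930
    0xd5a806e0dab7060a64c067c1b40401ab707526029e0c0356e0c10168dc1b46c0c1346808102 = true := by
  decide +kernel

theorem cthreeE_a_0_pl0 : okB 10000
    (tP 4 1 65 100 3950 3320 4632 10 22 9122 0 0 60126 740 1140)
    0 1580 0 0 40 1000 1750 1160 1400 1250 2500 430 870
    0x1d3a03e9d0180e9d0182e9d1602060b2640608e02e9d01f405d3a0007d3a0005d0e020470100 = true := by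
  decide +kernel

theorem cthreeE_a_0_pm : okB 10000
    (tP 4 1 65 100 3950 3320 4632 10 22 0 1400 0 0 740 1140)
    0 1580 0 0 40 1750 1950 1160 1400 1250 2500 430 870
    0x74e807a02980ba7403d011c040ce02 = true := by
  decide +kernel

theorem cthreeE_a_0_pr0 : okB 10000
    (tP 4 1 65 100 3950 3320 4632 10 22 0 9804 43096 0 740 1140)
    0 1580 0 0 40 1950 2600 1160 1400 1250 2500 430 870
    0x4c380a674e80401c0400e1ccc0001c040da02 = true := by
  decide +kernel

theorem cthreeE_a_0_db0 : okB 10000
    (tD 1 4 1 65 100 3950 3320 4632 10 22 1690 1750 0 16579 101665 0 0 15377 101665 0 740 1140)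
    0 1580 0 0 40 1000 1300 1160 1400 1250 2500 430 870
    0x1b7682da73680040b6ed0494e250008103 = true := by
  decide +kernel

theorem cthreeE_a_0_db1 : okB 10000
    (tD 1 4 1 65 100 3950 3320 4632 10 22 1690 1750 0 13646 79104 0 0 12444 79104 0 740 1140)
    0 1580 0 0 40 1300 1750 1160 1400 1250 2500 430 870
    0x6dda0b6ed040369cda0018239b4e023808002 = true := by
  decide +kernel

theorem cthreeE_a_0_da : okB 10000
    (tD 0 4 1 65 100 3950 3320 4632 10 22 1690 0 0 10325 60127 0 1400 0 0 0 740 1140)
    0 1580 0 0 40 1750 1950 1160 1400 1250 2500 430 870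
    0x1b76823808e02 = true := by
  decide +kernel

theorem cthreeE_a_0_ua : okB 10000
    (tU 0 4 1 65 100 3950 3320 4632 10 22 260 0 11922 0 0 60127 1400 0 0 0 740 1140)
    0 1580 0 0 40 1750 1950 1160 1400 1250 2500 430 870
    0x1d0f833a08282 = true := by
  decide +kernel

theorem cthreeE_a_0_ub0 : okB 10000
    (tU 1 4 1 65 100 3950 3320 4632 10 22 260 1950 10851 0 0 54636 12054 0 0 54636 740 1140)
    0 1580 0 0 40 1950 2600 1160 1400 1250 2500 430 870
    0x1d3a04e833a09b82 = true := by
  decide +kernel

theorem cthreeE_b_0_pl0 : okB 10000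
    (tP 4 1 65 100 4060 3320 4632 10 22 10174 0 0 66138 740 1140)
    0 1580 0 0 40 1000 1750 1160 1400 1250 2500 430 870
    0x74e80fa02e80ba7401d0176040fa7401d81f4e800174e800100cd981f438080023870002 = true := by
  decide +kernel

theorem cthreeE_b_0_pm : okB 10000
    (tP 4 1 65 100 4060 3320 4632 10 22 0 1400 0 0 740 1140)
    0 1580 0 0 40 1750 1950 1160 1400 1250 2500 430 870
    0x74e80fa740607a74060ba74060a61c0608e02 = true := by
  decide +kernel

theorem cthreeE_b_0_pr0 : okB 10000
    (tP 4 1 65 100 4060 3320 4632 10 22 0 10645 47406 0 740 1140)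
    0 1580 0 0 40 1950 2600 1160 1400 1250 2500 430 870
    0x4c380ba74013014c0400e66007011c040db02 = true := by
  decide +kernel

theorem cthreeE_b_0_db0 : okB 10000
    (tD 1 4 1 65 100 4060 3320 4632 10 22 2000 1750 0 18377 111831 0 0 17054 111831 0 740 1140)
    0 1580 0 0 40 1000 1300 1160 1400 1250 2500 430 870
    0x1b7681da0b6ed000b6a5aa041254a08182 = true := by
  decide +kernel

theorem cthreeE_b_0_db1 : okB 10000
    (tD 1 4 1 65 100 4060 3320 4632 10 22 2000 1750 0 15151 87015 0 0 13828 87015 0 740 1140)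
    0 1580 0 0 40 1300 1750 1160 1400 1250 2500 430 870
    0x1b7682dbb4100dbb418239b401c0470102 = true := by
  decide +kernel

theorem cthreeE_b_0_da : okB 10000
    (tD 0 4 1 65 100 4060 3320 4632 10 22 2000 0 0 11498 66139 0 1400 0 0 0 740 1140)
    0 1580 0 0 40 1750 1950 1160 1400 1250 2500 430 870
    0x1b76823808e02 = true := by
  decide +kernel

theorem cthreeE_b_0_ua : okB 10000
    (tU 0 4 1 65 100 4060 3320 4632 10 22 380 0 12974 0 0 66139 1400 0 0 0 740 1140)
    0 1580 0 0 40 1750 1950 1160 1400 1250 2500 430 870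
    0x1d0f833a08e82 = true := by
  decide +kernel

theorem cthreeE_b_0_ub0 : okB 10000
    (tU 1 4 1 65 100 4060 3320 4632 10 22 380 1950 11796 0 0 60100 13119 0 0 60100 740 1140)
    0 1580 0 0 40 1950 2600 1160 1400 1250 2500 430 870
    0x4f9e04e823e0db82 = true := by
  decide +kernel

theorem cthreeE_c_0_pl0 : okB 10000
    (tP 4 1 65 100 4060 3320 4612 10 22 10774 0 0 66138 740 1140)
    0 1580 0 0 40 1000 1750 1160 1400 1250 2500 560 870
    0x74e803a02e80ba7401d011e040ce02e9d007404b16020470100 = true := by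
  decide +kernel

theorem cthreeE_c_0_pm : okB 10000
    (tP 4 1 65 100 4060 3320 4612 10 22 0 800 0 0 740 1140)
    0 1580 0 0 40 1750 1930 1160 1400 1250 2500 560 870
    0x74e80fa029808e02 = true := by
  decide +kernel

theorem cthreeE_c_0_pr0 : okB 10000
    (tP 4 1 65 100 4060 3320 4612 10 22 0 9950 47406 0 740 1140)
    0 1580 0 0 40 1930 2600 1160 1400 1250 2500 560 870
    0x4c380ba74073011c0401a02 = true := by
  decide +kernel

theorem cthreeE_c_0_db0 : okB 10000
    (tD 1 4 1 65 100 4060 3320 4612 10 22 2130 1750 0 18845 111831 0 0 17654 111831 0 740 1140)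
    0 1580 0 0 40 1000 1300 1160 1400 1250 2500 560 870
    0x6dda03682db54102dbb416d4a08103 = true := by
  decide +kernel

theorem cthreeE_c_0_db1 : okB 10000
    (tD 1 4 1 65 100 4060 3320 4612 10 22 2130 1750 0 15619 87015 0 0 14428 87015 0 740 1140)
    0 1580 0 0 40 1300 1750 1160 1400 1250 2500 560 870
    0x6dda0b682dbb416d0400e550070102 = true := by
  decide +kernel

theorem cthreeE_c_0_da : okB 10000
    (tD 0 4 1 65 100 4060 3320 4612 10 22 2130 0 0 11965 66139 0 800 0 0 0 740 1140)
    0 1580 0 0 40 1750 1930 1160 1400 1250 2500 560 870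
    0x1b76803808e02 = true := by
  decide +kernel

theorem cthreeE_c_0_ua : okB 10000
    (tU 0 4 1 65 100 4060 3320 4612 10 22 420 0 12374 0 0 66139 800 0 0 0 740 1140)
    0 1580 0 0 40 1750 1930 1160 1400 1250 2500 560 870
    0x1d73833a08282 = true := by
  decide +kernel

theorem cthreeE_c_0_ub0 : okB 10000
    (tU 1 4 1 65 100 4060 3320 4612 10 22 420 1930 11313 0 0 60643 12504 0 0 60643 740 1140)
    0 1580 0 0 40 1930 2600 1160 1400 1250 2500 560 870
    0x4d9a067833e09a82 = true := by
  decide +kernel

end RQ4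

end Pool.Agent.Work.MP_b30479_gtS.G2

end

section

/-!
# Rings with the ring variable on the ramp, `b = 4`, inside: rows three_a, three_b, three_c, threeE_a, threeE_b, threeE_c
-/

set_option deprecated.oldSectionVars true

namespace Pool.Agent.Work.MP_b30479_gtS.G2

open Real NumIs

namespace RQ4

open RC RQ

theorem sthree_a_0 {xs s T ρ : ℝ} (hW : RWp.In ⟨1950 / 10000, 2340 / 10000, -(360 / 10000), 10 / 10000, 1650 / 10000, 2000 / 10000, 470 / 10000, 930 / 10000, 4330 / 10000, 3560 / 10000, 600 / 10000, 1100 / 10000, 22 / 10, 59 / 100⟩ xs s T ρ)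
    (ha : ((1950 : ℕ) : ℝ) / 10000 ≤ xs) (he : xs ≤ ((2340 : ℕ) : ℝ) / 10000) :
    RampOK (65 / 100) (14 / 100) 1 4 xs (1 / 2 - s) T ρ (12 / 100) (30 / 100) := by
  have hN : Nm 4330 3560 5022 10 22 690 1650 600 1100 1220 1590 470 930 xs s T ρ := by
    obtain ⟨-, -, w1, w2, w3, w4, w5, w6, w7, w8, w9, w10, w11, w12⟩ := hW
    dsimp only at w1 w2 w3 w4 w6 w7 w8 w9 w10 w11 w12
    push_cast at ha he
    exact ⟨by linarith only [ha, w5, w7], by linarith only [he, w5, w7], by push_cast; linarith only [w3], by norm_num, by push_cast; linarith only [w8],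
      by norm_num, by push_cast; linarith only [w9], by norm_num, by push_cast; linarith only [he, w4, w5, w7, w11], by norm_num,
      by push_cast; linarith only [he, w3], by push_cast; linarith only [ha, w4, w5, w7], by norm_num, by push_cast; linarith only [w1],
      by push_cast; linarith only [w2], by push_cast; linarith only [w6], by push_cast; linarith only [w7], w5,
      fun _ => by push_cast; linarith only [w10], by push_cast; linarith only [w11]⟩
  have hT : |T| ≤ ((360 : ℕ) : ℝ) / 10000 := by
    have w1 := hW.t0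
    have w2 := hW.t1
    dsimp only at w1 w2
    rw [abs_le]
    push_cast
    constructor <;> linarith only [w1, w2]
  have kc : kC4 10000 1950 2340 360 0 = true := by decide +kernel
  have ua : kU 10000 1950 54636 = true := by decide +kernel
  have hcl : (0 : ℝ) < 12 / 100 := by norm_num
  have hcp : (30 / 100 : ℝ) < 1 / 2 := by norm_num
  have h5 := hN.xs1.le
  refine ⟨fun x y hA => ?_, fun x y hA hx => ?_, fun x y hA hx => ?_⟩
  · have hx0 : ((1200 : ℕ) : ℝ) / 10000 ≤ x := le_trans (by norm_num) hA.x0
    have hx1 : x ≤ ((3000 : ℕ) : ℝ) / 10000 := le_trans hA.x1 (by norm_num)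
    have x0 : 0 < x := (n0 (by decide)).trans_le hx0
    rcases le_total x (((1500 : ℕ) : ℝ) / 10000) with c0 | c0
    · have h := piP cthree_a_0_pl0 hN hA hcl hcp hx0 c0
      have g0 := gL (be := 10000) (p := 1500) (G := 69199) (by decide +kernel) x0 c0 le_rfl (by decide)
      have g1 := gL (be := 10000) (p := 1950) (G := 54635) (x := ((1500 : ℕ) : ℝ) / 10000) (by decide +kernel)
        (n0 (by decide)) (nle (by decide)) le_rfl (by decide)
      have gm := gh_mono (x := ((1950 : ℕ) : ℝ) / 10000) (n0 (by decide)) ha h5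
      unfold lin at h
      push_cast at h gm g0 g1
      linarith only [neg_abs_le (gh x - gh xs), h, gm, g0, g1]
    rcases le_total x (((1950 : ℕ) : ℝ) / 10000) with c1 | c1
    · have h := piP cthree_a_0_pl1 hN hA hcl hcp c0 c1
      have g0 := gL (be := 10000) (p := 1950) (G := 54635) (by decide +kernel) x0 c1 le_rfl (by decide)
      have gm := gh_mono (x := ((1950 : ℕ) : ℝ) / 10000) (n0 (by decide)) ha h5
      unfold lin at h
      push_cast at h gm g0
      linarith only [neg_abs_le (gh x - gh xs), h, gm, g0]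
    rcases le_total x (((2340 : ℕ) : ℝ) / 10000) with ce | ce
    · have h := piP cthree_a_0_pm hN hA hcl hcp c1 ce
      unfold lin at h
      push_cast at h
      linarith only [abs_nonneg (gh x - gh xs), h]
    have gm := gh_mono (y := ((2340 : ℕ) : ℝ) / 10000) hN.xs0 he (nhalf (by decide))
    have h := piP cthree_a_0_pr0 hN hA hcl hcp ce hx1
    have g0 := gL (be := 10000) (p := 3000) (G := 38832) (x := ((2340 : ℕ) : ℝ) / 10000) (by decide +kernel)
      (n0 (by decide)) ce hx1 (by decide)
    unfold lin at h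
    push_cast at h gm g0
    linarith only [le_abs_self (gh x - gh xs), h, gm, g0]
  · have hx0 : ((1200 : ℕ) : ℝ) / 10000 ≤ x := le_trans (by norm_num) hA.x0
    have hx1 : x ≤ ((3000 : ℕ) : ℝ) / 10000 := le_trans hA.x1 (by norm_num)
    have gm := gh_mono ((n0 (by decide)).trans_le hx0) hx.le h5
    have ga := gU ua (by decide) le_rfl ha h5
    have g3 := gS4 kc (by decide) (by decide) le_rfl ha he hT
    push_cast at ga g3
    rcases le_total x (((1500 : ℕ) : ℝ) / 10000) with c0 | c0
    · have h := piD1 cthree_a_0_db0 hN hA hcl hcp (by decide) hx0 c0 ha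
      have g0 := gU (be := 10000) (p := 1200) (G := 85341) (by decide +kernel) (by decide) hx0 c0
        (nhalf (by decide))
      have k1 := gU (be := 10000) (p := 1500) (G := 69200) (y := ((1950 : ℕ) : ℝ) / 10000) (by decide +kernel)
        (by decide) le_rfl (nle (by decide)) (nhalf (by decide))
      push_cast at h g0 k1
      unfold lin at h
      push_cast at h
      exact dn_fin5 h gm (by linarith only [he, ga, g0, k1]) (by linarith only [g3, g0, k1])
    rcases le_total x (((1950 : ℕ) : ℝ) / 10000) with c1 | c1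
    · have h := piD1 cthree_a_0_db1 hN hA hcl hcp (by decide) c0 c1 ha
      have g0 := gU (be := 10000) (p := 1500) (G := 69200) (by decide +kernel) (by decide) c0 c1
        (nhalf (by decide))
      push_cast at h g0
      unfold lin at h
      push_cast at h
      exact dn_fin5 h gm (by linarith only [he, ga, g0]) (by linarith only [g3, g0])
    have h := piD0 cthree_a_0_da hN hA hcl hcp (by decide) c1 (hx.le.trans he) hx.le
    have g1 := gU ua (by decide) c1 hx.le h5
    have g4 := gS4 kc (by decide) (by decide) c1 hx.le he hT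
    unfold lin at h
    push_cast at h g1 g4
    exact dn_fin5 h gm (by linarith only [he, g1]) (by linarith only [g4])
  · have hx0 : ((1200 : ℕ) : ℝ) / 10000 ≤ x := le_trans (by norm_num) hA.x0
    have hx1 : x ≤ ((3000 : ℕ) : ℝ) / 10000 := le_trans hA.x1 (by norm_num)
    have gm := gh_mono hN.xs0 hx.le (hx1.trans (nhalf (by decide)))
    rcases le_total x (((2340 : ℕ) : ℝ) / 10000) with ce | ce
    · have h := piU0 cthree_a_0_ua hN hA hcl hcp (ha.trans hx.le) ce
      have g1 := gU ua (by decide) ha hx.le (hx1.trans (nhalf (by decide)))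
      have g3 := gS4 kc (by decide) (by decide) ha hx.le ce hT
      unfold lin at h
      push_cast at h g1 g3
      exact up_fin5 h gm (by linarith only [ha, g1]) (by linarith only [g3])
    have ga := gU (y := ((2340 : ℕ) : ℝ) / 10000) ua (by decide) ha he (nhalf (by decide))
    have g3 := gS4 kc (by decide) (by decide) ha he le_rfl hT
    push_cast at ga g3
    have h := piU1 cthree_a_0_ub0 hN hA hcl hcp ce hx1
    have g0 := gU (be := 10000) (p := 2340) (G := 46842) (by decide +kernel) (by decide) le_rfl ce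
      (hx1.trans (nhalf (by decide)))
    unfold lin at h
    push_cast at h g0
    exact up_fin5 h gm (by linarith only [ha, ga, g0]) (by linarith only [g3, g0])

theorem sthree_b_0 {xs s T ρ : ℝ} (hW : RWp.In ⟨1950 / 10000, 2340 / 10000, -(360 / 10000), 10 / 10000, 2000 / 10000, 2130 / 10000, 470 / 10000, 930 / 10000, 4330 / 10000, 3560 / 10000, 600 / 10000, 1100 / 10000, 22 / 10, 59 / 100⟩ xs s T ρ)
    (ha : ((1950 : ℕ) : ℝ) / 10000 ≤ xs) (he : xs ≤ ((2330 : ℕ) : ℝ) / 10000) :
    RampOK (65 / 100) (14 / 100) (11 / 10) 4 xs (1 / 2 - s) T ρ (12 / 100) (30 / 100) := by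
  have hN : Nm 4330 3560 5012 10 22 330 2000 600 1100 1220 1590 470 930 xs s T ρ := by
    obtain ⟨-, -, w1, w2, w3, w4, w5, w6, w7, w8, w9, w10, w11, w12⟩ := hW
    dsimp only at w1 w2 w3 w4 w6 w7 w8 w9 w10 w11 w12
    push_cast at ha he
    exact ⟨by linarith only [ha, w5, w7], by linarith only [he, w5, w7], by push_cast; linarith only [w3], by norm_num, by push_cast; linarith only [w8],
      by norm_num, by push_cast; linarith only [w9], by norm_num, by push_cast; linarith only [he, w4, w5, w7, w11], by norm_num,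
      by push_cast; linarith only [he, w3], by push_cast; linarith only [ha, w4, w5, w7], by norm_num, by push_cast; linarith only [w1],
      by push_cast; linarith only [w2], by push_cast; linarith only [w6], by push_cast; linarith only [w7], w5,
      fun _ => by push_cast; linarith only [w10], by push_cast; linarith only [w11]⟩
  have hT : |T| ≤ ((360 : ℕ) : ℝ) / 10000 := by
    have w1 := hW.t0
    have w2 := hW.t1
    dsimp only at w1 w2
    rw [abs_le]
    push_cast
    constructor <;> linarith only [w1, w2]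
  have kc : kC4 11000 1950 2330 360 0 = true := by decide +kernel
  have ua : kU 11000 1950 60100 = true := by decide +kernel
  have hcl : (0 : ℝ) < 12 / 100 := by norm_num
  have hcp : (30 / 100 : ℝ) < 1 / 2 := by norm_num
  have h5 := hN.xs1.le
  refine ⟨fun x y hA => ?_, fun x y hA hx => ?_, fun x y hA hx => ?_⟩
  · have hx0 : ((1200 : ℕ) : ℝ) / 10000 ≤ x := le_trans (by norm_num) hA.x0
    have hx1 : x ≤ ((3000 : ℕ) : ℝ) / 10000 := le_trans hA.x1 (by norm_num)
    have x0 : 0 < x := (n0 (by decide)).trans_le hx0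
    rcases le_total x (((1950 : ℕ) : ℝ) / 10000) with c0 | c0
    · have h := piP cthree_b_0_pl0 hN hA hcl hcp hx0 c0
      have g0 := gL (be := 11000) (p := 1950) (G := 60099) (by decide +kernel) x0 c0 le_rfl (by decide)
      have gm := gh_mono (x := ((1950 : ℕ) : ℝ) / 10000) (n0 (by decide)) ha h5
      unfold lin at h
      push_cast at h gm g0
      linarith only [neg_abs_le (gh x - gh xs), h, gm, g0]
    rcases le_total x (((2330 : ℕ) : ℝ) / 10000) with ce | ce
    · have h := piP cthree_b_0_pm hN hA hcl hcp c0 ce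
      unfold lin at h
      push_cast at h
      linarith only [abs_nonneg (gh x - gh xs), h]
    have gm := gh_mono (y := ((2330 : ℕ) : ℝ) / 10000) hN.xs0 he (nhalf (by decide))
    have h := piP cthree_b_0_pr0 hN hA hcl hcp ce hx1
    have g0 := gL (be := 11000) (p := 3000) (G := 42715) (x := ((2330 : ℕ) : ℝ) / 10000) (by decide +kernel)
      (n0 (by decide)) ce hx1 (by decide)
    unfold lin at h
    push_cast at h gm g0
    linarith only [le_abs_self (gh x - gh xs), h, gm, g0]
  · have hx0 : ((1200 : ℕ) : ℝ) / 10000 ≤ x := le_trans (by norm_num) hA.x0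
    have hx1 : x ≤ ((3000 : ℕ) : ℝ) / 10000 := le_trans hA.x1 (by norm_num)
    have gm := gh_mono ((n0 (by decide)).trans_le hx0) hx.le h5
    have ga := gU ua (by decide) le_rfl ha h5
    have g3 := gS4 kc (by decide) (by decide) le_rfl ha he hT
    push_cast at ga g3
    rcases le_total x (((1500 : ℕ) : ℝ) / 10000) with c0 | c0
    · have h := piD1 cthree_b_0_db0 hN hA hcl hcp (by decide) hx0 c0 ha
      have g0 := gU (be := 11000) (p := 1200) (G := 93875) (by decide +kernel) (by decide) hx0 c0
        (nhalf (by decide))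
      have k1 := gU (be := 11000) (p := 1500) (G := 76120) (y := ((1950 : ℕ) : ℝ) / 10000) (by decide +kernel)
        (by decide) le_rfl (nle (by decide)) (nhalf (by decide))
      push_cast at h g0 k1
      unfold lin at h
      push_cast at h
      exact dn_fin5 h gm (by linarith only [he, ga, g0, k1]) (by linarith only [g3, g0, k1])
    rcases le_total x (((1950 : ℕ) : ℝ) / 10000) with c1 | c1
    · have h := piD1 cthree_b_0_db1 hN hA hcl hcp (by decide) c0 c1 ha
      have g0 := gU (be := 11000) (p := 1500) (G := 76120) (by decide +kernel) (by decide) c0 c1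
        (nhalf (by decide))
      push_cast at h g0
      unfold lin at h
      push_cast at h
      exact dn_fin5 h gm (by linarith only [he, ga, g0]) (by linarith only [g3, g0])
    have h := piD0 cthree_b_0_da hN hA hcl hcp (by decide) c1 (hx.le.trans he) hx.le
    have g1 := gU ua (by decide) c1 hx.le h5
    have g4 := gS4 kc (by decide) (by decide) c1 hx.le he hT
    unfold lin at h
    push_cast at h g1 g4
    exact dn_fin5 h gm (by linarith only [he, g1]) (by linarith only [g4])
  · have hx0 : ((1200 : ℕ) : ℝ) / 10000 ≤ x := le_trans (by norm_num) hA.x0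
    have hx1 : x ≤ ((3000 : ℕ) : ℝ) / 10000 := le_trans hA.x1 (by norm_num)
    have gm := gh_mono hN.xs0 hx.le (hx1.trans (nhalf (by decide)))
    rcases le_total x (((2330 : ℕ) : ℝ) / 10000) with ce | ce
    · have h := piU0 cthree_b_0_ua hN hA hcl hcp (ha.trans hx.le) ce
      have g1 := gU ua (by decide) ha hx.le (hx1.trans (nhalf (by decide)))
      have g3 := gS4 kc (by decide) (by decide) ha hx.le ce hT
      unfold lin at h
      push_cast at h g1 g3
      exact up_fin5 h gm (by linarith only [ha, g1]) (by linarith only [g3])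
    have ga := gU (y := ((2330 : ℕ) : ℝ) / 10000) ua (by decide) ha he (nhalf (by decide))
    have g3 := gS4 kc (by decide) (by decide) ha he le_rfl hT
    push_cast at ga g3
    have h := piU1 cthree_b_0_ub0 hN hA hcl hcp ce hx1
    have g0 := gU (be := 11000) (p := 2330) (G := 51706) (by decide +kernel) (by decide) le_rfl ce
      (hx1.trans (nhalf (by decide)))
    unfold lin at h
    push_cast at h g0
    exact up_fin5 h gm (by linarith only [ha, ga, g0]) (by linarith only [g3, g0])

theorem sthree_c_0 {xs s T ρ : ℝ} (hW : RWp.In ⟨1950 / 10000, 2340 / 10000, -(360 / 10000), 10 / 10000, 2130 / 10000, 2140 / 10000, 470 / 10000, 930 / 10000, 4330 / 10000, 3560 / 10000, 600 / 10000, 1100 / 10000, 22 / 10, 59 / 100⟩ xs s T ρ)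
    (ha : ((1950 : ℕ) : ℝ) / 10000 ≤ xs) (he : xs ≤ ((2200 : ℕ) : ℝ) / 10000) :
    RampOK (65 / 100) (8 / 100) (11 / 10) 4 xs (1 / 2 - s) T ρ (12 / 100) (30 / 100) := by
  have hN : Nm 4330 3560 4882 10 22 190 2130 600 1100 1220 1590 520 930 xs s T ρ := by
    obtain ⟨-, -, w1, w2, w3, w4, w5, w6, w7, w8, w9, w10, w11, w12⟩ := hW
    dsimp only at w1 w2 w3 w4 w6 w7 w8 w9 w10 w11 w12
    push_cast at ha he
    exact ⟨by linarith only [ha, w5, w7], by linarith only [he, w5, w7], by push_cast; linarith only [w3], by norm_num, by push_cast; linarith only [w8],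
      by norm_num, by push_cast; linarith only [w9], by norm_num, by push_cast; linarith only [he, w4, w5, w7, w11], by norm_num,
      by push_cast; linarith only [he, w3, w5, w7], by push_cast; linarith only [ha, w4], by norm_num, by push_cast; linarith only [w1],
      by push_cast; linarith only [w2], by push_cast; linarith only [ha, w3, w9], by push_cast; linarith only [w7], w5,
      fun _ => by push_cast; linarith only [w10], by push_cast; linarith only [w11]⟩
  have hT : |T| ≤ ((360 : ℕ) : ℝ) / 10000 := by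
    have w1 := hW.t0
    have w2 := hW.t1
    dsimp only at w1 w2
    rw [abs_le]
    push_cast
    constructor <;> linarith only [w1, w2]
  have kc : kC4 11000 1950 2200 360 0 = true := by decide +kernel
  have ua : kU 11000 1950 60100 = true := by decide +kernel
  have hcl : (0 : ℝ) < 12 / 100 := by norm_num
  have hcp : (30 / 100 : ℝ) < 1 / 2 := by norm_num
  have h5 := hN.xs1.le
  refine ⟨fun x y hA => ?_, fun x y hA hx => ?_, fun x y hA hx => ?_⟩
  · have hx0 : ((1200 : ℕ) : ℝ) / 10000 ≤ x := le_trans (by norm_num) hA.x0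
    have hx1 : x ≤ ((3000 : ℕ) : ℝ) / 10000 := le_trans hA.x1 (by norm_num)
    have x0 : 0 < x := (n0 (by decide)).trans_le hx0
    rcases le_total x (((1950 : ℕ) : ℝ) / 10000) with c0 | c0
    · have h := piP cthree_c_0_pl0 hN hA hcl hcp hx0 c0
      have g0 := gL (be := 11000) (p := 1950) (G := 60099) (by decide +kernel) x0 c0 le_rfl (by decide)
      have gm := gh_mono (x := ((1950 : ℕ) : ℝ) / 10000) (n0 (by decide)) ha h5
      unfold lin at h
      push_cast at h gm g0
      linarith only [neg_abs_le (gh x - gh xs), h, gm, g0]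
    rcases le_total x (((2200 : ℕ) : ℝ) / 10000) with ce | ce
    · have h := piP cthree_c_0_pm hN hA hcl hcp c0 ce
      unfold lin at h
      push_cast at h
      linarith only [abs_nonneg (gh x - gh xs), h]
    have gm := gh_mono (y := ((2200 : ℕ) : ℝ) / 10000) hN.xs0 he (nhalf (by decide))
    have h := piP cthree_c_0_pr0 hN hA hcl hcp ce hx1
    have g0 := gL (be := 11000) (p := 3000) (G := 42715) (x := ((2200 : ℕ) : ℝ) / 10000) (by decide +kernel)
      (n0 (by decide)) ce hx1 (by decide)
    unfold lin at h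
    push_cast at h gm g0
    linarith only [le_abs_self (gh x - gh xs), h, gm, g0]
  · have hx0 : ((1200 : ℕ) : ℝ) / 10000 ≤ x := le_trans (by norm_num) hA.x0
    have hx1 : x ≤ ((3000 : ℕ) : ℝ) / 10000 := le_trans hA.x1 (by norm_num)
    have gm := gh_mono ((n0 (by decide)).trans_le hx0) hx.le h5
    have ga := gU ua (by decide) le_rfl ha h5
    have g3 := gS4 kc (by decide) (by decide) le_rfl ha he hT
    push_cast at ga g3
    rcases le_total x (((1500 : ℕ) : ℝ) / 10000) with c0 | c0
    · have h := piD1 cthree_c_0_db0 hN hA hcl hcp (by decide) hx0 c0 ha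
      have g0 := gU (be := 11000) (p := 1200) (G := 93875) (by decide +kernel) (by decide) hx0 c0
        (nhalf (by decide))
      have k1 := gU (be := 11000) (p := 1500) (G := 76120) (y := ((1950 : ℕ) : ℝ) / 10000) (by decide +kernel)
        (by decide) le_rfl (nle (by decide)) (nhalf (by decide))
      push_cast at h g0 k1
      unfold lin at h
      push_cast at h
      exact dn_fin5 h gm (by linarith only [he, ga, g0, k1]) (by linarith only [g3, g0, k1])
    rcases le_total x (((1950 : ℕ) : ℝ) / 10000) with c1 | c1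
    · have h := piD1 cthree_c_0_db1 hN hA hcl hcp (by decide) c0 c1 ha
      have g0 := gU (be := 11000) (p := 1500) (G := 76120) (by decide +kernel) (by decide) c0 c1
        (nhalf (by decide))
      push_cast at h g0
      unfold lin at h
      push_cast at h
      exact dn_fin5 h gm (by linarith only [he, ga, g0]) (by linarith only [g3, g0])
    have h := piD0 cthree_c_0_da hN hA hcl hcp (by decide) c1 (hx.le.trans he) hx.le
    have g1 := gU ua (by decide) c1 hx.le h5
    have g4 := gS4 kc (by decide) (by decide) c1 hx.le he hT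
    unfold lin at h
    push_cast at h g1 g4
    exact dn_fin5 h gm (by linarith only [he, g1]) (by linarith only [g4])
  · have hx0 : ((1200 : ℕ) : ℝ) / 10000 ≤ x := le_trans (by norm_num) hA.x0
    have hx1 : x ≤ ((3000 : ℕ) : ℝ) / 10000 := le_trans hA.x1 (by norm_num)
    have gm := gh_mono hN.xs0 hx.le (hx1.trans (nhalf (by decide)))
    rcases le_total x (((2200 : ℕ) : ℝ) / 10000) with ce | ce
    · have h := piU0 cthree_c_0_ua hN hA hcl hcp (ha.trans hx.le) ce
      have g1 := gU ua (by decide) ha hx.le (hx1.trans (nhalf (by decide)))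
      have g3 := gS4 kc (by decide) (by decide) ha hx.le ce hT
      unfold lin at h
      push_cast at h g1 g3
      exact up_fin5 h gm (by linarith only [ha, g1]) (by linarith only [g3])
    have ga := gU (y := ((2200 : ℕ) : ℝ) / 10000) ua (by decide) ha he (nhalf (by decide))
    have g3 := gS4 kc (by decide) (by decide) ha he le_rfl hT
    push_cast at ga g3
    have h := piU1 cthree_c_0_ub0 hN hA hcl hcp ce hx1
    have g0 := gU (be := 11000) (p := 2200) (G := 54215) (by decide +kernel) (by decide) le_rfl ce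
      (hx1.trans (nhalf (by decide)))
    unfold lin at h
    push_cast at h g0
    exact up_fin5 h gm (by linarith only [ha, ga, g0]) (by linarith only [g3, g0])

theorem sthreeE_a_0 {xs s T ρ : ℝ} (hW : RWp.In ⟨1750 / 10000, 1950 / 10000, -(420 / 10000), -(180 / 10000), 1690 / 10000, 2000 / 10000, 430 / 10000, 870 / 10000, 4060 / 10000, 3320 / 10000, 740 / 10000, 1140 / 10000, 22 / 10, 59 / 100⟩ xs s T ρ)
    (ha : ((1750 : ℕ) : ℝ) / 10000 ≤ xs) (he : xs ≤ ((1950 : ℕ) : ℝ) / 10000) :
    RampOK (65 / 100) (14 / 100) 1 4 xs (1 / 2 - s) T ρ (10 / 100) (26 / 100) := by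
  have hN : Nm 3950 3320 4632 10 22 260 1690 740 1140 1160 1400 430 870 xs s T ρ := by
    obtain ⟨-, -, w1, w2, w3, w4, w5, w6, w7, w8, w9, w10, w11, w12⟩ := hW
    dsimp only at w1 w2 w3 w4 w6 w7 w8 w9 w10 w11 w12
    push_cast at ha he
    exact ⟨by linarith only [ha, w5, w7], by linarith only [he, w5, w7], by push_cast; linarith only [w3], by norm_num, by push_cast; linarith only [he, w4],
      by norm_num, by push_cast; linarith only [w9], by norm_num, by push_cast; linarith only [he, w4, w5, w7, w11], by norm_num,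
      by push_cast; linarith only [he, w3], by push_cast; linarith only [ha, w4, w5, w7], by norm_num, by push_cast; linarith only [w1],
      by push_cast; linarith only [w2], by push_cast; linarith only [w6], by push_cast; linarith only [w7], w5,
      fun _ => by push_cast; linarith only [w10], by push_cast; linarith only [w11]⟩
  have hT : |T| ≤ ((420 : ℕ) : ℝ) / 10000 := by
    have w1 := hW.t0
    have w2 := hW.t1
    dsimp only at w1 w2
    rw [abs_le]
    push_cast
    constructor <;> linarith only [w1, w2]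
  have kc : kC4 10000 1750 1950 420 0 = true := by decide +kernel
  have ua : kU 10000 1750 60127 = true := by decide +kernel
  have hcl : (0 : ℝ) < 10 / 100 := by norm_num
  have hcp : (26 / 100 : ℝ) < 1 / 2 := by norm_num
  have h5 := hN.xs1.le
  refine ⟨fun x y hA => ?_, fun x y hA hx => ?_, fun x y hA hx => ?_⟩
  · have hx0 : ((1000 : ℕ) : ℝ) / 10000 ≤ x := le_trans (by norm_num) hA.x0
    have hx1 : x ≤ ((2600 : ℕ) : ℝ) / 10000 := le_trans hA.x1 (by norm_num)
    have x0 : 0 < x := (n0 (by decide)).trans_le hx0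
    rcases le_total x (((1750 : ℕ) : ℝ) / 10000) with c0 | c0
    · have h := piP cthreeE_a_0_pl0 hN hA hcl hcp hx0 c0
      have g0 := gL (be := 10000) (p := 1750) (G := 60126) (by decide +kernel) x0 c0 le_rfl (by decide)
      have gm := gh_mono (x := ((1750 : ℕ) : ℝ) / 10000) (n0 (by decide)) ha h5
      unfold lin at h
      push_cast at h gm g0
      linarith only [neg_abs_le (gh x - gh xs), h, gm, g0]
    rcases le_total x (((1950 : ℕ) : ℝ) / 10000) with ce | ce
    · have h := piP cthreeE_a_0_pm hN hA hcl hcp c0 ce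
      unfold lin at h
      push_cast at h
      linarith only [abs_nonneg (gh x - gh xs), h]
    have gm := gh_mono (y := ((1950 : ℕ) : ℝ) / 10000) hN.xs0 he (nhalf (by decide))
    have h := piP cthreeE_a_0_pr0 hN hA hcl hcp ce hx1
    have g0 := gL (be := 10000) (p := 2600) (G := 43096) (x := ((1950 : ℕ) : ℝ) / 10000) (by decide +kernel)
      (n0 (by decide)) ce hx1 (by decide)
    unfold lin at h
    push_cast at h gm g0
    linarith only [le_abs_self (gh x - gh xs), h, gm, g0]
  · have hx0 : ((1000 : ℕ) : ℝ) / 10000 ≤ x := le_trans (by norm_num) hA.x0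
    have hx1 : x ≤ ((2600 : ℕ) : ℝ) / 10000 := le_trans hA.x1 (by norm_num)
    have gm := gh_mono ((n0 (by decide)).trans_le hx0) hx.le h5
    have ga := gU ua (by decide) le_rfl ha h5
    have g3 := gS4 kc (by decide) (by decide) le_rfl ha he hT
    push_cast at ga g3
    rcases le_total x (((1300 : ℕ) : ℝ) / 10000) with c0 | c0
    · have h := piD1 cthreeE_a_0_db0 hN hA hcl hcp (by decide) hx0 c0 ha
      have g0 := gU (be := 10000) (p := 1000) (G := 101665) (by decide +kernel) (by decide) hx0 c0
        (nhalf (by decide))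
      have k1 := gU (be := 10000) (p := 1300) (G := 79104) (y := ((1750 : ℕ) : ℝ) / 10000) (by decide +kernel)
        (by decide) le_rfl (nle (by decide)) (nhalf (by decide))
      push_cast at h g0 k1
      unfold lin at h
      push_cast at h
      exact dn_fin5 h gm (by linarith only [he, ga, g0, k1]) (by linarith only [g3, g0, k1])
    rcases le_total x (((1750 : ℕ) : ℝ) / 10000) with c1 | c1
    · have h := piD1 cthreeE_a_0_db1 hN hA hcl hcp (by decide) c0 c1 ha
      have g0 := gU (be := 10000) (p := 1300) (G := 79104) (by decide +kernel) (by decide) c0 c1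
        (nhalf (by decide))
      push_cast at h g0
      unfold lin at h
      push_cast at h
      exact dn_fin5 h gm (by linarith only [he, ga, g0]) (by linarith only [g3, g0])
    have h := piD0 cthreeE_a_0_da hN hA hcl hcp (by decide) c1 (hx.le.trans he) hx.le
    have g1 := gU ua (by decide) c1 hx.le h5
    have g4 := gS4 kc (by decide) (by decide) c1 hx.le he hT
    unfold lin at h
    push_cast at h g1 g4
    exact dn_fin5 h gm (by linarith only [he, g1]) (by linarith only [g4])
  · have hx0 : ((1000 : ℕ) : ℝ) / 10000 ≤ x := le_trans (by norm_num) hA.x0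
    have hx1 : x ≤ ((2600 : ℕ) : ℝ) / 10000 := le_trans hA.x1 (by norm_num)
    have gm := gh_mono hN.xs0 hx.le (hx1.trans (nhalf (by decide)))
    rcases le_total x (((1950 : ℕ) : ℝ) / 10000) with ce | ce
    · have h := piU0 cthreeE_a_0_ua hN hA hcl hcp (ha.trans hx.le) ce
      have g1 := gU ua (by decide) ha hx.le (hx1.trans (nhalf (by decide)))
      have g3 := gS4 kc (by decide) (by decide) ha hx.le ce hT
      unfold lin at h
      push_cast at h g1 g3
      exact up_fin5 h gm (by linarith only [ha, g1]) (by linarith only [g3])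
    have ga := gU (y := ((1950 : ℕ) : ℝ) / 10000) ua (by decide) ha he (nhalf (by decide))
    have g3 := gS4 kc (by decide) (by decide) ha he le_rfl hT
    push_cast at ga g3
    have h := piU1 cthreeE_a_0_ub0 hN hA hcl hcp ce hx1
    have g0 := gU (be := 10000) (p := 1950) (G := 54636) (by decide +kernel) (by decide) le_rfl ce
      (hx1.trans (nhalf (by decide)))
    unfold lin at h
    push_cast at h g0
    exact up_fin5 h gm (by linarith only [ha, ga, g0]) (by linarith only [g3, g0])

theorem sthreeE_b_0 {xs s T ρ : ℝ} (hW : RWp.In ⟨1750 / 10000, 1950 / 10000, -(420 / 10000), -(180 / 10000), 2000 / 10000, 2130 / 10000, 430 / 10000, 870 / 10000, 4060 / 10000, 3320 / 10000, 740 / 10000, 1140 / 10000, 22 / 10, 59 / 100⟩ xs s T ρ)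
    (ha : ((1750 : ℕ) : ℝ) / 10000 ≤ xs) (he : xs ≤ ((1950 : ℕ) : ℝ) / 10000) :
    RampOK (65 / 100) (14 / 100) (11 / 10) 4 xs (1 / 2 - s) T ρ (10 / 100) (26 / 100) := by
  have hN : Nm 4060 3320 4632 10 22 380 2000 740 1140 1160 1400 430 870 xs s T ρ := by
    obtain ⟨-, -, w1, w2, w3, w4, w5, w6, w7, w8, w9, w10, w11, w12⟩ := hW
    dsimp only at w1 w2 w3 w4 w6 w7 w8 w9 w10 w11 w12
    push_cast at ha he
    exact ⟨by linarith only [ha, w5, w7], by linarith only [he, w5, w7], by push_cast; linarith only [w3], by norm_num, by push_cast; linarith only [w8],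
      by norm_num, by push_cast; linarith only [w9], by norm_num, by push_cast; linarith only [he, w4, w5, w7, w11], by norm_num,
      by push_cast; linarith only [he, w3, w5, w7], by push_cast; linarith only [ha, w4], by norm_num, by push_cast; linarith only [w1],
      by push_cast; linarith only [w2], by push_cast; linarith only [w6], by push_cast; linarith only [w7], w5,
      fun _ => by push_cast; linarith only [w10], by push_cast; linarith only [w11]⟩
  have hT : |T| ≤ ((420 : ℕ) : ℝ) / 10000 := by
    have w1 := hW.t0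
    have w2 := hW.t1
    dsimp only at w1 w2
    rw [abs_le]
    push_cast
    constructor <;> linarith only [w1, w2]
  have kc : kC4 11000 1750 1950 420 0 = true := by decide +kernel
  have ua : kU 11000 1750 66139 = true := by decide +kernel
  have hcl : (0 : ℝ) < 10 / 100 := by norm_num
  have hcp : (26 / 100 : ℝ) < 1 / 2 := by norm_num
  have h5 := hN.xs1.le
  refine ⟨fun x y hA => ?_, fun x y hA hx => ?_, fun x y hA hx => ?_⟩
  · have hx0 : ((1000 : ℕ) : ℝ) / 10000 ≤ x := le_trans (by norm_num) hA.x0
    have hx1 : x ≤ ((2600 : ℕ) : ℝ) / 10000 := le_trans hA.x1 (by norm_num)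
    have x0 : 0 < x := (n0 (by decide)).trans_le hx0
    rcases le_total x (((1750 : ℕ) : ℝ) / 10000) with c0 | c0
    · have h := piP cthreeE_b_0_pl0 hN hA hcl hcp hx0 c0
      have g0 := gL (be := 11000) (p := 1750) (G := 66138) (by decide +kernel) x0 c0 le_rfl (by decide)
      have gm := gh_mono (x := ((1750 : ℕ) : ℝ) / 10000) (n0 (by decide)) ha h5
      unfold lin at h
      push_cast at h gm g0
      linarith only [neg_abs_le (gh x - gh xs), h, gm, g0]
    rcases le_total x (((1950 : ℕ) : ℝ) / 10000) with ce | ce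
    · have h := piP cthreeE_b_0_pm hN hA hcl hcp c0 ce
      unfold lin at h
      push_cast at h
      linarith only [abs_nonneg (gh x - gh xs), h]
    have gm := gh_mono (y := ((1950 : ℕ) : ℝ) / 10000) hN.xs0 he (nhalf (by decide))
    have h := piP cthreeE_b_0_pr0 hN hA hcl hcp ce hx1
    have g0 := gL (be := 11000) (p := 2600) (G := 47406) (x := ((1950 : ℕ) : ℝ) / 10000) (by decide +kernel)
      (n0 (by decide)) ce hx1 (by decide)
    unfold lin at h
    push_cast at h gm g0
    linarith only [le_abs_self (gh x - gh xs), h, gm, g0]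
  · have hx0 : ((1000 : ℕ) : ℝ) / 10000 ≤ x := le_trans (by norm_num) hA.x0
    have hx1 : x ≤ ((2600 : ℕ) : ℝ) / 10000 := le_trans hA.x1 (by norm_num)
    have gm := gh_mono ((n0 (by decide)).trans_le hx0) hx.le h5
    have ga := gU ua (by decide) le_rfl ha h5
    have g3 := gS4 kc (by decide) (by decide) le_rfl ha he hT
    push_cast at ga g3
    rcases le_total x (((1300 : ℕ) : ℝ) / 10000) with c0 | c0
    · have h := piD1 cthreeE_b_0_db0 hN hA hcl hcp (by decide) hx0 c0 ha
      have g0 := gU (be := 11000) (p := 1000) (G := 111831) (by decide +kernel) (by decide) hx0 c0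
        (nhalf (by decide))
      have k1 := gU (be := 11000) (p := 1300) (G := 87015) (y := ((1750 : ℕ) : ℝ) / 10000) (by decide +kernel)
        (by decide) le_rfl (nle (by decide)) (nhalf (by decide))
      push_cast at h g0 k1
      unfold lin at h
      push_cast at h
      exact dn_fin5 h gm (by linarith only [he, ga, g0, k1]) (by linarith only [g3, g0, k1])
    rcases le_total x (((1750 : ℕ) : ℝ) / 10000) with c1 | c1
    · have h := piD1 cthreeE_b_0_db1 hN hA hcl hcp (by decide) c0 c1 ha
      have g0 := gU (be := 11000) (p := 1300) (G := 87015) (by decide +kernel) (by decide) c0 c1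
        (nhalf (by decide))
      push_cast at h g0
      unfold lin at h
      push_cast at h
      exact dn_fin5 h gm (by linarith only [he, ga, g0]) (by linarith only [g3, g0])
    have h := piD0 cthreeE_b_0_da hN hA hcl hcp (by decide) c1 (hx.le.trans he) hx.le
    have g1 := gU ua (by decide) c1 hx.le h5
    have g4 := gS4 kc (by decide) (by decide) c1 hx.le he hT
    unfold lin at h
    push_cast at h g1 g4
    exact dn_fin5 h gm (by linarith only [he, g1]) (by linarith only [g4])
  · have hx0 : ((1000 : ℕ) : ℝ) / 10000 ≤ x := le_trans (by norm_num) hA.x0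
    have hx1 : x ≤ ((2600 : ℕ) : ℝ) / 10000 := le_trans hA.x1 (by norm_num)
    have gm := gh_mono hN.xs0 hx.le (hx1.trans (nhalf (by decide)))
    rcases le_total x (((1950 : ℕ) : ℝ) / 10000) with ce | ce
    · have h := piU0 cthreeE_b_0_ua hN hA hcl hcp (ha.trans hx.le) ce
      have g1 := gU ua (by decide) ha hx.le (hx1.trans (nhalf (by decide)))
      have g3 := gS4 kc (by decide) (by decide) ha hx.le ce hT
      unfold lin at h
      push_cast at h g1 g3
      exact up_fin5 h gm (by linarith only [ha, g1]) (by linarith only [g3])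
    have ga := gU (y := ((1950 : ℕ) : ℝ) / 10000) ua (by decide) ha he (nhalf (by decide))
    have g3 := gS4 kc (by decide) (by decide) ha he le_rfl hT
    push_cast at ga g3
    have h := piU1 cthreeE_b_0_ub0 hN hA hcl hcp ce hx1
    have g0 := gU (be := 11000) (p := 1950) (G := 60100) (by decide +kernel) (by decide) le_rfl ce
      (hx1.trans (nhalf (by decide)))
    unfold lin at h
    push_cast at h g0
    exact up_fin5 h gm (by linarith only [ha, ga, g0]) (by linarith only [g3, g0])

theorem sthreeE_c_0 {xs s T ρ : ℝ} (hW : RWp.In ⟨1750 / 10000, 1950 / 10000, -(420 / 10000), -(180 / 10000), 2130 / 10000, 2170 / 10000, 430 / 10000, 870 / 10000, 4060 / 10000, 3320 / 10000, 740 / 10000, 1140 / 10000, 22 / 10, 59 / 100⟩ xs s T ρ)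
    (ha : ((1750 : ℕ) : ℝ) / 10000 ≤ xs) (he : xs ≤ ((1930 : ℕ) : ℝ) / 10000) :
    RampOK (65 / 100) (8 / 100) (11 / 10) 4 xs (1 / 2 - s) T ρ (10 / 100) (26 / 100) := by
  have hN : Nm 4060 3320 4612 10 22 420 2130 740 1140 1160 1400 560 870 xs s T ρ := by
    obtain ⟨-, -, w1, w2, w3, w4, w5, w6, w7, w8, w9, w10, w11, w12⟩ := hW
    dsimp only at w1 w2 w3 w4 w6 w7 w8 w9 w10 w11 w12
    push_cast at ha he
    exact ⟨by linarith only [ha, w5, w7], by linarith only [he, w5, w7], by push_cast; linarith only [w3], by norm_num, by push_cast; linarith only [w8],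
      by norm_num, by push_cast; linarith only [w9], by norm_num, by push_cast; linarith only [w5, w7, w8, w11], by norm_num,
      by push_cast; linarith only [he, w3, w5, w7], by push_cast; linarith only [ha, w4], by norm_num, by push_cast; linarith only [w1],
      by push_cast; linarith only [w2], by push_cast; linarith only [ha, w3, w9], by push_cast; linarith only [w7], w5,
      fun _ => by push_cast; linarith only [ha, w2, w3, w9], by push_cast; linarith only [w11]⟩
  have hT : |T| ≤ ((420 : ℕ) : ℝ) / 10000 := by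
    have w1 := hW.t0
    have w2 := hW.t1
    dsimp only at w1 w2
    rw [abs_le]
    push_cast
    constructor <;> linarith only [w1, w2]
  have kc : kC4 11000 1750 1930 420 0 = true := by decide +kernel
  have ua : kU 11000 1750 66139 = true := by decide +kernel
  have hcl : (0 : ℝ) < 10 / 100 := by norm_num
  have hcp : (26 / 100 : ℝ) < 1 / 2 := by norm_num
  have h5 := hN.xs1.le
  refine ⟨fun x y hA => ?_, fun x y hA hx => ?_, fun x y hA hx => ?_⟩
  · have hx0 : ((1000 : ℕ) : ℝ) / 10000 ≤ x := le_trans (by norm_num) hA.x0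
    have hx1 : x ≤ ((2600 : ℕ) : ℝ) / 10000 := le_trans hA.x1 (by norm_num)
    have x0 : 0 < x := (n0 (by decide)).trans_le hx0
    rcases le_total x (((1750 : ℕ) : ℝ) / 10000) with c0 | c0
    · have h := piP cthreeE_c_0_pl0 hN hA hcl hcp hx0 c0
      have g0 := gL (be := 11000) (p := 1750) (G := 66138) (by decide +kernel) x0 c0 le_rfl (by decide)
      have gm := gh_mono (x := ((1750 : ℕ) : ℝ) / 10000) (n0 (by decide)) ha h5
      unfold lin at h
      push_cast at h gm g0
      linarith only [neg_abs_le (gh x - gh xs), h, gm, g0]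
    rcases le_total x (((1930 : ℕ) : ℝ) / 10000) with ce | ce
    · have h := piP cthreeE_c_0_pm hN hA hcl hcp c0 ce
      unfold lin at h
      push_cast at h
      linarith only [abs_nonneg (gh x - gh xs), h]
    have gm := gh_mono (y := ((1930 : ℕ) : ℝ) / 10000) hN.xs0 he (nhalf (by decide))
    have h := piP cthreeE_c_0_pr0 hN hA hcl hcp ce hx1
    have g0 := gL (be := 11000) (p := 2600) (G := 47406) (x := ((1930 : ℕ) : ℝ) / 10000) (by decide +kernel)
      (n0 (by decide)) ce hx1 (by decide)
    unfold lin at h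
    push_cast at h gm g0
    linarith only [le_abs_self (gh x - gh xs), h, gm, g0]
  · have hx0 : ((1000 : ℕ) : ℝ) / 10000 ≤ x := le_trans (by norm_num) hA.x0
    have hx1 : x ≤ ((2600 : ℕ) : ℝ) / 10000 := le_trans hA.x1 (by norm_num)
    have gm := gh_mono ((n0 (by decide)).trans_le hx0) hx.le h5
    have ga := gU ua (by decide) le_rfl ha h5
    have g3 := gS4 kc (by decide) (by decide) le_rfl ha he hT
    push_cast at ga g3
    rcases le_total x (((1300 : ℕ) : ℝ) / 10000) with c0 | c0
    · have h := piD1 cthreeE_c_0_db0 hN hA hcl hcp (by decide) hx0 c0 ha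
      have g0 := gU (be := 11000) (p := 1000) (G := 111831) (by decide +kernel) (by decide) hx0 c0
        (nhalf (by decide))
      have k1 := gU (be := 11000) (p := 1300) (G := 87015) (y := ((1750 : ℕ) : ℝ) / 10000) (by decide +kernel)
        (by decide) le_rfl (nle (by decide)) (nhalf (by decide))
      push_cast at h g0 k1
      unfold lin at h
      push_cast at h
      exact dn_fin5 h gm (by linarith only [he, ga, g0, k1]) (by linarith only [g3, g0, k1])
    rcases le_total x (((1750 : ℕ) : ℝ) / 10000) with c1 | c1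
    · have h := piD1 cthreeE_c_0_db1 hN hA hcl hcp (by decide) c0 c1 ha
      have g0 := gU (be := 11000) (p := 1300) (G := 87015) (by decide +kernel) (by decide) c0 c1
        (nhalf (by decide))
      push_cast at h g0
      unfold lin at h
      push_cast at h
      exact dn_fin5 h gm (by linarith only [he, ga, g0]) (by linarith only [g3, g0])
    have h := piD0 cthreeE_c_0_da hN hA hcl hcp (by decide) c1 (hx.le.trans he) hx.le
    have g1 := gU ua (by decide) c1 hx.le h5
    have g4 := gS4 kc (by decide) (by decide) c1 hx.le he hT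
    unfold lin at h
    push_cast at h g1 g4
    exact dn_fin5 h gm (by linarith only [he, g1]) (by linarith only [g4])
  · have hx0 : ((1000 : ℕ) : ℝ) / 10000 ≤ x := le_trans (by norm_num) hA.x0
    have hx1 : x ≤ ((2600 : ℕ) : ℝ) / 10000 := le_trans hA.x1 (by norm_num)
    have gm := gh_mono hN.xs0 hx.le (hx1.trans (nhalf (by decide)))
    rcases le_total x (((1930 : ℕ) : ℝ) / 10000) with ce | ce
    · have h := piU0 cthreeE_c_0_ua hN hA hcl hcp (ha.trans hx.le) ce
      have g1 := gU ua (by decide) ha hx.le (hx1.trans (nhalf (by decide)))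
      have g3 := gS4 kc (by decide) (by decide) ha hx.le ce hT
      unfold lin at h
      push_cast at h g1 g3
      exact up_fin5 h gm (by linarith only [ha, g1]) (by linarith only [g3])
    have ga := gU (y := ((1930 : ℕ) : ℝ) / 10000) ua (by decide) ha he (nhalf (by decide))
    have g3 := gS4 kc (by decide) (by decide) ha he le_rfl hT
    push_cast at ga g3
    have h := piU1 cthreeE_c_0_ub0 hN hA hcl hcp ce hx1
    have g0 := gU (be := 11000) (p := 1930) (G := 60643) (by decide +kernel) (by decide) le_rfl ce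
      (hx1.trans (nhalf (by decide)))
    unfold lin at h
    push_cast at h g0
    exact up_fin5 h gm (by linarith only [ha, ga, g0]) (by linarith only [g3, g0])

end RQ4

namespace RC

theorem i4_three_a : RowI
    ⟨1950 / 10000, 2340 / 10000, -(360 / 10000), 10 / 10000, 1650 / 10000, 2000 / 10000, 470 / 10000, 930 / 10000, 4330 / 10000, 3560 / 10000, 600 / 10000, 1100 / 10000, 22 / 10, 59 / 100⟩
    4 (65 / 100) (14 / 100) 1 (12 / 100) (30 / 100) := by
  intro xs s T ρ hW
  have h0 : ((1950 : ℕ) : ℝ) / 10000 ≤ xs := le_trans (by norm_num) hW.x0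
  have h1 : xs ≤ ((2340 : ℕ) : ℝ) / 10000 := by
    obtain ⟨-, w0, -, -, w3, -, -, -, w7, w8, w9, -, -, -⟩ := hW
    dsimp only at w0 w3 w7 w8 w9
    push_cast
    linarith only [w0]
  exact RQ4.sthree_a_0 hW h0 h1

theorem i4_three_b : RowI
    ⟨1950 / 10000, 2340 / 10000, -(360 / 10000), 10 / 10000, 2000 / 10000, 2130 / 10000, 470 / 10000, 930 / 10000, 4330 / 10000, 3560 / 10000, 600 / 10000, 1100 / 10000, 22 / 10, 59 / 100⟩
    4 (65 / 100) (14 / 100) (11 / 10) (12 / 100) (30 / 100) := by
  intro xs s T ρ hW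
  have h0 : ((1950 : ℕ) : ℝ) / 10000 ≤ xs := le_trans (by norm_num) hW.x0
  have h1 : xs ≤ ((2330 : ℕ) : ℝ) / 10000 := by
    obtain ⟨-, w0, -, -, w3, -, -, -, w7, w8, w9, -, -, -⟩ := hW
    dsimp only at w0 w3 w7 w8 w9
    push_cast
    linarith only [w3, w8]
  exact RQ4.sthree_b_0 hW h0 h1

theorem i4_three_c : RowI
    ⟨1950 / 10000, 2340 / 10000, -(360 / 10000), 10 / 10000, 2130 / 10000, 2140 / 10000, 470 / 10000, 930 / 10000, 4330 / 10000, 3560 / 10000, 600 / 10000, 1100 / 10000, 22 / 10, 59 / 100⟩
    4 (65 / 100) (8 / 100) (11 / 10) (12 / 100) (30 / 100) := by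
  intro xs s T ρ hW
  have h0 : ((1950 : ℕ) : ℝ) / 10000 ≤ xs := le_trans (by norm_num) hW.x0
  have h1 : xs ≤ ((2200 : ℕ) : ℝ) / 10000 := by
    obtain ⟨-, w0, -, -, w3, -, -, -, w7, w8, w9, -, -, -⟩ := hW
    dsimp only at w0 w3 w7 w8 w9
    push_cast
    linarith only [w3, w8]
  exact RQ4.sthree_c_0 hW h0 h1

theorem i4_threeE_a : RowI
    ⟨1750 / 10000, 1950 / 10000, -(420 / 10000), -(180 / 10000), 1690 / 10000, 2000 / 10000, 430 / 10000, 870 / 10000, 4060 / 10000, 3320 / 10000, 740 / 10000, 1140 / 10000, 22 / 10, 59 / 100⟩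
    4 (65 / 100) (14 / 100) 1 (10 / 100) (26 / 100) := by
  intro xs s T ρ hW
  have h0 : ((1750 : ℕ) : ℝ) / 10000 ≤ xs := le_trans (by norm_num) hW.x0
  have h1 : xs ≤ ((1950 : ℕ) : ℝ) / 10000 := by
    obtain ⟨-, w0, -, -, w3, -, -, -, w7, w8, w9, -, -, -⟩ := hW
    dsimp only at w0 w3 w7 w8 w9
    push_cast
    linarith only [w0]
  exact RQ4.sthreeE_a_0 hW h0 h1

theorem i4_threeE_b : RowI
    ⟨1750 / 10000, 1950 / 10000, -(420 / 10000), -(180 / 10000), 2000 / 10000, 2130 / 10000, 430 / 10000, 870 / 10000, 4060 / 10000, 3320 / 10000, 740 / 10000, 1140 / 10000, 22 / 10, 59 / 100⟩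
    4 (65 / 100) (14 / 100) (11 / 10) (10 / 100) (26 / 100) := by
  intro xs s T ρ hW
  have h0 : ((1750 : ℕ) : ℝ) / 10000 ≤ xs := le_trans (by norm_num) hW.x0
  have h1 : xs ≤ ((1950 : ℕ) : ℝ) / 10000 := by
    obtain ⟨-, w0, -, -, w3, -, -, -, w7, w8, w9, -, -, -⟩ := hW
    dsimp only at w0 w3 w7 w8 w9
    push_cast
    linarith only [w0]
  exact RQ4.sthreeE_b_0 hW h0 h1

theorem i4_threeE_c : RowI
    ⟨1750 / 10000, 1950 / 10000, -(420 / 10000), -(180 / 10000), 2130 / 10000, 2170 / 10000, 430 / 10000, 870 / 10000, 4060 / 10000, 3320 / 10000, 740 / 10000, 1140 / 10000, 22 / 10, 59 / 100⟩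
    4 (65 / 100) (8 / 100) (11 / 10) (10 / 100) (26 / 100) := by
  intro xs s T ρ hW
  have h0 : ((1750 : ℕ) : ℝ) / 10000 ≤ xs := le_trans (by norm_num) hW.x0
  have h1 : xs ≤ ((1930 : ℕ) : ℝ) / 10000 := by
    obtain ⟨-, w0, -, -, w3, -, -, -, w7, w8, w9, -, -, -⟩ := hW
    dsimp only at w0 w3 w7 w8 w9
    push_cast
    linarith only [w3, w8]
  exact RQ4.sthreeE_c_0 hW h0 h1

end RC

end Pool.Agent.Work.MP_b30479_gtS.G2

end

section

/-!
# Rings with the ring variable on the ramp, `b = 4`, inside: rows two_a, two_b, twoE_a, twoE_b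
-/

set_option deprecated.oldSectionVars true

namespace Pool.Agent.Work.MP_b30479_gtS.G2

open Real NumIs

namespace RQ4

open RC RQ

theorem stwo_a_0 {xs s T ρ : ℝ} (hW : RWp.In ⟨1985 / 10000, 2520 / 10000, -(680 / 10000), -(100 / 10000), 1610 / 10000, 2000 / 10000, 420 / 10000, 910 / 10000, 4495 / 10000, 3750 / 10000, 730 / 10000, 1360 / 10000, 13 / 10, 398 / 1000⟩ xs s T ρ)
    (ha : ((1985 : ℕ) : ℝ) / 10000 ≤ xs) (he : xs ≤ ((2520 : ℕ) : ℝ) / 10000) :
    RampOK (65 / 100) (14 / 100) 1 4 xs (1 / 2 - s) T ρ (125 / 1000) (30 / 100) := by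
  have hN : Nm 4495 3750 5582 10 13 910 1610 730 1360 900 1480 420 910 xs s T ρ := by
    obtain ⟨-, -, w1, w2, w3, w4, w5, w6, w7, w8, w9, w10, w11, w12⟩ := hW
    dsimp only at w1 w2 w3 w4 w6 w7 w8 w9 w10 w11 w12
    push_cast at ha he
    exact ⟨by linarith only [ha, w5, w7], by linarith only [he, w5, w7], by push_cast; linarith only [w3], by norm_num, by push_cast; linarith only [w8],
      by norm_num, by push_cast; linarith only [w9], by norm_num, by push_cast; linarith only [he, w4, w5, w7, w11], by norm_num,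
      by push_cast; linarith only [he, w3], by push_cast; linarith only [ha, w4, w5, w7], by norm_num, by push_cast; linarith only [w1],
      by push_cast; linarith only [w2], by push_cast; linarith only [w6], by push_cast; linarith only [w7], w5,
      fun _ => by push_cast; linarith only [w10], by push_cast; linarith only [w11]⟩
  have hT : |T| ≤ ((680 : ℕ) : ℝ) / 10000 := by
    have w1 := hW.t0
    have w2 := hW.t1
    dsimp only at w1 w2
    rw [abs_le]
    push_cast
    constructor <;> linarith only [w1, w2]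
  have kc : kC4 10000 1985 2520 680 0 = true := by decide +kernel
  have ua : kU 10000 1985 53798 = true := by decide +kernel
  have hcl : (0 : ℝ) < 125 / 1000 := by norm_num
  have hcp : (30 / 100 : ℝ) < 1 / 2 := by norm_num
  have h5 := hN.xs1.le
  refine ⟨fun x y hA => ?_, fun x y hA hx => ?_, fun x y hA hx => ?_⟩
  · have hx0 : ((1250 : ℕ) : ℝ) / 10000 ≤ x := le_trans (by norm_num) hA.x0
    have hx1 : x ≤ ((3000 : ℕ) : ℝ) / 10000 := le_trans hA.x1 (by norm_num)
    have x0 : 0 < x := (n0 (by decide)).trans_le hx0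
    rcases le_total x (((1700 : ℕ) : ℝ) / 10000) with c0 | c0
    · have h := piP ctwo_a_0_pl0 hN hA hcl hcp hx0 c0
      have g0 := gL (be := 10000) (p := 1700) (G := 61715) (by decide +kernel) x0 c0 le_rfl (by decide)
      have g1 := gL (be := 10000) (p := 1985) (G := 53797) (x := ((1700 : ℕ) : ℝ) / 10000) (by decide +kernel)
        (n0 (by decide)) (nle (by decide)) le_rfl (by decide)
      have gm := gh_mono (x := ((1985 : ℕ) : ℝ) / 10000) (n0 (by decide)) ha h5
      unfold lin at h
      push_cast at h gm g0 g1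
      linarith only [neg_abs_le (gh x - gh xs), h, gm, g0, g1]
    rcases le_total x (((1985 : ℕ) : ℝ) / 10000) with c1 | c1
    · have h := piP ctwo_a_0_pl1 hN hA hcl hcp c0 c1
      have g0 := gL (be := 10000) (p := 1985) (G := 53797) (by decide +kernel) x0 c1 le_rfl (by decide)
      have gm := gh_mono (x := ((1985 : ℕ) : ℝ) / 10000) (n0 (by decide)) ha h5
      unfold lin at h
      push_cast at h gm g0
      linarith only [neg_abs_le (gh x - gh xs), h, gm, g0]
    rcases le_total x (((2520 : ℕ) : ℝ) / 10000) with ce | ce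
    · have h := piP ctwo_a_0_pm hN hA hcl hcp c1 ce
      unfold lin at h
      push_cast at h
      linarith only [abs_nonneg (gh x - gh xs), h]
    have gm := gh_mono (y := ((2520 : ℕ) : ℝ) / 10000) hN.xs0 he (nhalf (by decide))
    have h := piP ctwo_a_0_pr0 hN hA hcl hcp ce hx1
    have g0 := gL (be := 10000) (p := 3000) (G := 38832) (x := ((2520 : ℕ) : ℝ) / 10000) (by decide +kernel)
      (n0 (by decide)) ce hx1 (by decide)
    unfold lin at h
    push_cast at h gm g0
    linarith only [le_abs_self (gh x - gh xs), h, gm, g0]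
  · have hx0 : ((1250 : ℕ) : ℝ) / 10000 ≤ x := le_trans (by norm_num) hA.x0
    have hx1 : x ≤ ((3000 : ℕ) : ℝ) / 10000 := le_trans hA.x1 (by norm_num)
    have gm := gh_mono ((n0 (by decide)).trans_le hx0) hx.le h5
    have ga := gU ua (by decide) le_rfl ha h5
    have g3 := gS4 kc (by decide) (by decide) le_rfl ha he hT
    push_cast at ga g3
    rcases le_total x (((1700 : ℕ) : ℝ) / 10000) with c0 | c0
    · have h := piD1 ctwo_a_0_db0 hN hA hcl hcp (by decide) hx0 c0 ha
      have g0 := gU (be := 10000) (p := 1250) (G := 82094) (by decide +kernel) (by decide) hx0 c0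
        (nhalf (by decide))
      have k1 := gU (be := 10000) (p := 1700) (G := 61716) (y := ((1985 : ℕ) : ℝ) / 10000) (by decide +kernel)
        (by decide) le_rfl (nle (by decide)) (nhalf (by decide))
      push_cast at h g0 k1
      unfold lin at h
      push_cast at h
      exact dn_fin5 h gm (by linarith only [he, ga, g0, k1]) (by linarith only [g3, g0, k1])
    rcases le_total x (((1985 : ℕ) : ℝ) / 10000) with c1 | c1
    · have h := piD1 ctwo_a_0_db1 hN hA hcl hcp (by decide) c0 c1 ha
      have g0 := gU (be := 10000) (p := 1700) (G := 61716) (by decide +kernel) (by decide) c0 c1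
        (nhalf (by decide))
      push_cast at h g0
      unfold lin at h
      push_cast at h
      exact dn_fin5 h gm (by linarith only [he, ga, g0]) (by linarith only [g3, g0])
    have h := piD0 ctwo_a_0_da hN hA hcl hcp (by decide) c1 (hx.le.trans he) hx.le
    have g1 := gU ua (by decide) c1 hx.le h5
    have g4 := gS4 kc (by decide) (by decide) c1 hx.le he hT
    unfold lin at h
    push_cast at h g1 g4
    exact dn_fin5 h gm (by linarith only [he, g1]) (by linarith only [g4])
  · have hx0 : ((1250 : ℕ) : ℝ) / 10000 ≤ x := le_trans (by norm_num) hA.x0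
    have hx1 : x ≤ ((3000 : ℕ) : ℝ) / 10000 := le_trans hA.x1 (by norm_num)
    have gm := gh_mono hN.xs0 hx.le (hx1.trans (nhalf (by decide)))
    rcases le_total x (((2520 : ℕ) : ℝ) / 10000) with ce | ce
    · have h := piU0 ctwo_a_0_ua hN hA hcl hcp (ha.trans hx.le) ce
      have g1 := gU ua (by decide) ha hx.le (hx1.trans (nhalf (by decide)))
      have g3 := gS4 kc (by decide) (by decide) ha hx.le ce hT
      unfold lin at h
      push_cast at h g1 g3
      exact up_fin5 h gm (by linarith only [ha, g1]) (by linarith only [g3])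
    have ga := gU (y := ((2520 : ℕ) : ℝ) / 10000) ua (by decide) ha he (nhalf (by decide))
    have g3 := gS4 kc (by decide) (by decide) ha he le_rfl hT
    push_cast at ga g3
    have h := piU1 ctwo_a_0_ub0 hN hA hcl hcp ce hx1
    have g0 := gU (be := 10000) (p := 2520) (G := 44153) (by decide +kernel) (by decide) le_rfl ce
      (hx1.trans (nhalf (by decide)))
    unfold lin at h
    push_cast at h g0
    exact up_fin5 h gm (by linarith only [ha, ga, g0]) (by linarith only [g3, g0])

theorem stwo_b_0 {xs s T ρ : ℝ} (hW : RWp.In ⟨1985 / 10000, 2520 / 10000, -(680 / 10000), -(100 / 10000), 2000 / 10000, 2110 / 10000, 420 / 10000, 910 / 10000, 4495 / 10000, 3750 / 10000, 730 / 10000, 1360 / 10000, 13 / 10, 398 / 1000⟩ xs s T ρ)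
    (ha : ((1985 : ℕ) : ℝ) / 10000 ≤ xs) (he : xs ≤ ((2495 : ℕ) : ℝ) / 10000) :
    RampOK (65 / 100) (14 / 100) (11 / 10) 4 xs (1 / 2 - s) T ρ (125 / 1000) (30 / 100) := by
  have hN : Nm 4495 3750 5557 10 13 495 2000 730 1360 900 1480 420 910 xs s T ρ := by
    obtain ⟨-, -, w1, w2, w3, w4, w5, w6, w7, w8, w9, w10, w11, w12⟩ := hW
    dsimp only at w1 w2 w3 w4 w6 w7 w8 w9 w10 w11 w12
    push_cast at ha he
    exact ⟨by linarith only [ha, w5, w7], by linarith only [he, w5, w7], by push_cast; linarith only [w3], by norm_num, by push_cast; linarith only [w8],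
      by norm_num, by push_cast; linarith only [w9], by norm_num, by push_cast; linarith only [w5, w7, w8, w11], by norm_num,
      by push_cast; linarith only [he, w3], by push_cast; linarith only [ha, w4, w5, w7], by norm_num, by push_cast; linarith only [w1],
      by push_cast; linarith only [w2], by push_cast; linarith only [w6], by push_cast; linarith only [w7], w5,
      fun _ => by push_cast; linarith only [w10], by push_cast; linarith only [w11]⟩
  have hT : |T| ≤ ((680 : ℕ) : ℝ) / 10000 := by
    have w1 := hW.t0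
    have w2 := hW.t1
    dsimp only at w1 w2
    rw [abs_le]
    push_cast
    constructor <;> linarith only [w1, w2]
  have kc : kC4 11000 1985 2495 680 0 = true := by decide +kernel
  have ua : kU 11000 1985 59178 = true := by decide +kernel
  have hcl : (0 : ℝ) < 125 / 1000 := by norm_num
  have hcp : (30 / 100 : ℝ) < 1 / 2 := by norm_num
  have h5 := hN.xs1.le
  refine ⟨fun x y hA => ?_, fun x y hA hx => ?_, fun x y hA hx => ?_⟩
  · have hx0 : ((1250 : ℕ) : ℝ) / 10000 ≤ x := le_trans (by norm_num) hA.x0
    have hx1 : x ≤ ((3000 : ℕ) : ℝ) / 10000 := le_trans hA.x1 (by norm_num)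
    have x0 : 0 < x := (n0 (by decide)).trans_le hx0
    rcases le_total x (((1700 : ℕ) : ℝ) / 10000) with c0 | c0
    · have h := piP ctwo_b_0_pl0 hN hA hcl hcp hx0 c0
      have g0 := gL (be := 11000) (p := 1700) (G := 67887) (by decide +kernel) x0 c0 le_rfl (by decide)
      have g1 := gL (be := 11000) (p := 1985) (G := 59177) (x := ((1700 : ℕ) : ℝ) / 10000) (by decide +kernel)
        (n0 (by decide)) (nle (by decide)) le_rfl (by decide)
      have gm := gh_mono (x := ((1985 : ℕ) : ℝ) / 10000) (n0 (by decide)) ha h5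
      unfold lin at h
      push_cast at h gm g0 g1
      linarith only [neg_abs_le (gh x - gh xs), h, gm, g0, g1]
    rcases le_total x (((1985 : ℕ) : ℝ) / 10000) with c1 | c1
    · have h := piP ctwo_b_0_pl1 hN hA hcl hcp c0 c1
      have g0 := gL (be := 11000) (p := 1985) (G := 59177) (by decide +kernel) x0 c1 le_rfl (by decide)
      have gm := gh_mono (x := ((1985 : ℕ) : ℝ) / 10000) (n0 (by decide)) ha h5
      unfold lin at h
      push_cast at h gm g0
      linarith only [neg_abs_le (gh x - gh xs), h, gm, g0]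
    rcases le_total x (((2495 : ℕ) : ℝ) / 10000) with ce | ce
    · have h := piP ctwo_b_0_pm hN hA hcl hcp c1 ce
      unfold lin at h
      push_cast at h
      linarith only [abs_nonneg (gh x - gh xs), h]
    have gm := gh_mono (y := ((2495 : ℕ) : ℝ) / 10000) hN.xs0 he (nhalf (by decide))
    have h := piP ctwo_b_0_pr0 hN hA hcl hcp ce hx1
    have g0 := gL (be := 11000) (p := 3000) (G := 42715) (x := ((2495 : ℕ) : ℝ) / 10000) (by decide +kernel)
      (n0 (by decide)) ce hx1 (by decide)
    unfold lin at h
    push_cast at h gm g0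
    linarith only [le_abs_self (gh x - gh xs), h, gm, g0]
  · have hx0 : ((1250 : ℕ) : ℝ) / 10000 ≤ x := le_trans (by norm_num) hA.x0
    have hx1 : x ≤ ((3000 : ℕ) : ℝ) / 10000 := le_trans hA.x1 (by norm_num)
    have gm := gh_mono ((n0 (by decide)).trans_le hx0) hx.le h5
    have ga := gU ua (by decide) le_rfl ha h5
    have g3 := gS4 kc (by decide) (by decide) le_rfl ha he hT
    push_cast at ga g3
    rcases le_total x (((1700 : ℕ) : ℝ) / 10000) with c0 | c0
    · have h := piD1 ctwo_b_0_db0 hN hA hcl hcp (by decide) hx0 c0 ha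
      have g0 := gU (be := 11000) (p := 1250) (G := 90304) (by decide +kernel) (by decide) hx0 c0
        (nhalf (by decide))
      have k1 := gU (be := 11000) (p := 1700) (G := 67888) (y := ((1985 : ℕ) : ℝ) / 10000) (by decide +kernel)
        (by decide) le_rfl (nle (by decide)) (nhalf (by decide))
      push_cast at h g0 k1
      unfold lin at h
      push_cast at h
      exact dn_fin5 h gm (by linarith only [he, ga, g0, k1]) (by linarith only [g3, g0, k1])
    rcases le_total x (((1985 : ℕ) : ℝ) / 10000) with c1 | c1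
    · have h := piD1 ctwo_b_0_db1 hN hA hcl hcp (by decide) c0 c1 ha
      have g0 := gU (be := 11000) (p := 1700) (G := 67888) (by decide +kernel) (by decide) c0 c1
        (nhalf (by decide))
      push_cast at h g0
      unfold lin at h
      push_cast at h
      exact dn_fin5 h gm (by linarith only [he, ga, g0]) (by linarith only [g3, g0])
    have h := piD0 ctwo_b_0_da hN hA hcl hcp (by decide) c1 (hx.le.trans he) hx.le
    have g1 := gU ua (by decide) c1 hx.le h5
    have g4 := gS4 kc (by decide) (by decide) c1 hx.le he hT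
    unfold lin at h
    push_cast at h g1 g4
    exact dn_fin5 h gm (by linarith only [he, g1]) (by linarith only [g4])
  · have hx0 : ((1250 : ℕ) : ℝ) / 10000 ≤ x := le_trans (by norm_num) hA.x0
    have hx1 : x ≤ ((3000 : ℕ) : ℝ) / 10000 := le_trans hA.x1 (by norm_num)
    have gm := gh_mono hN.xs0 hx.le (hx1.trans (nhalf (by decide)))
    rcases le_total x (((2495 : ℕ) : ℝ) / 10000) with ce | ce
    · have h := piU0 ctwo_b_0_ua hN hA hcl hcp (ha.trans hx.le) ce
      have g1 := gU ua (by decide) ha hx.le (hx1.trans (nhalf (by decide)))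
      have g3 := gS4 kc (by decide) (by decide) ha hx.le ce hT
      unfold lin at h
      push_cast at h g1 g3
      exact up_fin5 h gm (by linarith only [ha, g1]) (by linarith only [g3])
    have ga := gU (y := ((2495 : ℕ) : ℝ) / 10000) ua (by decide) ha he (nhalf (by decide))
    have g3 := gS4 kc (by decide) (by decide) ha he le_rfl hT
    push_cast at ga g3
    have h := piU1 ctwo_b_0_ub0 hN hA hcl hcp ce hx1
    have g0 := gU (be := 11000) (p := 2495) (G := 48949) (by decide +kernel) (by decide) le_rfl ce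
      (hx1.trans (nhalf (by decide)))
    unfold lin at h
    push_cast at h g0
    exact up_fin5 h gm (by linarith only [ha, ga, g0]) (by linarith only [g3, g0])

theorem stwoE_a_0 {xs s T ρ : ℝ} (hW : RWp.In ⟨1720 / 10000, 1845 / 10000, -(1120 / 10000), -(880 / 10000), 1660 / 10000, 2000 / 10000, 320 / 10000, 730 / 10000, 3925 / 10000, 3290 / 10000, 1320 / 10000, 1710 / 10000, 11 / 10, 391 / 1000⟩ xs s T ρ)
    (ha : ((1720 : ℕ) : ℝ) / 10000 ≤ xs) (he : xs ≤ ((1845 : ℕ) : ℝ) / 10000) :
    RampOK (65 / 100) (14 / 100) 1 4 xs (1 / 2 - s) T ρ (125 / 1000) (30 / 100) := by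
  have hN : Nm 3845 3290 5400 10 11 280 1660 1320 1710 460 700 320 730 xs s T ρ := by
    obtain ⟨-, -, w1, w2, w3, w4, w5, w6, w7, w8, w9, w10, w11, w12⟩ := hW
    dsimp only at w1 w2 w3 w4 w6 w7 w8 w9 w10 w11 w12
    push_cast at ha he
    exact ⟨by linarith only [ha, w5, w7], by linarith only [he, w5, w7], by push_cast; linarith only [w3], by norm_num, by push_cast; linarith only [he, w4],
      by norm_num, by push_cast; linarith only [w9], by norm_num, by push_cast; linarith only [he, w4, w5, w7, w11], by norm_num,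
      by push_cast; linarith only [he, w3, w5, w7], by push_cast; linarith only [ha, w4], by norm_num, by push_cast; linarith only [w1],
      by push_cast; linarith only [w2], by push_cast; linarith only [w6], by push_cast; linarith only [w7], w5,
      fun _ => by push_cast; linarith only [w10], by push_cast; linarith only [w11]⟩
  have hT : |T| ≤ ((1120 : ℕ) : ℝ) / 10000 := by
    have w1 := hW.t0
    have w2 := hW.t1
    dsimp only at w1 w2
    rw [abs_le]
    push_cast
    constructor <;> linarith only [w1, w2]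
  have kc : kC4 10000 1720 1845 1120 0 = true := by decide +kernel
  have ua : kU 10000 1720 61069 = true := by decide +kernel
  have hcl : (0 : ℝ) < 125 / 1000 := by norm_num
  have hcp : (30 / 100 : ℝ) < 1 / 2 := by norm_num
  have h5 := hN.xs1.le
  refine ⟨fun x y hA => ?_, fun x y hA hx => ?_, fun x y hA hx => ?_⟩
  · have hx0 : ((1250 : ℕ) : ℝ) / 10000 ≤ x := le_trans (by norm_num) hA.x0
    have hx1 : x ≤ ((3000 : ℕ) : ℝ) / 10000 := le_trans hA.x1 (by norm_num)
    have x0 : 0 < x := (n0 (by decide)).trans_le hx0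
    rcases le_total x (((1720 : ℕ) : ℝ) / 10000) with c0 | c0
    · have h := piP ctwoE_a_0_pl0 hN hA hcl hcp hx0 c0
      have g0 := gL (be := 10000) (p := 1720) (G := 61068) (by decide +kernel) x0 c0 le_rfl (by decide)
      have gm := gh_mono (x := ((1720 : ℕ) : ℝ) / 10000) (n0 (by decide)) ha h5
      unfold lin at h
      push_cast at h gm g0
      linarith only [neg_abs_le (gh x - gh xs), h, gm, g0]
    rcases le_total x (((1845 : ℕ) : ℝ) / 10000) with ce | ce
    · have h := piP ctwoE_a_0_pm hN hA hcl hcp c0 ce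
      unfold lin at h
      push_cast at h
      linarith only [abs_nonneg (gh x - gh xs), h]
    have gm := gh_mono (y := ((1845 : ℕ) : ℝ) / 10000) hN.xs0 he (nhalf (by decide))
    have h := piP ctwoE_a_0_pr0 hN hA hcl hcp ce hx1
    have g0 := gL (be := 10000) (p := 3000) (G := 38832) (x := ((1845 : ℕ) : ℝ) / 10000) (by decide +kernel)
      (n0 (by decide)) ce hx1 (by decide)
    unfold lin at h
    push_cast at h gm g0
    linarith only [le_abs_self (gh x - gh xs), h, gm, g0]
  · have hx0 : ((1250 : ℕ) : ℝ) / 10000 ≤ x := le_trans (by norm_num) hA.x0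
    have hx1 : x ≤ ((3000 : ℕ) : ℝ) / 10000 := le_trans hA.x1 (by norm_num)
    have gm := gh_mono ((n0 (by decide)).trans_le hx0) hx.le h5
    have ga := gU ua (by decide) le_rfl ha h5
    have g3 := gS4 kc (by decide) (by decide) le_rfl ha he hT
    push_cast at ga g3
    rcases le_total x (((1400 : ℕ) : ℝ) / 10000) with c0 | c0
    · have h := piD1 ctwoE_a_0_db0 hN hA hcl hcp (by decide) hx0 c0 ha
      have g0 := gU (be := 10000) (p := 1250) (G := 82094) (by decide +kernel) (by decide) hx0 c0
        (nhalf (by decide))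
      have k1 := gU (be := 10000) (p := 1400) (G := 73785) (y := ((1720 : ℕ) : ℝ) / 10000) (by decide +kernel)
        (by decide) le_rfl (nle (by decide)) (nhalf (by decide))
      push_cast at h g0 k1
      unfold lin at h
      push_cast at h
      exact dn_fin5 h gm (by linarith only [he, ga, g0, k1]) (by linarith only [g3, g0, k1])
    rcases le_total x (((1720 : ℕ) : ℝ) / 10000) with c1 | c1
    · have h := piD1 ctwoE_a_0_db1 hN hA hcl hcp (by decide) c0 c1 ha
      have g0 := gU (be := 10000) (p := 1400) (G := 73785) (by decide +kernel) (by decide) c0 c1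
        (nhalf (by decide))
      push_cast at h g0
      unfold lin at h
      push_cast at h
      exact dn_fin5 h gm (by linarith only [he, ga, g0]) (by linarith only [g3, g0])
    have h := piD0 ctwoE_a_0_da hN hA hcl hcp (by decide) c1 (hx.le.trans he) hx.le
    have g1 := gU ua (by decide) c1 hx.le h5
    have g4 := gS4 kc (by decide) (by decide) c1 hx.le he hT
    unfold lin at h
    push_cast at h g1 g4
    exact dn_fin5 h gm (by linarith only [he, g1]) (by linarith only [g4])
  · have hx0 : ((1250 : ℕ) : ℝ) / 10000 ≤ x := le_trans (by norm_num) hA.x0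
    have hx1 : x ≤ ((3000 : ℕ) : ℝ) / 10000 := le_trans hA.x1 (by norm_num)
    have gm := gh_mono hN.xs0 hx.le (hx1.trans (nhalf (by decide)))
    rcases le_total x (((1845 : ℕ) : ℝ) / 10000) with ce | ce
    · have h := piU0 ctwoE_a_0_ua hN hA hcl hcp (ha.trans hx.le) ce
      have g1 := gU ua (by decide) ha hx.le (hx1.trans (nhalf (by decide)))
      have g3 := gS4 kc (by decide) (by decide) ha hx.le ce hT
      unfold lin at h
      push_cast at h g1 g3
      exact up_fin5 h gm (by linarith only [ha, g1]) (by linarith only [g3])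
    have ga := gU (y := ((1845 : ℕ) : ℝ) / 10000) ua (by decide) ha he (nhalf (by decide))
    have g3 := gS4 kc (by decide) (by decide) ha he le_rfl hT
    push_cast at ga g3
    have h := piU1 ctwoE_a_0_ub0 hN hA hcl hcp ce hx1
    have g0 := gU (be := 10000) (p := 1845) (G := 57359) (by decide +kernel) (by decide) le_rfl ce
      (hx1.trans (nhalf (by decide)))
    unfold lin at h
    push_cast at h g0
    exact up_fin5 h gm (by linarith only [ha, ga, g0]) (by linarith only [g3, g0])

theorem stwoE_b_0 {xs s T ρ : ℝ} (hW : RWp.In ⟨1720 / 10000, 1845 / 10000, -(1120 / 10000), -(880 / 10000), 2000 / 10000, 2080 / 10000, 320 / 10000, 730 / 10000, 3925 / 10000, 3290 / 10000, 1320 / 10000, 1710 / 10000, 11 / 10, 391 / 1000⟩ xs s T ρ)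
    (ha : ((1720 : ℕ) : ℝ) / 10000 ≤ xs) (he : xs ≤ ((1845 : ℕ) : ℝ) / 10000) :
    RampOK (65 / 100) (14 / 100) (11 / 10) 4 xs (1 / 2 - s) T ρ (125 / 1000) (30 / 100) := by
  have hN : Nm 3925 3290 5400 10 11 360 2000 1320 1710 460 700 430 730 xs s T ρ := by
    obtain ⟨-, -, w1, w2, w3, w4, w5, w6, w7, w8, w9, w10, w11, w12⟩ := hW
    dsimp only at w1 w2 w3 w4 w6 w7 w8 w9 w10 w11 w12
    push_cast at ha he
    exact ⟨by linarith only [ha, w5, w7], by linarith only [he, w5, w7], by push_cast; linarith only [w3], by norm_num, by push_cast; linarith only [he, w4],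
      by norm_num, by push_cast; linarith only [w9], by norm_num, by push_cast; linarith only [he, w5, w7, w12], by norm_num,
      by push_cast; linarith only [he, w3, w5, w7], by push_cast; linarith only [ha, w4], by norm_num, by push_cast; linarith only [w1],
      by push_cast; linarith only [w2], by push_cast; linarith only [ha, w3, w9], by push_cast; linarith only [w7], w5,
      fun _ => by push_cast; linarith only [w10], by push_cast; linarith only [w11]⟩
  have hT : |T| ≤ ((1120 : ℕ) : ℝ) / 10000 := by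
    have w1 := hW.t0
    have w2 := hW.t1
    dsimp only at w1 w2
    rw [abs_le]
    push_cast
    constructor <;> linarith only [w1, w2]
  have kc : kC4 11000 1720 1845 1120 0 = true := by decide +kernel
  have ua : kU 11000 1720 67176 = true := by decide +kernel
  have hcl : (0 : ℝ) < 125 / 1000 := by norm_num
  have hcp : (30 / 100 : ℝ) < 1 / 2 := by norm_num
  have h5 := hN.xs1.le
  refine ⟨fun x y hA => ?_, fun x y hA hx => ?_, fun x y hA hx => ?_⟩
  · have hx0 : ((1250 : ℕ) : ℝ) / 10000 ≤ x := le_trans (by norm_num) hA.x0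
    have hx1 : x ≤ ((3000 : ℕ) : ℝ) / 10000 := le_trans hA.x1 (by norm_num)
    have x0 : 0 < x := (n0 (by decide)).trans_le hx0
    rcases le_total x (((1720 : ℕ) : ℝ) / 10000) with c0 | c0
    · have h := piP ctwoE_b_0_pl0 hN hA hcl hcp hx0 c0
      have g0 := gL (be := 11000) (p := 1720) (G := 67175) (by decide +kernel) x0 c0 le_rfl (by decide)
      have gm := gh_mono (x := ((1720 : ℕ) : ℝ) / 10000) (n0 (by decide)) ha h5
      unfold lin at h
      push_cast at h gm g0
      linarith only [neg_abs_le (gh x - gh xs), h, gm, g0]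
    rcases le_total x (((1845 : ℕ) : ℝ) / 10000) with ce | ce
    · have h := piP ctwoE_b_0_pm hN hA hcl hcp c0 ce
      unfold lin at h
      push_cast at h
      linarith only [abs_nonneg (gh x - gh xs), h]
    have gm := gh_mono (y := ((1845 : ℕ) : ℝ) / 10000) hN.xs0 he (nhalf (by decide))
    have h := piP ctwoE_b_0_pr0 hN hA hcl hcp ce hx1
    have g0 := gL (be := 11000) (p := 3000) (G := 42715) (x := ((1845 : ℕ) : ℝ) / 10000) (by decide +kernel)
      (n0 (by decide)) ce hx1 (by decide)
    unfold lin at h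
    push_cast at h gm g0
    linarith only [le_abs_self (gh x - gh xs), h, gm, g0]
  · have hx0 : ((1250 : ℕ) : ℝ) / 10000 ≤ x := le_trans (by norm_num) hA.x0
    have hx1 : x ≤ ((3000 : ℕ) : ℝ) / 10000 := le_trans hA.x1 (by norm_num)
    have gm := gh_mono ((n0 (by decide)).trans_le hx0) hx.le h5
    have ga := gU ua (by decide) le_rfl ha h5
    have g3 := gS4 kc (by decide) (by decide) le_rfl ha he hT
    push_cast at ga g3
    rcases le_total x (((1500 : ℕ) : ℝ) / 10000) with c0 | c0
    · have h := piD1 ctwoE_b_0_db0 hN hA hcl hcp (by decide) hx0 c0 ha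
      have g0 := gU (be := 11000) (p := 1250) (G := 90304) (by decide +kernel) (by decide) hx0 c0
        (nhalf (by decide))
      have k1 := gU (be := 11000) (p := 1500) (G := 76120) (y := ((1720 : ℕ) : ℝ) / 10000) (by decide +kernel)
        (by decide) le_rfl (nle (by decide)) (nhalf (by decide))
      push_cast at h g0 k1
      unfold lin at h
      push_cast at h
      exact dn_fin5 h gm (by linarith only [he, ga, g0, k1]) (by linarith only [g3, g0, k1])
    rcases le_total x (((1720 : ℕ) : ℝ) / 10000) with c1 | c1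
    · have h := piD1 ctwoE_b_0_db1 hN hA hcl hcp (by decide) c0 c1 ha
      have g0 := gU (be := 11000) (p := 1500) (G := 76120) (by decide +kernel) (by decide) c0 c1
        (nhalf (by decide))
      push_cast at h g0
      unfold lin at h
      push_cast at h
      exact dn_fin5 h gm (by linarith only [he, ga, g0]) (by linarith only [g3, g0])
    have h := piD0 ctwoE_b_0_da hN hA hcl hcp (by decide) c1 (hx.le.trans he) hx.le
    have g1 := gU ua (by decide) c1 hx.le h5
    have g4 := gS4 kc (by decide) (by decide) c1 hx.le he hT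
    unfold lin at h
    push_cast at h g1 g4
    exact dn_fin5 h gm (by linarith only [he, g1]) (by linarith only [g4])
  · have hx0 : ((1250 : ℕ) : ℝ) / 10000 ≤ x := le_trans (by norm_num) hA.x0
    have hx1 : x ≤ ((3000 : ℕ) : ℝ) / 10000 := le_trans hA.x1 (by norm_num)
    have gm := gh_mono hN.xs0 hx.le (hx1.trans (nhalf (by decide)))
    rcases le_total x (((1845 : ℕ) : ℝ) / 10000) with ce | ce
    · have h := piU0 ctwoE_b_0_ua hN hA hcl hcp (ha.trans hx.le) ce
      have g1 := gU ua (by decide) ha hx.le (hx1.trans (nhalf (by decide)))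
      have g3 := gS4 kc (by decide) (by decide) ha hx.le ce hT
      unfold lin at h
      push_cast at h g1 g3
      exact up_fin5 h gm (by linarith only [ha, g1]) (by linarith only [g3])
    have ga := gU (y := ((1845 : ℕ) : ℝ) / 10000) ua (by decide) ha he (nhalf (by decide))
    have g3 := gS4 kc (by decide) (by decide) ha he le_rfl hT
    push_cast at ga g3
    have h := piU1 ctwoE_b_0_ub0 hN hA hcl hcp ce hx1
    have g0 := gU (be := 11000) (p := 1845) (G := 63095) (by decide +kernel) (by decide) le_rfl ce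
      (hx1.trans (nhalf (by decide)))
    unfold lin at h
    push_cast at h g0
    exact up_fin5 h gm (by linarith only [ha, ga, g0]) (by linarith only [g3, g0])

end RQ4

namespace RC

theorem i4_two_a : RowI
    ⟨1985 / 10000, 2520 / 10000, -(680 / 10000), -(100 / 10000), 1610 / 10000, 2000 / 10000, 420 / 10000, 910 / 10000, 4495 / 10000, 3750 / 10000, 730 / 10000, 1360 / 10000, 13 / 10, 398 / 1000⟩
    4 (65 / 100) (14 / 100) 1 (125 / 1000) (30 / 100) := by
  intro xs s T ρ hW
  have h0 : ((1985 : ℕ) : ℝ) / 10000 ≤ xs := le_trans (by norm_num) hW.x0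
  have h1 : xs ≤ ((2520 : ℕ) : ℝ) / 10000 := by
    obtain ⟨-, w0, -, -, w3, -, -, -, w7, w8, w9, -, -, -⟩ := hW
    dsimp only at w0 w3 w7 w8 w9
    push_cast
    linarith only [w0]
  exact RQ4.stwo_a_0 hW h0 h1

theorem i4_two_b : RowI
    ⟨1985 / 10000, 2520 / 10000, -(680 / 10000), -(100 / 10000), 2000 / 10000, 2110 / 10000, 420 / 10000, 910 / 10000, 4495 / 10000, 3750 / 10000, 730 / 10000, 1360 / 10000, 13 / 10, 398 / 1000⟩
    4 (65 / 100) (14 / 100) (11 / 10) (125 / 1000) (30 / 100) := by
  intro xs s T ρ hW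
  have h0 : ((1985 : ℕ) : ℝ) / 10000 ≤ xs := le_trans (by norm_num) hW.x0
  have h1 : xs ≤ ((2495 : ℕ) : ℝ) / 10000 := by
    obtain ⟨-, w0, -, -, w3, -, -, -, w7, w8, w9, -, -, -⟩ := hW
    dsimp only at w0 w3 w7 w8 w9
    push_cast
    linarith only [w3, w8]
  exact RQ4.stwo_b_0 hW h0 h1

theorem i4_twoE_a : RowI
    ⟨1720 / 10000, 1845 / 10000, -(1120 / 10000), -(880 / 10000), 1660 / 10000, 2000 / 10000, 320 / 10000, 730 / 10000, 3925 / 10000, 3290 / 10000, 1320 / 10000, 1710 / 10000, 11 / 10, 391 / 1000⟩
    4 (65 / 100) (14 / 100) 1 (125 / 1000) (30 / 100) := by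
  intro xs s T ρ hW
  have h0 : ((1720 : ℕ) : ℝ) / 10000 ≤ xs := le_trans (by norm_num) hW.x0
  have h1 : xs ≤ ((1845 : ℕ) : ℝ) / 10000 := by
    obtain ⟨-, w0, -, -, w3, -, -, -, w7, w8, w9, -, -, -⟩ := hW
    dsimp only at w0 w3 w7 w8 w9
    push_cast
    linarith only [w0]
  exact RQ4.stwoE_a_0 hW h0 h1

theorem i4_twoE_b : RowI
    ⟨1720 / 10000, 1845 / 10000, -(1120 / 10000), -(880 / 10000), 2000 / 10000, 2080 / 10000, 320 / 10000, 730 / 10000, 3925 / 10000, 3290 / 10000, 1320 / 10000, 1710 / 10000, 11 / 10, 391 / 1000⟩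
    4 (65 / 100) (14 / 100) (11 / 10) (125 / 1000) (30 / 100) := by
  intro xs s T ρ hW
  have h0 : ((1720 : ℕ) : ℝ) / 10000 ≤ xs := le_trans (by norm_num) hW.x0
  have h1 : xs ≤ ((1845 : ℕ) : ℝ) / 10000 := by
    obtain ⟨-, w0, -, -, w3, -, -, -, w7, w8, w9, -, -, -⟩ := hW
    dsimp only at w0 w3 w7 w8 w9
    push_cast
    linarith only [w0]
  exact RQ4.stwoE_b_0 hW h0 h1

end RC

end Pool.Agent.Work.MP_b30479_gtS.G2

end
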