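import Pool.Agent.Work.MP_b30479_gt.TBS.G2.RZ1

section

/-!
# Rings with the ring variable on the ramp, `b = 4`: certificates, rr_a, rr_b
-/

set_option deprecated.oldSectionVars true

namespace Pool.Agent.Work.MP_b30479_gtS.G2

open NumIs

namespace RQ4

theorem crr_a_0_pl0 : okB 10000
    (tP 4 1 65 100 4120 3560 4802 10 22 13131 0 0 85340 370 980)
    0 1580 0 0 40 1000 1200 1380 1965 1250 2500 490 1045
    0x1d3a03e807a740603a74060fa740607a74000ba740607a74000ba02e9d017403d0101e8701023810102e9d007402b017403f3a01e8041ac05d010405d3a035808e023808083 = true := by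
  decide +kernel

theorem crr_a_0_pl1 : okB 10000
    (tP 4 1 65 100 4120 3560 4802 10 22 11744 0 0 73784 370 980)
    0 1580 0 0 40 1200 1400 1380 1965 1250 2500 490 1045
    0x1d3a03e9d01f403d3a030603a7401d0181e9d0181e9d0182e9d0002e9d3a0101d00f405f3a01e805602060fa740608e1c00b3a020608e040610102e9d01f4e80c1f4e80c174e80c174580ce020470101 = true := by
  decide +kernel

theorem crr_a_0_pl2 : okB 10000
    (tP 4 1 65 100 4120 3560 4802 10 22 10055 0 0 61715 370 980)
    0 1580 0 0 40 1400 1700 1380 1965 1250 2500 490 1045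
    0x1d3a00e9d00740203a02e9d3a740200074040fa7407d0174e80fa740007a02000fa1c07d160301d3a00380c102387001c08100020608e040610102e9d01f405d016405d3a00e80ba2c0408e0207d3a03e9d0183e9d0182e8701820270101 = true := by
  decide +kernel

theorem crr_a_0_pl3 : okB 10000
    (tP 4 1 65 100 4120 3560 4802 10 22 9199 0 0 56680 370 980)
    0 1580 0 0 40 1700 1870 1380 1965 1250 2500 490 1045
    0x74e803a02e9d0181e9901823808e04040ba2c0670174e80c09c04702020410103e9d01f4e80c174380c174e80fa740607a7406080f4380ce020470101 = true := by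
  decide +kernel

theorem crr_a_0_pm : okB 10000
    (tP 4 1 65 100 4120 3560 4802 10 22 0 1400 0 0 370 980)
    0 1580 0 0 40 1870 2120 1380 1965 1250 2500 490 1045
    0x74380fa740600e0338701823810182e9d0074e808064380c1e4380c11c0407a740790e0307d0e0305d3a03e9d0183e8701820330e033808101381019c0270102 = true := by
  decide +kernel

theorem crr_a_0_pr0 : okB 10000
    (tP 4 1 65 100 4120 3560 4802 10 22 0 10279 41881 0 370 980)
    0 1580 0 0 40 2120 2700 1380 1965 1250 2500 490 1045
    0x70e4c380c000380e64c0670e000470181387019c040a64c0732603027261c06001b4987018004d261c06701000404e1c00d009c3800102 = true := by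
  decide +kernel

theorem crr_a_0_db0 : okB 10000
    (tD 1 4 1 65 100 4120 3560 4802 10 22 1670 1870 0 17828 101665 0 0 16411 101665 0 370 980)
    0 1580 0 0 40 1000 1500 1380 1965 1250 2500 490 1045
    0x6dda03683da94182da941a54a03683040b6ed01b41ed4a0c0ed4a0f683040129c04952820094e0404700a50208184c800202080b68405b720404080004a702023804101060b6ed01b41edda0368301b76804a9400305b76824a0ce1c000b6a504941edaa092830200101 = true := by
  decide +kernel

theorem crr_a_0_db1 : okB 10000
    (tD 1 4 1 65 100 4120 3560 4802 10 22 1670 1870 0 12958 69200 0 0 11541 69200 0 370 980)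
    0 1580 0 0 40 1500 1870 1380 1965 1250 2500 490 1045
    0x1b7682da076ed05b4080dbb416d0200e6d380806daa08082387009c3808102da9406d02712800494e040608104080816dda0b68038940023808083 = true := by
  decide +kernel

theorem crr_a_0_da : okB 10000
    (tD 0 4 1 65 100 4120 3560 4802 10 22 1670 0 0 10617 56681 0 1400 0 0 0 370 980)
    0 1580 0 0 40 1870 2120 1380 1965 1250 2500 490 1045
    0x6dda03681380ce250608e040608e040694102dbb416d4a0ce020670e010470101 = true := by
  decide +kernel

theorem crr_a_0_ua : okB 10000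
    (tU 0 4 1 65 100 4120 3560 4802 10 22 450 0 11999 0 0 56681 1400 0 0 0 370 980)
    0 1580 0 0 40 1870 2120 1380 1965 1250 2500 490 1045
    0x74e81c8741013a0baf5039411d0404e850474e813a14103020c2850470082 = true := by
  decide +kernel

theorem crr_a_0_ub0 : okB 10000
    (tU 1 4 1 65 100 4120 3560 4802 10 22 450 2120 10762 0 0 50847 12179 0 0 50847 370 980)
    0 1580 0 0 40 2120 2700 1380 1965 1250 2500 490 1045
    0x74e9d0004e833a7019c6804102993009d3a041b43a0011d3a05a1c000818168701b40270e003808102 = true := by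
  decide +kernel

theorem crr_a_1_pl0 : okB 10000
    (tP 4 1 65 100 4370 3560 5052 10 22 15309 0 0 92744 370 980)
    0 1580 0 0 40 1000 1100 1380 1965 1250 2500 490 1045
    0x74e80fa7407d0074e9d3b03060fa00e807a00ec0c1f405d0103e9d3a030607a740607a740207b2e07d00ae060fa7403d8182e8b0182e9d01f65c0c18158b01f4040b2040470082 = true := by
  decide +kernel

theorem crr_a_1_pl1 : okB 10000
    (tP 4 1 65 100 4370 3560 5052 10 22 14494 0 0 85340 370 980)
    0 1580 0 0 40 1100 1200 1380 1965 1250 2500 490 1045
    0x74e80fa74e8001f4e9d3b03000fa01e9d3a7401d81830603a01e807b03e808183e9d0182e80ba74e80c1f40407a02e9d01f40407a02e9d01ac0404e02e8b017402b01013810102ecb017403d81ae06b017404101765c0d6020808083 = true := by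
  decide +kernel

theorem crr_a_1_pl2 : okB 10000
    (tP 4 1 65 100 4370 3560 5052 10 22 13414 0 0 76342 370 980)
    0 1580 0 0 40 1200 1350 1380 1965 1250 2500 490 1045
    0x1d3a03e9d01f4e80fa74e80c07607d0083000fa74e80c181e9d0182e9d0181e9d0182e80ba7407d0101e808e02e9d00f405d01013810102edd00ac05d81f603d81f4059810405d17035808e020808083 = true := by
  decide +kernel

theorem crr_a_1_pl3 : okB 10000
    (tP 4 1 65 100 4370 3560 5052 10 22 12450 0 0 69199 370 980)
    0 1580 0 0 40 1350 1500 1380 1965 1250 2500 490 1045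
    0x74e80fa74e80c074020fa02e80ba7407d0101e9d00f40404e640208e04040bb2c05d80f603d81f6059810405d3b03e808e020808083 = true := by
  decide +kernel

theorem crr_a_1_pl4 : okB 10000
    (tP 4 1 65 100 4370 3560 5052 10 22 11327 0 0 61715 370 980)
    0 1580 0 0 40 1500 1700 1380 1965 1250 2500 490 1045
    0x74e80fa02ecb8183e9d0182e870182e9d01f65c0c1f43c0c1013870202060821c0210102e9d01f4ec0c1f4cc0c174380ce020470101 = true := by
  decide +kernel

theorem crr_a_1_pl5 : okB 10000
    (tP 4 1 65 100 4370 3560 5052 10 22 10337 0 0 55891 370 980)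
    0 1580 0 0 40 1700 1900 1380 1965 1250 2500 490 1045
    0x74e803a02e8b011e060fa1c0470182e9d01763c0c1f4380c1013870202060821c0210102e9d01f4e80330307d0e74020c174380ce020470101 = true := by
  decide +kernel

theorem crr_a_1_pl6 : okB 10000
    (tP 4 1 65 100 4370 3560 5052 10 22 9379 0 0 50846 370 980)
    0 1580 0 0 40 1900 2120 1380 1965 1250 2500 490 1045
    0x74e80fa740403a740604e64019809e060ce1c019009c0608e043804182e9981f4cc0c074380c174e9d0103e9d01820330e030404e1c0270102 = true := by
  decide +kernel

theorem crr_a_1_pm : okB 10000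
    (tP 4 1 65 100 4370 3560 5052 10 22 0 1400 0 0 370 980)
    0 1580 0 0 40 2120 2370 1380 1965 1250 2500 490 1045
    0x133a003990003993018139300823870f01020ce1c0670102e930174e80404c980014e380e71c04041b498701800404e1c04d0082 = true := by
  decide +kernel

theorem crr_a_1_pr0 : okB 10000
    (tP 4 1 65 100 4370 3560 5052 10 22 0 11326 41881 0 370 980)
    0 1580 0 0 40 2370 2700 1380 1965 1250 2500 490 1045
    0x346805b03993009e07326019c0c08068d00b60609a1c3801a010608e1c04701343808082 = true := by
  decide +kernel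

theorem crr_a_1_db0 : okB 10000
    (tD 1 4 1 65 100 4370 3560 5052 10 22 1670 2120 0 18844 101665 0 0 17573 101665 0 370 980)
    0 1580 0 0 40 1000 1300 1380 1965 1250 2500 490 1045
    0x1b52824a94e1c080c1020494082dbb41254a081014bb416dda0020d00341024a3418104952824a08083 = true := by
  decide +kernel

theorem crr_a_1_db1 : okB 10000
    (tD 1 4 1 65 100 4370 3560 5052 10 22 1670 2120 0 15911 79104 0 0 14640 79104 0 370 980)
    0 1580 0 0 40 1300 1700 1380 1965 1250 2500 490 1045
    0x6dda092a5000929c0810002040b6ed05b5282069528204052a5f80d2814a0411e38083020834004040c16d4a012824a08083 = true := by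
  decide +kernel

theorem crr_a_1_db2 : okB 10000
    (tD 1 4 1 65 100 4370 3560 5052 10 22 1670 2120 0 12955 61716 0 0 11684 61716 0 370 980)
    0 1580 0 0 40 1700 2120 1380 1965 1250 2500 490 1045
    0x1b76814a0f6a50470182da9416d0294180389401c0808e010608e04080019c040b6ed4a0c1d54a0c1554a0d2830470e023808101 = true := by
  decide +kernel

theorem crr_a_1_da : okB 10000
    (tD 0 4 1 65 100 4370 3560 5052 10 22 1670 0 0 10651 50847 0 1400 0 0 0 370 980)
    0 1580 0 0 40 2120 2370 1380 1965 1250 2500 490 1045
    0x156a833808f03ab552820604e1c029528206092a504f4082 = true := by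
  decide +kernel

theorem crr_a_1_ua : okB 10000
    (tU 0 4 1 65 100 4370 3560 5052 10 22 700 0 12179 0 0 50847 1400 0 0 0 370 980)
    0 1580 0 0 40 2120 2370 1380 1965 1250 2500 490 1045
    0x130e823a740833808e02993009c04d41013e1c19f3e1c1010278103 = true := by
  decide +kernel

theorem crr_a_1_ub0 : okB 10000
    (tU 1 4 1 65 100 4370 3560 5052 10 22 700 2370 11116 0 0 46361 12387 0 0 46361 370 980)
    0 1580 0 0 40 2370 2700 1380 1965 1250 2500 490 1045
    0x4c980cf8368d01cc980c00168d00b60609a1c3805a010608e1c04701343808082 = true := by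
  decide +kernel

theorem crr_b_0_pl0 : okB 10000
    (tP 4 1 65 100 4250 3560 4802 10 22 15681 0 0 102018 370 980)
    0 1580 0 0 40 1000 1100 1380 1965 1250 2500 490 1045
    0x1d3a03e9d0183e9d0181e9d0001e807a7407d00f403d81f4020fa7407d3a01020ba2c07d0082e8b01f4040b2040470082 = true := by
  decide +kernel

theorem crr_b_0_pl1 : okB 10000
    (tP 4 1 65 100 4250 3560 4802 10 22 14785 0 0 93874 370 980)
    0 1580 0 0 40 1100 1200 1380 1965 1250 2500 490 1045
    0x74e80fa74060fa740607a740607a02e80ba740607a02380ba7403d01740404e04040ba7c07d00f405d00ac05d81f4e80c0f4e80c0ac580417458041043804103 = true := by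
  decide +kernel

theorem crr_b_0_pl2 : okB 10000
    (tP 4 1 65 100 4250 3560 4802 10 22 13962 0 0 87014 370 980)
    0 1580 0 0 40 1200 1300 1380 1965 1250 2500 490 1045
    0x74e80fa01e80ba01e9d01f4e80c1f405d0083e80ba7401d01f403d012c05d8183e9d01f4e80c1f4e80c101e8b0182e9d01f405d3a03580818139d00f4380418238102010610102 = true := by
  decide +kernel

theorem crr_b_0_pl3 : okB 10000
    (tP 4 1 65 100 4250 3560 4802 10 22 13201 0 0 81162 370 980)
    0 1580 0 0 40 1300 1400 1380 1965 1250 2500 490 1045
    0x74e80fa02e807a01e80ba7407d0174e8000f403d00f4040fa02380ba7407d01740404e04040ba7407d00f404b017607d3a03e8080f405d3a03e8080e438041040804103 = true := by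
  decide +kernel

theorem crr_b_0_pl4 : okB 10000
    (tP 4 1 65 100 4250 3560 4802 10 22 12495 0 0 76119 370 980)
    0 1580 0 0 40 1400 1500 1380 1965 1250 2500 490 1045
    0x74e807a74060fa740207a74020ba74000ba02380ba7407d017458081013810102e9d017402b017607d3a03e8080f405d3a03e8080e638041040804103 = true := by
  decide +kernel

theorem crr_b_0_pl5 : okB 10000
    (tP 4 1 65 100 4250 3560 4802 10 22 11837 0 0 71732 370 980)
    0 1580 0 0 40 1500 1600 1380 1965 1250 2500 490 1045
    0x1d3a03e80ba02e808e02e9d01f40470101e9d01f405d16020404e04040ba2c05d00f607d3a0303d012c080810405d3a03e808e020808083 = true := by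
  decide +kernel

theorem crr_b_0_pl6 : okB 10000
    (tP 4 1 65 100 4250 3560 4802 10 22 11222 0 0 67887 370 980)
    0 1580 0 0 40 1600 1700 1380 1965 1250 2500 490 1045
    0x74e80fa2e060fa74060ba1c060ba7407d3a0307d0e030404e1c08081820870084040ba7407d3a0303d3a0305d3a2c060c174380ce020470101 = true := by
  decide +kernel

theorem crr_b_0_pl7 : okB 10000
    (tP 4 1 65 100 4250 3560 4802 10 22 10645 0 0 64493 370 980)
    0 1580 0 0 40 1700 1800 1380 1965 1250 2500 490 1045
    0x1d3a03e8b8183e9d0182e870182e9d01f4e80c1f4380c1013870202060821c0210102e9d01f4e80c0f4e9d000305d0e74020c174380ce020470101 = true := by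
  decide +kernel

theorem crr_b_0_pl8 : okB 10000
    (tP 4 1 65 100 4250 3560 4802 10 22 10259 0 0 62348 370 980)
    0 1580 0 0 40 1800 1870 1380 1965 1250 2500 490 1045
    0x74e80f202e9d01740404e02e9d00f405d017438081013870102e9d009c0470104047b301080820207d3a01e80b366020ce023808083 = true := by
  decide +kernel

theorem crr_b_0_pm : okB 10000
    (tP 4 1 65 100 4250 3560 4802 10 22 0 1400 0 0 370 980)
    0 1580 0 0 40 1870 2120 1380 1965 1250 2500 490 1045
    0x74e803a740603a740604e74019809e060f27400701f4e800e030208e1c03d0e020270182381019c020ba7407d3a0307d330305d0e0305d3a03e998183e9901820330e033808101381019c0270102 = true := by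
  decide +kernel

theorem crr_b_0_pr0 : okB 10000
    (tP 4 1 65 100 4250 3560 4802 10 22 0 11167 46069 0 370 980)
    0 1580 0 0 40 2120 2700 1380 1965 1250 2500 490 1045
    0x349870180993818168d00826870e010608e1c027010298701cc980c09c380411c380419c3808e020532601e9d00cc040274c0270e01060da4c380c0020270e026804100 = true := by
  decide +kernel

theorem crr_b_0_db0 : okB 10000
    (tD 1 4 1 65 100 4250 3560 4802 10 22 2000 1870 0 19332 111831 0 0 17773 111831 0 370 980)
    0 1580 0 0 40 1000 1300 1380 1965 1250 2500 490 1045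
    0x1b7682da94103dbb406d04052a5da040a54a04e04047009c0294082040b6ed05b76824a0426d080801c1a0c08205b52824a08083 = true := by
  decide +kernel

theorem crr_b_0_db1 : okB 10000
    (tD 1 4 1 65 100 4250 3560 4802 10 22 2000 1870 0 16106 87015 0 0 14547 87015 0 370 980)
    0 1580 0 0 40 1300 1700 1380 1965 1250 2500 490 1045
    0x1b7680da0f6ed00941824bb40a50697e034a052810609284da1010038041840808e040604102dbb41edda0c06dda012830496a813808e25000c101 = true := by
  decide +kernel

theorem crr_b_0_db2 : okB 10000
    (tD 1 4 1 65 100 4250 3560 4802 10 22 2000 1870 0 12854 67888 0 0 11296 67888 0 370 980)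
    0 1580 0 0 40 1700 1870 1380 1965 1250 2500 490 1045
    0x1b76823870082db5410138701024a9411c0808104080016d4a08e023808083 = true := by
  decide +kernel

theorem crr_b_0_da : okB 10000
    (tD 0 4 1 65 100 4250 3560 4802 10 22 2000 0 0 11818 62349 0 1400 0 0 0 370 980)
    0 1580 0 0 40 1870 2120 1380 1965 1250 2500 490 1045
    0x6dda0b6a5040ce024a9402505f12814a04183dbb41ed4a0c1554a0c1014a1019c0270102 = true := by
  decide +kernel

theorem crr_b_0_ua : okB 10000
    (tU 0 4 1 65 100 4250 3560 4802 10 22 260 0 13059 0 0 62349 1400 0 0 0 370 980)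
    0 1580 0 0 40 1870 2120 1380 1965 1250 2500 490 1045
    0x74e80fa01c9d40f50208e9c03d0f83020ce9d02741f4380c0823a740853a041820a1409d0470082 = true := by
  decide +kernel

theorem crr_b_0_ub0 : okB 10000
    (tU 1 4 1 65 100 4250 3560 4802 10 22 260 2120 11698 0 0 55932 13257 0 0 55932 370 980)
    0 1580 0 0 40 2120 2700 1380 1965 1250 2500 490 1045
    0x74e833a7401d0605a1c000a69d3a001cd9a0c0b498001013a1c19d380811d3a04f836870002020da1c3809a010670e026804102 = true := by
  decide +kernel

theorem crr_b_1_pl0 : okB 10000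
    (tP 4 1 65 100 4380 3560 5052 10 22 14976 0 0 87014 370 980)
    0 1580 0 0 40 1000 1300 1380 1965 1250 2500 560 1045
    0x74e9d0074000fa02e9d0181e80ba02e9d01ac0407a7401d0101e8701023810102edd81f404b81f405d970303d811c041020005d3a035808e023808083 = true := by
  decide +kernel

theorem crr_b_1_pl1 : okB 10000
    (tP 4 1 65 100 4380 3560 5052 10 22 12489 0 0 67887 370 980)
    0 1580 0 0 40 1300 1700 1380 1965 1250 2500 560 1045
    0x74e80fa01e9d00f6060fa74580c182e9d01f4e9d018301d00f405d3b00e805703e80bb760604180e8701f43c0c0f4ec0c002387001c0608e040610102e9d0076ec0c1f4e8b818305d3a74000c1743c0ce020470101 = true := by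
  decide +kernel

theorem crr_b_1_pl2 : okB 10000
    (tP 4 1 65 100 4380 3560 5052 10 22 10457 0 0 55931 370 980)
    0 1580 0 0 40 1700 2120 1380 1965 1250 2500 560 1045
    0x1d0e02e9d001c040fa7401d0101380b366027011e3c0019c040fa74e8081f4e80c0f4cc0c14c380c101e9d01f4e803b0307d3a03e9d018105d3a01e9d818303d0e03380ba1c0607a66060411c380661c0604100381019c0270102 = true := by
  decide +kernel

theorem crr_b_1_pm : okB 10000
    (tP 4 1 65 100 4380 3560 5052 10 22 0 1400 0 0 370 980)
    0 1580 0 0 40 2120 2370 1380 1965 1250 2500 560 1045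
    0x4c39d0003380fa660730e030404e4c02701823870182e9981f4e80c0cce80270305327030530e030404e1c0270102 = true := by
  decide +kernel

theorem crr_b_1_pr0 : okB 10000
    (tP 4 1 65 100 4380 3560 5052 10 22 0 12319 46069 0 370 980)
    0 1580 0 0 40 2370 2700 1380 1965 1250 2500 560 1045
    0xd264c0200e1c38000836809a4c980c0349c01a020605a360608e1c04d009c3800102 = true := by
  decide +kernel

theorem crr_b_1_db0 : okB 10000
    (tD 1 4 1 65 100 4380 3560 5052 10 22 2000 2120 0 21493 111831 0 0 20095 111831 0 370 980)
    0 1580 0 0 40 1000 1500 1380 1965 1250 2500 560 1045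
    0x1b76804a0b6a504012a5040b6ed049528205b7682da9410200052a5009412508340021a340034a0416d4a09282da941250400083 = true := by
  decide +kernel

theorem crr_b_1_db1 : okB 10000
    (tD 1 4 1 65 100 4380 3560 5052 10 22 2000 2120 0 16136 76120 0 0 14738 76120 0 370 980)
    0 1580 0 0 40 1500 2120 1380 1965 1250 2500 560 1045
    0x6d4a0b6a50405282dbb405504076ed049416dda94102020129c4a0009c38001024a94025047068338100024a0416d4a0b6804a092a50008083 = true := by
  decide +kernel

theorem crr_b_1_da : okB 10000
    (tD 0 4 1 65 100 4380 3560 5052 10 22 2000 0 0 11856 55932 0 1400 0 0 0 370 980)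
    0 1580 0 0 40 2120 2370 1380 1965 1250 2500 560 1045
    0x55da00e024a0aa9c04052d502941254a05282060d2a506f4082 = true := by
  decide +kernel

theorem crr_b_1_ua : okB 10000
    (tU 0 4 1 65 100 4380 3560 5052 10 22 370 0 13257 0 0 55932 1400 0 0 0 370 980)
    0 1580 0 0 40 2120 2370 1380 1965 1250 2500 560 1045
    0x4c9804e023a08f9f020e61f0730f830270e830404e350270102 = true := by
  decide +kernel

theorem crr_b_1_ub0 : okB 10000
    (tU 1 4 1 65 100 4380 3560 5052 10 22 370 2370 12087 0 0 50997 13486 0 0 50997 370 980)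
    0 1580 0 0 40 2370 2700 1380 1965 1250 2500 560 1045
    0xd26003e0da4c013818168d00b60609a360608e1c04d009c3804102 = true := by
  decide +kernel

end RQ4

end Pool.Agent.Work.MP_b30479_gtS.G2

end

section

/-!
# Rings at an end with the ring variable on the ramp, `b = 4`: rows one, two, three, threeE
-/

set_option deprecated.oldSectionVars true

namespace Pool.Agent.Work.MP_b30479_gtS.G2

open Real NumIs

namespace RQ4

open RC RQ

theorem done_0_e : okB 10000
    (uE 4738 4380 4738 0 1 1965 2153 2160 7 786 848 1403)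
    0 1580 0 0 40 2160 2751 430 1200 1250 2500 220 500
    0xa1a02f0d077808d06046e11a0c0e11a0f0811a3408300006831434002bd7868dc384001000c682077808d1a3405e1a0c0811a08687040c1811428102 = true := by
  decide +kernel

theorem done_0_db : okB 10000
    (uD 1 4738 4380 4738 0 1 1965 2160 7 786 848 1403)
    0 1580 0 0 40 1600 2160 430 1200 1250 2500 220 500
    0x5ca020e400031a08b171a081960404502285011728080872804100 = true := by
  decide +kernel

theorem done_0_da : okB 10000
    (uD 0 4738 4380 4738 0 1 1965 2160 7 786 848 1403)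
    0 1580 0 0 40 2160 2751 430 1200 1250 2500 220 500
    0x162c00b022808a021a501161a0ca020254103 = true := by
  decide +kernel

theorem done_0_ua : okB 10000
    (uU 0 4738 4380 4738 0 1 1965 2153 2160 2751 7 786 848 1403)
    0 1580 0 0 40 2160 2751 430 1200 1250 2500 220 500
    0x346d900006820e0d60d076468300341811434002bcb2c801a081de02346bb02046821a081811428102 = true := by
  decide +kernel

theorem done_0_ub : okB 10000
    (uU 1 4738 4380 4738 0 1 1965 2153 2160 2751 7 786 848 1403)
    0 1580 0 0 40 2751 3600 430 1200 1250 2500 220 500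
    0x17875e020c7031c0160158007001c0af011c39601580408e003410e000c702bc06f011c3402c1c0c70358b0001580008d1a04682043815e583415e0378083020c68e023800d04396011a0c7001c086825874682063812c1c0c001020c68e0234162060c70d017808d1a0818d06b072c020c08d06345035834181140c100bd7960d04b002c5200083077809d58056011cec0831a281ac02006bb022c681000869d0234103060470a00346801a0808a0628681140015ebc341831a0af011a3408d040c0821434500140808a040960a003410d04b0682bc0408a1a04500140818a062850a040410a05796290034103bc046b8140c08d140010a040c50a0408080 = true := by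
  decide +kernel

theorem tone_0 {xs s T ρ : ℝ} (hW : RWp.In ⟨2160 / 10000, 2751 / 10000, -(1150 / 10000), -(380 / 10000), 1965 / 10000, 2153 / 10000, 220 / 10000, 500 / 10000, 4738 / 10000, 4380 / 10000, 848 / 10000, 1403 / 10000, 0, 1⟩ xs s T ρ)
    (hD : Dx xs (1 / 2 - s) T ρ = 2 * π * 4 * ρ)
    (ha : ((2160 : ℕ) : ℝ) / 10000 ≤ xs) (he : xs ≤ ((2751 : ℕ) : ℝ) / 10000)
    (hs : ((1965 : ℕ) : ℝ) / 10000 ≤ s) (hs' : s ≤ ((2153 : ℕ) : ℝ) / 10000) :
    RampOK1 4 xs (1 / 2 - s) T ρ (16 / 100) (36 / 100) := by
  have hN : Nm 4738 4380 4738 0 1 786 1965 848 1403 430 1200 220 500 xs s T ρ := by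
    obtain ⟨-, -, w1, w2, -, -, w5, w6, w7, w8, w9, w10, w11, w12⟩ := hW
    dsimp only at w1 w2 w6 w7 w8 w9 w10 w11 w12
    push_cast at ha he hs hs'
    exact ⟨by linarith only [ha, w5, w7], by linarith only [he, w5, w7], by push_cast; linarith only [hs], by norm_num, by push_cast; linarith only [w8],
      by norm_num, by push_cast; linarith only [w9], by norm_num, by push_cast; linarith only [w8], by norm_num,
      by push_cast; linarith only [he, hs], by push_cast; linarith only [ha, hs', w5, w7], by norm_num, by push_cast; linarith only [w1],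
      by push_cast; linarith only [w2], by push_cast; linarith only [w6], by push_cast; linarith only [w7], w5,
      fun _ => by push_cast; linarith only [w10], by push_cast; linarith only [w11]⟩
  have g : NE 7 2153 2160 xs s T ρ :=
    ⟨hD, hs', by norm_num, Or.inr (Or.inr (by push_cast at ha hs' ⊢; linarith only [ha, hs'])), by norm_num, ha⟩
  have hcl : (0 : ℝ) < 16 / 100 := by norm_num
  have hcp : (36 / 100 : ℝ) < 1 / 2 := by norm_num
  refine ⟨fun y hA => qE done_0_e hN g hA hcl hcp (by norm_num) ha he,
    fun x y hA hx => ?_, fun x y hA hx => ?_⟩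
  · have hx0 : ((1600 : ℕ) : ℝ) / 10000 ≤ x := le_trans (by norm_num) hA.x0
    rcases le_total x (((2160 : ℕ) : ℝ) / 10000) with hc | hc
    · exact qD done_0_db hN g hA hcl hcp (by norm_num) (by norm_num) hx0 hc hx
    · exact qD done_0_da hN g hA hcl hcp (by norm_num) (by norm_num) hc (hx.le.trans he) hx
  · have hx1 : x ≤ ((3600 : ℕ) : ℝ) / 10000 := le_trans hA.x1 (by norm_num)
    rcases le_total x (((2751 : ℕ) : ℝ) / 10000) with hc | hc
    · exact qU done_0_ua hN g hA hcl hcp (by norm_num) (by norm_num) he (ha.trans hx.le) hc hx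
    · exact qU done_0_ub hN g hA hcl hcp (by norm_num) (by norm_num) he hc hx1 hx

theorem dtwo_0_e : okB 10000
    (uE 4490 4020 5442 10 13 2040 2225 1910 0 340 580 970)
    0 1580 0 0 40 1910 2380 1020 1470 1250 2500 320 530
    0x3491000430800200390000c682bd7808d1a370800243081c20000006043872004007040c38d0208502 = true := by
  decide +kernel

theorem dtwo_0_db : okB 10000
    (uD 1 4490 4020 5442 10 13 2040 1910 0 340 580 970)
    0 1580 0 0 40 1250 1910 1020 1470 1250 2500 320 530
    0x5c8022e04b802808a00205c087045c00704500030e10102 = true := by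
  decide +kernel

theorem dtwo_0_da : okB 10000
    (uD 0 4490 4020 5442 10 13 2040 1910 0 340 580 970)
    0 1580 0 0 40 1910 2380 1020 1470 1250 2500 320 530
    0x58b970000a022808a020e58a0228080870650103 = true := by
  decide +kernel

theorem dtwo_0_ua : okB 10000
    (uU 0 4490 4020 5442 10 13 2040 2225 1910 2380 0 340 580 970)
    0 1580 0 0 40 1910 2380 1020 1470 1250 2500 320 530
    0xdba00682bd7808da94c10006043872004007040c38d0208502 = true := by
  decide +kernel

theorem dtwo_0_ub : okB 10000
    (uU 1 4490 4020 5442 10 13 2040 2225 1910 2380 0 340 580 970)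
    0 1580 0 0 40 2380 3000 1020 1470 1250 2500 320 530
    0xa52046ac020050214085070e0800a040c502 = true := by
  decide +kernel

theorem ttwo_0 {xs s T ρ : ℝ} (hW : RWp.In ⟨1910 / 10000, 2380 / 10000, -(560 / 10000), -(110 / 10000), 2040 / 10000, 2225 / 10000, 320 / 10000, 530 / 10000, 4490 / 10000, 4020 / 10000, 580 / 10000, 970 / 10000, 13 / 10, 398 / 1000⟩ xs s T ρ)
    (hD : Dx xs (1 / 2 - s) T ρ = 2 * π * 4 * ρ)
    (ha : ((1910 : ℕ) : ℝ) / 10000 ≤ xs) (he : xs ≤ ((2380 : ℕ) : ℝ) / 10000)
    (hs : ((2040 : ℕ) : ℝ) / 10000 ≤ s) (hs' : s ≤ ((2225 : ℕ) : ℝ) / 10000) :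
    RampOK1 4 xs (1 / 2 - s) T ρ (125 / 1000) (30 / 100) := by
  have hN : Nm 4490 4020 5442 10 13 340 2040 580 970 1020 1470 320 530 xs s T ρ := by
    obtain ⟨-, -, w1, w2, -, -, w5, w6, w7, w8, w9, w10, w11, w12⟩ := hW
    dsimp only at w1 w2 w6 w7 w8 w9 w10 w11 w12
    push_cast at ha he hs hs'
    exact ⟨by linarith only [ha, w5, w7], by linarith only [he, w5, w7], by push_cast; linarith only [hs], by norm_num, by push_cast; linarith only [w8],
      by norm_num, by push_cast; linarith only [w9], by norm_num, by push_cast; linarith only [he, hs', w5, w7, w11], by norm_num,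
      by push_cast; linarith only [he, hs], by push_cast; linarith only [ha, hs', w5, w7], by norm_num, by push_cast; linarith only [w1],
      by push_cast; linarith only [w2], by push_cast; linarith only [w6], by push_cast; linarith only [w7], w5,
      fun _ => by push_cast; linarith only [w10], by push_cast; linarith only [w11]⟩
  have g : NE 0 2225 1910 xs s T ρ :=
    ⟨hD, hs', by norm_num, Or.inl (by norm_num), by norm_num, ha⟩
  have hcl : (0 : ℝ) < 125 / 1000 := by norm_num
  have hcp : (30 / 100 : ℝ) < 1 / 2 := by norm_num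
  refine ⟨fun y hA => qE dtwo_0_e hN g hA hcl hcp (by norm_num) ha he,
    fun x y hA hx => ?_, fun x y hA hx => ?_⟩
  · have hx0 : ((1250 : ℕ) : ℝ) / 10000 ≤ x := le_trans (by norm_num) hA.x0
    rcases le_total x (((1910 : ℕ) : ℝ) / 10000) with hc | hc
    · exact qD dtwo_0_db hN g hA hcl hcp (by norm_num) (by norm_num) hx0 hc hx
    · exact qD dtwo_0_da hN g hA hcl hcp (by norm_num) (by norm_num) hc (hx.le.trans he) hx
  · have hx1 : x ≤ ((3000 : ℕ) : ℝ) / 10000 := le_trans hA.x1 (by norm_num)
    rcases le_total x (((2380 : ℕ) : ℝ) / 10000) with hc | hc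
    · exact qU dtwo_0_ua hN g hA hcl hcp (by norm_num) (by norm_num) he (ha.trans hx.le) hc hx
    · exact qU dtwo_0_ub hN g hA hcl hcp (by norm_num) (by norm_num) he hc hx1 hx

theorem dthree_0_e : okB 10000
    (uE 4360 3850 4832 10 22 2130 2340 1880 0 460 470 740)
    0 1580 0 0 40 1880 2150 1310 1590 1250 2500 380 550
    0x1224488010002f10060480320400820e400020e08382 = true := by
  decide +kernel

theorem dthree_0_db : okB 10000
    (uD 1 4360 3850 4832 10 22 2130 1880 0 460 470 740)
    0 1580 0 0 40 1200 1880 1310 1590 1250 2500 380 550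
    0x5c8032e00b8228003822800382 = true := by
  decide +kernel

theorem dthree_0_da : okB 10000
    (uD 0 4360 3850 4832 10 22 2130 1880 0 460 470 740)
    0 1580 0 0 40 1880 2150 1310 1590 1250 2500 380 550
    0x5cb80200ca022808a02 = true := by
  decide +kernel

theorem dthree_0_ua : okB 10000
    (uU 0 4360 3850 4832 10 22 2130 2340 1880 2150 0 460 470 740)
    0 1580 0 0 40 1880 2150 1310 1590 1250 2500 380 550
    0x176a02ba04b030e400020e08382 = true := by
  decide +kernel

theorem dthree_0_ub : okB 10000
    (uU 1 4360 3850 4832 10 22 2130 2340 1880 2150 0 460 470 740)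
    0 1580 0 0 40 2150 3000 1310 1590 1250 2500 380 550
    0x2850214085021a1c681001c1070428100 = true := by
  decide +kernel

theorem tthree_0 {xs s T ρ : ℝ} (hW : RWp.In ⟨1880 / 10000, 2150 / 10000, -(270 / 10000), 10 / 10000, 2130 / 10000, 2340 / 10000, 380 / 10000, 550 / 10000, 4360 / 10000, 3850 / 10000, 470 / 10000, 740 / 10000, 22 / 10, 59 / 100⟩ xs s T ρ)
    (hD : Dx xs (1 / 2 - s) T ρ = 2 * π * 4 * ρ)
    (ha : ((1880 : ℕ) : ℝ) / 10000 ≤ xs) (he : xs ≤ ((2150 : ℕ) : ℝ) / 10000)
    (hs : ((2130 : ℕ) : ℝ) / 10000 ≤ s) (hs' : s ≤ ((2340 : ℕ) : ℝ) / 10000) :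
    RampOK1 4 xs (1 / 2 - s) T ρ (12 / 100) (30 / 100) := by
  have hN : Nm 4360 3850 4832 10 22 460 2130 470 740 1310 1590 380 550 xs s T ρ := by
    obtain ⟨-, -, w1, w2, -, -, w5, w6, w7, w8, w9, w10, w11, w12⟩ := hW
    dsimp only at w1 w2 w6 w7 w8 w9 w10 w11 w12
    push_cast at ha he hs hs'
    exact ⟨by linarith only [ha, w5, w7], by linarith only [he, w5, w7], by push_cast; linarith only [hs], by norm_num, by push_cast; linarith only [w8],
      by norm_num, by push_cast; linarith only [w9], by norm_num, by push_cast; linarith only [he, hs', w5, w7, w11], by norm_num,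
      by push_cast; linarith only [he, hs, w5, w7], by push_cast; linarith only [ha, hs'], by norm_num, by push_cast; linarith only [w1],
      by push_cast; linarith only [w2], by push_cast; linarith only [w6], by push_cast; linarith only [w7], w5,
      fun _ => by push_cast; linarith only [w10], by push_cast; linarith only [w11]⟩
  have g : NE 0 2340 1880 xs s T ρ :=
    ⟨hD, hs', by norm_num, Or.inl (by norm_num), by norm_num, ha⟩
  have hcl : (0 : ℝ) < 12 / 100 := by norm_num
  have hcp : (30 / 100 : ℝ) < 1 / 2 := by norm_num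
  refine ⟨fun y hA => qE dthree_0_e hN g hA hcl hcp (by norm_num) ha he,
    fun x y hA hx => ?_, fun x y hA hx => ?_⟩
  · have hx0 : ((1200 : ℕ) : ℝ) / 10000 ≤ x := le_trans (by norm_num) hA.x0
    rcases le_total x (((1880 : ℕ) : ℝ) / 10000) with hc | hc
    · exact qD dthree_0_db hN g hA hcl hcp (by norm_num) (by norm_num) hx0 hc hx
    · exact qD dthree_0_da hN g hA hcl hcp (by norm_num) (by norm_num) hc (hx.le.trans he) hx
  · have hx1 : x ≤ ((3000 : ℕ) : ℝ) / 10000 := le_trans hA.x1 (by norm_num)
    rcases le_total x (((2150 : ℕ) : ℝ) / 10000) with hc | hc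
    · exact qU dthree_0_ua hN g hA hcl hcp (by norm_num) (by norm_num) he (ha.trans hx.le) hc hx
    · exact qU dthree_0_ub hN g hA hcl hcp (by norm_num) (by norm_num) he hc hx1 hx

theorem dthreeE_0_e : okB 10000
    (uE 4100 3670 4502 10 22 2200 2360 1710 380 650 570 730)
    0 1580 0 0 40 1710 1820 1240 1400 1250 2500 310 450
    0x42f01200c2020e0c202 = true := by
  decide +kernel

theorem dthreeE_0_db : okB 10000
    (uD 1 4100 3670 4502 10 22 2200 1710 380 650 570 730)
    0 1580 0 0 40 1000 1710 1240 1400 1250 2500 310 450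
    0x1724088030e08a070400202281c100 = true := by
  decide +kernel

theorem dthreeE_0_da : okB 10000
    (uD 0 4100 3670 4502 10 22 2200 1710 380 650 570 730)
    0 1580 0 0 40 1710 1820 1240 1400 1250 2500 310 450
    0x17120c4822808a02 = true := by
  decide +kernel

theorem dthreeE_0_ua : okB 10000
    (uU 0 4100 3670 4502 10 22 2200 2360 1710 1820 380 650 570 730)
    0 1580 0 0 40 1710 1820 1240 1400 1250 2500 310 450
    0xc04820808202 = true := by
  decide +kernel

theorem dthreeE_0_ub : okB 10000
    (uU 1 4100 3670 4502 10 22 2200 2360 1710 1820 380 650 570 730)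
    0 1580 0 0 40 1820 2600 1240 1400 1250 2500 310 450
    0x3468043820e10002 = true := by
  decide +kernel

theorem tthreeE_0 {xs s T ρ : ℝ} (hW : RWp.In ⟨1710 / 10000, 1820 / 10000, -(340 / 10000), -(180 / 10000), 2200 / 10000, 2360 / 10000, 310 / 10000, 450 / 10000, 4100 / 10000, 3670 / 10000, 570 / 10000, 730 / 10000, 22 / 10, 59 / 100⟩ xs s T ρ)
    (hD : Dx xs (1 / 2 - s) T ρ = 2 * π * 4 * ρ)
    (ha : ((1710 : ℕ) : ℝ) / 10000 ≤ xs) (he : xs ≤ ((1820 : ℕ) : ℝ) / 10000)
    (hs : ((2200 : ℕ) : ℝ) / 10000 ≤ s) (hs' : s ≤ ((2360 : ℕ) : ℝ) / 10000) :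
    RampOK1 4 xs (1 / 2 - s) T ρ (10 / 100) (26 / 100) := by
  have hN : Nm 4100 3670 4502 10 22 650 2200 570 730 1240 1400 310 450 xs s T ρ := by
    obtain ⟨-, -, w1, w2, -, -, w5, w6, w7, w8, w9, w10, w11, w12⟩ := hW
    dsimp only at w1 w2 w6 w7 w8 w9 w10 w11 w12
    push_cast at ha he hs hs'
    exact ⟨by linarith only [ha, w5, w7], by linarith only [he, w5, w7], by push_cast; linarith only [hs], by norm_num, by push_cast; linarith only [w8],
      by norm_num, by push_cast; linarith only [w9], by norm_num, by push_cast; linarith only [w5, w7, w8, w11], by norm_num,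
      by push_cast; linarith only [he, hs, w5, w7], by push_cast; linarith only [ha, hs'], by norm_num, by push_cast; linarith only [w1],
      by push_cast; linarith only [w2], by push_cast; linarith only [w6], by push_cast; linarith only [w7], w5,
      fun _ => by push_cast; linarith only [w10], by push_cast; linarith only [w11]⟩
  have g : NE 380 2360 1710 xs s T ρ :=
    ⟨hD, hs', by norm_num, Or.inr (Or.inl (by push_cast at he hs ⊢; linarith only [he, hs])), by norm_num, ha⟩
  have hcl : (0 : ℝ) < 10 / 100 := by norm_num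
  have hcp : (26 / 100 : ℝ) < 1 / 2 := by norm_num
  refine ⟨fun y hA => qE dthreeE_0_e hN g hA hcl hcp (by norm_num) ha he,
    fun x y hA hx => ?_, fun x y hA hx => ?_⟩
  · have hx0 : ((1000 : ℕ) : ℝ) / 10000 ≤ x := le_trans (by norm_num) hA.x0
    rcases le_total x (((1710 : ℕ) : ℝ) / 10000) with hc | hc
    · exact qD dthreeE_0_db hN g hA hcl hcp (by norm_num) (by norm_num) hx0 hc hx
    · exact qD dthreeE_0_da hN g hA hcl hcp (by norm_num) (by norm_num) hc (hx.le.trans he) hx
  · have hx1 : x ≤ ((2600 : ℕ) : ℝ) / 10000 := le_trans hA.x1 (by norm_num)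
    rcases le_total x (((1820 : ℕ) : ℝ) / 10000) with hc | hc
    · exact qU dthreeE_0_ua hN g hA hcl hcp (by norm_num) (by norm_num) he (ha.trans hx.le) hc hx
    · exact qU dthreeE_0_ub hN g hA hcl hcp (by norm_num) (by norm_num) he hc hx1 hx

end RQ4

namespace RC

theorem e4_one : RowE
    ⟨2160 / 10000, 2751 / 10000, -(1150 / 10000), -(380 / 10000), 1965 / 10000, 2153 / 10000, 220 / 10000, 500 / 10000, 4738 / 10000, 4380 / 10000, 848 / 10000, 1403 / 10000, 0, 1⟩
    4 (16 / 100) (36 / 100) := by
  intro xs s T ρ hW hD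
  have h0 : ((2160 : ℕ) : ℝ) / 10000 ≤ xs := le_trans (by norm_num) hW.x0
  have h1 : xs ≤ ((2751 : ℕ) : ℝ) / 10000 := le_trans hW.x1 (by norm_num)
  have k0 : ((1965 : ℕ) : ℝ) / 10000 ≤ s := le_trans (by norm_num) hW.s0
  have k1 : s ≤ ((2153 : ℕ) : ℝ) / 10000 := le_trans hW.s1 (by norm_num)
  exact RQ4.tone_0 hW hD h0 h1 k0 k1

theorem e4_two : RowE
    ⟨1910 / 10000, 2380 / 10000, -(560 / 10000), -(110 / 10000), 2040 / 10000, 2225 / 10000, 320 / 10000, 530 / 10000, 4490 / 10000, 4020 / 10000, 580 / 10000, 970 / 10000, 13 / 10, 398 / 1000⟩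
    4 (125 / 1000) (30 / 100) := by
  intro xs s T ρ hW hD
  have h0 : ((1910 : ℕ) : ℝ) / 10000 ≤ xs := le_trans (by norm_num) hW.x0
  have h1 : xs ≤ ((2380 : ℕ) : ℝ) / 10000 := le_trans hW.x1 (by norm_num)
  have k0 : ((2040 : ℕ) : ℝ) / 10000 ≤ s := le_trans (by norm_num) hW.s0
  have k1 : s ≤ ((2225 : ℕ) : ℝ) / 10000 := le_trans hW.s1 (by norm_num)
  exact RQ4.ttwo_0 hW hD h0 h1 k0 k1

theorem e4_three : RowE
    ⟨1880 / 10000, 2150 / 10000, -(270 / 10000), 10 / 10000, 2130 / 10000, 2340 / 10000, 380 / 10000, 550 / 10000, 4360 / 10000, 3850 / 10000, 470 / 10000, 740 / 10000, 22 / 10, 59 / 100⟩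
    4 (12 / 100) (30 / 100) := by
  intro xs s T ρ hW hD
  have h0 : ((1880 : ℕ) : ℝ) / 10000 ≤ xs := le_trans (by norm_num) hW.x0
  have h1 : xs ≤ ((2150 : ℕ) : ℝ) / 10000 := le_trans hW.x1 (by norm_num)
  have k0 : ((2130 : ℕ) : ℝ) / 10000 ≤ s := le_trans (by norm_num) hW.s0
  have k1 : s ≤ ((2340 : ℕ) : ℝ) / 10000 := le_trans hW.s1 (by norm_num)
  exact RQ4.tthree_0 hW hD h0 h1 k0 k1

theorem e4_threeE : RowE
    ⟨1710 / 10000, 1820 / 10000, -(340 / 10000), -(180 / 10000), 2200 / 10000, 2360 / 10000, 310 / 10000, 450 / 10000, 4100 / 10000, 3670 / 10000, 570 / 10000, 730 / 10000, 22 / 10, 59 / 100⟩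
    4 (10 / 100) (26 / 100) := by
  intro xs s T ρ hW hD
  have h0 : ((1710 : ℕ) : ℝ) / 10000 ≤ xs := le_trans (by norm_num) hW.x0
  have h1 : xs ≤ ((1820 : ℕ) : ℝ) / 10000 := le_trans hW.x1 (by norm_num)
  have k0 : ((2200 : ℕ) : ℝ) / 10000 ≤ s := le_trans (by norm_num) hW.s0
  have k1 : s ≤ ((2360 : ℕ) : ℝ) / 10000 := le_trans hW.s1 (by norm_num)
  exact RQ4.tthreeE_0 hW hD h0 h1 k0 k1

end RC

end Pool.Agent.Work.MP_b30479_gtS.G2

end

section

/-!
# Rings at an end with the ring variable on the ramp, `b = 4`: rows rr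
-/

set_option deprecated.oldSectionVars true

namespace Pool.Agent.Work.MP_b30479_gtS.G2

open Real NumIs

namespace RQ4

open RC RQ

theorem drr_0_e : okB 10000
    (uE 4465 3820 4852 10 22 2180 2390 1820 10 570 280 630)
    0 1580 0 0 40 1820 2170 1450 1920 1250 2500 400 650
    0x1020400810e0c3822584061024891002041900640161200f081c200803c2401e12184903020c00100003830e1c002be4096100401df200ef92c2001810200382077af8d060ef5f200c1df0384000021c91002003820e08383060438406083840808002 = true := by
  decide +kernel

theorem drr_0_db : okB 10000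
    (uD 1 4465 3820 4852 10 22 2180 1820 10 570 280 630)
    0 1580 0 0 40 1000 1820 1450 1920 1250 2500 400 650
    0x5cb92060cb800e0cb900604b890608b9406501002e5c903065c0172e0c1012850087065000228501140200a07080c38106082070208b93044c1142608080 = true := by
  decide +kernel

theorem drr_0_da : okB 10000
    (uD 0 4465 3820 4852 10 22 2180 1820 10 570 280 630)
    0 1580 0 0 40 1820 2170 1450 1920 1250 2500 400 650
    0x40b812e04a022808a022e5c014045c0902e04a02065cb8202501140400387205c0802808094041c202060ca042608002 = true := by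
  decide +kernel

theorem drr_0_ua : okB 10000
    (uU 0 4465 3820 4852 10 22 2180 2390 1820 2170 10 570 280 630)
    0 1580 0 0 40 1820 2170 1450 1920 1250 2500 400 650
    0x42e810e0c3820e0afde0241f810e08181a950054041c15da8083820386ed4044010302003820e1ee800e08382021c184040c3840808002 = true := by
  decide +kernel

theorem drr_0_ub : okB 10000
    (uU 1 4465 3820 4852 10 22 2180 2390 1820 2170 10 570 280 630)
    0 1580 0 0 40 2170 2700 1450 1920 1250 2500 400 650
    0xa0e3408014085020ed00dfbc0438d020c0870600507061c2030008387001c102 = true := by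
  decide +kernel

theorem trr_0 {xs s T ρ : ℝ} (hW : RWp.In ⟨1820 / 10000, 2170 / 10000, -(130 / 10000), 340 / 10000, 2180 / 10000, 2390 / 10000, 400 / 10000, 650 / 10000, 4465 / 10000, 3820 / 10000, 280 / 10000, 630 / 10000, 22 / 10, 59 / 100⟩ xs s T ρ)
    (hD : Dx xs (1 / 2 - s) T ρ = 2 * π * 4 * ρ)
    (ha : ((1820 : ℕ) : ℝ) / 10000 ≤ xs) (he : xs ≤ ((2170 : ℕ) : ℝ) / 10000)
    (hs : ((2180 : ℕ) : ℝ) / 10000 ≤ s) (hs' : s ≤ ((2390 : ℕ) : ℝ) / 10000) :
    RampOK1 4 xs (1 / 2 - s) T ρ (10 / 100) (27 / 100) := by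
  have hN : Nm 4465 3820 4852 10 22 570 2180 280 630 1450 1920 400 650 xs s T ρ := by
    obtain ⟨-, -, w1, w2, -, -, w5, w6, w7, w8, w9, w10, w11, w12⟩ := hW
    dsimp only at w1 w2 w6 w7 w8 w9 w10 w11 w12
    push_cast at ha he hs hs'
    exact ⟨by linarith only [ha, w5, w7], by linarith only [he, w5, w7], by push_cast; linarith only [hs], by norm_num, by push_cast; linarith only [w8],
      by norm_num, by push_cast; linarith only [w9], by norm_num, by push_cast; linarith only [he, hs', w5, w7, w11], by norm_num,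
      by push_cast; linarith only [he, hs, w5, w7], by push_cast; linarith only [ha, hs'], by norm_num, by push_cast; linarith only [w1],
      by push_cast; linarith only [w2], by push_cast; linarith only [w6], by push_cast; linarith only [w7], w5,
      fun _ => by push_cast; linarith only [w10], by push_cast; linarith only [w11]⟩
  have g : NE 10 2390 1820 xs s T ρ :=
    ⟨hD, hs', by norm_num, Or.inr (Or.inl (by push_cast at he hs ⊢; linarith only [he, hs])), by norm_num, ha⟩
  have hcl : (0 : ℝ) < 10 / 100 := by norm_num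
  have hcp : (27 / 100 : ℝ) < 1 / 2 := by norm_num
  refine ⟨fun y hA => qE drr_0_e hN g hA hcl hcp (by norm_num) ha he,
    fun x y hA hx => ?_, fun x y hA hx => ?_⟩
  · have hx0 : ((1000 : ℕ) : ℝ) / 10000 ≤ x := le_trans (by norm_num) hA.x0
    rcases le_total x (((1820 : ℕ) : ℝ) / 10000) with hc | hc
    · exact qD drr_0_db hN g hA hcl hcp (by norm_num) (by norm_num) hx0 hc hx
    · exact qD drr_0_da hN g hA hcl hcp (by norm_num) (by norm_num) hc (hx.le.trans he) hx
  · have hx1 : x ≤ ((2700 : ℕ) : ℝ) / 10000 := le_trans hA.x1 (by norm_num)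
    rcases le_total x (((2170 : ℕ) : ℝ) / 10000) with hc | hc
    · exact qU drr_0_ua hN g hA hcl hcp (by norm_num) (by norm_num) he (ha.trans hx.le) hc hx
    · exact qU drr_0_ub hN g hA hcl hcp (by norm_num) (by norm_num) he hc hx1 hx

end RQ4

namespace RC

theorem e4_rr : RowE
    ⟨1820 / 10000, 2170 / 10000, -(130 / 10000), 340 / 10000, 2180 / 10000, 2390 / 10000, 400 / 10000, 650 / 10000, 4465 / 10000, 3820 / 10000, 280 / 10000, 630 / 10000, 22 / 10, 59 / 100⟩
    4 (10 / 100) (27 / 100) := by
  intro xs s T ρ hW hD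
  have h0 : ((1820 : ℕ) : ℝ) / 10000 ≤ xs := le_trans (by norm_num) hW.x0
  have h1 : xs ≤ ((2170 : ℕ) : ℝ) / 10000 := le_trans hW.x1 (by norm_num)
  have k0 : ((2180 : ℕ) : ℝ) / 10000 ≤ s := le_trans (by norm_num) hW.s0
  have k1 : s ≤ ((2390 : ℕ) : ℝ) / 10000 := le_trans hW.s1 (by norm_num)
  exact RQ4.trr_0 hW hD h0 h1 k0 k1

end RC

end Pool.Agent.Work.MP_b30479_gtS.G2

end

section

/-!
# Rings with the ring variable on the ramp, `b = 4`, inside: rows rr_a
-/

set_option deprecated.oldSectionVars true

namespace Pool.Agent.Work.MP_b30479_gtS.G2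

open Real NumIs

namespace RQ4

open RC RQ

theorem srr_a_0 {xs s T ρ : ℝ} (hW : RWp.In ⟨1870 / 10000, 2370 / 10000, -(200 / 10000), 385 / 10000, 1670 / 10000, 2000 / 10000, 490 / 10000, 1045 / 10000, 4380 / 10000, 3560 / 10000, 370 / 10000, 980 / 10000, 22 / 10, 59 / 100⟩ xs s T ρ)
    (ha : ((1870 : ℕ) : ℝ) / 10000 ≤ xs) (he : xs ≤ ((2120 : ℕ) : ℝ) / 10000) :
    RampOK (65 / 100) (14 / 100) 1 4 xs (1 / 2 - s) T ρ (10 / 100) (27 / 100) := by
  have hN : Nm 4120 3560 4802 10 22 450 1670 370 980 1380 1965 490 1045 xs s T ρ := by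
    obtain ⟨-, -, w1, w2, w3, w4, w5, w6, w7, w8, w9, w10, w11, w12⟩ := hW
    dsimp only at w1 w2 w3 w4 w6 w7 w8 w9 w10 w11 w12
    push_cast at ha he
    exact ⟨by linarith only [ha, w5, w7], by linarith only [he, w5, w7], by push_cast; linarith only [w3], by norm_num, by push_cast; linarith only [he, w4],
      by norm_num, by push_cast; linarith only [w9], by norm_num, by push_cast; linarith only [he, w4, w5, w7, w11], by norm_num,
      by push_cast; linarith only [he, w3], by push_cast; linarith only [ha, w4, w5, w7], by norm_num, by push_cast; linarith only [w1],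
      by push_cast; linarith only [w2], by push_cast; linarith only [w6], by push_cast; linarith only [w7], w5,
      fun _ => by push_cast; linarith only [w10], by push_cast; linarith only [w11]⟩
  have hT : |T| ≤ ((385 : ℕ) : ℝ) / 10000 := by
    have w1 := hW.t0
    have w2 := hW.t1
    dsimp only at w1 w2
    rw [abs_le]
    push_cast
    constructor <;> linarith only [w1, w2]
  have kc : kC4 10000 1870 2120 385 0 = true := by decide +kernel
  have ua : kU 10000 1870 56681 = true := by decide +kernel
  have hcl : (0 : ℝ) < 10 / 100 := by norm_num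
  have hcp : (27 / 100 : ℝ) < 1 / 2 := by norm_num
  have h5 := hN.xs1.le
  refine ⟨fun x y hA => ?_, fun x y hA hx => ?_, fun x y hA hx => ?_⟩
  · have hx0 : ((1000 : ℕ) : ℝ) / 10000 ≤ x := le_trans (by norm_num) hA.x0
    have hx1 : x ≤ ((2700 : ℕ) : ℝ) / 10000 := le_trans hA.x1 (by norm_num)
    have x0 : 0 < x := (n0 (by decide)).trans_le hx0
    rcases le_total x (((1200 : ℕ) : ℝ) / 10000) with c0 | c0
    · have h := piP crr_a_0_pl0 hN hA hcl hcp hx0 c0
      have g0 := gL (be := 10000) (p := 1200) (G := 85340) (by decide +kernel) x0 c0 le_rfl (by decide)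
      have g1 := gL (be := 10000) (p := 1400) (G := 73784) (x := ((1200 : ℕ) : ℝ) / 10000) (by decide +kernel)
        (n0 (by decide)) (nle (by decide)) le_rfl (by decide)
      have g2 := gL (be := 10000) (p := 1700) (G := 61715) (x := ((1400 : ℕ) : ℝ) / 10000) (by decide +kernel)
        (n0 (by decide)) (nle (by decide)) le_rfl (by decide)
      have g3 := gL (be := 10000) (p := 1870) (G := 56680) (x := ((1700 : ℕ) : ℝ) / 10000) (by decide +kernel)
        (n0 (by decide)) (nle (by decide)) le_rfl (by decide)
      have gm := gh_mono (x := ((1870 : ℕ) : ℝ) / 10000) (n0 (by decide)) ha h5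
      unfold lin at h
      push_cast at h gm g0 g1 g2 g3
      linarith only [neg_abs_le (gh x - gh xs), h, gm, g0, g1, g2, g3]
    rcases le_total x (((1400 : ℕ) : ℝ) / 10000) with c1 | c1
    · have h := piP crr_a_0_pl1 hN hA hcl hcp c0 c1
      have g0 := gL (be := 10000) (p := 1400) (G := 73784) (by decide +kernel) x0 c1 le_rfl (by decide)
      have g1 := gL (be := 10000) (p := 1700) (G := 61715) (x := ((1400 : ℕ) : ℝ) / 10000) (by decide +kernel)
        (n0 (by decide)) (nle (by decide)) le_rfl (by decide)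
      have g2 := gL (be := 10000) (p := 1870) (G := 56680) (x := ((1700 : ℕ) : ℝ) / 10000) (by decide +kernel)
        (n0 (by decide)) (nle (by decide)) le_rfl (by decide)
      have gm := gh_mono (x := ((1870 : ℕ) : ℝ) / 10000) (n0 (by decide)) ha h5
      unfold lin at h
      push_cast at h gm g0 g1 g2
      linarith only [neg_abs_le (gh x - gh xs), h, gm, g0, g1, g2]
    rcases le_total x (((1700 : ℕ) : ℝ) / 10000) with c2 | c2
    · have h := piP crr_a_0_pl2 hN hA hcl hcp c1 c2
      have g0 := gL (be := 10000) (p := 1700) (G := 61715) (by decide +kernel) x0 c2 le_rfl (by decide)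
      have g1 := gL (be := 10000) (p := 1870) (G := 56680) (x := ((1700 : ℕ) : ℝ) / 10000) (by decide +kernel)
        (n0 (by decide)) (nle (by decide)) le_rfl (by decide)
      have gm := gh_mono (x := ((1870 : ℕ) : ℝ) / 10000) (n0 (by decide)) ha h5
      unfold lin at h
      push_cast at h gm g0 g1
      linarith only [neg_abs_le (gh x - gh xs), h, gm, g0, g1]
    rcases le_total x (((1870 : ℕ) : ℝ) / 10000) with c3 | c3
    · have h := piP crr_a_0_pl3 hN hA hcl hcp c2 c3
      have g0 := gL (be := 10000) (p := 1870) (G := 56680) (by decide +kernel) x0 c3 le_rfl (by decide)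
      have gm := gh_mono (x := ((1870 : ℕ) : ℝ) / 10000) (n0 (by decide)) ha h5
      unfold lin at h
      push_cast at h gm g0
      linarith only [neg_abs_le (gh x - gh xs), h, gm, g0]
    rcases le_total x (((2120 : ℕ) : ℝ) / 10000) with ce | ce
    · have h := piP crr_a_0_pm hN hA hcl hcp c3 ce
      unfold lin at h
      push_cast at h
      linarith only [abs_nonneg (gh x - gh xs), h]
    have gm := gh_mono (y := ((2120 : ℕ) : ℝ) / 10000) hN.xs0 he (nhalf (by decide))
    have h := piP crr_a_0_pr0 hN hA hcl hcp ce hx1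
    have g0 := gL (be := 10000) (p := 2700) (G := 41881) (x := ((2120 : ℕ) : ℝ) / 10000) (by decide +kernel)
      (n0 (by decide)) ce hx1 (by decide)
    unfold lin at h
    push_cast at h gm g0
    linarith only [le_abs_self (gh x - gh xs), h, gm, g0]
  · have hx0 : ((1000 : ℕ) : ℝ) / 10000 ≤ x := le_trans (by norm_num) hA.x0
    have hx1 : x ≤ ((2700 : ℕ) : ℝ) / 10000 := le_trans hA.x1 (by norm_num)
    have gm := gh_mono ((n0 (by decide)).trans_le hx0) hx.le h5
    have ga := gU ua (by decide) le_rfl ha h5
    have g3 := gS4 kc (by decide) (by decide) le_rfl ha he hT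
    push_cast at ga g3
    rcases le_total x (((1500 : ℕ) : ℝ) / 10000) with c0 | c0
    · have h := piD1 crr_a_0_db0 hN hA hcl hcp (by decide) hx0 c0 ha
      have g0 := gU (be := 10000) (p := 1000) (G := 101665) (by decide +kernel) (by decide) hx0 c0
        (nhalf (by decide))
      have k1 := gU (be := 10000) (p := 1500) (G := 69200) (y := ((1870 : ℕ) : ℝ) / 10000) (by decide +kernel)
        (by decide) le_rfl (nle (by decide)) (nhalf (by decide))
      push_cast at h g0 k1
      unfold lin at h
      push_cast at h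
      exact dn_fin5 h gm (by linarith only [he, ga, g0, k1]) (by linarith only [g3, g0, k1])
    rcases le_total x (((1870 : ℕ) : ℝ) / 10000) with c1 | c1
    · have h := piD1 crr_a_0_db1 hN hA hcl hcp (by decide) c0 c1 ha
      have g0 := gU (be := 10000) (p := 1500) (G := 69200) (by decide +kernel) (by decide) c0 c1
        (nhalf (by decide))
      push_cast at h g0
      unfold lin at h
      push_cast at h
      exact dn_fin5 h gm (by linarith only [he, ga, g0]) (by linarith only [g3, g0])
    have h := piD0 crr_a_0_da hN hA hcl hcp (by decide) c1 (hx.le.trans he) hx.le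
    have g1 := gU ua (by decide) c1 hx.le h5
    have g4 := gS4 kc (by decide) (by decide) c1 hx.le he hT
    unfold lin at h
    push_cast at h g1 g4
    exact dn_fin5 h gm (by linarith only [he, g1]) (by linarith only [g4])
  · have hx0 : ((1000 : ℕ) : ℝ) / 10000 ≤ x := le_trans (by norm_num) hA.x0
    have hx1 : x ≤ ((2700 : ℕ) : ℝ) / 10000 := le_trans hA.x1 (by norm_num)
    have gm := gh_mono hN.xs0 hx.le (hx1.trans (nhalf (by decide)))
    rcases le_total x (((2120 : ℕ) : ℝ) / 10000) with ce | ce
    · have h := piU0 crr_a_0_ua hN hA hcl hcp (ha.trans hx.le) ce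
      have g1 := gU ua (by decide) ha hx.le (hx1.trans (nhalf (by decide)))
      have g3 := gS4 kc (by decide) (by decide) ha hx.le ce hT
      unfold lin at h
      push_cast at h g1 g3
      exact up_fin5 h gm (by linarith only [ha, g1]) (by linarith only [g3])
    have ga := gU (y := ((2120 : ℕ) : ℝ) / 10000) ua (by decide) ha he (nhalf (by decide))
    have g3 := gS4 kc (by decide) (by decide) ha he le_rfl hT
    push_cast at ga g3
    have h := piU1 crr_a_0_ub0 hN hA hcl hcp ce hx1
    have g0 := gU (be := 10000) (p := 2120) (G := 50847) (by decide +kernel) (by decide) le_rfl ce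
      (hx1.trans (nhalf (by decide)))
    unfold lin at h
    push_cast at h g0
    exact up_fin5 h gm (by linarith only [ha, ga, g0]) (by linarith only [g3, g0])

theorem srr_a_1 {xs s T ρ : ℝ} (hW : RWp.In ⟨1870 / 10000, 2370 / 10000, -(200 / 10000), 385 / 10000, 1670 / 10000, 2000 / 10000, 490 / 10000, 1045 / 10000, 4380 / 10000, 3560 / 10000, 370 / 10000, 980 / 10000, 22 / 10, 59 / 100⟩ xs s T ρ)
    (ha : ((2120 : ℕ) : ℝ) / 10000 ≤ xs) (he : xs ≤ ((2370 : ℕ) : ℝ) / 10000) :
    RampOK (65 / 100) (14 / 100) 1 4 xs (1 / 2 - s) T ρ (10 / 100) (27 / 100) := by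
  have hN : Nm 4370 3560 5052 10 22 700 1670 370 980 1380 1965 490 1045 xs s T ρ := by
    obtain ⟨-, -, w1, w2, w3, w4, w5, w6, w7, w8, w9, w10, w11, w12⟩ := hW
    dsimp only at w1 w2 w3 w4 w6 w7 w8 w9 w10 w11 w12
    push_cast at ha he
    exact ⟨by linarith only [ha, w5, w7], by linarith only [he, w5, w7], by push_cast; linarith only [w3], by norm_num, by push_cast; linarith only [he, w4],
      by norm_num, by push_cast; linarith only [w9], by norm_num, by push_cast; linarith only [he, w4, w5, w7, w11], by norm_num,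
      by push_cast; linarith only [he, w3], by push_cast; linarith only [ha, w4, w5, w7], by norm_num, by push_cast; linarith only [w1],
      by push_cast; linarith only [w2], by push_cast; linarith only [w6], by push_cast; linarith only [w7], w5,
      fun _ => by push_cast; linarith only [w10], by push_cast; linarith only [w11]⟩
  have hT : |T| ≤ ((385 : ℕ) : ℝ) / 10000 := by
    have w1 := hW.t0
    have w2 := hW.t1
    dsimp only at w1 w2
    rw [abs_le]
    push_cast
    constructor <;> linarith only [w1, w2]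
  have kc : kC4 10000 2120 2370 385 0 = true := by decide +kernel
  have ua : kU 10000 2120 50847 = true := by decide +kernel
  have hcl : (0 : ℝ) < 10 / 100 := by norm_num
  have hcp : (27 / 100 : ℝ) < 1 / 2 := by norm_num
  have h5 := hN.xs1.le
  refine ⟨fun x y hA => ?_, fun x y hA hx => ?_, fun x y hA hx => ?_⟩
  · have hx0 : ((1000 : ℕ) : ℝ) / 10000 ≤ x := le_trans (by norm_num) hA.x0
    have hx1 : x ≤ ((2700 : ℕ) : ℝ) / 10000 := le_trans hA.x1 (by norm_num)
    have x0 : 0 < x := (n0 (by decide)).trans_le hx0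
    rcases le_total x (((1100 : ℕ) : ℝ) / 10000) with c0 | c0
    · have h := piP crr_a_1_pl0 hN hA hcl hcp hx0 c0
      have g0 := gL (be := 10000) (p := 1100) (G := 92744) (by decide +kernel) x0 c0 le_rfl (by decide)
      have g1 := gL (be := 10000) (p := 1200) (G := 85340) (x := ((1100 : ℕ) : ℝ) / 10000) (by decide +kernel)
        (n0 (by decide)) (nle (by decide)) le_rfl (by decide)
      have g2 := gL (be := 10000) (p := 1350) (G := 76342) (x := ((1200 : ℕ) : ℝ) / 10000) (by decide +kernel)
        (n0 (by decide)) (nle (by decide)) le_rfl (by decide)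
      have g3 := gL (be := 10000) (p := 1500) (G := 69199) (x := ((1350 : ℕ) : ℝ) / 10000) (by decide +kernel)
        (n0 (by decide)) (nle (by decide)) le_rfl (by decide)
      have g4 := gL (be := 10000) (p := 1700) (G := 61715) (x := ((1500 : ℕ) : ℝ) / 10000) (by decide +kernel)
        (n0 (by decide)) (nle (by decide)) le_rfl (by decide)
      have g5 := gL (be := 10000) (p := 1900) (G := 55891) (x := ((1700 : ℕ) : ℝ) / 10000) (by decide +kernel)
        (n0 (by decide)) (nle (by decide)) le_rfl (by decide)
      have g6 := gL (be := 10000) (p := 2120) (G := 50846) (x := ((1900 : ℕ) : ℝ) / 10000) (by decide +kernel)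
        (n0 (by decide)) (nle (by decide)) le_rfl (by decide)
      have gm := gh_mono (x := ((2120 : ℕ) : ℝ) / 10000) (n0 (by decide)) ha h5
      unfold lin at h
      push_cast at h gm g0 g1 g2 g3 g4 g5 g6
      linarith only [neg_abs_le (gh x - gh xs), h, gm, g0, g1, g2, g3, g4, g5, g6]
    rcases le_total x (((1200 : ℕ) : ℝ) / 10000) with c1 | c1
    · have h := piP crr_a_1_pl1 hN hA hcl hcp c0 c1
      have g0 := gL (be := 10000) (p := 1200) (G := 85340) (by decide +kernel) x0 c1 le_rfl (by decide)
      have g1 := gL (be := 10000) (p := 1350) (G := 76342) (x := ((1200 : ℕ) : ℝ) / 10000) (by decide +kernel)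
        (n0 (by decide)) (nle (by decide)) le_rfl (by decide)
      have g2 := gL (be := 10000) (p := 1500) (G := 69199) (x := ((1350 : ℕ) : ℝ) / 10000) (by decide +kernel)
        (n0 (by decide)) (nle (by decide)) le_rfl (by decide)
      have g3 := gL (be := 10000) (p := 1700) (G := 61715) (x := ((1500 : ℕ) : ℝ) / 10000) (by decide +kernel)
        (n0 (by decide)) (nle (by decide)) le_rfl (by decide)
      have g4 := gL (be := 10000) (p := 1900) (G := 55891) (x := ((1700 : ℕ) : ℝ) / 10000) (by decide +kernel)
        (n0 (by decide)) (nle (by decide)) le_rfl (by decide)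
      have g5 := gL (be := 10000) (p := 2120) (G := 50846) (x := ((1900 : ℕ) : ℝ) / 10000) (by decide +kernel)
        (n0 (by decide)) (nle (by decide)) le_rfl (by decide)
      have gm := gh_mono (x := ((2120 : ℕ) : ℝ) / 10000) (n0 (by decide)) ha h5
      unfold lin at h
      push_cast at h gm g0 g1 g2 g3 g4 g5
      linarith only [neg_abs_le (gh x - gh xs), h, gm, g0, g1, g2, g3, g4, g5]
    rcases le_total x (((1350 : ℕ) : ℝ) / 10000) with c2 | c2
    · have h := piP crr_a_1_pl2 hN hA hcl hcp c1 c2
      have g0 := gL (be := 10000) (p := 1350) (G := 76342) (by decide +kernel) x0 c2 le_rfl (by decide)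
      have g1 := gL (be := 10000) (p := 1500) (G := 69199) (x := ((1350 : ℕ) : ℝ) / 10000) (by decide +kernel)
        (n0 (by decide)) (nle (by decide)) le_rfl (by decide)
      have g2 := gL (be := 10000) (p := 1700) (G := 61715) (x := ((1500 : ℕ) : ℝ) / 10000) (by decide +kernel)
        (n0 (by decide)) (nle (by decide)) le_rfl (by decide)
      have g3 := gL (be := 10000) (p := 1900) (G := 55891) (x := ((1700 : ℕ) : ℝ) / 10000) (by decide +kernel)
        (n0 (by decide)) (nle (by decide)) le_rfl (by decide)
      have g4 := gL (be := 10000) (p := 2120) (G := 50846) (x := ((1900 : ℕ) : ℝ) / 10000) (by decide +kernel)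
        (n0 (by decide)) (nle (by decide)) le_rfl (by decide)
      have gm := gh_mono (x := ((2120 : ℕ) : ℝ) / 10000) (n0 (by decide)) ha h5
      unfold lin at h
      push_cast at h gm g0 g1 g2 g3 g4
      linarith only [neg_abs_le (gh x - gh xs), h, gm, g0, g1, g2, g3, g4]
    rcases le_total x (((1500 : ℕ) : ℝ) / 10000) with c3 | c3
    · have h := piP crr_a_1_pl3 hN hA hcl hcp c2 c3
      have g0 := gL (be := 10000) (p := 1500) (G := 69199) (by decide +kernel) x0 c3 le_rfl (by decide)
      have g1 := gL (be := 10000) (p := 1700) (G := 61715) (x := ((1500 : ℕ) : ℝ) / 10000) (by decide +kernel)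
        (n0 (by decide)) (nle (by decide)) le_rfl (by decide)
      have g2 := gL (be := 10000) (p := 1900) (G := 55891) (x := ((1700 : ℕ) : ℝ) / 10000) (by decide +kernel)
        (n0 (by decide)) (nle (by decide)) le_rfl (by decide)
      have g3 := gL (be := 10000) (p := 2120) (G := 50846) (x := ((1900 : ℕ) : ℝ) / 10000) (by decide +kernel)
        (n0 (by decide)) (nle (by decide)) le_rfl (by decide)
      have gm := gh_mono (x := ((2120 : ℕ) : ℝ) / 10000) (n0 (by decide)) ha h5
      unfold lin at h
      push_cast at h gm g0 g1 g2 g3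
      linarith only [neg_abs_le (gh x - gh xs), h, gm, g0, g1, g2, g3]
    rcases le_total x (((1700 : ℕ) : ℝ) / 10000) with c4 | c4
    · have h := piP crr_a_1_pl4 hN hA hcl hcp c3 c4
      have g0 := gL (be := 10000) (p := 1700) (G := 61715) (by decide +kernel) x0 c4 le_rfl (by decide)
      have g1 := gL (be := 10000) (p := 1900) (G := 55891) (x := ((1700 : ℕ) : ℝ) / 10000) (by decide +kernel)
        (n0 (by decide)) (nle (by decide)) le_rfl (by decide)
      have g2 := gL (be := 10000) (p := 2120) (G := 50846) (x := ((1900 : ℕ) : ℝ) / 10000) (by decide +kernel)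
        (n0 (by decide)) (nle (by decide)) le_rfl (by decide)
      have gm := gh_mono (x := ((2120 : ℕ) : ℝ) / 10000) (n0 (by decide)) ha h5
      unfold lin at h
      push_cast at h gm g0 g1 g2
      linarith only [neg_abs_le (gh x - gh xs), h, gm, g0, g1, g2]
    rcases le_total x (((1900 : ℕ) : ℝ) / 10000) with c5 | c5
    · have h := piP crr_a_1_pl5 hN hA hcl hcp c4 c5
      have g0 := gL (be := 10000) (p := 1900) (G := 55891) (by decide +kernel) x0 c5 le_rfl (by decide)
      have g1 := gL (be := 10000) (p := 2120) (G := 50846) (x := ((1900 : ℕ) : ℝ) / 10000) (by decide +kernel)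
        (n0 (by decide)) (nle (by decide)) le_rfl (by decide)
      have gm := gh_mono (x := ((2120 : ℕ) : ℝ) / 10000) (n0 (by decide)) ha h5
      unfold lin at h
      push_cast at h gm g0 g1
      linarith only [neg_abs_le (gh x - gh xs), h, gm, g0, g1]
    rcases le_total x (((2120 : ℕ) : ℝ) / 10000) with c6 | c6
    · have h := piP crr_a_1_pl6 hN hA hcl hcp c5 c6
      have g0 := gL (be := 10000) (p := 2120) (G := 50846) (by decide +kernel) x0 c6 le_rfl (by decide)
      have gm := gh_mono (x := ((2120 : ℕ) : ℝ) / 10000) (n0 (by decide)) ha h5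
      unfold lin at h
      push_cast at h gm g0
      linarith only [neg_abs_le (gh x - gh xs), h, gm, g0]
    rcases le_total x (((2370 : ℕ) : ℝ) / 10000) with ce | ce
    · have h := piP crr_a_1_pm hN hA hcl hcp c6 ce
      unfold lin at h
      push_cast at h
      linarith only [abs_nonneg (gh x - gh xs), h]
    have gm := gh_mono (y := ((2370 : ℕ) : ℝ) / 10000) hN.xs0 he (nhalf (by decide))
    have h := piP crr_a_1_pr0 hN hA hcl hcp ce hx1
    have g0 := gL (be := 10000) (p := 2700) (G := 41881) (x := ((2370 : ℕ) : ℝ) / 10000) (by decide +kernel)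
      (n0 (by decide)) ce hx1 (by decide)
    unfold lin at h
    push_cast at h gm g0
    linarith only [le_abs_self (gh x - gh xs), h, gm, g0]
  · have hx0 : ((1000 : ℕ) : ℝ) / 10000 ≤ x := le_trans (by norm_num) hA.x0
    have hx1 : x ≤ ((2700 : ℕ) : ℝ) / 10000 := le_trans hA.x1 (by norm_num)
    have gm := gh_mono ((n0 (by decide)).trans_le hx0) hx.le h5
    have ga := gU ua (by decide) le_rfl ha h5
    have g3 := gS4 kc (by decide) (by decide) le_rfl ha he hT
    push_cast at ga g3
    rcases le_total x (((1300 : ℕ) : ℝ) / 10000) with c0 | c0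
    · have h := piD1 crr_a_1_db0 hN hA hcl hcp (by decide) hx0 c0 ha
      have g0 := gU (be := 10000) (p := 1000) (G := 101665) (by decide +kernel) (by decide) hx0 c0
        (nhalf (by decide))
      have k1 := gU (be := 10000) (p := 1300) (G := 79104) (y := ((1700 : ℕ) : ℝ) / 10000) (by decide +kernel)
        (by decide) le_rfl (nle (by decide)) (nhalf (by decide))
      have k2 := gU (be := 10000) (p := 1700) (G := 61716) (y := ((2120 : ℕ) : ℝ) / 10000) (by decide +kernel)
        (by decide) le_rfl (nle (by decide)) (nhalf (by decide))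
      push_cast at h g0 k1 k2
      unfold lin at h
      push_cast at h
      exact dn_fin5 h gm (by linarith only [he, ga, g0, k1, k2]) (by linarith only [g3, g0, k1, k2])
    rcases le_total x (((1700 : ℕ) : ℝ) / 10000) with c1 | c1
    · have h := piD1 crr_a_1_db1 hN hA hcl hcp (by decide) c0 c1 ha
      have g0 := gU (be := 10000) (p := 1300) (G := 79104) (by decide +kernel) (by decide) c0 c1
        (nhalf (by decide))
      have k1 := gU (be := 10000) (p := 1700) (G := 61716) (y := ((2120 : ℕ) : ℝ) / 10000) (by decide +kernel)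
        (by decide) le_rfl (nle (by decide)) (nhalf (by decide))
      push_cast at h g0 k1
      unfold lin at h
      push_cast at h
      exact dn_fin5 h gm (by linarith only [he, ga, g0, k1]) (by linarith only [g3, g0, k1])
    rcases le_total x (((2120 : ℕ) : ℝ) / 10000) with c2 | c2
    · have h := piD1 crr_a_1_db2 hN hA hcl hcp (by decide) c1 c2 ha
      have g0 := gU (be := 10000) (p := 1700) (G := 61716) (by decide +kernel) (by decide) c1 c2
        (nhalf (by decide))
      push_cast at h g0
      unfold lin at h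
      push_cast at h
      exact dn_fin5 h gm (by linarith only [he, ga, g0]) (by linarith only [g3, g0])
    have h := piD0 crr_a_1_da hN hA hcl hcp (by decide) c2 (hx.le.trans he) hx.le
    have g1 := gU ua (by decide) c2 hx.le h5
    have g4 := gS4 kc (by decide) (by decide) c2 hx.le he hT
    unfold lin at h
    push_cast at h g1 g4
    exact dn_fin5 h gm (by linarith only [he, g1]) (by linarith only [g4])
  · have hx0 : ((1000 : ℕ) : ℝ) / 10000 ≤ x := le_trans (by norm_num) hA.x0
    have hx1 : x ≤ ((2700 : ℕ) : ℝ) / 10000 := le_trans hA.x1 (by norm_num)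
    have gm := gh_mono hN.xs0 hx.le (hx1.trans (nhalf (by decide)))
    rcases le_total x (((2370 : ℕ) : ℝ) / 10000) with ce | ce
    · have h := piU0 crr_a_1_ua hN hA hcl hcp (ha.trans hx.le) ce
      have g1 := gU ua (by decide) ha hx.le (hx1.trans (nhalf (by decide)))
      have g3 := gS4 kc (by decide) (by decide) ha hx.le ce hT
      unfold lin at h
      push_cast at h g1 g3
      exact up_fin5 h gm (by linarith only [ha, g1]) (by linarith only [g3])
    have ga := gU (y := ((2370 : ℕ) : ℝ) / 10000) ua (by decide) ha he (nhalf (by decide))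
    have g3 := gS4 kc (by decide) (by decide) ha he le_rfl hT
    push_cast at ga g3
    have h := piU1 crr_a_1_ub0 hN hA hcl hcp ce hx1
    have g0 := gU (be := 10000) (p := 2370) (G := 46361) (by decide +kernel) (by decide) le_rfl ce
      (hx1.trans (nhalf (by decide)))
    unfold lin at h
    push_cast at h g0
    exact up_fin5 h gm (by linarith only [ha, ga, g0]) (by linarith only [g3, g0])

end RQ4

namespace RC

theorem i4_rr_a : RowI
    ⟨1870 / 10000, 2370 / 10000, -(200 / 10000), 385 / 10000, 1670 / 10000, 2000 / 10000, 490 / 10000, 1045 / 10000, 4380 / 10000, 3560 / 10000, 370 / 10000, 980 / 10000, 22 / 10, 59 / 100⟩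
    4 (65 / 100) (14 / 100) 1 (10 / 100) (27 / 100) := by
  intro xs s T ρ hW
  have h0 : ((1870 : ℕ) : ℝ) / 10000 ≤ xs := le_trans (by norm_num) hW.x0
  have h1 : xs ≤ ((2370 : ℕ) : ℝ) / 10000 := by
    obtain ⟨-, w0, -, -, w3, -, -, -, w7, w8, w9, -, -, -⟩ := hW
    dsimp only at w0 w3 w7 w8 w9
    push_cast
    linarith only [w0]
  rcases le_total xs (((2120 : ℕ) : ℝ) / 10000) with k0 | k0
  · exact RQ4.srr_a_0 hW h0 k0
  exact RQ4.srr_a_1 hW k0 h1

end RC

end Pool.Agent.Work.MP_b30479_gtS.G2

end

section

/-!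
# Rings with the ring variable on the ramp, `b = 4`, inside: rows rr_b
-/

set_option deprecated.oldSectionVars true

namespace Pool.Agent.Work.MP_b30479_gtS.G2

open Real NumIs

namespace RQ4

open RC RQ

theorem srr_b_0 {xs s T ρ : ℝ} (hW : RWp.In ⟨1870 / 10000, 2370 / 10000, -(200 / 10000), 385 / 10000, 2000 / 10000, 2130 / 10000, 490 / 10000, 1045 / 10000, 4380 / 10000, 3560 / 10000, 370 / 10000, 980 / 10000, 22 / 10, 59 / 100⟩ xs s T ρ)
    (ha : ((1870 : ℕ) : ℝ) / 10000 ≤ xs) (he : xs ≤ ((2120 : ℕ) : ℝ) / 10000) :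
    RampOK (65 / 100) (14 / 100) (11 / 10) 4 xs (1 / 2 - s) T ρ (10 / 100) (27 / 100) := by
  have hN : Nm 4250 3560 4802 10 22 260 2000 370 980 1380 1965 490 1045 xs s T ρ := by
    obtain ⟨-, -, w1, w2, w3, w4, w5, w6, w7, w8, w9, w10, w11, w12⟩ := hW
    dsimp only at w1 w2 w3 w4 w6 w7 w8 w9 w10 w11 w12
    push_cast at ha he
    exact ⟨by linarith only [ha, w5, w7], by linarith only [he, w5, w7], by push_cast; linarith only [w3], by norm_num, by push_cast; linarith only [he, w4],
      by norm_num, by push_cast; linarith only [w9], by norm_num, by push_cast; linarith only [he, w4, w5, w7, w11], by norm_num,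
      by push_cast; linarith only [he, w3, w5, w7], by push_cast; linarith only [ha, w4], by norm_num, by push_cast; linarith only [w1],
      by push_cast; linarith only [w2], by push_cast; linarith only [w6], by push_cast; linarith only [w7], w5,
      fun _ => by push_cast; linarith only [w10], by push_cast; linarith only [w11]⟩
  have hT : |T| ≤ ((385 : ℕ) : ℝ) / 10000 := by
    have w1 := hW.t0
    have w2 := hW.t1
    dsimp only at w1 w2
    rw [abs_le]
    push_cast
    constructor <;> linarith only [w1, w2]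
  have kc : kC4 11000 1870 2120 385 0 = true := by decide +kernel
  have ua : kU 11000 1870 62349 = true := by decide +kernel
  have hcl : (0 : ℝ) < 10 / 100 := by norm_num
  have hcp : (27 / 100 : ℝ) < 1 / 2 := by norm_num
  have h5 := hN.xs1.le
  refine ⟨fun x y hA => ?_, fun x y hA hx => ?_, fun x y hA hx => ?_⟩
  · have hx0 : ((1000 : ℕ) : ℝ) / 10000 ≤ x := le_trans (by norm_num) hA.x0
    have hx1 : x ≤ ((2700 : ℕ) : ℝ) / 10000 := le_trans hA.x1 (by norm_num)
    have x0 : 0 < x := (n0 (by decide)).trans_le hx0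
    rcases le_total x (((1100 : ℕ) : ℝ) / 10000) with c0 | c0
    · have h := piP crr_b_0_pl0 hN hA hcl hcp hx0 c0
      have g0 := gL (be := 11000) (p := 1100) (G := 102018) (by decide +kernel) x0 c0 le_rfl (by decide)
      have g1 := gL (be := 11000) (p := 1200) (G := 93874) (x := ((1100 : ℕ) : ℝ) / 10000) (by decide +kernel)
        (n0 (by decide)) (nle (by decide)) le_rfl (by decide)
      have g2 := gL (be := 11000) (p := 1300) (G := 87014) (x := ((1200 : ℕ) : ℝ) / 10000) (by decide +kernel)
        (n0 (by decide)) (nle (by decide)) le_rfl (by decide)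
      have g3 := gL (be := 11000) (p := 1400) (G := 81162) (x := ((1300 : ℕ) : ℝ) / 10000) (by decide +kernel)
        (n0 (by decide)) (nle (by decide)) le_rfl (by decide)
      have g4 := gL (be := 11000) (p := 1500) (G := 76119) (x := ((1400 : ℕ) : ℝ) / 10000) (by decide +kernel)
        (n0 (by decide)) (nle (by decide)) le_rfl (by decide)
      have g5 := gL (be := 11000) (p := 1600) (G := 71732) (x := ((1500 : ℕ) : ℝ) / 10000) (by decide +kernel)
        (n0 (by decide)) (nle (by decide)) le_rfl (by decide)
      have g6 := gL (be := 11000) (p := 1700) (G := 67887) (x := ((1600 : ℕ) : ℝ) / 10000) (by decide +kernel)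
        (n0 (by decide)) (nle (by decide)) le_rfl (by decide)
      have g7 := gL (be := 11000) (p := 1800) (G := 64493) (x := ((1700 : ℕ) : ℝ) / 10000) (by decide +kernel)
        (n0 (by decide)) (nle (by decide)) le_rfl (by decide)
      have g8 := gL (be := 11000) (p := 1870) (G := 62348) (x := ((1800 : ℕ) : ℝ) / 10000) (by decide +kernel)
        (n0 (by decide)) (nle (by decide)) le_rfl (by decide)
      have gm := gh_mono (x := ((1870 : ℕ) : ℝ) / 10000) (n0 (by decide)) ha h5
      unfold lin at h
      push_cast at h gm g0 g1 g2 g3 g4 g5 g6 g7 g8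
      linarith only [neg_abs_le (gh x - gh xs), h, gm, g0, g1, g2, g3, g4, g5, g6, g7, g8]
    rcases le_total x (((1200 : ℕ) : ℝ) / 10000) with c1 | c1
    · have h := piP crr_b_0_pl1 hN hA hcl hcp c0 c1
      have g0 := gL (be := 11000) (p := 1200) (G := 93874) (by decide +kernel) x0 c1 le_rfl (by decide)
      have g1 := gL (be := 11000) (p := 1300) (G := 87014) (x := ((1200 : ℕ) : ℝ) / 10000) (by decide +kernel)
        (n0 (by decide)) (nle (by decide)) le_rfl (by decide)
      have g2 := gL (be := 11000) (p := 1400) (G := 81162) (x := ((1300 : ℕ) : ℝ) / 10000) (by decide +kernel)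
        (n0 (by decide)) (nle (by decide)) le_rfl (by decide)
      have g3 := gL (be := 11000) (p := 1500) (G := 76119) (x := ((1400 : ℕ) : ℝ) / 10000) (by decide +kernel)
        (n0 (by decide)) (nle (by decide)) le_rfl (by decide)
      have g4 := gL (be := 11000) (p := 1600) (G := 71732) (x := ((1500 : ℕ) : ℝ) / 10000) (by decide +kernel)
        (n0 (by decide)) (nle (by decide)) le_rfl (by decide)
      have g5 := gL (be := 11000) (p := 1700) (G := 67887) (x := ((1600 : ℕ) : ℝ) / 10000) (by decide +kernel)
        (n0 (by decide)) (nle (by decide)) le_rfl (by decide)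
      have g6 := gL (be := 11000) (p := 1800) (G := 64493) (x := ((1700 : ℕ) : ℝ) / 10000) (by decide +kernel)
        (n0 (by decide)) (nle (by decide)) le_rfl (by decide)
      have g7 := gL (be := 11000) (p := 1870) (G := 62348) (x := ((1800 : ℕ) : ℝ) / 10000) (by decide +kernel)
        (n0 (by decide)) (nle (by decide)) le_rfl (by decide)
      have gm := gh_mono (x := ((1870 : ℕ) : ℝ) / 10000) (n0 (by decide)) ha h5
      unfold lin at h
      push_cast at h gm g0 g1 g2 g3 g4 g5 g6 g7
      linarith only [neg_abs_le (gh x - gh xs), h, gm, g0, g1, g2, g3, g4, g5, g6, g7]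
    rcases le_total x (((1300 : ℕ) : ℝ) / 10000) with c2 | c2
    · have h := piP crr_b_0_pl2 hN hA hcl hcp c1 c2
      have g0 := gL (be := 11000) (p := 1300) (G := 87014) (by decide +kernel) x0 c2 le_rfl (by decide)
      have g1 := gL (be := 11000) (p := 1400) (G := 81162) (x := ((1300 : ℕ) : ℝ) / 10000) (by decide +kernel)
        (n0 (by decide)) (nle (by decide)) le_rfl (by decide)
      have g2 := gL (be := 11000) (p := 1500) (G := 76119) (x := ((1400 : ℕ) : ℝ) / 10000) (by decide +kernel)
        (n0 (by decide)) (nle (by decide)) le_rfl (by decide)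
      have g3 := gL (be := 11000) (p := 1600) (G := 71732) (x := ((1500 : ℕ) : ℝ) / 10000) (by decide +kernel)
        (n0 (by decide)) (nle (by decide)) le_rfl (by decide)
      have g4 := gL (be := 11000) (p := 1700) (G := 67887) (x := ((1600 : ℕ) : ℝ) / 10000) (by decide +kernel)
        (n0 (by decide)) (nle (by decide)) le_rfl (by decide)
      have g5 := gL (be := 11000) (p := 1800) (G := 64493) (x := ((1700 : ℕ) : ℝ) / 10000) (by decide +kernel)
        (n0 (by decide)) (nle (by decide)) le_rfl (by decide)
      have g6 := gL (be := 11000) (p := 1870) (G := 62348) (x := ((1800 : ℕ) : ℝ) / 10000) (by decide +kernel)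
        (n0 (by decide)) (nle (by decide)) le_rfl (by decide)
      have gm := gh_mono (x := ((1870 : ℕ) : ℝ) / 10000) (n0 (by decide)) ha h5
      unfold lin at h
      push_cast at h gm g0 g1 g2 g3 g4 g5 g6
      linarith only [neg_abs_le (gh x - gh xs), h, gm, g0, g1, g2, g3, g4, g5, g6]
    rcases le_total x (((1400 : ℕ) : ℝ) / 10000) with c3 | c3
    · have h := piP crr_b_0_pl3 hN hA hcl hcp c2 c3
      have g0 := gL (be := 11000) (p := 1400) (G := 81162) (by decide +kernel) x0 c3 le_rfl (by decide)
      have g1 := gL (be := 11000) (p := 1500) (G := 76119) (x := ((1400 : ℕ) : ℝ) / 10000) (by decide +kernel)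
        (n0 (by decide)) (nle (by decide)) le_rfl (by decide)
      have g2 := gL (be := 11000) (p := 1600) (G := 71732) (x := ((1500 : ℕ) : ℝ) / 10000) (by decide +kernel)
        (n0 (by decide)) (nle (by decide)) le_rfl (by decide)
      have g3 := gL (be := 11000) (p := 1700) (G := 67887) (x := ((1600 : ℕ) : ℝ) / 10000) (by decide +kernel)
        (n0 (by decide)) (nle (by decide)) le_rfl (by decide)
      have g4 := gL (be := 11000) (p := 1800) (G := 64493) (x := ((1700 : ℕ) : ℝ) / 10000) (by decide +kernel)
        (n0 (by decide)) (nle (by decide)) le_rfl (by decide)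
      have g5 := gL (be := 11000) (p := 1870) (G := 62348) (x := ((1800 : ℕ) : ℝ) / 10000) (by decide +kernel)
        (n0 (by decide)) (nle (by decide)) le_rfl (by decide)
      have gm := gh_mono (x := ((1870 : ℕ) : ℝ) / 10000) (n0 (by decide)) ha h5
      unfold lin at h
      push_cast at h gm g0 g1 g2 g3 g4 g5
      linarith only [neg_abs_le (gh x - gh xs), h, gm, g0, g1, g2, g3, g4, g5]
    rcases le_total x (((1500 : ℕ) : ℝ) / 10000) with c4 | c4
    · have h := piP crr_b_0_pl4 hN hA hcl hcp c3 c4
      have g0 := gL (be := 11000) (p := 1500) (G := 76119) (by decide +kernel) x0 c4 le_rfl (by decide)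
      have g1 := gL (be := 11000) (p := 1600) (G := 71732) (x := ((1500 : ℕ) : ℝ) / 10000) (by decide +kernel)
        (n0 (by decide)) (nle (by decide)) le_rfl (by decide)
      have g2 := gL (be := 11000) (p := 1700) (G := 67887) (x := ((1600 : ℕ) : ℝ) / 10000) (by decide +kernel)
        (n0 (by decide)) (nle (by decide)) le_rfl (by decide)
      have g3 := gL (be := 11000) (p := 1800) (G := 64493) (x := ((1700 : ℕ) : ℝ) / 10000) (by decide +kernel)
        (n0 (by decide)) (nle (by decide)) le_rfl (by decide)
      have g4 := gL (be := 11000) (p := 1870) (G := 62348) (x := ((1800 : ℕ) : ℝ) / 10000) (by decide +kernel)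
        (n0 (by decide)) (nle (by decide)) le_rfl (by decide)
      have gm := gh_mono (x := ((1870 : ℕ) : ℝ) / 10000) (n0 (by decide)) ha h5
      unfold lin at h
      push_cast at h gm g0 g1 g2 g3 g4
      linarith only [neg_abs_le (gh x - gh xs), h, gm, g0, g1, g2, g3, g4]
    rcases le_total x (((1600 : ℕ) : ℝ) / 10000) with c5 | c5
    · have h := piP crr_b_0_pl5 hN hA hcl hcp c4 c5
      have g0 := gL (be := 11000) (p := 1600) (G := 71732) (by decide +kernel) x0 c5 le_rfl (by decide)
      have g1 := gL (be := 11000) (p := 1700) (G := 67887) (x := ((1600 : ℕ) : ℝ) / 10000) (by decide +kernel)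
        (n0 (by decide)) (nle (by decide)) le_rfl (by decide)
      have g2 := gL (be := 11000) (p := 1800) (G := 64493) (x := ((1700 : ℕ) : ℝ) / 10000) (by decide +kernel)
        (n0 (by decide)) (nle (by decide)) le_rfl (by decide)
      have g3 := gL (be := 11000) (p := 1870) (G := 62348) (x := ((1800 : ℕ) : ℝ) / 10000) (by decide +kernel)
        (n0 (by decide)) (nle (by decide)) le_rfl (by decide)
      have gm := gh_mono (x := ((1870 : ℕ) : ℝ) / 10000) (n0 (by decide)) ha h5
      unfold lin at h
      push_cast at h gm g0 g1 g2 g3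
      linarith only [neg_abs_le (gh x - gh xs), h, gm, g0, g1, g2, g3]
    rcases le_total x (((1700 : ℕ) : ℝ) / 10000) with c6 | c6
    · have h := piP crr_b_0_pl6 hN hA hcl hcp c5 c6
      have g0 := gL (be := 11000) (p := 1700) (G := 67887) (by decide +kernel) x0 c6 le_rfl (by decide)
      have g1 := gL (be := 11000) (p := 1800) (G := 64493) (x := ((1700 : ℕ) : ℝ) / 10000) (by decide +kernel)
        (n0 (by decide)) (nle (by decide)) le_rfl (by decide)
      have g2 := gL (be := 11000) (p := 1870) (G := 62348) (x := ((1800 : ℕ) : ℝ) / 10000) (by decide +kernel)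
        (n0 (by decide)) (nle (by decide)) le_rfl (by decide)
      have gm := gh_mono (x := ((1870 : ℕ) : ℝ) / 10000) (n0 (by decide)) ha h5
      unfold lin at h
      push_cast at h gm g0 g1 g2
      linarith only [neg_abs_le (gh x - gh xs), h, gm, g0, g1, g2]
    rcases le_total x (((1800 : ℕ) : ℝ) / 10000) with c7 | c7
    · have h := piP crr_b_0_pl7 hN hA hcl hcp c6 c7
      have g0 := gL (be := 11000) (p := 1800) (G := 64493) (by decide +kernel) x0 c7 le_rfl (by decide)
      have g1 := gL (be := 11000) (p := 1870) (G := 62348) (x := ((1800 : ℕ) : ℝ) / 10000) (by decide +kernel)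
        (n0 (by decide)) (nle (by decide)) le_rfl (by decide)
      have gm := gh_mono (x := ((1870 : ℕ) : ℝ) / 10000) (n0 (by decide)) ha h5
      unfold lin at h
      push_cast at h gm g0 g1
      linarith only [neg_abs_le (gh x - gh xs), h, gm, g0, g1]
    rcases le_total x (((1870 : ℕ) : ℝ) / 10000) with c8 | c8
    · have h := piP crr_b_0_pl8 hN hA hcl hcp c7 c8
      have g0 := gL (be := 11000) (p := 1870) (G := 62348) (by decide +kernel) x0 c8 le_rfl (by decide)
      have gm := gh_mono (x := ((1870 : ℕ) : ℝ) / 10000) (n0 (by decide)) ha h5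
      unfold lin at h
      push_cast at h gm g0
      linarith only [neg_abs_le (gh x - gh xs), h, gm, g0]
    rcases le_total x (((2120 : ℕ) : ℝ) / 10000) with ce | ce
    · have h := piP crr_b_0_pm hN hA hcl hcp c8 ce
      unfold lin at h
      push_cast at h
      linarith only [abs_nonneg (gh x - gh xs), h]
    have gm := gh_mono (y := ((2120 : ℕ) : ℝ) / 10000) hN.xs0 he (nhalf (by decide))
    have h := piP crr_b_0_pr0 hN hA hcl hcp ce hx1
    have g0 := gL (be := 11000) (p := 2700) (G := 46069) (x := ((2120 : ℕ) : ℝ) / 10000) (by decide +kernel)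
      (n0 (by decide)) ce hx1 (by decide)
    unfold lin at h
    push_cast at h gm g0
    linarith only [le_abs_self (gh x - gh xs), h, gm, g0]
  · have hx0 : ((1000 : ℕ) : ℝ) / 10000 ≤ x := le_trans (by norm_num) hA.x0
    have hx1 : x ≤ ((2700 : ℕ) : ℝ) / 10000 := le_trans hA.x1 (by norm_num)
    have gm := gh_mono ((n0 (by decide)).trans_le hx0) hx.le h5
    have ga := gU ua (by decide) le_rfl ha h5
    have g3 := gS4 kc (by decide) (by decide) le_rfl ha he hT
    push_cast at ga g3
    rcases le_total x (((1300 : ℕ) : ℝ) / 10000) with c0 | c0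
    · have h := piD1 crr_b_0_db0 hN hA hcl hcp (by decide) hx0 c0 ha
      have g0 := gU (be := 11000) (p := 1000) (G := 111831) (by decide +kernel) (by decide) hx0 c0
        (nhalf (by decide))
      have k1 := gU (be := 11000) (p := 1300) (G := 87015) (y := ((1700 : ℕ) : ℝ) / 10000) (by decide +kernel)
        (by decide) le_rfl (nle (by decide)) (nhalf (by decide))
      have k2 := gU (be := 11000) (p := 1700) (G := 67888) (y := ((1870 : ℕ) : ℝ) / 10000) (by decide +kernel)
        (by decide) le_rfl (nle (by decide)) (nhalf (by decide))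
      push_cast at h g0 k1 k2
      unfold lin at h
      push_cast at h
      exact dn_fin5 h gm (by linarith only [he, ga, g0, k1, k2]) (by linarith only [g3, g0, k1, k2])
    rcases le_total x (((1700 : ℕ) : ℝ) / 10000) with c1 | c1
    · have h := piD1 crr_b_0_db1 hN hA hcl hcp (by decide) c0 c1 ha
      have g0 := gU (be := 11000) (p := 1300) (G := 87015) (by decide +kernel) (by decide) c0 c1
        (nhalf (by decide))
      have k1 := gU (be := 11000) (p := 1700) (G := 67888) (y := ((1870 : ℕ) : ℝ) / 10000) (by decide +kernel)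
        (by decide) le_rfl (nle (by decide)) (nhalf (by decide))
      push_cast at h g0 k1
      unfold lin at h
      push_cast at h
      exact dn_fin5 h gm (by linarith only [he, ga, g0, k1]) (by linarith only [g3, g0, k1])
    rcases le_total x (((1870 : ℕ) : ℝ) / 10000) with c2 | c2
    · have h := piD1 crr_b_0_db2 hN hA hcl hcp (by decide) c1 c2 ha
      have g0 := gU (be := 11000) (p := 1700) (G := 67888) (by decide +kernel) (by decide) c1 c2
        (nhalf (by decide))
      push_cast at h g0
      unfold lin at h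
      push_cast at h
      exact dn_fin5 h gm (by linarith only [he, ga, g0]) (by linarith only [g3, g0])
    have h := piD0 crr_b_0_da hN hA hcl hcp (by decide) c2 (hx.le.trans he) hx.le
    have g1 := gU ua (by decide) c2 hx.le h5
    have g4 := gS4 kc (by decide) (by decide) c2 hx.le he hT
    unfold lin at h
    push_cast at h g1 g4
    exact dn_fin5 h gm (by linarith only [he, g1]) (by linarith only [g4])
  · have hx0 : ((1000 : ℕ) : ℝ) / 10000 ≤ x := le_trans (by norm_num) hA.x0
    have hx1 : x ≤ ((2700 : ℕ) : ℝ) / 10000 := le_trans hA.x1 (by norm_num)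
    have gm := gh_mono hN.xs0 hx.le (hx1.trans (nhalf (by decide)))
    rcases le_total x (((2120 : ℕ) : ℝ) / 10000) with ce | ce
    · have h := piU0 crr_b_0_ua hN hA hcl hcp (ha.trans hx.le) ce
      have g1 := gU ua (by decide) ha hx.le (hx1.trans (nhalf (by decide)))
      have g3 := gS4 kc (by decide) (by decide) ha hx.le ce hT
      unfold lin at h
      push_cast at h g1 g3
      exact up_fin5 h gm (by linarith only [ha, g1]) (by linarith only [g3])
    have ga := gU (y := ((2120 : ℕ) : ℝ) / 10000) ua (by decide) ha he (nhalf (by decide))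
    have g3 := gS4 kc (by decide) (by decide) ha he le_rfl hT
    push_cast at ga g3
    have h := piU1 crr_b_0_ub0 hN hA hcl hcp ce hx1
    have g0 := gU (be := 11000) (p := 2120) (G := 55932) (by decide +kernel) (by decide) le_rfl ce
      (hx1.trans (nhalf (by decide)))
    unfold lin at h
    push_cast at h g0
    exact up_fin5 h gm (by linarith only [ha, ga, g0]) (by linarith only [g3, g0])

theorem srr_b_1 {xs s T ρ : ℝ} (hW : RWp.In ⟨1870 / 10000, 2370 / 10000, -(200 / 10000), 385 / 10000, 2000 / 10000, 2130 / 10000, 490 / 10000, 1045 / 10000, 4380 / 10000, 3560 / 10000, 370 / 10000, 980 / 10000, 22 / 10, 59 / 100⟩ xs s T ρ)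
    (ha : ((2120 : ℕ) : ℝ) / 10000 ≤ xs) (he : xs ≤ ((2370 : ℕ) : ℝ) / 10000) :
    RampOK (65 / 100) (14 / 100) (11 / 10) 4 xs (1 / 2 - s) T ρ (10 / 100) (27 / 100) := by
  have hN : Nm 4380 3560 5052 10 22 370 2000 370 980 1380 1965 560 1045 xs s T ρ := by
    obtain ⟨-, -, w1, w2, w3, w4, w5, w6, w7, w8, w9, w10, w11, w12⟩ := hW
    dsimp only at w1 w2 w3 w4 w6 w7 w8 w9 w10 w11 w12
    push_cast at ha he
    exact ⟨by linarith only [ha, w5, w7], by linarith only [he, w5, w7], by push_cast; linarith only [w3], by norm_num, by push_cast; linarith only [w8],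
      by norm_num, by push_cast; linarith only [w9], by norm_num, by push_cast; linarith only [he, w4, w5, w7, w11], by norm_num,
      by push_cast; linarith only [he, w3], by push_cast; linarith only [ha, w4, w5, w7], by norm_num, by push_cast; linarith only [w1],
      by push_cast; linarith only [w2], by push_cast; linarith only [ha, w3, w9], by push_cast; linarith only [w7], w5,
      fun _ => by push_cast; linarith only [w10], by push_cast; linarith only [w11]⟩
  have hT : |T| ≤ ((385 : ℕ) : ℝ) / 10000 := by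
    have w1 := hW.t0
    have w2 := hW.t1
    dsimp only at w1 w2
    rw [abs_le]
    push_cast
    constructor <;> linarith only [w1, w2]
  have kc : kC4 11000 2120 2370 385 0 = true := by decide +kernel
  have ua : kU 11000 2120 55932 = true := by decide +kernel
  have hcl : (0 : ℝ) < 10 / 100 := by norm_num
  have hcp : (27 / 100 : ℝ) < 1 / 2 := by norm_num
  have h5 := hN.xs1.le
  refine ⟨fun x y hA => ?_, fun x y hA hx => ?_, fun x y hA hx => ?_⟩
  · have hx0 : ((1000 : ℕ) : ℝ) / 10000 ≤ x := le_trans (by norm_num) hA.x0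
    have hx1 : x ≤ ((2700 : ℕ) : ℝ) / 10000 := le_trans hA.x1 (by norm_num)
    have x0 : 0 < x := (n0 (by decide)).trans_le hx0
    rcases le_total x (((1300 : ℕ) : ℝ) / 10000) with c0 | c0
    · have h := piP crr_b_1_pl0 hN hA hcl hcp hx0 c0
      have g0 := gL (be := 11000) (p := 1300) (G := 87014) (by decide +kernel) x0 c0 le_rfl (by decide)
      have g1 := gL (be := 11000) (p := 1700) (G := 67887) (x := ((1300 : ℕ) : ℝ) / 10000) (by decide +kernel)
        (n0 (by decide)) (nle (by decide)) le_rfl (by decide)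
      have g2 := gL (be := 11000) (p := 2120) (G := 55931) (x := ((1700 : ℕ) : ℝ) / 10000) (by decide +kernel)
        (n0 (by decide)) (nle (by decide)) le_rfl (by decide)
      have gm := gh_mono (x := ((2120 : ℕ) : ℝ) / 10000) (n0 (by decide)) ha h5
      unfold lin at h
      push_cast at h gm g0 g1 g2
      linarith only [neg_abs_le (gh x - gh xs), h, gm, g0, g1, g2]
    rcases le_total x (((1700 : ℕ) : ℝ) / 10000) with c1 | c1
    · have h := piP crr_b_1_pl1 hN hA hcl hcp c0 c1
      have g0 := gL (be := 11000) (p := 1700) (G := 67887) (by decide +kernel) x0 c1 le_rfl (by decide)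
      have g1 := gL (be := 11000) (p := 2120) (G := 55931) (x := ((1700 : ℕ) : ℝ) / 10000) (by decide +kernel)
        (n0 (by decide)) (nle (by decide)) le_rfl (by decide)
      have gm := gh_mono (x := ((2120 : ℕ) : ℝ) / 10000) (n0 (by decide)) ha h5
      unfold lin at h
      push_cast at h gm g0 g1
      linarith only [neg_abs_le (gh x - gh xs), h, gm, g0, g1]
    rcases le_total x (((2120 : ℕ) : ℝ) / 10000) with c2 | c2
    · have h := piP crr_b_1_pl2 hN hA hcl hcp c1 c2
      have g0 := gL (be := 11000) (p := 2120) (G := 55931) (by decide +kernel) x0 c2 le_rfl (by decide)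
      have gm := gh_mono (x := ((2120 : ℕ) : ℝ) / 10000) (n0 (by decide)) ha h5
      unfold lin at h
      push_cast at h gm g0
      linarith only [neg_abs_le (gh x - gh xs), h, gm, g0]
    rcases le_total x (((2370 : ℕ) : ℝ) / 10000) with ce | ce
    · have h := piP crr_b_1_pm hN hA hcl hcp c2 ce
      unfold lin at h
      push_cast at h
      linarith only [abs_nonneg (gh x - gh xs), h]
    have gm := gh_mono (y := ((2370 : ℕ) : ℝ) / 10000) hN.xs0 he (nhalf (by decide))
    have h := piP crr_b_1_pr0 hN hA hcl hcp ce hx1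
    have g0 := gL (be := 11000) (p := 2700) (G := 46069) (x := ((2370 : ℕ) : ℝ) / 10000) (by decide +kernel)
      (n0 (by decide)) ce hx1 (by decide)
    unfold lin at h
    push_cast at h gm g0
    linarith only [le_abs_self (gh x - gh xs), h, gm, g0]
  · have hx0 : ((1000 : ℕ) : ℝ) / 10000 ≤ x := le_trans (by norm_num) hA.x0
    have hx1 : x ≤ ((2700 : ℕ) : ℝ) / 10000 := le_trans hA.x1 (by norm_num)
    have gm := gh_mono ((n0 (by decide)).trans_le hx0) hx.le h5
    have ga := gU ua (by decide) le_rfl ha h5
    have g3 := gS4 kc (by decide) (by decide) le_rfl ha he hT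
    push_cast at ga g3
    rcases le_total x (((1500 : ℕ) : ℝ) / 10000) with c0 | c0
    · have h := piD1 crr_b_1_db0 hN hA hcl hcp (by decide) hx0 c0 ha
      have g0 := gU (be := 11000) (p := 1000) (G := 111831) (by decide +kernel) (by decide) hx0 c0
        (nhalf (by decide))
      have k1 := gU (be := 11000) (p := 1500) (G := 76120) (y := ((2120 : ℕ) : ℝ) / 10000) (by decide +kernel)
        (by decide) le_rfl (nle (by decide)) (nhalf (by decide))
      push_cast at h g0 k1
      unfold lin at h
      push_cast at h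
      exact dn_fin5 h gm (by linarith only [he, ga, g0, k1]) (by linarith only [g3, g0, k1])
    rcases le_total x (((2120 : ℕ) : ℝ) / 10000) with c1 | c1
    · have h := piD1 crr_b_1_db1 hN hA hcl hcp (by decide) c0 c1 ha
      have g0 := gU (be := 11000) (p := 1500) (G := 76120) (by decide +kernel) (by decide) c0 c1
        (nhalf (by decide))
      push_cast at h g0
      unfold lin at h
      push_cast at h
      exact dn_fin5 h gm (by linarith only [he, ga, g0]) (by linarith only [g3, g0])
    have h := piD0 crr_b_1_da hN hA hcl hcp (by decide) c1 (hx.le.trans he) hx.le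
    have g1 := gU ua (by decide) c1 hx.le h5
    have g4 := gS4 kc (by decide) (by decide) c1 hx.le he hT
    unfold lin at h
    push_cast at h g1 g4
    exact dn_fin5 h gm (by linarith only [he, g1]) (by linarith only [g4])
  · have hx0 : ((1000 : ℕ) : ℝ) / 10000 ≤ x := le_trans (by norm_num) hA.x0
    have hx1 : x ≤ ((2700 : ℕ) : ℝ) / 10000 := le_trans hA.x1 (by norm_num)
    have gm := gh_mono hN.xs0 hx.le (hx1.trans (nhalf (by decide)))
    rcases le_total x (((2370 : ℕ) : ℝ) / 10000) with ce | ce
    · have h := piU0 crr_b_1_ua hN hA hcl hcp (ha.trans hx.le) ce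
      have g1 := gU ua (by decide) ha hx.le (hx1.trans (nhalf (by decide)))
      have g3 := gS4 kc (by decide) (by decide) ha hx.le ce hT
      unfold lin at h
      push_cast at h g1 g3
      exact up_fin5 h gm (by linarith only [ha, g1]) (by linarith only [g3])
    have ga := gU (y := ((2370 : ℕ) : ℝ) / 10000) ua (by decide) ha he (nhalf (by decide))
    have g3 := gS4 kc (by decide) (by decide) ha he le_rfl hT
    push_cast at ga g3
    have h := piU1 crr_b_1_ub0 hN hA hcl hcp ce hx1
    have g0 := gU (be := 11000) (p := 2370) (G := 50997) (by decide +kernel) (by decide) le_rfl ce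
      (hx1.trans (nhalf (by decide)))
    unfold lin at h
    push_cast at h g0
    exact up_fin5 h gm (by linarith only [ha, ga, g0]) (by linarith only [g3, g0])

end RQ4

namespace RC

theorem i4_rr_b : RowI
    ⟨1870 / 10000, 2370 / 10000, -(200 / 10000), 385 / 10000, 2000 / 10000, 2130 / 10000, 490 / 10000, 1045 / 10000, 4380 / 10000, 3560 / 10000, 370 / 10000, 980 / 10000, 22 / 10, 59 / 100⟩
    4 (65 / 100) (14 / 100) (11 / 10) (10 / 100) (27 / 100) := by
  intro xs s T ρ hW
  have h0 : ((1870 : ℕ) : ℝ) / 10000 ≤ xs := le_trans (by norm_num) hW.x0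
  have h1 : xs ≤ ((2370 : ℕ) : ℝ) / 10000 := by
    obtain ⟨-, w0, -, -, w3, -, -, -, w7, w8, w9, -, -, -⟩ := hW
    dsimp only at w0 w3 w7 w8 w9
    push_cast
    linarith only [w0]
  rcases le_total xs (((2120 : ℕ) : ℝ) / 10000) with k0 | k0
  · exact RQ4.srr_b_0 hW h0 k0
  exact RQ4.srr_b_1 hW k0 h1

end RC

end Pool.Agent.Work.MP_b30479_gtS.G2

end
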