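import Pool.Agent.Work.MP_b30479_gt.TBS.G2.RZ1

section

/-!
# Rings with the ring variable on the ramp, `b = 4`: certificates, one_a, one_b
-/

set_option deprecated.oldSectionVars true

namespace Pool.Agent.Work.MP_b30479_gtS.G2

open NumIs

namespace RQ4

theorem cone_a_0_pl0 : okB 10000
    (tP 4 1 65 100 4615 4150 4615 0 1 9483 0 0 48373 960 1861)
    0 1580 0 0 40 1600 2250 300 1200 1250 2500 330 850
    0x74a80a602e95014c0407a7403d017498081009870102e930174e808074e803a0201d2a02e9d00000332601e87010004d0e00040fa740752a0305d3a03015264c000c174e80ea54060ba740602a5406080cc68700036808101 = true := by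
  decide +kernel

theorem cone_a_0_pm : okB 10000
    (tP 4 1 65 100 4615 4150 4615 0 1 0 1400 0 0 960 1861)
    0 1580 0 0 40 2250 2615 300 1200 1250 2500 330 850
    0x54a806a02680aa7c075260202d0103a9501d4a80c0d4a80c134680c10168d00b4040aa540752a030352a03a9500830352a03a95018104d1a0168f008304d1a036808101 = true := by
  decide +kernel

theorem cone_a_0_pr0 : okB 10000
    (tP 4 1 65 100 4615 4150 4615 0 1 0 10480 34720 0 960 1861)
    0 1580 0 0 40 2615 3600 300 1200 1250 2500 330 850
    0x3c7801e0178f00bc780400078f003c02f1e00780403c7805e0178f00bc7800080000de3c78001bc78f000378f01810009e3404d013468d0003780800278f1e0006f1e0302f1e0304f1a0204f1e0378f018078f018278f01bc04f1e03780808168f01bc0408001 = true := by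
  decide +kernel

theorem cone_a_0_db0 : okB 10000
    (tD 1 4 1 65 100 4615 4150 4615 0 1 1510 2250 0 15039 65212 0 0 13327 65212 0 960 1861)
    0 1580 0 0 40 1600 2250 300 1200 1250 2500 330 850
    0x55da02a82abb40550405e82dbb406d0756a8305552837a08100dbb40550556a8005b7682dbb416d04076d5040803dab5403d0400101 = true := by
  decide +kernel

theorem cone_a_0_da : okB 10000
    (tD 0 4 1 65 100 4615 4150 4615 0 1 1510 0 0 11250 48374 0 1346 0 0 0 960 1861)
    0 1580 0 0 40 2250 2615 300 1200 1250 2500 330 850
    0x156a827a09e82ab5403d04f4101 = true := by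
  decide +kernel

theorem cone_a_0_ua : okB 10000
    (tU 0 4 1 65 100 4615 4150 4615 0 1 1105 0 12284 0 0 48374 1346 0 0 0 960 1861)
    0 1580 0 0 40 2250 2615 300 1200 1250 2500 330 850
    0x559c0ead50606a55aa0418168d01826870102ab540b404d0154aa05b026808181 = true := by
  decide +kernel

theorem cone_a_0_ub0 : okB 10000
    (tU 1 4 1 65 100 4615 4150 4615 0 1 1105 2615 10854 0 0 42908 12566 0 0 42908 960 1861)
    0 1580 0 0 40 2615 3000 300 1200 1250 2500 330 850
    0x3d6809eb40405ebc0405ebc04f5e020205a3402d01027ad017c06f5e0278d010002f5e007a05e3400080b46805a0204f5e807a05e3400f408278d00340408083 = true := by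
  decide +kernel

theorem cone_a_0_ub1 : okB 10000
    (tU 1 4 1 65 100 4615 4150 4615 0 1 1105 2615 9632 0 0 38833 11343 0 0 38833 960 1861)
    0 1580 0 0 40 3000 3600 300 1200 1250 2500 330 850
    0x156ad5040eafcabf01810756a80aa080d5aa08055aa0807c060eabd0154155ab54103af54057ae0817caf5eb800407e570200183ab5eb820600181ab55e800756a82ab5c1d5af54003040ead7ae08181ab5ea810600181aaf40d57a02a81aa041d5aa0aad405540fcaa06a81a9500d40008183f95ea81af50102f95eb8203f2bfcae04101f80c18303f2bfc075eb820204003ab56bd7040eb810756ad7ae081d7015c0830406a5405540d503f2bd60406bd70404180060aad50755e80af5c103ab5de8006041d57a02abd015eb82aa001830556a82aaf4057aa05f80060ead5aefc00306080817af40bd7a01e8106f5e80aa040bd7809e817af408104f5e827a02a3c0409ebd01541017af413d7a08081f956b027af0100035eb827af0100035df827af4101020c1807af0054a8081d47802a02f80ea3c0153e56020ea00a8001d4a8f0054040c1010756a3d0152b03a80ab81a950080a800183a952b5402f800306080b4780da0279f2a0106f2b0302f1e0100f1f3e6800083040c155ab5eb82aa001837b56a4c04f00030609ebd0556bbd000ded77a0018206040bc7805a027af003c0405e3c00f015678080bc680013d7809e027af0101020c002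 = true := by
  decide +kernel

theorem cone_a_1_pl0 : okB 10000
    (tP 4 1 65 100 4826 4150 4826 0 1 9820 0 0 42907 960 1861)
    0 1580 0 0 40 1600 2615 300 1200 1250 2500 330 850
    0x54a802602980aa540730101680aa5402d1e0104f0154a80660200d0101e9d00cc0470174e8066023808074980ba4c04026020202a1e05f01d4a80e6020352a01a80a70203d3a0058b0002380ba740070101015ab03a8f01540007a740002a5402d0e0004080b46804e1c0201a340208103 = true := by
  decide +kernel

theorem cone_a_1_pm : okB 10000
    (tP 4 1 65 100 4826 4150 4826 0 1 0 1400 0 0 960 1861)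
    0 1580 0 0 40 2615 2980 300 1200 1250 2500 330 850
    0xf1a027805a0278f00b40405a340209e7c06f1f0302f1e01ac080bc7805e3c02001346805a02040de3c0752b0306d1e030552a03a95818378f018202f1e017808101 = true := by
  decide +kernel

theorem cone_a_1_pr0 : okB 10000
    (tP 4 1 65 100 4826 4150 4826 0 1 0 11747 34720 0 960 1861)
    0 1580 0 0 40 2980 3600 300 1200 1250 2500 330 850
    0xf1e007809f3c00f010378f003c04f010178d01027cf013c04f1e00780807cacf013e780800106fab037809f5606f010002f1e00780810378f003c04f1e007cf800306f1e3c000c13c780df3c780018378f818278f01bc04080bc7801e027808101 = true := by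
  decide +kernel

theorem cone_a_1_db0 : okB 10000
    (tD 1 4 1 65 100 4826 4150 4826 0 1 1510 2615 0 17220 65212 0 0 15811 65212 0 960 1861)
    0 1580 0 0 40 1600 2615 300 1200 1250 2500 330 850
    0x156a817b54002ab541827a0aabd04f4155aa0ea8200f4101dbb41d5aa0416dda03683ab5408201552837a0816dda076ed06076edfa0768303b76ed0204180abb76810156a81040aad5aa0403d0408080 = true := by
  decide +kernel

theorem cone_a_1_da : okB 10000
    (tD 0 4 1 65 100 4826 4150 4826 0 1 1510 0 0 11387 42908 0 1242 0 0 0 960 1861)
    0 1580 0 0 40 2615 2980 300 1200 1250 2500 330 850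
    0xf5e817a09ebd02f4101 = true := by
  decide +kernel

theorem cone_a_1_ua : okB 10000
    (tU 0 4 1 65 100 4826 4150 4826 0 1 1470 0 12620 0 0 42908 1242 0 0 0 960 1861)
    0 1580 0 0 40 2615 2980 300 1200 1250 2500 330 850
    0x347a05e36060de3d780c18168d1a010609a3402d010278f40b404f1a0278f410106f5a036808101 = true := by
  decide +kernel

theorem cone_a_1_ub0 : okB 10000
    (tU 1 4 1 65 100 4826 4150 4826 0 1 1470 2980 11459 0 0 39012 12867 0 0 39012 960 1861)
    0 1580 0 0 40 2980 3300 300 1200 1250 2500 330 850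
    0x152a03780aa3c05f01d67c09e02020de3c00f1f0306d1e030401ed70751e02aef000306f1f3c000c10168f1a0206d1a010409ebd075dfbc000c1bc78f010304f5e817809fbc04fde02060c0b4780de027808101 = true := by
  decide +kernel

theorem cone_a_1_ub1 : okB 10000
    (tU 1 4 1 65 100 4826 4150 4826 0 1 1470 2980 10630 0 0 36499 12038 0 0 36499 960 1861)
    0 1580 0 0 40 3300 3600 300 1200 1250 2500 330 850
    0x55a95aa000754083a950182adf3e5702041d6ae0c0d4ac0c156a808056a80817c075ebd6040ebfcae041d601f01d7f95fe03020ebd7ae08181ae00083ad5be56020eb020752b03000808399501d4055aa02f95aa02020c182ab56a02075ebd7ae08183ad5ab03ac08182af5c1d4ac0c100af5eb81075abd6040c1010752a56a8081839952a030608101a9501d40552b03a80be57ac0808306f1e01adf2b01060c155aa0ebd70752b03040ea5678081820201e3c02f003eacf80837c01f3c02081b4780de02040aad5aa001d7af5c083af5eb81060abd77e001800752602a95ab3c000c1d4ac0c1030556abd000ebd77e001d5aefc003040ded4075ebd4040c1820352b54020de3c7c0418268f01bc0408101 = true := by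
  decide +kernel

theorem cone_b_0_pl0 : okB 10000
    (tP 4 1 65 100 4542 4150 4542 0 1 10572 0 0 53210 960 1861)
    0 1580 0 0 40 1600 2250 300 1200 1250 2500 330 850
    0x1d2a02e930174e8040039930182e9d01d4a80c14c980c101e9d01f4e80c174e80fa0203d3a0338700820403a740752a0305d3a030152a0305d3a03a950182e9d0180a9501820205a1c380403405326036808082 = true := by
  decide +kernel

theorem cone_b_0_pm : okB 10000
    (tP 4 1 65 100 4542 4150 4542 0 1 0 1400 0 0 960 1861)
    0 1580 0 0 40 2250 2538 300 1200 1250 2500 330 850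
    0x152a01a95008199500826809a02a9500d4a8040d4a80413c04d0101a9500d404d01340552a036809a020352a036809a02a9500d404d01340404083 = true := by
  decide +kernel

theorem cone_b_0_pr0 : okB 10000
    (tP 4 1 65 100 4542 4150 4542 0 1 0 11094 38192 0 960 1861)
    0 1580 0 0 40 2538 3600 300 1200 1250 2500 330 850
    0xf1e3c680800378f1e000605e3c780018278d01340409e3c00d1a00f8f008306d1a34000c13c7801e3c060da3c06080b468d000368d00020401e3c06f1e0302f1e0104f1a0204f1e0378f018078f018278f01bc04f1e03780808168f01bc0408001 = true := by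
  decide +kernel

theorem cone_b_0_db0 : okB 10000
    (tD 1 4 1 65 100 4542 4150 4542 0 1 2000 2250 0 16273 71733 0 0 14887 71733 0 960 1861)
    0 1580 0 0 40 1600 2250 300 1200 1250 2500 330 850
    0x554a0ea82abb40550405e82dbb40d50556a8004f4101dbb416dda080d5aa0c1554a0de8205b7683dbb41ed04076ed0354102ab5403d0408080 = true := by
  decide +kernel

theorem cone_b_0_da : okB 10000
    (tD 0 4 1 65 100 4542 4150 4542 0 1 2000 0 0 12105 53211 0 1253 0 0 0 960 1861)
    0 1580 0 0 40 2250 2538 300 1200 1250 2500 330 850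
    0x156a827a09e82ab5403d04f4101 = true := by
  decide +kernel

theorem cone_b_0_ua : okB 10000
    (tU 0 4 1 65 100 4542 4150 4542 0 1 538 0 13372 0 0 53211 1253 0 0 0 960 1861)
    0 1580 0 0 40 2250 2538 300 1200 1250 2500 330 850
    0x156a819809a02ab540bd0405a3d020a61c05500b40556a8168080b46804103 = true := by
  decide +kernel

theorem cone_b_0_ub0 : okB 10000
    (tU 1 4 1 65 100 4542 4150 4542 0 1 538 2538 12125 0 0 48299 13511 0 0 48299 960 1861)
    0 1580 0 0 40 2538 2700 300 1200 1250 2500 330 850
    0xd1a0379f1a01060debc680818168d00b40409e3c06f013d7a0c0b4780c101 = true := by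
  decide +kernel

theorem cone_b_0_ub1 : okB 10000
    (tU 1 4 1 65 100 4542 4150 4542 0 1 538 2538 11523 0 0 46070 12909 0 0 46070 960 1861)
    0 1580 0 0 40 2700 3000 300 1200 1250 2500 330 850
    0x3d7801e027af010168d01027bf1e8106f1a0004f5e027af010102d1a0168081037af5e8006f5e8302f1e8378f418104f1e34040da340608101 = true := by
  decide +kernel

theorem cone_b_0_ub2 : okB 10000
    (tU 1 4 1 65 100 4542 4150 4542 0 1 538 2538 10517 0 0 42716 11903 0 0 42716 960 1861)
    0 1580 0 0 40 3000 3300 300 1200 1250 2500 330 850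
    0xf5ebd000debc0009ebd02f410178f40b4040aad504f5e0200f1a00680817cab5413d780803c6801a0204041bdaa0debd0201ed57a00182a8f013c00f0102020debd00f413d7a0abbd040c1d57af41837af5e8006080bd7801ebc00f408378f1e810608101 = true := by
  decide +kernel

theorem cone_b_0_ub3 : okB 10000
    (tU 1 4 1 65 100 4542 4150 4542 0 1 538 2538 9670 0 0 40149 11056 0 0 40149 960 1861)
    0 1580 0 0 40 3300 3600 300 1200 1250 2500 330 850
    0x55ab541037b54180ab56a82060aad50556a820556a820156a82ab54102ab54100ab54155aa08155aa02a820356a82000c1fcab56a800556a81ab5410205f2ad5055eb8205f3e57af5c10203f018106041d5ab54002f95ead704080830156a82abf2b810608001060ded5a8081d4a806a00a80265406f0002f952600a80aa0203f2a0101f3e57f9f2b81020ea02a930100a800081060c1bc99f2a0106f000368f3e54020c18268f3e5468000830608102ab55e800756ad7aa001d7020ead5ae0ea80ae04182ab56a8206001d5ab56a80ab5c1d5015408306f6a83000ead5ab5eb82aa001d5aa080837b541800608155ab56a00af5eb81a8001d7020eb80060ded5a952a01a8081d4000c1827b52a5402f000306f1e54a8041830408101aaf40550555e80aa06ad50556a82035c0030755e80aaf4055aa0ab81aa001830556ad7ae0aa80060ded4af50103a8f01000608155aa0ead77a001d5aaf4003040ead5af541030609ed5aef400306f5ed57a001830408081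 = true := by
  decide +kernel

theorem cone_b_1_pl0 : okB 10000
    (tP 4 1 65 100 4826 4150 4826 0 1 10858 0 0 48298 960 1861)
    0 1580 0 0 40 1600 2538 300 1200 1250 2500 388 850
    0x54a802602980aa54075014c040fa7407d3a030130e030402a540752a00a8081f4e80c04c980da1c000810168d009c00d0102a930154a80c1d4a80de54000aa5406000f4e807a020152a019870056020c13468066006808101 = true := by
  decide +kernel

theorem cone_b_1_pm : okB 10000
    (tP 4 1 65 100 4826 4150 4826 0 1 0 1400 0 0 960 1861)
    0 1580 0 0 40 2538 2826 300 1200 1250 2500 388 850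
    0xf1a026809e3404d01016809e3404f1e0102f013c0405a3406f00b404f1e0168080b4680813c7805a026809e3c02f013c0404083 = true := by
  decide +kernel

theorem cone_b_1_pr0 : okB 10000
    (tP 4 1 65 100 4826 4150 4826 0 1 0 12194 38192 0 960 1861)
    0 1580 0 0 40 2826 3600 300 1200 1250 2500 388 850
    0xf1f3c000de3c0605e3c780418278f1e000609e340409e3c78001bc7c0c13c7c0c13c780de0278f01bc04040b4780da020401e3c06f013c780de0278f01bc040403c780de3c06f1e030201e3e06080bc68f01807808101 = true := by
  decide +kernel

theorem cone_b_1_db0 : okB 10000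
    (tD 1 4 1 65 100 4826 4150 4826 0 1 2000 2538 0 17338 71733 0 0 16141 71733 0 960 1861)
    0 1580 0 0 40 1600 1750 300 1200 1250 2500 388 850
    0x1b76814bb4083aaf4102dbb406d055416dda0f682aa08081 = true := by
  decide +kernel

theorem cone_b_1_db1 : okB 10000
    (tD 1 4 1 65 100 4826 4150 4826 0 1 2000 2538 0 16359 66139 0 0 15162 66139 0 960 1861)
    0 1580 0 0 40 1750 2050 300 1200 1250 2500 388 850
    0x6daa0b6a5040eabd040b6d505b7681aa080d57a08101 = true := by
  decide +kernel

theorem cone_b_1_db2 : okB 10000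
    (tD 1 4 1 65 100 4826 4150 4826 0 1 2000 2538 0 14599 57556 0 0 13402 57556 0 960 1861)
    0 1580 0 0 40 2050 2538 300 1200 1250 2500 388 850
    0x156a82aa941037a0aad506f6a8004f4101 = true := by
  decide +kernel

theorem cone_b_1_da : okB 10000
    (tD 0 4 1 65 100 4826 4150 4826 0 1 2000 0 0 12250 48299 0 1206 0 0 0 960 1861)
    0 1580 0 0 40 2538 2826 300 1200 1250 2500 388 850
    0x3d7a05e827af4101 = true := by
  decide +kernel

theorem cone_b_1_ua : okB 10000
    (tU 0 4 1 65 100 4826 4150 4826 0 1 826 0 13658 0 0 48299 1206 0 0 0 960 1861)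
    0 1580 0 0 40 2538 2826 300 1200 1250 2500 388 850
    0xd1a3d020debc0605a360609a1c0409e3c02f5e8168081b46804101 = true := by
  decide +kernel

theorem cone_b_1_ub0 : okB 10000
    (tU 1 4 1 65 100 4826 4150 4826 0 1 826 2826 12599 0 0 44551 13796 0 0 44551 960 1861)
    0 1580 0 0 40 2826 3000 300 1200 1250 2500 388 850
    0x3c7805e026809e3c02f01340405e3c02d013404f9a0268080bc7805e027808083 = true := by
  decide +kernel

theorem cone_b_1_ub1 : okB 10000
    (tU 1 4 1 65 100 4826 4150 4826 0 1 826 2826 12048 0 0 42716 13245 0 0 42716 960 1861)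
    0 1580 0 0 40 3000 3300 300 1200 1250 2500 388 850
    0x557802a3c015de00060ea54ac0c18278f9e0006d1e03040aabd00fde00aef80030752a3c040c10178f1a0206f01027b5c1bdaa0c13d7ef00030555ebf060debf06080b4780de027808101 = true := by
  decide +kernel

theorem cone_b_1_ub2 : okB 10000
    (tU 1 4 1 65 100 4826 4150 4826 0 1 826 2826 11201 0 0 40149 12398 0 0 40149 960 1861)
    0 1580 0 0 40 3300 3600 300 1200 1250 2500 388 850
    0x55ab54054040ead40402bd7ae0ab810752b03a808157ac0aa02015ea0201f2bd7055c057f80ebd4000415701f0181060ead57e02a820756b83af5eb82ae041d7ae08057000ebd7aff0183af5eb820606bd706041d4ae0c002af5eb0206001819951e000752b7c060ea56a80aa000606b5402001d47802a3c015aa017c00183040aad503540577e02b81af5c1d7035c0030756a00af50057ae0eb81ae001830551e80ad500d6ac06b02a800183a952b3e000c1820406ad50155f80af5c0830756ad77e001830556ad7ac081837afeb830600155aa0ebbf015df80ae08183ab56bbf000c1820206a3eac0de000732654060c0bc78d003e7c0418304d1e34000de020552a3c01501037b5ea020605e3c78f80830608082 = true := by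
  decide +kernel

end RQ4

end Pool.Agent.Work.MP_b30479_gtS.G2

end

section

/-!
# Rings at an end with the ring variable on the ramp, `b = 4`: rows rs
-/

set_option deprecated.oldSectionVars true

namespace Pool.Agent.Work.MP_b30479_gtS.G2

open Real NumIs

namespace RQ4

open RC RQ

theorem drs_0_e : okB 10000
    (uE 4090 3820 4440 10 22 2220 2332 1700 462 632 110 440)
    0 1580 0 0 40 1700 1758 1740 2070 1250 2500 440 650
    0x5e20400de240c3830248104040c202 = true := by
  decide +kernel

theorem drs_0_db : okB 10000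
    (uD 1 4090 3820 4440 10 22 2220 1700 462 632 110 440)
    0 1580 0 0 40 1000 1700 1740 2070 1250 2500 440 650
    0x5ef9780de024891201f0b812e0400006481de244808324083832e4818002489010448104045fe032e00a012e048022008003080af1728048022e401000808180bc5cb822608180 = true := by
  decide +kernel

theorem drs_0_da : okB 10000
    (uD 0 4090 3820 4440 10 22 2220 1700 462 632 110 440)
    0 1580 0 0 40 1700 1758 1740 2070 1250 2500 440 650
    0x5e20400de240c3830248104040c202 = true := by
  decide +kernel

theorem drs_0_ua : okB 10000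
    (uU 0 4090 3820 4440 10 22 2220 2332 1700 1758 462 632 110 440)
    0 1580 0 0 40 1700 1758 1740 2070 1250 2500 440 650
    0x5ebb44104040c202 = true := by
  decide +kernel

theorem drs_0_ub : okB 10000
    (uU 1 4090 3820 4440 10 22 2220 2332 1700 1758 462 632 110 440)
    0 1580 0 0 40 1758 2700 1740 2070 1250 2500 440 650
    0x22440af1344b928100101000600384001c102 = true := by
  decide +kernel

theorem trs_0 {xs s T ρ : ℝ} (hW : RWp.In ⟨1700 / 10000, 2170 / 10000, 160 / 10000, 490 / 10000, 2220 / 10000, 2445 / 10000, 440 / 10000, 650 / 10000, 4465 / 10000, 3820 / 10000, 110 / 10000, 440 / 10000, 22 / 10, 59 / 100⟩ xs s T ρ)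
    (hD : Dx xs (1 / 2 - s) T ρ = 2 * π * 4 * ρ)
    (ha : ((1700 : ℕ) : ℝ) / 10000 ≤ xs) (he : xs ≤ ((1758 : ℕ) : ℝ) / 10000)
    (hs : ((2220 : ℕ) : ℝ) / 10000 ≤ s) (hs' : s ≤ ((2332 : ℕ) : ℝ) / 10000) :
    RampOK1 4 xs (1 / 2 - s) T ρ (10 / 100) (27 / 100) := by
  have hN : Nm 4090 3820 4440 10 22 632 2220 110 440 1740 2070 440 650 xs s T ρ := by
    obtain ⟨-, -, w1, w2, -, -, w5, w6, w7, w8, w9, w10, w11, w12⟩ := hW
    dsimp only at w1 w2 w6 w7 w8 w9 w10 w11 w12
    push_cast at ha he hs hs'
    exact ⟨by linarith only [ha, w5, w7], by linarith only [he, w5, w7], by push_cast; linarith only [hs], by norm_num, by push_cast; linarith only [he, hs'],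
      by norm_num, by push_cast; linarith only [he, hs', w5, w6], by norm_num, by push_cast; linarith only [he, hs', w5, w7, w11], by norm_num,
      by push_cast; linarith only [he, hs, w5, w7], by push_cast; linarith only [ha, hs'], by norm_num, by push_cast; linarith only [w1],
      by push_cast; linarith only [w2], by push_cast; linarith only [w6], by push_cast; linarith only [w7], w5,
      fun _ => by push_cast; linarith only [w10], by push_cast; linarith only [w11]⟩
  have g : NE 462 2332 1700 xs s T ρ :=
    ⟨hD, hs', by norm_num, Or.inr (Or.inl (by push_cast at he hs ⊢; linarith only [he, hs])), by norm_num, ha⟩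
  have hcl : (0 : ℝ) < 10 / 100 := by norm_num
  have hcp : (27 / 100 : ℝ) < 1 / 2 := by norm_num
  refine ⟨fun y hA => qE drs_0_e hN g hA hcl hcp (by norm_num) ha he,
    fun x y hA hx => ?_, fun x y hA hx => ?_⟩
  · have hx0 : ((1000 : ℕ) : ℝ) / 10000 ≤ x := le_trans (by norm_num) hA.x0
    rcases le_total x (((1700 : ℕ) : ℝ) / 10000) with hc | hc
    · exact qD drs_0_db hN g hA hcl hcp (by norm_num) (by norm_num) hx0 hc hx
    · exact qD drs_0_da hN g hA hcl hcp (by norm_num) (by norm_num) hc (hx.le.trans he) hx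
  · have hx1 : x ≤ ((2700 : ℕ) : ℝ) / 10000 := le_trans hA.x1 (by norm_num)
    rcases le_total x (((1758 : ℕ) : ℝ) / 10000) with hc | hc
    · exact qU drs_0_ua hN g hA hcl hcp (by norm_num) (by norm_num) he (ha.trans hx.le) hc hx
    · exact qU drs_0_ub hN g hA hcl hcp (by norm_num) (by norm_num) he hc hx1 hx

theorem drs_1_e : okB 10000
    (uE 4174 3820 4411 10 22 2332 2445 1700 603 745 110 440)
    0 1580 0 0 40 1700 1729 1740 2070 1250 2500 440 650
    0x5ebd7af01240c189040ef5ebdf3081060c1e10200902bc04912bc48181024811204409090404190060c8040408202 = true := by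
  decide +kernel

theorem drs_1_db : okB 10000
    (uD 1 4174 3820 4411 10 22 2332 1700 603 745 110 440)
    0 1580 0 0 40 1000 1700 1740 2070 1250 2500 440 650
    0x17af5ef97891225f0b812e06f01240c9031208000005cb81000c087045c003bd789032e001de0378097005c001060c91201f0917005c0012e04007044848206481fc2e481012e04012060ca120608a7c2e0419428080802e40182bc5c9032e043830e08b9212081801208a070400181201c08404082022e5c114025c80204101002e4c117004c100 = true := by
  decide +kernel

theorem drs_1_da : okB 10000
    (uD 0 4174 3820 4411 10 22 2332 1700 603 745 110 440)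
    0 1580 0 0 40 1700 1729 1740 2070 1250 2500 440 650
    0x5ebd7be03bc481890424101bd7880312081de0204183bc049122e040920648112040c8040408202 = true := by
  decide +kernel

theorem drs_1_ua : okB 10000
    (uU 0 4174 3820 4411 10 22 2332 2445 1700 1729 603 745 110 440)
    0 1580 0 0 40 1700 1729 1740 2070 1250 2500 440 650
    0x17aea4040ef013f7409204401834408202 = true := by
  decide +kernel

theorem drs_1_ub : okB 10000
    (uU 1 4174 3820 4411 10 22 2332 2445 1700 1729 603 745 110 440)
    0 1580 0 0 40 1729 2700 1740 2070 1250 2500 440 650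
    0x892820e1c1024578093061c15ebc9528120081830808202bc04810602418904040130410104040c000 = true := by
  decide +kernel

theorem trs_1 {xs s T ρ : ℝ} (hW : RWp.In ⟨1700 / 10000, 2170 / 10000, 160 / 10000, 490 / 10000, 2220 / 10000, 2445 / 10000, 440 / 10000, 650 / 10000, 4465 / 10000, 3820 / 10000, 110 / 10000, 440 / 10000, 22 / 10, 59 / 100⟩ xs s T ρ)
    (hD : Dx xs (1 / 2 - s) T ρ = 2 * π * 4 * ρ)
    (ha : ((1700 : ℕ) : ℝ) / 10000 ≤ xs) (he : xs ≤ ((1729 : ℕ) : ℝ) / 10000)
    (hs : ((2332 : ℕ) : ℝ) / 10000 ≤ s) (hs' : s ≤ ((2445 : ℕ) : ℝ) / 10000) :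
    RampOK1 4 xs (1 / 2 - s) T ρ (10 / 100) (27 / 100) := by
  have hN : Nm 4174 3820 4411 10 22 745 2332 110 440 1740 2070 440 650 xs s T ρ := by
    obtain ⟨-, -, w1, w2, -, -, w5, w6, w7, w8, w9, w10, w11, w12⟩ := hW
    dsimp only at w1 w2 w6 w7 w8 w9 w10 w11 w12
    push_cast at ha he hs hs'
    exact ⟨by linarith only [ha, w5, w7], by linarith only [he, w5, w7], by push_cast; linarith only [hs], by norm_num, by push_cast; linarith only [he, hs'],
      by norm_num, by push_cast; linarith only [he, hs', w5, w6], by norm_num, by push_cast; linarith only [he, hs', w5, w7, w11], by norm_num,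
      by push_cast; linarith only [he, hs, w5, w7], by push_cast; linarith only [ha, hs'], by norm_num, by push_cast; linarith only [w1],
      by push_cast; linarith only [w2], by push_cast; linarith only [w6], by push_cast; linarith only [w7], w5,
      fun _ => by push_cast; linarith only [w10], by push_cast; linarith only [w11]⟩
  have g : NE 603 2445 1700 xs s T ρ :=
    ⟨hD, hs', by norm_num, Or.inr (Or.inl (by push_cast at he hs ⊢; linarith only [he, hs])), by norm_num, ha⟩
  have hcl : (0 : ℝ) < 10 / 100 := by norm_num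
  have hcp : (27 / 100 : ℝ) < 1 / 2 := by norm_num
  refine ⟨fun y hA => qE drs_1_e hN g hA hcl hcp (by norm_num) ha he,
    fun x y hA hx => ?_, fun x y hA hx => ?_⟩
  · have hx0 : ((1000 : ℕ) : ℝ) / 10000 ≤ x := le_trans (by norm_num) hA.x0
    rcases le_total x (((1700 : ℕ) : ℝ) / 10000) with hc | hc
    · exact qD drs_1_db hN g hA hcl hcp (by norm_num) (by norm_num) hx0 hc hx
    · exact qD drs_1_da hN g hA hcl hcp (by norm_num) (by norm_num) hc (hx.le.trans he) hx
  · have hx1 : x ≤ ((2700 : ℕ) : ℝ) / 10000 := le_trans hA.x1 (by norm_num)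
    rcases le_total x (((1729 : ℕ) : ℝ) / 10000) with hc | hc
    · exact qU drs_1_ua hN g hA hcl hcp (by norm_num) (by norm_num) he (ha.trans hx.le) hc hx
    · exact qU drs_1_ub hN g hA hcl hcp (by norm_num) (by norm_num) he hc hx1 hx

theorem drs_2_e : okB 10000
    (uE 4203 3820 4440 10 22 2332 2445 1729 574 716 110 440)
    0 1580 0 0 40 1729 1758 1740 2070 1250 2500 440 650
    0x17af5e03780922424101bc481de0204382060c912120c092040c91002088040408202 = true := by
  decide +kernel

theorem drs_2_db : okB 10000
    (uD 1 4203 3820 4440 10 22 2332 1729 574 716 110 440)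
    0 1580 0 0 40 1000 1729 1740 2070 1250 2500 440 650
    0x17af5e024be5ef9780921208183025ef01bc040920600bde0204903240be17f80c097021c1170200b970200902280080208081de2e241040450003bc04083242417c2e04b81005cb810240801245c00106481120440809040418405f0b812804a012008202000c2022e5c114025c80204101002e4c117004c100 = true := by
  decide +kernel

theorem drs_2_da : okB 10000
    (uD 0 4203 3820 4440 10 22 2332 1729 574 716 110 440)
    0 1580 0 0 40 1729 1758 1740 2070 1250 2500 440 650
    0x5ebd780922404482065c0832448483020ca12060891402088040408202 = true := by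
  decide +kernel

theorem drs_2_ua : okB 10000
    (uU 0 4203 3820 4440 10 22 2332 2445 1729 1758 574 716 110 440)
    0 1580 0 0 40 1729 1758 1740 2070 1250 2500 440 650
    0x174903bb740814e48182449c0824408202 = true := by
  decide +kernel

theorem drs_2_ub : okB 10000
    (uU 1 4203 3820 4440 10 22 2332 2445 1729 1758 574 716 110 440)
    0 1580 0 0 40 1758 2700 1740 2070 1250 2500 440 650
    0x220e0898704003870409122037af5e025928106baf01bc0408320408090404003008928104881040808100 = true := by
  decide +kernel

theorem trs_2 {xs s T ρ : ℝ} (hW : RWp.In ⟨1700 / 10000, 2170 / 10000, 160 / 10000, 490 / 10000, 2220 / 10000, 2445 / 10000, 440 / 10000, 650 / 10000, 4465 / 10000, 3820 / 10000, 110 / 10000, 440 / 10000, 22 / 10, 59 / 100⟩ xs s T ρ)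
    (hD : Dx xs (1 / 2 - s) T ρ = 2 * π * 4 * ρ)
    (ha : ((1729 : ℕ) : ℝ) / 10000 ≤ xs) (he : xs ≤ ((1758 : ℕ) : ℝ) / 10000)
    (hs : ((2332 : ℕ) : ℝ) / 10000 ≤ s) (hs' : s ≤ ((2445 : ℕ) : ℝ) / 10000) :
    RampOK1 4 xs (1 / 2 - s) T ρ (10 / 100) (27 / 100) := by
  have hN : Nm 4203 3820 4440 10 22 716 2332 110 440 1740 2070 440 650 xs s T ρ := by
    obtain ⟨-, -, w1, w2, -, -, w5, w6, w7, w8, w9, w10, w11, w12⟩ := hW
    dsimp only at w1 w2 w6 w7 w8 w9 w10 w11 w12
    push_cast at ha he hs hs'
    exact ⟨by linarith only [ha, w5, w7], by linarith only [he, w5, w7], by push_cast; linarith only [hs], by norm_num, by push_cast; linarith only [he, hs'],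
      by norm_num, by push_cast; linarith only [he, hs', w5, w6], by norm_num, by push_cast; linarith only [he, hs', w5, w7, w11], by norm_num,
      by push_cast; linarith only [he, hs, w5, w7], by push_cast; linarith only [ha, hs'], by norm_num, by push_cast; linarith only [w1],
      by push_cast; linarith only [w2], by push_cast; linarith only [w6], by push_cast; linarith only [w7], w5,
      fun _ => by push_cast; linarith only [w10], by push_cast; linarith only [w11]⟩
  have g : NE 574 2445 1729 xs s T ρ :=
    ⟨hD, hs', by norm_num, Or.inr (Or.inl (by push_cast at he hs ⊢; linarith only [he, hs])), by norm_num, ha⟩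
  have hcl : (0 : ℝ) < 10 / 100 := by norm_num
  have hcp : (27 / 100 : ℝ) < 1 / 2 := by norm_num
  refine ⟨fun y hA => qE drs_2_e hN g hA hcl hcp (by norm_num) ha he,
    fun x y hA hx => ?_, fun x y hA hx => ?_⟩
  · have hx0 : ((1000 : ℕ) : ℝ) / 10000 ≤ x := le_trans (by norm_num) hA.x0
    rcases le_total x (((1729 : ℕ) : ℝ) / 10000) with hc | hc
    · exact qD drs_2_db hN g hA hcl hcp (by norm_num) (by norm_num) hx0 hc hx
    · exact qD drs_2_da hN g hA hcl hcp (by norm_num) (by norm_num) hc (hx.le.trans he) hx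
  · have hx1 : x ≤ ((2700 : ℕ) : ℝ) / 10000 := le_trans hA.x1 (by norm_num)
    rcases le_total x (((1758 : ℕ) : ℝ) / 10000) with hc | hc
    · exact qU drs_2_ua hN g hA hcl hcp (by norm_num) (by norm_num) he (ha.trans hx.le) hc hx
    · exact qU drs_2_ub hN g hA hcl hcp (by norm_num) (by norm_num) he hc hx1 hx

theorem drs_3_e : okB 10000
    (uE 4217 3820 4454 10 22 2220 2445 1758 448 687 110 440)
    0 1580 0 0 40 1758 1772 1740 2070 1250 2500 440 650
    0x5ebc06f100778092064815ebc40183bc04084040c8101208084040c202 = true := by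
  decide +kernel

theorem drs_3_db : okB 10000
    (uD 1 4217 3820 4454 10 22 2220 1758 448 687 110 440)
    0 1580 0 0 40 1000 1758 1740 2070 1250 2500 440 650
    0x5ebc06f7cbc06f01bc04903f9780de0248482f85c080065c482005c0801208b80062415e0378092120be122ff01800248b80025c0802ff0b81065c0800e08bde025c00124081942008a01000c9122e0409228009032e040120648112045cb832804b822008003201c08404082022e5c114025c80204101002e4c117004c100 = true := by
  decide +kernel

theorem drs_3_da : okB 10000
    (uD 0 4217 3820 4454 10 22 2220 1758 448 687 110 440)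
    0 1580 0 0 40 1758 1772 1740 2070 1250 2500 440 650
    0x17af100778092060c9032408202bc5c19404401940410a010404202 = true := by
  decide +kernel

theorem drs_3_ua : okB 10000
    (uU 0 4217 3820 4454 10 22 2220 2445 1758 1772 448 687 110 440)
    0 1580 0 0 40 1758 1772 1740 2070 1250 2500 440 650
    0x17af01bac0092040c81012080832608202 = true := by
  decide +kernel

theorem drs_3_ub : okB 10000
    (uU 1 4217 3820 4454 10 22 2220 2445 1758 1772 448 687 110 440)
    0 1580 0 0 40 1772 2700 1740 2070 1250 2500 440 650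
    0x88382261c1000e1c102bd780874b780de021d281bc941de0204180064c81020040000689281044c1040808100 = true := by
  decide +kernel

theorem trs_3 {xs s T ρ : ℝ} (hW : RWp.In ⟨1700 / 10000, 2170 / 10000, 160 / 10000, 490 / 10000, 2220 / 10000, 2445 / 10000, 440 / 10000, 650 / 10000, 4465 / 10000, 3820 / 10000, 110 / 10000, 440 / 10000, 22 / 10, 59 / 100⟩ xs s T ρ)
    (hD : Dx xs (1 / 2 - s) T ρ = 2 * π * 4 * ρ)
    (ha : ((1758 : ℕ) : ℝ) / 10000 ≤ xs) (he : xs ≤ ((1772 : ℕ) : ℝ) / 10000)
    (hs : ((2220 : ℕ) : ℝ) / 10000 ≤ s) (hs' : s ≤ ((2445 : ℕ) : ℝ) / 10000) :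
    RampOK1 4 xs (1 / 2 - s) T ρ (10 / 100) (27 / 100) := by
  have hN : Nm 4217 3820 4454 10 22 687 2220 110 440 1740 2070 440 650 xs s T ρ := by
    obtain ⟨-, -, w1, w2, -, -, w5, w6, w7, w8, w9, w10, w11, w12⟩ := hW
    dsimp only at w1 w2 w6 w7 w8 w9 w10 w11 w12
    push_cast at ha he hs hs'
    exact ⟨by linarith only [ha, w5, w7], by linarith only [he, w5, w7], by push_cast; linarith only [hs], by norm_num, by push_cast; linarith only [he, hs'],
      by norm_num, by push_cast; linarith only [he, hs', w5, w6], by norm_num, by push_cast; linarith only [he, hs', w5, w7, w11], by norm_num,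
      by push_cast; linarith only [he, hs, w5, w7], by push_cast; linarith only [ha, hs'], by norm_num, by push_cast; linarith only [w1],
      by push_cast; linarith only [w2], by push_cast; linarith only [w6], by push_cast; linarith only [w7], w5,
      fun _ => by push_cast; linarith only [w10], by push_cast; linarith only [w11]⟩
  have g : NE 448 2445 1758 xs s T ρ :=
    ⟨hD, hs', by norm_num, Or.inr (Or.inl (by push_cast at he hs ⊢; linarith only [he, hs])), by norm_num, ha⟩
  have hcl : (0 : ℝ) < 10 / 100 := by norm_num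
  have hcp : (27 / 100 : ℝ) < 1 / 2 := by norm_num
  refine ⟨fun y hA => qE drs_3_e hN g hA hcl hcp (by norm_num) ha he,
    fun x y hA hx => ?_, fun x y hA hx => ?_⟩
  · have hx0 : ((1000 : ℕ) : ℝ) / 10000 ≤ x := le_trans (by norm_num) hA.x0
    rcases le_total x (((1758 : ℕ) : ℝ) / 10000) with hc | hc
    · exact qD drs_3_db hN g hA hcl hcp (by norm_num) (by norm_num) hx0 hc hx
    · exact qD drs_3_da hN g hA hcl hcp (by norm_num) (by norm_num) hc (hx.le.trans he) hx
  · have hx1 : x ≤ ((2700 : ℕ) : ℝ) / 10000 := le_trans hA.x1 (by norm_num)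
    rcases le_total x (((1772 : ℕ) : ℝ) / 10000) with hc | hc
    · exact qU drs_3_ua hN g hA hcl hcp (by norm_num) (by norm_num) he (ha.trans hx.le) hc hx
    · exact qU drs_3_ub hN g hA hcl hcp (by norm_num) (by norm_num) he hc hx1 hx

theorem drs_4_e : okB 10000
    (uE 4232 3820 4469 10 22 2220 2445 1772 433 673 110 440)
    0 1580 0 0 40 1772 1787 1740 2070 1250 2500 440 650
    0x17af01244af01240c0de244af01020c092040c912020c90702088040408202 = true := by
  decide +kernel

theorem drs_4_db : okB 10000
    (uD 1 4232 3820 4469 10 22 2220 1772 433 673 110 440)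
    0 1580 0 0 40 1000 1772 1740 2070 1250 2500 440 650
    0x17af5e240c1de0378092bc0490306481def80cb812e06f012448b80000c9022e04b9702009032e040172e04b810048a0004481140040104040ef5e2e481090450007040c1810e48a0000481920e08b800248192044810405f0b812804a012008202000c2022e5c114025c80204101002e4c117004c100 = true := by
  decide +kernel

theorem drs_4_da : okB 10000
    (uD 0 4232 3820 4469 10 22 2220 1772 433 673 110 440)
    0 1580 0 0 40 1772 1787 1740 2070 1250 2500 440 650
    0x5e244af010248183bc5c181240ca12060891402088040408202 = true := by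
  decide +kernel

theorem drs_4_ua : okB 10000
    (uU 0 4232 3820 4469 10 22 2220 2445 1772 1787 433 673 110 440)
    0 1580 0 0 40 1772 1787 1740 2070 1250 2500 440 650
    0x5460049034e48182441c0822608202 = true := by
  decide +kernel

theorem drs_4_ub : okB 10000
    (uU 1 4232 3820 4469 10 22 2220 2445 1772 1787 433 673 110 440)
    0 1580 0 0 40 1787 2700 1740 2070 1250 2500 440 650
    0x88382261c1000e1c102449408405783a55c04003200d3b000401a50e0c101441c08226080040808100 = true := by
  decide +kernel

theorem trs_4 {xs s T ρ : ℝ} (hW : RWp.In ⟨1700 / 10000, 2170 / 10000, 160 / 10000, 490 / 10000, 2220 / 10000, 2445 / 10000, 440 / 10000, 650 / 10000, 4465 / 10000, 3820 / 10000, 110 / 10000, 440 / 10000, 22 / 10, 59 / 100⟩ xs s T ρ)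
    (hD : Dx xs (1 / 2 - s) T ρ = 2 * π * 4 * ρ)
    (ha : ((1772 : ℕ) : ℝ) / 10000 ≤ xs) (he : xs ≤ ((1787 : ℕ) : ℝ) / 10000)
    (hs : ((2220 : ℕ) : ℝ) / 10000 ≤ s) (hs' : s ≤ ((2445 : ℕ) : ℝ) / 10000) :
    RampOK1 4 xs (1 / 2 - s) T ρ (10 / 100) (27 / 100) := by
  have hN : Nm 4232 3820 4469 10 22 673 2220 110 440 1740 2070 440 650 xs s T ρ := by
    obtain ⟨-, -, w1, w2, -, -, w5, w6, w7, w8, w9, w10, w11, w12⟩ := hW
    dsimp only at w1 w2 w6 w7 w8 w9 w10 w11 w12
    push_cast at ha he hs hs'
    exact ⟨by linarith only [ha, w5, w7], by linarith only [he, w5, w7], by push_cast; linarith only [hs], by norm_num, by push_cast; linarith only [he, hs'],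
      by norm_num, by push_cast; linarith only [he, hs', w5, w6], by norm_num, by push_cast; linarith only [he, hs', w5, w7, w11], by norm_num,
      by push_cast; linarith only [he, hs, w5, w7], by push_cast; linarith only [ha, hs'], by norm_num, by push_cast; linarith only [w1],
      by push_cast; linarith only [w2], by push_cast; linarith only [w6], by push_cast; linarith only [w7], w5,
      fun _ => by push_cast; linarith only [w10], by push_cast; linarith only [w11]⟩
  have g : NE 433 2445 1772 xs s T ρ :=
    ⟨hD, hs', by norm_num, Or.inr (Or.inl (by push_cast at he hs ⊢; linarith only [he, hs])), by norm_num, ha⟩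
  have hcl : (0 : ℝ) < 10 / 100 := by norm_num
  have hcp : (27 / 100 : ℝ) < 1 / 2 := by norm_num
  refine ⟨fun y hA => qE drs_4_e hN g hA hcl hcp (by norm_num) ha he,
    fun x y hA hx => ?_, fun x y hA hx => ?_⟩
  · have hx0 : ((1000 : ℕ) : ℝ) / 10000 ≤ x := le_trans (by norm_num) hA.x0
    rcases le_total x (((1772 : ℕ) : ℝ) / 10000) with hc | hc
    · exact qD drs_4_db hN g hA hcl hcp (by norm_num) (by norm_num) hx0 hc hx
    · exact qD drs_4_da hN g hA hcl hcp (by norm_num) (by norm_num) hc (hx.le.trans he) hx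
  · have hx1 : x ≤ ((2700 : ℕ) : ℝ) / 10000 := le_trans hA.x1 (by norm_num)
    rcases le_total x (((1787 : ℕ) : ℝ) / 10000) with hc | hc
    · exact qU drs_4_ua hN g hA hcl hcp (by norm_num) (by norm_num) he (ha.trans hx.le) hc hx
    · exact qU drs_4_ub hN g hA hcl hcp (by norm_num) (by norm_num) he hc hx1 hx

theorem drs_5_e : okB 10000
    (uE 4262 3820 4499 10 22 2220 2445 1787 403 658 110 440)
    0 1580 0 0 40 1787 1817 1740 2070 1250 2500 440 650
    0x17af12060ef01c202f01bc04909044b080bc04903021c1032448083241c0820808202 = true := by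
  decide +kernel

theorem drs_5_db : okB 10000
    (uD 1 4262 3820 4499 10 22 2220 1787 403 658 110 440)
    0 1580 0 0 40 1000 1787 1740 2070 1250 2500 440 650
    0x17af5ebd780de0248917bc040120600183065c003bc06f01245c903240cb800048b8002481172e04092060cb920608a022e5c194045c0940450100bc5cb8106501012850080285c102f840090200448202488012e1c18003f0b812804a010040103201c08404082022e5c114025c80204101002e4c117004c100 = true := by
  decide +kernel

theorem drs_5_da : okB 10000
    (uD 0 4262 3820 4499 10 22 2220 1787 403 658 110 440)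
    0 1580 0 0 40 1787 1817 1740 2070 1250 2500 440 650
    0x17af12060ef01240ef120606f170604903284818224500820808202 = true := by
  decide +kernel

theorem drs_5_ua : okB 10000
    (uU 0 4262 3820 4499 10 22 2220 2445 1787 1817 403 658 110 440)
    0 1580 0 0 40 1787 1817 1740 2070 1250 2500 440 650
    0x5d6004903249c082241c0820808202 = true := by
  decide +kernel

theorem drs_5_ub : okB 10000
    (uU 1 4262 3820 4499 10 22 2220 2445 1787 1817 403 658 110 440)
    0 1580 0 0 40 1817 2700 1740 2070 1250 2500 440 650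
    0x891020e1c0020e1c10244582020259810061c100200ef126000382061c181441c08208080040808100 = true := by
  decide +kernel

theorem trs_5 {xs s T ρ : ℝ} (hW : RWp.In ⟨1700 / 10000, 2170 / 10000, 160 / 10000, 490 / 10000, 2220 / 10000, 2445 / 10000, 440 / 10000, 650 / 10000, 4465 / 10000, 3820 / 10000, 110 / 10000, 440 / 10000, 22 / 10, 59 / 100⟩ xs s T ρ)
    (hD : Dx xs (1 / 2 - s) T ρ = 2 * π * 4 * ρ)
    (ha : ((1787 : ℕ) : ℝ) / 10000 ≤ xs) (he : xs ≤ ((1817 : ℕ) : ℝ) / 10000)
    (hs : ((2220 : ℕ) : ℝ) / 10000 ≤ s) (hs' : s ≤ ((2445 : ℕ) : ℝ) / 10000) :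
    RampOK1 4 xs (1 / 2 - s) T ρ (10 / 100) (27 / 100) := by
  have hN : Nm 4262 3820 4499 10 22 658 2220 110 440 1740 2070 440 650 xs s T ρ := by
    obtain ⟨-, -, w1, w2, -, -, w5, w6, w7, w8, w9, w10, w11, w12⟩ := hW
    dsimp only at w1 w2 w6 w7 w8 w9 w10 w11 w12
    push_cast at ha he hs hs'
    exact ⟨by linarith only [ha, w5, w7], by linarith only [he, w5, w7], by push_cast; linarith only [hs], by norm_num, by push_cast; linarith only [he, hs'],
      by norm_num, by push_cast; linarith only [w9], by norm_num, by push_cast; linarith only [he, hs', w5, w7, w11], by norm_num,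
      by push_cast; linarith only [he, hs, w5, w7], by push_cast; linarith only [ha, hs'], by norm_num, by push_cast; linarith only [w1],
      by push_cast; linarith only [w2], by push_cast; linarith only [w6], by push_cast; linarith only [w7], w5,
      fun _ => by push_cast; linarith only [w10], by push_cast; linarith only [w11]⟩
  have g : NE 403 2445 1787 xs s T ρ :=
    ⟨hD, hs', by norm_num, Or.inr (Or.inl (by push_cast at he hs ⊢; linarith only [he, hs])), by norm_num, ha⟩
  have hcl : (0 : ℝ) < 10 / 100 := by norm_num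
  have hcp : (27 / 100 : ℝ) < 1 / 2 := by norm_num
  refine ⟨fun y hA => qE drs_5_e hN g hA hcl hcp (by norm_num) ha he,
    fun x y hA hx => ?_, fun x y hA hx => ?_⟩
  · have hx0 : ((1000 : ℕ) : ℝ) / 10000 ≤ x := le_trans (by norm_num) hA.x0
    rcases le_total x (((1787 : ℕ) : ℝ) / 10000) with hc | hc
    · exact qD drs_5_db hN g hA hcl hcp (by norm_num) (by norm_num) hx0 hc hx
    · exact qD drs_5_da hN g hA hcl hcp (by norm_num) (by norm_num) hc (hx.le.trans he) hx
  · have hx1 : x ≤ ((2700 : ℕ) : ℝ) / 10000 := le_trans hA.x1 (by norm_num)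
    rcases le_total x (((1817 : ℕ) : ℝ) / 10000) with hc | hc
    · exact qU drs_5_ua hN g hA hcl hcp (by norm_num) (by norm_num) he (ha.trans hx.le) hc hx
    · exact qU drs_5_ub hN g hA hcl hcp (by norm_num) (by norm_num) he hc hx1 hx

theorem drs_6_e : okB 10000
    (uE 4321 3820 4558 10 22 2220 2445 1817 344 628 110 440)
    0 1580 0 0 40 1817 1876 1740 2070 1250 2500 440 650
    0x5e240ef01240f092077b092060c080240ef12078406100481dec248192060c081240c910200408220101820808202 = true := by
  decide +kernel

theorem drs_6_db : okB 10000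
    (uD 1 4321 3820 4558 10 22 2220 1817 344 628 110 440)
    0 1580 0 0 40 1000 1817 1740 2070 1250 2500 440 650
    0x5e2e481832e04b80240cb970604b97240c1970200b802e08b822e04b8028089122e04007045c0122450000061c1032800812045c803000cb972408190065cb89060c0142808001205c014020880702101020808b97045009720081040400b93044c1172608000 = true := by
  decide +kernel

theorem drs_6_da : okB 10000
    (uD 0 4321 3820 4558 10 22 2220 1817 344 628 110 440)
    0 1580 0 0 40 1817 1876 1740 2070 1250 2500 440 650
    0x12bc481de2f78092060c0002e049032e049032e241822e5c181280880320500820808202 = true := by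
  decide +kernel

theorem drs_6_ua : okB 10000
    (uU 0 4321 3820 4558 10 22 2220 2445 1817 1876 344 628 110 440)
    0 1580 0 0 40 1817 1876 1740 2070 1250 2500 440 650
    0x54a806e81ba0880320101820808202 = true := by
  decide +kernel

theorem drs_6_ub : okB 10000
    (uU 1 4321 3820 4558 10 22 2220 2445 1817 1876 344 628 110 440)
    0 1580 0 0 40 1876 2700 1740 2070 1250 2500 440 650
    0x130e08382261c1000e1c1022658202021d807061c100200c9824ec0803001c18720001070404202001c100 = true := by
  decide +kernel

theorem trs_6 {xs s T ρ : ℝ} (hW : RWp.In ⟨1700 / 10000, 2170 / 10000, 160 / 10000, 490 / 10000, 2220 / 10000, 2445 / 10000, 440 / 10000, 650 / 10000, 4465 / 10000, 3820 / 10000, 110 / 10000, 440 / 10000, 22 / 10, 59 / 100⟩ xs s T ρ)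
    (hD : Dx xs (1 / 2 - s) T ρ = 2 * π * 4 * ρ)
    (ha : ((1817 : ℕ) : ℝ) / 10000 ≤ xs) (he : xs ≤ ((1876 : ℕ) : ℝ) / 10000)
    (hs : ((2220 : ℕ) : ℝ) / 10000 ≤ s) (hs' : s ≤ ((2445 : ℕ) : ℝ) / 10000) :
    RampOK1 4 xs (1 / 2 - s) T ρ (10 / 100) (27 / 100) := by
  have hN : Nm 4321 3820 4558 10 22 628 2220 110 440 1740 2070 440 650 xs s T ρ := by
    obtain ⟨-, -, w1, w2, -, -, w5, w6, w7, w8, w9, w10, w11, w12⟩ := hW
    dsimp only at w1 w2 w6 w7 w8 w9 w10 w11 w12
    push_cast at ha he hs hs'
    exact ⟨by linarith only [ha, w5, w7], by linarith only [he, w5, w7], by push_cast; linarith only [hs], by norm_num, by push_cast; linarith only [he, hs'],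
      by norm_num, by push_cast; linarith only [w9], by norm_num, by push_cast; linarith only [he, hs', w5, w7, w11], by norm_num,
      by push_cast; linarith only [he, hs, w5, w7], by push_cast; linarith only [ha, hs'], by norm_num, by push_cast; linarith only [w1],
      by push_cast; linarith only [w2], by push_cast; linarith only [w6], by push_cast; linarith only [w7], w5,
      fun _ => by push_cast; linarith only [w10], by push_cast; linarith only [w11]⟩
  have g : NE 344 2445 1817 xs s T ρ :=
    ⟨hD, hs', by norm_num, Or.inr (Or.inl (by push_cast at he hs ⊢; linarith only [he, hs])), by norm_num, ha⟩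
  have hcl : (0 : ℝ) < 10 / 100 := by norm_num
  have hcp : (27 / 100 : ℝ) < 1 / 2 := by norm_num
  refine ⟨fun y hA => qE drs_6_e hN g hA hcl hcp (by norm_num) ha he,
    fun x y hA hx => ?_, fun x y hA hx => ?_⟩
  · have hx0 : ((1000 : ℕ) : ℝ) / 10000 ≤ x := le_trans (by norm_num) hA.x0
    rcases le_total x (((1817 : ℕ) : ℝ) / 10000) with hc | hc
    · exact qD drs_6_db hN g hA hcl hcp (by norm_num) (by norm_num) hx0 hc hx
    · exact qD drs_6_da hN g hA hcl hcp (by norm_num) (by norm_num) hc (hx.le.trans he) hx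
  · have hx1 : x ≤ ((2700 : ℕ) : ℝ) / 10000 := le_trans hA.x1 (by norm_num)
    rcases le_total x (((1876 : ℕ) : ℝ) / 10000) with hc | hc
    · exact qU drs_6_ua hN g hA hcl hcp (by norm_num) (by norm_num) he (ha.trans hx.le) hc hx
    · exact qU drs_6_ub hN g hA hcl hcp (by norm_num) (by norm_num) he hc hx1 hx

theorem drs_7_e : okB 10000
    (uE 4380 3820 4617 10 22 2220 2445 1876 285 569 110 440)
    0 1580 0 0 40 1876 1935 1740 2070 1250 2500 440 650
    0x102040801020496101840120778903c2000920604903244008220101820808202 = true := by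
  decide +kernel

theorem drs_7_db : okB 10000
    (uD 1 4380 3820 4617 10 22 2220 1876 285 569 110 440)
    0 1580 0 0 40 1000 1876 1740 2070 1250 2500 440 650
    0x17240cb8124089030e089032e4819400501120600802285f103065c1002e5c09006500140e0c1140404204001c08404082022e5c114025c98204101002e4c117004c100 = true := by
  decide +kernel

theorem drs_7_da : okB 10000
    (uD 0 4380 3820 4617 10 22 2220 1876 285 569 110 440)
    0 1580 0 0 40 1876 1935 1740 2070 1250 2500 440 650
    0x122e04b811248083280880320500820808a02 = true := by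
  decide +kernel

theorem drs_7_ua : okB 10000
    (uU 0 4380 3820 4617 10 22 2220 2445 1876 1935 285 569 110 440)
    0 1580 0 0 40 1876 1935 1740 2070 1250 2500 440 650
    0x152a01120aea70404803261c0820808202 = true := by
  decide +kernel

theorem drs_7_ub : okB 10000
    (uU 1 4380 3820 4617 10 22 2220 2445 1876 1935 285 569 110 440)
    0 1580 0 0 40 1935 2700 1740 2070 1250 2500 440 650
    0x58382261c1000e1c1020e1c3900000830004010704040130e041130e04193041c100 = true := by
  decide +kernel

theorem trs_7 {xs s T ρ : ℝ} (hW : RWp.In ⟨1700 / 10000, 2170 / 10000, 160 / 10000, 490 / 10000, 2220 / 10000, 2445 / 10000, 440 / 10000, 650 / 10000, 4465 / 10000, 3820 / 10000, 110 / 10000, 440 / 10000, 22 / 10, 59 / 100⟩ xs s T ρ)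
    (hD : Dx xs (1 / 2 - s) T ρ = 2 * π * 4 * ρ)
    (ha : ((1876 : ℕ) : ℝ) / 10000 ≤ xs) (he : xs ≤ ((1935 : ℕ) : ℝ) / 10000)
    (hs : ((2220 : ℕ) : ℝ) / 10000 ≤ s) (hs' : s ≤ ((2445 : ℕ) : ℝ) / 10000) :
    RampOK1 4 xs (1 / 2 - s) T ρ (10 / 100) (27 / 100) := by
  have hN : Nm 4380 3820 4617 10 22 569 2220 110 440 1740 2070 440 650 xs s T ρ := by
    obtain ⟨-, -, w1, w2, -, -, w5, w6, w7, w8, w9, w10, w11, w12⟩ := hW
    dsimp only at w1 w2 w6 w7 w8 w9 w10 w11 w12
    push_cast at ha he hs hs'
    exact ⟨by linarith only [ha, w5, w7], by linarith only [he, w5, w7], by push_cast; linarith only [hs], by norm_num, by push_cast; linarith only [he, hs'],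
      by norm_num, by push_cast; linarith only [w9], by norm_num, by push_cast; linarith only [he, hs', w5, w7, w11], by norm_num,
      by push_cast; linarith only [he, hs, w5, w7], by push_cast; linarith only [ha, hs'], by norm_num, by push_cast; linarith only [w1],
      by push_cast; linarith only [w2], by push_cast; linarith only [w6], by push_cast; linarith only [w7], w5,
      fun _ => by push_cast; linarith only [w10], by push_cast; linarith only [w11]⟩
  have g : NE 285 2445 1876 xs s T ρ :=
    ⟨hD, hs', by norm_num, Or.inr (Or.inl (by push_cast at he hs ⊢; linarith only [he, hs])), by norm_num, ha⟩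
  have hcl : (0 : ℝ) < 10 / 100 := by norm_num
  have hcp : (27 / 100 : ℝ) < 1 / 2 := by norm_num
  refine ⟨fun y hA => qE drs_7_e hN g hA hcl hcp (by norm_num) ha he,
    fun x y hA hx => ?_, fun x y hA hx => ?_⟩
  · have hx0 : ((1000 : ℕ) : ℝ) / 10000 ≤ x := le_trans (by norm_num) hA.x0
    rcases le_total x (((1876 : ℕ) : ℝ) / 10000) with hc | hc
    · exact qD drs_7_db hN g hA hcl hcp (by norm_num) (by norm_num) hx0 hc hx
    · exact qD drs_7_da hN g hA hcl hcp (by norm_num) (by norm_num) hc (hx.le.trans he) hx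
  · have hx1 : x ≤ ((2700 : ℕ) : ℝ) / 10000 := le_trans hA.x1 (by norm_num)
    rcases le_total x (((1935 : ℕ) : ℝ) / 10000) with hc | hc
    · exact qU drs_7_ua hN g hA hcl hcp (by norm_num) (by norm_num) he (ha.trans hx.le) hc hx
    · exact qU drs_7_ub hN g hA hcl hcp (by norm_num) (by norm_num) he hc hx1 hx

theorem drs_8_e : okB 10000
    (uE 4465 3820 4852 10 22 2220 2445 1935 50 510 110 440)
    0 1580 0 0 40 1935 2170 1740 2070 1250 2500 440 650
    0x1c3900203190000c2040008810217c9030204010061c187041c1010808382 = true := by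
  decide +kernel

theorem drs_8_db : okB 10000
    (uD 1 4465 3820 4852 10 22 2220 1935 50 510 110 440)
    0 1580 0 0 40 1000 1935 1740 2070 1250 2500 440 650
    0x122e04b80200c382280081c000cb92045c00706500012040014020820708080820808b970450090080898004101002e4c113004c100 = true := by
  decide +kernel

theorem drs_8_da : okB 10000
    (uD 0 4465 3820 4852 10 22 2220 1935 50 510 110 440)
    0 1580 0 0 40 1935 2170 1740 2070 1250 2500 440 650
    0x72000a02c6400030810002205cb800050114041c1810808a02 = true := by
  decide +kernel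

theorem drs_8_ua : okB 10000
    (uU 0 4465 3820 4852 10 22 2220 2445 1935 2170 50 510 110 440)
    0 1580 0 0 40 1935 2170 1740 2070 1250 2500 440 650
    0x70e4008008089832174b03001c187041c1010808382 = true := by
  decide +kernel

theorem drs_8_ub : okB 10000
    (uU 1 4465 3820 4852 10 22 2220 2445 1935 2170 50 510 110 440)
    0 1580 0 0 40 2170 2700 1740 2070 1250 2500 440 650
    0x70e08382261c1030e1c102081c087041c1130e042020e08000 = true := by
  decide +kernel

theorem trs_8 {xs s T ρ : ℝ} (hW : RWp.In ⟨1700 / 10000, 2170 / 10000, 160 / 10000, 490 / 10000, 2220 / 10000, 2445 / 10000, 440 / 10000, 650 / 10000, 4465 / 10000, 3820 / 10000, 110 / 10000, 440 / 10000, 22 / 10, 59 / 100⟩ xs s T ρ)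
    (hD : Dx xs (1 / 2 - s) T ρ = 2 * π * 4 * ρ)
    (ha : ((1935 : ℕ) : ℝ) / 10000 ≤ xs) (he : xs ≤ ((2170 : ℕ) : ℝ) / 10000)
    (hs : ((2220 : ℕ) : ℝ) / 10000 ≤ s) (hs' : s ≤ ((2445 : ℕ) : ℝ) / 10000) :
    RampOK1 4 xs (1 / 2 - s) T ρ (10 / 100) (27 / 100) := by
  have hN : Nm 4465 3820 4852 10 22 510 2220 110 440 1740 2070 440 650 xs s T ρ := by
    obtain ⟨-, -, w1, w2, -, -, w5, w6, w7, w8, w9, w10, w11, w12⟩ := hW
    dsimp only at w1 w2 w6 w7 w8 w9 w10 w11 w12
    push_cast at ha he hs hs'
    exact ⟨by linarith only [ha, w5, w7], by linarith only [he, w5, w7], by push_cast; linarith only [hs], by norm_num, by push_cast; linarith only [w8],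
      by norm_num, by push_cast; linarith only [w9], by norm_num, by push_cast; linarith only [he, hs', w5, w7, w11], by norm_num,
      by push_cast; linarith only [he, hs, w5, w7], by push_cast; linarith only [ha, hs'], by norm_num, by push_cast; linarith only [w1],
      by push_cast; linarith only [w2], by push_cast; linarith only [w6], by push_cast; linarith only [w7], w5,
      fun _ => by push_cast; linarith only [w10], by push_cast; linarith only [w11]⟩
  have g : NE 50 2445 1935 xs s T ρ :=
    ⟨hD, hs', by norm_num, Or.inr (Or.inl (by push_cast at he hs ⊢; linarith only [he, hs])), by norm_num, ha⟩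
  have hcl : (0 : ℝ) < 10 / 100 := by norm_num
  have hcp : (27 / 100 : ℝ) < 1 / 2 := by norm_num
  refine ⟨fun y hA => qE drs_8_e hN g hA hcl hcp (by norm_num) ha he,
    fun x y hA hx => ?_, fun x y hA hx => ?_⟩
  · have hx0 : ((1000 : ℕ) : ℝ) / 10000 ≤ x := le_trans (by norm_num) hA.x0
    rcases le_total x (((1935 : ℕ) : ℝ) / 10000) with hc | hc
    · exact qD drs_8_db hN g hA hcl hcp (by norm_num) (by norm_num) hx0 hc hx
    · exact qD drs_8_da hN g hA hcl hcp (by norm_num) (by norm_num) hc (hx.le.trans he) hx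
  · have hx1 : x ≤ ((2700 : ℕ) : ℝ) / 10000 := le_trans hA.x1 (by norm_num)
    rcases le_total x (((2170 : ℕ) : ℝ) / 10000) with hc | hc
    · exact qU drs_8_ua hN g hA hcl hcp (by norm_num) (by norm_num) he (ha.trans hx.le) hc hx
    · exact qU drs_8_ub hN g hA hcl hcp (by norm_num) (by norm_num) he hc hx1 hx

end RQ4

namespace RC

theorem e4_rs : RowE
    ⟨1700 / 10000, 2170 / 10000, 160 / 10000, 490 / 10000, 2220 / 10000, 2445 / 10000, 440 / 10000, 650 / 10000, 4465 / 10000, 3820 / 10000, 110 / 10000, 440 / 10000, 22 / 10, 59 / 100⟩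
    4 (10 / 100) (27 / 100) := by
  intro xs s T ρ hW hD
  have h0 : ((1700 : ℕ) : ℝ) / 10000 ≤ xs := le_trans (by norm_num) hW.x0
  have h1 : xs ≤ ((2170 : ℕ) : ℝ) / 10000 := le_trans hW.x1 (by norm_num)
  have k0 : ((2220 : ℕ) : ℝ) / 10000 ≤ s := le_trans (by norm_num) hW.s0
  have k1 : s ≤ ((2445 : ℕ) : ℝ) / 10000 := le_trans hW.s1 (by norm_num)
  rcases le_total xs (((1758 : ℕ) : ℝ) / 10000) with m1758 | m1758
  · rcases le_total s (((2332 : ℕ) : ℝ) / 10000) with u2332 | u2332
    · exact RQ4.trs_0 hW hD h0 m1758 k0 u2332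
    · rcases le_total xs (((1729 : ℕ) : ℝ) / 10000) with m1729 | m1729
      · exact RQ4.trs_1 hW hD h0 m1729 u2332 k1
      · exact RQ4.trs_2 hW hD m1729 m1758 u2332 k1
  · rcases le_total xs (((1772 : ℕ) : ℝ) / 10000) with m1772 | m1772
    · exact RQ4.trs_3 hW hD m1758 m1772 k0 k1
    · rcases le_total xs (((1787 : ℕ) : ℝ) / 10000) with m1787 | m1787
      · exact RQ4.trs_4 hW hD m1772 m1787 k0 k1
      · rcases le_total xs (((1817 : ℕ) : ℝ) / 10000) with m1817 | m1817
        · exact RQ4.trs_5 hW hD m1787 m1817 k0 k1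
        · rcases le_total xs (((1876 : ℕ) : ℝ) / 10000) with m1876 | m1876
          · exact RQ4.trs_6 hW hD m1817 m1876 k0 k1
          · rcases le_total xs (((1935 : ℕ) : ℝ) / 10000) with m1935 | m1935
            · exact RQ4.trs_7 hW hD m1876 m1935 k0 k1
            · exact RQ4.trs_8 hW hD m1935 h1 k0 k1

end RC

end Pool.Agent.Work.MP_b30479_gtS.G2

end

section

/-!
# Rings with the ring variable on the ramp, `b = 4`, inside: rows one_a, one_b
-/

set_option deprecated.oldSectionVars true

namespace Pool.Agent.Work.MP_b30479_gtS.G2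

open Real NumIs

namespace RQ4

open RC RQ

theorem sone_a_0 {xs s T ρ : ℝ} (hW : RWp.In ⟨2250 / 10000, 2980 / 10000, -(1280 / 10000), -(380 / 10000), 1510 / 10000, 2000 / 10000, 330 / 10000, 850 / 10000, 4826 / 10000, 4150 / 10000, 960 / 10000, 1861 / 10000, 0, 1⟩ xs s T ρ)
    (ha : ((2250 : ℕ) : ℝ) / 10000 ≤ xs) (he : xs ≤ ((2615 : ℕ) : ℝ) / 10000) :
    RampOK (65 / 100) (14 / 100) 1 4 xs (1 / 2 - s) T ρ (16 / 100) (36 / 100) := by
  have hN : Nm 4615 4150 4615 0 1 1105 1510 960 1861 300 1200 330 850 xs s T ρ := by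
    obtain ⟨-, -, w1, w2, w3, w4, w5, w6, w7, w8, w9, w10, w11, w12⟩ := hW
    dsimp only at w1 w2 w3 w4 w6 w7 w8 w9 w10 w11 w12
    push_cast at ha he
    exact ⟨by linarith only [ha, w5, w7], by linarith only [he, w5, w7], by push_cast; linarith only [w3], by norm_num, by push_cast; linarith only [he, w4],
      by norm_num, by push_cast; linarith only [w9], by norm_num, by push_cast; linarith only [he, w4], by norm_num,
      by push_cast; linarith only [he, w3], by push_cast; linarith only [ha, w4, w5, w7], by norm_num, by push_cast; linarith only [w1],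
      by push_cast; linarith only [w2], by push_cast; linarith only [w6], by push_cast; linarith only [w7], w5,
      fun _ => by push_cast; linarith only [w10], by push_cast; linarith only [w11]⟩
  have hT : |T| ≤ ((1280 : ℕ) : ℝ) / 10000 := by
    have w1 := hW.t0
    have w2 := hW.t1
    dsimp only at w1 w2
    rw [abs_le]
    push_cast
    constructor <;> linarith only [w1, w2]
  have kc : kC4 10000 2250 2615 1280 465 = true := by decide +kernel
  have ua : kU 10000 2250 48374 = true := by decide +kernel
  have hcl : (0 : ℝ) < 16 / 100 := by norm_num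
  have hcp : (36 / 100 : ℝ) < 1 / 2 := by norm_num
  have h5 := hN.xs1.le
  refine ⟨fun x y hA => ?_, fun x y hA hx => ?_, fun x y hA hx => ?_⟩
  · have hx0 : ((1600 : ℕ) : ℝ) / 10000 ≤ x := le_trans (by norm_num) hA.x0
    have hx1 : x ≤ ((3600 : ℕ) : ℝ) / 10000 := le_trans hA.x1 (by norm_num)
    have x0 : 0 < x := (n0 (by decide)).trans_le hx0
    rcases le_total x (((2250 : ℕ) : ℝ) / 10000) with c0 | c0
    · have h := piP cone_a_0_pl0 hN hA hcl hcp hx0 c0
      have g0 := gL (be := 10000) (p := 2250) (G := 48373) (by decide +kernel) x0 c0 le_rfl (by decide)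
      have gm := gh_mono (x := ((2250 : ℕ) : ℝ) / 10000) (n0 (by decide)) ha h5
      unfold lin at h
      push_cast at h gm g0
      linarith only [neg_abs_le (gh x - gh xs), h, gm, g0]
    rcases le_total x (((2615 : ℕ) : ℝ) / 10000) with ce | ce
    · have h := piP cone_a_0_pm hN hA hcl hcp c0 ce
      unfold lin at h
      push_cast at h
      linarith only [abs_nonneg (gh x - gh xs), h]
    have gm := gh_mono (y := ((2615 : ℕ) : ℝ) / 10000) hN.xs0 he (nhalf (by decide))
    have h := piP cone_a_0_pr0 hN hA hcl hcp ce hx1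
    have g0 := gL (be := 10000) (p := 3600) (G := 34720) (x := ((2615 : ℕ) : ℝ) / 10000) (by decide +kernel)
      (n0 (by decide)) ce hx1 (by decide)
    unfold lin at h
    push_cast at h gm g0
    linarith only [le_abs_self (gh x - gh xs), h, gm, g0]
  · have hx0 : ((1600 : ℕ) : ℝ) / 10000 ≤ x := le_trans (by norm_num) hA.x0
    have hx1 : x ≤ ((3600 : ℕ) : ℝ) / 10000 := le_trans hA.x1 (by norm_num)
    have gm := gh_mono ((n0 (by decide)).trans_le hx0) hx.le h5
    have ga := gU ua (by decide) le_rfl ha h5
    have g3 := gS4 kc (by decide) (by decide) le_rfl ha he hT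
    push_cast at ga g3
    rcases le_total x (((2250 : ℕ) : ℝ) / 10000) with c0 | c0
    · have h := piD1 cone_a_0_db0 hN hA hcl hcp (by decide) hx0 c0 ha
      have g0 := gU (be := 10000) (p := 1600) (G := 65212) (by decide +kernel) (by decide) hx0 c0
        (nhalf (by decide))
      push_cast at h g0
      unfold lin at h
      push_cast at h
      exact dn_fin5 h gm (by linarith only [he, ga, g0]) (by linarith only [g3, g0])
    have h := piD0 cone_a_0_da hN hA hcl hcp (by decide) c0 (hx.le.trans he) hx.le
    have g1 := gU ua (by decide) c0 hx.le h5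
    have g4 := gS4 kc (by decide) (by decide) c0 hx.le he hT
    unfold lin at h
    push_cast at h g1 g4
    exact dn_fin5 h gm (by linarith only [he, g1]) (by linarith only [g4])
  · have hx0 : ((1600 : ℕ) : ℝ) / 10000 ≤ x := le_trans (by norm_num) hA.x0
    have hx1 : x ≤ ((3600 : ℕ) : ℝ) / 10000 := le_trans hA.x1 (by norm_num)
    have gm := gh_mono hN.xs0 hx.le (hx1.trans (nhalf (by decide)))
    rcases le_total x (((2615 : ℕ) : ℝ) / 10000) with ce | ce
    · have h := piU0 cone_a_0_ua hN hA hcl hcp (ha.trans hx.le) ce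
      have g1 := gU ua (by decide) ha hx.le (hx1.trans (nhalf (by decide)))
      have g3 := gS4 kc (by decide) (by decide) ha hx.le ce hT
      unfold lin at h
      push_cast at h g1 g3
      exact up_fin5 h gm (by linarith only [ha, g1]) (by linarith only [g3])
    have ga := gU (y := ((2615 : ℕ) : ℝ) / 10000) ua (by decide) ha he (nhalf (by decide))
    have g3 := gS4 kc (by decide) (by decide) ha he le_rfl hT
    push_cast at ga g3
    rcases le_total x (((3000 : ℕ) : ℝ) / 10000) with d0 | d0
    · have h := piU1 cone_a_0_ub0 hN hA hcl hcp ce d0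
      have g0 := gU (be := 10000) (p := 2615) (G := 42908) (by decide +kernel) (by decide) le_rfl ce
        (hx1.trans (nhalf (by decide)))
      unfold lin at h
      push_cast at h g0
      exact up_fin5 h gm (by linarith only [ha, ga, g0]) (by linarith only [g3, g0])
    have h := piU1 cone_a_0_ub1 hN hA hcl hcp d0 hx1
    have g0 := gU (be := 10000) (p := 3000) (G := 38833) (by decide +kernel) (by decide) le_rfl d0
      (hx1.trans (nhalf (by decide)))
    have k1 := gU (be := 10000) (p := 2615) (G := 42908) (y := ((3000 : ℕ) : ℝ) / 10000) (by decide +kernel)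
      (by decide) le_rfl (nle (by decide)) (nhalf (by decide))
    unfold lin at h
    push_cast at h g0 k1
    exact up_fin5 h gm (by linarith only [ha, ga, g0, k1]) (by linarith only [g3, g0, k1])

theorem sone_a_1 {xs s T ρ : ℝ} (hW : RWp.In ⟨2250 / 10000, 2980 / 10000, -(1280 / 10000), -(380 / 10000), 1510 / 10000, 2000 / 10000, 330 / 10000, 850 / 10000, 4826 / 10000, 4150 / 10000, 960 / 10000, 1861 / 10000, 0, 1⟩ xs s T ρ)
    (ha : ((2615 : ℕ) : ℝ) / 10000 ≤ xs) (he : xs ≤ ((2980 : ℕ) : ℝ) / 10000) :
    RampOK (65 / 100) (14 / 100) 1 4 xs (1 / 2 - s) T ρ (16 / 100) (36 / 100) := by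
  have hN : Nm 4826 4150 4826 0 1 1470 1510 960 1861 300 1200 330 850 xs s T ρ := by
    obtain ⟨-, -, w1, w2, w3, w4, w5, w6, w7, w8, w9, w10, w11, w12⟩ := hW
    dsimp only at w1 w2 w3 w4 w6 w7 w8 w9 w10 w11 w12
    push_cast at ha he
    exact ⟨by linarith only [ha, w5, w7], by linarith only [he, w5, w7], by push_cast; linarith only [w3], by norm_num, by push_cast; linarith only [w8],
      by norm_num, by push_cast; linarith only [w9], by norm_num, by push_cast; linarith only [w8], by norm_num,
      by push_cast; linarith only [he, w3], by push_cast; linarith only [ha, w4, w5, w7], by norm_num, by push_cast; linarith only [w1],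
      by push_cast; linarith only [w2], by push_cast; linarith only [w6], by push_cast; linarith only [w7], w5,
      fun _ => by push_cast; linarith only [w10], by push_cast; linarith only [w11]⟩
  have hT : |T| ≤ ((1280 : ℕ) : ℝ) / 10000 := by
    have w1 := hW.t0
    have w2 := hW.t1
    dsimp only at w1 w2
    rw [abs_le]
    push_cast
    constructor <;> linarith only [w1, w2]
  have kc : kC4 10000 2615 2980 1280 1375 = true := by decide +kernel
  have ua : kU 10000 2615 42908 = true := by decide +kernel
  have hcl : (0 : ℝ) < 16 / 100 := by norm_num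
  have hcp : (36 / 100 : ℝ) < 1 / 2 := by norm_num
  have h5 := hN.xs1.le
  refine ⟨fun x y hA => ?_, fun x y hA hx => ?_, fun x y hA hx => ?_⟩
  · have hx0 : ((1600 : ℕ) : ℝ) / 10000 ≤ x := le_trans (by norm_num) hA.x0
    have hx1 : x ≤ ((3600 : ℕ) : ℝ) / 10000 := le_trans hA.x1 (by norm_num)
    have x0 : 0 < x := (n0 (by decide)).trans_le hx0
    rcases le_total x (((2615 : ℕ) : ℝ) / 10000) with c0 | c0
    · have h := piP cone_a_1_pl0 hN hA hcl hcp hx0 c0
      have g0 := gL (be := 10000) (p := 2615) (G := 42907) (by decide +kernel) x0 c0 le_rfl (by decide)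
      have gm := gh_mono (x := ((2615 : ℕ) : ℝ) / 10000) (n0 (by decide)) ha h5
      unfold lin at h
      push_cast at h gm g0
      linarith only [neg_abs_le (gh x - gh xs), h, gm, g0]
    rcases le_total x (((2980 : ℕ) : ℝ) / 10000) with ce | ce
    · have h := piP cone_a_1_pm hN hA hcl hcp c0 ce
      unfold lin at h
      push_cast at h
      linarith only [abs_nonneg (gh x - gh xs), h]
    have gm := gh_mono (y := ((2980 : ℕ) : ℝ) / 10000) hN.xs0 he (nhalf (by decide))
    have h := piP cone_a_1_pr0 hN hA hcl hcp ce hx1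
    have g0 := gL (be := 10000) (p := 3600) (G := 34720) (x := ((2980 : ℕ) : ℝ) / 10000) (by decide +kernel)
      (n0 (by decide)) ce hx1 (by decide)
    unfold lin at h
    push_cast at h gm g0
    linarith only [le_abs_self (gh x - gh xs), h, gm, g0]
  · have hx0 : ((1600 : ℕ) : ℝ) / 10000 ≤ x := le_trans (by norm_num) hA.x0
    have hx1 : x ≤ ((3600 : ℕ) : ℝ) / 10000 := le_trans hA.x1 (by norm_num)
    have gm := gh_mono ((n0 (by decide)).trans_le hx0) hx.le h5
    have ga := gU ua (by decide) le_rfl ha h5
    have g3 := gS4 kc (by decide) (by decide) le_rfl ha he hT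
    push_cast at ga g3
    rcases le_total x (((2615 : ℕ) : ℝ) / 10000) with c0 | c0
    · have h := piD1 cone_a_1_db0 hN hA hcl hcp (by decide) hx0 c0 ha
      have g0 := gU (be := 10000) (p := 1600) (G := 65212) (by decide +kernel) (by decide) hx0 c0
        (nhalf (by decide))
      push_cast at h g0
      unfold lin at h
      push_cast at h
      exact dn_fin5 h gm (by linarith only [he, ga, g0]) (by linarith only [g3, g0])
    have h := piD0 cone_a_1_da hN hA hcl hcp (by decide) c0 (hx.le.trans he) hx.le
    have g1 := gU ua (by decide) c0 hx.le h5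
    have g4 := gS4 kc (by decide) (by decide) c0 hx.le he hT
    unfold lin at h
    push_cast at h g1 g4
    exact dn_fin5 h gm (by linarith only [he, g1]) (by linarith only [g4])
  · have hx0 : ((1600 : ℕ) : ℝ) / 10000 ≤ x := le_trans (by norm_num) hA.x0
    have hx1 : x ≤ ((3600 : ℕ) : ℝ) / 10000 := le_trans hA.x1 (by norm_num)
    have gm := gh_mono hN.xs0 hx.le (hx1.trans (nhalf (by decide)))
    rcases le_total x (((2980 : ℕ) : ℝ) / 10000) with ce | ce
    · have h := piU0 cone_a_1_ua hN hA hcl hcp (ha.trans hx.le) ce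
      have g1 := gU ua (by decide) ha hx.le (hx1.trans (nhalf (by decide)))
      have g3 := gS4 kc (by decide) (by decide) ha hx.le ce hT
      unfold lin at h
      push_cast at h g1 g3
      exact up_fin5 h gm (by linarith only [ha, g1]) (by linarith only [g3])
    have ga := gU (y := ((2980 : ℕ) : ℝ) / 10000) ua (by decide) ha he (nhalf (by decide))
    have g3 := gS4 kc (by decide) (by decide) ha he le_rfl hT
    push_cast at ga g3
    rcases le_total x (((3300 : ℕ) : ℝ) / 10000) with d0 | d0
    · have h := piU1 cone_a_1_ub0 hN hA hcl hcp ce d0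
      have g0 := gU (be := 10000) (p := 2980) (G := 39012) (by decide +kernel) (by decide) le_rfl ce
        (hx1.trans (nhalf (by decide)))
      unfold lin at h
      push_cast at h g0
      exact up_fin5 h gm (by linarith only [ha, ga, g0]) (by linarith only [g3, g0])
    have h := piU1 cone_a_1_ub1 hN hA hcl hcp d0 hx1
    have g0 := gU (be := 10000) (p := 3300) (G := 36499) (by decide +kernel) (by decide) le_rfl d0
      (hx1.trans (nhalf (by decide)))
    have k1 := gU (be := 10000) (p := 2980) (G := 39012) (y := ((3300 : ℕ) : ℝ) / 10000) (by decide +kernel)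
      (by decide) le_rfl (nle (by decide)) (nhalf (by decide))
    unfold lin at h
    push_cast at h g0 k1
    exact up_fin5 h gm (by linarith only [ha, ga, g0, k1]) (by linarith only [g3, g0, k1])

theorem sone_b_0 {xs s T ρ : ℝ} (hW : RWp.In ⟨2250 / 10000, 2980 / 10000, -(1280 / 10000), -(380 / 10000), 2000 / 10000, 2004 / 10000, 330 / 10000, 850 / 10000, 4826 / 10000, 4150 / 10000, 960 / 10000, 1861 / 10000, 0, 1⟩ xs s T ρ)
    (ha : ((2250 : ℕ) : ℝ) / 10000 ≤ xs) (he : xs ≤ ((2538 : ℕ) : ℝ) / 10000) :
    RampOK (65 / 100) (14 / 100) (11 / 10) 4 xs (1 / 2 - s) T ρ (16 / 100) (36 / 100) := by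
  have hN : Nm 4542 4150 4542 0 1 538 2000 960 1861 300 1200 330 850 xs s T ρ := by
    obtain ⟨-, -, w1, w2, w3, w4, w5, w6, w7, w8, w9, w10, w11, w12⟩ := hW
    dsimp only at w1 w2 w3 w4 w6 w7 w8 w9 w10 w11 w12
    push_cast at ha he
    exact ⟨by linarith only [ha, w5, w7], by linarith only [he, w5, w7], by push_cast; linarith only [w3], by norm_num, by push_cast; linarith only [he, w4],
      by norm_num, by push_cast; linarith only [w9], by norm_num, by push_cast; linarith only [he, w4], by norm_num,
      by push_cast; linarith only [he, w3], by push_cast; linarith only [ha, w4, w5, w7], by norm_num, by push_cast; linarith only [w1],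
      by push_cast; linarith only [w2], by push_cast; linarith only [w6], by push_cast; linarith only [w7], w5,
      fun _ => by push_cast; linarith only [w10], by push_cast; linarith only [w11]⟩
  have hT : |T| ≤ ((1280 : ℕ) : ℝ) / 10000 := by
    have w1 := hW.t0
    have w2 := hW.t1
    dsimp only at w1 w2
    rw [abs_le]
    push_cast
    constructor <;> linarith only [w1, w2]
  have kc : kC4 11000 2250 2538 1280 1621 = true := by decide +kernel
  have ua : kU 11000 2250 53211 = true := by decide +kernel
  have hcl : (0 : ℝ) < 16 / 100 := by norm_num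
  have hcp : (36 / 100 : ℝ) < 1 / 2 := by norm_num
  have h5 := hN.xs1.le
  refine ⟨fun x y hA => ?_, fun x y hA hx => ?_, fun x y hA hx => ?_⟩
  · have hx0 : ((1600 : ℕ) : ℝ) / 10000 ≤ x := le_trans (by norm_num) hA.x0
    have hx1 : x ≤ ((3600 : ℕ) : ℝ) / 10000 := le_trans hA.x1 (by norm_num)
    have x0 : 0 < x := (n0 (by decide)).trans_le hx0
    rcases le_total x (((2250 : ℕ) : ℝ) / 10000) with c0 | c0
    · have h := piP cone_b_0_pl0 hN hA hcl hcp hx0 c0
      have g0 := gL (be := 11000) (p := 2250) (G := 53210) (by decide +kernel) x0 c0 le_rfl (by decide)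
      have gm := gh_mono (x := ((2250 : ℕ) : ℝ) / 10000) (n0 (by decide)) ha h5
      unfold lin at h
      push_cast at h gm g0
      linarith only [neg_abs_le (gh x - gh xs), h, gm, g0]
    rcases le_total x (((2538 : ℕ) : ℝ) / 10000) with ce | ce
    · have h := piP cone_b_0_pm hN hA hcl hcp c0 ce
      unfold lin at h
      push_cast at h
      linarith only [abs_nonneg (gh x - gh xs), h]
    have gm := gh_mono (y := ((2538 : ℕ) : ℝ) / 10000) hN.xs0 he (nhalf (by decide))
    have h := piP cone_b_0_pr0 hN hA hcl hcp ce hx1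
    have g0 := gL (be := 11000) (p := 3600) (G := 38192) (x := ((2538 : ℕ) : ℝ) / 10000) (by decide +kernel)
      (n0 (by decide)) ce hx1 (by decide)
    unfold lin at h
    push_cast at h gm g0
    linarith only [le_abs_self (gh x - gh xs), h, gm, g0]
  · have hx0 : ((1600 : ℕ) : ℝ) / 10000 ≤ x := le_trans (by norm_num) hA.x0
    have hx1 : x ≤ ((3600 : ℕ) : ℝ) / 10000 := le_trans hA.x1 (by norm_num)
    have gm := gh_mono ((n0 (by decide)).trans_le hx0) hx.le h5
    have ga := gU ua (by decide) le_rfl ha h5
    have g3 := gS4 kc (by decide) (by decide) le_rfl ha he hT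
    push_cast at ga g3
    rcases le_total x (((2250 : ℕ) : ℝ) / 10000) with c0 | c0
    · have h := piD1 cone_b_0_db0 hN hA hcl hcp (by decide) hx0 c0 ha
      have g0 := gU (be := 11000) (p := 1600) (G := 71733) (by decide +kernel) (by decide) hx0 c0
        (nhalf (by decide))
      push_cast at h g0
      unfold lin at h
      push_cast at h
      exact dn_fin5 h gm (by linarith only [he, ga, g0]) (by linarith only [g3, g0])
    have h := piD0 cone_b_0_da hN hA hcl hcp (by decide) c0 (hx.le.trans he) hx.le
    have g1 := gU ua (by decide) c0 hx.le h5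
    have g4 := gS4 kc (by decide) (by decide) c0 hx.le he hT
    unfold lin at h
    push_cast at h g1 g4
    exact dn_fin5 h gm (by linarith only [he, g1]) (by linarith only [g4])
  · have hx0 : ((1600 : ℕ) : ℝ) / 10000 ≤ x := le_trans (by norm_num) hA.x0
    have hx1 : x ≤ ((3600 : ℕ) : ℝ) / 10000 := le_trans hA.x1 (by norm_num)
    have gm := gh_mono hN.xs0 hx.le (hx1.trans (nhalf (by decide)))
    rcases le_total x (((2538 : ℕ) : ℝ) / 10000) with ce | ce
    · have h := piU0 cone_b_0_ua hN hA hcl hcp (ha.trans hx.le) ce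
      have g1 := gU ua (by decide) ha hx.le (hx1.trans (nhalf (by decide)))
      have g3 := gS4 kc (by decide) (by decide) ha hx.le ce hT
      unfold lin at h
      push_cast at h g1 g3
      exact up_fin5 h gm (by linarith only [ha, g1]) (by linarith only [g3])
    have ga := gU (y := ((2538 : ℕ) : ℝ) / 10000) ua (by decide) ha he (nhalf (by decide))
    have g3 := gS4 kc (by decide) (by decide) ha he le_rfl hT
    push_cast at ga g3
    rcases le_total x (((2700 : ℕ) : ℝ) / 10000) with d0 | d0
    · have h := piU1 cone_b_0_ub0 hN hA hcl hcp ce d0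
      have g0 := gU (be := 11000) (p := 2538) (G := 48299) (by decide +kernel) (by decide) le_rfl ce
        (hx1.trans (nhalf (by decide)))
      unfold lin at h
      push_cast at h g0
      exact up_fin5 h gm (by linarith only [ha, ga, g0]) (by linarith only [g3, g0])
    rcases le_total x (((3000 : ℕ) : ℝ) / 10000) with d1 | d1
    · have h := piU1 cone_b_0_ub1 hN hA hcl hcp d0 d1
      have g0 := gU (be := 11000) (p := 2700) (G := 46070) (by decide +kernel) (by decide) le_rfl d0
        (hx1.trans (nhalf (by decide)))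
      have k1 := gU (be := 11000) (p := 2538) (G := 48299) (y := ((2700 : ℕ) : ℝ) / 10000) (by decide +kernel)
        (by decide) le_rfl (nle (by decide)) (nhalf (by decide))
      unfold lin at h
      push_cast at h g0 k1
      exact up_fin5 h gm (by linarith only [ha, ga, g0, k1]) (by linarith only [g3, g0, k1])
    rcases le_total x (((3300 : ℕ) : ℝ) / 10000) with d2 | d2
    · have h := piU1 cone_b_0_ub2 hN hA hcl hcp d1 d2
      have g0 := gU (be := 11000) (p := 3000) (G := 42716) (by decide +kernel) (by decide) le_rfl d1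
        (hx1.trans (nhalf (by decide)))
      have k1 := gU (be := 11000) (p := 2538) (G := 48299) (y := ((2700 : ℕ) : ℝ) / 10000) (by decide +kernel)
        (by decide) le_rfl (nle (by decide)) (nhalf (by decide))
      have k2 := gU (be := 11000) (p := 2700) (G := 46070) (y := ((3000 : ℕ) : ℝ) / 10000) (by decide +kernel)
        (by decide) le_rfl (nle (by decide)) (nhalf (by decide))
      unfold lin at h
      push_cast at h g0 k1 k2
      exact up_fin5 h gm (by linarith only [ha, ga, g0, k1, k2]) (by linarith only [g3, g0, k1, k2])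
    have h := piU1 cone_b_0_ub3 hN hA hcl hcp d2 hx1
    have g0 := gU (be := 11000) (p := 3300) (G := 40149) (by decide +kernel) (by decide) le_rfl d2
      (hx1.trans (nhalf (by decide)))
    have k1 := gU (be := 11000) (p := 2538) (G := 48299) (y := ((2700 : ℕ) : ℝ) / 10000) (by decide +kernel)
      (by decide) le_rfl (nle (by decide)) (nhalf (by decide))
    have k2 := gU (be := 11000) (p := 2700) (G := 46070) (y := ((3000 : ℕ) : ℝ) / 10000) (by decide +kernel)
      (by decide) le_rfl (nle (by decide)) (nhalf (by decide))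
    have k3 := gU (be := 11000) (p := 3000) (G := 42716) (y := ((3300 : ℕ) : ℝ) / 10000) (by decide +kernel)
      (by decide) le_rfl (nle (by decide)) (nhalf (by decide))
    unfold lin at h
    push_cast at h g0 k1 k2 k3
    exact up_fin5 h gm (by linarith only [ha, ga, g0, k1, k2, k3]) (by linarith only [g3, g0, k1, k2, k3])

theorem sone_b_1 {xs s T ρ : ℝ} (hW : RWp.In ⟨2250 / 10000, 2980 / 10000, -(1280 / 10000), -(380 / 10000), 2000 / 10000, 2004 / 10000, 330 / 10000, 850 / 10000, 4826 / 10000, 4150 / 10000, 960 / 10000, 1861 / 10000, 0, 1⟩ xs s T ρ)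
    (ha : ((2538 : ℕ) : ℝ) / 10000 ≤ xs) (he : xs ≤ ((2826 : ℕ) : ℝ) / 10000) :
    RampOK (65 / 100) (14 / 100) (11 / 10) 4 xs (1 / 2 - s) T ρ (16 / 100) (36 / 100) := by
  have hN : Nm 4826 4150 4826 0 1 826 2000 960 1861 300 1200 388 850 xs s T ρ := by
    obtain ⟨-, -, w1, w2, w3, w4, w5, w6, w7, w8, w9, w10, w11, w12⟩ := hW
    dsimp only at w1 w2 w3 w4 w6 w7 w8 w9 w10 w11 w12
    push_cast at ha he
    exact ⟨by linarith only [ha, w5, w7], by linarith only [he, w5, w7], by push_cast; linarith only [w3], by norm_num, by push_cast; linarith only [w8],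
      by norm_num, by push_cast; linarith only [w9], by norm_num, by push_cast; linarith only [w8], by norm_num,
      by push_cast; linarith only [he, w3], by push_cast; linarith only [ha, w4, w5, w7], by norm_num, by push_cast; linarith only [w1],
      by push_cast; linarith only [w2], by push_cast; linarith only [ha, w3, w9], by push_cast; linarith only [w7], w5,
      fun _ => by push_cast; linarith only [w10], by push_cast; linarith only [w11]⟩
  have hT : |T| ≤ ((1280 : ℕ) : ℝ) / 10000 := by
    have w1 := hW.t0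
    have w2 := hW.t1
    dsimp only at w1 w2
    rw [abs_le]
    push_cast
    constructor <;> linarith only [w1, w2]
  have kc : kC4 11000 2538 2826 1280 2144 = true := by decide +kernel
  have ua : kU 11000 2538 48299 = true := by decide +kernel
  have hcl : (0 : ℝ) < 16 / 100 := by norm_num
  have hcp : (36 / 100 : ℝ) < 1 / 2 := by norm_num
  have h5 := hN.xs1.le
  refine ⟨fun x y hA => ?_, fun x y hA hx => ?_, fun x y hA hx => ?_⟩
  · have hx0 : ((1600 : ℕ) : ℝ) / 10000 ≤ x := le_trans (by norm_num) hA.x0
    have hx1 : x ≤ ((3600 : ℕ) : ℝ) / 10000 := le_trans hA.x1 (by norm_num)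
    have x0 : 0 < x := (n0 (by decide)).trans_le hx0
    rcases le_total x (((2538 : ℕ) : ℝ) / 10000) with c0 | c0
    · have h := piP cone_b_1_pl0 hN hA hcl hcp hx0 c0
      have g0 := gL (be := 11000) (p := 2538) (G := 48298) (by decide +kernel) x0 c0 le_rfl (by decide)
      have gm := gh_mono (x := ((2538 : ℕ) : ℝ) / 10000) (n0 (by decide)) ha h5
      unfold lin at h
      push_cast at h gm g0
      linarith only [neg_abs_le (gh x - gh xs), h, gm, g0]
    rcases le_total x (((2826 : ℕ) : ℝ) / 10000) with ce | ce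
    · have h := piP cone_b_1_pm hN hA hcl hcp c0 ce
      unfold lin at h
      push_cast at h
      linarith only [abs_nonneg (gh x - gh xs), h]
    have gm := gh_mono (y := ((2826 : ℕ) : ℝ) / 10000) hN.xs0 he (nhalf (by decide))
    have h := piP cone_b_1_pr0 hN hA hcl hcp ce hx1
    have g0 := gL (be := 11000) (p := 3600) (G := 38192) (x := ((2826 : ℕ) : ℝ) / 10000) (by decide +kernel)
      (n0 (by decide)) ce hx1 (by decide)
    unfold lin at h
    push_cast at h gm g0
    linarith only [le_abs_self (gh x - gh xs), h, gm, g0]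
  · have hx0 : ((1600 : ℕ) : ℝ) / 10000 ≤ x := le_trans (by norm_num) hA.x0
    have hx1 : x ≤ ((3600 : ℕ) : ℝ) / 10000 := le_trans hA.x1 (by norm_num)
    have gm := gh_mono ((n0 (by decide)).trans_le hx0) hx.le h5
    have ga := gU ua (by decide) le_rfl ha h5
    have g3 := gS4 kc (by decide) (by decide) le_rfl ha he hT
    push_cast at ga g3
    rcases le_total x (((1750 : ℕ) : ℝ) / 10000) with c0 | c0
    · have h := piD1 cone_b_1_db0 hN hA hcl hcp (by decide) hx0 c0 ha
      have g0 := gU (be := 11000) (p := 1600) (G := 71733) (by decide +kernel) (by decide) hx0 c0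
        (nhalf (by decide))
      have k1 := gU (be := 11000) (p := 1750) (G := 66139) (y := ((2050 : ℕ) : ℝ) / 10000) (by decide +kernel)
        (by decide) le_rfl (nle (by decide)) (nhalf (by decide))
      have k2 := gU (be := 11000) (p := 2050) (G := 57556) (y := ((2538 : ℕ) : ℝ) / 10000) (by decide +kernel)
        (by decide) le_rfl (nle (by decide)) (nhalf (by decide))
      push_cast at h g0 k1 k2
      unfold lin at h
      push_cast at h
      exact dn_fin5 h gm (by linarith only [he, ga, g0, k1, k2]) (by linarith only [g3, g0, k1, k2])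
    rcases le_total x (((2050 : ℕ) : ℝ) / 10000) with c1 | c1
    · have h := piD1 cone_b_1_db1 hN hA hcl hcp (by decide) c0 c1 ha
      have g0 := gU (be := 11000) (p := 1750) (G := 66139) (by decide +kernel) (by decide) c0 c1
        (nhalf (by decide))
      have k1 := gU (be := 11000) (p := 2050) (G := 57556) (y := ((2538 : ℕ) : ℝ) / 10000) (by decide +kernel)
        (by decide) le_rfl (nle (by decide)) (nhalf (by decide))
      push_cast at h g0 k1
      unfold lin at h
      push_cast at h
      exact dn_fin5 h gm (by linarith only [he, ga, g0, k1]) (by linarith only [g3, g0, k1])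
    rcases le_total x (((2538 : ℕ) : ℝ) / 10000) with c2 | c2
    · have h := piD1 cone_b_1_db2 hN hA hcl hcp (by decide) c1 c2 ha
      have g0 := gU (be := 11000) (p := 2050) (G := 57556) (by decide +kernel) (by decide) c1 c2
        (nhalf (by decide))
      push_cast at h g0
      unfold lin at h
      push_cast at h
      exact dn_fin5 h gm (by linarith only [he, ga, g0]) (by linarith only [g3, g0])
    have h := piD0 cone_b_1_da hN hA hcl hcp (by decide) c2 (hx.le.trans he) hx.le
    have g1 := gU ua (by decide) c2 hx.le h5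
    have g4 := gS4 kc (by decide) (by decide) c2 hx.le he hT
    unfold lin at h
    push_cast at h g1 g4
    exact dn_fin5 h gm (by linarith only [he, g1]) (by linarith only [g4])
  · have hx0 : ((1600 : ℕ) : ℝ) / 10000 ≤ x := le_trans (by norm_num) hA.x0
    have hx1 : x ≤ ((3600 : ℕ) : ℝ) / 10000 := le_trans hA.x1 (by norm_num)
    have gm := gh_mono hN.xs0 hx.le (hx1.trans (nhalf (by decide)))
    rcases le_total x (((2826 : ℕ) : ℝ) / 10000) with ce | ce
    · have h := piU0 cone_b_1_ua hN hA hcl hcp (ha.trans hx.le) ce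
      have g1 := gU ua (by decide) ha hx.le (hx1.trans (nhalf (by decide)))
      have g3 := gS4 kc (by decide) (by decide) ha hx.le ce hT
      unfold lin at h
      push_cast at h g1 g3
      exact up_fin5 h gm (by linarith only [ha, g1]) (by linarith only [g3])
    have ga := gU (y := ((2826 : ℕ) : ℝ) / 10000) ua (by decide) ha he (nhalf (by decide))
    have g3 := gS4 kc (by decide) (by decide) ha he le_rfl hT
    push_cast at ga g3
    rcases le_total x (((3000 : ℕ) : ℝ) / 10000) with d0 | d0
    · have h := piU1 cone_b_1_ub0 hN hA hcl hcp ce d0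
      have g0 := gU (be := 11000) (p := 2826) (G := 44551) (by decide +kernel) (by decide) le_rfl ce
        (hx1.trans (nhalf (by decide)))
      unfold lin at h
      push_cast at h g0
      exact up_fin5 h gm (by linarith only [ha, ga, g0]) (by linarith only [g3, g0])
    rcases le_total x (((3300 : ℕ) : ℝ) / 10000) with d1 | d1
    · have h := piU1 cone_b_1_ub1 hN hA hcl hcp d0 d1
      have g0 := gU (be := 11000) (p := 3000) (G := 42716) (by decide +kernel) (by decide) le_rfl d0
        (hx1.trans (nhalf (by decide)))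
      have k1 := gU (be := 11000) (p := 2826) (G := 44551) (y := ((3000 : ℕ) : ℝ) / 10000) (by decide +kernel)
        (by decide) le_rfl (nle (by decide)) (nhalf (by decide))
      unfold lin at h
      push_cast at h g0 k1
      exact up_fin5 h gm (by linarith only [ha, ga, g0, k1]) (by linarith only [g3, g0, k1])
    have h := piU1 cone_b_1_ub2 hN hA hcl hcp d1 hx1
    have g0 := gU (be := 11000) (p := 3300) (G := 40149) (by decide +kernel) (by decide) le_rfl d1
      (hx1.trans (nhalf (by decide)))
    have k1 := gU (be := 11000) (p := 2826) (G := 44551) (y := ((3000 : ℕ) : ℝ) / 10000) (by decide +kernel)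
      (by decide) le_rfl (nle (by decide)) (nhalf (by decide))
    have k2 := gU (be := 11000) (p := 3000) (G := 42716) (y := ((3300 : ℕ) : ℝ) / 10000) (by decide +kernel)
      (by decide) le_rfl (nle (by decide)) (nhalf (by decide))
    unfold lin at h
    push_cast at h g0 k1 k2
    exact up_fin5 h gm (by linarith only [ha, ga, g0, k1, k2]) (by linarith only [g3, g0, k1, k2])

end RQ4

namespace RC

theorem i4_one_a : RowI
    ⟨2250 / 10000, 2980 / 10000, -(1280 / 10000), -(380 / 10000), 1510 / 10000, 2000 / 10000, 330 / 10000, 850 / 10000, 4826 / 10000, 4150 / 10000, 960 / 10000, 1861 / 10000, 0, 1⟩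
    4 (65 / 100) (14 / 100) 1 (16 / 100) (36 / 100) := by
  intro xs s T ρ hW
  have h0 : ((2250 : ℕ) : ℝ) / 10000 ≤ xs := le_trans (by norm_num) hW.x0
  have h1 : xs ≤ ((2980 : ℕ) : ℝ) / 10000 := by
    obtain ⟨-, w0, -, -, w3, -, -, -, w7, w8, w9, -, -, -⟩ := hW
    dsimp only at w0 w3 w7 w8 w9
    push_cast
    linarith only [w0]
  rcases le_total xs (((2615 : ℕ) : ℝ) / 10000) with k0 | k0
  · exact RQ4.sone_a_0 hW h0 k0
  exact RQ4.sone_a_1 hW k0 h1

theorem i4_one_b : RowI
    ⟨2250 / 10000, 2980 / 10000, -(1280 / 10000), -(380 / 10000), 2000 / 10000, 2004 / 10000, 330 / 10000, 850 / 10000, 4826 / 10000, 4150 / 10000, 960 / 10000, 1861 / 10000, 0, 1⟩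
    4 (65 / 100) (14 / 100) (11 / 10) (16 / 100) (36 / 100) := by
  intro xs s T ρ hW
  have h0 : ((2250 : ℕ) : ℝ) / 10000 ≤ xs := le_trans (by norm_num) hW.x0
  have h1 : xs ≤ ((2826 : ℕ) : ℝ) / 10000 := by
    obtain ⟨-, w0, -, -, w3, -, -, -, w7, w8, w9, -, -, -⟩ := hW
    dsimp only at w0 w3 w7 w8 w9
    push_cast
    linarith only [w3, w8]
  rcases le_total xs (((2538 : ℕ) : ℝ) / 10000) with k0 | k0
  · exact RQ4.sone_b_0 hW h0 k0
  exact RQ4.sone_b_1 hW k0 h1

end RC

end Pool.Agent.Work.MP_b30479_gtS.G2

end
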