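import Pool.Agent.Work.MP_b30479_gt.TBS.G2.H13A
import Pool.Agent.Work.MP_b30479_gt.TBS.G2.MRBase
import Pool.Agent.Work.MP_b30479_gt.TBS.G2.LR0

section

/-!
# Left ramps of the hinges of a ring: kernel evaluation on a box

Variables `x`, `M = -m`, `s`, `ρ`; `u = w + 1/2 + ζ`, `v = w + 1/2 - ζ`.

* `rD c e` is `S4 m w ζ + c m - e`, `rF r κ` is the first order condition (`≤ 0`).
* `lf` evaluates `rD + j/10 rF` or `rF` alone, in three forms (`s > x`, all `s`, `x > s`).
-/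

namespace Pool.Agent.Work.MP_b30479_gtS.G2

open VOL NumIs

namespace LR

/-- `v` -/
noncomputable def vC (x M s ρ : ℝ) : ℂ := ⟨x + 1 - s, -(4 * ρ * s + M * x)⟩

noncomputable def vA (x M s ρ : ℝ) : ℝ := LL (vC x M s ρ)
noncomputable def vB (x M s ρ : ℝ) : ℝ := -YY (vC x M s ρ)

noncomputable def rD (c e x M s ρ : ℝ) : ℝ :=
  lnA (x + s) (4 * ρ * s - M * x) + vA x M s ρ - 2 * lnA x (M * x) +
    (M * (lnB (x + s) (4 * ρ * s - M * x) + vB x M s ρ + 2 * lnB x (M * x) - c) - e)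

noncomputable def rF (r κ x M s ρ : ℝ) : ℝ :=
  lnA (x + s) (4 * ρ * s - M * x) - vA x M s ρ - κ +
    4 * ρ * (vB x M s ρ - lnB (x + s) (4 * ρ * s - M * x) - Real.pi * r)

structure Dom (x M s ρ : ℝ) : Prop where
  x0 : 0 < x
  x1 : x < 1 / 4
  s0 : 0 < s
  s1 : s ≤ 1 / 4
  r0 : 0 ≤ ρ
  m0 : 0 < M

theorem LL_lnA' (u : ℂ) : LL u = lnA u.re u.im := by
  rw [LL_eq', lnA]
  have := Num.den_eq u
  unfold MM at this
  congr 2
  linarith only [this]

theorem vA_eq (x M s ρ : ℝ) : vA x M s ρ = lnA (s - x) (4 * ρ * s + M * x) := by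
  unfold vA
  rw [LL_lnA']
  unfold vC lnA
  simp only
  congr 4
  · have e : Real.pi * (x + 1 - s) = Real.pi - Real.pi * (s - x) := by ring
    rw [e, Real.sin_pi_sub]
  · rw [mul_neg, Real.sinh_neg, neg_sq]

theorem lnA_neg_left (x t : ℝ) : lnA (-x) t = lnA x t := by
  unfold lnA
  rw [mul_neg, Real.sin_neg, neg_sq]

theorem vA_eq2 (x M s ρ : ℝ) : vA x M s ρ = lnA (x - s) (4 * ρ * s + M * x) := by
  rw [vA_eq, ← lnA_neg_left, neg_sub]

theorem vA_eq1 (x M s ρ : ℝ) : vA x M s ρ = (1 : ℕ) / (2 : ℕ) * Real.log ((4 : ℕ) / (1 : ℕ) *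
    (Real.sin (Real.pi * (x - s)) ^ 2 + Real.sinh (Real.pi * (4 * ρ * s + M * x)) ^ 2)) := by
  rw [vA_eq2]
  unfold lnA
  push_cast
  rw [div_one]
  ring

theorem lnB_one_sub (x t : ℝ) : lnB (1 - x) t = -lnB x t := by
  unfold lnB
  have e : Real.pi * (1 - x) = Real.pi - Real.pi * x := by ring
  rw [e, Real.sin_pi_sub, Real.cos_pi_sub, ← Real.arctan_neg]
  congr 1
  ring

theorem lnB_neg' (x t : ℝ) : lnB x (-t) = -lnB x t := lnB_neg x t

theorem vB_eq {x M s ρ : ℝ} (h : Dom x M s ρ) (hs : 0 < s - x) :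
    vB x M s ρ = lnB (s - x) (4 * ρ * s + M * x) := by
  have h1 := h.s1
  have h2 := h.x0
  unfold vB
  rw [Num.YY_lnB (u := vC x M s ρ) ⟨by unfold vC; simp only; linarith only [hs, h1, h2], by unfold vC; simp only; linarith only [hs]⟩]
  unfold vC
  simp only
  have e : x + 1 - s = 1 - (s - x) := by ring
  rw [e, lnB_one_sub, lnB_neg']
  ring

theorem vt_pos {x M s ρ : ℝ} (h : Dom x M s ρ) : 0 < 4 * ρ * s + M * x := by
  have := mul_pos h.m0 h.x0
  have := mul_nonneg h.r0 h.s0.le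
  nlinarith

theorem vB_eq2 {x M s ρ : ℝ} (h : Dom x M s ρ) (hs : 0 < x - s) :
    vB x M s ρ = Real.pi - lnB (x - s) (4 * ρ * s + M * x) := by
  have h1 := h.s0
  have h2 := h.x1
  have ht := vt_pos h
  unfold vB
  have e : vC x M s ρ = (⟨x - s, -(4 * ρ * s + M * x)⟩ : ℂ) + 1 := by
    apply Complex.ext
    · simp only [vC, Complex.add_re, Complex.one_re]; ring
    · simp only [vC, Complex.add_im, Complex.one_im]; ring
  rw [e, YY_add_one, if_neg (by simp only; linarith only [ht]), if_pos (by simp only; linarith only [ht]),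
    Num.YY_lnB (u := (⟨x - s, -(4 * ρ * s + M * x)⟩ : ℂ)) ⟨by simp only; linarith only [hs], by simp only; linarith only [hs, h1, h2]⟩]
  simp only
  rw [lnB_neg']
  ring

theorem arctan_inv' {a b : ℝ} (ha : 0 < a) (hb : 0 < b) :
    Real.arctan (a / b) = Real.pi / 2 - Real.arctan (b / a) := by
  have h := Real.arctan_inv_of_pos (div_pos hb ha)
  rw [inv_div] at h
  exact h

theorem vB_eq1 {x M s ρ : ℝ} (h : Dom x M s ρ) : vB x M s ρ = (1 : ℕ) / (2 : ℕ) * Real.pi +
    Real.arctan (Real.sin (Real.pi * (x - s)) * Real.cosh (Real.pi * (4 * ρ * s + M * x)) *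
      (Real.cos (Real.pi * (x - s)) * Real.sinh (Real.pi * (4 * ρ * s + M * x)))⁻¹) := by
  have hp := Real.pi_pos
  have ht := vt_pos h
  have h1 := h.s0
  have h2 := h.x1
  have h3 := h.s1
  have h4 := h.x0
  have hch := Real.cosh_pos (Real.pi * (4 * ρ * s + M * x))
  have hsh : 0 < Real.sinh (Real.pi * (4 * ρ * s + M * x)) := Real.sinh_pos_iff.mpr (by positivity)
  have hcos : 0 < Real.cos (Real.pi * (x - s)) :=
    Real.cos_pos_of_mem_Ioo ⟨by nlinarith only [hp, h1, h3, h4], by nlinarith only [hp, h1, h2]⟩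
  push_cast
  rcases lt_trichotomy s x with hs | hs | hs
  · have hs' : 0 < x - s := by linarith only [hs]
    rw [vB_eq2 h hs']
    have hsin : 0 < Real.sin (Real.pi * (x - s)) :=
      Real.sin_pos_of_pos_of_lt_pi (by positivity) (by nlinarith only [hp, h1, h2])
    unfold lnB
    have := arctan_inv' (a := Real.cos (Real.pi * (x - s)) * Real.sinh (Real.pi * (4 * ρ * s + M * x)))
      (b := Real.sin (Real.pi * (x - s)) * Real.cosh (Real.pi * (4 * ρ * s + M * x)))
      (by positivity) (by positivity)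
    rw [this, div_eq_mul_inv (Real.sin (Real.pi * (x - s)) * Real.cosh (Real.pi * (4 * ρ * s + M * x)))]
    ring
  · have hx0 : x - s = 0 := by linarith only [hs]
    rw [hx0]
    simp only [mul_zero, Real.sin_zero, zero_mul, Real.arctan_zero, add_zero]
    unfold vB
    have e : vC x M s ρ = (starRingEnd ℂ) (((4 * ρ * s + M * x : ℝ) : ℂ) * Complex.I) + 1 := by
      apply Complex.ext
      · simp [vC, hs]
      · simp [vC]
    have hi : ((starRingEnd ℂ) (((4 * ρ * s + M * x : ℝ) : ℂ) * Complex.I)).im =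
        -(4 * ρ * s + M * x) := by
      rw [Complex.conj_im]
      simp
    rw [e, YY_add_one, if_neg (by rw [hi]; linarith only [ht]), if_pos (by rw [hi]; linarith only [ht]), YY_conj,
      MR.YY_it ht]
    ring
  · have hs' : 0 < s - x := by linarith only [hs]
    rw [vB_eq h hs']
    have hsin : 0 < Real.sin (Real.pi * (s - x)) :=
      Real.sin_pos_of_pos_of_lt_pi (by positivity) (by nlinarith only [hp, h1, h3, h4])
    have es : Real.sin (Real.pi * (x - s)) = -Real.sin (Real.pi * (s - x)) := by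
      rw [← Real.sin_neg]; congr 1; ring
    have ec : Real.cos (Real.pi * (x - s)) = Real.cos (Real.pi * (s - x)) := by
      rw [← Real.cos_neg]; congr 1; ring
    rw [ec] at hcos
    unfold lnB
    have := arctan_inv' (a := Real.cos (Real.pi * (s - x)) * Real.sinh (Real.pi * (4 * ρ * s + M * x)))
      (b := Real.sin (Real.pi * (s - x)) * Real.cosh (Real.pi * (4 * ρ * s + M * x)))
      (by positivity) (by positivity)
    rw [this, es, ec, neg_mul, neg_mul, Real.arctan_neg,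
      div_eq_mul_inv (Real.sin (Real.pi * (s - x)) * Real.cosh (Real.pi * (4 * ρ * s + M * x)))]
    ring

/-! ### evaluation -/

/-- `1/2 log (4 (sin^2 + sinh^2))` -/
def svA (X S vt : F) : Option F :=
  o0 (fun sh => o0 (fun l => some (F.mulq 1 2 l)) (F.log (F.mulq 4 1 ((X.sub S).sinPi.sqn.add sh.sqn))))
    (F.hyp false (F.pi.mul vt))

def svB (X S vt : F) : Option F :=
  o0 (fun sh => o0 (fun ch => o0 (fun iv => o0 (fun at' => some ((F.mulq 1 2 F.pi).add at'))
    (F.atan (((X.sub S).sinPi.mul ch).mul iv))) (F.inv ((X.sub S).cosPi.mul sh)))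
      (F.hyp true (F.pi.mul vt))) (F.hyp false (F.pi.mul vt))

/-- the combination; `j = 40`: only `rF` -/
def comb (j : ℕ) (M r4 cX eX rS kS au bu av bv aw bw : F) : F :=
  (((au.add av).sub (aw.add aw)).add ((M.mul ((bu.add bv).add ((bw.add bw).sub cX))).sub eX)).add
    (F.mulq j 10 (((au.sub av).sub kS).add (r4.mul ((bv.sub bu).sub (F.pi.mul rS)))))

def combF (r4 rS kS au bu av bv : F) : F :=
  ((au.sub av).sub kS).add (r4.mul ((bv.sub bu).sub (F.pi.mul rS)))

def lf (j : ℕ) (cX eX rS kS X M S R : F) (fa fb : F → Option F) : Bool :=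
  let T := M.mul X
  let r4 := F.mulq 4 1 R
  let eta := r4.mul S
  let ut := eta.sub T
  let vt := eta.add T
  let ux := X.add S
  posO' (o0 (fun au => o0 (fun bu => o0 (fun av => o0 (fun bv =>
    cond (Nat.beq j 40) (some (combF r4 rS kS au bu av bv))
      (o0 (fun aw => o0 (fun bw => some (comb j M r4 cX eX rS kS au bu av bv aw bw)) (F.lnB X T)) (F.lnA X T)))
    (fb vt)) (fa vt)) (F.lnB ux ut)) (F.lnA ux ut))

/-- the test with the code `k = 3 j + form` -/
def tst (cX eX rS kS : F → F) (k : ℕ) (X M S R : F) : Bool :=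
  cond (Nat.beq (Nat.mod k 3) 0)
    (cond (posF (S.sub X)) (lf (Nat.div k 3) (cX X) (eX X) (rS S) (kS S) X M S R
      (F.lnA (S.sub X)) (F.lnB (S.sub X))) false)
    (cond (Nat.beq (Nat.mod k 3) 1)
      (lf (Nat.div k 3) (cX X) (eX X) (rS S) (kS S) X M S R (svA X S) (svB X S))
      (cond (posF (X.sub S)) (lf (Nat.div k 3) (cX X) (eX X) (rS S) (kS S) X M S R
        (F.lnA (X.sub S)) (fun vt => o1 (fun b => F.pi.sub b) (F.lnB (X.sub S) vt))) false))

theorem svA_sound {X S vt c : F} {ε : ℕ → ℝ} {x s t : ℝ} (hε : ∀ i, |ε i| ≤ 1) (hX : X.Encl ε x)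
    (hS : S.Encl ε s) (ht : vt.Encl ε t) (h : svA X S vt = some c) :
    c.Encl ε ((1 : ℕ) / (2 : ℕ) * Real.log ((4 : ℕ) / (1 : ℕ) *
      (Real.sin (Real.pi * (x - s)) ^ 2 + Real.sinh (Real.pi * t) ^ 2))) := by
  obtain ⟨sh, hsh, h⟩ := o0_some h
  obtain ⟨l, hl, h⟩ := o0_some h
  rw [← Option.some.inj h]
  refine F.Encl.mulq (by norm_num) hε (F.Encl.log hε ?_ hl)
  refine F.Encl.mulq (by norm_num) hε (F.Encl.add (F.Encl.sqn hε (F.Encl.sinPi hε (F.Encl.sub hX hS)))
    (F.Encl.sqn hε (F.Encl.sinh hε (F.Encl.mul hε (F.Encl.pi ε) ht) hsh)))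

theorem svB_sound {X S vt c : F} {ε : ℕ → ℝ} {x s t : ℝ} (hε : ∀ i, |ε i| ≤ 1) (hX : X.Encl ε x)
    (hS : S.Encl ε s) (ht : vt.Encl ε t) (h : svB X S vt = some c) :
    c.Encl ε ((1 : ℕ) / (2 : ℕ) * Real.pi +
      Real.arctan (Real.sin (Real.pi * (x - s)) * Real.cosh (Real.pi * t) *
      (Real.cos (Real.pi * (x - s)) * Real.sinh (Real.pi * t))⁻¹)) := by
  obtain ⟨sh, hsh, h⟩ := o0_some h
  obtain ⟨ch, hch, h⟩ := o0_some h
  obtain ⟨iv, hiv, h⟩ := o0_some h
  obtain ⟨at', hat, h⟩ := o0_some h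
  rw [← Option.some.inj h]
  have k1 := F.Encl.sinh hε (F.Encl.mul hε (F.Encl.pi ε) ht) hsh
  have k2 := F.Encl.cosh hε (F.Encl.mul hε (F.Encl.pi ε) ht) hch
  have k3 := F.Encl.inv hε (F.Encl.mul hε (F.Encl.cosPi hε (F.Encl.sub hX hS)) k1) hiv
  exact F.Encl.add (F.Encl.mulq (by norm_num) hε (F.Encl.pi ε)) (F.Encl.atan hε (F.Encl.mul hε
    (F.Encl.mul hε (F.Encl.sinPi hε (F.Encl.sub hX hS)) k2) k3) hat)

theorem lf_sound {j : ℕ} {cX eX rS kS X M S R : F} {fa fb : F → Option F} {ε : ℕ → ℝ}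
    {c e r κ x m s ρ : ℝ} (hε : ∀ i, |ε i| ≤ 1) (hX : X.Encl ε x) (hM : M.Encl ε m) (hS : S.Encl ε s)
    (hR : R.Encl ε ρ) (hc : cX.Encl ε c) (he : eX.Encl ε e) (hr : rS.Encl ε r) (hk : kS.Encl ε κ)
    (ha : ∀ {vt c : F}, vt.Encl ε (4 * ρ * s + m * x) → fa vt = some c → c.Encl ε (vA x m s ρ))
    (hb : ∀ {vt c : F}, vt.Encl ε (4 * ρ * s + m * x) → fb vt = some c → c.Encl ε (vB x m s ρ))
    (h : lf j cX eX rS kS X M S R fa fb = true) (hF : rF r κ x m s ρ ≤ 0) : 0 < rD c e x m s ρ := by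
  have kT : (M.mul X).Encl ε (m * x) := F.Encl.mul hε hM hX
  have k4 : (F.mulq 4 1 R).Encl ε (4 * ρ) := by
    have := F.Encl.mulq (n := 4) (d := 1) (by norm_num) hε hR
    push_cast at this
    rwa [div_one] at this
  have kE := F.Encl.mul hε k4 hS
  have kut := F.Encl.sub kE kT
  have kvt := F.Encl.add kE kT
  have kux := F.Encl.add hX hS
  unfold lf at h
  simp only at h
  set G := o0 (fun au => o0 (fun bu => o0 (fun av => o0 (fun bv =>
    cond (Nat.beq j 40) (some (combF (F.mulq 4 1 R) rS kS au bu av bv))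
      (o0 (fun aw => o0 (fun bw => some (comb j M (F.mulq 4 1 R) cX eX rS kS au bu av bv aw bw))
        (F.lnB X (M.mul X))) (F.lnA X (M.mul X))))
    (fb (((F.mulq 4 1 R).mul S).add (M.mul X)))) (fa (((F.mulq 4 1 R).mul S).add (M.mul X))))
    (F.lnB (X.add S) (((F.mulq 4 1 R).mul S).sub (M.mul X))))
    (F.lnA (X.add S) (((F.mulq 4 1 R).mul S).sub (M.mul X))) with hG
  rcases hGc : G with _ | g
  · rw [hGc] at h
    exact absurd h (by simp [posO'])
  rw [hG] at hGc
  obtain ⟨au, hau, h1⟩ := o0_some hGc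
  obtain ⟨bu, hbu, h1⟩ := o0_some h1
  obtain ⟨av, hav, h1⟩ := o0_some h1
  obtain ⟨bv, hbv, h1⟩ := o0_some h1
  have eau := F.Encl.lnA hε kux kut hau
  have ebu := F.Encl.lnB hε kux kut hbu
  have eav := ha kvt hav
  have ebv := hb kvt hbv
  have hpos : posF g = true := by
    have e : G = some g := by rw [hG]; exact hGc
    rw [e] at h
    exact h
  have kF := F.Encl.add (F.Encl.sub (F.Encl.sub eau eav) hk) (F.Encl.mul hε k4
    (F.Encl.sub (F.Encl.sub ebv ebu) (F.Encl.mul hε (F.Encl.pi ε) hr)))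
  rcases hj : Nat.beq j 40 with _ | _
  · rw [hj, cond_false] at h1
    obtain ⟨aw, haw, h1⟩ := o0_some h1
    obtain ⟨bw, hbw, h1⟩ := o0_some h1
    have eaw := F.Encl.lnA hε hX kT haw
    have ebw := F.Encl.lnB hε hX kT hbw
    have kD := F.Encl.add (F.Encl.add (F.Encl.sub (F.Encl.add eau eav) (F.Encl.add eaw eaw))
      (F.Encl.sub (F.Encl.mul hε hM (F.Encl.add (F.Encl.add ebu ebv)
        (F.Encl.sub (F.Encl.add ebw ebw) hc))) he)) (F.Encl.mulq (n := j) (d := 10) (by norm_num) hε kF)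
    have hp := posF_spec hε kD (by rw [← Option.some.inj h1] at hpos; exact hpos)
    have hj0 : (0 : ℝ) ≤ (j : ℝ) / (10 : ℕ) := by positivity
    have := mul_nonpos_of_nonneg_of_nonpos hj0 hF
    unfold rF at this
    unfold rD
    linarith only [hp, this]
  · rw [hj, cond_true] at h1
    have hp := posF_spec hε kF (by rw [← Option.some.inj h1] at hpos; exact hpos)
    unfold rF at hF
    linarith only [hF, hp]

/-- the property which the test proves -/
def Pr (c e r κ : ℝ → ℝ) (x M s ρ : ℝ) : Prop :=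
  Dom x M s ρ → rF (r s) (κ s) x M s ρ ≤ 0 → 0 < rD (c x) (e x) x M s ρ

/-- `g` evaluates `f` -/
def Ev (g : F → F) (f : ℝ → ℝ) : Prop :=
  ∀ {X : F} {ε : ℕ → ℝ} {x : ℝ}, (∀ i, |ε i| ≤ 1) → X.Encl ε x → (g X).Encl ε (f x)

theorem tst_ok {cX eX rS kS : F → F} {c e r κ : ℝ → ℝ} (hc : Ev cX c) (he : Ev eX e) (hr : Ev rS r)
    (hk : Ev kS κ) : TestOk (tst cX eX rS kS) (Pr c e r κ) := by
  intro k X M S R ε x m s ρ hε hX hM hS hR h hD hF
  unfold tst at h
  rcases h0 : Nat.beq (Nat.mod k 3) 0 with _ | _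
  · rw [h0, cond_false] at h
    rcases h1 : Nat.beq (Nat.mod k 3) 1 with _ | _
    · rw [h1, cond_false] at h
      rcases h2 : posF (X.sub S) with _ | _
      · rw [h2, cond_false] at h
        exact absurd h (by simp)
      · rw [h2, cond_true] at h
        have hs := posF_spec hε (F.Encl.sub hX hS) h2
        refine lf_sound hε hX hM hS hR (hc hε hX) (he hε hX) (hr hε hS) (hk hε hS) ?_ ?_ h hF
        · intro vt c hv hc
          rw [vA_eq2]
          exact F.Encl.lnA hε (F.Encl.sub hX hS) hv hc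
        · intro vt c hv hc
          rw [vB_eq2 hD hs]
          obtain ⟨b, hb, rfl⟩ := o1_some hc
          exact F.Encl.sub (F.Encl.pi ε) (F.Encl.lnB hε (F.Encl.sub hX hS) hv hb)
    · rw [h1, cond_true] at h
      refine lf_sound hε hX hM hS hR (hc hε hX) (he hε hX) (hr hε hS) (hk hε hS) ?_ ?_ h hF
      · intro vt c hv hc
        rw [vA_eq1]
        exact svA_sound hε hX hS hv hc
      · intro vt c hv hc
        rw [vB_eq1 hD]
        exact svB_sound hε hX hS hv hc
  · rw [h0, cond_true] at h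
    rcases h2 : posF (S.sub X) with _ | _
    · rw [h2, cond_false] at h
      exact absurd h (by simp)
    · rw [h2, cond_true] at h
      have hs := posF_spec hε (F.Encl.sub hS hX) h2
      refine lf_sound hε hX hM hS hR (hc hε hX) (he hε hX) (hr hε hS) (hk hε hS) ?_ ?_ h hF
      · intro vt c hv hc
        rw [vA_eq]
        exact F.Encl.lnA hε (F.Encl.sub hS hX) hv hc
      · intro vt c hv hc
        rw [vB_eq hD hs]
        exact F.Encl.lnB hε (F.Encl.sub hS hX) hv hc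

end LR

end Pool.Agent.Work.MP_b30479_gtS.G2

end

section

/-!
# Floors of `1 | ring` and `2 | ring` at a large hinge `1 | 2`: the side of the ring

Slope `0`.  Variables `x`, `T = -Im w`, then `y = -σ`, `r = √ρ` (flat part of the path of the ring
variable) or `s = 1/2 + σ`, `ρ` (ramp).
-/

namespace Pool.Agent.Work.MP_b30479_gtS.G2

open VOL NumIs

namespace CF3

open LR

/-! ### flat part -/

noncomputable def fD (e x T y r : ℝ) : ℝ :=
  lnA (x + 1 / 2 - y) (r ^ 2 - T) + lnA (x + 1 / 2 + y) (r ^ 2 + T) - 2 * lnA x T - e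

noncomputable def fF (x T y r : ℝ) : ℝ :=
  lnA (x + 1 / 2 - y) (r ^ 2 - T) - lnA (x + 1 / 2 + y) (r ^ 2 + T) - 953 / 100 * r

theorem lnA_half (x y t : ℝ) : lnA (x + 1 / 2 + y) t = (1 : ℕ) / (2 : ℕ) * Real.log ((4 : ℕ) / (1 : ℕ) *
    (Real.sin (Real.pi * (x - ((1 : ℕ) / (2 : ℕ) - y))) ^ 2 + Real.sinh (Real.pi * t) ^ 2)) := by
  unfold lnA
  have e : Real.pi * (x + 1 / 2 + y) = Real.pi * (x - ((1 : ℕ) / (2 : ℕ) - y)) + Real.pi := by
    push_cast
    ring
  rw [e, Real.sin_add_pi, neg_sq]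
  push_cast
  rw [div_one]
  ring

/-- the leaf with the code `j` -/
def lf1 (j : ℕ) (eX X T Y R : F) (fa : F → Option F) : Bool :=
  let E := R.sqn
  posO' (o0 (fun au => o0 (fun av =>
    cond (Nat.beq j 40) (some ((au.sub av).sub (F.mulq 953 100 R)))
      (o0 (fun aw => some ((((au.add av).sub (aw.add aw)).sub eX).add
        (F.mulq j 10 ((au.sub av).sub (F.mulq 953 100 R))))) (F.lnA X T)))
    (fa (E.add T))) (F.lnA ((X.add (F.rat 1 2)).sub Y) (E.sub T)))

theorem lf1_sound {j : ℕ} {eX X T Y R : F} {fa : F → Option F} {ε : ℕ → ℝ} {e x t y r : ℝ}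
    (hε : ∀ i, |ε i| ≤ 1) (hX : X.Encl ε x) (hT : T.Encl ε t) (hY : Y.Encl ε y) (hR : R.Encl ε r)
    (he : eX.Encl ε e)
    (ha : ∀ {vt c : F}, vt.Encl ε (r ^ 2 + t) → fa vt = some c → c.Encl ε (lnA (x + 1 / 2 + y) (r ^ 2 + t)))
    (h : lf1 j eX X T Y R fa = true) (hF : j = 0 ∨ fF x t y r ≤ 0) : 0 < fD e x t y r := by
  have kE : (R.sqn).Encl ε (r ^ 2) := F.Encl.sqn hε hR
  have kh : (X.add (F.rat 1 2)).Encl ε (x + 1 / 2) := by
    have := F.Encl.add hX (F.Encl.rat 1 2 ε)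
    push_cast at this
    exact this
  have kux := F.Encl.sub kh hY
  have kut := F.Encl.sub kE hT
  have kvt := F.Encl.add kE hT
  unfold lf1 at h
  simp only at h
  set G := o0 (fun au => o0 (fun av =>
    cond (Nat.beq j 40) (some ((au.sub av).sub (F.mulq 953 100 R)))
      (o0 (fun aw => some ((((au.add av).sub (aw.add aw)).sub eX).add
        (F.mulq j 10 ((au.sub av).sub (F.mulq 953 100 R))))) (F.lnA X T)))
    (fa (R.sqn.add T))) (F.lnA ((X.add (F.rat 1 2)).sub Y) (R.sqn.sub T)) with hG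
  rcases hGc : G with _ | g
  · rw [hGc] at h
    exact absurd h (by simp [posO'])
  rw [hG] at hGc
  obtain ⟨au, hau, h1⟩ := o0_some hGc
  obtain ⟨av, hav, h1⟩ := o0_some h1
  have eau := F.Encl.lnA hε kux kut hau
  have eav := ha kvt hav
  have hpos : posF g = true := by
    have e : G = some g := by rw [hG]; exact hGc
    rw [e] at h
    exact h
  have kF := F.Encl.sub (F.Encl.sub eau eav) (F.Encl.mulq (n := 953) (d := 100) (by norm_num) hε hR)
  push_cast at kF
  rcases hj : Nat.beq j 40 with _ | _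
  · rw [hj, cond_false] at h1
    obtain ⟨aw, haw, h1⟩ := o0_some h1
    have eaw := F.Encl.lnA hε hX hT haw
    have kD := F.Encl.add (F.Encl.sub (F.Encl.sub (F.Encl.add eau eav) (F.Encl.add eaw eaw)) he)
      (F.Encl.mulq (n := j) (d := 10) (by norm_num) hε kF)
    have hp := posF_spec hε kD (by rw [← Option.some.inj h1] at hpos; exact hpos)
    have hj0 : (0 : ℝ) ≤ (j : ℝ) / (10 : ℕ) := by positivity
    have : (j : ℝ) / (10 : ℕ) * fF x t y r ≤ 0 := by
      rcases hF with rfl | hF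
      · simp
      · exact mul_nonpos_of_nonneg_of_nonpos hj0 hF
    unfold fF at this
    unfold fD
    linarith
  · rw [hj, cond_true] at h1
    have hp := posF_spec hε kF (by rw [← Option.some.inj h1] at hpos; exact hpos)
    rcases hF with rfl | hF
    · exact absurd hj (by decide)
    · unfold fF at hF
      linarith

/-- `g` evaluates `f` -/
def Ev2 (g : F → F → F) (f : ℝ → ℝ → ℝ) : Prop :=
  ∀ {X T : F} {ε : ℕ → ℝ} {x t : ℝ}, (∀ i, |ε i| ≤ 1) → X.Encl ε x → T.Encl ε t →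
    (g X T).Encl ε (f x t)

/-- test with the first order condition; code `k = 2 j + form` -/
def tC (eX : F → F → F) (k : ℕ) (X T Y R : F) : Bool :=
  cond (Nat.beq (Nat.mod k 2) 0)
    (lf1 (Nat.div k 2) (eX X T) X T Y R (F.lnA ((X.add (F.rat 1 2)).add Y)))
    (lf1 (Nat.div k 2) (eX X T) X T Y R (svA X ((F.rat 1 2).sub Y)))

/-- test without it; the code is the form -/
def tL (eX : F → F → F) (k : ℕ) (X T Y R : F) : Bool :=
  cond (Nat.beq k 0)
    (lf1 0 (eX X T) X T Y R (F.lnA ((X.add (F.rat 1 2)).add Y)))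
    (lf1 0 (eX X T) X T Y R (svA X ((F.rat 1 2).sub Y)))

def PC (e : ℝ → ℝ → ℝ) (x T y r : ℝ) : Prop := fF x T y r ≤ 0 → 0 < fD (e x T) x T y r
def PL (e : ℝ → ℝ → ℝ) (x T y r : ℝ) : Prop := 0 < fD (e x T) x T y r

theorem fa0 {X Y vt c : F} {ε : ℕ → ℝ} {x y t : ℝ} (hε : ∀ i, |ε i| ≤ 1) (hX : X.Encl ε x)
    (hY : Y.Encl ε y) (ht : vt.Encl ε t) (h : F.lnA ((X.add (F.rat 1 2)).add Y) vt = some c) :
    c.Encl ε (lnA (x + 1 / 2 + y) t) := by
  have kh : (X.add (F.rat 1 2)).Encl ε (x + 1 / 2) := by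
    have := F.Encl.add hX (F.Encl.rat 1 2 ε)
    push_cast at this
    exact this
  exact F.Encl.lnA hε (F.Encl.add kh hY) ht h

theorem fa1 {X Y vt c : F} {ε : ℕ → ℝ} {x y t : ℝ} (hε : ∀ i, |ε i| ≤ 1) (hX : X.Encl ε x)
    (hY : Y.Encl ε y) (ht : vt.Encl ε t) (h : svA X ((F.rat 1 2).sub Y) vt = some c) :
    c.Encl ε (lnA (x + 1 / 2 + y) t) := by
  rw [lnA_half]
  exact svA_sound hε hX (F.Encl.sub (F.Encl.rat 1 2 ε) hY) ht h

theorem tC_ok {eX : F → F → F} {e : ℝ → ℝ → ℝ} (he : Ev2 eX e) : TestOk (tC eX) (PC e) := by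
  intro k X T Y R ε x t y r hε hX hT hY hR h hF
  unfold tC at h
  rcases h0 : Nat.beq (Nat.mod k 2) 0 with _ | _
  · rw [h0, cond_false] at h
    exact lf1_sound hε hX hT hY hR (he hε hX hT) (fun h1 h2 => fa1 hε hX hY h1 h2) h (Or.inr hF)
  · rw [h0, cond_true] at h
    exact lf1_sound hε hX hT hY hR (he hε hX hT) (fun h1 h2 => fa0 hε hX hY h1 h2) h (Or.inr hF)

theorem tL_ok {eX : F → F → F} {e : ℝ → ℝ → ℝ} (he : Ev2 eX e) : TestOk (tL eX) (PL e) := by
  intro k X T Y R ε x t y r hε hX hT hY hR h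
  unfold tL at h
  rcases h0 : Nat.beq k 0 with _ | _
  · rw [h0, cond_false] at h
    exact lf1_sound hε hX hT hY hR (he hε hX hT) (fun h1 h2 => fa1 hε hX hY h1 h2) h (Or.inl rfl)
  · rw [h0, cond_true] at h
    exact lf1_sound hε hX hT hY hR (he hε hX hT) (fun h1 h2 => fa0 hε hX hY h1 h2) h (Or.inl rfl)

/-! ### ramp -/

noncomputable def rD0 (e x T s ρ : ℝ) : ℝ :=
  lnA (x + s) (4 * ρ * s - T) + vA x (T / x) s ρ - 2 * lnA x T - e

def lf2 (j : ℕ) (eX rS X T S R : F) (fa fb : F → Option F) : Bool :=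
  let r4 := F.mulq 4 1 R
  let eta := r4.mul S
  let ut := eta.sub T
  let vt := eta.add T
  let ux := X.add S
  posO' (o0 (fun au => o0 (fun bu => o0 (fun av => o0 (fun bv =>
    cond (Nat.beq j 40) (some ((au.sub av).add (r4.mul ((bv.sub bu).sub (F.pi.mul rS)))))
      (o0 (fun aw => some ((((au.add av).sub (aw.add aw)).sub eX).add
        (F.mulq j 10 ((au.sub av).add (r4.mul ((bv.sub bu).sub (F.pi.mul rS))))))) (F.lnA X T)))
    (fb vt)) (fa vt)) (F.lnB ux ut)) (F.lnA ux ut))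

theorem lf2_sound {j : ℕ} {eX rS X T S R : F} {fa fb : F → Option F} {ε : ℕ → ℝ}
    {e r x t s ρ : ℝ} (hε : ∀ i, |ε i| ≤ 1) (hx0 : 0 < x) (hX : X.Encl ε x) (hT : T.Encl ε t)
    (hS : S.Encl ε s) (hR : R.Encl ε ρ) (he : eX.Encl ε e) (hr : rS.Encl ε r)
    (ha : ∀ {vt c : F}, vt.Encl ε (4 * ρ * s + t / x * x) → fa vt = some c →
      c.Encl ε (vA x (t / x) s ρ))
    (hb : ∀ {vt c : F}, vt.Encl ε (4 * ρ * s + t / x * x) → fb vt = some c →
      c.Encl ε (vB x (t / x) s ρ))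
    (h : lf2 j eX rS X T S R fa fb = true) (hF : rF r 0 x (t / x) s ρ ≤ 0) : 0 < rD0 e x t s ρ := by
  have ex : t / x * x = t := div_mul_cancel₀ _ hx0.ne'
  rw [ex] at ha hb
  have k4 : (F.mulq 4 1 R).Encl ε (4 * ρ) := by
    have := F.Encl.mulq (n := 4) (d := 1) (by norm_num) hε hR
    push_cast at this
    rwa [div_one] at this
  have kE := F.Encl.mul hε k4 hS
  have kut := F.Encl.sub kE hT
  have kvt := F.Encl.add kE hT
  have kux := F.Encl.add hX hS
  unfold lf2 at h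
  simp only at h
  set r4 := F.mulq 4 1 R with hr4
  set G := o0 (fun au => o0 (fun bu => o0 (fun av => o0 (fun bv =>
    cond (Nat.beq j 40) (some ((au.sub av).add (r4.mul ((bv.sub bu).sub (F.pi.mul rS)))))
      (o0 (fun aw => some ((((au.add av).sub (aw.add aw)).sub eX).add
        (F.mulq j 10 ((au.sub av).add (r4.mul ((bv.sub bu).sub (F.pi.mul rS))))))) (F.lnA X T)))
    (fb ((r4.mul S).add T))) (fa ((r4.mul S).add T))) (F.lnB (X.add S) ((r4.mul S).sub T)))
    (F.lnA (X.add S) ((r4.mul S).sub T)) with hG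
  rcases hGc : G with _ | g
  · rw [hGc] at h
    exact absurd h (by simp [posO'])
  rw [hG] at hGc
  obtain ⟨au, hau, h1⟩ := o0_some hGc
  obtain ⟨bu, hbu, h1⟩ := o0_some h1
  obtain ⟨av, hav, h1⟩ := o0_some h1
  obtain ⟨bv, hbv, h1⟩ := o0_some h1
  have eau := F.Encl.lnA hε kux kut hau
  have ebu := F.Encl.lnB hε kux kut hbu
  have eav := ha kvt hav
  have ebv := hb kvt hbv
  have hpos : posF g = true := by
    have e : G = some g := by rw [hG]; exact hGc
    rw [e] at h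
    exact h
  have kF := F.Encl.add (F.Encl.sub eau eav) (F.Encl.mul hε k4
    (F.Encl.sub (F.Encl.sub ebv ebu) (F.Encl.mul hε (F.Encl.pi ε) hr)))
  rcases hj : Nat.beq j 40 with _ | _
  · rw [hj, cond_false] at h1
    obtain ⟨aw, haw, h1⟩ := o0_some h1
    have eaw := F.Encl.lnA hε hX hT haw
    have kD := F.Encl.add (F.Encl.sub (F.Encl.sub (F.Encl.add eau eav) (F.Encl.add eaw eaw)) he)
      (F.Encl.mulq (n := j) (d := 10) (by norm_num) hε kF)
    have hp := posF_spec hε kD (by rw [← Option.some.inj h1] at hpos; exact hpos)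
    have hj0 : (0 : ℝ) ≤ (j : ℝ) / (10 : ℕ) := by positivity
    have := mul_nonpos_of_nonneg_of_nonpos hj0 hF
    unfold rF at this
    rw [ex] at this
    unfold rD0
    linarith
  · rw [hj, cond_true] at h1
    have hp := posF_spec hε kF (by rw [← Option.some.inj h1] at hpos; exact hpos)
    unfold rF at hF
    rw [ex] at hF
    linarith

/-- the test with the code `k = 3 j + form` -/
def tR (eX : F → F → F) (rS : F → F) (k : ℕ) (X T S R : F) : Bool :=
  cond (Nat.beq (Nat.mod k 3) 0)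
    (cond (posF (S.sub X)) (lf2 (Nat.div k 3) (eX X T) (rS S) X T S R
      (F.lnA (S.sub X)) (F.lnB (S.sub X))) false)
    (cond (Nat.beq (Nat.mod k 3) 1)
      (lf2 (Nat.div k 3) (eX X T) (rS S) X T S R (svA X S) (svB X S))
      (cond (posF (X.sub S)) (lf2 (Nat.div k 3) (eX X T) (rS S) X T S R
        (F.lnA (X.sub S)) (fun vt => o1 (fun b => F.pi.sub b) (F.lnB (X.sub S) vt))) false))

/-- the property which the test proves -/
def PR (e : ℝ → ℝ → ℝ) (r : ℝ → ℝ) (x T s ρ : ℝ) : Prop :=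
  Dom x (T / x) s ρ → rF (r s) 0 x (T / x) s ρ ≤ 0 → 0 < rD0 (e x T) x T s ρ

theorem tR_ok {eX : F → F → F} {rS : F → F} {e : ℝ → ℝ → ℝ} {r : ℝ → ℝ} (he : Ev2 eX e)
    (hr : Ev rS r) : TestOk (tR eX rS) (PR e r) := by
  intro k X T S R ε x t s ρ hε hX hT hS hR h hD hF
  have hx0 := hD.x0
  unfold tR at h
  rcases h0 : Nat.beq (Nat.mod k 3) 0 with _ | _
  · rw [h0, cond_false] at h
    rcases h1 : Nat.beq (Nat.mod k 3) 1 with _ | _
    · rw [h1, cond_false] at h
      rcases h2 : posF (X.sub S) with _ | _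
      · rw [h2, cond_false] at h
        exact absurd h (by simp)
      · rw [h2, cond_true] at h
        have hs := posF_spec hε (F.Encl.sub hX hS) h2
        refine lf2_sound hε hx0 hX hT hS hR (he hε hX hT) (hr hε hS) ?_ ?_ h hF
        · intro vt c hv hc
          rw [vA_eq2]
          exact F.Encl.lnA hε (F.Encl.sub hX hS) hv hc
        · intro vt c hv hc
          rw [vB_eq2 hD hs]
          obtain ⟨b, hb, rfl⟩ := o1_some hc
          exact F.Encl.sub (F.Encl.pi ε) (F.Encl.lnB hε (F.Encl.sub hX hS) hv hb)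
    · rw [h1, cond_true] at h
      refine lf2_sound hε hx0 hX hT hS hR (he hε hX hT) (hr hε hS) ?_ ?_ h hF
      · intro vt c hv hc
        rw [vA_eq1]
        exact svA_sound hε hX hS hv hc
      · intro vt c hv hc
        rw [vB_eq1 hD]
        exact svB_sound hε hX hS hv hc
  · rw [h0, cond_true] at h
    rcases h2 : posF (S.sub X) with _ | _
    · rw [h2, cond_false] at h
      exact absurd h (by simp)
    · rw [h2, cond_true] at h
      have hs := posF_spec hε (F.Encl.sub hS hX) h2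
      refine lf2_sound hε hx0 hX hT hS hR (he hε hX hT) (hr hε hS) ?_ ?_ h hF
      · intro vt c hv hc
        rw [vA_eq]
        exact F.Encl.lnA hε (F.Encl.sub hS hX) hv hc
      · intro vt c hv hc
        rw [vB_eq hD hs]
        exact F.Encl.lnB hε (F.Encl.sub hS hX) hv hc

/-! ### lower bounds -/

/-- lower bound of the side of the ring at a hinge `1 | ring` -/
noncomputable def eA (x T : ℝ) : ℝ :=
  1930 / 1000 + 50 * (x * T) - (131 / 10 * x + (227 / 100 * T + 22 * T ^ 2))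

/-- lower bounds of the side of the ring at a hinge `2 | ring` -/
noncomputable def eB (x T : ℝ) : ℝ := 1790 / 1000 + 157 / 100 * T - 105 / 10 * x

def fA (X T : F) : F :=
  ((F.rat 1930 1000).add (F.mulq 50 1 (X.mul T))).sub
    ((F.mulq 131 10 X).add ((F.mulq 227 100 T).add (F.mulq 22 1 T.sqn)))

def fB (X T : F) : F := ((F.rat 1790 1000).add (F.mulq 157 100 T)).sub (F.mulq 105 10 X)

def fK (_ _ : F) : F := F.rat 35 100

theorem ev_fA : Ev2 fA eA := by
  intro X T ε x t hε hX hT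
  have k := F.Encl.sub (F.Encl.add (F.Encl.rat 1930 1000 ε)
    (F.Encl.mulq (n := 50) (d := 1) (by norm_num) hε (F.Encl.mul hε hX hT)))
    (F.Encl.add (F.Encl.mulq (n := 131) (d := 10) (by norm_num) hε hX)
      (F.Encl.add (F.Encl.mulq (n := 227) (d := 100) (by norm_num) hε hT)
        (F.Encl.mulq (n := 22) (d := 1) (by norm_num) hε (F.Encl.sqn hε hT))))
  have e : eA x t = ((1930 : ℕ) : ℝ) / ((1000 : ℕ) : ℝ) + ((50 : ℕ) : ℝ) / ((1 : ℕ) : ℝ) * (x * t) -
      (((131 : ℕ) : ℝ) / ((10 : ℕ) : ℝ) * x + (((227 : ℕ) : ℝ) / ((100 : ℕ) : ℝ) * t +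
        ((22 : ℕ) : ℝ) / ((1 : ℕ) : ℝ) * t ^ 2)) := by
    unfold eA
    push_cast
    ring
  rw [e]
  exact k

theorem ev_fB : Ev2 fB eB := by
  intro X T ε x t hε hX hT
  have k := F.Encl.sub (F.Encl.add (F.Encl.rat 1790 1000 ε)
    (F.Encl.mulq (n := 157) (d := 100) (by norm_num) hε hT))
    (F.Encl.mulq (n := 105) (d := 10) (by norm_num) hε hX)
  have e : eB x t = ((1790 : ℕ) : ℝ) / ((1000 : ℕ) : ℝ) + ((157 : ℕ) : ℝ) / ((100 : ℕ) : ℝ) * t -
      ((105 : ℕ) : ℝ) / ((10 : ℕ) : ℝ) * x := by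
    unfold eB
    push_cast
    ring
  rw [e]
  exact k

theorem ev_fK : Ev2 fK fun _ _ => 35 / 100 := by
  intro X T ε x t hε hX hT
  have k := F.Encl.rat 35 100 ε
  push_cast at k
  exact k

/-- `4 b s - (b - 2)` -/
def r4s (S : F) : F := (F.mulq 16 1 S).sub (F.rat 2 1)
def r5s (S : F) : F := (F.mulq 20 1 S).sub (F.rat 3 1)

theorem ev_r4s : Ev r4s fun s => 4 * 4 * s - (4 - 2) := by
  intro S ε s hε hS
  have k := F.Encl.sub (F.Encl.mulq (n := 16) (d := 1) (by norm_num) hε hS) (F.Encl.rat 2 1 ε)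
  have e : (4 * 4 * s - (4 - 2) : ℝ) = ((16 : ℕ) : ℝ) / ((1 : ℕ) : ℝ) * s - ((2 : ℕ) : ℝ) / ((1 : ℕ) : ℝ) := by
    push_cast
    ring
  show (r4s S).Encl ε (4 * 4 * s - (4 - 2))
  rw [e]
  exact k

theorem ev_r5s : Ev r5s fun s => 4 * 5 * s - (5 - 2) := by
  intro S ε s hε hS
  have k := F.Encl.sub (F.Encl.mulq (n := 20) (d := 1) (by norm_num) hε hS) (F.Encl.rat 3 1 ε)
  have e : (4 * 5 * s - (5 - 2) : ℝ) = ((20 : ℕ) : ℝ) / ((1 : ℕ) : ℝ) * s - ((3 : ℕ) : ℝ) / ((1 : ℕ) : ℝ) := by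
    push_cast
    ring
  show (r5s S).Encl ε (4 * 5 * s - (5 - 2))
  rw [e]
  exact k

end CF3

end Pool.Agent.Work.MP_b30479_gtS.G2

end

section

/-!
# Left ramps of the hinges of a ring: the functions of the rows, link with `S4` and `Dm`
-/

namespace Pool.Agent.Work.MP_b30479_gtS.G2

open VOL NumIs

namespace LR

/-! ### coefficient functions -/

/-- `π - 6 x` -/
def cB (X : F) : F := F.pi.sub (F.mulq 6 1 X)
/-- `π / 2` -/
def cA (_ : F) : F := F.mulq 1 2 F.pi
/-- a constant -/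
def eK (n d : ℕ) (_ : F) : F := F.rat n d
/-- `n / d - n' / d' x` -/
def eL (n d n' d' : ℕ) (X : F) : F := (F.rat n d).sub (F.mulq n' d' X)
/-- `3 - b (1 - 4 s)`, `b = 4, 5`; argument `4 b`, `b - 3` -/
def rP (b4 b3 : ℕ) (S : F) : F := (F.mulq b4 1 S).sub (F.rat b3 1)
/-- `307/100 - 17 s^2 - b (1 - 4 s)`; arguments `4 b`, `100 b - 307` -/
def rQ (b4 b3 : ℕ) (S : F) : F := ((F.mulq b4 1 S).sub (F.rat b3 100)).sub (F.mulq 17 1 S.sqn)
/-- `9/2 s` -/
def kX (S : F) : F := F.mulq 45 10 S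

lemma mulq1 {n : ℕ} {a : F} {ε : ℕ → ℝ} {x : ℝ} (hε : ∀ i, |ε i| ≤ 1) (h : a.Encl ε x) :
    (F.mulq n 1 a).Encl ε (n * x) := by
  have := F.Encl.mulq (n := n) (d := 1) (by norm_num) hε h
  push_cast at this
  rwa [div_one] at this

lemma rat1 (n : ℕ) (ε : ℕ → ℝ) : (F.rat n 1).Encl ε (n : ℝ) := by
  have := F.Encl.rat n 1 ε
  push_cast at this
  rwa [div_one] at this

lemma ev_cB : Ev cB (fun x => Real.pi - 6 * x) := by
  intro X ε x hε hX
  have := F.Encl.sub (F.Encl.pi ε) (mulq1 (n := 6) hε hX)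
  push_cast at this
  exact this

lemma ev_cA : Ev cA (fun _ => Real.pi / 2) := by
  intro X ε x hε hX
  have := F.Encl.mulq (n := 1) (d := 2) (by norm_num) hε (F.Encl.pi ε)
  push_cast at this
  have e : (1 : ℝ) / 2 * Real.pi = Real.pi / 2 := by ring
  rw [e] at this
  exact this

lemma ev_eK (n d : ℕ) : Ev (eK n d) (fun _ => (n : ℝ) / d) := by
  intro X ε x hε hX
  exact F.Encl.rat n d ε

lemma ev_eL {n d n' d' : ℕ} (hd : 0 < d') :
    Ev (eL n d n' d') (fun x => (n : ℝ) / d - (n' : ℝ) / d' * x) := by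
  intro X ε x hε hX
  exact F.Encl.sub (F.Encl.rat n d ε) (F.Encl.mulq hd hε hX)

lemma ev_rP (b4 b3 : ℕ) : Ev (rP b4 b3) (fun s => (b4 : ℝ) * s - b3) := by
  intro X ε x hε hX
  exact F.Encl.sub (mulq1 hε hX) (rat1 _ ε)

lemma ev_rQ (b4 b3 : ℕ) : Ev (rQ b4 b3) (fun s => (b4 : ℝ) * s - b3 / 100 - 17 * s ^ 2) := by
  intro X ε x hε hX
  have := F.Encl.sub (F.Encl.sub (mulq1 (n := b4) hε hX) (F.Encl.rat b3 100 ε))
    (mulq1 (n := 17) hε (F.Encl.sqn hε hX))
  push_cast at this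
  exact this

lemma ev_kX : Ev kX (fun s => 45 / 10 * s) := by
  intro X ε x hε hX
  have := F.Encl.mulq (n := 45) (d := 10) (by norm_num) hε hX
  push_cast at this
  exact this

lemma ev_k0 : Ev (eK 0 1) (fun _ => 0) := by
  intro X ε x hε hX
  have := F.Encl.rat 0 1 ε
  push_cast at this
  rw [zero_div] at this
  exact this

/-! ### link -/

variable {m x s ρ : ℝ} {w ζ : ℂ}

theorem u_eq (hw : W x m w) (hz : ZR s ρ ζ) : w + 1 / 2 + ζ = ⟨x + s, 4 * ρ * s - -m * x⟩ := by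
  apply Complex.ext
  · have h : ((1 : ℂ) / 2).re = 1 / 2 := by norm_num
    simp only [Complex.add_re, h, hw.re, hz.re]
    ring
  · have h : ((1 : ℂ) / 2).im = 0 := by norm_num
    simp only [Complex.add_im, h, hw.im, hz.im]
    ring

theorem v_eq (hw : W x m w) (hz : ZR s ρ ζ) : w + 1 / 2 - ζ = vC x (-m) s ρ := by
  apply Complex.ext
  · have h : ((1 : ℂ) / 2).re = 1 / 2 := by norm_num
    simp only [Complex.sub_re, Complex.add_re, h, hw.re, hz.re, vC]
    ring
  · have h : ((1 : ℂ) / 2).im = 0 := by norm_num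
    simp only [Complex.sub_im, Complex.add_im, h, hw.im, hz.im, vC]
    ring

theorem w_eq (hw : W x m w) : w = ⟨x, -(-m * x)⟩ := by
  apply Complex.ext
  · exact hw.re
  · simp only [hw.im]; ring

theorem S4_rD (hw : W x m w) (hz : ZR s ρ ζ) (hx : x < 1 / 4) (c e : ℝ) :
    S4 m w ζ + c * m - e = rD c e x (-m) s ρ := by
  have h1 := hw.pos
  have h2 := hz.lo
  have h3 := hz.hi
  have hw' : w ∈ strip := ⟨by rw [hw.re]; linarith only [h1], by rw [hw.re]; linarith only [hx, h1]⟩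
  unfold S4 rD
  rw [u_eq hw hz, v_eq hw hz, LL_lnA' ⟨x + s, _⟩,
    Num.YY_lnB (u := ⟨x + s, 4 * ρ * s - -m * x⟩) ⟨by simp only; linarith only [hx, h1, h2], by simp only; linarith only [hx, h1, h3]⟩,
    LL_lnA' w, Num.YY_lnB hw', hw.re, hw.im]
  have e1 : lnA x (m * x) = lnA x (-m * x) := by
    rw [neg_mul, lnA_neg]
  have e2 : lnB x (m * x) = -lnB x (-m * x) := by
    rw [neg_mul, lnB_neg, neg_neg]
  rw [e1, e2]
  unfold vA vB
  ring

theorem Dm_rF (hw : W x m w) (hz : ZR s ρ ζ) (hx : x < 1 / 4) (r κ : ℝ) :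
    Dm (4 * ρ) w ζ - 4 * ρ * (Real.pi * r) - κ = rF r κ x (-m) s ρ := by
  have h1 := hw.pos
  have h2 := hz.lo
  have h3 := hz.hi
  unfold Dm Dq rF
  rw [u_eq hw hz, v_eq hw hz, LL_lnA' ⟨x + s, _⟩,
    Num.YY_lnB (u := ⟨x + s, 4 * ρ * s - -m * x⟩) ⟨by simp only; linarith only [hx, h1, h2], by simp only; linarith only [hx, h1, h3]⟩]
  unfold vA vB
  ring

theorem dom (hw : W x m w) (hz : ZR s ρ ζ) (hx : x < 1 / 4) (hm : m < 0) : Dom x (-m) s ρ :=
  ⟨hw.pos, hx, by linarith only [hz, hz.lo], hz.hi, hz.pos.le, by linarith only [hm]⟩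

theorem FP_small {b : ℝ} (hw : W x m w) (hz : ZR s ρ ζ) (hx : x < 1 / 4) (hs : s < 12 / 100)
    (h : FP b s ρ w ζ) : rF (4 * b * s - (b - 3)) 0 x (-m) s ρ ≤ 0 := by
  rw [← Dm_rF hw hz hx]
  unfold FP gE at h
  rw [if_pos hs] at h
  linarith only [h]

theorem FP_big {b : ℝ} (hw : W x m w) (hz : ZR s ρ ζ) (hx : x < 1 / 4) (hs : 12 / 100 ≤ s)
    (h : FP b s ρ w ζ) : rF (4 * b * s - (100 * b - 307) / 100 - 17 * s ^ 2) 0 x (-m) s ρ ≤ 0 := by
  rw [← Dm_rF hw hz hx]
  unfold FP gE at h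
  rw [if_neg (not_lt.mpr hs)] at h
  linarith only [h]

theorem FX_rF {b : ℝ} (hw : W x m w) (hz : ZR s ρ ζ) (hx : x < 1 / 4)
    (h : FX b s ρ w ζ) : rF (4 * b * s - (b - 2)) (45 / 10 * s) x (-m) s ρ ≤ 0 := by
  rw [← Dm_rF hw hz hx]
  unfold FX at h
  linarith only [h]

/-- a larger digit gives a stronger condition -/
theorem FP_mono {b b' : ℝ} (hz : ZR s ρ ζ) (hb : b ≤ b') (h : FP b' s ρ w ζ) : FP b s ρ w ζ := by
  unfold FP at h ⊢
  have h1 := hz.hi
  have h2 := hz.pos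
  have h3 := Real.pi_pos
  have h4 : 0 ≤ 4 * Real.pi * ρ * ((b' - b) * (1 - 4 * s)) :=
    mul_nonneg (by positivity) (mul_nonneg (by linarith only [hb]) (by linarith only [h1]))
  linarith only [h, h4]

theorem FX_mono {b b' : ℝ} (hz : ZR s ρ ζ) (hb : b ≤ b') (h : FX b' s ρ w ζ) : FX b s ρ w ζ := by
  unfold FX at h ⊢
  have h1 := hz.hi
  have h2 := hz.pos
  have h3 := Real.pi_pos
  have h4 : 0 ≤ 4 * Real.pi * ρ * ((b' - b) * (1 - 4 * s)) :=
    mul_nonneg (by positivity) (mul_nonneg (by linarith only [hb]) (by linarith only [h1]))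
  linarith only [h, h4]

end LR

end Pool.Agent.Work.MP_b30479_gtS.G2

end

section

/-!
# Left ramps of the hinges of a ring: small `x`
-/

namespace Pool.Agent.Work.MP_b30479_gtS.G2

open VOL NumIs

namespace LR

variable {m x s ρ : ℝ} {w ζ : ℂ}

theorem sinh_sq_le {y : ℝ} (h : |y| ≤ 1 / 2) : Real.sinh y ^ 2 ≤ y ^ 2 + 2 * y ^ 4 := by
  have h1 : Real.cosh (2 * y) = 2 * Real.sinh y ^ 2 + 1 := by
    rw [Real.cosh_two_mul, Real.cosh_sq]
    ring
  have h2 := Real.cosh_le_exp_half_sq (2 * y)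
  have e : (2 * y) ^ 2 / 2 = 2 * y ^ 2 := by ring
  rw [e] at h2
  have hy : y ^ 2 ≤ 1 / 4 := by
    have := abs_le.mp h
    nlinarith only [this]
  have h3 := abs_le.mp (Real.abs_exp_sub_one_sub_id_le (x := 2 * y ^ 2) (by
    rw [abs_of_nonneg (by positivity)]
    linarith only [hy]))
  nlinarith only [h1, h2, h3, h3.2]

theorem MMw_le {y : ℝ} (hy : |Real.pi * y| ≤ 1 / 2) :
    MM x y ≤ (Real.pi * x) ^ 2 + ((Real.pi * y) ^ 2 + 2 * (Real.pi * y) ^ 4) := by
  unfold MM
  have h1 := sinh_sq_le hy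
  have h2 : Real.sin (Real.pi * x) ^ 2 ≤ (Real.pi * x) ^ 2 := by
    rw [sq_le_sq]
    exact Real.abs_sin_le_abs
  linarith only [h1, h2]

theorem MMv_ge {t : ℝ} {y : ℝ} (h0 : 0 ≤ t) (h1 : t ≤ 1 / 2) : (2 * t) ^ 2 ≤ MM t y := by
  have hp := Real.pi_pos
  have h2 := Real.mul_le_sin (x := Real.pi * t) (by positivity) (by nlinarith only [h1, hp])
  have e : 2 / Real.pi * (Real.pi * t) = 2 * t := by field_simp
  rw [e] at h2
  unfold MM
  have h3 : (2 * t) ^ 2 ≤ Real.sin (Real.pi * t) ^ 2 := by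
    apply pow_le_pow_left₀ (by positivity) h2
  have h4 := sq_nonneg (Real.sinh (Real.pi * y))
  linarith only [h3, h4]

/-- ramp of the ring variable, `x` small -/
theorem small_ramp (hw : W x m w) (hz : ZR s ρ ζ) (hm : m ≤ 0) (hm' : -(131 / 100) ≤ m)
    (hx : x ≤ 4 / 1000) : 35 / 10 ≤ LL (w + 1 / 2 + ζ) + LL (w + 1 / 2 - ζ) - 2 * LL w := by
  have hp := Real.pi_pos
  have hp2 := Real.pi_lt_d4
  have h1 := hw.pos
  have h2 := hz.lo
  have h3 := hz.hi
  have hv : LL (w + 1 / 2 - ζ) = lnA (s - x) (4 * ρ * s + -m * x) := by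
    rw [v_eq hw hz]
    exact vA_eq x (-m) s ρ
  rw [hv, u_eq hw hz, LL_lnA' ⟨x + s, _⟩, LL_lnA' w, hw.re, hw.im]
  simp only
  unfold lnA
  have a1 : 1 / 16 ≤ 4 * (Real.sin (Real.pi * (x + s)) ^ 2 +
      Real.sinh (Real.pi * (4 * ρ * s - -m * x)) ^ 2) := by
    have := MMv_ge (t := x + s) (y := 4 * ρ * s - -m * x) (by linarith only [hx, h1, h2]) (by linarith only [hx, h1, h3])
    unfold MM at this
    nlinarith only [h2, this, hx, h1]
  have a2 : 54756 / 1000000 ≤ 4 * (Real.sin (Real.pi * (s - x)) ^ 2 +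
      Real.sinh (Real.pi * (4 * ρ * s + -m * x)) ^ 2) := by
    have := MMv_ge (t := s - x) (y := 4 * ρ * s + -m * x) (by linarith only [hx, h1, h2]) (by linarith only [hx, h1, h3])
    unfold MM at this
    have h4 : 585 / 10000 ≤ s - x := by linarith only [hx, h2]
    nlinarith only [hx, h2, this]
  have hmx : |m * x| ≤ 524 / 100000 := by
    rw [abs_le]
    constructor <;> nlinarith only [hm', hm, hx, h1]
  have hpm : |Real.pi * (m * x)| ≤ 16463 / 1000000 := by
    rw [abs_mul, abs_of_pos hp]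
    nlinarith only [hx, hp2, h1, hp, hmx, abs_nonneg (m * x)]
  have a3 : 4 * (Real.sin (Real.pi * x) ^ 2 + Real.sinh (Real.pi * (m * x)) ^ 2) ≤ 172 / 100000 := by
    have := MMw_le (x := x) (y := m * x) (by linarith only [hx, h1, hpm])
    unfold MM at this
    have b1 : (Real.pi * x) ^ 2 ≤ (12567 / 1000000) ^ 2 := by
      apply pow_le_pow_left₀ (by positivity)
      nlinarith only [hx, hp2, h1, hp]
    have b2 : (Real.pi * (m * x)) ^ 2 ≤ (16463 / 1000000) ^ 2 := by
      rw [← sq_abs]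
      exact pow_le_pow_left₀ (abs_nonneg _) hpm 2
    have b3 : (Real.pi * (m * x)) ^ 4 ≤ ((16463 / 1000000) ^ 2) ^ 2 := by
      have e : (Real.pi * (m * x)) ^ 4 = ((Real.pi * (m * x)) ^ 2) ^ 2 := by ring
      rw [e]
      exact pow_le_pow_left₀ (by positivity) b2 2
    linarith only [hx, h1, this, b1, b2, b3]
  have a4 : 0 < 4 * (Real.sin (Real.pi * x) ^ 2 + Real.sinh (Real.pi * (m * x)) ^ 2) := by
    have : 0 < Real.sin (Real.pi * x) :=
      Real.sin_pos_of_pos_of_lt_pi (by positivity) (by nlinarith only [hp, hx])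
    have := sq_nonneg (Real.sinh (Real.pi * (m * x)))
    positivity
  have l1 := Real.log_le_log (by norm_num) a1
  have l2 := Real.log_le_log (by norm_num) a2
  have l3 := Real.log_le_log a4 a3
  have l4 : 7 ≤ Real.log (1 / 16) + Real.log (54756 / 1000000) - 2 * Real.log (172 / 100000) := by
    have e : Real.log (1 / 16) + Real.log (54756 / 1000000) - 2 * Real.log (172 / 100000) =
        Real.log (1 / 16 * (54756 / 1000000) / (172 / 100000) ^ 2) := by
      have k1 := Real.log_div (x := 1 / 16 * (54756 / 1000000)) (y := (172 / 100000) ^ 2) (by norm_num)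
        (by norm_num)
      have k2 := Real.log_mul (x := 1 / 16) (y := 54756 / 1000000) (by norm_num) (by norm_num)
      have k3 : Real.log ((172 / 100000 : ℝ) ^ 2) = 2 * Real.log (172 / 100000) := by
        rw [Real.log_pow]
        push_cast
        ring
      rw [k1, k2, k3]
    rw [e, Real.le_log_iff_exp_le (by norm_num)]
    have e7 : Real.exp 7 = Real.exp 1 ^ 7 := by
      rw [← Real.exp_nat_mul]
      norm_num
    rw [e7]
    have h9 := Real.exp_one_lt_d9
    calc Real.exp 1 ^ 7 ≤ 2.7182818286 ^ 7 := pow_le_pow_left₀ (Real.exp_pos 1).le h9.le 7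
      _ ≤ _ := by norm_num
  linarith only [l1, l2, l3, l4]

/-- `LL` is nonnegative in the middle third of the strip -/
theorem LL_mid {u : ℂ} (h1 : 1 / 6 ≤ u.re) (h2 : u.re ≤ 5 / 6) : 0 ≤ LL u := by
  have hp := Real.pi_pos
  rw [LL_lnA']
  unfold lnA
  have hs : 1 / 2 ≤ Real.sin (Real.pi * u.re) := by
    rcases le_total u.re (1 / 2) with h | h
    · have := Real.sin_le_sin_of_le_of_le_pi_div_two (x := Real.pi / 6) (y := Real.pi * u.re)
        (by linarith only [hp]) (by nlinarith only [hp, h]) (by nlinarith only [h1, hp])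
      rw [Real.sin_pi_div_six] at this
      exact this
    · have := Real.sin_le_sin_of_le_of_le_pi_div_two (x := Real.pi / 6) (y := Real.pi - Real.pi * u.re)
        (by linarith only [hp]) (by nlinarith only [hp, h]) (by nlinarith only [h2, hp])
      rw [Real.sin_pi_div_six, Real.sin_pi_sub] at this
      exact this
  have h3 : 1 ≤ 4 * (Real.sin (Real.pi * u.re) ^ 2 + Real.sinh (Real.pi * u.im) ^ 2) := by
    have := sq_nonneg (Real.sinh (Real.pi * u.im))
    nlinarith only [hs]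
  have := Real.log_nonneg h3
  linarith only [this]

theorem flat_LL (hw : W x m w) (hz : ZF ζ) (hx : x ≤ 83 / 1000) :
    0 ≤ LL (w + 1 / 2 + ζ) + LL (w + 1 / 2 - ζ) := by
  have h1 := hw.pos
  have h2 := hz.lo
  have h3 := hz.hi
  have hh : ((1 : ℂ) / 2).re = 1 / 2 := by norm_num
  have a1 := LL_mid (u := w + 1 / 2 + ζ) (by rw [Complex.add_re, Complex.add_re, hh, hw.re]; linarith only [hx, h1, h2])
    (by rw [Complex.add_re, Complex.add_re, hh, hw.re]; linarith only [hx, h1, h3])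
  have a2 := LL_mid (u := w + 1 / 2 - ζ) (by rw [Complex.sub_re, Complex.add_re, hh, hw.re]; linarith only [hx, h1, h3])
    (by rw [Complex.sub_re, Complex.add_re, hh, hw.re]; linarith only [hx, h1, h2])
  linarith only [a1, a2]

/-- `LL w` for small `x`, bound `K` of `4 |sin πw|^2` -/
theorem LLw_small {K y : ℝ} (hw : W x m w) (hx1 : x < 1) (hy : |Real.pi * (m * x)| ≤ y) (hy1 : y ≤ 1 / 2)
    (hK : 4 * ((Real.pi * x) ^ 2 + (y ^ 2 + 2 * y ^ 4)) ≤ K) : 2 * LL w ≤ Real.log K := by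
  have hp := Real.pi_pos
  have h1 := hw.pos
  rw [LL_lnA' w, hw.re, hw.im]
  unfold lnA
  have a3 : 4 * (Real.sin (Real.pi * x) ^ 2 + Real.sinh (Real.pi * (m * x)) ^ 2) ≤ K := by
    have := MMw_le (x := x) (y := m * x) (by linarith only [hy, hy1])
    unfold MM at this
    have b2 : (Real.pi * (m * x)) ^ 2 ≤ y ^ 2 := by
      rw [← sq_abs]
      exact pow_le_pow_left₀ (abs_nonneg _) hy 2
    have b3 : (Real.pi * (m * x)) ^ 4 ≤ y ^ 4 := by
      have e : (Real.pi * (m * x)) ^ 4 = ((Real.pi * (m * x)) ^ 2) ^ 2 := by ring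
      have e' : y ^ 4 = (y ^ 2) ^ 2 := by ring
      rw [e, e']
      exact pow_le_pow_left₀ (by positivity) b2 2
    linarith only [hK, this, b2, b3]
  have a4 : 0 < 4 * (Real.sin (Real.pi * x) ^ 2 + Real.sinh (Real.pi * (m * x)) ^ 2) := by
    have : 0 < Real.sin (Real.pi * x) :=
      Real.sin_pos_of_pos_of_lt_pi (by positivity) (by nlinarith only [hx1, hp])
    have := sq_nonneg (Real.sinh (Real.pi * (m * x)))
    positivity
  have l3 := Real.log_le_log a4 a3
  linarith only [l3]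

/-- `x ≤ .02`, `|m| ≤ .9875`: `2 LL w ≤ -3.45` -/
theorem LLw_02 (hw : W x m w) (hx : x ≤ 2 / 100) (hm : m ≤ 0) (hm' : -(9875 / 10000) ≤ m) :
    2 * LL w ≤ -(345 / 100) := by
  have hp := Real.pi_pos
  have hp2 := Real.pi_lt_d4
  have h1 := hw.pos
  have hmx : |m * x| ≤ 1975 / 100000 := by
    rw [abs_le]
    constructor <;> nlinarith only [hm', hx, hm, h1]
  have hpm : |Real.pi * (m * x)| ≤ 6206 / 100000 := by
    rw [abs_mul, abs_of_pos hp]
    nlinarith only [hx, hp2, h1, hp, hmx, abs_nonneg (m * x)]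
  have hx2 : (Real.pi * x) ^ 2 ≤ (62832 / 1000000) ^ 2 := by
    apply pow_le_pow_left₀ (by positivity)
    nlinarith only [hp2, hx, hp]
  have h := LLw_small (K := 3134 / 100000) hw (by linarith only [hx, h1]) hpm (by norm_num) (by
    norm_num at hx2 ⊢
    linarith only [hx, h1, hx2])
  refine h.trans ?_
  rw [← Real.log_exp (-(345 / 100))]
  apply Real.log_le_log (by norm_num)
  have e : Real.exp (-(345 / 100)) = (Real.exp (345 / 100))⁻¹ := Real.exp_neg _
  rw [e, le_inv_comm₀ (by norm_num) (Real.exp_pos _)]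
  have e2 : Real.exp (345 / 100) = Real.exp 1 ^ 3 * Real.exp (45 / 100) := by
    rw [← Real.exp_nat_mul, ← Real.exp_add]
    norm_num
  have h9 := Real.exp_one_lt_d9
  have e3 : Real.exp (45 / 100) ≤ 1569 / 1000 := by
    have := Real.exp_bound' (x := 45 / 100) (by norm_num) (by norm_num) (n := 5) (by norm_num)
    refine this.trans ?_
    norm_num [Finset.sum_range_succ, Nat.factorial]
  rw [e2]
  have e4 : Real.exp 1 ^ 3 ≤ 2.7182818286 ^ 3 := pow_le_pow_left₀ (Real.exp_pos 1).le h9.le 3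
  calc Real.exp 1 ^ 3 * Real.exp (45 / 100) ≤ 2.7182818286 ^ 3 * (1569 / 1000) := by
        apply mul_le_mul e4 e3 (Real.exp_pos _).le (by norm_num)
    _ ≤ _ := by norm_num

end LR

end Pool.Agent.Work.MP_b30479_gtS.G2

end

section

/-!
# `LL` and `YY` near `1`: the forms of the leaves

`u = 1 + c ± i t`.
-/

namespace Pool.Agent.Work.MP_b30479_gtS.G2

open VOL NumIs

namespace RZ1

open LR

variable {c t e : ℝ}

theorem lnA_one_add (c t : ℝ) : lnA (1 + c) t = lnA c t := by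
  unfold lnA
  have h : Real.pi * (1 + c) = Real.pi * c + Real.pi := by ring
  rw [h, Real.sin_add_pi, neg_sq]

theorem LL_near (c t : ℝ) : LL ⟨1 + c, t⟩ = lnA c t := by
  rw [LL_lnA']
  exact lnA_one_add c t

theorem LL_near_neg (c t : ℝ) : LL ⟨1 + c, t⟩ = lnA (-c) t := by
  rw [LL_near, lnA_neg_left]

theorem LL_near' (c t : ℝ) : LL ⟨1 + c, -t⟩ = lnA c t := by
  rw [LL_near, lnA_neg]

/-- `c < 0` -/
theorem YY_left (h0 : c < 0) (h1 : -1 < c) : YY ⟨1 + c, t⟩ = lnB (-c) t := by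
  rw [← YY_one_sub, Num.YY_lnB (u := 1 - ⟨1 + c, t⟩)]
  · simp only [Complex.sub_re, Complex.one_re, Complex.sub_im, Complex.one_im, zero_sub]
    rw [lnB_neg, neg_neg]
    congr 1
    ring
  · constructor
    · simp only [Complex.sub_re, Complex.one_re]
      linarith only [h0]
    · simp only [Complex.sub_re, Complex.one_re]
      linarith only [h1]

/-- `c > 0`, below the axis -/
theorem YY_right (h0 : 0 < c) (h1 : c < 1) (ht : 0 < t) : YY ⟨1 + c, -t⟩ = lnB c t - Real.pi := by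
  have e : (⟨1 + c, -t⟩ : ℂ) = ⟨c, -t⟩ + 1 := by
    apply Complex.ext
    · simp only [Complex.add_re, Complex.one_re]
      ring
    · simp
  rw [e, YY_add_one, Num.YY_lnB (u := ⟨c, -t⟩) ⟨h0, h1⟩]
  simp only
  rw [if_neg (by linarith only [ht]), if_pos (by linarith only [ht]), lnB_neg, neg_neg]
  ring

/-- general form of the angle below the axis -/
theorem YY_mid (h0 : -(1 / 2) < c) (h1 : c < 1 / 2) (ht : 0 < t) :
    YY ⟨1 + c, -t⟩ = -((1 : ℕ) / (2 : ℕ) * Real.pi +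
      Real.arctan (Real.sin (Real.pi * c) * Real.cosh (Real.pi * t) *
      (Real.cos (Real.pi * c) * Real.sinh (Real.pi * t))⁻¹)) := by
  have hp := Real.pi_pos
  have hch := Real.cosh_pos (Real.pi * t)
  have hsh : 0 < Real.sinh (Real.pi * t) := Real.sinh_pos_iff.mpr (by positivity)
  have hcos : 0 < Real.cos (Real.pi * c) :=
    Real.cos_pos_of_mem_Ioo ⟨by nlinarith only [h0, hp], by nlinarith only [h1, hp]⟩
  push_cast
  rcases lt_trichotomy 0 c with hs | hs | hs
  · rw [YY_right hs (by linarith only [h1, hs]) ht]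
    have hsin : 0 < Real.sin (Real.pi * c) :=
      Real.sin_pos_of_pos_of_lt_pi (by positivity) (by nlinarith only [hp, h1])
    unfold lnB
    have := arctan_inv' (a := Real.cos (Real.pi * c) * Real.sinh (Real.pi * t))
      (b := Real.sin (Real.pi * c) * Real.cosh (Real.pi * t))
      (by positivity) (by positivity)
    rw [this, div_eq_mul_inv (Real.sin (Real.pi * c) * Real.cosh (Real.pi * t))]
    ring
  · rw [← hs]
    simp only [mul_zero, Real.sin_zero, zero_mul, Real.arctan_zero, add_zero]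
    have e : (⟨1, -t⟩ : ℂ) = (starRingEnd ℂ) (((t : ℝ) : ℂ) * Complex.I) + 1 := by
      apply Complex.ext <;> simp
    have hi : ((starRingEnd ℂ) (((t : ℝ) : ℂ) * Complex.I)).im = -t := by
      rw [Complex.conj_im]
      simp
    rw [e, YY_add_one, if_neg (by rw [hi]; linarith only [ht]), if_pos (by rw [hi]; linarith only [ht]), YY_conj,
      MR.YY_it ht]
    ring
  · rw [YY_left hs (by linarith only [h0, hs]), lnB_neg]
    have hsin : 0 < Real.sin (Real.pi * (-c)) :=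
      Real.sin_pos_of_pos_of_lt_pi (by nlinarith only [hp, hs]) (by nlinarith only [hp, h0])
    have es : Real.sin (Real.pi * c) = -Real.sin (Real.pi * (-c)) := by
      rw [mul_neg, Real.sin_neg, neg_neg]
    have ec : Real.cos (Real.pi * c) = Real.cos (Real.pi * (-c)) := by
      rw [mul_neg, Real.cos_neg]
    rw [ec] at hcos
    unfold lnB
    have := arctan_inv' (a := Real.cos (Real.pi * (-c)) * Real.sinh (Real.pi * t))
      (b := Real.sin (Real.pi * (-c)) * Real.cosh (Real.pi * t))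
      (by positivity) (by positivity)
    rw [this, es, ec, neg_mul, neg_mul, Real.arctan_neg,
      div_eq_mul_inv (Real.sin (Real.pi * (-c)) * Real.cosh (Real.pi * t))]
    ring

theorem YY_flip (c e : ℝ) : YY ⟨1 + c, e⟩ = -YY ⟨1 + c, -e⟩ := by
  have h : (⟨1 + c, -e⟩ : ℂ) = (starRingEnd ℂ) ⟨1 + c, e⟩ := by
    apply Complex.ext <;> simp
  rw [h, YY_conj, neg_neg]

/-- above the axis -/
theorem YY_up (h0 : -(1 / 2) < c) (h1 : c < 1 / 2) (ht : 0 < e) :
    YY ⟨1 + c, e⟩ = (1 : ℕ) / (2 : ℕ) * Real.pi +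
      Real.arctan (Real.sin (Real.pi * c) * Real.cosh (Real.pi * e) *
      (Real.cos (Real.pi * c) * Real.sinh (Real.pi * e))⁻¹) := by
  rw [YY_flip, YY_mid h0 h1 ht, neg_neg]

/-- upper bound right of `1`, any height -/
theorem YY_top (h0 : 0 < c) (h1 : c < 1) : YY ⟨1 + c, e⟩ ≤ Real.pi - lnB c e := by
  have hp := Real.pi_pos
  rcases lt_trichotomy 0 e with h | h | h
  · rw [YY_flip, YY_right h0 h1 h]
    linarith only []
  · rw [← h]
    have : lnB c 0 = 0 := by
      unfold lnB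
      simp
    rw [this, YY_zero (by simp)]
    linarith only [hp]
  · have h' : 0 < -e := by linarith only [h]
    have e1 : (⟨1 + c, e⟩ : ℂ) = ⟨1 + c, -(-e)⟩ := by rw [neg_neg]
    rw [e1, YY_right h0 h1 h', lnB_neg]
    have h2 : -(Real.pi / 2) < lnB c e := Real.neg_pi_div_two_lt_arctan _
    have h3 : lnB c e < Real.pi / 2 := Real.arctan_lt_pi_div_two _
    linarith only [hp]

/-- near the singularity; the second case is the value of `Real.log 0` -/
theorem sing (h0 : |c| ≤ 1 / 20) (h1 : |e| ≤ 1 / 20) :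
    (LL ⟨1 + c, e⟩ ≤ -(79 / 100) ∧ YY ⟨1 + c, e⟩ ≤ Real.pi) ∨
      (LL ⟨1 + c, e⟩ = 0 ∧ YY ⟨1 + c, e⟩ = 0) := by
  have hp := Real.pi_pos
  have hp2 := Real.pi_lt_d4
  have hc := abs_le.mp h0
  have hY : YY ⟨1 + c, e⟩ ≤ Real.pi := by
    refine (abs_le.mp (MR.YY_abs_pi (u := ⟨1 + c, e⟩) ?_ ?_)).2
    · simp only
      linarith only [hc]
    · simp only
      linarith only [hc]
  have a1 : Real.sin (Real.pi * c) ^ 2 ≤ (Real.pi * c) ^ 2 := by
    rw [sq_le_sq]
    exact Real.abs_sin_le_abs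
  have b1 : (Real.pi * c) ^ 2 ≤ (15708 / 100000) ^ 2 := by
    rw [← sq_abs, abs_mul, abs_of_pos hp]
    apply pow_le_pow_left₀ (by positivity)
    nlinarith only [hp2, h0, hp, abs_nonneg c]
  have hpe : |Real.pi * e| ≤ 15708 / 100000 := by
    rw [abs_mul, abs_of_pos hp]
    nlinarith only [hp2, h1, hp, abs_nonneg e]
  have b2 : (Real.pi * e) ^ 2 ≤ (15708 / 100000) ^ 2 := by
    rw [← sq_abs]
    exact pow_le_pow_left₀ (abs_nonneg _) hpe 2
  have a2 := sinh_sq_le (y := Real.pi * e) (by linarith only [hpe])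
  have b3 : (Real.pi * e) ^ 4 ≤ ((15708 / 100000) ^ 2) ^ 2 := by
    have e1 : (Real.pi * e) ^ 4 = ((Real.pi * e) ^ 2) ^ 2 := by ring
    rw [e1]
    exact pow_le_pow_left₀ (by positivity) b2 2
  have h3 : 4 * (Real.sin (Real.pi * c) ^ 2 + Real.sinh (Real.pi * e) ^ 2) ≤ 2035 / 10000 := by
    norm_num at b1 b2 b3 ⊢
    linarith only [a1, a2, b1, b2, b3]
  rcases (show 0 ≤ 4 * (Real.sin (Real.pi * c) ^ 2 + Real.sinh (Real.pi * e) ^ 2) by
    positivity).eq_or_lt with h4 | h4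
  · right
    have h5 : Real.sinh (Real.pi * e) ^ 2 = 0 := by
      have := sq_nonneg (Real.sin (Real.pi * c))
      have := sq_nonneg (Real.sinh (Real.pi * e))
      linarith
    have h6 : e = 0 := by
      rw [sq_eq_zero_iff, Real.sinh_eq_zero] at h5
      rcases mul_eq_zero.mp h5 with h | h
      · exact absurd h hp.ne'
      · exact h
    constructor
    · rw [LL_near]
      unfold lnA
      rw [← h4, Real.log_zero, zero_div]
    · exact YY_zero (by simpa using h6)
  · left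
    refine ⟨?_, hY⟩
    rw [LL_near]
    unfold lnA
    have l1 := Real.log_le_log h4 h3
    have l2 : Real.log (2035 / 10000) ≤ -(158 / 100) := by
      rw [← Real.log_exp (-(158 / 100))]
      apply Real.log_le_log (by norm_num)
      have e1 : Real.exp (-(158 / 100)) = (Real.exp (158 / 100))⁻¹ := Real.exp_neg _
      rw [e1, le_inv_comm₀ (by norm_num) (Real.exp_pos _)]
      have e2 : Real.exp (158 / 100) = Real.exp 1 * Real.exp (58 / 100) := by
        rw [← Real.exp_add]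
        norm_num
      have h9 := Real.exp_one_lt_d9
      have e3 : Real.exp (58 / 100) ≤ 1787 / 1000 := by
        have := Real.exp_bound' (x := 58 / 100) (by norm_num) (by norm_num) (n := 5) (by norm_num)
        refine this.trans ?_
        norm_num [Finset.sum_range_succ, Nat.factorial]
      rw [e2]
      calc Real.exp 1 * Real.exp (58 / 100) ≤ 2.7182818286 * (1787 / 1000) := by
            apply mul_le_mul h9.le e3 (Real.exp_pos _).le (by norm_num)
        _ ≤ _ := by norm_num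
    linarith only [l1, l2]

end RZ1

end Pool.Agent.Work.MP_b30479_gtS.G2

end

section

/-!
# Right ramp of a hinge `1 | ring`: kernel evaluation on a box

Variables `x`, `T`, `s` (ramp) or `y = -σ` (flat part), `ρ`; `m = T / (29/100)`, `k = m (65/100 - x)`.
-/

namespace Pool.Agent.Work.MP_b30479_gtS.G2

open VOL NumIs

namespace RZ1

open LR

/-! ### ramp: real functions -/

noncomputable def Sr (x m k s ρ : ℝ) : ℝ :=
  lnA (x + s) (4 * ρ * s - k) + lnA (x - s) (4 * ρ * s + k) - 2 * lnA x k +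
    m * (lnB (x - s) (4 * ρ * s + k) - lnB (x + s) (4 * ρ * s - k) - (Real.pi + 2 * lnB x k))

noncomputable def Fr (b1 b4 x k s ρ : ℝ) : ℝ :=
  lnA (x + s) (4 * ρ * s - k) - lnA (x - s) (4 * ρ * s + k) +
    4 * ρ * (Real.pi * (b1 - b4 * s) - (lnB (x + s) (4 * ρ * s - k) + lnB (x - s) (4 * ρ * s + k)))

noncomputable def Gr (b1 b4 x k s ρ : ℝ) : ℝ :=
  Real.pi * (b1 - b4 * s) - (lnB (x + s) (4 * ρ * s - k) + lnB (x - s) (4 * ρ * s + k)) -
    108 / 100 * (Real.pi * s * (Real.sinh (2 * (Real.pi * k)) * (Real.sin (Real.pi * (x + s)) ^ 2)⁻¹))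

/-! ### ramp: leaves -/

def kM (T : F) : F := F.mulq 100 29 T
def kK (X M : F) : F := M.mul ((F.rat 65 100).sub X)

/-- `au bu av bv` -/
def gR (ux ut vx vt : F) (C : F → F → F → F → Option F) : Option F :=
  o0 (fun au => o0 (fun bu => o0 (fun av => o0 (fun bv => C au bu av bv)
    (F.lnB vx vt)) (F.lnA vx vt)) (F.lnB ux ut)) (F.lnA ux ut)

/-- the side -/
def sR (X M K au bu av bv : F) (C : F → Option F) : Option F :=
  o0 (fun aw => o0 (fun bw => C (((au.add av).sub (aw.add aw)).add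
    (M.mul ((bv.sub bu).sub (F.pi.add (bw.add bw)))))) (F.lnB X K)) (F.lnA X K)

/-- rows with the first order condition -/
def lR (b1 b4 j : ℕ) (B X S R M K : F) : Bool :=
  let r4 := F.mulq 4 1 R
  let eta := r4.mul S
  let ux := X.add S
  posO' (gR ux (eta.sub K) (X.sub S) (eta.add K) (fun au bu av bv =>
    cond (Nat.beq j 61)
      (o0 (fun sh => o0 (fun iv => some (((F.pi.mul ((F.rat b1 1).sub (F.mulq b4 1 S))).sub
        (bu.add bv)).sub (F.mulq 108 100 ((F.pi.mul S).mul (sh.mul iv))))) (F.inv ux.sinPi.sqn))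
        (F.hyp false (F.mulq 2 1 (F.pi.mul K))))
      (cond (Nat.beq j 62)
        (some ((au.sub av).add (r4.mul ((F.pi.mul ((F.rat b1 1).sub (F.mulq b4 1 S))).sub
          (bu.add bv)))))
        (sR X M K au bu av bv (fun S4 => some (((S4.add B).neg).add (F.mulq (Nat.div j 2) 10
          ((au.sub av).add (r4.mul ((F.pi.mul ((F.rat b1 1).sub (F.mulq b4 1 S))).sub
            (bu.add bv)))))))))))

/-- rows without the first order condition -/
def lR3 (B X S R M K : F) : Bool :=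
  let eta := (F.mulq 4 1 R).mul S
  posO' (gR (X.add S) (eta.sub K) (X.sub S) (eta.add K) (fun au bu av bv =>
    sR X M K au bu av bv (fun S4 => some ((S4.add B).neg))))

lemma negE {a : F} {ε : ℕ → ℝ} {x : ℝ} (h : a.Encl ε x) : a.neg.Encl ε (-x) := by
  rw [F.Encl_iff] at h ⊢
  unfold F.neg
  simp only
  have e : -x * DR - ((a.q : ℝ) - a.p + (((a.b0 : ℝ) - a.a0) * ε 0 + (((a.b1 : ℝ) - a.a1) * ε 1 +
      (((a.b2 : ℝ) - a.a2) * ε 2 + ((a.b3 : ℝ) - a.a3) * ε 3)))) =
      -(x * DR - ((a.p : ℝ) - a.q + (((a.a0 : ℝ) - a.b0) * ε 0 + (((a.a1 : ℝ) - a.b1) * ε 1 +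
      (((a.a2 : ℝ) - a.b2) * ε 2 + ((a.a3 : ℝ) - a.b3) * ε 3))))) := by ring
  rw [e, abs_neg]
  exact h

lemma posO_some {x : Option F} (h : posO' x = true) : ∃ g, x = some g ∧ posF g = true := by
  rcases x with _ | g
  · exact absurd h (by simp [posO'])
  · exact ⟨g, rfl, h⟩

lemma gR_some {ux ut vx vt c : F} {C : F → F → F → F → Option F} {ε : ℕ → ℝ} {a b a' b' : ℝ}
    (hε : ∀ i, |ε i| ≤ 1) (h1 : ux.Encl ε a) (h2 : ut.Encl ε b) (h3 : vx.Encl ε a')
    (h4 : vt.Encl ε b') (h : gR ux ut vx vt C = some c) : ∃ au bu av bv,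
      au.Encl ε (lnA a b) ∧ bu.Encl ε (lnB a b) ∧ av.Encl ε (lnA a' b') ∧ bv.Encl ε (lnB a' b') ∧
      C au bu av bv = some c := by
  obtain ⟨au, hau, h⟩ := o0_some h
  obtain ⟨bu, hbu, h⟩ := o0_some h
  obtain ⟨av, hav, h⟩ := o0_some h
  obtain ⟨bv, hbv, h⟩ := o0_some h
  exact ⟨au, bu, av, bv, F.Encl.lnA hε h1 h2 hau, F.Encl.lnB hε h1 h2 hbu,
    F.Encl.lnA hε h3 h4 hav, F.Encl.lnB hε h3 h4 hbv, h⟩

lemma sR_some {X M K au bu av bv c : F} {C : F → Option F} {ε : ℕ → ℝ} {x m k a b a' b' : ℝ}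
    (hε : ∀ i, |ε i| ≤ 1) (hX : X.Encl ε x) (hM : M.Encl ε m) (hK : K.Encl ε k)
    (h1 : au.Encl ε a) (h2 : bu.Encl ε b) (h3 : av.Encl ε a') (h4 : bv.Encl ε b')
    (h : sR X M K au bu av bv C = some c) : ∃ S4 : F, S4.Encl ε (a + a' - 2 * lnA x k +
      m * (b' - b - (Real.pi + 2 * lnB x k))) ∧ C S4 = some c := by
  obtain ⟨aw, haw, h⟩ := o0_some h
  obtain ⟨bw, hbw, h⟩ := o0_some h
  have eaw := F.Encl.lnA hε hX hK haw
  have ebw := F.Encl.lnB hε hX hK hbw
  refine ⟨_, ?_, h⟩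
  have := F.Encl.add (F.Encl.sub (F.Encl.add h1 h3) (F.Encl.add eaw eaw)) (F.Encl.mul hε hM
    (F.Encl.sub (F.Encl.sub h4 h2) (F.Encl.add (F.Encl.pi ε) (F.Encl.add ebw ebw))))
  rw [← two_mul, ← two_mul] at this
  exact this

lemma enc4 {R : F} {ε : ℕ → ℝ} {ρ : ℝ} (hε : ∀ i, |ε i| ≤ 1) (hR : R.Encl ε ρ) :
    (F.mulq 4 1 R).Encl ε (4 * ρ) := by
  have := F.Encl.mulq (n := 4) (d := 1) (by norm_num) hε hR
  push_cast at this
  rwa [div_one] at this

theorem lR_sound {b1 b4 j : ℕ} {B X S R M K : F} {ε : ℕ → ℝ} {β x s ρ m k : ℝ}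
    (hε : ∀ i, |ε i| ≤ 1) (hB : B.Encl ε β) (hX : X.Encl ε x) (hS : S.Encl ε s) (hR : R.Encl ε ρ)
    (hM : M.Encl ε m) (hK : K.Encl ε k) (h : lR b1 b4 j B X S R M K = true)
    (hF : Fr b1 b4 x k s ρ ≤ 0) (hG : Gr b1 b4 x k s ρ ≤ 0) : Sr x m k s ρ < -β := by
  have k4 := enc4 hε hR
  have kE := F.Encl.mul hε k4 hS
  have kux := F.Encl.add hX hS
  have kvx := F.Encl.sub hX hS
  have kut := F.Encl.sub kE hK
  have kvt := F.Encl.add kE hK
  have kb : ((F.rat b1 1).sub (F.mulq b4 1 S)).Encl ε (b1 - b4 * s) :=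
    F.Encl.sub (rat1 b1 ε) (mulq1 hε hS)
  obtain ⟨g, hg, hpos⟩ := posO_some h
  obtain ⟨au, bu, av, bv, eau, ebu, eav, ebv, h1⟩ := gR_some hε kux kut kvx kvt hg
  have kP := F.Encl.sub (F.Encl.mul hε (F.Encl.pi ε) kb) (F.Encl.add ebu ebv)
  have kF := F.Encl.add (F.Encl.sub eau eav) (F.Encl.mul hε k4 kP)
  rcases hj : Nat.beq j 61 with _ | _
  · rw [hj, cond_false] at h1
    rcases hj2 : Nat.beq j 62 with _ | _
    · rw [hj2, cond_false] at h1
      obtain ⟨S4, eS, h1⟩ := sR_some hε hX hM hK eau ebu eav ebv h1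
      have kD := F.Encl.add (negE (F.Encl.add eS hB))
        (F.Encl.mulq (n := Nat.div j 2) (d := 10) (by norm_num) hε kF)
      have hp := posF_spec hε kD (by rw [← Option.some.inj h1] at hpos; exact hpos)
      have hj0 : (0 : ℝ) ≤ ((Nat.div j 2 : ℕ) : ℝ) / (10 : ℕ) := by positivity
      have := mul_nonpos_of_nonneg_of_nonpos hj0 hF
      unfold Fr at this
      unfold Sr
      linarith only [hp, this]
    · rw [hj2, cond_true] at h1
      have hp := posF_spec hε kF (by rw [← Option.some.inj h1] at hpos; exact hpos)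
      unfold Fr at hF
      linarith only [hF, hp]
  · rw [hj, cond_true] at h1
    obtain ⟨sh, hsh, h1⟩ := o0_some h1
    obtain ⟨iv, hiv, h1⟩ := o0_some h1
    have k2 : (F.mulq 2 1 (F.pi.mul K)).Encl ε (2 * (Real.pi * k)) := by
      have := mulq1 (n := 2) hε (F.Encl.mul hε (F.Encl.pi ε) hK)
      push_cast at this
      exact this
    have esh := F.Encl.sinh hε k2 hsh
    have eiv := F.Encl.inv hε (F.Encl.sqn hε (F.Encl.sinPi hε kux)) hiv
    have kG := F.Encl.sub kP (F.Encl.mulq (n := 108) (d := 100) (by norm_num) hε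
      (F.Encl.mul hε (F.Encl.mul hε (F.Encl.pi ε) hS) (F.Encl.mul hε esh eiv)))
    have hp := posF_spec hε kG (by rw [← Option.some.inj h1] at hpos; exact hpos)
    push_cast at hp
    unfold Gr at hG
    linarith only [hG, hp]

theorem lR3_sound {B X S R M K : F} {ε : ℕ → ℝ} {β x s ρ m k : ℝ}
    (hε : ∀ i, |ε i| ≤ 1) (hB : B.Encl ε β) (hX : X.Encl ε x) (hS : S.Encl ε s) (hR : R.Encl ε ρ)
    (hM : M.Encl ε m) (hK : K.Encl ε k) (h : lR3 B X S R M K = true) : Sr x m k s ρ < -β := by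
  have k4 := enc4 hε hR
  have kE := F.Encl.mul hε k4 hS
  have kux := F.Encl.add hX hS
  have kvx := F.Encl.sub hX hS
  have kut := F.Encl.sub kE hK
  have kvt := F.Encl.add kE hK
  obtain ⟨g, hg, hpos⟩ := posO_some h
  obtain ⟨au, bu, av, bv, eau, ebu, eav, ebv, h1⟩ := gR_some hε kux kut kvx kvt hg
  obtain ⟨S4, eS, h1⟩ := sR_some hε hX hM hK eau ebu eav ebv h1
  have hp := posF_spec hε (negE (F.Encl.add eS hB)) (by rw [← Option.some.inj h1] at hpos; exact hpos)
  unfold Sr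
  linarith only [hp]

/-! ### flat part -/

/-- `1/2 log`, `arctan` of the general form -/
def sv (c t : F) (C : F → F → Option F) : Option F :=
  o0 (fun sh => o0 (fun ch => o0 (fun l => o0 (fun iv => o0 (fun at' => C (F.mulq 1 2 l) at')
    (F.atan ((c.sinPi.mul ch).mul iv))) (F.inv (c.cosPi.mul sh)))
      (F.log (F.mulq 4 1 (c.sinPi.sqn.add sh.sqn)))) (F.hyp true (F.pi.mul t)))
      (F.hyp false (F.pi.mul t))

lemma sv_some {c t g : F} {C : F → F → Option F} {ε : ℕ → ℝ} {a b : ℝ}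
    (hε : ∀ i, |ε i| ≤ 1) (h1 : c.Encl ε a) (h2 : t.Encl ε b) (h : sv c t C = some g) :
    ∃ la at', la.Encl ε (lnA a b) ∧ at'.Encl ε (Real.arctan (Real.sin (Real.pi * a) *
      Real.cosh (Real.pi * b) * (Real.cos (Real.pi * a) * Real.sinh (Real.pi * b))⁻¹)) ∧
      C la at' = some g := by
  obtain ⟨sh, hsh, h⟩ := o0_some h
  obtain ⟨ch, hch, h⟩ := o0_some h
  obtain ⟨l, hl, h⟩ := o0_some h
  obtain ⟨iv, hiv, h⟩ := o0_some h
  obtain ⟨at', hat, h⟩ := o0_some h
  have k1 := F.Encl.sinh hε (F.Encl.mul hε (F.Encl.pi ε) h2) hsh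
  have k2 := F.Encl.cosh hε (F.Encl.mul hε (F.Encl.pi ε) h2) hch
  have k3 := F.Encl.inv hε (F.Encl.mul hε (F.Encl.cosPi hε h1) k1) hiv
  have k4 := F.Encl.mulq (n := 1) (d := 2) (by norm_num) hε (F.Encl.log hε
    (F.Encl.mulq (n := 4) (d := 1) (by norm_num) hε
      (F.Encl.add (F.Encl.sqn hε (F.Encl.sinPi hε h1)) (F.Encl.sqn hε k1))) hl)
  refine ⟨_, _, ?_, F.Encl.atan hε (F.Encl.mul hε
    (F.Encl.mul hε (F.Encl.sinPi hε h1) k2) k3) hat, h⟩
  push_cast at k4
  rw [div_one, one_div_mul_eq_div] at k4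
  exact k4

/-- forms of `u = 1 + c + i e` -/
def uf (f : ℕ) (c e : F) (C : F → F → Option F) : Option F :=
  cond (Nat.beq f 0)
    (cond (posF c.neg) (o0 (fun p => o0 (fun q => C p q) (F.lnB c.neg e)) (F.lnA c.neg e)) none)
    (cond (Nat.beq f 1)
      (cond (posF e) (sv c e (fun p q => C p ((F.mulq 1 2 F.pi).add q))) none)
      (cond (Nat.beq f 2)
        (cond (posF e.neg) (sv c e.neg (fun p q => C p ((F.mulq 1 2 F.pi).add q).neg)) none)
        (cond (posF c) (o0 (fun p => o0 (fun q => C p (F.pi.sub q)) (F.lnB c e)) (F.lnA c e)) none)))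

/-- forms of `v = 1 + c - i t`, `t > 0` -/
def vf (f : ℕ) (c t : F) (C : F → F → Option F) : Option F :=
  cond (Nat.beq f 0)
    (cond (posF t) (sv c t (fun p q => C p ((F.mulq 1 2 F.pi).add q).neg)) none)
    (cond (Nat.beq f 1)
      (cond (posF c) (o0 (fun p => o0 (fun q => C p (q.sub F.pi)) (F.lnB c t)) (F.lnA c t)) none)
      (cond (posF c.neg) (o0 (fun p => o0 (fun q => C p q.neg) (F.lnB c.neg t)) (F.lnA c.neg t))
        none))

lemma uf_some {f : ℕ} {c e g : F} {C : F → F → Option F} {ε : ℕ → ℝ} {γ η : ℝ}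
    (hε : ∀ i, |ε i| ≤ 1) (h1 : c.Encl ε γ) (h2 : e.Encl ε η) (hl : -(1 / 2) < γ) (hr : γ < 1 / 2)
    (h : uf f c e C = some g) : ∃ la yy, ∃ a b : ℝ, la.Encl ε a ∧ yy.Encl ε b ∧
      LL ⟨1 + γ, η⟩ ≤ a ∧ YY ⟨1 + γ, η⟩ ≤ b ∧ C la yy = some g := by
  have hpi : (F.mulq 1 2 F.pi).Encl ε ((1 : ℕ) / (2 : ℕ) * Real.pi) :=
    F.Encl.mulq (by norm_num) hε (F.Encl.pi ε)
  unfold uf at h
  rcases h0 : Nat.beq f 0 with _ | _
  · rw [h0, cond_false] at h
    rcases h1' : Nat.beq f 1 with _ | _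
    · rw [h1', cond_false] at h
      rcases h2' : Nat.beq f 2 with _ | _
      · rw [h2', cond_false] at h
        rcases h3 : posF c with _ | _
        · rw [h3, cond_false] at h
          exact absurd h (by simp)
        · rw [h3, cond_true] at h
          have hc := posF_spec hε h1 h3
          obtain ⟨p, hp, h⟩ := o0_some h
          obtain ⟨q, hq, h⟩ := o0_some h
          exact ⟨_, _, _, _, F.Encl.lnA hε h1 h2 hp, F.Encl.sub (F.Encl.pi ε)
            (F.Encl.lnB hε h1 h2 hq), (LL_near γ η).le, YY_top hc (by linarith only [hr, hc]), h⟩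
      · rw [h2', cond_true] at h
        rcases h3 : posF e.neg with _ | _
        · rw [h3, cond_false] at h
          exact absurd h (by simp)
        · rw [h3, cond_true] at h
          have he := posF_spec hε (negE h2) h3
          obtain ⟨p, q, ep, eq', h⟩ := sv_some hε h1 (negE h2) h
          refine ⟨_, _, _, _, ep, negE (F.Encl.add hpi eq'), ?_, ?_, h⟩
          · rw [LL_near, lnA_neg]
          · have e1 : (⟨1 + γ, η⟩ : ℂ) = ⟨1 + γ, -(-η)⟩ := by rw [neg_neg]
            rw [e1, YY_mid hl hr he]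
    · rw [h1', cond_true] at h
      rcases h3 : posF e with _ | _
      · rw [h3, cond_false] at h
        exact absurd h (by simp)
      · rw [h3, cond_true] at h
        have he := posF_spec hε h2 h3
        obtain ⟨p, q, ep, eq', h⟩ := sv_some hε h1 h2 h
        exact ⟨_, _, _, _, ep, F.Encl.add hpi eq', (LL_near γ η).le, (YY_up hl hr he).le, h⟩
  · rw [h0, cond_true] at h
    rcases h3 : posF c.neg with _ | _
    · rw [h3, cond_false] at h
      exact absurd h (by simp)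
    · rw [h3, cond_true] at h
      have hc := posF_spec hε (negE h1) h3
      obtain ⟨p, hp, h⟩ := o0_some h
      obtain ⟨q, hq, h⟩ := o0_some h
      exact ⟨_, _, _, _, F.Encl.lnA hε (negE h1) h2 hp, F.Encl.lnB hε (negE h1) h2 hq,
        (LL_near_neg γ η).le, (YY_left (by linarith only [hc]) (by linarith only [hl, hc])).le, h⟩

lemma vf_some {f : ℕ} {c t g : F} {C : F → F → Option F} {ε : ℕ → ℝ} {γ τ : ℝ}
    (hε : ∀ i, |ε i| ≤ 1) (h1 : c.Encl ε γ) (h2 : t.Encl ε τ) (hl : -(1 / 2) < γ) (hr : γ < 1 / 2)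
    (hτ : 0 < τ) (h : vf f c t C = some g) : ∃ la yy, ∃ a b : ℝ, la.Encl ε a ∧ yy.Encl ε b ∧
      LL ⟨1 + γ, -τ⟩ ≤ a ∧ YY ⟨1 + γ, -τ⟩ ≤ b ∧ C la yy = some g := by
  have hpi : (F.mulq 1 2 F.pi).Encl ε ((1 : ℕ) / (2 : ℕ) * Real.pi) :=
    F.Encl.mulq (by norm_num) hε (F.Encl.pi ε)
  unfold vf at h
  rcases h0 : Nat.beq f 0 with _ | _
  · rw [h0, cond_false] at h
    rcases h1' : Nat.beq f 1 with _ | _
    · rw [h1', cond_false] at h
      rcases h3 : posF c.neg with _ | _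
      · rw [h3, cond_false] at h
        exact absurd h (by simp)
      · rw [h3, cond_true] at h
        have hc := posF_spec hε (negE h1) h3
        obtain ⟨p, hp, h⟩ := o0_some h
        obtain ⟨q, hq, h⟩ := o0_some h
        refine ⟨_, _, _, _, F.Encl.lnA hε (negE h1) h2 hp, negE (F.Encl.lnB hε (negE h1) h2 hq),
          ?_, ?_, h⟩
        · rw [LL_near_neg, lnA_neg]
        · rw [YY_left (by linarith only [hc]) (by linarith only [hl, hc]), lnB_neg]
    · rw [h1', cond_true] at h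
      rcases h3 : posF c with _ | _
      · rw [h3, cond_false] at h
        exact absurd h (by simp)
      · rw [h3, cond_true] at h
        have hc := posF_spec hε h1 h3
        obtain ⟨p, hp, h⟩ := o0_some h
        obtain ⟨q, hq, h⟩ := o0_some h
        exact ⟨_, _, _, _, F.Encl.lnA hε h1 h2 hp, F.Encl.sub (F.Encl.lnB hε h1 h2 hq)
          (F.Encl.pi ε), (LL_near' γ τ).le, (YY_right hc (by linarith only [hr, hc]) hτ).le, h⟩
  · rw [h0, cond_true] at h
    rcases h3 : posF t with _ | _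
    · rw [h3, cond_false] at h
      exact absurd h (by simp)
    · rw [h3, cond_true] at h
      obtain ⟨p, q, ep, eq', h⟩ := sv_some hε h1 h2 h
      exact ⟨_, _, _, _, ep, negE (F.Encl.add hpi eq'), (LL_near' γ τ).le,
        (YY_mid hl hr hτ).le, h⟩

/-- the side from `LL u`, `YY u`, `LL v`, `YY v` -/
def cF (M aw bw au yu av yv B : F) : F :=
  ((((au.add av).sub (aw.add aw)).add (M.mul ((yu.add yv).sub (bw.add bw)))).add B).neg

/-- leaf of the flat part: form `3` is the neighbourhood of the singularity -/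
def lF (fu fv : ℕ) (B X Y R M K : F) : Bool :=
  let h := X.sub (F.rat 1 2)
  let c := h.sub Y
  let e := R.sub K
  cond (Nat.beq fu 3)
    (cond (posF ((F.rat 1 20).sub c)) (cond (posF ((F.rat 1 20).add c))
      (cond (posF ((F.rat 1 20).sub e)) (cond (posF ((F.rat 1 20).add e))
        (cond (posO' (vf fv (h.add Y) (R.add K) (fun av yv => o0 (fun aw => o0 (fun bw =>
            some (cF M aw bw (F.rat 79 100).neg F.pi av yv B)) (F.lnB X K)) (F.lnA X K))))
          (posO' (vf fv (h.add Y) (R.add K) (fun av yv => o0 (fun aw => o0 (fun bw =>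
            some (cF M aw bw (F.rat 0 1) (F.rat 0 1) av yv B)) (F.lnB X K)) (F.lnA X K))))
          false) false) false) false) false)
    (posO' (uf fu c e (fun au yu => vf fv (h.add Y) (R.add K) (fun av yv => o0 (fun aw =>
      o0 (fun bw => some (cF M aw bw au yu av yv B)) (F.lnB X K)) (F.lnA X K)))))

/-- `u`, `v` of the flat part -/
noncomputable def uC (x y ρ k : ℝ) : ℂ := ⟨1 + (x - 1 / 2 - y), ρ - k⟩
noncomputable def vC' (x y ρ k : ℝ) : ℂ := ⟨1 + (x - 1 / 2 + y), -(ρ + k)⟩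

noncomputable def Sf (x m k y ρ : ℝ) : ℝ :=
  LL (uC x y ρ k) + LL (vC' x y ρ k) - 2 * lnA x k +
    m * (YY (uC x y ρ k) + YY (vC' x y ρ k) - 2 * lnB x k)

lemma cF_encl {M aw bw au yu av yv B : F} {ε : ℕ → ℝ} {m aw' bw' au' yu' av' yv' β : ℝ}
    (hε : ∀ i, |ε i| ≤ 1) (hM : M.Encl ε m) (h1 : aw.Encl ε aw') (h2 : bw.Encl ε bw')
    (h3 : au.Encl ε au') (h4 : yu.Encl ε yu') (h5 : av.Encl ε av') (h6 : yv.Encl ε yv')
    (hB : B.Encl ε β) : (cF M aw bw au yu av yv B).Encl ε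
      (-(au' + av' - 2 * aw' + m * (yu' + yv' - 2 * bw') + β)) := by
  have := negE (F.Encl.add (F.Encl.add (F.Encl.sub (F.Encl.add h3 h5) (F.Encl.add h1 h1))
    (F.Encl.mul hε hM (F.Encl.sub (F.Encl.add h4 h6) (F.Encl.add h2 h2)))) hB)
  rw [← two_mul, ← two_mul] at this
  exact this

lemma half (ε : ℕ → ℝ) : (F.rat 1 2).Encl ε (1 / 2) := by
  have := F.Encl.rat 1 2 ε
  push_cast at this
  exact this

theorem lF_sound {fu fv : ℕ} {B X Y R M K : F} {ε : ℕ → ℝ} {β x y ρ m k : ℝ}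
    (hε : ∀ i, |ε i| ≤ 1) (hB : B.Encl ε β) (hX : X.Encl ε x) (hY : Y.Encl ε y) (hR : R.Encl ε ρ)
    (hM : M.Encl ε m) (hK : K.Encl ε k) (h : lF fu fv B X Y R M K = true)
    (hm : 0 ≤ m) (hx : 26 / 100 < x) (hx' : x < 74 / 100) (hy : 0 ≤ y) (hy' : y ≤ 1 / 4)
    (ht : 0 < ρ + k) : Sf x m k y ρ < -β := by
  have kh := F.Encl.sub hX (half ε)
  have kc := F.Encl.sub kh hY
  have ke := F.Encl.sub hR hK
  have kd := F.Encl.add kh hY
  have kt := F.Encl.add hR hK
  unfold lF at h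
  simp only at h
  rcases h0 : Nat.beq fu 3 with _ | _
  · rw [h0, cond_false] at h
    obtain ⟨g, hg, hpos⟩ := posO_some h
    obtain ⟨au, yu, au', yu', e1, e2, l1, l2, h1⟩ := uf_some hε kc ke (by linarith only [hx, hy']) (by linarith only [hx', hy]) hg
    obtain ⟨av, yv, av', yv', e3, e4, l3, l4, h1⟩ :=
      vf_some hε kd kt (by linarith only [hx, hy]) (by linarith only [hx', hy']) ht h1
    obtain ⟨aw, haw, h1⟩ := o0_some h1
    obtain ⟨bw, hbw, h1⟩ := o0_some h1
    have kD := cF_encl hε hM (F.Encl.lnA hε hX hK haw) (F.Encl.lnB hε hX hK hbw) e1 e2 e3 e4 hB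
    have hp := posF_spec hε kD (by rw [← Option.some.inj h1] at hpos; exact hpos)
    have l5 := mul_le_mul_of_nonneg_left (add_le_add l2 l4) hm
    unfold Sf uC vC'
    linarith only [l1, l3, hp, l5]
  · rw [h0, cond_true] at h
    have h20 : (F.rat 1 20).Encl ε (1 / 20) := by
      have := F.Encl.rat 1 20 ε
      push_cast at this
      exact this
    rcases h1 : posF ((F.rat 1 20).sub ((X.sub (F.rat 1 2)).sub Y)) with _ | _
    · rw [h1, cond_false] at h
      exact absurd h (by simp)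
    rw [h1, cond_true] at h
    rcases h2 : posF ((F.rat 1 20).add ((X.sub (F.rat 1 2)).sub Y)) with _ | _
    · rw [h2, cond_false] at h
      exact absurd h (by simp)
    rw [h2, cond_true] at h
    rcases h3 : posF ((F.rat 1 20).sub (R.sub K)) with _ | _
    · rw [h3, cond_false] at h
      exact absurd h (by simp)
    rw [h3, cond_true] at h
    rcases h4 : posF ((F.rat 1 20).add (R.sub K)) with _ | _
    · rw [h4, cond_false] at h
      exact absurd h (by simp)
    rw [h4, cond_true] at h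
    have p1 := posF_spec hε (F.Encl.sub h20 kc) h1
    have p2 := posF_spec hε (F.Encl.add h20 kc) h2
    have p3 := posF_spec hε (F.Encl.sub h20 ke) h3
    have p4 := posF_spec hε (F.Encl.add h20 ke) h4
    rcases h5 : posO' (vf fv ((X.sub (F.rat 1 2)).add Y) (R.add K) (fun av yv => o0 (fun aw =>
        o0 (fun bw => some (cF M aw bw (F.rat 79 100).neg F.pi av yv B)) (F.lnB X K))
          (F.lnA X K))) with _ | _
    · rw [h5, cond_false] at h
      exact absurd h (by simp)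
    rw [h5, cond_true] at h
    obtain ⟨g1, hg1, hpos1⟩ := posO_some h5
    obtain ⟨g2, hg2, hpos2⟩ := posO_some h
    obtain ⟨av, yv, av', yv', e3, e4, l3, l4, k1⟩ :=
      vf_some hε kd kt (by linarith only [hy, p2]) (by linarith only [hx', hy', p2]) ht hg1
    obtain ⟨aw, haw, k1⟩ := o0_some k1
    obtain ⟨bw, hbw, k1⟩ := o0_some k1
    have h79 : ((F.rat 79 100).neg).Encl ε (-(79 / 100)) := by
      have := negE (F.Encl.rat 79 100 ε)
      push_cast at this
      exact this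
    have h00 : (F.rat 0 1).Encl ε 0 := by
      have := F.Encl.rat 0 1 ε
      push_cast at this
      rwa [zero_div] at this
    have kD1 := cF_encl hε hM (F.Encl.lnA hε hX hK haw) (F.Encl.lnB hε hX hK hbw) h79
      (F.Encl.pi ε) e3 e4 hB
    have hp1 := posF_spec hε kD1 (by rw [← Option.some.inj k1] at hpos1; exact hpos1)
    obtain ⟨av2, yv2, av2', yv2', e5, e6, l5, l6, k2⟩ :=
      vf_some hε kd kt (by linarith only [hy, p2]) (by linarith only [hx', hy', p2]) ht hg2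
    obtain ⟨aw2, haw2, k2⟩ := o0_some k2
    obtain ⟨bw2, hbw2, k2⟩ := o0_some k2
    have kD2 := cF_encl hε hM (F.Encl.lnA hε hX hK haw2) (F.Encl.lnB hε hX hK hbw2) h00
      h00 e5 e6 hB
    have hp2 := posF_spec hε kD2 (by rw [← Option.some.inj k2] at hpos2; exact hpos2)
    rcases sing (c := x - 1 / 2 - y) (e := ρ - k) (abs_le.mpr ⟨by linarith only [p2], by linarith only [p1]⟩)
      (abs_le.mpr ⟨by linarith only [p4], by linarith only [p3]⟩) with ⟨q1, q2⟩ | ⟨q1, q2⟩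
    · have l7 := mul_le_mul_of_nonneg_left (add_le_add q2 l4) hm
      unfold Sf uC vC'
      linarith only [l3, hp1, q1, l7]
    · have l7 := mul_le_mul_of_nonneg_left l6 hm
      unfold Sf uC vC'
      rw [q1, q2]
      linarith only [l5, hp2, l7]

end RZ1

end Pool.Agent.Work.MP_b30479_gtS.G2

end

section

/-!
# Right ramp of a hinge `1 | ring`: tests and their properties
-/

namespace Pool.Agent.Work.MP_b30479_gtS.G2

open VOL NumIs

namespace RZ1

open LR

/-- `n / 100 + n' / d' T` -/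
def bT (n n' d' : ℕ) (T : F) : F := (F.rat n 100).add (F.mulq n' d' T)

/-- ramp, `x ≤ 1/2` -/
def tR (b1 b4 : ℕ) (side : Bool) (B : F → F) (k : ℕ) (X T S R : F) : Bool :=
  cond (Nat.beq k 63) (cond side (posF ((R.add T).sub (F.rat 163 1000))) false)
    (let M := kM T; lR b1 b4 k (B T) X S R M (kK X M))

/-- ramp, `x ≥ 1/2` -/
def tR3 (c k : ℕ) (X T S R : F) : Bool :=
  let M := kM T
  lR3 (cond (Nat.beq k 0) ((F.pi.mul M).sub (F.rat 3 100)) (F.rat c 100)) X S R M (kK X M)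

/-- flat part, `x ≤ 1/2` -/
def tF (side : Bool) (B : F → F) (k : ℕ) (X T Y R : F) : Bool :=
  cond (Nat.beq k 63) (cond side (posF ((R.add T).sub (F.rat 163 1000))) false)
    (let M := kM T; lF (Nat.div k 6) (Nat.mod (Nat.div k 2) 3) (B T) X Y R M (kK X M))

/-- flat part, `x ≥ 1/2` -/
def tF3 (c k : ℕ) (X T Y R : F) : Bool :=
  let M := kM T
  lF (Nat.div k 6) (Nat.mod (Nat.div k 2) 3)
    (cond (Nat.beq (Nat.mod k 2) 0) ((F.pi.mul M).sub (F.rat 3 100)) (F.rat c 100)) X Y R M (kK X M)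

noncomputable def mT (T : ℝ) : ℝ := 100 / 29 * T
noncomputable def kT (T x : ℝ) : ℝ := mT T * (65 / 100 - x)

lemma kM_encl {T : F} {ε : ℕ → ℝ} {t : ℝ} (hε : ∀ i, |ε i| ≤ 1) (h : T.Encl ε t) :
    (kM T).Encl ε (mT t) := by
  have := F.Encl.mulq (n := 100) (d := 29) (by norm_num) hε h
  push_cast at this
  exact this

lemma kK_encl {X M : F} {ε : ℕ → ℝ} {x t : ℝ} (hε : ∀ i, |ε i| ≤ 1) (h : X.Encl ε x)
    (hM : M.Encl ε (mT t)) : (kK X M).Encl ε (kT t x) := by
  have h2 := F.Encl.rat 65 100 ε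
  push_cast at h2
  exact F.Encl.mul hε hM (F.Encl.sub h2 h)

lemma side_encl {T R : F} {ε : ℕ → ℝ} {t ρ : ℝ} (hε : ∀ i, |ε i| ≤ 1) (h : T.Encl ε t)
    (hR : R.Encl ε ρ) (hp : posF ((R.add T).sub (F.rat 163 1000)) = true) :
    163 / 1000 < ρ + t := by
  have h2 := F.Encl.rat 163 1000 ε
  push_cast at h2
  have := posF_spec hε (F.Encl.sub (F.Encl.add hR h) h2) hp
  linarith

/-- real bound -/
def EvB (B : F → F) (β : ℝ → ℝ) : Prop :=
  ∀ {T : F} {ε : ℕ → ℝ} {t : ℝ}, (∀ i, |ε i| ≤ 1) → T.Encl ε t → (B T).Encl ε (β t)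

lemma ev_bT {n n' d' : ℕ} (hd : 0 < d') :
    EvB (bT n n' d') (fun t => (n : ℝ) / 100 + (n' : ℝ) / d' * t) := by
  intro T ε t hε h
  have h2 := F.Encl.rat n 100 ε
  push_cast at h2
  exact F.Encl.add h2 (F.Encl.mulq hd hε h)

lemma ev_3 {c k : ℕ} {M : F} {ε : ℕ → ℝ} {t : ℝ} (hε : ∀ i, |ε i| ≤ 1) (hM : M.Encl ε (mT t)) :
    (cond (Nat.beq k 0) ((F.pi.mul M).sub (F.rat 3 100)) (F.rat c 100)).Encl ε
      (cond (Nat.beq k 0) (Real.pi * mT t - 3 / 100) ((c : ℝ) / 100)) := by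
  rcases Nat.beq k 0 with _ | _
  · rw [cond_false, cond_false]
    have h2 := F.Encl.rat c 100 ε
    push_cast at h2
    exact h2
  · rw [cond_true, cond_true]
    have h2 := F.Encl.rat 3 100 ε
    push_cast at h2
    exact F.Encl.sub (F.Encl.mul hε (F.Encl.pi ε) hM) h2

def PrR (b1 b4 : ℝ) (side : Bool) (β : ℝ → ℝ) (x t s ρ : ℝ) : Prop :=
  (side = true → ρ + t ≤ 163 / 1000) → Fr b1 b4 x (kT t x) s ρ ≤ 0 → Gr b1 b4 x (kT t x) s ρ ≤ 0 →
    Sr x (mT t) (kT t x) s ρ < -β t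

def PrR3 (c : ℝ) (x t s ρ : ℝ) : Prop :=
  Sr x (mT t) (kT t x) s ρ < -(Real.pi * mT t - 3 / 100) ∨ Sr x (mT t) (kT t x) s ρ < -(c / 100)

/-- domain of the flat part -/
structure DF (x t y ρ : ℝ) : Prop where
  x0 : 26 / 100 < x
  x1 : x ≤ 65 / 100
  t0 : 0 ≤ t
  y0 : 0 ≤ y
  y1 : y ≤ 1 / 4
  r0 : 0 < ρ

def PrF (side : Bool) (β : ℝ → ℝ) (x t y ρ : ℝ) : Prop :=
  (side = true → ρ + t ≤ 163 / 1000) → DF x t y ρ → Sf x (mT t) (kT t x) y ρ < -β t

def PrF3 (c : ℝ) (x t y ρ : ℝ) : Prop :=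
  DF x t y ρ → Sf x (mT t) (kT t x) y ρ < -(Real.pi * mT t - 3 / 100) ∨
    Sf x (mT t) (kT t x) y ρ < -(c / 100)

theorem tR_ok {b1 b4 : ℕ} {side : Bool} {B : F → F} {β : ℝ → ℝ} (hB : EvB B β) :
    TestOk (tR b1 b4 side B) (PrR b1 b4 side β) := by
  intro k X T S R ε x t s ρ hε hX hT hS hR h hside hF hG
  unfold tR at h
  rcases h0 : Nat.beq k 63 with _ | _
  · rw [h0, cond_false] at h
    have hM := kM_encl hε hT
    exact lR_sound hε (hB hε hT) hX hS hR hM (kK_encl hε hX hM) h hF hG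
  · rw [h0, cond_true] at h
    rcases side with _ | _
    · rw [cond_false] at h
      exact absurd h Bool.false_ne_true
    · rw [cond_true] at h
      have := side_encl hε hT hR h
      exact absurd (hside rfl) (not_le.mpr this)

theorem tR3_ok {c : ℕ} : TestOk (tR3 c) (PrR3 c) := by
  intro k X T S R ε x t s ρ hε hX hT hS hR h
  have hM := kM_encl hε hT
  have := lR3_sound hε (ev_3 (c := c) (k := k) hε hM) hX hS hR hM (kK_encl hε hX hM) h
  unfold PrR3
  rcases h0 : Nat.beq k 0 with _ | _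
  · rw [h0, cond_false] at this
    exact Or.inr this
  · rw [h0, cond_true] at this
    exact Or.inl this

lemma DF.m {x t y ρ : ℝ} (h : DF x t y ρ) : 0 ≤ mT t := by
  have := h.t0
  unfold mT
  positivity

lemma DF.k {x t y ρ : ℝ} (h : DF x t y ρ) : 0 < ρ + kT t x := by
  have h1 := h.m
  have h2 := h.x1
  have h3 := h.r0
  have : 0 ≤ kT t x := mul_nonneg h1 (by linarith)
  linarith

theorem tF_ok {side : Bool} {B : F → F} {β : ℝ → ℝ} (hB : EvB B β) :
    TestOk (tF side B) (PrF side β) := by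
  intro k X T Y R ε x t y ρ hε hX hT hY hR h hside hD
  unfold tF at h
  rcases h0 : Nat.beq k 63 with _ | _
  · rw [h0, cond_false] at h
    have hM := kM_encl hε hT
    exact lF_sound hε (hB hε hT) hX hY hR hM (kK_encl hε hX hM) h hD.m hD.x0
      (by linarith [hD.x1]) hD.y0 hD.y1 hD.k
  · rw [h0, cond_true] at h
    rcases side with _ | _
    · rw [cond_false] at h
      exact absurd h Bool.false_ne_true
    · rw [cond_true] at h
      have := side_encl hε hT hR h
      exact absurd (hside rfl) (not_le.mpr this)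

theorem tF3_ok {c : ℕ} : TestOk (tF3 c) (PrF3 c) := by
  intro k X T Y R ε x t y ρ hε hX hT hY hR h hD
  have hM := kM_encl hε hT
  have := lF_sound hε (ev_3 (c := c) (k := Nat.mod k 2) hε hM) hX hY hR hM (kK_encl hε hX hM) h
    hD.m hD.x0 (by linarith [hD.x1]) hD.y0 hD.y1 hD.k
  rcases h0 : Nat.beq (Nat.mod k 2) 0 with _ | _
  · rw [h0, cond_false] at this
    exact Or.inr this
  · rw [h0, cond_true] at this
    exact Or.inl this

end RZ1

end Pool.Agent.Work.MP_b30479_gtS.G2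

end

section

/-!
# Right ramps of `{2, 2e} | ring`, the side of the ring: leaves and tests

As `RZK`, with a form for `v` near the singularity and `m = T / (30/100)`, `k = m (60/100 - x)`.
-/

namespace Pool.Agent.Work.MP_b30479_gtS.G2

open VOL NumIs

namespace RZ2

open LR RZ1

/-- near the singularity, not on the axis -/
theorem singV {c t : ℝ} (h0 : |c| ≤ 1 / 20) (h1 : |t| ≤ 1 / 20) (ht : 0 < t) :
    LL ⟨1 + c, -t⟩ ≤ -(79 / 100) ∧ YY ⟨1 + c, -t⟩ ≤ 0 := by
  have hp := Real.pi_pos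
  have hc := abs_le.mp h0
  constructor
  · rw [LL_near']
    rcases sing (c := c) (e := t) h0 h1 with h | h
    · rw [LL_near] at h
      exact h.1
    · exfalso
      have h2 := h.2
      have h3 := h.1
      rw [LL_near] at h3
      unfold lnA at h3
      -- the argument of the logarithm is at most `.21` and positive
      have hp2 := Real.pi_lt_d4
      have a1 : Real.sin (Real.pi * c) ^ 2 ≤ (Real.pi * c) ^ 2 := by
        rw [sq_le_sq]
        exact Real.abs_sin_le_abs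
      have b1 : (Real.pi * c) ^ 2 ≤ (15708 / 100000) ^ 2 := by
        rw [← sq_abs, abs_mul, abs_of_pos hp]
        apply pow_le_pow_left₀ (by positivity)
        nlinarith only [hp2, h0, hp, abs_nonneg c]
      have hpe : |Real.pi * t| ≤ 15708 / 100000 := by
        rw [abs_mul, abs_of_pos hp]
        nlinarith only [hp2, h1, hp, abs_nonneg t]
      have b2 : (Real.pi * t) ^ 2 ≤ (15708 / 100000) ^ 2 := by
        rw [← sq_abs]
        exact pow_le_pow_left₀ (abs_nonneg _) hpe 2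
      have a2 := sinh_sq_le (y := Real.pi * t) (by linarith only [hpe])
      have b3 : (Real.pi * t) ^ 4 ≤ ((15708 / 100000) ^ 2) ^ 2 := by
        have e1 : (Real.pi * t) ^ 4 = ((Real.pi * t) ^ 2) ^ 2 := by ring
        rw [e1]
        exact pow_le_pow_left₀ (by positivity) b2 2
      have h4 : 4 * (Real.sin (Real.pi * c) ^ 2 + Real.sinh (Real.pi * t) ^ 2) < 1 := by
        norm_num at b1 b2 b3 ⊢
        linarith only [a1, a2, b1, b2, b3]
      have h5 : 0 < 4 * (Real.sin (Real.pi * c) ^ 2 + Real.sinh (Real.pi * t) ^ 2) := by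
        have : 0 < Real.sinh (Real.pi * t) := Real.sinh_pos_iff.mpr (by positivity)
        have := sq_nonneg (Real.sin (Real.pi * c))
        positivity
      have h6 := Real.log_neg h5 h4
      linarith only [h3, h6]
  · rw [YY_mid (by linarith only [hc]) (by linarith only [hc]) ht]
    have := Real.neg_pi_div_two_lt_arctan (Real.sin (Real.pi * c) * Real.cosh (Real.pi * t) *
      (Real.cos (Real.pi * c) * Real.sinh (Real.pi * t))⁻¹)
    push_cast
    linarith only [this]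

/-- forms of `v` -/
def vf4 (f : ℕ) (c t : F) (C : F → F → Option F) : Option F :=
  cond (Nat.beq f 3)
    (cond (posF ((F.rat 1 20).sub c)) (cond (posF ((F.rat 1 20).add c))
      (cond (posF ((F.rat 1 20).sub t)) (C (F.rat 79 100).neg (F.rat 0 1)) none) none) none)
    (vf f c t C)

lemma e79 (ε : ℕ → ℝ) : ((F.rat 79 100).neg).Encl ε (-(79 / 100)) := by
  have := negE (F.Encl.rat 79 100 ε)
  push_cast at this
  exact this

lemma e00 (ε : ℕ → ℝ) : (F.rat 0 1).Encl ε 0 := by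
  have := F.Encl.rat 0 1 ε
  push_cast at this
  rwa [zero_div] at this

lemma e20 (ε : ℕ → ℝ) : (F.rat 1 20).Encl ε (1 / 20) := by
  have := F.Encl.rat 1 20 ε
  push_cast at this
  exact this

lemma vf4_some {f : ℕ} {c t g : F} {C : F → F → Option F} {ε : ℕ → ℝ} {γ τ : ℝ}
    (hε : ∀ i, |ε i| ≤ 1) (h1 : c.Encl ε γ) (h2 : t.Encl ε τ) (hl : -(1 / 2) < γ) (hr : γ < 1 / 2)
    (hτ : 0 < τ) (h : vf4 f c t C = some g) : ∃ la yy, ∃ a b : ℝ, la.Encl ε a ∧ yy.Encl ε b ∧
      LL ⟨1 + γ, -τ⟩ ≤ a ∧ YY ⟨1 + γ, -τ⟩ ≤ b ∧ C la yy = some g := by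
  unfold vf4 at h
  rcases h0 : Nat.beq f 3 with _ | _
  · rw [h0, cond_false] at h
    exact vf_some hε h1 h2 hl hr hτ h
  · rw [h0, cond_true] at h
    rcases g1 : posF ((F.rat 1 20).sub c) with _ | _
    · rw [g1, cond_false] at h
      exact absurd h (by simp)
    rw [g1, cond_true] at h
    rcases g2 : posF ((F.rat 1 20).add c) with _ | _
    · rw [g2, cond_false] at h
      exact absurd h (by simp)
    rw [g2, cond_true] at h
    rcases g3 : posF ((F.rat 1 20).sub t) with _ | _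
    · rw [g3, cond_false] at h
      exact absurd h (by simp)
    rw [g3, cond_true] at h
    have p1 := posF_spec hε (F.Encl.sub (e20 ε) h1) g1
    have p2 := posF_spec hε (F.Encl.add (e20 ε) h1) g2
    have p3 := posF_spec hε (F.Encl.sub (e20 ε) h2) g3
    obtain ⟨q1, q2⟩ := singV (c := γ) (t := τ) (abs_le.mpr ⟨by linarith only [p2], by linarith only [p1]⟩)
      (abs_le.mpr ⟨by linarith only [hτ, p3], by linarith only [p3]⟩) hτ
    exact ⟨_, _, _, _, e79 ε, e00 ε, q1, q2, h⟩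

/-- leaf of the flat part -/
def lF4 (fu fv : ℕ) (B X Y R M K : F) : Bool :=
  let h := X.sub (F.rat 1 2)
  let c := h.sub Y
  let e := R.sub K
  cond (Nat.beq fu 3)
    (cond (posF ((F.rat 1 20).sub c)) (cond (posF ((F.rat 1 20).add c))
      (cond (posF ((F.rat 1 20).sub e)) (cond (posF ((F.rat 1 20).add e))
        (cond (posO' (vf4 fv (h.add Y) (R.add K) (fun av yv => o0 (fun aw => o0 (fun bw =>
            some (cF M aw bw (F.rat 79 100).neg F.pi av yv B)) (F.lnB X K)) (F.lnA X K))))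
          (posO' (vf4 fv (h.add Y) (R.add K) (fun av yv => o0 (fun aw => o0 (fun bw =>
            some (cF M aw bw (F.rat 0 1) (F.rat 0 1) av yv B)) (F.lnB X K)) (F.lnA X K))))
          false) false) false) false) false)
    (posO' (uf fu c e (fun au yu => vf4 fv (h.add Y) (R.add K) (fun av yv => o0 (fun aw =>
      o0 (fun bw => some (cF M aw bw au yu av yv B)) (F.lnB X K)) (F.lnA X K)))))

theorem lF4_sound {fu fv : ℕ} {B X Y R M K : F} {ε : ℕ → ℝ} {β x y ρ m k : ℝ}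
    (hε : ∀ i, |ε i| ≤ 1) (hB : B.Encl ε β) (hX : X.Encl ε x) (hY : Y.Encl ε y) (hR : R.Encl ε ρ)
    (hM : M.Encl ε m) (hK : K.Encl ε k) (h : lF4 fu fv B X Y R M K = true)
    (hm : 0 ≤ m) (hx : 26 / 100 < x) (hx' : x < 74 / 100) (hy : 0 ≤ y) (hy' : y ≤ 1 / 4)
    (ht : 0 < ρ + k) : Sf x m k y ρ < -β := by
  have kh := F.Encl.sub hX (half ε)
  have kc := F.Encl.sub kh hY
  have ke := F.Encl.sub hR hK
  have kd := F.Encl.add kh hY
  have kt := F.Encl.add hR hK
  unfold lF4 at h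
  simp only at h
  rcases h0 : Nat.beq fu 3 with _ | _
  · rw [h0, cond_false] at h
    obtain ⟨g, hg, hpos⟩ := posO_some h
    obtain ⟨au, yu, au', yu', e1, e2, l1, l2, h1⟩ := uf_some hε kc ke (by linarith only [hx, hy']) (by linarith only [hx', hy]) hg
    obtain ⟨av, yv, av', yv', e3, e4, l3, l4, h1⟩ :=
      vf4_some hε kd kt (by linarith only [hx, hy]) (by linarith only [hx', hy']) ht h1
    obtain ⟨aw, haw, h1⟩ := o0_some h1
    obtain ⟨bw, hbw, h1⟩ := o0_some h1
    have kD := cF_encl hε hM (F.Encl.lnA hε hX hK haw) (F.Encl.lnB hε hX hK hbw) e1 e2 e3 e4 hB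
    have hp := posF_spec hε kD (by rw [← Option.some.inj h1] at hpos; exact hpos)
    have l5 := mul_le_mul_of_nonneg_left (add_le_add l2 l4) hm
    unfold Sf uC vC'
    linarith only [l1, l3, hp, l5]
  · rw [h0, cond_true] at h
    rcases h1 : posF ((F.rat 1 20).sub ((X.sub (F.rat 1 2)).sub Y)) with _ | _
    · rw [h1, cond_false] at h
      exact absurd h (by simp)
    rw [h1, cond_true] at h
    rcases h2 : posF ((F.rat 1 20).add ((X.sub (F.rat 1 2)).sub Y)) with _ | _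
    · rw [h2, cond_false] at h
      exact absurd h (by simp)
    rw [h2, cond_true] at h
    rcases h3 : posF ((F.rat 1 20).sub (R.sub K)) with _ | _
    · rw [h3, cond_false] at h
      exact absurd h (by simp)
    rw [h3, cond_true] at h
    rcases h4 : posF ((F.rat 1 20).add (R.sub K)) with _ | _
    · rw [h4, cond_false] at h
      exact absurd h (by simp)
    rw [h4, cond_true] at h
    have p1 := posF_spec hε (F.Encl.sub (e20 ε) kc) h1
    have p2 := posF_spec hε (F.Encl.add (e20 ε) kc) h2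
    have p3 := posF_spec hε (F.Encl.sub (e20 ε) ke) h3
    have p4 := posF_spec hε (F.Encl.add (e20 ε) ke) h4
    rcases h5 : posO' (vf4 fv ((X.sub (F.rat 1 2)).add Y) (R.add K) (fun av yv => o0 (fun aw =>
        o0 (fun bw => some (cF M aw bw (F.rat 79 100).neg F.pi av yv B)) (F.lnB X K))
          (F.lnA X K))) with _ | _
    · rw [h5, cond_false] at h
      exact absurd h (by simp)
    rw [h5, cond_true] at h
    obtain ⟨g1, hg1, hpos1⟩ := posO_some h5
    obtain ⟨g2, hg2, hpos2⟩ := posO_some h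
    obtain ⟨av, yv, av', yv', e3, e4, l3, l4, k1⟩ :=
      vf4_some hε kd kt (by linarith only [hy, p2]) (by linarith only [hx', hy', p2]) ht hg1
    obtain ⟨aw, haw, k1⟩ := o0_some k1
    obtain ⟨bw, hbw, k1⟩ := o0_some k1
    have kD1 := cF_encl hε hM (F.Encl.lnA hε hX hK haw) (F.Encl.lnB hε hX hK hbw) (e79 ε)
      (F.Encl.pi ε) e3 e4 hB
    have hp1 := posF_spec hε kD1 (by rw [← Option.some.inj k1] at hpos1; exact hpos1)
    obtain ⟨av2, yv2, av2', yv2', e5, e6, l5, l6, k2⟩ :=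
      vf4_some hε kd kt (by linarith only [hy, p2]) (by linarith only [hx', hy', p2]) ht hg2
    obtain ⟨aw2, haw2, k2⟩ := o0_some k2
    obtain ⟨bw2, hbw2, k2⟩ := o0_some k2
    have kD2 := cF_encl hε hM (F.Encl.lnA hε hX hK haw2) (F.Encl.lnB hε hX hK hbw2) (e00 ε)
      (e00 ε) e5 e6 hB
    have hp2 := posF_spec hε kD2 (by rw [← Option.some.inj k2] at hpos2; exact hpos2)
    rcases sing (c := x - 1 / 2 - y) (e := ρ - k) (abs_le.mpr ⟨by linarith only [p2], by linarith only [p1]⟩)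
      (abs_le.mpr ⟨by linarith only [p4], by linarith only [p3]⟩) with ⟨q1, q2⟩ | ⟨q1, q2⟩
    · have l7 := mul_le_mul_of_nonneg_left (add_le_add q2 l4) hm
      unfold Sf uC vC'
      linarith only [l3, hp1, q1, l7]
    · have l7 := mul_le_mul_of_nonneg_left l6 hm
      unfold Sf uC vC'
      rw [q1, q2]
      linarith only [l5, hp2, l7]

/-! ### tests -/

def lM (T : F) : F := F.mulq 10 3 T
def lK (X M : F) : F := M.mul ((F.rat 60 100).sub X)

/-- `π m + 12/100 - 178/100 m` -/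
def bG (M : F) : F := ((F.pi.mul M).add (F.rat 12 100)).sub (F.mulq 178 100 M)
/-- `π m - 1/10` -/
def bH (M : F) : F := (F.pi.mul M).sub (F.rat 1 10)

def uR (B : F → F) (_ : ℕ) (X T S R : F) : Bool :=
  let M := lM T
  lR3 (B M) X S R M (lK X M)

def uF (B : F → F) (k : ℕ) (X T Y R : F) : Bool :=
  let M := lM T
  lF4 (Nat.div k 8) (Nat.mod (Nat.div k 2) 4) (B M) X Y R M (lK X M)

noncomputable def mT (T : ℝ) : ℝ := 10 / 3 * T
noncomputable def kT (T x : ℝ) : ℝ := mT T * (60 / 100 - x)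

lemma lM_encl {T : F} {ε : ℕ → ℝ} {t : ℝ} (hε : ∀ i, |ε i| ≤ 1) (h : T.Encl ε t) :
    (lM T).Encl ε (mT t) := by
  have := F.Encl.mulq (n := 10) (d := 3) (by norm_num) hε h
  push_cast at this
  exact this

lemma lK_encl {X M : F} {ε : ℕ → ℝ} {x t : ℝ} (hε : ∀ i, |ε i| ≤ 1) (h : X.Encl ε x)
    (hM : M.Encl ε (mT t)) : (lK X M).Encl ε (kT t x) := by
  have h2 := F.Encl.rat 60 100 ε
  push_cast at h2
  exact F.Encl.mul hε hM (F.Encl.sub h2 h)

lemma ev_bG : EvB bG (fun m => Real.pi * m + 12 / 100 - 178 / 100 * m) := by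
  intro M ε m hε h
  have h2 := F.Encl.rat 12 100 ε
  have h3 := F.Encl.mulq (n := 178) (d := 100) (by norm_num) hε h
  push_cast at h2 h3
  exact F.Encl.sub (F.Encl.add (F.Encl.mul hε (F.Encl.pi ε) h) h2) h3

lemma ev_bH : EvB bH (fun m => Real.pi * m - 1 / 10) := by
  intro M ε m hε h
  have h2 := F.Encl.rat 1 10 ε
  push_cast at h2
  exact F.Encl.sub (F.Encl.mul hε (F.Encl.pi ε) h) h2

def QR (β : ℝ → ℝ) (x t s ρ : ℝ) : Prop := Sr x (mT t) (kT t x) s ρ < -β (mT t)

structure DF (x t y ρ : ℝ) : Prop where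
  x0 : 26 / 100 < x
  x1 : x ≤ 60 / 100
  t0 : 0 ≤ t
  y0 : 0 ≤ y
  y1 : y ≤ 1 / 4
  r0 : 0 < ρ

def QF (β : ℝ → ℝ) (x t y ρ : ℝ) : Prop := DF x t y ρ → Sf x (mT t) (kT t x) y ρ < -β (mT t)

theorem uR_ok {B : F → F} {β : ℝ → ℝ} (hB : EvB B β) : TestOk (uR B) (QR β) := by
  intro k X T S R ε x t s ρ hε hX hT hS hR h
  have hM := lM_encl hε hT
  exact lR3_sound hε (hB hε hM) hX hS hR hM (lK_encl hε hX hM) h

theorem uF_ok {B : F → F} {β : ℝ → ℝ} (hB : EvB B β) : TestOk (uF B) (QF β) := by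
  intro k X T Y R ε x t y ρ hε hX hT hY hR h hD
  have hM := lM_encl hε hT
  have m0 : 0 ≤ mT t := by
    have := hD.t0
    unfold mT
    positivity
  have k0 : 0 ≤ kT t x := mul_nonneg m0 (by linarith only [hD, hD.x1])
  exact lF4_sound hε (hB hε hM) hX hY hR hM (lK_encl hε hX hM) h m0 hD.x0
    (by linarith only [hD, hD.x1]) hD.y0 hD.y1 (by linarith only [k0, hD, hD.r0])

end RZ2

end Pool.Agent.Work.MP_b30479_gtS.G2

end
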