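import Pool.Agent.Work.MP_b30479_gt.TBS.G2.RCF
import Pool.Agent.Work.MP_b30479_gt.TBS.G2.LRK
import Pool.Agent.Work.MP_b30479_gt.TBS.G2.H13A

section

/-!
# Rings with the ring variable on the ramp, `b ≥ 5`: kernel evaluation on a box

Variables `x`, `T` (offset), `y`, `ρ`; `h = 4 ρ y`, `d = y - x`, `s = h - T`, `q = ρ - T`.
`tP`: the hinge beyond its part; `tD`, `tU`: with the increment of the side, below / above the
saddle point.
-/

namespace Pool.Agent.Work.MP_b30479_gtS.G2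

open VOL NumIs

namespace RQ

open RC
open LR (rat1 mulq1)
open RZ1 (negE enc4)

/-! ### pieces of the tests -/

/-- continue with the value of an option -/
def bO (x : Option F) (k : F → Bool) : Bool :=
  Option.rec (motive := fun _ => Bool) false (fun a => k a) x

lemma bO_some {x : Option F} {k : F → Bool} (h : bO x k = true) : ∃ a, x = some a ∧ k a = true := by
  rcases x with _ | a
  · exact absurd h (by simp [bO])
  · exact ⟨a, rfl, h⟩

lemma cond_ff {b c : Bool} (h : cond b c false = true) : b = true ∧ c = true := by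
  rcases b with _ | _
  · rw [cond_false] at h
    exact absurd h Bool.false_ne_true
  · rw [cond_true] at h
    exact ⟨rfl, h⟩

/-- constant upper bound -/
def up (a : F) : F := ⟨Nat.add a.p a.tot, a.q, 0, 0, 0, 0, 0, 0, 0, 0, 0⟩

lemma mul_eps_le {a b e : ℝ} (ha : 0 ≤ a) (hb : 0 ≤ b) (he : |e| ≤ 1) : (a - b) * e ≤ a + b := by
  obtain ⟨h1, h2⟩ := abs_le.mp he
  nlinarith only [ha, h2, hb, h1]

lemma up_encl {a : F} {ε : ℕ → ℝ} {x : ℝ} (hε : ∀ i, |ε i| ≤ 1) (h : a.Encl ε x) :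
    ∃ u, x ≤ u ∧ (up a).Encl ε u := by
  have hD := DR_pos
  refine ⟨((a.p : ℝ) + a.tot - a.q) / DR, ?_, ?_⟩
  · rw [F.Encl_iff] at h
    have h2 := (abs_le.mp h).2
    rw [le_div_iff₀ hD]
    have e : (a.tot : ℝ) = ((a.a0 : ℝ) + a.b0) + (((a.a1 : ℝ) + a.b1) + (((a.a2 : ℝ) + a.b2) +
        ((a.a3 : ℝ) + a.b3))) + a.r := by
      change ((((a.a0 + a.b0) + ((a.a1 + a.b1) + ((a.a2 + a.b2) + (a.a3 + a.b3)))) + a.r : ℕ) : ℝ) = _
      push_cast
      ring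
    have k0 := mul_eps_le (a := (a.a0 : ℝ)) (b := a.b0) (by positivity) (by positivity) (hε 0)
    have k1 := mul_eps_le (a := (a.a1 : ℝ)) (b := a.b1) (by positivity) (by positivity) (hε 1)
    have k2 := mul_eps_le (a := (a.a2 : ℝ)) (b := a.b2) (by positivity) (by positivity) (hε 2)
    have k3 := mul_eps_le (a := (a.a3 : ℝ)) (b := a.b3) (by positivity) (by positivity) (hε 3)
    linarith only [h2, e, k0, k1, k2, k3]
  · rw [F.Encl_iff]
    unfold up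
    simp only [Nat.cast_zero, sub_zero, zero_mul, add_zero]
    change |((a.p : ℝ) + a.tot - a.q) / DR * DR - (((a.p + a.tot : ℕ) : ℝ) - a.q)| ≤ 0
    rw [div_mul_cancel₀ _ hD.ne']
    push_cast
    simp

/-- lower bounds of `-YY (lv d s)` -/
def nF (f : ℕ) (d s : F) (C : F → Bool) : Bool :=
  cond (Nat.beq f 0) (C (F.mulq 1 2 F.pi).neg)
  (cond (Nat.beq f 1) (cond (posF s) (C (F.rat 0 1)) (cond (posF d.neg) (C (F.rat 0 1)) false))
  (cond (Nat.beq f 2) (cond (posF s) (cond (posF d.neg) (C (F.mulq 1 2 F.pi)) false) false)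
  (cond (Nat.beq f 3) (cond (posF s)
    (bO (F.hyp false (F.pi.mul s)) fun sh => bO (F.hyp true (F.pi.mul s)) fun ch =>
      bO (F.inv (d.cosPi.mul sh)) fun iv => bO (F.atan ((d.sinPi.mul ch).mul iv)) fun at' =>
        C ((F.mulq 1 2 F.pi).sub at')) false)
    (cond (posF d) (bO (F.lnB d s) fun z => C z) false))))

/-- lower bounds of `-LL (lv d s)` -/
def lF (f : ℕ) (d s : F) (C : F → Bool) : Bool :=
  cond (Nat.beq f 2) (bO (F.lnA d s) fun z => C z.neg)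
    (bO (F.hyp false (F.pi.mul s)) fun sh =>
      bO (F.log (cond (Nat.beq f 0) (up (F.mulq 4 1 (d.sinPi.sqn.add sh.sqn)))
        (F.mulq 4 1 (d.sinPi.sqn.add sh.sqn)))) fun l => C (F.mulq 1 2 l).neg)

theorem YY_ge {δ σ : ℝ} (h1 : δ < 1 / 2) (h : δ ≤ 0 → 0 ≤ σ) :
    -(Real.pi / 2) ≤ -YY (lv δ σ) := by
  have hp := Real.pi_pos
  rcases le_or_gt δ 0 with hd | hd
  · have := YY_nonpos_lv (h hd) (show δ ≤ 1 / 2 by linarith only [h1])
    linarith only [hp, this]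
  · rw [YY_lv σ hd (by linarith only [h1, hd]), neg_neg]
    exact (Real.neg_pi_div_two_lt_arctan _).le

theorem nF_some {f : ℕ} {d s : F} {C : F → Bool} {ε : ℕ → ℝ} {δ σ : ℝ} (hε : ∀ i, |ε i| ≤ 1)
    (h1 : d.Encl ε δ) (h2 : s.Encl ε σ) (hl : -(1 / 2) < δ) (hr : δ < 1 / 2)
    (hd : δ ≤ 0 → 0 ≤ σ) (h : nF f d s C = true) : ∃ z : F, ∃ a : ℝ, z.Encl ε a ∧
      a ≤ -YY (lv δ σ) ∧ C z = true := by
  have hp := Real.pi_pos
  have hpi : (F.mulq 1 2 F.pi).Encl ε (Real.pi / 2) := by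
    have := F.Encl.mulq (n := 1) (d := 2) (by norm_num) hε (F.Encl.pi ε)
    push_cast at this
    rwa [one_div_mul_eq_div] at this
  have h00 : (F.rat 0 1).Encl ε 0 := by
    have := rat1 0 ε
    rwa [Nat.cast_zero] at this
  unfold nF at h
  rcases e0 : Nat.beq f 0 with _ | _
  swap
  · rw [e0, cond_true] at h
    exact ⟨_, _, negE hpi, YY_ge hr hd, h⟩
  rw [e0, cond_false] at h
  rcases e1 : Nat.beq f 1 with _ | _
  swap
  · rw [e1, cond_true] at h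
    rcases g1 : posF s with _ | _
    · rw [g1, cond_false] at h
      obtain ⟨g2, h⟩ := cond_ff h
      have p2 := posF_spec hε (negE h1) g2
      have := YY_nonpos_lv (hd (by linarith only [p2])) hr.le
      exact ⟨_, _, h00, by linarith only [this], h⟩
    · rw [g1, cond_true] at h
      have p2 := posF_spec hε h2 g1
      have := YY_nonpos_lv p2.le hr.le
      exact ⟨_, _, h00, by linarith only [this], h⟩
  rw [e1, cond_false] at h
  rcases e2 : Nat.beq f 2 with _ | _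
  swap
  · rw [e2, cond_true] at h
    obtain ⟨g1, h⟩ := cond_ff h
    obtain ⟨g2, h⟩ := cond_ff h
    have p1 := posF_spec hε h2 g1
    have p2 := posF_spec hε (negE h1) g2
    have := YY_le_half p1 hl (by linarith only [p2])
    exact ⟨_, _, hpi, by linarith only [this], h⟩
  rw [e2, cond_false] at h
  rcases e3 : Nat.beq f 3 with _ | _
  swap
  · rw [e3, cond_true] at h
    obtain ⟨g1, h⟩ := cond_ff h
    have p1 := posF_spec hε h2 g1
    obtain ⟨sh, hsh, h⟩ := bO_some h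
    obtain ⟨ch, hch, h⟩ := bO_some h
    obtain ⟨iv, hiv, h⟩ := bO_some h
    obtain ⟨at', hat, h⟩ := bO_some h
    have k1 := F.Encl.sinh hε (F.Encl.mul hε (F.Encl.pi ε) h2) hsh
    have k2 := F.Encl.cosh hε (F.Encl.mul hε (F.Encl.pi ε) h2) hch
    have k3 := F.Encl.inv hε (F.Encl.mul hε (F.Encl.cosPi hε h1) k1) hiv
    have k4 := F.Encl.atan hε (F.Encl.mul hε (F.Encl.mul hε (F.Encl.sinPi hε h1) k2) k3) hat
    refine ⟨_, _, F.Encl.sub hpi k4, ?_, h⟩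
    rw [RC.YY_mid p1 hl hr, div_eq_mul_inv (Real.sin (Real.pi * δ) * Real.cosh (Real.pi * σ))]
    linarith only []
  rw [e3, cond_false] at h
  obtain ⟨g1, h⟩ := cond_ff h
  have p1 := posF_spec hε h1 g1
  obtain ⟨z, hz, h⟩ := bO_some h
  refine ⟨_, _, F.Encl.lnB hε h1 h2 hz, ?_, h⟩
  rw [YY_lv σ p1 (by linarith only [hr, p1]), neg_neg]

theorem lF_some {f : ℕ} {d s : F} {C : F → Bool} {ε : ℕ → ℝ} {δ σ : ℝ} (hε : ∀ i, |ε i| ≤ 1)
    (h1 : d.Encl ε δ) (h2 : s.Encl ε σ) (hl : -(1 / 2) < δ) (hr : δ < 1 / 2)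
    (hn : ¬ (δ = 0 ∧ σ = 0)) (h : lF f d s C = true) : ∃ z : F, ∃ a : ℝ, z.Encl ε a ∧
      a ≤ -LL (lv δ σ) ∧ C z = true := by
  have hp := Real.pi_pos
  have eq : LL (lv δ σ) = lnA δ σ := by
    rw [LL_lv_eq]
    rfl
  rw [eq]
  unfold lF at h
  rcases e0 : Nat.beq f 2 with _ | _
  swap
  · rw [e0, cond_true] at h
    obtain ⟨z, hz, h⟩ := bO_some h
    exact ⟨_, _, negE (F.Encl.lnA hε h1 h2 hz), le_rfl, h⟩
  rw [e0, cond_false] at h
  obtain ⟨sh, hsh, h⟩ := bO_some h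
  obtain ⟨l, hl', h⟩ := bO_some h
  have k1 := F.Encl.sinh hε (F.Encl.mul hε (F.Encl.pi ε) h2) hsh
  have kM : (F.mulq 4 1 (d.sinPi.sqn.add sh.sqn)).Encl ε
      (4 * (Real.sin (Real.pi * δ) ^ 2 + Real.sinh (Real.pi * σ) ^ 2)) := by
    have := mulq1 (n := 4) hε (F.Encl.add (F.Encl.sqn hε (F.Encl.sinPi hε h1))
      (F.Encl.sqn hε k1))
    push_cast at this
    exact this
  have key : ∀ {v : ℝ}, (4 * (Real.sin (Real.pi * δ) ^ 2 + Real.sinh (Real.pi * σ) ^ 2)) ≤ v →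
      l.Encl ε (Real.log v) → ∃ z : F, ∃ a : ℝ, z.Encl ε a ∧ a ≤ -lnA δ σ ∧ C z = true := by
    intro v hv hlv
    have k5 := negE (F.Encl.mulq (n := 1) (d := 2) (by norm_num) hε hlv)
    push_cast at k5
    rw [one_div_mul_eq_div] at k5
    refine ⟨_, _, k5, ?_, h⟩
    have hpos : 0 < 4 * (Real.sin (Real.pi * δ) ^ 2 + Real.sinh (Real.pi * σ) ^ 2) := by
      rcases eq_or_ne σ 0 with h3 | h3
      · have h4 : δ ≠ 0 := fun h4 => hn ⟨h4, h3⟩
        have h5 : Real.sin (Real.pi * δ) ≠ 0 := by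
          rcases lt_or_gt_of_ne h4 with h6 | h6
          · exact (Real.sin_neg_of_neg_of_neg_pi_lt (by nlinarith only [hp, h6]) (by nlinarith only [hp, hl])).ne
          · exact (Real.sin_pos_of_pos_of_lt_pi (by positivity) (by nlinarith only [hp, hr])).ne'
        positivity
      · have h5 : Real.sinh (Real.pi * σ) ≠ 0 := by
          rw [Ne, Real.sinh_eq_zero]
          exact mul_ne_zero hp.ne' h3
        positivity
    have := Real.log_le_log hpos hv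
    unfold lnA
    linarith only [this]
  rcases e1 : Nat.beq f 0 with _ | _
  · rw [e1, cond_false] at hl'
    exact key le_rfl (F.Encl.log hε kM hl')
  · rw [e1, cond_true] at hl'
    obtain ⟨u, hu, ku⟩ := up_encl hε kM
    exact key hu (F.Encl.log hε ku hl')

/-! ### the real functions -/

/-- admissible points, units `1/10000` for the bounds of `ρ - T` -/
structure Dmn (q0 q1 : ℕ) (x t y r : ℝ) : Prop where
  x0 : 0 < x
  x1 : x < 1 / 2
  y0 : 0 < y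
  y1 : y ≤ 1 / 4
  r0 : 0 < r
  ht : y ≤ x → t ≤ 4 * (r * y)
  nz : ¬ (x = y ∧ t = 4 * (r * y))
  lo : 1 ≤ q0 → (q0 : ℝ) / 10000 ≤ r - t
  hi : r - t ≤ (q1 : ℝ) / 10000

/-- the part of `Fr` without logarithms -/
noncomputable def Hb (x t y r : ℝ) : ℝ :=
  4 * r * (-YY (lv (y - x) (4 * (r * y) - t)) - lnB (x + y) (t + 4 * (r * y)))

noncomputable def An (x t y r : ℝ) : ℝ := lnA (x + y) (t + 4 * (r * y))

noncomputable def Ln (x t y r : ℝ) : ℝ := -LL (lv (y - x) (4 * (r * y) - t))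

noncomputable def lin (u1 v1 u2 v2 : ℕ) (x : ℝ) : ℝ :=
  ((u1 : ℝ) / 10000 + (u2 : ℝ) / 10000 * x) - ((v1 : ℝ) / 10000 + (v2 : ℝ) / 10000 * x)

/-- `lam = j ln / ld` -/
noncomputable def lam (ln ld j : ℕ) : ℝ := ((j * ln : ℕ) : ℝ) / ld

noncomputable def PA (b w ln ld c u1 v1 u2 v2 j : ℕ) (x t y r : ℝ) : Prop :=
  0 < An x t y r + Ln x t y r + Hb x t y r - (1 - lam ln ld j) * ((w : ℝ) / 2 * Rr b y r) +
    lin u1 v1 u2 v2 x ∧
  0 < An x t y r + Ln x t y r + Hb x t y r - (1 - lam ln ld j) * ((w : ℝ) / 2 * Rr b y r) +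
    lin u1 v1 u2 v2 x - lam ln ld j * kr b y *
      (lnA (1 / 2) (t + r) - lnA (((5000 - c : ℕ) : ℝ) / 10000) (r - t))

noncomputable def PB (rg b w ln ld s0 a u1 v1 u2 v2 j : ℕ) (x t y r : ℝ) : Prop :=
  (rg = 0 ∧ 0 < 2 * An x t y r + Hb x t y r - (1 - lam ln ld j) * ((w : ℝ) / 2 * Rr b y r) -
    (1 + lam ln ld j * kr b y) * lnA (1 / 2) (t + r) -
    (1 - lam ln ld j * kr b y) * lnA (((5000 - s0 : ℕ) : ℝ) / 10000 - x) (r - t) +
    lin u1 v1 u2 v2 x) ∨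
  (rg ≠ 0 ∧ 0 < 2 * An x t y r + Hb x t y r - (1 - lam ln ld j) * ((w : ℝ) / 2 * Rr b y r) -
    (1 + lam ln ld j * kr b y) * lnA (1 / 2) (t + r) -
    (1 - lam ln ld j * kr b y) * lnA (((5000 - s0 - a : ℕ) : ℝ) / 10000) (r - t) +
    2 * (lnA ((a : ℝ) / 10000) t - lnA x t) + lin u1 v1 u2 v2 x)

noncomputable def PC (rg b w ln ld c m a u1 v1 u2 v2 j : ℕ) (x t y r : ℝ) : Prop :=
  (rg = 0 ∧ 0 < 2 * Ln x t y r + Hb x t y r - (1 - lam ln ld j) * ((w : ℝ) / 2 * Rr b y r) +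
    (1 - lam ln ld j * kr b y) * lnA (((5000 - m : ℕ) : ℝ) / 10000) (t + r) +
    (1 + lam ln ld j * kr b y) * lnA (((5000 - c : ℕ) : ℝ) / 10000) (r - t) +
    lin u1 v1 u2 v2 x) ∨
  (rg ≠ 0 ∧ 0 < 2 * Ln x t y r + Hb x t y r - (1 - lam ln ld j) * ((w : ℝ) / 2 * Rr b y r) +
    (1 - lam ln ld j * kr b y) * lnA (((5000 - m : ℕ) : ℝ) / 10000) (t + r) +
    (1 + lam ln ld j * kr b y) * lnA (((5000 - c : ℕ) : ℝ) / 10000) (r - t) +
    2 * (lnA x t - lnA ((a : ℝ) / 10000) t) + lin u1 v1 u2 v2 x)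

theorem Fr_split {x t y r : ℝ} (h0 : 0 < x + y) (h1 : x + y < 1) :
    Fr x y t r = An x t y r + Ln x t y r + Hb x t y r := by
  unfold Fr Dx An Ln Hb
  rw [LL_lv _ h0 h1, YY_lv _ h0 h1, ← LL_lv_neg (y - x) (t - 4 * r * y)]
  have e1 : 4 * r * y = 4 * (r * y) := by ring
  have e2 : -(t - 4 * (r * y)) = 4 * (r * y) - t := by ring
  rw [e1, e2]
  ring

/-! ### leaves -/

/-- linear term -/
def linF (u1 v1 u2 v2 : ℕ) (X : F) : F :=
  ((F.rat u1 10000).add (F.mulq u2 10000 X)).sub ((F.rat v1 10000).add (F.mulq v2 10000 X))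

lemma linF_encl {u1 v1 u2 v2 : ℕ} {X : F} {ε : ℕ → ℝ} {x : ℝ} (hε : ∀ i, |ε i| ≤ 1)
    (h : X.Encl ε x) : (linF u1 v1 u2 v2 X).Encl ε (lin u1 v1 u2 v2 x) := by
  have a1 := F.Encl.rat u1 10000 ε
  have a2 := F.Encl.rat v1 10000 ε
  have b1 := F.Encl.mulq (n := u2) (d := 10000) (by norm_num) hε h
  have b2 := F.Encl.mulq (n := v2) (d := 10000) (by norm_num) hε h
  push_cast at a1 a2 b1 b2
  exact F.Encl.sub (F.Encl.add a1 b1) (F.Encl.add a2 b2)

/-- `Rr` -/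
def rrF (b : ℕ) (Y W4 : F) : F := W4.mul (F.pi.mul ((F.mulq (4 * b) 1 Y).sub (F.rat (b - 2) 1)))

lemma rrF_encl {b : ℕ} (hb : 2 ≤ b) {Y W4 : F} {ε : ℕ → ℝ} {y r : ℝ} (hε : ∀ i, |ε i| ≤ 1)
    (hY : Y.Encl ε y) (hW : W4.Encl ε (4 * r)) : (rrF b Y W4).Encl ε (Rr b y r) := by
  have h1 := mulq1 (n := 4 * b) hε hY
  have h2 := rat1 (b - 2) ε
  rw [Nat.cast_sub hb] at h2
  push_cast at h1 h2
  have := F.Encl.mul hε hW (F.Encl.mul hε (F.Encl.pi ε) (F.Encl.sub h1 h2))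
  have e : 4 * r * (Real.pi * (4 * b * y - (b - 2))) = Rr b y r := by
    unfold Rr
    ring
  rw [e] at this
  exact this

/-- `(1 - lam) w / 2 * Rr` -/
def lwF (w ln ld j : ℕ) (Q : F) : F := (F.mulq w 2 Q).sub (F.mulq (j * ln * w) (2 * ld) Q)

lemma lwF_encl {w ln ld j : ℕ} (hl : 0 < ld) {Q : F} {ε : ℕ → ℝ} {q : ℝ}
    (hε : ∀ i, |ε i| ≤ 1) (h : Q.Encl ε q) :
    (lwF w ln ld j Q).Encl ε ((1 - lam ln ld j) * ((w : ℝ) / 2 * q)) := by
  have a1 := F.Encl.mulq (n := w) (d := 2) (by norm_num) hε h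
  have a2 := F.Encl.mulq (n := j * ln * w) (d := 2 * ld) (by omega) hε h
  have := F.Encl.sub a1 a2
  have hl' : (ld : ℝ) ≠ 0 := by exact_mod_cast hl.ne'
  have e : ((w : ℝ) / (2 : ℕ) * q - ((j * ln * w : ℕ) : ℝ) / ((2 * ld : ℕ) : ℝ) * q) =
      (1 - lam ln ld j) * ((w : ℝ) / 2 * q) := by
    unfold lam
    push_cast
    field_simp
  rw [e] at this
  exact this

/-- `lam k` -/
def lkF' (b ln ld j : ℕ) (Y : F) : F :=
  F.mulq (j * ln) ld ((F.mulq 8 1 Y).sub (F.rat (2 * b - 4) b))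

lemma lkF'_encl {b ln ld j : ℕ} (hb : 2 ≤ b) (hl : 0 < ld) {Y : F} {ε : ℕ → ℝ} {y : ℝ}
    (hε : ∀ i, |ε i| ≤ 1) (h : Y.Encl ε y) :
    (lkF' b ln ld j Y).Encl ε (lam ln ld j * kr b y) := by
  have a1 := mulq1 (n := 8) hε h
  have a2 := F.Encl.rat (2 * b - 4) b ε
  have := F.Encl.mulq (n := j * ln) (d := ld) hl hε (F.Encl.sub a1 a2)
  have hb' : (b : ℝ) ≠ 0 := by
    have : 0 < b := by omega
    exact_mod_cast this.ne'
  have e : ((8 : ℕ) : ℝ) * y - ((2 * b - 4 : ℕ) : ℝ) / b = kr b y := by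
    unfold kr
    rw [Nat.cast_sub (by omega)]
    push_cast
    field_simp
    ring
  rw [e] at this
  exact this

/-- `A + L + W` -/
def gA (b w ln ld c u1 v1 u2 v2 j lf nf : ℕ) (X T Y R q H d s W4 : F) : Bool :=
  bO (F.lnA (X.add Y) (T.add H)) fun au => bO (F.lnB (X.add Y) (T.add H)) fun bu =>
  bO (F.lnA (F.rat 1 2) (T.add R)) fun Lh => bO (F.lnA (F.rat (5000 - c) 10000) q) fun Lc =>
  lF lf d s fun L => nF nf d s fun N =>
    let E1 := (((au.add L).add (W4.mul (N.sub bu))).sub (lwF w ln ld j (rrF b Y W4))).add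
      (linF u1 v1 u2 v2 X)
    cond (posF E1) (posF (E1.sub ((lkF' b ln ld j Y).mul (Lh.sub Lc)))) false

def gB (rg b w ln ld s0 a u1 v1 u2 v2 j nf : ℕ) (X T Y R q H d s W4 : F) : Bool :=
  bO (F.lnA (X.add Y) (T.add H)) fun au => bO (F.lnB (X.add Y) (T.add H)) fun bu =>
  bO (F.lnA (F.rat 1 2) (T.add R)) fun Lh =>
  nF nf d s fun N =>
    let lk := lkF' b ln ld j Y
    let G := (((au.add au).add (W4.mul (N.sub bu))).sub (lwF w ln ld j (rrF b Y W4))).sub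
      (((F.rat 1 1).add lk).mul Lh)
    let li := linF u1 v1 u2 v2 X
    cond (Nat.beq rg 0)
      (bO (F.lnA ((F.rat (5000 - s0) 10000).sub X) q) fun D2 =>
        posF ((G.sub (((F.rat 1 1).sub lk).mul D2)).add li))
      (bO (F.lnA (F.rat (5000 - s0 - a) 10000) q) fun D2 => bO (F.lnA (F.rat a 10000) T) fun aa =>
        bO (F.lnA X T) fun ax =>
        posF (((G.sub (((F.rat 1 1).sub lk).mul D2)).add (F.mulq 2 1 (aa.sub ax))).add li))

def gC (rg b w ln ld c m a u1 v1 u2 v2 j lf nf : ℕ) (X T Y R q H d s W4 : F) : Bool :=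
  bO (F.lnB (X.add Y) (T.add H)) fun bu =>
  bO (F.lnA (F.rat (5000 - c) 10000) q) fun Lc =>
  bO (F.lnA (F.rat (5000 - m) 10000) (T.add R)) fun Lm =>
  lF lf d s fun L => nF nf d s fun N =>
    let lk := lkF' b ln ld j Y
    let G := ((((L.add L).add (W4.mul (N.sub bu))).sub (lwF w ln ld j (rrF b Y W4))).add
      (((F.rat 1 1).sub lk).mul Lm)).add (((F.rat 1 1).add lk).mul Lc)
    let li := linF u1 v1 u2 v2 X
    cond (Nat.beq rg 0) (posF (G.add li))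
      (bO (F.lnA (F.rat a 10000) T) fun aa => bO (F.lnA X T) fun ax =>
        posF ((G.add (F.mulq 2 1 (ax.sub aa))).add li))

/-- enclosures of the common quantities -/
structure En (ε : ℕ → ℝ) (X T Y R q H d s W4 : F) (x t y r : ℝ) : Prop where
  e : ∀ i, |ε i| ≤ 1
  X : X.Encl ε x
  T : T.Encl ε t
  Y : Y.Encl ε y
  R : R.Encl ε r
  q : q.Encl ε (r - t)
  H : H.Encl ε (4 * (r * y))
  d : d.Encl ε (y - x)
  s : s.Encl ε (4 * (r * y) - t)
  W : W4.Encl ε (4 * r)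

lemma En.of {ε : ℕ → ℝ} {X T Y R : F} {x t y r : ℝ} (hε : ∀ i, |ε i| ≤ 1) (hX : X.Encl ε x)
    (hT : T.Encl ε t) (hY : Y.Encl ε y) (hR : R.Encl ε r) :
    En ε X T Y R (R.sub T) (F.mulq 4 1 (R.mul Y)) (Y.sub X) ((F.mulq 4 1 (R.mul Y)).sub T)
      (F.mulq 4 1 R) x t y r := by
  have h1 := enc4 hε (F.Encl.mul hε hR hY)
  exact ⟨hε, hX, hT, hY, hR, F.Encl.sub hR hT, h1, F.Encl.sub hY hX, F.Encl.sub h1 hT,
    enc4 hε hR⟩

section
variable {rg b w ln ld c s0 m a u1 v1 u2 v2 j lf nf q0 q1 : ℕ} {ε : ℕ → ℝ}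
  {X T Y R q H d s W4 : F} {x t y r : ℝ}

lemma Dmn.dl (h : Dmn q0 q1 x t y r) : -(1 / 2) < y - x := by linarith only [h, h.x1, h.y0]
lemma Dmn.dr (h : Dmn q0 q1 x t y r) : y - x < 1 / 2 := by linarith only [h, h.x0, h.y1]
lemma Dmn.dt (h : Dmn q0 q1 x t y r) : y - x ≤ 0 → 0 ≤ 4 * (r * y) - t := fun h1 => by
  linarith only [h, h1, h.ht (by linarith only [h1])]
lemma Dmn.dn (h : Dmn q0 q1 x t y r) : ¬ (y - x = 0 ∧ 4 * (r * y) - t = 0) := fun h1 =>
  h.nz ⟨by linarith only [h1, h1.1], by linarith only [h1, h1.2]⟩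

lemma half_encl (ε : ℕ → ℝ) : (F.rat 1 2).Encl ε (1 / 2) := by
  have := F.Encl.rat 1 2 ε
  push_cast at this
  exact this

lemma one_encl (ε : ℕ → ℝ) : (F.rat 1 1).Encl ε 1 := by
  have := rat1 1 ε
  rwa [Nat.cast_one] at this

lemma r4_encl (n : ℕ) (ε : ℕ → ℝ) : (F.rat n 10000).Encl ε ((n : ℝ) / 10000) := by
  have := F.Encl.rat n 10000 ε
  push_cast at this
  exact this

lemma two_encl {a : F} {z : ℝ} (hε : ∀ i, |ε i| ≤ 1) (h : a.Encl ε z) :
    (F.mulq 2 1 a).Encl ε (2 * z) := by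
  have := mulq1 (n := 2) hε h
  push_cast at this
  exact this

theorem gA_sound (hb : 2 ≤ b) (hl : 0 < ld) (E : En ε X T Y R q H d s W4 x t y r)
    (D : Dmn q0 q1 x t y r) (h : gA b w ln ld c u1 v1 u2 v2 j lf nf X T Y R q H d s W4 = true) :
    PA b w ln ld c u1 v1 u2 v2 j x t y r := by
  have hε := E.e
  obtain ⟨au, hau, h⟩ := bO_some h
  obtain ⟨bu, hbu, h⟩ := bO_some h
  obtain ⟨Lh, hLh, h⟩ := bO_some h
  obtain ⟨Lc, hLc, h⟩ := bO_some h
  obtain ⟨L, Lr, eL, hLr, h⟩ := lF_some hε E.d E.s D.dl D.dr D.dn h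
  obtain ⟨N, Nr, eN, hNr, h⟩ := nF_some hε E.d E.s D.dl D.dr D.dt h
  have kx := F.Encl.add E.X E.Y
  have kt := F.Encl.add E.T E.H
  have eau := F.Encl.lnA hε kx kt hau
  have ebu := F.Encl.lnB hε kx kt hbu
  have eLh := F.Encl.lnA hε (half_encl ε) (F.Encl.add E.T E.R) hLh
  have eLc := F.Encl.lnA hε (r4_encl (5000 - c) ε) E.q hLc
  have k1 := F.Encl.add (F.Encl.sub (F.Encl.add (F.Encl.add eau eL)
    (F.Encl.mul hε E.W (F.Encl.sub eN ebu))) (lwF_encl (w := w) (ln := ln) (j := j) hl hε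
      (rrF_encl hb hε E.Y E.W))) (linF_encl (u1 := u1) (v1 := v1) (u2 := u2) (v2 := v2) hε E.X)
  have k2 := F.Encl.sub k1 (F.Encl.mul hε (lkF'_encl (ln := ln) (j := j) hb hl hε E.Y)
    (F.Encl.sub eLh eLc))
  obtain ⟨g1, g2⟩ := cond_ff h
  have p1 := posF_spec hε k1 g1
  have p2 := posF_spec hε k2 g2
  have hw : 4 * r * (Nr - lnB (x + y) (t + 4 * (r * y))) ≤ Hb x t y r := by
    unfold Hb
    exact mul_le_mul_of_nonneg_left (by linarith only [hNr]) (by linarith only [D, D.r0])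
  unfold PA An Ln
  constructor <;> linarith only [hLr, p1, hw, p2]

theorem gB_sound (hb : 2 ≤ b) (hl : 0 < ld) (E : En ε X T Y R q H d s W4 x t y r)
    (D : Dmn q0 q1 x t y r)
    (h : gB rg b w ln ld s0 a u1 v1 u2 v2 j nf X T Y R q H d s W4 = true) :
    PB rg b w ln ld s0 a u1 v1 u2 v2 j x t y r := by
  have hε := E.e
  obtain ⟨au, hau, h⟩ := bO_some h
  obtain ⟨bu, hbu, h⟩ := bO_some h
  obtain ⟨Lh, hLh, h⟩ := bO_some h
  obtain ⟨N, Nr, eN, hNr, h⟩ := nF_some hε E.d E.s D.dl D.dr D.dt h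
  have kx := F.Encl.add E.X E.Y
  have kt := F.Encl.add E.T E.H
  have eau := F.Encl.lnA hε kx kt hau
  have ebu := F.Encl.lnB hε kx kt hbu
  have eLh := F.Encl.lnA hε (half_encl ε) (F.Encl.add E.T E.R) hLh
  have ek := lkF'_encl (ln := ln) (j := j) hb hl hε E.Y
  have eli := linF_encl (u1 := u1) (v1 := v1) (u2 := u2) (v2 := v2) hε E.X
  have k1 := F.Encl.sub (F.Encl.sub (F.Encl.add (F.Encl.add eau eau)
    (F.Encl.mul hε E.W (F.Encl.sub eN ebu))) (lwF_encl (w := w) (ln := ln) (j := j) hl hε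
      (rrF_encl hb hε E.Y E.W))) (F.Encl.mul hε (F.Encl.add (one_encl ε) ek) eLh)
  have hw : 4 * r * (Nr - lnB (x + y) (t + 4 * (r * y))) ≤ Hb x t y r := by
    unfold Hb
    exact mul_le_mul_of_nonneg_left (by linarith only [hNr]) (by linarith only [D, D.r0])
  unfold PB An
  simp only at h
  rcases h0 : Nat.beq rg 0 with _ | _
  · rw [h0, cond_false] at h
    obtain ⟨D2, hD2, h⟩ := bO_some h
    obtain ⟨aa, haa, h⟩ := bO_some h
    obtain ⟨ax, hax, h⟩ := bO_some h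
    have e1 := F.Encl.lnA hε (r4_encl (5000 - s0 - a) ε) E.q hD2
    have e2 := F.Encl.lnA hε (r4_encl a ε) E.T haa
    have e3 := F.Encl.lnA hε E.X E.T hax
    have p := posF_spec hε (F.Encl.add (F.Encl.add (F.Encl.sub k1 (F.Encl.mul hε
      (F.Encl.sub (one_encl ε) ek) e1)) (two_encl hε (F.Encl.sub e2 e3))) eli) h
    refine Or.inr ⟨Nat.ne_of_beq_eq_false h0, ?_⟩
    linarith only [hw, p]
  · rw [h0, cond_true] at h
    obtain ⟨D2, hD2, h⟩ := bO_some h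
    have e1 := F.Encl.lnA hε (F.Encl.sub (r4_encl (5000 - s0) ε) E.X) E.q hD2
    have p := posF_spec hε (F.Encl.add (F.Encl.sub k1 (F.Encl.mul hε
      (F.Encl.sub (one_encl ε) ek) e1)) eli) h
    refine Or.inl ⟨Nat.eq_of_beq_eq_true h0, ?_⟩
    linarith only [hw, p]

theorem gC_sound (hb : 2 ≤ b) (hl : 0 < ld) (E : En ε X T Y R q H d s W4 x t y r)
    (D : Dmn q0 q1 x t y r)
    (h : gC rg b w ln ld c m a u1 v1 u2 v2 j lf nf X T Y R q H d s W4 = true) :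
    PC rg b w ln ld c m a u1 v1 u2 v2 j x t y r := by
  have hε := E.e
  obtain ⟨bu, hbu, h⟩ := bO_some h
  obtain ⟨Lc, hLc, h⟩ := bO_some h
  obtain ⟨Lm, hLm, h⟩ := bO_some h
  obtain ⟨L, Lr, eL, hLr, h⟩ := lF_some hε E.d E.s D.dl D.dr D.dn h
  obtain ⟨N, Nr, eN, hNr, h⟩ := nF_some hε E.d E.s D.dl D.dr D.dt h
  have kx := F.Encl.add E.X E.Y
  have kt := F.Encl.add E.T E.H
  have ebu := F.Encl.lnB hε kx kt hbu
  have eLc := F.Encl.lnA hε (r4_encl (5000 - c) ε) E.q hLc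
  have eLm := F.Encl.lnA hε (r4_encl (5000 - m) ε) (F.Encl.add E.T E.R) hLm
  have ek := lkF'_encl (ln := ln) (j := j) hb hl hε E.Y
  have eli := linF_encl (u1 := u1) (v1 := v1) (u2 := u2) (v2 := v2) hε E.X
  have k1 := F.Encl.add (F.Encl.add (F.Encl.sub (F.Encl.add (F.Encl.add eL eL)
    (F.Encl.mul hε E.W (F.Encl.sub eN ebu))) (lwF_encl (w := w) (ln := ln) (j := j) hl hε
      (rrF_encl hb hε E.Y E.W))) (F.Encl.mul hε (F.Encl.sub (one_encl ε) ek) eLm))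
      (F.Encl.mul hε (F.Encl.add (one_encl ε) ek) eLc)
  have hw : 4 * r * (Nr - lnB (x + y) (t + 4 * (r * y))) ≤ Hb x t y r := by
    unfold Hb
    exact mul_le_mul_of_nonneg_left (by linarith only [hNr]) (by linarith only [D, D.r0])
  unfold PC Ln
  simp only at h
  rcases h0 : Nat.beq rg 0 with _ | _
  · rw [h0, cond_false] at h
    obtain ⟨aa, haa, h⟩ := bO_some h
    obtain ⟨ax, hax, h⟩ := bO_some h
    have e2 := F.Encl.lnA hε (r4_encl a ε) E.T haa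
    have e3 := F.Encl.lnA hε E.X E.T hax
    have p := posF_spec hε (F.Encl.add (F.Encl.add k1 (two_encl hε (F.Encl.sub e3 e2))) eli) h
    refine Or.inr ⟨Nat.ne_of_beq_eq_false h0, ?_⟩
    linarith only [hLr, hw, p]
  · rw [h0, cond_true] at h
    have p := posF_spec hε (F.Encl.add k1 eli) h
    refine Or.inl ⟨Nat.eq_of_beq_eq_true h0, ?_⟩
    linarith only [hLr, hw, p]

/-- the box has no admissible point -/
def vac (q0 q1 k : ℕ) (q d s : F) : Bool :=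
  cond (Nat.beq k 120) (cond (Nat.ble 1 q0) (posF ((F.rat q0 10000).sub q)) false)
    (cond (Nat.beq k 121) (posF (q.sub (F.rat q1 10000)))
      (cond (posF d.neg) (posF s.neg) false))

lemma vac_sound {k : ℕ} (E : En ε X T Y R q H d s W4 x t y r) (D : Dmn q0 q1 x t y r)
    (h : vac q0 q1 k q d s = true) : False := by
  have hε := E.e
  unfold vac at h
  rcases h0 : Nat.beq k 120 with _ | _
  · rw [h0, cond_false] at h
    rcases h1 : Nat.beq k 121 with _ | _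
    · rw [h1, cond_false] at h
      obtain ⟨g1, g2⟩ := cond_ff h
      have p1 := posF_spec hε (negE E.d) g1
      have p2 := posF_spec hε (negE E.s) g2
      have := D.dt (by linarith only [p1])
      linarith only [p2, this]
    · rw [h1, cond_true] at h
      have p := posF_spec hε (F.Encl.sub E.q (r4_encl q1 ε)) h
      have := D.hi
      linarith only [p, this]
  · rw [h0, cond_true] at h
    obtain ⟨g1, g2⟩ := cond_ff h
    have p := posF_spec hε (F.Encl.sub (r4_encl q0 ε) E.q) g2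
    have := D.lo (Nat.le_of_ble_eq_true g1)
    linarith only [p, this]

end

/-! ### tests -/

/-- `j = 1` if the mixture is fixed -/
def jj (jm k : ℕ) : ℕ := cond (Nat.beq jm 0) 1 (Nat.land (Nat.shiftRight k 1) 3)

lemma jj_le (jm k : ℕ) : jj jm k ≤ 3 := by
  unfold jj
  rcases Nat.beq jm 0 with _ | _
  · rw [cond_false]
    exact Nat.and_le_right
  · rw [cond_true]
    norm_num

lemma jj_one (k : ℕ) : jj 0 k = 1 := rfl

/-- the hinge beyond its part -/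
def tP (b w ln ld jm c u1 v1 u2 v2 q0 q1 k : ℕ) (X T Y R : F) : Bool :=
  let q := R.sub T
  let H := F.mulq 4 1 (R.mul Y)
  let d := Y.sub X
  let s := H.sub T
  cond (Nat.ble 120 k) (vac q0 q1 k q d s)
    (fN (jj jm k) fun j => fN (Nat.mod (Nat.shiftRight k 3) 3) fun lf =>
      fN (Nat.div (Nat.shiftRight k 3) 3) fun nf =>
        gA b w ln ld c u1 v1 u2 v2 j lf nf X T Y R q H d s (F.mulq 4 1 R))

/-- below the saddle point -/
def tD (rg b w ln ld jm c s0 a u1 v1 u2 v2 u1' v1' u2' v2' q0 q1 k : ℕ) (X T Y R : F) : Bool :=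
  let q := R.sub T
  let H := F.mulq 4 1 (R.mul Y)
  let d := Y.sub X
  let s := H.sub T
  cond (Nat.ble 120 k) (vac q0 q1 k q d s)
    (fN (jj jm k) fun j => fN (Nat.mod (Nat.shiftRight k 3) 3) fun lf =>
      fN (Nat.div (Nat.shiftRight k 3) 3) fun nf =>
        cond (Nat.beq (Nat.land k 1) 0)
          (gA b w ln ld c u1 v1 u2 v2 j lf nf X T Y R q H d s (F.mulq 4 1 R))
          (gB rg b w ln ld s0 a u1' v1' u2' v2' j nf X T Y R q H d s (F.mulq 4 1 R)))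

/-- above the saddle point -/
def tU (rg b w ln ld jm c m a u1 v1 u2 v2 u1' v1' u2' v2' q0 q1 k : ℕ) (X T Y R : F) : Bool :=
  let q := R.sub T
  let H := F.mulq 4 1 (R.mul Y)
  let d := Y.sub X
  let s := H.sub T
  cond (Nat.ble 120 k) (vac q0 q1 k q d s)
    (fN (jj jm k) fun j => fN (Nat.mod (Nat.shiftRight k 3) 3) fun lf =>
      fN (Nat.div (Nat.shiftRight k 3) 3) fun nf =>
        cond (Nat.beq (Nat.land k 1) 0)
          (gA b w ln ld c u1 v1 u2 v2 j lf nf X T Y R q H d s (F.mulq 4 1 R))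
          (gC rg b w ln ld c m a u1' v1' u2' v2' j lf nf X T Y R q H d s (F.mulq 4 1 R)))

section
variable {rg b w ln ld jm c s0 m a u1 v1 u2 v2 u1' v1' u2' v2' q0 q1 : ℕ}

def QP (b w ln ld jm c u1 v1 u2 v2 q0 q1 : ℕ) (x t y r : ℝ) : Prop :=
  Dmn q0 q1 x t y r → ∃ j, j ≤ 3 ∧ (jm = 0 → j = 1) ∧ PA b w ln ld c u1 v1 u2 v2 j x t y r

def QD (rg b w ln ld jm c s0 a u1 v1 u2 v2 u1' v1' u2' v2' q0 q1 : ℕ) (x t y r : ℝ) : Prop :=
  Dmn q0 q1 x t y r → ∃ j, j ≤ 3 ∧ (jm = 0 → j = 1) ∧ (PA b w ln ld c u1 v1 u2 v2 j x t y r ∨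
    PB rg b w ln ld s0 a u1' v1' u2' v2' j x t y r)

def QU (rg b w ln ld jm c m a u1 v1 u2 v2 u1' v1' u2' v2' q0 q1 : ℕ) (x t y r : ℝ) : Prop :=
  Dmn q0 q1 x t y r → ∃ j, j ≤ 3 ∧ (jm = 0 → j = 1) ∧ (PA b w ln ld c u1 v1 u2 v2 j x t y r ∨
    PC rg b w ln ld c m a u1' v1' u2' v2' j x t y r)

theorem tP_ok (hb : 2 ≤ b) (hl : 0 < ld) :
    TestOk (tP b w ln ld jm c u1 v1 u2 v2 q0 q1) (QP b w ln ld jm c u1 v1 u2 v2 q0 q1) := by
  intro k X T Y R ε x t y r hε hX hT hY hR h D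
  have E := En.of hε hX hT hY hR
  unfold tP at h
  simp only at h
  rcases h0 : Nat.ble 120 k with _ | _
  · rw [h0, cond_false, fN_eq, fN_eq, fN_eq] at h
    exact ⟨_, jj_le jm k, fun hj => by rw [hj, jj_one], gA_sound hb hl E D h⟩
  · rw [h0, cond_true] at h
    exact (vac_sound E D h).elim

theorem tD_ok (hb : 2 ≤ b) (hl : 0 < ld) :
    TestOk (tD rg b w ln ld jm c s0 a u1 v1 u2 v2 u1' v1' u2' v2' q0 q1)
      (QD rg b w ln ld jm c s0 a u1 v1 u2 v2 u1' v1' u2' v2' q0 q1) := by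
  intro k X T Y R ε x t y r hε hX hT hY hR h D
  have E := En.of hε hX hT hY hR
  unfold tD at h
  simp only at h
  rcases h0 : Nat.ble 120 k with _ | _
  · rw [h0, cond_false, fN_eq, fN_eq, fN_eq] at h
    refine ⟨_, jj_le jm k, fun hj => by rw [hj, jj_one], ?_⟩
    rcases h1 : Nat.beq (Nat.land k 1) 0 with _ | _
    · rw [h1, cond_false] at h
      exact Or.inr (gB_sound hb hl E D h)
    · rw [h1, cond_true] at h
      exact Or.inl (gA_sound hb hl E D h)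
  · rw [h0, cond_true] at h
    exact (vac_sound E D h).elim

theorem tU_ok (hb : 2 ≤ b) (hl : 0 < ld) :
    TestOk (tU rg b w ln ld jm c m a u1 v1 u2 v2 u1' v1' u2' v2' q0 q1)
      (QU rg b w ln ld jm c m a u1 v1 u2 v2 u1' v1' u2' v2' q0 q1) := by
  intro k X T Y R ε x t y r hε hX hT hY hR h D
  have E := En.of hε hX hT hY hR
  unfold tU at h
  simp only at h
  rcases h0 : Nat.ble 120 k with _ | _
  · rw [h0, cond_false, fN_eq, fN_eq, fN_eq] at h
    refine ⟨_, jj_le jm k, fun hj => by rw [hj, jj_one], ?_⟩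
    rcases h1 : Nat.beq (Nat.land k 1) 0 with _ | _
    · rw [h1, cond_false] at h
      exact Or.inr (gC_sound hb hl E D h)
    · rw [h1, cond_true] at h
      exact Or.inl (gA_sound hb hl E D h)
  · rw [h0, cond_true] at h
    exact (vac_sound E D h).elim

end

end RQ

end Pool.Agent.Work.MP_b30479_gtS.G2

end

section

/-!
# Rings with the ring variable on the ramp, `b ≥ 5`: reduction to the kernel checks
-/

namespace Pool.Agent.Work.MP_b30479_gtS.G2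

open Real Set VOL NumIs

namespace RQ

open RC

/-! ### derivatives -/

theorem hasDerivAt_gh {x : ℝ} (h0 : 0 < x) (h1 : x < 1) : HasDerivAt gh (π / sin (π * x)) x := by
  have hp := pi_pos
  have hs : 0 < sin (π * x / 2) := sin_pos_of_pos_of_lt_pi (by positivity) (by nlinarith only [hp, h1])
  have hc : 0 < cos (π * x / 2) := cos_pos_of_mem_Ioo ⟨by nlinarith only [hp, h0], by nlinarith only [h1, hp]⟩
  have hd : HasDerivAt (fun z : ℝ => π * z / 2) (π / 2) x := by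
    have := ((hasDerivAt_id' x).const_mul π).div_const 2
    rwa [mul_one] at this
  have ht := (hasDerivAt_tan hc.ne').comp x hd
  have htn : tan (π * x / 2) ≠ 0 := by
    rw [tan_eq_sin_div_cos]
    positivity
  have hl := ht.log htn
  refine hl.congr_deriv ?_
  have e : sin (π * x) = 2 * sin (π * x / 2) * cos (π * x / 2) := by
    rw [← sin_two_mul]
    congr 1
    ring
  rw [e, Function.comp_apply, tan_eq_sin_div_cos]
  field_simp

theorem MM_pos {x t : ℝ} (h0 : 0 < x) (h1 : x < 1) :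
    0 < sin (π * x) ^ 2 + sinh (π * t) ^ 2 := by
  have hs : 0 < sin (π * x) :=
    sin_pos_of_pos_of_lt_pi (mul_pos pi_pos h0) (by nlinarith only [h1, pi_pos])
  positivity

theorem hasDerivAt_lnA {x t : ℝ} (h0 : 0 < x) (h1 : x < 1) : HasDerivAt (fun z => lnA z t)
    (π * sin (π * x) * cos (π * x) / (sin (π * x) ^ 2 + sinh (π * t) ^ 2)) x := by
  have hM := MM_pos (t := t) h0 h1
  have hd : HasDerivAt (fun z : ℝ => π * z) π x := by
    have := (hasDerivAt_id' x).const_mul π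
    rwa [mul_one] at this
  have h1 : HasDerivAt (fun z : ℝ => sin (π * z)) (cos (π * x) * π) x :=
    (hasDerivAt_sin (π * x)).comp x hd
  have h2 : HasDerivAt (fun z : ℝ => 4 * (sin (π * z) ^ 2 + sinh (π * t) ^ 2))
      (4 * (2 * sin (π * x) * (cos (π * x) * π))) x := by
    have := ((h1.pow 2).add_const (sinh (π * t) ^ 2)).const_mul 4
    refine this.congr_deriv ?_
    norm_num
  have h3 := (h2.log (by positivity)).div_const 2
  refine h3.congr_deriv ?_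
  field_simp

/-! ### monotonicity -/

theorem lnA_mono {u v t : ℝ} (h0 : 0 < u) (huv : u ≤ v) (hv : v ≤ 1 / 2) : lnA u t ≤ lnA v t := by
  have hp := pi_pos
  have hs : 0 < sin (π * u) := sin_pos_of_pos_of_lt_pi (by positivity) (by nlinarith only [hp, huv, hv])
  have hm : sin (π * u) ≤ sin (π * v) :=
    sin_le_sin_of_le_of_le_pi_div_two (by nlinarith only [hp, h0]) (by nlinarith only [hv, hp]) (by nlinarith only [huv, hp])
  have hq : sin (π * u) ^ 2 ≤ sin (π * v) ^ 2 := pow_le_pow_left₀ hs.le hm 2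
  unfold lnA
  have := log_le_log (by positivity : 0 < 4 * (sin (π * u) ^ 2 + sinh (π * t) ^ 2))
    (by linarith only [hq] : 4 * (sin (π * u) ^ 2 + sinh (π * t) ^ 2) ≤
      4 * (sin (π * v) ^ 2 + sinh (π * t) ^ 2))
  linarith only [this]

/-- lower bound in the middle of the strip -/
theorem lnA_le_LL {u v t : ℝ} (h0 : 0 < v) (h1 : v ≤ u) (h2 : u ≤ 1 - v) :
    lnA v t ≤ LL (lv u t) := by
  rw [LL_lv t (by linarith only [h0, h1]) (by linarith only [h0, h2])]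
  rcases le_total u (1 / 2) with h | h
  · exact lnA_mono h0 h1 h
  · have e : lnA u t = lnA (1 - u) t := by
      unfold lnA
      have : sin (π * u) = sin (π * (1 - u)) := by
        rw [mul_sub, mul_one, sin_pi_sub]
      rw [this]
    rw [e]
    exact lnA_mono h0 (by linarith only [h2]) (by linarith only [h])

theorem LL_le_half {u t : ℝ} (h0 : 0 < u) (h1 : u < 1) : LL (lv u t) ≤ lnA (1 / 2) t := by
  rw [LL_lv t h0 h1]
  rcases le_total u (1 / 2) with h | h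
  · exact lnA_mono h0 h le_rfl
  · have e : lnA u t = lnA (1 - u) t := by
      unfold lnA
      have : sin (π * u) = sin (π * (1 - u)) := by
        rw [mul_sub, mul_one, sin_pi_sub]
      rw [this]
    rw [e]
    exact lnA_mono (by linarith only [h1]) (by linarith only [h]) le_rfl

/-! ### the gauge -/

theorem gh_mvt {x y : ℝ} (h0 : 0 < x) (hxy : x < y) (hy : y ≤ 1 / 2) :
    ∃ z, x < z ∧ z < y ∧ gh y - gh x = (y - x) * (π / sin (π * z)) := by
  have hd : ∀ z ∈ Icc x y, HasDerivAt gh (π / sin (π * z)) z := fun z hz =>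
    hasDerivAt_gh (by linarith only [h0, hz, hz.1]) (by linarith only [h0, hxy, hy, hz, hz.2])
  obtain ⟨z, hz, h⟩ := exists_hasDerivAt_eq_slope gh (fun z => π / sin (π * z)) hxy
    (fun z hz => (hd z hz).continuousAt.continuousWithinAt)
    (fun z hz => hd z ⟨hz.1.le, hz.2.le⟩)
  refine ⟨z, hz.1, hz.2, ?_⟩
  have : 0 < y - x := by linarith only [hxy]
  rw [h]
  field_simp

/-- upper bound of the increment -/
theorem gh_up {x y p β G : ℝ} (hp : 0 < p) (hpx : p ≤ x) (hxy : x ≤ y) (hy : y ≤ 1 / 2)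
    (hG : β * π < G * sin (π * p)) (hG0 : 0 ≤ G) : β * (gh y - gh x) ≤ G * (y - x) := by
  have hpi := pi_pos
  rcases hxy.eq_or_lt with h | h
  · rw [h]
    simp
  obtain ⟨z, hz1, hz2, e⟩ := gh_mvt (by linarith only [hp, hpx]) h hy
  have hs : 0 < sin (π * p) := sin_pos_of_pos_of_lt_pi (by positivity) (by nlinarith only [hpi, hpx, hxy, hy])
  have hm : sin (π * p) ≤ sin (π * z) :=
    sin_le_sin_of_le_of_le_pi_div_two (by nlinarith only [hpi, hp]) (by nlinarith only [hp, hpx, hxy, hy, hpi, hz2]) (by nlinarith only [hp, hpx, hpi, hxy, hy, hz1])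
  have hs2 : 0 < sin (π * z) := by linarith only [hs, hm]
  rw [e]
  have h1 : β * (π / sin (π * z)) ≤ G := by
    rw [← mul_div_assoc, div_le_iff₀ hs2]
    have := mul_le_mul_of_nonneg_left hm hG0
    linarith only [hG, this]
  have := mul_le_mul_of_nonneg_right h1 (show 0 ≤ y - x by linarith only [hz1, hz2])
  linarith only [this]

/-- lower bound of the increment -/
theorem gh_lo {x y p β G : ℝ} (h0 : 0 < x) (hxy : x ≤ y) (hyp : y ≤ p) (hp : p ≤ 1 / 2)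
    (hG : G * sin (π * p) < β * π) (hG0 : 0 ≤ G) : G * (y - x) ≤ β * (gh y - gh x) := by
  have hpi := pi_pos
  rcases hxy.eq_or_lt with h | h
  · rw [h]
    simp
  obtain ⟨z, hz1, hz2, e⟩ := gh_mvt h0 h (by linarith only [hyp, hp])
  have hs : 0 < sin (π * z) := sin_pos_of_pos_of_lt_pi (by nlinarith only [h0, hpi, hz1]) (by nlinarith only [h0, hpi, hyp, hp, h, hz2])
  have hm : sin (π * z) ≤ sin (π * p) :=
    sin_le_sin_of_le_of_le_pi_div_two (by nlinarith only [h0, hpi, hxy, hyp, hp, h, hz1]) (by nlinarith only [hp, hpi]) (by nlinarith only [h0, hxy, hyp, hpi, hp, hz2])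
  rw [e]
  have h1 : G ≤ β * (π / sin (π * z)) := by
    rw [← mul_div_assoc, le_div_iff₀ hs]
    have := mul_le_mul_of_nonneg_left hm hG0
    linarith only [hG, this]
  have := mul_le_mul_of_nonneg_right h1 (show 0 ≤ y - x by linarith only [hz1, hz2])
  linarith only [this]

theorem gh_mono {x y : ℝ} (h0 : 0 < x) (hxy : x ≤ y) (hy : y ≤ 1 / 2) : gh x ≤ gh y := by
  rcases hxy.eq_or_lt with h | h
  · rw [h]
  · exact ((gh_lt ⟨h0, by linarith only [h0, hy, h]⟩ ⟨by linarith only [h0, h], by linarith only [h0, hy, h]⟩).2 h).le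

/-- the side of the hinge dominates the gauge -/
theorem side_gauge {a e u v t τ β : ℝ} (ha : 0 < a) (he : e ≤ 1 / 2) (hau : a ≤ u) (huv : u ≤ v)
    (hve : v ≤ e) (ht : |t| ≤ τ) (hβ : 0 ≤ β)
    (hc : β * sinh (π * τ) ^ 2 ≤ sin (π * a) ^ 2 * (2 * cos (π * e) - β))
    (hc2 : β ≤ 2 * cos (π * e)) : β * (gh v - gh u) ≤ 2 * (lnA v t - lnA u t) := by
  have hpi := pi_pos
  rcases huv.eq_or_lt with h | h
  · rw [h]
    simp
  have hd : ∀ z ∈ Icc u v, HasDerivAt (fun z => 2 * lnA z t - β * gh z)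
      (2 * (π * sin (π * z) * cos (π * z) / (sin (π * z) ^ 2 + sinh (π * t) ^ 2)) -
        β * (π / sin (π * z))) z := fun z hz =>
    ((hasDerivAt_lnA (by linarith only [ha, hau, hz, hz.1]) (by linarith only [ha, he, hau, hve, h, hz, hz.2])).const_mul 2).sub
      ((hasDerivAt_gh (by linarith only [ha, hau, hz, hz.1]) (by linarith only [ha, he, hau, hve, h, hz, hz.2])).const_mul β)
  have hmono : MonotoneOn (fun z => 2 * lnA z t - β * gh z) (Icc u v) := by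
    apply monotoneOn_of_deriv_nonneg (convex_Icc u v)
    · exact fun z hz => (hd z hz).continuousAt.continuousWithinAt
    · intro z hz
      rw [interior_Icc] at hz
      exact (hd z ⟨hz.1.le, hz.2.le⟩).differentiableAt.differentiableWithinAt
    · intro z hz
      rw [interior_Icc] at hz
      rw [(hd z ⟨hz.1.le, hz.2.le⟩).deriv]
      have hz1 := hz.1
      have hz2 := hz.2
      have hsa : 0 < sin (π * a) := sin_pos_of_pos_of_lt_pi (by positivity) (by nlinarith only [hpi, he, hau, huv, hve])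
      have hm : sin (π * a) ≤ sin (π * z) :=
        sin_le_sin_of_le_of_le_pi_div_two (by nlinarith only [hpi, ha]) (by nlinarith only [ha, he, hpi, hau, huv, hve, hz2]) (by nlinarith only [ha, he, hau, hpi, huv, hve, hz1])
      have hs : 0 < sin (π * z) := by linarith only [hsa, hm]
      have hcos : cos (π * e) ≤ cos (π * z) :=
        cos_le_cos_of_nonneg_of_le_pi (by nlinarith only [ha, hpi, he, hau, huv, hve, hz1]) (by nlinarith only [hpi, he]) (by nlinarith only [ha, he, hau, huv, hve, hpi, hz2])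
      have hsh : sinh (π * t) ^ 2 ≤ sinh (π * τ) ^ 2 := by
        have h0τ : 0 ≤ τ := (abs_nonneg t).trans ht
        rw [← sq_abs (sinh (π * t)), abs_sinh, abs_mul, abs_of_pos hpi]
        have h1 : 0 ≤ sinh (π * |t|) := sinh_nonneg_iff.2 (by positivity)
        exact pow_le_pow_left₀ h1 (sinh_le_sinh.2 (mul_le_mul_of_nonneg_left ht hpi.le)) 2
      have hsq : sin (π * a) ^ 2 ≤ sin (π * z) ^ 2 := pow_le_pow_left₀ hsa.le hm 2
      have k1 : β * sinh (π * t) ^ 2 ≤ sin (π * z) ^ 2 * (2 * cos (π * z) - β) := by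
        calc β * sinh (π * t) ^ 2 ≤ β * sinh (π * τ) ^ 2 := mul_le_mul_of_nonneg_left hsh hβ
          _ ≤ sin (π * a) ^ 2 * (2 * cos (π * e) - β) := hc
          _ ≤ sin (π * z) ^ 2 * (2 * cos (π * z) - β) :=
            mul_le_mul hsq (by linarith only [hcos]) (by linarith only [hc2]) (by positivity)
      have hM : 0 < sin (π * z) ^ 2 + sinh (π * t) ^ 2 := by positivity
      have e1 : 2 * (π * sin (π * z) * cos (π * z) / (sin (π * z) ^ 2 + sinh (π * t) ^ 2)) -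
          β * (π / sin (π * z)) = π * (sin (π * z) ^ 2 * (2 * cos (π * z) - β) -
            β * sinh (π * t) ^ 2) / ((sin (π * z) ^ 2 + sinh (π * t) ^ 2) * sin (π * z)) := by
        field_simp
        ring
      rw [e1]
      apply div_nonneg _ (by positivity)
      exact mul_nonneg hpi.le (by linarith only [k1])
  have := hmono ⟨le_rfl, h.le⟩ ⟨h.le, le_rfl⟩ h.le
  simp only at this
  linarith only [this]

/-! ### the quadratic part -/

section
variable {B b y ρ : ℝ}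

theorem kr_nonneg (hB : 0 < B) (hy : 1 / 4 - 1 / (2 * B) ≤ y) : 0 ≤ kr B y := by
  unfold kr
  have e : 4 / B = 8 * (1 / (2 * B)) := by
    field_simp
    norm_num
  rw [e]
  linarith only [hy]

theorem kr_le (hy : y ≤ 1 / 4) : kr B y ≤ 4 / B := by
  unfold kr
  linarith only [hy]

theorem kr_anti (hb : 0 < b) (h : b ≤ B) : kr B y ≤ kr b y := by
  unfold kr
  have := div_le_div_of_nonneg_left (show (0 : ℝ) ≤ 4 by norm_num) hb h
  linarith only [this]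

theorem Rr_anti (h : b ≤ B) (hr : 0 < ρ) (hy : y ≤ 1 / 4) : Rr B y ρ ≤ Rr b y ρ := by
  unfold Rr
  have h1 : 0 ≤ (B - b) * (1 - 4 * y) := mul_nonneg (by linarith only [h]) (by linarith only [hy])
  have := mul_nonneg (show 0 ≤ 4 * π * ρ by positivity) h1
  linarith only [this]

end

/-! ### the saddle point and the other point -/

/-- all hypotheses, bounds in units `1/10000`; `B = b` or (`b ≤ B` and `lam ≤ 1`) -/
structure Sd (B : ℝ) (b c m s0 q0 q1 t0 t1 yl r1 : ℕ) (xs s T ρ x y : ℝ) : Prop where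
  b5 : 5 ≤ b
  hb : (b : ℝ) ≤ B
  xs0 : 0 < xs
  xs1 : xs < 1 / 2
  hs0 : (s0 : ℝ) / 10000 ≤ s
  s5 : s0 + 1 ≤ 5000
  hc : xs + s ≤ (c : ℝ) / 10000
  c5 : c + 1 ≤ 5000
  hm : |xs - s| ≤ (m : ℝ) / 10000
  m5 : m + 1 ≤ 5000
  ht0 : ((t0 : ℝ) - (1580 : ℕ)) / (10000 : ℕ) ≤ T
  ht1 : T ≤ ((t1 : ℝ) - (1580 : ℕ)) / (10000 : ℕ)
  hyl : ((yl : ℝ) - (0 : ℕ)) / (10000 : ℕ) ≤ y
  hr1 : ρ ≤ ((r1 : ℝ) - (0 : ℕ)) / (10000 : ℕ)
  hy0 : 1 / 4 - 1 / (2 * B) ≤ y
  D : Dmn q0 q1 x T y ρ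

section
variable {B : ℝ} {b c m s0 q0 q1 t0 t1 yl r1 rg w ln ld jm a u1 v1 u2 v2 u1' v1' u2' v2' j xl xh
  code : ℕ} {xs s T ρ x y : ℝ}

lemma cast_sub {c : ℕ} (h : c + 1 ≤ 5000) : ((5000 - c : ℕ) : ℝ) / 10000 = 1 / 2 - c / 10000 := by
  rw [Nat.cast_sub (by omega)]
  push_cast
  ring

lemma Sd.s00 (h : Sd B b c m s0 q0 q1 t0 t1 yl r1 xs s T ρ x y) : 0 ≤ s :=
  le_trans (by positivity) h.hs0

lemma Sd.sum (h : Sd B b c m s0 q0 q1 t0 t1 yl r1 xs s T ρ x y) : xs + s < 1 / 2 := by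
  have h1 := h.hc
  have h2 : ((c + 1 : ℕ) : ℝ) ≤ ((5000 : ℕ) : ℝ) := Nat.cast_le.mpr h.c5
  push_cast at h2
  linarith only [h1, h2]

lemma Sd.D_le (h : Sd B b c m s0 q0 q1 t0 t1 yl r1 xs s T ρ x y) :
    Dx xs (1 / 2 - s) T ρ ≤ lnA (1 / 2) (T + ρ) - lnA (((5000 - c : ℕ) : ℝ) / 10000) (ρ - T) := by
  have h2 : ((c + 1 : ℕ) : ℝ) ≤ ((5000 : ℕ) : ℝ) := Nat.cast_le.mpr h.c5
  push_cast at h2
  rw [cast_sub h.c5]
  exact Dx_le h.xs0 h.s00 h.xs1 h.hc (by linarith only [h2])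

lemma Sd.P_le (h : Sd B b c m s0 q0 q1 t0 t1 yl r1 xs s T ρ x y) :
    LL (lv (xs + (1 / 2 - s)) (T + ρ)) ≤ lnA (1 / 2) (T + ρ) :=
  LL_le_half (by linarith only [h, h.sum, h.xs0]) (by linarith only [h, h.s00, h.xs1])

lemma Sd.P_ge (h : Sd B b c m s0 q0 q1 t0 t1 yl r1 xs s T ρ x y) :
    lnA (((5000 - m : ℕ) : ℝ) / 10000) (T + ρ) ≤ LL (lv (xs + (1 / 2 - s)) (T + ρ)) := by
  have h2 : ((m + 1 : ℕ) : ℝ) ≤ ((5000 : ℕ) : ℝ) := Nat.cast_le.mpr h.m5
  push_cast at h2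
  obtain ⟨h3, h4⟩ := abs_le.mp h.hm
  rw [cast_sub h.m5]
  have hm : (0 : ℝ) ≤ m := Nat.cast_nonneg m
  exact lnA_le_LL (by linarith only [h2]) (by linarith only [h3]) (by linarith only [h4])

lemma lnA_even (u t : ℝ) : lnA u (-t) = lnA u t := by
  unfold lnA
  rw [mul_neg, sinh_neg, neg_sq]

lemma Sd.Q_eq (h : Sd B b c m s0 q0 q1 t0 t1 yl r1 xs s T ρ x y) :
    LL (lv (1 / 2 - s - xs) (T - ρ)) = lnA (1 / 2 - s - xs) (ρ - T) := by
  rw [LL_lv _ (by linarith only [h, h.sum]) (by linarith only [h, h.s00, h.xs0]), ← lnA_even, neg_sub]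

lemma Sd.Q_le (h : Sd B b c m s0 q0 q1 t0 t1 yl r1 xs s T ρ x y) {z : ℝ} (hz : z ≤ xs)
    (hz0 : 0 ≤ z) :
    LL (lv (1 / 2 - s - xs) (T - ρ)) ≤ lnA (((5000 - s0 : ℕ) : ℝ) / 10000 - z) (ρ - T) := by
  rw [h.Q_eq, cast_sub h.s5]
  have h2 := h.hs0
  have hm : (0 : ℝ) ≤ s0 := Nat.cast_nonneg s0
  exact lnA_mono (by linarith [h.sum]) (by linarith) (by linarith)

lemma Sd.Q_ge (h : Sd B b c m s0 q0 q1 t0 t1 yl r1 xs s T ρ x y) :
    lnA (((5000 - c : ℕ) : ℝ) / 10000) (ρ - T) ≤ LL (lv (1 / 2 - s - xs) (T - ρ)) := by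
  have h2 : ((c + 1 : ℕ) : ℝ) ≤ ((5000 : ℕ) : ℝ) := Nat.cast_le.mpr h.c5
  push_cast at h2
  rw [h.Q_eq, cast_sub h.c5]
  have h3 := h.hc
  exact lnA_mono (by linarith only [h2]) (by linarith only [h3]) (by linarith only [h, h.s00, h.xs0])

lemma Sd.B0 (h : Sd B b c m s0 q0 q1 t0 t1 yl r1 xs s T ρ x y) : 0 < B := by
  have h1 := h.hb
  have h2 : ((5 : ℕ) : ℝ) ≤ (b : ℝ) := Nat.cast_le.mpr h.b5
  push_cast at h2
  linarith only [h1, h2]

lemma Sd.bpos (h : Sd B b c m s0 q0 q1 t0 t1 yl r1 xs s T ρ x y) : (0 : ℝ) < b := by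
  have h2 : ((5 : ℕ) : ℝ) ≤ (b : ℝ) := Nat.cast_le.mpr h.b5
  push_cast at h2
  linarith only [h2]

lemma Sd.Fr_eq (h : Sd B b c m s0 q0 q1 t0 t1 yl r1 xs s T ρ x y) :
    Fr x y T ρ = An x T y ρ + Ln x T y ρ + Hb x T y ρ :=
  Fr_split (by linarith only [h, h.D.x0, h.D.y0]) (by linarith only [h, h.D.x1, h.D.y1])

lemma lam_nonneg (ln ld j : ℕ) : 0 ≤ lam ln ld j := by
  unfold lam
  positivity

/-- the hinge beyond its part -/
theorem Sd.PhA (h : Sd B b c m s0 q0 q1 t0 t1 yl r1 xs s T ρ x y)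
    (hb : B = b ∨ lam ln ld j ≤ 1) (hA : PA b w ln ld c u1 v1 u2 v2 j x T y ρ) :
    -lin u1 v1 u2 v2 x < Ph ((w : ℝ) / 2) (lam ln ld j) B xs (1 / 2 - s) T ρ x y := by
  obtain ⟨h1, h2⟩ := hA
  have hl := lam_nonneg ln ld j
  set l := lam ln ld j
  have hk := kr_nonneg h.B0 h.hy0
  have hk2 := kr_anti (y := y) h.bpos h.hb
  have hD := h.D_le
  set U := lnA (1 / 2) (T + ρ) - lnA (((5000 - c : ℕ) : ℝ) / 10000) (ρ - T)
  have hR : (1 - l) * ((w : ℝ) / 2 * Rr B y ρ) ≤ (1 - l) * ((w : ℝ) / 2 * Rr b y ρ) := by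
    rcases hb with hb | hb
    · rw [hb]
    · exact mul_le_mul_of_nonneg_left (mul_le_mul_of_nonneg_left
        (Rr_anti h.hb h.D.r0 h.D.y1) (by positivity)) (by linarith only [hb])
  have hU : l * (kr B y * Dx xs (1 / 2 - s) T ρ) ≤ l * (kr B y * U) :=
    mul_le_mul_of_nonneg_left (mul_le_mul_of_nonneg_left hD hk) hl
  unfold Ph Sp
  rw [h.Fr_eq]
  rcases le_total U 0 with hu | hu
  · have : l * (kr B y * U) ≤ 0 :=
      mul_nonpos_of_nonneg_of_nonpos hl (mul_nonpos_of_nonneg_of_nonpos hk hu)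
    linarith only [h1, hR, hU, this]
  · have : l * (kr B y * U) ≤ l * (kr b y * U) :=
      mul_le_mul_of_nonneg_left (mul_le_mul_of_nonneg_right hk2 hu) hl
    linarith only [h2, hR, hU, this]

/-- with the increment of the side, below -/
theorem Sd.PhB (h : Sd b b c m s0 q0 q1 t0 t1 yl r1 xs s T ρ x y)
    (hl1 : lam ln ld j * (4 / b) ≤ 1) (ha : s0 + a + 1 ≤ 5000)
    (hB : PB rg b w ln ld s0 a u1 v1 u2 v2 j x T y ρ) (h0 : rg = 0 → x ≤ xs)
    (h1 : rg ≠ 0 → (a : ℝ) / 10000 ≤ xs) {z : ℝ} (hz0 : rg = 0 → z = x)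
    (hz1 : rg ≠ 0 → z = (a : ℝ) / 10000) :
    -lin u1 v1 u2 v2 x < Ph ((w : ℝ) / 2) (lam ln ld j) b xs (1 / 2 - s) T ρ x y +
      dS xs (1 / 2 - s) T ρ x y - 2 * (lnA xs T - lnA z T) := by
  have hl := lam_nonneg ln ld j
  set l := lam ln ld j
  have hk := kr_nonneg h.B0 h.hy0
  have hk4 := kr_le (B := b) h.D.y1
  have hlk : l * kr b y ≤ 1 := (mul_le_mul_of_nonneg_left hk4 hl).trans hl1
  have hlk0 : 0 ≤ l * kr b y := mul_nonneg hl hk
  have hP := h.P_le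
  have e1 : Sx x y T (4 * ρ * y) = An x T y ρ - Ln x T y ρ - 2 * lnA x T := by
    unfold Sx An Ln
    rw [LL_lv _ (by linarith only [h, h.D.x0, h.D.y0]) (by linarith only [h, h.D.x1, h.D.y1]),
      LL_lv _ h.D.x0 (by linarith only [h, h.D.x1]), ← LL_lv_neg (y - x) (T - 4 * ρ * y)]
    have e1 : 4 * ρ * y = 4 * (ρ * y) := by ring
    have e2 : -(T - 4 * (ρ * y)) = 4 * (ρ * y) - T := by ring
    rw [e1, e2]
    ring
  have e2 : LL (lv xs T) = lnA xs T := LL_lv _ h.xs0 (by linarith only [h, h.xs1])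
  unfold Ph Sp dS
  rw [h.Fr_eq, e1]
  unfold Dx Sx
  rw [e2]
  set P := LL (lv (xs + (1 / 2 - s)) (T + ρ))
  have k1 : (1 + l * kr b y) * P ≤ (1 + l * kr b y) * lnA (1 / 2) (T + ρ) :=
    mul_le_mul_of_nonneg_left hP (by linarith only [hlk0])
  rcases hB with ⟨hr, hB⟩ | ⟨hr, hB⟩
  · rw [hz0 hr]
    have hQ := h.Q_le (h0 hr) h.D.x0.le
    have k2 := mul_le_mul_of_nonneg_left hQ (show 0 ≤ 1 - l * kr b y by linarith only [hlk])
    linarith only [k1, hB, k2]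
  · rw [hz1 hr]
    have hQ := h.Q_le (h1 hr) (by positivity)
    have e3 : ((5000 - s0 : ℕ) : ℝ) / 10000 - (a : ℝ) / 10000 =
        ((5000 - s0 - a : ℕ) : ℝ) / 10000 := by
      rw [Nat.cast_sub (show a ≤ 5000 - s0 by omega)]
      ring
    rw [e3] at hQ
    have k2 := mul_le_mul_of_nonneg_left hQ (show 0 ≤ 1 - l * kr b y by linarith only [hlk])
    linarith only [k1, hB, k2]

/-- with the increment of the side, above -/
theorem Sd.PhC (h : Sd b b c m s0 q0 q1 t0 t1 yl r1 xs s T ρ x y)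
    (hl1 : lam ln ld j * (4 / b) ≤ 1)
    (hB : PC rg b w ln ld c m a u1 v1 u2 v2 j x T y ρ) {z : ℝ} (hz0 : rg = 0 → z = x)
    (hz1 : rg ≠ 0 → z = (a : ℝ) / 10000) :
    -lin u1 v1 u2 v2 x < Ph ((w : ℝ) / 2) (lam ln ld j) b xs (1 / 2 - s) T ρ x y -
      dS xs (1 / 2 - s) T ρ x y - 2 * (lnA z T - lnA xs T) := by
  have hl := lam_nonneg ln ld j
  set l := lam ln ld j
  have hk := kr_nonneg h.B0 h.hy0
  have hk4 := kr_le (B := b) h.D.y1
  have hlk : l * kr b y ≤ 1 := (mul_le_mul_of_nonneg_left hk4 hl).trans hl1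
  have hlk0 : 0 ≤ l * kr b y := mul_nonneg hl hk
  have hP := h.P_ge
  have hQ := h.Q_ge
  have e1 : Sx x y T (4 * ρ * y) = An x T y ρ - Ln x T y ρ - 2 * lnA x T := by
    unfold Sx An Ln
    rw [LL_lv _ (by linarith only [h, h.D.x0, h.D.y0]) (by linarith only [h, h.D.x1, h.D.y1]),
      LL_lv _ h.D.x0 (by linarith only [h, h.D.x1]), ← LL_lv_neg (y - x) (T - 4 * ρ * y)]
    have e1 : 4 * ρ * y = 4 * (ρ * y) := by ring
    have e2 : -(T - 4 * (ρ * y)) = 4 * (ρ * y) - T := by ring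
    rw [e1, e2]
    ring
  have e2 : LL (lv xs T) = lnA xs T := LL_lv _ h.xs0 (by linarith only [h, h.xs1])
  unfold Ph Sp dS
  rw [h.Fr_eq, e1]
  unfold Dx Sx
  rw [e2]
  set P := LL (lv (xs + (1 / 2 - s)) (T + ρ))
  set Q := LL (lv (1 / 2 - s - xs) (T - ρ))
  have k1 := mul_le_mul_of_nonneg_left hP (show 0 ≤ 1 - l * kr b y by linarith only [hlk])
  have k2 := mul_le_mul_of_nonneg_left hQ (show 0 ≤ 1 + l * kr b y by linarith only [hlk0])
  rcases hB with ⟨hr, hB⟩ | ⟨hr, hB⟩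
  · rw [hz0 hr]
    linarith only [k1, k2, hB]
  · rw [hz1 hr]
    linarith only [k1, k2, hB]

end

end RQ

end Pool.Agent.Work.MP_b30479_gtS.G2

end

section

/-!
# Rings with the ring variable on the ramp, `b ≥ 5`: use of the certificates
-/

namespace Pool.Agent.Work.MP_b30479_gtS.G2

open Real Set VOL NumIs

namespace RQ

open RC
open LR (rat1 mulq1)
open RZ1 (negE enc4)

/-! ### constants -/

/-- `β π ≤ G sin (π p)` -/
def kU (be p G : ℕ) : Bool :=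
  posF ((F.mulq G 10000 (F.rat p 10000).sinPi).sub (F.mulq be 10000 F.pi))

/-- `G sin (π p) ≤ β π` -/
def kL (be p G : ℕ) : Bool :=
  posF ((F.mulq be 10000 F.pi).sub (F.mulq G 10000 (F.rat p 10000).sinPi))

/-- condition of `side_gauge` -/
def kC (be a e t : ℕ) : Bool :=
  bO (F.hyp false (F.pi.mul (F.rat t 10000))) fun sh =>
    cond (posF ((F.mulq 2 1 (F.rat e 10000).cosPi).sub (F.rat be 10000)))
      (posF (((F.rat a 10000).sinPi.sqn.mul ((F.mulq 2 1 (F.rat e 10000).cosPi).sub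
        (F.rat be 10000))).sub (F.mulq be 10000 sh.sqn))) false

lemma hε0 : ∀ i : ℕ, |(fun _ : ℕ => (0 : ℝ)) i| ≤ 1 := fun i => by simp

theorem kU_sound {be p G : ℕ} (h : kU be p G = true) :
    (be : ℝ) / 10000 * π < (G : ℝ) / 10000 * sin (π * ((p : ℝ) / 10000)) := by
  have h1 := F.Encl.mulq (n := G) (d := 10000) (by norm_num) hε0
    (F.Encl.sinPi hε0 (r4_encl p (fun _ => 0)))
  have h2 := F.Encl.mulq (n := be) (d := 10000) (by norm_num) hε0 (F.Encl.pi (fun _ => 0))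
  have := posF_spec hε0 (F.Encl.sub h1 h2) h
  push_cast at this
  linarith only [this]

theorem kL_sound {be p G : ℕ} (h : kL be p G = true) :
    (G : ℝ) / 10000 * sin (π * ((p : ℝ) / 10000)) < (be : ℝ) / 10000 * π := by
  have h1 := F.Encl.mulq (n := G) (d := 10000) (by norm_num) hε0
    (F.Encl.sinPi hε0 (r4_encl p (fun _ => 0)))
  have h2 := F.Encl.mulq (n := be) (d := 10000) (by norm_num) hε0 (F.Encl.pi (fun _ => 0))
  have := posF_spec hε0 (F.Encl.sub h2 h1) h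
  push_cast at this
  linarith only [this]

theorem kC_sound {be a e t : ℕ} (h : kC be a e t = true) :
    (be : ℝ) / 10000 * sinh (π * ((t : ℝ) / 10000)) ^ 2 ≤
      sin (π * ((a : ℝ) / 10000)) ^ 2 * (2 * cos (π * ((e : ℝ) / 10000)) - (be : ℝ) / 10000) ∧
    (be : ℝ) / 10000 ≤ 2 * cos (π * ((e : ℝ) / 10000)) := by
  obtain ⟨sh, hsh, h⟩ := bO_some h
  obtain ⟨g1, g2⟩ := cond_ff h
  have e1 := F.Encl.sinh hε0 (F.Encl.mul hε0 (F.Encl.pi (fun _ => 0)) (r4_encl t (fun _ => 0))) hsh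
  have e2 := F.Encl.sub (two_encl hε0 (F.Encl.cosPi hε0 (r4_encl e (fun _ => 0))))
    (r4_encl be (fun _ => 0))
  have e3 := F.Encl.mul hε0 (F.Encl.sqn hε0 (F.Encl.sinPi hε0 (r4_encl a (fun _ => 0)))) e2
  have e4 := F.Encl.mulq (n := be) (d := 10000) (by norm_num) hε0 (F.Encl.sqn hε0 e1)
  have p1 := posF_spec hε0 e2 g1
  have p2 := posF_spec hε0 (F.Encl.sub e3 e4) g2
  push_cast at p2
  constructor <;> linarith only [p2, p1]

/-! ### hypotheses -/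

theorem Dmn.of {B T ρ cl cp x y : ℝ} {q0 q1 : ℕ} (hA : RC.Adm B T ρ cl cp x y) (hcl : 0 < cl)
    (hcp : cp < 1 / 2) (hB : 2 < B) (hρ : 0 < ρ) (hlo : 1 ≤ q0 → (q0 : ℝ) / 10000 ≤ ρ - T)
    (hhi : ρ - T ≤ (q1 : ℝ) / 10000) : Dmn q0 q1 x T y ρ := by
  have e : 4 * ρ * y = 4 * (ρ * y) := by ring
  refine ⟨by linarith only [hcl, hA, hA.x0], by linarith only [hcp, hA, hA.x1], ?_, hA.y1, hρ, fun h => ?_, fun h => ?_, hlo,
    hhi⟩
  · have h1 := hA.y0
    have h2 : 1 / (2 * B) < 1 / 4 := by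
      apply one_div_lt_one_div_of_lt <;> linarith only [hB]
    linarith only [h1, h2]
  · rw [← e]
    exact hA.t h
  · rw [← e] at h
    exact hA.nz h

/-- the numbers of a slab `a ≤ xs ≤ e` -/
structure Nums (W : RWp) (B a e cl cp : ℝ) (b c m s0 q0 q1 t0 t1 yl r1 : ℕ) : Prop where
  b5 : 5 ≤ b
  hb : (b : ℝ) ≤ B
  hcl : 0 < cl
  hcp : cp < 1 / 2
  ha : 0 < a
  he : e < 1 / 2
  hs0 : (s0 : ℝ) / 10000 ≤ W.s0
  s5 : s0 + 1 ≤ 5000
  hc : W.c1 ≤ (c : ℝ) / 10000 ∨ e + W.s1 ≤ (c : ℝ) / 10000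
  c5 : c + 1 ≤ 5000
  m0 : e - W.s0 ≤ (m : ℝ) / 10000
  m1 : W.s1 - a ≤ (m : ℝ) / 10000
  m5 : m + 1 ≤ 5000
  ht0 : ((t0 : ℝ) - 1580) / 10000 ≤ W.t0
  ht1 : W.t1 ≤ ((t1 : ℝ) - 1580) / 10000
  hyl : (yl : ℝ) / 10000 ≤ 1 / 4 - 1 / (2 * b)
  hr1 : W.r1 ≤ (r1 : ℝ) / 10000
  lo : 1 ≤ q0 → (q0 : ℝ) / 10000 ≤ W.q0
  hi : W.q1 ≤ (q1 : ℝ) / 10000

section
variable {B : ℝ} {b c m s0 q0 q1 t0 t1 yl r1 rg w ln ld jm a u1 v1 u2 v2 u1' v1' u2' v2' j xl xh
  code : ℕ} {xs s T ρ x y cl cp : ℝ}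

theorem Sd.of {W : RWp} {a e : ℝ} (hN : Nums W B a e cl cp b c m s0 q0 q1 t0 t1 yl r1)
    (hW : W.In xs s T ρ) (ha : a ≤ xs) (he : xs ≤ e) (hA : RC.Adm B T ρ cl cp x y) :
    Sd B b c m s0 q0 q1 t0 t1 yl r1 xs s T ρ x y := by
  have b2 : ((5 : ℕ) : ℝ) ≤ (b : ℝ) := Nat.cast_le.mpr hN.b5
  push_cast at b2
  have hB := hN.hb
  have hc : xs + s ≤ (c : ℝ) / 10000 := by
    rcases hN.hc with h | h
    · exact hW.c1.trans h
    · linarith only [he, h, hW, hW.s1]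
  have hy : (yl : ℝ) / 10000 ≤ y := by
    have h1 := hA.y0
    have h2 : 1 / (2 * B) ≤ 1 / (2 * (b : ℝ)) := by
      apply one_div_le_one_div_of_le <;> linarith only [b2, hB]
    linarith only [h1, h2, hN, hN.hyl]
  refine ⟨hN.b5, hN.hb, by linarith only [ha, hN, hN.ha], by linarith only [he, hN, hN.he], hN.hs0.trans hW.s0, hN.s5, hc,
    hN.c5, abs_le.mpr ⟨by linarith only [ha, hN, hW, hN.m1, hW.s1], by linarith only [he, hN, hW, hN.m0, hW.s0]⟩, hN.m5, ?_, ?_, ?_,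
    ?_, hA.y0, Dmn.of hA hN.hcl hN.hcp (by linarith only [b2, hB]) hW.pos (fun h => (hN.lo h).trans hW.q0)
      (hW.q1.trans hN.hi)⟩
  · push_cast
    exact hN.ht0.trans hW.t0
  · push_cast
    exact hW.t1.trans hN.ht1
  · push_cast
    linarith only [hy]
  · push_cast
    linarith only [hN, hW, hN.hr1, hW.r1]

/-! ### the pieces -/

theorem lam4 (hl : 0 < ld) (hb : 0 < b) (h : j * ln * 4 ≤ ld * b) : lam ln ld j * (4 / (b : ℝ)) ≤ 1 := by
  unfold lam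
  have h1 : ((j * ln * 4 : ℕ) : ℝ) ≤ ((ld * b : ℕ) : ℝ) := Nat.cast_le.mpr h
  have h2 : (0 : ℝ) < ld := by exact_mod_cast hl
  have h3 : (0 : ℝ) < b := by exact_mod_cast hb
  rw [div_mul_div_comm, div_le_one (by positivity)]
  push_cast at h1 ⊢
  exact h1

theorem lam4' (hl : 0 < ld) (hb : 0 < b) (hj : j ≤ 3) (hj1 : jm = 0 → j = 1)
    (h : 3 * ln * 4 ≤ ld * b ∨ (jm = 0 ∧ ln * 4 ≤ ld * b)) : lam ln ld j * (4 / (b : ℝ)) ≤ 1 := by
  apply lam4 hl hb
  rcases h with h | ⟨h, h'⟩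
  · have : j * ln * 4 ≤ 3 * ln * 4 := Nat.mul_le_mul_right 4 (Nat.mul_le_mul_right ln hj)
    omega
  · rw [hj1 h, one_mul]
    exact h'

lemma xb {n : ℕ} (h : (n : ℝ) / 10000 ≤ x) : ((n : ℝ) - (0 : ℕ)) / (10000 : ℕ) ≤ x := by
  push_cast
  rwa [sub_zero]

lemma xb' {n : ℕ} (h : x ≤ (n : ℝ) / 10000) : x ≤ ((n : ℝ) - (0 : ℕ)) / (10000 : ℕ) := by
  push_cast
  rwa [sub_zero]

/-- the hinge beyond its part -/
theorem pieceP (cert : okB 10000 (tP b w ln ld jm c u1 v1 u2 v2 q0 q1) 0 1580 0 0 40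
      xl xh t0 t1 yl 2500 0 r1 code = true) (hl : 0 < ld)
    (h : Sd B b c m s0 q0 q1 t0 t1 yl r1 xs s T ρ x y) (hb : B = b ∨ (jm = 0 ∧ ln ≤ ld))
    (hx : (xl : ℝ) / 10000 ≤ x) (hx' : x ≤ (xh : ℝ) / 10000) :
    ∃ j, j ≤ 3 ∧ (jm = 0 → j = 1) ∧
      -lin u1 v1 u2 v2 x < Ph ((w : ℝ) / 2) (lam ln ld j) B xs (1 / 2 - s) T ρ x y := by
  have hb5 := h.b5
  obtain ⟨j, hj, hj1, hA⟩ := okB_sound (by norm_num) (tP_ok (by omega) hl) cert (xb hx) (xb' hx')
    h.ht0 h.ht1 h.hyl (by push_cast; linarith only [h, h.D.y1])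
    (by push_cast; linarith only [h, h.D.r0]) h.hr1 h.D
  refine ⟨j, hj, hj1, h.PhA ?_ hA⟩
  rcases hb with hb | ⟨h1, h2⟩
  · exact Or.inl hb
  · right
    rw [hj1 h1]
    unfold lam
    have h3 : (0 : ℝ) < ld := by exact_mod_cast hl
    rw [one_mul, div_le_one h3]
    exact_mod_cast h2

/-- below the saddle point, `a ≤ x ≤ e` -/
theorem pieceD0 (cert : okB 10000 (tD 0 b w ln ld jm c s0 a u1 v1 u2 v2 u1' v1' u2' v2' q0 q1)
      0 1580 0 0 40 xl xh t0 t1 yl 2500 0 r1 code = true) (hl : 0 < ld)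
    (h : Sd b b c m s0 q0 q1 t0 t1 yl r1 xs s T ρ x y)
    (h4 : 3 * ln * 4 ≤ ld * b ∨ (jm = 0 ∧ ln * 4 ≤ ld * b)) (ha : s0 + a + 1 ≤ 5000)
    (hx : (xl : ℝ) / 10000 ≤ x) (hx' : x ≤ (xh : ℝ) / 10000) (hxs : x ≤ xs) :
    ∃ j, j ≤ 3 ∧ (jm = 0 → j = 1) ∧
      (-lin u1 v1 u2 v2 x < Ph ((w : ℝ) / 2) (lam ln ld j) b xs (1 / 2 - s) T ρ x y ∨
      -lin u1' v1' u2' v2' x < Ph ((w : ℝ) / 2) (lam ln ld j) b xs (1 / 2 - s) T ρ x y +
        dS xs (1 / 2 - s) T ρ x y - 2 * (lnA xs T - lnA x T)) := by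
  have hb5 := h.b5
  obtain ⟨j, hj, hj1, hA⟩ := okB_sound (by norm_num) (tD_ok (by omega) hl) cert (xb hx) (xb' hx')
    h.ht0 h.ht1 h.hyl (by push_cast; linarith only [h, h.D.y1])
    (by push_cast; linarith only [h, h.D.r0]) h.hr1 h.D
  refine ⟨j, hj, hj1, ?_⟩
  rcases hA with hA | hA
  · exact Or.inl (h.PhA (Or.inl rfl) hA)
  · exact Or.inr (h.PhB (lam4' hl (by omega) hj hj1 h4) ha hA (fun _ => hxs)
      (fun hr => absurd rfl hr) (fun _ => rfl) (fun hr => absurd rfl hr))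

/-- below the saddle point, `x ≤ a` -/
theorem pieceD1 (cert : okB 10000 (tD 1 b w ln ld jm c s0 a u1 v1 u2 v2 u1' v1' u2' v2' q0 q1)
      0 1580 0 0 40 xl xh t0 t1 yl 2500 0 r1 code = true) (hl : 0 < ld)
    (h : Sd b b c m s0 q0 q1 t0 t1 yl r1 xs s T ρ x y)
    (h4 : 3 * ln * 4 ≤ ld * b ∨ (jm = 0 ∧ ln * 4 ≤ ld * b)) (ha : s0 + a + 1 ≤ 5000)
    (hx : (xl : ℝ) / 10000 ≤ x) (hx' : x ≤ (xh : ℝ) / 10000) (hxs : (a : ℝ) / 10000 ≤ xs) :
    ∃ j, j ≤ 3 ∧ (jm = 0 → j = 1) ∧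
      (-lin u1 v1 u2 v2 x < Ph ((w : ℝ) / 2) (lam ln ld j) b xs (1 / 2 - s) T ρ x y ∨
      -lin u1' v1' u2' v2' x < Ph ((w : ℝ) / 2) (lam ln ld j) b xs (1 / 2 - s) T ρ x y +
        dS xs (1 / 2 - s) T ρ x y - 2 * (lnA xs T - lnA ((a : ℝ) / 10000) T)) := by
  have hb5 := h.b5
  obtain ⟨j, hj, hj1, hA⟩ := okB_sound (by norm_num) (tD_ok (by omega) hl) cert (xb hx) (xb' hx')
    h.ht0 h.ht1 h.hyl (by push_cast; linarith only [h, h.D.y1])
    (by push_cast; linarith only [h, h.D.r0]) h.hr1 h.D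
  refine ⟨j, hj, hj1, ?_⟩
  rcases hA with hA | hA
  · exact Or.inl (h.PhA (Or.inl rfl) hA)
  · exact Or.inr (h.PhB (lam4' hl (by omega) hj hj1 h4) ha hA (fun hr => absurd hr one_ne_zero)
      (fun _ => hxs) (fun hr => absurd hr one_ne_zero) (fun _ => rfl))

/-- above the saddle point, `a ≤ x ≤ e` -/
theorem pieceU0 (cert : okB 10000 (tU 0 b w ln ld jm c m a u1 v1 u2 v2 u1' v1' u2' v2' q0 q1)
      0 1580 0 0 40 xl xh t0 t1 yl 2500 0 r1 code = true) (hl : 0 < ld)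
    (h : Sd b b c m s0 q0 q1 t0 t1 yl r1 xs s T ρ x y)
    (h4 : 3 * ln * 4 ≤ ld * b ∨ (jm = 0 ∧ ln * 4 ≤ ld * b))
    (hx : (xl : ℝ) / 10000 ≤ x) (hx' : x ≤ (xh : ℝ) / 10000) :
    ∃ j, j ≤ 3 ∧ (jm = 0 → j = 1) ∧
      (-lin u1 v1 u2 v2 x < Ph ((w : ℝ) / 2) (lam ln ld j) b xs (1 / 2 - s) T ρ x y ∨
      -lin u1' v1' u2' v2' x < Ph ((w : ℝ) / 2) (lam ln ld j) b xs (1 / 2 - s) T ρ x y -
        dS xs (1 / 2 - s) T ρ x y - 2 * (lnA x T - lnA xs T)) := by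
  have hb5 := h.b5
  obtain ⟨j, hj, hj1, hA⟩ := okB_sound (by norm_num) (tU_ok (by omega) hl) cert (xb hx) (xb' hx')
    h.ht0 h.ht1 h.hyl (by push_cast; linarith only [h, h.D.y1])
    (by push_cast; linarith only [h, h.D.r0]) h.hr1 h.D
  refine ⟨j, hj, hj1, ?_⟩
  rcases hA with hA | hA
  · exact Or.inl (h.PhA (Or.inl rfl) hA)
  · exact Or.inr (h.PhC (lam4' hl (by omega) hj hj1 h4) hA (fun _ => rfl)
      (fun hr => absurd rfl hr))

/-- above the saddle point, `e ≤ x` -/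
theorem pieceU1 (cert : okB 10000 (tU 1 b w ln ld jm c m a u1 v1 u2 v2 u1' v1' u2' v2' q0 q1)
      0 1580 0 0 40 xl xh t0 t1 yl 2500 0 r1 code = true) (hl : 0 < ld)
    (h : Sd b b c m s0 q0 q1 t0 t1 yl r1 xs s T ρ x y)
    (h4 : 3 * ln * 4 ≤ ld * b ∨ (jm = 0 ∧ ln * 4 ≤ ld * b))
    (hx : (xl : ℝ) / 10000 ≤ x) (hx' : x ≤ (xh : ℝ) / 10000) :
    ∃ j, j ≤ 3 ∧ (jm = 0 → j = 1) ∧
      (-lin u1 v1 u2 v2 x < Ph ((w : ℝ) / 2) (lam ln ld j) b xs (1 / 2 - s) T ρ x y ∨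
      -lin u1' v1' u2' v2' x < Ph ((w : ℝ) / 2) (lam ln ld j) b xs (1 / 2 - s) T ρ x y -
        dS xs (1 / 2 - s) T ρ x y - 2 * (lnA ((a : ℝ) / 10000) T - lnA xs T)) := by
  have hb5 := h.b5
  obtain ⟨j, hj, hj1, hA⟩ := okB_sound (by norm_num) (tU_ok (by omega) hl) cert (xb hx) (xb' hx')
    h.ht0 h.ht1 h.hyl (by push_cast; linarith only [h, h.D.y1])
    (by push_cast; linarith only [h, h.D.r0]) h.hr1 h.D
  refine ⟨j, hj, hj1, ?_⟩
  rcases hA with hA | hA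
  · exact Or.inl (h.PhA (Or.inl rfl) hA)
  · exact Or.inr (h.PhC (lam4' hl (by omega) hj hj1 h4) hA (fun hr => absurd hr one_ne_zero)
      (fun _ => rfl))

end

/-! ### combination -/

theorem dn_fin {P S α β gx gs l1 l2 gz As Az : ℝ} (h : -l1 < P ∨ -l2 < P + S - 2 * (As - Az))
    (hm : gx ≤ gs) (h1 : β * (gs - gx) ≤ α - l1) (h2 : β * (gz - gx) ≤ α - l2)
    (h3 : β * (gs - gz) ≤ 2 * (As - Az)) :
    β * |gx - gs| - α < P ∨ β * |gx - gs| - α < P + S := by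
  rw [abs_of_nonpos (by linarith only [hm]), neg_sub]
  rcases h with h | h
  · left; linarith only [h1, h]
  · right; linarith only [h2, h3, h]

theorem up_fin {P S α β gx gs l1 l2 gz As Az : ℝ} (h : -l1 < P ∨ -l2 < P - S - 2 * (Az - As))
    (hm : gs ≤ gx) (h1 : β * (gx - gs) ≤ α - l1) (h2 : β * (gx - gz) ≤ α - l2)
    (h3 : β * (gz - gs) ≤ 2 * (Az - As)) :
    β * |gx - gs| - α < P ∨ β * |gx - gs| - α < P - S := by
  rw [abs_of_nonneg (by linarith only [hm])]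
  rcases h with h | h
  · left; linarith only [h1, h]
  · right; linarith only [h2, h3, h]

theorem lin0 (x : ℝ) : lin 0 0 0 0 x = 0 := by
  unfold lin
  simp

/-! ### slopes -/

theorem gU {be p G : ℕ} (h : kU be p G = true) {x y : ℝ} (hp : 0 < p)
    (hpx : (p : ℝ) / 10000 ≤ x) (hxy : x ≤ y) (hy : y ≤ 1 / 2) :
    (be : ℝ) / 10000 * (gh y - gh x) ≤ (G : ℝ) / 10000 * (y - x) := by
  have h1 : (0 : ℝ) < p := by exact_mod_cast hp
  exact gh_up (p := (p : ℝ) / 10000) (by positivity) hpx hxy hy (kU_sound h) (by positivity)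

theorem gL {be p G : ℕ} (h : kL be p G = true) {x y : ℝ} (h0 : 0 < x) (hxy : x ≤ y)
    (hyp : y ≤ (p : ℝ) / 10000) (hp : p ≤ 5000) :
    (G : ℝ) / 10000 * (y - x) ≤ (be : ℝ) / 10000 * (gh y - gh x) := by
  have h1 : (p : ℝ) ≤ ((5000 : ℕ) : ℝ) := Nat.cast_le.mpr hp
  push_cast at h1
  exact gh_lo (p := (p : ℝ) / 10000) h0 hxy hyp (by linarith only [h1]) (kL_sound h) (by positivity)

theorem gS {be a e t : ℕ} (h : kC be a e t = true) {u v T : ℝ} (ha : 0 < a) (he : e ≤ 5000)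
    (hau : (a : ℝ) / 10000 ≤ u) (huv : u ≤ v) (hve : v ≤ (e : ℝ) / 10000)
    (hT : |T| ≤ (t : ℝ) / 10000) :
    (be : ℝ) / 10000 * (gh v - gh u) ≤ 2 * (lnA v T - lnA u T) := by
  have h1 : (e : ℝ) ≤ ((5000 : ℕ) : ℝ) := Nat.cast_le.mpr he
  have h2 : (0 : ℝ) < a := by exact_mod_cast ha
  push_cast at h1
  obtain ⟨c1, c2⟩ := kC_sound h
  exact side_gauge (a := (a : ℝ) / 10000) (e := (e : ℝ) / 10000) (by positivity) (by linarith only [h1])
    hau huv hve hT (by positivity) c1 c2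

/-! ### interior rings: `w = 1`, `lam = ln / ld` -/

section
variable {B L : ℝ} {b c m s0 q0 q1 t0 t1 yl r1 ln ld a u1 v1 u2 v2 u1' v1' u2' v2' xl xh
  code : ℕ} {xs s T ρ x y : ℝ}

theorem half1 : (((1 : ℕ) : ℝ) / 2) = 1 / 2 := by norm_num

theorem piP (cert : okB 10000 (tP b 1 ln ld 0 c u1 v1 u2 v2 q0 q1) 0 1580 0 0 40
      xl xh t0 t1 yl 2500 0 r1 code = true) (hl : 0 < ld) (hL : lam ln ld 1 = L)
    (h : Sd B b c m s0 q0 q1 t0 t1 yl r1 xs s T ρ x y) (hb : B = b ∨ ln ≤ ld)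
    (hx : (xl : ℝ) / 10000 ≤ x) (hx' : x ≤ (xh : ℝ) / 10000) :
    -lin u1 v1 u2 v2 x < Ph (1 / 2) L B xs (1 / 2 - s) T ρ x y := by
  obtain ⟨j, -, hj, hp⟩ := pieceP cert hl h (hb.imp id (fun h => ⟨rfl, h⟩)) hx hx'
  rw [hj rfl, hL, half1] at hp
  exact hp

theorem piD0 (cert : okB 10000 (tD 0 b 1 ln ld 0 c s0 a u1 v1 u2 v2 u1' v1' u2' v2' q0 q1)
      0 1580 0 0 40 xl xh t0 t1 yl 2500 0 r1 code = true) (hl : 0 < ld) (hL : lam ln ld 1 = L)
    (h : Sd b b c m s0 q0 q1 t0 t1 yl r1 xs s T ρ x y)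
    (h4 : ln * 4 ≤ ld * b) (ha : s0 + a + 1 ≤ 5000)
    (hx : (xl : ℝ) / 10000 ≤ x) (hx' : x ≤ (xh : ℝ) / 10000) (hxs : x ≤ xs) :
    -lin u1 v1 u2 v2 x < Ph (1 / 2) L b xs (1 / 2 - s) T ρ x y ∨
      -lin u1' v1' u2' v2' x < Ph (1 / 2) L b xs (1 / 2 - s) T ρ x y +
        dS xs (1 / 2 - s) T ρ x y - 2 * (lnA xs T - lnA x T) := by
  obtain ⟨j, -, hj, hp⟩ := pieceD0 cert hl h (Or.inr ⟨rfl, h4⟩) ha hx hx' hxs
  rw [hj rfl, hL, half1] at hp
  exact hp

theorem piD1 (cert : okB 10000 (tD 1 b 1 ln ld 0 c s0 a u1 v1 u2 v2 u1' v1' u2' v2' q0 q1)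
      0 1580 0 0 40 xl xh t0 t1 yl 2500 0 r1 code = true) (hl : 0 < ld) (hL : lam ln ld 1 = L)
    (h : Sd b b c m s0 q0 q1 t0 t1 yl r1 xs s T ρ x y)
    (h4 : ln * 4 ≤ ld * b) (ha : s0 + a + 1 ≤ 5000)
    (hx : (xl : ℝ) / 10000 ≤ x) (hx' : x ≤ (xh : ℝ) / 10000) (hxs : (a : ℝ) / 10000 ≤ xs) :
    -lin u1 v1 u2 v2 x < Ph (1 / 2) L b xs (1 / 2 - s) T ρ x y ∨
      -lin u1' v1' u2' v2' x < Ph (1 / 2) L b xs (1 / 2 - s) T ρ x y +
        dS xs (1 / 2 - s) T ρ x y - 2 * (lnA xs T - lnA ((a : ℝ) / 10000) T) := by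
  obtain ⟨j, -, hj, hp⟩ := pieceD1 cert hl h (Or.inr ⟨rfl, h4⟩) ha hx hx' hxs
  rw [hj rfl, hL, half1] at hp
  exact hp

theorem piU0 (cert : okB 10000 (tU 0 b 1 ln ld 0 c m a u1 v1 u2 v2 u1' v1' u2' v2' q0 q1)
      0 1580 0 0 40 xl xh t0 t1 yl 2500 0 r1 code = true) (hl : 0 < ld) (hL : lam ln ld 1 = L)
    (h : Sd b b c m s0 q0 q1 t0 t1 yl r1 xs s T ρ x y)
    (h4 : ln * 4 ≤ ld * b)
    (hx : (xl : ℝ) / 10000 ≤ x) (hx' : x ≤ (xh : ℝ) / 10000) :
    -lin u1 v1 u2 v2 x < Ph (1 / 2) L b xs (1 / 2 - s) T ρ x y ∨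
      -lin u1' v1' u2' v2' x < Ph (1 / 2) L b xs (1 / 2 - s) T ρ x y -
        dS xs (1 / 2 - s) T ρ x y - 2 * (lnA x T - lnA xs T) := by
  obtain ⟨j, -, hj, hp⟩ := pieceU0 cert hl h (Or.inr ⟨rfl, h4⟩) hx hx'
  rw [hj rfl, hL, half1] at hp
  exact hp

theorem piU1 (cert : okB 10000 (tU 1 b 1 ln ld 0 c m a u1 v1 u2 v2 u1' v1' u2' v2' q0 q1)
      0 1580 0 0 40 xl xh t0 t1 yl 2500 0 r1 code = true) (hl : 0 < ld) (hL : lam ln ld 1 = L)
    (h : Sd b b c m s0 q0 q1 t0 t1 yl r1 xs s T ρ x y)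
    (h4 : ln * 4 ≤ ld * b)
    (hx : (xl : ℝ) / 10000 ≤ x) (hx' : x ≤ (xh : ℝ) / 10000) :
    -lin u1 v1 u2 v2 x < Ph (1 / 2) L b xs (1 / 2 - s) T ρ x y ∨
      -lin u1' v1' u2' v2' x < Ph (1 / 2) L b xs (1 / 2 - s) T ρ x y -
        dS xs (1 / 2 - s) T ρ x y - 2 * (lnA ((a : ℝ) / 10000) T - lnA xs T) := by
  obtain ⟨j, -, hj, hp⟩ := pieceU1 cert hl h (Or.inr ⟨rfl, h4⟩) hx hx'
  rw [hj rfl, hL, half1] at hp
  exact hp

/-! ### rings at an end: `w = 2`, no linear term -/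

theorem half2 : (((2 : ℕ) : ℝ) / 2) = 1 := by norm_num

variable {jm : ℕ}

theorem eP (cert : okB 10000 (tP b 2 ln ld jm c 0 0 0 0 q0 q1) 0 1580 0 0 40
      xl xh t0 t1 yl 2500 0 r1 code = true) (hl : 0 < ld)
    (h : Sd B b c m s0 q0 q1 t0 t1 yl r1 xs s T ρ x y) (hb : B = b ∨ (jm = 0 ∧ ln ≤ ld))
    (hx : (xl : ℝ) / 10000 ≤ x) (hx' : x ≤ (xh : ℝ) / 10000) :
    ∃ l, 0 < Ph 1 l B xs (1 / 2 - s) T ρ x y := by
  obtain ⟨j, -, hj, hp⟩ := pieceP cert hl h hb hx hx'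
  rw [lin0, neg_zero, half2] at hp
  exact ⟨_, hp⟩

theorem eD0 (cert : okB 10000 (tD 0 b 2 ln ld jm c s0 a 0 0 0 0 0 0 0 0 q0 q1)
      0 1580 0 0 40 xl xh t0 t1 yl 2500 0 r1 code = true) (hl : 0 < ld)
    (h : Sd b b c m s0 q0 q1 t0 t1 yl r1 xs s T ρ x y)
    (h4 : 3 * ln * 4 ≤ ld * b) (ha : s0 + a + 1 ≤ 5000)
    (hx : (xl : ℝ) / 10000 ≤ x) (hx' : x ≤ (xh : ℝ) / 10000) (hxs : x ≤ xs) :
    ∃ l, 0 < Ph 1 l b xs (1 / 2 - s) T ρ x y ∨
      0 < Ph 1 l b xs (1 / 2 - s) T ρ x y + dS xs (1 / 2 - s) T ρ x y := by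
  obtain ⟨j, -, hj, hp⟩ := pieceD0 cert hl h (Or.inl h4) ha hx hx' hxs
  rw [lin0, neg_zero, half2] at hp
  refine ⟨_, hp.imp id fun hp => ?_⟩
  have := lnA_mono (t := T) h.D.x0 hxs h.xs1.le
  linarith only [hp, this]

theorem eD1 (cert : okB 10000 (tD 1 b 2 ln ld jm c s0 a 0 0 0 0 0 0 0 0 q0 q1)
      0 1580 0 0 40 xl xh t0 t1 yl 2500 0 r1 code = true) (hl : 0 < ld)
    (h : Sd b b c m s0 q0 q1 t0 t1 yl r1 xs s T ρ x y)
    (h4 : 3 * ln * 4 ≤ ld * b) (ha : s0 + a + 1 ≤ 5000) (ha0 : 0 < a)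
    (hx : (xl : ℝ) / 10000 ≤ x) (hx' : x ≤ (xh : ℝ) / 10000) (hxs : (a : ℝ) / 10000 ≤ xs) :
    ∃ l, 0 < Ph 1 l b xs (1 / 2 - s) T ρ x y ∨
      0 < Ph 1 l b xs (1 / 2 - s) T ρ x y + dS xs (1 / 2 - s) T ρ x y := by
  obtain ⟨j, -, hj, hp⟩ := pieceD1 cert hl h (Or.inl h4) ha hx hx' hxs
  rw [lin0, neg_zero, half2] at hp
  refine ⟨_, hp.imp id fun hp => ?_⟩
  have h1 : (0 : ℝ) < a := by exact_mod_cast ha0
  have := lnA_mono (t := T) (show (0 : ℝ) < (a : ℝ) / 10000 by positivity) hxs h.xs1.le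
  linarith only [hp, this]

theorem eU0 (cert : okB 10000 (tU 0 b 2 ln ld jm c m a 0 0 0 0 0 0 0 0 q0 q1)
      0 1580 0 0 40 xl xh t0 t1 yl 2500 0 r1 code = true) (hl : 0 < ld)
    (h : Sd b b c m s0 q0 q1 t0 t1 yl r1 xs s T ρ x y)
    (h4 : 3 * ln * 4 ≤ ld * b)
    (hx : (xl : ℝ) / 10000 ≤ x) (hx' : x ≤ (xh : ℝ) / 10000) (hxs : xs ≤ x) :
    ∃ l, 0 < Ph 1 l b xs (1 / 2 - s) T ρ x y ∨
      0 < Ph 1 l b xs (1 / 2 - s) T ρ x y - dS xs (1 / 2 - s) T ρ x y := by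
  obtain ⟨j, -, hj, hp⟩ := pieceU0 cert hl h (Or.inl h4) hx hx'
  rw [lin0, neg_zero, half2] at hp
  refine ⟨_, hp.imp id fun hp => ?_⟩
  have := lnA_mono (t := T) h.xs0 hxs h.D.x1.le
  linarith only [hp, this]

theorem eU1 (cert : okB 10000 (tU 1 b 2 ln ld jm c m a 0 0 0 0 0 0 0 0 q0 q1)
      0 1580 0 0 40 xl xh t0 t1 yl 2500 0 r1 code = true) (hl : 0 < ld)
    (h : Sd b b c m s0 q0 q1 t0 t1 yl r1 xs s T ρ x y)
    (h4 : 3 * ln * 4 ≤ ld * b) (ha : a ≤ 5000)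
    (hx : (xl : ℝ) / 10000 ≤ x) (hx' : x ≤ (xh : ℝ) / 10000) (hxs : xs ≤ (a : ℝ) / 10000) :
    ∃ l, 0 < Ph 1 l b xs (1 / 2 - s) T ρ x y ∨
      0 < Ph 1 l b xs (1 / 2 - s) T ρ x y - dS xs (1 / 2 - s) T ρ x y := by
  obtain ⟨j, -, hj, hp⟩ := pieceU1 cert hl h (Or.inl h4) hx hx'
  rw [lin0, neg_zero, half2] at hp
  refine ⟨_, hp.imp id fun hp => ?_⟩
  have h1 : (a : ℝ) ≤ ((5000 : ℕ) : ℝ) := Nat.cast_le.mpr ha
  push_cast at h1
  have := lnA_mono (t := T) h.xs0 hxs (show (a : ℝ) / 10000 ≤ 1 / 2 by linarith only [h1])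
  linarith only [hp, this]

end

end RQ

end Pool.Agent.Work.MP_b30479_gtS.G2

end

section

/-!
# Certificate trees with six variables

`run6 test n a0 b0 ... a5 b5 code`: bisections of the box `[a0, b0] x ... x [a5, b5]` (units
`2^(-36)`), digits of base `128`: `0, ..., 5` bisects the variable, `k + 6` is a leaf with test `k`.
-/

namespace Pool.Agent.Work.NumIs

/-- type of a leaf test -/
abbrev Tst := ℕ → ℕ → ℕ → ℕ → ℕ → ℕ → ℕ → ℕ → ℕ → ℕ → ℕ → ℕ → ℕ → Bool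

noncomputable def run6 (test : Tst) (n : ℕ) :
    ℕ → ℕ → ℕ → ℕ → ℕ → ℕ → ℕ → ℕ → ℕ → ℕ → ℕ → ℕ → ℕ → Option ℕ :=
  Nat.rec (motive := fun _ => ℕ → ℕ → ℕ → ℕ → ℕ → ℕ → ℕ → ℕ → ℕ → ℕ → ℕ → ℕ → ℕ → Option ℕ)
    (fun _ _ _ _ _ _ _ _ _ _ _ _ _ => none)
    (fun _ ih a0 b0 a1 b1 a2 b2 a3 b3 a4 b4 a5 b5 c =>
      fN (Nat.land c 127) fun d => fN (Nat.shiftRight c 7) fun c' =>
      cond (Nat.ble 6 d)
        (cond (test (Nat.sub d 6) a0 b0 a1 b1 a2 b2 a3 b3 a4 b4 a5 b5) (some c') none)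
        (cond (Nat.beq d 0)
          (fN (Nat.div (Nat.add a0 b0) 2) fun m =>
            sq2 (ih a0 m a1 b1 a2 b2 a3 b3 a4 b4 a5 b5 c') fun c'' =>
              ih m b0 a1 b1 a2 b2 a3 b3 a4 b4 a5 b5 c'')
        (cond (Nat.beq d 1)
          (fN (Nat.div (Nat.add a1 b1) 2) fun m =>
            sq2 (ih a0 b0 a1 m a2 b2 a3 b3 a4 b4 a5 b5 c') fun c'' =>
              ih a0 b0 m b1 a2 b2 a3 b3 a4 b4 a5 b5 c'')
        (cond (Nat.beq d 2)
          (fN (Nat.div (Nat.add a2 b2) 2) fun m =>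
            sq2 (ih a0 b0 a1 b1 a2 m a3 b3 a4 b4 a5 b5 c') fun c'' =>
              ih a0 b0 a1 b1 m b2 a3 b3 a4 b4 a5 b5 c'')
        (cond (Nat.beq d 3)
          (fN (Nat.div (Nat.add a3 b3) 2) fun m =>
            sq2 (ih a0 b0 a1 b1 a2 b2 a3 m a4 b4 a5 b5 c') fun c'' =>
              ih a0 b0 a1 b1 a2 b2 m b3 a4 b4 a5 b5 c'')
        (cond (Nat.beq d 4)
          (fN (Nat.div (Nat.add a4 b4) 2) fun m =>
            sq2 (ih a0 b0 a1 b1 a2 b2 a3 b3 a4 m a5 b5 c') fun c'' =>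
              ih a0 b0 a1 b1 a2 b2 a3 b3 m b4 a5 b5 c'')
          (fN (Nat.div (Nat.add a5 b5) 2) fun m =>
            sq2 (ih a0 b0 a1 b1 a2 b2 a3 b3 a4 b4 a5 m c') fun c'' =>
              ih a0 b0 a1 b1 a2 b2 a3 b3 a4 b4 m b5 c''))))))) n

lemma run6_succ (test : Tst) (n a0 b0 a1 b1 a2 b2 a3 b3 a4 b4 a5 b5 c : ℕ) :
    run6 test (n + 1) a0 b0 a1 b1 a2 b2 a3 b3 a4 b4 a5 b5 c =
      fN (Nat.land c 127) fun d => fN (Nat.shiftRight c 7) fun c' =>
      cond (Nat.ble 6 d)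
        (cond (test (Nat.sub d 6) a0 b0 a1 b1 a2 b2 a3 b3 a4 b4 a5 b5) (some c') none)
        (cond (Nat.beq d 0)
          (fN (Nat.div (Nat.add a0 b0) 2) fun m =>
            sq2 (run6 test n a0 m a1 b1 a2 b2 a3 b3 a4 b4 a5 b5 c') fun c'' =>
              run6 test n m b0 a1 b1 a2 b2 a3 b3 a4 b4 a5 b5 c'')
        (cond (Nat.beq d 1)
          (fN (Nat.div (Nat.add a1 b1) 2) fun m =>
            sq2 (run6 test n a0 b0 a1 m a2 b2 a3 b3 a4 b4 a5 b5 c') fun c'' =>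
              run6 test n a0 b0 m b1 a2 b2 a3 b3 a4 b4 a5 b5 c'')
        (cond (Nat.beq d 2)
          (fN (Nat.div (Nat.add a2 b2) 2) fun m =>
            sq2 (run6 test n a0 b0 a1 b1 a2 m a3 b3 a4 b4 a5 b5 c') fun c'' =>
              run6 test n a0 b0 a1 b1 m b2 a3 b3 a4 b4 a5 b5 c'')
        (cond (Nat.beq d 3)
          (fN (Nat.div (Nat.add a3 b3) 2) fun m =>
            sq2 (run6 test n a0 b0 a1 b1 a2 b2 a3 m a4 b4 a5 b5 c') fun c'' =>
              run6 test n a0 b0 a1 b1 a2 b2 m b3 a4 b4 a5 b5 c'')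
        (cond (Nat.beq d 4)
          (fN (Nat.div (Nat.add a4 b4) 2) fun m =>
            sq2 (run6 test n a0 b0 a1 b1 a2 b2 a3 b3 a4 m a5 b5 c') fun c'' =>
              run6 test n a0 b0 a1 b1 a2 b2 a3 b3 m b4 a5 b5 c'')
          (fN (Nat.div (Nat.add a5 b5) 2) fun m =>
            sq2 (run6 test n a0 b0 a1 b1 a2 b2 a3 b3 a4 b4 a5 m c') fun c'' =>
              run6 test n a0 b0 a1 b1 a2 b2 a3 b3 a4 b4 m b5 c'')))))) := rfl

/-- what a test has to satisfy;  -/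
def TstOk (o : ℕ) (test : Tst) (P : ℝ → ℝ → ℝ → ℝ → ℝ → ℝ → Prop) : Prop :=
  ∀ (k a0 b0 a1 b1 a2 b2 a3 b3 a4 b4 a5 b5 : ℕ) (x0 x1 x2 x3 x4 x5 : ℝ),
    Rg o a0 b0 x0 → Rg 0 a1 b1 x1 → Rg 0 a2 b2 x2 → Rg 0 a3 b3 x3 → Rg 0 a4 b4 x4 → Rg 0 a5 b5 x5 →
    test k a0 b0 a1 b1 a2 b2 a3 b3 a4 b4 a5 b5 = true → P x0 x1 x2 x3 x4 x5

theorem run6_sound {o : ℕ} {test : Tst} {P : ℝ → ℝ → ℝ → ℝ → ℝ → ℝ → Prop} (ht : TstOk o test P)
    {x0 x1 x2 x3 x4 x5 : ℝ} : ∀ (n : ℕ) {a0 b0 a1 b1 a2 b2 a3 b3 a4 b4 a5 b5 c c' : ℕ},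
    run6 test n a0 b0 a1 b1 a2 b2 a3 b3 a4 b4 a5 b5 c = some c' → Rg o a0 b0 x0 → Rg 0 a1 b1 x1 →
    Rg 0 a2 b2 x2 → Rg 0 a3 b3 x3 → Rg 0 a4 b4 x4 → Rg 0 a5 b5 x5 → P x0 x1 x2 x3 x4 x5 := by
  intro n
  induction n with
  | zero =>
    intro a0 b0 a1 b1 a2 b2 a3 b3 a4 b4 a5 b5 c c' h
    exact absurd h (by simp [run6])
  | succ n ih =>
    intro a0 b0 a1 b1 a2 b2 a3 b3 a4 b4 a5 b5 c c' h h0 h1 h2 h3 h4 h5
    rw [run6_succ, fN_eq, fN_eq] at h
    set d := Nat.land c 127 with hd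
    rcases hl : Nat.ble 6 d with _ | _
    · rw [hl, cond_false] at h
      rcases e0 : Nat.beq d 0 with _ | _
      swap
      · rw [e0, cond_true, fN_eq] at h
        obtain ⟨e, he, he'⟩ := sq2_some h
        rcases h0.split (Nat.div (Nat.add a0 b0) 2) with hs | hs
        · exact ih he hs h1 h2 h3 h4 h5
        · exact ih he' hs h1 h2 h3 h4 h5
      rw [e0, cond_false] at h
      rcases e1 : Nat.beq d 1 with _ | _
      swap
      · rw [e1, cond_true, fN_eq] at h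
        obtain ⟨e, he, he'⟩ := sq2_some h
        rcases h1.split (Nat.div (Nat.add a1 b1) 2) with hs | hs
        · exact ih he h0 hs h2 h3 h4 h5
        · exact ih he' h0 hs h2 h3 h4 h5
      rw [e1, cond_false] at h
      rcases e2 : Nat.beq d 2 with _ | _
      swap
      · rw [e2, cond_true, fN_eq] at h
        obtain ⟨e, he, he'⟩ := sq2_some h
        rcases h2.split (Nat.div (Nat.add a2 b2) 2) with hs | hs
        · exact ih he h0 h1 hs h3 h4 h5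
        · exact ih he' h0 h1 hs h3 h4 h5
      rw [e2, cond_false] at h
      rcases e3 : Nat.beq d 3 with _ | _
      swap
      · rw [e3, cond_true, fN_eq] at h
        obtain ⟨e, he, he'⟩ := sq2_some h
        rcases h3.split (Nat.div (Nat.add a3 b3) 2) with hs | hs
        · exact ih he h0 h1 h2 hs h4 h5
        · exact ih he' h0 h1 h2 hs h4 h5
      rw [e3, cond_false] at h
      rcases e4 : Nat.beq d 4 with _ | _
      swap
      · rw [e4, cond_true, fN_eq] at h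
        obtain ⟨e, he, he'⟩ := sq2_some h
        rcases h4.split (Nat.div (Nat.add a4 b4) 2) with hs | hs
        · exact ih he h0 h1 h2 h3 hs h5
        · exact ih he' h0 h1 h2 h3 hs h5
      rw [e4, cond_false, fN_eq] at h
      obtain ⟨e, he, he'⟩ := sq2_some h
      rcases h5.split (Nat.div (Nat.add a5 b5) 2) with hs | hs
      · exact ih he h0 h1 h2 h3 h4 hs
      · exact ih he' h0 h1 h2 h3 h4 hs
    · rw [hl, cond_true] at h
      rcases ht' : test (Nat.sub d 6) a0 b0 a1 b1 a2 b2 a3 b3 a4 b4 a5 b5 with _ | _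
      · rw [ht', cond_false] at h
        exact absurd h (by simp)
      · exact ht _ _ _ _ _ _ _ _ _ _ _ _ _ _ _ _ _ _ _ h0 h1 h2 h3 h4 h5 ht'

/-- the check of the box, units `1 / 10000`;  -/
noncomputable def ok6 (test : Tst) (fuel l0 h0 l1 h1 l2 h2 l3 h3 l4 h4 l5 h5 c : ℕ) : Bool :=
  let A (l : ℕ) := Nat.div (Nat.mul l 68719476736) 10000
  let B (h : ℕ) := Nat.add (Nat.div (Nat.mul h 68719476736) 10000) 2
  fN (A l0) fun a0 => fN (B h0) fun b0 => fN (A l1) fun a1 => fN (B h1) fun b1 =>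
  fN (A l2) fun a2 => fN (B h2) fun b2 => fN (A l3) fun a3 => fN (B h3) fun b3 =>
  fN (A l4) fun a4 => fN (B h4) fun b4 => fN (A l5) fun a5 => fN (B h5) fun b5 =>
  Option.rec (motive := fun _ => Bool) false (fun c => Nat.beq c 0)
    (run6 test fuel a0 b0 a1 b1 a2 b2 a3 b3 a4 b4 a5 b5 c)

/-- offset in units `2^(-36)` -/
def off (o : ℕ) : ℕ := Nat.div (Nat.add (Nat.mul o 68719476736) (Nat.sub 10000 1)) 10000

lemma off0 : off 0 = 0 := rfl

theorem ok6_sound {test : Tst} {P : ℝ → ℝ → ℝ → ℝ → ℝ → ℝ → Prop} {o : ℕ} (ht : TstOk (off o) test P)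
    {fuel l0 h0 l1 h1 l2 h2 l3 h3 l4 h4 l5 h5 c : ℕ}
    (h : ok6 test fuel l0 h0 l1 h1 l2 h2 l3 h3 l4 h4 l5 h5 c = true) {x0 x1 x2 x3 x4 x5 : ℝ}
    (p0 : ((l0 : ℝ) - o) / 10000 ≤ x0) (q0 : x0 ≤ ((h0 : ℝ) - o) / 10000)
    (p1 : (l1 : ℝ) / 10000 ≤ x1) (q1 : x1 ≤ (h1 : ℝ) / 10000)
    (p2 : (l2 : ℝ) / 10000 ≤ x2) (q2 : x2 ≤ (h2 : ℝ) / 10000)
    (p3 : (l3 : ℝ) / 10000 ≤ x3) (q3 : x3 ≤ (h3 : ℝ) / 10000)
    (p4 : (l4 : ℝ) / 10000 ≤ x4) (q4 : x4 ≤ (h4 : ℝ) / 10000)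
    (p5 : (l5 : ℝ) / 10000 ≤ x5) (q5 : x5 ≤ (h5 : ℝ) / 10000) : P x0 x1 x2 x3 x4 x5 := by
  unfold ok6 at h
  simp only [fN_eq] at h
  have e : ((10000 : ℕ) : ℝ) = 10000 := by norm_num
  have r : ∀ {l h : ℕ} {x : ℝ}, (l : ℝ) / 10000 ≤ x → x ≤ (h : ℝ) / 10000 →
      Rg 0 (Nat.div (Nat.mul l 68719476736) 10000)
        (Nat.add (Nat.div (Nat.mul h 68719476736) 10000) 2) x := by
    intro l h x a b
    have := Rg.dec (N := 10000) (l := l) (h := h) (o := 0) (by norm_num) (x := x)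
      (by rw [e, Nat.cast_zero, sub_zero]; exact a) (by rw [e, Nat.cast_zero, sub_zero]; exact b)
    exact this
  rcases hr : run6 test fuel (Nat.div (Nat.mul l0 68719476736) 10000)
    (Nat.add (Nat.div (Nat.mul h0 68719476736) 10000) 2) (Nat.div (Nat.mul l1 68719476736) 10000)
    (Nat.add (Nat.div (Nat.mul h1 68719476736) 10000) 2) (Nat.div (Nat.mul l2 68719476736) 10000)
    (Nat.add (Nat.div (Nat.mul h2 68719476736) 10000) 2) (Nat.div (Nat.mul l3 68719476736) 10000)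
    (Nat.add (Nat.div (Nat.mul h3 68719476736) 10000) 2) (Nat.div (Nat.mul l4 68719476736) 10000)
    (Nat.add (Nat.div (Nat.mul h4 68719476736) 10000) 2) (Nat.div (Nat.mul l5 68719476736) 10000)
    (Nat.add (Nat.div (Nat.mul h5 68719476736) 10000) 2) c with _ | c'
  · rw [hr] at h
    exact absurd h (by simp)
  · refine run6_sound ht fuel hr ?_ (r p1 q1) (r p2 q2) (r p3 q3) (r p4 q4) (r p5 q5)
    exact Rg.dec (N := 10000) (by norm_num) (by rw [e]; exact p0) (by rw [e]; exact q0)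

/-! ### noise -/

/-- value of the noise symbol of a variable -/
noncomputable def nzv (o a b : ℕ) (x : ℝ) : ℝ :=
  if b - (a + b) / 2 = 0 then 0 else
    (x * DR - ((((a + b) / 2 - o : ℕ) : ℝ) - ((o - (a + b) / 2 : ℕ) : ℝ))) /
      ((b - (a + b) / 2 : ℕ) : ℝ)

lemma Rg.nzv {o a b : ℕ} {x : ℝ} (h : Rg o a b x) : |nzv o a b x| ≤ 1 ∧
    x * DR - ((((a + b) / 2 - o : ℕ) : ℝ) - ((o - (a + b) / 2 : ℕ) : ℝ)) =
      ((b - (a + b) / 2 : ℕ) : ℝ) * nzv o a b x := by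
  obtain ⟨e, he, h1⟩ := h.noise
  unfold NumIs.nzv
  split_ifs with h0
  · refine ⟨by simp, ?_⟩
    rw [h1, h0]
    simp
  · have h2 : ((b - (a + b) / 2 : ℕ) : ℝ) ≠ 0 := by exact_mod_cast h0
    rw [h1, mul_div_cancel_left₀ _ h2]
    exact ⟨he, rfl⟩

/-- four noise symbols -/
def eps4 (e0 e1 e2 e3 : ℝ) (i : ℕ) : ℝ :=
  if i = 0 then e0 else if i = 1 then e1 else if i = 2 then e2 else if i = 3 then e3 else 0

lemma eps4_le {e0 e1 e2 e3 : ℝ} (h0 : |e0| ≤ 1) (h1 : |e1| ≤ 1) (h2 : |e2| ≤ 1) (h3 : |e3| ≤ 1)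
    (i : ℕ) : |eps4 e0 e1 e2 e3 i| ≤ 1 := by
  unfold eps4
  split_ifs <;> first | assumption | simp

lemma enc_v0 {o a b : ℕ} {x e1 e2 e3 : ℝ} (h : Rg o a b x) :
    (F.v0 o a b).Encl (eps4 (nzv o a b x) e1 e2 e3) x := by
  have h1 := h.nzv.2
  unfold F.Encl F.toA A.Encl F.v0
  simp only [G.ev, Nat.cast_zero, sub_zero, zero_mul, add_zero, zero_add]
  change |x * DR - ((((a + b) / 2 - o : ℕ) : ℝ) - ((o - (a + b) / 2 : ℕ) : ℝ) +
    ((b - (a + b) / 2 : ℕ) : ℝ) * nzv o a b x)| ≤ 0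
  rw [abs_nonpos_iff]
  linarith only [h1]

lemma enc_v1 {o a b : ℕ} {x e0 e2 e3 : ℝ} (h : Rg o a b x) :
    (F.v1 o a b).Encl (eps4 e0 (nzv o a b x) e2 e3) x := by
  have h1 := h.nzv.2
  unfold F.Encl F.toA A.Encl F.v1
  simp only [G.ev, Nat.cast_zero, sub_zero, zero_mul, add_zero, zero_add]
  change |x * DR - ((((a + b) / 2 - o : ℕ) : ℝ) - ((o - (a + b) / 2 : ℕ) : ℝ) +
    ((b - (a + b) / 2 : ℕ) : ℝ) * nzv o a b x)| ≤ 0
  rw [abs_nonpos_iff]
  linarith only [h1]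

lemma enc_v2 {o a b : ℕ} {x e0 e1 e3 : ℝ} (h : Rg o a b x) :
    (F.v2 o a b).Encl (eps4 e0 e1 (nzv o a b x) e3) x := by
  have h1 := h.nzv.2
  unfold F.Encl F.toA A.Encl F.v2
  simp only [G.ev, Nat.cast_zero, sub_zero, zero_mul, add_zero, zero_add]
  change |x * DR - ((((a + b) / 2 - o : ℕ) : ℝ) - ((o - (a + b) / 2 : ℕ) : ℝ) +
    ((b - (a + b) / 2 : ℕ) : ℝ) * nzv o a b x)| ≤ 0
  rw [abs_nonpos_iff]
  linarith only [h1]

lemma enc_v3 {o a b : ℕ} {x e0 e1 e2 : ℝ} (h : Rg o a b x) :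
    (F.v3 o a b).Encl (eps4 e0 e1 e2 (nzv o a b x)) x := by
  have h1 := h.nzv.2
  unfold F.Encl F.toA A.Encl F.v3
  simp only [G.ev, Nat.cast_zero, sub_zero, zero_mul, add_zero, zero_add]
  change |x * DR - ((((a + b) / 2 - o : ℕ) : ℝ) - ((o - (a + b) / 2 : ℕ) : ℝ) +
    ((b - (a + b) / 2 : ℕ) : ℝ) * nzv o a b x)| ≤ 0
  rw [abs_nonpos_iff]
  linarith only [h1]

/-- put the last two symbols into the error -/
def F.col (a : F) : F :=
  ⟨a.p, a.q, Nat.add a.r (Nat.add (Nat.add a.a2 a.b2) (Nat.add a.a3 a.b3)), a.a0, a.b0, a.a1, a.b1,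
    0, 0, 0, 0⟩

lemma F.Encl.col {a : F} {e0 e1 e2 e3 x : ℝ} (h2 : |e2| ≤ 1) (h3 : |e3| ≤ 1)
    (h : a.Encl (eps4 e0 e1 e2 e3) x) : (a.col).Encl (eps4 e0 e1 0 0) x := by
  rw [F.Encl_iff] at h ⊢
  have ab : ∀ {u v e : ℝ}, 0 ≤ u → 0 ≤ v → |e| ≤ 1 → |(u - v) * e| ≤ u + v := by
    intro u v e hu hv he
    obtain ⟨p1, p2⟩ := abs_le.mp he
    rw [abs_le]
    constructor <;> nlinarith only [hu, p1, hv, p2]
  have k2 := ab (u := (a.a2 : ℝ)) (v := a.b2) (by positivity) (by positivity) h2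
  have k3 := ab (u := (a.a3 : ℝ)) (v := a.b3) (by positivity) (by positivity) h3
  have c0 : eps4 e0 e1 e2 e3 0 = e0 := rfl
  have c1 : eps4 e0 e1 e2 e3 1 = e1 := rfl
  have c2 : eps4 e0 e1 e2 e3 2 = e2 := rfl
  have c3 : eps4 e0 e1 e2 e3 3 = e3 := rfl
  have d0 : eps4 e0 e1 0 0 0 = e0 := rfl
  have d1 : eps4 e0 e1 0 0 1 = e1 := rfl
  rw [c0, c1, c2, c3] at h
  rw [d0, d1]
  unfold F.col
  simp only [Nat.cast_zero, sub_zero, zero_mul, add_zero]
  change |x * DR - ((a.p : ℝ) - a.q + (((a.a0 : ℝ) - a.b0) * e0 + ((a.a1 : ℝ) - a.b1) * e1))| ≤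
    ((a.r + ((a.a2 + a.b2) + (a.a3 + a.b3)) : ℕ) : ℝ)
  push_cast
  have e : x * DR - ((a.p : ℝ) - a.q + (((a.a0 : ℝ) - a.b0) * e0 + ((a.a1 : ℝ) - a.b1) * e1)) =
      (x * DR - ((a.p : ℝ) - a.q + (((a.a0 : ℝ) - a.b0) * e0 + (((a.a1 : ℝ) - a.b1) * e1 +
        (((a.a2 : ℝ) - a.b2) * e2 + ((a.a3 : ℝ) - a.b3) * e3))))) +
      ((a.a2 : ℝ) - a.b2) * e2 + ((a.a3 : ℝ) - a.b3) * e3 := by ring
  rw [e]
  have := abs_add_three (x * DR - ((a.p : ℝ) - a.q + (((a.a0 : ℝ) - a.b0) * e0 +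
    (((a.a1 : ℝ) - a.b1) * e1 + (((a.a2 : ℝ) - a.b2) * e2 + ((a.a3 : ℝ) - a.b3) * e3)))))
    (((a.a2 : ℝ) - a.b2) * e2) (((a.a3 : ℝ) - a.b3) * e3)
  linarith only [h, k2, k3, this]

end Pool.Agent.Work.NumIs

end

section

/-!
# Rings on the level part: leaf tests with six variables, pieces
-/

namespace Pool.Agent.Work.MP_b30479_gtS.G2

open VOL NumIs

namespace R6

open RC
open RQ (bO bO_some cond_ff)
open LR (rat1 mulq1)
open RZ1 (negE)

/-- `LL (lv d s)`; `v = 1`: by the logarithm -/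
def lA (v : ℕ) (d s : F) (C : F → Bool) : Bool :=
  cond (Nat.beq v 0) (bO (F.lnA d s) fun z => C z)
    (bO (F.hyp false (F.pi.mul s)) fun sh =>
      bO (F.log (F.mulq 4 1 (d.sinPi.sqn.add sh.sqn))) fun l => C (F.mulq 1 2 l))

theorem lA_some {v : ℕ} {d s : F} {C : F → Bool} {ε : ℕ → ℝ} {δ σ : ℝ} (hε : ∀ i, |ε i| ≤ 1)
    (h1 : d.Encl ε δ) (h2 : s.Encl ε σ) (h : lA v d s C = true) :
    ∃ z : F, z.Encl ε (LL (lv δ σ)) ∧ C z = true := by
  unfold lA at h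
  rcases e0 : Nat.beq v 0 with _ | _
  · rw [e0, cond_false] at h
    obtain ⟨sh, hsh, h⟩ := bO_some h
    obtain ⟨l, hl, h⟩ := bO_some h
    have k1 := F.Encl.sinh hε (F.Encl.mul hε (F.Encl.pi ε) h2) hsh
    have kM : (F.mulq 4 1 (d.sinPi.sqn.add sh.sqn)).Encl ε
        (4 * (Real.sin (Real.pi * δ) ^ 2 + shq σ)) := by
      have := mulq1 (n := 4) hε (F.Encl.add (F.Encl.sqn hε (F.Encl.sinPi hε h1))
        (F.Encl.sqn hε k1))
      push_cast at this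
      exact this
    have k2 := F.Encl.mulq (n := 1) (d := 2) (by norm_num) hε (F.Encl.log hε kM hl)
    push_cast at k2
    rw [one_div_mul_eq_div, ← LL_lv_eq] at k2
    exact ⟨_, k2, h⟩
  · rw [e0, cond_true] at h
    obtain ⟨z, hz, h⟩ := bO_some h
    have k := F.Encl.lnA hε h1 h2 hz
    have e : NumIs.lnA δ σ = LL (lv δ σ) := by
      rw [LL_lv_eq]
      rfl
    rw [e] at k
    exact ⟨_, k, h⟩

/-- the gauge -/
def gF (X : F) (C : F → Bool) : Bool :=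
  bO (F.log X.sinPi) fun l1 => bO (F.log ((F.rat 1 1).add X.cosPi)) fun l2 => C (l1.sub l2)

theorem gh_eq {x : ℝ} (h0 : 0 < x) (h1 : x < 1) :
    gh x = Real.log (Real.sin (Real.pi * x)) - Real.log (1 + Real.cos (Real.pi * x)) := by
  have hp := Real.pi_pos
  have a1 : 0 < Real.cos (Real.pi * x / 2) :=
    Real.cos_pos_of_mem_Ioo ⟨by nlinarith only [hp, h0], by nlinarith only [h1, hp]⟩
  have a2 : 0 < Real.sin (Real.pi * x / 2) :=
    Real.sin_pos_of_pos_of_lt_pi (by positivity) (by nlinarith only [hp, h1])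
  have e1 : Real.sin (Real.pi * x) = 2 * Real.sin (Real.pi * x / 2) * Real.cos (Real.pi * x / 2) := by
    rw [← Real.sin_two_mul]
    congr 1
    ring
  have e2 : 1 + Real.cos (Real.pi * x) = 2 * Real.cos (Real.pi * x / 2) ^ 2 := by
    have : Real.cos (Real.pi * x) = 2 * Real.cos (Real.pi * x / 2) ^ 2 - 1 := by
      rw [← Real.cos_two_mul]
      congr 1
      ring
    rw [this]
    ring
  rw [e1, e2, ← Real.log_div (by positivity) (by positivity)]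
  unfold gh
  rw [Real.tan_eq_sin_div_cos]
  congr 1
  field_simp

theorem gF_some {X : F} {C : F → Bool} {ε : ℕ → ℝ} {x : ℝ} (hε : ∀ i, |ε i| ≤ 1)
    (h1 : X.Encl ε x) (h0 : 0 < x) (h2 : x < 1) (h : gF X C = true) :
    ∃ z : F, z.Encl ε (gh x) ∧ C z = true := by
  obtain ⟨l1, hl1, h⟩ := bO_some h
  obtain ⟨l2, hl2, h⟩ := bO_some h
  have k1 := F.Encl.log hε (F.Encl.sinPi hε h1) hl1
  have k2 : ((F.rat 1 1).add X.cosPi).Encl ε (1 + Real.cos (Real.pi * x)) := by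
    have := F.Encl.add (rat1 1 ε) (F.Encl.cosPi hε h1)
    rwa [Nat.cast_one] at this
  have k3 := F.Encl.log hε k2 hl2
  refine ⟨_, ?_, h⟩
  rw [gh_eq h0 h2]
  exact F.Encl.sub k1 k3

/-- `PP u s` -/
def pF (u s : F) (C : F → Bool) : Bool :=
  bO (F.hyp false (F.pi.mul s)) fun sh => bO (F.inv (u.sinPi.sqn.add sh.sqn)) fun iv =>
    C (F.mulq 1 2 ((u.add u).sinPi.mul iv))

theorem pF_some {u s : F} {C : F → Bool} {ε : ℕ → ℝ} {x t : ℝ} (hε : ∀ i, |ε i| ≤ 1)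
    (h1 : u.Encl ε x) (h2 : s.Encl ε t) (h : pF u s C = true) :
    ∃ z : F, z.Encl ε (NumIs.PP x t) ∧ C z = true := by
  obtain ⟨sh, hsh, h⟩ := bO_some h
  obtain ⟨iv, hiv, h⟩ := bO_some h
  have k1 := F.Encl.sinh hε (F.Encl.mul hε (F.Encl.pi ε) h2) hsh
  have kM := F.Encl.add (F.Encl.sqn hε (F.Encl.sinPi hε h1)) (F.Encl.sqn hε k1)
  have k2 := F.Encl.inv hε kM hiv
  have k3 := F.Encl.mulq (n := 1) (d := 2) (by norm_num) hε
    (F.Encl.mul hε (F.Encl.sinPi hε (F.Encl.add h1 h1)) k2)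
  refine ⟨_, ?_, h⟩
  convert k3 using 1
  unfold NumIs.PP NumIs.MM
  rw [show Real.pi * (x + x) = 2 * (Real.pi * x) by ring, Real.sin_two_mul]
  push_cast
  rw [div_eq_mul_inv]
  ring

/-- the numbers `10 κ` -/
def kap (j : ℕ) : ℕ := Nat.land (Nat.shiftRight 0xffff50322e28241e19140e0a060300 (Nat.mul 8 j)) 255

/-- combination at a point -/
def phF (up : Bool) (j mu : ℕ) (P Q R g : F) : F :=
  cond up
    ((((F.mulq (kap j) 10 (P.sub Q)).add (R.add R)).add (F.mulq mu 1000 g)).sub (P.add Q))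
    (((P.add Q).add (F.mulq (kap j) 10 (P.sub Q))).sub ((R.add R).add (F.mulq mu 1000 g)))

/-- its value; `j = 15`: only the contribution -/
noncomputable def phv (up : Bool) (j mu : ℕ) (x y T ρ : ℝ) : ℝ :=
  if j = 15 then Dx x y T ρ else
    (bif up then -Sx x y T ρ + (kap j : ℝ) / 10 * Dx x y T ρ + (mu : ℝ) / 1000 * gh x
    else Sx x y T ρ + (kap j : ℝ) / 10 * Dx x y T ρ - (mu : ℝ) / 1000 * gh x)

theorem phF_encl {up : Bool} {j mu : ℕ} {P Q R g : F} {ε : ℕ → ℝ} {x y T ρ : ℝ}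
    (hε : ∀ i, |ε i| ≤ 1) (hj : j ≠ 15) (hP : P.Encl ε (LL (lv (x + y) (T + ρ))))
    (hQ : Q.Encl ε (LL (lv (y - x) (T - ρ)))) (hR : R.Encl ε (LL (lv x T)))
    (hg : g.Encl ε (gh x)) : (phF up j mu P Q R g).Encl ε (phv up j mu x y T ρ) := by
  unfold phF phv
  rw [if_neg hj]
  have k1 := F.Encl.mulq (n := kap j) (d := 10) (by norm_num) hε (F.Encl.sub hP hQ)
  have k2 := F.Encl.add hR hR
  have k3 := F.Encl.mulq (n := mu) (d := 1000) (by norm_num) hε hg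
  have k4 := F.Encl.add hP hQ
  push_cast at k1 k3
  rcases up with _ | _
  · rw [cond_false, cond_false]
    convert F.Encl.sub (F.Encl.add k4 k1) (F.Encl.add k2 k3) using 1
    unfold Sx Dx
    ring
  · rw [cond_true, cond_true]
    convert F.Encl.sub (F.Encl.add (F.Encl.add k1 k2) k3) k4 using 1
    unfold Sx Dx
    ring

/-- combination and gauge at a point; `z`: the gauge is not needed -/
def evF (up : Bool) (j v mu : ℕ) (z : Bool) (T R X Y : F) (C : F → F → Bool) : Bool :=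
  lA 0 (X.add Y) (T.add R) fun P => lA v (Y.sub X) (T.sub R) fun Q =>
    cond (Nat.beq j 15) (cond z (C (P.sub Q) fz) (gF X fun g => C (P.sub Q) g))
      (bO (F.lnA X T) fun L => cond z (C (phF up j 0 P Q L fz) fz)
        (gF X fun g => C (phF up j mu P Q L g) g))

theorem evF_some {up : Bool} {j v mu : ℕ} {z : Bool} {T R X Y : F} {C : F → F → Bool} {ε : ℕ → ℝ}
    {t r x y : ℝ} (hε : ∀ i, |ε i| ≤ 1) (hT : T.Encl ε t) (hR : R.Encl ε r) (hX : X.Encl ε x)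
    (hY : Y.Encl ε y) (h0 : 0 < x) (h1 : x < 1) (hz : z = true → mu = 0)
    (h : evF up j v mu z T R X Y C = true) :
    ∃ Φ g : F, Φ.Encl ε (phv up j mu x y t r) ∧ (z = false → g.Encl ε (gh x)) ∧
      C Φ g = true := by
  obtain ⟨P, hP, h⟩ := lA_some hε (F.Encl.add hX hY) (F.Encl.add hT hR) h
  obtain ⟨Q, hQ, h⟩ := lA_some hε (F.Encl.sub hY hX) (F.Encl.sub hT hR) h
  rcases e : Nat.beq j 15 with _ | _
  · rw [e, cond_false] at h
    have hj : j ≠ 15 := by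
      rintro rfl
      exact absurd e (by decide)
    obtain ⟨L, hL, k⟩ := bO_some h
    clear h
    have kL := F.Encl.lnA hε hX hT hL
    have eL : NumIs.lnA x t = LL (lv x t) := by
      rw [LL_lv_eq]
      rfl
    rw [eL] at kL
    rcases z with _ | _
    · simp only [cond_false] at k
      obtain ⟨g, hg, h⟩ := gF_some hε hX h0 h1 k
      exact ⟨_, _, phF_encl hε hj hP hQ kL hg, fun _ => hg, h⟩
    · simp only [cond_true] at k
      have hmu := hz rfl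
      subst hmu
      refine ⟨_, _, ?_, fun h => absurd h (by decide), k⟩
      unfold phF phv
      rw [if_neg hj]
      have k1 := F.Encl.mulq (n := kap j) (d := 10) (by norm_num) hε (F.Encl.sub hP hQ)
      have k2 := F.Encl.add kL kL
      have k3 := F.Encl.mulq (n := 0) (d := 1000) (by norm_num) hε (fz_encl ε)
      have k4 := F.Encl.add hP hQ
      push_cast at k1 k3
      rcases up with _ | _
      · rw [cond_false, cond_false]
        convert F.Encl.sub (F.Encl.add k4 k1) (F.Encl.add k2 k3) using 1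
        unfold Sx Dx
        push_cast
        ring
      · rw [cond_true, cond_true]
        convert F.Encl.sub (F.Encl.add (F.Encl.add k1 k2) k3) k4 using 1
        unfold Sx Dx
        push_cast
        ring
  · rw [e, cond_true] at h
    have hj : j = 15 := Nat.eq_of_beq_eq_true e
    have key : (P.sub Q).Encl ε (phv up j mu x y t r) := by
      unfold phv
      rw [if_pos hj]
      exact F.Encl.sub hP hQ
    rcases z with _ | _
    · rw [cond_false] at h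
      obtain ⟨g, hg, h⟩ := gF_some hε hX h0 h1 h
      exact ⟨_, _, key, fun _ => hg, h⟩
    · rw [cond_true] at h
      exact ⟨_, _, key, fun h => absurd h (by decide), h⟩

/-! ### products of values of `tan (π x / 2)` -/

/-- a point -/
def pt (u : ℕ) : F := ⟨u, 0, 0, 0, 0, 0, 0, 0, 0, 0, 0⟩

lemma pt_encl (u : ℕ) (ε : ℕ → ℝ) : (pt u).Encl ε ((u : ℝ) / DR) := by
  rw [F.Encl_iff]
  unfold pt
  simp only [Nat.cast_zero, sub_zero, zero_mul, add_zero]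
  rw [div_mul_cancel₀ _ DR_pos.ne']
  simp

/-- `tan (π v1 / 2) tan (π v2 / 2) < n / d tan (π u1 / 2) tan (π u2 / 2)` -/
def tq (n d u1 u2 v1 v2 : ℕ) : Bool :=
  posF ((F.mulq n d (((pt u1).sinPi.mul (pt u2).sinPi).mul
    (((F.rat 1 1).add (pt v1).cosPi).mul ((F.rat 1 1).add (pt v2).cosPi)))).sub
    (((pt v1).sinPi.mul (pt v2).sinPi).mul
    (((F.rat 1 1).add (pt u1).cosPi).mul ((F.rat 1 1).add (pt u2).cosPi))))

theorem ta_eq {x : ℝ} (h0 : 0 < x) (h1 : x < 1) :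
    ta x = Real.sin (Real.pi * x) / (1 + Real.cos (Real.pi * x)) ∧
      0 < 1 + Real.cos (Real.pi * x) := by
  have hp := Real.pi_pos
  have a1 : 0 < Real.cos (Real.pi * x / 2) :=
    Real.cos_pos_of_mem_Ioo ⟨by nlinarith only [hp, h0], by nlinarith only [h1, hp]⟩
  have e1 : Real.sin (Real.pi * x) = 2 * Real.sin (Real.pi * x / 2) * Real.cos (Real.pi * x / 2) := by
    rw [← Real.sin_two_mul]
    congr 1
    ring
  have e2 : 1 + Real.cos (Real.pi * x) = 2 * Real.cos (Real.pi * x / 2) ^ 2 := by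
    have : Real.cos (Real.pi * x) = 2 * Real.cos (Real.pi * x / 2) ^ 2 - 1 := by
      rw [← Real.cos_two_mul]
      congr 1
      ring
    rw [this]
    ring
  rw [e1, e2]
  constructor
  · unfold ta
    rw [Real.tan_eq_sin_div_cos]
    field_simp
  · positivity

theorem ta_mono {x y : ℝ} (h0 : 0 < x) (h : x ≤ y) (h1 : y < 1) : ta x ≤ ta y := by
  rw [ta_eq_exp ⟨h0, by linarith only [h, h1]⟩, ta_eq_exp ⟨by linarith only [h0, h], h1⟩]
  exact Real.exp_le_exp.2 (strictMonoOn_gh.monotoneOn ⟨h0, by linarith only [h, h1]⟩ ⟨by linarith only [h0, h], h1⟩ h)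

theorem tq_spec {n d u1 u2 v1 v2 : ℕ} (hd : 0 < d) {a1 a2 b1 b2 : ℝ} (h1 : (u1 : ℝ) ≤ a1 * DR)
    (h2 : (u2 : ℝ) ≤ a2 * DR) (h3 : b1 * DR ≤ v1) (h4 : b2 * DR ≤ v2) (k1 : 0 < u1) (k2 : 0 < u2)
    (g1 : a1 < 1) (g2 : a2 < 1) (g3 : 0 < b1) (g4 : 0 < b2) (e3 : v1 < 68719476736)
    (e4 : v2 < 68719476736) (h : tq n d u1 u2 v1 v2 = true) :
    ta b1 * ta b2 < (n : ℝ) / d * (ta a1 * ta a2) := by
  have hD := DR_pos
  have hDv : DR = 68719476736 := rfl
  have z : ∀ i : ℕ, |(fun _ : ℕ => (0 : ℝ)) i| ≤ 1 := by intro i; simp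
  have c1 : ((F.rat 1 1)).Encl (fun _ => 0) 1 := by
    have := rat1 1 (fun _ => 0)
    rwa [Nat.cast_one] at this
  have k := posF_spec z (F.Encl.sub (F.Encl.mulq (n := n) (d := d) hd z
    (F.Encl.mul z (F.Encl.mul z (F.Encl.sinPi z (pt_encl u1 _)) (F.Encl.sinPi z (pt_encl u2 _)))
    (F.Encl.mul z (F.Encl.add c1 (F.Encl.cosPi z (pt_encl v1 _)))
      (F.Encl.add c1 (F.Encl.cosPi z (pt_encl v2 _))))))
    (F.Encl.mul z (F.Encl.mul z (F.Encl.sinPi z (pt_encl v1 _)) (F.Encl.sinPi z (pt_encl v2 _)))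
    (F.Encl.mul z (F.Encl.add c1 (F.Encl.cosPi z (pt_encl u1 _)))
      (F.Encl.add c1 (F.Encl.cosPi z (pt_encl u2 _)))))) h
  have hn : (0 : ℝ) ≤ (n : ℝ) / d := by positivity
  have i1 : (0 : ℝ) < (u1 : ℝ) / DR := by positivity
  have i2 : (0 : ℝ) < (u2 : ℝ) / DR := by positivity
  have j1 : (u1 : ℝ) / DR ≤ a1 := by rwa [div_le_iff₀ hD]
  have j2 : (u2 : ℝ) / DR ≤ a2 := by rwa [div_le_iff₀ hD]
  have j3 : b1 ≤ (v1 : ℝ) / DR := by rwa [le_div_iff₀ hD]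
  have j4 : b2 ≤ (v2 : ℝ) / DR := by rwa [le_div_iff₀ hD]
  have l3 : (v1 : ℝ) / DR < 1 := by
    rw [div_lt_one hD, hDv]
    exact_mod_cast e3
  have l4 : (v2 : ℝ) / DR < 1 := by
    rw [div_lt_one hD, hDv]
    exact_mod_cast e4
  obtain ⟨t1, p1⟩ := ta_eq i1 (by linarith only [g1, j1])
  obtain ⟨t2, p2⟩ := ta_eq i2 (by linarith only [g2, j2])
  obtain ⟨t3, p3⟩ := ta_eq (by linarith only [g3, j3]) l3
  obtain ⟨t4, p4⟩ := ta_eq (by linarith only [g4, j4]) l4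
  have m1 : ta ((u1 : ℝ) / DR) ≤ ta a1 := ta_mono i1 j1 g1
  have m2 : ta ((u2 : ℝ) / DR) ≤ ta a2 := ta_mono i2 j2 g2
  have m3 : ta b1 ≤ ta ((v1 : ℝ) / DR) := ta_mono g3 j3 l3
  have m4 : ta b2 ≤ ta ((v2 : ℝ) / DR) := ta_mono g4 j4 l4
  have q1 : 0 < ta ((u1 : ℝ) / DR) := ta_pos ⟨i1, by linarith only [g1, j1]⟩
  have q2 : 0 < ta ((u2 : ℝ) / DR) := ta_pos ⟨i2, by linarith only [g2, j2]⟩
  have q3 : 0 < ta b1 := ta_pos ⟨g3, by linarith only [j3, l3]⟩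
  have q4 : 0 < ta b2 := ta_pos ⟨g4, by linarith only [j4, l4]⟩
  have r1 : ta b1 * ta b2 ≤ ta ((v1 : ℝ) / DR) * ta ((v2 : ℝ) / DR) :=
    mul_le_mul m3 m4 q4.le (q3.le.trans m3)
  have r2 : ta ((u1 : ℝ) / DR) * ta ((u2 : ℝ) / DR) ≤ ta a1 * ta a2 :=
    mul_le_mul m1 m2 q2.le (q1.le.trans m1)
  have r3 : ta ((v1 : ℝ) / DR) * ta ((v2 : ℝ) / DR) <
      (n : ℝ) / d * (ta ((u1 : ℝ) / DR) * ta ((u2 : ℝ) / DR)) := by
    rw [t1, t2, t3, t4]
    generalize Real.sin (Real.pi * ((u1 : ℝ) / DR)) = w1 at *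
    generalize Real.sin (Real.pi * ((u2 : ℝ) / DR)) = w2 at *
    generalize Real.sin (Real.pi * ((v1 : ℝ) / DR)) = w3 at *
    generalize Real.sin (Real.pi * ((v2 : ℝ) / DR)) = w4 at *
    generalize 1 + Real.cos (Real.pi * ((u1 : ℝ) / DR)) = y1 at *
    generalize 1 + Real.cos (Real.pi * ((u2 : ℝ) / DR)) = y2 at *
    generalize 1 + Real.cos (Real.pi * ((v1 : ℝ) / DR)) = y3 at *
    generalize 1 + Real.cos (Real.pi * ((v2 : ℝ) / DR)) = y4 at *
    rw [div_mul_div_comm, div_mul_div_comm, ← mul_div_assoc,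
      div_lt_div_iff₀ (by positivity) (by positivity)]
    linarith only [k]
  calc ta b1 * ta b2 ≤ _ := r1
    _ < _ := r3
    _ ≤ _ := by gcongr

end R6

end Pool.Agent.Work.MP_b30479_gtS.G2

end

section

/-!
# Rings on the level part: mean value along the gauge curves
-/

namespace Pool.Agent.Work.MP_b30479_gtS.G2

open Set VOL NumIs

namespace R6

open RC

theorem Nz_of_ne {x y T ρ : ℝ} (h : 0 < x + y) (h1 : x + y < 1) (hx : 0 < x)
    (ht : T < ρ ∨ x < y) : Nz x y T ρ := by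
  refine ⟨lv_sin_ne h h1, ?_⟩
  rcases ht with ht | ht
  · refine sin_ne_of_im ?_
    rw [lv_im]
    linarith only [ht]
  · exact lv_sin_ne (by linarith only [ht]) (by linarith only [h1, hx])

/-- derivative of the combination in the displacement of the hinge -/
noncomputable def BB (up : Bool) (j mu : ℕ) (x y T ρ : ℝ) : ℝ :=
  if j = 15 then (bif up then DA x y T ρ else -DA x y T ρ) else
    (bif up then (kap j : ℝ) / 10 * DA x y T ρ - SA x y T ρ + (mu : ℝ) / 1000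
    else (mu : ℝ) / 1000 - (SA x y T ρ + (kap j : ℝ) / 10 * DA x y T ρ))

/-- derivative of the combination in the displacement of the ring variable -/
noncomputable def EE (up : Bool) (j : ℕ) (x y T ρ : ℝ) : ℝ :=
  if j = 15 then DB x y T ρ else
    (bif up then (kap j : ℝ) / 10 * DB x y T ρ - SB x y T ρ
    else SB x y T ρ + (kap j : ℝ) / 10 * DB x y T ρ)

/-- displacement of the hinge -/
noncomputable def mm (up : Bool) (xs x : ℝ) : ℝ := bif up then gh x - gh xs else gh xs - gh x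

theorem hasDerivAt_phv {up : Bool} {j mu : ℕ} {X Y : ℝ → ℝ} {θ m n T ρ : ℝ}
    (hX : HasDerivAt X ((bif up then m else -m) * (Real.sin (Real.pi * X θ) / Real.pi)) θ)
    (hY : HasDerivAt Y (n * (Real.sin (Real.pi * Y θ) / Real.pi)) θ)
    (hg : HasDerivAt (fun θ => gh (X θ)) (bif up then m else -m) θ)
    (h0 : X θ ∈ Ioo (0 : ℝ) 1) (hn : Nz (X θ) (Y θ) T ρ) :
    HasDerivAt (fun θ => phv up j mu (X θ) (Y θ) T ρ)
      (m * BB up j mu (X θ) (Y θ) T ρ + n * EE up j (X θ) (Y θ) T ρ) θ := by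
  have h1 := hasDerivAt_Sx hX hY h0 hn
  have h2 := hasDerivAt_Dx hX hY hn
  unfold phv BB EE
  by_cases hj : j = 15
  · simp only [if_pos hj]
    refine h2.congr_deriv ?_
    rcases up with _ | _
    · simp only [cond_false]
      ring
    · simp only [cond_true]
  · simp only [if_neg hj]
    rcases up with _ | _
    · simp only [cond_false] at h1 h2 hg ⊢
      refine ((h1.add (h2.const_mul ((kap j : ℝ) / 10))).sub
        (hg.const_mul ((mu : ℝ) / 1000))).congr_deriv ?_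
      ring
    · simp only [cond_true] at h1 h2 hg ⊢
      refine ((h1.neg.add (h2.const_mul ((kap j : ℝ) / 10))).add
        (hg.const_mul ((mu : ℝ) / 1000))).congr_deriv ?_
      ring

/-- **Mean value along the gauge curve.** -/
theorem phv_lt (ν : ℝ) {up : Bool} {j mu : ℕ} {xs ys x y T ρ : ℝ} (h1 : 0 < xs) (h2 : xs < 1 / 2)
    (h3 : 0 < ys) (h4 : ys ≤ 1 / 2) (h5 : 0 < x) (h6 : x < 1 / 2) (h7 : 0 < y) (h8 : y ≤ 1 / 2)
    (ht : T < ρ ∨ max xs x < min ys y) (H : ∀ X Y, min xs x ≤ X → X ≤ max xs x → min ys y ≤ Y → Y ≤ max ys y →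
      0 < mm up xs x * (BB up j mu X Y T ρ - ν) + (gh y - gh ys) * EE up j X Y T ρ) :
    ν * mm up xs x < phv up j mu x y T ρ - phv up j mu xs ys T ρ := by
  have a1 : xs ∈ Ioo (0 : ℝ) 1 := ⟨h1, by linarith only [h1, h2]⟩
  have a2 : ys ∈ Ioo (0 : ℝ) 1 := ⟨h3, by linarith only [h1, h2, h4]⟩
  have a3 : x ∈ Ioo (0 : ℝ) 1 := ⟨h5, by linarith only [h1, h2, h6]⟩
  have a4 : y ∈ Ioo (0 : ℝ) 1 := ⟨h7, by linarith only [h1, h2, h8]⟩
  have bt : ∀ {a b θ : ℝ}, a ∈ Ioo (0 : ℝ) 1 → b ∈ Ioo (0 : ℝ) 1 → 0 ≤ θ → θ ≤ 1 →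
      min a b ≤ gc a b θ ∧ gc a b θ ≤ max a b := by
    intro a b θ ha hb t0 t1
    rcases le_total a b with h | h
    · have := gc_mem_Icc ha hb h t0 t1
      rw [min_eq_left h, max_eq_right h]
      exact ⟨this.1, this.2⟩
    · have := gc_mem_Icc' ha hb h t0 t1
      rw [min_eq_right h, max_eq_left h]
      exact ⟨this.1, this.2⟩
  set f : ℝ → ℝ := fun θ => phv up j mu (gc xs x θ) (gc ys y θ) T ρ - θ * (ν * mm up xs x) with hf
  set f' : ℝ → ℝ := fun θ => mm up xs x * BB up j mu (gc xs x θ) (gc ys y θ) T ρ +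
    (gh y - gh ys) * EE up j (gc xs x θ) (gc ys y θ) T ρ - 1 * (ν * mm up xs x) with hf'
  have hd : ∀ θ ∈ Icc (0 : ℝ) 1, HasDerivAt f (f' θ) θ := by
    intro θ hθ
    obtain ⟨b1, b2⟩ := bt a1 a3 hθ.1 hθ.2
    obtain ⟨b3, b4⟩ := bt a2 a4 hθ.1 hθ.2
    have c1 : (bif up then mm up xs x else -mm up xs x) = gh x - gh xs := by
      unfold mm
      rcases up with _ | _
      · simp only [cond_false]
        ring
      · simp only [cond_true]
    have d1 := hasDerivAt_gc xs x θ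
    have d2 := hasDerivAt_gc ys y θ
    have d3 : HasDerivAt (fun θ => gh (gc xs x θ)) (gh x - gh xs) θ := by
      have e : (fun θ => gh (gc xs x θ)) = fun θ => (1 - θ) * gh xs + θ * gh x := by
        funext τ
        unfold gc
        rw [gh_ghi]
      rw [e]
      refine (((hasDerivAt_id' θ).const_sub 1).mul_const (gh xs)).add
        ((hasDerivAt_id' θ).mul_const (gh x)) |>.congr_deriv ?_
      ring
    rw [← c1] at d1 d3
    have g0 := gc_mem xs x θ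
    have g1 := gc_mem ys y θ
    refine (hasDerivAt_phv d1 d2 d3 g0 (Nz_of_ne (add_pos g0.1 g1.1) ?_ g0.1
      (ht.imp id fun h => by linarith only [b2, b3, h]))).sub
      ((hasDerivAt_id' θ).mul_const (ν * mm up xs x))
    have e1 : max xs x < 1 / 2 := max_lt h2 h6
    have e2 : max ys y ≤ 1 / 2 := max_le h4 h8
    linarith only [b2, b4, e1, e2]
  have hc : ContinuousOn f (Icc 0 1) := fun θ hθ => (hd θ hθ).continuousAt.continuousWithinAt
  obtain ⟨θ, hθ, h⟩ := exists_hasDerivAt_eq_slope f f' zero_lt_one hc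
    (fun θ hθ => hd θ ⟨hθ.1.le, hθ.2.le⟩)
  obtain ⟨b1, b2⟩ := bt a1 a3 hθ.1.le hθ.2.le
  obtain ⟨b3, b4⟩ := bt a2 a4 hθ.1.le hθ.2.le
  have hp := H _ _ b1 b2 b3 b4
  have e0 : f 0 = phv up j mu xs ys T ρ := by
    simp only [hf, gc_zero a1, gc_zero a2]
    ring
  have e1 : f 1 = phv up j mu x y T ρ - ν * mm up xs x := by
    simp only [hf, gc_one a3, gc_one a4]
    ring
  rw [sub_zero, div_one, e0, e1] at h
  have e2 : f' θ = mm up xs x * (BB up j mu (gc xs x θ) (gc ys y θ) T ρ - ν) +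
      (gh y - gh ys) * EE up j (gc xs x θ) (gc ys y θ) T ρ := by
    simp only [hf']
    ring
  rw [← e2, h] at hp
  linarith only [hp]

theorem comb_W {m n B E : ℝ} (hm : 0 < m) (hn : |n| ≤ m) (h1 : 0 < B + E) (h2 : 0 < B - E) :
    0 < m * B + n * E := by
  obtain ⟨a, b⟩ := abs_le.mp hn
  have e : m * B + n * E = (m + n) / 2 * (B + E) + (m - n) / 2 * (B - E) := by ring
  rw [e]
  rcases (show -m ≤ n by linarith only [a]).lt_or_eq with h | h
  · have : 0 < (m + n) / 2 * (B + E) := mul_pos (by linarith only [h]) h1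
    have : 0 ≤ (m - n) / 2 * (B - E) := mul_nonneg (by linarith only [b]) h2.le
    linarith
  · have : 0 ≤ (m + n) / 2 * (B + E) := mul_nonneg (by linarith only [a]) h1.le
    have : 0 < (m - n) / 2 * (B - E) := mul_pos (by linarith only [hm, h]) h2
    linarith

theorem comb_D {m n B E : ℝ} (hm : 0 ≤ m) (hn : m < -n) (h1 : 0 < B - E) (h2 : 0 < -E) :
    0 < m * B + n * E := by
  have e : m * B + n * E = m * (B - E) + (-n - m) * (-E) := by ring
  rw [e]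
  have : 0 ≤ m * (B - E) := mul_nonneg hm h1.le
  have : 0 < (-n - m) * (-E) := mul_pos (by linarith only [hn]) h2
  linarith

/-! ### forms of the derivatives -/

open RQ (bO bO_some cond_ff)
open LR (rat1 mulq1)
open RZ1 (negE)

/-- derivative in the displacement of the hinge -/
def bF (up : Bool) (j mu : ℕ) (a b r : F) : F :=
  cond (Nat.beq j 15) (cond up (a.add b) (a.add b).neg)
    (cond up
      (((F.mulq (kap j) 10 (a.add b)).add ((b.add (r.add r)).add (F.rat mu 1000))).sub a)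
      (((b.add (r.add r)).add (F.rat mu 1000)).sub (a.add (F.mulq (kap j) 10 (a.add b)))))

/-- derivative in the displacement of the ring variable -/
def eF (up : Bool) (j : ℕ) (a b : F) : F :=
  cond (Nat.beq j 15) (a.sub b)
    (cond up ((F.mulq (kap j) 10 (a.sub b)).sub (a.add b))
      ((a.add b).add (F.mulq (kap j) 10 (a.sub b))))

theorem bF_encl {up : Bool} {j mu : ℕ} {a b r : F} {ε : ℕ → ℝ} {x y T ρ : ℝ}
    (hε : ∀ i, |ε i| ≤ 1) (ha : a.Encl ε (Real.sin (Real.pi * x) * NumIs.PP (x + y) (T + ρ)))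
    (hb : b.Encl ε (Real.sin (Real.pi * x) * NumIs.PP (y - x) (T - ρ)))
    (hr : r.Encl ε (Real.sin (Real.pi * x) * NumIs.PP x T)) :
    (bF up j mu a b r).Encl ε (BB up j mu x y T ρ) := by
  unfold bF BB
  rcases e : Nat.beq j 15 with _ | _
  · have hj : j ≠ 15 := by
      rintro rfl
      exact absurd e (by decide)
    rw [if_neg hj, cond_false]
    have k1 := F.Encl.mulq (n := kap j) (d := 10) (by norm_num) hε (F.Encl.add ha hb)
    have k2 := F.Encl.add hr hr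
    have k3 := F.Encl.rat mu 1000 ε
    push_cast at k1 k3
    rcases up with _ | _
    · rw [cond_false, cond_false]
      convert F.Encl.sub (F.Encl.add (F.Encl.add hb k2) k3) (F.Encl.add ha k1) using 1
      unfold SA DA
      ring
    · rw [cond_true, cond_true]
      convert F.Encl.sub (F.Encl.add k1 (F.Encl.add (F.Encl.add hb k2) k3)) ha using 1
      unfold SA DA
      ring
  · have hj : j = 15 := Nat.eq_of_beq_eq_true e
    rw [if_pos hj, cond_true]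
    rcases up with _ | _
    · rw [cond_false, cond_false]
      convert negE (F.Encl.add ha hb) using 1
      unfold DA
      ring
    · rw [cond_true, cond_true]
      convert F.Encl.add ha hb using 1
      unfold DA
      ring

theorem eF_encl {up : Bool} {j : ℕ} {a b : F} {ε : ℕ → ℝ} {x y T ρ : ℝ}
    (hε : ∀ i, |ε i| ≤ 1) (ha : a.Encl ε (Real.sin (Real.pi * y) * NumIs.PP (x + y) (T + ρ)))
    (hb : b.Encl ε (Real.sin (Real.pi * y) * NumIs.PP (y - x) (T - ρ))) :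
    (eF up j a b).Encl ε (EE up j x y T ρ) := by
  unfold eF EE
  rcases e : Nat.beq j 15 with _ | _
  · have hj : j ≠ 15 := by
      rintro rfl
      exact absurd e (by decide)
    rw [if_neg hj, cond_false]
    have k1 := F.Encl.mulq (n := kap j) (d := 10) (by norm_num) hε (F.Encl.sub ha hb)
    push_cast at k1
    rcases up with _ | _
    · rw [cond_false, cond_false]
      convert F.Encl.add (F.Encl.add ha hb) k1 using 1
      unfold SB DB
      ring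
    · rw [cond_true, cond_true]
      convert F.Encl.sub k1 (F.Encl.add ha hb) using 1
      unfold SB DB
      ring
  · have hj : j = 15 := Nat.eq_of_beq_eq_true e
    rw [if_pos hj, cond_true]
    convert F.Encl.sub ha hb using 1
    unfold DB
    ring

/-- both derivatives on a box -/
def mF (up : Bool) (j mu : ℕ) (T R X Y : F) (C : F → F → Bool) : Bool :=
  pF (X.add Y) (T.add R) fun ap => pF (Y.sub X) (T.sub R) fun am => pF X T fun ar =>
    C (bF up j mu (X.sinPi.mul ap) (X.sinPi.mul am) (X.sinPi.mul ar))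
      (eF up j (Y.sinPi.mul ap) (Y.sinPi.mul am))

theorem mF_some {up : Bool} {j mu : ℕ} {T R X Y : F} {C : F → F → Bool} {ε : ℕ → ℝ}
    {t r x y : ℝ} (hε : ∀ i, |ε i| ≤ 1) (hT : T.Encl ε t) (hR : R.Encl ε r) (hX : X.Encl ε x)
    (hY : Y.Encl ε y) (h : mF up j mu T R X Y C = true) :
    ∃ B E : F, B.Encl ε (BB up j mu x y t r) ∧ E.Encl ε (EE up j x y t r) ∧ C B E = true := by
  obtain ⟨ap, hap, h⟩ := pF_some hε (F.Encl.add hX hY) (F.Encl.add hT hR) h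
  obtain ⟨am, ham, h⟩ := pF_some hε (F.Encl.sub hY hX) (F.Encl.sub hT hR) h
  obtain ⟨ar, har, h⟩ := pF_some hε hX hT h
  have sx := F.Encl.sinPi hε hX
  have sy := F.Encl.sinPi hε hY
  exact ⟨_, _, bF_encl hε (F.Encl.mul hε sx hap) (F.Encl.mul hε sx ham) (F.Encl.mul hε sx har),
    eF_encl hε (F.Encl.mul hε sy hap) (F.Encl.mul hε sy ham), h⟩

end R6

end Pool.Agent.Work.MP_b30479_gtS.G2

end

section

/-!
# Rings on the level part: rows with six variables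

`RowP c T ρ xs ys x y`: the row `c`.  Digits of a certificate: `0, ..., 5` bisect; `6 + k`:
`k < 16`: combination number `k` by values; `16 ≤ k < 32`: the same with the other form of the second
factor; `32 ≤ k < 48`: the same by derivatives; `48`: wrong side; `49`, `50`: outside of the cone
(type `0`); `51`: outside of the cone; `52`: ring variable not below; `53`: displacement too large;
`54`: below the curve of equal differences; `55 + i`, `i < 19`: inequality number `i` violated;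
`58 + 16 i + j`, `i = 1, 2, 3`: combination `j` by derivatives with part `i / 4` of the bound.
-/

namespace Pool.Agent.Work.MP_b30479_gtS.G2

open Set VOL NumIs

namespace R6

open RC
open RQ (bO bO_some cond_ff)
open LR (rat1 mulq1)
open RZ1 (negE)

/-- a linear inequality for `T`, `ρ`, `xs`, `ys`, right hand side in units `1 / 10000` -/
structure LC where
  p0 : ℕ
  n0 : ℕ
  p1 : ℕ
  n1 : ℕ
  p2 : ℕ
  n2 : ℕ
  p3 : ℕ
  n3 : ℕ
  u : ℕ
  v : ℕ

def LC.ok (l : LC) (T ρ xs ys : ℝ) : Prop :=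
  ((l.p0 : ℝ) - l.n0) * T + ((l.p1 : ℝ) - l.n1) * ρ + ((l.p2 : ℝ) - l.n2) * xs +
    ((l.p3 : ℝ) - l.n3) * ys ≤ ((l.u : ℝ) - l.v) / 10000

/-- the inequality is violated on the box -/
def LC.bad (l : LC) (o a0 b0 a1 b1 a2 b2 a3 b3 : ℕ) : Bool :=
  Nat.ble (Nat.add (Nat.add (Nat.mul 10000 (Nat.add (Nat.add (Nat.add (Nat.add (Nat.mul l.p0 o)
      (Nat.mul l.n0 b0)) (Nat.mul l.n1 b1)) (Nat.mul l.n2 b2)) (Nat.mul l.n3 b3)))
      (Nat.mul l.u 68719476736)) 1)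
    (Nat.add (Nat.mul 10000 (Nat.add (Nat.add (Nat.add (Nat.add (Nat.mul l.p0 a0)
      (Nat.mul l.n0 o)) (Nat.mul l.p1 a1)) (Nat.mul l.p2 a2)) (Nat.mul l.p3 a3)))
      (Nat.mul l.v 68719476736))

theorem LC.bad_spec {l : LC} {o a0 b0 a1 b1 a2 b2 a3 b3 : ℕ} {T ρ xs ys : ℝ} (h0 : Rg o a0 b0 T)
    (h1 : Rg 0 a1 b1 ρ) (h2 : Rg 0 a2 b2 xs) (h3 : Rg 0 a3 b3 ys)
    (h : l.bad o a0 b0 a1 b1 a2 b2 a3 b3 = true) : ¬ l.ok T ρ xs ys := by
  intro hk
  have hD := DR_pos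
  have hv : DR = 68719476736 := rfl
  have k := Nat.le_of_ble_eq_true h
  have k2 : ((((10000 * (l.p0 * o + l.n0 * b0 + l.n1 * b1 + l.n2 * b2 + l.n3 * b3)) +
      l.u * 68719476736) + 1 : ℕ) : ℝ) ≤
      ((10000 * (l.p0 * a0 + l.n0 * o + l.p1 * a1 + l.p2 * a2 + l.p3 * a3) +
      l.v * 68719476736 : ℕ) : ℝ) := by
    exact_mod_cast k
  push_cast at k2
  rw [← hv] at k2
  unfold Rg at h0 h1 h2 h3
  simp only [Nat.cast_zero, add_zero] at h1 h2 h3
  unfold LC.ok at hk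
  have m : ∀ {p n : ℕ} {a b z : ℝ}, a ≤ z → z ≤ b → (p : ℝ) * a - n * b ≤ ((p : ℝ) - n) * z := by
    intro p n a b z ha hb
    have e1 : (p : ℝ) * a ≤ p * z := mul_le_mul_of_nonneg_left ha (Nat.cast_nonneg _)
    have e2 : (n : ℝ) * z ≤ n * b := mul_le_mul_of_nonneg_left hb (Nat.cast_nonneg _)
    linarith only [e1, e2]
  have e0 := m (p := l.p0) (n := l.n0) h0.1 h0.2
  have e1 := m (p := l.p1) (n := l.n1) h1.1 h1.2
  have e2 := m (p := l.p2) (n := l.n2) h2.1 h2.2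
  have e3 := m (p := l.p3) (n := l.n3) h3.1 h3.2
  have hk2 := mul_le_mul_of_nonneg_right hk (by positivity : (0 : ℝ) ≤ 10000 * DR)
  have r1 : (((l.p0 : ℝ) - l.n0) * T + ((l.p1 : ℝ) - l.n1) * ρ + ((l.p2 : ℝ) - l.n2) * xs +
      ((l.p3 : ℝ) - l.n3) * ys) * (10000 * DR) =
      10000 * ((((l.p0 : ℝ) - l.n0) * (T * DR + o) - ((l.p0 : ℝ) - l.n0) * o) +
      ((l.p1 : ℝ) - l.n1) * (ρ * DR) + ((l.p2 : ℝ) - l.n2) * (xs * DR) +
      ((l.p3 : ℝ) - l.n3) * (ys * DR)) := by ring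
  have r2 : ((l.u : ℝ) - l.v) / 10000 * (10000 * DR) = l.u * DR - l.v * DR := by
    field_simp
  rw [r1, r2] at hk2
  linarith only [k2, e0, e1, e2, e3, hk2]

noncomputable def lkW (ws : List LC) : ℕ → Option LC :=
  List.rec (motive := fun _ => ℕ → Option LC) (fun _ => none)
    (fun x _ ih k => Nat.rec (motive := fun _ => Option LC) (some x) (fun n _ => ih n) k) ws

lemma lkW_mem : ∀ {ws : List LC} {k : ℕ} {l : LC}, lkW ws k = some l → l ∈ ws
  | [], _, _, h => absurd h (by simp [lkW])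
  | x :: t, 0, l, h => by
    have : some x = some l := h
    rw [Option.some.injEq] at this
    rw [this]
    exact List.mem_cons_self
  | x :: t, k + 1, l, h => List.mem_cons_of_mem _ (lkW_mem (ws := t) (k := k) h)

/-- a row -/
structure Cf where
  /-- the hinge above the saddle point -/
  up : Bool
  /-- `0`: ring variable less than the hinge; `1`: ring variable down more than the hinge, the
  side; `2`: the same, the contribution -/
  ty : ℕ
  /-- slack, in units `1 / 1000` -/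
  mu : ℕ
  /-- slope of the bound of the contribution, in units `1 / 100` -/
  al : ℕ
  m0 : ℕ
  dl : ℕ
  m1 : ℕ
  n1 : ℕ
  /-- `1`: only above the curve of equal differences -/
  vs : ℕ
  ws : List LC

/-- bound of the contribution -/
noncomputable def Lb (al m0 : ℕ) (m : ℝ) : ℝ := max 0 ((al : ℝ) / 100 * (m - (m0 : ℝ) / 1000))

/-- conclusion of a row -/
def Cf.Con (c : Cf) (A G m N : ℝ) : Prop :=
  (c.ty = 0 → 0 < A + (c.mu : ℝ) / 1000 * m) ∧
  (c.ty = 1 → 0 < A + (c.mu : ℝ) / 1000 * m ∨ Lb c.al c.m0 m < G ∨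
    (m ≤ (c.m1 : ℝ) / 1000 ∧ m + (c.n1 : ℝ) / 1000 ≤ N ∧
      Lb c.al c.m0 m - (c.dl : ℝ) / 1000 < G)) ∧
  (c.ty = 2 → (c.dl : ℝ) / 1000 < G + Lb c.al c.m0 m)

/-- the sides -/
noncomputable def AA (up : Bool) (T ρ xs ys x y : ℝ) : ℝ :=
  bif up then Sx xs ys T ρ - Sx x y T ρ else Sx x y T ρ - Sx xs ys T ρ

/-- the row -/
def RowP (c : Cf) (T ρ xs ys x y : ℝ) : Prop :=
  0 < xs → xs < 1 / 2 → 0 < ys → ys ≤ 1 / 2 → 0 < x → x < 1 / 2 → 0 < y → y ≤ 1 / 2 →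
  (∀ l ∈ c.ws, l.ok T ρ xs ys) → 0 ≤ mm c.up xs x → (c.ty ≠ 2 → 0 < mm c.up xs x) →
  (c.ty = 2 → c.m1 ≠ 0 → mm c.up xs x ≤ (c.m1 : ℝ) / 1000) →
  (c.ty = 0 → |gh ys - gh y| ≤ mm c.up xs x) →
  (c.ty = 1 → mm c.up xs x < gh ys - gh y) →
  (c.ty = 2 → mm c.up xs x + (c.n1 : ℝ) / 1000 < gh ys - gh y) →
  (c.vs ≠ 0 → gh ys + gh y ≤ gh xs + gh x ∨
    (c.ty = 1 ∧ c.al ≠ 0 ∧ (c.m0 : ℝ) / 1000 ≤ mm c.up xs x)) →
  c.Con (AA c.up T ρ xs ys x y) (Dx x y T ρ - Dx xs ys T ρ) (mm c.up xs x) (gh ys - gh y)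

/-- `10 κ`, the contribution alone counts as `10` -/
def kn (j : ℕ) : ℕ := cond (Nat.beq j 15) 10 (kap j)

/-- the test by values; `dd`: the number `dl` which may be used -/
def rT (c : Cf) (dd j v : ℕ) (T R XS YS X Y : F) : Bool :=
  evF c.up j v c.mu (Nat.beq (Nat.add c.mu c.al) 0) T R X Y fun Φ g =>
  evF c.up j 0 c.mu (Nat.beq (Nat.add c.mu c.al) 0) T R XS YS fun Φs gs =>
  cond (Nat.beq c.ty 0) (cond (Nat.beq j 0) (posF (Φ.col.sub Φs.col)) false)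
  (cond (Nat.beq c.ty 1)
    (cond (posF ((Φ.col.sub Φs.col).add (F.rat (Nat.mul (kn j) dd) 10000)))
      (cond (Nat.beq c.al 0) true
        (posF (((cond c.up (Φ.sub (F.mulq (Nat.mul (kn j) c.al) 1000 g))
          (Φ.add (F.mulq (Nat.mul (kn j) c.al) 1000 g))).col.sub
          (cond c.up (Φs.sub (F.mulq (Nat.mul (kn j) c.al) 1000 gs))
          (Φs.add (F.mulq (Nat.mul (kn j) c.al) 1000 gs))).col).add
          (F.rat (Nat.mul (kn j) (Nat.add (Nat.mul c.al c.m0) (Nat.mul 100 dd))) 1000000)))) false)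
    (cond (Nat.beq j 15)
      (cond (posF ((Φ.col.sub Φs.col).sub (F.rat c.dl 1000))) true
        (cond (Nat.beq c.al 0) false
          (posF (((cond c.up (Φ.add (F.mulq c.al 100 g)) (Φ.sub (F.mulq c.al 100 g))).col.sub
            (cond c.up (Φs.add (F.mulq c.al 100 gs)) (Φs.sub (F.mulq c.al 100 gs))).col).sub
            (F.rat (Nat.add (Nat.mul c.al c.m0) (Nat.mul 100 c.dl)) 100000))))) false))

theorem kn_eq {j : ℕ} : ((kn j : ℕ) : ℝ) = if j = 15 then 10 else (kap j : ℝ) := by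
  unfold kn
  rcases e : Nat.beq j 15 with _ | _
  · have hj : j ≠ 15 := by
      rintro rfl
      exact absurd e (by decide)
    rw [if_neg hj, cond_false]
  · rw [if_pos (Nat.eq_of_beq_eq_true e), cond_true]
    norm_num

theorem beq_ne {a b : ℕ} (h : Nat.beq a b = false) : a ≠ b := by
  rintro rfl
  rw [Nat.beq_refl] at h
  exact absurd h (by decide)

/-- combination: the values -/
theorem phv_diff {up : Bool} {j mu : ℕ} {T ρ xs ys x y : ℝ} :
    phv up j mu x y T ρ - phv up j mu xs ys T ρ = if j = 15 then Dx x y T ρ - Dx xs ys T ρ else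
      AA up T ρ xs ys x y + (kn j : ℝ) / 10 * (Dx x y T ρ - Dx xs ys T ρ) +
      (mu : ℝ) / 1000 * mm up xs x := by
  unfold phv AA mm
  rw [kn_eq]
  split_ifs with h
  · rfl
  · rcases up with _ | _
    · simp only [cond_false]
      ring
    · simp only [cond_true]
      ring

/-- logic of type `1` -/
theorem con1 {c : Cf} {j dd : ℕ} {A G m N : ℝ} (hc : c.ty = 1)
    (hdd : dd = 0 ∨ (dd = c.dl ∧ m ≤ (c.m1 : ℝ) / 1000 ∧ m + (c.n1 : ℝ) / 1000 ≤ N))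
    (h1 : 0 < (if j = 15 then G else A + (kn j : ℝ) / 10 * G + (c.mu : ℝ) / 1000 * m) +
      (kn j : ℝ) / 10 * ((dd : ℝ) / 1000))
    (h2 : (c.al : ℝ) / 100 * (m - (c.m0 : ℝ) / 1000) ≤ 0 ∨
      0 < (if j = 15 then G else A + (kn j : ℝ) / 10 * G + (c.mu : ℝ) / 1000 * m) +
      (kn j : ℝ) / 10 * ((dd : ℝ) / 1000) -
      (kn j : ℝ) / 10 * ((c.al : ℝ) / 100 * (m - (c.m0 : ℝ) / 1000))) : c.Con A G m N := by
  refine ⟨fun h => by omega, fun _ => ?_, fun h => by omega⟩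
  have key2 : 0 < A + (c.mu : ℝ) / 1000 * m ∨ Lb c.al c.m0 m - (dd : ℝ) / 1000 < G := by
    by_contra hn
    rw [not_or, not_lt, not_lt] at hn
    obtain ⟨n1, n2⟩ := hn
    have hk : (0 : ℝ) ≤ (kn j : ℝ) / 10 := by positivity
    unfold Lb at n2
    have key : 0 < (if j = 15 then G else A + (kn j : ℝ) / 10 * G + (c.mu : ℝ) / 1000 * m) +
        (kn j : ℝ) / 10 * ((dd : ℝ) / 1000) -
        (kn j : ℝ) / 10 * (max 0 ((c.al : ℝ) / 100 * (m - (c.m0 : ℝ) / 1000))) := by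
      rcases h2 with h2 | h2
      · rw [max_eq_left h2]
        linarith only [h1]
      · rcases max_choice 0 ((c.al : ℝ) / 100 * (m - (c.m0 : ℝ) / 1000)) with e | e
        · rw [e]
          linarith only [h1]
        · rw [e]
          exact h2
    have n3 := mul_le_mul_of_nonneg_left n2 hk
    rw [mul_sub] at n3
    split_ifs at key with hj
    · rw [kn_eq, if_pos hj] at key n3
      linarith only [n2, key]
    · linarith only [n1, n3, key]
  rcases key2 with k | k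
  · exact Or.inl k
  · rcases hdd with h | ⟨h, g1, g2⟩
    · rw [h, Nat.cast_zero, zero_div, sub_zero] at k
      exact Or.inr (Or.inl k)
    · rw [h] at k
      exact Or.inr (Or.inr ⟨g1, g2, k⟩)

/-- logic of type `2` -/
theorem con2 {c : Cf} {A G m N : ℝ} (hc : c.ty = 2)
    (h : 0 < G - (c.dl : ℝ) / 1000 ∨
      0 < G - (c.dl : ℝ) / 1000 + (c.al : ℝ) / 100 * (m - (c.m0 : ℝ) / 1000)) :
    c.Con A G m N := by
  refine ⟨fun h => by omega, fun h => by omega, fun _ => ?_⟩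
  unfold Lb
  rcases h with h | h
  · have := le_max_left 0 ((c.al : ℝ) / 100 * (m - (c.m0 : ℝ) / 1000))
    linarith only [h, this]
  · have := le_max_right 0 ((c.al : ℝ) / 100 * (m - (c.m0 : ℝ) / 1000))
    linarith only [h, this]

theorem rT_spec {c : Cf} {dd j v : ℕ} {T R XS YS X Y : F} {e0 e1 s2 s3 e2 e3 : ℝ}
    {t ρ xs ys x y : ℝ} (h0 : |e0| ≤ 1) (h1 : |e1| ≤ 1) (g2 : |s2| ≤ 1) (g3 : |s3| ≤ 1)
    (h2 : |e2| ≤ 1) (h3 : |e3| ≤ 1)
    (hT : T.Encl (eps4 e0 e1 e2 e3) t) (hR : R.Encl (eps4 e0 e1 e2 e3) ρ)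
    (hX : X.Encl (eps4 e0 e1 e2 e3) x) (hY : Y.Encl (eps4 e0 e1 e2 e3) y)
    (hT' : T.Encl (eps4 e0 e1 s2 s3) t) (hR' : R.Encl (eps4 e0 e1 s2 s3) ρ)
    (hXS : XS.Encl (eps4 e0 e1 s2 s3) xs) (hYS : YS.Encl (eps4 e0 e1 s2 s3) ys)
    (p1 : 0 < xs) (p2 : xs < 1) (p3 : 0 < x) (p4 : x < 1)
    (h : rT c dd j v T R XS YS X Y = true) (hty : c.ty ≤ 2) (N : ℝ)
    (hdd : c.ty = 1 → dd = 0 ∨ (dd = c.dl ∧ mm c.up xs x ≤ (c.m1 : ℝ) / 1000 ∧
      mm c.up xs x + (c.n1 : ℝ) / 1000 ≤ N)) :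
    c.Con (AA c.up t ρ xs ys x y) (Dx x y t ρ - Dx xs ys t ρ) (mm c.up xs x) N := by
  have hε := eps4_le h0 h1 h2 h3
  have hε' := eps4_le h0 h1 g2 g3
  have hε0 : ∀ i, |eps4 e0 e1 0 0 i| ≤ 1 := eps4_le h0 h1 (by simp) (by simp)
  have hz : Nat.beq (Nat.add c.mu c.al) 0 = true → c.mu = 0 := by
    intro hb
    have := Nat.eq_of_beq_eq_true hb
    change c.mu + c.al = 0 at this
    omega
  obtain ⟨Φ, g, kΦ, kg, h⟩ := evF_some hε hT hR hX hY p3 p4 hz h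
  obtain ⟨Φs, gs, kΦs, kgs, h⟩ := evF_some hε' hT' hR' hXS hYS p1 p2 hz h
  have d0 := F.Encl.sub (F.Encl.col h2 h3 kΦ) (F.Encl.col g2 g3 kΦs)
  have dl1 := F.Encl.rat (Nat.mul (kn j) dd) 10000 (eps4 e0 e1 0 0)
  rcases t0 : Nat.beq c.ty 0 with _ | _
  swap
  · rw [t0, cond_true] at h
    obtain ⟨hj, h⟩ := cond_ff h
    have hj0 := Nat.eq_of_beq_eq_true hj
    have hp := posF_spec hε0 d0 h
    rw [phv_diff, if_neg (by omega), kn_eq, if_neg (by omega)] at hp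
    have hk0 : kap j = 0 := by rw [hj0]; rfl
    rw [hk0, Nat.cast_zero, zero_div, zero_mul, add_zero] at hp
    have ht := Nat.eq_of_beq_eq_true t0
    exact ⟨fun _ => hp, fun h => by omega, fun h => by omega⟩
  rw [t0, cond_false] at h
  have t0' := beq_ne t0
  rcases t1 : Nat.beq c.ty 1 with _ | _
  swap
  · rw [t1, cond_true] at h
    have ht := Nat.eq_of_beq_eq_true t1
    obtain ⟨ha, h⟩ := cond_ff h
    have hp := posF_spec hε0 (F.Encl.add d0 dl1) ha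
    have hdl : ((Nat.mul (kn j) dd : ℕ) : ℝ) / ((10000 : ℕ) : ℝ) =
        (kn j : ℝ) / 10 * ((dd : ℝ) / 1000) := by
      change ((kn j * dd : ℕ) : ℝ) / ((10000 : ℕ) : ℝ) = _
      push_cast
      ring
    rw [hdl, phv_diff] at hp
    refine con1 (j := j) (dd := dd) ht (hdd ht) hp ?_
    rcases ea : Nat.beq c.al 0 with _ | _
    swap
    · left
      have := Nat.eq_of_beq_eq_true ea
      rw [this, Nat.cast_zero, zero_div, zero_mul]
    right
    rw [ea, cond_false] at h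
    have hzf : Nat.beq (Nat.add c.mu c.al) 0 = false := by
      rcases hb : Nat.beq (Nat.add c.mu c.al) 0 with _ | _
      · rfl
      · have := Nat.eq_of_beq_eq_true hb
        change c.mu + c.al = 0 at this
        exact absurd (by omega : c.al = 0) (beq_ne ea)
    have k1 := F.Encl.mulq (n := Nat.mul (kn j) c.al) (d := 1000) (by norm_num) hε (kg hzf)
    have k2 := F.Encl.mulq (n := Nat.mul (kn j) c.al) (d := 1000) (by norm_num) hε' (kgs hzf)
    have k3 := F.Encl.rat (Nat.mul (kn j) (Nat.add (Nat.mul c.al c.m0) (Nat.mul 100 dd))) 1000000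
      (eps4 e0 e1 0 0)
    have e1' : ((Nat.mul (kn j) c.al : ℕ) : ℝ) / ((1000 : ℕ) : ℝ) =
        (kn j : ℝ) / 10 * ((c.al : ℝ) / 100) := by
      change ((kn j * c.al : ℕ) : ℝ) / ((1000 : ℕ) : ℝ) = _
      push_cast
      ring
    have e2' : ((Nat.mul (kn j) (Nat.add (Nat.mul c.al c.m0) (Nat.mul 100 dd)) : ℕ) : ℝ) /
        ((1000000 : ℕ) : ℝ) = (kn j : ℝ) / 10 * ((c.al : ℝ) / 100 * ((c.m0 : ℝ) / 1000)) +
        (kn j : ℝ) / 10 * ((dd : ℝ) / 1000) := by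
      change ((kn j * (c.al * c.m0 + 100 * dd) : ℕ) : ℝ) / ((1000000 : ℕ) : ℝ) = _
      push_cast
      ring
    rw [e1'] at k1 k2
    rw [e2'] at k3
    rw [← phv_diff]
    unfold mm
    rcases hu : c.up with _ | _
    · rw [hu] at h kΦ kΦs
      simp only [cond_false] at h ⊢
      have hp2 := posF_spec hε0 (F.Encl.add (F.Encl.sub (F.Encl.col h2 h3 (F.Encl.add kΦ k1))
        (F.Encl.col g2 g3 (F.Encl.add kΦs k2))) k3) h
      linarith only [hp2]
    · rw [hu] at h kΦ kΦs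
      simp only [cond_true] at h ⊢
      have hp2 := posF_spec hε0 (F.Encl.add (F.Encl.sub (F.Encl.col h2 h3 (F.Encl.sub kΦ k1))
        (F.Encl.col g2 g3 (F.Encl.sub kΦs k2))) k3) h
      linarith only [hp2]
  rw [t1, cond_false] at h
  have t1' := beq_ne t1
  have ht : c.ty = 2 := by omega
  obtain ⟨hj, h⟩ := cond_ff h
  have hj0 := Nat.eq_of_beq_eq_true hj
  refine con2 ht ?_
  have k0 := F.Encl.rat c.dl 1000 (eps4 e0 e1 0 0)
  push_cast at k0
  rcases hq : posF ((Φ.col.sub Φs.col).sub (F.rat c.dl 1000)) with _ | _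
  swap
  · left
    have hp := posF_spec hε0 (F.Encl.sub d0 k0) hq
    rw [phv_diff, if_pos hj0] at hp
    exact hp
  rw [hq, cond_false] at h
  right
  rcases ea : Nat.beq c.al 0 with _ | _
  swap
  · rw [ea, cond_true] at h
    exact absurd h (by decide)
  rw [ea, cond_false] at h
  have hzf : Nat.beq (Nat.add c.mu c.al) 0 = false := by
    rcases hb : Nat.beq (Nat.add c.mu c.al) 0 with _ | _
    · rfl
    · have := Nat.eq_of_beq_eq_true hb
      change c.mu + c.al = 0 at this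
      exact absurd (by omega : c.al = 0) (beq_ne ea)
  have k1 := F.Encl.mulq (n := c.al) (d := 100) (by norm_num) hε (kg hzf)
  have k2 := F.Encl.mulq (n := c.al) (d := 100) (by norm_num) hε' (kgs hzf)
  have k3 := F.Encl.rat (Nat.add (Nat.mul c.al c.m0) (Nat.mul 100 c.dl)) 100000
    (eps4 e0 e1 0 0)
  have e2' : ((Nat.add (Nat.mul c.al c.m0) (Nat.mul 100 c.dl) : ℕ) : ℝ) /
      ((100000 : ℕ) : ℝ) = (c.al : ℝ) / 100 * ((c.m0 : ℝ) / 1000) + (c.dl : ℝ) / 1000 := by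
    change ((c.al * c.m0 + 100 * c.dl : ℕ) : ℝ) / ((100000 : ℕ) : ℝ) = _
    push_cast
    ring
  push_cast at k1 k2
  rw [e2'] at k3
  have hd : Dx x y t ρ - Dx xs ys t ρ = phv c.up j c.mu x y t ρ - phv c.up j c.mu xs ys t ρ := by
    rw [phv_diff, if_pos hj0]
  rw [hd]
  unfold mm
  rcases hu : c.up with _ | _
  · rw [hu] at h kΦ kΦs
    simp only [cond_false] at h ⊢
    have hp2 := posF_spec hε0 (F.Encl.sub (F.Encl.sub (F.Encl.col h2 h3 (F.Encl.sub kΦ k1))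
      (F.Encl.col g2 g3 (F.Encl.sub kΦs k2))) k3) h
    linarith only [hp2]
  · rw [hu] at h kΦ kΦs
    simp only [cond_true] at h ⊢
    have hp2 := posF_spec hε0 (F.Encl.sub (F.Encl.sub (F.Encl.col h2 h3 (F.Encl.add kΦ k1))
      (F.Encl.col g2 g3 (F.Encl.add kΦs k2))) k3) h
    linarith only [hp2]

end R6

end Pool.Agent.Work.MP_b30479_gtS.G2

end

section

/-!
# Rings on the level part: rows with six variables, the complete test
-/

namespace Pool.Agent.Work.MP_b30479_gtS.G2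

open Set VOL NumIs

namespace R6

open RC
open RQ (bO bO_some cond_ff)

/-- lower / upper bound of the interval of the ring variable between both points -/
def yl (a b : ℕ) : ℕ := cond (Nat.ble a b) a b
def yu (a b : ℕ) : ℕ := cond (Nat.ble a b) b a

lemma yl_le (a b : ℕ) : yl a b ≤ a ∧ yl a b ≤ b := by
  unfold yl
  rcases h : Nat.ble a b with _ | _
  · rw [cond_false]
    have : ¬ a ≤ b := fun hh => by rw [Nat.ble_eq_true_of_le hh] at h; exact absurd h (by decide)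
    omega
  · rw [cond_true]
    have := Nat.le_of_ble_eq_true h
    omega

lemma le_yu (a b : ℕ) : a ≤ yu a b ∧ b ≤ yu a b := by
  unfold yu
  rcases h : Nat.ble a b with _ | _
  · rw [cond_false]
    have : ¬ a ≤ b := fun hh => by rw [Nat.ble_eq_true_of_le hh] at h; exact absurd h (by decide)
    omega
  · rw [cond_true]
    have := Nat.le_of_ble_eq_true h
    omega

/-- the point `1 / 2` -/
def hf : ℕ := 34359738368

/-- checked version -/
def tqc (n d u1 u2 v1 v2 : ℕ) : Bool :=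
  cond (Nat.ble 1 u1) (cond (Nat.ble 1 u2) (cond (Nat.ble v1 68719476735)
    (cond (Nat.ble v2 68719476735) (tq n d u1 u2 v1 v2) false) false) false) false

/-- no factor vanishes between the points -/
def sep (o b0 a1 u v : ℕ) : Bool :=
  cond (Nat.ble (Nat.add b0 1) (Nat.add o a1)) true (Nat.ble (Nat.add u 1) v)

/-- the test by derivatives, part `i / 4` of the bound -/
def mT (c : Cf) (o i j a0 b0 a1 b1 a2 b2 a3 b3 a4 b4 a5 b5 : ℕ) : Bool :=
  cond (sep o b0 a1 (cond c.up b4 b2) (yl a3 a5)) (mF c.up j c.mu (F.v0 o a0 b0) (F.v1 0 a1 b1)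
    (F.v2 0 (cond c.up a2 a4) (cond c.up b4 b2)) (F.v3 0 (yl a3 a5) (yu b3 b5)) fun B E =>
  cond (Nat.beq c.ty 0)
    (cond (Nat.beq i 0) (cond (Nat.beq j 0) (cond (posF (B.add E)) (posF (B.sub E)) false) false)
      false)
  (cond (posF E.neg)
    (cond (Nat.beq c.ty 1)
      (cond (posF ((B.sub E).sub (F.rat (Nat.mul (Nat.mul (kn j) c.al) i) 4000)))
        (cond (Nat.beq c.al 0) true
          (cond c.up
            (tqc (Nat.add 1000 (Nat.div (Nat.mul 4 c.m0) (Nat.sub 4 i))) 1000 a2 hf b4 hf)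
            (tqc (Nat.add 1000 (Nat.div (Nat.mul 4 c.m0) (Nat.sub 4 i))) 1000 a4 hf b2 hf))) false)
      (cond (Nat.beq j 15) (cond (Nat.beq c.dl 0)
        (cond (posF ((B.sub E).add (F.rat (Nat.mul (Nat.mul 10 c.al) i) 4000)))
          (cond (Nat.beq i 0) true
            (cond c.up
              (tqc (Nat.sub 1000 (Nat.div (Nat.add (Nat.mul 4 c.m0) (Nat.sub 3 i)) (Nat.sub 4 i)))
                1000 a4 hf b2 hf)
              (tqc (Nat.sub 1000 (Nat.div (Nat.add (Nat.mul 4 c.m0) (Nat.sub 3 i)) (Nat.sub 4 i)))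
                1000 a2 hf b4 hf))) false) false) false)) false)) false

/-- the tests that the box is outside -/
noncomputable def sT (c : Cf) (o k a0 b0 a1 b1 a2 b2 a3 b3 a4 b4 a5 b5 : ℕ) : Bool :=
  cond (Nat.beq k 48) (cond (Nat.beq c.ty 2)
    (cond c.up (Nat.ble (Nat.add b4 1) a2) (Nat.ble (Nat.add b2 1) a4))
    (cond c.up (Nat.ble b4 a2) (Nat.ble b2 a4)))
  (cond (Nat.beq k 49) (cond (Nat.beq c.ty 0) (cond c.up (tqc 1 1 a3 a2 b5 b4)
    (tqc 1 1 a3 a4 b5 b2)) false)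
  (cond (Nat.beq k 50) (cond (Nat.beq c.ty 0) (cond c.up (tqc 1 1 a5 a2 b3 b4)
    (tqc 1 1 a5 a4 b3 b2)) false)
  (cond (Nat.beq k 51) (cond (Nat.beq c.ty 0) false (cond c.up
    (tqc (Nat.add 1000 (cond (Nat.beq c.ty 2) c.n1 0)) 1000 a4 a5 b2 b3)
    (tqc (Nat.add 1000 (cond (Nat.beq c.ty 2) c.n1 0)) 1000 a2 a5 b4 b3)))
  (cond (Nat.beq k 52) (cond (Nat.beq c.ty 0) false (Nat.ble b3 a5))
  (cond (Nat.beq k 53) (cond (Nat.beq c.ty 2) (cond (Nat.beq c.m1 0) false (cond c.up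
    (tqc (Nat.sub 1000 c.m1) 1000 a4 hf b2 hf) (tqc (Nat.sub 1000 c.m1) 1000 a2 hf b4 hf))) false)
  (cond (Nat.beq k 54) (cond (Nat.beq c.vs 0) false (cond (tqc 1 1 a3 a5 b2 b4)
    (cond (Nat.beq c.ty 1) (cond (Nat.beq c.al 0) true (cond c.up
      (tqc (Nat.add 1000 c.m0) 1000 a2 hf b4 hf) (tqc (Nat.add 1000 c.m0) 1000 a4 hf b2 hf)))
      true) false))
  (Option.rec (motive := fun _ => Bool) false (fun l => l.bad o a0 b0 a1 b1 a2 b2 a3 b3)
    (lkW c.ws (Nat.sub k 55)))))))))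

/-- the box is in the region of the number `dl` -/
def rgT (c : Cf) (a2 b2 a3 a4 b4 b5 : ℕ) : Bool :=
  cond (Nat.beq c.dl 0) false (cond (Nat.beq c.ty 1) (cond c.up
    (cond (tqc (Nat.add 1000 c.m1) 1000 a2 hf b4 hf) (tqc (Nat.sub 1000 c.n1) 1000 a2 a3 b4 b5) false)
    (cond (tqc (Nat.add 1000 c.m1) 1000 a4 hf b2 hf) (tqc (Nat.sub 1000 c.n1) 1000 a4 a3 b2 b5) false))
    false)

/-- the complete test -/
noncomputable def tT (c : Cf) (o : ℕ) : Tst := fun k a0 b0 a1 b1 a2 b2 a3 b3 a4 b4 a5 b5 =>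
  cond (Nat.ble k 31)
    (rT c (cond (rgT c a2 b2 a3 a4 b4 b5) c.dl 0) (Nat.land k 15) (Nat.shiftRight k 4)
      (F.v0 o a0 b0) (F.v1 0 a1 b1) (F.v2 0 a2 b2) (F.v3 0 a3 b3) (F.v2 0 a4 b4) (F.v3 0 a5 b5))
  (cond (Nat.ble k 47) (mT c o 0 (Nat.sub k 32) a0 b0 a1 b1 a2 b2 a3 b3 a4 b4 a5 b5)
  (cond (Nat.ble k 73) (sT c o k a0 b0 a1 b1 a2 b2 a3 b3 a4 b4 a5 b5)
  (cond (Nat.ble k 121) (mT c o (Nat.add 1 (Nat.shiftRight (Nat.sub k 74) 4))
    (Nat.land (Nat.sub k 74) 15) a0 b0 a1 b1 a2 b2 a3 b3 a4 b4 a5 b5) false)))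

theorem ta_half : ta (1 / 2) = 1 := by
  unfold ta
  rw [show Real.pi * (1 / 2) / 2 = Real.pi / 4 by ring, Real.tan_pi_div_four]

theorem tqc_spec {n d u1 u2 v1 v2 : ℕ} (hd : 0 < d) {a1 a2 b1 b2 k : ℝ} (h1 : (u1 : ℝ) ≤ a1 * DR)
    (h2 : (u2 : ℝ) ≤ a2 * DR) (h3 : b1 * DR ≤ v1) (h4 : b2 * DR ≤ v2)
    (g1 : a1 < 1) (g2 : a2 < 1) (g3 : 0 < b1) (g4 : 0 < b2)
    (hk : 0 < (n : ℝ) / d → Real.log ((n : ℝ) / d) ≤ k)
    (h : tqc n d u1 u2 v1 v2 = true) : gh b1 + gh b2 < k + (gh a1 + gh a2) := by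
  obtain ⟨q1, h⟩ := cond_ff h
  obtain ⟨q2, h⟩ := cond_ff h
  obtain ⟨q3, h⟩ := cond_ff h
  obtain ⟨q4, h⟩ := cond_ff h
  have q1' := Nat.le_of_ble_eq_true q1
  have q2' := Nat.le_of_ble_eq_true q2
  have q3' := Nat.le_of_ble_eq_true q3
  have q4' := Nat.le_of_ble_eq_true q4
  have hD := DR_pos
  have hv : DR = 68719476736 := rfl
  have key := tq_spec hd h1 h2 h3 h4 (by omega) (by omega) g1 g2 g3 g4 (by omega) (by omega) h
  have i1 : 0 < a1 := by
    have : (1 : ℝ) ≤ u1 := by exact_mod_cast q1'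
    have : 0 < a1 * DR := by linarith only [h1, this]
    exact pos_of_mul_pos_left this hD.le
  have i2 : 0 < a2 := by
    have : (1 : ℝ) ≤ u2 := by exact_mod_cast q2'
    have : 0 < a2 * DR := by linarith only [h2, g1, i1, this]
    exact pos_of_mul_pos_left this hD.le
  have i3 : b1 < 1 := by
    have : (v1 : ℝ) ≤ 68719476735 := by exact_mod_cast q3'
    rw [hv] at h3
    linarith only [h3, g1, i1, this]
  have i4 : b2 < 1 := by
    have : (v2 : ℝ) ≤ 68719476735 := by exact_mod_cast q4'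
    rw [hv] at h4
    linarith only [h4, g1, i1, this]
  have m1 : 0 < ta a1 := ta_pos ⟨i1, g1⟩
  have m2 : 0 < ta a2 := ta_pos ⟨i2, g2⟩
  have m3 : 0 < ta b1 := ta_pos ⟨g3, i3⟩
  have m4 : 0 < ta b2 := ta_pos ⟨g4, i4⟩
  have hnd : 0 < (n : ℝ) / d := by
    have : 0 < (n : ℝ) / d * (ta a1 * ta a2) := lt_trans (mul_pos m3 m4) key
    exact pos_of_mul_pos_left this (mul_pos m1 m2).le
  have l := Real.log_lt_log (mul_pos m3 m4) key
  rw [Real.log_mul m3.ne' m4.ne', Real.log_mul hnd.ne' (mul_pos m1 m2).ne',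
    Real.log_mul m1.ne' m2.ne'] at l
  have := hk hnd
  have e1 : Real.log (ta a1) = gh a1 := rfl
  have e2 : Real.log (ta a2) = gh a2 := rfl
  have e3 : Real.log (ta b1) = gh b1 := rfl
  have e4 : Real.log (ta b2) = gh b2 := rfl
  rw [e1, e2, e3, e4] at l
  linarith only [l, this]

theorem gh_half : gh (1 / 2) = 0 := by
  have : gh (1 / 2) = Real.log (ta (1 / 2)) := rfl
  rw [this, ta_half, Real.log_one]

theorem hf_eq : (1 / 2 : ℝ) * DR = (hf : ℝ) := by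
  have hv : DR = 68719476736 := rfl
  rw [hv]
  unfold hf
  norm_num

theorem log_one_add (n : ℕ) (_ : 0 < ((Nat.add 1000 n : ℕ) : ℝ) / (1000 : ℕ)) :
    Real.log (((Nat.add 1000 n : ℕ) : ℝ) / (1000 : ℕ)) ≤ (n : ℝ) / 1000 := by
  have e : ((Nat.add 1000 n : ℕ) : ℝ) / (1000 : ℕ) = 1 + (n : ℝ) / 1000 := by
    change ((1000 + n : ℕ) : ℝ) / (1000 : ℕ) = _
    push_cast
    ring
  rw [e]
  have := Real.log_le_sub_one_of_pos (x := 1 + (n : ℝ) / 1000) (by positivity)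
  linarith only [this]

theorem log_one_sub (n : ℕ) (h : 0 < ((Nat.sub 1000 n : ℕ) : ℝ) / (1000 : ℕ)) :
    Real.log (((Nat.sub 1000 n : ℕ) : ℝ) / (1000 : ℕ)) ≤ -((n : ℝ) / 1000) := by
  have hn : n ≤ 1000 := by
    by_contra hh
    have : Nat.sub 1000 n = 0 := by
      change 1000 - n = 0
      omega
    rw [this] at h
    norm_num at h
  have e : ((Nat.sub 1000 n : ℕ) : ℝ) / (1000 : ℕ) = 1 - (n : ℝ) / 1000 := by
    change ((1000 - n : ℕ) : ℝ) / (1000 : ℕ) = _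
    rw [Nat.cast_sub hn]
    push_cast
    ring
  rw [e] at h ⊢
  have := Real.log_le_sub_one_of_pos h
  linarith only [this]

section
variable {c : Cf} {o a0 b0 a1 b1 a2 b2 a3 b3 a4 b4 a5 b5 : ℕ} {T ρ xs ys x y : ℝ}

theorem mm_up (h : 0 < mm true xs x) (h1 : 0 < xs) (h2 : xs < 1 / 2) (h3 : 0 < x)
    (h4 : x < 1 / 2) : xs < x := by
  have : mm true xs x = gh x - gh xs := rfl
  rw [this] at h
  exact (gh_lt ⟨h1, by linarith only [h1, h2]⟩ ⟨h3, by linarith only [h1, h2, h4]⟩).1 (by linarith only [h])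

theorem mm_dn (h : 0 < mm false xs x) (h1 : 0 < xs) (h2 : xs < 1 / 2) (h3 : 0 < x)
    (h4 : x < 1 / 2) : x < xs := by
  have : mm false xs x = gh xs - gh x := rfl
  rw [this] at h
  exact (gh_lt ⟨h3, by linarith only [h1, h2, h4]⟩ ⟨h1, by linarith only [h1, h2]⟩).1 (by linarith only [h])

/-- the part of the bound -/
noncomputable def nu (c : Cf) (i j : ℕ) : ℝ :=
  if c.ty = 1 then ((Nat.mul (Nat.mul (kn j) c.al) i : ℕ) : ℝ) / (4000 : ℕ)
  else if c.ty = 2 then -(((Nat.mul (Nat.mul 10 c.al) i : ℕ) : ℝ) / (4000 : ℕ)) else 0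

theorem mm_up' (h : 0 ≤ mm true xs x) (h1 : 0 < xs) (h2 : xs < 1 / 2) (h3 : 0 < x)
    (h4 : x < 1 / 2) : xs ≤ x := by
  have : mm true xs x = gh x - gh xs := rfl
  rw [this] at h
  exact (strictMonoOn_gh.le_iff_le ⟨h1, by linarith only [h1, h2]⟩ ⟨h3, by linarith only [h1, h2, h4]⟩).1 (by linarith only [h])

theorem mm_dn' (h : 0 ≤ mm false xs x) (h1 : 0 < xs) (h2 : xs < 1 / 2) (h3 : 0 < x)
    (h4 : x < 1 / 2) : x ≤ xs := by
  have : mm false xs x = gh xs - gh x := rfl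
  rw [this] at h
  exact (strictMonoOn_gh.le_iff_le ⟨h3, by linarith only [h1, h2, h4]⟩ ⟨h1, by linarith only [h1, h2]⟩).1 (by linarith only [h])

theorem ndiv4 (m0 i : ℕ) (hi : i ≤ 3) {m : ℝ}
    (h : m ≤ ((Nat.div (Nat.mul 4 m0) (Nat.sub 4 i) : ℕ) : ℝ) / 1000) :
    (1 - (i : ℝ) / 4) * m ≤ (m0 : ℝ) / 1000 := by
  have h1 : (4 * m0 / (4 - i)) * (4 - i) ≤ 4 * m0 := Nat.div_mul_le_self _ _
  have h2 : (((4 * m0 / (4 - i)) * (4 - i) : ℕ) : ℝ) ≤ ((4 * m0 : ℕ) : ℝ) := by exact_mod_cast h1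
  push_cast at h2
  rw [Nat.cast_sub (by omega)] at h2
  change m ≤ ((4 * m0 / (4 - i) : ℕ) : ℝ) / 1000 at h
  have hi' : (i : ℝ) ≤ 3 := by exact_mod_cast hi
  have h3 : (4 - (i : ℝ)) * m ≤ (4 - (i : ℝ)) * (((4 * m0 / (4 - i) : ℕ) : ℝ) / 1000) :=
    mul_le_mul_of_nonneg_left h (by linarith only [hi'])
  push_cast at h2 h3
  nlinarith only [h2, h3]

theorem ndiv4' (m0 i : ℕ) (hi : i ≤ 3) {m : ℝ}
    (h : ((Nat.div (Nat.add (Nat.mul 4 m0) (Nat.sub 3 i)) (Nat.sub 4 i) : ℕ) : ℝ) / 1000 ≤ m) :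
    (m0 : ℝ) / 1000 ≤ (1 - (i : ℝ) / 4) * m := by
  have h1 : 4 * m0 ≤ ((4 * m0 + (3 - i)) / (4 - i)) * (4 - i) := by
    have hp : 0 < 4 - i := by omega
    have := Nat.div_add_mod (4 * m0 + (3 - i)) (4 - i)
    have h2 := Nat.mod_lt (4 * m0 + (3 - i)) hp
    rw [Nat.mul_comm] at this
    omega
  have h2 : ((4 * m0 : ℕ) : ℝ) ≤ ((((4 * m0 + (3 - i)) / (4 - i)) * (4 - i) : ℕ) : ℝ) := by
    exact_mod_cast h1
  rw [Nat.cast_mul, Nat.cast_mul, Nat.cast_sub (by omega)] at h2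
  change (((4 * m0 + (3 - i)) / (4 - i) : ℕ) : ℝ) / 1000 ≤ m at h
  have hi' : (i : ℝ) ≤ 3 := by exact_mod_cast hi
  have h3 : (4 - (i : ℝ)) * ((((4 * m0 + (3 - i)) / (4 - i) : ℕ) : ℝ) / 1000) ≤ (4 - (i : ℝ)) * m :=
    mul_le_mul_of_nonneg_left h (by linarith only [hi'])
  generalize (((4 * m0 + (3 - i)) / (4 - i) : ℕ) : ℝ) = w at h2 h3
  push_cast at h2
  nlinarith only [h2, h3]

theorem mT_spec (hty : c.ty ≤ 2) (h0 : Rg o a0 b0 T) (h1 : Rg 0 a1 b1 ρ) (h2 : Rg 0 a2 b2 xs)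
    (h3 : Rg 0 a3 b3 ys) (h4 : Rg 0 a4 b4 x) (h5 : Rg 0 a5 b5 y) {i j : ℕ} (hi : i ≤ 3)
    (h : mT c o i j a0 b0 a1 b1 a2 b2 a3 b3 a4 b4 a5 b5 = true) : RowP c T ρ xs ys x y := by
  intro p1 p2 p3 p4 p5 p6 p7 p8 _ pm pm' _ pW pD pQ _
  have hD := DR_pos
  obtain ⟨hsep, h⟩ := cond_ff h
  unfold Rg at h2 h3 h4 h5
  simp only [Nat.cast_zero, add_zero] at h2 h3 h4 h5
  -- the box of the values between
  have hX : ∀ X, min xs x ≤ X → X ≤ max xs x →
      Rg 0 (cond c.up a2 a4) (cond c.up b4 b2) X := by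
    intro X k1 k2
    unfold Rg
    simp only [Nat.cast_zero, add_zero]
    rcases hu : c.up with _ | _
    · rw [hu] at pm
      have hlt := mm_dn' pm p1 p2 p5 p6
      rw [min_eq_right hlt] at k1
      rw [max_eq_left hlt] at k2
      simp only [cond_false]
      have e1 := mul_le_mul_of_nonneg_right k1 hD.le
      have e2 := mul_le_mul_of_nonneg_right k2 hD.le
      exact ⟨h4.1.trans e1, e2.trans h2.2⟩
    · rw [hu] at pm
      have hlt := mm_up' pm p1 p2 p5 p6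
      rw [min_eq_left hlt] at k1
      rw [max_eq_right hlt] at k2
      simp only [cond_true]
      have e1 := mul_le_mul_of_nonneg_right k1 hD.le
      have e2 := mul_le_mul_of_nonneg_right k2 hD.le
      exact ⟨h2.1.trans e1, e2.trans h4.2⟩
  have hY : ∀ Y, min ys y ≤ Y → Y ≤ max ys y → Rg 0 (yl a3 a5) (yu b3 b5) Y := by
    intro Y k1 k2
    unfold Rg
    simp only [Nat.cast_zero, add_zero]
    obtain ⟨l1, l2⟩ := yl_le a3 a5
    obtain ⟨l3, l4⟩ := le_yu b3 b5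
    have m1 : ((yl a3 a5 : ℕ) : ℝ) ≤ a3 := by exact_mod_cast l1
    have m2 : ((yl a3 a5 : ℕ) : ℝ) ≤ a5 := by exact_mod_cast l2
    have m3 : (b3 : ℝ) ≤ (yu b3 b5 : ℕ) := by exact_mod_cast l3
    have m4 : (b5 : ℝ) ≤ (yu b3 b5 : ℕ) := by exact_mod_cast l4
    have e1 := mul_le_mul_of_nonneg_right k1 hD.le
    have e2 := mul_le_mul_of_nonneg_right k2 hD.le
    constructor
    · rcases min_choice ys y with e | e
      · rw [e] at e1
        linarith only [h3, m1, e1, h3.1]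
      · rw [e] at e1
        linarith only [h5, m2, e1, h5.1]
    · rcases max_choice ys y with e | e
      · rw [e] at e2
        linarith only [h3, m3, e2, h3.2]
      · rw [e] at e2
        linarith only [h5, m4, e2, h5.2]
  have pT : T < ρ ∨ max xs x < min ys y := by
    rcases e : Nat.ble (Nat.add b0 1) (Nat.add o a1) with _ | _
    · right
      unfold sep at hsep
      rw [e, cond_false] at hsep
      have k := Nat.le_of_ble_eq_true hsep
      have k' : ((cond c.up b4 b2 : ℕ) : ℝ) + 1 ≤ (yl a3 a5 : ℕ) := by exact_mod_cast k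
      have r1 := (hX _ (le_max_left xs x |> (min_le_left xs x).trans) le_rfl).2
      have r2 := (hY _ le_rfl (min_le_left ys y |>.trans (le_max_left ys y))).1
      simp only [Nat.cast_zero, add_zero] at r1 r2
      by_contra hc
      have := mul_le_mul_of_nonneg_right (not_lt.1 hc) hD.le
      linarith only [p1, p2, k', r1, r2, this]
    · left
      have k := Nat.le_of_ble_eq_true e
      have k' : (b0 : ℝ) + 1 ≤ (o : ℝ) + a1 := by exact_mod_cast k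
      have r1 := h0.2
      have r2 := h1.1
      simp only [Nat.cast_zero, add_zero] at r2
      by_contra hc
      have := mul_le_mul_of_nonneg_right (not_lt.1 hc) hD.le
      linarith only [p1, p2, k', r1, r2, this]
  have hn1 : (0 : ℝ) ≤ (c.n1 : ℝ) / 1000 := by positivity
  have key : ∀ X Y, min xs x ≤ X → X ≤ max xs x → min ys y ≤ Y → Y ≤ max ys y →
      0 < mm c.up xs x * (BB c.up j c.mu X Y T ρ - nu c i j) +
        (gh y - gh ys) * EE c.up j X Y T ρ := by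
    intro X Y k1 k2 k3 k4
    have r2 := hX X k1 k2
    have r3 := hY Y k3 k4
    have hε := eps4_le h0.nzv.1 h1.nzv.1 r2.nzv.1 r3.nzv.1
    obtain ⟨B, E, kB, kE, h⟩ := mF_some hε (enc_v0 h0) (enc_v1 h1) (enc_v2 r2) (enc_v3 r3) h
    rcases t0 : Nat.beq c.ty 0 with _ | _
    · rw [t0, cond_false] at h
      have t0' := beq_ne t0
      obtain ⟨g2, h⟩ := cond_ff h
      have q2 := posF_spec hε (RZ1.negE kE) g2
      rcases t1 : Nat.beq c.ty 1 with _ | _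
      · rw [t1, cond_false] at h
        have t1' := beq_ne t1
        have ht : c.ty = 2 := by omega
        obtain ⟨-, h⟩ := cond_ff h
        obtain ⟨-, h⟩ := cond_ff h
        obtain ⟨g1, -⟩ := cond_ff h
        have q1 := posF_spec hε (F.Encl.add (F.Encl.sub kB kE)
          (F.Encl.rat (Nat.mul (Nat.mul 10 c.al) i) 4000 _)) g1
        have q3 := pQ ht
        have e : nu c i j = -(((Nat.mul (Nat.mul 10 c.al) i : ℕ) : ℝ) / (4000 : ℕ)) := by
          unfold nu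
          rw [if_neg t1', if_pos ht]
        rw [e]
        exact comb_D pm (by linarith only [hn1, q3]) (by linarith only [q1]) q2
      · rw [t1, cond_true] at h
        have ht := Nat.eq_of_beq_eq_true t1
        obtain ⟨g1, -⟩ := cond_ff h
        have q1 := posF_spec hε (F.Encl.sub (F.Encl.sub kB kE)
          (F.Encl.rat (Nat.mul (Nat.mul (kn j) c.al) i) 4000 _)) g1
        have q3 := pD ht
        have e : nu c i j = ((Nat.mul (Nat.mul (kn j) c.al) i : ℕ) : ℝ) / (4000 : ℕ) := by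
          unfold nu
          rw [if_pos ht]
        rw [e]
        exact comb_D pm (by linarith only [q3]) (by linarith only [q1]) q2
    · rw [t0, cond_true] at h
      have ht := Nat.eq_of_beq_eq_true t0
      obtain ⟨-, h⟩ := cond_ff h
      obtain ⟨-, h⟩ := cond_ff h
      obtain ⟨g1, g2⟩ := cond_ff h
      have q1 := posF_spec hε (F.Encl.add kB kE) g1
      have q2 := posF_spec hε (F.Encl.sub kB kE) g2
      have q3 := pW ht
      rw [abs_sub_comm] at q3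
      have e : nu c i j = 0 := by
        unfold nu
        rw [if_neg (by omega), if_neg (by omega)]
      rw [e, sub_zero]
      exact comb_W (pm' (by omega)) q3 q1 q2
  have hd := phv_lt (nu c i j) p1 p2 p3 p4 p5 p6 p7 p8 pT key
  rw [phv_diff] at hd
  -- the discrete part of the test
  have r2 := hX xs (min_le_left _ _) (le_max_left _ _)
  have r3 := hY ys (min_le_left _ _) (le_max_left _ _)
  have hε := eps4_le h0.nzv.1 h1.nzv.1 r2.nzv.1 r3.nzv.1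
  obtain ⟨B, E, -, -, h⟩ := mF_some hε (enc_v0 h0) (enc_v1 h1) (enc_v2 r2) (enc_v3 r3) h
  have hh : gh (1 / 2) = 0 := gh_half
  rcases t0 : Nat.beq c.ty 0 with _ | _
  swap
  · rw [t0, cond_true] at h
    obtain ⟨-, h⟩ := cond_ff h
    obtain ⟨hj, -⟩ := cond_ff h
    have ht := Nat.eq_of_beq_eq_true t0
    have hj0 := Nat.eq_of_beq_eq_true hj
    have e : nu c i j = 0 := by
      unfold nu
      rw [if_neg (by omega), if_neg (by omega)]
    rw [e, zero_mul, if_neg (by omega), kn_eq, if_neg (by omega)] at hd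
    have hk0 : kap j = 0 := by rw [hj0]; rfl
    rw [hk0, Nat.cast_zero, zero_div, zero_mul, add_zero] at hd
    exact ⟨fun _ => hd, fun h => by omega, fun h => by omega⟩
  rw [t0, cond_false] at h
  have t0' := beq_ne t0
  obtain ⟨-, h⟩ := cond_ff h
  rcases t1 : Nat.beq c.ty 1 with _ | _
  · rw [t1, cond_false] at h
    have t1' := beq_ne t1
    have ht : c.ty = 2 := by omega
    obtain ⟨hj, h⟩ := cond_ff h
    obtain ⟨hdl, h⟩ := cond_ff h
    obtain ⟨-, h⟩ := cond_ff h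
    have hj0 := Nat.eq_of_beq_eq_true hj
    have hdl0 := Nat.eq_of_beq_eq_true hdl
    have e : nu c i j = -((c.al : ℝ) / 100 * ((i : ℝ) / 4)) := by
      unfold nu
      rw [if_neg t1', if_pos ht]
      change -(((10 * c.al * i : ℕ) : ℝ) / (4000 : ℕ)) = _
      push_cast
      ring
    rw [e, if_pos hj0] at hd
    refine con2 ht ?_
    rw [hdl0, Nat.cast_zero, zero_div, sub_zero]
    rcases ei : Nat.beq i 0 with _ | _
    swap
    · left
      have hi0 := Nat.eq_of_beq_eq_true ei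
      rw [hi0, Nat.cast_zero, zero_div, mul_zero, neg_zero, zero_mul] at hd
      exact hd
    rw [ei, cond_false] at h
    right
    have k : (c.m0 : ℝ) / 1000 ≤ (1 - (i : ℝ) / 4) * mm c.up xs x := by
      rcases hu : c.up with _ | _
      · rw [hu, cond_false] at h
        have q := tqc_spec (by norm_num) h2.1 hf_eq.ge h4.2 hf_eq.le (by linarith only [p1, p2]) (by norm_num) p5
          (by norm_num) (log_one_sub _) h
        have e : mm false xs x = gh xs - gh x := rfl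
        refine ndiv4' c.m0 i hi ?_
        rw [e]
        linarith only [q]
      · rw [hu, cond_true] at h
        have q := tqc_spec (by norm_num) h4.1 hf_eq.ge h2.2 hf_eq.le (by linarith only [p1, p2, p6]) (by norm_num) p1
          (by norm_num) (log_one_sub _) h
        have e : mm true xs x = gh x - gh xs := rfl
        refine ndiv4' c.m0 i hi ?_
        rw [e]
        linarith only [q]
    have k2 := mul_le_mul_of_nonneg_left k (by positivity : (0 : ℝ) ≤ (c.al : ℝ) / 100)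
    linarith only [hd, k2]
  · rw [t1, cond_true] at h
    have ht := Nat.eq_of_beq_eq_true t1
    obtain ⟨-, h⟩ := cond_ff h
    have e : nu c i j = (kn j : ℝ) / 10 * ((c.al : ℝ) / 100 * ((i : ℝ) / 4)) := by
      unfold nu
      rw [if_pos ht]
      change ((kn j * c.al * i : ℕ) : ℝ) / (4000 : ℕ) = _
      push_cast
      ring
    have e0 : 0 ≤ nu c i j * mm c.up xs x := by
      rw [e]
      exact mul_nonneg (by positivity) pm
    refine con1 (j := j) (dd := 0) ht (Or.inl rfl) ?_ ?_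
    · rw [Nat.cast_zero, zero_div, mul_zero, add_zero]
      linarith only [hd, e0]
    rw [Nat.cast_zero, zero_div, mul_zero, add_zero]
    rcases ea : Nat.beq c.al 0 with _ | _
    swap
    · left
      have := Nat.eq_of_beq_eq_true ea
      rw [this, Nat.cast_zero, zero_div, zero_mul]
    rw [ea, cond_false] at h
    right
    have k : (1 - (i : ℝ) / 4) * mm c.up xs x ≤ (c.m0 : ℝ) / 1000 := by
      rcases hu : c.up with _ | _
      · rw [hu, cond_false] at h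
        have q := tqc_spec (by norm_num) h4.1 hf_eq.ge h2.2 hf_eq.le (by linarith only [p1, p2, p6]) (by norm_num) p1
          (by norm_num) (log_one_add _) h
        have e : mm false xs x = gh xs - gh x := rfl
        refine ndiv4 c.m0 i hi ?_
        rw [e]
        linarith only [q]
      · rw [hu, cond_true] at h
        have q := tqc_spec (by norm_num) h2.1 hf_eq.ge h4.2 hf_eq.le (by linarith only [p1, p2]) (by norm_num) p5
          (by norm_num) (log_one_add _) h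
        have e : mm true xs x = gh x - gh xs := rfl
        refine ndiv4 c.m0 i hi ?_
        rw [e]
        linarith only [q]
    have k2 := mul_le_mul_of_nonneg_left k
      (by positivity : (0 : ℝ) ≤ (kn j : ℝ) / 10 * ((c.al : ℝ) / 100))
    rw [e] at hd
    linarith only [hd, k2]

theorem sT_spec (h0 : Rg o a0 b0 T) (h1 : Rg 0 a1 b1 ρ) (h2 : Rg 0 a2 b2 xs)
    (h3 : Rg 0 a3 b3 ys) (h4 : Rg 0 a4 b4 x) (h5 : Rg 0 a5 b5 y) {k : ℕ} (hty : c.ty ≤ 2)
    (h : sT c o k a0 b0 a1 b1 a2 b2 a3 b3 a4 b4 a5 b5 = true) : RowP c T ρ xs ys x y := by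
  intro p1 p2 p3 p4 p5 p6 p7 p8 pw pm pm' pm1 pW pD pQ pV
  exfalso
  have hD := DR_pos
  have r0 := h0
  have r1 := h1
  have r2 := h2
  have r3 := h3
  unfold Rg at h2 h3 h4 h5
  simp only [Nat.cast_zero, add_zero] at h2 h3 h4 h5
  have hone : ∀ _ : 0 < ((1 : ℕ) : ℝ) / (1 : ℕ), Real.log (((1 : ℕ) : ℝ) / (1 : ℕ)) ≤ 0 := by
    intro _
    simp
  have hh : gh (1 / 2) = 0 := gh_half
  have hn1 : (0 : ℝ) ≤ (c.n1 : ℝ) / 1000 := by positivity
  unfold sT at h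
  rcases k0 : Nat.beq k 48 with _ | _
  swap
  · rw [k0, cond_true] at h
    rcases t2 : Nat.beq c.ty 2 with _ | _
    · rw [t2, cond_false] at h
      have pm := pm' (beq_ne t2)
      rcases hu : c.up with _ | _
      · rw [hu, cond_false] at h
        rw [hu] at pm
        have hlt := mm_dn pm p1 p2 p5 p6
        have g := Nat.le_of_ble_eq_true h
        have g' : (b2 : ℝ) ≤ a4 := by exact_mod_cast g
        have : xs * DR ≤ x * DR := by linarith only [h2, h4, g', h2.2, h4.1]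
        have := le_of_mul_le_mul_right this hD
        linarith only [hlt, this]
      · rw [hu, cond_true] at h
        rw [hu] at pm
        have hlt := mm_up pm p1 p2 p5 p6
        have g := Nat.le_of_ble_eq_true h
        have g' : (b4 : ℝ) ≤ a2 := by exact_mod_cast g
        have : x * DR ≤ xs * DR := by linarith only [h2, h4, g', h2.1, h4.2]
        have := le_of_mul_le_mul_right this hD
        linarith only [hlt, this]
    · rw [t2, cond_true] at h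
      rcases hu : c.up with _ | _
      · rw [hu, cond_false] at h
        rw [hu] at pm
        have hlt := mm_dn' pm p1 p2 p5 p6
        have g := Nat.le_of_ble_eq_true h
        have g' : ((b2 + 1 : ℕ) : ℝ) ≤ a4 := by exact_mod_cast g
        push_cast at g'
        have := mul_le_mul_of_nonneg_right hlt hD.le
        linarith only [p1, p2, h2, h4, g', this, h2.2, h4.1]
      · rw [hu, cond_true] at h
        rw [hu] at pm
        have hlt := mm_up' pm p1 p2 p5 p6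
        have g := Nat.le_of_ble_eq_true h
        have g' : ((b4 + 1 : ℕ) : ℝ) ≤ a2 := by exact_mod_cast g
        push_cast at g'
        have := mul_le_mul_of_nonneg_right hlt hD.le
        linarith only [p1, p2, h2, h4, g', this, h2.1, h4.2]
  rw [k0, cond_false] at h
  rcases k1 : Nat.beq k 49 with _ | _
  swap
  · rw [k1, cond_true] at h
    obtain ⟨ht, h⟩ := cond_ff h
    have q3 := (abs_le.mp (pW (Nat.eq_of_beq_eq_true ht))).2
    rcases hu : c.up with _ | _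
    · rw [hu, cond_false] at h
      rw [hu] at q3
      have q := tqc_spec (by norm_num) h3.1 h4.1 h5.2 h2.2 (by linarith only [p1, p2, p4]) (by linarith only [p1, p2, p6]) p7 p1 hone h
      have e : mm false xs x = gh xs - gh x := rfl
      rw [e] at q3
      linarith only [q3, q]
    · rw [hu, cond_true] at h
      rw [hu] at q3
      have q := tqc_spec (by norm_num) h3.1 h2.1 h5.2 h4.2 (by linarith only [p1, p2, p4]) (by linarith only [p1, p2]) p7 p5 hone h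
      have e : mm true xs x = gh x - gh xs := rfl
      rw [e] at q3
      linarith only [q3, q]
  rw [k1, cond_false] at h
  rcases k2 : Nat.beq k 50 with _ | _
  swap
  · rw [k2, cond_true] at h
    obtain ⟨ht, h⟩ := cond_ff h
    have q3 := (abs_le.mp (pW (Nat.eq_of_beq_eq_true ht))).1
    rcases hu : c.up with _ | _
    · rw [hu, cond_false] at h
      rw [hu] at q3
      have q := tqc_spec (by norm_num) h5.1 h4.1 h3.2 h2.2 (by linarith only [p1, p2, p8]) (by linarith only [p1, p2, p6]) p3 p1 hone h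
      have e : mm false xs x = gh xs - gh x := rfl
      rw [e] at q3
      linarith only [q3, q]
    · rw [hu, cond_true] at h
      rw [hu] at q3
      have q := tqc_spec (by norm_num) h5.1 h2.1 h3.2 h4.2 (by linarith only [p1, p2, p8]) (by linarith only [p1, p2]) p3 p5 hone h
      have e : mm true xs x = gh x - gh xs := rfl
      rw [e] at q3
      linarith only [q3, q]
  rw [k2, cond_false] at h
  rcases k3 : Nat.beq k 51 with _ | _
  swap
  · rw [k3, cond_true] at h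
    rcases ht : Nat.beq c.ty 0 with _ | _
    swap
    · rw [ht, cond_true] at h
      exact absurd h (by decide)
    rw [ht, cond_false] at h
    have t0' := beq_ne ht
    have q3 : mm c.up xs x + ((cond (Nat.beq c.ty 2) c.n1 0 : ℕ) : ℝ) / 1000 < gh ys - gh y := by
      rcases t2 : Nat.beq c.ty 2 with _ | _
      · have t2' := beq_ne t2
        rw [cond_false, Nat.cast_zero, zero_div, add_zero]
        exact pD (by omega)
      · rw [cond_true]
        exact pQ (Nat.eq_of_beq_eq_true t2)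
    rcases hu : c.up with _ | _
    · rw [hu, cond_false] at h
      rw [hu] at q3
      have q := tqc_spec (by norm_num) h2.1 h5.1 h4.2 h3.2 (by linarith only [p1, p2]) (by linarith only [p1, p2, p8]) p5 p3
        (log_one_add _) h
      have e : mm false xs x = gh xs - gh x := rfl
      rw [e] at q3
      linarith only [q3, q]
    · rw [hu, cond_true] at h
      rw [hu] at q3
      have q := tqc_spec (by norm_num) h4.1 h5.1 h2.2 h3.2 (by linarith only [p1, p2, p6]) (by linarith only [p1, p2, p8]) p1 p3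
        (log_one_add _) h
      have e : mm true xs x = gh x - gh xs := rfl
      rw [e] at q3
      linarith only [q3, q]
  rw [k3, cond_false] at h
  rcases k4 : Nat.beq k 52 with _ | _
  swap
  · rw [k4, cond_true] at h
    rcases ht : Nat.beq c.ty 0 with _ | _
    swap
    · rw [ht, cond_true] at h
      exact absurd h (by decide)
    rw [ht, cond_false] at h
    have t0' := beq_ne ht
    have q3 : mm c.up xs x < gh ys - gh y := by
      by_cases t2 : c.ty = 2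
      · linarith only [hn1, pQ, t2, pQ t2]
      · exact pD (by omega)
    have g := Nat.le_of_ble_eq_true h
    have g' : (b3 : ℝ) ≤ a5 := by exact_mod_cast g
    have q4 : ys * DR ≤ y * DR := by linarith only [h3, h5, g', h3.2, h5.1]
    have q5 := le_of_mul_le_mul_right q4 hD
    have q6 := strictMonoOn_gh.monotoneOn (a := ys) (b := y) ⟨p3, by linarith only [p1, p2, p4]⟩ ⟨p7, by linarith only [p1, p2, p8]⟩ q5
    linarith only [pm, q3, q6]
  rw [k4, cond_false] at h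
  rcases k5 : Nat.beq k 53 with _ | _
  swap
  · rw [k5, cond_true] at h
    obtain ⟨t2, h⟩ := cond_ff h
    rcases ht : Nat.beq c.m1 0 with _ | _
    swap
    · rw [ht, cond_true] at h
      exact absurd h (by decide)
    rw [ht, cond_false] at h
    have q3 := pm1 (Nat.eq_of_beq_eq_true t2) (beq_ne ht)
    rcases hu : c.up with _ | _
    · rw [hu, cond_false] at h
      rw [hu] at q3
      have q := tqc_spec (by norm_num) h2.1 hf_eq.ge h4.2 hf_eq.le (by linarith only [p1, p2]) (by norm_num) p5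
        (by norm_num) (log_one_sub c.m1) h
      have e : mm false xs x = gh xs - gh x := rfl
      rw [e] at q3
      linarith only [q3, q]
    · rw [hu, cond_true] at h
      rw [hu] at q3
      have q := tqc_spec (by norm_num) h4.1 hf_eq.ge h2.2 hf_eq.le (by linarith only [p1, p2, p6]) (by norm_num) p1
        (by norm_num) (log_one_sub c.m1) h
      have e : mm true xs x = gh x - gh xs := rfl
      rw [e] at q3
      linarith only [q3, q]
  rw [k5, cond_false] at h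
  rcases k6 : Nat.beq k 54 with _ | _
  swap
  · rw [k6, cond_true] at h
    rcases hv : Nat.beq c.vs 0 with _ | _
    swap
    · rw [hv, cond_true] at h
      exact absurd h (by decide)
    rw [hv, cond_false] at h
    obtain ⟨g1, h⟩ := cond_ff h
    have q1 := tqc_spec (by norm_num) h3.1 h5.1 h2.2 h4.2 (by linarith only [p1, p2, p4]) (by linarith only [p1, p2, p8]) p1 p5 hone g1
    rcases pV (beq_ne hv) with q2 | ⟨q2, q3, q4⟩
    · linarith only [q1, q2]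
    have t1 : Nat.beq c.ty 1 = true := by rw [q2]; rfl
    rw [t1, cond_true] at h
    have ea : Nat.beq c.al 0 = false := by
      rcases hb : Nat.beq c.al 0 with _ | _
      · rfl
      · exact absurd (Nat.eq_of_beq_eq_true hb) q3
    rw [ea, cond_false] at h
    rcases hu : c.up with _ | _
    · rw [hu, cond_false] at h
      rw [hu] at q4
      have q := tqc_spec (by norm_num) h4.1 hf_eq.ge h2.2 hf_eq.le (by linarith only [p1, p2, p6]) (by norm_num) p1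
        (by norm_num) (log_one_add c.m0) h
      have e : mm false xs x = gh xs - gh x := rfl
      rw [e] at q4
      linarith only [q4, q]
    · rw [hu, cond_true] at h
      rw [hu] at q4
      have q := tqc_spec (by norm_num) h2.1 hf_eq.ge h4.2 hf_eq.le (by linarith only [p1, p2]) (by norm_num) p5
        (by norm_num) (log_one_add c.m0) h
      have e : mm true xs x = gh x - gh xs := rfl
      rw [e] at q4
      linarith only [q4, q]
  rw [k6, cond_false] at h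
  rcases hl : lkW c.ws (Nat.sub k 55) with _ | l
  · rw [hl] at h
    exact Bool.false_ne_true h
  · rw [hl] at h
    exact LC.bad_spec r0 r1 r2 r3 h (pw l (lkW_mem hl))

theorem rgT_spec (h2 : Rg 0 a2 b2 xs)
    (h3 : Rg 0 a3 b3 ys) (h4 : Rg 0 a4 b4 x) (h5 : Rg 0 a5 b5 y) (p1 : 0 < xs) (p2 : xs < 1 / 2)
    (p4 : ys ≤ 1 / 2) (p5 : 0 < x) (p6 : x < 1 / 2) (p7 : 0 < y)
    (h : rgT c a2 b2 a3 a4 b4 b5 = true) : mm c.up xs x ≤ (c.m1 : ℝ) / 1000 ∧
      mm c.up xs x + (c.n1 : ℝ) / 1000 ≤ gh ys - gh y := by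
  unfold Rg at h2 h3 h4 h5
  simp only [Nat.cast_zero, add_zero] at h2 h3 h4 h5
  have hh : gh (1 / 2) = 0 := gh_half
  unfold rgT at h
  rcases hb : Nat.beq c.dl 0 with _ | _
  swap
  · rw [hb, cond_true] at h
    exact absurd h (by decide)
  rw [hb, cond_false] at h
  obtain ⟨-, h⟩ := cond_ff h
  rcases hu : c.up with _ | _
  · rw [hu, cond_false] at h
    obtain ⟨g1, g2⟩ := cond_ff h
    have q := tqc_spec (by norm_num) h4.1 hf_eq.ge h2.2 hf_eq.le (by linarith only [p1, p2, p6]) (by norm_num) p1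
      (by norm_num) (log_one_add c.m1) g1
    have q2 := tqc_spec (by norm_num) h4.1 h3.1 h2.2 h5.2 (by linarith only [p1, p2, p6]) (by linarith only [p1, p2, p4]) p1 p7
      (log_one_sub c.n1) g2
    have e : mm false xs x = gh xs - gh x := rfl
    rw [e]
    constructor <;> linarith only [q, q2]
  · rw [hu, cond_true] at h
    obtain ⟨g1, g2⟩ := cond_ff h
    have q := tqc_spec (by norm_num) h2.1 hf_eq.ge h4.2 hf_eq.le (by linarith only [p1, p2]) (by norm_num) p5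
      (by norm_num) (log_one_add c.m1) g1
    have q2 := tqc_spec (by norm_num) h2.1 h3.1 h4.2 h5.2 (by linarith only [p1, p2]) (by linarith only [p1, p2, p4]) p5 p7
      (log_one_sub c.n1) g2
    have e : mm true xs x = gh x - gh xs := rfl
    rw [e]
    constructor <;> linarith only [q, q2]

theorem tT_ok (hty : c.ty ≤ 2) : TstOk o (tT c o) (RowP c) := by
  intro k a0 b0 a1 b1 a2 b2 a3 b3 a4 b4 a5 b5 T ρ xs ys x y h0 h1 h2 h3 h4 h5 h
  unfold tT at h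
  rcases e : Nat.ble k 31 with _ | _
  · rw [e, cond_false] at h
    rcases e' : Nat.ble k 47 with _ | _
    · rw [e', cond_false] at h
      rcases e2 : Nat.ble k 73 with _ | _
      · rw [e2, cond_false] at h
        obtain ⟨g, h⟩ := cond_ff h
        refine mT_spec hty h0 h1 h2 h3 h4 h5 ?_ h
        have g' := Nat.le_of_ble_eq_true g
        have : Nat.shiftRight (Nat.sub k 74) 4 = (k - 74) >>> 4 := rfl
        rw [this, Nat.shiftRight_eq_div_pow]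
        change 1 + (k - 74) / 2 ^ 4 ≤ 3
        omega
      · rw [e2, cond_true] at h
        exact sT_spec h0 h1 h2 h3 h4 h5 hty h
    · rw [e', cond_true] at h
      exact mT_spec hty h0 h1 h2 h3 h4 h5 (by omega) h
  · rw [e, cond_true] at h
    intro p1 p2 p3 p4 p5 p6 p7 p8 _ _ _ _ _ _ _ _
    refine rT_spec h0.nzv.1 h1.nzv.1 h2.nzv.1 h3.nzv.1 h4.nzv.1 h5.nzv.1 (enc_v0 h0) (enc_v1 h1)
      (enc_v2 h4) (enc_v3 h5) (enc_v0 h0) (enc_v1 h1) (enc_v2 h2) (enc_v3 h3) p1 (by linarith only [p1, p2]) p5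
      (by linarith only [p1, p2, p6]) h hty _ ?_
    intro _
    rcases hr : rgT c a2 b2 a3 a4 b4 b5 with _ | _
    · left
      rfl
    · right
      exact ⟨rfl, rgT_spec h2 h3 h4 h5 p1 p2 p4 p5 p6 p7 hr⟩

end

/-! ### boxes -/

/-- the row on a box, units `1 / 10000`; offset `2000` of the first variable -/
def Bx (c : Cf) (l0 h0 l1 h1 l2 h2 l3 h3 l4 h4 l5 h5 : ℕ) : Prop :=
  ∀ x0 x1 x2 x3 x4 x5 : ℝ, ((l0 : ℝ) - 2000) / 10000 ≤ x0 → x0 ≤ ((h0 : ℝ) - 2000) / 10000 →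
    (l1 : ℝ) / 10000 ≤ x1 → x1 ≤ (h1 : ℝ) / 10000 → (l2 : ℝ) / 10000 ≤ x2 →
    x2 ≤ (h2 : ℝ) / 10000 → (l3 : ℝ) / 10000 ≤ x3 → x3 ≤ (h3 : ℝ) / 10000 →
    (l4 : ℝ) / 10000 ≤ x4 → x4 ≤ (h4 : ℝ) / 10000 → (l5 : ℝ) / 10000 ≤ x5 →
    x5 ≤ (h5 : ℝ) / 10000 → RowP c x0 x1 x2 x3 x4 x5

/-- offset -/
def o20 : ℕ := 13743895348

theorem Bx.of {c : Cf} (hty : c.ty ≤ 2) {fuel l0 h0 l1 h1 l2 h2 l3 h3 l4 h4 l5 h5 cd : ℕ}
    (h : ok6 (tT c o20) fuel l0 h0 l1 h1 l2 h2 l3 h3 l4 h4 l5 h5 cd = true) :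
    Bx c l0 h0 l1 h1 l2 h2 l3 h3 l4 h4 l5 h5 := by
  intro x0 x1 x2 x3 x4 x5 p0 q0 p1 q1 p2 q2 p3 q3 p4 q4 p5 q5
  have ho : off 2000 = o20 := rfl
  have e : ((2000 : ℕ) : ℝ) = 2000 := by norm_num
  exact ok6_sound (o := 2000) (by rw [ho]; exact tT_ok hty) h (by rw [e]; exact p0)
    (by rw [e]; exact q0) p1 q1 p2 q2 p3 q3 p4 q4 p5 q5

section
variable {c : Cf} {l0 h0 l1 h1 l2 h2 l3 h3 l4 h4 l5 h5 : ℕ}

theorem Bx.s0 (m : ℕ) (a : Bx c l0 m l1 h1 l2 h2 l3 h3 l4 h4 l5 h5)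
    (b : Bx c m h0 l1 h1 l2 h2 l3 h3 l4 h4 l5 h5) : Bx c l0 h0 l1 h1 l2 h2 l3 h3 l4 h4 l5 h5 := by
  intro x0 x1 x2 x3 x4 x5 p0 q0 p1 q1 p2 q2 p3 q3 p4 q4 p5 q5
  rcases le_total x0 (((m : ℝ) - 2000) / 10000) with h | h
  · exact a x0 x1 x2 x3 x4 x5 p0 h p1 q1 p2 q2 p3 q3 p4 q4 p5 q5
  · exact b x0 x1 x2 x3 x4 x5 h q0 p1 q1 p2 q2 p3 q3 p4 q4 p5 q5

theorem Bx.s1 (m : ℕ) (a : Bx c l0 h0 l1 m l2 h2 l3 h3 l4 h4 l5 h5)
    (b : Bx c l0 h0 m h1 l2 h2 l3 h3 l4 h4 l5 h5) : Bx c l0 h0 l1 h1 l2 h2 l3 h3 l4 h4 l5 h5 := by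
  intro x0 x1 x2 x3 x4 x5 p0 q0 p1 q1 p2 q2 p3 q3 p4 q4 p5 q5
  rcases le_total x1 ((m : ℝ) / 10000) with h | h
  · exact a x0 x1 x2 x3 x4 x5 p0 q0 p1 h p2 q2 p3 q3 p4 q4 p5 q5
  · exact b x0 x1 x2 x3 x4 x5 p0 q0 h q1 p2 q2 p3 q3 p4 q4 p5 q5

theorem Bx.s2 (m : ℕ) (a : Bx c l0 h0 l1 h1 l2 m l3 h3 l4 h4 l5 h5)
    (b : Bx c l0 h0 l1 h1 m h2 l3 h3 l4 h4 l5 h5) : Bx c l0 h0 l1 h1 l2 h2 l3 h3 l4 h4 l5 h5 := by
  intro x0 x1 x2 x3 x4 x5 p0 q0 p1 q1 p2 q2 p3 q3 p4 q4 p5 q5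
  rcases le_total x2 ((m : ℝ) / 10000) with h | h
  · exact a x0 x1 x2 x3 x4 x5 p0 q0 p1 q1 p2 h p3 q3 p4 q4 p5 q5
  · exact b x0 x1 x2 x3 x4 x5 p0 q0 p1 q1 h q2 p3 q3 p4 q4 p5 q5

theorem Bx.s3 (m : ℕ) (a : Bx c l0 h0 l1 h1 l2 h2 l3 m l4 h4 l5 h5)
    (b : Bx c l0 h0 l1 h1 l2 h2 m h3 l4 h4 l5 h5) : Bx c l0 h0 l1 h1 l2 h2 l3 h3 l4 h4 l5 h5 := by
  intro x0 x1 x2 x3 x4 x5 p0 q0 p1 q1 p2 q2 p3 q3 p4 q4 p5 q5
  rcases le_total x3 ((m : ℝ) / 10000) with h | h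
  · exact a x0 x1 x2 x3 x4 x5 p0 q0 p1 q1 p2 q2 p3 h p4 q4 p5 q5
  · exact b x0 x1 x2 x3 x4 x5 p0 q0 p1 q1 p2 q2 h q3 p4 q4 p5 q5

theorem Bx.s4 (m : ℕ) (a : Bx c l0 h0 l1 h1 l2 h2 l3 h3 l4 m l5 h5)
    (b : Bx c l0 h0 l1 h1 l2 h2 l3 h3 m h4 l5 h5) : Bx c l0 h0 l1 h1 l2 h2 l3 h3 l4 h4 l5 h5 := by
  intro x0 x1 x2 x3 x4 x5 p0 q0 p1 q1 p2 q2 p3 q3 p4 q4 p5 q5
  rcases le_total x4 ((m : ℝ) / 10000) with h | h
  · exact a x0 x1 x2 x3 x4 x5 p0 q0 p1 q1 p2 q2 p3 q3 p4 h p5 q5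
  · exact b x0 x1 x2 x3 x4 x5 p0 q0 p1 q1 p2 q2 p3 q3 h q4 p5 q5

theorem Bx.s5 (m : ℕ) (a : Bx c l0 h0 l1 h1 l2 h2 l3 h3 l4 h4 l5 m)
    (b : Bx c l0 h0 l1 h1 l2 h2 l3 h3 l4 h4 m h5) : Bx c l0 h0 l1 h1 l2 h2 l3 h3 l4 h4 l5 h5 := by
  intro x0 x1 x2 x3 x4 x5 p0 q0 p1 q1 p2 q2 p3 q3 p4 q4 p5 q5
  rcases le_total x5 ((m : ℝ) / 10000) with h | h
  · exact a x0 x1 x2 x3 x4 x5 p0 q0 p1 q1 p2 q2 p3 q3 p4 q4 p5 h
  · exact b x0 x1 x2 x3 x4 x5 p0 q0 p1 q1 p2 q2 p3 q3 p4 q4 h q5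

end

end R6

end Pool.Agent.Work.MP_b30479_gtS.G2

end

section

/-!
# Certificate trees of rows in pieces

`RB`: the row on a box in units `2^(-36)`; a long certificate is cut at inner nodes into theorems
for parts of the box.
-/

namespace Pool.Agent.Work.MP_b30479_gtS.G2

open NumIs

namespace R6

/-- the row on a box, units `2^(-36)` -/
def RB (c : Cf) (a0 b0 a1 b1 a2 b2 a3 b3 a4 b4 a5 b5 : ℕ) : Prop :=
  ∀ x0 x1 x2 x3 x4 x5 : ℝ, Rg o20 a0 b0 x0 → Rg 0 a1 b1 x1 → Rg 0 a2 b2 x2 → Rg 0 a3 b3 x3 →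
    Rg 0 a4 b4 x4 → Rg 0 a5 b5 x5 → RowP c x0 x1 x2 x3 x4 x5

/-- the check of a part -/
noncomputable def okR (c : Cf) (fuel a0 b0 a1 b1 a2 b2 a3 b3 a4 b4 a5 b5 cd : ℕ) : Bool :=
  Option.rec (motive := fun _ => Bool) false (fun c => Nat.beq c 0)
    (run6 (tT c o20) fuel a0 b0 a1 b1 a2 b2 a3 b3 a4 b4 a5 b5 cd)

theorem RB.of {c : Cf} (hty : c.ty ≤ 2) {fuel a0 b0 a1 b1 a2 b2 a3 b3 a4 b4 a5 b5 cd : ℕ}
    (h : okR c fuel a0 b0 a1 b1 a2 b2 a3 b3 a4 b4 a5 b5 cd = true) :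
    RB c a0 b0 a1 b1 a2 b2 a3 b3 a4 b4 a5 b5 := by
  intro x0 x1 x2 x3 x4 x5 h0 h1 h2 h3 h4 h5
  unfold okR at h
  rcases hr : run6 (tT c o20) fuel a0 b0 a1 b1 a2 b2 a3 b3 a4 b4 a5 b5 cd with _ | c'
  · rw [hr] at h
    exact absurd h (by simp)
  · exact run6_sound (tT_ok hty) fuel hr h0 h1 h2 h3 h4 h5

/-- the bounds of a box in the two units -/
def eqs (l0 h0 l1 h1 l2 h2 l3 h3 l4 h4 l5 h5 a0 b0 a1 b1 a2 b2 a3 b3 a4 b4 a5 b5 : ℕ) : Bool :=
  let A (l : ℕ) := Nat.div (Nat.mul l 68719476736) 10000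
  let B (h : ℕ) := Nat.add (Nat.div (Nat.mul h 68719476736) 10000) 2
  Nat.beq (A l0) a0 && Nat.beq (B h0) b0 && Nat.beq (A l1) a1 && Nat.beq (B h1) b1 &&
    Nat.beq (A l2) a2 && Nat.beq (B h2) b2 && Nat.beq (A l3) a3 && Nat.beq (B h3) b3 &&
    Nat.beq (A l4) a4 && Nat.beq (B h4) b4 && Nat.beq (A l5) a5 && Nat.beq (B h5) b5

theorem Bx.ofR {c : Cf}
    {l0 h0 l1 h1 l2 h2 l3 h3 l4 h4 l5 h5 a0 b0 a1 b1 a2 b2 a3 b3 a4 b4 a5 b5 : ℕ}
    (e : eqs l0 h0 l1 h1 l2 h2 l3 h3 l4 h4 l5 h5 a0 b0 a1 b1 a2 b2 a3 b3 a4 b4 a5 b5 = true)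
    (h : RB c a0 b0 a1 b1 a2 b2 a3 b3 a4 b4 a5 b5) :
    Bx c l0 h0 l1 h1 l2 h2 l3 h3 l4 h4 l5 h5 := by
  unfold eqs at e
  simp only [Bool.and_eq_true] at e
  obtain ⟨⟨⟨⟨⟨⟨⟨⟨⟨⟨⟨e0, e1⟩, e2⟩, e3⟩, e4⟩, e5⟩, e6⟩, e7⟩, e8⟩, e9⟩, e10⟩, e11⟩ := e
  have e0 := Nat.eq_of_beq_eq_true e0
  have e1 := Nat.eq_of_beq_eq_true e1
  have e2 := Nat.eq_of_beq_eq_true e2
  have e3 := Nat.eq_of_beq_eq_true e3
  have e4 := Nat.eq_of_beq_eq_true e4
  have e5 := Nat.eq_of_beq_eq_true e5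
  have e6 := Nat.eq_of_beq_eq_true e6
  have e7 := Nat.eq_of_beq_eq_true e7
  have e8 := Nat.eq_of_beq_eq_true e8
  have e9 := Nat.eq_of_beq_eq_true e9
  have e10 := Nat.eq_of_beq_eq_true e10
  have e11 := Nat.eq_of_beq_eq_true e11
  subst e0 e1 e2 e3 e4 e5 e6 e7 e8 e9 e10 e11
  intro x0 x1 x2 x3 x4 x5 p0 q0 p1 q1 p2 q2 p3 q3 p4 q4 p5 q5
  have e : ((10000 : ℕ) : ℝ) = 10000 := by norm_num
  have e' : ((2000 : ℕ) : ℝ) = 2000 := by norm_num
  have ho : off 2000 = o20 := rfl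
  have r : ∀ {l h : ℕ} {x : ℝ}, (l : ℝ) / 10000 ≤ x → x ≤ (h : ℝ) / 10000 →
      Rg 0 (Nat.div (Nat.mul l 68719476736) 10000)
        (Nat.add (Nat.div (Nat.mul h 68719476736) 10000) 2) x := by
    intro l h x a b
    have := Rg.dec (N := 10000) (l := l) (h := h) (o := 0) (by norm_num) (x := x)
      (by rw [e, Nat.cast_zero, sub_zero]; exact a) (by rw [e, Nat.cast_zero, sub_zero]; exact b)
    exact this
  refine h x0 x1 x2 x3 x4 x5 ?_ (r p1 q1) (r p2 q2) (r p3 q3) (r p4 q4) (r p5 q5)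
  rw [← ho]
  exact Rg.dec (N := 10000) (o := 2000) (by norm_num) (by rw [e, e']; exact p0)
    (by rw [e, e']; exact q0)

section
variable {c : Cf} {a0 b0 a1 b1 a2 b2 a3 b3 a4 b4 a5 b5 : ℕ}

theorem RB.s0 (m : ℕ) (a : RB c a0 m a1 b1 a2 b2 a3 b3 a4 b4 a5 b5)
    (b : RB c m b0 a1 b1 a2 b2 a3 b3 a4 b4 a5 b5) : RB c a0 b0 a1 b1 a2 b2 a3 b3 a4 b4 a5 b5 := by
  intro x0 x1 x2 x3 x4 x5 h0 h1 h2 h3 h4 h5
  rcases h0.split m with hs | hs
  · exact a x0 x1 x2 x3 x4 x5 hs h1 h2 h3 h4 h5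
  · exact b x0 x1 x2 x3 x4 x5 hs h1 h2 h3 h4 h5

theorem RB.s1 (m : ℕ) (a : RB c a0 b0 a1 m a2 b2 a3 b3 a4 b4 a5 b5)
    (b : RB c a0 b0 m b1 a2 b2 a3 b3 a4 b4 a5 b5) : RB c a0 b0 a1 b1 a2 b2 a3 b3 a4 b4 a5 b5 := by
  intro x0 x1 x2 x3 x4 x5 h0 h1 h2 h3 h4 h5
  rcases h1.split m with hs | hs
  · exact a x0 x1 x2 x3 x4 x5 h0 hs h2 h3 h4 h5
  · exact b x0 x1 x2 x3 x4 x5 h0 hs h2 h3 h4 h5

theorem RB.s2 (m : ℕ) (a : RB c a0 b0 a1 b1 a2 m a3 b3 a4 b4 a5 b5)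
    (b : RB c a0 b0 a1 b1 m b2 a3 b3 a4 b4 a5 b5) : RB c a0 b0 a1 b1 a2 b2 a3 b3 a4 b4 a5 b5 := by
  intro x0 x1 x2 x3 x4 x5 h0 h1 h2 h3 h4 h5
  rcases h2.split m with hs | hs
  · exact a x0 x1 x2 x3 x4 x5 h0 h1 hs h3 h4 h5
  · exact b x0 x1 x2 x3 x4 x5 h0 h1 hs h3 h4 h5

theorem RB.s3 (m : ℕ) (a : RB c a0 b0 a1 b1 a2 b2 a3 m a4 b4 a5 b5)
    (b : RB c a0 b0 a1 b1 a2 b2 m b3 a4 b4 a5 b5) : RB c a0 b0 a1 b1 a2 b2 a3 b3 a4 b4 a5 b5 := by
  intro x0 x1 x2 x3 x4 x5 h0 h1 h2 h3 h4 h5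
  rcases h3.split m with hs | hs
  · exact a x0 x1 x2 x3 x4 x5 h0 h1 h2 hs h4 h5
  · exact b x0 x1 x2 x3 x4 x5 h0 h1 h2 hs h4 h5

theorem RB.s4 (m : ℕ) (a : RB c a0 b0 a1 b1 a2 b2 a3 b3 a4 m a5 b5)
    (b : RB c a0 b0 a1 b1 a2 b2 a3 b3 m b4 a5 b5) : RB c a0 b0 a1 b1 a2 b2 a3 b3 a4 b4 a5 b5 := by
  intro x0 x1 x2 x3 x4 x5 h0 h1 h2 h3 h4 h5
  rcases h4.split m with hs | hs
  · exact a x0 x1 x2 x3 x4 x5 h0 h1 h2 h3 hs h5
  · exact b x0 x1 x2 x3 x4 x5 h0 h1 h2 h3 hs h5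

theorem RB.s5 (m : ℕ) (a : RB c a0 b0 a1 b1 a2 b2 a3 b3 a4 b4 a5 m)
    (b : RB c a0 b0 a1 b1 a2 b2 a3 b3 a4 b4 m b5) : RB c a0 b0 a1 b1 a2 b2 a3 b3 a4 b4 a5 b5 := by
  intro x0 x1 x2 x3 x4 x5 h0 h1 h2 h3 h4 h5
  rcases h5.split m with hs | hs
  · exact a x0 x1 x2 x3 x4 x5 h0 h1 h2 h3 h4 hs
  · exact b x0 x1 x2 x3 x4 x5 h0 h1 h2 h3 h4 hs

end

end R6

end Pool.Agent.Work.MP_b30479_gtS.G2

end
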