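import Pool.Agent.Work.MP_b30479_gt.TBS.G2.RDz
import Pool.Agent.Work.MP_b30479_gt.TBS.G2.RRT

section

/-!
# Rings on the level part: from rows with six variables to the statements of the level theorem
-/

namespace Pool.Agent.Work.MP_b30479_gtS.G2

open Real Set VOL Filter Topology

namespace RC

open R6

section
variable {xs ys T ρ cl cp x y a0 a1 p0 : ℝ}

theorem GD.y1 (g : GD xs ys cl cp) (h1 : 1 / 4 ≤ y) (h2 : y < ys) : y ∈ Ioo (0 : ℝ) 1 :=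
  ⟨by linarith only [h1], by linarith only [h2, g, g.y2]⟩

/-- **The ring variable goes down more than the hinge, small product.** -/
theorem GD.zd (g : GD xs ys cl cp) (hf : H2 xs ys T ρ) (ha : 158 / 1000 ≤ ta cl)
    (hv : shq (T - ρ) ≤ 45 / 100) (hx : x ∈ Icc cl cp) (h1 : 1 / 4 ≤ y) (h2 : y < ys)
    (hn : Nz x y T ρ) (hN : |gh x - gh xs| < gh ys - gh y) (hK : gh xs + gh x < gh ys + gh y) :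
    Dx xs ys T ρ < Dx x y T ρ := by
  have hxi := g.x1 hx
  have hyi := g.y1 h1 h2
  have hax := ta_pos g.xi
  have hay := ta_pos g.yi
  have h8 := t8_le hyi h1
  have hx1 := (ta_le' g.cli hxi).2 hx.1
  have hxy : x + y < 1 := by linarith only [h2, hx, g, hx.2, g.cp2, g.y2]
  have hN' := abs_lt.1 hN
  refine zdn g.xi g.yi hxi hyi g.hs g.y2 hxy hN ((ta_mul_lt g.xi hxi g.yi hyi).2 hK) ?_ ?_ hn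
  · have : (158 / 1000 : ℝ) * (4142 / 10000) ≤ ta x * ta y :=
      mul_le_mul (ha.trans hx1) h8.le (by norm_num) (ta_pos hxi).le
    linarith only [hv, this]
  · refine ff_of g.xi g.yi g.hs g.y4 g.y2 hxi hyi ((add_lt_iff hxi hyi).2 hxy) (shq_nonneg _) hf ?_
    have h3 : ta xs * ta y < ta x * ta ys := (ta_mul_lt g.xi hyi hxi g.yi).2 (by linarith only [hN'])
    calc (4142 / 10000 : ℝ) ^ 2 * ta xs = ta xs * (4142 / 10000) * (4142 / 10000) := by ring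
      _ < ta xs * ta y * ta y := by
        have : ta xs * (4142 / 10000) < ta xs * ta y := mul_lt_mul_of_pos_left h8 hax
        nlinarith only [this, h8]
      _ < ta x * ta ys * ta y := mul_lt_mul_of_pos_right h3 (ta_pos hyi)
      _ = _ := by ring

/-- **The hinge goes up more than the ring variable, small product.** -/
theorem GD.wupp (g : GD xs ys cl cp) (hr : DR xs ys T ρ a0 a1 p0) (ha0 : a0 ≤ ta cl)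
    (ha1 : ta cp ≤ a1) (ha1' : a1 < 1) (hp0 : p0 ≤ a0 * (4142 / 10000)) (hx : x ∈ Icc cl cp)
    (hy : y ∈ Icc (1 / 4 : ℝ) (1 / 2)) (h1 : xs < x) (hn : Nz x y T ρ)
    (hN : |gh y - gh ys| ≤ gh x - gh xs) (hK : gh xs + gh x ≤ gh ys + gh y) :
    Sx x y T ρ < Sx xs ys T ρ := by
  have hxi := g.x1 hx
  have hyi : y ∈ Ioo (0 : ℝ) 1 := ⟨by linarith only [hy, hy.1], by linarith only [hy, hy.2]⟩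
  have hxy : x + y < 1 := by linarith only [hx, g, hy, hx.2, g.cp2, hy.2]
  have hy1 := ta_le_one hyi hy.2
  have h8 := t8_le g.yi g.y4
  have hx2 := (ta_le' hxi g.cpi).2 hx.2
  refine RC.wup g.xi g.yi hxi hyi g.hs hxy (by linarith only [hx, g, hx.2, g.cp2]) h1 hN
    ((ta_mul_le g.xi hxi g.yi hyi).2 hK) hn ?_
  intro x' y' hx' hy' hyy hd hp
  have hxi' : x' ∈ Ioo (0 : ℝ) 1 := ⟨g.xi.1.trans_le hx'.1, hx'.2.trans_lt hxi.2⟩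
  have e := diag_ta g.xi g.yi hxi' hy' hd
  have a1' := (ta_le' g.xi hxi').2 hx'.1
  have a2 := (ta_le' hxi' hxi).2 hx'.2
  have a3 := (ta_le' g.cli g.xi).2 g.xl
  have a4 := (ta_le' g.yi hy').2 hyy
  have hpa : ta x' * ta y' ≤ a1 := by
    have : ta x * ta y ≤ a1 * 1 := mul_le_mul (hx2.trans ha1) hy1 (ta_pos hyi).le
      ((ta_pos hxi).le.trans (hx2.trans ha1))
    linarith only [hp, this]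
  have hp0' : p0 ≤ ta x' * ta y' := by
    have : a0 * (4142 / 10000) ≤ ta x' * ta y' :=
      mul_le_mul (by linarith only [ha0, a1', a3]) (by linarith only [h8, a4]) (by norm_num) (ta_pos hxi').le
    linarith only [hp0, this]
  obtain ⟨w1, w2⟩ := hr.W x' y' hxi' hy' (by linarith only [ha0, a1', a3]) (by linarith only [ha1, hx2, a2]) e hp0' hpa
  exact ⟨coscos hxi' hy' (by linarith only [ha1', hpa]), w2, w1, hr.U x' y' hxi' hy' a1' (by linarith only [ha1, hx2, a2]) e hpa⟩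

end

/-- everything which is known about a hinge -/
structure HD (xs ys T ρ cl cp : ℝ) : Prop extends GD xs ys cl cp where
  h2 : H2 xs ys T ρ
  ha : 158 / 1000 ≤ ta cl
  hv : shq (T - ρ) ≤ 45 / 100

section
variable {xs ys T ρ cl cp x y : ℝ} {c : Cf}

theorem mm_true (xs x : ℝ) : mm true xs x = gh x - gh xs := rfl
theorem mm_false (xs x : ℝ) : mm false xs x = gh xs - gh x := rfl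
theorem AA_true : AA true T ρ xs ys x y = Sx xs ys T ρ - Sx x y T ρ := rfl
theorem AA_false : AA false T ρ xs ys x y = Sx x y T ρ - Sx xs ys T ρ := rfl

theorem Lb_nonneg (al m0 : ℕ) (m : ℝ) : 0 ≤ Lb al m0 m := le_max_left _ _

theorem Lb_mono (al m0 : ℕ) : Monotone (Lb al m0) := by
  intro s t h
  unfold Lb
  refine max_le_max le_rfl ?_
  have : (0 : ℝ) ≤ (al : ℝ) / 100 := by positivity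
  nlinarith only [h, this]

theorem Lb_zero' (m0 : ℕ) (m : ℝ) : Lb 0 m0 m = 0 := by
  unfold Lb
  rw [Nat.cast_zero, zero_div, zero_mul, max_self]

theorem Lb_zero (al m0 : ℕ) : Lb al m0 0 = 0 := by
  unfold Lb
  apply max_eq_left
  have h1 : (0 : ℝ) ≤ (al : ℝ) / 100 := by positivity
  have h2 : (0 : ℝ) ≤ (m0 : ℝ) / 1000 := by positivity
  nlinarith only [h1, h2, mul_nonneg h1 h2]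

theorem Lb_small {al m0 : ℕ} {m : ℝ} (h : m < (m0 : ℝ) / 1000) : Lb al m0 m = 0 := by
  unfold Lb
  apply max_eq_left
  have h1 : (0 : ℝ) ≤ (al : ℝ) / 100 := by positivity
  nlinarith only [h1, h, mul_nonneg h1 (sub_pos.2 h).le]

/-- **A row for the hinge above, ring variable less.** -/
theorem row_W (g : GD xs ys cl cp) (hc : c.up = true) (ht : c.ty = 0)
    (R : RowP c T ρ xs ys x y) (hw : ∀ l ∈ c.ws, l.ok T ρ xs ys) (hx : x ∈ Icc cl cp)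
    (hy : y ∈ Icc (1 / 4 : ℝ) (1 / 2)) (h1 : xs < x)
    (hN : |gh y - gh ys| ≤ gh x - gh xs) (hK : c.vs ≠ 0 → gh ys + gh y ≤ gh xs + gh x) :
    Sx x y T ρ < Sx xs ys T ρ + (c.mu : ℝ) / 1000 * (gh x - gh xs) := by
  have hxi := g.x1 hx
  have hm := (gh_lt g.xi hxi).2 h1
  have k := R g.xi.1 (by linarith only [g, g.xc, g.cp2]) (by linarith only [g, g.y4]) g.y2 hxi.1
    (by linarith only [hx, g, hx.2, g.cp2]) (by linarith only [hy, hy.1]) hy.2 hw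
  rw [hc, mm_true, AA_true] at k
  have k2 := (k (by linarith only [hm]) (fun _ => by linarith only [hm]) (fun h => by omega)
    (fun _ => by rwa [abs_sub_comm]) (fun h => by omega) (fun h => by omega)
    (fun h => Or.inl (hK h))).1 ht
  linarith only [k2]

/-- **A row for the side of the hinge above.** -/
theorem row_up (g : GD xs ys cl cp) (hH : c.vs ≠ 0 → HD xs ys T ρ cl cp) (hc : c.up = true)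
    (ht : c.ty = 1)
    (R : RowP c T ρ xs ys x y) (hw : ∀ l ∈ c.ws, l.ok T ρ xs ys) (hx : x ∈ Icc cl cp)
    (h1 : 1 / 4 ≤ y) (h2 : y < ys) (h3 : xs < x) (hn : Nz x y T ρ)
    (hN : gh x - gh xs < gh ys - gh y)
    (hG : Dx x y T ρ ≤ Dx xs ys T ρ + Lb c.al c.m0 (gh x - gh xs))
    (hD : gh x - gh xs ≤ (c.m1 : ℝ) / 1000 → gh x - gh xs + (c.n1 : ℝ) / 1000 ≤ gh ys - gh y →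
      Dx x y T ρ + (c.dl : ℝ) / 1000 ≤ Dx xs ys T ρ + Lb c.al c.m0 (gh x - gh xs)) :
    Sx x y T ρ < Sx xs ys T ρ + (c.mu : ℝ) / 1000 * (gh x - gh xs) := by
  have hxi := g.x1 hx
  have hm := (gh_lt g.xi hxi).2 h3
  have k := R g.xi.1 (by linarith only [g, g.xc, g.cp2]) (by linarith only [h1, h2, g.y4]) g.y2 hxi.1
    (by linarith only [hx, g, hx.2, g.cp2]) (by linarith only [h1]) (by linarith only [h2, g, g.y2]) hw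
  rw [hc, mm_true, AA_true] at k
  by_cases hv : c.vs ≠ 0 → gh ys + gh y ≤ gh xs + gh x ∨
      (c.al ≠ 0 ∧ (c.m0 : ℝ) / 1000 ≤ gh x - gh xs)
  · rcases (k (by linarith only [hm]) (fun _ => by linarith only [hm]) (fun h => by omega)
      (fun h => by omega) (fun _ => hN) (fun h => by omega)
      (fun h => (hv h).imp id fun h => ⟨ht, h⟩)).2.1 ht with h | h | ⟨h4, h5, h6⟩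
    · linarith only [h]
    · exfalso
      linarith only [hG, h]
    · exfalso
      linarith only [h6, hD, h4, h5, hD h4 h5]
  · exfalso
    push Not at hv
    obtain ⟨hv0, hv1, hv2⟩ := hv
    have H := hH hv0
    have hz := g.zd H.h2 H.ha H.hv hx h1 h2 hn (by rwa [abs_of_pos (by linarith only [hm])]) (by linarith only [hv1])
    have hL : Lb c.al c.m0 (gh x - gh xs) = 0 := by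
      by_cases ha : c.al = 0
      · rw [ha, Lb_zero']
      · exact Lb_small (hv2 ha)
    rw [hL] at hG
    linarith only [hG, hz]

/-- **A row for the side of the hinge below.** -/
theorem row_dn (g : GD xs ys cl cp) (hH : c.vs ≠ 0 → HD xs ys T ρ cl cp) (hc : c.up = false)
    (ht : c.ty = 1)
    (R : RowP c T ρ xs ys x y) (hw : ∀ l ∈ c.ws, l.ok T ρ xs ys) (hx : x ∈ Icc cl cp)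
    (h1 : 1 / 4 ≤ y) (h2 : y < ys) (h3 : x < xs) (hn : Nz x y T ρ)
    (hN : gh xs - gh x < gh ys - gh y)
    (hG : Dx x y T ρ ≤ Dx xs ys T ρ + Lb c.al c.m0 (gh xs - gh x))
    (hD : gh xs - gh x ≤ (c.m1 : ℝ) / 1000 → gh xs - gh x + (c.n1 : ℝ) / 1000 ≤ gh ys - gh y →
      Dx x y T ρ + (c.dl : ℝ) / 1000 ≤ Dx xs ys T ρ + Lb c.al c.m0 (gh xs - gh x)) :
    Sx xs ys T ρ < Sx x y T ρ + (c.mu : ℝ) / 1000 * (gh xs - gh x) := by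
  have hxi := g.x1 hx
  have hm := (gh_lt hxi g.xi).2 h3
  have k := R g.xi.1 (by linarith only [g, g.xc, g.cp2]) (by linarith only [h1, h2, g.y4]) g.y2 hxi.1
    (by linarith only [hx, g, hx.2, g.cp2]) (by linarith only [h1]) (by linarith only [h2, g, g.y2]) hw
  rw [hc, mm_false, AA_false] at k
  by_cases hv : c.vs ≠ 0 → gh ys + gh y ≤ gh xs + gh x ∨
      (c.al ≠ 0 ∧ (c.m0 : ℝ) / 1000 ≤ gh xs - gh x)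
  · rcases (k (by linarith only [hm]) (fun _ => by linarith only [hm]) (fun h => by omega)
      (fun h => by omega) (fun _ => hN) (fun h => by omega)
      (fun h => (hv h).imp id fun h => ⟨ht, h⟩)).2.1 ht with h | h | ⟨h4, h5, h6⟩
    · linarith only [h]
    · exfalso
      linarith only [hG, h]
    · exfalso
      linarith only [h6, hD, h4, h5, hD h4 h5]
  · exfalso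
    push Not at hv
    obtain ⟨hv0, hv1, hv2⟩ := hv
    have H := hH hv0
    have hz := g.zd H.h2 H.ha H.hv hx h1 h2 hn
      (by rwa [abs_sub_comm, abs_of_pos (by linarith only [hm])]) (by linarith only [hv1])
    have hL : Lb c.al c.m0 (gh xs - gh x) = 0 := by
      by_cases ha : c.al = 0
      · rw [ha, Lb_zero']
      · exact Lb_small (hv2 ha)
    rw [hL] at hG
    linarith only [hG, hz]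

/-- **The contribution, hinge above or below.** -/
theorem row_Q (g : GD xs ys cl cp) (hH : c.vs ≠ 0 → HD xs ys T ρ cl cp) (ht : c.ty = 2)
    (hd : c.dl = 0 ∨ c.vs = 0)
    (R : RowP c T ρ xs ys x y) (hw : ∀ l ∈ c.ws, l.ok T ρ xs ys) (hx : x ∈ Icc cl cp)
    (h1 : 1 / 4 ≤ y) (h2 : y < ys) (h3 : 0 ≤ mm c.up xs x) (hn : Nz x y T ρ)
    (h4 : c.m1 ≠ 0 → mm c.up xs x ≤ (c.m1 : ℝ) / 1000)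
    (hN : mm c.up xs x + (c.n1 : ℝ) / 1000 < gh ys - gh y) :
    Dx xs ys T ρ + (c.dl : ℝ) / 1000 < Dx x y T ρ + Lb c.al c.m0 (mm c.up xs x) := by
  have hxi := g.x1 hx
  have k := R g.xi.1 (by linarith only [g, g.xc, g.cp2]) (by linarith only [h1, h2, g.y4]) g.y2 hxi.1
    (by linarith only [hx, g, hx.2, g.cp2]) (by linarith only [h1]) (by linarith only [h2, g, g.y2]) hw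
  by_cases hv : c.vs ≠ 0 → gh ys + gh y ≤ gh xs + gh x
  · have := (k h3 (fun h => absurd ht h) (fun _ => h4) (fun h => by omega) (fun h => by omega)
      (fun _ => hN) (fun h => Or.inl (hv h))).2.2 ht
    linarith only [this]
  · push Not at hv
    obtain ⟨hv1, hv2⟩ := hv
    have H := hH hv1
    have hd0 : c.dl = 0 := hd.resolve_right hv1
    have e : |gh x - gh xs| = mm c.up xs x := by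
      unfold mm at h3 ⊢
      rcases hc : c.up with _ | _
      · rw [hc] at h3
        simp only [cond_false] at h3 ⊢
        rw [abs_sub_comm, abs_of_nonneg h3]
      · rw [hc] at h3
        simp only [cond_true] at h3 ⊢
        rw [abs_of_nonneg h3]
    have hn1 : (0 : ℝ) ≤ (c.n1 : ℝ) / 1000 := by positivity
    have hz := g.zd H.h2 H.ha H.hv hx h1 h2 hn (by rw [e]; linarith only [hN, hn1]) (by linarith only [hv2])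
    rw [hd0, Nat.cast_zero, zero_div, add_zero]
    have := Lb_nonneg c.al c.m0 (mm c.up xs x)
    linarith only [hz, this]

end

end RC

end Pool.Agent.Work.MP_b30479_gtS.G2

end

section

/-!
# Rings on the level part: the level theorem with bounds of the contributions and slacks

`LF`: one hinge, slacks `f` (up), `g` (down); `QB`: lower bound `- L m` of the contribution of the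
other hinge while the ring variable is down more than the hinges; `DS`: the side of the hinge
considered, given `G < L m`.
-/

namespace Pool.Agent.Work.MP_b30479_gtS.G2

open Real Set VOL Filter Topology

namespace RC

/-- comparison statements for one hinge on the flat part, with slacks -/
structure LF (xs ys T ρ cl cp : ℝ) (f g : ℝ → ℝ) : Prop where
  hx : xs ∈ Ioo (0 : ℝ) 1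
  up : ∀ x y, x ∈ Icc cl cp → ys < y → y ≤ 1 / 2 → |gh x - gh xs| < gh y - gh ys →
    Dx x y T ρ < Dx xs ys T ρ
  wup : ∀ x y, x ∈ Icc cl cp → y ∈ Icc (1 / 4 : ℝ) (1 / 2) → xs < x → Nz x y T ρ →
    |gh y - gh ys| ≤ gh x - gh xs → Sx x y T ρ < Sx xs ys T ρ + f (gh x - gh xs)
  wdn : ∀ x y, x ∈ Icc cl cp → y ∈ Icc (1 / 4 : ℝ) (1 / 2) → x < xs → Nz x y T ρ →
    |gh y - gh ys| ≤ gh xs - gh x → Sx xs ys T ρ < Sx x y T ρ + g (gh xs - gh x)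

/-- lower bound of the contribution of a hinge while the ring variable is down more, at `y` -/
structure QB (xs ys T ρ cl cp : ℝ) (L : ℝ → ℝ) (δ m1 n1 y : ℝ) : Prop where
  g : ∀ x, x ∈ Icc cl cp → Nz x y T ρ → |gh x - gh xs| < gh ys - gh y →
    Dx xs ys T ρ < Dx x y T ρ + L |gh x - gh xs|
  d : 0 < δ → ∀ x, x ∈ Icc cl cp → Nz x y T ρ → |gh x - gh xs| ≤ m1 →
    |gh x - gh xs| + n1 ≤ gh ys - gh y → Dx xs ys T ρ + δ < Dx x y T ρ + L |gh x - gh xs|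

/-- the side of a hinge while the ring variable is down more, at `y` -/
structure DS (xs ys T ρ cl cp : ℝ) (f g L : ℝ → ℝ) (δ m1 n1 y : ℝ) : Prop where
  up : ∀ x, x ∈ Icc cl cp → xs < x → Nz x y T ρ →
    gh x - gh xs < gh ys - gh y → Dx x y T ρ ≤ Dx xs ys T ρ + L (gh x - gh xs) →
    (gh x - gh xs ≤ m1 → gh x - gh xs + n1 ≤ gh ys - gh y →
      Dx x y T ρ + δ ≤ Dx xs ys T ρ + L (gh x - gh xs)) →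
    Sx x y T ρ < Sx xs ys T ρ + f (gh x - gh xs)
  dn : ∀ x, x ∈ Icc cl cp → x < xs → Nz x y T ρ →
    gh xs - gh x < gh ys - gh y → Dx x y T ρ ≤ Dx xs ys T ρ + L (gh xs - gh x) →
    (gh xs - gh x ≤ m1 → gh xs - gh x + n1 ≤ gh ys - gh y →
      Dx x y T ρ + δ ≤ Dx xs ys T ρ + L (gh xs - gh x)) →
    Sx xs ys T ρ < Sx x y T ρ + g (gh xs - gh x)

/-- `p` is pushed back, given the bound of the contribution of `q` -/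
def Joint (ys ρ xs T cl cp : ℝ) (f g : ℝ → ℝ) (xs' T' cl' cp' : ℝ) : Prop :=
  ∀ y, 1 / 4 ≤ y → y < ys → ∃ (L : ℝ → ℝ) (δ m1 n1 : ℝ), Monotone L ∧ 0 ≤ δ ∧
    DS xs ys T ρ cl cp f g L δ m1 n1 y ∧ QB xs' ys T' ρ cl' cp' L δ m1 n1 y

section
variable {xs ys T ρ cl cp xs' T' cl' cp' x x' y δ m1 n1 b : ℝ} {f g f' g' L L' : ℝ → ℝ}

theorem LH.toF (h : LH xs ys T ρ cl cp) (hf : ∀ t, 0 < t → 0 ≤ f t) (hg : ∀ t, 0 < t → 0 ≤ g t)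
    (hc : 0 < cl) (hp : cp < 1) : LF xs ys T ρ cl cp f g := by
  refine ⟨h.hx, h.up, fun x y hx hy h1 hn hN => ?_, fun x y hx hy h1 hn hN => ?_⟩
  · have h2 := (gh_lt h.hx ⟨hc.trans_le hx.1, hx.2.trans_lt hp⟩).2 h1
    have := hf _ (sub_pos.2 h2)
    linarith only [this, h, hx, hy, h1, hn, hN, h.wup x y hx hy h1 hn hN]
  · have h2 := (gh_lt ⟨hc.trans_le hx.1, hx.2.trans_lt hp⟩ h.hx).2 h1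
    have := hg _ (sub_pos.2 h2)
    linarith only [this, h, hx, hy, h1, hn, hN, h.wdn x y hx hy h1 hn hN]

/-- the contribution increases -/
theorem DnG.QB (h : DnG xs T cl cp ys ρ) (h1 : 1 / 4 ≤ y) (h2 : y < ys) :
    QB xs ys T ρ cl cp (fun _ => 0) 0 m1 n1 y :=
  ⟨fun x hx hn hN => by simpa only [add_zero] using h x y hx h1 h2 hn hN,
    fun h0 => absurd h0 (lt_irrefl _)⟩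

/-- no side is needed if the contribution increases -/
theorem QB.toDS (h : QB xs ys T ρ cl cp (fun _ => 0) δ m1 n1 y) (hx0 : xs ∈ Ioo (0 : ℝ) 1)
    (hc : 0 < cl) (hp : cp < 1) {δ' m1' n1' : ℝ} :
    DS xs ys T ρ cl cp f g (fun _ => 0) δ' m1' n1' y := by
  constructor
  · intro x hx h3 hn hN hG _
    have h4 := (gh_lt hx0 ⟨hc.trans_le hx.1, hx.2.trans_lt hp⟩).2 h3
    have := h.g x hx hn (by rwa [abs_of_pos (sub_pos.2 h4)])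
    rw [add_zero] at hG this
    exact absurd hG (not_le.2 this)
  · intro x hx h3 hn hN hG _
    have h4 := (gh_lt ⟨hc.trans_le hx.1, hx.2.trans_lt hp⟩ hx0).2 h3
    have := h.g x hx hn (by rwa [abs_sub_comm, abs_of_pos (sub_pos.2 h4)])
    rw [add_zero] at hG this
    exact absurd hG (not_le.2 this)

theorem monotone_zero : Monotone (fun _ : ℝ => (0 : ℝ)) := fun _ _ _ => le_rfl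

/-- both contributions increase -/
theorem Joint.of_dnG (h : DnG xs T cl cp ys ρ) (h' : DnG xs' T' cl' cp' ys ρ)
    (hx0 : xs ∈ Ioo (0 : ℝ) 1) (hc : 0 < cl) (hp : cp < 1) :
    Joint ys ρ xs T cl cp f g xs' T' cl' cp' := fun y h1 h2 =>
  ⟨fun _ => 0, 0, 0, 0, monotone_zero, le_rfl,
    (DnG.QB (m1 := 0) (n1 := 0) h h1 h2).toDS hx0 hc hp, DnG.QB h' h1 h2⟩

/-- **Level theorem, two hinges, with bounds and slacks.** -/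
theorem level_two' (hp : LF xs ys T ρ cl cp f g) (hq : ∀ x y, x ∈ Icc cl' cp' → ys < y →
      y ≤ 1 / 2 → |gh x - gh xs'| < gh y - gh ys → Dx x y T' ρ < Dx xs' ys T' ρ)
    (hJ : Joint ys ρ xs T cl cp f g xs' T' cl' cp') (hys : ys ∈ Ioo (0 : ℝ) 1) (hx : x ∈ Icc cl cp)
    (hx0 : x ∈ Ioo (0 : ℝ) 1) (hx' : x' ∈ Icc cl' cp') (hy : y ∈ Icc (1 / 4 : ℝ) (1 / 2))
    (hn : Nz x y T ρ) (hn' : Nz x' y T' ρ)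
    (hN : |gh x' - gh xs'| ≤ |gh x - gh xs|)
    (F1 : Dx x y T ρ + Dx x' y T' ρ ≤ Dx xs ys T ρ + Dx xs' ys T' ρ)
    (F2 : 1 / 4 < y → Dx x y T ρ + Dx x' y T' ρ = Dx xs ys T ρ + Dx xs' ys T' ρ)
    (hys4 : 1 / 4 ≤ ys) :
    (xs < x → Sx x y T ρ < Sx xs ys T ρ + f (gh x - gh xs)) ∧
      (x < xs → Sx xs ys T ρ < Sx x y T ρ + g (gh xs - gh x)) := by
  have hy0 : y ∈ Ioo (0 : ℝ) 1 := ⟨by linarith only [hy, hy.1], by linarith only [hy, hy.2]⟩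
  rcases eq_or_ne x xs with he | hne
  · exact ⟨fun h => absurd he h.ne', fun h => absurd he h.ne⟩
  rcases le_or_gt |gh y - gh ys| |gh x - gh xs| with h1 | h1
  · refine ⟨fun h => ?_, fun h => ?_⟩
    · have h2 := (gh_lt hp.hx hx0).2 h
      rw [abs_of_pos (by linarith only [h2] : (0 : ℝ) < gh x - gh xs)] at h1
      exact hp.wup x y hx hy h hn h1
    · have h2 := (gh_lt hx0 hp.hx).2 h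
      rw [abs_of_neg (by linarith only [h2] : gh x - gh xs < 0)] at h1
      exact hp.wdn x y hx hy h hn (by linarith only [h1])
  · rcases lt_or_ge y ys with h2 | h2
    · have h3 := (gh_lt hy0 hys).2 h2
      obtain ⟨L, δ, m1, n1, hL, hδ, hd, hb⟩ := hJ y hy.1 h2
      rw [abs_of_neg (by linarith only [h3] : gh y - gh ys < 0)] at h1
      have b1 := hb.g x' hx' hn' (by linarith only [hN, h1])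
      have b2 := hL hN
      have b3 : |gh x - gh xs| ≤ m1 → |gh x - gh xs| + n1 ≤ gh ys - gh y →
          Dx x y T ρ + δ ≤ Dx xs ys T ρ + L |gh x - gh xs| := by
        intro c1 c2
        rcases hδ.eq_or_lt with h0 | h0
        · rw [← h0]
          linarith only [F1, b1, b2]
        · have := hb.d h0 x' hx' hn' (hN.trans c1) (by linarith only [hN, c2])
          linarith only [F1, b2, this]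
      refine ⟨fun h => ?_, fun h => ?_⟩
      · have h4 := (gh_lt hp.hx hx0).2 h
        rw [abs_of_pos (by linarith only [h4] : (0 : ℝ) < gh x - gh xs)] at h1 b2 b3
        exact hd.up x hx h hn (by linarith only [h1]) (by linarith only [F1, b1, b2]) b3
      · have h4 := (gh_lt hx0 hp.hx).2 h
        rw [abs_sub_comm (gh x), abs_of_pos (by linarith only [h4] : (0 : ℝ) < gh xs - gh x)] at h1 b2 b3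
        exact hd.dn x hx h hn (by linarith only [h1]) (by linarith only [F1, b1, b2]) b3
    · exfalso
      have h3 : ys < y := by
        rcases h2.lt_or_eq with h | h
        · exact h
        · exfalso
          rw [h, sub_self, abs_zero] at h1
          exact absurd h1 (not_lt.2 (abs_nonneg _))
      have h4 := (gh_lt hys hy0).2 h3
      rw [abs_of_pos (by linarith only [h4] : 0 < gh y - gh ys)] at h1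
      have a1 := hp.up x y hx h3 hy.2 h1
      have a2 := hq x' y hx' h3 hy.2 (hN.trans_lt h1)
      have := F2 (by linarith only [hys4, h3])
      linarith only [a1, a2, this]

/-- **Level theorem, one hinge, with slacks.** -/
theorem level_one' (hp : LF xs ys T ρ cl cp f g)
    (hd : ∀ y, 1 / 4 ≤ y → y < ys → DS xs ys T ρ cl cp f g (fun _ => 0) 0 0 0 y)
    (hys : ys ∈ Ioo (0 : ℝ) 1) (hx : x ∈ Icc cl cp) (hx0 : x ∈ Ioo (0 : ℝ) 1) (hy : y ∈ Icc (1 / 4 : ℝ) (1 / 2))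
    (hn : Nz x y T ρ) (F1 : Dx x y T ρ ≤ Dx xs ys T ρ) (F2 : 1 / 4 < y → Dx x y T ρ = Dx xs ys T ρ)
    (hys4 : 1 / 4 ≤ ys) :
    (xs < x → Sx x y T ρ < Sx xs ys T ρ + f (gh x - gh xs)) ∧
      (x < xs → Sx xs ys T ρ < Sx x y T ρ + g (gh xs - gh x)) := by
  have hy0 : y ∈ Ioo (0 : ℝ) 1 := ⟨by linarith only [hy, hy.1], by linarith only [hy, hy.2]⟩
  rcases eq_or_ne x xs with he | hne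
  · exact ⟨fun h => absurd he h.ne', fun h => absurd he h.ne⟩
  rcases le_or_gt |gh y - gh ys| |gh x - gh xs| with h1 | h1
  · refine ⟨fun h => ?_, fun h => ?_⟩
    · have h2 := (gh_lt hp.hx hx0).2 h
      rw [abs_of_pos (by linarith only [h2] : (0 : ℝ) < gh x - gh xs)] at h1
      exact hp.wup x y hx hy h hn h1
    · have h2 := (gh_lt hx0 hp.hx).2 h
      rw [abs_of_neg (by linarith only [h2] : gh x - gh xs < 0)] at h1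
      exact hp.wdn x y hx hy h hn (by linarith only [h1])
  · rcases lt_or_ge y ys with h2 | h2
    · have h3 := (gh_lt hy0 hys).2 h2
      rw [abs_of_neg (by linarith only [h3] : gh y - gh ys < 0)] at h1
      refine ⟨fun h => ?_, fun h => ?_⟩
      · have h4 := (gh_lt hp.hx hx0).2 h
        rw [abs_of_pos (by linarith only [h4] : (0 : ℝ) < gh x - gh xs)] at h1
        exact (hd y hy.1 h2).up x hx h hn (by linarith only [h1]) (by linarith only [F1]) fun _ _ => by linarith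
      · have h4 := (gh_lt hx0 hp.hx).2 h
        rw [abs_sub_comm (gh x), abs_of_pos (by linarith only [h4] : (0 : ℝ) < gh xs - gh x)] at h1
        exact (hd y hy.1 h2).dn x hx h hn (by linarith only [h1]) (by linarith only [F1]) fun _ _ => by linarith
    · exfalso
      have h3 : ys < y := by
        rcases h2.lt_or_eq with h | h
        · exact h
        · exfalso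
          rw [h, sub_self, abs_zero] at h1
          exact absurd h1 (not_lt.2 (abs_nonneg _))
      have h4 := (gh_lt hys hy0).2 h3
      rw [abs_of_pos (by linarith only [h4] : 0 < gh y - gh ys)] at h1
      have a1 := hp.up x y hx h3 hy.2 h1
      have := F2 (by linarith only [hys4, h3])
      linarith only [a1, this]

/-- **Interior ring, with bounds and slacks.** -/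
theorem RP2.of' {lam α β : ℝ} (hp : LF xs ys T ρ cl cp f g)
    (hq : ∀ x y, x ∈ Icc cl' cp' → ys < y →
      y ≤ 1 / 2 → |gh x - gh xs'| < gh y - gh ys → Dx x y T' ρ < Dx xs' ys T' ρ)
    (hJ : Joint ys ρ xs T cl cp f g xs' T' cl' cp') (hf : ∀ t, 0 < t → 0 ≤ f t) (hg : ∀ t, 0 < t → 0 ≤ g t)
    (rp : RampOK lam α β b xs ys T ρ cl cp) (rq : RampOK lam α β b xs' ys T' ρ cl' cp')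
    (hb : 0 < b) (hβ : 0 ≤ β)
    (hys : ys ∈ Ioo (1 / 4 : ℝ) 1) (hD : Dx xs ys T ρ + Dx xs' ys T' ρ = 2 * π * b * ρ)
    (hcl : 0 < cl) (hcp : cp < 1) :
    RP2 b xs ys T ρ cl cp xs' T' cl' cp' f g := by
  constructor
  · intro x x' y hx hx' hy hn hn' hN F1 F2
    rw [← hD] at F1 F2
    exact level_two' hp hq hJ ⟨by linarith only [hys, hys.1], hys.2⟩ hx
      ⟨by linarith only [hcl, hx, hx.1], by linarith only [hcp, hx, hx.2]⟩ hx' hy hn hn' hN F1 F2 hys.1.le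
  · intro x x' y ha ha' hN foc
    obtain ⟨h1, h2⟩ := ramp_two rp rq hb hβ hD ha ha' hN foc
    have hxi : x ∈ Ioo (0 : ℝ) 1 := ⟨hcl.trans_le ha.x0, ha.x1.trans_lt hcp⟩
    refine ⟨fun h => ?_, fun h => ?_⟩
    · have := hf _ (sub_pos.2 ((gh_lt hp.hx hxi).2 h))
      linarith only [this, h1, h, h1 h]
    · have := hg _ (sub_pos.2 ((gh_lt hxi hp.hx).2 h))
      linarith only [this, h2, h, h2 h]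

/-- **Ring at an end, with slacks.** -/
theorem RP1.of' (hp : LF xs ys T ρ cl cp f g)
    (hd : ∀ y, 1 / 4 ≤ y → y < ys → DS xs ys T ρ cl cp f g (fun _ => 0) 0 0 0 y)
    (hf : ∀ t, 0 < t → 0 ≤ f t)
    (hg : ∀ t, 0 < t → 0 ≤ g t)
    (rp : RampOK1 b xs ys T ρ cl cp) (hys : ys ∈ Ioo (1 / 4 : ℝ) 1)
    (hD : Dx xs ys T ρ = 2 * π * b * ρ) (hcl : 0 < cl) (hcp : cp < 1) :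
    RP1 b xs ys T ρ cl cp f g := by
  constructor
  · intro x y hx hy hn F1 F2
    rw [← hD] at F1 F2
    exact level_one' hp hd ⟨by linarith only [hys, hys.1], hys.2⟩ hx
      ⟨by linarith only [hcl, hx, hx.1], by linarith only [hcp, hx, hx.2]⟩ hy hn F1 F2 hys.1.le
  · intro x y ha foc
    obtain ⟨h1, h2⟩ := ramp_one rp ha foc
    have hxi : x ∈ Ioo (0 : ℝ) 1 := ⟨hcl.trans_le ha.x0, ha.x1.trans_lt hcp⟩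
    refine ⟨fun h => ?_, fun h => ?_⟩
    · have := hf _ (sub_pos.2 ((gh_lt hp.hx hxi).2 h))
      linarith only [this, h1, h, h1 h]
    · have := hg _ (sub_pos.2 ((gh_lt hxi hp.hx).2 h))
      linarith only [this, h2, h, h2 h]

/-- the ring variable if the hinges are at the saddle point -/
theorem LI.of' (hup : ∀ x y, x ∈ Icc cl cp → ys < y →
      y ≤ 1 / 2 → |gh x - gh xs| < gh y - gh ys → Dx x y T ρ < Dx xs ys T ρ)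
    (hq : ∀ y, 1 / 4 ≤ y → y < ys → ∃ (L : ℝ → ℝ) (δ m1 n1 : ℝ), L 0 = 0 ∧
      QB xs ys T ρ cl cp L δ m1 n1 y) (hx : xs ∈ Icc cl cp)
    (hys : ys ∈ Ioc (1 / 4 : ℝ) (1 / 2)) : LI xs ys T ρ := by
  constructor
  · intro y h1 h2
    refine hup xs y hx h1 h2 ?_
    rw [sub_self, abs_zero, sub_pos]
    exact (gh_lt ⟨by linarith only [h1, h2, hys, hys.1], by linarith only [h1, h2, hys.2]⟩ ⟨by linarith only [h1, hys, hys.1], by linarith only [h2]⟩).2 h1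
  · intro y h1 h2 hn
    obtain ⟨L, δ, m1, n1, hL, hq⟩ := hq y h1 h2
    have h3 := hq.g xs hx hn (by
      rw [sub_self, abs_zero, sub_pos]
      exact (gh_lt ⟨by linarith only [h1], by linarith only [h2, hys, hys.2]⟩
        ⟨by linarith only [h1, h2, hys.1], by linarith only [h1, h2, hys, hys.2]⟩).2 h2)
    rw [sub_self, abs_zero, hL, add_zero] at h3
    exact h3

end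

end RC

end Pool.Agent.Work.MP_b30479_gtS.G2

end

section

/-!
# Rings on the level part: windows and tables of bounds
-/

namespace Pool.Agent.Work.MP_b30479_gtS.G2

open Real Set VOL Filter Topology

namespace RC

open R6

/-- a window of the saddle point at a hinge of a ring, units `1 / 10000`, offset `2000` for the
height; `y0`, `y1`: bounds of `1 / 2 + σ` -/
structure Wd where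
  t0 : ℕ
  t1 : ℕ
  r0 : ℕ
  r1 : ℕ
  x0 : ℕ
  x1 : ℕ
  y0 : ℕ
  y1 : ℕ
  ws : List LC

/-- the saddle point is in the window -/
structure Wd.In (W : Wd) (T ρ xs ys : ℝ) : Prop where
  t0 : ((W.t0 : ℝ) - 2000) / 10000 ≤ T
  t1 : T ≤ ((W.t1 : ℝ) - 2000) / 10000
  r0 : (W.r0 : ℝ) / 10000 ≤ ρ
  r1 : ρ ≤ (W.r1 : ℝ) / 10000
  x0 : (W.x0 : ℝ) / 10000 ≤ xs
  x1 : xs ≤ (W.x1 : ℝ) / 10000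
  y0 : (W.y0 : ℝ) / 10000 ≤ ys
  y1 : ys ≤ (W.y1 : ℝ) / 10000
  ws : ∀ l ∈ W.ws, l.ok T ρ xs ys

/-- a row of a window for `x` in `[a, b]`, `y` in `[ya, yb]` -/
def Wd.R (W : Wd) (c : List LC → Cf) (a b ya yb : ℕ) : Prop :=
  Bx (c W.ws) W.t0 W.t1 W.r0 W.r1 W.x0 W.x1 W.y0 W.y1 a b ya yb

/-- the four kinds of rows -/
def cW (mu vs : ℕ) (ws : List LC) : Cf := ⟨true, 0, mu, 0, 0, 0, 0, 0, vs, ws⟩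
def cQ (up : Bool) (al m0 vs : ℕ) (ws : List LC) : Cf := ⟨up, 2, 0, al, m0, 0, 0, 0, vs, ws⟩
def cD (up : Bool) (mu al m0 dl m1 n1 vs : ℕ) (ws : List LC) : Cf :=
  ⟨up, 1, mu, al, m0, dl, m1, n1, vs, ws⟩
def cE (up : Bool) (al m0 dl m1 n1 : ℕ) (ws : List LC) : Cf := ⟨up, 2, 0, al, m0, dl, m1, n1, 0, ws⟩

/-- an entry of a table: bounds for `y` in `[ya, yb]` -/
structure Te where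
  ya : ℕ
  yb : ℕ
  al : ℕ
  m0 : ℕ
  dl : ℕ := 0
  m1 : ℕ := 0
  n1 : ℕ := 0

/-- the table covers `[1 / 4, 1 / 2]` -/
def cov : ℕ → List Te → Bool
  | a, [] => Nat.ble 5000 a
  | a, e :: l => Nat.ble e.ya a && cov e.yb l

theorem cov_spec {y : ℝ} (hy : y ≤ 1 / 2) : ∀ {l : List Te} {a : ℕ}, cov a l = true →
    (a : ℝ) / 10000 ≤ y → y < 1 / 2 → ∃ e ∈ l, (e.ya : ℝ) / 10000 ≤ y ∧ y ≤ (e.yb : ℝ) / 10000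
  | [], a, h, h1, h2 => by
    exfalso
    have := Nat.le_of_ble_eq_true h
    have h3 : (5000 : ℝ) ≤ a := by exact_mod_cast this
    linarith only [h1, h2, h3]
  | e :: l, a, h, h1, h2 => by
    unfold cov at h
    rw [Bool.and_eq_true] at h
    obtain ⟨k1, k2⟩ := h
    have k3 : (e.ya : ℝ) ≤ a := by exact_mod_cast Nat.le_of_ble_eq_true k1
    rcases le_total y ((e.yb : ℝ) / 10000) with h4 | h4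
    · exact ⟨e, List.mem_cons_self, by linarith only [h1, k3], h4⟩
    · obtain ⟨e', he, h5⟩ := cov_spec hy k2 h4 h2
      exact ⟨e', List.mem_cons_of_mem _ he, h5⟩

/-- the contribution of a hinge is bounded by the table -/
def QT (xs ys T ρ cl cp : ℝ) (tab : List Te) : Prop :=
  ∀ e ∈ tab, ∀ y, (e.ya : ℝ) / 10000 ≤ y → y ≤ (e.yb : ℝ) / 10000 → 1 / 4 ≤ y → y < ys →
    QB xs ys T ρ cl cp (Lb e.al e.m0) ((e.dl : ℝ) / 1000) ((e.m1 : ℝ) / 1000)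
      ((e.n1 : ℝ) / 1000) y

/-- the sides of a hinge, given the table for the other hinge -/
def DT (xs ys T ρ cl cp : ℝ) (f g : ℝ → ℝ) (tab : List Te) : Prop :=
  ∀ e ∈ tab, ∀ y, (e.ya : ℝ) / 10000 ≤ y → y ≤ (e.yb : ℝ) / 10000 → 1 / 4 ≤ y → y < ys →
    DS xs ys T ρ cl cp f g (Lb e.al e.m0) ((e.dl : ℝ) / 1000) ((e.m1 : ℝ) / 1000)
      ((e.n1 : ℝ) / 1000) y

section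
variable {xs ys T ρ cl cp xs' T' cl' cp' x y : ℝ} {f g : ℝ → ℝ} {tab : List Te}

theorem Joint.of_tab (hp : DT xs ys T ρ cl cp f g tab) (hq : QT xs' ys T' ρ cl' cp' tab)
    (hc : cov 2500 tab = true) (hys : ys ≤ 1 / 2) : Joint ys ρ xs T cl cp f g xs' T' cl' cp' := by
  intro y h1 h2
  obtain ⟨e, he, h3, h4⟩ := cov_spec (y := y) (by linarith only [hys, h2]) hc (by norm_num; linarith only [h1])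
    (by linarith only [hys, h2])
  exact ⟨Lb e.al e.m0, _, _, _, Lb_mono _ _, by positivity, hp e he y h3 h4 h1 h2,
    hq e he y h3 h4 h1 h2⟩

theorem LI.of_tab (hup : ∀ x y, x ∈ Icc cl cp → ys < y →
      y ≤ 1 / 2 → |gh x - gh xs| < gh y - gh ys → Dx x y T ρ < Dx xs ys T ρ)
    (hq : QT xs ys T ρ cl cp tab) (hc : cov 2500 tab = true) (hx : xs ∈ Icc cl cp)
    (hys : ys ∈ Ioc (1 / 4 : ℝ) (1 / 2)) : LI xs ys T ρ := by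
  refine LI.of' hup (fun y h1 h2 => ?_) hx hys
  obtain ⟨e, he, h3, h4⟩ := cov_spec (y := y) (by linarith only [h2, hys, hys.2]) hc (by norm_num; linarith only [h1])
    (by linarith only [h2, hys, hys.2])
  exact ⟨Lb e.al e.m0, _, _, _, Lb_zero _ _, hq e he y h3 h4 h1 h2⟩

theorem QT.nil : QT xs ys T ρ cl cp [] := fun _ h => absurd h List.not_mem_nil
theorem DT.nil : DT xs ys T ρ cl cp f g [] := fun _ h => absurd h List.not_mem_nil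

theorem QT.cons {e : Te} (h : ∀ y, (e.ya : ℝ) / 10000 ≤ y → y ≤ (e.yb : ℝ) / 10000 → 1 / 4 ≤ y →
    y < ys → QB xs ys T ρ cl cp (Lb e.al e.m0) ((e.dl : ℝ) / 1000) ((e.m1 : ℝ) / 1000)
      ((e.n1 : ℝ) / 1000) y) (ht : QT xs ys T ρ cl cp tab) : QT xs ys T ρ cl cp (e :: tab) := by
  intro e' he
  rcases List.mem_cons.1 he with rfl | he
  · exact h
  · exact ht e' he

theorem DT.cons {e : Te} (h : ∀ y, (e.ya : ℝ) / 10000 ≤ y → y ≤ (e.yb : ℝ) / 10000 → 1 / 4 ≤ y →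
    y < ys → DS xs ys T ρ cl cp f g (Lb e.al e.m0) ((e.dl : ℝ) / 1000) ((e.m1 : ℝ) / 1000)
      ((e.n1 : ℝ) / 1000) y) (ht : DT xs ys T ρ cl cp f g tab) :
    DT xs ys T ρ cl cp f g (e :: tab) := by
  intro e' he
  rcases List.mem_cons.1 he with rfl | he
  · exact h
  · exact ht e' he

end

section
variable {xs ys T ρ cl cp x y : ℝ} {W : Wd} {c : List LC → Cf} {a b ya yb : ℕ}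

/-- the row at a point -/
theorem Wd.R.at (R : W.R c a b ya yb) (I : W.In T ρ xs ys) (h0 : (a : ℝ) / 10000 ≤ x)
    (h1 : x ≤ (b : ℝ) / 10000) (h2 : (ya : ℝ) / 10000 ≤ y) (h3 : y ≤ (yb : ℝ) / 10000) :
    RowP (c W.ws) T ρ xs ys x y :=
  R _ _ _ _ _ _ I.t0 I.t1 I.r0 I.r1 I.x0 I.x1 I.y0 I.y1 h0 h1 h2 h3

/-- the contribution: rows without the region -/
theorem Wd.In.QB (I : W.In T ρ xs ys) (H : GD xs ys cl cp) {al m0 vs A B : ℕ}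
    (hH : vs ≠ 0 → HD xs ys T ρ cl cp)
    (Ru : W.R (cQ true al m0 vs) W.x0 B ya yb) (Rd : W.R (cQ false al m0 vs) A W.x1 ya yb)
    (hA : (A : ℝ) / 10000 ≤ cl) (hB : cp ≤ (B : ℝ) / 10000) (h2 : (ya : ℝ) / 10000 ≤ y)
    (h3 : y ≤ (yb : ℝ) / 10000) (h4 : 1 / 4 ≤ y) (h5 : y < ys) :
    QB xs ys T ρ cl cp (Lb al m0) ((0 : ℕ) / 1000) ((0 : ℕ) / 1000) ((0 : ℕ) / 1000) y := by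
  constructor
  swap
  · intro h
    norm_num at h
  intro x hx hn hN
  have hxi := H.x1 hx
  have e1 : (1 : ℕ) ≠ 0 := by decide
  rcases le_total xs x with h | h
  · have hm : 0 ≤ mm true xs x := by
      rw [mm_true, sub_nonneg]
      rcases h.eq_or_lt with h | h
      · rw [h]
      · exact ((gh_lt H.xi hxi).2 h).le
    have e : |gh x - gh xs| = mm true xs x := by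
      rw [mm_true] at hm ⊢
      exact abs_of_nonneg hm
    rw [e] at hN ⊢
    have k := row_Q (c := cQ true al m0 vs W.ws) H hH rfl (Or.inl rfl)
      (Ru.at I (I.x0.trans h) (hx.2.trans hB) h2 h3) I.ws hx h4 h5 hm hn
      (fun h => absurd rfl h) (by
        change mm true xs x + ((0 : ℕ) : ℝ) / 1000 < gh ys - gh y
        rw [Nat.cast_zero, zero_div, add_zero]
        exact hN)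
    have e0 : (((cQ true al m0 vs W.ws).dl : ℕ) : ℝ) / 1000 = 0 := by
      change ((0 : ℕ) : ℝ) / 1000 = 0
      simp
    rw [e0, add_zero] at k
    exact k
  · have hm : 0 ≤ mm false xs x := by
      rw [mm_false, sub_nonneg]
      rcases h.eq_or_lt with h | h
      · rw [h]
      · exact ((gh_lt hxi H.xi).2 h).le
    have e : |gh x - gh xs| = mm false xs x := by
      rw [mm_false] at hm ⊢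
      rw [abs_sub_comm]
      exact abs_of_nonneg hm
    rw [e] at hN ⊢
    have k := row_Q (c := cQ false al m0 vs W.ws) H hH rfl (Or.inl rfl)
      (Rd.at I (hA.trans hx.1) (h.trans I.x1) h2 h3) I.ws hx h4 h5 hm hn
      (fun h => absurd rfl h) (by
        change mm false xs x + ((0 : ℕ) : ℝ) / 1000 < gh ys - gh y
        rw [Nat.cast_zero, zero_div, add_zero]
        exact hN)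
    have e0 : (((cQ false al m0 vs W.ws).dl : ℕ) : ℝ) / 1000 = 0 := by
      change ((0 : ℕ) : ℝ) / 1000 = 0
      simp
    rw [e0, add_zero] at k
    exact k

/-- the contribution: rows with the region -/
theorem QB.reg {al m0 dl m1 n1 A B : ℕ} (I : W.In T ρ xs ys) (H : GD xs ys cl cp)
    (h : QB xs ys T ρ cl cp (Lb al m0) ((0 : ℕ) / 1000) ((0 : ℕ) / 1000) ((0 : ℕ) / 1000) y)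
    (Ru : W.R (cE true al m0 dl m1 n1) W.x0 B ya yb)
    (Rd : W.R (cE false al m0 dl m1 n1) A W.x1 ya yb)
    (hA : (A : ℝ) / 10000 ≤ cl) (hB : cp ≤ (B : ℝ) / 10000) (h2 : (ya : ℝ) / 10000 ≤ y)
    (h3 : y ≤ (yb : ℝ) / 10000) (h4 : 1 / 4 ≤ y) (h5 : y < ys) :
    QB xs ys T ρ cl cp (Lb al m0) ((dl : ℕ) / 1000) ((m1 : ℕ) / 1000) ((n1 + 1 : ℕ) / 1000) y := by
  constructor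
  · intro x hx hn hN
    exact h.g x hx hn hN
  intro _ x hx hn hm1 hN
  have hxi := H.x1 hx
  push_cast at hN
  rcases le_total xs x with h6 | h6
  · have hm : 0 ≤ mm true xs x := by
      rw [mm_true, sub_nonneg]
      rcases h6.eq_or_lt with h | h
      · rw [h]
      · exact ((gh_lt H.xi hxi).2 h).le
    have e : |gh x - gh xs| = mm true xs x := by
      rw [mm_true] at hm ⊢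
      exact abs_of_nonneg hm
    rw [e] at hN hm1 ⊢
    exact row_Q (c := cE true al m0 dl m1 n1 W.ws) H (fun h => absurd rfl h) rfl (Or.inr rfl)
      (Ru.at I (I.x0.trans h6) (hx.2.trans hB) h2 h3) I.ws hx h4 h5 hm hn
      (fun _ => hm1) (by
        change mm true xs x + ((n1 : ℕ) : ℝ) / 1000 < gh ys - gh y
        linarith only [hN])
  · have hm : 0 ≤ mm false xs x := by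
      rw [mm_false, sub_nonneg]
      rcases h6.eq_or_lt with h | h
      · rw [h]
      · exact ((gh_lt hxi H.xi).2 h).le
    have e : |gh x - gh xs| = mm false xs x := by
      rw [mm_false] at hm ⊢
      rw [abs_sub_comm]
      exact abs_of_nonneg hm
    rw [e] at hN hm1 ⊢
    exact row_Q (c := cE false al m0 dl m1 n1 W.ws) H (fun h => absurd rfl h) rfl (Or.inr rfl)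
      (Rd.at I (hA.trans hx.1) (h6.trans I.x1) h2 h3) I.ws hx h4 h5 hm hn
      (fun _ => hm1) (by
        change mm false xs x + ((n1 : ℕ) : ℝ) / 1000 < gh ys - gh y
        linarith only [hN])

/-- the sides -/
theorem Wd.In.DS (I : W.In T ρ xs ys) (H : GD xs ys cl cp) {f g : ℝ → ℝ}
    {mu mud al m0 dl m1 n1 vu vd A B du u1 u2 dd d1 d2 : ℕ}
    (hHu : vu ≠ 0 → HD xs ys T ρ cl cp) (hHd : vd ≠ 0 → HD xs ys T ρ cl cp)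
    (Ru : W.R (cD true mu al m0 du u1 u2 vu) W.x0 B ya yb)
    (Rd : W.R (cD false mud al m0 dd d1 d2 vd) A W.x1 ya yb)
    (hu : du = 0 ∨ (du = dl ∧ u1 = m1 ∧ u2 = n1)) (hd : dd = 0 ∨ (dd = dl ∧ d1 = m1 ∧ d2 = n1))
    (hf : ∀ m, 0 < m → (mu : ℝ) / 1000 * m ≤ f m) (hg : ∀ m, 0 < m → (mud : ℝ) / 1000 * m ≤ g m)
    (hA : (A : ℝ) / 10000 ≤ cl) (hB : cp ≤ (B : ℝ) / 10000) (h2 : (ya : ℝ) / 10000 ≤ y)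
    (h3 : y ≤ (yb : ℝ) / 10000) (h4 : 1 / 4 ≤ y) (h5 : y < ys) :
    DS xs ys T ρ cl cp f g (Lb al m0) ((dl : ℕ) / 1000) ((m1 : ℕ) / 1000) ((n1 : ℕ) / 1000) y := by
  constructor
  · intro x hx hlt hn hN hG hD
    have hm := (gh_lt H.xi (H.x1 hx)).2 hlt
    have := row_up (c := cD true mu al m0 du u1 u2 vu W.ws) H hHu rfl rfl
      (Ru.at I (I.x0.trans hlt.le) (hx.2.trans hB) h2 h3) I.ws hx h4 h5 hlt hn hN hG (by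
        intro k1 k2
        change Dx x y T ρ + ((du : ℕ) : ℝ) / 1000 ≤ _
        rcases hu with rfl | ⟨rfl, rfl, rfl⟩
        · rw [Nat.cast_zero, zero_div, add_zero]
          exact hG
        · exact hD k1 k2)
    change Sx x y T ρ < Sx xs ys T ρ + (mu : ℝ) / 1000 * (gh x - gh xs) at this
    exact this.trans_le (by linarith only [hf, hm, hf _ (sub_pos.2 hm)])
  · intro x hx hlt hn hN hG hD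
    have hm := (gh_lt (H.x1 hx) H.xi).2 hlt
    have := row_dn (c := cD false mud al m0 dd d1 d2 vd W.ws) H hHd rfl rfl
      (Rd.at I (hA.trans hx.1) (hlt.le.trans I.x1) h2 h3) I.ws hx h4 h5 hlt hn hN hG (by
        intro k1 k2
        change Dx x y T ρ + ((dd : ℕ) : ℝ) / 1000 ≤ _
        rcases hd with rfl | ⟨rfl, rfl, rfl⟩
        · rw [Nat.cast_zero, zero_div, add_zero]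
          exact hG
        · exact hD k1 k2)
    change Sx xs ys T ρ < Sx x y T ρ + (mud : ℝ) / 1000 * (gh xs - gh x) at this
    exact this.trans_le (by linarith only [hg, hm, hg _ (sub_pos.2 hm)])

/-- **Comparison statements of a hinge next to a digit `1`.** -/
theorem Wd.In.LF (I : W.In T ρ xs ys) (H : HD xs ys T ρ cl cp) {a0 a1 p0 : ℝ}
    (hr : DR xs ys T ρ a0 a1 p0) (ha0 : a0 ≤ ta cl) (ha1 : ta (32 / 100) ≤ a1)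
    (ha1' : a1 ≤ 55 / 100) (ha0' : 158 / 1000 ≤ a0) (hp0 : p0 ≤ a0 * (4142 / 10000))
    (hκ : ta xs ≤ 94 / 100 * ta ys) (hx32 : xs ≤ 32 / 100) {f : ℝ → ℝ} {mu B : ℕ}
    (hf : ∀ m, 0 < m → (mu : ℝ) / 1000 * m ≤ f m)
    (R1 : W.R (cW mu 1) W.x0 3200 2500 5000) (R2 : W.R (cW mu 0) 3200 B 2500 5000)
    (hB : cp ≤ (B : ℝ) / 10000) : LF xs ys T ρ cl cp f (fun _ => 0) := by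
  have g := H.toGD
  have g' : GD xs ys cl (32 / 100) := ⟨g.cl0, by norm_num, g.xl, hx32, g.hs, g.y4, g.y2⟩
  refine ⟨g.xi, g.up H.h2 H.ha H.hv, ?_, ?_⟩
  · intro x y hx hy h1 hn hN
    have hm := (gh_lt g.xi (g.x1 hx)).2 h1
    have hf' := hf _ (sub_pos.2 hm)
    have hmu : (0 : ℝ) ≤ (mu : ℝ) / 1000 * (gh x - gh xs) :=
      mul_nonneg (by positivity) (sub_pos.2 hm).le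
    rcases le_total x (32 / 100) with h2 | h2
    · by_cases hK : gh xs + gh x ≤ gh ys + gh y
      · have := g'.wupp hr ha0 ha1 (by linarith only [ha1']) hp0 ⟨hx.1, h2⟩ hy h1 hn hN hK
        linarith only [hf', hmu, this]
      · push Not at hK
        have := row_W (c := cW mu 1 W.ws) g rfl rfl
          (R1.at I (I.x0.trans h1.le) (by norm_num; linarith only [h2]) (by norm_num; linarith only [hy, hy.1])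
            (by norm_num; linarith only [hy, hy.2])) I.ws hx hy h1 hN (fun _ => hK.le)
        change Sx x y T ρ < Sx xs ys T ρ + (mu : ℝ) / 1000 * (gh x - gh xs) at this
        linarith only [hf', this]
    · have := row_W (c := cW mu 0 W.ws) g rfl rfl
        (R2.at I (by norm_num; linarith only [h2]) (hx.2.trans hB) (by norm_num; linarith only [hy, hy.1])
          (by norm_num; linarith only [hy, hy.2])) I.ws hx hy h1 hN (fun h => absurd rfl h)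
      change Sx x y T ρ < Sx xs ys T ρ + (mu : ℝ) / 1000 * (gh x - gh xs) at this
      linarith only [hf', this]
  · intro x y hx hy h1 hn hN
    rw [add_zero]
    exact g'.wdn hr ha0 ha1 ha1' hp0 ha0' H.hv hκ x y ⟨hx.1, by linarith only [hx32, h1]⟩ hy h1 hn hN

end

end RC

end Pool.Agent.Work.MP_b30479_gtS.G2

end

section

/-!
# Rings on the level part: windows
-/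

namespace Pool.Agent.Work.MP_b30479_gtS.G2

open Real Set

namespace RC

open R6

def o4a2 : Wd :=
  ⟨1009, 1557, 491, 726, 2267, 2772, 3121, 3354,
    [⟨1, 0, 0, 1, 0, 0, 0, 0, 0, 1066⟩, ⟨0, 1, 1, 0, 0, 0, 0, 0, 1555, 0⟩, ⟨0, 0, 0, 0, 1, 0, 0, 1, 0, 470⟩, ⟨0, 0, 0, 1, 1, 0, 0, 1, 0, 961⟩]⟩
def p4a2 : Wd :=
  ⟨1351, 1813, 491, 726, 1997, 2512, 3121, 3354,
    [⟨1, 0, 0, 1, 0, 0, 0, 0, 0, 822⟩, ⟨0, 1, 1, 0, 0, 0, 0, 0, 1238, 0⟩, ⟨0, 0, 0, 0, 1, 0, 0, 1, 0, 738⟩, ⟨0, 0, 0, 1, 1, 0, 0, 1, 0, 1229⟩]⟩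
def o4a2e : Wd :=
  ⟨1023, 1535, 400, 581, 2251, 2708, 3104, 3286,
    [⟨1, 0, 0, 1, 0, 0, 0, 0, 0, 986⟩, ⟨0, 1, 1, 0, 0, 0, 0, 0, 1440, 0⟩, ⟨0, 0, 0, 0, 1, 0, 0, 1, 0, 519⟩, ⟨0, 0, 0, 1, 1, 0, 0, 1, 0, 919⟩]⟩
def p4a2e : Wd :=
  ⟨909, 1049, 400, 581, 1707, 1844, 3104, 3286,
    [⟨1, 0, 0, 1, 0, 0, 0, 0, 0, 1418⟩, ⟨0, 1, 1, 0, 0, 0, 0, 0, 1593, 0⟩, ⟨0, 0, 0, 0, 1, 0, 0, 1, 0, 1324⟩, ⟨0, 0, 0, 1, 1, 0, 0, 1, 0, 1724⟩]⟩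
def o4a3 : Wd :=
  ⟨1041, 1573, 543, 748, 2304, 2772, 3092, 3302,
    [⟨1, 0, 0, 1, 0, 0, 0, 0, 0, 1100⟩, ⟨0, 1, 1, 0, 0, 0, 0, 0, 1562, 0⟩, ⟨0, 0, 0, 0, 1, 0, 0, 1, 0, 444⟩, ⟨0, 0, 0, 1, 1, 0, 0, 1, 0, 987⟩]⟩
def p4a3 : Wd :=
  ⟨1669, 1967, 543, 748, 2011, 2285, 3092, 3302,
    [⟨1, 0, 0, 1, 0, 0, 0, 0, 0, 666⟩, ⟨0, 1, 1, 0, 0, 0, 0, 0, 973, 0⟩, ⟨0, 0, 0, 0, 1, 0, 0, 1, 0, 906⟩, ⟨0, 0, 0, 1, 1, 0, 0, 1, 0, 1449⟩]⟩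
def o4a3e : Wd :=
  ⟨1056, 1571, 502, 687, 2284, 2745, 3067, 3250,
    [⟨1, 0, 0, 1, 0, 0, 0, 0, 0, 1056⟩, ⟨0, 1, 1, 0, 0, 0, 0, 0, 1507, 0⟩, ⟨0, 0, 0, 0, 1, 0, 0, 1, 0, 445⟩, ⟨0, 0, 0, 1, 1, 0, 0, 1, 0, 947⟩]⟩
def p4a3e : Wd :=
  ⟨1610, 1751, 502, 687, 1799, 1933, 3067, 3250,
    [⟨1, 0, 0, 1, 0, 0, 0, 0, 0, 822⟩, ⟨0, 1, 1, 0, 0, 0, 0, 0, 997, 0⟩, ⟨0, 0, 0, 0, 1, 0, 0, 1, 0, 1199⟩, ⟨0, 0, 0, 1, 1, 0, 0, 1, 0, 1701⟩]⟩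
def o4aZ : Wd :=
  ⟨1060, 1592, 561, 838, 2306, 2811, 3060, 3273,
    [⟨1, 0, 0, 1, 0, 0, 0, 0, 0, 1102⟩, ⟨0, 1, 1, 0, 0, 0, 0, 0, 1609, 0⟩, ⟨0, 0, 0, 0, 1, 0, 0, 1, 0, 393⟩, ⟨0, 0, 0, 1, 1, 0, 0, 1, 0, 954⟩]⟩
def p4aZ : Wd :=
  ⟨1831, 2302, 561, 838, 1920, 2337, 3050, 3273,
    [⟨1, 0, 0, 1, 0, 0, 0, 0, 0, 429⟩, ⟨0, 1, 1, 0, 0, 0, 0, 0, 838, 0⟩, ⟨0, 0, 0, 0, 1, 0, 0, 1, 0, 819⟩, ⟨0, 0, 0, 1, 1, 0, 0, 1, 0, 1380⟩]⟩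
def o4aZs : Wd :=
  ⟨1070, 1633, 612, 848, 2326, 2816, 2984, 3264,
    [⟨1, 0, 0, 1, 0, 0, 0, 0, 0, 1117⟩, ⟨0, 1, 1, 0, 0, 0, 0, 0, 1609, 0⟩, ⟨0, 0, 0, 0, 1, 0, 0, 1, 0, 313⟩, ⟨0, 0, 0, 1, 1, 0, 0, 1, 0, 925⟩]⟩
def p4aZs : Wd :=
  ⟨2154, 2531, 612, 848, 1800, 2336, 2984, 3264,
    [⟨1, 0, 0, 1, 0, 0, 0, 0, 0, 210⟩, ⟨0, 1, 1, 0, 0, 0, 0, 0, 594, 0⟩, ⟨0, 0, 0, 0, 1, 0, 0, 1, 0, 820⟩, ⟨0, 0, 0, 1, 1, 0, 0, 1, 0, 1432⟩]⟩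
def o4b2 : Wd :=
  ⟨953, 1279, 472, 673, 2625, 2963, 3177, 3389,
    [⟨1, 0, 0, 1, 0, 0, 0, 0, 0, 1294⟩, ⟨0, 1, 1, 0, 0, 0, 0, 0, 1590, 0⟩, ⟨0, 0, 0, 0, 1, 0, 0, 1, 0, 312⟩, ⟨0, 0, 0, 1, 1, 0, 0, 1, 0, 784⟩, ⟨1, 0, 0, 1, 1, 0, 0, 0, 1520, 0⟩]⟩
def p4b2 : Wd :=
  ⟨1339, 1789, 472, 673, 2023, 2504, 3177, 3389,
    [⟨1, 0, 0, 1, 0, 0, 0, 0, 0, 812⟩, ⟨0, 1, 1, 0, 0, 0, 0, 0, 1213, 0⟩, ⟨0, 0, 0, 0, 1, 0, 0, 1, 0, 795⟩, ⟨0, 0, 0, 1, 1, 0, 0, 1, 0, 1267⟩]⟩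
def o4b2e : Wd :=
  ⟨970, 1261, 387, 537, 2582, 2896, 3166, 3321,
    [⟨1, 0, 0, 1, 0, 0, 0, 0, 0, 1215⟩, ⟨0, 1, 1, 0, 0, 0, 0, 0, 1476, 0⟩, ⟨0, 0, 0, 0, 1, 0, 0, 1, 0, 366⟩, ⟨0, 0, 0, 1, 1, 0, 0, 1, 0, 753⟩, ⟨1, 0, 0, 1, 1, 0, 0, 0, 1540, 0⟩]⟩
def p4b2e : Wd :=
  ⟨898, 1029, 387, 537, 1707, 1835, 3166, 3321,
    [⟨1, 0, 0, 1, 0, 0, 0, 0, 0, 1423⟩, ⟨0, 1, 1, 0, 0, 0, 0, 0, 1568, 0⟩, ⟨0, 0, 0, 0, 1, 0, 0, 1, 0, 1391⟩, ⟨0, 0, 0, 1, 1, 0, 0, 1, 0, 1778⟩]⟩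
def o4b3 : Wd :=
  ⟨985, 1294, 518, 688, 2643, 2965, 3148, 3334,
    [⟨1, 0, 0, 1, 0, 0, 0, 0, 0, 1322⟩, ⟨0, 1, 1, 0, 0, 0, 0, 0, 1599, 0⟩, ⟨0, 0, 0, 0, 1, 0, 0, 1, 0, 284⟩, ⟨0, 0, 0, 1, 1, 0, 0, 1, 0, 802⟩, ⟨1, 0, 0, 1, 1, 0, 0, 0, 1520, 0⟩]⟩
def p4b3 : Wd :=
  ⟨1656, 1930, 518, 688, 2011, 2282, 3148, 3334,
    [⟨1, 0, 0, 1, 0, 0, 0, 0, 0, 670⟩, ⟨0, 1, 1, 0, 0, 0, 0, 0, 944, 0⟩, ⟨0, 0, 0, 0, 1, 0, 0, 1, 0, 962⟩, ⟨0, 0, 0, 1, 1, 0, 0, 1, 0, 1480⟩]⟩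
def o4b3e : Wd :=
  ⟨1004, 1296, 481, 635, 2620, 2936, 3128, 3285,
    [⟨1, 0, 0, 1, 0, 0, 0, 0, 0, 1278⟩, ⟨0, 1, 1, 0, 0, 0, 0, 0, 1537, 0⟩, ⟨0, 0, 0, 0, 1, 0, 0, 1, 0, 289⟩, ⟨0, 0, 0, 1, 1, 0, 0, 1, 0, 770⟩, ⟨1, 0, 0, 1, 1, 0, 0, 0, 1530, 0⟩]⟩
def p4b3e : Wd :=
  ⟨1600, 1730, 481, 635, 1803, 1930, 3128, 3285,
    [⟨1, 0, 0, 1, 0, 0, 0, 0, 0, 818⟩, ⟨0, 1, 1, 0, 0, 0, 0, 0, 964, 0⟩, ⟨0, 0, 0, 0, 1, 0, 0, 1, 0, 1260⟩, ⟨0, 0, 0, 1, 1, 0, 0, 1, 0, 1741⟩]⟩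
def o4bZ : Wd :=
  ⟨1001, 1315, 536, 777, 2645, 3007, 3120, 3308,
    [⟨1, 0, 0, 1, 0, 0, 0, 0, 0, 1321⟩, ⟨0, 1, 1, 0, 0, 0, 0, 0, 1665, 0⟩, ⟨0, 0, 0, 0, 1, 0, 0, 1, 0, 229⟩, ⟨0, 0, 0, 1, 1, 0, 0, 1, 0, 765⟩, ⟨1, 0, 0, 1, 1, 0, 0, 0, 1515, 0⟩]⟩
def p4bZ : Wd :=
  ⟨1816, 2277, 536, 777, 1928, 2343, 3120, 3308,
    [⟨1, 0, 0, 1, 0, 0, 0, 0, 0, 416⟩, ⟨0, 1, 1, 0, 0, 0, 0, 0, 805, 0⟩, ⟨0, 0, 0, 0, 1, 0, 0, 1, 0, 867⟩, ⟨0, 0, 0, 1, 1, 0, 0, 1, 0, 1403⟩]⟩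
def o4bZs : Wd :=
  ⟨1017, 1358, 584, 750, 2658, 2980, 3049, 3298,
    [⟨1, 0, 0, 1, 0, 0, 0, 0, 0, 1327⟩, ⟨0, 1, 1, 0, 0, 0, 0, 0, 1665, 0⟩, ⟨0, 0, 0, 0, 1, 0, 0, 1, 0, 174⟩, ⟨0, 0, 0, 1, 1, 0, 0, 1, 0, 740⟩, ⟨1, 0, 0, 1, 1, 0, 0, 0, 1520, 0⟩]⟩
def p4bZs : Wd :=
  ⟨2142, 2510, 584, 782, 1815, 2343, 3049, 3298,
    [⟨1, 0, 0, 1, 0, 0, 0, 0, 0, 185⟩, ⟨0, 1, 1, 0, 0, 0, 0, 0, 558, 0⟩, ⟨0, 0, 0, 0, 1, 0, 0, 1, 0, 867⟩, ⟨0, 0, 0, 1, 1, 0, 0, 1, 0, 1451⟩]⟩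
def o4c2 : Wd :=
  ⟨754, 903, 443, 613, 2479, 2621, 3149, 3333,
    [⟨1, 0, 0, 1, 0, 0, 0, 0, 0, 1606⟩, ⟨0, 1, 1, 0, 0, 0, 0, 0, 1771, 0⟩, ⟨0, 0, 0, 0, 1, 0, 0, 1, 0, 592⟩, ⟨0, 0, 0, 1, 1, 0, 0, 1, 0, 1035⟩]⟩
def p4c2 : Wd :=
  ⟨1349, 1784, 443, 613, 1999, 2480, 3149, 3333,
    [⟨1, 0, 0, 1, 0, 0, 0, 0, 0, 769⟩, ⟨0, 1, 1, 0, 0, 0, 0, 0, 1157, 0⟩, ⟨0, 0, 0, 0, 1, 0, 0, 1, 0, 793⟩, ⟨0, 0, 0, 1, 1, 0, 0, 1, 0, 1236⟩]⟩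
def o4c2e : Wd :=
  ⟨773, 893, 354, 474, 2439, 2559, 3147, 3267,
    [⟨1, 0, 0, 1, 0, 0, 0, 0, 0, 1521⟩, ⟨0, 1, 1, 0, 0, 0, 0, 0, 1641, 0⟩, ⟨0, 0, 0, 0, 1, 0, 0, 1, 0, 648⟩, ⟨0, 0, 0, 1, 1, 0, 0, 1, 0, 1002⟩]⟩
def p4c2e : Wd :=
  ⟨910, 1030, 354, 474, 1696, 1816, 3147, 3267,
    [⟨1, 0, 0, 1, 0, 0, 0, 0, 0, 1384⟩, ⟨0, 1, 1, 0, 0, 0, 0, 0, 1504, 0⟩, ⟨0, 0, 0, 0, 1, 0, 0, 1, 0, 1391⟩, ⟨0, 0, 0, 1, 1, 0, 0, 1, 0, 1745⟩]⟩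
def o4c3 : Wd :=
  ⟨782, 919, 489, 634, 2498, 2629, 3120, 3273,
    [⟨1, 0, 0, 1, 0, 0, 0, 0, 0, 1636⟩, ⟨0, 1, 1, 0, 0, 0, 0, 0, 1777, 0⟩, ⟨0, 0, 0, 0, 1, 0, 0, 1, 0, 555⟩, ⟨0, 0, 0, 1, 1, 0, 0, 1, 0, 1044⟩]⟩
def p4c3 : Wd :=
  ⟨1663, 1939, 489, 634, 1996, 2260, 3120, 3273,
    [⟨1, 0, 0, 1, 0, 0, 0, 0, 0, 635⟩, ⟨0, 1, 1, 0, 0, 0, 0, 0, 889, 0⟩, ⟨0, 0, 0, 0, 1, 0, 0, 1, 0, 953⟩, ⟨0, 0, 0, 1, 1, 0, 0, 1, 0, 1442⟩]⟩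
def o4c3e : Wd :=
  ⟨802, 922, 450, 570, 2477, 2597, 3103, 3223,
    [⟨1, 0, 0, 1, 0, 0, 0, 0, 0, 1588⟩, ⟨0, 1, 1, 0, 0, 0, 0, 0, 1708, 0⟩, ⟨0, 0, 0, 0, 1, 0, 0, 1, 0, 566⟩, ⟨0, 0, 0, 1, 1, 0, 0, 1, 0, 1016⟩]⟩
def p4c3e : Wd :=
  ⟨1607, 1727, 450, 570, 1791, 1911, 3103, 3223,
    [⟨1, 0, 0, 1, 0, 0, 0, 0, 0, 783⟩, ⟨0, 1, 1, 0, 0, 0, 0, 0, 903, 0⟩, ⟨0, 0, 0, 0, 1, 0, 0, 1, 0, 1251⟩, ⟨0, 0, 0, 1, 1, 0, 0, 1, 0, 1701⟩]⟩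
def o4cZ : Wd :=
  ⟨797, 935, 506, 715, 2502, 2666, 3091, 3245,
    [⟨1, 0, 0, 1, 0, 0, 0, 0, 0, 1634⟩, ⟨0, 1, 1, 0, 0, 0, 0, 0, 1845, 0⟩, ⟨0, 0, 0, 0, 1, 0, 0, 1, 0, 502⟩, ⟨0, 0, 0, 1, 1, 0, 0, 1, 0, 1008⟩]⟩
def p4cZ : Wd :=
  ⟨1817, 2264, 506, 715, 1915, 2318, 3081, 3245,
    [⟨1, 0, 0, 1, 0, 0, 0, 0, 0, 391⟩, ⟨0, 1, 1, 0, 0, 0, 0, 0, 757, 0⟩, ⟨0, 0, 0, 0, 1, 0, 0, 1, 0, 850⟩, ⟨0, 0, 0, 1, 1, 0, 0, 1, 0, 1356⟩]⟩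
def o4cZs : Wd :=
  ⟨810, 975, 552, 715, 2519, 2666, 3015, 3228,
    [⟨1, 0, 0, 1, 0, 0, 0, 0, 0, 1640⟩, ⟨0, 1, 1, 0, 0, 0, 0, 0, 1845, 0⟩, ⟨0, 0, 0, 0, 1, 0, 0, 1, 0, 416⟩, ⟨0, 0, 0, 1, 1, 0, 0, 1, 0, 968⟩]⟩
def p4cZs : Wd :=
  ⟨2140, 2493, 552, 715, 1807, 2318, 3015, 3228,
    [⟨1, 0, 0, 1, 0, 0, 0, 0, 0, 160⟩, ⟨0, 1, 1, 0, 0, 0, 0, 0, 510, 0⟩, ⟨0, 0, 0, 0, 1, 0, 0, 1, 0, 850⟩, ⟨0, 0, 0, 1, 1, 0, 0, 1, 0, 1402⟩]⟩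
def o5a2 : Wd :=
  ⟨906, 1482, 294, 572, 2245, 2775, 3327, 3617,
    [⟨1, 0, 0, 1, 0, 0, 0, 0, 0, 964⟩, ⟨0, 1, 1, 0, 0, 0, 0, 0, 1564, 0⟩, ⟨0, 0, 0, 0, 1, 0, 0, 1, 0, 700⟩, ⟨0, 0, 0, 1, 1, 0, 0, 1, 0, 994⟩]⟩
def p5a2 : Wd :=
  ⟨1223, 1760, 294, 572, 2007, 2538, 3327, 3617,
    [⟨1, 0, 0, 1, 0, 0, 0, 0, 0, 695⟩, ⟨0, 1, 1, 0, 0, 0, 0, 0, 1202, 0⟩, ⟨0, 0, 0, 0, 1, 0, 0, 1, 0, 941⟩, ⟨0, 0, 0, 1, 1, 0, 0, 1, 0, 1235⟩]⟩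
def o5a2e : Wd :=
  ⟨907, 1464, 226, 470, 2220, 2729, 3327, 3572,
    [⟨1, 0, 0, 1, 0, 0, 0, 0, 0, 906⟩, ⟨0, 1, 1, 0, 0, 0, 0, 0, 1483, 0⟩, ⟨0, 0, 0, 0, 1, 0, 0, 1, 0, 743⟩, ⟨0, 0, 0, 1, 1, 0, 0, 1, 0, 969⟩]⟩
def p5a2e : Wd :=
  ⟨798, 1010, 226, 470, 1650, 1860, 3327, 3572,
    [⟨1, 0, 0, 1, 0, 0, 0, 0, 0, 1322⟩, ⟨0, 1, 1, 0, 0, 0, 0, 0, 1560, 0⟩, ⟨0, 0, 0, 0, 1, 0, 0, 1, 0, 1569⟩, ⟨0, 0, 0, 1, 1, 0, 0, 1, 0, 1795⟩]⟩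
def o5a3 : Wd :=
  ⟨928, 1490, 331, 590, 2247, 2778, 3303, 3572,
    [⟨1, 0, 0, 1, 0, 0, 0, 0, 0, 987⟩, ⟨0, 1, 1, 0, 0, 0, 0, 0, 1569, 0⟩, ⟨0, 0, 0, 0, 1, 0, 0, 1, 0, 679⟩, ⟨0, 0, 0, 1, 1, 0, 0, 1, 0, 1010⟩]⟩
def p5a3 : Wd :=
  ⟨1546, 1920, 331, 590, 1977, 2326, 3303, 3572,
    [⟨1, 0, 0, 1, 0, 0, 0, 0, 0, 552⟩, ⟨0, 1, 1, 0, 0, 0, 0, 0, 916, 0⟩, ⟨0, 0, 0, 0, 1, 0, 0, 1, 0, 1105⟩, ⟨0, 0, 0, 1, 1, 0, 0, 1, 0, 1436⟩]⟩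
def o5a3e : Wd :=
  ⟨930, 1488, 296, 543, 2235, 2760, 3291, 3539,
    [⟨1, 0, 0, 1, 0, 0, 0, 0, 0, 955⟩, ⟨0, 1, 1, 0, 0, 0, 0, 0, 1529, 0⟩, ⟨0, 0, 0, 0, 1, 0, 0, 1, 0, 679⟩, ⟨0, 0, 0, 1, 1, 0, 0, 1, 0, 975⟩]⟩
def p5a3e : Wd :=
  ⟨1501, 1713, 296, 543, 1763, 1970, 3291, 3539,
    [⟨1, 0, 0, 1, 0, 0, 0, 0, 0, 691⟩, ⟨0, 1, 1, 0, 0, 0, 0, 0, 930, 0⟩, ⟨0, 0, 0, 0, 1, 0, 0, 1, 0, 1423⟩, ⟨0, 0, 0, 1, 1, 0, 0, 1, 0, 1719⟩]⟩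
def o5aZ : Wd :=
  ⟨934, 1507, 338, 656, 2247, 2797, 3279, 3551,
    [⟨1, 0, 0, 1, 0, 0, 0, 0, 0, 995⟩, ⟨0, 1, 1, 0, 0, 0, 0, 0, 1616, 0⟩, ⟨0, 0, 0, 0, 1, 0, 0, 1, 0, 638⟩, ⟨0, 0, 0, 1, 1, 0, 0, 1, 0, 976⟩]⟩
def p5aZ : Wd :=
  ⟨1713, 2248, 338, 656, 1898, 2416, 3279, 3551,
    [⟨1, 0, 0, 1, 0, 0, 0, 0, 0, 272⟩, ⟨0, 1, 1, 0, 0, 0, 0, 0, 766, 0⟩, ⟨0, 0, 0, 0, 1, 0, 0, 1, 0, 983⟩, ⟨0, 0, 0, 1, 1, 0, 0, 1, 0, 1321⟩]⟩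
def o5aZs : Wd :=
  ⟨945, 1529, 371, 656, 2249, 2800, 3221, 3537,
    [⟨1, 0, 0, 1, 0, 0, 0, 0, 0, 999⟩, ⟨0, 1, 1, 0, 0, 0, 0, 0, 1622, 0⟩, ⟨0, 0, 0, 0, 1, 0, 0, 1, 0, 588⟩, ⟨0, 0, 0, 1, 1, 0, 0, 1, 0, 959⟩]⟩
def p5aZs : Wd :=
  ⟨2034, 2499, 371, 656, 1821, 2416, 3221, 3537,
    [⟨1, 0, 0, 1, 0, 0, 0, 0, 0, 15⟩, ⟨0, 1, 1, 0, 0, 0, 0, 0, 507, 0⟩, ⟨0, 0, 0, 0, 1, 0, 0, 1, 0, 983⟩, ⟨0, 0, 0, 1, 1, 0, 0, 1, 0, 1354⟩]⟩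
def o5b2 : Wd :=
  ⟨802, 1196, 289, 543, 2558, 2961, 3371, 3643,
    [⟨1, 0, 0, 1, 0, 0, 0, 0, 0, 1218⟩, ⟨0, 1, 1, 0, 0, 0, 0, 0, 1596, 0⟩, ⟨0, 0, 0, 0, 1, 0, 0, 1, 0, 539⟩, ⟨0, 0, 0, 1, 1, 0, 0, 1, 0, 828⟩, ⟨1, 0, 0, 1, 1, 0, 0, 0, 1520, 0⟩]⟩
def p5b2 : Wd :=
  ⟨1216, 1746, 289, 543, 2012, 2537, 3371, 3643,
    [⟨1, 0, 0, 1, 0, 0, 0, 0, 0, 688⟩, ⟨0, 1, 1, 0, 0, 0, 0, 0, 1187, 0⟩, ⟨0, 0, 0, 0, 1, 0, 0, 1, 0, 983⟩, ⟨0, 0, 0, 1, 1, 0, 0, 1, 0, 1272⟩]⟩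
def o5b2e : Wd :=
  ⟨807, 1179, 240, 442, 2534, 2924, 3373, 3600,
    [⟨1, 0, 0, 1, 0, 0, 0, 0, 0, 1163⟩, ⟨0, 1, 1, 0, 0, 0, 0, 0, 1514, 0⟩, ⟨0, 0, 0, 0, 1, 0, 0, 1, 0, 576⟩, ⟨0, 0, 0, 1, 1, 0, 0, 1, 0, 797⟩, ⟨1, 0, 0, 1, 1, 0, 0, 0, 1530, 0⟩]⟩
def p5b2e : Wd :=
  ⟨791, 997, 240, 442, 1652, 1856, 3373, 3600,
    [⟨1, 0, 0, 1, 0, 0, 0, 0, 0, 1327⟩, ⟨0, 1, 1, 0, 0, 0, 0, 0, 1544, 0⟩, ⟨0, 0, 0, 0, 1, 0, 0, 1, 0, 1618⟩, ⟨0, 0, 0, 1, 1, 0, 0, 1, 0, 1839⟩]⟩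
def o5b3 : Wd :=
  ⟨822, 1206, 316, 557, 2567, 2963, 3349, 3600,
    [⟨1, 0, 0, 1, 0, 0, 0, 0, 0, 1237⟩, ⟨0, 1, 1, 0, 0, 0, 0, 0, 1599, 0⟩, ⟨0, 0, 0, 0, 1, 0, 0, 1, 0, 520⟩, ⟨0, 0, 0, 1, 1, 0, 0, 1, 0, 836⟩, ⟨1, 0, 0, 1, 1, 0, 0, 0, 1510, 0⟩]⟩
def p5b3 : Wd :=
  ⟨1539, 1907, 316, 557, 1983, 2329, 3349, 3600,
    [⟨1, 0, 0, 1, 0, 0, 0, 0, 0, 548⟩, ⟨0, 1, 1, 0, 0, 0, 0, 0, 897, 0⟩, ⟨0, 0, 0, 0, 1, 0, 0, 1, 0, 1147⟩, ⟨0, 0, 0, 1, 1, 0, 0, 1, 0, 1463⟩]⟩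
def o5b3e : Wd :=
  ⟨830, 1203, 286, 510, 2552, 2945, 3338, 3566,
    [⟨1, 0, 0, 1, 0, 0, 0, 0, 0, 1206⟩, ⟨0, 1, 1, 0, 0, 0, 0, 0, 1556, 0⟩, ⟨0, 0, 0, 0, 1, 0, 0, 1, 0, 521⟩, ⟨0, 0, 0, 1, 1, 0, 0, 1, 0, 807⟩, ⟨1, 0, 0, 1, 1, 0, 0, 0, 1520, 0⟩]⟩
def p5b3e : Wd :=
  ⟨1495, 1701, 286, 510, 1767, 1971, 3338, 3566,
    [⟨1, 0, 0, 1, 0, 0, 0, 0, 0, 690⟩, ⟨0, 1, 1, 0, 0, 0, 0, 0, 909, 0⟩, ⟨0, 0, 0, 0, 1, 0, 0, 1, 0, 1469⟩, ⟨0, 0, 0, 1, 1, 0, 0, 1, 0, 1755⟩]⟩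
def o5bZ : Wd :=
  ⟨832, 1221, 330, 616, 2566, 2988, 3326, 3578,
    [⟨1, 0, 0, 1, 0, 0, 0, 0, 0, 1236⟩, ⟨0, 1, 1, 0, 0, 0, 0, 0, 1646, 0⟩, ⟨0, 0, 0, 0, 1, 0, 0, 1, 0, 475⟩, ⟨0, 0, 0, 1, 1, 0, 0, 1, 0, 805⟩, ⟨1, 0, 0, 1, 1, 0, 0, 0, 1510, 0⟩]⟩
def p5bZ : Wd :=
  ⟨1701, 2233, 330, 616, 1904, 2422, 3326, 3578,
    [⟨1, 0, 0, 1, 0, 0, 0, 0, 0, 265⟩, ⟨0, 1, 1, 0, 0, 0, 0, 0, 746, 0⟩, ⟨0, 0, 0, 0, 1, 0, 0, 1, 0, 1020⟩, ⟨0, 0, 0, 1, 1, 0, 0, 1, 0, 1350⟩]⟩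
def o5bZs : Wd :=
  ⟨846, 1226, 377, 616, 2573, 2968, 3289, 3563,
    [⟨1, 0, 0, 1, 0, 0, 0, 0, 0, 1267⟩, ⟨0, 1, 1, 0, 0, 0, 0, 0, 1646, 0⟩, ⟨0, 0, 0, 0, 1, 0, 0, 1, 0, 446⟩, ⟨0, 0, 0, 1, 1, 0, 0, 1, 0, 823⟩, ⟨1, 0, 0, 1, 1, 0, 0, 0, 1515, 0⟩]⟩
def p5bZs : Wd :=
  ⟨2027, 2494, 357, 616, 1831, 2422, 3269, 3563,
    [⟨1, 0, 0, 1, 0, 0, 0, 0, 0, 3⟩, ⟨0, 1, 1, 0, 0, 0, 0, 0, 482, 0⟩, ⟨0, 0, 0, 0, 1, 0, 0, 1, 0, 1020⟩, ⟨0, 0, 0, 1, 1, 0, 0, 1, 0, 1377⟩]⟩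
def o5c2 : Wd :=
  ⟨614, 832, 261, 497, 2403, 2616, 3356, 3604,
    [⟨1, 0, 0, 1, 0, 0, 0, 0, 0, 1534⟩, ⟨0, 1, 1, 0, 0, 0, 0, 0, 1765, 0⟩, ⟨0, 0, 0, 0, 1, 0, 0, 1, 0, 842⟩, ⟨0, 0, 0, 1, 1, 0, 0, 1, 0, 1103⟩]⟩
def p5c2 : Wd :=
  ⟨1220, 1741, 261, 517, 2002, 2522, 3356, 3604,
    [⟨1, 0, 0, 1, 0, 0, 0, 0, 0, 656⟩, ⟨0, 1, 1, 0, 0, 0, 0, 0, 1186, 0⟩, ⟨0, 0, 0, 0, 1, 0, 0, 1, 0, 983⟩, ⟨0, 0, 0, 1, 1, 0, 0, 1, 0, 1244⟩]⟩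
def o5c2e : Wd :=
  ⟨620, 820, 195, 395, 2380, 2580, 3364, 3564,
    [⟨1, 0, 0, 1, 0, 0, 0, 0, 0, 1475⟩, ⟨0, 1, 1, 0, 0, 0, 0, 0, 1675, 0⟩, ⟨0, 0, 0, 0, 1, 0, 0, 1, 0, 884⟩, ⟨0, 0, 0, 1, 1, 0, 0, 1, 0, 1079⟩]⟩
def p5c2e : Wd :=
  ⟨797, 997, 195, 435, 1645, 1845, 3364, 3564,
    [⟨1, 0, 0, 1, 0, 0, 0, 0, 0, 1299⟩, ⟨0, 1, 1, 0, 0, 0, 0, 0, 1539, 0⟩, ⟨0, 0, 0, 0, 1, 0, 0, 1, 0, 1619⟩, ⟨0, 0, 0, 1, 1, 0, 0, 1, 0, 1814⟩]⟩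
def o5c3 : Wd :=
  ⟨632, 842, 292, 510, 2413, 2619, 3332, 3558,
    [⟨1, 0, 0, 1, 0, 0, 0, 0, 0, 1554⟩, ⟨0, 1, 1, 0, 0, 0, 0, 0, 1769, 0⟩, ⟨0, 0, 0, 0, 1, 0, 0, 1, 0, 816⟩, ⟨0, 0, 0, 1, 1, 0, 0, 1, 0, 1108⟩]⟩
def p5c3 : Wd :=
  ⟨1541, 1902, 292, 530, 1973, 2315, 3332, 3558,
    [⟨1, 0, 0, 1, 0, 0, 0, 0, 0, 508⟩, ⟨0, 1, 1, 0, 0, 0, 0, 0, 856, 0⟩, ⟨0, 0, 0, 0, 1, 0, 0, 1, 0, 1143⟩, ⟨0, 0, 0, 1, 1, 0, 0, 1, 0, 1435⟩]⟩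
def o5c3e : Wd :=
  ⟨641, 841, 261, 461, 2400, 2600, 3325, 3525,
    [⟨1, 0, 0, 1, 0, 0, 0, 0, 0, 1520⟩, ⟨0, 1, 1, 0, 0, 0, 0, 0, 1720, 0⟩, ⟨0, 0, 0, 0, 1, 0, 0, 1, 0, 825⟩, ⟨0, 0, 0, 1, 1, 0, 0, 1, 0, 1086⟩]⟩
def p5c3e : Wd :=
  ⟨1497, 1697, 261, 481, 1760, 1960, 3325, 3525,
    [⟨1, 0, 0, 1, 0, 0, 0, 0, 0, 664⟩, ⟨0, 1, 1, 0, 0, 0, 0, 0, 884, 0⟩, ⟨0, 0, 0, 0, 1, 0, 0, 1, 0, 1465⟩, ⟨0, 0, 0, 1, 1, 0, 0, 1, 0, 1726⟩]⟩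
def o5cZ : Wd :=
  ⟨641, 853, 301, 568, 2413, 2639, 3308, 3535,
    [⟨1, 0, 0, 1, 0, 0, 0, 0, 0, 1552⟩, ⟨0, 1, 1, 0, 0, 0, 0, 0, 1816, 0⟩, ⟨0, 0, 0, 0, 1, 0, 0, 1, 0, 777⟩, ⟨0, 0, 0, 1, 1, 0, 0, 1, 0, 1078⟩]⟩
def p5cZ : Wd :=
  ⟨1701, 2223, 301, 588, 1897, 2407, 3308, 3535,
    [⟨1, 0, 0, 1, 0, 0, 0, 0, 0, 245⟩, ⟨0, 1, 1, 0, 0, 0, 0, 0, 729, 0⟩, ⟨0, 0, 0, 0, 1, 0, 0, 1, 0, 1009⟩, ⟨0, 0, 0, 1, 1, 0, 0, 1, 0, 1310⟩]⟩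
def o5cZs : Wd :=
  ⟨653, 878, 331, 589, 2420, 2639, 3249, 3516,
    [⟨1, 0, 0, 1, 0, 0, 0, 0, 0, 1557⟩, ⟨0, 1, 1, 0, 0, 0, 0, 0, 1816, 0⟩, ⟨0, 0, 0, 0, 1, 0, 0, 1, 0, 718⟩, ⟨0, 0, 0, 1, 1, 0, 0, 1, 0, 1049⟩]⟩
def p5cZs : Wd :=
  ⟨2024, 2483, 331, 589, 1828, 2407, 3249, 3516,
    [⟨1, 0, 0, 1, 0, 0, 0, 0, 23, 0⟩, ⟨0, 1, 1, 0, 0, 0, 0, 0, 444, 0⟩, ⟨0, 0, 0, 0, 1, 0, 0, 1, 0, 1009⟩, ⟨0, 0, 0, 1, 1, 0, 0, 1, 0, 1340⟩]⟩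
def o6a2 : Wd :=
  ⟨836, 1431, 179, 472, 2241, 2787, 3504, 3815,
    [⟨1, 0, 0, 1, 0, 0, 0, 0, 0, 909⟩, ⟨0, 1, 1, 0, 0, 0, 0, 0, 1533, 0⟩, ⟨0, 0, 0, 0, 1, 0, 0, 1, 0, 879⟩, ⟨0, 0, 0, 1, 1, 0, 0, 1, 0, 1058⟩]⟩
def p6a2 : Wd :=
  ⟨1148, 1722, 179, 472, 1995, 2558, 3504, 3815,
    [⟨1, 0, 0, 1, 0, 0, 0, 0, 0, 610⟩, ⟨0, 1, 1, 0, 0, 0, 0, 0, 1174, 0⟩, ⟨0, 0, 0, 0, 1, 0, 0, 1, 0, 1104⟩, ⟨0, 0, 0, 1, 1, 0, 0, 1, 0, 1283⟩]⟩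
def o6a2e : Wd :=
  ⟨836, 1417, 123, 394, 2226, 2765, 3509, 3786,
    [⟨1, 0, 0, 1, 0, 0, 0, 0, 0, 858⟩, ⟨0, 1, 1, 0, 0, 0, 0, 0, 1471, 0⟩, ⟨0, 0, 0, 0, 1, 0, 0, 1, 0, 901⟩, ⟨0, 0, 0, 1, 1, 0, 0, 1, 0, 1024⟩]⟩
def p6a2e : Wd :=
  ⟨732, 980, 123, 394, 1626, 1871, 3509, 3786,
    [⟨1, 0, 0, 1, 0, 0, 0, 0, 0, 1267⟩, ⟨0, 1, 1, 0, 0, 0, 0, 0, 1534, 0⟩, ⟨0, 0, 0, 0, 1, 0, 0, 1, 0, 1759⟩, ⟨0, 0, 0, 1, 1, 0, 0, 1, 0, 1882⟩]⟩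
def o6a3 : Wd :=
  ⟨856, 1435, 201, 479, 2245, 2786, 3486, 3778,
    [⟨1, 0, 0, 1, 0, 0, 0, 0, 0, 918⟩, ⟨0, 1, 1, 0, 0, 0, 0, 0, 1528, 0⟩, ⟨0, 0, 0, 0, 1, 0, 0, 1, 0, 866⟩, ⟨0, 0, 0, 1, 1, 0, 0, 1, 0, 1067⟩]⟩
def p6a3 : Wd :=
  ⟨1475, 1874, 201, 479, 1973, 2357, 3486, 3778,
    [⟨1, 0, 0, 1, 0, 0, 0, 0, 0, 472⟩, ⟨0, 1, 1, 0, 0, 0, 0, 0, 870, 0⟩, ⟨0, 0, 0, 0, 1, 0, 0, 1, 0, 1269⟩, ⟨0, 0, 0, 1, 1, 0, 0, 1, 0, 1470⟩]⟩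
def o6a3e : Wd :=
  ⟨858, 1433, 172, 447, 2234, 2753, 3478, 3753,
    [⟨1, 0, 0, 1, 0, 0, 0, 0, 0, 894⟩, ⟨0, 1, 1, 0, 0, 0, 0, 0, 1501, 0⟩, ⟨0, 0, 0, 0, 1, 0, 0, 1, 0, 881⟩, ⟨0, 0, 0, 1, 1, 0, 0, 1, 0, 1053⟩]⟩
def p6a3e : Wd :=
  ⟨1438, 1685, 172, 447, 1751, 1995, 3478, 3753,
    [⟨1, 0, 0, 1, 0, 0, 0, 0, 0, 612⟩, ⟨0, 1, 1, 0, 0, 0, 0, 0, 881, 0⟩, ⟨0, 0, 0, 0, 1, 0, 0, 1, 0, 1604⟩, ⟨0, 0, 0, 1, 1, 0, 0, 1, 0, 1776⟩]⟩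
def o6aZ : Wd :=
  ⟨861, 1448, 203, 532, 2245, 2795, 3464, 3761,
    [⟨1, 0, 0, 1, 0, 0, 0, 0, 0, 918⟩, ⟨0, 1, 1, 0, 0, 0, 0, 0, 1573, 0⟩, ⟨0, 0, 0, 0, 1, 0, 0, 1, 0, 830⟩, ⟨0, 0, 0, 1, 1, 0, 0, 1, 0, 1033⟩]⟩
def p6aZ : Wd :=
  ⟨1648, 2214, 203, 532, 1896, 2471, 3464, 3761,
    [⟨1, 0, 0, 1, 0, 0, 0, 0, 0, 170⟩, ⟨0, 1, 1, 0, 0, 0, 0, 0, 715, 0⟩, ⟨0, 0, 0, 0, 1, 0, 0, 1, 0, 1125⟩, ⟨0, 0, 0, 1, 1, 0, 0, 1, 0, 1328⟩]⟩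
def o6aZs : Wd :=
  ⟨865, 1460, 225, 532, 2246, 2793, 3418, 3745,
    [⟨1, 0, 0, 1, 0, 0, 0, 0, 0, 935⟩, ⟨0, 1, 1, 0, 0, 0, 0, 0, 1569, 0⟩, ⟨0, 0, 0, 0, 1, 0, 0, 1, 0, 802⟩, ⟨0, 0, 0, 1, 1, 0, 0, 1, 0, 1027⟩]⟩
def p6aZs : Wd :=
  ⟨1967, 2489, 225, 532, 1844, 2470, 3418, 3745,
    [⟨1, 0, 0, 1, 0, 0, 0, 0, 107, 0⟩, ⟨0, 1, 1, 0, 0, 0, 0, 0, 436, 0⟩, ⟨0, 0, 0, 0, 1, 0, 0, 1, 0, 1125⟩, ⟨0, 0, 0, 1, 1, 0, 0, 1, 0, 1350⟩]⟩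
def o6b2 : Wd :=
  ⟨709, 1136, 175, 450, 2536, 2969, 3539, 3834,
    [⟨1, 0, 0, 1, 0, 0, 0, 0, 0, 1174⟩, ⟨0, 1, 1, 0, 0, 0, 0, 0, 1590, 0⟩, ⟨0, 0, 0, 0, 1, 0, 0, 1, 0, 715⟩, ⟨0, 0, 0, 1, 1, 0, 0, 1, 0, 890⟩]⟩
def p6b2 : Wd :=
  ⟨1143, 1714, 175, 450, 1996, 2559, 3539, 3834,
    [⟨1, 0, 0, 1, 0, 0, 0, 0, 0, 613⟩, ⟨0, 1, 1, 0, 0, 0, 0, 0, 1162, 0⟩, ⟨0, 0, 0, 0, 1, 0, 0, 1, 0, 1137⟩, ⟨0, 0, 0, 1, 1, 0, 0, 1, 0, 1312⟩]⟩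
def o6b2e : Wd :=
  ⟨710, 1123, 120, 376, 2516, 2944, 3546, 3806,
    [⟨1, 0, 0, 1, 0, 0, 0, 0, 0, 1132⟩, ⟨0, 1, 1, 0, 0, 0, 0, 0, 1530, 0⟩, ⟨0, 0, 0, 0, 1, 0, 0, 1, 0, 742⟩, ⟨0, 0, 0, 1, 1, 0, 0, 1, 0, 862⟩]⟩
def p6b2e : Wd :=
  ⟨728, 972, 120, 376, 1627, 1870, 3546, 3806,
    [⟨1, 0, 0, 1, 0, 0, 0, 0, 0, 1271⟩, ⟨0, 1, 1, 0, 0, 0, 0, 0, 1524, 0⟩, ⟨0, 0, 0, 0, 1, 0, 0, 1, 0, 1796⟩, ⟨0, 0, 0, 1, 1, 0, 0, 1, 0, 1916⟩]⟩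
def o6b3 : Wd :=
  ⟨722, 1143, 192, 460, 2536, 2969, 3521, 3798,
    [⟨1, 0, 0, 1, 0, 0, 0, 0, 0, 1192⟩, ⟨0, 1, 1, 0, 0, 0, 0, 0, 1594, 0⟩, ⟨0, 0, 0, 0, 1, 0, 0, 1, 0, 700⟩, ⟨0, 0, 0, 1, 1, 0, 0, 1, 0, 892⟩]⟩
def p6b3 : Wd :=
  ⟨1471, 1868, 192, 460, 1976, 2359, 3521, 3798,
    [⟨1, 0, 0, 1, 0, 0, 0, 0, 0, 459⟩, ⟨0, 1, 1, 0, 0, 0, 0, 0, 856, 0⟩, ⟨0, 0, 0, 0, 1, 0, 0, 1, 0, 1302⟩, ⟨0, 0, 0, 1, 1, 0, 0, 1, 0, 1494⟩]⟩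
def o6b3e : Wd :=
  ⟨726, 1140, 168, 425, 2527, 2957, 3515, 3777,
    [⟨1, 0, 0, 1, 0, 0, 0, 0, 0, 1165⟩, ⟨0, 1, 1, 0, 0, 0, 0, 0, 1562, 0⟩, ⟨0, 0, 0, 0, 1, 0, 0, 1, 0, 700⟩, ⟨0, 0, 0, 1, 1, 0, 0, 1, 0, 868⟩]⟩
def p6b3e : Wd :=
  ⟨1434, 1678, 168, 425, 1754, 1997, 3515, 3777,
    [⟨1, 0, 0, 1, 0, 0, 0, 0, 0, 613⟩, ⟨0, 1, 1, 0, 0, 0, 0, 0, 867, 0⟩, ⟨0, 0, 0, 0, 1, 0, 0, 1, 0, 1640⟩, ⟨0, 0, 0, 1, 1, 0, 0, 1, 0, 1808⟩]⟩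
def o6bZ : Wd :=
  ⟨729, 1155, 200, 505, 2535, 2983, 3501, 3782,
    [⟨1, 0, 0, 1, 0, 0, 0, 0, 0, 1186⟩, ⟨0, 1, 1, 0, 0, 0, 0, 0, 1628, 0⟩, ⟨0, 0, 0, 0, 1, 0, 0, 1, 0, 664⟩, ⟨0, 0, 0, 1, 1, 0, 0, 1, 0, 864⟩]⟩
def p6bZ : Wd :=
  ⟨1638, 2206, 200, 505, 1900, 2475, 3501, 3782,
    [⟨1, 0, 0, 1, 0, 0, 0, 0, 0, 166⟩, ⟨0, 1, 1, 0, 0, 0, 0, 0, 700, 0⟩, ⟨0, 0, 0, 0, 1, 0, 0, 1, 0, 1155⟩, ⟨0, 0, 0, 1, 1, 0, 0, 1, 0, 1355⟩]⟩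
def o6bZs : Wd :=
  ⟨740, 1169, 218, 505, 2542, 2983, 3456, 3767,
    [⟨1, 0, 0, 1, 0, 0, 0, 0, 0, 1191⟩, ⟨0, 1, 1, 0, 0, 0, 0, 0, 1628, 0⟩, ⟨0, 0, 0, 0, 1, 0, 0, 1, 0, 633⟩, ⟨0, 0, 0, 1, 1, 0, 0, 1, 0, 851⟩]⟩
def p6bZs : Wd :=
  ⟨1963, 2486, 218, 505, 1851, 2475, 3456, 3767,
    [⟨1, 0, 0, 1, 0, 0, 0, 0, 118, 0⟩, ⟨0, 1, 1, 0, 0, 0, 0, 0, 417, 0⟩, ⟨0, 0, 0, 0, 1, 0, 0, 1, 0, 1155⟩, ⟨0, 0, 0, 1, 1, 0, 0, 1, 0, 1373⟩]⟩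
def o6c2 : Wd :=
  ⟨528, 780, 150, 417, 2369, 2617, 3529, 3807,
    [⟨1, 0, 0, 1, 0, 0, 0, 0, 0, 1494⟩, ⟨0, 1, 1, 0, 0, 0, 0, 0, 1757, 0⟩, ⟨0, 0, 0, 0, 1, 0, 0, 1, 0, 1033⟩, ⟨0, 0, 0, 1, 1, 0, 0, 1, 0, 1183⟩]⟩
def p6c2 : Wd :=
  ⟨1145, 1711, 150, 417, 1990, 2550, 3529, 3807,
    [⟨1, 0, 0, 1, 0, 0, 0, 0, 0, 585⟩, ⟨0, 1, 1, 0, 0, 0, 0, 0, 1132, 0⟩, ⟨0, 0, 0, 0, 1, 0, 0, 1, 0, 1137⟩, ⟨0, 0, 0, 1, 1, 0, 0, 1, 0, 1287⟩]⟩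
def o6c2e : Wd :=
  ⟨531, 771, 100, 340, 2355, 2595, 3540, 3780,
    [⟨1, 0, 0, 1, 0, 0, 0, 0, 0, 1450⟩, ⟨0, 1, 1, 0, 0, 0, 0, 0, 1690, 0⟩, ⟨0, 0, 0, 0, 1, 0, 0, 1, 0, 1065⟩, ⟨0, 0, 0, 1, 1, 0, 0, 1, 0, 1165⟩]⟩
def p6c2e : Wd :=
  ⟨731, 971, 100, 340, 1622, 1862, 3540, 3780,
    [⟨1, 0, 0, 1, 0, 0, 0, 0, 0, 1250⟩, ⟨0, 1, 1, 0, 0, 0, 0, 0, 1490, 0⟩, ⟨0, 0, 0, 0, 1, 0, 0, 1, 0, 1798⟩, ⟨0, 0, 0, 1, 1, 0, 0, 1, 0, 1898⟩]⟩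
def o6c3 : Wd :=
  ⟨540, 786, 172, 424, 2374, 2618, 3510, 3770,
    [⟨1, 0, 0, 1, 0, 0, 0, 0, 0, 1508⟩, ⟨0, 1, 1, 0, 0, 0, 0, 0, 1758, 0⟩, ⟨0, 0, 0, 0, 1, 0, 0, 1, 0, 1014⟩, ⟨0, 0, 0, 1, 1, 0, 0, 1, 0, 1186⟩]⟩
def p6c3 : Wd :=
  ⟨1471, 1870, 172, 424, 1970, 2351, 3510, 3770,
    [⟨1, 0, 0, 1, 0, 0, 0, 0, 0, 434⟩, ⟨0, 1, 1, 0, 0, 0, 0, 0, 825, 0⟩, ⟨0, 0, 0, 0, 1, 0, 0, 1, 0, 1299⟩, ⟨0, 0, 0, 1, 1, 0, 0, 1, 0, 1471⟩]⟩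
def o6c3e : Wd :=
  ⟨544, 784, 147, 387, 2366, 2606, 3508, 3748,
    [⟨1, 0, 0, 1, 0, 0, 0, 0, 0, 1483⟩, ⟨0, 1, 1, 0, 0, 0, 0, 0, 1723, 0⟩, ⟨0, 0, 0, 0, 1, 0, 0, 1, 0, 1021⟩, ⟨0, 0, 0, 1, 1, 0, 0, 1, 0, 1168⟩]⟩
def p6c3e : Wd :=
  ⟨1435, 1675, 147, 387, 1750, 1990, 3508, 3748,
    [⟨1, 0, 0, 1, 0, 0, 0, 0, 0, 593⟩, ⟨0, 1, 1, 0, 0, 0, 0, 0, 833, 0⟩, ⟨0, 0, 0, 0, 1, 0, 0, 1, 0, 1638⟩, ⟨0, 0, 0, 1, 1, 0, 0, 1, 0, 1785⟩]⟩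
def o6cZ : Wd :=
  ⟨546, 795, 176, 468, 2374, 2630, 3490, 3752,
    [⟨1, 0, 0, 1, 0, 0, 0, 0, 0, 1506⟩, ⟨0, 1, 1, 0, 0, 0, 0, 0, 1793, 0⟩, ⟨0, 0, 0, 0, 1, 0, 0, 1, 0, 984⟩, ⟨0, 0, 0, 1, 1, 0, 0, 1, 0, 1160⟩]⟩
def p6cZ : Wd :=
  ⟨1636, 2198, 176, 468, 1896, 2466, 3490, 3752,
    [⟨1, 0, 0, 1, 0, 0, 0, 0, 0, 150⟩, ⟨0, 1, 1, 0, 0, 0, 0, 0, 669, 0⟩, ⟨0, 0, 0, 0, 1, 0, 0, 1, 0, 1148⟩, ⟨0, 0, 0, 1, 1, 0, 0, 1, 0, 1324⟩]⟩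
def o6cZs : Wd :=
  ⟨555, 810, 197, 468, 2377, 2630, 3444, 3734,
    [⟨1, 0, 0, 1, 0, 0, 0, 0, 0, 1510⟩, ⟨0, 1, 1, 0, 0, 0, 0, 0, 1793, 0⟩, ⟨0, 0, 0, 0, 1, 0, 0, 1, 0, 941⟩, ⟨0, 0, 0, 1, 1, 0, 0, 1, 0, 1138⟩]⟩
def p6cZs : Wd :=
  ⟨1960, 2480, 197, 468, 1850, 2466, 3444, 3734,
    [⟨1, 0, 0, 1, 0, 0, 0, 0, 143, 0⟩, ⟨0, 1, 1, 0, 0, 0, 0, 0, 388, 0⟩, ⟨0, 0, 0, 0, 1, 0, 0, 1, 0, 1148⟩, ⟨0, 0, 0, 1, 1, 0, 0, 1, 0, 1345⟩]⟩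
def e4a : Wd :=
  ⟨1136, 1615, 298, 495, 2163, 2605, 2821, 3026,
    [⟨1, 0, 0, 1, 0, 0, 0, 0, 0, 820⟩, ⟨0, 1, 1, 0, 0, 0, 0, 0, 1201, 0⟩, ⟨0, 0, 0, 0, 1, 0, 0, 1, 0, 362⟩, ⟨0, 0, 0, 1, 1, 0, 0, 1, 0, 660⟩]⟩
def e4b1 : Wd :=
  ⟨1073, 1358, 293, 449, 2500, 2726, 2935, 3035,
    [⟨1, 0, 0, 1, 0, 0, 0, 0, 0, 1059⟩, ⟨0, 1, 1, 0, 0, 0, 0, 0, 1269, 0⟩, ⟨0, 0, 0, 0, 1, 0, 0, 1, 0, 279⟩, ⟨0, 0, 0, 1, 1, 0, 0, 1, 0, 515⟩]⟩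
def e4b2 : Wd :=
  ⟨1073, 1358, 293, 449, 2595, 2751, 2966, 3033,
    [⟨1, 0, 0, 1, 0, 0, 0, 0, 0, 1125⟩, ⟨0, 1, 1, 0, 0, 0, 0, 0, 1232, 0⟩, ⟨0, 0, 0, 0, 1, 0, 0, 1, 0, 262⟩, ⟨0, 0, 0, 1, 1, 0, 0, 1, 0, 515⟩]⟩
def e4c : Wd :=
  ⟨871, 991, 244, 364, 2352, 2472, 2895, 3015,
    [⟨1, 0, 0, 1, 0, 0, 0, 0, 0, 1313⟩, ⟨0, 1, 1, 0, 0, 0, 0, 0, 1433, 0⟩, ⟨0, 0, 0, 0, 1, 0, 0, 1, 0, 483⟩, ⟨0, 0, 0, 1, 1, 0, 0, 1, 0, 727⟩]⟩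
def e5a : Wd :=
  ⟨974, 1501, 140, 391, 2180, 2677, 3135, 3395,
    [⟨1, 0, 0, 1, 0, 0, 0, 0, 0, 790⟩, ⟨0, 1, 1, 0, 0, 0, 0, 0, 1274, 0⟩, ⟨0, 0, 0, 0, 1, 0, 0, 1, 0, 618⟩, ⟨0, 0, 0, 1, 1, 0, 0, 1, 0, 758⟩]⟩
def e5b : Wd :=
  ⟨860, 1228, 141, 364, 2471, 2859, 3195, 3429,
    [⟨1, 0, 0, 1, 0, 0, 0, 0, 0, 1037⟩, ⟨0, 1, 1, 0, 0, 0, 0, 0, 1381, 0⟩, ⟨0, 0, 0, 0, 1, 0, 0, 1, 0, 470⟩, ⟨0, 0, 0, 1, 1, 0, 0, 1, 0, 611⟩]⟩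
def e5c : Wd :=
  ⟨672, 872, 106, 306, 2326, 2526, 3192, 3392,
    [⟨1, 0, 0, 1, 0, 0, 0, 0, 0, 1334⟩, ⟨0, 1, 1, 0, 0, 0, 0, 0, 1534, 0⟩, ⟨0, 0, 0, 0, 1, 0, 0, 1, 0, 765⟩, ⟨0, 0, 0, 1, 1, 0, 0, 1, 0, 871⟩]⟩
def e6a : Wd :=
  ⟨862, 1436, 52, 328, 2188, 2723, 3372, 3657,
    [⟨1, 0, 0, 1, 0, 0, 0, 0, 0, 772⟩, ⟨0, 1, 1, 0, 0, 0, 0, 0, 1316, 0⟩, ⟨0, 0, 0, 0, 1, 0, 0, 1, 0, 814⟩, ⟨0, 0, 0, 1, 1, 0, 0, 1, 0, 866⟩]⟩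
def e6b : Wd :=
  ⟨741, 1151, 54, 311, 2475, 2902, 3417, 3682,
    [⟨1, 0, 0, 1, 0, 0, 0, 0, 0, 1040⟩, ⟨0, 1, 1, 0, 0, 0, 0, 0, 1434, 0⟩, ⟨0, 0, 0, 0, 1, 0, 0, 1, 0, 660⟩, ⟨0, 0, 0, 1, 1, 0, 0, 1, 0, 714⟩]⟩
def e6c : Wd :=
  ⟨560, 800, 29, 269, 2320, 2560, 3416, 3656,
    [⟨1, 0, 0, 1, 0, 0, 0, 0, 0, 1348⟩, ⟨0, 1, 1, 0, 0, 0, 0, 0, 1588, 0⟩, ⟨0, 0, 0, 0, 1, 0, 0, 1, 0, 976⟩, ⟨0, 0, 0, 1, 1, 0, 0, 1, 0, 1005⟩]⟩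
def o4a1 : Wd :=
  ⟨983, 1527, 403, 683, 2259, 2750, 3180, 3433,
    [⟨1, 0, 0, 1, 0, 0, 0, 0, 0, 1018⟩, ⟨0, 1, 1, 0, 0, 0, 0, 0, 1594, 0⟩, ⟨0, 0, 0, 0, 1, 0, 0, 1, 0, 536⟩, ⟨0, 0, 0, 1, 1, 0, 0, 1, 0, 939⟩]⟩
def o4c1 : Wd :=
  ⟨716, 874, 361, 578, 2452, 2610, 3209, 3415,
    [⟨1, 0, 0, 1, 0, 0, 0, 0, 0, 1569⟩, ⟨0, 1, 1, 0, 0, 0, 0, 0, 1794, 0⟩, ⟨0, 0, 0, 0, 1, 0, 0, 1, 0, 664⟩, ⟨0, 0, 0, 1, 1, 0, 0, 1, 0, 1025⟩]⟩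
def o4b1 : Wd :=
  ⟨912, 1247, 390, 634, 2602, 2945, 3234, 3455,
    [⟨1, 0, 0, 1, 0, 0, 0, 0, 0, 1262⟩, ⟨0, 1, 1, 0, 0, 0, 0, 0, 1617, 0⟩, ⟨0, 0, 0, 0, 1, 0, 0, 1, 0, 382⟩, ⟨0, 0, 0, 1, 1, 0, 0, 1, 0, 772⟩, ⟨1, 0, 0, 1, 1, 0, 0, 0, 1530, 0⟩]⟩
def o4bb1 : Wd :=
  ⟨930, 1185, 450, 560, 2640, 2905, 3315, 3430,
    [⟨1, 0, 0, 1, 0, 0, 0, 0, 0, 1320⟩, ⟨0, 1, 1, 0, 0, 0, 0, 0, 1585, 0⟩, ⟨0, 0, 0, 0, 1, 0, 0, 1, 0, 465⟩, ⟨0, 0, 0, 1, 1, 0, 0, 1, 0, 915⟩]⟩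
def o5a1 : Wd :=
  ⟨887, 1464, 236, 547, 2233, 2772, 3374, 3679,
    [⟨1, 0, 0, 1, 0, 0, 0, 0, 0, 931⟩, ⟨0, 1, 1, 0, 0, 0, 0, 0, 1554, 0⟩, ⟨0, 0, 0, 0, 1, 0, 0, 1, 0, 748⟩, ⟨0, 0, 0, 1, 1, 0, 0, 1, 0, 984⟩]⟩
def o5c1 : Wd :=
  ⟨589, 814, 207, 475, 2391, 2611, 3403, 3669,
    [⟨1, 0, 0, 1, 0, 0, 0, 0, 0, 1509⟩, ⟨0, 1, 1, 0, 0, 0, 0, 0, 1762, 0⟩, ⟨0, 0, 0, 0, 1, 0, 0, 1, 0, 893⟩, ⟨0, 0, 0, 1, 1, 0, 0, 1, 0, 1100⟩]⟩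
def o5b1 : Wd :=
  ⟨775, 1176, 229, 517, 2549, 2954, 3417, 3702,
    [⟨1, 0, 0, 1, 0, 0, 0, 0, 0, 1197⟩, ⟨0, 1, 1, 0, 0, 0, 0, 0, 1592, 0⟩, ⟨0, 0, 0, 0, 1, 0, 0, 1, 0, 589⟩, ⟨0, 0, 0, 1, 1, 0, 0, 1, 0, 818⟩, ⟨1, 0, 0, 1, 1, 0, 0, 0, 1530, 0⟩]⟩
def o5bb1 : Wd :=
  ⟨830, 1085, 320, 425, 2620, 2880, 3520, 3630,
    [⟨1, 0, 0, 1, 0, 0, 0, 0, 0, 1285⟩, ⟨0, 1, 1, 0, 0, 0, 0, 0, 1555, 0⟩, ⟨0, 0, 0, 0, 1, 0, 0, 1, 0, 685⟩, ⟨0, 0, 0, 1, 1, 0, 0, 1, 0, 1005⟩]⟩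
def o6a1 : Wd :=
  ⟨819, 1409, 133, 457, 2243, 2781, 3541, 3852,
    [⟨1, 0, 0, 1, 0, 0, 0, 0, 0, 886⟩, ⟨0, 1, 1, 0, 0, 0, 0, 0, 1522, 0⟩, ⟨0, 0, 0, 0, 1, 0, 0, 1, 0, 923⟩, ⟨0, 0, 0, 1, 1, 0, 0, 1, 0, 1056⟩]⟩
def o6c1 : Wd :=
  ⟨512, 768, 112, 403, 2363, 2615, 3566, 3858,
    [⟨1, 0, 0, 1, 0, 0, 0, 0, 0, 1476⟩, ⟨0, 1, 1, 0, 0, 0, 0, 0, 1755, 0⟩, ⟨0, 0, 0, 0, 1, 0, 0, 1, 0, 1071⟩, ⟨0, 0, 0, 1, 1, 0, 0, 1, 0, 1183⟩]⟩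
def o6b1 : Wd :=
  ⟨693, 1114, 130, 432, 2528, 2958, 3574, 3869,
    [⟨1, 0, 0, 1, 0, 0, 0, 0, 0, 1155⟩, ⟨0, 1, 1, 0, 0, 0, 0, 0, 1585, 0⟩, ⟨0, 0, 0, 0, 1, 0, 0, 1, 0, 761⟩, ⟨0, 0, 0, 1, 1, 0, 0, 1, 0, 891⟩]⟩

end RC

end Pool.Agent.Work.MP_b30479_gtS.G2

end

section

/-!
# Rings on the level part: windows, continued
-/

namespace Pool.Agent.Work.MP_b30479_gtS.G2

open Real Set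

namespace RC

open R6

def o222 : Wd :=
  ⟨928, 1072, 443, 620, 1715, 1852, 3036, 3229,
    [⟨1, 0, 0, 1, 0, 0, 0, 0, 0, 1437⟩, ⟨0, 1, 1, 0, 0, 0, 0, 0, 1609, 0⟩, ⟨0, 0, 0, 0, 1, 0, 0, 1, 0, 1248⟩, ⟨0, 0, 0, 1, 1, 0, 0, 1, 0, 1691⟩]⟩
def p222 : Wd :=
  ⟨1384, 1815, 443, 620, 1980, 2462, 3036, 3229,
    [⟨1, 0, 0, 1, 0, 0, 0, 0, 0, 745⟩, ⟨0, 1, 1, 0, 0, 0, 0, 0, 1124, 0⟩, ⟨0, 0, 0, 0, 1, 0, 0, 1, 0, 706⟩, ⟨0, 0, 0, 1, 1, 0, 0, 1, 0, 1149⟩]⟩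
def o222e : Wd :=
  ⟨940, 1060, 341, 461, 1683, 1803, 3037, 3157,
    [⟨1, 0, 0, 1, 0, 0, 0, 0, 0, 1341⟩, ⟨0, 1, 1, 0, 0, 0, 0, 0, 1461, 0⟩, ⟨0, 0, 0, 0, 1, 0, 0, 1, 0, 1293⟩, ⟨0, 0, 0, 1, 1, 0, 0, 1, 0, 1634⟩]⟩
def o223 : Wd :=
  ⟨951, 1084, 494, 642, 1729, 1857, 3002, 3161,
    [⟨1, 0, 0, 1, 0, 0, 0, 0, 0, 1476⟩, ⟨0, 1, 1, 0, 0, 0, 0, 0, 1619, 0⟩, ⟨0, 0, 0, 0, 1, 0, 0, 1, 0, 1208⟩, ⟨0, 0, 0, 1, 1, 0, 0, 1, 0, 1702⟩]⟩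
def p223 : Wd :=
  ⟨1692, 1965, 494, 642, 1973, 2239, 3002, 3161,
    [⟨1, 0, 0, 1, 0, 0, 0, 0, 0, 617⟩, ⟨0, 1, 1, 0, 0, 0, 0, 0, 866, 0⟩, ⟨0, 0, 0, 0, 1, 0, 0, 1, 0, 862⟩, ⟨0, 0, 0, 1, 1, 0, 0, 1, 0, 1356⟩]⟩
def o223e : Wd :=
  ⟨965, 1085, 449, 569, 1712, 1832, 2984, 3104,
    [⟨1, 0, 0, 1, 0, 0, 0, 0, 0, 1424⟩, ⟨0, 1, 1, 0, 0, 0, 0, 0, 1544, 0⟩, ⟨0, 0, 0, 0, 1, 0, 0, 1, 0, 1212⟩, ⟨0, 0, 0, 1, 1, 0, 0, 1, 0, 1661⟩]⟩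
def p223e : Wd :=
  ⟨1633, 1753, 449, 569, 1773, 1893, 2984, 3104,
    [⟨1, 0, 0, 1, 0, 0, 0, 0, 0, 756⟩, ⟨0, 1, 1, 0, 0, 0, 0, 0, 876, 0⟩, ⟨0, 0, 0, 0, 1, 0, 0, 1, 0, 1151⟩, ⟨0, 0, 0, 1, 1, 0, 0, 1, 0, 1600⟩]⟩
def o22Z : Wd :=
  ⟨963, 1097, 513, 735, 1731, 1886, 2969, 3128,
    [⟨1, 0, 0, 1, 0, 0, 0, 0, 0, 1478⟩, ⟨0, 1, 1, 0, 0, 0, 0, 0, 1702, 0⟩, ⟨0, 0, 0, 0, 1, 0, 0, 1, 0, 1160⟩, ⟨0, 0, 0, 1, 1, 0, 0, 1, 0, 1673⟩]⟩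
def p22Z : Wd :=
  ⟨1843, 2290, 513, 735, 1892, 2291, 2969, 3128,
    [⟨1, 0, 0, 1, 0, 0, 0, 0, 0, 386⟩, ⟨0, 1, 1, 0, 0, 0, 0, 0, 739, 0⟩, ⟨0, 0, 0, 0, 1, 0, 0, 1, 0, 758⟩, ⟨0, 0, 0, 1, 1, 0, 0, 1, 0, 1271⟩]⟩
def o22Zs : Wd :=
  ⟨974, 1130, 561, 735, 1742, 1886, 2882, 3109,
    [⟨1, 0, 0, 1, 0, 0, 0, 0, 0, 1495⟩, ⟨0, 1, 1, 0, 0, 0, 0, 0, 1702, 0⟩, ⟨0, 0, 0, 0, 1, 0, 0, 1, 0, 1064⟩, ⟨0, 0, 0, 1, 1, 0, 0, 1, 0, 1625⟩]⟩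
def p22Zs : Wd :=
  ⟨2160, 2500, 561, 735, 1774, 2291, 2882, 3109,
    [⟨1, 0, 0, 1, 0, 0, 0, 0, 0, 168⟩, ⟨0, 1, 1, 0, 0, 0, 0, 0, 506, 0⟩, ⟨0, 0, 0, 0, 1, 0, 0, 1, 0, 758⟩, ⟨0, 0, 0, 1, 1, 0, 0, 1, 0, 1319⟩]⟩
def o5b2x : Wd :=
  ⟨802, 1196, 289, 543, 2558, 2563, 3371, 3643,
    [⟨1, 0, 0, 1, 0, 0, 0, 0, 0, 1218⟩, ⟨0, 1, 1, 0, 0, 0, 0, 0, 1596, 0⟩, ⟨0, 0, 0, 0, 1, 0, 0, 1, 0, 539⟩, ⟨0, 0, 0, 1, 1, 0, 0, 1, 0, 828⟩, ⟨1, 0, 0, 1, 1, 0, 0, 0, 1520, 0⟩]⟩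
def o5b2ex : Wd :=
  ⟨807, 1179, 240, 442, 2534, 2563, 3373, 3600,
    [⟨1, 0, 0, 1, 0, 0, 0, 0, 0, 1163⟩, ⟨0, 1, 1, 0, 0, 0, 0, 0, 1514, 0⟩, ⟨0, 0, 0, 0, 1, 0, 0, 1, 0, 576⟩, ⟨0, 0, 0, 1, 1, 0, 0, 1, 0, 797⟩, ⟨1, 0, 0, 1, 1, 0, 0, 0, 1530, 0⟩]⟩
def o5b3ex : Wd :=
  ⟨830, 1203, 286, 510, 2552, 2563, 3338, 3566,
    [⟨1, 0, 0, 1, 0, 0, 0, 0, 0, 1206⟩, ⟨0, 1, 1, 0, 0, 0, 0, 0, 1556, 0⟩, ⟨0, 0, 0, 0, 1, 0, 0, 1, 0, 521⟩, ⟨0, 0, 0, 1, 1, 0, 0, 1, 0, 807⟩, ⟨1, 0, 0, 1, 1, 0, 0, 0, 1520, 0⟩]⟩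
def o6b2x : Wd :=
  ⟨709, 1136, 175, 450, 2536, 2563, 3539, 3834,
    [⟨1, 0, 0, 1, 0, 0, 0, 0, 0, 1174⟩, ⟨0, 1, 1, 0, 0, 0, 0, 0, 1590, 0⟩, ⟨0, 0, 0, 0, 1, 0, 0, 1, 0, 715⟩, ⟨0, 0, 0, 1, 1, 0, 0, 1, 0, 890⟩]⟩
def o6b2ex : Wd :=
  ⟨710, 1123, 120, 376, 2516, 2563, 3546, 3806,
    [⟨1, 0, 0, 1, 0, 0, 0, 0, 0, 1132⟩, ⟨0, 1, 1, 0, 0, 0, 0, 0, 1530, 0⟩, ⟨0, 0, 0, 0, 1, 0, 0, 1, 0, 742⟩, ⟨0, 0, 0, 1, 1, 0, 0, 1, 0, 862⟩]⟩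
def o6b3x : Wd :=
  ⟨722, 1143, 192, 460, 2536, 2563, 3521, 3798,
    [⟨1, 0, 0, 1, 0, 0, 0, 0, 0, 1192⟩, ⟨0, 1, 1, 0, 0, 0, 0, 0, 1594, 0⟩, ⟨0, 0, 0, 0, 1, 0, 0, 1, 0, 700⟩, ⟨0, 0, 0, 1, 1, 0, 0, 1, 0, 892⟩]⟩
def o6b3ex : Wd :=
  ⟨726, 1140, 168, 425, 2527, 2563, 3515, 3777,
    [⟨1, 0, 0, 1, 0, 0, 0, 0, 0, 1165⟩, ⟨0, 1, 1, 0, 0, 0, 0, 0, 1562, 0⟩, ⟨0, 0, 0, 0, 1, 0, 0, 1, 0, 700⟩, ⟨0, 0, 0, 1, 1, 0, 0, 1, 0, 868⟩]⟩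
def o6bZx : Wd :=
  ⟨729, 1155, 200, 505, 2535, 2563, 3501, 3782,
    [⟨1, 0, 0, 1, 0, 0, 0, 0, 0, 1186⟩, ⟨0, 1, 1, 0, 0, 0, 0, 0, 1628, 0⟩, ⟨0, 0, 0, 0, 1, 0, 0, 1, 0, 664⟩, ⟨0, 0, 0, 1, 1, 0, 0, 1, 0, 864⟩]⟩
def o6bZsx : Wd :=
  ⟨740, 1169, 218, 505, 2542, 2563, 3456, 3767,
    [⟨1, 0, 0, 1, 0, 0, 0, 0, 0, 1191⟩, ⟨0, 1, 1, 0, 0, 0, 0, 0, 1628, 0⟩, ⟨0, 0, 0, 0, 1, 0, 0, 1, 0, 633⟩, ⟨0, 0, 0, 1, 1, 0, 0, 1, 0, 851⟩]⟩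
def o7a2 : Wd :=
  ⟨760, 1360, 135, 394, 2205, 2760, 3670, 3935,
    [⟨1, 0, 0, 1, 0, 0, 0, 0, 0, 800⟩, ⟨0, 1, 1, 0, 0, 0, 0, 0, 1640, 0⟩, ⟨0, 0, 0, 0, 1, 0, 0, 1, 0, 930⟩, ⟨0, 0, 0, 1, 1, 0, 0, 1, 0, 1034⟩]⟩
def p7a2 : Wd :=
  ⟨1140, 1625, 135, 394, 1985, 2510, 3670, 3935,
    [⟨1, 0, 0, 1, 0, 0, 0, 0, 0, 560⟩, ⟨0, 1, 1, 0, 0, 0, 0, 0, 1254, 0⟩, ⟨0, 0, 0, 0, 1, 0, 0, 1, 0, 1190⟩, ⟨0, 0, 0, 1, 1, 0, 0, 1, 0, 1325⟩]⟩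
def o7a2e : Wd :=
  ⟨760, 1360, 104, 308, 2205, 2760, 3703, 3911,
    [⟨1, 0, 0, 1, 0, 0, 0, 0, 0, 800⟩, ⟨0, 1, 1, 0, 0, 0, 0, 0, 1640, 0⟩, ⟨0, 0, 0, 0, 1, 0, 0, 1, 0, 930⟩, ⟨0, 0, 0, 1, 1, 0, 0, 1, 0, 1034⟩]⟩
def p7a2e : Wd :=
  ⟨780, 870, 104, 308, 1705, 1795, 3703, 3911,
    [⟨1, 0, 0, 1, 0, 0, 0, 0, 0, 1245⟩, ⟨0, 1, 1, 0, 0, 0, 0, 0, 1528, 0⟩, ⟨0, 0, 0, 0, 1, 0, 0, 1, 0, 1920⟩, ⟨0, 0, 0, 1, 1, 0, 0, 1, 0, 2024⟩]⟩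
def o7a3 : Wd :=
  ⟨760, 1360, 156, 391, 2205, 2760, 3656, 3888,
    [⟨1, 0, 0, 1, 0, 0, 0, 0, 0, 800⟩, ⟨0, 1, 1, 0, 0, 0, 0, 0, 1640, 0⟩, ⟨0, 0, 0, 0, 1, 0, 0, 1, 0, 930⟩, ⟨0, 0, 0, 1, 1, 0, 0, 1, 0, 1034⟩]⟩
def p7a3 : Wd :=
  ⟨1515, 1815, 156, 391, 2030, 2300, 3656, 3888,
    [⟨1, 0, 0, 1, 0, 0, 0, 0, 0, 385⟩, ⟨0, 1, 1, 0, 0, 0, 0, 0, 876, 0⟩, ⟨0, 0, 0, 0, 1, 0, 0, 1, 0, 1385⟩, ⟨0, 0, 0, 1, 1, 0, 0, 1, 0, 1541⟩]⟩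
def o7a3e : Wd :=
  ⟨760, 1360, 142, 345, 2205, 2760, 3668, 3867,
    [⟨1, 0, 0, 1, 0, 0, 0, 0, 0, 800⟩, ⟨0, 1, 1, 0, 0, 0, 0, 0, 1640, 0⟩, ⟨0, 0, 0, 0, 1, 0, 0, 1, 0, 930⟩, ⟨0, 0, 0, 1, 1, 0, 0, 1, 0, 1034⟩]⟩
def p7a3e : Wd :=
  ⟨1490, 1575, 142, 345, 1840, 1925, 3668, 3867,
    [⟨1, 0, 0, 1, 0, 0, 0, 0, 0, 585⟩, ⟨0, 1, 1, 0, 0, 0, 0, 0, 855, 0⟩, ⟨0, 0, 0, 0, 1, 0, 0, 1, 0, 1760⟩, ⟨0, 0, 0, 1, 1, 0, 0, 1, 0, 1902⟩]⟩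
def o7aZ : Wd :=
  ⟨760, 1360, 104, 400, 2205, 2760, 3590, 3968,
    [⟨1, 0, 0, 1, 0, 0, 0, 0, 0, 800⟩, ⟨0, 1, 1, 0, 0, 0, 0, 0, 1640, 0⟩, ⟨0, 0, 0, 0, 1, 0, 0, 1, 0, 930⟩, ⟨0, 0, 0, 1, 1, 0, 0, 1, 0, 1034⟩]⟩
def p7aZ : Wd :=
  ⟨1615, 2385, 104, 400, 1820, 2520, 3590, 3968,
    [⟨1, 0, 0, 1, 0, 0, 0, 0, 281, 0⟩, ⟨0, 1, 1, 0, 0, 0, 0, 0, 785, 0⟩, ⟨0, 0, 0, 0, 1, 0, 0, 1, 0, 1070⟩, ⟨0, 0, 0, 1, 1, 0, 0, 1, 0, 1070⟩]⟩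
def o7aZs : Wd :=
  ⟨760, 1360, 104, 400, 2205, 2760, 3590, 3968,
    [⟨1, 0, 0, 1, 0, 0, 0, 0, 0, 800⟩, ⟨0, 1, 1, 0, 0, 0, 0, 0, 1640, 0⟩, ⟨0, 0, 0, 0, 1, 0, 0, 1, 0, 930⟩, ⟨0, 0, 0, 1, 1, 0, 0, 1, 0, 1034⟩]⟩
def p7aZs : Wd :=
  ⟨1990, 2465, 104, 400, 1700, 2520, 3590, 3968,
    [⟨1, 0, 0, 1, 0, 0, 0, 0, 361, 0⟩, ⟨0, 1, 1, 0, 0, 0, 0, 0, 410, 0⟩, ⟨0, 0, 0, 0, 1, 0, 0, 1, 0, 1070⟩, ⟨0, 0, 0, 1, 1, 0, 0, 1, 0, 1070⟩]⟩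
def o7b2 : Wd :=
  ⟨690, 1050, 135, 379, 2560, 2930, 3670, 3935,
    [⟨1, 0, 0, 1, 0, 0, 0, 0, 0, 1120⟩, ⟨0, 1, 1, 0, 0, 0, 0, 0, 1689, 0⟩, ⟨0, 0, 0, 0, 1, 0, 0, 1, 0, 790⟩, ⟨0, 0, 0, 1, 1, 0, 0, 1, 0, 917⟩]⟩
def p7b2 : Wd :=
  ⟨1140, 1625, 135, 379, 1985, 2510, 3670, 3935,
    [⟨1, 0, 0, 1, 0, 0, 0, 0, 0, 560⟩, ⟨0, 1, 1, 0, 0, 0, 0, 0, 1254, 0⟩, ⟨0, 0, 0, 0, 1, 0, 0, 1, 0, 1190⟩, ⟨0, 0, 0, 1, 1, 0, 0, 1, 0, 1325⟩]⟩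
def o7b2e : Wd :=
  ⟨690, 1050, 127, 308, 2560, 2930, 3703, 3911,
    [⟨1, 0, 0, 1, 0, 0, 0, 0, 0, 1120⟩, ⟨0, 1, 1, 0, 0, 0, 0, 0, 1689, 0⟩, ⟨0, 0, 0, 0, 1, 0, 0, 1, 0, 790⟩, ⟨0, 0, 0, 1, 1, 0, 0, 1, 0, 917⟩]⟩
def p7b2e : Wd :=
  ⟨780, 870, 127, 308, 1705, 1795, 3703, 3911,
    [⟨1, 0, 0, 1, 0, 0, 0, 0, 0, 1245⟩, ⟨0, 1, 1, 0, 0, 0, 0, 0, 1528, 0⟩, ⟨0, 0, 0, 0, 1, 0, 0, 1, 0, 1920⟩, ⟨0, 0, 0, 1, 1, 0, 0, 1, 0, 2024⟩]⟩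
def o7b3 : Wd :=
  ⟨690, 1050, 156, 379, 2560, 2930, 3656, 3888,
    [⟨1, 0, 0, 1, 0, 0, 0, 0, 0, 1120⟩, ⟨0, 1, 1, 0, 0, 0, 0, 0, 1689, 0⟩, ⟨0, 0, 0, 0, 1, 0, 0, 1, 0, 790⟩, ⟨0, 0, 0, 1, 1, 0, 0, 1, 0, 917⟩]⟩
def p7b3 : Wd :=
  ⟨1515, 1815, 156, 379, 2030, 2300, 3656, 3888,
    [⟨1, 0, 0, 1, 0, 0, 0, 0, 0, 385⟩, ⟨0, 1, 1, 0, 0, 0, 0, 0, 876, 0⟩, ⟨0, 0, 0, 0, 1, 0, 0, 1, 0, 1385⟩, ⟨0, 0, 0, 1, 1, 0, 0, 1, 0, 1541⟩]⟩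
def o7b3e : Wd :=
  ⟨690, 1050, 142, 345, 2560, 2930, 3668, 3867,
    [⟨1, 0, 0, 1, 0, 0, 0, 0, 0, 1120⟩, ⟨0, 1, 1, 0, 0, 0, 0, 0, 1689, 0⟩, ⟨0, 0, 0, 0, 1, 0, 0, 1, 0, 790⟩, ⟨0, 0, 0, 1, 1, 0, 0, 1, 0, 917⟩]⟩
def p7b3e : Wd :=
  ⟨1490, 1575, 142, 345, 1840, 1925, 3668, 3867,
    [⟨1, 0, 0, 1, 0, 0, 0, 0, 0, 585⟩, ⟨0, 1, 1, 0, 0, 0, 0, 0, 855, 0⟩, ⟨0, 0, 0, 0, 1, 0, 0, 1, 0, 1760⟩, ⟨0, 0, 0, 1, 1, 0, 0, 1, 0, 1902⟩]⟩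
def o7bZ : Wd :=
  ⟨690, 1050, 127, 379, 2560, 2930, 3652, 3949,
    [⟨1, 0, 0, 1, 0, 0, 0, 0, 0, 1120⟩, ⟨0, 1, 1, 0, 0, 0, 0, 0, 1689, 0⟩, ⟨0, 0, 0, 0, 1, 0, 0, 1, 0, 790⟩, ⟨0, 0, 0, 1, 1, 0, 0, 1, 0, 917⟩]⟩
def p7bZ : Wd :=
  ⟨1615, 2385, 127, 379, 1820, 2520, 3652, 3949,
    [⟨1, 0, 0, 1, 0, 0, 0, 0, 258, 0⟩, ⟨0, 1, 1, 0, 0, 0, 0, 0, 764, 0⟩, ⟨0, 0, 0, 0, 1, 0, 0, 1, 0, 1132⟩, ⟨0, 0, 0, 1, 1, 0, 0, 1, 0, 1132⟩]⟩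
def o7bZs : Wd :=
  ⟨690, 1050, 127, 379, 2560, 2930, 3652, 3949,
    [⟨1, 0, 0, 1, 0, 0, 0, 0, 0, 1120⟩, ⟨0, 1, 1, 0, 0, 0, 0, 0, 1689, 0⟩, ⟨0, 0, 0, 0, 1, 0, 0, 1, 0, 790⟩, ⟨0, 0, 0, 1, 1, 0, 0, 1, 0, 917⟩]⟩
def p7bZs : Wd :=
  ⟨1990, 2465, 127, 379, 1700, 2520, 3652, 3949,
    [⟨1, 0, 0, 1, 0, 0, 0, 0, 338, 0⟩, ⟨0, 1, 1, 0, 0, 0, 0, 0, 389, 0⟩, ⟨0, 0, 0, 0, 1, 0, 0, 1, 0, 1132⟩, ⟨0, 0, 0, 1, 1, 0, 0, 1, 0, 1132⟩]⟩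
def o7c2 : Wd :=
  ⟨550, 680, 135, 338, 2425, 2545, 3670, 3930,
    [⟨1, 0, 0, 1, 0, 0, 0, 0, 0, 1450⟩, ⟨0, 1, 1, 0, 0, 0, 0, 0, 1788, 0⟩, ⟨0, 0, 0, 0, 1, 0, 0, 1, 0, 1130⟩, ⟨0, 0, 0, 1, 1, 0, 0, 1, 0, 1245⟩]⟩
def o7c2e : Wd :=
  ⟨550, 680, 115, 308, 2425, 2545, 3703, 3911,
    [⟨1, 0, 0, 1, 0, 0, 0, 0, 0, 1450⟩, ⟨0, 1, 1, 0, 0, 0, 0, 0, 1788, 0⟩, ⟨0, 0, 0, 0, 1, 0, 0, 1, 0, 1130⟩, ⟨0, 0, 0, 1, 1, 0, 0, 1, 0, 1245⟩]⟩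
def o7c3 : Wd :=
  ⟨550, 680, 156, 338, 2425, 2545, 3663, 3888,
    [⟨1, 0, 0, 1, 0, 0, 0, 0, 0, 1450⟩, ⟨0, 1, 1, 0, 0, 0, 0, 0, 1788, 0⟩, ⟨0, 0, 0, 0, 1, 0, 0, 1, 0, 1130⟩, ⟨0, 0, 0, 1, 1, 0, 0, 1, 0, 1245⟩]⟩
def o7c3e : Wd :=
  ⟨550, 680, 142, 338, 2425, 2545, 3668, 3867,
    [⟨1, 0, 0, 1, 0, 0, 0, 0, 0, 1450⟩, ⟨0, 1, 1, 0, 0, 0, 0, 0, 1788, 0⟩, ⟨0, 0, 0, 0, 1, 0, 0, 1, 0, 1130⟩, ⟨0, 0, 0, 1, 1, 0, 0, 1, 0, 1245⟩]⟩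
def o7cZ : Wd :=
  ⟨550, 680, 115, 338, 2425, 2545, 3663, 3930,
    [⟨1, 0, 0, 1, 0, 0, 0, 0, 0, 1450⟩, ⟨0, 1, 1, 0, 0, 0, 0, 0, 1788, 0⟩, ⟨0, 0, 0, 0, 1, 0, 0, 1, 0, 1130⟩, ⟨0, 0, 0, 1, 1, 0, 0, 1, 0, 1245⟩]⟩
def o7cZs : Wd :=
  ⟨550, 680, 115, 338, 2425, 2545, 3663, 3930,
    [⟨1, 0, 0, 1, 0, 0, 0, 0, 0, 1450⟩, ⟨0, 1, 1, 0, 0, 0, 0, 0, 1788, 0⟩, ⟨0, 0, 0, 0, 1, 0, 0, 1, 0, 1130⟩, ⟨0, 0, 0, 1, 1, 0, 0, 1, 0, 1245⟩]⟩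
def o8a2 : Wd :=
  ⟨650, 1315, 0, 355, 2185, 2770, 3750, 5000,
    [⟨1, 0, 0, 1, 0, 0, 0, 0, 0, 685⟩, ⟨0, 1, 1, 0, 0, 0, 0, 0, 1710, 0⟩, ⟨0, 0, 0, 0, 1, 0, 0, 1, 0, 1040⟩, ⟨0, 0, 0, 1, 1, 0, 0, 1, 0, 1040⟩]⟩
def o8a2e : Wd :=
  ⟨650, 1315, 0, 277, 2185, 2770, 3750, 5000,
    [⟨1, 0, 0, 1, 0, 0, 0, 0, 0, 685⟩, ⟨0, 1, 1, 0, 0, 0, 0, 0, 1710, 0⟩, ⟨0, 0, 0, 0, 1, 0, 0, 1, 0, 1040⟩, ⟨0, 0, 0, 1, 1, 0, 0, 1, 0, 1040⟩]⟩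
def o8a3 : Wd :=
  ⟨650, 1315, 0, 352, 2185, 2770, 3750, 5000,
    [⟨1, 0, 0, 1, 0, 0, 0, 0, 0, 685⟩, ⟨0, 1, 1, 0, 0, 0, 0, 0, 1710, 0⟩, ⟨0, 0, 0, 0, 1, 0, 0, 1, 0, 1040⟩, ⟨0, 0, 0, 1, 1, 0, 0, 1, 0, 1040⟩]⟩
def o8a3e : Wd :=
  ⟨650, 1315, 0, 312, 2185, 2770, 3750, 5000,
    [⟨1, 0, 0, 1, 0, 0, 0, 0, 0, 685⟩, ⟨0, 1, 1, 0, 0, 0, 0, 0, 1710, 0⟩, ⟨0, 0, 0, 0, 1, 0, 0, 1, 0, 1040⟩, ⟨0, 0, 0, 1, 1, 0, 0, 1, 0, 1040⟩]⟩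
def o8aZ : Wd :=
  ⟨650, 1315, 0, 360, 2185, 2770, 3709, 5000,
    [⟨1, 0, 0, 1, 0, 0, 0, 0, 0, 685⟩, ⟨0, 1, 1, 0, 0, 0, 0, 0, 1710, 0⟩, ⟨0, 0, 0, 0, 1, 0, 0, 1, 0, 1040⟩, ⟨0, 0, 0, 1, 1, 0, 0, 1, 0, 1040⟩]⟩
def p8aZ : Wd :=
  ⟨1615, 2385, 0, 360, 1820, 2520, 3709, 5000,
    [⟨1, 0, 0, 1, 0, 0, 0, 0, 385, 0⟩, ⟨0, 1, 1, 0, 0, 0, 0, 0, 745, 0⟩, ⟨0, 0, 0, 0, 1, 0, 0, 1, 0, 1189⟩, ⟨0, 0, 0, 1, 1, 0, 0, 1, 0, 1189⟩]⟩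
def o8aZs : Wd :=
  ⟨650, 1315, 0, 360, 2185, 2770, 3709, 5000,
    [⟨1, 0, 0, 1, 0, 0, 0, 0, 0, 685⟩, ⟨0, 1, 1, 0, 0, 0, 0, 0, 1710, 0⟩, ⟨0, 0, 0, 0, 1, 0, 0, 1, 0, 1040⟩, ⟨0, 0, 0, 1, 1, 0, 0, 1, 0, 1040⟩]⟩
def p8aZs : Wd :=
  ⟨1990, 2465, 0, 360, 1700, 2520, 3709, 5000,
    [⟨1, 0, 0, 1, 0, 0, 0, 0, 465, 0⟩, ⟨0, 1, 1, 0, 0, 0, 0, 0, 370, 0⟩, ⟨0, 0, 0, 0, 1, 0, 0, 1, 0, 1189⟩, ⟨0, 0, 0, 1, 1, 0, 0, 1, 0, 1189⟩]⟩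
def o8b2 : Wd :=
  ⟨550, 1000, 0, 346, 2545, 2925, 3799, 5000,
    [⟨1, 0, 0, 1, 0, 0, 0, 0, 0, 1000⟩, ⟨0, 1, 1, 0, 0, 0, 0, 0, 1796, 0⟩, ⟨0, 0, 0, 0, 1, 0, 0, 1, 0, 920⟩, ⟨0, 0, 0, 1, 1, 0, 0, 1, 0, 920⟩]⟩
def p8b2 : Wd :=
  ⟨1050, 1600, 0, 346, 1975, 2525, 3799, 5000,
    [⟨1, 0, 0, 1, 0, 0, 0, 0, 0, 400⟩, ⟨0, 1, 1, 0, 0, 0, 0, 0, 1305, 0⟩, ⟨0, 0, 0, 0, 1, 0, 0, 1, 0, 1230⟩, ⟨0, 0, 0, 1, 1, 0, 0, 1, 0, 1230⟩]⟩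
def o8b2e : Wd :=
  ⟨550, 1000, 0, 277, 2545, 2925, 3799, 5000,
    [⟨1, 0, 0, 1, 0, 0, 0, 0, 0, 1000⟩, ⟨0, 1, 1, 0, 0, 0, 0, 0, 1796, 0⟩, ⟨0, 0, 0, 0, 1, 0, 0, 1, 0, 920⟩, ⟨0, 0, 0, 1, 1, 0, 0, 1, 0, 920⟩]⟩
def p8b2e : Wd :=
  ⟨700, 855, 0, 277, 1695, 1795, 3799, 5000,
    [⟨1, 0, 0, 1, 0, 0, 0, 0, 0, 1145⟩, ⟨0, 1, 1, 0, 0, 0, 0, 0, 1577, 0⟩, ⟨0, 0, 0, 0, 1, 0, 0, 1, 0, 1970⟩, ⟨0, 0, 0, 1, 1, 0, 0, 1, 0, 1970⟩]⟩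
def o8b3 : Wd :=
  ⟨550, 1000, 0, 346, 2545, 2925, 3799, 5000,
    [⟨1, 0, 0, 1, 0, 0, 0, 0, 0, 1000⟩, ⟨0, 1, 1, 0, 0, 0, 0, 0, 1796, 0⟩, ⟨0, 0, 0, 0, 1, 0, 0, 1, 0, 920⟩, ⟨0, 0, 0, 1, 1, 0, 0, 1, 0, 920⟩]⟩
def p8b3 : Wd :=
  ⟨1445, 1795, 0, 346, 2025, 2335, 3799, 5000,
    [⟨1, 0, 0, 1, 0, 0, 0, 0, 0, 205⟩, ⟨0, 1, 1, 0, 0, 0, 0, 0, 907, 0⟩, ⟨0, 0, 0, 0, 1, 0, 0, 1, 0, 1440⟩, ⟨0, 0, 0, 1, 1, 0, 0, 1, 0, 1440⟩]⟩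
def o8b3e : Wd :=
  ⟨550, 1000, 0, 312, 2545, 2925, 3799, 5000,
    [⟨1, 0, 0, 1, 0, 0, 0, 0, 0, 1000⟩, ⟨0, 1, 1, 0, 0, 0, 0, 0, 1796, 0⟩, ⟨0, 0, 0, 0, 1, 0, 0, 1, 0, 920⟩, ⟨0, 0, 0, 1, 1, 0, 0, 1, 0, 920⟩]⟩
def p8b3e : Wd :=
  ⟨1430, 1560, 0, 312, 1835, 1945, 3799, 5000,
    [⟨1, 0, 0, 1, 0, 0, 0, 0, 0, 440⟩, ⟨0, 1, 1, 0, 0, 0, 0, 0, 882, 0⟩, ⟨0, 0, 0, 0, 1, 0, 0, 1, 0, 1840⟩, ⟨0, 0, 0, 1, 1, 0, 0, 1, 0, 1840⟩]⟩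
def o8bZ : Wd :=
  ⟨550, 1000, 0, 346, 2545, 2925, 3799, 5000,
    [⟨1, 0, 0, 1, 0, 0, 0, 0, 0, 1000⟩, ⟨0, 1, 1, 0, 0, 0, 0, 0, 1796, 0⟩, ⟨0, 0, 0, 0, 1, 0, 0, 1, 0, 920⟩, ⟨0, 0, 0, 1, 1, 0, 0, 1, 0, 920⟩]⟩
def p8bZ : Wd :=
  ⟨1615, 2385, 0, 346, 1820, 2520, 3799, 5000,
    [⟨1, 0, 0, 1, 0, 0, 0, 0, 385, 0⟩, ⟨0, 1, 1, 0, 0, 0, 0, 0, 731, 0⟩, ⟨0, 0, 0, 0, 1, 0, 0, 1, 0, 1279⟩, ⟨0, 0, 0, 1, 1, 0, 0, 1, 0, 1279⟩]⟩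
def o8bZs : Wd :=
  ⟨550, 1000, 0, 346, 2545, 2925, 3799, 5000,
    [⟨1, 0, 0, 1, 0, 0, 0, 0, 0, 1000⟩, ⟨0, 1, 1, 0, 0, 0, 0, 0, 1796, 0⟩, ⟨0, 0, 0, 0, 1, 0, 0, 1, 0, 920⟩, ⟨0, 0, 0, 1, 1, 0, 0, 1, 0, 920⟩]⟩
def p8bZs : Wd :=
  ⟨1990, 2465, 0, 346, 1700, 2520, 3799, 5000,
    [⟨1, 0, 0, 1, 0, 0, 0, 0, 465, 0⟩, ⟨0, 1, 1, 0, 0, 0, 0, 0, 356, 0⟩, ⟨0, 0, 0, 0, 1, 0, 0, 1, 0, 1279⟩, ⟨0, 0, 0, 1, 1, 0, 0, 1, 0, 1279⟩]⟩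
def o8c2 : Wd :=
  ⟨425, 635, 0, 310, 2410, 2550, 3809, 5000,
    [⟨1, 0, 0, 1, 0, 0, 0, 0, 0, 1365⟩, ⟨0, 1, 1, 0, 0, 0, 0, 0, 1885, 0⟩, ⟨0, 0, 0, 0, 1, 0, 0, 1, 0, 1275⟩, ⟨0, 0, 0, 1, 1, 0, 0, 1, 0, 1275⟩]⟩
def o8c2e : Wd :=
  ⟨425, 635, 0, 277, 2410, 2550, 3809, 5000,
    [⟨1, 0, 0, 1, 0, 0, 0, 0, 0, 1365⟩, ⟨0, 1, 1, 0, 0, 0, 0, 0, 1885, 0⟩, ⟨0, 0, 0, 0, 1, 0, 0, 1, 0, 1275⟩, ⟨0, 0, 0, 1, 1, 0, 0, 1, 0, 1275⟩]⟩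
def o8c3 : Wd :=
  ⟨425, 635, 0, 310, 2410, 2550, 3809, 5000,
    [⟨1, 0, 0, 1, 0, 0, 0, 0, 0, 1365⟩, ⟨0, 1, 1, 0, 0, 0, 0, 0, 1885, 0⟩, ⟨0, 0, 0, 0, 1, 0, 0, 1, 0, 1275⟩, ⟨0, 0, 0, 1, 1, 0, 0, 1, 0, 1275⟩]⟩
def o8c3e : Wd :=
  ⟨425, 635, 0, 310, 2410, 2550, 3809, 5000,
    [⟨1, 0, 0, 1, 0, 0, 0, 0, 0, 1365⟩, ⟨0, 1, 1, 0, 0, 0, 0, 0, 1885, 0⟩, ⟨0, 0, 0, 0, 1, 0, 0, 1, 0, 1275⟩, ⟨0, 0, 0, 1, 1, 0, 0, 1, 0, 1275⟩]⟩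
def o8cZ : Wd :=
  ⟨425, 635, 0, 310, 2410, 2550, 3809, 5000,
    [⟨1, 0, 0, 1, 0, 0, 0, 0, 0, 1365⟩, ⟨0, 1, 1, 0, 0, 0, 0, 0, 1885, 0⟩, ⟨0, 0, 0, 0, 1, 0, 0, 1, 0, 1275⟩, ⟨0, 0, 0, 1, 1, 0, 0, 1, 0, 1275⟩]⟩
def o8cZs : Wd :=
  ⟨425, 635, 0, 310, 2410, 2550, 3809, 5000,
    [⟨1, 0, 0, 1, 0, 0, 0, 0, 0, 1365⟩, ⟨0, 1, 1, 0, 0, 0, 0, 0, 1885, 0⟩, ⟨0, 0, 0, 0, 1, 0, 0, 1, 0, 1275⟩, ⟨0, 0, 0, 1, 1, 0, 0, 1, 0, 1275⟩]⟩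
def e5bx : Wd :=
  ⟨860, 1228, 141, 364, 2471, 2563, 3195, 3429,
    [⟨1, 0, 0, 1, 0, 0, 0, 0, 0, 1037⟩, ⟨0, 1, 1, 0, 0, 0, 0, 0, 1381, 0⟩, ⟨0, 0, 0, 0, 1, 0, 0, 1, 0, 470⟩, ⟨0, 0, 0, 1, 1, 0, 0, 1, 0, 611⟩]⟩
def e6bx : Wd :=
  ⟨741, 1151, 54, 311, 2475, 2563, 3417, 3682,
    [⟨1, 0, 0, 1, 0, 0, 0, 0, 0, 1040⟩, ⟨0, 1, 1, 0, 0, 0, 0, 0, 1434, 0⟩, ⟨0, 0, 0, 0, 1, 0, 0, 1, 0, 660⟩, ⟨0, 0, 0, 1, 1, 0, 0, 1, 0, 714⟩]⟩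
def e7a : Wd :=
  ⟨765, 1425, 1, 316, 2170, 2780, 3526, 3880,
    [⟨1, 0, 0, 1, 0, 0, 0, 0, 0, 731⟩, ⟨0, 1, 1, 0, 0, 0, 0, 0, 1369, 0⟩, ⟨0, 0, 0, 0, 1, 0, 0, 1, 0, 937⟩, ⟨0, 0, 0, 1, 1, 0, 0, 1, 0, 938⟩]⟩
def e7b : Wd :=
  ⟨678, 1091, 12, 264, 2494, 2920, 3600, 3859,
    [⟨1, 0, 0, 1, 0, 0, 0, 0, 0, 1054⟩, ⟨0, 1, 1, 0, 0, 0, 0, 0, 1454, 0⟩, ⟨0, 0, 0, 0, 1, 0, 0, 1, 0, 819⟩, ⟨0, 0, 0, 1, 1, 0, 0, 1, 0, 831⟩]⟩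
def e7c : Wd :=
  ⟨463, 783, 1, 272, 2291, 2611, 3561, 3881,
    [⟨1, 0, 0, 1, 0, 0, 0, 0, 0, 1329⟩, ⟨0, 1, 1, 0, 0, 0, 0, 0, 1649, 0⟩, ⟨0, 0, 0, 0, 1, 0, 0, 1, 0, 1110⟩, ⟨0, 0, 0, 1, 1, 0, 0, 1, 0, 1111⟩]⟩
def e8a : Wd :=
  ⟨650, 1315, 0, 172, 2185, 2770, 3750, 5000,
    [⟨1, 0, 0, 1, 0, 0, 0, 0, 0, 685⟩, ⟨0, 1, 1, 0, 0, 0, 0, 0, 1522, 0⟩, ⟨0, 0, 0, 0, 1, 0, 0, 1, 0, 1040⟩, ⟨0, 0, 0, 1, 1, 0, 0, 1, 0, 1040⟩]⟩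
def e8b : Wd :=
  ⟨550, 1000, 0, 165, 2545, 2925, 3835, 5000,
    [⟨1, 0, 0, 1, 0, 0, 0, 0, 0, 1000⟩, ⟨0, 1, 1, 0, 0, 0, 0, 0, 1615, 0⟩, ⟨0, 0, 0, 0, 1, 0, 0, 1, 0, 920⟩, ⟨0, 0, 0, 1, 1, 0, 0, 1, 0, 920⟩]⟩
def e8c : Wd :=
  ⟨425, 635, 0, 129, 2410, 2550, 3846, 5000,
    [⟨1, 0, 0, 1, 0, 0, 0, 0, 0, 1365⟩, ⟨0, 1, 1, 0, 0, 0, 0, 0, 1704, 0⟩, ⟨0, 0, 0, 0, 1, 0, 0, 1, 0, 1275⟩, ⟨0, 0, 0, 1, 1, 0, 0, 1, 0, 1275⟩]⟩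
def o5b1x : Wd :=
  ⟨775, 1176, 229, 517, 2549, 2563, 3417, 3702,
    [⟨1, 0, 0, 1, 0, 0, 0, 0, 0, 1197⟩, ⟨0, 1, 1, 0, 0, 0, 0, 0, 1592, 0⟩, ⟨0, 0, 0, 0, 1, 0, 0, 1, 0, 589⟩, ⟨0, 0, 0, 1, 1, 0, 0, 1, 0, 818⟩, ⟨1, 0, 0, 1, 1, 0, 0, 0, 1530, 0⟩]⟩
def o6b1x : Wd :=
  ⟨693, 1114, 130, 432, 2528, 2563, 3574, 3869,
    [⟨1, 0, 0, 1, 0, 0, 0, 0, 0, 1155⟩, ⟨0, 1, 1, 0, 0, 0, 0, 0, 1585, 0⟩, ⟨0, 0, 0, 0, 1, 0, 0, 1, 0, 761⟩, ⟨0, 0, 0, 1, 1, 0, 0, 1, 0, 891⟩]⟩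
def o7a1 : Wd :=
  ⟨760, 1360, 104, 400, 2205, 2760, 3590, 3968,
    [⟨1, 0, 0, 1, 0, 0, 0, 0, 0, 800⟩, ⟨0, 1, 1, 0, 0, 0, 0, 0, 1640, 0⟩, ⟨0, 0, 0, 0, 1, 0, 0, 1, 0, 930⟩, ⟨0, 0, 0, 1, 1, 0, 0, 1, 0, 1034⟩]⟩
def o7c1 : Wd :=
  ⟨550, 680, 115, 338, 2425, 2545, 3663, 3930,
    [⟨1, 0, 0, 1, 0, 0, 0, 0, 0, 1450⟩, ⟨0, 1, 1, 0, 0, 0, 0, 0, 1788, 0⟩, ⟨0, 0, 0, 0, 1, 0, 0, 1, 0, 1130⟩, ⟨0, 0, 0, 1, 1, 0, 0, 1, 0, 1245⟩]⟩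
def o7b1 : Wd :=
  ⟨690, 1050, 127, 379, 2560, 2930, 3652, 3949,
    [⟨1, 0, 0, 1, 0, 0, 0, 0, 0, 1120⟩, ⟨0, 1, 1, 0, 0, 0, 0, 0, 1689, 0⟩, ⟨0, 0, 0, 0, 1, 0, 0, 1, 0, 790⟩, ⟨0, 0, 0, 1, 1, 0, 0, 1, 0, 917⟩]⟩
def o8a1 : Wd :=
  ⟨650, 1315, 0, 360, 2185, 2770, 3709, 5000,
    [⟨1, 0, 0, 1, 0, 0, 0, 0, 0, 685⟩, ⟨0, 1, 1, 0, 0, 0, 0, 0, 1710, 0⟩, ⟨0, 0, 0, 0, 1, 0, 0, 1, 0, 1040⟩, ⟨0, 0, 0, 1, 1, 0, 0, 1, 0, 1040⟩]⟩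
def o8c1 : Wd :=
  ⟨425, 635, 0, 310, 2410, 2550, 3809, 5000,
    [⟨1, 0, 0, 1, 0, 0, 0, 0, 0, 1365⟩, ⟨0, 1, 1, 0, 0, 0, 0, 0, 1885, 0⟩, ⟨0, 0, 0, 0, 1, 0, 0, 1, 0, 1275⟩, ⟨0, 0, 0, 1, 1, 0, 0, 1, 0, 1275⟩]⟩
def o8b1 : Wd :=
  ⟨550, 1000, 0, 346, 2545, 2925, 3799, 5000,
    [⟨1, 0, 0, 1, 0, 0, 0, 0, 0, 1000⟩, ⟨0, 1, 1, 0, 0, 0, 0, 0, 1796, 0⟩, ⟨0, 0, 0, 0, 1, 0, 0, 1, 0, 920⟩, ⟨0, 0, 0, 1, 1, 0, 0, 1, 0, 920⟩]⟩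
def o42 : Wd :=
  ⟨990, 1150, 180, 320, 1590, 1750, 2740, 2900,
    [⟨1, 0, 0, 1, 0, 0, 0, 0, 0, 1110⟩, ⟨0, 1, 1, 0, 0, 0, 0, 0, 1270, 0⟩, ⟨0, 0, 0, 0, 1, 0, 0, 1, 0, 1070⟩, ⟨0, 0, 0, 1, 1, 0, 0, 1, 0, 1300⟩]⟩

end RC

end Pool.Agent.Work.MP_b30479_gtS.G2

end
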