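import Pool.Agent.Work.MP_b30479_gt.TBS.G2.RDz
import Pool.Agent.Work.MP_b30479_gt.TBS.G2.RCF
import Pool.Agent.Work.MP_b30479_gt.TBS.G2.RRT
import Pool.Agent.Work.MP_b30479_gt.TBS.G2.RLvl3

section

/-!
# Rings on the level part: the three kinds of hinges
-/

namespace Pool.Agent.Work.MP_b30479_gtS.G2

open Real Set VOL

namespace RC

namespace Row

open NumIs NumIs.E

theorem chsU2 : chk [wrp (ehs (q 3080 10000)), gtK 813 1000, neg (gtK 275 1000), neg (ltP 51 100),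
    neg cap] 16 [V.of 1000 256 510, V.of 1000 256 1430] = true := by decide +kernel

theorem chsU3 : chk [wrp (ehs (q 194 1000)), gtK 813 1000, neg (gtK 264 1000), neg (ltP 51 100),
    neg cap] 16 [V.of 1000 256 510, V.of 1000 256 1430] = true := by decide +kernel

theorem shq168 {t : ℝ} (ht : |t| ≤ 168 / 1000) : shq t ≤ 3080 / 10000 := by
  have := shq_lt_of (t := t) (n := 168) (d := 1000) (m := 3080) (e := 10000)
    (by push_cast; exact ht) (by decide +kernel)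
  push_cast at this
  exact this.le

theorem hsU2 {a B v : ℝ} (h1 : 256 / 1000 ≤ a) (h2 : a ≤ 510 / 1000) (h3 : 256 / 1000 ≤ B)
    (h4 : B ≤ 1430 / 1000) (k0 : 275 / 1000 * B ≤ a) (k1 : a ≤ 813 / 1000 * B)
    (hp' : a * B ≤ 51 / 100) (hv : 0 ≤ v)
    (hv1 : v ≤ 3080 / 10000) (hcos : kq a B ≤ 2 * (1 + a * B) ^ 2) : HS a B v := by
  refine HS_of hcos hv hv1 fun hc => ?_
  have h := pick5 (chk2 chsU2 (by norm_num) (x := a) (y := B) (by norm_num; linarith only [h1])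
    (by norm_num; linarith only [h2]) (by norm_num; linarith only [h1, k1]) (by norm_num; linarith only [h4]))
    (gtK_val (by push_cast; linarith only [k1])) (ngtK_val (by push_cast; linarith only [k0]))
    (gtP_val (by push_cast; linarith only [hp'])) (ncap_val hc)
  rw [ehs_val] at h
  unfold HS
  push_cast at h
  linarith only [h]

theorem hsU3 {a B v : ℝ} (h1 : 256 / 1000 ≤ a) (h2 : a ≤ 510 / 1000) (h3 : 256 / 1000 ≤ B)
    (h4 : B ≤ 1430 / 1000) (k0 : 264 / 1000 * B ≤ a) (k1 : a ≤ 813 / 1000 * B)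
    (hp' : a * B ≤ 51 / 100) (hv : 0 ≤ v)
    (hv1 : v ≤ 194 / 1000) (hcos : kq a B ≤ 2 * (1 + a * B) ^ 2) : HS a B v := by
  refine HS_of hcos hv hv1 fun hc => ?_
  have h := pick5 (chk2 chsU3 (by norm_num) (x := a) (y := B) (by norm_num; linarith only [h1])
    (by norm_num; linarith only [h2]) (by norm_num; linarith only [h1, k1]) (by norm_num; linarith only [h4]))
    (gtK_val (by push_cast; linarith only [k1])) (ngtK_val (by push_cast; linarith only [k0]))
    (gtP_val (by push_cast; linarith only [hp'])) (ncap_val hc)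
  rw [ehs_val] at h
  unfold HS
  push_cast at h
  linarith only [h]

end Row

open Row

section
variable {xs ys T ρ : ℝ}

/-- relations on the diagonal -/
theorem diag_rel {x y κ0 κ1 : ℝ} (hys : ys ∈ Ioo (0 : ℝ) 1) (hx : x ∈ Ioo (0 : ℝ) 1)
    (hy : y ∈ Ioo (0 : ℝ) 1) (e : ta x * ta ys = ta xs * ta y) (h0 : κ0 * ta ys ≤ ta xs)
    (h1 : ta xs ≤ κ1 * ta ys) : κ0 * ta y ≤ ta x ∧ ta x ≤ κ1 * ta y := by
  have hay := ta_pos hys
  have hy0 := ta_pos hy
  constructor
  · refine le_of_mul_le_mul_right (a := ta ys) ?_ hay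
    rw [e]
    have := mul_le_mul_of_nonneg_right h0 hy0.le
    linarith only [this]
  · refine le_of_mul_le_mul_right (a := ta ys) ?_ hay
    rw [e]
    have := mul_le_mul_of_nonneg_right h1 hy0.le
    linarith only [this]

theorem B_le {a B κ p c : ℝ} (hB : 0 < B) (hk : κ * B ≤ a) (hp : a * B ≤ p) (hc : 0 ≤ c)
    (h : p < κ * c ^ 2) (hκ : 0 < κ) : B ≤ c := by
  by_contra hcon
  push Not at hcon
  have h1 : κ * B * B ≤ a * B := mul_le_mul_of_nonneg_right hk hB.le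
  have h2 : c ^ 2 ≤ B ^ 2 := pow_le_pow_left₀ hc hcon.le 2
  nlinarith only [hp, h, h1, hκ, h2]

/-- next to a digit `1` -/
theorem DR_one (hxs : xs ∈ Ioo (0 : ℝ) 1) (hys : ys ∈ Ioo (0 : ℝ) 1) (hxc : 256 / 1000 ≤ ta xs)
    (k0 : 349 / 1000 * ta ys ≤ ta xs) (k1 : ta xs ≤ 94 / 100 * ta ys) (hT : T ≤ 0)
    (hT1 : -(158 / 1000) ≤ T) (hρ : 0 ≤ ρ) (hu : T + ρ ≤ 158 / 1000)
    (hv : ρ - T ≤ 200 / 1000) : DR xs ys T ρ (2567 / 10000) (55 / 100) (1063 / 10000) := by
  have ht : shq T ≤ 2678 / 10000 := shq158 (abs_le.2 ⟨hT1, by linarith only [hT]⟩)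
  have hu' : shq (T + ρ) ≤ 2678 / 10000 := shq158 (abs_le.2 ⟨by linarith only [hT1, hρ], hu⟩)
  have hv' : shq (T - ρ) ≤ 45 / 100 := shq200 (abs_le.2 ⟨by linarith only [hv], by linarith only [hT, hρ]⟩)
  have htv : shq T ≤ shq (T - ρ) := shq_mono (by
    rw [abs_of_nonpos hT, abs_of_nonpos (by linarith only [hT, hρ])]
    linarith only [hρ])
  constructor
  · intro x y hx hy h1 h2 e h3 h4
    obtain ⟨r0, r1⟩ := diag_rel hys hx hy e k0 k1
    have hax := ta_pos hx
    have hay := ta_pos hy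
    have hB : ta y ≤ 1376 / 1000 := B_le hay r0 h4 (by norm_num) (by norm_num) (by norm_num)
    have hB' : 256 / 1000 ≤ ta y := by linarith only [h1, r1, hax]
    have hlt : ta x < ta y := by nlinarith only [r1, hax]
    have hcos : kq (ta x) (ta y) ≤ 2 * (1 + ta x * ta y) ^ 2 := hcos_of hlt (by nlinarith only [h2, h3, r0])
    obtain ⟨w1, w2⟩ := rowA (by linarith only [h1, hax]) (by linarith only [h2]) hB' hB r0 r1 h3 h4
    exact ⟨hcos, WW_pos hx hy hlt hcos (by linarith only [h2, h4, hax]) ht htv hu' w1 w2⟩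
  · intro x y hx hy h1 h2 e h4
    obtain ⟨r0, r1⟩ := diag_rel hys hx hy e k0 k1
    have hax := ta_pos hx
    have hay := ta_pos hy
    have hB : ta y ≤ 1376 / 1000 := B_le hay r0 h4 (by norm_num) (by norm_num) (by norm_num)
    have hlt : ta x < ta y := by nlinarith only [r1, hax]
    have hcos : kq (ta x) (ta y) ≤ 2 * (1 + ta x * ta y) ^ 2 := hcos_of hlt (by nlinarith only [r0, hax, hB, hxc, h1, r1])
    exact hsU (by linarith only [hxc, h1]) (by linarith only [h2]) (by linarith only [hxc, h1, r1, hax]) (by linarith only [hB]) (by linarith only [r0, hax]) r1 h4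
      (shq_nonneg _) hv' hcos

/-- next to a digit `2` -/
theorem DR_two (hxs : xs ∈ Ioo (0 : ℝ) 1) (hys : ys ∈ Ioo (0 : ℝ) 1) (hxc : 256 / 1000 ≤ ta xs)
    (k1 : ta xs ≤ 8129 / 10000 * ta ys) (hT : T ≤ 0)
    (hT1 : -(131 / 1000) ≤ T) (hρ : 0 ≤ ρ) (hu : T + ρ ≤ 131 / 1000)
    (hv : (30 / 100 * ta ys ≤ ta xs ∧ ρ - T ≤ 200 / 1000) ∨
      (275 / 1000 * ta ys ≤ ta xs ∧ ρ - T ≤ 168 / 1000)) :
    DR xs ys T ρ (1989 / 10000) (51 / 100) (823 / 10000) := by
  have ht : shq T ≤ 1792 / 10000 := shq131 (abs_le.2 ⟨hT1, by linarith only [hT]⟩)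
  have hu' : shq (T + ρ) ≤ 1792 / 10000 := shq131 (abs_le.2 ⟨by linarith only [hT1, hρ], hu⟩)
  have k0 : 275 / 1000 * ta ys ≤ ta xs := by
    have := ta_pos hys
    rcases hv with h | h <;> linarith only [hxc, h, h.1]
  have htv : shq T ≤ shq (T - ρ) := shq_mono (by
    rw [abs_of_nonpos hT, abs_of_nonpos (by linarith only [hT, hρ])]
    linarith only [hρ])
  constructor
  · intro x y hx hy h1 h2 e h3 h4
    obtain ⟨r0, r1⟩ := diag_rel hys hx hy e k0 k1
    have hax := ta_pos hx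
    have hay := ta_pos hy
    have hB : ta y ≤ 1430 / 1000 := B_le hay r0 h4 (by norm_num) (by norm_num) (by norm_num)
    have hB' : 198 / 1000 ≤ ta y := by linarith only [h1, r1, hax]
    have hlt : ta x < ta y := by nlinarith only [r1, hax]
    have hcos : kq (ta x) (ta y) ≤ 2 * (1 + ta x * ta y) ^ 2 := hcos_of hlt (by nlinarith only [h2, h3, r0, hB])
    obtain ⟨w1, w2⟩ := rowB (by linarith only [h1, hax]) (by linarith only [h2]) hB' hB (by linarith only [r0, hax]) r1 h3 h4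
    exact ⟨hcos, WW_pos hx hy hlt hcos (by linarith only [h2, h4, hax]) ht htv hu' w1 w2⟩
  · intro x y hx hy h1 h2 e h4
    obtain ⟨r0, r1⟩ := diag_rel hys hx hy e k0 k1
    have hax := ta_pos hx
    have hay := ta_pos hy
    have hB : ta y ≤ 1430 / 1000 := B_le hay r0 h4 (by norm_num) (by norm_num) (by norm_num)
    have hlt : ta x < ta y := by nlinarith only [r1, hax]
    have hcos : kq (ta x) (ta y) ≤ 2 * (1 + ta x * ta y) ^ 2 := hcos_of hlt (by nlinarith only [r0, hax, hB, hxc, h1, r1])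
    rcases hv with ⟨k, hq⟩ | ⟨k, hq⟩
    · obtain ⟨r0', -⟩ := diag_rel hys hx hy e k k1
      exact hsU (by linarith only [hxc, h1]) (by linarith only [h2, hax]) (by linarith only [hxc, h1, r1, hax]) hB r0' (by linarith only [r1, hax]) (by linarith only [h4])
        (shq_nonneg _) (shq200 (abs_le.2 ⟨by linarith only [hq], by linarith only [hT, hρ]⟩)) hcos
    · exact hsU2 (by linarith only [hxc, h1]) (by linarith only [h2]) (by linarith only [hxc, h1, r1, hax]) hB r0 (by linarith only [r1, hax]) (by linarith only [h4])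
        (shq_nonneg _) (shq168 (abs_le.2 ⟨by linarith only [hq], by linarith only [hT, hρ]⟩)) hcos

/-- next to a digit `3` or a ring (height of both signs) -/
theorem DR_lo (hxs : xs ∈ Ioo (0 : ℝ) 1) (hys : ys ∈ Ioo (0 : ℝ) 1) (hxc : 256 / 1000 ≤ ta xs)
    (k0 : 264 / 1000 * ta ys ≤ ta xs) (k1 : ta xs ≤ 81 / 100 * ta ys) (hT : |T| ≤ 60 / 1000)
    (hu : |T + ρ| ≤ 1645 / 10000) (hv : |T - ρ| ≤ 136 / 1000) :
    DR xs ys T ρ (15838 / 100000) (51 / 100) (656 / 10000) := by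
  have ht : shq T ≤ 36 / 1000 := shq60 hT
  have hu' : shq (T + ρ) ≤ 2926 / 10000 := shq164 hu
  have hv' : shq (T - ρ) ≤ 194 / 1000 := by
    have := shq_lt_of (t := T - ρ) (n := 136) (d := 1000) (m := 194) (e := 1000)
      (by push_cast; exact hv) (by decide +kernel)
    push_cast at this
    exact this.le
  constructor
  · intro x y hx hy h1 h2 e h3 h4
    obtain ⟨r0, r1⟩ := diag_rel hys hx hy e k0 k1
    have hax := ta_pos hx
    have hay := ta_pos hy
    have hB : ta y ≤ 1430 / 1000 := B_le hay r0 h4 (by norm_num) (by norm_num) (by norm_num)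
    have hB' : 158 / 1000 ≤ ta y := by linarith only [h1, r1, hax]
    have hlt : ta x < ta y := by nlinarith only [r1, hax]
    have hcos : kq (ta x) (ta y) ≤ 2 * (1 + ta x * ta y) ^ 2 := hcos_of hlt (by nlinarith only [h2, h3, r0, hB])
    obtain ⟨w1, w2⟩ := rowC (by linarith only [h1, hax]) (by linarith only [h2]) hB' hB (by linarith only [r0, hax]) r1 h3 h4
    exact ⟨hcos, WW_pos0 hx hy hcos (by linarith only [h2, h4, hax]) (by linarith only [h2, hax]) ht hu' w1 w2⟩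
  · intro x y hx hy h1 h2 e h4
    obtain ⟨r0, r1⟩ := diag_rel hys hx hy e k0 k1
    have hax := ta_pos hx
    have hay := ta_pos hy
    have hB : ta y ≤ 1430 / 1000 := B_le hay r0 h4 (by norm_num) (by norm_num) (by norm_num)
    have hlt : ta x < ta y := by nlinarith only [r1, hax]
    have hcos : kq (ta x) (ta y) ≤ 2 * (1 + ta x * ta y) ^ 2 := hcos_of hlt (by nlinarith only [r0, hax, hB, hxc, h1, r1])
    exact hsU3 (by linarith only [hxc, h1]) (by linarith only [h2]) (by linarith only [hxc, h1, r1, hax]) hB r0 (by linarith only [r1, hax]) (by linarith only [h4])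
      (shq_nonneg _) hv' hcos

end

end RC

end Pool.Agent.Work.MP_b30479_gtS.G2

end

section

/-!
# Rings on the level part: the classes without exceptions
-/

set_option deprecated.oldSectionVars true

namespace Pool.Agent.Work.MP_b30479_gtS.G2

open Real Set VOL

namespace RC

namespace Row

open NumIs NumIs.E

theorem cH3 : chk (h2l 4465 1200 220 5900) 18 [V.of 10000 1700 2520, V.of 10000 0 2445] = true := by
  decide +kernel

theorem cH2 : chk (h2l 4495 1400 130 3980) 18 [V.of 10000 1860 2520, V.of 10000 0 2225] = true := by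
  decide +kernel

theorem cH2e : chk (h2l 3740 1680 105 3520) 18 [V.of 10000 1640 1860, V.of 10000 0 1885] = true := by
  decide +kernel

/-- `ta x < k ta (x + d)` -/
def ek (k d : ℤ) : E := sub (mul (q k 10000) (tanE (add (var 0) (q d 10000)))) (tanE (var 0))

theorem ek_val (x : ℝ) (k d : ℤ) : (ek k d).val [x] = k / 10000 * ta (x + d / 10000) - ta x := by
  simp only [ek, tanE, dv, E.val, lkR_zero]
  push_cast
  rw [ta_div, ta_div]

theorem kap_of {x0 x1 k d : ℤ} {n : ℕ} (h : chk [ek k d] n [V.of 10000 x0 x1] = true) {xs ys : ℝ}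
    (hxs : xs ∈ Ioo (0 : ℝ) 1) (hys : ys ∈ Ioo (0 : ℝ) 1) (h0 : (x0 : ℝ) / 10000 ≤ xs)
    (h1 : xs ≤ x1 / 10000) (hk : (0 : ℝ) ≤ k) (hd : (0 : ℝ) ≤ d) (h4 : xs + d / 10000 ≤ ys) :
    ta xs < k / 10000 * ta ys := by
  have hp := pos_of_chk (chk1 h (x := xs) (by norm_num) (by push_cast; linarith only [h0])
    (by push_cast; linarith only [h1]))
  rw [ek_val] at hp
  have hd' : (0 : ℝ) ≤ d / 10000 := by positivity
  have h2 : ta (xs + d / 10000) ≤ ta ys :=
    (ta_le' ⟨by linarith only [hd, hxs, hxs.1], h4.trans_lt hys.2⟩ hys).2 h4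
  have h3 : (k : ℝ) / 10000 * ta (xs + d / 10000) ≤ k / 10000 * ta ys :=
    mul_le_mul_of_nonneg_left h2 (by positivity)
  linarith only [hp, h3]

theorem cK3 : chk [ek 8100 535] 8 [V.of 10000 1700 2520] = true := by decide +kernel
theorem cK2 : chk [ek 8127 505] 8 [V.of 10000 1860 2520] = true := by decide +kernel
theorem cK2e : chk [ek 8100 1000] 8 [V.of 10000 1640 1860] = true := by decide +kernel
theorem cK1 : chk [ek 9400 180] 8 [V.of 10000 2140 2980] = true := by decide +kernel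

theorem t170_gt : (264 : ℝ) / 1000 < ta (170 / 1000) := by
  have := ta_gt (n := 170) (d := 1000) (m := 264) (e := 1000) (by decide +kernel) (by norm_num)
  norm_num at this ⊢
  exact this

theorem t164_gt : (263 : ℝ) / 1000 < ta (164 / 1000) := by
  have := ta_gt (n := 164) (d := 1000) (m := 263) (e := 1000) (by decide +kernel) (by norm_num)
  norm_num at this ⊢
  exact this

theorem t186_gt : (30 : ℝ) / 100 < ta (186 / 1000) := by
  have := ta_gt (n := 186) (d := 1000) (m := 30) (e := 100) (by decide +kernel) (by norm_num)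
  norm_num at this ⊢
  exact this

theorem t217_gt : (349 : ℝ) / 1000 < ta (217 / 1000) := by
  have := ta_gt (n := 217) (d := 1000) (m := 349) (e := 1000) (by decide +kernel) (by norm_num)
  norm_num at this ⊢
  exact this

end Row

open Row

section
set_option deprecated.oldSectionVars false
variable {xs ys T ρ cl cp : ℝ}

theorem ta_lo {x m c : ℝ} (hx : x ∈ Ioo (0 : ℝ) 1) (hm : m ∈ Ioo (0 : ℝ) 1) (h : m ≤ x)
    (hc : c < ta m) : c < ta x := hc.trans_le ((ta_le' hm hx).2 h)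

theorem ta_hi {x m c : ℝ} (hx : x ∈ Ioo (0 : ℝ) 1) (hm : m ∈ Ioo (0 : ℝ) 1) (h : x ≤ m)
    (hc : ta m < c) : ta x < c := ((ta_le' hx hm).2 h).trans_lt hc

/-- lower bound for the quotient -/
theorem GD.kap (g : GD xs ys cl cp) {c : ℝ} (hc : c < ta xs) : c * ta ys ≤ ta xs := by
  have h1 := ta_le_one g.yi g.y2
  have h2 := ta_pos g.yi
  rcases le_or_gt c 0 with h | h
  · have := ta_pos g.xi
    nlinarith only [hc, h2, h1, this]
  · nlinarith only [hc, h1, h]

/-- the comparison condition from a bound of the quotient -/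
theorem GD.hK (g : GD xs ys cl cp) (hκ : ta xs * ta cp ≤ 4142 / 10000 * ta ys) :
    ∀ x y, x ∈ Icc cl cp → y ∈ Icc (1 / 4 : ℝ) (1 / 2) → xs < x →
      |gh y - gh ys| ≤ gh x - gh xs → ta xs * ta x ≤ ta ys * ta y := by
  intro x y hx hy _ _
  have hxi := g.x1 hx
  have hyi : y ∈ Ioo (0 : ℝ) 1 := ⟨by linarith only [hy, hy.1], by linarith only [hy, hy.2]⟩
  have h1 := (ta_le' hxi g.cpi).2 hx.2
  have h2 := t8_le hyi hy.1
  have h3 := ta_pos g.xi
  have h4 := ta_pos g.yi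
  calc ta xs * ta x ≤ ta xs * ta cp := mul_le_mul_of_nonneg_left h1 h3.le
    _ ≤ 4142 / 10000 * ta ys := hκ
    _ ≤ ta y * ta ys := mul_le_mul_of_nonneg_right h2.le h4.le
    _ = _ := mul_comm _ _

theorem GD.prod_le (g : GD xs ys cl cp) {κ c : ℝ} (h1 : ta xs ≤ κ * ta ys) (h2 : ta cp ≤ c)
    (h3 : κ * c ≤ 4142 / 10000) (h4 : 0 ≤ κ) : ta xs * ta cp ≤ 4142 / 10000 * ta ys := by
  have hy := ta_pos g.yi
  have hc := ta_pos g.cpi
  calc ta xs * ta cp ≤ κ * ta ys * c := mul_le_mul h1 h2 hc.le (by positivity)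
    _ = κ * c * ta ys := by ring
    _ ≤ _ := mul_le_mul_of_nonneg_right h3 hy.le

/-- all comparison statements from the three conditions -/
theorem GD.good {a0 a1 p0 : ℝ} (g : GD xs ys cl cp) (hf : H2 xs ys T ρ)
    (hr : DR xs ys T ρ a0 a1 p0) (ha0 : a0 ≤ ta cl) (ha1 : ta cp ≤ a1) (ha1' : a1 ≤ 55 / 100)
    (ha0' : 158 / 1000 ≤ a0) (hp0 : p0 ≤ a0 * (4142 / 10000)) (hv : shq (T - ρ) ≤ 45 / 100)
    (hκ : ta xs ≤ 94 / 100 * ta ys)
    (hK : ∀ x y, x ∈ Icc cl cp → y ∈ Icc (1 / 4 : ℝ) (1 / 2) → xs < x →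
      |gh y - gh ys| ≤ gh x - gh xs → ta xs * ta x ≤ ta ys * ta y) : LH xs ys T ρ cl cp :=
  ⟨g.xi, g.up hf (ha0'.trans ha0) hv, g.wup hr ha0 ha1 (by linarith only [ha1']) hp0 hK,
    g.wdn hr ha0 ha1 ha1' hp0 ha0' hv hκ⟩

/-- next to a digit `3` or a ring -/
theorem cls3 (g : GD xs ys cl cp) (hcl : 1 / 10 ≤ cl) (hcp : cp ≤ 3 / 10) (x0 : 170 / 1000 ≤ xs)
    (x1 : xs ≤ 252 / 1000) (s1 : 1 / 2 - ys ≤ 2445 / 10000)
    (c1 : xs + (1 / 2 - ys) ≤ 4465 / 10000) (hT : |T| ≤ 60 / 1000) (hu : |T + ρ| ≤ 1645 / 10000)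
    (hq : |T - ρ| ≤ 1200 / 10000) (hq' : |T - ρ| ≤ 5900 / 10000 - 22 / 10 * (1 / 2 - ys)) :
    LH xs ys T ρ cl cp ∧ DnG xs T cl cp ys ρ := by
  have y2 := g.y2
  have hf : H2 xs ys T ρ := H2_of cH3 g.xi g.yi (by norm_num; linarith only [x0]) (by norm_num; linarith only [x1])
    (by norm_num; linarith only [y2]) (by norm_num; linarith only [s1]) (by norm_num; linarith only [c1]) (by norm_num; linarith only [hq])
    (by norm_num; linarith only [hq'])
  have hκ := kap_of cK3 g.xi g.yi (by norm_num; linarith only [x0]) (by norm_num; linarith only [x1]) (by norm_num)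
    (by norm_num) (by norm_num; linarith only [c1])
  norm_num at hκ
  have hk0 := g.kap (ta_lo g.xi (by norm_num) x0 t170_gt)
  have hcx := ta_lo g.xi (by norm_num) x0 t170_gt
  have hc0 := ta_lo g.cli (by norm_num) hcl t10_gt
  have hc1 := ta_hi g.cpi (by norm_num) hcp t30_lt
  have hv : shq (T - ρ) ≤ 45 / 100 := shq200 (hq.trans (by norm_num))
  have hp := g.prod_le (κ := 81 / 100) (c := 5096 / 10000) (by linarith only [hκ]) hc1.le (by norm_num)
    (by norm_num)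
  exact ⟨g.good hf (DR_lo g.xi g.yi (by linarith only [hcx]) hk0 (by linarith only [hκ]) hT hu (hq.trans (by norm_num)))
    hc0.le (by linarith only [hc1]) (by norm_num) (by norm_num) (by norm_num) hv
    (by nlinarith only [hκ, hcx, ta_pos g.yi]) (g.hK hp), g.dn hf hp (by linarith only [hc0]) hv⟩

/-- next to a digit `2` inside -/
theorem cls2 (g : GD xs ys cl cp) (hcl : 1 / 8 ≤ cl) (hcp : cp ≤ 3 / 10) (x0 : 186 / 1000 ≤ xs)
    (x1 : xs ≤ 252 / 1000) (s1 : 1 / 2 - ys ≤ 2225 / 10000)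
    (c1 : xs + (1 / 2 - ys) ≤ 4495 / 10000) (hT : T ≤ 0) (hT1 : -(131 / 1000) ≤ T) (hρ : 0 ≤ ρ)
    (hu : T + ρ ≤ 131 / 1000) (hq : ρ - T ≤ 1400 / 10000)
    (hq' : ρ - T ≤ 3980 / 10000 - 13 / 10 * (1 / 2 - ys)) :
    LH xs ys T ρ cl cp ∧ DnG xs T cl cp ys ρ := by
  have y2 := g.y2
  have ea : |T - ρ| = ρ - T := by rw [abs_of_nonpos (by linarith only [hT, hρ])]; ring
  have hf : H2 xs ys T ρ := H2_of cH2 g.xi g.yi (by norm_num; linarith only [x0]) (by norm_num; linarith only [x1])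
    (by norm_num; linarith only [y2]) (by norm_num; linarith only [s1]) (by norm_num; linarith only [c1])
    (by rw [ea]; norm_num; linarith only [hq]) (by rw [ea]; norm_num; linarith only [hq'])
  have hκ := kap_of cK2 g.xi g.yi (by norm_num; linarith only [x0]) (by norm_num; linarith only [x1]) (by norm_num)
    (by norm_num) (by norm_num; linarith only [c1])
  norm_num at hκ
  have hcx := ta_lo g.xi (by norm_num) x0 t186_gt
  have hk0 := g.kap hcx
  have hc0 := ta_lo g.cli (by norm_num) hcl t125_gt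
  have hc1 := ta_hi g.cpi (by norm_num) hcp t30_lt
  have hv : shq (T - ρ) ≤ 45 / 100 := shq200 (by rw [ea]; linarith only [hT1, hu, hq])
  have hp := g.prod_le (κ := 8127 / 10000) (c := 5096 / 10000) (by linarith only [hκ]) hc1.le (by norm_num)
    (by norm_num)
  exact ⟨g.good hf (DR_two g.xi g.yi (by linarith only [hcx]) (by nlinarith only [hκ, hcx, ta_pos g.yi]) hT hT1 hρ hu
    (Or.inl ⟨hk0, by linarith only [hT1, hu, hq]⟩))
    hc0.le (by linarith only [hc1]) (by norm_num) (by norm_num) (by norm_num) hv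
    (by nlinarith only [hκ, hcx, ta_pos g.yi]) (g.hK hp), g.dn hf hp (by linarith only [hc0]) hv⟩

/-- next to a digit `2` at the end -/
theorem cls2e (g : GD xs ys cl cp) (hcl : 1 / 8 ≤ cl) (hcp : cp ≤ 3 / 10) (x0 : 164 / 1000 ≤ xs)
    (x1 : xs ≤ 186 / 1000) (s1 : 1 / 2 - ys ≤ 1885 / 10000)
    (c1 : xs + (1 / 2 - ys) ≤ 3740 / 10000) (hT : T ≤ 0) (hT1 : -(131 / 1000) ≤ T) (hρ : 0 ≤ ρ)
    (hu : T + ρ ≤ 131 / 1000) (hq : ρ - T ≤ 1680 / 10000)
    (hq' : ρ - T ≤ 3520 / 10000 - 105 / 100 * (1 / 2 - ys)) (hk0 : 275 / 1000 * ta ys ≤ ta xs) :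
    LH xs ys T ρ cl cp ∧ DnG xs T cl cp ys ρ := by
  have y2 := g.y2
  have ea : |T - ρ| = ρ - T := by rw [abs_of_nonpos (by linarith only [hT, hρ])]; ring
  have hf : H2 xs ys T ρ := H2_of cH2e g.xi g.yi (by norm_num; linarith only [x0]) (by norm_num; linarith only [x1])
    (by norm_num; linarith only [y2]) (by norm_num; linarith only [s1]) (by norm_num; linarith only [c1])
    (by rw [ea]; norm_num; linarith only [hq]) (by rw [ea]; norm_num; linarith only [hq'])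
  have hκ := kap_of cK2e g.xi g.yi (by norm_num; linarith only [x0]) (by norm_num; linarith only [x1]) (by norm_num)
    (by norm_num) (by norm_num; linarith only [x1, s1])
  norm_num at hκ
  have hcx := ta_lo g.xi (by norm_num) x0 t164_gt
  have hc0 := ta_lo g.cli (by norm_num) hcl t125_gt
  have hc1 := ta_hi g.cpi (by norm_num) hcp t30_lt
  have hv : shq (T - ρ) ≤ 45 / 100 := shq200 (by rw [ea]; linarith only [hT1, hu, hq])
  have hp := g.prod_le (κ := 81 / 100) (c := 5096 / 10000) (by linarith only [hκ]) hc1.le (by norm_num)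
    (by norm_num)
  exact ⟨g.good hf (DR_two g.xi g.yi (by linarith only [hcx]) (by nlinarith only [hκ, hcx, ta_pos g.yi]) hT hT1 hρ hu
    (Or.inr ⟨hk0, by linarith only [hq]⟩))
    hc0.le (by linarith only [hc1]) (by norm_num) (by norm_num) (by norm_num) hv
    (by nlinarith only [hκ, hcx, ta_pos g.yi]) (g.hK hp), g.dn hf hp (by linarith only [hc0]) hv⟩

/-- next to a digit `1`: everything except the ring variable going down -/
theorem cls1_LH (g : GD xs ys cl cp) (hcl : 16 / 100 ≤ cl) (hcp : cp ≤ 32 / 100)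
    (hcx : 256 / 1000 ≤ ta xs) (hk0 : 349 / 1000 * ta ys ≤ ta xs)
    (hκ : ta xs ≤ 94 / 100 * ta ys) (hT : T ≤ 0) (hT1 : -(158 / 1000) ≤ T) (hρ : 0 ≤ ρ)
    (hu : T + ρ ≤ 158 / 1000) (hq : ρ - T ≤ 2000 / 10000) (hf : H2 xs ys T ρ)
    (hK : ∀ x y, x ∈ Icc cl cp → y ∈ Icc (1 / 4 : ℝ) (1 / 2) → xs < x →
      |gh y - gh ys| ≤ gh x - gh xs → ta xs * ta x ≤ ta ys * ta y) :
    LH xs ys T ρ cl cp := by
  have ea : |T - ρ| = ρ - T := by rw [abs_of_nonpos (by linarith only [hT, hρ])]; ring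
  have hc0 := ta_lo g.cli (by norm_num) hcl t16_gt
  have hc1 := ta_hi g.cpi (by norm_num) hcp t32_lt
  have hv : shq (T - ρ) ≤ 45 / 100 := shq200 (by rw [ea]; linarith only [hq])
  exact g.good hf (DR_one g.xi g.yi hcx hk0 hκ hT hT1 hρ hu
    (by linarith only [hq])) hc0.le (by linarith only [hc1]) (by norm_num) (by norm_num) (by norm_num) hv hκ hK

/-- next to a digit `1`, quotient small -/
theorem cls1 (g : GD xs ys cl cp) (hcl : 16 / 100 ≤ cl) (hcp : cp ≤ 32 / 100)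
    (hcx : 256 / 1000 ≤ ta xs) (hk0 : 349 / 1000 * ta ys ≤ ta xs)
    (hκ : ta xs ≤ 7534 / 10000 * ta ys) (hT : T ≤ 0) (hT1 : -(158 / 1000) ≤ T) (hρ : 0 ≤ ρ)
    (hu : T + ρ ≤ 158 / 1000) (hq : ρ - T ≤ 2000 / 10000) (hf : H2 xs ys T ρ) :
    LH xs ys T ρ cl cp ∧ DnG xs T cl cp ys ρ := by
  have hc0 := ta_lo g.cli (by norm_num) hcl t16_gt
  have hc1 := ta_hi g.cpi (by norm_num) hcp t32_lt
  have hp := g.prod_le (κ := 7534 / 10000) (c := 54976 / 100000) hκ hc1.le (by norm_num)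
    (by norm_num)
  have h1 := cls1_LH g hcl hcp hcx hk0 (by nlinarith only [hcx, hκ, ta_pos g.yi]) hT hT1 hρ hu hq hf (g.hK hp)
  have ea : |T - ρ| = ρ - T := by rw [abs_of_nonpos (by linarith only [hT, hρ])]; ring
  exact ⟨h1, g.dn hf hp (by linarith only [hc0]) (shq200 (by rw [ea]; linarith only [hq]))⟩

end

end RC

end Pool.Agent.Work.MP_b30479_gtS.G2

end

section

/-!
# Rings: the hinge above the saddle point, slope `1`, without the gauge of the ring variable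
-/

set_option deprecated.oldSectionVars true

namespace Pool.Agent.Work.MP_b30479_gtS.G2

open Set VOL NumIs

namespace RC

theorem sin_sq_cos1 (a : ℝ) : Real.sin (Real.pi * a) ^ 2 =
    (1 - Real.cos (2 * (Real.pi * |a|))) / 2 := by
  have h := Real.cos_sq' (Real.pi * a)
  have h2 := Real.cos_two_mul (Real.pi * a)
  have h3 : Real.cos (2 * (Real.pi * |a|)) = Real.cos (2 * (Real.pi * a)) := by
    rcases abs_choice a with h | h
    · rw [h]
    · rw [h, ← Real.cos_neg]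
      congr 1
      ring
  rw [h3]
  linarith only [h, h2]

theorem LL_lv_le1 {a b t : ℝ} (ha : |a| ≤ |b|) (hb : |b| ≤ 1 / 2) (h : t ≠ 0 ∨ a ≠ 0) :
    LL (lv a t) ≤ LL (lv b t) := by
  have hp := Real.pi_pos
  have h0 := abs_nonneg a
  have h1 : Real.sin (Real.pi * a) ^ 2 ≤ Real.sin (Real.pi * b) ^ 2 := by
    rw [sin_sq_cos1, sin_sq_cos1]
    have := Real.cos_le_cos_of_nonneg_of_le_pi (x := 2 * (Real.pi * |a|)) (y := 2 * (Real.pi * |b|))
      (by positivity) (by nlinarith only [hb, hp]) (by nlinarith only [ha, hp])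
    linarith only [this]
  have h2 : 0 < Real.sin (Real.pi * a) ^ 2 + shq t := by
    rcases h with h | h
    · have : 0 < shq t := by
        unfold shq
        have : Real.sinh (Real.pi * t) ≠ 0 := by
          rw [Ne, Real.sinh_eq_zero]
          positivity
        positivity
      positivity
    · have h3 : 0 < |a| := abs_pos.2 h
      have h4 : Real.cos (2 * (Real.pi * |a|)) < 1 := by
        rw [← Real.cos_zero]
        exact Real.cos_lt_cos_of_nonneg_of_le_pi le_rfl (by nlinarith only [ha, hp, hb]) (by positivity)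
      have := shq_nonneg t
      rw [sin_sq_cos1]
      linarith only [h4, this]
  rw [LL_lv_eq, LL_lv_eq]
  have := Real.log_le_log (by positivity : 0 < 4 * (Real.sin (Real.pi * a) ^ 2 + shq t))
    (by linarith only [h1] : 4 * (Real.sin (Real.pi * a) ^ 2 + shq t) ≤
      4 * (Real.sin (Real.pi * b) ^ 2 + shq t))
  linarith only [this]

/-- the numerical condition of `side_gauge` on `[a, e]` -/
def kapE (a e : ℕ) : E := .sub
  (.mul (.sq (.sinPi (.q a 100))) (.sub (.mul (.q 2 1) (.cosPi (.q e 100))) (.q 122 100)))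
  (.mul (.q 122 100) (.sq (.sinh (.mul .pi (.q 47 1000)))))

theorem kapA : 122 / 100 * Real.sinh (Real.pi * (47 / 1000)) ^ 2 ≤
    Real.sin (Real.pi * (17 / 100)) ^ 2 * (2 * Real.cos (Real.pi * (22 / 100)) - 122 / 100) := by
  have h : NumIs.chk [kapE 17 22] 1 [NumIs.V.of 1 0 0] = true := by decide +kernel
  have hp := NumIs.pos_of_chk (NumIs.chk1 h (by norm_num) (x := 0) (by norm_num) (by norm_num))
  simp only [kapE, NumIs.E.val] at hp
  push_cast at hp
  linarith only [hp]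

theorem kapB : 122 / 100 * Real.sinh (Real.pi * (47 / 1000)) ^ 2 ≤
    Real.sin (Real.pi * (22 / 100)) ^ 2 * (2 * Real.cos (Real.pi * (27 / 100)) - 122 / 100) := by
  have h : NumIs.chk [kapE 22 27] 1 [NumIs.V.of 1 0 0] = true := by decide +kernel
  have hp := NumIs.pos_of_chk (NumIs.chk1 h (by norm_num) (x := 0) (by norm_num) (by norm_num))
  simp only [kapE, NumIs.E.val] at hp
  push_cast at hp
  linarith only [hp]

/-- the own factor dominates the gauge -/
theorem own_gauge {T u v : ℝ} (h0 : 17 / 100 ≤ u) (h1 : u ≤ v) (h2 : v ≤ 27 / 100)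
    (hT : |T| ≤ 47 / 1000) : 122 / 100 * (gh v - gh u) ≤ 2 * (lnA v T - lnA u T) := by
  have cA : (122 : ℝ) / 100 ≤ 2 * Real.cos (Real.pi * (22 / 100)) := by
    by_contra hcon
    push Not at hcon
    have h3 := kapA
    have h4 : Real.sin (Real.pi * (17 / 100)) ^ 2 *
        (2 * Real.cos (Real.pi * (22 / 100)) - 122 / 100) ≤ 0 :=
      mul_nonpos_of_nonneg_of_nonpos (sq_nonneg _) (by linarith only [hcon])
    have h5 : 0 < Real.sinh (Real.pi * (47 / 1000)) :=
      Real.sinh_pos_iff.2 (by have := Real.pi_pos; positivity)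
    have : 0 < 122 / 100 * Real.sinh (Real.pi * (47 / 1000)) ^ 2 := by positivity
    linarith only [h3, h4, this]
  have cB : (122 : ℝ) / 100 ≤ 2 * Real.cos (Real.pi * (27 / 100)) := by
    by_contra hcon
    push Not at hcon
    have h3 := kapB
    have h4 : Real.sin (Real.pi * (22 / 100)) ^ 2 *
        (2 * Real.cos (Real.pi * (27 / 100)) - 122 / 100) ≤ 0 :=
      mul_nonpos_of_nonneg_of_nonpos (sq_nonneg _) (by linarith only [hcon])
    have h5 : 0 < Real.sinh (Real.pi * (47 / 1000)) :=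
      Real.sinh_pos_iff.2 (by have := Real.pi_pos; positivity)
    have : 0 < 122 / 100 * Real.sinh (Real.pi * (47 / 1000)) ^ 2 := by positivity
    linarith only [h3, h4, this]
  have A : ∀ {u v : ℝ}, 17 / 100 ≤ u → u ≤ v → v ≤ 22 / 100 →
      122 / 100 * (gh v - gh u) ≤ 2 * (lnA v T - lnA u T) := fun h0 h1 h2 =>
    RQ.side_gauge (by norm_num) (by norm_num) h0 h1 h2 hT (by norm_num) kapA cA
  have B : ∀ {u v : ℝ}, 22 / 100 ≤ u → u ≤ v → v ≤ 27 / 100 →
      122 / 100 * (gh v - gh u) ≤ 2 * (lnA v T - lnA u T) := fun h0 h1 h2 =>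
    RQ.side_gauge (by norm_num) (by norm_num) h0 h1 h2 hT (by norm_num) kapB cB
  rcases le_total v (22 / 100) with hv | hv
  · exact A h0 h1 hv
  rcases le_total (22 / 100) u with hu | hu
  · exact B hu h1 h2
  have a1 := A h0 hu le_rfl
  have b1 := B le_rfl hv h2
  linarith only [a1, b1]

/-- **Slope `1`.** -/
theorem kap_one {xs ys T ρ x y : ℝ} (h0 : 17 / 100 ≤ xs) (h1 : xs ≤ x) (h2 : x ≤ 27 / 100)
    (h3 : 0 < y) (h4 : y < ys) (h5 : ys ≤ 1 / 2) (h6 : x - y ≤ ys - xs) (hT : |T| ≤ 47 / 1000)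
    (hn : Nz x y T ρ) (hs : xs < ys) :
    Sx x y T ρ + 122 / 100 * (gh x - gh xs) ≤ Sx xs ys T ρ + (Dx x y T ρ - Dx xs ys T ρ) := by
  have q1 := LL_lv_le1 (a := y - x) (b := ys - xs) (t := T - ρ) (by
    rw [abs_of_nonneg (a := ys - xs) (by linarith only [h1, h4, h6]), abs_le]
    constructor <;> linarith only [h6, h1, h4]) (by
    rw [abs_of_nonneg (by linarith only [h1, h4, h6])]
    linarith only [h0, h3, h4, h5]) (by
    by_contra hc
    push Not at hc
    obtain ⟨c1, c2⟩ := hc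
    refine hn.2 ?_
    rw [c1, c2]
    simp [lv])
  have q2 := own_gauge h0 h1 h2 hT
  rw [← LL_lv (x := x) T (by linarith only [h0, h1, h3, h4, h5]) (by linarith only [h2, h3, h4, h5]), ← LL_lv (x := xs) T (by linarith only [h0, h3, h4, h5])
    (by linarith only [h1, h2, h3, h4, h5])] at q2
  unfold Sx Dx
  linarith only [q1, q2]

end RC

end Pool.Agent.Work.MP_b30479_gtS.G2

end

section

/-!
# Rings on the level part: hinges next to a digit `1`, entries of the tables, pairs of hinges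
-/

set_option deprecated.oldSectionVars true

namespace Pool.Agent.Work.MP_b30479_gtS.G2

open Real Set VOL Filter Topology

namespace RC

namespace Row

open NumIs NumIs.E

theorem cK1s : chk [ek 9400 174] 8 [V.of 10000 2140 2990] = true := by decide +kernel

theorem t216_gt : (351 : ℝ) / 1000 < ta (216 / 1000) := by
  have := ta_gt (n := 216) (d := 1000) (m := 351) (e := 1000) (by decide +kernel) (by norm_num)
  norm_num at this ⊢
  exact this

theorem cH4a : chk (h2l 4687 1609 0 1609) 20 [V.of 10000 2250 2816, V.of 10000 1560 2016] = true := by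
  decide +kernel
theorem cH4b : chk (h2l 4826 1666 0 1666) 20 [V.of 10000 2580 2990, V.of 10000 1540 1951] = true := by
  decide +kernel
theorem cH4c : chk (h2l 4584 1845 0 1845) 20 [V.of 10000 2439 2666, V.of 10000 1580 1985] = true := by
  decide +kernel
theorem cH4ea : chk (h2l 4638 1201 0 1201) 20 [V.of 10000 2163 2605, V.of 10000 1974 2179] = true := by
  decide +kernel
theorem cH4eb : chk (h2l 4778 1280 0 1280) 20 [V.of 10000 2480 2791, V.of 10000 1927 2094] = true := by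
  decide +kernel
theorem cH4ec : chk (h2l 4517 1433 0 1433) 20 [V.of 10000 2352 2472, V.of 10000 1985 2105] = true := by
  decide +kernel
theorem cH5a : chk (h2l 4412 1622 0 1622) 20 [V.of 10000 2213 2800, V.of 10000 1321 1779] = true := by
  decide +kernel
theorem cH5b : chk (h2l 4574 1646 0 1646) 20 [V.of 10000 2534 2988, V.of 10000 1298 1731] = true := by
  decide +kernel
theorem cH5c : chk (h2l 4282 1842 0 1842) 20 [V.of 10000 2380 2639, V.of 10000 1331 1751] = true := by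
  decide +kernel
theorem cH5e : chk (h2l 4530 1534 0 1534) 20 [V.of 10000 2180 2859, V.of 10000 1571 1865] = true := by
  decide +kernel
theorem cH6 : chk (h2l 4367 1793 0 1793) 20 [V.of 10000 2188 2983, V.of 10000 1131 1628] = true := by
  decide +kernel
theorem cH7 : chk (h2l 4826 1990 0 1990) 20 [V.of 10000 2200 2990, V.of 10000 0 1364] = true := by
  decide +kernel

end Row

open Row R6

/-- bounds of the saddle point at a hinge next to a digit `1` -/
structure OneB (xs ys T ρ : ℝ) : Prop where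
  x0 : 216 / 1000 ≤ xs
  x1 : xs ≤ 299 / 1000
  c : xs + (1 / 2 - ys) ≤ 4826 / 10000
  y4 : 1 / 4 < ys
  y2 : ys ≤ 1 / 2
  t0 : T ≤ 0
  t1 : -(158 / 1000) ≤ T
  r0 : 0 ≤ ρ
  r1 : ρ ≤ 1 / 10
  q : ρ - T ≤ 2 / 10
  h2 : H2 xs ys T ρ

section
set_option deprecated.oldSectionVars false
variable {xs ys T ρ cl cp xs' T' cl' cp' x y : ℝ} {f g f' g' : ℝ → ℝ} {tab tab' : List Te} {W : Wd}

theorem OneB.GD (O : OneB xs ys T ρ) : GD xs ys (16 / 100) (36 / 100) :=
  ⟨by norm_num, by norm_num, by linarith only [O, O.x0], by linarith only [O, O.x1], by linarith only [O, O.c],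
    O.y4.le, O.y2⟩

theorem OneB.HD (O : OneB xs ys T ρ) : HD xs ys T ρ (16 / 100) (36 / 100) := by
  refine ⟨O.GD, O.h2, ?_, ?_⟩
  · have := ta_lo O.GD.cli (m := 16 / 100) (by constructor <;> norm_num) le_rfl t16_gt
    linarith only [this]
  · refine shq200 (abs_le.2 ⟨?_, ?_⟩) <;> linarith only [O, O.q, O.t0, O.r0]

theorem OneB.hys (O : OneB xs ys T ρ) : ys ∈ Ioc (1 / 4 : ℝ) (1 / 2) := ⟨O.y4, O.y2⟩
theorem OneB.hxs (O : OneB xs ys T ρ) : xs ∈ Icc (16 / 100 : ℝ) (36 / 100) :=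
  ⟨by linarith only [O, O.x0], by linarith only [O, O.x1]⟩

/-- comparison statements next to a digit `1` -/
theorem OneB.LF (O : OneB xs ys T ρ) (I : W.In T ρ xs ys) {f : ℝ → ℝ} {mu : ℕ}
    (R1 : W.R (cW mu 1) W.x0 3200 2500 5000) (R2 : W.R (cW mu 0) 3200 3600 2500 5000)
    (hf : ∀ m, 0 < m → (mu : ℝ) / 1000 * m ≤ f m) :
    LF xs ys T ρ (16 / 100) (36 / 100) f (fun _ => 0) := by
  have g := O.GD
  have h1 := kap_of cK1s g.xi g.yi (by norm_num; linarith only [O, O.x0]) (by norm_num; linarith only [O, O.x1])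
    (by norm_num) (by norm_num) (by norm_num; linarith only [O, O.c])
  norm_num at h1
  have h2 := ta_lo g.xi (by norm_num) O.x0 t216_gt
  have h3 := g.kap h2
  have hc0 := ta_lo g.cli (by norm_num) (le_refl (16 / 100 : ℝ)) t16_gt
  have hay := ta_pos g.yi
  exact I.LF O.HD (DR_one g.xi g.yi (by linarith only [h2]) (by nlinarith only [h2, h3]) (by linarith only [h1]) O.t0 O.t1 O.r0
    (by linarith only [O, O.r1, O.t0]) (by linarith only [O, O.q])) hc0.le (by linarith only [t32_lt]) (by norm_num) (by norm_num)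
    (by norm_num) (by linarith only [h1]) (by linarith only [O, O.x1]) hf R1 R2 (by norm_num)

theorem Lb_00 : Lb 0 0 = fun _ => 0 := by
  funext m
  exact Lb_zero' _ _

/-- the table is used only for `y < ys` -/
theorem Wd.In.yb (I : W.In T ρ xs ys) {yb yb' : ℕ} (h : (Nat.ble yb yb' || Nat.ble W.y1 yb') = true)
    (h1 : y ≤ (yb : ℝ) / 10000) (h2 : y < ys) : y ≤ (yb' : ℝ) / 10000 := by
  rw [Bool.or_eq_true] at h
  rcases h with h | h
  · have h3 : (yb : ℝ) ≤ yb' := by exact_mod_cast Nat.le_of_ble_eq_true h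
    refine h1.trans ?_
    gcongr
  · have h3 : (W.y1 : ℝ) ≤ yb' := by exact_mod_cast Nat.le_of_ble_eq_true h
    refine (h2.le.trans I.y1).trans ?_
    gcongr

/-- an entry for the contribution -/
theorem Wd.In.qt (I : W.In T ρ xs ys) (G : GD xs ys cl cp) {al m0 vs A B ya yb yb' : ℕ}
    (hH : vs ≠ 0 → RC.HD xs ys T ρ cl cp)
    (Ru : W.R (cQ true al m0 vs) W.x0 B ya yb') (Rd : W.R (cQ false al m0 vs) A W.x1 ya yb')
    (hy : (Nat.ble yb yb' || Nat.ble W.y1 yb') = true)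
    (t : QT xs ys T ρ cl cp tab)
    (hA : (A : ℝ) / 10000 ≤ cl) (hB : cp ≤ (B : ℝ) / 10000) :
    QT xs ys T ρ cl cp (⟨ya, yb, al, m0, 0, 0, 0⟩ :: tab) :=
  t.cons fun _ h1 h2 h3 h4 => I.QB G hH Ru Rd hA hB h1 (I.yb hy h2 h4) h3 h4

/-- an entry with a region -/
theorem Wd.In.qe (I : W.In T ρ xs ys) (G : GD xs ys cl cp) {al m0 vs dl m1 n1 A B ya yb yb' : ℕ}
    (hH : vs ≠ 0 → RC.HD xs ys T ρ cl cp)
    (Ru : W.R (cQ true al m0 vs) W.x0 B ya yb') (Rd : W.R (cQ false al m0 vs) A W.x1 ya yb')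
    (Eu : W.R (cE true al m0 dl m1 n1) W.x0 B ya yb')
    (Ed : W.R (cE false al m0 dl m1 n1) A W.x1 ya yb')
    (hy : (Nat.ble yb yb' || Nat.ble W.y1 yb') = true)
    (t : QT xs ys T ρ cl cp tab)
    (hA : (A : ℝ) / 10000 ≤ cl) (hB : cp ≤ (B : ℝ) / 10000) :
    QT xs ys T ρ cl cp (⟨ya, yb, al, m0, dl, m1, n1 + 1⟩ :: tab) :=
  t.cons fun _ h1 h2 h3 h4 => QB.reg I G (I.QB G hH Ru Rd hA hB h1 (I.yb hy h2 h4) h3 h4) Eu Ed
    hA hB h1 (I.yb hy h2 h4) h3 h4

/-- an entry if the contribution increases -/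
theorem DnG.qt (D : DnG xs T cl cp ys ρ) {ya yb : ℕ} (t : QT xs ys T ρ cl cp tab) :
    QT xs ys T ρ cl cp (⟨ya, yb, 0, 0, 0, 0, 0⟩ :: tab) := by
  refine t.cons fun y _ _ h3 h4 => ?_
  have := DnG.QB (m1 := ((0 : ℕ) : ℝ) / 1000) (n1 := ((0 : ℕ) : ℝ) / 1000) D h3 h4
  change RC.QB xs ys T ρ cl cp (Lb 0 0) _ _ _ y
  rw [Lb_00]
  convert this using 1
  simp

/-- an entry with a region if the contribution increases -/
theorem DnG.qe (D : DnG xs T cl cp ys ρ) (I : W.In T ρ xs ys) (G : GD xs ys cl cp)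
    {dl m1 n1 A B ya yb yb' : ℕ}
    (Eu : W.R (cE true 0 0 dl m1 n1) W.x0 B ya yb')
    (Ed : W.R (cE false 0 0 dl m1 n1) A W.x1 ya yb')
    (hy : (Nat.ble yb yb' || Nat.ble W.y1 yb') = true)
    (t : QT xs ys T ρ cl cp tab)
    (hA : (A : ℝ) / 10000 ≤ cl) (hB : cp ≤ (B : ℝ) / 10000) :
    QT xs ys T ρ cl cp (⟨ya, yb, 0, 0, dl, m1, n1 + 1⟩ :: tab) := by
  refine t.cons fun y h1 h2 h3 h4 => ?_
  refine QB.reg I G ?_ Eu Ed hA hB h1 (I.yb hy h2 h4) h3 h4
  have := DnG.QB (m1 := ((0 : ℕ) : ℝ) / 1000) (n1 := ((0 : ℕ) : ℝ) / 1000) D h3 h4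
  rw [Lb_00]
  convert this using 1
  simp

/-- an entry for the sides -/
theorem Wd.In.dt (I : W.In T ρ xs ys) (G : GD xs ys cl cp) {f g : ℝ → ℝ}
    {mu mud al m0 dl m1 n1 vs A B ya yb yb' : ℕ} (hH : vs ≠ 0 → RC.HD xs ys T ρ cl cp)
    (Ru : W.R (cD true mu al m0 dl m1 n1 vs) W.x0 B ya yb')
    (Rd : W.R (cD false mud al m0 0 0 0 vs) A W.x1 ya yb')
    (hy : (Nat.ble yb yb' || Nat.ble W.y1 yb') = true)
    (hf : ∀ m, 0 < m → (mu : ℝ) / 1000 * m ≤ f m) (hg : ∀ m, 0 < m → (mud : ℝ) / 1000 * m ≤ g m)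
    (t : DT xs ys T ρ cl cp f g tab)
    (hA : (A : ℝ) / 10000 ≤ cl) (hB : cp ≤ (B : ℝ) / 10000) :
    DT xs ys T ρ cl cp f g (⟨ya, yb, al, m0, dl, m1, n1⟩ :: tab) :=
  t.cons fun _ h1 h2 h3 h4 => I.DS G hH hH Ru Rd (Or.inr ⟨rfl, rfl, rfl⟩) (Or.inl rfl) hf hg hA hB
    h1 (I.yb hy h2 h4) h3 h4

/-- an entry for the sides if the contribution increases -/
theorem DnG.dt (D : DnG xs T cl cp ys ρ) (G : GD xs ys cl cp) {dl m1 n1 ya yb : ℕ}
    (t : DT xs ys T ρ cl cp f g tab) :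
    DT xs ys T ρ cl cp f g (⟨ya, yb, 0, 0, dl, m1, n1⟩ :: tab) := by
  refine t.cons fun y _ _ h3 h4 => ?_
  change RC.DS xs ys T ρ cl cp f g (Lb 0 0) _ _ _ y
  rw [Lb_00]
  exact (DnG.QB (m1 := 0) (n1 := 0) D h3 h4).toDS G.xi G.cl0 (by linarith only [G, G.cp2])

/-- an entry for the sides from rows of the contribution -/
theorem Wd.In.dt0 (I : W.In T ρ xs ys) (G : GD xs ys cl cp) {f g : ℝ → ℝ}
    {vs dl m1 n1 A B ya yb yb' : ℕ} (hH : vs ≠ 0 → RC.HD xs ys T ρ cl cp)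
    (Ru : W.R (cQ true 0 0 vs) W.x0 B ya yb') (Rd : W.R (cQ false 0 0 vs) A W.x1 ya yb')
    (hy : (Nat.ble yb yb' || Nat.ble W.y1 yb') = true)
    (t : DT xs ys T ρ cl cp f g tab)
    (hA : (A : ℝ) / 10000 ≤ cl) (hB : cp ≤ (B : ℝ) / 10000) :
    DT xs ys T ρ cl cp f g (⟨ya, yb, 0, 0, dl, m1, n1⟩ :: tab) := by
  refine t.cons fun y h1 h2 h3 h4 => ?_
  have := I.QB G hH Ru Rd hA hB h1 (I.yb hy h2 h4) h3 h4
  change RC.DS xs ys T ρ cl cp f g (Lb 0 0) _ _ _ y
  rw [Lb_00] at this ⊢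
  exact this.toDS G.xi G.cl0 (by linarith only [G, G.cp2])

/-- the table with bounds `0` only -/
theorem DT.zero (t : DT xs ys T ρ cl cp f g tab) (hc : cov 2500 tab = true)
    (h0 : (tab.all fun e => e.al == 0 && e.dl == 0 && e.m1 == 0 && e.n1 == 0) = true)
    (hys : ys ≤ 1 / 2) : ∀ y, 1 / 4 ≤ y → y < ys →
      DS xs ys T ρ cl cp f g (fun _ => 0) 0 0 0 y := by
  intro y h1 h2
  obtain ⟨e, he, h3, h4⟩ := cov_spec (y := y) (by linarith only [hys, h2]) hc (by norm_num; linarith only [h1])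
    (by linarith only [hys, h2])
  have h5 := t e he y h3 h4 h1 h2
  rw [List.all_eq_true] at h0
  have h6 := h0 e he
  simp only [Bool.and_eq_true, beq_iff_eq] at h6
  obtain ⟨⟨⟨a1, a2⟩, a3⟩, a4⟩ := h6
  rw [a1, a2, a3, a4] at h5
  have e0 : Lb 0 e.m0 = fun _ => 0 := by
    funext m
    exact Lb_zero' _ _
  rw [e0] at h5
  simpa using h5

end

/-- the statements for the two hinges of a ring -/
structure Pr (ys ρ xs T cl cp : ℝ) (f g : ℝ → ℝ) (xs' T' cl' cp' : ℝ) (f' g' : ℝ → ℝ) : Prop where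
  p : LF xs ys T ρ cl cp f g
  q : LF xs' ys T' ρ cl' cp' f' g'
  J : Joint ys ρ xs T cl cp f g xs' T' cl' cp'
  J' : Joint ys ρ xs' T' cl' cp' f' g' xs T cl cp
  lp : LI xs ys T ρ
  lq : LI xs' ys T' ρ

section
set_option deprecated.oldSectionVars false
variable {xs ys T ρ cl cp xs' T' cl' cp' b lam α β : ℝ} {f g f' g' : ℝ → ℝ} {tab tab' : List Te}

theorem Pr.symm (P : Pr ys ρ xs T cl cp f g xs' T' cl' cp' f' g') :
    Pr ys ρ xs' T' cl' cp' f' g' xs T cl cp f g := ⟨P.q, P.p, P.J', P.J, P.lq, P.lp⟩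

theorem Pr.of (p : LF xs ys T ρ cl cp f g) (q : LF xs' ys T' ρ cl' cp' f' g')
    (d : DT xs ys T ρ cl cp f g tab) (e' : QT xs' ys T' ρ cl' cp' tab)
    (d' : DT xs' ys T' ρ cl' cp' f' g' tab') (e : QT xs ys T ρ cl cp tab')
    (c : cov 2500 tab = true) (c' : cov 2500 tab' = true) (hys : ys ∈ Ioc (1 / 4 : ℝ) (1 / 2))
    (hx : xs ∈ Icc cl cp) (hx' : xs' ∈ Icc cl' cp') :
    Pr ys ρ xs T cl cp f g xs' T' cl' cp' f' g' :=
  ⟨p, q, Joint.of_tab d e' c hys.2, Joint.of_tab d' e c' hys.2, LI.of_tab p.up e c' hx hys,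
    LI.of_tab q.up e' c hx' hys⟩

/-- the pair of hinges, no exceptions -/
theorem Pr.of_lo (l : LH xs ys T ρ cl cp) (l' : LH xs' ys T' ρ cl' cp') (d : DnG xs T cl cp ys ρ)
    (d' : DnG xs' T' cl' cp' ys ρ) (hys : ys ∈ Ioc (1 / 4 : ℝ) (1 / 2))
    (hx : xs ∈ Icc cl cp) (hx' : xs' ∈ Icc cl' cp') (hc : 0 < cl) (hc' : 0 < cl') (hp : cp < 1)
    (hp' : cp' < 1) (hf : ∀ m, 0 < m → 0 ≤ f m) (hg : ∀ m, 0 < m → 0 ≤ g m)
    (hf' : ∀ m, 0 < m → 0 ≤ f' m) (hg' : ∀ m, 0 < m → 0 ≤ g' m) :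
    Pr ys ρ xs T cl cp f g xs' T' cl' cp' f' g' :=
  ⟨l.toF hf hg hc hp, l'.toF hf' hg' hc' hp', Joint.of_dnG d d' l.hx hc hp,
    Joint.of_dnG d' d l'.hx hc' hp', LI.of l d hx hys, LI.of l' d' hx' hys⟩

theorem Pr.RP2 (P : Pr ys ρ xs T cl cp f g xs' T' cl' cp' f' g')
    (hf : ∀ t, 0 < t → 0 ≤ f t) (hg : ∀ t, 0 < t → 0 ≤ g t)
    (rp : RampOK lam α β b xs ys T ρ cl cp) (rq : RampOK lam α β b xs' ys T' ρ cl' cp')
    (hb : 0 < b) (hβ : 0 ≤ β)
    (hys : ys ∈ Ioo (1 / 4 : ℝ) 1) (hD : Dx xs ys T ρ + Dx xs' ys T' ρ = 2 * π * b * ρ)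
    (hcl : 0 < cl) (hcp : cp < 1) :
    RP2 b xs ys T ρ cl cp xs' T' cl' cp' f g :=
  RP2.of' P.p P.q.up P.J hf hg rp rq hb hβ hys hD hcl hcp

end

end RC

end Pool.Agent.Work.MP_b30479_gtS.G2

end

section

/-!
# Rings on the level part: entries of the tables without rows for the hinge above

`Kap`: the side of a hinge with small height, given the contribution; `Wd.In.dk`: the entry.
-/

set_option deprecated.oldSectionVars true

namespace Pool.Agent.Work.MP_b30479_gtS.G2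

open Real Set VOL Filter Topology

namespace RC

open Row R6

/-- the side decreases, up to the change of the contribution -/
def Kap (xs ys T ρ cp : ℝ) : Prop := ∀ x y, xs < x → x ≤ cp → 1 / 4 ≤ y → y < ys → Nz x y T ρ →
  Sx x y T ρ + 122 / 100 * (gh x - gh xs) ≤ Sx xs ys T ρ + (Dx x y T ρ - Dx xs ys T ρ)

theorem t27_lt : ta (27 / 100) < 454 / 1000 := by
  have := ta_ltq (n := 27) (d := 100) (m := 454) (e := 1000) (by decide +kernel) (by norm_num)
  norm_num at this ⊢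
  exact this

theorem log_55 : Real.log (172 / 100) < 55 / 100 := by
  rw [Real.log_lt_iff_lt_exp (by norm_num)]
  have h := Real.sum_le_exp_of_nonneg (x := (55 / 100 : ℝ)) (by norm_num) 4
  refine lt_of_lt_of_le ?_ h
  norm_num [Finset.sum_range_succ, Nat.factorial]

section
set_option deprecated.oldSectionVars false
variable {xs ys T ρ cl cp x y : ℝ} {f g : ℝ → ℝ} {tab : List Te} {W : Wd}

theorem gh_sub_lt (hx : x ∈ Ioo (0 : ℝ) 1) (hxs : xs ∈ Ioo (0 : ℝ) 1) (h0 : 17 / 100 ≤ xs)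
    (h1 : x ≤ 27 / 100) : gh x - gh xs < 55 / 100 := by
  have a1 := ta_hi hx (by constructor <;> norm_num) h1 t27_lt
  have a2 := ta_lo hxs (m := 170 / 1000) (by constructor <;> norm_num) (by linarith) t170_gt
  have a3 := ta_pos hx
  have a4 := ta_pos hxs
  have e : ta x = ta xs * Real.exp (gh x - gh xs) := by
    rw [ta_eq_exp hx, ta_eq_exp hxs, ← Real.exp_add]
    congr 1
    ring
  have h3 : Real.exp (gh x - gh xs) < 172 / 100 := by
    by_contra hc
    push Not at hc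
    have : ta xs * (172 / 100) ≤ ta x := by
      rw [e]
      exact mul_le_mul_of_nonneg_left hc a4.le
    linarith
  have h4 := Real.log_lt_log (Real.exp_pos _) h3
  rw [Real.log_exp] at h4
  exact h4.trans log_55

theorem Lb_lt {al m0 : ℕ} (hal : al ≠ 122 ∧ (al - 122) * 550 ≤ al * m0) {m : ℝ} (hm : 0 < m)
    (hm2 : m < 55 / 100) : Lb al m0 m < 122 / 100 * m := by
  unfold Lb
  refine max_lt (by positivity) ?_
  obtain ⟨b1, b2⟩ := hal
  have e : (al : ℝ) / 100 * (m - (m0 : ℝ) / 1000) = (al * m - al * m0 / 1000) / 100 := by ring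
  rw [e, div_lt_iff₀ (by norm_num)]
  have e2 : (122 : ℝ) / 100 * m * 100 = 122 * m := by ring
  rw [e2]
  have b5 : (0 : ℝ) ≤ (al : ℝ) * m0 / 1000 := by positivity
  rcases lt_or_gt_of_ne b1 with b3 | b3
  · have b4 : (al : ℝ) ≤ 121 := by exact_mod_cast (by omega : al ≤ 121)
    have := mul_le_mul_of_nonneg_right b4 hm.le
    linarith
  · have b4 : ((al : ℝ) - 122) * 550 ≤ al * m0 := by
      have : ((al - 122 : ℕ) : ℝ) * 550 ≤ (al : ℝ) * m0 := by exact_mod_cast b2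
      rwa [Nat.cast_sub b3.le] at this
    have b5 : (122 : ℝ) < al := by exact_mod_cast b3
    have b6 := mul_lt_mul_of_pos_left hm2 (sub_pos.2 b5)
    linarith

/-- **An entry for the sides, hinge above by `Kap`.** -/
theorem Wd.In.dk (I : W.In T ρ xs ys) (G : GD xs ys cl cp) {al m0 vs A ya yb yb' : ℕ}
    (hH : vs ≠ 0 → RC.HD xs ys T ρ cl cp) (K : Kap xs ys T ρ cp) (hcp : cp ≤ 27 / 100)
    (h17 : 17 / 100 ≤ xs) (hal : al ≠ 122 ∧ (al - 122) * 550 ≤ al * m0)
    (Rd : W.R (cD false 0 al m0 0 0 0 vs) A W.x1 ya yb')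
    (hy : (Nat.ble yb yb' || Nat.ble W.y1 yb') = true)
    (t : DT xs ys T ρ cl cp (fun _ => 0) (fun _ => 0) tab) (hA : (A : ℝ) / 10000 ≤ cl) :
    DT xs ys T ρ cl cp (fun _ => 0) (fun _ => 0) (⟨ya, yb, al, m0, 0, 0, 0⟩ :: tab) := by
  refine t.cons fun y h1 h2 h3 h4 => ⟨fun x hx hlt hn hN hG _ => ?_, fun x hx hlt hn hN hG hD => ?_⟩
  · have hxi := G.x1 hx
    have hm := sub_pos.2 ((gh_lt G.xi hxi).2 hlt)
    have k := K x y hlt hx.2 h3 h4 hn
    have hm2 := gh_sub_lt hxi G.xi h17 (hx.2.trans hcp)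
    have hL := Lb_lt hal hm hm2
    change Sx x y T ρ < Sx xs ys T ρ + 0
    change Dx x y T ρ ≤ Dx xs ys T ρ + Lb al m0 (gh x - gh xs) at hG
    linarith
  · have hm := (gh_lt (G.x1 hx) G.xi).2 hlt
    have := row_dn (c := cD false 0 al m0 0 0 0 vs W.ws) G hH rfl rfl
      (Rd.at I (hA.trans hx.1) (hlt.le.trans I.x1) h1 (I.yb hy h2 h4)) I.ws hx h3 h4 hlt hn hN hG (by
        intro k1 k2
        change Dx x y T ρ + ((0 : ℕ) : ℝ) / 1000 ≤ _
        rw [Nat.cast_zero, zero_div, add_zero]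
        exact hG)
    change Sx xs ys T ρ < Sx x y T ρ + ((0 : ℕ) : ℝ) / 1000 * (gh xs - gh x) at this
    change Sx xs ys T ρ < Sx x y T ρ + 0
    rw [Nat.cast_zero, zero_div, zero_mul] at this
    exact this

theorem hf0 : ∀ m : ℝ, 0 < m → ((0 : ℕ) : ℝ) / 1000 * m ≤ (fun _ : ℝ => (0 : ℝ)) m := fun m _ => by
  simp
theorem hf38 : ∀ m : ℝ, 0 < m → ((380 : ℕ) : ℝ) / 1000 * m ≤ (fun m : ℝ => 38 / 100 * m) m :=
  fun m _ => by norm_num
theorem hf355 : ∀ m : ℝ, 0 < m → ((355 : ℕ) : ℝ) / 1000 * m ≤ (fun m : ℝ => 355 / 1000 * m) m :=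
  fun m _ => by norm_num
theorem hf50 : ∀ m : ℝ, 0 < m → ((500 : ℕ) : ℝ) / 1000 * m ≤ (fun m : ℝ => 1 / 2 * m) m :=
  fun m _ => by norm_num
theorem hz0 : ∀ m : ℝ, 0 < m → (0 : ℝ) ≤ (fun _ : ℝ => (0 : ℝ)) m := fun _ _ => le_rfl

theorem A16 : ((1600 : ℕ) : ℝ) / 10000 ≤ 16 / 100 := by norm_num
theorem B36 : (36 / 100 : ℝ) ≤ ((3600 : ℕ) : ℝ) / 10000 := by norm_num
theorem A12 : ((1250 : ℕ) : ℝ) / 10000 ≤ 125 / 1000 := by norm_num
theorem A120 : ((1200 : ℕ) : ℝ) / 10000 ≤ 12 / 100 := by norm_num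
theorem A10 : ((1000 : ℕ) : ℝ) / 10000 ≤ 10 / 100 := by norm_num
theorem B30 : (30 / 100 : ℝ) ≤ ((3000 : ℕ) : ℝ) / 10000 := by norm_num
theorem B26 : (26 / 100 : ℝ) ≤ ((2600 : ℕ) : ℝ) / 10000 := by norm_num
theorem B27 : (27 / 100 : ℝ) ≤ ((2700 : ℕ) : ℝ) / 10000 := by norm_num

end

end RC

end Pool.Agent.Work.MP_b30479_gtS.G2

end

section

/-!
# Rings on the level part: rings at an end, zero entries, the ring variable up at `2` at the end
-/

set_option deprecated.oldSectionVars true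

namespace Pool.Agent.Work.MP_b30479_gtS.G2

open Real Set VOL Filter Topology

namespace RC

namespace Row

open NumIs NumIs.E

/-- the polynomial of the condition upwards -/
noncomputable def huf (a B v : ℝ) : ℝ :=
  16 * ((B - a) ^ 2 * (a * B)) -
    v * (((1 - a ^ 2) * (1 - B ^ 2) - 4 * (a * B)) * ((1 + a ^ 2) * (1 + B ^ 2)))

theorem huf_eq (a B v : ℝ) : ff ((a + B) ^ 2) (a * B) v 1 = 2 * huf a B v := by
  unfold ff cm km huf
  ring

theorem ffu_nonneg {a B v : ℝ} (ha : 0 < a) (hB : 0 < B) {w : ℝ} (hv : 0 ≤ v) (hvw : v ≤ w)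
    (h : 0 < huf a B w) : 0 ≤ ff ((a + B) ^ 2) (a * B) v 1 := by
  have h1 : 0 ≤ huf a B v := by
    unfold huf at h ⊢
    set P := ((1 - a ^ 2) * (1 - B ^ 2) - 4 * (a * B)) * ((1 + a ^ 2) * (1 + B ^ 2))
    have h2 : 0 ≤ 16 * ((B - a) ^ 2 * (a * B)) := by positivity
    rcases le_total P 0 with hP | hP
    · have := mul_nonneg hv (sub_nonneg.2 hP)
      nlinarith only [h2, this]
    · have := mul_le_mul_of_nonneg_right hvw hP
      linarith only [h, this]
  rw [huf_eq]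
  linarith only [h1]

/-- variables `x`, `s`; `2 = a`, `3 = B`, `4 = v`, `5 = a²`, `6 = B²` -/
def ehu (w : E) : E := lt (tanE (var 0)) <| lt (tanE (sub (q 1 2) (var 1))) <|
  lt (sq (sinh (mul pi w))) <| lt (sq (var 2)) <| lt (sq (var 3)) <|
  sub (mul (q 16 1) (mul (sq (sub (var 3) (var 2))) (mul (var 2) (var 3))))
   (mul (var 4) (mul (sub (mul (sub one (var 5)) (sub one (var 6)))
      (mul four (mul (var 2) (var 3)))) (mul (add one (var 5)) (add one (var 6)))))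

theorem ehu_val (x s : ℝ) (n : ℤ) (d : ℕ) : (ehu (q n d)).val [x, s] =
    huf (ta x) (ta (1 / 2 - s)) (shq (n / d)) := by
  simp only [ehu, tanE, dv, one, four, E.val, lkR_zero, lkR_succ, List.cons_append,
    List.nil_append, huf]
  push_cast
  rw [ta_div, ta_div]
  unfold shq
  ring

/-- the list of a row -/
def hul (c1 q1 : ℤ) : List E := [ehu (q q1 10000), sub (add (var 0) (var 1)) (q c1 10000)]

theorem cU4 : chk (hul 3940 1702) 14 [V.of 10000 1683 1886, V.of 10000 1679 2118] = true := by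
  decide +kernel
theorem cU42 : chk (hul 3930 1270) 14 [V.of 10000 1590 1750, V.of 10000 2100 2260] = true := by
  decide +kernel

end Row

open Row R6

section
set_option deprecated.oldSectionVars false
variable {xs ys T ρ cl cp x y : ℝ} {f g : ℝ → ℝ} {tab tab' : List Te} {W : Wd}

/-- the ring variable up more than the hinge -/
theorem GD.upU (g : GD xs ys cl cp) (hf : 0 ≤ ff ((ta xs + ta ys) ^ 2) (ta xs * ta ys) (shq (T - ρ)) 1)
    (ha : 158 / 1000 ≤ ta cl)
    (hv : shq (T - ρ) ≤ 45 / 100) : ∀ x y, x ∈ Icc cl cp → ys < y → y ≤ 1 / 2 →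
    |gh x - gh xs| < gh y - gh ys → Dx x y T ρ < Dx xs ys T ρ := by
  intro x y hx h1 h2 hN
  have hxi := g.x1 hx
  have hyi : y ∈ Ioo (0 : ℝ) 1 := ⟨by linarith only [h1, g, g.y4], by linarith only [h2]⟩
  have hax := ta_pos g.xi
  have hay := ta_pos g.yi
  have h8 := t8_le g.yi g.y4
  have hx1 := (ta_le' g.cli g.xi).2 g.xl
  have hN' := abs_lt.1 hN
  have hxy : x + y < 1 := by linarith only [h2, hx, g, hx.2, g.cp2]
  have hP : (158 / 1000 : ℝ) * (4142 / 10000) ≤ ta xs * ta ys :=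
    mul_le_mul (ha.trans hx1) h8.le (by norm_num) hax.le
  refine zup g.xi g.yi hxi hyi g.hs h2 hN (by linarith only [hv, hP]) ?_
  have h3 : ta xs * ta ys < ta x * ta y := (ta_mul_lt g.xi g.yi hxi hyi).2 (by linarith only [hN'])
  have h4 := (ta_lt' g.xi g.yi).2 g.hs
  have hp0 : 0 < ta xs * ta ys := mul_pos hax hay
  have hxy1 := (add_lt_iff hxi hyi).2 hxy
  have h5 : ta xs * ta ys < 1 := h3.trans hxy1
  refine ff_pos hp0 ?_ (shq_nonneg _) zero_le_one ?_ ?_ hf
  · nlinarith only [h4, mul_pos (sub_pos.2 h4) (sub_pos.2 h4)]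
  · rwa [one_lt_div hp0]
  · have e : ta x * ta y / (ta xs * ta ys) * 1 * (ta xs * ta ys) ^ 2 =
        ta x * ta y * (ta xs * ta ys) := by
      field_simp
    rw [e]
    have := mul_lt_mul_of_pos_right hxy1 hp0
    linarith only [h3, hxy1, this]

/-- the ring variable up more than the hinge, by a certificate -/
theorem GD.upc (g : GD xs ys (125 / 1000) (30 / 100)) {c q X0 X1 S0 S1 : ℤ} {n : ℕ}
    (C : NumIs.chk (hul c q) n [NumIs.V.of 10000 X0 X1, NumIs.V.of 10000 S0 S1] = true)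
    (h0 : (X0 : ℝ) / 10000 ≤ xs) (h1 : xs ≤ X1 / 10000) (h2 : (S0 : ℝ) / 10000 ≤ 1 / 2 - ys)
    (h3 : 1 / 2 - ys ≤ S1 / 10000) (h4 : xs + (1 / 2 - ys) ≤ c / 10000)
    (h5 : |T - ρ| ≤ q / 10000) (hq : q ≤ 2000) :
    ∀ x y, x ∈ Icc (125 / 1000 : ℝ) (30 / 100) → ys < y → y ≤ 1 / 2 →
    |gh x - gh xs| < gh y - gh ys → Dx x y T ρ < Dx xs ys T ρ := by
  have k : 0 ≤ ff ((ta xs + ta ys) ^ 2) (ta xs * ta ys) (shq (T - ρ)) 1 := by
    obtain ⟨e, he, hp⟩ := NumIs.chk2 C (by norm_num) (x := xs) (y := 1 / 2 - ys)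
      (by push_cast; linarith only [h0]) (by push_cast; linarith only [h1]) (by push_cast; linarith only [h2])
      (by push_cast; linarith only [h3])
    have ey : 1 / 2 - (1 / 2 - ys) = ys := by ring
    simp only [hul, List.mem_cons, List.not_mem_nil, or_false] at he
    rcases he with rfl | rfl
    · rw [ehu_val, ey] at hp
      refine ffu_nonneg (ta_pos g.xi) (ta_pos g.yi) (shq_nonneg _) (shq_mono ?_) hp
      push_cast
      rw [abs_of_nonneg (a := (q : ℝ) / 10000) ((abs_nonneg _).trans h5)]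
      exact h5
    · exfalso
      simp only [NumIs.E.val, NumIs.lkR_zero, NumIs.lkR_one] at hp
      push_cast at hp
      linarith only [h4, hp]
  refine g.upU k ?_ ?_
  · have := ta_lo g.cli (m := 1 / 8) (by constructor <;> norm_num) (by norm_num) t125_gt
    linarith only [this]
  · have : (q : ℝ) ≤ 2000 := by exact_mod_cast hq
    exact shq200 (h5.trans (by linarith only [this]))

/-- **Kappa for hinges with small height.** -/
theorem Kap.of (h0 : 17 / 100 ≤ xs) (hc : cp ≤ 27 / 100) (h2 : ys ≤ 1 / 2)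
    (hs : xs + (1 / 2 - ys) ≤ 48 / 100) (hT : |T| ≤ 47 / 1000) : Kap xs ys T ρ cp :=
  fun x y h1 h3 h4 h5 hn => kap_one h0 h1.le (h3.trans hc) (by linarith only [h0, hc, h1, h3, h4]) h5 h2 (by linarith only [hc, hs, h3, h4]) hT hn
    (by linarith only [h0, hc, hs, h1, h3])

/-- the table starts later -/
theorem Wd.In.qtz (I : W.In T ρ xs ys) (G : GD xs ys cl cp) {al m0 vs A B ya yb ya' yb' : ℕ}
    (hH : vs ≠ 0 → RC.HD xs ys T ρ cl cp)
    (Ru : W.R (cQ true al m0 vs) W.x0 B ya' yb') (Rd : W.R (cQ false al m0 vs) A W.x1 ya' yb')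
    (hya : ya' ≤ ya) (hy : (Nat.ble yb yb' || Nat.ble W.y1 yb') = true)
    (t : QT xs ys T ρ cl cp tab)
    (hA : (A : ℝ) / 10000 ≤ cl) (hB : cp ≤ (B : ℝ) / 10000) :
    QT xs ys T ρ cl cp (⟨ya, yb, al, m0, 0, 0, 0⟩ :: tab) :=
  t.cons fun _ h1 h2 h3 h4 => I.QB G hH Ru Rd hA hB
    (le_trans (by have : (ya' : ℝ) ≤ ya := by exact_mod_cast hya
                  linarith only [this]) h1) (I.yb hy h2 h4) h3 h4

/-- a zero entry for the sides from rows of the contribution, the table starts later -/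
theorem Wd.In.dtz (I : W.In T ρ xs ys) (G : GD xs ys cl cp) {f g : ℝ → ℝ}
    {vs dl m1 n1 A B ya yb ya' yb' : ℕ} (hH : vs ≠ 0 → RC.HD xs ys T ρ cl cp)
    (Ru : W.R (cQ true 0 0 vs) W.x0 B ya' yb') (Rd : W.R (cQ false 0 0 vs) A W.x1 ya' yb')
    (hya : ya' ≤ ya) (hy : (Nat.ble yb yb' || Nat.ble W.y1 yb') = true)
    (t : DT xs ys T ρ cl cp f g tab)
    (hA : (A : ℝ) / 10000 ≤ cl) (hB : cp ≤ (B : ℝ) / 10000) :
    DT xs ys T ρ cl cp f g (⟨ya, yb, 0, 0, dl, m1, n1⟩ :: tab) := by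
  refine t.cons fun y h1 h2 h3 h4 => ?_
  have := I.QB G hH Ru Rd hA hB
    (le_trans (by have : (ya' : ℝ) ≤ ya := by exact_mod_cast hya
                  linarith only [this]) h1) (I.yb hy h2 h4) h3 h4
  change RC.DS xs ys T ρ cl cp f g (Lb 0 0) _ _ _ y
  rw [Lb_00] at this ⊢
  exact this.toDS G.xi G.cl0 (by linarith only [G, G.cp2])

end

/-- the statements for the hinge of a ring at an end -/
structure En (xs ys T ρ cl cp : ℝ) (f g : ℝ → ℝ) : Prop where
  p : LF xs ys T ρ cl cp f g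
  d : ∀ y, 1 / 4 ≤ y → y < ys → DS xs ys T ρ cl cp f g (fun _ => 0) 0 0 0 y
  l : LI xs ys T ρ

section
set_option deprecated.oldSectionVars false
variable {xs ys T ρ cl cp b : ℝ} {f g : ℝ → ℝ} {tab tab' : List Te}

theorem En.of (p : LF xs ys T ρ cl cp f g) (d : DT xs ys T ρ cl cp f g tab)
    (q : QT xs ys T ρ cl cp tab') (c : cov 2500 tab = true)
    (h0 : (tab.all fun e => e.al == 0 && e.dl == 0 && e.m1 == 0 && e.n1 == 0) = true)
    (c' : cov 2500 tab' = true) (hys : ys ∈ Ioc (1 / 4 : ℝ) (1 / 2)) (hx : xs ∈ Icc cl cp) :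
    En xs ys T ρ cl cp f g :=
  ⟨p, d.zero c h0 hys.2, LI.of_tab p.up q c' hx hys⟩

/-- no exceptions -/
theorem En.of_lo (l : LH xs ys T ρ cl cp) (d : DnG xs T cl cp ys ρ)
    (hys : ys ∈ Ioc (1 / 4 : ℝ) (1 / 2)) (hx : xs ∈ Icc cl cp) (hc : 0 < cl) (hp : cp < 1)
    (hf : ∀ m, 0 < m → 0 ≤ f m) (hg : ∀ m, 0 < m → 0 ≤ g m) :
    En xs ys T ρ cl cp f g :=
  ⟨l.toF hf hg hc hp, fun _ h1 h2 => (DnG.QB (m1 := 0) (n1 := 0) d h1 h2).toDS l.hx hc hp,
    LI.of l d hx hys⟩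

theorem En.RP1 (P : En xs ys T ρ cl cp f g)
    (hf : ∀ t, 0 < t → 0 ≤ f t) (hg : ∀ t, 0 < t → 0 ≤ g t)
    (rp : RampOK1 b xs ys T ρ cl cp) (hys : ys ∈ Ioo (1 / 4 : ℝ) 1)
    (hD : Dx xs ys T ρ = 2 * π * b * ρ) (hcl : 0 < cl) (hcp : cp < 1) :
    RP1 b xs ys T ρ cl cp f g :=
  RP1.of' P.p P.d hf hg rp hys hD hcl hcp

end

end RC

end Pool.Agent.Work.MP_b30479_gtS.G2

end
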