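import Pool.Agent.Work.MP_b30479_gt.TBS.G2.RPush
import Pool.Agent.Work.MP_b30479_gt.TBS.G2.RKind
import Pool.Agent.Work.MP_b30479_gt.TBS.G2.WExcZ

section

/-!
# The level part of the rings in a word: the hinges without exceptions
-/

namespace Pool.Agent.Work.MP_b30479_gtS.G2

open Finset VOL Filter Topology

namespace SR

variable {M : ℕ} {b : Fin (M + 1) → ℤ} {zs : DD (tyW b) ⊕ ZZ (tyW b) → ℂ}
variable {y : DD (tyW b) ⊕ ZZ (tyW b) → ℝ}
variable {h h' : Fin M} {i j j' : Fin (M + 1)} {p : Fin 3} {v : ZZ (tyW b)}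

theorem t171_gt : (275 : ℝ) / 1000 < RC.ta (171 / 1000) := by
  have := RC.Row.ta_gt (n := 171) (d := 1000) (m := 275) (e := 1000) (by decide +kernel) (by norm_num)
  norm_num at this ⊢
  exact this

theorem t47_lt : RC.ta (47 / 100) < (92 : ℝ) / 100 := by
  have := RC.Row.ta_ltq (n := 47) (d := 100) (m := 92) (e := 100) (by decide +kernel) (by norm_num)
  norm_num at this ⊢
  exact this

theorem kap2e {xs s : ℝ} (x0 : 164 / 1000 ≤ xs) (x1 : xs ≤ 186 / 1000) (s0 : 0 ≤ s)
    (s1 : s ≤ 1885 / 10000) (hk : 3 / 100 ≤ s ∨ 171 / 1000 ≤ xs) :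
    275 / 1000 * RC.ta (1 / 2 - s) ≤ RC.ta xs := by
  have hxi : xs ∈ Set.Ioo (0 : ℝ) 1 := ⟨by linarith only [x0], by linarith only [x1]⟩
  have hyi : 1 / 2 - s ∈ Set.Ioo (0 : ℝ) 1 := ⟨by linarith only [s1], by linarith only [s0]⟩
  rcases hk with hk | hk
  · have h1 := RC.ta_hi (m := 47 / 100) hyi (by constructor <;> norm_num) (by linarith only [hk]) t47_lt
    have h2 := RC.ta_lo hxi (by constructor <;> norm_num) x0 RC.Row.t164_gt
    linarith only [h1, h2]
  · have h1 := RC.ta_le_one hyi (by linarith only [s0])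
    have h2 := RC.ta_lo hxi (by constructor <;> norm_num) hk t171_gt
    linarith only [h1, h2]

/-- **Level part of the hinges `ring | ring`, `ring | 3`, `ring | 2`, `ring | 2` at an end.** -/
theorem Adj.lv_lo (A : Adj h i p j) (hb : ClassW b) (hL : Loc b zs)
    (hR : LocR b zs) (hG : LocRg b zs) (hc : clsW b i = .ring) (hv : v.1 = i)
    (hj : clsW b j ≠ .one) (hE : clsW b j = .twoE → 5 ≤ (b i).natAbs)
    (hρ : (b i).natAbs = 4 → 4 / 1000 ≤ (zs (.inr v)).im) :
    RC.LH (zs (.inl (.inl h))).re (1 / 2 + ofs (b i) (zs (.inr v)).re)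
      (ofs (b i) (zs (.inl (.inl h))).im) (zs (.inr v)).im (fcl (clsW b j)) (fcp (clsW b j)) ∧
    RC.DnG (zs (.inl (.inl h))).re (ofs (b i) (zs (.inl (.inl h))).im) (fcl (clsW b j))
      (fcp (clsW b j)) (1 / 2 + ofs (b i) (zs (.inr v)).re) (zs (.inr v)).im := by
  have h4 := ring_four hb (tyW_of_ring hb hc)
  obtain ⟨b0, b1, hpos, b2⟩ := ring_box hL v
  have s0 : ofs (b i) (zs (.inr v)).re ≤ 0 := by
    rw [hv] at b1
    refine b1.trans ?_
    unfold zbox
    split_ifs <;> norm_num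
  have rr := (ring_cap hb hL v).1
  obtain ⟨x0, x1, t0, t1⟩ := A.box hb hL
  rw [hc] at x0 x1 t0 t1
  by_cases hj2 : clsW b j = .ring
  · -- ring
    have W := hG.three v hv A hc (Or.inr (Or.inr hj2))
    have Ws := W.s
    have Wq := W.q
    have Wqs := W.qs
    have Wc := W.c
    simp only [ofr_re, ofr_im, ofz_re, ofz_im] at Ws Wq Wqs Wc
    obtain ⟨T4, T5⟩ := hR.rr A hc hj2
    have hTr : ofs (b i) (zs (.inl (.inl h))).im - (zs (.inr v)).im ≤ 52 / 1000 := by
      rcases h4.eq_or_lt with h5 | h5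
      · have := hρ h5.symm
        linarith only [T4, this]
      · have := T5 h5
        linarith only [hpos, T4, this]
    have hlo : -(385 / 10000) ≤ ofs (b i) (zs (.inl (.inl h))).im := by
      refine le_trans ?_ t0
      rw [hj2]
      generalize ssW b h = e
      cases e <;> simp only [hbox] <;> norm_num
    have hx0 : 170 / 1000 ≤ (zs (.inl (.inl h))).re := by
      refine le_trans ?_ x0
      rw [hj2]
      generalize ssW b h = e
      cases e <;> simp only [hbox] <;> norm_num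
    have hx1 : (zs (.inl (.inl h))).re ≤ 252 / 1000 := by
      refine x1.trans ?_
      rw [hj2]
      generalize ssW b h = e
      cases e <;> simp only [hbox] <;> norm_num
    rw [hj2]
    simp only [fcl, fcp]
    refine RC.cls3 ⟨by norm_num, by norm_num, by linarith only [hpos, rr, hx0], by linarith only [hpos, rr, hx1], by linarith only [hpos, rr, Wc], by linarith only [hpos, rr, Ws],
      by linarith only [s0]⟩ (by norm_num) (by norm_num) hx0 hx1 (by linarith only [Ws]) (by linarith only [Wc])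
      (abs_le.2 ⟨by linarith only [hpos, Wq, hlo], by linarith only [hpos, rr, T4]⟩) (abs_le.2 ⟨by linarith only [hpos, rr, Wq], by linarith only [hpos, rr, T4]⟩)
      (abs_le.2 ⟨by linarith only [Wq], by linarith only [hpos, rr, T4]⟩) (abs_le.2 ⟨by linarith only [Wqs], by linarith only [hpos, Ws, T4, hTr]⟩)
  · have hop := A.opp hb (Or.inr hj2)
    rw [A.ss hop] at x0 x1 t0 t1
    generalize hC : clsW b j = C at *
    cases C
    · exact absurd rfl hj
    · have W := hG.two v hv A hc hC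
      have Ws := W.s
      have Wq := W.q
      have Wqs := W.qs
      have Wc := W.c
      simp only [ofr_re, ofr_im, ofz_re, ofz_im] at Ws Wq Wqs Wc
      simp only [hbox] at x0 x1 t0 t1
      simp only [fcl, fcp]
      exact RC.cls2 ⟨by norm_num, by norm_num, by linarith only [x0], by linarith only [x1], by linarith only [x1, Ws], by linarith only [Ws],
        by linarith only [s0]⟩ (by norm_num) (by norm_num) x0 x1 (by linarith only [Ws]) (by linarith only [Wc]) (by linarith only [hpos, rr, t1])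
        (by linarith only [hpos, t0, Wq]) hpos.le (by linarith only [hpos, rr, t1]) (by linarith only [Wq]) (by linarith only [Wqs])
    · have W := hG.twoE5 v hv A (hE rfl) hC
      have Ws := W.s
      have Wq := W.q
      have Wqs := W.qs
      have Wc := W.c
      have Wk := W.kap
      simp only [ofr_re, ofr_im, ofz_re, ofz_im] at Ws Wq Wqs Wc Wk
      simp only [hbox] at x0 x1 t0 t1
      simp only [fcl, fcp]
      have hk := kap2e (s := -ofs (b i) (zs (.inr v)).re) x0 x1 (by linarith only [s0]) (by linarith only [Ws]) Wk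
      rw [sub_neg_eq_add] at hk
      exact RC.cls2e ⟨by norm_num, by norm_num, by linarith only [x0], by linarith only [x1], by linarith only [x1, Ws], by linarith only [Ws],
        by linarith only [s0]⟩ (by norm_num) (by norm_num) x0 x1 (by linarith only [Ws]) (by linarith only [Wc]) (by linarith only [hpos, rr, t1])
        (by linarith only [t0]) hpos.le (by linarith only [hpos, rr, t1]) (by linarith only [Wq]) (by linarith only [Wqs]) hk
    · have W := hG.three v hv A hc (Or.inl hC)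
      have Ws := W.s
      have Wq := W.q
      have Wqs := W.qs
      have Wc := W.c
      simp only [ofr_re, ofr_im, ofz_re, ofz_im] at Ws Wq Wqs Wc
      simp only [hbox] at x0 x1 t0 t1
      simp only [fcl, fcp]
      exact RC.cls3 ⟨by norm_num, by norm_num, by linarith only [x0], by linarith only [x1], by linarith only [x1, Ws], by linarith only [Ws],
        by linarith only [s0]⟩ (by norm_num) (by norm_num) (by linarith only [x0]) (by linarith only [x1]) (by linarith only [Ws])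
        (by linarith only [Wc])
        (abs_le.2 ⟨by linarith only [hpos, t0, Wq], by linarith only [hpos, rr, t1]⟩) (abs_le.2 ⟨by linarith only [hpos, Wq], by linarith only [hpos, rr, t1]⟩)
        (abs_le.2 ⟨by linarith only [Wq], by linarith only [hpos, rr, t1]⟩) (abs_le.2 ⟨by linarith only [Wqs], by linarith only [hpos, rr, t1, Ws]⟩)
    · have W := hG.three v hv A hc (Or.inr (Or.inl hC))
      have Ws := W.s
      have Wq := W.q
      have Wqs := W.qs
      have Wc := W.c
      simp only [ofr_re, ofr_im, ofz_re, ofz_im] at Ws Wq Wqs Wc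
      simp only [hbox] at x0 x1 t0 t1
      simp only [fcl, fcp]
      exact RC.cls3 ⟨by norm_num, by norm_num, by linarith only [x0], by linarith only [x1], by linarith only [x1, Ws], by linarith only [Ws],
        by linarith only [s0]⟩ (by norm_num) (by norm_num) (by linarith only [x0]) (by linarith only [x1]) (by linarith only [Ws])
        (by linarith only [x1, Ws])
        (abs_le.2 ⟨by linarith only [hpos, t0, Wq], by linarith only [hpos, rr, t1]⟩) (abs_le.2 ⟨by linarith only [hpos, Wq], by linarith only [hpos, rr, t1]⟩)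
        (abs_le.2 ⟨by linarith only [Wq], by linarith only [hpos, rr, t1]⟩) (abs_le.2 ⟨by linarith only [Wqs], by linarith only [hpos, rr, t1, Ws]⟩)
    · exact absurd rfl hj2

end SR

end Pool.Agent.Work.MP_b30479_gtS.G2

end

section

/-!
# The push of the rings in a word: hinges without exceptions
-/

namespace Pool.Agent.Work.MP_b30479_gtS.G2

open Finset VOL Filter Topology

namespace SR

variable {M : ℕ} {b : Fin (M + 1) → ℤ} {zs : DD (tyW b) ⊕ ZZ (tyW b) → ℂ}
variable {y : DD (tyW b) ⊕ ZZ (tyW b) → ℝ}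
variable {h h' : Fin M} {i j j' : Fin (M + 1)} {p : Fin 3} {v : ZZ (tyW b)}

theorem Adj.fcl_le (A : Adj h i p j) (hc : clsW b i = .ring) : fcl (clsW b j) ≤ wcl b h := by
  rw [A.cl_eq b, hc]
  unfold hpp
  generalize clsW b j = B
  split_ifs <;> cases B <;> (simp [fcl, hp, hp1]; try norm_num)

/-- the ramp part of the rings with four crossings -/
structure Ramp4 (b : Fin (M + 1) → ℤ) (zs : DD (tyW b) ⊕ ZZ (tyW b) → ℂ) : Prop where
  int : ∀ {h : Fin M} {i j : Fin (M + 1)} {p : Fin 3} (v : ZZ (tyW b)), v.1 = i → Adj h i p j →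
    clsW b i = .ring → (b i).natAbs = 4 → isEnd i = false →
    RC.RampOK (rlam 4) (ralp 4 (-ofs (b i) (zs (.inr v)).re))
      (rbet 4 (-ofs (b i) (zs (.inr v)).re)) 4
      (zs (.inl (.inl h))).re (1 / 2 + ofs (b i) (zs (.inr v)).re)
      (ofs (b i) (zs (.inl (.inl h))).im) (zs (.inr v)).im (fcl (clsW b j)) (fcp (clsW b j))
  en : ∀ {h : Fin M} {i j : Fin (M + 1)} {p : Fin 3} (v : ZZ (tyW b)), v.1 = i → Adj h i p j →
    clsW b i = .ring → (b i).natAbs = 4 → isEnd i = true → clsW b j ≠ .twoE →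
    RC.RampOK1 4 (zs (.inl (.inl h))).re (1 / 2 + ofs (b i) (zs (.inr v)).re)
      (ofs (b i) (zs (.inl (.inl h))).im) (zs (.inr v)).im (fcl (clsW b j)) (fcp (clsW b j))
  rho : ∀ v : ZZ (tyW b), (b v.1).natAbs = 4 → 4 / 1000 ≤ (zs (.inr v)).im

/-- everything used about the location of the saddle point at the rings -/
structure RLoc (b : Fin (M + 1) → ℤ) (zs : DD (tyW b) ⊕ ZZ (tyW b) → ℂ) : Prop where
  hb : ClassW b
  hL : Loc b zs
  hC : Crit b zs
  hX : LocX b zs
  hR : LocR b zs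
  hG : LocRg b zs
  R5 : Rows5
  R4 : Ramp4 b zs

theorem RLoc.int (H : RLoc b zs) (A : Adj h i p j) (hc : clsW b i = .ring) (hv : v.1 = i)
    (he : isEnd i = false) :
    RC.RampOK (rlam (b i).natAbs) (ralp (b i).natAbs (-ofs (b i) (zs (.inr v)).re))
      (rbet (b i).natAbs (-ofs (b i) (zs (.inr v)).re)) ((b i).natAbs : ℝ)
      (zs (.inl (.inl h))).re (1 / 2 + ofs (b i) (zs (.inr v)).re)
      (ofs (b i) (zs (.inl (.inl h))).im) (zs (.inr v)).im (fcl (clsW b j)) (fcp (clsW b j)) := by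
  rcases (ring_four H.hb (tyW_of_ring H.hb hc)).eq_or_lt with h4 | h5
  · rw [← h4]
    push_cast
    exact H.R4.int v hv A hc h4.symm he
  · exact A.rampI5 H.R5 H.hb H.hL H.hX H.hR H.hG hc hv h5 he

theorem RLoc.en (H : RLoc b zs) (A : Adj h i p j) (hc : clsW b i = .ring) (hv : v.1 = i)
    (he : isEnd i = true) (h2 : clsW b j = .twoE → 5 ≤ (b i).natAbs) :
    RC.RampOK1 ((b i).natAbs : ℝ)
      (zs (.inl (.inl h))).re (1 / 2 + ofs (b i) (zs (.inr v)).re)
      (ofs (b i) (zs (.inl (.inl h))).im) (zs (.inr v)).im (fcl (clsW b j)) (fcp (clsW b j)) := by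
  rcases (ring_four H.hb (tyW_of_ring H.hb hc)).eq_or_lt with h4 | h5
  · rw [← h4]
    push_cast
    exact H.R4.en v hv A hc h4.symm he fun h3 => absurd (h2 h3) (by omega)
  · exact A.rampE5 H.R5 H.hb H.hL H.hC H.hX H.hR H.hG hc hv h5 he

/-- a ring variable is at distance less than `1/4` -/
theorem RLoc.ys (H : RLoc b zs) (ua1 : Adj h i p j) (ua2 : clsW b i = .ring) (hv : v.1 = i) :
    1 / 2 + ofs (b i) (zs (.inr v)).re ∈ Set.Ioc (1 / 4 : ℝ) (1 / 2) := by
  obtain ⟨b0, b1, -, -⟩ := ring_box H.hL v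
  rw [hv] at b0 b1
  constructor
  · refine lt_of_lt_of_le ?_ (add_le_add_right b0 _)
    unfold zbox
    split_ifs <;> norm_num
  · refine le_trans (add_le_add_right b1 _) ?_
    unfold zbox
    split_ifs <;> norm_num

/-- caps of the hinges of the rings -/
def Capped (b : Fin (M + 1) → ℤ) (y : DD (tyW b) ⊕ ZZ (tyW b) → ℝ) : Prop :=
  ∀ {h : Fin M} {i j : Fin (M + 1)} {p : Fin 3}, Adj h i p j → clsW b i = .ring →
    y (.inl (.inl h)) ≤ fcp (clsW b j)

theorem Adj.in_flat (A : Adj h i p j) (hc : clsW b i = .ring) (hf : Flat b y) (hK : Capped b y) :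
    y (.inl (.inl h)) ∈ Set.Icc (fcl (clsW b j)) (fcp (clsW b j)) :=
  ⟨(A.fcl_le hc).trans (hf h).1, hK A hc⟩

theorem fcl_pos' (C : Cl) : 0 < fcl C := by linarith only [fcl_pos C]
theorem fcp_lt' (C : Cl) : fcp C < 1 / 2 := by linarith only [fcp_lt C]

theorem RLoc.lv (H : RLoc b zs) (A : Adj h i p j) (hc : clsW b i = .ring) (hv : v.1 = i)
    (hj : clsW b j ≠ .one) (hE : clsW b j = .twoE → 5 ≤ (b i).natAbs) :
    RC.LH (zs (.inl (.inl h))).re (1 / 2 + ofs (b i) (zs (.inr v)).re)
      (ofs (b i) (zs (.inl (.inl h))).im) (zs (.inr v)).im (fcl (clsW b j)) (fcp (clsW b j)) ∧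
    RC.DnG (zs (.inl (.inl h))).re (ofs (b i) (zs (.inl (.inl h))).im) (fcl (clsW b j))
      (fcp (clsW b j)) (1 / 2 + ofs (b i) (zs (.inr v)).re) (zs (.inr v)).im :=
  A.lv_lo H.hb H.hL H.hR H.hG hc hv hj hE fun h4 => H.R4.rho v (by rw [hv]; exact h4)

/-- **The push of an interior ring, no digit `1` next to it.** -/
theorem RLoc.push2 (H : RLoc b zs) (A : Adj h i p j) (A' : Adj h' i p.rev j') (hy : Mx b zs y)
    (hf : Flat b y) (hc : clsW b i = .ring) (R : RingSt b zs y) (hv : v.1 = i)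
    (hK : Capped b y) (he : isEnd i = false) (hj : clsW b j ≠ .one)
    (hE : clsW b j = .twoE → 5 ≤ (b i).natAbs) (hj' : clsW b j' ≠ .one)
    (hE' : clsW b j' = .twoE → 5 ≤ (b i).natAbs) :
    Push' (tyW b) b i p p.rev (Xw b zs y i) (xx (tyW b) i zs) := by
  obtain ⟨l1, d1⟩ := H.lv A hc hv hj hE
  obtain ⟨l2, d2⟩ := H.lv A' hc hv hj' hE'
  have hys := H.ys A hc hv
  have h4 : (0 : ℝ) < ((b i).natAbs : ℝ) := by
    have := ring_four H.hb (tyW_of_ring H.hb hc)
    exact_mod_cast (show 0 < (b i).natAbs by omega)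
  exact PushQ.push' (A.push_ring2 A' H.hb H.hL hy hf hc R hv
    (RC.RP2.of l1 l2 (d1.ok d2) (H.int A hc hv he) (H.int A' hc hv he) h4
      (rbet_nonneg _ _) ⟨hys.1, by linarith only [hys, hys.2]⟩ (A.ring_crit2 A' H.hC hv) (fcl_pos' _)
      (by linarith only [fcp_lt' (clsW b j)])) (A.in_flat hc hf hK) (A'.in_flat hc hf hK) (fcl_pos' _)
      (fcl_pos' _) (fcp_lt' _) (fcp_lt' _))

/-- **The push of a ring at an end, no digit `1` next to it.** -/
theorem RLoc.push1 (H : RLoc b zs) (A : Adj h i p j) (hy : Mx b zs y)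
    (hf : Flat b y) (hc : clsW b i = .ring) (R : RingSt b zs y) (hv : v.1 = i)
    (hK : Capped b y) (he : isEnd i = true) (hj : clsW b j ≠ .one)
    (hE : clsW b j = .twoE → 5 ≤ (b i).natAbs) :
    Push' (tyW b) b i p p.rev (Xw b zs y i) (xx (tyW b) i zs) := by
  obtain ⟨l1, d1⟩ := H.lv A hc hv hj hE
  have hys := H.ys A hc hv
  exact PushQ.push' (A.push_ring1 he H.hb H.hL hy hf hc R hv
    (RC.RP1.of l1 d1.ok1 (H.en A hc hv he hE) ⟨hys.1, by linarith only [hys, hys.2]⟩
      (A.ring_crit1 he H.hC hv) (fcl_pos' _) (by linarith only [fcp_lt' (clsW b j)]))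
    (A.in_flat hc hf hK) (fcl_pos' _) (fcp_lt' _))

/-- the saddle point is in the flat part -/
theorem RLoc.xs_flat (H : RLoc b zs) (A : Adj h i p j) (hc : clsW b i = .ring) :
    (zs (.inl (.inl h))).re ∈ Set.Icc (fcl (clsW b j)) (fcp (clsW b j)) := by
  obtain ⟨x0, x1, -, -⟩ := A.box H.hb H.hL
  rw [hc] at x0 x1
  refine ⟨le_trans ?_ x0, x1.trans ?_⟩ <;> generalize clsW b j = B <;> generalize ssW b h = e <;>
    cases B <;> cases e <;> norm_num [hbox, fcl, fcp]

/-- **Inner statement, interior ring, no digit `1` next to it.** -/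
theorem RLoc.in2 (H : RLoc b zs) (A : Adj h i p j) (A' : Adj h' i p.rev j') (hy : Mx b zs y)
    (hf : Flat b y) (hc : clsW b i = .ring) (R : RingSt b zs y) (hv : v.1 = i)
    (he : isEnd i = false) (hj : clsW b j ≠ .one)
    (hE : clsW b j = .twoE → 5 ≤ (b i).natAbs) (hj' : clsW b j' ≠ .one)
    (hE' : clsW b j' = .twoE → 5 ≤ (b i).natAbs)
    (e : y (.inl (.inl h)) = (zs (.inl (.inl h))).re)
    (e' : y (.inl (.inl h')) = (zs (.inl (.inl h'))).re) : y (.inr v) = (zs (.inr v)).re := by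
  obtain ⟨l1, d1⟩ := H.lv A hc hv hj hE
  obtain ⟨l2, d2⟩ := H.lv A' hc hv hj' hE'
  have hys := H.ys A hc hv
  have f1 := H.xs_flat A hc
  have f2 := H.xs_flat A' hc
  exact A.in_ring2 A' H.hb H.hL H.hC hy hf hc R hv (RC.LI.of l1 d1 f1 hys) (RC.LI.of l2 d2 f2 hys)
    (H.int A hc hv he) (H.int A' hc hv he) (ralp_pos _ _) hys.1 f1 f2 (fcl_pos' _) (fcl_pos' _)
    (fcp_lt' _) (fcp_lt' _) e e'

/-- **Inner statement, ring at an end, no digit `1` next to it.** -/
theorem RLoc.in1 (H : RLoc b zs) (A : Adj h i p j) (hy : Mx b zs y)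
    (hf : Flat b y) (hc : clsW b i = .ring) (R : RingSt b zs y) (hv : v.1 = i)
    (he : isEnd i = true) (hj : clsW b j ≠ .one)
    (hE : clsW b j = .twoE → 5 ≤ (b i).natAbs)
    (e : y (.inl (.inl h)) = (zs (.inl (.inl h))).re) : y (.inr v) = (zs (.inr v)).re := by
  obtain ⟨l1, d1⟩ := H.lv A hc hv hj hE
  have hys := H.ys A hc hv
  have f1 := H.xs_flat A hc
  exact A.in_ring1 he H.hb H.hL H.hC hy hf hc R hv (RC.LI.of l1 d1 f1 hys)
    (H.en A hc hv he hE) hys.1 f1 (fcl_pos' _) (fcp_lt' _) e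

/-- a region has a hinge, or it is the only region -/
theorem exists_adj (i : Fin (M + 1)) : (∃ (h : Fin M) (p : Fin 3) (j : Fin (M + 1)), Adj h i p j) ∨
    (i = 0 ∧ i = Fin.last M) := by
  by_cases h0 : i = 0
  · by_cases h1 : i = Fin.last M
    · exact Or.inr ⟨h0, h1⟩
    · obtain ⟨k, hk⟩ := Fin.eq_castSucc_of_ne_last h1
      left
      refine ⟨k, 2, k.succ, ?_⟩
      rw [← hk]
      exact .l
  · obtain ⟨k, hk⟩ := Fin.eq_succ_of_ne_zero h0
    left
    refine ⟨k, 0, k.castSucc, ?_⟩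
    rw [hk]
    exact .r

/-- a ring has a hinge -/
theorem ring_adj_v (hb : ClassW b) (hL : Loc b zs) (hC : Crit b zs) (v : ZZ (tyW b)) :
    ∃ (h : Fin M) (p : Fin 3) (j : Fin (M + 1)), Adj h v.1 p j := by
  rcases exists_adj (M := M) v.1 with h1 | ⟨h1, h2⟩
  · exact h1
  · exfalso
    have key := (hC.ring v).1
    have e0 : Ys b zs v.1 0 = 0 := by rw [h1]; exact Ys_zero_end
    have e2 : Ys b zs v.1 2 = 0 := by rw [h2]; exact Ys_last_end
    rw [e0, e2] at key
    unfold RD1 at key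
    rw [LL_half_sub, Zs_lv, lv_im] at key
    have hp := hL.rpos v
    have h4 : (0 : ℝ) < ((b v.1).natAbs : ℝ) := by
      have := ring_four hb (tyW_ring v.2)
      exact_mod_cast (show 0 < (b v.1).natAbs by omega)
    have := mul_pos (mul_pos Real.pi_pos h4) hp
    nlinarith only [key, this]

theorem RLoc.adj (H : RLoc b zs) (v : ZZ (tyW b)) :
    ∃ (h : Fin M) (p : Fin 3) (j : Fin (M + 1)), Adj h v.1 p j := ring_adj_v H.hb H.hL H.hC v

/-- **The push of the rings, all regions with at least four crossings.** -/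
theorem RLoc.push_all (H : RLoc b zs) (hall : ∀ i, clsW b i = .ring) (hy : Mx b zs y)
    (hf : Flat b y) (R : RingSt b zs y) (hK : Capped b y) (A : Adj h i p j) :
    Push' (tyW b) b i p p.rev (Xw b zs y i) (xx (tyW b) i zs) := by
  have ht := tyW_of_ring H.hb (hall i)
  have hn : ∀ j, clsW b j ≠ .one := fun j => by rw [hall j]; decide
  have hn2 : ∀ j, clsW b j = .twoE → 5 ≤ (b i).natAbs := fun j e => by
    rw [hall j] at e
    simp at e
  rcases A.other b zs y with ⟨he, -⟩ | ⟨he, h', j', A'⟩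
  · exact H.push1 (v := ⟨i, by rw [ht]; rfl⟩) A hy hf (hall i) R rfl hK he (hn _) (hn2 _)
  · exact H.push2 (v := ⟨i, by rw [ht]; rfl⟩) A A' hy hf (hall i) R rfl hK he (hn _) (hn2 _)
      (hn _) (hn2 _)

/-- **Inner statement, all regions with at least four crossings.** -/
theorem RLoc.rin_all (H : RLoc b zs) (hall : ∀ i, clsW b i = .ring) (hy : Mx b zs y)
    (hf : Flat b y) (R : RingSt b zs y)
    (e : ∀ h : Fin M, y (.inl (.inl h)) = (zs (.inl (.inl h))).re) (v : ZZ (tyW b)) :
    y (.inr v) = (zs (.inr v)).re := by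
  have hn : ∀ j, clsW b j ≠ .one := fun j => by rw [hall j]; decide
  have hn2 : ∀ j, clsW b j = .twoE → 5 ≤ (b v.1).natAbs := fun j e => by
    rw [hall j] at e
    simp at e
  obtain ⟨h, p, j, A⟩ := H.adj v
  rcases A.other b zs y with ⟨he, -⟩ | ⟨he, h', j', A'⟩
  · exact H.in1 A hy hf (hall _) R rfl he (hn _) (hn2 _) (e h)
  · exact H.in2 A A' hy hf (hall _) R rfl he (hn _) (hn2 _) (hn _) (hn2 _) (e h) (e h')

/-- the caps, all regions with at least four crossings -/
theorem capped_all (hb : ClassW b) (hL : Loc b zs) (hX : LocX b zs) (hR : LocR b zs)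
    (hall : ∀ i, clsW b i = .ring) (hy : Mx b zs y) : Capped b y := by
  intro h i j p A hc
  have := A.rr_cap hb hL hX hR hy hc (hall j)
  rw [hall j]
  exact this

end SR

end Pool.Agent.Work.MP_b30479_gtS.G2

end
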