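import Pool.Agent.Work.MP_b30479_gt.TBS.G2.RW4
import Pool.Agent.Work.MP_b30479_gt.TBS.G2.RR4err
import Pool.Agent.Work.MP_b30479_gt.TBS.G2.RR4Cb
import Pool.Agent.Work.MP_b30479_gt.TBS.G2.RR4Cc
import Pool.Agent.Work.MP_b30479_gt.TBS.G2.RR4Cd
import Pool.Agent.Work.MP_b30479_gt.TBS.G2.RR4ers
import Pool.Agent.Work.MP_b30479_gt.TBS.G2.RR4Cf
import Pool.Agent.Work.MP_b30479_gt.TBS.G2.RWl

section

/-!
# The ramp part of the rings, four crossings: all rows
-/

namespace Pool.Agent.Work.MP_b30479_gtS.G2

namespace SR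

/-- **The rows of the ramp part, four crossings.** -/
theorem rows4 : Rows4 where
  ia C e := by
    cases C
    · exact RC.i4_one_a
    · exact RC.i4_two_a
    · exact RC.i4_twoE_a
    · exact RC.i4_three_a
    · exact RC.i4_threeE_a
    · cases e
      · exact RC.i4_rr_a
      · exact RC.i4_rs_a
  ib C e := by
    cases C
    · exact RC.i4_one_b
    · exact RC.i4_two_b
    · exact RC.i4_twoE_b
    · exact RC.i4_three_b
    · exact RC.i4_threeE_b
    · cases e
      · exact RC.i4_rr_b
      · exact RC.i4_rs_b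
  ic C e h1 h2 h3 := by
    cases C
    · exact absurd rfl h1
    · exact absurd rfl h2
    · exact absurd rfl h3
    · exact RC.i4_three_c
    · exact RC.i4_threeE_c
    · cases e
      · exact RC.i4_rr_c
      · exact RC.i4_rs_c
  e C e h3 := by
    cases C
    · exact RC.e4_one
    · exact RC.e4_two
    · exact absurd rfl h3
    · exact RC.e4_three
    · exact RC.e4_threeE
    · cases e
      · exact RC.e4_rr
      · exact RC.e4_rs

end SR

end Pool.Agent.Work.MP_b30479_gtS.G2

end

section

/-!
# The ramp part of the rings in a word, four crossings, at an end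
-/

namespace Pool.Agent.Work.MP_b30479_gtS.G2

open Finset VOL Filter Topology

namespace SR

variable {M : ℕ} {b : Fin (M + 1) → ℤ} {zs : DD (tyW b) ⊕ ZZ (tyW b) → ℂ}
variable {y : DD (tyW b) ⊕ ZZ (tyW b) → ℝ}
variable {h h' : Fin M} {i j j' : Fin (M + 1)} {p : Fin 3} {v : ZZ (tyW b)}

/-- **The saddle point is in the window**, ring with four crossings at an end. -/
theorem Adj.in_w4e (A : Adj h i p j) (hb : ClassW b) (hL : Loc b zs) (hX : LocX b zs)
    (hR : LocR b zs) (hG : LocRg b zs) (H4 : LocR4 b zs) (hc : clsW b i = .ring) (hv : v.1 = i)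
    (h4 : (b i).natAbs = 4) (he : isEnd i = true) (h2 : clsW b j ≠ .twoE) :
    (w4e (clsW b j) (ssW b h)).In (zs (.inl (.inl h))).re
      (-ofs (b i) (zs (.inr v)).re) (ofs (b i) (zs (.inl (.inl h))).im) (zs (.inr v)).im := by
  have hpos := hL.rpos v
  obtain ⟨x0, x1, t0, t1⟩ := A.box hb hL
  rw [hc] at x0 x1 t0 t1
  have rr : (zs (.inr v)).im ≤ 650 / 10000 := by
    obtain ⟨-, -, -, b2⟩ := ring_box hL v
    rw [hv, h4, he] at b2
    norm_num [zbox] at b2
    linarith only [b2]
  by_cases hj : clsW b j = .ring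
  · -- ring
    have W := hG.three v hv A hc (Or.inr (Or.inr hj))
    have Ws := W.s
    have Wqs := W.qs
    have Wc := W.c
    simp only [ofr_re, ofr_im, ofz_re, ofz_im] at Ws Wqs Wc
    have hT := (hR.rr A hc hj).1
    have key := H4.real A hc hv h4 rfl
    rw [he] at key
    rw [hj] at x0 x1 t0 t1 key ⊢
    generalize ssW b h = e at *
    cases e
    · simp only [hbox] at x0 x1 t0 t1
      norm_num [r4, mk4] at key
      obtain ⟨⟨k1, k2⟩, ⟨k3, k4⟩, ⟨k5, k6⟩, ⟨k7, k8⟩, ⟨k9, k10⟩, k11, k12⟩ := key
      unfold w4e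
      constructor <;> (try simp only) <;> linarith only [x0, k2, k9, k10, k3, k4, hpos, k7, rr, Wc, k12, k5, k6]
    · simp only [hbox] at x0 x1 t0 t1
      norm_num [r4, mk4] at key
      obtain ⟨⟨k1, k2⟩, ⟨k3, k4⟩, ⟨k5, k6⟩, ⟨k7, k8⟩, ⟨k9, k10⟩, k11, k12⟩ := key
      unfold w4e
      constructor <;> (try simp only) <;> linarith only [x0, k2, k9, k10, k3, Ws, hpos, k7, rr, Wc, k12, k5, k6]
  · have hop := A.opp hb (Or.inr hj)
    have hop' : b j * b i < 0 := by rwa [mul_comm] at hop
    have eo := ofs_opp hop' (zs (.inl (.inl h))).im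
    have e : ssW b h = false := A.ss hop
    have key := H4.real A hc hv h4 rfl
    rw [he] at key
    rw [e] at x0 x1 t0 t1 key ⊢
    generalize hC : clsW b j = C at *
    cases C
    · obtain ⟨h', j', A'⟩ := A.symm.other_one hb hC
      obtain ⟨W, hW, hI⟩ := hG.one v hv A.symm A' hC (Or.inl h4)
      rw [h4, he] at hW
      have i0 := hI.x0
      have i1 := hI.x1
      have i2 := hI.s0
      have i3 := hI.s1
      have i4 := hI.q0
      have i5 := hI.q1
      have i6 := hI.c
      simp only [ofr_re, ofr_im, ofz_re, ofz_im] at i0 i1 i2 i3 i4 i5 i6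
      simp only [hbox] at x0 x1 t0 t1
      norm_num [r4, mk4] at key
      obtain ⟨⟨k1, k2⟩, ⟨k3, k4⟩, ⟨k5, k6⟩, ⟨k7, k8⟩, ⟨k9, k10⟩, k11, k12⟩ := key
      have m1 : W.c1 / 10000 ≤ 4738 / 10000 ∧ W.q1 / 10000 ≤ 1403 / 10000 ∧
          848 / 10000 ≤ W.q0 / 10000 ∧ 1965 / 10000 ≤ W.s0 / 10000 ∧ W.s1 / 10000 ≤ 2153 / 10000 ∧
          W.x1 / 10000 ≤ 2751 / 10000 := by
        generalize clsW b j' = P at hW
        cases P <;> simp only [rw1, List.mem_cons, List.not_mem_nil, or_false] at hW
        · rcases hW with rfl | rfl | rfl <;> norm_num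
        · rcases hW with rfl | rfl <;> norm_num
        · subst hW
          norm_num
      obtain ⟨m1, m2, m3, m4, m5, m6⟩ := m1
      unfold w4e
      constructor <;> (try simp only) <;> linarith only [k1, i1, m6, k9, t1, i2, m4, i3, m5, hpos, k7, k8, i6, m1, k12, i4, m3, i5, m2]
    · have W := hG.two v hv A hc hC
      have Ws := W.s
      have Wqs := W.qs
      simp only [ofr_im, ofz_re, ofz_im] at Ws Wqs
      simp only [hbox] at x0 x1 t0 t1
      norm_num [r4, mk4] at key
      obtain ⟨⟨k1, k2⟩, ⟨k3, k4⟩, ⟨k5, k6⟩, ⟨k7, k8⟩, ⟨k9, k10⟩, k11, k12⟩ := key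
      unfold w4e
      constructor <;> (try simp only) <;> linarith only [k1, k2, k9, k10, k3, Ws, hpos, k7, k8, k11, k12, k5, k6]
    · exact absurd rfl h2
    · have W := hG.three v hv A hc (Or.inl hC)
      have Wqs := W.qs
      simp only [ofr_im, ofz_re, ofz_im] at Wqs
      simp only [hbox] at x0 x1 t0 t1
      norm_num [r4, mk4] at key
      obtain ⟨⟨k1, k2⟩, ⟨k3, k4⟩, ⟨k5, k6⟩, ⟨k7, k8⟩, ⟨k9, k10⟩, k11, k12⟩ := key
      have h3 := hX.three A.symm hC hc
      unfold w4e
      constructor <;> (try simp only) <;> linarith only [x0, k2, k9, eo, h3, k3, k4, hpos, k7, k8, k11, k12, k5, k6, Wqs]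
    · have W := hG.three v hv A hc (Or.inr (Or.inl hC))
      have Wqs := W.qs
      simp only [ofr_im, ofz_re, ofz_im] at Wqs
      simp only [hbox] at x0 x1 t0 t1
      norm_num [r4, mk4] at key
      obtain ⟨⟨k1, k2⟩, ⟨k3, k4⟩, ⟨k5, k6⟩, ⟨k7, k8⟩, ⟨k9, k10⟩, k11, k12⟩ := key
      unfold w4e
      constructor <;> (try simp only) <;> linarith only [x0, k2, k9, t1, k3, k4, hpos, k7, k8, k11, k12, k5, k6, Wqs]
    · exact absurd rfl hj

/-- the lower bound of the height of the ring variable -/
theorem LocR4.rho (H4 : LocR4 b zs) (A : Adj h i p j) (hc : clsW b i = .ring) (hv : v.1 = i)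
    (h4 : (b i).natAbs = 4) : 4 / 1000 ≤ (zs (.inr v)).im := by
  have key := (H4.real A hc hv h4 rfl).2.2.2.1.1
  refine le_trans ?_ key
  generalize isEnd i = a
  generalize ssW b h = e
  cases clsW b j <;> cases a <;> cases e <;> norm_num [r4, mk4]

/-- upper bounds of `s` next to the digits `1` and `2` -/
theorem Adj.s4_le (A : Adj h i p j) (hb : ClassW b)
    (hG : LocRg b zs) (H4 : LocR4 b zs) (hc : clsW b i = .ring) (hv : v.1 = i)
    (h4 : (b i).natAbs = 4) (he : isEnd i = false)
    (hj : clsW b j = .one ∨ clsW b j = .two ∨ clsW b j = .twoE) :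
    -ofs (b i) (zs (.inr v)).re ≤ s4b (clsW b j) := by
  rcases hj with hj | hj | hj
  · obtain ⟨h', j', A'⟩ := A.symm.other_one hb hj
    obtain ⟨W, hW, hI⟩ := hG.one v hv A.symm A' hj (Or.inl h4)
    rw [h4, he] at hW
    have i3 := hI.s1
    simp only [ofz_re] at i3
    have m1 : W.s1 / 10000 ≤ 2004 / 10000 := by
      generalize clsW b j' = P at hW
      cases P <;> simp only [rw1, List.mem_cons, List.not_mem_nil, or_false] at hW
      · rcases hW with rfl | rfl | rfl | rfl | rfl <;> norm_num
      · rcases hW with rfl | rfl | rfl | rfl <;> norm_num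
      · rcases hW with rfl | rfl <;> norm_num
    rw [hj]
    exact i3.trans m1
  · have key := (H4.real A hc hv h4 rfl).2.1.2
    rw [hj, he] at key
    rw [hj]
    refine key.trans ?_
    generalize ssW b h = e
    cases e <;> norm_num [r4, mk4, s4b]
  · have Ws := (hG.twoE4 v hv A h4 he hj).s
    simp only [ofz_re] at Ws
    rw [hj]
    exact Ws

/-- **The ramp part of the rings with four crossings, from the rows.** -/
theorem Ramp4.of (hb : ClassW b) (hL : Loc b zs) (hC : Crit b zs) (hX : LocX b zs)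
    (hR : LocR b zs) (hG : LocRg b zs) (H4 : LocR4 b zs) (H : Rows4) :
    Ramp4 b zs where
  int := by
    intro h i j p v hv A hc h4 he
    have e1 : rlam 4 = 65 / 100 := by norm_num [rlam]
    rw [← sub_neg_half, e1]
    obtain ⟨b0, b1, hpos, b2⟩ := ring_box hL v
    have key := (H4.real A hc hv h4 rfl).2.1
    rw [he] at key
    have hs4 := A.s4_le hb hG H4 hc hv h4 he
    rcases le_or_gt (-ofs (b i) (zs (.inr v)).re) (2000 / 10000) with hs | hs
    · have e2 : ralp 4 (-ofs (b i) (zs (.inr v)).re) = 14 / 100 := by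
        unfold ralp
        rw [if_pos rfl, if_pos (by linarith only [hs])]
      have e3 : rbet 4 (-ofs (b i) (zs (.inr v)).re) = 1 := by
        unfold rbet
        rw [if_pos rfl, if_pos (by linarith only [hs])]
      rw [e2, e3]
      have k0 : s4a (clsW b j) (ssW b h) ≤ -ofs (b i) (zs (.inr v)).re := by
        refine le_trans ?_ key.1
        generalize ssW b h = e
        cases clsW b j <;> cases e <;> norm_num [r4, mk4, s4a]
      exact H.ia _ _ _ _ _ _ (A.in_w4 hb hL hX hR hG H4 hc hv h4 he k0 hs)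
    · rcases le_or_gt (-ofs (b i) (zs (.inr v)).re) (2130 / 10000) with hs2 | hs2
      · have e2 : ralp 4 (-ofs (b i) (zs (.inr v)).re) = 14 / 100 := by
          unfold ralp
          rw [if_pos rfl, if_pos (by linarith only [hs2])]
        have e3 : rbet 4 (-ofs (b i) (zs (.inr v)).re) = 11 / 10 := by
          unfold rbet
          rw [if_pos rfl, if_neg (by linarith only [hs])]
        rw [e2, e3]
        refine H.ib _ _ _ _ _ _ (A.in_w4 hb hL hX hR hG H4 hc hv h4 he hs.le ?_)
        generalize clsW b j = C at hs4 ⊢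
        cases C
        · exact hs4 (Or.inl rfl)
        · exact hs4 (Or.inr (Or.inl rfl))
        · exact hs4 (Or.inr (Or.inr rfl))
        · exact hs2
        · exact hs2
        · exact hs2
      · have e2 : ralp 4 (-ofs (b i) (zs (.inr v)).re) = 8 / 100 := by
          unfold ralp
          rw [if_pos rfl, if_neg (by linarith only [hs2])]
        have e3 : rbet 4 (-ofs (b i) (zs (.inr v)).re) = 11 / 10 := by
          unfold rbet
          rw [if_pos rfl, if_neg (by linarith only [hs])]
        rw [e2, e3]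
        have hn : clsW b j ≠ .one ∧ clsW b j ≠ .two ∧ clsW b j ≠ .twoE := by
          refine ⟨fun h1 => ?_, fun h1 => ?_, fun h1 => ?_⟩
          · have := hs4 (Or.inl h1)
            rw [h1] at this
            norm_num [s4b] at this
            linarith only [hs, hs2, this]
          · have := hs4 (Or.inr (Or.inl h1))
            rw [h1] at this
            norm_num [s4b] at this
            linarith only [hs, hs2, this]
          · have := hs4 (Or.inr (Or.inr h1))
            rw [h1] at this
            norm_num [s4b] at this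
            linarith only [hs, hs2, this]
        have k1 : -ofs (b i) (zs (.inr v)).re ≤ s4c (clsW b j) (ssW b h) := by
          refine key.2.trans ?_
          obtain ⟨n1, n2, n3⟩ := hn
          generalize ssW b h = e
          generalize clsW b j = C at n1 n2 n3 ⊢
          cases C <;> cases e <;> first
            | exact absurd rfl n1
            | exact absurd rfl n2
            | exact absurd rfl n3
            | norm_num [r4, mk4, s4c]
        exact H.ic _ _ hn.1 hn.2.1 hn.2.2 _ _ _ _
          (A.in_w4 hb hL hX hR hG H4 hc hv h4 he hs2.le k1)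
  en := by
    intro h i j p v hv A hc h4 he h2
    have hD := A.ring_crit1 he hC hv
    rw [h4] at hD
    rw [← sub_neg_half] at hD ⊢
    push_cast at hD
    exact H.e _ _ h2 _ _ _ _ (A.in_w4e hb hL hX hR hG H4 hc hv h4 he h2) hD
  rho v h4 := by
    obtain ⟨h, p, j, A⟩ := ring_adj_v hb hL hC v
    have hc : clsW b v.1 = .ring := by
      have h5 := ring_four hb (tyW_ring v.2)
      unfold clsW cls
      rw [if_neg (by omega), if_neg (by omega), if_neg (by omega)]
    exact H4.rho A hc rfl h4

end SR

end Pool.Agent.Work.MP_b30479_gtS.G2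

end

section

/-!
# The data of the rings of a word from the location statements
-/

namespace Pool.Agent.Work.MP_b30479_gtS.G2

open Finset VOL Filter Topology

namespace SR

variable {M : ℕ} {b : Fin (M + 1) → ℤ} {zs : DD (tyW b) ⊕ ZZ (tyW b) → ℂ}

/-- **All rows of the ramp part are available.** -/
theorem RLoc.of (hb : ClassW b) (hL : Loc b zs) (hC : Crit b zs) (hX : LocX b zs)
    (hR : LocR b zs) (hG : LocRg b zs) (H4 : LocR4 b zs) : RLoc b zs :=
  ⟨hb, hL, hC, hX, hR, hG, rows5, Ramp4.of hb hL hC hX hR hG H4 rows4⟩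

end SR

end Pool.Agent.Work.MP_b30479_gtS.G2

end
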