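import Pool.Agent.Work.MP_b30479_gt.TBS.G2.ML3i

/-!
# Part of `ML3j`
-/
set_option deprecated.oldSectionVars true

namespace Pool.Agent.Work.MP_b30479_gtS.G2

open Finset VOL Filter Topology

namespace L3

open Pool.Agent.Work.NumIs Pool.Agent.Work.NumIs.E

/-- end 3 next to `two`, left ramp, `cl = 1 / 10` -/
theorem left_two {T h μ a : ℝ} {v : ℂ} (hT : HT .two T h) (L : LocM v h μ)
    (hr : v.re = a) (hi : v.im = 10 * T * a) (a0 : 0 < a) (a1 : a ≤ 1 / 10) :
    10 / 100 < S3 1 (10 * T) v (mpt h μ) + (Real.pi / 2) * (10 * T) := by
  have hT' := hT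
  obtain ⟨T0, T1, h0, h1, h2⟩ := hT
  have kv : ∀ x : ℝ, ((q 10 1) : E).val [a, T, h, x] = 10 := fun x => by
    simp only [E.val]; norm_num
  have cv : ∀ x : ℝ, ((mul (q 1 2) pi) : E).val [a, T, h, x] = (Real.pi / 2) := fun x => by
    simp only [E.val, lkR]; push_cast; ring
  refine left_bound hT' L (by norm_num) (by rw [abs_le]; constructor <;> linarith only [a0, a1, T0, T1]) hr hi a0
    (by linarith only [a1]) ?_ ?_
  · intro a2 x x0 x1 hK
    have hc : chk [sub (eS (q 10 1) (mul (q 1 2) pi)) (q 10 100), eK (q 10 1), neg (eK (q 10 1))] 30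
      [V.of 10000 100 1000, V.of 10000 (-260) 130, V.of 10000 0 500, V.of 10000 500 5000] = true := by
      decide +kernel
    obtain ⟨e, he, hp⟩ := chk4 hc (by norm_num) (x := a) (y := T) (z := h) (w := x)
      (by norm_num; linarith only [a2]) (by norm_num; linarith only [a1]) (by norm_num; linarith only [T0])
      (by norm_num; linarith only [T1]) (by norm_num; linarith only [h0]) (by norm_num; linarith only [h1])
      (by norm_num; linarith only [x0]) (by norm_num; linarith only [x1])
    simp only [List.mem_cons, List.not_mem_nil, or_false] at he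
    rcases he with rfl | rfl | rfl
    · rw [E.val, eS_val (kv x) (cv x)] at hp
      simp only [E.val] at hp
      push_cast at hp
      linarith only [hp]
    · rw [eK_val (kv x)] at hp
      linarith only [hK, hp]
    · rw [E.val, eK_val (kv x)] at hp
      linarith only [hK, hp]
  · intro a2 x x0 x1
    have hc : chk [sub (eS0 (q 10 1) (mul (q 1 2) pi)) (q 10 100)] 30
      [V.of 10000 0 100, V.of 10000 (-260) 130, V.of 10000 0 500, V.of 10000 500 5000] = true := by
      decide +kernel
    have hp := pos_of_chk (chk4 hc (by norm_num) (x := a) (y := T) (z := h) (w := x)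
      (by norm_num; linarith only [a0]) (by norm_num; linarith only [a2]) (by norm_num; linarith only [T0])
      (by norm_num; linarith only [T1]) (by norm_num; linarith only [h0]) (by norm_num; linarith only [h1])
      (by norm_num; linarith only [x0]) (by norm_num; linarith only [x1]))
    rw [E.val, eS0_val (kv x) (cv x)] at hp
    simp only [E.val] at hp
    push_cast at hp
    linarith only [hp]

/-- end 3 next to `twoE`, left ramp, `cl = 1 / 10` -/
theorem left_twoE {T h μ a : ℝ} {v : ℂ} (hT : HT .twoE T h) (L : LocM v h μ)
    (hr : v.re = a) (hi : v.im = 10 * T * a) (a0 : 0 < a) (a1 : a ≤ 1 / 10) :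
    40 / 100 < S3 1 (10 * T) v (mpt h μ) + (Real.pi / 2) * (10 * T) := by
  have hT' := hT
  obtain ⟨T0, T1, h0, h1⟩ := hT
  have kv : ∀ x : ℝ, ((q 10 1) : E).val [a, T, h, x] = 10 := fun x => by
    simp only [E.val]; norm_num
  have cv : ∀ x : ℝ, ((mul (q 1 2) pi) : E).val [a, T, h, x] = (Real.pi / 2) := fun x => by
    simp only [E.val, lkR]; push_cast; ring
  refine left_bound hT' L (by norm_num) (by rw [abs_le]; constructor <;> linarith only [a0, a1, T0, T1]) hr hi a0
    (by linarith only [a1]) ?_ ?_
  · intro a2 x x0 x1 hK
    have hc : chk [sub (eS (q 10 1) (mul (q 1 2) pi)) (q 40 100), eK (q 10 1), neg (eK (q 10 1))] 30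
      [V.of 10000 100 1000, V.of 10000 (-690) (-650), V.of 10000 (-270) (-190), V.of 10000 500 5000] = true := by
      decide +kernel
    obtain ⟨e, he, hp⟩ := chk4 hc (by norm_num) (x := a) (y := T) (z := h) (w := x)
      (by norm_num; linarith only [a2]) (by norm_num; linarith only [a1]) (by norm_num; linarith only [T0])
      (by norm_num; linarith only [T1]) (by norm_num; linarith only [h0]) (by norm_num; linarith only [h1])
      (by norm_num; linarith only [x0]) (by norm_num; linarith only [x1])
    simp only [List.mem_cons, List.not_mem_nil, or_false] at he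
    rcases he with rfl | rfl | rfl
    · rw [E.val, eS_val (kv x) (cv x)] at hp
      simp only [E.val] at hp
      push_cast at hp
      linarith only [hp]
    · rw [eK_val (kv x)] at hp
      linarith only [hK, hp]
    · rw [E.val, eK_val (kv x)] at hp
      linarith only [hK, hp]
  · intro a2 x x0 x1
    have hc : chk [sub (eS0 (q 10 1) (mul (q 1 2) pi)) (q 40 100)] 30
      [V.of 10000 0 100, V.of 10000 (-690) (-650), V.of 10000 (-270) (-190), V.of 10000 500 5000] = true := by
      decide +kernel
    have hp := pos_of_chk (chk4 hc (by norm_num) (x := a) (y := T) (z := h) (w := x)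
      (by norm_num; linarith only [a0]) (by norm_num; linarith only [a2]) (by norm_num; linarith only [T0])
      (by norm_num; linarith only [T1]) (by norm_num; linarith only [h0]) (by norm_num; linarith only [h1])
      (by norm_num; linarith only [x0]) (by norm_num; linarith only [x1]))
    rw [E.val, eS0_val (kv x) (cv x)] at hp
    simp only [E.val] at hp
    push_cast at hp
    linarith only [hp]

/-- end 3 next to `three`, left ramp, `cl = 1 / 10` -/
theorem left_three {T h μ a : ℝ} {v : ℂ} (hT : HT .three T h) (L : LocM v h μ)
    (hr : v.re = a) (hi : v.im = 10 * T * a) (a0 : 0 < a) (a1 : a ≤ 1 / 10) :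
    20 / 100 < S3 1 (10 * T) v (mpt h μ) + (Real.pi / 2) * (10 * T) := by
  have hT' := hT
  obtain ⟨T0, T1, h1, h0⟩ := hT
  have kv : ∀ x : ℝ, ((q 10 1) : E).val [a, T, h, x] = 10 := fun x => by
    simp only [E.val]; norm_num
  have cv : ∀ x : ℝ, ((mul (q 1 2) pi) : E).val [a, T, h, x] = (Real.pi / 2) := fun x => by
    simp only [E.val, lkR]; push_cast; ring
  refine left_bound hT' L (by norm_num) (by rw [abs_le]; constructor <;> linarith only [a0, a1, T0, T1]) hr hi a0
    (by linarith only [a1]) ?_ ?_
  · intro a2 x x0 x1 hK
    have hc : chk [sub (eS (q 10 1) (mul (q 1 2) pi)) (q 20 100), eK (q 10 1), neg (eK (q 10 1))] 30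
      [V.of 10000 100 1000, V.of 10000 50 280, V.of 10000 0 430, V.of 10000 500 5000] = true := by
      decide +kernel
    obtain ⟨e, he, hp⟩ := chk4 hc (by norm_num) (x := a) (y := T) (z := h) (w := x)
      (by norm_num; linarith only [a2]) (by norm_num; linarith only [a1]) (by norm_num; linarith only [T0])
      (by norm_num; linarith only [T1]) (by norm_num; linarith only [a0, a1, T0, h0]) (by norm_num; linarith only [h1])
      (by norm_num; linarith only [x0]) (by norm_num; linarith only [x1])
    simp only [List.mem_cons, List.not_mem_nil, or_false] at he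
    rcases he with rfl | rfl | rfl
    · rw [E.val, eS_val (kv x) (cv x)] at hp
      simp only [E.val] at hp
      push_cast at hp
      linarith only [hp]
    · rw [eK_val (kv x)] at hp
      linarith only [hK, hp]
    · rw [E.val, eK_val (kv x)] at hp
      linarith only [hK, hp]
  · intro a2 x x0 x1
    have hc : chk [sub (eS0 (q 10 1) (mul (q 1 2) pi)) (q 20 100)] 30
      [V.of 10000 0 100, V.of 10000 50 280, V.of 10000 0 430, V.of 10000 500 5000] = true := by
      decide +kernel
    have hp := pos_of_chk (chk4 hc (by norm_num) (x := a) (y := T) (z := h) (w := x)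
      (by norm_num; linarith only [a0]) (by norm_num; linarith only [a2]) (by norm_num; linarith only [T0])
      (by norm_num; linarith only [T1]) (by norm_num; linarith only [a0, T0, h0, a2]) (by norm_num; linarith only [h1])
      (by norm_num; linarith only [x0]) (by norm_num; linarith only [x1]))
    rw [E.val, eS0_val (kv x) (cv x)] at hp
    simp only [E.val] at hp
    push_cast at hp
    linarith only [hp]

/-- end 3 next to `three`, left ramp, `cl = 15 / 100` -/
theorem left_three15 {T h μ a : ℝ} {v : ℂ} (hT : HT .three T h) (L : LocM v h μ)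
    (hr : v.re = a) (hi : v.im = (100 / 15) * T * a) (a0 : 0 < a) (a1 : a ≤ 15 / 100) :
    -(18 / 100) < S3 1 ((100 / 15) * T) v (mpt h μ) + (Real.pi / 2) * ((100 / 15) * T) := by
  have hT' := hT
  obtain ⟨T0, T1, h1, h0⟩ := hT
  have kv : ∀ x : ℝ, ((q 100 15) : E).val [a, T, h, x] = (100 / 15) := fun x => by
    simp only [E.val]; norm_num
  have cv : ∀ x : ℝ, ((mul (q 1 2) pi) : E).val [a, T, h, x] = (Real.pi / 2) := fun x => by
    simp only [E.val, lkR]; push_cast; ring
  refine left_bound hT' L (by norm_num) (by rw [abs_le]; constructor <;> linarith only [a0, a1, T0, T1]) hr hi a0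
    (by linarith only [a1]) ?_ ?_
  · intro a2 x x0 x1 hK
    have hc : chk [sub (eS (q 100 15) (mul (q 1 2) pi)) (q (-18) 100), eK (q 100 15), neg (eK (q 100 15))] 30
      [V.of 10000 100 1500, V.of 10000 50 280, V.of 10000 0 430, V.of 10000 500 5000] = true := by
      decide +kernel
    obtain ⟨e, he, hp⟩ := chk4 hc (by norm_num) (x := a) (y := T) (z := h) (w := x)
      (by norm_num; linarith only [a2]) (by norm_num; linarith only [a1]) (by norm_num; linarith only [T0])
      (by norm_num; linarith only [T1]) (by norm_num; linarith only [a0, a1, T0, h0]) (by norm_num; linarith only [h1])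
      (by norm_num; linarith only [x0]) (by norm_num; linarith only [x1])
    simp only [List.mem_cons, List.not_mem_nil, or_false] at he
    rcases he with rfl | rfl | rfl
    · rw [E.val, eS_val (kv x) (cv x)] at hp
      simp only [E.val] at hp
      push_cast at hp
      linarith only [hp]
    · rw [eK_val (kv x)] at hp
      linarith only [hK, hp]
    · rw [E.val, eK_val (kv x)] at hp
      linarith only [hK, hp]
  · intro a2 x x0 x1
    have hc : chk [sub (eS0 (q 100 15) (mul (q 1 2) pi)) (q (-18) 100)] 30
      [V.of 10000 0 100, V.of 10000 50 280, V.of 10000 0 430, V.of 10000 500 5000] = true := by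
      decide +kernel
    have hp := pos_of_chk (chk4 hc (by norm_num) (x := a) (y := T) (z := h) (w := x)
      (by norm_num; linarith only [a0]) (by norm_num; linarith only [a2]) (by norm_num; linarith only [T0])
      (by norm_num; linarith only [T1]) (by norm_num; linarith only [a0, T0, h0, a2]) (by norm_num; linarith only [h1])
      (by norm_num; linarith only [x0]) (by norm_num; linarith only [x1]))
    rw [E.val, eS0_val (kv x) (cv x)] at hp
    simp only [E.val] at hp
    push_cast at hp
    linarith only [hp]

end L3

end Pool.Agent.Work.MP_b30479_gtS.G2
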