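import Pool.Agent.Work.MP_b30479_gt.TBS.G2.ML3i
import Pool.Agent.Work.MP_b30479_gt.TBS.G2.WMid
import Pool.Agent.Work.MP_b30479_gt.TBS.G2.ML3k
import Pool.Agent.Work.MP_b30479_gt.TBS.G2.WVal
import Pool.Agent.Work.MP_b30479_gt.TBS.G2.ML3j_2

section

/-!
# Part of `ML3j`
-/
namespace Pool.Agent.Work.MP_b30479_gtS.G2

open Finset VOL Filter Topology

namespace L3

open Pool.Agent.Work.NumIs Pool.Agent.Work.NumIs.E

/-- end 3 next to `one`, left ramp, `cl = 14 / 100` -/
theorem left_one {T h μ a : ℝ} {v : ℂ} (hT : HT .one T h) (L : LocM v h μ)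
    (hr : v.re = a) (hi : v.im = (100 / 14) * T * a) (a0 : 0 < a) (a1 : a ≤ 14 / 100) :
    -(34 / 100) < S3 1 ((100 / 14) * T) v (mpt h μ) + (Real.pi - 9 / 2 * a) * ((100 / 14) * T) := by
  have hT' := hT
  obtain ⟨T0, T1, h0, h1⟩ := hT
  have kv : ∀ x : ℝ, ((q 100 14) : E).val [a, T, h, x] = (100 / 14) := fun x => by
    simp only [E.val]; norm_num
  have cv : ∀ x : ℝ, ((sub pi (mul (q 9 2) (var 0))) : E).val [a, T, h, x] = (Real.pi - 9 / 2 * a) := fun x => by
    simp only [E.val, lkR]; push_cast; ring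
  refine left_bound hT' L (by norm_num) (by rw [abs_le]; constructor <;> linarith only [a0, a1, T0, T1]) hr hi a0
    (by linarith only [a1]) ?_ ?_
  · intro a2 x x0 x1 hK
    have hc : chk [sub (eS (q 100 14) (sub pi (mul (q 9 2) (var 0)))) (q (-34) 100), eK (q 100 14), neg (eK (q 100 14)), cN] 30
      [V.of 10000 100 1400, V.of 10000 (-780) (-100), V.of 10000 50 620, V.of 10000 500 5000] = true := left_one_h1
    obtain ⟨e, he, hp⟩ := chk4 hc (by norm_num) (x := a) (y := T) (z := h) (w := x)
      (by norm_num; linarith only [a2]) (by norm_num; linarith only [a1]) (by norm_num; linarith only [T0])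
      (by norm_num; linarith only [T1]) (by norm_num; linarith only [h0]) (by norm_num; linarith only [a0, a1, T1, h1])
      (by norm_num; linarith only [x0]) (by norm_num; linarith only [x1])
    simp only [List.mem_cons, List.not_mem_nil, or_false] at he
    rcases he with rfl | rfl | rfl | rfl
    · rw [E.val, eS_val (kv x) (cv x)] at hp
      simp only [E.val] at hp
      push_cast at hp
      linarith only [hp]
    · rw [eK_val (kv x)] at hp
      linarith only [hK, hp]
    · rw [E.val, eK_val (kv x)] at hp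
      linarith only [hK, hp]
    · exact absurd (cN_val hp) (by linarith only [h1])
  · intro a2 x x0 x1
    have hc : chk [sub (eS0 (q 100 14) (sub pi (mul (q 9 2) (var 0)))) (q (-34) 100)] 30
      [V.of 10000 0 100, V.of 10000 (-780) (-100), V.of 10000 50 620, V.of 10000 500 5000] = true := left_one_h2
    have hp := pos_of_chk (chk4 hc (by norm_num) (x := a) (y := T) (z := h) (w := x)
      (by norm_num; linarith only [a0]) (by norm_num; linarith only [a2]) (by norm_num; linarith only [T0])
      (by norm_num; linarith only [T1]) (by norm_num; linarith only [h0]) (by norm_num; linarith only [a0, T1, h1, a2])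
      (by norm_num; linarith only [x0]) (by norm_num; linarith only [x1]))
    rw [E.val, eS0_val (kv x) (cv x)] at hp
    simp only [E.val] at hp
    push_cast at hp
    linarith only [hp]

end L3

end Pool.Agent.Work.MP_b30479_gtS.G2

end

section

/-!
# Ends with three crossings at the level of words
-/

namespace Pool.Agent.Work.MP_b30479_gtS.G2

open Finset VOL Filter Topology

namespace SR

variable {M : ℕ} {b : Fin (M + 1) → ℤ} {zs : DD (tyW b) ⊕ ZZ (tyW b) → ℂ}
variable {y : DD (tyW b) ⊕ ZZ (tyW b) → ℝ}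
variable {h h' : Fin M} {i j j' : Fin (M + 1)} {p : Fin 3}

/-- the inner variable of a region with three crossings at an end -/
noncomputable def mE (b : Fin (M + 1) → ℤ) {i : Fin (M + 1)} (hc : clsW b i = .threeE) :
    {i : Fin (M + 1) // (tyW b i).isMid = true} := ⟨i, tyW_isMid (Or.inr hc)⟩

/-- its height in the own frame -/
noncomputable def hE (zs : DD (tyW b) ⊕ ZZ (tyW b) → ℂ) {i : Fin (M + 1)}
    (hc : clsW b i = .threeE) : ℝ := ofs (b i) (zs (.inl (.inr (mE b hc)))).im

theorem V3_zero (u v : ℂ) : V3 u v 0 = L3.Wm u v - UU u := by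
  unfold V3 L3.Wm
  rw [UU_zero, add_zero, sub_zero, add_zero]
  ring

theorem pp_mE (hc : clsW b i = .threeE) (c : ℝ) :
    ofr (b i) ((wpar b zs).pp zs (.inl (.inr (mE b hc))) c) = L3.mpt (hE zs hc) c := by
  have e1 : (wpar b zs).XM (.inr (mE b hc)) = 77 / 100 := by
    simp [wpar, par1, mp, mE, hc]
  have e2 : (wpar b zs).cl (.inr (mE b hc)) = 1 / 10 := by
    simp [wpar, par1, mp, mE, hc]
  have e3 : (wpar b zs).cr (.inr (mE b hc)) = 1 / 5 := by
    simp [wpar, par1, mp, mE, hc]; norm_num
  apply Complex.ext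
  · rw [ofr_pp_re, L3.mpt_re]
  · rw [ofr_im, Par.pp_im, L3.mpt_im, ← e1, ← e2, ← e3]
    exact ofs_mul' _ _ _

theorem XM_mE (hc : clsW b i = .threeE) : (wpar b zs).XM (.inr (mE b hc)) = 77 / 100 := by
  simp [wpar, par1, mp, mE, hc]

/-- the inner variable of a maximiser -/
theorem Yw_mE (hc : clsW b i = .threeE) :
    Yw b zs y i 1 = L3.mpt (hE zs hc) (y (.inl (.inr (mE b hc)))) := by
  have h1 := Yw_mid (zs := zs) (y := y) (mE b hc)
  have h2 := pp_mE (zs := zs) hc (y (.inl (.inr (mE b hc))))
  exact h1.trans h2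

theorem Adj.maxM (A : Adj h i p j) (hb : ClassW b) (hy : IsMx (wdat (tyW b) b) (wpar b zs) zs y)
    (hc : clsW b i = .threeE) :
    L3.MaxM (Yw b zs y i p) (hE zs hc) (y (.inl (.inr (mE b hc)))) := by
  have hX := XM_mE (zs := zs) hc
  have ht : tyW b i ≠ .ring := mid_not_ring (mE b hc).2
  have hp : p ≠ 1 := by
    rcases A.slot with h | h <;> rw [h] <;> decide
  have hend : EndOk i (OY b zs y i) := Ow_endOk ((wpar b zs).pth zs y) i
  have hOYp : OY b zs y i p = Yw b zs y i p := by
    rcases A.slot with h | h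
    · rw [h]; exact OY_zero i
    · rw [h]; exact OY_two i
  refine ⟨hy.nonneg _, ?_, fun c c0 c1 => ?_⟩
  · have := hy.1.2 (.inl (.inr (mE b hc)))
    rw [← hX]
    exact this
  · have h1 := mid_max hb hy (mE b hc) c0 (by rw [hX]; exact c1)
    have e1 : (mE b hc).1 = i := rfl
    rw [e1, pp_mE hc c] at h1
    rw [A.OV_threeE hc hend, A.OV_threeE hc (X := Function.update (OY b zs y i) 1
      (L3.mpt (hE zs hc) c)) ⟨fun h0 => by
        rw [Function.update_of_ne (by decide)]; exact hend.1 h0, fun h0 => by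
        rw [Function.update_of_ne (by decide)]; exact hend.2 h0⟩, Function.update_of_ne hp,
      Function.update_self, hOYp, OY_one ht, V3_zero, V3_zero, Yw_mE hc] at h1
    linarith only [hc, h1]

/-! ### the saddle point -/

theorem Adj.boxE (A : Adj h i p j) (hb : ClassW b) (hL : Loc b zs) (hc : clsW b i = .threeE) :
    (hbox .threeE (clsW b j) (ssW b h)).In (Ys b zs i p) := by
  have h1 := A.box hb hL
  rw [hc] at h1
  unfold Box.In
  rw [A.Ys_re, A.Ys_im]
  exact h1

theorem Ys_mE (hc : clsW b i = .threeE) :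
    Ys b zs i 1 = ofr (b i) (zs (.inl (.inr (mE b hc)))) := by
  unfold Ys
  rw [xx_mid (tyW b) (tyW_isMid (Or.inr hc))]
  rfl

theorem midE_box (hL : Loc b zs) (hc : clsW b i = .threeE) : mboxE.In (Ys b zs i 1) := by
  rw [Ys_mE hc]
  exact hL.midE (mE b hc) (clsW_end (Or.inr hc))

theorem Adj.crit3 (A : Adj h i p j) (hb : ClassW b) (hC : Crit b zs)
    (hc : clsW b i = .threeE) :
    LL (Ys b zs i 1 - Ys b zs i p) = -(Real.pi * ((Ys b zs i p).im + (Ys b zs i 1).im)) ∧
    YY (Ys b zs i 1 - Ys b zs i p) =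
      -(Real.pi * ((Ys b zs i p).re + (Ys b zs i 1).re - 1 / 2)) := by
  have h0 := hC.threeE hb A hc 0
  have h1 := hC.threeE hb A hc 1
  rw [L3.SM_zero] at h0 h1
  constructor <;> linarith only [h0, h1]

theorem hbox_re (B : Cl) (s : Bool) : 16 / 100 ≤ (hbox .threeE B s).x0 ∧
    (hbox .threeE B s).x1 ≤ 274 / 1000 := by
  cases B <;> simp only [hbox] <;> norm_num

theorem Adj.strip3 (A : Adj h i p j) (hb : ClassW b) (hL : Loc b zs) (hc : clsW b i = .threeE) :
    Ys b zs i 1 - Ys b zs i p ∈ strip := by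
  have h1 := A.boxE hb hL hc
  have h2 := midE_box hL hc
  have h3 := hbox_re (clsW b j) (ssW b h)
  unfold Box.In at h1 h2
  simp only [mboxE] at h2
  refine ⟨?_, ?_⟩ <;> rw [Complex.sub_re] <;> linarith only [h1, h2, h3, h1.1, h1.2.1, h2.1, h2.2.1, h3.1, h3.2]

/-- typed heights of the hinge and of the inner variable -/
theorem Adj.HT3 (A : Adj h i p j) (hb : ClassW b) (hL : Loc b zs) (hC : Crit b zs)
    (hc : clsW b i = .threeE) :
    L3.HT (clsW b j) (ofs (b i) (zs (.inl (.inl h))).im) (hE zs hc) := by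
  have h1 := A.boxE hb hL hc
  have h3 := hbox_re (clsW b j) (ssW b h)
  have h4 : Ys b zs i p ∈ strip := by
    unfold Box.In at h1
    exact ⟨by linarith only [h1, h3, h1.1], by linarith only [h1, h3, h1.2.1]⟩
  obtain ⟨c1, c2⟩ := A.crit3 hb hC hc
  have := L3.HT_of_box h1 (L3.height3 h4 (A.strip3 hb hL hc) c1 c2)
  rw [A.Ys_im, Ys_mE hc, ofr_im] at this
  exact this

/-- the inner variable of the saddle point is located -/
theorem Adj.locS (A : Adj h i p j) (hb : ClassW b) (hL : Loc b zs) (hC : Crit b zs)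
    (hc : clsW b i = .threeE) :
    L3.LocM (Ys b zs i p) (hE zs hc) (Ys b zs i 1).re ∧
      Ys b zs i 1 = L3.mpt (hE zs hc) (Ys b zs i 1).re := by
  have h1 := A.boxE hb hL hc
  have h2 := midE_box hL hc
  have h3 := hbox_re (clsW b j) (ssW b h)
  obtain ⟨c1, c2⟩ := A.crit3 hb hC hc
  unfold Box.In at h1 h2
  simp only [mboxE] at h2
  have him : (Ys b zs i 1).im = hE zs hc := by
    rw [Ys_mE hc, ofr_im]
    rfl
  have e : Ys b zs i 1 = L3.mpt (hE zs hc) (Ys b zs i 1).re := by
    apply Complex.ext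
    · rw [L3.mpt_re]
    · rw [L3.mpt_mid (by linarith only [h2, h2.1]) (by linarith only [h2, h2.2.1]), him]
  refine ⟨⟨by linarith only [h2, h2.1], by linarith only [h2, h2.2.1], by linarith only [h1, h2, h3, h1.2.1, h2.1, h3.2],
    by linarith only [h1, h2, h3, h1.1, h2.2.1, h3.1], ?_⟩, e⟩
  rw [← e, c1, him]

/-! ### parameters of the path of the hinge -/

theorem hpp_threeE (p : Fin 3) (P B Q : Cl) : L3.clm B ≤ (hpp p P .threeE B Q).cl ∧
    (hpp p P .threeE B Q).XM - (hpp p P .threeE B Q).cr ≤ L3.capm B := by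
  unfold hpp
  cases B <;> split_ifs <;> simp only [hp, hp1, L3.clm, L3.capm, reduceCtorEq, if_false, if_true] <;>
    norm_num

theorem Adj.cl3 (A : Adj h i p j) (hc : clsW b i = .threeE) :
    L3.clm (clsW b j) ≤ wcl b h ∧ wXM b h - wcr b h ≤ L3.capm (clsW b j) := by
  rw [A.cl_eq b, A.XM_eq b, A.cr_eq b, hc]
  exact hpp_threeE _ _ _ _

/-- the inner variable of a maximiser is located if the hinge is on its left ramp or on the flat
part -/
theorem Adj.loc3 (A : Adj h i p j) (hb : ClassW b) (hL : Loc b zs) (hC : Crit b zs)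
    (hy : IsMx (wdat (tyW b) b) (wpar b zs) zs y) (hc : clsW b i = .threeE)
    (h0 : 0 < y (.inl (.inl h))) (h1 : y (.inl (.inl h)) ≤ wXM b h - wcr b h) :
    L3.LocM (Yw b zs y i p) (hE zs hc) (y (.inl (.inr (mE b hc)))) := by
  have c := A.cl3 hc
  have e := A.re (zs := zs) (y := y)
  exact L3.loc3 (A.HT3 hb hL hC hc) (A.rh hy) c.1 (wcr_pos h) (w_sum h) (by rw [e]; linarith only [h1, c])
    (by rw [e]; exact h1) (by rw [e]; exact h0) (A.maxM hb hy hc)

/-! ### push-back and uniqueness -/

theorem capm_le (B : Cl) : L3.capm B ≤ 35 / 100 := by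
  cases B <;> simp only [L3.capm] <;> norm_num

/-- **Push-back of an end with three crossings.** -/
theorem Adj.push3 (A : Adj h i p j) (hb : ClassW b) (hL : Loc b zs) (hC : Crit b zs)
    (hy : IsMx (wdat (tyW b) b) (wpar b zs) zs y) (hc : clsW b i = .threeE)
    (h0 : wcl b h ≤ y (.inl (.inl h))) (h1 : y (.inl (.inl h)) ≤ wXM b h - wcr b h) :
    Push' (tyW b) b i p p.rev (Xw b zs y i) (xx (tyW b) i zs) := by
  apply A.push_threeE hb hc
  have hp := wcl_pos (b := b) h
  have L := A.loc3 hb hL hC hy hc (hp.trans_le h0) h1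
  obtain ⟨L', e'⟩ := A.locS hb hL hC hc
  have e := Yw_mE (zs := zs) (y := y) hc
  have hr := A.re (zs := zs) (y := y)
  have hi : (Yw b zs y i p).im = (Ys b zs i p).im := by
    rw [(A.rh hy).im, hr, A.Ys_im, tr_b hp (wcr_pos h) h0 h1, mul_one]
  have b1 := A.boxE hb hL hc
  have b2 := hbox_re (clsW b j) (ssW b h)
  unfold Box.In at b1
  have c1 := (A.cl3 hc).2
  have c2 := capm_le (clsW b j)
  have hs : (Yw b zs y i p).re + (Ys b zs i p).re < 1 := by
    rw [hr]
    linarith only [h0, h1, hp, b1, b2, c1, c2, b1.2.1, b2.2]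
  rw [e, e']
  constructor
  · intro hlt _
    exact L3.push3 L' L hi.symm (by linarith only [b1, b2, b1.1, b2.1]) hlt (by linarith only [h0, h1, hp, hr, c1, c2, hlt])
  · intro hlt _
    exact L3.push3 L L' hi (by rw [hr]; exact hp.trans_le h0) hlt hs

/-- **Uniqueness of the inner variable of an end with three crossings.** -/
theorem Adj.inner3 (A : Adj h i p j) (hb : ClassW b) (hL : Loc b zs) (hC : Crit b zs)
    (hy : IsMx (wdat (tyW b) b) (wpar b zs) zs y) (hc : clsW b i = .threeE)
    (h0 : wcl b h ≤ y (.inl (.inl h))) (h1 : y (.inl (.inl h)) ≤ wXM b h - wcr b h)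
    (he : y (.inl (.inl h)) = (zs (.inl (.inl h))).re) :
    y (.inl (.inr (mE b hc))) = (zs (.inl (.inr (mE b hc)))).re := by
  have hp := wcl_pos (b := b) h
  have L := A.loc3 hb hL hC hy hc (hp.trans_le h0) h1
  obtain ⟨L', e'⟩ := A.locS hb hL hC hc
  have hr := A.re (zs := zs) (y := y)
  have hv : Yw b zs y i p = Ys b zs i p := by
    apply Complex.ext
    · rw [hr, he, A.Ys_re]
    · rw [(A.rh hy).im, hr, A.Ys_im, tr_b hp (wcr_pos h) h0 h1, mul_one]
  rw [hv] at L
  have := L3.inner3 L L'
  rw [this, Ys_mE hc, ofr_re]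

/-! ### the left ramp -/

/-- lower bounds of the side of an end with three crossings on the left ramp; `p` the slot of the
hinge -/
noncomputable def b3E (p : Fin 3) : Cl → ℝ
  | .one => -(34 / 100)
  | .two => 10 / 100
  | .twoE => 40 / 100
  | .three => if p = 2 then 4 / 100 else -(4 / 100)
  | .threeE => 40 / 100
  | .ring => 10 / 100

/-- **The side of an end with three crossings on the left ramp.** -/
theorem threeE_L (hb : ClassW b) (hL : Loc b zs) (hC : Crit b zs)
    (hy : IsMx (wdat (tyW b) b) (wpar b zs) zs y)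
    (hpos : ∀ h : Fin M, 0 < y (.inl (.inl h))) (A : Adj h i p j) (hc : clsW b i = .threeE)
    (hx : y (.inl (.inl h)) ≤ wcl b h) :
    b3E p (clsW b j) < Sw b zs y i p ((zs (.inl (.inl h))).im / wcl b h) +
      shL (clsW b i) (clsW b j) (y (.inl (.inl h))) *
        ofs (b i) ((zs (.inl (.inl h))).im / wcl b h) := by
  have hT := A.HT3 hb hL hC hc
  have q1 := w_sum (b := b) h
  have q2 := wcr_pos (b := b) h
  have q3 := wcl_pos (b := b) h
  have L := A.loc3 hb hL hC hy hc (hpos h) (by linarith only [hx, q1])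
  have hr := A.re (zs := zs) (y := y)
  have hi : (Yw b zs y i p).im = ofs (b i) (zs (.inl (.inl h))).im * (y (.inl (.inl h)) / wcl b h) := by
    rw [(A.rh hy).im, hr, tr_a q3 q2 q1 (hpos h).le hx]
  have e := Yw_mE (zs := zs) (y := y) hc
  rw [A.side_threeE hb hc, ofs_div, hc, e]
  have hcl : wcl b h = (hpp p (oc b i p.rev) .threeE (clsW b j) (oc b j p)).cl := by
    rw [A.cl_eq b, hc]
  have hp02 := A.slot
  generalize ofs (b i) (zs (.inl (.inl h))).im = T at hT hi ⊢
  generalize hE zs hc = H at hT L ⊢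
  generalize y (.inl (.inr (mE b hc))) = μ at L ⊢
  generalize hv : Yw b zs y i p = v at L hi hr ⊢
  have ha := hpos h
  generalize y (.inl (.inl h)) = a at hi hr hx ha ⊢
  cases hB : clsW b j with
  | one =>
    have h14 : wcl b h = 14 / 100 := by
      rw [hcl, hB]; unfold hpp; split_ifs <;> simp only [hp, hp1]
    rw [hB] at hT
    rw [h14] at hi hx ⊢
    have := L3.left_one hT L hr (by rw [hi]; ring) ha hx
    have e1 : shL .threeE .one a = Real.pi - 9 / 2 * a := by
      unfold shL ML.sh1
      simp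
    rw [e1]
    rw [show (100 : ℝ) / 14 * T = T / (14 / 100) by ring] at this
    exact this
  | two =>
    have h14 : wcl b h = 1 / 10 := by
      rw [hcl, hB]; unfold hpp; split_ifs <;> simp only [hp] <;> norm_num
    rw [hB] at hT
    rw [h14] at hi hx ⊢
    have := L3.left_two hT L hr (by rw [hi]; ring) ha hx
    have e1 : shL .threeE .two a = Real.pi / 2 := by
      unfold shL
      simp
    rw [e1]
    rw [show (10 : ℝ) * T = T / (1 / 10) by ring] at this
    exact this
  | twoE =>
    have h14 : wcl b h = 1 / 10 := by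
      rw [hcl, hB]; unfold hpp; split_ifs <;> simp only [hp] <;> norm_num
    rw [hB] at hT
    rw [h14] at hi hx ⊢
    have := L3.left_twoE hT L hr (by rw [hi]; ring) ha hx
    have e1 : shL .threeE .twoE a = Real.pi / 2 := by
      unfold shL
      simp
    rw [e1]
    rw [show (10 : ℝ) * T = T / (1 / 10) by ring] at this
    exact this
  | three =>
    have e1 : shL .threeE .three a = Real.pi / 2 := by
      unfold shL
      simp
    rw [hB] at hT
    rw [e1]
    rcases hp02 with hp2 | hp2
    · have h14 : wcl b h = 13 / 100 := by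
        rw [hcl, hB, hp2]; unfold hpp; rw [if_neg (by decide)]; simp only [hp]
      rw [h14] at hi hx ⊢
      have := L3.left_three13 hT L hr (by rw [hi]; ring) ha hx
      rw [show (100 : ℝ) / 13 * T = T / (13 / 100) by ring] at this
      unfold b3E
      rw [hp2, if_neg (by decide)]
      exact this
    · have h14 : wcl b h = 12 / 100 := by
        rw [hcl, hB, hp2]; unfold hpp; rw [if_pos rfl]; simp only [hp]
      rw [h14] at hi hx ⊢
      have := L3.left_three12 hT L hr (by rw [hi]; ring) ha hx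
      rw [show (100 : ℝ) / 12 * T = T / (12 / 100) by ring] at this
      unfold b3E
      rw [hp2, if_pos rfl]
      exact this
  | threeE =>
    have h14 : wcl b h = 1 / 10 := by
      rw [hcl, hB]; unfold hpp; split_ifs <;> simp only [hp] <;> norm_num
    rw [hB] at hT
    rw [h14] at hi hx ⊢
    have := L3.left_threeE hT L hr (by rw [hi]; ring) ha hx
    have e1 : shL .threeE .threeE a = Real.pi / 2 := by
      unfold shL
      simp
    rw [e1]
    rw [show (10 : ℝ) * T = T / (1 / 10) by ring] at this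
    exact this
  | ring =>
    have h14 : wcl b h = 1 / 10 := by
      rw [hcl, hB]; unfold hpp; split_ifs <;> simp only [hp] <;> norm_num
    rw [hB] at hT
    rw [h14] at hi hx ⊢
    have := L3.left_ring hT L hr (by rw [hi]; ring) ha hx
    have e1 : shL .threeE .ring a = Real.pi / 2 := by
      unfold shL
      simp
    rw [e1]
    rw [show (10 : ℝ) * T = T / (1 / 10) by ring] at this
    exact this

/-- **The side of an end with three crossings next to a digit `1`, first round.** -/
theorem threeE_L0 (hb : ClassW b) (hL : Loc b zs) (hC : Crit b zs)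
    (hy : IsMx (wdat (tyW b) b) (wpar b zs) zs y)
    (hpos : ∀ h : Fin M, 0 < y (.inl (.inl h))) (A : Adj h i p j) (hc : clsW b i = .threeE)
    (hj : clsW b j = .one) (hx : y (.inl (.inl h)) ≤ 7 / 100) :
    -(9 / 100) < Sw b zs y i p ((zs (.inl (.inl h))).im / wcl b h) +
      shL (clsW b i) (clsW b j) (y (.inl (.inl h))) *
        ofs (b i) ((zs (.inl (.inl h))).im / wcl b h) := by
  have hT := A.HT3 hb hL hC hc
  have q1 := w_sum (b := b) h
  have q2 := wcr_pos (b := b) h
  have q3 := wcl_pos (b := b) h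
  have h14 : wcl b h = 14 / 100 := by
    rw [A.cl_eq b, hc, hj]; unfold hpp; split_ifs <;> simp only [hp, hp1]
  have L := A.loc3 hb hL hC hy hc (hpos h) (by linarith only [hx, q1, q3, h14])
  have hr := A.re (zs := zs) (y := y)
  have hi : (Yw b zs y i p).im = ofs (b i) (zs (.inl (.inl h))).im * (y (.inl (.inl h)) / wcl b h) := by
    rw [(A.rh hy).im, hr, tr_a q3 q2 q1 (hpos h).le (by linarith only [hx, q3, h14])]
  have e := Yw_mE (zs := zs) (y := y) hc
  rw [A.side_threeE hb hc, ofs_div, hc, hj, e]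
  rw [hj] at hT
  rw [h14] at hi ⊢
  have := L3.left_one0 hT L hr (by rw [hi]; ring) (hpos h) hx
  have e1 : shL .threeE .one (y (.inl (.inl h))) = Real.pi - 9 / 2 * y (.inl (.inl h)) := by
    unfold shL ML.sh1
    simp
  rw [e1]
  rw [show (100 : ℝ) / 14 * ofs (b i) (zs (.inl (.inl h))).im =
    ofs (b i) (zs (.inl (.inl h))).im / (14 / 100) by ring] at this
  exact this

end SR

end Pool.Agent.Work.MP_b30479_gtS.G2

end
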