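import Pool.Agent.Work.MP_b30479_gt.TBS.G2.ML3q_0

/-!
# Part of `ML3q`
-/
set_option deprecated.oldSectionVars true

namespace Pool.Agent.Work.MP_b30479_gtS.G2

open Finset VOL Filter Topology

namespace L3

open NumIs (V lkR)
open NumUs NumUs.E

/-- end 3 next to `three`, right ramp, shift `π` -/
theorem right_three_pb {T h μ a : ℝ} {v : ℂ} (hT : HT .three T h) (H : MaxM v h μ)
    (hr : v.re = a) (hi : v.im = 10 / 3 * T * (6 / 10 - a)) (a0 : 400 / 1000 ≤ a)
    (a1 : a ≤ 600 / 1000) :
    S3 1 (-(10 / 3 * T)) v (mpt h μ) + Real.pi * (-(10 / 3 * T)) ≤ -(20 / 100) := by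
  obtain ⟨T0, T1, h1, hT2⟩ := hT
  have hpi := Real.pi_pos
  have kv : ∀ μ : ℝ, ((q 10 3) : E).val [a, T, h, μ] = 10 / 3 := fun μ => by
    simp only [E.val]; norm_num
  have cv : ∀ μ : ℝ, (pi : E).val [a, T, h, μ] = Real.pi := fun μ => by
    simp only [E.val]
  have ev : ∀ μ : ℝ, ((q (-20) 100) : E).val [a, T, h, μ] = -(20 / 100) := fun μ => by
    simp only [E.val]; norm_num
  have hh : |h| ≤ 655 / 10000 := by rw [abs_le]; constructor <;> linarith only [T0, hT2, h1]
  have htr : 52 / 100 ≤ a → |10 / 3 * T * (6 / 10 - a)| ≤ 25 / 1000 := fun c => by
    rw [abs_le]; constructor <;> nlinarith only [a1, T0, a0, T1, c]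
  refine right3 hr hi H (by linarith only [a0]) (by linarith only [a1]) hh htr ?_ ?_ ?_ ?_
  · intro m1 m0 σ hσ hy
    rcases le_total a (43 / 100) with d | d
    · rcases hσ with rfl | rfl
      · have hc : chk [sub (x57 (q 10 3)) (xGA (q 10 3) (q 1 1)), xR (q 10 3) (xDA (q 10 3) (q 1 1)) pi (q (-20) 100), sub (mul (q 1 2) (var 1)) (var 2), neg (xy (q 10 3))] 30
            [V.of 10000 4000 4300, V.of 10000 50 280, V.of 10000 0 430, V.of 10000 0 1000] = true := by
          decide +kernel
        obtain ⟨e, he, hp⟩ := chk4 hc n0 (x := a) (y := T) (z := h) (w := μ)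
          (bl (by push_cast; linarith only [a0, d])) (bu (by push_cast; linarith only [a1, d]))
          (bl (by push_cast; linarith only [T0])) (bu (by push_cast; linarith only [T1]))
          (bl (by push_cast; linarith only [hT2, T0])) (bu (by push_cast; linarith only [h1]))
          (bl (by push_cast; linarith only [m0])) (bu (by push_cast; linarith only [m1]))
        simp only [List.mem_cons, List.not_mem_nil, or_false] at he
        rcases he with rfl | rfl | rfl | rfl
        · left
          have sv : ((q 1 1) : E).val [a, T, h, μ] = 1 := by simp only [E.val]; norm_num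
          rw [E.val, x57_val (kv μ), xGA_val (kv μ) sv] at hp
          linarith only [hp]
        · right; right
          have sv : ((q 1 1) : E).val [a, T, h, μ] = 1 := by simp only [E.val]; norm_num
          rw [xR_val (kv μ) (cv μ) (ev μ), xDA_val (kv μ) sv] at hp
          linarith only [hp]
        · simp only [E.val, lkR] at hp
          push_cast at hp
          exact absurd hp (by linarith only [hT2, hp])
        · simp only [xy, xm, xt, E.val, lkR] at hp
          push_cast at hp
          exact absurd hp (by linarith only [hy, hp])
      · have hc : chk [sub (x57 (q 10 3)) (xGA (q 10 3) (q (-1) 1)), xR (q 10 3) (xDA (q 10 3) (q (-1) 1)) pi (q (-20) 100), sub (mul (q 1 2) (var 1)) (var 2), xy (q 10 3)] 30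
            [V.of 10000 4000 4300, V.of 10000 50 280, V.of 10000 0 430, V.of 10000 0 1000] = true := by
          decide +kernel
        obtain ⟨e, he, hp⟩ := chk4 hc n0 (x := a) (y := T) (z := h) (w := μ)
          (bl (by push_cast; linarith only [a0, d])) (bu (by push_cast; linarith only [a1, d]))
          (bl (by push_cast; linarith only [T0])) (bu (by push_cast; linarith only [T1]))
          (bl (by push_cast; linarith only [hT2, T0])) (bu (by push_cast; linarith only [h1]))
          (bl (by push_cast; linarith only [m0])) (bu (by push_cast; linarith only [m1]))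
        simp only [List.mem_cons, List.not_mem_nil, or_false] at he
        rcases he with rfl | rfl | rfl | rfl
        · left
          have sv : ((q (-1) 1) : E).val [a, T, h, μ] = -1 := by simp only [E.val]; norm_num
          rw [E.val, x57_val (kv μ), xGA_val (kv μ) sv] at hp
          linarith only [hp]
        · right; right
          have sv : ((q (-1) 1) : E).val [a, T, h, μ] = -1 := by simp only [E.val]; norm_num
          rw [xR_val (kv μ) (cv μ) (ev μ), xDA_val (kv μ) sv] at hp
          linarith only [hp]
        · simp only [E.val, lkR] at hp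
          push_cast at hp
          exact absurd hp (by linarith only [hT2, hp])
        · simp only [xy, xm, xt, E.val, lkR] at hp
          push_cast at hp
          exact absurd hp (by linarith only [hy, hp])
    · rcases hσ with rfl | rfl
      · have hc : chk [sub (x77 (q 10 3)) (xGA (q 10 3) (q 1 1)), xR (q 10 3) (xDA (q 10 3) (q 1 1)) pi (q (-20) 100), sub (mul (q 1 2) (var 1)) (var 2), neg (xy (q 10 3))] 30
            [V.of 10000 4300 6000, V.of 10000 50 280, V.of 10000 0 430, V.of 10000 0 1000] = true := by
          decide +kernel
        obtain ⟨e, he, hp⟩ := chk4 hc n0 (x := a) (y := T) (z := h) (w := μ)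
          (bl (by push_cast; linarith only [a0, d])) (bu (by push_cast; linarith only [a1, d]))
          (bl (by push_cast; linarith only [T0])) (bu (by push_cast; linarith only [T1]))
          (bl (by push_cast; linarith only [hT2, T0])) (bu (by push_cast; linarith only [h1]))
          (bl (by push_cast; linarith only [m0])) (bu (by push_cast; linarith only [m1]))
        simp only [List.mem_cons, List.not_mem_nil, or_false] at he
        rcases he with rfl | rfl | rfl | rfl
        · right; left
          have sv : ((q 1 1) : E).val [a, T, h, μ] = 1 := by simp only [E.val]; norm_num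
          rw [E.val, x77_val (kv μ), xGA_val (kv μ) sv] at hp
          linarith only [hp]
        · right; right
          have sv : ((q 1 1) : E).val [a, T, h, μ] = 1 := by simp only [E.val]; norm_num
          rw [xR_val (kv μ) (cv μ) (ev μ), xDA_val (kv μ) sv] at hp
          linarith only [hp]
        · simp only [E.val, lkR] at hp
          push_cast at hp
          exact absurd hp (by linarith only [hT2, hp])
        · simp only [xy, xm, xt, E.val, lkR] at hp
          push_cast at hp
          exact absurd hp (by linarith only [hy, hp])
      · have hc : chk [sub (x77 (q 10 3)) (xGA (q 10 3) (q (-1) 1)), xR (q 10 3) (xDA (q 10 3) (q (-1) 1)) pi (q (-20) 100), sub (mul (q 1 2) (var 1)) (var 2), xy (q 10 3)] 30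
            [V.of 10000 4300 6000, V.of 10000 50 280, V.of 10000 0 430, V.of 10000 0 1000] = true := by
          decide +kernel
        obtain ⟨e, he, hp⟩ := chk4 hc n0 (x := a) (y := T) (z := h) (w := μ)
          (bl (by push_cast; linarith only [a0, d])) (bu (by push_cast; linarith only [a1, d]))
          (bl (by push_cast; linarith only [T0])) (bu (by push_cast; linarith only [T1]))
          (bl (by push_cast; linarith only [hT2, T0])) (bu (by push_cast; linarith only [h1]))
          (bl (by push_cast; linarith only [m0])) (bu (by push_cast; linarith only [m1]))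
        simp only [List.mem_cons, List.not_mem_nil, or_false] at he
        rcases he with rfl | rfl | rfl | rfl
        · right; left
          have sv : ((q (-1) 1) : E).val [a, T, h, μ] = -1 := by simp only [E.val]; norm_num
          rw [E.val, x77_val (kv μ), xGA_val (kv μ) sv] at hp
          linarith only [hp]
        · right; right
          have sv : ((q (-1) 1) : E).val [a, T, h, μ] = -1 := by simp only [E.val]; norm_num
          rw [xR_val (kv μ) (cv μ) (ev μ), xDA_val (kv μ) sv] at hp
          linarith only [hp]
        · simp only [E.val, lkR] at hp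
          push_cast at hp
          exact absurd hp (by linarith only [hT2, hp])
        · simp only [xy, xm, xt, E.val, lkR] at hp
          push_cast at hp
          exact absurd hp (by linarith only [hy, hp])
  · intro w c1
    have hb : bb (-(10 / 3 * T)) (h - 10 / 3 * T * (6 / 10 - a)) ≤ -1 * (-(10 / 3 * T) * (Real.pi / 2)) := by
      refine bb_le.trans (le_of_eq ?_)
      rw [abs_of_nonpos (by linarith only [T0])]
      ring
    refine (add_le_add_left (DB_mono hb) _).trans ?_
    have hc : chk [xR (q 10 3) (xDB (q 10 3) (q (-1) 1)) pi (q (-20) 100), sub (mul (q 1 2) (var 1)) (var 2)] 30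
        [V.of 10000 4000 5700, V.of 10000 50 280, V.of 10000 0 430, V.of 10000 4000 5700] = true := by
      decide +kernel
    obtain ⟨e, he, hp⟩ := chk4 hc n0 (x := a) (y := T) (z := h) (w := μ)
      (bl (by push_cast; linarith only [a0])) (bu (by push_cast; linarith only [a1, w, c1]))
      (bl (by push_cast; linarith only [T0])) (bu (by push_cast; linarith only [T1]))
      (bl (by push_cast; linarith only [hT2, T0])) (bu (by push_cast; linarith only [h1]))
      (bl (by push_cast; linarith only [a0, w])) (bu (by push_cast; linarith only [c1]))
    simp only [List.mem_cons, List.not_mem_nil, or_false] at he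
    rcases he with rfl | rfl
    · have nv : ((q (-1) 1) : E).val [a, T, h, μ] = -1 := by simp only [E.val]; norm_num
      rw [xR_val (kv μ) (cv μ) (ev μ), xDB_val (kv μ) nv] at hp
      linarith only [hp]
    · simp only [E.val, lkR] at hp
      push_cast at hp
      exact absurd hp (by linarith only [hT2, hp])
  · intro m0 m1 w f
    have hc : chk [xR (q 10 3) (xDC (q 10 3)) pi (q (-20) 100), neg (xFC (q 10 3)), sub (mul (q 1 2) (var 1)) (var 2), sub (q 5 100) (sub (var 3) (var 0))] 30
        [V.of 10000 4000 6000, V.of 10000 50 280, V.of 10000 0 430, V.of 10000 5700 7700] = true := by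
      decide +kernel
    obtain ⟨e, he, hp⟩ := chk4 hc n0 (x := a) (y := T) (z := h) (w := μ)
      (bl (by push_cast; linarith only [a0])) (bu (by push_cast; linarith only [a1]))
      (bl (by push_cast; linarith only [T0])) (bu (by push_cast; linarith only [T1]))
      (bl (by push_cast; linarith only [hT2, T0])) (bu (by push_cast; linarith only [h1]))
      (bl (by push_cast; linarith only [m0])) (bu (by push_cast; linarith only [m1]))
    simp only [List.mem_cons, List.not_mem_nil, or_false] at he
    rcases he with rfl | rfl | rfl | rfl
    · rw [xR_val (kv μ) (cv μ) (ev μ), xDC_val (kv μ)] at hp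
      linarith only [hp]
    · rw [E.val, xFC_val (kv μ)] at hp
      exact absurd hp (by linarith only [f])
    · simp only [E.val, lkR] at hp
      push_cast at hp
      exact absurd hp (by linarith only [hT2, hp])
    · simp only [E.val, lkR] at hp
      push_cast at hp
      exact absurd hp (by linarith only [w, hp])
  · intro d0 m0 m1
    have sv : ((q (-1) 1) : E).val [a, T, h, μ] = -1 := by simp only [E.val]; norm_num
    have hs : (-1 : ℝ) * (-(10 / 3 * T)) = |(-(10 / 3 * T))| := by
      rw [abs_of_nonpos (by linarith only [T0])]; ring
    have hc : chk [xR (q 10 3) (xDR (q 10 3) (q (-1) 1)) pi (q (-20) 100)] 30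
        [V.of 10000 5200 6000, V.of 10000 50 280, V.of 10000 0 430, V.of 10000 5700 6500] = true := by
      decide +kernel
    obtain ⟨e, he, hp⟩ := chk4 hc n0 (x := a) (y := T) (z := h) (w := μ)
      (bl (by push_cast; linarith only [a0, d0])) (bu (by push_cast; linarith only [a1]))
      (bl (by push_cast; linarith only [T0])) (bu (by push_cast; linarith only [T1]))
      (bl (by push_cast; linarith only [hT2, T0])) (bu (by push_cast; linarith only [h1]))
      (bl (by push_cast; linarith only [m0])) (bu (by push_cast; linarith only [m1]))
    simp only [List.mem_cons, List.not_mem_nil, or_false] at he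
    subst he
    rw [xR_val (kv μ) (cv μ) (ev μ), xDR_val (kv μ) sv hs] at hp
    linarith only [hp]

/-- end 3 next to `threeE`, right ramp -/
theorem right_threeE {T h μ a : ℝ} {v : ℂ} (hT : HT .threeE T h) (H : MaxM v h μ)
    (hr : v.re = a) (hi : v.im = 10 / 3 * T * (6 / 10 - a)) (a0 : 300 / 1000 ≤ a)
    (a1 : a ≤ 600 / 1000) :
    S3 1 (-(10 / 3 * T)) v (mpt h μ) ≤ -(40 / 100) := by
  obtain ⟨T0, T1, h0, h1⟩ := hT
  have hpi := Real.pi_pos
  have kv : ∀ μ : ℝ, ((q 10 3) : E).val [a, T, h, μ] = 10 / 3 := fun μ => by
    simp only [E.val]; norm_num
  have cv : ∀ μ : ℝ, ((q 0 1) : E).val [a, T, h, μ] = 0 := fun μ => by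
    simp only [E.val]; norm_num
  have ev : ∀ μ : ℝ, ((q (-40) 100) : E).val [a, T, h, μ] = -(40 / 100) := fun μ => by
    simp only [E.val]; norm_num
  have hh : |h| ≤ 655 / 10000 := by rw [abs_le]; constructor <;> linarith only [h0, h1]
  have htr : 52 / 100 ≤ a → |10 / 3 * T * (6 / 10 - a)| ≤ 25 / 1000 := fun c => by
    rw [abs_le]; constructor <;> nlinarith only [a1, T0, a0, T1]
  rw [show S3 1 (-(10 / 3 * T)) v (mpt h μ) = S3 1 (-(10 / 3 * T)) v (mpt h μ) + 0 * (-(10 / 3 * T)) by ring]
  refine right3 hr hi H (by linarith only [a0]) (by linarith only [a1]) hh htr ?_ ?_ ?_ ?_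
  · intro m1 m0 σ hσ hy
    rcases le_total a (43 / 100) with d | d
    · rcases hσ with rfl | rfl
      · have hc : chk [sub (x57 (q 10 3)) (xGA (q 10 3) (q 1 1)), xR (q 10 3) (xDA (q 10 3) (q 1 1)) (q 0 1) (q (-40) 100), neg (xy (q 10 3))] 30
            [V.of 10000 3000 4300, V.of 10000 (-10) 10, V.of 10000 (-20) 20, V.of 10000 0 1000] = true := by
          decide +kernel
        obtain ⟨e, he, hp⟩ := chk4 hc n0 (x := a) (y := T) (z := h) (w := μ)
          (bl (by push_cast; linarith only [a0, d])) (bu (by push_cast; linarith only [a1, d]))
          (bl (by push_cast; linarith only [T0])) (bu (by push_cast; linarith only [T1]))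
          (bl (by push_cast; linarith only [h0])) (bu (by push_cast; linarith only [h1]))
          (bl (by push_cast; linarith only [m0])) (bu (by push_cast; linarith only [m1]))
        simp only [List.mem_cons, List.not_mem_nil, or_false] at he
        rcases he with rfl | rfl | rfl
        · left
          have sv : ((q 1 1) : E).val [a, T, h, μ] = 1 := by simp only [E.val]; norm_num
          rw [E.val, x57_val (kv μ), xGA_val (kv μ) sv] at hp
          linarith only [hp]
        · right; right
          have sv : ((q 1 1) : E).val [a, T, h, μ] = 1 := by simp only [E.val]; norm_num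
          rw [xR_val (kv μ) (cv μ) (ev μ), xDA_val (kv μ) sv] at hp
          linarith only [hp]
        · simp only [xy, xm, xt, E.val, lkR] at hp
          push_cast at hp
          exact absurd hp (by linarith only [hy, hp])
      · have hc : chk [sub (x57 (q 10 3)) (xGA (q 10 3) (q (-1) 1)), xR (q 10 3) (xDA (q 10 3) (q (-1) 1)) (q 0 1) (q (-40) 100), xy (q 10 3)] 30
            [V.of 10000 3000 4300, V.of 10000 (-10) 10, V.of 10000 (-20) 20, V.of 10000 0 1000] = true := by
          decide +kernel
        obtain ⟨e, he, hp⟩ := chk4 hc n0 (x := a) (y := T) (z := h) (w := μ)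
          (bl (by push_cast; linarith only [a0, d])) (bu (by push_cast; linarith only [a1, d]))
          (bl (by push_cast; linarith only [T0])) (bu (by push_cast; linarith only [T1]))
          (bl (by push_cast; linarith only [h0])) (bu (by push_cast; linarith only [h1]))
          (bl (by push_cast; linarith only [m0])) (bu (by push_cast; linarith only [m1]))
        simp only [List.mem_cons, List.not_mem_nil, or_false] at he
        rcases he with rfl | rfl | rfl
        · left
          have sv : ((q (-1) 1) : E).val [a, T, h, μ] = -1 := by simp only [E.val]; norm_num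
          rw [E.val, x57_val (kv μ), xGA_val (kv μ) sv] at hp
          linarith only [hp]
        · right; right
          have sv : ((q (-1) 1) : E).val [a, T, h, μ] = -1 := by simp only [E.val]; norm_num
          rw [xR_val (kv μ) (cv μ) (ev μ), xDA_val (kv μ) sv] at hp
          linarith only [hp]
        · simp only [xy, xm, xt, E.val, lkR] at hp
          push_cast at hp
          exact absurd hp (by linarith only [hy, hp])
    · rcases hσ with rfl | rfl
      · have hc : chk [sub (x77 (q 10 3)) (xGA (q 10 3) (q 1 1)), xR (q 10 3) (xDA (q 10 3) (q 1 1)) (q 0 1) (q (-40) 100), neg (xy (q 10 3))] 30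
            [V.of 10000 4300 6000, V.of 10000 (-10) 10, V.of 10000 (-20) 20, V.of 10000 0 1000] = true := by
          decide +kernel
        obtain ⟨e, he, hp⟩ := chk4 hc n0 (x := a) (y := T) (z := h) (w := μ)
          (bl (by push_cast; linarith only [a0, d])) (bu (by push_cast; linarith only [a1, d]))
          (bl (by push_cast; linarith only [T0])) (bu (by push_cast; linarith only [T1]))
          (bl (by push_cast; linarith only [h0])) (bu (by push_cast; linarith only [h1]))
          (bl (by push_cast; linarith only [m0])) (bu (by push_cast; linarith only [m1]))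
        simp only [List.mem_cons, List.not_mem_nil, or_false] at he
        rcases he with rfl | rfl | rfl
        · right; left
          have sv : ((q 1 1) : E).val [a, T, h, μ] = 1 := by simp only [E.val]; norm_num
          rw [E.val, x77_val (kv μ), xGA_val (kv μ) sv] at hp
          linarith only [hp]
        · right; right
          have sv : ((q 1 1) : E).val [a, T, h, μ] = 1 := by simp only [E.val]; norm_num
          rw [xR_val (kv μ) (cv μ) (ev μ), xDA_val (kv μ) sv] at hp
          linarith only [hp]
        · simp only [xy, xm, xt, E.val, lkR] at hp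
          push_cast at hp
          exact absurd hp (by linarith only [hy, hp])
      · have hc : chk [sub (x77 (q 10 3)) (xGA (q 10 3) (q (-1) 1)), xR (q 10 3) (xDA (q 10 3) (q (-1) 1)) (q 0 1) (q (-40) 100), xy (q 10 3)] 30
            [V.of 10000 4300 6000, V.of 10000 (-10) 10, V.of 10000 (-20) 20, V.of 10000 0 1000] = true := by
          decide +kernel
        obtain ⟨e, he, hp⟩ := chk4 hc n0 (x := a) (y := T) (z := h) (w := μ)
          (bl (by push_cast; linarith only [a0, d])) (bu (by push_cast; linarith only [a1, d]))
          (bl (by push_cast; linarith only [T0])) (bu (by push_cast; linarith only [T1]))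
          (bl (by push_cast; linarith only [h0])) (bu (by push_cast; linarith only [h1]))
          (bl (by push_cast; linarith only [m0])) (bu (by push_cast; linarith only [m1]))
        simp only [List.mem_cons, List.not_mem_nil, or_false] at he
        rcases he with rfl | rfl | rfl
        · right; left
          have sv : ((q (-1) 1) : E).val [a, T, h, μ] = -1 := by simp only [E.val]; norm_num
          rw [E.val, x77_val (kv μ), xGA_val (kv μ) sv] at hp
          linarith only [hp]
        · right; right
          have sv : ((q (-1) 1) : E).val [a, T, h, μ] = -1 := by simp only [E.val]; norm_num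
          rw [xR_val (kv μ) (cv μ) (ev μ), xDA_val (kv μ) sv] at hp
          linarith only [hp]
        · simp only [xy, xm, xt, E.val, lkR] at hp
          push_cast at hp
          exact absurd hp (by linarith only [hy, hp])
  · intro w c1
    rcases le_total T 0 with d | d
    · have hb : bb (-(10 / 3 * T)) (h - 10 / 3 * T * (6 / 10 - a)) ≤ 1 * (-(10 / 3 * T) * (Real.pi / 2)) := by
        refine bb_le.trans (le_of_eq ?_)
        rw [abs_of_nonneg (by linarith only [d])]
        ring
      refine (add_le_add_left (DB_mono hb) _).trans ?_
      have hc : chk [xR (q 10 3) (xDB (q 10 3) (q 1 1)) (q 0 1) (q (-40) 100)] 30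
          [V.of 10000 3000 5700, V.of 10000 (-10) 0, V.of 10000 (-20) 20, V.of 10000 3000 5700] = true := by
        decide +kernel
      obtain ⟨e, he, hp⟩ := chk4 hc n0 (x := a) (y := T) (z := h) (w := μ)
        (bl (by push_cast; linarith only [a0])) (bu (by push_cast; linarith only [a1, w, c1]))
        (bl (by push_cast; linarith only [T0])) (bu (by push_cast; linarith only [T1, d]))
        (bl (by push_cast; linarith only [h0])) (bu (by push_cast; linarith only [h1]))
        (bl (by push_cast; linarith only [a0, w])) (bu (by push_cast; linarith only [c1]))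
      simp only [List.mem_cons, List.not_mem_nil, or_false] at he
      subst he
      have nv : ((q 1 1) : E).val [a, T, h, μ] = 1 := by simp only [E.val]; norm_num
      rw [xR_val (kv μ) (cv μ) (ev μ), xDB_val (kv μ) nv] at hp
      linarith only [hp]
    · have hb : bb (-(10 / 3 * T)) (h - 10 / 3 * T * (6 / 10 - a)) ≤ -1 * (-(10 / 3 * T) * (Real.pi / 2)) := by
        refine bb_le.trans (le_of_eq ?_)
        rw [abs_of_nonpos (by linarith only [d])]
        ring
      refine (add_le_add_left (DB_mono hb) _).trans ?_
      have hc : chk [xR (q 10 3) (xDB (q 10 3) (q (-1) 1)) (q 0 1) (q (-40) 100)] 30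
          [V.of 10000 3000 5700, V.of 10000 0 10, V.of 10000 (-20) 20, V.of 10000 3000 5700] = true := by
        decide +kernel
      obtain ⟨e, he, hp⟩ := chk4 hc n0 (x := a) (y := T) (z := h) (w := μ)
        (bl (by push_cast; linarith only [a0])) (bu (by push_cast; linarith only [a1, w, c1]))
        (bl (by push_cast; linarith only [T0, d])) (bu (by push_cast; linarith only [T1]))
        (bl (by push_cast; linarith only [h0])) (bu (by push_cast; linarith only [h1]))
        (bl (by push_cast; linarith only [a0, w])) (bu (by push_cast; linarith only [c1]))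
      simp only [List.mem_cons, List.not_mem_nil, or_false] at he
      subst he
      have nv : ((q (-1) 1) : E).val [a, T, h, μ] = -1 := by simp only [E.val]; norm_num
      rw [xR_val (kv μ) (cv μ) (ev μ), xDB_val (kv μ) nv] at hp
      linarith only [hp]
  · intro m0 m1 w f
    have hc : chk [xR (q 10 3) (xDC (q 10 3)) (q 0 1) (q (-40) 100), neg (xFC (q 10 3)), sub (q 5 100) (sub (var 3) (var 0))] 30
        [V.of 10000 3000 6000, V.of 10000 (-10) 10, V.of 10000 (-20) 20, V.of 10000 5700 7700] = true := by
      decide +kernel
    obtain ⟨e, he, hp⟩ := chk4 hc n0 (x := a) (y := T) (z := h) (w := μ)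
      (bl (by push_cast; linarith only [a0])) (bu (by push_cast; linarith only [a1]))
      (bl (by push_cast; linarith only [T0])) (bu (by push_cast; linarith only [T1]))
      (bl (by push_cast; linarith only [h0])) (bu (by push_cast; linarith only [h1]))
      (bl (by push_cast; linarith only [m0])) (bu (by push_cast; linarith only [m1]))
    simp only [List.mem_cons, List.not_mem_nil, or_false] at he
    rcases he with rfl | rfl | rfl
    · rw [xR_val (kv μ) (cv μ) (ev μ), xDC_val (kv μ)] at hp
      linarith only [hp]
    · rw [E.val, xFC_val (kv μ)] at hp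
      exact absurd hp (by linarith only [f])
    · simp only [E.val, lkR] at hp
      push_cast at hp
      exact absurd hp (by linarith only [w, hp])
  · intro d0 m0 m1
    rcases le_total T 0 with d | d
    · have sv : ((q 1 1) : E).val [a, T, h, μ] = 1 := by simp only [E.val]; norm_num
      have hs : (1 : ℝ) * (-(10 / 3 * T)) = |(-(10 / 3 * T))| := by
        rw [abs_of_nonneg (by linarith only [d])]; ring
      have hc : chk [xR (q 10 3) (xDR (q 10 3) (q 1 1)) (q 0 1) (q (-40) 100)] 30
          [V.of 10000 5200 6000, V.of 10000 (-10) 0, V.of 10000 (-20) 20, V.of 10000 5700 6500] = true := by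
        decide +kernel
      obtain ⟨e, he, hp⟩ := chk4 hc n0 (x := a) (y := T) (z := h) (w := μ)
        (bl (by push_cast; linarith only [a0, d0])) (bu (by push_cast; linarith only [a1]))
        (bl (by push_cast; linarith only [T0])) (bu (by push_cast; linarith only [T1, d]))
        (bl (by push_cast; linarith only [h0])) (bu (by push_cast; linarith only [h1]))
        (bl (by push_cast; linarith only [m0])) (bu (by push_cast; linarith only [m1]))
      simp only [List.mem_cons, List.not_mem_nil, or_false] at he
      subst he
      rw [xR_val (kv μ) (cv μ) (ev μ), xDR_val (kv μ) sv hs] at hp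
      linarith only [hp]
    · have sv : ((q (-1) 1) : E).val [a, T, h, μ] = -1 := by simp only [E.val]; norm_num
      have hs : (-1 : ℝ) * (-(10 / 3 * T)) = |(-(10 / 3 * T))| := by
        rw [abs_of_nonpos (by linarith only [d])]; ring
      have hc : chk [xR (q 10 3) (xDR (q 10 3) (q (-1) 1)) (q 0 1) (q (-40) 100)] 30
          [V.of 10000 5200 6000, V.of 10000 0 10, V.of 10000 (-20) 20, V.of 10000 5700 6500] = true := by
        decide +kernel
      obtain ⟨e, he, hp⟩ := chk4 hc n0 (x := a) (y := T) (z := h) (w := μ)
        (bl (by push_cast; linarith only [a0, d0])) (bu (by push_cast; linarith only [a1]))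
        (bl (by push_cast; linarith only [T0, d])) (bu (by push_cast; linarith only [T1]))
        (bl (by push_cast; linarith only [h0])) (bu (by push_cast; linarith only [h1]))
        (bl (by push_cast; linarith only [m0])) (bu (by push_cast; linarith only [m1]))
      simp only [List.mem_cons, List.not_mem_nil, or_false] at he
      subst he
      rw [xR_val (kv μ) (cv μ) (ev μ), xDR_val (kv μ) sv hs] at hp
      linarith only [hp]

end L3

end Pool.Agent.Work.MP_b30479_gtS.G2
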