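import Pool.Agent.Work.MP_b30479_gt.TBS.G2.ML3r
import Pool.Agent.Work.MP_b30479_gt.TBS.G2.WMid
import Pool.Agent.Work.MP_b30479_gt.TBS.G2.WVal

/-!
# Part of `WE31`
-/
namespace Pool.Agent.Work.MP_b30479_gtS.G2

open Finset VOL Filter Topology NumUs

namespace SR

variable {M : ℕ} {b : Fin (M + 1) → ℤ} {zs : DD (tyW b) ⊕ ZZ (tyW b) → ℂ}
variable {y : DD (tyW b) ⊕ ZZ (tyW b) → ℝ}
variable {h h' : Fin M} {i j j' : Fin (M + 1)} {p : Fin 3}

theorem Adj.crit_sum (A : Adj h i p j) (hC : Crit b zs) (q : ℝ) :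
    rside (tyW b) b i p q (xx (tyW b) i zs) + rside (tyW b) b j p.rev q (xx (tyW b) j zs) = 0 := by
  cases A
  · exact hC.hinge h q
  · rw [add_comm]
    exact hC.hinge h q

theorem sad_row {x t : ℝ} (x0 : 448 / 1000 ≤ x) (x1 : x ≤ 666 / 1000) (t0 : 83 / 1000 ≤ t)
    (t1 : t ≤ 134 / 1000) : 8539 / 10000 < Real.pi * t + NumIs.lnA x t := by
  have h : NumIs.chk [NumIs.E.sub (NumIs.E.add (NumIs.E.mul NumIs.E.pi (NumIs.E.var 1))
      (NumIs.E.lnA (NumIs.E.var 0) (NumIs.E.var 1))) (NumIs.E.q 8539 10000)] 30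
      [NumIs.V.of 1000 448 666, NumIs.V.of 1000 83 134] = true := by
    decide +kernel
  have hp := NumIs.pos_of_chk (NumIs.chk2 h (by norm_num) (x := x) (y := t)
    (by norm_num; linarith only [x0]) (by norm_num; linarith only [x1]) (by norm_num; linarith only [t0])
    (by norm_num; linarith only [t1]))
  simp only [NumIs.E.val, NumIs.lkR] at hp
  push_cast at hp
  linarith only [hp]

theorem V1_D1 (c T : ℝ) {w v : ℂ} {a k τ : ℝ} (h1 : w.re = a) (h2 : w.im = 4 * T * (6 / 10 - a))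
    (h3 : v.re = k) (h4 : v.im = τ) :
    V1 (c + (T : ℂ) * Complex.I) v - V1 w v = L3.D1 c a T k τ := by
  unfold V1 L3.D1
  rw [UU_uu (c + (T : ℂ) * Complex.I + v), UU_uu (c + (T : ℂ) * Complex.I), UU_uu (w + v), UU_uu w]
  simp only [Complex.add_re, Complex.add_im, Complex.sub_im, Complex.mul_im, Complex.mul_re,
    Complex.ofReal_re, Complex.ofReal_im, Complex.I_re, Complex.I_im, mul_zero, mul_one,
    add_zero, zero_add, sub_zero, h1, h2, h3, h4]
  ring

end SR

namespace L3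

theorem dd_one {a T k K XM B : ℝ} (hXM : XM = 80 / 100 ∨ XM = 86 / 100)
    (hd : 0 < D1 (3 / 10) a T k (K * tr 0 (80 / 100) (15 / 100) (20 / 100) k) + B)
    (hx : 60 / 100 ≤ k → 0 < D1 (3 / 10) a T k (K * tr 0 (86 / 100) (15 / 100) (20 / 100) k) + B)
    (k0 : 0 ≤ k) : 0 < D1 (3 / 10) a T k (K * tr 0 XM (15 / 100) (20 / 100) k) + B := by
  rcases hXM with rfl | rfl
  · exact hd
  · rcases le_total k (60 / 100) with h | h
    · have : tr 0 (86 / 100) (15 / 100) (20 / 100) k = tr 0 (80 / 100) (15 / 100) (20 / 100) k := by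
        rcases le_total k (15 / 100) with h' | h'
        · rw [tr_a (by norm_num) (by norm_num) (by norm_num) k0 h',
            tr_a (by norm_num) (by norm_num) (by norm_num) k0 h']
        · rw [tr_b (by norm_num) (by norm_num) h' (by linarith only [h]),
            tr_b (by norm_num) (by norm_num) h' (by linarith only [h])]
      rw [this]
      exact hd
    · exact hx h

end L3

end Pool.Agent.Work.MP_b30479_gtS.G2
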