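import Pool.Agent.Work.MP_b30479_gt.TBS.G2.ML3q_0
import Pool.Agent.Work.MP_b30479_gt.TBS.G2.WVal
import Pool.Agent.Work.MP_b30479_gt.TBS.G2.ML3j_1
import Pool.Agent.Work.MP_b30479_gt.TBS.G2.MR2
import Pool.Agent.Work.MP_b30479_gt.TBS.G2.ML3q_5
import Pool.Agent.Work.MP_b30479_gt.TBS.G2.WE31_2

section

/-!
# Part of `ML3q`
-/
namespace Pool.Agent.Work.MP_b30479_gtS.G2

open Finset VOL Filter Topology

namespace L3

open NumIs (V lkR)
open NumUs NumUs.E

/-- end 3 next to `two`, right ramp -/
theorem right_two_a {T h μ a : ℝ} {v : ℂ} (hT : HT .two T h) (H : MaxM v h μ)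
    (hr : v.re = a) (hi : v.im = 10 / 3 * T * (6 / 10 - a)) (a0 : 300 / 1000 ≤ a)
    (a1 : a ≤ 400 / 1000) :
    S3 1 (-(10 / 3 * T)) v (mpt h μ) ≤ -(40 / 100) := by
  obtain ⟨T0, T1, h0, h1, hT2⟩ := hT
  have hpi := Real.pi_pos
  have kv : ∀ μ : ℝ, ((q 10 3) : E).val [a, T, h, μ] = 10 / 3 := fun μ => by
    simp only [E.val]; norm_num
  have cv : ∀ μ : ℝ, ((q 0 1) : E).val [a, T, h, μ] = 0 := fun μ => by
    simp only [E.val]; norm_num
  have ev : ∀ μ : ℝ, ((q (-40) 100) : E).val [a, T, h, μ] = -(40 / 100) := fun μ => by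
    simp only [E.val]; norm_num
  have hh : |h| ≤ 655 / 10000 := by rw [abs_le]; constructor <;> linarith only [h0, h1]
  have htr : 52 / 100 ≤ a → |10 / 3 * T * (6 / 10 - a)| ≤ 25 / 1000 := fun c => by
    rw [abs_le]; constructor <;> nlinarith only [a1, c]
  rw [show S3 1 (-(10 / 3 * T)) v (mpt h μ) = S3 1 (-(10 / 3 * T)) v (mpt h μ) + 0 * (-(10 / 3 * T)) by ring]
  refine right3 hr hi H (by linarith only [a0]) (by linarith only [a1]) hh htr ?_ ?_ ?_ ?_
  · intro m1 m0 σ hσ hy
    rcases hσ with rfl | rfl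
    · have hc : chk [sub (x57 (q 10 3)) (xGA (q 10 3) (q 1 1)), xR (q 10 3) (xDA (q 10 3) (q 1 1)) (q 0 1) (q (-40) 100), sub (mul (q 1 2) (var 1)) (var 2), neg (xy (q 10 3))] 30
          [V.of 10000 3000 4000, V.of 10000 (-260) 130, V.of 10000 0 500, V.of 10000 0 1000] = true := right_two_a_h1
      obtain ⟨e, he, hp⟩ := chk4 hc n0 (x := a) (y := T) (z := h) (w := μ)
        (bl (by push_cast; linarith only [a0])) (bu (by push_cast; linarith only [a1]))
        (bl (by push_cast; linarith only [T0])) (bu (by push_cast; linarith only [T1]))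
        (bl (by push_cast; linarith only [h0])) (bu (by push_cast; linarith only [h1]))
        (bl (by push_cast; linarith only [m0])) (bu (by push_cast; linarith only [m1]))
      simp only [List.mem_cons, List.not_mem_nil, or_false] at he
      rcases he with rfl | rfl | rfl | rfl
      · left
        have sv : ((q 1 1) : E).val [a, T, h, μ] = 1 := by simp only [E.val]; norm_num
        rw [E.val, x57_val (kv μ), xGA_val (kv μ) sv] at hp
        linarith only [hp]
      · right; right
        have sv : ((q 1 1) : E).val [a, T, h, μ] = 1 := by simp only [E.val]; norm_num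
        rw [xR_val (kv μ) (cv μ) (ev μ), xDA_val (kv μ) sv] at hp
        linarith only [hp]
      · simp only [E.val, lkR] at hp
        push_cast at hp
        exact absurd hp (by linarith only [hT2, hp])
      · simp only [xy, xm, xt, E.val, lkR] at hp
        push_cast at hp
        exact absurd hp (by linarith only [hy, hp])
    · have hc : chk [sub (x57 (q 10 3)) (xGA (q 10 3) (q (-1) 1)), xR (q 10 3) (xDA (q 10 3) (q (-1) 1)) (q 0 1) (q (-40) 100), sub (mul (q 1 2) (var 1)) (var 2), xy (q 10 3)] 30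
          [V.of 10000 3000 4000, V.of 10000 (-260) 130, V.of 10000 0 500, V.of 10000 0 1000] = true := right_two_a_h2
      obtain ⟨e, he, hp⟩ := chk4 hc n0 (x := a) (y := T) (z := h) (w := μ)
        (bl (by push_cast; linarith only [a0])) (bu (by push_cast; linarith only [a1]))
        (bl (by push_cast; linarith only [T0])) (bu (by push_cast; linarith only [T1]))
        (bl (by push_cast; linarith only [h0])) (bu (by push_cast; linarith only [h1]))
        (bl (by push_cast; linarith only [m0])) (bu (by push_cast; linarith only [m1]))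
      simp only [List.mem_cons, List.not_mem_nil, or_false] at he
      rcases he with rfl | rfl | rfl | rfl
      · left
        have sv : ((q (-1) 1) : E).val [a, T, h, μ] = -1 := by simp only [E.val]; norm_num
        rw [E.val, x57_val (kv μ), xGA_val (kv μ) sv] at hp
        linarith only [hp]
      · right; right
        have sv : ((q (-1) 1) : E).val [a, T, h, μ] = -1 := by simp only [E.val]; norm_num
        rw [xR_val (kv μ) (cv μ) (ev μ), xDA_val (kv μ) sv] at hp
        linarith only [hp]
      · simp only [E.val, lkR] at hp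
        push_cast at hp
        exact absurd hp (by linarith only [hT2, hp])
      · simp only [xy, xm, xt, E.val, lkR] at hp
        push_cast at hp
        exact absurd hp (by linarith only [hy, hp])
  · intro w c1
    rcases le_total T 0 with d | d
    · have hb := bb_zero (s := -(10 / 3 * T)) (y := h - 10 / 3 * T * (6 / 10 - a)) (by linarith only [d]) (by nlinarith only [hT2, d, a0, h0, a1])
      rw [hb]
      have hz : (0 : ℝ) = 0 * (-(10 / 3 * T) * (Real.pi / 2)) := by ring
      rw [hz]
      have hc : chk [xR (q 10 3) (xDB (q 10 3) (q 0 1)) (q 0 1) (q (-40) 100), sub (mul (q 1 2) (var 1)) (var 2)] 30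
          [V.of 10000 3000 4000, V.of 10000 (-260) 0, V.of 10000 0 500, V.of 10000 3000 5700] = true := right_two_a_h3
      obtain ⟨e, he, hp⟩ := chk4 hc n0 (x := a) (y := T) (z := h) (w := μ)
        (bl (by push_cast; linarith only [a0])) (bu (by push_cast; linarith only [a1, w, c1]))
        (bl (by push_cast; linarith only [T0])) (bu (by push_cast; linarith only [T1, d]))
        (bl (by push_cast; linarith only [h0])) (bu (by push_cast; linarith only [h1]))
        (bl (by push_cast; linarith only [a0, w])) (bu (by push_cast; linarith only [c1]))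
      simp only [List.mem_cons, List.not_mem_nil, or_false] at he
      rcases he with rfl | rfl
      · have nv : ((q 0 1) : E).val [a, T, h, μ] = 0 := by simp only [E.val]; norm_num
        rw [xR_val (kv μ) (cv μ) (ev μ), xDB_val (kv μ) nv] at hp
        linarith only [hp]
      · simp only [E.val, lkR] at hp
        push_cast at hp
        exact absurd hp (by linarith only [hT2, hp])
    · have hb : bb (-(10 / 3 * T)) (h - 10 / 3 * T * (6 / 10 - a)) ≤ -1 * (-(10 / 3 * T) * (Real.pi / 2)) := by
        refine bb_le.trans (le_of_eq ?_)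
        rw [abs_of_nonpos (by linarith only [d])]
        ring
      refine (add_le_add_left (DB_mono hb) _).trans ?_
      have hc : chk [xR (q 10 3) (xDB (q 10 3) (q (-1) 1)) (q 0 1) (q (-40) 100), sub (mul (q 1 2) (var 1)) (var 2)] 30
          [V.of 10000 3000 4000, V.of 10000 0 130, V.of 10000 0 500, V.of 10000 3000 5700] = true := right_two_a_h4
      obtain ⟨e, he, hp⟩ := chk4 hc n0 (x := a) (y := T) (z := h) (w := μ)
        (bl (by push_cast; linarith only [a0])) (bu (by push_cast; linarith only [a1, w, c1]))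
        (bl (by push_cast; linarith only [T0, d])) (bu (by push_cast; linarith only [T1]))
        (bl (by push_cast; linarith only [h0])) (bu (by push_cast; linarith only [h1]))
        (bl (by push_cast; linarith only [a0, w])) (bu (by push_cast; linarith only [c1]))
      simp only [List.mem_cons, List.not_mem_nil, or_false] at he
      rcases he with rfl | rfl
      · have nv : ((q (-1) 1) : E).val [a, T, h, μ] = -1 := by simp only [E.val]; norm_num
        rw [xR_val (kv μ) (cv μ) (ev μ), xDB_val (kv μ) nv] at hp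
        linarith only [hp]
      · simp only [E.val, lkR] at hp
        push_cast at hp
        exact absurd hp (by linarith only [hT2, hp])
  · intro m0 m1 w f
    have hc : chk [xR (q 10 3) (xDC (q 10 3)) (q 0 1) (q (-40) 100), neg (xFC (q 10 3)), sub (mul (q 1 2) (var 1)) (var 2), sub (q 5 100) (sub (var 3) (var 0))] 30
        [V.of 10000 3000 4000, V.of 10000 (-260) 130, V.of 10000 0 500, V.of 10000 5700 7700] = true := right_two_a_h5
    obtain ⟨e, he, hp⟩ := chk4 hc n0 (x := a) (y := T) (z := h) (w := μ)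
      (bl (by push_cast; linarith only [a0])) (bu (by push_cast; linarith only [a1]))
      (bl (by push_cast; linarith only [T0])) (bu (by push_cast; linarith only [T1]))
      (bl (by push_cast; linarith only [h0])) (bu (by push_cast; linarith only [h1]))
      (bl (by push_cast; linarith only [m0])) (bu (by push_cast; linarith only [m1]))
    simp only [List.mem_cons, List.not_mem_nil, or_false] at he
    rcases he with rfl | rfl | rfl | rfl
    · rw [xR_val (kv μ) (cv μ) (ev μ), xDC_val (kv μ)] at hp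
      linarith only [hp]
    · rw [E.val, xFC_val (kv μ)] at hp
      exact absurd hp (by linarith only [f])
    · simp only [E.val, lkR] at hp
      push_cast at hp
      exact absurd hp (by linarith only [hT2, hp])
    · simp only [E.val, lkR] at hp
      push_cast at hp
      exact absurd hp (by linarith only [a1, m0, hp])
  · intro d0 m0 m1
    exact absurd d0 (by linarith only [a1, d0])

end L3

end Pool.Agent.Work.MP_b30479_gtS.G2

end

section

/-!
# Part of `WE31`
-/
namespace Pool.Agent.Work.MP_b30479_gtS.G2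

open Finset VOL Filter Topology

namespace SR

variable {M : ℕ} {b : Fin (M + 1) → ℤ} {zs : DD (tyW b) ⊕ ZZ (tyW b) → ℂ}
variable {y : DD (tyW b) ⊕ ZZ (tyW b) → ℝ}
variable {h h' : Fin M} {i j j' : Fin (M + 1)} {p : Fin 3}

/-- value step for a hinge together with the inner variable of an adjacent region with three
crossings -/
theorem Adj.block_mid (A : Adj h i p j) (hb : ClassW b)
    (hy : IsMx (wdat (tyW b) b) (wpar b zs) zs y)
    (m : {i : Fin (M + 1) // (tyW b i).isMid = true}) (hm : m.1 = i) {c μ : ℝ} (hc0 : 0 ≤ c)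
    (hc1 : c ≤ wXM b h) (m0 : 0 ≤ μ) (m1 : μ ≤ (wpar b zs).XM (.inr m)) :
    OV b i (Function.update (Function.update (OY b zs y i) 1
      (ofr (b i) ((wpar b zs).pp zs (.inl (.inr m)) μ))) p (pw b zs (b i) h c)) -
      OV b i (OY b zs y i) + dV b j p.rev (OY b zs y j) (pw b zs (b j) h c) ≤ 0 := by
  subst hm
  have ht := mid_not_ring m.2
  set z := (wpar b zs).pth zs y with hz
  set c1 := (wpar b zs).pp zs (.inl (.inr m)) μ with hc1'
  set c2 := (wpar b zs).pp zs (.inl (.inl h)) c with hc2'
  have hbox : Function.update (Function.update y (.inl (.inr m)) μ) (.inl (.inl h)) c ∈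
      (wpar b zs).box (ZZ (tyW b)) :=
    update_mem_box (update_mem_box hy.1 m0 m1) hc0 hc1
  have h1 : (wdat (tyW b) b).V (Function.update (Function.update z (.inl (.inr m)) c1)
      (.inl (.inl h)) c2) ≤ (wdat (tyW b) b).V z := by
    have h0 : (wdat (tyW b) b).V ((wpar b zs).pth zs (Function.update (Function.update y
        (.inl (.inr m)) μ) (.inl (.inl h)) c)) ≤ (wdat (tyW b) b).V ((wpar b zs).pth zs y) :=
      hy.2 hbox
    rw [Par.pth_update_pp, Par.pth_update_pp] at h0
    exact h0
  have h2 := V_upd_mid (tyW b) b m z c1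
  have h3 := V_upd_hinge (tyW b) b h (Function.update z (.inl (.inr m)) c1) c2
  have eow : ∀ i, own (b i) (tyW b i) (xx (tyW b) i z) = OY b zs y i := fun i => rfl
  have emid : own (b m.1) (tyW b m.1) (Function.update (xx (tyW b) m.1 z) 1 c1) =
      Function.update (OY b zs y m.1) 1 (ofr (b m.1) c1) := by
    rw [← eow, own_update_one ht]
  have hne : ∀ k : Fin M, k.castSucc ≠ k.succ := fun k => (Fin.castSucc_lt_succ).ne
  generalize hvi : m.1 = i at *
  cases A
  · have hl : xx (tyW b) h.castSucc (Function.update z (.inl (.inr m)) c1) =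
        Function.update (xx (tyW b) h.castSucc z) 1 c1 := by
      have := xx_upd_mid (tyW b) m z c1
      rwa [hvi] at this
    have hr : xx (tyW b) h.succ (Function.update z (.inl (.inr m)) c1) = xx (tyW b) h.succ z :=
      xx_upd_mid_ne (tyW b) m z c1 h.succ (by rw [hvi]; exact (hne h).symm)
    rw [hl, hr, rV_own hb, rV_own hb, rV_own hb, rV_own hb, own_update_two, own_update_zero, emid,
      eow] at h3
    rw [rV_own hb, rV_own hb, emid, eow] at h2
    rw [show (2 : Fin 3).rev = 0 from rfl]
    unfold dV pw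
    linarith only [h1, h3, h2]
  · have hl : xx (tyW b) h.succ (Function.update z (.inl (.inr m)) c1) =
        Function.update (xx (tyW b) h.succ z) 1 c1 := by
      have := xx_upd_mid (tyW b) m z c1
      rwa [hvi] at this
    have hr : xx (tyW b) h.castSucc (Function.update z (.inl (.inr m)) c1) =
        xx (tyW b) h.castSucc z :=
      xx_upd_mid_ne (tyW b) m z c1 h.castSucc (by rw [hvi]; exact hne h)
    rw [hl, hr, rV_own hb, rV_own hb, rV_own hb, rV_own hb, own_update_two, own_update_zero, emid,
      eow] at h3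
    rw [rV_own hb, rV_own hb, emid, eow] at h2
    rw [show (0 : Fin 3).rev = 2 from rfl]
    unfold dV pw
    linarith only [h1, h3, h2]

end SR

end Pool.Agent.Work.MP_b30479_gtS.G2

end

section

/-!
# Ends with three crossings at the level of words: the right ramp of the hinge

The neighbours `2`, `2e`, `3`, `3e`, ring.
-/

namespace Pool.Agent.Work.MP_b30479_gtS.G2

open Finset VOL Filter Topology

namespace SR

variable {M : ℕ} {b : Fin (M + 1) → ℤ} {zs : DD (tyW b) ⊕ ZZ (tyW b) → ℂ}
variable {y : DD (tyW b) ⊕ ZZ (tyW b) → ℝ}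
variable {h h' : Fin M} {i j j' : Fin (M + 1)} {p : Fin 3}

/-- flat end of the path of a hinge of an end with three crossings -/
noncomputable def fe3 (B : Cl) : ℝ :=
  match B with
  | .one => 35 / 100
  | .ring => 26 / 100
  | _ => 30 / 100

/-- length of the right ramp -/
noncomputable def cr3 (B : Cl) : ℝ :=
  match B with
  | .one => 25 / 100
  | .ring => 34 / 100
  | _ => 30 / 100

theorem hpp_threeE_right (p : Fin 3) (P B Q : Cl) : (hpp p P .threeE B Q).XM = 60 / 100 ∧
    (hpp p P .threeE B Q).cr = cr3 B := by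
  unfold hpp
  cases B <;> split_ifs <;> simp only [hp, hp1, cr3, and_self]

theorem Adj.XM3 (A : Adj h i p j) (hc : clsW b i = .threeE) :
    wXM b h = 60 / 100 ∧ wcr b h = cr3 (clsW b j) := by
  rw [A.XM_eq b, A.cr_eq b, hc]
  exact hpp_threeE_right _ _ _ _

/-- data of the hinge on its right ramp -/
theorem Adj.ramp3 (A : Adj h i p j) (hy : IsMx (wdat (tyW b) b) (wpar b zs) zs y)
    (hc : clsW b i = .threeE) (h1 : wXM b h - wcr b h < y (.inl (.inl h))) :
    60 / 100 - cr3 (clsW b j) < y (.inl (.inl h)) ∧ y (.inl (.inl h)) ≤ 60 / 100 ∧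
    (Yw b zs y i p).re = y (.inl (.inl h)) ∧
    (Yw b zs y i p).im = (cr3 (clsW b j))⁻¹ * ofs (b i) (zs (.inl (.inl h))).im *
      (6 / 10 - y (.inl (.inl h))) ∧
    ofs (b i) (slL b zs y h) = -((cr3 (clsW b j))⁻¹ * ofs (b i) (zs (.inl (.inl h))).im) := by
  obtain ⟨e1, e2⟩ := A.XM3 hc
  have q1 := w_sum (b := b) h
  have q2 := wcr_pos (b := b) h
  have q3 := wcl_pos (b := b) h
  have hX : y (.inl (.inl h)) ≤ wXM b h := hy.1.2 (.inl (.inl h))
  have hr := A.re (zs := zs) (y := y)
  refine ⟨by rw [← e1, ← e2]; exact h1, by rw [← e1]; exact hX, hr, ?_, ?_⟩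
  · rw [(A.rh hy).im, hr, tr_c q3 q2 q1 h1.le hX, e1, e2]
    ring
  · rw [ofs_slL_ramp _ h1, e2]
    ring

/-- upper bounds without shift (not next to a digit `1` or a ring) -/
noncomputable def r3E (B : Cl) (x : ℝ) : ℝ :=
  open Classical in
  match B with
  | .two => if x ≤ 4 / 10 then -(40 / 100) else -(2 / 100)
  | .twoE => -(30 / 100)
  | .three => if x ≤ 4 / 10 then -(35 / 100) else 3 / 100
  | _ => -(40 / 100)

/-- **The side of an end with three crossings on the right ramp**, neighbours `2`, `2e`, `3`,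
`3e` -/
theorem threeE_R (hb : ClassW b) (hL : Loc b zs) (hC : Crit b zs)
    (hy : IsMx (wdat (tyW b) b) (wpar b zs) zs y) (A : Adj h i p j) (hc : clsW b i = .threeE)
    (hj : clsW b j ≠ .one) (hj' : clsW b j ≠ .ring)
    (h1 : wXM b h - wcr b h < y (.inl (.inl h))) :
    Sw b zs y i p (slL b zs y h) ≤ r3E (clsW b j) (y (.inl (.inl h))) := by
  obtain ⟨a0, a1, hr, hi, hs⟩ := A.ramp3 hy hc h1
  have hT := A.HT3 hb hL hC hc
  have H := A.maxM hb hy hc
  rw [A.side_threeE hb hc, hs, Yw_mE hc]
  generalize ofs (b i) (zs (.inl (.inl h))).im = T at hT hi ⊢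
  generalize hE zs hc = H' at hT H ⊢
  generalize y (.inl (.inr (mE b hc))) = μ at H ⊢
  generalize Yw b zs y i p = v at H hi hr ⊢
  generalize y (.inl (.inl h)) = a at hi hr a0 a1 ⊢
  cases hB : clsW b j with
  | one => exact absurd hB hj
  | ring => exact absurd hB hj'
  | two =>
    rw [hB] at hT hi a0
    simp only [cr3] at hi a0 ⊢
    rw [show ((30 : ℝ) / 100)⁻¹ = 10 / 3 by norm_num] at hi ⊢
    unfold r3E
    simp only
    split_ifs with c
    · exact L3.right_two_a hT H hr hi (by linarith only [a0]) (by linarith only [c])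
    · push Not at c
      exact L3.right_two_b hT H hr hi (by linarith only [c]) (by linarith only [a1])
  | twoE =>
    rw [hB] at hT hi a0
    simp only [cr3] at hi a0 ⊢
    rw [show ((30 : ℝ) / 100)⁻¹ = 10 / 3 by norm_num] at hi ⊢
    exact L3.right_twoE hT H hr hi (by linarith only [a0]) (by linarith only [a1])
  | three =>
    rw [hB] at hT hi a0
    simp only [cr3] at hi a0 ⊢
    rw [show ((30 : ℝ) / 100)⁻¹ = 10 / 3 by norm_num] at hi ⊢
    unfold r3E
    simp only
    split_ifs with c
    · exact L3.right_three_a hT H hr hi (by linarith only [a0]) (by linarith only [c])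
    · push Not at c
      exact L3.right_three_b hT H hr hi (by linarith only [c]) (by linarith only [a1])
  | threeE =>
    rw [hB] at hT hi a0
    simp only [cr3] at hi a0 ⊢
    rw [show ((30 : ℝ) / 100)⁻¹ = 10 / 3 by norm_num] at hi ⊢
    exact L3.right_threeE hT H hr hi (by linarith only [a0]) (by linarith only [a1])

/-- upper bounds next to an interior `3`, shift `c` between `0` and `π` -/
noncomputable def r3E3 (x c : ℝ) : ℝ :=
  open Classical in
  if x ≤ 4 / 10 then -(35 / 100) - 10 / 100 * (c / Real.pi) else 3 / 100 - 23 / 100 * (c / Real.pi)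

/-- **The side next to an interior `3` on the right ramp with a shift.** -/
theorem threeE_R3 (hb : ClassW b) (hL : Loc b zs) (hC : Crit b zs)
    (hy : IsMx (wdat (tyW b) b) (wpar b zs) zs y) (A : Adj h i p j) (hc : clsW b i = .threeE)
    (hj : clsW b j = .three) (h1 : wXM b h - wcr b h < y (.inl (.inl h))) {c : ℝ} (hc0 : 0 ≤ c)
    (hc1 : c ≤ Real.pi) :
    Sw b zs y i p (slL b zs y h) + c * ofs (b i) (slL b zs y h) ≤
      r3E3 (y (.inl (.inl h))) c := by
  obtain ⟨a0, a1, hr, hi, hs⟩ := A.ramp3 hy hc h1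
  have hT := A.HT3 hb hL hC hc
  have H := A.maxM hb hy hc
  rw [A.side_threeE hb hc, hs, Yw_mE hc]
  generalize ofs (b i) (zs (.inl (.inl h))).im = T at hT hi ⊢
  generalize hE zs hc = H' at hT H ⊢
  generalize y (.inl (.inr (mE b hc))) = μ at H ⊢
  generalize Yw b zs y i p = v at H hi hr ⊢
  generalize y (.inl (.inl h)) = a at hi hr a0 a1 ⊢
  rw [hj] at hT hi a0 ⊢
  simp only [cr3] at hi a0 ⊢
  rw [show ((30 : ℝ) / 100)⁻¹ = 10 / 3 by norm_num] at hi ⊢
  have hpi := Real.pi_pos
  set q := c / Real.pi with hq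
  have hcq : c = q * Real.pi := by rw [hq]; field_simp
  have q0 : 0 ≤ q := div_nonneg hc0 hpi.le
  have q1 : q ≤ 1 := (div_le_one hpi).2 hc1
  unfold r3E3
  split_ifs with d
  · have k1 := L3.right_three_a hT H hr hi (by linarith only [a0]) (by linarith only [d])
    have k2 := L3.right_three_pa hT H hr hi (by linarith only [a0]) (by linarith only [d])
    have k3 := mul_le_mul_of_nonneg_left k1 (sub_nonneg.2 q1)
    have k4 := mul_le_mul_of_nonneg_left k2 q0
    rw [← hq, hcq]
    nlinarith only [k3, k4]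
  · push Not at d
    have k1 := L3.right_three_b hT H hr hi (by linarith only [d]) (by linarith only [a1])
    have k2 := L3.right_three_pb hT H hr hi (by linarith only [d]) (by linarith only [a1])
    have k3 := mul_le_mul_of_nonneg_left k1 (sub_nonneg.2 q1)
    have k4 := mul_le_mul_of_nonneg_left k2 q0
    rw [← hq, hcq]
    nlinarith only [k3, k4]

/-- **The side next to a ring on the right ramp**: without shift up to `32/100`, with the shift `π`
beyond -/
theorem threeE_RZ (hb : ClassW b) (hL : Loc b zs) (hC : Crit b zs)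
    (hy : IsMx (wdat (tyW b) b) (wpar b zs) zs y) (A : Adj h i p j) (hc : clsW b i = .threeE)
    (hj : clsW b j = .ring) (h1 : wXM b h - wcr b h < y (.inl (.inl h))) :
    (y (.inl (.inl h)) ≤ 32 / 100 → Sw b zs y i p (slL b zs y h) ≤ -(12 / 100)) ∧
    (32 / 100 ≤ y (.inl (.inl h)) → Sw b zs y i p (slL b zs y h) +
      Real.pi * ofs (b i) (slL b zs y h) ≤ -(7 / 100)) := by
  obtain ⟨a0, a1, hr, hi, hs⟩ := A.ramp3 hy hc h1
  have hT := A.HT3 hb hL hC hc
  have H := A.maxM hb hy hc
  rw [A.side_threeE hb hc, hs, Yw_mE hc]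
  generalize ofs (b i) (zs (.inl (.inl h))).im = T at hT hi ⊢
  generalize hE zs hc = H' at hT H ⊢
  generalize y (.inl (.inr (mE b hc))) = μ at H ⊢
  generalize Yw b zs y i p = v at H hi hr ⊢
  generalize y (.inl (.inl h)) = a at hi hr a0 a1 ⊢
  rw [hj] at hT hi a0 ⊢
  simp only [cr3] at hi a0 ⊢
  rw [show ((34 : ℝ) / 100)⁻¹ = 100 / 34 by norm_num] at hi ⊢
  exact ⟨fun d => L3.right_ring_a hT H hr hi (by linarith only [a0]) (by linarith only [d]),
    fun d => L3.right_ring_b hT H hr hi (by linarith only [d]) (by linarith only [a1])⟩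

/-- a right step at `3e | 3e` -/
theorem step_3e3e (hb : ClassW b) (hL : Loc b zs) (hC : Crit b zs)
    (hy : IsMx (wdat (tyW b) b) (wpar b zs) zs y) (A : Adj h i p j) (hc : clsW b i = .threeE)
    (hj : clsW b j = .threeE) (h1 : wXM b h - wcr b h < y (.inl (.inl h))) :
    RStep b zs y h (slL b zs y h) := by
  have k1 := threeE_R hb hL hC hy A hc (by rw [hj]; decide) (by rw [hj]; decide) h1
  have k2 := threeE_R hb hL hC hy A.symm hj (by rw [hc]; decide) (by rw [hc]; decide) h1
  refine RSide.of_sum A ?_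
  rw [hj] at k1
  rw [hc] at k2
  simp only [r3E] at k1 k2
  linarith only [k1, k2]

/-- the end `2` next to the end `3e` -/
theorem two_row {x T : ℝ} (h1 : 30 / 100 ≤ x) (h1' : x ≤ 60 / 100) (h2 : 65 / 1000 ≤ T)
    (h2' : T ≤ 69 / 1000) :
    MR.s2e (-(10 / 3 * T)) x (10 / 3 * T * (6 / 10 - x)) < 20 / 100 := by
  have h : NumIs.chk [NumIs.E.sub (NumIs.E.q 20 100) (MR.e2e
      (NumIs.E.neg (NumIs.E.mul (NumIs.E.q 10 3) (NumIs.E.var 1))) (NumIs.E.var 0)
      (NumIs.E.mul (NumIs.E.mul (NumIs.E.q 10 3) (NumIs.E.var 1))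
        (NumIs.E.sub (NumIs.E.q 6 10) (NumIs.E.var 0))))] 20
      [NumIs.V.of 1000 300 600, NumIs.V.of 1000 65 69] = true := by
    decide +kernel
  have hp := NumIs.pos_of_chk (NumIs.chk2 h (by norm_num) (x := x) (y := T)
    (by norm_num; linarith only [h1]) (by norm_num; linarith only [h1']) (by norm_num; linarith only [h2])
    (by norm_num; linarith only [h2']))
  simp only [NumIs.E.val, NumIs.lkR, MR.e2e_val] at hp
  push_cast at hp
  linarith only [hp]

/-- a right step at `3e | 2e` -/
theorem step_3e2e (hb : ClassW b) (hL : Loc b zs) (hC : Crit b zs)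
    (hy : IsMx (wdat (tyW b) b) (wpar b zs) zs y) (A : Adj h i p j) (hc : clsW b i = .threeE)
    (hj : clsW b j = .twoE) (h1 : wXM b h - wcr b h < y (.inl (.inl h))) :
    RStep b zs y h (slL b zs y h) := by
  have k1 := threeE_R hb hL hC hy A hc (by rw [hj]; decide) (by rw [hj]; decide) h1
  have hop := A.opp hb (Or.inl (by rw [hc]; decide))
  obtain ⟨a0, a1, hr, hi, hs⟩ := A.ramp3 hy hc h1
  have bx := A.symm.box hb hL
  rw [hj, hc] at bx
  have h0 : Yw b zs y j p.rev.rev = 0 := by
    rcases A.symm.other b zs y with ⟨-, h0⟩ | ⟨he', -⟩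
    · exact h0
    · rw [clsW_end (Or.inl hj)] at he'
      exact absurd he' (by decide)
  have hr' := A.symm.re (zs := zs) (y := y)
  have hi' : (Yw b zs y j p.rev).im = 10 / 3 * ofs (b j) (zs (.inl (.inl h))).im *
      (6 / 10 - y (.inl (.inl h))) := by
    obtain ⟨e1, e2⟩ := A.XM3 hc
    have q1 := w_sum (b := b) h
    have q2 := wcr_pos (b := b) h
    have q3 := wcl_pos (b := b) h
    have hX : y (.inl (.inl h)) ≤ wXM b h := hy.1.2 (.inl (.inl h))
    rw [(A.symm.rh hy).im, hr', tr_c q3 q2 q1 h1.le hX, e1, e2, hj]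
    simp only [cr3]
    ring
  have hs' : ofs (b j) (slL b zs y h) = -(10 / 3 * ofs (b j) (zs (.inl (.inl h))).im) := by
    rw [ofs_slL_ramp _ h1, (A.XM3 hc).2, hj]
    simp only [cr3]
    ring
  rw [hj] at a0
  simp only [cr3] at a0
  have k2 : Sw b zs y j p.rev (slL b zs y h) < 20 / 100 := by
    rw [A.symm.side_two hb (Or.inr hj), h0, hs', MR.S2_zero_eq _ ⟨by rw [hr']; linarith only [a0],
      by rw [hr']; linarith only [a1]⟩, hr', hi']
    refine two_row (by linarith only [a0]) a1 ?_ ?_
    · have := bx.2.2.1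
      simp only [hbox] at this
      linarith only [this]
    · have := bx.2.2.2
      simp only [hbox] at this
      linarith only [this]
  refine RSide.of_sum A ?_
  rw [hj] at k1
  simp only [r3E] at k1
  linarith only [k1, k2]

/-- **Caps of the hinges between an end with three crossings and an end with two or three
crossings**: the flat ends. -/
theorem cap_3e (hb : ClassW b) (hL : Loc b zs) (hC : Crit b zs) (hy : Mx b zs y)
    (hpos : ∀ h : Fin M, 0 < y (.inl (.inl h))) (A : Adj h i p j) (hc : clsW b i = .threeE)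
    (hj : clsW b j = .twoE ∨ clsW b j = .threeE) :
    y (.inl (.inl h)) ≤ wXM b h - wcr b h := by
  by_contra hcon
  push Not at hcon
  rcases hj with hj | hj
  · exact rstep_false hb hy (hpos h) (step_3e2e hb hL hC hy A hc hj hcon)
  · exact rstep_false hb hy (hpos h) (step_3e3e hb hL hC hy A hc hj hcon)

end SR

end Pool.Agent.Work.MP_b30479_gtS.G2

end

section

/-!
# Part of `WE31`
-/
namespace Pool.Agent.Work.MP_b30479_gtS.G2

open Finset VOL Filter Topology NumUs

namespace SR

variable {M : ℕ} {b : Fin (M + 1) → ℤ} {zs : DD (tyW b) ⊕ ZZ (tyW b) → ℂ}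
variable {y : DD (tyW b) ⊕ ZZ (tyW b) → ℝ}
variable {h h' : Fin M} {i j j' : Fin (M + 1)} {p : Fin 3}

/-- the total gain of the move of the hinge and of the inner variable is not positive -/
theorem gain_13 (hb : ClassW b) (hy : IsMx (wdat (tyW b) b) (wpar b zs) zs y) (A : Adj h i p j)
    (A' : Adj h' i p.rev j') (hi : clsW b i = .one) (hj : clsW b j = .threeE)
    (ha : 35 / 100 < y (.inl (.inl h))) {B : ℝ}
    (h0 : 1 / 10 ≤ 3 / 10 + (1 / 6 - 577 / 1000 * (ofs (b j) (zs (.inl (.inl h))).im + hE zs hj)))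
    (h1 : 3 / 10 + (1 / 6 - 577 / 1000 * (ofs (b j) (zs (.inl (.inl h))).im + hE zs hj)) ≤ 57 / 100)
    (hB : L3.Wm (Yw b zs y j p.rev) (L3.mpt (hE zs hj) (y (.inl (.inr (mE b hj))))) ≤
      L3.tg (3 / 10) (ofs (b j) (zs (.inl (.inl h))).im) (hE zs hj) +
        uu (y (.inl (.inl h))) (4 * ofs (b j) (zs (.inl (.inl h))).im *
          (6 / 10 - y (.inl (.inl h)))) - B) :
    L3.D1 (3 / 10) (y (.inl (.inl h))) (ofs (b i) (zs (.inl (.inl h))).im) (y (.inl (.inl h')))
      (ofs (b i) (zs (.inl (.inl h'))).im * tr 0 (wXM b h') (wcl b h') (wcr b h')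
        (y (.inl (.inl h')))) + B ≤ 0 := by
  have hop := A.opp hb (Or.inl (by rw [hi]; decide))
  have hrr : p.rev.rev = p := Fin.rev_rev p
  obtain ⟨e1, e2⟩ := A.symm.XM3 hj
  rw [hi] at e2
  simp only [cr3] at e2
  have e3 : wcl b h = 14 / 100 := by
    rw [A.cl_eq b, hi, hj]; unfold hpp; split_ifs <;> simp only [hp, hp1]
  have hv := A.symm.block_mid hb hy (mE b hj) rfl (c := 3 / 10)
    (μ := 3 / 10 + (1 / 6 - 577 / 1000 * (ofs (b j) (zs (.inl (.inl h))).im + hE zs hj)))
    (by norm_num) (by rw [e1]; norm_num) (by linarith only [hj, h0]) (by rw [XM_mE]; linarith only [hj, h1])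
  have hOp : OY b zs y j p.rev = Yw b zs y j p.rev := by
    rcases A.symm.slot with h | h
    · rw [h]; exact OY_zero j
    · rw [h]; exact OY_two j
  have hpr : p.rev ≠ 1 := by
    rcases A.symm.slot with h | h <;> rw [h] <;> decide
  have ht : tyW b j ≠ .ring := mid_not_ring (mE b hj).2
  have hend : EndOk j (OY b zs y j) := Ow_endOk ((wpar b zs).pth zs y) j
  have hend' : EndOk j (Function.update (OY b zs y j) 1
      (ofr (b j) ((wpar b zs).pp zs (.inl (.inr (mE b hj)))
        (3 / 10 + (1 / 6 - 577 / 1000 * (ofs (b j) (zs (.inl (.inl h))).im + hE zs hj)))))) :=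
    ⟨fun h0 => by rw [Function.update_of_ne (by decide)]; exact hend.1 h0, fun h0 => by
      rw [Function.update_of_ne (by decide)]; exact hend.2 h0⟩
  rw [hrr, dV_one hb A hi, A.symm.OV_threeE hj hend, A.symm.OV_threeE hj (hend'.upd A.symm _),
    Function.update_self, Function.update_of_ne hpr.symm, Function.update_self, pp_mE hj, hOp,
    OY_one ht, V3_zero, V3_zero, Yw_mE hj, pw_flat (b i) h (by rw [e3]; norm_num)
      (by rw [e1, e2]; norm_num), pw_flat (b j) h (by rw [e3]; norm_num)
      (by rw [e1, e2]; norm_num)] at hv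
  have hOi : ∀ q : Fin 3, q = 0 ∨ q = 2 → OY b zs y i q = Yw b zs y i q := by
    intro q hq
    rcases hq with hq | hq
    · rw [hq]; exact OY_zero i
    · rw [hq]; exact OY_two i
  have hwr : wXM b h - wcr b h < y (.inl (.inl h)) := by
    rw [e1, e2]
    linarith only [ha]
  obtain ⟨-, -, r1, r2, -⟩ := A.symm.ramp3 hy hj hwr
  rw [hi] at r2
  simp only [cr3] at r2
  rw [show ((25 : ℝ) / 100)⁻¹ = 4 by norm_num] at r2
  have hc := A.conj (zs := zs) (y := y) hop
  have e4 : (Yw b zs y i p).im = 4 * ofs (b i) (zs (.inl (.inl h))).im *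
      (6 / 10 - y (.inl (.inl h))) := by
    have : (Yw b zs y j p.rev).im = -(Yw b zs y i p).im := by rw [hc, Complex.conj_im]
    rw [this, ofs_opp hop] at r2
    linarith only [r2]
  have e5 : (Yw b zs y i p.rev).im = ofs (b i) (zs (.inl (.inl h'))).im *
      tr 0 (wXM b h') (wcl b h') (wcr b h') (y (.inl (.inl h'))) := by
    rw [(A'.rh hy).im, A'.re]
  have f1 := V1_D1 (3 / 10) (ofs (b i) (zs (.inl (.inl h))).im) A.re e4 A'.re e5
  have f2 := L3.tg_eq (v := ((3 / 10 : ℝ) : ℂ) + ((ofs (b j) (zs (.inl (.inl h))).im : ℝ) : ℂ) *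
    Complex.I) (c := 3 / 10) (T := ofs (b j) (zs (.inl (.inl h))).im) (h := hE zs hj)
    (by simp) (by simp) h0 h1
  have f3 : UU (Yw b zs y j p.rev) = uu (y (.inl (.inl h))) (4 * ofs (b j) (zs (.inl (.inl h))).im *
          (6 / 10 - y (.inl (.inl h)))) := by
    rw [UU_uu, r1, r2]
  rw [f2, f3, hOi _ A.slot, hOi _ A'.slot, f1] at hv
  linarith only [hj, hB, hv]

end SR

end Pool.Agent.Work.MP_b30479_gtS.G2

end
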