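import Pool.Agent.Work.MP_b30479_gt.TBS.G2.RDz
import Pool.Agent.Work.MP_b30479_gt.TBS.G2.RCF
import Pool.Agent.Work.MP_b30479_gt.TBS.G2.SIm

/-!
# The ring of the word `4 2` (ring at an end, four crossings, hinge to a digit `2` at the other end)

`Dx x y` is decreasing in `y`, `Dx x ys` increasing in `x`; for `κ = 9 / 4` the function `Sx + κ Dx`
is decreasing along `y = ys` and in `y` in the two quarters of the saddle point which contain the
points of the first order condition (`ys - y` and `x - xs` have opposite signs there).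
-/

set_option deprecated.oldSectionVars true

namespace Pool.Agent.Work.MP_b30479_gtS.G2

open Real Set VOL NumIs

namespace RC

namespace R42

/-! ### expressions -/

section
open E

def pE (u t : E) : E :=
  mul (mul (sinPi u) (cosPi u)) (inv (add (sq (sinPi u)) (sq (sinh (mul pi t)))))

theorem pE_val (u t : E) (l : List ℝ) : (pE u t).val l = PP (u.val l) (t.val l) := by
  simp only [pE, val, PP, MM]
  rw [div_eq_mul_inv]

def lE (u t : E) : E :=
  mul (q 1 2) (log (mul (q 4 1) (add (sq (sinPi u)) (sq (sinh (mul pi t))))))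

theorem lE_val (u t : E) (l : List ℝ) : (lE u t).val l = LL (lv (u.val l) (t.val l)) := by
  rw [LL_lv_eq]
  simp only [lE, val, shq]
  push_cast
  ring_nf

def dE (x y t r : E) : E := sub (lE (add x y) (add t r)) (lE (sub y x) (sub t r))

theorem dE_val (x y t r : E) (l : List ℝ) :
    (dE x y t r).val l = Dx (x.val l) (y.val l) (t.val l) (r.val l) := by
  simp only [dE, val, lE_val, Dx]

def sE (x y t r : E) : E :=
  sub (add (lE (add x y) (add t r)) (lE (sub y x) (sub t r))) (mul (q 2 1) (lE x t))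

theorem sE_val (x y t r : E) (l : List ℝ) :
    (sE x y t r).val l = Sx (x.val l) (y.val l) (t.val l) (r.val l) := by
  simp only [sE, val, lE_val, Sx]
  push_cast
  ring

def eP : E := pE (add (var 0) (var 1)) (add (var 2) (var 3))
def eM : E := pE (sub (var 1) (var 0)) (sub (var 2) (var 3))

def ea : E := sub eM eP
def eb : E := add eP eM
def ec : E := sub (mul (q 2 1) (pE (var 0) (var 2))) (add (mul (q 13 4) eP) (mul (q 5 4) eM))
def ed : E := sub (mul (q 5 4) eM) (mul (q 13 4) eP)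
def eg : E := sub (dE (var 0) (var 1) (var 2) (var 3)) (mul (q 8 1) (mul pi (var 3)))
def eh : E := mul (q 4 1) (mul (var 3) (var 1))
def ey : E := sub (atan (mul (mul (sinPi (sub (var 1) (var 0))) (cosh (mul pi (sub eh (var 2)))))
  (inv (mul (cosPi (sub (var 1) (var 0))) (sinh (mul pi (sub eh (var 2)))))))) (mul (q 1 2) pi)
def ef : E := add (dE (var 0) (var 1) (var 2) eh)
  (mul (mul (q 4 1) (var 3)) (sub (neg (E.lnB (add (var 0) (var 1)) (add (var 2) eh))) ey))
def er : E := mul (mul (q 4 1) (mul pi (var 3)))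
  (sub (q 2 1) (mul (q 4 1) (sub (q 1 1) (mul (q 4 1) (var 1)))))
def es : E := sub (add (sub ef er) (sE (var 0) (var 1) (var 2) eh)) (q 446 1000)

end

/-- heights -/
structure Hb (T ρ : ℝ) : Prop where
  t0 : -(930 / 10000) ≤ T
  t1 : T ≤ -(925 / 10000)
  r0 : 260 / 10000 ≤ ρ
  r1 : ρ ≤ 265 / 10000

def vT : V := V.of 10000 (-930) (-925) 4
def vR : V := V.of 10000 260 265 4

/-! ### certificates -/

theorem ca : chk [ea] 40 [V.of 10000 1250 2000, V.of 10000 2500 5000, vT, vR] = true := by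
  decide +kernel
theorem cb : chk [eb] 40 [V.of 10000 1250 2000, V.of 10000 2813 2817, vT, vR] = true := by
  decide +kernel
theorem cc : chk [ec] 40 [V.of 10000 1250 3000, V.of 10000 2813 2817, vT, vR] = true := by
  decide +kernel
theorem cd : chk [ed] 40 [V.of 10000 1250 1670, V.of 10000 2500 2817, vT, vR] = true := by
  decide +kernel
theorem cd' : chk [ed] 40 [V.of 10000 1667 3000, V.of 10000 2813 5000, vT, vR] = true := by
  decide +kernel
theorem cg : chk [eg] 40 [V.of 10000 2000 3000, V.of 10000 2500 2817, vT, vR] = true := by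
  decide +kernel
theorem cf : chk [E.sub ef er] 40 [V.of 10000 1400 3000, V.of 10000 1250 2500, vT, vR] = true := by
  decide +kernel
theorem cf' : chk [E.sub ef er] 40 [V.of 10000 1250 1400, V.of 10000 1250 2200, vT, vR] = true := by
  decide +kernel
theorem cs : chk [es] 40 [V.of 10000 1250 1400, V.of 10000 2200 2500, vT, vR] = true := by
  decide +kernel
theorem cS : chk [E.sub (E.q 446 1000) (sE (E.var 0) (E.sub (E.q 1 2) (E.var 1)) (E.var 2) (E.var 3))]
    40 [V.of 10000 1667 1670, V.of 10000 2183 2187, vT, vR] = true := by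
  decide +kernel
theorem cr : chk [E.sub (dE (E.var 0) (E.sub (E.q 1 2) (E.var 1)) (E.var 2) (E.var 3))
    (E.mul (E.q 8 1) (E.mul E.pi (E.var 3)))]
    40 [V.of 10000 1667 1670, V.of 10000 2183 2187, vT, V.of 10000 0 260] = true := by
  decide +kernel

section
set_option deprecated.oldSectionVars false
variable {x y T ρ : ℝ}

theorem pos4 {e : E} {fuel : ℕ} {l1 h1 l2 h2 l3 h3 l4 h4 : ℤ} {k1 k2 k3 k4 : ℕ}
    (h : chk [e] fuel [V.of 10000 l1 h1 k1, V.of 10000 l2 h2 k2, V.of 10000 l3 h3 k3,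
      V.of 10000 l4 h4 k4] = true)
    (a1 : (l1 : ℝ) / 10000 ≤ x) (b1 : x ≤ (h1 : ℝ) / 10000)
    (a2 : (l2 : ℝ) / 10000 ≤ y) (b2 : y ≤ (h2 : ℝ) / 10000)
    (a3 : (l3 : ℝ) / 10000 ≤ T) (b3 : T ≤ (h3 : ℝ) / 10000)
    (a4 : (l4 : ℝ) / 10000 ≤ ρ) (b4 : ρ ≤ (h4 : ℝ) / 10000) : 0 < e.val [x, y, T, ρ] :=
  pos_of_chk (chk4 h (by norm_num) (by push_cast; exact a1) (by push_cast; exact b1)
    (by push_cast; exact a2) (by push_cast; exact b2) (by push_cast; exact a3)
    (by push_cast; exact b3) (by push_cast; exact a4) (by push_cast; exact b4))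

theorem Hb.pos (H : Hb T ρ) {e : E} {l1 h1 l2 h2 : ℤ}
    (h : chk [e] 40 [V.of 10000 l1 h1, V.of 10000 l2 h2, vT, vR] = true)
    (a1 : (l1 : ℝ) / 10000 ≤ x) (b1 : x ≤ (h1 : ℝ) / 10000)
    (a2 : (l2 : ℝ) / 10000 ≤ y) (b2 : y ≤ (h2 : ℝ) / 10000) : 0 < e.val [x, y, T, ρ] := by
  obtain ⟨t0, t1, r0, r1⟩ := H
  exact pos4 h a1 b1 a2 b2 (by push_cast; linarith only [t0]) (by push_cast; linarith only [t1])
    (by push_cast; linarith only [r0]) (by push_cast; linarith only [r1])

theorem eP_val : eP.val [x, y, T, ρ] = PP (x + y) (T + ρ) := by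
  simp only [eP, pE_val, E.val, lkR_zero, lkR_succ]

theorem eM_val : eM.val [x, y, T, ρ] = PP (y - x) (T - ρ) := by
  simp only [eM, pE_val, E.val, lkR_zero, lkR_succ]

theorem Hb.a (H : Hb T ρ) (x0 : 125 / 1000 ≤ x) (x1 : x ≤ 2 / 10) (y0 : 1 / 4 ≤ y) (y1 : y ≤ 1 / 2) :
    PP (x + y) (T + ρ) < PP (y - x) (T - ρ) := by
  have := H.pos ca (x := x) (y := y) (by push_cast; linarith only [x0]) (by push_cast; linarith only [x1])
    (by push_cast; linarith only [y0]) (by push_cast; linarith only [y1])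
  simp only [ea, E.val, eP_val, eM_val] at this
  linarith only [this]

theorem Hb.b (H : Hb T ρ) (x0 : 125 / 1000 ≤ x) (x1 : x ≤ 2 / 10) (y0 : 2813 / 10000 ≤ y)
    (y1 : y ≤ 2817 / 10000) : 0 < PP (x + y) (T + ρ) + PP (y - x) (T - ρ) := by
  have := H.pos cb (x := x) (y := y) (by push_cast; linarith only [x0]) (by push_cast; linarith only [x1])
    (by push_cast; linarith only [y0]) (by push_cast; linarith only [y1])
  simpa only [eb, E.val, eP_val, eM_val] using this

theorem Hb.c (H : Hb T ρ) (x0 : 125 / 1000 ≤ x) (x1 : x ≤ 3 / 10) (y0 : 2813 / 10000 ≤ y)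
    (y1 : y ≤ 2817 / 10000) :
    13 / 4 * PP (x + y) (T + ρ) - -(5 / 4) * PP (y - x) (T - ρ) + -2 * PP x T < 0 := by
  have := H.pos cc (x := x) (y := y) (by push_cast; linarith only [x0]) (by push_cast; linarith only [x1])
    (by push_cast; linarith only [y0]) (by push_cast; linarith only [y1])
  simp only [ec, E.val, eP_val, eM_val, pE_val, lkR_zero, lkR_succ] at this
  push_cast at this
  linarith only [this]

theorem Hb.d (H : Hb T ρ) (h : 125 / 1000 ≤ x ∧ x ≤ 1670 / 10000 ∧ 1 / 4 ≤ y ∧ y ≤ 2817 / 10000 ∨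
    1667 / 10000 ≤ x ∧ x ≤ 3 / 10 ∧ 2813 / 10000 ≤ y ∧ y ≤ 1 / 2) :
    13 / 4 * PP (x + y) (T + ρ) + -(5 / 4) * PP (y - x) (T - ρ) < 0 := by
  have : 0 < ed.val [x, y, T, ρ] := by
    rcases h with ⟨x0, x1, y0, y1⟩ | ⟨x0, x1, y0, y1⟩
    · exact H.pos cd (by push_cast; linarith only [x0]) (by push_cast; linarith only [x1])
        (by push_cast; linarith only [y0]) (by push_cast; linarith only [y1])
    · exact H.pos cd' (by push_cast; linarith only [x0]) (by push_cast; linarith only [x1])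
        (by push_cast; linarith only [y0]) (by push_cast; linarith only [y1])
  simp only [ed, E.val, eP_val, eM_val] at this
  push_cast at this
  linarith only [this]

theorem Hb.g (H : Hb T ρ) (x0 : 2 / 10 ≤ x) (x1 : x ≤ 3 / 10) (y0 : 1 / 4 ≤ y)
    (y1 : y ≤ 2817 / 10000) : 2 * π * 4 * ρ < Dx x y T ρ := by
  have := H.pos cg (x := x) (y := y) (by push_cast; linarith only [x0]) (by push_cast; linarith only [x1])
    (by push_cast; linarith only [y0]) (by push_cast; linarith only [y1])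
  simp only [eg, E.val, dE_val, lkR_zero, lkR_succ] at this
  push_cast at this
  linarith only [this]

theorem ef_val (hx : 0 < x) (hxy : x + y < 1) (hy : 0 < y) (h1 : -(1 / 2) < y - x)
    (h2 : y - x < 1 / 2) (hT : T < 4 * ρ * y) : ef.val [x, y, T, ρ] = Fr x y T ρ := by
  have e1 := YY_mid (d := y - x) (s := 4 * ρ * y - T) (by linarith only [hT]) h1 h2
  have e2 := YY_lv (x := x + y) (T + 4 * ρ * y) (by linarith only [hx, hy]) hxy
  unfold Fr
  rw [e1, e2]
  have e3 : (4 : ℝ) * (ρ * y) = 4 * ρ * y := by ring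
  simp only [ef, ey, eh, E.val, dE_val, lkR_zero, lkR_succ]
  push_cast
  rw [div_one, e3, div_eq_mul_inv (Real.sin (π * (y - x)) * Real.cosh (π * (4 * ρ * y - T)))]
  ring

theorem er_val : er.val [x, y, T, ρ] = Rr 4 y ρ := by
  simp only [er, E.val, lkR_zero, lkR_succ]
  unfold Rr
  push_cast
  ring

theorem Hb.f (H : Hb T ρ) (x0 : 125 / 1000 ≤ x) (x1 : x ≤ 3 / 10) (y0 : 1 / 8 ≤ y) (y1 : y ≤ 1 / 4)
    (h : 14 / 100 ≤ x ∨ y ≤ 22 / 100) : Rr 4 y ρ < Fr x y T ρ := by
  have : 0 < (E.sub ef er).val [x, y, T, ρ] := by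
    rcases h with h | h
    · exact H.pos cf (by push_cast; linarith only [h]) (by push_cast; linarith only [x1])
        (by push_cast; linarith only [y0]) (by push_cast; linarith only [y1])
    · rcases le_total x (14 / 100) with h' | h'
      · exact H.pos cf' (by push_cast; linarith only [x0]) (by push_cast; linarith only [h'])
          (by push_cast; linarith only [y0]) (by push_cast; linarith only [h])
      · exact H.pos cf (by push_cast; linarith only [h']) (by push_cast; linarith only [x1])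
          (by push_cast; linarith only [y0]) (by push_cast; linarith only [y1])
  have hT : T < 4 * ρ * y := by
    have h1 := H.t1
    have h2 := H.r0
    have : 0 ≤ 4 * ρ * y := by
      have : 0 ≤ ρ := by linarith only [h2]
      positivity
    linarith only [h1, this]
  rw [E.val, er_val, ef_val (by linarith only [x0]) (by linarith only [x1, y1]) (by linarith only [y0]) (by linarith only [x1, y0]) (by linarith only [x0, y1])
    hT] at this
  linarith only [this]

theorem Hb.s (H : Hb T ρ) (x0 : 125 / 1000 ≤ x) (x1 : x ≤ 14 / 100) (y0 : 22 / 100 ≤ y)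
    (y1 : y ≤ 1 / 4) : Rr 4 y ρ < Fr x y T ρ + Sx x y T (4 * ρ * y) - 446 / 1000 := by
  have := H.pos cs (x := x) (y := y) (by push_cast; linarith only [x0]) (by push_cast; linarith only [x1])
    (by push_cast; linarith only [y0]) (by push_cast; linarith only [y1])
  have hT : T < 4 * ρ * y := by
    have h1 := H.t1
    have h2 := H.r0
    have : 0 ≤ 4 * ρ * y := by
      have : 0 ≤ ρ := by linarith only [h2]
      positivity
    linarith only [h1, this]
  simp only [es, E.val, sE_val, er_val, lkR_zero, lkR_succ] at this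
  rw [ef_val (by linarith only [x0]) (by linarith only [x1, y1]) (by linarith only [y0]) (by linarith only [x1, y0]) (by linarith only [x0, y1]) hT] at this
  have e : eh.val [x, y, T, ρ] = 4 * ρ * y := by
    simp only [eh, E.val, lkR_zero, lkR_succ]
    push_cast
    ring
  rw [e] at this
  push_cast at this
  linarith only [this]

end

/-! ### linear combinations of the side and of the derivative -/

/-- `Dx = Phi 1 (-1) 0`, `Sx = Phi 1 1 (-2)` -/
noncomputable def Phi (a b c T ρ x y : ℝ) : ℝ :=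
  a * LL (lv (x + y) (T + ρ)) + b * LL (lv (y - x) (T - ρ)) + c * LL (lv x T)

theorem Dx_Phi (T ρ x y : ℝ) : Dx x y T ρ = Phi 1 (-1) 0 T ρ x y := by
  unfold Dx Phi
  ring

theorem SD_Phi (T ρ x y : ℝ) : Sx x y T ρ + 9 / 4 * Dx x y T ρ =
    Phi (13 / 4) (-(5 / 4)) (-2) T ρ x y := by
  unfold Dx Sx Phi
  ring

section
set_option deprecated.oldSectionVars false
variable {a b c T ρ x y u v : ℝ}

theorem hasDerivAt_lv {z t : ℝ} (h : t ≠ 0) :
    HasDerivAt (fun x : ℝ => LL (lv x t)) (π * PP z t) z :=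
  hasDerivAt_LL_lv' (sin_ne_of_im (by rw [lv_im]; exact h))

theorem Phi_x (h1 : T + ρ ≠ 0) (h2 : T - ρ ≠ 0) (h3 : T ≠ 0) :
    HasDerivAt (fun x => Phi a b c T ρ x y)
      (π * (a * PP (x + y) (T + ρ) - b * PP (y - x) (T - ρ) + c * PP x T)) x := by
  have d1 := (hasDerivAt_lv (z := x + y) h1).comp x ((hasDerivAt_id x).add_const y)
  have d2 := (hasDerivAt_lv (z := y - x) h2).comp x ((hasDerivAt_id x).const_sub y)
  have d3 := hasDerivAt_lv (z := x) h3
  unfold Phi
  refine (((d1.const_mul a).add (d2.const_mul b)).add (d3.const_mul c)).congr_deriv ?_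
  ring

theorem Phi_y (h1 : T + ρ ≠ 0) (h2 : T - ρ ≠ 0) :
    HasDerivAt (fun y => Phi a b c T ρ x y)
      (π * (a * PP (x + y) (T + ρ) + b * PP (y - x) (T - ρ))) y := by
  have d1 := (hasDerivAt_lv (z := x + y) h1).comp y ((hasDerivAt_id y).const_add x)
  have d2 := (hasDerivAt_lv (z := y - x) h2).comp y ((hasDerivAt_id y).sub_const x)
  unfold Phi
  refine (((d1.const_mul a).add (d2.const_mul b)).add_const _).congr_deriv ?_
  ring

theorem lt_of_deriv {f f' : ℝ → ℝ} (hf : ∀ z, HasDerivAt f (π * f' z) z) (h : u < v)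
    (hn : ∀ z ∈ Icc u v, f' z < 0) : f v < f u := by
  have := strictAntiOn_of_deriv_neg (convex_Icc u v)
    (fun z _ => (hf z).continuousAt.continuousWithinAt) (fun z hz => by
      rw [interior_Icc] at hz
      rw [(hf z).deriv]
      exact mul_neg_of_pos_of_neg pi_pos (hn z ⟨hz.1.le, hz.2.le⟩))
  exact this (left_mem_Icc.2 h.le) (right_mem_Icc.2 h.le) h

theorem Hb.n (H : Hb T ρ) : T + ρ ≠ 0 ∧ T - ρ ≠ 0 ∧ T ≠ 0 := by
  obtain ⟨t0, t1, r0, r1⟩ := H
  refine ⟨?_, ?_, ?_⟩ <;> intro h <;> linarith only [t1, r1, h, r0]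

theorem Hb.ltx (H : Hb T ρ) (h : u < v)
    (hn : ∀ z ∈ Icc u v, a * PP (z + y) (T + ρ) - b * PP (y - z) (T - ρ) + c * PP z T < 0) :
    Phi a b c T ρ v y < Phi a b c T ρ u y :=
  lt_of_deriv (f := fun z => Phi a b c T ρ z y)
    (f' := fun z => a * PP (z + y) (T + ρ) - b * PP (y - z) (T - ρ) + c * PP z T)
    (fun _ => Phi_x H.n.1 H.n.2.1 H.n.2.2) h hn

theorem Hb.lty (H : Hb T ρ) (h : u < v)
    (hn : ∀ z ∈ Icc u v, a * PP (x + z) (T + ρ) + b * PP (z - x) (T - ρ) < 0) :
    Phi a b c T ρ x v < Phi a b c T ρ x u :=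
  lt_of_deriv (f := fun z => Phi a b c T ρ x z)
    (f' := fun z => a * PP (x + z) (T + ρ) + b * PP (z - x) (T - ρ))
    (fun _ => Phi_y H.n.1 H.n.2.1) h hn

theorem Hb.ley (H : Hb T ρ) (h : u ≤ v)
    (hn : ∀ z ∈ Icc u v, a * PP (x + z) (T + ρ) + b * PP (z - x) (T - ρ) < 0) :
    Phi a b c T ρ x v ≤ Phi a b c T ρ x u := by
  rcases h.eq_or_lt with h | h
  · rw [h]
  · exact (H.lty h hn).le

/-- `Dx` is decreasing in the ring variable -/
theorem Hb.D_lt (H : Hb T ρ) (x0 : 125 / 1000 ≤ x) (x1 : x ≤ 2 / 10) (hu : 1 / 4 ≤ u) (h : u < v)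
    (hv : v ≤ 1 / 2) : Dx x v T ρ < Dx x u T ρ := by
  rw [Dx_Phi, Dx_Phi]
  refine H.lty h fun z hz => ?_
  have := H.a x0 x1 (y := z) (by linarith only [hu, hz, hz.1]) (by linarith only [hv, hz, hz.2])
  linarith only [this]

theorem Hb.D_le (H : Hb T ρ) (x0 : 125 / 1000 ≤ x) (x1 : x ≤ 2 / 10) (hu : 1 / 4 ≤ u) (h : u ≤ v)
    (hv : v ≤ 1 / 2) : Dx x v T ρ ≤ Dx x u T ρ := by
  rcases h.eq_or_lt with h | h
  · rw [h]
  · exact (H.D_lt x0 x1 hu h hv).le

/-- `Dx` is increasing in the hinge -/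
theorem Hb.D_x (H : Hb T ρ) (hu : 125 / 1000 ≤ u) (h : u < v) (hv : v ≤ 2 / 10)
    (y0 : 2813 / 10000 ≤ y) (y1 : y ≤ 2817 / 10000) : Dx u y T ρ < Dx v y T ρ := by
  have := H.ltx (a := -1) (b := 1) (c := 0) (y := y) h fun z hz => ?_
  · have e1 := Dx_Phi T ρ u y
    have e2 := Dx_Phi T ρ v y
    unfold Phi at this e1 e2
    linarith only [this, e1, e2]
  · have := H.b (x := z) (by linarith only [hu, hz, hz.1]) (by linarith only [hv, hz, hz.2]) y0 y1
    linarith only [this]

end

/-- **The word `4 2`.** -/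
theorem main {xs s T ρ : ℝ} (hx0 : 1667 / 10000 ≤ xs) (hx1 : xs ≤ 1670 / 10000)
    (hT0 : -(930 / 10000) ≤ T) (hT1 : T ≤ -(925 / 10000)) (hs0 : 2183 / 10000 ≤ s)
    (hs1 : s ≤ 2187 / 10000) (hr0 : 0 < ρ) (hr1 : ρ ≤ 265 / 10000)
    (hD : Dx xs (1 / 2 - s) T ρ = 2 * π * 4 * ρ) :
    RP1 4 xs (1 / 2 - s) T ρ (125 / 1000) (30 / 100) (fun _ => 0) (fun _ => 0) ∧
      LI xs (1 / 2 - s) T ρ ∧ RampOK1 4 xs (1 / 2 - s) T ρ (125 / 1000) (30 / 100) := by
  have hr : 260 / 10000 ≤ ρ := by
    by_contra hc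
    push Not at hc
    have := pos4 cr (x := xs) (y := s) (T := T) (ρ := ρ) (by push_cast; linarith only [hx0])
      (by push_cast; linarith only [hx1]) (by push_cast; linarith only [hs0]) (by push_cast; linarith only [hs1])
      (by push_cast; linarith only [hT0]) (by push_cast; linarith only [hT1]) (by push_cast; linarith only [hr0])
      (by push_cast; linarith only [hc])
    simp only [E.val, dE_val, lkR_zero, lkR_succ] at this
    push_cast at this
    linarith only [hD, this]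
  have H : Hb T ρ := ⟨hT0, hT1, hr, hr1⟩
  have hS : Sx xs (1 / 2 - s) T ρ < 446 / 1000 := by
    have := H.pos cS (x := xs) (y := s) (by push_cast; linarith only [hx0]) (by push_cast; linarith only [hx1])
      (by push_cast; linarith only [hs0]) (by push_cast; linarith only [hs1])
    simp only [E.val, sE_val, lkR_zero, lkR_succ] at this
    push_cast at this
    linarith only [this]
  have y0 : 2813 / 10000 ≤ 1 / 2 - s := by linarith only [hs1]
  have y1 : 1 / 2 - s ≤ 2817 / 10000 := by linarith only [hs0]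
  generalize 1 / 2 - s = ys at *
  have ramp : RampOK1 4 xs ys T ρ (125 / 1000) (30 / 100) := by
    refine ⟨fun y ha => ?_, fun x y ha hx => ?_, fun x y ha hx => Or.inl ?_⟩
    · have h0 := ha.y0
      exact H.f (by linarith only [hx0, hr0, hr1]) (by linarith only [hx1, hr0, hr1]) (by linarith only [h0]) ha.y1 (Or.inl (by linarith only [hx0, hr0, hr1]))
    · have h0 := ha.y0
      have hx0' := ha.x0
      by_cases h : 14 / 100 ≤ x ∨ y ≤ 22 / 100
      · exact Or.inl (H.f hx0' (by linarith only [hx1, hr0, hr1, hx]) (by linarith only [h0]) ha.y1 h)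
      · push Not at h
        have := H.s hx0' h.1.le h.2.le ha.y1
        right
        unfold dS
        linarith only [hS, this]
    · have h0 := ha.y0
      have hx1' := ha.x1
      exact H.f (by linarith only [hx0, hr0, hr1, hx]) (by linarith only [hx1']) (by linarith only [h0]) ha.y1 (Or.inl (by linarith only [hx0, hr0, hr1, hx]))
  have li : LI xs ys T ρ :=
    ⟨fun y h1 h2 => H.D_lt (by linarith only [hx0, hr0, hr1]) (by linarith only [hx1, hr0, hr1]) (by linarith only [hr0, hr1, y0]) h1 h2,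
      fun y h1 h2 _ => H.D_lt (by linarith only [hx0, hr0, hr1]) (by linarith only [hx1, hr0, hr1]) h1 h2 (by linarith only [hr0, hr1, y1])⟩
  refine ⟨⟨?_, ?_⟩, li, ramp⟩
  · intro x y hx hy _ F1 F2
    rw [← hD] at F1 F2
    have e1 := SD_Phi T ρ xs ys
    have e2 := SD_Phi T ρ x y
    constructor
    · intro hlt
      have hyy : ys < y := by
        by_contra hc
        push Not at hc
        rcases le_total x (2 / 10) with h | h
        · have k1 := H.D_x (by linarith only [hx0, hr0, hr1]) hlt h y0 y1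
          have k2 := H.D_le (x := x) (by linarith only [hx0, hr0, hr1, hlt]) h hy.1 hc (by linarith only [hr0, hr1, y1])
          linarith only [F1, k1, k2]
        · have := H.g h (by linarith only [hx, hx.2]) hy.1 (hc.trans y1)
          linarith only [hD, F1, this]
      have F := F2 (by linarith only [hr0, hr1, y0, hyy])
      have k1 : Phi (13 / 4) (-(5 / 4)) (-2) T ρ x y ≤ Phi (13 / 4) (-(5 / 4)) (-2) T ρ x ys :=
        H.ley hyy.le fun z hz => H.d (Or.inr ⟨by linarith only [hx0, hlt], by linarith only [hx, hx.2], by linarith only [y0, hz, hz.1],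
          by linarith only [hz, hy, hz.2, hy.2]⟩)
      have k2 : Phi (13 / 4) (-(5 / 4)) (-2) T ρ x ys < Phi (13 / 4) (-(5 / 4)) (-2) T ρ xs ys :=
        H.ltx hlt fun z hz => H.c (by linarith only [hx0, hr0, hr1, hz, hz.1]) (by linarith only [hz, hx, hz.2, hx.2]) y0 y1
      linarith only [e1, e2, F, k1, k2]
    · intro hlt
      have hyy : y < ys := by
        by_contra hc
        push Not at hc
        have F := F2 (by linarith only [hr0, hr1, y0, hc])
        have k1 := H.D_x hx.1 hlt (by linarith only [hx1, hr0, hr1]) y0 y1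
        have k2 := H.D_le (x := x) hx.1 (by linarith only [hx1, hr0, hr1, hlt]) (by linarith only [hr0, hr1, y0]) hc hy.2
        linarith only [F, k1, k2]
      have k1 : Phi (13 / 4) (-(5 / 4)) (-2) T ρ x ys ≤ Phi (13 / 4) (-(5 / 4)) (-2) T ρ x y :=
        H.ley hyy.le fun z hz => H.d (Or.inl ⟨hx.1, by linarith only [hx1, hlt], by linarith only [hz, hy, hz.1, hy.1],
          by linarith only [y1, hz, hz.2]⟩)
      have k2 : Phi (13 / 4) (-(5 / 4)) (-2) T ρ xs ys < Phi (13 / 4) (-(5 / 4)) (-2) T ρ x ys :=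
        H.ltx hlt fun z hz => H.c (by linarith only [hz, hx, hz.1, hx.1]) (by linarith only [hx1, hr0, hr1, hz, hz.2]) y0 y1
      linarith only [F1, e1, e2, k1, k2]
  · intro x y ha foc
    have h1 := ramp_one ramp ha foc
    exact ⟨fun h => by linarith only [h1, h, h1.1 h], fun h => by linarith only [h1, h, h1.2 h]⟩

end R42

theorem r42 {xs s T ρ : ℝ} (hx0 : 1667 / 10000 ≤ xs) (hx1 : xs ≤ 1670 / 10000)
    (hT0 : -(930 / 10000) ≤ T) (hT1 : T ≤ -(925 / 10000)) (hs0 : 2183 / 10000 ≤ s)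
    (hs1 : s ≤ 2187 / 10000) (hr0 : 0 < ρ) (hr1 : ρ ≤ 265 / 10000)
    (hD : Dx xs (1 / 2 - s) T ρ = 2 * π * 4 * ρ) :
    RP1 4 xs (1 / 2 - s) T ρ (125 / 1000) (30 / 100) (fun _ => 0) (fun _ => 0) ∧
      LI xs (1 / 2 - s) T ρ ∧ RampOK1 4 xs (1 / 2 - s) T ρ (125 / 1000) (30 / 100) :=
  R42.main hx0 hx1 hT0 hT1 hs0 hs1 hr0 hr1 hD

end RC

end Pool.Agent.Work.MP_b30479_gtS.G2
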