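import Pool.Agent.Work.MP_b30479_gt.TBS.G2.RKind
import Pool.Agent.Work.MP_b30479_gt.TBS.G2.RGm32
import Pool.Agent.Work.MP_b30479_gt.TBS.G2.RGm15
import Pool.Agent.Work.MP_b30479_gt.TBS.G2.RGm34
import Pool.Agent.Work.MP_b30479_gt.TBS.G2.RGn08
import Pool.Agent.Work.MP_b30479_gt.TBS.G2.RGm21
import Pool.Agent.Work.MP_b30479_gt.TBS.G2.RRC7
import Pool.Agent.Work.MP_b30479_gt.TBS.G2.RGm25
import Pool.Agent.Work.MP_b30479_gt.TBS.G2.RGm04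
import Pool.Agent.Work.MP_b30479_gt.TBS.G2.RGm27
import Pool.Agent.Work.MP_b30479_gt.TBS.G2.RGm28
import Pool.Agent.Work.MP_b30479_gt.TBS.G2.RGm29
import Pool.Agent.Work.MP_b30479_gt.TBS.G2.RGn07
import Pool.Agent.Work.MP_b30479_gt.TBS.G2.RGm10
import Pool.Agent.Work.MP_b30479_gt.TBS.G2.RLvl3
import Pool.Agent.Work.MP_b30479_gt.TBS.G2.WLocF
import Pool.Agent.Work.MP_b30479_gt.TBS.G2.RPush

section

/-!
# Rings on the level part: the hinge between a ring with four crossings and a digit `2` at the end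
-/

namespace Pool.Agent.Work.MP_b30479_gtS.G2

open Real Set VOL Filter Topology

namespace RC

open Row R6

/-- a row for the hinge below, ring variable less -/
def cV (mu vs : ℕ) (ws : List LC) : Cf := ⟨false, 0, mu, 0, 0, 0, 0, 0, vs, ws⟩

section
variable {xs ys T ρ cl cp x y : ℝ} {f g : ℝ → ℝ} {tab : List Te} {W : Wd} {c : Cf}

theorem row_V (g : GD xs ys cl cp) (hc : c.up = false) (ht : c.ty = 0) (hv : c.vs = 0)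
    (R : RowP c T ρ xs ys x y) (hw : ∀ l ∈ c.ws, l.ok T ρ xs ys) (hx : x ∈ Icc cl cp)
    (hy : y ∈ Icc (1 / 4 : ℝ) (1 / 2)) (h1 : x < xs)
    (hN : |gh y - gh ys| ≤ gh xs - gh x) :
    Sx xs ys T ρ < Sx x y T ρ + (c.mu : ℝ) / 1000 * (gh xs - gh x) := by
  have hxi := g.x1 hx
  have hm := (gh_lt hxi g.xi).2 h1
  have k := R g.xi.1 (by linarith only [g, g.xc, g.cp2]) (by linarith only [g, g.y4]) g.y2 hxi.1
    (by linarith only [hx, g, hx.2, g.cp2]) (by linarith only [hy, hy.1]) hy.2 hw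
  rw [hc, mm_false, AA_false] at k
  have k2 := (k (by linarith only [hm]) (fun _ => by linarith only [hm]) (fun h => by omega)
    (fun _ => by rwa [abs_sub_comm]) (fun h => by omega) (fun h => by omega)
    (fun h => absurd hv h)).1 ht
  linarith only [k2]

/-- comparison statements, the contribution up by `zup` -/
theorem Wd.In.LF0 (I : W.In T ρ xs ys) (g : GD xs ys cl cp)
    (hU : ∀ x y, x ∈ Icc cl cp → ys < y → y ≤ 1 / 2 → |gh x - gh xs| < gh y - gh ys →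
      Dx x y T ρ < Dx xs ys T ρ) {mu mud A B : ℕ}
    (R1 : W.R (cW mu 0) W.x0 B 2500 5000) (R2 : W.R (cV mud 0) A W.x1 2500 5000)
    (hf : ∀ m, 0 < m → (mu : ℝ) / 1000 * m ≤ f m)
    {g' : ℝ → ℝ} (hg : ∀ m, 0 < m → (mud : ℝ) / 1000 * m ≤ g' m)
    (hA : (A : ℝ) / 10000 ≤ cl) (hB : cp ≤ (B : ℝ) / 10000) : RC.LF xs ys T ρ cl cp f g' := by
  refine ⟨g.xi, hU, ?_, ?_⟩
  · intro x y hx hy h1 _ hN
    have hm := (gh_lt g.xi (g.x1 hx)).2 h1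
    have hf' := hf _ (sub_pos.2 hm)
    have := row_W (c := cW mu 0 W.ws) g rfl rfl
      (R1.at I (I.x0.trans h1.le) (hx.2.trans hB) (by norm_num; linarith only [hy, hy.1])
        (by norm_num; linarith only [hy, hy.2])) I.ws hx hy h1 hN (fun h => absurd rfl h)
    change Sx x y T ρ < Sx xs ys T ρ + (mu : ℝ) / 1000 * (gh x - gh xs) at this
    linarith only [hf', this]
  · intro x y hx hy h1 _ hN
    have hm := (gh_lt (g.x1 hx) g.xi).2 h1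
    have hg' := hg _ (sub_pos.2 hm)
    have := row_V (c := cV mud 0 W.ws) g rfl rfl rfl
      (R2.at I (hA.trans hx.1) (h1.le.trans I.x1) (by norm_num; linarith only [hy, hy.1])
        (by norm_num; linarith only [hy, hy.2])) I.ws hx hy h1 hN
    change Sx xs ys T ρ < Sx x y T ρ + (mud : ℝ) / 1000 * (gh xs - gh x) at this
    linarith only [hg', this]

/-- an entry for the sides, regions of the rows given -/
theorem Wd.In.dtg (I : W.In T ρ xs ys) (G : GD xs ys cl cp) {f g : ℝ → ℝ}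
    {mu mud al m0 dl m1 n1 du u1 u2 dd d1 d2 vs A B ya yb yb' : ℕ}
    (hH : vs ≠ 0 → RC.HD xs ys T ρ cl cp)
    (Ru : W.R (cD true mu al m0 du u1 u2 vs) W.x0 B ya yb')
    (Rd : W.R (cD false mud al m0 dd d1 d2 vs) A W.x1 ya yb')
    (hu : du = 0 ∨ (du = dl ∧ u1 = m1 ∧ u2 = n1)) (hd : dd = 0 ∨ (dd = dl ∧ d1 = m1 ∧ d2 = n1))
    (hy : (Nat.ble yb yb' || Nat.ble W.y1 yb') = true)
    (hf : ∀ m, 0 < m → (mu : ℝ) / 1000 * m ≤ f m) (hg : ∀ m, 0 < m → (mud : ℝ) / 1000 * m ≤ g m)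
    (t : DT xs ys T ρ cl cp f g tab)
    (hA : (A : ℝ) / 10000 ≤ cl) (hB : cp ≤ (B : ℝ) / 10000) :
    DT xs ys T ρ cl cp f g (⟨ya, yb, al, m0, dl, m1, n1⟩ :: tab) :=
  t.cons fun _ h1 h2 h3 h4 => I.DS G hH hH Ru Rd hu hd hf hg hA hB h1 (I.yb hy h2 h4) h3 h4

end

end RC

end Pool.Agent.Work.MP_b30479_gtS.G2

end

section

/-!
# Rings on the level part: pairs of hinges
-/

namespace Pool.Agent.Work.MP_b30479_gtS.G2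

open Real Set

namespace RC

open R6

theorem lf4a1 {xs ys T ρ : ℝ} (O : OneB xs ys T ρ) (I : o4a1.In T ρ xs ys) :
    LF xs ys T ρ (16 / 100) (36 / 100) (fun _ => 0) (fun _ => 0) :=
  O.LF I o4a1_Wa o4a1_Wb hf0

theorem lf4c1 {xs ys T ρ : ℝ} (O : OneB xs ys T ρ) (I : o4c1.In T ρ xs ys) :
    LF xs ys T ρ (16 / 100) (36 / 100) (fun _ => 0) (fun _ => 0) :=
  O.LF I o4c1_Wa o4c1_Wb hf0

theorem lf4b1 {xs ys T ρ : ℝ} (O : OneB xs ys T ρ) (I : o4b1.In T ρ xs ys) :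
    LF xs ys T ρ (16 / 100) (36 / 100) (fun m => 38 / 100 * m) (fun _ => 0) :=
  O.LF I o4b1_Wa o4b1_Wb hf38

theorem lf4bb1 {xs ys T ρ : ℝ} (O : OneB xs ys T ρ) (I : o4bb1.In T ρ xs ys) :
    LF xs ys T ρ (16 / 100) (36 / 100) (fun m => 38 / 100 * m) (fun _ => 0) :=
  O.LF I o4bb1_Wa o4bb1_Wb hf38

def t4a : List Te := [⟨2500, 2600, 115, 65, 40, 120, 150⟩, ⟨2600, 2700, 160, 100, 0, 0, 0⟩, ⟨2700, 2800, 160, 120, 0, 0, 0⟩, ⟨2800, 2900, 0, 0, 0, 0, 0⟩, ⟨2900, 3000, 0, 0, 0, 0, 0⟩, ⟨3000, 5000, 0, 0, 0, 0, 0⟩]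

theorem qt4a {xs ys T ρ : ℝ} (O : OneB xs ys T ρ) (I : o4a1.In T ρ xs ys) :
    QT xs ys T ρ (16 / 100) (36 / 100) t4a :=
  (I.qe O.GD (fun _ => O.HD) o4a1_Qp2500_115_65_0 o4a1_Qm2500_115_65_0 o4a1_Ep2500_115_65_40 o4a1_Em2500_115_65_40 rfl
      (I.qt O.GD (fun _ => O.HD) o4a1_Qp2600_160_100_0 o4a1_Qm2600_160_100_0 rfl
      (I.qt O.GD (fun _ => O.HD) o4a1_Qp2700_160_120_0 o4a1_Qm2700_160_120_0 rfl
      (I.qtz O.GD (fun _ => O.HD) o4a1_Qp2800_0_0_0 o4a1_Qm2800_0_0_0 (by decide) rfl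
      (I.qtz O.GD (fun _ => O.HD) o4a1_Qp2800_0_0_0 o4a1_Qm2800_0_0_0 (by decide) rfl
      (I.qtz O.GD (fun _ => O.HD) o4a1_Qp2800_0_0_0 o4a1_Qm2800_0_0_0 (by decide) rfl
      QT.nil A16 B36) A16 B36) A16 B36) A16 B36) A16 B36) A16 B36)

theorem dt4a_a {xs ys T ρ : ℝ} (O : OneB xs ys T ρ) (I : o4a1.In T ρ xs ys) :
    DT xs ys T ρ (16 / 100) (36 / 100) (fun _ => 0) (fun _ => 0) t4a :=
  (I.dtg O.GD (fun _ => O.HD) o4a1_Dp2500_115_65_0 o4a1_Dm2500_115_65_0 (Or.inl rfl) (Or.inl rfl) rfl hf0 hf0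
      (I.dtg O.GD (fun _ => O.HD) o4a1_Dp2600_160_100_0 o4a1_Dm2600_160_100_0 (Or.inl rfl) (Or.inl rfl) rfl hf0 hf0
      (I.dtg O.GD (fun _ => O.HD) o4a1_Dp2700_160_120_0 o4a1_Dm2700_160_120_0 (Or.inl rfl) (Or.inl rfl) rfl hf0 hf0
      (I.dtz O.GD (fun _ => O.HD) o4a1_Qp2800_0_0_0 o4a1_Qm2800_0_0_0 (by decide) rfl
      (I.dtz O.GD (fun _ => O.HD) o4a1_Qp2800_0_0_0 o4a1_Qm2800_0_0_0 (by decide) rfl
      (I.dtz O.GD (fun _ => O.HD) o4a1_Qp2800_0_0_0 o4a1_Qm2800_0_0_0 (by decide) rfl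
      DT.nil A16 B36) A16 B36) A16 B36) A16 B36) A16 B36) A16 B36)

theorem dt4b_a {xs ys T ρ : ℝ} (O : OneB xs ys T ρ) (I : o4b1.In T ρ xs ys) :
    DT xs ys T ρ (16 / 100) (36 / 100) (fun m => 38 / 100 * m) (fun _ => 0) t4a :=
  (I.dtg O.GD (fun _ => O.HD) o4b1_Dp2500_115_65_40 o4b1_Dm2500_115_65_0 (Or.inr ⟨rfl, rfl, rfl⟩) (Or.inl rfl) rfl hf38 hf0
      (I.dtg O.GD (fun _ => O.HD) o4b1_Dp2600_160_100_0 o4b1_Dm2600_160_100_0 (Or.inl rfl) (Or.inl rfl) rfl hf38 hf0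
      (I.dtg O.GD (fun _ => O.HD) o4b1_Dp2700_160_120_0 o4b1_Dm2700_160_120_0 (Or.inl rfl) (Or.inl rfl) rfl hf38 hf0
      (I.dt O.GD (fun _ => O.HD) o4b1_Dp2800_0_0_0 o4b1_Dm2800_0_0_0 rfl hf38 hf0
      (I.dt O.GD (fun _ => O.HD) o4b1_Dp2900_0_0_0 o4b1_Dm2900_0_0_0 rfl hf38 hf0
      (I.dtz O.GD (fun _ => O.HD) o4b1_Qp3000_0_0_0 o4b1_Qm3000_0_0_0 (by decide) rfl
      DT.nil A16 B36) A16 B36) A16 B36) A16 B36) A16 B36) A16 B36)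

theorem dt4c_a {xs ys T ρ : ℝ} (O : OneB xs ys T ρ) (I : o4c1.In T ρ xs ys) :
    DT xs ys T ρ (16 / 100) (36 / 100) (fun _ => 0) (fun _ => 0) t4a :=
  (I.dtg O.GD (fun _ => O.HD) o4c1_Dp2500_115_65_0 o4c1_Dm2500_115_65_0 (Or.inl rfl) (Or.inl rfl) rfl hf0 hf0
      (I.dtg O.GD (fun _ => O.HD) o4c1_Dp2600_160_100_0 o4c1_Dm2600_160_100_0 (Or.inl rfl) (Or.inl rfl) rfl hf0 hf0
      (I.dtg O.GD (fun _ => O.HD) o4c1_Dp2700_160_120_0 o4c1_Dm2700_160_120_0 (Or.inl rfl) (Or.inl rfl) rfl hf0 hf0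
      (I.dtz O.GD (fun _ => O.HD) o4c1_Qp2700_0_0_0 o4c1_Qm2700_0_0_0 (by decide) rfl
      (I.dtz O.GD (fun _ => O.HD) o4c1_Qp2700_0_0_0 o4c1_Qm2700_0_0_0 (by decide) rfl
      (I.dtz O.GD (fun _ => O.HD) o4c1_Qp2700_0_0_0 o4c1_Qm2700_0_0_0 (by decide) rfl
      DT.nil A16 B36) A16 B36) A16 B36) A16 B36) A16 B36) A16 B36)

def t4c : List Te := [⟨2500, 2600, 160, 180, 40, 120, 150⟩, ⟨2600, 2700, 160, 220, 0, 0, 0⟩, ⟨2700, 2800, 0, 0, 0, 0, 0⟩, ⟨2800, 2900, 0, 0, 0, 0, 0⟩, ⟨2900, 3000, 0, 0, 0, 0, 0⟩, ⟨3000, 5000, 0, 0, 0, 0, 0⟩]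

theorem qt4c {xs ys T ρ : ℝ} (O : OneB xs ys T ρ) (I : o4c1.In T ρ xs ys) :
    QT xs ys T ρ (16 / 100) (36 / 100) t4c :=
  (I.qe O.GD (fun _ => O.HD) o4c1_Qp2500_160_180_0 o4c1_Qm2500_160_180_0 o4c1_Ep2500_160_180_40 o4c1_Em2500_160_180_40 rfl
      (I.qt O.GD (fun _ => O.HD) o4c1_Qp2600_160_220_0 o4c1_Qm2600_160_220_0 rfl
      (I.qtz O.GD (fun _ => O.HD) o4c1_Qp2700_0_0_0 o4c1_Qm2700_0_0_0 (by decide) rfl
      (I.qtz O.GD (fun _ => O.HD) o4c1_Qp2700_0_0_0 o4c1_Qm2700_0_0_0 (by decide) rfl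
      (I.qtz O.GD (fun _ => O.HD) o4c1_Qp2700_0_0_0 o4c1_Qm2700_0_0_0 (by decide) rfl
      (I.qtz O.GD (fun _ => O.HD) o4c1_Qp2700_0_0_0 o4c1_Qm2700_0_0_0 (by decide) rfl
      QT.nil A16 B36) A16 B36) A16 B36) A16 B36) A16 B36) A16 B36)

theorem dt4a_c {xs ys T ρ : ℝ} (O : OneB xs ys T ρ) (I : o4a1.In T ρ xs ys) :
    DT xs ys T ρ (16 / 100) (36 / 100) (fun _ => 0) (fun _ => 0) t4c :=
  (I.dtg O.GD (fun _ => O.HD) o4a1_Dp2500_160_180_0 o4a1_Dm2500_160_180_0 (Or.inl rfl) (Or.inl rfl) rfl hf0 hf0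
      (I.dtg O.GD (fun _ => O.HD) o4a1_Dp2600_160_220_0 o4a1_Dm2600_160_220_0 (Or.inl rfl) (Or.inl rfl) rfl hf0 hf0
      (I.dt O.GD (fun _ => O.HD) o4a1_Dp2700_0_0_0 o4a1_Dm2700_0_0_0 rfl hf0 hf0
      (I.dtz O.GD (fun _ => O.HD) o4a1_Qp2800_0_0_0 o4a1_Qm2800_0_0_0 (by decide) rfl
      (I.dtz O.GD (fun _ => O.HD) o4a1_Qp2800_0_0_0 o4a1_Qm2800_0_0_0 (by decide) rfl
      (I.dtz O.GD (fun _ => O.HD) o4a1_Qp2800_0_0_0 o4a1_Qm2800_0_0_0 (by decide) rfl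
      DT.nil A16 B36) A16 B36) A16 B36) A16 B36) A16 B36) A16 B36)

theorem dt4b_c {xs ys T ρ : ℝ} (O : OneB xs ys T ρ) (I : o4b1.In T ρ xs ys) :
    DT xs ys T ρ (16 / 100) (36 / 100) (fun m => 38 / 100 * m) (fun _ => 0) t4c :=
  (I.dtg O.GD (fun _ => O.HD) o4b1_Dp2500_160_180_40 o4b1_Dm2500_160_180_0 (Or.inr ⟨rfl, rfl, rfl⟩) (Or.inl rfl) rfl hf38 hf0
      (I.dtg O.GD (fun _ => O.HD) o4b1_Dp2600_160_220_0 o4b1_Dm2600_160_220_0 (Or.inl rfl) (Or.inl rfl) rfl hf38 hf0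
      (I.dt O.GD (fun _ => O.HD) o4b1_Dp2700_0_0_0 o4b1_Dm2700_0_0_0 rfl hf38 hf0
      (I.dt O.GD (fun _ => O.HD) o4b1_Dp2800_0_0_0 o4b1_Dm2800_0_0_0 rfl hf38 hf0
      (I.dt O.GD (fun _ => O.HD) o4b1_Dp2900_0_0_0 o4b1_Dm2900_0_0_0 rfl hf38 hf0
      (I.dtz O.GD (fun _ => O.HD) o4b1_Qp3000_0_0_0 o4b1_Qm3000_0_0_0 (by decide) rfl
      DT.nil A16 B36) A16 B36) A16 B36) A16 B36) A16 B36) A16 B36)

theorem dt4c_c {xs ys T ρ : ℝ} (O : OneB xs ys T ρ) (I : o4c1.In T ρ xs ys) :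
    DT xs ys T ρ (16 / 100) (36 / 100) (fun _ => 0) (fun _ => 0) t4c :=
  (I.dtg O.GD (fun _ => O.HD) o4c1_Dp2500_160_180_0 o4c1_Dm2500_160_180_0 (Or.inl rfl) (Or.inl rfl) rfl hf0 hf0
      (I.dtg O.GD (fun _ => O.HD) o4c1_Dp2600_160_220_0 o4c1_Dm2600_160_220_0 (Or.inl rfl) (Or.inl rfl) rfl hf0 hf0
      (I.dtz O.GD (fun _ => O.HD) o4c1_Qp2700_0_0_0 o4c1_Qm2700_0_0_0 (by decide) rfl
      (I.dtz O.GD (fun _ => O.HD) o4c1_Qp2700_0_0_0 o4c1_Qm2700_0_0_0 (by decide) rfl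
      (I.dtz O.GD (fun _ => O.HD) o4c1_Qp2700_0_0_0 o4c1_Qm2700_0_0_0 (by decide) rfl
      (I.dtz O.GD (fun _ => O.HD) o4c1_Qp2700_0_0_0 o4c1_Qm2700_0_0_0 (by decide) rfl
      DT.nil A16 B36) A16 B36) A16 B36) A16 B36) A16 B36) A16 B36)

def t4b : List Te := [⟨2500, 2600, 115, 30, 0, 0, 0⟩, ⟨2600, 2700, 115, 50, 0, 0, 0⟩, ⟨2700, 2800, 115, 65, 0, 0, 0⟩, ⟨2800, 2900, 100, 65, 0, 0, 0⟩, ⟨2900, 3000, 160, 100, 0, 0, 0⟩, ⟨3000, 5000, 0, 0, 0, 0, 0⟩]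

theorem qt4b {xs ys T ρ : ℝ} (O : OneB xs ys T ρ) (I : o4b1.In T ρ xs ys) :
    QT xs ys T ρ (16 / 100) (36 / 100) t4b :=
  (I.qt O.GD (fun _ => O.HD) o4b1_Qp2500_115_30_0 o4b1_Qm2500_115_30_0 rfl
      (I.qt O.GD (fun _ => O.HD) o4b1_Qp2600_115_50_0 o4b1_Qm2600_115_50_0 rfl
      (I.qt O.GD (fun _ => O.HD) o4b1_Qp2700_115_65_0 o4b1_Qm2700_115_65_0 rfl
      (I.qt O.GD (fun _ => O.HD) o4b1_Qp2800_100_65_0 o4b1_Qm2800_100_65_0 rfl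
      (I.qt O.GD (fun _ => O.HD) o4b1_Qp2900_160_100_0 o4b1_Qm2900_160_100_0 rfl
      (I.qtz O.GD (fun _ => O.HD) o4b1_Qp3000_0_0_0 o4b1_Qm3000_0_0_0 (by decide) rfl
      QT.nil A16 B36) A16 B36) A16 B36) A16 B36) A16 B36) A16 B36)

theorem dt4a_b {xs ys T ρ : ℝ} (O : OneB xs ys T ρ) (I : o4a1.In T ρ xs ys) :
    DT xs ys T ρ (16 / 100) (36 / 100) (fun _ => 0) (fun _ => 0) t4b :=
  (I.dtg O.GD (fun _ => O.HD) o4a1_Dp2500_115_30_0 o4a1_Dm2500_115_30_0 (Or.inl rfl) (Or.inl rfl) rfl hf0 hf0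
      (I.dtg O.GD (fun _ => O.HD) o4a1_Dp2600_115_50_0 o4a1_Dm2600_115_50_0 (Or.inl rfl) (Or.inl rfl) rfl hf0 hf0
      (I.dtg O.GD (fun _ => O.HD) o4a1_Dp2700_115_65_0 o4a1_Dm2700_115_65_0 (Or.inl rfl) (Or.inl rfl) rfl hf0 hf0
      (I.dtg O.GD (fun _ => O.HD) o4a1_Dp2800_100_65_0 o4a1_Dm2800_100_65_0 (Or.inl rfl) (Or.inl rfl) rfl hf0 hf0
      (I.dtg O.GD (fun _ => O.HD) o4a1_Dp2900_160_100_0 o4a1_Dm2900_160_100_0 (Or.inl rfl) (Or.inl rfl) rfl hf0 hf0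
      (I.dtz O.GD (fun _ => O.HD) o4a1_Qp2800_0_0_0 o4a1_Qm2800_0_0_0 (by decide) rfl
      DT.nil A16 B36) A16 B36) A16 B36) A16 B36) A16 B36) A16 B36)

theorem dt4c_b {xs ys T ρ : ℝ} (O : OneB xs ys T ρ) (I : o4c1.In T ρ xs ys) :
    DT xs ys T ρ (16 / 100) (36 / 100) (fun _ => 0) (fun _ => 0) t4b :=
  (I.dtg O.GD (fun _ => O.HD) o4c1_Dp2500_115_30_0 o4c1_Dm2500_115_30_0 (Or.inl rfl) (Or.inl rfl) rfl hf0 hf0
      (I.dtg O.GD (fun _ => O.HD) o4c1_Dp2600_115_50_0 o4c1_Dm2600_115_50_0 (Or.inl rfl) (Or.inl rfl) rfl hf0 hf0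
      (I.dtg O.GD (fun _ => O.HD) o4c1_Dp2700_115_65_0 o4c1_Dm2700_115_65_0 (Or.inl rfl) (Or.inl rfl) rfl hf0 hf0
      (I.dtg O.GD (fun _ => O.HD) o4c1_Dp2800_100_65_0 o4c1_Dm2800_100_65_0 (Or.inl rfl) (Or.inl rfl) rfl hf0 hf0
      (I.dtg O.GD (fun _ => O.HD) o4c1_Dp2900_160_100_0 o4c1_Dm2900_160_100_0 (Or.inl rfl) (Or.inl rfl) rfl hf0 hf0
      (I.dtz O.GD (fun _ => O.HD) o4c1_Qp2700_0_0_0 o4c1_Qm2700_0_0_0 (by decide) rfl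
      DT.nil A16 B36) A16 B36) A16 B36) A16 B36) A16 B36) A16 B36)

def t4bb : List Te := [⟨2500, 2600, 130, 65, 0, 0, 0⟩, ⟨2600, 2700, 100, 50, 0, 0, 0⟩, ⟨2700, 2800, 160, 80, 0, 0, 0⟩, ⟨2800, 2900, 130, 80, 0, 0, 0⟩, ⟨2900, 3000, 115, 120, 0, 0, 0⟩, ⟨3000, 5000, 0, 0, 0, 0, 0⟩]

theorem qt4bb {xs ys T ρ : ℝ} (O : OneB xs ys T ρ) (I : o4bb1.In T ρ xs ys) :
    QT xs ys T ρ (16 / 100) (36 / 100) t4bb :=
  (I.qt O.GD (fun _ => O.HD) o4bb1_Qp2500_130_65_0 o4bb1_Qm2500_130_65_0 rfl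
      (I.qt O.GD (fun _ => O.HD) o4bb1_Qp2600_100_50_0 o4bb1_Qm2600_100_50_0 rfl
      (I.qt O.GD (fun _ => O.HD) o4bb1_Qp2700_160_80_0 o4bb1_Qm2700_160_80_0 rfl
      (I.qt O.GD (fun _ => O.HD) o4bb1_Qp2800_130_80_0 o4bb1_Qm2800_130_80_0 rfl
      (I.qt O.GD (fun _ => O.HD) o4bb1_Qp2900_115_120_0 o4bb1_Qm2900_115_120_0 rfl
      (I.qtz O.GD (fun _ => O.HD) o4bb1_Qp3000_0_0_0 o4bb1_Qm3000_0_0_0 (by decide) rfl
      QT.nil A16 B36) A16 B36) A16 B36) A16 B36) A16 B36) A16 B36)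

theorem dt4bb_bb {xs ys T ρ : ℝ} (O : OneB xs ys T ρ) (I : o4bb1.In T ρ xs ys) :
    DT xs ys T ρ (16 / 100) (36 / 100) (fun m => 38 / 100 * m) (fun _ => 0) t4bb :=
  (I.dtg O.GD (fun _ => O.HD) o4bb1_Dp2500_130_65_0 o4bb1_Dm2500_130_65_0 (Or.inl rfl) (Or.inl rfl) rfl hf38 hf0
      (I.dtg O.GD (fun _ => O.HD) o4bb1_Dp2600_100_50_0 o4bb1_Dm2600_100_50_0 (Or.inl rfl) (Or.inl rfl) rfl hf38 hf0
      (I.dtg O.GD (fun _ => O.HD) o4bb1_Dp2700_160_80_0 o4bb1_Dm2700_160_80_0 (Or.inl rfl) (Or.inl rfl) rfl hf38 hf0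
      (I.dtg O.GD (fun _ => O.HD) o4bb1_Dp2800_130_80_0 o4bb1_Dm2800_130_80_0 (Or.inl rfl) (Or.inl rfl) rfl hf38 hf0
      (I.dtg O.GD (fun _ => O.HD) o4bb1_Dp2900_115_120_0 o4bb1_Dm2900_115_120_0 (Or.inl rfl) (Or.inl rfl) rfl hf38 hf0
      (I.dtz O.GD (fun _ => O.HD) o4bb1_Qp3000_0_0_0 o4bb1_Qm3000_0_0_0 (by decide) rfl
      DT.nil A16 B36) A16 B36) A16 B36) A16 B36) A16 B36) A16 B36)

end RC

end Pool.Agent.Work.MP_b30479_gtS.G2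

end

section

/-!
# Rings on the level part: pairs of hinges
-/

namespace Pool.Agent.Work.MP_b30479_gtS.G2

open Real Set

namespace RC

open R6

theorem pr5b2 {xs ys T ρ xs' T' : ℝ} (O : OneB xs ys T ρ) (I : o5b2.In T ρ xs ys)
    (H : HD xs' ys T' ρ (125 / 1000) (30 / 100)) (l : LH xs' ys T' ρ (125 / 1000) (30 / 100))
    (d : DnG xs' T' (125 / 1000) (30 / 100) ys ρ) (I' : p5b2.In T' ρ xs' ys)
    (hx' : xs' ∈ Icc (125 / 1000) (30 / 100)) :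
    Pr ys ρ xs T (16 / 100) (36 / 100) (fun m => 355 / 1000 * m) (fun _ => 0) xs' T' (125 / 1000) (30 / 100)
      (fun _ => 0) (fun _ => 0) :=
  Pr.of (tab := [⟨2500, 2600, 0, 0, 0, 0, 0⟩, ⟨2600, 2700, 0, 0, 0, 0, 0⟩, ⟨2700, 2800, 0, 0, 0, 0, 0⟩, ⟨2800, 2900, 0, 0, 0, 0, 0⟩, ⟨2900, 3000, 0, 0, 0, 0, 0⟩, ⟨3000, 5000, 0, 0, 0, 0, 0⟩])
    (tab' := [⟨2500, 2600, 115, 80, 0, 0, 0⟩, ⟨2600, 2700, 100, 80, 0, 0, 0⟩, ⟨2700, 2800, 130, 100, 0, 0, 0⟩, ⟨2800, 2900, 115, 120, 0, 0, 0⟩, ⟨2900, 3000, 160, 120, 0, 0, 0⟩, ⟨3000, 5000, 0, 0, 0, 0, 0⟩])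
    (O.LF I o5b2_Wa o5b2_Wb hf355) (l.toF hz0 hz0 (by norm_num) (by norm_num))
    (I.dt O.GD (fun _ => O.HD) o5b2_Dp2500_0_0_0 o5b2_Dm2500_0_0_0 rfl hf355 hf0
      (I.dt O.GD (fun _ => O.HD) o5b2_Dp2600_0_0_0 o5b2_Dm2600_0_0_0 rfl hf355 hf0
      (I.dt O.GD (fun _ => O.HD) o5b2_Dp2700_0_0_0 o5b2_Dm2700_0_0_0 rfl hf355 hf0
      (I.dt O.GD (fun _ => O.HD) o5b2_Dp2800_0_0_0 o5b2_Dm2800_0_0_0 rfl hf355 hf0
      (I.dt O.GD (fun _ => O.HD) o5b2_Dp2900_0_0_0 o5b2_Dm2900_0_0_0 rfl hf355 hf0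
      (I.dt0 O.GD (fun _ => O.HD) o5b2_Qp3000_0_0_0 o5b2_Qm3000_0_0_0 rfl DT.nil A16 B36) A16 B36) A16 B36) A16 B36) A16 B36) A16 B36)
    (d.qt (d.qt (d.qt (d.qt (d.qt (d.qt QT.nil))))))
    (I'.dt H.toGD (fun _ => H) p5b2_Dp2500_115_80_0 p5b2_Dm2500_115_80_0 rfl hf0 hf0
      (I'.dt H.toGD (fun _ => H) p5b2_Dp2600_100_80_0 p5b2_Dm2600_100_80_0 rfl hf0 hf0
      (I'.dt H.toGD (fun _ => H) p5b2_Dp2700_130_100_0 p5b2_Dm2700_130_100_0 rfl hf0 hf0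
      (I'.dt H.toGD (fun _ => H) p5b2_Dp2800_115_120_0 p5b2_Dm2800_115_120_0 rfl hf0 hf0
      (I'.dt H.toGD (fun _ => H) p5b2_Dp2900_160_120_0 p5b2_Dm2900_160_120_0 rfl hf0 hf0
      (d.dt H.toGD DT.nil) A12 B30) A12 B30) A12 B30) A12 B30) A12 B30)
    (I.qt O.GD (fun _ => O.HD) o5b2_Qp2500_115_80_0 o5b2_Qm2500_115_80_0 rfl
      (I.qt O.GD (fun _ => O.HD) o5b2_Qp2600_100_80_0 o5b2_Qm2600_100_80_0 rfl
      (I.qt O.GD (fun _ => O.HD) o5b2_Qp2700_130_100_0 o5b2_Qm2700_130_100_0 rfl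
      (I.qt O.GD (fun _ => O.HD) o5b2_Qp2800_115_120_0 o5b2_Qm2800_115_120_0 rfl
      (I.qt O.GD (fun _ => O.HD) o5b2_Qp2900_160_120_0 o5b2_Qm2900_160_120_0 rfl
      (I.qt O.GD (fun _ => O.HD) o5b2_Qp3000_0_0_0 o5b2_Qm3000_0_0_0 rfl QT.nil A16 B36) A16 B36) A16 B36) A16 B36) A16 B36) A16 B36)
    (by decide) (by decide) O.hys O.hxs hx'

theorem pr5b2x {xs ys T ρ xs' T' : ℝ} (O : OneB xs ys T ρ) (I : o5b2.In T ρ xs ys)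
    (Is : o5b2x.In T ρ xs ys)
    (H : HD xs' ys T' ρ (125 / 1000) (30 / 100)) (l : LH xs' ys T' ρ (125 / 1000) (30 / 100))
    (d : DnG xs' T' (125 / 1000) (30 / 100) ys ρ) (I' : p5b2.In T' ρ xs' ys)
    (hx' : xs' ∈ Icc (125 / 1000) (30 / 100)) :
    Pr ys ρ xs T (16 / 100) (36 / 100) (fun _ => 0) (fun _ => 0) xs' T' (125 / 1000) (30 / 100)
      (fun _ => 0) (fun _ => 0) :=
  Pr.of (tab := [⟨2500, 2600, 0, 0, 0, 0, 0⟩, ⟨2600, 2700, 0, 0, 0, 0, 0⟩, ⟨2700, 2800, 0, 0, 0, 0, 0⟩, ⟨2800, 2900, 0, 0, 0, 0, 0⟩, ⟨2900, 3000, 0, 0, 0, 0, 0⟩, ⟨3000, 5000, 0, 0, 0, 0, 0⟩])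
    (tab' := [⟨2500, 2600, 115, 80, 0, 0, 0⟩, ⟨2600, 2700, 100, 80, 0, 0, 0⟩, ⟨2700, 2800, 130, 100, 0, 0, 0⟩, ⟨2800, 2900, 115, 120, 0, 0, 0⟩, ⟨2900, 3000, 160, 120, 0, 0, 0⟩, ⟨3000, 5000, 0, 0, 0, 0, 0⟩])
    (O.LF Is o5b2x_Wa o5b2x_Wb hf0) (l.toF hz0 hz0 (by norm_num) (by norm_num))
    (Is.dtg O.GD (fun _ => O.HD) o5b2x_Dp2500_0_0_0 o5b2x_Dm2500_0_0_0 (Or.inl rfl) (Or.inl rfl) rfl hf0 hf0
      (Is.dtg O.GD (fun _ => O.HD) o5b2x_Dp2600_0_0_0 o5b2x_Dm2600_0_0_0 (Or.inl rfl) (Or.inl rfl) rfl hf0 hf0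
      (Is.dtg O.GD (fun _ => O.HD) o5b2x_Dp2700_0_0_0 o5b2x_Dm2700_0_0_0 (Or.inl rfl) (Or.inl rfl) rfl hf0 hf0
      (Is.dtg O.GD (fun _ => O.HD) o5b2x_Dp2800_0_0_0 o5b2x_Dm2800_0_0_0 (Or.inl rfl) (Or.inl rfl) rfl hf0 hf0
      (Is.dtg O.GD (fun _ => O.HD) o5b2x_Dp2900_0_0_0 o5b2x_Dm2900_0_0_0 (Or.inl rfl) (Or.inl rfl) rfl hf0 hf0
      (I.dt0 O.GD (fun _ => O.HD) o5b2_Qp3000_0_0_0 o5b2_Qm3000_0_0_0 rfl DT.nil A16 B36) A16 B36) A16 B36) A16 B36) A16 B36) A16 B36)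
    (d.qt (d.qt (d.qt (d.qt (d.qt (d.qt QT.nil))))))
    (I'.dt H.toGD (fun _ => H) p5b2_Dp2500_115_80_0 p5b2_Dm2500_115_80_0 rfl hf0 hf0
      (I'.dt H.toGD (fun _ => H) p5b2_Dp2600_100_80_0 p5b2_Dm2600_100_80_0 rfl hf0 hf0
      (I'.dt H.toGD (fun _ => H) p5b2_Dp2700_130_100_0 p5b2_Dm2700_130_100_0 rfl hf0 hf0
      (I'.dt H.toGD (fun _ => H) p5b2_Dp2800_115_120_0 p5b2_Dm2800_115_120_0 rfl hf0 hf0
      (I'.dt H.toGD (fun _ => H) p5b2_Dp2900_160_120_0 p5b2_Dm2900_160_120_0 rfl hf0 hf0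
      (d.dt H.toGD DT.nil) A12 B30) A12 B30) A12 B30) A12 B30) A12 B30)
    (I.qt O.GD (fun _ => O.HD) o5b2_Qp2500_115_80_0 o5b2_Qm2500_115_80_0 rfl
      (I.qt O.GD (fun _ => O.HD) o5b2_Qp2600_100_80_0 o5b2_Qm2600_100_80_0 rfl
      (I.qt O.GD (fun _ => O.HD) o5b2_Qp2700_130_100_0 o5b2_Qm2700_130_100_0 rfl
      (I.qt O.GD (fun _ => O.HD) o5b2_Qp2800_115_120_0 o5b2_Qm2800_115_120_0 rfl
      (I.qt O.GD (fun _ => O.HD) o5b2_Qp2900_160_120_0 o5b2_Qm2900_160_120_0 rfl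
      (I.qt O.GD (fun _ => O.HD) o5b2_Qp3000_0_0_0 o5b2_Qm3000_0_0_0 rfl QT.nil A16 B36) A16 B36) A16 B36) A16 B36) A16 B36) A16 B36)
    (by decide) (by decide) O.hys O.hxs hx'

theorem o5b2e_Ep2500_104_120_20 : o5b2e.R (cE true 104 120 20 360 99) 2534 3600 2500 2525 := by
  have h : Bx ⟨true, 2, 0, 104, 120, 20, 360, 99, 0, [⟨1, 0, 0, 1, 0, 0, 0, 0, 0, 1163⟩, ⟨0, 1, 1, 0, 0, 0, 0, 0, 1514, 0⟩, ⟨0, 0, 0, 0, 1, 0, 0, 1, 0, 576⟩, ⟨0, 0, 0, 1, 1, 0, 0, 1, 0, 797⟩, ⟨1, 0, 0, 1, 1, 0, 0, 0, 1530, 0⟩]⟩ 807 1179 240 442 2534 2924 3373 3600 2534 3600 2500 2525 := (Bx.s4 3067 o5b2e_Ep2500_104_120_20_0 (Bx.s0 993 (Bx.s2 2729 o5b2e_Ep2500_104_120_20_1 (Bx.s4 3333 o5b2e_Ep2500_104_120_20_2 (Bx.s2 2826 o5b2e_Ep2500_104_120_20_3 (Bx.s1 341 (Bx.s0 900 o5b2e_Ep2500_104_120_20_4 (Bx.s3 3486 (Bx.s2 2875 o5b2e_Ep2500_104_120_20_5 o5b2e_Ep2500_104_120_20_6)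 o5b2e_Ep2500_104_120_20_7)) o5b2e_Ep2500_104_120_20_8)))) (Bx.s2 2729 o5b2e_Ep2500_104_120_20_9 (Bx.s4 3333 o5b2e_Ep2500_104_120_20_10 (Bx.s2 2826 o5b2e_Ep2500_104_120_20_11 (Bx.s1 341 o5b2e_Ep2500_104_120_20_12 o5b2e_Ep2500_104_120_20_13))))))
  exact h

theorem pr5b2e {xs ys T ρ xs' T' : ℝ} (O : OneB xs ys T ρ) (I : o5b2e.In T ρ xs ys)
    (H : HD xs' ys T' ρ (125 / 1000) (30 / 100)) (l : LH xs' ys T' ρ (125 / 1000) (30 / 100))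
    (d : DnG xs' T' (125 / 1000) (30 / 100) ys ρ) (I' : p5b2e.In T' ρ xs' ys)
    (hx' : xs' ∈ Icc (125 / 1000) (30 / 100)) :
    Pr ys ρ xs T (16 / 100) (36 / 100) (fun m => 355 / 1000 * m) (fun _ => 0) xs' T' (125 / 1000) (30 / 100)
      (fun _ => 0) (fun _ => 0) :=
  Pr.of (tab := [⟨2500, 2600, 0, 0, 0, 0, 0⟩, ⟨2600, 2700, 0, 0, 0, 0, 0⟩, ⟨2700, 2800, 0, 0, 0, 0, 0⟩, ⟨2800, 2900, 0, 0, 0, 0, 0⟩, ⟨2900, 3000, 0, 0, 0, 0, 0⟩, ⟨3000, 5000, 0, 0, 0, 0, 0⟩])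
    (tab' := [⟨2500, 2525, 104, 120, 20, 360, 100⟩, ⟨2525, 2550, 95, 120, 0, 0, 0⟩, ⟨2550, 2600, 100, 120, 0, 0, 0⟩, ⟨2600, 2700, 95, 100, 0, 0, 0⟩, ⟨2700, 2800, 100, 100, 0, 0, 0⟩, ⟨2800, 2900, 130, 120, 0, 0, 0⟩, ⟨2900, 3000, 160, 120, 0, 0, 0⟩, ⟨3000, 5000, 0, 0, 0, 0, 0⟩])
    (O.LF I o5b2e_Wa o5b2e_Wb hf355) (l.toF hz0 hz0 (by norm_num) (by norm_num))
    (I.dt O.GD (fun _ => O.HD) o5b2e_Dp2500_0_0_0 o5b2e_Dm2500_0_0_0 rfl hf355 hf0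
      (I.dt O.GD (fun _ => O.HD) o5b2e_Dp2600_0_0_0 o5b2e_Dm2600_0_0_0 rfl hf355 hf0
      (I.dt O.GD (fun _ => O.HD) o5b2e_Dp2700_0_0_0 o5b2e_Dm2700_0_0_0 rfl hf355 hf0
      (I.dt O.GD (fun _ => O.HD) o5b2e_Dp2800_0_0_0 o5b2e_Dm2800_0_0_0 rfl hf355 hf0
      (I.dt O.GD (fun _ => O.HD) o5b2e_Dp2900_0_0_0 o5b2e_Dm2900_0_0_0 rfl hf355 hf0
      (I.dt0 O.GD (fun _ => O.HD) o5b2e_Qp3000_0_0_0 o5b2e_Qm3000_0_0_0 rfl DT.nil A16 B36) A16 B36) A16 B36) A16 B36) A16 B36) A16 B36)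
    (d.qt (d.qt (d.qt (d.qt (d.qt (d.qt QT.nil))))))
    (I'.dtg H.toGD (fun _ => H) p5b2e_Dp2500_104_120_0 p5b2e_Dm2500_104_120_20 (Or.inl rfl) (Or.inr ⟨rfl, rfl, rfl⟩) rfl hf0 hf0
      (I'.dt H.toGD (fun _ => H) p5b2e_Dp2525_95_120_0 p5b2e_Dm2525_95_120_0 rfl hf0 hf0
      (I'.dt H.toGD (fun _ => H) p5b2e_Dp2550_100_120_0 p5b2e_Dm2550_100_120_0 rfl hf0 hf0
      (I'.dt H.toGD (fun _ => H) p5b2e_Dp2600_95_100_0 p5b2e_Dm2600_95_100_0 rfl hf0 hf0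
      (I'.dt H.toGD (fun _ => H) p5b2e_Dp2700_100_100_0 p5b2e_Dm2700_100_100_0 rfl hf0 hf0
      (I'.dt H.toGD (fun _ => H) p5b2e_Dp2800_130_120_0 p5b2e_Dm2800_130_120_0 rfl hf0 hf0
      (I'.dt H.toGD (fun _ => H) p5b2e_Dp2900_160_120_0 p5b2e_Dm2900_160_120_0 rfl hf0 hf0
      (d.dt H.toGD DT.nil) A12 B30) A12 B30) A12 B30) A12 B30) A12 B30) A12 B30) A12 B30)
    (I.qe O.GD (fun _ => O.HD) o5b2e_Qp2500_104_120_0 o5b2e_Qm2500_104_120_0 o5b2e_Ep2500_104_120_20 o5b2e_Em2500_104_120_20 rfl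
      (I.qt O.GD (fun _ => O.HD) o5b2e_Qp2525_95_120_0 o5b2e_Qm2525_95_120_0 rfl
      (I.qt O.GD (fun _ => O.HD) o5b2e_Qp2550_100_120_0 o5b2e_Qm2550_100_120_0 rfl
      (I.qt O.GD (fun _ => O.HD) o5b2e_Qp2600_95_100_0 o5b2e_Qm2600_95_100_0 rfl
      (I.qt O.GD (fun _ => O.HD) o5b2e_Qp2700_100_100_0 o5b2e_Qm2700_100_100_0 rfl
      (I.qt O.GD (fun _ => O.HD) o5b2e_Qp2800_130_120_0 o5b2e_Qm2800_130_120_0 rfl
      (I.qt O.GD (fun _ => O.HD) o5b2e_Qp2900_160_120_0 o5b2e_Qm2900_160_120_0 rfl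
      (I.qt O.GD (fun _ => O.HD) o5b2e_Qp3000_0_0_0 o5b2e_Qm3000_0_0_0 rfl QT.nil A16 B36) A16 B36) A16 B36) A16 B36) A16 B36) A16 B36) A16 B36) A16 B36)
    (by decide) (by decide) O.hys O.hxs hx'

theorem pr5b2ex {xs ys T ρ xs' T' : ℝ} (O : OneB xs ys T ρ) (I : o5b2e.In T ρ xs ys)
    (Is : o5b2ex.In T ρ xs ys)
    (H : HD xs' ys T' ρ (125 / 1000) (30 / 100)) (l : LH xs' ys T' ρ (125 / 1000) (30 / 100))
    (d : DnG xs' T' (125 / 1000) (30 / 100) ys ρ) (I' : p5b2e.In T' ρ xs' ys)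
    (hx' : xs' ∈ Icc (125 / 1000) (30 / 100)) :
    Pr ys ρ xs T (16 / 100) (36 / 100) (fun _ => 0) (fun _ => 0) xs' T' (125 / 1000) (30 / 100)
      (fun _ => 0) (fun _ => 0) :=
  Pr.of (tab := [⟨2500, 2600, 0, 0, 0, 0, 0⟩, ⟨2600, 2700, 0, 0, 0, 0, 0⟩, ⟨2700, 2800, 0, 0, 0, 0, 0⟩, ⟨2800, 2900, 0, 0, 0, 0, 0⟩, ⟨2900, 3000, 0, 0, 0, 0, 0⟩, ⟨3000, 5000, 0, 0, 0, 0, 0⟩])
    (tab' := [⟨2500, 2525, 104, 120, 20, 360, 100⟩, ⟨2525, 2550, 95, 120, 0, 0, 0⟩, ⟨2550, 2600, 100, 120, 0, 0, 0⟩, ⟨2600, 2700, 95, 100, 0, 0, 0⟩, ⟨2700, 2800, 100, 100, 0, 0, 0⟩, ⟨2800, 2900, 130, 120, 0, 0, 0⟩, ⟨2900, 3000, 160, 120, 0, 0, 0⟩, ⟨3000, 5000, 0, 0, 0, 0, 0⟩])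
    (O.LF Is o5b2ex_Wa o5b2ex_Wb hf0) (l.toF hz0 hz0 (by norm_num) (by norm_num))
    (Is.dtg O.GD (fun _ => O.HD) o5b2ex_Dp2500_0_0_0 o5b2ex_Dm2500_0_0_0 (Or.inl rfl) (Or.inl rfl) rfl hf0 hf0
      (Is.dtg O.GD (fun _ => O.HD) o5b2ex_Dp2600_0_0_0 o5b2ex_Dm2600_0_0_0 (Or.inl rfl) (Or.inl rfl) rfl hf0 hf0
      (Is.dtg O.GD (fun _ => O.HD) o5b2ex_Dp2700_0_0_0 o5b2ex_Dm2700_0_0_0 (Or.inl rfl) (Or.inl rfl) rfl hf0 hf0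
      (Is.dtg O.GD (fun _ => O.HD) o5b2ex_Dp2800_0_0_0 o5b2ex_Dm2800_0_0_0 (Or.inl rfl) (Or.inl rfl) rfl hf0 hf0
      (Is.dtg O.GD (fun _ => O.HD) o5b2ex_Dp2900_0_0_0 o5b2ex_Dm2900_0_0_0 (Or.inl rfl) (Or.inl rfl) rfl hf0 hf0
      (I.dt0 O.GD (fun _ => O.HD) o5b2e_Qp3000_0_0_0 o5b2e_Qm3000_0_0_0 rfl DT.nil A16 B36) A16 B36) A16 B36) A16 B36) A16 B36) A16 B36)
    (d.qt (d.qt (d.qt (d.qt (d.qt (d.qt QT.nil))))))
    (I'.dtg H.toGD (fun _ => H) p5b2e_Dp2500_104_120_0 p5b2e_Dm2500_104_120_20 (Or.inl rfl) (Or.inr ⟨rfl, rfl, rfl⟩) rfl hf0 hf0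
      (I'.dt H.toGD (fun _ => H) p5b2e_Dp2525_95_120_0 p5b2e_Dm2525_95_120_0 rfl hf0 hf0
      (I'.dt H.toGD (fun _ => H) p5b2e_Dp2550_100_120_0 p5b2e_Dm2550_100_120_0 rfl hf0 hf0
      (I'.dt H.toGD (fun _ => H) p5b2e_Dp2600_95_100_0 p5b2e_Dm2600_95_100_0 rfl hf0 hf0
      (I'.dt H.toGD (fun _ => H) p5b2e_Dp2700_100_100_0 p5b2e_Dm2700_100_100_0 rfl hf0 hf0
      (I'.dt H.toGD (fun _ => H) p5b2e_Dp2800_130_120_0 p5b2e_Dm2800_130_120_0 rfl hf0 hf0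
      (I'.dt H.toGD (fun _ => H) p5b2e_Dp2900_160_120_0 p5b2e_Dm2900_160_120_0 rfl hf0 hf0
      (d.dt H.toGD DT.nil) A12 B30) A12 B30) A12 B30) A12 B30) A12 B30) A12 B30) A12 B30)
    (I.qe O.GD (fun _ => O.HD) o5b2e_Qp2500_104_120_0 o5b2e_Qm2500_104_120_0 o5b2e_Ep2500_104_120_20 o5b2e_Em2500_104_120_20 rfl
      (I.qt O.GD (fun _ => O.HD) o5b2e_Qp2525_95_120_0 o5b2e_Qm2525_95_120_0 rfl
      (I.qt O.GD (fun _ => O.HD) o5b2e_Qp2550_100_120_0 o5b2e_Qm2550_100_120_0 rfl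
      (I.qt O.GD (fun _ => O.HD) o5b2e_Qp2600_95_100_0 o5b2e_Qm2600_95_100_0 rfl
      (I.qt O.GD (fun _ => O.HD) o5b2e_Qp2700_100_100_0 o5b2e_Qm2700_100_100_0 rfl
      (I.qt O.GD (fun _ => O.HD) o5b2e_Qp2800_130_120_0 o5b2e_Qm2800_130_120_0 rfl
      (I.qt O.GD (fun _ => O.HD) o5b2e_Qp2900_160_120_0 o5b2e_Qm2900_160_120_0 rfl
      (I.qt O.GD (fun _ => O.HD) o5b2e_Qp3000_0_0_0 o5b2e_Qm3000_0_0_0 rfl QT.nil A16 B36) A16 B36) A16 B36) A16 B36) A16 B36) A16 B36) A16 B36) A16 B36)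
    (by decide) (by decide) O.hys O.hxs hx'

theorem pr5b3 {xs ys T ρ xs' T' : ℝ} (O : OneB xs ys T ρ) (I : o5b3.In T ρ xs ys)
    (H : HD xs' ys T' ρ (12 / 100) (30 / 100)) (l : LH xs' ys T' ρ (12 / 100) (30 / 100))
    (d : DnG xs' T' (12 / 100) (30 / 100) ys ρ) (I' : p5b3.In T' ρ xs' ys)
    (hx' : xs' ∈ Icc (12 / 100) (30 / 100)) :
    Pr ys ρ xs T (16 / 100) (36 / 100) (fun m => 355 / 1000 * m) (fun _ => 0) xs' T' (12 / 100) (30 / 100)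
      (fun _ => 0) (fun _ => 0) :=
  Pr.of (tab := [⟨2500, 2600, 0, 0, 0, 0, 0⟩, ⟨2600, 2700, 0, 0, 0, 0, 0⟩, ⟨2700, 2800, 0, 0, 0, 0, 0⟩, ⟨2800, 2900, 0, 0, 0, 0, 0⟩, ⟨2900, 3000, 0, 0, 0, 0, 0⟩, ⟨3000, 5000, 0, 0, 0, 0, 0⟩])
    (tab' := [⟨2500, 2600, 90, 50, 0, 0, 0⟩, ⟨2600, 2700, 130, 80, 0, 0, 0⟩, ⟨2700, 2800, 90, 80, 0, 0, 0⟩, ⟨2800, 2900, 130, 100, 0, 0, 0⟩, ⟨2900, 3000, 160, 120, 0, 0, 0⟩, ⟨3000, 5000, 0, 0, 0, 0, 0⟩])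
    (O.LF I o5b3_Wa o5b3_Wb hf355) (l.toF hz0 hz0 (by norm_num) (by norm_num))
    (I.dt O.GD (fun _ => O.HD) o5b3_Dp2500_0_0_0 o5b3_Dm2500_0_0_0 rfl hf355 hf0
      (I.dt O.GD (fun _ => O.HD) o5b3_Dp2600_0_0_0 o5b3_Dm2600_0_0_0 rfl hf355 hf0
      (I.dt O.GD (fun _ => O.HD) o5b3_Dp2700_0_0_0 o5b3_Dm2700_0_0_0 rfl hf355 hf0
      (I.dt O.GD (fun _ => O.HD) o5b3_Dp2800_0_0_0 o5b3_Dm2800_0_0_0 rfl hf355 hf0
      (I.dt O.GD (fun _ => O.HD) o5b3_Dp2900_0_0_0 o5b3_Dm2900_0_0_0 rfl hf355 hf0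
      (I.dt0 O.GD (fun _ => O.HD) o5b3_Qp3000_0_0_0 o5b3_Qm3000_0_0_0 rfl DT.nil A16 B36) A16 B36) A16 B36) A16 B36) A16 B36) A16 B36)
    (d.qt (d.qt (d.qt (d.qt (d.qt (d.qt QT.nil))))))
    (I'.dt H.toGD (fun _ => H) p5b3_Dp2500_90_50_0 p5b3_Dm2500_90_50_0 rfl hf0 hf0
      (I'.dt H.toGD (fun _ => H) p5b3_Dp2600_130_80_0 p5b3_Dm2600_130_80_0 rfl hf0 hf0
      (I'.dt H.toGD (fun _ => H) p5b3_Dp2700_90_80_0 p5b3_Dm2700_90_80_0 rfl hf0 hf0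
      (I'.dt H.toGD (fun _ => H) p5b3_Dp2800_130_100_0 p5b3_Dm2800_130_100_0 rfl hf0 hf0
      (I'.dt H.toGD (fun _ => H) p5b3_Dp2900_160_120_0 p5b3_Dm2900_160_120_0 rfl hf0 hf0
      (d.dt H.toGD DT.nil) A120 B30) A120 B30) A120 B30) A120 B30) A120 B30)
    (I.qt O.GD (fun _ => O.HD) o5b3_Qp2500_90_50_0 o5b3_Qm2500_90_50_0 rfl
      (I.qt O.GD (fun _ => O.HD) o5b3_Qp2600_130_80_0 o5b3_Qm2600_130_80_0 rfl
      (I.qt O.GD (fun _ => O.HD) o5b3_Qp2700_90_80_0 o5b3_Qm2700_90_80_0 rfl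
      (I.qt O.GD (fun _ => O.HD) o5b3_Qp2800_130_100_0 o5b3_Qm2800_130_100_0 rfl
      (I.qt O.GD (fun _ => O.HD) o5b3_Qp2900_160_120_0 o5b3_Qm2900_160_120_0 rfl
      (I.qt O.GD (fun _ => O.HD) o5b3_Qp3000_0_0_0 o5b3_Qm3000_0_0_0 rfl QT.nil A16 B36) A16 B36) A16 B36) A16 B36) A16 B36) A16 B36)
    (by decide) (by decide) O.hys O.hxs hx'

theorem pr5b3e {xs ys T ρ xs' T' : ℝ} (O : OneB xs ys T ρ) (I : o5b3e.In T ρ xs ys)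
    (H : HD xs' ys T' ρ (10 / 100) (26 / 100)) (l : LH xs' ys T' ρ (10 / 100) (26 / 100))
    (d : DnG xs' T' (10 / 100) (26 / 100) ys ρ) (I' : p5b3e.In T' ρ xs' ys)
    (hx' : xs' ∈ Icc (10 / 100) (26 / 100)) :
    Pr ys ρ xs T (16 / 100) (36 / 100) (fun m => 355 / 1000 * m) (fun _ => 0) xs' T' (10 / 100) (26 / 100)
      (fun _ => 0) (fun _ => 0) :=
  Pr.of (tab := [⟨2500, 2600, 0, 0, 0, 0, 0⟩, ⟨2600, 2700, 0, 0, 0, 0, 0⟩, ⟨2700, 2800, 0, 0, 0, 0, 0⟩, ⟨2800, 2900, 0, 0, 0, 0, 0⟩, ⟨2900, 3000, 0, 0, 0, 0, 0⟩, ⟨3000, 5000, 0, 0, 0, 0, 0⟩])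
    (tab' := [⟨2500, 2600, 130, 80, 0, 0, 0⟩, ⟨2600, 2700, 130, 80, 0, 0, 0⟩, ⟨2700, 2800, 160, 100, 0, 0, 0⟩, ⟨2800, 2900, 160, 100, 0, 0, 0⟩, ⟨2900, 3000, 160, 120, 0, 0, 0⟩, ⟨3000, 5000, 0, 0, 0, 0, 0⟩])
    (O.LF I o5b3e_Wa o5b3e_Wb hf355) (l.toF hz0 hz0 (by norm_num) (by norm_num))
    (I.dt O.GD (fun _ => O.HD) o5b3e_Dp2500_0_0_0 o5b3e_Dm2500_0_0_0 rfl hf355 hf0
      (I.dt O.GD (fun _ => O.HD) o5b3e_Dp2600_0_0_0 o5b3e_Dm2600_0_0_0 rfl hf355 hf0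
      (I.dt O.GD (fun _ => O.HD) o5b3e_Dp2700_0_0_0 o5b3e_Dm2700_0_0_0 rfl hf355 hf0
      (I.dt O.GD (fun _ => O.HD) o5b3e_Dp2800_0_0_0 o5b3e_Dm2800_0_0_0 rfl hf355 hf0
      (I.dt O.GD (fun _ => O.HD) o5b3e_Dp2900_0_0_0 o5b3e_Dm2900_0_0_0 rfl hf355 hf0
      (I.dt0 O.GD (fun _ => O.HD) o5b3e_Qp3000_0_0_0 o5b3e_Qm3000_0_0_0 rfl DT.nil A16 B36) A16 B36) A16 B36) A16 B36) A16 B36) A16 B36)
    (d.qt (d.qt (d.qt (d.qt (d.qt (d.qt QT.nil))))))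
    (I'.dt H.toGD (fun _ => H) p5b3e_Dp2500_130_80_0 p5b3e_Dm2500_130_80_0 rfl hf0 hf0
      (I'.dt H.toGD (fun _ => H) p5b3e_Dp2600_130_80_0 p5b3e_Dm2600_130_80_0 rfl hf0 hf0
      (I'.dt H.toGD (fun _ => H) p5b3e_Dp2700_160_100_0 p5b3e_Dm2700_160_100_0 rfl hf0 hf0
      (I'.dt H.toGD (fun _ => H) p5b3e_Dp2800_160_100_0 p5b3e_Dm2800_160_100_0 rfl hf0 hf0
      (I'.dt H.toGD (fun _ => H) p5b3e_Dp2900_160_120_0 p5b3e_Dm2900_160_120_0 rfl hf0 hf0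
      (d.dt H.toGD DT.nil) A10 B26) A10 B26) A10 B26) A10 B26) A10 B26)
    (I.qt O.GD (fun _ => O.HD) o5b3e_Qp2500_130_80_0 o5b3e_Qm2500_130_80_0 rfl
      (I.qt O.GD (fun _ => O.HD) o5b3e_Qp2600_130_80_0 o5b3e_Qm2600_130_80_0 rfl
      (I.qt O.GD (fun _ => O.HD) o5b3e_Qp2700_160_100_0 o5b3e_Qm2700_160_100_0 rfl
      (I.qt O.GD (fun _ => O.HD) o5b3e_Qp2800_160_100_0 o5b3e_Qm2800_160_100_0 rfl
      (I.qt O.GD (fun _ => O.HD) o5b3e_Qp2900_160_120_0 o5b3e_Qm2900_160_120_0 rfl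
      (I.qt O.GD (fun _ => O.HD) o5b3e_Qp3000_0_0_0 o5b3e_Qm3000_0_0_0 rfl QT.nil A16 B36) A16 B36) A16 B36) A16 B36) A16 B36) A16 B36)
    (by decide) (by decide) O.hys O.hxs hx'

theorem pr5b3ex {xs ys T ρ xs' T' : ℝ} (O : OneB xs ys T ρ) (I : o5b3e.In T ρ xs ys)
    (Is : o5b3ex.In T ρ xs ys)
    (H : HD xs' ys T' ρ (10 / 100) (26 / 100)) (l : LH xs' ys T' ρ (10 / 100) (26 / 100))
    (d : DnG xs' T' (10 / 100) (26 / 100) ys ρ) (I' : p5b3e.In T' ρ xs' ys)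
    (hx' : xs' ∈ Icc (10 / 100) (26 / 100)) :
    Pr ys ρ xs T (16 / 100) (36 / 100) (fun _ => 0) (fun _ => 0) xs' T' (10 / 100) (26 / 100)
      (fun _ => 0) (fun _ => 0) :=
  Pr.of (tab := [⟨2500, 2600, 0, 0, 0, 0, 0⟩, ⟨2600, 2700, 0, 0, 0, 0, 0⟩, ⟨2700, 2800, 0, 0, 0, 0, 0⟩, ⟨2800, 2900, 0, 0, 0, 0, 0⟩, ⟨2900, 3000, 0, 0, 0, 0, 0⟩, ⟨3000, 5000, 0, 0, 0, 0, 0⟩])
    (tab' := [⟨2500, 2600, 130, 80, 0, 0, 0⟩, ⟨2600, 2700, 130, 80, 0, 0, 0⟩, ⟨2700, 2800, 160, 100, 0, 0, 0⟩, ⟨2800, 2900, 160, 100, 0, 0, 0⟩, ⟨2900, 3000, 160, 120, 0, 0, 0⟩, ⟨3000, 5000, 0, 0, 0, 0, 0⟩])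
    (O.LF Is o5b3ex_Wa o5b3ex_Wb hf0) (l.toF hz0 hz0 (by norm_num) (by norm_num))
    (Is.dtg O.GD (fun _ => O.HD) o5b3ex_Dp2500_0_0_0 o5b3ex_Dm2500_0_0_0 (Or.inl rfl) (Or.inl rfl) rfl hf0 hf0
      (Is.dtg O.GD (fun _ => O.HD) o5b3ex_Dp2600_0_0_0 o5b3ex_Dm2600_0_0_0 (Or.inl rfl) (Or.inl rfl) rfl hf0 hf0
      (Is.dtg O.GD (fun _ => O.HD) o5b3ex_Dp2700_0_0_0 o5b3ex_Dm2700_0_0_0 (Or.inl rfl) (Or.inl rfl) rfl hf0 hf0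
      (Is.dtg O.GD (fun _ => O.HD) o5b3ex_Dp2800_0_0_0 o5b3ex_Dm2800_0_0_0 (Or.inl rfl) (Or.inl rfl) rfl hf0 hf0
      (Is.dtg O.GD (fun _ => O.HD) o5b3ex_Dp2900_0_0_0 o5b3ex_Dm2900_0_0_0 (Or.inl rfl) (Or.inl rfl) rfl hf0 hf0
      (I.dt0 O.GD (fun _ => O.HD) o5b3e_Qp3000_0_0_0 o5b3e_Qm3000_0_0_0 rfl DT.nil A16 B36) A16 B36) A16 B36) A16 B36) A16 B36) A16 B36)
    (d.qt (d.qt (d.qt (d.qt (d.qt (d.qt QT.nil))))))
    (I'.dt H.toGD (fun _ => H) p5b3e_Dp2500_130_80_0 p5b3e_Dm2500_130_80_0 rfl hf0 hf0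
      (I'.dt H.toGD (fun _ => H) p5b3e_Dp2600_130_80_0 p5b3e_Dm2600_130_80_0 rfl hf0 hf0
      (I'.dt H.toGD (fun _ => H) p5b3e_Dp2700_160_100_0 p5b3e_Dm2700_160_100_0 rfl hf0 hf0
      (I'.dt H.toGD (fun _ => H) p5b3e_Dp2800_160_100_0 p5b3e_Dm2800_160_100_0 rfl hf0 hf0
      (I'.dt H.toGD (fun _ => H) p5b3e_Dp2900_160_120_0 p5b3e_Dm2900_160_120_0 rfl hf0 hf0
      (d.dt H.toGD DT.nil) A10 B26) A10 B26) A10 B26) A10 B26) A10 B26)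
    (I.qt O.GD (fun _ => O.HD) o5b3e_Qp2500_130_80_0 o5b3e_Qm2500_130_80_0 rfl
      (I.qt O.GD (fun _ => O.HD) o5b3e_Qp2600_130_80_0 o5b3e_Qm2600_130_80_0 rfl
      (I.qt O.GD (fun _ => O.HD) o5b3e_Qp2700_160_100_0 o5b3e_Qm2700_160_100_0 rfl
      (I.qt O.GD (fun _ => O.HD) o5b3e_Qp2800_160_100_0 o5b3e_Qm2800_160_100_0 rfl
      (I.qt O.GD (fun _ => O.HD) o5b3e_Qp2900_160_120_0 o5b3e_Qm2900_160_120_0 rfl
      (I.qt O.GD (fun _ => O.HD) o5b3e_Qp3000_0_0_0 o5b3e_Qm3000_0_0_0 rfl QT.nil A16 B36) A16 B36) A16 B36) A16 B36) A16 B36) A16 B36)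
    (by decide) (by decide) O.hys O.hxs hx'

theorem pr5bZ {xs ys T ρ xs' T' : ℝ} (O : OneB xs ys T ρ) (I : o5bZ.In T ρ xs ys)
    (H : HD xs' ys T' ρ (10 / 100) (27 / 100)) (l : LH xs' ys T' ρ (10 / 100) (27 / 100))
    (d : DnG xs' T' (10 / 100) (27 / 100) ys ρ) (I' : p5bZ.In T' ρ xs' ys)
    (hx' : xs' ∈ Icc (10 / 100) (27 / 100)) (K : Kap xs' ys T' ρ (27 / 100)) (h17 : 17 / 100 ≤ xs')
    :
    Pr ys ρ xs T (16 / 100) (36 / 100) (fun m => 355 / 1000 * m) (fun _ => 0) xs' T' (10 / 100) (27 / 100)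
      (fun _ => 0) (fun _ => 0) :=
  Pr.of (tab := [⟨2500, 2600, 0, 0, 0, 0, 0⟩, ⟨2600, 2700, 0, 0, 0, 0, 0⟩, ⟨2700, 2800, 0, 0, 0, 0, 0⟩, ⟨2800, 2900, 0, 0, 0, 0, 0⟩, ⟨2900, 3000, 0, 0, 0, 0, 0⟩, ⟨3000, 5000, 0, 0, 0, 0, 0⟩])
    (tab' := [⟨2500, 2600, 115, 65, 0, 0, 0⟩, ⟨2600, 2700, 115, 80, 0, 0, 0⟩, ⟨2700, 2800, 115, 80, 0, 0, 0⟩, ⟨2800, 2900, 115, 100, 0, 0, 0⟩, ⟨2900, 3000, 100, 100, 0, 0, 0⟩, ⟨3000, 5000, 0, 0, 0, 0, 0⟩])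
    (O.LF I o5bZ_Wa o5bZ_Wb hf355) (l.toF hz0 hz0 (by norm_num) (by norm_num))
    (I.dt O.GD (fun _ => O.HD) o5bZ_Dp2500_0_0_0 o5bZ_Dm2500_0_0_0 rfl hf355 hf0
      (I.dt O.GD (fun _ => O.HD) o5bZ_Dp2600_0_0_0 o5bZ_Dm2600_0_0_0 rfl hf355 hf0
      (I.dt O.GD (fun _ => O.HD) o5bZ_Dp2700_0_0_0 o5bZ_Dm2700_0_0_0 rfl hf355 hf0
      (I.dt O.GD (fun _ => O.HD) o5bZ_Dp2800_0_0_0 o5bZ_Dm2800_0_0_0 rfl hf355 hf0
      (I.dt O.GD (fun _ => O.HD) o5bZ_Dp2900_0_0_0 o5bZ_Dm2900_0_0_0 rfl hf355 hf0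
      (I.dt0 O.GD (fun _ => O.HD) o5bZ_Qp3000_0_0_0 o5bZ_Qm3000_0_0_0 rfl DT.nil A16 B36) A16 B36) A16 B36) A16 B36) A16 B36) A16 B36)
    (d.qt (d.qt (d.qt (d.qt (d.qt (d.qt QT.nil))))))
    (I'.dk H.toGD (fun _ => H) K le_rfl h17 (by decide) p5bZ_Dm2500_115_65_0 rfl
      (I'.dk H.toGD (fun _ => H) K le_rfl h17 (by decide) p5bZ_Dm2600_115_80_0 rfl
      (I'.dk H.toGD (fun _ => H) K le_rfl h17 (by decide) p5bZ_Dm2700_115_80_0 rfl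
      (I'.dk H.toGD (fun _ => H) K le_rfl h17 (by decide) p5bZ_Dm2800_115_100_0 rfl
      (I'.dk H.toGD (fun _ => H) K le_rfl h17 (by decide) p5bZ_Dm2900_100_100_0 rfl
      (d.dt H.toGD DT.nil) A10) A10) A10) A10) A10)
    (I.qt O.GD (fun _ => O.HD) o5bZ_Qp2500_115_65_0 o5bZ_Qm2500_115_65_0 rfl
      (I.qt O.GD (fun _ => O.HD) o5bZ_Qp2600_115_80_0 o5bZ_Qm2600_115_80_0 rfl
      (I.qt O.GD (fun _ => O.HD) o5bZ_Qp2700_115_80_0 o5bZ_Qm2700_115_80_0 rfl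
      (I.qt O.GD (fun _ => O.HD) o5bZ_Qp2800_115_100_0 o5bZ_Qm2800_115_100_0 rfl
      (I.qt O.GD (fun _ => O.HD) o5bZ_Qp2900_100_100_0 o5bZ_Qm2900_100_100_0 rfl
      (I.qt O.GD (fun _ => O.HD) o5bZ_Qp3000_0_0_0 o5bZ_Qm3000_0_0_0 rfl QT.nil A16 B36) A16 B36) A16 B36) A16 B36) A16 B36) A16 B36)
    (by decide) (by decide) O.hys O.hxs hx'

theorem pr5bZs {xs ys T ρ xs' T' : ℝ} (O : OneB xs ys T ρ) (I : o5bZs.In T ρ xs ys)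
    (H : HD xs' ys T' ρ (10 / 100) (27 / 100)) (l : LH xs' ys T' ρ (10 / 100) (27 / 100))
    (d : DnG xs' T' (10 / 100) (27 / 100) ys ρ) (I' : p5bZs.In T' ρ xs' ys)
    (hx' : xs' ∈ Icc (10 / 100) (27 / 100)) (K : Kap xs' ys T' ρ (27 / 100)) (h17 : 17 / 100 ≤ xs')
    :
    Pr ys ρ xs T (16 / 100) (36 / 100) (fun m => 355 / 1000 * m) (fun _ => 0) xs' T' (10 / 100) (27 / 100)
      (fun _ => 0) (fun _ => 0) :=
  Pr.of (tab := [⟨2500, 2600, 0, 0, 0, 0, 0⟩, ⟨2600, 2700, 0, 0, 0, 0, 0⟩, ⟨2700, 2800, 0, 0, 0, 0, 0⟩, ⟨2800, 2900, 0, 0, 0, 0, 0⟩, ⟨2900, 3000, 0, 0, 0, 0, 0⟩, ⟨3000, 5000, 0, 0, 0, 0, 0⟩])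
    (tab' := [⟨2500, 2600, 100, 50, 0, 0, 0⟩, ⟨2600, 2700, 100, 65, 0, 0, 0⟩, ⟨2700, 2800, 90, 65, 0, 0, 0⟩, ⟨2800, 2900, 90, 80, 0, 0, 0⟩, ⟨2900, 3000, 115, 100, 0, 0, 0⟩, ⟨3000, 5000, 0, 0, 0, 0, 0⟩])
    (O.LF I o5bZs_Wa o5bZs_Wb hf355) (l.toF hz0 hz0 (by norm_num) (by norm_num))
    (I.dt O.GD (fun _ => O.HD) o5bZs_Dp2500_0_0_0 o5bZs_Dm2500_0_0_0 rfl hf355 hf0
      (I.dt O.GD (fun _ => O.HD) o5bZs_Dp2600_0_0_0 o5bZs_Dm2600_0_0_0 rfl hf355 hf0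
      (I.dt O.GD (fun _ => O.HD) o5bZs_Dp2700_0_0_0 o5bZs_Dm2700_0_0_0 rfl hf355 hf0
      (I.dt O.GD (fun _ => O.HD) o5bZs_Dp2800_0_0_0 o5bZs_Dm2800_0_0_0 rfl hf355 hf0
      (I.dt O.GD (fun _ => O.HD) o5bZs_Dp2900_0_0_0 o5bZs_Dm2900_0_0_0 rfl hf355 hf0
      (I.dt0 O.GD (fun _ => O.HD) o5bZs_Qp3000_0_0_0 o5bZs_Qm3000_0_0_0 rfl DT.nil A16 B36) A16 B36) A16 B36) A16 B36) A16 B36) A16 B36)
    (d.qt (d.qt (d.qt (d.qt (d.qt (d.qt QT.nil))))))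
    (I'.dk H.toGD (fun _ => H) K le_rfl h17 (by decide) p5bZs_Dm2500_100_50_0 rfl
      (I'.dk H.toGD (fun _ => H) K le_rfl h17 (by decide) p5bZs_Dm2600_100_65_0 rfl
      (I'.dk H.toGD (fun _ => H) K le_rfl h17 (by decide) p5bZs_Dm2700_90_65_0 rfl
      (I'.dk H.toGD (fun _ => H) K le_rfl h17 (by decide) p5bZs_Dm2800_90_80_0 rfl
      (I'.dk H.toGD (fun _ => H) K le_rfl h17 (by decide) p5bZs_Dm2900_115_100_0 rfl
      (d.dt H.toGD DT.nil) A10) A10) A10) A10) A10)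
    (I.qt O.GD (fun _ => O.HD) o5bZs_Qp2500_100_50_0 o5bZs_Qm2500_100_50_0 rfl
      (I.qt O.GD (fun _ => O.HD) o5bZs_Qp2600_100_65_0 o5bZs_Qm2600_100_65_0 rfl
      (I.qt O.GD (fun _ => O.HD) o5bZs_Qp2700_90_65_0 o5bZs_Qm2700_90_65_0 rfl
      (I.qt O.GD (fun _ => O.HD) o5bZs_Qp2800_90_80_0 o5bZs_Qm2800_90_80_0 rfl
      (I.qt O.GD (fun _ => O.HD) o5bZs_Qp2900_115_100_0 o5bZs_Qm2900_115_100_0 rfl
      (I.qt O.GD (fun _ => O.HD) o5bZs_Qp3000_0_0_0 o5bZs_Qm3000_0_0_0 rfl QT.nil A16 B36) A16 B36) A16 B36) A16 B36) A16 B36) A16 B36)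
    (by decide) (by decide) O.hys O.hxs hx'

end RC

end Pool.Agent.Work.MP_b30479_gtS.G2

end

section

/-!
# Rings on the level part: pairs of hinges
-/

namespace Pool.Agent.Work.MP_b30479_gtS.G2

open Real Set

namespace RC

open R6

theorem pr5c2 {xs ys T ρ xs' T' : ℝ} (O : OneB xs ys T ρ) (I : o5c2.In T ρ xs ys)
    (H : HD xs' ys T' ρ (125 / 1000) (30 / 100)) (l : LH xs' ys T' ρ (125 / 1000) (30 / 100))
    (d : DnG xs' T' (125 / 1000) (30 / 100) ys ρ) (I' : p5c2.In T' ρ xs' ys)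
    (hx' : xs' ∈ Icc (125 / 1000) (30 / 100)) :
    Pr ys ρ xs T (16 / 100) (36 / 100) (fun _ => 0) (fun _ => 0) xs' T' (125 / 1000) (30 / 100)
      (fun _ => 0) (fun _ => 0) :=
  Pr.of (tab := [⟨2500, 2600, 0, 0, 0, 0, 0⟩, ⟨2600, 2700, 0, 0, 0, 0, 0⟩, ⟨2700, 5000, 0, 0, 0, 0, 0⟩])
    (tab' := [⟨2500, 2600, 160, 220, 0, 0, 0⟩, ⟨2600, 2700, 130, 220, 0, 0, 0⟩, ⟨2700, 5000, 0, 0, 0, 0, 0⟩])
    (O.LF I o5c2_Wa o5c2_Wb hf0) (l.toF hz0 hz0 (by norm_num) (by norm_num))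
    (I.dt O.GD (fun _ => O.HD) o5c2_Dp2500_0_0_0 o5c2_Dm2500_0_0_0 rfl hf0 hf0
      (I.dt O.GD (fun _ => O.HD) o5c2_Dp2600_0_0_0 o5c2_Dm2600_0_0_0 rfl hf0 hf0
      (I.dt0 O.GD (fun _ => O.HD) o5c2_Qp2700_0_0_0 o5c2_Qm2700_0_0_0 rfl DT.nil A16 B36) A16 B36) A16 B36)
    (d.qt (d.qt (d.qt QT.nil)))
    (I'.dt H.toGD (fun _ => H) p5c2_Dp2500_160_220_0 p5c2_Dm2500_160_220_0 rfl hf0 hf0
      (I'.dt H.toGD (fun _ => H) p5c2_Dp2600_130_220_0 p5c2_Dm2600_130_220_0 rfl hf0 hf0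
      (d.dt H.toGD DT.nil) A12 B30) A12 B30)
    (I.qt O.GD (fun _ => O.HD) o5c2_Qp2500_160_220_0 o5c2_Qm2500_160_220_0 rfl
      (I.qt O.GD (fun _ => O.HD) o5c2_Qp2600_130_220_0 o5c2_Qm2600_130_220_0 rfl
      (I.qt O.GD (fun _ => O.HD) o5c2_Qp2700_0_0_0 o5c2_Qm2700_0_0_0 rfl QT.nil A16 B36) A16 B36) A16 B36)
    (by decide) (by decide) O.hys O.hxs hx'

theorem pr5c2e {xs ys T ρ xs' T' : ℝ} (O : OneB xs ys T ρ) (I : o5c2e.In T ρ xs ys)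
    (H : HD xs' ys T' ρ (125 / 1000) (30 / 100)) (l : LH xs' ys T' ρ (125 / 1000) (30 / 100))
    (d : DnG xs' T' (125 / 1000) (30 / 100) ys ρ) (I' : p5c2e.In T' ρ xs' ys)
    (hx' : xs' ∈ Icc (125 / 1000) (30 / 100)) :
    Pr ys ρ xs T (16 / 100) (36 / 100) (fun _ => 0) (fun _ => 0) xs' T' (125 / 1000) (30 / 100)
      (fun _ => 0) (fun _ => 0) :=
  Pr.of (tab := [⟨2500, 2600, 0, 0, 0, 0, 0⟩, ⟨2600, 5000, 0, 0, 0, 0, 0⟩])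
    (tab' := [⟨2500, 2600, 100, 220, 0, 0, 0⟩, ⟨2600, 5000, 0, 0, 0, 0, 0⟩])
    (O.LF I o5c2e_Wa o5c2e_Wb hf0) (l.toF hz0 hz0 (by norm_num) (by norm_num))
    (I.dt O.GD (fun _ => O.HD) o5c2e_Dp2500_0_0_0 o5c2e_Dm2500_0_0_0 rfl hf0 hf0
      (I.dt0 O.GD (fun _ => O.HD) o5c2e_Qp2600_0_0_0 o5c2e_Qm2600_0_0_0 rfl DT.nil A16 B36) A16 B36)
    (d.qt (d.qt QT.nil))
    (I'.dt H.toGD (fun _ => H) p5c2e_Dp2500_100_220_0 p5c2e_Dm2500_100_220_0 rfl hf0 hf0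
      (d.dt H.toGD DT.nil) A12 B30)
    (I.qt O.GD (fun _ => O.HD) o5c2e_Qp2500_100_220_0 o5c2e_Qm2500_100_220_0 rfl
      (I.qt O.GD (fun _ => O.HD) o5c2e_Qp2600_0_0_0 o5c2e_Qm2600_0_0_0 rfl QT.nil A16 B36) A16 B36)
    (by decide) (by decide) O.hys O.hxs hx'

theorem pr5c3 {xs ys T ρ xs' T' : ℝ} (O : OneB xs ys T ρ) (I : o5c3.In T ρ xs ys)
    (H : HD xs' ys T' ρ (12 / 100) (30 / 100)) (l : LH xs' ys T' ρ (12 / 100) (30 / 100))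
    (d : DnG xs' T' (12 / 100) (30 / 100) ys ρ) (I' : p5c3.In T' ρ xs' ys)
    (hx' : xs' ∈ Icc (12 / 100) (30 / 100)) :
    Pr ys ρ xs T (16 / 100) (36 / 100) (fun _ => 0) (fun _ => 0) xs' T' (12 / 100) (30 / 100)
      (fun _ => 0) (fun _ => 0) :=
  Pr.of (tab := [⟨2500, 2600, 0, 0, 0, 0, 0⟩, ⟨2600, 2700, 0, 0, 0, 0, 0⟩, ⟨2700, 5000, 0, 0, 0, 0, 0⟩])
    (tab' := [⟨2500, 2600, 130, 180, 0, 0, 0⟩, ⟨2600, 2700, 115, 220, 0, 0, 0⟩, ⟨2700, 5000, 0, 0, 0, 0, 0⟩])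
    (O.LF I o5c3_Wa o5c3_Wb hf0) (l.toF hz0 hz0 (by norm_num) (by norm_num))
    (I.dt O.GD (fun _ => O.HD) o5c3_Dp2500_0_0_0 o5c3_Dm2500_0_0_0 rfl hf0 hf0
      (I.dt O.GD (fun _ => O.HD) o5c3_Dp2600_0_0_0 o5c3_Dm2600_0_0_0 rfl hf0 hf0
      (I.dt0 O.GD (fun _ => O.HD) o5c3_Qp2700_0_0_0 o5c3_Qm2700_0_0_0 rfl DT.nil A16 B36) A16 B36) A16 B36)
    (d.qt (d.qt (d.qt QT.nil)))
    (I'.dt H.toGD (fun _ => H) p5c3_Dp2500_130_180_0 p5c3_Dm2500_130_180_0 rfl hf0 hf0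
      (I'.dt H.toGD (fun _ => H) p5c3_Dp2600_115_220_0 p5c3_Dm2600_115_220_0 rfl hf0 hf0
      (d.dt H.toGD DT.nil) A120 B30) A120 B30)
    (I.qt O.GD (fun _ => O.HD) o5c3_Qp2500_130_180_0 o5c3_Qm2500_130_180_0 rfl
      (I.qt O.GD (fun _ => O.HD) o5c3_Qp2600_115_220_0 o5c3_Qm2600_115_220_0 rfl
      (I.qt O.GD (fun _ => O.HD) o5c3_Qp2700_0_0_0 o5c3_Qm2700_0_0_0 rfl QT.nil A16 B36) A16 B36) A16 B36)
    (by decide) (by decide) O.hys O.hxs hx'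

theorem pr5c3e {xs ys T ρ xs' T' : ℝ} (O : OneB xs ys T ρ) (I : o5c3e.In T ρ xs ys)
    (H : HD xs' ys T' ρ (10 / 100) (26 / 100)) (l : LH xs' ys T' ρ (10 / 100) (26 / 100))
    (d : DnG xs' T' (10 / 100) (26 / 100) ys ρ) (I' : p5c3e.In T' ρ xs' ys)
    (hx' : xs' ∈ Icc (10 / 100) (26 / 100)) :
    Pr ys ρ xs T (16 / 100) (36 / 100) (fun _ => 0) (fun _ => 0) xs' T' (10 / 100) (26 / 100)
      (fun _ => 0) (fun _ => 0) :=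
  Pr.of (tab := [⟨2500, 2600, 0, 0, 0, 0, 0⟩, ⟨2600, 2700, 0, 0, 0, 0, 0⟩, ⟨2700, 5000, 0, 0, 0, 0, 0⟩])
    (tab' := [⟨2500, 2600, 90, 180, 0, 0, 0⟩, ⟨2600, 2700, 100, 220, 0, 0, 0⟩, ⟨2700, 5000, 0, 0, 0, 0, 0⟩])
    (O.LF I o5c3e_Wa o5c3e_Wb hf0) (l.toF hz0 hz0 (by norm_num) (by norm_num))
    (I.dt O.GD (fun _ => O.HD) o5c3e_Dp2500_0_0_0 o5c3e_Dm2500_0_0_0 rfl hf0 hf0
      (I.dt O.GD (fun _ => O.HD) o5c3e_Dp2600_0_0_0 o5c3e_Dm2600_0_0_0 rfl hf0 hf0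
      (I.dt0 O.GD (fun _ => O.HD) o5c3e_Qp2700_0_0_0 o5c3e_Qm2700_0_0_0 rfl DT.nil A16 B36) A16 B36) A16 B36)
    (d.qt (d.qt (d.qt QT.nil)))
    (I'.dt H.toGD (fun _ => H) p5c3e_Dp2500_90_180_0 p5c3e_Dm2500_90_180_0 rfl hf0 hf0
      (I'.dt H.toGD (fun _ => H) p5c3e_Dp2600_100_220_0 p5c3e_Dm2600_100_220_0 rfl hf0 hf0
      (d.dt H.toGD DT.nil) A10 B26) A10 B26)
    (I.qt O.GD (fun _ => O.HD) o5c3e_Qp2500_90_180_0 o5c3e_Qm2500_90_180_0 rfl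
      (I.qt O.GD (fun _ => O.HD) o5c3e_Qp2600_100_220_0 o5c3e_Qm2600_100_220_0 rfl
      (I.qt O.GD (fun _ => O.HD) o5c3e_Qp2700_0_0_0 o5c3e_Qm2700_0_0_0 rfl QT.nil A16 B36) A16 B36) A16 B36)
    (by decide) (by decide) O.hys O.hxs hx'

theorem pr5cZ {xs ys T ρ xs' T' : ℝ} (O : OneB xs ys T ρ) (I : o5cZ.In T ρ xs ys)
    (H : HD xs' ys T' ρ (10 / 100) (27 / 100)) (l : LH xs' ys T' ρ (10 / 100) (27 / 100))
    (d : DnG xs' T' (10 / 100) (27 / 100) ys ρ) (I' : p5cZ.In T' ρ xs' ys)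
    (hx' : xs' ∈ Icc (10 / 100) (27 / 100)) (K : Kap xs' ys T' ρ (27 / 100)) (h17 : 17 / 100 ≤ xs')
    :
    Pr ys ρ xs T (16 / 100) (36 / 100) (fun _ => 0) (fun _ => 0) xs' T' (10 / 100) (27 / 100)
      (fun _ => 0) (fun _ => 0) :=
  Pr.of (tab := [⟨2500, 2600, 0, 0, 0, 0, 0⟩, ⟨2600, 2700, 0, 0, 0, 0, 0⟩, ⟨2700, 5000, 0, 0, 0, 0, 0⟩])
    (tab' := [⟨2500, 2600, 100, 180, 0, 0, 0⟩, ⟨2600, 2700, 115, 220, 0, 0, 0⟩, ⟨2700, 5000, 0, 0, 0, 0, 0⟩])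
    (O.LF I o5cZ_Wa o5cZ_Wb hf0) (l.toF hz0 hz0 (by norm_num) (by norm_num))
    (I.dt O.GD (fun _ => O.HD) o5cZ_Dp2500_0_0_0 o5cZ_Dm2500_0_0_0 rfl hf0 hf0
      (I.dt O.GD (fun _ => O.HD) o5cZ_Dp2600_0_0_0 o5cZ_Dm2600_0_0_0 rfl hf0 hf0
      (I.dt0 O.GD (fun _ => O.HD) o5cZ_Qp2700_0_0_0 o5cZ_Qm2700_0_0_0 rfl DT.nil A16 B36) A16 B36) A16 B36)
    (d.qt (d.qt (d.qt QT.nil)))
    (I'.dk H.toGD (fun _ => H) K le_rfl h17 (by decide) p5cZ_Dm2500_100_180_0 rfl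
      (I'.dk H.toGD (fun _ => H) K le_rfl h17 (by decide) p5cZ_Dm2600_115_220_0 rfl
      (d.dt H.toGD DT.nil) A10) A10)
    (I.qt O.GD (fun _ => O.HD) o5cZ_Qp2500_100_180_0 o5cZ_Qm2500_100_180_0 rfl
      (I.qt O.GD (fun _ => O.HD) o5cZ_Qp2600_115_220_0 o5cZ_Qm2600_115_220_0 rfl
      (I.qt O.GD (fun _ => O.HD) o5cZ_Qp2700_0_0_0 o5cZ_Qm2700_0_0_0 rfl QT.nil A16 B36) A16 B36) A16 B36)
    (by decide) (by decide) O.hys O.hxs hx'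

theorem pr5cZs {xs ys T ρ xs' T' : ℝ} (O : OneB xs ys T ρ) (I : o5cZs.In T ρ xs ys)
    (H : HD xs' ys T' ρ (10 / 100) (27 / 100)) (l : LH xs' ys T' ρ (10 / 100) (27 / 100))
    (d : DnG xs' T' (10 / 100) (27 / 100) ys ρ) (I' : p5cZs.In T' ρ xs' ys)
    (hx' : xs' ∈ Icc (10 / 100) (27 / 100)) (K : Kap xs' ys T' ρ (27 / 100)) (h17 : 17 / 100 ≤ xs')
    :
    Pr ys ρ xs T (16 / 100) (36 / 100) (fun _ => 0) (fun _ => 0) xs' T' (10 / 100) (27 / 100)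
      (fun _ => 0) (fun _ => 0) :=
  Pr.of (tab := [⟨2500, 2600, 0, 0, 0, 0, 0⟩, ⟨2600, 2700, 0, 0, 0, 0, 0⟩, ⟨2700, 5000, 0, 0, 0, 0, 0⟩])
    (tab' := [⟨2500, 2600, 100, 150, 0, 0, 0⟩, ⟨2600, 2700, 90, 180, 0, 0, 0⟩, ⟨2700, 5000, 0, 0, 0, 0, 0⟩])
    (O.LF I o5cZs_Wa o5cZs_Wb hf0) (l.toF hz0 hz0 (by norm_num) (by norm_num))
    (I.dt O.GD (fun _ => O.HD) o5cZs_Dp2500_0_0_0 o5cZs_Dm2500_0_0_0 rfl hf0 hf0
      (I.dt O.GD (fun _ => O.HD) o5cZs_Dp2600_0_0_0 o5cZs_Dm2600_0_0_0 rfl hf0 hf0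
      (I.dt0 O.GD (fun _ => O.HD) o5cZs_Qp2700_0_0_0 o5cZs_Qm2700_0_0_0 rfl DT.nil A16 B36) A16 B36) A16 B36)
    (d.qt (d.qt (d.qt QT.nil)))
    (I'.dk H.toGD (fun _ => H) K le_rfl h17 (by decide) p5cZs_Dm2500_100_150_0 rfl
      (I'.dk H.toGD (fun _ => H) K le_rfl h17 (by decide) p5cZs_Dm2600_90_180_0 rfl
      (d.dt H.toGD DT.nil) A10) A10)
    (I.qt O.GD (fun _ => O.HD) o5cZs_Qp2500_100_150_0 o5cZs_Qm2500_100_150_0 rfl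
      (I.qt O.GD (fun _ => O.HD) o5cZs_Qp2600_90_180_0 o5cZs_Qm2600_90_180_0 rfl
      (I.qt O.GD (fun _ => O.HD) o5cZs_Qp2700_0_0_0 o5cZs_Qm2700_0_0_0 rfl QT.nil A16 B36) A16 B36) A16 B36)
    (by decide) (by decide) O.hys O.hxs hx'

end RC

end Pool.Agent.Work.MP_b30479_gtS.G2

end

section

/-!
# Rings on the level part: pairs of hinges
-/

namespace Pool.Agent.Work.MP_b30479_gtS.G2

open Real Set

namespace RC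

open R6

theorem pr6b2 {xs ys T ρ xs' T' : ℝ} (O : OneB xs ys T ρ) (I : o6b2.In T ρ xs ys)
    (H : HD xs' ys T' ρ (125 / 1000) (30 / 100)) (l : LH xs' ys T' ρ (125 / 1000) (30 / 100))
    (d : DnG xs' T' (125 / 1000) (30 / 100) ys ρ) (I' : p6b2.In T' ρ xs' ys)
    (hx' : xs' ∈ Icc (125 / 1000) (30 / 100)) :
    Pr ys ρ xs T (16 / 100) (36 / 100) (fun m => 355 / 1000 * m) (fun _ => 0) xs' T' (125 / 1000) (30 / 100)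
      (fun _ => 0) (fun _ => 0) :=
  Pr.of (tab := [⟨2500, 2700, 0, 0, 0, 0, 0⟩, ⟨2700, 2900, 0, 0, 0, 0, 0⟩, ⟨2900, 5000, 0, 0, 0, 0, 0⟩])
    (tab' := [⟨2500, 2700, 115, 100, 0, 0, 0⟩, ⟨2700, 2900, 115, 120, 0, 0, 0⟩, ⟨2900, 5000, 0, 0, 0, 0, 0⟩])
    (O.LF I o6b2_Wa o6b2_Wb hf355) (l.toF hz0 hz0 (by norm_num) (by norm_num))
    (I.dt O.GD (fun _ => O.HD) o6b2_Dp2500_0_0_0 o6b2_Dm2500_0_0_0 rfl hf355 hf0
      (I.dt O.GD (fun _ => O.HD) o6b2_Dp2700_0_0_0 o6b2_Dm2700_0_0_0 rfl hf355 hf0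
      (I.dt0 O.GD (fun _ => O.HD) o6b2_Qp2900_0_0_0 o6b2_Qm2900_0_0_0 rfl DT.nil A16 B36) A16 B36) A16 B36)
    (d.qt (d.qt (d.qt QT.nil)))
    (I'.dt H.toGD (fun _ => H) p6b2_Dp2500_115_100_0 p6b2_Dm2500_115_100_0 rfl hf0 hf0
      (I'.dt H.toGD (fun _ => H) p6b2_Dp2700_115_120_0 p6b2_Dm2700_115_120_0 rfl hf0 hf0
      (d.dt H.toGD DT.nil) A12 B30) A12 B30)
    (I.qt O.GD (fun _ => O.HD) o6b2_Qp2500_115_100_0 o6b2_Qm2500_115_100_0 rfl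
      (I.qt O.GD (fun _ => O.HD) o6b2_Qp2700_115_120_0 o6b2_Qm2700_115_120_0 rfl
      (I.qt O.GD (fun _ => O.HD) o6b2_Qp2900_0_0_0 o6b2_Qm2900_0_0_0 rfl QT.nil A16 B36) A16 B36) A16 B36)
    (by decide) (by decide) O.hys O.hxs hx'

theorem pr6b2x {xs ys T ρ xs' T' : ℝ} (O : OneB xs ys T ρ) (I : o6b2.In T ρ xs ys)
    (Is : o6b2x.In T ρ xs ys)
    (H : HD xs' ys T' ρ (125 / 1000) (30 / 100)) (l : LH xs' ys T' ρ (125 / 1000) (30 / 100))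
    (d : DnG xs' T' (125 / 1000) (30 / 100) ys ρ) (I' : p6b2.In T' ρ xs' ys)
    (hx' : xs' ∈ Icc (125 / 1000) (30 / 100)) :
    Pr ys ρ xs T (16 / 100) (36 / 100) (fun _ => 0) (fun _ => 0) xs' T' (125 / 1000) (30 / 100)
      (fun _ => 0) (fun _ => 0) :=
  Pr.of (tab := [⟨2500, 2700, 0, 0, 0, 0, 0⟩, ⟨2700, 2900, 0, 0, 0, 0, 0⟩, ⟨2900, 5000, 0, 0, 0, 0, 0⟩])
    (tab' := [⟨2500, 2700, 115, 100, 0, 0, 0⟩, ⟨2700, 2900, 115, 120, 0, 0, 0⟩, ⟨2900, 5000, 0, 0, 0, 0, 0⟩])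
    (O.LF Is o6b2x_Wa o6b2x_Wb hf0) (l.toF hz0 hz0 (by norm_num) (by norm_num))
    (Is.dtg O.GD (fun _ => O.HD) o6b2x_Dp2500_0_0_0 o6b2x_Dm2500_0_0_0 (Or.inl rfl) (Or.inl rfl) rfl hf0 hf0
      (Is.dtg O.GD (fun _ => O.HD) o6b2x_Dp2700_0_0_0 o6b2x_Dm2700_0_0_0 (Or.inl rfl) (Or.inl rfl) rfl hf0 hf0
      (I.dt0 O.GD (fun _ => O.HD) o6b2_Qp2900_0_0_0 o6b2_Qm2900_0_0_0 rfl DT.nil A16 B36) A16 B36) A16 B36)
    (d.qt (d.qt (d.qt QT.nil)))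
    (I'.dt H.toGD (fun _ => H) p6b2_Dp2500_115_100_0 p6b2_Dm2500_115_100_0 rfl hf0 hf0
      (I'.dt H.toGD (fun _ => H) p6b2_Dp2700_115_120_0 p6b2_Dm2700_115_120_0 rfl hf0 hf0
      (d.dt H.toGD DT.nil) A12 B30) A12 B30)
    (I.qt O.GD (fun _ => O.HD) o6b2_Qp2500_115_100_0 o6b2_Qm2500_115_100_0 rfl
      (I.qt O.GD (fun _ => O.HD) o6b2_Qp2700_115_120_0 o6b2_Qm2700_115_120_0 rfl
      (I.qt O.GD (fun _ => O.HD) o6b2_Qp2900_0_0_0 o6b2_Qm2900_0_0_0 rfl QT.nil A16 B36) A16 B36) A16 B36)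
    (by decide) (by decide) O.hys O.hxs hx'

theorem pr6b2e {xs ys T ρ xs' T' : ℝ} (O : OneB xs ys T ρ) (I : o6b2e.In T ρ xs ys)
    (H : HD xs' ys T' ρ (125 / 1000) (30 / 100)) (l : LH xs' ys T' ρ (125 / 1000) (30 / 100))
    (d : DnG xs' T' (125 / 1000) (30 / 100) ys ρ) (I' : p6b2e.In T' ρ xs' ys)
    (hx' : xs' ∈ Icc (125 / 1000) (30 / 100)) :
    Pr ys ρ xs T (16 / 100) (36 / 100) (fun m => 355 / 1000 * m) (fun _ => 0) xs' T' (125 / 1000) (30 / 100)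
      (fun _ => 0) (fun _ => 0) :=
  Pr.of (tab := [⟨2500, 2700, 0, 0, 0, 0, 0⟩, ⟨2700, 2900, 0, 0, 0, 0, 0⟩, ⟨2900, 5000, 0, 0, 0, 0, 0⟩])
    (tab' := [⟨2500, 2700, 90, 150, 0, 0, 0⟩, ⟨2700, 2900, 115, 150, 0, 0, 0⟩, ⟨2900, 5000, 0, 0, 0, 0, 0⟩])
    (O.LF I o6b2e_Wa o6b2e_Wb hf355) (l.toF hz0 hz0 (by norm_num) (by norm_num))
    (I.dt O.GD (fun _ => O.HD) o6b2e_Dp2500_0_0_0 o6b2e_Dm2500_0_0_0 rfl hf355 hf0
      (I.dt O.GD (fun _ => O.HD) o6b2e_Dp2700_0_0_0 o6b2e_Dm2700_0_0_0 rfl hf355 hf0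
      (I.dt0 O.GD (fun _ => O.HD) o6b2e_Qp2900_0_0_0 o6b2e_Qm2900_0_0_0 rfl DT.nil A16 B36) A16 B36) A16 B36)
    (d.qt (d.qt (d.qt QT.nil)))
    (I'.dt H.toGD (fun _ => H) p6b2e_Dp2500_90_150_0 p6b2e_Dm2500_90_150_0 rfl hf0 hf0
      (I'.dt H.toGD (fun _ => H) p6b2e_Dp2700_115_150_0 p6b2e_Dm2700_115_150_0 rfl hf0 hf0
      (d.dt H.toGD DT.nil) A12 B30) A12 B30)
    (I.qt O.GD (fun _ => O.HD) o6b2e_Qp2500_90_150_0 o6b2e_Qm2500_90_150_0 rfl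
      (I.qt O.GD (fun _ => O.HD) o6b2e_Qp2700_115_150_0 o6b2e_Qm2700_115_150_0 rfl
      (I.qt O.GD (fun _ => O.HD) o6b2e_Qp2900_0_0_0 o6b2e_Qm2900_0_0_0 rfl QT.nil A16 B36) A16 B36) A16 B36)
    (by decide) (by decide) O.hys O.hxs hx'

theorem pr6b2ex {xs ys T ρ xs' T' : ℝ} (O : OneB xs ys T ρ) (I : o6b2e.In T ρ xs ys)
    (Is : o6b2ex.In T ρ xs ys)
    (H : HD xs' ys T' ρ (125 / 1000) (30 / 100)) (l : LH xs' ys T' ρ (125 / 1000) (30 / 100))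
    (d : DnG xs' T' (125 / 1000) (30 / 100) ys ρ) (I' : p6b2e.In T' ρ xs' ys)
    (hx' : xs' ∈ Icc (125 / 1000) (30 / 100)) :
    Pr ys ρ xs T (16 / 100) (36 / 100) (fun _ => 0) (fun _ => 0) xs' T' (125 / 1000) (30 / 100)
      (fun _ => 0) (fun _ => 0) :=
  Pr.of (tab := [⟨2500, 2700, 0, 0, 0, 0, 0⟩, ⟨2700, 2900, 0, 0, 0, 0, 0⟩, ⟨2900, 5000, 0, 0, 0, 0, 0⟩])
    (tab' := [⟨2500, 2700, 90, 150, 0, 0, 0⟩, ⟨2700, 2900, 115, 150, 0, 0, 0⟩, ⟨2900, 5000, 0, 0, 0, 0, 0⟩])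
    (O.LF Is o6b2ex_Wa o6b2ex_Wb hf0) (l.toF hz0 hz0 (by norm_num) (by norm_num))
    (Is.dtg O.GD (fun _ => O.HD) o6b2ex_Dp2500_0_0_0 o6b2ex_Dm2500_0_0_0 (Or.inl rfl) (Or.inl rfl) rfl hf0 hf0
      (Is.dtg O.GD (fun _ => O.HD) o6b2ex_Dp2700_0_0_0 o6b2ex_Dm2700_0_0_0 (Or.inl rfl) (Or.inl rfl) rfl hf0 hf0
      (I.dt0 O.GD (fun _ => O.HD) o6b2e_Qp2900_0_0_0 o6b2e_Qm2900_0_0_0 rfl DT.nil A16 B36) A16 B36) A16 B36)
    (d.qt (d.qt (d.qt QT.nil)))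
    (I'.dt H.toGD (fun _ => H) p6b2e_Dp2500_90_150_0 p6b2e_Dm2500_90_150_0 rfl hf0 hf0
      (I'.dt H.toGD (fun _ => H) p6b2e_Dp2700_115_150_0 p6b2e_Dm2700_115_150_0 rfl hf0 hf0
      (d.dt H.toGD DT.nil) A12 B30) A12 B30)
    (I.qt O.GD (fun _ => O.HD) o6b2e_Qp2500_90_150_0 o6b2e_Qm2500_90_150_0 rfl
      (I.qt O.GD (fun _ => O.HD) o6b2e_Qp2700_115_150_0 o6b2e_Qm2700_115_150_0 rfl
      (I.qt O.GD (fun _ => O.HD) o6b2e_Qp2900_0_0_0 o6b2e_Qm2900_0_0_0 rfl QT.nil A16 B36) A16 B36) A16 B36)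
    (by decide) (by decide) O.hys O.hxs hx'

theorem pr6b3 {xs ys T ρ xs' T' : ℝ} (O : OneB xs ys T ρ) (I : o6b3.In T ρ xs ys)
    (H : HD xs' ys T' ρ (12 / 100) (30 / 100)) (l : LH xs' ys T' ρ (12 / 100) (30 / 100))
    (d : DnG xs' T' (12 / 100) (30 / 100) ys ρ) (I' : p6b3.In T' ρ xs' ys)
    (hx' : xs' ∈ Icc (12 / 100) (30 / 100)) :
    Pr ys ρ xs T (16 / 100) (36 / 100) (fun m => 355 / 1000 * m) (fun _ => 0) xs' T' (12 / 100) (30 / 100)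
      (fun _ => 0) (fun _ => 0) :=
  Pr.of (tab := [⟨2500, 2700, 0, 0, 0, 0, 0⟩, ⟨2700, 2900, 0, 0, 0, 0, 0⟩, ⟨2900, 3100, 0, 0, 0, 0, 0⟩, ⟨3100, 5000, 0, 0, 0, 0, 0⟩])
    (tab' := [⟨2500, 2700, 130, 100, 0, 0, 0⟩, ⟨2700, 2900, 130, 120, 0, 0, 0⟩, ⟨2900, 3100, 160, 150, 0, 0, 0⟩, ⟨3100, 5000, 0, 0, 0, 0, 0⟩])
    (O.LF I o6b3_Wa o6b3_Wb hf355) (l.toF hz0 hz0 (by norm_num) (by norm_num))
    (I.dt O.GD (fun _ => O.HD) o6b3_Dp2500_0_0_0 o6b3_Dm2500_0_0_0 rfl hf355 hf0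
      (I.dt O.GD (fun _ => O.HD) o6b3_Dp2700_0_0_0 o6b3_Dm2700_0_0_0 rfl hf355 hf0
      (I.dt O.GD (fun _ => O.HD) o6b3_Dp2900_0_0_0 o6b3_Dm2900_0_0_0 rfl hf355 hf0
      (I.dt0 O.GD (fun _ => O.HD) o6b3_Qp3100_0_0_0 o6b3_Qm3100_0_0_0 rfl DT.nil A16 B36) A16 B36) A16 B36) A16 B36)
    (d.qt (d.qt (d.qt (d.qt QT.nil))))
    (I'.dt H.toGD (fun _ => H) p6b3_Dp2500_130_100_0 p6b3_Dm2500_130_100_0 rfl hf0 hf0
      (I'.dt H.toGD (fun _ => H) p6b3_Dp2700_130_120_0 p6b3_Dm2700_130_120_0 rfl hf0 hf0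
      (I'.dt H.toGD (fun _ => H) p6b3_Dp2900_160_150_0 p6b3_Dm2900_160_150_0 rfl hf0 hf0
      (d.dt H.toGD DT.nil) A120 B30) A120 B30) A120 B30)
    (I.qt O.GD (fun _ => O.HD) o6b3_Qp2500_130_100_0 o6b3_Qm2500_130_100_0 rfl
      (I.qt O.GD (fun _ => O.HD) o6b3_Qp2700_130_120_0 o6b3_Qm2700_130_120_0 rfl
      (I.qt O.GD (fun _ => O.HD) o6b3_Qp2900_160_150_0 o6b3_Qm2900_160_150_0 rfl
      (I.qt O.GD (fun _ => O.HD) o6b3_Qp3100_0_0_0 o6b3_Qm3100_0_0_0 rfl QT.nil A16 B36) A16 B36) A16 B36) A16 B36)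
    (by decide) (by decide) O.hys O.hxs hx'

theorem pr6b3x {xs ys T ρ xs' T' : ℝ} (O : OneB xs ys T ρ) (I : o6b3.In T ρ xs ys)
    (Is : o6b3x.In T ρ xs ys)
    (H : HD xs' ys T' ρ (12 / 100) (30 / 100)) (l : LH xs' ys T' ρ (12 / 100) (30 / 100))
    (d : DnG xs' T' (12 / 100) (30 / 100) ys ρ) (I' : p6b3.In T' ρ xs' ys)
    (hx' : xs' ∈ Icc (12 / 100) (30 / 100)) :
    Pr ys ρ xs T (16 / 100) (36 / 100) (fun _ => 0) (fun _ => 0) xs' T' (12 / 100) (30 / 100)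
      (fun _ => 0) (fun _ => 0) :=
  Pr.of (tab := [⟨2500, 2700, 0, 0, 0, 0, 0⟩, ⟨2700, 2900, 0, 0, 0, 0, 0⟩, ⟨2900, 3100, 0, 0, 0, 0, 0⟩, ⟨3100, 5000, 0, 0, 0, 0, 0⟩])
    (tab' := [⟨2500, 2700, 130, 100, 0, 0, 0⟩, ⟨2700, 2900, 130, 120, 0, 0, 0⟩, ⟨2900, 3100, 160, 150, 0, 0, 0⟩, ⟨3100, 5000, 0, 0, 0, 0, 0⟩])
    (O.LF Is o6b3x_Wa o6b3x_Wb hf0) (l.toF hz0 hz0 (by norm_num) (by norm_num))
    (Is.dtg O.GD (fun _ => O.HD) o6b3x_Dp2500_0_0_0 o6b3x_Dm2500_0_0_0 (Or.inl rfl) (Or.inl rfl) rfl hf0 hf0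
      (Is.dtg O.GD (fun _ => O.HD) o6b3x_Dp2700_0_0_0 o6b3x_Dm2700_0_0_0 (Or.inl rfl) (Or.inl rfl) rfl hf0 hf0
      (Is.dtg O.GD (fun _ => O.HD) o6b3x_Dp2900_0_0_0 o6b3x_Dm2900_0_0_0 (Or.inl rfl) (Or.inl rfl) rfl hf0 hf0
      (I.dt0 O.GD (fun _ => O.HD) o6b3_Qp3100_0_0_0 o6b3_Qm3100_0_0_0 rfl DT.nil A16 B36) A16 B36) A16 B36) A16 B36)
    (d.qt (d.qt (d.qt (d.qt QT.nil))))
    (I'.dt H.toGD (fun _ => H) p6b3_Dp2500_130_100_0 p6b3_Dm2500_130_100_0 rfl hf0 hf0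
      (I'.dt H.toGD (fun _ => H) p6b3_Dp2700_130_120_0 p6b3_Dm2700_130_120_0 rfl hf0 hf0
      (I'.dt H.toGD (fun _ => H) p6b3_Dp2900_160_150_0 p6b3_Dm2900_160_150_0 rfl hf0 hf0
      (d.dt H.toGD DT.nil) A120 B30) A120 B30) A120 B30)
    (I.qt O.GD (fun _ => O.HD) o6b3_Qp2500_130_100_0 o6b3_Qm2500_130_100_0 rfl
      (I.qt O.GD (fun _ => O.HD) o6b3_Qp2700_130_120_0 o6b3_Qm2700_130_120_0 rfl
      (I.qt O.GD (fun _ => O.HD) o6b3_Qp2900_160_150_0 o6b3_Qm2900_160_150_0 rfl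
      (I.qt O.GD (fun _ => O.HD) o6b3_Qp3100_0_0_0 o6b3_Qm3100_0_0_0 rfl QT.nil A16 B36) A16 B36) A16 B36) A16 B36)
    (by decide) (by decide) O.hys O.hxs hx'

theorem pr6b3e {xs ys T ρ xs' T' : ℝ} (O : OneB xs ys T ρ) (I : o6b3e.In T ρ xs ys)
    (H : HD xs' ys T' ρ (10 / 100) (26 / 100)) (l : LH xs' ys T' ρ (10 / 100) (26 / 100))
    (d : DnG xs' T' (10 / 100) (26 / 100) ys ρ) (I' : p6b3e.In T' ρ xs' ys)
    (hx' : xs' ∈ Icc (10 / 100) (26 / 100)) :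
    Pr ys ρ xs T (16 / 100) (36 / 100) (fun m => 355 / 1000 * m) (fun _ => 0) xs' T' (10 / 100) (26 / 100)
      (fun _ => 0) (fun _ => 0) :=
  Pr.of (tab := [⟨2500, 2700, 0, 0, 0, 0, 0⟩, ⟨2700, 2900, 0, 0, 0, 0, 0⟩, ⟨2900, 3100, 0, 0, 0, 0, 0⟩, ⟨3100, 5000, 0, 0, 0, 0, 0⟩])
    (tab' := [⟨2500, 2700, 100, 80, 0, 0, 0⟩, ⟨2700, 2900, 160, 120, 0, 0, 0⟩, ⟨2900, 3100, 160, 150, 0, 0, 0⟩, ⟨3100, 5000, 0, 0, 0, 0, 0⟩])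
    (O.LF I o6b3e_Wa o6b3e_Wb hf355) (l.toF hz0 hz0 (by norm_num) (by norm_num))
    (I.dt O.GD (fun _ => O.HD) o6b3e_Dp2500_0_0_0 o6b3e_Dm2500_0_0_0 rfl hf355 hf0
      (I.dt O.GD (fun _ => O.HD) o6b3e_Dp2700_0_0_0 o6b3e_Dm2700_0_0_0 rfl hf355 hf0
      (I.dt O.GD (fun _ => O.HD) o6b3e_Dp2900_0_0_0 o6b3e_Dm2900_0_0_0 rfl hf355 hf0
      (I.dt0 O.GD (fun _ => O.HD) o6b3e_Qp3100_0_0_0 o6b3e_Qm3100_0_0_0 rfl DT.nil A16 B36) A16 B36) A16 B36) A16 B36)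
    (d.qt (d.qt (d.qt (d.qt QT.nil))))
    (I'.dt H.toGD (fun _ => H) p6b3e_Dp2500_100_80_0 p6b3e_Dm2500_100_80_0 rfl hf0 hf0
      (I'.dt H.toGD (fun _ => H) p6b3e_Dp2700_160_120_0 p6b3e_Dm2700_160_120_0 rfl hf0 hf0
      (I'.dt H.toGD (fun _ => H) p6b3e_Dp2900_160_150_0 p6b3e_Dm2900_160_150_0 rfl hf0 hf0
      (d.dt H.toGD DT.nil) A10 B26) A10 B26) A10 B26)
    (I.qt O.GD (fun _ => O.HD) o6b3e_Qp2500_100_80_0 o6b3e_Qm2500_100_80_0 rfl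
      (I.qt O.GD (fun _ => O.HD) o6b3e_Qp2700_160_120_0 o6b3e_Qm2700_160_120_0 rfl
      (I.qt O.GD (fun _ => O.HD) o6b3e_Qp2900_160_150_0 o6b3e_Qm2900_160_150_0 rfl
      (I.qt O.GD (fun _ => O.HD) o6b3e_Qp3100_0_0_0 o6b3e_Qm3100_0_0_0 rfl QT.nil A16 B36) A16 B36) A16 B36) A16 B36)
    (by decide) (by decide) O.hys O.hxs hx'

theorem pr6b3ex {xs ys T ρ xs' T' : ℝ} (O : OneB xs ys T ρ) (I : o6b3e.In T ρ xs ys)
    (Is : o6b3ex.In T ρ xs ys)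
    (H : HD xs' ys T' ρ (10 / 100) (26 / 100)) (l : LH xs' ys T' ρ (10 / 100) (26 / 100))
    (d : DnG xs' T' (10 / 100) (26 / 100) ys ρ) (I' : p6b3e.In T' ρ xs' ys)
    (hx' : xs' ∈ Icc (10 / 100) (26 / 100)) :
    Pr ys ρ xs T (16 / 100) (36 / 100) (fun _ => 0) (fun _ => 0) xs' T' (10 / 100) (26 / 100)
      (fun _ => 0) (fun _ => 0) :=
  Pr.of (tab := [⟨2500, 2700, 0, 0, 0, 0, 0⟩, ⟨2700, 2900, 0, 0, 0, 0, 0⟩, ⟨2900, 3100, 0, 0, 0, 0, 0⟩, ⟨3100, 5000, 0, 0, 0, 0, 0⟩])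
    (tab' := [⟨2500, 2700, 100, 80, 0, 0, 0⟩, ⟨2700, 2900, 160, 120, 0, 0, 0⟩, ⟨2900, 3100, 160, 150, 0, 0, 0⟩, ⟨3100, 5000, 0, 0, 0, 0, 0⟩])
    (O.LF Is o6b3ex_Wa o6b3ex_Wb hf0) (l.toF hz0 hz0 (by norm_num) (by norm_num))
    (Is.dtg O.GD (fun _ => O.HD) o6b3ex_Dp2500_0_0_0 o6b3ex_Dm2500_0_0_0 (Or.inl rfl) (Or.inl rfl) rfl hf0 hf0
      (Is.dtg O.GD (fun _ => O.HD) o6b3ex_Dp2700_0_0_0 o6b3ex_Dm2700_0_0_0 (Or.inl rfl) (Or.inl rfl) rfl hf0 hf0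
      (Is.dtg O.GD (fun _ => O.HD) o6b3ex_Dp2900_0_0_0 o6b3ex_Dm2900_0_0_0 (Or.inl rfl) (Or.inl rfl) rfl hf0 hf0
      (I.dt0 O.GD (fun _ => O.HD) o6b3e_Qp3100_0_0_0 o6b3e_Qm3100_0_0_0 rfl DT.nil A16 B36) A16 B36) A16 B36) A16 B36)
    (d.qt (d.qt (d.qt (d.qt QT.nil))))
    (I'.dt H.toGD (fun _ => H) p6b3e_Dp2500_100_80_0 p6b3e_Dm2500_100_80_0 rfl hf0 hf0
      (I'.dt H.toGD (fun _ => H) p6b3e_Dp2700_160_120_0 p6b3e_Dm2700_160_120_0 rfl hf0 hf0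
      (I'.dt H.toGD (fun _ => H) p6b3e_Dp2900_160_150_0 p6b3e_Dm2900_160_150_0 rfl hf0 hf0
      (d.dt H.toGD DT.nil) A10 B26) A10 B26) A10 B26)
    (I.qt O.GD (fun _ => O.HD) o6b3e_Qp2500_100_80_0 o6b3e_Qm2500_100_80_0 rfl
      (I.qt O.GD (fun _ => O.HD) o6b3e_Qp2700_160_120_0 o6b3e_Qm2700_160_120_0 rfl
      (I.qt O.GD (fun _ => O.HD) o6b3e_Qp2900_160_150_0 o6b3e_Qm2900_160_150_0 rfl
      (I.qt O.GD (fun _ => O.HD) o6b3e_Qp3100_0_0_0 o6b3e_Qm3100_0_0_0 rfl QT.nil A16 B36) A16 B36) A16 B36) A16 B36)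
    (by decide) (by decide) O.hys O.hxs hx'

theorem pr6bZ {xs ys T ρ xs' T' : ℝ} (O : OneB xs ys T ρ) (I : o6bZ.In T ρ xs ys)
    (H : HD xs' ys T' ρ (10 / 100) (27 / 100)) (l : LH xs' ys T' ρ (10 / 100) (27 / 100))
    (d : DnG xs' T' (10 / 100) (27 / 100) ys ρ) (I' : p6bZ.In T' ρ xs' ys)
    (hx' : xs' ∈ Icc (10 / 100) (27 / 100)) (K : Kap xs' ys T' ρ (27 / 100)) (h17 : 17 / 100 ≤ xs')
    :
    Pr ys ρ xs T (16 / 100) (36 / 100) (fun m => 355 / 1000 * m) (fun _ => 0) xs' T' (10 / 100) (27 / 100)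
      (fun _ => 0) (fun _ => 0) :=
  Pr.of (tab := [⟨2500, 2700, 0, 0, 0, 0, 0⟩, ⟨2700, 2900, 0, 0, 0, 0, 0⟩, ⟨2900, 3100, 0, 0, 0, 0, 0⟩, ⟨3100, 5000, 0, 0, 0, 0, 0⟩])
    (tab' := [⟨2500, 2700, 115, 80, 0, 0, 0⟩, ⟨2700, 2900, 115, 120, 0, 0, 0⟩, ⟨2900, 3100, 160, 150, 0, 0, 0⟩, ⟨3100, 5000, 0, 0, 0, 0, 0⟩])
    (O.LF I o6bZ_Wa o6bZ_Wb hf355) (l.toF hz0 hz0 (by norm_num) (by norm_num))
    (I.dt O.GD (fun _ => O.HD) o6bZ_Dp2500_0_0_0 o6bZ_Dm2500_0_0_0 rfl hf355 hf0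
      (I.dt O.GD (fun _ => O.HD) o6bZ_Dp2700_0_0_0 o6bZ_Dm2700_0_0_0 rfl hf355 hf0
      (I.dt O.GD (fun _ => O.HD) o6bZ_Dp2900_0_0_0 o6bZ_Dm2900_0_0_0 rfl hf355 hf0
      (I.dt0 O.GD (fun _ => O.HD) o6bZ_Qp3100_0_0_0 o6bZ_Qm3100_0_0_0 rfl DT.nil A16 B36) A16 B36) A16 B36) A16 B36)
    (d.qt (d.qt (d.qt (d.qt QT.nil))))
    (I'.dk H.toGD (fun _ => H) K le_rfl h17 (by decide) p6bZ_Dm2500_115_80_0 rfl
      (I'.dk H.toGD (fun _ => H) K le_rfl h17 (by decide) p6bZ_Dm2700_115_120_0 rfl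
      (I'.dk H.toGD (fun _ => H) K le_rfl h17 (by decide) p6bZ_Dm2900_160_150_0 rfl
      (d.dt H.toGD DT.nil) A10) A10) A10)
    (I.qt O.GD (fun _ => O.HD) o6bZ_Qp2500_115_80_0 o6bZ_Qm2500_115_80_0 rfl
      (I.qt O.GD (fun _ => O.HD) o6bZ_Qp2700_115_120_0 o6bZ_Qm2700_115_120_0 rfl
      (I.qt O.GD (fun _ => O.HD) o6bZ_Qp2900_160_150_0 o6bZ_Qm2900_160_150_0 rfl
      (I.qt O.GD (fun _ => O.HD) o6bZ_Qp3100_0_0_0 o6bZ_Qm3100_0_0_0 rfl QT.nil A16 B36) A16 B36) A16 B36) A16 B36)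
    (by decide) (by decide) O.hys O.hxs hx'

theorem pr6bZx {xs ys T ρ xs' T' : ℝ} (O : OneB xs ys T ρ) (I : o6bZ.In T ρ xs ys)
    (Is : o6bZx.In T ρ xs ys)
    (H : HD xs' ys T' ρ (10 / 100) (27 / 100)) (l : LH xs' ys T' ρ (10 / 100) (27 / 100))
    (d : DnG xs' T' (10 / 100) (27 / 100) ys ρ) (I' : p6bZ.In T' ρ xs' ys)
    (hx' : xs' ∈ Icc (10 / 100) (27 / 100)) (K : Kap xs' ys T' ρ (27 / 100)) (h17 : 17 / 100 ≤ xs')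
    :
    Pr ys ρ xs T (16 / 100) (36 / 100) (fun _ => 0) (fun _ => 0) xs' T' (10 / 100) (27 / 100)
      (fun _ => 0) (fun _ => 0) :=
  Pr.of (tab := [⟨2500, 2700, 0, 0, 0, 0, 0⟩, ⟨2700, 2900, 0, 0, 0, 0, 0⟩, ⟨2900, 3100, 0, 0, 0, 0, 0⟩, ⟨3100, 5000, 0, 0, 0, 0, 0⟩])
    (tab' := [⟨2500, 2700, 115, 80, 0, 0, 0⟩, ⟨2700, 2900, 115, 120, 0, 0, 0⟩, ⟨2900, 3100, 160, 150, 0, 0, 0⟩, ⟨3100, 5000, 0, 0, 0, 0, 0⟩])
    (O.LF Is o6bZx_Wa o6bZx_Wb hf0) (l.toF hz0 hz0 (by norm_num) (by norm_num))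
    (Is.dtg O.GD (fun _ => O.HD) o6bZx_Dp2500_0_0_0 o6bZx_Dm2500_0_0_0 (Or.inl rfl) (Or.inl rfl) rfl hf0 hf0
      (Is.dtg O.GD (fun _ => O.HD) o6bZx_Dp2700_0_0_0 o6bZx_Dm2700_0_0_0 (Or.inl rfl) (Or.inl rfl) rfl hf0 hf0
      (Is.dtg O.GD (fun _ => O.HD) o6bZx_Dp2900_0_0_0 o6bZx_Dm2900_0_0_0 (Or.inl rfl) (Or.inl rfl) rfl hf0 hf0
      (I.dt0 O.GD (fun _ => O.HD) o6bZ_Qp3100_0_0_0 o6bZ_Qm3100_0_0_0 rfl DT.nil A16 B36) A16 B36) A16 B36) A16 B36)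
    (d.qt (d.qt (d.qt (d.qt QT.nil))))
    (I'.dk H.toGD (fun _ => H) K le_rfl h17 (by decide) p6bZ_Dm2500_115_80_0 rfl
      (I'.dk H.toGD (fun _ => H) K le_rfl h17 (by decide) p6bZ_Dm2700_115_120_0 rfl
      (I'.dk H.toGD (fun _ => H) K le_rfl h17 (by decide) p6bZ_Dm2900_160_150_0 rfl
      (d.dt H.toGD DT.nil) A10) A10) A10)
    (I.qt O.GD (fun _ => O.HD) o6bZ_Qp2500_115_80_0 o6bZ_Qm2500_115_80_0 rfl
      (I.qt O.GD (fun _ => O.HD) o6bZ_Qp2700_115_120_0 o6bZ_Qm2700_115_120_0 rfl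
      (I.qt O.GD (fun _ => O.HD) o6bZ_Qp2900_160_150_0 o6bZ_Qm2900_160_150_0 rfl
      (I.qt O.GD (fun _ => O.HD) o6bZ_Qp3100_0_0_0 o6bZ_Qm3100_0_0_0 rfl QT.nil A16 B36) A16 B36) A16 B36) A16 B36)
    (by decide) (by decide) O.hys O.hxs hx'

theorem pr6bZs {xs ys T ρ xs' T' : ℝ} (O : OneB xs ys T ρ) (I : o6bZs.In T ρ xs ys)
    (H : HD xs' ys T' ρ (10 / 100) (27 / 100)) (l : LH xs' ys T' ρ (10 / 100) (27 / 100))
    (d : DnG xs' T' (10 / 100) (27 / 100) ys ρ) (I' : p6bZs.In T' ρ xs' ys)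
    (hx' : xs' ∈ Icc (10 / 100) (27 / 100)) (K : Kap xs' ys T' ρ (27 / 100)) (h17 : 17 / 100 ≤ xs')
    :
    Pr ys ρ xs T (16 / 100) (36 / 100) (fun m => 355 / 1000 * m) (fun _ => 0) xs' T' (10 / 100) (27 / 100)
      (fun _ => 0) (fun _ => 0) :=
  Pr.of (tab := [⟨2500, 2700, 0, 0, 0, 0, 0⟩, ⟨2700, 2900, 0, 0, 0, 0, 0⟩, ⟨2900, 3100, 0, 0, 0, 0, 0⟩, ⟨3100, 5000, 0, 0, 0, 0, 0⟩])
    (tab' := [⟨2500, 2700, 100, 65, 0, 0, 0⟩, ⟨2700, 2900, 100, 100, 0, 0, 0⟩, ⟨2900, 3100, 115, 150, 0, 0, 0⟩, ⟨3100, 5000, 0, 0, 0, 0, 0⟩])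
    (O.LF I o6bZs_Wa o6bZs_Wb hf355) (l.toF hz0 hz0 (by norm_num) (by norm_num))
    (I.dt O.GD (fun _ => O.HD) o6bZs_Dp2500_0_0_0 o6bZs_Dm2500_0_0_0 rfl hf355 hf0
      (I.dt O.GD (fun _ => O.HD) o6bZs_Dp2700_0_0_0 o6bZs_Dm2700_0_0_0 rfl hf355 hf0
      (I.dt O.GD (fun _ => O.HD) o6bZs_Dp2900_0_0_0 o6bZs_Dm2900_0_0_0 rfl hf355 hf0
      (I.dt0 O.GD (fun _ => O.HD) o6bZs_Qp3100_0_0_0 o6bZs_Qm3100_0_0_0 rfl DT.nil A16 B36) A16 B36) A16 B36) A16 B36)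
    (d.qt (d.qt (d.qt (d.qt QT.nil))))
    (I'.dk H.toGD (fun _ => H) K le_rfl h17 (by decide) p6bZs_Dm2500_100_65_0 rfl
      (I'.dk H.toGD (fun _ => H) K le_rfl h17 (by decide) p6bZs_Dm2700_100_100_0 rfl
      (I'.dk H.toGD (fun _ => H) K le_rfl h17 (by decide) p6bZs_Dm2900_115_150_0 rfl
      (d.dt H.toGD DT.nil) A10) A10) A10)
    (I.qt O.GD (fun _ => O.HD) o6bZs_Qp2500_100_65_0 o6bZs_Qm2500_100_65_0 rfl
      (I.qt O.GD (fun _ => O.HD) o6bZs_Qp2700_100_100_0 o6bZs_Qm2700_100_100_0 rfl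
      (I.qt O.GD (fun _ => O.HD) o6bZs_Qp2900_115_150_0 o6bZs_Qm2900_115_150_0 rfl
      (I.qt O.GD (fun _ => O.HD) o6bZs_Qp3100_0_0_0 o6bZs_Qm3100_0_0_0 rfl QT.nil A16 B36) A16 B36) A16 B36) A16 B36)
    (by decide) (by decide) O.hys O.hxs hx'

theorem pr6bZsx {xs ys T ρ xs' T' : ℝ} (O : OneB xs ys T ρ) (I : o6bZs.In T ρ xs ys)
    (Is : o6bZsx.In T ρ xs ys)
    (H : HD xs' ys T' ρ (10 / 100) (27 / 100)) (l : LH xs' ys T' ρ (10 / 100) (27 / 100))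
    (d : DnG xs' T' (10 / 100) (27 / 100) ys ρ) (I' : p6bZs.In T' ρ xs' ys)
    (hx' : xs' ∈ Icc (10 / 100) (27 / 100)) (K : Kap xs' ys T' ρ (27 / 100)) (h17 : 17 / 100 ≤ xs')
    :
    Pr ys ρ xs T (16 / 100) (36 / 100) (fun _ => 0) (fun _ => 0) xs' T' (10 / 100) (27 / 100)
      (fun _ => 0) (fun _ => 0) :=
  Pr.of (tab := [⟨2500, 2700, 0, 0, 0, 0, 0⟩, ⟨2700, 2900, 0, 0, 0, 0, 0⟩, ⟨2900, 3100, 0, 0, 0, 0, 0⟩, ⟨3100, 5000, 0, 0, 0, 0, 0⟩])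
    (tab' := [⟨2500, 2700, 100, 65, 0, 0, 0⟩, ⟨2700, 2900, 100, 100, 0, 0, 0⟩, ⟨2900, 3100, 115, 150, 0, 0, 0⟩, ⟨3100, 5000, 0, 0, 0, 0, 0⟩])
    (O.LF Is o6bZsx_Wa o6bZsx_Wb hf0) (l.toF hz0 hz0 (by norm_num) (by norm_num))
    (Is.dtg O.GD (fun _ => O.HD) o6bZsx_Dp2500_0_0_0 o6bZsx_Dm2500_0_0_0 (Or.inl rfl) (Or.inl rfl) rfl hf0 hf0
      (Is.dtg O.GD (fun _ => O.HD) o6bZsx_Dp2700_0_0_0 o6bZsx_Dm2700_0_0_0 (Or.inl rfl) (Or.inl rfl) rfl hf0 hf0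
      (Is.dtg O.GD (fun _ => O.HD) o6bZsx_Dp2900_0_0_0 o6bZsx_Dm2900_0_0_0 (Or.inl rfl) (Or.inl rfl) rfl hf0 hf0
      (I.dt0 O.GD (fun _ => O.HD) o6bZs_Qp3100_0_0_0 o6bZs_Qm3100_0_0_0 rfl DT.nil A16 B36) A16 B36) A16 B36) A16 B36)
    (d.qt (d.qt (d.qt (d.qt QT.nil))))
    (I'.dk H.toGD (fun _ => H) K le_rfl h17 (by decide) p6bZs_Dm2500_100_65_0 rfl
      (I'.dk H.toGD (fun _ => H) K le_rfl h17 (by decide) p6bZs_Dm2700_100_100_0 rfl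
      (I'.dk H.toGD (fun _ => H) K le_rfl h17 (by decide) p6bZs_Dm2900_115_150_0 rfl
      (d.dt H.toGD DT.nil) A10) A10) A10)
    (I.qt O.GD (fun _ => O.HD) o6bZs_Qp2500_100_65_0 o6bZs_Qm2500_100_65_0 rfl
      (I.qt O.GD (fun _ => O.HD) o6bZs_Qp2700_100_100_0 o6bZs_Qm2700_100_100_0 rfl
      (I.qt O.GD (fun _ => O.HD) o6bZs_Qp2900_115_150_0 o6bZs_Qm2900_115_150_0 rfl
      (I.qt O.GD (fun _ => O.HD) o6bZs_Qp3100_0_0_0 o6bZs_Qm3100_0_0_0 rfl QT.nil A16 B36) A16 B36) A16 B36) A16 B36)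
    (by decide) (by decide) O.hys O.hxs hx'

end RC

end Pool.Agent.Work.MP_b30479_gtS.G2

end

section

/-!
# Rings on the level part: pairs of hinges
-/

namespace Pool.Agent.Work.MP_b30479_gtS.G2

open Real Set

namespace RC

open R6

theorem pr6c2 {xs ys T ρ xs' T' : ℝ} (O : OneB xs ys T ρ) (I : o6c2.In T ρ xs ys)
    (H : HD xs' ys T' ρ (125 / 1000) (30 / 100)) (l : LH xs' ys T' ρ (125 / 1000) (30 / 100))
    (d : DnG xs' T' (125 / 1000) (30 / 100) ys ρ) (I' : p6c2.In T' ρ xs' ys)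
    (hx' : xs' ∈ Icc (125 / 1000) (30 / 100)) :
    Pr ys ρ xs T (16 / 100) (36 / 100) (fun _ => 0) (fun _ => 0) xs' T' (125 / 1000) (30 / 100)
      (fun _ => 0) (fun _ => 0) :=
  Pr.of (tab := [⟨2500, 2700, 0, 0, 0, 0, 0⟩, ⟨2700, 5000, 0, 0, 0, 0, 0⟩])
    (tab' := [⟨2500, 2700, 160, 300, 0, 0, 0⟩, ⟨2700, 5000, 0, 0, 0, 0, 0⟩])
    (O.LF I o6c2_Wa o6c2_Wb hf0) (l.toF hz0 hz0 (by norm_num) (by norm_num))
    (I.dt O.GD (fun _ => O.HD) o6c2_Dp2500_0_0_0 o6c2_Dm2500_0_0_0 rfl hf0 hf0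
      (I.dt0 O.GD (fun _ => O.HD) o6c2_Qp2700_0_0_0 o6c2_Qm2700_0_0_0 rfl DT.nil A16 B36) A16 B36)
    (d.qt (d.qt QT.nil))
    (I'.dt H.toGD (fun _ => H) p6c2_Dp2500_160_300_0 p6c2_Dm2500_160_300_0 rfl hf0 hf0
      (d.dt H.toGD DT.nil) A12 B30)
    (I.qt O.GD (fun _ => O.HD) o6c2_Qp2500_160_300_0 o6c2_Qm2500_160_300_0 rfl
      (I.qt O.GD (fun _ => O.HD) o6c2_Qp2700_0_0_0 o6c2_Qm2700_0_0_0 rfl QT.nil A16 B36) A16 B36)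
    (by decide) (by decide) O.hys O.hxs hx'

theorem pr6c2e {xs ys T ρ xs' T' : ℝ} (O : OneB xs ys T ρ) (I : o6c2e.In T ρ xs ys)
    (H : HD xs' ys T' ρ (125 / 1000) (30 / 100)) (l : LH xs' ys T' ρ (125 / 1000) (30 / 100))
    (d : DnG xs' T' (125 / 1000) (30 / 100) ys ρ) (I' : p6c2e.In T' ρ xs' ys)
    (hx' : xs' ∈ Icc (125 / 1000) (30 / 100)) :
    Pr ys ρ xs T (16 / 100) (36 / 100) (fun _ => 0) (fun _ => 0) xs' T' (125 / 1000) (30 / 100)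
      (fun _ => 0) (fun _ => 0) :=
  Pr.of (tab := [⟨2500, 2700, 0, 0, 0, 0, 0⟩, ⟨2700, 5000, 0, 0, 0, 0, 0⟩])
    (tab' := [⟨2500, 2700, 100, 260, 0, 0, 0⟩, ⟨2700, 5000, 0, 0, 0, 0, 0⟩])
    (O.LF I o6c2e_Wa o6c2e_Wb hf0) (l.toF hz0 hz0 (by norm_num) (by norm_num))
    (I.dt O.GD (fun _ => O.HD) o6c2e_Dp2500_0_0_0 o6c2e_Dm2500_0_0_0 rfl hf0 hf0
      (I.dt0 O.GD (fun _ => O.HD) o6c2e_Qp2700_0_0_0 o6c2e_Qm2700_0_0_0 rfl DT.nil A16 B36) A16 B36)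
    (d.qt (d.qt QT.nil))
    (I'.dt H.toGD (fun _ => H) p6c2e_Dp2500_100_260_0 p6c2e_Dm2500_100_260_0 rfl hf0 hf0
      (d.dt H.toGD DT.nil) A12 B30)
    (I.qt O.GD (fun _ => O.HD) o6c2e_Qp2500_100_260_0 o6c2e_Qm2500_100_260_0 rfl
      (I.qt O.GD (fun _ => O.HD) o6c2e_Qp2700_0_0_0 o6c2e_Qm2700_0_0_0 rfl QT.nil A16 B36) A16 B36)
    (by decide) (by decide) O.hys O.hxs hx'

theorem pr6c3 {xs ys T ρ xs' T' : ℝ} (O : OneB xs ys T ρ) (I : o6c3.In T ρ xs ys)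
    (H : HD xs' ys T' ρ (12 / 100) (30 / 100)) (l : LH xs' ys T' ρ (12 / 100) (30 / 100))
    (d : DnG xs' T' (12 / 100) (30 / 100) ys ρ) (I' : p6c3.In T' ρ xs' ys)
    (hx' : xs' ∈ Icc (12 / 100) (30 / 100)) :
    Pr ys ρ xs T (16 / 100) (36 / 100) (fun _ => 0) (fun _ => 0) xs' T' (12 / 100) (30 / 100)
      (fun _ => 0) (fun _ => 0) :=
  Pr.of (tab := [⟨2500, 2700, 0, 0, 0, 0, 0⟩, ⟨2700, 5000, 0, 0, 0, 0, 0⟩])
    (tab' := [⟨2500, 2700, 90, 260, 0, 0, 0⟩, ⟨2700, 5000, 0, 0, 0, 0, 0⟩])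
    (O.LF I o6c3_Wa o6c3_Wb hf0) (l.toF hz0 hz0 (by norm_num) (by norm_num))
    (I.dt O.GD (fun _ => O.HD) o6c3_Dp2500_0_0_0 o6c3_Dm2500_0_0_0 rfl hf0 hf0
      (I.dt0 O.GD (fun _ => O.HD) o6c3_Qp2700_0_0_0 o6c3_Qm2700_0_0_0 rfl DT.nil A16 B36) A16 B36)
    (d.qt (d.qt QT.nil))
    (I'.dt H.toGD (fun _ => H) p6c3_Dp2500_90_260_0 p6c3_Dm2500_90_260_0 rfl hf0 hf0
      (d.dt H.toGD DT.nil) A120 B30)
    (I.qt O.GD (fun _ => O.HD) o6c3_Qp2500_90_260_0 o6c3_Qm2500_90_260_0 rfl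
      (I.qt O.GD (fun _ => O.HD) o6c3_Qp2700_0_0_0 o6c3_Qm2700_0_0_0 rfl QT.nil A16 B36) A16 B36)
    (by decide) (by decide) O.hys O.hxs hx'

theorem pr6c3e {xs ys T ρ xs' T' : ℝ} (O : OneB xs ys T ρ) (I : o6c3e.In T ρ xs ys)
    (H : HD xs' ys T' ρ (10 / 100) (26 / 100)) (l : LH xs' ys T' ρ (10 / 100) (26 / 100))
    (d : DnG xs' T' (10 / 100) (26 / 100) ys ρ) (I' : p6c3e.In T' ρ xs' ys)
    (hx' : xs' ∈ Icc (10 / 100) (26 / 100)) :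
    Pr ys ρ xs T (16 / 100) (36 / 100) (fun _ => 0) (fun _ => 0) xs' T' (10 / 100) (26 / 100)
      (fun _ => 0) (fun _ => 0) :=
  Pr.of (tab := [⟨2500, 2700, 0, 0, 0, 0, 0⟩, ⟨2700, 5000, 0, 0, 0, 0, 0⟩])
    (tab' := [⟨2500, 2700, 160, 260, 0, 0, 0⟩, ⟨2700, 5000, 0, 0, 0, 0, 0⟩])
    (O.LF I o6c3e_Wa o6c3e_Wb hf0) (l.toF hz0 hz0 (by norm_num) (by norm_num))
    (I.dt O.GD (fun _ => O.HD) o6c3e_Dp2500_0_0_0 o6c3e_Dm2500_0_0_0 rfl hf0 hf0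
      (I.dt0 O.GD (fun _ => O.HD) o6c3e_Qp2700_0_0_0 o6c3e_Qm2700_0_0_0 rfl DT.nil A16 B36) A16 B36)
    (d.qt (d.qt QT.nil))
    (I'.dt H.toGD (fun _ => H) p6c3e_Dp2500_160_260_0 p6c3e_Dm2500_160_260_0 rfl hf0 hf0
      (d.dt H.toGD DT.nil) A10 B26)
    (I.qt O.GD (fun _ => O.HD) o6c3e_Qp2500_160_260_0 o6c3e_Qm2500_160_260_0 rfl
      (I.qt O.GD (fun _ => O.HD) o6c3e_Qp2700_0_0_0 o6c3e_Qm2700_0_0_0 rfl QT.nil A16 B36) A16 B36)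
    (by decide) (by decide) O.hys O.hxs hx'

theorem pr6cZ {xs ys T ρ xs' T' : ℝ} (O : OneB xs ys T ρ) (I : o6cZ.In T ρ xs ys)
    (H : HD xs' ys T' ρ (10 / 100) (27 / 100)) (l : LH xs' ys T' ρ (10 / 100) (27 / 100))
    (d : DnG xs' T' (10 / 100) (27 / 100) ys ρ) (I' : p6cZ.In T' ρ xs' ys)
    (hx' : xs' ∈ Icc (10 / 100) (27 / 100)) (K : Kap xs' ys T' ρ (27 / 100)) (h17 : 17 / 100 ≤ xs')
    :
    Pr ys ρ xs T (16 / 100) (36 / 100) (fun _ => 0) (fun _ => 0) xs' T' (10 / 100) (27 / 100)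
      (fun _ => 0) (fun _ => 0) :=
  Pr.of (tab := [⟨2500, 2700, 0, 0, 0, 0, 0⟩, ⟨2700, 5000, 0, 0, 0, 0, 0⟩])
    (tab' := [⟨2500, 2700, 90, 260, 0, 0, 0⟩, ⟨2700, 5000, 0, 0, 0, 0, 0⟩])
    (O.LF I o6cZ_Wa o6cZ_Wb hf0) (l.toF hz0 hz0 (by norm_num) (by norm_num))
    (I.dt O.GD (fun _ => O.HD) o6cZ_Dp2500_0_0_0 o6cZ_Dm2500_0_0_0 rfl hf0 hf0
      (I.dt0 O.GD (fun _ => O.HD) o6cZ_Qp2700_0_0_0 o6cZ_Qm2700_0_0_0 rfl DT.nil A16 B36) A16 B36)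
    (d.qt (d.qt QT.nil))
    (I'.dk H.toGD (fun _ => H) K le_rfl h17 (by decide) p6cZ_Dm2500_90_260_0 rfl
      (d.dt H.toGD DT.nil) A10)
    (I.qt O.GD (fun _ => O.HD) o6cZ_Qp2500_90_260_0 o6cZ_Qm2500_90_260_0 rfl
      (I.qt O.GD (fun _ => O.HD) o6cZ_Qp2700_0_0_0 o6cZ_Qm2700_0_0_0 rfl QT.nil A16 B36) A16 B36)
    (by decide) (by decide) O.hys O.hxs hx'

theorem pr6cZs {xs ys T ρ xs' T' : ℝ} (O : OneB xs ys T ρ) (I : o6cZs.In T ρ xs ys)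
    (H : HD xs' ys T' ρ (10 / 100) (27 / 100)) (l : LH xs' ys T' ρ (10 / 100) (27 / 100))
    (d : DnG xs' T' (10 / 100) (27 / 100) ys ρ) (I' : p6cZs.In T' ρ xs' ys)
    (hx' : xs' ∈ Icc (10 / 100) (27 / 100)) (K : Kap xs' ys T' ρ (27 / 100)) (h17 : 17 / 100 ≤ xs')
    :
    Pr ys ρ xs T (16 / 100) (36 / 100) (fun _ => 0) (fun _ => 0) xs' T' (10 / 100) (27 / 100)
      (fun _ => 0) (fun _ => 0) :=
  Pr.of (tab := [⟨2500, 2700, 0, 0, 0, 0, 0⟩, ⟨2700, 5000, 0, 0, 0, 0, 0⟩])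
    (tab' := [⟨2500, 2700, 115, 220, 0, 0, 0⟩, ⟨2700, 5000, 0, 0, 0, 0, 0⟩])
    (O.LF I o6cZs_Wa o6cZs_Wb hf0) (l.toF hz0 hz0 (by norm_num) (by norm_num))
    (I.dt O.GD (fun _ => O.HD) o6cZs_Dp2500_0_0_0 o6cZs_Dm2500_0_0_0 rfl hf0 hf0
      (I.dt0 O.GD (fun _ => O.HD) o6cZs_Qp2700_0_0_0 o6cZs_Qm2700_0_0_0 rfl DT.nil A16 B36) A16 B36)
    (d.qt (d.qt QT.nil))
    (I'.dk H.toGD (fun _ => H) K le_rfl h17 (by decide) p6cZs_Dm2500_115_220_0 rfl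
      (d.dt H.toGD DT.nil) A10)
    (I.qt O.GD (fun _ => O.HD) o6cZs_Qp2500_115_220_0 o6cZs_Qm2500_115_220_0 rfl
      (I.qt O.GD (fun _ => O.HD) o6cZs_Qp2700_0_0_0 o6cZs_Qm2700_0_0_0 rfl QT.nil A16 B36) A16 B36)
    (by decide) (by decide) O.hys O.hxs hx'

end RC

end Pool.Agent.Work.MP_b30479_gtS.G2

end

section

/-!
# Rings on the level part: pairs of hinges
-/

namespace Pool.Agent.Work.MP_b30479_gtS.G2

open Real Set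

namespace RC

open R6

theorem pr7a2 {xs ys T ρ xs' T' : ℝ} (O : OneB xs ys T ρ) (I : o7a2.In T ρ xs ys)
    (H : HD xs' ys T' ρ (125 / 1000) (30 / 100)) (l : LH xs' ys T' ρ (125 / 1000) (30 / 100))
    (d : DnG xs' T' (125 / 1000) (30 / 100) ys ρ) (I' : p7a2.In T' ρ xs' ys)
    (hx' : xs' ∈ Icc (125 / 1000) (30 / 100)) :
    Pr ys ρ xs T (16 / 100) (36 / 100) (fun _ => 0) (fun _ => 0) xs' T' (125 / 1000) (30 / 100)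
      (fun _ => 0) (fun _ => 0) :=
  Pr.of (tab := [⟨2500, 2700, 0, 0, 0, 0, 0⟩, ⟨2700, 5000, 0, 0, 0, 0, 0⟩])
    (tab' := [⟨2500, 2700, 160, 220, 0, 0, 0⟩, ⟨2700, 5000, 0, 0, 0, 0, 0⟩])
    (O.LF I o7a2_Wa o7a2_Wb hf0) (l.toF hz0 hz0 (by norm_num) (by norm_num))
    (I.dt O.GD (fun _ => O.HD) o7a2_Dp2500_0_0_0 o7a2_Dm2500_0_0_0 rfl hf0 hf0
      (I.dt0 O.GD (fun _ => O.HD) o7a2_Qp2700_0_0_0 o7a2_Qm2700_0_0_0 rfl DT.nil A16 B36) A16 B36)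
    (d.qt (d.qt QT.nil))
    (I'.dt H.toGD (fun _ => H) p7a2_Dp2500_160_220_0 p7a2_Dm2500_160_220_0 rfl hf0 hf0
      (d.dt H.toGD DT.nil) A12 B30)
    (I.qt O.GD (fun _ => O.HD) o7a2_Qp2500_160_220_0 o7a2_Qm2500_160_220_0 rfl
      (I.qt O.GD (fun _ => O.HD) o7a2_Qp2700_0_0_0 o7a2_Qm2700_0_0_0 rfl QT.nil A16 B36) A16 B36)
    (by decide) (by decide) O.hys O.hxs hx'

theorem pr7a2e {xs ys T ρ xs' T' : ℝ} (O : OneB xs ys T ρ) (I : o7a2e.In T ρ xs ys)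
    (H : HD xs' ys T' ρ (125 / 1000) (30 / 100)) (l : LH xs' ys T' ρ (125 / 1000) (30 / 100))
    (d : DnG xs' T' (125 / 1000) (30 / 100) ys ρ) (I' : p7a2e.In T' ρ xs' ys)
    (hx' : xs' ∈ Icc (125 / 1000) (30 / 100)) :
    Pr ys ρ xs T (16 / 100) (36 / 100) (fun _ => 0) (fun _ => 0) xs' T' (125 / 1000) (30 / 100)
      (fun _ => 0) (fun _ => 0) :=
  Pr.of (tab := [⟨2500, 2700, 0, 0, 0, 0, 0⟩, ⟨2700, 5000, 0, 0, 0, 0, 0⟩])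
    (tab' := [⟨2500, 2700, 115, 180, 0, 0, 0⟩, ⟨2700, 5000, 0, 0, 0, 0, 0⟩])
    (O.LF I o7a2e_Wa o7a2e_Wb hf0) (l.toF hz0 hz0 (by norm_num) (by norm_num))
    (I.dt O.GD (fun _ => O.HD) o7a2e_Dp2500_0_0_0 o7a2e_Dm2500_0_0_0 rfl hf0 hf0
      (I.dt0 O.GD (fun _ => O.HD) o7a2e_Qp2700_0_0_0 o7a2e_Qm2700_0_0_0 rfl DT.nil A16 B36) A16 B36)
    (d.qt (d.qt QT.nil))
    (I'.dt H.toGD (fun _ => H) p7a2e_Dp2500_115_180_0 p7a2e_Dm2500_115_180_0 rfl hf0 hf0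
      (d.dt H.toGD DT.nil) A12 B30)
    (I.qt O.GD (fun _ => O.HD) o7a2e_Qp2500_115_180_0 o7a2e_Qm2500_115_180_0 rfl
      (I.qt O.GD (fun _ => O.HD) o7a2e_Qp2700_0_0_0 o7a2e_Qm2700_0_0_0 rfl QT.nil A16 B36) A16 B36)
    (by decide) (by decide) O.hys O.hxs hx'

theorem pr7a3 {xs ys T ρ xs' T' : ℝ} (O : OneB xs ys T ρ) (I : o7a3.In T ρ xs ys)
    (H : HD xs' ys T' ρ (12 / 100) (30 / 100)) (l : LH xs' ys T' ρ (12 / 100) (30 / 100))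
    (d : DnG xs' T' (12 / 100) (30 / 100) ys ρ) (I' : p7a3.In T' ρ xs' ys)
    (hx' : xs' ∈ Icc (12 / 100) (30 / 100)) :
    Pr ys ρ xs T (16 / 100) (36 / 100) (fun _ => 0) (fun _ => 0) xs' T' (12 / 100) (30 / 100)
      (fun _ => 0) (fun _ => 0) :=
  Pr.of (tab := [⟨2500, 2700, 0, 0, 0, 0, 0⟩, ⟨2700, 5000, 0, 0, 0, 0, 0⟩])
    (tab' := [⟨2500, 2700, 160, 180, 0, 0, 0⟩, ⟨2700, 5000, 0, 0, 0, 0, 0⟩])
    (O.LF I o7a3_Wa o7a3_Wb hf0) (l.toF hz0 hz0 (by norm_num) (by norm_num))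
    (I.dt O.GD (fun _ => O.HD) o7a3_Dp2500_0_0_0 o7a3_Dm2500_0_0_0 rfl hf0 hf0
      (I.dt0 O.GD (fun _ => O.HD) o7a3_Qp2700_0_0_0 o7a3_Qm2700_0_0_0 rfl DT.nil A16 B36) A16 B36)
    (d.qt (d.qt QT.nil))
    (I'.dt H.toGD (fun _ => H) p7a3_Dp2500_160_180_0 p7a3_Dm2500_160_180_0 rfl hf0 hf0
      (d.dt H.toGD DT.nil) A120 B30)
    (I.qt O.GD (fun _ => O.HD) o7a3_Qp2500_160_180_0 o7a3_Qm2500_160_180_0 rfl
      (I.qt O.GD (fun _ => O.HD) o7a3_Qp2700_0_0_0 o7a3_Qm2700_0_0_0 rfl QT.nil A16 B36) A16 B36)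
    (by decide) (by decide) O.hys O.hxs hx'

theorem pr7a3e {xs ys T ρ xs' T' : ℝ} (O : OneB xs ys T ρ) (I : o7a3e.In T ρ xs ys)
    (H : HD xs' ys T' ρ (10 / 100) (26 / 100)) (l : LH xs' ys T' ρ (10 / 100) (26 / 100))
    (d : DnG xs' T' (10 / 100) (26 / 100) ys ρ) (I' : p7a3e.In T' ρ xs' ys)
    (hx' : xs' ∈ Icc (10 / 100) (26 / 100)) :
    Pr ys ρ xs T (16 / 100) (36 / 100) (fun _ => 0) (fun _ => 0) xs' T' (10 / 100) (26 / 100)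
      (fun _ => 0) (fun _ => 0) :=
  Pr.of (tab := [⟨2500, 2700, 0, 0, 0, 0, 0⟩, ⟨2700, 5000, 0, 0, 0, 0, 0⟩])
    (tab' := [⟨2500, 2700, 160, 180, 0, 0, 0⟩, ⟨2700, 5000, 0, 0, 0, 0, 0⟩])
    (O.LF I o7a3e_Wa o7a3e_Wb hf0) (l.toF hz0 hz0 (by norm_num) (by norm_num))
    (I.dt O.GD (fun _ => O.HD) o7a3e_Dp2500_0_0_0 o7a3e_Dm2500_0_0_0 rfl hf0 hf0
      (I.dt0 O.GD (fun _ => O.HD) o7a3e_Qp2700_0_0_0 o7a3e_Qm2700_0_0_0 rfl DT.nil A16 B36) A16 B36)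
    (d.qt (d.qt QT.nil))
    (I'.dt H.toGD (fun _ => H) p7a3e_Dp2500_160_180_0 p7a3e_Dm2500_160_180_0 rfl hf0 hf0
      (d.dt H.toGD DT.nil) A10 B26)
    (I.qt O.GD (fun _ => O.HD) o7a3e_Qp2500_160_180_0 o7a3e_Qm2500_160_180_0 rfl
      (I.qt O.GD (fun _ => O.HD) o7a3e_Qp2700_0_0_0 o7a3e_Qm2700_0_0_0 rfl QT.nil A16 B36) A16 B36)
    (by decide) (by decide) O.hys O.hxs hx'

theorem pr7aZ {xs ys T ρ xs' T' : ℝ} (O : OneB xs ys T ρ) (I : o7aZ.In T ρ xs ys)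
    (H : HD xs' ys T' ρ (10 / 100) (27 / 100)) (l : LH xs' ys T' ρ (10 / 100) (27 / 100))
    (d : DnG xs' T' (10 / 100) (27 / 100) ys ρ) (I' : p7aZ.In T' ρ xs' ys)
    (hx' : xs' ∈ Icc (10 / 100) (27 / 100)) (K : Kap xs' ys T' ρ (27 / 100)) (h17 : 17 / 100 ≤ xs')
    :
    Pr ys ρ xs T (16 / 100) (36 / 100) (fun _ => 0) (fun _ => 0) xs' T' (10 / 100) (27 / 100)
      (fun _ => 0) (fun _ => 0) :=
  Pr.of (tab := [⟨2500, 2700, 0, 0, 0, 0, 0⟩, ⟨2700, 5000, 0, 0, 0, 0, 0⟩])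
    (tab' := [⟨2500, 2700, 90, 150, 0, 0, 0⟩, ⟨2700, 5000, 0, 0, 0, 0, 0⟩])
    (O.LF I o7aZ_Wa o7aZ_Wb hf0) (l.toF hz0 hz0 (by norm_num) (by norm_num))
    (I.dt O.GD (fun _ => O.HD) o7aZ_Dp2500_0_0_0 o7aZ_Dm2500_0_0_0 rfl hf0 hf0
      (I.dt0 O.GD (fun _ => O.HD) o7aZ_Qp2700_0_0_0 o7aZ_Qm2700_0_0_0 rfl DT.nil A16 B36) A16 B36)
    (d.qt (d.qt QT.nil))
    (I'.dk H.toGD (fun _ => H) K le_rfl h17 (by decide) p7aZ_Dm2500_90_150_0 rfl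
      (d.dt H.toGD DT.nil) A10)
    (I.qt O.GD (fun _ => O.HD) o7aZ_Qp2500_90_150_0 o7aZ_Qm2500_90_150_0 rfl
      (I.qt O.GD (fun _ => O.HD) o7aZ_Qp2700_0_0_0 o7aZ_Qm2700_0_0_0 rfl QT.nil A16 B36) A16 B36)
    (by decide) (by decide) O.hys O.hxs hx'

theorem pr7aZs {xs ys T ρ xs' T' : ℝ} (O : OneB xs ys T ρ) (I : o7aZs.In T ρ xs ys)
    (H : HD xs' ys T' ρ (10 / 100) (27 / 100)) (l : LH xs' ys T' ρ (10 / 100) (27 / 100))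
    (d : DnG xs' T' (10 / 100) (27 / 100) ys ρ) (I' : p7aZs.In T' ρ xs' ys)
    (hx' : xs' ∈ Icc (10 / 100) (27 / 100)) (K : Kap xs' ys T' ρ (27 / 100)) (h17 : 17 / 100 ≤ xs')
    :
    Pr ys ρ xs T (16 / 100) (36 / 100) (fun _ => 0) (fun _ => 0) xs' T' (10 / 100) (27 / 100)
      (fun _ => 0) (fun _ => 0) :=
  Pr.of (tab := [⟨2500, 2700, 0, 0, 0, 0, 0⟩, ⟨2700, 5000, 0, 0, 0, 0, 0⟩])
    (tab' := [⟨2500, 2700, 100, 150, 0, 0, 0⟩, ⟨2700, 5000, 0, 0, 0, 0, 0⟩])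
    (O.LF I o7aZs_Wa o7aZs_Wb hf0) (l.toF hz0 hz0 (by norm_num) (by norm_num))
    (I.dt O.GD (fun _ => O.HD) o7aZs_Dp2500_0_0_0 o7aZs_Dm2500_0_0_0 rfl hf0 hf0
      (I.dt0 O.GD (fun _ => O.HD) o7aZs_Qp2700_0_0_0 o7aZs_Qm2700_0_0_0 rfl DT.nil A16 B36) A16 B36)
    (d.qt (d.qt QT.nil))
    (I'.dk H.toGD (fun _ => H) K le_rfl h17 (by decide) p7aZs_Dm2500_100_150_0 rfl
      (d.dt H.toGD DT.nil) A10)
    (I.qt O.GD (fun _ => O.HD) o7aZs_Qp2500_100_150_0 o7aZs_Qm2500_100_150_0 rfl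
      (I.qt O.GD (fun _ => O.HD) o7aZs_Qp2700_0_0_0 o7aZs_Qm2700_0_0_0 rfl QT.nil A16 B36) A16 B36)
    (by decide) (by decide) O.hys O.hxs hx'

end RC

end Pool.Agent.Work.MP_b30479_gtS.G2

end

section

/-!
# Rings on the level part: pairs of hinges
-/

namespace Pool.Agent.Work.MP_b30479_gtS.G2

open Real Set

namespace RC

open R6

theorem pr7c2 {xs ys T ρ xs' T' : ℝ} (O : OneB xs ys T ρ) (I : o7c2.In T ρ xs ys)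
    (H : HD xs' ys T' ρ (125 / 1000) (30 / 100)) (l : LH xs' ys T' ρ (125 / 1000) (30 / 100))
    (d : DnG xs' T' (125 / 1000) (30 / 100) ys ρ)
    (hx' : xs' ∈ Icc (125 / 1000) (30 / 100)) :
    Pr ys ρ xs T (16 / 100) (36 / 100) (fun _ => 0) (fun _ => 0) xs' T' (125 / 1000) (30 / 100)
      (fun _ => 0) (fun _ => 0) :=
  Pr.of (tab := [⟨2500, 5000, 0, 0, 0, 0, 0⟩])
    (tab' := [⟨2500, 5000, 0, 0, 0, 0, 0⟩])
    (O.LF I o7c2_Wa o7c2_Wb hf0) (l.toF hz0 hz0 (by norm_num) (by norm_num))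
    (I.dt0 O.GD (fun _ => O.HD) o7c2_Qp2500_0_0_0 o7c2_Qm2500_0_0_0 rfl DT.nil A16 B36)
    (d.qt QT.nil)
    (d.dt H.toGD DT.nil)
    (I.qt O.GD (fun _ => O.HD) o7c2_Qp2500_0_0_0 o7c2_Qm2500_0_0_0 rfl QT.nil A16 B36)
    (by decide) (by decide) O.hys O.hxs hx'

theorem pr7c2e {xs ys T ρ xs' T' : ℝ} (O : OneB xs ys T ρ) (I : o7c2e.In T ρ xs ys)
    (H : HD xs' ys T' ρ (125 / 1000) (30 / 100)) (l : LH xs' ys T' ρ (125 / 1000) (30 / 100))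
    (d : DnG xs' T' (125 / 1000) (30 / 100) ys ρ)
    (hx' : xs' ∈ Icc (125 / 1000) (30 / 100)) :
    Pr ys ρ xs T (16 / 100) (36 / 100) (fun _ => 0) (fun _ => 0) xs' T' (125 / 1000) (30 / 100)
      (fun _ => 0) (fun _ => 0) :=
  Pr.of (tab := [⟨2500, 5000, 0, 0, 0, 0, 0⟩])
    (tab' := [⟨2500, 5000, 0, 0, 0, 0, 0⟩])
    (O.LF I o7c2e_Wa o7c2e_Wb hf0) (l.toF hz0 hz0 (by norm_num) (by norm_num))
    (I.dt0 O.GD (fun _ => O.HD) o7c2e_Qp2500_0_0_0 o7c2e_Qm2500_0_0_0 rfl DT.nil A16 B36)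
    (d.qt QT.nil)
    (d.dt H.toGD DT.nil)
    (I.qt O.GD (fun _ => O.HD) o7c2e_Qp2500_0_0_0 o7c2e_Qm2500_0_0_0 rfl QT.nil A16 B36)
    (by decide) (by decide) O.hys O.hxs hx'

theorem pr7c3 {xs ys T ρ xs' T' : ℝ} (O : OneB xs ys T ρ) (I : o7c3.In T ρ xs ys)
    (H : HD xs' ys T' ρ (12 / 100) (30 / 100)) (l : LH xs' ys T' ρ (12 / 100) (30 / 100))
    (d : DnG xs' T' (12 / 100) (30 / 100) ys ρ)
    (hx' : xs' ∈ Icc (12 / 100) (30 / 100)) :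
    Pr ys ρ xs T (16 / 100) (36 / 100) (fun _ => 0) (fun _ => 0) xs' T' (12 / 100) (30 / 100)
      (fun _ => 0) (fun _ => 0) :=
  Pr.of (tab := [⟨2500, 5000, 0, 0, 0, 0, 0⟩])
    (tab' := [⟨2500, 5000, 0, 0, 0, 0, 0⟩])
    (O.LF I o7c3_Wa o7c3_Wb hf0) (l.toF hz0 hz0 (by norm_num) (by norm_num))
    (I.dt0 O.GD (fun _ => O.HD) o7c3_Qp2500_0_0_0 o7c3_Qm2500_0_0_0 rfl DT.nil A16 B36)
    (d.qt QT.nil)
    (d.dt H.toGD DT.nil)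
    (I.qt O.GD (fun _ => O.HD) o7c3_Qp2500_0_0_0 o7c3_Qm2500_0_0_0 rfl QT.nil A16 B36)
    (by decide) (by decide) O.hys O.hxs hx'

theorem pr7c3e {xs ys T ρ xs' T' : ℝ} (O : OneB xs ys T ρ) (I : o7c3e.In T ρ xs ys)
    (H : HD xs' ys T' ρ (10 / 100) (26 / 100)) (l : LH xs' ys T' ρ (10 / 100) (26 / 100))
    (d : DnG xs' T' (10 / 100) (26 / 100) ys ρ)
    (hx' : xs' ∈ Icc (10 / 100) (26 / 100)) :
    Pr ys ρ xs T (16 / 100) (36 / 100) (fun _ => 0) (fun _ => 0) xs' T' (10 / 100) (26 / 100)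
      (fun _ => 0) (fun _ => 0) :=
  Pr.of (tab := [⟨2500, 5000, 0, 0, 0, 0, 0⟩])
    (tab' := [⟨2500, 5000, 0, 0, 0, 0, 0⟩])
    (O.LF I o7c3e_Wa o7c3e_Wb hf0) (l.toF hz0 hz0 (by norm_num) (by norm_num))
    (I.dt0 O.GD (fun _ => O.HD) o7c3e_Qp2500_0_0_0 o7c3e_Qm2500_0_0_0 rfl DT.nil A16 B36)
    (d.qt QT.nil)
    (d.dt H.toGD DT.nil)
    (I.qt O.GD (fun _ => O.HD) o7c3e_Qp2500_0_0_0 o7c3e_Qm2500_0_0_0 rfl QT.nil A16 B36)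
    (by decide) (by decide) O.hys O.hxs hx'

theorem pr7cZ {xs ys T ρ xs' T' : ℝ} (O : OneB xs ys T ρ) (I : o7cZ.In T ρ xs ys)
    (H : HD xs' ys T' ρ (10 / 100) (27 / 100)) (l : LH xs' ys T' ρ (10 / 100) (27 / 100))
    (d : DnG xs' T' (10 / 100) (27 / 100) ys ρ)
    (hx' : xs' ∈ Icc (10 / 100) (27 / 100)) :
    Pr ys ρ xs T (16 / 100) (36 / 100) (fun _ => 0) (fun _ => 0) xs' T' (10 / 100) (27 / 100)
      (fun _ => 0) (fun _ => 0) :=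
  Pr.of (tab := [⟨2500, 5000, 0, 0, 0, 0, 0⟩])
    (tab' := [⟨2500, 5000, 0, 0, 0, 0, 0⟩])
    (O.LF I o7cZ_Wa o7cZ_Wb hf0) (l.toF hz0 hz0 (by norm_num) (by norm_num))
    (I.dt0 O.GD (fun _ => O.HD) o7cZ_Qp2500_0_0_0 o7cZ_Qm2500_0_0_0 rfl DT.nil A16 B36)
    (d.qt QT.nil)
    (d.dt H.toGD DT.nil)
    (I.qt O.GD (fun _ => O.HD) o7cZ_Qp2500_0_0_0 o7cZ_Qm2500_0_0_0 rfl QT.nil A16 B36)
    (by decide) (by decide) O.hys O.hxs hx'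

theorem pr7cZs {xs ys T ρ xs' T' : ℝ} (O : OneB xs ys T ρ) (I : o7cZs.In T ρ xs ys)
    (H : HD xs' ys T' ρ (10 / 100) (27 / 100)) (l : LH xs' ys T' ρ (10 / 100) (27 / 100))
    (d : DnG xs' T' (10 / 100) (27 / 100) ys ρ)
    (hx' : xs' ∈ Icc (10 / 100) (27 / 100)) :
    Pr ys ρ xs T (16 / 100) (36 / 100) (fun _ => 0) (fun _ => 0) xs' T' (10 / 100) (27 / 100)
      (fun _ => 0) (fun _ => 0) :=
  Pr.of (tab := [⟨2500, 5000, 0, 0, 0, 0, 0⟩])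
    (tab' := [⟨2500, 5000, 0, 0, 0, 0, 0⟩])
    (O.LF I o7cZs_Wa o7cZs_Wb hf0) (l.toF hz0 hz0 (by norm_num) (by norm_num))
    (I.dt0 O.GD (fun _ => O.HD) o7cZs_Qp2500_0_0_0 o7cZs_Qm2500_0_0_0 rfl DT.nil A16 B36)
    (d.qt QT.nil)
    (d.dt H.toGD DT.nil)
    (I.qt O.GD (fun _ => O.HD) o7cZs_Qp2500_0_0_0 o7cZs_Qm2500_0_0_0 rfl QT.nil A16 B36)
    (by decide) (by decide) O.hys O.hxs hx'

end RC

end Pool.Agent.Work.MP_b30479_gtS.G2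

end

section

/-!
# Rings on the level part: the windows of the location facts in real form
-/

namespace Pool.Agent.Work.MP_b30479_gtS.G2

open Finset VOL Filter Topology

namespace SR

/-- the bounds in real form: `x = xs`, `s = 1/2 - ys`, `t = T`, `r = ρ` -/
structure R4.Re (B : R4) (xs ys T ρ : ℝ) : Prop where
  x0 : B.x0 ≤ xs
  x1 : xs ≤ B.x1
  s0 : B.s0 ≤ 1 / 2 - ys
  s1 : 1 / 2 - ys ≤ B.s1
  q0 : B.q0 ≤ ρ - T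
  q1 : ρ - T ≤ B.q1
  r0 : B.r0 ≤ ρ
  r1 : ρ ≤ B.r1
  t0 : B.t0 ≤ T
  t1 : T ≤ B.t1
  c1 : xs + (1 / 2 - ys) ≤ B.c1
  cr : xs + (1 / 2 - ys) ≤ B.cr + ρ

/-- the window of a list of bounds -/
def wd4 (x0 x1 s0 s1 q0 q1 r0 r1 t0 t1 c1 cr : ℤ) : RC.Wd :=
  ⟨(t0 + 2000).toNat, (t1 + 2000).toNat, r0.toNat, r1.toNat, x0.toNat, x1.toNat,
    (5000 - s1).toNat, (5000 - s0).toNat,
    [⟨1, 0, 0, 1, 0, 0, 0, 0, (-q0).toNat, q0.toNat⟩,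
     ⟨0, 1, 1, 0, 0, 0, 0, 0, q1.toNat, (-q1).toNat⟩,
     ⟨0, 0, 0, 0, 1, 0, 0, 1, (c1 - 5000).toNat, (5000 - c1).toNat⟩,
     ⟨0, 0, 0, 1, 1, 0, 0, 1, (cr - 5000).toNat, (5000 - cr).toNat⟩]⟩

theorem toNat_real {z : ℤ} (h : 0 ≤ z) : ((z.toNat : ℕ) : ℝ) = z := by
  have := Int.toNat_of_nonneg h
  exact_mod_cast this

theorem toNat_sub' (z w : ℤ) (h : w = -z) : ((z.toNat : ℕ) : ℝ) - ((w.toNat : ℕ) : ℝ) = z := by
  subst h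
  rcases le_total 0 z with h | h
  · rw [toNat_real h, Int.toNat_of_nonpos (by omega)]
    simp
  · rw [toNat_real (show 0 ≤ -z by omega), Int.toNat_of_nonpos h]
    push_cast
    ring

section
variable {x0 x1 s0 s1 q0 q1 r0 r1 t0 t1 c1 cr : ℤ} {xs ys T ρ : ℝ}

theorem wd4_in (h : (mk4 x0 x1 s0 s1 q0 q1 r0 r1 t0 t1 c1 cr).Re xs ys T ρ)
    (h0 : 0 ≤ x0 ∧ 0 ≤ x1 ∧ s1 ≤ 5000 ∧ s0 ≤ 5000 ∧ 0 ≤ r0 ∧ 0 ≤ r1 ∧ -2000 ≤ t0 ∧ -2000 ≤ t1) :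
    (wd4 x0 x1 s0 s1 q0 q1 r0 r1 t0 t1 c1 cr).In T ρ xs ys := by
  obtain ⟨a1, a2, a3, a4, a5, a6, a7, a8⟩ := h0
  obtain ⟨b1, b2, b3, b4, b5, b6, b7, b8, b9, b10, b11, b12⟩ := h
  simp only [mk4] at b1 b2 b3 b4 b5 b6 b7 b8 b9 b10 b11 b12
  constructor
  · simp only [wd4]
    rw [toNat_real (by omega)]
    push_cast
    linarith only [b9]
  · simp only [wd4]
    rw [toNat_real (by omega)]
    push_cast
    linarith only [b10]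
  · simp only [wd4]
    rw [toNat_real a5]
    linarith only [b7]
  · simp only [wd4]
    rw [toNat_real a6]
    linarith only [b8]
  · simp only [wd4]
    rw [toNat_real a1]
    linarith only [b1]
  · simp only [wd4]
    rw [toNat_real a2]
    linarith only [b2]
  · simp only [wd4]
    rw [toNat_real (by omega)]
    push_cast
    linarith only [b4]
  · simp only [wd4]
    rw [toNat_real (by omega)]
    push_cast
    linarith only [b3]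
  · intro l hl
    simp only [wd4, List.mem_cons, List.not_mem_nil, or_false] at hl
    rcases hl with rfl | rfl | rfl | rfl <;> unfold R6.LC.ok <;> simp only
    · rw [toNat_sub' (-q0) q0 (by ring)]
      push_cast
      linarith only [b5]
    · rw [toNat_sub' q1 (-q1) (by ring)]
      push_cast
      linarith only [b6]
    · rw [toNat_sub' (c1 - 5000) (5000 - c1) (by ring)]
      push_cast
      linarith only [b11]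
    · rw [toNat_sub' (cr - 5000) (5000 - cr) (by ring)]
      push_cast
      linarith only [b12]

end

variable {M : ℕ} {b : Fin (M + 1) → ℤ} {zs : DD (tyW b) ⊕ ZZ (tyW b) → ℂ}
variable {h : Fin M} {i j : Fin (M + 1)} {p : Fin 3} {v : ZZ (tyW b)}

theorem R4.In.re {B : R4} {xs T ρ ys : ℝ} {y z : ℂ} (I : B.In y z) (h1 : y.re = xs)
    (h2 : y.im = T) (h3 : z.re = ys - 1 / 2) (h4 : z.im = ρ) : B.Re xs ys T ρ := by
  obtain ⟨b1, b2, b3, b4, b5, b6, b7, b8, b9, b10, b11, b12⟩ := I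
  rw [h1] at b1 b2 b11 b12
  rw [h2] at b5 b6 b9 b10
  rw [h3] at b3 b4 b11 b12
  rw [h4] at b5 b6 b7 b8 b12
  constructor <;> linarith only [b1, b2, b3, b4, b5, b6, b7, b8, b9, b10, b11, b12]

/-- a window at a hinge of a ring in real form -/
theorem R4.In.adj {B : R4} (_ : Adj h i p j) (hv : v.1 = i)
    (I : B.In (ofr (b i) (zs (.inl (.inl h)))) (ofz (b i) (zs (.inr v)))) :
    B.Re (zs (.inl (.inl h))).re (1 / 2 + ofs (b i) (zs (.inr v)).re)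
      (ofs (b i) (zs (.inl (.inl h))).im) (zs (.inr v)).im := by
  subst hv
  exact I.re (ofr_re _ _) (ofr_im _ _) (by rw [ofz_re]; ring) (ofz_im _ _)

end SR

end Pool.Agent.Work.MP_b30479_gtS.G2

end

section

/-!
# Rings on the level part: further bounds
-/

namespace Pool.Agent.Work.MP_b30479_gtS.G2

open Finset VOL Filter Topology

namespace SR

section
variable {x0 x1 s0 s1 q0 q1 r0 r1 t0 t1 c1 cr : ℤ} {xs ys T ρ xs' T' : ℝ}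

theorem R4.Re.xlo (h : (mk4 x0 x1 s0 s1 q0 q1 r0 r1 t0 t1 c1 cr).Re xs ys T ρ) (hd : 2563 ≤ x0) :
    2563 / 10000 ≤ xs := by
  have k : (2563 : ℝ) ≤ x0 := by exact_mod_cast hd
  have := h.x0
  simp only [mk4] at this
  linarith

theorem R4.Re.tlo4 (h : (mk4 x0 x1 s0 s1 q0 q1 r0 r1 t0 t1 c1 cr).Re xs ys T ρ)
    (hd : -1280 ≤ t0) : -(128 / 1000) ≤ T := by
  have k : (-1280 : ℝ) ≤ t0 := by exact_mod_cast hd
  have := h.t0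
  simp only [mk4] at this
  linarith

theorem R4.Re.tlo5 (h : (mk4 x0 x1 s0 s1 q0 q1 r0 r1 t0 t1 c1 cr).Re xs ys T ρ)
    (hd : -1380 ≤ t0) : -(138 / 1000) ≤ T := by
  have k : (-1380 : ℝ) ≤ t0 := by exact_mod_cast hd
  have := h.t0
  simp only [mk4] at this
  linarith

end

/-- bounds at `2 | 1 | 4 | k` -/
structure Bd4 (k : Cl) (s : Bool) (xs ys T ρ : ℝ) : Prop where
  x : xs ≤ ((2980 : ℤ) : ℝ) / 10000
  c : xs + (1 / 2 - ys) ≤ ((4826 : ℤ) : ℝ) / 10000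
  kp : xs - (ka4 k s : ℝ) / 10000 ≤ ρ - T
  r : k = .ring → s = true → ρ ≤ ((750 : ℤ) : ℝ) / 10000

/-- bounds at `2 | 1 | 5 | k` -/
structure Bd5 (k : Cl) (s : Bool) (xs ys T ρ : ℝ) : Prop where
  kp : xs - (ka5 k s : ℝ) / 10000 ≤ ρ - T
  e : k = .twoE → ((240 : ℤ) : ℝ) / 10000 ≤ ρ
  z : k = .ring → s = true → (rk5 .ring true).Re xs ys T ρ

/-- the hinge of two rings -/
structure Rg (s : Bool) (xs T : ℝ) : Prop where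
  x0 : ((cond s 1700 1820 : ℤ) : ℝ) / 10000 ≤ xs
  x1 : xs ≤ ((2520 : ℤ) : ℝ) / 10000
  t0 : ((cond s (-10) (-385) : ℤ) : ℝ) / 10000 ≤ T
  t1 : T ≤ ((cond s 465 385 : ℤ) : ℝ) / 10000

theorem Rg.re {x0 x1 s0 s1 q0 q1 r0 r1 t0 t1 c1 cr : ℤ} {xs ys T ρ xs' T' : ℝ} {s : Bool}
    (h : (mk4 x0 x1 s0 s1 q0 q1 r0 r1 t0 t1 c1 cr).Re xs ys T ρ) (g : Rg s xs' T')
    {X0 q0' q1' t0' t1' c' : ℤ} (hd : X0 = cond s 1700 1820 ∧ t0' = cond s (-10) (-385) ∧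
      t1' = cond s 465 385 ∧ q0' = r0 - t1' ∧ q1' = r1 - t0' ∧ c' = 2520 + s1 ∧ 0 ≤ r0) :
    (mk4 X0 2520 s0 s1 q0' q1' r0 r1 t0' t1' c' c').Re xs' ys T' ρ := by
  obtain ⟨rfl, rfl, rfl, rfl, rfl, rfl, d7⟩ := hd
  have k7 : (0 : ℝ) ≤ r0 := by exact_mod_cast d7
  obtain ⟨b1, b2, b3, b4, b5, b6, b7, b8, b9, b10, b11, b12⟩ := h
  obtain ⟨g1, g2, g3, g4⟩ := g
  simp only [mk4] at b1 b2 b3 b4 b5 b6 b7 b8 b9 b10 b11 b12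
  have hr : 0 ≤ ρ := by
    have : (0 : ℝ) ≤ (r0 : ℝ) / 10000 := by positivity
    linarith
  refine ⟨g1, g2, b3, b4, ?_, ?_, b7, b8, g3, g4, ?_, ?_⟩ <;> simp only [mk4] <;> push_cast at g1 g2 g3 g4 ⊢ <;> linarith

/-- the other hinge of a ring with at least seven crossings -/
def P7 (r : Cl → R4) (k : Cl) (s : Bool) (xs ys T ρ : ℝ) : Prop :=
  (k ≠ .ring → (r k).Re xs ys T ρ) ∧ (k = .ring → Rg s xs T)

end SR

end Pool.Agent.Work.MP_b30479_gtS.G2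

end

section

/-!
# Rings on the level part: membership of the windows
-/

set_option deprecated.oldSectionVars true

namespace Pool.Agent.Work.MP_b30479_gtS.G2

open Finset VOL Filter Topology

namespace RC

namespace Row

open NumIs NumIs.E

theorem cH8 : chk (h2l 4210 1885 0 1885) 20 [V.of 10000 2170 2990, V.of 10000 0 1474] = true := by
  decide +kernel

end Row

/-- cut at an upper bound of `xs` -/
theorem Wd.In.cut {W : Wd} {xs ys T ρ : ℝ} (I : W.In T ρ xs ys) {n : ℕ} (h : xs ≤ (n : ℝ) / 10000) :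
    (Wd.mk W.t0 W.t1 W.r0 W.r1 W.x0 n W.y0 W.y1 W.ws).In T ρ xs ys :=
  ⟨I.t0, I.t1, I.r0, I.r1, I.x0, h, I.y0, I.y1, I.ws⟩

end RC

namespace SR

/-- the window of a list of bounds and `x - q ≤ κ` -/
def wdk (x0 x1 s0 s1 q0 q1 r0 r1 t0 t1 c1 cr : ℤ) (k : ℕ) : RC.Wd :=
  ⟨(t0 + 2000).toNat, (t1 + 2000).toNat, r0.toNat, r1.toNat, x0.toNat, x1.toNat,
    (5000 - s1).toNat, (5000 - s0).toNat,
    [⟨1, 0, 0, 1, 0, 0, 0, 0, (-q0).toNat, q0.toNat⟩,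
     ⟨0, 1, 1, 0, 0, 0, 0, 0, q1.toNat, (-q1).toNat⟩,
     ⟨0, 0, 0, 0, 1, 0, 0, 1, (c1 - 5000).toNat, (5000 - c1).toNat⟩,
     ⟨0, 0, 0, 1, 1, 0, 0, 1, (cr - 5000).toNat, (5000 - cr).toNat⟩,
     ⟨1, 0, 0, 1, 1, 0, 0, 0, k, 0⟩]⟩

section
set_option deprecated.oldSectionVars false
variable {x0 x1 s0 s1 q0 q1 r0 r1 t0 t1 c1 cr : ℤ} {xs ys T ρ : ℝ}
set_option deprecated.oldSectionVars false
variable {x0' x1' s0' s1' q0' q1' r0' r1' t0' t1' c1' cr' : ℤ} {xs' T' : ℝ}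

theorem wdk_in (h : (mk4 x0 x1 s0 s1 q0 q1 r0 r1 t0 t1 c1 cr).Re xs ys T ρ)
    (h0 : 0 ≤ x0 ∧ 0 ≤ x1 ∧ s1 ≤ 5000 ∧ s0 ≤ 5000 ∧ 0 ≤ r0 ∧ 0 ≤ r1 ∧ -2000 ≤ t0 ∧ -2000 ≤ t1)
    {k : ℕ} (hk : xs - (k : ℝ) / 10000 ≤ ρ - T) :
    (wdk x0 x1 s0 s1 q0 q1 r0 r1 t0 t1 c1 cr k).In T ρ xs ys := by
  have I := wd4_in h h0
  refine ⟨I.t0, I.t1, I.r0, I.r1, I.x0, I.x1, I.y0, I.y1, fun l hl => ?_⟩
  simp only [wdk, List.mem_cons, List.not_mem_nil, or_false] at hl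
  rcases hl with rfl | rfl | rfl | rfl | rfl
  · exact I.ws _ (by simp [wd4])
  · exact I.ws _ (by simp [wd4])
  · exact I.ws _ (by simp [wd4])
  · exact I.ws _ (by simp [wd4])
  · unfold R6.LC.ok
    simp only
    push_cast
    linarith only [hk]

/-- larger bounds -/
theorem R4.Re.sub (h : (mk4 x0 x1 s0 s1 q0 q1 r0 r1 t0 t1 c1 cr).Re xs ys T ρ)
    (hd : x0' ≤ x0 ∧ x1 ≤ x1' ∧ s0' ≤ s0 ∧ s1 ≤ s1' ∧ q0' ≤ q0 ∧ q1 ≤ q1' ∧ r0' ≤ r0 ∧ r1 ≤ r1' ∧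
      t0' ≤ t0 ∧ t1 ≤ t1' ∧ c1 ≤ c1' ∧ cr ≤ cr') :
    (mk4 x0' x1' s0' s1' q0' q1' r0' r1' t0' t1' c1' cr').Re xs ys T ρ := by
  obtain ⟨a1, a2, a3, a4, a5, a6, a7, a8, a9, a10, a11, a12⟩ := hd
  obtain ⟨b1, b2, b3, b4, b5, b6, b7, b8, b9, b10, b11, b12⟩ := h
  have c : ∀ {m n : ℤ}, m ≤ n → (m : ℝ) / 10000 ≤ (n : ℝ) / 10000 := fun {m n} h => by
    have : (m : ℝ) ≤ n := by exact_mod_cast h
    linarith only [this]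
  exact ⟨(c a1).trans b1, b2.trans (c a2), (c a3).trans b3, b4.trans (c a4), (c a5).trans b5,
    b6.trans (c a6), (c a7).trans b7, b8.trans (c a8), (c a9).trans b9, b10.trans (c a10),
    b11.trans (c a11), b12.trans (by
      have := c a12
      change (cr : ℝ) / 10000 + ρ ≤ (cr' : ℝ) / 10000 + ρ
      linarith only [this])⟩

/-- the bounds of `s` and `ρ` at the other hinge -/
theorem R4.Re.int (h : (mk4 x0 x1 s0 s1 q0 q1 r0 r1 t0 t1 c1 cr).Re xs ys T ρ)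
    (h' : (mk4 x0' x1' s0' s1' q0' q1' r0' r1' t0' t1' c1' cr').Re xs' ys T' ρ) {s2 s3 r2 r3 : ℤ}
    (hd : (s2 = s0 ∨ s2 = s0') ∧ (s3 = s1 ∨ s3 = s1') ∧ (r2 = r0 ∨ r2 = r0') ∧
      (r3 = r1 ∨ r3 = r1')) : (mk4 x0 x1 s2 s3 q0 q1 r2 r3 t0 t1 c1 cr).Re xs ys T ρ := by
  obtain ⟨a1, a2, a3, a4⟩ := hd
  refine ⟨h.x0, h.x1, ?_, ?_, h.q0, h.q1, ?_, ?_, h.t0, h.t1, h.c1, h.cr⟩
  · rcases a1 with rfl | rfl
    · exact h.s0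
    · exact h'.s0
  · rcases a2 with rfl | rfl
    · exact h.s1
    · exact h'.s1
  · rcases a3 with rfl | rfl
    · exact h.r0
    · exact h'.r0
  · rcases a4 with rfl | rfl
    · exact h.r1
    · exact h'.r1

/-- the facts about a hinge next to a digit `1` -/
theorem R4.Re.oneB (h : (mk4 x0 x1 s0 s1 q0 q1 r0 r1 t0 t1 c1 cr).Re xs ys T ρ)
    {c q X0 X1 S0 S1 : ℤ} {n : ℕ}
    (C : NumIs.chk (RC.Row.h2l c q 0 q) n [NumIs.V.of 10000 X0 X1, NumIs.V.of 10000 S0 S1] = true)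
    (hd : X0 ≤ x0 ∧ x1 ≤ X1 ∧ S0 ≤ s0 ∧ s1 ≤ S1 ∧ c1 ≤ c ∧ q1 ≤ q ∧ -q ≤ q0 ∧ 2160 ≤ x0 ∧
      x1 ≤ 2990 ∧ c1 ≤ 4826 ∧ s1 < 2500 ∧ 0 ≤ s0 ∧ t1 ≤ 0 ∧ -1580 ≤ t0 ∧ 0 ≤ r0 ∧ r1 ≤ 1000 ∧
      q1 ≤ 2000) : RC.OneB xs ys T ρ := by
  obtain ⟨d1, d2, d3, d4, d5, d6, d7, d8, d9, d10, d11, d12, d13, d14, d15, d16, d17⟩ := hd
  have k1 : (X0 : ℝ) ≤ x0 := by exact_mod_cast d1
  have k2 : (x1 : ℝ) ≤ X1 := by exact_mod_cast d2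
  have k3 : (S0 : ℝ) ≤ s0 := by exact_mod_cast d3
  have k4 : (s1 : ℝ) ≤ S1 := by exact_mod_cast d4
  have k5 : (c1 : ℝ) ≤ c := by exact_mod_cast d5
  have k6 : (q1 : ℝ) ≤ q := by exact_mod_cast d6
  have k7 : -(q : ℝ) ≤ q0 := by exact_mod_cast d7
  have k8 : (2160 : ℝ) ≤ x0 := by exact_mod_cast d8
  have k9 : (x1 : ℝ) ≤ 2990 := by exact_mod_cast d9
  have k10 : (c1 : ℝ) ≤ 4826 := by exact_mod_cast d10
  have k11 : (s1 : ℝ) < 2500 := by exact_mod_cast d11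
  have k12 : (0 : ℝ) ≤ s0 := by exact_mod_cast d12
  have k13 : (t1 : ℝ) ≤ 0 := by exact_mod_cast d13
  have k14 : (-1580 : ℝ) ≤ t0 := by exact_mod_cast d14
  have k15 : (0 : ℝ) ≤ r0 := by exact_mod_cast d15
  have k16 : (r1 : ℝ) ≤ 1000 := by exact_mod_cast d16
  have k17 : (q1 : ℝ) ≤ 2000 := by exact_mod_cast d17
  obtain ⟨b1, b2, b3, b4, b5, b6, b7, b8, b9, b10, b11, b12⟩ := h
  simp only [mk4] at b1 b2 b3 b4 b5 b6 b7 b8 b9 b10 b11 b12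
  have hq : |T - ρ| ≤ (q : ℝ) / 10000 := by
    rw [abs_le]
    constructor <;> linarith only [k6, b6, k7, b5]
  refine ⟨by linarith only [k8, b1], by linarith only [k9, b2], by linarith only [k10, b11], by linarith only [k11, b4], by linarith only [k12, b3], by linarith only [k13, b10],
    by linarith only [k14, b9], by linarith only [k15, b7], by linarith only [k16, b8], by linarith only [k17, b6], ?_⟩
  refine RC.Row.H2_of C ⟨by linarith only [k8, b1], by linarith only [k9, b2]⟩ ⟨by linarith only [k11, b4], by linarith only [k12, b3]⟩ (by linarith only [k1, b1])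
    (by linarith only [k2, b2]) (by linarith only [k3, b3]) (by linarith only [k4, b4]) (by linarith only [k5, b11]) hq (by push_cast; linarith only [hq])

end

section
set_option deprecated.oldSectionVars false
variable {x0 x1 s0 s1 q0 q1 r0 r1 t0 t1 c1 cr : ℤ} {xs ys T ρ : ℝ}

/-- the geometric data at a hinge to a digit `2` at an end -/
theorem R4.Re.gd (h : (mk4 x0 x1 s0 s1 q0 q1 r0 r1 t0 t1 c1 cr).Re xs ys T ρ)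
    (hd : 1250 ≤ x0 ∧ x1 ≤ 2400 ∧ 0 ≤ s0 ∧ s1 ≤ 2500) :
    RC.GD xs ys (125 / 1000) (30 / 100) := by
  obtain ⟨d1, d2, d3, d4⟩ := hd
  have k1 : (1250 : ℝ) ≤ x0 := by exact_mod_cast d1
  have k2 : (x1 : ℝ) ≤ 2400 := by exact_mod_cast d2
  have k3 : (0 : ℝ) ≤ s0 := by exact_mod_cast d3
  have k4 : (s1 : ℝ) ≤ 2500 := by exact_mod_cast d4
  obtain ⟨b1, b2, b3, b4, -, -, -, -, -, -, -, -⟩ := h
  simp only [mk4] at b1 b2 b3 b4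
  exact ⟨by norm_num, by norm_num, by linarith only [k1, b1], by linarith only [k2, b2], by linarith only [k2, k4, b2, b4], by linarith only [k4, b4],
    by linarith only [k3, b3]⟩

/-- the contribution of a hinge to a digit `2` at an end, ring variable up -/
theorem R4.Re.up (h : (mk4 x0 x1 s0 s1 q0 q1 r0 r1 t0 t1 c1 cr).Re xs ys T ρ)
    (G : RC.GD xs ys (125 / 1000) (30 / 100)) {c q X0 X1 S0 S1 : ℤ} {n : ℕ}
    (C : NumIs.chk (RC.Row.hul c q) n [NumIs.V.of 10000 X0 X1, NumIs.V.of 10000 S0 S1] = true)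
    (hd : X0 ≤ x0 ∧ x1 ≤ X1 ∧ S0 ≤ s0 ∧ s1 ≤ S1 ∧ c1 ≤ c ∧ q1 ≤ q ∧ -q ≤ q0 ∧ q ≤ 2000) :
    ∀ x y, x ∈ Set.Icc (125 / 1000 : ℝ) (30 / 100) → ys < y → y ≤ 1 / 2 →
      |gh x - gh xs| < gh y - gh ys → RC.Dx x y T ρ < RC.Dx xs ys T ρ := by
  obtain ⟨d1, d2, d3, d4, d5, d6, d7, d8⟩ := hd
  have k1 : (X0 : ℝ) ≤ x0 := by exact_mod_cast d1
  have k2 : (x1 : ℝ) ≤ X1 := by exact_mod_cast d2
  have k3 : (S0 : ℝ) ≤ s0 := by exact_mod_cast d3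
  have k4 : (s1 : ℝ) ≤ S1 := by exact_mod_cast d4
  have k5 : (c1 : ℝ) ≤ c := by exact_mod_cast d5
  have k6 : (q1 : ℝ) ≤ q := by exact_mod_cast d6
  have k7 : -(q : ℝ) ≤ q0 := by exact_mod_cast d7
  obtain ⟨b1, b2, b3, b4, b5, b6, b7, b8, b9, b10, b11, b12⟩ := h
  simp only [mk4] at b1 b2 b3 b4 b5 b6 b7 b8 b9 b10 b11 b12
  refine G.upc C (by linarith only [k1, b1]) (by linarith only [k2, b2]) (by linarith only [k3, b3]) (by linarith only [k4, b4]) (by linarith only [k5, b11]) ?_ d8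
  rw [abs_le]
  constructor <;> linarith only [k6, b6, k7, b5]

/-- kappa for small heights -/
theorem R4.Re.kap (h : (mk4 x0 x1 s0 s1 q0 q1 r0 r1 t0 t1 c1 cr).Re xs ys T ρ)
    (hd : 1700 ≤ x0 ∧ 0 ≤ s0 ∧ c1 ≤ 4800) (hT : |T| ≤ 47 / 1000) :
    RC.Kap xs ys T ρ (27 / 100) ∧ 17 / 100 ≤ xs := by
  obtain ⟨d1, d2, d3⟩ := hd
  have k1 : (1700 : ℝ) ≤ x0 := by exact_mod_cast d1
  have k2 : (0 : ℝ) ≤ s0 := by exact_mod_cast d2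
  have k3 : (c1 : ℝ) ≤ 4800 := by exact_mod_cast d3
  obtain ⟨b1, -, b3, -, -, -, -, -, -, -, b11, -⟩ := h
  simp only [mk4] at b1 b3 b11
  exact ⟨RC.Kap.of (by linarith only [k1, b1]) le_rfl (by linarith only [k2, b3]) (by linarith only [k3, b11]) hT, by linarith only [k1, b1]⟩

end

/-- the slack upwards at a hinge next to a digit `1` with class `C` behind -/
def FS (n : ℕ) (C : Cl) (xs T : ℝ) (f : ℝ → ℝ) : Prop :=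
  f = (fun _ => 0) ∨ (C = .two ∧ 2563 / 10000 ≤ xs ∧
    ((n = 4 ∧ -(128 / 1000) ≤ T ∧ f = fun m => 38 / 100 * m) ∨
      (5 ≤ n ∧ -(138 / 1000) ≤ T ∧ f = fun m => 355 / 1000 * m)))

/-- the slack downwards -/
def GS (n : ℕ) (k : Cl) (g : ℝ → ℝ) : Prop :=
  g = (fun _ => 0) ∨ (k = .twoE ∧ n = 4 ∧ g = fun m => 1 / 2 * m)

/-- the data of a hinge without exceptions -/
def Lo (k : Cl) (xs ys T ρ : ℝ) : Prop :=
  RC.HD xs ys T ρ (fcl k) (fcp k) ∧ RC.LH xs ys T ρ (fcl k) (fcp k) ∧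
    RC.DnG xs T (fcl k) (fcp k) ys ρ

/-- the pair of hinges of a ring between a digit `1` with `C` behind and class `k` -/
def PrS (n : ℕ) (C k : Cl) (xs ys T ρ xs' T' : ℝ) : Prop :=
  ∃ f g', FS n C xs T f ∧ GS n k g' ∧
    RC.Pr ys ρ xs T (16 / 100) (36 / 100) f (fun _ => 0) xs' T' (fcl k) (fcp k) (fun _ => 0) g'

/-- both hinges next to digits `1` -/
def PrO (n : ℕ) (C C' : Cl) (xs ys T ρ xs' T' : ℝ) : Prop :=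
  ∃ f f', FS n C xs T f ∧ FS n C' xs' T' f' ∧
    RC.Pr ys ρ xs T (16 / 100) (36 / 100) f (fun _ => 0) xs' T' (16 / 100) (36 / 100) f'
      (fun _ => 0)

/-- a ring at an end next to a digit `1` -/
def EnS (n : ℕ) (C : Cl) (xs ys T ρ : ℝ) : Prop :=
  ∃ f, FS n C xs T f ∧ RC.En xs ys T ρ (16 / 100) (36 / 100) f (fun _ => 0)

/-- one hinge of a ring between two digits `1` -/
structure OKt (t : Cl → List RC.Te) (P : Cl → Prop) (C : Cl) (xs ys T ρ : ℝ) (f : ℝ → ℝ) :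
    Prop where
  lf : RC.LF xs ys T ρ (16 / 100) (36 / 100) f (fun _ => 0)
  qt : RC.QT xs ys T ρ (16 / 100) (36 / 100) (t C)
  dt : ∀ C', P C' → RC.DT xs ys T ρ (16 / 100) (36 / 100) f (fun _ => 0) (t C')
  ys : ys ∈ Set.Ioc (1 / 4 : ℝ) (1 / 2)
  xs : xs ∈ Set.Icc (16 / 100 : ℝ) (36 / 100)

theorem OKt.pr {t : Cl → List RC.Te} {P P' : Cl → Prop} {C C' : Cl} {xs ys T ρ xs' T' : ℝ}
    {f f' : ℝ → ℝ} (H : OKt t P C xs ys T ρ f) (H' : OKt t P' C' xs' ys T' ρ f') (h : P C')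
    (h' : P' C) (hc : ∀ C, RC.cov 2500 (t C) = true) :
    RC.Pr ys ρ xs T (16 / 100) (36 / 100) f (fun _ => 0) xs' T' (16 / 100) (36 / 100) f'
      (fun _ => 0) :=
  RC.Pr.of H.lf H'.lf (H.dt C' h) H'.qt (H'.dt C h') H.qt (hc _) (hc _) H.ys H.xs H'.xs

end SR

end Pool.Agent.Work.MP_b30479_gtS.G2

end

section

/-!
# Rings on the level part: the pairs of hinges by class
-/

namespace Pool.Agent.Work.MP_b30479_gtS.G2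

open Finset VOL Filter Topology

namespace SR

/-- **A ring between a digit `1` and a class `k`, the pair of hinges.** -/
theorem pm5b {xs ys T ρ xs' T' : ℝ} {k : Cl} {s : Bool}
    (hk : k ≠ .one)
    (q : (rq5 .two k s).Re xs ys T ρ)
    (r : (rp5 .two k s).Re xs' ys T' ρ)
    (B : Bd5 k s xs ys T ρ)
    (D : Lo k xs' ys T' ρ)
    (KZ : k = .ring → |T'| ≤ 47 / 1000)
    (hx : xs' ∈ Set.Icc (fcl k) (fcp k)) :
    PrS 5 .two k xs ys T ρ xs' T' := by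
  cases k
  · exact absurd rfl hk
  · have q0 : (mk4 2558 2961 1357 1629 1218 1596 289 543 (-1198) (-804) 4461 4172).Re xs ys T ρ := q
    have r0 : (mk4 2012 2537 1357 1629 688 1187 289 543 (-784) (-254) 4017 3728).Re xs' ys T' ρ := r
    have O := q0.oneB RC.Row.cH5b (by decide)
    have I : RC.o5b2.In T ρ xs ys := wdk_in q0 (by decide) (k := 1520) (by
      have := B.kp
      simp only [ka5] at this
      push_cast at this ⊢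
      linarith only [this])
    have J : RC.p5b2.In T' ρ xs' ys := wd4_in r0 (by decide)
    obtain ⟨H, l, d⟩ := D
    rcases le_or_gt xs (2563 / 10000) with hs | hs
    · have Is : RC.o5b2x.In T ρ xs ys := I.cut (n := 2563) (by push_cast; exact hs)
      exact ⟨_, _, Or.inl rfl, Or.inl rfl, RC.pr5b2x O I Is H l d J hx⟩
    · exact ⟨_, _, Or.inr ⟨rfl, hs.le, Or.inr ⟨by decide, q0.tlo5 (by decide), rfl⟩⟩, Or.inl rfl, RC.pr5b2 O I H l d J hx⟩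
  · have q0 : (mk4 2534 2924 1400 1627 1163 1514 221 442 (-1193) (-821) 4424 4203).Re xs ys T ρ := q
    have r0 : (mk4 1652 1856 1400 1627 1327 1544 221 442 (-1209) (-1003) 3382 3161).Re xs' ys T' ρ := r
    have q2 : (mk4 2534 2924 1400 1627 1163 1514 240 442 (-1193) (-821) 4424 4203).Re xs ys T ρ :=
      ⟨q0.x0, q0.x1, q0.s0, q0.s1, q0.q0, q0.q1, B.e rfl, q0.r1, q0.t0, q0.t1, q0.c1, q0.cr⟩
    have r2 : (mk4 1652 1856 1400 1627 1327 1544 240 442 (-1209) (-1003) 3382 3161).Re xs' ys T' ρ :=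
      ⟨r0.x0, r0.x1, r0.s0, r0.s1, r0.q0, r0.q1, B.e rfl, r0.r1, r0.t0, r0.t1, r0.c1, r0.cr⟩
    have O := q0.oneB RC.Row.cH5b (by decide)
    have I : RC.o5b2e.In T ρ xs ys := wdk_in q2 (by decide) (k := 1530) (by
      have := B.kp
      simp only [ka5] at this
      push_cast at this ⊢
      linarith only [this])
    have J : RC.p5b2e.In T' ρ xs' ys := wd4_in r2 (by decide)
    obtain ⟨H, l, d⟩ := D
    rcases le_or_gt xs (2563 / 10000) with hs | hs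
    · have Is : RC.o5b2ex.In T ρ xs ys := I.cut (n := 2563) (by push_cast; exact hs)
      exact ⟨_, _, Or.inl rfl, Or.inl rfl, RC.pr5b2ex O I Is H l d J hx⟩
    · exact ⟨_, _, Or.inr ⟨rfl, hs.le, Or.inr ⟨by decide, q0.tlo5 (by decide), rfl⟩⟩, Or.inl rfl, RC.pr5b2e O I H l d J hx⟩
  · have q0 : (mk4 2567 2963 1400 1651 1237 1599 316 557 (-1178) (-794) 4480 4164).Re xs ys T ρ := q
    have r0 : (mk4 1983 2329 1400 1651 548 897 316 557 (-461) (-93) 3853 3537).Re xs' ys T' ρ := r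
    have O := q0.oneB RC.Row.cH5b (by decide)
    have I : RC.o5b3.In T ρ xs ys := wdk_in q0 (by decide) (k := 1510) (by
      have := B.kp
      simp only [ka5] at this
      push_cast at this ⊢
      linarith only [this])
    have J : RC.p5b3.In T' ρ xs' ys := wd4_in r0 (by decide)
    obtain ⟨H, l, d⟩ := D
    exact ⟨_, _, Or.inr ⟨rfl, q0.xlo (by decide), Or.inr ⟨by decide, q0.tlo5 (by decide), rfl⟩⟩, Or.inl rfl, RC.pr5b3 O I H l d J hx⟩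
  · have q0 : (mk4 2552 2945 1434 1662 1206 1556 286 510 (-1170) (-797) 4479 4193).Re xs ys T ρ := q
    have r0 : (mk4 1767 1971 1434 1662 690 909 286 510 (-505) (-299) 3531 3245).Re xs' ys T' ρ := r
    have O := q0.oneB RC.Row.cH5b (by decide)
    have I : RC.o5b3e.In T ρ xs ys := wdk_in q0 (by decide) (k := 1520) (by
      have := B.kp
      simp only [ka5] at this
      push_cast at this ⊢
      linarith only [this])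
    have J : RC.p5b3e.In T' ρ xs' ys := wd4_in r0 (by decide)
    obtain ⟨H, l, d⟩ := D
    rcases le_or_gt xs (2563 / 10000) with hs | hs
    · have Is : RC.o5b3ex.In T ρ xs ys := I.cut (n := 2563) (by push_cast; exact hs)
      exact ⟨_, _, Or.inl rfl, Or.inl rfl, RC.pr5b3ex O I Is H l d J hx⟩
    · exact ⟨_, _, Or.inr ⟨rfl, hs.le, Or.inr ⟨by decide, q0.tlo5 (by decide), rfl⟩⟩, Or.inl rfl, RC.pr5b3e O I H l d J hx⟩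
  · cases s
    · have q0 : (mk4 2566 2988 1422 1674 1236 1646 330 616 (-1168) (-779) 4525 4195).Re xs ys T ρ := q
      have r0 : (mk4 1904 2422 1422 1674 265 746 330 616 (-299) 233 3980 3650).Re xs' ys T' ρ := r
      have O := q0.oneB RC.Row.cH5b (by decide)
      have I : RC.o5bZ.In T ρ xs ys := wdk_in q0 (by decide) (k := 1510) (by
        have := B.kp
        simp only [ka5] at this
        push_cast at this ⊢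
        linarith only [this])
      have J : RC.p5bZ.In T' ρ xs' ys := wd4_in r0 (by decide)
      have K := r0.kap (by decide) (KZ rfl)
      obtain ⟨H, l, d⟩ := D
      exact ⟨_, _, Or.inr ⟨rfl, q0.xlo (by decide), Or.inr ⟨by decide, q0.tlo5 (by decide), rfl⟩⟩, Or.inl rfl, RC.pr5bZ O I H l d J hx K.1 K.2⟩
    · have q0 : (mk4 2573 2988 1437 1731 1247 1646 357 616 (-1154) (-754) 4574 4217).Re xs ys T ρ := q
      have r0 : (mk4 1831 2422 1437 1731 3 482 357 616 27 494 3980 3623).Re xs' ys T' ρ := r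
      have k0 : (mk4 2553 2968 1417 1711 1267 1666 377 636 (-1174) (-774) 4554 4177).Re xs ys T ρ := B.z rfl rfl
      have q2 : (mk4 2573 2968 1437 1711 1267 1646 377 616 (-1154) (-774) 4554 4177).Re xs ys T ρ :=
        ⟨q0.x0, k0.x1, q0.s0, k0.s1, k0.q0, q0.q1, k0.r0, q0.r1, q0.t0, k0.t1, k0.c1, k0.cr⟩
      have O := q0.oneB RC.Row.cH5b (by decide)
      have I : RC.o5bZs.In T ρ xs ys := wdk_in q2 (by decide) (k := 1515) (by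
        have := B.kp
        simp only [ka5] at this
        push_cast at this ⊢
        linarith only [this])
      have J : RC.p5bZs.In T' ρ xs' ys := wd4_in r0 (by decide)
      have K := r0.kap (by decide) (KZ rfl)
      obtain ⟨H, l, d⟩ := D
      exact ⟨_, _, Or.inr ⟨rfl, q0.xlo (by decide), Or.inr ⟨by decide, q0.tlo5 (by decide), rfl⟩⟩, Or.inl rfl, RC.pr5bZs O I H l d J hx K.1 K.2⟩

end SR

end Pool.Agent.Work.MP_b30479_gtS.G2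

end

section

/-!
# Rings on the level part: the pairs of hinges by class
-/

namespace Pool.Agent.Work.MP_b30479_gtS.G2

open Finset VOL Filter Topology

namespace SR

/-- **A ring between a digit `1` and a class `k`, the pair of hinges.** -/
theorem pm5c {xs ys T ρ xs' T' : ℝ} {k : Cl} {s : Bool}
    (hk : k ≠ .one)
    (q : (rq5 .twoE k s).Re xs ys T ρ)
    (r : (rp5 .twoE k s).Re xs' ys T' ρ)
    (D : Lo k xs' ys T' ρ)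
    (KZ : k = .ring → |T'| ≤ 47 / 1000)
    (hx : xs' ∈ Set.Icc (fcl k) (fcp k)) :
    PrS 5 .twoE k xs ys T ρ xs' T' := by
  cases k
  · exact absurd rfl hk
  · have q0 : (mk4 2403 2616 1396 1644 1534 1765 261 497 (-1386) (-1168) 4158 3897).Re xs ys T ρ := q
    have r0 : (mk4 2002 2522 1396 1644 656 1186 261 517 (-780) (-259) 4017 3756).Re xs' ys T' ρ := r
    have O := q0.oneB RC.Row.cH5c (by decide)
    have I : RC.o5c2.In T ρ xs ys := wd4_in q0 (by decide)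
    have J : RC.p5c2.In T' ρ xs' ys := wd4_in r0 (by decide)
    obtain ⟨H, l, d⟩ := D
    exact ⟨_, _, Or.inl rfl, Or.inl rfl, RC.pr5c2 O I H l d J hx⟩
  · have q0 : (mk4 2380 2580 1436 1636 1475 1675 195 395 (-1380) (-1180) 4116 3921).Re xs ys T ρ := q
    have r0 : (mk4 1645 1845 1436 1636 1299 1539 195 435 (-1203) (-1003) 3381 3186).Re xs' ys T' ρ := r
    have O := q0.oneB RC.Row.cH5c (by decide)
    have I : RC.o5c2e.In T ρ xs ys := wd4_in q0 (by decide)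
    have J : RC.p5c2e.In T' ρ xs' ys := wd4_in r0 (by decide)
    obtain ⟨H, l, d⟩ := D
    exact ⟨_, _, Or.inl rfl, Or.inl rfl, RC.pr5c2e O I H l d J hx⟩
  · have q0 : (mk4 2413 2619 1442 1668 1554 1769 292 510 (-1368) (-1158) 4184 3892).Re xs ys T ρ := q
    have r0 : (mk4 1973 2315 1442 1668 508 856 292 530 (-459) (-98) 3857 3565).Re xs' ys T' ρ := r
    have O := q0.oneB RC.Row.cH5c (by decide)
    have I : RC.o5c3.In T ρ xs ys := wd4_in q0 (by decide)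
    have J : RC.p5c3.In T' ρ xs' ys := wd4_in r0 (by decide)
    obtain ⟨H, l, d⟩ := D
    exact ⟨_, _, Or.inl rfl, Or.inl rfl, RC.pr5c3 O I H l d J hx⟩
  · have q0 : (mk4 2400 2600 1475 1675 1520 1720 261 461 (-1359) (-1159) 4175 3914).Re xs ys T ρ := q
    have r0 : (mk4 1760 1960 1475 1675 664 884 261 481 (-503) (-303) 3535 3274).Re xs' ys T' ρ := r
    have O := q0.oneB RC.Row.cH5c (by decide)
    have I : RC.o5c3e.In T ρ xs ys := wd4_in q0 (by decide)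
    have J : RC.p5c3e.In T' ρ xs' ys := wd4_in r0 (by decide)
    obtain ⟨H, l, d⟩ := D
    exact ⟨_, _, Or.inl rfl, Or.inl rfl, RC.pr5c3e O I H l d J hx⟩
  · cases s
    · have q0 : (mk4 2413 2639 1465 1692 1552 1816 301 568 (-1359) (-1147) 4223 3922).Re xs ys T ρ := q
      have r0 : (mk4 1897 2407 1465 1692 245 729 301 588 (-299) 223 3991 3690).Re xs' ys T' ρ := r
      have O := q0.oneB RC.Row.cH5c (by decide)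
      have I : RC.o5cZ.In T ρ xs ys := wd4_in q0 (by decide)
      have J : RC.p5cZ.In T' ρ xs' ys := wd4_in r0 (by decide)
      have K := r0.kap (by decide) (KZ rfl)
      obtain ⟨H, l, d⟩ := D
      exact ⟨_, _, Or.inl rfl, Or.inl rfl, RC.pr5cZ O I H l d J hx K.1 K.2⟩
    · have q0 : (mk4 2420 2639 1484 1751 1557 1816 331 589 (-1347) (-1122) 4282 3951).Re xs ys T ρ := q
      have r0 : (mk4 1828 2407 1484 1751 (-23) 444 331 589 24 483 3991 3660).Re xs' ys T' ρ := r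
      have O := q0.oneB RC.Row.cH5c (by decide)
      have I : RC.o5cZs.In T ρ xs ys := wd4_in q0 (by decide)
      have J : RC.p5cZs.In T' ρ xs' ys := wd4_in r0 (by decide)
      have K := r0.kap (by decide) (KZ rfl)
      obtain ⟨H, l, d⟩ := D
      exact ⟨_, _, Or.inl rfl, Or.inl rfl, RC.pr5cZs O I H l d J hx K.1 K.2⟩

end SR

end Pool.Agent.Work.MP_b30479_gtS.G2

end

section

/-!
# Rings on the level part: the pairs of hinges by class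
-/

namespace Pool.Agent.Work.MP_b30479_gtS.G2

open Finset VOL Filter Topology

namespace SR

/-- **A ring between a digit `1` and a class `k`, the pair of hinges.** -/
theorem pm6b {xs ys T ρ xs' T' : ℝ} {k : Cl} {s : Bool}
    (hk : k ≠ .one)
    (q : (rq6 .two k s).Re xs ys T ρ)
    (r : (rp6 .two k s).Re xs' ys T' ρ)
    (D : Lo k xs' ys T' ρ)
    (KZ : k = .ring → |T'| ≤ 47 / 1000)
    (hx : xs' ∈ Set.Icc (fcl k) (fcp k)) :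
    PrS 6 .two k xs ys T ρ xs' T' := by
  cases k
  · exact absurd rfl hk
  · have q0 : (mk4 2536 2969 1166 1461 1174 1590 175 450 (-1291) (-864) 4285 4110).Re xs ys T ρ := q
    have r0 : (mk4 1996 2559 1166 1461 613 1162 175 450 (-857) (-286) 3863 3688).Re xs' ys T' ρ := r
    have O := q0.oneB RC.Row.cH6 (by decide)
    have I : RC.o6b2.In T ρ xs ys := wd4_in q0 (by decide)
    have J : RC.p6b2.In T' ρ xs' ys := wd4_in r0 (by decide)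
    obtain ⟨H, l, d⟩ := D
    rcases le_or_gt xs (2563 / 10000) with hs | hs
    · have Is : RC.o6b2x.In T ρ xs ys := I.cut (n := 2563) (by push_cast; exact hs)
      exact ⟨_, _, Or.inl rfl, Or.inl rfl, RC.pr6b2x O I Is H l d J hx⟩
    · exact ⟨_, _, Or.inr ⟨rfl, hs.le, Or.inr ⟨by decide, q0.tlo5 (by decide), rfl⟩⟩, Or.inl rfl, RC.pr6b2 O I H l d J hx⟩
  · have q0 : (mk4 2516 2944 1194 1454 1132 1530 120 376 (-1290) (-877) 4258 4138).Re xs ys T ρ := q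
    have r0 : (mk4 1627 1870 1194 1454 1271 1524 120 376 (-1272) (-1028) 3204 3084).Re xs' ys T' ρ := r
    have O := q0.oneB RC.Row.cH6 (by decide)
    have I : RC.o6b2e.In T ρ xs ys := wd4_in q0 (by decide)
    have J : RC.p6b2e.In T' ρ xs' ys := wd4_in r0 (by decide)
    obtain ⟨H, l, d⟩ := D
    rcases le_or_gt xs (2563 / 10000) with hs | hs
    · have Is : RC.o6b2ex.In T ρ xs ys := I.cut (n := 2563) (by push_cast; exact hs)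
      exact ⟨_, _, Or.inl rfl, Or.inl rfl, RC.pr6b2ex O I Is H l d J hx⟩
    · exact ⟨_, _, Or.inr ⟨rfl, hs.le, Or.inr ⟨by decide, q0.tlo5 (by decide), rfl⟩⟩, Or.inl rfl, RC.pr6b2e O I H l d J hx⟩
  · have q0 : (mk4 2536 2969 1202 1479 1192 1594 192 460 (-1278) (-857) 4300 4108).Re xs ys T ρ := q
    have r0 : (mk4 1976 2359 1202 1479 459 856 192 460 (-529) (-132) 3698 3506).Re xs' ys T' ρ := r
    have O := q0.oneB RC.Row.cH6 (by decide)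
    have I : RC.o6b3.In T ρ xs ys := wd4_in q0 (by decide)
    have J : RC.p6b3.In T' ρ xs' ys := wd4_in r0 (by decide)
    obtain ⟨H, l, d⟩ := D
    rcases le_or_gt xs (2563 / 10000) with hs | hs
    · have Is : RC.o6b3x.In T ρ xs ys := I.cut (n := 2563) (by push_cast; exact hs)
      exact ⟨_, _, Or.inl rfl, Or.inl rfl, RC.pr6b3x O I Is H l d J hx⟩
    · exact ⟨_, _, Or.inr ⟨rfl, hs.le, Or.inr ⟨by decide, q0.tlo5 (by decide), rfl⟩⟩, Or.inl rfl, RC.pr6b3 O I H l d J hx⟩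
  · have q0 : (mk4 2527 2957 1223 1485 1165 1562 168 425 (-1274) (-860) 4300 4132).Re xs ys T ρ := q
    have r0 : (mk4 1754 1997 1223 1485 613 867 168 425 (-566) (-322) 3360 3192).Re xs' ys T' ρ := r
    have O := q0.oneB RC.Row.cH6 (by decide)
    have I : RC.o6b3e.In T ρ xs ys := wd4_in q0 (by decide)
    have J : RC.p6b3e.In T' ρ xs' ys := wd4_in r0 (by decide)
    obtain ⟨H, l, d⟩ := D
    rcases le_or_gt xs (2563 / 10000) with hs | hs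
    · have Is : RC.o6b3ex.In T ρ xs ys := I.cut (n := 2563) (by push_cast; exact hs)
      exact ⟨_, _, Or.inl rfl, Or.inl rfl, RC.pr6b3ex O I Is H l d J hx⟩
    · exact ⟨_, _, Or.inr ⟨rfl, hs.le, Or.inr ⟨by decide, q0.tlo5 (by decide), rfl⟩⟩, Or.inl rfl, RC.pr6b3e O I H l d J hx⟩
  · cases s
    · have q0 : (mk4 2535 2983 1218 1499 1186 1628 200 505 (-1271) (-845) 4336 4136).Re xs ys T ρ := q
      have r0 : (mk4 1900 2475 1218 1499 166 700 200 505 (-362) 206 3845 3645).Re xs' ys T' ρ := r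
      have O := q0.oneB RC.Row.cH6 (by decide)
      have I : RC.o6bZ.In T ρ xs ys := wd4_in q0 (by decide)
      have J : RC.p6bZ.In T' ρ xs' ys := wd4_in r0 (by decide)
      have K := r0.kap (by decide) (KZ rfl)
      obtain ⟨H, l, d⟩ := D
      rcases le_or_gt xs (2563 / 10000) with hs | hs
      · have Is : RC.o6bZx.In T ρ xs ys := I.cut (n := 2563) (by push_cast; exact hs)
        exact ⟨_, _, Or.inl rfl, Or.inl rfl, RC.pr6bZx O I Is H l d J hx K.1 K.2⟩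
      · exact ⟨_, _, Or.inr ⟨rfl, hs.le, Or.inr ⟨by decide, q0.tlo5 (by decide), rfl⟩⟩, Or.inl rfl, RC.pr6bZ O I H l d J hx K.1 K.2⟩
    · have q0 : (mk4 2542 2983 1233 1544 1191 1628 218 505 (-1260) (-831) 4367 4149).Re xs ys T ρ := q
      have r0 : (mk4 1851 2475 1233 1544 (-118) 417 218 505 (-37) 486 3845 3627).Re xs' ys T' ρ := r
      have O := q0.oneB RC.Row.cH6 (by decide)
      have I : RC.o6bZs.In T ρ xs ys := wd4_in q0 (by decide)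
      have J : RC.p6bZs.In T' ρ xs' ys := wd4_in r0 (by decide)
      have K := r0.kap (by decide) (KZ rfl)
      obtain ⟨H, l, d⟩ := D
      rcases le_or_gt xs (2563 / 10000) with hs | hs
      · have Is : RC.o6bZsx.In T ρ xs ys := I.cut (n := 2563) (by push_cast; exact hs)
        exact ⟨_, _, Or.inl rfl, Or.inl rfl, RC.pr6bZsx O I Is H l d J hx K.1 K.2⟩
      · exact ⟨_, _, Or.inr ⟨rfl, hs.le, Or.inr ⟨by decide, q0.tlo5 (by decide), rfl⟩⟩, Or.inl rfl, RC.pr6bZs O I H l d J hx K.1 K.2⟩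

end SR

end Pool.Agent.Work.MP_b30479_gtS.G2

end

section

/-!
# Rings on the level part: the pairs of hinges by class
-/

namespace Pool.Agent.Work.MP_b30479_gtS.G2

open Finset VOL Filter Topology

namespace SR

/-- **A ring between a digit `1` and a class `k`, the pair of hinges.** -/
theorem pm6c {xs ys T ρ xs' T' : ℝ} {k : Cl} {s : Bool}
    (hk : k ≠ .one)
    (q : (rq6 .twoE k s).Re xs ys T ρ)
    (r : (rp6 .twoE k s).Re xs' ys T' ρ)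
    (D : Lo k xs' ys T' ρ)
    (KZ : k = .ring → |T'| ≤ 47 / 1000)
    (hx : xs' ∈ Set.Icc (fcl k) (fcp k)) :
    PrS 6 .twoE k xs ys T ρ xs' T' := by
  cases k
  · exact absurd rfl hk
  · have q0 : (mk4 2369 2617 1193 1471 1494 1757 150 417 (-1472) (-1220) 3967 3817).Re xs ys T ρ := q
    have r0 : (mk4 1990 2550 1193 1471 585 1132 150 417 (-855) (-289) 3863 3713).Re xs' ys T' ρ := r
    have O := q0.oneB RC.Row.cH6 (by decide)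
    have I : RC.o6c2.In T ρ xs ys := wd4_in q0 (by decide)
    have J : RC.p6c2.In T' ρ xs' ys := wd4_in r0 (by decide)
    obtain ⟨H, l, d⟩ := D
    exact ⟨_, _, Or.inl rfl, Or.inl rfl, RC.pr6c2 O I H l d J hx⟩
  · have q0 : (mk4 2355 2595 1220 1460 1450 1690 100 340 (-1469) (-1229) 3935 3835).Re xs ys T ρ := q
    have r0 : (mk4 1622 1862 1220 1460 1250 1490 100 340 (-1269) (-1029) 3202 3102).Re xs' ys T' ρ := r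
    have O := q0.oneB RC.Row.cH6 (by decide)
    have I : RC.o6c2e.In T ρ xs ys := wd4_in q0 (by decide)
    have J : RC.p6c2e.In T' ρ xs' ys := wd4_in r0 (by decide)
    obtain ⟨H, l, d⟩ := D
    exact ⟨_, _, Or.inl rfl, Or.inl rfl, RC.pr6c2e O I H l d J hx⟩
  · have q0 : (mk4 2374 2618 1230 1490 1508 1758 172 424 (-1460) (-1214) 3986 3814).Re xs ys T ρ := q
    have r0 : (mk4 1970 2351 1230 1490 434 825 172 424 (-529) (-130) 3701 3529).Re xs' ys T' ρ := r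
    have O := q0.oneB RC.Row.cH6 (by decide)
    have I : RC.o6c3.In T ρ xs ys := wd4_in q0 (by decide)
    have J : RC.p6c3.In T' ρ xs' ys := wd4_in r0 (by decide)
    obtain ⟨H, l, d⟩ := D
    exact ⟨_, _, Or.inl rfl, Or.inl rfl, RC.pr6c3 O I H l d J hx⟩
  · have q0 : (mk4 2366 2606 1252 1492 1483 1723 147 387 (-1456) (-1216) 3979 3832).Re xs ys T ρ := q
    have r0 : (mk4 1750 1990 1252 1492 593 833 147 387 (-565) (-325) 3362 3215).Re xs' ys T' ρ := r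
    have O := q0.oneB RC.Row.cH6 (by decide)
    have I : RC.o6c3e.In T ρ xs ys := wd4_in q0 (by decide)
    have J : RC.p6c3e.In T' ρ xs' ys := wd4_in r0 (by decide)
    obtain ⟨H, l, d⟩ := D
    exact ⟨_, _, Or.inl rfl, Or.inl rfl, RC.pr6c3e O I H l d J hx⟩
  · cases s
    · have q0 : (mk4 2374 2630 1248 1510 1506 1793 176 468 (-1454) (-1205) 4016 3840).Re xs ys T ρ := q
      have r0 : (mk4 1896 2466 1248 1510 150 669 176 468 (-364) 198 3852 3676).Re xs' ys T' ρ := r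
      have O := q0.oneB RC.Row.cH6 (by decide)
      have I : RC.o6cZ.In T ρ xs ys := wd4_in q0 (by decide)
      have J : RC.p6cZ.In T' ρ xs' ys := wd4_in r0 (by decide)
      have K := r0.kap (by decide) (KZ rfl)
      obtain ⟨H, l, d⟩ := D
      exact ⟨_, _, Or.inl rfl, Or.inl rfl, RC.pr6cZ O I H l d J hx K.1 K.2⟩
    · have q0 : (mk4 2377 2630 1266 1556 1510 1793 197 468 (-1445) (-1190) 4059 3862).Re xs ys T ρ := q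
      have r0 : (mk4 1850 2466 1266 1556 (-143) 388 197 468 (-40) 480 3852 3655).Re xs' ys T' ρ := r
      have O := q0.oneB RC.Row.cH6 (by decide)
      have I : RC.o6cZs.In T ρ xs ys := wd4_in q0 (by decide)
      have J : RC.p6cZs.In T' ρ xs' ys := wd4_in r0 (by decide)
      have K := r0.kap (by decide) (KZ rfl)
      obtain ⟨H, l, d⟩ := D
      exact ⟨_, _, Or.inl rfl, Or.inl rfl, RC.pr6cZs O I H l d J hx K.1 K.2⟩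

end SR

end Pool.Agent.Work.MP_b30479_gtS.G2

end

section

/-!
# Rings on the level part: the pairs of hinges by class
-/

namespace Pool.Agent.Work.MP_b30479_gtS.G2

open Finset VOL Filter Topology

namespace SR

/-- **A ring between a digit `1` and a class `k`, the pair of hinges.** -/
theorem pm7a {xs ys T ρ xs' T' : ℝ} {k : Cl} {s : Bool}
    (hk : k ≠ .one)
    (q : (rc7 .one).Re xs ys T ρ)
    (r : P7 rd7 k s xs' ys T' ρ)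
    (D : Lo k xs' ys T' ρ)
    (KZ : k = .ring → |T'| ≤ 47 / 1000)
    (hx : xs' ∈ Set.Icc (fcl k) (fcp k)) :
    PrS 7 .one k xs ys T ρ xs' T' := by
  cases k
  · exact absurd rfl hk
  · have q9 : (mk4 2205 2760 1032 1410 800 1640 104 400 (-1240) (-640) 4070 3966).Re xs ys T ρ := q
    have r9 : (mk4 1985 2510 1065 1330 560 1254 135 394 (-860) (-375) 3810 3675).Re xs' ys T' ρ := r.1 (by decide)
    have q0 : (mk4 2205 2760 1065 1330 800 1640 135 394 (-1240) (-640) 4070 3966).Re xs ys T ρ := q9.int r9 (by decide)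
    have r0 : (mk4 1985 2510 1065 1330 560 1254 135 394 (-860) (-375) 3810 3675).Re xs' ys T' ρ := r9.int q9 (by decide)
    have O := q0.oneB RC.Row.cH8 (by decide)
    have I : RC.o7a2.In T ρ xs ys := wd4_in q0 (by decide)
    have J : RC.p7a2.In T' ρ xs' ys := wd4_in r0 (by decide)
    obtain ⟨H, l, d⟩ := D
    exact ⟨_, _, Or.inl rfl, Or.inl rfl, RC.pr7a2 O I H l d J hx⟩
  · have q9 : (mk4 2205 2760 1032 1410 800 1640 104 400 (-1240) (-640) 4070 3966).Re xs ys T ρ := q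
    have r9 : (mk4 1705 1795 1089 1297 1245 1528 104 308 (-1220) (-1130) 3080 2976).Re xs' ys T' ρ := r.1 (by decide)
    have q0 : (mk4 2205 2760 1089 1297 800 1640 104 308 (-1240) (-640) 4070 3966).Re xs ys T ρ := q9.int r9 (by decide)
    have r0 : (mk4 1705 1795 1089 1297 1245 1528 104 308 (-1220) (-1130) 3080 2976).Re xs' ys T' ρ := r9.int q9 (by decide)
    have O := q0.oneB RC.Row.cH8 (by decide)
    have I : RC.o7a2e.In T ρ xs ys := wd4_in q0 (by decide)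
    have J : RC.p7a2e.In T' ρ xs' ys := wd4_in r0 (by decide)
    obtain ⟨H, l, d⟩ := D
    exact ⟨_, _, Or.inl rfl, Or.inl rfl, RC.pr7a2e O I H l d J hx⟩
  · have q9 : (mk4 2205 2760 1032 1410 800 1640 104 400 (-1240) (-640) 4070 3966).Re xs ys T ρ := q
    have r9 : (mk4 2030 2300 1112 1344 385 876 156 391 (-485) (-185) 3615 3459).Re xs' ys T' ρ := r.1 (by decide)
    have q0 : (mk4 2205 2760 1112 1344 800 1640 156 391 (-1240) (-640) 4070 3966).Re xs ys T ρ := q9.int r9 (by decide)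
    have r0 : (mk4 2030 2300 1112 1344 385 876 156 391 (-485) (-185) 3615 3459).Re xs' ys T' ρ := r9.int q9 (by decide)
    have O := q0.oneB RC.Row.cH8 (by decide)
    have I : RC.o7a3.In T ρ xs ys := wd4_in q0 (by decide)
    have J : RC.p7a3.In T' ρ xs' ys := wd4_in r0 (by decide)
    obtain ⟨H, l, d⟩ := D
    exact ⟨_, _, Or.inl rfl, Or.inl rfl, RC.pr7a3 O I H l d J hx⟩
  · have q9 : (mk4 2205 2760 1032 1410 800 1640 104 400 (-1240) (-640) 4070 3966).Re xs ys T ρ := q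
    have r9 : (mk4 1840 1925 1133 1332 585 855 142 345 (-510) (-425) 3240 3098).Re xs' ys T' ρ := r.1 (by decide)
    have q0 : (mk4 2205 2760 1133 1332 800 1640 142 345 (-1240) (-640) 4070 3966).Re xs ys T ρ := q9.int r9 (by decide)
    have r0 : (mk4 1840 1925 1133 1332 585 855 142 345 (-510) (-425) 3240 3098).Re xs' ys T' ρ := r9.int q9 (by decide)
    have O := q0.oneB RC.Row.cH8 (by decide)
    have I : RC.o7a3e.In T ρ xs ys := wd4_in q0 (by decide)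
    have J : RC.p7a3e.In T' ρ xs' ys := wd4_in r0 (by decide)
    obtain ⟨H, l, d⟩ := D
    exact ⟨_, _, Or.inl rfl, Or.inl rfl, RC.pr7a3e O I H l d J hx⟩
  · cases s
    · have q9 : (mk4 2205 2760 1032 1410 800 1640 104 400 (-1240) (-640) 4070 3966).Re xs ys T ρ := q
      have q0 : (mk4 2205 2760 1032 1410 800 1640 104 400 (-1240) (-640) 4070 3966).Re xs ys T ρ := q9
      have r0 : (mk4 1820 2520 1032 1410 (-281) 785 104 400 (-385) 385 3930 3930).Re xs' ys T' ρ := Rg.re q9 (r.2 rfl) (by decide)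
      have O := q0.oneB RC.Row.cH8 (by decide)
      have I : RC.o7aZ.In T ρ xs ys := wd4_in q0 (by decide)
      have J : RC.p7aZ.In T' ρ xs' ys := wd4_in r0 (by decide)
      have K := r0.kap (by decide) (KZ rfl)
      obtain ⟨H, l, d⟩ := D
      exact ⟨_, _, Or.inl rfl, Or.inl rfl, RC.pr7aZ O I H l d J hx K.1 K.2⟩
    · have q9 : (mk4 2205 2760 1032 1410 800 1640 104 400 (-1240) (-640) 4070 3966).Re xs ys T ρ := q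
      have q0 : (mk4 2205 2760 1032 1410 800 1640 104 400 (-1240) (-640) 4070 3966).Re xs ys T ρ := q9
      have r0 : (mk4 1700 2520 1032 1410 (-361) 410 104 400 (-10) 465 3930 3930).Re xs' ys T' ρ := Rg.re q9 (r.2 rfl) (by decide)
      have O := q0.oneB RC.Row.cH8 (by decide)
      have I : RC.o7aZs.In T ρ xs ys := wd4_in q0 (by decide)
      have J : RC.p7aZs.In T' ρ xs' ys := wd4_in r0 (by decide)
      have K := r0.kap (by decide) (KZ rfl)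
      obtain ⟨H, l, d⟩ := D
      exact ⟨_, _, Or.inl rfl, Or.inl rfl, RC.pr7aZs O I H l d J hx K.1 K.2⟩

end SR

end Pool.Agent.Work.MP_b30479_gtS.G2

end

section

/-!
# Rings on the level part: the pairs of hinges by class
-/

namespace Pool.Agent.Work.MP_b30479_gtS.G2

open Finset VOL Filter Topology

namespace SR

/-- **A ring between a digit `1` and a class `k`, the pair of hinges.** -/
theorem pm7c {xs ys T ρ xs' T' : ℝ} {k : Cl} {s : Bool}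
    (hk : k ≠ .one)
    (q : (rc7 .twoE).Re xs ys T ρ)
    (r : P7 rd7 k s xs' ys T' ρ)
    (D : Lo k xs' ys T' ρ)
    (KZ : k = .ring → |T'| ≤ 47 / 1000)
    (hx : xs' ∈ Set.Icc (fcl k) (fcp k)) :
    PrS 7 .twoE k xs ys T ρ xs' T' := by
  cases k
  · exact absurd rfl hk
  · have q9 : (mk4 2425 2545 1070 1337 1450 1788 115 338 (-1450) (-1320) 3870 3755).Re xs ys T ρ := q
    have r9 : (mk4 1985 2510 1065 1330 560 1254 135 394 (-860) (-375) 3810 3675).Re xs' ys T' ρ := r.1 (by decide)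
    have q0 : (mk4 2425 2545 1070 1330 1450 1788 135 338 (-1450) (-1320) 3870 3755).Re xs ys T ρ := q9.int r9 (by decide)
    have r0 : (mk4 1985 2510 1070 1330 560 1254 135 338 (-860) (-375) 3810 3675).Re xs' ys T' ρ := r9.int q9 (by decide)
    have O := q0.oneB RC.Row.cH8 (by decide)
    have I : RC.o7c2.In T ρ xs ys := wd4_in q0 (by decide)
    obtain ⟨H, l, d⟩ := D
    exact ⟨_, _, Or.inl rfl, Or.inl rfl, RC.pr7c2 O I H l d hx⟩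
  · have q9 : (mk4 2425 2545 1070 1337 1450 1788 115 338 (-1450) (-1320) 3870 3755).Re xs ys T ρ := q
    have r9 : (mk4 1705 1795 1089 1297 1245 1528 104 308 (-1220) (-1130) 3080 2976).Re xs' ys T' ρ := r.1 (by decide)
    have q0 : (mk4 2425 2545 1089 1297 1450 1788 115 308 (-1450) (-1320) 3870 3755).Re xs ys T ρ := q9.int r9 (by decide)
    have r0 : (mk4 1705 1795 1089 1297 1245 1528 115 308 (-1220) (-1130) 3080 2976).Re xs' ys T' ρ := r9.int q9 (by decide)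
    have O := q0.oneB RC.Row.cH8 (by decide)
    have I : RC.o7c2e.In T ρ xs ys := wd4_in q0 (by decide)
    obtain ⟨H, l, d⟩ := D
    exact ⟨_, _, Or.inl rfl, Or.inl rfl, RC.pr7c2e O I H l d hx⟩
  · have q9 : (mk4 2425 2545 1070 1337 1450 1788 115 338 (-1450) (-1320) 3870 3755).Re xs ys T ρ := q
    have r9 : (mk4 2030 2300 1112 1344 385 876 156 391 (-485) (-185) 3615 3459).Re xs' ys T' ρ := r.1 (by decide)
    have q0 : (mk4 2425 2545 1112 1337 1450 1788 156 338 (-1450) (-1320) 3870 3755).Re xs ys T ρ := q9.int r9 (by decide)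
    have r0 : (mk4 2030 2300 1112 1337 385 876 156 338 (-485) (-185) 3615 3459).Re xs' ys T' ρ := r9.int q9 (by decide)
    have O := q0.oneB RC.Row.cH8 (by decide)
    have I : RC.o7c3.In T ρ xs ys := wd4_in q0 (by decide)
    obtain ⟨H, l, d⟩ := D
    exact ⟨_, _, Or.inl rfl, Or.inl rfl, RC.pr7c3 O I H l d hx⟩
  · have q9 : (mk4 2425 2545 1070 1337 1450 1788 115 338 (-1450) (-1320) 3870 3755).Re xs ys T ρ := q
    have r9 : (mk4 1840 1925 1133 1332 585 855 142 345 (-510) (-425) 3240 3098).Re xs' ys T' ρ := r.1 (by decide)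
    have q0 : (mk4 2425 2545 1133 1332 1450 1788 142 338 (-1450) (-1320) 3870 3755).Re xs ys T ρ := q9.int r9 (by decide)
    have r0 : (mk4 1840 1925 1133 1332 585 855 142 338 (-510) (-425) 3240 3098).Re xs' ys T' ρ := r9.int q9 (by decide)
    have O := q0.oneB RC.Row.cH8 (by decide)
    have I : RC.o7c3e.In T ρ xs ys := wd4_in q0 (by decide)
    obtain ⟨H, l, d⟩ := D
    exact ⟨_, _, Or.inl rfl, Or.inl rfl, RC.pr7c3e O I H l d hx⟩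
  · cases s
    · have q9 : (mk4 2425 2545 1070 1337 1450 1788 115 338 (-1450) (-1320) 3870 3755).Re xs ys T ρ := q
      have q0 : (mk4 2425 2545 1070 1337 1450 1788 115 338 (-1450) (-1320) 3870 3755).Re xs ys T ρ := q9
      have r0 : (mk4 1820 2520 1070 1337 (-270) 723 115 338 (-385) 385 3857 3857).Re xs' ys T' ρ := Rg.re q9 (r.2 rfl) (by decide)
      have O := q0.oneB RC.Row.cH8 (by decide)
      have I : RC.o7cZ.In T ρ xs ys := wd4_in q0 (by decide)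
      obtain ⟨H, l, d⟩ := D
      exact ⟨_, _, Or.inl rfl, Or.inl rfl, RC.pr7cZ O I H l d hx⟩
    · have q9 : (mk4 2425 2545 1070 1337 1450 1788 115 338 (-1450) (-1320) 3870 3755).Re xs ys T ρ := q
      have q0 : (mk4 2425 2545 1070 1337 1450 1788 115 338 (-1450) (-1320) 3870 3755).Re xs ys T ρ := q9
      have r0 : (mk4 1700 2520 1070 1337 (-350) 348 115 338 (-10) 465 3857 3857).Re xs' ys T' ρ := Rg.re q9 (r.2 rfl) (by decide)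
      have O := q0.oneB RC.Row.cH8 (by decide)
      have I : RC.o7cZs.In T ρ xs ys := wd4_in q0 (by decide)
      obtain ⟨H, l, d⟩ := D
      exact ⟨_, _, Or.inl rfl, Or.inl rfl, RC.pr7cZs O I H l d hx⟩

end SR

end Pool.Agent.Work.MP_b30479_gtS.G2

end
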