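import Pool.Agent.Work.MP_b30479_gt.TBS.G2.RGm32
import Pool.Agent.Work.MP_b30479_gt.TBS.G2.RGn06
import Pool.Agent.Work.MP_b30479_gt.TBS.G2.RKind
import Pool.Agent.Work.MP_b30479_gt.TBS.G2.RGm36
import Pool.Agent.Work.MP_b30479_gt.TBS.G2.RGn11
import Pool.Agent.Work.MP_b30479_gt.TBS.G2.RLvl6
import Pool.Agent.Work.MP_b30479_gt.TBS.G2.WLocF

section

/-!
# Rings on the level part: pairs of hinges
-/

namespace Pool.Agent.Work.MP_b30479_gtS.G2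

open Real Set

namespace RC

open R6

theorem en6a {xs ys T ρ : ℝ} (O : OneB xs ys T ρ) (I : e6a.In T ρ xs ys) :
    En xs ys T ρ (16 / 100) (36 / 100) (fun _ => 0) (fun _ => 0) :=
  En.of (tab := [⟨2500, 2600, 0, 0, 0, 0, 0⟩, ⟨2600, 2700, 0, 0, 0, 0, 0⟩, ⟨2700, 2800, 0, 0, 0, 0, 0⟩, ⟨2800, 5000, 0, 0, 0, 0, 0⟩])
    (tab' := [⟨2500, 2600, 250, 0, 0, 0, 0⟩, ⟨2600, 2700, 250, 0, 0, 0, 0⟩, ⟨2700, 2800, 250, 0, 0, 0, 0⟩, ⟨2800, 5000, 0, 0, 0, 0, 0⟩])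
    (O.LF I e6a_Wa e6a_Wb hf0)
    (I.dt O.GD (fun _ => O.HD) e6a_Dp2500_0_0_0 e6a_Dm2500_0_0_0 rfl hf0 hf0
      (I.dt O.GD (fun _ => O.HD) e6a_Dp2600_0_0_0 e6a_Dm2600_0_0_0 rfl hf0 hf0
      (I.dt O.GD (fun _ => O.HD) e6a_Dp2700_0_0_0 e6a_Dm2700_0_0_0 rfl hf0 hf0
      (I.dt0 O.GD (fun _ => O.HD) e6a_Qp2800_0_0_0 e6a_Qm2800_0_0_0 rfl DT.nil A16 B36) A16 B36) A16 B36) A16 B36)
    (I.qt O.GD (fun _ => O.HD) e6a_Qp2500_250_0_0 e6a_Qm2500_250_0_0 rfl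
      (I.qt O.GD (fun _ => O.HD) e6a_Qp2600_250_0_0 e6a_Qm2600_250_0_0 rfl
      (I.qt O.GD (fun _ => O.HD) e6a_Qp2700_250_0_0 e6a_Qm2700_250_0_0 rfl
      (I.qt O.GD (fun _ => O.HD) e6a_Qp2800_0_0_0 e6a_Qm2800_0_0_0 rfl QT.nil A16 B36) A16 B36) A16 B36) A16 B36)
    (by decide) (by decide) (by decide) O.hys O.hxs

theorem en6b {xs ys T ρ : ℝ} (O : OneB xs ys T ρ) (I : e6b.In T ρ xs ys) :
    En xs ys T ρ (16 / 100) (36 / 100) (fun m => 355 / 1000 * m) (fun _ => 0) :=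
  En.of (tab := [⟨2500, 2600, 0, 0, 0, 0, 0⟩, ⟨2600, 2700, 0, 0, 0, 0, 0⟩, ⟨2700, 2800, 0, 0, 0, 0, 0⟩, ⟨2800, 2900, 0, 0, 0, 0, 0⟩, ⟨2900, 3000, 0, 0, 0, 0, 0⟩, ⟨3000, 5000, 0, 0, 0, 0, 0⟩])
    (tab' := [⟨2500, 2600, 250, 0, 0, 0, 0⟩, ⟨2600, 2700, 250, 0, 0, 0, 0⟩, ⟨2700, 2800, 250, 0, 0, 0, 0⟩, ⟨2800, 2900, 250, 0, 0, 0, 0⟩, ⟨2900, 3000, 250, 0, 0, 0, 0⟩, ⟨3000, 5000, 0, 0, 0, 0, 0⟩])
    (O.LF I e6b_Wa e6b_Wb hf355)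
    (I.dt O.GD (fun _ => O.HD) e6b_Dp2500_0_0_0 e6b_Dm2500_0_0_0 rfl hf355 hf0
      (I.dt O.GD (fun _ => O.HD) e6b_Dp2600_0_0_0 e6b_Dm2600_0_0_0 rfl hf355 hf0
      (I.dt O.GD (fun _ => O.HD) e6b_Dp2700_0_0_0 e6b_Dm2700_0_0_0 rfl hf355 hf0
      (I.dt O.GD (fun _ => O.HD) e6b_Dp2800_0_0_0 e6b_Dm2800_0_0_0 rfl hf355 hf0
      (I.dt O.GD (fun _ => O.HD) e6b_Dp2900_0_0_0 e6b_Dm2900_0_0_0 rfl hf355 hf0
      (I.dt0 O.GD (fun _ => O.HD) e6b_Qp3000_0_0_0 e6b_Qm3000_0_0_0 rfl DT.nil A16 B36) A16 B36) A16 B36) A16 B36) A16 B36) A16 B36)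
    (I.qt O.GD (fun _ => O.HD) e6b_Qp2500_250_0_0 e6b_Qm2500_250_0_0 rfl
      (I.qt O.GD (fun _ => O.HD) e6b_Qp2600_250_0_0 e6b_Qm2600_250_0_0 rfl
      (I.qt O.GD (fun _ => O.HD) e6b_Qp2700_250_0_0 e6b_Qm2700_250_0_0 rfl
      (I.qt O.GD (fun _ => O.HD) e6b_Qp2800_250_0_0 e6b_Qm2800_250_0_0 rfl
      (I.qt O.GD (fun _ => O.HD) e6b_Qp2900_250_0_0 e6b_Qm2900_250_0_0 rfl
      (I.qt O.GD (fun _ => O.HD) e6b_Qp3000_0_0_0 e6b_Qm3000_0_0_0 rfl QT.nil A16 B36) A16 B36) A16 B36) A16 B36) A16 B36) A16 B36)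
    (by decide) (by decide) (by decide) O.hys O.hxs

theorem en6bx {xs ys T ρ : ℝ} (O : OneB xs ys T ρ) (I : e6b.In T ρ xs ys)
    (Is : e6bx.In T ρ xs ys) :
    En xs ys T ρ (16 / 100) (36 / 100) (fun _ => 0) (fun _ => 0) :=
  En.of (tab := [⟨2500, 2600, 0, 0, 0, 0, 0⟩, ⟨2600, 2700, 0, 0, 0, 0, 0⟩, ⟨2700, 2800, 0, 0, 0, 0, 0⟩, ⟨2800, 2900, 0, 0, 0, 0, 0⟩, ⟨2900, 3000, 0, 0, 0, 0, 0⟩, ⟨3000, 5000, 0, 0, 0, 0, 0⟩])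
    (tab' := [⟨2500, 2600, 250, 0, 0, 0, 0⟩, ⟨2600, 2700, 250, 0, 0, 0, 0⟩, ⟨2700, 2800, 250, 0, 0, 0, 0⟩, ⟨2800, 2900, 250, 0, 0, 0, 0⟩, ⟨2900, 3000, 250, 0, 0, 0, 0⟩, ⟨3000, 5000, 0, 0, 0, 0, 0⟩])
    (O.LF Is e6bx_Wa e6bx_Wb hf0)
    (Is.dt O.GD (fun _ => O.HD) e6bx_Dp2500_0_0_0 e6bx_Dm2500_0_0_0 rfl hf0 hf0
      (Is.dt O.GD (fun _ => O.HD) e6bx_Dp2600_0_0_0 e6bx_Dm2600_0_0_0 rfl hf0 hf0
      (Is.dt O.GD (fun _ => O.HD) e6bx_Dp2700_0_0_0 e6bx_Dm2700_0_0_0 rfl hf0 hf0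
      (Is.dt O.GD (fun _ => O.HD) e6bx_Dp2800_0_0_0 e6bx_Dm2800_0_0_0 rfl hf0 hf0
      (Is.dt O.GD (fun _ => O.HD) e6bx_Dp2900_0_0_0 e6bx_Dm2900_0_0_0 rfl hf0 hf0
      (I.dt0 O.GD (fun _ => O.HD) e6b_Qp3000_0_0_0 e6b_Qm3000_0_0_0 rfl DT.nil A16 B36) A16 B36) A16 B36) A16 B36) A16 B36) A16 B36)
    (I.qt O.GD (fun _ => O.HD) e6b_Qp2500_250_0_0 e6b_Qm2500_250_0_0 rfl
      (I.qt O.GD (fun _ => O.HD) e6b_Qp2600_250_0_0 e6b_Qm2600_250_0_0 rfl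
      (I.qt O.GD (fun _ => O.HD) e6b_Qp2700_250_0_0 e6b_Qm2700_250_0_0 rfl
      (I.qt O.GD (fun _ => O.HD) e6b_Qp2800_250_0_0 e6b_Qm2800_250_0_0 rfl
      (I.qt O.GD (fun _ => O.HD) e6b_Qp2900_250_0_0 e6b_Qm2900_250_0_0 rfl
      (I.qt O.GD (fun _ => O.HD) e6b_Qp3000_0_0_0 e6b_Qm3000_0_0_0 rfl QT.nil A16 B36) A16 B36) A16 B36) A16 B36) A16 B36) A16 B36)
    (by decide) (by decide) (by decide) O.hys O.hxs

theorem en6c {xs ys T ρ : ℝ} (O : OneB xs ys T ρ) (I : e6c.In T ρ xs ys) :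
    En xs ys T ρ (16 / 100) (36 / 100) (fun _ => 0) (fun _ => 0) :=
  En.of (tab := [⟨2500, 2600, 0, 0, 0, 0, 0⟩, ⟨2600, 5000, 0, 0, 0, 0, 0⟩])
    (tab' := [⟨2500, 2600, 160, 0, 0, 0, 0⟩, ⟨2600, 5000, 0, 0, 0, 0, 0⟩])
    (O.LF I e6c_Wa e6c_Wb hf0)
    (I.dt O.GD (fun _ => O.HD) e6c_Dp2500_0_0_0 e6c_Dm2500_0_0_0 rfl hf0 hf0
      (I.dt0 O.GD (fun _ => O.HD) e6c_Qp2600_0_0_0 e6c_Qm2600_0_0_0 rfl DT.nil A16 B36) A16 B36)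
    (I.qt O.GD (fun _ => O.HD) e6c_Qp2500_160_0_0 e6c_Qm2500_160_0_0 rfl
      (I.qt O.GD (fun _ => O.HD) e6c_Qp2600_0_0_0 e6c_Qm2600_0_0_0 rfl QT.nil A16 B36) A16 B36)
    (by decide) (by decide) (by decide) O.hys O.hxs

end RC

end Pool.Agent.Work.MP_b30479_gtS.G2

end

section

/-!
# Rings on the level part: pairs of hinges
-/

namespace Pool.Agent.Work.MP_b30479_gtS.G2

open Real Set

namespace RC

open R6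

theorem lf6a1 {xs ys T ρ : ℝ} (O : OneB xs ys T ρ) (I : o6a1.In T ρ xs ys) :
    LF xs ys T ρ (16 / 100) (36 / 100) (fun _ => 0) (fun _ => 0) :=
  O.LF I o6a1_Wa o6a1_Wb hf0

theorem lf6c1 {xs ys T ρ : ℝ} (O : OneB xs ys T ρ) (I : o6c1.In T ρ xs ys) :
    LF xs ys T ρ (16 / 100) (36 / 100) (fun _ => 0) (fun _ => 0) :=
  O.LF I o6c1_Wa o6c1_Wb hf0

theorem lf6b1 {xs ys T ρ : ℝ} (O : OneB xs ys T ρ) (I : o6b1.In T ρ xs ys) :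
    LF xs ys T ρ (16 / 100) (36 / 100) (fun m => 355 / 1000 * m) (fun _ => 0) :=
  O.LF I o6b1_Wa o6b1_Wb hf355

def t6a : List Te := [⟨2500, 2700, 160, 180, 0, 0, 0⟩, ⟨2700, 2900, 0, 0, 0, 0, 0⟩, ⟨2900, 5000, 0, 0, 0, 0, 0⟩]

theorem qt6a {xs ys T ρ : ℝ} (O : OneB xs ys T ρ) (I : o6a1.In T ρ xs ys) :
    QT xs ys T ρ (16 / 100) (36 / 100) t6a :=
  (I.qt O.GD (fun _ => O.HD) o6a1_Qp2500_160_180_0 o6a1_Qm2500_160_180_0 rfl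
      (I.qtz O.GD (fun _ => O.HD) o6a1_Qp2700_0_0_0 o6a1_Qm2700_0_0_0 (by decide) rfl
      (I.qtz O.GD (fun _ => O.HD) o6a1_Qp2700_0_0_0 o6a1_Qm2700_0_0_0 (by decide) rfl
      QT.nil A16 B36) A16 B36) A16 B36)

theorem dt6a_a {xs ys T ρ : ℝ} (O : OneB xs ys T ρ) (I : o6a1.In T ρ xs ys) :
    DT xs ys T ρ (16 / 100) (36 / 100) (fun _ => 0) (fun _ => 0) t6a :=
  (I.dtg O.GD (fun _ => O.HD) o6a1_Dp2500_160_180_0 o6a1_Dm2500_160_180_0 (Or.inl rfl) (Or.inl rfl) rfl hf0 hf0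
      (I.dtz O.GD (fun _ => O.HD) o6a1_Qp2700_0_0_0 o6a1_Qm2700_0_0_0 (by decide) rfl
      (I.dtz O.GD (fun _ => O.HD) o6a1_Qp2700_0_0_0 o6a1_Qm2700_0_0_0 (by decide) rfl
      DT.nil A16 B36) A16 B36) A16 B36)

theorem dt6b_a {xs ys T ρ : ℝ} (O : OneB xs ys T ρ) (I : o6b1.In T ρ xs ys) :
    DT xs ys T ρ (16 / 100) (36 / 100) (fun m => 355 / 1000 * m) (fun _ => 0) t6a :=
  (I.dtg O.GD (fun _ => O.HD) o6b1_Dp2500_160_180_0 o6b1_Dm2500_160_180_0 (Or.inl rfl) (Or.inl rfl) rfl hf355 hf0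
      (I.dt O.GD (fun _ => O.HD) o6b1_Dp2700_0_0_0 o6b1_Dm2700_0_0_0 rfl hf355 hf0
      (I.dtz O.GD (fun _ => O.HD) o6b1_Qp2900_0_0_0 o6b1_Qm2900_0_0_0 (by decide) rfl
      DT.nil A16 B36) A16 B36) A16 B36)

theorem dt6c_a {xs ys T ρ : ℝ} (O : OneB xs ys T ρ) (I : o6c1.In T ρ xs ys) :
    DT xs ys T ρ (16 / 100) (36 / 100) (fun _ => 0) (fun _ => 0) t6a :=
  (I.dtg O.GD (fun _ => O.HD) o6c1_Dp2500_160_180_0 o6c1_Dm2500_160_180_0 (Or.inl rfl) (Or.inl rfl) rfl hf0 hf0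
      (I.dtz O.GD (fun _ => O.HD) o6c1_Qp2700_0_0_0 o6c1_Qm2700_0_0_0 (by decide) rfl
      (I.dtz O.GD (fun _ => O.HD) o6c1_Qp2700_0_0_0 o6c1_Qm2700_0_0_0 (by decide) rfl
      DT.nil A16 B36) A16 B36) A16 B36)

def t6c : List Te := [⟨2500, 2700, 160, 300, 0, 0, 0⟩, ⟨2700, 2900, 0, 0, 0, 0, 0⟩, ⟨2900, 5000, 0, 0, 0, 0, 0⟩]

theorem qt6c {xs ys T ρ : ℝ} (O : OneB xs ys T ρ) (I : o6c1.In T ρ xs ys) :
    QT xs ys T ρ (16 / 100) (36 / 100) t6c :=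
  (I.qt O.GD (fun _ => O.HD) o6c1_Qp2500_160_300_0 o6c1_Qm2500_160_300_0 rfl
      (I.qtz O.GD (fun _ => O.HD) o6c1_Qp2700_0_0_0 o6c1_Qm2700_0_0_0 (by decide) rfl
      (I.qtz O.GD (fun _ => O.HD) o6c1_Qp2700_0_0_0 o6c1_Qm2700_0_0_0 (by decide) rfl
      QT.nil A16 B36) A16 B36) A16 B36)

theorem dt6a_c {xs ys T ρ : ℝ} (O : OneB xs ys T ρ) (I : o6a1.In T ρ xs ys) :
    DT xs ys T ρ (16 / 100) (36 / 100) (fun _ => 0) (fun _ => 0) t6c :=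
  (I.dtg O.GD (fun _ => O.HD) o6a1_Dp2500_160_300_0 o6a1_Dm2500_160_300_0 (Or.inl rfl) (Or.inl rfl) rfl hf0 hf0
      (I.dtz O.GD (fun _ => O.HD) o6a1_Qp2700_0_0_0 o6a1_Qm2700_0_0_0 (by decide) rfl
      (I.dtz O.GD (fun _ => O.HD) o6a1_Qp2700_0_0_0 o6a1_Qm2700_0_0_0 (by decide) rfl
      DT.nil A16 B36) A16 B36) A16 B36)

theorem dt6b_c {xs ys T ρ : ℝ} (O : OneB xs ys T ρ) (I : o6b1.In T ρ xs ys) :
    DT xs ys T ρ (16 / 100) (36 / 100) (fun m => 355 / 1000 * m) (fun _ => 0) t6c :=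
  (I.dtg O.GD (fun _ => O.HD) o6b1_Dp2500_160_300_0 o6b1_Dm2500_160_300_0 (Or.inl rfl) (Or.inl rfl) rfl hf355 hf0
      (I.dt O.GD (fun _ => O.HD) o6b1_Dp2700_0_0_0 o6b1_Dm2700_0_0_0 rfl hf355 hf0
      (I.dtz O.GD (fun _ => O.HD) o6b1_Qp2900_0_0_0 o6b1_Qm2900_0_0_0 (by decide) rfl
      DT.nil A16 B36) A16 B36) A16 B36)

theorem dt6c_c {xs ys T ρ : ℝ} (O : OneB xs ys T ρ) (I : o6c1.In T ρ xs ys) :
    DT xs ys T ρ (16 / 100) (36 / 100) (fun _ => 0) (fun _ => 0) t6c :=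
  (I.dtg O.GD (fun _ => O.HD) o6c1_Dp2500_160_300_0 o6c1_Dm2500_160_300_0 (Or.inl rfl) (Or.inl rfl) rfl hf0 hf0
      (I.dtz O.GD (fun _ => O.HD) o6c1_Qp2700_0_0_0 o6c1_Qm2700_0_0_0 (by decide) rfl
      (I.dtz O.GD (fun _ => O.HD) o6c1_Qp2700_0_0_0 o6c1_Qm2700_0_0_0 (by decide) rfl
      DT.nil A16 B36) A16 B36) A16 B36)

def t6b : List Te := [⟨2500, 2700, 115, 120, 0, 0, 0⟩, ⟨2700, 2900, 130, 150, 0, 0, 0⟩, ⟨2900, 5000, 0, 0, 0, 0, 0⟩]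

theorem qt6b {xs ys T ρ : ℝ} (O : OneB xs ys T ρ) (I : o6b1.In T ρ xs ys) :
    QT xs ys T ρ (16 / 100) (36 / 100) t6b :=
  (I.qt O.GD (fun _ => O.HD) o6b1_Qp2500_115_120_0 o6b1_Qm2500_115_120_0 rfl
      (I.qt O.GD (fun _ => O.HD) o6b1_Qp2700_130_150_0 o6b1_Qm2700_130_150_0 rfl
      (I.qtz O.GD (fun _ => O.HD) o6b1_Qp2900_0_0_0 o6b1_Qm2900_0_0_0 (by decide) rfl
      QT.nil A16 B36) A16 B36) A16 B36)

theorem dt6a_b {xs ys T ρ : ℝ} (O : OneB xs ys T ρ) (I : o6a1.In T ρ xs ys) :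
    DT xs ys T ρ (16 / 100) (36 / 100) (fun _ => 0) (fun _ => 0) t6b :=
  (I.dtg O.GD (fun _ => O.HD) o6a1_Dp2500_115_120_0 o6a1_Dm2500_115_120_0 (Or.inl rfl) (Or.inl rfl) rfl hf0 hf0
      (I.dtg O.GD (fun _ => O.HD) o6a1_Dp2700_130_150_0 o6a1_Dm2700_130_150_0 (Or.inl rfl) (Or.inl rfl) rfl hf0 hf0
      (I.dtz O.GD (fun _ => O.HD) o6a1_Qp2700_0_0_0 o6a1_Qm2700_0_0_0 (by decide) rfl
      DT.nil A16 B36) A16 B36) A16 B36)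

theorem dt6b_b {xs ys T ρ : ℝ} (O : OneB xs ys T ρ) (I : o6b1.In T ρ xs ys) :
    DT xs ys T ρ (16 / 100) (36 / 100) (fun m => 355 / 1000 * m) (fun _ => 0) t6b :=
  (I.dtg O.GD (fun _ => O.HD) o6b1_Dp2500_115_120_0 o6b1_Dm2500_115_120_0 (Or.inl rfl) (Or.inl rfl) rfl hf355 hf0
      (I.dtg O.GD (fun _ => O.HD) o6b1_Dp2700_130_150_0 o6b1_Dm2700_130_150_0 (Or.inl rfl) (Or.inl rfl) rfl hf355 hf0
      (I.dtz O.GD (fun _ => O.HD) o6b1_Qp2900_0_0_0 o6b1_Qm2900_0_0_0 (by decide) rfl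
      DT.nil A16 B36) A16 B36) A16 B36)

theorem dt6c_b {xs ys T ρ : ℝ} (O : OneB xs ys T ρ) (I : o6c1.In T ρ xs ys) :
    DT xs ys T ρ (16 / 100) (36 / 100) (fun _ => 0) (fun _ => 0) t6b :=
  (I.dtg O.GD (fun _ => O.HD) o6c1_Dp2500_115_120_0 o6c1_Dm2500_115_120_0 (Or.inl rfl) (Or.inl rfl) rfl hf0 hf0
      (I.dtg O.GD (fun _ => O.HD) o6c1_Dp2700_130_150_0 o6c1_Dm2700_130_150_0 (Or.inl rfl) (Or.inl rfl) rfl hf0 hf0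
      (I.dtz O.GD (fun _ => O.HD) o6c1_Qp2700_0_0_0 o6c1_Qm2700_0_0_0 (by decide) rfl
      DT.nil A16 B36) A16 B36) A16 B36)

theorem lf6bx1 {xs ys T ρ : ℝ} (O : OneB xs ys T ρ) (I : o6b1x.In T ρ xs ys) :
    LF xs ys T ρ (16 / 100) (36 / 100) (fun _ => 0) (fun _ => 0) :=
  O.LF I o6b1x_Wa o6b1x_Wb hf0

theorem dt6bx_a {xs ys T ρ : ℝ} (O : OneB xs ys T ρ) (I : o6b1.In T ρ xs ys)
    (Is : o6b1x.In T ρ xs ys) : DT xs ys T ρ (16 / 100) (36 / 100) (fun _ => 0) (fun _ => 0) t6a :=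
  (Is.dtg O.GD (fun _ => O.HD) o6b1x_Dp2500_160_180_0 o6b1x_Dm2500_160_180_0 (Or.inl rfl) (Or.inl rfl) rfl hf0 hf0
      (Is.dt O.GD (fun _ => O.HD) o6b1x_Dp2700_0_0_0 o6b1x_Dm2700_0_0_0 rfl hf0 hf0
      (I.dtz O.GD (fun _ => O.HD) o6b1_Qp2900_0_0_0 o6b1_Qm2900_0_0_0 (by decide) rfl
      DT.nil A16 B36) A16 B36) A16 B36)

theorem dt6bx_c {xs ys T ρ : ℝ} (O : OneB xs ys T ρ) (I : o6b1.In T ρ xs ys)
    (Is : o6b1x.In T ρ xs ys) : DT xs ys T ρ (16 / 100) (36 / 100) (fun _ => 0) (fun _ => 0) t6c :=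
  (Is.dtg O.GD (fun _ => O.HD) o6b1x_Dp2500_160_300_0 o6b1x_Dm2500_160_300_0 (Or.inl rfl) (Or.inl rfl) rfl hf0 hf0
      (Is.dt O.GD (fun _ => O.HD) o6b1x_Dp2700_0_0_0 o6b1x_Dm2700_0_0_0 rfl hf0 hf0
      (I.dtz O.GD (fun _ => O.HD) o6b1_Qp2900_0_0_0 o6b1_Qm2900_0_0_0 (by decide) rfl
      DT.nil A16 B36) A16 B36) A16 B36)

theorem dt6bx_b {xs ys T ρ : ℝ} (O : OneB xs ys T ρ) (I : o6b1.In T ρ xs ys)
    (Is : o6b1x.In T ρ xs ys) : DT xs ys T ρ (16 / 100) (36 / 100) (fun _ => 0) (fun _ => 0) t6b :=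
  (Is.dtg O.GD (fun _ => O.HD) o6b1x_Dp2500_115_120_0 o6b1x_Dm2500_115_120_0 (Or.inl rfl) (Or.inl rfl) rfl hf0 hf0
      (Is.dtg O.GD (fun _ => O.HD) o6b1x_Dp2700_130_150_0 o6b1x_Dm2700_130_150_0 (Or.inl rfl) (Or.inl rfl) rfl hf0 hf0
      (I.dtz O.GD (fun _ => O.HD) o6b1_Qp2900_0_0_0 o6b1_Qm2900_0_0_0 (by decide) rfl
      DT.nil A16 B36) A16 B36) A16 B36)

end RC

end Pool.Agent.Work.MP_b30479_gtS.G2

end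

section

/-!
# Rings on the level part: rings between two digits `1`, rings at an end
-/

namespace Pool.Agent.Work.MP_b30479_gtS.G2

open Finset VOL Filter Topology

namespace SR

/-- the tables of bounds -/
def t6 : Cl → List RC.Te
  | .one => RC.t6a
  | .two => RC.t6b
  | _ => RC.t6c

theorem t6_cov (C : Cl) : RC.cov 2500 (t6 C) = true := by
  cases C <;> decide

theorem ok6a {xs ys T ρ : ℝ} {s : Bool} (q : (rq6 .one .one s).Re xs ys T ρ) :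
    ∃ f, FS 6 .one xs T f ∧ OKt t6 (fun _ => True) .one xs ys T ρ f := by
  have q0 : (mk4 2243 2781 1148 1459 886 1522 133 457 (-1181) (-591) 4077 3944).Re xs ys T ρ := q
  have O := q0.oneB RC.Row.cH6 (by decide)
  have I : RC.o6a1.In T ρ xs ys := wd4_in q0 (by decide)
  refine ⟨_, Or.inl rfl, RC.lf6a1 O I, RC.qt6a O I, fun C' hC => ?_, O.hys, O.hxs⟩
  cases C'
  · exact RC.dt6a_a O I
  · exact RC.dt6a_b O I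
  all_goals exact RC.dt6a_c O I

theorem ok6b {xs ys T ρ : ℝ} {s : Bool} (q : (rq6 .two .one s).Re xs ys T ρ) :
    ∃ f, FS 6 .two xs T f ∧ OKt t6 (fun _ => True) .two xs ys T ρ f := by
  have q0 : (mk4 2528 2958 1131 1426 1155 1585 130 432 (-1307) (-886) 4239 4109).Re xs ys T ρ := q
  have O := q0.oneB RC.Row.cH6 (by decide)
  have I : RC.o6b1.In T ρ xs ys := wd4_in q0 (by decide)
  rcases le_or_gt xs (2563 / 10000) with hs | hs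
  · have Is : RC.o6b1x.In T ρ xs ys := I.cut (n := 2563) (by push_cast; exact hs)
    refine ⟨_, Or.inl rfl, RC.lf6bx1 O Is, RC.qt6b O I, fun C' hC => ?_, O.hys, O.hxs⟩
    cases C'
    · exact RC.dt6bx_a O I Is
    · exact RC.dt6bx_b O I Is
    all_goals exact RC.dt6bx_c O I Is
  · refine ⟨_, Or.inr ⟨rfl, hs.le, Or.inr ⟨by decide, q0.tlo5 (by decide), rfl⟩⟩,
      RC.lf6b1 O I, RC.qt6b O I, fun C' hC => ?_, O.hys, O.hxs⟩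
    cases C'
    · exact RC.dt6b_a O I
    · exact RC.dt6b_b O I
    all_goals exact RC.dt6b_c O I

theorem ok6c {xs ys T ρ : ℝ} {s : Bool} (q : (rq6 .twoE .one s).Re xs ys T ρ) :
    ∃ f, FS 6 .twoE xs T f ∧ OKt t6 (fun _ => True) .twoE xs ys T ρ f := by
  have q0 : (mk4 2363 2615 1142 1434 1476 1755 112 403 (-1488) (-1232) 3929 3817).Re xs ys T ρ := q
  have O := q0.oneB RC.Row.cH6 (by decide)
  have I : RC.o6c1.In T ρ xs ys := wd4_in q0 (by decide)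
  refine ⟨_, Or.inl rfl, RC.lf6c1 O I, RC.qt6c O I, fun C' hC => ?_, O.hys, O.hxs⟩
  cases C'
  · exact RC.dt6c_a O I
  · exact RC.dt6c_b O I
  all_goals exact RC.dt6c_c O I

theorem po6 {xs ys T ρ xs' T' : ℝ} {C C' : Cl} {s : Bool} {s' : Bool} 
    (hC : C = .one ∨ C = .two ∨ C = .twoE) (hC' : C' = .one ∨ C' = .two ∨ C' = .twoE)
    (q : (rq6 C .one s).Re xs ys T ρ)
    (q' : (rq6 C' .one s').Re xs' ys T' ρ) :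
    PrO 6 C C' xs ys T ρ xs' T' := by
  rcases hC with rfl | rfl | rfl <;> rcases hC' with rfl | rfl | rfl
  · obtain ⟨f, hf, k⟩ := ok6a q
    obtain ⟨f', hf', k'⟩ := ok6a q'
    exact ⟨f, f', hf, hf', k.pr k' trivial trivial t6_cov⟩
  · obtain ⟨f, hf, k⟩ := ok6a q
    obtain ⟨f', hf', k'⟩ := ok6b q'
    exact ⟨f, f', hf, hf', k.pr k' trivial trivial t6_cov⟩
  · obtain ⟨f, hf, k⟩ := ok6a q
    obtain ⟨f', hf', k'⟩ := ok6c q'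
    exact ⟨f, f', hf, hf', k.pr k' trivial trivial t6_cov⟩
  · obtain ⟨f, hf, k⟩ := ok6b q
    obtain ⟨f', hf', k'⟩ := ok6a q'
    exact ⟨f, f', hf, hf', k.pr k' trivial trivial t6_cov⟩
  · obtain ⟨f, hf, k⟩ := ok6b q
    obtain ⟨f', hf', k'⟩ := ok6b q'
    exact ⟨f, f', hf, hf', k.pr k' trivial trivial t6_cov⟩
  · obtain ⟨f, hf, k⟩ := ok6b q
    obtain ⟨f', hf', k'⟩ := ok6c q'
    exact ⟨f, f', hf, hf', k.pr k' trivial trivial t6_cov⟩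
  · obtain ⟨f, hf, k⟩ := ok6c q
    obtain ⟨f', hf', k'⟩ := ok6a q'
    exact ⟨f, f', hf, hf', k.pr k' trivial trivial t6_cov⟩
  · obtain ⟨f, hf, k⟩ := ok6c q
    obtain ⟨f', hf', k'⟩ := ok6b q'
    exact ⟨f, f', hf, hf', k.pr k' trivial trivial t6_cov⟩
  · obtain ⟨f, hf, k⟩ := ok6c q
    obtain ⟨f', hf', k'⟩ := ok6c q'
    exact ⟨f, f', hf, hf', k.pr k' trivial trivial t6_cov⟩

theorem em6a {xs ys T ρ : ℝ} (q : (re6 .one).Re xs ys T ρ) : EnS 6 .one xs ys T ρ := by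
  have q0 : (mk4 2188 2723 1343 1628 772 1316 52 328 (-1138) (-564) 4186 4134).Re xs ys T ρ := q
  have O := q0.oneB RC.Row.cH6 (by decide)
  have I : RC.e6a.In T ρ xs ys := wd4_in q0 (by decide)
  exact ⟨_, Or.inl rfl, RC.en6a O I⟩

theorem em6b {xs ys T ρ : ℝ} (q : (re6 .two).Re xs ys T ρ) : EnS 6 .two xs ys T ρ := by
  have q0 : (mk4 2475 2902 1318 1583 1040 1434 54 311 (-1259) (-849) 4340 4286).Re xs ys T ρ := q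
  have O := q0.oneB RC.Row.cH6 (by decide)
  have I : RC.e6b.In T ρ xs ys := wd4_in q0 (by decide)
  rcases le_or_gt xs (2563 / 10000) with hs | hs
  · have Is : RC.e6bx.In T ρ xs ys := I.cut (n := 2563) (by push_cast; exact hs)
    exact ⟨_, Or.inl rfl, RC.en6bx O I Is⟩
  · exact ⟨_, Or.inr ⟨rfl, hs.le, Or.inr ⟨by decide, q0.tlo5 (by decide), rfl⟩⟩, RC.en6b O I⟩

theorem em6c {xs ys T ρ : ℝ} (q : (re6 .twoE).Re xs ys T ρ) : EnS 6 .twoE xs ys T ρ := by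
  have q0 : (mk4 2320 2560 1344 1584 1348 1588 29 269 (-1440) (-1200) 4024 3995).Re xs ys T ρ := q
  have O := q0.oneB RC.Row.cH6 (by decide)
  have I : RC.e6c.In T ρ xs ys := wd4_in q0 (by decide)
  exact ⟨_, Or.inl rfl, RC.en6c O I⟩

theorem pe6 {xs ys T ρ : ℝ} {C : Cl} (hC : C = .one ∨ C = .two ∨ C = .twoE)
    (q : (re6 C).Re xs ys T ρ) : EnS 6 C xs ys T ρ := by
  rcases hC with rfl | rfl | rfl
  · exact em6a q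
  · exact em6b q
  · exact em6c q

end SR

end Pool.Agent.Work.MP_b30479_gtS.G2

end
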