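import Pool.Agent.Work.MP_b30479_gt.TBS.G2.RGn06
import Pool.Agent.Work.MP_b30479_gt.TBS.G2.RKind
import Pool.Agent.Work.MP_b30479_gt.TBS.G2.RGn11
import Pool.Agent.Work.MP_b30479_gt.TBS.G2.RLvl6
import Pool.Agent.Work.MP_b30479_gt.TBS.G2.WLocF

section

/-!
# Rings on the level part: pairs of hinges
-/

namespace Pool.Agent.Work.MP_b30479_gtS.G2

open Real Set

namespace RC

open R6

theorem en7a {xs ys T ρ : ℝ} (O : OneB xs ys T ρ) (I : e7a.In T ρ xs ys) :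
    En xs ys T ρ (16 / 100) (36 / 100) (fun _ => 0) (fun _ => 0) :=
  En.of (tab := [⟨2500, 2600, 0, 0, 0, 0, 0⟩, ⟨2600, 2700, 0, 0, 0, 0, 0⟩, ⟨2700, 5000, 0, 0, 0, 0, 0⟩])
    (tab' := [⟨2500, 2600, 250, 0, 0, 0, 0⟩, ⟨2600, 2700, 250, 0, 0, 0, 0⟩, ⟨2700, 5000, 0, 0, 0, 0, 0⟩])
    (O.LF I e7a_Wa e7a_Wb hf0)
    (I.dt O.GD (fun _ => O.HD) e7a_Dp2500_0_0_0 e7a_Dm2500_0_0_0 rfl hf0 hf0
      (I.dt O.GD (fun _ => O.HD) e7a_Dp2600_0_0_0 e7a_Dm2600_0_0_0 rfl hf0 hf0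
      (I.dt0 O.GD (fun _ => O.HD) e7a_Qp2700_0_0_0 e7a_Qm2700_0_0_0 rfl DT.nil A16 B36) A16 B36) A16 B36)
    (I.qt O.GD (fun _ => O.HD) e7a_Qp2500_250_0_0 e7a_Qm2500_250_0_0 rfl
      (I.qt O.GD (fun _ => O.HD) e7a_Qp2600_250_0_0 e7a_Qm2600_250_0_0 rfl
      (I.qt O.GD (fun _ => O.HD) e7a_Qp2700_0_0_0 e7a_Qm2700_0_0_0 rfl QT.nil A16 B36) A16 B36) A16 B36)
    (by decide) (by decide) (by decide) O.hys O.hxs

theorem en7b {xs ys T ρ : ℝ} (O : OneB xs ys T ρ) (I : e7b.In T ρ xs ys) :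
    En xs ys T ρ (16 / 100) (36 / 100) (fun _ => 0) (fun _ => 0) :=
  En.of (tab := [⟨2500, 2600, 0, 0, 0, 0, 0⟩, ⟨2600, 2700, 0, 0, 0, 0, 0⟩, ⟨2700, 2800, 0, 0, 0, 0, 0⟩, ⟨2800, 5000, 0, 0, 0, 0, 0⟩])
    (tab' := [⟨2500, 2600, 250, 0, 0, 0, 0⟩, ⟨2600, 2700, 250, 0, 0, 0, 0⟩, ⟨2700, 2800, 160, 0, 0, 0, 0⟩, ⟨2800, 5000, 0, 0, 0, 0, 0⟩])
    (O.LF I e7b_Wa e7b_Wb hf0)
    (I.dt O.GD (fun _ => O.HD) e7b_Dp2500_0_0_0 e7b_Dm2500_0_0_0 rfl hf0 hf0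
      (I.dt O.GD (fun _ => O.HD) e7b_Dp2600_0_0_0 e7b_Dm2600_0_0_0 rfl hf0 hf0
      (I.dt O.GD (fun _ => O.HD) e7b_Dp2700_0_0_0 e7b_Dm2700_0_0_0 rfl hf0 hf0
      (I.dt0 O.GD (fun _ => O.HD) e7b_Qp2800_0_0_0 e7b_Qm2800_0_0_0 rfl DT.nil A16 B36) A16 B36) A16 B36) A16 B36)
    (I.qt O.GD (fun _ => O.HD) e7b_Qp2500_250_0_0 e7b_Qm2500_250_0_0 rfl
      (I.qt O.GD (fun _ => O.HD) e7b_Qp2600_250_0_0 e7b_Qm2600_250_0_0 rfl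
      (I.qt O.GD (fun _ => O.HD) e7b_Qp2700_160_0_0 e7b_Qm2700_160_0_0 rfl
      (I.qt O.GD (fun _ => O.HD) e7b_Qp2800_0_0_0 e7b_Qm2800_0_0_0 rfl QT.nil A16 B36) A16 B36) A16 B36) A16 B36)
    (by decide) (by decide) (by decide) O.hys O.hxs

theorem en7c {xs ys T ρ : ℝ} (O : OneB xs ys T ρ) (I : e7c.In T ρ xs ys) :
    En xs ys T ρ (16 / 100) (36 / 100) (fun _ => 0) (fun _ => 0) :=
  En.of (tab := [⟨2500, 5000, 0, 0, 0, 0, 0⟩])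
    (tab' := [⟨2500, 5000, 0, 0, 0, 0, 0⟩])
    (O.LF I e7c_Wa e7c_Wb hf0)
    (I.dt0 O.GD (fun _ => O.HD) e7c_Qp2500_0_0_0 e7c_Qm2500_0_0_0 rfl DT.nil A16 B36)
    (I.qt O.GD (fun _ => O.HD) e7c_Qp2500_0_0_0 e7c_Qm2500_0_0_0 rfl QT.nil A16 B36)
    (by decide) (by decide) (by decide) O.hys O.hxs

end RC

end Pool.Agent.Work.MP_b30479_gtS.G2

end

section

/-!
# Rings on the level part: pairs of hinges
-/

namespace Pool.Agent.Work.MP_b30479_gtS.G2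

open Real Set

namespace RC

open R6

theorem lf7a1 {xs ys T ρ : ℝ} (O : OneB xs ys T ρ) (I : o7a1.In T ρ xs ys) :
    LF xs ys T ρ (16 / 100) (36 / 100) (fun _ => 0) (fun _ => 0) :=
  O.LF I o7a1_Wa o7a1_Wb hf0

theorem lf7c1 {xs ys T ρ : ℝ} (O : OneB xs ys T ρ) (I : o7c1.In T ρ xs ys) :
    LF xs ys T ρ (16 / 100) (36 / 100) (fun _ => 0) (fun _ => 0) :=
  O.LF I o7c1_Wa o7c1_Wb hf0

theorem lf7b1 {xs ys T ρ : ℝ} (O : OneB xs ys T ρ) (I : o7b1.In T ρ xs ys) :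
    LF xs ys T ρ (16 / 100) (36 / 100) (fun _ => 0) (fun _ => 0) :=
  O.LF I o7b1_Wa o7b1_Wb hf0

def t7a : List Te := [⟨2500, 2700, 130, 180, 0, 0, 0⟩, ⟨2700, 2900, 0, 0, 0, 0, 0⟩, ⟨2900, 5000, 0, 0, 0, 0, 0⟩]

theorem qt7a {xs ys T ρ : ℝ} (O : OneB xs ys T ρ) (I : o7a1.In T ρ xs ys) :
    QT xs ys T ρ (16 / 100) (36 / 100) t7a :=
  (I.qt O.GD (fun _ => O.HD) o7a1_Qp2500_130_180_0 o7a1_Qm2500_130_180_0 rfl
      (I.qtz O.GD (fun _ => O.HD) o7a1_Qp2700_0_0_0 o7a1_Qm2700_0_0_0 (by decide) rfl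
      (I.qtz O.GD (fun _ => O.HD) o7a1_Qp2700_0_0_0 o7a1_Qm2700_0_0_0 (by decide) rfl
      QT.nil A16 B36) A16 B36) A16 B36)

theorem dt7a_a {xs ys T ρ : ℝ} (O : OneB xs ys T ρ) (I : o7a1.In T ρ xs ys) :
    DT xs ys T ρ (16 / 100) (36 / 100) (fun _ => 0) (fun _ => 0) t7a :=
  (I.dtg O.GD (fun _ => O.HD) o7a1_Dp2500_130_180_0 o7a1_Dm2500_130_180_0 (Or.inl rfl) (Or.inl rfl) rfl hf0 hf0
      (I.dtz O.GD (fun _ => O.HD) o7a1_Qp2700_0_0_0 o7a1_Qm2700_0_0_0 (by decide) rfl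
      (I.dtz O.GD (fun _ => O.HD) o7a1_Qp2700_0_0_0 o7a1_Qm2700_0_0_0 (by decide) rfl
      DT.nil A16 B36) A16 B36) A16 B36)

theorem dt7b_a {xs ys T ρ : ℝ} (O : OneB xs ys T ρ) (I : o7b1.In T ρ xs ys) :
    DT xs ys T ρ (16 / 100) (36 / 100) (fun _ => 0) (fun _ => 0) t7a :=
  (I.dtg O.GD (fun _ => O.HD) o7b1_Dp2500_130_180_0 o7b1_Dm2500_130_180_0 (Or.inl rfl) (Or.inl rfl) rfl hf0 hf0
      (I.dt O.GD (fun _ => O.HD) o7b1_Dp2700_0_0_0 o7b1_Dm2700_0_0_0 rfl hf0 hf0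
      (I.dtz O.GD (fun _ => O.HD) o7b1_Qp2900_0_0_0 o7b1_Qm2900_0_0_0 (by decide) rfl
      DT.nil A16 B36) A16 B36) A16 B36)

theorem dt7c_a {xs ys T ρ : ℝ} (O : OneB xs ys T ρ) (I : o7c1.In T ρ xs ys) :
    DT xs ys T ρ (16 / 100) (36 / 100) (fun _ => 0) (fun _ => 0) t7a :=
  (I.dtg O.GD (fun _ => O.HD) o7c1_Dp2500_130_180_0 o7c1_Dm2500_130_180_0 (Or.inl rfl) (Or.inl rfl) rfl hf0 hf0
      (I.dtz O.GD (fun _ => O.HD) o7c1_Qp2500_0_0_0 o7c1_Qm2500_0_0_0 (by decide) rfl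
      (I.dtz O.GD (fun _ => O.HD) o7c1_Qp2500_0_0_0 o7c1_Qm2500_0_0_0 (by decide) rfl
      DT.nil A16 B36) A16 B36) A16 B36)

def t7c : List Te := [⟨2500, 2700, 0, 0, 0, 0, 0⟩, ⟨2700, 2900, 0, 0, 0, 0, 0⟩, ⟨2900, 5000, 0, 0, 0, 0, 0⟩]

theorem qt7c {xs ys T ρ : ℝ} (O : OneB xs ys T ρ) (I : o7c1.In T ρ xs ys) :
    QT xs ys T ρ (16 / 100) (36 / 100) t7c :=
  (I.qtz O.GD (fun _ => O.HD) o7c1_Qp2500_0_0_0 o7c1_Qm2500_0_0_0 (by decide) rfl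
      (I.qtz O.GD (fun _ => O.HD) o7c1_Qp2500_0_0_0 o7c1_Qm2500_0_0_0 (by decide) rfl
      (I.qtz O.GD (fun _ => O.HD) o7c1_Qp2500_0_0_0 o7c1_Qm2500_0_0_0 (by decide) rfl
      QT.nil A16 B36) A16 B36) A16 B36)

theorem dt7a_c {xs ys T ρ : ℝ} (O : OneB xs ys T ρ) (I : o7a1.In T ρ xs ys) :
    DT xs ys T ρ (16 / 100) (36 / 100) (fun _ => 0) (fun _ => 0) t7c :=
  (I.dt O.GD (fun _ => O.HD) o7a1_Dp2500_0_0_0 o7a1_Dm2500_0_0_0 rfl hf0 hf0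
      (I.dtz O.GD (fun _ => O.HD) o7a1_Qp2700_0_0_0 o7a1_Qm2700_0_0_0 (by decide) rfl
      (I.dtz O.GD (fun _ => O.HD) o7a1_Qp2700_0_0_0 o7a1_Qm2700_0_0_0 (by decide) rfl
      DT.nil A16 B36) A16 B36) A16 B36)

theorem dt7b_c {xs ys T ρ : ℝ} (O : OneB xs ys T ρ) (I : o7b1.In T ρ xs ys) :
    DT xs ys T ρ (16 / 100) (36 / 100) (fun _ => 0) (fun _ => 0) t7c :=
  (I.dt O.GD (fun _ => O.HD) o7b1_Dp2500_0_0_0 o7b1_Dm2500_0_0_0 rfl hf0 hf0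
      (I.dt O.GD (fun _ => O.HD) o7b1_Dp2700_0_0_0 o7b1_Dm2700_0_0_0 rfl hf0 hf0
      (I.dtz O.GD (fun _ => O.HD) o7b1_Qp2900_0_0_0 o7b1_Qm2900_0_0_0 (by decide) rfl
      DT.nil A16 B36) A16 B36) A16 B36)

theorem dt7c_c {xs ys T ρ : ℝ} (O : OneB xs ys T ρ) (I : o7c1.In T ρ xs ys) :
    DT xs ys T ρ (16 / 100) (36 / 100) (fun _ => 0) (fun _ => 0) t7c :=
  (I.dtz O.GD (fun _ => O.HD) o7c1_Qp2500_0_0_0 o7c1_Qm2500_0_0_0 (by decide) rfl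
      (I.dtz O.GD (fun _ => O.HD) o7c1_Qp2500_0_0_0 o7c1_Qm2500_0_0_0 (by decide) rfl
      (I.dtz O.GD (fun _ => O.HD) o7c1_Qp2500_0_0_0 o7c1_Qm2500_0_0_0 (by decide) rfl
      DT.nil A16 B36) A16 B36) A16 B36)

def t7b : List Te := [⟨2500, 2700, 115, 150, 0, 0, 0⟩, ⟨2700, 2900, 130, 180, 0, 0, 0⟩, ⟨2900, 5000, 0, 0, 0, 0, 0⟩]

theorem qt7b {xs ys T ρ : ℝ} (O : OneB xs ys T ρ) (I : o7b1.In T ρ xs ys) :
    QT xs ys T ρ (16 / 100) (36 / 100) t7b :=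
  (I.qt O.GD (fun _ => O.HD) o7b1_Qp2500_115_150_0 o7b1_Qm2500_115_150_0 rfl
      (I.qt O.GD (fun _ => O.HD) o7b1_Qp2700_130_180_0 o7b1_Qm2700_130_180_0 rfl
      (I.qtz O.GD (fun _ => O.HD) o7b1_Qp2900_0_0_0 o7b1_Qm2900_0_0_0 (by decide) rfl
      QT.nil A16 B36) A16 B36) A16 B36)

theorem dt7a_b {xs ys T ρ : ℝ} (O : OneB xs ys T ρ) (I : o7a1.In T ρ xs ys) :
    DT xs ys T ρ (16 / 100) (36 / 100) (fun _ => 0) (fun _ => 0) t7b :=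
  (I.dtg O.GD (fun _ => O.HD) o7a1_Dp2500_115_150_0 o7a1_Dm2500_115_150_0 (Or.inl rfl) (Or.inl rfl) rfl hf0 hf0
      (I.dtg O.GD (fun _ => O.HD) o7a1_Dp2700_130_180_0 o7a1_Dm2700_130_180_0 (Or.inl rfl) (Or.inl rfl) rfl hf0 hf0
      (I.dtz O.GD (fun _ => O.HD) o7a1_Qp2700_0_0_0 o7a1_Qm2700_0_0_0 (by decide) rfl
      DT.nil A16 B36) A16 B36) A16 B36)

theorem dt7b_b {xs ys T ρ : ℝ} (O : OneB xs ys T ρ) (I : o7b1.In T ρ xs ys) :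
    DT xs ys T ρ (16 / 100) (36 / 100) (fun _ => 0) (fun _ => 0) t7b :=
  (I.dtg O.GD (fun _ => O.HD) o7b1_Dp2500_115_150_0 o7b1_Dm2500_115_150_0 (Or.inl rfl) (Or.inl rfl) rfl hf0 hf0
      (I.dtg O.GD (fun _ => O.HD) o7b1_Dp2700_130_180_0 o7b1_Dm2700_130_180_0 (Or.inl rfl) (Or.inl rfl) rfl hf0 hf0
      (I.dtz O.GD (fun _ => O.HD) o7b1_Qp2900_0_0_0 o7b1_Qm2900_0_0_0 (by decide) rfl
      DT.nil A16 B36) A16 B36) A16 B36)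

theorem dt7c_b {xs ys T ρ : ℝ} (O : OneB xs ys T ρ) (I : o7c1.In T ρ xs ys) :
    DT xs ys T ρ (16 / 100) (36 / 100) (fun _ => 0) (fun _ => 0) t7b :=
  (I.dtg O.GD (fun _ => O.HD) o7c1_Dp2500_115_150_0 o7c1_Dm2500_115_150_0 (Or.inl rfl) (Or.inl rfl) rfl hf0 hf0
      (I.dtg O.GD (fun _ => O.HD) o7c1_Dp2700_130_180_0 o7c1_Dm2700_130_180_0 (Or.inl rfl) (Or.inl rfl) rfl hf0 hf0
      (I.dtz O.GD (fun _ => O.HD) o7c1_Qp2500_0_0_0 o7c1_Qm2500_0_0_0 (by decide) rfl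
      DT.nil A16 B36) A16 B36) A16 B36)

end RC

end Pool.Agent.Work.MP_b30479_gtS.G2

end

section

/-!
# Rings on the level part: rings between two digits `1`, rings at an end
-/

namespace Pool.Agent.Work.MP_b30479_gtS.G2

open Finset VOL Filter Topology

namespace SR

/-- the tables of bounds -/
def t7 : Cl → List RC.Te
  | .one => RC.t7a
  | .two => RC.t7b
  | _ => RC.t7c

theorem t7_cov (C : Cl) : RC.cov 2500 (t7 C) = true := by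
  cases C <;> decide

theorem ok7a {xs ys T ρ : ℝ} (q : (rc7 .one).Re xs ys T ρ) :
    ∃ f, FS 7 .one xs T f ∧ OKt t7 (fun _ => True) .one xs ys T ρ f := by
  have q0 : (mk4 2205 2760 1032 1410 800 1640 104 400 (-1240) (-640) 4070 3966).Re xs ys T ρ := q
  have O := q0.oneB RC.Row.cH8 (by decide)
  have I : RC.o7a1.In T ρ xs ys := wd4_in q0 (by decide)
  refine ⟨_, Or.inl rfl, RC.lf7a1 O I, RC.qt7a O I, fun C' hC => ?_, O.hys, O.hxs⟩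
  cases C'
  · exact RC.dt7a_a O I
  · exact RC.dt7a_b O I
  all_goals exact RC.dt7a_c O I

theorem ok7b {xs ys T ρ : ℝ} (q : (rc7 .two).Re xs ys T ρ) :
    ∃ f, FS 7 .two xs T f ∧ OKt t7 (fun _ => True) .two xs ys T ρ f := by
  have q0 : (mk4 2560 2930 1051 1348 1120 1689 127 379 (-1310) (-950) 4210 4083).Re xs ys T ρ := q
  have O := q0.oneB RC.Row.cH8 (by decide)
  have I : RC.o7b1.In T ρ xs ys := wd4_in q0 (by decide)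
  refine ⟨_, Or.inl rfl, RC.lf7b1 O I, RC.qt7b O I, fun C' hC => ?_, O.hys, O.hxs⟩
  cases C'
  · exact RC.dt7b_a O I
  · exact RC.dt7b_b O I
  all_goals exact RC.dt7b_c O I

theorem ok7c {xs ys T ρ : ℝ} (q : (rc7 .twoE).Re xs ys T ρ) :
    ∃ f, FS 7 .twoE xs T f ∧ OKt t7 (fun _ => True) .twoE xs ys T ρ f := by
  have q0 : (mk4 2425 2545 1070 1337 1450 1788 115 338 (-1450) (-1320) 3870 3755).Re xs ys T ρ := q
  have O := q0.oneB RC.Row.cH8 (by decide)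
  have I : RC.o7c1.In T ρ xs ys := wd4_in q0 (by decide)
  refine ⟨_, Or.inl rfl, RC.lf7c1 O I, RC.qt7c O I, fun C' hC => ?_, O.hys, O.hxs⟩
  cases C'
  · exact RC.dt7c_a O I
  · exact RC.dt7c_b O I
  all_goals exact RC.dt7c_c O I

theorem po7 {xs ys T ρ xs' T' : ℝ} {C C' : Cl} 
    (hC : C = .one ∨ C = .two ∨ C = .twoE) (hC' : C' = .one ∨ C' = .two ∨ C' = .twoE)
    (q : (rc7 C).Re xs ys T ρ)
    (q' : (rc7 C').Re xs' ys T' ρ) :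
    PrO 7 C C' xs ys T ρ xs' T' := by
  rcases hC with rfl | rfl | rfl <;> rcases hC' with rfl | rfl | rfl
  · obtain ⟨f, hf, k⟩ := ok7a q
    obtain ⟨f', hf', k'⟩ := ok7a q'
    exact ⟨f, f', hf, hf', k.pr k' trivial trivial t7_cov⟩
  · obtain ⟨f, hf, k⟩ := ok7a q
    obtain ⟨f', hf', k'⟩ := ok7b q'
    exact ⟨f, f', hf, hf', k.pr k' trivial trivial t7_cov⟩
  · obtain ⟨f, hf, k⟩ := ok7a q
    obtain ⟨f', hf', k'⟩ := ok7c q'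
    exact ⟨f, f', hf, hf', k.pr k' trivial trivial t7_cov⟩
  · obtain ⟨f, hf, k⟩ := ok7b q
    obtain ⟨f', hf', k'⟩ := ok7a q'
    exact ⟨f, f', hf, hf', k.pr k' trivial trivial t7_cov⟩
  · obtain ⟨f, hf, k⟩ := ok7b q
    obtain ⟨f', hf', k'⟩ := ok7b q'
    exact ⟨f, f', hf, hf', k.pr k' trivial trivial t7_cov⟩
  · obtain ⟨f, hf, k⟩ := ok7b q
    obtain ⟨f', hf', k'⟩ := ok7c q'
    exact ⟨f, f', hf, hf', k.pr k' trivial trivial t7_cov⟩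
  · obtain ⟨f, hf, k⟩ := ok7c q
    obtain ⟨f', hf', k'⟩ := ok7a q'
    exact ⟨f, f', hf, hf', k.pr k' trivial trivial t7_cov⟩
  · obtain ⟨f, hf, k⟩ := ok7c q
    obtain ⟨f', hf', k'⟩ := ok7b q'
    exact ⟨f, f', hf, hf', k.pr k' trivial trivial t7_cov⟩
  · obtain ⟨f, hf, k⟩ := ok7c q
    obtain ⟨f', hf', k'⟩ := ok7c q'
    exact ⟨f, f', hf, hf', k.pr k' trivial trivial t7_cov⟩

theorem em7a {xs ys T ρ : ℝ} (q : (re7 .one).Re xs ys T ρ) : EnS 7 .one xs ys T ρ := by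
  have q0 : (mk4 2170 2780 1120 1474 731 1369 1 316 (-1235) (-575) 4063 4062).Re xs ys T ρ := q
  have O := q0.oneB RC.Row.cH8 (by decide)
  have I : RC.e7a.In T ρ xs ys := wd4_in q0 (by decide)
  exact ⟨_, Or.inl rfl, RC.en7a O I⟩

theorem em7b {xs ys T ρ : ℝ} (q : (re7 .two).Re xs ys T ρ) : EnS 7 .two xs ys T ρ := by
  have q0 : (mk4 2494 2920 1141 1400 1054 1454 12 264 (-1322) (-909) 4181 4169).Re xs ys T ρ := q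
  have O := q0.oneB RC.Row.cH8 (by decide)
  have I : RC.e7b.In T ρ xs ys := wd4_in q0 (by decide)
  exact ⟨_, Or.inl rfl, RC.en7b O I⟩

theorem em7c {xs ys T ρ : ℝ} (q : (re7 .twoE).Re xs ys T ρ) : EnS 7 .twoE xs ys T ρ := by
  have q0 : (mk4 2291 2611 1119 1439 1329 1649 1 272 (-1537) (-1217) 3890 3889).Re xs ys T ρ := q
  have O := q0.oneB RC.Row.cH8 (by decide)
  have I : RC.e7c.In T ρ xs ys := wd4_in q0 (by decide)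
  exact ⟨_, Or.inl rfl, RC.en7c O I⟩

theorem pe7 {xs ys T ρ : ℝ} {C : Cl} (hC : C = .one ∨ C = .two ∨ C = .twoE)
    (q : (re7 C).Re xs ys T ρ) : EnS 7 C xs ys T ρ := by
  rcases hC with rfl | rfl | rfl
  · exact em7a q
  · exact em7b q
  · exact em7c q

end SR

end Pool.Agent.Work.MP_b30479_gtS.G2

end
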