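import Pool.Agent.Work.MP_b30479_gt.TBS.G2.RGn06
import Pool.Agent.Work.MP_b30479_gt.TBS.G2.RGn11
import Pool.Agent.Work.MP_b30479_gt.TBS.G2.RKind
import Pool.Agent.Work.MP_b30479_gt.TBS.G2.RLvl6
import Pool.Agent.Work.MP_b30479_gt.TBS.G2.WLocF

section

/-!
# Rings on the level part: pairs of hinges
-/

namespace Pool.Agent.Work.MP_b30479_gtS.G2

open Real Set

namespace RC

open R6

theorem en8a {xs ys T ρ : ℝ} (O : OneB xs ys T ρ) (I : e8a.In T ρ xs ys) :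
    En xs ys T ρ (16 / 100) (36 / 100) (fun _ => 0) (fun _ => 0) :=
  En.of (tab := [⟨2500, 5000, 0, 0, 0, 0, 0⟩])
    (tab' := [⟨2500, 5000, 0, 0, 0, 0, 0⟩])
    (O.LF I e8a_Wa e8a_Wb hf0)
    (I.dt0 O.GD (fun _ => O.HD) e8a_Qp2500_0_0_0 e8a_Qm2500_0_0_0 rfl DT.nil A16 B36)
    (I.qt O.GD (fun _ => O.HD) e8a_Qp2500_0_0_0 e8a_Qm2500_0_0_0 rfl QT.nil A16 B36)
    (by decide) (by decide) (by decide) O.hys O.hxs

theorem en8b {xs ys T ρ : ℝ} (O : OneB xs ys T ρ) (I : e8b.In T ρ xs ys) :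
    En xs ys T ρ (16 / 100) (36 / 100) (fun _ => 0) (fun _ => 0) :=
  En.of (tab := [⟨2500, 5000, 0, 0, 0, 0, 0⟩])
    (tab' := [⟨2500, 5000, 0, 0, 0, 0, 0⟩])
    (O.LF I e8b_Wa e8b_Wb hf0)
    (I.dt0 O.GD (fun _ => O.HD) e8b_Qp2500_0_0_0 e8b_Qm2500_0_0_0 rfl DT.nil A16 B36)
    (I.qt O.GD (fun _ => O.HD) e8b_Qp2500_0_0_0 e8b_Qm2500_0_0_0 rfl QT.nil A16 B36)
    (by decide) (by decide) (by decide) O.hys O.hxs

theorem en8c {xs ys T ρ : ℝ} (O : OneB xs ys T ρ) (I : e8c.In T ρ xs ys) :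
    En xs ys T ρ (16 / 100) (36 / 100) (fun _ => 0) (fun _ => 0) :=
  En.of (tab := [⟨2500, 5000, 0, 0, 0, 0, 0⟩])
    (tab' := [⟨2500, 5000, 0, 0, 0, 0, 0⟩])
    (O.LF I e8c_Wa e8c_Wb hf0)
    (I.dt0 O.GD (fun _ => O.HD) e8c_Qp2500_0_0_0 e8c_Qm2500_0_0_0 rfl DT.nil A16 B36)
    (I.qt O.GD (fun _ => O.HD) e8c_Qp2500_0_0_0 e8c_Qm2500_0_0_0 rfl QT.nil A16 B36)
    (by decide) (by decide) (by decide) O.hys O.hxs

end RC

end Pool.Agent.Work.MP_b30479_gtS.G2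

end

section

/-!
# Rings on the level part: pairs of hinges
-/

namespace Pool.Agent.Work.MP_b30479_gtS.G2

open Real Set

namespace RC

open R6

theorem lf8a1 {xs ys T ρ : ℝ} (O : OneB xs ys T ρ) (I : o8a1.In T ρ xs ys) :
    LF xs ys T ρ (16 / 100) (36 / 100) (fun _ => 0) (fun _ => 0) :=
  O.LF I o8a1_Wa o8a1_Wb hf0

theorem lf8c1 {xs ys T ρ : ℝ} (O : OneB xs ys T ρ) (I : o8c1.In T ρ xs ys) :
    LF xs ys T ρ (16 / 100) (36 / 100) (fun _ => 0) (fun _ => 0) :=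
  O.LF I o8c1_Wa o8c1_Wb hf0

theorem lf8b1 {xs ys T ρ : ℝ} (O : OneB xs ys T ρ) (I : o8b1.In T ρ xs ys) :
    LF xs ys T ρ (16 / 100) (36 / 100) (fun _ => 0) (fun _ => 0) :=
  O.LF I o8b1_Wa o8b1_Wb hf0

def t8a : List Te := [⟨2500, 2700, 115, 220, 0, 0, 0⟩, ⟨2700, 5000, 0, 0, 0, 0, 0⟩]

theorem qt8a {xs ys T ρ : ℝ} (O : OneB xs ys T ρ) (I : o8a1.In T ρ xs ys) :
    QT xs ys T ρ (16 / 100) (36 / 100) t8a :=
  (I.qt O.GD (fun _ => O.HD) o8a1_Qp2500_115_220_0 o8a1_Qm2500_115_220_0 rfl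
      (I.qtz O.GD (fun _ => O.HD) o8a1_Qp2700_0_0_0 o8a1_Qm2700_0_0_0 (by decide) rfl
      QT.nil A16 B36) A16 B36)

theorem dt8a_a {xs ys T ρ : ℝ} (O : OneB xs ys T ρ) (I : o8a1.In T ρ xs ys) :
    DT xs ys T ρ (16 / 100) (36 / 100) (fun _ => 0) (fun _ => 0) t8a :=
  (I.dtg O.GD (fun _ => O.HD) o8a1_Dp2500_115_220_0 o8a1_Dm2500_115_220_0 (Or.inl rfl) (Or.inl rfl) rfl hf0 hf0
      (I.dtz O.GD (fun _ => O.HD) o8a1_Qp2700_0_0_0 o8a1_Qm2700_0_0_0 (by decide) rfl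
      DT.nil A16 B36) A16 B36)

theorem dt8b_a {xs ys T ρ : ℝ} (O : OneB xs ys T ρ) (I : o8b1.In T ρ xs ys) :
    DT xs ys T ρ (16 / 100) (36 / 100) (fun _ => 0) (fun _ => 0) t8a :=
  (I.dtg O.GD (fun _ => O.HD) o8b1_Dp2500_115_220_0 o8b1_Dm2500_115_220_0 (Or.inl rfl) (Or.inl rfl) rfl hf0 hf0
      (I.dtz O.GD (fun _ => O.HD) o8b1_Qp2700_0_0_0 o8b1_Qm2700_0_0_0 (by decide) rfl
      DT.nil A16 B36) A16 B36)

theorem dt8c_a {xs ys T ρ : ℝ} (O : OneB xs ys T ρ) (I : o8c1.In T ρ xs ys) :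
    DT xs ys T ρ (16 / 100) (36 / 100) (fun _ => 0) (fun _ => 0) t8a :=
  (I.dtg O.GD (fun _ => O.HD) o8c1_Dp2500_115_220_0 o8c1_Dm2500_115_220_0 (Or.inl rfl) (Or.inl rfl) rfl hf0 hf0
      (I.dtz O.GD (fun _ => O.HD) o8c1_Qp2500_0_0_0 o8c1_Qm2500_0_0_0 (by decide) rfl
      DT.nil A16 B36) A16 B36)

def t8c : List Te := [⟨2500, 2700, 0, 0, 0, 0, 0⟩, ⟨2700, 5000, 0, 0, 0, 0, 0⟩]

theorem qt8c {xs ys T ρ : ℝ} (O : OneB xs ys T ρ) (I : o8c1.In T ρ xs ys) :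
    QT xs ys T ρ (16 / 100) (36 / 100) t8c :=
  (I.qtz O.GD (fun _ => O.HD) o8c1_Qp2500_0_0_0 o8c1_Qm2500_0_0_0 (by decide) rfl
      (I.qtz O.GD (fun _ => O.HD) o8c1_Qp2500_0_0_0 o8c1_Qm2500_0_0_0 (by decide) rfl
      QT.nil A16 B36) A16 B36)

theorem dt8a_c {xs ys T ρ : ℝ} (O : OneB xs ys T ρ) (I : o8a1.In T ρ xs ys) :
    DT xs ys T ρ (16 / 100) (36 / 100) (fun _ => 0) (fun _ => 0) t8c :=
  (I.dt O.GD (fun _ => O.HD) o8a1_Dp2500_0_0_0 o8a1_Dm2500_0_0_0 rfl hf0 hf0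
      (I.dtz O.GD (fun _ => O.HD) o8a1_Qp2700_0_0_0 o8a1_Qm2700_0_0_0 (by decide) rfl
      DT.nil A16 B36) A16 B36)

theorem dt8b_c {xs ys T ρ : ℝ} (O : OneB xs ys T ρ) (I : o8b1.In T ρ xs ys) :
    DT xs ys T ρ (16 / 100) (36 / 100) (fun _ => 0) (fun _ => 0) t8c :=
  (I.dt O.GD (fun _ => O.HD) o8b1_Dp2500_0_0_0 o8b1_Dm2500_0_0_0 rfl hf0 hf0
      (I.dtz O.GD (fun _ => O.HD) o8b1_Qp2700_0_0_0 o8b1_Qm2700_0_0_0 (by decide) rfl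
      DT.nil A16 B36) A16 B36)

theorem dt8c_c {xs ys T ρ : ℝ} (O : OneB xs ys T ρ) (I : o8c1.In T ρ xs ys) :
    DT xs ys T ρ (16 / 100) (36 / 100) (fun _ => 0) (fun _ => 0) t8c :=
  (I.dtz O.GD (fun _ => O.HD) o8c1_Qp2500_0_0_0 o8c1_Qm2500_0_0_0 (by decide) rfl
      (I.dtz O.GD (fun _ => O.HD) o8c1_Qp2500_0_0_0 o8c1_Qm2500_0_0_0 (by decide) rfl
      DT.nil A16 B36) A16 B36)

def t8b : List Te := [⟨2500, 2700, 115, 220, 0, 0, 0⟩, ⟨2700, 5000, 0, 0, 0, 0, 0⟩]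

theorem qt8b {xs ys T ρ : ℝ} (O : OneB xs ys T ρ) (I : o8b1.In T ρ xs ys) :
    QT xs ys T ρ (16 / 100) (36 / 100) t8b :=
  (I.qt O.GD (fun _ => O.HD) o8b1_Qp2500_115_220_0 o8b1_Qm2500_115_220_0 rfl
      (I.qtz O.GD (fun _ => O.HD) o8b1_Qp2700_0_0_0 o8b1_Qm2700_0_0_0 (by decide) rfl
      QT.nil A16 B36) A16 B36)

theorem dt8a_b {xs ys T ρ : ℝ} (O : OneB xs ys T ρ) (I : o8a1.In T ρ xs ys) :
    DT xs ys T ρ (16 / 100) (36 / 100) (fun _ => 0) (fun _ => 0) t8b :=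
  (I.dtg O.GD (fun _ => O.HD) o8a1_Dp2500_115_220_0 o8a1_Dm2500_115_220_0 (Or.inl rfl) (Or.inl rfl) rfl hf0 hf0
      (I.dtz O.GD (fun _ => O.HD) o8a1_Qp2700_0_0_0 o8a1_Qm2700_0_0_0 (by decide) rfl
      DT.nil A16 B36) A16 B36)

theorem dt8b_b {xs ys T ρ : ℝ} (O : OneB xs ys T ρ) (I : o8b1.In T ρ xs ys) :
    DT xs ys T ρ (16 / 100) (36 / 100) (fun _ => 0) (fun _ => 0) t8b :=
  (I.dtg O.GD (fun _ => O.HD) o8b1_Dp2500_115_220_0 o8b1_Dm2500_115_220_0 (Or.inl rfl) (Or.inl rfl) rfl hf0 hf0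
      (I.dtz O.GD (fun _ => O.HD) o8b1_Qp2700_0_0_0 o8b1_Qm2700_0_0_0 (by decide) rfl
      DT.nil A16 B36) A16 B36)

theorem dt8c_b {xs ys T ρ : ℝ} (O : OneB xs ys T ρ) (I : o8c1.In T ρ xs ys) :
    DT xs ys T ρ (16 / 100) (36 / 100) (fun _ => 0) (fun _ => 0) t8b :=
  (I.dtg O.GD (fun _ => O.HD) o8c1_Dp2500_115_220_0 o8c1_Dm2500_115_220_0 (Or.inl rfl) (Or.inl rfl) rfl hf0 hf0
      (I.dtz O.GD (fun _ => O.HD) o8c1_Qp2500_0_0_0 o8c1_Qm2500_0_0_0 (by decide) rfl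
      DT.nil A16 B36) A16 B36)

end RC

end Pool.Agent.Work.MP_b30479_gtS.G2

end

section

/-!
# Rings on the level part: rings between two digits `1`, rings at an end
-/

namespace Pool.Agent.Work.MP_b30479_gtS.G2

open Finset VOL Filter Topology

namespace SR

/-- the tables of bounds -/
def t8 : Cl → List RC.Te
  | .one => RC.t8a
  | .two => RC.t8b
  | _ => RC.t8c

theorem t8_cov (C : Cl) : RC.cov 2500 (t8 C) = true := by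
  cases C <;> decide

theorem ok8a {xs ys T ρ : ℝ} (q : (rc8 .one).Re xs ys T ρ) :
    ∃ f, FS 8 .one xs T f ∧ OKt t8 (fun _ => True) .one xs ys T ρ f := by
  have q0 : (mk4 2185 2770 0 1291 685 1710 0 360 (-1350) (-685) 3960 3960).Re xs ys T ρ := q
  have O := q0.oneB RC.Row.cH8 (by decide)
  have I : RC.o8a1.In T ρ xs ys := wd4_in q0 (by decide)
  refine ⟨_, Or.inl rfl, RC.lf8a1 O I, RC.qt8a O I, fun C' hC => ?_, O.hys, O.hxs⟩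
  cases C'
  · exact RC.dt8a_a O I
  · exact RC.dt8a_b O I
  all_goals exact RC.dt8a_c O I

theorem ok8b {xs ys T ρ : ℝ} (q : (rc8 .two).Re xs ys T ρ) :
    ∃ f, FS 8 .two xs T f ∧ OKt t8 (fun _ => True) .two xs ys T ρ f := by
  have q0 : (mk4 2545 2925 0 1201 1000 1796 0 346 (-1450) (-1000) 4080 4080).Re xs ys T ρ := q
  have O := q0.oneB RC.Row.cH8 (by decide)
  have I : RC.o8b1.In T ρ xs ys := wd4_in q0 (by decide)
  refine ⟨_, Or.inl rfl, RC.lf8b1 O I, RC.qt8b O I, fun C' hC => ?_, O.hys, O.hxs⟩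
  cases C'
  · exact RC.dt8b_a O I
  · exact RC.dt8b_b O I
  all_goals exact RC.dt8b_c O I

theorem ok8c {xs ys T ρ : ℝ} (q : (rc8 .twoE).Re xs ys T ρ) :
    ∃ f, FS 8 .twoE xs T f ∧ OKt t8 (fun _ => True) .twoE xs ys T ρ f := by
  have q0 : (mk4 2410 2550 0 1191 1365 1885 0 310 (-1575) (-1365) 3725 3725).Re xs ys T ρ := q
  have O := q0.oneB RC.Row.cH8 (by decide)
  have I : RC.o8c1.In T ρ xs ys := wd4_in q0 (by decide)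
  refine ⟨_, Or.inl rfl, RC.lf8c1 O I, RC.qt8c O I, fun C' hC => ?_, O.hys, O.hxs⟩
  cases C'
  · exact RC.dt8c_a O I
  · exact RC.dt8c_b O I
  all_goals exact RC.dt8c_c O I

theorem po8 {xs ys T ρ xs' T' : ℝ} {C C' : Cl} 
    (hC : C = .one ∨ C = .two ∨ C = .twoE) (hC' : C' = .one ∨ C' = .two ∨ C' = .twoE)
    (q : (rc8 C).Re xs ys T ρ)
    (q' : (rc8 C').Re xs' ys T' ρ) :
    PrO 8 C C' xs ys T ρ xs' T' := by
  rcases hC with rfl | rfl | rfl <;> rcases hC' with rfl | rfl | rfl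
  · obtain ⟨f, hf, k⟩ := ok8a q
    obtain ⟨f', hf', k'⟩ := ok8a q'
    exact ⟨f, f', hf, hf', k.pr k' trivial trivial t8_cov⟩
  · obtain ⟨f, hf, k⟩ := ok8a q
    obtain ⟨f', hf', k'⟩ := ok8b q'
    exact ⟨f, f', hf, hf', k.pr k' trivial trivial t8_cov⟩
  · obtain ⟨f, hf, k⟩ := ok8a q
    obtain ⟨f', hf', k'⟩ := ok8c q'
    exact ⟨f, f', hf, hf', k.pr k' trivial trivial t8_cov⟩
  · obtain ⟨f, hf, k⟩ := ok8b q
    obtain ⟨f', hf', k'⟩ := ok8a q'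
    exact ⟨f, f', hf, hf', k.pr k' trivial trivial t8_cov⟩
  · obtain ⟨f, hf, k⟩ := ok8b q
    obtain ⟨f', hf', k'⟩ := ok8b q'
    exact ⟨f, f', hf, hf', k.pr k' trivial trivial t8_cov⟩
  · obtain ⟨f, hf, k⟩ := ok8b q
    obtain ⟨f', hf', k'⟩ := ok8c q'
    exact ⟨f, f', hf, hf', k.pr k' trivial trivial t8_cov⟩
  · obtain ⟨f, hf, k⟩ := ok8c q
    obtain ⟨f', hf', k'⟩ := ok8a q'
    exact ⟨f, f', hf, hf', k.pr k' trivial trivial t8_cov⟩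
  · obtain ⟨f, hf, k⟩ := ok8c q
    obtain ⟨f', hf', k'⟩ := ok8b q'
    exact ⟨f, f', hf, hf', k.pr k' trivial trivial t8_cov⟩
  · obtain ⟨f, hf, k⟩ := ok8c q
    obtain ⟨f', hf', k'⟩ := ok8c q'
    exact ⟨f, f', hf, hf', k.pr k' trivial trivial t8_cov⟩

theorem em8a {xs ys T ρ : ℝ} (q : (re8 .one).Re xs ys T ρ) : EnS 8 .one xs ys T ρ := by
  have q0 : (mk4 2185 2770 0 1250 685 1522 0 172 (-1350) (-685) 3960 3960).Re xs ys T ρ := q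
  have O := q0.oneB RC.Row.cH8 (by decide)
  have I : RC.e8a.In T ρ xs ys := wd4_in q0 (by decide)
  exact ⟨_, Or.inl rfl, RC.en8a O I⟩

theorem em8b {xs ys T ρ : ℝ} (q : (re8 .two).Re xs ys T ρ) : EnS 8 .two xs ys T ρ := by
  have q0 : (mk4 2545 2925 0 1165 1000 1615 0 165 (-1450) (-1000) 4080 4080).Re xs ys T ρ := q
  have O := q0.oneB RC.Row.cH8 (by decide)
  have I : RC.e8b.In T ρ xs ys := wd4_in q0 (by decide)
  exact ⟨_, Or.inl rfl, RC.en8b O I⟩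

theorem em8c {xs ys T ρ : ℝ} (q : (re8 .twoE).Re xs ys T ρ) : EnS 8 .twoE xs ys T ρ := by
  have q0 : (mk4 2410 2550 0 1154 1365 1704 0 129 (-1575) (-1365) 3725 3725).Re xs ys T ρ := q
  have O := q0.oneB RC.Row.cH8 (by decide)
  have I : RC.e8c.In T ρ xs ys := wd4_in q0 (by decide)
  exact ⟨_, Or.inl rfl, RC.en8c O I⟩

theorem pe8 {xs ys T ρ : ℝ} {C : Cl} (hC : C = .one ∨ C = .two ∨ C = .twoE)
    (q : (re8 C).Re xs ys T ρ) : EnS 8 C xs ys T ρ := by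
  rcases hC with rfl | rfl | rfl
  · exact em8a q
  · exact em8b q
  · exact em8c q

end SR

end Pool.Agent.Work.MP_b30479_gtS.G2

end
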