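import Pool.Agent.Work.MP_b30479_gt.TBS.G2.RGm32
import Pool.Agent.Work.MP_b30479_gt.TBS.G2.RGn06
import Pool.Agent.Work.MP_b30479_gt.TBS.G2.RKind
import Pool.Agent.Work.MP_b30479_gt.TBS.G2.RGm34
import Pool.Agent.Work.MP_b30479_gt.TBS.G2.RGn11
import Pool.Agent.Work.MP_b30479_gt.TBS.G2.RGm03
import Pool.Agent.Work.MP_b30479_gt.TBS.G2.RGm02
import Pool.Agent.Work.MP_b30479_gt.TBS.G2.RGm04
import Pool.Agent.Work.MP_b30479_gt.TBS.G2.RGm36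
import Pool.Agent.Work.MP_b30479_gt.TBS.G2.RLvl6
import Pool.Agent.Work.MP_b30479_gt.TBS.G2.WLocF

section

/-!
# Rings on the level part: pairs of hinges
-/

namespace Pool.Agent.Work.MP_b30479_gtS.G2

open Real Set

namespace RC

open R6

theorem en5a {xs ys T ρ : ℝ} (O : OneB xs ys T ρ) (I : e5a.In T ρ xs ys) :
    En xs ys T ρ (16 / 100) (36 / 100) (fun _ => 0) (fun _ => 0) :=
  En.of (tab := [⟨2500, 2600, 0, 0, 0, 0, 0⟩, ⟨2600, 2700, 0, 0, 0, 0, 0⟩, ⟨2700, 5000, 0, 0, 0, 0, 0⟩])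
    (tab' := [⟨2500, 2600, 250, 0, 0, 0, 0⟩, ⟨2600, 2700, 250, 0, 0, 0, 0⟩, ⟨2700, 5000, 0, 0, 0, 0, 0⟩])
    (O.LF I e5a_Wa e5a_Wb hf0)
    (I.dt O.GD (fun _ => O.HD) e5a_Dp2500_0_0_0 e5a_Dm2500_0_0_0 rfl hf0 hf0
      (I.dt O.GD (fun _ => O.HD) e5a_Dp2600_0_0_0 e5a_Dm2600_0_0_0 rfl hf0 hf0
      (I.dt0 O.GD (fun _ => O.HD) e5a_Qp2700_0_0_0 e5a_Qm2700_0_0_0 rfl DT.nil A16 B36) A16 B36) A16 B36)
    (I.qt O.GD (fun _ => O.HD) e5a_Qp2500_250_0_0 e5a_Qm2500_250_0_0 rfl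
      (I.qt O.GD (fun _ => O.HD) e5a_Qp2600_250_0_0 e5a_Qm2600_250_0_0 rfl
      (I.qt O.GD (fun _ => O.HD) e5a_Qp2700_0_0_0 e5a_Qm2700_0_0_0 rfl QT.nil A16 B36) A16 B36) A16 B36)
    (by decide) (by decide) (by decide) O.hys O.hxs

theorem en5b {xs ys T ρ : ℝ} (O : OneB xs ys T ρ) (I : e5b.In T ρ xs ys) :
    En xs ys T ρ (16 / 100) (36 / 100) (fun m => 355 / 1000 * m) (fun _ => 0) :=
  En.of (tab := [⟨2500, 2600, 0, 0, 0, 0, 0⟩, ⟨2600, 2700, 0, 0, 0, 0, 0⟩, ⟨2700, 2800, 0, 0, 0, 0, 0⟩, ⟨2800, 2900, 0, 0, 0, 0, 0⟩, ⟨2900, 5000, 0, 0, 0, 0, 0⟩])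
    (tab' := [⟨2500, 2600, 250, 0, 0, 0, 0⟩, ⟨2600, 2700, 250, 0, 0, 0, 0⟩, ⟨2700, 2800, 250, 0, 0, 0, 0⟩, ⟨2800, 2900, 250, 0, 0, 0, 0⟩, ⟨2900, 5000, 0, 0, 0, 0, 0⟩])
    (O.LF I e5b_Wa e5b_Wb hf355)
    (I.dt O.GD (fun _ => O.HD) e5b_Dp2500_0_0_0 e5b_Dm2500_0_0_0 rfl hf355 hf0
      (I.dt O.GD (fun _ => O.HD) e5b_Dp2600_0_0_0 e5b_Dm2600_0_0_0 rfl hf355 hf0
      (I.dt O.GD (fun _ => O.HD) e5b_Dp2700_0_0_0 e5b_Dm2700_0_0_0 rfl hf355 hf0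
      (I.dt O.GD (fun _ => O.HD) e5b_Dp2800_0_0_0 e5b_Dm2800_0_0_0 rfl hf355 hf0
      (I.dt0 O.GD (fun _ => O.HD) e5b_Qp2900_0_0_0 e5b_Qm2900_0_0_0 rfl DT.nil A16 B36) A16 B36) A16 B36) A16 B36) A16 B36)
    (I.qt O.GD (fun _ => O.HD) e5b_Qp2500_250_0_0 e5b_Qm2500_250_0_0 rfl
      (I.qt O.GD (fun _ => O.HD) e5b_Qp2600_250_0_0 e5b_Qm2600_250_0_0 rfl
      (I.qt O.GD (fun _ => O.HD) e5b_Qp2700_250_0_0 e5b_Qm2700_250_0_0 rfl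
      (I.qt O.GD (fun _ => O.HD) e5b_Qp2800_250_0_0 e5b_Qm2800_250_0_0 rfl
      (I.qt O.GD (fun _ => O.HD) e5b_Qp2900_0_0_0 e5b_Qm2900_0_0_0 rfl QT.nil A16 B36) A16 B36) A16 B36) A16 B36) A16 B36)
    (by decide) (by decide) (by decide) O.hys O.hxs

theorem en5bx {xs ys T ρ : ℝ} (O : OneB xs ys T ρ) (I : e5b.In T ρ xs ys)
    (Is : e5bx.In T ρ xs ys) :
    En xs ys T ρ (16 / 100) (36 / 100) (fun _ => 0) (fun _ => 0) :=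
  En.of (tab := [⟨2500, 2600, 0, 0, 0, 0, 0⟩, ⟨2600, 2700, 0, 0, 0, 0, 0⟩, ⟨2700, 2800, 0, 0, 0, 0, 0⟩, ⟨2800, 2900, 0, 0, 0, 0, 0⟩, ⟨2900, 5000, 0, 0, 0, 0, 0⟩])
    (tab' := [⟨2500, 2600, 250, 0, 0, 0, 0⟩, ⟨2600, 2700, 250, 0, 0, 0, 0⟩, ⟨2700, 2800, 250, 0, 0, 0, 0⟩, ⟨2800, 2900, 250, 0, 0, 0, 0⟩, ⟨2900, 5000, 0, 0, 0, 0, 0⟩])
    (O.LF Is e5bx_Wa e5bx_Wb hf0)
    (Is.dt O.GD (fun _ => O.HD) e5bx_Dp2500_0_0_0 e5bx_Dm2500_0_0_0 rfl hf0 hf0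
      (Is.dt O.GD (fun _ => O.HD) e5bx_Dp2600_0_0_0 e5bx_Dm2600_0_0_0 rfl hf0 hf0
      (Is.dt O.GD (fun _ => O.HD) e5bx_Dp2700_0_0_0 e5bx_Dm2700_0_0_0 rfl hf0 hf0
      (Is.dt O.GD (fun _ => O.HD) e5bx_Dp2800_0_0_0 e5bx_Dm2800_0_0_0 rfl hf0 hf0
      (I.dt0 O.GD (fun _ => O.HD) e5b_Qp2900_0_0_0 e5b_Qm2900_0_0_0 rfl DT.nil A16 B36) A16 B36) A16 B36) A16 B36) A16 B36)
    (I.qt O.GD (fun _ => O.HD) e5b_Qp2500_250_0_0 e5b_Qm2500_250_0_0 rfl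
      (I.qt O.GD (fun _ => O.HD) e5b_Qp2600_250_0_0 e5b_Qm2600_250_0_0 rfl
      (I.qt O.GD (fun _ => O.HD) e5b_Qp2700_250_0_0 e5b_Qm2700_250_0_0 rfl
      (I.qt O.GD (fun _ => O.HD) e5b_Qp2800_250_0_0 e5b_Qm2800_250_0_0 rfl
      (I.qt O.GD (fun _ => O.HD) e5b_Qp2900_0_0_0 e5b_Qm2900_0_0_0 rfl QT.nil A16 B36) A16 B36) A16 B36) A16 B36) A16 B36)
    (by decide) (by decide) (by decide) O.hys O.hxs

theorem en5c {xs ys T ρ : ℝ} (O : OneB xs ys T ρ) (I : e5c.In T ρ xs ys) :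
    En xs ys T ρ (16 / 100) (36 / 100) (fun _ => 0) (fun _ => 0) :=
  En.of (tab := [⟨2500, 2600, 0, 0, 0, 0, 0⟩, ⟨2600, 5000, 0, 0, 0, 0, 0⟩])
    (tab' := [⟨2500, 2600, 160, 0, 0, 0, 0⟩, ⟨2600, 5000, 0, 0, 0, 0, 0⟩])
    (O.LF I e5c_Wa e5c_Wb hf0)
    (I.dt O.GD (fun _ => O.HD) e5c_Dp2500_0_0_0 e5c_Dm2500_0_0_0 rfl hf0 hf0
      (I.dt0 O.GD (fun _ => O.HD) e5c_Qp2600_0_0_0 e5c_Qm2600_0_0_0 rfl DT.nil A16 B36) A16 B36)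
    (I.qt O.GD (fun _ => O.HD) e5c_Qp2500_160_0_0 e5c_Qm2500_160_0_0 rfl
      (I.qt O.GD (fun _ => O.HD) e5c_Qp2600_0_0_0 e5c_Qm2600_0_0_0 rfl QT.nil A16 B36) A16 B36)
    (by decide) (by decide) (by decide) O.hys O.hxs

end RC

end Pool.Agent.Work.MP_b30479_gtS.G2

end

section

/-!
# Rings on the level part: pairs of hinges
-/

namespace Pool.Agent.Work.MP_b30479_gtS.G2

open Real Set

namespace RC

open R6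

theorem lf5a1 {xs ys T ρ : ℝ} (O : OneB xs ys T ρ) (I : o5a1.In T ρ xs ys) :
    LF xs ys T ρ (16 / 100) (36 / 100) (fun _ => 0) (fun _ => 0) :=
  O.LF I o5a1_Wa o5a1_Wb hf0

theorem lf5c1 {xs ys T ρ : ℝ} (O : OneB xs ys T ρ) (I : o5c1.In T ρ xs ys) :
    LF xs ys T ρ (16 / 100) (36 / 100) (fun _ => 0) (fun _ => 0) :=
  O.LF I o5c1_Wa o5c1_Wb hf0

theorem lf5b1 {xs ys T ρ : ℝ} (O : OneB xs ys T ρ) (I : o5b1.In T ρ xs ys) :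
    LF xs ys T ρ (16 / 100) (36 / 100) (fun m => 355 / 1000 * m) (fun _ => 0) :=
  O.LF I o5b1_Wa o5b1_Wb hf355

theorem lf5bb1 {xs ys T ρ : ℝ} (O : OneB xs ys T ρ) (I : o5bb1.In T ρ xs ys) :
    LF xs ys T ρ (16 / 100) (36 / 100) (fun m => 355 / 1000 * m) (fun _ => 0) :=
  O.LF I o5bb1_Wa o5bb1_Wb hf355

def t5a : List Te := [⟨2500, 2600, 160, 150, 0, 0, 0⟩, ⟨2600, 2700, 160, 150, 0, 0, 0⟩, ⟨2700, 2800, 160, 180, 0, 0, 0⟩, ⟨2800, 2900, 0, 0, 0, 0, 0⟩, ⟨2900, 3000, 0, 0, 0, 0, 0⟩, ⟨3000, 5000, 0, 0, 0, 0, 0⟩]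

theorem qt5a {xs ys T ρ : ℝ} (O : OneB xs ys T ρ) (I : o5a1.In T ρ xs ys) :
    QT xs ys T ρ (16 / 100) (36 / 100) t5a :=
  (I.qt O.GD (fun _ => O.HD) o5a1_Qp2500_160_150_0 o5a1_Qm2500_160_150_0 rfl
      (I.qt O.GD (fun _ => O.HD) o5a1_Qp2600_160_150_0 o5a1_Qm2600_160_150_0 rfl
      (I.qt O.GD (fun _ => O.HD) o5a1_Qp2700_160_180_0 o5a1_Qm2700_160_180_0 rfl
      (I.qtz O.GD (fun _ => O.HD) o5a1_Qp2800_0_0_0 o5a1_Qm2800_0_0_0 (by decide) rfl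
      (I.qtz O.GD (fun _ => O.HD) o5a1_Qp2800_0_0_0 o5a1_Qm2800_0_0_0 (by decide) rfl
      (I.qtz O.GD (fun _ => O.HD) o5a1_Qp2800_0_0_0 o5a1_Qm2800_0_0_0 (by decide) rfl
      QT.nil A16 B36) A16 B36) A16 B36) A16 B36) A16 B36) A16 B36)

theorem dt5a_a {xs ys T ρ : ℝ} (O : OneB xs ys T ρ) (I : o5a1.In T ρ xs ys) :
    DT xs ys T ρ (16 / 100) (36 / 100) (fun _ => 0) (fun _ => 0) t5a :=
  (I.dtg O.GD (fun _ => O.HD) o5a1_Dp2500_160_150_0 o5a1_Dm2500_160_150_0 (Or.inl rfl) (Or.inl rfl) rfl hf0 hf0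
      (I.dtg O.GD (fun _ => O.HD) o5a1_Dp2600_160_150_0 o5a1_Dm2600_160_150_0 (Or.inl rfl) (Or.inl rfl) rfl hf0 hf0
      (I.dtg O.GD (fun _ => O.HD) o5a1_Dp2700_160_180_0 o5a1_Dm2700_160_180_0 (Or.inl rfl) (Or.inl rfl) rfl hf0 hf0
      (I.dtz O.GD (fun _ => O.HD) o5a1_Qp2800_0_0_0 o5a1_Qm2800_0_0_0 (by decide) rfl
      (I.dtz O.GD (fun _ => O.HD) o5a1_Qp2800_0_0_0 o5a1_Qm2800_0_0_0 (by decide) rfl
      (I.dtz O.GD (fun _ => O.HD) o5a1_Qp2800_0_0_0 o5a1_Qm2800_0_0_0 (by decide) rfl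
      DT.nil A16 B36) A16 B36) A16 B36) A16 B36) A16 B36) A16 B36)

theorem dt5b_a {xs ys T ρ : ℝ} (O : OneB xs ys T ρ) (I : o5b1.In T ρ xs ys) :
    DT xs ys T ρ (16 / 100) (36 / 100) (fun m => 355 / 1000 * m) (fun _ => 0) t5a :=
  (I.dtg O.GD (fun _ => O.HD) o5b1_Dp2500_160_150_0 o5b1_Dm2500_160_150_0 (Or.inl rfl) (Or.inl rfl) rfl hf355 hf0
      (I.dtg O.GD (fun _ => O.HD) o5b1_Dp2600_160_150_0 o5b1_Dm2600_160_150_0 (Or.inl rfl) (Or.inl rfl) rfl hf355 hf0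
      (I.dtg O.GD (fun _ => O.HD) o5b1_Dp2700_160_180_0 o5b1_Dm2700_160_180_0 (Or.inl rfl) (Or.inl rfl) rfl hf355 hf0
      (I.dt O.GD (fun _ => O.HD) o5b1_Dp2800_0_0_0 o5b1_Dm2800_0_0_0 rfl hf355 hf0
      (I.dt O.GD (fun _ => O.HD) o5b1_Dp2900_0_0_0 o5b1_Dm2900_0_0_0 rfl hf355 hf0
      (I.dtz O.GD (fun _ => O.HD) o5b1_Qp3000_0_0_0 o5b1_Qm3000_0_0_0 (by decide) rfl
      DT.nil A16 B36) A16 B36) A16 B36) A16 B36) A16 B36) A16 B36)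

theorem dt5c_a {xs ys T ρ : ℝ} (O : OneB xs ys T ρ) (I : o5c1.In T ρ xs ys) :
    DT xs ys T ρ (16 / 100) (36 / 100) (fun _ => 0) (fun _ => 0) t5a :=
  (I.dtg O.GD (fun _ => O.HD) o5c1_Dp2500_160_150_0 o5c1_Dm2500_160_150_0 (Or.inl rfl) (Or.inl rfl) rfl hf0 hf0
      (I.dtg O.GD (fun _ => O.HD) o5c1_Dp2600_160_150_0 o5c1_Dm2600_160_150_0 (Or.inl rfl) (Or.inl rfl) rfl hf0 hf0
      (I.dtg O.GD (fun _ => O.HD) o5c1_Dp2700_160_180_0 o5c1_Dm2700_160_180_0 (Or.inl rfl) (Or.inl rfl) rfl hf0 hf0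
      (I.dtz O.GD (fun _ => O.HD) o5c1_Qp2700_0_0_0 o5c1_Qm2700_0_0_0 (by decide) rfl
      (I.dtz O.GD (fun _ => O.HD) o5c1_Qp2700_0_0_0 o5c1_Qm2700_0_0_0 (by decide) rfl
      (I.dtz O.GD (fun _ => O.HD) o5c1_Qp2700_0_0_0 o5c1_Qm2700_0_0_0 (by decide) rfl
      DT.nil A16 B36) A16 B36) A16 B36) A16 B36) A16 B36) A16 B36)

def t5c : List Te := [⟨2500, 2600, 160, 260, 0, 0, 0⟩, ⟨2600, 2700, 160, 260, 0, 0, 0⟩, ⟨2700, 2800, 0, 0, 0, 0, 0⟩, ⟨2800, 2900, 0, 0, 0, 0, 0⟩, ⟨2900, 3000, 0, 0, 0, 0, 0⟩, ⟨3000, 5000, 0, 0, 0, 0, 0⟩]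

theorem qt5c {xs ys T ρ : ℝ} (O : OneB xs ys T ρ) (I : o5c1.In T ρ xs ys) :
    QT xs ys T ρ (16 / 100) (36 / 100) t5c :=
  (I.qt O.GD (fun _ => O.HD) o5c1_Qp2500_160_260_0 o5c1_Qm2500_160_260_0 rfl
      (I.qt O.GD (fun _ => O.HD) o5c1_Qp2600_160_260_0 o5c1_Qm2600_160_260_0 rfl
      (I.qtz O.GD (fun _ => O.HD) o5c1_Qp2700_0_0_0 o5c1_Qm2700_0_0_0 (by decide) rfl
      (I.qtz O.GD (fun _ => O.HD) o5c1_Qp2700_0_0_0 o5c1_Qm2700_0_0_0 (by decide) rfl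
      (I.qtz O.GD (fun _ => O.HD) o5c1_Qp2700_0_0_0 o5c1_Qm2700_0_0_0 (by decide) rfl
      (I.qtz O.GD (fun _ => O.HD) o5c1_Qp2700_0_0_0 o5c1_Qm2700_0_0_0 (by decide) rfl
      QT.nil A16 B36) A16 B36) A16 B36) A16 B36) A16 B36) A16 B36)

theorem dt5a_c {xs ys T ρ : ℝ} (O : OneB xs ys T ρ) (I : o5a1.In T ρ xs ys) :
    DT xs ys T ρ (16 / 100) (36 / 100) (fun _ => 0) (fun _ => 0) t5c :=
  (I.dtg O.GD (fun _ => O.HD) o5a1_Dp2500_160_260_0 o5a1_Dm2500_160_260_0 (Or.inl rfl) (Or.inl rfl) rfl hf0 hf0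
      (I.dtg O.GD (fun _ => O.HD) o5a1_Dp2600_160_260_0 o5a1_Dm2600_160_260_0 (Or.inl rfl) (Or.inl rfl) rfl hf0 hf0
      (I.dt O.GD (fun _ => O.HD) o5a1_Dp2700_0_0_0 o5a1_Dm2700_0_0_0 rfl hf0 hf0
      (I.dtz O.GD (fun _ => O.HD) o5a1_Qp2800_0_0_0 o5a1_Qm2800_0_0_0 (by decide) rfl
      (I.dtz O.GD (fun _ => O.HD) o5a1_Qp2800_0_0_0 o5a1_Qm2800_0_0_0 (by decide) rfl
      (I.dtz O.GD (fun _ => O.HD) o5a1_Qp2800_0_0_0 o5a1_Qm2800_0_0_0 (by decide) rfl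
      DT.nil A16 B36) A16 B36) A16 B36) A16 B36) A16 B36) A16 B36)

theorem dt5b_c {xs ys T ρ : ℝ} (O : OneB xs ys T ρ) (I : o5b1.In T ρ xs ys) :
    DT xs ys T ρ (16 / 100) (36 / 100) (fun m => 355 / 1000 * m) (fun _ => 0) t5c :=
  (I.dtg O.GD (fun _ => O.HD) o5b1_Dp2500_160_260_0 o5b1_Dm2500_160_260_0 (Or.inl rfl) (Or.inl rfl) rfl hf355 hf0
      (I.dtg O.GD (fun _ => O.HD) o5b1_Dp2600_160_260_0 o5b1_Dm2600_160_260_0 (Or.inl rfl) (Or.inl rfl) rfl hf355 hf0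
      (I.dt O.GD (fun _ => O.HD) o5b1_Dp2700_0_0_0 o5b1_Dm2700_0_0_0 rfl hf355 hf0
      (I.dt O.GD (fun _ => O.HD) o5b1_Dp2800_0_0_0 o5b1_Dm2800_0_0_0 rfl hf355 hf0
      (I.dt O.GD (fun _ => O.HD) o5b1_Dp2900_0_0_0 o5b1_Dm2900_0_0_0 rfl hf355 hf0
      (I.dtz O.GD (fun _ => O.HD) o5b1_Qp3000_0_0_0 o5b1_Qm3000_0_0_0 (by decide) rfl
      DT.nil A16 B36) A16 B36) A16 B36) A16 B36) A16 B36) A16 B36)

theorem dt5c_c {xs ys T ρ : ℝ} (O : OneB xs ys T ρ) (I : o5c1.In T ρ xs ys) :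
    DT xs ys T ρ (16 / 100) (36 / 100) (fun _ => 0) (fun _ => 0) t5c :=
  (I.dtg O.GD (fun _ => O.HD) o5c1_Dp2500_160_260_0 o5c1_Dm2500_160_260_0 (Or.inl rfl) (Or.inl rfl) rfl hf0 hf0
      (I.dtg O.GD (fun _ => O.HD) o5c1_Dp2600_160_260_0 o5c1_Dm2600_160_260_0 (Or.inl rfl) (Or.inl rfl) rfl hf0 hf0
      (I.dtz O.GD (fun _ => O.HD) o5c1_Qp2700_0_0_0 o5c1_Qm2700_0_0_0 (by decide) rfl
      (I.dtz O.GD (fun _ => O.HD) o5c1_Qp2700_0_0_0 o5c1_Qm2700_0_0_0 (by decide) rfl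
      (I.dtz O.GD (fun _ => O.HD) o5c1_Qp2700_0_0_0 o5c1_Qm2700_0_0_0 (by decide) rfl
      (I.dtz O.GD (fun _ => O.HD) o5c1_Qp2700_0_0_0 o5c1_Qm2700_0_0_0 (by decide) rfl
      DT.nil A16 B36) A16 B36) A16 B36) A16 B36) A16 B36) A16 B36)

def t5b : List Te := [⟨2500, 2600, 100, 65, 0, 0, 0⟩, ⟨2600, 2700, 100, 80, 0, 0, 0⟩, ⟨2700, 2800, 160, 100, 0, 0, 0⟩, ⟨2800, 2900, 160, 120, 0, 0, 0⟩, ⟨2900, 3000, 160, 150, 0, 0, 0⟩, ⟨3000, 5000, 0, 0, 0, 0, 0⟩]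

theorem qt5b {xs ys T ρ : ℝ} (O : OneB xs ys T ρ) (I : o5b1.In T ρ xs ys) :
    QT xs ys T ρ (16 / 100) (36 / 100) t5b :=
  (I.qt O.GD (fun _ => O.HD) o5b1_Qp2500_100_65_0 o5b1_Qm2500_100_65_0 rfl
      (I.qt O.GD (fun _ => O.HD) o5b1_Qp2600_100_80_0 o5b1_Qm2600_100_80_0 rfl
      (I.qt O.GD (fun _ => O.HD) o5b1_Qp2700_160_100_0 o5b1_Qm2700_160_100_0 rfl
      (I.qt O.GD (fun _ => O.HD) o5b1_Qp2800_160_120_0 o5b1_Qm2800_160_120_0 rfl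
      (I.qt O.GD (fun _ => O.HD) o5b1_Qp2900_160_150_0 o5b1_Qm2900_160_150_0 rfl
      (I.qtz O.GD (fun _ => O.HD) o5b1_Qp3000_0_0_0 o5b1_Qm3000_0_0_0 (by decide) rfl
      QT.nil A16 B36) A16 B36) A16 B36) A16 B36) A16 B36) A16 B36)

theorem dt5a_b {xs ys T ρ : ℝ} (O : OneB xs ys T ρ) (I : o5a1.In T ρ xs ys) :
    DT xs ys T ρ (16 / 100) (36 / 100) (fun _ => 0) (fun _ => 0) t5b :=
  (I.dtg O.GD (fun _ => O.HD) o5a1_Dp2500_100_65_0 o5a1_Dm2500_100_65_0 (Or.inl rfl) (Or.inl rfl) rfl hf0 hf0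
      (I.dtg O.GD (fun _ => O.HD) o5a1_Dp2600_100_80_0 o5a1_Dm2600_100_80_0 (Or.inl rfl) (Or.inl rfl) rfl hf0 hf0
      (I.dtg O.GD (fun _ => O.HD) o5a1_Dp2700_160_100_0 o5a1_Dm2700_160_100_0 (Or.inl rfl) (Or.inl rfl) rfl hf0 hf0
      (I.dtg O.GD (fun _ => O.HD) o5a1_Dp2800_160_120_0 o5a1_Dm2800_160_120_0 (Or.inl rfl) (Or.inl rfl) rfl hf0 hf0
      (I.dtg O.GD (fun _ => O.HD) o5a1_Dp2900_160_150_0 o5a1_Dm2900_160_150_0 (Or.inl rfl) (Or.inl rfl) rfl hf0 hf0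
      (I.dtz O.GD (fun _ => O.HD) o5a1_Qp2800_0_0_0 o5a1_Qm2800_0_0_0 (by decide) rfl
      DT.nil A16 B36) A16 B36) A16 B36) A16 B36) A16 B36) A16 B36)

theorem dt5c_b {xs ys T ρ : ℝ} (O : OneB xs ys T ρ) (I : o5c1.In T ρ xs ys) :
    DT xs ys T ρ (16 / 100) (36 / 100) (fun _ => 0) (fun _ => 0) t5b :=
  (I.dtg O.GD (fun _ => O.HD) o5c1_Dp2500_100_65_0 o5c1_Dm2500_100_65_0 (Or.inl rfl) (Or.inl rfl) rfl hf0 hf0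
      (I.dtg O.GD (fun _ => O.HD) o5c1_Dp2600_100_80_0 o5c1_Dm2600_100_80_0 (Or.inl rfl) (Or.inl rfl) rfl hf0 hf0
      (I.dtg O.GD (fun _ => O.HD) o5c1_Dp2700_160_100_0 o5c1_Dm2700_160_100_0 (Or.inl rfl) (Or.inl rfl) rfl hf0 hf0
      (I.dtg O.GD (fun _ => O.HD) o5c1_Dp2800_160_120_0 o5c1_Dm2800_160_120_0 (Or.inl rfl) (Or.inl rfl) rfl hf0 hf0
      (I.dtg O.GD (fun _ => O.HD) o5c1_Dp2900_160_150_0 o5c1_Dm2900_160_150_0 (Or.inl rfl) (Or.inl rfl) rfl hf0 hf0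
      (I.dtz O.GD (fun _ => O.HD) o5c1_Qp2700_0_0_0 o5c1_Qm2700_0_0_0 (by decide) rfl
      DT.nil A16 B36) A16 B36) A16 B36) A16 B36) A16 B36) A16 B36)

def t5bb : List Te := [⟨2500, 2600, 100, 80, 0, 0, 0⟩, ⟨2600, 2700, 100, 65, 0, 0, 0⟩, ⟨2700, 2800, 100, 100, 0, 0, 0⟩, ⟨2800, 2900, 100, 120, 0, 0, 0⟩, ⟨2900, 5000, 0, 0, 0, 0, 0⟩]

theorem qt5bb {xs ys T ρ : ℝ} (O : OneB xs ys T ρ) (I : o5bb1.In T ρ xs ys) :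
    QT xs ys T ρ (16 / 100) (36 / 100) t5bb :=
  (I.qt O.GD (fun _ => O.HD) o5bb1_Qp2500_100_80_0 o5bb1_Qm2500_100_80_0 rfl
      (I.qt O.GD (fun _ => O.HD) o5bb1_Qp2600_100_65_0 o5bb1_Qm2600_100_65_0 rfl
      (I.qt O.GD (fun _ => O.HD) o5bb1_Qp2700_100_100_0 o5bb1_Qm2700_100_100_0 rfl
      (I.qt O.GD (fun _ => O.HD) o5bb1_Qp2800_100_120_0 o5bb1_Qm2800_100_120_0 rfl
      (I.qtz O.GD (fun _ => O.HD) o5bb1_Qp2900_0_0_0 o5bb1_Qm2900_0_0_0 (by decide) rfl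
      QT.nil A16 B36) A16 B36) A16 B36) A16 B36) A16 B36)

theorem dt5bb_bb {xs ys T ρ : ℝ} (O : OneB xs ys T ρ) (I : o5bb1.In T ρ xs ys) :
    DT xs ys T ρ (16 / 100) (36 / 100) (fun m => 355 / 1000 * m) (fun _ => 0) t5bb :=
  (I.dtg O.GD (fun _ => O.HD) o5bb1_Dp2500_100_80_0 o5bb1_Dm2500_100_80_0 (Or.inl rfl) (Or.inl rfl) rfl hf355 hf0
      (I.dtg O.GD (fun _ => O.HD) o5bb1_Dp2600_100_65_0 o5bb1_Dm2600_100_65_0 (Or.inl rfl) (Or.inl rfl) rfl hf355 hf0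
      (I.dtg O.GD (fun _ => O.HD) o5bb1_Dp2700_100_100_0 o5bb1_Dm2700_100_100_0 (Or.inl rfl) (Or.inl rfl) rfl hf355 hf0
      (I.dtg O.GD (fun _ => O.HD) o5bb1_Dp2800_100_120_0 o5bb1_Dm2800_100_120_0 (Or.inl rfl) (Or.inl rfl) rfl hf355 hf0
      (I.dtz O.GD (fun _ => O.HD) o5bb1_Qp2900_0_0_0 o5bb1_Qm2900_0_0_0 (by decide) rfl
      DT.nil A16 B36) A16 B36) A16 B36) A16 B36) A16 B36)

theorem lf5bx1 {xs ys T ρ : ℝ} (O : OneB xs ys T ρ) (I : o5b1x.In T ρ xs ys) :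
    LF xs ys T ρ (16 / 100) (36 / 100) (fun _ => 0) (fun _ => 0) :=
  O.LF I o5b1x_Wa o5b1x_Wb hf0

theorem dt5bx_a {xs ys T ρ : ℝ} (O : OneB xs ys T ρ) (I : o5b1.In T ρ xs ys)
    (Is : o5b1x.In T ρ xs ys) : DT xs ys T ρ (16 / 100) (36 / 100) (fun _ => 0) (fun _ => 0) t5a :=
  (Is.dtg O.GD (fun _ => O.HD) o5b1x_Dp2500_160_150_0 o5b1x_Dm2500_160_150_0 (Or.inl rfl) (Or.inl rfl) rfl hf0 hf0
      (Is.dtg O.GD (fun _ => O.HD) o5b1x_Dp2600_160_150_0 o5b1x_Dm2600_160_150_0 (Or.inl rfl) (Or.inl rfl) rfl hf0 hf0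
      (Is.dtg O.GD (fun _ => O.HD) o5b1x_Dp2700_160_180_0 o5b1x_Dm2700_160_180_0 (Or.inl rfl) (Or.inl rfl) rfl hf0 hf0
      (Is.dt O.GD (fun _ => O.HD) o5b1x_Dp2800_0_0_0 o5b1x_Dm2800_0_0_0 rfl hf0 hf0
      (Is.dt O.GD (fun _ => O.HD) o5b1x_Dp2900_0_0_0 o5b1x_Dm2900_0_0_0 rfl hf0 hf0
      (I.dtz O.GD (fun _ => O.HD) o5b1_Qp3000_0_0_0 o5b1_Qm3000_0_0_0 (by decide) rfl
      DT.nil A16 B36) A16 B36) A16 B36) A16 B36) A16 B36) A16 B36)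

theorem dt5bx_c {xs ys T ρ : ℝ} (O : OneB xs ys T ρ) (I : o5b1.In T ρ xs ys)
    (Is : o5b1x.In T ρ xs ys) : DT xs ys T ρ (16 / 100) (36 / 100) (fun _ => 0) (fun _ => 0) t5c :=
  (Is.dtg O.GD (fun _ => O.HD) o5b1x_Dp2500_160_260_0 o5b1x_Dm2500_160_260_0 (Or.inl rfl) (Or.inl rfl) rfl hf0 hf0
      (Is.dtg O.GD (fun _ => O.HD) o5b1x_Dp2600_160_260_0 o5b1x_Dm2600_160_260_0 (Or.inl rfl) (Or.inl rfl) rfl hf0 hf0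
      (Is.dt O.GD (fun _ => O.HD) o5b1x_Dp2700_0_0_0 o5b1x_Dm2700_0_0_0 rfl hf0 hf0
      (Is.dt O.GD (fun _ => O.HD) o5b1x_Dp2800_0_0_0 o5b1x_Dm2800_0_0_0 rfl hf0 hf0
      (Is.dt O.GD (fun _ => O.HD) o5b1x_Dp2900_0_0_0 o5b1x_Dm2900_0_0_0 rfl hf0 hf0
      (I.dtz O.GD (fun _ => O.HD) o5b1_Qp3000_0_0_0 o5b1_Qm3000_0_0_0 (by decide) rfl
      DT.nil A16 B36) A16 B36) A16 B36) A16 B36) A16 B36) A16 B36)

end RC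

end Pool.Agent.Work.MP_b30479_gtS.G2

end

section

/-!
# Rings on the level part: pairs of hinges
-/

namespace Pool.Agent.Work.MP_b30479_gtS.G2

open Real Set

namespace RC

open R6

theorem pr4a2 {xs ys T ρ xs' T' : ℝ} (O : OneB xs ys T ρ) (I : o4a2.In T ρ xs ys)
    (H : HD xs' ys T' ρ (125 / 1000) (30 / 100)) (l : LH xs' ys T' ρ (125 / 1000) (30 / 100))
    (d : DnG xs' T' (125 / 1000) (30 / 100) ys ρ) (I' : p4a2.In T' ρ xs' ys)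
    (hx' : xs' ∈ Icc (125 / 1000) (30 / 100)) :
    Pr ys ρ xs T (16 / 100) (36 / 100) (fun _ => 0) (fun _ => 0) xs' T' (125 / 1000) (30 / 100)
      (fun _ => 0) (fun _ => 0) :=
  Pr.of (tab := [⟨2500, 2600, 0, 0, 0, 0, 0⟩, ⟨2600, 2700, 0, 0, 0, 0, 0⟩, ⟨2700, 2800, 0, 0, 0, 0, 0⟩, ⟨2800, 5000, 0, 0, 0, 0, 0⟩])
    (tab' := [⟨2500, 2600, 130, 65, 0, 0, 0⟩, ⟨2600, 2700, 160, 80, 0, 0, 0⟩, ⟨2700, 2800, 160, 100, 0, 0, 0⟩, ⟨2800, 5000, 0, 0, 0, 0, 0⟩])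
    (O.LF I o4a2_Wa o4a2_Wb hf0) (l.toF hz0 hz0 (by norm_num) (by norm_num))
    (I.dt O.GD (fun _ => O.HD) o4a2_Dp2500_0_0_0 o4a2_Dm2500_0_0_0 rfl hf0 hf0
      (I.dt O.GD (fun _ => O.HD) o4a2_Dp2600_0_0_0 o4a2_Dm2600_0_0_0 rfl hf0 hf0
      (I.dt O.GD (fun _ => O.HD) o4a2_Dp2700_0_0_0 o4a2_Dm2700_0_0_0 rfl hf0 hf0
      (I.dt0 O.GD (fun _ => O.HD) o4a2_Qp2800_0_0_0 o4a2_Qm2800_0_0_0 rfl DT.nil A16 B36) A16 B36) A16 B36) A16 B36)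
    (d.qt (d.qt (d.qt (d.qt QT.nil))))
    (I'.dt H.toGD (fun _ => H) p4a2_Dp2500_130_65_0 p4a2_Dm2500_130_65_0 rfl hf0 hf0
      (I'.dt H.toGD (fun _ => H) p4a2_Dp2600_160_80_0 p4a2_Dm2600_160_80_0 rfl hf0 hf0
      (I'.dt H.toGD (fun _ => H) p4a2_Dp2700_160_100_0 p4a2_Dm2700_160_100_0 rfl hf0 hf0
      (d.dt H.toGD DT.nil) A12 B30) A12 B30) A12 B30)
    (I.qt O.GD (fun _ => O.HD) o4a2_Qp2500_130_65_0 o4a2_Qm2500_130_65_0 rfl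
      (I.qt O.GD (fun _ => O.HD) o4a2_Qp2600_160_80_0 o4a2_Qm2600_160_80_0 rfl
      (I.qt O.GD (fun _ => O.HD) o4a2_Qp2700_160_100_0 o4a2_Qm2700_160_100_0 rfl
      (I.qt O.GD (fun _ => O.HD) o4a2_Qp2800_0_0_0 o4a2_Qm2800_0_0_0 rfl QT.nil A16 B36) A16 B36) A16 B36) A16 B36)
    (by decide) (by decide) O.hys O.hxs hx'

theorem pr4a2e {xs ys T ρ xs' T' : ℝ} (O : OneB xs ys T ρ) (I : o4a2e.In T ρ xs ys)
    (G : GD xs' ys (125 / 1000) (30 / 100))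
    (hU : ∀ x y, x ∈ Icc (125 / 1000 : ℝ) (30 / 100) → ys < y → y ≤ 1 / 2 →
      |gh x - gh xs'| < gh y - gh ys → Dx x y T' ρ < Dx xs' ys T' ρ)
    (I' : p4a2e.In T' ρ xs' ys) (hx' : xs' ∈ Icc (125 / 1000) (30 / 100)) :
    Pr ys ρ xs T (16 / 100) (36 / 100) (fun _ => 0) (fun _ => 0) xs' T' (125 / 1000) (30 / 100)
      (fun _ => 0) (fun m => 1 / 2 * m) :=
  Pr.of (tab := [⟨2500, 2600, 30, 50, 0, 0, 0⟩, ⟨2600, 2700, 30, 50, 0, 0, 0⟩, ⟨2700, 2800, 30, 50, 0, 0, 0⟩, ⟨2800, 3000, 30, 50, 0, 0, 0⟩, ⟨3000, 5000, 30, 50, 0, 0, 0⟩])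
    (tab' := [⟨2500, 2600, 160, 80, 0, 0, 0⟩, ⟨2600, 2700, 160, 65, 0, 0, 0⟩, ⟨2700, 2800, 160, 80, 0, 0, 0⟩, ⟨2800, 5000, 0, 0, 0, 0, 0⟩])
    (O.LF I o4a2e_Wa o4a2e_Wb hf0) (I'.LF0 G hU p4a2e_Wp p4a2e_Wm hf0 hf50 A12 B30)
    (I.dt O.GD (fun _ => O.HD) o4a2e_Dp2500_30_50_0 o4a2e_Dm2500_30_50_0 rfl hf0 hf0
      (I.dt O.GD (fun _ => O.HD) o4a2e_Dp2600_30_50_0 o4a2e_Dm2600_30_50_0 rfl hf0 hf0
      (I.dt O.GD (fun _ => O.HD) o4a2e_Dp2700_30_50_0 o4a2e_Dm2700_30_50_0 rfl hf0 hf0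
      (I.dt O.GD (fun _ => O.HD) o4a2e_Dp2800_30_50_0 o4a2e_Dm2800_30_50_0 rfl hf0 hf0
      (I.dt O.GD (fun _ => O.HD) o4a2e_Dp3000_30_50_0 o4a2e_Dm3000_30_50_0 rfl hf0 hf0
      DT.nil A16 B36) A16 B36) A16 B36) A16 B36) A16 B36)
    (I'.qt G (fun h => absurd rfl h) p4a2e_Qp2500_30_50_0 p4a2e_Qm2500_30_50_0 rfl
      (I'.qt G (fun h => absurd rfl h) p4a2e_Qp2600_30_50_0 p4a2e_Qm2600_30_50_0 rfl
      (I'.qt G (fun h => absurd rfl h) p4a2e_Qp2700_30_50_0 p4a2e_Qm2700_30_50_0 rfl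
      (I'.qt G (fun h => absurd rfl h) p4a2e_Qp2800_30_50_0 p4a2e_Qm2800_30_50_0 rfl
      (I'.qt G (fun h => absurd rfl h) p4a2e_Qp3000_30_50_0 p4a2e_Qm3000_30_50_0 rfl
      QT.nil A12 B30) A12 B30) A12 B30) A12 B30) A12 B30)
    (I'.dt G (fun h => absurd rfl h) p4a2e_Dp2500_160_80_0 p4a2e_Dm2500_160_80_0 rfl hf0 hf50
      (I'.dt G (fun h => absurd rfl h) p4a2e_Dp2600_160_65_0 p4a2e_Dm2600_160_65_0 rfl hf0 hf50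
      (I'.dt G (fun h => absurd rfl h) p4a2e_Dp2700_160_80_0 p4a2e_Dm2700_160_80_0 rfl hf0 hf50
      (I'.dt G (fun h => absurd rfl h) p4a2e_Dp2800_0_0_0 p4a2e_Dm2800_0_0_0 rfl hf0 hf50 DT.nil A12 B30) A12 B30) A12 B30) A12 B30)
    (I.qt O.GD (fun _ => O.HD) o4a2e_Qp2500_160_80_0 o4a2e_Qm2500_160_80_0 rfl
      (I.qt O.GD (fun _ => O.HD) o4a2e_Qp2600_160_65_0 o4a2e_Qm2600_160_65_0 rfl
      (I.qt O.GD (fun _ => O.HD) o4a2e_Qp2700_160_80_0 o4a2e_Qm2700_160_80_0 rfl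
      (I.qt O.GD (fun _ => O.HD) o4a2e_Qp2800_0_0_0 o4a2e_Qm2800_0_0_0 rfl QT.nil A16 B36) A16 B36) A16 B36) A16 B36)
    (by decide) (by decide) O.hys O.hxs hx'

theorem pr4a3 {xs ys T ρ xs' T' : ℝ} (O : OneB xs ys T ρ) (I : o4a3.In T ρ xs ys)
    (H : HD xs' ys T' ρ (12 / 100) (30 / 100)) (l : LH xs' ys T' ρ (12 / 100) (30 / 100))
    (d : DnG xs' T' (12 / 100) (30 / 100) ys ρ) (I' : p4a3.In T' ρ xs' ys)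
    (hx' : xs' ∈ Icc (12 / 100) (30 / 100)) :
    Pr ys ρ xs T (16 / 100) (36 / 100) (fun _ => 0) (fun _ => 0) xs' T' (12 / 100) (30 / 100)
      (fun _ => 0) (fun _ => 0) :=
  Pr.of (tab := [⟨2500, 2600, 0, 0, 0, 0, 0⟩, ⟨2600, 2700, 0, 0, 0, 0, 0⟩, ⟨2700, 2800, 0, 0, 0, 0, 0⟩, ⟨2800, 5000, 0, 0, 0, 0, 0⟩])
    (tab' := [⟨2500, 2600, 115, 50, 0, 0, 0⟩, ⟨2600, 2700, 160, 80, 0, 0, 0⟩, ⟨2700, 2800, 160, 100, 0, 0, 0⟩, ⟨2800, 5000, 0, 0, 0, 0, 0⟩])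
    (O.LF I o4a3_Wa o4a3_Wb hf0) (l.toF hz0 hz0 (by norm_num) (by norm_num))
    (I.dt O.GD (fun _ => O.HD) o4a3_Dp2500_0_0_0 o4a3_Dm2500_0_0_0 rfl hf0 hf0
      (I.dt O.GD (fun _ => O.HD) o4a3_Dp2600_0_0_0 o4a3_Dm2600_0_0_0 rfl hf0 hf0
      (I.dt O.GD (fun _ => O.HD) o4a3_Dp2700_0_0_0 o4a3_Dm2700_0_0_0 rfl hf0 hf0
      (I.dt0 O.GD (fun _ => O.HD) o4a3_Qp2800_0_0_0 o4a3_Qm2800_0_0_0 rfl DT.nil A16 B36) A16 B36) A16 B36) A16 B36)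
    (d.qt (d.qt (d.qt (d.qt QT.nil))))
    (I'.dt H.toGD (fun _ => H) p4a3_Dp2500_115_50_0 p4a3_Dm2500_115_50_0 rfl hf0 hf0
      (I'.dt H.toGD (fun _ => H) p4a3_Dp2600_160_80_0 p4a3_Dm2600_160_80_0 rfl hf0 hf0
      (I'.dt H.toGD (fun _ => H) p4a3_Dp2700_160_100_0 p4a3_Dm2700_160_100_0 rfl hf0 hf0
      (d.dt H.toGD DT.nil) A120 B30) A120 B30) A120 B30)
    (I.qt O.GD (fun _ => O.HD) o4a3_Qp2500_115_50_0 o4a3_Qm2500_115_50_0 rfl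
      (I.qt O.GD (fun _ => O.HD) o4a3_Qp2600_160_80_0 o4a3_Qm2600_160_80_0 rfl
      (I.qt O.GD (fun _ => O.HD) o4a3_Qp2700_160_100_0 o4a3_Qm2700_160_100_0 rfl
      (I.qt O.GD (fun _ => O.HD) o4a3_Qp2800_0_0_0 o4a3_Qm2800_0_0_0 rfl QT.nil A16 B36) A16 B36) A16 B36) A16 B36)
    (by decide) (by decide) O.hys O.hxs hx'

theorem pr4a3e {xs ys T ρ xs' T' : ℝ} (O : OneB xs ys T ρ) (I : o4a3e.In T ρ xs ys)
    (H : HD xs' ys T' ρ (10 / 100) (26 / 100)) (l : LH xs' ys T' ρ (10 / 100) (26 / 100))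
    (d : DnG xs' T' (10 / 100) (26 / 100) ys ρ) (I' : p4a3e.In T' ρ xs' ys)
    (hx' : xs' ∈ Icc (10 / 100) (26 / 100)) :
    Pr ys ρ xs T (16 / 100) (36 / 100) (fun _ => 0) (fun _ => 0) xs' T' (10 / 100) (26 / 100)
      (fun _ => 0) (fun _ => 0) :=
  Pr.of (tab := [⟨2500, 2600, 0, 0, 0, 0, 0⟩, ⟨2600, 2700, 0, 0, 0, 0, 0⟩, ⟨2700, 2800, 0, 0, 0, 0, 0⟩, ⟨2800, 5000, 0, 0, 0, 0, 0⟩])
    (tab' := [⟨2500, 2600, 115, 50, 0, 0, 0⟩, ⟨2600, 2700, 160, 80, 0, 0, 0⟩, ⟨2700, 2800, 160, 100, 0, 0, 0⟩, ⟨2800, 5000, 0, 0, 0, 0, 0⟩])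
    (O.LF I o4a3e_Wa o4a3e_Wb hf0) (l.toF hz0 hz0 (by norm_num) (by norm_num))
    (I.dt O.GD (fun _ => O.HD) o4a3e_Dp2500_0_0_0 o4a3e_Dm2500_0_0_0 rfl hf0 hf0
      (I.dt O.GD (fun _ => O.HD) o4a3e_Dp2600_0_0_0 o4a3e_Dm2600_0_0_0 rfl hf0 hf0
      (I.dt O.GD (fun _ => O.HD) o4a3e_Dp2700_0_0_0 o4a3e_Dm2700_0_0_0 rfl hf0 hf0
      (I.dt0 O.GD (fun _ => O.HD) o4a3e_Qp2800_0_0_0 o4a3e_Qm2800_0_0_0 rfl DT.nil A16 B36) A16 B36) A16 B36) A16 B36)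
    (d.qt (d.qt (d.qt (d.qt QT.nil))))
    (I'.dt H.toGD (fun _ => H) p4a3e_Dp2500_115_50_0 p4a3e_Dm2500_115_50_0 rfl hf0 hf0
      (I'.dt H.toGD (fun _ => H) p4a3e_Dp2600_160_80_0 p4a3e_Dm2600_160_80_0 rfl hf0 hf0
      (I'.dt H.toGD (fun _ => H) p4a3e_Dp2700_160_100_0 p4a3e_Dm2700_160_100_0 rfl hf0 hf0
      (d.dt H.toGD DT.nil) A10 B26) A10 B26) A10 B26)
    (I.qt O.GD (fun _ => O.HD) o4a3e_Qp2500_115_50_0 o4a3e_Qm2500_115_50_0 rfl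
      (I.qt O.GD (fun _ => O.HD) o4a3e_Qp2600_160_80_0 o4a3e_Qm2600_160_80_0 rfl
      (I.qt O.GD (fun _ => O.HD) o4a3e_Qp2700_160_100_0 o4a3e_Qm2700_160_100_0 rfl
      (I.qt O.GD (fun _ => O.HD) o4a3e_Qp2800_0_0_0 o4a3e_Qm2800_0_0_0 rfl QT.nil A16 B36) A16 B36) A16 B36) A16 B36)
    (by decide) (by decide) O.hys O.hxs hx'

theorem pr4aZ {xs ys T ρ xs' T' : ℝ} (O : OneB xs ys T ρ) (I : o4aZ.In T ρ xs ys)
    (H : HD xs' ys T' ρ (10 / 100) (27 / 100)) (l : LH xs' ys T' ρ (10 / 100) (27 / 100))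
    (d : DnG xs' T' (10 / 100) (27 / 100) ys ρ) (I' : p4aZ.In T' ρ xs' ys)
    (hx' : xs' ∈ Icc (10 / 100) (27 / 100)) :
    Pr ys ρ xs T (16 / 100) (36 / 100) (fun _ => 0) (fun _ => 0) xs' T' (10 / 100) (27 / 100)
      (fun _ => 0) (fun _ => 0) :=
  Pr.of (tab := [⟨2500, 2600, 0, 0, 0, 0, 0⟩, ⟨2600, 2700, 0, 0, 0, 0, 0⟩, ⟨2700, 2800, 0, 0, 0, 0, 0⟩, ⟨2800, 2900, 0, 0, 0, 0, 0⟩, ⟨2900, 5000, 0, 0, 0, 0, 0⟩])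
    (tab' := [⟨2500, 2600, 130, 50, 0, 0, 0⟩, ⟨2600, 2700, 130, 65, 0, 0, 0⟩, ⟨2700, 2800, 115, 80, 0, 0, 0⟩, ⟨2800, 2900, 160, 100, 0, 0, 0⟩, ⟨2900, 5000, 0, 0, 0, 0, 0⟩])
    (O.LF I o4aZ_Wa o4aZ_Wb hf0) (l.toF hz0 hz0 (by norm_num) (by norm_num))
    (I.dt O.GD (fun _ => O.HD) o4aZ_Dp2500_0_0_0 o4aZ_Dm2500_0_0_0 rfl hf0 hf0
      (I.dt O.GD (fun _ => O.HD) o4aZ_Dp2600_0_0_0 o4aZ_Dm2600_0_0_0 rfl hf0 hf0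
      (I.dt O.GD (fun _ => O.HD) o4aZ_Dp2700_0_0_0 o4aZ_Dm2700_0_0_0 rfl hf0 hf0
      (I.dt O.GD (fun _ => O.HD) o4aZ_Dp2800_0_0_0 o4aZ_Dm2800_0_0_0 rfl hf0 hf0
      (I.dt0 O.GD (fun _ => O.HD) o4aZ_Qp2900_0_0_0 o4aZ_Qm2900_0_0_0 rfl DT.nil A16 B36) A16 B36) A16 B36) A16 B36) A16 B36)
    (d.qt (d.qt (d.qt (d.qt (d.qt QT.nil)))))
    (I'.dt H.toGD (fun _ => H) p4aZ_Dp2500_130_50_0 p4aZ_Dm2500_130_50_0 rfl hf0 hf0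
      (I'.dt H.toGD (fun _ => H) p4aZ_Dp2600_130_65_0 p4aZ_Dm2600_130_65_0 rfl hf0 hf0
      (I'.dt H.toGD (fun _ => H) p4aZ_Dp2700_115_80_0 p4aZ_Dm2700_115_80_0 rfl hf0 hf0
      (I'.dt H.toGD (fun _ => H) p4aZ_Dp2800_160_100_0 p4aZ_Dm2800_160_100_0 rfl hf0 hf0
      (d.dt H.toGD DT.nil) A10 B27) A10 B27) A10 B27) A10 B27)
    (I.qt O.GD (fun _ => O.HD) o4aZ_Qp2500_130_50_0 o4aZ_Qm2500_130_50_0 rfl
      (I.qt O.GD (fun _ => O.HD) o4aZ_Qp2600_130_65_0 o4aZ_Qm2600_130_65_0 rfl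
      (I.qt O.GD (fun _ => O.HD) o4aZ_Qp2700_115_80_0 o4aZ_Qm2700_115_80_0 rfl
      (I.qt O.GD (fun _ => O.HD) o4aZ_Qp2800_160_100_0 o4aZ_Qm2800_160_100_0 rfl
      (I.qt O.GD (fun _ => O.HD) o4aZ_Qp2900_0_0_0 o4aZ_Qm2900_0_0_0 rfl QT.nil A16 B36) A16 B36) A16 B36) A16 B36) A16 B36)
    (by decide) (by decide) O.hys O.hxs hx'

theorem pr4aZs {xs ys T ρ xs' T' : ℝ} (O : OneB xs ys T ρ) (I : o4aZs.In T ρ xs ys)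
    (H : HD xs' ys T' ρ (10 / 100) (27 / 100)) (l : LH xs' ys T' ρ (10 / 100) (27 / 100))
    (d : DnG xs' T' (10 / 100) (27 / 100) ys ρ) (I' : p4aZs.In T' ρ xs' ys)
    (hx' : xs' ∈ Icc (10 / 100) (27 / 100)) :
    Pr ys ρ xs T (16 / 100) (36 / 100) (fun _ => 0) (fun _ => 0) xs' T' (10 / 100) (27 / 100)
      (fun _ => 0) (fun _ => 0) :=
  Pr.of (tab := [⟨2500, 2600, 0, 0, 50, 150, 100⟩, ⟨2600, 2700, 0, 0, 0, 0, 0⟩, ⟨2700, 2800, 0, 0, 0, 0, 0⟩, ⟨2800, 2900, 0, 0, 0, 0, 0⟩, ⟨2900, 5000, 0, 0, 0, 0, 0⟩])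
    (tab' := [⟨2500, 2600, 115, 30, 0, 0, 0⟩, ⟨2600, 2700, 100, 40, 0, 0, 0⟩, ⟨2700, 2800, 115, 65, 0, 0, 0⟩, ⟨2800, 2900, 160, 100, 0, 0, 0⟩, ⟨2900, 5000, 0, 0, 0, 0, 0⟩])
    (O.LF I o4aZs_Wa o4aZs_Wb hf0) (l.toF hz0 hz0 (by norm_num) (by norm_num))
    (I.dt O.GD (fun _ => O.HD) o4aZs_Dp2500_0_0_50 o4aZs_Dm2500_0_0_0 rfl hf0 hf0
      (I.dt O.GD (fun _ => O.HD) o4aZs_Dp2600_0_0_0 o4aZs_Dm2600_0_0_0 rfl hf0 hf0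
      (I.dt O.GD (fun _ => O.HD) o4aZs_Dp2700_0_0_0 o4aZs_Dm2700_0_0_0 rfl hf0 hf0
      (I.dt O.GD (fun _ => O.HD) o4aZs_Dp2800_0_0_0 o4aZs_Dm2800_0_0_0 rfl hf0 hf0
      (I.dt0 O.GD (fun _ => O.HD) o4aZs_Qp2900_0_0_0 o4aZs_Qm2900_0_0_0 rfl DT.nil A16 B36) A16 B36) A16 B36) A16 B36) A16 B36)
    (d.qe I' H.toGD p4aZs_Ep2500_0_0_50 p4aZs_Em2500_0_0_50 rfl
      (d.qt (d.qt (d.qt (d.qt QT.nil)))) A10 B27)
    (I'.dt H.toGD (fun _ => H) p4aZs_Dp2500_115_30_0 p4aZs_Dm2500_115_30_0 rfl hf0 hf0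
      (I'.dt H.toGD (fun _ => H) p4aZs_Dp2600_100_40_0 p4aZs_Dm2600_100_40_0 rfl hf0 hf0
      (I'.dt H.toGD (fun _ => H) p4aZs_Dp2700_115_65_0 p4aZs_Dm2700_115_65_0 rfl hf0 hf0
      (I'.dt H.toGD (fun _ => H) p4aZs_Dp2800_160_100_0 p4aZs_Dm2800_160_100_0 rfl hf0 hf0
      (d.dt H.toGD DT.nil) A10 B27) A10 B27) A10 B27) A10 B27)
    (I.qt O.GD (fun _ => O.HD) o4aZs_Qp2500_115_30_0 o4aZs_Qm2500_115_30_0 rfl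
      (I.qt O.GD (fun _ => O.HD) o4aZs_Qp2600_100_40_0 o4aZs_Qm2600_100_40_0 rfl
      (I.qt O.GD (fun _ => O.HD) o4aZs_Qp2700_115_65_0 o4aZs_Qm2700_115_65_0 rfl
      (I.qt O.GD (fun _ => O.HD) o4aZs_Qp2800_160_100_0 o4aZs_Qm2800_160_100_0 rfl
      (I.qt O.GD (fun _ => O.HD) o4aZs_Qp2900_0_0_0 o4aZs_Qm2900_0_0_0 rfl QT.nil A16 B36) A16 B36) A16 B36) A16 B36) A16 B36)
    (by decide) (by decide) O.hys O.hxs hx'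

end RC

end Pool.Agent.Work.MP_b30479_gtS.G2

end

section

/-!
# Rings on the level part: the pairs of hinges by class
-/

namespace Pool.Agent.Work.MP_b30479_gtS.G2

open Finset VOL Filter Topology

namespace SR

/-- **A ring between a digit `1` and a class `k`, the pair of hinges.** -/
theorem pm4a {xs ys T ρ xs' T' : ℝ} {k : Cl} {s : Bool}
    (hk : k ≠ .one)
    (q : (rq4 .one k s).Re xs ys T ρ)
    (r : (rp4 .one k s).Re xs' ys T' ρ)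
    (D : k ≠ .twoE → Lo k xs' ys T' ρ)
    (hx : xs' ∈ Set.Icc (fcl k) (fcp k)) :
    PrS 4 .one k xs ys T ρ xs' T' := by
  cases k
  · exact absurd rfl hk
  · have q0 : (mk4 2267 2772 1646 1879 1066 1555 491 726 (-991) (-443) 4530 4039).Re xs ys T ρ := q
    have r0 : (mk4 1997 2512 1646 1879 822 1238 491 726 (-649) (-187) 4262 3771).Re xs' ys T' ρ := r
    have O := q0.oneB RC.Row.cH4a (by decide)
    have I : RC.o4a2.In T ρ xs ys := wd4_in q0 (by decide)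
    have J : RC.p4a2.In T' ρ xs' ys := wd4_in r0 (by decide)
    obtain ⟨H, l, d⟩ := D (by decide)
    exact ⟨_, _, Or.inl rfl, Or.inl rfl, RC.pr4a2 O I H l d J hx⟩
  · have q0 : (mk4 2251 2708 1714 1896 986 1440 400 581 (-977) (-465) 4481 4081).Re xs ys T ρ := q
    have r0 : (mk4 1707 1844 1714 1896 1418 1593 400 581 (-1091) (-951) 3676 3276).Re xs' ys T' ρ := r
    have O := q0.oneB RC.Row.cH4a (by decide)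
    have I : RC.o4a2e.In T ρ xs ys := wd4_in q0 (by decide)
    have J : RC.p4a2e.In T' ρ xs' ys := wd4_in r0 (by decide)
    have G := r0.gd (by decide)
    have U := r0.up G RC.Row.cU4 (by decide)
    exact ⟨_, _, Or.inl rfl, Or.inr ⟨rfl, rfl, rfl⟩,
      RC.pr4a2e O I G U J hx⟩
  · have q0 : (mk4 2304 2772 1698 1908 1100 1562 543 748 (-959) (-427) 4556 4013).Re xs ys T ρ := q
    have r0 : (mk4 2011 2285 1698 1908 666 973 543 748 (-331) (-33) 4094 3551).Re xs' ys T' ρ := r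
    have O := q0.oneB RC.Row.cH4a (by decide)
    have I : RC.o4a3.In T ρ xs ys := wd4_in q0 (by decide)
    have J : RC.p4a3.In T' ρ xs' ys := wd4_in r0 (by decide)
    obtain ⟨H, l, d⟩ := D (by decide)
    exact ⟨_, _, Or.inl rfl, Or.inl rfl, RC.pr4a3 O I H l d J hx⟩
  · have q0 : (mk4 2284 2745 1750 1933 1056 1507 502 687 (-944) (-429) 4555 4053).Re xs ys T ρ := q
    have r0 : (mk4 1799 1933 1750 1933 822 997 502 687 (-390) (-249) 3801 3299).Re xs' ys T' ρ := r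
    have O := q0.oneB RC.Row.cH4a (by decide)
    have I : RC.o4a3e.In T ρ xs ys := wd4_in q0 (by decide)
    have J : RC.p4a3e.In T' ρ xs' ys := wd4_in r0 (by decide)
    obtain ⟨H, l, d⟩ := D (by decide)
    exact ⟨_, _, Or.inl rfl, Or.inl rfl, RC.pr4a3e O I H l d J hx⟩
  · cases s
    · have q0 : (mk4 2306 2811 1727 1940 1102 1609 561 838 (-940) (-408) 4607 4046).Re xs ys T ρ := q
      have r0 : (mk4 1920 2337 1727 1950 429 838 561 838 (-169) 302 4181 3620).Re xs' ys T' ρ := r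
      have O := q0.oneB RC.Row.cH4a (by decide)
      have I : RC.o4aZ.In T ρ xs ys := wd4_in q0 (by decide)
      have J : RC.p4aZ.In T' ρ xs' ys := wd4_in r0 (by decide)
      obtain ⟨H, l, d⟩ := D (by decide)
      exact ⟨_, _, Or.inl rfl, Or.inl rfl, RC.pr4aZ O I H l d J hx⟩
    · have q0 : (mk4 2326 2816 1736 2016 1117 1609 612 848 (-930) (-367) 4687 4075).Re xs ys T ρ := q
      have r0 : (mk4 1800 2336 1736 2016 210 594 612 848 154 531 4180 3568).Re xs' ys T' ρ := r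
      have O := q0.oneB RC.Row.cH4a (by decide)
      have I : RC.o4aZs.In T ρ xs ys := wd4_in q0 (by decide)
      have J : RC.p4aZs.In T' ρ xs' ys := wd4_in r0 (by decide)
      obtain ⟨H, l, d⟩ := D (by decide)
      exact ⟨_, _, Or.inl rfl, Or.inl rfl, RC.pr4aZs O I H l d J hx⟩

end SR

end Pool.Agent.Work.MP_b30479_gtS.G2

end

section

/-!
# Rings on the level part: rings between two digits `1`, rings at an end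
-/

namespace Pool.Agent.Work.MP_b30479_gtS.G2

open Finset VOL Filter Topology

namespace SR

/-- the tables of bounds -/
def t5 : Cl → List RC.Te
  | .one => RC.t5a
  | .two => RC.t5b
  | _ => RC.t5c

theorem t5_cov (C : Cl) : RC.cov 2500 (t5 C) = true := by
  cases C <;> decide

theorem ok5a {xs ys T ρ : ℝ} {s : Bool} (q : (rq5 .one .one s).Re xs ys T ρ) :
    ∃ f, FS 5 .one xs T f ∧ OKt t5 (fun _ => True) .one xs ys T ρ f := by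
  have q0 : (mk4 2233 2772 1321 1626 931 1554 236 547 (-1113) (-536) 4252 4016).Re xs ys T ρ := q
  have O := q0.oneB RC.Row.cH5a (by decide)
  have I : RC.o5a1.In T ρ xs ys := wd4_in q0 (by decide)
  refine ⟨_, Or.inl rfl, RC.lf5a1 O I, RC.qt5a O I, fun C' hC => ?_, O.hys, O.hxs⟩
  cases C'
  · exact RC.dt5a_a O I
  · exact RC.dt5a_b O I
  all_goals exact RC.dt5a_c O I

theorem ok5b {xs ys T ρ : ℝ} {s : Bool} (q : (rq5 .two .one s).Re xs ys T ρ) (B : Bd5 .one s xs ys T ρ) :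
    ∃ f, FS 5 .two xs T f ∧ OKt t5 (fun C => C ≠ .two) .two xs ys T ρ f := by
  have q0 : (mk4 2549 2954 1298 1583 1197 1592 229 517 (-1225) (-824) 4411 4182).Re xs ys T ρ := q
  have O := q0.oneB RC.Row.cH5b (by decide)
  have I : RC.o5b1.In T ρ xs ys := wdk_in q0 (by decide) (k := 1530) (by
    have := B.kp
    simp only [ka5] at this
    push_cast at this ⊢
    linarith)
  rcases le_or_gt xs (2563 / 10000) with hs | hs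
  · have Is : RC.o5b1x.In T ρ xs ys := I.cut (n := 2563) (by push_cast; exact hs)
    refine ⟨_, Or.inl rfl, RC.lf5bx1 O Is, RC.qt5b O I, fun C' hC => ?_, O.hys, O.hxs⟩
    cases C'
    · exact RC.dt5bx_a O I Is
    · exact absurd rfl hC
    all_goals exact RC.dt5bx_c O I Is
  · refine ⟨_, Or.inr ⟨rfl, hs.le, Or.inr ⟨by decide, q0.tlo5 (by decide), rfl⟩⟩,
      RC.lf5b1 O I, RC.qt5b O I, fun C' hC => ?_, O.hys, O.hxs⟩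
    cases C'
    · exact RC.dt5b_a O I
    · exact absurd rfl hC
    all_goals exact RC.dt5b_c O I

theorem ok5c {xs ys T ρ : ℝ} {s : Bool} (q : (rq5 .twoE .one s).Re xs ys T ρ) :
    ∃ f, FS 5 .twoE xs T f ∧ OKt t5 (fun _ => True) .twoE xs ys T ρ f := by
  have q0 : (mk4 2391 2611 1331 1597 1509 1762 207 475 (-1411) (-1186) 4107 3900).Re xs ys T ρ := q
  have O := q0.oneB RC.Row.cH5c (by decide)
  have I : RC.o5c1.In T ρ xs ys := wd4_in q0 (by decide)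
  refine ⟨_, Or.inl rfl, RC.lf5c1 O I, RC.qt5c O I, fun C' hC => ?_, O.hys, O.hxs⟩
  cases C'
  · exact RC.dt5c_a O I
  · exact RC.dt5c_b O I
  all_goals exact RC.dt5c_c O I

theorem bb5 {xs ys T ρ xs' T' : ℝ} (q : rw5.Re xs ys T ρ) (q' : rw5.Re xs' ys T' ρ) :
    PrO 5 .two .two xs ys T ρ xs' T' := by
  have q0 : (mk4 2620 2880 1370 1480 1285 1555 320 425 (-1170) (-915) 4315 3995).Re xs ys T ρ := q
  have q1 : (mk4 2620 2880 1370 1480 1285 1555 320 425 (-1170) (-915) 4315 3995).Re xs' ys T' ρ := q'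
  have O := q0.oneB RC.Row.cH5b (by decide)
  have O' := q1.oneB RC.Row.cH5b (by decide)
  have I : RC.o5bb1.In T ρ xs ys := wd4_in q0 (by decide)
  have I' : RC.o5bb1.In T' ρ xs' ys := wd4_in q1 (by decide)
  exact ⟨_, _, Or.inr ⟨rfl, q0.xlo (by decide), Or.inr ⟨by decide, q0.tlo5 (by decide), rfl⟩⟩,
    Or.inr ⟨rfl, q1.xlo (by decide), Or.inr ⟨by decide, q1.tlo5 (by decide), rfl⟩⟩,
    RC.Pr.of (RC.lf5bb1 O I) (RC.lf5bb1 O' I') (RC.dt5bb_bb O I) (RC.qt5bb O' I')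
      (RC.dt5bb_bb O' I') (RC.qt5bb O I) (by decide) (by decide) O.hys O.hxs O'.hxs⟩

theorem po5 {xs ys T ρ xs' T' : ℝ} {C C' : Cl} {s : Bool} {s' : Bool} 
    (hC : C = .one ∨ C = .two ∨ C = .twoE) (hC' : C' = .one ∨ C' = .two ∨ C' = .twoE)
    (q : (rq5 C .one s).Re xs ys T ρ)
    (q' : (rq5 C' .one s').Re xs' ys T' ρ) (B : C = .two → Bd5 .one s xs ys T ρ)
    (B' : C' = .two → Bd5 .one s' xs' ys T' ρ)
    (bb : C = .two → C' = .two → rw5.Re xs ys T ρ ∧ rw5.Re xs' ys T' ρ) :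
    PrO 5 C C' xs ys T ρ xs' T' := by
  rcases hC with rfl | rfl | rfl <;> rcases hC' with rfl | rfl | rfl
  · obtain ⟨f, hf, k⟩ := ok5a q
    obtain ⟨f', hf', k'⟩ := ok5a q'
    exact ⟨f, f', hf, hf', k.pr k' trivial trivial t5_cov⟩
  · obtain ⟨f, hf, k⟩ := ok5a q
    obtain ⟨f', hf', k'⟩ := ok5b q' (B' rfl)
    exact ⟨f, f', hf, hf', k.pr k' trivial (by decide) t5_cov⟩
  · obtain ⟨f, hf, k⟩ := ok5a q
    obtain ⟨f', hf', k'⟩ := ok5c q'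
    exact ⟨f, f', hf, hf', k.pr k' trivial trivial t5_cov⟩
  · obtain ⟨f, hf, k⟩ := ok5b q (B rfl)
    obtain ⟨f', hf', k'⟩ := ok5a q'
    exact ⟨f, f', hf, hf', k.pr k' (by decide) trivial t5_cov⟩
  · obtain ⟨u, u'⟩ := bb rfl rfl
    exact bb5 u u'
  · obtain ⟨f, hf, k⟩ := ok5b q (B rfl)
    obtain ⟨f', hf', k'⟩ := ok5c q'
    exact ⟨f, f', hf, hf', k.pr k' (by decide) trivial t5_cov⟩
  · obtain ⟨f, hf, k⟩ := ok5c q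
    obtain ⟨f', hf', k'⟩ := ok5a q'
    exact ⟨f, f', hf, hf', k.pr k' trivial trivial t5_cov⟩
  · obtain ⟨f, hf, k⟩ := ok5c q
    obtain ⟨f', hf', k'⟩ := ok5b q' (B' rfl)
    exact ⟨f, f', hf, hf', k.pr k' trivial (by decide) t5_cov⟩
  · obtain ⟨f, hf, k⟩ := ok5c q
    obtain ⟨f', hf', k'⟩ := ok5c q'
    exact ⟨f, f', hf, hf', k.pr k' trivial trivial t5_cov⟩

theorem em5a {xs ys T ρ : ℝ} (q : (re5 .one).Re xs ys T ρ) : EnS 5 .one xs ys T ρ := by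
  have q0 : (mk4 2180 2677 1605 1865 790 1274 140 391 (-1026) (-499) 4382 4242).Re xs ys T ρ := q
  have O := q0.oneB RC.Row.cH5e (by decide)
  have I : RC.e5a.In T ρ xs ys := wd4_in q0 (by decide)
  exact ⟨_, Or.inl rfl, RC.en5a O I⟩

theorem em5b {xs ys T ρ : ℝ} (q : (re5 .two).Re xs ys T ρ) : EnS 5 .two xs ys T ρ := by
  have q0 : (mk4 2471 2859 1571 1805 1037 1381 141 364 (-1140) (-772) 4530 4389).Re xs ys T ρ := q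
  have O := q0.oneB RC.Row.cH5e (by decide)
  have I : RC.e5b.In T ρ xs ys := wd4_in q0 (by decide)
  rcases le_or_gt xs (2563 / 10000) with hs | hs
  · have Is : RC.e5bx.In T ρ xs ys := I.cut (n := 2563) (by push_cast; exact hs)
    exact ⟨_, Or.inl rfl, RC.en5bx O I Is⟩
  · exact ⟨_, Or.inr ⟨rfl, hs.le, Or.inr ⟨by decide, q0.tlo5 (by decide), rfl⟩⟩, RC.en5b O I⟩

theorem em5c {xs ys T ρ : ℝ} (q : (re5 .twoE).Re xs ys T ρ) : EnS 5 .twoE xs ys T ρ := by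
  have q0 : (mk4 2326 2526 1608 1808 1334 1534 106 306 (-1328) (-1128) 4235 4129).Re xs ys T ρ := q
  have O := q0.oneB RC.Row.cH5e (by decide)
  have I : RC.e5c.In T ρ xs ys := wd4_in q0 (by decide)
  exact ⟨_, Or.inl rfl, RC.en5c O I⟩

theorem pe5 {xs ys T ρ : ℝ} {C : Cl} (hC : C = .one ∨ C = .two ∨ C = .twoE)
    (q : (re5 C).Re xs ys T ρ) : EnS 5 C xs ys T ρ := by
  rcases hC with rfl | rfl | rfl
  · exact em5a q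
  · exact em5b q
  · exact em5c q

end SR

end Pool.Agent.Work.MP_b30479_gtS.G2

end
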