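import Pool.Agent.Work.MP_b30479_gt.TBS.G2.RGm36
import Pool.Agent.Work.MP_b30479_gt.TBS.G2.RGm07
import Pool.Agent.Work.MP_b30479_gt.TBS.G2.RGm08
import Pool.Agent.Work.MP_b30479_gt.TBS.G2.RGm09
import Pool.Agent.Work.MP_b30479_gt.TBS.G2.RGm10
import Pool.Agent.Work.MP_b30479_gt.TBS.G2.RGm15
import Pool.Agent.Work.MP_b30479_gt.TBS.G2.RGm19
import Pool.Agent.Work.MP_b30479_gt.TBS.G2.RGm17
import Pool.Agent.Work.MP_b30479_gt.TBS.G2.RKind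
import Pool.Agent.Work.MP_b30479_gt.TBS.G2.RLvl6
import Pool.Agent.Work.MP_b30479_gt.TBS.G2.WLocF

section

/-!
# Rings on the level part: pairs of hinges
-/

namespace Pool.Agent.Work.MP_b30479_gtS.G2

open Real Set

namespace RC

open R6

theorem pr4b2 {xs ys T ρ xs' T' : ℝ} (O : OneB xs ys T ρ) (I : o4b2.In T ρ xs ys)
    (H : HD xs' ys T' ρ (125 / 1000) (30 / 100)) (l : LH xs' ys T' ρ (125 / 1000) (30 / 100))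
    (d : DnG xs' T' (125 / 1000) (30 / 100) ys ρ) (I' : p4b2.In T' ρ xs' ys)
    (hx' : xs' ∈ Icc (125 / 1000) (30 / 100)) :
    Pr ys ρ xs T (16 / 100) (36 / 100) (fun m => 38 / 100 * m) (fun _ => 0) xs' T' (125 / 1000) (30 / 100)
      (fun _ => 0) (fun _ => 0) :=
  Pr.of (tab := [⟨2500, 2600, 0, 0, 50, 150, 100⟩, ⟨2600, 2700, 0, 0, 0, 0, 0⟩, ⟨2700, 2800, 0, 0, 0, 0, 0⟩, ⟨2800, 2900, 0, 0, 0, 0, 0⟩, ⟨2900, 3000, 0, 0, 0, 0, 0⟩, ⟨3000, 5000, 0, 0, 0, 0, 0⟩])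
    (tab' := [⟨2500, 2600, 115, 30, 0, 0, 0⟩, ⟨2600, 2700, 115, 40, 0, 0, 0⟩, ⟨2700, 2800, 115, 50, 0, 0, 0⟩, ⟨2800, 2900, 115, 65, 0, 0, 0⟩, ⟨2900, 3000, 130, 65, 0, 0, 0⟩, ⟨3000, 5000, 0, 0, 0, 0, 0⟩])
    (O.LF I o4b2_Wa o4b2_Wb hf38) (l.toF hz0 hz0 (by norm_num) (by norm_num))
    (I.dt O.GD (fun _ => O.HD) o4b2_Dp2500_0_0_50 o4b2_Dm2500_0_0_0 rfl hf38 hf0
      (I.dt O.GD (fun _ => O.HD) o4b2_Dp2600_0_0_0 o4b2_Dm2600_0_0_0 rfl hf38 hf0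
      (I.dt O.GD (fun _ => O.HD) o4b2_Dp2700_0_0_0 o4b2_Dm2700_0_0_0 rfl hf38 hf0
      (I.dt O.GD (fun _ => O.HD) o4b2_Dp2800_0_0_0 o4b2_Dm2800_0_0_0 rfl hf38 hf0
      (I.dt O.GD (fun _ => O.HD) o4b2_Dp2900_0_0_0 o4b2_Dm2900_0_0_0 rfl hf38 hf0
      (I.dt0 O.GD (fun _ => O.HD) o4b2_Qp3000_0_0_0 o4b2_Qm3000_0_0_0 rfl DT.nil A16 B36) A16 B36) A16 B36) A16 B36) A16 B36) A16 B36)
    (d.qe I' H.toGD p4b2_Ep2500_0_0_50 p4b2_Em2500_0_0_50 rfl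
      (d.qt (d.qt (d.qt (d.qt (d.qt QT.nil))))) A12 B30)
    (I'.dt H.toGD (fun _ => H) p4b2_Dp2500_115_30_0 p4b2_Dm2500_115_30_0 rfl hf0 hf0
      (I'.dt H.toGD (fun _ => H) p4b2_Dp2600_115_40_0 p4b2_Dm2600_115_40_0 rfl hf0 hf0
      (I'.dt H.toGD (fun _ => H) p4b2_Dp2700_115_50_0 p4b2_Dm2700_115_50_0 rfl hf0 hf0
      (I'.dt H.toGD (fun _ => H) p4b2_Dp2800_115_65_0 p4b2_Dm2800_115_65_0 rfl hf0 hf0
      (I'.dt H.toGD (fun _ => H) p4b2_Dp2900_130_65_0 p4b2_Dm2900_130_65_0 rfl hf0 hf0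
      (d.dt H.toGD DT.nil) A12 B30) A12 B30) A12 B30) A12 B30) A12 B30)
    (I.qt O.GD (fun _ => O.HD) o4b2_Qp2500_115_30_0 o4b2_Qm2500_115_30_0 rfl
      (I.qt O.GD (fun _ => O.HD) o4b2_Qp2600_115_40_0 o4b2_Qm2600_115_40_0 rfl
      (I.qt O.GD (fun _ => O.HD) o4b2_Qp2700_115_50_0 o4b2_Qm2700_115_50_0 rfl
      (I.qt O.GD (fun _ => O.HD) o4b2_Qp2800_115_65_0 o4b2_Qm2800_115_65_0 rfl
      (I.qt O.GD (fun _ => O.HD) o4b2_Qp2900_130_65_0 o4b2_Qm2900_130_65_0 rfl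
      (I.qt O.GD (fun _ => O.HD) o4b2_Qp3000_0_0_0 o4b2_Qm3000_0_0_0 rfl QT.nil A16 B36) A16 B36) A16 B36) A16 B36) A16 B36) A16 B36)
    (by decide) (by decide) O.hys O.hxs hx'

theorem pr4b2e {xs ys T ρ xs' T' : ℝ} (O : OneB xs ys T ρ) (I : o4b2e.In T ρ xs ys)
    (G : GD xs' ys (125 / 1000) (30 / 100))
    (hU : ∀ x y, x ∈ Icc (125 / 1000 : ℝ) (30 / 100) → ys < y → y ≤ 1 / 2 →
      |gh x - gh xs'| < gh y - gh ys → Dx x y T' ρ < Dx xs' ys T' ρ)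
    (I' : p4b2e.In T' ρ xs' ys) (hx' : xs' ∈ Icc (125 / 1000) (30 / 100)) :
    Pr ys ρ xs T (16 / 100) (36 / 100) (fun m => 38 / 100 * m) (fun _ => 0) xs' T' (125 / 1000) (30 / 100)
      (fun _ => 0) (fun m => 1 / 2 * m) :=
  Pr.of (tab := [⟨2500, 2600, 30, 50, 50, 150, 100⟩, ⟨2600, 2700, 30, 50, 0, 0, 0⟩, ⟨2700, 2800, 30, 50, 0, 0, 0⟩, ⟨2800, 3000, 30, 20, 0, 0, 0⟩, ⟨3000, 5000, 30, 20, 0, 0, 0⟩])
    (tab' := [⟨2500, 2600, 115, 40, 0, 0, 0⟩, ⟨2600, 2700, 115, 30, 0, 0, 0⟩, ⟨2700, 2800, 90, 20, 0, 0, 0⟩, ⟨2800, 3000, 160, 50, 0, 0, 0⟩, ⟨3000, 5000, 0, 0, 0, 0, 0⟩])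
    (O.LF I o4b2e_Wa o4b2e_Wb hf38) (I'.LF0 G hU p4b2e_Wp p4b2e_Wm hf0 hf50 A12 B30)
    (I.dt O.GD (fun _ => O.HD) o4b2e_Dp2500_30_50_50 o4b2e_Dm2500_30_50_0 rfl hf38 hf0
      (I.dt O.GD (fun _ => O.HD) o4b2e_Dp2600_30_50_0 o4b2e_Dm2600_30_50_0 rfl hf38 hf0
      (I.dt O.GD (fun _ => O.HD) o4b2e_Dp2700_30_50_0 o4b2e_Dm2700_30_50_0 rfl hf38 hf0
      (I.dt O.GD (fun _ => O.HD) o4b2e_Dp2800_30_20_0 o4b2e_Dm2800_30_20_0 rfl hf38 hf0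
      (I.dt O.GD (fun _ => O.HD) o4b2e_Dp3000_30_20_0 o4b2e_Dm3000_30_20_0 rfl hf38 hf0
      DT.nil A16 B36) A16 B36) A16 B36) A16 B36) A16 B36)
    (I'.qe G (fun h => absurd rfl h) p4b2e_Qp2500_30_50_0 p4b2e_Qm2500_30_50_0 p4b2e_Ep2500_30_50_50 p4b2e_Em2500_30_50_50 rfl
      (I'.qt G (fun h => absurd rfl h) p4b2e_Qp2600_30_50_0 p4b2e_Qm2600_30_50_0 rfl
      (I'.qt G (fun h => absurd rfl h) p4b2e_Qp2700_30_50_0 p4b2e_Qm2700_30_50_0 rfl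
      (I'.qt G (fun h => absurd rfl h) p4b2e_Qp2800_30_20_0 p4b2e_Qm2800_30_20_0 rfl
      (I'.qt G (fun h => absurd rfl h) p4b2e_Qp3000_30_20_0 p4b2e_Qm3000_30_20_0 rfl
      QT.nil A12 B30) A12 B30) A12 B30) A12 B30) A12 B30)
    (I'.dt G (fun h => absurd rfl h) p4b2e_Dp2500_115_40_0 p4b2e_Dm2500_115_40_0 rfl hf0 hf50
      (I'.dt G (fun h => absurd rfl h) p4b2e_Dp2600_115_30_0 p4b2e_Dm2600_115_30_0 rfl hf0 hf50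
      (I'.dt G (fun h => absurd rfl h) p4b2e_Dp2700_90_20_0 p4b2e_Dm2700_90_20_0 rfl hf0 hf50
      (I'.dt G (fun h => absurd rfl h) p4b2e_Dp2800_160_50_0 p4b2e_Dm2800_160_50_0 rfl hf0 hf50
      (I'.dt G (fun h => absurd rfl h) p4b2e_Dp3000_0_0_0 p4b2e_Dm3000_0_0_0 rfl hf0 hf50 DT.nil A12 B30) A12 B30) A12 B30) A12 B30) A12 B30)
    (I.qt O.GD (fun _ => O.HD) o4b2e_Qp2500_115_40_0 o4b2e_Qm2500_115_40_0 rfl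
      (I.qt O.GD (fun _ => O.HD) o4b2e_Qp2600_115_30_0 o4b2e_Qm2600_115_30_0 rfl
      (I.qt O.GD (fun _ => O.HD) o4b2e_Qp2700_90_20_0 o4b2e_Qm2700_90_20_0 rfl
      (I.qt O.GD (fun _ => O.HD) o4b2e_Qp2800_160_50_0 o4b2e_Qm2800_160_50_0 rfl
      (I.qt O.GD (fun _ => O.HD) o4b2e_Qp3000_0_0_0 o4b2e_Qm3000_0_0_0 rfl QT.nil A16 B36) A16 B36) A16 B36) A16 B36) A16 B36)
    (by decide) (by decide) O.hys O.hxs hx'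

theorem pr4b3 {xs ys T ρ xs' T' : ℝ} (O : OneB xs ys T ρ) (I : o4b3.In T ρ xs ys)
    (H : HD xs' ys T' ρ (12 / 100) (30 / 100)) (l : LH xs' ys T' ρ (12 / 100) (30 / 100))
    (d : DnG xs' T' (12 / 100) (30 / 100) ys ρ) (I' : p4b3.In T' ρ xs' ys)
    (hx' : xs' ∈ Icc (12 / 100) (30 / 100)) :
    Pr ys ρ xs T (16 / 100) (36 / 100) (fun m => 38 / 100 * m) (fun _ => 0) xs' T' (12 / 100) (30 / 100)
      (fun _ => 0) (fun _ => 0) :=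
  Pr.of (tab := [⟨2500, 2600, 0, 0, 80, 150, 100⟩, ⟨2600, 2700, 0, 0, 0, 0, 0⟩, ⟨2700, 2800, 0, 0, 0, 0, 0⟩, ⟨2800, 2900, 0, 0, 0, 0, 0⟩, ⟨2900, 3000, 0, 0, 0, 0, 0⟩, ⟨3000, 5000, 0, 0, 0, 0, 0⟩])
    (tab' := [⟨2500, 2600, 115, 25, 0, 0, 0⟩, ⟨2600, 2700, 130, 40, 0, 0, 0⟩, ⟨2700, 2800, 130, 50, 0, 0, 0⟩, ⟨2800, 2900, 130, 50, 0, 0, 0⟩, ⟨2900, 3000, 160, 65, 0, 0, 0⟩, ⟨3000, 5000, 0, 0, 0, 0, 0⟩])
    (O.LF I o4b3_Wa o4b3_Wb hf38) (l.toF hz0 hz0 (by norm_num) (by norm_num))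
    (I.dt O.GD (fun _ => O.HD) o4b3_Dp2500_0_0_80 o4b3_Dm2500_0_0_0 rfl hf38 hf0
      (I.dt O.GD (fun _ => O.HD) o4b3_Dp2600_0_0_0 o4b3_Dm2600_0_0_0 rfl hf38 hf0
      (I.dt O.GD (fun _ => O.HD) o4b3_Dp2700_0_0_0 o4b3_Dm2700_0_0_0 rfl hf38 hf0
      (I.dt O.GD (fun _ => O.HD) o4b3_Dp2800_0_0_0 o4b3_Dm2800_0_0_0 rfl hf38 hf0
      (I.dt O.GD (fun _ => O.HD) o4b3_Dp2900_0_0_0 o4b3_Dm2900_0_0_0 rfl hf38 hf0
      (I.dt0 O.GD (fun _ => O.HD) o4b3_Qp3000_0_0_0 o4b3_Qm3000_0_0_0 rfl DT.nil A16 B36) A16 B36) A16 B36) A16 B36) A16 B36) A16 B36)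
    (d.qe I' H.toGD p4b3_Ep2500_0_0_80 p4b3_Em2500_0_0_80 rfl
      (d.qt (d.qt (d.qt (d.qt (d.qt QT.nil))))) A120 B30)
    (I'.dt H.toGD (fun _ => H) p4b3_Dp2500_115_25_0 p4b3_Dm2500_115_25_0 rfl hf0 hf0
      (I'.dt H.toGD (fun _ => H) p4b3_Dp2600_130_40_0 p4b3_Dm2600_130_40_0 rfl hf0 hf0
      (I'.dt H.toGD (fun _ => H) p4b3_Dp2700_130_50_0 p4b3_Dm2700_130_50_0 rfl hf0 hf0
      (I'.dt H.toGD (fun _ => H) p4b3_Dp2800_130_50_0 p4b3_Dm2800_130_50_0 rfl hf0 hf0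
      (I'.dt H.toGD (fun _ => H) p4b3_Dp2900_160_65_0 p4b3_Dm2900_160_65_0 rfl hf0 hf0
      (d.dt H.toGD DT.nil) A120 B30) A120 B30) A120 B30) A120 B30) A120 B30)
    (I.qt O.GD (fun _ => O.HD) o4b3_Qp2500_115_25_0 o4b3_Qm2500_115_25_0 rfl
      (I.qt O.GD (fun _ => O.HD) o4b3_Qp2600_130_40_0 o4b3_Qm2600_130_40_0 rfl
      (I.qt O.GD (fun _ => O.HD) o4b3_Qp2700_130_50_0 o4b3_Qm2700_130_50_0 rfl
      (I.qt O.GD (fun _ => O.HD) o4b3_Qp2800_130_50_0 o4b3_Qm2800_130_50_0 rfl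
      (I.qt O.GD (fun _ => O.HD) o4b3_Qp2900_160_65_0 o4b3_Qm2900_160_65_0 rfl
      (I.qt O.GD (fun _ => O.HD) o4b3_Qp3000_0_0_0 o4b3_Qm3000_0_0_0 rfl QT.nil A16 B36) A16 B36) A16 B36) A16 B36) A16 B36) A16 B36)
    (by decide) (by decide) O.hys O.hxs hx'

theorem pr4b3e {xs ys T ρ xs' T' : ℝ} (O : OneB xs ys T ρ) (I : o4b3e.In T ρ xs ys)
    (H : HD xs' ys T' ρ (10 / 100) (26 / 100)) (l : LH xs' ys T' ρ (10 / 100) (26 / 100))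
    (d : DnG xs' T' (10 / 100) (26 / 100) ys ρ) (I' : p4b3e.In T' ρ xs' ys)
    (hx' : xs' ∈ Icc (10 / 100) (26 / 100)) :
    Pr ys ρ xs T (16 / 100) (36 / 100) (fun m => 38 / 100 * m) (fun _ => 0) xs' T' (10 / 100) (26 / 100)
      (fun _ => 0) (fun _ => 0) :=
  Pr.of (tab := [⟨2500, 2600, 0, 0, 80, 150, 100⟩, ⟨2600, 2700, 0, 0, 0, 0, 0⟩, ⟨2700, 2800, 0, 0, 0, 0, 0⟩, ⟨2800, 2900, 0, 0, 0, 0, 0⟩, ⟨2900, 3000, 0, 0, 0, 0, 0⟩, ⟨3000, 5000, 0, 0, 0, 0, 0⟩])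
    (tab' := [⟨2500, 2600, 115, 25, 0, 0, 0⟩, ⟨2600, 2700, 130, 40, 0, 0, 0⟩, ⟨2700, 2800, 160, 50, 0, 0, 0⟩, ⟨2800, 2900, 160, 50, 0, 0, 0⟩, ⟨2900, 3000, 160, 65, 0, 0, 0⟩, ⟨3000, 5000, 0, 0, 0, 0, 0⟩])
    (O.LF I o4b3e_Wa o4b3e_Wb hf38) (l.toF hz0 hz0 (by norm_num) (by norm_num))
    (I.dt O.GD (fun _ => O.HD) o4b3e_Dp2500_0_0_80 o4b3e_Dm2500_0_0_0 rfl hf38 hf0
      (I.dt O.GD (fun _ => O.HD) o4b3e_Dp2600_0_0_0 o4b3e_Dm2600_0_0_0 rfl hf38 hf0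
      (I.dt O.GD (fun _ => O.HD) o4b3e_Dp2700_0_0_0 o4b3e_Dm2700_0_0_0 rfl hf38 hf0
      (I.dt O.GD (fun _ => O.HD) o4b3e_Dp2800_0_0_0 o4b3e_Dm2800_0_0_0 rfl hf38 hf0
      (I.dt O.GD (fun _ => O.HD) o4b3e_Dp2900_0_0_0 o4b3e_Dm2900_0_0_0 rfl hf38 hf0
      (I.dt0 O.GD (fun _ => O.HD) o4b3e_Qp3000_0_0_0 o4b3e_Qm3000_0_0_0 rfl DT.nil A16 B36) A16 B36) A16 B36) A16 B36) A16 B36) A16 B36)
    (d.qe I' H.toGD p4b3e_Ep2500_0_0_80 p4b3e_Em2500_0_0_80 rfl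
      (d.qt (d.qt (d.qt (d.qt (d.qt QT.nil))))) A10 B26)
    (I'.dt H.toGD (fun _ => H) p4b3e_Dp2500_115_25_0 p4b3e_Dm2500_115_25_0 rfl hf0 hf0
      (I'.dt H.toGD (fun _ => H) p4b3e_Dp2600_130_40_0 p4b3e_Dm2600_130_40_0 rfl hf0 hf0
      (I'.dt H.toGD (fun _ => H) p4b3e_Dp2700_160_50_0 p4b3e_Dm2700_160_50_0 rfl hf0 hf0
      (I'.dt H.toGD (fun _ => H) p4b3e_Dp2800_160_50_0 p4b3e_Dm2800_160_50_0 rfl hf0 hf0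
      (I'.dt H.toGD (fun _ => H) p4b3e_Dp2900_160_65_0 p4b3e_Dm2900_160_65_0 rfl hf0 hf0
      (d.dt H.toGD DT.nil) A10 B26) A10 B26) A10 B26) A10 B26) A10 B26)
    (I.qt O.GD (fun _ => O.HD) o4b3e_Qp2500_115_25_0 o4b3e_Qm2500_115_25_0 rfl
      (I.qt O.GD (fun _ => O.HD) o4b3e_Qp2600_130_40_0 o4b3e_Qm2600_130_40_0 rfl
      (I.qt O.GD (fun _ => O.HD) o4b3e_Qp2700_160_50_0 o4b3e_Qm2700_160_50_0 rfl
      (I.qt O.GD (fun _ => O.HD) o4b3e_Qp2800_160_50_0 o4b3e_Qm2800_160_50_0 rfl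
      (I.qt O.GD (fun _ => O.HD) o4b3e_Qp2900_160_65_0 o4b3e_Qm2900_160_65_0 rfl
      (I.qt O.GD (fun _ => O.HD) o4b3e_Qp3000_0_0_0 o4b3e_Qm3000_0_0_0 rfl QT.nil A16 B36) A16 B36) A16 B36) A16 B36) A16 B36) A16 B36)
    (by decide) (by decide) O.hys O.hxs hx'

theorem pr4bZ {xs ys T ρ xs' T' : ℝ} (O : OneB xs ys T ρ) (I : o4bZ.In T ρ xs ys)
    (H : HD xs' ys T' ρ (10 / 100) (27 / 100)) (l : LH xs' ys T' ρ (10 / 100) (27 / 100))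
    (d : DnG xs' T' (10 / 100) (27 / 100) ys ρ) (I' : p4bZ.In T' ρ xs' ys)
    (hx' : xs' ∈ Icc (10 / 100) (27 / 100)) :
    Pr ys ρ xs T (16 / 100) (36 / 100) (fun m => 38 / 100 * m) (fun _ => 0) xs' T' (10 / 100) (27 / 100)
      (fun _ => 0) (fun _ => 0) :=
  Pr.of (tab := [⟨2500, 2600, 0, 0, 80, 150, 100⟩, ⟨2600, 2700, 0, 0, 50, 150, 100⟩, ⟨2700, 2800, 0, 0, 0, 0, 0⟩, ⟨2800, 2900, 0, 0, 0, 0, 0⟩, ⟨2900, 3000, 0, 0, 0, 0, 0⟩, ⟨3000, 3200, 0, 0, 0, 0, 0⟩, ⟨3200, 5000, 0, 0, 0, 0, 0⟩])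
    (tab' := [⟨2500, 2600, 90, 0, 0, 0, 0⟩, ⟨2600, 2700, 115, 30, 0, 0, 0⟩, ⟨2700, 2800, 90, 30, 0, 0, 0⟩, ⟨2800, 2900, 90, 40, 0, 0, 0⟩, ⟨2900, 3000, 100, 50, 0, 0, 0⟩, ⟨3000, 3200, 160, 65, 0, 0, 0⟩, ⟨3200, 5000, 0, 0, 0, 0, 0⟩])
    (O.LF I o4bZ_Wa o4bZ_Wb hf38) (l.toF hz0 hz0 (by norm_num) (by norm_num))
    (I.dt O.GD (fun _ => O.HD) o4bZ_Dp2500_0_0_80 o4bZ_Dm2500_0_0_0 rfl hf38 hf0
      (I.dt O.GD (fun _ => O.HD) o4bZ_Dp2600_0_0_50 o4bZ_Dm2600_0_0_0 rfl hf38 hf0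
      (I.dt O.GD (fun _ => O.HD) o4bZ_Dp2700_0_0_0 o4bZ_Dm2700_0_0_0 rfl hf38 hf0
      (I.dt O.GD (fun _ => O.HD) o4bZ_Dp2800_0_0_0 o4bZ_Dm2800_0_0_0 rfl hf38 hf0
      (I.dt O.GD (fun _ => O.HD) o4bZ_Dp2900_0_0_0 o4bZ_Dm2900_0_0_0 rfl hf38 hf0
      (I.dt O.GD (fun _ => O.HD) o4bZ_Dp3000_0_0_0 o4bZ_Dm3000_0_0_0 rfl hf38 hf0
      (I.dt0 O.GD (fun _ => O.HD) o4bZ_Qp3200_0_0_0 o4bZ_Qm3200_0_0_0 rfl DT.nil A16 B36) A16 B36) A16 B36) A16 B36) A16 B36) A16 B36) A16 B36)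
    (d.qe I' H.toGD p4bZ_Ep2500_0_0_80 p4bZ_Em2500_0_0_80 rfl
      (d.qe I' H.toGD p4bZ_Ep2600_0_0_50 p4bZ_Em2600_0_0_50 rfl
      (d.qt (d.qt (d.qt (d.qt (d.qt QT.nil))))) A10 B27) A10 B27)
    (I'.dt H.toGD (fun _ => H) p4bZ_Dp2500_90_0_0 p4bZ_Dm2500_90_0_0 rfl hf0 hf0
      (I'.dt H.toGD (fun _ => H) p4bZ_Dp2600_115_30_0 p4bZ_Dm2600_115_30_0 rfl hf0 hf0
      (I'.dt H.toGD (fun _ => H) p4bZ_Dp2700_90_30_0 p4bZ_Dm2700_90_30_0 rfl hf0 hf0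
      (I'.dt H.toGD (fun _ => H) p4bZ_Dp2800_90_40_0 p4bZ_Dm2800_90_40_0 rfl hf0 hf0
      (I'.dt H.toGD (fun _ => H) p4bZ_Dp2900_100_50_0 p4bZ_Dm2900_100_50_0 rfl hf0 hf0
      (I'.dt H.toGD (fun _ => H) p4bZ_Dp3000_160_65_0 p4bZ_Dm3000_160_65_0 rfl hf0 hf0
      (d.dt H.toGD DT.nil) A10 B27) A10 B27) A10 B27) A10 B27) A10 B27) A10 B27)
    (I.qt O.GD (fun _ => O.HD) o4bZ_Qp2500_90_0_0 o4bZ_Qm2500_90_0_0 rfl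
      (I.qt O.GD (fun _ => O.HD) o4bZ_Qp2600_115_30_0 o4bZ_Qm2600_115_30_0 rfl
      (I.qt O.GD (fun _ => O.HD) o4bZ_Qp2700_90_30_0 o4bZ_Qm2700_90_30_0 rfl
      (I.qt O.GD (fun _ => O.HD) o4bZ_Qp2800_90_40_0 o4bZ_Qm2800_90_40_0 rfl
      (I.qt O.GD (fun _ => O.HD) o4bZ_Qp2900_100_50_0 o4bZ_Qm2900_100_50_0 rfl
      (I.qt O.GD (fun _ => O.HD) o4bZ_Qp3000_160_65_0 o4bZ_Qm3000_160_65_0 rfl
      (I.qt O.GD (fun _ => O.HD) o4bZ_Qp3200_0_0_0 o4bZ_Qm3200_0_0_0 rfl QT.nil A16 B36) A16 B36) A16 B36) A16 B36) A16 B36) A16 B36) A16 B36)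
    (by decide) (by decide) O.hys O.hxs hx'

theorem pr4bZs {xs ys T ρ xs' T' : ℝ} (O : OneB xs ys T ρ) (I : o4bZs.In T ρ xs ys)
    (H : HD xs' ys T' ρ (10 / 100) (27 / 100)) (l : LH xs' ys T' ρ (10 / 100) (27 / 100))
    (d : DnG xs' T' (10 / 100) (27 / 100) ys ρ) (I' : p4bZs.In T' ρ xs' ys)
    (hx' : xs' ∈ Icc (10 / 100) (27 / 100)) :
    Pr ys ρ xs T (16 / 100) (36 / 100) (fun m => 38 / 100 * m) (fun _ => 0) xs' T' (10 / 100) (27 / 100)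
      (fun _ => 0) (fun _ => 0) :=
  Pr.of (tab := [⟨2500, 2600, 0, 0, 80, 150, 100⟩, ⟨2600, 2700, 0, 0, 50, 150, 100⟩, ⟨2700, 2800, 0, 0, 0, 0, 0⟩, ⟨2800, 2900, 0, 0, 0, 0, 0⟩, ⟨2900, 3000, 0, 0, 0, 0, 0⟩, ⟨3000, 5000, 0, 0, 0, 0, 0⟩])
    (tab' := [⟨2500, 2600, 100, 0, 0, 0, 0⟩, ⟨2600, 2700, 100, 20, 0, 0, 0⟩, ⟨2700, 2800, 100, 30, 0, 0, 0⟩, ⟨2800, 2900, 90, 30, 0, 0, 0⟩, ⟨2900, 3000, 90, 40, 0, 0, 0⟩, ⟨3000, 5000, 0, 0, 0, 0, 0⟩])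
    (O.LF I o4bZs_Wa o4bZs_Wb hf38) (l.toF hz0 hz0 (by norm_num) (by norm_num))
    (I.dt O.GD (fun _ => O.HD) o4bZs_Dp2500_0_0_80 o4bZs_Dm2500_0_0_0 rfl hf38 hf0
      (I.dt O.GD (fun _ => O.HD) o4bZs_Dp2600_0_0_50 o4bZs_Dm2600_0_0_0 rfl hf38 hf0
      (I.dt O.GD (fun _ => O.HD) o4bZs_Dp2700_0_0_0 o4bZs_Dm2700_0_0_0 rfl hf38 hf0
      (I.dt O.GD (fun _ => O.HD) o4bZs_Dp2800_0_0_0 o4bZs_Dm2800_0_0_0 rfl hf38 hf0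
      (I.dt O.GD (fun _ => O.HD) o4bZs_Dp2900_0_0_0 o4bZs_Dm2900_0_0_0 rfl hf38 hf0
      (I.dt0 O.GD (fun _ => O.HD) o4bZs_Qp3000_0_0_0 o4bZs_Qm3000_0_0_0 rfl DT.nil A16 B36) A16 B36) A16 B36) A16 B36) A16 B36) A16 B36)
    (d.qe I' H.toGD p4bZs_Ep2500_0_0_80 p4bZs_Em2500_0_0_80 rfl
      (d.qe I' H.toGD p4bZs_Ep2600_0_0_50 p4bZs_Em2600_0_0_50 rfl
      (d.qt (d.qt (d.qt (d.qt QT.nil)))) A10 B27) A10 B27)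
    (I'.dt H.toGD (fun _ => H) p4bZs_Dp2500_100_0_0 p4bZs_Dm2500_100_0_0 rfl hf0 hf0
      (I'.dt H.toGD (fun _ => H) p4bZs_Dp2600_100_20_0 p4bZs_Dm2600_100_20_0 rfl hf0 hf0
      (I'.dt H.toGD (fun _ => H) p4bZs_Dp2700_100_30_0 p4bZs_Dm2700_100_30_0 rfl hf0 hf0
      (I'.dt H.toGD (fun _ => H) p4bZs_Dp2800_90_30_0 p4bZs_Dm2800_90_30_0 rfl hf0 hf0
      (I'.dt H.toGD (fun _ => H) p4bZs_Dp2900_90_40_0 p4bZs_Dm2900_90_40_0 rfl hf0 hf0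
      (d.dt H.toGD DT.nil) A10 B27) A10 B27) A10 B27) A10 B27) A10 B27)
    (I.qt O.GD (fun _ => O.HD) o4bZs_Qp2500_100_0_0 o4bZs_Qm2500_100_0_0 rfl
      (I.qt O.GD (fun _ => O.HD) o4bZs_Qp2600_100_20_0 o4bZs_Qm2600_100_20_0 rfl
      (I.qt O.GD (fun _ => O.HD) o4bZs_Qp2700_100_30_0 o4bZs_Qm2700_100_30_0 rfl
      (I.qt O.GD (fun _ => O.HD) o4bZs_Qp2800_90_30_0 o4bZs_Qm2800_90_30_0 rfl
      (I.qt O.GD (fun _ => O.HD) o4bZs_Qp2900_90_40_0 o4bZs_Qm2900_90_40_0 rfl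
      (I.qt O.GD (fun _ => O.HD) o4bZs_Qp3000_0_0_0 o4bZs_Qm3000_0_0_0 rfl QT.nil A16 B36) A16 B36) A16 B36) A16 B36) A16 B36) A16 B36)
    (by decide) (by decide) O.hys O.hxs hx'

end RC

end Pool.Agent.Work.MP_b30479_gtS.G2

end

section

/-!
# Rings on the level part: the pairs of hinges by class
-/

namespace Pool.Agent.Work.MP_b30479_gtS.G2

open Finset VOL Filter Topology

namespace SR

/-- **A ring between a digit `1` and a class `k`, the pair of hinges.** -/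
theorem pm4b {xs ys T ρ xs' T' : ℝ} {k : Cl} {s : Bool}
    (hk : k ≠ .one)
    (q : (rq4 .two k s).Re xs ys T ρ)
    (r : (rp4 .two k s).Re xs' ys T' ρ)
    (B : Bd4 k s xs ys T ρ)
    (D : k ≠ .twoE → Lo k xs' ys T' ρ)
    (hx : xs' ∈ Set.Icc (fcl k) (fcp k)) :
    PrS 4 .two k xs ys T ρ xs' T' := by
  cases k
  · exact absurd rfl hk
  · have q0 : (mk4 2625 2963 1611 1823 1294 1590 472 673 (-1047) (-721) 4688 4216).Re xs ys T ρ := q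
    have r0 : (mk4 2023 2504 1611 1823 812 1213 472 673 (-661) (-211) 4205 3733).Re xs' ys T' ρ := r
    have O := q0.oneB RC.Row.cH4b (by decide)
    have I : RC.o4b2.In T ρ xs ys := wdk_in q0 (by decide) (k := 1520) (by
      have := B.kp
      simp only [ka4] at this
      push_cast at this ⊢
      linarith only [this])
    have J : RC.p4b2.In T' ρ xs' ys := wd4_in r0 (by decide)
    obtain ⟨H, l, d⟩ := D (by decide)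
    exact ⟨_, _, Or.inr ⟨rfl, q0.xlo (by decide), Or.inl ⟨rfl, q0.tlo4 (by decide), rfl⟩⟩, Or.inl rfl, RC.pr4b2 O I H l d J hx⟩
  · have q0 : (mk4 2582 2896 1679 1834 1215 1476 387 537 (-1030) (-739) 4634 4247).Re xs ys T ρ := q
    have r0 : (mk4 1707 1835 1679 1834 1423 1568 387 537 (-1102) (-971) 3609 3222).Re xs' ys T' ρ := r
    have O := q0.oneB RC.Row.cH4b (by decide)
    have I : RC.o4b2e.In T ρ xs ys := wdk_in q0 (by decide) (k := 1540) (by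
      have := B.kp
      simp only [ka4] at this
      push_cast at this ⊢
      linarith only [this])
    have J : RC.p4b2e.In T' ρ xs' ys := wd4_in r0 (by decide)
    have G := r0.gd (by decide)
    have U := r0.up G RC.Row.cU4 (by decide)
    exact ⟨_, _, Or.inr ⟨rfl, q0.xlo (by decide), Or.inl ⟨rfl, q0.tlo4 (by decide), rfl⟩⟩, Or.inr ⟨rfl, rfl, rfl⟩,
      RC.pr4b2e O I G U J hx⟩
  · have q0 : (mk4 2643 2965 1666 1852 1322 1599 518 688 (-1015) (-706) 4716 4198).Re xs ys T ρ := q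
    have r0 : (mk4 2011 2282 1666 1852 670 944 518 688 (-344) (-70) 4038 3520).Re xs' ys T' ρ := r
    have O := q0.oneB RC.Row.cH4b (by decide)
    have I : RC.o4b3.In T ρ xs ys := wdk_in q0 (by decide) (k := 1520) (by
      have := B.kp
      simp only [ka4] at this
      push_cast at this ⊢
      linarith only [this])
    have J : RC.p4b3.In T' ρ xs' ys := wd4_in r0 (by decide)
    obtain ⟨H, l, d⟩ := D (by decide)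
    exact ⟨_, _, Or.inr ⟨rfl, q0.xlo (by decide), Or.inl ⟨rfl, q0.tlo4 (by decide), rfl⟩⟩, Or.inl rfl, RC.pr4b3 O I H l d J hx⟩
  · have q0 : (mk4 2620 2936 1715 1872 1278 1537 481 635 (-996) (-704) 4711 4230).Re xs ys T ρ := q
    have r0 : (mk4 1803 1930 1715 1872 818 964 481 635 (-400) (-270) 3740 3259).Re xs' ys T' ρ := r
    have O := q0.oneB RC.Row.cH4b (by decide)
    have I : RC.o4b3e.In T ρ xs ys := wdk_in q0 (by decide) (k := 1530) (by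
      have := B.kp
      simp only [ka4] at this
      push_cast at this ⊢
      linarith only [this])
    have J : RC.p4b3e.In T' ρ xs' ys := wd4_in r0 (by decide)
    obtain ⟨H, l, d⟩ := D (by decide)
    exact ⟨_, _, Or.inr ⟨rfl, q0.xlo (by decide), Or.inl ⟨rfl, q0.tlo4 (by decide), rfl⟩⟩, Or.inl rfl, RC.pr4b3e O I H l d J hx⟩
  · cases s
    · have q0 : (mk4 2645 3007 1692 1880 1321 1665 536 777 (-999) (-685) 4771 4235).Re xs ys T ρ := q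
      have r0 : (mk4 1928 2343 1692 1880 416 805 536 777 (-184) 277 4133 3597).Re xs' ys T' ρ := r
      have q1 : (mk4 2645 2980 1692 1880 1321 1665 536 777 (-999) (-685) 4771 4235).Re xs ys T ρ :=
        ⟨q0.x0, B.x, q0.s0, q0.s1, q0.q0, q0.q1, q0.r0, q0.r1, q0.t0, q0.t1, q0.c1, q0.cr⟩
      have O := q1.oneB RC.Row.cH4b (by decide)
      have I : RC.o4bZ.In T ρ xs ys := wdk_in q0 (by decide) (k := 1515) (by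
        have := B.kp
        simp only [ka4] at this
        push_cast at this ⊢
        linarith only [this])
      have J : RC.p4bZ.In T' ρ xs' ys := wd4_in r0 (by decide)
      obtain ⟨H, l, d⟩ := D (by decide)
      exact ⟨_, _, Or.inr ⟨rfl, q0.xlo (by decide), Or.inl ⟨rfl, q0.tlo4 (by decide), rfl⟩⟩, Or.inl rfl, RC.pr4bZ O I H l d J hx⟩
    · have q0 : (mk4 2658 3012 1702 1951 1327 1665 584 782 (-983) (-642) 4844 4260).Re xs ys T ρ := q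
      have r0 : (mk4 1815 2343 1702 1951 185 558 584 782 142 510 4133 3549).Re xs' ys T' ρ := r
      have q1 : (mk4 2658 2980 1702 1951 1327 1665 584 782 (-983) (-642) 4826 4260).Re xs ys T ρ :=
        ⟨q0.x0, B.x, q0.s0, q0.s1, q0.q0, q0.q1, q0.r0, q0.r1, q0.t0, q0.t1, B.c, q0.cr⟩
      have q2 : (mk4 2658 2980 1702 1951 1327 1665 584 750 (-983) (-642) 4826 4260).Re xs ys T ρ :=
        ⟨q0.x0, B.x, q0.s0, q0.s1, q0.q0, q0.q1, q0.r0, B.r rfl rfl, q0.t0, q0.t1, B.c, q0.cr⟩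
      have O := q1.oneB RC.Row.cH4b (by decide)
      have I : RC.o4bZs.In T ρ xs ys := wdk_in q2 (by decide) (k := 1520) (by
        have := B.kp
        simp only [ka4] at this
        push_cast at this ⊢
        linarith only [this])
      have J : RC.p4bZs.In T' ρ xs' ys := wd4_in r0 (by decide)
      obtain ⟨H, l, d⟩ := D (by decide)
      exact ⟨_, _, Or.inr ⟨rfl, q0.xlo (by decide), Or.inl ⟨rfl, q0.tlo4 (by decide), rfl⟩⟩, Or.inl rfl, RC.pr4bZs O I H l d J hx⟩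

end SR

end Pool.Agent.Work.MP_b30479_gtS.G2

end
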