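import Pool.Agent.Work.MP_b30479_gt.TBS.G2.RGm17
import Pool.Agent.Work.MP_b30479_gt.TBS.G2.RKind
import Pool.Agent.Work.MP_b30479_gt.TBS.G2.RLvl6
import Pool.Agent.Work.MP_b30479_gt.TBS.G2.WLocF

section

/-!
# Rings on the level part: pairs of hinges
-/

namespace Pool.Agent.Work.MP_b30479_gtS.G2

open Real Set

namespace RC

open R6

theorem pr4c2 {xs ys T ρ xs' T' : ℝ} (O : OneB xs ys T ρ) (I : o4c2.In T ρ xs ys)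
    (H : HD xs' ys T' ρ (125 / 1000) (30 / 100)) (l : LH xs' ys T' ρ (125 / 1000) (30 / 100))
    (d : DnG xs' T' (125 / 1000) (30 / 100) ys ρ) (I' : p4c2.In T' ρ xs' ys)
    (hx' : xs' ∈ Icc (125 / 1000) (30 / 100)) :
    Pr ys ρ xs T (16 / 100) (36 / 100) (fun _ => 0) (fun _ => 0) xs' T' (125 / 1000) (30 / 100)
      (fun _ => 0) (fun _ => 0) :=
  Pr.of (tab := [⟨2500, 2600, 0, 0, 0, 0, 0⟩, ⟨2600, 2700, 0, 0, 0, 0, 0⟩, ⟨2700, 5000, 0, 0, 0, 0, 0⟩])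
    (tab' := [⟨2500, 2600, 100, 150, 0, 0, 0⟩, ⟨2600, 2700, 160, 180, 0, 0, 0⟩, ⟨2700, 5000, 0, 0, 0, 0, 0⟩])
    (O.LF I o4c2_Wa o4c2_Wb hf0) (l.toF hz0 hz0 (by norm_num) (by norm_num))
    (I.dt O.GD (fun _ => O.HD) o4c2_Dp2500_0_0_0 o4c2_Dm2500_0_0_0 rfl hf0 hf0
      (I.dt O.GD (fun _ => O.HD) o4c2_Dp2600_0_0_0 o4c2_Dm2600_0_0_0 rfl hf0 hf0
      (I.dt0 O.GD (fun _ => O.HD) o4c2_Qp2700_0_0_0 o4c2_Qm2700_0_0_0 rfl DT.nil A16 B36) A16 B36) A16 B36)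
    (d.qt (d.qt (d.qt QT.nil)))
    (I'.dt H.toGD (fun _ => H) p4c2_Dp2500_100_150_0 p4c2_Dm2500_100_150_0 rfl hf0 hf0
      (I'.dt H.toGD (fun _ => H) p4c2_Dp2600_160_180_0 p4c2_Dm2600_160_180_0 rfl hf0 hf0
      (d.dt H.toGD DT.nil) A12 B30) A12 B30)
    (I.qt O.GD (fun _ => O.HD) o4c2_Qp2500_100_150_0 o4c2_Qm2500_100_150_0 rfl
      (I.qt O.GD (fun _ => O.HD) o4c2_Qp2600_160_180_0 o4c2_Qm2600_160_180_0 rfl
      (I.qt O.GD (fun _ => O.HD) o4c2_Qp2700_0_0_0 o4c2_Qm2700_0_0_0 rfl QT.nil A16 B36) A16 B36) A16 B36)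
    (by decide) (by decide) O.hys O.hxs hx'

theorem pr4c2e {xs ys T ρ xs' T' : ℝ} (O : OneB xs ys T ρ) (I : o4c2e.In T ρ xs ys)
    (G : GD xs' ys (125 / 1000) (30 / 100))
    (hU : ∀ x y, x ∈ Icc (125 / 1000 : ℝ) (30 / 100) → ys < y → y ≤ 1 / 2 →
      |gh x - gh xs'| < gh y - gh ys → Dx x y T' ρ < Dx xs' ys T' ρ)
    (I' : p4c2e.In T' ρ xs' ys) (hx' : xs' ∈ Icc (125 / 1000) (30 / 100)) :
    Pr ys ρ xs T (16 / 100) (36 / 100) (fun _ => 0) (fun _ => 0) xs' T' (125 / 1000) (30 / 100)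
      (fun _ => 0) (fun m => 1 / 2 * m) :=
  Pr.of (tab := [⟨2500, 2600, 30, 20, 0, 0, 0⟩, ⟨2600, 2700, 30, 20, 0, 0, 0⟩, ⟨2700, 2800, 30, 20, 0, 0, 0⟩, ⟨2800, 3000, 30, 0, 0, 0, 0⟩, ⟨3000, 5000, 30, 20, 0, 0, 0⟩])
    (tab' := [⟨2500, 2600, 90, 120, 0, 0, 0⟩, ⟨2600, 5000, 0, 0, 0, 0, 0⟩])
    (O.LF I o4c2e_Wa o4c2e_Wb hf0) (I'.LF0 G hU p4c2e_Wp p4c2e_Wm hf0 hf50 A12 B30)
    (I.dt O.GD (fun _ => O.HD) o4c2e_Dp2500_30_20_0 o4c2e_Dm2500_30_20_0 rfl hf0 hf0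
      (I.dt O.GD (fun _ => O.HD) o4c2e_Dp2600_30_20_0 o4c2e_Dm2600_30_20_0 rfl hf0 hf0
      (I.dt O.GD (fun _ => O.HD) o4c2e_Dp2700_30_20_0 o4c2e_Dm2700_30_20_0 rfl hf0 hf0
      (I.dt O.GD (fun _ => O.HD) o4c2e_Dp2800_30_0_0 o4c2e_Dm2800_30_0_0 rfl hf0 hf0
      (I.dt O.GD (fun _ => O.HD) o4c2e_Dp3000_30_20_0 o4c2e_Dm3000_30_20_0 rfl hf0 hf0
      DT.nil A16 B36) A16 B36) A16 B36) A16 B36) A16 B36)
    (I'.qt G (fun h => absurd rfl h) p4c2e_Qp2500_30_20_0 p4c2e_Qm2500_30_20_0 rfl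
      (I'.qt G (fun h => absurd rfl h) p4c2e_Qp2600_30_20_0 p4c2e_Qm2600_30_20_0 rfl
      (I'.qt G (fun h => absurd rfl h) p4c2e_Qp2700_30_20_0 p4c2e_Qm2700_30_20_0 rfl
      (I'.qt G (fun h => absurd rfl h) p4c2e_Qp2800_30_0_0 p4c2e_Qm2800_30_0_0 rfl
      (I'.qt G (fun h => absurd rfl h) p4c2e_Qp3000_30_20_0 p4c2e_Qm3000_30_20_0 rfl
      QT.nil A12 B30) A12 B30) A12 B30) A12 B30) A12 B30)
    (I'.dt G (fun h => absurd rfl h) p4c2e_Dp2500_90_120_0 p4c2e_Dm2500_90_120_0 rfl hf0 hf50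
      (I'.dt G (fun h => absurd rfl h) p4c2e_Dp2600_0_0_0 p4c2e_Dm2600_0_0_0 rfl hf0 hf50 DT.nil A12 B30) A12 B30)
    (I.qt O.GD (fun _ => O.HD) o4c2e_Qp2500_90_120_0 o4c2e_Qm2500_90_120_0 rfl
      (I.qt O.GD (fun _ => O.HD) o4c2e_Qp2600_0_0_0 o4c2e_Qm2600_0_0_0 rfl QT.nil A16 B36) A16 B36)
    (by decide) (by decide) O.hys O.hxs hx'

theorem pr4c3 {xs ys T ρ xs' T' : ℝ} (O : OneB xs ys T ρ) (I : o4c3.In T ρ xs ys)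
    (H : HD xs' ys T' ρ (12 / 100) (30 / 100)) (l : LH xs' ys T' ρ (12 / 100) (30 / 100))
    (d : DnG xs' T' (12 / 100) (30 / 100) ys ρ) (I' : p4c3.In T' ρ xs' ys)
    (hx' : xs' ∈ Icc (12 / 100) (30 / 100)) :
    Pr ys ρ xs T (16 / 100) (36 / 100) (fun _ => 0) (fun _ => 0) xs' T' (12 / 100) (30 / 100)
      (fun _ => 0) (fun _ => 0) :=
  Pr.of (tab := [⟨2500, 2600, 0, 0, 0, 0, 0⟩, ⟨2600, 2700, 0, 0, 0, 0, 0⟩, ⟨2700, 5000, 0, 0, 0, 0, 0⟩])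
    (tab' := [⟨2500, 2600, 90, 120, 0, 0, 0⟩, ⟨2600, 2700, 90, 150, 0, 0, 0⟩, ⟨2700, 5000, 0, 0, 0, 0, 0⟩])
    (O.LF I o4c3_Wa o4c3_Wb hf0) (l.toF hz0 hz0 (by norm_num) (by norm_num))
    (I.dt O.GD (fun _ => O.HD) o4c3_Dp2500_0_0_0 o4c3_Dm2500_0_0_0 rfl hf0 hf0
      (I.dt O.GD (fun _ => O.HD) o4c3_Dp2600_0_0_0 o4c3_Dm2600_0_0_0 rfl hf0 hf0
      (I.dt0 O.GD (fun _ => O.HD) o4c3_Qp2700_0_0_0 o4c3_Qm2700_0_0_0 rfl DT.nil A16 B36) A16 B36) A16 B36)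
    (d.qt (d.qt (d.qt QT.nil)))
    (I'.dt H.toGD (fun _ => H) p4c3_Dp2500_90_120_0 p4c3_Dm2500_90_120_0 rfl hf0 hf0
      (I'.dt H.toGD (fun _ => H) p4c3_Dp2600_90_150_0 p4c3_Dm2600_90_150_0 rfl hf0 hf0
      (d.dt H.toGD DT.nil) A120 B30) A120 B30)
    (I.qt O.GD (fun _ => O.HD) o4c3_Qp2500_90_120_0 o4c3_Qm2500_90_120_0 rfl
      (I.qt O.GD (fun _ => O.HD) o4c3_Qp2600_90_150_0 o4c3_Qm2600_90_150_0 rfl
      (I.qt O.GD (fun _ => O.HD) o4c3_Qp2700_0_0_0 o4c3_Qm2700_0_0_0 rfl QT.nil A16 B36) A16 B36) A16 B36)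
    (by decide) (by decide) O.hys O.hxs hx'

theorem pr4c3e {xs ys T ρ xs' T' : ℝ} (O : OneB xs ys T ρ) (I : o4c3e.In T ρ xs ys)
    (H : HD xs' ys T' ρ (10 / 100) (26 / 100)) (l : LH xs' ys T' ρ (10 / 100) (26 / 100))
    (d : DnG xs' T' (10 / 100) (26 / 100) ys ρ) (I' : p4c3e.In T' ρ xs' ys)
    (hx' : xs' ∈ Icc (10 / 100) (26 / 100)) :
    Pr ys ρ xs T (16 / 100) (36 / 100) (fun _ => 0) (fun _ => 0) xs' T' (10 / 100) (26 / 100)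
      (fun _ => 0) (fun _ => 0) :=
  Pr.of (tab := [⟨2500, 2600, 0, 0, 0, 0, 0⟩, ⟨2600, 5000, 0, 0, 0, 0, 0⟩])
    (tab' := [⟨2500, 2600, 90, 120, 0, 0, 0⟩, ⟨2600, 5000, 0, 0, 0, 0, 0⟩])
    (O.LF I o4c3e_Wa o4c3e_Wb hf0) (l.toF hz0 hz0 (by norm_num) (by norm_num))
    (I.dt O.GD (fun _ => O.HD) o4c3e_Dp2500_0_0_0 o4c3e_Dm2500_0_0_0 rfl hf0 hf0
      (I.dt0 O.GD (fun _ => O.HD) o4c3e_Qp2600_0_0_0 o4c3e_Qm2600_0_0_0 rfl DT.nil A16 B36) A16 B36)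
    (d.qt (d.qt QT.nil))
    (I'.dt H.toGD (fun _ => H) p4c3e_Dp2500_90_120_0 p4c3e_Dm2500_90_120_0 rfl hf0 hf0
      (d.dt H.toGD DT.nil) A10 B26)
    (I.qt O.GD (fun _ => O.HD) o4c3e_Qp2500_90_120_0 o4c3e_Qm2500_90_120_0 rfl
      (I.qt O.GD (fun _ => O.HD) o4c3e_Qp2600_0_0_0 o4c3e_Qm2600_0_0_0 rfl QT.nil A16 B36) A16 B36)
    (by decide) (by decide) O.hys O.hxs hx'

theorem pr4cZ {xs ys T ρ xs' T' : ℝ} (O : OneB xs ys T ρ) (I : o4cZ.In T ρ xs ys)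
    (H : HD xs' ys T' ρ (10 / 100) (27 / 100)) (l : LH xs' ys T' ρ (10 / 100) (27 / 100))
    (d : DnG xs' T' (10 / 100) (27 / 100) ys ρ) (I' : p4cZ.In T' ρ xs' ys)
    (hx' : xs' ∈ Icc (10 / 100) (27 / 100)) :
    Pr ys ρ xs T (16 / 100) (36 / 100) (fun _ => 0) (fun _ => 0) xs' T' (10 / 100) (27 / 100)
      (fun _ => 0) (fun _ => 0) :=
  Pr.of (tab := [⟨2500, 2600, 0, 0, 0, 0, 0⟩, ⟨2600, 2700, 0, 0, 0, 0, 0⟩, ⟨2700, 5000, 0, 0, 0, 0, 0⟩])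
    (tab' := [⟨2500, 2600, 90, 120, 0, 0, 0⟩, ⟨2600, 2700, 90, 120, 0, 0, 0⟩, ⟨2700, 5000, 0, 0, 0, 0, 0⟩])
    (O.LF I o4cZ_Wa o4cZ_Wb hf0) (l.toF hz0 hz0 (by norm_num) (by norm_num))
    (I.dt O.GD (fun _ => O.HD) o4cZ_Dp2500_0_0_0 o4cZ_Dm2500_0_0_0 rfl hf0 hf0
      (I.dt O.GD (fun _ => O.HD) o4cZ_Dp2600_0_0_0 o4cZ_Dm2600_0_0_0 rfl hf0 hf0
      (I.dt0 O.GD (fun _ => O.HD) o4cZ_Qp2700_0_0_0 o4cZ_Qm2700_0_0_0 rfl DT.nil A16 B36) A16 B36) A16 B36)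
    (d.qt (d.qt (d.qt QT.nil)))
    (I'.dt H.toGD (fun _ => H) p4cZ_Dp2500_90_120_0 p4cZ_Dm2500_90_120_0 rfl hf0 hf0
      (I'.dt H.toGD (fun _ => H) p4cZ_Dp2600_90_120_0 p4cZ_Dm2600_90_120_0 rfl hf0 hf0
      (d.dt H.toGD DT.nil) A10 B27) A10 B27)
    (I.qt O.GD (fun _ => O.HD) o4cZ_Qp2500_90_120_0 o4cZ_Qm2500_90_120_0 rfl
      (I.qt O.GD (fun _ => O.HD) o4cZ_Qp2600_90_120_0 o4cZ_Qm2600_90_120_0 rfl
      (I.qt O.GD (fun _ => O.HD) o4cZ_Qp2700_0_0_0 o4cZ_Qm2700_0_0_0 rfl QT.nil A16 B36) A16 B36) A16 B36)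
    (by decide) (by decide) O.hys O.hxs hx'

theorem pr4cZs {xs ys T ρ xs' T' : ℝ} (O : OneB xs ys T ρ) (I : o4cZs.In T ρ xs ys)
    (H : HD xs' ys T' ρ (10 / 100) (27 / 100)) (l : LH xs' ys T' ρ (10 / 100) (27 / 100))
    (d : DnG xs' T' (10 / 100) (27 / 100) ys ρ) (I' : p4cZs.In T' ρ xs' ys)
    (hx' : xs' ∈ Icc (10 / 100) (27 / 100)) :
    Pr ys ρ xs T (16 / 100) (36 / 100) (fun _ => 0) (fun _ => 0) xs' T' (10 / 100) (27 / 100)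
      (fun _ => 0) (fun _ => 0) :=
  Pr.of (tab := [⟨2500, 2600, 0, 0, 0, 0, 0⟩, ⟨2600, 2700, 0, 0, 0, 0, 0⟩, ⟨2700, 5000, 0, 0, 0, 0, 0⟩])
    (tab' := [⟨2500, 2600, 90, 100, 0, 0, 0⟩, ⟨2600, 2700, 90, 120, 0, 0, 0⟩, ⟨2700, 5000, 0, 0, 0, 0, 0⟩])
    (O.LF I o4cZs_Wa o4cZs_Wb hf0) (l.toF hz0 hz0 (by norm_num) (by norm_num))
    (I.dt O.GD (fun _ => O.HD) o4cZs_Dp2500_0_0_0 o4cZs_Dm2500_0_0_0 rfl hf0 hf0
      (I.dt O.GD (fun _ => O.HD) o4cZs_Dp2600_0_0_0 o4cZs_Dm2600_0_0_0 rfl hf0 hf0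
      (I.dt0 O.GD (fun _ => O.HD) o4cZs_Qp2700_0_0_0 o4cZs_Qm2700_0_0_0 rfl DT.nil A16 B36) A16 B36) A16 B36)
    (d.qt (d.qt (d.qt QT.nil)))
    (I'.dt H.toGD (fun _ => H) p4cZs_Dp2500_90_100_0 p4cZs_Dm2500_90_100_0 rfl hf0 hf0
      (I'.dt H.toGD (fun _ => H) p4cZs_Dp2600_90_120_0 p4cZs_Dm2600_90_120_0 rfl hf0 hf0
      (d.dt H.toGD DT.nil) A10 B27) A10 B27)
    (I.qt O.GD (fun _ => O.HD) o4cZs_Qp2500_90_100_0 o4cZs_Qm2500_90_100_0 rfl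
      (I.qt O.GD (fun _ => O.HD) o4cZs_Qp2600_90_120_0 o4cZs_Qm2600_90_120_0 rfl
      (I.qt O.GD (fun _ => O.HD) o4cZs_Qp2700_0_0_0 o4cZs_Qm2700_0_0_0 rfl QT.nil A16 B36) A16 B36) A16 B36)
    (by decide) (by decide) O.hys O.hxs hx'

end RC

end Pool.Agent.Work.MP_b30479_gtS.G2

end

section

/-!
# Rings on the level part: the pairs of hinges by class
-/

namespace Pool.Agent.Work.MP_b30479_gtS.G2

open Finset VOL Filter Topology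

namespace SR

/-- **A ring between a digit `1` and a class `k`, the pair of hinges.** -/
theorem pm4c {xs ys T ρ xs' T' : ℝ} {k : Cl} {s : Bool}
    (hk : k ≠ .one)
    (q : (rq4 .twoE k s).Re xs ys T ρ)
    (r : (rp4 .twoE k s).Re xs' ys T' ρ)
    (D : k ≠ .twoE → Lo k xs' ys T' ρ)
    (hx : xs' ∈ Set.Icc (fcl k) (fcp k)) :
    PrS 4 .twoE k xs ys T ρ xs' T' := by
  cases k
  · exact absurd rfl hk
  · have q0 : (mk4 2479 2621 1667 1851 1606 1771 443 613 (-1246) (-1097) 4408 3965).Re xs ys T ρ := q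
    have r0 : (mk4 1999 2480 1667 1851 769 1157 443 613 (-651) (-216) 4207 3764).Re xs' ys T' ρ := r
    have O := q0.oneB RC.Row.cH4c (by decide)
    have I : RC.o4c2.In T ρ xs ys := wd4_in q0 (by decide)
    have J : RC.p4c2.In T' ρ xs' ys := wd4_in r0 (by decide)
    obtain ⟨H, l, d⟩ := D (by decide)
    exact ⟨_, _, Or.inl rfl, Or.inl rfl, RC.pr4c2 O I H l d J hx⟩
  · have q0 : (mk4 2439 2559 1733 1853 1521 1641 354 474 (-1227) (-1107) 4352 3998).Re xs ys T ρ := q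
    have r0 : (mk4 1696 1816 1733 1853 1384 1504 354 474 (-1090) (-970) 3609 3255).Re xs' ys T' ρ := r
    have O := q0.oneB RC.Row.cH4c (by decide)
    have I : RC.o4c2e.In T ρ xs ys := wd4_in q0 (by decide)
    have J : RC.p4c2e.In T' ρ xs' ys := wd4_in r0 (by decide)
    have G := r0.gd (by decide)
    have U := r0.up G RC.Row.cU4 (by decide)
    exact ⟨_, _, Or.inl rfl, Or.inr ⟨rfl, rfl, rfl⟩,
      RC.pr4c2e O I G U J hx⟩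
  · have q0 : (mk4 2498 2629 1727 1880 1636 1777 489 634 (-1218) (-1081) 4445 3956).Re xs ys T ρ := q
    have r0 : (mk4 1996 2260 1727 1880 635 889 489 634 (-337) (-61) 4047 3558).Re xs' ys T' ρ := r
    have O := q0.oneB RC.Row.cH4c (by decide)
    have I : RC.o4c3.In T ρ xs ys := wd4_in q0 (by decide)
    have J : RC.p4c3.In T' ρ xs' ys := wd4_in r0 (by decide)
    obtain ⟨H, l, d⟩ := D (by decide)
    exact ⟨_, _, Or.inl rfl, Or.inl rfl, RC.pr4c3 O I H l d J hx⟩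
  · have q0 : (mk4 2477 2597 1777 1897 1588 1708 450 570 (-1198) (-1078) 4434 3984).Re xs ys T ρ := q
    have r0 : (mk4 1791 1911 1777 1897 783 903 450 570 (-393) (-273) 3749 3299).Re xs' ys T' ρ := r
    have O := q0.oneB RC.Row.cH4c (by decide)
    have I : RC.o4c3e.In T ρ xs ys := wd4_in q0 (by decide)
    have J : RC.p4c3e.In T' ρ xs' ys := wd4_in r0 (by decide)
    obtain ⟨H, l, d⟩ := D (by decide)
    exact ⟨_, _, Or.inl rfl, Or.inl rfl, RC.pr4c3e O I H l d J hx⟩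
  · cases s
    · have q0 : (mk4 2502 2666 1755 1909 1634 1845 506 715 (-1203) (-1065) 4498 3992).Re xs ys T ρ := q
      have r0 : (mk4 1915 2318 1755 1919 391 757 506 715 (-183) 264 4150 3644).Re xs' ys T' ρ := r
      have O := q0.oneB RC.Row.cH4c (by decide)
      have I : RC.o4cZ.In T ρ xs ys := wd4_in q0 (by decide)
      have J : RC.p4cZ.In T' ρ xs' ys := wd4_in r0 (by decide)
      obtain ⟨H, l, d⟩ := D (by decide)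
      exact ⟨_, _, Or.inl rfl, Or.inl rfl, RC.pr4cZ O I H l d J hx⟩
    · have q0 : (mk4 2519 2666 1772 1985 1640 1845 552 715 (-1190) (-1025) 4584 4032).Re xs ys T ρ := q
      have r0 : (mk4 1807 2318 1772 1985 160 510 552 715 140 493 4150 3598).Re xs' ys T' ρ := r
      have O := q0.oneB RC.Row.cH4c (by decide)
      have I : RC.o4cZs.In T ρ xs ys := wd4_in q0 (by decide)
      have J : RC.p4cZs.In T' ρ xs' ys := wd4_in r0 (by decide)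
      obtain ⟨H, l, d⟩ := D (by decide)
      exact ⟨_, _, Or.inl rfl, Or.inl rfl, RC.pr4cZs O I H l d J hx⟩

end SR

end Pool.Agent.Work.MP_b30479_gtS.G2

end
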