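import Pool.Agent.Work.MP_b30479_gt.TBS.G2.RGm17
import Pool.Agent.Work.MP_b30479_gt.TBS.G2.RGm19
import Pool.Agent.Work.MP_b30479_gt.TBS.G2.RGn08
import Pool.Agent.Work.MP_b30479_gt.TBS.G2.RKind
import Pool.Agent.Work.MP_b30479_gt.TBS.G2.RLvl6
import Pool.Agent.Work.MP_b30479_gt.TBS.G2.WLocF

section

/-!
# Rings on the level part: pairs of hinges
-/

namespace Pool.Agent.Work.MP_b30479_gtS.G2

open Real Set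

namespace RC

open R6

theorem pr5a2 {xs ys T ρ xs' T' : ℝ} (O : OneB xs ys T ρ) (I : o5a2.In T ρ xs ys)
    (H : HD xs' ys T' ρ (125 / 1000) (30 / 100)) (l : LH xs' ys T' ρ (125 / 1000) (30 / 100))
    (d : DnG xs' T' (125 / 1000) (30 / 100) ys ρ) (I' : p5a2.In T' ρ xs' ys)
    (hx' : xs' ∈ Icc (125 / 1000) (30 / 100)) :
    Pr ys ρ xs T (16 / 100) (36 / 100) (fun _ => 0) (fun _ => 0) xs' T' (125 / 1000) (30 / 100)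
      (fun _ => 0) (fun _ => 0) :=
  Pr.of (tab := [⟨2500, 2600, 0, 0, 0, 0, 0⟩, ⟨2600, 2700, 0, 0, 0, 0, 0⟩, ⟨2700, 2800, 0, 0, 0, 0, 0⟩, ⟨2800, 5000, 0, 0, 0, 0, 0⟩])
    (tab' := [⟨2500, 2600, 160, 120, 0, 0, 0⟩, ⟨2600, 2700, 160, 150, 0, 0, 0⟩, ⟨2700, 2800, 160, 150, 0, 0, 0⟩, ⟨2800, 5000, 0, 0, 0, 0, 0⟩])
    (O.LF I o5a2_Wa o5a2_Wb hf0) (l.toF hz0 hz0 (by norm_num) (by norm_num))
    (I.dt O.GD (fun _ => O.HD) o5a2_Dp2500_0_0_0 o5a2_Dm2500_0_0_0 rfl hf0 hf0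
      (I.dt O.GD (fun _ => O.HD) o5a2_Dp2600_0_0_0 o5a2_Dm2600_0_0_0 rfl hf0 hf0
      (I.dt O.GD (fun _ => O.HD) o5a2_Dp2700_0_0_0 o5a2_Dm2700_0_0_0 rfl hf0 hf0
      (I.dt0 O.GD (fun _ => O.HD) o5a2_Qp2800_0_0_0 o5a2_Qm2800_0_0_0 rfl DT.nil A16 B36) A16 B36) A16 B36) A16 B36)
    (d.qt (d.qt (d.qt (d.qt QT.nil))))
    (I'.dt H.toGD (fun _ => H) p5a2_Dp2500_160_120_0 p5a2_Dm2500_160_120_0 rfl hf0 hf0
      (I'.dt H.toGD (fun _ => H) p5a2_Dp2600_160_150_0 p5a2_Dm2600_160_150_0 rfl hf0 hf0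
      (I'.dt H.toGD (fun _ => H) p5a2_Dp2700_160_150_0 p5a2_Dm2700_160_150_0 rfl hf0 hf0
      (d.dt H.toGD DT.nil) A12 B30) A12 B30) A12 B30)
    (I.qt O.GD (fun _ => O.HD) o5a2_Qp2500_160_120_0 o5a2_Qm2500_160_120_0 rfl
      (I.qt O.GD (fun _ => O.HD) o5a2_Qp2600_160_150_0 o5a2_Qm2600_160_150_0 rfl
      (I.qt O.GD (fun _ => O.HD) o5a2_Qp2700_160_150_0 o5a2_Qm2700_160_150_0 rfl
      (I.qt O.GD (fun _ => O.HD) o5a2_Qp2800_0_0_0 o5a2_Qm2800_0_0_0 rfl QT.nil A16 B36) A16 B36) A16 B36) A16 B36)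
    (by decide) (by decide) O.hys O.hxs hx'

theorem pr5a2e {xs ys T ρ xs' T' : ℝ} (O : OneB xs ys T ρ) (I : o5a2e.In T ρ xs ys)
    (H : HD xs' ys T' ρ (125 / 1000) (30 / 100)) (l : LH xs' ys T' ρ (125 / 1000) (30 / 100))
    (d : DnG xs' T' (125 / 1000) (30 / 100) ys ρ) (I' : p5a2e.In T' ρ xs' ys)
    (hx' : xs' ∈ Icc (125 / 1000) (30 / 100)) :
    Pr ys ρ xs T (16 / 100) (36 / 100) (fun _ => 0) (fun _ => 0) xs' T' (125 / 1000) (30 / 100)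
      (fun _ => 0) (fun _ => 0) :=
  Pr.of (tab := [⟨2500, 2600, 0, 0, 0, 0, 0⟩, ⟨2600, 2700, 0, 0, 0, 0, 0⟩, ⟨2700, 2800, 0, 0, 0, 0, 0⟩, ⟨2800, 5000, 0, 0, 0, 0, 0⟩])
    (tab' := [⟨2500, 2600, 115, 150, 0, 0, 0⟩, ⟨2600, 2700, 130, 150, 0, 0, 0⟩, ⟨2700, 2800, 160, 180, 0, 0, 0⟩, ⟨2800, 5000, 0, 0, 0, 0, 0⟩])
    (O.LF I o5a2e_Wa o5a2e_Wb hf0) (l.toF hz0 hz0 (by norm_num) (by norm_num))
    (I.dt O.GD (fun _ => O.HD) o5a2e_Dp2500_0_0_0 o5a2e_Dm2500_0_0_0 rfl hf0 hf0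
      (I.dt O.GD (fun _ => O.HD) o5a2e_Dp2600_0_0_0 o5a2e_Dm2600_0_0_0 rfl hf0 hf0
      (I.dt O.GD (fun _ => O.HD) o5a2e_Dp2700_0_0_0 o5a2e_Dm2700_0_0_0 rfl hf0 hf0
      (I.dt0 O.GD (fun _ => O.HD) o5a2e_Qp2800_0_0_0 o5a2e_Qm2800_0_0_0 rfl DT.nil A16 B36) A16 B36) A16 B36) A16 B36)
    (d.qt (d.qt (d.qt (d.qt QT.nil))))
    (I'.dt H.toGD (fun _ => H) p5a2e_Dp2500_115_150_0 p5a2e_Dm2500_115_150_0 rfl hf0 hf0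
      (I'.dt H.toGD (fun _ => H) p5a2e_Dp2600_130_150_0 p5a2e_Dm2600_130_150_0 rfl hf0 hf0
      (I'.dt H.toGD (fun _ => H) p5a2e_Dp2700_160_180_0 p5a2e_Dm2700_160_180_0 rfl hf0 hf0
      (d.dt H.toGD DT.nil) A12 B30) A12 B30) A12 B30)
    (I.qt O.GD (fun _ => O.HD) o5a2e_Qp2500_115_150_0 o5a2e_Qm2500_115_150_0 rfl
      (I.qt O.GD (fun _ => O.HD) o5a2e_Qp2600_130_150_0 o5a2e_Qm2600_130_150_0 rfl
      (I.qt O.GD (fun _ => O.HD) o5a2e_Qp2700_160_180_0 o5a2e_Qm2700_160_180_0 rfl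
      (I.qt O.GD (fun _ => O.HD) o5a2e_Qp2800_0_0_0 o5a2e_Qm2800_0_0_0 rfl QT.nil A16 B36) A16 B36) A16 B36) A16 B36)
    (by decide) (by decide) O.hys O.hxs hx'

theorem pr5a3 {xs ys T ρ xs' T' : ℝ} (O : OneB xs ys T ρ) (I : o5a3.In T ρ xs ys)
    (H : HD xs' ys T' ρ (12 / 100) (30 / 100)) (l : LH xs' ys T' ρ (12 / 100) (30 / 100))
    (d : DnG xs' T' (12 / 100) (30 / 100) ys ρ) (I' : p5a3.In T' ρ xs' ys)
    (hx' : xs' ∈ Icc (12 / 100) (30 / 100)) :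
    Pr ys ρ xs T (16 / 100) (36 / 100) (fun _ => 0) (fun _ => 0) xs' T' (12 / 100) (30 / 100)
      (fun _ => 0) (fun _ => 0) :=
  Pr.of (tab := [⟨2500, 2600, 0, 0, 0, 0, 0⟩, ⟨2600, 2700, 0, 0, 0, 0, 0⟩, ⟨2700, 2800, 0, 0, 0, 0, 0⟩, ⟨2800, 5000, 0, 0, 0, 0, 0⟩])
    (tab' := [⟨2500, 2600, 130, 100, 0, 0, 0⟩, ⟨2600, 2700, 115, 100, 0, 0, 0⟩, ⟨2700, 2800, 160, 150, 0, 0, 0⟩, ⟨2800, 5000, 0, 0, 0, 0, 0⟩])
    (O.LF I o5a3_Wa o5a3_Wb hf0) (l.toF hz0 hz0 (by norm_num) (by norm_num))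
    (I.dt O.GD (fun _ => O.HD) o5a3_Dp2500_0_0_0 o5a3_Dm2500_0_0_0 rfl hf0 hf0
      (I.dt O.GD (fun _ => O.HD) o5a3_Dp2600_0_0_0 o5a3_Dm2600_0_0_0 rfl hf0 hf0
      (I.dt O.GD (fun _ => O.HD) o5a3_Dp2700_0_0_0 o5a3_Dm2700_0_0_0 rfl hf0 hf0
      (I.dt0 O.GD (fun _ => O.HD) o5a3_Qp2800_0_0_0 o5a3_Qm2800_0_0_0 rfl DT.nil A16 B36) A16 B36) A16 B36) A16 B36)
    (d.qt (d.qt (d.qt (d.qt QT.nil))))
    (I'.dt H.toGD (fun _ => H) p5a3_Dp2500_130_100_0 p5a3_Dm2500_130_100_0 rfl hf0 hf0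
      (I'.dt H.toGD (fun _ => H) p5a3_Dp2600_115_100_0 p5a3_Dm2600_115_100_0 rfl hf0 hf0
      (I'.dt H.toGD (fun _ => H) p5a3_Dp2700_160_150_0 p5a3_Dm2700_160_150_0 rfl hf0 hf0
      (d.dt H.toGD DT.nil) A120 B30) A120 B30) A120 B30)
    (I.qt O.GD (fun _ => O.HD) o5a3_Qp2500_130_100_0 o5a3_Qm2500_130_100_0 rfl
      (I.qt O.GD (fun _ => O.HD) o5a3_Qp2600_115_100_0 o5a3_Qm2600_115_100_0 rfl
      (I.qt O.GD (fun _ => O.HD) o5a3_Qp2700_160_150_0 o5a3_Qm2700_160_150_0 rfl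
      (I.qt O.GD (fun _ => O.HD) o5a3_Qp2800_0_0_0 o5a3_Qm2800_0_0_0 rfl QT.nil A16 B36) A16 B36) A16 B36) A16 B36)
    (by decide) (by decide) O.hys O.hxs hx'

theorem pr5a3e {xs ys T ρ xs' T' : ℝ} (O : OneB xs ys T ρ) (I : o5a3e.In T ρ xs ys)
    (H : HD xs' ys T' ρ (10 / 100) (26 / 100)) (l : LH xs' ys T' ρ (10 / 100) (26 / 100))
    (d : DnG xs' T' (10 / 100) (26 / 100) ys ρ) (I' : p5a3e.In T' ρ xs' ys)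
    (hx' : xs' ∈ Icc (10 / 100) (26 / 100)) :
    Pr ys ρ xs T (16 / 100) (36 / 100) (fun _ => 0) (fun _ => 0) xs' T' (10 / 100) (26 / 100)
      (fun _ => 0) (fun _ => 0) :=
  Pr.of (tab := [⟨2500, 2600, 0, 0, 0, 0, 0⟩, ⟨2600, 2700, 0, 0, 0, 0, 0⟩, ⟨2700, 2800, 0, 0, 0, 0, 0⟩, ⟨2800, 5000, 0, 0, 0, 0, 0⟩])
    (tab' := [⟨2500, 2600, 115, 80, 0, 0, 0⟩, ⟨2600, 2700, 160, 120, 0, 0, 0⟩, ⟨2700, 2800, 160, 150, 0, 0, 0⟩, ⟨2800, 5000, 0, 0, 0, 0, 0⟩])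
    (O.LF I o5a3e_Wa o5a3e_Wb hf0) (l.toF hz0 hz0 (by norm_num) (by norm_num))
    (I.dt O.GD (fun _ => O.HD) o5a3e_Dp2500_0_0_0 o5a3e_Dm2500_0_0_0 rfl hf0 hf0
      (I.dt O.GD (fun _ => O.HD) o5a3e_Dp2600_0_0_0 o5a3e_Dm2600_0_0_0 rfl hf0 hf0
      (I.dt O.GD (fun _ => O.HD) o5a3e_Dp2700_0_0_0 o5a3e_Dm2700_0_0_0 rfl hf0 hf0
      (I.dt0 O.GD (fun _ => O.HD) o5a3e_Qp2800_0_0_0 o5a3e_Qm2800_0_0_0 rfl DT.nil A16 B36) A16 B36) A16 B36) A16 B36)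
    (d.qt (d.qt (d.qt (d.qt QT.nil))))
    (I'.dt H.toGD (fun _ => H) p5a3e_Dp2500_115_80_0 p5a3e_Dm2500_115_80_0 rfl hf0 hf0
      (I'.dt H.toGD (fun _ => H) p5a3e_Dp2600_160_120_0 p5a3e_Dm2600_160_120_0 rfl hf0 hf0
      (I'.dt H.toGD (fun _ => H) p5a3e_Dp2700_160_150_0 p5a3e_Dm2700_160_150_0 rfl hf0 hf0
      (d.dt H.toGD DT.nil) A10 B26) A10 B26) A10 B26)
    (I.qt O.GD (fun _ => O.HD) o5a3e_Qp2500_115_80_0 o5a3e_Qm2500_115_80_0 rfl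
      (I.qt O.GD (fun _ => O.HD) o5a3e_Qp2600_160_120_0 o5a3e_Qm2600_160_120_0 rfl
      (I.qt O.GD (fun _ => O.HD) o5a3e_Qp2700_160_150_0 o5a3e_Qm2700_160_150_0 rfl
      (I.qt O.GD (fun _ => O.HD) o5a3e_Qp2800_0_0_0 o5a3e_Qm2800_0_0_0 rfl QT.nil A16 B36) A16 B36) A16 B36) A16 B36)
    (by decide) (by decide) O.hys O.hxs hx'

theorem o5aZ_Qp2800_90_400_0 : o5aZ.R (cQ true 90 400 1) 2247 3600 2800 2900 := by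
  have h : Bx ⟨true, 2, 0, 90, 400, 0, 0, 0, 1, [⟨1, 0, 0, 1, 0, 0, 0, 0, 0, 995⟩, ⟨0, 1, 1, 0, 0, 0, 0, 0, 1616, 0⟩, ⟨0, 0, 0, 0, 1, 0, 0, 1, 0, 638⟩, ⟨0, 0, 0, 1, 1, 0, 0, 1, 0, 976⟩]⟩ 934 1507 338 656 2247 2797 3279 3551 2247 3600 2800 2900 := o5aZ_Qp2800_90_400_0_0
  exact h

theorem pr5aZ {xs ys T ρ xs' T' : ℝ} (O : OneB xs ys T ρ) (I : o5aZ.In T ρ xs ys)
    (H : HD xs' ys T' ρ (10 / 100) (27 / 100)) (l : LH xs' ys T' ρ (10 / 100) (27 / 100))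
    (d : DnG xs' T' (10 / 100) (27 / 100) ys ρ) (I' : p5aZ.In T' ρ xs' ys)
    (hx' : xs' ∈ Icc (10 / 100) (27 / 100)) (K : Kap xs' ys T' ρ (27 / 100)) (h17 : 17 / 100 ≤ xs')
    :
    Pr ys ρ xs T (16 / 100) (36 / 100) (fun _ => 0) (fun _ => 0) xs' T' (10 / 100) (27 / 100)
      (fun _ => 0) (fun _ => 0) :=
  Pr.of (tab := [⟨2500, 2600, 0, 0, 0, 0, 0⟩, ⟨2600, 2700, 0, 0, 0, 0, 0⟩, ⟨2700, 2800, 0, 0, 0, 0, 0⟩, ⟨2800, 2900, 0, 0, 0, 0, 0⟩, ⟨2900, 5000, 0, 0, 0, 0, 0⟩])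
    (tab' := [⟨2500, 2600, 130, 100, 0, 0, 0⟩, ⟨2600, 2700, 130, 120, 0, 0, 0⟩, ⟨2700, 2800, 160, 150, 0, 0, 0⟩, ⟨2800, 2900, 90, 400, 0, 0, 0⟩, ⟨2900, 5000, 0, 0, 0, 0, 0⟩])
    (O.LF I o5aZ_Wa o5aZ_Wb hf0) (l.toF hz0 hz0 (by norm_num) (by norm_num))
    (I.dt O.GD (fun _ => O.HD) o5aZ_Dp2500_0_0_0 o5aZ_Dm2500_0_0_0 rfl hf0 hf0
      (I.dt O.GD (fun _ => O.HD) o5aZ_Dp2600_0_0_0 o5aZ_Dm2600_0_0_0 rfl hf0 hf0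
      (I.dt O.GD (fun _ => O.HD) o5aZ_Dp2700_0_0_0 o5aZ_Dm2700_0_0_0 rfl hf0 hf0
      (I.dt O.GD (fun _ => O.HD) o5aZ_Dp2800_0_0_0 o5aZ_Dm2800_0_0_0 rfl hf0 hf0
      (I.dt0 O.GD (fun _ => O.HD) o5aZ_Qp2900_0_0_0 o5aZ_Qm2900_0_0_0 rfl DT.nil A16 B36) A16 B36) A16 B36) A16 B36) A16 B36)
    (d.qt (d.qt (d.qt (d.qt (d.qt QT.nil)))))
    (I'.dk H.toGD (fun _ => H) K le_rfl h17 (by decide) p5aZ_Dm2500_130_100_0 rfl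
      (I'.dk H.toGD (fun _ => H) K le_rfl h17 (by decide) p5aZ_Dm2600_130_120_0 rfl
      (I'.dk H.toGD (fun _ => H) K le_rfl h17 (by decide) p5aZ_Dm2700_160_150_0 rfl
      (I'.dk H.toGD (fun _ => H) K le_rfl h17 (by decide) p5aZ_Dm2800_90_400_0 rfl
      (d.dt H.toGD DT.nil) A10) A10) A10) A10)
    (I.qt O.GD (fun _ => O.HD) o5aZ_Qp2500_130_100_0 o5aZ_Qm2500_130_100_0 rfl
      (I.qt O.GD (fun _ => O.HD) o5aZ_Qp2600_130_120_0 o5aZ_Qm2600_130_120_0 rfl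
      (I.qt O.GD (fun _ => O.HD) o5aZ_Qp2700_160_150_0 o5aZ_Qm2700_160_150_0 rfl
      (I.qt O.GD (fun _ => O.HD) o5aZ_Qp2800_90_400_0 o5aZ_Qm2800_90_400_0 rfl
      (I.qt O.GD (fun _ => O.HD) o5aZ_Qp2900_0_0_0 o5aZ_Qm2900_0_0_0 rfl QT.nil A16 B36) A16 B36) A16 B36) A16 B36) A16 B36)
    (by decide) (by decide) O.hys O.hxs hx'

theorem pr5aZs {xs ys T ρ xs' T' : ℝ} (O : OneB xs ys T ρ) (I : o5aZs.In T ρ xs ys)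
    (H : HD xs' ys T' ρ (10 / 100) (27 / 100)) (l : LH xs' ys T' ρ (10 / 100) (27 / 100))
    (d : DnG xs' T' (10 / 100) (27 / 100) ys ρ) (I' : p5aZs.In T' ρ xs' ys)
    (hx' : xs' ∈ Icc (10 / 100) (27 / 100)) (K : Kap xs' ys T' ρ (27 / 100)) (h17 : 17 / 100 ≤ xs')
    :
    Pr ys ρ xs T (16 / 100) (36 / 100) (fun _ => 0) (fun _ => 0) xs' T' (10 / 100) (27 / 100)
      (fun _ => 0) (fun _ => 0) :=
  Pr.of (tab := [⟨2500, 2600, 0, 0, 0, 0, 0⟩, ⟨2600, 2700, 0, 0, 0, 0, 0⟩, ⟨2700, 2800, 0, 0, 0, 0, 0⟩, ⟨2800, 2900, 0, 0, 0, 0, 0⟩, ⟨2900, 5000, 0, 0, 0, 0, 0⟩])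
    (tab' := [⟨2500, 2600, 115, 65, 0, 0, 0⟩, ⟨2600, 2700, 130, 100, 0, 0, 0⟩, ⟨2700, 2800, 130, 120, 0, 0, 0⟩, ⟨2800, 2900, 160, 150, 0, 0, 0⟩, ⟨2900, 5000, 0, 0, 0, 0, 0⟩])
    (O.LF I o5aZs_Wa o5aZs_Wb hf0) (l.toF hz0 hz0 (by norm_num) (by norm_num))
    (I.dt O.GD (fun _ => O.HD) o5aZs_Dp2500_0_0_0 o5aZs_Dm2500_0_0_0 rfl hf0 hf0
      (I.dt O.GD (fun _ => O.HD) o5aZs_Dp2600_0_0_0 o5aZs_Dm2600_0_0_0 rfl hf0 hf0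
      (I.dt O.GD (fun _ => O.HD) o5aZs_Dp2700_0_0_0 o5aZs_Dm2700_0_0_0 rfl hf0 hf0
      (I.dt O.GD (fun _ => O.HD) o5aZs_Dp2800_0_0_0 o5aZs_Dm2800_0_0_0 rfl hf0 hf0
      (I.dt0 O.GD (fun _ => O.HD) o5aZs_Qp2900_0_0_0 o5aZs_Qm2900_0_0_0 rfl DT.nil A16 B36) A16 B36) A16 B36) A16 B36) A16 B36)
    (d.qt (d.qt (d.qt (d.qt (d.qt QT.nil)))))
    (I'.dk H.toGD (fun _ => H) K le_rfl h17 (by decide) p5aZs_Dm2500_115_65_0 rfl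
      (I'.dk H.toGD (fun _ => H) K le_rfl h17 (by decide) p5aZs_Dm2600_130_100_0 rfl
      (I'.dk H.toGD (fun _ => H) K le_rfl h17 (by decide) p5aZs_Dm2700_130_120_0 rfl
      (I'.dk H.toGD (fun _ => H) K le_rfl h17 (by decide) p5aZs_Dm2800_160_150_0 rfl
      (d.dt H.toGD DT.nil) A10) A10) A10) A10)
    (I.qt O.GD (fun _ => O.HD) o5aZs_Qp2500_115_65_0 o5aZs_Qm2500_115_65_0 rfl
      (I.qt O.GD (fun _ => O.HD) o5aZs_Qp2600_130_100_0 o5aZs_Qm2600_130_100_0 rfl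
      (I.qt O.GD (fun _ => O.HD) o5aZs_Qp2700_130_120_0 o5aZs_Qm2700_130_120_0 rfl
      (I.qt O.GD (fun _ => O.HD) o5aZs_Qp2800_160_150_0 o5aZs_Qm2800_160_150_0 rfl
      (I.qt O.GD (fun _ => O.HD) o5aZs_Qp2900_0_0_0 o5aZs_Qm2900_0_0_0 rfl QT.nil A16 B36) A16 B36) A16 B36) A16 B36) A16 B36)
    (by decide) (by decide) O.hys O.hxs hx'

end RC

end Pool.Agent.Work.MP_b30479_gtS.G2

end

section

/-!
# Rings on the level part: the pairs of hinges by class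
-/

namespace Pool.Agent.Work.MP_b30479_gtS.G2

open Finset VOL Filter Topology

namespace SR

/-- **A ring between a digit `1` and a class `k`, the pair of hinges.** -/
theorem pm5a {xs ys T ρ xs' T' : ℝ} {k : Cl} {s : Bool}
    (hk : k ≠ .one)
    (q : (rq5 .one k s).Re xs ys T ρ)
    (r : (rp5 .one k s).Re xs' ys T' ρ)
    (D : Lo k xs' ys T' ρ)
    (KZ : k = .ring → |T'| ≤ 47 / 1000)
    (hx : xs' ∈ Set.Icc (fcl k) (fcp k)) :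
    PrS 5 .one k xs ys T ρ xs' T' := by
  cases k
  · exact absurd rfl hk
  · have q0 : (mk4 2245 2775 1383 1673 964 1564 294 572 (-1094) (-518) 4300 4006).Re xs ys T ρ := q
    have r0 : (mk4 2007 2538 1383 1673 695 1202 294 572 (-777) (-240) 4059 3765).Re xs' ys T' ρ := r
    have O := q0.oneB RC.Row.cH5a (by decide)
    have I : RC.o5a2.In T ρ xs ys := wd4_in q0 (by decide)
    have J : RC.p5a2.In T' ρ xs' ys := wd4_in r0 (by decide)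
    obtain ⟨H, l, d⟩ := D
    exact ⟨_, _, Or.inl rfl, Or.inl rfl, RC.pr5a2 O I H l d J hx⟩
  · have q0 : (mk4 2220 2729 1428 1673 906 1483 226 470 (-1093) (-536) 4257 4031).Re xs ys T ρ := q
    have r0 : (mk4 1650 1860 1428 1673 1322 1560 226 470 (-1202) (-990) 3431 3205).Re xs' ys T' ρ := r
    have O := q0.oneB RC.Row.cH5a (by decide)
    have I : RC.o5a2e.In T ρ xs ys := wd4_in q0 (by decide)
    have J : RC.p5a2e.In T' ρ xs' ys := wd4_in r0 (by decide)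
    obtain ⟨H, l, d⟩ := D
    exact ⟨_, _, Or.inl rfl, Or.inl rfl, RC.pr5a2e O I H l d J hx⟩
  · have q0 : (mk4 2247 2778 1428 1697 987 1569 331 590 (-1072) (-510) 4321 3990).Re xs ys T ρ := q
    have r0 : (mk4 1977 2326 1428 1697 552 916 331 590 (-454) (-80) 3895 3564).Re xs' ys T' ρ := r
    have O := q0.oneB RC.Row.cH5a (by decide)
    have I : RC.o5a3.In T ρ xs ys := wd4_in q0 (by decide)
    have J : RC.p5a3.In T' ρ xs' ys := wd4_in r0 (by decide)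
    obtain ⟨H, l, d⟩ := D
    exact ⟨_, _, Or.inl rfl, Or.inl rfl, RC.pr5a3 O I H l d J hx⟩
  · have q0 : (mk4 2235 2760 1461 1709 955 1529 296 543 (-1070) (-512) 4321 4025).Re xs ys T ρ := q
    have r0 : (mk4 1763 1970 1461 1709 691 930 296 543 (-499) (-287) 3577 3281).Re xs' ys T' ρ := r
    have O := q0.oneB RC.Row.cH5a (by decide)
    have I : RC.o5a3e.In T ρ xs ys := wd4_in q0 (by decide)
    have J : RC.p5a3e.In T' ρ xs' ys := wd4_in r0 (by decide)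
    obtain ⟨H, l, d⟩ := D
    exact ⟨_, _, Or.inl rfl, Or.inl rfl, RC.pr5a3e O I H l d J hx⟩
  · cases s
    · have q0 : (mk4 2247 2797 1449 1721 995 1616 338 656 (-1066) (-493) 4362 4024).Re xs ys T ρ := q
      have r0 : (mk4 1898 2416 1449 1721 272 766 338 656 (-287) 248 4017 3679).Re xs' ys T' ρ := r
      have O := q0.oneB RC.Row.cH5a (by decide)
      have I : RC.o5aZ.In T ρ xs ys := wd4_in q0 (by decide)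
      have J : RC.p5aZ.In T' ρ xs' ys := wd4_in r0 (by decide)
      have K := r0.kap (by decide) (KZ rfl)
      obtain ⟨H, l, d⟩ := D
      exact ⟨_, _, Or.inl rfl, Or.inl rfl, RC.pr5aZ O I H l d J hx K.1 K.2⟩
    · have q0 : (mk4 2249 2800 1463 1779 999 1622 371 656 (-1055) (-471) 4412 4041).Re xs ys T ρ := q
      have r0 : (mk4 1821 2416 1463 1779 15 507 371 656 34 499 4017 3646).Re xs' ys T' ρ := r
      have O := q0.oneB RC.Row.cH5a (by decide)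
      have I : RC.o5aZs.In T ρ xs ys := wd4_in q0 (by decide)
      have J : RC.p5aZs.In T' ρ xs' ys := wd4_in r0 (by decide)
      have K := r0.kap (by decide) (KZ rfl)
      obtain ⟨H, l, d⟩ := D
      exact ⟨_, _, Or.inl rfl, Or.inl rfl, RC.pr5aZs O I H l d J hx K.1 K.2⟩

end SR

end Pool.Agent.Work.MP_b30479_gtS.G2

end
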