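import Pool.Agent.Work.MP_b30479_gt.TBS.G2.RGm29
import Pool.Agent.Work.MP_b30479_gt.TBS.G2.RGm10
import Pool.Agent.Work.MP_b30479_gt.TBS.G2.RKind
import Pool.Agent.Work.MP_b30479_gt.TBS.G2.RGn07
import Pool.Agent.Work.MP_b30479_gt.TBS.G2.RGn08
import Pool.Agent.Work.MP_b30479_gt.TBS.G2.RGn05
import Pool.Agent.Work.MP_b30479_gt.TBS.G2.RGn06
import Pool.Agent.Work.MP_b30479_gt.TBS.G2.RLvl6
import Pool.Agent.Work.MP_b30479_gt.TBS.G2.WLocF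

section

/-!
# Rings on the level part: pairs of hinges
-/

namespace Pool.Agent.Work.MP_b30479_gtS.G2

open Real Set

namespace RC

open R6

theorem pr6a2 {xs ys T ρ xs' T' : ℝ} (O : OneB xs ys T ρ) (I : o6a2.In T ρ xs ys)
    (H : HD xs' ys T' ρ (125 / 1000) (30 / 100)) (l : LH xs' ys T' ρ (125 / 1000) (30 / 100))
    (d : DnG xs' T' (125 / 1000) (30 / 100) ys ρ) (I' : p6a2.In T' ρ xs' ys)
    (hx' : xs' ∈ Icc (125 / 1000) (30 / 100)) :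
    Pr ys ρ xs T (16 / 100) (36 / 100) (fun _ => 0) (fun _ => 0) xs' T' (125 / 1000) (30 / 100)
      (fun _ => 0) (fun _ => 0) :=
  Pr.of (tab := [⟨2500, 2700, 0, 0, 0, 0, 0⟩, ⟨2700, 2900, 0, 0, 0, 0, 0⟩, ⟨2900, 5000, 0, 0, 0, 0, 0⟩])
    (tab' := [⟨2500, 2700, 130, 150, 0, 0, 0⟩, ⟨2700, 2900, 160, 220, 0, 0, 0⟩, ⟨2900, 5000, 0, 0, 0, 0, 0⟩])
    (O.LF I o6a2_Wa o6a2_Wb hf0) (l.toF hz0 hz0 (by norm_num) (by norm_num))
    (I.dt O.GD (fun _ => O.HD) o6a2_Dp2500_0_0_0 o6a2_Dm2500_0_0_0 rfl hf0 hf0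
      (I.dt O.GD (fun _ => O.HD) o6a2_Dp2700_0_0_0 o6a2_Dm2700_0_0_0 rfl hf0 hf0
      (I.dt0 O.GD (fun _ => O.HD) o6a2_Qp2900_0_0_0 o6a2_Qm2900_0_0_0 rfl DT.nil A16 B36) A16 B36) A16 B36)
    (d.qt (d.qt (d.qt QT.nil)))
    (I'.dt H.toGD (fun _ => H) p6a2_Dp2500_130_150_0 p6a2_Dm2500_130_150_0 rfl hf0 hf0
      (I'.dt H.toGD (fun _ => H) p6a2_Dp2700_160_220_0 p6a2_Dm2700_160_220_0 rfl hf0 hf0
      (d.dt H.toGD DT.nil) A12 B30) A12 B30)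
    (I.qt O.GD (fun _ => O.HD) o6a2_Qp2500_130_150_0 o6a2_Qm2500_130_150_0 rfl
      (I.qt O.GD (fun _ => O.HD) o6a2_Qp2700_160_220_0 o6a2_Qm2700_160_220_0 rfl
      (I.qt O.GD (fun _ => O.HD) o6a2_Qp2900_0_0_0 o6a2_Qm2900_0_0_0 rfl QT.nil A16 B36) A16 B36) A16 B36)
    (by decide) (by decide) O.hys O.hxs hx'

theorem pr6a2e {xs ys T ρ xs' T' : ℝ} (O : OneB xs ys T ρ) (I : o6a2e.In T ρ xs ys)
    (H : HD xs' ys T' ρ (125 / 1000) (30 / 100)) (l : LH xs' ys T' ρ (125 / 1000) (30 / 100))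
    (d : DnG xs' T' (125 / 1000) (30 / 100) ys ρ) (I' : p6a2e.In T' ρ xs' ys)
    (hx' : xs' ∈ Icc (125 / 1000) (30 / 100)) :
    Pr ys ρ xs T (16 / 100) (36 / 100) (fun _ => 0) (fun _ => 0) xs' T' (125 / 1000) (30 / 100)
      (fun _ => 0) (fun _ => 0) :=
  Pr.of (tab := [⟨2500, 2700, 0, 0, 0, 0, 0⟩, ⟨2700, 2900, 0, 0, 0, 0, 0⟩, ⟨2900, 5000, 0, 0, 0, 0, 0⟩])
    (tab' := [⟨2500, 2700, 115, 180, 0, 0, 0⟩, ⟨2700, 2900, 160, 220, 0, 0, 0⟩, ⟨2900, 5000, 0, 0, 0, 0, 0⟩])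
    (O.LF I o6a2e_Wa o6a2e_Wb hf0) (l.toF hz0 hz0 (by norm_num) (by norm_num))
    (I.dt O.GD (fun _ => O.HD) o6a2e_Dp2500_0_0_0 o6a2e_Dm2500_0_0_0 rfl hf0 hf0
      (I.dt O.GD (fun _ => O.HD) o6a2e_Dp2700_0_0_0 o6a2e_Dm2700_0_0_0 rfl hf0 hf0
      (I.dt0 O.GD (fun _ => O.HD) o6a2e_Qp2900_0_0_0 o6a2e_Qm2900_0_0_0 rfl DT.nil A16 B36) A16 B36) A16 B36)
    (d.qt (d.qt (d.qt QT.nil)))
    (I'.dt H.toGD (fun _ => H) p6a2e_Dp2500_115_180_0 p6a2e_Dm2500_115_180_0 rfl hf0 hf0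
      (I'.dt H.toGD (fun _ => H) p6a2e_Dp2700_160_220_0 p6a2e_Dm2700_160_220_0 rfl hf0 hf0
      (d.dt H.toGD DT.nil) A12 B30) A12 B30)
    (I.qt O.GD (fun _ => O.HD) o6a2e_Qp2500_115_180_0 o6a2e_Qm2500_115_180_0 rfl
      (I.qt O.GD (fun _ => O.HD) o6a2e_Qp2700_160_220_0 o6a2e_Qm2700_160_220_0 rfl
      (I.qt O.GD (fun _ => O.HD) o6a2e_Qp2900_0_0_0 o6a2e_Qm2900_0_0_0 rfl QT.nil A16 B36) A16 B36) A16 B36)
    (by decide) (by decide) O.hys O.hxs hx'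

theorem pr6a3 {xs ys T ρ xs' T' : ℝ} (O : OneB xs ys T ρ) (I : o6a3.In T ρ xs ys)
    (H : HD xs' ys T' ρ (12 / 100) (30 / 100)) (l : LH xs' ys T' ρ (12 / 100) (30 / 100))
    (d : DnG xs' T' (12 / 100) (30 / 100) ys ρ) (I' : p6a3.In T' ρ xs' ys)
    (hx' : xs' ∈ Icc (12 / 100) (30 / 100)) :
    Pr ys ρ xs T (16 / 100) (36 / 100) (fun _ => 0) (fun _ => 0) xs' T' (12 / 100) (30 / 100)
      (fun _ => 0) (fun _ => 0) :=
  Pr.of (tab := [⟨2500, 2700, 0, 0, 0, 0, 0⟩, ⟨2700, 2900, 0, 0, 0, 0, 0⟩, ⟨2900, 5000, 0, 0, 0, 0, 0⟩])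
    (tab' := [⟨2500, 2700, 160, 150, 0, 0, 0⟩, ⟨2700, 2900, 160, 220, 0, 0, 0⟩, ⟨2900, 5000, 0, 0, 0, 0, 0⟩])
    (O.LF I o6a3_Wa o6a3_Wb hf0) (l.toF hz0 hz0 (by norm_num) (by norm_num))
    (I.dt O.GD (fun _ => O.HD) o6a3_Dp2500_0_0_0 o6a3_Dm2500_0_0_0 rfl hf0 hf0
      (I.dt O.GD (fun _ => O.HD) o6a3_Dp2700_0_0_0 o6a3_Dm2700_0_0_0 rfl hf0 hf0
      (I.dt0 O.GD (fun _ => O.HD) o6a3_Qp2900_0_0_0 o6a3_Qm2900_0_0_0 rfl DT.nil A16 B36) A16 B36) A16 B36)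
    (d.qt (d.qt (d.qt QT.nil)))
    (I'.dt H.toGD (fun _ => H) p6a3_Dp2500_160_150_0 p6a3_Dm2500_160_150_0 rfl hf0 hf0
      (I'.dt H.toGD (fun _ => H) p6a3_Dp2700_160_220_0 p6a3_Dm2700_160_220_0 rfl hf0 hf0
      (d.dt H.toGD DT.nil) A120 B30) A120 B30)
    (I.qt O.GD (fun _ => O.HD) o6a3_Qp2500_160_150_0 o6a3_Qm2500_160_150_0 rfl
      (I.qt O.GD (fun _ => O.HD) o6a3_Qp2700_160_220_0 o6a3_Qm2700_160_220_0 rfl
      (I.qt O.GD (fun _ => O.HD) o6a3_Qp2900_0_0_0 o6a3_Qm2900_0_0_0 rfl QT.nil A16 B36) A16 B36) A16 B36)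
    (by decide) (by decide) O.hys O.hxs hx'

theorem pr6a3e {xs ys T ρ xs' T' : ℝ} (O : OneB xs ys T ρ) (I : o6a3e.In T ρ xs ys)
    (H : HD xs' ys T' ρ (10 / 100) (26 / 100)) (l : LH xs' ys T' ρ (10 / 100) (26 / 100))
    (d : DnG xs' T' (10 / 100) (26 / 100) ys ρ) (I' : p6a3e.In T' ρ xs' ys)
    (hx' : xs' ∈ Icc (10 / 100) (26 / 100)) :
    Pr ys ρ xs T (16 / 100) (36 / 100) (fun _ => 0) (fun _ => 0) xs' T' (10 / 100) (26 / 100)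
      (fun _ => 0) (fun _ => 0) :=
  Pr.of (tab := [⟨2500, 2700, 0, 0, 0, 0, 0⟩, ⟨2700, 2900, 0, 0, 0, 0, 0⟩, ⟨2900, 5000, 0, 0, 0, 0, 0⟩])
    (tab' := [⟨2500, 2700, 130, 150, 0, 0, 0⟩, ⟨2700, 2900, 160, 220, 0, 0, 0⟩, ⟨2900, 5000, 0, 0, 0, 0, 0⟩])
    (O.LF I o6a3e_Wa o6a3e_Wb hf0) (l.toF hz0 hz0 (by norm_num) (by norm_num))
    (I.dt O.GD (fun _ => O.HD) o6a3e_Dp2500_0_0_0 o6a3e_Dm2500_0_0_0 rfl hf0 hf0
      (I.dt O.GD (fun _ => O.HD) o6a3e_Dp2700_0_0_0 o6a3e_Dm2700_0_0_0 rfl hf0 hf0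
      (I.dt0 O.GD (fun _ => O.HD) o6a3e_Qp2900_0_0_0 o6a3e_Qm2900_0_0_0 rfl DT.nil A16 B36) A16 B36) A16 B36)
    (d.qt (d.qt (d.qt QT.nil)))
    (I'.dt H.toGD (fun _ => H) p6a3e_Dp2500_130_150_0 p6a3e_Dm2500_130_150_0 rfl hf0 hf0
      (I'.dt H.toGD (fun _ => H) p6a3e_Dp2700_160_220_0 p6a3e_Dm2700_160_220_0 rfl hf0 hf0
      (d.dt H.toGD DT.nil) A10 B26) A10 B26)
    (I.qt O.GD (fun _ => O.HD) o6a3e_Qp2500_130_150_0 o6a3e_Qm2500_130_150_0 rfl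
      (I.qt O.GD (fun _ => O.HD) o6a3e_Qp2700_160_220_0 o6a3e_Qm2700_160_220_0 rfl
      (I.qt O.GD (fun _ => O.HD) o6a3e_Qp2900_0_0_0 o6a3e_Qm2900_0_0_0 rfl QT.nil A16 B36) A16 B36) A16 B36)
    (by decide) (by decide) O.hys O.hxs hx'

theorem pr6aZ {xs ys T ρ xs' T' : ℝ} (O : OneB xs ys T ρ) (I : o6aZ.In T ρ xs ys)
    (H : HD xs' ys T' ρ (10 / 100) (27 / 100)) (l : LH xs' ys T' ρ (10 / 100) (27 / 100))
    (d : DnG xs' T' (10 / 100) (27 / 100) ys ρ) (I' : p6aZ.In T' ρ xs' ys)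
    (hx' : xs' ∈ Icc (10 / 100) (27 / 100)) (K : Kap xs' ys T' ρ (27 / 100)) (h17 : 17 / 100 ≤ xs')
    :
    Pr ys ρ xs T (16 / 100) (36 / 100) (fun _ => 0) (fun _ => 0) xs' T' (10 / 100) (27 / 100)
      (fun _ => 0) (fun _ => 0) :=
  Pr.of (tab := [⟨2500, 2700, 0, 0, 0, 0, 0⟩, ⟨2700, 2900, 0, 0, 0, 0, 0⟩, ⟨2900, 5000, 0, 0, 0, 0, 0⟩])
    (tab' := [⟨2500, 2700, 115, 120, 0, 0, 0⟩, ⟨2700, 2900, 160, 180, 0, 0, 0⟩, ⟨2900, 5000, 0, 0, 0, 0, 0⟩])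
    (O.LF I o6aZ_Wa o6aZ_Wb hf0) (l.toF hz0 hz0 (by norm_num) (by norm_num))
    (I.dt O.GD (fun _ => O.HD) o6aZ_Dp2500_0_0_0 o6aZ_Dm2500_0_0_0 rfl hf0 hf0
      (I.dt O.GD (fun _ => O.HD) o6aZ_Dp2700_0_0_0 o6aZ_Dm2700_0_0_0 rfl hf0 hf0
      (I.dt0 O.GD (fun _ => O.HD) o6aZ_Qp2900_0_0_0 o6aZ_Qm2900_0_0_0 rfl DT.nil A16 B36) A16 B36) A16 B36)
    (d.qt (d.qt (d.qt QT.nil)))
    (I'.dk H.toGD (fun _ => H) K le_rfl h17 (by decide) p6aZ_Dm2500_115_120_0 rfl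
      (I'.dk H.toGD (fun _ => H) K le_rfl h17 (by decide) p6aZ_Dm2700_160_180_0 rfl
      (d.dt H.toGD DT.nil) A10) A10)
    (I.qt O.GD (fun _ => O.HD) o6aZ_Qp2500_115_120_0 o6aZ_Qm2500_115_120_0 rfl
      (I.qt O.GD (fun _ => O.HD) o6aZ_Qp2700_160_180_0 o6aZ_Qm2700_160_180_0 rfl
      (I.qt O.GD (fun _ => O.HD) o6aZ_Qp2900_0_0_0 o6aZ_Qm2900_0_0_0 rfl QT.nil A16 B36) A16 B36) A16 B36)
    (by decide) (by decide) O.hys O.hxs hx'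

theorem pr6aZs {xs ys T ρ xs' T' : ℝ} (O : OneB xs ys T ρ) (I : o6aZs.In T ρ xs ys)
    (H : HD xs' ys T' ρ (10 / 100) (27 / 100)) (l : LH xs' ys T' ρ (10 / 100) (27 / 100))
    (d : DnG xs' T' (10 / 100) (27 / 100) ys ρ) (I' : p6aZs.In T' ρ xs' ys)
    (hx' : xs' ∈ Icc (10 / 100) (27 / 100)) (K : Kap xs' ys T' ρ (27 / 100)) (h17 : 17 / 100 ≤ xs')
    :
    Pr ys ρ xs T (16 / 100) (36 / 100) (fun _ => 0) (fun _ => 0) xs' T' (10 / 100) (27 / 100)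
      (fun _ => 0) (fun _ => 0) :=
  Pr.of (tab := [⟨2500, 2700, 0, 0, 0, 0, 0⟩, ⟨2700, 2900, 0, 0, 0, 0, 0⟩, ⟨2900, 5000, 0, 0, 0, 0, 0⟩])
    (tab' := [⟨2500, 2700, 130, 150, 0, 0, 0⟩, ⟨2700, 2900, 160, 180, 0, 0, 0⟩, ⟨2900, 5000, 0, 0, 0, 0, 0⟩])
    (O.LF I o6aZs_Wa o6aZs_Wb hf0) (l.toF hz0 hz0 (by norm_num) (by norm_num))
    (I.dt O.GD (fun _ => O.HD) o6aZs_Dp2500_0_0_0 o6aZs_Dm2500_0_0_0 rfl hf0 hf0
      (I.dt O.GD (fun _ => O.HD) o6aZs_Dp2700_0_0_0 o6aZs_Dm2700_0_0_0 rfl hf0 hf0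
      (I.dt0 O.GD (fun _ => O.HD) o6aZs_Qp2900_0_0_0 o6aZs_Qm2900_0_0_0 rfl DT.nil A16 B36) A16 B36) A16 B36)
    (d.qt (d.qt (d.qt QT.nil)))
    (I'.dk H.toGD (fun _ => H) K le_rfl h17 (by decide) p6aZs_Dm2500_130_150_0 rfl
      (I'.dk H.toGD (fun _ => H) K le_rfl h17 (by decide) p6aZs_Dm2700_160_180_0 rfl
      (d.dt H.toGD DT.nil) A10) A10)
    (I.qt O.GD (fun _ => O.HD) o6aZs_Qp2500_130_150_0 o6aZs_Qm2500_130_150_0 rfl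
      (I.qt O.GD (fun _ => O.HD) o6aZs_Qp2700_160_180_0 o6aZs_Qm2700_160_180_0 rfl
      (I.qt O.GD (fun _ => O.HD) o6aZs_Qp2900_0_0_0 o6aZs_Qm2900_0_0_0 rfl QT.nil A16 B36) A16 B36) A16 B36)
    (by decide) (by decide) O.hys O.hxs hx'

end RC

end Pool.Agent.Work.MP_b30479_gtS.G2

end

section

/-!
# Rings on the level part: pairs of hinges
-/

namespace Pool.Agent.Work.MP_b30479_gtS.G2

open Real Set

namespace RC

open R6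

theorem pr7b2 {xs ys T ρ xs' T' : ℝ} (O : OneB xs ys T ρ) (I : o7b2.In T ρ xs ys)
    (H : HD xs' ys T' ρ (125 / 1000) (30 / 100)) (l : LH xs' ys T' ρ (125 / 1000) (30 / 100))
    (d : DnG xs' T' (125 / 1000) (30 / 100) ys ρ) (I' : p7b2.In T' ρ xs' ys)
    (hx' : xs' ∈ Icc (125 / 1000) (30 / 100)) :
    Pr ys ρ xs T (16 / 100) (36 / 100) (fun _ => 0) (fun _ => 0) xs' T' (125 / 1000) (30 / 100)
      (fun _ => 0) (fun _ => 0) :=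
  Pr.of (tab := [⟨2500, 2700, 0, 0, 0, 0, 0⟩, ⟨2700, 2900, 0, 0, 0, 0, 0⟩, ⟨2900, 5000, 0, 0, 0, 0, 0⟩])
    (tab' := [⟨2500, 2700, 115, 120, 0, 0, 0⟩, ⟨2700, 2900, 115, 150, 0, 0, 0⟩, ⟨2900, 5000, 0, 0, 0, 0, 0⟩])
    (O.LF I o7b2_Wa o7b2_Wb hf0) (l.toF hz0 hz0 (by norm_num) (by norm_num))
    (I.dt O.GD (fun _ => O.HD) o7b2_Dp2500_0_0_0 o7b2_Dm2500_0_0_0 rfl hf0 hf0
      (I.dt O.GD (fun _ => O.HD) o7b2_Dp2700_0_0_0 o7b2_Dm2700_0_0_0 rfl hf0 hf0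
      (I.dt0 O.GD (fun _ => O.HD) o7b2_Qp2900_0_0_0 o7b2_Qm2900_0_0_0 rfl DT.nil A16 B36) A16 B36) A16 B36)
    (d.qt (d.qt (d.qt QT.nil)))
    (I'.dt H.toGD (fun _ => H) p7b2_Dp2500_115_120_0 p7b2_Dm2500_115_120_0 rfl hf0 hf0
      (I'.dt H.toGD (fun _ => H) p7b2_Dp2700_115_150_0 p7b2_Dm2700_115_150_0 rfl hf0 hf0
      (d.dt H.toGD DT.nil) A12 B30) A12 B30)
    (I.qt O.GD (fun _ => O.HD) o7b2_Qp2500_115_120_0 o7b2_Qm2500_115_120_0 rfl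
      (I.qt O.GD (fun _ => O.HD) o7b2_Qp2700_115_150_0 o7b2_Qm2700_115_150_0 rfl
      (I.qt O.GD (fun _ => O.HD) o7b2_Qp2900_0_0_0 o7b2_Qm2900_0_0_0 rfl QT.nil A16 B36) A16 B36) A16 B36)
    (by decide) (by decide) O.hys O.hxs hx'

theorem pr7b2e {xs ys T ρ xs' T' : ℝ} (O : OneB xs ys T ρ) (I : o7b2e.In T ρ xs ys)
    (H : HD xs' ys T' ρ (125 / 1000) (30 / 100)) (l : LH xs' ys T' ρ (125 / 1000) (30 / 100))
    (d : DnG xs' T' (125 / 1000) (30 / 100) ys ρ) (I' : p7b2e.In T' ρ xs' ys)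
    (hx' : xs' ∈ Icc (125 / 1000) (30 / 100)) :
    Pr ys ρ xs T (16 / 100) (36 / 100) (fun _ => 0) (fun _ => 0) xs' T' (125 / 1000) (30 / 100)
      (fun _ => 0) (fun _ => 0) :=
  Pr.of (tab := [⟨2500, 2700, 0, 0, 0, 0, 0⟩, ⟨2700, 2900, 0, 0, 0, 0, 0⟩, ⟨2900, 5000, 0, 0, 0, 0, 0⟩])
    (tab' := [⟨2500, 2700, 90, 120, 0, 0, 0⟩, ⟨2700, 2900, 100, 150, 0, 0, 0⟩, ⟨2900, 5000, 0, 0, 0, 0, 0⟩])
    (O.LF I o7b2e_Wa o7b2e_Wb hf0) (l.toF hz0 hz0 (by norm_num) (by norm_num))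
    (I.dt O.GD (fun _ => O.HD) o7b2e_Dp2500_0_0_0 o7b2e_Dm2500_0_0_0 rfl hf0 hf0
      (I.dt O.GD (fun _ => O.HD) o7b2e_Dp2700_0_0_0 o7b2e_Dm2700_0_0_0 rfl hf0 hf0
      (I.dt0 O.GD (fun _ => O.HD) o7b2e_Qp2900_0_0_0 o7b2e_Qm2900_0_0_0 rfl DT.nil A16 B36) A16 B36) A16 B36)
    (d.qt (d.qt (d.qt QT.nil)))
    (I'.dt H.toGD (fun _ => H) p7b2e_Dp2500_90_120_0 p7b2e_Dm2500_90_120_0 rfl hf0 hf0
      (I'.dt H.toGD (fun _ => H) p7b2e_Dp2700_100_150_0 p7b2e_Dm2700_100_150_0 rfl hf0 hf0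
      (d.dt H.toGD DT.nil) A12 B30) A12 B30)
    (I.qt O.GD (fun _ => O.HD) o7b2e_Qp2500_90_120_0 o7b2e_Qm2500_90_120_0 rfl
      (I.qt O.GD (fun _ => O.HD) o7b2e_Qp2700_100_150_0 o7b2e_Qm2700_100_150_0 rfl
      (I.qt O.GD (fun _ => O.HD) o7b2e_Qp2900_0_0_0 o7b2e_Qm2900_0_0_0 rfl QT.nil A16 B36) A16 B36) A16 B36)
    (by decide) (by decide) O.hys O.hxs hx'

theorem pr7b3 {xs ys T ρ xs' T' : ℝ} (O : OneB xs ys T ρ) (I : o7b3.In T ρ xs ys)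
    (H : HD xs' ys T' ρ (12 / 100) (30 / 100)) (l : LH xs' ys T' ρ (12 / 100) (30 / 100))
    (d : DnG xs' T' (12 / 100) (30 / 100) ys ρ) (I' : p7b3.In T' ρ xs' ys)
    (hx' : xs' ∈ Icc (12 / 100) (30 / 100)) :
    Pr ys ρ xs T (16 / 100) (36 / 100) (fun _ => 0) (fun _ => 0) xs' T' (12 / 100) (30 / 100)
      (fun _ => 0) (fun _ => 0) :=
  Pr.of (tab := [⟨2500, 2700, 0, 0, 0, 0, 0⟩, ⟨2700, 2900, 0, 0, 0, 0, 0⟩, ⟨2900, 5000, 0, 0, 0, 0, 0⟩])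
    (tab' := [⟨2500, 2700, 115, 120, 0, 0, 0⟩, ⟨2700, 2900, 130, 150, 0, 0, 0⟩, ⟨2900, 5000, 0, 0, 0, 0, 0⟩])
    (O.LF I o7b3_Wa o7b3_Wb hf0) (l.toF hz0 hz0 (by norm_num) (by norm_num))
    (I.dt O.GD (fun _ => O.HD) o7b3_Dp2500_0_0_0 o7b3_Dm2500_0_0_0 rfl hf0 hf0
      (I.dt O.GD (fun _ => O.HD) o7b3_Dp2700_0_0_0 o7b3_Dm2700_0_0_0 rfl hf0 hf0
      (I.dt0 O.GD (fun _ => O.HD) o7b3_Qp2900_0_0_0 o7b3_Qm2900_0_0_0 rfl DT.nil A16 B36) A16 B36) A16 B36)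
    (d.qt (d.qt (d.qt QT.nil)))
    (I'.dt H.toGD (fun _ => H) p7b3_Dp2500_115_120_0 p7b3_Dm2500_115_120_0 rfl hf0 hf0
      (I'.dt H.toGD (fun _ => H) p7b3_Dp2700_130_150_0 p7b3_Dm2700_130_150_0 rfl hf0 hf0
      (d.dt H.toGD DT.nil) A120 B30) A120 B30)
    (I.qt O.GD (fun _ => O.HD) o7b3_Qp2500_115_120_0 o7b3_Qm2500_115_120_0 rfl
      (I.qt O.GD (fun _ => O.HD) o7b3_Qp2700_130_150_0 o7b3_Qm2700_130_150_0 rfl
      (I.qt O.GD (fun _ => O.HD) o7b3_Qp2900_0_0_0 o7b3_Qm2900_0_0_0 rfl QT.nil A16 B36) A16 B36) A16 B36)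
    (by decide) (by decide) O.hys O.hxs hx'

theorem pr7b3e {xs ys T ρ xs' T' : ℝ} (O : OneB xs ys T ρ) (I : o7b3e.In T ρ xs ys)
    (H : HD xs' ys T' ρ (10 / 100) (26 / 100)) (l : LH xs' ys T' ρ (10 / 100) (26 / 100))
    (d : DnG xs' T' (10 / 100) (26 / 100) ys ρ) (I' : p7b3e.In T' ρ xs' ys)
    (hx' : xs' ∈ Icc (10 / 100) (26 / 100)) :
    Pr ys ρ xs T (16 / 100) (36 / 100) (fun _ => 0) (fun _ => 0) xs' T' (10 / 100) (26 / 100)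
      (fun _ => 0) (fun _ => 0) :=
  Pr.of (tab := [⟨2500, 2700, 0, 0, 0, 0, 0⟩, ⟨2700, 2900, 0, 0, 0, 0, 0⟩, ⟨2900, 5000, 0, 0, 0, 0, 0⟩])
    (tab' := [⟨2500, 2700, 160, 120, 0, 0, 0⟩, ⟨2700, 2900, 115, 150, 0, 0, 0⟩, ⟨2900, 5000, 0, 0, 0, 0, 0⟩])
    (O.LF I o7b3e_Wa o7b3e_Wb hf0) (l.toF hz0 hz0 (by norm_num) (by norm_num))
    (I.dt O.GD (fun _ => O.HD) o7b3e_Dp2500_0_0_0 o7b3e_Dm2500_0_0_0 rfl hf0 hf0
      (I.dt O.GD (fun _ => O.HD) o7b3e_Dp2700_0_0_0 o7b3e_Dm2700_0_0_0 rfl hf0 hf0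
      (I.dt0 O.GD (fun _ => O.HD) o7b3e_Qp2900_0_0_0 o7b3e_Qm2900_0_0_0 rfl DT.nil A16 B36) A16 B36) A16 B36)
    (d.qt (d.qt (d.qt QT.nil)))
    (I'.dt H.toGD (fun _ => H) p7b3e_Dp2500_160_120_0 p7b3e_Dm2500_160_120_0 rfl hf0 hf0
      (I'.dt H.toGD (fun _ => H) p7b3e_Dp2700_115_150_0 p7b3e_Dm2700_115_150_0 rfl hf0 hf0
      (d.dt H.toGD DT.nil) A10 B26) A10 B26)
    (I.qt O.GD (fun _ => O.HD) o7b3e_Qp2500_160_120_0 o7b3e_Qm2500_160_120_0 rfl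
      (I.qt O.GD (fun _ => O.HD) o7b3e_Qp2700_115_150_0 o7b3e_Qm2700_115_150_0 rfl
      (I.qt O.GD (fun _ => O.HD) o7b3e_Qp2900_0_0_0 o7b3e_Qm2900_0_0_0 rfl QT.nil A16 B36) A16 B36) A16 B36)
    (by decide) (by decide) O.hys O.hxs hx'

theorem pr7bZ {xs ys T ρ xs' T' : ℝ} (O : OneB xs ys T ρ) (I : o7bZ.In T ρ xs ys)
    (H : HD xs' ys T' ρ (10 / 100) (27 / 100)) (l : LH xs' ys T' ρ (10 / 100) (27 / 100))
    (d : DnG xs' T' (10 / 100) (27 / 100) ys ρ) (I' : p7bZ.In T' ρ xs' ys)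
    (hx' : xs' ∈ Icc (10 / 100) (27 / 100)) (K : Kap xs' ys T' ρ (27 / 100)) (h17 : 17 / 100 ≤ xs')
    :
    Pr ys ρ xs T (16 / 100) (36 / 100) (fun _ => 0) (fun _ => 0) xs' T' (10 / 100) (27 / 100)
      (fun _ => 0) (fun _ => 0) :=
  Pr.of (tab := [⟨2500, 2700, 0, 0, 0, 0, 0⟩, ⟨2700, 2900, 0, 0, 0, 0, 0⟩, ⟨2900, 5000, 0, 0, 0, 0, 0⟩])
    (tab' := [⟨2500, 2700, 90, 120, 0, 0, 0⟩, ⟨2700, 2900, 100, 150, 0, 0, 0⟩, ⟨2900, 5000, 0, 0, 0, 0, 0⟩])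
    (O.LF I o7bZ_Wa o7bZ_Wb hf0) (l.toF hz0 hz0 (by norm_num) (by norm_num))
    (I.dt O.GD (fun _ => O.HD) o7bZ_Dp2500_0_0_0 o7bZ_Dm2500_0_0_0 rfl hf0 hf0
      (I.dt O.GD (fun _ => O.HD) o7bZ_Dp2700_0_0_0 o7bZ_Dm2700_0_0_0 rfl hf0 hf0
      (I.dt0 O.GD (fun _ => O.HD) o7bZ_Qp2900_0_0_0 o7bZ_Qm2900_0_0_0 rfl DT.nil A16 B36) A16 B36) A16 B36)
    (d.qt (d.qt (d.qt QT.nil)))
    (I'.dk H.toGD (fun _ => H) K le_rfl h17 (by decide) p7bZ_Dm2500_90_120_0 rfl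
      (I'.dk H.toGD (fun _ => H) K le_rfl h17 (by decide) p7bZ_Dm2700_100_150_0 rfl
      (d.dt H.toGD DT.nil) A10) A10)
    (I.qt O.GD (fun _ => O.HD) o7bZ_Qp2500_90_120_0 o7bZ_Qm2500_90_120_0 rfl
      (I.qt O.GD (fun _ => O.HD) o7bZ_Qp2700_100_150_0 o7bZ_Qm2700_100_150_0 rfl
      (I.qt O.GD (fun _ => O.HD) o7bZ_Qp2900_0_0_0 o7bZ_Qm2900_0_0_0 rfl QT.nil A16 B36) A16 B36) A16 B36)
    (by decide) (by decide) O.hys O.hxs hx'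

theorem pr7bZs {xs ys T ρ xs' T' : ℝ} (O : OneB xs ys T ρ) (I : o7bZs.In T ρ xs ys)
    (H : HD xs' ys T' ρ (10 / 100) (27 / 100)) (l : LH xs' ys T' ρ (10 / 100) (27 / 100))
    (d : DnG xs' T' (10 / 100) (27 / 100) ys ρ) (I' : p7bZs.In T' ρ xs' ys)
    (hx' : xs' ∈ Icc (10 / 100) (27 / 100)) (K : Kap xs' ys T' ρ (27 / 100)) (h17 : 17 / 100 ≤ xs')
    :
    Pr ys ρ xs T (16 / 100) (36 / 100) (fun _ => 0) (fun _ => 0) xs' T' (10 / 100) (27 / 100)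
      (fun _ => 0) (fun _ => 0) :=
  Pr.of (tab := [⟨2500, 2700, 0, 0, 0, 0, 0⟩, ⟨2700, 2900, 0, 0, 0, 0, 0⟩, ⟨2900, 5000, 0, 0, 0, 0, 0⟩])
    (tab' := [⟨2500, 2700, 90, 120, 0, 0, 0⟩, ⟨2700, 2900, 115, 150, 0, 0, 0⟩, ⟨2900, 5000, 0, 0, 0, 0, 0⟩])
    (O.LF I o7bZs_Wa o7bZs_Wb hf0) (l.toF hz0 hz0 (by norm_num) (by norm_num))
    (I.dt O.GD (fun _ => O.HD) o7bZs_Dp2500_0_0_0 o7bZs_Dm2500_0_0_0 rfl hf0 hf0
      (I.dt O.GD (fun _ => O.HD) o7bZs_Dp2700_0_0_0 o7bZs_Dm2700_0_0_0 rfl hf0 hf0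
      (I.dt0 O.GD (fun _ => O.HD) o7bZs_Qp2900_0_0_0 o7bZs_Qm2900_0_0_0 rfl DT.nil A16 B36) A16 B36) A16 B36)
    (d.qt (d.qt (d.qt QT.nil)))
    (I'.dk H.toGD (fun _ => H) K le_rfl h17 (by decide) p7bZs_Dm2500_90_120_0 rfl
      (I'.dk H.toGD (fun _ => H) K le_rfl h17 (by decide) p7bZs_Dm2700_115_150_0 rfl
      (d.dt H.toGD DT.nil) A10) A10)
    (I.qt O.GD (fun _ => O.HD) o7bZs_Qp2500_90_120_0 o7bZs_Qm2500_90_120_0 rfl
      (I.qt O.GD (fun _ => O.HD) o7bZs_Qp2700_115_150_0 o7bZs_Qm2700_115_150_0 rfl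
      (I.qt O.GD (fun _ => O.HD) o7bZs_Qp2900_0_0_0 o7bZs_Qm2900_0_0_0 rfl QT.nil A16 B36) A16 B36) A16 B36)
    (by decide) (by decide) O.hys O.hxs hx'

end RC

end Pool.Agent.Work.MP_b30479_gtS.G2

end

section

/-!
# Rings on the level part: pairs of hinges
-/

namespace Pool.Agent.Work.MP_b30479_gtS.G2

open Real Set

namespace RC

open R6

theorem pr8a2 {xs ys T ρ xs' T' : ℝ} (O : OneB xs ys T ρ) (I : o8a2.In T ρ xs ys)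
    (H : HD xs' ys T' ρ (125 / 1000) (30 / 100)) (l : LH xs' ys T' ρ (125 / 1000) (30 / 100))
    (d : DnG xs' T' (125 / 1000) (30 / 100) ys ρ)
    (hx' : xs' ∈ Icc (125 / 1000) (30 / 100)) :
    Pr ys ρ xs T (16 / 100) (36 / 100) (fun _ => 0) (fun _ => 0) xs' T' (125 / 1000) (30 / 100)
      (fun _ => 0) (fun _ => 0) :=
  Pr.of (tab := [⟨2500, 5000, 0, 0, 0, 0, 0⟩])
    (tab' := [⟨2500, 5000, 0, 0, 0, 0, 0⟩])
    (O.LF I o8a2_Wa o8a2_Wb hf0) (l.toF hz0 hz0 (by norm_num) (by norm_num))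
    (I.dt0 O.GD (fun _ => O.HD) o8a2_Qp2500_0_0_0 o8a2_Qm2500_0_0_0 rfl DT.nil A16 B36)
    (d.qt QT.nil)
    (d.dt H.toGD DT.nil)
    (I.qt O.GD (fun _ => O.HD) o8a2_Qp2500_0_0_0 o8a2_Qm2500_0_0_0 rfl QT.nil A16 B36)
    (by decide) (by decide) O.hys O.hxs hx'

theorem pr8a2e {xs ys T ρ xs' T' : ℝ} (O : OneB xs ys T ρ) (I : o8a2e.In T ρ xs ys)
    (H : HD xs' ys T' ρ (125 / 1000) (30 / 100)) (l : LH xs' ys T' ρ (125 / 1000) (30 / 100))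
    (d : DnG xs' T' (125 / 1000) (30 / 100) ys ρ)
    (hx' : xs' ∈ Icc (125 / 1000) (30 / 100)) :
    Pr ys ρ xs T (16 / 100) (36 / 100) (fun _ => 0) (fun _ => 0) xs' T' (125 / 1000) (30 / 100)
      (fun _ => 0) (fun _ => 0) :=
  Pr.of (tab := [⟨2500, 5000, 0, 0, 0, 0, 0⟩])
    (tab' := [⟨2500, 5000, 0, 0, 0, 0, 0⟩])
    (O.LF I o8a2e_Wa o8a2e_Wb hf0) (l.toF hz0 hz0 (by norm_num) (by norm_num))
    (I.dt0 O.GD (fun _ => O.HD) o8a2e_Qp2500_0_0_0 o8a2e_Qm2500_0_0_0 rfl DT.nil A16 B36)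
    (d.qt QT.nil)
    (d.dt H.toGD DT.nil)
    (I.qt O.GD (fun _ => O.HD) o8a2e_Qp2500_0_0_0 o8a2e_Qm2500_0_0_0 rfl QT.nil A16 B36)
    (by decide) (by decide) O.hys O.hxs hx'

theorem pr8a3 {xs ys T ρ xs' T' : ℝ} (O : OneB xs ys T ρ) (I : o8a3.In T ρ xs ys)
    (H : HD xs' ys T' ρ (12 / 100) (30 / 100)) (l : LH xs' ys T' ρ (12 / 100) (30 / 100))
    (d : DnG xs' T' (12 / 100) (30 / 100) ys ρ)
    (hx' : xs' ∈ Icc (12 / 100) (30 / 100)) :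
    Pr ys ρ xs T (16 / 100) (36 / 100) (fun _ => 0) (fun _ => 0) xs' T' (12 / 100) (30 / 100)
      (fun _ => 0) (fun _ => 0) :=
  Pr.of (tab := [⟨2500, 5000, 0, 0, 0, 0, 0⟩])
    (tab' := [⟨2500, 5000, 0, 0, 0, 0, 0⟩])
    (O.LF I o8a3_Wa o8a3_Wb hf0) (l.toF hz0 hz0 (by norm_num) (by norm_num))
    (I.dt0 O.GD (fun _ => O.HD) o8a3_Qp2500_0_0_0 o8a3_Qm2500_0_0_0 rfl DT.nil A16 B36)
    (d.qt QT.nil)
    (d.dt H.toGD DT.nil)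
    (I.qt O.GD (fun _ => O.HD) o8a3_Qp2500_0_0_0 o8a3_Qm2500_0_0_0 rfl QT.nil A16 B36)
    (by decide) (by decide) O.hys O.hxs hx'

theorem pr8a3e {xs ys T ρ xs' T' : ℝ} (O : OneB xs ys T ρ) (I : o8a3e.In T ρ xs ys)
    (H : HD xs' ys T' ρ (10 / 100) (26 / 100)) (l : LH xs' ys T' ρ (10 / 100) (26 / 100))
    (d : DnG xs' T' (10 / 100) (26 / 100) ys ρ)
    (hx' : xs' ∈ Icc (10 / 100) (26 / 100)) :
    Pr ys ρ xs T (16 / 100) (36 / 100) (fun _ => 0) (fun _ => 0) xs' T' (10 / 100) (26 / 100)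
      (fun _ => 0) (fun _ => 0) :=
  Pr.of (tab := [⟨2500, 5000, 0, 0, 0, 0, 0⟩])
    (tab' := [⟨2500, 5000, 0, 0, 0, 0, 0⟩])
    (O.LF I o8a3e_Wa o8a3e_Wb hf0) (l.toF hz0 hz0 (by norm_num) (by norm_num))
    (I.dt0 O.GD (fun _ => O.HD) o8a3e_Qp2500_0_0_0 o8a3e_Qm2500_0_0_0 rfl DT.nil A16 B36)
    (d.qt QT.nil)
    (d.dt H.toGD DT.nil)
    (I.qt O.GD (fun _ => O.HD) o8a3e_Qp2500_0_0_0 o8a3e_Qm2500_0_0_0 rfl QT.nil A16 B36)
    (by decide) (by decide) O.hys O.hxs hx'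

theorem pr8aZ {xs ys T ρ xs' T' : ℝ} (O : OneB xs ys T ρ) (I : o8aZ.In T ρ xs ys)
    (H : HD xs' ys T' ρ (10 / 100) (27 / 100)) (l : LH xs' ys T' ρ (10 / 100) (27 / 100))
    (d : DnG xs' T' (10 / 100) (27 / 100) ys ρ) (I' : p8aZ.In T' ρ xs' ys)
    (hx' : xs' ∈ Icc (10 / 100) (27 / 100)) (K : Kap xs' ys T' ρ (27 / 100)) (h17 : 17 / 100 ≤ xs')
    :
    Pr ys ρ xs T (16 / 100) (36 / 100) (fun _ => 0) (fun _ => 0) xs' T' (10 / 100) (27 / 100)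
      (fun _ => 0) (fun _ => 0) :=
  Pr.of (tab := [⟨2500, 2700, 0, 0, 0, 0, 0⟩, ⟨2700, 5000, 0, 0, 0, 0, 0⟩])
    (tab' := [⟨2500, 2700, 90, 220, 0, 0, 0⟩, ⟨2700, 5000, 0, 0, 0, 0, 0⟩])
    (O.LF I o8aZ_Wa o8aZ_Wb hf0) (l.toF hz0 hz0 (by norm_num) (by norm_num))
    (I.dt O.GD (fun _ => O.HD) o8aZ_Dp2500_0_0_0 o8aZ_Dm2500_0_0_0 rfl hf0 hf0
      (I.dt0 O.GD (fun _ => O.HD) o8aZ_Qp2700_0_0_0 o8aZ_Qm2700_0_0_0 rfl DT.nil A16 B36) A16 B36)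
    (d.qt (d.qt QT.nil))
    (I'.dk H.toGD (fun _ => H) K le_rfl h17 (by decide) p8aZ_Dm2500_90_220_0 rfl
      (d.dt H.toGD DT.nil) A10)
    (I.qt O.GD (fun _ => O.HD) o8aZ_Qp2500_90_220_0 o8aZ_Qm2500_90_220_0 rfl
      (I.qt O.GD (fun _ => O.HD) o8aZ_Qp2700_0_0_0 o8aZ_Qm2700_0_0_0 rfl QT.nil A16 B36) A16 B36)
    (by decide) (by decide) O.hys O.hxs hx'

theorem pr8aZs {xs ys T ρ xs' T' : ℝ} (O : OneB xs ys T ρ) (I : o8aZs.In T ρ xs ys)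
    (H : HD xs' ys T' ρ (10 / 100) (27 / 100)) (l : LH xs' ys T' ρ (10 / 100) (27 / 100))
    (d : DnG xs' T' (10 / 100) (27 / 100) ys ρ) (I' : p8aZs.In T' ρ xs' ys)
    (hx' : xs' ∈ Icc (10 / 100) (27 / 100)) (K : Kap xs' ys T' ρ (27 / 100)) (h17 : 17 / 100 ≤ xs')
    :
    Pr ys ρ xs T (16 / 100) (36 / 100) (fun _ => 0) (fun _ => 0) xs' T' (10 / 100) (27 / 100)
      (fun _ => 0) (fun _ => 0) :=
  Pr.of (tab := [⟨2500, 2700, 0, 0, 0, 0, 0⟩, ⟨2700, 5000, 0, 0, 0, 0, 0⟩])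
    (tab' := [⟨2500, 2700, 115, 220, 0, 0, 0⟩, ⟨2700, 5000, 0, 0, 0, 0, 0⟩])
    (O.LF I o8aZs_Wa o8aZs_Wb hf0) (l.toF hz0 hz0 (by norm_num) (by norm_num))
    (I.dt O.GD (fun _ => O.HD) o8aZs_Dp2500_0_0_0 o8aZs_Dm2500_0_0_0 rfl hf0 hf0
      (I.dt0 O.GD (fun _ => O.HD) o8aZs_Qp2700_0_0_0 o8aZs_Qm2700_0_0_0 rfl DT.nil A16 B36) A16 B36)
    (d.qt (d.qt QT.nil))
    (I'.dk H.toGD (fun _ => H) K le_rfl h17 (by decide) p8aZs_Dm2500_115_220_0 rfl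
      (d.dt H.toGD DT.nil) A10)
    (I.qt O.GD (fun _ => O.HD) o8aZs_Qp2500_115_220_0 o8aZs_Qm2500_115_220_0 rfl
      (I.qt O.GD (fun _ => O.HD) o8aZs_Qp2700_0_0_0 o8aZs_Qm2700_0_0_0 rfl QT.nil A16 B36) A16 B36)
    (by decide) (by decide) O.hys O.hxs hx'

end RC

end Pool.Agent.Work.MP_b30479_gtS.G2

end

section

/-!
# Rings on the level part: pairs of hinges
-/

namespace Pool.Agent.Work.MP_b30479_gtS.G2

open Real Set

namespace RC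

open R6

theorem pr8b2 {xs ys T ρ xs' T' : ℝ} (O : OneB xs ys T ρ) (I : o8b2.In T ρ xs ys)
    (H : HD xs' ys T' ρ (125 / 1000) (30 / 100)) (l : LH xs' ys T' ρ (125 / 1000) (30 / 100))
    (d : DnG xs' T' (125 / 1000) (30 / 100) ys ρ) (I' : p8b2.In T' ρ xs' ys)
    (hx' : xs' ∈ Icc (125 / 1000) (30 / 100)) :
    Pr ys ρ xs T (16 / 100) (36 / 100) (fun _ => 0) (fun _ => 0) xs' T' (125 / 1000) (30 / 100)
      (fun _ => 0) (fun _ => 0) :=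
  Pr.of (tab := [⟨2500, 2700, 0, 0, 0, 0, 0⟩, ⟨2700, 5000, 0, 0, 0, 0, 0⟩])
    (tab' := [⟨2500, 2700, 100, 180, 0, 0, 0⟩, ⟨2700, 5000, 0, 0, 0, 0, 0⟩])
    (O.LF I o8b2_Wa o8b2_Wb hf0) (l.toF hz0 hz0 (by norm_num) (by norm_num))
    (I.dt O.GD (fun _ => O.HD) o8b2_Dp2500_0_0_0 o8b2_Dm2500_0_0_0 rfl hf0 hf0
      (I.dt0 O.GD (fun _ => O.HD) o8b2_Qp2700_0_0_0 o8b2_Qm2700_0_0_0 rfl DT.nil A16 B36) A16 B36)
    (d.qt (d.qt QT.nil))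
    (I'.dt H.toGD (fun _ => H) p8b2_Dp2500_100_180_0 p8b2_Dm2500_100_180_0 rfl hf0 hf0
      (d.dt H.toGD DT.nil) A12 B30)
    (I.qt O.GD (fun _ => O.HD) o8b2_Qp2500_100_180_0 o8b2_Qm2500_100_180_0 rfl
      (I.qt O.GD (fun _ => O.HD) o8b2_Qp2700_0_0_0 o8b2_Qm2700_0_0_0 rfl QT.nil A16 B36) A16 B36)
    (by decide) (by decide) O.hys O.hxs hx'

theorem pr8b2e {xs ys T ρ xs' T' : ℝ} (O : OneB xs ys T ρ) (I : o8b2e.In T ρ xs ys)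
    (H : HD xs' ys T' ρ (125 / 1000) (30 / 100)) (l : LH xs' ys T' ρ (125 / 1000) (30 / 100))
    (d : DnG xs' T' (125 / 1000) (30 / 100) ys ρ) (I' : p8b2e.In T' ρ xs' ys)
    (hx' : xs' ∈ Icc (125 / 1000) (30 / 100)) :
    Pr ys ρ xs T (16 / 100) (36 / 100) (fun _ => 0) (fun _ => 0) xs' T' (125 / 1000) (30 / 100)
      (fun _ => 0) (fun _ => 0) :=
  Pr.of (tab := [⟨2500, 2700, 0, 0, 0, 0, 0⟩, ⟨2700, 5000, 0, 0, 0, 0, 0⟩])
    (tab' := [⟨2500, 2700, 100, 180, 0, 0, 0⟩, ⟨2700, 5000, 0, 0, 0, 0, 0⟩])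
    (O.LF I o8b2e_Wa o8b2e_Wb hf0) (l.toF hz0 hz0 (by norm_num) (by norm_num))
    (I.dt O.GD (fun _ => O.HD) o8b2e_Dp2500_0_0_0 o8b2e_Dm2500_0_0_0 rfl hf0 hf0
      (I.dt0 O.GD (fun _ => O.HD) o8b2e_Qp2700_0_0_0 o8b2e_Qm2700_0_0_0 rfl DT.nil A16 B36) A16 B36)
    (d.qt (d.qt QT.nil))
    (I'.dt H.toGD (fun _ => H) p8b2e_Dp2500_100_180_0 p8b2e_Dm2500_100_180_0 rfl hf0 hf0
      (d.dt H.toGD DT.nil) A12 B30)
    (I.qt O.GD (fun _ => O.HD) o8b2e_Qp2500_100_180_0 o8b2e_Qm2500_100_180_0 rfl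
      (I.qt O.GD (fun _ => O.HD) o8b2e_Qp2700_0_0_0 o8b2e_Qm2700_0_0_0 rfl QT.nil A16 B36) A16 B36)
    (by decide) (by decide) O.hys O.hxs hx'

theorem pr8b3 {xs ys T ρ xs' T' : ℝ} (O : OneB xs ys T ρ) (I : o8b3.In T ρ xs ys)
    (H : HD xs' ys T' ρ (12 / 100) (30 / 100)) (l : LH xs' ys T' ρ (12 / 100) (30 / 100))
    (d : DnG xs' T' (12 / 100) (30 / 100) ys ρ) (I' : p8b3.In T' ρ xs' ys)
    (hx' : xs' ∈ Icc (12 / 100) (30 / 100)) :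
    Pr ys ρ xs T (16 / 100) (36 / 100) (fun _ => 0) (fun _ => 0) xs' T' (12 / 100) (30 / 100)
      (fun _ => 0) (fun _ => 0) :=
  Pr.of (tab := [⟨2500, 2700, 0, 0, 0, 0, 0⟩, ⟨2700, 5000, 0, 0, 0, 0, 0⟩])
    (tab' := [⟨2500, 2700, 90, 180, 0, 0, 0⟩, ⟨2700, 5000, 0, 0, 0, 0, 0⟩])
    (O.LF I o8b3_Wa o8b3_Wb hf0) (l.toF hz0 hz0 (by norm_num) (by norm_num))
    (I.dt O.GD (fun _ => O.HD) o8b3_Dp2500_0_0_0 o8b3_Dm2500_0_0_0 rfl hf0 hf0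
      (I.dt0 O.GD (fun _ => O.HD) o8b3_Qp2700_0_0_0 o8b3_Qm2700_0_0_0 rfl DT.nil A16 B36) A16 B36)
    (d.qt (d.qt QT.nil))
    (I'.dt H.toGD (fun _ => H) p8b3_Dp2500_90_180_0 p8b3_Dm2500_90_180_0 rfl hf0 hf0
      (d.dt H.toGD DT.nil) A120 B30)
    (I.qt O.GD (fun _ => O.HD) o8b3_Qp2500_90_180_0 o8b3_Qm2500_90_180_0 rfl
      (I.qt O.GD (fun _ => O.HD) o8b3_Qp2700_0_0_0 o8b3_Qm2700_0_0_0 rfl QT.nil A16 B36) A16 B36)
    (by decide) (by decide) O.hys O.hxs hx'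

theorem pr8b3e {xs ys T ρ xs' T' : ℝ} (O : OneB xs ys T ρ) (I : o8b3e.In T ρ xs ys)
    (H : HD xs' ys T' ρ (10 / 100) (26 / 100)) (l : LH xs' ys T' ρ (10 / 100) (26 / 100))
    (d : DnG xs' T' (10 / 100) (26 / 100) ys ρ) (I' : p8b3e.In T' ρ xs' ys)
    (hx' : xs' ∈ Icc (10 / 100) (26 / 100)) :
    Pr ys ρ xs T (16 / 100) (36 / 100) (fun _ => 0) (fun _ => 0) xs' T' (10 / 100) (26 / 100)
      (fun _ => 0) (fun _ => 0) :=
  Pr.of (tab := [⟨2500, 2700, 0, 0, 0, 0, 0⟩, ⟨2700, 5000, 0, 0, 0, 0, 0⟩])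
    (tab' := [⟨2500, 2700, 115, 150, 0, 0, 0⟩, ⟨2700, 5000, 0, 0, 0, 0, 0⟩])
    (O.LF I o8b3e_Wa o8b3e_Wb hf0) (l.toF hz0 hz0 (by norm_num) (by norm_num))
    (I.dt O.GD (fun _ => O.HD) o8b3e_Dp2500_0_0_0 o8b3e_Dm2500_0_0_0 rfl hf0 hf0
      (I.dt0 O.GD (fun _ => O.HD) o8b3e_Qp2700_0_0_0 o8b3e_Qm2700_0_0_0 rfl DT.nil A16 B36) A16 B36)
    (d.qt (d.qt QT.nil))
    (I'.dt H.toGD (fun _ => H) p8b3e_Dp2500_115_150_0 p8b3e_Dm2500_115_150_0 rfl hf0 hf0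
      (d.dt H.toGD DT.nil) A10 B26)
    (I.qt O.GD (fun _ => O.HD) o8b3e_Qp2500_115_150_0 o8b3e_Qm2500_115_150_0 rfl
      (I.qt O.GD (fun _ => O.HD) o8b3e_Qp2700_0_0_0 o8b3e_Qm2700_0_0_0 rfl QT.nil A16 B36) A16 B36)
    (by decide) (by decide) O.hys O.hxs hx'

theorem pr8bZ {xs ys T ρ xs' T' : ℝ} (O : OneB xs ys T ρ) (I : o8bZ.In T ρ xs ys)
    (H : HD xs' ys T' ρ (10 / 100) (27 / 100)) (l : LH xs' ys T' ρ (10 / 100) (27 / 100))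
    (d : DnG xs' T' (10 / 100) (27 / 100) ys ρ) (I' : p8bZ.In T' ρ xs' ys)
    (hx' : xs' ∈ Icc (10 / 100) (27 / 100)) (K : Kap xs' ys T' ρ (27 / 100)) (h17 : 17 / 100 ≤ xs')
    :
    Pr ys ρ xs T (16 / 100) (36 / 100) (fun _ => 0) (fun _ => 0) xs' T' (10 / 100) (27 / 100)
      (fun _ => 0) (fun _ => 0) :=
  Pr.of (tab := [⟨2500, 2700, 0, 0, 0, 0, 0⟩, ⟨2700, 5000, 0, 0, 0, 0, 0⟩])
    (tab' := [⟨2500, 2700, 90, 180, 0, 0, 0⟩, ⟨2700, 5000, 0, 0, 0, 0, 0⟩])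
    (O.LF I o8bZ_Wa o8bZ_Wb hf0) (l.toF hz0 hz0 (by norm_num) (by norm_num))
    (I.dt O.GD (fun _ => O.HD) o8bZ_Dp2500_0_0_0 o8bZ_Dm2500_0_0_0 rfl hf0 hf0
      (I.dt0 O.GD (fun _ => O.HD) o8bZ_Qp2700_0_0_0 o8bZ_Qm2700_0_0_0 rfl DT.nil A16 B36) A16 B36)
    (d.qt (d.qt QT.nil))
    (I'.dk H.toGD (fun _ => H) K le_rfl h17 (by decide) p8bZ_Dm2500_90_180_0 rfl
      (d.dt H.toGD DT.nil) A10)
    (I.qt O.GD (fun _ => O.HD) o8bZ_Qp2500_90_180_0 o8bZ_Qm2500_90_180_0 rfl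
      (I.qt O.GD (fun _ => O.HD) o8bZ_Qp2700_0_0_0 o8bZ_Qm2700_0_0_0 rfl QT.nil A16 B36) A16 B36)
    (by decide) (by decide) O.hys O.hxs hx'

theorem pr8bZs {xs ys T ρ xs' T' : ℝ} (O : OneB xs ys T ρ) (I : o8bZs.In T ρ xs ys)
    (H : HD xs' ys T' ρ (10 / 100) (27 / 100)) (l : LH xs' ys T' ρ (10 / 100) (27 / 100))
    (d : DnG xs' T' (10 / 100) (27 / 100) ys ρ) (I' : p8bZs.In T' ρ xs' ys)
    (hx' : xs' ∈ Icc (10 / 100) (27 / 100)) (K : Kap xs' ys T' ρ (27 / 100)) (h17 : 17 / 100 ≤ xs')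
    :
    Pr ys ρ xs T (16 / 100) (36 / 100) (fun _ => 0) (fun _ => 0) xs' T' (10 / 100) (27 / 100)
      (fun _ => 0) (fun _ => 0) :=
  Pr.of (tab := [⟨2500, 2700, 0, 0, 0, 0, 0⟩, ⟨2700, 5000, 0, 0, 0, 0, 0⟩])
    (tab' := [⟨2500, 2700, 90, 150, 0, 0, 0⟩, ⟨2700, 5000, 0, 0, 0, 0, 0⟩])
    (O.LF I o8bZs_Wa o8bZs_Wb hf0) (l.toF hz0 hz0 (by norm_num) (by norm_num))
    (I.dt O.GD (fun _ => O.HD) o8bZs_Dp2500_0_0_0 o8bZs_Dm2500_0_0_0 rfl hf0 hf0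
      (I.dt0 O.GD (fun _ => O.HD) o8bZs_Qp2700_0_0_0 o8bZs_Qm2700_0_0_0 rfl DT.nil A16 B36) A16 B36)
    (d.qt (d.qt QT.nil))
    (I'.dk H.toGD (fun _ => H) K le_rfl h17 (by decide) p8bZs_Dm2500_90_150_0 rfl
      (d.dt H.toGD DT.nil) A10)
    (I.qt O.GD (fun _ => O.HD) o8bZs_Qp2500_90_150_0 o8bZs_Qm2500_90_150_0 rfl
      (I.qt O.GD (fun _ => O.HD) o8bZs_Qp2700_0_0_0 o8bZs_Qm2700_0_0_0 rfl QT.nil A16 B36) A16 B36)
    (by decide) (by decide) O.hys O.hxs hx'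

end RC

end Pool.Agent.Work.MP_b30479_gtS.G2

end

section

/-!
# Rings on the level part: pairs of hinges
-/

namespace Pool.Agent.Work.MP_b30479_gtS.G2

open Real Set

namespace RC

open R6

theorem pr8c2 {xs ys T ρ xs' T' : ℝ} (O : OneB xs ys T ρ) (I : o8c2.In T ρ xs ys)
    (H : HD xs' ys T' ρ (125 / 1000) (30 / 100)) (l : LH xs' ys T' ρ (125 / 1000) (30 / 100))
    (d : DnG xs' T' (125 / 1000) (30 / 100) ys ρ)
    (hx' : xs' ∈ Icc (125 / 1000) (30 / 100)) :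
    Pr ys ρ xs T (16 / 100) (36 / 100) (fun _ => 0) (fun _ => 0) xs' T' (125 / 1000) (30 / 100)
      (fun _ => 0) (fun _ => 0) :=
  Pr.of (tab := [⟨2500, 5000, 0, 0, 0, 0, 0⟩])
    (tab' := [⟨2500, 5000, 0, 0, 0, 0, 0⟩])
    (O.LF I o8c2_Wa o8c2_Wb hf0) (l.toF hz0 hz0 (by norm_num) (by norm_num))
    (I.dt0 O.GD (fun _ => O.HD) o8c2_Qp2500_0_0_0 o8c2_Qm2500_0_0_0 rfl DT.nil A16 B36)
    (d.qt QT.nil)
    (d.dt H.toGD DT.nil)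
    (I.qt O.GD (fun _ => O.HD) o8c2_Qp2500_0_0_0 o8c2_Qm2500_0_0_0 rfl QT.nil A16 B36)
    (by decide) (by decide) O.hys O.hxs hx'

theorem pr8c2e {xs ys T ρ xs' T' : ℝ} (O : OneB xs ys T ρ) (I : o8c2e.In T ρ xs ys)
    (H : HD xs' ys T' ρ (125 / 1000) (30 / 100)) (l : LH xs' ys T' ρ (125 / 1000) (30 / 100))
    (d : DnG xs' T' (125 / 1000) (30 / 100) ys ρ)
    (hx' : xs' ∈ Icc (125 / 1000) (30 / 100)) :
    Pr ys ρ xs T (16 / 100) (36 / 100) (fun _ => 0) (fun _ => 0) xs' T' (125 / 1000) (30 / 100)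
      (fun _ => 0) (fun _ => 0) :=
  Pr.of (tab := [⟨2500, 5000, 0, 0, 0, 0, 0⟩])
    (tab' := [⟨2500, 5000, 0, 0, 0, 0, 0⟩])
    (O.LF I o8c2e_Wa o8c2e_Wb hf0) (l.toF hz0 hz0 (by norm_num) (by norm_num))
    (I.dt0 O.GD (fun _ => O.HD) o8c2e_Qp2500_0_0_0 o8c2e_Qm2500_0_0_0 rfl DT.nil A16 B36)
    (d.qt QT.nil)
    (d.dt H.toGD DT.nil)
    (I.qt O.GD (fun _ => O.HD) o8c2e_Qp2500_0_0_0 o8c2e_Qm2500_0_0_0 rfl QT.nil A16 B36)
    (by decide) (by decide) O.hys O.hxs hx'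

theorem pr8c3 {xs ys T ρ xs' T' : ℝ} (O : OneB xs ys T ρ) (I : o8c3.In T ρ xs ys)
    (H : HD xs' ys T' ρ (12 / 100) (30 / 100)) (l : LH xs' ys T' ρ (12 / 100) (30 / 100))
    (d : DnG xs' T' (12 / 100) (30 / 100) ys ρ)
    (hx' : xs' ∈ Icc (12 / 100) (30 / 100)) :
    Pr ys ρ xs T (16 / 100) (36 / 100) (fun _ => 0) (fun _ => 0) xs' T' (12 / 100) (30 / 100)
      (fun _ => 0) (fun _ => 0) :=
  Pr.of (tab := [⟨2500, 5000, 0, 0, 0, 0, 0⟩])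
    (tab' := [⟨2500, 5000, 0, 0, 0, 0, 0⟩])
    (O.LF I o8c3_Wa o8c3_Wb hf0) (l.toF hz0 hz0 (by norm_num) (by norm_num))
    (I.dt0 O.GD (fun _ => O.HD) o8c3_Qp2500_0_0_0 o8c3_Qm2500_0_0_0 rfl DT.nil A16 B36)
    (d.qt QT.nil)
    (d.dt H.toGD DT.nil)
    (I.qt O.GD (fun _ => O.HD) o8c3_Qp2500_0_0_0 o8c3_Qm2500_0_0_0 rfl QT.nil A16 B36)
    (by decide) (by decide) O.hys O.hxs hx'

theorem pr8c3e {xs ys T ρ xs' T' : ℝ} (O : OneB xs ys T ρ) (I : o8c3e.In T ρ xs ys)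
    (H : HD xs' ys T' ρ (10 / 100) (26 / 100)) (l : LH xs' ys T' ρ (10 / 100) (26 / 100))
    (d : DnG xs' T' (10 / 100) (26 / 100) ys ρ)
    (hx' : xs' ∈ Icc (10 / 100) (26 / 100)) :
    Pr ys ρ xs T (16 / 100) (36 / 100) (fun _ => 0) (fun _ => 0) xs' T' (10 / 100) (26 / 100)
      (fun _ => 0) (fun _ => 0) :=
  Pr.of (tab := [⟨2500, 5000, 0, 0, 0, 0, 0⟩])
    (tab' := [⟨2500, 5000, 0, 0, 0, 0, 0⟩])
    (O.LF I o8c3e_Wa o8c3e_Wb hf0) (l.toF hz0 hz0 (by norm_num) (by norm_num))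
    (I.dt0 O.GD (fun _ => O.HD) o8c3e_Qp2500_0_0_0 o8c3e_Qm2500_0_0_0 rfl DT.nil A16 B36)
    (d.qt QT.nil)
    (d.dt H.toGD DT.nil)
    (I.qt O.GD (fun _ => O.HD) o8c3e_Qp2500_0_0_0 o8c3e_Qm2500_0_0_0 rfl QT.nil A16 B36)
    (by decide) (by decide) O.hys O.hxs hx'

theorem pr8cZ {xs ys T ρ xs' T' : ℝ} (O : OneB xs ys T ρ) (I : o8cZ.In T ρ xs ys)
    (H : HD xs' ys T' ρ (10 / 100) (27 / 100)) (l : LH xs' ys T' ρ (10 / 100) (27 / 100))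
    (d : DnG xs' T' (10 / 100) (27 / 100) ys ρ)
    (hx' : xs' ∈ Icc (10 / 100) (27 / 100)) :
    Pr ys ρ xs T (16 / 100) (36 / 100) (fun _ => 0) (fun _ => 0) xs' T' (10 / 100) (27 / 100)
      (fun _ => 0) (fun _ => 0) :=
  Pr.of (tab := [⟨2500, 5000, 0, 0, 0, 0, 0⟩])
    (tab' := [⟨2500, 5000, 0, 0, 0, 0, 0⟩])
    (O.LF I o8cZ_Wa o8cZ_Wb hf0) (l.toF hz0 hz0 (by norm_num) (by norm_num))
    (I.dt0 O.GD (fun _ => O.HD) o8cZ_Qp2500_0_0_0 o8cZ_Qm2500_0_0_0 rfl DT.nil A16 B36)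
    (d.qt QT.nil)
    (d.dt H.toGD DT.nil)
    (I.qt O.GD (fun _ => O.HD) o8cZ_Qp2500_0_0_0 o8cZ_Qm2500_0_0_0 rfl QT.nil A16 B36)
    (by decide) (by decide) O.hys O.hxs hx'

theorem pr8cZs {xs ys T ρ xs' T' : ℝ} (O : OneB xs ys T ρ) (I : o8cZs.In T ρ xs ys)
    (H : HD xs' ys T' ρ (10 / 100) (27 / 100)) (l : LH xs' ys T' ρ (10 / 100) (27 / 100))
    (d : DnG xs' T' (10 / 100) (27 / 100) ys ρ)
    (hx' : xs' ∈ Icc (10 / 100) (27 / 100)) :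
    Pr ys ρ xs T (16 / 100) (36 / 100) (fun _ => 0) (fun _ => 0) xs' T' (10 / 100) (27 / 100)
      (fun _ => 0) (fun _ => 0) :=
  Pr.of (tab := [⟨2500, 5000, 0, 0, 0, 0, 0⟩])
    (tab' := [⟨2500, 5000, 0, 0, 0, 0, 0⟩])
    (O.LF I o8cZs_Wa o8cZs_Wb hf0) (l.toF hz0 hz0 (by norm_num) (by norm_num))
    (I.dt0 O.GD (fun _ => O.HD) o8cZs_Qp2500_0_0_0 o8cZs_Qm2500_0_0_0 rfl DT.nil A16 B36)
    (d.qt QT.nil)
    (d.dt H.toGD DT.nil)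
    (I.qt O.GD (fun _ => O.HD) o8cZs_Qp2500_0_0_0 o8cZs_Qm2500_0_0_0 rfl QT.nil A16 B36)
    (by decide) (by decide) O.hys O.hxs hx'

end RC

end Pool.Agent.Work.MP_b30479_gtS.G2

end

section

/-!
# Rings on the level part: the pairs of hinges by class
-/

namespace Pool.Agent.Work.MP_b30479_gtS.G2

open Finset VOL Filter Topology

namespace SR

/-- **A ring between a digit `1` and a class `k`, the pair of hinges.** -/
theorem pm6a {xs ys T ρ xs' T' : ℝ} {k : Cl} {s : Bool}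
    (hk : k ≠ .one)
    (q : (rq6 .one k s).Re xs ys T ρ)
    (r : (rp6 .one k s).Re xs' ys T' ρ)
    (D : Lo k xs' ys T' ρ)
    (KZ : k = .ring → |T'| ≤ 47 / 1000)
    (hx : xs' ∈ Set.Icc (fcl k) (fcp k)) :
    PrS 6 .one k xs ys T ρ xs' T' := by
  cases k
  · exact absurd rfl hk
  · have q0 : (mk4 2241 2787 1185 1496 909 1533 179 472 (-1164) (-569) 4121 3942).Re xs ys T ρ := q
    have r0 : (mk4 1995 2558 1185 1496 610 1174 179 472 (-852) (-278) 3896 3717).Re xs' ys T' ρ := r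
    have O := q0.oneB RC.Row.cH6 (by decide)
    have I : RC.o6a2.In T ρ xs ys := wd4_in q0 (by decide)
    have J : RC.p6a2.In T' ρ xs' ys := wd4_in r0 (by decide)
    obtain ⟨H, l, d⟩ := D
    exact ⟨_, _, Or.inl rfl, Or.inl rfl, RC.pr6a2 O I H l d J hx⟩
  · have q0 : (mk4 2226 2765 1214 1491 858 1471 123 394 (-1164) (-583) 4099 3976).Re xs ys T ρ := q
    have r0 : (mk4 1626 1871 1214 1491 1267 1534 123 394 (-1268) (-1020) 3241 3118).Re xs' ys T' ρ := r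
    have O := q0.oneB RC.Row.cH6 (by decide)
    have I : RC.o6a2e.In T ρ xs ys := wd4_in q0 (by decide)
    have J : RC.p6a2e.In T' ρ xs' ys := wd4_in r0 (by decide)
    obtain ⟨H, l, d⟩ := D
    exact ⟨_, _, Or.inl rfl, Or.inl rfl, RC.pr6a2e O I H l d J hx⟩
  · have q0 : (mk4 2245 2786 1222 1514 918 1528 201 479 (-1144) (-565) 4134 3933).Re xs ys T ρ := q
    have r0 : (mk4 1973 2357 1222 1514 472 870 201 479 (-525) (-126) 3731 3530).Re xs' ys T' ρ := r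
    have O := q0.oneB RC.Row.cH6 (by decide)
    have I : RC.o6a3.In T ρ xs ys := wd4_in q0 (by decide)
    have J : RC.p6a3.In T' ρ xs' ys := wd4_in r0 (by decide)
    obtain ⟨H, l, d⟩ := D
    exact ⟨_, _, Or.inl rfl, Or.inl rfl, RC.pr6a3 O I H l d J hx⟩
  · have q0 : (mk4 2234 2753 1247 1522 894 1501 172 447 (-1142) (-567) 4119 3947).Re xs ys T ρ := q
    have r0 : (mk4 1751 1995 1247 1522 612 881 172 447 (-562) (-315) 3396 3224).Re xs' ys T' ρ := r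
    have O := q0.oneB RC.Row.cH6 (by decide)
    have I : RC.o6a3e.In T ρ xs ys := wd4_in q0 (by decide)
    have J : RC.p6a3e.In T' ρ xs' ys := wd4_in r0 (by decide)
    obtain ⟨H, l, d⟩ := D
    exact ⟨_, _, Or.inl rfl, Or.inl rfl, RC.pr6a3e O I H l d J hx⟩
  · cases s
    · have q0 : (mk4 2245 2795 1239 1536 918 1573 203 532 (-1139) (-552) 4170 3967).Re xs ys T ρ := q
      have r0 : (mk4 1896 2471 1239 1536 170 715 203 532 (-352) 214 3875 3672).Re xs' ys T' ρ := r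
      have O := q0.oneB RC.Row.cH6 (by decide)
      have I : RC.o6aZ.In T ρ xs ys := wd4_in q0 (by decide)
      have J : RC.p6aZ.In T' ρ xs' ys := wd4_in r0 (by decide)
      have K := r0.kap (by decide) (KZ rfl)
      obtain ⟨H, l, d⟩ := D
      exact ⟨_, _, Or.inl rfl, Or.inl rfl, RC.pr6aZ O I H l d J hx K.1 K.2⟩
    · have q0 : (mk4 2246 2793 1255 1582 935 1569 225 532 (-1135) (-540) 4198 3973).Re xs ys T ρ := q
      have r0 : (mk4 1844 2470 1255 1582 (-107) 436 225 532 (-33) 489 3875 3650).Re xs' ys T' ρ := r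
      have O := q0.oneB RC.Row.cH6 (by decide)
      have I : RC.o6aZs.In T ρ xs ys := wd4_in q0 (by decide)
      have J : RC.p6aZs.In T' ρ xs' ys := wd4_in r0 (by decide)
      have K := r0.kap (by decide) (KZ rfl)
      obtain ⟨H, l, d⟩ := D
      exact ⟨_, _, Or.inl rfl, Or.inl rfl, RC.pr6aZs O I H l d J hx K.1 K.2⟩

end SR

end Pool.Agent.Work.MP_b30479_gtS.G2

end

section

/-!
# Rings on the level part: the pairs of hinges by class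
-/

namespace Pool.Agent.Work.MP_b30479_gtS.G2

open Finset VOL Filter Topology

namespace SR

/-- **A ring between a digit `1` and a class `k`, the pair of hinges.** -/
theorem pm7b {xs ys T ρ xs' T' : ℝ} {k : Cl} {s : Bool}
    (hk : k ≠ .one)
    (q : (rc7 .two).Re xs ys T ρ)
    (r : P7 rd7 k s xs' ys T' ρ)
    (D : Lo k xs' ys T' ρ)
    (KZ : k = .ring → |T'| ≤ 47 / 1000)
    (hx : xs' ∈ Set.Icc (fcl k) (fcp k)) :
    PrS 7 .two k xs ys T ρ xs' T' := by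
  cases k
  · exact absurd rfl hk
  · have q9 : (mk4 2560 2930 1051 1348 1120 1689 127 379 (-1310) (-950) 4210 4083).Re xs ys T ρ := q
    have r9 : (mk4 1985 2510 1065 1330 560 1254 135 394 (-860) (-375) 3810 3675).Re xs' ys T' ρ := r.1 (by decide)
    have q0 : (mk4 2560 2930 1065 1330 1120 1689 135 379 (-1310) (-950) 4210 4083).Re xs ys T ρ := q9.int r9 (by decide)
    have r0 : (mk4 1985 2510 1065 1330 560 1254 135 379 (-860) (-375) 3810 3675).Re xs' ys T' ρ := r9.int q9 (by decide)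
    have O := q0.oneB RC.Row.cH8 (by decide)
    have I : RC.o7b2.In T ρ xs ys := wd4_in q0 (by decide)
    have J : RC.p7b2.In T' ρ xs' ys := wd4_in r0 (by decide)
    obtain ⟨H, l, d⟩ := D
    exact ⟨_, _, Or.inl rfl, Or.inl rfl, RC.pr7b2 O I H l d J hx⟩
  · have q9 : (mk4 2560 2930 1051 1348 1120 1689 127 379 (-1310) (-950) 4210 4083).Re xs ys T ρ := q
    have r9 : (mk4 1705 1795 1089 1297 1245 1528 104 308 (-1220) (-1130) 3080 2976).Re xs' ys T' ρ := r.1 (by decide)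
    have q0 : (mk4 2560 2930 1089 1297 1120 1689 127 308 (-1310) (-950) 4210 4083).Re xs ys T ρ := q9.int r9 (by decide)
    have r0 : (mk4 1705 1795 1089 1297 1245 1528 127 308 (-1220) (-1130) 3080 2976).Re xs' ys T' ρ := r9.int q9 (by decide)
    have O := q0.oneB RC.Row.cH8 (by decide)
    have I : RC.o7b2e.In T ρ xs ys := wd4_in q0 (by decide)
    have J : RC.p7b2e.In T' ρ xs' ys := wd4_in r0 (by decide)
    obtain ⟨H, l, d⟩ := D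
    exact ⟨_, _, Or.inl rfl, Or.inl rfl, RC.pr7b2e O I H l d J hx⟩
  · have q9 : (mk4 2560 2930 1051 1348 1120 1689 127 379 (-1310) (-950) 4210 4083).Re xs ys T ρ := q
    have r9 : (mk4 2030 2300 1112 1344 385 876 156 391 (-485) (-185) 3615 3459).Re xs' ys T' ρ := r.1 (by decide)
    have q0 : (mk4 2560 2930 1112 1344 1120 1689 156 379 (-1310) (-950) 4210 4083).Re xs ys T ρ := q9.int r9 (by decide)
    have r0 : (mk4 2030 2300 1112 1344 385 876 156 379 (-485) (-185) 3615 3459).Re xs' ys T' ρ := r9.int q9 (by decide)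
    have O := q0.oneB RC.Row.cH8 (by decide)
    have I : RC.o7b3.In T ρ xs ys := wd4_in q0 (by decide)
    have J : RC.p7b3.In T' ρ xs' ys := wd4_in r0 (by decide)
    obtain ⟨H, l, d⟩ := D
    exact ⟨_, _, Or.inl rfl, Or.inl rfl, RC.pr7b3 O I H l d J hx⟩
  · have q9 : (mk4 2560 2930 1051 1348 1120 1689 127 379 (-1310) (-950) 4210 4083).Re xs ys T ρ := q
    have r9 : (mk4 1840 1925 1133 1332 585 855 142 345 (-510) (-425) 3240 3098).Re xs' ys T' ρ := r.1 (by decide)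
    have q0 : (mk4 2560 2930 1133 1332 1120 1689 142 345 (-1310) (-950) 4210 4083).Re xs ys T ρ := q9.int r9 (by decide)
    have r0 : (mk4 1840 1925 1133 1332 585 855 142 345 (-510) (-425) 3240 3098).Re xs' ys T' ρ := r9.int q9 (by decide)
    have O := q0.oneB RC.Row.cH8 (by decide)
    have I : RC.o7b3e.In T ρ xs ys := wd4_in q0 (by decide)
    have J : RC.p7b3e.In T' ρ xs' ys := wd4_in r0 (by decide)
    obtain ⟨H, l, d⟩ := D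
    exact ⟨_, _, Or.inl rfl, Or.inl rfl, RC.pr7b3e O I H l d J hx⟩
  · cases s
    · have q9 : (mk4 2560 2930 1051 1348 1120 1689 127 379 (-1310) (-950) 4210 4083).Re xs ys T ρ := q
      have q0 : (mk4 2560 2930 1051 1348 1120 1689 127 379 (-1310) (-950) 4210 4083).Re xs ys T ρ := q9
      have r0 : (mk4 1820 2520 1051 1348 (-258) 764 127 379 (-385) 385 3868 3868).Re xs' ys T' ρ := Rg.re q9 (r.2 rfl) (by decide)
      have O := q0.oneB RC.Row.cH8 (by decide)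
      have I : RC.o7bZ.In T ρ xs ys := wd4_in q0 (by decide)
      have J : RC.p7bZ.In T' ρ xs' ys := wd4_in r0 (by decide)
      have K := r0.kap (by decide) (KZ rfl)
      obtain ⟨H, l, d⟩ := D
      exact ⟨_, _, Or.inl rfl, Or.inl rfl, RC.pr7bZ O I H l d J hx K.1 K.2⟩
    · have q9 : (mk4 2560 2930 1051 1348 1120 1689 127 379 (-1310) (-950) 4210 4083).Re xs ys T ρ := q
      have q0 : (mk4 2560 2930 1051 1348 1120 1689 127 379 (-1310) (-950) 4210 4083).Re xs ys T ρ := q9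
      have r0 : (mk4 1700 2520 1051 1348 (-338) 389 127 379 (-10) 465 3868 3868).Re xs' ys T' ρ := Rg.re q9 (r.2 rfl) (by decide)
      have O := q0.oneB RC.Row.cH8 (by decide)
      have I : RC.o7bZs.In T ρ xs ys := wd4_in q0 (by decide)
      have J : RC.p7bZs.In T' ρ xs' ys := wd4_in r0 (by decide)
      have K := r0.kap (by decide) (KZ rfl)
      obtain ⟨H, l, d⟩ := D
      exact ⟨_, _, Or.inl rfl, Or.inl rfl, RC.pr7bZs O I H l d J hx K.1 K.2⟩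

end SR

end Pool.Agent.Work.MP_b30479_gtS.G2

end

section

/-!
# Rings on the level part: the pairs of hinges by class
-/

namespace Pool.Agent.Work.MP_b30479_gtS.G2

open Finset VOL Filter Topology

namespace SR

/-- **A ring between a digit `1` and a class `k`, the pair of hinges.** -/
theorem pm8a {xs ys T ρ xs' T' : ℝ} {k : Cl} {s : Bool}
    (hk : k ≠ .one)
    (q : (rc8 .one).Re xs ys T ρ)
    (r : P7 rd8 k s xs' ys T' ρ)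
    (D : Lo k xs' ys T' ρ)
    (KZ : k = .ring → |T'| ≤ 47 / 1000)
    (hx : xs' ∈ Set.Icc (fcl k) (fcp k)) :
    PrS 8 .one k xs ys T ρ xs' T' := by
  cases k
  · exact absurd rfl hk
  · have q9 : (mk4 2185 2770 0 1291 685 1710 0 360 (-1350) (-685) 3960 3960).Re xs ys T ρ := q
    have r9 : (mk4 1975 2525 0 1250 400 1305 0 355 (-950) (-400) 3770 3770).Re xs' ys T' ρ := r.1 (by decide)
    have q0 : (mk4 2185 2770 0 1250 685 1710 0 355 (-1350) (-685) 3960 3960).Re xs ys T ρ := q9.int r9 (by decide)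
    have r0 : (mk4 1975 2525 0 1250 400 1305 0 355 (-950) (-400) 3770 3770).Re xs' ys T' ρ := r9.int q9 (by decide)
    have O := q0.oneB RC.Row.cH8 (by decide)
    have I : RC.o8a2.In T ρ xs ys := wd4_in q0 (by decide)
    obtain ⟨H, l, d⟩ := D
    exact ⟨_, _, Or.inl rfl, Or.inl rfl, RC.pr8a2 O I H l d hx⟩
  · have q9 : (mk4 2185 2770 0 1291 685 1710 0 360 (-1350) (-685) 3960 3960).Re xs ys T ρ := q
    have r9 : (mk4 1695 1795 0 1250 1145 1577 0 277 (-1300) (-1145) 3030 3030).Re xs' ys T' ρ := r.1 (by decide)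
    have q0 : (mk4 2185 2770 0 1250 685 1710 0 277 (-1350) (-685) 3960 3960).Re xs ys T ρ := q9.int r9 (by decide)
    have r0 : (mk4 1695 1795 0 1250 1145 1577 0 277 (-1300) (-1145) 3030 3030).Re xs' ys T' ρ := r9.int q9 (by decide)
    have O := q0.oneB RC.Row.cH8 (by decide)
    have I : RC.o8a2e.In T ρ xs ys := wd4_in q0 (by decide)
    obtain ⟨H, l, d⟩ := D
    exact ⟨_, _, Or.inl rfl, Or.inl rfl, RC.pr8a2e O I H l d hx⟩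
  · have q9 : (mk4 2185 2770 0 1291 685 1710 0 360 (-1350) (-685) 3960 3960).Re xs ys T ρ := q
    have r9 : (mk4 2025 2335 0 1250 205 907 0 352 (-555) (-205) 3560 3560).Re xs' ys T' ρ := r.1 (by decide)
    have q0 : (mk4 2185 2770 0 1250 685 1710 0 352 (-1350) (-685) 3960 3960).Re xs ys T ρ := q9.int r9 (by decide)
    have r0 : (mk4 2025 2335 0 1250 205 907 0 352 (-555) (-205) 3560 3560).Re xs' ys T' ρ := r9.int q9 (by decide)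
    have O := q0.oneB RC.Row.cH8 (by decide)
    have I : RC.o8a3.In T ρ xs ys := wd4_in q0 (by decide)
    obtain ⟨H, l, d⟩ := D
    exact ⟨_, _, Or.inl rfl, Or.inl rfl, RC.pr8a3 O I H l d hx⟩
  · have q9 : (mk4 2185 2770 0 1291 685 1710 0 360 (-1350) (-685) 3960 3960).Re xs ys T ρ := q
    have r9 : (mk4 1835 1945 0 1250 440 882 0 312 (-570) (-440) 3160 3160).Re xs' ys T' ρ := r.1 (by decide)
    have q0 : (mk4 2185 2770 0 1250 685 1710 0 312 (-1350) (-685) 3960 3960).Re xs ys T ρ := q9.int r9 (by decide)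
    have r0 : (mk4 1835 1945 0 1250 440 882 0 312 (-570) (-440) 3160 3160).Re xs' ys T' ρ := r9.int q9 (by decide)
    have O := q0.oneB RC.Row.cH8 (by decide)
    have I : RC.o8a3e.In T ρ xs ys := wd4_in q0 (by decide)
    obtain ⟨H, l, d⟩ := D
    exact ⟨_, _, Or.inl rfl, Or.inl rfl, RC.pr8a3e O I H l d hx⟩
  · cases s
    · have q9 : (mk4 2185 2770 0 1291 685 1710 0 360 (-1350) (-685) 3960 3960).Re xs ys T ρ := q
      have q0 : (mk4 2185 2770 0 1291 685 1710 0 360 (-1350) (-685) 3960 3960).Re xs ys T ρ := q9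
      have r0 : (mk4 1820 2520 0 1291 (-385) 745 0 360 (-385) 385 3811 3811).Re xs' ys T' ρ := Rg.re q9 (r.2 rfl) (by decide)
      have O := q0.oneB RC.Row.cH8 (by decide)
      have I : RC.o8aZ.In T ρ xs ys := wd4_in q0 (by decide)
      have J : RC.p8aZ.In T' ρ xs' ys := wd4_in r0 (by decide)
      have K := r0.kap (by decide) (KZ rfl)
      obtain ⟨H, l, d⟩ := D
      exact ⟨_, _, Or.inl rfl, Or.inl rfl, RC.pr8aZ O I H l d J hx K.1 K.2⟩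
    · have q9 : (mk4 2185 2770 0 1291 685 1710 0 360 (-1350) (-685) 3960 3960).Re xs ys T ρ := q
      have q0 : (mk4 2185 2770 0 1291 685 1710 0 360 (-1350) (-685) 3960 3960).Re xs ys T ρ := q9
      have r0 : (mk4 1700 2520 0 1291 (-465) 370 0 360 (-10) 465 3811 3811).Re xs' ys T' ρ := Rg.re q9 (r.2 rfl) (by decide)
      have O := q0.oneB RC.Row.cH8 (by decide)
      have I : RC.o8aZs.In T ρ xs ys := wd4_in q0 (by decide)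
      have J : RC.p8aZs.In T' ρ xs' ys := wd4_in r0 (by decide)
      have K := r0.kap (by decide) (KZ rfl)
      obtain ⟨H, l, d⟩ := D
      exact ⟨_, _, Or.inl rfl, Or.inl rfl, RC.pr8aZs O I H l d J hx K.1 K.2⟩

end SR

end Pool.Agent.Work.MP_b30479_gtS.G2

end

section

/-!
# Rings on the level part: the pairs of hinges by class
-/

namespace Pool.Agent.Work.MP_b30479_gtS.G2

open Finset VOL Filter Topology

namespace SR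

/-- **A ring between a digit `1` and a class `k`, the pair of hinges.** -/
theorem pm8b {xs ys T ρ xs' T' : ℝ} {k : Cl} {s : Bool}
    (hk : k ≠ .one)
    (q : (rc8 .two).Re xs ys T ρ)
    (r : P7 rd8 k s xs' ys T' ρ)
    (D : Lo k xs' ys T' ρ)
    (KZ : k = .ring → |T'| ≤ 47 / 1000)
    (hx : xs' ∈ Set.Icc (fcl k) (fcp k)) :
    PrS 8 .two k xs ys T ρ xs' T' := by
  cases k
  · exact absurd rfl hk
  · have q9 : (mk4 2545 2925 0 1201 1000 1796 0 346 (-1450) (-1000) 4080 4080).Re xs ys T ρ := q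
    have r9 : (mk4 1975 2525 0 1250 400 1305 0 355 (-950) (-400) 3770 3770).Re xs' ys T' ρ := r.1 (by decide)
    have q0 : (mk4 2545 2925 0 1201 1000 1796 0 346 (-1450) (-1000) 4080 4080).Re xs ys T ρ := q9.int r9 (by decide)
    have r0 : (mk4 1975 2525 0 1201 400 1305 0 346 (-950) (-400) 3770 3770).Re xs' ys T' ρ := r9.int q9 (by decide)
    have O := q0.oneB RC.Row.cH8 (by decide)
    have I : RC.o8b2.In T ρ xs ys := wd4_in q0 (by decide)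
    have J : RC.p8b2.In T' ρ xs' ys := wd4_in r0 (by decide)
    obtain ⟨H, l, d⟩ := D
    exact ⟨_, _, Or.inl rfl, Or.inl rfl, RC.pr8b2 O I H l d J hx⟩
  · have q9 : (mk4 2545 2925 0 1201 1000 1796 0 346 (-1450) (-1000) 4080 4080).Re xs ys T ρ := q
    have r9 : (mk4 1695 1795 0 1250 1145 1577 0 277 (-1300) (-1145) 3030 3030).Re xs' ys T' ρ := r.1 (by decide)
    have q0 : (mk4 2545 2925 0 1201 1000 1796 0 277 (-1450) (-1000) 4080 4080).Re xs ys T ρ := q9.int r9 (by decide)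
    have r0 : (mk4 1695 1795 0 1201 1145 1577 0 277 (-1300) (-1145) 3030 3030).Re xs' ys T' ρ := r9.int q9 (by decide)
    have O := q0.oneB RC.Row.cH8 (by decide)
    have I : RC.o8b2e.In T ρ xs ys := wd4_in q0 (by decide)
    have J : RC.p8b2e.In T' ρ xs' ys := wd4_in r0 (by decide)
    obtain ⟨H, l, d⟩ := D
    exact ⟨_, _, Or.inl rfl, Or.inl rfl, RC.pr8b2e O I H l d J hx⟩
  · have q9 : (mk4 2545 2925 0 1201 1000 1796 0 346 (-1450) (-1000) 4080 4080).Re xs ys T ρ := q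
    have r9 : (mk4 2025 2335 0 1250 205 907 0 352 (-555) (-205) 3560 3560).Re xs' ys T' ρ := r.1 (by decide)
    have q0 : (mk4 2545 2925 0 1201 1000 1796 0 346 (-1450) (-1000) 4080 4080).Re xs ys T ρ := q9.int r9 (by decide)
    have r0 : (mk4 2025 2335 0 1201 205 907 0 346 (-555) (-205) 3560 3560).Re xs' ys T' ρ := r9.int q9 (by decide)
    have O := q0.oneB RC.Row.cH8 (by decide)
    have I : RC.o8b3.In T ρ xs ys := wd4_in q0 (by decide)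
    have J : RC.p8b3.In T' ρ xs' ys := wd4_in r0 (by decide)
    obtain ⟨H, l, d⟩ := D
    exact ⟨_, _, Or.inl rfl, Or.inl rfl, RC.pr8b3 O I H l d J hx⟩
  · have q9 : (mk4 2545 2925 0 1201 1000 1796 0 346 (-1450) (-1000) 4080 4080).Re xs ys T ρ := q
    have r9 : (mk4 1835 1945 0 1250 440 882 0 312 (-570) (-440) 3160 3160).Re xs' ys T' ρ := r.1 (by decide)
    have q0 : (mk4 2545 2925 0 1201 1000 1796 0 312 (-1450) (-1000) 4080 4080).Re xs ys T ρ := q9.int r9 (by decide)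
    have r0 : (mk4 1835 1945 0 1201 440 882 0 312 (-570) (-440) 3160 3160).Re xs' ys T' ρ := r9.int q9 (by decide)
    have O := q0.oneB RC.Row.cH8 (by decide)
    have I : RC.o8b3e.In T ρ xs ys := wd4_in q0 (by decide)
    have J : RC.p8b3e.In T' ρ xs' ys := wd4_in r0 (by decide)
    obtain ⟨H, l, d⟩ := D
    exact ⟨_, _, Or.inl rfl, Or.inl rfl, RC.pr8b3e O I H l d J hx⟩
  · cases s
    · have q9 : (mk4 2545 2925 0 1201 1000 1796 0 346 (-1450) (-1000) 4080 4080).Re xs ys T ρ := q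
      have q0 : (mk4 2545 2925 0 1201 1000 1796 0 346 (-1450) (-1000) 4080 4080).Re xs ys T ρ := q9
      have r0 : (mk4 1820 2520 0 1201 (-385) 731 0 346 (-385) 385 3721 3721).Re xs' ys T' ρ := Rg.re q9 (r.2 rfl) (by decide)
      have O := q0.oneB RC.Row.cH8 (by decide)
      have I : RC.o8bZ.In T ρ xs ys := wd4_in q0 (by decide)
      have J : RC.p8bZ.In T' ρ xs' ys := wd4_in r0 (by decide)
      have K := r0.kap (by decide) (KZ rfl)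
      obtain ⟨H, l, d⟩ := D
      exact ⟨_, _, Or.inl rfl, Or.inl rfl, RC.pr8bZ O I H l d J hx K.1 K.2⟩
    · have q9 : (mk4 2545 2925 0 1201 1000 1796 0 346 (-1450) (-1000) 4080 4080).Re xs ys T ρ := q
      have q0 : (mk4 2545 2925 0 1201 1000 1796 0 346 (-1450) (-1000) 4080 4080).Re xs ys T ρ := q9
      have r0 : (mk4 1700 2520 0 1201 (-465) 356 0 346 (-10) 465 3721 3721).Re xs' ys T' ρ := Rg.re q9 (r.2 rfl) (by decide)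
      have O := q0.oneB RC.Row.cH8 (by decide)
      have I : RC.o8bZs.In T ρ xs ys := wd4_in q0 (by decide)
      have J : RC.p8bZs.In T' ρ xs' ys := wd4_in r0 (by decide)
      have K := r0.kap (by decide) (KZ rfl)
      obtain ⟨H, l, d⟩ := D
      exact ⟨_, _, Or.inl rfl, Or.inl rfl, RC.pr8bZs O I H l d J hx K.1 K.2⟩

end SR

end Pool.Agent.Work.MP_b30479_gtS.G2

end

section

/-!
# Rings on the level part: the pairs of hinges by class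
-/

namespace Pool.Agent.Work.MP_b30479_gtS.G2

open Finset VOL Filter Topology

namespace SR

/-- **A ring between a digit `1` and a class `k`, the pair of hinges.** -/
theorem pm8c {xs ys T ρ xs' T' : ℝ} {k : Cl} {s : Bool}
    (hk : k ≠ .one)
    (q : (rc8 .twoE).Re xs ys T ρ)
    (r : P7 rd8 k s xs' ys T' ρ)
    (D : Lo k xs' ys T' ρ)
    (KZ : k = .ring → |T'| ≤ 47 / 1000)
    (hx : xs' ∈ Set.Icc (fcl k) (fcp k)) :
    PrS 8 .twoE k xs ys T ρ xs' T' := by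
  cases k
  · exact absurd rfl hk
  · have q9 : (mk4 2410 2550 0 1191 1365 1885 0 310 (-1575) (-1365) 3725 3725).Re xs ys T ρ := q
    have r9 : (mk4 1975 2525 0 1250 400 1305 0 355 (-950) (-400) 3770 3770).Re xs' ys T' ρ := r.1 (by decide)
    have q0 : (mk4 2410 2550 0 1191 1365 1885 0 310 (-1575) (-1365) 3725 3725).Re xs ys T ρ := q9.int r9 (by decide)
    have r0 : (mk4 1975 2525 0 1191 400 1305 0 310 (-950) (-400) 3770 3770).Re xs' ys T' ρ := r9.int q9 (by decide)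
    have O := q0.oneB RC.Row.cH8 (by decide)
    have I : RC.o8c2.In T ρ xs ys := wd4_in q0 (by decide)
    obtain ⟨H, l, d⟩ := D
    exact ⟨_, _, Or.inl rfl, Or.inl rfl, RC.pr8c2 O I H l d hx⟩
  · have q9 : (mk4 2410 2550 0 1191 1365 1885 0 310 (-1575) (-1365) 3725 3725).Re xs ys T ρ := q
    have r9 : (mk4 1695 1795 0 1250 1145 1577 0 277 (-1300) (-1145) 3030 3030).Re xs' ys T' ρ := r.1 (by decide)
    have q0 : (mk4 2410 2550 0 1191 1365 1885 0 277 (-1575) (-1365) 3725 3725).Re xs ys T ρ := q9.int r9 (by decide)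
    have r0 : (mk4 1695 1795 0 1191 1145 1577 0 277 (-1300) (-1145) 3030 3030).Re xs' ys T' ρ := r9.int q9 (by decide)
    have O := q0.oneB RC.Row.cH8 (by decide)
    have I : RC.o8c2e.In T ρ xs ys := wd4_in q0 (by decide)
    obtain ⟨H, l, d⟩ := D
    exact ⟨_, _, Or.inl rfl, Or.inl rfl, RC.pr8c2e O I H l d hx⟩
  · have q9 : (mk4 2410 2550 0 1191 1365 1885 0 310 (-1575) (-1365) 3725 3725).Re xs ys T ρ := q
    have r9 : (mk4 2025 2335 0 1250 205 907 0 352 (-555) (-205) 3560 3560).Re xs' ys T' ρ := r.1 (by decide)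
    have q0 : (mk4 2410 2550 0 1191 1365 1885 0 310 (-1575) (-1365) 3725 3725).Re xs ys T ρ := q9.int r9 (by decide)
    have r0 : (mk4 2025 2335 0 1191 205 907 0 310 (-555) (-205) 3560 3560).Re xs' ys T' ρ := r9.int q9 (by decide)
    have O := q0.oneB RC.Row.cH8 (by decide)
    have I : RC.o8c3.In T ρ xs ys := wd4_in q0 (by decide)
    obtain ⟨H, l, d⟩ := D
    exact ⟨_, _, Or.inl rfl, Or.inl rfl, RC.pr8c3 O I H l d hx⟩
  · have q9 : (mk4 2410 2550 0 1191 1365 1885 0 310 (-1575) (-1365) 3725 3725).Re xs ys T ρ := q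
    have r9 : (mk4 1835 1945 0 1250 440 882 0 312 (-570) (-440) 3160 3160).Re xs' ys T' ρ := r.1 (by decide)
    have q0 : (mk4 2410 2550 0 1191 1365 1885 0 310 (-1575) (-1365) 3725 3725).Re xs ys T ρ := q9.int r9 (by decide)
    have r0 : (mk4 1835 1945 0 1191 440 882 0 310 (-570) (-440) 3160 3160).Re xs' ys T' ρ := r9.int q9 (by decide)
    have O := q0.oneB RC.Row.cH8 (by decide)
    have I : RC.o8c3e.In T ρ xs ys := wd4_in q0 (by decide)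
    obtain ⟨H, l, d⟩ := D
    exact ⟨_, _, Or.inl rfl, Or.inl rfl, RC.pr8c3e O I H l d hx⟩
  · cases s
    · have q9 : (mk4 2410 2550 0 1191 1365 1885 0 310 (-1575) (-1365) 3725 3725).Re xs ys T ρ := q
      have q0 : (mk4 2410 2550 0 1191 1365 1885 0 310 (-1575) (-1365) 3725 3725).Re xs ys T ρ := q9
      have r0 : (mk4 1820 2520 0 1191 (-385) 695 0 310 (-385) 385 3711 3711).Re xs' ys T' ρ := Rg.re q9 (r.2 rfl) (by decide)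
      have O := q0.oneB RC.Row.cH8 (by decide)
      have I : RC.o8cZ.In T ρ xs ys := wd4_in q0 (by decide)
      obtain ⟨H, l, d⟩ := D
      exact ⟨_, _, Or.inl rfl, Or.inl rfl, RC.pr8cZ O I H l d hx⟩
    · have q9 : (mk4 2410 2550 0 1191 1365 1885 0 310 (-1575) (-1365) 3725 3725).Re xs ys T ρ := q
      have q0 : (mk4 2410 2550 0 1191 1365 1885 0 310 (-1575) (-1365) 3725 3725).Re xs ys T ρ := q9
      have r0 : (mk4 1700 2520 0 1191 (-465) 320 0 310 (-10) 465 3711 3711).Re xs' ys T' ρ := Rg.re q9 (r.2 rfl) (by decide)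
      have O := q0.oneB RC.Row.cH8 (by decide)
      have I : RC.o8cZs.In T ρ xs ys := wd4_in q0 (by decide)
      obtain ⟨H, l, d⟩ := D
      exact ⟨_, _, Or.inl rfl, Or.inl rfl, RC.pr8cZs O I H l d hx⟩

end SR

end Pool.Agent.Work.MP_b30479_gtS.G2

end
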