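import Pool.Agent.Work.MP_b30479_gt.TBS.G2.WLocC
import Pool.Agent.Work.MP_b30479_gt.TBS.G2.RGp4a
import Pool.Agent.Work.MP_b30479_gt.TBS.G2.RGp4b
import Pool.Agent.Work.MP_b30479_gt.TBS.G2.RGp4c
import Pool.Agent.Work.MP_b30479_gt.TBS.G2.RGp5a
import Pool.Agent.Work.MP_b30479_gt.TBS.G2.RLvl6
import Pool.Agent.Work.MP_b30479_gt.TBS.G2.RGp8a
import Pool.Agent.Work.MP_b30479_gt.TBS.G2.RGm32
import Pool.Agent.Work.MP_b30479_gt.TBS.G2.RGn06
import Pool.Agent.Work.MP_b30479_gt.TBS.G2.RKind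
import Pool.Agent.Work.MP_b30479_gt.TBS.G2.WLocF
import Pool.Agent.Work.MP_b30479_gt.TBS.G2.RGo6
import Pool.Agent.Work.MP_b30479_gt.TBS.G2.RGo7
import Pool.Agent.Work.MP_b30479_gt.TBS.G2.RGo8
import Pool.Agent.Work.MP_b30479_gt.TBS.G2.RGp22

section

/-!
# Rings in a word: the pair of hinges next to a digit `1` and a larger class
-/

namespace Pool.Agent.Work.MP_b30479_gtS.G2

open Finset VOL Filter Topology

namespace SR

variable {M : ℕ} {b : Fin (M + 1) → ℤ} {zs : DD (tyW b) ⊕ ZZ (tyW b) → ℂ}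
variable {y : DD (tyW b) ⊕ ZZ (tyW b) → ℝ}
variable {h h' h2 h3 : Fin M} {i j k g g' : Fin (M + 1)} {p : Fin 3} {v : ZZ (tyW b)}

theorem FS.mono {n : ℕ} (hn : 8 ≤ n) {C : Cl} {xs T : ℝ} {f : ℝ → ℝ} (h : FS 8 C xs T f) :
    FS n C xs T f := by
  rcases h with h | ⟨h1, h2, h3⟩
  · exact Or.inl h
  · refine Or.inr ⟨h1, h2, ?_⟩
    rcases h3 with ⟨h3, -⟩ | ⟨-, h4, h5⟩
    · exact absurd h3 (by decide)
    · exact Or.inr ⟨by omega, h4, h5⟩

theorem GS.mono {n : ℕ} {k : Cl} {f : ℝ → ℝ} (h : GS 8 k f) : GS n k f := by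
  rcases h with h | ⟨-, h, -⟩
  · exact Or.inl h
  · exact absurd h (by decide)

theorem PrS.mono {n : ℕ} (hn : 8 ≤ n) {C k : Cl} {xs ys T ρ xs' T' : ℝ}
    (h : PrS 8 C k xs ys T ρ xs' T') : PrS n C k xs ys T ρ xs' T' := by
  obtain ⟨f, g, hf, hg, h⟩ := h
  exact ⟨f, g, hf.mono hn, hg.mono, h⟩

theorem RFacts.pr1_4 (F : RFacts b zs) (A : Adj h i p j) (A2 : Adj h2 j p g)
    (A' : Adj h' i p.rev k) (hc : clsW b i = .ring) (hv : v.1 = i) (hj : clsW b j = .one)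
    (hk : clsW b k ≠ .one) (hn : (b i).natAbs = 4) (he : isEnd i = false) :
    PrS 4 (clsW b g) (clsW b k) (zs (.inl (.inl h))).re (1 / 2 + ofs (b i) (zs (.inr v)).re)
      (ofs (b i) (zs (.inl (.inl h))).im) (zs (.inr v)).im (zs (.inl (.inl h'))).re
      (ofs (b i) (zs (.inl (.inl h'))).im) := by
  have q := (F.w4.own v hv A A2 A' hc hn hj).adj A hv
  have r := (F.w4.par v hv A A2 A' hc hn hj hk).adj A' hv
  have hx := F.H.xs_flat A' hc
  have D : clsW b k ≠ .twoE → _ := fun h0 => F.H.lo A' hc hv hk fun h1 => absurd h1 h0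
  have B := fun h0 => F.bd4 A A2 A' hc hv hj h0 hn he
  rcases cls_behind F.H.hb A A2 hc hj with h0 | h0 | h0
  · rw [h0] at q r ⊢
    exact pm4a hk q r D hx
  · rw [h0] at q r ⊢
    exact pm4b hk q r (B h0) D hx
  · rw [h0] at q r ⊢
    exact pm4c hk q r D hx

theorem RFacts.pr1_5 (F : RFacts b zs) (A : Adj h i p j) (A2 : Adj h2 j p g)
    (A' : Adj h' i p.rev k) (hc : clsW b i = .ring) (hv : v.1 = i) (hj : clsW b j = .one)
    (hk : clsW b k ≠ .one) (hn : (b i).natAbs = 5) (he : isEnd i = false) :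
    PrS 5 (clsW b g) (clsW b k) (zs (.inl (.inl h))).re (1 / 2 + ofs (b i) (zs (.inr v)).re)
      (ofs (b i) (zs (.inl (.inl h))).im) (zs (.inr v)).im (zs (.inl (.inl h'))).re
      (ofs (b i) (zs (.inl (.inl h'))).im) := by
  have q := (F.w5.own v hv A A2 A' hc hn hj).adj A hv
  have r := (F.w5.par v hv A A2 A' hc hn hj hk).adj A' hv
  have hx := F.H.xs_flat A' hc
  have D := F.H.lo A' hc hv hk fun _ => by omega
  have KZ := fun h0 => F.H.kz A' hc (by omega) h0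
  have B := fun h0 => F.bd5 A A2 A' hc hv hj h0 hn
  rcases cls_behind F.H.hb A A2 hc hj with h0 | h0 | h0
  · rw [h0] at q r ⊢
    exact pm5a hk q r D KZ hx
  · rw [h0] at q r ⊢
    exact pm5b hk q r (B h0) D KZ hx
  · rw [h0] at q r ⊢
    exact pm5c hk q r D KZ hx

theorem RFacts.pr1_6 (F : RFacts b zs) (A : Adj h i p j) (A2 : Adj h2 j p g)
    (A' : Adj h' i p.rev k) (hc : clsW b i = .ring) (hv : v.1 = i) (hj : clsW b j = .one)
    (hk : clsW b k ≠ .one) (hn : (b i).natAbs = 6) (he : isEnd i = false) :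
    PrS 6 (clsW b g) (clsW b k) (zs (.inl (.inl h))).re (1 / 2 + ofs (b i) (zs (.inr v)).re)
      (ofs (b i) (zs (.inl (.inl h))).im) (zs (.inr v)).im (zs (.inl (.inl h'))).re
      (ofs (b i) (zs (.inl (.inl h'))).im) := by
  have q := (F.w6.own v hv A A2 A' hc hn hj).adj A hv
  have r := (F.w6.par v hv A A2 A' hc hn hj hk).adj A' hv
  have hx := F.H.xs_flat A' hc
  have D := F.H.lo A' hc hv hk fun _ => by omega
  have KZ := fun h0 => F.H.kz A' hc (by omega) h0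
  rcases cls_behind F.H.hb A A2 hc hj with h0 | h0 | h0
  · rw [h0] at q r ⊢
    exact pm6a hk q r D KZ hx
  · rw [h0] at q r ⊢
    exact pm6b hk q r D KZ hx
  · rw [h0] at q r ⊢
    exact pm6c hk q r D KZ hx

theorem RFacts.pr1_7 (F : RFacts b zs) (A : Adj h i p j) (A2 : Adj h2 j p g)
    (A' : Adj h' i p.rev k) (hc : clsW b i = .ring) (hv : v.1 = i) (hj : clsW b j = .one)
    (hk : clsW b k ≠ .one) (hn : (b i).natAbs = 7) :
    PrS 7 (clsW b g) (clsW b k) (zs (.inl (.inl h))).re (1 / 2 + ofs (b i) (zs (.inr v)).re)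
      (ofs (b i) (zs (.inl (.inl h))).im) (zs (.inr v)).im (zs (.inl (.inl h'))).re
      (ofs (b i) (zs (.inl (.inl h'))).im) := by
  have q := (F.c7.own v hv A A2 A' hc hn hj).adj A hv
  have r : P7 rd7 (clsW b k) (ssW b h') (zs (.inl (.inl h'))).re (1 / 2 + ofs (b i) (zs (.inr v)).re)
      (ofs (b i) (zs (.inl (.inl h'))).im) (zs (.inr v)).im :=
    ⟨fun h0 => (F.e7 v hv A A' hc hn hj hk h0).adj A' hv, fun h0 => F.H.rg A' hc (by omega) h0⟩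
  have hx := F.H.xs_flat A' hc
  have D := F.H.lo A' hc hv hk fun _ => by omega
  have KZ := fun h0 => F.H.kz A' hc (by omega) h0
  rcases cls_behind F.H.hb A A2 hc hj with h0 | h0 | h0
  · rw [h0] at q ⊢
    exact pm7a hk q r D KZ hx
  · rw [h0] at q ⊢
    exact pm7b hk q r D KZ hx
  · rw [h0] at q ⊢
    exact pm7c hk q r D KZ hx

theorem RFacts.pr1_8 (F : RFacts b zs) (A : Adj h i p j) (A2 : Adj h2 j p g)
    (A' : Adj h' i p.rev k) (hc : clsW b i = .ring) (hv : v.1 = i) (hj : clsW b j = .one)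
    (hk : clsW b k ≠ .one) (hn : 8 ≤ (b i).natAbs) :
    PrS (b i).natAbs (clsW b g) (clsW b k) (zs (.inl (.inl h))).re (1 / 2 + ofs (b i) (zs (.inr v)).re)
      (ofs (b i) (zs (.inl (.inl h))).im) (zs (.inr v)).im (zs (.inl (.inl h'))).re
      (ofs (b i) (zs (.inl (.inl h'))).im) := by
  have q := (F.c8.own v hv A A2 A' hc hn hj).adj A hv
  have r : P7 rd8 (clsW b k) (ssW b h') (zs (.inl (.inl h'))).re (1 / 2 + ofs (b i) (zs (.inr v)).re)
      (ofs (b i) (zs (.inl (.inl h'))).im) (zs (.inr v)).im :=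
    ⟨fun h0 => (F.c8.par v hv A A' hc hn hj hk h0).adj A' hv, fun h0 => F.H.rg A' hc (by omega) h0⟩
  have hx := F.H.xs_flat A' hc
  have D := F.H.lo A' hc hv hk fun _ => by omega
  have KZ := fun h0 => F.H.kz A' hc (by omega) h0
  rcases cls_behind F.H.hb A A2 hc hj with h0 | h0 | h0
  · rw [h0] at q ⊢
    exact (pm8a hk q r D KZ hx).mono hn
  · rw [h0] at q ⊢
    exact (pm8b hk q r D KZ hx).mono hn
  · rw [h0] at q ⊢
    exact (pm8c hk q r D KZ hx).mono hn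

/-- **A ring between a digit `1` and a larger class.** -/
theorem RFacts.pr1 (F : RFacts b zs) (A : Adj h i p j) (A2 : Adj h2 j p g)
    (A' : Adj h' i p.rev k) (hc : clsW b i = .ring) (hv : v.1 = i) (hj : clsW b j = .one)
    (hk : clsW b k ≠ .one) (he : isEnd i = false) :
    PrS (b i).natAbs (clsW b g) (clsW b k) (zs (.inl (.inl h))).re
      (1 / 2 + ofs (b i) (zs (.inr v)).re)
      (ofs (b i) (zs (.inl (.inl h))).im) (zs (.inr v)).im (zs (.inl (.inl h'))).re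
      (ofs (b i) (zs (.inl (.inl h'))).im) := by
  have h4 := ring_four F.H.hb (tyW_of_ring F.H.hb hc)
  rcases h4.eq_or_lt with h | h4
  · rw [← h]
    exact F.pr1_4 A A2 A' hc hv hj hk h.symm he
  rcases (Nat.succ_le_of_lt h4).eq_or_lt with h | h4
  · rw [← h]
    exact F.pr1_5 A A2 A' hc hv hj hk h.symm he
  rcases (Nat.succ_le_of_lt h4).eq_or_lt with h | h4
  · rw [← h]
    exact F.pr1_6 A A2 A' hc hv hj hk h.symm he
  rcases (Nat.succ_le_of_lt h4).eq_or_lt with h | h4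
  · rw [← h]
    exact F.pr1_7 A A2 A' hc hv hj hk h.symm
  exact F.pr1_8 A A2 A' hc hv hj hk h4

end SR

end Pool.Agent.Work.MP_b30479_gtS.G2

end

section

/-!
# Rings on the level part: pairs of hinges
-/

namespace Pool.Agent.Work.MP_b30479_gtS.G2

open Real Set

namespace RC

open R6

theorem en4a {xs ys T ρ : ℝ} (O : OneB xs ys T ρ) (I : e4a.In T ρ xs ys) :
    En xs ys T ρ (16 / 100) (36 / 100) (fun _ => 0) (fun _ => 0) :=
  En.of (tab := [⟨2500, 2600, 0, 0, 0, 0, 0⟩, ⟨2600, 2700, 0, 0, 0, 0, 0⟩, ⟨2700, 5000, 0, 0, 0, 0, 0⟩])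
    (tab' := [⟨2500, 2600, 250, 0, 0, 0, 0⟩, ⟨2600, 2700, 250, 0, 0, 0, 0⟩, ⟨2700, 5000, 0, 0, 0, 0, 0⟩])
    (O.LF I e4a_Wa e4a_Wb hf0)
    (I.dt O.GD (fun _ => O.HD) e4a_Dp2500_0_0_0 e4a_Dm2500_0_0_0 rfl hf0 hf0
      (I.dt O.GD (fun _ => O.HD) e4a_Dp2600_0_0_0 e4a_Dm2600_0_0_0 rfl hf0 hf0
      (I.dt0 O.GD (fun _ => O.HD) e4a_Qp2700_0_0_0 e4a_Qm2700_0_0_0 rfl DT.nil A16 B36) A16 B36) A16 B36)
    (I.qt O.GD (fun _ => O.HD) e4a_Qp2500_250_0_0 e4a_Qm2500_250_0_0 rfl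
      (I.qt O.GD (fun _ => O.HD) e4a_Qp2600_250_0_0 e4a_Qm2600_250_0_0 rfl
      (I.qt O.GD (fun _ => O.HD) e4a_Qp2700_0_0_0 e4a_Qm2700_0_0_0 rfl QT.nil A16 B36) A16 B36) A16 B36)
    (by decide) (by decide) (by decide) O.hys O.hxs

theorem en4b1 {xs ys T ρ : ℝ} (O : OneB xs ys T ρ) (I : e4b1.In T ρ xs ys) :
    En xs ys T ρ (16 / 100) (36 / 100) (fun _ => 0) (fun _ => 0) :=
  En.of (tab := [⟨2500, 2600, 0, 0, 0, 0, 0⟩, ⟨2600, 2700, 0, 0, 0, 0, 0⟩, ⟨2700, 2800, 0, 0, 0, 0, 0⟩, ⟨2800, 5000, 0, 0, 0, 0, 0⟩])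
    (tab' := [⟨2500, 2600, 250, 0, 0, 0, 0⟩, ⟨2600, 2700, 250, 0, 0, 0, 0⟩, ⟨2700, 2800, 250, 0, 0, 0, 0⟩, ⟨2800, 5000, 0, 0, 0, 0, 0⟩])
    (O.LF I e4b1_Wa e4b1_Wb hf0)
    (I.dt O.GD (fun _ => O.HD) e4b1_Dp2500_0_0_0 e4b1_Dm2500_0_0_0 rfl hf0 hf0
      (I.dt O.GD (fun _ => O.HD) e4b1_Dp2600_0_0_0 e4b1_Dm2600_0_0_0 rfl hf0 hf0
      (I.dt O.GD (fun _ => O.HD) e4b1_Dp2700_0_0_0 e4b1_Dm2700_0_0_0 rfl hf0 hf0
      (I.dt0 O.GD (fun _ => O.HD) e4b1_Qp2800_0_0_0 e4b1_Qm2800_0_0_0 rfl DT.nil A16 B36) A16 B36) A16 B36) A16 B36)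
    (I.qt O.GD (fun _ => O.HD) e4b1_Qp2500_250_0_0 e4b1_Qm2500_250_0_0 rfl
      (I.qt O.GD (fun _ => O.HD) e4b1_Qp2600_250_0_0 e4b1_Qm2600_250_0_0 rfl
      (I.qt O.GD (fun _ => O.HD) e4b1_Qp2700_250_0_0 e4b1_Qm2700_250_0_0 rfl
      (I.qt O.GD (fun _ => O.HD) e4b1_Qp2800_0_0_0 e4b1_Qm2800_0_0_0 rfl QT.nil A16 B36) A16 B36) A16 B36) A16 B36)
    (by decide) (by decide) (by decide) O.hys O.hxs

theorem en4b2 {xs ys T ρ : ℝ} (O : OneB xs ys T ρ) (I : e4b2.In T ρ xs ys) :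
    En xs ys T ρ (16 / 100) (36 / 100) (fun _ => 0) (fun _ => 0) :=
  En.of (tab := [⟨2500, 2600, 0, 0, 0, 0, 0⟩, ⟨2600, 2700, 0, 0, 0, 0, 0⟩, ⟨2700, 2800, 0, 0, 0, 0, 0⟩, ⟨2800, 5000, 0, 0, 0, 0, 0⟩])
    (tab' := [⟨2500, 2600, 250, 0, 0, 0, 0⟩, ⟨2600, 2700, 250, 0, 0, 0, 0⟩, ⟨2700, 2800, 250, 0, 0, 0, 0⟩, ⟨2800, 5000, 0, 0, 0, 0, 0⟩])
    (O.LF I e4b2_Wa e4b2_Wb hf0)
    (I.dt O.GD (fun _ => O.HD) e4b2_Dp2500_0_0_0 e4b2_Dm2500_0_0_0 rfl hf0 hf0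
      (I.dt O.GD (fun _ => O.HD) e4b2_Dp2600_0_0_0 e4b2_Dm2600_0_0_0 rfl hf0 hf0
      (I.dt O.GD (fun _ => O.HD) e4b2_Dp2700_0_0_0 e4b2_Dm2700_0_0_0 rfl hf0 hf0
      (I.dt0 O.GD (fun _ => O.HD) e4b2_Qp2800_0_0_0 e4b2_Qm2800_0_0_0 rfl DT.nil A16 B36) A16 B36) A16 B36) A16 B36)
    (I.qt O.GD (fun _ => O.HD) e4b2_Qp2500_250_0_0 e4b2_Qm2500_250_0_0 rfl
      (I.qt O.GD (fun _ => O.HD) e4b2_Qp2600_250_0_0 e4b2_Qm2600_250_0_0 rfl
      (I.qt O.GD (fun _ => O.HD) e4b2_Qp2700_250_0_0 e4b2_Qm2700_250_0_0 rfl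
      (I.qt O.GD (fun _ => O.HD) e4b2_Qp2800_0_0_0 e4b2_Qm2800_0_0_0 rfl QT.nil A16 B36) A16 B36) A16 B36) A16 B36)
    (by decide) (by decide) (by decide) O.hys O.hxs

theorem en4c {xs ys T ρ : ℝ} (O : OneB xs ys T ρ) (I : e4c.In T ρ xs ys) :
    En xs ys T ρ (16 / 100) (36 / 100) (fun _ => 0) (fun _ => 0) :=
  En.of (tab := [⟨2500, 5000, 0, 0, 0, 0, 0⟩])
    (tab' := [⟨2500, 5000, 0, 0, 0, 0, 0⟩])
    (O.LF I e4c_Wa e4c_Wb hf0)
    (I.dt0 O.GD (fun _ => O.HD) e4c_Qp2500_0_0_0 e4c_Qm2500_0_0_0 rfl DT.nil A16 B36)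
    (I.qt O.GD (fun _ => O.HD) e4c_Qp2500_0_0_0 e4c_Qm2500_0_0_0 rfl QT.nil A16 B36)
    (by decide) (by decide) (by decide) O.hys O.hxs

end RC

end Pool.Agent.Work.MP_b30479_gtS.G2

end

section

/-!
# Rings on the level part: rings between two digits `1`, rings at an end
-/

namespace Pool.Agent.Work.MP_b30479_gtS.G2

open Finset VOL Filter Topology

namespace SR

/-- the tables of bounds -/
def t4 : Cl → List RC.Te
  | .one => RC.t4a
  | .two => RC.t4b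
  | _ => RC.t4c

theorem t4_cov (C : Cl) : RC.cov 2500 (t4 C) = true := by
  cases C <;> decide

theorem ok4a {xs ys T ρ : ℝ} {s : Bool} (q : (rq4 .one .one s).Re xs ys T ρ) :
    ∃ f, FS 4 .one xs T f ∧ OKt t4 (fun _ => True) .one xs ys T ρ f := by
  have q0 : (mk4 2259 2750 1567 1820 1018 1594 403 683 (-1017) (-473) 4464 4061).Re xs ys T ρ := q
  have O := q0.oneB RC.Row.cH4a (by decide)
  have I : RC.o4a1.In T ρ xs ys := wd4_in q0 (by decide)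
  refine ⟨_, Or.inl rfl, RC.lf4a1 O I, RC.qt4a O I, fun C' hC => ?_, O.hys, O.hxs⟩
  cases C'
  · exact RC.dt4a_a O I
  · exact RC.dt4a_b O I
  all_goals exact RC.dt4a_c O I

theorem ok4b {xs ys T ρ : ℝ} {s : Bool} (q : (rq4 .two .one s).Re xs ys T ρ) (B : Bd4 .one s xs ys T ρ) :
    ∃ f, FS 4 .two xs T f ∧ OKt t4 (fun C => C ≠ .two) .two xs ys T ρ f := by
  have q0 : (mk4 2602 2945 1545 1766 1262 1617 390 634 (-1088) (-753) 4618 4228).Re xs ys T ρ := q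
  have O := q0.oneB RC.Row.cH4b (by decide)
  have I : RC.o4b1.In T ρ xs ys := wdk_in q0 (by decide) (k := 1530) (by
    have := B.kp
    simp only [ka4] at this
    push_cast at this ⊢
    linarith)
  refine ⟨_, Or.inr ⟨rfl, q0.xlo (by decide), Or.inl ⟨rfl, q0.tlo4 (by decide), rfl⟩⟩, RC.lf4b1 O I, RC.qt4b O I, fun C' hC => ?_, O.hys, O.hxs⟩
  cases C'
  · exact RC.dt4b_a O I
  · exact absurd rfl hC
  all_goals exact RC.dt4b_c O I

theorem ok4c {xs ys T ρ : ℝ} {s : Bool} (q : (rq4 .twoE .one s).Re xs ys T ρ) :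
    ∃ f, FS 4 .twoE xs T f ∧ OKt t4 (fun _ => True) .twoE xs ys T ρ f := by
  have q0 : (mk4 2452 2610 1585 1791 1569 1794 361 578 (-1284) (-1126) 4336 3975).Re xs ys T ρ := q
  have O := q0.oneB RC.Row.cH4c (by decide)
  have I : RC.o4c1.In T ρ xs ys := wd4_in q0 (by decide)
  refine ⟨_, Or.inl rfl, RC.lf4c1 O I, RC.qt4c O I, fun C' hC => ?_, O.hys, O.hxs⟩
  cases C'
  · exact RC.dt4c_a O I
  · exact RC.dt4c_b O I
  all_goals exact RC.dt4c_c O I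

theorem bb4 {xs ys T ρ xs' T' : ℝ} (q : rw4.Re xs ys T ρ) (q' : rw4.Re xs' ys T' ρ) :
    PrO 4 .two .two xs ys T ρ xs' T' := by
  have q0 : (mk4 2640 2905 1570 1685 1320 1585 450 560 (-1070) (-815) 4535 4085).Re xs ys T ρ := q
  have q1 : (mk4 2640 2905 1570 1685 1320 1585 450 560 (-1070) (-815) 4535 4085).Re xs' ys T' ρ := q'
  have O := q0.oneB RC.Row.cH4b (by decide)
  have O' := q1.oneB RC.Row.cH4b (by decide)
  have I : RC.o4bb1.In T ρ xs ys := wd4_in q0 (by decide)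
  have I' : RC.o4bb1.In T' ρ xs' ys := wd4_in q1 (by decide)
  exact ⟨_, _, Or.inr ⟨rfl, q0.xlo (by decide), Or.inl ⟨rfl, q0.tlo4 (by decide), rfl⟩⟩,
    Or.inr ⟨rfl, q1.xlo (by decide), Or.inl ⟨rfl, q1.tlo4 (by decide), rfl⟩⟩,
    RC.Pr.of (RC.lf4bb1 O I) (RC.lf4bb1 O' I') (RC.dt4bb_bb O I) (RC.qt4bb O' I')
      (RC.dt4bb_bb O' I') (RC.qt4bb O I) (by decide) (by decide) O.hys O.hxs O'.hxs⟩

theorem po4 {xs ys T ρ xs' T' : ℝ} {C C' : Cl} {s : Bool} {s' : Bool} 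
    (hC : C = .one ∨ C = .two ∨ C = .twoE) (hC' : C' = .one ∨ C' = .two ∨ C' = .twoE)
    (q : (rq4 C .one s).Re xs ys T ρ)
    (q' : (rq4 C' .one s').Re xs' ys T' ρ) (B : C = .two → Bd4 .one s xs ys T ρ)
    (B' : C' = .two → Bd4 .one s' xs' ys T' ρ)
    (bb : C = .two → C' = .two → rw4.Re xs ys T ρ ∧ rw4.Re xs' ys T' ρ) :
    PrO 4 C C' xs ys T ρ xs' T' := by
  rcases hC with rfl | rfl | rfl <;> rcases hC' with rfl | rfl | rfl
  · obtain ⟨f, hf, k⟩ := ok4a q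
    obtain ⟨f', hf', k'⟩ := ok4a q'
    exact ⟨f, f', hf, hf', k.pr k' trivial trivial t4_cov⟩
  · obtain ⟨f, hf, k⟩ := ok4a q
    obtain ⟨f', hf', k'⟩ := ok4b q' (B' rfl)
    exact ⟨f, f', hf, hf', k.pr k' trivial (by decide) t4_cov⟩
  · obtain ⟨f, hf, k⟩ := ok4a q
    obtain ⟨f', hf', k'⟩ := ok4c q'
    exact ⟨f, f', hf, hf', k.pr k' trivial trivial t4_cov⟩
  · obtain ⟨f, hf, k⟩ := ok4b q (B rfl)
    obtain ⟨f', hf', k'⟩ := ok4a q'
    exact ⟨f, f', hf, hf', k.pr k' (by decide) trivial t4_cov⟩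
  · obtain ⟨u, u'⟩ := bb rfl rfl
    exact bb4 u u'
  · obtain ⟨f, hf, k⟩ := ok4b q (B rfl)
    obtain ⟨f', hf', k'⟩ := ok4c q'
    exact ⟨f, f', hf, hf', k.pr k' (by decide) trivial t4_cov⟩
  · obtain ⟨f, hf, k⟩ := ok4c q
    obtain ⟨f', hf', k'⟩ := ok4a q'
    exact ⟨f, f', hf, hf', k.pr k' trivial trivial t4_cov⟩
  · obtain ⟨f, hf, k⟩ := ok4c q
    obtain ⟨f', hf', k'⟩ := ok4b q' (B' rfl)
    exact ⟨f, f', hf, hf', k.pr k' trivial (by decide) t4_cov⟩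
  · obtain ⟨f, hf, k⟩ := ok4c q
    obtain ⟨f', hf', k'⟩ := ok4c q'
    exact ⟨f, f', hf, hf', k.pr k' trivial trivial t4_cov⟩

theorem em4a {xs ys T ρ : ℝ} (q : (re4 .one).Re xs ys T ρ) : EnS 4 .one xs ys T ρ := by
  have q0 : (mk4 2163 2605 1974 2179 820 1201 298 495 (-864) (-385) 4638 4340).Re xs ys T ρ := q
  have O := q0.oneB RC.Row.cH4ea (by decide)
  have I : RC.e4a.In T ρ xs ys := wd4_in q0 (by decide)
  exact ⟨_, Or.inl rfl, RC.en4a O I⟩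

theorem em4b {xs ys T ρ : ℝ} (q : (mk4 2500 2726 1965 2065 1059 1269 293 449 (-927) (-642) 4721 4485).Re xs ys T ρ ∨
    (mk4 2595 2751 1967 2034 1125 1232 293 449 (-927) (-642) 4738 4485).Re xs ys T ρ) : EnS 4 .two xs ys T ρ := by
  rcases q with q0 | q0
  · have O := q0.oneB RC.Row.cH4eb (by decide)
    have I : RC.e4b1.In T ρ xs ys := wd4_in q0 (by decide)
    exact ⟨_, Or.inl rfl, RC.en4b1 O I⟩
  · have O := q0.oneB RC.Row.cH4eb (by decide)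
    have I : RC.e4b2.In T ρ xs ys := wd4_in q0 (by decide)
    exact ⟨_, Or.inl rfl, RC.en4b2 O I⟩

theorem em4c {xs ys T ρ : ℝ} (q : (re4 .twoE).Re xs ys T ρ) : EnS 4 .twoE xs ys T ρ := by
  have q0 : (mk4 2352 2472 1985 2105 1313 1433 244 364 (-1129) (-1009) 4517 4273).Re xs ys T ρ := q
  have O := q0.oneB RC.Row.cH4ec (by decide)
  have I : RC.e4c.In T ρ xs ys := wd4_in q0 (by decide)
  exact ⟨_, Or.inl rfl, RC.en4c O I⟩

theorem pe4 {xs ys T ρ : ℝ} {C : Cl} (hC : C = .one ∨ C = .two ∨ C = .twoE)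
    (q : (re4 C).Re xs ys T ρ) (W : C = .two →
      (mk4 2500 2726 1965 2065 1059 1269 293 449 (-927) (-642) 4721 4485).Re xs ys T ρ ∨
      (mk4 2595 2751 1967 2034 1125 1232 293 449 (-927) (-642) 4738 4485).Re xs ys T ρ) :
    EnS 4 C xs ys T ρ := by
  rcases hC with rfl | rfl | rfl
  · exact em4a q
  · exact em4b (W rfl)
  · exact em4c q

end SR

end Pool.Agent.Work.MP_b30479_gtS.G2

end

section

/-!
# Rings in a word: rings between two digits `1`, rings at an end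
-/

namespace Pool.Agent.Work.MP_b30479_gtS.G2

open Finset VOL Filter Topology

namespace SR

variable {M : ℕ} {b : Fin (M + 1) → ℤ} {zs : DD (tyW b) ⊕ ZZ (tyW b) → ℂ}
variable {y : DD (tyW b) ⊕ ZZ (tyW b) → ℝ}
variable {h h' h2 h3 : Fin M} {i j k g g' : Fin (M + 1)} {p : Fin 3} {v : ZZ (tyW b)}

theorem FS.mono' {n : ℕ} (hn : 8 ≤ n) {C : Cl} {xs T : ℝ} {f : ℝ → ℝ} (h : FS 8 C xs T f) :
    FS n C xs T f := by
  rcases h with h | ⟨h1, h2, h3⟩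
  · exact Or.inl h
  · refine Or.inr ⟨h1, h2, ?_⟩
    rcases h3 with ⟨h3, -⟩ | ⟨-, h4, h5⟩
    · exact absurd h3 (by decide)
    · exact Or.inr ⟨by omega, h4, h5⟩

theorem RFacts.pr2_4 (F : RFacts b zs) (A : Adj h i p j) (A2 : Adj h2 j p g)
    (A' : Adj h' i p.rev k) (A3 : Adj h3 k p.rev g') (hc : clsW b i = .ring) (hv : v.1 = i)
    (hj : clsW b j = .one) (hk : clsW b k = .one) (hn : (b i).natAbs = 4) (he : isEnd i = false) :
    PrO 4 (clsW b g) (clsW b g') (zs (.inl (.inl h))).re (1 / 2 + ofs (b i) (zs (.inr v)).re)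
      (ofs (b i) (zs (.inl (.inl h))).im) (zs (.inr v)).im (zs (.inl (.inl h'))).re
      (ofs (b i) (zs (.inl (.inl h'))).im) := by
  have B : Adj h i p.rev.rev j := by rwa [Fin.rev_rev]
  have q := (F.w4.own v hv A A2 A' hc hn hj).adj A hv
  have q' := (F.w4.own v hv A' A3 B hc hn hk).adj A' hv
  rw [hk] at q
  rw [hj] at q'
  have E := fun h0 => F.bd4 A A2 A' hc hv hj h0 hn he
  have E' := fun h0 => F.bd4 A' A3 B hc hv hk h0 hn he
  rw [hk] at E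
  rw [hj] at E'
  have B3 : Adj h3 k p.rev g' := A3
  exact po4 (cls_behind F.H.hb A A2 hc hj) (cls_behind F.H.hb A' A3 hc hk) q q' E E' fun h0 h1 =>
    ⟨(F.d4.two v hv A A2 A' A3 hc hn hj hk h0 h1).adj A hv,
      (F.d4.two v hv A' A3 B (by rwa [Fin.rev_rev]) hc hn hk hj h1 h0).adj A' hv⟩

theorem RFacts.pr2_5 (F : RFacts b zs) (A : Adj h i p j) (A2 : Adj h2 j p g)
    (A' : Adj h' i p.rev k) (A3 : Adj h3 k p.rev g') (hc : clsW b i = .ring) (hv : v.1 = i)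
    (hj : clsW b j = .one) (hk : clsW b k = .one) (hn : (b i).natAbs = 5) :
    PrO 5 (clsW b g) (clsW b g') (zs (.inl (.inl h))).re (1 / 2 + ofs (b i) (zs (.inr v)).re)
      (ofs (b i) (zs (.inl (.inl h))).im) (zs (.inr v)).im (zs (.inl (.inl h'))).re
      (ofs (b i) (zs (.inl (.inl h'))).im) := by
  have B : Adj h i p.rev.rev j := by rwa [Fin.rev_rev]
  have q := (F.w5.own v hv A A2 A' hc hn hj).adj A hv
  have q' := (F.w5.own v hv A' A3 B hc hn hk).adj A' hv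
  rw [hk] at q
  rw [hj] at q'
  have E := fun h0 => F.bd5 A A2 A' hc hv hj h0 hn
  have E' := fun h0 => F.bd5 A' A3 B hc hv hk h0 hn
  rw [hk] at E
  rw [hj] at E'
  have B3 : Adj h3 k p.rev g' := A3
  exact po5 (cls_behind F.H.hb A A2 hc hj) (cls_behind F.H.hb A' A3 hc hk) q q' E E' fun h0 h1 =>
    ⟨(F.d5.two v hv A A2 A' A3 hc hn hj hk h0 h1).adj A hv,
      (F.d5.two v hv A' A3 B (by rwa [Fin.rev_rev]) hc hn hk hj h1 h0).adj A' hv⟩

theorem RFacts.pr2_6 (F : RFacts b zs) (A : Adj h i p j) (A2 : Adj h2 j p g)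
    (A' : Adj h' i p.rev k) (A3 : Adj h3 k p.rev g') (hc : clsW b i = .ring) (hv : v.1 = i)
    (hj : clsW b j = .one) (hk : clsW b k = .one) (hn : (b i).natAbs = 6) :
    PrO 6 (clsW b g) (clsW b g') (zs (.inl (.inl h))).re (1 / 2 + ofs (b i) (zs (.inr v)).re)
      (ofs (b i) (zs (.inl (.inl h))).im) (zs (.inr v)).im (zs (.inl (.inl h'))).re
      (ofs (b i) (zs (.inl (.inl h'))).im) := by
  have B : Adj h i p.rev.rev j := by rwa [Fin.rev_rev]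
  have q := (F.w6.own v hv A A2 A' hc hn hj).adj A hv
  have q' := (F.w6.own v hv A' A3 B hc hn hk).adj A' hv
  rw [hk] at q
  rw [hj] at q'
  exact po6 (cls_behind F.H.hb A A2 hc hj) (cls_behind F.H.hb A' A3 hc hk) q q'

theorem RFacts.pr2_7 (F : RFacts b zs) (A : Adj h i p j) (A2 : Adj h2 j p g)
    (A' : Adj h' i p.rev k) (A3 : Adj h3 k p.rev g') (hc : clsW b i = .ring) (hv : v.1 = i)
    (hj : clsW b j = .one) (hk : clsW b k = .one) (hn : (b i).natAbs = 7) :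
    PrO 7 (clsW b g) (clsW b g') (zs (.inl (.inl h))).re (1 / 2 + ofs (b i) (zs (.inr v)).re)
      (ofs (b i) (zs (.inl (.inl h))).im) (zs (.inr v)).im (zs (.inl (.inl h'))).re
      (ofs (b i) (zs (.inl (.inl h'))).im) := by
  have B : Adj h i p.rev.rev j := by rwa [Fin.rev_rev]
  have q := (F.c7.own v hv A A2 A' hc hn hj).adj A hv
  have q' := (F.c7.own v hv A' A3 B hc hn hk).adj A' hv
  exact po7 (cls_behind F.H.hb A A2 hc hj) (cls_behind F.H.hb A' A3 hc hk) q q'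

theorem RFacts.pr2_8 (F : RFacts b zs) (A : Adj h i p j) (A2 : Adj h2 j p g)
    (A' : Adj h' i p.rev k) (A3 : Adj h3 k p.rev g') (hc : clsW b i = .ring) (hv : v.1 = i)
    (hj : clsW b j = .one) (hk : clsW b k = .one) (hn : 8 ≤ (b i).natAbs) :
    PrO (b i).natAbs (clsW b g) (clsW b g') (zs (.inl (.inl h))).re (1 / 2 + ofs (b i) (zs (.inr v)).re)
      (ofs (b i) (zs (.inl (.inl h))).im) (zs (.inr v)).im (zs (.inl (.inl h'))).re
      (ofs (b i) (zs (.inl (.inl h'))).im) := by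
  have B : Adj h i p.rev.rev j := by rwa [Fin.rev_rev]
  have q := (F.c8.own v hv A A2 A' hc hn hj).adj A hv
  have q' := (F.c8.own v hv A' A3 B hc hn hk).adj A' hv
  obtain ⟨f, f', hf, hf', P⟩ :=
    po8 (cls_behind F.H.hb A A2 hc hj) (cls_behind F.H.hb A' A3 hc hk) q q'
  exact ⟨f, f', hf.mono' hn, hf'.mono' hn, P⟩

/-- **A ring between two digits `1`.** -/
theorem RFacts.pr2 (F : RFacts b zs) (A : Adj h i p j) (A2 : Adj h2 j p g)
    (A' : Adj h' i p.rev k) (A3 : Adj h3 k p.rev g') (hc : clsW b i = .ring) (hv : v.1 = i)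
    (hj : clsW b j = .one) (hk : clsW b k = .one) (he : isEnd i = false) :
    PrO (b i).natAbs (clsW b g) (clsW b g') (zs (.inl (.inl h))).re (1 / 2 + ofs (b i) (zs (.inr v)).re)
      (ofs (b i) (zs (.inl (.inl h))).im) (zs (.inr v)).im (zs (.inl (.inl h'))).re
      (ofs (b i) (zs (.inl (.inl h'))).im) := by
  have h4 := ring_four F.H.hb (tyW_of_ring F.H.hb hc)
  rcases h4.eq_or_lt with h | h4
  · rw [← h]
    exact F.pr2_4 A A2 A' A3 hc hv hj hk h.symm he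
  rcases (Nat.succ_le_of_lt h4).eq_or_lt with h | h4
  · rw [← h]
    exact F.pr2_5 A A2 A' A3 hc hv hj hk h.symm
  rcases (Nat.succ_le_of_lt h4).eq_or_lt with h | h4
  · rw [← h]
    exact F.pr2_6 A A2 A' A3 hc hv hj hk h.symm
  rcases (Nat.succ_le_of_lt h4).eq_or_lt with h | h4
  · rw [← h]
    exact F.pr2_7 A A2 A' A3 hc hv hj hk h.symm
  exact F.pr2_8 A A2 A' A3 hc hv hj hk h4

theorem RFacts.en1_4 (F : RFacts b zs) (A : Adj h i p j) (A2 : Adj h2 j p g) (hc : clsW b i = .ring)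
    (hv : v.1 = i) (hj : clsW b j = .one) (he : isEnd i = true) (hn : (b i).natAbs = 4) :
    EnS 4 (clsW b g) (zs (.inl (.inl h))).re (1 / 2 + ofs (b i) (zs (.inr v)).re)
      (ofs (b i) (zs (.inl (.inl h))).im) (zs (.inr v)).im := by
  have q := (F.w4.fin v hv A A2 he hc hn hj).adj A hv
  refine pe4 (cls_behind F.H.hb A A2 hc hj) q fun h0 => ?_
  have A2' : Adj h2 j p.rev.rev g := by rwa [Fin.rev_rev]
  obtain ⟨W, hW, hI⟩ := F.H.hG.one v hv A.symm A2' hj (Or.inl hn)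
  rw [hn, he, h0] at hW
  rw [h0] at q
  have q0 : (mk4 2480 2791 1927 2094 1031 1280 293 449 (-927) (-642) 4778 4485).Re
      (zs (.inl (.inl h))).re (1 / 2 + ofs (b i) (zs (.inr v)).re)
      (ofs (b i) (zs (.inl (.inl h))).im) (zs (.inr v)).im := q
  obtain ⟨i1, i2, i3, i4, i5, i6, i7⟩ := hI
  simp only [ofr_re, ofr_im, ofz_re, ofz_im] at i1 i2 i3 i4 i5 i6 i7
  simp only [rw1, List.mem_cons, List.not_mem_nil, or_false] at hW
  rcases hW with rfl | rfl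
  · left
    refine ⟨?_, ?_, ?_, ?_, ?_, ?_, q0.r0, q0.r1, q0.t0, q0.t1, ?_, q0.cr⟩ <;> simp only [mk4] <;>
      push_cast <;> linarith
  · right
    refine ⟨?_, ?_, ?_, ?_, ?_, ?_, q0.r0, q0.r1, q0.t0, q0.t1, ?_, q0.cr⟩ <;> simp only [mk4] <;>
      push_cast <;> linarith

theorem RFacts.en1_5 (F : RFacts b zs) (A : Adj h i p j) (A2 : Adj h2 j p g) (hc : clsW b i = .ring)
    (hv : v.1 = i) (hj : clsW b j = .one) (he : isEnd i = true) (hn : (b i).natAbs = 5) :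
    EnS 5 (clsW b g) (zs (.inl (.inl h))).re (1 / 2 + ofs (b i) (zs (.inr v)).re)
      (ofs (b i) (zs (.inl (.inl h))).im) (zs (.inr v)).im := by
  have q := (F.w5.fin v hv A A2 he hc hn hj).adj A hv
  exact pe5 (cls_behind F.H.hb A A2 hc hj) q

theorem RFacts.en1_6 (F : RFacts b zs) (A : Adj h i p j) (A2 : Adj h2 j p g) (hc : clsW b i = .ring)
    (hv : v.1 = i) (hj : clsW b j = .one) (he : isEnd i = true) (hn : (b i).natAbs = 6) :
    EnS 6 (clsW b g) (zs (.inl (.inl h))).re (1 / 2 + ofs (b i) (zs (.inr v)).re)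
      (ofs (b i) (zs (.inl (.inl h))).im) (zs (.inr v)).im := by
  have q := (F.w6.fin v hv A A2 he hc hn hj).adj A hv
  exact pe6 (cls_behind F.H.hb A A2 hc hj) q

theorem RFacts.en1_7 (F : RFacts b zs) (A : Adj h i p j) (A2 : Adj h2 j p g) (hc : clsW b i = .ring)
    (hv : v.1 = i) (hj : clsW b j = .one) (he : isEnd i = true) (hn : (b i).natAbs = 7) :
    EnS 7 (clsW b g) (zs (.inl (.inl h))).re (1 / 2 + ofs (b i) (zs (.inr v)).re)
      (ofs (b i) (zs (.inl (.inl h))).im) (zs (.inr v)).im := by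
  have q := (F.c7.fin v hv A A2 he hc hn hj).adj A hv
  exact pe7 (cls_behind F.H.hb A A2 hc hj) q

theorem RFacts.en1_8 (F : RFacts b zs) (A : Adj h i p j) (A2 : Adj h2 j p g) (hc : clsW b i = .ring)
    (hv : v.1 = i) (hj : clsW b j = .one) (he : isEnd i = true) (hn : 8 ≤ (b i).natAbs) :
    EnS (b i).natAbs (clsW b g) (zs (.inl (.inl h))).re (1 / 2 + ofs (b i) (zs (.inr v)).re)
      (ofs (b i) (zs (.inl (.inl h))).im) (zs (.inr v)).im := by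
  have q := (F.c8.fin v hv A A2 he hc hn hj).adj A hv
  obtain ⟨f, hf, P⟩ := pe8 (cls_behind F.H.hb A A2 hc hj) q
  exact ⟨f, hf.mono' hn, P⟩

/-- **A ring at an end next to a digit `1`.** -/
theorem RFacts.en1 (F : RFacts b zs) (A : Adj h i p j) (A2 : Adj h2 j p g) (hc : clsW b i = .ring)
    (hv : v.1 = i) (hj : clsW b j = .one) (he : isEnd i = true) :
    EnS (b i).natAbs (clsW b g) (zs (.inl (.inl h))).re (1 / 2 + ofs (b i) (zs (.inr v)).re)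
      (ofs (b i) (zs (.inl (.inl h))).im) (zs (.inr v)).im := by
  have h4 := ring_four F.H.hb (tyW_of_ring F.H.hb hc)
  rcases h4.eq_or_lt with h | h4
  · rw [← h]
    exact F.en1_4 A A2 hc hv hj he h.symm
  rcases (Nat.succ_le_of_lt h4).eq_or_lt with h | h4
  · rw [← h]
    exact F.en1_5 A A2 hc hv hj he h.symm
  rcases (Nat.succ_le_of_lt h4).eq_or_lt with h | h4
  · rw [← h]
    exact F.en1_6 A A2 hc hv hj he h.symm
  rcases (Nat.succ_le_of_lt h4).eq_or_lt with h | h4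
  · rw [← h]
    exact F.en1_7 A A2 hc hv hj he h.symm
  exact F.en1_8 A A2 hc hv hj he h4

end SR

end Pool.Agent.Work.MP_b30479_gtS.G2

end

section

/-!
# Rings in a word: the pair of hinges of a ring, all cases
-/

namespace Pool.Agent.Work.MP_b30479_gtS.G2

open Finset VOL Filter Topology

namespace SR

variable {M : ℕ} {b : Fin (M + 1) → ℤ} {zs : DD (tyW b) ⊕ ZZ (tyW b) → ℂ}
variable {y : DD (tyW b) ⊕ ZZ (tyW b) → ℝ}
variable {h h' h2 h3 : Fin M} {i j k g g' : Fin (M + 1)} {p : Fin 3} {v : ZZ (tyW b)}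

/-- **Slacks of the ring `i` at the hinge `h`, which the neighbour `j` pays for.** -/
structure Sl (b : Fin (M + 1) → ℤ) (zs : DD (tyW b) ⊕ ZZ (tyW b) → ℂ) (h : Fin M)
    (i j : Fin (M + 1)) (p : Fin 3) (f g : ℝ → ℝ) : Prop where
  up : f = (fun _ => 0) ∨ (clsW b j = .one ∧
    (∃ (h2 : Fin M) (k : Fin (M + 1)), Adj h2 j p k ∧ clsW b k = .two) ∧
    2563 / 10000 ≤ (zs (.inl (.inl h))).re ∧
    ((-(128 / 1000) ≤ ofs (b i) (zs (.inl (.inl h))).im ∧ f = fun m => 38 / 100 * m) ∨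
      (-(138 / 1000) ≤ ofs (b i) (zs (.inl (.inl h))).im ∧ f = fun m => 355 / 1000 * m)))
  dn : g = (fun _ => 0) ∨ (clsW b j = .twoE ∧ (b i).natAbs = 4 ∧ g = fun m => 1 / 2 * m)

theorem Sl.fnn {f g : ℝ → ℝ} (S : Sl b zs h i j p f g) (m : ℝ) (hm : 0 < m) : 0 ≤ f m := by
  rcases S.up with e | ⟨-, -, -, ⟨-, e⟩ | ⟨-, e⟩⟩ <;> rw [e] <;> dsimp only <;> linarith

theorem Sl.gnn {f g : ℝ → ℝ} (S : Sl b zs h i j p f g) (m : ℝ) (hm : 0 < m) : 0 ≤ g m := by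
  rcases S.dn with e | ⟨-, -, e⟩ <;> rw [e] <;> dsimp only <;> linarith

theorem Sl.zero (b : Fin (M + 1) → ℤ) (zs : DD (tyW b) ⊕ ZZ (tyW b) → ℂ) (h : Fin M)
    (i j : Fin (M + 1)) (p : Fin 3) : Sl b zs h i j p (fun _ => 0) (fun _ => 0) :=
  ⟨Or.inl rfl, Or.inl rfl⟩

theorem Sl.of_FS {f : ℝ → ℝ} (A2 : Adj h2 j p g) (hj : clsW b j = .one)
    (H : FS (b i).natAbs (clsW b g) (zs (.inl (.inl h))).re (ofs (b i) (zs (.inl (.inl h))).im) f) :
    Sl b zs h i j p f (fun _ => 0) := by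
  refine ⟨?_, Or.inl rfl⟩
  rcases H with e | ⟨hg, hx, h3⟩
  · exact Or.inl e
  · refine Or.inr ⟨hj, ⟨h2, g, A2, hg⟩, hx, ?_⟩
    rcases h3 with ⟨-, h4, e⟩ | ⟨-, h4, e⟩
    · exact Or.inl ⟨h4, e⟩
    · exact Or.inr ⟨h4, e⟩

theorem Sl.of_GS {f : ℝ → ℝ} (H : GS (b i).natAbs (clsW b j) f) :
    Sl b zs h i j p (fun _ => 0) f := by
  refine ⟨Or.inl rfl, ?_⟩
  rcases H with e | ⟨h1, h2, e⟩
  · exact Or.inl e
  · exact Or.inr ⟨h1, h2, e⟩

/-- the pair of hinges of the ring `i` -/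
def PrW (b : Fin (M + 1) → ℤ) (zs : DD (tyW b) ⊕ ZZ (tyW b) → ℂ) (v : ZZ (tyW b)) (h h' : Fin M)
    (i j k : Fin (M + 1)) (f g f' g' : ℝ → ℝ) : Prop :=
  RC.Pr (1 / 2 + ofs (b i) (zs (.inr v)).re) (zs (.inr v)).im (zs (.inl (.inl h))).re
    (ofs (b i) (zs (.inl (.inl h))).im) (fcl (clsW b j)) (fcp (clsW b j)) f g
    (zs (.inl (.inl h'))).re (ofs (b i) (zs (.inl (.inl h'))).im) (fcl (clsW b k))
    (fcp (clsW b k)) f' g'

theorem Adj.rev2 (A : Adj h i p j) : Adj h i p.rev.rev j := by rwa [Fin.rev_rev]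

/-- a ring next to a digit `1` at `h` -/
theorem RFacts.prI_one (F : RFacts b zs) (A : Adj h i p j) (A' : Adj h' i p.rev k)
    (hc : clsW b i = .ring) (hv : v.1 = i) (he : isEnd i = false) (hj : clsW b j = .one) :
    ∃ f g f' g', Sl b zs h i j p f g ∧ Sl b zs h' i k p.rev f' g' ∧
      PrW b zs v h h' i j k f g f' g' := by
  obtain ⟨h2, g, A2⟩ := A.symm.other_one F.H.hb hj
  rw [Fin.rev_rev] at A2
  by_cases hk : clsW b k = .one
  · obtain ⟨h3, g', A3⟩ := A'.symm.other_one F.H.hb hk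
    rw [Fin.rev_rev] at A3
    obtain ⟨f, f', hf, hf', P⟩ := F.pr2 A A2 A' A3 hc hv hj hk he
    refine ⟨f, fun _ => 0, f', fun _ => 0, Sl.of_FS A2 hj hf, Sl.of_FS A3 hk hf', ?_⟩
    unfold PrW
    rw [hj, hk]
    exact P
  · obtain ⟨f, g', hf, hg, P⟩ := F.pr1 A A2 A' hc hv hj hk he
    refine ⟨f, fun _ => 0, fun _ => 0, g', Sl.of_FS A2 hj hf, Sl.of_GS hg, ?_⟩
    unfold PrW
    rw [hj]
    exact P

/-- a ring with four crossings next to a digit `2` at an end, at `h` -/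
theorem RFacts.prI_twoE (F : RFacts b zs) (A : Adj h i p j) (A' : Adj h' i p.rev k)
    (hc : clsW b i = .ring) (hv : v.1 = i) (hj : clsW b j = .twoE)
    (h4 : (b i).natAbs = 4) (hk : clsW b k ≠ .one) :
    ∃ f g f' g', Sl b zs h i j p f g ∧ Sl b zs h' i k p.rev f' g' ∧
      PrW b zs v h h' i j k f g f' g' := by
  have q := (F.e2.own v hv A A' hc h4 hj hk).adj A hv
  have r := (F.e2.par v hv A A' hc h4 hj hk).adj A' hv
  have hx := F.H.xs_flat A hc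
  rw [hj] at hx
  obtain ⟨g', hg, P⟩ := pm22 hk q r (fun h0 => F.H.lo A' hc hv hk fun h1 => absurd h1 h0)
    (F.H.ys A hc hv) hx (F.H.xs_flat A' hc)
  refine ⟨fun _ => 0, fun m => 1 / 2 * m, fun _ => 0, g', ⟨Or.inl rfl, Or.inr ⟨hj, h4, rfl⟩⟩,
    Sl.of_GS (by rw [h4]; exact hg), ?_⟩
  unfold PrW
  rw [hj]
  exact P

/-- **The pair of hinges of an interior ring.** -/
theorem RFacts.prI (F : RFacts b zs) (A : Adj h i p j) (A' : Adj h' i p.rev k)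
    (hc : clsW b i = .ring) (hv : v.1 = i) (he : isEnd i = false) :
    ∃ f g f' g', Sl b zs h i j p f g ∧ Sl b zs h' i k p.rev f' g' ∧
      PrW b zs v h h' i j k f g f' g' := by
  by_cases hj : clsW b j = .one
  · exact F.prI_one A A' hc hv he hj
  by_cases hk : clsW b k = .one
  · obtain ⟨f, g, f', g', S, S', P⟩ := F.prI_one A' A.rev2 hc hv he hk
    rw [Fin.rev_rev] at S'
    exact ⟨f', g', f, g, S', S, P.symm⟩
  by_cases hjE : clsW b j = .twoE ∧ (b i).natAbs = 4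
  · exact F.prI_twoE A A' hc hv hjE.1 hjE.2 hk
  by_cases hkE : clsW b k = .twoE ∧ (b i).natAbs = 4
  · obtain ⟨f, g, f', g', S, S', P⟩ := F.prI_twoE A' A.rev2 hc hv hkE.1 hkE.2 hj
    rw [Fin.rev_rev] at S'
    exact ⟨f', g', f, g, S', S, P.symm⟩
  have h4 := ring_four F.H.hb (tyW_of_ring F.H.hb hc)
  obtain ⟨-, l, d⟩ := F.H.lo A hc hv hj fun h0 => by
    rcases h4.eq_or_lt with h5 | h5
    · exact absurd ⟨h0, h5.symm⟩ hjE
    · exact h5
  obtain ⟨-, l', d'⟩ := F.H.lo A' hc hv hk fun h0 => by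
    rcases h4.eq_or_lt with h5 | h5
    · exact absurd ⟨h0, h5.symm⟩ hkE
    · exact h5
  exact ⟨_, _, _, _, Sl.zero b zs h i j p, Sl.zero b zs h' i k p.rev,
    RC.Pr.of_lo l l' d d' (F.H.ys A hc hv) (F.H.xs_flat A hc) (F.H.xs_flat A' hc) (fcl_pos' _)
      (fcl_pos' _) (by linarith [fcp_lt' (clsW b j)]) (by linarith [fcp_lt' (clsW b k)])
      (fun _ _ => le_rfl) (fun _ _ => le_rfl) (fun _ _ => le_rfl) (fun _ _ => le_rfl)⟩

/-- **The hinge of a ring at an end.** -/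
theorem RFacts.enI (F : RFacts b zs) (A : Adj h i p j)
    (hc : clsW b i = .ring) (hv : v.1 = i) (he : isEnd i = true) :
    ∃ f g, Sl b zs h i j p f g ∧ RC.En (zs (.inl (.inl h))).re (1 / 2 + ofs (b i) (zs (.inr v)).re)
      (ofs (b i) (zs (.inl (.inl h))).im) (zs (.inr v)).im (fcl (clsW b j)) (fcp (clsW b j)) f g := by
  by_cases hj : clsW b j = .one
  · obtain ⟨h2, g, A2⟩ := A.symm.other_one F.H.hb hj
    rw [Fin.rev_rev] at A2
    obtain ⟨f, hf, P⟩ := F.en1 A A2 hc hv hj he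
    refine ⟨f, fun _ => 0, Sl.of_FS A2 hj hf, ?_⟩
    rw [hj]
    exact P
  have h4 := ring_four F.H.hb (tyW_of_ring F.H.hb hc)
  by_cases hjE : clsW b j = .twoE ∧ (b i).natAbs = 4
  · have q := (F.H4.four v hv A hc hjE.2).adj A hv
    rw [he, hjE.1] at q
    have hx := F.H.xs_flat A hc
    rw [hjE.1] at hx
    refine ⟨fun _ => 0, fun m => 1 / 2 * m, ⟨Or.inl rfl, Or.inr ⟨hjE.1, hjE.2, rfl⟩⟩, ?_⟩
    rw [hjE.1]
    exact pe42 q (F.H.ys A hc hv) hx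
  obtain ⟨-, l, d⟩ := F.H.lo A hc hv hj fun h0 => by
    rcases h4.eq_or_lt with h5 | h5
    · exact absurd ⟨h0, h5.symm⟩ hjE
    · exact h5
  exact ⟨_, _, Sl.zero b zs h i j p, RC.En.of_lo l d (F.H.ys A hc hv) (F.H.xs_flat A hc)
    (fcl_pos' _) (by linarith [fcp_lt' (clsW b j)]) (fun _ _ => le_rfl) (fun _ _ => le_rfl)⟩

end SR

end Pool.Agent.Work.MP_b30479_gtS.G2

end
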