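import Pool.Agent.Work.MP_b30479_gt.TBS.G2.ZRe5
import Pool.Agent.Work.MP_b30479_gt.TBS.G2.S0RAG_0
import Pool.Agent.Work.MP_b30479_gt.TBS.G2.S0RG_1
import Pool.Agent.Work.MP_b30479_gt.TBS.G2.WLocF

section

/-!
# The own side of an interior `3` at slot `0`, `2 | 3`, `x` in `[.33, .36]`, after the floors `F2`

`u` the hinge, `v` the inner variable, `w` the hinge in the slot `2`.
-/

set_option linter.unusedVariables false

namespace Pool.Agent.Work.MP_b30479_gtS.G2

open VOL NumUs

namespace S0R

/-- **Low branch** -/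
theorem low_A {T t : ℝ} {u v w : ℂ} (hx : 33 / 100 ≤ u.re) (hx' : u.re ≤ 36 / 100)
    (hu : u.im = 100 / 27 * T * (6 / 10 - u.re)) (hK : A1 T t w ∨ Ao T t w ∨ AZ T t w)
    (hrh : RH v t (8 / 10) (5 / 100) (5 / 100)) (hl : v.re ≤ u.re - 9 / 100) :
    ∃ c : ℝ, 5 / 100 ≤ c ∧ c ≤ 75 / 100 ∧ ∀ v' : ℂ, v'.re = c → v'.im = t →
      V3 u v w < V3 u v' w := by
  have hr0 := hrh.re0
  have e : u.im = rui (100 / 27) u.re T := hu
  rcases hK with hK | hK
  · obtain ⟨a1, a2, a3, a4, a5, a6, a7, a8, a9, a10, a11⟩ := hK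
    have hTu : -(530 / 10000) ≤ u.im := by
      rw [hu]
      nlinarith only [a5, hx, a2, a3, a6]
    refine ⟨4400 / 10000, by norm_num, by norm_num, low_of hrh rfl (by linarith only [hx', hl])
      (abs_le.2 ⟨by linarith only [a1], by linarith only [a2]⟩) ?_ ?_ ?_ ?_⟩
    · intro h g
      rw [e] at g ⊢
      exact g1n (by linarith only [hx]) (by linarith only [hx']) (by linarith only [a5]) (by linarith only [a6]) (by linarith only [a7]) (by linarith only [a8]) (by linarith only [a9]) (by linarith only [a10]) (by linarith only [h]) (by linarith only [hx', hl]) (by linarith only [a1]) (by linarith only [a2]) (by linarith only [hl]) (by linarith only [a7, a9]) (by linarith only [a3]) (by linarith only [g])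
    · intro h g
      have g1 := hTu.trans g
      rw [e] at g ⊢
      exact g1p (by linarith only [hx]) (by linarith only [hx']) (by linarith only [a5]) (by linarith only [a6]) (by linarith only [a7]) (by linarith only [a8]) (by linarith only [a9]) (by linarith only [a10]) (by linarith only [h]) (by linarith only [hx', hl]) (by linarith only [e, hTu, g]) (by linarith only [a2]) (by linarith only [hl]) (by linarith only [a7, a9]) (by linarith only [a4]) (by linarith only [g])
    · intro h g
      rw [e] at g ⊢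
      exact g1rn (by linarith only [hx]) (by linarith only [hx']) (by linarith only [a5]) (by linarith only [a6]) (by linarith only [a7]) (by linarith only [a8]) (by linarith only [a9]) (by linarith only [a10]) (by linarith only [hr0]) (by linarith only [h]) (by linarith only [a1]) (by linarith only [a2]) (by linarith only [a7, a9]) (by linarith only [a3]) (by linarith only [g])
    · intro h g
      rw [e] at g ⊢
      exact g1rp (by linarith only [hx]) (by linarith only [hx']) (by linarith only [a5]) (by linarith only [a6]) (by linarith only [a7]) (by linarith only [a8]) (by linarith only [a9]) (by linarith only [a10]) (by linarith only [hr0]) (by linarith only [h]) (by linarith only [a1]) (by linarith only [a2]) (by linarith only [a7, a9]) (by linarith only [a4]) (by linarith only [g])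
  · have hK' : -(800 / 10000) ≤ t ∧ t ≤ -(130 / 10000) ∧ T - t ≤ 495 / 10000 ∧
        t - T ≤ 135 / 10000 ∧ -(490 / 10000) ≤ T ∧ T ≤ 22 / 10000 ∧ 13 / 100 ≤ w.re ∧
        w.re ≤ 31 / 100 ∧ -(98 / 1000) ≤ w.im ∧ w.im ≤ 57 / 1000 ∧ -(98 / 130 * w.re) ≤ w.im := by
      rcases hK with hK | hK
      · obtain ⟨a1, a2, a3, a4, a5, a6, a7, a8, a9, a10, a11⟩ := hK
        exact ⟨a1, a2, a3, a4, a5, a6.trans (by norm_num), a7, a8, a9, a10.trans (by norm_num),
          a11⟩
      · obtain ⟨a1, a2, a3, a4, a5, a6, a7, a8, a9, a10, a11⟩ := hK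
        exact ⟨le_trans (by norm_num) a1, a2.trans (by norm_num), a3.trans (by norm_num),
          a4.trans (by norm_num), le_trans (by norm_num) a5, a6, a7, a8, a9, a10, a11⟩
    obtain ⟨a1, a2, a3, a4, a5, a6, a7, a8, a9, a10, a11⟩ := hK'
    have hTu : -(490 / 10000) ≤ u.im := by
      rw [hu]
      nlinarith only [a5, hx, a6, hx']
    refine ⟨4400 / 10000, by norm_num, by norm_num, low_of hrh rfl (by linarith only [hx', hl])
      (abs_le.2 ⟨by linarith only [a1], by linarith only [a2]⟩) ?_ ?_ ?_ ?_⟩
    · intro h g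
      rw [e] at g ⊢
      exact gon (by linarith only [hx]) (by linarith only [hx']) (by linarith only [a5]) (by linarith only [a6]) (by linarith only [a7]) (by linarith only [a8]) (by linarith only [a9]) (by linarith only [a10]) (by linarith only [h]) (by linarith only [hx', hl]) (by linarith only [a1]) (by linarith only [a2]) (by linarith only [hl]) (by linarith only [a7, a9]) (by linarith only [a3]) (by linarith only [g])
    · intro h g
      have g1 := hTu.trans g
      rw [e] at g ⊢
      exact gop (by linarith only [hx]) (by linarith only [hx']) (by linarith only [a5]) (by linarith only [a6]) (by linarith only [a7]) (by linarith only [a8]) (by linarith only [a9]) (by linarith only [a10]) (by linarith only [h]) (by linarith only [hx', hl]) (by linarith only [e, hTu, g]) (by linarith only [a2]) (by linarith only [hl]) (by linarith only [a7, a9]) (by linarith only [a4]) (by linarith only [g])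
    · intro h g
      rw [e] at g ⊢
      exact gorn (by linarith only [hx]) (by linarith only [hx']) (by linarith only [a5]) (by linarith only [a6]) (by linarith only [a7]) (by linarith only [a8]) (by linarith only [a9]) (by linarith only [a10]) (by linarith only [hr0]) (by linarith only [h]) (by linarith only [a1]) (by linarith only [a2]) (by linarith only [a7, a9]) (by linarith only [a3]) (by linarith only [g])
    · intro h g
      rw [e] at g ⊢
      exact gorp (by linarith only [hx]) (by linarith only [hx']) (by linarith only [a5]) (by linarith only [a6]) (by linarith only [a7]) (by linarith only [a8]) (by linarith only [a9]) (by linarith only [a10]) (by linarith only [hr0]) (by linarith only [h]) (by linarith only [a1]) (by linarith only [a2]) (by linarith only [a7, a9]) (by linarith only [a4]) (by linarith only [g])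

end S0R

end Pool.Agent.Work.MP_b30479_gtS.G2

end

section

/-!
# The own side of an interior `3` at slot `0`, `2 | 3`, on `(.33, .36]`, after the floors `F2`

Hypotheses: the hinge in the slot `2` is at least `15/100` next to a `1`, `13/100` else; at most
`39/100` next to a `1`, `31/100` else; and the windows `LocMd`.
-/

namespace Pool.Agent.Work.MP_b30479_gtS.G2

open Finset VOL Filter Topology S0R

namespace SR

variable {M : ℕ} {b : Fin (M + 1) → ℤ} {zs : DD (tyW b) ⊕ ZZ (tyW b) → ℂ}
variable {y : DD (tyW b) ⊕ ZZ (tyW b) → ℝ}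
variable {h h' : Fin M} {i j k j' : Fin (M + 1)} {p : Fin 3}

/-- the hinge in the slot `2` of an interior `3` next to a `1`, at least `15/100` -/
theorem Adj.s0a_w1 (A : Adj h i 2 k) (hb : ClassW b) (hL : Loc b zs) (hy : Mx b zs y)
    (hi : clsW b i = .three) (hk : clsW b k = .one) (h7 : 15 / 100 ≤ y (.inl (.inl h)))
    (hc : y (.inl (.inl h)) ≤ 39 / 100) : (Yw b zs y i 2).im ≤ -(188 / 10000) := by
  have hop := A.opp hb (Or.inl (by rw [hi]; decide))
  obtain ⟨-, -, h3, h4⟩ := A.box hb hL
  rw [hi, hk, A.ss hop] at h3 h4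
  simp only [hbox] at h3 h4
  obtain ⟨e1, e2, e3⟩ := (A.s0r_par2 hi).1 hk
  have hrh := A.rh hy
  have hre := A.re (b := b) (zs := zs) (y := y)
  rw [e1, e2, e3] at hrh
  rcases le_total (Yw b zs y i 2).re (65 / 100 - 29 / 100) with h2 | h2
  · rw [MR.RH_flat hrh (by norm_num) (by norm_num) (by rw [hre]; exact h7) h2]
    linarith only [h4]
  · rw [MR.RH_right hrh (by norm_num) (by norm_num) (by norm_num) h2]
    have : 26 / 29 ≤ (65 / 100 - (Yw b zs y i 2).re) / (29 / 100) := by
      rw [le_div_iff₀ (by norm_num), hre]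
      linarith only [hc]
    nlinarith only [hc, h4, hre, h3]

/-- the windows -/
theorem s0a_W (hb : ClassW b) (hL : Loc b zs) (hD : LocMd b zs) (hy : Mx b zs y)
    (A : Adj h i 0 j) (A' : Adj h' i 2 k) (hi : clsW b i = .three) (hj : clsW b j = .two)
    (h1 : clsW b k = .one → 15 / 100 ≤ y (.inl (.inl h')) ∧ y (.inl (.inl h')) ≤ 39 / 100)
    (h2 : clsW b k ≠ .one → 13 / 100 ≤ y (.inl (.inl h')) ∧ y (.inl (.inl h')) ≤ 31 / 100) :
    S0R.A1 (ofs (b i) (zs (.inl (.inl h))).im) (tW zs (Or.inl hi)) (Yw b zs y i 2) ∨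
      S0R.Ao (ofs (b i) (zs (.inl (.inl h))).im) (tW zs (Or.inl hi)) (Yw b zs y i 2) ∨
      S0R.AZ (ofs (b i) (zs (.inl (.inl h))).im) (tW zs (Or.inl hi)) (Yw b zs y i 2) := by
  have hre := A'.re (b := b) (zs := zs) (y := y)
  have hw : (mw2 (clsW b k)).In (tW zs (Or.inl hi)) (ofs (b i) (zs (.inl (.inl h))).im) :=
    hD.two (tyW_isMid (Or.inl hi)) A A' hi hj
  obtain ⟨w1, w2, w3, w4, w5, w6⟩ := hw
  by_cases hk : clsW b k = .one
  · obtain ⟨f1, f2⟩ := h1 hk
    obtain ⟨g1, -, g3⟩ := A'.s0r_w1 hb hL hy hi hk (by linarith only [f1]) f2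
    have g2 := A'.s0a_w1 hb hL hy hi hk f1 f2
    rw [hk] at w1 w2 w3 w4 w5 w6
    simp only [mw2] at w1 w2 w3 w4 w5 w6
    exact Or.inl ⟨by linarith only [hi, w1], by linarith only [hi, w2], by linarith only [hi, w3], by linarith only [hi, w4], by linarith only [w5], by linarith only [w6],
      by rw [hre]; exact f1, by rw [hre]; exact f2, g1, g2, g3⟩
  · obtain ⟨f1, f2⟩ := h2 hk
    obtain ⟨g1, g2, g3, g4, -⟩ := A'.s0r_wo hb hL hy hi hk
    by_cases hk' : clsW b k = .ring
    · rw [hk'] at w1 w2 w3 w4 w5 w6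
      simp only [mw2] at w1 w2 w3 w4 w5 w6
      exact Or.inr (Or.inr ⟨by linarith only [hi, w1], by linarith only [hi, w2], by linarith only [hi, w3], by linarith only [hi, w4], by linarith only [w5],
        by linarith only [w6], by rw [hre]; exact f1, by rw [hre]; exact f2, g1, g3, g4⟩)
    · have m1 : -(800 / 10000) ≤ (mw2 (clsW b k)).t0 ∧ (mw2 (clsW b k)).t1 ≤ -(130 / 10000) ∧
          -(495 / 10000) ≤ (mw2 (clsW b k)).s0 ∧ (mw2 (clsW b k)).s1 ≤ 135 / 10000 ∧
          -(490 / 10000) ≤ (mw2 (clsW b k)).y0 ∧ (mw2 (clsW b k)).y1 ≤ 20 / 10000 := by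
        generalize clsW b k = C at hk hk'
        cases C <;> first | exact absurd rfl hk | exact absurd rfl hk' | norm_num [mw2]
      obtain ⟨m1, m2, m3, m4, m5, m6⟩ := m1
      exact Or.inr (Or.inl ⟨by linarith only [hi, w1, m1], by linarith only [hi, w2, m2], by linarith only [hi, w3, m3], by linarith only [hi, w4, m4], by linarith only [w5, m5],
        by linarith only [w6, m6], by rw [hre]; exact f1, by rw [hre]; exact f2, g1, g2 hk', g4⟩)

/-- **`2 | 3`**: the side of the `3` on the right ramp, `x` in `(.33, .36]`, after the floors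
`F2` -/
theorem s0a_two (hb : ClassW b) (hL : Loc b zs) (hX : LocX b zs) (hD : LocMd b zs)
    (hy : Mx b zs y) (hpos : ∀ h : Fin M, 0 < y (.inl (.inl h))) (A : Adj h i 0 j)
    (A' : Adj h' i 2 k) (hi : clsW b i = .three) (hj : clsW b j = .two)
    (h1 : clsW b k = .one → 15 / 100 ≤ y (.inl (.inl h')) ∧ y (.inl (.inl h')) ≤ 39 / 100)
    (h2 : clsW b k ≠ .one → 13 / 100 ≤ y (.inl (.inl h')) ∧ y (.inl (.inl h')) ≤ 31 / 100)
    (hx0 : 33 / 100 < y (.inl (.inl h))) (hx1 : y (.inl (.inl h)) ≤ 36 / 100) :
    Sw b zs y i 0 (slL b zs y h) + Real.pi / 2 * ofs (b i) (slL b zs y h) < 0 := by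
  obtain ⟨q1, q2, q3⟩ := A.par_s0_two hi hj
  have hre := A.re (b := b) (zs := zs) (y := y)
  have hK := s0a_W hb hL hD hy A A' hi hj h1 h2
  have h7 : 7 / 100 ≤ y (.inl (.inl h')) := by
    by_cases hk : clsW b k = .one
    · linarith only [h1, hk, (h1 hk).1]
    · linarith only [h2, hk, (h2 hk).1]
  have hc : y (.inl (.inl h')) ≤ cap2 (clsW b k) := by
    by_cases hk : clsW b k = .one
    · rw [hk]
      exact (h1 hk).2
    · refine (h2 hk).2.trans ?_
      generalize clsW b k = C
      cases C <;> norm_num [cap2]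
  obtain ⟨-, hR, -⟩ := s0r_KW hb hL hX hy A A' hi (by rw [hj]; decide) (by rw [hj]; decide) h7 hc
  have hv := rh_three hy hi
  have hu : (Yw b zs y i 0).im = 100 / 27 * ofs (b i) (zs (.inl (.inl h))).im *
      (6 / 10 - (Yw b zs y i 0).re) := by
    rw [A.h27l hy q1 q2 (by rw [q3]; norm_num) hx0.le]
    unfold V2A.h27
    ring
  have hsl : ofs (b i) (slL b zs y h) = -(100 / 27 * ofs (b i) (zs (.inl (.inl h))).im) := by
    rw [ofs_slL_ramp _ (by rw [q1, q2]; linarith only [hx0]), q2]
    ring
  have hval := s0r_val hb hy hi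
  have hlow : y (.inl (.inl h)) - 9 / 100 < (OY b zs y i 1).re := by
    by_contra hcon
    push Not at hcon
    obtain ⟨c, c0, c1, c2⟩ := low_A (by rw [hre]; exact hx0.le) (by rw [hre]; exact hx1) hu hK
      hv (by rw [hre]; exact hcon)
    exact absurd (hval c c0 c1 ⟨c, tW zs (Or.inl hi)⟩ rfl rfl) (not_le.2 (c2 _ rfl rfl))
  obtain ⟨m1, m2, r1, r2⟩ := s0r_mid hb hy hpos hi (by linarith only [hx0, hlow])
  have hT : -(530 / 10000) ≤ ofs (b i) (zs (.inl (.inl h))).im ∧
      ofs (b i) (zs (.inl (.inl h))).im ≤ 22 / 10000 := by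
    rcases hK with g | g | g
    · exact ⟨g.y0, g.y1.trans (by norm_num)⟩
    · exact ⟨le_trans (by norm_num) g.y0, g.y1.trans (by norm_num)⟩
    · exact ⟨le_trans (by norm_num) g.y0, g.y1⟩
  have key : S3 1 (-(100 / 27 * ofs (b i) (zs (.inl (.inl h))).im)) (Yw b zs y i 0)
      (OY b zs y i 1) < 0 + Real.pi * (1 / 2) *
        (100 / 27 * ofs (b i) (zs (.inl (.inl h))).im) := by
    rcases le_or_gt (OY b zs y i 1).re (75 / 100) with g1 | g1
    · have hfl := V2A.mid_flat hv (by linarith only [hx0, hlow]) g1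
      rcases le_total ((OY b zs y i 1).re - (Yw b zs y i 0).re) (1 / 10) with g2 | g2
      · exact near_A (by rw [hre]; exact hx0.le) (by rw [hre]; exact hx1) hu hK hfl
          (by rw [hre]; linarith only [hlow]) g2 r2
      · exact far_A (by rw [hre]; exact hx0.le) (by rw [hre]; exact hx1) hu hK hfl g2 g1
          (m1 (by linarith only [hx0, hre, g2]) g1) r1
    · exfalso
      refine no_ramp (s := 8 / 10 - (OY b zs y i 1).re) (by rw [hre]; linarith only [hx0])
        (by rw [hre]; linarith only [hx1]) ?_ hR (by ring) ?_ (by linarith only [hi, hv, hv.reM]) (by linarith only [g1]) (m2 g1)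
        hval r1
      · obtain ⟨t1, t2⟩ := hT
        rw [hu, abs_le]
        constructor <;> nlinarith only [hx1, hre, t1, hx0, t2]
      · rw [V2A.mid_right hv g1.le]
        ring
  rw [A.side_three_zero hb hi, ← OY_mid (Or.inl hi), hsl]
  linarith only [key]

end SR

end Pool.Agent.Work.MP_b30479_gtS.G2

end
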