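import Pool.Agent.Work.MP_b30479_gt.TBS.G2.MLM
import Pool.Agent.Work.MP_b30479_gt.TBS.G2.MLS

section

/-!
# Conditional floors: certificates

Generated.
-/

set_option deprecated.oldSectionVars true

namespace Pool.Agent.Work.MP_b30479_gtS.G2.MF

open NumIs NumIs.E

theorem a2_0 : runT (row 1 10 540 460 780 0 0)
    (.x .a (.z (.x .a (.z .b (.x .a (.z (.x .a (.y .a (.z .b (.x .a (.y .a (.z .b .a)))))) .a)))) .a))
    (bx 1600 2341 4000 4250 100 770) = true := by decide +kernel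

theorem aE_0 : runT (row 1 10 359 870 510 0 0)
    (.x .a (.x .a (.x .a .b)))
    (bx 1400 2466 4000 4250 (-450) (-250)) = true := by decide +kernel

theorem a1_0 : runT (row 1 0 627 390 420 0 0)
    (.x .a (.x .a (.x .a (.z (.z .b .a) (.z .a .a)))))
    (bx 1500 1915 4000 4250 (-160) 500) = true := by decide +kernel

theorem g1_0 : runT (row 1 0 385 180 110 0 0)
    .a
    (bx 1500 1915 4000 4250 (-360) 400) = true := by decide +kernel

theorem h1_0 : runT (row 1 0 276 440 70 0 0)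
    .a
    (bx 1500 1915 4000 4250 (-550) (-320)) = true := by decide +kernel

theorem b2_0_0 : runT (row 2 0 (-539) (-985) (-9000) 0 0)
    (.x (.y .a .a) (.x (.y .a .a) (.y .a (.y .a .a))))
    (bx 1600 2341 1000 5100 (-770) (-100)) = true := by decide +kernel

theorem b2_0_1 : runT (row 2 0 (-539) (-985) (-9000) 800 290)
    (.x .a .a)
    (bx 1600 2341 5100 5350 (-770) (-100)) = true := by decide +kernel

theorem b2_0_2 : runT (row 2 0 (-539) (-800) (-9000) 800 290)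
    (.x .a (.x .a (.x .a (.x .a (.y .a (.z .a (.z .a .a)))))))
    (bx 1600 2341 5350 5600 (-770) (-100)) = true := by decide +kernel

theorem bE_0 : runT (rowE 0 (-358))
    (.x .a (.x .a (.x .a .a)))
    (bxE 1400 2466 250 450) = true := by decide +kernel

theorem b1_0_0 : runT (row 1 0 (-626) (-690) (-670) 0 0)
    (.y .a (.y .a .a))
    (bx 1500 1915 1250 6000 (-500) 160) = true := by decide +kernel

theorem b1_0_1 : runT (row 1 0 (-626) (-690) (-670) 800 200)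
    (.y .b (.x .c (.y .c (.x .c (.z .c (.y .b (.x .b (.z .c (.y .a (.z .a .a))))))))))
    (bx 1500 1915 6000 7000 (-500) 160) = true := by decide +kernel

theorem c1_0 : runT (row 1 0 (-384) (-60) (-9000) 0 0)
    (.y (.y .a .a) (.y .a (.y .a .a)))
    (bx 1500 1915 1100 6500 (-400) 360) = true := by decide +kernel

theorem d1_0 : runT (row 1 0 (-275) (-600) (-9000) 0 0)
    (.y .a .a)
    (bx 1500 1915 1250 3700 320 550) = true := by decide +kernel

theorem a2_1 : runT (row 1 10 511 460 780 0 0)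
    (.x .a (.z (.x .a (.z .b (.x .a (.z (.y .a (.x .a (.z .b (.z .b .a)))) .a)))) .a))
    (bx 1600 2313 4250 4500 100 770) = true := by decide +kernel

theorem aE_1 : runT (row 1 10 341 870 510 0 0)
    (.x .a (.x .a (.x .a .b)))
    (bx 1400 2407 4250 4500 (-450) (-250)) = true := by decide +kernel

theorem a1_1 : runT (row 1 0 606 390 420 0 0)
    (.x .a (.x .a (.x .a (.y (.z .a .a) (.z (.z .b .a) (.z .a .a))))))
    (bx 1500 1899 4250 4500 (-160) 500) = true := by decide +kernel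

theorem g1_1 : runT (row 1 0 365 180 110 0 0)
    .a
    (bx 1500 1899 4250 4500 (-360) 400) = true := by decide +kernel

theorem h1_1 : runT (row 1 0 261 440 70 0 0)
    .a
    (bx 1500 1899 4250 4500 (-550) (-320)) = true := by decide +kernel

theorem b2_1_0 : runT (row 2 0 (-510) (-985) (-9000) 0 0)
    (.x (.y .a .a) (.x .b (.y .a (.y .a .a))))
    (bx 1600 2313 1000 5100 (-770) (-100)) = true := by decide +kernel

theorem b2_1_1 : runT (row 2 0 (-510) (-985) (-9000) 800 290)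
    (.x .a .a)
    (bx 1600 2313 5100 5350 (-770) (-100)) = true := by decide +kernel

theorem b2_1_2 : runT (row 2 0 (-510) (-800) (-9000) 800 290)
    (.x .a (.x .a (.x .a (.x .a (.y .a (.z .a (.z .a .a)))))))
    (bx 1600 2313 5350 5600 (-770) (-100)) = true := by decide +kernel

theorem bE_1 : runT (rowE 0 (-340))
    (.x .a (.x .a (.x .a .a)))
    (bxE 1400 2407 250 450) = true := by decide +kernel

theorem b1_1_0 : runT (row 1 0 (-605) (-690) (-670) 0 0)
    (.y .a (.y .a .a))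
    (bx 1500 1899 1250 6000 (-500) 160) = true := by decide +kernel

theorem b1_1_1 : runT (row 1 0 (-605) (-690) (-670) 800 200)
    (.y .b (.x .c (.y .b (.x .c (.z .c (.y .b (.x .b (.z .c (.y .a (.z .a .a))))))))))
    (bx 1500 1899 6000 7000 (-500) 160) = true := by decide +kernel

theorem c1_1 : runT (row 1 0 (-364) (-60) (-9000) 0 0)
    (.y (.y .a .a) (.y .a (.y .a .a)))
    (bx 1500 1899 1100 6500 (-400) 360) = true := by decide +kernel

theorem d1_1 : runT (row 1 0 (-260) (-600) (-9000) 0 0)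
    (.y .a .a)
    (bx 1500 1899 1250 3700 320 550) = true := by decide +kernel

theorem a2_2 : runT (row 1 10 478 460 780 0 0)
    (.x .a (.z (.x .a (.z .b (.x .a (.z (.y .a (.x .a (.z .b (.z .b .a)))) .a)))) .a))
    (bx 1600 2282 4500 4750 100 770) = true := by decide +kernel

theorem aE_2 : runT (row 1 10 320 870 510 0 0)
    (.x .a (.x .a (.x .a .b)))
    (bx 1400 2344 4500 4750 (-450) (-250)) = true := by decide +kernel

theorem a1_2 : runT (row 1 0 580 390 420 0 0)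
    (.x .a (.x .a (.x .a (.y (.z .a .a) (.z (.z .b .a) (.z .a .a))))))
    (bx 1500 1879 4500 4750 (-160) 500) = true := by decide +kernel

theorem g1_2 : runT (row 1 0 341 180 110 0 0)
    .a
    (bx 1500 1879 4500 4750 (-360) 400) = true := by decide +kernel

theorem h1_2 : runT (row 1 0 244 440 70 0 0)
    .a
    (bx 1500 1879 4500 4750 (-550) (-320)) = true := by decide +kernel

theorem b2_2_0 : runT (row 2 0 (-477) (-985) (-9000) 0 0)
    (.x (.y .a .a) (.x .b (.y .a (.y .a .a))))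
    (bx 1600 2282 1000 5100 (-770) (-100)) = true := by decide +kernel

theorem b2_2_1 : runT (row 2 0 (-477) (-985) (-9000) 800 290)
    (.x .a .a)
    (bx 1600 2282 5100 5350 (-770) (-100)) = true := by decide +kernel

theorem b2_2_2 : runT (row 2 0 (-477) (-800) (-9000) 800 290)
    (.x .a (.x .a (.x .a (.x .a (.y .a (.z .a (.z .a .a)))))))
    (bx 1600 2282 5350 5600 (-770) (-100)) = true := by decide +kernel

theorem bE_2 : runT (rowE 0 (-319))
    (.x .a (.x .a (.x .a .a)))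
    (bxE 1400 2344 250 450) = true := by decide +kernel

theorem b1_2_0 : runT (row 1 0 (-579) (-690) (-670) 0 0)
    (.y .a (.y .a .a))
    (bx 1500 1879 1250 6000 (-500) 160) = true := by decide +kernel

theorem b1_2_1 : runT (row 1 0 (-579) (-690) (-670) 800 200)
    (.y .b (.x .c (.y .b (.x .c (.z .c (.y .b (.x .b (.z .b (.y .a (.z .a .a))))))))))
    (bx 1500 1879 6000 7000 (-500) 160) = true := by decide +kernel

theorem c1_2 : runT (row 1 0 (-340) (-60) (-9000) 0 0)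
    (.y (.y .a .a) (.y .a (.y .a .a)))
    (bx 1500 1879 1100 6500 (-400) 360) = true := by decide +kernel

theorem d1_2 : runT (row 1 0 (-243) (-600) (-9000) 0 0)
    (.y .a .a)
    (bx 1500 1879 1250 3700 320 550) = true := by decide +kernel

theorem a2_3 : runT (row 1 10 441 460 780 0 0)
    (.x .a (.z (.x .a (.z .b (.x .a (.z (.y .a (.x .a (.y .b (.z .b (.z .b .a))))) .a)))) .a))
    (bx 1600 2248 4750 5000 100 770) = true := by decide +kernel

theorem aE_3 : runT (row 1 10 298 870 510 0 0)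
    (.x .a (.x .a (.x .a .b)))
    (bx 1400 2277 4750 5000 (-450) (-250)) = true := by decide +kernel

theorem a1_3 : runT (row 1 0 550 390 420 0 0)
    (.x .a (.x .a (.x .a (.y (.z .a .a) (.z (.z .b (.x .a (.y .a (.x .a (.y .a (.z (.x .a (.z (.z .b
    .a) .a)) .a)))))) (.z .a .a))))))
    (bx 1500 1856 4750 5000 (-160) 500) = true := by decide +kernel

theorem g1_3 : runT (row 1 0 314 180 110 0 0)
    .a
    (bx 1500 1856 4750 5000 (-360) 400) = true := by decide +kernel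

theorem h1_3 : runT (row 1 0 223 440 70 0 0)
    .a
    (bx 1500 1856 4750 5000 (-550) (-320)) = true := by decide +kernel

theorem b2_3_0 : runT (row 2 0 (-440) (-985) (-9000) 0 0)
    (.x (.y .a .a) (.x .b (.y .a (.y .a .a))))
    (bx 1600 2248 1000 5100 (-770) (-100)) = true := by decide +kernel

theorem b2_3_1 : runT (row 2 0 (-440) (-985) (-9000) 800 290)
    (.x .a (.x .a .a))
    (bx 1600 2248 5100 5350 (-770) (-100)) = true := by decide +kernel

theorem b2_3_2 : runT (row 2 0 (-440) (-800) (-9000) 800 290)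
    (.x .a (.x .a (.x .a (.x .a (.y .a (.z .a (.z .a .a)))))))
    (bx 1600 2248 5350 5600 (-770) (-100)) = true := by decide +kernel

theorem bE_3 : runT (rowE 0 (-297))
    (.x .a (.x .a (.x .a .a)))
    (bxE 1400 2277 250 450) = true := by decide +kernel

theorem b1_3_0 : runT (row 1 0 (-549) (-690) (-670) 0 0)
    (.y .a (.y .a .a))
    (bx 1500 1856 1250 6000 (-500) 160) = true := by decide +kernel

theorem b1_3_1 : runT (row 1 0 (-549) (-690) (-670) 800 200)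
    (.y .b (.x .c (.y .b (.x .c (.z .c (.y .b (.x .b (.z .b (.y .a (.z .a .a))))))))))
    (bx 1500 1856 6000 7000 (-500) 160) = true := by decide +kernel

theorem c1_3 : runT (row 1 0 (-313) (-60) (-9000) 0 0)
    (.y (.y .a .a) (.y .a (.y .a .a)))
    (bx 1500 1856 1100 6500 (-400) 360) = true := by decide +kernel

theorem d1_3 : runT (row 1 0 (-222) (-600) (-9000) 0 0)
    (.y .a .a)
    (bx 1500 1856 1250 3700 320 550) = true := by decide +kernel

theorem a2_4 : runT (row 1 10 375 460 780 650 150)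
    (.x .a (.z (.x .a (.x .b (.x .b (.z .b (.y .a .b))))) .a))
    (bx 1600 2187 5000 5250 100 770) = true := by decide +kernel

theorem aE_4 : runT (row 1 10 250 870 510 650 150)
    (.x .a (.x .a (.x .a .b)))
    (bx 1400 2145 5000 5250 (-450) (-250)) = true := by decide +kernel

theorem a1_4 : runT (row 1 0 499 390 420 650 150)
    (.x .a (.x .a (.y .a (.x (.y .a .a) (.y (.z .a .a) (.z (.z .b (.x .a (.y .a (.x .a (.z (.z .a .a)
    .a))))) (.z .a .a)))))))
    (bx 1500 1816 5000 5250 (-160) 500) = true := by decide +kernel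

theorem g1_4 : runT (row 1 0 274 180 110 650 150)
    .a
    (bx 1500 1816 5000 5250 (-360) 400) = true := by decide +kernel

theorem h1_4 : runT (row 1 0 188 440 70 650 150)
    .a
    (bx 1500 1816 5000 5250 (-550) (-320)) = true := by decide +kernel

theorem b2_4_0 : runT (row 2 0 (-374) (-985) (-9000) 0 0)
    (.x (.y .a .a) (.x .b (.y (.y .a .a) (.y .a .a))))
    (bx 1600 2187 1000 5100 (-770) (-100)) = true := by decide +kernel

theorem b2_4_1 : runT (row 2 0 (-374) (-985) (-9000) 800 290)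
    (.x .a (.x .a .a))
    (bx 1600 2187 5100 5350 (-770) (-100)) = true := by decide +kernel

theorem b2_4_2 : runT (row 2 0 (-374) (-800) (-9000) 800 290)
    (.x .a (.x .a (.x .a (.x .a (.y .a (.z .a (.z .a .a)))))))
    (bx 1600 2187 5350 5600 (-770) (-100)) = true := by decide +kernel

theorem bE_4 : runT (rowE 0 (-249))
    (.x .a (.x .a (.x .a .a)))
    (bxE 1400 2145 250 450) = true := by decide +kernel

theorem b1_4_0 : runT (row 1 0 (-498) (-690) (-670) 0 0)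
    (.y .a .b)
    (bx 1500 1816 1250 6000 (-500) 160) = true := by decide +kernel

theorem b1_4_1 : runT (row 1 0 (-498) (-690) (-670) 800 200)
    (.y .b (.x .c (.y .b (.x .c (.z .c (.y .a (.x .b (.z .b (.y .a (.z .a .a))))))))))
    (bx 1500 1816 6000 7000 (-500) 160) = true := by decide +kernel

theorem c1_4 : runT (row 1 0 (-273) (-60) (-9000) 0 0)
    (.y (.y .a .a) (.y .a (.y .a .a)))
    (bx 1500 1816 1100 6500 (-400) 360) = true := by decide +kernel

theorem d1_4 : runT (row 1 0 (-187) (-600) (-9000) 0 0)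
    (.y .a .a)
    (bx 1500 1816 1250 3700 320 550) = true := by decide +kernel

theorem a2_5 : runT (row 1 10 301 460 780 650 150)
    (.x .a (.z (.x .a (.z (.x .b .b) .b)) .a))
    (bx 1600 2117 5250 5500 100 770) = true := by decide +kernel

theorem aE_5 : runT (row 1 10 202 870 510 650 150)
    (.x .a (.x .a (.y .a (.x .a .b))))
    (bx 1400 2021 5250 5500 (-450) (-250)) = true := by decide +kernel

theorem a1_5 : runT (row 1 0 444 390 420 650 150)
    (.x .a (.x .a (.y .a (.x (.z .a .a) (.y (.z .a .a) (.z (.z .b .a) (.x .a (.y .a (.z .a .a)))))))))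
    (bx 1500 1772 5250 5500 (-160) 500) = true := by decide +kernel

theorem g1_5 : runT (row 1 0 232 180 110 650 150)
    .a
    (bx 1500 1772 5250 5500 (-360) 400) = true := by decide +kernel

theorem h1_5 : runT (row 1 0 152 440 70 650 150)
    .a
    (bx 1500 1772 5250 5500 (-550) (-320)) = true := by decide +kernel

theorem b2_5_0 : runT (row 2 0 (-300) (-985) (-9000) 0 0)
    (.x (.y .a .a) (.x (.y .a .a) (.y (.y .a .a) (.y .a .a))))
    (bx 1600 2117 1000 5100 (-770) (-100)) = true := by decide +kernel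

theorem b2_5_1 : runT (row 2 0 (-300) (-985) (-9000) 800 290)
    (.x .a (.x .a .a))
    (bx 1600 2117 5100 5350 (-770) (-100)) = true := by decide +kernel

theorem b2_5_2 : runT (row 2 0 (-300) (-800) (-9000) 800 290)
    (.x .a (.x .a (.x .a (.x (.y .a .a) (.y .a (.z (.z (.z .a .a) .a) .a))))))
    (bx 1600 2117 5350 5600 (-770) (-100)) = true := by decide +kernel

theorem bE_5 : runT (rowE 0 (-201))
    (.x .a (.x .a (.x .a .a)))
    (bxE 1400 2021 250 450) = true := by decide +kernel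

theorem b1_5_0 : runT (row 1 0 (-443) (-690) (-670) 0 0)
    (.y .a .b)
    (bx 1500 1772 1250 6000 (-500) 160) = true := by decide +kernel

theorem b1_5_1 : runT (row 1 0 (-443) (-690) (-670) 800 200)
    (.y .b (.x .c (.y .b (.z .c (.x .a (.y .a (.z .a (.x .a (.z .a .a)))))))))
    (bx 1500 1772 6000 7000 (-500) 160) = true := by decide +kernel

theorem c1_5 : runT (row 1 0 (-231) (-60) (-9000) 0 0)
    (.y (.y .a .a) (.y .a (.y .a .a)))
    (bx 1500 1772 1100 6500 (-400) 360) = true := by decide +kernel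

theorem d1_5 : runT (row 1 0 (-151) (-600) (-9000) 0 0)
    (.y .a .a)
    (bx 1500 1772 1250 3700 320 550) = true := by decide +kernel

theorem a2_6 : runT (row 1 5 204 460 780 650 150)
    (.x .a (.x .a (.z (.y .a (.x .b (.x .b (.y .b (.z .b (.z (.y .a .b) .a)))))) .a)))
    (bx 1600 2048 5500 5750 100 770) = true := by decide +kernel

theorem aE_6 : runT (row 1 10 153 870 510 650 150)
    (.x .a (.x .a (.y .a (.x .a .b))))
    (bx 1400 1904 5500 5750 (-450) (-250)) = true := by decide +kernel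

theorem a1_6 : runT (row 1 0 384 390 420 650 150)
    (.x .a (.y .a (.x .a (.y (.z .a .a) (.x (.z .a .a) (.z (.z .b .a) (.z .a .a)))))))
    (bx 1500 1724 5500 5750 (-160) 500) = true := by decide +kernel

theorem g1_6 : runT (row 1 0 186 180 110 650 150)
    .a
    (bx 1500 1724 5500 5750 (-360) 400) = true := by decide +kernel

theorem h1_6 : runT (row 1 0 113 440 70 650 150)
    .a
    (bx 1500 1724 5500 5750 (-550) (-320)) = true := by decide +kernel

theorem b2_6_0 : runT (row 2 (-5) (-203) (-985) (-9000) 0 0)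
    (.x (.y .a .a) (.y (.y .a .a) (.y .a .a)))
    (bx 1600 2048 1000 5100 (-770) (-100)) = true := by decide +kernel

theorem b2_6_1 : runT (row 2 (-5) (-203) (-985) (-9000) 800 290)
    (.x .a .a)
    (bx 1600 2048 5100 5350 (-770) (-100)) = true := by decide +kernel

theorem b2_6_2 : runT (row 2 (-5) (-203) (-800) (-9000) 800 290)
    (.x .a (.x .a (.x .a (.z .a (.z .a (.y .a .a))))))
    (bx 1600 2048 5350 5600 (-770) (-100)) = true := by decide +kernel

theorem bE_6 : runT (rowE 0 (-152))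
    (.x .a (.x .a .a))
    (bxE 1400 1904 250 450) = true := by decide +kernel

theorem b1_6_0 : runT (row 1 0 (-383) (-690) (-670) 0 0)
    (.y .a .b)
    (bx 1500 1724 1250 6000 (-500) 160) = true := by decide +kernel

theorem b1_6_1 : runT (row 1 0 (-383) (-690) (-670) 800 200)
    (.y .a (.y .b (.x .b (.z .c (.y .a (.x .a (.z .a (.z .a .a))))))))
    (bx 1500 1724 6000 7000 (-500) 160) = true := by decide +kernel

theorem c1_6 : runT (row 1 0 (-185) (-60) (-9000) 0 0)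
    (.y (.y .a .a) (.y .a (.y .a .a)))
    (bx 1500 1724 1100 6500 (-400) 360) = true := by decide +kernel

theorem d1_6 : runT (row 1 0 (-112) (-600) (-9000) 0 0)
    (.y .a .a)
    (bx 1500 1724 1250 3700 320 550) = true := by decide +kernel

theorem a2_7 : runT (row 1 5 120 460 780 650 150)
    (.x .a (.x .a (.z (.y .a (.x .a (.z .b .a))) .a)))
    (bx 1600 1975 5750 6000 100 770) = true := by decide +kernel

theorem aE_7 : runT (row 1 10 104 870 510 650 150)
    (.x .a (.x .a (.y .a (.z (.x .a .b) .a))))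
    (bx 1400 1794 5750 6000 (-450) (-250)) = true := by decide +kernel

theorem a1_7 : runT (row 1 0 320 390 420 650 150)
    (.x .a (.y .a (.x .a (.y .a (.x (.z .a .a) (.z (.z .b .a) (.y .a (.z .a .a))))))))
    (bx 1500 1673 5750 6000 (-160) 500) = true := by decide +kernel

theorem g1_7 : runT (row 1 0 137 180 110 650 150)
    .a
    (bx 1500 1673 5750 6000 (-360) 400) = true := by decide +kernel

theorem h1_7 : runT (row 1 0 72 440 70 650 150)
    .a
    (bx 1500 1673 5750 6000 (-550) (-320)) = true := by decide +kernel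

theorem b2_7_0 : runT (row 2 (-5) (-119) (-985) (-9000) 0 0)
    (.x (.y .a .a) (.y (.y .a .a) (.y .a .a)))
    (bx 1600 1975 1000 5100 (-770) (-100)) = true := by decide +kernel

theorem b2_7_1 : runT (row 2 (-5) (-119) (-985) (-9000) 800 290)
    (.x .a .a)
    (bx 1600 1975 5100 5350 (-770) (-100)) = true := by decide +kernel

theorem b2_7_2 : runT (row 2 (-5) (-119) (-800) (-9000) 800 290)
    (.x .a (.x .a (.x .a (.z .a (.z .a .a)))))
    (bx 1600 1975 5350 5600 (-770) (-100)) = true := by decide +kernel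

theorem bE_7 : runT (rowE 0 (-103))
    (.x .a (.x .a .a))
    (bxE 1400 1794 250 450) = true := by decide +kernel

theorem b1_7_0 : runT (row 1 0 (-319) (-690) (-670) 0 0)
    (.y .a .a)
    (bx 1500 1673 1250 6000 (-500) 160) = true := by decide +kernel

theorem b1_7_1 : runT (row 1 0 (-319) (-690) (-670) 800 200)
    (.y .a (.y .b (.x .b (.z .b (.y .a (.x .a (.y .a (.z .a (.x .a (.z .a .a))))))))))
    (bx 1500 1673 6000 7000 (-500) 160) = true := by decide +kernel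

theorem c1_7 : runT (row 1 0 (-136) (-60) (-9000) 0 0)
    (.y (.y .a .a) (.y .a .a))
    (bx 1500 1673 1100 6500 (-400) 360) = true := by decide +kernel

theorem d1_7 : runT (row 1 0 (-71) (-600) (-9000) 0 0)
    (.y .a .a)
    (bx 1500 1673 1250 3700 320 550) = true := by decide +kernel

theorem a2_8 : runT (row 1 5 31 460 780 650 150)
    (.x .a (.y .a (.z (.x .a (.z (.y .a .b) .a)) .a)))
    (bx 1600 1900 6000 6250 100 770) = true := by decide +kernel

theorem aE_8 : runT (row 1 10 54 870 510 650 150)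
    (.x .a (.y .a (.x .a (.z (.y .a .b) .a))))
    (bx 1400 1690 6000 6250 (-450) (-250)) = true := by decide +kernel

theorem a1_8 : runT (row 1 0 252 390 420 650 150)
    (.y .a (.x .a (.y (.x .a .a) (.x (.z .a .a) (.z .a (.y .a (.z .a .a)))))))
    (bx 1500 1617 6000 6250 (-160) 500) = true := by decide +kernel

theorem g1_8 : runT (row 1 0 83 180 110 650 150)
    .a
    (bx 1500 1617 6000 6250 (-360) 400) = true := by decide +kernel

theorem h1_8 : runT (row 1 0 30 440 70 650 150)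
    .a
    (bx 1500 1617 6000 6250 (-550) (-320)) = true := by decide +kernel

theorem b2_8_0 : runT (row 2 (-5) (-30) (-985) (-9000) 0 0)
    (.x (.y (.y .a .a) .a) (.y (.y .a .a) (.y .a .a)))
    (bx 1600 1900 1000 5100 (-770) (-100)) = true := by decide +kernel

theorem b2_8_1 : runT (row 2 (-5) (-30) (-985) (-9000) 800 290)
    (.x .a .a)
    (bx 1600 1900 5100 5350 (-770) (-100)) = true := by decide +kernel

theorem b2_8_2 : runT (row 2 (-5) (-30) (-800) (-9000) 800 290)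
    (.x .a (.x .a (.x .a (.z .a (.z .a .a)))))
    (bx 1600 1900 5350 5600 (-770) (-100)) = true := by decide +kernel

theorem bE_8 : runT (rowE 0 (-53))
    (.x .a (.x .a .a))
    (bxE 1400 1690 250 450) = true := by decide +kernel

theorem b1_8_0 : runT (row 1 0 (-251) (-690) (-670) 0 0)
    (.y .a .a)
    (bx 1500 1617 1250 6000 (-500) 160) = true := by decide +kernel

theorem b1_8_1 : runT (row 1 0 (-251) (-690) (-670) 800 200)
    (.y .a (.y .b (.x .b (.y .b (.z .b (.y .a (.z .a (.z .a .a))))))))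
    (bx 1500 1617 6000 7000 (-500) 160) = true := by decide +kernel

theorem c1_8 : runT (row 1 0 (-82) (-60) (-9000) 0 0)
    (.y (.y .a .a) (.y .a .a))
    (bx 1500 1617 1100 6500 (-400) 360) = true := by decide +kernel

theorem d1_8 : runT (row 1 0 (-29) (-600) (-9000) 0 0)
    (.y .a .a)
    (bx 1500 1617 1250 3700 320 550) = true := by decide +kernel

theorem a2_9 : runT (row 1 5 (-62) 460 780 650 150)
    (.x .a (.y .a (.z (.x .a (.y .a (.z (.z .a .a) .a))) .a)))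
    (bx 1600 1824 6250 6500 100 770) = true := by decide +kernel

theorem aE_9 : runT (row 1 10 5 870 510 650 150)
    (.x .a (.y .a (.x .a (.z (.y .a .a) .a))))
    (bx 1400 1594 6250 6500 (-450) (-250)) = true := by decide +kernel

theorem a1_9 : runT (row 1 0 179 390 420 650 150)
    (.y .a (.z .a (.y .a (.x .a (.y .a (.z .a (.z .a .a)))))))
    (bx 1500 1558 6250 6500 (-160) 500) = true := by decide +kernel

theorem g1_9 : runT (row 1 0 25 180 110 650 150)
    .a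
    (bx 1500 1558 6250 6500 (-360) 400) = true := by decide +kernel

theorem h1_9 : runT (row 1 0 (-12) 440 70 650 150)
    .a
    (bx 1500 1558 6250 6500 (-550) (-320)) = true := by decide +kernel

theorem b2_9_0 : runT (row 2 (-5) 63 (-985) (-9000) 0 0)
    (.y (.y (.y (.x .a (.y (.z .a .a) .a)) .a) .a) (.y .a .a))
    (bx 1600 1824 1000 5100 (-770) (-100)) = true := by decide +kernel

theorem b2_9_1 : runT (row 2 (-5) 63 (-985) (-9000) 800 290)
    (.z .a .a)
    (bx 1600 1824 5100 5350 (-770) (-100)) = true := by decide +kernel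

theorem b2_9_2 : runT (row 2 (-5) 63 (-800) (-9000) 800 290)
    (.x .a (.x .a (.x .a (.z .a (.z .a .a)))))
    (bx 1600 1824 5350 5600 (-770) (-100)) = true := by decide +kernel

theorem bE_9 : runT (rowE 0 (-4))
    (.x .a .a)
    (bxE 1400 1594 250 450) = true := by decide +kernel

theorem b1_9_0 : runT (row 1 0 (-178) (-690) (-670) 0 0)
    (.y .a .a)
    (bx 1500 1558 1250 6000 (-500) 160) = true := by decide +kernel

theorem b1_9_1 : runT (row 1 0 (-178) (-690) (-670) 800 200)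
    (.y .a (.y .a (.y .b (.z .b (.x .a (.y .a (.z .a (.y .a (.z .a .a)))))))))
    (bx 1500 1558 6000 7000 (-500) 160) = true := by decide +kernel

theorem c1_9 : runT (row 1 0 (-24) (-60) (-9000) 0 0)
    (.y (.y .a .a) (.y .a .a))
    (bx 1500 1558 1100 6500 (-400) 360) = true := by decide +kernel

theorem d1_9 : runT (row 1 0 13 (-600) (-9000) 0 0)
    (.y .a .a)
    (bx 1500 1558 1250 3700 320 550) = true := by decide +kernel

end Pool.Agent.Work.MP_b30479_gtS.G2.MF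

end

section

/-!
# Conditional floors: sides of a digit `1` on the left ramp

The other hinge of the digit `1` is a hinge `1 | 3` beyond `2 / 5`.  Generated.
-/

set_option deprecated.oldSectionVars true

namespace Pool.Agent.Work.MP_b30479_gtS.G2

open Real Set VOL NumIs NumIs.E

namespace ML

theorem ro1 : runT (row 1 (cE 1 0 0) 205 0 (-80) 150 0 1)
    (.z (.y .a .a) (.y (.z (.y .a .a) (.y (.z .d (.x .d (.y .d .d))) (.z .a (.x .a (.z .a (.x .a (.x
    .a (.z .a (.y .a .a))))))))) (.z .a (.y (.x .a (.z .a (.y .a .a))) .a))))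
    (bx 125 150 (-5334) 3334 400 650) = true := by decide +kernel

theorem ro1_1 : runT (row 1 (cE 1 0 0) (-125) (-69) (-67) 150 0 1)
    (.z (.z .a .a) (.z .a (.z .b (.y (.z .d (.y .d .d)) (.z .a (.x .b (.z .b (.z .b (.x .b (.y (.y .d
    .b) (.y .a .a)))))))))))
    (bx 125 150 (-3334) 1067 125 700) = true := by decide +kernel

theorem ro1_2e : runT (row 1 (cE 1 0 0) (-55) (-60) (-18) 150 0 1)
    (.z (.z (.z (.y .a (.x .a (.z (.x .a .a) .a))) .a) .a) .a)
    (bx 125 150 2133 3667 125 370) = true := by decide +kernel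

theorem ro1_G : runT (row 1 (cE 1 0 0) 150 (-6) (-46) 150 0 1)
    (.z (.z (.y .a (.z (.y .a (.z (.y .a (.z (.x .a .a) .a)) .a)) .a)) .a) (.z .a (.z .a (.y (.z .a
    (.y .a .a)) (.y .a .a)))))
    (bx 125 150 (-2667) 2400 110 650) = true := by decide +kernel

theorem ro2 : runT (row 1 (cE 0 2100 0) 210 0 0 160 0 1)
    (.z .a (.y (.z .a (.y (.z .a (.y .a .a)) .a)) .a))
    (bx 150 160 625 4813 400 650) = true := by decide +kernel

theorem roE : runT (row 1 (cE 0 2100 0) 155 0 (-45) 140 0 1)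
    (.z .a (.z .a (.z .a (.x .a (.y .b .a)))))
    (bx 125 140 (-3215) (-1785) 400 650) = true := by decide +kernel

set_option deprecated.oldSectionVars false
variable {T x y k : ℝ}

/-- own side at `1 | 1` -/
theorem cf_own1 (H : (⟨125, 150, -800, 500, 0, -80, 400, 650, 0, 1⟩ : Dat).H T x y k) (h0 : 0 < x) (h0' : 0 < y) (hs : x + y < 1) :
    ((205 : ℤ) : ℝ) / 1000 < sd 1 (cR 1 0 0 x) x (T / (((150 : ℤ) : ℝ) / 1000)) y k :=
  use_row (Or.inl rfl) ro1 _ (by decide) H h0 h0' hs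

/-- the side of the other `1`, far neighbour a `1` -/
theorem cf_oth1 (H : (⟨125, 150, -500, 160, -69, -67, 125, 700, 0, 1⟩ : Dat).H T x y k) (h0 : 0 < x) (h0' : 0 < y) (hs : x + y < 1) :
    (((-125) : ℤ) : ℝ) / 1000 < sd 1 (cR 1 0 0 x) x (T / (((150 : ℤ) : ℝ) / 1000)) y k :=
  use_row (Or.inl rfl) ro1_1 _ (by decide) H h0 h0' hs

/-- the side of the other `1`, far neighbour a `2` at an end -/
theorem cf_oth2e (H : (⟨125, 150, 320, 550, -60, -18, 125, 370, 0, 1⟩ : Dat).H T x y k) (h0 : 0 < x) (h0' : 0 < y) (hs : x + y < 1) :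
    (((-55) : ℤ) : ℝ) / 1000 < sd 1 (cR 1 0 0 x) x (T / (((150 : ℤ) : ℝ) / 1000)) y k :=
  use_row (Or.inl rfl) ro1_2e _ (by decide) H h0 h0' hs

/-- the side of the other `1`, general -/
theorem cf_othG (H : (⟨125, 150, -400, 360, -6, -46, 110, 650, 0, 1⟩ : Dat).H T x y k) (h0 : 0 < x) (h0' : 0 < y) (hs : x + y < 1) :
    ((150 : ℤ) : ℝ) / 1000 < sd 1 (cR 1 0 0 x) x (T / (((150 : ℤ) : ℝ) / 1000)) y k :=
  use_row (Or.inl rfl) ro1_G _ (by decide) H h0 h0' hs

/-- own side at `1 | 2` -/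
theorem cf_own2 (H : (⟨150, 160, 100, 770, 0, 0, 400, 650, 0, 1⟩ : Dat).H T x y k) (h0 : 0 < x) (h0' : 0 < y) (hs : x + y < 1) :
    ((210 : ℤ) : ℝ) / 1000 < sd 1 (cR 0 2100 0 x) x (T / (((160 : ℤ) : ℝ) / 1000)) y k :=
  use_row (Or.inl rfl) ro2 _ (by decide) H h0 h0' hs

/-- own side at `1 | 2`, the `2` at an end -/
theorem cf_ownE (H : (⟨125, 140, -450, -250, 0, -45, 400, 650, 0, 1⟩ : Dat).H T x y k) (h0 : 0 < x) (h0' : 0 < y) (hs : x + y < 1) :
    ((155 : ℤ) : ℝ) / 1000 < sd 1 (cR 0 2100 0 x) x (T / (((140 : ℤ) : ℝ) / 1000)) y k :=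
  use_row (Or.inl rfl) roE _ (by decide) H h0 h0' hs

end ML

end Pool.Agent.Work.MP_b30479_gtS.G2

end

section

/-!
# The left ramps: certificates of a digit `2`
-/

set_option deprecated.oldSectionVars true

namespace Pool.Agent.Work.MP_b30479_gtS.G2.ML

open NumIs NumIs.E

theorem w0_1_0 : runT (rowN 2 (cE 0 2700 0) 350 (-99))
    (.z (.z (.z (.y .a .a) .a) .a) (.z .c .d))
    (bx 0 20 (-5000) 1125 0 800) = true := by decide +kernel

theorem w0_1_1 : runT (row 2 (cE 0 2700 0) 350 (-99) (-300) 160 0 1)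
    (.z (.y (.z (.y (.z (.x (.z (.x .c .c) .c) (.z .c .c)) (.x .c .c)) (.z (.x (.z .c .c) (.z .c .c))
    .c)) (.x .a .a)) (.z (.z (.z (.x .c .c) .c) .c) (.x .a .a))) (.y (.x (.z .a .d) (.z .a .d)) (.z .a
    .d)))
    (bx 20 45 (-5000) 1125 0 800) = true := by decide +kernel

theorem w0_1_2 : runT (row 2 (cE 0 4320 36000) 350 (-99) (-300) 160 0 1)
    (.z (.y (.z (.z (.z (.x .c .c) .c) .c) .a) (.z (.z (.z (.x .c .c) .c) .c) .a)) (.y (.z .a (.z .d
    (.y (.x .d .d) .d))) (.z .a .d)))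
    (bx 45 70 (-5000) 1125 0 800) = true := by decide +kernel

theorem w1_1_0 : runT (row 2 (cE 0 2400 0) 190 (-99) (-300) 160 0 1)
    (.y (.z (.z (.x .c (.z .a .a)) .a) (.x .a .b)) (.z (.z .c .a) .a))
    (bx 70 100 (-5000) 1125 70 560) = true := by decide +kernel

theorem w1_1_1 : runT (row 2 (cE 0 3200 8000) 190 (-99) (-300) 160 0 1)
    (.y (.z (.x (.z (.z .a .a) .a) (.z (.z (.y .a .a) .a) .a)) (.x (.z .a (.y .a .a)) (.z .a (.z (.x
    .a .a) (.x (.y .a .a) (.y .a .a)))))) (.z (.x (.z (.z (.x .c .a) .a) .a) (.z (.z (.x .a (.z (.y .a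
    (.y .a .a)) .a)) .a) .a)) (.x (.y .a .a) (.z .a (.y (.x .a .a) .a)))))
    (bx 100 150 (-5000) 1125 70 560) = true := by decide +kernel

theorem w2_1_0 : runT (row 2 (cE 0 2100 0) 100 (-99) (-300) 160 0 1)
    (.y (.z (.z .a .a) (.z .a (.z .a (.y (.y .d .a) (.y .a .a))))) (.y (.z (.z .a .a) (.z .a (.z .a
    .a))) (.z (.z .a .a) (.z .a .a))))
    (bx 150 160 (-5000) 1125 100 560) = true := by decide +kernel

theorem w0_1e_0 : runT (rowN 2 (cE 0 2700 0) 350 (-99))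
    (.z (.z (.z (.z .a .a) .a) .a) (.z .c .d))
    (bx 0 20 (-6157) (-2000) 0 800) = true := by decide +kernel

theorem w0_1e_1 : runT (row 2 (cE 0 2700 0) 350 (-99) (-300) 160 0 1)
    (.z (.y (.z (.y (.z (.x (.z (.x .c .c) .c) (.z .c .c)) (.x .c .a)) (.z (.x (.z (.x .c .c) .c) (.z
    .c .c)) (.x .c .a))) (.x .a .a)) (.z (.y (.z (.x (.z .c .c) (.z .c .c)) .c) (.z (.z (.x .c .c) .c)
    .c)) .a)) (.x (.z .a .d) (.z .a (.y .d .d))))
    (bx 20 45 (-6157) (-2000) 0 800) = true := by decide +kernel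

theorem w0_1e_2 : runT (row 2 (cE 0 4320 36000) 350 (-99) (-300) 160 0 1)
    (.z (.z (.z (.z (.x (.y .c .c) .c) (.y .c .c)) (.y .a .c)) .a) (.z (.y .a .a) (.y (.z .d (.z .d
    (.x .d (.y .d .d)))) (.x .d .d))))
    (bx 45 70 (-6157) (-2000) 0 800) = true := by decide +kernel

theorem w1_1e_0 : runT (row 2 (cE 0 2400 0) 190 (-99) (-300) 160 0 1)
    (.z (.x (.z (.z .c .a) .a) (.z (.y .a .c) .a)) (.x .b (.y .a .a)))
    (bx 70 100 (-6157) (-2000) 70 560) = true := by decide +kernel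

theorem w1_1e_1 : runT (row 2 (cE 0 3200 8000) 190 (-99) (-300) 160 0 1)
    (.z (.x (.z (.y .a .a) .a) (.z (.y .a (.z (.y .a .a) .a)) (.y .a .a))) (.x (.y (.z .a (.z .a .a))
    (.z .a .a)) (.z (.y .a .a) (.z (.y .a .a) (.y (.x .a (.y .d .a)) (.x .a (.y .a .a)))))))
    (bx 100 150 (-6157) (-2000) 70 560) = true := by decide +kernel

theorem w2_1e_0 : runT (row 2 (cE 0 2100 0) 100 (-99) (-300) 160 0 1)
    (.z (.z (.y .a .a) .a) (.z (.y .a .a) (.z (.y .a .a) (.y (.y .d (.z .a .d)) (.y .a .a)))))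
    (bx 150 160 (-6157) (-2000) 100 560) = true := by decide +kernel

theorem w0_2_0 : runT (rowN 2 (cE 1 0 0) 100 (-99))
    (.y (.z (.z (.z .a .a) .a) (.z .c .d)) (.z (.z (.z .a .a) .a) (.z .c .d)))
    (bx 0 20 (-4100) 4100 0 800) = true := by decide +kernel

theorem w0_2_1 : runT (row 2 (cE 1 0 0) 100 (-99) (-300) 100 0 1)
    (.y (.z (.y (.z (.y (.z (.x (.x (.x .c .c) .c) .c) (.x .c .c)) (.z (.x (.x (.x .c .c) .c) .c) (.x
    .c .c))) (.x .a .a)) (.z (.y (.z (.x (.x (.x .c .c) .c) .c) (.x .c .c)) (.z (.x (.x (.x .c .c) .c)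
    .c) (.x .c .c))) (.x .a .a))) (.y (.z (.x .a .a) (.x .d .d)) (.z (.x .a .a) (.x .d .d)))) (.z (.y
    (.z (.y (.z (.y (.x (.x (.x .c .c) .c) .c) (.z (.x (.x .c .c) .c) (.x .c .c))) (.x .c .c)) (.z (.y
    (.z (.x (.x .c .c) .c) (.x .c .c)) (.z (.x (.x .c .c) .c) (.x .c .c))) (.x .c .c))) (.x (.x .c .a)
    .a)) (.z (.y (.z (.y (.z (.x (.x .c .c) .c) (.x .c .c)) (.z (.x (.x .c .c) .c) (.x .c .c))) (.x .c
    .c)) (.z (.y (.z (.x (.x .c .c) .c) (.x .c .c)) (.z (.x (.x .c .c) .c) (.x .c .c))) (.x .c .c)))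
    (.x (.x .c .c) (.z .a .a)))) (.y (.z (.x .a .a) (.x .d .d)) (.z (.x .a .a) (.x .d .d)))))
    (bx 20 70 (-4100) 4100 0 800) = true := by decide +kernel

theorem w1_2_2 : runT (row 2 (cE 1 0 0) 200 (-99) (-300) 100 0 1)
    (.y (.z (.z (.x .c .c) .a) .b) (.z (.z (.x .c .c) .a) .b))
    (bx 70 100 (-4100) 4100 70 560) = true := by decide +kernel

theorem w0_2e_0 : runT (rowN 2 (cE 1 0 0) 100 (-99))
    (.z (.z (.z .a .a) .a) (.z .c .d))
    (bx 0 20 (-8500) (-4500) 0 800) = true := by decide +kernel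

theorem w0_2e_1 : runT (row 2 (cE 1 0 0) 100 (-99) (-300) 100 0 1)
    (.z (.y (.z (.y (.z (.x (.x (.x .c .c) .c) .c) (.x .a .a)) (.z (.x (.x (.x .c .c) .c) .c) (.x .a
    .a))) (.x (.x .a .a) .a)) (.z (.y (.z (.x (.x (.x .c .c) .c) .c) (.x .c .a)) (.z (.x (.x (.x .c
    .c) .c) .c) (.x .c .a))) (.x .a .a))) (.y (.z (.x (.x .a .a) (.z .a .d)) (.x (.x .d .d) (.x .d
    .d))) (.z (.x .a .a) (.x (.x .d .d) .d))))
    (bx 20 70 (-8500) (-4500) 0 800) = true := by decide +kernel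

theorem w1_2e_2 : runT (row 2 (cE 1 0 0) 200 (-99) (-300) 100 0 1)
    (.z (.z (.y .a .c) .a) (.z .a (.z .a .a)))
    (bx 70 100 (-8500) (-4500) 70 560) = true := by decide +kernel

theorem w0_3a_0 : runT (rowN 2 (cE 1 0 0) 100 (-99))
    (.z (.z (.z .a .a) .a) (.z .c .d))
    (bx 0 20 (-417) 4750 0 800) = true := by decide +kernel

theorem w0_3a_1 : runT (row 2 (cE 1 0 0) 100 (-99) (-300) 120 0 1)
    (.z (.y (.z (.y (.z (.y (.x (.x (.x .c .c) .c) .c) (.z (.x (.x .c .c) .c) (.x .c .c))) (.x .c .c))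
    (.z (.y (.z (.x (.x .c .c) .c) (.x .c .c)) (.z (.x (.x .c .c) .c) (.x .c .c))) (.x .c .c))) (.x
    (.x .c .c) .a)) (.z (.y (.z (.y (.z (.x (.x .c .c) .c) (.x .c .c)) (.z (.x (.x .c .c) .c) (.x .c
    .c))) (.x .c .c)) (.z (.y (.z (.x (.x .c .c) .c) (.x .c .c)) (.z (.x (.x .c .c) .c) (.x .c .c)))
    (.x .c .c))) (.x (.x .c .c) (.z .c .a)))) (.y (.z (.x .a .a) (.x .d .d)) (.z (.x .a .a) (.x .d
    .d))))
    (bx 20 70 (-417) 4750 0 800) = true := by decide +kernel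

theorem w1_3a_2 : runT (row 2 (cE 1 0 0) 200 (-99) (-300) 120 0 1)
    (.y (.z (.z (.x .c .c) .a) (.x .a .a)) (.z (.x (.z .c .a) (.z (.x .c .c) .a)) (.x .a .a)))
    (bx 70 120 (-417) 4750 70 560) = true := by decide +kernel

theorem w0_3b_0 : runT (rowN 2 (cE 1 0 0) 100 (-99))
    (.z (.z (.z .a .a) .a) (.z .c .d))
    (bx 0 20 (-385) 4385 0 800) = true := by decide +kernel

theorem w0_3b_1 : runT (row 2 (cE 1 0 0) 100 (-99) (-300) 130 0 1)
    (.z (.y (.z (.y (.z (.y (.x (.x (.x .c .c) .c) .c) (.z (.x (.x .c .c) .c) (.x .c .c))) (.x .c .c))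
    (.z (.y (.z (.x (.x .c .c) .c) (.x .c .c)) (.z (.x (.x .c .c) .c) (.x .c .c))) (.x .c .c))) (.x
    (.x .c .a) .a)) (.z (.y (.z (.y (.z (.x (.x .c .c) .c) (.x .c .c)) (.z (.x (.x .c .c) .c) (.x .c
    .c))) (.x .c .c)) (.z (.y (.z (.x (.x .c .c) .c) (.x .c .c)) (.z (.x (.x .c .c) .c) (.x .c .c)))
    (.x .c .c))) (.x (.x .c .c) (.z .a .a)))) (.y (.z (.x .a .a) (.x .d .d)) (.z (.x .a .a) (.x .d
    .d))))
    (bx 20 70 (-385) 4385 0 800) = true := by decide +kernel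

theorem w1_3b_2 : runT (row 2 (cE 1 0 0) 200 (-99) (-300) 130 0 1)
    (.z (.x (.z (.y .c .c) .a) (.z (.x (.y .c .c) (.z (.y .c (.x .c .c)) .a)) (.x .a .a))) (.x .b (.y
    .b .b)))
    (bx 70 130 (-385) 4385 70 560) = true := by decide +kernel

theorem w0_3e_0 : runT (rowN 2 (cE 1 0 0) 100 (-99))
    (.z (.z (.z .a .a) .a) (.z .c .d))
    (bx 0 20 (-1300) 2600 0 800) = true := by decide +kernel

theorem w0_3e_1 : runT (row 2 (cE 1 0 0) 100 (-99) (-300) 100 0 1)
    (.z (.z (.y (.z (.y (.x (.x (.x .c .c) .c) .c) (.z (.x (.x .c .c) .c) (.x .c .c))) (.x .c .c)) (.z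
    (.y (.z (.x (.x .c .c) .c) (.x .c .c)) (.z (.x (.x .c .c) .c) (.x .c .c))) (.x .c .c))) (.x (.x .c
    .c) .a)) (.z (.x .a .a) (.x .d .d)))
    (bx 20 70 (-1300) 2600 0 800) = true := by decide +kernel

theorem w1_3e_2 : runT (row 2 (cE 1 0 0) 200 (-99) (-300) 100 0 1)
    (.z (.z (.x .c .c) .a) .a)
    (bx 70 100 (-1300) 2600 70 560) = true := by decide +kernel

theorem w0_Z_0 : runT (rowN 2 (cE 1 0 0) 100 (-99))
    (.z (.z (.z .a .a) .a) (.z .c .d))
    (bx 0 20 800 7680 0 800) = true := by decide +kernel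

theorem w0_Z_1 : runT (row 2 (cE 1 0 0) 100 (-99) (-300) 125 0 1)
    (.z (.y (.z (.y (.z (.y (.z (.x (.x .c .c) .c) (.x .c .c)) (.z (.x (.x .c .c) .c) (.x .c .c))) (.x
    .c .c)) (.z (.y (.z (.x (.x .c .c) .c) (.x .c .c)) (.z (.x (.x .c .c) .c) (.x .c .c))) (.x .c
    .c))) (.x (.x .c .c) (.z .a .a))) (.z (.y (.z (.y (.z (.x (.x .c .c) .c) (.x .c .c)) (.z (.x (.x
    .c .c) .c) (.x .c .c))) (.x .c .c)) (.z (.y (.z (.x (.x .c .c) .c) (.x .c .c)) (.z (.x (.x .c .c)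
    .c) (.x .c .c))) (.x .c .c))) (.x (.x .c .c) (.z .c .a)))) (.y (.z (.x .a .a) (.x .d .d)) (.z (.x
    .a .a) (.x (.x .a .a) .d))))
    (bx 20 70 800 7680 0 800) = true := by decide +kernel

theorem w1_Z_2 : runT (row 2 (cE 1 0 0) 200 (-99) (-300) 125 0 1)
    (.y (.z (.x (.z .c .a) (.z (.z (.x .c (.x .c .c)) .a) .a)) (.x .a .b)) (.z (.x (.z (.x .c .c) .c)
    (.z (.z (.x .c (.y .c .c)) (.x .c .a)) .a)) (.x .a .b)))
    (bx 70 125 800 7680 70 560) = true := by decide +kernel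

theorem e0_1_0 : runT [[sub (nE (cE 0 1300 0)) (q 350 1000)]]
    .a
    [V.of 10000 (10 * 0) (10 * 20) 4, V.of 10000 (-72) 4715 4] = true := by decide +kernel

theorem e0_1_1 : runT [[sub (eE (cE 0 1300 0)) (q 350 1000)]]
    (.x (.x .a .a) (.x .a .a))
    [V.of 10000 (10 * 20) (10 * 70) 4, V.of 10000 (-72) 4715 4] = true := by decide +kernel

theorem e1_1 : runT [[sub (eE (cE 0 1950 0)) (q 0 1000)]]
    (.x .a (.y .a .a))
    [V.of 10000 (10 * 70) (10 * 125) 4, V.of 10000 (-72) 4715 4] = true := by decide +kernel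

theorem e2_1 : runT [[sub (eE (cE 0 2100 0)) (q 0 1000)]]
    (.y .a .a)
    [V.of 10000 (10 * 125) (10 * 140) 4, V.of 10000 (-72) 4715 4] = true := by decide +kernel

theorem e_2_0 : runT [[sub (nE (cE 1 0 0)) (q 200 1000)]]
    .a
    [V.of 10000 (10 * 0) (10 * 20) 4, V.of 10000 4500 8500 4] = true := by decide +kernel

theorem e_2_1 : runT [[sub (eE (cE 1 0 0)) (q 200 1000)]]
    (.x (.x .a .a) (.x .a (.x .a (.y .a .a))))
    [V.of 10000 (10 * 20) (10 * 100) 4, V.of 10000 4500 8500 4] = true := by decide +kernel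

theorem e_2e_0 : runT [[sub (nE (cE 1 0 0)) (q 400 1000)]]
    .a
    [V.of 10000 (10 * 0) (10 * 20) 4, V.of 10000 (-100) 100 4] = true := by decide +kernel

theorem e_2e_1 : runT [[sub (eE (cE 1 0 0)) (q 400 1000)]]
    (.x (.x .a .a) (.x .a .a))
    [V.of 10000 (10 * 20) (10 * 100) 4, V.of 10000 (-100) 100 4] = true := by decide +kernel

theorem e_3a_0 : runT [[sub (nE (cE 1 0 0)) (q (-80) 1000)]]
    .a
    [V.of 10000 (10 * 0) (10 * 20) 4, V.of 10000 6333 8167 4] = true := by decide +kernel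

theorem e_3a_1 : runT [[sub (eE (cE 1 0 0)) (q (-80) 1000)]]
    (.x (.x .a .a) (.x .a (.x .a (.x .a .a))))
    [V.of 10000 (10 * 20) (10 * 120) 4, V.of 10000 6333 8167 4] = true := by decide +kernel

theorem e_3b_0 : runT [[sub (nE (cE 1 0 0)) (q (-190) 1000)]]
    .a
    [V.of 10000 (10 * 0) (10 * 20) 4, V.of 10000 5846 7539 4] = true := by decide +kernel

theorem e_3b_1 : runT [[sub (eE (cE 1 0 0)) (q (-190) 1000)]]
    (.x (.x .a .a) (.x .a (.x .a (.x .a .a))))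
    [V.of 10000 (10 * 20) (10 * 130) 4, V.of 10000 5846 7539 4] = true := by decide +kernel

theorem e_3e_0 : runT [[sub (nE (cE 1 0 0)) (q 200 1000)]]
    .a
    [V.of 10000 (10 * 0) (10 * 20) 4, V.of 10000 6500 6900 4] = true := by decide +kernel

theorem e_3e_1 : runT [[sub (eE (cE 1 0 0)) (q 200 1000)]]
    (.x (.x .a .a) (.x .a .a))
    [V.of 10000 (10 * 20) (10 * 100) 4, V.of 10000 6500 6900 4] = true := by decide +kernel

theorem e_Z_0 : runT [[sub (nE (cE 1 0 0)) (q (-168) 1000)]]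
    .a
    [V.of 10000 (10 * 0) (10 * 20) 4, V.of 10000 7040 10480 4] = true := by decide +kernel

theorem e_Z_1 : runT [[sub (eE (cE 1 0 0)) (q (-168) 1000)]]
    (.x (.x (.x .a .a) .a) (.x .a (.x .a (.y .a (.x .a (.y .a (.x .a .a)))))))
    [V.of 10000 (10 * 20) (10 * 125) 4, V.of 10000 7040 10480 4] = true := by decide +kernel

end Pool.Agent.Work.MP_b30479_gtS.G2.ML

end

section

/-!
# The left ramp of the hinge at slot `2` of an inner digit `3`: certificates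
-/

set_option deprecated.oldSectionVars true

namespace Pool.Agent.Work.MP_b30479_gtS.G2.ML

open NumIs NumIs.E

theorem c1_0w : runT (rowN 2 (cE 2 0 4500) (-250) (-123))
    (.z (.y (.z (.y (.z .a .a) (.z .a .a)) .a) (.z (.y (.z .a .a) (.z .a .a)) .a)) (.y (.z .c .d)
    (.z .c .d)))
    (bx 0 20 (-7634) (-1400) 0 800) = true := by decide +kernel

theorem c1_0q : runT (rowS (cE 2 0 4500) (-250) (kQ (-123)) (kQ (0)) (fN0))
    (.z (.y (.z (.y (.z (.y (.z (.x (.x .c .c) .c) (.x (.x .c .c) .c)) (.z (.x (.x .c .c) .c) (.x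
    (.x .c .c) .c))) (.x (.x .c .a) .a)) (.z (.y (.z (.x (.x .c .c) .c) (.x .c .c)) (.z (.x (.x .c
    .c) .c) (.x .c .c))) (.x (.x .c .c) .c))) (.x (.x .a .a) .a)) (.z (.y (.z (.y (.z (.x (.x .c
    .c) .c) (.x .c .c)) (.z (.x (.x .c .c) .c) (.x .c .c))) (.x .c .c)) (.z (.y (.z (.x (.x .c .c)
    .c) (.x .c .c)) (.z (.x (.x .c .c) .c) (.x .c .c))) (.x .c .c))) (.x .a .a))) (.x (.y (.x (.z
    .a .d) (.z .a .d)) (.x (.x (.y (.z .a .d) (.z .a .d)) (.y (.z .a .d) (.z .a .d))) (.y (.z .a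
    .d) (.z .a .d)))) (.y (.z .a (.x .d (.y .d .d))) (.x (.y (.z .a .d) (.z .a .d)) (.z .a .d)))))
    (bx 20 70 (-7634) (-1400) 0 750) = true := by decide +kernel

theorem c1_0r : runT (rowS (cE 2 0 4500) (-250) (kR (-123)) (kR (-15)) (fN0))
    (.x (.y (.x .d .d) (.x .d .d)) (.y (.x (.y .b .d) (.y (.z .b (.z (.y .b .b) (.y (.x .b (.z .b
    (.y (.x .b (.z .b .b)) .b))) .b))) (.z .d .b))) (.x .d .d)))
    (bx 20 70 (-7634) (-1400) 750 800) = true := by decide +kernel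

theorem c2_0w : runT (rowN 2 (cE 1 0 0) (-100) (-116))
    (.z (.y (.z (.y (.z .a .a) (.z .a .a)) .a) (.z (.y (.z .a .a) (.z .a .a)) .a)) (.y (.z .c .d)
    (.z .c .d)))
    (bx 0 20 (-4385) (385) 0 800) = true := by decide +kernel

theorem c2_0q : runT (rowS (cE 1 0 0) (-100) (kQ (-116)) (kQ (5)) (fN0))
    (.z (.y (.z (.y (.z (.y (.z (.x (.x .c .c) .c) (.x .c .c)) (.z (.x (.x .c .c) .c) (.x .c .c)))
    (.x .c .c)) (.z (.y (.z (.x (.x .c .c) .c) (.x .c .c)) (.z (.x (.x .c .c) .c) (.x .c .c))) (.x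
    .c .c))) (.x .a .a)) (.z (.y (.z (.y (.z (.x (.x .c .c) .c) (.x .c .c)) (.z (.x (.x .c .c) .c)
    (.x .c .c))) (.x .c .c)) (.z (.y (.z (.x (.x .c .c) .c) (.x .c .c)) (.z (.x (.x .c .c) .c) (.x
    .c .c))) (.x .c .c))) (.x .c .a))) (.x (.x (.x (.y (.z .a .d) (.x (.z .a .d) (.z .a .d))) (.y
    (.z .a .d) (.z .a .d))) (.y (.z .a .d) (.x (.z .a .d) (.z .a .d)))) (.x (.z .a .d) (.z .a
    .d))))
    (bx 20 70 (-4385) (385) 0 750) = true := by decide +kernel

theorem c2_0r : runT (rowS (cE 1 0 0) (-100) (kR (-116)) (kR (5)) (fN0))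
    (.x (.x .d .d) .d)
    (bx 20 70 (-4385) (385) 750 800) = true := by decide +kernel

theorem c2e_0w : runT (rowN 2 (cE 1 0 0) (190) (-95))
    (.z (.z (.z .a .a) .a) (.z .c .d))
    (bx 0 20 (-7539) (-5846) 0 800) = true := by decide +kernel

theorem c2e_0q : runT (rowS (cE 1 0 0) (190) (kQ (-95)) (kQ (0)) (fN0))
    (.z (.z (.z (.y (.z (.x (.x .c .c) .c) (.x .c .c)) (.z (.x (.x .c .c) .c) (.x .c .c))) (.x (.x
    .a .a) .a)) (.x .a .a)) (.x (.x (.z .a .d) (.z .a .d)) (.z .a .d)))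
    (bx 20 70 (-7539) (-5846) 0 750) = true := by decide +kernel

theorem c2e_0r : runT (rowS (cE 1 0 0) (190) (kR (-95)) (kR (-5)) (fN0))
    (.x (.x .d .d) (.x .d .b))
    (bx 20 70 (-7539) (-5846) 750 800) = true := by decide +kernel

theorem c3_0w : runT (rowN 2 (cE 1 0 0) (-50) (-116))
    (.z (.z (.y (.z .a .a) (.z .a .a)) .a) (.z .c .d))
    (bx 0 20 (-1693) (1693) 0 800) = true := by decide +kernel

theorem c3_0q : runT (rowS (cE 1 0 0) (-50) (kQ (-116)) (kQ (5)) (fN0))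
    (.z (.z (.y (.z (.y (.z (.x (.x .c .c) .c) (.x .c .c)) (.z (.x (.x .c .c) .c) (.x .c .c))) (.x
    .c .c)) (.z (.y (.z (.x (.x .c .c) .c) (.x .c .c)) (.z (.x (.x .c .c) .c) (.x .c .c))) (.x .c
    .c))) (.x .c (.x .a .a))) (.x (.x (.x (.y (.x (.z .a .d) (.z .a .d)) (.x (.z .a .a) (.z .a
    .a))) (.y (.z .a .d) (.x (.z .a .a) (.z .a .a)))) (.x (.y (.z .a .d) (.z .a .a)) (.y (.z .a
    .d) (.z .a .a)))) (.x (.y (.z .a .d) (.x (.z .a .d) (.z .a .d))) (.z .a .d))))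
    (bx 20 70 (-1693) (1693) 0 750) = true := by decide +kernel

theorem c3_0r : runT (rowS (cE 1 0 0) (-50) (kR (-116)) (kR (5)) (fN0))
    (.x .d .d)
    (bx 20 70 (-1693) (1693) 750 800) = true := by decide +kernel

theorem c3e_0w : runT (rowN 2 (cE 1 0 0) (40) (-116))
    (.z (.z (.z .a .a) .a) (.z .c .d))
    (bx 0 20 (-2154) (-384) 0 800) = true := by decide +kernel

theorem c3e_0q : runT (rowS (cE 1 0 0) (40) (kQ (-116)) (kQ (5)) (fN0))
    (.z (.z (.z (.y (.z (.x (.x .c .c) .c) (.x .c .c)) (.z (.x (.x .c .c) .c) (.x .c .c))) (.x .c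
    .c)) (.x .a .a)) (.x (.x (.x (.z .a .d) (.z .a .d)) (.x (.z .a .d) (.z .a .d))) (.x (.z .a .d)
    (.z .a .d))))
    (bx 20 70 (-2154) (-384) 0 750) = true := by decide +kernel

theorem c3e_0r : runT (rowS (cE 1 0 0) (40) (kR (-116)) (kR (5)) (fN0))
    (.x .d .d)
    (bx 20 70 (-2154) (-384) 750 800) = true := by decide +kernel

theorem cZ_0w : runT (rowN 2 (cE 1 0 0) (0) (-106))
    (.z (.y (.z (.y (.z .a .a) (.z .a .a)) .a) (.z (.y (.z .a .a) (.z .a .a)) .a)) (.y (.z .c .d)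
    (.z .c .c)))
    (bx 0 20 (-77) (4385) 0 800) = true := by decide +kernel

theorem cZ_0q : runT (rowS (cE 1 0 0) (0) (kQ (-106)) (kQ (0)) (fN0))
    (.z (.y (.z (.y (.z (.y (.z (.x (.x .c .c) .c) (.x .c .c)) (.z (.x (.x .c .c) .c) (.x .c .c)))
    (.x .c .c)) (.z (.y (.z (.x (.x .c .c) .c) (.x .c .c)) (.z (.x (.x .c .c) .c) (.x .c .c))) (.x
    .c .c))) (.x .c (.x .c .a))) (.z (.y (.z (.y (.z (.x (.x .c .c) .c) (.x .c .c)) (.z (.x (.x .c
    .c) .c) (.x .c .c))) (.x .c .c)) (.z (.y (.z (.x (.x .c .c) .c) (.x .c .c)) (.z (.x (.x .c .c)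
    .c) (.x .c .c))) (.x .c .c))) (.x .c .c))) (.x (.x (.y (.x (.x (.y (.z .a .a) .a) (.y (.z .a
    .a) .a)) (.y (.z .a .a) (.x .a (.z .a .a)))) (.x .a .a)) (.y (.x (.y (.z .a .a) (.z .a .a))
    (.z .a .a)) (.x (.y .a .a) (.y (.z .a .a) .a)))) (.y (.x (.x (.z .a .d) (.z .a .d)) (.z .a
    .d)) (.x (.y (.x (.z .a .a) (.z .a .a)) (.x .a (.z .a .a))) (.y (.x (.z .a .a) (.z .a .a)) (.x
    (.z .a .a) (.z .a .a)))))))
    (bx 20 70 (-77) (4385) 0 750) = true := by decide +kernel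

theorem cZ_0r : runT (rowS (cE 1 0 0) (0) (kR (-106)) (kR (0)) (fN0))
    (.x .d .d)
    (bx 20 70 (-77) (4385) 750 800) = true := by decide +kernel

theorem c2_1q : runT (rowS (cE 1 0 0) (-200) (kQ (-116)) (kQ (5)) (fN0))
    (.z (.y (.z (.x .c .c) .a) (.z (.x .c .c) .a)) (.x (.z .a .d) (.z .a (.z .d (.y .d .d)))))
    (bx 70 110 (-4385) (385) 0 750) = true := by decide +kernel

theorem c2e_1q : runT (rowS (cE 1 0 0) (190) (kQ (-95)) (kQ (0)) (fN0))
    (.z (.z (.z (.x .c .c) .a) .a) (.z (.x .a (.z .a .a)) (.x .d (.z .d (.z .d (.x .b (.y .b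
    .b)))))))
    (bx 70 110 (-7539) (-5846) 0 750) = true := by decide +kernel

theorem c3_1q : runT (rowS (cE 1 0 0) (-50) (kQ (-116)) (kQ (5)) (fN0))
    (.z (.z (.x (.z .c .c) (.z (.z .c .c) .c)) .a) (.x (.z .a .d) (.z .a .d)))
    (bx 70 110 (-1693) (1693) 0 750) = true := by decide +kernel

theorem c3e_1q : runT (rowS (cE 1 0 0) (40) (kQ (-116)) (kQ (5)) (fN0))
    (.z (.z (.x .c (.z .c .a)) .a) (.x (.z .a .d) (.z .a .d)))
    (bx 70 110 (-2154) (-384) 0 750) = true := by decide +kernel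

theorem cZ_1q : runT (rowS (cE 1 0 0) (30) (kQ (-106)) (kQ (0)) (fN0))
    (.z (.y (.z (.z (.x .c (.z (.x .c .c) .c)) .c) .a) (.z (.z (.x (.z .c .c) (.z (.x .c (.z (.x
    .c (.y .c .c)) .c)) .c)) .c) (.x (.x (.z .a .a) .a) .a))) (.x (.y (.z .a .d) (.x (.y (.z .a
    .a) (.z .a .a)) (.y (.z .a .d) (.z .a .a)))) (.y (.z .a .d) (.z .a .d))))
    (bx 70 110 (-77) (4385) 0 750) = true := by decide +kernel

theorem c2_1r : runT (rowS (cE 1 0 0) (-200) (kR (-116)) (kR (5)) (fN0))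
    (.x (.y .d .d) (.z (.x .d (.y .d .d)) (.y (.x .d (.z (.x .d (.z .d (.y .b .d))) (.x (.z .d .b)
    (.z .b (.y .b .b))))) (.x .d .d))))
    (bx 70 110 (-4385) (385) 750 800) = true := by decide +kernel

theorem c3_1r : runT (rowS (cE 1 0 0) (-50) (kR (-116)) (kR (5)) (fN0))
    (.x .d (.y (.x .d (.z .d (.x .d (.z .d (.y .d .d))))) .d))
    (bx 70 110 (-1693) (1693) 750 800) = true := by decide +kernel

theorem cZ_1r : runT (rowS (cE 1 0 0) (30) (kR (-106)) (kR (0)) (fN0))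
    (.x .d (.y (.x .d .d) .d))
    (bx 70 110 (-77) (4385) 750 800) = true := by decide +kernel

theorem c3e_1r : runT (rowS (cE 1 0 0) (40) (kR (-116)) (kR (5)) (fN0))
    (.x .d .d)
    (bx 70 100 (-2154) (-384) 750 800) = true := by decide +kernel

theorem c3e_1s : runT (rowS (cE 1 0 0) (40) (kR (-116)) (kR (5)) (fN0))
    .d
    (bx 100 110 (-2154) (-384) 750 780) = true := by decide +kernel

theorem c1_1l : runT (rowS (cE 2 0 4500) (-440) (kL (-123)) (kL (-15)) (fN0))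
    (.y (.x .c .c) (.x .c .c))
    (bx 70 110 (-7634) (-1400) 0 50) = true := by decide +kernel

theorem c1_1q : runT (rowS (cE 2 0 4500) (-440) (kQ (-123)) (kQ (-15)) (fN0))
    (.z (.y (.x (.z (.z .c .a) .a) (.z (.z .c .a) .a)) (.x (.z .c .a) (.z .c .a))) (.y (.z (.x (.y
    (.z .a .a) .a) (.y (.z .a .d) (.z .a .a))) (.x (.z .d (.y (.x .d (.z .d .b)) .d)) (.z .d (.y
    (.z (.x .d .b) (.x .b (.y (.z .b (.x .b .b)) (.z .b .b)))) (.x .d (.z .d (.y .b .b))))))) (.z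
    .a (.x .d (.y .d .d)))))
    (bx 70 110 (-7634) (-1400) 50 750) = true := by decide +kernel

theorem c2_2l : runT (rowS (cE 1 0 0) (-200) (kL (-116)) (kL (5)) (fN0))
    (.y .c .c)
    (bx 110 130 (-4385) (385) 0 50) = true := by decide +kernel

theorem c2_2q : runT (rowS (cE 1 0 0) (-200) (kQ (-116)) (kQ (5)) (fN0))
    (.z (.z (.y .c .c) .a) (.z (.x .a (.z .a .a)) (.z .d (.x (.y .d .d) (.z .d (.y (.y (.x .d (.y
    .b .d)) .d) .d))))))
    (bx 110 130 (-4385) (385) 50 750) = true := by decide +kernel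

theorem c2e_2l : runT (rowS (cE 1 0 0) (190) (kL (-95)) (kL (-5)) (fN0))
    .a
    (bx 110 130 (-7539) (-5846) 0 50) = true := by decide +kernel

theorem c2e_2q : runT (rowS (cE 1 0 0) (190) (kQ (-95)) (kQ (-5)) (fF (-95) 47 1145))
    (.z (.z .a .a) (.z (.z .a .d) (.z .d (.z (.y .b (.x .b .b)) (.y (.x (.y .b (.z .b .e)) (.y (.z
    .b .e) (.z (.x .b .b) .e))) (.x (.z .b .e) (.y (.z (.x .b (.y (.z .b .e) (.z .b .e))) .e) (.z
    (.x (.z .b .e) (.y (.z .b .e) (.z .e .e))) .e))))))))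
    (bx 110 130 (-7539) (-5846) 50 750) = true := by decide +kernel

theorem c3_2l : runT (rowS (cE 1 0 0) (-50) (kL (-116)) (kL (5)) (fN0))
    (.y .c (.z (.x .c .c) .c))
    (bx 110 130 (-1693) (1693) 0 50) = true := by decide +kernel

theorem c3_2q : runT (rowS (cE 1 0 0) (-50) (kQ (-116)) (kQ (5)) (fF (-116) 47 1145))
    (.z (.z (.z .c .a) .a) (.z .a (.z .d (.x .d (.z .d (.y (.x .d (.z .d (.y .d .d))) .d))))))
    (bx 110 130 (-1693) (1693) 50 750) = true := by decide +kernel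

theorem c3e_2l : runT (rowS (cE 1 0 0) (40) (kL (-116)) (kL (5)) (fN0))
    .c
    (bx 110 130 (-2154) (-384) 0 50) = true := by decide +kernel

theorem c3e_2q : runT (rowS (cE 1 0 0) (40) (kQ (-116)) (kQ (5)) (fF (-116) 47 1145))
    (.z (.z (.z .c .a) .a) (.z .a (.z .d (.x .d (.z .d (.x (.z .d (.y (.x .d (.z .d .e)) .d)) (.z
    .d (.y (.x (.z .d .e) .e) .e))))))))
    (bx 110 130 (-2154) (-384) 50 750) = true := by decide +kernel

theorem cZ_2l : runT (rowS (cE 1 0 0) (-100) (kL (-106)) (kL (0)) (fN0))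
    (.y (.z (.y .c .c) .c) (.z (.x (.y .c .c) (.y (.z .a .a) (.z (.x .a (.y .a .a)) .a))) .c))
    (bx 110 130 (-77) (4385) 0 50) = true := by decide +kernel

theorem cZ_2q : runT (rowS (cE 1 0 0) (-100) (kQ (-106)) (kQ (0)) (fN0))
    (.z (.z (.z (.z (.x .c .c) .c) .a) .a) (.y (.z .a .d) (.z .a .d)))
    (bx 110 130 (-77) (4385) 50 750) = true := by decide +kernel

theorem c1_2l : runT (rowS (cE 2 0 4500) (-285) (kL (-123)) (kL (-15)) (fN0))
    (.y (.y .c .c) (.x .c .c))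
    (bx 110 150 (-7634) (-1400) 0 50) = true := by decide +kernel

theorem c1_2q0 : runT (rowS (cE 2 0 4500) (-285) (kQ (-123)) (kQ (-115)) (fF (-123) 47 980))
    (.z (.y (.z (.z (.x .a .a) .a) (.x .a .a)) (.z (.z (.x .c .a) .a) .a)) (.z (.y (.z (.x .a .a)
    (.x .d .d)) (.x (.y (.z .a .a) .a) (.y (.z .a .d) .a))) (.y (.z (.x (.y (.z .d .b) .d) (.z (.y
    (.z .d .b) .d) (.y .b .b))) (.x (.y (.z .b (.x .b .b)) (.z .b (.x .b .b))) (.y (.z (.y .b .b)
    (.y .b (.x .b .b))) (.z (.x .b .b) (.x (.z .b (.y .b .b)) (.y (.z .b (.y .b (.x .b .b))) (.z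
    (.x .b .b) .e))))))) (.z (.x .d (.y (.z .d (.x .d (.y .b .d))) .d)) (.x (.y (.z .b (.x .b .b))
    (.x .d (.z .d .b))) (.y (.z (.x .b (.y .b .b)) (.x (.y .b .b) (.z (.y (.x .b .b) (.x .b (.z .b
    .e))) .e))) (.z (.x (.y .b .d) (.y .b .b)) (.x (.y .b .b) (.y (.z (.x .b .b) .e) (.z .b
    .e))))))))))
    (bx 110 150 (-7634) (-1400) 50 750) = true := by decide +kernel

theorem c1_2q1 : runT (rowS (cE 2 0 4500) (-285) (kQ (-115)) (kQ (-108)) (fF (-115) 47 980))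
    (.z (.y (.z (.z (.z .a .a) .a) (.x .a .a)) (.z (.z (.x .c .a) .a) .a)) (.z (.y (.z (.x .a .a)
    (.x .d .d)) (.x (.y (.z .a .a) .a) (.y (.z .a .d) .a))) (.y (.z (.x (.y (.z .d .b) .d) (.z (.y
    (.z .d .b) .d) (.y .b .b))) (.x (.y (.z .b (.x .b .b)) (.z .b (.x .b .b))) (.y (.z (.y .b .b)
    (.y (.z .b .b) (.x .b (.z .b .e)))) (.z (.x .b (.z .b (.y .b .b))) (.x (.z .b .e) (.y (.z (.y
    .b .b) .e) (.z (.x .b (.z .b .e)) .e))))))) (.z (.x .d (.y (.z .d (.x .d (.y .b .d))) .d)) (.x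
    (.y (.z (.x .b .b) (.x .b .b)) (.x .d (.z .d .b))) (.y (.z (.x .b (.z .b (.y .b .b))) (.x (.y
    (.z .b .e) (.z .b .b)) (.z (.y (.x .b (.z .b .e)) (.x .b .e)) .e))) (.z (.x (.y .b .d) (.y .b
    (.z .b .b))) (.x (.y .b .b) (.y (.z (.x .b .e) .e) (.z .e .e))))))))))
    (bx 110 150 (-7634) (-1400) 50 750) = true := by decide +kernel

theorem c1_2q2 : runT (rowS (cE 2 0 4500) (-285) (kQ (-108)) (kQ (-99)) (fF (-108) 47 980))
    (.z (.y (.z (.z (.z .a .a) .a) (.x .a .a)) (.z (.z (.x .c .a) .a) .a)) (.z (.y (.z (.x .a .a)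
    (.x .d .d)) (.x (.y (.z .a .a) .a) (.y (.z .a .d) .a))) (.y (.z (.x (.y (.z .d .b) .d) (.z (.y
    (.z .d .b) .d) (.y .b .b))) (.x (.y (.z (.x .b .b) (.x .b (.z .b .b))) (.z .b (.x .b (.y .b
    .b)))) (.z (.y (.y .b (.z .b .b)) (.x .b (.z .b (.y .b .b)))) (.y (.y (.z (.y .b .b) .e) (.z
    (.x .b (.y .b .b)) .e)) (.x (.z (.y .b .b) .e) (.y (.z .e .e) .e)))))) (.z (.x .d (.y (.z .d
    (.x .d (.y .b .d))) .d)) (.x (.y (.z (.x .d .b) (.x .b (.y .b .b))) (.x .d (.z .d .b))) (.y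
    (.z (.x .b (.z .b (.y (.x .b .b) .b))) (.x (.y (.z .b .e) (.z .b .e)) (.z .e .e))) (.z (.x (.y
    .b .d) (.y .b (.z .d .b))) (.x (.y (.z .b .e) .b) .e))))))))
    (bx 110 150 (-7634) (-1400) 50 750) = true := by decide +kernel

theorem c1_2q3 : runT (rowS (cE 2 0 4500) (-285) (kQ (-99)) (kQ (-90)) (fF (-99) 47 980))
    (.z (.y (.z (.z (.z .a .a) .a) (.x .a .a)) (.z (.z (.x .c .a) .a) .a)) (.z (.y (.z (.x .a .a)
    (.x .d .d)) (.x (.y (.z .a .a) .a) (.y (.z .a .d) .a))) (.y (.z (.x (.y (.z .d .b) .d) (.z (.y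
    (.z .d .b) .d) (.y .b (.x .b .b)))) (.x (.y (.z (.x .b .b) (.x (.y .b .b) (.z .b .e))) (.z (.x
    .b .b) (.x .b (.y .e .e)))) (.z (.y (.z (.y .b .b) (.y .b (.x .b .b))) (.x (.z .b .b) (.z .b
    (.y (.x .b .b) (.x .b (.z .b .e)))))) (.y .e .e)))) (.z (.x .d (.y (.z .d (.x .d (.y .b .d)))
    .d)) (.x (.y (.z (.x .d .b) (.x .b (.y .b .b))) (.z .d (.x .b .b))) (.y (.z (.x (.y .b .b) (.z
    (.y .b .b) (.y (.x .b (.z .b .e)) (.x .b (.z .b .e))))) .e) (.z (.x (.y .d .d) (.y (.z .b .b)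
    (.z .d .b))) .e)))))))
    (bx 110 150 (-7634) (-1400) 50 750) = true := by decide +kernel

theorem c1_2q4 : runT (rowS (cE 2 0 4500) (-285) (kQ (-90)) (kQ (-82)) (fF (-90) 47 1145))
    (.z (.y (.z (.z (.z .a .a) .a) (.x .a .a)) (.z (.z (.x .c .a) .a) .a)) (.z (.y (.z (.x .a .a)
    (.x .d .d)) (.x .a (.y (.z .a .d) .a))) (.y (.z (.x (.y (.z .d .b) .d) (.z (.y (.z .d .b) .d)
    (.y .b (.x .b .b)))) (.x (.y (.z (.x .b .b) (.x (.y .b .b) (.z .e .e))) (.z (.x .b .b) (.x (.y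
    .b .b) (.z .e .e)))) (.z (.y (.z (.y .b .b) (.y (.x .b .b) (.x .b (.y .b (.z .b .b))))) (.x
    (.z .b (.y .b .b)) (.z (.y .b .b) (.y (.z .b .e) (.x .b (.z .b .e)))))) (.y (.y .e .e) .e))))
    (.z (.x .d (.y (.z .d (.x .d (.y (.z .d .b) .d))) .d)) (.x (.y (.z (.x .d (.y .b .b)) (.x .b
    (.y .e .b))) (.z .d (.x .d .b))) (.y (.z (.x (.y .b .b) (.z (.y .b .b) (.y (.x .b (.z .b .e))
    (.x .b (.z .b .e))))) .e) (.z (.x (.y .d .d) (.y (.z .b (.x .b (.z .b .b))) (.z .d .b)))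
    .e)))))))
    (bx 110 150 (-7634) (-1400) 50 750) = true := by decide +kernel

theorem c1_2q5 : runT (rowS (cE 2 0 4500) (-285) (kQ (-82)) (kQ (-74)) (fF (-82) 47 1145))
    (.z (.y (.z (.z (.z .a .a) .a) (.x .a .a)) (.z (.z (.x .c .a) .a) .a)) (.z (.y (.z (.x .a .a)
    (.x .d .d)) (.x .a (.y (.z .a .a) .a))) (.y (.z (.x (.y (.z .d .b) .d) (.z (.y (.z .d .b) .d)
    (.y (.z .b .b) (.x (.z .b .b) .b)))) (.x (.z (.y (.x .b .b) (.x .b .b)) (.y (.x .e .e) (.x .e
    .e))) (.z (.y (.z (.y .b (.x .b .b)) (.y (.x .b .e) (.x .b .e))) (.x (.z .b (.y .b .b)) (.z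
    (.y .b .b) .e))) .e))) (.z (.x .d (.y (.z .d (.x .d (.y (.z .d .b) .d))) .d)) (.x (.y (.z (.x
    .d (.y .b .d)) (.x .b .e)) (.z .d (.x .d .e))) (.z (.y (.x (.y .b .b) (.z (.y .b .b) .e)) (.x
    (.y .d .d) (.y (.z .b .e) (.z .d .b)))) .e))))))
    (bx 110 150 (-7634) (-1400) 50 750) = true := by decide +kernel

theorem c1_2q6 : runT (rowS (cE 2 0 4500) (-285) (kQ (-74)) (kQ (-66)) (fF (-74) 47 1145))
    (.z (.y (.z (.z (.z .a .a) .a) (.x .a .a)) (.z (.z (.x .a .a) .a) .a)) (.z (.y (.z (.x .a .a)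
    (.x .d .d)) (.x .a (.y (.z .a .a) .a))) (.y (.z (.x (.y (.z .d .b) .d) (.z (.y (.z .d .b) .d)
    (.y (.z .b (.x .b .b)) (.x (.z .d .b) .b)))) (.x (.z (.y (.x .b (.z .b (.y .b .b))) (.x .b (.y
    .b .b))) .e) (.z (.y (.z (.x .b (.y .b .b)) .e) (.x (.z .b .e) (.z (.y (.z .b .e) (.x .b (.z
    .b .b))) .e))) .e))) (.z (.x .d (.y (.z .d (.x .d (.y (.z .d .b) .d))) .d)) (.x (.y (.z (.x .d
    (.y .b .d)) .e) (.z .d .e)) (.z (.y (.x (.y (.z .b .b) .b) (.z (.y (.x .b .b) .b) .e)) (.x (.y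
    .d .d) (.y (.z .d .e) (.z .d .e)))) .e))))))
    (bx 110 150 (-7634) (-1400) 50 750) = true := by decide +kernel

theorem c1_2q7 : runT (rowS (cE 2 0 4500) (-285) (kQ (-66)) (kQ (-54)) (fF (-66) 47 1145))
    (.z (.y (.x (.z .a .a) (.z .a .a)) (.z (.z (.x .a .a) .a) .a)) (.z (.y (.z (.x .a .a) (.x .d
    .d)) (.x .a (.y (.z .a .a) .a))) (.y (.z (.x (.y (.z .d (.x .d .b)) .d) (.z (.y (.z .d .b) .d)
    (.y (.z .b (.x .b .b)) (.x (.z .d .b) (.z .b (.y .b .b)))))) (.x (.z (.y (.x (.z .b .b) (.z .b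
    .e)) (.x .b (.z .b .e))) .e) (.z (.y (.z (.x (.y .b .b) (.y (.z .b .e) (.z .b .e))) .e) (.x
    (.z (.y .b .b) .e) (.z (.y (.z .b .e) (.x .b (.z .b .e))) .e))) .e))) (.z (.x .d (.y (.z .d
    (.x .d (.y (.z .d .b) .d))) .d)) (.x (.y (.z (.x .d (.y .b .d)) .e) (.z .d .e)) (.z (.y (.x
    (.y (.z .b .e) (.z .d .b)) (.z (.y (.x .b (.z .b .e)) (.x .b .b)) .e)) (.x (.y .d .d) (.y (.z
    .d .e) (.z .d .e)))) .e))))))
    (bx 110 150 (-7634) (-1400) 50 750) = true := by decide +kernel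

theorem c1_2q8 : runT (rowS (cE 2 0 4500) (-285) (kQ (-54)) (kQ (-42)) (fF (-54) 47 1145))
    (.z (.y (.x (.z .a .a) (.z .a .a)) (.z (.z (.x .a .a) .a) .a)) (.z (.y (.z (.x .a .a) (.x .d
    .d)) (.x .a (.y (.z .a .a) .a))) (.y (.z (.x (.y (.z .d (.x .d .b)) .d) (.z (.y (.z .d (.x .d
    .b)) .d) (.y (.z .b (.x .b (.y .b .b))) (.x (.z .d .b) (.z (.y .b .d) (.y .b .b)))))) (.z (.x
    (.y (.x (.z .b .e) (.z (.y .b .b) .e)) (.x .b (.z .b .e))) (.y (.z .e .e) (.z .e .e))) .e))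
    (.z (.x .d (.y (.z .d (.x .d (.y (.z .d (.x .b .b)) .d))) .d)) (.x (.y (.z (.x .d (.y (.z .d
    .b) .d)) .e) (.z .d .e)) (.z (.y (.x (.z (.y .b .d) .e) .e) (.x (.y .d .d) (.y (.z .d .e) (.z
    .d .e)))) .e))))))
    (bx 110 150 (-7634) (-1400) 50 750) = true := by decide +kernel

theorem c1_2q9 : runT (rowS (cE 2 0 4500) (-285) (kQ (-42)) (kQ (-15)) (fF (-42) 47 1145))
    (.z (.y (.x (.z (.z .a .a) .a) (.z .a .a)) (.z (.z (.x .a .a) .a) .a)) (.z (.y (.z (.x .a .a)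
    (.x .d .d)) (.x .a (.y (.z .a .a) .a))) (.y (.z (.x (.y (.z .d (.x .d (.z .d .b))) .d) (.z (.y
    (.z .d (.x .d .d)) .d) (.y (.z (.x .b .b) (.x (.y .b .b) (.y (.z .b .e) (.z .b .e)))) (.x (.z
    .d (.y .b .d)) (.z (.y .b .d) (.y (.z .b .e) (.x .b (.z .b .e)))))))) (.z (.x (.y (.z .e .e)
    (.x (.y (.z .b .b) .d) .e)) .e) .e)) (.z (.x .d (.y (.z .d (.x .d (.z .d (.y (.x .d (.z .d
    .d)) .d)))) .d)) (.x (.y (.z (.x .d (.y .e .d)) .e) (.z .d .e)) (.z (.y .e (.x (.y .d .d) .e))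
    .e))))))
    (bx 110 150 (-7634) (-1400) 50 750) = true := by decide +kernel

end Pool.Agent.Work.MP_b30479_gtS.G2.ML

end
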