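import Pool.Agent.Work.MP_b30479_gt.TBS.G2.V2BOne_0

/-!
# Value moves of the hinge `1 | 3`: the digit `1`
-/

namespace Pool.Agent.Work.MP_b30479_gtS.G2

open VOL NumUs

namespace V2A.B

open NumUs.E

section
open NumIs (V)

theorem one_34_a : chkT (OB (q 34 100) ex65 (fq (-6000) (-1301) 299 (-16249) 16698 940 500 70) (-220) 1110 eA) 60
    56862613132689016394820211114757866799547165635828149640810423660977513333908485829550188823449875970010920861231522584228722727173231373041038197380966998599591250634351852722145457079849532984889929943065487084164711252465211851978873632264443610358475208340389969247467712003180152268320263137885092543941942750988048312448053484096036586405533166851725357326109321801576962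
    [V.of 10000 5000 6000, V.of 10000 210 920, V.of 10000 1250 4500, V.of 10000 (-910) 490] = true :=
      Pool.Agent.Work.NumUs.chkT_of (Pool.Agent.Work.NumUs.runT_split rfl rfl rfl
        one_34_a_q1
        one_34_a_q2)

theorem one_34_b : chkT (OB (q 34 100) ex65 (fq (-6000) (-1301) 299 (-16249) 16698 940 500 70) 740 1480 eB) 60
    1142410081841722762422734174987548106592401103156650311768501794348738858702453840139299598083974682287209227545284298572416382100600470968951017052373327564550630040221165240333114600611140632470423013629545581180475713166006192446809124938349164625012319281570479660694738396803954218880568292362059683966450044830796611424296515877905229763584979738816127457738474583021743138924249976410276196224060995109125400322793218527848965326529081787518756809825340350195408395067878217677026072101574213582907285204410554213854384595140442503099680094580838391919869979006037624839307305140886710309011091217951759452724537224184345819036047791164277876660790218568448039179436998283758735062522147959283406549466760346803725880353078863398351532950108746104261445054485367642784660897702523429222023907648707404448820020758450743535970033108088327534417660686691770259274585678600076181791641133404860147044353158257239668416605505916962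
    [V.of 10000 5000 6000, V.of 10000 460 940, V.of 10000 1500 4500, V.of 10000 89 770] = true :=
      Pool.Agent.Work.NumUs.chkT_of (Pool.Agent.Work.NumUs.runT_split rfl rfl rfl
        (Pool.Agent.Work.NumUs.runT_split rfl rfl rfl
          (Pool.Agent.Work.NumUs.runT_split rfl rfl rfl
            (Pool.Agent.Work.NumUs.runT_split rfl rfl rfl
              one_34_b_q1
              one_34_b_q2)
            (Pool.Agent.Work.NumUs.runT_split rfl rfl rfl
              one_34_b_q3
              one_34_b_q4))
          one_34_b_q5)
        one_34_b_q6)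

theorem one_40_a : chkT (OB (q 40 100) ex65 (fq (-3560) (-1291) 215 (-15993) 12027 747 500 70) (-220) 1110 eA) 60
    166935792918172865725629847863258793828059993563752477868594125756424288900043624395981367742948168256373487317616355768372201781686703334103085288461051970521670277690696513202028911542936948537702435414965628699063582345621908434296076669726044179778048318838728021317664913392082422029967683793602110041154447843895118652209704497917986
    [V.of 10000 5200 6000, V.of 10000 210 920, V.of 10000 1250 4300, V.of 10000 (-910) 490] = true :=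
      Pool.Agent.Work.NumUs.chkT_of (Pool.Agent.Work.NumUs.runT_split rfl rfl rfl
        one_40_a_q1
        one_40_a_q2)

theorem one_40_b : chkT (OB (q 40 100) ex65 (fq (-3560) (-1291) 215 (-15993) 12027 747 500 70) 740 1480 eB) 60
    5583984161674859547798140781758850788659598376075507681099694439797424431830419573775136831790184351484184188360139319384432251450605137211108017148988553581241662776626756804170624702054744234654373726546253412336208142880452824829095101151906576044311423769253632997648318572451403254999277935231345016218869598651860944474484283226613444867063657557098294138944793627228350889800223075030926907867002461267213872525126344977688870191198997283986663621931505902367464976385090027432156263874565952152496366631365436035114335209955601217877540951136976483230857569745497390677932254805282033432582902366535083553626263622589484487540965039505508617544746153906195756108552397943730800974241452424904370244008309286831202495879569758908065154316827256237354318286613096786503647039522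
    [V.of 10000 5200 6000, V.of 10000 460 940, V.of 10000 1500 4300, V.of 10000 89 770] = true :=
      Pool.Agent.Work.NumUs.chkT_of (Pool.Agent.Work.NumUs.runT_split rfl rfl rfl
        (Pool.Agent.Work.NumUs.runT_split rfl rfl rfl
          (Pool.Agent.Work.NumUs.runT_split rfl rfl rfl
            (Pool.Agent.Work.NumUs.runT_split rfl rfl rfl
              one_40_b_q1
              (Pool.Agent.Work.NumUs.runT_split rfl rfl rfl
                one_40_b_q2
                (Pool.Agent.Work.NumUs.runT_split rfl rfl rfl
                  one_40_b_q3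
                  one_40_b_q4)))
            (Pool.Agent.Work.NumUs.runT_split rfl rfl rfl
              one_40_b_q5
              (Pool.Agent.Work.NumUs.runT_split rfl rfl rfl
                one_40_b_q6
                (Pool.Agent.Work.NumUs.runT_split rfl rfl rfl
                  (Pool.Agent.Work.NumUs.runT_split rfl rfl rfl
                    one_40_b_q7
                    one_40_b_q8)
                  one_40_b_q9))))
          one_40_b_q10)
        one_40_b_q11)

theorem one_34e_b : chkT (OB (q 34 100) ex65 (fq (-18200) (-1129) (-1263) (-16161) 20569 1341 600 70) 740 1480 eB) 60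
    280372825033140817396224139812461473261888522137199283871455291484294708885061662363239286666324077986868372739494075032284678690783305129222360563281315938214254626228951858673884168281569023551923109822570262939202548981637947294603022077444930226792719061590370287494853364230803664780618223275524338828232400593292891271246055686341290278689593982244040053639765725010492628677149152695819767320538052917315633730790699603128115694555327951128912068934991503944292939523951089565770615583067851689560322065275117226224430785307680778886632192490099153953214282860614671539372834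
    [V.of 10000 6000 6500, V.of 10000 460 940, V.of 10000 1500 3500, V.of 10000 89 770] = true :=
      Pool.Agent.Work.NumUs.chkT_of (Pool.Agent.Work.NumUs.runT_split rfl rfl rfl
        (Pool.Agent.Work.NumUs.runT_split rfl rfl rfl
          (Pool.Agent.Work.NumUs.runT_split rfl rfl rfl
            one_34e_b_q1
            (Pool.Agent.Work.NumUs.runT_split rfl rfl rfl
              one_34e_b_q2
              (Pool.Agent.Work.NumUs.runT_split rfl rfl rfl
                (Pool.Agent.Work.NumUs.runT_split rfl rfl rfl
                  one_34e_b_q3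
                  one_34e_b_q4)
                one_34e_b_q5)))
          one_34e_b_q6)
        one_34e_b_q7)

theorem one_44e_b : chkT (OB (q 44 100) ex65 (fq (-14600) (-1119) (-1384) (-15445) 12133 1255 600 70) 740 1480 eB) 60
    19018589781502151831337547493263159912303216968048193145937551738836533007563012228017757051869664360062309365014970601106097015403270251318898672395605977085162473012100007664574840337359662360667458247356018628541530472831130423642251076963672883402205707202245370456010589329190720039889049451360397868388195917012754213217967298182591159210439807918166299511925884746241300194697889835024658258852014977246572578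
    [V.of 10000 6000 6500, V.of 10000 460 940, V.of 10000 1500 3500, V.of 10000 89 770] = true :=
      Pool.Agent.Work.NumUs.chkT_of (Pool.Agent.Work.NumUs.runT_split rfl rfl rfl
        (Pool.Agent.Work.NumUs.runT_split rfl rfl rfl
          (Pool.Agent.Work.NumUs.runT_split rfl rfl rfl
            one_44e_b_q1
            one_44e_b_q2)
          one_44e_b_q3)
        one_44e_b_q4)

end

variable {x T k h : ℝ}

/-- flat part, `c = .34` -/
theorem one_I (hx : 41 / 100 ≤ x) (hx' : x ≤ 1 / 2) (K : KOk T k h) (hk : x + k ≤ 95 / 100) :
    gq (-5650) (-270) 0 0 0 0 500 0 x (-T) < dvB (34 / 100) T x T k h := by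
  have hc : (q 34 100).val [x, T, k, h] = 34 / 100 := by norm_num [E.val]
  rcases K with K | K | K
  · have t0 := K.T0
    have t1 := K.T1
    have k0 := K.k0
    have h0 := K.h0
    have h1 := K.h1
    have s0 := K.s0
    have s1 := K.s1
    exact one_row (c := q 34 100) (hx := vT) (g := fq (-5650) (-270) 0 0 0 0 500 0) (s0 := -220) (s1 := 1110) (es := eA) hc rfl fq_val
      (by push_cast; linarith only [s0]) (by push_cast; linarith only [s1]) hk (eA_ok K)
      (use4 one_I_a (by norm_num) (by
      refine ⟨⟨?_, ?_⟩, ⟨?_, ?_⟩, ⟨?_, ?_⟩, ⟨?_, ?_⟩⟩ <;>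
        push_cast <;> linarith only [hx, hx', t0, t1, k0, hk, h0, h1]))
  · have t0 := K.T0
    have t1 := K.T1
    have k0 := K.k0
    have h0 := K.h0
    have h1 := K.h1
    have s0 := K.s0
    have s1 := K.s1
    exact one_row (c := q 34 100) (hx := vT) (g := fq (-5650) (-270) 0 0 0 0 500 0) (s0 := 740) (s1 := 1480) (es := eB) hc rfl fq_val
      (by push_cast; linarith only [s0]) (by push_cast; linarith only [s1]) hk (eB_ok K)
      (use4 one_I_b (by norm_num) (by
      refine ⟨⟨?_, ?_⟩, ⟨?_, ?_⟩, ⟨?_, ?_⟩, ⟨?_, ?_⟩⟩ <;>
        push_cast <;> linarith only [hx, hx', t0, t1, k0, hk, h0, h1]))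
  · have t0 := K.T0
    have t1 := K.T1
    have k0 := K.k0
    have h0 := K.h0
    have h1 := K.h1
    have s0 := K.s0
    have s2 := K.s2
    rcases le_total k (35 / 100) with c1 | c1
    · have s1 := K.s1 c1
      exact one_row (c := q 34 100) (hx := vT) (g := fq (-5650) (-270) 0 0 0 0 500 0) (s0 := 500) (s1 := 812) (es := []) hc rfl fq_val
        (by push_cast; linarith only [s0]) (by push_cast; linarith only [s1]) hk all_nil
        (use4 one_I_c (by norm_num) (by
      refine ⟨⟨?_, ?_⟩, ⟨?_, ?_⟩, ⟨?_, ?_⟩, ⟨?_, ?_⟩⟩ <;>
        push_cast <;> linarith only [hx, hx', t0, t1, k0, c1, h0, h1]))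
    · exact one_row (c := q 34 100) (hx := vT) (g := fq (-5650) (-270) 0 0 0 0 500 0) (s0 := 400) (s1 := 980) (es := []) hc rfl fq_val
        (by push_cast; linarith only [s0]) (by push_cast; linarith only [s2]) hk all_nil
        (use4 one_I_d (by norm_num) (by
      refine ⟨⟨?_, ?_⟩, ⟨?_, ?_⟩, ⟨?_, ?_⟩, ⟨?_, ?_⟩⟩ <;>
        push_cast <;> linarith only [hx, hx', t0, t1, c1, hk, h0, h1]))

/-- ramp, `c = .34` -/
theorem one_34 (hx : 1 / 2 ≤ x) (hx' : x ≤ 6 / 10) (K : KOk T k h) (hk : x + k ≤ 95 / 100) :
    gq (-6000) (-1301) 299 (-16249) 16698 940 500 70 x (-T) < dvB (34 / 100) T x (h65 x T) k h := by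
  have hc : (q 34 100).val [x, T, k, h] = 34 / 100 := by norm_num [E.val]
  rcases K with K | K | K
  · have t0 := K.T0
    have t1 := K.T1
    have k0 := K.k0
    have h0 := K.h0
    have h1 := K.h1
    have s0 := K.s0
    have s1 := K.s1
    exact one_row (c := q 34 100) (hx := ex65) (g := fq (-6000) (-1301) 299 (-16249) 16698 940 500 70) (s0 := -220) (s1 := 1110) (es := eA) hc ex65_val fq_val
      (by push_cast; linarith only [s0]) (by push_cast; linarith only [s1]) hk (eA_ok K)
      (use4 one_34_a (by norm_num) (by
      refine ⟨⟨?_, ?_⟩, ⟨?_, ?_⟩, ⟨?_, ?_⟩, ⟨?_, ?_⟩⟩ <;>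
        push_cast <;> linarith only [hx, hx', t0, t1, k0, hk, h0, h1]))
  · have t0 := K.T0
    have t1 := K.T1
    have k0 := K.k0
    have h0 := K.h0
    have h1 := K.h1
    have s0 := K.s0
    have s1 := K.s1
    exact one_row (c := q 34 100) (hx := ex65) (g := fq (-6000) (-1301) 299 (-16249) 16698 940 500 70) (s0 := 740) (s1 := 1480) (es := eB) hc ex65_val fq_val
      (by push_cast; linarith only [s0]) (by push_cast; linarith only [s1]) hk (eB_ok K)
      (use4 one_34_b (by norm_num) (by
      refine ⟨⟨?_, ?_⟩, ⟨?_, ?_⟩, ⟨?_, ?_⟩, ⟨?_, ?_⟩⟩ <;>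
        push_cast <;> linarith only [hx, hx', t0, t1, k0, hk, h0, h1]))
  · have t0 := K.T0
    have t1 := K.T1
    have k0 := K.k0
    have h0 := K.h0
    have h1 := K.h1
    have s0 := K.s0
    have s2 := K.s2
    rcases le_total k (35 / 100) with c1 | c1
    · have s1 := K.s1 c1
      exact one_row (c := q 34 100) (hx := ex65) (g := fq (-6000) (-1301) 299 (-16249) 16698 940 500 70) (s0 := 500) (s1 := 812) (es := []) hc ex65_val fq_val
        (by push_cast; linarith only [s0]) (by push_cast; linarith only [s1]) hk all_nil
        (use4 one_34_c (by norm_num) (by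
      refine ⟨⟨?_, ?_⟩, ⟨?_, ?_⟩, ⟨?_, ?_⟩, ⟨?_, ?_⟩⟩ <;>
        push_cast <;> linarith only [hx, hx', t0, t1, k0, c1, h0, h1]))
    · exact one_row (c := q 34 100) (hx := ex65) (g := fq (-6000) (-1301) 299 (-16249) 16698 940 500 70) (s0 := 400) (s1 := 980) (es := []) hc ex65_val fq_val
        (by push_cast; linarith only [s0]) (by push_cast; linarith only [s2]) hk all_nil
        (use4 one_34_d (by norm_num) (by
      refine ⟨⟨?_, ?_⟩, ⟨?_, ?_⟩, ⟨?_, ?_⟩, ⟨?_, ?_⟩⟩ <;>
        push_cast <;> linarith only [hx, hx', t0, t1, c1, hk, h0, h1]))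

/-- ramp, `c = .40` -/
theorem one_40 (hx : 52 / 100 ≤ x) (hx' : x ≤ 6 / 10) (K : KOk T k h) (hk : x + k ≤ 95 / 100) :
    gq (-3560) (-1291) 215 (-15993) 12027 747 500 70 x (-T) < dvB (40 / 100) T x (h65 x T) k h := by
  have hc : (q 40 100).val [x, T, k, h] = 40 / 100 := by norm_num [E.val]
  rcases K with K | K | K
  · have t0 := K.T0
    have t1 := K.T1
    have k0 := K.k0
    have h0 := K.h0
    have h1 := K.h1
    have s0 := K.s0
    have s1 := K.s1
    exact one_row (c := q 40 100) (hx := ex65) (g := fq (-3560) (-1291) 215 (-15993) 12027 747 500 70) (s0 := -220) (s1 := 1110) (es := eA) hc ex65_val fq_val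
      (by push_cast; linarith only [s0]) (by push_cast; linarith only [s1]) hk (eA_ok K)
      (use4 one_40_a (by norm_num) (by
      refine ⟨⟨?_, ?_⟩, ⟨?_, ?_⟩, ⟨?_, ?_⟩, ⟨?_, ?_⟩⟩ <;>
        push_cast <;> linarith only [hx, hx', t0, t1, k0, hk, h0, h1]))
  · have t0 := K.T0
    have t1 := K.T1
    have k0 := K.k0
    have h0 := K.h0
    have h1 := K.h1
    have s0 := K.s0
    have s1 := K.s1
    exact one_row (c := q 40 100) (hx := ex65) (g := fq (-3560) (-1291) 215 (-15993) 12027 747 500 70) (s0 := 740) (s1 := 1480) (es := eB) hc ex65_val fq_val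
      (by push_cast; linarith only [s0]) (by push_cast; linarith only [s1]) hk (eB_ok K)
      (use4 one_40_b (by norm_num) (by
      refine ⟨⟨?_, ?_⟩, ⟨?_, ?_⟩, ⟨?_, ?_⟩, ⟨?_, ?_⟩⟩ <;>
        push_cast <;> linarith only [hx, hx', t0, t1, k0, hk, h0, h1]))
  · have t0 := K.T0
    have t1 := K.T1
    have k0 := K.k0
    have h0 := K.h0
    have h1 := K.h1
    have s0 := K.s0
    have s2 := K.s2
    rcases le_total k (35 / 100) with c1 | c1
    · have s1 := K.s1 c1
      exact one_row (c := q 40 100) (hx := ex65) (g := fq (-3560) (-1291) 215 (-15993) 12027 747 500 70) (s0 := 500) (s1 := 812) (es := []) hc ex65_val fq_val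
        (by push_cast; linarith only [s0]) (by push_cast; linarith only [s1]) hk all_nil
        (use4 one_40_c (by norm_num) (by
      refine ⟨⟨?_, ?_⟩, ⟨?_, ?_⟩, ⟨?_, ?_⟩, ⟨?_, ?_⟩⟩ <;>
        push_cast <;> linarith only [hx, hx', t0, t1, k0, c1, h0, h1]))
    · exact one_row (c := q 40 100) (hx := ex65) (g := fq (-3560) (-1291) 215 (-15993) 12027 747 500 70) (s0 := 400) (s1 := 980) (es := []) hc ex65_val fq_val
        (by push_cast; linarith only [s0]) (by push_cast; linarith only [s2]) hk all_nil
        (use4 one_40_d (by norm_num) (by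
      refine ⟨⟨?_, ?_⟩, ⟨?_, ?_⟩, ⟨?_, ?_⟩, ⟨?_, ?_⟩⟩ <;>
        push_cast <;> linarith only [hx, hx', t0, t1, c1, hk, h0, h1]))

/-- end, `c = .34` -/
theorem one_34e (hx : 6 / 10 ≤ x) (hx' : x ≤ 65 / 100) (K : KOk T k h) (hk : x + k ≤ 95 / 100) :
    gq (-18200) (-1129) (-1263) (-16161) 20569 1341 600 70 x (-T) < dvB (34 / 100) T x (h65 x T) k h := by
  have hc : (q 34 100).val [x, T, k, h] = 34 / 100 := by norm_num [E.val]
  rcases K with K | K | K
  · have t0 := K.T0
    have t1 := K.T1
    have k0 := K.k0
    have h0 := K.h0
    have h1 := K.h1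
    have s0 := K.s0
    have s1 := K.s1
    exact one_row (c := q 34 100) (hx := ex65) (g := fq (-18200) (-1129) (-1263) (-16161) 20569 1341 600 70) (s0 := -220) (s1 := 1110) (es := eA) hc ex65_val fq_val
      (by push_cast; linarith only [s0]) (by push_cast; linarith only [s1]) hk (eA_ok K)
      (use4 one_34e_a (by norm_num) (by
      refine ⟨⟨?_, ?_⟩, ⟨?_, ?_⟩, ⟨?_, ?_⟩, ⟨?_, ?_⟩⟩ <;>
        push_cast <;> linarith only [hx, hx', t0, t1, k0, hk, h0, h1]))
  · have t0 := K.T0
    have t1 := K.T1
    have k0 := K.k0
    have h0 := K.h0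
    have h1 := K.h1
    have s0 := K.s0
    have s1 := K.s1
    exact one_row (c := q 34 100) (hx := ex65) (g := fq (-18200) (-1129) (-1263) (-16161) 20569 1341 600 70) (s0 := 740) (s1 := 1480) (es := eB) hc ex65_val fq_val
      (by push_cast; linarith only [s0]) (by push_cast; linarith only [s1]) hk (eB_ok K)
      (use4 one_34e_b (by norm_num) (by
      refine ⟨⟨?_, ?_⟩, ⟨?_, ?_⟩, ⟨?_, ?_⟩, ⟨?_, ?_⟩⟩ <;>
        push_cast <;> linarith only [hx, hx', t0, t1, k0, hk, h0, h1]))
  · have t0 := K.T0
    have t1 := K.T1
    have k0 := K.k0
    have h0 := K.h0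
    have h1 := K.h1
    have s0 := K.s0
    have s2 := K.s2
    rcases le_total k (35 / 100) with c1 | c1
    · have s1 := K.s1 c1
      exact one_row (c := q 34 100) (hx := ex65) (g := fq (-18200) (-1129) (-1263) (-16161) 20569 1341 600 70) (s0 := 500) (s1 := 812) (es := []) hc ex65_val fq_val
        (by push_cast; linarith only [s0]) (by push_cast; linarith only [s1]) hk all_nil
        (use4 one_34e_c (by norm_num) (by
      refine ⟨⟨?_, ?_⟩, ⟨?_, ?_⟩, ⟨?_, ?_⟩, ⟨?_, ?_⟩⟩ <;>
        push_cast <;> linarith only [hx, hx', t0, t1, k0, hk, h0, h1]))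
    · exact one_row (c := q 34 100) (hx := ex65) (g := fq (-18200) (-1129) (-1263) (-16161) 20569 1341 600 70) (s0 := 400) (s1 := 980) (es := []) hc ex65_val fq_val
        (by push_cast; linarith only [s0]) (by push_cast; linarith only [s2]) hk all_nil
        (use4 one_34e_d (by norm_num) (by
      refine ⟨⟨?_, ?_⟩, ⟨?_, ?_⟩, ⟨?_, ?_⟩, ⟨?_, ?_⟩⟩ <;>
        push_cast <;> linarith only [hx, hx', t0, t1, c1, hk, h0, h1]))

/-- end, `c = .44` -/
theorem one_44e (hx : 6 / 10 ≤ x) (hx' : x ≤ 65 / 100) (K : KOk T k h) (hk : x + k ≤ 95 / 100) :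
    gq (-14600) (-1119) (-1384) (-15445) 12133 1255 600 70 x (-T) < dvB (44 / 100) T x (h65 x T) k h := by
  have hc : (q 44 100).val [x, T, k, h] = 44 / 100 := by norm_num [E.val]
  rcases K with K | K | K
  · have t0 := K.T0
    have t1 := K.T1
    have k0 := K.k0
    have h0 := K.h0
    have h1 := K.h1
    have s0 := K.s0
    have s1 := K.s1
    exact one_row (c := q 44 100) (hx := ex65) (g := fq (-14600) (-1119) (-1384) (-15445) 12133 1255 600 70) (s0 := -220) (s1 := 1110) (es := eA) hc ex65_val fq_val
      (by push_cast; linarith only [s0]) (by push_cast; linarith only [s1]) hk (eA_ok K)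
      (use4 one_44e_a (by norm_num) (by
      refine ⟨⟨?_, ?_⟩, ⟨?_, ?_⟩, ⟨?_, ?_⟩, ⟨?_, ?_⟩⟩ <;>
        push_cast <;> linarith only [hx, hx', t0, t1, k0, hk, h0, h1]))
  · have t0 := K.T0
    have t1 := K.T1
    have k0 := K.k0
    have h0 := K.h0
    have h1 := K.h1
    have s0 := K.s0
    have s1 := K.s1
    exact one_row (c := q 44 100) (hx := ex65) (g := fq (-14600) (-1119) (-1384) (-15445) 12133 1255 600 70) (s0 := 740) (s1 := 1480) (es := eB) hc ex65_val fq_val
      (by push_cast; linarith only [s0]) (by push_cast; linarith only [s1]) hk (eB_ok K)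
      (use4 one_44e_b (by norm_num) (by
      refine ⟨⟨?_, ?_⟩, ⟨?_, ?_⟩, ⟨?_, ?_⟩, ⟨?_, ?_⟩⟩ <;>
        push_cast <;> linarith only [hx, hx', t0, t1, k0, hk, h0, h1]))
  · have t0 := K.T0
    have t1 := K.T1
    have k0 := K.k0
    have h0 := K.h0
    have h1 := K.h1
    have s0 := K.s0
    have s2 := K.s2
    rcases le_total k (35 / 100) with c1 | c1
    · have s1 := K.s1 c1
      exact one_row (c := q 44 100) (hx := ex65) (g := fq (-14600) (-1119) (-1384) (-15445) 12133 1255 600 70) (s0 := 500) (s1 := 812) (es := []) hc ex65_val fq_val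
        (by push_cast; linarith only [s0]) (by push_cast; linarith only [s1]) hk all_nil
        (use4 one_44e_c (by norm_num) (by
      refine ⟨⟨?_, ?_⟩, ⟨?_, ?_⟩, ⟨?_, ?_⟩, ⟨?_, ?_⟩⟩ <;>
        push_cast <;> linarith only [hx, hx', t0, t1, k0, hk, h0, h1]))
    · exact one_row (c := q 44 100) (hx := ex65) (g := fq (-14600) (-1119) (-1384) (-15445) 12133 1255 600 70) (s0 := 400) (s1 := 980) (es := []) hc ex65_val fq_val
        (by push_cast; linarith only [s0]) (by push_cast; linarith only [s2]) hk all_nil
        (use4 one_44e_d (by norm_num) (by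
      refine ⟨⟨?_, ?_⟩, ⟨?_, ?_⟩, ⟨?_, ?_⟩, ⟨?_, ?_⟩⟩ <;>
        push_cast <;> linarith only [hx, hx', t0, t1, c1, hk, h0, h1]))

end V2A.B

end Pool.Agent.Work.MP_b30479_gtS.G2
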