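import Pool.Agent.Work.MP_b30479_gt.TBS.G2.RVe_1

/-!
# Value moves of the hinge `1 | 3`: the inner digit `3`, the inner variable stays
-/

namespace Pool.Agent.Work.MP_b30479_gtS.G2

open VOL NumUs

namespace V2A.B

open NumUs.E

theorem MOk.ramp {x T t : ℝ} (M : MOk T t) (hx : 1 / 2 ≤ x) (hx' : x ≤ 65 / 100) :
    |t - h65 x T| ≤ 13 / 100 := by
  have s0 := M.s0
  have s1 := M.s1
  have t0 := M.t0
  have t1 := M.t1
  obtain ⟨m1, m2⟩ := h65_mem hx hx' (by linarith only [s0, t1, M, M.T1] : T ≤ 0)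
  rw [abs_le]
  constructor <;> linarith only [t0, m2, s1, m1]

section
open NumIs (V)

theorem st_34_1 : chkT (S1 (q 34 100) ex65 (eq (-6000) (-1301) 299 (-16249) 16698 940 500 70) (eM 3800 5600)) 60
    2381032434037119304714071185578690264399103135912487915131664457725247620434856756767851218172647859254942348252987482097618302667013323878547191634891794134309014572978117777217021162445505241538470425924627706558224131585140587419611027585778039506475947146700606045374292548709626436791156037629532910057204774113520718406571399702240512371883179465215095547883264925785111951210714041028974736763529368724933854828579962467629313092272678332590265864871587619685382697991528163554035316684672713415050864390793106401939223132513107714082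
    [V.of 10000 5000 6000, V.of 10000 (-1145) (-210), V.of 10000 (-2200) (-100), V.of 10000 (-900) 50] = true :=
      Pool.Agent.Work.NumUs.chkT_of (Pool.Agent.Work.NumUs.runT_split rfl rfl rfl
        (Pool.Agent.Work.NumUs.runT_split rfl rfl rfl
          st_34_1_q1
          st_34_1_q2)
        st_34_1_q3)

theorem st_34_2 : chkT (S2 (q 34 100) ex65 (eq (-6000) (-1301) 299 (-16249) 16698 940 500 70) (eM 3800 5600)) 60
    2700470713437974943020609514601110528509494227229292070235211788956116574544085538038308900591165132433048887902880402069305202732463696405392101772308075539012217155688765775635961052056007500431037170018172279996023765640957414708192601508850195906075478835120697924786677442342525981810126979853381518725983112382008043020638813815454171735411147379831403967743510100488745656354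
    [V.of 10000 5000 6000, V.of 10000 (-1145) (-210), V.of 10000 (-2200) (-100), V.of 10000 (-900) 50] = true :=
      Pool.Agent.Work.NumUs.chkT_of (Pool.Agent.Work.NumUs.runT_split rfl rfl rfl
        st_34_2_q1
        st_34_2_q2)

end

variable {x T s t : ℝ}

/-- flat part, `c = .34` -/
theorem st_I (hx : 41 / 100 ≤ x) (hx' : x ≤ 1 / 2) (M : MOk T t) (hl : 38 / 100 ≤ x + s)
    (hl' : x + s ≤ 54 / 100) (hs : s ≤ 4 / 100) :
    0 < dvR (34 / 100) T x T (x + s) t + gq (-5650) (-270) 0 0 0 0 500 0 x T + uu s (t - T) := by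
  have hc : (q 34 100).val [x, T, s, t] = 34 / 100 := by norm_num [E.val]
  have T0 := M.T0
  have T1 := M.T1
  have t0 := M.t0
  have t1 := M.t1
  have hes := eM_ok (l0 := 3800) (l1 := 5400) (x := x) (s := s) M (by push_cast; linarith only [hl])
    (by push_cast; linarith only [hl'])
  exact stay_row (c := q 34 100) (hx := vT) (g := eq (-5650) (-270) 0 0 0 0 500 0) (es := eM 3800 5400) hc rfl eq_val hs
    (M.flat) hes
    (fun h1 => use4 st_I_1 (by norm_num) (by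
      refine ⟨⟨?_, ?_⟩, ⟨?_, ?_⟩, ⟨?_, ?_⟩, ⟨?_, ?_⟩⟩ <;>
        push_cast <;> linarith only [hx, hx', T0, T1, hl, h1, t0, t1]))
    (fun h1 => use4 st_I_2 (by norm_num) (by
      refine ⟨⟨?_, ?_⟩, ⟨?_, ?_⟩, ⟨?_, ?_⟩, ⟨?_, ?_⟩⟩ <;>
        push_cast <;> linarith only [hx, hx', T0, T1, hl, h1, t0, t1]))
    (fun h1 h2 => use4 st_I_3 (by norm_num) (by
      refine ⟨⟨?_, ?_⟩, ⟨?_, ?_⟩, ⟨?_, ?_⟩, ⟨?_, ?_⟩⟩ <;>
        push_cast <;> linarith only [hx, hx', T0, T1, h1, h2, t0, t1]))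
    (fun h1 h2 => use4 st_I_4 (by norm_num) (by
      refine ⟨⟨?_, ?_⟩, ⟨?_, ?_⟩, ⟨?_, ?_⟩, ⟨?_, ?_⟩⟩ <;>
        push_cast <;> linarith only [hx, hx', T0, T1, h1, h2, t0, t1]))
    (fun h1 h2 => use4 st_I_5 (by norm_num) (by
      refine ⟨⟨?_, ?_⟩, ⟨?_, ?_⟩, ⟨?_, ?_⟩, ⟨?_, ?_⟩⟩ <;>
        push_cast <;> linarith only [hx, hx', T0, T1, h1, h2, t0, t1]))
    (fun h1 => use4 st_I_6 (by norm_num) (by
      refine ⟨⟨?_, ?_⟩, ⟨?_, ?_⟩, ⟨?_, ?_⟩, ⟨?_, ?_⟩⟩ <;>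
        push_cast <;> linarith only [hx, hx', T0, T1, h1, hs, t0, t1]))

/-- ramp, `c = .34` -/
theorem st_34 (hx : 1 / 2 ≤ x) (hx' : x ≤ 6 / 10) (M : MOk T t) (hl : 38 / 100 ≤ x + s)
    (hl' : x + s ≤ 56 / 100) (hs : s ≤ 4 / 100) :
    0 < dvR (34 / 100) T x (h65 x T) (x + s) t + gq (-6000) (-1301) 299 (-16249) 16698 940 500 70 x T + uu s (t - (h65 x T)) := by
  have hc : (q 34 100).val [x, T, s, t] = 34 / 100 := by norm_num [E.val]
  have T0 := M.T0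
  have T1 := M.T1
  have t0 := M.t0
  have t1 := M.t1
  have hes := eM_ok (l0 := 3800) (l1 := 5600) (x := x) (s := s) M (by push_cast; linarith only [hl])
    (by push_cast; linarith only [hl'])
  exact stay_row (c := q 34 100) (hx := ex65) (g := eq (-6000) (-1301) 299 (-16249) 16698 940 500 70) (es := eM 3800 5600) hc ex65_val eq_val hs
    (M.ramp hx (by linarith only [hx'])) hes
    (fun h1 => use4 st_34_1 (by norm_num) (by
      refine ⟨⟨?_, ?_⟩, ⟨?_, ?_⟩, ⟨?_, ?_⟩, ⟨?_, ?_⟩⟩ <;>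
        push_cast <;> linarith only [hx, hx', T0, T1, hl, h1, t0, t1]))
    (fun h1 => use4 st_34_2 (by norm_num) (by
      refine ⟨⟨?_, ?_⟩, ⟨?_, ?_⟩, ⟨?_, ?_⟩, ⟨?_, ?_⟩⟩ <;>
        push_cast <;> linarith only [hx, hx', T0, T1, hl, h1, t0, t1]))
    (fun h1 h2 => use4 st_34_3 (by norm_num) (by
      refine ⟨⟨?_, ?_⟩, ⟨?_, ?_⟩, ⟨?_, ?_⟩, ⟨?_, ?_⟩⟩ <;>
        push_cast <;> linarith only [hx, hx', T0, T1, h1, h2, t0, t1]))
    (fun h1 h2 => use4 st_34_4 (by norm_num) (by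
      refine ⟨⟨?_, ?_⟩, ⟨?_, ?_⟩, ⟨?_, ?_⟩, ⟨?_, ?_⟩⟩ <;>
        push_cast <;> linarith only [hx, hx', T0, T1, h1, h2, t0, t1]))
    (fun h1 h2 => use4 st_34_5 (by norm_num) (by
      refine ⟨⟨?_, ?_⟩, ⟨?_, ?_⟩, ⟨?_, ?_⟩, ⟨?_, ?_⟩⟩ <;>
        push_cast <;> linarith only [hx, hx', T0, T1, h1, h2, t0, t1]))
    (fun h1 => use4 st_34_6 (by norm_num) (by
      refine ⟨⟨?_, ?_⟩, ⟨?_, ?_⟩, ⟨?_, ?_⟩, ⟨?_, ?_⟩⟩ <;>
        push_cast <;> linarith only [hx, hx', T0, T1, h1, hs, t0, t1]))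

/-- ramp, `c = .40` -/
theorem st_40 (hx : 52 / 100 ≤ x) (hx' : x ≤ 6 / 10) (M : MOk T t) (hl : 56 / 100 ≤ x + s)
    (hl' : x + s ≤ 64 / 100) (hs : s ≤ 4 / 100) :
    0 < dvR (40 / 100) T x (h65 x T) (x + s) t + gq (-3560) (-1291) 215 (-15993) 12027 747 500 70 x T + uu s (t - (h65 x T)) := by
  have hc : (q 40 100).val [x, T, s, t] = 40 / 100 := by norm_num [E.val]
  have T0 := M.T0
  have T1 := M.T1
  have t0 := M.t0
  have t1 := M.t1
  have hes := eM_ok (l0 := 5600) (l1 := 6400) (x := x) (s := s) M (by push_cast; linarith only [hl])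
    (by push_cast; linarith only [hl'])
  exact stay_row (c := q 40 100) (hx := ex65) (g := eq (-3560) (-1291) 215 (-15993) 12027 747 500 70) (es := eM 5600 6400) hc ex65_val eq_val hs
    (M.ramp (by linarith only [hx]) (by linarith only [hx'])) hes
    (fun h1 => use4 st_40_1 (by norm_num) (by
      refine ⟨⟨?_, ?_⟩, ⟨?_, ?_⟩, ⟨?_, ?_⟩, ⟨?_, ?_⟩⟩ <;>
        push_cast <;> linarith only [hl, h1, hx', T0, T1, t0, t1]))
    (fun h1 => use4 st_40_2 (by norm_num) (by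
      refine ⟨⟨?_, ?_⟩, ⟨?_, ?_⟩, ⟨?_, ?_⟩, ⟨?_, ?_⟩⟩ <;>
        push_cast <;> linarith only [hl, h1, hx', T0, T1, t0, t1]))
    (fun h1 h2 => use4 st_40_3 (by norm_num) (by
      refine ⟨⟨?_, ?_⟩, ⟨?_, ?_⟩, ⟨?_, ?_⟩, ⟨?_, ?_⟩⟩ <;>
        push_cast <;> linarith only [hl, h2, hx', T0, T1, h1, t0, t1]))
    (fun h1 h2 => use4 st_40_4 (by norm_num) (by
      refine ⟨⟨?_, ?_⟩, ⟨?_, ?_⟩, ⟨?_, ?_⟩, ⟨?_, ?_⟩⟩ <;>
        push_cast <;> linarith only [hl, h2, hx', T0, T1, h1, t0, t1]))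
    (fun h1 h2 => use4 st_40_5 (by norm_num) (by
      refine ⟨⟨?_, ?_⟩, ⟨?_, ?_⟩, ⟨?_, ?_⟩, ⟨?_, ?_⟩⟩ <;>
        push_cast <;> linarith only [hl, h2, hx', T0, T1, h1, t0, t1]))
    (fun h1 => use4 st_40_6 (by norm_num) (by
      refine ⟨⟨?_, ?_⟩, ⟨?_, ?_⟩, ⟨?_, ?_⟩, ⟨?_, ?_⟩⟩ <;>
        push_cast <;> linarith only [hx, hx', T0, T1, h1, hs, t0, t1]))

/-- end, `c = .34` -/
theorem st_34e (hx : 6 / 10 ≤ x) (hx' : x ≤ 65 / 100) (M : MOk T t) (hl : 46 / 100 ≤ x + s)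
    (hl' : x + s ≤ 56 / 100) (hs : s ≤ 4 / 100) :
    0 < dvR (34 / 100) T x (h65 x T) (x + s) t + gq (-18200) (-1129) (-1263) (-16161) 20569 1341 600 70 x T + uu s (t - (h65 x T)) := by
  have hc : (q 34 100).val [x, T, s, t] = 34 / 100 := by norm_num [E.val]
  have T0 := M.T0
  have T1 := M.T1
  have t0 := M.t0
  have t1 := M.t1
  have hes := eM_ok (l0 := 4600) (l1 := 5600) (x := x) (s := s) M (by push_cast; linarith only [hl])
    (by push_cast; linarith only [hl'])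
  exact stay_row (c := q 34 100) (hx := ex65) (g := eq (-18200) (-1129) (-1263) (-16161) 20569 1341 600 70) (es := eM 4600 5600) hc ex65_val eq_val hs
    (M.ramp (by linarith only [hx]) hx') hes
    (fun h1 => use4 st_34e_1 (by norm_num) (by
      refine ⟨⟨?_, ?_⟩, ⟨?_, ?_⟩, ⟨?_, ?_⟩, ⟨?_, ?_⟩⟩ <;>
        push_cast <;> linarith only [hx, hx', T0, T1, hl, hl', t0, t1]))
    (fun h1 => use4 st_34e_2 (by norm_num) (by
      refine ⟨⟨?_, ?_⟩, ⟨?_, ?_⟩, ⟨?_, ?_⟩, ⟨?_, ?_⟩⟩ <;>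
        push_cast <;> linarith only [hx, hx', T0, T1, hl, hl', t0, t1]))
    (fun h1 h2 => use4 st_34e_3 (by norm_num) (by
      refine ⟨⟨?_, ?_⟩, ⟨?_, ?_⟩, ⟨?_, ?_⟩, ⟨?_, ?_⟩⟩ <;>
        push_cast <;> linarith only [hx, hl', h1]))
    (fun h1 h2 => use4 st_34e_4 (by norm_num) (by
      refine ⟨⟨?_, ?_⟩, ⟨?_, ?_⟩, ⟨?_, ?_⟩, ⟨?_, ?_⟩⟩ <;>
        push_cast <;> linarith only [hx, hl', h1]))
    (fun h1 h2 => use4 st_34e_5 (by norm_num) (by
      refine ⟨⟨?_, ?_⟩, ⟨?_, ?_⟩, ⟨?_, ?_⟩, ⟨?_, ?_⟩⟩ <;>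
        push_cast <;> linarith only [hx, hl', h1]))
    (fun h1 => use4 st_34e_6 (by norm_num) (by
      refine ⟨⟨?_, ?_⟩, ⟨?_, ?_⟩, ⟨?_, ?_⟩, ⟨?_, ?_⟩⟩ <;>
        push_cast <;> linarith only [hx, hl', h1]))

/-- end, `c = .44` -/
theorem st_44e (hx : 6 / 10 ≤ x) (hx' : x ≤ 65 / 100) (M : MOk T t) (hl : 56 / 100 ≤ x + s)
    (hl' : x + s ≤ 69 / 100) (hs : s ≤ 4 / 100) :
    0 < dvR (44 / 100) T x (h65 x T) (x + s) t + gq (-14600) (-1119) (-1384) (-15445) 12133 1255 600 70 x T + uu s (t - (h65 x T)) := by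
  have hc : (q 44 100).val [x, T, s, t] = 44 / 100 := by norm_num [E.val]
  have T0 := M.T0
  have T1 := M.T1
  have t0 := M.t0
  have t1 := M.t1
  have hes := eM_ok (l0 := 5600) (l1 := 6900) (x := x) (s := s) M (by push_cast; linarith only [hl])
    (by push_cast; linarith only [hl'])
  exact stay_row (c := q 44 100) (hx := ex65) (g := eq (-14600) (-1119) (-1384) (-15445) 12133 1255 600 70) (es := eM 5600 6900) hc ex65_val eq_val hs
    (M.ramp (by linarith only [hx]) hx') hes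
    (fun h1 => use4 st_44e_1 (by norm_num) (by
      refine ⟨⟨?_, ?_⟩, ⟨?_, ?_⟩, ⟨?_, ?_⟩, ⟨?_, ?_⟩⟩ <;>
        push_cast <;> linarith only [hx, hx', T0, T1, hl, h1, t0, t1]))
    (fun h1 => use4 st_44e_2 (by norm_num) (by
      refine ⟨⟨?_, ?_⟩, ⟨?_, ?_⟩, ⟨?_, ?_⟩, ⟨?_, ?_⟩⟩ <;>
        push_cast <;> linarith only [hx, hx', T0, T1, hl, h1, t0, t1]))
    (fun h1 h2 => use4 st_44e_3 (by norm_num) (by
      refine ⟨⟨?_, ?_⟩, ⟨?_, ?_⟩, ⟨?_, ?_⟩, ⟨?_, ?_⟩⟩ <;>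
        push_cast <;> linarith only [hx, hx', T0, T1, h1, h2, t0, t1]))
    (fun h1 h2 => use4 st_44e_4 (by norm_num) (by
      refine ⟨⟨?_, ?_⟩, ⟨?_, ?_⟩, ⟨?_, ?_⟩, ⟨?_, ?_⟩⟩ <;>
        push_cast <;> linarith only [hx, hx', T0, T1, h1, h2, t0, t1]))
    (fun h1 h2 => use4 st_44e_5 (by norm_num) (by
      refine ⟨⟨?_, ?_⟩, ⟨?_, ?_⟩, ⟨?_, ?_⟩, ⟨?_, ?_⟩⟩ <;>
        push_cast <;> linarith only [hx, hx', T0, T1, h1, h2, t0, t1]))
    (fun h1 => use4 st_44e_6 (by norm_num) (by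
      refine ⟨⟨?_, ?_⟩, ⟨?_, ?_⟩, ⟨?_, ?_⟩, ⟨?_, ?_⟩⟩ <;>
        push_cast <;> linarith only [hx, hx', T0, T1, h1, hs, t0, t1]))

end V2A.B

end Pool.Agent.Work.MP_b30479_gtS.G2
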