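import Pool.Agent.Work.MP_b30479_gt.TBS.G2.V30B
import Pool.Agent.Work.MP_b30479_gt.TBS.G2.WLocX
import Pool.Agent.Work.MP_b30479_gt.TBS.G2.MLev
import Pool.Agent.Work.MP_b30479_gt.TBS.G2.WMid
import Pool.Agent.Work.MP_b30479_gt.TBS.G2.WVal
import Pool.Agent.Work.MP_b30479_gt.TBS.G2.ZRe1A
import Pool.Agent.Work.MP_b30479_gt.TBS.G2.MPRun
import Pool.Agent.Work.MP_b30479_gt.TBS.G2.Rng
import Pool.Agent.Work.MP_b30479_gt.TBS.G2.RMon
import Pool.Agent.Work.MP_b30479_gt.TBS.G2.ZRe4B

section

/-!
# The inner variable of an inner digit `3` is not on its left ramp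

No floors of the hinges are used: `V3_low` (values), `mid_gt` (in a word).
-/

namespace Pool.Agent.Work.MP_b30479_gtS.G2

open VOL NumUs

namespace VL

open SR

variable {r t T S : ℝ}

/-- parameters of the left hinge of an inner digit `3` whose neighbour there has class `A` -/
noncomputable def pL : Cl → HPar
  | .one => ⟨65 / 100, 13 / 100, 15 / 100⟩
  | .two => ⟨60 / 100, 12 / 100, 27 / 100⟩
  | .three => ⟨60 / 100, 13 / 100, 30 / 100⟩
  | _ => ⟨60 / 100, 12 / 100, 30 / 100⟩

/-- parameters of the right hinge of an inner digit `3` whose neighbour there has class `K` -/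
noncomputable def pR : Cl → HPar
  | .one => ⟨65 / 100, 15 / 100, 29 / 100⟩
  | _ => ⟨60 / 100, 13 / 100, 30 / 100⟩

theorem hp_pL (P A Q : Cl) : hp P A .three Q = pL A := by
  cases A <;> rfl

theorem hp_pR (P K Q : Cl) : hp P .three K Q = pR K := by
  cases K <;> rfl

/-- caps of the left hinge -/
noncomputable def cpL : Cl → ℝ
  | .one => 43 / 100
  | .two => 33 / 100
  | _ => 31 / 100

/-- caps of the right hinge -/
noncomputable def cpR : Cl → ℝ
  | .one => 39 / 100
  | .three => 39 / 100
  | _ => 31 / 100

/-- windows of the heights of the three variables of an inner digit `3` -/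
structure HtW (A K : Cl) (T t S : ℝ) : Prop where
  T0 : (hbox .three A false).t0 ≤ T
  T1 : T ≤ (hbox .three A false).t1
  TZ : A = .ring → -(1 / 1000) ≤ T
  S0 : (hbox .three K false).t0 ≤ S
  S1 : S ≤ (hbox .three K false).t1
  t0 : (mw A K).t0 ≤ t
  t1 : t ≤ (mw A K).t1
  d0 : (mw A K).s0 ≤ t - T
  d1 : t - T ≤ (mw A K).s1

theorem HtW.t_all {A K : Cl} (H : HtW A K T t S) : -(123 / 1000) ≤ t ∧ t ≤ 5 / 1000 ∧
    (t ≤ 0 ∨ -(57 / 1000) ≤ S) := by
  have h0 := H.t0
  have h1 := H.t1
  have h2 := H.S0
  refine ⟨?_, ?_, ?_⟩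
  · refine le_trans ?_ h0
    cases A <;> cases K <;> norm_num [mw]
  · refine h1.trans ?_
    cases A <;> cases K <;> norm_num [mw]
  · cases K
    · left
      refine h1.trans ?_
      cases A <;> norm_num [mw]
    · right
      refine le_trans ?_ h2
      norm_num [hbox]
    · left
      refine h1.trans ?_
      cases A <;> norm_num [mw]
    · right
      refine le_trans ?_ h2
      norm_num [hbox]
    · right
      refine le_trans ?_ h2
      norm_num [hbox]
    · right
      refine le_trans ?_ h2
      norm_num [hbox]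

theorem HW_of {A K : Cl} {w : ℂ} (H : HtW A K T t S) (hw : RH w S (pR K).XM (pR K).cl (pR K).cr)
    (hc : w.re ≤ cpR K) : HW w S := by
  have h0 := H.S0
  have h1 := H.S1
  constructor
  cases K
  · left
    simp only [hbox, pR, cpR] at h0 h1 hw hc
    exact ⟨hw, hc, h0, h1⟩
  all_goals
    right
    simp only [hbox, pR, cpR] at h0 h1 hw hc
    refine ⟨hw, by linarith only [hc], ?_, ?_⟩ <;> linarith only [h0, h1]

/-- the part `DF` is positive -/
theorem DF_pos {A K : Cl} {u : ℂ} (H : HtW A K T t S)
    (hu : RH u T (pL A).XM (pL A).cl (pL A).cr) (hc : u.re ≤ cpL A) (hr : 0 ≤ r)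
    (hr' : r ≤ 5 / 100) :
    0 < DF (24 / 100) u.re u.im t r ∨ 0 < DF (44 / 100) u.re u.im t r := by
  obtain ⟨t0, t1, -⟩ := H.t_all
  have a1 := H.T0
  have a2 := H.T1
  have a3 := H.t0
  have a4 := H.t1
  have a5 := H.d0
  have a6 := H.d1
  have hn : ((44 : ℤ) : ℝ) / 100 = 44 / 100 := by norm_num
  have hn' : ((24 : ℤ) : ℝ) / 100 = 24 / 100 := by norm_num
  have ramp : ∀ cl : ℝ, 0 < cl → u.re ≤ cl → cl ≤ 13 / 100 → u.im = T * (u.re / cl) →
      -(8808 / 10000) ≤ T / cl → T / cl ≤ 475 / 1000 → -(107 / 1000) ≤ t - 12 / 100 * (T / cl) →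
      0 < DF (24 / 100) u.re u.im t r := by
    intro cl h0 h1 h2 h3 h4 h5 h6
    rw [show u.im = T / cl * u.re by rw [h3]; ring]
    exact DF_ramp hu.re0 (by linarith only [h1, h2]) h4 h5 t0 t1 hr hr' h6
  cases A
  · simp only [hbox, pL, cpL] at a1 a2 hu hc
    have b3 : -(90 / 1000) ≤ t := le_trans (by cases K <;> norm_num [mw]) a3
    have b5 : -(45 / 1000) ≤ t - T := le_trans (by cases K <;> norm_num [mw]) a5
    have b6 : t - T ≤ 84 / 1000 := a6.trans (by cases K <;> norm_num [mw])
    rcases le_total u.re (13 / 100) with h | h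
    · left
      refine ramp (13 / 100) (by norm_num) h le_rfl ?_ ?_ ?_ ?_
      · rw [hu.im, tr_a (by norm_num) (by norm_num) (by norm_num) hu.re0 h]
      all_goals linarith only [a1, a2, b3]
    · right
      have e : u.im = T := by
        rw [hu.im, tr_b (by norm_num) (by norm_num) h (by linarith only [hc]), mul_one]
      rw [e]
      exact DF_level k_fmA k_fpA hn (by push_cast; linarith only [h]) (by push_cast; linarith only [hc])
        (by push_cast; linarith only [a1]) (by push_cast; linarith only [a2]) (by push_cast; linarith only [b3])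
        (by push_cast; linarith only [t1]) hr hr' (by push_cast; linarith only [b5]) (by push_cast; linarith only [b6])
  · simp only [hbox, pL, cpL] at a1 a2 hu hc
    have b3 : -(114 / 1000) ≤ t := le_trans (by cases K <;> norm_num [mw]) a3
    have b5 : -(105 / 1000) ≤ t - T := le_trans (by cases K <;> norm_num [mw]) a5
    have b6 : t - T ≤ 28 / 1000 := a6.trans (by cases K <;> norm_num [mw])
    rcases le_total u.re (12 / 100) with h | h
    · left
      refine ramp (12 / 100) (by norm_num) h (by norm_num) ?_ ?_ ?_ ?_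
      · rw [hu.im, tr_a (by norm_num) (by norm_num) (by norm_num) hu.re0 h]
      all_goals linarith only [a1, a2, b5]
    · right
      have e : u.im = T := by
        rw [hu.im, tr_b (by norm_num) (by norm_num) h (by linarith only [hc]), mul_one]
      rw [e]
      exact DF_level k_fmN k_fpN hn (by push_cast; linarith only [h]) (by push_cast; linarith only [hc])
        (by push_cast; linarith only [a1]) (by push_cast; linarith only [a2]) (by push_cast; linarith only [b3])
        (by push_cast; linarith only [t1]) hr hr' (by push_cast; linarith only [b5]) (by push_cast; linarith only [b6])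
  · simp only [hbox, pL, cpL] at a1 a2 hu hc
    have b4 : t ≤ -(64 / 1000) := a4.trans (by cases K <;> norm_num [mw])
    have b5 : -(48 / 1000) ≤ t - T := le_trans (by cases K <;> norm_num [mw]) a5
    have b6 : t - T ≤ 32 / 1000 := a6.trans (by cases K <;> norm_num [mw])
    rcases le_total u.re (12 / 100) with h | h
    · left
      refine ramp (12 / 100) (by norm_num) h (by norm_num) ?_ ?_ ?_ ?_
      · rw [hu.im, tr_a (by norm_num) (by norm_num) (by norm_num) hu.re0 h]
      all_goals linarith only [a1, a2, t0]
    · right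
      have e : u.im ≤ -(734 / 10000) ∧ T ≤ u.im ∧ u.im ≤ T + 33 / 10000 := by
        rcases le_total u.re (30 / 100) with h5 | h5
        · rw [hu.im, tr_b (by norm_num) (by norm_num) h (by linarith only [h5]), mul_one]
          refine ⟨?_, ?_, ?_⟩ <;> linarith only [a2]
        · rw [hu.im, tr_c (by norm_num) (by norm_num) (by norm_num) (by linarith only [h5]) hu.reM]
          refine ⟨?_, ?_, ?_⟩ <;> nlinarith only [hc, a2, h5, a1]
      obtain ⟨e1, e2, e3⟩ := e
      exact DF_level k_fmE k_fpE hn (by push_cast; linarith only [h]) (by push_cast; linarith only [hc])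
        (by push_cast; linarith only [a1, e2]) (by push_cast; linarith only [e1]) (by push_cast; linarith only [t0])
        (by push_cast; linarith only [b4]) hr hr' (by push_cast; linarith only [t0, e1]) (by push_cast; linarith only [b6, e2])
  · simp only [hbox, pL, cpL] at a1 a2 hu hc
    have b3 : -(114 / 1000) ≤ t := le_trans (by cases K <;> norm_num [mw]) a3
    have b5 : -(105 / 1000) ≤ t - T := le_trans (by cases K <;> norm_num [mw]) a5
    have b6 : t - T ≤ 28 / 1000 := a6.trans (by cases K <;> norm_num [mw])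
    rcases le_total u.re (13 / 100) with h | h
    · left
      refine ramp (13 / 100) (by norm_num) h le_rfl ?_ ?_ ?_ ?_
      · rw [hu.im, tr_a (by norm_num) (by norm_num) (by norm_num) hu.re0 h]
      all_goals linarith only [a1, a2, b3, b5]
    · right
      have e : -(22 / 1000) ≤ u.im ∧ u.im ≤ 22 / 1000 ∧ T - 1 / 1000 ≤ u.im ∧
          u.im ≤ T + 1 / 1000 := by
        rcases le_total u.re (30 / 100) with h5 | h5
        · rw [hu.im, tr_b (by norm_num) (by norm_num) h (by linarith only [h5]), mul_one]
          refine ⟨?_, ?_, ?_, ?_⟩ <;> linarith only [a1, a2]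
        · rw [hu.im, tr_c (by norm_num) (by norm_num) (by norm_num) (by linarith only [h5]) hu.reM]
          refine ⟨?_, ?_, ?_, ?_⟩ <;> nlinarith only [a1, h5, hc, a2, h]
      obtain ⟨e1, e2, e3, e4⟩ := e
      exact DF_level k_fmN k_fpN hn (by push_cast; linarith only [h]) (by push_cast; linarith only [hc])
        (by push_cast; linarith only [e1]) (by push_cast; linarith only [e2]) (by push_cast; linarith only [b3])
        (by push_cast; linarith only [t1]) hr hr' (by push_cast; linarith only [b5, e4]) (by push_cast; linarith only [t1, e1])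
  · simp only [hbox, pL, cpL] at a1 a2 hu hc
    have b3 : -(114 / 1000) ≤ t := le_trans (by cases K <;> norm_num [mw]) a3
    have b5 : -(105 / 1000) ≤ t - T := le_trans (by cases K <;> norm_num [mw]) a5
    have b6 : t - T ≤ 28 / 1000 := a6.trans (by cases K <;> norm_num [mw])
    rcases le_total u.re (12 / 100) with h | h
    · left
      refine ramp (12 / 100) (by norm_num) h (by norm_num) ?_ ?_ ?_ ?_
      · rw [hu.im, tr_a (by norm_num) (by norm_num) (by norm_num) hu.re0 h]
      all_goals linarith only [a1, a2, b5]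
    · right
      have e : -(28 / 1000) ≤ u.im ∧ u.im ≤ 0 ∧ T ≤ u.im ∧ u.im ≤ T + 1 / 1000 := by
        rcases le_total u.re (30 / 100) with h5 | h5
        · rw [hu.im, tr_b (by norm_num) (by norm_num) h (by linarith only [h5]), mul_one]
          refine ⟨?_, ?_, ?_, ?_⟩ <;> linarith only [a1, a2]
        · rw [hu.im, tr_c (by norm_num) (by norm_num) (by norm_num) (by linarith only [h5]) hu.reM]
          refine ⟨?_, ?_, ?_, ?_⟩ <;> nlinarith only [a1, h5, hc, a2]
      obtain ⟨e1, e2, e3, e4⟩ := e
      exact DF_level k_fmN k_fpN hn (by push_cast; linarith only [h]) (by push_cast; linarith only [hc])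
        (by push_cast; linarith only [e1]) (by push_cast; linarith only [e2]) (by push_cast; linarith only [b3])
        (by push_cast; linarith only [t1]) hr hr' (by push_cast; linarith only [b5, e4]) (by push_cast; linarith only [t1, b6, e1, e3])
  · have a0 := H.TZ rfl
    simp only [hbox, pL, cpL] at a1 a2 hu hc
    have b3 : -(114 / 1000) ≤ t := le_trans (by cases K <;> norm_num [mw]) a3
    have b5 : -(105 / 1000) ≤ t - T := le_trans (by cases K <;> norm_num [mw]) a5
    have b6 : t - T ≤ 28 / 1000 := a6.trans (by cases K <;> norm_num [mw])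
    rcases le_total u.re (12 / 100) with h | h
    · left
      refine ramp (12 / 100) (by norm_num) h (by norm_num) ?_ ?_ ?_ ?_
      · rw [hu.im, tr_a (by norm_num) (by norm_num) (by norm_num) hu.re0 h]
      all_goals linarith only [a0, a2, b5]
    · have e : -(1 / 1000) ≤ u.im ∧ u.im ≤ 57 / 1000 ∧ T - 2 / 1000 ≤ u.im ∧
          u.im ≤ T + 1 / 1000 := by
        rcases le_total u.re (30 / 100) with h5 | h5
        · rw [hu.im, tr_b (by norm_num) (by norm_num) h (by linarith only [h5]), mul_one]
          refine ⟨?_, ?_, ?_, ?_⟩ <;> linarith only [a0, a2]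
        · rw [hu.im, tr_c (by norm_num) (by norm_num) (by norm_num) (by linarith only [h5]) hu.reM]
          refine ⟨?_, ?_, ?_, ?_⟩ <;> nlinarith only [a0, h5, hc, a2, a1]
      obtain ⟨e1, e2, e3, e4⟩ := e
      rcases le_total u.re (22 / 100) with h6 | h6
      · left
        exact DF_level k_fmY k_fpY hn' (by push_cast; linarith only [h]) (by push_cast; linarith only [h6])
          (by push_cast; linarith only [e1]) (by push_cast; linarith only [e2]) (by push_cast; linarith only [a0, b5])
          (by push_cast; linarith only [t1]) hr hr' (by push_cast; linarith only [b5, e4]) (by push_cast; linarith only [t1, e1])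
      · right
        exact DF_level k_fmZ k_fpZ hn (by push_cast; linarith only [h6]) (by push_cast; linarith only [hc])
          (by push_cast; linarith only [e1]) (by push_cast; linarith only [e2]) (by push_cast; linarith only [a0, b5])
          (by push_cast; linarith only [t1]) hr hr' (by push_cast; linarith only [b5, e4]) (by push_cast; linarith only [t1, e1])

/-- **Values: the inner variable on its left ramp can be improved.** -/
theorem V3_low {A K : Cl} {u v w : ℂ} (H : HtW A K T t S)
    (hu : RH u T (pL A).XM (pL A).cl (pL A).cr) (hc : u.re ≤ cpL A)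
    (hw : RH w S (pR K).XM (pR K).cl (pR K).cr) (hc' : w.re ≤ cpR K)
    (hv : RH v t (8 / 10) (5 / 100) (5 / 100)) (hr : v.re ≤ 5 / 100) :
    ∃ c : ℝ, 5 / 100 ≤ c ∧ c ≤ 75 / 100 ∧ V3 u v w < V3 u (lv c t) w := by
  have h0 := hv.re0
  have e : v.im = 20 * t * v.re := by
    rw [hv.im, tr_a (by norm_num) (by norm_num) (by norm_num) h0 hr]
    ring
  obtain ⟨t0, t1, t2⟩ := H.t_all
  have hW := HW_of H hw hc'
  rcases DF_pos H hu hc h0 hr with h | h
  · refine ⟨24 / 100, by norm_num, by norm_num, ?_⟩
    have h1 := V3_diff' (u := u) (v' := lv (24 / 100) t) (w := w) rfl e (lv_re _ _) (lv_im _ _)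
    have h2 := GG_24 hW t0 t1 t2 h0 hr
    linarith only [h, h1, h2]
  · refine ⟨44 / 100, by norm_num, by norm_num, ?_⟩
    have h1 := V3_diff' (u := u) (v' := lv (44 / 100) t) (w := w) rfl e (lv_re _ _) (lv_im _ _)
    have h2 := GG_44 hW t0 t1 t2 h0 hr
    linarith only [h, h1, h2]

end VL

namespace SR

variable {M : ℕ} {b : Fin (M + 1) → ℤ} {zs : DD (tyW b) ⊕ ZZ (tyW b) → ℂ}
variable {y : DD (tyW b) ⊕ ZZ (tyW b) → ℝ}
variable {h h' : Fin M} {i j k : Fin (M + 1)}

/-- parameters of the left hinge -/
theorem Adj.par_three0 (A : Adj h i 0 j) (hc : clsW b i = .three) :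
    wXM b h = (VL.pL (clsW b j)).XM ∧ wcl b h = (VL.pL (clsW b j)).cl ∧
      wcr b h = (VL.pL (clsW b j)).cr := by
  cases A
  unfold wXM wcl wcr
  rw [hc, VL.hp_pL]
  exact ⟨rfl, rfl, rfl⟩

/-- parameters of the right hinge -/
theorem Adj.par_three2 (A : Adj h i 2 j) (hc : clsW b i = .three) :
    wXM b h = (VL.pR (clsW b j)).XM ∧ wcl b h = (VL.pR (clsW b j)).cl ∧
      wcr b h = (VL.pR (clsW b j)).cr := by
  cases A
  unfold wXM wcl wcr
  rw [hc, VL.hp_pR]
  exact ⟨rfl, rfl, rfl⟩

theorem hbox_three_ss (A : Cl) (s : Bool) : hbox .three A s = hbox .three A false := by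
  cases A <;> rfl

/-- the inner variable of an interior digit `3` -/
def mT (b : Fin (M + 1) → ℤ) (hc : clsW b i = .three) :
    {i : Fin (M + 1) // (tyW b i).isMid = true} := ⟨i, tyW_isMid (Or.inl hc)⟩

/-- its height in the own frame -/
noncomputable def hT (zs : DD (tyW b) ⊕ ZZ (tyW b) → ℂ) (hc : clsW b i = .three) : ℝ :=
  ofs (b i) (zs (.inl (.inr (mT b hc)))).im

theorem pp_mT (hc : clsW b i = .three) :
    (wpar b zs).XM (.inr (mT b hc)) = 8 / 10 ∧ (wpar b zs).cl (.inr (mT b hc)) = 5 / 100 ∧
      (wpar b zs).cr (.inr (mT b hc)) = 5 / 100 := by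
  refine ⟨?_, ?_, ?_⟩ <;> simp [wpar, par1, mp, mT, hc]

/-- the heights of an inner digit `3` -/
theorem htW (hb : ClassW b) (hL : Loc b zs) (hX : LocX b zs) (A : Adj h i 0 j)
    (A' : Adj h' i 2 k) (hc : clsW b i = .three) :
    VL.HtW (clsW b j) (clsW b k) (ofs (b i) (zs (.inl (.inl h))).im) (hT zs hc)
      (ofs (b i) (zs (.inl (.inl h'))).im) := by
  have h1 := A.box hb hL
  have h2 := A'.box hb hL
  have h3 := hX.mid (tyW_isMid (Or.inl hc)) A A' hc
  rw [hc, hbox_three_ss] at h1 h2
  exact ⟨h1.2.2.1, h1.2.2.2, fun hz => hX.three A hc hz, h2.2.2.1, h2.2.2.2, h3.1, h3.2.1,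
    h3.2.2.1, h3.2.2.2⟩

/-- **The inner variable of an inner digit `3` is not on its left ramp.** -/
theorem mid_gt (hb : ClassW b) (hL : Loc b zs) (hX : LocX b zs)
    (hy : IsMx (wdat (tyW b) b) (wpar b zs) zs y) (A : Adj h i 0 j)
    (A' : Adj h' i 2 k) (hc : clsW b i = .three)
    (hu : y (.inl (.inl h)) ≤ VL.cpL (clsW b j)) (hw : y (.inl (.inl h')) ≤ VL.cpR (clsW b k)) :
    5 / 100 < y (.inl (.inr (mT b hc))) := by
  by_contra hcon
  have hcon := not_lt.1 hcon
  obtain ⟨p1, p2, p3⟩ := pp_mT (zs := zs) hc
  have hR := mid_RH hy (mT b hc)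
  rw [p1, p2, p3] at hR
  have hre : (Yw b zs y (mT b hc).1 1).re = y (.inl (.inr (mT b hc))) := by
    rw [Yw_mid (zs := zs) (y := y) (mT b hc), ofr_pp_re]
  have q := A.rh hy
  have q' := A'.rh hy
  obtain ⟨e1, e2, e3⟩ := A.par_three0 hc
  obtain ⟨e1', e2', e3'⟩ := A'.par_three2 hc
  rw [e1, e2, e3] at q
  rw [e1', e2', e3'] at q'
  obtain ⟨c, c0, c1, hlt⟩ := VL.V3_low (htW hb hL hX A A' hc) q (by rw [A.re]; exact hu) q'
    (by rw [A'.re]; exact hw) hR (by rw [hre]; exact hcon)
  have ht := tyW_of_three hc
  have hne : tyW b i ≠ .ring := by rw [ht]; decide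
  have h2 := hy.upd (.inl (.inr (mT b hc))) (c := c) (by show (0 : ℝ) ≤ c; linarith only [c0])
    (by show c ≤ (wpar b zs).XM (.inr (mT b hc)); rw [p1]; linarith only [c1])
  have h3 : (wdat (tyW b) b).V (Function.update ((wpar b zs).pth zs y) (.inl (.inr (mT b hc)))
      ((wpar b zs).pp zs (.inl (.inr (mT b hc))) c)) -
      (wdat (tyW b) b).V ((wpar b zs).pth zs y) =
      rV (tyW b) b i (Function.update (xx (tyW b) i ((wpar b zs).pth zs y)) 1
        ((wpar b zs).pp zs (.inl (.inr (mT b hc))) c)) -
      rV (tyW b) b i (xx (tyW b) i ((wpar b zs).pth zs y)) :=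
    V_upd_mid (tyW b) b (mT b hc) ((wpar b zs).pth zs y)
      ((wpar b zs).pp zs (.inl (.inr (mT b hc))) c)
  rw [rV_own hb, rV_own hb, own_update_one hne] at h3
  have e5 : ofr (b i) ((wpar b zs).pp zs (.inl (.inr (mT b hc))) c) = lv c (hT zs hc) :=
    ofr_pp_flat (wpar_good b zs) zs (.inr (mT b hc)) (b i) (by rw [p2]; exact c0)
      (by rw [p1, p3]; linarith only [c1])
  have e6 : own (b i) (tyW b i) (xx (tyW b) i ((wpar b zs).pth zs y)) = OY b zs y i := rfl
  rw [e6, e5] at h3
  have h4 : OV b i (Function.update (OY b zs y i) 1 (lv c (hT zs hc))) - OV b i (OY b zs y i) ≤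
      0 := by linarith only [hc, h2, h3]
  have hlt' : V3 (Yw b zs y i 0) (Yw b zs y i 1) (Yw b zs y i 2) <
    V3 (Yw b zs y i 0) (lv c (hT zs hc)) (Yw b zs y i 2) := hlt
  rw [OV_three hb hc, OV_three hb hc, Function.update_self, Function.update_of_ne (by decide),
    Function.update_of_ne (by decide), OY_zero, OY_one hne, OY_two] at h4
  linarith only [hc, h4, hlt']

end SR

end Pool.Agent.Work.MP_b30479_gtS.G2

end

section

/-!
# Side of the slot-0 hinge of an inner digit `3`, left ramp: values
-/

namespace Pool.Agent.Work.MP_b30479_gtS.G2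

open VOL NumUs

namespace VL

namespace S0

open NumIs (V)
open NumUs.E (q var)

variable {r t w σ S x m p c φ h : ℝ}

/-! ### the functions -/

theorem lnA_ray {x x0 m : ℝ} (h0 : 0 < x) (h1 : x ≤ x0) (h2 : x0 ≤ 1 / 2) :
    NumIs.lnA x (m * x) ≤ NumIs.lnA x0 (m * x0) := by
  have hp := Real.pi_pos
  unfold NumIs.lnA
  have s0 : 0 < Real.sin (Real.pi * x) :=
    Real.sin_pos_of_pos_of_lt_pi (by positivity) (by nlinarith only [hp, h1, h2])
  have s1 : Real.sin (Real.pi * x) ≤ Real.sin (Real.pi * x0) := by
    apply Real.sin_le_sin_of_le_of_le_pi_div_two <;> nlinarith only [hp, h0, h2, h1]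
  have s2 : |Real.sinh (Real.pi * (m * x))| ≤ |Real.sinh (Real.pi * (m * x0))| := by
    rw [Real.abs_sinh, Real.abs_sinh]
    apply Real.sinh_le_sinh.2
    rw [abs_mul, abs_mul, abs_mul, abs_mul, abs_of_pos h0, abs_of_pos (h0.trans_le h1),
      abs_of_pos hp]
    gcongr
  have s3 := sq_le_sq.2 s2
  apply div_le_div_of_nonneg_right _ (by norm_num)
  apply Real.log_le_log (by positivity)
  nlinarith only [s3, s0, s1]

theorem lnB_ray (h0 : 0 < x) (h1 : x ≤ 1 / 2) : 0 ≤ m * NumIs.lnB x (m * x) := by
  have hp := Real.pi_pos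
  unfold NumIs.lnB
  have s0 : 0 < Real.sin (Real.pi * x) :=
    Real.sin_pos_of_pos_of_lt_pi (by positivity) (by nlinarith only [hp, h1])
  have s1 : 0 ≤ Real.cos (Real.pi * x) := by
    apply Real.cos_nonneg_of_neg_pi_div_two_le_of_le <;> nlinarith only [hp, h0, h1]
  have s2 := Real.cosh_pos (Real.pi * (m * x))
  rcases le_total 0 m with hm | hm
  · apply mul_nonneg hm
    apply Real.arctan_nonneg.2
    have : 0 ≤ Real.sinh (Real.pi * (m * x)) := Real.sinh_nonneg_iff.2 (by positivity)
    positivity
  · apply mul_nonneg_of_nonpos_of_nonpos hm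
    apply Real.arctan_le_zero.2
    have : Real.sinh (Real.pi * (m * x)) ≤ 0 := Real.sinh_nonpos_iff.2 (by
      have : m * x ≤ 0 := mul_nonpos_of_nonpos_of_nonneg hm h0.le
      nlinarith only [h0, h1, hp, this])
    apply div_nonpos_of_nonpos_of_nonneg
    · exact mul_nonpos_of_nonneg_of_nonpos s1 this
    · positivity

theorem cs_le (h0 : 0 < x) (h1 : x ≤ 1 / 100) : cs x m p r t c ≤ co x m p r t c := by
  have a1 := lnA_ray (m := m) h0 h1 (by norm_num)
  have a2 := lnB_ray (m := m) h0 (by linarith only [h0, h1])
  unfold cs co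
  push_cast
  linarith only [a1, a2]

theorem S3_co {u v : ℂ} (hu : u.im = m * u.re) (h0 : 0 < u.re) (h1 : u.re < v.re)
    (h2 : v.re < 1) (c : ℝ) : S3 1 m u v + c * m =
      co u.re m (v.re - u.re) v.re v.im c + NumIs.lnA (v.re - u.re) (v.im - m * u.re) := by
  have a1 : LL u = NumIs.lnA u.re (m * u.re) := by
    rw [Num.LL_lnA (u := u) ⟨h0, by linarith only [h1, h2]⟩, hu]
  have a2 : YY u = -NumIs.lnB u.re (m * u.re) := by
    rw [Num.YY_lnB (u := u) ⟨h0, by linarith only [h1, h2]⟩, hu]
  have a3 : LL (v - u) = NumIs.lnA (v.re - u.re) (v.im - m * u.re) := by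
    rw [Num.LL_lnA (u := v - u) ⟨by simp; linarith only [h1], by simp; linarith only [h0, h2]⟩, Complex.sub_re,
      Complex.sub_im, hu]
  have a4 : YY (v - u) = -NumIs.lnB (v.re - u.re) (v.im - m * u.re) := by
    rw [Num.YY_lnB (u := v - u) ⟨by simp; linarith only [h1], by simp; linarith only [h0, h2]⟩, Complex.sub_re,
      Complex.sub_im, hu]
  unfold S3 co
  rw [a1, a2, a3, a4]
  ring

/-- `LL` near the singularity -/
theorem LL_near {a : ℂ} (ha : SinNe a) (h : |a.re| ≤ 8 / 100) :
    LL a ≤ NumIs.lnA (8 / 100) a.im := by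
  have hp := Real.pi_pos
  obtain ⟨b1, b2⟩ := abs_le.1 h
  have e : NumIs.lnA (8 / 100) a.im = LL ⟨8 / 100, a.im⟩ :=
    (Num.LL_lnA (u := ⟨8 / 100, a.im⟩) ⟨by norm_num, by norm_num⟩).symm
  rw [e, LL_eq, LL_eq]
  apply Real.log_le_log
  · rw [norm_pos_iff]
    exact mul_ne_zero two_ne_zero ha
  · rw [norm_mul, norm_mul]
    apply mul_le_mul_of_nonneg_left _ (norm_nonneg _)
    have key : ∀ z : ℂ, ‖Complex.sin z‖ ^ 2 = Real.sin z.re ^ 2 + Real.sinh z.im ^ 2 := by
      intro z
      rw [← Complex.normSq_eq_norm_sq, Complex.sin_eq, Complex.normSq_apply]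
      simp only [← Complex.ofReal_sin, ← Complex.ofReal_cos, ← Complex.ofReal_sinh,
        ← Complex.ofReal_cosh, Complex.add_re, Complex.add_im, Complex.mul_re, Complex.mul_im,
        Complex.ofReal_re, Complex.ofReal_im, Complex.I_re, Complex.I_im]
      have h1 := Real.cosh_sq z.im
      have h2 := Real.sin_sq_add_cos_sq z.re
      nlinarith only [h1, h2]
    have h1 : Real.sin (Real.pi * a.re) ^ 2 ≤ Real.sin (Real.pi * (8 / 100)) ^ 2 := by
      have h3 : |Real.sin (Real.pi * a.re)| ≤ Real.sin (Real.pi * (8 / 100)) := by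
        rw [abs_le]
        constructor
        · rw [← Real.sin_neg]
          apply Real.sin_le_sin_of_le_of_le_pi_div_two <;> nlinarith only [hp, b2, b1]
        · apply Real.sin_le_sin_of_le_of_le_pi_div_two <;> nlinarith only [hp, b1, b2]
      exact sq_le_sq' (by linarith only [h3, (abs_le.1 h3).1]) (abs_le.1 h3).2
    have h2 := key (Real.pi * a)
    have h3 := key (Real.pi * (⟨8 / 100, a.im⟩ : ℂ))
    simp only [Complex.mul_re, Complex.mul_im, Complex.ofReal_re, Complex.ofReal_im, zero_mul,
      sub_zero, add_zero] at h2 h3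
    exact le_of_sq_le_sq (by rw [h2, h3]; linarith only [h1]) (norm_nonneg _)

/-! ### the gain of the hinge in slot 2 -/

theorem ff_one_lo {w : ℂ} (hw : RH w S (65 / 100) (15 / 100) (29 / 100)) (hc : w.re ≤ 39 / 100)
    (hS : -(1145 / 10000) ≤ S) (hS' : S ≤ -(21 / 1000)) (ht : -(123 / 1000) ≤ t)
    (ht' : t ≤ -(15 / 1000)) (hr : 5 / 100 ≤ r) (hr' : r ≤ 247 / 1000) :
    0 < ff r t w.re w.im + (9 / 100 - 3 / 10 * r) := by
  have h0 := hw.re0
  rcases le_total w.re (15 / 100) with h4 | h4
  · have e : w.im = S / (15 / 100) * w.re := by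
      rw [hw.im, tr_a (by norm_num) (by norm_num) (by norm_num) h0 h4]
      ring
    have hp := pos_of_chk (chkT4 k_F1r (by norm_num) (x := r) (y := t) (z := w.re)
      (w := S / (15 / 100)) (by push_cast; linarith only [hr]) (by push_cast; linarith only [hr'])
      (by push_cast; linarith only [ht]) (by push_cast; linarith only [ht']) (by push_cast; linarith only [h0])
      (by push_cast; linarith only [h4]) (by push_cast; linarith only [hS]) (by push_cast; linarith only [hS']))
    simp only [gA, E.val, eF_val, NumIs.lkR] at hp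
    rw [← e] at hp
    push_cast at hp
    exact hp
  · rcases le_total w.re (36 / 100) with h5 | h5
    · have e : w.im = S := by
        rw [hw.im, tr_b (by norm_num) (by norm_num) h4 (by linarith only [h5]), mul_one]
      have hp := pos_of_chk (chkT4 k_F1f (by norm_num) (x := r) (y := t) (z := w.re)
        (w := S) (by push_cast; linarith only [hr]) (by push_cast; linarith only [hr'])
        (by push_cast; linarith only [ht]) (by push_cast; linarith only [ht']) (by push_cast; linarith only [h4])
        (by push_cast; linarith only [h5]) (by push_cast; linarith only [hS]) (by push_cast; linarith only [hS']))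
      simp only [gA, E.val, eF_val, NumIs.lkR] at hp
      rw [← e] at hp
      push_cast at hp
      exact hp
    · have e : w.im = S * (100 / 29 * (65 / 100 - w.re)) := by
        rw [hw.im, tr_c (by norm_num) (by norm_num) (by norm_num) (by linarith only [h5]) hw.reM]
        ring
      have hp := pos_of_chk (chkT4 k_F1g (by norm_num) (x := r) (y := t) (z := w.re)
        (w := S) (by push_cast; linarith only [hr]) (by push_cast; linarith only [hr'])
        (by push_cast; linarith only [ht]) (by push_cast; linarith only [ht']) (by push_cast; linarith only [h5])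
        (by push_cast; linarith only [hc]) (by push_cast; linarith only [hS]) (by push_cast; linarith only [hS']))
      simp only [gA, E.val, eF_val, NumIs.lkR] at hp
      push_cast at hp
      rw [← e] at hp
      exact hp

theorem ff_one_hi {w : ℂ} (hw : RH w S (65 / 100) (15 / 100) (29 / 100)) (hc : w.re ≤ 39 / 100)
    (hS : -(1145 / 10000) ≤ S) (hS' : S ≤ -(21 / 1000)) (ht : -(123 / 1000) ≤ t)
    (ht' : t ≤ -(15 / 1000)) (hr : 247 / 1000 ≤ r) (hr' : r ≤ 36 / 100) :
    0 < ff r t w.re w.im + 1 / 100 ∨ 0 < ff r t w.re w.im - fc r t + 1 / 100 := by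
  have h0 := hw.re0
  rcases le_total w.re (15 / 100) with h4 | h4
  · have e : w.im = S / (15 / 100) * w.re := by
      rw [hw.im, tr_a (by norm_num) (by norm_num) (by norm_num) h0 h4]
      ring
    obtain ⟨f, hf, hp⟩ := chkT4 k_F2r (by norm_num) (x := r) (y := t) (z := w.re)
      (w := S / (15 / 100)) (by push_cast; linarith only [hr]) (by push_cast; linarith only [hr'])
      (by push_cast; linarith only [ht]) (by push_cast; linarith only [ht']) (by push_cast; linarith only [h0])
      (by push_cast; linarith only [h4]) (by push_cast; linarith only [hS]) (by push_cast; linarith only [hS'])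
    simp only [List.mem_cons, List.not_mem_nil, or_false] at hf
    rcases hf with rfl | rfl
    · simp only [E.val, eF_val, NumIs.lkR] at hp
      rw [← e] at hp
      push_cast at hp
      exact Or.inl hp
    · simp only [E.val, eF_val, eC_val, NumIs.lkR] at hp
      rw [← e] at hp
      push_cast at hp
      exact Or.inr hp
  · rcases le_total w.re (36 / 100) with h5 | h5
    · have e : w.im = S := by
        rw [hw.im, tr_b (by norm_num) (by norm_num) h4 (by linarith only [h5]), mul_one]
      obtain ⟨f, hf, hp⟩ := chkT4 k_F2f (by norm_num) (x := r) (y := t) (z := w.re)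
        (w := S) (by push_cast; linarith only [hr]) (by push_cast; linarith only [hr'])
        (by push_cast; linarith only [ht]) (by push_cast; linarith only [ht']) (by push_cast; linarith only [h4])
        (by push_cast; linarith only [h5]) (by push_cast; linarith only [hS]) (by push_cast; linarith only [hS'])
      simp only [List.mem_cons, List.not_mem_nil, or_false] at hf
      rcases hf with rfl | rfl
      · simp only [E.val, eF_val, NumIs.lkR] at hp
        rw [← e] at hp
        push_cast at hp
        exact Or.inl hp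
      · simp only [E.val, eF_val, eC_val, NumIs.lkR] at hp
        rw [← e] at hp
        push_cast at hp
        exact Or.inr hp
    · have e : w.im = S * (100 / 29 * (65 / 100 - w.re)) := by
        rw [hw.im, tr_c (by norm_num) (by norm_num) (by norm_num) (by linarith only [h5]) hw.reM]
        ring
      obtain ⟨f, hf, hp⟩ := chkT4 k_F2g (by norm_num) (x := r) (y := t) (z := w.re)
        (w := S) (by push_cast; linarith only [hr]) (by push_cast; linarith only [hr'])
        (by push_cast; linarith only [ht]) (by push_cast; linarith only [ht']) (by push_cast; linarith only [h5])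
        (by push_cast; linarith only [hc]) (by push_cast; linarith only [hS]) (by push_cast; linarith only [hS'])
      simp only [List.mem_cons, List.not_mem_nil, or_false] at hf
      rcases hf with rfl | rfl
      · simp only [E.val, eF_val, NumIs.lkR] at hp
        push_cast at hp
        rw [← e] at hp
        exact Or.inl hp
      · simp only [E.val, eF_val, eC_val, NumIs.lkR] at hp
        push_cast at hp
        rw [← e] at hp
        exact Or.inr hp

/-- parts of the path of the hinge in slot 2, no neighbour `1` -/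
theorem RH_lo {w : ℂ} (hw : RH w S (60 / 100) (13 / 100) (30 / 100)) (hc : w.re ≤ 31 / 100)
    {a c : ℝ} (ha : a ≤ S) (hc' : S ≤ c) (h : a ≤ 0) (h' : 0 ≤ c ∨ S ≤ -(76 / 1000) ∧
      -(734 / 10000) ≤ c) :
    (w.im = S / (13 / 100) * w.re ∧ 0 ≤ w.re ∧ w.re ≤ 13 / 100) ∨
      (13 / 100 ≤ w.re ∧ a ≤ w.im ∧ w.im ≤ c) := by
  have h0 := hw.re0
  rcases le_total w.re (13 / 100) with h4 | h4
  · left
    refine ⟨?_, h0, h4⟩
    rw [hw.im, tr_a (by norm_num) (by norm_num) (by norm_num) h0 h4]
    ring
  · right
    refine ⟨h4, ?_⟩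
    rcases le_total w.re (30 / 100) with h5 | h5
    · rw [hw.im, tr_b (by norm_num) (by norm_num) h4 (by linarith only [h5]), mul_one]
      exact ⟨ha, hc'⟩
    · rw [hw.im, tr_c (by norm_num) (by norm_num) (by norm_num) (by linarith only [h5]) hw.reM]
      have k1 : 29 / 30 ≤ (60 / 100 - w.re) / (30 / 100) := by
        rw [le_div_iff₀ (by norm_num)]
        linarith only [hc]
      have k2 : (60 / 100 - w.re) / (30 / 100) ≤ 1 := by
        rw [div_le_one (by norm_num)]
        linarith only [h5]
      set k := (60 / 100 - w.re) / (30 / 100)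
      constructor
      · nlinarith only [ha, k1, h, k2]
      · rcases h' with h' | ⟨h', h''⟩
        · nlinarith only [hc', k1, k2, h']
        · nlinarith only [k1, h', h'']

theorem ff_oth_lo {w : ℂ} (hw : RH w S (60 / 100) (13 / 100) (30 / 100)) (hc : w.re ≤ 31 / 100)
    (hS : -(98 / 1000) ≤ S) (hS' : S ≤ 57 / 1000) (ht : -(116 / 1000) ≤ t)
    (ht' : t ≤ 5 / 1000) (hr : 5 / 100 ≤ r) (hr' : r ≤ 247 / 1000) :
    0 < ff r t w.re w.im + (9 / 100 - 3 / 10 * r) := by
  rcases RH_lo hw hc hS hS' (by norm_num) (Or.inl (by norm_num)) with ⟨e, h1, h2⟩ | ⟨h1, h2, h3⟩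
  · have hp := pos_of_chk (chkT4 k_F3r (by norm_num) (x := r) (y := t) (z := w.re)
      (w := S / (13 / 100)) (by push_cast; linarith only [hr]) (by push_cast; linarith only [hr'])
      (by push_cast; linarith only [ht]) (by push_cast; linarith only [ht']) (by push_cast; linarith only [h1])
      (by push_cast; linarith only [h2]) (by push_cast; linarith only [hS]) (by push_cast; linarith only [hS']))
    simp only [gA, E.val, eF_val, NumIs.lkR] at hp
    rw [← e] at hp
    push_cast at hp
    exact hp
  · have hp := pos_of_chk (chkT4 k_F3f (by norm_num) (x := r) (y := t) (z := w.re)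
      (w := w.im) (by push_cast; linarith only [hr]) (by push_cast; linarith only [hr'])
      (by push_cast; linarith only [ht]) (by push_cast; linarith only [ht']) (by push_cast; linarith only [h1])
      (by push_cast; linarith only [hc]) (by push_cast; linarith only [h2]) (by push_cast; linarith only [h3]))
    simp only [gA, E.val, eF_val, NumIs.lkR] at hp
    push_cast at hp
    exact hp

theorem ff_oth_mid {w : ℂ} (hw : RH w S (60 / 100) (13 / 100) (30 / 100)) (hc : w.re ≤ 31 / 100)
    (hO : (-(57 / 1000) ≤ S ∧ S ≤ 57 / 1000 ∧ -(116 / 1000) ≤ t ∧ t ≤ 5 / 1000) ∨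
      (-(98 / 1000) ≤ S ∧ S ≤ -(76 / 1000) ∧ -(95 / 1000) ≤ t ∧ t ≤ -(5 / 1000)))
    (hr : 247 / 1000 ≤ r) (hr' : r ≤ 275 / 1000) :
    0 < ff r t w.re w.im + 3 / 100 := by
  rcases hO with ⟨o1, o2, o3, o4⟩ | ⟨o1, o2, o3, o4⟩
  · rcases RH_lo hw hc o1 o2 (by norm_num) (Or.inl (by norm_num)) with ⟨e, h1, h2⟩ | ⟨h1, h2, h3⟩
    · have hp := pos_of_chk (chkT4 k_F4ro (by norm_num) (x := r) (y := t) (z := w.re)
        (w := S / (13 / 100)) (by push_cast; linarith only [hr]) (by push_cast; linarith only [hr'])
        (by push_cast; linarith only [o3]) (by push_cast; linarith only [o4]) (by push_cast; linarith only [h1])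
        (by push_cast; linarith only [h2]) (by push_cast; linarith only [o1]) (by push_cast; linarith only [o2]))
      simp only [E.val, eF_val, NumIs.lkR] at hp
      rw [← e] at hp
      push_cast at hp
      exact hp
    · have hp := pos_of_chk (chkT4 k_F4fo (by norm_num) (x := r) (y := t) (z := w.re)
        (w := w.im) (by push_cast; linarith only [hr]) (by push_cast; linarith only [hr'])
        (by push_cast; linarith only [o3]) (by push_cast; linarith only [o4]) (by push_cast; linarith only [h1])
        (by push_cast; linarith only [hc]) (by push_cast; linarith only [h2]) (by push_cast; linarith only [h3]))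
      simp only [E.val, eF_val, NumIs.lkR] at hp
      push_cast at hp
      exact hp
  · rcases RH_lo hw hc (c := -(73 / 1000)) o1 (by linarith only [o2]) (by norm_num)
      (Or.inr ⟨o2, by norm_num⟩) with ⟨e, h1, h2⟩ | ⟨h1, h2, h3⟩
    · have hp := pos_of_chk (chkT4 k_F4re (by norm_num) (x := r) (y := t) (z := w.re)
        (w := S / (13 / 100)) (by push_cast; linarith only [hr]) (by push_cast; linarith only [hr'])
        (by push_cast; linarith only [o3]) (by push_cast; linarith only [o4]) (by push_cast; linarith only [h1])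
        (by push_cast; linarith only [h2]) (by push_cast; linarith only [o1]) (by push_cast; linarith only [o2]))
      simp only [E.val, eF_val, NumIs.lkR] at hp
      rw [← e] at hp
      push_cast at hp
      exact hp
    · have hp := pos_of_chk (chkT4 k_F4fe (by norm_num) (x := r) (y := t) (z := w.re)
        (w := w.im) (by push_cast; linarith only [hr]) (by push_cast; linarith only [hr'])
        (by push_cast; linarith only [o3]) (by push_cast; linarith only [o4]) (by push_cast; linarith only [h1])
        (by push_cast; linarith only [hc]) (by push_cast; linarith only [h2]) (by push_cast; linarith only [h3]))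
      simp only [E.val, eF_val, NumIs.lkR] at hp
      push_cast at hp
      exact hp

theorem ff_oth_hi {w : ℂ} (hw : RH w S (60 / 100) (13 / 100) (30 / 100)) (hc : w.re ≤ 31 / 100)
    (hO : (-(57 / 1000) ≤ S ∧ S ≤ 57 / 1000 ∧ -(116 / 1000) ≤ t ∧ t ≤ 5 / 1000) ∨
      (-(98 / 1000) ≤ S ∧ S ≤ -(76 / 1000) ∧ -(95 / 1000) ≤ t ∧ t ≤ -(5 / 1000)))
    (hr : 275 / 1000 ≤ r) (hr' : r ≤ 36 / 100) :
    0 < ff r t w.re w.im + (3 / 100 + 33 / 10 * (r - 275 / 1000)) := by
  rcases hO with ⟨o1, o2, o3, o4⟩ | ⟨o1, o2, o3, o4⟩
  · rcases RH_lo hw hc o1 o2 (by norm_num) (Or.inl (by norm_num)) with ⟨e, h1, h2⟩ | ⟨h1, h2, h3⟩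
    · have hp := pos_of_chk (chkT4 k_F5ro (by norm_num) (x := r) (y := t) (z := w.re)
        (w := S / (13 / 100)) (by push_cast; linarith only [hr]) (by push_cast; linarith only [hr'])
        (by push_cast; linarith only [o3]) (by push_cast; linarith only [o4]) (by push_cast; linarith only [h1])
        (by push_cast; linarith only [h2]) (by push_cast; linarith only [o1]) (by push_cast; linarith only [o2]))
      simp only [gD, E.val, eF_val, NumIs.lkR] at hp
      rw [← e] at hp
      push_cast at hp
      exact hp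
    · have hp := pos_of_chk (chkT4 k_F5fo (by norm_num) (x := r) (y := t) (z := w.re)
        (w := w.im) (by push_cast; linarith only [hr]) (by push_cast; linarith only [hr'])
        (by push_cast; linarith only [o3]) (by push_cast; linarith only [o4]) (by push_cast; linarith only [h1])
        (by push_cast; linarith only [hc]) (by push_cast; linarith only [h2]) (by push_cast; linarith only [h3]))
      simp only [gD, E.val, eF_val, NumIs.lkR] at hp
      push_cast at hp
      exact hp
  · rcases RH_lo hw hc (c := -(73 / 1000)) o1 (by linarith only [o2]) (by norm_num)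
      (Or.inr ⟨o2, by norm_num⟩) with ⟨e, h1, h2⟩ | ⟨h1, h2, h3⟩
    · have hp := pos_of_chk (chkT4 k_F5re (by norm_num) (x := r) (y := t) (z := w.re)
        (w := S / (13 / 100)) (by push_cast; linarith only [hr]) (by push_cast; linarith only [hr'])
        (by push_cast; linarith only [o3]) (by push_cast; linarith only [o4]) (by push_cast; linarith only [h1])
        (by push_cast; linarith only [h2]) (by push_cast; linarith only [o1]) (by push_cast; linarith only [o2]))
      simp only [gD, E.val, eF_val, NumIs.lkR] at hp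
      rw [← e] at hp
      push_cast at hp
      exact hp
    · have hp := pos_of_chk (chkT4 k_F5fe (by norm_num) (x := r) (y := t) (z := w.re)
        (w := w.im) (by push_cast; linarith only [hr]) (by push_cast; linarith only [hr'])
        (by push_cast; linarith only [o3]) (by push_cast; linarith only [o4]) (by push_cast; linarith only [h1])
        (by push_cast; linarith only [hc]) (by push_cast; linarith only [h2]) (by push_cast; linarith only [h3]))
      simp only [gD, E.val, eF_val, NumIs.lkR] at hp
      push_cast at hp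
      exact hp

/-! next to a digit `3` the cap `39/100` is sufficient -/

theorem im_far {w : ℂ} (hw : RH w S (60 / 100) (13 / 100) (30 / 100)) (h1 : 31 / 100 ≤ w.re) :
    w.im = S * (100 / 30 * (60 / 100 - w.re)) := by
  rw [hw.im, tr_c (by norm_num) (by norm_num) (by norm_num) (by linarith only [h1]) hw.reM]
  ring

theorem im_far' {w : ℂ} (hw : RH w S (60 / 100) (13 / 100) (30 / 100)) (h1 : 31 / 100 ≤ w.re)
    (hS : -(22 / 1000) ≤ S) (hS' : S ≤ 22 / 1000) : -(22 / 1000) ≤ w.im ∧ w.im ≤ 22 / 1000 := by
  rw [im_far hw h1]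
  have h2 := hw.reM
  have k1 : 0 ≤ 100 / 30 * (60 / 100 - w.re) := by linarith only [h2]
  have k2 : 100 / 30 * (60 / 100 - w.re) ≤ 1 := by linarith only [h1]
  set k := 100 / 30 * (60 / 100 - w.re)
  constructor <;> nlinarith only [k2, hS, k1, hS']

theorem ff_far_lo {w : ℂ} (hw : RH w S (60 / 100) (13 / 100) (30 / 100)) (h1 : 31 / 100 ≤ w.re)
    (hc : w.re ≤ 39 / 100) (hS : -(22 / 1000) ≤ S) (hS' : S ≤ 22 / 1000)
    (ht : -(116 / 1000) ≤ t) (ht' : t ≤ 5 / 1000) (hr : 5 / 100 ≤ r) (hr' : r ≤ 247 / 1000) :
    0 < ff r t w.re w.im + (9 / 100 - 3 / 10 * r) := by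
  obtain ⟨h2, h3⟩ := im_far' hw h1 hS hS'
  have hp := pos_of_chk (chkT4 k_F3h (by norm_num) (x := r) (y := t) (z := w.re)
    (w := w.im) (by push_cast; linarith only [hr]) (by push_cast; linarith only [hr'])
    (by push_cast; linarith only [ht]) (by push_cast; linarith only [ht']) (by push_cast; linarith only [h1])
    (by push_cast; linarith only [hc]) (by push_cast; linarith only [h2]) (by push_cast; linarith only [h3]))
  simp only [gA, E.val, eF_val, NumIs.lkR] at hp
  push_cast at hp
  exact hp

theorem ff_far_mid {w : ℂ} (hw : RH w S (60 / 100) (13 / 100) (30 / 100)) (h1 : 31 / 100 ≤ w.re)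
    (hc : w.re ≤ 39 / 100) (hS : -(22 / 1000) ≤ S) (hS' : S ≤ 22 / 1000)
    (ht : -(116 / 1000) ≤ t) (ht' : t ≤ 5 / 1000) (hr : 247 / 1000 ≤ r) (hr' : r ≤ 275 / 1000) :
    0 < ff r t w.re w.im + 3 / 100 := by
  obtain ⟨h2, h3⟩ := im_far' hw h1 hS hS'
  have hp := pos_of_chk (chkT4 k_F4h (by norm_num) (x := r) (y := t) (z := w.re)
    (w := w.im) (by push_cast; linarith only [hr]) (by push_cast; linarith only [hr'])
    (by push_cast; linarith only [ht]) (by push_cast; linarith only [ht']) (by push_cast; linarith only [h1])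
    (by push_cast; linarith only [hc]) (by push_cast; linarith only [h2]) (by push_cast; linarith only [h3]))
  simp only [E.val, eF_val, NumIs.lkR] at hp
  push_cast at hp
  exact hp

theorem ff_far_hi {w : ℂ} (hw : RH w S (60 / 100) (13 / 100) (30 / 100)) (h1 : 31 / 100 ≤ w.re)
    (hc : w.re ≤ 39 / 100) (hS : -(22 / 1000) ≤ S) (hS' : S ≤ 22 / 1000)
    (ht : -(116 / 1000) ≤ t) (ht' : t ≤ 5 / 1000) (hr : 275 / 1000 ≤ r) (hr' : r ≤ 36 / 100) :
    0 < ff r t w.re w.im + (3 / 100 + 33 / 10 * (r - 275 / 1000)) := by
  have e := im_far hw h1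
  have hp := pos_of_chk (chkT4 k_F5h (by norm_num) (x := r) (y := t) (z := w.re)
    (w := S) (by push_cast; linarith only [hr]) (by push_cast; linarith only [hr'])
    (by push_cast; linarith only [ht]) (by push_cast; linarith only [ht']) (by push_cast; linarith only [h1])
    (by push_cast; linarith only [hc]) (by push_cast; linarith only [hS]) (by push_cast; linarith only [hS']))
  simp only [gD, E.val, eF_val, NumIs.lkR] at hp
  push_cast at hp
  rw [← e] at hp
  exact hp

theorem fc_le (hr : 247 / 1000 ≤ r) (hr' : r ≤ 36 / 100) (ht : -(123 / 1000) ≤ t)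
    (ht' : t ≤ -(15 / 1000)) : 1 / 100 - fc r t ≤ 1 / 100 + 44 / 10 * (r - 247 / 1000) := by
  have hp := pos_of_chk (chkT2 k_F6 (by norm_num) (x := r) (y := t)
    (by push_cast; linarith only [hr]) (by push_cast; linarith only [hr'])
    (by push_cast; linarith only [ht]) (by push_cast; linarith only [ht']))
  simp only [gL, E.val, eC_val, NumIs.lkR] at hp
  push_cast at hp
  linarith only [hp]

/-! ### the first-order condition of the inner variable -/

/-- consequences of the first-order condition, neighbour `1` in slot 2 -/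
structure Fa (u v : ℂ) : Prop where
  a : v.re ≤ 247 / 1000 → -(Real.pi * (u.im + v.im)) - LL (v - u) ≤ 9 / 100 - 3 / 10 * v.re
  b : 247 / 1000 ≤ v.re → v.re ≤ 36 / 100 → -(Real.pi * (u.im + v.im)) - LL (v - u) ≤ 1 / 100 ∨
    -(Real.pi * (u.im + v.im)) - LL (v - u) ≤ 1 / 100 - fc v.re v.im

/-- consequences of the first-order condition, no neighbour `1` in slot 2 -/
structure Fb (u v : ℂ) : Prop where
  a : v.re ≤ 247 / 1000 → -(Real.pi * (u.im + v.im)) - LL (v - u) ≤ 9 / 100 - 3 / 10 * v.re
  b : 247 / 1000 ≤ v.re → v.re ≤ 275 / 1000 → -(Real.pi * (u.im + v.im)) - LL (v - u) ≤ 3 / 100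
  c : 275 / 1000 ≤ v.re → v.re ≤ 36 / 100 → -(Real.pi * (u.im + v.im)) - LL (v - u) ≤
    3 / 100 + 33 / 10 * (v.re - 275 / 1000)

theorem SM_ff {u v w : ℂ} (h0 : 0 < v.re) (h1 : v.re ≤ 36 / 100) (h2 : 0 ≤ w.re)
    (h3 : w.re ≤ 39 / 100) : SM 0 u v w = ff v.re v.im w.re w.im +
      (-(Real.pi * (u.im + v.im)) - LL (v - u)) := by
  have a1 : LL v = NumIs.lnA v.re v.im := Num.LL_lnA (u := v) ⟨h0, by linarith only [h0, h1]⟩
  have a2 : LL (v + w) = NumIs.lnA (v.re + w.re) (v.im + w.im) := by
    rw [Num.LL_lnA (u := v + w) ⟨by simp; linarith only [h0, h2], by simp; linarith only [h0, h1, h3]⟩, Complex.add_re,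
      Complex.add_im]
  unfold SM ff
  rw [a1, a2]
  ring

theorem Fa_of {u v w : ℂ} (hw : RH w S (65 / 100) (15 / 100) (29 / 100)) (hc : w.re ≤ 39 / 100)
    (hS : -(1145 / 10000) ≤ S) (hS' : S ≤ -(21 / 1000)) (ht : -(123 / 1000) ≤ v.im)
    (ht' : v.im ≤ -(15 / 1000)) (hr : 5 / 100 ≤ v.re) (hf : v.re < 75 / 100 → SM 0 u v w ≤ 0) :
    Fa u v := by
  constructor
  · intro h1
    have h2 := hf (by linarith only [h1])
    rw [SM_ff (by linarith only [hr]) (by linarith only [h1]) hw.re0 hc] at h2
    have := ff_one_lo hw hc hS hS' ht ht' hr h1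
    linarith only [h2, this]
  · intro h1 h1'
    have h2 := hf (by linarith only [h1'])
    rw [SM_ff (by linarith only [h1]) (by linarith only [h1']) hw.re0 hc] at h2
    rcases ff_one_hi hw hc hS hS' ht ht' h1 h1' with h3 | h3
    · left; linarith only [h2, h3]
    · right; linarith only [h2, h3]

theorem Fb_of {u v w : ℂ} (hw : RH w S (60 / 100) (13 / 100) (30 / 100))
    (hc : w.re ≤ 31 / 100 ∨ w.re ≤ 39 / 100 ∧ -(22 / 1000) ≤ S ∧ S ≤ 22 / 1000)
    (hO : (-(57 / 1000) ≤ S ∧ S ≤ 57 / 1000 ∧ -(116 / 1000) ≤ v.im ∧ v.im ≤ 5 / 1000) ∨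
      (-(98 / 1000) ≤ S ∧ S ≤ -(76 / 1000) ∧ -(95 / 1000) ≤ v.im ∧ v.im ≤ -(5 / 1000)))
    (hr : 5 / 100 ≤ v.re) (hf : v.re < 75 / 100 → SM 0 u v w ≤ 0) :
    Fb u v := by
  have hc9 : w.re ≤ 39 / 100 := by
    rcases hc with hc | hc
    · linarith only [hc]
    · exact hc.1
  have t0 : -(116 / 1000) ≤ v.im := by rcases hO with h | h <;> linarith only [h, h.2.2.1]
  have t1 : v.im ≤ 5 / 1000 := by rcases hO with h | h <;> linarith only [h, h.2.2.2]
  have hc' : w.re ≤ 31 / 100 ∨
      (31 / 100 ≤ w.re ∧ -(22 / 1000) ≤ S ∧ S ≤ 22 / 1000) := by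
    rcases le_total w.re (31 / 100) with h | h
    · exact Or.inl h
    · rcases hc with hc | hc
      · exact Or.inl hc
      · exact Or.inr ⟨h, hc.2⟩
  constructor
  · intro h1
    have h2 := hf (by linarith only [h1])
    rw [SM_ff (by linarith only [hr]) (by linarith only [h1]) hw.re0 hc9] at h2
    have : 0 < ff v.re v.im w.re w.im + (9 / 100 - 3 / 10 * v.re) := by
      rcases hc' with hc' | ⟨c1, c2, c3⟩
      · exact ff_oth_lo (t := v.im) hw hc' (by rcases hO with h | h <;> linarith only [h, h.1])
          (by rcases hO with h | h <;> linarith only [h, h.2.1]) t0 t1 hr h1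
      · exact ff_far_lo hw c1 hc9 c2 c3 t0 t1 hr h1
    linarith only [h2, this]
  · intro h1 h1'
    have h2 := hf (by linarith only [h1'])
    rw [SM_ff (by linarith only [h1]) (by linarith only [h1']) hw.re0 hc9] at h2
    have : 0 < ff v.re v.im w.re w.im + 3 / 100 := by
      rcases hc' with hc' | ⟨c1, c2, c3⟩
      · exact ff_oth_mid hw hc' hO h1 h1'
      · exact ff_far_mid hw c1 hc9 c2 c3 t0 t1 h1 h1'
    linarith only [h2, this]
  · intro h1 h1'
    have h2 := hf (by linarith only [h1'])
    rw [SM_ff (by linarith only [h1]) (by linarith only [h1']) hw.re0 hc9] at h2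
    have : 0 < ff v.re v.im w.re w.im + (3 / 100 + 33 / 10 * (v.re - 275 / 1000)) := by
      rcases hc' with hc' | ⟨c1, c2, c3⟩
      · exact ff_oth_hi hw hc' hO h1 h1'
      · exact ff_far_hi hw c1 hc9 c2 c3 t0 t1 h1 h1'
    linarith only [h2, this]

end S0

end VL

end Pool.Agent.Work.MP_b30479_gtS.G2

end

section

/-!
# Side of the slot-0 hinge of an inner digit `3`, left ramp: rows
-/

namespace Pool.Agent.Work.MP_b30479_gtS.G2

open VOL NumUs

namespace VL

namespace S0

open NumIs (V)
open NumUs.E (q var)

variable {r t w σ S x m p c φ h : ℝ}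

/-! ### use of the lists -/

/-- windows of the heights -/
structure Wn (cl s0 s1 t0 t1 : ℤ) (m τ : ℝ) : Prop where
  a : (t0 : ℝ) / 10000 ≤ τ
  b : τ ≤ (t1 : ℝ) / 10000
  c : (s0 : ℝ) / 1000 ≤ τ - (cl : ℝ) / 100 * m
  d : τ - (cl : ℝ) / 100 * m ≤ (s1 : ℝ) / 1000

theorem Wn.win {cl s0 s1 t0 t1 : ℤ} (H : Wn cl s0 s1 t0 t1 m t) :
    ∀ f ∈ lW cl s0 s1, f.val [x, m, r, t] ≤ 0 := by
  intro f hf
  have h1 := H.c
  have h2 := H.d
  simp only [lW, List.mem_cons, List.not_mem_nil, or_false] at hf
  rcases hf with rfl | rfl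
  · simp only [w1, E.val, NumIs.lkR]
    push_cast
    linarith only [h2]
  · simp only [w0, E.val, NumIs.lkR]
    push_cast
    linarith only [h1]

theorem use1 {oE : E} {e : ℤ} {W : List E}
    (h : ∃ f ∈ l1 oE e ++ W, 0 < f.val [x, m, p, t])
    (hW : ∀ f ∈ W, f.val [x, m, p, t] ≤ 0) (hr : x + p ≤ 247 / 1000)
    (hG : -(Real.pi * (m * x + t)) - NumIs.lnA p (t - m * x) ≤ 9 / 100 - 3 / 10 * (x + p)) :
    (e : ℝ) / 1000 < oE.val [x, m, p, t] + NumIs.lnA p (t - m * x) := by
  obtain ⟨f, hf, hp⟩ := h
  rw [List.mem_append] at hf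
  rcases hf with hf | hf
  · simp only [l1, List.mem_cons, List.not_mem_nil, or_false] at hf
    rcases hf with rfl | rfl | rfl | rfl
    · simp only [f2, eU, gA, E.val, NumIs.lkR] at hp
      push_cast at hp
      linarith only [hG, hp]
    · simp only [f1, eV, E.val, NumIs.lkR] at hp
      push_cast at hp
      linarith only [hp]
    · simp only [f3, eU, eV, gA, E.val, NumIs.lkR] at hp
      push_cast at hp
      linarith only [hG, hp]
    · simp only [E.val, NumIs.lkR] at hp
      push_cast at hp
      linarith only [hr, hp]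
  · exact absurd hp (not_lt.2 (hW f hf))

theorem use2 {oE φE : E} {e : ℤ} {W : List E}
    (h : ∃ f ∈ l2 oE φE e ++ W, 0 < f.val [x, m, r, t])
    (hW : ∀ f ∈ W, f.val [x, m, r, t] ≤ 0)
    (hG : -(Real.pi * (m * x + t)) - NumIs.lnA (r - x) (t - m * x) ≤ φE.val [x, m, r, t]) :
    (e : ℝ) / 1000 < oE.val [x, m, r, t] + NumIs.lnA (r - x) (t - m * x) := by
  obtain ⟨f, hf, hp⟩ := h
  rw [List.mem_append] at hf
  rcases hf with hf | hf
  · simp only [l2, List.mem_cons, List.not_mem_nil, or_false] at hf
    rcases hf with rfl | rfl | rfl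
    · simp only [f2, eU, E.val, NumIs.lkR] at hp
      push_cast at hp
      linarith only [hG, hp]
    · simp only [f1, eV, E.val, NumIs.lkR] at hp
      push_cast at hp
      linarith only [hp]
    · simp only [f3, eU, eV, E.val, NumIs.lkR] at hp
      linarith only [hG, hp]
  · exact absurd hp (not_lt.2 (hW f hf))

theorem use3 {oE : E} {e : ℤ} (h : ∃ f ∈ l3 oE e, 0 < f.val [x, m, r, t]) :
    (e : ℝ) / 1000 < oE.val [x, m, r, t] + NumIs.lnA (r - x) (t - m * x) := by
  obtain ⟨f, hf, hp⟩ := h
  simp only [l3, List.mem_cons, List.not_mem_nil, or_false] at hf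
  rcases hf with rfl
  simp only [f1, eV, E.val, NumIs.lkR] at hp
  push_cast at hp
  linarith only [hp]

theorem useN {cl s0 s1 t0 t1 : ℤ} (h : ∃ f ∈ lN cl s0 s1, 0 < f.val [x, m, r, t])
    (H : Wn cl s0 s1 t0 t1 m t) (hr : r ≤ x + 8 / 100) :
    9 / 100 - 3 / 10 * r < -(Real.pi * (m * x + t)) - NumIs.lnA (8 / 100) (t - m * x) := by
  obtain ⟨f, hf, hp⟩ := h
  have h1 := H.c
  have h2 := H.d
  simp only [lN, List.mem_cons, List.not_mem_nil, or_false] at hf
  rcases hf with rfl | rfl | rfl | rfl
  · simp only [eU, gA, E.val, NumIs.lkR] at hp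
    push_cast at hp
    linarith only [hp]
  · simp only [E.val, NumIs.lkR] at hp
    push_cast at hp
    linarith only [hr, hp]
  · simp only [w1, E.val, NumIs.lkR] at hp
    push_cast at hp
    linarith only [h2, hp]
  · simp only [w0, E.val, NumIs.lkR] at hp
    push_cast at hp
    linarith only [h1, hp]

theorem useN' (h : ∃ f ∈ lN', 0 < f.val [x, m, r, t]) (hr : r ≤ x + 8 / 100) :
    9 / 100 - 3 / 10 * r < -(Real.pi * (m * x + t)) - NumIs.lnA (8 / 100) (t - m * x) := by
  obtain ⟨f, hf, hp⟩ := h
  simp only [lN', List.mem_cons, List.not_mem_nil, or_false] at hf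
  rcases hf with rfl | rfl
  · simp only [eU, gA, E.val, NumIs.lkR] at hp
    push_cast at hp
    linarith only [hp]
  · simp only [E.val, NumIs.lkR] at hp
    push_cast at hp
    linarith only [hr, hp]

theorem oR_val (cE : E) : (oR cE).val [x, m, r, t] = co x m (r - x) r t (cE.val [x, m, r, t]) := by
  simp only [oR, eCo_val, E.val, NumIs.lkR]

theorem oP_val (cE : E) : (oP cE).val [x, m, p, t] = co x m p (x + p) t (cE.val [x, m, p, t]) := by
  simp only [oP, eCo_val, E.val, NumIs.lkR]

theorem sR_val (cE : E) : (sR cE).val [x, m, r, t] = cs x m (r - x) r t (cE.val [x, m, r, t]) := by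
  simp only [sR, eCs_val, E.val, NumIs.lkR]

theorem sP_val (cE : E) : (sP cE).val [x, m, p, t] = cs x m p (x + p) t (cE.val [x, m, p, t]) := by
  simp only [sP, eCs_val, E.val, NumIs.lkR]

/-- the shift -/
def Sh (cE : E) (c x : ℝ) : Prop := ∀ m r t : ℝ, cE.val [x, m, r, t] = c

theorem Sh_A (x : ℝ) : Sh cA (Real.pi - 9 / 2 * x) x := by
  intro m r t
  simp only [cA, E.val, NumIs.lkR]
  push_cast
  ring

theorem Sh_N (x : ℝ) : Sh cN (Real.pi / 2) x := by
  intro m r t
  simp only [cN, E.val]
  push_cast
  ring

variable {u v : ℂ}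

/-! ### rows -/

/-- `v` near `u` is impossible -/
theorem near_false (hs : SinNe (v - u)) (hu : u.im = m * u.re) (h1 : -(8 / 100) ≤ v.re - u.re)
    (h2 : v.re - u.re ≤ 8 / 100)
    (hG : -(Real.pi * (u.im + v.im)) - LL (v - u) ≤ 9 / 100 - 3 / 10 * v.re)
    (hN : 9 / 100 - 3 / 10 * v.re < -(Real.pi * (m * u.re + v.im)) -
      NumIs.lnA (8 / 100) (v.im - m * u.re)) : False := by
  have h := LL_near hs (by
    rw [Complex.sub_re, abs_le]
    exact ⟨h1, h2⟩)
  rw [Complex.sub_im, hu] at h
  rw [hu] at hG
  linarith only [hG, hN, h]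

theorem LL_sub (hu : u.im = m * u.re) (h1 : u.re < v.re) (h2 : v.re - u.re < 1) :
    LL (v - u) = NumIs.lnA (v.re - u.re) (v.im - m * u.re) := by
  rw [Num.LL_lnA (u := v - u) ⟨by simp; linarith only [h1], by simp; linarith only [h2]⟩, Complex.sub_re,
      Complex.sub_im, hu]

/-- small `x` -/
theorem row_s {cE : E} {c : ℝ} {e m0 m1 t0 t1 s0 s1 : ℤ} {W : List E} {k1 k2 : ℕ}
    (c1 : chkT (l1 (sP cE) e ++ W) 40 k1 [V.of 10000 0 100, V.of 10000 m0 m1,
      V.of 10000 500 2470, V.of 10000 t0 t1] = true)
    (c3 : chkT (l3 (sR cE) e) 40 k2 [V.of 10000 0 100, V.of 10000 m0 m1,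
      V.of 10000 2470 8000, V.of 10000 s0 s1] = true)
    (hc : Sh cE c u.re) (h0 : 0 < u.re) (hx : u.re ≤ 1 / 100) (hu : u.im = m * u.re)
    (hm : (m0 : ℝ) / 10000 ≤ m) (hm' : m ≤ (m1 : ℝ) / 10000) (hs : SinNe (v - u))
    (hr : 5 / 100 < v.re) (hr' : v.re ≤ 8 / 10)
    (lo : v.re ≤ 36 / 100 → (t0 : ℝ) / 10000 ≤ v.im ∧ v.im ≤ (t1 : ℝ) / 10000 ∧
      (∀ (x p : ℝ), ∀ f ∈ W, f.val [x, m, p, v.im] ≤ 0) ∧
      (v.re ≤ u.re + 8 / 100 → 9 / 100 - 3 / 10 * v.re < -(Real.pi * (m * u.re + v.im)) -
        NumIs.lnA (8 / 100) (v.im - m * u.re)) ∧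
      (v.re ≤ 247 / 1000 → -(Real.pi * (u.im + v.im)) - LL (v - u) ≤ 9 / 100 - 3 / 10 * v.re))
    (hi : (s0 : ℝ) / 10000 ≤ v.im) (hi' : v.im ≤ (s1 : ℝ) / 10000) :
    (e : ℝ) / 1000 < S3 1 m u v + c * m := by
  rcases le_total v.re (247 / 1000) with h1 | h1
  · obtain ⟨l1, l2, l3, l4, l5⟩ := lo (by linarith only [h0, hx, h1])
    have hG := l5 h1
    rcases le_total v.re (u.re + 8 / 100) with h2 | h2
    · exact (near_false hs hu (by linarith only [h0, hx, hr]) (by linarith only [h2]) hG (l4 h2)).elim
    · rw [LL_sub hu (by linarith only [h0, hx, h2]) (by linarith only [h0, hx, hr']), hu] at hG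
      have := use1 (x := u.re) (p := v.re - u.re) (chkT4 c1 (by norm_num) (x := u.re) (y := m)
        (z := v.re - u.re) (w := v.im) (by push_cast; linarith only [h0]) (by push_cast; linarith only [hx])
        (by push_cast; linarith only [hm]) (by push_cast; linarith only [hm']) (by push_cast; linarith only [h0, hx, h2])
        (by push_cast; linarith only [h0, h1]) (by push_cast; linarith only [l1]) (by push_cast; linarith only [l2]))
        (l3 _ _) (by linarith only [h1]) (by linarith only [hG])
      rw [sP_val, hc] at this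
      rw [S3_co hu h0 (by linarith only [h0, hx, h2]) (by linarith only [h0, hx, hr'])]
      have h3 := cs_le (m := m) (p := v.re - u.re) (r := u.re + (v.re - u.re)) (t := v.im)
        (c := c) h0 hx
      have e1 : u.re + (v.re - u.re) = v.re := by ring
      rw [e1] at h3 this
      linarith only [this, h3]
  · have := use3 (chkT4 c3 (by norm_num) (x := u.re) (y := m)
      (z := v.re) (w := v.im) (by push_cast; linarith only [h0]) (by push_cast; linarith only [hx])
      (by push_cast; linarith only [hm]) (by push_cast; linarith only [hm']) (by push_cast; linarith only [h1])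
      (by push_cast; linarith only [hr']) (by push_cast; linarith only [hi]) (by push_cast; linarith only [hi']))
    rw [sR_val, hc] at this
    rw [S3_co hu h0 (by linarith only [h0, hx, h1]) (by linarith only [h0, hx, hr'])]
    have h3 := cs_le (m := m) (p := v.re - u.re) (r := v.re) (t := v.im)
      (c := c) h0 hx
    linarith only [this, h3]

/-- the rows with a neighbour of class `≠ 1` in slot 0 -/
theorem row_n {e cl x1 m0 m1 U0 U1 t0 t1 a0 a1 ta ta' b0 b1 tb tb' s0 s1 xr : ℤ}
    {k0 k1 k2 k3 k4 k5 : ℕ}
    (cn : chkT (lN cl U0 U1) 40 k0 [V.of 10000 100 x1, V.of 10000 m0 m1,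
      V.of 10000 500 xr, V.of 10000 t0 t1] = true)
    (c1 : chkT (l1 (oP cN) e ++ lW cl U0 U1) 40 k1 [V.of 10000 100 x1, V.of 10000 m0 m1,
      V.of 10000 500 2470, V.of 10000 t0 t1] = true)
    (c2a : chkT (l2 (oR cN) (gL (var 2)) e ++ lW cl a0 a1) 40 k2 [V.of 10000 100 x1,
      V.of 10000 m0 m1, V.of 10000 2470 3600, V.of 10000 ta ta'] = true)
    (c2c : chkT (l2 (oR cN) (q 3 100) e ++ lW cl b0 b1) 40 k3 [V.of 10000 100 x1,
      V.of 10000 m0 m1, V.of 10000 2470 2750, V.of 10000 tb tb'] = true)
    (c2d : chkT (l2 (oR cN) (gD (var 2)) e ++ lW cl b0 b1) 40 k4 [V.of 10000 100 x1,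
      V.of 10000 m0 m1, V.of 10000 2750 3600, V.of 10000 tb tb'] = true)
    (c3 : chkT (l3 (oR cN) e) 40 k5 [V.of 10000 100 x1, V.of 10000 m0 m1,
      V.of 10000 3600 8000, V.of 10000 s0 s1] = true)
    (hxr : (x1 : ℝ) / 10000 + 8 / 100 ≤ (xr : ℝ) / 10000)
    (hta : -(1230 : ℤ) ≤ ta) (hta' : ta' ≤ -(150 : ℤ))
    (h0 : 1 / 100 ≤ u.re) (hx : u.re ≤ (x1 : ℝ) / 10000) (hx3 : u.re ≤ 13 / 100)
    (hu : u.im = m * u.re)
    (hm : (m0 : ℝ) / 10000 ≤ m) (hm' : m ≤ (m1 : ℝ) / 10000) (hs : SinNe (v - u))
    (hr : 5 / 100 < v.re) (hr' : v.re ≤ 8 / 10)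
    (lo : v.re ≤ 36 / 100 → Wn cl U0 U1 t0 t1 m v.im ∧
      ((Wn cl a0 a1 ta ta' m v.im ∧ Fa u v) ∨ (Wn cl b0 b1 tb tb' m v.im ∧ Fb u v)))
    (hi : (s0 : ℝ) / 10000 ≤ v.im) (hi' : v.im ≤ (s1 : ℝ) / 10000) :
    (e : ℝ) / 1000 < S3 1 m u v + Real.pi / 2 * m := by
  rcases le_total v.re (247 / 1000) with h1 | h1
  · obtain ⟨l1, l2⟩ := lo (by linarith only [h1])
    have hG : -(Real.pi * (u.im + v.im)) - LL (v - u) ≤ 9 / 100 - 3 / 10 * v.re := by
      rcases l2 with l2 | l2
      · exact l2.2.a h1
      · exact l2.2.a h1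
    have la := l1.a
    have lb := l1.b
    rcases le_total v.re (u.re + 8 / 100) with h2 | h2
    · have := useN (chkT4 cn (by norm_num) (x := u.re) (y := m)
        (z := v.re) (w := v.im) (by push_cast; linarith only [h0]) (by push_cast; linarith only [hx])
        (by push_cast; linarith only [hm]) (by push_cast; linarith only [hm']) (by push_cast; linarith only [hr])
        (by push_cast; linarith only [hxr, hx, h2]) (by push_cast; linarith only [la]) (by push_cast; linarith only [lb])) l1 h2
      exact (near_false hs hu (by linarith only [hx3, hr]) (by linarith only [h2]) hG this).elim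
    · rw [LL_sub hu (by linarith only [h2]) (by linarith only [h0, hr']), hu] at hG
      have := use1 (x := u.re) (p := v.re - u.re) (chkT4 c1 (by norm_num) (x := u.re) (y := m)
        (z := v.re - u.re) (w := v.im) (by push_cast; linarith only [h0]) (by push_cast; linarith only [hx])
        (by push_cast; linarith only [hm]) (by push_cast; linarith only [hm']) (by push_cast; linarith only [h2])
        (by push_cast; linarith only [h0, h1]) (by push_cast; linarith only [la]) (by push_cast; linarith only [lb]))
        l1.win (by linarith only [h1]) (by linarith only [hG])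
      rw [oP_val, Sh_N] at this
      rw [S3_co hu (by linarith only [h0]) (by linarith only [h2]) (by linarith only [hr'])]
      have e1 : u.re + (v.re - u.re) = v.re := by ring
      rw [e1] at this
      exact this
  · rcases le_total v.re (36 / 100) with h2 | h2
    · obtain ⟨-, l2⟩ := lo h2
      rw [S3_co hu (by linarith only [h0]) (by linarith only [hx3, h1]) (by linarith only [hr'])]
      rcases l2 with ⟨l2, l3⟩ | ⟨l2, l3⟩
      · have la := l2.a
        have lb := l2.b
        have ha : -(1230 : ℝ) ≤ ta := by exact_mod_cast hta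
        have ha' : (ta' : ℝ) ≤ -150 := by exact_mod_cast hta'
        have hG : -(Real.pi * (u.im + v.im)) - LL (v - u) ≤
            1 / 100 + 44 / 10 * (v.re - 247 / 1000) := by
          rcases l3.b h1 h2 with h3 | h3
          · linarith only [h1, h3]
          · have := fc_le (t := v.im) h1 h2 (by linarith only [la, ha]) (by linarith only [lb, ha'])
            linarith only [h3, this]
        rw [LL_sub hu (by linarith only [hx3, h1]) (by linarith only [h0, hr']), hu] at hG
        have := use2 (chkT4 c2a (by norm_num) (x := u.re) (y := m)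
          (z := v.re) (w := v.im) (by push_cast; linarith only [h0]) (by push_cast; linarith only [hx])
          (by push_cast; linarith only [hm]) (by push_cast; linarith only [hm']) (by push_cast; linarith only [h1])
          (by push_cast; linarith only [h2]) (by push_cast; linarith only [la]) (by push_cast; linarith only [lb]))
          l2.win (by
            simp only [gL, E.val, NumIs.lkR]
            push_cast
            linarith only [hG])
        rwa [oR_val, Sh_N] at this
      · have la := l2.a
        have lb := l2.b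
        rcases le_total v.re (275 / 1000) with h3 | h3
        · have hG := l3.b h1 h3
          rw [LL_sub hu (by linarith only [hx3, h1]) (by linarith only [h0, hr']), hu] at hG
          have := use2 (chkT4 c2c (by norm_num) (x := u.re) (y := m)
            (z := v.re) (w := v.im) (by push_cast; linarith only [h0]) (by push_cast; linarith only [hx])
            (by push_cast; linarith only [hm]) (by push_cast; linarith only [hm']) (by push_cast; linarith only [h1])
            (by push_cast; linarith only [h3]) (by push_cast; linarith only [la]) (by push_cast; linarith only [lb]))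
            l2.win (by
              simp only [E.val]
              push_cast
              linarith only [hG])
          rwa [oR_val, Sh_N] at this
        · have hG := l3.c h3 h2
          rw [LL_sub hu (by linarith only [hx3, h3]) (by linarith only [h0, hr']), hu] at hG
          have := use2 (chkT4 c2d (by norm_num) (x := u.re) (y := m)
            (z := v.re) (w := v.im) (by push_cast; linarith only [h0]) (by push_cast; linarith only [hx])
            (by push_cast; linarith only [hm]) (by push_cast; linarith only [hm']) (by push_cast; linarith only [h3])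
            (by push_cast; linarith only [h2]) (by push_cast; linarith only [la]) (by push_cast; linarith only [lb]))
            l2.win (by
              simp only [gD, E.val, NumIs.lkR]
              push_cast
              linarith only [hG])
          rwa [oR_val, Sh_N] at this
    · have := use3 (chkT4 c3 (by norm_num) (x := u.re) (y := m)
        (z := v.re) (w := v.im) (by push_cast; linarith only [h0]) (by push_cast; linarith only [hx])
        (by push_cast; linarith only [hm]) (by push_cast; linarith only [hm']) (by push_cast; linarith only [h2])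
        (by push_cast; linarith only [hr']) (by push_cast; linarith only [hi]) (by push_cast; linarith only [hi']))
      rw [oR_val, Sh_N] at this
      rw [S3_co hu (by linarith only [h0]) (by linarith only [hx3, h2]) (by linarith only [hr'])]
      exact this

/-- the rows with a neighbour `1` in slot 0 -/
theorem row_a {e x0 x1 xr : ℤ} {k0 k1 k2 k3 k4 k5 k6 : ℕ}
    (cn : chkT (lN 13 (-45) 84) 40 k0 [V.of 10000 x0 x1, V.of 10000 (-8808) (-1615),
      V.of 10000 500 xr, V.of 10000 (-900) 50] = true)
    (c1 : chkT (l1 (oP cA) e ++ lW 13 (-45) 84) 40 k1 [V.of 10000 x0 x1,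
      V.of 10000 (-8808) (-1615), V.of 10000 500 2470, V.of 10000 (-900) 50] = true)
    (c2a : chkT (l2 (oR cA) (q 1 100) e ++ lW 13 (-45) 70) 40 k2 [V.of 10000 x0 x1,
      V.of 10000 (-8808) (-1615), V.of 10000 2470 3600, V.of 10000 (-900) (-180)] = true)
    (c2b : chkT (l2 (oR cA) (gB (var 2) (var 3)) e ++ lW 13 (-45) 70) 40 k3
      [V.of 10000 x0 x1, V.of 10000 (-8808) (-1615), V.of 10000 2470 3600,
      V.of 10000 (-900) (-180)] = true)
    (c2c : chkT (l2 (oR cA) (q 3 100) e ++ lW 13 (-40) 84) 40 k4 [V.of 10000 x0 x1,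
      V.of 10000 (-8808) (-1615), V.of 10000 2470 2750, V.of 10000 (-820) 50] = true)
    (c2d : chkT (l2 (oR cA) (gD (var 2)) e ++ lW 13 (-40) 84) 40 k5 [V.of 10000 x0 x1,
      V.of 10000 (-8808) (-1615), V.of 10000 2750 3600, V.of 10000 (-820) 50] = true)
    (c3 : chkT (l3 (oR cA) e) 40 k6 [V.of 10000 x0 x1, V.of 10000 (-8808) (-1615),
      V.of 10000 3600 8000, V.of 10000 (-900) 50] = true)
    (hxr : (x1 : ℝ) / 10000 + 8 / 100 ≤ (xr : ℝ) / 10000)
    (h0 : (x0 : ℝ) / 10000 ≤ u.re) (hx0 : 0 < u.re)
    (hx : u.re ≤ (x1 : ℝ) / 10000) (hx3 : u.re ≤ 13 / 100) (hu : u.im = m * u.re)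
    (hm : -(8808 / 10000) ≤ m) (hm' : m ≤ -(1615 / 10000)) (hs : SinNe (v - u))
    (hr : 5 / 100 < v.re) (hr' : v.re ≤ 8 / 10)
    (lo : v.re ≤ 36 / 100 → (Wn 13 (-45) 70 (-900) (-180) m v.im ∧ Fa u v) ∨
      (Wn 13 (-40) 84 (-820) 50 m v.im ∧ Fb u v))
    (hi : -(90 / 1000) ≤ v.im) (hi' : v.im ≤ 5 / 1000) :
    (e : ℝ) / 1000 < S3 1 m u v + (Real.pi - 9 / 2 * u.re) * m := by
  rcases le_total v.re (247 / 1000) with h1 | h1
  · have l2 := lo (by linarith only [hx0, hx3, h1])
    have hG : -(Real.pi * (u.im + v.im)) - LL (v - u) ≤ 9 / 100 - 3 / 10 * v.re := by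
      rcases l2 with l2 | l2
      · exact l2.2.a h1
      · exact l2.2.a h1
    have l1 : Wn 13 (-45) 84 (-900) 50 m v.im := by
      rcases l2 with l2 | l2
      · have b1 := l2.1.a
        have b2 := l2.1.b
        have b3 := l2.1.c
        have b4 := l2.1.d
        push_cast at b1 b2 b3 b4
        constructor <;> push_cast <;> linarith only [hi, hi', b3, hx0, hx3, b4]
      · have b1 := l2.1.a
        have b2 := l2.1.b
        have b3 := l2.1.c
        have b4 := l2.1.d
        push_cast at b1 b2 b3 b4
        constructor <;> push_cast <;> linarith only [hx0, hx3, b1, hi', b3, b4]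
    rcases le_total v.re (u.re + 8 / 100) with h2 | h2
    · have := useN (chkT4 cn (by norm_num) (x := u.re) (y := m)
        (z := v.re) (w := v.im) (by push_cast; linarith only [h0]) (by push_cast; linarith only [hx])
        (by push_cast; linarith only [hm]) (by push_cast; linarith only [hm']) (by push_cast; linarith only [hr])
        (by push_cast; linarith only [hxr, hx, h2]) (by push_cast; linarith only [hi]) (by push_cast; linarith only [hi'])) l1 h2
      exact (near_false hs hu (by linarith only [hx3, hr]) (by linarith only [h2]) hG this).elim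
    · rw [LL_sub hu (by linarith only [hx0, hx3, h2]) (by linarith only [hx0, hx3, hr']), hu] at hG
      have := use1 (x := u.re) (p := v.re - u.re) (chkT4 c1 (by norm_num) (x := u.re) (y := m)
        (z := v.re - u.re) (w := v.im) (by push_cast; linarith only [h0]) (by push_cast; linarith only [hx])
        (by push_cast; linarith only [hm]) (by push_cast; linarith only [hm']) (by push_cast; linarith only [hx0, hx3, h2])
        (by push_cast; linarith only [hx0, h1]) (by push_cast; linarith only [hi]) (by push_cast; linarith only [hi']))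
        l1.win (by linarith only [h1]) (by linarith only [hG])
      rw [oP_val, Sh_A] at this
      rw [S3_co hu (by linarith only [hx0]) (by linarith only [hx0, hx3, h2]) (by linarith only [hx0, hx3, hr'])]
      have e1 : u.re + (v.re - u.re) = v.re := by ring
      rw [e1] at this
      exact this
  · rcases le_total v.re (36 / 100) with h2 | h2
    · rw [S3_co hu (by linarith only [hx0]) (by linarith only [hx0, hx3, h1]) (by linarith only [hx0, hx3, hr'])]
      rcases lo h2 with ⟨l2, l3⟩ | ⟨l2, l3⟩
      · have la := l2.a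
        have lb := l2.b
        push_cast at la lb
        rcases l3.b h1 h2 with hG | hG
        · rw [LL_sub hu (by linarith only [hx0, hx3, h1]) (by linarith only [hx0, hx3, hr']), hu] at hG
          have := use2 (chkT4 c2a (by norm_num) (x := u.re) (y := m)
            (z := v.re) (w := v.im) (by push_cast; linarith only [h0]) (by push_cast; linarith only [hx])
            (by push_cast; linarith only [hm]) (by push_cast; linarith only [hm']) (by push_cast; linarith only [h1])
            (by push_cast; linarith only [h2]) (by push_cast; linarith only [hi]) (by push_cast; linarith only [lb]))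
            l2.win (by
              simp only [E.val]
              push_cast
              linarith only [hG])
          rwa [oR_val, Sh_A] at this
        · rw [LL_sub hu (by linarith only [hx0, hx3, h1]) (by linarith only [hx0, hx3, hr']), hu] at hG
          have := use2 (chkT4 c2b (by norm_num) (x := u.re) (y := m)
            (z := v.re) (w := v.im) (by push_cast; linarith only [h0]) (by push_cast; linarith only [hx])
            (by push_cast; linarith only [hm]) (by push_cast; linarith only [hm']) (by push_cast; linarith only [h1])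
            (by push_cast; linarith only [h2]) (by push_cast; linarith only [hi]) (by push_cast; linarith only [lb]))
            l2.win (by
              simp only [gB, E.val, NumIs.lkR]
              unfold fc at hG
              push_cast at hG ⊢
              linarith only [hG])
          rwa [oR_val, Sh_A] at this
      · have la := l2.a
        have lb := l2.b
        push_cast at la lb
        rcases le_total v.re (275 / 1000) with h3 | h3
        · have hG := l3.b h1 h3
          rw [LL_sub hu (by linarith only [hx0, hx3, h1]) (by linarith only [hx0, hx3, hr']), hu] at hG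
          have := use2 (chkT4 c2c (by norm_num) (x := u.re) (y := m)
            (z := v.re) (w := v.im) (by push_cast; linarith only [h0]) (by push_cast; linarith only [hx])
            (by push_cast; linarith only [hm]) (by push_cast; linarith only [hm']) (by push_cast; linarith only [h1])
            (by push_cast; linarith only [h3]) (by push_cast; linarith only [la]) (by push_cast; linarith only [hi']))
            l2.win (by
              simp only [E.val]
              push_cast
              linarith only [hG])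
          rwa [oR_val, Sh_A] at this
        · have hG := l3.c h3 h2
          rw [LL_sub hu (by linarith only [hx0, hx3, h3]) (by linarith only [hx0, hx3, hr']), hu] at hG
          have := use2 (chkT4 c2d (by norm_num) (x := u.re) (y := m)
            (z := v.re) (w := v.im) (by push_cast; linarith only [h0]) (by push_cast; linarith only [hx])
            (by push_cast; linarith only [hm]) (by push_cast; linarith only [hm']) (by push_cast; linarith only [h3])
            (by push_cast; linarith only [h2]) (by push_cast; linarith only [la]) (by push_cast; linarith only [hi']))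
            l2.win (by
              simp only [gD, E.val, NumIs.lkR]
              push_cast
              linarith only [hG])
          rwa [oR_val, Sh_A] at this
    · have := use3 (chkT4 c3 (by norm_num) (x := u.re) (y := m)
        (z := v.re) (w := v.im) (by push_cast; linarith only [h0]) (by push_cast; linarith only [hx])
        (by push_cast; linarith only [hm]) (by push_cast; linarith only [hm']) (by push_cast; linarith only [h2])
        (by push_cast; linarith only [hr']) (by push_cast; linarith only [hi]) (by push_cast; linarith only [hi']))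
      rw [oR_val, Sh_A] at this
      rw [S3_co hu (by linarith only [hx0]) (by linarith only [hx0, hx3, h2]) (by linarith only [hx0, hx3, hr'])]
      exact this

end S0

end VL

end Pool.Agent.Work.MP_b30479_gtS.G2

end

section

/-!
# Side of the slot-0 hinge of an inner digit `3`, left ramp: all classes
-/

namespace Pool.Agent.Work.MP_b30479_gtS.G2

open VOL NumUs

namespace VL

namespace S0

open SR

variable {r t w σ S T x m p c φ h : ℝ} {A K : Cl} {u v w : ℂ}

theorem RH_im {a b : ℝ} (h : RH v T (8 / 10) (5 / 100) (5 / 100)) (ha : a ≤ 0) (hb : 0 ≤ b)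
    (h1 : a ≤ T) (h2 : T ≤ b) : a ≤ v.im ∧ v.im ≤ b := by
  have h3 : 0 ≤ tr 0 (8 / 10) (5 / 100) (5 / 100) v.re := le_max_left _ _
  have h4 : tr 0 (8 / 10) (5 / 100) (5 / 100) v.re ≤ 1 := max_le zero_le_one (min_le_left _ _)
  rw [h.im]
  constructor <;> nlinarith only [ha, h4, h1, h3, hb, h2]

theorem pre (H : HtW A K T t S) (hw : RH w S (pR K).XM (pR K).cl (pR K).cr)
    (hc' : w.re ≤ cpR K) (hv : RH v t (8 / 10) (5 / 100) (5 / 100)) (hr : 5 / 100 < v.re)
    (hf : v.re < 75 / 100 → SM 0 u v w ≤ 0) (h36 : v.re ≤ 36 / 100) :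
    v.im = t ∧ ((K = .one ∧ Fa u v) ∨ (K ≠ .one ∧ Fb u v)) := by
  have e : v.im = t := by
    rw [hv.im, tr_b (by norm_num) (by norm_num) hr.le (by linarith only [h36]), mul_one]
  refine ⟨e, ?_⟩
  have a1 := H.S0
  have a2 := H.S1
  have a3 := H.t0
  have a4 := H.t1
  by_cases hK : K = .one
  · left
    refine ⟨hK, ?_⟩
    subst hK
    simp only [hbox, pR, cpR] at a1 a2 hw hc'
    refine Fa_of hw hc' a1 a2 ?_ ?_ hr.le hf
    · rw [e]
      exact le_trans (by cases A <;> norm_num [mw]) a3
    · rw [e]
      exact a4.trans (by cases A <;> norm_num [mw])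
  · right
    refine ⟨hK, ?_⟩
    have hw' : RH w S (60 / 100) (13 / 100) (30 / 100) := by
      cases K
      · exact absurd rfl hK
      all_goals exact hw
    have hc2 : w.re ≤ 31 / 100 ∨ w.re ≤ 39 / 100 ∧ -(22 / 1000) ≤ S ∧ S ≤ 22 / 1000 := by
      cases K
      · exact absurd rfl hK
      · exact Or.inl hc'
      · exact Or.inl hc'
      · exact Or.inr ⟨hc', a1, a2⟩
      · exact Or.inl hc'
      · exact Or.inl hc'
    refine Fb_of hw' hc2 ?_ hr.le hf
    rw [e]
    by_cases hE : K = .twoE
    · right
      subst hE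
      simp only [hbox] at a1 a2
      refine ⟨a1, a2, ?_, ?_⟩
      · exact le_trans (by cases A <;> norm_num [mw]) a3
      · exact a4.trans (by cases A <;> norm_num [mw])
    · left
      refine ⟨?_, ?_, ?_, ?_⟩
      · refine le_trans ?_ a1
        cases K <;> first | exact absurd rfl hK | exact absurd rfl hE | norm_num [hbox]
      · refine a2.trans ?_
        cases K <;> first | exact absurd rfl hK | exact absurd rfl hE | norm_num [hbox]
      · refine le_trans ?_ a3
        cases K <;> first | exact absurd rfl hK | exact absurd rfl hE |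
          (cases A <;> norm_num [mw])
      · refine a4.trans ?_
        cases K <;> first | exact absurd rfl hK | exact absurd rfl hE |
          (cases A <;> norm_num [mw])

theorem win_of (H : HtW A K T t S) {cl s0 s1 t0 t1 : ℤ} (hm : (cl : ℝ) / 100 * m = T)
    (h1 : (t0 : ℝ) / 10000 ≤ (mw A K).t0) (h2 : (mw A K).t1 ≤ (t1 : ℝ) / 10000)
    (h3 : (s0 : ℝ) / 1000 ≤ (mw A K).s0) (h4 : (mw A K).s1 ≤ (s1 : ℝ) / 1000) :
    Wn cl s0 s1 t0 t1 m t :=
  ⟨h1.trans H.t0, H.t1.trans h2, by rw [hm]; exact h3.trans H.d0, by rw [hm]; exact H.d1.trans h4⟩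

theorem fa (h : (K = .one ∧ Fa u v) ∨ (K ≠ .one ∧ Fb u v)) (h1 : v.re ≤ 247 / 1000) :
    -(Real.pi * (u.im + v.im)) - LL (v - u) ≤ 9 / 100 - 3 / 10 * v.re := by
  rcases h with h | h
  · exact h.2.a h1
  · exact h.2.a h1

/-- small hinge, no neighbour `1` in slot 0 -/
theorem small_n (H : HtW A K T t S) (h0 : 0 < u.re) (hx : u.re ≤ 1 / 100) (hu : u.im = m * u.re)
    (hm : -(8167 / 10000) ≤ m) (hm' : m ≤ 475 / 1000)
    (hw : RH w S (pR K).XM (pR K).cl (pR K).cr)
    (hc' : w.re ≤ cpR K) (hv : RH v t (8 / 10) (5 / 100) (5 / 100)) (hr : 5 / 100 < v.re)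
    (hs : SinNe (v - u)) (hf : v.re < 75 / 100 → SM 0 u v w ≤ 0) :
    400 / 1000 < S3 1 m u v + Real.pi / 2 * m := by
  obtain ⟨t0, t1, -⟩ := H.t_all
  have hi := RH_im (v := v) (T := t) (a := -(123 / 1000)) (b := 5 / 1000)
    hv (by norm_num) (by norm_num) t0 t1
  have hM := hv.reM
  have := row_s (W := []) (cE := cN) (c := Real.pi / 2) (m := m) (u := u) (v := v)
    (by rw [List.append_nil]; exact k_sn1) k_sn3 (Sh_N _)
    h0 hx hu (by push_cast; linarith only [hm]) (by push_cast; linarith only [hm']) hs hr (by linarith only [hM]) (by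
      intro h36
      obtain ⟨e, hF⟩ := pre H hw hc' hv hr hf h36
      refine ⟨by rw [e]; push_cast; linarith only [t0], by rw [e]; push_cast; linarith only [t1], by simp, ?_,
        fa hF⟩
      intro h8
      exact useN' (chkT4 k_snn (by norm_num) (x := u.re) (y := m)
        (z := v.re) (w := v.im) (by push_cast; linarith only [h0]) (by push_cast; linarith only [hx])
        (by push_cast; linarith only [hm]) (by push_cast; linarith only [hm']) (by push_cast; linarith only [hr])
        (by push_cast; linarith only [hx, h8]) (by push_cast; linarith only [hi]) (by push_cast; linarith only [hi])) h8)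
    (by push_cast; linarith only [hi]) (by push_cast; linarith only [hi])
  push_cast at this
  exact this

/-- small hinge, neighbour `1` in slot 0 -/
theorem small_a (H : HtW .one K T t S) (h0 : 0 < u.re) (hx : u.re ≤ 1 / 100)
    (hu : u.im = m * u.re) (hT : 13 / 100 * m = T)
    (hw : RH w S (pR K).XM (pR K).cl (pR K).cr)
    (hc' : w.re ≤ cpR K) (hv : RH v t (8 / 10) (5 / 100) (5 / 100)) (hr : 5 / 100 < v.re)
    (hs : SinNe (v - u)) (hf : v.re < 75 / 100 → SM 0 u v w ≤ 0) :
    -(200 / 1000) < S3 1 m u v + (Real.pi - 9 / 2 * u.re) * m := by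
  have a1 := H.T0
  have a2 := H.T1
  simp only [hbox] at a1 a2
  have W : Wn 13 (-45) 84 (-900) 50 m t := win_of H (by push_cast; exact hT)
    (by cases K <;> norm_num [mw]) (by cases K <;> norm_num [mw]) (by cases K <;> norm_num [mw])
    (by cases K <;> norm_num [mw])
  have W1 := W.a
  have W2 := W.b
  push_cast at W1 W2
  have hi := RH_im (v := v) (T := t) (a := -(90 / 1000)) (b := 5 / 1000)
    hv (by norm_num) (by norm_num) (by linarith only [W1]) (by linarith only [W2])
  have hM := hv.reM
  have := row_s (W := lW 13 (-45) 84) (cE := cA) (c := Real.pi - 9 / 2 * u.re) (m := m) (u := u)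
    (v := v) k_sa1 k_sa3 (Sh_A _)
    h0 hx hu (by push_cast; linarith only [h0, hx, hT, a1]) (by push_cast; linarith only [h0, hx, hT, a2]) hs hr (by linarith only [hM]) (by
      intro h36
      obtain ⟨e, hF⟩ := pre H hw hc' hv hr hf h36
      refine ⟨by rw [e]; push_cast; linarith only [W1], by rw [e]; push_cast; linarith only [W2], ?_, ?_,
        fa hF⟩
      · intro x p
        rw [e]
        exact W.win
      · intro h8
        exact useN (chkT4 k_san (by norm_num) (x := u.re) (y := m)
          (z := v.re) (w := v.im) (by push_cast; linarith only [h0]) (by push_cast; linarith only [hx])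
          (by push_cast; linarith only [h0, hx, hT, a1]) (by push_cast; linarith only [h0, hx, hT, a2]) (by push_cast; linarith only [hr])
          (by push_cast; linarith only [hx, h8]) (by push_cast; linarith only [hi]) (by push_cast; linarith only [hi]))
          (by rw [e]; exact W) h8)
    (by push_cast; linarith only [hi]) (by push_cast; linarith only [hi])
  push_cast at this
  linarith only [this]

/-- neighbour `1` in slot 0 -/
theorem side_a (H : HtW .one K T t S) (h0 : 0 < u.re) (hx : u.re ≤ 13 / 100)
    (hu : u.im = m * u.re) (hT : 13 / 100 * m = T)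
    (hw : RH w S (pR K).XM (pR K).cl (pR K).cr)
    (hc' : w.re ≤ cpR K) (hv : RH v t (8 / 10) (5 / 100) (5 / 100)) (hr : 5 / 100 < v.re)
    (hs : SinNe (v - u)) (hf : v.re < 75 / 100 → SM 0 u v w ≤ 0) :
    (u.re ≤ 7 / 100 → -(200 / 1000) < S3 1 m u v + (Real.pi - 9 / 2 * u.re) * m) ∧
      -(295 / 1000) < S3 1 m u v + (Real.pi - 9 / 2 * u.re) * m := by
  have a1 := H.T0
  have a2 := H.T1
  simp only [hbox] at a1 a2
  have W : Wn 13 (-45) 84 (-900) 50 m t := win_of H (by push_cast; exact hT)
    (by cases K <;> norm_num [mw]) (by cases K <;> norm_num [mw]) (by cases K <;> norm_num [mw])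
    (by cases K <;> norm_num [mw])
  have W1 := W.a
  have W2 := W.b
  push_cast at W1 W2
  have hi := RH_im (v := v) (T := t) (a := -(90 / 1000)) (b := 5 / 1000)
    hv (by norm_num) (by norm_num) (by linarith only [W1]) (by linarith only [W2])
  have hM := hv.reM
  have lo : v.re ≤ 36 / 100 → (Wn 13 (-45) 70 (-900) (-180) m v.im ∧ Fa u v) ∨
      (Wn 13 (-40) 84 (-820) 50 m v.im ∧ Fb u v) := by
    intro h36
    obtain ⟨e, hF⟩ := pre H hw hc' hv hr hf h36
    rw [e]
    rcases hF with ⟨hK, hF⟩ | ⟨hK, hF⟩
    · left
      refine ⟨?_, hF⟩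
      subst hK
      exact win_of H (by push_cast; exact hT) (by norm_num [mw]) (by norm_num [mw])
        (by norm_num [mw]) (by norm_num [mw])
    · right
      refine ⟨?_, hF⟩
      exact win_of H (by push_cast; exact hT)
        (by cases K <;> first | exact absurd rfl hK | norm_num [mw])
        (by cases K <;> first | exact absurd rfl hK | norm_num [mw])
        (by cases K <;> first | exact absurd rfl hK | norm_num [mw])
        (by cases K <;> first | exact absurd rfl hK | norm_num [mw])
  have s1 : u.re ≤ 7 / 100 → -(200 / 1000) < S3 1 m u v + (Real.pi - 9 / 2 * u.re) * m := by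
    intro h7
    rcases le_total u.re (1 / 100) with h1 | h1
    · exact small_a H h0 h1 hu hT hw hc' hv hr hs hf
    · have := row_a k_an k_a1 k_a2a k_a2b k_a2c k_a2d k_a3 (m := m) (u := u) (v := v)
        (by push_cast; norm_num) (by push_cast; linarith only [h1]) h0 (by push_cast; linarith only [h7]) hx hu
        (by linarith only [h0, hT, a1, h7]) (by linarith only [h0, hT, a2, h7]) hs hr (by linarith only [hM]) lo hi.1 hi.2
      push_cast at this
      linarith only [this]
  refine ⟨s1, ?_⟩
  rcases le_total u.re (7 / 100) with h1 | h1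
  · linarith only [h0, h1, s1, s1 h1]
  · have := row_a k_bn k_b1 k_b2a k_b2b k_b2c k_b2d k_b3 (m := m) (u := u) (v := v)
      (by push_cast; norm_num) (by push_cast; linarith only [h1]) h0 (by push_cast; linarith only [hx]) hx hu
      (by linarith only [h0, hx, hT, a1]) (by linarith only [h0, hx, hT, a2]) hs hr (by linarith only [hM]) lo hi.1 hi.2
    push_cast at this
    linarith only [this]

/-- lower bounds of the shifted side -/
noncomputable def eT : Cl → ℝ
  | .two => 10 / 100
  | .twoE => 40 / 100
  | .three => 5 / 100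
  | .threeE => 10 / 100
  | _ => 15 / 100

/-- no neighbour `1` in slot 0 -/
theorem side_n (H : HtW A K T t S) (hA : A ≠ .one) (h0 : 0 < u.re) (hx : u.re ≤ (pL A).cl)
    (hu : u.im = m * u.re) (hT : (pL A).cl * m = T)
    (hw : RH w S (pR K).XM (pR K).cl (pR K).cr)
    (hc' : w.re ≤ cpR K) (hv : RH v t (8 / 10) (5 / 100) (5 / 100)) (hr : 5 / 100 < v.re)
    (hs : SinNe (v - u)) (hf : v.re < 75 / 100 → SM 0 u v w ≤ 0) :
    eT A < S3 1 m u v + Real.pi / 2 * m := by
  obtain ⟨tt0, tt1, -⟩ := H.t_all
  have a1 := H.T0
  have a2 := H.T1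
  have hM := hv.reM
  have hm : -(8167 / 10000) ≤ m ∧ m ≤ 475 / 1000 := by
    cases A
    · exact absurd rfl hA
    all_goals
      simp only [hbox, pL] at a1 a2 hT
      constructor <;> linarith only [hT, a1, a2]
  rcases le_total u.re (1 / 100) with hx1 | hx1
  · have := small_n H h0 hx1 hu hm.1 hm.2 hw hc' hv hr hs hf
    refine lt_of_le_of_lt ?_ this
    cases A <;> norm_num [eT]
  have hp : v.re ≤ 36 / 100 → v.im = t ∧ ((K = .one ∧ Fa u v) ∨ (K ≠ .one ∧ Fb u v)) :=
    pre H hw hc' hv hr hf
  cases A
  · exact absurd rfl hA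
  · simp only [hbox, pL] at a1 a2 hT hx
    have b1 := H.t0
    have b2 := H.t1
    have b3 : -(114 / 1000) ≤ t := le_trans (by cases K <;> norm_num [mw]) b1
    have hi := RH_im (v := v) (T := t) (a := -(114 / 1000)) (b := 5 / 1000)
      hv (by norm_num) (by norm_num) b3 tt1
    have := row_n k_tn k_t1 k_t2a k_t2c k_t2d k_t3 (m := m) (u := u) (v := v)
      (by push_cast; norm_num) (by norm_num) (by norm_num) hx1 (by push_cast; linarith only [hx])
      (by linarith only [h0, hx]) hu (by push_cast; linarith only [hT, a1]) (by push_cast; linarith only [h0, hx, hT, a2]) hs hr (by linarith only [hM])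
      (by
        intro h36
        obtain ⟨e, hF⟩ := hp h36
        rw [e]
        refine ⟨win_of H (by push_cast; exact hT) (by cases K <;> norm_num [mw])
          (by cases K <;> norm_num [mw]) (by cases K <;> norm_num [mw])
          (by cases K <;> norm_num [mw]), ?_⟩
        rcases hF with ⟨hK, hF⟩ | ⟨hK, hF⟩
        · left
          refine ⟨?_, hF⟩
          subst hK
          exact win_of H (by push_cast; exact hT) (by norm_num [mw]) (by norm_num [mw])
            (by norm_num [mw]) (by norm_num [mw])
        · right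
          refine ⟨?_, hF⟩
          exact win_of H (by push_cast; exact hT)
            (by cases K <;> first | exact absurd rfl hK | norm_num [mw])
            (by cases K <;> first | exact absurd rfl hK | norm_num [mw])
            (by cases K <;> first | exact absurd rfl hK | norm_num [mw])
            (by cases K <;> first | exact absurd rfl hK | norm_num [mw]))
      (by push_cast; linarith only [hi]) (by push_cast; linarith only [hi])
    push_cast at this
    simp only [eT]
    linarith only [this]
  · simp only [hbox, pL] at a1 a2 hT hx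
    have b2 : t ≤ 0 := H.t1.trans (by cases K <;> norm_num [mw])
    have hi := RH_im (v := v) (T := t) (a := -(123 / 1000)) (b := 0)
      hv (by norm_num) (by norm_num) tt0 b2
    have := row_n k_en k_e1 k_e2a k_e2c k_e2d k_e3 (m := m) (u := u) (v := v)
      (by push_cast; norm_num) (by norm_num) (by norm_num) hx1 (by push_cast; linarith only [hx])
      (by linarith only [h0, hx]) hu (by push_cast; linarith only [h0, hx, hT, a1]) (by push_cast; linarith only [h0, hx, hT, a2]) hs hr (by linarith only [hM])
      (by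
        intro h36
        obtain ⟨e, hF⟩ := hp h36
        rw [e]
        refine ⟨win_of H (by push_cast; exact hT) (by cases K <;> norm_num [mw])
          (by cases K <;> norm_num [mw]) (by cases K <;> norm_num [mw])
          (by cases K <;> norm_num [mw]), ?_⟩
        rcases hF with ⟨hK, hF⟩ | ⟨hK, hF⟩
        · left
          refine ⟨?_, hF⟩
          subst hK
          exact win_of H (by push_cast; exact hT) (by norm_num [mw]) (by norm_num [mw])
            (by norm_num [mw]) (by norm_num [mw])
        · right
          refine ⟨?_, hF⟩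
          exact win_of H (by push_cast; exact hT)
            (by cases K <;> first | exact absurd rfl hK | norm_num [mw])
            (by cases K <;> first | exact absurd rfl hK | norm_num [mw])
            (by cases K <;> first | exact absurd rfl hK | norm_num [mw])
            (by cases K <;> first | exact absurd rfl hK | norm_num [mw]))
      (by push_cast; linarith only [hi]) (by push_cast; linarith only [hi])
    push_cast at this
    simp only [eT]
    linarith only [this]
  · simp only [hbox, pL] at a1 a2 hT hx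
    have b1 := H.t0
    have b3 : -(114 / 1000) ≤ t := le_trans (by cases K <;> norm_num [mw]) b1
    have hi := RH_im (v := v) (T := t) (a := -(114 / 1000)) (b := 5 / 1000)
      hv (by norm_num) (by norm_num) b3 tt1
    have := row_n k_hn k_h1 k_h2a k_h2c k_h2d k_h3 (m := m) (u := u) (v := v)
      (by push_cast; norm_num) (by norm_num) (by norm_num) hx1 (by push_cast; linarith only [hx])
      (by linarith only [hx]) hu (by push_cast; linarith only [h0, hx, hT, a1]) (by push_cast; linarith only [h0, hx, hT, a2]) hs hr (by linarith only [hM])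
      (by
        intro h36
        obtain ⟨e, hF⟩ := hp h36
        rw [e]
        refine ⟨win_of H (by push_cast; exact hT) (by cases K <;> norm_num [mw])
          (by cases K <;> norm_num [mw]) (by cases K <;> norm_num [mw])
          (by cases K <;> norm_num [mw]), ?_⟩
        rcases hF with ⟨hK, hF⟩ | ⟨hK, hF⟩
        · left
          refine ⟨?_, hF⟩
          subst hK
          exact win_of H (by push_cast; exact hT) (by norm_num [mw]) (by norm_num [mw])
            (by norm_num [mw]) (by norm_num [mw])
        · right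
          refine ⟨?_, hF⟩
          exact win_of H (by push_cast; exact hT)
            (by cases K <;> first | exact absurd rfl hK | norm_num [mw])
            (by cases K <;> first | exact absurd rfl hK | norm_num [mw])
            (by cases K <;> first | exact absurd rfl hK | norm_num [mw])
            (by cases K <;> first | exact absurd rfl hK | norm_num [mw]))
      (by push_cast; linarith only [hi]) (by push_cast; linarith only [hi])
    push_cast at this
    simp only [eT]
    linarith only [this]
  · simp only [hbox, pL] at a1 a2 hT hx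
    have b1 := H.t0
    have b3 : -(114 / 1000) ≤ t := le_trans (by cases K <;> norm_num [mw]) b1
    have hi := RH_im (v := v) (T := t) (a := -(114 / 1000)) (b := 5 / 1000)
      hv (by norm_num) (by norm_num) b3 tt1
    have := row_n k_gn k_g1 k_g2a k_g2c k_g2d k_g3 (m := m) (u := u) (v := v)
      (by push_cast; norm_num) (by norm_num) (by norm_num) hx1 (by push_cast; linarith only [hx])
      (by linarith only [h0, hx]) hu (by push_cast; linarith only [h0, hx, hT, a1]) (by push_cast; linarith only [h0, hx, hT, a2]) hs hr (by linarith only [hM])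
      (by
        intro h36
        obtain ⟨e, hF⟩ := hp h36
        rw [e]
        refine ⟨win_of H (by push_cast; exact hT) (by cases K <;> norm_num [mw])
          (by cases K <;> norm_num [mw]) (by cases K <;> norm_num [mw])
          (by cases K <;> norm_num [mw]), ?_⟩
        rcases hF with ⟨hK, hF⟩ | ⟨hK, hF⟩
        · left
          refine ⟨?_, hF⟩
          subst hK
          exact win_of H (by push_cast; exact hT) (by norm_num [mw]) (by norm_num [mw])
            (by norm_num [mw]) (by norm_num [mw])
        · right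
          refine ⟨?_, hF⟩
          exact win_of H (by push_cast; exact hT)
            (by cases K <;> first | exact absurd rfl hK | norm_num [mw])
            (by cases K <;> first | exact absurd rfl hK | norm_num [mw])
            (by cases K <;> first | exact absurd rfl hK | norm_num [mw])
            (by cases K <;> first | exact absurd rfl hK | norm_num [mw]))
      (by push_cast; linarith only [hi]) (by push_cast; linarith only [hi])
    push_cast at this
    simp only [eT]
    linarith only [this]
  · have a0 := H.TZ rfl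
    simp only [hbox, pL] at a1 a2 hT hx
    have b1 := H.t0
    have b3 : -(114 / 1000) ≤ t := le_trans (by cases K <;> norm_num [mw]) b1
    have hi := RH_im (v := v) (T := t) (a := -(114 / 1000)) (b := 5 / 1000)
      hv (by norm_num) (by norm_num) b3 tt1
    have := row_n k_zn k_z1 k_z2a k_z2c k_z2d k_z3 (m := m) (u := u) (v := v)
      (by push_cast; norm_num) (by norm_num) (by norm_num) hx1 (by push_cast; linarith only [hx])
      (by linarith only [h0, hx]) hu (by push_cast; linarith only [h0, hx, hT, a0]) (by push_cast; linarith only [hm]) hs hr (by linarith only [hM])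
      (by
        intro h36
        obtain ⟨e, hF⟩ := hp h36
        rw [e]
        refine ⟨win_of H (by push_cast; exact hT) (by cases K <;> norm_num [mw])
          (by cases K <;> norm_num [mw]) (by cases K <;> norm_num [mw])
          (by cases K <;> norm_num [mw]), ?_⟩
        rcases hF with ⟨hK, hF⟩ | ⟨hK, hF⟩
        · left
          refine ⟨?_, hF⟩
          subst hK
          exact win_of H (by push_cast; exact hT) (by norm_num [mw]) (by norm_num [mw])
            (by norm_num [mw]) (by norm_num [mw])
        · right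
          refine ⟨?_, hF⟩
          exact win_of H (by push_cast; exact hT)
            (by cases K <;> first | exact absurd rfl hK | norm_num [mw])
            (by cases K <;> first | exact absurd rfl hK | norm_num [mw])
            (by cases K <;> first | exact absurd rfl hK | norm_num [mw])
            (by cases K <;> first | exact absurd rfl hK | norm_num [mw]))
      (by push_cast; linarith only [hi]) (by push_cast; linarith only [hi])
    push_cast at this
    simp only [eT]
    linarith only [this]

end S0

end VL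

end Pool.Agent.Work.MP_b30479_gtS.G2

end

section

/-!
# Side of the slot-0 hinge of an inner digit `3`, left ramp, in a word
-/

namespace Pool.Agent.Work.MP_b30479_gtS.G2

open VOL NumUs

namespace VL

namespace S0

theorem sinNe_ofr (c : ℤ) {u : ℂ} (h : SinNe u) : SinNe (ofr c u) := by
  unfold ofr
  split_ifs
  · exact h
  · unfold SinNe at h ⊢
    intro h1
    apply h
    have h2 : (starRingEnd ℂ) (Complex.sin ((Real.pi : ℂ) * u)) = 0 := by
      rw [← Complex.sin_conj, map_mul, Complex.conj_ofReal]
      exact h1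
    simpa using h2

theorem ofr_add (c : ℤ) (u v : ℂ) : ofr c (u + v) = ofr c u + ofr c v := by
  unfold ofr
  split_ifs
  · rfl
  · exact map_add _ _ _

theorem ofr_sub (c : ℤ) (u v : ℂ) : ofr c (u - v) = ofr c u - ofr c v := by
  unfold ofr
  split_ifs
  · rfl
  · exact map_sub _ _ _

end S0

end VL

namespace SR

variable {M : ℕ} {b : Fin (M + 1) → ℤ} {zs : DD (tyW b) ⊕ ZZ (tyW b) → ℂ}
variable {y : DD (tyW b) ⊕ ZZ (tyW b) → ℝ}
variable {h h' : Fin M} {i j k : Fin (M + 1)}

/-- no factor of the inner variable of a maximiser vanishes -/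
theorem sinNe_three (hc : clsW b i = .three)
    (hy : IsMx (wdat (tyW b) b) (wpar b zs) zs y) (hpos : ∀ h : Fin M, 0 < y (.inl (.inl h)))
    (hm : 0 < y (.inl (.inr (mT b hc)))) :
    SinNe (Yw b zs y i 1 + Yw b zs y i 2) ∧ SinNe (Yw b zs y i 1 - Yw b zs y i 0) := by
  have h1 := hy.facCo_mid (std_wpar b zs) hpos (mT b hc) hm
  have ht := tyW_of_three hc
  simp only [mT] at h1
  rw [ht] at h1
  have h2 := h1 ⟨![0, 1, 1], 0, 1 / 2⟩ (by
    generalize decide (i ≠ 0) = l
    generalize decide (i ≠ Fin.last M) = r
    cases l <;> cases r <;> simp [facs, hR]) (by simp)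
  have h3 := h1 ⟨![1, -1, 0], 1, -(1 / 2)⟩ (by
    generalize decide (i ≠ 0) = l
    generalize decide (i ≠ Fin.last M) = r
    cases l <;> cases r <;> simp [facs, hR]) (by simp)
  have v2 : ∀ w u : ℂ, 1 + (w + -u) = 1 - (u - w) := fun w u => by ring
  simp [Fac.form_mk] at h2 h3
  rw [v2] at h3
  have h4 := h2.2
  have h5 := sinNe_one_sub.1 h3.2
  unfold Yw
  rw [← VL.S0.ofr_add, ← VL.S0.ofr_sub]
  exact ⟨VL.S0.sinNe_ofr _ h4, VL.S0.sinNe_ofr _ h5⟩

/-- **Side of the slot-0 hinge of an inner digit `3` on its left ramp.** -/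
theorem three_side0 (hb : ClassW b) (hL : Loc b zs) (hX : LocX b zs)
    (hy : IsMx (wdat (tyW b) b) (wpar b zs) zs y) (hpos : ∀ h : Fin M, 0 < y (.inl (.inl h)))
    (A : Adj h i 0 j) (A' : Adj h' i 2 k) (hc : clsW b i = .three)
    (hx : y (.inl (.inl h)) ≤ wcl b h) (hw : y (.inl (.inl h')) ≤ VL.cpR (clsW b k)) :
    (clsW b j ≠ .one → VL.S0.eT (clsW b j) < Sw b zs y i 0 ((zs (.inl (.inl h))).im / wcl b h) +
      Real.pi / 2 * ofs (b i) ((zs (.inl (.inl h))).im / wcl b h)) ∧
    (clsW b j = .one →
      (y (.inl (.inl h)) ≤ 7 / 100 → -(200 / 1000) <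
        Sw b zs y i 0 ((zs (.inl (.inl h))).im / wcl b h) +
        (Real.pi - 9 / 2 * y (.inl (.inl h))) * ofs (b i) ((zs (.inl (.inl h))).im / wcl b h)) ∧
      -(295 / 1000) < Sw b zs y i 0 ((zs (.inl (.inl h))).im / wcl b h) +
        (Real.pi - 9 / 2 * y (.inl (.inl h))) * ofs (b i) ((zs (.inl (.inl h))).im / wcl b h)) := by
  obtain ⟨e1, e2, e3⟩ := A.par_three0 hc
  obtain ⟨e1', e2', e3'⟩ := A'.par_three2 hc
  have q := A.rh hy
  have q' := A'.rh hy
  rw [e1, e2, e3] at q
  rw [e1', e2', e3'] at q'
  have hxL : (VL.pL (clsW b j)).cl ≤ 13 / 100 ∧ 0 < (VL.pL (clsW b j)).cl ∧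
      0 < (VL.pL (clsW b j)).cr ∧
      (VL.pL (clsW b j)).cl + (VL.pL (clsW b j)).cr < (VL.pL (clsW b j)).XM ∧
      13 / 100 ≤ VL.cpL (clsW b j) := by
    cases clsW b j <;> norm_num [VL.pL, VL.cpL]
  obtain ⟨l1, l2, l3, l4, l5⟩ := hxL
  have hx' : y (.inl (.inl h)) ≤ (VL.pL (clsW b j)).cl := by rwa [← e2]
  have hgt := mid_gt hb hL hX hy A A' hc (by linarith) hw
  have hm : 0 < y (.inl (.inr (mT b hc))) := by linarith
  obtain ⟨p1, p2, p3⟩ := pp_mT (zs := zs) hc
  have hR := mid_RH hy (mT b hc)
  rw [p1, p2, p3] at hR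
  have hre : (Yw b zs y (mT b hc).1 1).re = y (.inl (.inr (mT b hc))) := by
    rw [Yw_mid (zs := zs) (y := y) (mT b hc), ofr_pp_re]
  have hF := (mid_fc hb hy hpos (mT b hc) hm).flat
  rw [p1, p2, p3] at hF
  have hF' : (Yw b zs y i 1).re < 75 / 100 →
      SM 0 (Yw b zs y i 0) (Yw b zs y i 1) (Yw b zs y i 2) ≤ 0 := by
    intro h75
    have := hF (by rw [hre]; exact hgt.le) (by
      show (Yw b zs y i 1).re < _
      linarith)
    rwa [show OM b zs y (mT b hc).1 0 = OM b zs y i 0 from rfl, OM_three hc] at this
  have hs := (sinNe_three hc hy hpos hm).2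
  have hH := htW hb hL hX A A' hc
  have hre0 : (Yw b zs y i 0).re = y (.inl (.inl h)) := A.re
  have hre1 : (Yw b zs y i 1).re = y (.inl (.inr (mT b hc))) := hre
  have hm0 : ofs (b i) ((zs (.inl (.inl h))).im / wcl b h) =
      ofs (b i) (zs (.inl (.inl h))).im / (VL.pL (clsW b j)).cl := by
    rw [ofs_div, e2]
  have hu : (Yw b zs y i 0).im = ofs (b i) (zs (.inl (.inl h))).im / (VL.pL (clsW b j)).cl *
      (Yw b zs y i 0).re := by
    rw [q.im, tr_a l2 l3 l4 q.re0 (by rw [hre0]; exact hx')]
    ring
  have hT : (VL.pL (clsW b j)).cl * (ofs (b i) (zs (.inl (.inl h))).im /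
      (VL.pL (clsW b j)).cl) = ofs (b i) (zs (.inl (.inl h))).im := by
    field_simp
  rw [A.side_three_zero hb hc, hm0]
  constructor
  · intro hj
    exact VL.S0.side_n hH hj (by rw [hre0]; exact hpos h) (by rw [hre0]; exact hx') hu hT q'
      (by rw [A'.re]; exact hw) hR (lt_of_lt_of_eq hgt hre1.symm) hs hF'
  · intro hj
    rw [hj] at hH hu hT hx' ⊢
    have := VL.S0.side_a hH (by rw [hre0]; exact hpos h) (by rw [hre0]; exact hx') hu hT q'
      (by rw [A'.re]; exact hw) hR (lt_of_lt_of_eq hgt hre1.symm) hs hF'
    rw [hre0] at this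
    exact this

end SR

end Pool.Agent.Work.MP_b30479_gtS.G2

end
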